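import Pool.Agent.W_7d29a1_C1.CmpU83

/-!
MP_7d29a1_pr, [C1], SHELL: (d3) in the letters of the success (helper21 80943): profiles `Prf`, kernels `Krn` with a size `A`
(the luck, which cancels), slopes arbitrary (also joint). (helper83)

* `Krn.comp`, `Prf.pull`, `Krn.of_le` : composition, the profile at the start (`(d2)`), kernels below an envelope (the joint slope);
* `d3F_83` : seam + regular future + share of the exit `⇒ W_Q ≥ (1 - ε') (1 - 2 z)`;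
* `d3E_83`, `d3E_Cx` : rows `i = c0`, `K = i + n = e`, `K + m = c3`: seam in, inside `Krn`, exit `Krn` (lower halves through `δ₀ ⊆ δ`,
  small off the start cell `δ`), seam out `Prf`.
-/

set_option autoImplicit false

namespace Pool.Agent.W_7d29a1_C1.S83

open Finset
open Pool.Agent.W_7d29a1_C1.K91 (Grp Box ps2 ps2_congr ps2_add ps2_mul wt wt_pos)
open Pool.Agent.W_7d29a1_C1.K91P
open Pool.Agent.W_7d29a1_C1.U31 (sum_fw_bw)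
open Pool.Agent.W_7d29a1_C1.U16 (ker ker_zero ker_succ ker_nonneg ker_eq_zero ker_congr fw_ker bw_ker ker_add)
open Pool.Agent.W_7d29a1_C1.Bx47
open Pool.Agent.W_7d29a1_F (Env)
open Pool.Agent.W_7d29a1_C1.H60

noncomputable section

/-! ### Profiles and kernels -/

/-- The profile at a row: below the slope `ps`, of the size `G0` on the window `d`. -/
structure Prf (T d : Finset ℤ) (G ps : ℤ → ℝ) (V G0 : ℝ) : Prop where
  up : ∀ z ∈ T, G z ≤ V * ps z * G0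
  lo : ∀ z ∈ d, G0 ≤ V * G z

/-- The kernel between two rows: it maps the slope `ps` under the slope `ph`; from `c` to `d` it has the size `A`. -/
structure Krn (S T c d : Finset ℤ) (K : ℤ → ℤ → ℝ) (ph ps : ℤ → ℝ) (L A : ℝ) : Prop where
  up : ∀ x ∈ S, ∑ y ∈ T, K x y * ps y ≤ L * ph x * A
  lo : ∀ x ∈ c, A ≤ L * ∑ y ∈ d, K x y

theorem Prf.mono {T d T' d' : Finset ℤ} {G ps : ℤ → ℝ} {V V' G0 : ℝ} (h : Prf T d G ps V G0) (hT : T' ⊆ T) (hd : d' ⊆ d)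
    (hV : V ≤ V') (g0 : ∀ z ∈ d, 0 ≤ G z) (p0 : ∀ z ∈ T, 0 ≤ ps z) (hG0 : 0 ≤ G0) : Prf T' d' G ps V' G0 :=
  ⟨fun z hz => (h.up z (hT hz)).trans (mul_le_mul_of_nonneg_right (mul_le_mul_of_nonneg_right hV (p0 z (hT hz))) hG0),
    fun z hz => (h.lo z (hd hz)).trans (mul_le_mul_of_nonneg_right hV (g0 z (hd hz)))⟩

theorem Krn.mono {S T c d S' c' : Finset ℤ} {K : ℤ → ℤ → ℝ} {ph ps : ℤ → ℝ} {L L' A : ℝ} (h : Krn S T c d K ph ps L A) (hS : S' ⊆ S)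
    (hc : c' ⊆ c) (hL : L ≤ L') (K0 : ∀ x y, 0 ≤ K x y) (p0 : ∀ x ∈ S, 0 ≤ ph x) (hA : 0 ≤ A) : Krn S' T c' d K ph ps L' A :=
  ⟨fun x hx => (h.up x (hS hx)).trans (mul_le_mul_of_nonneg_right (mul_le_mul_of_nonneg_right hL (p0 x (hS hx))) hA),
    fun x hx => (h.lo x (hc hx)).trans (mul_le_mul_of_nonneg_right hL (sum_nonneg fun y _ => K0 x y))⟩

/-- **Composition of the kernels; the sizes multiply.** -/
theorem Krn.comp {S T U c d e : Finset ℤ} {K K' : ℤ → ℤ → ℝ} {ph ps pt : ℤ → ℝ} {L L' A A' : ℝ} (h : Krn S T c d K ph ps L A)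
    (h' : Krn T U d e K' ps pt L' A') (hd : d ⊆ T) (K0 : ∀ x y, 0 ≤ K x y) (K0' : ∀ x y, 0 ≤ K' x y) (hL : 0 ≤ L) (hL' : 0 ≤ L')
    (hA' : 0 ≤ A') : Krn S U c e (fun x z => ∑ y ∈ T, K x y * K' y z) ph pt (L * L') (A * A') := by
  refine ⟨fun x hx => ?_, fun x hx => ?_⟩
  · have e1 : ∑ z ∈ U, (∑ y ∈ T, K x y * K' y z) * pt z = ∑ y ∈ T, K x y * ∑ z ∈ U, K' y z * pt z := by
      simp_rw [sum_mul, mul_sum]
      rw [sum_comm]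
      refine sum_congr rfl fun y _ => sum_congr rfl fun z _ => ?_
      ring
    rw [e1]
    calc ∑ y ∈ T, K x y * ∑ z ∈ U, K' y z * pt z ≤ ∑ y ∈ T, K x y * (L' * ps y * A') :=
          sum_le_sum fun y hy => mul_le_mul_of_nonneg_left (h'.up y hy) (K0 x y)
      _ = L' * A' * ∑ y ∈ T, K x y * ps y := by
          rw [mul_sum]
          refine sum_congr rfl fun y _ => ?_
          ring
      _ ≤ L' * A' * (L * ph x * A) := mul_le_mul_of_nonneg_left (h.up x hx) (mul_nonneg hL' hA')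
      _ = _ := by ring
  · have h1 : A' * ∑ y ∈ d, K x y ≤ L' * ∑ z ∈ e, ∑ y ∈ T, K x y * K' y z := by
      calc A' * ∑ y ∈ d, K x y = ∑ y ∈ d, K x y * A' := by
            rw [mul_sum]
            refine sum_congr rfl fun y _ => ?_
            ring
        _ ≤ ∑ y ∈ d, K x y * (L' * ∑ z ∈ e, K' y z) := sum_le_sum fun y hy => mul_le_mul_of_nonneg_left (h'.lo y hy) (K0 x y)
        _ = L' * ∑ z ∈ e, ∑ y ∈ d, K x y * K' y z := by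
            rw [sum_comm, mul_sum]
            refine sum_congr rfl fun y _ => ?_
            rw [mul_sum, mul_sum, mul_sum]
            refine sum_congr rfl fun z _ => ?_
            ring
        _ ≤ _ := by
            refine mul_le_mul_of_nonneg_left (sum_le_sum fun z _ => ?_) hL'
            exact sum_le_sum_of_subset_of_nonneg hd fun y _ _ => mul_nonneg (K0 x y) (K0' y z)
    calc A * A' ≤ (L * ∑ y ∈ d, K x y) * A' := mul_le_mul_of_nonneg_right (h.lo x hx) hA'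
      _ = L * (A' * ∑ y ∈ d, K x y) := by ring
      _ ≤ L * (L' * ∑ z ∈ e, ∑ y ∈ T, K x y * K' y z) := mul_le_mul_of_nonneg_left h1 hL
      _ = _ := by ring

/-- **The profile before the kernel** (`(d2)`: `DOut` and the typical slab give the seam). -/
theorem Prf.pull {S T c d : Finset ℤ} {K : ℤ → ℤ → ℝ} {G F ph ps : ℤ → ℝ} {L A V G0 : ℝ} (h : Krn S T c d K ph ps L A)
    (hG : Prf T d G ps V G0) (hF : ∀ x ∈ S, F x = ∑ y ∈ T, K x y * G y) (hd : d ⊆ T) (hc : c ⊆ S) (K0 : ∀ x y, 0 ≤ K x y)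
    (g0 : ∀ y, 0 ≤ G y) (hV : 0 ≤ V) (hL : 0 ≤ L) (hG0 : 0 ≤ G0) : Prf S c F ph (V * L) (A * G0) := by
  refine ⟨fun x hx => ?_, fun x hx => ?_⟩
  · rw [hF x hx]
    calc ∑ y ∈ T, K x y * G y ≤ ∑ y ∈ T, K x y * (V * ps y * G0) :=
          sum_le_sum fun y hy => mul_le_mul_of_nonneg_left (hG.up y hy) (K0 x y)
      _ = V * G0 * ∑ y ∈ T, K x y * ps y := by
          rw [mul_sum]
          refine sum_congr rfl fun y _ => ?_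
          ring
      _ ≤ V * G0 * (L * ph x * A) := mul_le_mul_of_nonneg_left (h.up x hx) (mul_nonneg hV hG0)
      _ = _ := by ring
  · have h1 : G0 * ∑ y ∈ d, K x y ≤ V * F x := by
      rw [hF x (hc hx)]
      calc G0 * ∑ y ∈ d, K x y = ∑ y ∈ d, K x y * G0 := by
            rw [mul_sum]
            refine sum_congr rfl fun y _ => ?_
            ring
        _ ≤ ∑ y ∈ d, K x y * (V * G y) := sum_le_sum fun y hy => mul_le_mul_of_nonneg_left (hG.lo y hy) (K0 x y)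
        _ ≤ ∑ y ∈ T, K x y * (V * G y) := sum_le_sum_of_subset_of_nonneg hd fun y _ _ =>
            mul_nonneg (K0 x y) (mul_nonneg hV (g0 y))
        _ = V * ∑ y ∈ T, K x y * G y := by
            rw [mul_sum]
            refine sum_congr rfl fun y _ => ?_
            ring
    calc A * G0 ≤ (L * ∑ y ∈ d, K x y) * G0 := mul_le_mul_of_nonneg_right (h.lo x hx) hG0
      _ = L * (G0 * ∑ y ∈ d, K x y) := by ring
      _ ≤ L * (V * F x) := mul_le_mul_of_nonneg_left h1 hL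
      _ = _ := by ring

/-- The upper half of `Krn` from an envelope `kap` (the joint slope `ph x = ∑ kap x y ps y`). -/
theorem up_of_env {S T : Finset ℤ} {K kap : ℤ → ℤ → ℝ} {ph ps : ℤ → ℝ} {L A : ℝ} (hk : ∀ x ∈ S, ∀ y ∈ T, K x y ≤ L * A * kap x y)
    (p0 : ∀ y ∈ T, 0 ≤ ps y) (hph : ∀ x ∈ S, ph x = ∑ y ∈ T, kap x y * ps y) : ∀ x ∈ S, ∑ y ∈ T, K x y * ps y ≤ L * ph x * A := by
  intro x hx
  rw [hph x hx, mul_sum, sum_mul]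
  refine sum_le_sum fun y hy => ?_
  refine (mul_le_mul_of_nonneg_right (hk x hx y hy) (p0 y hy)).trans (le_of_eq ?_)
  ring

/-! ### The weight of the box from a regular future -/

variable {w : ℕ → ℤ → ℝ} {p : ℕ → ℝ} {l r : ℤ → ℝ} {X lo hi : ℤ} {N : ℕ}

/-- **Seam, regular future, share of the exit.** -/
theorem d3F_83 (hw : ∀ k y, 0 < w k y) (hp : ∀ k, 0 < p k) (h : Box l r X lo hi N) {Q : Finset (ℕ × ℤ)} {K i n : ℕ}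
    (hK : i + n = K) (hKN : K ≤ N) (hQ : Q ⊆ Ico i K ×ˢ Icc lo hi) {β₁ β₂ δ S : Finset ℤ} (hS : S ⊆ Icc lo hi)
    (hS0 : ∀ x ∈ Icc lo hi, x ∉ S → fw w p l i x = 0 ∧ fw w p r i x = 0) (hc1 : β₁ ∪ β₂ ⊆ S) (hδ : δ ⊆ Icc lo hi)
    (hlt : ∀ x ∈ β₁, ∀ x' ∈ β₂, x < x') {ε' e1 e2 z3 Lam F0 : ℝ} {ph : ℤ → ℝ} (hε' : ε' ≤ 1) (he1 : 0 ≤ e1) (he2 : 0 ≤ e2)
    (hz3 : 0 ≤ z3) (hL : 0 ≤ Lam) (hF0 : 0 ≤ F0) {z : ℝ} (hz : Lam ^ 2 * (e2 + e1 * (1 + e2)) + z3 ≤ z) (hz1 : z ≤ 1)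
    (hin : ∀ x ∈ β₁, ∀ x' ∈ β₂, ∀ y ∈ δ, ∀ y' ∈ δ,
      (1 - ε') * (ker w p i n x y * ker w p i n x' y') ≤ mq w p Q i n x x' y y')
    (hI : SeamI (Icc lo hi) β₁ β₂ (fw w p l i) (fw w p r i) ph e1 e2)
    (r1 : ∀ x ∈ S, x ∉ β₁ ∪ β₂ → bw w p i (N - i) x ≤ Lam * ph x * F0)
    (r2 : ∀ x ∈ β₁ ∪ β₂, bw w p i (N - i) x ≤ Lam * F0) (r3 : ∀ x ∈ β₁ ∪ β₂, F0 ≤ Lam * bw w p i (N - i) x)
    (hsh : ∀ x ∈ β₁ ∪ β₂, (1 - z3) * bw w p i (N - i) x ≤ ∑ y ∈ δ, ker w p i n x y * bw w p K (N - K) y) {ZM ZR : ℝ}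
    (hZM : ZM = ∑ y ∈ Icc lo hi, l y * bw w p 0 N y) (hZR : ZR = ∑ y ∈ Icc lo hi, r y * bw w p 0 N y) :
    (1 - ε') * (1 - 2 * z) * (ZM * ZR) ≤ ∑ c ∈ Q, cq w p l r N c.1 c.2 := by
  have hlo : lo + N ≤ hi := by
    have := h.X0
    have := h.X1
    omega
  have hd : Disjoint β₁ β₂ := disjoint_left.2 fun x hx hx' => absurd (hlt x hx x hx') (lt_irrefl x)
  have A0 : ∀ a, 0 ≤ fw w p l i a := fw_nonneg hw hp h.g.l0 i
  have B0' : ∀ a, 0 ≤ fw w p r i a := fw_nonneg hw hp h.g.r0 i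
  have F0' : ∀ a, 0 < bw w p i (N - i) a := bw_pos hw hp _ _
  have key : ∀ (m : ℤ → ℝ) (C₁ C₂ : Finset ℤ), (∀ x, 0 ≤ fw w p m i x) → (∀ x ∈ Icc lo hi, x ∉ S → fw w p m i x = 0) → C₁ ⊆ S →
      C₂ ⊆ S → Disjoint C₁ C₂ → C₁ ∪ C₂ = β₁ ∪ β₂ →
      ∑ x ∈ Icc lo hi \ (β₁ ∪ β₂), fw w p m i x * ph x ≤ e1 * ∑ x ∈ β₁ ∪ β₂, fw w p m i x →
      ∑ x ∈ C₂, fw w p m i x ≤ e2 * ∑ x ∈ C₁, fw w p m i x →
      ∑ x ∈ Icc lo hi, fw w p m i x * bw w p i (N - i) x ≤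
        (1 + Lam ^ 2 * (e2 + e1 * (1 + e2))) * ∑ x ∈ C₁, fw w p m i x * bw w p i (N - i) x := by
    intro m C₁ C₂ m0 m1 s1 s2 sd su so st
    have e1' : ∑ x ∈ Icc lo hi, fw w p m i x * bw w p i (N - i) x = ∑ x ∈ S, fw w p m i x * bw w p i (N - i) x := by
      symm
      refine sum_subset hS fun x hx hx' => ?_
      rw [m1 x hx hx', zero_mul]
    have e2' : ∑ x ∈ S \ (β₁ ∪ β₂), fw w p m i x * ph x = ∑ x ∈ Icc lo hi \ (β₁ ∪ β₂), fw w p m i x * ph x := by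
      refine sum_subset (sdiff_subset_sdiff hS subset_rfl) fun x hx hx' => ?_
      rw [mem_sdiff] at hx hx'
      rw [m1 x hx.1 (fun hc => hx' ⟨hc, hx.2⟩), zero_mul]
    rw [e1']
    refine seam_dom s1 s2 sd m0 hF0 hL he1 he2 (by rw [su, e2']; exact so) st ?_ ?_ ?_
    · rw [su]
      exact fun x hx => r1 x (mem_sdiff.1 hx).1 (mem_sdiff.1 hx).2
    · rw [su]
      exact r2
    · intro x hx
      exact r3 x (su ▸ mem_union_left _ hx)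
  have c1 : β₁ ⊆ S := fun x hx => hc1 (mem_union_left _ hx)
  have c2 : β₂ ⊆ S := fun x hx => hc1 (mem_union_right _ hx)
  have dA := key l β₁ β₂ A0 (fun x hx hx' => (hS0 x hx hx').1) c1 c2 hd rfl hI.offa hI.ta
  have dB := key r β₂ β₁ B0' (fun x hx hx' => (hS0 x hx hx').2) c2 c1 hd.symm (union_comm _ _) hI.offb hI.tb
  rw [sum_fw_bw (fun y hy => (h.lo0 y hy).1) (fun y hy => (h.hi0 y hy).1) hlo i (by omega), ← hZM] at dA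
  rw [sum_fw_bw (fun y hy => (h.lo0 y hy).2) (fun y hy => (h.hi0 y hy).2) hlo i (by omega), ← hZR] at dB
  have zz : 0 ≤ Lam ^ 2 * (e2 + e1 * (1 + e2)) := by positivity
  have sh : ∀ (m : ℤ → ℝ) (C₁ : Finset ℤ), (∀ x, 0 ≤ fw w p m i x) → C₁ ⊆ β₁ ∪ β₂ →
      (1 - z3) * ∑ x ∈ C₁, fw w p m i x * bw w p i (N - i) x ≤ thrS w p m N K i n C₁ δ := by
    intro m C₁ m0 hC
    unfold thrS thr
    rw [mul_sum]
    refine sum_le_sum fun x hx => ?_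
    rw [← mul_sum]
    have h2 := mul_le_mul_of_nonneg_left (hsh x (hC hx)) (m0 x)
    linarith
  have fin : ∀ (m : ℤ → ℝ) (C₁ : Finset ℤ) (Z : ℝ), (∀ x, 0 ≤ fw w p m i x) → C₁ ⊆ β₁ ∪ β₂ →
      Z ≤ (1 + Lam ^ 2 * (e2 + e1 * (1 + e2))) * ∑ x ∈ C₁, fw w p m i x * bw w p i (N - i) x →
      (1 - z) * Z ≤ thrS w p m N K i n C₁ δ := by
    intro m C₁ Z m0 hC hZ
    obtain ⟨A, hA⟩ : ∃ A : ℝ, A = ∑ x ∈ C₁, fw w p m i x * bw w p i (N - i) x := ⟨_, rfl⟩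
    have hA0 : 0 ≤ A := hA ▸ sum_nonneg fun x _ => mul_nonneg (m0 x) (F0' x).le
    have h1 := sh m C₁ m0 hC
    rw [← hA] at hZ h1
    have h2 := mul_le_mul_of_nonneg_left hZ (show (0 : ℝ) ≤ 1 - z by linarith)
    have h3 : (1 - z) * ((1 + Lam ^ 2 * (e2 + e1 * (1 + e2))) * A) ≤ (1 - z3) * A := by
      rw [← mul_assoc]
      refine mul_le_mul_of_nonneg_right ?_ hA0
      have h5 : 1 - z ≤ 1 := by linarith
      have h6 := mul_le_mul_of_nonneg_right h5 zz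
      linarith
    exact h2.trans (h3.trans h1)
  have b1 : β₁ ⊆ Icc lo hi := c1.trans hS
  have b2 : β₂ ⊆ Icc lo hi := c2.trans hS
  exact new_of_inG' hw hp h hK hKN hQ b1 b2 hδ hlt hε' hz1 hZM hZR hin (fin l β₁ ZM A0 subset_union_left dA)
    (fin r β₂ ZR B0' subset_union_right dB)

/-! ### The weight of the box from the kernels -/

/-- **(d3), rows `i = c0`, `K = i + n = e`, `K + m = c3`.** `z = (V L₁ L₂ Φ)² (e₂ + e₁ (1 + e₂)) + e₄ (V L₁)² L₂ Φ`: no size. -/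
theorem d3E_83 (hw : ∀ k y, 0 < w k y) (hp : ∀ k, 0 < p k) (h : Box l r X lo hi N) {Q : Finset (ℕ × ℤ)} {K i n m : ℕ}
    (hK : i + n = K) (hKN : K + m ≤ N) (hQ : Q ⊆ Ico i K ×ˢ Icc lo hi) {β₁ β₂ δ₀ δ δ' : Finset ℤ}
    (hc1 : β₁ ∪ β₂ ⊆ Icc lo (hi - (n + m : ℕ))) (hδ0 : δ₀ ⊆ δ) (hδ : δ ⊆ Icc lo (hi - m)) (hδ' : δ' ⊆ Icc lo hi)
    (hlt : ∀ x ∈ β₁, ∀ x' ∈ β₂, x < x') {ε' e1 e2 e4 V L1 L2 Φ A1 A2 G0 : ℝ} {ph pe p3 : ℤ → ℝ}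
    (hε' : ε' ≤ 1) (he1 : 0 ≤ e1) (he2 : 0 ≤ e2) (he4 : 0 ≤ e4) (hV : 0 ≤ V) (hL1 : 0 ≤ L1) (hL2 : 0 ≤ L2) (hΦ : 1 ≤ Φ)
    (hA1 : 0 ≤ A1) (hA2 : 0 ≤ A2) (hG0 : 0 ≤ G0) (hph : ∀ x, 0 ≤ ph x) (hpe : ∀ y, 0 ≤ pe y)
    (hphC : ∀ x ∈ β₁ ∪ β₂, ph x ≤ Φ) {z : ℝ}
    (hz : (V * L1 * L2 * Φ) ^ 2 * (e2 + e1 * (1 + e2)) + e4 * (V * L1) ^ 2 * L2 * Φ ≤ z) (hz1 : z ≤ 1)
    (hin : ∀ x ∈ β₁, ∀ x' ∈ β₂, ∀ y ∈ δ, ∀ y' ∈ δ,
      (1 - ε') * (ker w p i n x y * ker w p i n x' y') ≤ mq w p Q i n x x' y y')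
    (hI : SeamI (Icc lo hi) β₁ β₂ (fw w p l i) (fw w p r i) ph e1 e2)
    (hk1 : Krn (Icc lo (hi - (n + m : ℕ))) (Icc lo (hi - m)) (β₁ ∪ β₂) δ₀ (ker w p i n) ph pe L1 A1)
    (hk2 : Krn (Icc lo (hi - m)) (Icc lo hi) δ₀ δ' (ker w p K m) pe p3 L2 A2)
    (hos : ∀ v ∈ Icc lo (hi - m), v ∉ δ → ∑ y ∈ Icc lo hi, ker w p K m v y * p3 y ≤ e4 * pe v * A2)
    (hG : Prf (Icc lo hi) δ' (bw w p (K + m) (N - (K + m))) p3 V G0) {ZM ZR : ℝ}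
    (hZM : ZM = ∑ y ∈ Icc lo hi, l y * bw w p 0 N y) (hZR : ZR = ∑ y ∈ Icc lo hi, r y * bw w p 0 N y) :
    (1 - ε') * (1 - 2 * z) * (ZM * ZR) ≤ ∑ c ∈ Q, cq w p l r N c.1 c.2 := by
  have F0' : ∀ a, 0 < bw w p i (N - i) a := bw_pos hw hp _ _
  have B0' : ∀ a, 0 < bw w p K (N - K) a := bw_pos hw hp _ _
  have G0' : ∀ a, 0 < bw w p (K + m) (N - (K + m)) a := bw_pos hw hp _ _
  have K0 : ∀ x y, 0 ≤ ker w p i n x y := fun x y => ker_nonneg hw hp i n x y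
  have K0' : ∀ x y, 0 ≤ ker w p K m x y := fun x y => ker_nonneg hw hp K m x y
  have hB : ∀ y ∈ Icc lo (hi - (m : ℤ)), bw w p K (N - K) y = ∑ v ∈ Icc lo hi, ker w p K m y v * bw w p (K + m) (N - (K + m)) v := by
    intro y hy
    rw [mem_Icc] at hy
    exact (sum_ker_eq (K := K + m) (i := K) (n := m) rfl hKN hy.1 (by omega)).symm
  have hF : ∀ x ∈ Icc lo (hi - ((n + m : ℕ) : ℤ)), bw w p i (N - i) x =
      ∑ y ∈ Icc lo (hi - (m : ℤ)), ker w p i n x y * bw w p K (N - K) y := by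
    intro x hx
    rw [mem_Icc] at hx
    push_cast at hx
    have h1 := (sum_ker_eq (w := w) (p := p) (lo := lo) (hi := hi) (N := N) hK (by omega) (x := x) hx.1 (by omega)).symm
    rw [h1]
    symm
    refine sum_subset (Icc_subset_Icc le_rfl (by omega)) fun y hy hy' => ?_
    rw [mem_Icc] at hy hy'
    rw [ker_eq_zero i n x y (fun hc => hy' ⟨hy.1, by omega⟩), zero_mul]
  -- the profile at the exit row
  have PB : Prf (Icc lo (hi - (m : ℤ))) δ₀ (bw w p K (N - K)) pe (V * L2) (A2 * G0) :=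
    Prf.pull hk2 hG hB hδ' (hδ0.trans hδ) K0' (fun y => (G0' y).le) hV hL2 hG0
  have off : ∀ v ∈ Icc lo (hi - (m : ℤ)), v ∉ δ → bw w p K (N - K) v ≤ V * e4 * pe v * (A2 * G0) := by
    intro v hv hv'
    rw [hB v hv]
    calc ∑ y ∈ Icc lo hi, ker w p K m v y * bw w p (K + m) (N - (K + m)) y
        ≤ ∑ y ∈ Icc lo hi, ker w p K m v y * (V * p3 y * G0) :=
          sum_le_sum fun y hy => mul_le_mul_of_nonneg_left (hG.up y hy) (K0' v y)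
      _ = V * G0 * ∑ y ∈ Icc lo hi, ker w p K m v y * p3 y := by
          rw [mul_sum]
          refine sum_congr rfl fun y _ => ?_
          ring
      _ ≤ V * G0 * (e4 * pe v * A2) := mul_le_mul_of_nonneg_left (hos v hv hv') (mul_nonneg hV hG0)
      _ = _ := by ring
  have hVL : 0 ≤ V * L2 := mul_nonneg hV hL2
  have hAG : 0 ≤ A2 * G0 := mul_nonneg hA2 hG0
  have PF : Prf (Icc lo (hi - ((n + m : ℕ) : ℤ))) (β₁ ∪ β₂) (bw w p i (N - i)) ph (V * L2 * L1) (A1 * (A2 * G0)) :=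
    Prf.pull hk1 PB hF (hδ0.trans hδ) hc1 K0 (fun y => (B0' y).le) hVL hL1 hAG
  have hΛ : 0 ≤ V * L2 * L1 := mul_nonneg hVL hL1
  have hAA : 0 ≤ A1 * (A2 * G0) := mul_nonneg hA1 hAG
  have hΛ1 : V * L2 * L1 ≤ V * L1 * L2 * Φ := by
    have := mul_le_mul_of_nonneg_left hΦ hΛ
    linarith
  have hΛ0 : 0 ≤ V * L1 * L2 * Φ := hΛ.trans hΛ1
  have hS : Icc lo (hi - ((n + m : ℕ) : ℤ)) ⊆ Icc lo hi := Icc_subset_Icc le_rfl (by omega)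
  refine d3F_83 (S := Icc lo (hi - ((n + m : ℕ) : ℤ))) (Lam := V * L1 * L2 * Φ) (F0 := A1 * (A2 * G0))
    (z3 := e4 * (V * L1) ^ 2 * L2 * Φ) (ph := ph) hw hp h hK (by omega) hQ hS ?_ hc1
    (hδ.trans (Icc_subset_Icc le_rfl (by omega))) hlt hε' he1 he2 (by positivity) hΛ0 hAA hz hz1 hin hI ?_ ?_ ?_ ?_ hZM hZR
  · intro x hx hx'
    rw [mem_Icc] at hx hx'
    have hx2 : hi - ((n + m : ℕ) : ℤ) < x := by
      by_contra hc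
      exact hx' ⟨hx.1, by omega⟩
    push_cast at hx2
    exact ⟨fw_hi (B := hi - N) (fun y hy => (h.hi0 y hy).1) i x (by omega), fw_hi (B := hi - N) (fun y hy => (h.hi0 y hy).2) i x (by omega)⟩
  · intro x hx _
    refine (PF.up x hx).trans ?_
    exact mul_le_mul_of_nonneg_right (mul_le_mul_of_nonneg_right hΛ1 (hph x)) hAA
  · intro x hx
    refine (PF.up x (hc1 hx)).trans (mul_le_mul_of_nonneg_right ?_ hAA)
    have := mul_le_mul_of_nonneg_left (hphC x hx) hΛ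
    linarith
  · intro x hx
    exact (PF.lo x hx).trans (mul_le_mul_of_nonneg_right hΛ1 (F0' x).le)
  · intro x hx
    have h1 : ∑ y ∈ Icc lo (hi - (m : ℤ)) \ δ, ker w p i n x y * bw w p K (N - K) y ≤ V * e4 * (A2 * G0) * (L1 * Φ * A1) := by
      calc ∑ y ∈ Icc lo (hi - (m : ℤ)) \ δ, ker w p i n x y * bw w p K (N - K) y
          ≤ ∑ y ∈ Icc lo (hi - (m : ℤ)) \ δ, V * e4 * (A2 * G0) * (ker w p i n x y * pe y) := by
            refine sum_le_sum fun y hy => ?_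
            refine (mul_le_mul_of_nonneg_left (off y (mem_sdiff.1 hy).1 (mem_sdiff.1 hy).2) (K0 x y)).trans (le_of_eq ?_)
            ring
        _ ≤ ∑ y ∈ Icc lo (hi - (m : ℤ)), V * e4 * (A2 * G0) * (ker w p i n x y * pe y) :=
            sum_le_sum_of_subset_of_nonneg sdiff_subset fun y _ _ =>
              mul_nonneg (mul_nonneg (mul_nonneg hV he4) hAG) (mul_nonneg (K0 x y) (hpe y))
        _ = V * e4 * (A2 * G0) * ∑ y ∈ Icc lo (hi - (m : ℤ)), ker w p i n x y * pe y := by rw [mul_sum]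
        _ ≤ _ := by
            refine mul_le_mul_of_nonneg_left ((hk1.up x (hc1 hx)).trans ?_) (mul_nonneg (mul_nonneg hV he4) hAG)
            exact mul_le_mul_of_nonneg_right (mul_le_mul_of_nonneg_left (hphC x hx) hL1) hA1
    have h2 : V * e4 * (A2 * G0) * (L1 * Φ * A1) ≤ e4 * (V * L1) ^ 2 * L2 * Φ * bw w p i (N - i) x := by
      have h3 := mul_le_mul_of_nonneg_left (PF.lo x hx) (show 0 ≤ V * e4 * (L1 * Φ) by positivity)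
      calc V * e4 * (A2 * G0) * (L1 * Φ * A1) = V * e4 * (L1 * Φ) * (A1 * (A2 * G0)) := by ring
        _ ≤ _ := h3
        _ = _ := by ring
    have h4 : bw w p i (N - i) x = ∑ y ∈ δ, ker w p i n x y * bw w p K (N - K) y +
        ∑ y ∈ Icc lo (hi - (m : ℤ)) \ δ, ker w p i n x y * bw w p K (N - K) y := by
      rw [hF x (hc1 hx), ← sum_sdiff hδ, add_comm]
    linarith

variable {Γ : Cx} {η : Env}

/-- **(d3) for a context.** -/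
theorem d3E_Cx (hk : 1 ≤ Γ.k) (hq0 : ∀ j, j < Γ.k → 0 ≤ Γ.q j) (hq1 : ∃ j, j < Γ.k ∧ 0 < Γ.q j) {Q : Finset (ℕ × ℤ)} {K i n m : ℕ}
    (hK : i + n = K) (hKN : K + m ≤ Γ.N) (hQ : Q ⊆ Ico i K ×ˢ Icc (0 : ℤ) Γ.hi) {β₁ β₂ δ₀ δ δ' : Finset ℤ}
    (hc1 : β₁ ∪ β₂ ⊆ Icc 0 (Γ.hi - (n + m : ℕ))) (hδ0 : δ₀ ⊆ δ) (hδ : δ ⊆ Icc 0 (Γ.hi - m)) (hδ' : δ' ⊆ Icc 0 Γ.hi)
    (hlt : ∀ x ∈ β₁, ∀ x' ∈ β₂, x < x') {ε' e1 e2 e4 V L1 L2 Φ A1 A2 G0 : ℝ} {ph pe p3 : ℤ → ℝ}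
    (hε' : ε' ≤ 1) (he1 : 0 ≤ e1) (he2 : 0 ≤ e2) (he4 : 0 ≤ e4) (hV : 0 ≤ V) (hL1 : 0 ≤ L1) (hL2 : 0 ≤ L2) (hΦ : 1 ≤ Φ)
    (hA1 : 0 ≤ A1) (hA2 : 0 ≤ A2) (hG0 : 0 ≤ G0) (hph : ∀ x, 0 ≤ ph x) (hpe : ∀ y, 0 ≤ pe y)
    (hphC : ∀ x ∈ β₁ ∪ β₂, ph x ≤ Φ) {z : ℝ}
    (hz : (V * L1 * L2 * Φ) ^ 2 * (e2 + e1 * (1 + e2)) + e4 * (V * L1) ^ 2 * L2 * Φ ≤ z) (hz1 : z ≤ 1)
    (hin : ∀ x ∈ β₁, ∀ x' ∈ β₂, ∀ y ∈ δ, ∀ y' ∈ δ,
      (1 - ε') * (ker (wt η) Γ.p i n x y * ker (wt η) Γ.p i n x' y') ≤ mq (wt η) Γ.p Q i n x x' y y')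
    (hI : SeamI (Icc 0 Γ.hi) β₁ β₂ (fw (wt η) Γ.p Cx.l i) (fw (wt η) Γ.p Γ.r i) ph e1 e2)
    (hk1 : Krn (Icc 0 (Γ.hi - (n + m : ℕ))) (Icc 0 (Γ.hi - m)) (β₁ ∪ β₂) δ₀ (ker (wt η) Γ.p i n) ph pe L1 A1)
    (hk2 : Krn (Icc 0 (Γ.hi - m)) (Icc 0 Γ.hi) δ₀ δ' (ker (wt η) Γ.p K m) pe p3 L2 A2)
    (hos : ∀ v ∈ Icc 0 (Γ.hi - m), v ∉ δ → ∑ y ∈ Icc 0 Γ.hi, ker (wt η) Γ.p K m v y * p3 y ≤ e4 * pe v * A2)
    (hG : Prf (Icc 0 Γ.hi) δ' (bw (wt η) Γ.p (K + m) (Γ.N - (K + m))) p3 V G0) :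
    (1 - ε') * (1 - 2 * z) ≤ ∑ c ∈ Q, Γ.w c η := by
  refine w_of_cq hk hq0 hq1 ?_
  exact d3E_83 (wt_pos η) H83.p_pos (H83.box hk hq0) hK hKN hQ hc1 hδ0 hδ hδ' hlt hε' he1 he2 he4 hV hL1 hL2 hΦ hA1 hA2 hG0 hph hpe
    hphC hz hz1 hin hI hk1 hk2 hos hG (sum_l83 Γ η) rfl

end

end Pool.Agent.W_7d29a1_C1.S83
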