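import Pool.Agent.W_7d29a1_C1.RowW83

/-!
MP_7d29a1_pr, [C1], SHELL: the single weights of one row with a linear growth. (helper83)
-/

set_option autoImplicit false

namespace Pool.Agent.W_7d29a1_C1.S83

open MeasureTheory ProbabilityTheory Filter Topology Finset
open Pool.Agent.W_7d29a1_F Pool.Agent.W_7d29a1_H Pool.Agent.W_7d29a1_HS

noncomputable section

/-- Logarithmic growth is below every linear growth. -/
theorem RowG.lin {r z : ℤ} {R t : ℝ} {η : Env} (hη : η ∈ RowG r z R t) (hR : 0 < R) (ht : 0 ≤ t) (x : ℤ) :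
    |η (r, x)| ≤ t + t / R * |((x - z : ℤ) : ℝ)| := by
  refine (hη x).trans ?_
  have h1 : 0 ≤ |((x - z : ℤ) : ℝ)| / R := by positivity
  have h2 := Real.log_le_sub_one_of_pos (show 0 < 1 + |((x - z : ℤ) : ℝ)| / R by linarith)
  have h3 := mul_le_mul_of_nonneg_left (show Real.log (1 + |((x - z : ℤ) : ℝ)| / R) ≤ |((x - z : ℤ) : ℝ)| / R by linarith) ht
  calc t * (1 + Real.log (1 + |((x - z : ℤ) : ℝ)| / R)) = t + t * Real.log (1 + |((x - z : ℤ) : ℝ)| / R) := by ring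
    _ ≤ t + t * (|((x - z : ℤ) : ℝ)| / R) := by linarith
    _ = _ := by ring

variable {μ : Measure ℝ} [IsProbabilityMeasure μ]

/-- The row `r` at the scale `n`: level `u₀`, slope `b₁` in the unit `EE / wd`, around the place `z`, ALL places at once. -/
theorem rowL83 {s c C : ℝ} {n₀ : ℕ} (h0 : In μ s c C n₀) {u₀ b₁ : ℝ} (hu : 0 < u₀) (hb : 0 < b₁) (k : ℝ) : ∃ n₁ : ℕ, 1 ≤ n₁ ∧
    ∀ n : ℕ, n₁ ≤ n → ∀ r z : ℤ, ∃ G : Set Env, MeasurableSet G ∧ G = RowG r z (wd μ s n) (min u₀ b₁ * EE μ s n) ∧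
      (law μ).real Gᶜ ≤ Real.exp (-(k * EE μ s n)) ∧
      ∀ η ∈ G, ∀ x : ℤ, |η (r, x)| ≤ u₀ * EE μ s n + b₁ * (EE μ s n / wd μ s n) * |((x - z : ℤ) : ℝ)| := by
  have hq : 0 < min u₀ b₁ := lt_min hu hb
  obtain ⟨n₁, hn₁, H⟩ := rowG83 h0 hq k
  obtain ⟨n₂, hn₂⟩ := eventually_atTop.1 ((wd_tendsto h0).eventually_ge_atTop 1)
  obtain ⟨n₃, hn₃⟩ := eventually_atTop.1 (h0.tv.eventually_le_const (show (0 : ℝ) < 1 by norm_num))
  refine ⟨max n₁ (max n₂ n₃), hn₁.trans (le_max_left _ _), fun n hn r z => ⟨_, meas_RowG _ _ _ _, rfl, ?_, ?_⟩⟩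
  · refine H n ((le_max_left _ _).trans hn) r z _ (hn₂ n (((le_max_left _ _).trans (le_max_right _ _)).trans hn)) ?_
    have h1 := hn₃ n (((le_max_right _ _).trans (le_max_right _ _)).trans hn)
    have h2 : (0 : ℝ) ≤ n := Nat.cast_nonneg n
    unfold wd
    calc (n : ℝ) * vA 1 μ s n ≤ n * 1 := mul_le_mul_of_nonneg_left h1 h2
      _ = n := mul_one _
  · intro η hη x
    have hw := hn₂ n (((le_max_left _ _).trans (le_max_right _ _)).trans hn)
    have hw0 : 0 < wd μ s n := by linarith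
    have hE := EE_pos (μ := μ) (s := s) n
    have ht : 0 ≤ min u₀ b₁ * EE μ s n := (mul_pos hq hE).le
    refine (RowG.lin hη hw0 ht x).trans ?_
    have h1 : min u₀ b₁ * EE μ s n ≤ u₀ * EE μ s n := mul_le_mul_of_nonneg_right (min_le_left _ _) hE.le
    have h2 : min u₀ b₁ * EE μ s n / wd μ s n ≤ b₁ * (EE μ s n / wd μ s n) := by
      rw [mul_div_assoc]
      exact mul_le_mul_of_nonneg_right (min_le_right _ _) (div_nonneg hE.le hw0.le)
    exact add_le_add h1 (mul_le_mul_of_nonneg_right h2 (abs_nonneg _))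

end

end Pool.Agent.W_7d29a1_C1.S83
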