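import Pool.Agent.W_7d29a1_C1.Contr91

/-!
MP_7d29a1_pr, the attractor route: THE EXACT CONTRACTION IDENTITY, expectations. (helper91)
-/

set_option autoImplicit false

namespace Pool.Agent.W_7d29a1_C1.K91

open Finset MeasureTheory ProbabilityTheory
open Pool.Agent.W_7d29a1_F

noncomputable section

variable {μ : Measure ℝ} [IsProbabilityMeasure μ]

/-- The weights: row `0` is `1`. -/
def wt (η : Env) (k : ℕ) (y : ℤ) : ℝ := if k = 0 then 1 else Real.exp (η ((k : ℤ), y))

theorem wt_pos (η : Env) (k : ℕ) (y : ℤ) : 0 < wt η k y := by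
  unfold wt
  split_ifs
  · exact one_pos
  · exact Real.exp_pos _

theorem measurable_wt (k : ℕ) (y : ℤ) : Measurable fun η : Env => wt η k y := by
  unfold wt
  split_ifs
  · exact measurable_const
  · exact Real.measurable_exp.comp (measurable_pi_apply _)

/-! ### Deletion of a site in one row -/

/-- The index map of the row `t` without the site `j`. -/
def dg (t j : ℤ) (a : Pt) : Pt := if a.1 = t then (if a.2 < j then a else (a.1, a.2 + 1)) else a

theorem dg_inj (t j : ℤ) : Function.Injective (dg t j) := by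
  rintro ⟨a, x⟩ ⟨b, y⟩ h
  simp only [dg] at h
  split_ifs at h <;> simp only [Prod.mk.injEq] at h ⊢ <;> omega

/-- The row `t` without the site `j`. -/
def rowD (t j : ℤ) (η : Env) : Env := fun a => η (dg t j a)

theorem mp_rowD (t j : ℤ) : MeasurePreserving (rowD t j) (law μ) (law μ) :=
  ⟨measurable_pi_iff.2 fun a => measurable_pi_apply (dg t j a),
    Measure.map_infinitePi_infinitePi_of_inj (P := fun _ : Pt => μ) (dg_inj t j)⟩

theorem wt_rowD (η : Env) (k : ℕ) (j : ℤ) : Del (wt η) (wt (rowD k j η)) k j := by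
  refine ⟨fun i hi y => ?_, fun y => ?_⟩
  · unfold wt rowD dg
    rw [if_neg (show ¬ ((i : ℤ), y).1 = (k : ℤ) by simpa using hi)]
  · unfold wt rowD dg dl
    by_cases h0 : k = 0
    · simp only [h0, if_true]
      split_ifs <;> rfl
    · simp only [if_neg h0, if_true]
      split_ifs <;> rfl

/-! ### Measurability -/

section meas

variable {p : ℝ} {l r : ℤ → ℝ} {X lo hi : ℤ} {N : ℕ}

theorem meas_fw (l : ℤ → ℝ) : ∀ (k : ℕ) (y : ℤ), Measurable fun η : Env => fw (wt η) p l k y
  | 0, y => measurable_const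
  | k + 1, y => by
    have h1 := meas_fw l k y
    have h2 := meas_fw l k (y - 1)
    simp only [fw_succ]
    exact ((measurable_wt k y).mul h1).add (measurable_const.mul ((measurable_wt k (y - 1)).mul h2))

theorem meas_bw : ∀ (j k : ℕ) (y : ℤ), Measurable fun η : Env => bw (wt η) p k j y
  | 0, k, y => by
    simp only [bw_zero]
    exact measurable_const
  | j + 1, k, y => by
    have h1 := meas_bw j (k + 1) y
    have h2 := meas_bw j (k + 1) (y + 1)
    simp only [bw_succ]
    exact (measurable_wt k y).mul (h1.add (measurable_const.mul h2))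

theorem meas_mm (k : ℕ) (y : ℤ) : Measurable fun η : Env => mm (wt η) p l r k y :=
  (meas_fw l k y).add (meas_fw r k y)

theorem meas_Fk (k : ℕ) (y : ℤ) : Measurable fun η : Env => Fk (wt η) p l r X k y := by
  have h1 := meas_fw (p := p) l k y
  have h2 := meas_fw (p := p) r k y
  unfold Fk
  refine Measurable.ite (measurableSet_eq_fun (h1.add h2) measurable_const) measurable_const (h1.div (h1.add h2))

theorem meas_rho (k : ℕ) (q : ℤ) : Measurable fun η : Env => rho (wt η) p l r X k q :=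
  (meas_Fk k (q - 1)).sub (meas_Fk k q)

theorem meas_th (k : ℕ) (q : ℤ) : Measurable fun η : Env => th (wt η) p l r k q :=
  (measurable_const.mul ((measurable_wt k (q - 1)).mul ((meas_fw l k (q - 1)).add (meas_fw r k (q - 1))))).div
    ((meas_fw l (k + 1) q).add (meas_fw r (k + 1) q))

theorem meas_vv (k : ℕ) (q : ℤ) : Measurable fun η : Env => vv (wt η) p l r k q :=
  (meas_mm k (q - 1)).div ((meas_mm k (q - 1)).add (meas_mm k q))

theorem meas_TT (k : ℕ) (q : ℤ) : Measurable fun η : Env => TT (wt η) p l r lo hi N k q := by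
  unfold TT cut
  refine Finset.measurable_sum _ fun y _ => (meas_mm k y).mul ?_
  split_ifs
  · exact meas_bw (N - k) k y
  · exact meas_bw (N - k) k (y - 1)

theorem meas_GG (k : ℕ) (y : ℤ) : Measurable fun η : Env => GG (wt η) p N k y :=
  (meas_bw _ _ _).add (measurable_const.mul (meas_bw _ _ _))

theorem meas_ZZ (k : ℕ) (q : ℤ) : Measurable fun η : Env => ZZ (wt η) p l r lo hi N k q := by
  unfold ZZ zs
  refine Finset.measurable_sum _ fun y _ => ((meas_mm k y).mul (measurable_wt k y)).mul ?_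
  split_ifs
  · exact meas_GG k y
  · exact meas_GG k (y - 1)

end meas

/-! ### Integrability -/

section bound

variable {w : ℕ → ℤ → ℝ} {p : ℝ} {l r : ℤ → ℝ} {X lo hi : ℤ} {N : ℕ}

theorem bw_le {a b : ℤ} {n : ℕ} {U : ℝ} (hw0 : ∀ k y, 0 < w k y) (hp : 0 < p) (hU : 0 ≤ U)
    (hw : ∀ i y, i < n → a ≤ y → y ≤ b → w i y ≤ U) :
    ∀ (j k : ℕ) (y : ℤ), k + j ≤ n → a ≤ y → y + j ≤ b → bw w p k j y ≤ ((1 + p) * U) ^ j
  | 0, k, y, _, _, _ => by rw [bw_zero, pow_zero]
  | j + 1, k, y, h1, h2, h3 => by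
    push_cast at h3
    have i1 := bw_le hw0 hp hU hw j (k + 1) y (by omega) h2 (by omega)
    have i2 := bw_le hw0 hp hU hw j (k + 1) (y + 1) (by omega) (by omega) (by omega)
    have i3 := hw k y (by omega) h2 (by omega)
    rw [bw_succ]
    have i4 : bw w p (k + 1) j y + p * bw w p (k + 1) j (y + 1) ≤ (1 + p) * ((1 + p) * U) ^ j := by
      have := mul_le_mul_of_nonneg_left i2 hp.le
      linarith
    have i5 : 0 ≤ bw w p (k + 1) j y + p * bw w p (k + 1) j (y + 1) := by
      have := bw_pos hw0 hp j (k + 1) y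
      have := bw_pos hw0 hp j (k + 1) (y + 1)
      positivity
    calc w k y * (bw w p (k + 1) j y + p * bw w p (k + 1) j (y + 1)) ≤ U * ((1 + p) * ((1 + p) * U) ^ j) :=
          mul_le_mul i3 i4 i5 hU
      _ = _ := by ring

theorem le_bw {a b : ℤ} {n : ℕ} {D : ℝ} (hw0 : ∀ k y, 0 < w k y) (hp : 0 < p) (hD : 0 ≤ D)
    (hw : ∀ i y, i < n → a ≤ y → y ≤ b → D ≤ w i y) :
    ∀ (j k : ℕ) (y : ℤ), k + j ≤ n → a ≤ y → y ≤ b → D ^ j ≤ bw w p k j y
  | 0, k, y, _, _, _ => by rw [bw_zero, pow_zero]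
  | j + 1, k, y, h1, h2, h3 => by
    have i1 := le_bw hw0 hp hD hw j (k + 1) y (by omega) h2 h3
    have i3 := hw k y (by omega) h2 h3
    rw [bw_succ, pow_succ, mul_comm]
    have i5 : 0 ≤ p * bw w p (k + 1) j (y + 1) := by
      have := bw_pos hw0 hp j (k + 1) (y + 1)
      positivity
    exact mul_le_mul i3 (by linarith) (pow_nonneg hD _) (hw0 k y).le

theorem sum_mm_le (hw0 : ∀ k y, 0 < w k y) (hp : 0 < p) (h : Box l r X lo hi N) {U : ℝ} (hU : 0 ≤ U)
    (hw : ∀ i y, i < N → lo ≤ y → y ≤ hi → w i y ≤ U) : ∀ k, k ≤ N →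
    ∑ y ∈ Icc lo hi, mm w p l r k y ≤ ((1 + p) * U) ^ k * ∑ y ∈ Icc lo hi, (l y + r y)
  | 0, _ => by
    rw [pow_zero, one_mul]
    exact le_rfl
  | k + 1, hk => by
    have ih := sum_mm_le hw0 hp h hU hw k (by omega)
    have hkN : ((k : ℕ) : ℤ) < N := by exact_mod_cast hk
    have hX0 := h.X0
    have hX1 := h.X1
    have e0 : ∀ y ∈ Icc lo hi, mm w p l r (k + 1) y =
        w k y * mm w p l r k y + (fun z => p * (w k z * mm w p l r k z)) (y - 1) := fun y _ => mm_succ k y
    have e1 : ∑ y ∈ Icc lo hi, (fun z => p * (w k z * mm w p l r k z)) (y - 1) =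
        ∑ y ∈ Icc lo hi, (fun z => p * (w k z * mm w p l r k z)) y := by
      refine sum_shift (f := fun z => p * (w k z * mm w p l r k z)) (by omega) ?_ ?_
      · show p * (w k (lo - 1) * mm w p l r k (lo - 1)) = 0
        rw [h.ml k (show lo - 1 < lo by omega)]
        ring
      · show p * (w k hi * mm w p l r k hi) = 0
        rw [h.mh (w := w) (p := p) (k := k) (y := hi) (by omega)]
        ring
    rw [sum_congr rfl e0, sum_add_distrib, e1, ← sum_add_distrib]
    have e2 : ∀ y ∈ Icc lo hi, w k y * mm w p l r k y + (fun z => p * (w k z * mm w p l r k z)) y ≤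
        ((1 + p) * U) * mm w p l r k y := by
      intro y hy
      rw [mem_Icc] at hy
      have h1 := hw k y (by omega) hy.1 hy.2
      have h2 := mm_nonneg hw0 hp h.g k y
      show w k y * mm w p l r k y + p * (w k y * mm w p l r k y) ≤ _
      have h3 : w k y * mm w p l r k y ≤ U * mm w p l r k y := mul_le_mul_of_nonneg_right h1 h2
      have h4 := mul_le_mul_of_nonneg_left h3 hp.le
      linarith
    refine (sum_le_sum e2).trans ?_
    rw [← mul_sum]
    have h5 : 0 ≤ (1 + p) * U := by positivity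
    calc (1 + p) * U * ∑ y ∈ Icc lo hi, mm w p l r k y
        ≤ (1 + p) * U * (((1 + p) * U) ^ k * ∑ y ∈ Icc lo hi, (l y + r y)) := mul_le_mul_of_nonneg_left ih h5
      _ = _ := by ring

/-- The logarithm of the total mass, on a box. -/
theorem abs_log_TT (hw0 : ∀ k y, 0 < w k y) (hp : 0 < p) (h : Box l r X lo hi N) {M : ℝ}
    (hw : ∀ i y, i < N → lo - 1 ≤ y → y ≤ hi + N → Real.exp (-M) ≤ w i y ∧ w i y ≤ Real.exp M) {y0 : ℤ}
    (hy0 : 0 < l y0 + r y0) {k : ℕ} (hk : k ≤ N) (q : ℤ) :
    |Real.log (TT w p l r lo hi N k q)| ≤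
      N * M + (N * Real.log (1 + p) + |Real.log (l y0 + r y0)| + |Real.log (∑ y ∈ Icc lo hi, (l y + r y))|) := by
  have hN : (0 : ℤ) ≤ N := by positivity
  have hm := h.mem hy0
  have hpos := TT_pos hw0 hp h k q
  have hS : 0 < ∑ y ∈ Icc lo hi, (l y + r y) :=
    sum_pos' (fun y _ => add_nonneg (h.g.l0 y) (h.g.r0 y)) ⟨y0, mem_Icc.2 ⟨hm.1, by omega⟩, hy0⟩
  have hD : (0 : ℝ) ≤ Real.exp (-M) := (Real.exp_pos _).le
  have hU : (0 : ℝ) ≤ Real.exp M := (Real.exp_pos _).le
  -- from above
  have h1 : TT w p l r lo hi N k q ≤ ((1 + p) * Real.exp M) ^ N * ∑ y ∈ Icc lo hi, (l y + r y) := by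
    have hb : ∀ y, lo - 1 ≤ y → y ≤ hi → bw w p k (N - k) y ≤ ((1 + p) * Real.exp M) ^ (N - k) := fun y hy1 hy2 =>
      bw_le (a := lo - 1) (b := hi + N) (n := N) hw0 hp hU (fun i z hi h1 h2 => (hw i z hi h1 h2).2) (N - k) k y
        (by omega) hy1 (by push_cast [hk]; omega)
    have hs := sum_mm_le hw0 hp h hU (fun i z hi h1 h2 => (hw i z hi (by omega) (by omega)).2) k hk
    have h2 : TT w p l r lo hi N k q ≤ ∑ y ∈ Icc lo hi, mm w p l r k y * ((1 + p) * Real.exp M) ^ (N - k) := by
      unfold TT cut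
      refine sum_le_sum fun y hy => ?_
      rw [mem_Icc] at hy
      refine mul_le_mul_of_nonneg_left ?_ (mm_nonneg hw0 hp h.g k y)
      split_ifs
      · exact hb y (by omega) hy.2
      · exact hb (y - 1) (by omega) (by omega)
    refine h2.trans ?_
    rw [← sum_mul]
    have h3 : (0 : ℝ) ≤ ((1 + p) * Real.exp M) ^ (N - k) := by positivity
    refine (mul_le_mul_of_nonneg_right hs h3).trans (le_of_eq ?_)
    have e : ((1 + p) * Real.exp M) ^ N = ((1 + p) * Real.exp M) ^ k * ((1 + p) * Real.exp M) ^ (N - k) := by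
      rw [← pow_add]
      congr 1
      omega
    rw [e]
    ring
  -- from below
  have h2 : Real.exp (-M) ^ N * (l y0 + r y0) ≤ TT w p l r lo hi N k q := by
    have hb : ∀ y, lo - 1 ≤ y → y ≤ hi → Real.exp (-M) ^ (N - k) ≤ bw w p k (N - k) y := fun y hy1 hy2 =>
      le_bw (a := lo - 1) (b := hi + N) (n := N) hw0 hp hD (fun i z hi h1 h2 => (hw i z hi h1 h2).1) (N - k) k y
        (by omega) hy1 (by omega)
    have hk2 := mm_keep (n := N) (y := y0) hw0 hp h.g hD (fun i hi => (hw i y0 hi (by omega) (by omega)).1) k hk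
    have h3 : mm w p l r k y0 * (if y0 < q then bw w p k (N - k) y0 else bw w p k (N - k) (y0 - 1)) ≤
        TT w p l r lo hi N k q := by
      unfold TT cut
      refine single_le_sum (f := fun y => mm w p l r k y *
        (if y < q then bw w p k (N - k) y else bw w p k (N - k) (y - 1))) (fun y _ => ?_)
        (mem_Icc.2 ⟨hm.1, by omega⟩)
      refine mul_nonneg (mm_nonneg hw0 hp h.g k y) ?_
      split_ifs
      · exact (bw_pos hw0 hp _ _ _).le
      · exact (bw_pos hw0 hp _ _ _).le
    refine le_trans ?_ h3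
    have h4 : Real.exp (-M) ^ (N - k) ≤ (if y0 < q then bw w p k (N - k) y0 else bw w p k (N - k) (y0 - 1)) := by
      split_ifs
      · exact hb y0 (by omega) (by omega)
      · exact hb (y0 - 1) (by omega) (by omega)
    have e : Real.exp (-M) ^ N = Real.exp (-M) ^ k * Real.exp (-M) ^ (N - k) := by
      rw [← pow_add]
      congr 1
      omega
    rw [e]
    calc Real.exp (-M) ^ k * Real.exp (-M) ^ (N - k) * (l y0 + r y0)
        = (Real.exp (-M) ^ k * (l y0 + r y0)) * Real.exp (-M) ^ (N - k) := by ring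
      _ ≤ _ := mul_le_mul hk2 h4 (pow_nonneg hD _) (mm_nonneg hw0 hp h.g k y0)
  have hp1 : (0 : ℝ) < 1 + p := by linarith
  have l1 : Real.log (TT w p l r lo hi N k q) ≤ N * Real.log (1 + p) + N * M + Real.log (∑ y ∈ Icc lo hi, (l y + r y)) := by
    refine (Real.log_le_log hpos h1).trans (le_of_eq ?_)
    rw [Real.log_mul (by positivity) hS.ne', Real.log_pow, Real.log_mul hp1.ne' (Real.exp_pos M).ne', Real.log_exp]
    ring
  have l2 : -(N * M) + Real.log (l y0 + r y0) ≤ Real.log (TT w p l r lo hi N k q) := by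
    refine le_trans (le_of_eq ?_) (Real.log_le_log (by positivity) h2)
    rw [Real.log_mul (by positivity) hy0.ne', Real.log_pow, Real.log_exp]
    ring
  have a1 := le_abs_self (Real.log (∑ y ∈ Icc lo hi, (l y + r y)))
  have a2 := neg_abs_le (Real.log (l y0 + r y0))
  have a3 := abs_nonneg (Real.log (∑ y ∈ Icc lo hi, (l y + r y)))
  have a4 := abs_nonneg (Real.log (l y0 + r y0))
  have a5 : 0 ≤ (N : ℝ) * Real.log (1 + p) := mul_nonneg (Nat.cast_nonneg N) (Real.log_nonneg (by linarith))
  rw [abs_le]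
  constructor <;> linarith

end bound

/-! ### Integrability of the logarithms -/

section integ

variable {p : ℝ} {l r : ℤ → ℝ} {X lo hi : ℤ} {N : ℕ}

/-- The sum of the absolute values of the environment over the box. -/
def Mb (lo hi : ℤ) (N : ℕ) (η : Env) : ℝ := ∑ a ∈ (Icc (0 : ℤ) N) ×ˢ (Icc (lo - 1) (hi + N)), |η a|

theorem int_Mb (hi1 : Integrable (fun x : ℝ => x) μ) (lo hi : ℤ) (N : ℕ) : Integrable (Mb lo hi N) (law μ) := by
  unfold Mb
  refine integrable_finsetSum _ fun a _ => ?_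
  have h : MeasurePreserving (Function.eval a) (law μ) μ := measurePreserving_eval_infinitePi (fun _ : Pt => μ) a
  exact (h.integrable_comp_of_integrable hi1).abs

theorem wt_Mb (lo hi : ℤ) (N : ℕ) (η : Env) (i : ℕ) (y : ℤ) (hi1 : i < N) (h1 : lo - 1 ≤ y) (h2 : y ≤ hi + N) :
    Real.exp (-(Mb lo hi N η)) ≤ wt η i y ∧ wt η i y ≤ Real.exp (Mb lo hi N η) := by
  have hM : 0 ≤ Mb lo hi N η := sum_nonneg fun a _ => abs_nonneg _
  have hiN : (i : ℤ) < N := by exact_mod_cast hi1
  have hs : |η ((i : ℤ), y)| ≤ Mb lo hi N η := by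
    unfold Mb
    refine single_le_sum (f := fun a : Pt => |η a|) (fun a _ => abs_nonneg _) ?_
    rw [mem_product, mem_Icc, mem_Icc]
    exact ⟨⟨by positivity, hiN.le⟩, h1, h2⟩
  rw [abs_le] at hs
  unfold wt
  split_ifs
  · exact ⟨Real.exp_le_one_iff.2 (by linarith), Real.one_le_exp hM⟩
  · exact ⟨Real.exp_le_exp.2 (by linarith), Real.exp_le_exp.2 hs.2⟩

theorem int_logTT (hi1 : Integrable (fun x : ℝ => x) μ) (hp : 0 < p) (h : Box l r X lo hi N) {k : ℕ} (hk : k ≤ N) (q : ℤ) :
    Integrable (fun η : Env => Real.log (TT (wt η) p l r lo hi N k q)) (law μ) := by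
  obtain ⟨y0, hy0⟩ := h.ps
  have hb := ((int_Mb hi1 lo hi N).const_mul (N : ℝ)).add (integrable_const (μ := law μ)
    (N * Real.log (1 + p) + |Real.log (l y0 + r y0)| + |Real.log (∑ y ∈ Icc lo hi, (l y + r y))|))
  refine hb.mono' (Real.measurable_log.comp (meas_TT k q)).aestronglyMeasurable (Filter.Eventually.of_forall fun η => ?_)
  rw [Real.norm_eq_abs]
  exact abs_log_TT (wt_pos η) hp h (fun i y h1 h2 h3 => wt_Mb lo hi N η i y h1 h2 h3) hy0 hk q

omit [IsProbabilityMeasure μ] in
theorem int_mul {u f : Env → ℝ} (hu : Measurable u) (h0 : ∀ η, 0 ≤ u η) (h1 : ∀ η, u η ≤ 1)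
    (hf : Integrable f (law μ)) : Integrable (fun η => u η * f η) (law μ) := by
  refine hf.abs.mono' (hu.aestronglyMeasurable.mul hf.aestronglyMeasurable) (Filter.Eventually.of_forall fun η => ?_)
  rw [Real.norm_eq_abs, abs_mul, abs_of_nonneg (h0 η)]
  calc u η * |f η| ≤ 1 * |f η| := mul_le_mul_of_nonneg_right (h1 η) (abs_nonneg _)
    _ = |f η| := one_mul _

/-- The past of the row `k` does not see the deletion in the row `k`. -/
theorem past (η : Env) (k : ℕ) (j : ℤ) : ∀ i, i < k → ∀ y, wt (rowD k j η) i y = wt η i y :=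
  fun i hi y => (wt_rowD η k j).ne i (by omega) y

theorem swap1 (hi1 : Integrable (fun x : ℝ => x) μ) (hp : 0 < p) (h : Box l r X lo hi N) {k : ℕ} (hk : k < N) {q : ℤ}
    (hq : q ∈ Icc X (X + N)) :
    Integrable (fun η : Env => rho (wt η) p l r X k q * vv (wt η) p l r k q * Real.log (Y1 (wt η) p l r lo hi N k q)) (law μ) ∧
    ∫ η, rho (wt η) p l r X k q * vv (wt η) p l r k q * Real.log (Y1 (wt η) p l r lo hi N k q) ∂(law μ) =
      ∫ η, rho (wt η) p l r X k q * vv (wt η) p l r k q * Real.log (TT (wt η) p l r lo hi N k q) ∂(law μ) := by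
  have hf : Integrable (fun η : Env => rho (wt η) p l r X k q * vv (wt η) p l r k q *
      Real.log (TT (wt η) p l r lo hi N k q)) (law μ) :=
    int_mul ((meas_rho k q).mul (meas_vv k q))
      (fun η => mul_nonneg (Fk_anti (wt_pos η) hp h.g k q) (vv_mem (wt_pos η) hp h.g k q).1)
      (fun η => mul_le_one₀ (rho_le_one (wt_pos η) hp h.g k q) (vv_mem (wt_pos η) hp h.g k q).1
        (vv_mem (wt_pos η) hp h.g k q).2) (int_logTT hi1 hp h hk.le q)
  have e : ∀ η : Env, rho (wt η) p l r X k q * vv (wt η) p l r k q * Real.log (Y1 (wt η) p l r lo hi N k q) =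
      (fun η : Env => rho (wt η) p l r X k q * vv (wt η) p l r k q * Real.log (TT (wt η) p l r lo hi N k q))
        (rowD k q η) := by
    intro η
    show _ = rho (wt (rowD k q η)) p l r X k q * vv (wt (rowD k q η)) p l r k q *
      Real.log (TT (wt (rowD k q η)) p l r lo hi N k q)
    rw [rho_congr (past η k q), vv_congr (past η k q), Y1_eq h (wt_rowD η k q) hk hq]
  have hmp := mp_rowD (μ := μ) (k : ℤ) q
  constructor
  · simp only [e]
    exact hmp.integrable_comp_of_integrable hf
  · simp only [e]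
    have h2 := integral_map (μ := law μ) (φ := rowD (k : ℤ) q) hmp.measurable.aemeasurable
      (f := fun η : Env => rho (wt η) p l r X k q * vv (wt η) p l r k q * Real.log (TT (wt η) p l r lo hi N k q))
      (by rw [hmp.map_eq]; exact hf.aestronglyMeasurable)
    rw [hmp.map_eq] at h2
    exact h2.symm

theorem swap2 (hi1 : Integrable (fun x : ℝ => x) μ) (hp : 0 < p) (h : Box l r X lo hi N) {k : ℕ} (hk : k < N) {q : ℤ}
    (hq : q ∈ Icc X (X + N)) :
    Integrable (fun η : Env => rho (wt η) p l r X k q * (1 - vv (wt η) p l r k q) * Real.log (Y2 (wt η) p l r lo hi N k q)) (law μ) ∧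
    ∫ η, rho (wt η) p l r X k q * (1 - vv (wt η) p l r k q) * Real.log (Y2 (wt η) p l r lo hi N k q) ∂(law μ) =
      ∫ η, rho (wt η) p l r X k q * (1 - vv (wt η) p l r k q) * Real.log (TT (wt η) p l r lo hi N k q) ∂(law μ) := by
  have hf : Integrable (fun η : Env => rho (wt η) p l r X k q * (1 - vv (wt η) p l r k q) *
      Real.log (TT (wt η) p l r lo hi N k q)) (law μ) :=
    int_mul ((meas_rho k q).mul (measurable_const.sub (meas_vv k q)))
      (fun η => mul_nonneg (Fk_anti (wt_pos η) hp h.g k q) (by linarith [(vv_mem (wt_pos η) hp h.g k q).2]))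
      (fun η => mul_le_one₀ (rho_le_one (wt_pos η) hp h.g k q) (by linarith [(vv_mem (wt_pos η) hp h.g k q).2])
        (by linarith [(vv_mem (wt_pos η) hp h.g k q).1])) (int_logTT hi1 hp h hk.le q)
  have e : ∀ η : Env, rho (wt η) p l r X k q * (1 - vv (wt η) p l r k q) * Real.log (Y2 (wt η) p l r lo hi N k q) =
      (fun η : Env => rho (wt η) p l r X k q * (1 - vv (wt η) p l r k q) * Real.log (TT (wt η) p l r lo hi N k q))
        (rowD k (q - 1) η) := by
    intro η
    show _ = rho (wt (rowD k (q - 1) η)) p l r X k q * (1 - vv (wt (rowD k (q - 1) η)) p l r k q) *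
      Real.log (TT (wt (rowD k (q - 1) η)) p l r lo hi N k q)
    rw [rho_congr (past η k (q - 1)), vv_congr (past η k (q - 1)), Y2_eq h (wt_rowD η k (q - 1)) hk hq]
  have hmp := mp_rowD (μ := μ) (k : ℤ) (q - 1)
  constructor
  · simp only [e]
    exact hmp.integrable_comp_of_integrable hf
  · simp only [e]
    have h2 := integral_map (μ := law μ) (φ := rowD (k : ℤ) (q - 1)) hmp.measurable.aemeasurable
      (f := fun η : Env => rho (wt η) p l r X k q * (1 - vv (wt η) p l r k q) * Real.log (TT (wt η) p l r lo hi N k q))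
      (by rw [hmp.map_eq]; exact hf.aestronglyMeasurable)
    rw [hmp.map_eq] at h2
    exact h2.symm

theorem abs_log_mix {t a b : ℝ} (h0 : 0 ≤ t) (h1 : t ≤ 1) (ha : 0 < a) (hb : 0 < b) :
    |Real.log (t * a + (1 - t) * b)| ≤ |Real.log a| + |Real.log b| := by
  have h2 : 0 ≤ 1 - t := by linarith
  have u : t * a + (1 - t) * b ≤ max a b := by
    have e1 := mul_le_mul_of_nonneg_left (le_max_left a b) h0
    have e2 := mul_le_mul_of_nonneg_left (le_max_right a b) h2
    linarith
  have v : min a b ≤ t * a + (1 - t) * b := by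
    have e1 := mul_le_mul_of_nonneg_left (min_le_left a b) h0
    have e2 := mul_le_mul_of_nonneg_left (min_le_right a b) h2
    linarith
  have hm : 0 < min a b := lt_min ha hb
  have hz : 0 < t * a + (1 - t) * b := lt_of_lt_of_le hm v
  have l1 := Real.log_le_log hz u
  have l2 := Real.log_le_log hm v
  have a1 := abs_nonneg (Real.log a)
  have a2 := abs_nonneg (Real.log b)
  rw [abs_le]
  constructor
  · rcases min_choice a b with h | h
    · rw [h] at l2
      linarith [neg_abs_le (Real.log a)]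
    · rw [h] at l2
      linarith [neg_abs_le (Real.log b)]
  · rcases max_choice a b with h | h
    · rw [h] at l1
      linarith [le_abs_self (Real.log a)]
    · rw [h] at l1
      linarith [le_abs_self (Real.log b)]

theorem int_logZZ (hi1 : Integrable (fun x : ℝ => x) μ) (hp : 0 < p) (h : Box l r X lo hi N) {k : ℕ} (hk : k < N) {q : ℤ}
    (hq : q ∈ Icc X (X + N)) : Integrable (fun η : Env => Real.log (ZZ (wt η) p l r lo hi N k q)) (law μ) := by
  have hb := (int_logTT hi1 hp h (show k + 1 ≤ N from hk) (q + 1)).abs.add (int_logTT hi1 hp h (show k + 1 ≤ N from hk) q).abs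
  refine hb.mono' (Real.measurable_log.comp (meas_ZZ k q)).aestronglyMeasurable (Filter.Eventually.of_forall fun η => ?_)
  rw [Real.norm_eq_abs, ZZ_eq (wt_pos η) hp h hk hq]
  exact abs_log_mix (th_mem (wt_pos η) hp h.g k q).1 (th_mem (wt_pos η) hp h.g k q).2
    (TT_pos (wt_pos η) hp h (k + 1) (q + 1)) (TT_pos (wt_pos η) hp h (k + 1) q)

theorem jg_eq (η : Env) (hp : 0 < p) (h : Box l r X lo hi N) (k : ℕ) (q : ℤ) :
    jg (wt η) p l r lo hi N k q = Real.log (ZZ (wt η) p l r lo hi N k q) -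
      vv (wt η) p l r k q * Real.log (Y1 (wt η) p l r lo hi N k q) -
      (1 - vv (wt η) p l r k q) * Real.log (Y2 (wt η) p l r lo hi N k q) := by
  have h1 := mm_nonneg (wt_pos η) hp h.g k (q - 1)
  have h2 := mm_nonneg (wt_pos η) hp h.g k q
  rw [ZZ_eqY (wt η) p l r lo hi N k q fun h0 => ⟨by linarith, by linarith⟩]
  rfl

theorem JG_eq (η : Env) (hp : 0 < p) (h : Box l r X lo hi N) {k : ℕ} (hk : k < N) {q : ℤ} (hq : q ∈ Icc X (X + N)) :
    JG (wt η) p l r lo hi N k q = Real.log (ZZ (wt η) p l r lo hi N k q) -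
      th (wt η) p l r k q * Real.log (TT (wt η) p l r lo hi N (k + 1) (q + 1)) -
      (1 - th (wt η) p l r k q) * Real.log (TT (wt η) p l r lo hi N (k + 1) q) := by
  rw [ZZ_eq (wt_pos η) hp h hk hq]
  rfl

theorem int_jg (hi1 : Integrable (fun x : ℝ => x) μ) (hp : 0 < p) (h : Box l r X lo hi N) {k : ℕ} (hk : k < N) {q : ℤ}
    (hq : q ∈ Icc X (X + N)) :
    Integrable (fun η : Env => rho (wt η) p l r X k q * jg (wt η) p l r lo hi N k q) (law μ) := by
  have h0 := int_mul (meas_rho (p := p) (l := l) (r := r) (X := X) k q) (fun η => Fk_anti (wt_pos η) hp h.g k q)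
    (fun η => rho_le_one (wt_pos η) hp h.g k q) (int_logZZ hi1 hp h hk hq)
  refine ((h0.sub (swap1 hi1 hp h hk hq).1).sub (swap2 hi1 hp h hk hq).1).congr
    (Filter.Eventually.of_forall fun η => ?_)
  simp only [Pi.sub_apply]
  rw [jg_eq η hp h k q]
  ring

theorem int_JG (hi1 : Integrable (fun x : ℝ => x) μ) (hp : 0 < p) (h : Box l r X lo hi N) {k : ℕ} (hk : k < N) {q : ℤ}
    (hq : q ∈ Icc X (X + N)) :
    Integrable (fun η : Env => rho (wt η) p l r X k q * JG (wt η) p l r lo hi N k q) (law μ) := by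
  have hr := meas_rho (p := p) (l := l) (r := r) (X := X) k q
  have ht := meas_th (p := p) (l := l) (r := r) k q
  have h0 := int_mul hr (fun η => Fk_anti (wt_pos η) hp h.g k q)
    (fun η => rho_le_one (wt_pos η) hp h.g k q) (int_logZZ hi1 hp h hk hq)
  have h1 := int_mul (hr.mul ht) (fun η => mul_nonneg (Fk_anti (wt_pos η) hp h.g k q) (th_mem (wt_pos η) hp h.g k q).1)
    (fun η => mul_le_one₀ (rho_le_one (wt_pos η) hp h.g k q) (th_mem (wt_pos η) hp h.g k q).1
      (th_mem (wt_pos η) hp h.g k q).2) (int_logTT hi1 hp h (show k + 1 ≤ N from hk) (q + 1))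
  have t0 : ∀ η : Env, 0 ≤ 1 - th (wt η) p l r k q := fun η => by linarith [(th_mem (wt_pos η) hp h.g k q).2]
  have t1 : ∀ η : Env, 1 - th (wt η) p l r k q ≤ 1 := fun η => by linarith [(th_mem (wt_pos η) hp h.g k q).1]
  have h2 := int_mul (u := fun η : Env => rho (wt η) p l r X k q * (1 - th (wt η) p l r k q))
    (hr.mul (measurable_const.sub ht)) (fun η => mul_nonneg (Fk_anti (wt_pos η) hp h.g k q) (t0 η))
    (fun η => mul_le_one₀ (rho_le_one (wt_pos η) hp h.g k q) (t0 η) (t1 η))
    (int_logTT hi1 hp h (show k + 1 ≤ N from hk) q)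
  refine ((h0.sub h1).sub h2).congr (Filter.Eventually.of_forall fun η => ?_)
  simp only [Pi.sub_apply, Pi.mul_apply]
  rw [JG_eq η hp h hk hq]
  ring

/-- `Theta`: the mean of the logarithm of the total mass under the law of the interface. -/
def Theta (μ : Measure ℝ) (p : ℝ) (l r : ℤ → ℝ) (X lo hi : ℤ) (N k : ℕ) : ℝ :=
  ∫ η, ∑ q ∈ Icc X (X + N), rho (wt η) p l r X k q * Real.log (TT (wt η) p l r lo hi N k q) ∂(law μ)

/-- The row `k`: the gain minus the loss. -/
theorem Theta_succ (hi1 : Integrable (fun x : ℝ => x) μ) (hp : 0 < p) (h : Box l r X lo hi N) {k : ℕ} (hk : k < N) :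
    Theta μ p l r X lo hi N (k + 1) - Theta μ p l r X lo hi N k =
      ∫ η, ∑ q ∈ Icc X (X + N), rho (wt η) p l r X k q *
        (jg (wt η) p l r lo hi N k q - JG (wt η) p l r lo hi N k q) ∂(law μ) := by
  have iZ : ∀ q ∈ Icc X (X + N), Integrable (fun η : Env => rho (wt η) p l r X k q *
      Real.log (ZZ (wt η) p l r lo hi N k q)) (law μ) := fun q hq =>
    int_mul (meas_rho k q) (fun η => Fk_anti (wt_pos η) hp h.g k q)
      (fun η => rho_le_one (wt_pos η) hp h.g k q) (int_logZZ hi1 hp h hk hq)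
  -- the row k + 1
  have e1 : Theta μ p l r X lo hi N (k + 1) = ∑ q ∈ Icc X (X + N),
      (∫ η, rho (wt η) p l r X k q * Real.log (ZZ (wt η) p l r lo hi N k q) ∂(law μ) -
        ∫ η, rho (wt η) p l r X k q * JG (wt η) p l r lo hi N k q ∂(law μ)) := by
    unfold Theta
    have e : ∀ η : Env, ∑ q ∈ Icc X (X + N), rho (wt η) p l r X (k + 1) q * Real.log (TT (wt η) p l r lo hi N (k + 1) q) =
        ∑ q ∈ Icc X (X + N), (rho (wt η) p l r X k q * Real.log (ZZ (wt η) p l r lo hi N k q) -
          rho (wt η) p l r X k q * JG (wt η) p l r lo hi N k q) := by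
      intro η
      rw [row_move (wt_pos η) hp h hk]
      exact sum_congr rfl fun q _ => by ring
    have i3 : ∀ q ∈ Icc X (X + N), Integrable (fun η : Env => rho (wt η) p l r X k q *
        Real.log (ZZ (wt η) p l r lo hi N k q) - rho (wt η) p l r X k q * JG (wt η) p l r lo hi N k q) (law μ) :=
      fun q hq => (iZ q hq).sub (int_JG hi1 hp h hk hq)
    simp only [e]
    rw [integral_finsetSum _ i3]
    exact sum_congr rfl fun q hq => integral_sub (iZ q hq) (int_JG hi1 hp h hk hq)
  -- the row k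
  have e2 : Theta μ p l r X lo hi N k = ∑ q ∈ Icc X (X + N),
      (∫ η, rho (wt η) p l r X k q * Real.log (ZZ (wt η) p l r lo hi N k q) ∂(law μ) -
        ∫ η, rho (wt η) p l r X k q * jg (wt η) p l r lo hi N k q ∂(law μ)) := by
    unfold Theta
    have iT : ∀ q ∈ Icc X (X + N), Integrable (fun η : Env => rho (wt η) p l r X k q *
        Real.log (TT (wt η) p l r lo hi N k q)) (law μ) := fun q _ =>
      int_mul (meas_rho k q) (fun η => Fk_anti (wt_pos η) hp h.g k q)
        (fun η => rho_le_one (wt_pos η) hp h.g k q) (int_logTT hi1 hp h hk.le q)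
    rw [integral_finsetSum _ iT]
    refine sum_congr rfl fun q hq => ?_
    have s1 := swap1 hi1 hp h hk hq
    have s2 := swap2 hi1 hp h hk hq
    rw [← integral_sub (iZ q hq) (int_jg hi1 hp h hk hq)]
    have e3 : ∀ η : Env, rho (wt η) p l r X k q * Real.log (ZZ (wt η) p l r lo hi N k q) -
        rho (wt η) p l r X k q * jg (wt η) p l r lo hi N k q =
        rho (wt η) p l r X k q * vv (wt η) p l r k q * Real.log (Y1 (wt η) p l r lo hi N k q) +
        rho (wt η) p l r X k q * (1 - vv (wt η) p l r k q) * Real.log (Y2 (wt η) p l r lo hi N k q) := by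
      intro η
      rw [jg_eq η hp h k q]
      ring
    simp only [e3]
    rw [integral_add s1.1 s2.1, s1.2, s2.2]
    have i1 : Integrable (fun η : Env => rho (wt η) p l r X k q * vv (wt η) p l r k q *
        Real.log (TT (wt η) p l r lo hi N k q)) (law μ) :=
      int_mul ((meas_rho k q).mul (meas_vv k q))
        (fun η => mul_nonneg (Fk_anti (wt_pos η) hp h.g k q) (vv_mem (wt_pos η) hp h.g k q).1)
        (fun η => mul_le_one₀ (rho_le_one (wt_pos η) hp h.g k q) (vv_mem (wt_pos η) hp h.g k q).1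
          (vv_mem (wt_pos η) hp h.g k q).2) (int_logTT hi1 hp h hk.le q)
    have i2 : Integrable (fun η : Env => rho (wt η) p l r X k q * (1 - vv (wt η) p l r k q) *
        Real.log (TT (wt η) p l r lo hi N k q)) (law μ) :=
      int_mul ((meas_rho k q).mul (measurable_const.sub (meas_vv k q)))
        (fun η => mul_nonneg (Fk_anti (wt_pos η) hp h.g k q) (by linarith [(vv_mem (wt_pos η) hp h.g k q).2]))
        (fun η => mul_le_one₀ (rho_le_one (wt_pos η) hp h.g k q) (by linarith [(vv_mem (wt_pos η) hp h.g k q).2])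
          (by linarith [(vv_mem (wt_pos η) hp h.g k q).1])) (int_logTT hi1 hp h hk.le q)
    rw [← integral_add i1 i2]
    refine integral_congr_ae (Filter.Eventually.of_forall fun η => ?_)
    show _ = _
    ring
  have e4 : ∀ η : Env, ∑ q ∈ Icc X (X + N), rho (wt η) p l r X k q *
      (jg (wt η) p l r lo hi N k q - JG (wt η) p l r lo hi N k q) = ∑ q ∈ Icc X (X + N),
      (rho (wt η) p l r X k q * jg (wt η) p l r lo hi N k q - rho (wt η) p l r X k q * JG (wt η) p l r lo hi N k q) :=
    fun η => sum_congr rfl fun q _ => by ring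
  simp only [e4]
  have i4 : ∀ q ∈ Icc X (X + N), Integrable (fun η : Env => rho (wt η) p l r X k q * jg (wt η) p l r lo hi N k q -
      rho (wt η) p l r X k q * JG (wt η) p l r lo hi N k q) (law μ) :=
    fun q hq => (int_jg hi1 hp h hk hq).sub (int_JG hi1 hp h hk hq)
  rw [integral_finsetSum _ i4, e1, e2, ← sum_sub_distrib]
  refine sum_congr rfl fun q hq => ?_
  rw [integral_sub (int_jg hi1 hp h hk hq) (int_JG hi1 hp h hk hq)]
  ring

/-- **THE EXACT CONTRACTION IDENTITY** (board 70121): the mean of the logarithm of the total mass changes, when the right group is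
moved one step to the left, by the gains minus the losses along the interface. -/
theorem contr91 (hi1 : Integrable (fun x : ℝ => x) μ) (hp : 0 < p) (h : Box l r X lo hi N) :
    ∫ η, Real.log (∑ y ∈ Icc lo hi, (l y + r y) * bw (wt η) p 0 N y) ∂(law μ) -
      ∫ η, Real.log (∑ y ∈ Icc lo hi, (l y * bw (wt η) p 0 N y + r y * bw (wt η) p 0 N (y - 1))) ∂(law μ) =
    ∑ k ∈ range N, ∫ η, ∑ q ∈ Icc X (X + N), rho (wt η) p l r X k q *
        (jg (wt η) p l r lo hi N k q - JG (wt η) p l r lo hi N k q) ∂(law μ) := by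
  have e1 : Theta μ p l r X lo hi N N = ∫ η, Real.log (∑ y ∈ Icc lo hi, (l y + r y) * bw (wt η) p 0 N y) ∂(law μ) := by
    unfold Theta
    exact integral_congr_ae (Filter.Eventually.of_forall fun η => TT_last h)
  have e2 : Theta μ p l r X lo hi N 0 =
      ∫ η, Real.log (∑ y ∈ Icc lo hi, (l y * bw (wt η) p 0 N y + r y * bw (wt η) p 0 N (y - 1))) ∂(law μ) := by
    unfold Theta
    exact integral_congr_ae (Filter.Eventually.of_forall fun η => TT_zero h)
  rw [← e1, ← e2, ← sum_range_sub (fun k => Theta μ p l r X lo hi N k)]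
  exact sum_congr rfl fun k hk => Theta_succ hi1 hp h (mem_range.1 hk)

end integ

end

end Pool.Agent.W_7d29a1_C1.K91
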