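import Pool.Agent.W_7d29a1_C1.PairP91
import Pool.Agent.W_7d29a1_C1.ContrEP91
import Pool.Agent.W_7d29a1_HS.Defs

/-!
Both halves (MP_7d29a1_pr), attractor route: THE CONTEXTS AND THEIR CONTACTS, definitions (helper60).

A context `Γ`: step weights `exp (s + h)` on the first `M` rows, `exp s` after, `N` rows in all (so `N = M + L + 1`), the left group is the
unit mass at the site `0`, the right group is `q (y - 1)` at the sites `1 ≤ y ≤ k`. A contact `c = (i, x)`: row `i`, cut `x`.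
-/

set_option autoImplicit false

namespace Pool.Agent.W_7d29a1_C1.H60

open MeasureTheory Filter Topology
open Pool.Agent.W_7d29a1_F Pool.Agent.W_7d29a1_h4g Pool.Agent.W_7d29a1_H Pool.Agent.W_7d29a1_HS
open Pool.Agent.W_7d29a1_C1.K91 (Box Grp cut zs jn wt)
open Pool.Agent.W_7d29a1_C1.K91P

noncomputable section

/-- A context. -/
structure Cx where
  s : ℝ
  h : ℝ
  M : ℕ
  N : ℕ
  k : ℕ
  q : ℕ → ℝ

namespace Cx

variable (Γ : Cx)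

/-- The step weights. -/
def p (i : ℕ) : ℝ := if i < Γ.M then Real.exp (Γ.s + Γ.h) else Real.exp Γ.s

/-- The left group. -/
def l (y : ℤ) : ℝ := if y = 0 then 1 else 0

/-- The right group. -/
def r (y : ℤ) : ℝ := if 1 ≤ y ∧ y ≤ Γ.k then Γ.q (y - 1).toNat else 0

/-- The right end of the box (the left end is `0`). -/
def hi : ℤ := Γ.k + Γ.N

/-- **The contact functional at the level `a`**. -/
def ct (η : Env) (c : ℕ × ℤ) (a : ℝ) : ℝ :=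
  rho (wt η) Γ.p l (fun y => Real.exp (-a) * Γ.r y) 1 c.1 c.2 *
    (jg (wt η) Γ.p l (fun y => Real.exp (-a) * Γ.r y) 0 Γ.hi Γ.N c.1 c.2 -
      JG (wt η) Γ.p l (fun y => Real.exp (-a) * Γ.r y) 0 Γ.hi Γ.N c.1 c.2)

/-- **The contact functional**, level integrated. -/
def C (c : ℕ × ℤ) (η : Env) : ℝ := ∫ a, Γ.ct η c a

/-- The total mass of the left group. -/
def ZM (η : Env) : ℝ := bw (wt η) Γ.p 0 Γ.N 0

/-- The total mass of the right group (gap `1`). -/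
def ZR (η : Env) : ℝ := ∑ y ∈ Finset.Icc (0 : ℤ) Γ.hi, Γ.r y * bw (wt η) Γ.p 0 Γ.N y

/-- The total mass of the right group (gap `0`). -/
def Z0 (η : Env) : ℝ := ∑ y ∈ Finset.Icc (0 : ℤ) Γ.hi, Γ.r y * bw (wt η) Γ.p 0 Γ.N (y - 1)

/-- The balance point. -/
def B (η : Env) : ℝ := Real.log (Γ.Z0 η) - Real.log (Γ.ZM η)

/-- **The natural weight**: the first meeting of the two replicas is at the site `x` of the row `i + 1`. -/
def w (c : ℕ × ℤ) (η : Env) : ℝ :=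
  dp (wt η) Γ.p l Γ.r c.1 (c.2 - 1) c.2 * (Γ.p c.1 * (wt η c.1 (c.2 - 1) * wt η c.1 c.2) *
    bw (wt η) Γ.p (c.1 + 1) (Γ.N - (c.1 + 1)) c.2 ^ 2) / (Γ.ZM η * Γ.ZR η)

/-- **The weight of the contact in its frame** (helper91 74362). -/
def ws (c : ℕ × ℤ) (η : Env) : ℝ :=
  dp (wt η) Γ.p l Γ.r c.1 (c.2 - 1) c.2 * (Γ.p c.1 * (wt η c.1 (c.2 - 1) * wt η c.1 c.2) *
    GG (wt η) Γ.p Γ.N c.1 (c.2 - 1) ^ 2) /
    (zs (Finset.Icc 0 Γ.hi) (fw (wt η) Γ.p l c.1) (wt η c.1) (GG (wt η) Γ.p Γ.N c.1) c.2 *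
      zs (Finset.Icc 0 Γ.hi) (fw (wt η) Γ.p Γ.r c.1) (wt η c.1) (GG (wt η) Γ.p Γ.N c.1) c.2)

/-- The contacts in the rows `a ≤ i < b`. -/
def rows (a b : ℕ) : Finset (ℕ × ℤ) := Finset.Ico a b ×ˢ Finset.Icc 1 (1 + (Γ.N : ℤ))

/-- The mean share of the first `d` sites in the right group (gap `0`). -/
def near (μ : Measure ℝ) (d : ℕ) : ℝ :=
  ∫ η, (∑ j ∈ Finset.range (min d Γ.k), Γ.q j * bw (wt η) Γ.p 0 Γ.N (j : ℤ)) /
    (∑ j ∈ Finset.range Γ.k, Γ.q j * bw (wt η) Γ.p 0 Γ.N (j : ℤ)) ∂(law μ)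

end Cx

/-- The contexts of `LML8` at the scale `n`. -/
structure Adm (μ : Measure ℝ) (s c δ κ : ℝ) (n : ℕ) (Γ : Cx) : Prop where
  hs : Γ.s = s
  k1 : 1 ≤ Γ.k
  k2 : (Γ.k : ℝ) ≤ (n : ℝ) ^ δ * wd μ s n
  q0 : ∀ j, j < Γ.k → 0 ≤ Γ.q j
  q1 : ∃ j, j < Γ.k ∧ 0 < Γ.q j
  hor : ∃ N L : ℕ, n ≤ N ∧ (N : ℝ) ≤ (n : ℝ) ^ (1 + c) ∧ N ^ 3 ≤ L ∧ L ≤ 2 * N ^ 3 ∧ Γ.M ≤ N ∧ Γ.N = Γ.M + L + 1 ∧
    |Γ.h| * EE μ s n ≤ (n : ℝ) ^ (-(2 * δ)) ∧ |Γ.h| * EE μ s N ≤ (N : ℝ) ^ κ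

/-- The reference context: two single starts at the distance `⌈wd n⌉`, no tilt, `n ^ 3 + 1` rows. -/
def ref (μ : Measure ℝ) (s : ℝ) (n : ℕ) : Cx where
  s := s
  h := 0
  M := 0
  N := n ^ 3 + 1
  k := ⌈wd μ s n⌉₊
  q := fun j => if j + 1 = ⌈wd μ s n⌉₊ then 1 else 0

end

end Pool.Agent.W_7d29a1_C1.H60
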