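import Pool.Agent.W_7d29a1_C1.CmpS83
import Pool.Agent.W_7d29a1_C1.Ctx60

/-!
MP_7d29a1_pr, [C1], SHELL: (d3) of the list of the fresh ball (board 79770): SEAM IN + INSIDE + EXIT + SEAM OUT => `W_Q ≥ (1 - ε') (1 - 2 z)`.
(helper83)

Rows `c0 < e < c3`: `a = fw l c0`, `K₁ = ker c0 (e - c0)`, `B = bw e (N - e)`, `K₂ = ker e (c3 - e)`, `G = bw c3 (N - c3)`.

* `Out`, `exit_out` : the exit lane and the profile of the second seam give the profile at the row `e`: small off the cell `δ`;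
* `through`, `d3_83` : the group goes `β₁ → δ`, and the weight of `Q`.
-/

set_option autoImplicit false

namespace Pool.Agent.W_7d29a1_C1.S83

open Finset
open Pool.Agent.W_7d29a1_C1.K91 (Grp Box ps2 ps2_congr ps2_add ps2_mul wt wt_pos)
open Pool.Agent.W_7d29a1_C1.K91P
open Pool.Agent.W_7d29a1_C1.U31 (sum_fw_bw)
open Pool.Agent.W_7d29a1_C1.U16 (ker ker_zero ker_succ ker_nonneg ker_eq_zero ker_congr fw_ker bw_ker ker_add)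
open Pool.Agent.W_7d29a1_C1.Bx47
open Pool.Agent.W_7d29a1_F (Env)
open Pool.Agent.W_7d29a1_C1.H60

noncomputable section

/-- The profile `B` at the exit row: small off `δ`, regular on `δ`. -/
structure Out (T δ : Finset ℤ) (B ps : ℤ → ℝ) (V e3 B0 : ℝ) : Prop where
  o1 : ∀ y ∈ T \ δ, B y ≤ e3 * ps y * B0
  o2 : ∀ y ∈ δ, B y ≤ V * ps y * B0
  o3 : ∀ y ∈ δ, B0 ≤ V * B y

/-- **The exit.** `A0` = the size of the lane. -/
theorem exit_out {T δ δ' : Finset ℤ} (hδ' : δ' ⊆ T) {K : ℤ → ℤ → ℝ} {B G ps ps' : ℤ → ℝ} {V e4 U2 A0 G0 : ℝ}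
    (K0 : ∀ x y, 0 ≤ K x y) (g0 : ∀ y, 0 ≤ G y) (hV : 0 ≤ V) (hG0 : 0 ≤ G0) (hU : 0 ≤ U2) (hA : 0 ≤ A0)
    (hδ : δ ⊆ T) (hB : ∀ y ∈ T, B y = ∑ v ∈ T, K y v * G v) (hps : ∀ y ∈ δ, 1 ≤ ps y)
    (so1 : ∀ v ∈ T, G v ≤ V * ps' v * G0) (so2 : ∀ v ∈ δ', G0 ≤ V * G v)
    (koff : ∀ y ∈ T \ δ, ∑ v ∈ T, K y v * ps' v ≤ e4 * ps y * A0) (kup : ∀ y ∈ δ, ∑ v ∈ T, K y v * ps' v ≤ U2 * A0)
    (klo : ∀ y ∈ δ, A0 ≤ U2 * ∑ v ∈ δ', K y v) : Out T δ B ps (V * U2) (V * e4) (A0 * G0) := by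
  have up : ∀ y ∈ T, B y ≤ V * G0 * ∑ v ∈ T, K y v * ps' v := by
    intro y hy
    rw [hB y hy, mul_sum]
    refine sum_le_sum fun v hv => ?_
    refine (mul_le_mul_of_nonneg_left (so1 v hv) (K0 y v)).trans (le_of_eq ?_)
    ring
  have hVG : 0 ≤ V * G0 := mul_nonneg hV hG0
  refine ⟨fun y hy => ?_, fun y hy => ?_, fun y hy => ?_⟩
  · refine (up y (mem_sdiff.1 hy).1).trans ((mul_le_mul_of_nonneg_left (koff y hy) hVG).trans (le_of_eq ?_))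
    ring
  · refine (up y (hδ hy)).trans ((mul_le_mul_of_nonneg_left (kup y hy) hVG).trans ?_)
    have h1 : V * G0 * (U2 * A0) = V * U2 * (A0 * G0) * 1 := by ring
    have h2 : V * U2 * ps y * (A0 * G0) = V * U2 * (A0 * G0) * ps y := by ring
    rw [h1, h2]
    exact mul_le_mul_of_nonneg_left (hps y hy) (by positivity)
  · have h1 : G0 * ∑ v ∈ δ', K y v ≤ V * B y := by
      rw [hB y (hδ hy), mul_sum]
      calc ∑ v ∈ δ', G0 * K y v ≤ ∑ v ∈ δ', V * (K y v * G v) := by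
            refine sum_le_sum fun v hv => ?_
            have := mul_le_mul_of_nonneg_right (so2 v hv) (K0 y v)
            linarith
        _ ≤ ∑ v ∈ T, V * (K y v * G v) := sum_le_sum_of_subset_of_nonneg hδ' fun v _ _ =>
            mul_nonneg hV (mul_nonneg (K0 y v) (g0 v))
        _ = V * ∑ v ∈ T, K y v * G v := by rw [mul_sum]
    calc A0 * G0 ≤ (U2 * ∑ v ∈ δ', K y v) * G0 := mul_le_mul_of_nonneg_right (klo y hy) hG0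
      _ = U2 * (G0 * ∑ v ∈ δ', K y v) := by ring
      _ ≤ U2 * (V * B y) := mul_le_mul_of_nonneg_left h1 hU
      _ = _ := by ring

/-- The inside kernel between the two seams: slopes, lower bound between the cells. -/
structure Kin (S T C δ : Finset ℤ) (K : ℤ → ℤ → ℝ) (ph ps : ℤ → ℝ) (L1 : ℝ) : Prop where
  k1 : ∀ x ∈ S, ∑ y ∈ T, K x y * ps y ≤ L1 * ph x
  k2 : ∀ x ∈ C, ∑ y ∈ T, K x y * ps y ≤ L1
  k3 : ∀ x ∈ C, 1 ≤ L1 * ∑ y ∈ δ, K x y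

/-- The paths from the cells leave through `δ`. -/
theorem exit_share {S T C δ : Finset ℤ} {K : ℤ → ℤ → ℝ} {B F ph ps : ℤ → ℝ} {V e3 L1 B0 : ℝ} (hδ : δ ⊆ T) (hC : C ⊆ S)
    (K0 : ∀ x y, 0 ≤ K x y) (g0 : ∀ y, 0 ≤ B y) (p0 : ∀ y, 0 ≤ ps y) (hV : 0 ≤ V) (he3 : 0 ≤ e3) (hB0 : 0 ≤ B0)
    (hL1 : 0 ≤ L1) (hF : ∀ x ∈ S, F x = ∑ y ∈ T, K x y * B y) (hO : Out T δ B ps V e3 B0) (hK : Kin S T C δ K ph ps L1)
    {x : ℤ} (hx : x ∈ C) : (1 - e3 * V * L1 ^ 2) * F x ≤ ∑ y ∈ δ, K x y * B y := by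
  have h1 : ∑ y ∈ T \ δ, K x y * B y ≤ e3 * B0 * ∑ y ∈ T, K x y * ps y := by
    rw [mul_sum]
    calc ∑ y ∈ T \ δ, K x y * B y ≤ ∑ y ∈ T \ δ, e3 * B0 * (K x y * ps y) := by
          refine sum_le_sum fun y hy => ?_
          refine (mul_le_mul_of_nonneg_left (hO.o1 y hy) (K0 x y)).trans (le_of_eq ?_)
          ring
      _ ≤ _ := sum_le_sum_of_subset_of_nonneg sdiff_subset fun y _ _ =>
          mul_nonneg (mul_nonneg he3 hB0) (mul_nonneg (K0 x y) (p0 y))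
  have h2 : F x = ∑ y ∈ δ, K x y * B y + ∑ y ∈ T \ δ, K x y * B y := by
    rw [hF x (hC hx), ← sum_sdiff hδ, add_comm]
  have h3 : B0 * ∑ y ∈ δ, K x y ≤ V * ∑ y ∈ δ, K x y * B y := by
    rw [mul_sum, mul_sum]
    refine sum_le_sum fun y hy => ?_
    have := mul_le_mul_of_nonneg_left (hO.o3 y hy) (K0 x y)
    linarith
  have h4 : B0 ≤ L1 * (V * ∑ y ∈ δ, K x y * B y) := by
    calc B0 = B0 * 1 := (mul_one _).symm
      _ ≤ B0 * (L1 * ∑ y ∈ δ, K x y) := mul_le_mul_of_nonneg_left (hK.k3 x hx) hB0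
      _ = L1 * (B0 * ∑ y ∈ δ, K x y) := by ring
      _ ≤ _ := mul_le_mul_of_nonneg_left h3 hL1
  have hS0 : 0 ≤ ∑ y ∈ δ, K x y * B y := sum_nonneg fun y _ => mul_nonneg (K0 x y) (g0 y)
  have h5 : ∑ y ∈ T \ δ, K x y * B y ≤ e3 * V * L1 ^ 2 * F x := by
    have h6 : e3 * B0 * ∑ y ∈ T, K x y * ps y ≤ e3 * B0 * L1 := mul_le_mul_of_nonneg_left (hK.k2 x hx) (mul_nonneg he3 hB0)
    have h7 : e3 * L1 * B0 ≤ e3 * L1 * (L1 * (V * ∑ y ∈ δ, K x y * B y)) := mul_le_mul_of_nonneg_left h4 (mul_nonneg he3 hL1)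
    have h8 : ∑ y ∈ δ, K x y * B y ≤ F x := by
      rw [h2]
      have : 0 ≤ ∑ y ∈ T \ δ, K x y * B y := sum_nonneg fun y _ => mul_nonneg (K0 x y) (g0 y)
      linarith
    have h9 : e3 * V * L1 ^ 2 * ∑ y ∈ δ, K x y * B y ≤ e3 * V * L1 ^ 2 * F x := mul_le_mul_of_nonneg_left h8 (by positivity)
    have h10 : e3 * L1 * (L1 * (V * ∑ y ∈ δ, K x y * B y)) = e3 * V * L1 ^ 2 * ∑ y ∈ δ, K x y * B y := by ring
    linarith
  linarith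

variable {w : ℕ → ℤ → ℝ} {p : ℕ → ℝ} {l r : ℤ → ℝ} {X lo hi : ℤ} {N : ℕ}

/-- The profile of the first seam: both groups small off the cells, tuned pair. -/
structure SeamI (S β₁ β₂ : Finset ℤ) (a b ph : ℤ → ℝ) (e1 e2 : ℝ) : Prop where
  offa : ∑ x ∈ S \ (β₁ ∪ β₂), a x * ph x ≤ e1 * ∑ x ∈ β₁ ∪ β₂, a x
  offb : ∑ x ∈ S \ (β₁ ∪ β₂), b x * ph x ≤ e1 * ∑ x ∈ β₁ ∪ β₂, b x
  ta : ∑ x ∈ β₂, a x ≤ e2 * ∑ x ∈ β₁, a x
  tb : ∑ x ∈ β₁, b x ≤ e2 * ∑ x ∈ β₂, b x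

/-- **(d3).** Rows `i = c0`, `K = i + n = e` (the start of the exit). -/
theorem d3_83 (hw : ∀ k y, 0 < w k y) (hp : ∀ k, 0 < p k) (h : Box l r X lo hi N) {Q : Finset (ℕ × ℤ)} {K i n : ℕ}
    (hK : i + n = K) (hKN : K ≤ N) (hQ : Q ⊆ Ico i K ×ˢ Icc lo hi) {β₁ β₂ δ : Finset ℤ} (b1 : β₁ ⊆ Icc lo hi)
    (b2 : β₂ ⊆ Icc lo hi) (hδ : δ ⊆ Icc lo hi) (hlt : ∀ x ∈ β₁, ∀ x' ∈ β₂, x < x') {ε' e1 e2 e3 V L1 B0 : ℝ} {ph ps : ℤ → ℝ}
    (hε' : ε' ≤ 1) (he1 : 0 ≤ e1) (he2 : 0 ≤ e2) (he3 : 0 ≤ e3) (heV : e3 ≤ V) (hL1 : 0 ≤ L1) (hB0 : 0 ≤ B0)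
    (hps : ∀ y, 0 ≤ ps y) {z : ℝ} (hz : (V * L1) ^ 2 * (e2 + e1 * (1 + e2)) + e3 * V * L1 ^ 2 ≤ z) (hz1 : z ≤ 1)
    (hin : ∀ x ∈ β₁, ∀ x' ∈ β₂, ∀ y ∈ δ, ∀ y' ∈ δ,
      (1 - ε') * (ker w p i n x y * ker w p i n x' y') ≤ mq w p Q i n x x' y y')
    (hI : SeamI (Icc lo hi) β₁ β₂ (fw w p l i) (fw w p r i) ph e1 e2)
    (hkn : Kin (Icc lo (hi - n)) (Icc lo hi) (β₁ ∪ β₂) δ (ker w p i n) ph ps L1) (hc1 : β₁ ∪ β₂ ⊆ Icc lo (hi - n))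
    (hO : Out (Icc lo hi) δ (bw w p K (N - K)) ps V e3 B0) {ZM ZR : ℝ}
    (hZM : ZM = ∑ y ∈ Icc lo hi, l y * bw w p 0 N y) (hZR : ZR = ∑ y ∈ Icc lo hi, r y * bw w p 0 N y) :
    (1 - ε') * (1 - 2 * z) * (ZM * ZR) ≤ ∑ c ∈ Q, cq w p l r N c.1 c.2 := by
  have hlo : lo + N ≤ hi := by
    have := h.X0
    have := h.X1
    omega
  have hV : 0 ≤ V := he3.trans heV
  have hd : Disjoint β₁ β₂ := disjoint_left.2 fun x hx hx' => absurd (hlt x hx x hx') (lt_irrefl x)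
  have A0 : ∀ a, 0 ≤ fw w p l i a := fw_nonneg hw hp h.g.l0 i
  have B0' : ∀ a, 0 ≤ fw w p r i a := fw_nonneg hw hp h.g.r0 i
  have F0' : ∀ a, 0 < bw w p i (N - i) a := bw_pos hw hp _ _
  have G0' : ∀ a, 0 < bw w p K (N - K) a := bw_pos hw hp _ _
  have K0 : ∀ x y, 0 ≤ ker w p i n x y := fun x y => ker_nonneg hw hp i n x y
  -- the future of the sites which are reached
  have hF : ∀ x ∈ Icc lo (hi - n), bw w p i (N - i) x = ∑ y ∈ Icc lo hi, ker w p i n x y * bw w p K (N - K) y := by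
    intro x hx
    rw [mem_Icc] at hx
    exact (sum_ker_eq hK hKN hx.1 (by omega)).symm
  have so1 : ∀ y ∈ Icc lo hi, bw w p K (N - K) y ≤ V * ps y * B0 := by
    intro y hy
    by_cases hyd : y ∈ δ
    · exact hO.o2 y hyd
    · refine (hO.o1 y (mem_sdiff.2 ⟨hy, hyd⟩)).trans ?_
      exact mul_le_mul_of_nonneg_right (mul_le_mul_of_nonneg_right heV (hps y)) hB0
  obtain ⟨g1, g2, g3⟩ := reg_in (S := Icc lo (hi - n)) (C := β₁ ∪ β₂) hδ hc1 K0 (fun y => (G0' y).le) hV hB0 hL1 hF so1 hO.o3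
    hkn.k1 hkn.k2 hkn.k3
  -- the reached sites: beyond `hi - n` the groups have no mass
  have zero : ∀ m : ℤ → ℝ, (∀ y, hi - N < y → m y = 0) → ∀ x, hi - n < x → fw w p m i x = 0 := by
    intro m hm x hx
    exact fw_hi (B := hi - N) hm i x (by omega)
  have hsubS : Icc lo (hi - n) ⊆ Icc lo hi := fun x hx => by
    rw [mem_Icc] at hx ⊢
    omega
  have key : ∀ (m : ℤ → ℝ) (C₁ C₂ : Finset ℤ), (∀ x, 0 ≤ fw w p m i x) → (∀ y, hi - N < y → m y = 0) → C₁ ⊆ Icc lo (hi - n) →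
      C₂ ⊆ Icc lo (hi - n) → Disjoint C₁ C₂ → C₁ ∪ C₂ = β₁ ∪ β₂ →
      ∑ x ∈ Icc lo hi \ (β₁ ∪ β₂), fw w p m i x * ph x ≤ e1 * ∑ x ∈ β₁ ∪ β₂, fw w p m i x →
      ∑ x ∈ C₂, fw w p m i x ≤ e2 * ∑ x ∈ C₁, fw w p m i x →
      ∑ x ∈ Icc lo hi, fw w p m i x * bw w p i (N - i) x ≤
        (1 + (V * L1) ^ 2 * (e2 + e1 * (1 + e2))) * ∑ x ∈ C₁, fw w p m i x * bw w p i (N - i) x := by
    intro m C₁ C₂ m0 m1 s1 s2 sd su so st
    have e1' : ∑ x ∈ Icc lo hi, fw w p m i x * bw w p i (N - i) x = ∑ x ∈ Icc lo (hi - n), fw w p m i x * bw w p i (N - i) x := by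
      symm
      refine sum_subset hsubS fun x hx hx' => ?_
      rw [mem_Icc] at hx hx'
      rw [zero m m1 x (by omega), zero_mul]
    have e2' : ∑ x ∈ Icc lo (hi - n) \ (β₁ ∪ β₂), fw w p m i x * ph x = ∑ x ∈ Icc lo hi \ (β₁ ∪ β₂), fw w p m i x * ph x := by
      refine sum_subset (sdiff_subset_sdiff hsubS subset_rfl) fun x hx hx' => ?_
      rw [mem_sdiff, mem_Icc] at hx hx'
      have : hi - n < x := by
        by_contra hc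
        exact hx' ⟨⟨hx.1.1, by omega⟩, hx.2⟩
      rw [zero m m1 x this, zero_mul]
    rw [e1']
    refine seam_dom s1 s2 sd m0 hB0 (mul_nonneg hV hL1) he1 he2 (by rw [su, e2']; exact so) st ?_ ?_ ?_
    · rw [su]
      exact fun x hx => g1 x (mem_sdiff.1 hx).1
    · rw [su]
      exact g2
    · intro x hx
      exact g3 x (su ▸ mem_union_left _ hx)
  have c1 : β₁ ⊆ Icc lo (hi - n) := fun x hx => hc1 (mem_union_left _ hx)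
  have c2 : β₂ ⊆ Icc lo (hi - n) := fun x hx => hc1 (mem_union_right _ hx)
  have dA := key l β₁ β₂ A0 (fun y hy => (h.hi0 y hy).1) c1 c2 hd rfl hI.offa hI.ta
  have dB := key r β₂ β₁ B0' (fun y hy => (h.hi0 y hy).2) c2 c1 hd.symm (union_comm _ _) hI.offb hI.tb
  rw [sum_fw_bw (fun y hy => (h.lo0 y hy).1) (fun y hy => (h.hi0 y hy).1) hlo i (by omega), ← hZM] at dA
  rw [sum_fw_bw (fun y hy => (h.lo0 y hy).2) (fun y hy => (h.hi0 y hy).2) hlo i (by omega), ← hZR] at dB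
  -- the exit
  have zz : 0 ≤ (V * L1) ^ 2 * (e2 + e1 * (1 + e2)) := by positivity
  have zz3 : 0 ≤ e3 * V * L1 ^ 2 := by positivity
  have sh : ∀ (m : ℤ → ℝ) (C₁ : Finset ℤ), (∀ x, 0 ≤ fw w p m i x) → C₁ ⊆ β₁ ∪ β₂ →
      (1 - e3 * V * L1 ^ 2) * ∑ x ∈ C₁, fw w p m i x * bw w p i (N - i) x ≤ thrS w p m N K i n C₁ δ := by
    intro m C₁ m0 hC
    unfold thrS thr
    rw [mul_sum]
    refine sum_le_sum fun x hx => ?_
    rw [← mul_sum]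
    have h1 := exit_share (x := x) hδ hc1 K0 (fun y => (G0' y).le) hps hV he3 hB0 hL1 hF hO hkn (hC hx)
    have h2 := mul_le_mul_of_nonneg_left h1 (m0 x)
    linarith
  have fin : ∀ (m : ℤ → ℝ) (C₁ : Finset ℤ) (Z : ℝ), (∀ x, 0 ≤ fw w p m i x) → C₁ ⊆ β₁ ∪ β₂ →
      Z ≤ (1 + (V * L1) ^ 2 * (e2 + e1 * (1 + e2))) * ∑ x ∈ C₁, fw w p m i x * bw w p i (N - i) x →
      (1 - z) * Z ≤ thrS w p m N K i n C₁ δ := by
    intro m C₁ Z m0 hC hZ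
    obtain ⟨A, hA⟩ : ∃ A : ℝ, A = ∑ x ∈ C₁, fw w p m i x * bw w p i (N - i) x := ⟨_, rfl⟩
    have hA0 : 0 ≤ A := hA ▸ sum_nonneg fun x _ => mul_nonneg (m0 x) (F0' x).le
    have h1 := sh m C₁ m0 hC
    rw [← hA] at hZ h1
    have h2 := mul_le_mul_of_nonneg_left hZ (show (0 : ℝ) ≤ 1 - z by linarith)
    have h3 : (1 - z) * ((1 + (V * L1) ^ 2 * (e2 + e1 * (1 + e2))) * A) ≤ (1 - e3 * V * L1 ^ 2) * A := by
      rw [← mul_assoc]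
      refine mul_le_mul_of_nonneg_right ?_ hA0
      have h4 : (1 - z) * (V * L1) ^ 2 * (e2 + e1 * (1 + e2)) ≤ (V * L1) ^ 2 * (e2 + e1 * (1 + e2)) := by
        have h5 : 1 - z ≤ 1 := by linarith
        have h6 := mul_le_mul_of_nonneg_right h5 zz
        linarith
      linarith
    exact h2.trans (h3.trans h1)
  exact new_of_inG' hw hp h hK hKN hQ b1 b2 hδ hlt hε' hz1 hZM hZR hin (fin l β₁ ZM A0 subset_union_left dA)
    (fin r β₂ ZR B0' subset_union_right dB)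

end

end Pool.Agent.W_7d29a1_C1.S83
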