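import Pool.Agent.W_7d29a1_C1.PathS21
import Pool.Agent.W_7d29a1_C1.CmpT83

/-!
Both halves (MP_7d29a1_pr), attractor route [C1]: THE PREDICATES OF A SUCCESS. (helper21)

No probability, all constants free, kernels `kf` of the real weights, profiles `fw`, `bw`. Boxes: `Icc lo h` at a row, `Icc lo (h + n)`
at the row `n` rows later (`h` fixed).

* `Prf T d G ps V G0` : the profile `G` is at most `V * ps * G0` on `T`, at least `G0 / V` on the window `d`;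
* `Krn S T c d K ph ps L A` : the kernel `K` against slopes: `∑ K x y * ps y ≤ L * ph x * A`, `∑ y ∈ d, K x y ≥ A / L` on `c`;
* `SeamIn` : profiles of the two groups at the first seam (`S83.SeamI`) and positivity; `SeamOut` = `Prf` at the second seam;
* `BufIn` : first buffer, two cells into one window, exits; `SepC` : separation; `ExitS` : one lane into a narrow cell, last buffer;
* `Ins` : the kernels of the inside.
-/

set_option autoImplicit false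
set_option linter.unusedSectionVars false

namespace Pool.Agent.W_7d29a1_C1.Sh21

open Finset Pool.Agent.W_7d29a1_C1.Gini76 Pool.Agent.W_7d29a1_C1.CR76 Pool.Agent.W_7d29a1_C1.K91P
  Pool.Agent.W_7d29a1_C1.Basin76 Pool.Agent.W_7d29a1_C1.R26P Pool.Agent.W_7d29a1_C1.F74 Pool.Agent.W_7d29a1_C1.P21

noncomputable section

/-! ### Profiles and kernels -/

/-- A profile with growth `ps`. -/
structure Prf (T d : Finset ℤ) (G ps : ℤ → ℝ) (V G0 : ℝ) : Prop where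
  up : ∀ z ∈ T, G z ≤ V * ps z * G0
  lw : ∀ z ∈ d, G0 ≤ V * G z

/-- A kernel against slopes. -/
structure Krn (S T c d : Finset ℤ) (K : ℤ → ℤ → ℝ) (ph ps : ℤ → ℝ) (L A : ℝ) : Prop where
  up : ∀ x ∈ S, ∑ y ∈ T, K x y * ps y ≤ L * ph x * A
  lw : ∀ x ∈ c, A ≤ L * ∑ y ∈ d, K x y

theorem Prf.up_sum {T d : Finset ℤ} {G ps : ℤ → ℝ} {V G0 : ℝ} (P : Prf T d G ps V G0) {K : ℤ → ℝ} (K0 : ∀ y, 0 ≤ K y)
    (hV : 0 ≤ V) (hG0 : 0 ≤ G0) {T' : Finset ℤ} (hT : T' ⊆ T) {B : ℝ} (h : ∑ y ∈ T', K y * ps y ≤ B) :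
    ∑ y ∈ T', K y * G y ≤ V * (B * G0) := by
  have h1 : ∑ y ∈ T', K y * G y ≤ V * G0 * ∑ y ∈ T', K y * ps y := by
    rw [mul_sum]
    refine sum_le_sum fun y hy => ?_
    have := mul_le_mul_of_nonneg_left (P.up y (hT hy)) (K0 y)
    linarith
  have h2 := mul_le_mul_of_nonneg_left h (mul_nonneg hV hG0)
  linarith

theorem Prf.lw_sum {T d : Finset ℤ} {G ps : ℤ → ℝ} {V G0 : ℝ} (P : Prf T d G ps V G0) (G0' : ∀ y, 0 ≤ G y) {K : ℤ → ℝ}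
    (K0 : ∀ y, 0 ≤ K y) (hV : 0 ≤ V) (hG0 : 0 ≤ G0) (hd : d ⊆ T) {L A : ℝ} (hL : 0 ≤ L) (h : A ≤ L * ∑ y ∈ d, K y) :
    A * G0 ≤ V * L * ∑ y ∈ T, K y * G y := by
  have h1 := mul_le_mul_of_nonneg_right h hG0
  have h2 : (∑ y ∈ d, K y) * G0 ≤ V * ∑ y ∈ T, K y * G y := by
    rw [sum_mul, mul_sum]
    refine (sum_le_sum (g := fun y => V * (K y * G y)) fun y hy => ?_).trans
      (sum_le_sum_of_subset_of_nonneg hd fun y _ _ => mul_nonneg hV (mul_nonneg (K0 y) (G0' y)))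
    have := mul_le_mul_of_nonneg_left (P.lw y hy) (K0 y)
    linarith
  have h3 := mul_le_mul_of_nonneg_left h2 hL
  linarith

variable {w : ℕ → ℤ → ℝ} {p : ℕ → ℝ} {lo h : ℤ} {r n m : ℕ} {ph ps : ℤ → ℝ} {c d : Finset ℤ} {V G0 L A e W : ℝ}

theorem box_sub {x : ℤ} (hx : x ∈ Icc lo h) : Icc x (x + n) ⊆ Icc lo (h + n) := by
  rw [mem_Icc] at hx
  exact Icc_subset_Icc hx.1 (by omega)

theorem bw_box {a : ℤ} (hx : a ∈ Icc lo h) : bw w p r (n + m) a = ∑ z ∈ Icc lo (h + n), kf w p r n a z * bw w p (r + n) m z := by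
  rw [mem_Icc] at hx
  exact ev_total r n m hx.1 (by omega)

/-- **The profile one slab below.** -/
theorem Prf.pull (hw : ∀ k y, 0 < w k y) (hp : ∀ k, 0 < p k) (P : Prf (Icc lo (h + n)) d (bw w p (r + n) m) ps V G0)
    (K : Krn (Icc lo h) (Icc lo (h + n)) c d (kf w p r n) ph ps L A) (hc : c ⊆ Icc lo h) (hd : d ⊆ Icc lo (h + n)) (hV : 0 ≤ V)
    (hG0 : 0 ≤ G0) (hL : 0 ≤ L) : Prf (Icc lo h) c (bw w p r (n + m)) ph (V * L) (A * G0) := by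
  refine ⟨fun x hx => ?_, fun x hx => ?_⟩
  · rw [bw_box hx]
    refine (P.up_sum (fun z => kf_nonneg hw hp _ _ _ _) hV hG0 Subset.rfl (K.up x hx)).trans (le_of_eq ?_)
    ring
  · rw [bw_box (hc hx)]
    exact P.lw_sum (fun y => (bw_pos hw hp _ _ _).le) (fun z => kf_nonneg hw hp _ _ _ _) hV hG0 hd hL (K.lw x hx)

/-- **Paths with a property.** -/
theorem ev_of (hw : ∀ k y, 0 < w k y) (hp : ∀ k, 0 < p k) (P : Prf (Icc lo (h + n)) d (bw w p (r + n) m) ps V G0)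
    (hV : 0 ≤ V) (hG0 : 0 ≤ G0) (Q : ℤ → Prop) [DecidablePred Q] {a : ℤ} (ha : a ∈ Icc lo h)
    (he : ∑ z ∈ (Icc lo (h + n)).filter Q, kf w p r n a z * ps z ≤ e * A) (he0 : 0 ≤ e * V)
    (hB : A * G0 ≤ W * bw w p r (n + m) a) : ev w p r n m Q a ≤ e * V * W * bw w p r (n + m) a := by
  rw [mem_Icc] at ha
  rw [ev_eq r n m Q ha.1 (show a + n ≤ h + n by omega)]
  refine (P.up_sum (fun z => kf_nonneg hw hp _ _ _ _) hV hG0 (filter_subset _ _) he).trans ?_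
  have := mul_le_mul_of_nonneg_left hB he0
  linarith

/-! ### The predicates -/

/-- **The first seam** : both groups in the two cells up to the slope `ph`, tuned pair. -/
structure SeamIn (lo h : ℤ) (a b : ℤ → ℝ) (a1 b1 a2 b2 : ℤ) (ph : ℤ → ℝ) (e1 e2 : ℝ) : Prop where
  I : S83.SeamI (Icc lo h) (Icc a1 b1) (Icc a2 b2) a b ph e1 e2
  p2 : 0 < ∑ x ∈ Icc a2 b2, a x
  p1 : 0 < ∑ x ∈ Icc a1 b1, b x

/-- **The first buffer** (rows `c0 .. c0 + n1`) : two cells, one window, exits. `L0` compares starts in the same cell. The letter `s` is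
used by `SepC` only. -/
structure BufIn (w : ℕ → ℤ → ℝ) (p : ℕ → ℝ) (lo h : ℤ) (c0 n1 : ℕ) (a1 b1 a2 b2 xa xb s : ℤ) (p1 : ℤ → ℝ) (δ e A0 L0 : ℝ) : Prop
    where
  c1 : CR (kf w p c0 n1) a1 b1 xa xb ≤ 1 + δ
  c2 : CR (kf w p c0 n1) a2 b2 xa xb ≤ 1 + δ
  q1 : ∀ y ∈ Icc a1 b1, kf w p c0 n1 a1 xa ≤ L0 * kf w p c0 n1 y xa ∧ kf w p c0 n1 y xa ≤ L0 * kf w p c0 n1 a1 xa
  q2 : ∀ y ∈ Icc a2 b2, kf w p c0 n1 a2 xa ≤ L0 * kf w p c0 n1 y xa ∧ kf w p c0 n1 y xa ≤ L0 * kf w p c0 n1 a2 xa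
  xl : ∑ x ∈ (Icc lo (h + n1)).filter (· < xa), kf w p c0 n1 a1 x * p1 x ≤ e * A0
  xr : ∑ x ∈ (Icc lo (h + n1)).filter (xb < ·), kf w p c0 n1 b2 x * p1 x ≤ e * A0

/-- **Separation in the first buffer** at the column `s` of the row `c0 + n1`. -/
structure SepC (w : ℕ → ℤ → ℝ) (p : ℕ → ℝ) (lo h : ℤ) (c0 n1 : ℕ) (a1 a2 s : ℤ) (p1 : ℤ → ℝ) (e A0 : ℝ) : Prop where
  sl : ∑ x ∈ (Icc lo (h + n1)).filter (s < ·), kf w p c0 n1 a1 x * p1 x ≤ e * A0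
  sr : ∑ x ∈ (Icc lo (h + n1)).filter (· < s + 1), kf w p c0 n1 a2 x * p1 x ≤ e * A0

/-- **The exit** (rows `r .. r + nb` = one lane into the cell `[ya, yb]`, rows `r + nb .. r + nb + n3` = last buffer), `h` = end of the
box at the row `r`. -/
structure ExitS (w : ℕ → ℤ → ℝ) (p : ℕ → ℝ) (lo h : ℤ) (r nb n3 : ℕ) (da db ya yb za zb : ℤ) (pe p2 p3 : ℤ → ℝ)
    (δ e U L A2 A3 : ℝ) : Prop where
  gd : lo ≤ da ∧ db ≤ h
  gy : lo ≤ ya ∧ yb ≤ h + nb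
  gx : Gex n3 ya yb za zb
  k2 : Krn (Icc lo h) (Icc lo (h + nb)) (Icc da db) (Icc ya yb) (kf w p r nb) pe p2 U A2
  k3 : Krn (Icc lo (h + nb)) (Icc lo (h + nb + n3)) (Icc ya yb) {(za + zb) / 2} (kf w p (r + nb) n3) p2 p3 L A3
  cx : CR (kf w p (r + nb) n3) ya yb za zb ≤ 1 + δ
  yl : ∑ x ∈ (Icc lo (h + nb + n3)).filter (· < za), kf w p (r + nb) n3 ya x * p3 x ≤ e * A3
  yr : ∑ x ∈ (Icc lo (h + nb + n3)).filter (zb < ·), kf w p (r + nb) n3 yb x * p3 x ≤ e * A3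

/-- **The kernels of the inside**, from the first seam (and from the end of the first buffer) to the start of the exit. -/
structure Ins (w : ℕ → ℤ → ℝ) (p : ℕ → ℝ) (lo h : ℤ) (c0 n1 ne : ℕ) (a1 b1 a2 b2 da db : ℤ) (ph p1 pe : ℤ → ℝ) (L A0 A1 : ℝ) : Prop
    where
  k1 : Krn (Icc lo h) (Icc lo (h + n1 + ne)) (cl2 a1 b1 a2 b2) (Icc da db) (kf w p c0 (n1 + ne)) ph pe L (A0 * A1)
  ph1 : ∀ x ∈ cl2 a1 b1 a2 b2, ph x ≤ 1
  kc : ∀ x ∈ Icc lo (h + n1), ∑ v ∈ Icc lo (h + n1 + ne), kf w p (c0 + n1) ne x v * pe v ≤ L * p1 x * A1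

/-- The two cells in front of the first buffer. -/
structure Geo21 (lo h : ℤ) (n1 : ℕ) (a1 b1 a2 b2 xa xb : ℤ) : Prop where
  h1 : a1 ≤ b1
  h2 : b1 < a2
  h3 : a2 ≤ b2
  h4 : b2 ≤ xa
  h5 : xa ≤ xb
  h6 : xb ≤ a1 + n1
  h7 : lo ≤ a1
  h8 : b2 ≤ h

end

end Pool.Agent.W_7d29a1_C1.Sh21
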