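import Pool.Agent.W_7d29a1_C1.KdF78
import Pool.Agent.W_7d29a1_C1.RowX83
import Pool.Agent.W_7d29a1_C1.CmpV83
import Pool.Agent.W_7d29a1_C1.ShDef21

/-!
MP_7d29a1_pr, attractor route [C1] (helper78): THE REAL COMPOSITE KERNELS IN THE LETTERS `Krn` (S83 and Sh21), one call.

* `wl_lin` : the event `RowG` (rowL83) gives `Wl` on every window;
* `krn78` : slabs + single weights => `Krn S T c d (kf (wt η) p (r a) n) (exp ((3b₁+σ)(E/w)(dc - ρ w))) (exp (σ (E/w) dc)) (exp (L₁ E)) κ`;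
* `rows78` : `n + 1 ≤ exp E` for `n ≤ Tt ^ A`.
-/

set_option autoImplicit false

namespace Pool.Agent.W_7d29a1_C1.K78

open MeasureTheory ProbabilityTheory Filter Topology Finset
open Pool.Agent.W_7d29a1_F Pool.Agent.W_7d29a1_h4g Pool.Agent.W_7d29a1_H Pool.Agent.W_7d29a1_HS
open Pool.Agent.W_7d29a1_C1.H75 Pool.Agent.W_7d29a1_C1.U16 Pool.Agent.W_7d29a1_C1.FarK89 Pool.Agent.W_7d29a1_C1.FarW89
open Pool.Agent.W_7d29a1_C1.K91 (wt wt_pos)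
open Pool.Agent.W_7d29a1_C1.X21 (dc sk dc_nonneg sk_nonneg KD dc_le)

noncomputable section

theorem wl_lin {η : Env} {cen : ℕ → ℤ} {i : ℕ} {u v : ℝ} (h : ∀ x : ℤ, |η ((i : ℤ), x)| ≤ u + v * |((x - cen i : ℤ) : ℝ)|) (lo H : ℤ) :
    Wl η cen i lo H u v := fun x _ _ => h x

theorem Wl.mono {η : Env} {cen : ℕ → ℤ} {i : ℕ} {lo H lo' H' : ℤ} {u v u' v' : ℝ} (h : Wl η cen i lo H u v) (h1 : lo ≤ lo') (h2 : H' ≤ H)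
    (hu : u ≤ u') (hv : v ≤ v') : Wl η cen i lo' H' u' v' := fun x hx1 hx2 =>
  (h x (h1.trans hx1) (hx2.trans h2)).trans (add_le_add hu (mul_le_mul_of_nonneg_right hv (dc_nonneg _ _)))

variable {μ : Measure ℝ} {s : ℝ} [IsProbabilityMeasure μ] {c C : ℝ} {n₀ : ℕ}

/-- The number of rows is below `exp E`. -/
theorem rows78 (h0 : In μ s c C n₀) (A : ℕ) {δ : ℝ} (hδ : 0 < δ) : ∃ n₁ : ℕ, 1 ≤ n₁ ∧ ∀ Tt : ℕ, n₁ ≤ Tt → ∀ n : ℕ, n ≤ Tt ^ A →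
    (n : ℝ) + 1 ≤ Real.exp (δ * EE μ s Tt) := by
  obtain ⟨n₁, H⟩ := lgo h0 (δ := δ / (A + 1)) (by positivity)
  refine ⟨max n₁ 2, (by norm_num : 1 ≤ 2).trans (le_max_right _ _), fun Tt hT n hn => ?_⟩
  have h1 := H Tt ((le_max_left _ _).trans hT)
  have h2 : 2 ≤ Tt := (le_max_right _ _).trans hT
  have hT0 : (0 : ℝ) < Tt := by exact_mod_cast (by omega : 0 < Tt)
  have h3 : n + 1 ≤ Tt ^ (A + 1) := by
    have h4 : 1 ≤ Tt ^ A := Nat.one_le_pow _ _ (by omega)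
    calc n + 1 ≤ Tt ^ A + Tt ^ A := by omega
      _ = Tt ^ A * 2 := by ring
      _ ≤ Tt ^ A * Tt := Nat.mul_le_mul_left _ h2
      _ = Tt ^ (A + 1) := (pow_succ _ _).symm
  have h5 : ((n : ℝ) + 1) ≤ (Tt : ℝ) ^ (A + 1) := by exact_mod_cast h3
  refine h5.trans ?_
  rw [← Real.log_le_iff_le_exp (by positivity), Real.log_pow]
  have hA : (0 : ℝ) < (A : ℝ) + 1 := by positivity
  calc ((A + 1 : ℕ) : ℝ) * Real.log Tt ≤ ((A : ℝ) + 1) * (δ / (A + 1) * EE μ s Tt) := by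
        push_cast
        exact mul_le_mul_of_nonneg_left h1 hA.le
    _ = _ := by field_simp

/-- **THE REAL KERNELS, `Krn`.** The two halves. -/
theorem krn78 (h0 : In μ s c C n₀) (P : ℕ) {θ K : ℝ} (hK : 4 ≤ K) (hθ : 0 < θ) : ∃ C₆ : ℝ, 0 < C₆ ∧ ∀ Q b₁ : ℝ, 0 ≤ Q → 0 < b₁ →
    ∃ C₁ : ℝ, 0 < C₁ ∧ ∃ n₁ : ℕ, 1 ≤ n₁ ∧
    ∀ {h : ℝ} {η : Env} {p : ℕ → ℝ} {M : ℕ} {κ : Pt} {r T N : ℕ → ℕ} {q : ℕ → ℝ} {bs : ℕ → Pt} {a b Tt : ℕ}, a < b →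
    (∀ k, k < M → p k = Real.exp (s + h)) → (∀ k, M ≤ k → p k = Real.exp s) → Slabs μ s c θ K h P η κ r T N q bs a b Tt n₁ Q →
    (∀ u, a ≤ u → u < b → θ * T u ≤ ((r (u + 1) - r u : ℕ) : ℝ)) →
    ∀ (cen : ℕ → ℤ) (lo H : ℤ) (n : ℕ) (u₀ : ℝ), 0 ≤ u₀ → r b = r a + n →
    |lat16 μ s κ ((r a : ℤ), cen (r a))| ≤ 1 → |lat16 μ s κ (((r a + n : ℕ) : ℤ), cen (r a + n))| ≤ 1 →
    Wl η cen (r a) lo H (u₀ * EE μ s Tt) (b₁ * (EE μ s Tt / wd μ s Tt)) →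
    Wl η cen (r a + n) lo (H + n) (u₀ * EE μ s Tt) (b₁ * (EE μ s Tt / wd μ s Tt)) →
    (∀ x, dc cen (r a) x ≤ (K - 2) / 2 * wd μ s (T a) - 2 → lo ≤ x ∧ x ≤ H) →
    (∀ y, dc cen (r a + n) y ≤ (K - 2) / 2 * wd μ s (T (b - 1)) - 2 → lo ≤ y ∧ y ≤ H + n) →
    ∀ (σ ρ L₁ : ℝ), 0 ≤ σ → b₁ + σ ≤ c / 8 → (n : ℝ) + 1 ≤ Real.exp (EE μ s Tt) →
    C₁ + Q + 2 + 2 * u₀ + (3 * b₁ + σ) * ρ ≤ L₁ → C₆ * Q * gr (2 * P) K + 2 * u₀ + 4 * b₁ * K ≤ L₁ →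
    ∀ (S T' c' d' : Finset ℤ), (∀ y ∈ S, lo ≤ y ∧ y ≤ H) → (∀ y ∈ c', dc cen (r a) y ≤ (K - 2) / 2 * wd μ s (T a) - 2) →
    (∃ x ∈ d', dc cen (r a + n) x ≤ (K - 2) / 2 * wd μ s (T (b - 1)) - 2) →
    (∀ y ∈ S, ∑ x ∈ T', R26P.kf (wt η) p (r a) n y x * Real.exp (σ * (EE μ s Tt / wd μ s Tt) * dc cen (r a + n) x) ≤
      Real.exp (L₁ * EE μ s Tt) * Real.exp ((3 * b₁ + σ) * (EE μ s Tt / wd μ s Tt) * (dc cen (r a) y - ρ * wd μ s Tt)) *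
        Real.exp (n * lam μ s + h * sl μ s * bl M (r a) n)) ∧
    (∀ y ∈ c', Real.exp (n * lam μ s + h * sl μ s * bl M (r a) n) ≤
      Real.exp (L₁ * EE μ s Tt) * ∑ x ∈ d', R26P.kf (wt η) p (r a) n y x) := by
  obtain ⟨C₆, hC₆, H1⟩ := kd78 h0 P hK hθ
  obtain ⟨n₂, H2⟩ := eventually_atTop.1 ((wd_tendsto h0).eventually_ge_atTop 1)
  refine ⟨C₆, hC₆, fun Q b₁ hQ hb₁ => ?_⟩
  obtain ⟨C₁, hC₁, n₁, hn₁, H3⟩ := H1 Q b₁ hQ hb₁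
  refine ⟨C₁, hC₁, max n₁ n₂, hn₁.trans (le_max_left _ _), ?_⟩
  intro h η p M κ r T N q bs a b Tt hab hp hp' hsl hθT cen lo H n u₀ hu₀ hrn hc1 hc2 hW1 hW2 hB1 hB2 σ ρ L₁ hσ hσc hn hL1 hL2
    S T' c' d' hS hc' hd'
  have hS1 : Slabs μ s c θ K h P η κ r T N q bs a b Tt n₁ Q :=
    { hsl with
      Tt1 := (le_max_left _ _).trans hsl.Tt1
      T1 := fun u hu hub => (le_max_left _ _).trans (hsl.T1 u hu hub) }
  have hk := H3 hab hp hp' hS1 hθT cen lo H n u₀ hu₀ hrn hc1 hc2 hW1 hW2 hB1 hB2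
  have hw1 := H2 Tt ((le_max_right _ _).trans hsl.Tt1)
  obtain ⟨E, hE⟩ : ∃ E, E = EE μ s Tt := ⟨_, rfl⟩
  obtain ⟨w, hwd⟩ : ∃ w, w = wd μ s Tt := ⟨_, rfl⟩
  have hhc : hc μ s c Tt = c * (E / w) := by
    unfold hc
    rw [← hE, ← hwd, mul_div_assoc]
  rw [← hE, ← hwd] at hk ⊢
  rw [← hE] at hn
  rw [← hwd] at hw1
  have hE1 : 1 ≤ E := by rw [hE]; exact one_le_EE _
  have hw0 : 0 < w := by linarith
  have hEw : 0 < E / w := by positivity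
  have hpp : ∀ k, 0 < p k := fun k => by
    rcases lt_or_ge k M with h3 | h3
    · rw [hp k h3]; exact Real.exp_pos _
    · rw [hp' k h3]; exact Real.exp_pos _
  have key := KD.krn (fun k y => wt_pos η k y) hpp hk (β := σ * (E / w)) (by positivity)
    (by rw [hhc]; nlinarith [mul_le_mul_of_nonneg_right hσc hEw.le]) (R₀ := ρ * w) (L := Real.exp (L₁ * E)) (S := S) (T := T') (c := c')
    (d := d') hS hc' hd' ?_ ?_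
  · refine ⟨fun y hy => ?_, key.2⟩
    have h4 := key.1 y hy
    rwa [show 3 * b₁ * (E / w) + σ * (E / w) = (3 * b₁ + σ) * (E / w) by ring] at h4
  · have h5 : (C₁ + Q + 1 + 2 * u₀) * E + (3 * b₁ * (E / w) + σ * (E / w)) * (ρ * w) = (C₁ + Q + 1 + 2 * u₀ + (3 * b₁ + σ) * ρ) * E := by
      field_simp
    rw [h5]
    calc ((n : ℝ) + 1) * Real.exp ((C₁ + Q + 1 + 2 * u₀ + (3 * b₁ + σ) * ρ) * E)
        ≤ Real.exp E * Real.exp ((C₁ + Q + 1 + 2 * u₀ + (3 * b₁ + σ) * ρ) * E) := mul_le_mul_of_nonneg_right hn (Real.exp_pos _).le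
      _ = Real.exp ((C₁ + Q + 2 + 2 * u₀ + (3 * b₁ + σ) * ρ) * E) := by
          rw [← Real.exp_add]
          congr 1
          ring
      _ ≤ _ := Real.exp_le_exp.2 (mul_le_mul_of_nonneg_right hL1 (by linarith))
  · exact Real.exp_le_exp.2 (mul_le_mul_of_nonneg_right hL2 (by linarith))

/-- In the letters of S83. -/
theorem krnS {S T c d : Finset ℤ} {Kf : ℤ → ℤ → ℝ} {ph ps : ℤ → ℝ} {L A : ℝ}
    (h : (∀ y ∈ S, ∑ x ∈ T, Kf y x * ps x ≤ L * ph y * A) ∧ (∀ y ∈ c, A ≤ L * ∑ x ∈ d, Kf y x)) :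
    S83.Krn S T c d Kf ph ps L A ∧ Sh21.Krn S T c d Kf ph ps L A := ⟨⟨h.1, h.2⟩, ⟨h.1, h.2⟩⟩

end

end Pool.Agent.W_7d29a1_C1.K78
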