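import Pool.Agent.W_7d29a1_C1.EnG60
import Pool.Agent.W_7d29a1_C1.KdR78

/-!
Both halves (MP_7d29a1_pr), attractor route: THE COSTS ARE POLYNOMIAL IN THE LEVEL (helper48).

The constants of the kernels at the scale of a contact (`Slabs`, `En31`, `KD`, `Krn`) are existential after the level `q₀` in `FarN89`, `SlT60`,
`SlG60`, `EnG60`, `KdF78`, `KdR78`; the closing of the orders of constants needs them polynomial in the level. Here with explicit powers and a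
constant before the level : `cost_geo48` (power 2), `slabsG48` (power 2), `enS48`, `enG48` (powers 4 and 2), `kd48`, `krn48` (power 4).
-/

set_option autoImplicit false
set_option linter.unusedSectionVars false

namespace Pool.Agent.W_7d29a1_C1.P48

noncomputable section

section levels

open MeasureTheory ProbabilityTheory Filter Topology
open Pool.Agent.W_7d29a1_F Pool.Agent.W_7d29a1_h4g Pool.Agent.W_7d29a1_H Pool.Agent.W_7d29a1_HS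
open Pool.Agent.W_7d29a1_C1.S71 Pool.Agent.W_7d29a1_C1.Sw9 Pool.Agent.W_7d29a1_C1.H75 Pool.Agent.W_7d29a1_C1.U16
open Pool.Agent.W_7d29a1_C1.FarK89 Pool.Agent.W_7d29a1_C1.FarW89
open Pool.Agent.W_7d29a1_C1.T10 Pool.Agent.W_7d29a1_C1.S83 Pool.Agent.W_7d29a1_C1.D31 Pool.Agent.W_7d29a1_C1.H60
open scoped ENNReal

/-- The factor `gr` at the range of the comparison is linear in `Q`. -/
theorem gr_AQ48 (P : ℕ) {c : ℝ} (hc : 0 < c) : ∃ A : ℝ, 1 ≤ A ∧ ∀ Q : ℝ, 0 ≤ Q → gr P (AQ P c Q) ≤ A * (1 + Q) := by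
  obtain ⟨B, hB⟩ : ∃ B : ℝ, B = 2 * (P + 1) * CP P / c := ⟨_, rfl⟩
  have hCP := CP_pos P
  have hB0 : 0 ≤ B := by rw [hB]; positivity
  refine ⟨CP P * (1 + B) + 1, by nlinarith [mul_nonneg hCP.le (show (0 : ℝ) ≤ 1 + B by linarith)], fun Q hQ => ?_⟩
  have e : AQ P c Q = (B * Q) ^ 2 := by
    unfold AQ
    rw [hB]
    congr 1
    ring
  have h1 := log_pow_le P (show 1 ≤ 1 + AQ P c Q by have := AQ_nonneg P c Q; linarith)
  have hBQ : 0 ≤ B * Q := mul_nonneg hB0 hQ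
  have h2 : Real.sqrt (1 + AQ P c Q) ≤ 1 + B * Q := by
    rw [e]
    refine Real.sqrt_le_iff.2 ⟨by linarith, ?_⟩
    nlinarith
  have h3 : gr P (AQ P c Q) ≤ CP P * (1 + B * Q) := h1.trans (mul_le_mul_of_nonneg_left h2 hCP.le)
  have h4 : 1 + B * Q ≤ (1 + B) * (1 + Q) := by nlinarith
  have h5 := mul_le_mul_of_nonneg_left h4 hCP.le
  calc gr P (AQ P c Q) ≤ CP P * ((1 + B) * (1 + Q)) := h3.trans h5
    _ ≤ CP P * ((1 + B) * (1 + Q)) + (1 + Q) := by linarith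
    _ = _ := by ring

/-- The level `LQ` of the comparison is quadratic. -/
theorem LQ48 (P : ℕ) {c : ℝ} (hc : 0 < c) {C : ℝ} (hC : 0 < C) : ∃ A : ℝ, 1 ≤ A ∧ ∀ Q : ℝ, 0 ≤ Q → LQ P c (C * Q) ≤ A * (1 + Q) ^ 2 := by
  obtain ⟨A, hA, H⟩ := gr_AQ48 P hc
  refine ⟨A * (1 + C) ^ 2, by nlinarith [sq_nonneg C], fun Q hQ => ?_⟩
  have h0 : 0 ≤ C * Q := mul_nonneg hC.le hQ
  have h1 := H (C * Q) h0
  have h2 : 1 + C * Q ≤ (1 + C) * (1 + Q) := by nlinarith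
  have h3 : 0 ≤ (1 + C) * (1 + Q) := by positivity
  unfold LQ
  calc C * Q * gr P (AQ P c (C * Q)) ≤ C * Q * (A * (1 + C * Q)) := mul_le_mul_of_nonneg_left h1 h0
    _ ≤ (1 + C) * (1 + Q) * (A * ((1 + C) * (1 + Q))) :=
        mul_le_mul (by linarith) (mul_le_mul_of_nonneg_left h2 (by linarith)) (by positivity) h3
    _ = _ := by ring

variable {μ : Measure ℝ} {s : ℝ} [IsProbabilityMeasure μ] {c C : ℝ} {n₀ : ℕ}
/-- **THE COST AT GEOMETRIC SCALES**, polynomial in the level. -/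
theorem cost_geo48 (h0 : In μ s c C n₀) (P : ℕ) {K : ℕ} (hK : 2 ≤ K) : ∃ R : ℝ, 1 < R ∧ ∃ n₁ : ℕ, 1 ≤ n₁ ∧ ∃ A : ℝ, 1 ≤ A ∧ ∀ q₀ : ℝ, 0 ≤ q₀ →
    ∀ (T₀ t : ℕ) (S : Finset ℕ) (σ : ℕ → ℕ) (q : ℕ → ℝ), n₁ ≤ T₀ → Set.InjOn σ S → (∀ u ∈ S, σ u ≤ t) → (∀ u ∈ S, 0 ≤ q u) →
      (∀ u ∈ S, q u ≤ q₀ * R ^ (t - σ u)) →
      ∑ u ∈ S, (1 + q u) ^ 2 * gr (2 * P) (2 * wd μ s (T₀ * K ^ t) / wd μ s (T₀ * K ^ σ u)) * EE μ s (T₀ * K ^ σ u) ≤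
        A * (1 + q₀) ^ 2 * EE μ s (T₀ * K ^ t) := by
  obtain ⟨a, k, n₁, _, hE⟩ := grE17 h0
  obtain ⟨a', k', n₁', _, hW⟩ := grW17 h0
  have hk := hE.k0
  have hk' := hW.k0
  obtain ⟨x, hx⟩ : ∃ x : ℝ, x = (K : ℝ) ^ a := ⟨_, rfl⟩
  have hx1 : 1 < x := by rw [hx]; exact one_lt_rpow17 hK hE.a0
  have hx0 : 0 < x := by linarith
  obtain ⟨b, hb⟩ : ∃ b : ℝ, b = (K : ℝ) ^ (1 - a') := ⟨_, rfl⟩
  have hb1 : 1 < b := by rw [hb]; exact one_lt_rpow17 hK hW.b0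
  have hb0 : 0 < b := by linarith
  obtain ⟨R, hR⟩ : ∃ R : ℝ, R = x ^ (1 / 4 : ℝ) := ⟨_, rfl⟩
  have hR1 : 1 < R := by rw [hR]; exact Real.one_lt_rpow hx1 (by norm_num)
  have hR0 : 0 < R := by linarith
  have hR4 : R ^ 4 = x := by
    rw [hR, ← Real.rpow_natCast, ← Real.rpow_mul hx0.le]
    norm_num
  -- the constant of the gr factor
  obtain ⟨A, hA⟩ : ∃ A : ℝ, A = 1 + Real.log (1 + 2 / k') + Real.log b := ⟨_, rfl⟩
  have hA1 : 1 ≤ A := by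
    have h1 : 0 ≤ Real.log (1 + 2 / k') := Real.log_nonneg (by have : 0 < 2 / k' := by positivity
                                                               linarith)
    have h2 : 0 ≤ Real.log b := Real.log_nonneg hb1.le
    rw [hA]
    linarith
  have hx2 : (R ^ 2)⁻¹ < 1 := inv_lt_one_of_one_lt₀ (one_lt_pow₀ hR1 (by norm_num))
  have hsum := FarN89.summ (x := (R ^ 2)⁻¹) (by positivity) hx2 (2 * P)
  obtain ⟨Z, hZ⟩ : ∃ Z : ℝ, Z = ∑' j : ℕ, (1 + (j : ℝ)) ^ (2 * P) * ((R ^ 2)⁻¹) ^ j := ⟨_, rfl⟩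
  have hZ0 : 0 < Z := by
    have h1 := hsum.le_tsum 0 fun i _ => by positivity
    rw [← hZ] at h1
    simp at h1
    linarith
  obtain ⟨Y, hY⟩ : ∃ Y : ℝ, Y = A ^ (2 * P) / k * Z := ⟨_, rfl⟩
  have hY0 : 0 < Y := by rw [hY]; positivity
  refine ⟨R, hR1, max n₁ n₁', hE.n1.trans (le_max_left _ _), Y + 1, by linarith, fun q₀ hq₀ => ?_⟩
  intro T₀ t S σ q hT hσ hσt hq0 hq
  have hT1 : n₁ ≤ T₀ := (le_max_left _ _).trans hT
  have hT2 : n₁' ≤ T₀ := (le_max_right _ _).trans hT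
  have hKp : ∀ j : ℕ, 0 < K ^ j := fun j => Nat.pos_of_ne_zero (by positivity)
  have hEt := EE_pos (μ := μ) (s := s) (T₀ * K ^ t)
  have key : ∀ u ∈ S, (1 + q u) ^ 2 * gr (2 * P) (2 * wd μ s (T₀ * K ^ t) / wd μ s (T₀ * K ^ σ u)) * EE μ s (T₀ * K ^ σ u) ≤
      (1 + q₀) ^ 2 * A ^ (2 * P) / k * EE μ s (T₀ * K ^ t) * ((1 + ((t - σ u : ℕ) : ℝ)) ^ (2 * P) * ((R ^ 2)⁻¹) ^ (t - σ u)) := by
    intro u hu
    obtain ⟨j, hj⟩ : ∃ j : ℕ, j = t - σ u := ⟨_, rfl⟩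
    have hjt : σ u + j = t := by have := hσt u hu; omega
    have hTu : n₁ ≤ T₀ * K ^ σ u := hT1.trans (Nat.le_mul_of_pos_right T₀ (hKp _))
    have hTu' : n₁' ≤ T₀ * K ^ σ u := hT2.trans (Nat.le_mul_of_pos_right T₀ (hKp _))
    have e1 : T₀ * K ^ σ u * K ^ j = T₀ * K ^ t := by rw [mul_assoc, ← pow_add, hjt]
    have h1 := hE.lo_sc hTu (by omega : 1 ≤ K) j
    have h2 := hW.up_sc hTu' (by omega : 1 ≤ K) j
    rw [e1, ← hx] at h1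
    rw [e1, ← hb] at h2
    have hEu := EE_pos (μ := μ) (s := s) (T₀ * K ^ σ u)
    have hwu : 0 < wd μ s (T₀ * K ^ σ u) := hW.pos _ hTu'
    have hwt : 0 < wd μ s (T₀ * K ^ t) := hW.pos _ (hT2.trans (Nat.le_mul_of_pos_right T₀ (hKp _)))
    have hjR : (0 : ℝ) ≤ j := Nat.cast_nonneg j
    -- the level
    have g1 : (1 + q u) ^ 2 ≤ (1 + q₀) ^ 2 * (R ^ 2) ^ j := by
      have h3 := hq u hu
      rw [← hj] at h3
      have h4 : 1 ≤ R ^ j := one_le_pow₀ hR1.le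
      have h5 : 1 + q u ≤ (1 + q₀) * R ^ j := by nlinarith
      have h6 := hq0 u hu
      calc (1 + q u) ^ 2 ≤ ((1 + q₀) * R ^ j) ^ 2 := pow_le_pow_left₀ (by linarith) h5 2
        _ = _ := by rw [mul_pow, ← pow_mul, ← pow_mul, mul_comm j 2]
    -- the factor gr
    have g2 : gr (2 * P) (2 * wd μ s (T₀ * K ^ t) / wd μ s (T₀ * K ^ σ u)) ≤ A ^ (2 * P) * (1 + (j : ℝ)) ^ (2 * P) := by
      rw [← mul_pow]
      unfold gr
      have h3 : 2 * wd μ s (T₀ * K ^ t) / wd μ s (T₀ * K ^ σ u) ≤ 2 / k' * b ^ j := by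
        rw [div_le_iff₀ hwu]
        have h4 : wd μ s (T₀ * K ^ t) ≤ 1 / k' * (b ^ j * wd μ s (T₀ * K ^ σ u)) := by
          rw [one_div, ← div_eq_inv_mul, le_div_iff₀ hk', mul_comm]
          exact h2
        calc 2 * wd μ s (T₀ * K ^ t) ≤ 2 * (1 / k' * (b ^ j * wd μ s (T₀ * K ^ σ u))) := by linarith
          _ = _ := by ring
      have h3' : 0 ≤ 2 * wd μ s (T₀ * K ^ t) / wd μ s (T₀ * K ^ σ u) := by positivity
      have h4 : 1 + 2 * wd μ s (T₀ * K ^ t) / wd μ s (T₀ * K ^ σ u) ≤ (1 + 2 / k') * b ^ j := by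
        have h5 : 1 ≤ b ^ j := one_le_pow₀ hb1.le
        nlinarith
      have h5 : Real.log (1 + 2 * wd μ s (T₀ * K ^ t) / wd μ s (T₀ * K ^ σ u)) ≤ Real.log (1 + 2 / k') + j * Real.log b := by
        refine (Real.log_le_log (by linarith) h4).trans (le_of_eq ?_)
        rw [Real.log_mul (by positivity) (by positivity), Real.log_pow]
      have h6 : 0 ≤ Real.log (1 + 2 / k') := Real.log_nonneg (by have : 0 < 2 / k' := by positivity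
                                                                 linarith)
      have h7 : 0 ≤ Real.log b := Real.log_nonneg hb1.le
      have h8 : 0 ≤ Real.log (1 + 2 * wd μ s (T₀ * K ^ t) / wd μ s (T₀ * K ^ σ u)) := Real.log_nonneg (by linarith)
      refine pow_le_pow_left₀ (by linarith) ?_ _
      rw [hA]
      nlinarith [mul_nonneg h6 hjR, mul_nonneg h7 hjR]
    -- the unit
    have g3 : EE μ s (T₀ * K ^ σ u) ≤ 1 / k * ((R ^ 4)⁻¹) ^ j * EE μ s (T₀ * K ^ t) := by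
      rw [hR4]
      have h3 : 0 < x ^ j := by positivity
      calc EE μ s (T₀ * K ^ σ u) = 1 / k * (x⁻¹) ^ j * (k * x ^ j * EE μ s (T₀ * K ^ σ u)) := by
            rw [inv_pow]
            field_simp
        _ ≤ 1 / k * (x⁻¹) ^ j * EE μ s (T₀ * K ^ t) := mul_le_mul_of_nonneg_left h1 (by positivity)
    rw [← hj]
    have g4 : (1 + q u) ^ 2 * gr (2 * P) (2 * wd μ s (T₀ * K ^ t) / wd μ s (T₀ * K ^ σ u)) ≤
        ((1 + q₀) ^ 2 * (R ^ 2) ^ j) * (A ^ (2 * P) * (1 + (j : ℝ)) ^ (2 * P)) :=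
      mul_le_mul g1 g2 (gr_nonneg _ (by positivity)) (by positivity)
    refine (mul_le_mul g4 g3 hEu.le (by positivity)).trans (le_of_eq ?_)
    have e2 : ((R ^ 4)⁻¹) ^ j * (R ^ 2) ^ j = ((R ^ 2)⁻¹) ^ j := by
      rw [← mul_pow]
      congr 1
      field_simp
    calc (1 + q₀) ^ 2 * (R ^ 2) ^ j * (A ^ (2 * P) * (1 + (j : ℝ)) ^ (2 * P)) * (1 / k * ((R ^ 4)⁻¹) ^ j * EE μ s (T₀ * K ^ t))
        = (1 + q₀) ^ 2 * A ^ (2 * P) / k * EE μ s (T₀ * K ^ t) * ((1 + (j : ℝ)) ^ (2 * P) * (((R ^ 4)⁻¹) ^ j * (R ^ 2) ^ j)) := by ring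
      _ = _ := by rw [e2]
  refine (Finset.sum_le_sum key).trans ?_
  rw [← Finset.mul_sum]
  have h1 := FarN89.sum_inj hsum (fun j => by positivity) S (g := fun u => t - σ u) (fun u hu v hv huv => by
    have h2 := hσt u hu
    have h3 := hσt v hv
    dsimp only at huv
    exact hσ hu hv (by omega))
  rw [← hZ] at h1
  have h2 := mul_le_mul_of_nonneg_left h1 (show 0 ≤ (1 + q₀) ^ 2 * A ^ (2 * P) / k * EE μ s (T₀ * K ^ t) by positivity)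
  refine h2.trans ?_
  have e3 : (1 + q₀) ^ 2 * A ^ (2 * P) / k * EE μ s (T₀ * K ^ t) * Z = Y * (1 + q₀) ^ 2 * EE μ s (T₀ * K ^ t) := by
    rw [hY]
    ring
  rw [e3]
  refine mul_le_mul_of_nonneg_right (mul_le_mul_of_nonneg_right (by linarith) (by positivity)) hEt.le

/-- The cost of the slabs through the inside. -/
theorem costT48 (h0 : In μ s c C n₀) (P : ℕ) {K : ℕ} (hK : 2 ≤ K) : ∃ R : ℝ, 1 < R ∧ ∃ n₁ : ℕ, 1 ≤ n₁ ∧ ∃ A : ℝ, 1 ≤ A ∧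
    ∀ {q₀ f q₁ : ℝ} {T : ℕ → ℕ} {T₁ b : ℕ} {y : ℕ → ℝ}, 0 ≤ q₀ → 0 ≤ f → (∀ v, T (v + 1) = T₁ * K ^ v) → n₁ ≤ 2 * T₁ → 1 ≤ b →
      (∀ l, 0 ≤ y l) → (∀ l, y l ≤ q₀ * R ^ l) → 0 ≤ q₁ → q₁ ≤ q₀ →
      ∑ u ∈ Finset.Ico 0 (2 * b), (1 + qT y b q₁ u * f) ^ 2 * gr (2 * P) (2 * wd μ s (2 * T b) / wd μ s (sT T b u)) *
        EE μ s (sT T b u) ≤ A * (1 + q₀ * f) ^ 2 * EE μ s (2 * T b) := by
  obtain ⟨R, hR, n₁, hn1, A, hA, HC⟩ := cost_geo48 h0 P hK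
  refine ⟨R, hR, n₁, hn1, 2 * A, by linarith, ?_⟩
  intro q₀ f q₁ T T₁ b y hq₀ hf hTK hn hb hy0 hyR hq1 hq1'
  have Hcost := HC (q₀ * f) (mul_nonneg hq₀ hf)
  have q00 : ∀ u, 0 ≤ qT y b q₁ u := by
    intro u
    unfold qT
    split_ifs
    · exact hq1
    · exact hy0 _
    · exact hq1
    · exact hy0 _
  have eT : ∀ v, 2 * T (v + 1) = (2 * T₁) * K ^ v := fun v => by rw [hTK, mul_assoc]
  have eTb : 2 * T b = (2 * T₁) * K ^ (b - 1) := by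
    obtain ⟨w, hw⟩ : ∃ w, b = w + 1 := ⟨b - 1, by omega⟩
    rw [hw, Nat.add_sub_cancel]
    exact eT w
  have hq0R : ∀ j : ℕ, q₁ ≤ q₀ * R ^ j := fun j =>
    hq1'.trans (le_mul_of_one_le_right hq₀ (one_le_pow₀ hR.le))
  have hsc : ∀ (X : ℝ) (j : ℕ), X ≤ q₀ * R ^ j → X * f ≤ q₀ * f * R ^ j := fun X j hX =>
    (mul_le_mul_of_nonneg_right hX hf).trans (le_of_eq (by ring))
  have c1 := Hcost (2 * T₁) (b - 1) (Finset.range b) (fun u => b - 1 - u) (fun u => qT y b q₁ u * f) hn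
    (fun u hu u' hu' huu => by
      have h1 := Finset.mem_range.1 (Finset.mem_coe.1 hu)
      have h2 := Finset.mem_range.1 (Finset.mem_coe.1 hu')
      have h3 : b - 1 - u = b - 1 - u' := huu
      omega)
    (fun u _ => by omega) (fun u _ => mul_nonneg (q00 u) hf)
    (fun u hu => by
      have h1 := Finset.mem_range.1 hu
      refine hsc _ _ ?_
      unfold qT
      by_cases h2 : u = 0
      · rw [if_pos h2]
        exact hq0R _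
      · rw [if_neg h2, if_pos h1]
        refine (hyR _).trans (mul_le_mul_of_nonneg_left (pow_le_pow_right₀ hR.le ?_) hq₀)
        omega)
  have c2 := Hcost (2 * T₁) (b - 1) (Finset.Ico b (2 * b)) (fun u => u - b) (fun u => qT y b q₁ u * f) hn
    (fun u hu u' hu' huu => by
      have h1 := Finset.mem_Ico.1 (Finset.mem_coe.1 hu)
      have h2 := Finset.mem_Ico.1 (Finset.mem_coe.1 hu')
      have h3 : u - b = u' - b := huu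
      omega)
    (fun u hu => by
      have h1 := Finset.mem_Ico.1 hu
      omega) (fun u _ => mul_nonneg (q00 u) hf)
    (fun u hu => by
      have h1 := Finset.mem_Ico.1 hu
      refine hsc _ _ ?_
      unfold qT
      rw [if_neg (by omega), if_neg (by omega)]
      by_cases h2 : u = 2 * b - 1
      · rw [if_pos h2]
        exact hq0R _
      · rw [if_neg h2]
        refine (hyR _).trans (mul_le_mul_of_nonneg_left (pow_le_pow_right₀ hR.le ?_) hq₀)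
        omega)
  have e0 : Finset.Ico 0 (2 * b) = Finset.range b ∪ Finset.Ico b (2 * b) := by
    ext u
    simp only [Finset.mem_Ico, Finset.mem_union, Finset.mem_range]
    omega
  have hd : Disjoint (Finset.range b) (Finset.Ico b (2 * b)) := by
    rw [Finset.disjoint_left]
    intro u h1 h2
    have := Finset.mem_range.1 h1
    have := Finset.mem_Ico.1 h2
    omega
  rw [e0, Finset.sum_union hd, eTb]
  have s1 : ∑ u ∈ Finset.range b, (1 + qT y b q₁ u * f) ^ 2 *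
      gr (2 * P) (2 * wd μ s ((2 * T₁) * K ^ (b - 1)) / wd μ s (sT T b u)) * EE μ s (sT T b u) =
      ∑ u ∈ Finset.range b, (1 + qT y b q₁ u * f) ^ 2 *
      gr (2 * P) (2 * wd μ s ((2 * T₁) * K ^ (b - 1)) / wd μ s ((2 * T₁) * K ^ (b - 1 - u))) * EE μ s ((2 * T₁) * K ^ (b - 1 - u)) := by
    refine Finset.sum_congr rfl fun u hu => ?_
    have h1 := Finset.mem_range.1 hu
    have e : sT T b u = (2 * T₁) * K ^ (b - 1 - u) := by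
      unfold sT
      rw [if_pos h1, ← eT]
      congr 2
      omega
    rw [e]
  have s2 : ∑ u ∈ Finset.Ico b (2 * b), (1 + qT y b q₁ u * f) ^ 2 *
      gr (2 * P) (2 * wd μ s ((2 * T₁) * K ^ (b - 1)) / wd μ s (sT T b u)) * EE μ s (sT T b u) =
      ∑ u ∈ Finset.Ico b (2 * b), (1 + qT y b q₁ u * f) ^ 2 *
      gr (2 * P) (2 * wd μ s ((2 * T₁) * K ^ (b - 1)) / wd μ s ((2 * T₁) * K ^ (u - b))) * EE μ s ((2 * T₁) * K ^ (u - b)) := by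
    refine Finset.sum_congr rfl fun u hu => ?_
    have h1 := Finset.mem_Ico.1 hu
    have e : sT T b u = (2 * T₁) * K ^ (u - b) := by
      unfold sT
      rw [if_neg (by omega), ← eT]
    rw [e]
  rw [s1, s2]
  linarith

/-- **ALL THE SLABS OF A CONTACT OF A SUCCESS**, with the lengths; any grid with the heights `Hg` (`GU`, `GW`), `Λ` = the width of the
boxes in units of `wd (2 T v)`; the cost `A (1 + q₀) ^ 2` with `A` before the level. -/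
theorem slabsG48 (h0 : In μ s c C n₀) (P : ℕ) {K : ℕ} (hK : 2 ≤ K) : ∃ R : ℝ, 1 < R ∧ ∃ n₁ : ℕ, 1 ≤ n₁ ∧ ∀ Λ : ℝ, 0 ≤ Λ → ∃ A : ℝ, 1 ≤ A ∧
    ∀ n₂ : ℕ, n₁ ≤ n₂ → ∀ q₀ : ℝ, 0 ≤ q₀ →
    ∀ {θ Kw h : ℝ} {h₀ : ℕ} {G : Gd} {L Lm : ℕ} {t : ℕ} {y : ℕ → ℝ} {x : ℕ × ℤ} {η : Env} {κ : Pt} {r₀ r₁ : ℤ} {ρ₀ ρ₁ : ℕ}
      {q₁ : ℝ}, 5 ≤ Kw → G.Ok L → (∀ v, G.H v = Hg h₀ K v) → n₂ ≤ h₀ → 2 ≤ t → t ≤ L → t ≤ Lm + 1 → Monotone y → (∀ l, 0 ≤ y l) →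
      (∀ l, y l ≤ q₀ * R ^ l) → 0 ≤ q₁ → q₁ ≤ q₀ → (∀ v ≤ t, Tg h₀ K v ≤ (G.z v x).1) →
      η ∉ Rch (lvL G (LvE Lm (EL60 μ s c θ Kw P (Tg h₀ K) y)) L) (t - 2) x →
      sh (G.x t x) η ∈ ELx60 μ s c θ Kw P (2 * Tg h₀ K t) (Tg h₀ K (t - 1)) r₀ r₁ q₁ (G.dg (t - 1) x) →
      (∀ v, 1 ≤ v → v ≤ t → |lat16 μ s κ (G.x v x)| + 1 ≤ Λ * wd μ s (2 * Tg h₀ K v)) →
      -(Tg h₀ K t : ℤ) ≤ r₀ → r₁ ≤ Tg h₀ K t → ((G.z t x).1 : ℤ) + r₀ ≤ ρ₀ → (ρ₁ : ℤ) ≤ ((G.z t x).1 : ℤ) + r₁ → θ ≤ 1 / 8 → 0 ≤ θ →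
      θ * (2 * Tg h₀ K t : ℕ) ≤ ((((G.z t x).1 : ℤ) - Tg h₀ K (t - 1) - ρ₀ : ℤ) : ℝ) →
      θ * (2 * Tg h₀ K t : ℕ) ≤ ((ρ₁ + G.H (t - 1) - (((G.z t x).1 : ℤ) + G.H t + Tg h₀ K (t - 1)) : ℤ) : ℝ) →
      |h| * wd μ s (2 * Tg h₀ K t) ≤ c / 8 * EE μ s (2 * Tg h₀ K t) →
      Slabs μ s c θ (Kw - 2) h P η κ (rT G (Tg h₀ K) x t ρ₀ ρ₁) (sT (Tg h₀ K) t)
        (nT G (Tg h₀ K) x t (min (((G.dg (t - 1) x).1 : ℤ) - Tg h₀ K (t - 1)) r₁ - r₀).toNat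
          (r₁ - (((G.dg (t - 1) x).1 : ℤ) + Tg h₀ K (t - 1))).toNat)
        (fun u => qT y t q₁ u * fq16 P (Λ + 2))
        (fun u => lp μ s κ (bT μ s G (Tg h₀ K) x t (bs60 μ s r₀ + G.x t x)
          (bs60 μ s (((G.dg (t - 1) x).1 : ℤ) + Tg h₀ K (t - 1)) + G.x t x) u).1)
        0 (2 * t) (2 * Tg h₀ K t) n₂ (A * (1 + q₀) ^ 2) ∧
      (∀ u, 0 ≤ u → u < 2 * t → θ * sT (Tg h₀ K) t u ≤
        ((rT G (Tg h₀ K) x t ρ₀ ρ₁ (u + 1) - rT G (Tg h₀ K) x t ρ₀ ρ₁ u : ℕ) : ℝ)) := by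
  obtain ⟨R₁, hR₁, n₁, hn1, H⟩ := slabsG60 h0 P hK
  obtain ⟨R₂, hR₂, m₁, hm1, B, hB, HB⟩ := costT48 h0 P hK
  obtain ⟨R, hRd⟩ : ∃ R : ℝ, R = min R₁ R₂ := ⟨_, rfl⟩
  have hR : 1 < R := by rw [hRd]; exact lt_min hR₁ hR₂
  have hR1 : R ≤ R₁ := by rw [hRd]; exact min_le_left _ _
  have hR2 : R ≤ R₂ := by rw [hRd]; exact min_le_right _ _
  refine ⟨R, hR, max n₁ m₁, hn1.trans (le_max_left _ _), fun Λ hΛ => ?_⟩
  obtain ⟨f, hf⟩ : ∃ f : ℝ, f = fq16 P (Λ + 2) := ⟨_, rfl⟩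
  have hf1 : 1 ≤ f := by rw [hf]; exact fq16_one _ _
  refine ⟨B * f ^ 2, by nlinarith [one_le_pow₀ hf1 (n := 2)], fun n₂ hn2 q₀ hq₀ => ?_⟩
  obtain ⟨Q, hQ, HC⟩ := H n₂ ((le_max_left _ _).trans hn2) q₀ Λ hq₀ hΛ
  intro θ Kw h h₀ G L Lm t y x η κ r₀ r₁ ρ₀ ρ₁ q₁ hKw hok hGH hh ht htL htLm hym hy0 hyR hq1 hq1' hrow hY hx hκ
    hr0 hr1' hρ₀ hρ₁ hθ hθ0 hl0 hl1 hforce
  have up : ∀ {R' : ℝ}, R ≤ R' → ∀ l, y l ≤ q₀ * R' ^ l := fun hR' l =>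
    (hyR l).trans (mul_le_mul_of_nonneg_left (pow_le_pow_left₀ (by linarith) hR' l) hq₀)
  obtain ⟨F, F2⟩ := HC hKw hok hGH hh ht htL htLm hym hy0 (up hR1) hq1 hq1' hrow hY hx hκ hr0 hr1' hρ₀ hρ₁ hθ hθ0 hl0 hl1 hforce
  have hcost := HB (q₀ := q₀) (f := f) (q₁ := q₁) (T := Tg h₀ K) (T₁ := 2 * h₀ * K) (b := t) (y := y) hq₀ (by linarith)
    (GU.T1 h₀ K) (by
      have h1 : h₀ ≤ 2 * (2 * h₀ * K) := by
        calc h₀ ≤ 4 * h₀ := by omega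
          _ ≤ 4 * h₀ * K := Nat.le_mul_of_pos_right _ (by omega)
          _ = 2 * (2 * h₀ * K) := by ring
      exact ((le_max_right _ _).trans hn2).trans (hh.trans h1)) (by omega) hy0 (up hR2) hq1 hq1'
  refine ⟨{ F with cost := ?_ }, F2⟩
  rw [hf] at hcost
  refine hcost.trans (mul_le_mul_of_nonneg_right ?_ (EE_pos _).le)
  rw [← hf]
  have h1 : 1 + q₀ * f ≤ f * (1 + q₀) := by nlinarith
  have h2 : (1 + q₀ * f) ^ 2 ≤ (f * (1 + q₀)) ^ 2 := pow_le_pow_left₀ (by positivity) h1 2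
  calc B * (1 + q₀ * f) ^ 2 ≤ B * (f * (1 + q₀)) ^ 2 := mul_le_mul_of_nonneg_left h2 (by linarith)
    _ = _ := by ring

/-- **THE KERNEL OF A CHAIN OF SLABS**, polynomial in the cost. -/
theorem enS48 (h0 : In μ s c C n₀) (P : ℕ) {θ K D : ℝ} (hθ : 0 < θ) (hD : 0 ≤ D) (hK : 2 * D + 6 ≤ K) :
    ∃ A : ℝ, 1 ≤ A ∧ ∀ c₂ σ : ℝ, 0 < c₂ → 0 < σ → ∃ n₁ : ℕ, 1 ≤ n₁ ∧ ∀ Q : ℝ, 0 ≤ Q →
    ∀ {h : ℝ} {η : Env} {p : ℕ → ℝ} {M : ℕ} {κ : Pt} {r T N : ℕ → ℕ} {ql : ℕ → ℝ} {bs : ℕ → Pt} {a b Tt : ℕ}, a < b →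
    (∀ k, k < M → p k = Real.exp (s + h)) → (∀ k, M ≤ k → p k = Real.exp s) → Slabs μ s c θ K h P η κ r T N ql bs a b Tt n₁ Q →
    (∀ u, a ≤ u → u < b → θ * T u ≤ ((r (u + 1) - r u : ℕ) : ℝ)) → T a = Tt → T (b - 1) = Tt →
    (∀ P', 2 * P ≤ P' → ∀ I J : Finset ℤ, En31 P' (c / 8) c₂ (EE μ s Tt) (wd μ s Tt) (A * (1 + Q) ^ 2) σ (fun x => lat16 μ s κ ((r a : ℤ), x))
      (fun y => lat16 μ s κ ((r b : ℤ), y)) (nk μ s h η p M (r a) (r b - r a)) I J) ∧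
    (∀ x y : ℤ, |lat16 μ s κ ((r a : ℤ), x)| ≤ D * wd μ s Tt → |lat16 μ s κ ((r b : ℤ), y)| ≤ D * wd μ s Tt →
      Real.exp (-(A * (1 + Q) * EE μ s Tt)) ≤ nk μ s h η p M (r a) (r b - r a) x y) := by
  have hc0 := h0.c0
  have hK4 : 4 ≤ K := by linarith
  obtain ⟨C₅, hC₅, m₂, hm₂, Hup⟩ := far_up h0 P
  obtain ⟨C₆, hC₆, m₃, hm₃, Hlo⟩ := far_low89 h0 P hK4 hθ
  obtain ⟨m₅, H5⟩ := eventually_atTop.1 ((wd_tendsto h0).eventually_ge_atTop 1)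
  obtain ⟨A₀, hA₀, HA⟩ := LQ48 (2 * P) (show 0 < c / 8 by positivity) hC₅
  have hgK := gr_nonneg (2 * P) (show (0 : ℝ) ≤ K by linarith)
  obtain ⟨A, hA⟩ : ∃ A : ℝ, A = A₀ + C₆ * gr (2 * P) K + 1 := ⟨_, rfl⟩
  have hA1 : 1 ≤ A := by
    have : 0 ≤ C₆ * gr (2 * P) K := by positivity
    linarith
  refine ⟨A, hA1, fun c₂ σ hc₂ hσ => ?_⟩
  obtain ⟨m₈, hm₈, H8⟩ := sumR83 h0 hc₂ hσ
  refine ⟨max (max m₂ m₃) (max m₅ m₈), hm₂.trans ((le_max_left _ _).trans (le_max_left _ _)), fun Q hQ => ?_⟩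
  have hLQ : 0 ≤ LQ (2 * P) (c / 8) (C₅ * Q) := LQ_nonneg _ (by positivity)
  have hq : LQ (2 * P) (c / 8) (C₅ * Q) + Q ≤ A * (1 + Q) ^ 2 := by
    have h1 := HA Q hQ
    have h2 : 0 ≤ C₆ * gr (2 * P) K := by positivity
    have h3 : Q ≤ (1 + Q) ^ 2 := by nlinarith
    have h4 : 0 ≤ C₆ * gr (2 * P) K * (1 + Q) ^ 2 := by positivity
    rw [hA]
    nlinarith
  have hU : C₆ * Q * gr (2 * P) K + 1 ≤ A * (1 + Q) := by
    have h2 : 0 ≤ C₆ * gr (2 * P) K := by positivity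
    rw [hA]
    nlinarith
  intro h η p M κ r T N ql bs a b Tt hab hp hp' hsl hlen hTa hTb
  have up : ∀ {m' : ℕ}, m' ≤ max (max m₂ m₃) (max m₅ m₈) → Slabs μ s c θ K h P η κ r T N ql bs a b Tt m' Q := fun hm =>
    { hsl with
      Tt1 := hm.trans hsl.Tt1
      T1 := fun u hu hub => hm.trans (hsl.T1 u hu hub) }
  have hT5 : m₅ ≤ Tt := ((le_max_left _ _).trans (le_max_right _ _)).trans hsl.Tt1
  have hT8 : m₈ ≤ Tt := ((le_max_right _ _).trans (le_max_right _ _)).trans hsl.Tt1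
  have hw1 : 1 ≤ wd μ s Tt := H5 Tt hT5
  have hw0 : 0 < wd μ s Tt := by linarith
  have hE := EE_pos (μ := μ) (s := s) Tt
  have hpp : ∀ k, 0 < p k := fun k => by
    rcases lt_or_ge k M with h3 | h3
    · rw [hp k h3]; exact Real.exp_pos _
    · rw [hp' k h3]; exact Real.exp_pos _
  have hrab : r a ≤ r b := by
    have h3 := r_mono hsl.rr (b - a) a le_rfl (by omega)
    rwa [show a + (b - a) = b from by omega] at h3
  have hlt : ∀ x y : ℤ, lat16 μ s κ ((r b : ℤ), y) - lat16 μ s κ ((r a : ℤ), x) =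
      ((y - x : ℤ) : ℝ) - sl μ s * ((r b - r a : ℕ) : ℝ) := fun x y => lt_sub κ r a b x y hrab
  refine ⟨fun P' hP' I J => ⟨by positivity, hσ.le, fun x y => nk_nonneg hpp _ _ _ _, fun x _ y _ => ?_, fun x => ?_⟩, fun x y hx hy => ?_⟩
  · -- the envelope
    have h1 := Hup hab.le hp hp' (up ((le_max_left _ _).trans (le_max_left _ _))) x y
    refine h1.trans (Real.exp_le_exp.2 ?_)
    rw [← hlt x y]
    have hX : 0 ≤ |lat16 μ s κ ((r a : ℤ), x)| / wd μ s Tt := by positivity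
    have g1 := gr_one_le (2 * P) hX
    have g2 := gr_pow_mono hP' hX
    have e1 : hc μ s c Tt / 8 = c / 8 * (EE μ s Tt / wd μ s Tt) := by
      unfold hc
      ring
    rw [e1]
    have e2 : LQ (2 * P) (c / 8) (C₅ * Q) * gr (2 * P) (|lt μ s κ r a x| / wd μ s Tt) + Q ≤
        (LQ (2 * P) (c / 8) (C₅ * Q) + Q) * gr P' (|lat16 μ s κ ((r a : ℤ), x)| / wd μ s Tt) := by
      have e3 : lt μ s κ r a x = lat16 μ s κ ((r a : ℤ), x) := rfl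
      rw [e3]
      have h2 := mul_le_mul_of_nonneg_left g2 hLQ
      have h3 : Q ≤ Q * gr P' (|lat16 μ s κ ((r a : ℤ), x)| / wd μ s Tt) := le_mul_of_one_le_right hQ (g1.trans g2)
      linarith
    have h4 := mul_le_mul_of_nonneg_right e2 hE.le
    have h5 := mul_le_mul_of_nonneg_right (mul_le_mul_of_nonneg_right hq (gr_nonneg P' hX)) hE.le
    linarith
  · -- the sum
    have h1 := H8 Tt hT8 (lat16 μ s κ ((r a : ℤ), x) + ((κ.2 : ℝ) + sl μ s * (((r b : ℤ) - κ.1 : ℤ) : ℝ))) J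
    refine le_trans (Finset.sum_le_sum fun y _ => Real.exp_le_exp.2 ?_) h1
    have e1 : (y : ℝ) - (lat16 μ s κ ((r a : ℤ), x) + ((κ.2 : ℝ) + sl μ s * (((r b : ℤ) - κ.1 : ℤ) : ℝ))) =
        lat16 μ s κ ((r b : ℤ), y) - lat16 μ s κ ((r a : ℤ), x) := by
      have e2 : lat16 μ s κ ((r b : ℤ), y) = ((y - κ.2 : ℤ) : ℝ) - sl μ s * (((r b : ℤ) - κ.1 : ℤ) : ℝ) := rfl
      rw [e2]
      push_cast
      ring
    rw [e1]
  · -- the lower bound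
    have hwin : ∀ z : ℝ, |z| ≤ D * wd μ s Tt → |z - 0| ≤ (K - 2) / 2 * wd μ s Tt - 1 := fun z hz => by
      rw [sub_zero]
      nlinarith
    have h1 := Hlo hab hp hp' (up ((le_max_right _ _).trans (le_max_left _ _))) hlen 0 x y
      (by rw [hTa]; exact hwin _ hx) (by rw [hTb]; exact hwin _ hy)
    refine le_trans (Real.exp_le_exp.2 ?_) h1
    rw [abs_zero, zero_div, zero_add]
    have h6 := mul_le_mul_of_nonneg_right hU hE.le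
    nlinarith

/-- **THE KERNEL OF THE WHOLE INSIDE FOR A CONTACT OF A SUCCESS**, polynomial in the level. -/
theorem enG48 (h0 : In μ s c C n₀) (P : ℕ) {K : ℕ} (hK : 2 ≤ K) {θ Kw D : ℝ} (hθ : 0 < θ) (hθ8 : θ ≤ 1 / 8) (hD : 0 ≤ D)
    (hKw : 2 * D + 8 ≤ Kw) : ∃ R : ℝ, 1 < R ∧ ∀ Λ : ℝ, 0 ≤ Λ → ∃ A : ℝ, 1 ≤ A ∧
    ∀ c₂ σ : ℝ, 0 < c₂ → 0 < σ → ∃ n₁ : ℕ, 1 ≤ n₁ ∧ ∀ q₀ : ℝ, 0 ≤ q₀ →
    ∀ {h : ℝ} {p : ℕ → ℝ} {M h₀ : ℕ} {G : Gd} {L Lm : ℕ} {t : ℕ} {y : ℕ → ℝ} {x : ℕ × ℤ} {η : Env} {κ : Pt} {r₀ r₁ : ℤ} {ρ₀ ρ₁ : ℕ}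
      {q₁ : ℝ}, (∀ k, k < M → p k = Real.exp (s + h)) → (∀ k, M ≤ k → p k = Real.exp s) →
      G.Ok L → (∀ v, G.H v = Hg h₀ K v) → n₁ ≤ h₀ → 2 ≤ t → t ≤ L → t ≤ Lm + 1 → Monotone y → (∀ l, 0 ≤ y l) →
      (∀ l, y l ≤ q₀ * R ^ l) → 0 ≤ q₁ → q₁ ≤ q₀ → (∀ v ≤ t, Tg h₀ K v ≤ (G.z v x).1) →
      η ∉ Rch (lvL G (LvE Lm (EL60 μ s c θ Kw P (Tg h₀ K) y)) L) (t - 2) x →
      sh (G.x t x) η ∈ ELx60 μ s c θ Kw P (2 * Tg h₀ K t) (Tg h₀ K (t - 1)) r₀ r₁ q₁ (G.dg (t - 1) x) →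
      (∀ v, 1 ≤ v → v ≤ t → |lat16 μ s κ (G.x v x)| + 1 ≤ Λ * wd μ s (2 * Tg h₀ K v)) →
      -(Tg h₀ K t : ℤ) ≤ r₀ → r₁ ≤ Tg h₀ K t → ((G.z t x).1 : ℤ) + r₀ ≤ ρ₀ → (ρ₁ : ℤ) ≤ ((G.z t x).1 : ℤ) + r₁ →
      θ * (2 * Tg h₀ K t : ℕ) ≤ ((((G.z t x).1 : ℤ) - Tg h₀ K (t - 1) - ρ₀ : ℤ) : ℝ) →
      θ * (2 * Tg h₀ K t : ℕ) ≤ ((ρ₁ + G.H (t - 1) - (((G.z t x).1 : ℤ) + G.H t + Tg h₀ K (t - 1)) : ℤ) : ℝ) →
      |h| * wd μ s (2 * Tg h₀ K t) ≤ c / 8 * EE μ s (2 * Tg h₀ K t) →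
      (∀ P', 2 * P ≤ P' → ∀ I J : Finset ℤ, En31 P' (c / 8) c₂ (EE μ s (2 * Tg h₀ K t)) (wd μ s (2 * Tg h₀ K t)) (A * (1 + q₀) ^ 4) σ
        (fun z => lat16 μ s κ ((ρ₀ : ℤ), z)) (fun z => lat16 μ s κ ((ρ₁ : ℤ), z)) (nk μ s h η p M ρ₀ (ρ₁ - ρ₀)) I J) ∧
      (∀ z z' : ℤ, |lat16 μ s κ ((ρ₀ : ℤ), z)| ≤ D * wd μ s (2 * Tg h₀ K t) → |lat16 μ s κ ((ρ₁ : ℤ), z')| ≤ D * wd μ s (2 * Tg h₀ K t) →
        Real.exp (-(A * (1 + q₀) ^ 2 * EE μ s (2 * Tg h₀ K t))) ≤ nk μ s h η p M ρ₀ (ρ₁ - ρ₀) z z') := by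
  obtain ⟨R, hR, n₂, hn₂, HS⟩ := slabsG48 h0 P hK
  refine ⟨R, hR, fun Λ hΛ => ?_⟩
  obtain ⟨B, hB, HSQ0⟩ := HS Λ hΛ
  obtain ⟨A₁, hA₁, HE⟩ := enS48 h0 P (θ := θ) (K := Kw - 2) (D := D) hθ hD (by linarith)
  refine ⟨A₁ * (1 + B) ^ 2, by nlinarith [sq_nonneg B], fun c₂ σ hc₂ hσ => ?_⟩
  obtain ⟨n₁, hn₁, HE1⟩ := HE c₂ σ hc₂ hσ
  obtain ⟨n₅, H5w⟩ := eventually_atTop.1 ((wd_tendsto h0).eventually_ge_atTop 1)
  refine ⟨max n₁ (max n₂ n₅), hn₁.trans (le_max_left _ _), fun q₀ hq₀ => ?_⟩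
  have H1w : ∀ n, max n₂ n₅ ≤ n → 1 ≤ wd μ s n := fun n hn => H5w n ((le_max_right _ _).trans hn)
  have HSQ := @HSQ0 n₂ le_rfl q₀ hq₀
  obtain ⟨Q, hQd⟩ : ∃ Q : ℝ, Q = B * (1 + q₀) ^ 2 := ⟨_, rfl⟩
  have hQ : 0 < Q := by rw [hQd]; positivity
  have e0 : 1 ≤ (1 + q₀) ^ 2 := one_le_pow₀ (by linarith)
  have eQ : 1 + Q ≤ (1 + B) * (1 + q₀) ^ 2 := by rw [hQd]; nlinarith
  have eq4 : A₁ * (1 + Q) ^ 2 ≤ A₁ * (1 + B) ^ 2 * (1 + q₀) ^ 4 := by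
    have h1 : (1 + Q) ^ 2 ≤ ((1 + B) * (1 + q₀) ^ 2) ^ 2 := pow_le_pow_left₀ (by linarith) eQ 2
    calc A₁ * (1 + Q) ^ 2 ≤ A₁ * ((1 + B) * (1 + q₀) ^ 2) ^ 2 := mul_le_mul_of_nonneg_left h1 (by linarith)
      _ = _ := by ring
  have eU : A₁ * (1 + Q) ≤ A₁ * (1 + B) ^ 2 * (1 + q₀) ^ 2 := by
    have h1 : 1 + B ≤ (1 + B) ^ 2 := by nlinarith
    calc A₁ * (1 + Q) ≤ A₁ * ((1 + B) * (1 + q₀) ^ 2) := mul_le_mul_of_nonneg_left eQ (by linarith)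
      _ ≤ A₁ * ((1 + B) ^ 2 * (1 + q₀) ^ 2) := mul_le_mul_of_nonneg_left (mul_le_mul_of_nonneg_right h1 (by positivity)) (by linarith)
      _ = _ := by ring
  rw [← hQd] at HSQ
  intro h p M h₀ G L Lm t y x η κ r₀ r₁ ρ₀ ρ₁ q₁ hp hp' hok hGH hh ht htL htLm hym hy0 hyR hq1 hq1' hrow hY hx hκ hr0 hr1' hρ₀ hρ₁
    hl0 hl1 hforce
  obtain ⟨s1, s2⟩ := HSQ (θ := θ) (h := h) (η := η) (κ := κ) (show 5 ≤ Kw by linarith) hok hGH (((le_max_left _ _).trans (le_max_right _ _)).trans hh) ht htL htLm hym hy0 hyR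
    hq1 hq1' hrow hY hx hκ hr0 hr1' hρ₀ hρ₁ hθ8 hθ.le hl0 hl1 hforce
  have hT : ∀ v, 1 ≤ v → h₀ ≤ 2 * Tg h₀ K v := fun v hv => by
    rw [Tg_pos hv, mul_comm 2 h₀, mul_assoc]
    have h1 : 1 ≤ 2 * K ^ v := by
      have := Nat.one_le_pow v K (by omega)
      omega
    calc h₀ ≤ h₀ * (2 * K ^ v) := Nat.le_mul_of_pos_right _ (by omega)
      _ ≤ 2 * (h₀ * (2 * K ^ v)) := by omega
  have hn1 : n₁ ≤ h₀ := (le_max_left _ _).trans hh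
  have k1w : 0 < wd μ s (2 * Tg h₀ K t) := lt_of_lt_of_le one_pos (H1w _ ((le_max_right _ _).trans (hh.trans (hT t (by omega)))))
  have s1' : Slabs μ s c θ (Kw - 2) h P η κ (rT G (Tg h₀ K) x t ρ₀ ρ₁) (sT (Tg h₀ K) t)
        (nT G (Tg h₀ K) x t (min (((G.dg (t - 1) x).1 : ℤ) - Tg h₀ K (t - 1)) r₁ - r₀).toNat
          (r₁ - (((G.dg (t - 1) x).1 : ℤ) + Tg h₀ K (t - 1))).toNat)
        (fun u => qT y t q₁ u * fq16 P (Λ + 2))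
        (fun u => lp μ s κ (bT μ s G (Tg h₀ K) x t (bs60 μ s r₀ + G.x t x)
          (bs60 μ s (((G.dg (t - 1) x).1 : ℤ) + Tg h₀ K (t - 1)) + G.x t x) u).1)
        0 (2 * t) (2 * Tg h₀ K t) n₁ Q :=
    { s1 with
      Tt1 := hn1.trans (hT t (by omega))
      T1 := fun u _ hu => by
        unfold sT
        split_ifs with h1
        · exact hn1.trans (hT _ (by omega))
        · exact hn1.trans (hT _ (by omega)) }
  have key := HE1 Q hQ.le (h := h) (η := η) (κ := κ) (M := M) (p := p) (show 0 < 2 * t by omega) hp hp' s1' s2 (sT_zero (by omega)) (sT_last (by omega))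
  rw [rT_zero, rT_end (by omega)] at key
  refine ⟨fun P' hP' I J => ?_, fun z z' hz hz' => (Real.exp_le_exp.2 (neg_le_neg (mul_le_mul_of_nonneg_right eU (EE_pos _).le))).trans (key.2 z z' hz hz')⟩
  have k1 := key.1 P' hP' I J
  refine ⟨k1.q0.trans eq4, k1.s0, k1.k0, fun z hz z' hz' => (k1.up z hz z' hz').trans (Real.exp_le_exp.2 ?_), k1.sum⟩
  refine sub_le_sub_right (mul_le_mul_of_nonneg_right (mul_le_mul_of_nonneg_right eq4 (gr_nonneg P' ?_)) (EE_pos _).le) _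
  exact div_nonneg (abs_nonneg _) (k1w.le)

end levels

section kernels

open MeasureTheory ProbabilityTheory Filter Topology Finset
open Pool.Agent.W_7d29a1_F Pool.Agent.W_7d29a1_h4g Pool.Agent.W_7d29a1_H Pool.Agent.W_7d29a1_HS
open Pool.Agent.W_7d29a1_C1.H75 Pool.Agent.W_7d29a1_C1.U16 Pool.Agent.W_7d29a1_C1.FarK89 Pool.Agent.W_7d29a1_C1.FarW89
open Pool.Agent.W_7d29a1_C1.K91 (wt wt_pos)
open Pool.Agent.W_7d29a1_C1.X21 (dc sk dc_nonneg sk_nonneg KD dc_le)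

variable {μ : Measure ℝ} {s : ℝ} [IsProbabilityMeasure μ] {c C : ℝ} {n₀ : ℕ}

/-- The level as a constant plus a small slope, polynomial. -/
theorem lev_pay48 (P : ℕ) {b₁ : ℝ} (hb : 0 < b₁) : ∃ B : ℝ, 1 ≤ B ∧ ∀ Λ d : ℝ, 0 ≤ Λ → 0 ≤ d → Λ * gr P (d + 1) ≤ b₁ * d + B * (1 + Λ) ^ 2 := by
  obtain ⟨C₀, hC₀, H⟩ := fq16_pay P hb
  have hg := gr_one_le P (show (0 : ℝ) ≤ 1 by norm_num)
  obtain ⟨g, hgd⟩ : ∃ g : ℝ, g = gr P 1 := ⟨_, rfl⟩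
  rw [← hgd] at hg
  refine ⟨C₀ * g ^ 2 + 1, by nlinarith [sq_nonneg g], fun Λ d hΛ hd => ?_⟩
  have h1 := gr_shift P (show (0 : ℝ) ≤ 1 by norm_num) hd
  have h2 := H (Λ * gr P 1) d (mul_nonneg hΛ (gr_nonneg P (by norm_num))) hd
  rw [gr_fq P hd] at h2
  rw [add_comm d 1]
  rw [← hgd] at h1 h2
  have h3 : 1 + Λ * g ≤ g * (1 + Λ) := by nlinarith
  have h4 : (1 + Λ * g) ^ 2 ≤ (g * (1 + Λ)) ^ 2 := pow_le_pow_left₀ (by positivity) h3 2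
  have h5 := mul_le_mul_of_nonneg_left h4 hC₀.le
  calc Λ * gr P (1 + d) ≤ Λ * (g * gr P d) := mul_le_mul_of_nonneg_left h1 hΛ
    _ = Λ * g * gr P d := by ring
    _ ≤ b₁ * d + C₀ * (1 + Λ * g) ^ 2 := h2
    _ ≤ b₁ * d + C₀ * (g * (1 + Λ)) ^ 2 := by linarith
    _ ≤ b₁ * d + (C₀ * (g * (1 + Λ)) ^ 2 + (1 + Λ) ^ 2) := by linarith [sq_nonneg (1 + Λ)]
    _ = _ := by ring

/-- **THE ENVELOPE OF THE REAL KERNELS**, polynomial in the cost. -/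
theorem kd48 (h0 : In μ s c C n₀) (P : ℕ) {θ K : ℝ} (hK : 4 ≤ K) (hθ : 0 < θ) : ∃ C₆ : ℝ, 0 < C₆ ∧ ∃ n₁ : ℕ, 1 ≤ n₁ ∧ ∀ b₁ : ℝ, 0 < b₁ →
    ∃ A : ℝ, 1 ≤ A ∧ ∀ Q : ℝ, 0 ≤ Q →
    ∀ {h : ℝ} {η : Env} {p : ℕ → ℝ} {M : ℕ} {κ : Pt} {r T N : ℕ → ℕ} {q : ℕ → ℝ} {bs : ℕ → Pt} {a b Tt : ℕ}, a < b →
    (∀ k, k < M → p k = Real.exp (s + h)) → (∀ k, M ≤ k → p k = Real.exp s) → Slabs μ s c θ K h P η κ r T N q bs a b Tt n₁ Q →
    (∀ u, a ≤ u → u < b → θ * T u ≤ ((r (u + 1) - r u : ℕ) : ℝ)) →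
    ∀ (cen : ℕ → ℤ) (lo H : ℤ) (n : ℕ) (u₀ : ℝ), 0 ≤ u₀ → r b = r a + n →
    |lat16 μ s κ ((r a : ℤ), cen (r a))| ≤ 1 → |lat16 μ s κ (((r a + n : ℕ) : ℤ), cen (r a + n))| ≤ 1 →
    K78.Wl η cen (r a) lo H (u₀ * EE μ s Tt) (b₁ * (EE μ s Tt / wd μ s Tt)) →
    K78.Wl η cen (r a + n) lo (H + n) (u₀ * EE μ s Tt) (b₁ * (EE μ s Tt / wd μ s Tt)) →
    (∀ x, dc cen (r a) x ≤ (K - 2) / 2 * wd μ s (T a) - 2 → lo ≤ x ∧ x ≤ H) →
    (∀ y, dc cen (r a + n) y ≤ (K - 2) / 2 * wd μ s (T (b - 1)) - 2 → lo ≤ y ∧ y ≤ H + n) →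
    KD (wt η) p cen lo H (r a) n (Real.exp (n * lam μ s + h * sl μ s * bl M (r a) n))
      ((A * (1 + Q) ^ 4 + Q + 1 + 2 * u₀) * EE μ s Tt) ((C₆ * Q * gr (2 * P) K + 2 * u₀ + 4 * b₁ * K) * EE μ s Tt)
      (3 * b₁ * (EE μ s Tt / wd μ s Tt)) (hc μ s c Tt / 8 - b₁ * (EE μ s Tt / wd μ s Tt))
      ((K - 2) / 2 * wd μ s (T a) - 2) ((K - 2) / 2 * wd μ s (T (b - 1)) - 2) := by
  have hc0 := h0.c0
  have hc1 := h0.c1
  obtain ⟨C₅, hC₅, m₁, hm₁, Hup⟩ := far_up h0 P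
  obtain ⟨C₆, hC₆, m₂, hm₂, Hlo⟩ := far_low89 h0 P hK hθ
  obtain ⟨m₃, hm₃⟩ := eventually_atTop.1 ((wd_tendsto h0).eventually_ge_atTop 1)
  obtain ⟨A₀, hA₀, HA⟩ := LQ48 (2 * P) (show 0 < c / 8 by positivity) hC₅
  refine ⟨C₆, hC₆, max m₁ (max m₂ m₃), hm₁.trans (le_max_left _ _), fun b₁ hb₁ => ?_⟩
  obtain ⟨B, hB, hpay0⟩ := lev_pay48 (2 * P) hb₁
  refine ⟨B * (1 + A₀) ^ 2, by nlinarith [sq_nonneg A₀], fun Q hQ => ?_⟩
  have hΛ : 0 ≤ LQ (2 * P) (c / 8) (C₅ * Q) := LQ_nonneg _ (by positivity)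
  obtain ⟨C₁, hC₁d⟩ : ∃ C₁ : ℝ, C₁ = B * (1 + A₀) ^ 2 * (1 + Q) ^ 4 := ⟨_, rfl⟩
  have hC₁ : 0 < C₁ := by rw [hC₁d]; positivity
  have hpay : ∀ d : ℝ, 0 ≤ d → LQ (2 * P) (c / 8) (C₅ * Q) * gr (2 * P) (d + 1) ≤ b₁ * d + C₁ := fun d hd => by
    refine (hpay0 _ d hΛ hd).trans ?_
    have g0 : 1 ≤ (1 + Q) ^ 2 := one_le_pow₀ (by linarith)
    have g1 : 1 + LQ (2 * P) (c / 8) (C₅ * Q) ≤ (1 + A₀) * (1 + Q) ^ 2 := by
      have := HA Q hQ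
      linarith
    have g2 : (1 + LQ (2 * P) (c / 8) (C₅ * Q)) ^ 2 ≤ ((1 + A₀) * (1 + Q) ^ 2) ^ 2 := pow_le_pow_left₀ (by linarith) g1 2
    have g3 := mul_le_mul_of_nonneg_left g2 (show 0 ≤ B by linarith)
    have g4 : B * ((1 + A₀) * (1 + Q) ^ 2) ^ 2 = C₁ := by
      rw [hC₁d]
      ring
    linarith
  rw [← hC₁d]
  intro h η p M κ r T N q bs a b Tt hab hp hp' hsl hθT cen lo H n u₀ hu₀ hrn hc1a hc2a hW1 hW2 hB1 hB2
  have hS1 : Slabs μ s c θ K h P η κ r T N q bs a b Tt m₁ Q :=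
    { hsl with
      Tt1 := (le_max_left _ _).trans hsl.Tt1
      T1 := fun u hu hub => (le_max_left _ _).trans (hsl.T1 u hu hub) }
  have hS2 : Slabs μ s c θ K h P η κ r T N q bs a b Tt m₂ Q :=
    { hsl with
      Tt1 := (le_max_left _ _).trans ((le_max_right _ _).trans hsl.Tt1)
      T1 := fun u hu hub => (le_max_left _ _).trans ((le_max_right _ _).trans (hsl.T1 u hu hub)) }
  have hw : 1 ≤ wd μ s Tt := hm₃ Tt ((le_max_right _ _).trans ((le_max_right _ _).trans hsl.Tt1))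
  have hTt1 : 1 ≤ Tt := hm₁.trans ((le_max_left _ _).trans hsl.Tt1)
  have hn : r b - r a = n := by omega
  have up := fun x y => Hup hab.le hp hp' hS1 x y
  have low := fun ρ x y => Hlo hab hp hp' hS2 hθT ρ x y
  rw [hn] at up low
  obtain ⟨E, hE⟩ : ∃ E, E = EE μ s Tt := ⟨_, rfl⟩
  obtain ⟨w, hwd⟩ : ∃ w, w = wd μ s Tt := ⟨_, rfl⟩
  rw [← hE, ← hwd] at up
  rw [← hE, ← hwd] at low
  rw [← hE, ← hwd] at hW1 hW2 ⊢
  rw [← hwd] at hw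
  have hE0 : 0 < E := by rw [hE]; exact EE_pos _
  have hE1 : 1 ≤ E := by rw [hE]; exact one_le_EE _
  have hw0 : 0 < w := by linarith
  have hEw : 0 < E / w := by positivity
  have hhc : hc μ s c Tt = c * (E / w) := by
    unfold hc
    rw [← hE, ← hwd, mul_div_assoc]
  have eb : (r b : ℤ) = ((r a + n : ℕ) : ℤ) := by rw [hrn]
  refine ⟨Real.exp_pos _, ?_, ?_⟩
  · -- the upper bound
    intro x y hx1 hx2
    by_cases hcone : x ≤ y ∧ y ≤ x + n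
    · have hw1 := (K78.Wl.wt_le hW1 hx1 hx2).1
      have hw2 := (K78.Wl.wt_le hW2 (x := y) (by omega) (by omega)).2
      have hwy := wt_pos η (r a + n) y
      have hwx := wt_pos η (r a) x
      have h1 := up x y
      have e1 : R26P.kf (wt η) p (r a) n x y = ker (wt η) p (r a) n x y := rfl
      rw [e1, ker_nk (μ := μ) (s := s) (h := h) (M := M), mul_assoc]
      refine mul_le_mul_of_nonneg_left ?_ (Real.exp_pos _).le
      have h2 : wt η (r a) x / wt η (r a + n) y ≤ Real.exp (u₀ * E + b₁ * (E / w) * dc cen (r a) x +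
          (u₀ * E + b₁ * (E / w) * dc cen (r a + n) y)) := by
        rw [div_le_iff₀ hwy]
        calc wt η (r a) x ≤ Real.exp (u₀ * E + b₁ * (E / w) * dc cen (r a) x) := hw1
          _ = Real.exp (u₀ * E + b₁ * (E / w) * dc cen (r a) x + (u₀ * E + b₁ * (E / w) * dc cen (r a + n) y)) *
              Real.exp (-(u₀ * E + b₁ * (E / w) * dc cen (r a + n) y)) := by
            rw [← Real.exp_add]
            congr 1
            ring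
          _ ≤ _ := mul_le_mul_of_nonneg_left hw2 (Real.exp_pos _).le
      have hk0 : 0 ≤ nk μ s h η p M (r a) n x y := by
        refine nk_nonneg (fun k => ?_) _ _ _ _
        rcases lt_or_ge k M with h3 | h3
        · rw [hp k h3]; exact Real.exp_pos _
        · rw [hp' k h3]; exact Real.exp_pos _
      refine (mul_le_mul h2 h1 hk0 (Real.exp_pos _).le).trans ?_
      rw [← Real.exp_add]
      refine Real.exp_le_exp.2 ?_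
      -- the exponents
      obtain ⟨D, hD⟩ : ∃ D, D = dc cen (r a) x := ⟨_, rfl⟩
      obtain ⟨S, hS⟩ : ∃ S, S = sk cen (r a) n x y := ⟨_, rfl⟩
      have hD0 : 0 ≤ D := by rw [hD]; exact dc_nonneg _ _
      have hdcy : dc cen (r a + n) y ≤ S + D := by rw [hD, hS]; exact dc_le (cen := cen) (r a) n x y
      have hlt : |lt μ s κ r a x| / w ≤ D / w + 1 := by
        have h3 : |lt μ s κ r a x| ≤ D + 1 := by
          rw [hD]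
          exact K78.lat_dc hc1a x
        have h4 := div_le_div_of_nonneg_right h3 hw0.le
        rw [add_div] at h4
        have h5 : 1 / w ≤ 1 := by
          rw [div_le_one hw0]
          exact hw
        linarith
      have hgr := gr_mono (2 * P) (show 0 ≤ |lt μ s κ r a x| / w by positivity) hlt
      have hlev : LQ (2 * P) (c / 8) (C₅ * Q) * gr (2 * P) (|lt μ s κ r a x| / w) ≤ b₁ * (D / w) + C₁ :=
        (mul_le_mul_of_nonneg_left hgr hΛ).trans (hpay (D / w) (by positivity))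
      have hskew : S - 2 ≤ |((y - x : ℤ) : ℝ) - sl μ s * ((n : ℕ) : ℝ)| := by
        rw [hS]
        exact K78.sk_lat hc1a hc2a x y
      obtain ⟨Z, hZ⟩ : ∃ Z, Z = |((y - x : ℤ) : ℝ) - sl μ s * ((n : ℕ) : ℝ)| := ⟨_, rfl⟩
      rw [← hZ] at hskew ⊢
      obtain ⟨G, hG⟩ : ∃ G, G = LQ (2 * P) (c / 8) (C₅ * Q) * gr (2 * P) (|lt μ s κ r a x| / w) := ⟨_, rfl⟩
      rw [← hG] at hlev ⊢
      rw [← hD, ← hS, hhc]
      obtain ⟨ω, hω⟩ : ∃ ω, ω = E / w := ⟨_, rfl⟩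
      have hωE : ω ≤ E := by
        rw [hω, div_le_iff₀ hw0]
        nlinarith
      rw [← hω] at hEw ⊢
      have e5 : b₁ * (D / w) * E = b₁ * ω * D := by
        rw [hω]
        ring
      have k1 : (G + Q) * E ≤ b₁ * ω * D + (C₁ + Q) * E := by
        have := mul_le_mul_of_nonneg_right hlev hE0.le
        linarith
      have k2 : b₁ * ω * dc cen (r a + n) y ≤ b₁ * ω * (S + D) := mul_le_mul_of_nonneg_left hdcy (by positivity)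
      have k3 : c * ω / 8 * (S - 2) ≤ c * ω / 8 * Z := mul_le_mul_of_nonneg_left hskew (by positivity)
      have k4 : c * ω / 8 * 2 ≤ E := by nlinarith
      linarith
    · have e1 : R26P.kf (wt η) p (r a) n x y = 0 := R26P.kf_zero (r a) n hcone
      rw [e1]
      positivity
  · -- the lower bound
    intro x y hx hy
    obtain ⟨hx1, hx2⟩ := hB1 x hx
    obtain ⟨hy1, hy2⟩ := hB2 y hy
    have hw1 := (K78.Wl.wt_le hW1 hx1 hx2).2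
    have hw2 := (K78.Wl.wt_le hW2 hy1 hy2).1
    have hwy := wt_pos η (r a + n) y
    have hwx := wt_pos η (r a) x
    have h1 := low 0 x y (by
        rw [sub_zero]
        have := K78.lat_dc (μ := μ) (s := s) hc1a x
        unfold lt
        linarith) (by
        rw [sub_zero]
        have := K78.lat_dc (μ := μ) (s := s) hc2a y
        unfold lt
        rw [eb]
        linarith)
    have e1 : R26P.kf (wt η) p (r a) n x y = ker (wt η) p (r a) n x y := rfl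
    rw [e1, ker_nk (μ := μ) (s := s) (h := h) (M := M), mul_assoc (Real.exp (n * lam μ s + h * sl μ s * bl M (r a) n)), mul_assoc h]
    refine mul_le_mul_of_nonneg_left ?_ (Real.exp_pos _).le
    have h2 : Real.exp (-(u₀ * E + b₁ * (E / w) * dc cen (r a) x) - (u₀ * E + b₁ * (E / w) * dc cen (r a + n) y)) ≤
        wt η (r a) x / wt η (r a + n) y := by
      rw [le_div_iff₀ hwy]
      calc Real.exp (-(u₀ * E + b₁ * (E / w) * dc cen (r a) x) - (u₀ * E + b₁ * (E / w) * dc cen (r a + n) y)) * wt η (r a + n) y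
          ≤ Real.exp (-(u₀ * E + b₁ * (E / w) * dc cen (r a) x) - (u₀ * E + b₁ * (E / w) * dc cen (r a + n) y)) *
            Real.exp (u₀ * E + b₁ * (E / w) * dc cen (r a + n) y) := mul_le_mul_of_nonneg_left hw2 (Real.exp_pos _).le
        _ = Real.exp (-(u₀ * E + b₁ * (E / w) * dc cen (r a) x)) := by
          rw [← Real.exp_add]
          congr 1
          ring
        _ ≤ _ := hw1
    refine le_trans ?_ (mul_le_mul h2 h1 (Real.exp_pos _).le (by positivity))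
    rw [← Real.exp_add]
    refine Real.exp_le_exp.2 ?_
    rw [abs_zero, zero_div, zero_add]
    have hK2 : 0 ≤ (K - 2) / 2 := by linarith
    have hTa : wd μ s (T a) ≤ 2 * w := by
      rw [hwd]
      exact U16.wd_le_two h0 (hm₁.trans ((le_max_left _ _).trans (hsl.T1 a le_rfl hab))) (hsl.TT a le_rfl hab)
    have hTb : wd μ s (T (b - 1)) ≤ 2 * w := by
      rw [hwd]
      exact U16.wd_le_two h0 (hm₁.trans ((le_max_left _ _).trans (hsl.T1 (b - 1) (by omega) (by omega)))) (hsl.TT (b - 1) (by omega) (by omega))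
    have g1 : dc cen (r a) x ≤ K * w := by
      have := mul_le_mul_of_nonneg_left hTa hK2
      nlinarith
    have g2 : dc cen (r a + n) y ≤ K * w := by
      have := mul_le_mul_of_nonneg_left hTb hK2
      nlinarith
    have g3 : b₁ * (E / w) * dc cen (r a) x ≤ b₁ * K * E := by
      have h3 := mul_le_mul_of_nonneg_left g1 (show 0 ≤ b₁ * (E / w) by positivity)
      have h4 : b₁ * (E / w) * (K * w) = b₁ * K * E := by field_simp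
      linarith
    have g4 : b₁ * (E / w) * dc cen (r a + n) y ≤ b₁ * K * E := by
      have h3 := mul_le_mul_of_nonneg_left g2 (show 0 ≤ b₁ * (E / w) by positivity)
      have h4 : b₁ * (E / w) * (K * w) = b₁ * K * E := by field_simp
      linarith
    have g5 : 0 ≤ b₁ * K * E := by positivity
    have g6 : (C₆ * Q * gr (2 * P) K + 2 * u₀ + 4 * b₁ * K) * E = C₆ * Q * gr (2 * P) K * E + 2 * (u₀ * E) + 4 * (b₁ * K * E) := by ring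
    rw [g6]
    linarith

/-- **THE REAL KERNELS, `Krn`**, polynomial in the cost. The two halves. -/
theorem krn48 (h0 : In μ s c C n₀) (P : ℕ) {θ K : ℝ} (hK : 4 ≤ K) (hθ : 0 < θ) : ∃ C₆ : ℝ, 0 < C₆ ∧ ∃ n₁ : ℕ, 1 ≤ n₁ ∧ ∀ b₁ : ℝ, 0 < b₁ →
    ∃ A : ℝ, 1 ≤ A ∧ ∀ Q : ℝ, 0 ≤ Q →
    ∀ {h : ℝ} {η : Env} {p : ℕ → ℝ} {M : ℕ} {κ : Pt} {r T N : ℕ → ℕ} {q : ℕ → ℝ} {bs : ℕ → Pt} {a b Tt : ℕ}, a < b →
    (∀ k, k < M → p k = Real.exp (s + h)) → (∀ k, M ≤ k → p k = Real.exp s) → Slabs μ s c θ K h P η κ r T N q bs a b Tt n₁ Q →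
    (∀ u, a ≤ u → u < b → θ * T u ≤ ((r (u + 1) - r u : ℕ) : ℝ)) →
    ∀ (cen : ℕ → ℤ) (lo H : ℤ) (n : ℕ) (u₀ : ℝ), 0 ≤ u₀ → r b = r a + n →
    |lat16 μ s κ ((r a : ℤ), cen (r a))| ≤ 1 → |lat16 μ s κ (((r a + n : ℕ) : ℤ), cen (r a + n))| ≤ 1 →
    K78.Wl η cen (r a) lo H (u₀ * EE μ s Tt) (b₁ * (EE μ s Tt / wd μ s Tt)) →
    K78.Wl η cen (r a + n) lo (H + n) (u₀ * EE μ s Tt) (b₁ * (EE μ s Tt / wd μ s Tt)) →
    (∀ x, dc cen (r a) x ≤ (K - 2) / 2 * wd μ s (T a) - 2 → lo ≤ x ∧ x ≤ H) →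
    (∀ y, dc cen (r a + n) y ≤ (K - 2) / 2 * wd μ s (T (b - 1)) - 2 → lo ≤ y ∧ y ≤ H + n) →
    ∀ (σ ρ L₁ : ℝ), 0 ≤ σ → b₁ + σ ≤ c / 8 → (n : ℝ) + 1 ≤ Real.exp (EE μ s Tt) →
    A * (1 + Q) ^ 4 + Q + 2 + 2 * u₀ + (3 * b₁ + σ) * ρ ≤ L₁ → C₆ * Q * gr (2 * P) K + 2 * u₀ + 4 * b₁ * K ≤ L₁ →
    ∀ (S T' c' d' : Finset ℤ), (∀ y ∈ S, lo ≤ y ∧ y ≤ H) → (∀ y ∈ c', dc cen (r a) y ≤ (K - 2) / 2 * wd μ s (T a) - 2) →
    (∃ x ∈ d', dc cen (r a + n) x ≤ (K - 2) / 2 * wd μ s (T (b - 1)) - 2) →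
    (∀ y ∈ S, ∑ x ∈ T', R26P.kf (wt η) p (r a) n y x * Real.exp (σ * (EE μ s Tt / wd μ s Tt) * dc cen (r a + n) x) ≤
      Real.exp (L₁ * EE μ s Tt) * Real.exp ((3 * b₁ + σ) * (EE μ s Tt / wd μ s Tt) * (dc cen (r a) y - ρ * wd μ s Tt)) *
        Real.exp (n * lam μ s + h * sl μ s * bl M (r a) n)) ∧
    (∀ y ∈ c', Real.exp (n * lam μ s + h * sl μ s * bl M (r a) n) ≤
      Real.exp (L₁ * EE μ s Tt) * ∑ x ∈ d', R26P.kf (wt η) p (r a) n y x) := by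
  obtain ⟨C₆, hC₆, n₁, hn₁, H1⟩ := kd48 h0 P hK hθ
  obtain ⟨n₂, H2⟩ := eventually_atTop.1 ((wd_tendsto h0).eventually_ge_atTop 1)
  refine ⟨C₆, hC₆, max n₁ n₂, hn₁.trans (le_max_left _ _), fun b₁ hb₁ => ?_⟩
  obtain ⟨A, hA, H3'⟩ := H1 b₁ hb₁
  refine ⟨A, hA, fun Q hQ => ?_⟩
  have H3 := @H3' Q hQ
  obtain ⟨C₁, hC₁⟩ : ∃ C₁ : ℝ, C₁ = A * (1 + Q) ^ 4 := ⟨_, rfl⟩
  rw [← hC₁] at H3 ⊢
  intro h η p M κ r T N q bs a b Tt hab hp hp' hsl hθT cen lo H n u₀ hu₀ hrn hc1 hc2 hW1 hW2 hB1 hB2 σ ρ L₁ hσ hσc hn hL1 hL2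
    S T' c' d' hS hc' hd'
  have hS1 : Slabs μ s c θ K h P η κ r T N q bs a b Tt n₁ Q :=
    { hsl with
      Tt1 := (le_max_left _ _).trans hsl.Tt1
      T1 := fun u hu hub => (le_max_left _ _).trans (hsl.T1 u hu hub) }
  have hk := H3 hab hp hp' hS1 hθT cen lo H n u₀ hu₀ hrn hc1 hc2 hW1 hW2 hB1 hB2
  have hw1 := H2 Tt ((le_max_right _ _).trans hsl.Tt1)
  obtain ⟨E, hE⟩ : ∃ E, E = EE μ s Tt := ⟨_, rfl⟩
  obtain ⟨w, hwd⟩ : ∃ w, w = wd μ s Tt := ⟨_, rfl⟩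
  have hhc : hc μ s c Tt = c * (E / w) := by
    unfold hc
    rw [← hE, ← hwd, mul_div_assoc]
  rw [← hE, ← hwd] at hk ⊢
  rw [← hE] at hn
  rw [← hwd] at hw1
  have hE1 : 1 ≤ E := by rw [hE]; exact one_le_EE _
  have hw0 : 0 < w := by linarith
  have hEw : 0 < E / w := by positivity
  have hpp : ∀ k, 0 < p k := fun k => by
    rcases lt_or_ge k M with h3 | h3
    · rw [hp k h3]; exact Real.exp_pos _
    · rw [hp' k h3]; exact Real.exp_pos _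
  have key := K78.KD.krn (fun k y => wt_pos η k y) hpp hk (β := σ * (E / w)) (by positivity)
    (by rw [hhc]; nlinarith [mul_le_mul_of_nonneg_right hσc hEw.le]) (R₀ := ρ * w) (L := Real.exp (L₁ * E)) (S := S) (T := T') (c := c')
    (d := d') hS hc' hd' ?_ ?_
  · refine ⟨fun y hy => ?_, key.2⟩
    have h4 := key.1 y hy
    rwa [show 3 * b₁ * (E / w) + σ * (E / w) = (3 * b₁ + σ) * (E / w) by ring] at h4
  · have h5 : (C₁ + Q + 1 + 2 * u₀) * E + (3 * b₁ * (E / w) + σ * (E / w)) * (ρ * w) = (C₁ + Q + 1 + 2 * u₀ + (3 * b₁ + σ) * ρ) * E := by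
      field_simp
    rw [h5]
    calc ((n : ℝ) + 1) * Real.exp ((C₁ + Q + 1 + 2 * u₀ + (3 * b₁ + σ) * ρ) * E)
        ≤ Real.exp E * Real.exp ((C₁ + Q + 1 + 2 * u₀ + (3 * b₁ + σ) * ρ) * E) := mul_le_mul_of_nonneg_right hn (Real.exp_pos _).le
      _ = Real.exp ((C₁ + Q + 2 + 2 * u₀ + (3 * b₁ + σ) * ρ) * E) := by
          rw [← Real.exp_add]
          congr 1
          ring
      _ ≤ _ := Real.exp_le_exp.2 (mul_le_mul_of_nonneg_right hL1 (by linarith))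
  · exact Real.exp_le_exp.2 (mul_le_mul_of_nonneg_right hL2 (by linarith))

end kernels

end

end Pool.Agent.W_7d29a1_C1.P48
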