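import Pool.Agent.W_7d29a1_C1.KBz21
import Pool.Agent.W_7d29a1_C1.Pol48

/-!
Both halves (MP_7d29a1_pr), attractor route [C1], SHELL, side F (helper47): THE COSTS OF `LsP44`.

`cosP47` : the exponent `cb21` of the first buffer (`kBz21`) at the level `Qc + qin`, with the other exponents `X + Ui`, is at most
`B₀ (1 + qin + Ui) ^ 2`, `B₀` before the level. `exC47` : exits and separation. `del47` : the two cross ratios against one `exp (-(T ^ cδ))`.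
-/

set_option autoImplicit false

namespace Pool.Agent.W_7d29a1_C1.C47

open Filter Topology
open Pool.Agent.W_7d29a1_C1
open Pool.Agent.W_7d29a1_C1.FarK89
open Pool.Agent.W_7d29a1_C1.P48 (gr_AQ48)
open Pool.Agent.W_7d29a1_C1.Sh21 (cb21 ub21)

noncomputable section

theorem ub21_nonneg {u0 K0 : ℝ} (hu : 0 ≤ u0) (hK : 0 ≤ K0) : 0 ≤ ub21 u0 K0 := by
  unfold ub21
  have := Real.log_nonneg (show (1 : ℝ) ≤ 2 + K0 by linarith)
  positivity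

theorem cb21_nonneg {P : ℕ} {c₁ ck Q S ell be K0 u0 D : ℝ} (hck : 0 ≤ ck) (hQ : 0 ≤ Q) (hS : 0 ≤ S) (hell : 0 ≤ ell) (hbe : 0 ≤ be)
    (hK : 0 ≤ K0) (hu : 0 ≤ u0) (hD : 0 ≤ D) : 0 ≤ cb21 P c₁ ck Q S ell be K0 u0 D := by
  unfold cb21
  have := ub21_nonneg hu hK
  have h2 := gr_nonneg P (AQ_nonneg P c₁ Q)
  positivity

/-- **THE COSTS OF THE FIRST BUFFER**, the level `Qc + qin`, one constant before the level. -/
theorem cosP47 (P : ℕ) {c₁ : ℝ} (hc : 0 < c₁) {ck S ell be K0 u0 D Qc X : ℝ} (hck : 0 ≤ ck) (hS : 0 ≤ S) (hell : 0 ≤ ell) (hbe : 0 ≤ be)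
    (hK : 0 ≤ K0) (hu : 0 ≤ u0) (hD : 0 ≤ D) (hQc : 0 ≤ Qc) (hX : 0 ≤ X) :
    ∃ B₀ : ℝ, 0 ≤ B₀ ∧ ∀ qin Ui : ℝ, 0 ≤ qin → 0 ≤ Ui →
      cb21 P c₁ ck (Qc + qin) S ell be K0 u0 D + X + Ui ≤ B₀ * (1 + qin + Ui) ^ 2 := by
  obtain ⟨A, hA, HA⟩ := gr_AQ48 P hc
  obtain ⟨Y, hY⟩ : ∃ Y : ℝ, Y = ell + be * K0 + ub21 u0 K0 + S + ck * (2 * (K0 + 1) + D) + be * D + 4 + X := ⟨_, rfl⟩
  have hY0 : 0 ≤ Y := by
    rw [hY]
    have := ub21_nonneg hu hK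
    positivity
  refine ⟨(1 + Qc) ^ 2 * A + Y + 1, by positivity, fun qin Ui hq hU => ?_⟩
  have h1 := HA (Qc + qin) (by linarith)
  have h2 : (Qc + qin) * gr P (AQ P c₁ (Qc + qin)) ≤ (Qc + qin) * (A * (1 + (Qc + qin))) := mul_le_mul_of_nonneg_left h1 (by linarith)
  have hm : 0 ≤ qin + Ui := by linarith
  have h3 : 1 + (Qc + qin) ≤ (1 + Qc) * (1 + qin + Ui) := by nlinarith [mul_nonneg hQc hm]
  have h4 : (Qc + qin) * (A * (1 + (Qc + qin))) ≤ (1 + Qc) ^ 2 * A * (1 + qin + Ui) ^ 2 := by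
    have a1 : (Qc + qin) * (1 + (Qc + qin)) ≤ (1 + Qc) * (1 + qin + Ui) * ((1 + Qc) * (1 + qin + Ui)) :=
      mul_le_mul (by linarith) h3 (by linarith) (by positivity)
    have a2 := mul_le_mul_of_nonneg_left a1 (show 0 ≤ A by linarith)
    calc (Qc + qin) * (A * (1 + (Qc + qin))) = A * ((Qc + qin) * (1 + (Qc + qin))) := by ring
      _ ≤ _ := a2
      _ = _ := by ring
  have h5 : 1 + Ui ≤ 1 + qin + Ui := by linarith
  have h6 : 1 ≤ 1 + qin + Ui := by linarith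
  have h7 : 1 + qin + Ui ≤ (1 + qin + Ui) ^ 2 := by nlinarith
  have h8 : Y ≤ Y * (1 + qin + Ui) ^ 2 := by nlinarith
  have h9 : Ui ≤ (1 + qin + Ui) ^ 2 := by linarith
  have e : cb21 P c₁ ck (Qc + qin) S ell be K0 u0 D + X + Ui = (Qc + qin) * gr P (AQ P c₁ (Qc + qin)) + Y + Ui := by
    rw [hY]
    unfold cb21
    ring
  rw [e]
  calc (Qc + qin) * gr P (AQ P c₁ (Qc + qin)) + Y + Ui ≤ (1 + Qc) ^ 2 * A * (1 + qin + Ui) ^ 2 + Y * (1 + qin + Ui) ^ 2 + (1 + qin + Ui) ^ 2 := by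
        linarith
    _ = _ := by ring

/-- **Exits and separation**: `gx ≥ 4 (CL + ge)`. -/
theorem exC47 {gx CL ge E : ℝ} (hE : 0 ≤ E) (h : 4 * (CL + ge) ≤ gx) : Real.exp (-((gx / 4 - CL) * E)) ≤ Real.exp (-(ge * E)) := by
  refine Real.exp_le_exp.2 (neg_le_neg ?_)
  exact mul_le_mul_of_nonneg_right (by linarith) hE

/-- **THE CROSS RATIOS**: the first buffer (`T ≤ 4 TF`, exponent `c'`) and the exit set (`6 (T / 32)` rows, exponent `cX`), one `cδ`. -/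
theorem del47 {c' cX : ℝ} (hc : 0 < c') (hX : 0 < cX) : ∃ cδ : ℝ, 0 < cδ ∧ cδ < c' ∧ cδ < cX ∧ ∃ N : ℕ, ∀ T : ℕ, N ≤ T →
    (∀ TF : ℕ, T ≤ 4 * TF → Real.exp (-((TF : ℕ) : ℝ) ^ c') ≤ Real.exp (-((T : ℝ) ^ cδ))) ∧
    (32 ∣ T → Real.exp (-((6 * (T / 32) : ℕ) : ℝ) ^ cX) ≤ Real.exp (-((T : ℝ) ^ cδ))) := by
  obtain ⟨cδ, hd⟩ : ∃ cδ : ℝ, cδ = min c' cX / 2 := ⟨_, rfl⟩
  have hm : 0 < min c' cX := lt_min hc hX
  have hd0 : 0 < cδ := by rw [hd]; linarith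
  have hd1 : cδ < c' := by
    have := min_le_left c' cX
    rw [hd]
    linarith
  have hd2 : cδ < cX := by
    have := min_le_right c' cX
    rw [hd]
    linarith
  have key : ∀ a : ℝ, cδ < a → ∀ᶠ T : ℕ in atTop, ∀ y : ℝ, (T : ℝ) / 8 ≤ y → (T : ℝ) ^ cδ ≤ y ^ a := by
    intro a ha
    have ha0 : 0 < a := hd0.trans ha
    filter_upwards [((tendsto_rpow_atTop (sub_pos.2 ha)).comp tendsto_natCast_atTop_atTop).eventually_ge_atTop ((8 : ℝ) ^ a),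
      eventually_ge_atTop 1] with T h1 h2 y hy
    have hT : (0 : ℝ) < T := by
      have : (1 : ℝ) ≤ T := by exact_mod_cast h2
      linarith
    have h1' : (8 : ℝ) ^ a ≤ (T : ℝ) ^ (a - cδ) := h1
    have h3 : (8 : ℝ) ^ a * (T : ℝ) ^ cδ ≤ (T : ℝ) ^ a := by
      calc (8 : ℝ) ^ a * (T : ℝ) ^ cδ ≤ (T : ℝ) ^ (a - cδ) * (T : ℝ) ^ cδ := mul_le_mul_of_nonneg_right h1' (Real.rpow_nonneg hT.le _)
        _ = (T : ℝ) ^ a := by rw [← Real.rpow_add hT, sub_add_cancel]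
    have h4 : ((T : ℝ) / 8) ^ a = (T : ℝ) ^ a / (8 : ℝ) ^ a := Real.div_rpow hT.le (by norm_num) a
    have h5 : (T : ℝ) ^ cδ ≤ ((T : ℝ) / 8) ^ a := by
      rw [h4, le_div_iff₀ (Real.rpow_pos_of_pos (by norm_num) _)]
      linarith
    exact h5.trans (Real.rpow_le_rpow (by positivity) hy ha0.le)
  obtain ⟨N, hN⟩ := eventually_atTop.1 ((key c' hd1).and (key cX hd2))
  refine ⟨cδ, hd0, hd1, hd2, N, fun T hT => ⟨fun TF hTF => ?_, fun h32 => ?_⟩⟩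
  · refine Real.exp_le_exp.2 (neg_le_neg ((hN T hT).1 _ ?_))
    have : (T : ℝ) ≤ 4 * TF := by exact_mod_cast hTF
    have h0 : (0 : ℝ) ≤ TF := Nat.cast_nonneg _
    linarith
  · refine Real.exp_le_exp.2 (neg_le_neg ((hN T hT).2 _ ?_))
    obtain ⟨k, hk⟩ := h32
    have e : T / 32 = k := by omega
    rw [e, hk]
    push_cast
    have h0 : (0 : ℝ) ≤ k := Nat.cast_nonneg _
    linarith

end

end Pool.Agent.W_7d29a1_C1.C47
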