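import Pool.Agent.W_7d29a1_C1.JnC35

/-!
MP_7d29a1_pr, [C1], SHELL, FRESH BALL: **THE WHOLE `Jnt`** (helper35).

* `Ex35` : the exit (kernel `K₂` from the row `e` to the row `c3`, reach `N`) in the outer unit `(E, w)`, lateral coordinates = distances
  from `ce` (row `e`) and `cz` (row `c3`): envelope `en`, off the cell `ofe`, the cell against its place `a` (`cell`), lower bound `lo`.
* `jntE35` : `Jnt` from the inside (`comp`, `lo1` = output of `jnC35`), `Ex35`, `loG`, `phi`; `δ₀ = {a}`, `A₁ = A₂ = 1`,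
  `L₁ = exp (CL E)`, `L₂ = exp (U E)`, `e4 = exp (- G E)`.
* `cuE35` : `B v ≤ 2 exp (U E) B a` in the cell (`cu`, `cl` of `w47` with `B₀ = B a`, `Lb = 2 exp (U E)`).
-/

set_option autoImplicit false

namespace Pool.Agent.W_7d29a1_C1.JnE35

open Finset
open Pool.Agent.W_7d29a1_C1.FarK89 (gr gr_nonneg gr_one_le gr_mono AQ AQ_nonneg)
open Pool.Agent.W_7d29a1_C1.S83 (Jnt gr_pow_mono)
open Pool.Agent.W_7d29a1_C1.D31 (kapo31 kap31 kap31_nonneg kap31_le kap31_of_reach le_kap31)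

noncomputable section

/-- **The exit in the outer unit.** -/
structure Ex35 (P : ℕ) (q κ U G E w ce cz : ℝ) (a : ℤ) (N : ℕ) (δ δ' : Finset ℤ) (K₂ : ℤ → ℤ → ℝ) : Prop where
  k0 : ∀ v z, 0 ≤ K₂ v z
  kz : ∀ v z : ℤ, ¬ (v ≤ z ∧ z ≤ v + N) → K₂ v z = 0
  aδ : a ∈ δ
  en : ∀ v z, K₂ v z ≤ Real.exp (q * gr P (|(v : ℝ) - ce| / w) * E - κ * (E / w) * |((z : ℝ) - cz) - ((v : ℝ) - ce)|)
  ofe : ∀ v z, v ∉ δ → K₂ v z ≤ Real.exp (-(G * E)) *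
    Real.exp (q * gr P (|(v : ℝ) - ce| / w) * E - κ * (E / w) * |((z : ℝ) - cz) - ((v : ℝ) - ce)|)
  cell : ∀ v z, v ∈ δ → K₂ v z ≤ Real.exp (U * E) * K₂ a z + Real.exp (-(G * E)) *
    Real.exp (q * gr P (|(v : ℝ) - ce| / w) * E - κ * (E / w) * |((z : ℝ) - cz) - ((v : ℝ) - ce)|)
  lo : ∀ z ∈ δ', Real.exp (-(U * E)) ≤ K₂ a z
  ne : δ'.Nonempty

variable {P₂ P : ℕ} {q κ U G E w ce cz ci c₁ c₃ c₃' Q₂ S₂ q₁ σ CL V Φ G₀ ρ : ℝ} {a : ℤ} {n N : ℕ}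
  {S T Uu C δ δ' : Finset ℤ} {K₁ K₂ : ℤ → ℤ → ℝ} {g B : ℤ → ℝ}

/-- The form of `Ex35` below the envelope of a larger level. -/
theorem env35 (hE : 0 < E) (hw : 0 < w) (hP : P₂ ≤ P) (hq : 0 ≤ q) (hqQ : q ≤ Q₂) (hS : 0 ≤ S₂) (hc₃ : c₃ ≤ κ) (v z : ℤ) :
    Real.exp (q * gr P₂ (|(v : ℝ) - ce| / w) * E - κ * (E / w) * |((z : ℝ) - cz) - ((v : ℝ) - ce)|) ≤
      kapo31 P c₁ c₃ Q₂ S₂ E w (fun x => (x : ℝ) - ce) (fun z => (z : ℝ) - cz) v z := by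
  unfold kapo31
  refine Real.exp_le_exp.2 ?_
  obtain ⟨X, hX⟩ : ∃ X : ℝ, X = |(v : ℝ) - ce| / w := ⟨_, rfl⟩
  have hX0 : 0 ≤ X := by rw [hX]; positivity
  have hA := AQ_nonneg P c₁ Q₂
  rw [← hX]
  have g1 : gr P₂ X ≤ gr P (AQ P c₁ Q₂ + X) := (gr_pow_mono hP hX0).trans (gr_mono P hX0 (by linarith))
  have g2 := gr_nonneg P₂ hX0
  have g3 : q * gr P₂ X ≤ Q₂ * gr P (AQ P c₁ Q₂ + X) := mul_le_mul hqQ g1 g2 (hq.trans hqQ)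
  have g4 := mul_le_mul_of_nonneg_right g3 hE.le
  have g5 : 0 ≤ S₂ * E := by positivity
  have g6 := mul_le_mul_of_nonneg_right (mul_le_mul_of_nonneg_right hc₃ (div_pos hE hw).le) (abs_nonneg (((z : ℝ) - cz) - ((v : ℝ) - ce)))
  linarith

/-- A multiple of the envelope, cut. -/
theorem cut35 {e : ℝ} (he : 0 ≤ e) (hE : 0 < E) (hw : 0 < w) (hP : P₂ ≤ P) (hq : 0 ≤ q) (hqQ : q ≤ Q₂) (hS : 0 ≤ S₂) (hc₃ : c₃ ≤ κ) {v z : ℤ}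
    {k : ℝ} (k0 : ¬ (v ≤ z ∧ z ≤ v + N) → k = 0)
    (hk : k ≤ e * Real.exp (q * gr P₂ (|(v : ℝ) - ce| / w) * E - κ * (E / w) * |((z : ℝ) - cz) - ((v : ℝ) - ce)|)) :
    k ≤ e * kap31 P c₁ c₃ Q₂ S₂ E w ce cz N v z := by
  by_cases h1 : v ≤ z ∧ z ≤ v + N
  · rw [kap31_of_reach h1.1 h1.2]
    exact hk.trans (mul_le_mul_of_nonneg_left (env35 hE hw hP hq hqQ hS hc₃ v z) he)
  · rw [k0 h1]
    exact mul_nonneg he (kap31_nonneg v z)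

/-- **THE WHOLE `Jnt`.** -/
theorem jntE35 (hE : 0 < E) (hw : 0 < w) (hX : Ex35 P₂ q κ U G E w ce cz a N δ δ' K₂) (hP : P₂ ≤ P) (hq : 0 ≤ q) (hqQ : q ≤ Q₂)
    (hS₂ : 0 ≤ S₂) (hc₃ : c₃ ≤ κ) (hU : 0 ≤ U) (hCL : 0 ≤ CL) (k10 : ∀ x y, 0 ≤ K₁ x y) (g0 : ∀ z, 0 ≤ g z) (hV : 1 ≤ V) (hΦ : 1 ≤ Φ)
    (hG₀ : 0 < G₀) (hCS : C ⊆ S) (hδT : δ ⊆ T) (hδU : δ' ⊆ Uu)
    (comp : ∀ x ∈ S, ∀ z ∈ Uu, ∑ y ∈ T, K₁ x y * kap31 P c₁ c₃ Q₂ S₂ E w ce cz N y z ≤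
      kap31 P c₁ c₃' (Q₂ + q₁) (S₂ + σ) E w ci cz (n + N) x z)
    (lo1 : ∀ x ∈ C, 1 ≤ Real.exp (CL * E) * ∑ y ∈ ({a} : Finset ℤ), K₁ x y)
    (loG : ∀ z ∈ δ', G₀ ≤ V * g z)
    (phi : ∀ x ∈ C, ∑ z ∈ Uu, kap31 P c₁ c₃' (Q₂ + q₁) (S₂ + σ) E w ci cz (n + N) x z * g z ≤ Φ * G₀) :
    Jnt S T Uu C {a} δ δ' K₁ K₂ (kap31 P c₁ c₃' (Q₂ + q₁) (S₂ + σ) E w ci cz (n + N)) (kap31 P c₁ c₃ Q₂ S₂ E w ce cz N) g
      (Real.exp (CL * E)) (Real.exp (U * E)) V Φ (Real.exp (-(G * E))) 1 1 G₀ := by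
  refine ⟨k10, hX.k0, g0, (Real.exp_pos _).le, (Real.exp_pos _).le, hV, hΦ, (Real.exp_pos _).le, zero_le_one, zero_le_one, hG₀,
    fun x z => kap31_nonneg x z, fun x z => kap31_nonneg x z, hCS, singleton_subset_iff.2 hX.aδ, hδT, hδU, fun x hx z hz => ?_,
    fun v _ z _ => ?_, fun v _ hv z _ => ?_, lo1, fun v hv => ?_, loG, phi⟩
  · refine (comp x hx z hz).trans ?_
    rw [mul_one]
    exact le_mul_of_one_le_left (kap31_nonneg x z) (Real.one_le_exp (by positivity))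
  · have h1 := cut35 (c₁ := c₁) zero_le_one hE hw hP hq hqQ hS₂ hc₃ (hX.kz v z) (by rw [one_mul]; exact hX.en v z)
    rw [mul_one]
    rw [one_mul] at h1
    exact h1.trans (le_mul_of_one_le_left (kap31_nonneg v z) (Real.one_le_exp (by positivity)))
  · rw [mul_one]
    exact cut35 (Real.exp_pos _).le hE hw hP hq hqQ hS₂ hc₃ (hX.kz v z) (hX.ofe v z hv)
  · rw [mem_singleton] at hv
    subst hv
    obtain ⟨z, hz⟩ := hX.ne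
    calc (1 : ℝ) = Real.exp (U * E) * Real.exp (-(U * E)) := by rw [← Real.exp_add, add_neg_cancel, Real.exp_zero]
      _ ≤ Real.exp (U * E) * ∑ z ∈ δ', K₂ v z := by
        refine mul_le_mul_of_nonneg_left ((hX.lo z hz).trans ?_) (Real.exp_pos _).le
        exact single_le_sum (f := fun z => K₂ v z) (fun z _ => hX.k0 v z) hz

/-- The envelope behind the cell is below the envelope from a cell of the inside. -/
theorem kap_back35 (hE : 0 < E) (hw : 0 < w) (hc₃' : 0 ≤ c₃') (h3 : c₃' ≤ c₃) (hQ₂ : 0 ≤ Q₂) (hq₁ : 0 ≤ q₁) (hS₂ : 0 ≤ S₂) (hσ : 0 ≤ σ) {x v z : ℤ}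
    (h1 : x ≤ v) (h2 : v ≤ x + n) (hv : |(v : ℝ) - ce| ≤ ρ * w) (hx : |(x : ℝ) - ci| ≤ ρ * w) :
    kap31 P c₁ c₃ Q₂ S₂ E w ce cz N v z ≤ Real.exp ((Q₂ * gr P (AQ P c₁ Q₂ + ρ) + S₂ + 2 * (ρ * c₃')) * E) *
      kap31 P c₁ c₃' (Q₂ + q₁) (S₂ + σ) E w ci cz (n + N) x z := by
  by_cases h4 : v ≤ z ∧ z ≤ v + N
  · rw [kap31_of_reach h4.1 h4.2, kap31_of_reach (h1.trans h4.1) (by push_cast; omega)]
    unfold kapo31
    rw [← Real.exp_add]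
    refine Real.exp_le_exp.2 ?_
    have hA := AQ_nonneg P c₁ Q₂
    have hA' := AQ_nonneg P c₁ (Q₂ + q₁)
    have hvw : |(v : ℝ) - ce| / w ≤ ρ := by rwa [div_le_iff₀ hw]
    have hv0 : 0 ≤ |(v : ℝ) - ce| / w := by positivity
    have hx0 : 0 ≤ |(x : ℝ) - ci| / w := by positivity
    have hEw : 0 ≤ E / w := (div_pos hE hw).le
    have g1 := gr_mono P (show 0 ≤ AQ P c₁ Q₂ + |(v : ℝ) - ce| / w by positivity) (add_le_add (le_refl (AQ P c₁ Q₂)) hvw)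
    have g2 := mul_le_mul_of_nonneg_right (mul_le_mul_of_nonneg_left g1 hQ₂) hE.le
    have g3 : |((z : ℝ) - cz) - ((x : ℝ) - ci)| ≤ |((z : ℝ) - cz) - ((v : ℝ) - ce)| + 2 * (ρ * w) := by
      have e1 := abs_add_le (((z : ℝ) - cz) - ((v : ℝ) - ce)) (((v : ℝ) - ce) - ((x : ℝ) - ci))
      have e2 := abs_sub ((v : ℝ) - ce) ((x : ℝ) - ci)
      have e3 : ((z : ℝ) - cz) - ((v : ℝ) - ce) + (((v : ℝ) - ce) - ((x : ℝ) - ci)) = ((z : ℝ) - cz) - ((x : ℝ) - ci) := by ring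
      rw [e3] at e1
      linarith
    have g4 := mul_le_mul_of_nonneg_left g3 (mul_nonneg hc₃' hEw)
    have g5 : c₃' * (E / w) * (|((z : ℝ) - cz) - ((v : ℝ) - ce)| + 2 * (ρ * w)) =
        c₃' * (E / w) * |((z : ℝ) - cz) - ((v : ℝ) - ce)| + 2 * (ρ * c₃') * E := by
      field_simp
    rw [g5] at g4
    have g6 := mul_le_mul_of_nonneg_right (mul_le_mul_of_nonneg_right h3 hEw) (abs_nonneg (((z : ℝ) - cz) - ((v : ℝ) - ce)))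
    have g7 : 0 ≤ ((Q₂ + q₁) * gr P (AQ P c₁ (Q₂ + q₁) + |(x : ℝ) - ci| / w) + (S₂ + σ)) * E := by
      have := gr_nonneg P (show 0 ≤ AQ P c₁ (Q₂ + q₁) + |(x : ℝ) - ci| / w by positivity)
      positivity
    linarith
  · have e : kap31 P c₁ c₃ Q₂ S₂ E w ce cz N v z = 0 := if_neg h4
    rw [e]
    exact mul_nonneg (Real.exp_pos _).le (kap31_nonneg x z)

/-- **THE HARNACK BOUND OF THE CELL** (`cu` with `B₀ = B a`, `Lb = 2 exp (U E)`). -/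
theorem cuE35 (hE : 0 < E) (hw : 0 < w) (hX : Ex35 P₂ q κ U G E w ce cz a N δ δ' K₂) (hP : P₂ ≤ P) (hq : 0 ≤ q) (hqQ : q ≤ Q₂)
    (hS₂ : 0 ≤ S₂) (hc₃ : c₃ ≤ κ) (hc₃' : 0 ≤ c₃') (h3 : c₃' ≤ c₃) (hq₁ : 0 ≤ q₁) (hσ : 0 ≤ σ) (g0 : ∀ z, 0 ≤ g z) (hV : 1 ≤ V)
    (hΦ : 1 ≤ Φ) (hG₀ : 0 < G₀) (hδU : δ' ⊆ Uu) (loG : ∀ z ∈ δ', G₀ ≤ V * g z)
    (phi : ∀ x ∈ C, ∑ z ∈ Uu, kap31 P c₁ c₃' (Q₂ + q₁) (S₂ + σ) E w ci cz (n + N) x z * g z ≤ Φ * G₀)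
    (hB : ∀ v ∈ δ, B v = ∑ z ∈ Uu, K₂ v z * g z) {C₂ : ℝ} (hC₂ : Q₂ * gr P (AQ P c₁ Q₂ + ρ) + S₂ + 2 * (ρ * c₃') ≤ C₂)
    (hsm : Real.exp (-(G * E)) * Real.exp (C₂ * E) * Φ * V ≤ 1) {v : ℤ} (hv : v ∈ δ) (hvρ : |(v : ℝ) - ce| ≤ ρ * w)
    (hCx : ∃ x ∈ C, x ≤ v ∧ v ≤ x + n ∧ |(x : ℝ) - ci| ≤ ρ * w) :
    B v ≤ 2 * Real.exp (U * E) * B a := by
  obtain ⟨x, hxC, h1, h2, hx⟩ := hCx
  have hV0 : 0 ≤ V := by linarith
  -- the second part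
  have e1 : ∀ z ∈ Uu, K₂ v z * g z ≤ Real.exp (U * E) * (K₂ a z * g z) + Real.exp (-(G * E)) * (Real.exp (C₂ * E) *
      (kap31 P c₁ c₃' (Q₂ + q₁) (S₂ + σ) E w ci cz (n + N) x z * g z)) := by
    intro z _
    have f0 : 0 ≤ Real.exp (U * E) * K₂ a z := mul_nonneg (Real.exp_pos _).le (hX.k0 a z)
    have f1 : K₂ v z - Real.exp (U * E) * K₂ a z ≤ Real.exp (-(G * E)) * kap31 P c₁ c₃ Q₂ S₂ E w ce cz N v z := by
      by_cases h4 : v ≤ z ∧ z ≤ v + N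
      · rw [kap31_of_reach h4.1 h4.2]
        have f2 := hX.cell v z hv
        have f3 := mul_le_mul_of_nonneg_left (env35 (P := P) (c₁ := c₁) (cz := cz) (ce := ce) hE hw hP hq hqQ hS₂ hc₃ v z) (Real.exp_pos (-(G * E))).le
        linarith
      · rw [hX.kz v z h4]
        have f3 : 0 ≤ Real.exp (-(G * E)) * kap31 P c₁ c₃ Q₂ S₂ E w ce cz N v z := mul_nonneg (Real.exp_pos _).le (kap31_nonneg v z)
        linarith
    have f4 := kap_back35 (P := P) (c₁ := c₁) (cz := cz) (N := N) (z := z) hE hw hc₃' h3 (hq.trans hqQ) hq₁ hS₂ hσ h1 h2 hvρ hx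
    have f5 : Real.exp ((Q₂ * gr P (AQ P c₁ Q₂ + ρ) + S₂ + 2 * (ρ * c₃')) * E) ≤ Real.exp (C₂ * E) :=
      Real.exp_le_exp.2 (mul_le_mul_of_nonneg_right hC₂ hE.le)
    have f6 := f4.trans (mul_le_mul_of_nonneg_right f5 (kap31_nonneg x z))
    have f7 := f1.trans (mul_le_mul_of_nonneg_left f6 (Real.exp_pos _).le)
    have f8 := mul_le_mul_of_nonneg_right f7 (g0 z)
    linarith
  have e2 : B v ≤ Real.exp (U * E) * B a + Real.exp (-(G * E)) * (Real.exp (C₂ * E) * (Φ * G₀)) := by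
    rw [hB v hv, hB a hX.aδ]
    refine (sum_le_sum e1).trans ?_
    rw [sum_add_distrib, ← mul_sum, ← mul_sum, ← mul_sum]
    refine add_le_add le_rfl (mul_le_mul_of_nonneg_left (mul_le_mul_of_nonneg_left (phi x hxC) (Real.exp_pos _).le) (Real.exp_pos _).le)
  -- the lower bound at the place
  have e3 : G₀ ≤ V * (Real.exp (U * E) * B a) := by
    obtain ⟨z, hz⟩ := hX.ne
    have f1 : K₂ a z * g z ≤ B a := by
      rw [hB a hX.aδ]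
      exact single_le_sum (f := fun z => K₂ a z * g z) (fun z _ => mul_nonneg (hX.k0 a z) (g0 z)) (hδU hz)
    have f2 := mul_le_mul_of_nonneg_right (hX.lo z hz) (g0 z)
    have f3 := mul_le_mul_of_nonneg_left (f2.trans f1) (Real.exp_pos (U * E)).le
    rw [← mul_assoc, ← Real.exp_add, add_neg_cancel, Real.exp_zero, one_mul] at f3
    exact (loG z hz).trans (mul_le_mul_of_nonneg_left f3 hV0)
  have e4 : 0 ≤ Real.exp (U * E) * B a := by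
    by_contra hc
    have : V * (Real.exp (U * E) * B a) ≤ 0 := mul_nonpos_of_nonneg_of_nonpos hV0 (not_le.1 hc).le
    linarith
  have e5 : Real.exp (-(G * E)) * (Real.exp (C₂ * E) * (Φ * G₀)) ≤ Real.exp (U * E) * B a := by
    have f0 : 0 ≤ Real.exp (-(G * E)) * Real.exp (C₂ * E) * Φ := by positivity
    calc Real.exp (-(G * E)) * (Real.exp (C₂ * E) * (Φ * G₀)) = Real.exp (-(G * E)) * Real.exp (C₂ * E) * Φ * G₀ := by ring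
      _ ≤ Real.exp (-(G * E)) * Real.exp (C₂ * E) * Φ * (V * (Real.exp (U * E) * B a)) := mul_le_mul_of_nonneg_left e3 f0
      _ = Real.exp (-(G * E)) * Real.exp (C₂ * E) * Φ * V * (Real.exp (U * E) * B a) := by ring
      _ ≤ 1 * (Real.exp (U * E) * B a) := mul_le_mul_of_nonneg_right hsm e4
      _ = _ := one_mul _
  linarith

/-- The lower side `cl` and the sign of `B₀`. -/
theorem clE35 (hX : Ex35 P₂ q κ U G E w ce cz a N δ δ' K₂) (hE : 0 ≤ E) (hU : 0 ≤ U) (g0 : ∀ z, 0 ≤ g z)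
    (hB : ∀ v ∈ δ, B v = ∑ z ∈ Uu, K₂ v z * g z) : 0 ≤ B a ∧ ∀ v ∈ ({a} : Finset ℤ), B a ≤ 2 * Real.exp (U * E) * B v := by
  have h1 : 0 ≤ B a := by
    rw [hB a hX.aδ]
    exact sum_nonneg fun z _ => mul_nonneg (hX.k0 a z) (g0 z)
  refine ⟨h1, fun v hv => ?_⟩
  rw [mem_singleton] at hv
  subst hv
  have h2 : 1 ≤ Real.exp (U * E) := Real.one_le_exp (by positivity)
  exact le_mul_of_one_le_left h1 (by linarith)

end

end Pool.Agent.W_7d29a1_C1.JnE35
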