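import Pool.Agent.W_7d29a1_C1.JnD35
import Pool.Agent.W_7d29a1_C1.JnE35

/-!
MP_7d29a1_pr, [C1], SHELL, FRESH BALL: **`w47` WITH THE WHOLE `Jnt` INSIDE** (helper35).

`w35` : seam at `c₀`, the two lanes (`Psh`), the inside as in the output of `jnC35`, the exit as `Ex35`, `loG`, `phi`, the meeting `hin`
and the numbers in one unit `E` give the weight of the box: `(1 - ε') (7 / 8) ≤ ∑ c ∈ Q, Γ.w c η`.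
-/

set_option autoImplicit false

namespace Pool.Agent.W_7d29a1_C1.JnE35

open Finset
open Pool.Agent.W_7d29a1_F (Env)
open Pool.Agent.W_7d29a1_C1.K91 (Grp Box wt wt_pos)
open Pool.Agent.W_7d29a1_C1.K91P
open Pool.Agent.W_7d29a1_C1.U16 (ker)
open Pool.Agent.W_7d29a1_C1.Bx47
open Pool.Agent.W_7d29a1_C1.S83
open Pool.Agent.W_7d29a1_C1.FarK89 (gr AQ)
open Pool.Agent.W_7d29a1_C1.H60
open Pool.Agent.W_7d29a1_C1.Fr47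
open Pool.Agent.W_7d29a1_C1.D31 (kap31)

noncomputable section

variable {μ : MeasureTheory.Measure ℝ} {s h : ℝ} {η : Env} {M : ℕ} {Γ : Cx} {C₁ C₂ β₁ β₂ δ δ' : Finset ℤ} {ph : ℤ → ℝ}
  {L Lk Mh R ε A₁ A₂ V Φ G₀ Λ : ℝ} {P₂ P : ℕ} {q κ U G E w ce cz ci c₁ c₃ c₃' Q₂ S₂ q₁ σ CL ρ C₂' a b t2 : ℝ} {v₀ : ℤ}

/-- **`w47` WITH THE WHOLE `Jnt` INSIDE.** Rows `c₀`, `i = c₀ + n'`, `e = i + n`, `c3 = e + (m + 1)`. -/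
theorem w35 (hk : 1 ≤ Γ.k) (hq0 : ∀ j, j < Γ.k → 0 ≤ Γ.q j) (hq1 : ∃ j, j < Γ.k ∧ 0 < Γ.q j) {c₀ n' n m : ℕ}
    (hN : c₀ + n' + n + (m + 1) ≤ Γ.N) {Q : Finset (ℕ × ℤ)}
    (hQ : Q ⊆ Ico (c₀ + n') (c₀ + n' + n) ×ˢ Icc (0 : ℤ) Γ.hi)
    (hlt : ∀ x ∈ β₁, ∀ x' ∈ β₂, x < x') {e1 e2 : ℝ} (he1 : 0 ≤ e1) (he2 : 0 ≤ e2) (hΛ : 0 < Λ)
    (hS : SeamI (Icc 0 Γ.hi) C₁ C₂ (fw (wt η) Γ.p Cx.l c₀) (fw (wt η) Γ.p Γ.r c₀) ph e1 e2)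
    (hP : Psh (Icc 0 Γ.hi) (Icc 0 Γ.hi) C₁ C₂ β₁ β₂ (fun x y => ker (wt η) Γ.p c₀ n' x y / Λ) ph
      (jph (Icc 0 Γ.hi) (kap31 P c₁ c₃' (Q₂ + q₁) (S₂ + σ) E w ci cz (n + (m + 1))) (G47 μ s h η Γ.p M Γ.N (c₀ + n') n m) G₀)
      A₁ A₂ L Lk Mh R ε)
    -- the inside
    (hE8 : 8 ≤ E) (hw : 0 < w) (hCL : 0 ≤ CL) (hq₁ : 0 ≤ q₁) (hσ : 0 ≤ σ)
    (comp : ∀ x z : ℤ, ∑ y ∈ Icc (0 : ℤ) (Γ.hi - ((m + 1 : ℕ) : ℤ)), K147 μ s h η Γ.p M (c₀ + n') n x y *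
      kap31 P c₁ c₃ Q₂ S₂ E w ce cz (m + 1) y z ≤ kap31 P c₁ c₃' (Q₂ + q₁) (S₂ + σ) E w ci cz (n + (m + 1)) x z)
    (lo1 : ∀ x ∈ β₁ ∪ β₂, 1 ≤ Real.exp (CL * E) * ∑ y ∈ ({v₀} : Finset ℤ), K147 μ s h η Γ.p M (c₀ + n') n x y)
    (up1 : ∀ x ∈ β₁ ∪ β₂, ∑ y ∈ δ, K147 μ s h η Γ.p M (c₀ + n') n x y ≤ Real.exp (CL * E) * 1)
    -- the exit
    (hX : Ex35 P₂ q κ U G E w ce cz v₀ (m + 1) δ δ' (K247 μ s h η Γ.p M (c₀ + n' + n) m)) (hPP : P₂ ≤ P) (hq : 0 ≤ q) (hqQ : q ≤ Q₂)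
    (hS₂ : 0 ≤ S₂) (hc₃ : c₃ ≤ κ) (hc₃' : 0 ≤ c₃') (h3 : c₃' ≤ c₃) (hU : 0 ≤ U)
    -- the windows
    (hβS : β₁ ∪ β₂ ⊆ Icc 0 (Γ.hi - (n + (m + 1) : ℕ))) (hδT : δ ⊆ Icc 0 (Γ.hi - ((m + 1 : ℕ) : ℤ))) (hδU : δ' ⊆ Icc 0 Γ.hi)
    (hβρ : ∀ x ∈ β₁ ∪ β₂, |(x : ℝ) - ci| ≤ ρ * w) (hδρ : ∀ v ∈ δ, |(v : ℝ) - ce| ≤ ρ * w) {x₀ : ℤ} (hx₀ : x₀ ∈ β₁ ∪ β₂)
    (hxv : ∀ v ∈ δ, x₀ ≤ v ∧ v ≤ x₀ + n)
    -- the future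
    (hV : 1 ≤ V) (hΦ : 1 ≤ Φ) (hG₀ : 0 < G₀) (loG : ∀ z ∈ δ', G₀ ≤ V * G47 μ s h η Γ.p M Γ.N (c₀ + n') n m z)
    (phi : ∀ x ∈ β₁ ∪ β₂, ∑ z ∈ Icc 0 Γ.hi, kap31 P c₁ c₃' (Q₂ + q₁) (S₂ + σ) E w ci cz (n + (m + 1)) x z *
      G47 μ s h η Γ.p M Γ.N (c₀ + n') n m z ≤ Φ * G₀)
    -- the numbers
    (hC₂ : Q₂ * gr P (AQ P c₁ Q₂ + ρ) + S₂ + 2 * (ρ * c₃') ≤ C₂') (ha : 0 ≤ a) (hab : a ≤ b) (aCL : 2 * CL ≤ a) (aU : 2 * U + 2 ≤ a)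
    (hL : L ≤ Real.exp (a * E / 2)) (hR : R ≤ Real.exp (a * E / 2)) (hLk : Lk ≤ Real.exp (b * E)) (hMh : Mh ≤ Real.exp (b * E))
    (hVb : V ≤ Real.exp (b * E / 2)) (hΦb : Φ ≤ Real.exp (b * E / 2)) {g1 gF : ℝ} (k1 : 9 * b + 2 ≤ g1) (kF : 9 * b + 2 ≤ gF)
    (h1 : e1 ≤ Real.exp (-(g1 * E))) (hF : ε ≤ Real.exp (-(gF * E))) (k4 : 9 * b + 2 ≤ G) (k5 : C₂' + b ≤ G)
    (k2 : 5 * (a * E) + 8 ≤ t2) (h2 : e2 ≤ Real.exp (-t2)) {ε' : ℝ} (hε' : ε' ≤ 1)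
    (hin : ∀ x ∈ β₁, ∀ x' ∈ β₂, ∀ y ∈ δ, ∀ y' ∈ δ,
      (1 - ε') * (ker (wt η) Γ.p (c₀ + n') n x y * ker (wt η) Γ.p (c₀ + n') n x' y') ≤
        mq (wt η) Γ.p Q (c₀ + n') n x x' y y') :
    (1 - ε') * (7 / 8) ≤ ∑ c ∈ Q, Γ.w c η := by
  have hE : 0 < E := by linarith
  have hb : 0 ≤ b := ha.trans hab
  have g0 : ∀ z, 0 ≤ G47 μ s h η Γ.p M Γ.N (c₀ + n') n m z := fun z => G47_nonneg H83.p_pos _ _ _ _ z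
  have hJ := jntE35 (S := Icc 0 (Γ.hi - (n + (m + 1) : ℕ))) (T := Icc 0 (Γ.hi - ((m + 1 : ℕ) : ℤ))) (Uu := Icc 0 Γ.hi) (C := β₁ ∪ β₂)
    (K₁ := K147 μ s h η Γ.p M (c₀ + n') n) (g := G47 μ s h η Γ.p M Γ.N (c₀ + n') n m) (c₃' := c₃') (q₁ := q₁) (σ := σ) (n := n)
    (ci := ci) (c₁ := c₁) hE hw hX hPP hq hqQ hS₂ hc₃ hU hCL (fun x y => K147_nonneg H83.p_pos _ _ x y) g0 hV hΦ hG₀ hβS hδT hδU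
    (fun x _ z _ => comp x z) lo1 loG phi
  have hB : ∀ v ∈ δ, B47 μ s h η Γ.p M Γ.N (c₀ + n') n v = ∑ z ∈ Icc 0 Γ.hi, K247 μ s h η Γ.p M (c₀ + n' + n) m v z *
      G47 μ s h η Γ.p M Γ.N (c₀ + n') n m z := fun v hv =>
    hB47 hN (mem_Icc.1 (hδT hv)).1 (mem_Icc.1 (hδT hv)).2
  have hsm : Real.exp (-(G * E)) * Real.exp (C₂' * E) * Φ * V ≤ 1 := by
    calc Real.exp (-(G * E)) * Real.exp (C₂' * E) * Φ * V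
        ≤ Real.exp (-(G * E)) * Real.exp (C₂' * E) * Real.exp (b * E / 2) * Real.exp (b * E / 2) := by gcongr
      _ = Real.exp ((C₂' + b - G) * E) := by
        rw [← Real.exp_add, ← Real.exp_add, ← Real.exp_add]
        congr 1
        ring
      _ ≤ 1 := by
        rw [Real.exp_le_one_iff]
        exact mul_nonpos_of_nonpos_of_nonneg (by linarith) hE.le
  have hcu : ∀ v ∈ δ, B47 μ s h η Γ.p M Γ.N (c₀ + n') n v ≤ 2 * Real.exp (U * E) * B47 μ s h η Γ.p M Γ.N (c₀ + n') n v₀ :=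
    fun v hv => cuE35 (q₁ := q₁) (σ := σ) (c₃' := c₃') (ci := ci) (c₁ := c₁) (n := n) hE hw hX hPP hq hqQ hS₂ hc₃ hc₃' h3 hq₁ hσ g0 hV hΦ hG₀ hδU
      loG phi hB hC₂ hsm hv (hδρ v hv) ⟨x₀, hx₀, (hxv v hv).1, (hxv v hv).2, hβρ x₀ hx₀⟩
  obtain ⟨B00, hcl⟩ := clE35 hX hE.le hU g0 hB
  have hLb : 2 * Real.exp (U * E) ≤ Real.exp (a * E / 2) := by
    have e1 : (2 : ℝ) ≤ Real.exp E := by
      have := Real.add_one_le_exp E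
      linarith
    calc 2 * Real.exp (U * E) ≤ Real.exp E * Real.exp (U * E) := mul_le_mul_of_nonneg_right e1 (Real.exp_pos _).le
      _ = Real.exp ((2 * U + 2) * E / 2) := by
        rw [← Real.exp_add]
        congr 1
        ring
      _ ≤ _ := Real.exp_le_exp.2 (by
        have := mul_le_mul_of_nonneg_right aU hE.le
        linarith)
  have hL1 : Real.exp (CL * E) ≤ Real.exp (a * E / 2) := Real.exp_le_exp.2 (by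
    have := mul_le_mul_of_nonneg_right aCL hE.le
    linarith)
  have hL2 : Real.exp (U * E) ≤ Real.exp (b * E) := Real.exp_le_exp.2 (by
    have := mul_le_mul_of_nonneg_right (show U ≤ b by linarith) hE.le
    linarith)
  obtain ⟨n1, n2⟩ := num47 (E := E) (a := a) (b := b) (g1 := g1) (g4 := G) (gF := gF) (t2 := t2) hE8 ha hab k1 k4 kF k2 hP.L0 hP.Lk0 hP.M0 hP.R0
    (Real.exp_pos (CL * E)).le (Real.exp_pos (U * E)).le (zero_le_one.trans hV) (zero_le_one.trans hΦ)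
    (show 0 ≤ 2 * Real.exp (U * E) by positivity) he1 he2 (Real.exp_pos (-(G * E))).le hP.ε0 hL hR hL1 hLb hLk hMh hL2 hVb hΦb h1 le_rfl hF h2
  have hfin := w47 (Γ := Γ) (Lb := 2 * Real.exp (U * E)) (B₀ := B47 μ s h η Γ.p M Γ.N (c₀ + n') n v₀)
    (z := 1 / 16) hk hq0 hq1 hN hQ hlt he1 he2 hΛ hS hP hJ up1 B00 (by positivity) hcu hcl (mem_singleton_self v₀) le_rfl le_rfl hε' rfl n1 n2
    (by norm_num) hin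
  have e1 : (1 : ℝ) - 2 * (1 / 16) = 7 / 8 := by norm_num
  rwa [e1] at hfin

end

end Pool.Agent.W_7d29a1_C1.JnE35
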