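import Pool.Agent.W_7d29a1_C1.Sets47
import Pool.Agent.W_7d29a1_C1.JnF35

/-!
MP_7d29a1_pr, [C1] SHELL, THE FRESH BALL: FROM THE SET `So47` TO THE LETTERS OF `w35`. (helper47)

`G0_47` = the size of the future (`Λ₁₂ Λ₁₂' Φ Fu (zc)`), `So47.seamI` = `hS` of `w35` (slope `jph` over the whole box), `So47.loG`, `So47.phi0`
(`Φ = 1` at the cells of the row `c0`), `So47.phi` at cells of the row `c0'`.
-/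

set_option autoImplicit false

namespace Pool.Agent.W_7d29a1_C1.Fr47

open MeasureTheory Finset
open Pool.Agent.W_7d29a1_F Pool.Agent.W_7d29a1_h4g Pool.Agent.W_7d29a1_H Pool.Agent.W_7d29a1_HS
open Pool.Agent.W_7d29a1_C1.K91 (wt wt_pos)
open Pool.Agent.W_7d29a1_C1.K91P
open Pool.Agent.W_7d29a1_C1.S83
open Pool.Agent.W_7d29a1_C1.Sh21 (SeamIn js)
open Pool.Agent.W_7d29a1_C1.F74 (cl2)
open Pool.Agent.W_7d29a1_C1.H60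
open Pool.Agent.W_7d29a1_C1.H77 (fw_zero77)
open Pool.Agent.W_7d29a1_C1.S12 (Lam12 Lam12_pos)
open Pool.Agent.W_7d29a1_C1.FarK89 (gr gr_nonneg gr_mono AQ AQ_nonneg)
open Pool.Agent.W_7d29a1_C1.D31 (kap31 kapo31 kap31_nonneg kap31_of_reach kap31_le le_kap31)

noncomputable section

variable {μ : Measure ℝ} {s h : ℝ} {η : Env} {M : ℕ} {Γ : Cx} {σ : NS47} {j : ℕ} {z : ℕ × ℤ}

/-- **The size of the future.** Rows `i`, `i + n`, `i + n + (m + 1) = c3`. -/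
def G0_47 (μ : Measure ℝ) (s h : ℝ) (M : ℕ) (Γ : Cx) (σ : NS47) (j : ℕ) (z : ℕ × ℤ) (η : Env) (i n m : ℕ) : ℝ :=
  Lam12 μ s h M i n * Lam12 μ s h M (i + n) m * (σ.Φ j * Fu47 Γ σ j z η (z.2 + σ.ζc j))

variable {i n m : ℕ}

theorem G0_47_pos (hΦ : 0 < σ.Φ j) : 0 < G0_47 μ s h M Γ σ j z η i n m :=
  mul_pos (mul_pos (Lam12_pos _ _ _) (Lam12_pos _ _ _)) (mul_pos hΦ (Fu47_pos _ _))

theorem G47_Fu (hc : i + n + (m + 1) = σ.c3 j z) (v : ℤ) : G47 μ s h η Γ.p M Γ.N i n m v =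
    Lam12 μ s h M i n * Lam12 μ s h M (i + n) m * Fu47 Γ σ j z η v := by
  unfold G47 Fu47
  rw [hc]

/-- Sums of the envelope over the whole box. -/
theorem sum_box47 {k : ℤ → ℤ → ℝ} {f : ℤ → ℝ} {x : ℤ} {r D : ℕ} (kz : ∀ v : ℤ, ¬ (x ≤ v ∧ v ≤ x + D) → k x v = 0) (hx : x ≤ Γ.k + r)
    {c3 : ℕ} (hc : r + D = c3) (hN : c3 ≤ Γ.N) : ∑ v ∈ Icc (0 : ℤ) Γ.hi, k x v * f v = ∑ v ∈ Icc (0 : ℤ) (Γ.k + c3), k x v * f v := by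
  symm
  refine sum_subset (Icc_subset_Icc le_rfl ?_) fun v hv hv' => ?_
  · unfold Cx.hi
    omega
  · rw [mem_Icc] at hv hv'
    rw [kz v (by omega), zero_mul]

/-- The slope over the whole box. -/
theorem jph_js47 {σ : NS47} {k : ℤ → ℤ → ℝ} {x : ℤ} {r D : ℕ} (kz : ∀ v : ℤ, ¬ (x ≤ v ∧ v ≤ x + D) → k x v = 0) (hx : x ≤ Γ.k + r)
    (hc' : r + D = σ.c3 j z) (hN : σ.c3 j z ≤ Γ.N) (hc : i + n + (m + 1) = σ.c3 j z) :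
    jph (Icc 0 Γ.hi) k (G47 μ s h η Γ.p M Γ.N i n m) (G0_47 μ s h M Γ σ j z η i n m) x =
      js (Icc 0 (Γ.k + σ.c3 j z)) k (Fu47 Γ σ j z η) (Fu47 Γ σ j z η (z.2 + σ.ζc j)) x / σ.Φ j := by
  have e1 : ∑ v ∈ Icc (0 : ℤ) Γ.hi, k x v * G47 μ s h η Γ.p M Γ.N i n m v =
      (Lam12 μ s h M i n * Lam12 μ s h M (i + n) m) * ∑ v ∈ Icc (0 : ℤ) (Γ.k + σ.c3 j z), k x v * Fu47 Γ σ j z η v := by
    rw [sum_box47 kz hx hc' hN, mul_sum]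
    refine sum_congr rfl fun v _ => ?_
    rw [G47_Fu hc]
    ring
  have hL := mul_pos (Lam12_pos (μ := μ) (s := s) (h := h) M i n) (Lam12_pos (μ := μ) (s := s) (h := h) M (i + n) m)
  unfold jph js G0_47
  rw [e1, mul_div_mul_left _ _ hL.ne', div_div, mul_comm (σ.Φ j)]

/-- **`hS` of `w35`.** -/
theorem So47.seamI (hΓ : Γ.Ok) (hη : η ∈ So47 Γ σ j z) (κz : ∀ x v : ℤ, ¬ (x ≤ v ∧ v ≤ x + (2 * σ.T j : ℕ)) → σ.k0 j z x v = 0)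
    (hN : σ.c3 j z ≤ Γ.N) (hc : i + n + (m + 1) = σ.c3 j z) :
    SeamI (Icc 0 Γ.hi) (Icc (z.2 + σ.α₁ j) (z.2 + σ.β₁ j)) (Icc (z.2 + σ.α₂ j) (z.2 + σ.β₂ j)) (fw (wt η) Γ.p Cx.l (σ.c0 j z))
      (fw (wt η) Γ.p Γ.r (σ.c0 j z)) (jph (Icc 0 Γ.hi) (σ.k0 j z) (G47 μ s h η Γ.p M Γ.N i n m) (G0_47 μ s h M Γ σ j z η i n m))
      (σ.e1 j) (σ.e2 j) := by
  obtain ⟨hT, hI, -⟩ := hη
  have hT' : σ.T j ≤ z.1 := hT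
  have hb := Cx.box1 hΓ
  have hrow : σ.c0 j z + 2 * σ.T j = σ.c3 j z := by
    unfold NS47.c0 NS47.c3
    omega
  have hz : ∀ {m : ℤ → ℝ}, (∀ y, y < 0 → m y = 0) → (∀ y, Γ.hi - Γ.N < y → m y = 0) → ∀ y : ℤ, ¬ y ≤ Γ.k + σ.c0 j z →
      fw (wt η) Γ.p m (σ.c0 j z) y = 0 := fun h1 h2 y hy => fw_zero77 h1 h2 (by
    unfold Cx.hi
    omega)
  have key : ∀ {m₀ : ℤ → ℝ}, (∀ y, y < 0 → m₀ y = 0) → (∀ y, Γ.hi - Γ.N < y → m₀ y = 0) → ∀ X : Finset ℤ,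
      ∑ x ∈ Icc (0 : ℤ) Γ.hi \ X, fw (wt η) Γ.p m₀ (σ.c0 j z) x * jph (Icc (0 : ℤ) Γ.hi) (σ.k0 j z) (G47 μ s h η Γ.p M Γ.N i n m)
        (G0_47 μ s h M Γ σ j z η i n m) x = ∑ x ∈ Icc (0 : ℤ) (Γ.k + σ.c0 j z) \ X, fw (wt η) Γ.p m₀ (σ.c0 j z) x *
        (js (Icc (0 : ℤ) (Γ.k + σ.c3 j z)) (σ.k0 j z) (Fu47 Γ σ j z η) (Fu47 Γ σ j z η (z.2 + σ.ζc j)) x / σ.Φ j) := by
    intro m₀ h1 h2 X
    have hsub : Icc (0 : ℤ) (Γ.k + σ.c0 j z) \ X ⊆ Icc (0 : ℤ) Γ.hi \ X := sdiff_subset_sdiff (Icc_subset_Icc le_rfl (by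
      unfold Cx.hi
      omega)) (subset_refl _)
    rw [← sum_subset hsub fun x hx hx' => ?_]
    · refine sum_congr rfl fun x hx => ?_
      rw [mem_sdiff, mem_Icc] at hx
      rw [jph_js47 (κz x) hx.1.2 hrow hN hc]
    · rw [mem_sdiff, mem_Icc] at hx hx'
      rw [hz h1 h2 x (fun h3 => hx' ⟨⟨hx.1.1, h3⟩, hx.2⟩), zero_mul]
  refine ⟨?_, ?_, hI.I.ta, hI.I.tb⟩
  · rw [key (fun y hy => (hb.lo0 y hy).1) (fun y hy => (hb.hi0 y hy).1)]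
    exact hI.I.offa
  · rw [key (fun y hy => (hb.lo0 y hy).2) (fun y hy => (hb.hi0 y hy).2)]
    exact hI.I.offb

/-- **`loG` of `w35`.** -/
theorem So47.loG (hη : η ∈ So47 Γ σ j z) (hΦ : 0 ≤ σ.Φ j) (hc : i + n + (m + 1) = σ.c3 j z) {v : ℤ} (h1 : z.2 + σ.ζa j ≤ v)
    (h2 : v ≤ z.2 + σ.ζb j) : G0_47 μ s h M Γ σ j z η i n m ≤ (σ.V j * σ.Φ j) * G47 μ s h η Γ.p M Γ.N i n m v := by
  have h3 := hη.2.2.1 v (mem_Icc.2 ⟨h1, h2⟩)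
  rw [G47_Fu hc]
  unfold G0_47
  have hL := mul_pos (Lam12_pos (μ := μ) (s := s) (h := h) M i n) (Lam12_pos (μ := μ) (s := s) (h := h) M (i + n) m)
  have h4 := mul_le_mul_of_nonneg_left (mul_le_mul_of_nonneg_left h3 hΦ) hL.le
  refine h4.trans (le_of_eq ?_)
  ring

/-- **`Φ = 1` at the cells of the row `c0`.** -/
theorem So47.phi0 (hη : η ∈ So47 Γ σ j z) (κz : ∀ x v : ℤ, ¬ (x ≤ v ∧ v ≤ x + (2 * σ.T j : ℕ)) → σ.k0 j z x v = 0)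
    (hN : σ.c3 j z ≤ Γ.N) (hc : i + n + (m + 1) = σ.c3 j z) {x : ℤ} (hx : x ∈ cl2 (z.2 + σ.α₁ j) (z.2 + σ.β₁ j) (z.2 + σ.α₂ j) (z.2 + σ.β₂ j))
    (hxk : x ≤ Γ.k + σ.c0 j z) : ∑ v ∈ Icc 0 Γ.hi, σ.k0 j z x v * G47 μ s h η Γ.p M Γ.N i n m v ≤ G0_47 μ s h M Γ σ j z η i n m := by
  have hT' : σ.T j ≤ z.1 := hη.1
  have hrow : σ.c0 j z + 2 * σ.T j = σ.c3 j z := by
    unfold NS47.c0 NS47.c3
    omega
  have h3 := hη.2.2.2 x hx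
  have hL := mul_pos (Lam12_pos (μ := μ) (s := s) (h := h) M i n) (Lam12_pos (μ := μ) (s := s) (h := h) M (i + n) m)
  rw [sum_box47 (κz x) hxk hrow hN]
  have e1 : ∑ v ∈ Icc (0 : ℤ) (Γ.k + σ.c3 j z), σ.k0 j z x v * G47 μ s h η Γ.p M Γ.N i n m v =
      (Lam12 μ s h M i n * Lam12 μ s h M (i + n) m) * ∑ v ∈ Icc (0 : ℤ) (Γ.k + σ.c3 j z), σ.k0 j z x v * Fu47 Γ σ j z η v := by
    rw [mul_sum]
    refine sum_congr rfl fun v _ => ?_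
    rw [G47_Fu hc]
    ring
  rw [e1]
  exact mul_le_mul_of_nonneg_left h3 hL.le

/-- **`phi` of `w35`** at places `y` of the row `c0'`, from a place `x` of the cells of the row `c0`: `x ≤ y ≤ x + n'`. -/
theorem So47.phi (hη : η ∈ So47 Γ σ j z) (κz : ∀ x v : ℤ, ¬ (x ≤ v ∧ v ≤ x + (2 * σ.T j : ℕ)) → σ.k0 j z x v = 0)
    (hN : σ.c3 j z ≤ Γ.N) (hc : i + n + (m + 1) = σ.c3 j z) {kap : ℤ → ℤ → ℝ} {x y : ℤ}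
    (hx : x ∈ cl2 (z.2 + σ.α₁ j) (z.2 + σ.β₁ j) (z.2 + σ.α₂ j) (z.2 + σ.β₂ j)) (hxk : x ≤ Γ.k + σ.c0 j z) {A : ℝ} (hA : 0 ≤ A)
    (hk : ∀ v : ℤ, kap y v ≤ A * σ.k0 j z x v) :
    ∑ v ∈ Icc 0 Γ.hi, kap y v * G47 μ s h η Γ.p M Γ.N i n m v ≤ A * G0_47 μ s h M Γ σ j z η i n m := by
  have h1 := So47.phi0 (μ := μ) (s := s) (h := h) (M := M) hη κz hN hc hx hxk
  refine le_trans ?_ (mul_le_mul_of_nonneg_left h1 hA)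
  rw [mul_sum]
  refine sum_le_sum fun v _ => ?_
  have h2 := mul_le_mul_of_nonneg_right (hk v) (G47_nonneg (μ := μ) (s := s) (h := h) (η := η) (p := Γ.p) (M := M) Γ.p_pos Γ.N i n m v)
  refine h2.trans (le_of_eq ?_)
  ring

/-- The comparison of the envelopes: `kap31` of the row `c0'` (level `Q'`, `S'`, `N'` rows) against `kap31` of the row `c0`. -/
theorem kap_move47 {P : ℕ} {c₁ c₃ Q S Q' S' E w Λ D cen cen₁ cen₃ : ℝ} {N N' : ℕ} {x y v : ℤ} (hE : 0 < E) (hw : 0 < w)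
    (hc₃ : 0 ≤ c₃) (hQ : 0 ≤ Q) (hS : 0 ≤ S) (hQ' : 0 ≤ Q') (hy : |(y : ℝ) - cen₁| ≤ Λ * w)
    (hD : |((y : ℝ) - cen₁) - ((x : ℝ) - cen)| ≤ D * w) (hxy : x ≤ y) (hyN : y + N' ≤ x + N) :
    kap31 P c₁ c₃ Q' S' E w cen₁ cen₃ N' y v ≤
      Real.exp ((Q' * gr P (AQ P c₁ Q' + Λ) + S' + c₃ * D) * E) * kap31 P c₁ c₃ Q S E w cen cen₃ N x v := by
  by_cases h1 : y ≤ v ∧ v ≤ y + N'
  · rw [kap31_of_reach h1.1 h1.2, kap31_of_reach (show x ≤ v by omega) (show v ≤ x + N by omega)]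
    exact kapo_move (ℓ₁ := fun y : ℤ => (y : ℝ) - cen₁) (ℓ₀ := fun x : ℤ => (x : ℝ) - cen) (ℓ₃ := fun v : ℤ => (v : ℝ) - cen₃) hE hw hc₃ hQ hS
      hQ' hy hD
  · have e1 : kap31 P c₁ c₃ Q' S' E w cen₁ cen₃ N' y v = 0 := if_neg h1
    rw [e1]
    exact mul_nonneg (Real.exp_pos _).le (kap31_nonneg _ _)

/-! ### The normalization with the slope divided by `Φ` -/

/-- The size of the future without `Φ`. -/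
def G1_47 (μ : Measure ℝ) (s h : ℝ) (M : ℕ) (Γ : Cx) (σ : NS47) (j : ℕ) (z : ℕ × ℤ) (η : Env) (i n m : ℕ) : ℝ :=
  Lam12 μ s h M i n * Lam12 μ s h M (i + n) m * Fu47 Γ σ j z η (z.2 + σ.ζc j)

theorem G1_47_pos : 0 < G1_47 μ s h M Γ σ j z η i n m :=
  mul_pos (mul_pos (Lam12_pos _ _ _) (Lam12_pos _ _ _)) (Fu47_pos _ _)

theorem G0_G1 : G0_47 μ s h M Γ σ j z η i n m = σ.Φ j * G1_47 μ s h M Γ σ j z η i n m := by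
  unfold G0_47 G1_47
  ring

theorem jph_G1 (S : Finset ℤ) (k : ℤ → ℤ → ℝ) (g : ℤ → ℝ) (x : ℤ) : jph S k g (G0_47 μ s h M Γ σ j z η i n m) x =
    jph S k g (G1_47 μ s h M Γ σ j z η i n m) x / σ.Φ j := by
  unfold jph
  rw [G0_G1, div_div, mul_comm (σ.Φ j)]

/-- **`hS` of `w35b` in the letters of `pshC83`.** -/
theorem So47.seamI1 (hΓ : Γ.Ok) (hη : η ∈ So47 Γ σ j z) (κz : ∀ x v : ℤ, ¬ (x ≤ v ∧ v ≤ x + (2 * σ.T j : ℕ)) → σ.k0 j z x v = 0)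
    (hN : σ.c3 j z ≤ Γ.N) (hc : i + n + (m + 1) = σ.c3 j z) :
    SeamI (Icc 0 Γ.hi) (Icc (z.2 + σ.α₁ j) (z.2 + σ.β₁ j)) (Icc (z.2 + σ.α₂ j) (z.2 + σ.β₂ j)) (fw (wt η) Γ.p Cx.l (σ.c0 j z))
      (fw (wt η) Γ.p Γ.r (σ.c0 j z)) (fun x => jph (Icc 0 Γ.hi) (σ.k0 j z) (G47 μ s h η Γ.p M Γ.N i n m)
        (G1_47 μ s h M Γ σ j z η i n m) x / σ.Φ j) (σ.e1 j) (σ.e2 j) := by
  have h1 := So47.seamI (μ := μ) (s := s) (h := h) (M := M) hΓ hη κz hN hc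
  have e : jph (Icc 0 Γ.hi) (σ.k0 j z) (G47 μ s h η Γ.p M Γ.N i n m) (G0_47 μ s h M Γ σ j z η i n m) =
      fun x => jph (Icc 0 Γ.hi) (σ.k0 j z) (G47 μ s h η Γ.p M Γ.N i n m) (G1_47 μ s h M Γ σ j z η i n m) x / σ.Φ j :=
    funext fun x => jph_G1 _ _ _ x
  rwa [e] at h1

theorem So47.loG1 (hη : η ∈ So47 Γ σ j z) (hc : i + n + (m + 1) = σ.c3 j z) {v : ℤ} (h1 : z.2 + σ.ζa j ≤ v)
    (h2 : v ≤ z.2 + σ.ζb j) : G1_47 μ s h M Γ σ j z η i n m ≤ σ.V j * G47 μ s h η Γ.p M Γ.N i n m v := by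
  have h3 := hη.2.2.1 v (mem_Icc.2 ⟨h1, h2⟩)
  rw [G47_Fu hc]
  unfold G1_47
  have hL := mul_pos (Lam12_pos (μ := μ) (s := s) (h := h) M i n) (Lam12_pos (μ := μ) (s := s) (h := h) M (i + n) m)
  refine (mul_le_mul_of_nonneg_left h3 hL.le).trans (le_of_eq ?_)
  ring

theorem So47.phi01 (hη : η ∈ So47 Γ σ j z) (κz : ∀ x v : ℤ, ¬ (x ≤ v ∧ v ≤ x + (2 * σ.T j : ℕ)) → σ.k0 j z x v = 0)
    (hN : σ.c3 j z ≤ Γ.N) (hc : i + n + (m + 1) = σ.c3 j z) {x : ℤ} (hx : x ∈ cl2 (z.2 + σ.α₁ j) (z.2 + σ.β₁ j) (z.2 + σ.α₂ j) (z.2 + σ.β₂ j))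
    (hxk : x ≤ Γ.k + σ.c0 j z) :
    ∑ v ∈ Icc 0 Γ.hi, σ.k0 j z x v * G47 μ s h η Γ.p M Γ.N i n m v ≤ σ.Φ j * G1_47 μ s h M Γ σ j z η i n m := by
  rw [← G0_G1]
  exact So47.phi0 hη κz hN hc hx hxk

theorem So47.phi1 (hη : η ∈ So47 Γ σ j z) (κz : ∀ x v : ℤ, ¬ (x ≤ v ∧ v ≤ x + (2 * σ.T j : ℕ)) → σ.k0 j z x v = 0)
    (hN : σ.c3 j z ≤ Γ.N) (hc : i + n + (m + 1) = σ.c3 j z) {kap : ℤ → ℤ → ℝ} {x y : ℤ}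
    (hx : x ∈ cl2 (z.2 + σ.α₁ j) (z.2 + σ.β₁ j) (z.2 + σ.α₂ j) (z.2 + σ.β₂ j)) (hxk : x ≤ Γ.k + σ.c0 j z) {A : ℝ} (hA : 0 ≤ A)
    (hk : ∀ v : ℤ, kap y v ≤ A * σ.k0 j z x v) :
    ∑ v ∈ Icc 0 Γ.hi, kap y v * G47 μ s h η Γ.p M Γ.N i n m v ≤ (A * σ.Φ j) * G1_47 μ s h M Γ σ j z η i n m := by
  rw [mul_assoc, ← G0_G1]
  exact So47.phi hη κz hN hc hx hxk hA hk

end

end Pool.Agent.W_7d29a1_C1.Fr47
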