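import Pool.Agent.W_7d29a1_C1.PshC83
import Pool.Agent.W_7d29a1_C1.FrG47

/-!
MP_7d29a1_pr, [C1], SHELL, FRESH BALL, (W): **`hP` OF `w35b` IN THE LETTERS OF ONE PLACE** (helper83).

`z` = the base point of the box, `x₀` = its middle column, `κ = (z.1, x₀)`; rows `c₀ = σ.c0 j z`, `c₀' = c₀ + n'`, `e = c₀' + n`,
`c3 = e + (m + 1) = σ.c3 j z`. `k0_lit83` : the envelope `σ.k0 j z` is `kap31` along the line of `κ`. `LN83` = the lanes at one place (the hypotheses of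
`pshC83`). `frP83` : `LN83` and `ζ ∈ So47` give `PshT` with the profile `G47`, the size `G1_47`, `Φ₀ = σ.Φ j`.

ORDER OF THE CONSTANTS: `ell`, `u`, `D`, `Λ`, `be` | `Lx` | `P₁`, `c₁`, `c₃`, `Q₂`, `S₂` | `cc`, `Gx`, `n₁` | `g` | `Qe`, `Pe`, `P₂` | `Qx` |
`Q₀`, `S₀`, `c₃' ≤ cc`, `Φ` | `G'`.
-/

set_option autoImplicit false

namespace Pool.Agent.W_7d29a1_C1.Fr47

open MeasureTheory Finset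
open Pool.Agent.W_7d29a1_F Pool.Agent.W_7d29a1_h4g Pool.Agent.W_7d29a1_H Pool.Agent.W_7d29a1_HS
open Pool.Agent.W_7d29a1_C1.K91 (wt wt_pos)
open Pool.Agent.W_7d29a1_C1.H75 Pool.Agent.W_7d29a1_C1.U16 Pool.Agent.W_7d29a1_C1.FarK89
open Pool.Agent.W_7d29a1_C1.S83
open Pool.Agent.W_7d29a1_C1.F74 (cl2)
open Pool.Agent.W_7d29a1_C1.H60
open Pool.Agent.W_7d29a1_C1.S12 (Lam12)
open Pool.Agent.W_7d29a1_C1.JnC35 (ln35)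
open Pool.Agent.W_7d29a1_C1.D31 (kap31 kapo31 cutn)

noncomputable section

variable {μ : Measure ℝ} {s : ℝ} {σ : NS47} {j : ℕ} {z : ℕ × ℤ}

/-- **The envelope of `So47` along the line of the box.** `ρ` = relative middle column. -/
theorem k0_lit83 {P : ℕ} {c₁ c₃ Q S E w ρ : ℝ} {x₀ : ℤ} (hT : σ.T j ≤ z.1) (hx : (x₀ : ℝ) = z.2 + ρ)
    (hκ : σ.κ j = kap31 P c₁ c₃ Q S E w (ρ + sl μ s * (1 - σ.T j)) (ρ + sl μ s * (1 + σ.T j)) (2 * σ.T j)) :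
    σ.k0 j z = kap31 P c₁ c₃ Q S E w (ln35 μ s (((z.1 : ℕ) : ℤ), x₀) (σ.c0 j z)) (ln35 μ s (((z.1 : ℕ) : ℤ), x₀) (σ.c3 j z)) (2 * σ.T j) := by
  have e0 : ln35 μ s (((z.1 : ℕ) : ℤ), x₀) (σ.c0 j z) = z.2 + (ρ + sl μ s * (1 - σ.T j)) := by
    have h1 : (((σ.c0 j z : ℕ) : ℤ) - ((z.1 : ℕ) : ℤ) : ℤ) = 1 - (σ.T j : ℤ) := by
      unfold NS47.c0
      omega
    unfold ln35
    show (x₀ : ℝ) + sl μ s * ((((σ.c0 j z : ℕ) : ℤ) - ((z.1 : ℕ) : ℤ) : ℤ) : ℝ) = _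
    rw [h1, hx]
    push_cast
    ring
  have e3 : ln35 μ s (((z.1 : ℕ) : ℤ), x₀) (σ.c3 j z) = z.2 + (ρ + sl μ s * (1 + σ.T j)) := by
    have h1 : (((σ.c3 j z : ℕ) : ℤ) - ((z.1 : ℕ) : ℤ) : ℤ) = 1 + (σ.T j : ℤ) := by
      unfold NS47.c3
      push_cast
      ring
    unfold ln35
    show (x₀ : ℝ) + sl μ s * ((((σ.c3 j z : ℕ) : ℤ) - ((z.1 : ℕ) : ℤ) : ℤ) : ℝ) = _
    rw [h1, hx]
    push_cast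
    ring
  funext y v
  unfold NS47.k0
  rw [hκ, e0, e3]
  unfold kap31 cutn
  by_cases h1 : y ≤ v ∧ v ≤ y + ((2 * σ.T j : ℕ) : ℤ)
  · rw [if_pos h1, if_pos (by omega)]
    unfold kapo31
    have f1 : (((y - z.2 : ℤ) : ℝ)) - (ρ + sl μ s * (1 - σ.T j)) = (y : ℝ) - (z.2 + (ρ + sl μ s * (1 - σ.T j))) := by
      push_cast
      ring
    have f2 : (((v - z.2 : ℤ) : ℝ)) - (ρ + sl μ s * (1 + σ.T j)) = (v : ℝ) - (z.2 + (ρ + sl μ s * (1 + σ.T j))) := by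
      push_cast
      ring
    simp only [f1, f2]
  · rw [if_neg h1, if_neg (by omega)]

/-- **THE LANES AT ONE PLACE.** Rows `i → i + n`, line of `κ`, cells `C b`, end cells `D b` around `t b` (`t b` within `1` of the line moved by
`τ b`); inner unit `TF`, ball `T`. -/
structure LN83 (μ : Measure ℝ) (s c : ℝ) (η : Env) (κ : Pt) (i n T TF : ℕ) (C D : Bool → Finset ℤ) (t : Bool → ℤ) (τ : Bool → ℝ)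
    (ell u D₀ Λ be g G' Qe : ℝ) (Pe : ℕ) (A r : ℝ) : Prop where
  A1 : 1 ≤ A
  low : ∀ b, ∀ x ∈ C b, Real.exp (-(ell * EE μ s TF)) * A ≤ W μ s η ((i : ℤ), x) n (t b - x)
  up : ∀ b, ∀ x ∈ C b, ∀ y, W μ s η ((i : ℤ), x) n (y - x) ≤ Real.exp (ell * EE μ s TF) * A
  crs : ∀ b, ∀ x ∈ C b, ∀ y ∈ D (!b), W μ s η ((i : ℤ), x) n (y - x) ≤ Real.exp (-(g * EE μ s TF)) * A
  off : ∃ cb : ℝ, |cb - ln35 μ s κ (i + n)| ≤ D₀ * wd μ s TF ∧ ∀ b, ∀ x ∈ C b, ∀ y, y ∉ D false → y ∉ D true →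
    W μ s η ((i : ℤ), x) n (y - x) ≤ Real.exp ((-G' - be * (|(y : ℝ) - cb| / wd μ s TF)) * EE μ s TF) * A
  env : ∃ ca : ℝ, |ca - ln35 μ s κ i| ≤ D₀ * wd μ s TF ∧ ∀ x y : ℤ, W μ s η ((i : ℤ), x) n (y - x) ≤
    Real.exp ((Qe * gr Pe (|(x : ℝ) - ca| / wd μ s TF) - c / 2 * (|(y : ℝ) - x - sl μ s * n| / wd μ s TF)) * EE μ s TF)
  ra : ∃ za : ℤ, |(za : ℝ) - ln35 μ s κ i| ≤ D₀ * wd μ s TF ∧ η ∈ RowG (i : ℤ) za (wd μ s TF) (u * EE μ s TF)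
  rb : ∃ zb : ℤ, |(zb : ℝ) - ln35 μ s κ (i + n)| ≤ D₀ * wd μ s TF ∧ η ∈ RowG ((i + n : ℕ) : ℤ) zb (wd μ s TF) (u * EE μ s TF)
  cC : ∀ b, ∀ x ∈ C b, |(x : ℝ) - ln35 μ s κ i| ≤ Λ * wd μ s T
  cD : ∀ b, ∀ y ∈ D b, |(y : ℝ) - ln35 μ s κ (i + n)| ≤ Λ * wd μ s T
  dD : ∀ b, ∀ y ∈ D b, |(y : ℝ) - t b| ≤ r
  tD : ∀ b, t b ∈ D b
  tt : ∀ b, |(t b : ℝ) - (ln35 μ s κ (i + n) + τ b)| ≤ 1

/-- The two cells of `So47`. -/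
def cl83 (σ : NS47) (j : ℕ) (z : ℕ × ℤ) (b : Bool) : Finset ℤ :=
  cond b (Icc (z.2 + σ.α₂ j) (z.2 + σ.β₂ j)) (Icc (z.2 + σ.α₁ j) (z.2 + σ.β₁ j))

variable {c C : ℝ} {n₀ : ℕ} [IsProbabilityMeasure μ]

/-- **`hP` OF `w35b` / `frW0`.** -/
theorem frP83 (h0 : In μ s c C n₀) {ell u D₀ Λ be : ℝ} (hell : 0 ≤ ell) (hu : 0 ≤ u) (hD : 0 ≤ D₀) (hΛ : 0 ≤ Λ) (hbe : 0 < be) :
    ∃ Lx : ℝ, 0 ≤ Lx ∧ ∀ (P₁ : ℕ) (c₁ c₃ Q₂ S₂ : ℝ), 0 < c₃ → 0 ≤ Q₂ → 0 ≤ S₂ → ∃ cc Gx : ℝ, cc = min (min (c / 16) (c₃ / 2)) (be / 8) ∧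
    0 < cc ∧ cc ≤ c / 16 ∧ cc ≤ c₃ / 2 ∧ 0 ≤ Gx ∧
    ∃ n₁ : ℕ, 1 ≤ n₁ ∧ ∀ (Qe : ℝ) (Pe P₂ : ℕ), 0 ≤ Qe → P₁ ≤ P₂ → Pe ≤ P₂ → 1 ≤ P₂ →
    ∃ Qx : ℝ, 0 ≤ Qx ∧ ∀ {Γ : Cx} {η : Env} {σ : NS47} {j : ℕ} {z : ℕ × ℤ} {x₀ : ℤ} {TF n' n m : ℕ} {Db : Bool → Finset ℤ} {t : Bool → ℤ}
      {τ : Bool → ℝ} {ρ A r g G' c₁' c₃' Q₀ S₀ Mh εc εo : ℝ}, n₁ ≤ TF → TF ≤ σ.T j → σ.T j ≤ 4 * TF →
      Γ.s = s → |Γ.h| * (2 * σ.T j : ℕ) ≤ 1 → η ∈ So47 Γ σ j z → σ.c3 j z ≤ Γ.N → σ.c0 j z + n' + n + (m + 1) = σ.c3 j z →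
      (x₀ : ℝ) = z.2 + ρ → σ.κ j = kap31 P₂ c₁' c₃' Q₀ S₀ (EE μ s (σ.T j)) (wd μ s (σ.T j)) (ρ + sl μ s * (1 - σ.T j))
        (ρ + sl μ s * (1 + σ.T j)) (2 * σ.T j) → 0 < σ.Φ j → 0 ≤ c₃' → c₃' ≤ cc → Qx ≤ Q₀ → 0 ≤ S₀ → 0 ≤ g → 0 ≤ G' →
      LN83 μ s c η (((z.1 : ℕ) : ℤ), x₀) (σ.c0 j z) n' (σ.T j) TF (cl83 σ j z) Db t τ ell u D₀ Λ be g G' Qe Pe A r →
      -- the cells
      0 ≤ z.2 + σ.α₁ j → 0 ≤ z.2 + σ.α₂ j → z.2 + σ.β₁ j ≤ Γ.k + σ.c0 j z → z.2 + σ.β₂ j ≤ Γ.k + σ.c0 j z → σ.β₁ j < σ.α₂ j →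
      (∀ b, Db b ⊆ Icc 0 Γ.hi) → Disjoint (Db false) (Db true) →
      (∀ b, ∀ y ∈ Db b, y ≤ z.2 + σ.ζc j ∧ z.2 + σ.ζc j ≤ y + (n + (m + 1) : ℕ)) →
      0 ≤ z.2 + σ.ζc j → z.2 + σ.ζc j ≤ Γ.hi →
      |((z.2 + σ.ζc j : ℤ) : ℝ) - ln35 μ s (((z.1 : ℕ) : ℤ), x₀) (σ.c3 j z)| ≤ Λ * wd μ s (σ.T j) →
      -- the numbers
      Real.exp (2 * c₃ * Λ * EE μ s (σ.T j)) ≤ Mh → Real.exp ((Gx - g / 4) * EE μ s (σ.T j)) ≤ εc →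
      Real.exp ((Gx - G' / 4) * EE μ s (σ.T j)) * σ.Φ j ≤ εo →
      PshT (Icc 0 Γ.hi) (Icc 0 Γ.hi) (Icc (z.2 + σ.α₁ j) (z.2 + σ.β₁ j)) (Icc (z.2 + σ.α₂ j) (z.2 + σ.β₂ j)) (Db false) (Db true)
        (fun x y => ker (wt η) Γ.p (σ.c0 j z) n' x y / Lam12 μ s Γ.h Γ.M (σ.c0 j z) n')
        (fun x => jph (Icc 0 Γ.hi) (σ.k0 j z) (G47 μ s Γ.h η Γ.p Γ.M Γ.N (σ.c0 j z + n') n m)
          (G1_47 μ s Γ.h Γ.M Γ σ j z η (σ.c0 j z + n') n m) x / σ.Φ j)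
        (jph (Icc 0 Γ.hi) (kap31 P₁ c₁ c₃ Q₂ S₂ (EE μ s (σ.T j)) (wd μ s (σ.T j)) (ln35 μ s (((z.1 : ℕ) : ℤ), x₀) (σ.c0 j z + n'))
          (ln35 μ s (((z.1 : ℕ) : ℤ), x₀) (σ.c3 j z)) (n + (m + 1))) (G47 μ s Γ.h η Γ.p Γ.M Γ.N (σ.c0 j z + n') n m)
          (G1_47 μ s Γ.h Γ.M Γ σ j z η (σ.c0 j z + n') n m)) A A
        (Real.exp (Lx * EE μ s (σ.T j))) (σ.Φ j) Mh 1 εc εo := by
  obtain ⟨Lx, hLx, H⟩ := pshC83 h0 hell hu hD hΛ hbe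
  refine ⟨Lx, hLx, fun P₁ c₁ c₃ Q₂ S₂ hc₃ hQ₂ hS₂ => ?_⟩
  obtain ⟨cc, Gx, hcc0, hcc, hcc1, hcc2, hGx, n₁, hn₁, H1⟩ := H P₁ c₁ c₃ Q₂ S₂ hc₃ hQ₂ hS₂
  refine ⟨cc, Gx, hcc0, hcc, hcc1, hcc2, hGx, n₁, hn₁, fun Qe Pe P₂ hQe hP1 hPe hP2 => ?_⟩
  obtain ⟨Qx, hQx, H2⟩ := H1 Qe Pe P₂ hQe hP1 hPe hP2
  refine ⟨Qx, hQx, ?_⟩
  intro Γ η σ j z x₀ TF n' n m Db t τ ρ A r g G' c₁' c₃' Q₀ S₀ Mh εc εo hTF hT1 hT4 hs hh hη hN hrow hx₀ hκ hΦ hc₃' hc₃cc hQQ hS₀ hg hG' hL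
    ha1 ha2 hb1 hb2 hab hDI hdD hDb hζ0 hζ1 hζ2 hMh hε1 hε2
  have hTz : σ.T j ≤ z.1 := hη.1
  have hk0 := k0_lit83 (μ := μ) (s := s) hTz hx₀ hκ
  have hrow2 : n' + (n + (m + 1)) = 2 * σ.T j := by
    unfold NS47.c0 NS47.c3 at hrow
    omega
  have κz : ∀ x v : ℤ, ¬ (x ≤ v ∧ v ≤ x + (2 * σ.T j : ℕ)) → σ.k0 j z x v = 0 := by
    intro x v hxv
    rw [hk0]
    exact if_neg hxv
  have hp : ∀ k, k < Γ.M → Γ.p k = Real.exp (s + Γ.h) := fun k hk => by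
    unfold Cx.p
    rw [if_pos hk, hs]
  have hp' : ∀ k, Γ.M ≤ k → Γ.p k = Real.exp s := fun k hk => by
    unfold Cx.p
    rw [if_neg (by omega), hs]
  have hhn : |Γ.h| * n' ≤ 1 := by
    refine le_trans (mul_le_mul_of_nonneg_left ?_ (abs_nonneg _)) hh
    exact_mod_cast (by omega : n' ≤ 2 * σ.T j)
  have hkc : (Γ.k : ℤ) + σ.c0 j z ≤ Γ.hi := by
    unfold Cx.hi
    have : σ.c0 j z ≤ σ.c3 j z := by omega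
    omega
  have hG0 : ∀ v, 0 ≤ G47 μ s Γ.h η Γ.p Γ.M Γ.N (σ.c0 j z + n') n m v := fun v => G47_nonneg Γ.p_pos _ _ _ _ v
  have hG1 : 0 < G1_47 μ s Γ.h Γ.M Γ σ j z η (σ.c0 j z + n') n m := G1_47_pos
  have hGz : G1_47 μ s Γ.h Γ.M Γ σ j z η (σ.c0 j z + n') n m ≤ 1 * G47 μ s Γ.h η Γ.p Γ.M Γ.N (σ.c0 j z + n') n m (z.2 + σ.ζc j) := by
    rw [one_mul, G47_Fu (μ := μ) (s := s) (h := Γ.h) (M := Γ.M) (η := η) hrow]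
    exact le_rfl
  obtain ⟨cb, hcb, hoff⟩ := hL.off
  obtain ⟨ca, hca, henv⟩ := hL.env
  obtain ⟨za, hza2, hza1⟩ := hL.ra
  obtain ⟨zb, hzb2, hzb1⟩ := hL.rb
  have key := H2 (h := Γ.h) (η := η) (p := Γ.p) (M := Γ.M) (κ := (((z.1 : ℕ) : ℤ), x₀)) (T := σ.T j) (TF := TF) (i := σ.c0 j z) (n := n')
    (m := n + (m + 1)) (hi := Γ.hi) (Cb := cl83 σ j z)
    (Db := Db) (t := t) (za := za) (zb := zb) (z₀ := z.2 + σ.ζc j) (A := A) (g := g) (G' := G') (ca := ca) (cb := cb) (c₁' := c₁')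
    (c₃' := c₃') (Q₀ := Q₀) (S₀ := S₀) (cen₃ := ln35 μ s (((z.1 : ℕ) : ℤ), x₀) (σ.c3 j z)) (V := 1) (Φ₀ := σ.Φ j)
    (G₀ := G1_47 μ s Γ.h Γ.M Γ σ j z η (σ.c0 j z + n') n m) (Mh := Mh) (εc := εc) (εo := εo)
    (G := G47 μ s Γ.h η Γ.p Γ.M Γ.N (σ.c0 j z + n') n m) hTF hT1 hT4 hp hp' hhn hL.A1 hg hG' hL.low hL.up hL.crs
    (fun b x hx y _ => hoff b x hx y) hcb henv hca hza1 hza2 hzb1 hzb2 ?_ hDI ?_ hdD hL.tD hL.cC hL.cD hG0 hG1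
    (mem_Icc.2 ⟨hζ0, hζ1⟩) hζ2 hDb zero_le_one hGz (by rw [one_mul]; exact hMh) ?_ hε1 hε2 hΦ hc₃' hc₃cc hQQ hS₀
  · rw [hrow2, ← hk0] at key
    exact key
  · rintro (_ | _)
    · exact Icc_subset_Icc ha1 (hb1.trans hkc)
    · exact Icc_subset_Icc ha2 (hb2.trans hkc)
  · refine disjoint_left.2 fun x hx hx' => ?_
    have h1 := mem_Icc.1 hx
    have h2 := mem_Icc.1 hx'
    omega
  · intro b x hx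
    rw [hrow2, ← hk0]
    have hx' : x ∈ cl2 (z.2 + σ.α₁ j) (z.2 + σ.β₁ j) (z.2 + σ.α₂ j) (z.2 + σ.β₂ j) ∧ x ≤ Γ.k + σ.c0 j z := by
      unfold cl2
      rcases b with _ | _
      · exact ⟨mem_union_left _ hx, (mem_Icc.1 hx).2.trans hb1⟩
      · exact ⟨mem_union_right _ hx, (mem_Icc.1 hx).2.trans hb2⟩
    exact So47.phi01 hη κz hN hrow hx'.1 hx'.2

end

end Pool.Agent.W_7d29a1_C1.Fr47
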