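import Pool.Agent.W_7d29a1_C1.FrbS26

/-!
MP_7d29a1_pr, [C1] THE BUFFER OF THE FRESH BALL, RANK ONE OVER BOTH LANES, deterministic. (helper26)

The first kernel `M` is of rank one from each start cell to BOTH entrances of the lanes; then the cross ratio of `M F B` on ANY window
needs only the walls (`kh_crC`). Exits far from both ends (`PT26.wexC`) with their own exponent. `outC26`: `BufO26` and the exits.
-/

set_option autoImplicit false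

namespace Pool.Agent.W_7d29a1_C1.B26

open Finset
open Pool.Agent.W_7d29a1_C1.CR76 (CR)
open Pool.Agent.W_7d29a1_C1.U16 (fq16)

noncomputable section

variable {M F B : ℤ → ℤ → ℝ} {L0 L1 L2 L3 : ℤ → ℝ} {A C D C' D' : Set ℤ} {c d : ℤ}
  {lam lam' mu mu' K0 K3 K E qM hM QF kF hF G dd W W' QB kB hB qB b rho be be2 L g g2 G' G2 : ℝ}

section own

variable {S1 S2 : Finset ℤ} (h : KH26 M F B L3 A C D C' D' c d mu mu' K0 K E qM dd qB hB b rho be g G' W)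
include h

open Classical in
/-- The paths which go through none of the entrances. -/
theorem kh_offC {a : ℤ} (ha : a ∈ A) (x : ℤ) :
    ∑ u ∈ S1.filter (fun u => ¬ (u ∈ C ∨ u ∈ C')), ∑ v ∈ S2, M a u * F u v * B v x ≤
      (S1.card * S2.card : ℝ) * (Real.exp (-(G' * E)) * Nn M c W a) := by
  have hN := (h.Npos ha).le
  have hE := h.E0
  obtain ⟨q1, q2, q3, q4, q5, q6, q7⟩ := h.q0
  calc ∑ u ∈ S1.filter (fun u => ¬ (u ∈ C ∨ u ∈ C')), ∑ v ∈ S2, M a u * F u v * B v x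
      ≤ ∑ _u ∈ S1.filter (fun u => ¬ (u ∈ C ∨ u ∈ C')), ∑ _v ∈ S2, Real.exp (-(G' * E)) * Nn M c W a := by
        refine sum_le_sum fun u hu => sum_le_sum fun v _ => ?_
        rw [mem_filter] at hu
        refine (h.RW a ha u v (fun h1 => hu.2 (Or.inl h1.1)) (fun h1 => hu.2 (Or.inr h1.1)) x).trans
          (mul_le_mul_of_nonneg_right (Real.exp_le_exp.2 ?_) hN)
        have := mul_nonneg (mul_nonneg q6 (abs_nonneg (L3 x))) hE.le
        linarith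
    _ = ((S1.filter (fun u => ¬ (u ∈ C ∨ u ∈ C'))).card * S2.card : ℝ) * (Real.exp (-(G' * E)) * Nn M c W a) := by
        rw [sum_const, sum_const, nsmul_eq_mul, nsmul_eq_mul]
        ring
    _ ≤ _ := by
        refine mul_le_mul_of_nonneg_right ?_ (mul_nonneg (Real.exp_pos _).le hN)
        refine mul_le_mul_of_nonneg_right ?_ (Nat.cast_nonneg _)
        exact_mod_cast card_filter_le _ _

/-- **RANK ONE FROM THE CELL TO ANY WINDOW**, only the walls are paid. -/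
theorem kh_crC (hc : c ∈ S1) (hd : d ∈ S2) {ε τ : ℝ} (hε : 0 ≤ ε) (hτ : 0 ≤ τ)
    (hr : ∀ a ∈ A, ∀ a' ∈ A, ∀ u u' : ℤ, (u ∈ C ∨ u ∈ C') → (u' ∈ C ∨ u' ∈ C') → M a u * M a' u' ≤ (1 + ε) * (M a u' * M a' u))
    (ht : (S1.card * S2.card : ℝ) * Real.exp ((b - G') * E) ≤ τ) {a a' x x' : ℤ} (ha : a ∈ A) (ha' : a' ∈ A)
    (hx : |L3 x| ≤ K) (hx' : |L3 x'| ≤ K) :
    CR (K3k M F B S1 S2) a a' x x' ≤ (1 + τ) ^ 2 * (1 + ε) := by
  classical
  obtain ⟨Q, hQ⟩ : ∃ Q : ℤ → ℤ → ℝ, Q = fun u x => ∑ v ∈ S2, F u v * B v x := ⟨_, rfl⟩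
  have hQ0 : ∀ u x, 0 ≤ Q u x := fun u x => by rw [hQ]; exact sum_nonneg fun v _ => mul_nonneg (h.nF _ _) (h.nB _ _)
  have hKQ : ∀ a x, K3k M F B S1 S2 a x = ∑ u ∈ S1, M a u * Q u x := by
    intro a x
    unfold K3k
    rw [hQ]
    refine sum_congr rfl fun u _ => ?_
    rw [mul_sum]
    exact sum_congr rfl fun v _ => by ring
  obtain ⟨SC, hSC⟩ : ∃ S : Finset ℤ, S = S1.filter (fun u => u ∈ C ∨ u ∈ C') := ⟨_, rfl⟩
  obtain ⟨Mn, hMn⟩ : ∃ Mn : ℤ → ℤ → ℝ, Mn = fun a x => ∑ u ∈ SC, M a u * Q u x := ⟨_, rfl⟩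
  have hM0 : ∀ a x, 0 ≤ Mn a x := fun a x => by rw [hMn]; exact sum_nonneg fun u _ => mul_nonneg (h.nM _ _) (hQ0 _ _)
  have hMK : ∀ a x, Mn a x ≤ K3k M F B S1 S2 a x := fun a x => by
    rw [hKQ, hMn, hSC]
    exact sum_le_sum_of_subset_of_nonneg (filter_subset _ _) fun u _ _ => mul_nonneg (h.nM _ _) (hQ0 _ _)
  -- the main part carries everything
  have up : ∀ a ∈ A, ∀ x, |L3 x| ≤ K → K3k M F B S1 S2 a x ≤ (1 + τ) * Mn a x := by
    intro a ha x hx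
    have hN := (h.Npos ha).le
    have e1 : K3k M F B S1 S2 a x = Mn a x + ∑ u ∈ S1.filter (fun u => ¬ (u ∈ C ∨ u ∈ C')), ∑ v ∈ S2, M a u * F u v * B v x := by
      rw [hKQ, hMn, hSC, ← sum_filter_add_sum_filter_not S1 (fun u => u ∈ C ∨ u ∈ C')]
      congr 1
      refine sum_congr rfl fun u _ => ?_
      rw [hQ, mul_sum]
      exact sum_congr rfl fun v _ => by ring
    have e2 := kh_offC (S1 := S1) (S2 := S2) h ha x
    have e3 : Real.exp (-(b * E)) * Nn M c W a ≤ Mn a x := by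
      have h1 := single_le_sum (f := fun u => M a u * Q u x) (s := S1.filter (fun u => u ∈ C ∨ u ∈ C'))
        (fun u _ => mul_nonneg (h.nM _ _) (hQ0 _ _)) (mem_filter.2 ⟨hc, Or.inl h.cC⟩)
      have h2 : F c d * B d x ≤ Q c x := by
        rw [hQ]
        exact single_le_sum (f := fun v => F c v * B v x) (fun v _ => mul_nonneg (h.nF _ _) (h.nB _ _)) hd
      have h3 := mul_le_mul h.WF (h.Blo x hx) (Real.exp_pos _).le (h.nF _ _)
      have h4 := mul_le_mul_of_nonneg_left (h3.trans h2) (h.nM a c)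
      rw [hMn, hSC]
      refine le_trans ?_ h1
      unfold Nn
      linarith
    have e4 : (S1.card * S2.card : ℝ) * (Real.exp (-(G' * E)) * Nn M c W a) ≤ τ * Mn a x := by
      have h1 : Real.exp (-(G' * E)) = Real.exp ((b - G') * E) * Real.exp (-(b * E)) := by
        rw [← Real.exp_add]
        congr 1
        ring
      rw [h1]
      calc (S1.card * S2.card : ℝ) * (Real.exp ((b - G') * E) * Real.exp (-(b * E)) * Nn M c W a)
          = ((S1.card * S2.card : ℝ) * Real.exp ((b - G') * E)) * (Real.exp (-(b * E)) * Nn M c W a) := by ring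
        _ ≤ τ * (Real.exp (-(b * E)) * Nn M c W a) :=
            mul_le_mul_of_nonneg_right ht (mul_nonneg (Real.exp_pos _).le hN)
        _ ≤ τ * Mn a x := mul_le_mul_of_nonneg_left e3 hτ
    rw [e1]
    linarith
  have pos : ∀ a ∈ A, ∀ x, |L3 x| ≤ K → 0 < K3k M F B S1 S2 a x := fun a ha x hx =>
    lt_of_lt_of_le (mul_pos (h.Npos ha) (lt_of_lt_of_le (Real.exp_pos _) (h.Blo x hx))) (kh_low h hc hd a x)
  -- the main part is of rank one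
  have rk : Mn a x * Mn a' x' ≤ (1 + ε) * (Mn a x' * Mn a' x) := by
    rw [hMn]
    show (∑ u ∈ SC, M a u * Q u x) * (∑ u ∈ SC, M a' u * Q u x') ≤
      (1 + ε) * ((∑ u ∈ SC, M a u * Q u x') * ∑ u ∈ SC, M a' u * Q u x)
    rw [sum_mul_sum, sum_mul_sum]
    have e1 : ∑ u ∈ SC, ∑ v ∈ SC, M a u * Q u x' * (M a' v * Q v x) = ∑ u ∈ SC, ∑ v ∈ SC, M a v * Q v x' * (M a' u * Q u x) := sum_comm
    rw [e1, mul_sum]
    refine sum_le_sum fun u hu => ?_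
    rw [mul_sum]
    refine sum_le_sum fun v hv => ?_
    rw [hSC, mem_filter] at hu hv
    have h5 := hr a ha a' ha' u v hu.2 hv.2
    have h6 := mul_nonneg (hQ0 u x) (hQ0 v x')
    have h7 := mul_le_mul_of_nonneg_right h5 h6
    calc M a u * Q u x * (M a' v * Q v x') = M a u * M a' v * (Q u x * Q v x') := by ring
      _ ≤ (1 + ε) * (M a v * M a' u) * (Q u x * Q v x') := h7
      _ = _ := by ring
  have p1 := pos a ha x' hx'
  have p2 := pos a' ha' x hx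
  have k1 := up a ha x hx
  have k2 := up a' ha' x' hx'
  unfold CR
  rw [div_le_iff₀ (mul_pos p1 p2)]
  have g1 : K3k M F B S1 S2 a x * K3k M F B S1 S2 a' x' ≤ (1 + τ) * Mn a x * ((1 + τ) * Mn a' x') :=
    mul_le_mul k1 k2 ((hM0 _ _).trans (hMK _ _)) (mul_nonneg (by linarith) (hM0 _ _))
  have g2 : Mn a x' * Mn a' x ≤ K3k M F B S1 S2 a x' * K3k M F B S1 S2 a' x := mul_le_mul (hMK _ _) (hMK _ _) (hM0 _ _) p1.le
  calc K3k M F B S1 S2 a x * K3k M F B S1 S2 a' x' ≤ (1 + τ) * Mn a x * ((1 + τ) * Mn a' x') := g1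
    _ = (1 + τ) ^ 2 * (Mn a x * Mn a' x') := by ring
    _ ≤ (1 + τ) ^ 2 * ((1 + ε) * (Mn a x' * Mn a' x)) := mul_le_mul_of_nonneg_left rk (by positivity)
    _ ≤ (1 + τ) ^ 2 * ((1 + ε) * (K3k M F B S1 S2 a x' * K3k M F B S1 S2 a' x)) :=
        mul_le_mul_of_nonneg_left (mul_le_mul_of_nonneg_left g2 (by linarith)) (by positivity)
    _ = _ := by ring

end own

/-! ### The exits -/

/-- Weighted sums of the ends which are far from both lanes. -/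
theorem PT26.wexC {Kr : ℤ → ℤ → ℝ} {L3 : ℤ → ℝ} {A : Set ℤ} {mu mu' E W ell g G' be hB : ℝ} (h : PT26 Kr L3 A mu mu' E W ell g G' be hB)
    {gx R : ℝ} (hR : 3 * R ≤ Real.exp E) {S3 X : Finset ℤ} (hS3 : (S3.card : ℝ) ≤ R) {y : ℤ} (hy : y ∈ A)
    (hz : ∀ x : ℤ, x ∉ S3 → Kr y x = 0) (hG : gx + 1 ≤ G')
    (hX : ∀ x ∈ X, ell + be * |L3 x| + gx + 1 ≤ hB * |L3 x - mu|) (hX' : ∀ x ∈ X, be * |L3 x| + gx + 1 ≤ g + hB * |L3 x - mu'|) :
    ∑ x ∈ X, Kr y x * Real.exp (be * |L3 x| * E) ≤ Real.exp (-(gx * E)) * W := by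
  classical
  have hE := h.E0
  have hW := h.W0
  have e1 : ∑ x ∈ X, Kr y x * Real.exp (be * |L3 x| * E) = ∑ x ∈ X.filter (fun x => x ∈ S3), Kr y x * Real.exp (be * |L3 x| * E) := by
    symm
    refine sum_subset (filter_subset _ _) fun x hx hx' => ?_
    have hx3 : x ∉ S3 := fun hcon => hx' (mem_filter.2 ⟨hx, hcon⟩)
    rw [hz x hx3, zero_mul]
  have hcd : (((X.filter (fun x => x ∈ S3)).card : ℕ) : ℝ) ≤ R := by
    refine le_trans ?_ hS3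
    exact_mod_cast card_le_card fun x hx => (mem_filter.1 hx).2
  have key : ∀ x ∈ X.filter (fun x => x ∈ S3), Kr y x * Real.exp (be * |L3 x| * E) ≤ 3 * Real.exp (-((gx + 1) * E)) * W := by
    intro x hx
    have hx' := hX x (mem_filter.1 hx).1
    have hx'' := hX' x (mem_filter.1 hx).1
    have h1 := mul_le_mul_of_nonneg_right (h.pt y hy x) (Real.exp_pos (be * |L3 x| * E)).le
    refine h1.trans ?_
    have h2 : Real.exp ((ell - hB * |L3 x - mu|) * E) * Real.exp (be * |L3 x| * E) ≤ Real.exp (-((gx + 1) * E)) := by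
      rw [← Real.exp_add, ← add_mul]
      refine Real.exp_le_exp.2 ?_
      rw [← neg_mul]
      refine mul_le_mul_of_nonneg_right ?_ hE.le
      linarith
    have h3 : Real.exp ((-G' - be * |L3 x|) * E) * Real.exp (be * |L3 x| * E) ≤ Real.exp (-((gx + 1) * E)) := by
      rw [← Real.exp_add, ← add_mul]
      refine Real.exp_le_exp.2 ?_
      rw [← neg_mul]
      refine mul_le_mul_of_nonneg_right ?_ hE.le
      linarith
    have h4 : Real.exp ((-g - hB * |L3 x - mu'|) * E) * Real.exp (be * |L3 x| * E) ≤ Real.exp (-((gx + 1) * E)) := by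
      rw [← Real.exp_add, ← add_mul]
      refine Real.exp_le_exp.2 ?_
      rw [← neg_mul]
      refine mul_le_mul_of_nonneg_right ?_ hE.le
      linarith
    calc (Real.exp ((ell - hB * |L3 x - mu|) * E) + Real.exp ((-g - hB * |L3 x - mu'|) * E) + Real.exp ((-G' - be * |L3 x|) * E)) * W *
          Real.exp (be * |L3 x| * E)
        = (Real.exp ((ell - hB * |L3 x - mu|) * E) * Real.exp (be * |L3 x| * E) +
          Real.exp ((-g - hB * |L3 x - mu'|) * E) * Real.exp (be * |L3 x| * E) +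
          Real.exp ((-G' - be * |L3 x|) * E) * Real.exp (be * |L3 x| * E)) * W := by ring
      _ ≤ _ := mul_le_mul_of_nonneg_right (by linarith) hW.le
  rw [e1]
  calc ∑ x ∈ X.filter (fun x => x ∈ S3), Kr y x * Real.exp (be * |L3 x| * E)
      ≤ ∑ _x ∈ X.filter (fun x => x ∈ S3), 3 * Real.exp (-((gx + 1) * E)) * W := sum_le_sum key
    _ = ((X.filter (fun x => x ∈ S3)).card : ℝ) * (3 * Real.exp (-((gx + 1) * E)) * W) := by rw [sum_const, nsmul_eq_mul]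
    _ ≤ R * (3 * Real.exp (-((gx + 1) * E)) * W) := mul_le_mul_of_nonneg_right hcd (by positivity)
    _ = 3 * R * (Real.exp (-((gx + 1) * E)) * W) := by ring
    _ ≤ Real.exp E * (Real.exp (-((gx + 1) * E)) * W) := mul_le_mul_of_nonneg_right hR (by positivity)
    _ = _ := by
        rw [← mul_assoc, ← Real.exp_add]
        congr 2
        ring

/-- The exits, far from the lanes on both sides, every start cell. -/
def ExW26 (Kr : ℤ → ℤ → ℝ) (L3 : ℤ → ℝ) (u : Bool → ℤ) (R E Kx A gx be : ℝ) : Prop :=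
  ∀ (i : Bool) (y : ℤ), |(y : ℝ) - u i| ≤ R → ∀ X : Finset ℤ, (∀ x ∈ X, Kx ≤ |L3 x|) →
    ∑ x ∈ X, Kr y x * Real.exp (be * |L3 x| * E) ≤ Real.exp (-(gx * E)) * A

/-- **The output of the whole buffer, two exponents of the exits.** -/
structure BT26 (Kr : ℤ → ℤ → ℝ) (L0 L3 : ℤ → ℝ) (E : ℝ) (u : Bool → ℤ) (mu : Bool → ℝ) (R K Kx del A δ ell ellw Kc be g gx G' hB : ℝ)
    (P : ℕ) (Q hh : ℝ) : Prop extends BO26 Kr L0 L3 E u mu R K Kx del A δ ell ellw Kc be g G' hB P Q hh where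
  exw : ∀ (i : Bool) (y : ℤ), |(y : ℝ) - u i| ≤ R → ∀ X : Finset ℤ, (∀ x ∈ X, Kx ≤ |L3 x|) →
    ∑ x ∈ X, Kr y x * Real.exp (be * |L3 x| * E) ≤ Real.exp (-(gx * E)) * A

/-- **THE OUTPUT OF THE BUFFER**, rank one over both lanes. -/
theorem outC26 {A1 A2 C1 C2 D1 D2 : Set ℤ} {c1 c2 d1 d2 : ℤ} {mu1 mu2 W1 W2 : ℝ} {S1 S2 S3 : Finset ℤ}
    (h1 : KH26 M F B L3 A1 C1 D1 C2 D2 c1 d1 mu1 mu2 K0 K E qM dd qB hB b rho be g G' W1)
    (h2 : KH26 M F B L3 A2 C2 D2 C1 D1 c2 d2 mu2 mu1 K0 K E qM dd qB hB b rho be g G' W2)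
    (hWa : W2 ≤ Real.exp (dd * E) * W1) (hWb : W1 ≤ Real.exp (dd * E) * W2)
    {b' Kx sg R g' G1 go gx ell ell0 : ℝ} (hc1 : c1 ∈ S1) (hd1 : d1 ∈ S2) (hc2 : c2 ∈ S1) (hd2 : d2 ∈ S2)
    (hR : (S1.card * S2.card : ℝ) ≤ R) (hR3 : (S3.card : ℝ) ≤ R) (hRE : 3 * R ≤ Real.exp E) (hE2 : 3 ≤ Real.exp E)
    (hl : 3 * qM + 2 * dd + qB + hB * rho + 1 ≤ ell) (hl2 : b' + qM + dd ≤ ell + 1) (hl0 : b + qM + dd ≤ ell0)
    (hgg : g' + qM + dd + 1 ≤ g) (hGG : G1 + qM + dd + 1 ≤ G') (hgo : go + 1 + be * K0 ≤ g') (hGo : go + 1 ≤ G1) (hGx : gx + 1 ≤ G1)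
    (hgo0 : 0 ≤ go) (hgx : go ≤ gx)
    (hex : ell + hB * K0 + gx + 1 ≤ (hB - be) * Kx) (hsp : ell + be * K0 + go + 1 ≤ (hB - be) * sg)
    (hS1 : ∀ y ∈ A1, ∀ x : ℤ, x ∉ S3 → K3k M F B S1 S2 y x = 0) (hS2 : ∀ y ∈ A2, ∀ x : ℤ, x ∉ S3 → K3k M F B S1 S2 y x = 0) {Kc : ℝ}
    (hb1 : ∀ x : ℤ, |L3 x - mu1| ≤ Kc → Real.exp (-(b' * E)) ≤ B d1 x)
    (hb2 : ∀ x : ℤ, |L3 x - mu2| ≤ Kc → Real.exp (-(b' * E)) ≤ B d2 x)
    {ε τ δ : ℝ} (hε : 0 ≤ ε) (hτ : 0 ≤ τ)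
    (hr1 : ∀ a ∈ A1, ∀ a' ∈ A1, ∀ u u' : ℤ, (u ∈ C1 ∨ u ∈ C2) → (u' ∈ C1 ∨ u' ∈ C2) → M a u * M a' u' ≤ (1 + ε) * (M a u' * M a' u))
    (hr2 : ∀ a ∈ A2, ∀ a' ∈ A2, ∀ u u' : ℤ, (u ∈ C1 ∨ u ∈ C2) → (u' ∈ C1 ∨ u' ∈ C2) → M a u * M a' u' ≤ (1 + ε) * (M a u' * M a' u))
    (ht : (S1.card * S2.card : ℝ) * Real.exp ((b - G') * E) ≤ τ) (hδ : (1 + τ) ^ 2 * (1 + ε) ≤ 1 + δ) :
    (∀ a1 b1 a2 b2 xa xb s0 : ℤ, a1 ≤ b1 → a2 ≤ b2 → (∀ y : ℤ, a1 ≤ y → y ≤ b1 → y ∈ A1) → (∀ y : ℤ, a2 ≤ y → y ≤ b2 → y ∈ A2) →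
      xa ≤ xb → (∀ x : ℤ, xa ≤ x → x ≤ xb → |L3 x| ≤ K) → (∀ x : ℤ, x < xa → Kx ≤ |L3 x|) → (∀ x : ℤ, xb < x → Kx ≤ |L3 x|) →
      (∀ x : ℤ, s0 < x → sg ≤ |L3 x - mu1|) → (∀ x : ℤ, x ≤ s0 → sg ≤ |L3 x - mu2|) →
      BufO26 (K3k M F B S1 S2) L3 E mu1 mu2 a1 b1 a2 b2 xa xb s0 W1 δ (ell + 1) ell0 Kc be go) ∧
    (∀ y, y ∈ A1 ∨ y ∈ A2 → ∀ X : Finset ℤ, (∀ x ∈ X, Kx ≤ |L3 x|) →
      ∑ x ∈ X, K3k M F B S1 S2 y x * Real.exp (be * |L3 x| * E) ≤ Real.exp (-(gx * E)) * W1) := by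
  have hE := h1.E0
  have hW1 := h1.W0
  obtain ⟨q1, q2, q3, q4, q5, q6, q7⟩ := h1.q0
  have hWc : W1 ≤ Real.exp (dd * E) * W1 := by
    have : (1 : ℝ) ≤ Real.exp (dd * E) := Real.one_le_exp (mul_nonneg q2 hE.le)
    nlinarith
  have pt1 : ∀ y ∈ A1, ∀ x : ℤ, _ := fun y hy x => kh_pt (S1 := S1) (S2 := S2) h1 hR hRE hWc hl hgg hGG hy x
  have pt2 : ∀ y ∈ A2, ∀ x : ℤ, _ := fun y hy x => kh_pt (S1 := S1) (S2 := S2) h2 hR hRE hWa hl hgg hGG hy x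
  have nn : ∀ y x, 0 ≤ K3k M F B S1 S2 y x := fun y x => by
    unfold K3k
    exact sum_nonneg fun u _ => sum_nonneg fun v _ => mul_nonneg (mul_nonneg (h1.nM _ _) (h1.nF _ _)) (h1.nB _ _)
  have P1 : PT26 (K3k M F B S1 S2) L3 A1 mu1 mu2 E W1 ell g' G1 be hB := ⟨hE, hW1, nn, pt1, q6, h1.n3⟩
  have P2 : PT26 (K3k M F B S1 S2) L3 A2 mu2 mu1 E W1 ell g' G1 be hB := ⟨hE, hW1, nn, pt2, q6, h1.n3⟩
  have hell : 0 ≤ ell := by
    have := mul_nonneg q4 q5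
    linarith
  have hbK : 0 ≤ be * K0 := mul_nonneg q6 q7
  -- lower bounds
  have low : ∀ {A : Set ℤ} {C D C' D' : Set ℤ} {c d : ℤ} {mu mu' W : ℝ}
      (h : KH26 M F B L3 A C D C' D' c d mu mu' K0 K E qM dd qB hB b rho be g G' W)
      (_ : W1 ≤ Real.exp (dd * E) * W) (_ : c ∈ S1) (_ : d ∈ S2) (t e : ℝ) (y x : ℤ), y ∈ A → t + qM + dd ≤ e →
      Real.exp (-(t * E)) ≤ B d x → Real.exp (-(e * E)) * W1 ≤ K3k M F B S1 S2 y x := by
    intro A C D C' D' c d mu mu' W h hW hc hd t e y x hy hte hx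
    have g0 : Real.exp (-((qM + dd) * E)) * W1 ≤ Nn M c W y := by
      refine le_trans ?_ (h.Nge hy)
      have g1 := mul_le_mul_of_nonneg_left hW (Real.exp_pos (-((qM + dd) * E))).le
      refine g1.trans (le_of_eq ?_)
      rw [← mul_assoc, ← Real.exp_add]
      congr 2
      ring
    have g1 := mul_le_mul g0 hx (Real.exp_pos _).le (h.Npos hy).le
    refine le_trans ?_ (g1.trans (kh_low h hc hd y x))
    rw [mul_assoc, mul_comm W1, ← mul_assoc, ← Real.exp_add]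
    refine mul_le_mul_of_nonneg_right (Real.exp_le_exp.2 ?_) hW1.le
    have := mul_le_mul_of_nonneg_right hte hE.le
    linarith
  have ex : ∀ {A : Set ℤ} {mu mu' : ℝ}, PT26 (K3k M F B S1 S2) L3 A mu mu' E W1 ell g' G1 be hB → |mu| ≤ K0 → |mu'| ≤ K0 →
      (∀ y ∈ A, ∀ x : ℤ, x ∉ S3 → K3k M F B S1 S2 y x = 0) → ∀ y ∈ A, ∀ X : Finset ℤ, (∀ x ∈ X, Kx ≤ |L3 x|) →
      ∑ x ∈ X, K3k M F B S1 S2 y x * Real.exp (be * |L3 x| * E) ≤ Real.exp (-(gx * E)) * W1 := by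
    intro A mu mu' P hm hm' hS y hy X hX
    have far : ∀ x ∈ X, ∀ m : ℝ, |m| ≤ K0 → ell + be * |L3 x| + gx + 1 ≤ hB * |L3 x - m| := by
      intro x hx m hm0
      have g1 := hX x hx
      have g2 := abs_sub_abs_le_abs_sub (L3 x) m
      have g3 : hB * (|L3 x| - K0) ≤ hB * |L3 x - m| := mul_le_mul_of_nonneg_left (by linarith) q4
      have g4 : (hB - be) * Kx ≤ (hB - be) * |L3 x| := mul_le_mul_of_nonneg_left g1 (by linarith [h1.n3])
      linarith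
    refine P.wexC hRE hR3 hy (hS y hy) hGx (fun x hx => far x hx mu hm) fun x hx => ?_
    have := far x hx mu' hm'
    linarith
  have sp : ∀ {A : Set ℤ} {mu mu' : ℝ}, PT26 (K3k M F B S1 S2) L3 A mu mu' E W1 ell g' G1 be hB → |mu| ≤ K0 → |mu'| ≤ K0 →
      (∀ y ∈ A, ∀ x : ℤ, x ∉ S3 → K3k M F B S1 S2 y x = 0) → ∀ y ∈ A, ∀ X : Finset ℤ, (∀ x ∈ X, sg ≤ |L3 x - mu|) →
      ∑ x ∈ X, K3k M F B S1 S2 y x * Real.exp (be * |L3 x| * E) ≤ Real.exp (-(go * E)) * W1 := by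
    intro A mu mu' P hm hm' hS y hy X hX
    have hgm : go + 1 + be * |mu'| ≤ g' := by linarith [mul_le_mul_of_nonneg_left hm' q6]
    refine P.wex hRE hR3 hy (hS y hy) hgm hGo fun x hx => ?_
    have g1 := hX x hx
    have g2 : |L3 x| ≤ |L3 x - mu| + K0 := by
      have := abs_add_le (L3 x - mu) mu
      rw [sub_add_cancel] at this
      linarith
    have g3 : be * |L3 x| ≤ be * (|L3 x - mu| + K0) := mul_le_mul_of_nonneg_left g2 q6
    have g4 : (hB - be) * sg ≤ (hB - be) * |L3 x - mu| := mul_le_mul_of_nonneg_left g1 (by linarith [h1.n3])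
    linarith
  have exo : ∀ {S : ℝ}, S ≤ Real.exp (-(gx * E)) * W1 → S ≤ Real.exp (-(go * E)) * W1 := fun {S} hS => by
    refine hS.trans (mul_le_mul_of_nonneg_right (Real.exp_le_exp.2 ?_) hW1.le)
    have := mul_le_mul_of_nonneg_right hgx hE.le
    linarith
  refine ⟨fun a1 b1 a2 b2 xa xb s0 ha1 ha2 hy1 hy2 hxx hwin hxa hxb hs1 hs2 => ?_, fun y hy X hX => ?_⟩
  · refine ⟨?_, ?_, fun y g1 g2 x hx => ?_, fun y g1 g2 x hx => ?_, fun y hy x g1 g2 => ?_, fun y hy x => ?_,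
      fun y hy X hX => ?_, fun y hy X hX => ?_, fun y g1 g2 X hX => ?_, fun y g1 g2 X hX => ?_⟩
    · exact (kh_crC h1 hc1 hd1 hε hτ hr1 ht (hy1 _ le_rfl ha1) (hy1 _ ha1 le_rfl) (hwin _ le_rfl hxx) (hwin _ hxx le_rfl)).trans hδ
    · exact (kh_crC h2 hc2 hd2 hε hτ (fun a ha a' ha' u u' hu hu' => hr2 a ha a' ha' u u' hu.symm hu'.symm) ht (hy2 _ le_rfl ha2)
        (hy2 _ ha2 le_rfl) (hwin _ le_rfl hxx) (hwin _ hxx le_rfl)).trans hδ
    · exact low h1 hWc hc1 hd1 b' (ell + 1) y x (hy1 y g1 g2) hl2 (hb1 x hx)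
    · exact low h2 hWb hc2 hd2 b' (ell + 1) y x (hy2 y g1 g2) hl2 (hb2 x hx)
    · rcases hy with hy | hy
      · exact low h1 hWc hc1 hd1 b ell0 y x (hy1 y hy.1 hy.2) hl0 (h1.Blo x (hwin x g1 g2))
      · exact low h2 hWb hc2 hd2 b ell0 y x (hy2 y hy.1 hy.2) hl0 (h2.Blo x (hwin x g1 g2))
    · rcases hy with hy | hy
      · exact P1.up (by linarith) (by linarith) hE2 (hy1 y hy.1 hy.2) x
      · exact P2.up (by linarith) (by linarith) hE2 (hy2 y hy.1 hy.2) x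
    · rcases hy with hy | hy
      · exact exo (ex P1 h1.mK h1.mK' hS1 y (hy1 y hy.1 hy.2) X fun x hx => hxa x (hX x hx))
      · exact exo (ex P2 h2.mK h2.mK' hS2 y (hy2 y hy.1 hy.2) X fun x hx => hxa x (hX x hx))
    · rcases hy with hy | hy
      · exact exo (ex P1 h1.mK h1.mK' hS1 y (hy1 y hy.1 hy.2) X fun x hx => hxb x (hX x hx))
      · exact exo (ex P2 h2.mK h2.mK' hS2 y (hy2 y hy.1 hy.2) X fun x hx => hxb x (hX x hx))
    · exact sp P1 h1.mK h1.mK' hS1 y (hy1 y g1 g2) X fun x hx => hs1 x (hX x hx)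
    · exact sp P2 h2.mK h2.mK' hS2 y (hy2 y g1 g2) X fun x hx => hs2 x (hX x hx)
  · rcases hy with hy | hy
    · exact ex P1 h1.mK h1.mK' hS1 y hy X hX
    · exact ex P2 h2.mK h2.mK' hS2 y hy X hX

end

end Pool.Agent.W_7d29a1_C1.B26
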