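import Pool.Agent.W_7d29a1_C1.Lev16

/-!
MP_7d29a1_pr, [C1] attractor route, THE LEVELS OF ALL THE LATERAL BOXES AT ONCE. (helper16)

`Far16 μ s c θ K n N P b q`: for every `m : ℤ` the box of `N` rows, half width `K wd n`, foot at the lateral distance `m wd n` from
`b`, has a level at most `q (1 + log (1 + |m|)) ^ P`. `far_prob`: `P` can be chosen such that the complement has probability at most
`A exp (- a q ^ g)`, for `n ≥ n₁`, any base point. `far_V`, `far_W`, `far_low`: the envelope of the kernels at every place of the rows.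
-/

set_option autoImplicit false

namespace Pool.Agent.W_7d29a1_C1.U16

open MeasureTheory ProbabilityTheory Filter Topology Finset
open Pool.Agent.W_7d29a1_F Pool.Agent.W_7d29a1_h4g Pool.Agent.W_7d29a1_H Pool.Agent.W_7d29a1_HS
open Pool.Agent.W_7d29a1_C1.H75

noncomputable section

variable {μ : Measure ℝ} {s : ℝ} [IsProbabilityMeasure μ] {c C : ℝ} {n₀ : ℕ}

/-- The factor of the level at the lateral distance `x` (in widths). -/
def fq16 (P : ℕ) (x : ℝ) : ℝ := (1 + Real.log (1 + |x|)) ^ P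

theorem fq16_one (P : ℕ) (x : ℝ) : 1 ≤ fq16 P x := by
  unfold fq16
  refine one_le_pow₀ ?_
  have : 0 ≤ Real.log (1 + |x|) := Real.log_nonneg (by linarith [abs_nonneg x])
  linarith

theorem fq16_mono {P : ℕ} {x y : ℝ} (hxy : |x| ≤ |y|) : fq16 P x ≤ fq16 P y := by
  unfold fq16
  have h0 : 0 ≤ Real.log (1 + |x|) := Real.log_nonneg (by linarith [abs_nonneg x])
  refine pow_le_pow_left₀ (by linarith) ?_ P
  have := Real.log_le_log (by linarith [abs_nonneg x]) (show 1 + |x| ≤ 1 + |y| by linarith)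
  linarith

/-- The foot of the box at the lateral distance `m`. -/
def ft16 (μ : Measure ℝ) (s : ℝ) (n : ℕ) (b : Pt) (m : ℤ) : Pt := (b.1, b.2 + ⌊(m : ℝ) * wd μ s n⌋)

def Far16 (μ : Measure ℝ) (s c θ K : ℝ) (n N P : ℕ) (b : Pt) (q : ℝ) : Set Env :=
  {η | ∀ m : ℤ, η ∈ LevS μ s c θ n (bx16 μ s (ft16 μ s n b m) N (K * wd μ s n)) (q * fq16 P m)}

omit [IsProbabilityMeasure μ] in
theorem Far16_meas (θ K : ℝ) (n N P : ℕ) (b : Pt) (q : ℝ) : MeasurableSet (Far16 μ s c θ K n N P b q) := by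
  have e : Far16 μ s c θ K n N P b q = ⋂ m : ℤ, LevS μ s c θ n (bx16 μ s (ft16 μ s n b m) N (K * wd μ s n)) (q * fq16 P m) := by
    ext η
    simp only [Set.mem_iInter]
    exact Iff.rfl
  rw [e]
  exact MeasurableSet.iInter fun _ => LevS_meas _ _ _ _

omit [IsProbabilityMeasure μ] in
theorem Far16_mono {θ K q q' : ℝ} (hq : q ≤ q') (n N P : ℕ) (b : Pt) : Far16 μ s c θ K n N P b q ⊆ Far16 μ s c θ K n N P b q' :=
  fun _ hη m => LevS_mono (mul_le_mul_of_nonneg_right hq (zero_le_one.trans (fq16_one P m))) (hη m)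

/-- The event reads only the rows `(b.1, b.1 + N]`. -/
theorem Far16_rows {θ K q : ℝ} {n N P : ℕ} {b : Pt} {η η' : Env} (hh : ∀ p ∈ rows b.1 (b.1 + N), η p = η' p) :
    η ∈ Far16 μ s c θ K n N P b q ↔ η' ∈ Far16 μ s c θ K n N P b q :=
  forall_congr' fun m => LevS_rows (lo := b.1) (hi := b.1 + N) (fun _ hp => ⟨hp.1, hp.2.1⟩) hh

/-- THE PROBABILITY. -/
theorem far_prob (h : In μ s c C n₀) {K θ : ℝ} (hK : 0 < K) (hθ : 0 < θ) (hθ1 : θ ≤ 1) : ∃ (P : ℕ) (A a g : ℝ), 0 < A ∧ 0 < a ∧ 0 < g ∧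
    g ≤ 1 ∧ ∃ n₁ : ℕ, 1 ≤ n₁ ∧ ∀ n : ℕ, n₁ ≤ n → ∀ N : ℕ, N ≤ n → ∀ (b : Pt) (q : ℝ), 0 ≤ q →
      (law μ).real (Far16 μ s c θ K n N P b q)ᶜ ≤ A * Real.exp (-(a * q ^ g)) := by
  obtain ⟨A, a, g, hA, ha, hg, hg1, n₁, hn1, H⟩ := lev_prob h hK hθ hθ1
  obtain ⟨P, hP⟩ := exists_nat_ge (1 / g)
  have hPg : 1 ≤ (P : ℝ) * g := by rwa [div_le_iff₀ hg] at hP
  obtain ⟨q₀, hq₀⟩ : ∃ q₀ : ℝ, q₀ = (2 / a) ^ (1 / g) := ⟨_, rfl⟩
  have hq00 : 0 < q₀ := by rw [hq₀]; positivity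
  have hsum : Summable fun k : ℕ => (1 : ℝ) / ((k : ℝ) + 1) ^ 2 := by
    have h1 := (summable_nat_add_iff (f := fun k : ℕ => (1 : ℝ) / (k : ℝ) ^ 2) 1).2 (Real.summable_one_div_nat_pow.2 (by norm_num))
    refine h1.congr fun k => ?_
    push_cast
    rfl
  obtain ⟨S, hS⟩ : ∃ S : ℝ, S = ∑' k : ℕ, (1 : ℝ) / ((k : ℝ) + 1) ^ 2 := ⟨_, rfl⟩
  have hS0 : 0 ≤ S := by rw [hS]; exact tsum_nonneg fun k => by positivity
  refine ⟨P, Real.exp (a * q₀ ^ g) + 2 * A * S, a, g, by positivity, ha, hg, hg1, n₁, hn1, fun n hn N hN b q hq => ?_⟩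
  rcases le_total q q₀ with hqq | hqq
  · have h1 : (law μ).real (Far16 μ s c θ K n N P b q)ᶜ ≤ 1 := measureReal_le_one
    have h2 : (1 : ℝ) ≤ Real.exp (a * q₀ ^ g) * Real.exp (-(a * q ^ g)) := by
      rw [← Real.exp_add]
      refine Real.one_le_exp ?_
      have := Real.rpow_le_rpow hq hqq hg.le
      nlinarith
    have h3 : 0 ≤ 2 * A * S * Real.exp (-(a * q ^ g)) := by positivity
    linarith
  · have hqa : 2 ≤ a * q ^ g := by
      have h1 : q₀ ^ g = 2 / a := by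
        rw [hq₀, ← Real.rpow_mul (by positivity)]
        have : 1 / g * g = 1 := by field_simp
        rw [this, Real.rpow_one]
      have h2 := Real.rpow_le_rpow hq00.le hqq hg.le
      rw [h1, div_le_iff₀ ha] at h2
      linarith
    -- one box
    have hone : ∀ m : ℤ, (law μ).real (LevS μ s c θ n (bx16 μ s (ft16 μ s n b m) N (K * wd μ s n)) (q * fq16 P m))ᶜ ≤
        A * Real.exp (-(a * q ^ g)) * (1 / (|(m : ℝ)| + 1) ^ 2) := by
      intro m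
      have f1 := fq16_one P (m : ℝ)
      refine (H n hn N hN (ft16 μ s n b m) _ subset_rfl (q * fq16 P m) (by positivity)).trans ?_
      rw [mul_assoc]
      refine mul_le_mul_of_nonneg_left ?_ hA.le
      obtain ⟨l, hl⟩ : ∃ l : ℝ, l = Real.log (1 + |(m : ℝ)|) := ⟨_, rfl⟩
      have hl0 : 0 ≤ l := by rw [hl]; exact Real.log_nonneg (by linarith [abs_nonneg (m : ℝ)])
      have h1 : (q * fq16 P m) ^ g = q ^ g * (fq16 P m) ^ g := Real.mul_rpow hq (by linarith)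
      have h2 : 1 + l ≤ (fq16 P m) ^ g := by
        unfold fq16
        rw [← hl, ← Real.rpow_natCast, ← Real.rpow_mul (by linarith)]
        calc 1 + l = (1 + l) ^ (1 : ℝ) := (Real.rpow_one _).symm
          _ ≤ (1 + l) ^ ((P : ℝ) * g) := Real.rpow_le_rpow_of_exponent_le (by linarith) hPg
      have h3 : a * q ^ g + 2 * l ≤ a * (q * fq16 P m) ^ g := by
        rw [h1]
        have h4 : 0 ≤ a * q ^ g := by linarith
        nlinarith [mul_le_mul_of_nonneg_left h2 h4, mul_le_mul_of_nonneg_right hqa hl0]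
      have h5 : (1 : ℝ) / (|(m : ℝ)| + 1) ^ 2 = Real.exp (-(2 * l)) := by
        have h6 : (0 : ℝ) < 1 + |(m : ℝ)| := by linarith [abs_nonneg (m : ℝ)]
        have h7 : Real.exp l = 1 + |(m : ℝ)| := by rw [hl]; exact Real.exp_log h6
        have h8 : Real.exp (-(2 * l)) = (Real.exp l ^ 2)⁻¹ := by
          rw [Real.exp_neg, ← Real.exp_nat_mul]
          congr 2
        rw [h8, h7, one_div, add_comm]
      rw [h5, ← Real.exp_add]
      exact Real.exp_le_exp.2 (by linarith)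
    -- the union
    have hsub : (Far16 μ s c θ K n N P b q)ᶜ ⊆ ⋃ k : ℕ,
        ((LevS μ s c θ n (bx16 μ s (ft16 μ s n b (k : ℤ)) N (K * wd μ s n)) (q * fq16 P ((k : ℤ) : ℝ)))ᶜ ∪
        (LevS μ s c θ n (bx16 μ s (ft16 μ s n b (-(k : ℤ))) N (K * wd μ s n)) (q * fq16 P ((-(k : ℤ) : ℤ) : ℝ)))ᶜ) := by
      intro η hη
      have hη' : ∃ m : ℤ, η ∉ LevS μ s c θ n (bx16 μ s (ft16 μ s n b m) N (K * wd μ s n)) (q * fq16 P m) := by
        by_contra hcon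
        push Not at hcon
        exact hη hcon
      obtain ⟨m, hm⟩ := hη'
      rw [Set.mem_iUnion]
      rcases Int.eq_nat_or_neg m with ⟨k, hk | hk⟩
      · exact ⟨k, Or.inl (by rw [← hk]; exact hm)⟩
      · exact ⟨k, Or.inr (by rw [← hk]; exact hm)⟩
    have hreal : ∀ k : ℕ, (law μ) (((LevS μ s c θ n (bx16 μ s (ft16 μ s n b (k : ℤ)) N (K * wd μ s n)) (q * fq16 P ((k : ℤ) : ℝ)))ᶜ ∪
        (LevS μ s c θ n (bx16 μ s (ft16 μ s n b (-(k : ℤ))) N (K * wd μ s n)) (q * fq16 P ((-(k : ℤ) : ℤ) : ℝ)))ᶜ)) ≤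
        ENNReal.ofReal (2 * (A * Real.exp (-(a * q ^ g))) * (1 / ((k : ℝ) + 1) ^ 2)) := by
      intro k
      rw [← ENNReal.ofReal_toReal (measure_ne_top (law μ) _)]
      refine ENNReal.ofReal_le_ofReal ?_
      refine (measureReal_union_le _ _).trans ?_
      have h1 := hone (k : ℤ)
      have h2 := hone (-(k : ℤ))
      have e1 : |(((k : ℤ)) : ℝ)| = k := by simp
      have e2 : |(((-(k : ℤ) : ℤ)) : ℝ)| = k := by simp
      rw [e1] at h1
      rw [e2] at h2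
      linarith
    have hsum2 : Summable fun k : ℕ => 2 * (A * Real.exp (-(a * q ^ g))) * ((1 : ℝ) / ((k : ℝ) + 1) ^ 2) := hsum.mul_left _
    have h1 : (law μ) (Far16 μ s c θ K n N P b q)ᶜ ≤ ENNReal.ofReal (2 * (A * Real.exp (-(a * q ^ g))) * S) := by
      refine (measure_mono hsub).trans ((measure_iUnion_le _).trans ((ENNReal.tsum_le_tsum hreal).trans ?_))
      rw [← ENNReal.ofReal_tsum_of_nonneg (fun k => by positivity) hsum2, tsum_mul_left, hS]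
    have h2 : (law μ).real (Far16 μ s c θ K n N P b q)ᶜ ≤ 2 * (A * Real.exp (-(a * q ^ g))) * S :=
      ENNReal.toReal_le_of_le_ofReal (by positivity) h1
    have h3 : 0 ≤ Real.exp (a * q₀ ^ g) * Real.exp (-(a * q ^ g)) := by positivity
    linarith

/-! ### The envelope -/

/-- The lateral coordinate. -/
def lat16 (μ : Measure ℝ) (s : ℝ) (b p : Pt) : ℝ := ((p.2 - b.2 : ℤ) : ℝ) - sl μ s * ((p.1 - b.1 : ℤ) : ℝ)

omit [IsProbabilityMeasure μ] in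
/-- Every site is in a box. -/
theorem far_box {K : ℝ} {n N : ℕ} (hw : 1 ≤ wd μ s n) (b p : Pt) (h1 : b.1 ≤ p.1) (h2 : p.1 ≤ b.1 + N) : ∃ m : ℤ,
    |(m : ℝ)| ≤ |lat16 μ s b p| / wd μ s n + 1 ∧ ∀ (j : ℕ) (y : ℤ), p.1 + j ≤ b.1 + N → |(y : ℝ) - sl μ s * j| ≤ (K - 2) * wd μ s n →
      (p.1 + (j : ℤ), p.2 + y) ∈ bx16 μ s (ft16 μ s n b m) N (K * wd μ s n) := by
  have hw0 : 0 < wd μ s n := by linarith
  obtain ⟨x, hx⟩ : ∃ x : ℝ, x = lat16 μ s b p := ⟨_, rfl⟩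
  obtain ⟨m, hm⟩ : ∃ m : ℤ, m = ⌊x / wd μ s n⌋ := ⟨_, rfl⟩
  have m1 : (m : ℝ) ≤ x / wd μ s n := by rw [hm]; exact Int.floor_le _
  have m2 : x / wd μ s n < m + 1 := by rw [hm]; exact Int.lt_floor_add_one _
  have m3 : (m : ℝ) * wd μ s n ≤ x := by rwa [le_div_iff₀ hw0] at m1
  have m4 : x < (m + 1) * wd μ s n := by rwa [div_lt_iff₀ hw0] at m2
  refine ⟨m, ?_, fun j y h3 h4 => ⟨?_, ?_, ?_⟩⟩
  · have e0 : |x| / wd μ s n = |x / wd μ s n| := by rw [abs_div, abs_of_pos hw0]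
    rw [← hx, e0, abs_le]
    have := neg_abs_le (x / wd μ s n)
    have := le_abs_self (x / wd μ s n)
    constructor <;> linarith
  · show b.1 ≤ p.1 + j
    omega
  · exact h3
  · have f1 := Int.floor_le ((m : ℝ) * wd μ s n)
    have f2 := Int.lt_floor_add_one ((m : ℝ) * wd μ s n)
    have e : (((p.2 + y) - (b.2 + ⌊(m : ℝ) * wd μ s n⌋) : ℤ) : ℝ) - sl μ s * (((p.1 + (j : ℤ)) - b.1 : ℤ) : ℝ) =
        (x - (⌊(m : ℝ) * wd μ s n⌋ : ℝ)) + ((y : ℝ) - sl μ s * j) := by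
      rw [hx]
      unfold lat16
      push_cast
      ring
    show |(((p.2 + y) - (b.2 + ⌊(m : ℝ) * wd μ s n⌋) : ℤ) : ℝ) - sl μ s * (((p.1 + (j : ℤ)) - b.1 : ℤ) : ℝ)| ≤ K * wd μ s n
    rw [e]
    have h5 : |x - (⌊(m : ℝ) * wd μ s n⌋ : ℝ)| ≤ 2 * wd μ s n := by
      rw [abs_le]
      constructor <;> linarith
    exact (abs_add_le _ _).trans (by linarith)

section Env

variable {θ K q : ℝ} {n N P : ℕ} {b : Pt} {η : Env}

omit [IsProbabilityMeasure μ] in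
theorem far_lev (hq : 0 ≤ q) (hw : 1 ≤ wd μ s n) (hη : η ∈ Far16 μ s c θ K n N P b q) (hK : 3 ≤ K) {p : Pt} (h1 : b.1 ≤ p.1)
    (h2 : p.1 ≤ b.1 + N) : ∃ m : ℤ, η ∈ LevS μ s c θ n (bx16 μ s (ft16 μ s n b m) N (K * wd μ s n))
      (q * fq16 P (|lat16 μ s b p| / wd μ s n + 1)) ∧ p ∈ bx16 μ s (ft16 μ s n b m) N (K * wd μ s n) ∧
      ∀ (j : ℕ) (y : ℤ), p.1 + j ≤ b.1 + N → |(y : ℝ) - sl μ s * j| ≤ (K - 2) * wd μ s n →
        (p.1 + (j : ℤ), p.2 + y) ∈ bx16 μ s (ft16 μ s n b m) N (K * wd μ s n) := by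
  have hw0 : 0 < wd μ s n := by linarith
  obtain ⟨m, hm, hbox⟩ := far_box (μ := μ) (s := s) (K := K) (n := n) (N := N) hw b p h1 h2
  refine ⟨m, LevS_mono (mul_le_mul_of_nonneg_left (fq16_mono ?_) hq) (hη m), ?_, hbox⟩
  · have h3 : 0 ≤ |lat16 μ s b p| / wd μ s n + 1 := by positivity
    rw [abs_of_nonneg h3]
    exact hm
  · have h3 := hbox 0 0 (by simpa using h2) (by
      simp only [Int.cast_zero, Nat.cast_zero, mul_zero, sub_zero, abs_zero]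
      exact mul_nonneg (by linarith) hw0.le)
    simpa using h3

/-- UP at every place. -/
theorem far_V (hq : 0 ≤ q) (hw : 1 ≤ wd μ s n) (hη : η ∈ Far16 μ s c θ K n N P b q) (hK : 3 ≤ K) {p : Pt} {j : ℕ}
    (h1 : b.1 ≤ p.1) (h2 : p.1 + j ≤ b.1 + N) :
    V μ s η p j ≤ q * fq16 P (|lat16 μ s b p| / wd μ s n + 1) * EE μ s n := by
  obtain ⟨m, hL, hp, hbox⟩ := far_lev hq hw hη hK h1 (by omega)
  have f1 := fq16_one P (|lat16 μ s b p| / wd μ s n + 1)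
  have f2 := Int.floor_le (sl μ s * j)
  have f3 := Int.lt_floor_add_one (sl μ s * j)
  have hf : |((⌊sl μ s * (j : ℝ)⌋ : ℤ) : ℝ) - sl μ s * j| ≤ (K - 2) * wd μ s n := by
    rw [abs_le]
    constructor <;> nlinarith
  exact lev_V (by positivity) hL hp (hbox j _ h2 hf)

/-- One displacement at every place. -/
theorem far_W (hq : 0 ≤ q) (hw : 1 ≤ wd μ s n) (hη : η ∈ Far16 μ s c θ K n N P b q) (hK : 3 ≤ K) {p : Pt} {j : ℕ}
    (h1 : b.1 ≤ p.1) (h2 : p.1 + j ≤ b.1 + N) (y : ℤ) :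
    W μ s η p j y ≤ Real.exp (q * fq16 P (|lat16 μ s b p| / wd μ s n + 1) * EE μ s n - hc μ s c n * |(y : ℝ) - sl μ s * j|) := by
  obtain ⟨m, hL, hp, hbox⟩ := far_lev hq hw hη hK h1 (by omega)
  have f1 := fq16_one P (|lat16 μ s b p| / wd μ s n + 1)
  have f2 := Int.floor_le (sl μ s * j)
  have f3 := Int.lt_floor_add_one (sl μ s * j)
  have hf : |((⌊sl μ s * (j : ℝ)⌋ : ℤ) : ℝ) - sl μ s * j| ≤ (K - 2) * wd μ s n := by
    rw [abs_le]
    constructor <;> nlinarith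
  exact lev_W (by positivity) hL hp (hbox j _ h2 hf) y

/-- The mass of the far displacements, from every place. -/
theorem far_far (h : In μ s c C n₀) (hq : 0 ≤ q) (hw : 1 ≤ wd μ s n) (hη : η ∈ Far16 μ s c θ K n N P b q) (hK : 3 ≤ K) {p : Pt} {j : ℕ}
    (h1 : b.1 ≤ p.1) (h2 : p.1 + j ≤ b.1 + N) {ρ : ℝ} (A : Finset ℤ) (hA : ∀ y ∈ A, ρ ≤ |(y : ℝ) - sl μ s * j|) :
    WS μ s η p j A ≤ 2 * Real.exp (q * fq16 P (|lat16 μ s b p| / wd μ s n + 1) * EE μ s n - hc μ s c n * ρ) := by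
  obtain ⟨m, hL, hp, hbox⟩ := far_lev hq hw hη hK h1 (by omega)
  have f1 := fq16_one P (|lat16 μ s b p| / wd μ s n + 1)
  have f2 := Int.floor_le (sl μ s * j)
  have f3 := Int.lt_floor_add_one (sl μ s * j)
  have hf : |((⌊sl μ s * (j : ℝ)⌋ : ℤ) : ℝ) - sl μ s * j| ≤ (K - 2) * wd μ s n := by
    rw [abs_le]
    constructor <;> nlinarith
  exact lev_far h (by positivity) hL hp (hbox j _ h2 hf) A hA

end Env

/-- DOWN at every place: pairs at row distance at least `θ n` and lateral distance at most `(K - 2) wd n`. -/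
theorem far_low (h : In μ s c C n₀) {K θ : ℝ} (hK : 3 ≤ K) (hθ : 0 < θ) : ∃ n₁ : ℕ, ∀ n : ℕ, n₁ ≤ n → ∀ (N P : ℕ) (b : Pt) (q : ℝ) (η : Env),
    0 ≤ q → η ∈ Far16 μ s c θ K n N P b q → ∀ (p : Pt) (j : ℕ) (y : ℤ), b.1 ≤ p.1 → p.1 + j ≤ b.1 + N → θ * n ≤ j →
      |(y : ℝ) - sl μ s * j| ≤ (K - 2) * wd μ s n →
      Real.exp (-(q * fq16 P (|lat16 μ s b p| / wd μ s n + 1) * EE μ s n)) ≤ W μ s η p j y := by
  obtain ⟨n₁, hn₁⟩ := box_cone h (show 0 < K by linarith) hθ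
  obtain ⟨n₂, hn₂⟩ := eventually_atTop.1 ((wd_tendsto h).eventually_ge_atTop 1)
  refine ⟨max n₁ n₂, fun n hn N P b q η hq hη p j y h1 h2 h3 h4 => ?_⟩
  have hw : 1 ≤ wd μ s n := hn₂ n ((le_max_right _ _).trans hn)
  obtain ⟨m, hL, hp, hbox⟩ := far_lev hq hw hη hK h1 (by omega)
  have f1 := fq16_one P (|lat16 μ s b p| / wd μ s n + 1)
  have hp' := hbox j y h2 h4
  obtain ⟨c1, c2⟩ := hn₁ n ((le_max_left _ _).trans hn) _ N p j y hp hp' h3
  exact lev_low (by positivity) hL hp hp' h3 c1 c2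

end

end Pool.Agent.W_7d29a1_C1.U16
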