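import Pool.Agent.W_7d29a1_C1.KerP16
import Pool.Agent.W_7d29a1_C1.LevF16
import Pool.Agent.W_7d29a1_HS.Tg

/-!
MP_7d29a1_pr, [C1] attractor route, THE LEVELS OF THE COMPOSITE KERNELS. (helper16)

`K1 = exp (- h sl m) CW` (force `h` on the first `m` rows, none on the last `n'` rows, `|h| wd n ≤ (c/4) EE n`). On `Far16` at the scale
`n`: `comp_up`: `K1 y ≤ exp (C₅ (1 + q)² (1 + log (1 + D))^(2P) EE n - (hc/2) |y - sl (m + n')|)` for every `y`, from every place;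
`comp_low`: `exp (- C₅ (1 + q)² (..)^(2P) EE n) ≤ K1 y` for `θ n ≤ m + n'`, `|y - sl (m + n')| ≤ (K - 2) wd n`.
-/

set_option autoImplicit false

namespace Pool.Agent.W_7d29a1_C1.U16

open MeasureTheory ProbabilityTheory Filter Topology Finset
open Pool.Agent.W_7d29a1_F Pool.Agent.W_7d29a1_h4g Pool.Agent.W_7d29a1_H Pool.Agent.W_7d29a1_HS
open Pool.Agent.W_7d29a1_C1.H75

noncomputable section

/-! ### Numbers -/

theorem fq16_mul (P : ℕ) {x d : ℝ} (hx : 0 ≤ x) (hd : 0 ≤ d) : fq16 P (x + d) ≤ fq16 P x * fq16 P d := by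
  unfold fq16
  rw [abs_of_nonneg hx, abs_of_nonneg hd, abs_of_nonneg (add_nonneg hx hd), ← mul_pow]
  have h1 : 0 ≤ Real.log (1 + x) := Real.log_nonneg (by linarith)
  have h2 : 0 ≤ Real.log (1 + d) := Real.log_nonneg (by linarith)
  have h3 : 0 ≤ Real.log (1 + (x + d)) := Real.log_nonneg (by linarith)
  refine pow_le_pow_left₀ (by linarith) ?_ P
  have h4 : Real.log (1 + (x + d)) ≤ Real.log (1 + x) + Real.log (1 + d) := by
    rw [← Real.log_mul (by linarith) (by linarith)]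
    exact Real.log_le_log (by linarith) (by nlinarith)
  nlinarith

theorem fq16_two (P : ℕ) (x : ℝ) : fq16 P x * fq16 P x = fq16 (2 * P) x := by
  unfold fq16
  rw [← pow_add]
  congr 1
  ring

theorem fq16_sqrt (P : ℕ) : ∃ M : ℝ, 1 ≤ M ∧ ∀ d : ℝ, 0 ≤ d → fq16 P d ≤ M * Real.sqrt (1 + d) := by
  obtain ⟨M, hM, H⟩ := pow_exp (q := P) (b := 1) (c' := 1 / 2) one_pos (by norm_num)
  refine ⟨max 1 (M * Real.exp (1 / 2)), le_max_left _ _, fun d hd => ?_⟩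
  obtain ⟨l, hl⟩ : ∃ l : ℝ, l = Real.log (1 + d) := ⟨_, rfl⟩
  have hl0 : 0 ≤ l := by rw [hl]; exact Real.log_nonneg (by linarith)
  have h1 := H (1 + l) (by linarith)
  rw [Real.rpow_one, Real.exp_neg, ← div_eq_mul_inv, div_le_iff₀ (Real.exp_pos _)] at h1
  have h2 : Real.sqrt (1 + d) = Real.exp (l / 2) := by
    have e : 1 + d = Real.exp (l / 2) ^ 2 := by
      rw [← Real.exp_nat_mul]
      push_cast
      have : 2 * (l / 2) = l := by ring
      rw [this, hl, Real.exp_log (by linarith)]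
    rw [e, Real.sqrt_sq (Real.exp_pos _).le]
  have h3 : Real.exp (1 / 2 * (1 + l)) = Real.exp (1 / 2) * Real.exp (l / 2) := by
    rw [← Real.exp_add]
    congr 1
    ring
  unfold fq16
  rw [abs_of_nonneg hd, ← hl, h2]
  rw [h3] at h1
  have h4 := Real.exp_pos (l / 2)
  calc (1 + l) ^ P ≤ M * (Real.exp (1 / 2) * Real.exp (l / 2)) := h1
    _ = (M * Real.exp (1 / 2)) * Real.exp (l / 2) := by ring
    _ ≤ _ := mul_le_mul_of_nonneg_right (le_max_right _ _) h4.le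

/-- The growth of the level against the linear cost. -/
theorem fq16_pay (P : ℕ) {ε : ℝ} (hε : 0 < ε) : ∃ C : ℝ, 0 < C ∧ ∀ A d : ℝ, 0 ≤ A → 0 ≤ d → A * fq16 P d ≤ ε * d + C * (1 + A) ^ 2 := by
  obtain ⟨M, hM, H⟩ := fq16_sqrt P
  refine ⟨ε + M ^ 2 / ε, by positivity, fun A d hA hd => ?_⟩
  have h1 := H d hd
  have h2 := Real.sq_sqrt (show 0 ≤ 1 + d by linarith)
  have h3 := Real.sqrt_nonneg (1 + d)
  obtain ⟨r, hr⟩ : ∃ r : ℝ, r = Real.sqrt (1 + d) := ⟨_, rfl⟩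
  rw [← hr] at h1 h2 h3
  have h4 : A * fq16 P d ≤ A * (M * r) := mul_le_mul_of_nonneg_left h1 hA
  have h5 : A * (M * r) ≤ ε * r ^ 2 + (A * M) ^ 2 / ε := by
    rw [← sub_nonneg]
    have e : ε * r ^ 2 + (A * M) ^ 2 / ε - A * (M * r) = ((ε * r - A * M / 2) ^ 2 + 3 / 4 * (A * M) ^ 2) / ε := by
      field_simp
      ring
    rw [e]
    positivity
  have h6 : A ^ 2 ≤ (1 + A) ^ 2 := by nlinarith
  have h7 : (A * M) ^ 2 / ε ≤ M ^ 2 / ε * (1 + A) ^ 2 := by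
    rw [mul_pow]
    have e : A ^ 2 * M ^ 2 / ε = M ^ 2 / ε * A ^ 2 := by ring
    rw [e]
    exact mul_le_mul_of_nonneg_left h6 (by positivity)
  have h8 : ε ≤ ε * (1 + A) ^ 2 := by nlinarith
  calc A * fq16 P d ≤ ε * (1 + d) + (A * M) ^ 2 / ε := by rw [← h2]; linarith
    _ ≤ ε * d + (ε + M ^ 2 / ε) * (1 + A) ^ 2 := by linarith

/-! ### The composite kernel -/

variable {μ : Measure ℝ} {s : ℝ} [IsProbabilityMeasure μ] {c C : ℝ} {n₀ : ℕ}

/-- The normalised composite kernel. -/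
def K1 (μ : Measure ℝ) (s h : ℝ) (η : Env) (a : Pt) (m n' : ℕ) (y : ℤ) : ℝ := Real.exp (-(h * sl μ s * m)) * CW μ s h η a m n' y

omit [IsProbabilityMeasure μ] in
theorem K1_eq (h : ℝ) (η : Env) (a : Pt) (m n' : ℕ) (y : ℤ) : K1 μ s h η a m n' y =
    ∑ z ∈ Icc (0 : ℤ) m, Real.exp (h * ((z : ℝ) - sl μ s * m)) * W μ s η a m z * W μ s η (a.1 + m, a.2 + z) n' (y - z) := by
  unfold K1 CW
  rw [mul_sum]
  refine sum_congr rfl fun z _ => ?_
  have e : Real.exp (h * ((z : ℝ) - sl μ s * m)) = Real.exp (-(h * sl μ s * m)) * Real.exp (h * z) := by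
    rw [← Real.exp_add]
    congr 1
    ring
  rw [e]
  ring

/-- One term of the composite kernel. -/
theorem term16 (h0 : In μ s c C n₀) (P : ℕ) : ∃ C₃ : ℝ, 0 < C₃ ∧ ∀ {θ K q h : ℝ} {n N : ℕ} {b : Pt} {η : Env}, 0 ≤ q → 1 ≤ wd μ s n →
    η ∈ Far16 μ s c θ K n N P b q → 3 ≤ K → |h| * wd μ s n ≤ c / 4 * EE μ s n → ∀ (a : Pt) (m n' : ℕ) (y z : ℤ), b.1 ≤ a.1 →
      a.1 + m + n' ≤ b.1 + N →
      Real.exp (h * ((z : ℝ) - sl μ s * m)) * W μ s η a m z * W μ s η (a.1 + m, a.2 + z) n' (y - z) ≤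
        Real.exp (C₃ * (1 + q) ^ 2 * fq16 (2 * P) (|lat16 μ s b a| / wd μ s n + 1) * EE μ s n - c / 8 * EE μ s n * (|(z : ℝ) - sl μ s * m| / wd μ s n)
          - hc μ s c n / 2 * |(y : ℝ) - sl μ s * ((m + n' : ℕ) : ℝ)|) := by
  have hc0 := h0.c0
  obtain ⟨C₂, hC₂, H⟩ := fq16_pay P (ε := c / 8) (by positivity)
  refine ⟨4 * C₂ + 1, by positivity, ?_⟩
  intro θ K q h n N b η hq hw hη hK hh a m n' y z h1 h2
  have hw0 : 0 < wd μ s n := by linarith
  have hE := EE_pos (μ := μ) (s := s) n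
  have hcw : hc μ s c n * wd μ s n = c * EE μ s n := by
    unfold hc
    exact div_mul_cancel₀ _ hw0.ne'
  have hc1 : 0 ≤ hc μ s c n := hc_nonneg h0 n
  obtain ⟨D, hD⟩ : ∃ D : ℝ, D = |lat16 μ s b a| / wd μ s n + 1 := ⟨_, rfl⟩
  obtain ⟨u, hu⟩ : ∃ u : ℝ, u = |(z : ℝ) - sl μ s * m| := ⟨_, rfl⟩
  obtain ⟨v, hv⟩ : ∃ v : ℝ, v = |((y - z : ℤ) : ℝ) - sl μ s * n'| := ⟨_, rfl⟩
  obtain ⟨d, hd⟩ : ∃ d : ℝ, d = u / wd μ s n := ⟨_, rfl⟩
  have hu0 : 0 ≤ u := by rw [hu]; exact abs_nonneg _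
  have hd0 : 0 ≤ d := by rw [hd]; positivity
  have hD0 : 0 ≤ D := by rw [hD]; positivity
  have hud : u = d * wd μ s n := by rw [hd, div_mul_cancel₀ _ hw0.ne']
  have fD := fq16_one P D
  have fd := fq16_one P d
  have w1 := far_W hq hw hη hK h1 (show a.1 + m ≤ b.1 + N by omega) z
  have w2 := far_W hq hw hη hK (p := (a.1 + (m : ℤ), a.2 + z)) (j := n') (show b.1 ≤ a.1 + m by omega) (by show a.1 + m + n' ≤ b.1 + N; exact h2) (y - z)
  rw [← hD, ← hu] at w1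
  rw [← hv] at w2
  -- the place of the middle point
  have hlat : |lat16 μ s b (a.1 + (m : ℤ), a.2 + z)| ≤ |lat16 μ s b a| + u := by
    have e : lat16 μ s b (a.1 + (m : ℤ), a.2 + z) = lat16 μ s b a + ((z : ℝ) - sl μ s * m) := by
      unfold lat16
      push_cast
      ring
    rw [e, hu]
    exact abs_add_le _ _
  have hf2 : fq16 P (|lat16 μ s b (a.1 + (m : ℤ), a.2 + z)| / wd μ s n + 1) ≤ fq16 P D * fq16 P d := by
    refine le_trans (fq16_mono ?_) (fq16_mul P hD0 hd0)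
    have g1 : 0 ≤ |lat16 μ s b (a.1 + (m : ℤ), a.2 + z)| / wd μ s n + 1 := by positivity
    rw [abs_of_nonneg g1, abs_of_nonneg (by linarith : 0 ≤ D + d), hD, hd]
    have g2 := div_le_div_of_nonneg_right hlat hw0.le
    rw [add_div] at g2
    linarith
  -- the exponent
  have x1 : h * ((z : ℝ) - sl μ s * m) ≤ c / 4 * EE μ s n * d := by
    have g1 : h * ((z : ℝ) - sl μ s * m) ≤ |h| * u := by
      rw [hu, ← abs_mul]
      exact le_abs_self _
    rw [hud] at g1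
    have g2 := mul_le_mul_of_nonneg_left hh hd0
    nlinarith
  have x2 : hc μ s c n * u = c * EE μ s n * d := by
    rw [hud, ← hcw]
    ring
  have x3 : |(y : ℝ) - sl μ s * ((m + n' : ℕ) : ℝ)| ≤ u + v := by
    have e : (y : ℝ) - sl μ s * ((m + n' : ℕ) : ℝ) = ((z : ℝ) - sl μ s * m) + (((y - z : ℤ) : ℝ) - sl μ s * n') := by
      push_cast
      ring
    rw [e, hu, hv]
    exact abs_add_le _ _
  have x4 : hc μ s c n / 2 * |(y : ℝ) - sl μ s * ((m + n' : ℕ) : ℝ)| ≤ hc μ s c n / 2 * u + hc μ s c n * v := by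
    have g1 := mul_le_mul_of_nonneg_left x3 (show 0 ≤ hc μ s c n / 2 by linarith)
    have g2 : 0 ≤ hc μ s c n * v := mul_nonneg hc1 (by rw [hv]; exact abs_nonneg _)
    linarith
  have x5 := H (q * fq16 P D) d (by positivity) hd0
  have x6 : (1 + q * fq16 P D) ^ 2 ≤ (1 + q) ^ 2 * fq16 (2 * P) D := by
    have g1 : 1 + q * fq16 P D ≤ (1 + q) * fq16 P D := by nlinarith
    calc (1 + q * fq16 P D) ^ 2 ≤ ((1 + q) * fq16 P D) ^ 2 := pow_le_pow_left₀ (by positivity) g1 2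
      _ = _ := by rw [mul_pow, ← fq16_two]; ring
  have x7 : q * fq16 P D ≤ (1 + q) ^ 2 * fq16 (2 * P) D := by
    have g1 : fq16 P D ≤ fq16 (2 * P) D := by rw [← fq16_two]; nlinarith
    have g2 : 0 ≤ fq16 (2 * P) D := by linarith
    nlinarith [mul_le_mul_of_nonneg_left g1 hq]
  calc Real.exp (h * ((z : ℝ) - sl μ s * m)) * W μ s η a m z * W μ s η (a.1 + m, a.2 + z) n' (y - z)
      ≤ Real.exp (c / 4 * EE μ s n * d) * Real.exp (q * fq16 P D * EE μ s n - hc μ s c n * u) *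
        Real.exp (q * (fq16 P D * fq16 P d) * EE μ s n - hc μ s c n * v) := by
        refine mul_le_mul (mul_le_mul (Real.exp_le_exp.2 x1) w1 (W_nonneg _ _ _ _) (Real.exp_pos _).le) (w2.trans (Real.exp_le_exp.2 ?_))
          (W_nonneg _ _ _ _) (by positivity)
        have g1 := mul_le_mul_of_nonneg_right (mul_le_mul_of_nonneg_left hf2 hq) hE.le
        linarith
    _ = Real.exp (c / 4 * EE μ s n * d + (q * fq16 P D * EE μ s n - hc μ s c n * u) +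
        (q * (fq16 P D * fq16 P d) * EE μ s n - hc μ s c n * v)) := by rw [Real.exp_add, Real.exp_add]
    _ ≤ _ := by
        refine Real.exp_le_exp.2 ?_
        rw [← hD, ← hu, ← hd]
        have g1 : q * (fq16 P D * fq16 P d) * EE μ s n ≤ (c / 8 * d + C₂ * ((1 + q) ^ 2 * fq16 (2 * P) D)) * EE μ s n := by
          refine mul_le_mul_of_nonneg_right ?_ hE.le
          have g2 := mul_le_mul_of_nonneg_left x6 hC₂.le
          linarith
        have g2 : q * fq16 P D * EE μ s n ≤ (1 + q) ^ 2 * fq16 (2 * P) D * EE μ s n := mul_le_mul_of_nonneg_right x7 hE.le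
        have g3 : 0 ≤ (1 + q) ^ 2 * fq16 (2 * P) D * EE μ s n := by
          have := fq16_one (2 * P) D
          positivity
        have g4 : 0 ≤ C₂ * ((1 + q) ^ 2 * fq16 (2 * P) D * EE μ s n) := by positivity
        nlinarith

/-- The number of the terms. -/
theorem card16 (h0 : In μ s c C n₀) : ∃ n₁ : ℕ, ∀ n : ℕ, n₁ ≤ n → (n : ℝ) + 1 ≤ Real.exp (EE μ s n) := by
  obtain ⟨n₁, H⟩ := lgo h0 (δ := 1 / 2) (by norm_num)
  refine ⟨max n₁ 2, fun n hn => ?_⟩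
  have hn1 : 2 ≤ n := (le_max_right _ _).trans hn
  have hnR : (2 : ℝ) ≤ n := by exact_mod_cast hn1
  have h1 := H n ((le_max_left _ _).trans hn)
  have h2 := one_le_EE (μ := μ) (s := s) n
  have h3 : Real.log n + 1 / 2 ≤ EE μ s n := by linarith
  have h4 : (n : ℝ) * Real.exp (1 / 2) ≤ Real.exp (EE μ s n) := by
    calc (n : ℝ) * Real.exp (1 / 2) = Real.exp (Real.log n + 1 / 2) := by rw [Real.exp_add, Real.exp_log (by linarith)]
      _ ≤ _ := Real.exp_le_exp.2 h3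
  have h5 := Real.add_one_le_exp (1 / 2 : ℝ)
  nlinarith

/-- THE UPPER LEVEL of the composite kernels. -/
theorem comp_up (h0 : In μ s c C n₀) (P : ℕ) : ∃ C₄ : ℝ, 0 < C₄ ∧ ∃ n₁ : ℕ, ∀ {θ K q h : ℝ} {n N : ℕ} {b : Pt} {η : Env}, n₁ ≤ n → N ≤ n →
    0 ≤ q → η ∈ Far16 μ s c θ K n N P b q → 3 ≤ K → |h| * wd μ s n ≤ c / 4 * EE μ s n → ∀ (a : Pt) (m n' : ℕ), b.1 ≤ a.1 →
      a.1 + m + n' ≤ b.1 + N →
      (∀ y : ℤ, K1 μ s h η a m n' y ≤ Real.exp (C₄ * (1 + q) ^ 2 * fq16 (2 * P) (|lat16 μ s b a| / wd μ s n + 1) * EE μ s n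
          - hc μ s c n / 2 * |(y : ℝ) - sl μ s * ((m + n' : ℕ) : ℝ)|)) ∧
      ∑ y ∈ Icc (0 : ℤ) ((m + n' : ℕ) : ℤ), K1 μ s h η a m n' y ≤
        Real.exp (C₄ * (1 + q) ^ 2 * fq16 (2 * P) (|lat16 μ s b a| / wd μ s n + 1) * EE μ s n) := by
  obtain ⟨C₃, hC₃, H⟩ := term16 h0 P
  obtain ⟨n₁, hn₁⟩ := card16 h0
  obtain ⟨n₂, hn₂⟩ := eventually_atTop.1 ((wd_tendsto h0).eventually_ge_atTop 1)
  refine ⟨C₃ + 2, by positivity, max n₁ n₂, ?_⟩
  intro θ K q h n N b η hn hN hq hη hK hh a m n' h1 h2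
  have hw : 1 ≤ wd μ s n := hn₂ n ((le_max_right _ _).trans hn)
  have hcard := hn₁ n ((le_max_left _ _).trans hn)
  have hw0 : 0 < wd μ s n := by linarith
  have hE := EE_pos (μ := μ) (s := s) n
  have hc0 := h0.c0
  have hc1 : 0 ≤ hc μ s c n := hc_nonneg h0 n
  obtain ⟨F, hF⟩ : ∃ F : ℝ, F = (1 + q) ^ 2 * fq16 (2 * P) (|lat16 μ s b a| / wd μ s n + 1) := ⟨_, rfl⟩
  have hF1 : 1 ≤ F := by
    rw [hF]
    have g1 := fq16_one (2 * P) (|lat16 μ s b a| / wd μ s n + 1)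
    have g2 : (1 : ℝ) ≤ (1 + q) ^ 2 := by nlinarith
    nlinarith
  have e1 : ∀ c' : ℝ, c' * (1 + q) ^ 2 * fq16 (2 * P) (|lat16 μ s b a| / wd μ s n + 1) = c' * F := by
    intro c'
    rw [hF]
    ring
  rw [e1]
  have hup : ∀ y : ℤ, K1 μ s h η a m n' y ≤ Real.exp ((C₃ + 1) * F * EE μ s n - hc μ s c n / 2 * |(y : ℝ) - sl μ s * ((m + n' : ℕ) : ℝ)|) := by
    intro y
    rw [K1_eq]
    have g1 : ∀ z ∈ Icc (0 : ℤ) m, Real.exp (h * ((z : ℝ) - sl μ s * m)) * W μ s η a m z * W μ s η (a.1 + m, a.2 + z) n' (y - z) ≤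
        Real.exp (C₃ * F * EE μ s n - hc μ s c n / 2 * |(y : ℝ) - sl μ s * ((m + n' : ℕ) : ℝ)|) := by
      intro z _
      refine (H hq hw hη hK hh a m n' y z h1 h2).trans (Real.exp_le_exp.2 ?_)
      rw [e1]
      have g2 : 0 ≤ c / 8 * EE μ s n * (|(z : ℝ) - sl μ s * m| / wd μ s n) := by positivity
      linarith
    refine (sum_le_sum g1).trans ?_
    rw [sum_const, nsmul_eq_mul, Int.card_Icc]
    have g3 : ((((m : ℤ) + 1 - 0).toNat : ℕ) : ℝ) ≤ Real.exp (EE μ s n) := by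
      refine le_trans ?_ hcard
      have g4 : ((m : ℤ) + 1 - 0).toNat ≤ n + 1 := by omega
      exact_mod_cast g4
    calc _ ≤ Real.exp (EE μ s n) * Real.exp (C₃ * F * EE μ s n - hc μ s c n / 2 * |(y : ℝ) - sl μ s * ((m + n' : ℕ) : ℝ)|) :=
          mul_le_mul_of_nonneg_right g3 (Real.exp_pos _).le
      _ = Real.exp (EE μ s n + (C₃ * F * EE μ s n - hc μ s c n / 2 * |(y : ℝ) - sl μ s * ((m + n' : ℕ) : ℝ)|)) := by rw [← Real.exp_add]
      _ ≤ _ := Real.exp_le_exp.2 (by nlinarith)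
  refine ⟨fun y => (hup y).trans (Real.exp_le_exp.2 (by nlinarith)), ?_⟩
  have g1 : ∀ y ∈ Icc (0 : ℤ) ((m + n' : ℕ) : ℤ), K1 μ s h η a m n' y ≤ Real.exp ((C₃ + 1) * F * EE μ s n) := by
    intro y _
    refine (hup y).trans (Real.exp_le_exp.2 ?_)
    have g2 : 0 ≤ hc μ s c n / 2 * |(y : ℝ) - sl μ s * ((m + n' : ℕ) : ℝ)| := by positivity
    linarith
  refine (sum_le_sum g1).trans ?_
  rw [sum_const, nsmul_eq_mul, Int.card_Icc]
  have g3 : (((((m + n' : ℕ) : ℤ) + 1 - 0).toNat : ℕ) : ℝ) ≤ Real.exp (EE μ s n) := by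
    refine le_trans ?_ hcard
    have g4 : (((m + n' : ℕ) : ℤ) + 1 - 0).toNat ≤ n + 1 := by omega
    exact_mod_cast g4
  calc _ ≤ Real.exp (EE μ s n) * Real.exp ((C₃ + 1) * F * EE μ s n) := mul_le_mul_of_nonneg_right g3 (Real.exp_pos _).le
    _ = Real.exp (EE μ s n + (C₃ + 1) * F * EE μ s n) := by rw [← Real.exp_add]
    _ ≤ _ := Real.exp_le_exp.2 (by nlinarith)

/-- THE LOWER LEVEL of the composite kernels. -/
theorem comp_low (h0 : In μ s c C n₀) (P : ℕ) {K θ : ℝ} (hK : 3 ≤ K) (hθ : 0 < θ) : ∃ C₅ : ℝ, 0 < C₅ ∧ ∃ n₁ : ℕ, ∀ {q h : ℝ} {n N : ℕ} {b : Pt}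
    {η : Env}, n₁ ≤ n → N ≤ n → 0 ≤ q → η ∈ Far16 μ s c θ K n N P b q → |h| * wd μ s n ≤ c / 4 * EE μ s n →
      ∀ (a : Pt) (m n' : ℕ) (y : ℤ), b.1 ≤ a.1 → a.1 + m + n' ≤ b.1 + N → θ * n ≤ ((m + n' : ℕ) : ℝ) →
      |(y : ℝ) - sl μ s * ((m + n' : ℕ) : ℝ)| ≤ (K - 2) * wd μ s n →
      Real.exp (-(C₅ * (1 + q) ^ 2 * fq16 (2 * P) (|lat16 μ s b a| / wd μ s n + 1) * EE μ s n)) ≤ K1 μ s h η a m n' y := by
  obtain ⟨C₃, hC₃, H⟩ := term16 h0 P
  obtain ⟨n₁, hn₁⟩ := card16 h0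
  obtain ⟨n₂, hn₂⟩ := eventually_atTop.1 ((wd_tendsto h0).eventually_ge_atTop 1)
  obtain ⟨n₃, hn₃⟩ := far_low h0 hK hθ
  refine ⟨2 * C₃ + 8, by positivity, max n₁ (max n₂ n₃), ?_⟩
  intro q h n N b η hn hN hq hη hh a m n' y h1 h2 h3 h4
  have hw : 1 ≤ wd μ s n := hn₂ n (((le_max_left _ _).trans (le_max_right _ _)).trans hn)
  have hcard := hn₁ n ((le_max_left _ _).trans hn)
  have hlow := hn₃ n (((le_max_right _ _).trans (le_max_right _ _)).trans hn) N P b q η hq hη a (m + n') y h1 (by push_cast; omega) h3 h4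
  have hw0 : 0 < wd μ s n := by linarith
  have hE := EE_pos (μ := μ) (s := s) n
  have hE1 := one_le_EE (μ := μ) (s := s) n
  have hc0 := h0.c0
  have hc1 : 0 ≤ hc μ s c n := hc_nonneg h0 n
  obtain ⟨D, hD⟩ : ∃ D : ℝ, D = |lat16 μ s b a| / wd μ s n + 1 := ⟨_, rfl⟩
  rw [← hD] at hlow ⊢
  have fD := fq16_one P D
  have fD2 := fq16_one (2 * P) D
  obtain ⟨F, hF⟩ : ∃ F : ℝ, F = (1 + q) ^ 2 * fq16 (2 * P) D := ⟨_, rfl⟩
  have hF1 : 1 ≤ F := by
    rw [hF]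
    have g2 : (1 : ℝ) ≤ (1 + q) ^ 2 := by nlinarith
    nlinarith
  have e1 : ∀ c' : ℝ, c' * (1 + q) ^ 2 * fq16 (2 * P) D = c' * F := by
    intro c'
    rw [hF]
    ring
  rw [e1]
  have x7 : q * fq16 P D ≤ F := by
    rw [hF]
    have g1 : fq16 P D ≤ fq16 (2 * P) D := by rw [← fq16_two]; nlinarith
    have g2 : 0 ≤ fq16 (2 * P) D := by linarith
    nlinarith [mul_le_mul_of_nonneg_left g1 hq]
  have x0 : 0 ≤ q * fq16 P D := by positivity
  -- the radius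
  obtain ⟨r, hr⟩ : ∃ r : ℝ, r = 8 / c * (C₃ * F + q * fq16 P D + 2) := ⟨_, rfl⟩
  have hr0 : 0 ≤ r := by rw [hr]; positivity
  have hrc : c / 8 * r = C₃ * F + q * fq16 P D + 2 := by
    rw [hr]
    field_simp
  have hadd := W_add (μ := μ) (s := s) η a m n' y
  have hsplit := sum_filter_add_sum_filter_not (Icc (0 : ℤ) m) (fun z : ℤ => |(z : ℝ) - sl μ s * m| ≤ r * wd μ s n)
    (fun z => W μ s η a m z * W μ s η (a.1 + m, a.2 + z) n' (y - z))
  -- the far terms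
  have hfar : ∑ z ∈ (Icc (0 : ℤ) m).filter (fun z : ℤ => ¬ |(z : ℝ) - sl μ s * m| ≤ r * wd μ s n),
      W μ s η a m z * W μ s η (a.1 + m, a.2 + z) n' (y - z) ≤ Real.exp (-(q * fq16 P D * EE μ s n)) / 2 := by
    have g1 : ∀ z ∈ (Icc (0 : ℤ) m).filter (fun z : ℤ => ¬ |(z : ℝ) - sl μ s * m| ≤ r * wd μ s n),
        W μ s η a m z * W μ s η (a.1 + m, a.2 + z) n' (y - z) ≤ Real.exp (-(q * fq16 P D + 2) * EE μ s n) := by
      intro z hz
      obtain ⟨_, hz2⟩ := mem_filter.1 hz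
      rw [not_le] at hz2
      have g2 := H hq hw hη hK (show |(0 : ℝ)| * wd μ s n ≤ c / 4 * EE μ s n by rw [abs_zero, zero_mul]; positivity) a m n' y z h1 h2
      rw [zero_mul, Real.exp_zero, one_mul, ← hD, e1] at g2
      refine g2.trans (Real.exp_le_exp.2 ?_)
      have g3 : r ≤ |(z : ℝ) - sl μ s * m| / wd μ s n := by
        rw [le_div_iff₀ hw0]
        exact hz2.le
      have g4 : 0 ≤ hc μ s c n / 2 * |(y : ℝ) - sl μ s * ((m + n' : ℕ) : ℝ)| := by positivity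
      have g5 : c / 8 * r ≤ c / 8 * (|(z : ℝ) - sl μ s * m| / wd μ s n) := mul_le_mul_of_nonneg_left g3 (by positivity)
      rw [hrc] at g5
      have g6 := mul_le_mul_of_nonneg_right g5 hE.le
      nlinarith
    refine (sum_le_sum g1).trans ?_
    rw [sum_const, nsmul_eq_mul]
    have g3 : (((Icc (0 : ℤ) m).filter (fun z : ℤ => ¬ |(z : ℝ) - sl μ s * m| ≤ r * wd μ s n)).card : ℝ) ≤ Real.exp (EE μ s n) := by
      refine le_trans ?_ hcard
      have g4 : ((Icc (0 : ℤ) m).filter (fun z : ℤ => ¬ |(z : ℝ) - sl μ s * m| ≤ r * wd μ s n)).card ≤ n + 1 := by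
        refine (card_filter_le _ _).trans ?_
        rw [Int.card_Icc]
        omega
      exact_mod_cast g4
    have g5 : Real.exp (EE μ s n) * Real.exp (-(q * fq16 P D + 2) * EE μ s n) = Real.exp (-EE μ s n) * Real.exp (-(q * fq16 P D * EE μ s n)) := by
      rw [← Real.exp_add, ← Real.exp_add]
      congr 1
      ring
    have g6 : Real.exp (-EE μ s n) ≤ 1 / 2 := by
      rw [Real.exp_neg, ← one_div]
      refine one_div_le_one_div_of_le (by norm_num) ?_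
      have := Real.add_one_le_exp (EE μ s n)
      linarith
    have g7 := Real.exp_pos (-(q * fq16 P D * EE μ s n))
    calc _ ≤ Real.exp (EE μ s n) * Real.exp (-(q * fq16 P D + 2) * EE μ s n) := mul_le_mul_of_nonneg_right g3 (Real.exp_pos _).le
      _ = Real.exp (-EE μ s n) * Real.exp (-(q * fq16 P D * EE μ s n)) := g5
      _ ≤ _ := by nlinarith
  -- the near terms
  have hnear : Real.exp (-(q * fq16 P D * EE μ s n)) / 2 ≤ ∑ z ∈ (Icc (0 : ℤ) m).filter (fun z : ℤ => |(z : ℝ) - sl μ s * m| ≤ r * wd μ s n),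
      W μ s η a m z * W μ s η (a.1 + m, a.2 + z) n' (y - z) := by
    rw [hadd, ← hsplit] at hlow
    linarith
  have hK1 : Real.exp (-(2 * (c / 8 * r) * EE μ s n)) * ∑ z ∈ (Icc (0 : ℤ) m).filter (fun z : ℤ => |(z : ℝ) - sl μ s * m| ≤ r * wd μ s n),
      W μ s η a m z * W μ s η (a.1 + m, a.2 + z) n' (y - z) ≤ K1 μ s h η a m n' y := by
    rw [K1_eq, mul_sum]
    refine le_trans (sum_le_sum fun z hz => ?_) (sum_le_sum_of_subset_of_nonneg (filter_subset _ _) fun z _ _ =>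
      mul_nonneg (mul_nonneg (Real.exp_pos _).le (W_nonneg _ _ _ _)) (W_nonneg _ _ _ _))
    obtain ⟨_, hz2⟩ := mem_filter.1 hz
    rw [mul_assoc (Real.exp (h * ((z : ℝ) - sl μ s * m)))]
    refine mul_le_mul_of_nonneg_right (Real.exp_le_exp.2 ?_) (mul_nonneg (W_nonneg _ _ _ _) (W_nonneg _ _ _ _))
    have g1 : -(|h| * |(z : ℝ) - sl μ s * m|) ≤ h * ((z : ℝ) - sl μ s * m) := by
      rw [← abs_mul]
      exact neg_abs_le _
    have g2 : |h| * |(z : ℝ) - sl μ s * m| ≤ |h| * (r * wd μ s n) := mul_le_mul_of_nonneg_left hz2 (abs_nonneg _)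
    have g3 : |h| * (r * wd μ s n) = r * (|h| * wd μ s n) := by ring
    have g4 := mul_le_mul_of_nonneg_left hh hr0
    nlinarith
  have hfin : Real.exp (-((2 * C₃ + 8) * F * EE μ s n)) ≤ Real.exp (-(2 * (c / 8 * r) * EE μ s n)) * (Real.exp (-(q * fq16 P D * EE μ s n)) / 2) := by
    have g1 : Real.exp (-1 : ℝ) ≤ 1 / 2 := by
      rw [Real.exp_neg, ← one_div]
      refine one_div_le_one_div_of_le (by norm_num) ?_
      have := Real.add_one_le_exp (1 : ℝ)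
      linarith
    have g2 : Real.exp (-(2 * (c / 8 * r) * EE μ s n)) * (Real.exp (-(q * fq16 P D * EE μ s n)) * Real.exp (-1 : ℝ)) =
        Real.exp (-(2 * (c / 8 * r) * EE μ s n) - q * fq16 P D * EE μ s n - 1) := by
      rw [← Real.exp_add, ← Real.exp_add]
      congr 1
      ring
    have g3 : Real.exp (-((2 * C₃ + 8) * F * EE μ s n)) ≤ Real.exp (-(2 * (c / 8 * r) * EE μ s n) - q * fq16 P D * EE μ s n - 1) := by
      refine Real.exp_le_exp.2 ?_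
      rw [hrc]
      have k1 := mul_le_mul_of_nonneg_right x7 hE.le
      have k2 : EE μ s n ≤ F * EE μ s n := by nlinarith
      nlinarith
    refine g3.trans ?_
    rw [← g2]
    refine mul_le_mul_of_nonneg_left ?_ (Real.exp_pos _).le
    have g4 := Real.exp_pos (-(q * fq16 P D * EE μ s n))
    nlinarith
  exact hfin.trans ((mul_le_mul_of_nonneg_left hnear (Real.exp_pos _).le).trans hK1)

end

end Pool.Agent.W_7d29a1_C1.U16
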