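import Pool.Agent.W_7d29a1_C1.FarK89
import Pool.Agent.W_7d29a1_C1.KerB16

/-!
Both halves (MP_7d29a1_pr), attractor route, leaf 11 (ii) of row 690: FAR KERNELS OF THE MODEL over slabs of different scales. (helper89)

Rows `r a ≤ r (a + 1) ≤ ..`; the slab `[r u, r (u + 1))` is in `Far16` at the scale `T u` with the level `q u`, its base point within one
width of the line through `κ`. `nk` = the kernel of the composite `p` (switch row `M`), normalised. `far_up`: the envelope of the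
composition for all `x`, `y`; `far_up_end`: the same with the level read at the end; `far_low`: lower bound for ends in the windows.
-/

set_option autoImplicit false

namespace Pool.Agent.W_7d29a1_C1.FarW89

open MeasureTheory ProbabilityTheory Filter Topology Finset
open Pool.Agent.W_7d29a1_F Pool.Agent.W_7d29a1_h4g Pool.Agent.W_7d29a1_H Pool.Agent.W_7d29a1_HS
open Pool.Agent.W_7d29a1_C1.H75 Pool.Agent.W_7d29a1_C1.U16 Pool.Agent.W_7d29a1_C1.FarK89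
open Pool.Agent.W_7d29a1_C1.K91 (wt wt_pos)

noncomputable section

/-! ### The normalised kernel -/

/-- The number of the rows of `[i, i + n)` below `M`. -/
def bl (M i n : ℕ) : ℕ := min n (M - i)

theorem bl_le (M i n : ℕ) : bl M i n ≤ n := min_le_left _ _

theorem bl_add (M i m n : ℕ) : bl M i (m + n) = bl M i m + bl M (i + m) n := by
  unfold bl
  omega

/-- The normalised kernel. -/
def nk (μ : Measure ℝ) (s h : ℝ) (η : Env) (p : ℕ → ℝ) (M i n : ℕ) (x y : ℤ) : ℝ :=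
  Real.exp (-(n * lam μ s + h * sl μ s * bl M i n)) * (ker (wt η) p i n x y * wt η (i + n) y / wt η i x)

variable {μ : Measure ℝ} {s h : ℝ} {η : Env} {p : ℕ → ℝ} {M : ℕ}

/-- The kernel in terms of the normalised one. -/
theorem ker_nk (i n : ℕ) (x y : ℤ) : ker (wt η) p i n x y =
    Real.exp (n * lam μ s + h * sl μ s * bl M i n) * (wt η i x / wt η (i + n) y) * nk μ s h η p M i n x y := by
  have h1 := wt_pos η i x
  have h2 := wt_pos η (i + n) y
  unfold nk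
  rw [Real.exp_neg]
  field_simp

theorem nk_nonneg (hp : ∀ k, 0 < p k) (i n : ℕ) (x y : ℤ) : 0 ≤ nk μ s h η p M i n x y := by
  have h1 := ker_nonneg (w := wt η) (wt_pos η) hp i n x y
  have h2 := wt_pos η i x
  have h3 := wt_pos η (i + n) y
  unfold nk
  positivity

theorem nk_eq_zero (i n : ℕ) {x y : ℤ} (hxy : ¬ (x ≤ y ∧ y ≤ x + n)) : nk μ s h η p M i n x y = 0 := by
  unfold nk
  rw [ker_eq_zero i n x y hxy]
  simp

theorem nk_zero (i : ℕ) (x y : ℤ) : nk μ s h η p M i 0 x y = if x = y then 1 else 0 := by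
  unfold nk bl
  rw [ker_zero]
  by_cases h1 : x = y
  · subst h1
    have h2 := wt_pos η i x
    simp only [if_pos, add_zero, one_mul, div_self h2.ne', Nat.zero_min, Nat.cast_zero, zero_mul, mul_zero, neg_zero, Real.exp_zero,
      mul_one]
  · rw [if_neg (fun h2 => h1 h2.symm), if_neg h1]
    simp

/-- Composition. -/
theorem nk_add (i m n : ℕ) (x y : ℤ) : nk μ s h η p M i (m + n) x y =
    ∑ z ∈ Icc (y - n) y, nk μ s h η p M i m x z * nk μ s h η p M (i + m) n z y := by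
  unfold nk
  rw [ker_add, ← add_assoc, sum_mul, sum_div, mul_sum]
  refine sum_congr rfl fun z _ => ?_
  have h1 := wt_pos η (i + m) z
  have h2 := wt_pos η i x
  have e1 : Real.exp (-(((m + n : ℕ) : ℝ) * lam μ s + h * sl μ s * bl M i (m + n))) =
      Real.exp (-(m * lam μ s + h * sl μ s * bl M i m)) * Real.exp (-(n * lam μ s + h * sl μ s * bl M (i + m) n)) := by
    rw [← Real.exp_add, bl_add]
    congr 1
    push_cast
    ring
  rw [e1]
  field_simp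

/-- The kernel is the composite kernel of KerB16. -/
theorem nk_K1 (hp : ∀ k, k < M → p k = Real.exp (s + h)) (hp' : ∀ k, M ≤ k → p k = Real.exp s) (i n : ℕ) (x y : ℤ) :
    nk μ s h η p M i n x y = K1 μ s h η ((i : ℤ), x) (bl M i n) (n - bl M i n) (y - x) := by
  have h1 := ker_W2 (μ := μ) (s := s) (h := h) η (p := p) i (bl M i n) (n - bl M i n) x y (fun k hk hk' => hp k (by unfold bl at hk'; omega))
    (fun k hk hk' => hp' k (by unfold bl at hk hk'; omega))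
  rw [Nat.add_sub_cancel' (bl_le M i n)] at h1
  have h2 := wt_pos η i x
  unfold nk K1
  rw [h1]
  have e1 : Real.exp (-(n * lam μ s + h * sl μ s * bl M i n)) = Real.exp (-(h * sl μ s * bl M i n)) * Real.exp (-(n * lam μ s)) := by
    rw [← Real.exp_add]
    congr 1
    ring
  have e2 : Real.exp (-((n : ℝ) * lam μ s)) * Real.exp (n * lam μ s) = 1 := by
    rw [← Real.exp_add]
    simp
  rw [e1]
  calc Real.exp (-(h * sl μ s * bl M i n)) * Real.exp (-(n * lam μ s)) *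
        (wt η i x * (Real.exp (n * lam μ s) * CW μ s h η ((i : ℤ), x) (bl M i n) (n - bl M i n) (y - x)) / wt η i x)
      = Real.exp (-(h * sl μ s * bl M i n)) * (Real.exp (-((n : ℝ) * lam μ s)) * Real.exp (n * lam μ s)) *
        CW μ s h η ((i : ℤ), x) (bl M i n) (n - bl M i n) (y - x) := by
        field_simp
    _ = _ := by rw [e2, mul_one]

/-! ### Slabs -/

/-- The box of the row `r v`. -/
def bx (r : ℕ → ℕ) (a : ℕ) (x₀ R : ℤ) (v : ℕ) : Finset ℤ := Icc (x₀ - R) (x₀ + R + ((r v - r a : ℕ) : ℤ))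

/-- The kernels of the slabs. -/
def kk (μ : Measure ℝ) (s h : ℝ) (η : Env) (p : ℕ → ℝ) (M : ℕ) (r : ℕ → ℕ) (u : ℕ) (x y : ℤ) : ℝ :=
  nk μ s h η p M (r u) (r (u + 1) - r u) x y

theorem r_mono {r : ℕ → ℕ} {a b : ℕ} (hr : ∀ u, a ≤ u → u < b → r u ≤ r (u + 1)) : ∀ m u, a ≤ u → u + m ≤ b → r u ≤ r (u + m)
  | 0, _, _, _ => le_rfl
  | m + 1, u, hu, hm => (r_mono hr m u hu (by omega)).trans (hr (u + m) (by omega) (by omega))

/-- The composition of the slabs is the kernel. -/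
theorem cmp_nk {r : ℕ → ℕ} {a b : ℕ} (hr : ∀ u, a ≤ u → u < b → r u ≤ r (u + 1)) {x₀ R : ℤ} : ∀ m u, a ≤ u → u + m ≤ b →
    ∀ x ∈ bx r a x₀ R u, ∀ y, cmp (kk μ s h η p M r) (bx r a x₀ R) m u x y = nk μ s h η p M (r u) (r (u + m) - r u) x y
  | 0, u, _, _, x, _, y => by
    rw [add_zero, Nat.sub_self, nk_zero]
    rfl
  | m + 1, u, hu, hm, x, hx, y => by
    have hau : r a ≤ r u := by
      have h1 := r_mono hr (u - a) a le_rfl (by omega)
      rwa [Nat.add_sub_cancel' hu] at h1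
    have h1 := hr u hu (by omega)
    have h2 := r_mono hr m (u + 1) (by omega) (by omega)
    have e0 : u + 1 + m = u + (m + 1) := by omega
    rw [e0] at h2
    have e1 : r (u + (m + 1)) - r u = (r (u + 1) - r u) + (r (u + (m + 1)) - r (u + 1)) := by omega
    rw [e1, nk_add]
    have e2 : r u + (r (u + 1) - r u) = r (u + 1) := by omega
    rw [e2]
    show ∑ z ∈ bx r a x₀ R (u + 1), kk μ s h η p M r u x z * cmp (kk μ s h η p M r) (bx r a x₀ R) m (u + 1) z y = _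
    have h3 : ∀ z ∈ bx r a x₀ R (u + 1), kk μ s h η p M r u x z * cmp (kk μ s h η p M r) (bx r a x₀ R) m (u + 1) z y =
        nk μ s h η p M (r u) (r (u + 1) - r u) x z * nk μ s h η p M (r (u + 1)) (r (u + (m + 1)) - r (u + 1)) z y := by
      intro z hz
      rw [cmp_nk hr m (u + 1) (by omega) (by omega) z hz y, e0]
      rfl
    rw [sum_congr rfl h3]
    obtain ⟨f, hf⟩ : ∃ f : ℤ → ℝ, f = fun z => nk μ s h η p M (r u) (r (u + 1) - r u) x z *
      nk μ s h η p M (r (u + 1)) (r (u + (m + 1)) - r (u + 1)) z y := ⟨_, rfl⟩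
    have f1 : ∀ z, z ∉ bx r a x₀ R (u + 1) → f z = 0 := by
      intro z hz
      rw [hf]
      dsimp only
      rw [nk_eq_zero, zero_mul]
      rintro ⟨h4, h5⟩
      apply hz
      unfold bx at hx ⊢
      rw [mem_Icc] at hx ⊢
      omega
    have f2 : ∀ z, z ∉ Icc (y - ((r (u + (m + 1)) - r (u + 1) : ℕ) : ℤ)) y → f z = 0 := by
      intro z hz
      rw [hf]
      dsimp only
      rw [nk_eq_zero (r (u + 1)), mul_zero]
      rintro ⟨h4, h5⟩
      apply hz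
      rw [mem_Icc]
      omega
    have g1 := sum_subset (f := f) (subset_union_left (s₁ := bx r a x₀ R (u + 1)) (s₂ := Icc (y - ((r (u + (m + 1)) - r (u + 1) : ℕ) : ℤ)) y))
      fun z _ hz => f1 z hz
    have g2 := sum_subset (f := f) (subset_union_right (s₁ := bx r a x₀ R (u + 1)) (s₂ := Icc (y - ((r (u + (m + 1)) - r (u + 1) : ℕ) : ℤ)) y))
      fun z _ hz => f2 z hz
    rw [hf] at g1 g2
    rw [g1, g2]

/-! ### Numbers -/

theorem gr_fq (P : ℕ) {x : ℝ} (hx : 0 ≤ x) : fq16 P x = gr P x := by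
  unfold fq16 gr
  rw [abs_of_nonneg hx]

theorem geo_one {τ : ℝ} (hτ : 0 < τ) {J : Finset ℤ} {f : ℤ → ℝ} (g : ℤ → ℕ) (hg : Set.InjOn g J)
    (hf : ∀ y ∈ J, f y ≤ Real.exp (-τ) ^ g y) : ∑ y ∈ J, f y ≤ 1 + 1 / τ := by
  have h1 : Real.exp (-τ) < 1 := by
    have := Real.exp_lt_exp.2 (show -τ < 0 by linarith)
    rwa [Real.exp_zero] at this
  have h2 : ∑ y ∈ J, f y ≤ ∑ k ∈ J.image g, Real.exp (-τ) ^ k := by
    rw [sum_image hg]
    exact sum_le_sum hf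
  have h3 := (summable_geometric_of_lt_one (Real.exp_pos (-τ)).le h1).sum_le_tsum (J.image g) (fun i _ => by positivity)
  rw [tsum_geometric_of_lt_one (Real.exp_pos (-τ)).le h1] at h3
  refine (h2.trans h3).trans ?_
  have h4 : 0 < 1 - Real.exp (-τ) := by linarith
  have h5 : Real.exp (-τ) * (1 + τ) ≤ 1 := by
    have h6 := Real.add_one_le_exp τ
    have h7 : Real.exp (-τ) * Real.exp τ = 1 := by
      rw [← Real.exp_add]
      simp
    have h8 := mul_le_mul_of_nonneg_left h6 (Real.exp_pos (-τ)).le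
    linarith
  rw [← one_div, div_le_iff₀ h4]
  have h6 : (1 + 1 / τ) * (1 - Real.exp (-τ)) = ((1 + τ) - Real.exp (-τ) * (1 + τ)) / τ := by
    field_simp
    ring
  rw [h6, le_div_iff₀ hτ]
  linarith

/-- The sum of the profile over the integers. -/
theorem sum_exp_abs {τ : ℝ} (hτ : 0 < τ) (z : ℝ) (J : Finset ℤ) : ∑ y ∈ J, Real.exp (-(τ * |(y : ℝ) - z|)) ≤ 2 + 2 / τ := by
  have e1 := sum_filter_add_sum_filter_not J (fun y : ℤ => ⌈z⌉ ≤ y) (fun y => Real.exp (-(τ * |(y : ℝ) - z|)))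
  have hz1 := Int.le_ceil z
  have hz2 := Int.ceil_lt_add_one z
  have g1 : ∑ y ∈ J.filter (fun y : ℤ => ⌈z⌉ ≤ y), Real.exp (-(τ * |(y : ℝ) - z|)) ≤ 1 + 1 / τ := by
    refine geo_one hτ (fun y => (y - ⌈z⌉).toNat) (fun x hx y hy hxy => ?_) (fun y hy => ?_)
    · have hx1 := (mem_filter.1 (mem_coe.1 hx)).2
      have hy1 := (mem_filter.1 (mem_coe.1 hy)).2
      dsimp only at hxy
      omega
    · have hy1 := (mem_filter.1 hy).2
      rw [← Real.exp_nat_mul]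
      refine Real.exp_le_exp.2 ?_
      have e2 : (((y - ⌈z⌉).toNat : ℕ) : ℝ) = (y : ℝ) - ⌈z⌉ := by
        have e3 : (((y - ⌈z⌉).toNat : ℕ) : ℤ) = y - ⌈z⌉ := Int.toNat_of_nonneg (by omega)
        have e4 : (((y - ⌈z⌉).toNat : ℕ) : ℝ) = ((((y - ⌈z⌉).toNat : ℕ) : ℤ) : ℝ) := by push_cast; rfl
        rw [e4, e3]
        push_cast
        ring
      rw [e2]
      have h1 := le_abs_self ((y : ℝ) - z)
      have h2 := mul_le_mul_of_nonneg_left (show (y : ℝ) - ⌈z⌉ ≤ |(y : ℝ) - z| by linarith) hτ.le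
      linarith
  have g2 : ∑ y ∈ J.filter (fun y : ℤ => ¬ ⌈z⌉ ≤ y), Real.exp (-(τ * |(y : ℝ) - z|)) ≤ 1 + 1 / τ := by
    refine geo_one hτ (fun y => (⌈z⌉ - 1 - y).toNat) (fun x hx y hy hxy => ?_) (fun y hy => ?_)
    · have hx1 := (mem_filter.1 (mem_coe.1 hx)).2
      have hy1 := (mem_filter.1 (mem_coe.1 hy)).2
      dsimp only at hxy
      omega
    · have hy1 := (mem_filter.1 hy).2
      rw [← Real.exp_nat_mul]
      refine Real.exp_le_exp.2 ?_
      have e2 : (((⌈z⌉ - 1 - y).toNat : ℕ) : ℝ) = (⌈z⌉ : ℝ) - 1 - y := by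
        have e3 : (((⌈z⌉ - 1 - y).toNat : ℕ) : ℤ) = ⌈z⌉ - 1 - y := Int.toNat_of_nonneg (by omega)
        have e4 : (((⌈z⌉ - 1 - y).toNat : ℕ) : ℝ) = ((((⌈z⌉ - 1 - y).toNat : ℕ) : ℤ) : ℝ) := by push_cast; rfl
        rw [e4, e3]
        push_cast
        ring
      rw [e2]
      have h1 := neg_abs_le ((y : ℝ) - z)
      have h2 := mul_le_mul_of_nonneg_left (show (⌈z⌉ : ℝ) - 1 - y ≤ |(y : ℝ) - z| by linarith) hτ.le
      linarith
  have e3 : 2 + 2 / τ = (1 + 1 / τ) + (1 + 1 / τ) := by ring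
  rw [← e1, e3]
  exact add_le_add g1 g2

variable [IsProbabilityMeasure μ] {c C : ℝ} {n₀ : ℕ}

theorem card89 (h0 : In μ s c C n₀) (A : ℝ) : ∃ n₁ : ℕ, ∀ n : ℕ, n₁ ≤ n → A * ((n : ℝ) + 1) ≤ Real.exp (EE μ s n) := by
  obtain ⟨n₁, H⟩ := lgo h0 (δ := 1 / 2) (by norm_num)
  obtain ⟨n₂, H2⟩ := eventually_atTop.1 (h0.tE.eventually_ge_atTop (2 * Real.log (2 * |A| + 1)))
  refine ⟨max n₁ (max n₂ 1), fun n hn => ?_⟩
  have hn1 : 1 ≤ n := ((le_max_right _ _).trans (le_max_right _ _)).trans hn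
  have hnR : (1 : ℝ) ≤ n := by exact_mod_cast hn1
  have h1 := H n ((le_max_left _ _).trans hn)
  have h2 := H2 n (((le_max_left _ _).trans (le_max_right _ _)).trans hn)
  have h3 : Real.log (2 * |A| + 1) + Real.log n ≤ EE μ s n := by linarith
  have hA : (0 : ℝ) < 2 * |A| + 1 := by positivity
  have h4 : (2 * |A| + 1) * n ≤ Real.exp (EE μ s n) := by
    calc (2 * |A| + 1) * (n : ℝ) = Real.exp (Real.log (2 * |A| + 1) + Real.log n) := by
          rw [Real.exp_add, Real.exp_log hA, Real.exp_log (by linarith)]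
      _ ≤ _ := Real.exp_le_exp.2 h3
  have h5 := le_abs_self A
  have h6 := abs_nonneg A
  nlinarith

/-- The sum of the profile with the slope `hc / 8`. -/
theorem sum89 (h0 : In μ s c C n₀) : ∃ n₁ : ℕ, 1 ≤ n₁ ∧ ∀ n : ℕ, n₁ ≤ n → ∀ (z : ℝ) (J : Finset ℤ),
    ∑ y ∈ J, Real.exp (-(c / 8 * (EE μ s n / wd μ s n) * |(y : ℝ) - z|)) ≤ Real.exp (EE μ s n) := by
  have hc0 := h0.c0
  obtain ⟨n₁, H⟩ := card89 h0 (2 + 32 * wd μ s 1 / c)
  obtain ⟨n₂, hn₂⟩ := eventually_atTop.1 ((wd_tendsto h0).eventually_ge_atTop 1)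
  refine ⟨max n₁ (max n₂ 1), (le_max_right _ _).trans (le_max_right _ _), fun n hn z J => ?_⟩
  have hn1 : 1 ≤ n := ((le_max_right _ _).trans (le_max_right _ _)).trans hn
  have hnR : (1 : ℝ) ≤ n := by exact_mod_cast hn1
  have hw : 1 ≤ wd μ s n := hn₂ n (((le_max_left _ _).trans (le_max_right _ _)).trans hn)
  have hw0 : 0 < wd μ s n := by linarith
  have hE := EE_pos (μ := μ) (s := s) n
  have hE1 := one_le_EE (μ := μ) (s := s) n
  have hw1 := h0.wd_nonneg 1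
  refine (sum_exp_abs (by positivity) z J).trans (le_trans ?_ (H n ((le_max_left _ _).trans hn)))
  have h1 : 2 / (c / 8 * (EE μ s n / wd μ s n)) = 16 / c * (wd μ s n / EE μ s n) := by
    field_simp
    norm_num
  have h2 : wd μ s n / EE μ s n ≤ wd μ s n := div_le_self hw0.le hE1
  have h3 : wd μ s n ≤ 2 * (n * wd μ s 1) := by
    have := wd_lower_one h0 (m := 1) (n := n) le_rfl hn1
    rwa [Nat.cast_one, one_mul] at this
  have h4 : 16 / c * (wd μ s n / EE μ s n) ≤ 16 / c * (2 * (n * wd μ s 1)) := mul_le_mul_of_nonneg_left (h2.trans h3) (by positivity)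
  have h5 : 16 / c * (2 * (n * wd μ s 1)) = 32 * wd μ s 1 / c * n := by ring
  rw [h1]
  have h6 : 0 ≤ 32 * wd μ s 1 / c := by positivity
  nlinarith

/-! ### The instance -/

/-- The slabs `a ≤ u < b`: rows, scales, levels. -/
structure Slabs (μ : Measure ℝ) (s c θ K h : ℝ) (P : ℕ) (η : Env) (κ : Pt) (r T N : ℕ → ℕ) (q : ℕ → ℝ) (bs : ℕ → Pt)
    (a b Tt n₁ : ℕ) (Q : ℝ) : Prop where
  q0 : ∀ u, a ≤ u → u < b → 0 ≤ q u
  K3 : 3 ≤ K
  Tt1 : n₁ ≤ Tt
  T1 : ∀ u, a ≤ u → u < b → n₁ ≤ T u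
  TT : ∀ u, a ≤ u → u < b → T u ≤ Tt
  NT : ∀ u, a ≤ u → u < b → N u ≤ T u
  rr : ∀ u, a ≤ u → u < b → r u ≤ r (u + 1)
  b1 : ∀ u, a ≤ u → u < b → (bs u).1 ≤ r u
  b2 : ∀ u, a ≤ u → u < b → (r (u + 1) : ℤ) ≤ (bs u).1 + N u
  b3 : ∀ u, a ≤ u → u < b → |lat16 μ s κ (bs u)| ≤ wd μ s (T u)
  far : ∀ u, a ≤ u → u < b → η ∈ Far16 μ s c θ K (T u) (N u) P (bs u) (q u)
  cost : ∑ u ∈ Ico a b, (1 + q u) ^ 2 * gr (2 * P) (2 * wd μ s Tt / wd μ s (T u)) * EE μ s (T u) ≤ Q * EE μ s Tt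
  force : |h| * wd μ s Tt ≤ c / 8 * EE μ s Tt

/-- The lateral coordinate at the row `r u`. -/
def lt (μ : Measure ℝ) (s : ℝ) (κ : Pt) (r : ℕ → ℕ) (u : ℕ) (x : ℤ) : ℝ := lat16 μ s κ ((r u : ℤ), x)

def qq (P : ℕ) (C' : ℝ) (q : ℕ → ℝ) (u : ℕ) : ℝ := C' * gr (2 * P) 2 * (1 + q u) ^ 2

def ee (μ : Measure ℝ) (s : ℝ) (P : ℕ) (C' : ℝ) (T : ℕ → ℕ) (q : ℕ → ℝ) (Tt u : ℕ) : ℝ :=
  qq P C' q u * gr (2 * P) (2 * wd μ s Tt / wd μ s (T u)) * EE μ s (T u) / EE μ s Tt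

omit [IsProbabilityMeasure μ] in
theorem lt_sub (κ : Pt) (r : ℕ → ℕ) (u v : ℕ) (x y : ℤ) (huv : r u ≤ r v) :
    lt μ s κ r v y - lt μ s κ r u x = ((y - x : ℤ) : ℝ) - sl μ s * ((r v - r u : ℕ) : ℝ) := by
  unfold lt lat16
  push_cast [Nat.cast_sub huv]
  ring

omit [IsProbabilityMeasure μ] in
theorem lat_base (κ b p : Pt) : lat16 μ s b p = lat16 μ s κ p - lat16 μ s κ b := by
  unfold lat16
  push_cast
  ring

omit [IsProbabilityMeasure μ] in
/-- The level read from the line. -/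
theorem lev_line {P : ℕ} {κ b p : Pt} {w : ℝ} (hw : 0 < w) (hb : |lat16 μ s κ b| ≤ w) :
    fq16 (2 * P) (|lat16 μ s b p| / w + 1) ≤ gr (2 * P) 2 * gr (2 * P) (|lat16 μ s κ p| / w) := by
  have h0 : 0 ≤ |lat16 μ s κ p| / w := by positivity
  have h1 : |lat16 μ s b p| / w + 1 ≤ |lat16 μ s κ p| / w + 2 := by
    have h2 : |lat16 μ s b p| ≤ |lat16 μ s κ p| + w := by
      rw [lat_base κ b p]
      exact (abs_sub _ _).trans (by linarith)
    have h3 := div_le_div_of_nonneg_right h2 hw.le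
    rw [add_div, div_self hw.ne'] at h3
    linarith
  have h2 : 0 ≤ |lat16 μ s b p| / w + 1 := by positivity
  rw [gr_fq _ h2]
  refine (gr_mono _ h2 h1).trans ?_
  rw [add_comm]
  exact gr_mul _ (by norm_num) h0 (by linarith) (by nlinarith)

/-- The envelope of the slabs is an instance of `Env'`. -/
theorem env89 (h0 : In μ s c C n₀) (P : ℕ) : ∃ C₄ : ℝ, 0 < C₄ ∧ ∃ n₁ : ℕ, 1 ≤ n₁ ∧ ∀ C' : ℝ, C₄ ≤ C' →
    ∀ {θ K h Q : ℝ} {η : Env} {p : ℕ → ℝ} {M : ℕ} {κ : Pt} {r T N : ℕ → ℕ} {q : ℕ → ℝ} {bs : ℕ → Pt} {a b Tt n₂ : ℕ}, n₁ ≤ n₂ →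
    (∀ k, k < M → p k = Real.exp (s + h)) → (∀ k, M ≤ k → p k = Real.exp s) → Slabs μ s c θ K h P η κ r T N q bs a b Tt n₂ Q →
    ∀ x₀ R : ℤ, Env' (2 * P) (c / 2) (c / 8) (EE μ s Tt) (2 * wd μ s Tt) (qq P C' q) (fun u => EE μ s (T u)) (fun u => wd μ s (T u))
      (ee μ s P C' T q Tt) (fun u => EE μ s (T u) / EE μ s Tt) (lt μ s κ r) (kk μ s h η p M r) (bx r a x₀ R) a b := by
  have hc0 := h0.c0
  obtain ⟨C₄, hC₄, m₁, H⟩ := comp_up h0 P
  obtain ⟨m₂, hm₂, H2⟩ := sum89 h0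
  obtain ⟨m₃, hm₃⟩ := eventually_atTop.1 ((wd_tendsto h0).eventually_ge_atTop 1)
  refine ⟨C₄, hC₄, max m₁ (max m₂ m₃), hm₂.trans ((le_max_left _ _).trans (le_max_right _ _)), ?_⟩
  intro C' hC' θ K h Q η p M κ r T N q bs a b Tt n₂ hn₂ hp hp' h1 x₀ R
  have l1 : m₁ ≤ n₂ := (le_max_left _ _).trans hn₂
  have l2 : m₂ ≤ n₂ := ((le_max_left _ _).trans (le_max_right _ _)).trans hn₂
  have l3 : m₃ ≤ n₂ := ((le_max_right _ _).trans (le_max_right _ _)).trans hn₂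
  have hC'0 : 0 < C' := by linarith
  have hwt : 0 < wd μ s Tt := by
    have := hm₃ Tt (l3.trans h1.Tt1)
    linarith
  have hEt := EE_pos (μ := μ) (s := s) Tt
  have hw : ∀ u, a ≤ u → u < b → 1 ≤ wd μ s (T u) := fun u hu hub => hm₃ _ (l3.trans (h1.T1 u hu hub))
  have hq0 : ∀ u, 0 ≤ qq P C' q u := by
    intro u
    unfold qq
    have := gr_nonneg (2 * P) (show (0 : ℝ) ≤ 2 by norm_num)
    positivity
  have hpos : ∀ k, 0 < p k := by
    intro k
    rcases lt_or_ge k M with h2 | h2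
    · rw [hp k h2]
      exact Real.exp_pos _
    · rw [hp' k h2]
      exact Real.exp_pos _
  constructor
  · positivity
  · exact hq0
  · exact hEt
  · positivity
  · intro u hu hub
    have := hw u hu hub
    linarith
  · intro u
    unfold ee
    have h2 := gr_nonneg (2 * P) (X := 2 * wd μ s Tt / wd μ s (T u)) (div_nonneg (by linarith) (h0.wd_nonneg _))
    have h3 := EE_pos (μ := μ) (s := s) (T u)
    have h4 := hq0 u
    positivity
  · intro u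
    have h3 := EE_pos (μ := μ) (s := s) (T u)
    positivity
  · intro u _ _
    exact (EE_pos (μ := μ) (s := s) (T u)).le
  · intro u hu hub
    exact Pool.Agent.W_7d29a1_HS.wd_le_two h0 (hm₂.trans (l2.trans (h1.T1 u hu hub))) (h1.TT u hu hub)
  · intro u hu hub
    have h2 := wd_growth_one h0 (hm₂.trans (l2.trans (h1.T1 u hu hub))) (h1.TT u hu hub)
    have h3 := hw u hu hub
    rw [div_le_div_iff₀ (by positivity) (by linarith)]
    linarith
  · intro u hu hub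
    have h2 := Pool.Agent.W_7d29a1_HS.wd_le_two h0 (hm₂.trans (l2.trans (h1.T1 u hu hub))) (h1.TT u hu hub)
    have h3 := hw u hu hub
    have h4 : 1 ≤ 2 * wd μ s Tt / wd μ s (T u) := by
      rw [one_le_div (by linarith)]
      exact h2
    have h5 := gr_mono (2 * P) (show 0 ≤ 2 * wd μ s Tt / wd μ s (T u) - 1 by linarith) (show 2 * wd μ s Tt / wd μ s (T u) - 1 ≤ 2 * wd μ s Tt / wd μ s (T u) by linarith)
    have h6 : ee μ s P C' T q Tt u * EE μ s Tt = qq P C' q u * gr (2 * P) (2 * wd μ s Tt / wd μ s (T u)) * EE μ s (T u) := by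
      unfold ee
      field_simp
    rw [h6]
    exact mul_le_mul_of_nonneg_right (mul_le_mul_of_nonneg_left h5 (hq0 u)) (EE_pos (μ := μ) (s := s) (T u)).le
  · intro u x y
    exact nk_nonneg hpos _ _ _ _
  · intro u hu hub x y _
    have hwu := hw u hu hub
    have hw0 : 0 < wd μ s (T u) := by linarith
    have hEu := EE_pos (μ := μ) (s := s) (T u)
    have hT1 : 1 ≤ T u := hm₂.trans (l2.trans (h1.T1 u hu hub))
    have hforce : |h| * wd μ s (T u) ≤ c / 4 * EE μ s (T u) := by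
      have h2 := wd_growth_one h0 hT1 (h1.TT u hu hub)
      have h3 := h1.force
      have h4 : |h| * wd μ s (T u) * EE μ s Tt ≤ |h| * (2 * EE μ s (T u) * wd μ s Tt) := by
        rw [mul_assoc]
        exact mul_le_mul_of_nonneg_left h2 (abs_nonneg h)
      have h5 : 2 * EE μ s (T u) * (|h| * wd μ s Tt) ≤ 2 * EE μ s (T u) * (c / 8 * EE μ s Tt) :=
        mul_le_mul_of_nonneg_left h3 (by positivity)
      have h6 : |h| * wd μ s (T u) * EE μ s Tt ≤ c / 4 * EE μ s (T u) * EE μ s Tt := by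
        calc _ ≤ |h| * (2 * EE μ s (T u) * wd μ s Tt) := h4
          _ = 2 * EE μ s (T u) * (|h| * wd μ s Tt) := by ring
          _ ≤ _ := h5
          _ = _ := by ring
      exact le_of_mul_le_mul_right h6 hEt
    have hru := h1.rr u hu hub
    have hb1 := h1.b1 u hu hub
    have hb2 := h1.b2 u hu hub
    have hsum : bl M (r u) (r (u + 1) - r u) + ((r (u + 1) - r u) - bl M (r u) (r (u + 1) - r u)) = r (u + 1) - r u :=
      Nat.add_sub_cancel' (bl_le M (r u) (r (u + 1) - r u))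
    have h2 := (H (l1.trans (h1.T1 u hu hub)) (h1.NT u hu hub) (h1.q0 u hu hub) (h1.far u hu hub) h1.K3 hforce ((r u : ℤ), x)
      (bl M (r u) (r (u + 1) - r u)) ((r (u + 1) - r u) - bl M (r u) (r (u + 1) - r u)) hb1 (by
        show (r u : ℤ) + (bl M (r u) (r (u + 1) - r u) : ℕ) + (((r (u + 1) - r u) - bl M (r u) (r (u + 1) - r u) : ℕ) : ℤ) ≤ _
        omega)).1 (y - x)
    unfold kk
    rw [nk_K1 hp hp']
    refine h2.trans (Real.exp_le_exp.2 ?_)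
    rw [hsum, lt_sub κ r u (u + 1) x y hru]
    have h3 := lev_line (μ := μ) (s := s) (P := P) (p := ((r u : ℤ), x)) hw0 (h1.b3 u hu hub)
    have h4 : C₄ * (1 + q u) ^ 2 * fq16 (2 * P) (|lat16 μ s (bs u) ((r u : ℤ), x)| / wd μ s (T u) + 1) * EE μ s (T u) ≤
        qq P C' q u * gr (2 * P) (|lt μ s κ r u x| / wd μ s (T u)) * EE μ s (T u) := by
      refine mul_le_mul_of_nonneg_right ?_ hEu.le
      have h5 : C₄ * (1 + q u) ^ 2 * fq16 (2 * P) (|lat16 μ s (bs u) ((r u : ℤ), x)| / wd μ s (T u) + 1) ≤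
          C' * (1 + q u) ^ 2 * (gr (2 * P) 2 * gr (2 * P) (|lat16 μ s κ ((r u : ℤ), x)| / wd μ s (T u))) :=
        mul_le_mul (mul_le_mul_of_nonneg_right hC' (sq_nonneg _)) h3 (zero_le_one.trans (fq16_one _ _)) (by positivity)
      refine h5.trans (le_of_eq ?_)
      unfold qq lt
      ring
    have h5 : c / 2 * (EE μ s (T u) / wd μ s (T u)) = hc μ s c (T u) / 2 := by
      unfold hc
      ring
    rw [h5]
    linarith
  · intro u hu hub x
    have h2 := H2 (T u) (l2.trans (h1.T1 u hu hub)) ((x : ℝ) + sl μ s * ((r (u + 1) - r u : ℕ) : ℝ)) (bx r a x₀ R (u + 1))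
    have h3 : EE μ s (T u) / EE μ s Tt * EE μ s Tt = EE μ s (T u) := div_mul_cancel₀ _ hEt.ne'
    rw [h3]
    refine le_trans (le_of_eq (sum_congr rfl fun y _ => ?_)) h2
    rw [lt_sub κ r u (u + 1) x y (h1.rr u hu hub)]
    congr 4
    push_cast
    ring

/-- The costs. -/
theorem cost89 (h0 : In μ s c C n₀) {P : ℕ} {θ K h Q C' : ℝ} {η : Env} {κ : Pt} {r T N : ℕ → ℕ} {q : ℕ → ℝ} {bs : ℕ → Pt}
    {a b Tt n₂ : ℕ} (hC' : 0 ≤ C') (hw : ∀ u, a ≤ u → u < b → 1 ≤ wd μ s (T u)) (h1 : Slabs μ s c θ K h P η κ r T N q bs a b Tt n₂ Q) :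
    ∑ v ∈ Ico a b, ee μ s P C' T q Tt v ≤ C' * gr (2 * P) 2 * Q ∧ ∑ v ∈ Ico a b, EE μ s (T v) / EE μ s Tt ≤ Q := by
  have hEt := EE_pos (μ := μ) (s := s) Tt
  have h2 := h1.cost
  have h3 : ∑ v ∈ Ico a b, ee μ s P C' T q Tt v =
      C' * gr (2 * P) 2 * ((∑ u ∈ Ico a b, (1 + q u) ^ 2 * gr (2 * P) (2 * wd μ s Tt / wd μ s (T u)) * EE μ s (T u)) / EE μ s Tt) := by
    rw [sum_div, mul_sum]
    refine sum_congr rfl fun v _ => ?_
    unfold ee qq
    ring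
  have h4 : (∑ u ∈ Ico a b, (1 + q u) ^ 2 * gr (2 * P) (2 * wd μ s Tt / wd μ s (T u)) * EE μ s (T u)) / EE μ s Tt ≤ Q := by
    rw [div_le_iff₀ hEt]
    exact h2
  refine ⟨?_, ?_⟩
  · rw [h3]
    exact mul_le_mul_of_nonneg_left h4 (mul_nonneg hC' (gr_nonneg _ (by norm_num)))
  · refine le_trans ?_ h4
    rw [sum_div]
    refine sum_le_sum fun v hv => ?_
    rw [mem_Ico] at hv
    refine div_le_div_of_nonneg_right ?_ hEt.le
    have h5 := hw v hv.1 hv.2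
    have h6 := gr_one_le (2 * P) (X := 2 * wd μ s Tt / wd μ s (T v)) (div_nonneg (by have := h0.wd_nonneg Tt; linarith) (by linarith))
    have h7 := h1.q0 v hv.1 hv.2
    have h8 := EE_pos (μ := μ) (s := s) (T v)
    have h9 : (1 : ℝ) ≤ (1 + q v) ^ 2 := by nlinarith
    have h10 : 1 ≤ (1 + q v) ^ 2 * gr (2 * P) (2 * wd μ s Tt / wd μ s (T v)) := by nlinarith
    nlinarith

/-- **THE UPPER ENVELOPE OVER THE SLABS**, the level read at the start. -/
theorem far_up (h0 : In μ s c C n₀) (P : ℕ) : ∃ C₅ : ℝ, 0 < C₅ ∧ ∃ n₁ : ℕ, 1 ≤ n₁ ∧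
    ∀ {θ K h Q : ℝ} {η : Env} {p : ℕ → ℝ} {M : ℕ} {κ : Pt} {r T N : ℕ → ℕ} {q : ℕ → ℝ} {bs : ℕ → Pt} {a b Tt : ℕ}, a ≤ b →
    (∀ k, k < M → p k = Real.exp (s + h)) → (∀ k, M ≤ k → p k = Real.exp s) → Slabs μ s c θ K h P η κ r T N q bs a b Tt n₁ Q →
    ∀ x y : ℤ, nk μ s h η p M (r a) (r b - r a) x y ≤
      Real.exp ((LQ (2 * P) (c / 8) (C₅ * Q) * gr (2 * P) (|lt μ s κ r a x| / wd μ s Tt) + Q) * EE μ s Tt -
        hc μ s c Tt / 8 * |((y - x : ℤ) : ℝ) - sl μ s * ((r b - r a : ℕ) : ℝ)|) := by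
  have hc0 := h0.c0
  obtain ⟨C₄, hC₄, m₁, hm₁, H⟩ := env89 h0 P
  obtain ⟨m₃, hm₃⟩ := eventually_atTop.1 ((wd_tendsto h0).eventually_ge_atTop 1)
  have hg2 := gr_one_le (2 * P) (show (0 : ℝ) ≤ 2 by norm_num)
  refine ⟨C₄ * gr (2 * P) 2, by positivity, max m₁ m₃, hm₁.trans (le_max_left _ _), ?_⟩
  intro θ K h Q η p M κ r T N q bs a b Tt hab hp hp' h1 x y
  have hw : ∀ u, a ≤ u → u < b → 1 ≤ wd μ s (T u) := fun u hu hub => hm₃ _ ((le_max_right _ _).trans (h1.T1 u hu hub))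
  have hwt : 1 ≤ wd μ s Tt := hm₃ Tt ((le_max_right _ _).trans h1.Tt1)
  have hEt := EE_pos (μ := μ) (s := s) Tt
  obtain ⟨hQ, hS⟩ := cost89 h0 hC₄.le hw h1
  have hQ0 : 0 ≤ C₄ * gr (2 * P) 2 * Q := by
    have h2 : 0 ≤ Q := le_trans (sum_nonneg fun v _ => div_nonneg (EE_pos (μ := μ) (s := s) (T v)).le hEt.le) hS
    positivity
  have henv := H C₄ le_rfl (le_max_left _ _) hp hp' h1 x 0
  have h2 := cmp_up' henv (c₁ := c / 8) (c₃ := c / 4) (by positivity) (by positivity) (by linarith) hQ hS (m := b - a) (u := a) le_rfl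
    (by omega) x y
  have hab' : a + (b - a) = b := by omega
  rw [cmp_nk h1.rr (b - a) a le_rfl (by omega) x (by unfold bx; rw [mem_Icc]; omega) y, hab'] at h2
  refine h2.trans (Real.exp_le_exp.2 ?_)
  have hrab : r a ≤ r b := by
    have h3 := r_mono h1.rr (b - a) a le_rfl (by omega)
    rwa [hab'] at h3
  rw [lt_sub κ r a b x y hrab]
  have h3 : gr (2 * P) (|lt μ s κ r a x| / (2 * wd μ s Tt)) ≤ gr (2 * P) (|lt μ s κ r a x| / wd μ s Tt) := by
    refine gr_mono _ (by positivity) (div_le_div_of_nonneg_left (abs_nonneg _) (by linarith) (by linarith))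
  have h4 : c / 4 * (EE μ s Tt / (2 * wd μ s Tt)) = hc μ s c Tt / 8 := by
    unfold hc
    field_simp
    norm_num
  rw [h4]
  have h5 := mul_le_mul_of_nonneg_right (mul_le_mul_of_nonneg_left h3 (LQ_nonneg (2 * P) (c₁ := c / 8) hQ0)) hEt.le
  linarith

/-- The same with the level read at the end. -/
theorem far_up_end (h0 : In μ s c C n₀) (P : ℕ) : ∃ C₅ : ℝ, 0 < C₅ ∧ ∃ n₁ : ℕ, 1 ≤ n₁ ∧
    ∀ {θ K h Q : ℝ} {η : Env} {p : ℕ → ℝ} {M : ℕ} {κ : Pt} {r T N : ℕ → ℕ} {q : ℕ → ℝ} {bs : ℕ → Pt} {a b Tt : ℕ}, a ≤ b →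
    (∀ k, k < M → p k = Real.exp (s + h)) → (∀ k, M ≤ k → p k = Real.exp s) → Slabs μ s c θ K h P η κ r T N q bs a b Tt n₁ Q →
    ∀ x y : ℤ, nk μ s h η p M (r a) (r b - r a) x y ≤
      Real.exp ((LQ (2 * P) (c / 16) (LQ (2 * P) (c / 8) (C₅ * Q)) * gr (2 * P) (|lt μ s κ r b y| / wd μ s Tt) + Q) * EE μ s Tt -
        hc μ s c Tt / 16 * |((y - x : ℤ) : ℝ) - sl μ s * ((r b - r a : ℕ) : ℝ)|) := by
  have hc0 := h0.c0
  obtain ⟨C₅, hC₅, m₁, hm₁, H⟩ := far_up h0 P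
  obtain ⟨m₃, hm₃⟩ := eventually_atTop.1 ((wd_tendsto h0).eventually_ge_atTop 1)
  refine ⟨C₅, hC₅, max m₁ m₃, hm₁.trans (le_max_left _ _), ?_⟩
  intro θ K h Q η p M κ r T N q bs a b Tt hab hp hp' h1 x y
  have h1' : Slabs μ s c θ K h P η κ r T N q bs a b Tt m₁ Q :=
    { h1 with
      Tt1 := (le_max_left _ _).trans h1.Tt1
      T1 := fun u hu hub => (le_max_left _ _).trans (h1.T1 u hu hub) }
  have h2 := H hab hp hp' h1' x y
  have hwt : 1 ≤ wd μ s Tt := hm₃ Tt ((le_max_right _ _).trans h1.Tt1)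
  have hwt0 : 0 < wd μ s Tt := by linarith
  have hEt := EE_pos (μ := μ) (s := s) Tt
  refine h2.trans (Real.exp_le_exp.2 ?_)
  have hrab : r a ≤ r b := by
    have h3 := r_mono h1.rr (b - a) a le_rfl (by omega)
    rwa [show a + (b - a) = b from by omega] at h3
  have hQ0 : 0 ≤ Q := by
    have h3 := h1.cost
    have h4 : 0 ≤ ∑ u ∈ Ico a b, (1 + q u) ^ 2 * gr (2 * P) (2 * wd μ s Tt / wd μ s (T u)) * EE μ s (T u) := by
      refine sum_nonneg fun u _ => ?_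
      have h5 := gr_nonneg (2 * P) (X := 2 * wd μ s Tt / wd μ s (T u)) (div_nonneg (by positivity) (h0.wd_nonneg _))
      have h6 := EE_pos (μ := μ) (s := s) (T u)
      positivity
    by_contra hcon
    push Not at hcon
    nlinarith
  obtain ⟨L, hL⟩ : ∃ L : ℝ, L = LQ (2 * P) (c / 8) (C₅ * Q) := ⟨_, rfl⟩
  have hL0 : 0 ≤ L := by rw [hL]; exact LQ_nonneg _ (by positivity)
  obtain ⟨Δ, hΔ⟩ : ∃ Δ : ℝ, Δ = |((y - x : ℤ) : ℝ) - sl μ s * ((r b - r a : ℕ) : ℝ)| := ⟨_, rfl⟩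
  have hΔ0 : 0 ≤ Δ := by rw [hΔ]; exact abs_nonneg _
  obtain ⟨X, hX⟩ : ∃ X : ℝ, X = |lt μ s κ r b y| / wd μ s Tt := ⟨_, rfl⟩
  have hX0 : 0 ≤ X := by rw [hX]; positivity
  rw [← hL, ← hΔ, ← hX]
  have h3 : |lt μ s κ r a x| / wd μ s Tt ≤ X + Δ / wd μ s Tt := by
    rw [hX, ← add_div]
    refine div_le_div_of_nonneg_right ?_ hwt0.le
    have h4 := lt_sub (μ := μ) (s := s) κ r a b x y hrab
    have h5 : lt μ s κ r a x = lt μ s κ r b y - (((y - x : ℤ) : ℝ) - sl μ s * ((r b - r a : ℕ) : ℝ)) := by linarith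
    rw [h5, hΔ]
    exact abs_sub _ _
  have hA := AQ_nonneg (2 * P) (c / 16) L
  have h4 : L * gr (2 * P) (|lt μ s κ r a x| / wd μ s Tt) ≤ LQ (2 * P) (c / 16) L * gr (2 * P) X + c / 16 * (Δ / wd μ s Tt) := by
    have h5 : gr (2 * P) (|lt μ s κ r a x| / wd μ s Tt) ≤ gr (2 * P) (AQ (2 * P) (c / 16) L + (X + Δ / wd μ s Tt)) :=
      gr_mono _ (by positivity) (by linarith)
    have h6 := lipQ (2 * P) (c := c / 16) (Q := L) (Q' := L) (X := X) (d := Δ / wd μ s Tt) (by positivity) hL0 le_rfl hX0 (by positivity)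
    have h7 := mul_le_mul_of_nonneg_left h5 hL0
    have h8 := mul_le_mul_of_nonneg_left (gr_shift (2 * P) hA hX0) hL0
    have h9 : L * (gr (2 * P) (AQ (2 * P) (c / 16) L) * gr (2 * P) X) = LQ (2 * P) (c / 16) L * gr (2 * P) X := by
      unfold LQ
      ring
    rw [h9] at h8
    linarith
  have h5 := mul_le_mul_of_nonneg_right h4 hEt.le
  have h6 : c / 16 * (Δ / wd μ s Tt) * EE μ s Tt = hc μ s c Tt / 16 * Δ := by
    unfold hc
    field_simp
  have h7 : hc μ s c Tt / 8 * Δ = hc μ s c Tt / 16 * Δ + hc μ s c Tt / 16 * Δ := by ring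
  rw [add_mul, h6] at h5
  rw [h7]
  nlinarith

/-- The sum over the ends. -/
theorem far_row (h0 : In μ s c C n₀) (P : ℕ) : ∃ C₅ : ℝ, 0 < C₅ ∧ ∃ n₁ : ℕ, 1 ≤ n₁ ∧
    ∀ {θ K h Q : ℝ} {η : Env} {p : ℕ → ℝ} {M : ℕ} {κ : Pt} {r T N : ℕ → ℕ} {q : ℕ → ℝ} {bs : ℕ → Pt} {a b Tt : ℕ}, a ≤ b →
    (∀ k, k < M → p k = Real.exp (s + h)) → (∀ k, M ≤ k → p k = Real.exp s) → Slabs μ s c θ K h P η κ r T N q bs a b Tt n₁ Q →
    ∀ (x : ℤ) (J : Finset ℤ), ∑ y ∈ J, nk μ s h η p M (r a) (r b - r a) x y ≤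
      Real.exp ((LQ (2 * P) (c / 8) (C₅ * Q) * gr (2 * P) (|lt μ s κ r a x| / wd μ s Tt) + Q + 1) * EE μ s Tt) := by
  obtain ⟨C₅, hC₅, m₁, hm₁, H⟩ := far_up h0 P
  obtain ⟨m₂, hm₂, H2⟩ := sum89 h0
  refine ⟨C₅, hC₅, max m₁ m₂, hm₁.trans (le_max_left _ _), ?_⟩
  intro θ K h Q η p M κ r T N q bs a b Tt hab hp hp' h1 x J
  have h1' : Slabs μ s c θ K h P η κ r T N q bs a b Tt m₁ Q :=
    { h1 with
      Tt1 := (le_max_left _ _).trans h1.Tt1
      T1 := fun u hu hub => (le_max_left _ _).trans (h1.T1 u hu hub) }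
  obtain ⟨L, hL⟩ : ∃ L : ℝ, L = LQ (2 * P) (c / 8) (C₅ * Q) * gr (2 * P) (|lt μ s κ r a x| / wd μ s Tt) + Q := ⟨_, rfl⟩
  have h2 : ∀ y ∈ J, nk μ s h η p M (r a) (r b - r a) x y ≤ Real.exp (L * EE μ s Tt) *
      Real.exp (-(c / 8 * (EE μ s Tt / wd μ s Tt) * |(y : ℝ) - ((x : ℝ) + sl μ s * ((r b - r a : ℕ) : ℝ))|)) := by
    intro y _
    refine (H hab hp hp' h1' x y).trans (le_of_eq ?_)
    rw [← Real.exp_add, ← hL]
    congr 1
    unfold hc
    have e : ((y - x : ℤ) : ℝ) - sl μ s * ((r b - r a : ℕ) : ℝ) = (y : ℝ) - ((x : ℝ) + sl μ s * ((r b - r a : ℕ) : ℝ)) := by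
      push_cast
      ring
    rw [e]
    ring
  refine (sum_le_sum h2).trans ?_
  rw [← mul_sum, ← hL]
  refine (mul_le_mul_of_nonneg_left (H2 Tt ((le_max_right _ _).trans h1.Tt1) _ J) (Real.exp_pos _).le).trans (le_of_eq ?_)
  rw [← Real.exp_add]
  congr 1
  ring

omit [IsProbabilityMeasure μ] in
/-- A site on the line at the lateral position `ρ`. -/
theorem line_site (κ : Pt) (r : ℕ → ℕ) (ρ : ℝ) (v : ℕ) : |lt μ s κ r v (κ.2 + ⌊sl μ s * (((r v : ℤ) - κ.1 : ℤ) : ℝ) + ρ⌋) - ρ| ≤ 1 := by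
  obtain ⟨t, ht⟩ : ∃ t : ℝ, t = sl μ s * (((r v : ℤ) - κ.1 : ℤ) : ℝ) + ρ := ⟨_, rfl⟩
  have h1 := Int.floor_le t
  have h2 := Int.lt_floor_add_one t
  have e : lt μ s κ r v (κ.2 + ⌊t⌋) - ρ = (⌊t⌋ : ℝ) - t := by
    unfold lt lat16
    dsimp only
    have e1 : ((κ.2 + ⌊t⌋ - κ.2 : ℤ) : ℝ) = (⌊t⌋ : ℝ) := by push_cast; ring
    rw [e1]
    linarith
  rw [← ht, e, abs_le]
  constructor <;> linarith

/-- **THE LOWER BOUND OVER THE SLABS**: both ends in the windows around the lateral position `ρ`. -/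
theorem far_low89 (h0 : In μ s c C n₀) (P : ℕ) {θ K : ℝ} (hK : 4 ≤ K) (hθ : 0 < θ) : ∃ C₆ : ℝ, 0 < C₆ ∧ ∃ n₁ : ℕ, 1 ≤ n₁ ∧
    ∀ {h Q : ℝ} {η : Env} {p : ℕ → ℝ} {M : ℕ} {κ : Pt} {r T N : ℕ → ℕ} {q : ℕ → ℝ} {bs : ℕ → Pt} {a b Tt : ℕ}, a < b →
    (∀ k, k < M → p k = Real.exp (s + h)) → (∀ k, M ≤ k → p k = Real.exp s) → Slabs μ s c θ K h P η κ r T N q bs a b Tt n₁ Q →
    (∀ u, a ≤ u → u < b → θ * T u ≤ ((r (u + 1) - r u : ℕ) : ℝ)) →
    ∀ (ρ : ℝ) (x y : ℤ), |lt μ s κ r a x - ρ| ≤ (K - 2) / 2 * wd μ s (T a) - 1 →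
      |lt μ s κ r b y - ρ| ≤ (K - 2) / 2 * wd μ s (T (b - 1)) - 1 →
      Real.exp (-(C₆ * Q * gr (2 * P) (|ρ| / wd μ s Tt + K) * EE μ s Tt)) ≤ nk μ s h η p M (r a) (r b - r a) x y := by
  have hc0 := h0.c0
  obtain ⟨C₄, hC₄, m₁, hm₁, H⟩ := env89 h0 P
  obtain ⟨C₅, hC₅, m₂, H2⟩ := comp_low h0 P (K := K) (by linarith) hθ
  obtain ⟨m₃, hm₃⟩ := eventually_atTop.1 ((wd_tendsto h0).eventually_ge_atTop 2)
  obtain ⟨C', hC'⟩ : ∃ C' : ℝ, C' = max C₄ C₅ := ⟨_, rfl⟩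
  have hC'4 : C₄ ≤ C' := by rw [hC']; exact le_max_left _ _
  have hC'5 : C₅ ≤ C' := by rw [hC']; exact le_max_right _ _
  have hC'0 : 0 < C' := by linarith
  have hg2 := gr_one_le (2 * P) (show (0 : ℝ) ≤ 2 by norm_num)
  refine ⟨C' * gr (2 * P) 2, by positivity, max m₁ (max m₂ m₃), hm₁.trans (le_max_left _ _), ?_⟩
  intro h Q η p M κ r T N q bs a b Tt hab hp hp' h1 hlen ρ x y hx hy
  have l2 : ∀ {n : ℕ}, max m₁ (max m₂ m₃) ≤ n → m₂ ≤ n := fun h => ((le_max_left _ _).trans (le_max_right _ _)).trans h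
  have l3 : ∀ {n : ℕ}, max m₁ (max m₂ m₃) ≤ n → m₃ ≤ n := fun h => ((le_max_right _ _).trans (le_max_right _ _)).trans h
  have hw2 : ∀ u, a ≤ u → u < b → 2 ≤ wd μ s (T u) := fun u hu hub => hm₃ _ (l3 (h1.T1 u hu hub))
  have hwt : 2 ≤ wd μ s Tt := hm₃ Tt (l3 h1.Tt1)
  have hwt0 : 0 < wd μ s Tt := by linarith
  have hEt := EE_pos (μ := μ) (s := s) Tt
  obtain ⟨hQ, hS⟩ := cost89 h0 hC'0.le (fun u hu hub => by linarith [hw2 u hu hub]) h1
  -- the sites on the line and the box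
  obtain ⟨z, hz⟩ : ∃ z : ℕ → ℤ, z = fun v => κ.2 + ⌊sl μ s * (((r v : ℤ) - κ.1 : ℤ) : ℝ) + ρ⌋ := ⟨_, rfl⟩
  obtain ⟨R, hR⟩ : ∃ R : ℤ, R = |y - x| + ∑ v ∈ range (b + 1), |z v - x| := ⟨_, rfl⟩
  have hR0 : 0 ≤ ∑ v ∈ range (b + 1), |z v - x| := sum_nonneg fun v _ => abs_nonneg _
  have hRy : |y - x| ≤ R := by rw [hR]; linarith
  have hRz : ∀ v, v ≤ b → |z v - x| ≤ R := by
    intro v hv
    have h2 := single_le_sum (f := fun v => |z v - x|) (fun v _ => abs_nonneg (z v - x)) (mem_range.2 (by omega : v < b + 1))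
    have h3 := abs_nonneg (y - x)
    rw [hR]
    linarith
  have henv := H C' hC'4 (le_max_left _ _) hp hp' h1 x R
  have hybx : y ∈ bx r a x R b := by
    unfold bx
    rw [mem_Icc]
    rw [abs_le] at hRy
    omega
  have hxbx : x ∈ bx r a x R a := by
    unfold bx
    rw [mem_Icc]
    have := (abs_nonneg (y - x)).trans hRy
    omega
  -- the lower bound of one slab
  have hlow : ∀ u, a ≤ u → u < b → ∀ x', ∀ y' ∈ bx r a x R (u + 1), |lt μ s κ r (u + 1) y' - lt μ s κ r u x'| ≤ (K - 2) * wd μ s (T u) →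
      Real.exp (-(qq P C' q u * gr (2 * P) (|lt μ s κ r u x'| / wd μ s (T u)) * EE μ s (T u))) ≤ kk μ s h η p M r u x' y' := by
    intro u hu hub x' y' _ hd
    have hwu := hw2 u hu hub
    have hw0 : 0 < wd μ s (T u) := by linarith
    have hEu := EE_pos (μ := μ) (s := s) (T u)
    have hT1 : 1 ≤ T u := (hm₁.trans (le_max_left _ _)).trans (h1.T1 u hu hub)
    have hforce : |h| * wd μ s (T u) ≤ c / 4 * EE μ s (T u) := by
      have h2 := wd_growth_one h0 hT1 (h1.TT u hu hub)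
      have h3 := h1.force
      have h4 : |h| * wd μ s (T u) * EE μ s Tt ≤ |h| * (2 * EE μ s (T u) * wd μ s Tt) := by
        rw [mul_assoc]
        exact mul_le_mul_of_nonneg_left h2 (abs_nonneg h)
      have h5 : 2 * EE μ s (T u) * (|h| * wd μ s Tt) ≤ 2 * EE μ s (T u) * (c / 8 * EE μ s Tt) :=
        mul_le_mul_of_nonneg_left h3 (by positivity)
      have h6 : |h| * wd μ s (T u) * EE μ s Tt ≤ c / 4 * EE μ s (T u) * EE μ s Tt := by
        calc _ ≤ |h| * (2 * EE μ s (T u) * wd μ s Tt) := h4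
          _ = 2 * EE μ s (T u) * (|h| * wd μ s Tt) := by ring
          _ ≤ _ := h5
          _ = _ := by ring
      exact le_of_mul_le_mul_right h6 hEt
    have hru := h1.rr u hu hub
    have hb1 := h1.b1 u hu hub
    have hb2 := h1.b2 u hu hub
    have hsum : bl M (r u) (r (u + 1) - r u) + ((r (u + 1) - r u) - bl M (r u) (r (u + 1) - r u)) = r (u + 1) - r u :=
      Nat.add_sub_cancel' (bl_le M (r u) (r (u + 1) - r u))
    have h2 := H2 (l2 (h1.T1 u hu hub)) (h1.NT u hu hub) (h1.q0 u hu hub) (h1.far u hu hub) hforce ((r u : ℤ), x')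
      (bl M (r u) (r (u + 1) - r u)) ((r (u + 1) - r u) - bl M (r u) (r (u + 1) - r u)) (y' - x') hb1 (by
        show (r u : ℤ) + (bl M (r u) (r (u + 1) - r u) : ℕ) + (((r (u + 1) - r u) - bl M (r u) (r (u + 1) - r u) : ℕ) : ℤ) ≤ _
        omega) (by rw [hsum]; exact hlen u hu hub) (by
        rw [hsum, ← lt_sub κ r u (u + 1) x' y' hru]
        exact hd)
    unfold kk
    rw [nk_K1 hp hp']
    refine le_trans (Real.exp_le_exp.2 (neg_le_neg ?_)) h2
    have h3 := lev_line (μ := μ) (s := s) (P := P) (p := ((r u : ℤ), x')) hw0 (h1.b3 u hu hub)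
    refine mul_le_mul_of_nonneg_right ?_ hEu.le
    have h5 : C₅ * (1 + q u) ^ 2 * fq16 (2 * P) (|lat16 μ s (bs u) ((r u : ℤ), x')| / wd μ s (T u) + 1) ≤
        C' * (1 + q u) ^ 2 * (gr (2 * P) 2 * gr (2 * P) (|lat16 μ s κ ((r u : ℤ), x')| / wd μ s (T u))) :=
      mul_le_mul (mul_le_mul_of_nonneg_right hC'5 (sq_nonneg _)) h3 (zero_le_one.trans (fq16_one _ _)) (by positivity)
    refine h5.trans (le_of_eq ?_)
    unfold qq lt
    ring
  have hKw : ∀ u, a ≤ u → u < b → (K - 2) / 2 * wd μ s (T u) ≤ (K - 2) * wd μ s (T u) - 1 := by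
    intro u hu hub
    have := hw2 u hu hub
    nlinarith
  have hKw0 : ∀ u, a ≤ u → u < b → 0 ≤ (K - 2) * wd μ s (T u) := by
    intro u hu hub
    have := hw2 u hu hub
    exact mul_nonneg (by linarith) (by linarith)
  have hfin : (∑ v ∈ Ico a b, ee μ s P C' T q Tt v) * gr (2 * P) (|ρ| / (2 * wd μ s Tt) + (K - 2)) * EE μ s Tt ≤
      C' * gr (2 * P) 2 * Q * gr (2 * P) (|ρ| / wd μ s Tt + K) * EE μ s Tt := by
    refine mul_le_mul_of_nonneg_right ?_ hEt.le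
    have h2 : |ρ| / (2 * wd μ s Tt) ≤ |ρ| / wd μ s Tt := div_le_div_of_nonneg_left (abs_nonneg _) hwt0 (by linarith)
    have h3 : 0 ≤ |ρ| / (2 * wd μ s Tt) := by positivity
    have h4 : 0 ≤ |ρ| / wd μ s Tt := by positivity
    have h5 : gr (2 * P) (|ρ| / (2 * wd μ s Tt) + (K - 2)) ≤ gr (2 * P) (|ρ| / wd μ s Tt + K) :=
      gr_mono _ (by linarith) (by linarith)
    have h6 : 0 ≤ C' * gr (2 * P) 2 * Q :=
      le_trans (sum_nonneg fun v _ => henv.e0 v) hQ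
    exact mul_le_mul hQ h5 (gr_nonneg _ (by linarith)) h6
  rcases Nat.lt_or_ge (a + 1) b with hb2 | hb2
  · -- at least two slabs
    obtain ⟨m, hm⟩ : ∃ m, b = a + 1 + m + 1 := ⟨b - a - 2, by omega⟩
    have hbm : b - 1 = a + 1 + m := by omega
    have h2 := cmp_low2 henv (κ := K - 2) (by linarith) hw2 hlow ρ (fun v hav hvb => ⟨z v, by
      unfold bx
      rw [mem_Icc]
      have h3 := hRz v hvb.le
      rw [abs_le] at h3
      omega, by rw [hz]; exact line_site κ r ρ v⟩) (m := m) (u := a) le_rfl (by omega) (x := x) (y := y) (by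
        have := hKw a le_rfl (by omega)
        linarith) (by rw [← hm]; exact hybx) (by
        rw [← hm, ← hbm]
        have := hKw (b - 1) (by omega) (by omega)
        linarith)
    rw [← hm, cmp_nk h1.rr (m + 2) a le_rfl (by omega) x hxbx y, show a + (m + 2) = b from by omega] at h2
    exact le_trans (Real.exp_le_exp.2 (neg_le_neg hfin)) h2
  · -- one slab
    have hb : b = a + 1 := by omega
    have hw0 := hKw a le_rfl hab
    have hw1 := hKw0 a le_rfl hab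
    rw [show b - 1 = a from by omega] at hy
    have hd : |lt μ s κ r (a + 1) y - lt μ s κ r a x| ≤ (K - 2) * wd μ s (T a) := by
      have h3 := abs_add_le (lt μ s κ r (a + 1) y - ρ) (ρ - lt μ s κ r a x)
      rw [sub_add_sub_cancel, abs_sub_comm ρ] at h3
      rw [hb] at hy
      linarith
    have h2 := hlow a le_rfl hab x y (by rw [← hb]; exact hybx) hd
    have h3 := henv.lev_near (κ := K - 2) (by linarith) ρ le_rfl hab (x := x) (by linarith)
    have h4 : kk μ s h η p M r a x y = nk μ s h η p M (r a) (r b - r a) x y := by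
      unfold kk
      rw [hb]
    rw [h4] at h2
    refine le_trans (Real.exp_le_exp.2 (neg_le_neg (le_trans h3 ?_))) h2
    have h5 : ∑ v ∈ Ico a b, ee μ s P C' T q Tt v = ee μ s P C' T q Tt a := by
      rw [hb, Nat.Ico_succ_singleton, sum_singleton]
    rw [h5] at hfin
    exact hfin

end

end Pool.Agent.W_7d29a1_C1.FarW89
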