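import Pool.Agent.W_7d29a1_LB.Swap82
import Pool.Agent.W_7d29a1_HZ.Act

/-!
[C1] MEET_d, LEAF M7 (helper24; row 683 (7b) of helper48), deterministic part. Two polymers with pinned ends in the same environment:
exchange of the tails (same end) and of the heads (same start), hence the total variation bound `claim1`, `claim2`; centre paths
(`exists_center`) and the three corners (`corners`).
-/

set_option autoImplicit false

namespace Pool.Agent.W_7d29a1_C1.Q24

open MeasureTheory ProbabilityTheory Filter Finset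
open Pool.Agent.W_7d29a1_F Pool.Agent.W_7d29a1_X
open Pool.Agent.W_7d29a1_HZ (gp)
open Pool.Agent.W_7d29a1_LB (cut cut_sub pos_cut_le pos_cut_ge cut_cut dst pth_cut)

noncomputable section

/-- The weight of the path `S` (steps) of the polymer from `(0, x)` to `(n, y)`. -/
def Gw (μ : Measure ℝ) (s : ℝ) (η : Env) (n : ℕ) (x y : ℤ) (S : Finset ℕ) : ℝ := gp μ s (sh (0, x) η) n (y - x) S

/-- The two paths have no common site in the rows `[a, b]`. -/
def NMt (x x' : ℤ) (a b : ℕ) (S S' : Finset ℕ) : Prop := ∀ i, a ≤ i → i ≤ b → x + pos S i ≠ x' + pos S' i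

open Classical in
/-- The quenched probability of an event of two independent polymers with pinned ends. -/
def PQ (μ : Measure ℝ) (s : ℝ) (η : Env) (n : ℕ) (x y x' y' : ℤ) (A : Finset ℕ → Finset ℕ → Prop) : ℝ :=
  ∑ S ∈ (range n).powerset, ∑ S' ∈ (range n).powerset, Gw μ s η n x y S * Gw μ s η n x' y' S' * (if A S S' then 1 else 0)

open Classical in
/-- The quenched probability of an event of one polymer with pinned ends. -/
def PO (μ : Measure ℝ) (s : ℝ) (η : Env) (n : ℕ) (x y : ℤ) (A : Finset ℕ → Prop) : ℝ :=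
  ∑ S ∈ (range n).powerset, Gw μ s η n x y S * (if A S then 1 else 0)

variable {μ : Measure ℝ} {s : ℝ}

theorem Gw_nonneg (η : Env) (n : ℕ) (x y : ℤ) (S : Finset ℕ) : 0 ≤ Gw μ s η n x y S := Pool.Agent.W_7d29a1_HZ.gp_nonneg _ _ _ _

theorem Gw_sum (η : Env) {n : ℕ} {x y : ℤ} (h0 : x ≤ y) (h1 : y ≤ x + n) : ∑ S ∈ (range n).powerset, Gw μ s η n x y S = 1 :=
  Pool.Agent.W_7d29a1_HZ.gp_sum _ (by omega) (by omega)

theorem Gw_of_ne {η : Env} {n : ℕ} {x y : ℤ} {S : Finset ℕ} (h : x + pos S n ≠ y) : Gw μ s η n x y S = 0 := by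
  unfold Gw gp
  rw [if_neg]
  intro h1
  exact h (by omega)

theorem ind_nonneg {A : Prop} [Decidable A] : (0 : ℝ) ≤ if A then 1 else 0 := by split_ifs <;> norm_num

theorem ind_le_one {A : Prop} [Decidable A] : (if A then 1 else 0 : ℝ) ≤ 1 := by split_ifs <;> norm_num

theorem PO_nonneg (η : Env) (n : ℕ) (x y : ℤ) (A : Finset ℕ → Prop) : 0 ≤ PO μ s η n x y A := by
  classical
  exact sum_nonneg fun S _ => mul_nonneg (Gw_nonneg _ _ _ _ _) ind_nonneg

theorem PQ_nonneg (η : Env) (n : ℕ) (x y x' y' : ℤ) (A : Finset ℕ → Finset ℕ → Prop) : 0 ≤ PQ μ s η n x y x' y' A := by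
  classical
  exact sum_nonneg fun S _ => sum_nonneg fun S' _ => mul_nonneg (mul_nonneg (Gw_nonneg _ _ _ _ _) (Gw_nonneg _ _ _ _ _)) ind_nonneg

theorem PO_compl (η : Env) {n : ℕ} {x y : ℤ} (h0 : x ≤ y) (h1 : y ≤ x + n) (A : Finset ℕ → Prop) :
    PO μ s η n x y A = 1 - PO μ s η n x y (fun S => ¬ A S) := by
  classical
  have h : PO μ s η n x y A + PO μ s η n x y (fun S => ¬ A S) = 1 := by
    rw [← Gw_sum (μ := μ) (s := s) η h0 h1]
    unfold PO
    rw [← sum_add_distrib]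
    refine sum_congr rfl fun S _ => ?_
    by_cases hA : A S
    · rw [if_pos hA, if_neg (not_not.2 hA)]
      ring
    · rw [if_neg hA, if_pos hA]
      ring
  linarith

theorem PO_mono {η : Env} {n : ℕ} {x y : ℤ} {A B : Finset ℕ → Prop} (h : ∀ S, S ⊆ range n → x + pos S n = y → A S → B S) :
    PO μ s η n x y A ≤ PO μ s η n x y B := by
  classical
  unfold PO
  refine sum_le_sum fun S hS => ?_
  by_cases hy : x + pos S n = y
  · refine mul_le_mul_of_nonneg_left ?_ (Gw_nonneg _ _ _ _ _)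
    by_cases hA : A S
    · rw [if_pos hA, if_pos (h S (mem_powerset.1 hS) hy hA)]
    · rw [if_neg hA]
      exact ind_nonneg
  · rw [Gw_of_ne hy, zero_mul, zero_mul]

theorem PO_or (η : Env) (n : ℕ) (x y : ℤ) (A B : Finset ℕ → Prop) :
    PO μ s η n x y (fun S => A S ∨ B S) ≤ PO μ s η n x y A + PO μ s η n x y B := by
  classical
  unfold PO
  rw [← sum_add_distrib]
  refine sum_le_sum fun S _ => ?_
  rw [← mul_add]
  refine mul_le_mul_of_nonneg_left ?_ (Gw_nonneg _ _ _ _ _)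
  by_cases hA : A S
  · rw [if_pos (Or.inl hA), if_pos hA]
    linarith [ind_nonneg (A := B S)]
  · by_cases hB : B S
    · rw [if_pos (Or.inr hB), if_pos hB]
      linarith [ind_nonneg (A := A S)]
    · rw [if_neg (by tauto), if_neg hA, if_neg hB]
      norm_num

/-- If the masses of two events together exceed one, they have a common path. -/
theorem exists_both {η : Env} {n : ℕ} {x y : ℤ} (h0 : x ≤ y) (h1 : y ≤ x + n) {A B : Finset ℕ → Prop}
    (h : PO μ s η n x y (fun S => ¬ A S) + PO μ s η n x y (fun S => ¬ B S) < 1) : ∃ S, S ⊆ range n ∧ x + pos S n = y ∧ A S ∧ B S := by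
  by_contra hcon
  push Not at hcon
  have h2 : PO μ s η n x y (fun _ => True) ≤ PO μ s η n x y (fun S => ¬ A S ∨ ¬ B S) := PO_mono fun S hS hy _ => by
    by_cases hA : A S
    · exact Or.inr (hcon S hS hy hA)
    · exact Or.inl hA
  have h3 : PO μ s η n x y (fun _ => True) = 1 := by
    classical
    rw [← Gw_sum (μ := μ) (s := s) η h0 h1]
    unfold PO
    refine sum_congr rfl fun S _ => ?_
    rw [if_pos trivial, mul_one]
  have h4 := PO_or (μ := μ) (s := s) η n x y (fun S => ¬ A S) (fun S => ¬ B S)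
  linarith

/-! ### The exchange -/

theorem sh_sh (x x' : ℤ) (η : Env) : sh (0, x' - x) (sh (0, x) η) = sh (0, x') η := by
  funext p
  show η (_, _) = η (_, _)
  congr 1
  refine Prod.ext ?_ ?_
  · show p.1 + 0 + 0 = p.1 + 0
    ring
  · show p.2 + (x' - x) + x = p.2 + x'
    ring

theorem Gw_eq (η : Env) (n : ℕ) (x y : ℤ) (S : Finset ℕ) :
    Gw μ s η n x y S = if x + pos S n = y then pth μ s (sh (0, x) η) n S / W μ s (sh (0, x) η) 0 n (y - x) else 0 := by
  unfold Gw gp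
  by_cases h : x + pos S n = y
  · rw [if_pos h, if_pos (by omega)]
  · rw [if_neg h, if_neg (by omega)]

/-- Exchange of the tails at a common site: the weights, same end. -/
theorem Gw_cut (η : Env) {n τ : ℕ} (hτ : τ ≤ n) {x x' y : ℤ} {S S' : Finset ℕ} (h : x + pos S τ = x' + pos S' τ) :
    Gw μ s η n x y (cut τ S S') * Gw μ s η n x' y (cut τ S' S) = Gw μ s η n x y S * Gw μ s η n x' y S' := by
  have hd : dst (x' - x) S S' τ = 0 := by
    unfold dst
    omega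
  have hp := pth_cut (μ := μ) (s := s) (sh (0, x) η) hτ hd
  rw [sh_sh] at hp
  have e1 : pos (cut τ S S') n = pos S τ + (pos S' n - pos S' τ) := pos_cut_ge hτ _ _
  have e2 : pos (cut τ S' S) n = pos S' τ + (pos S n - pos S τ) := pos_cut_ge hτ _ _
  rw [Gw_eq, Gw_eq, Gw_eq, Gw_eq]
  by_cases h1 : x + pos S n = y
  · by_cases h2 : x' + pos S' n = y
    · rw [if_pos (show x + pos (cut τ S S') n = y by omega), if_pos (show x' + pos (cut τ S' S) n = y by omega), if_pos h1, if_pos h2,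
        div_mul_div_comm, div_mul_div_comm, hp]
    · rw [if_neg (show ¬ x + pos (cut τ S S') n = y by omega), if_neg h2, zero_mul, mul_zero]
  · by_cases h2 : x' + pos S' n = y
    · rw [if_neg (show ¬ x' + pos (cut τ S' S) n = y by omega), if_neg h1, zero_mul, mul_zero]
    · rw [if_neg (show ¬ x' + pos (cut τ S' S) n = y by omega), if_neg h1, zero_mul, mul_zero]

/-- Exchange of the heads at a common site: the weights, same start. -/
theorem Gw_cut' (η : Env) {n τ : ℕ} (hτ : τ ≤ n) {x y y' : ℤ} {S S' : Finset ℕ} (h : pos S τ = pos S' τ) :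
    Gw μ s η n x y (cut τ S' S) * Gw μ s η n x y' (cut τ S S') = Gw μ s η n x y S * Gw μ s η n x y' S' := by
  have hd : dst 0 S S' τ = 0 := by
    unfold dst
    omega
  have hp := pth_cut (μ := μ) (s := s) (sh (0, x) η) hτ hd
  rw [show sh (0, 0) (sh (0, x) η) = sh (0, x) η from by
    funext p
    show η (_, _) = η (_, _)
    congr 1
    refine Prod.ext ?_ ?_
    · show p.1 + 0 + 0 = p.1 + 0
      ring
    · show p.2 + 0 + x = p.2 + x
      ring] at hp
  have e1 : pos (cut τ S S') n = pos S τ + (pos S' n - pos S' τ) := pos_cut_ge hτ _ _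
  have e2 : pos (cut τ S' S) n = pos S' τ + (pos S n - pos S τ) := pos_cut_ge hτ _ _
  rw [Gw_eq, Gw_eq, Gw_eq, Gw_eq]
  by_cases h1 : x + pos S n = y
  · by_cases h2 : x + pos S' n = y'
    · rw [if_pos (show x + pos (cut τ S' S) n = y by omega), if_pos (show x + pos (cut τ S S') n = y' by omega), if_pos h1, if_pos h2,
        div_mul_div_comm, div_mul_div_comm, ← hp, mul_comm (pth μ s (sh (0, x) η) n (cut τ S' S))]
    · rw [if_neg (show ¬ x + pos (cut τ S S') n = y' by omega), if_neg h2, mul_zero, mul_zero]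
  · rw [if_neg (show ¬ x + pos (cut τ S' S) n = y by omega), if_neg h1, zero_mul, zero_mul]

/-- The first common site in the rows `≥ i₀`. -/
def fmI (x x' : ℤ) (i₀ : ℕ) (P : Finset ℕ × Finset ℕ) : ℕ := sInf {i | i₀ ≤ i ∧ x + pos P.1 i = x' + pos P.2 i}

theorem fmI_spec {x x' : ℤ} {i₀ i₁ : ℕ} {P : Finset ℕ × Finset ℕ} (h : ¬ NMt x x' i₀ i₁ P.1 P.2) :
    i₀ ≤ fmI x x' i₀ P ∧ fmI x x' i₀ P ≤ i₁ ∧ x + pos P.1 (fmI x x' i₀ P) = x' + pos P.2 (fmI x x' i₀ P) := by
  unfold NMt at h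
  push Not at h
  obtain ⟨i, h1, h2, h3⟩ := h
  have hi : i ∈ ({i | i₀ ≤ i ∧ x + pos P.1 i = x' + pos P.2 i} : Set ℕ) := ⟨h1, h3⟩
  have hs : fmI x x' i₀ P ∈ ({i | i₀ ≤ i ∧ x + pos P.1 i = x' + pos P.2 i} : Set ℕ) := Nat.sInf_mem ⟨i, hi⟩
  exact ⟨hs.1, (Nat.sInf_le hi).trans h2, hs.2⟩

theorem fmI_eq {x x' : ℤ} {i₀ i₁ : ℕ} {P Q : Finset ℕ × Finset ℕ} (h : ¬ NMt x x' i₀ i₁ P.1 P.2)
    (hQ : ∀ i ≤ fmI x x' i₀ P, (x + pos Q.1 i = x' + pos Q.2 i ↔ x + pos P.1 i = x' + pos P.2 i)) :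
    fmI x x' i₀ Q = fmI x x' i₀ P := by
  obtain ⟨h0, -, h2⟩ := fmI_spec h
  have h3 : fmI x x' i₀ P ∈ ({i | i₀ ≤ i ∧ x + pos Q.1 i = x' + pos Q.2 i} : Set ℕ) := ⟨h0, (hQ _ le_rfl).2 h2⟩
  refine le_antisymm (Nat.sInf_le h3) ?_
  by_contra hlt
  rw [not_le] at hlt
  obtain ⟨g1, g2⟩ : fmI x x' i₀ Q ∈ ({i | i₀ ≤ i ∧ x + pos Q.1 i = x' + pos Q.2 i} : Set ℕ) := Nat.sInf_mem ⟨_, h3⟩
  have g3 : fmI x x' i₀ Q ∈ ({i | i₀ ≤ i ∧ x + pos P.1 i = x' + pos P.2 i} : Set ℕ) := ⟨g1, (hQ _ hlt.le).1 g2⟩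
  exact absurd (Nat.sInf_le g3) (not_le.2 hlt)

open Classical in
/-- Abstract exchange. -/
theorem exch_le {n : ℕ} (u v : Finset ℕ → ℝ) (hu : ∀ S, 0 ≤ u S) (hv : ∀ S, 0 ≤ v S) (hus : ∑ S ∈ (range n).powerset, u S = 1)
    (hvs : ∑ S ∈ (range n).powerset, v S = 1) (N : Finset ℕ × Finset ℕ → Prop) (σ : Finset ℕ × Finset ℕ → Finset ℕ × Finset ℕ)
    (hσ : ∀ P ∈ (range n).powerset ×ˢ (range n).powerset, ¬ N P → σ P ∈ (range n).powerset ×ˢ (range n).powerset ∧ ¬ N (σ P) ∧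
      σ (σ P) = P ∧ u (σ P).1 * v (σ P).2 = u P.1 * v P.2) (A B : Finset ℕ → Prop)
    (hAB : ∀ P ∈ (range n).powerset ×ˢ (range n).powerset, ¬ N P → A P.1 → B (σ P).2) :
    ∑ S ∈ (range n).powerset, u S * (if A S then 1 else 0) ≤ ∑ S ∈ (range n).powerset, v S * (if B S then 1 else 0) +
      ∑ S ∈ (range n).powerset, ∑ S' ∈ (range n).powerset, u S * v S' * (if N (S, S') then 1 else 0) := by
  have e1 : ∑ S ∈ (range n).powerset, u S * (if A S then 1 else 0) =
      ∑ P ∈ (range n).powerset ×ˢ (range n).powerset, u P.1 * v P.2 * (if A P.1 then 1 else 0) := by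
    rw [sum_product]
    refine sum_congr rfl fun S _ => ?_
    calc u S * (if A S then 1 else 0) = u S * (if A S then 1 else 0) * ∑ S' ∈ (range n).powerset, v S' := by rw [hvs, mul_one]
      _ = _ := by
        rw [mul_sum]
        refine sum_congr rfl fun S' _ => ?_
        ring
  have e2 : ∑ S ∈ (range n).powerset, v S * (if B S then 1 else 0) =
      ∑ P ∈ (range n).powerset ×ˢ (range n).powerset, u P.1 * v P.2 * (if B P.2 then 1 else 0) := by
    rw [sum_product_right]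
    refine sum_congr rfl fun S _ => ?_
    calc v S * (if B S then 1 else 0) = (∑ S' ∈ (range n).powerset, u S') * (v S * (if B S then 1 else 0)) := by rw [hus, one_mul]
      _ = _ := by
        rw [sum_mul]
        refine sum_congr rfl fun S' _ => ?_
        ring
  have e3 : ∑ S ∈ (range n).powerset, ∑ S' ∈ (range n).powerset, u S * v S' * (if N (S, S') then 1 else 0) =
      ∑ P ∈ (range n).powerset ×ˢ (range n).powerset, u P.1 * v P.2 * (if N P then 1 else 0) := by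
    rw [sum_product]
  rw [e1, e2, e3]
  -- split the left sum
  have e4 : ∑ P ∈ (range n).powerset ×ˢ (range n).powerset, u P.1 * v P.2 * (if A P.1 then 1 else 0) ≤
      ∑ P ∈ ((range n).powerset ×ˢ (range n).powerset).filter (fun P => ¬ N P), u P.1 * v P.2 * (if A P.1 then 1 else 0) +
      ∑ P ∈ (range n).powerset ×ˢ (range n).powerset, u P.1 * v P.2 * (if N P then 1 else 0) := by
    rw [sum_filter, ← sum_add_distrib]
    refine sum_le_sum fun P _ => ?_
    have h0 : 0 ≤ u P.1 * v P.2 := mul_nonneg (hu _) (hv _)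
    by_cases hN : N P
    · rw [if_neg (not_not.2 hN), if_pos hN, zero_add]
      exact mul_le_mul_of_nonneg_left ind_le_one h0
    · rw [if_pos hN, if_neg hN, mul_zero, add_zero]
  have e5 : ∑ P ∈ ((range n).powerset ×ˢ (range n).powerset).filter (fun P => ¬ N P), u P.1 * v P.2 * (if A P.1 then 1 else 0) ≤
      ∑ P ∈ ((range n).powerset ×ˢ (range n).powerset).filter (fun P => ¬ N P), u P.1 * v P.2 * (if B P.2 then 1 else 0) := by
    have h1 : ∑ P ∈ ((range n).powerset ×ˢ (range n).powerset).filter (fun P => ¬ N P), u P.1 * v P.2 * (if B P.2 then (1 : ℝ) else 0) =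
        ∑ P ∈ ((range n).powerset ×ˢ (range n).powerset).filter (fun P => ¬ N P),
          u (σ P).1 * v (σ P).2 * (if B (σ P).2 then (1 : ℝ) else 0) := by
      refine (sum_nbij' σ σ (fun P hP => ?_) (fun P hP => ?_) (fun P hP => ?_) (fun P hP => ?_) (fun P hP => rfl)).symm
      · rw [mem_filter] at hP ⊢
        obtain ⟨g1, g2, -, -⟩ := hσ P hP.1 hP.2
        exact ⟨g1, g2⟩
      · rw [mem_filter] at hP ⊢
        obtain ⟨g1, g2, -, -⟩ := hσ P hP.1 hP.2
        exact ⟨g1, g2⟩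
      · rw [mem_filter] at hP
        exact (hσ P hP.1 hP.2).2.2.1
      · rw [mem_filter] at hP
        exact (hσ P hP.1 hP.2).2.2.1
    rw [h1]
    refine sum_le_sum fun P hP => ?_
    rw [mem_filter] at hP
    obtain ⟨-, -, -, g4⟩ := hσ P hP.1 hP.2
    rw [g4]
    refine mul_le_mul_of_nonneg_left ?_ (mul_nonneg (hu _) (hv _))
    by_cases hA : A P.1
    · rw [if_pos hA, if_pos (hAB P hP.1 hP.2 hA)]
    · rw [if_neg hA]
      exact ind_nonneg
  have e6 : ∑ P ∈ ((range n).powerset ×ˢ (range n).powerset).filter (fun P => ¬ N P), u P.1 * v P.2 * (if B P.2 then (1 : ℝ) else 0) ≤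
      ∑ P ∈ (range n).powerset ×ˢ (range n).powerset, u P.1 * v P.2 * (if B P.2 then (1 : ℝ) else 0) :=
    sum_le_sum_of_subset_of_nonneg (filter_subset _ _) fun P _ _ => mul_nonneg (mul_nonneg (hu _) (hv _)) ind_nonneg
  linarith

/-- **Same end**: an event of the rows `≥ a` has almost the same mass for the two starts, if the paths meet in `[0, a]`. -/
theorem claim1 (η : Env) {n a : ℕ} (han : a ≤ n) {x x' y : ℤ} (h0 : x ≤ y) (h1 : y ≤ x + n) (h0' : x' ≤ y) (h1' : y ≤ x' + n)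
    (A : (ℕ → ℤ) → Prop) (hA : ∀ X Y : ℕ → ℤ, (∀ i, a ≤ i → X i = Y i) → A X → A Y) :
    PO μ s η n x y (fun S => A fun i => x + pos S i) ≤ PO μ s η n x' y (fun S => A fun i => x' + pos S i) +
      PQ μ s η n x y x' y (NMt x x' 0 a) := by
  classical
  unfold PO PQ
  refine exch_le (fun S => Gw μ s η n x y S) (fun S => Gw μ s η n x' y S) (fun S => Gw_nonneg _ _ _ _ _) (fun S => Gw_nonneg _ _ _ _ _)
    (Gw_sum η h0 h1) (Gw_sum η h0' h1') (fun P => NMt x x' 0 a P.1 P.2)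
    (fun P => (cut (fmI x x' 0 P) P.1 P.2, cut (fmI x x' 0 P) P.2 P.1)) (fun P hP hN => ?_) _ _ (fun P hP hN hA1 => ?_)
  · rw [mem_product, mem_powerset, mem_powerset] at hP
    obtain ⟨g1, g2, g3⟩ := fmI_spec hN
    have e : fmI x x' 0 (cut (fmI x x' 0 P) P.1 P.2, cut (fmI x x' 0 P) P.2 P.1) = fmI x x' 0 P := by
      refine fmI_eq hN fun i hi => ?_
      show x + pos (cut (fmI x x' 0 P) P.1 P.2) i = x' + pos (cut (fmI x x' 0 P) P.2 P.1) i ↔ _
      rw [pos_cut_le hi, pos_cut_le hi]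
    refine ⟨?_, ?_, ?_, ?_⟩
    · rw [mem_product, mem_powerset, mem_powerset]
      exact ⟨cut_sub hP.1 hP.2, cut_sub hP.2 hP.1⟩
    · intro hN'
      refine hN' (fmI x x' 0 P) g1 g2 ?_
      show x + pos (cut (fmI x x' 0 P) P.1 P.2) _ = x' + pos (cut (fmI x x' 0 P) P.2 P.1) _
      rw [pos_cut_le le_rfl, pos_cut_le le_rfl]
      exact g3
    · show (cut (fmI x x' 0 (cut (fmI x x' 0 P) P.1 P.2, cut (fmI x x' 0 P) P.2 P.1)) _ _,
        cut (fmI x x' 0 (cut (fmI x x' 0 P) P.1 P.2, cut (fmI x x' 0 P) P.2 P.1)) _ _) = P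
      rw [e]
      exact Prod.ext (cut_cut _ _ _) (cut_cut _ _ _)
    · exact Gw_cut η (g2.trans han) g3
  · obtain ⟨g1, g2, g3⟩ := fmI_spec hN
    refine hA _ _ (fun i hi => ?_) hA1
    show x + pos P.1 i = x' + pos (cut (fmI x x' 0 P) P.2 P.1) i
    rw [pos_cut_ge (g2.trans hi)]
    omega

/-- **Same start**: an event of the rows `≤ b` has almost the same mass for the two ends, if the paths meet in `[b, n]`. -/
theorem claim2 (η : Env) {n b : ℕ} {x y y' : ℤ} (h0 : x ≤ y) (h1 : y ≤ x + n) (h0' : x ≤ y') (h1' : y' ≤ x + n)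
    (A : (ℕ → ℤ) → Prop) (hA : ∀ X Y : ℕ → ℤ, (∀ i, i ≤ b → X i = Y i) → A X → A Y) :
    PO μ s η n x y (fun S => A fun i => x + pos S i) ≤ PO μ s η n x y' (fun S => A fun i => x + pos S i) +
      PQ μ s η n x y x y' (NMt x x b n) := by
  classical
  unfold PO PQ
  refine exch_le (fun S => Gw μ s η n x y S) (fun S => Gw μ s η n x y' S) (fun S => Gw_nonneg _ _ _ _ _) (fun S => Gw_nonneg _ _ _ _ _)
    (Gw_sum η h0 h1) (Gw_sum η h0' h1') (fun P => NMt x x b n P.1 P.2)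
    (fun P => (cut (fmI x x b P) P.2 P.1, cut (fmI x x b P) P.1 P.2)) (fun P hP hN => ?_) _ _ (fun P hP hN hA1 => ?_)
  · rw [mem_product, mem_powerset, mem_powerset] at hP
    obtain ⟨g1, g2, g3⟩ := fmI_spec hN
    have e : fmI x x b (cut (fmI x x b P) P.2 P.1, cut (fmI x x b P) P.1 P.2) = fmI x x b P := by
      refine fmI_eq hN fun i hi => ?_
      show x + pos (cut (fmI x x b P) P.2 P.1) i = x + pos (cut (fmI x x b P) P.1 P.2) i ↔ _
      rw [pos_cut_le hi, pos_cut_le hi]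
      exact ⟨fun h => h.symm, fun h => h.symm⟩
    refine ⟨?_, ?_, ?_, ?_⟩
    · rw [mem_product, mem_powerset, mem_powerset]
      exact ⟨cut_sub hP.2 hP.1, cut_sub hP.1 hP.2⟩
    · intro hN'
      refine hN' (fmI x x b P) g1 g2 ?_
      show x + pos (cut (fmI x x b P) P.2 P.1) _ = x + pos (cut (fmI x x b P) P.1 P.2) _
      rw [pos_cut_le le_rfl, pos_cut_le le_rfl]
      exact g3.symm
    · show (cut (fmI x x b (cut (fmI x x b P) P.2 P.1, cut (fmI x x b P) P.1 P.2)) _ _,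
        cut (fmI x x b (cut (fmI x x b P) P.2 P.1, cut (fmI x x b P) P.1 P.2)) _ _) = P
      rw [e]
      exact Prod.ext (cut_cut _ _ _) (cut_cut _ _ _)
    · exact Gw_cut' η g2 (by omega)
  · obtain ⟨g1, g2, g3⟩ := fmI_spec hN
    refine hA _ _ (fun i hi => ?_) hA1
    show x + pos P.1 i = x + pos (cut (fmI x x b P) P.1 P.2) i
    rw [pos_cut_le (hi.trans g1)]

/-! ### The corners -/

/-- The path is within `ρ` of the centre `Z` in the rows `[a, b]`. -/
def Nr (Z : ℕ → ℤ) (ρ : ℝ) (a b : ℕ) (X : ℕ → ℤ) : Prop := ∀ i, a ≤ i → i ≤ b → |((X i - Z i : ℤ) : ℝ)| ≤ ρ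

theorem Nr.congr_ge {Z : ℕ → ℤ} {ρ : ℝ} {a b : ℕ} (X Y : ℕ → ℤ) (h : ∀ i, a ≤ i → X i = Y i) (hX : Nr Z ρ a b X) : Nr Z ρ a b Y :=
  fun i h1 h2 => by
    rw [← h i h1]
    exact hX i h1 h2

theorem Nr.congr_le {Z : ℕ → ℤ} {ρ : ℝ} {a b : ℕ} (X Y : ℕ → ℤ) (h : ∀ i, i ≤ b → X i = Y i) (hX : Nr Z ρ a b X) : Nr Z ρ a b Y :=
  fun i h1 h2 => by
    rw [← h i h2]
    exact hX i h1 h2

/-- The centres of two polymers with the same end which meet are close. -/
theorem centers1 (η : Env) {n a b : ℕ} (han : a ≤ n) {x x' y : ℤ} (h0 : x ≤ y) (h1 : y ≤ x + n) (h0' : x' ≤ y) (h1' : y ≤ x' + n)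
    {Z Z' : ℕ → ℤ} {ρ e : ℝ} (he : e ≤ 1 / 4) (hZ : PO μ s η n x y (fun S => ¬ Nr Z ρ a b fun i => x + pos S i) ≤ e)
    (hZ' : PO μ s η n x' y (fun S => ¬ Nr Z' ρ a b fun i => x' + pos S i) ≤ e)
    (hq : PQ μ s η n x y x' y (NMt x x' 0 a) ≤ 1 / 4) : ∀ i, a ≤ i → i ≤ b → |((Z i - Z' i : ℤ) : ℝ)| ≤ 2 * ρ := by
  have h2 := claim1 (μ := μ) (s := s) η han h0 h1 h0' h1' (Nr Z ρ a b) fun X Y h => Nr.congr_ge X Y h
  have h3 := PO_compl (μ := μ) (s := s) η h0 h1 (fun S => Nr Z ρ a b fun i => x + pos S i)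
  have h4 := PO_compl (μ := μ) (s := s) η h0' h1' (fun S => Nr Z ρ a b fun i => x' + pos S i)
  obtain ⟨S, -, -, g1, g2⟩ := exists_both (μ := μ) (s := s) (η := η) h0' h1' (A := fun S => Nr Z ρ a b fun i => x' + pos S i)
    (B := fun S => Nr Z' ρ a b fun i => x' + pos S i) (by linarith)
  intro i hi1 hi2
  have k1 := abs_le.1 (g1 i hi1 hi2)
  have k2 := abs_le.1 (g2 i hi1 hi2)
  push_cast at k1 k2 ⊢
  rw [abs_le]
  constructor <;> linarith [k1.1, k1.2, k2.1, k2.2]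

/-- The centres of two polymers with the same start which meet are close. -/
theorem centers2 (η : Env) {n a b : ℕ} {x y y' : ℤ} (h0 : x ≤ y) (h1 : y ≤ x + n) (h0' : x ≤ y') (h1' : y' ≤ x + n)
    {Z Z' : ℕ → ℤ} {ρ e : ℝ} (he : e ≤ 1 / 4) (hZ : PO μ s η n x y (fun S => ¬ Nr Z ρ a b fun i => x + pos S i) ≤ e)
    (hZ' : PO μ s η n x y' (fun S => ¬ Nr Z' ρ a b fun i => x + pos S i) ≤ e)
    (hq : PQ μ s η n x y x y' (NMt x x b n) ≤ 1 / 4) : ∀ i, a ≤ i → i ≤ b → |((Z i - Z' i : ℤ) : ℝ)| ≤ 2 * ρ := by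
  have h2 := claim2 (μ := μ) (s := s) η h0 h1 h0' h1' (Nr Z ρ a b) fun X Y h => Nr.congr_le X Y h
  have h3 := PO_compl (μ := μ) (s := s) η h0 h1 (fun S => Nr Z ρ a b fun i => x + pos S i)
  have h4 := PO_compl (μ := μ) (s := s) η h0' h1' (fun S => Nr Z ρ a b fun i => x + pos S i)
  obtain ⟨S, -, -, g1, g2⟩ := exists_both (μ := μ) (s := s) (η := η) h0' h1' (A := fun S => Nr Z ρ a b fun i => x + pos S i)
    (B := fun S => Nr Z' ρ a b fun i => x + pos S i) (by linarith)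
  intro i hi1 hi2
  have k1 := abs_le.1 (g1 i hi1 hi2)
  have k2 := abs_le.1 (g2 i hi1 hi2)
  push_cast at k1 k2 ⊢
  rw [abs_le]
  constructor <;> linarith [k1.1, k1.2, k2.1, k2.2]

theorem PQ_mono {η : Env} {n : ℕ} {x y x' y' : ℤ} {A B : Finset ℕ → Finset ℕ → Prop}
    (h : ∀ S S', S ⊆ range n → S' ⊆ range n → x + pos S n = y → x' + pos S' n = y' → A S S' → B S S') :
    PQ μ s η n x y x' y' A ≤ PQ μ s η n x y x' y' B := by
  classical
  unfold PQ
  refine sum_le_sum fun S hS => sum_le_sum fun S' hS' => ?_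
  by_cases hy : x + pos S n = y
  · by_cases hy' : x' + pos S' n = y'
    · refine mul_le_mul_of_nonneg_left ?_ (mul_nonneg (Gw_nonneg _ _ _ _ _) (Gw_nonneg _ _ _ _ _))
      by_cases hA : A S S'
      · rw [if_pos hA, if_pos (h S S' (mem_powerset.1 hS) (mem_powerset.1 hS') hy hy' hA)]
      · rw [if_neg hA]
        exact ind_nonneg
    · rw [Gw_of_ne hy', mul_zero, zero_mul, zero_mul]
  · rw [Gw_of_ne hy, zero_mul, zero_mul, zero_mul]

theorem PQ_or (η : Env) (n : ℕ) (x y x' y' : ℤ) (A B : Finset ℕ → Finset ℕ → Prop) :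
    PQ μ s η n x y x' y' (fun S S' => A S S' ∨ B S S') ≤ PQ μ s η n x y x' y' A + PQ μ s η n x y x' y' B := by
  classical
  unfold PQ
  rw [← sum_add_distrib]
  refine sum_le_sum fun S _ => ?_
  rw [← sum_add_distrib]
  refine sum_le_sum fun S' _ => ?_
  rw [← mul_add]
  refine mul_le_mul_of_nonneg_left ?_ (mul_nonneg (Gw_nonneg _ _ _ _ _) (Gw_nonneg _ _ _ _ _))
  by_cases hA : A S S'
  · rw [if_pos (Or.inl hA), if_pos hA]
    linarith [ind_nonneg (A := B S S')]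
  · by_cases hB : B S S'
    · rw [if_pos (Or.inr hB), if_pos hB]
      linarith [ind_nonneg (A := A S S')]
    · rw [if_neg (by tauto), if_neg hA, if_neg hB]
      norm_num

theorem PQ_left (η : Env) {n : ℕ} {x y x' y' : ℤ} (h0 : x' ≤ y') (h1 : y' ≤ x' + n) (A : Finset ℕ → Prop) :
    PQ μ s η n x y x' y' (fun S _ => A S) = PO μ s η n x y A := by
  classical
  unfold PQ PO
  refine sum_congr rfl fun S _ => ?_
  calc ∑ S' ∈ (range n).powerset, Gw μ s η n x y S * Gw μ s η n x' y' S' * (if A S then 1 else 0) =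
      (∑ S' ∈ (range n).powerset, Gw μ s η n x' y' S') * (Gw μ s η n x y S * (if A S then 1 else 0)) := by
        rw [sum_mul]
        refine sum_congr rfl fun S' _ => ?_
        ring
    _ = _ := by rw [Gw_sum η h0 h1, one_mul]

theorem PQ_right (η : Env) {n : ℕ} {x y x' y' : ℤ} (h0 : x ≤ y) (h1 : y ≤ x + n) (A : Finset ℕ → Prop) :
    PQ μ s η n x y x' y' (fun _ S' => A S') = PO μ s η n x' y' A := by
  classical
  unfold PQ PO
  rw [sum_comm]
  refine sum_congr rfl fun S' _ => ?_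
  calc ∑ S ∈ (range n).powerset, Gw μ s η n x y S * Gw μ s η n x' y' S' * (if A S' then 1 else 0) =
      (∑ S ∈ (range n).powerset, Gw μ s η n x y S) * (Gw μ s η n x' y' S' * (if A S' then 1 else 0)) := by
        rw [sum_mul]
        refine sum_congr rfl fun S _ => ?_
        ring
    _ = _ := by rw [Gw_sum η h0 h1, one_mul]

/-- The two paths are within `ρ` of each other in the rows `[a, b]`. -/
def Cls (x x' : ℤ) (ρ : ℝ) (a b : ℕ) (S S' : Finset ℕ) : Prop := ∀ i, a ≤ i → i ≤ b → |((x + pos S i - (x' + pos S' i) : ℤ) : ℝ)| ≤ ρ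

/-- **The corners.** -/
theorem corners (η : Env) {n a b : ℕ} (han : a ≤ n) {x x' y y' : ℤ} (h00 : x ≤ y) (h01 : y ≤ x + n) (h10 : x' ≤ y) (h11 : y ≤ x' + n)
    (h20 : x' ≤ y') (h21 : y' ≤ x' + n) {ZA ZB ZC : ℕ → ℤ} {ρ e : ℝ} (he : e ≤ 1 / 4)
    (hA : PO μ s η n x y (fun S => ¬ Nr ZA ρ a b fun i => x + pos S i) ≤ e)
    (hB : PO μ s η n x' y (fun S => ¬ Nr ZB ρ a b fun i => x' + pos S i) ≤ e)
    (hC : PO μ s η n x' y' (fun S => ¬ Nr ZC ρ a b fun i => x' + pos S i) ≤ e)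
    (hq1 : PQ μ s η n x y x' y (NMt x x' 0 a) ≤ 1 / 4) (hq2 : PQ μ s η n x' y x' y' (NMt x' x' b n) ≤ 1 / 4)
    (A : Finset ℕ → Finset ℕ → Prop) :
    PQ μ s η n x y x' y' A ≤ 2 * e + PQ μ s η n x y x' y' (fun S S' => Cls x x' (6 * ρ) a b S S' ∧ A S S') := by
  have k1 := centers1 (μ := μ) (s := s) η han h00 h01 h10 h11 he hA hB hq1
  have k2 := centers2 (μ := μ) (s := s) η h10 h11 h20 h21 he hB hC hq2
  have h3 : PQ μ s η n x y x' y' A ≤ PQ μ s η n x y x' y' (fun S S' => (¬ Nr ZA ρ a b fun i => x + pos S i) ∨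
      ((¬ Nr ZC ρ a b fun i => x' + pos S' i) ∨ (Cls x x' (6 * ρ) a b S S' ∧ A S S'))) := by
    refine PQ_mono fun S S' _ _ _ _ hAS => ?_
    by_cases c1 : Nr ZA ρ a b fun i => x + pos S i
    · by_cases c2 : Nr ZC ρ a b fun i => x' + pos S' i
      · refine Or.inr (Or.inr ⟨fun i hi1 hi2 => ?_, hAS⟩)
        have g1 := abs_le.1 (c1 i hi1 hi2)
        have g2 := abs_le.1 (c2 i hi1 hi2)
        have g3 := abs_le.1 (k1 i hi1 hi2)
        have g4 := abs_le.1 (k2 i hi1 hi2)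
        push_cast at g1 g2 g3 g4 ⊢
        rw [abs_le]
        constructor <;> linarith [g1.1, g1.2, g2.1, g2.2, g3.1, g3.2, g4.1, g4.2]
      · exact Or.inr (Or.inl c2)
    · exact Or.inl c1
  have h4 := PQ_or (μ := μ) (s := s) η n x y x' y' (fun S _ => ¬ Nr ZA ρ a b fun i => x + pos S i)
    (fun S S' => (¬ Nr ZC ρ a b fun i => x' + pos S' i) ∨ (Cls x x' (6 * ρ) a b S S' ∧ A S S'))
  have h5 := PQ_or (μ := μ) (s := s) η n x y x' y' (fun _ S' => ¬ Nr ZC ρ a b fun i => x' + pos S' i)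
    (fun S S' => Cls x x' (6 * ρ) a b S S' ∧ A S S')
  have h6 := PQ_left (μ := μ) (s := s) η (x := x) (y := y) h20 h21 (fun S => ¬ Nr ZA ρ a b fun i => x + pos S i)
  have h7 := PQ_right (μ := μ) (s := s) η (x' := x') (y' := y') h00 h01 (fun S' => ¬ Nr ZC ρ a b fun i => x' + pos S' i)
  linarith

end

end Pool.Agent.W_7d29a1_C1.Q24
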