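import Pool.Agent.W_7d29a1_C1.Rank26C
import Pool.Agent.W_7d29a1_C1.Quen24A
import Pool.Agent.W_7d29a1_HZ.PthB
import Pool.Agent.W_7d29a1_HZ.PB

/-!
Both halves (MP_7d29a1_pr), attractor route [C1]: THE RANK ONE EVENT, cell to cell. (helper26)

`MP26` = constant level meeting of the corners (same end in the first quarter, same start in the last quarter), `QU26` = the
quenched zero one law `quen24` of helper24. `rank26` : **for all `e, K` there are `d, c' > 0` : the kernel of `n` rows is of rank one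
up to the factor `1 + exp (- n ^ c')` on every pair of cells of width `d wd n` with displacement within `K wd n` of the mean, with
probability at least `1 - e`.** `RK26` = the event, measurable, a function of the rows `(r, r + n]`, monotone in both cells.
-/

set_option autoImplicit false
set_option linter.unusedSectionVars false

namespace Pool.Agent.W_7d29a1_C1.R26

open Finset MeasureTheory ProbabilityTheory Filter Topology
open Pool.Agent.W_7d29a1_F Pool.Agent.W_7d29a1_h4g Pool.Agent.W_7d29a1_H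
open Pool.Agent.W_7d29a1_X (pos pth)
open Pool.Agent.W_7d29a1_HS (In wd)
open Pool.Agent.W_7d29a1_HZ (gp wd' gp_meas36)
open Pool.Agent.W_7d29a1_C1.Gini76 Pool.Agent.W_7d29a1_C1.CR76 Pool.Agent.W_7d29a1_C1.Basin76
open Pool.Agent.W_7d29a1_C1.Q24 (Gw NMt PQ PQ_nonneg)

noncomputable section

variable {μ : Measure ℝ} {s : ℝ}

/-! ### The event -/

/-- The kernel of the rows `(r, r + n]` is of rank one up to the factor `1 + ε` on the cells `[x, x']`, `[y, y']`. -/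
def RK26 (μ : Measure ℝ) (s : ℝ) (r : ℤ) (n : ℕ) (x x' y y' : ℤ) (ε : ℝ) : Set Env :=
  {η | CR (kW μ s η r n) x x' y y' ≤ 1 + ε}

theorem measurable_kW (r : ℤ) (n : ℕ) (x y : ℤ) : Measurable fun η : Env => kW μ s η r n x y := measurable_W _ _ _

theorem measurable_CR (r : ℤ) (n : ℕ) (x x' y y' : ℤ) : Measurable fun η : Env => CR (kW μ s η r n) x x' y y' := by
  unfold CR
  exact ((measurable_kW r n x y).mul (measurable_kW r n x' y')).div ((measurable_kW r n x y').mul (measurable_kW r n x' y))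

theorem measurableSet_RK26 (r : ℤ) (n : ℕ) (x x' y y' : ℤ) (ε : ℝ) : MeasurableSet (RK26 μ s r n x x' y y' ε) :=
  measurableSet_le (measurable_CR r n x x' y y') measurable_const

theorem kW_dep {r : ℤ} {n : ℕ} {η η' : Env} (h : ∀ p : Pt, r < p.1 → p.1 ≤ r + n → η p = η' p) (x y : ℤ) :
    kW μ s η r n x y = kW μ s η' r n x y := by
  refine W_dep (μ := μ) (s := s) (r, x) n (y - x) fun p hp => ?_
  obtain ⟨h1, h2, -⟩ := hp
  exact h p h1 h2

/-- The event is a function of the rows of the slab. -/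
theorem RK26_dep {r : ℤ} {n : ℕ} {η η' : Env} (h : ∀ p : Pt, r < p.1 → p.1 ≤ r + n → η p = η' p) (x x' y y' : ℤ) (ε : ℝ) :
    η ∈ RK26 μ s r n x x' y y' ε ↔ η' ∈ RK26 μ s r n x x' y y' ε := by
  show CR (kW μ s η r n) x x' y y' ≤ 1 + ε ↔ CR (kW μ s η' r n) x x' y y' ≤ 1 + ε
  have e : CR (kW μ s η r n) x x' y y' = CR (kW μ s η' r n) x x' y y' := by
    unfold CR
    rw [kW_dep h, kW_dep h, kW_dep h, kW_dep h]
  rw [e]

/-- Smaller cells. -/
theorem RK26_mono {r : ℤ} {n : ℕ} {xa x x' xb ya y y' yb : ℤ} {ε : ℝ} (h1 : xa ≤ x) (h2 : x ≤ x') (h3 : x' ≤ xb)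
    (h4 : ya ≤ y) (h5 : y ≤ y') (h6 : y' ≤ yb) (h7 : xb ≤ ya) (h8 : yb ≤ xa + n) :
    RK26 μ s r n xa xb ya yb ε ⊆ RK26 μ s r n x x' y y' ε := by
  intro η hη
  have hT := TP_kW (μ := μ) (s := s) η r n xa xb
  exact (hT.CR_mono (ya := xa) (y := x) (y' := x') (yb := xb) (xa := ya) (x := y) (x' := y') (xb := yb)
    ⟨le_rfl, by omega⟩ ⟨h1, by omega⟩ ⟨by omega, h3⟩ ⟨by omega, le_rfl⟩ ⟨h7, by omega⟩ ⟨by omega, by omega⟩
    ⟨by omega, by omega⟩ ⟨by omega, h8⟩ h1 h2 h3 h4 h5 h6).trans hη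

theorem CR_same {I : ℤ → ℤ → ℝ} {x y y' : ℤ} (h1 : I x y ≠ 0) (h2 : I x y' ≠ 0) : CR I x x y y' = 1 := by
  unfold CR
  rw [mul_comm, div_self (mul_ne_zero h2 h1)]

theorem CR_same' {I : ℤ → ℤ → ℝ} {x x' y : ℤ} (h1 : I x y ≠ 0) (h2 : I x' y ≠ 0) : CR I x x' y y = 1 := by
  unfold CR
  rw [div_self (mul_ne_zero h1 h2)]

/-! ### The two inputs -/

/-- Constant level meeting of the corners. -/
def MP26 (μ : Measure ℝ) (s : ℝ) : Prop := ∀ e K : ℝ, 0 < e → 0 ≤ K → ∃ d : ℝ, 0 < d ∧ ∃ n₁ : ℕ, ∀ n : ℕ, n₁ ≤ n →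
  ∀ x x' y y' : ℤ, x < x' → y < y' → ((x' - x : ℤ) : ℝ) ≤ d * wd μ s n → ((y' - y : ℤ) : ℝ) ≤ d * wd μ s n →
    |((y - x : ℤ) : ℝ) - sl μ s * n| ≤ K * wd μ s n →
    ∫ η, PQ μ s η n x y x' y (NMt x x' 0 (n / 4)) ∂(law μ) ≤ e ∧
      ∫ η, PQ μ s η n x' y x' y' (NMt x' x' (3 * n / 4) n) ∂(law μ) ≤ e

/-- The conditions of `quen24` on the displacement. -/
def Cn26 (μ : Measure ℝ) (s δ : ℝ) (n : ℕ) (x y : ℤ) : Prop :=
  x ≤ y ∧ y ≤ x + n ∧ |((y - x : ℤ) : ℝ) - sl μ s * n| ≤ (n : ℝ) ^ δ * wd' μ s n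

/-- The quenched zero one law (`quen24`). -/
def QU26 (μ : Measure ℝ) (s : ℝ) : Prop := ∃ δ c' : ℝ, 0 < δ ∧ 0 < c' ∧ ∃ n₁ : ℕ, ∀ n : ℕ, n₁ ≤ n → ∀ a b : ℕ, a ≤ b → b ≤ n →
  n ≤ 16 * (b - a) → ∀ x x' y y' : ℤ, Cn26 μ s δ n x y → Cn26 μ s δ n x' y → Cn26 μ s δ n x' y' →
    law μ {η | PQ μ s η n x y x' y (NMt x x' 0 a) ≤ 1 / 4 ∧ PQ μ s η n x' y x' y' (NMt x' x' b n) ≤ 1 / 4 ∧
      Real.exp (-(n : ℝ) ^ c') < PQ μ s η n x y x' y' (NMt x x' a b)} ≤ ENNReal.ofReal ((n : ℝ) ^ (-c'))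

/-! ### Measurability, Markov -/

theorem measurable_sh26 (a : Pt) : Measurable fun η : Env => sh a η := measurable_pi_lambda _ fun _ => measurable_pi_apply _

theorem measurable_PQ26 (n : ℕ) (x y x' y' : ℤ) (A : Finset ℕ → Finset ℕ → Prop) :
    Measurable fun η : Env => PQ μ s η n x y x' y' A := by
  classical
  unfold PQ Pool.Agent.W_7d29a1_C1.Q24.Gw
  refine Finset.measurable_sum _ fun S _ => Finset.measurable_sum _ fun S' _ => ?_
  refine (Measurable.mul ?_ ?_).mul_const _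
  · exact (gp_meas36 n (y - x) S).comp (measurable_sh26 _)
  · exact (gp_meas36 n (y' - x') S').comp (measurable_sh26 _)

theorem PQ_le_one26 (η : Env) (n : ℕ) (x y x' y' : ℤ) (A : Finset ℕ → Finset ℕ → Prop) : PQ μ s η n x y x' y' A ≤ 1 := by
  classical
  have h1 := Pool.Agent.W_7d29a1_HZ.sum_gp_le_one (μ := μ) (s := s) (sh (0, x) η) n (y - x)
  have h2 := Pool.Agent.W_7d29a1_HZ.sum_gp_le_one (μ := μ) (s := s) (sh (0, x') η) n (y' - x')
  have h3 : ∀ S, 0 ≤ Gw μ s η n x y S := Pool.Agent.W_7d29a1_C1.Q24.Gw_nonneg η n x y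
  have h4 : ∀ S, 0 ≤ Gw μ s η n x' y' S := Pool.Agent.W_7d29a1_C1.Q24.Gw_nonneg η n x' y'
  unfold PQ
  calc ∑ S ∈ (range n).powerset, ∑ S' ∈ (range n).powerset,
        Gw μ s η n x y S * Gw μ s η n x' y' S' * (if A S S' then 1 else 0)
      ≤ ∑ S ∈ (range n).powerset, ∑ S' ∈ (range n).powerset, Gw μ s η n x y S * Gw μ s η n x' y' S' := by
        refine sum_le_sum fun S _ => sum_le_sum fun S' _ => ?_
        refine mul_le_of_le_one_right (mul_nonneg (h3 S) (h4 S')) ?_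
        split_ifs <;> norm_num
    _ = (∑ S ∈ (range n).powerset, Gw μ s η n x y S) * ∑ S' ∈ (range n).powerset, Gw μ s η n x' y' S' := by
        rw [sum_mul_sum]
    _ ≤ 1 * 1 := mul_le_mul h1 h2 (sum_nonneg fun S _ => h4 S) zero_le_one
    _ = 1 := one_mul 1

variable [IsProbabilityMeasure μ]

theorem markov26 (n : ℕ) (x y x' y' : ℤ) (A : Finset ℕ → Finset ℕ → Prop) {e : ℝ}
    (hI : ∫ η, PQ μ s η n x y x' y' A ∂(law μ) ≤ e) : law μ {η | 1 / 4 < PQ μ s η n x y x' y' A} ≤ ENNReal.ofReal (4 * e) := by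
  have hm := measurable_PQ26 (μ := μ) (s := s) n x y x' y' A
  have hi : Integrable (fun η : Env => PQ μ s η n x y x' y' A) (law μ) := by
    refine Integrable.of_bound hm.aestronglyMeasurable 1 (Eventually.of_forall fun η => ?_)
    rw [Real.norm_eq_abs, abs_of_nonneg (PQ_nonneg _ _ _ _ _ _ _)]
    exact PQ_le_one26 _ _ _ _ _ _ _
  have h1 := mul_meas_ge_le_integral_of_nonneg (μ := law μ) (f := fun η : Env => PQ μ s η n x y x' y' A)
    (Eventually.of_forall fun η => PQ_nonneg _ _ _ _ _ _ _) hi (1 / 4)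
  have h2 : law μ {η | 1 / 4 < PQ μ s η n x y x' y' A} ≤ law μ {η | 1 / 4 ≤ PQ μ s η n x y x' y' A} :=
    measure_mono fun η hη => le_of_lt (show (1 / 4 : ℝ) < _ from hη)
  refine h2.trans ?_
  rw [← ofReal_measureReal]
  refine ENNReal.ofReal_le_ofReal ?_
  linarith

/-! ### The theorem -/

variable {c C : ℝ} {n₀ : ℕ}

/-- **RANK ONE, CELL TO CELL, AT QUENCHED PRECISION.** -/
theorem rank26 (h : In μ s c C n₀) (hQ : QU26 μ s) (hM : MP26 μ s) {e K : ℝ} (he : 0 < e) (hK : 0 ≤ K) :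
    ∃ d c' : ℝ, 0 < d ∧ 0 < c' ∧ ∃ n₁ : ℕ, ∀ n : ℕ, n₁ ≤ n → ∀ (r : ℤ) (x x' y y' : ℤ), x ≤ x' → y ≤ y' →
      ((x' - x : ℤ) : ℝ) ≤ d * wd μ s n → ((y' - y : ℤ) : ℝ) ≤ d * wd μ s n →
      |((y - x : ℤ) : ℝ) - sl μ s * n| ≤ K * wd μ s n →
      x' ≤ y ∧ y' ≤ x + n ∧ law μ (RK26 μ s r n x x' y y' (Real.exp (-(n : ℝ) ^ c')))ᶜ ≤ ENNReal.ofReal e := by
  obtain ⟨δ, c₁, hδ, hc₁, N₁, hq⟩ := hQ
  obtain ⟨d₀, hd₀, N₂, hm⟩ := hM (e / 16) K (by positivity) hK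
  obtain ⟨N₃, hwd⟩ := Pool.Agent.W_7d29a1_HZ.wd'_eq h
  obtain ⟨d, hd⟩ : ∃ d : ℝ, d = min d₀ 1 := ⟨_, rfl⟩
  have hd0 : 0 < d := by rw [hd]; exact lt_min hd₀ one_pos
  have hd1 : d ≤ 1 := by rw [hd]; exact min_le_right _ _
  have hdd : d ≤ d₀ := by rw [hd]; exact min_le_left _ _
  -- the cone
  have hsl0 := h.sl_pos
  have hsl1 := h.sl_lt
  obtain ⟨N₄, hv⟩ := eventually_atTop.1 ((h.tv.const_mul (K + 2)).eventually_le_const
    (show (K + 2) * 0 < min (sl μ s) (1 - sl μ s) by rw [mul_zero]; exact lt_min hsl0 (by linarith)))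
  -- powers
  have hev : ∀ᶠ n : ℕ in atTop, K + 2 ≤ (n : ℝ) ^ δ := (tendsto_rpow_atTop hδ).comp tendsto_natCast_atTop_atTop
    |>.eventually_ge_atTop _
  obtain ⟨N₅, hp⟩ := eventually_atTop.1 hev
  have hev2 : ∀ᶠ n : ℕ in atTop, 2 ≤ (n : ℝ) ^ (c₁ / 2) := (tendsto_rpow_atTop (by positivity : 0 < c₁ / 2)).comp
    tendsto_natCast_atTop_atTop |>.eventually_ge_atTop _
  obtain ⟨N₆, hp2⟩ := eventually_atTop.1 hev2
  have hev3 : ∀ᶠ n : ℕ in atTop, 2 / e ≤ (n : ℝ) ^ c₁ := (tendsto_rpow_atTop hc₁).comp tendsto_natCast_atTop_atTop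
    |>.eventually_ge_atTop _
  obtain ⟨N₇, hp3⟩ := eventually_atTop.1 hev3
  refine ⟨d, c₁ / 2, hd0, by positivity, N₁ + N₂ + N₃ + N₄ + N₅ + N₆ + N₇ + 16, fun n hn r x x' y y' hx hy hxd hyd hc => ?_⟩
  have hn1 : 1 ≤ n := by omega
  have hnR : (0 : ℝ) < n := by exact_mod_cast hn1
  have hw0 : 0 ≤ wd μ s n := h.wd_nonneg n
  have hwe : (K + 2) * wd μ s n ≤ min (sl μ s) (1 - sl μ s) * n := by
    have h1 := mul_le_mul_of_nonneg_right (hv n (by omega)) hnR.le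
    refine le_trans (le_of_eq ?_) h1
    unfold wd
    ring
  have m1 := mul_le_mul_of_nonneg_right (min_le_left (sl μ s) (1 - sl μ s)) hnR.le
  have m2 := mul_le_mul_of_nonneg_right (min_le_right (sl μ s) (1 - sl μ s)) hnR.le
  have hdw : d * wd μ s n ≤ wd μ s n := by
    have := mul_le_mul_of_nonneg_right hd1 hw0
    linarith
  have hx0 : (0 : ℝ) ≤ ((x' - x : ℤ) : ℝ) := by exact_mod_cast (by omega : 0 ≤ x' - x)
  have hy0 : (0 : ℝ) ≤ ((y' - y : ℤ) : ℝ) := by exact_mod_cast (by omega : 0 ≤ y' - y)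
  have hc' := abs_le.1 hc
  push_cast at hc' hx0 hy0 hxd hyd
  have g1 : x' ≤ y := by
    have : (x' : ℝ) ≤ y := by nlinarith
    exact_mod_cast this
  have g2 : y' ≤ x + n := by
    have : (y' : ℝ) ≤ x + n := by nlinarith
    exact_mod_cast this
  refine ⟨g1, g2, ?_⟩
  -- the row `r`
  have hrow : law μ (RK26 μ s r n x x' y y' (Real.exp (-(n : ℝ) ^ (c₁ / 2))))ᶜ =
      law μ (RK26 μ s 0 n x x' y y' (Real.exp (-(n : ℝ) ^ (c₁ / 2))))ᶜ := by
    have h1 := (mp_sh (μ := μ) (r, 0)).measure_preimage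
      ((measurableSet_RK26 (μ := μ) (s := s) 0 n x x' y y' (Real.exp (-(n : ℝ) ^ (c₁ / 2)))).compl.nullMeasurableSet)
    rw [← h1]
    congr 1
    ext η
    show ¬ (CR (kW μ s η r n) x x' y y' ≤ _) ↔ ¬ (CR (kW μ s (sh (r, 0) η) 0 n) x x' y y' ≤ _)
    rw [CR_row]
  rw [hrow]
  -- degenerate cells
  rcases eq_or_lt_of_le hx with hxe | hxlt
  · subst hxe
    have : (RK26 μ s 0 n x x y y' (Real.exp (-(n : ℝ) ^ (c₁ / 2))))ᶜ = ∅ := by
      rw [Set.compl_empty_iff, Set.eq_univ_iff_forall]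
      intro η
      show CR (kW μ s η 0 n) x x y y' ≤ _
      rw [CR_same (kW_pos η 0 (by omega) (by omega)).ne' (kW_pos η 0 (by omega) (by omega)).ne']
      linarith [Real.exp_pos (-(n : ℝ) ^ (c₁ / 2))]
    rw [this, measure_empty]
    exact zero_le
  rcases eq_or_lt_of_le hy with hye | hylt
  · subst hye
    have : (RK26 μ s 0 n x x' y y (Real.exp (-(n : ℝ) ^ (c₁ / 2))))ᶜ = ∅ := by
      rw [Set.compl_empty_iff, Set.eq_univ_iff_forall]
      intro η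
      show CR (kW μ s η 0 n) x x' y y ≤ _
      rw [CR_same' (kW_pos η 0 (by omega) (by omega)).ne' (kW_pos η 0 (by omega) (by omega)).ne']
      linarith [Real.exp_pos (-(n : ℝ) ^ (c₁ / 2))]
    rw [this, measure_empty]
    exact zero_le
  -- the main case
  have hw' : wd' μ s n = wd μ s n := (hwd n (by omega)).1
  have hcone : ∀ u v : ℤ, x ≤ u → u ≤ x' → y ≤ v → v ≤ y' → Cn26 μ s δ n u v := by
    intro u v h1 h2 h3 h4
    refine ⟨by omega, by omega, ?_⟩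
    rw [hw']
    have h5 := mul_le_mul_of_nonneg_right (hp n (by omega)) hw0
    refine le_trans ?_ h5
    have e1 : (0 : ℝ) ≤ (u : ℝ) - x := by exact_mod_cast (by omega : 0 ≤ u - x)
    have e2 : (u : ℝ) ≤ x' := by exact_mod_cast h2
    have e3 : (0 : ℝ) ≤ (v : ℝ) - y := by exact_mod_cast (by omega : 0 ≤ v - y)
    have e4 : (v : ℝ) ≤ y' := by exact_mod_cast h4
    rw [abs_le]
    push_cast
    constructor <;> nlinarith
  have q := hq n (by omega) (n / 4) (3 * n / 4) (by omega) (by omega) (by omega) x x' y y'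
    (hcone x y le_rfl hx le_rfl hy) (hcone x' y hx le_rfl le_rfl hy) (hcone x' y' hx le_rfl hy le_rfl)
  have hxd' : ((x' - x : ℤ) : ℝ) ≤ d₀ * wd μ s n := by
    push_cast
    exact hxd.trans (mul_le_mul_of_nonneg_right hdd hw0)
  have hyd' : ((y' - y : ℤ) : ℝ) ≤ d₀ * wd μ s n := by
    push_cast
    exact hyd.trans (mul_le_mul_of_nonneg_right hdd hw0)
  obtain ⟨i1, i2⟩ := hm n (by omega) x x' y y' hxlt hylt hxd' hyd' hc
  have k1 := markov26 n x y x' y (NMt x x' 0 (n / 4)) i1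
  have k2 := markov26 n x' y x' y' (NMt x' x' (3 * n / 4) n) i2
  have hsub : (RK26 μ s 0 n x x' y y' (Real.exp (-(n : ℝ) ^ (c₁ / 2))))ᶜ ⊆
      ({η | 1 / 4 < PQ μ s η n x y x' y (NMt x x' 0 (n / 4))} ∪
        {η | 1 / 4 < PQ μ s η n x' y x' y' (NMt x' x' (3 * n / 4) n)}) ∪
      {η | PQ μ s η n x y x' y (NMt x x' 0 (n / 4)) ≤ 1 / 4 ∧ PQ μ s η n x' y x' y' (NMt x' x' (3 * n / 4) n) ≤ 1 / 4 ∧
        Real.exp (-(n : ℝ) ^ c₁) < PQ μ s η n x y x' y' (NMt x x' (n / 4) (3 * n / 4))} := by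
    intro η hη
    by_contra hno
    simp only [Set.mem_union, Set.mem_ofPred_eq, not_or, not_and, not_lt] at hno
    obtain ⟨⟨a1, a2⟩, a3⟩ := hno
    have a4 := a3 a1 a2
    refine hη ?_
    have b0 : (n : ℝ) ^ c₁ = (n : ℝ) ^ (c₁ / 2) * (n : ℝ) ^ (c₁ / 2) := by
      rw [← Real.rpow_add hnR]
      congr 1
      ring
    have b1 := hp2 n (by omega)
    have b2 : (n : ℝ) ^ (c₁ / 2) + 1 ≤ (n : ℝ) ^ c₁ := by rw [b0]; nlinarith
    have b3 : Real.exp (-(n : ℝ) ^ c₁) ≤ Real.exp (-(n : ℝ) ^ (c₁ / 2)) * Real.exp (-1) := by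
      rw [← Real.exp_add]
      exact Real.exp_le_exp.2 (by linarith)
    have b4 : Real.exp (-1 : ℝ) ≤ 1 / 2 := by
      have h5 := Real.add_one_le_exp (1 : ℝ)
      rw [Real.exp_neg, one_div]
      exact inv_anti₀ (by norm_num) (by linarith)
    have b5 := Real.exp_pos (-(n : ℝ) ^ (c₁ / 2))
    have b6 : Real.exp (-(n : ℝ) ^ (c₁ / 2)) ≤ 1 := Real.exp_le_one_iff.2 (by linarith)
    have b7 : 2 * Real.exp (-(n : ℝ) ^ c₁) ≤ Real.exp (-(n : ℝ) ^ (c₁ / 2)) := by nlinarith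
    have key := CR_of_pairs (μ := μ) (s := s) η (n := n) (x := x) (x' := x') (y := y) (y' := y') hxlt hy g1 g2
      (NMt x x' (n / 4) (3 * n / 4)) (fun S S' hD i _ hi => hD i (by omega)) (Real.exp_pos (-(n : ℝ) ^ c₁)).le
      (by linarith) a4
    show CR (kW μ s η 0 n) x x' y y' ≤ 1 + Real.exp (-(n : ℝ) ^ (c₁ / 2))
    linarith
  refine (measure_mono hsub).trans ((measure_union_le _ _).trans ?_)
  refine (add_le_add ((measure_union_le _ _).trans (add_le_add k1 k2)) q).trans ?_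
  rw [← ENNReal.ofReal_add (by positivity) (by positivity), ← ENNReal.ofReal_add (by positivity) (by positivity)]
  refine ENNReal.ofReal_le_ofReal ?_
  have f1 : (n : ℝ) ^ (-c₁) ≤ e / 2 := by
    rw [Real.rpow_neg hnR.le]
    have f2 := hp3 n (by omega)
    have f3 : 0 < (n : ℝ) ^ c₁ := Real.rpow_pos_of_pos hnR _
    rw [inv_le_comm₀ f3 (by positivity)]
    refine le_trans (le_of_eq ?_) f2
    rw [inv_div]
  linarith

end

end Pool.Agent.W_7d29a1_C1.R26
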