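import Pool.Agent.W_7d29a1_C1.PinB24
import Pool.Agent.W_7d29a1_C1.Rank26D

/-!
MP_7d29a1_pr, [C1] THE LUCKY PINCH, part C (helper24): the five slabs of the model. `kW_five`: the kernel of the block is the composition
of five kernels; `EK_of_EVR`; `rank_cells` (from `RK26`); `lane_of_slab` (from `SLAB20`, one lane); `indep24` (two blocks of rows).
-/

set_option autoImplicit false

namespace Pool.Agent.W_7d29a1_C1.P24

open MeasureTheory ProbabilityTheory Filter Topology Finset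
open Pool.Agent.W_7d29a1_F Pool.Agent.W_7d29a1_h4g Pool.Agent.W_7d29a1_H Pool.Agent.W_7d29a1_HS
open Pool.Agent.W_7d29a1_HL (real_inter_indep)
open Pool.Agent.W_7d29a1_C1
open Pool.Agent.W_7d29a1_C1.CR76 Pool.Agent.W_7d29a1_C1.Basin76
open Pool.Agent.W_7d29a1_C1.R26 (RK26)
open Pool.Agent.W_7d29a1_C1.H75 (hc)
open Pool.Agent.W_7d29a1_C1.U16 (fq16 fq16_one fq16_mono lat16 Far16 far_low)

noncomputable section

variable {μ : Measure ℝ} {s c C : ℝ} {n₀ : ℕ}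

/-! ### Composition of five slabs -/

theorem kW_step (η : Env) (r : ℤ) (T m : ℕ) (x z : ℤ) (S : Finset ℤ) (hS : Icc x (x + T) ⊆ S) (g : ℤ → ℝ)
    (hg : ∀ y ∈ Icc x (x + T), kW μ s η (r + T) m y z = g y) :
    kW μ s η r (T + m) x z = ∑ y ∈ S, kW μ s η r T x y * g y := by
  rw [kW_comp' η r T m x z S hS]
  unfold comp
  refine sum_congr rfl fun y _ => ?_
  by_cases hy : y ∈ Icc x (x + T)
  · rw [hg y hy]
  · rw [mem_Icc] at hy
    rw [kW_zero (μ := μ) (s := s) η r hy, zero_mul, zero_mul]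

theorem kW_five (η : Env) (r : ℤ) (T m : ℕ) (x z : ℤ) (S : Finset ℤ) (hS : Icc x (x + (4 * T : ℕ)) ⊆ S) :
    kW μ s η r (T + (T + (T + (T + m)))) x z =
      mn24 (kW μ s η r T) (kW μ s η (r + T) T) (kW μ s η (r + T + T) T) (kW μ s η (r + T + T + T) T)
        (kW μ s η (r + T + T + T + T) m) S S S S x z := by
  have sub : ∀ y : ℤ, ∀ i : ℕ, i ≤ 3 → x ≤ y → y ≤ x + (i * T : ℕ) → Icc y (y + T) ⊆ S := by
    intro y i hi h1 h2
    refine subset_trans (Icc_subset_Icc h1 ?_) hS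
    have h3 : (i + 1) * T ≤ 4 * T := Nat.mul_le_mul_right _ (by omega)
    have h4 : (((i + 1) * T : ℕ) : ℤ) ≤ ((4 * T : ℕ) : ℤ) := by exact_mod_cast h3
    push_cast at h2 h4 ⊢
    linarith
  rw [mn24_eq]
  have e1 := kW_step (μ := μ) (s := s) η r T (T + (T + (T + m))) x z S (sub x 0 (by omega) le_rfl (by simp))
    (fun y0 => ∑ y1 ∈ S, kW μ s η (r + T) T y0 y1 * ∑ y2 ∈ S, kW μ s η (r + T + T) T y1 y2 *
      ∑ y3 ∈ S, kW μ s η (r + T + T + T) T y2 y3 * kW μ s η (r + T + T + T + T) m y3 z) fun y0 h0 => by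
    rw [mem_Icc] at h0
    refine kW_step (μ := μ) (s := s) η (r + T) T (T + (T + m)) y0 z S (sub y0 1 (by omega) h0.1 (by push_cast; linarith [h0.2])) _
      fun y1 h1 => ?_
    rw [mem_Icc] at h1
    refine kW_step (μ := μ) (s := s) η (r + T + T) T (T + m) y1 z S
      (sub y1 2 (by omega) (h0.1.trans h1.1) (by push_cast; linarith [h0.2, h1.2])) _ fun y2 h2 => ?_
    rw [mem_Icc] at h2
    exact kW_step (μ := μ) (s := s) η (r + T + T + T) T m y2 z S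
      (sub y2 3 (by omega) (h0.1.trans (h1.1.trans h2.1)) (by push_cast; linarith [h0.2, h1.2, h2.2])) _ fun y3 _ => rfl
  rw [e1]
  refine sum_congr rfl fun y0 _ => ?_
  rw [mul_sum]
  refine sum_congr rfl fun y1 _ => ?_
  rw [mul_sum, mul_sum]
  refine sum_congr rfl fun y2 _ => ?_
  rw [mul_sum, mul_sum, mul_sum]
  refine sum_congr rfl fun y3 _ => ?_
  ring

/-! ### Envelopes -/

theorem EK_of_EVR {κ q : ℝ} {n P T : ℕ} {lo hi : ℤ} {b : Pt} {η : Env} (hη : η ∈ EVR24 μ s κ n P lo hi b q) {r : ℤ} (h1 : lo ≤ r)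
    (h2 : r + T ≤ hi) :
    EK24 (kW μ s η r T) (b.2 + sl μ s * ((r - b.1 : ℤ) : ℝ)) (b.2 + sl μ s * ((r + T - b.1 : ℤ) : ℝ)) (wd μ s n) (EE μ s n) κ q P := by
  intro y y'
  have h3 := hη (r, y) T h1 h2 (y' - y)
  have e1 : lat16 μ s b (r, y) = (y : ℝ) - (b.2 + sl μ s * ((r - b.1 : ℤ) : ℝ)) := by
    unfold lat16
    push_cast
    ring
  have e2 : ((y' - y : ℤ) : ℝ) - sl μ s * T = ((y' : ℝ) - (b.2 + sl μ s * ((r + T - b.1 : ℤ) : ℝ))) -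
      ((y : ℝ) - (b.2 + sl μ s * ((r - b.1 : ℤ) : ℝ))) := by
    push_cast
    ring
  rw [e1, e2] at h3
  refine h3.trans (le_of_eq ?_)
  congr 1
  unfold hc
  ring

theorem fq16_P {P P' : ℕ} (h : P ≤ P') (x : ℝ) : fq16 P x ≤ fq16 P' x := by
  unfold fq16
  refine pow_le_pow_right₀ ?_ h
  have := log_nn24 (abs_nonneg x)
  linarith

theorem EVR24_P [IsProbabilityMeasure μ] {q : ℝ} (hq : 0 ≤ q) {n P P' : ℕ} (hP : P ≤ P') (lo hi : ℤ) (b : Pt) :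
    EVR24 μ s c n P lo hi b q ⊆ EVR24 μ s c n P' lo hi b q := by
  intro η hη p j h1 h2 y
  refine (hη p j h1 h2 y).trans (Real.exp_le_exp.2 ?_)
  have hE := EE_pos (μ := μ) (s := s) n
  have h3 := mul_le_mul_of_nonneg_right (mul_le_mul_of_nonneg_left (fq16_P hP (|lat16 μ s b p| / wd μ s n + 1)) hq) hE.le
  linarith

/-! ### Rank one on two cells -/

theorem rank_cells {η : Env} {r : ℤ} {T : ℕ} {a v : ℤ} {ρ ε : ℝ} (hε : 0 ≤ ε) (h1 : a + ⌊ρ⌋ ≤ v - ⌊ρ⌋) (h2 : v + ⌊ρ⌋ ≤ a - ⌊ρ⌋ + T)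
    (hη : η ∈ RK26 μ s r T (a - ⌊ρ⌋) (a + ⌊ρ⌋) (v - ⌊ρ⌋) (v + ⌊ρ⌋) ε) :
    ∀ y ∈ Ce24 a ρ, ∀ y' ∈ Ce24 a ρ, ∀ u ∈ Ce24 v ρ, ∀ u' ∈ Ce24 v ρ,
      kW μ s η r T y u * kW μ s η r T y' u' ≤ (1 + ε) * (kW μ s η r T y u' * kW μ s η r T y' u) := by
  have key : ∀ y ∈ Ce24 a ρ, ∀ y' ∈ Ce24 a ρ, ∀ u ∈ Ce24 v ρ, ∀ u' ∈ Ce24 v ρ, y ≤ y' → u ≤ u' →
      kW μ s η r T y u * kW μ s η r T y' u' ≤ (1 + ε) * (kW μ s η r T y u' * kW μ s η r T y' u) := by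
    intro y hy y' hy' u hu u' hu' hyy huu
    unfold Ce24 at hy hy' hu hu'
    rw [mem_Icc] at hy hy' hu hu'
    have hT := TP_kW (μ := μ) (s := s) η r T (a - ⌊ρ⌋) (a + ⌊ρ⌋)
    have m1 : ∀ t : ℤ, a - ⌊ρ⌋ ≤ t → t ≤ a + ⌊ρ⌋ → t ∈ {x : ℤ | a - ⌊ρ⌋ ≤ x ∧ x ≤ a + ⌊ρ⌋} := fun t g1 g2 => ⟨g1, g2⟩
    have m2 : ∀ t : ℤ, v - ⌊ρ⌋ ≤ t → t ≤ v + ⌊ρ⌋ → t ∈ {z : ℤ | a + ⌊ρ⌋ ≤ z ∧ z ≤ a - ⌊ρ⌋ + T} := fun t g1 g2 =>
      ⟨h1.trans g1, g2.trans h2⟩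
    have h3 : CR (kW μ s η r T) y y' u u' ≤ CR (kW μ s η r T) (a - ⌊ρ⌋) (a + ⌊ρ⌋) (v - ⌊ρ⌋) (v + ⌊ρ⌋) :=
      hT.CR_mono (m1 _ le_rfl (by omega)) (m1 _ hy.1 hy.2) (m1 _ hy'.1 hy'.2) (m1 _ (by omega) le_rfl)
        (m2 _ le_rfl (by omega)) (m2 _ hu.1 hu.2) (m2 _ hu'.1 hu'.2) (m2 _ (by omega) le_rfl)
        hy.1 hyy hy'.2 hu.1 huu hu'.2
    have h4 : CR (kW μ s η r T) y y' u u' ≤ 1 + ε := h3.trans hη
    have p1 : 0 < kW μ s η r T y u' := kW_pos η r (by omega) (by omega)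
    have p2 : 0 < kW μ s η r T y' u := kW_pos η r (by omega) (by omega)
    unfold CR at h4
    rwa [div_le_iff₀ (mul_pos p1 p2)] at h4
  have nn : ∀ y u : ℤ, 0 ≤ kW μ s η r T y u := fun y u => kW_nonneg η r T y u
  intro y hy y' hy' u hu u' hu'
  have up : ∀ t : ℝ, 0 ≤ t → t ≤ (1 + ε) * t := fun t ht => by nlinarith
  rcases le_total y y' with h3 | h3
  · rcases le_total u u' with h4 | h4
    · exact key y hy y' hy' u hu u' hu' h3 h4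
    · have h5 := kW_minor (μ := μ) (s := s) η r T h3 h4
      exact h5.trans (up _ (mul_nonneg (nn _ _) (nn _ _)))
  · rcases le_total u u' with h4 | h4
    · have h5 := kW_minor (μ := μ) (s := s) η r T h3 h4
      have h6 : kW μ s η r T y u * kW μ s η r T y' u' ≤ kW μ s η r T y u' * kW μ s η r T y' u := by linarith
      exact h6.trans (up _ (mul_nonneg (nn _ _) (nn _ _)))
    · have h5 := key y' hy' y hy u' hu' u hu h3 h4
      linarith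

/-! ### One lane -/

theorem lane_of_slab {η : Env} {T : ℕ} {ω ρ L G U : ℝ} {r a e : ℤ}
    (hη : η ∈ at20 (r, a) (SLAB20 μ s (fun _ : Unit => 0) (fun _ : Unit => e - a) T ω ρ L G U)) :
    Lane24 (kW μ s η r T) a e ρ ω L G := by
  rw [mem_at_SLAB20] at hη
  obtain ⟨h1, h2, -⟩ := hη
  constructor
  · have h3 := h1 ()
    simp only [zero_add, sub_zero] at h3
    exact h3
  · intro y y' hy hyy
    have h3 := h2 (y - a) (y' - a) (by push_cast; exact hy) fun _ h4 => by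
      obtain ⟨g1, g2⟩ := h4
      push_cast at g1 g2
      rw [sub_zero] at g1
      rw [sub_sub_sub_cancel_right] at g2
      exact hyy ⟨g1, g2⟩
    have e1 : y - a + a = y := by ring
    have e2 : y' - a - (y - a) = y' - y := by ring
    rw [e1, e2] at h3
    exact h3

/-! ### Two blocks of rows -/

theorem indep24 [IsProbabilityMeasure μ] {r m h : ℤ} {E F : Set Env} {p₁ p₂ : ℝ} (h1 : r ≤ m) (h2 : m ≤ h) (hE : On20 (rows r m) E)
    (hF : On20 (rows m h) F) (mE : MeasurableSet E) (mF : MeasurableSet F) (k1 : 0 ≤ p₁) (k2 : 0 ≤ p₂)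
    (pE : p₁ ≤ (law μ).real E) (pF : p₂ ≤ (law μ).real F) :
    On20 (rows r h) (E ∩ F) ∧ MeasurableSet (E ∩ F) ∧ p₁ * p₂ ≤ (law μ).real (E ∩ F) := by
  have g1 : rows r m ⊆ rows r h := fun p hp => ⟨hp.1, hp.2.trans h2⟩
  have g2 : rows m h ⊆ rows r h := fun p hp => ⟨lt_of_le_of_lt h1 hp.1, hp.2⟩
  refine ⟨(hE.mono g1).inter (hF.mono g2), mE.inter mF, ?_⟩
  rw [real_inter_indep (μ := μ) mE mF hE hF (by
    rw [Set.disjoint_left]
    intro p hp hp'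
    exact absurd hp.2 (not_le.2 hp'.1))]
  exact mul_le_mul pE pF k2 (k1.trans pE)

end

end Pool.Agent.W_7d29a1_C1.P24
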