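import Pool.Agent.W_7d29a1_C1.DunP31

/-!
MP_7d29a1_pr, attractor route [C1], SHELL, junction `uncovered => D`: the data of the block from the shells of the lateral distance.
(helper31)

Shell `l` (`l₁ ≤ l ≤ L`): places with `Wd l < |ℓ x|`, `≤ Wd (l + 1)` if `l < L`. `Lc31` = levels and local regularity at the places of
the shells (loss at most `B l`); `dp_shell`: losses + prices (`B l + g₁ ≤ κ l`) give `DP31`. `top_start`, `top_end`: the top shell without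
levels, by the largest future mass among the sites which can be reached (one route).
-/

set_option autoImplicit false

namespace Pool.Agent.W_7d29a1_C1.D31

open Finset
open Pool.Agent.W_7d29a1_C1.K91 (Grp Box)
open Pool.Agent.W_7d29a1_C1.K91P
open Pool.Agent.W_7d29a1_C1.U31 (sum_fw_bw ms ms_nonneg cross_log)
open Pool.Agent.W_7d29a1_C1.U16 (ker fw_ker bw_ker ker_nonneg ker_eq_zero)

noncomputable section

/-- The shell. -/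
def InS (Wd : ℕ → ℝ) (L l : ℕ) (ξ : ℝ) : Prop := Wd l < |ξ| ∧ (l < L → |ξ| ≤ Wd (l + 1))

open Classical in
/-- The number of the shell. -/
def shx (Wd : ℕ → ℝ) (L : ℕ) (ξ : ℝ) : ℕ := Nat.findGreatest (fun l => Wd l < |ξ|) L

theorem shx_le (Wd : ℕ → ℝ) (L : ℕ) (ξ : ℝ) : shx Wd L ξ ≤ L := Nat.findGreatest_le L

theorem shx_spec {Wd : ℕ → ℝ} {l₁ L : ℕ} {ξ : ℝ} (hl : l₁ ≤ L) (h : Wd l₁ < |ξ|) : l₁ ≤ shx Wd L ξ ∧ InS Wd L (shx Wd L ξ) ξ := by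
  classical
  refine ⟨Nat.le_findGreatest hl h, Nat.findGreatest_spec (P := fun l => Wd l < |ξ|) hl h, fun h1 => ?_⟩
  have h2 := Nat.findGreatest_is_greatest (P := fun l => Wd l < |ξ|) (n := L) (k := shx Wd L ξ + 1) (Nat.lt_succ_self _) h1
  exact not_lt.1 h2

/-- Losses at the places of the shells, one direction: `ℓ` = coordinate of the starts, `ℓ'` = coordinate of the ends. -/
def Lc31 (I : Finset ℤ) (ℓ ℓ' : ℤ → ℝ) (Wd : ℕ → ℝ) (l₁ L : ℕ) (k kap : ℤ → ℤ → ℝ) (G : ℤ → ℝ) (cK σ : ℝ) (B : ℕ → ℝ) : Prop :=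
  ∀ x ∈ I, ∀ l, l₁ ≤ l → l ≤ L → InS Wd L l (ℓ x) → ∃ u r a : ℝ, u + r + a ≤ B l ∧
    (∀ z ∈ I, kap x z ≤ Real.exp (u - cK * |ℓ' z - ℓ x|)) ∧
    ∃ z₀ ∈ I, Real.exp (-a) ≤ k x z₀ ∧ ∀ z ∈ I, 0 < kap x z → G z ≤ Real.exp (r + σ * |ℓ' z - ℓ x|) * G z₀

/-- The data as functions of the place. -/
theorem Lc31.choose {I : Finset ℤ} {ℓ ℓ' : ℤ → ℝ} {Wd : ℕ → ℝ} {l₁ L : ℕ} {k kap : ℤ → ℤ → ℝ} {G : ℤ → ℝ} {cK σ : ℝ} {B : ℕ → ℝ}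
    (h : Lc31 I ℓ ℓ' Wd l₁ L k kap G cK σ B) (hl : l₁ ≤ L) : ∃ u r a : ℤ → ℝ, ∀ x ∈ I, Wd l₁ < |ℓ x| →
      u x + r x + a x ≤ B (shx Wd L (ℓ x)) ∧ (∀ z ∈ I, kap x z ≤ Real.exp (u x - cK * |ℓ' z - ℓ x|)) ∧
      ∃ z₀ ∈ I, Real.exp (-a x) ≤ k x z₀ ∧ ∀ z ∈ I, 0 < kap x z → G z ≤ Real.exp (r x + σ * |ℓ' z - ℓ x|) * G z₀ := by
  have h1 : ∀ x : ℤ, ∃ t : ℝ × ℝ × ℝ, x ∈ I → Wd l₁ < |ℓ x| →
      t.1 + t.2.1 + t.2.2 ≤ B (shx Wd L (ℓ x)) ∧ (∀ z ∈ I, kap x z ≤ Real.exp (t.1 - cK * |ℓ' z - ℓ x|)) ∧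
      ∃ z₀ ∈ I, Real.exp (-t.2.2) ≤ k x z₀ ∧ ∀ z ∈ I, 0 < kap x z → G z ≤ Real.exp (t.2.1 + σ * |ℓ' z - ℓ x|) * G z₀ := by
    intro x
    by_cases hx : x ∈ I ∧ Wd l₁ < |ℓ x|
    · obtain ⟨s1, s2⟩ := shx_spec hl hx.2
      obtain ⟨u, r, a, h2⟩ := h x hx.1 (shx Wd L (ℓ x)) s1 (shx_le _ _ _) s2
      exact ⟨(u, r, a), fun _ _ => h2⟩
    · exact ⟨(0, 0, 0), fun h2 h3 => absurd ⟨h2, h3⟩ hx⟩
  choose t ht using h1
  exact ⟨fun x => (t x).1, fun x => (t x).2.1, fun x => (t x).2.2, fun x hx hx' => ht x hx hx'⟩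

variable {w : ℕ → ℤ → ℝ} {p : ℕ → ℝ} {l r m : ℤ → ℝ} {X lo hi : ℤ} {N : ℕ}

open Classical in
/-- The places of a shell. -/
def Sh (I : Finset ℤ) (ℓ : ℤ → ℝ) (Wd : ℕ → ℝ) (L l : ℕ) : Finset ℤ := I.filter fun x => InS Wd L l (ℓ x)

theorem ms_mono (hw : ∀ k y, 0 < w k y) (hp : ∀ k, 0 < p k) (hm : ∀ y, 0 ≤ m y) (k : ℕ) {J J' : Finset ℤ} (h : J ⊆ J') :
    ms w p N m k J ≤ ms w p N m k J' :=
  sum_le_sum_of_subset_of_nonneg h fun y _ _ => mul_nonneg (fw_nonneg hw hp hm k y) (bw_pos hw hp _ _ _).le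

/-- The mass off the window from the masses of the shells. -/
theorem ms_off (hw : ∀ k y, 0 < w k y) (hp : ∀ k, 0 < p k) (hm : ∀ y, 0 ≤ m y) {k : ℕ} {I J : Finset ℤ} {ℓ : ℤ → ℝ} {Wd : ℕ → ℝ}
    {l₁ L : ℕ} (hl : l₁ ≤ L) (hJ : J ⊆ I) (hJW : ∀ x ∈ J, Wd l₁ < |ℓ x|) {κ : ℕ → ℝ} {Z κ₀ : ℝ} (hZ : 0 ≤ Z)
    (h : ∀ l, l₁ ≤ l → l ≤ L → ms w p N m k (Sh I ℓ Wd L l) ≤ Real.exp (-κ l) * Z)
    (hκ : ∀ l, l₁ ≤ l → l ≤ L → κ₀ + Real.log (L + 1) ≤ κ l) : ms w p N m k J ≤ Real.exp (-κ₀) * Z := by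
  classical
  have h1 : ms w p N m k J = ∑ l ∈ Icc l₁ L, ms w p N m k (J.filter fun x => shx Wd L (ℓ x) = l) := by
    unfold ms
    refine (sum_fiberwise_of_maps_to (fun x hx => ?_) _).symm
    exact mem_Icc.2 ⟨(shx_spec hl (hJW x hx)).1, shx_le _ _ _⟩
  have h2 : ∀ l ∈ Icc l₁ L, ms w p N m k (J.filter fun x => shx Wd L (ℓ x) = l) ≤ ms w p N m k (Sh I ℓ Wd L l) := by
    intro l _
    refine ms_mono hw hp hm k fun x hx => ?_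
    rw [mem_filter] at hx
    have h3 := (shx_spec hl (hJW x hx.1)).2
    rw [hx.2] at h3
    exact mem_filter.2 ⟨hJ hx.1, h3⟩
  refine (h1.le.trans (sum_le_sum h2)).trans ?_
  have hL : (0 : ℝ) < (L : ℝ) + 1 := by positivity
  have h3 : ∀ l ∈ Icc l₁ L, ms w p N m k (Sh I ℓ Wd L l) ≤ Real.exp (-κ₀) * Z / (L + 1) := by
    intro l hl'
    rw [mem_Icc] at hl'
    refine (h l hl'.1 hl'.2).trans ?_
    rw [le_div_iff₀ hL]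
    have h4 : Real.exp (-κ l) * (L + 1) ≤ Real.exp (-κ₀) := by
      have h5 : Real.exp (-κ l) ≤ Real.exp (-κ₀ - Real.log (L + 1)) := Real.exp_le_exp.2 (by linarith [hκ l hl'.1 hl'.2])
      rw [Real.exp_sub, Real.exp_log hL, le_div_iff₀ hL] at h5
      exact h5
    have h5 := mul_le_mul_of_nonneg_right h4 hZ
    linarith
  refine (sum_le_card_nsmul _ _ _ h3).trans ?_
  rw [nsmul_eq_mul, Nat.card_Icc]
  have h4 : ((L + 1 - l₁ : ℕ) : ℝ) ≤ L + 1 := by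
    have : ((L + 1 - l₁ : ℕ) : ℝ) ≤ ((L + 1 : ℕ) : ℝ) := by exact_mod_cast Nat.sub_le _ _
    push_cast at this
    exact this
  have h5 : 0 ≤ Real.exp (-κ₀) * Z / (L + 1) := by positivity
  calc ((L + 1 - l₁ : ℕ) : ℝ) * (Real.exp (-κ₀) * Z / (L + 1)) ≤ (L + 1) * (Real.exp (-κ₀) * Z / (L + 1)) :=
        mul_le_mul_of_nonneg_right h4 h5
    _ = _ := by field_simp

/-- **The joint far mass of one group, by shells.** -/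
theorem un_sh (hw : ∀ k y, 0 < w k y) (hp : ∀ k, 0 < p k) (hm : ∀ y, 0 ≤ m y) (hlo : ∀ y, y < lo → m y = 0)
    (hhi : ∀ y, hi - N < y → m y = 0) (hb : lo + N ≤ hi) {i n : ℕ} (hin : i + n ≤ N) {k kap : ℤ → ℤ → ℝ}
    {G : ℤ → ℝ} {N₀ : ℝ} (hN₀ : 0 < N₀) (hG0 : ∀ z, 0 ≤ G z) (hk : ∀ x z, 0 ≤ k x z)
    (hG : ∀ x z, ker w p i n x z * bw w p (i + n) (N - (i + n)) z = N₀ * (k x z * G z))
    {cen cen' : ℝ} {Wd : ℕ → ℝ} {l₁ L : ℕ} (hl : l₁ ≤ L) {cK σ : ℝ} (hσ : σ ≤ cK) (hkap0 : ∀ x z, 0 ≤ kap x z)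
    {B κ : ℕ → ℝ} (hB0 : ∀ l, 0 ≤ B l)
    (hs : Lc31 (Icc lo hi) (fun x => (x : ℝ) - cen) (fun z => (z : ℝ) - cen') Wd l₁ L k kap G cK σ B)
    (he : Lc31 (Icc lo hi) (fun z => (z : ℝ) - cen') (fun x => (x : ℝ) - cen) Wd l₁ L (fun z x => k x z) (fun z x => kap x z)
      (fw w p m i) cK σ B)
    (hx : ∀ l, l₁ ≤ l → l ≤ L → ms w p N m i (Sh (Icc lo hi) (fun x => (x : ℝ) - cen) Wd L l) ≤
      Real.exp (-κ l) * ∑ x ∈ Icc lo hi, m x * bw w p 0 N x)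
    (hz : ∀ l, l₁ ≤ l → l ≤ L → ms w p N m (i + n) (Sh (Icc lo hi) (fun z => (z : ℝ) - cen') Wd L l) ≤
      Real.exp (-κ l) * ∑ x ∈ Icc lo hi, m x * bw w p 0 N x)
    {y yp : ℤ} {q u₀ g₁ gf : ℝ} (hBκ : ∀ l, l₁ ≤ l → l ≤ L → B l + g₁ ≤ κ l)
    (hXw : ∀ x ∈ Icc lo hi, |(x : ℝ) - cen| ≤ Wd l₁ → fw w p m i x ≤ Real.exp q * fw w p m i y)
    (hFw : ∀ z ∈ Icc lo hi, |(z : ℝ) - cen'| ≤ Wd l₁ → G z ≤ Real.exp q * G yp)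
    (hkw : ∀ x ∈ Icc lo hi, ∀ z ∈ Icc lo hi, |(x : ℝ) - cen| ≤ Wd l₁ → |(z : ℝ) - cen'| ≤ Wd l₁ → k x z ≤ Real.exp u₀)
    (hJ4 : 4 * ((L : ℝ) + 1) ≤ Real.exp g₁)
    (hnum : 4 * ((Icc lo hi).card : ℝ) * (L + 1) * ((Icc lo hi).card : ℝ) ^ 2 * Real.exp (2 * q + u₀ + gf) ≤ Real.exp g₁) :
    fsum (Icc lo hi) cen cen' (Wd l₁) kap (fw w p m i) G ≤ Real.exp (-gf) * (fw w p m i y * G yp) := by
  classical
  obtain ⟨u, r', a, h1⟩ := hs.choose hl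
  obtain ⟨u', r'', a', h2⟩ := he.choose hl
  have hZ0 : 0 ≤ ∑ x ∈ Icc lo hi, m x * bw w p 0 N x := sum_nonneg fun x _ => mul_nonneg (hm x) (bw_pos hw hp _ _ _).le
  have hms : ∀ (k' : ℕ) (c : ℝ), (∀ l, l₁ ≤ l → l ≤ L → ms w p N m k' (Sh (Icc lo hi) (fun x => (x : ℝ) - c) Wd L l) ≤
      Real.exp (-κ l) * ∑ x ∈ Icc lo hi, m x * bw w p 0 N x) → ∀ j < L + 1,
      ms w p N m k' ((Icc lo hi).filter (fun x : ℤ => Wd l₁ < |(x : ℝ) - c| ∧ shx Wd L ((x : ℝ) - c) = j)) ≤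
      Real.exp (-(if j < l₁ then B j + g₁ else κ j)) * ∑ x ∈ Icc lo hi, m x * bw w p 0 N x := by
    intro k' c hc j hj
    by_cases hjl : j < l₁
    · have e : (Icc lo hi).filter (fun x : ℤ => Wd l₁ < |(x : ℝ) - c| ∧ shx Wd L ((x : ℝ) - c) = j) = ∅ := by
        rw [filter_eq_empty_iff]
        rintro x _ ⟨h3, h4⟩
        have := (shx_spec hl h3).1
        omega
      rw [e]
      unfold ms
      rw [sum_empty]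
      positivity
    · rw [if_neg hjl]
      refine (ms_mono hw hp hm k' ?_).trans (hc j (not_lt.1 hjl) (by omega))
      intro x hx'
      rw [mem_filter] at hx'
      have h3 := (shx_spec hl hx'.2.1).2
      rw [hx'.2.2] at h3
      exact mem_filter.2 ⟨hx'.1, h3⟩
  refine un_one (sh := fun x => shx Wd L ((x : ℝ) - cen)) (sh' := fun z => shx Wd L ((z : ℝ) - cen')) (J := L + 1)
    (B := B) (B' := B) (κ := fun j => if j < l₁ then B j + g₁ else κ j) (κ' := fun j => if j < l₁ then B j + g₁ else κ j)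
    (u := u) (r := r') (a := a) (u' := u') (r' := r'') (a' := a')
    (d := fun x z => |((z : ℝ) - cen') - ((x : ℝ) - cen)|) (cK := cK) (σ := σ) (u₀ := u₀) (g₁ := g₁)
    hw hp hm hlo hhi hb hin hN₀ hG0 hk hG hkap0 (fun x z => abs_nonneg _) hσ
    (fun x hx' hxW z hz' => (h1 x hx' hxW).2.1 z hz') (fun z hz' hzW x hx' => ?_)
    (fun x hx' hxW => (h1 x hx' hxW).2.2) (fun z hz' hzW => ?_)
    (fun x hx' hxW => ⟨by have := shx_le Wd L ((x : ℝ) - cen); omega, (h1 x hx' hxW).1⟩)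
    (fun z hz' hzW => ⟨by have := shx_le Wd L ((z : ℝ) - cen'); omega, (h2 z hz' hzW).1⟩)
    (hms i cen hx) (hms (i + n) cen' hz) (fun j hj => ?_) (fun j hj => ?_) (fun j _ => hB0 j) (fun j _ => hB0 j)
    hXw hFw hkw ?_ ?_
  · have h3 := (h2 z hz' hzW).2.1 x hx'
    rw [abs_sub_comm] at h3
    exact h3
  · obtain ⟨x₀, hx₀, h3, h4⟩ := (h2 z hz' hzW).2.2
    refine ⟨x₀, hx₀, h3, fun x hx' hk' => ?_⟩
    have h5 := h4 x hx' hk'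
    rw [abs_sub_comm] at h5
    exact h5
  · split_ifs with h3
    · exact le_rfl
    · exact hBκ j (not_lt.1 h3) (by omega)
  · split_ifs with h3
    · exact le_rfl
    · exact hBκ j (not_lt.1 h3) (by omega)
  · push_cast
    exact hJ4
  · push_cast
    exact hnum

/-- **`uncovered` gives the data of the block, by shells.** -/
theorem dp_shell (hw : ∀ k y, 0 < w k y) (hp : ∀ k, 0 < p k) (h : Box l r X lo hi N) {i n : ℕ} (hin : i + n ≤ N) {k kap : ℤ → ℤ → ℝ}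
    {G : ℤ → ℝ} {N₀ : ℝ} (hN₀ : 0 < N₀) (hG0 : ∀ z, 0 ≤ G z) (hk : ∀ x z, 0 ≤ k x z)
    (hG : ∀ x z, ker w p i n x z * bw w p (i + n) (N - (i + n)) z = N₀ * (k x z * G z))
    {cen cen' : ℝ} {Wd : ℕ → ℝ} {l₁ L : ℕ} (hl : l₁ ≤ L) {cK σ : ℝ} (hσ : σ ≤ cK) (hkap0 : ∀ x z, 0 ≤ kap x z)
    {B κ : ℕ → ℝ} (hB0 : ∀ l, 0 ≤ B l)
    (hs : Lc31 (Icc lo hi) (fun x => (x : ℝ) - cen) (fun z => (z : ℝ) - cen') Wd l₁ L k kap G cK σ B)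
    (heL : Lc31 (Icc lo hi) (fun z => (z : ℝ) - cen') (fun x => (x : ℝ) - cen) Wd l₁ L (fun z x => k x z) (fun z x => kap x z)
      (fw w p l i) cK σ B)
    (heR : Lc31 (Icc lo hi) (fun z => (z : ℝ) - cen') (fun x => (x : ℝ) - cen) Wd l₁ L (fun z x => k x z) (fun z x => kap x z)
      (fw w p r i) cK σ B)
    (hxL : ∀ j, l₁ ≤ j → j ≤ L → ms w p N l i (Sh (Icc lo hi) (fun x => (x : ℝ) - cen) Wd L j) ≤
      Real.exp (-κ j) * ∑ x ∈ Icc lo hi, l x * bw w p 0 N x)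
    (hzL : ∀ j, l₁ ≤ j → j ≤ L → ms w p N l (i + n) (Sh (Icc lo hi) (fun z => (z : ℝ) - cen') Wd L j) ≤
      Real.exp (-κ j) * ∑ x ∈ Icc lo hi, l x * bw w p 0 N x)
    (hxR : ∀ j, l₁ ≤ j → j ≤ L → ms w p N r i (Sh (Icc lo hi) (fun x => (x : ℝ) - cen) Wd L j) ≤
      Real.exp (-κ j) * ∑ x ∈ Icc lo hi, r x * bw w p 0 N x)
    (hzR : ∀ j, l₁ ≤ j → j ≤ L → ms w p N r (i + n) (Sh (Icc lo hi) (fun z => (z : ℝ) - cen') Wd L j) ≤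
      Real.exp (-κ j) * ∑ x ∈ Icc lo hi, r x * bw w p 0 N x)
    {yl yr yp : ℤ} {q u₀ g₁ gf κ₀ : ℝ} (hBκ : ∀ j, l₁ ≤ j → j ≤ L → B j + g₁ ≤ κ j)
    (hκ₀ : ∀ j, l₁ ≤ j → j ≤ L → κ₀ + Real.log (L + 1) ≤ κ j)
    -- the window
    (hy1 : lo ≤ yl) (hy : yl ≤ yr) (hy2 : yr ≤ hi) (hyW : ∀ x : ℤ, |(x : ℝ) - cen| ≤ Wd l₁ → yl ≤ x ∧ x ≤ yr)
    (hyl : |(yl : ℝ) - cen| ≤ Wd l₁) (hyr : |(yr : ℝ) - cen| ≤ Wd l₁) (hyp : |(yp : ℝ) - cen'| ≤ Wd l₁)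
    (hl1 : 0 < fw w p l i yl) (hl2 : 0 < fw w p l i yr) (hr1 : 0 < fw w p r i yl) (hr2 : 0 < fw w p r i yr) (hGp : 0 < G yp)
    (tL : ∀ x x' : ℤ, |(x : ℝ) - cen| ≤ Wd l₁ → |(x' : ℝ) - cen| ≤ Wd l₁ → fw w p l i x ≤ Real.exp q * fw w p l i x')
    (tR : ∀ x x' : ℤ, |(x : ℝ) - cen| ≤ Wd l₁ → |(x' : ℝ) - cen| ≤ Wd l₁ → fw w p r i x ≤ Real.exp q * fw w p r i x')
    (tF : ∀ x x' : ℤ, |(x : ℝ) - cen'| ≤ Wd l₁ → |(x' : ℝ) - cen'| ≤ Wd l₁ → G x ≤ Real.exp q * G x')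
    (hkw : ∀ x ∈ Icc lo hi, ∀ z ∈ Icc lo hi, |(x : ℝ) - cen| ≤ Wd l₁ → |(z : ℝ) - cen'| ≤ Wd l₁ → k x z ≤ Real.exp u₀)
    -- the early meetings
    (hmet : ∑ j ∈ range i, mt w p l r lo hi N j ≤ Real.exp (-κ₀) *
      ((∑ x ∈ Icc lo hi, l x * bw w p 0 N x) * ∑ y ∈ Icc lo hi, r y * bw w p 0 N y))
    (hJ4 : 4 * ((L : ℝ) + 1) ≤ Real.exp g₁)
    (hnum : 4 * ((Icc lo hi).card : ℝ) * (L + 1) * ((Icc lo hi).card : ℝ) ^ 2 * Real.exp (2 * q + u₀ + gf) ≤ Real.exp g₁) :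
    DP31 (Icc lo hi) cen cen' (Wd l₁) kap yl yr yp (2 * κ₀ - 3) q gf (fw w p l i) (fw w p r i) G := by
  have hG' := h.g
  have hb : lo + N ≤ hi := by have := h.X0; have := h.X1; omega
  have hlo1 : ∀ y, y < lo → l y = 0 := fun y hy => (h.lo0 y hy).1
  have hlo2 : ∀ y, y < lo → r y = 0 := fun y hy => (h.lo0 y hy).2
  have hhi1 : ∀ y, hi - N < y → l y = 0 := fun y hy => (h.hi0 y hy).1
  have hhi2 : ∀ y, hi - N < y → r y = 0 := fun y hy => (h.hi0 y hy).2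
  have hoff : ∀ x ∈ Icc lo hi \ Icc yl yr, Wd l₁ < |(fun x : ℤ => (x : ℝ) - cen) x| := by
    intro x hx
    rw [mem_sdiff, mem_Icc] at hx
    by_contra hcon
    exact hx.2 (mem_Icc.2 (hyW x (not_lt.1 hcon)))
  have hZl : 0 ≤ ∑ x ∈ Icc lo hi, l x * bw w p 0 N x := sum_nonneg fun x _ => mul_nonneg (hG'.l0 x) (bw_pos hw hp _ _ _).le
  have hZr : 0 ≤ ∑ x ∈ Icc lo hi, r x * bw w p 0 N x := sum_nonneg fun x _ => mul_nonneg (hG'.r0 x) (bw_pos hw hp _ _ _).le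
  exact un31 hw hp h (by omega) hy1 hy hy2 hl1 hl2 hr1 hr2 hGp hmet
    (ms_off hw hp hG'.l0 hl sdiff_subset hoff hZl hxL hκ₀) (ms_off hw hp hG'.r0 hl sdiff_subset hoff hZr hxR hκ₀) tL tR tF
    (un_sh hw hp hG'.l0 hlo1 hhi1 hb hin hN₀ hG0 hk hG hl hσ hkap0 hB0 hs heL hxL hzL hBκ (fun x _ hx => tL x yl hx hyl)
      (fun z _ hz => tF z yp hz hyp) hkw hJ4 hnum)
    (un_sh hw hp hG'.r0 hlo2 hhi2 hb hin hN₀ hG0 hk hG hl hσ hkap0 hB0 hs heR hxR hzR hBκ (fun x _ hx => tR x yr hx hyr)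
      (fun z _ hz => tF z yp hz hyp) hkw hJ4 hnum)

/-! ### The top shell without levels -/

/-- The envelope, cut to the pairs which can be reached in `n` rows. -/
def cutn (n : ℕ) (kap : ℤ → ℤ → ℝ) (x z : ℤ) : ℝ := if x ≤ z ∧ z ≤ x + n then kap x z else 0

theorem cutn_nonneg {n : ℕ} {kap : ℤ → ℤ → ℝ} (h : ∀ x z, 0 ≤ kap x z) (x z : ℤ) : 0 ≤ cutn n kap x z := by
  unfold cutn
  split_ifs
  · exact h x z
  · exact le_rfl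

theorem cutn_le {n : ℕ} {kap : ℤ → ℤ → ℝ} (h : ∀ x z, 0 ≤ kap x z) (x z : ℤ) : cutn n kap x z ≤ kap x z := by
  unfold cutn
  split_ifs
  · exact le_rfl
  · exact h x z

theorem cutn_pos {n : ℕ} {kap : ℤ → ℤ → ℝ} {x z : ℤ} (h : 0 < cutn n kap x z) : x ≤ z ∧ z ≤ x + n := by
  unfold cutn at h
  by_contra hcon
  rw [if_neg hcon] at h
  exact lt_irrefl _ h

/-- A start of the top shell: the best end among the reachable ones. -/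
theorem top_start {I : Finset ℤ} {n : ℕ} {k : ℤ → ℤ → ℝ} {G : ℤ → ℝ} {x : ℤ} {a : ℝ} (hx : x ∈ I)
    (hk : ∀ z ∈ I, x ≤ z → z ≤ x + n → Real.exp (-a) ≤ k x z) :
    ∃ z₀ ∈ I, Real.exp (-a) ≤ k x z₀ ∧ ∀ z ∈ I, x ≤ z → z ≤ x + n → G z ≤ G z₀ := by
  classical
  have hne : (I.filter fun z => x ≤ z ∧ z ≤ x + n).Nonempty := ⟨x, mem_filter.2 ⟨hx, le_rfl, by omega⟩⟩
  obtain ⟨z₀, hz₀, h1⟩ := exists_max_image _ G hne
  rw [mem_filter] at hz₀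
  exact ⟨z₀, hz₀.1, hk z₀ hz₀.1 hz₀.2.1 hz₀.2.2, fun z hz h2 h3 => h1 z (mem_filter.2 ⟨hz, h2, h3⟩)⟩

/-- An end of the top shell: the best start among those which reach it. -/
theorem top_end {I : Finset ℤ} {n : ℕ} {k : ℤ → ℤ → ℝ} {F : ℤ → ℝ} {z : ℤ} {a : ℝ} (hz : z ∈ I)
    (hk : ∀ x ∈ I, x ≤ z → z ≤ x + n → Real.exp (-a) ≤ k x z) :
    ∃ x₀ ∈ I, Real.exp (-a) ≤ k x₀ z ∧ ∀ x ∈ I, x ≤ z → z ≤ x + n → F x ≤ F x₀ := by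
  classical
  have hne : (I.filter fun x => x ≤ z ∧ z ≤ x + n).Nonempty := ⟨z, mem_filter.2 ⟨hz, le_rfl, by omega⟩⟩
  obtain ⟨x₀, hx₀, h1⟩ := exists_max_image _ F hne
  rw [mem_filter] at hx₀
  exact ⟨x₀, hx₀.1, hk x₀ hx₀.1 hx₀.2.1 hx₀.2.2, fun x hx h2 h3 => h1 x (mem_filter.2 ⟨hx, h2, h3⟩)⟩

end

end Pool.Agent.W_7d29a1_C1.D31
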