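import Pool.Agent.W_7d29a1_C1.SeaG31
import Pool.Agent.W_7d29a1_C1.Shl31
import Pool.Agent.W_7d29a1_C1.FarW89
import Pool.Agent.W_7d29a1_C1.PinC24

/-!
MP_7d29a1_pr, [C1], SHELL: ENVELOPES OF THE REAL SYSTEM (levels with powers of the logarithm, no linear slope in the start). (helper83)

* `en_weak`, `en_comp` : weaker constants, composition of two envelopes `En31`;
* `en_wt`, `en_wte` : single weights at the start, at the end;
* `en_unit` : from the inner unit `(E₀, w₀)` and a parallel line to the outer unit `(E, w)`; `en_EK` : from `EK24`;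
* `nk_EVR`, `en_EVR` : the normalised kernels from `EVR24` (any switch row);
* `off_env83` : walls near, level far `⇒` off the cell below `exp (- G E)` times an envelope of a higher level, ALL starts;
* `exk83` : exits, pointwise in the far end; `cut_comp83`, `cut_one83` : the cut `cutn`.
-/

set_option autoImplicit false

namespace Pool.Agent.W_7d29a1_C1.S83

open MeasureTheory Finset
open Pool.Agent.W_7d29a1_F Pool.Agent.W_7d29a1_H Pool.Agent.W_7d29a1_HS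
open Pool.Agent.W_7d29a1_C1.K91 (wt wt_pos)
open Pool.Agent.W_7d29a1_C1.H75 Pool.Agent.W_7d29a1_C1.U16 Pool.Agent.W_7d29a1_C1.FarK89 Pool.Agent.W_7d29a1_C1.FarW89
open Pool.Agent.W_7d29a1_C1.D31
open Pool.Agent.W_7d29a1_C1.P24 (EK24 EVR24)

noncomputable section

/-- The powers of the logarithm. -/
theorem gr_pow_le {P P' : ℕ} (h : P ≤ P') {X : ℝ} (hX : 0 ≤ X) : gr P X ≤ gr P' X := by
  unfold gr
  exact pow_le_pow_right₀ (by have := Real.log_nonneg (show (1 : ℝ) ≤ 1 + X by linarith); linarith) h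

/-- One constant for the level of a composition. -/
def lv83 (P : ℕ) (c₁ Q S : ℝ) : ℝ := LQ P c₁ Q + S

theorem lv83_nonneg (P : ℕ) {c₁ Q S : ℝ} (hQ : 0 ≤ Q) (hS : 0 ≤ S) : 0 ≤ lv83 P c₁ Q S := add_nonneg (LQ_nonneg P hQ) hS

variable {P P' : ℕ} {c c' c₁ c₂ c₂' E w q q' q₁ q₂ s s' s₁ s₂ Q S : ℝ} {ℓ ℓ' ℓ₀ ℓ₁ ℓ₂ : ℤ → ℝ} {k kap : ℤ → ℤ → ℝ} {I J S₂ : Finset ℤ}

theorem en_weak (hE : 0 < E) (hw : 0 < w) (h : En31 P c c₂ E w q s ℓ ℓ' k I J) (hP : P ≤ P') (hq : q ≤ q') (hs : s ≤ s')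
    (hc : c' ≤ c) (hc₂ : c₂ ≤ c₂') : En31 P' c' c₂' E w q' s' ℓ ℓ' k I J where
  q0 := h.q0.trans hq
  s0 := h.s0.trans hs
  k0 := h.k0
  up := fun x hx y hy => by
    refine (h.up x hx y hy).trans (Real.exp_le_exp.2 ?_)
    have hX : 0 ≤ |ℓ x| / w := by positivity
    have g1 := gr_pow_le hP hX
    have g2 := gr_nonneg P hX
    have g3 : q * gr P (|ℓ x| / w) ≤ q' * gr P' (|ℓ x| / w) := mul_le_mul hq g1 g2 (h.q0.trans hq)
    have g4 := mul_le_mul_of_nonneg_right g3 hE.le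
    have g5 : c' * (E / w) * |ℓ' y - ℓ x| ≤ c * (E / w) * |ℓ' y - ℓ x| := by
      have : 0 ≤ E / w * |ℓ' y - ℓ x| := by positivity
      nlinarith
    linarith
  sum := fun x => by
    refine le_trans (sum_le_sum fun y _ => Real.exp_le_exp.2 ?_) ((h.sum x).trans (Real.exp_le_exp.2 (mul_le_mul_of_nonneg_right hs hE.le)))
    have : 0 ≤ E / w * |ℓ' y - ℓ x| := by positivity
    nlinarith

/-- **COMPOSITION OF TWO ENVELOPES.** -/
theorem en_comp (hE : 0 < E) (hw : 0 < w) (hc₂ : 0 ≤ c₂) (h1 : En31 P c c₂ E w q₁ s₁ ℓ₀ ℓ₁ k I J)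
    (h2 : En31 P c c₂ E w q₂ s₂ ℓ₁ ℓ₂ kap J S₂) (hc₁ : 0 < c₁) (hc' : 0 ≤ c') (hcc : c₁ + c₂ + c' ≤ c) (hQ : q₁ + q₂ ≤ Q)
    (hS : s₁ + s₂ ≤ S) (hs : 0 ≤ s) (hsum : ∀ x, ∑ y ∈ S₂, Real.exp (-(c₂ * (E / w) * |ℓ₂ y - ℓ₀ x|)) ≤ Real.exp (s * E)) :
    En31 P c' c₂ E w (lv83 P c₁ Q S) s ℓ₀ ℓ₂ (fun x z => ∑ y ∈ J, k x y * kap y z) I S₂ := by
  classical
  have q10 := h1.q0
  have q20 := h2.q0
  have s10 := h1.s0
  have s20 := h2.s0
  have hQ0 : 0 ≤ Q := by linarith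
  have hS0 : 0 ≤ S := by linarith
  refine ⟨lv83_nonneg P hQ0 hS0, hs, fun x z => sum_nonneg fun y _ => mul_nonneg (h1.k0 x y) (h2.k0 y z), fun x hx z hz => ?_, hsum⟩
  have h0 : En31 P c c₂ E w 0 0 ℓ₀ ℓ₀ (fun a b => if a = b then 1 else 0) {x} {x} := by
    refine ⟨le_rfl, le_rfl, fun a b => by split_ifs <;> norm_num, fun a ha b hb => ?_, fun a => ?_⟩
    · rw [mem_singleton] at ha hb
      rw [ha, hb]
      simp
    · rw [sum_singleton, zero_mul, Real.exp_zero]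
      rw [Real.exp_le_one_iff]
      have : 0 ≤ c₂ * (E / w) * |ℓ₀ x - ℓ₀ a| := by positivity
      linarith
  have hm := comp31 hE hw hc₂ h0 (h1.mono (singleton_subset_iff.2 hx) (subset_refl _)) h2 hc₁ hc' hcc
    (Q := Q) (S := S) (by linarith) (by linarith) (subset_refl _) x (mem_singleton_self x) z hz
  rw [sum_singleton, if_pos rfl, one_mul] at hm
  refine hm.trans ?_
  unfold kapo31
  refine Real.exp_le_exp.2 ?_
  obtain ⟨X, hX⟩ : ∃ X : ℝ, X = |ℓ₀ x| / w := ⟨_, rfl⟩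
  have hX0 : 0 ≤ X := by rw [hX]; positivity
  rw [← hX]
  have g1 := mul_le_mul_of_nonneg_left (gr_shift P (AQ_nonneg P c₁ Q) hX0) hQ0
  have g2 := mul_le_mul_of_nonneg_left (gr_one_le P hX0) hS0
  have g3 : (Q * gr P (AQ P c₁ Q + X) + S) ≤ lv83 P c₁ Q S * gr P X := by
    unfold lv83 LQ
    linarith
  have g4 := mul_le_mul_of_nonneg_right g3 hE.le
  linarith

/-- A weight of the start. -/
theorem en_wt (hE : 0 < E) (h : En31 P c c₂ E w q s ℓ ℓ' k I J) {u : ℝ} (hu : 0 ≤ u) {α : ℤ → ℝ} (α0 : ∀ x, 0 ≤ α x)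
    (hα : ∀ x ∈ I, α x ≤ Real.exp (u * gr P (|ℓ x| / w) * E)) : En31 P c c₂ E w (q + u) s ℓ ℓ' (fun x y => α x * k x y) I J where
  q0 := add_nonneg h.q0 hu
  s0 := h.s0
  k0 := fun x y => mul_nonneg (α0 x) (h.k0 x y)
  up := fun x hx y hy => by
    refine (mul_le_mul (hα x hx) (h.up x hx y hy) (h.k0 x y) (Real.exp_pos _).le).trans ?_
    rw [← Real.exp_add]
    exact Real.exp_le_exp.2 (by linarith)
  sum := h.sum

/-- A weight of the end. -/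
theorem en_wte (hE : 0 < E) (hw : 0 < w) (h : En31 P c c₂ E w q s ℓ ℓ' k I J) {u : ℝ} (hu : 0 ≤ u) {β : ℤ → ℝ} (β0 : ∀ y, 0 ≤ β y)
    (hβ : ∀ y ∈ J, β y ≤ Real.exp (u * gr P (|ℓ' y| / w) * E)) (hc₁ : 0 < c₁) :
    En31 P (c - c₁) c₂ E w (q + LQ P c₁ u) s ℓ ℓ' (fun x y => k x y * β y) I J where
  q0 := add_nonneg h.q0 (LQ_nonneg P hu)
  s0 := h.s0
  k0 := fun x y => mul_nonneg (h.k0 x y) (β0 y)
  up := fun x hx y hy => by
    refine (mul_le_mul (h.up x hx y hy) (hβ y hy) (β0 y) (Real.exp_pos _).le).trans ?_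
    rw [← Real.exp_add]
    refine Real.exp_le_exp.2 ?_
    obtain ⟨X, hX⟩ : ∃ X : ℝ, X = |ℓ x| / w := ⟨_, rfl⟩
    obtain ⟨d, hd⟩ : ∃ d : ℝ, d = |ℓ' y - ℓ x| / w := ⟨_, rfl⟩
    have hX0 : 0 ≤ X := by rw [hX]; positivity
    have hd0 : 0 ≤ d := by rw [hd]; positivity
    have hY : |ℓ' y| / w ≤ X + d := by
      rw [hX, hd, ← add_div]
      refine div_le_div_of_nonneg_right ?_ hw.le
      have := abs_add_le (ℓ x) (ℓ' y - ℓ x)
      rwa [add_sub_cancel] at this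
    have hA := AQ_nonneg P c₁ u
    have g1 : gr P (|ℓ' y| / w) ≤ gr P (AQ P c₁ u + (X + d)) := gr_mono P (by positivity) (by linarith)
    have g2 := (mul_le_mul_of_nonneg_left g1 hu).trans (lipQ P hc₁ hu le_rfl hX0 hd0)
    have g3 := mul_le_mul_of_nonneg_left (gr_shift P hA hX0) hu
    have g4 := mul_le_mul_of_nonneg_right (g2.trans (add_le_add g3 le_rfl)) hE.le
    have e1 : c₁ * (E / w) * |ℓ' y - ℓ x| = c₁ * d * E := by
      rw [hd]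
      ring
    rw [← hX, sub_mul, sub_mul, e1]
    unfold LQ
    linarith
  sum := h.sum

/-- **FROM THE INNER UNIT TO THE OUTER UNIT**, the line moved by `a`. -/
theorem en_unit {q₀ κ E₀ w₀ a D ρ B : ℝ} (hE : 0 < E) (hw : 0 < w) (hE0 : 0 ≤ E₀) (hw0 : 0 < w₀) (q0 : 0 ≤ q₀) (hD : 0 ≤ D)
    (hρ : 0 ≤ ρ) (hρw : w ≤ ρ * w₀) (hB : E₀ ≤ B * E) (hr : c * (E / w) ≤ κ * (E₀ / w₀)) (ha : |a| ≤ D * w₀) (k0 : ∀ x y, 0 ≤ k x y)
    (H : ∀ x ∈ I, ∀ y ∈ J, k x y ≤ Real.exp (q₀ * gr P (|ℓ x + a| / w₀ + 1) * E₀ - κ * (E₀ / w₀) * |ℓ' y - ℓ x|)) (hs : 0 ≤ s)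
    (hsum : ∀ x, ∑ y ∈ J, Real.exp (-(c₂ * (E / w) * |ℓ' y - ℓ x|)) ≤ Real.exp (s * E)) :
    En31 P c c₂ E w (q₀ * gr P (ρ + D + 1) * B) s ℓ ℓ' k I J := by
  have hB0 : 0 ≤ B := by
    by_contra hcon
    have := mul_neg_of_neg_of_pos (not_le.1 hcon) hE
    linarith
  have hg := gr_nonneg P (show 0 ≤ ρ + D + 1 by linarith)
  refine ⟨by positivity, hs, k0, fun x hx y hy => ?_, hsum⟩
  refine (H x hx y hy).trans (Real.exp_le_exp.2 ?_)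
  obtain ⟨X, hX⟩ : ∃ X : ℝ, X = |ℓ x| / w := ⟨_, rfl⟩
  have hX0 : 0 ≤ X := by rw [hX]; positivity
  have g1 : |ℓ x + a| / w₀ + 1 ≤ ρ * X + (D + 1) := by
    have e1 : |ℓ x + a| ≤ (ρ * X + D) * w₀ := by
      have e2 := abs_add_le (ℓ x) a
      have e3 : |ℓ x| = X * w := by
        rw [hX]
        field_simp
      have e4 : X * w ≤ X * (ρ * w₀) := mul_le_mul_of_nonneg_left hρw hX0
      linarith
    rw [← div_le_iff₀ hw0] at e1
    linarith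
  have g2 : gr P (|ℓ x + a| / w₀ + 1) ≤ gr P (ρ + D + 1) * gr P X :=
    gr_mul P (by linarith) hX0 (by positivity) (by nlinarith [mul_nonneg hρ hX0, mul_nonneg hD hX0])
  have g3 := mul_le_mul_of_nonneg_left g2 q0
  have g4 : q₀ * gr P (|ℓ x + a| / w₀ + 1) * E₀ ≤ q₀ * (gr P (ρ + D + 1) * gr P X) * (B * E) := by
    refine mul_le_mul g3 hB hE0 ?_
    have := gr_nonneg P hX0
    positivity
  have g5 := mul_le_mul_of_nonneg_right hr (abs_nonneg (ℓ' y - ℓ x))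
  rw [← hX]
  linarith

/-- The same from `EK24`. -/
theorem en_EK {q₀ κ E₀ w₀ D ρ B ca cb cen cen' : ℝ} (hE : 0 < E) (hw : 0 < w) (hE0 : 0 ≤ E₀) (hw0 : 0 < w₀) (q0 : 0 ≤ q₀)
    (hD : 0 ≤ D) (hρ : 0 ≤ ρ) (hρw : w ≤ ρ * w₀) (hB : E₀ ≤ B * E) (hr : c * (E / w) ≤ κ * (E₀ / w₀)) (ha : |cen - ca| ≤ D * w₀)
    (hab : cen' - cb = cen - ca) (k0 : ∀ x y, 0 ≤ k x y) (H : EK24 k ca cb w₀ E₀ κ q₀ P) (hs : 0 ≤ s)
    (hsum : ∀ x : ℤ, ∑ y ∈ J, Real.exp (-(c₂ * (E / w) * |((y : ℝ) - cen') - ((x : ℝ) - cen)|)) ≤ Real.exp (s * E)) :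
    En31 P c c₂ E w (q₀ * gr P (ρ + D + 1) * B) s (fun x => (x : ℝ) - cen) (fun y => (y : ℝ) - cen') k I J := by
  refine en_unit (a := cen - ca) hE hw hE0 hw0 q0 hD hρ hρw hB hr ha k0 (fun x _ y _ => ?_) hs hsum
  refine (H x y).trans (le_of_eq ?_)
  have e1 : (x : ℝ) - cen + (cen - ca) = (x : ℝ) - ca := by ring
  have e2 : ((y : ℝ) - cb) - ((x : ℝ) - ca) = ((y : ℝ) - cen') - ((x : ℝ) - cen) := by linarith
  have e3 : 0 ≤ |(x : ℝ) - ca| / w₀ + 1 := by positivity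
  rw [e1, e2, gr_fq P e3]
  congr 1
  ring

/-! ### The normalised kernels from `EVR24` -/

variable {μ : Measure ℝ} [IsProbabilityMeasure μ] {s₀ h : ℝ} {η : Env} {p : ℕ → ℝ} {M : ℕ}

/-- One block without a switch row. -/
theorem nk_EVR {n₀ : ℕ} {lo hi : ℤ} {b : Pt} {q₀ : ℝ} {i n : ℕ} (hη : η ∈ EVR24 μ s₀ c n₀ P lo hi b q₀)
    (hw : 0 < wd μ s₀ n₀) (h1 : lo ≤ i) (h2 : (i : ℤ) + n ≤ hi) (hh : |h| * wd μ s₀ n₀ ≤ c / 2 * EE μ s₀ n₀)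
    (hp : ∀ k, k < M → p k = Real.exp (s₀ + h)) (hp' : ∀ k, M ≤ k → p k = Real.exp s₀) (hM : i + n ≤ M ∨ M ≤ i) (x y : ℤ) :
    nk μ s₀ h η p M i n x y ≤ Real.exp (q₀ * gr P (|lat16 μ s₀ b ((i : ℤ), x)| / wd μ s₀ n₀ + 1) * EE μ s₀ n₀ -
      c / 2 * (EE μ s₀ n₀ / wd μ s₀ n₀) * |((y - x : ℤ) : ℝ) - sl μ s₀ * n|) := by
  have hE := EE_pos (μ := μ) (s := s₀) n₀
  have hx := wt_pos η i x
  have hy := wt_pos η (i + n) y
  have g1 := hη ((i : ℤ), x) n h1 h2 (y - x)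
  have e0 : fq16 P (|lat16 μ s₀ b ((i : ℤ), x)| / wd μ s₀ n₀ + 1) = gr P (|lat16 μ s₀ b ((i : ℤ), x)| / wd μ s₀ n₀ + 1) :=
    gr_fq P (by positivity)
  rw [e0] at g1
  have e1 : hc μ s₀ c n₀ = c * (EE μ s₀ n₀ / wd μ s₀ n₀) := by
    unfold hc
    ring
  rw [e1] at g1
  obtain ⟨Z, hZ⟩ : ∃ Z : ℝ, Z = ((y - x : ℤ) : ℝ) - sl μ s₀ * n := ⟨_, rfl⟩
  rw [← hZ] at g1 ⊢
  have hr : |h| ≤ c / 2 * (EE μ s₀ n₀ / wd μ s₀ n₀) := by
    rw [← mul_div_assoc, le_div_iff₀ hw]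
    exact hh
  rcases hM with h3 | h3
  · have hb : bl M i n = n := by
      unfold bl
      omega
    have h4 := ker_W (μ := μ) (s := s₀) (h := h) η (p := p) i x n y (fun k _ hk => hp k (by omega))
    have h5 : nk μ s₀ h η p M i n x y = Real.exp (h * Z) * W μ s₀ η ((i : ℤ), x) n (y - x) := by
      unfold nk
      have e5 : wt η i x * (Real.exp (↑n * lam μ s₀ + h * ↑(y - x)) * W μ s₀ η ((i : ℤ), x) n (y - x)) / wt η i x =
          Real.exp (↑n * lam μ s₀ + h * ↑(y - x)) * W μ s₀ η ((i : ℤ), x) n (y - x) := mul_div_cancel_left₀ _ hx.ne'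
      rw [hb, h4, e5, ← mul_assoc, ← Real.exp_add]
      congr 2
      rw [hZ]
      ring
    rw [h5]
    refine (mul_le_mul_of_nonneg_left g1 (Real.exp_pos _).le).trans ?_
    rw [← Real.exp_add]
    refine Real.exp_le_exp.2 ?_
    have h6 : h * Z ≤ |h| * |Z| := by
      rw [← abs_mul]
      exact le_abs_self _
    have h7 := mul_le_mul_of_nonneg_right hr (abs_nonneg Z)
    linarith
  · have hb : bl M i n = 0 := by
      unfold bl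
      omega
    have h4 := ker_W (μ := μ) (s := s₀) (h := 0) η (p := p) i x n y (fun k hk _ => by rw [add_zero]; exact hp' k (by omega))
    have h5 : nk μ s₀ h η p M i n x y = W μ s₀ η ((i : ℤ), x) n (y - x) := by
      unfold nk
      have e5 : wt η i x * (Real.exp (↑n * lam μ s₀ + 0 * ↑(y - x)) * W μ s₀ η ((i : ℤ), x) n (y - x)) / wt η i x =
          Real.exp (↑n * lam μ s₀ + 0 * ↑(y - x)) * W μ s₀ η ((i : ℤ), x) n (y - x) := mul_div_cancel_left₀ _ hx.ne'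
      rw [hb, h4, e5, ← mul_assoc, ← Real.exp_add]
      have : -(↑n * lam μ s₀ + h * sl μ s₀ * ((0 : ℕ) : ℝ)) + (↑n * lam μ s₀ + 0 * ((y - x : ℤ) : ℝ)) = 0 := by
        push_cast
        ring
      rw [this, Real.exp_zero, one_mul]
    rw [h5]
    refine g1.trans (Real.exp_le_exp.2 ?_)
    have h7 : 0 ≤ c / 2 * (EE μ s₀ n₀ / wd μ s₀ n₀) := (abs_nonneg h).trans hr
    have h8 := mul_nonneg h7 (abs_nonneg Z)
    linarith

/-- **`EVR24` GIVES `En31` FOR THE NORMALISED KERNELS**, any switch row (inner unit, line of `b`). -/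
theorem en_EVR {n₀ : ℕ} {lo hi : ℤ} {b : Pt} {q₀ : ℝ} {i n : ℕ} (hη : η ∈ EVR24 μ s₀ c n₀ P lo hi b q₀) (hq : 0 ≤ q₀)
    (hw : 0 < wd μ s₀ n₀) (h1 : lo ≤ i) (h2 : (i : ℤ) + n ≤ hi) (hh : |h| * wd μ s₀ n₀ ≤ c / 2 * EE μ s₀ n₀)
    (hp : ∀ k, k < M → p k = Real.exp (s₀ + h)) (hp' : ∀ k, M ≤ k → p k = Real.exp s₀) (hc₁ : 0 < c₁) (hc₂ : 0 ≤ c₂)
    (hc' : 0 ≤ c') (hcc : c₁ + c₂ + c' ≤ c / 2) (hs : 0 ≤ s) (hQ : 2 * (q₀ * gr P 1) ≤ Q) (hS : 2 * s ≤ S)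
    (hsum : ∀ (z : ℝ) (J : Finset ℤ), ∑ y ∈ J, Real.exp (-(c₂ * (EE μ s₀ n₀ / wd μ s₀ n₀) * |(y : ℝ) - z|)) ≤
      Real.exp (s * EE μ s₀ n₀)) (I J : Finset ℤ) :
    En31 P c' c₂ (EE μ s₀ n₀) (wd μ s₀ n₀) (lv83 P c₁ Q S) s (fun x => lat16 μ s₀ b ((i : ℤ), x))
      (fun y => lat16 μ s₀ b (((i + n : ℕ) : ℤ), y)) (nk μ s₀ h η p M i n) I J := by
  have hE := EE_pos (μ := μ) (s := s₀) n₀
  have hpp : ∀ k, 0 < p k := fun k => by
    rcases lt_or_ge k M with h3 | h3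
    · rw [hp k h3]; exact Real.exp_pos _
    · rw [hp' k h3]; exact Real.exp_pos _
  have hg1 := gr_one_le P (show (0 : ℝ) ≤ 1 by norm_num)
  have hq1 : 0 ≤ q₀ * gr P 1 := by positivity
  have hQ0 : 0 ≤ Q := by linarith
  have hS0 : 0 ≤ S := by linarith
  have lsum : ∀ (j : ℕ) (z : ℝ) (J : Finset ℤ), ∑ y ∈ J, Real.exp (-(c₂ * (EE μ s₀ n₀ / wd μ s₀ n₀) *
      |lat16 μ s₀ b ((j : ℤ), y) - z|)) ≤ Real.exp (s * EE μ s₀ n₀) := by
    intro j z J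
    refine (sum_le_sum fun y _ => le_of_eq ?_).trans (hsum ((b.2 : ℝ) + sl μ s₀ * (((j : ℤ) - b.1 : ℤ) : ℝ) + z) J)
    congr 4
    unfold lat16
    push_cast
    ring
  -- the skew
  have sk : ∀ (j m : ℕ) (x y : ℤ), lat16 μ s₀ b (((j + m : ℕ) : ℤ), y) - lat16 μ s₀ b ((j : ℤ), x) =
      ((y - x : ℤ) : ℝ) - sl μ s₀ * m := by
    intro j m x y
    unfold lat16
    push_cast
    ring
  -- blocks without a switch row
  have pure : ∀ (j m : ℕ), lo ≤ j → (j : ℤ) + m ≤ hi → (j + m ≤ M ∨ M ≤ j) → ∀ I J : Finset ℤ,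
      En31 P (c / 2) c₂ (EE μ s₀ n₀) (wd μ s₀ n₀) (q₀ * gr P 1) s (fun x => lat16 μ s₀ b ((j : ℤ), x))
        (fun y => lat16 μ s₀ b (((j + m : ℕ) : ℤ), y)) (nk μ s₀ h η p M j m) I J := by
    intro j m hj hjm hM I J
    refine ⟨hq1, hs, fun x y => nk_nonneg hpp j m x y, fun x _ y _ => ?_, fun x => lsum _ _ J⟩
    refine (nk_EVR hη hw hj hjm hh hp hp' hM x y).trans (Real.exp_le_exp.2 ?_)
    rw [sk]
    obtain ⟨X, hX⟩ : ∃ X : ℝ, X = |lat16 μ s₀ b ((j : ℤ), x)| / wd μ s₀ n₀ := ⟨_, rfl⟩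
    have hX0 : 0 ≤ X := by rw [hX]; positivity
    rw [← hX]
    have g1 := gr_shift P (show (0 : ℝ) ≤ 1 by norm_num) hX0
    rw [add_comm 1 X] at g1
    have g2 := mul_le_mul_of_nonneg_right (mul_le_mul_of_nonneg_left g1 hq) hE.le
    linarith
  by_cases hM : i + n ≤ M ∨ M ≤ i
  · refine en_weak hE hw (pure i n h1 h2 hM I J) le_rfl ?_ le_rfl (by linarith) le_rfl
    unfold lv83 LQ
    have g1 := gr_one_le P (AQ_nonneg P c₁ Q)
    nlinarith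
  · push Not at hM
    obtain ⟨m, hm⟩ : ∃ m : ℕ, M = i + m := ⟨M - i, by omega⟩
    obtain ⟨m', hm'⟩ : ∃ m' : ℕ, n = m + m' := ⟨n - m, by omega⟩
    subst hm'
    obtain ⟨J', hJ'⟩ : ∃ J' : Finset ℤ, J' = J.biUnion fun y => Icc (y - m') y := ⟨_, rfl⟩
    have a1 := pure i m h1 (by push_cast at h2; omega) (Or.inl (by omega)) I J'
    have a2 := pure (i + m) m' (by push_cast; omega) (by push_cast at h2 ⊢; omega) (Or.inr (by omega)) J' J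
    have a3 := en_comp (Q := Q) (S := S) hE hw hc₂ a1 a2 hc₁ hc' hcc (by linarith) (by linarith) hs (fun x => lsum _ _ J)
    refine ⟨a3.q0, a3.s0, fun x y => nk_nonneg hpp i (m + m') x y, fun x hx y hy => ?_, fun x => lsum _ _ J⟩
    have a4 := a3.up x hx y hy
    have e1 : ((i + m + m' : ℕ) : ℤ) = ((i + (m + m') : ℕ) : ℤ) := by push_cast; ring
    rw [e1] at a4
    refine le_trans (le_of_eq ?_) a4
    rw [nk_add]
    refine sum_subset ?_ fun z _ hz => ?_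
    · intro z hz
      rw [hJ', mem_biUnion]
      exact ⟨y, hy, hz⟩
    · rw [nk_eq_zero (i + m) m' (fun hh => hz (mem_Icc.2 ⟨by omega, by omega⟩)), mul_zero]

/-! ### Off the cell -/

/-- **WALLS NEAR, LEVEL FAR.** -/
theorem off_env83 {Qs : ℤ → ℤ → Prop} {G G' β h₁ a D E₀ w₀ : ℝ} (hE : 0 < E) (hw : 0 < w) (hE0 : 0 ≤ E₀) (hw0 : 0 < w₀)
    (hβ : 0 ≤ β) (hD : 0 ≤ D) (hqq : q ≤ q') (hq' : 0 ≤ q') (hc' : c' ≤ c) (hr : c' * (E / w) ≤ h₁ * (E₀ / w₀))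
    (near : ∀ v z : ℤ, Qs v z → |ℓ v| ≤ D * w →
      k v z ≤ Real.exp ((-G + β * (|ℓ v + a| / w₀) - h₁ * (|ℓ' z - ℓ v| / w₀)) * E₀))
    (lev : ∀ v z : ℤ, k v z ≤ Real.exp (q * gr P (|ℓ v| / w) * E - c * (E / w) * |ℓ' z - ℓ v|))
    (hG : G' * E + β * ((D * w + |a|) / w₀) * E₀ ≤ G * E₀) (hDG : G' ≤ (q' - q) * gr P D) :
    ∀ v z : ℤ, Qs v z → k v z ≤ Real.exp (-(G' * E)) * Real.exp (q' * gr P (|ℓ v| / w) * E - c' * (E / w) * |ℓ' z - ℓ v|) := by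
  intro v z hQ
  rw [← Real.exp_add]
  obtain ⟨X, hX⟩ : ∃ X : ℝ, X = |ℓ v| / w := ⟨_, rfl⟩
  have hX0 : 0 ≤ X := by rw [hX]; positivity
  have gX := gr_one_le P hX0
  rcases le_total |ℓ v| (D * w) with h1 | h1
  · refine (near v z hQ h1).trans (Real.exp_le_exp.2 ?_)
    have g1 : |ℓ v + a| / w₀ ≤ (D * w + |a|) / w₀ := by
      refine div_le_div_of_nonneg_right ?_ hw0.le
      have := abs_add_le (ℓ v) a
      linarith
    have g2 := mul_le_mul_of_nonneg_right (mul_le_mul_of_nonneg_left g1 hβ) hE0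
    have g3 := mul_le_mul_of_nonneg_right hr (abs_nonneg (ℓ' z - ℓ v))
    have e1 : h₁ * (|ℓ' z - ℓ v| / w₀) * E₀ = h₁ * (E₀ / w₀) * |ℓ' z - ℓ v| := by ring
    have g4 : 0 ≤ q' * gr P X * E := by positivity
    rw [← hX, sub_mul, add_mul, e1]
    linarith
  · refine (lev v z).trans (Real.exp_le_exp.2 ?_)
    have g1 : gr P D ≤ gr P X := gr_mono P hD (by rw [hX, le_div_iff₀ hw]; exact h1)
    have g2 := mul_le_mul_of_nonneg_left g1 (show 0 ≤ q' - q by linarith)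
    have g3 := mul_le_mul_of_nonneg_right (hDG.trans g2) hE.le
    have g4 : c' * (E / w) * |ℓ' z - ℓ v| ≤ c * (E / w) * |ℓ' z - ℓ v| := by
      have : 0 ≤ E / w * |ℓ' z - ℓ v| := by positivity
      nlinarith
    rw [← hX]
    linarith

/-! ### Exits -/

/-- **The exits, pointwise in the far end.** `be` = the slope which the exits beat. -/
theorem exk83 {X : Finset ℤ} {K : ℤ → ℝ} {a : ℤ} {A be g c0 c1 Q1 Λ C₁ : ℝ} (hE : 0 < E) (hw : 0 < w) (K0 : ∀ x, 0 ≤ K x)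
    (hc0 : 0 ≤ c0) (hc01 : c0 ≤ c1) (ha : |ℓ₀ a| ≤ Λ * w) (hC : ∀ d : ℝ, 0 ≤ d → Q1 * gr P d + c0 * d ≤ C₁ + be * d)
    (hs : ∑ x ∈ X, K x * Real.exp (be * (|ℓ x| / w) * E) ≤ Real.exp (-(g * E)) * A) (z : ℤ) :
    ∑ x ∈ X, K x * Real.exp (Q1 * gr P (|ℓ x| / w) * E - c1 * (E / w) * |ℓ' z - ℓ x|) ≤
      Real.exp ((C₁ + c0 * Λ - g) * E) * A * Real.exp (-(c0 * (E / w) * |ℓ' z - ℓ₀ a|)) := by
  have pt : ∀ x ∈ X, K x * Real.exp (Q1 * gr P (|ℓ x| / w) * E - c1 * (E / w) * |ℓ' z - ℓ x|) ≤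
      Real.exp ((C₁ + c0 * Λ) * E) * Real.exp (-(c0 * (E / w) * |ℓ' z - ℓ₀ a|)) * (K x * Real.exp (be * (|ℓ x| / w) * E)) := by
    intro x _
    have e1 : Real.exp ((C₁ + c0 * Λ) * E) * Real.exp (-(c0 * (E / w) * |ℓ' z - ℓ₀ a|)) * (K x * Real.exp (be * (|ℓ x| / w) * E)) =
        K x * Real.exp ((C₁ + c0 * Λ) * E + -(c0 * (E / w) * |ℓ' z - ℓ₀ a|) + be * (|ℓ x| / w) * E) := by
      rw [Real.exp_add, Real.exp_add]
      ring
    rw [e1]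
    refine mul_le_mul_of_nonneg_left (Real.exp_le_exp.2 ?_) (K0 x)
    obtain ⟨d, hd⟩ : ∃ d : ℝ, d = |ℓ x| / w := ⟨_, rfl⟩
    have hd0 : 0 ≤ d := by rw [hd]; positivity
    have g1 := mul_le_mul_of_nonneg_right (hC d hd0) hE.le
    have hEw : 0 < E / w := by positivity
    have g2 : |ℓ' z - ℓ₀ a| ≤ |ℓ' z - ℓ x| + (|ℓ x| + |ℓ₀ a|) := by
      have t1 := abs_add_le (ℓ' z - ℓ x) (ℓ x - ℓ₀ a)
      have t2 := abs_sub (ℓ x) (ℓ₀ a)
      rw [sub_add_sub_cancel] at t1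
      linarith
    have g3 := mul_le_mul_of_nonneg_left g2 (show 0 ≤ c0 * (E / w) by positivity)
    have g4 : c0 * (E / w) * |ℓ' z - ℓ x| ≤ c1 * (E / w) * |ℓ' z - ℓ x| :=
      mul_le_mul_of_nonneg_right (mul_le_mul_of_nonneg_right hc01 hEw.le) (abs_nonneg _)
    have g5 : c0 * (E / w) * |ℓ x| = c0 * d * E := by
      rw [hd]
      ring
    have g6 : c0 * (E / w) * |ℓ₀ a| ≤ c0 * Λ * E := by
      have t1 := mul_le_mul_of_nonneg_left ha (show 0 ≤ c0 * (E / w) by positivity)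
      have t2 : c0 * (E / w) * (Λ * w) = c0 * Λ * E := by field_simp
      linarith
    rw [← hd]
    linarith
  refine (sum_le_sum pt).trans ?_
  rw [← mul_sum]
  refine (mul_le_mul_of_nonneg_left hs (by positivity)).trans (le_of_eq ?_)
  have e2 : Real.exp ((C₁ + c0 * Λ - g) * E) = Real.exp ((C₁ + c0 * Λ) * E) * Real.exp (-(g * E)) := by
    rw [← Real.exp_add]
    congr 1
    ring
  rw [e2]
  ring

/-! ### The cut -/

theorem cut_one83 {n : ℕ} {K κ : ℤ → ℤ → ℝ} {L : ℝ} {x z : ℤ} (hK : ¬ (x ≤ z ∧ z ≤ x + n) → K x z = 0) (h : K x z ≤ L * κ x z) :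
    K x z ≤ L * cutn n κ x z := by
  unfold cutn
  split_ifs with h1
  · exact h
  · rw [hK h1, mul_zero]

theorem cut_comp83 {n m : ℕ} {T : Finset ℤ} {K κ κ' : ℤ → ℤ → ℝ} {L : ℝ} {x z : ℤ} (K0 : ∀ y, 0 ≤ K x y)
    (hK : ∀ y, ¬ (x ≤ y ∧ y ≤ x + n) → K x y = 0) (k0 : ∀ y z, 0 ≤ κ y z) (h : ∑ y ∈ T, K x y * κ y z ≤ L * κ' x z) :
    ∑ y ∈ T, K x y * cutn m κ y z ≤ L * cutn (n + m) κ' x z := by
  by_cases h1 : x ≤ z ∧ z ≤ x + (n + m : ℕ)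
  · have e : cutn (n + m) κ' x z = κ' x z := if_pos h1
    rw [e]
    exact (sum_le_sum fun y _ => mul_le_mul_of_nonneg_left (cutn_le k0 y z) (K0 y)).trans h
  · have e : cutn (n + m) κ' x z = 0 := if_neg h1
    rw [e, mul_zero]
    refine le_of_eq (sum_eq_zero fun y _ => ?_)
    by_cases h2 : x ≤ y ∧ y ≤ x + n
    · have e2 : cutn m κ y z = 0 := if_neg fun h3 => h1 ⟨by omega, by push_cast; omega⟩
      rw [e2, mul_zero]
    · rw [hK y h2, zero_mul]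

end

end Pool.Agent.W_7d29a1_C1.S83
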