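import Pool.Agent.W_7d29a1_C1.KerB16

/-!
MP_7d29a1_pr, [C1] attractor route: **the force is removed in one slab**. (helper12)

`K1` = the composite kernel with the force `h` on the first `m` rows; on the envelope event of the slab (`Far16` or its decreasing half
`FU24`), from the window `|lat| ≤ R wd`: `K1 y ≤ exp (|h| D wd) * W y + exp (- G EE)` and `W y ≤ exp (|h| D wd) * K1 y + exp (- G EE)` for
every end `y`, `D` = a constant (before `h`, `n`). `upU12`: the envelope of `K1` over the decreasing half of `Far16`.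
-/

set_option autoImplicit false

namespace Pool.Agent.W_7d29a1_C1.U16

open MeasureTheory ProbabilityTheory Filter Topology Finset
open Pool.Agent.W_7d29a1_F Pool.Agent.W_7d29a1_h4g Pool.Agent.W_7d29a1_H Pool.Agent.W_7d29a1_HS
open Pool.Agent.W_7d29a1_C1.H75

noncomputable section

variable {μ : Measure ℝ} {s : ℝ} [IsProbabilityMeasure μ] {c C : ℝ} {n₀ : ℕ}

theorem q_sq12 {q : ℝ} (hq : 0 ≤ q) : q ≤ (1 + q) ^ 2 := by nlinarith

/-- One term of the composite kernel, over the decreasing half of `Far16`. -/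
theorem termU12 (h0 : In μ s c C n₀) (P : ℕ) : ∃ C₃ : ℝ, 0 < C₃ ∧ ∀ {q h : ℝ} {n N : ℕ} {b : Pt} {η : Env}, 0 ≤ q → 1 ≤ wd μ s n →
    (∀ (p : Pt) (j : ℕ), b.1 ≤ p.1 → p.1 + j ≤ b.1 + N → ∀ y : ℤ,
      W μ s η p j y ≤ Real.exp (q * fq16 P (|lat16 μ s b p| / wd μ s n + 1) * EE μ s n - hc μ s c n * |(y : ℝ) - sl μ s * j|)) →
    |h| * wd μ s n ≤ c / 4 * EE μ s n → ∀ (a : Pt) (m n' : ℕ) (y z : ℤ), b.1 ≤ a.1 →
      a.1 + m + n' ≤ b.1 + N →
      Real.exp (h * ((z : ℝ) - sl μ s * m)) * W μ s η a m z * W μ s η (a.1 + m, a.2 + z) n' (y - z) ≤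
        Real.exp (C₃ * (1 + q) ^ 2 * fq16 (2 * P) (|lat16 μ s b a| / wd μ s n + 1) * EE μ s n -
          c / 8 * EE μ s n * (|(z : ℝ) - sl μ s * m| / wd μ s n) - hc μ s c n / 2 * |(y : ℝ) - sl μ s * ((m + n' : ℕ) : ℝ)|) := by
  have hc0 := h0.c0
  obtain ⟨C₂, hC₂, H⟩ := fq16_pay P (ε := c / 8) (by positivity)
  refine ⟨4 * C₂ + 1, by positivity, ?_⟩
  intro q h n N b η hq hw hη hh a m n' y z h1 h2
  have hw0 : 0 < wd μ s n := by linarith
  have hE := EE_pos (μ := μ) (s := s) n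
  have hcw : hc μ s c n * wd μ s n = c * EE μ s n := by
    unfold hc
    exact div_mul_cancel₀ _ hw0.ne'
  have hc1 : 0 ≤ hc μ s c n := hc_nonneg h0 n
  obtain ⟨D, hD⟩ : ∃ D : ℝ, D = |lat16 μ s b a| / wd μ s n + 1 := ⟨_, rfl⟩
  obtain ⟨u, hu⟩ : ∃ u : ℝ, u = |(z : ℝ) - sl μ s * m| := ⟨_, rfl⟩
  obtain ⟨v, hv⟩ : ∃ v : ℝ, v = |((y - z : ℤ) : ℝ) - sl μ s * n'| := ⟨_, rfl⟩
  obtain ⟨d, hd⟩ : ∃ d : ℝ, d = u / wd μ s n := ⟨_, rfl⟩
  have hu0 : 0 ≤ u := by rw [hu]; exact abs_nonneg _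
  have hv0 : 0 ≤ v := by rw [hv]; exact abs_nonneg _
  have hd0 : 0 ≤ d := by rw [hd]; positivity
  have hD0 : 0 ≤ D := by rw [hD]; positivity
  have hud : u = d * wd μ s n := by rw [hd, div_mul_cancel₀ _ hw0.ne']
  have fD := fq16_one P D
  have fd := fq16_one P d
  have w1 := hη a m h1 (show a.1 + m ≤ b.1 + N by omega) z
  have w2 := hη (a.1 + (m : ℤ), a.2 + z) n' (show b.1 ≤ a.1 + m by omega) (by show a.1 + m + n' ≤ b.1 + N; exact h2) (y - z)
  rw [← hD, ← hu] at w1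
  rw [← hv] at w2
  -- the place of the middle point
  have hlat : |lat16 μ s b (a.1 + (m : ℤ), a.2 + z)| ≤ |lat16 μ s b a| + u := by
    have e : lat16 μ s b (a.1 + (m : ℤ), a.2 + z) = lat16 μ s b a + ((z : ℝ) - sl μ s * m) := by
      unfold lat16
      push_cast
      ring
    rw [e, hu]
    exact abs_add_le _ _
  have hf2 : fq16 P (|lat16 μ s b (a.1 + (m : ℤ), a.2 + z)| / wd μ s n + 1) ≤ fq16 P D * fq16 P d := by
    refine le_trans (fq16_mono ?_) (fq16_mul P hD0 hd0)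
    have g1 : 0 ≤ |lat16 μ s b (a.1 + (m : ℤ), a.2 + z)| / wd μ s n + 1 := by positivity
    rw [abs_of_nonneg g1, abs_of_nonneg (by linarith : 0 ≤ D + d), hD, hd]
    have g2 := div_le_div_of_nonneg_right hlat hw0.le
    rw [add_div] at g2
    linarith
  -- the exponent
  have x1 : h * ((z : ℝ) - sl μ s * m) ≤ c / 4 * EE μ s n * d := by
    have g1 : h * ((z : ℝ) - sl μ s * m) ≤ |h| * u := by
      rw [hu, ← abs_mul]
      exact le_abs_self _
    rw [hud] at g1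
    have g2 := mul_le_mul_of_nonneg_left hh hd0
    linarith
  have x2 : hc μ s c n * u = c * EE μ s n * d := by
    rw [hud, ← hcw]
    ring
  have x3 : |(y : ℝ) - sl μ s * ((m + n' : ℕ) : ℝ)| ≤ u + v := by
    have e : (y : ℝ) - sl μ s * ((m + n' : ℕ) : ℝ) = ((z : ℝ) - sl μ s * m) + (((y - z : ℤ) : ℝ) - sl μ s * n') := by
      push_cast
      ring
    rw [e, hu, hv]
    exact abs_add_le _ _
  have x4 : hc μ s c n / 2 * |(y : ℝ) - sl μ s * ((m + n' : ℕ) : ℝ)| ≤ 1 / 2 * (c * EE μ s n * d) + hc μ s c n * v := by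
    have g1 := mul_le_mul_of_nonneg_left x3 (show 0 ≤ hc μ s c n / 2 by linarith)
    have g2 : 0 ≤ hc μ s c n * v := mul_nonneg hc1 hv0
    linarith
  have x5 := H (q * fq16 P D) d (by positivity) hd0
  have x6 : (1 + q * fq16 P D) ^ 2 ≤ (1 + q) ^ 2 * fq16 (2 * P) D := by
    have g1 : 1 + q * fq16 P D ≤ (1 + q) * fq16 P D := by linarith
    calc (1 + q * fq16 P D) ^ 2 ≤ ((1 + q) * fq16 P D) ^ 2 := pow_le_pow_left₀ (by positivity) g1 2
      _ = _ := by rw [mul_pow, ← fq16_two]; ring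
  have x7 : q * fq16 P D ≤ (1 + q) ^ 2 * fq16 (2 * P) D := by
    have g1 : fq16 P D ≤ fq16 (2 * P) D := by
      rw [← fq16_two]
      exact le_mul_of_one_le_left (by linarith) fD
    have g2 : 0 ≤ fq16 (2 * P) D := by linarith
    exact mul_le_mul (q_sq12 hq) g1 (by linarith) (by positivity)
  calc Real.exp (h * ((z : ℝ) - sl μ s * m)) * W μ s η a m z * W μ s η (a.1 + m, a.2 + z) n' (y - z)
      ≤ Real.exp (c / 4 * EE μ s n * d) * Real.exp (q * fq16 P D * EE μ s n - hc μ s c n * u) *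
        Real.exp (q * (fq16 P D * fq16 P d) * EE μ s n - hc μ s c n * v) := by
        refine mul_le_mul (mul_le_mul (Real.exp_le_exp.2 x1) w1 (W_nonneg _ _ _ _) (Real.exp_pos _).le) (w2.trans (Real.exp_le_exp.2 ?_))
          (W_nonneg _ _ _ _) (by positivity)
        have g1 := mul_le_mul_of_nonneg_right (mul_le_mul_of_nonneg_left hf2 hq) hE.le
        linarith
    _ = Real.exp (c / 4 * EE μ s n * d + (q * fq16 P D * EE μ s n - hc μ s c n * u) +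
        (q * (fq16 P D * fq16 P d) * EE μ s n - hc μ s c n * v)) := by rw [Real.exp_add, Real.exp_add]
    _ ≤ _ := by
        refine Real.exp_le_exp.2 ?_
        rw [← hD, ← hu, ← hd]
        have g1 : q * (fq16 P D * fq16 P d) * EE μ s n ≤ (c / 8 * d + C₂ * ((1 + q) ^ 2 * fq16 (2 * P) D)) * EE μ s n := by
          refine mul_le_mul_of_nonneg_right ?_ hE.le
          have g2 := mul_le_mul_of_nonneg_left x6 hC₂.le
          linarith
        have g2 : q * fq16 P D * EE μ s n ≤ (1 + q) ^ 2 * fq16 (2 * P) D * EE μ s n := mul_le_mul_of_nonneg_right x7 hE.le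
        have g3 : 0 ≤ (1 + q) ^ 2 * fq16 (2 * P) D * EE μ s n := by
          have := fq16_one (2 * P) D
          positivity
        have g4 : 0 ≤ C₂ * ((1 + q) ^ 2 * fq16 (2 * P) D * EE μ s n) := by positivity
        have g6 : 0 ≤ c * EE μ s n * d := by positivity
        have e7 : (4 * C₂ + 1) * (1 + q) ^ 2 * fq16 (2 * P) D * EE μ s n =
            4 * (C₂ * ((1 + q) ^ 2 * fq16 (2 * P) D * EE μ s n)) + (1 + q) ^ 2 * fq16 (2 * P) D * EE μ s n := by ring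
        have e8 : (c / 8 * d + C₂ * ((1 + q) ^ 2 * fq16 (2 * P) D)) * EE μ s n =
            1 / 8 * (c * EE μ s n * d) + C₂ * ((1 + q) ^ 2 * fq16 (2 * P) D * EE μ s n) := by ring
        have e9 : c / 4 * EE μ s n * d = 1 / 4 * (c * EE μ s n * d) := by ring
        have e10 : c / 8 * EE μ s n * d = 1 / 8 * (c * EE μ s n * d) := by ring
        rw [e8] at g1
        rw [e7, e9, e10]
        linarith

/-- **THE ENVELOPE OF THE COMPOSITE KERNELS**, over the decreasing half of `Far16`. -/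
theorem upU12 (h0 : In μ s c C n₀) (P : ℕ) : ∃ C₄ : ℝ, 0 < C₄ ∧ ∃ n₁ : ℕ, 1 ≤ n₁ ∧ ∀ {q h : ℝ} {n N : ℕ} {b : Pt} {η : Env}, n₁ ≤ n →
    N ≤ n → 0 ≤ q →
    (∀ (p : Pt) (j : ℕ), b.1 ≤ p.1 → p.1 + j ≤ b.1 + N → ∀ y : ℤ,
      W μ s η p j y ≤ Real.exp (q * fq16 P (|lat16 μ s b p| / wd μ s n + 1) * EE μ s n - hc μ s c n * |(y : ℝ) - sl μ s * j|)) →
    |h| * wd μ s n ≤ c / 4 * EE μ s n → ∀ (a : Pt) (m n' : ℕ) (y : ℤ), b.1 ≤ a.1 → a.1 + m + n' ≤ b.1 + N →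
      K1 μ s h η a m n' y ≤ Real.exp (C₄ * (1 + q) ^ 2 * fq16 (2 * P) (|lat16 μ s b a| / wd μ s n + 1) * EE μ s n
          - hc μ s c n / 2 * |(y : ℝ) - sl μ s * ((m + n' : ℕ) : ℝ)|) := by
  obtain ⟨C₃, hC₃, H⟩ := termU12 h0 P
  obtain ⟨n₁, hn₁⟩ := card16 h0
  obtain ⟨n₂, hn₂⟩ := eventually_atTop.1 ((wd_tendsto h0).eventually_ge_atTop 1)
  refine ⟨C₃ + 1, by positivity, max (max n₁ n₂) 1, le_max_right _ _, ?_⟩
  intro q h n N b η hn hN hq hη hh a m n' y h1 h2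
  have hw : 1 ≤ wd μ s n := hn₂ n ((le_max_right _ _).trans ((le_max_left _ _).trans hn))
  have hcard := hn₁ n ((le_max_left _ _).trans ((le_max_left _ _).trans hn))
  have hE := EE_pos (μ := μ) (s := s) n
  have hc0 := h0.c0
  obtain ⟨F, hF⟩ : ∃ F : ℝ, F = (1 + q) ^ 2 * fq16 (2 * P) (|lat16 μ s b a| / wd μ s n + 1) := ⟨_, rfl⟩
  have hF1 : 1 ≤ F := by
    rw [hF]
    have g1 := fq16_one (2 * P) (|lat16 μ s b a| / wd μ s n + 1)
    have g2 : (1 : ℝ) ≤ (1 + q) ^ 2 := one_le_pow₀ (by linarith)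
    exact one_le_mul_of_one_le_of_one_le g2 g1
  have e1 : ∀ c' : ℝ, c' * (1 + q) ^ 2 * fq16 (2 * P) (|lat16 μ s b a| / wd μ s n + 1) = c' * F := by
    intro c'
    rw [hF]
    ring
  rw [e1, K1_eq]
  have g1 : ∀ z ∈ Icc (0 : ℤ) m, Real.exp (h * ((z : ℝ) - sl μ s * m)) * W μ s η a m z * W μ s η (a.1 + m, a.2 + z) n' (y - z) ≤
      Real.exp (C₃ * F * EE μ s n - hc μ s c n / 2 * |(y : ℝ) - sl μ s * ((m + n' : ℕ) : ℝ)|) := by
    intro z _
    refine (H hq hw hη hh a m n' y z h1 h2).trans (Real.exp_le_exp.2 ?_)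
    rw [e1]
    have g2 : 0 ≤ c / 8 * EE μ s n * (|(z : ℝ) - sl μ s * m| / wd μ s n) := by positivity
    linarith
  refine (sum_le_sum g1).trans ?_
  rw [sum_const, nsmul_eq_mul, Int.card_Icc]
  have g3 : ((((m : ℤ) + 1 - 0).toNat : ℕ) : ℝ) ≤ Real.exp (EE μ s n) := by
    refine le_trans ?_ hcard
    have g4 : ((m : ℤ) + 1 - 0).toNat ≤ n + 1 := by omega
    exact_mod_cast g4
  calc _ ≤ Real.exp (EE μ s n) * Real.exp (C₃ * F * EE μ s n - hc μ s c n / 2 * |(y : ℝ) - sl μ s * ((m + n' : ℕ) : ℝ)|) :=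
        mul_le_mul_of_nonneg_right g3 (Real.exp_pos _).le
    _ = Real.exp (EE μ s n + (C₃ * F * EE μ s n - hc μ s c n / 2 * |(y : ℝ) - sl μ s * ((m + n' : ℕ) : ℝ)|)) := by rw [← Real.exp_add]
    _ ≤ _ := Real.exp_le_exp.2 (by
        have := mul_le_mul_of_nonneg_right hF1 hE.le
        linarith)

/-- **THE FORCE IS REMOVED.** -/
theorem force12 (h0 : In μ s c C n₀) (P : ℕ) {q R G : ℝ} (hq : 0 ≤ q) (hR : 0 ≤ R) (hG : 0 ≤ G) :
    ∃ D : ℝ, 0 < D ∧ ∃ n₁ : ℕ, 1 ≤ n₁ ∧ ∀ {h : ℝ} {n N : ℕ} {b : Pt} {η : Env}, n₁ ≤ n → N ≤ n →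
    (∀ (p : Pt) (j : ℕ), b.1 ≤ p.1 → p.1 + j ≤ b.1 + N → ∀ y : ℤ,
      W μ s η p j y ≤ Real.exp (q * fq16 P (|lat16 μ s b p| / wd μ s n + 1) * EE μ s n - hc μ s c n * |(y : ℝ) - sl μ s * j|)) →
    |h| * wd μ s n ≤ c / 4 * EE μ s n → ∀ (a : Pt) (m n' : ℕ) (y : ℤ), b.1 ≤ a.1 → a.1 + m + n' ≤ b.1 + N →
      |lat16 μ s b a| ≤ R * wd μ s n →
      K1 μ s h η a m n' y ≤ Real.exp (|h| * (D * wd μ s n)) * W μ s η a (m + n') y + Real.exp (-(G * EE μ s n)) ∧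
      W μ s η a (m + n') y ≤ Real.exp (|h| * (D * wd μ s n)) * K1 μ s h η a m n' y + Real.exp (-(G * EE μ s n)) := by
  have hc0 := h0.c0
  obtain ⟨C₃, hC₃, H⟩ := termU12 h0 P
  obtain ⟨n₁, hn₁⟩ := card16 h0
  obtain ⟨n₂, hn₂⟩ := eventually_atTop.1 ((wd_tendsto h0).eventually_ge_atTop 1)
  have hf1 := fq16_one (2 * P) (R + 1)
  obtain ⟨A, hA⟩ : ∃ A : ℝ, A = C₃ * (1 + q) ^ 2 * fq16 (2 * P) (R + 1) := ⟨_, rfl⟩
  have hA0 : 0 ≤ A := by rw [hA]; positivity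
  refine ⟨8 / c * (A + 1 + G), by positivity, max (max n₁ n₂) 1, le_max_right _ _, ?_⟩
  intro h n N b η hn hN hη hh a m n' y h1 h2 hlat
  have hw : 1 ≤ wd μ s n := hn₂ n ((le_max_right _ _).trans ((le_max_left _ _).trans hn))
  have hcard := hn₁ n ((le_max_left _ _).trans ((le_max_left _ _).trans hn))
  have hw0 : 0 < wd μ s n := by linarith
  have hE := EE_pos (μ := μ) (s := s) n
  obtain ⟨D, hD⟩ : ∃ D : ℝ, D = 8 / c * (A + 1 + G) := ⟨_, rfl⟩
  rw [← hD]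
  have hD0 : 0 < D := by rw [hD]; positivity
  have hcD : c / 8 * D = A + 1 + G := by
    rw [hD]
    field_simp
  have hmn : (m : ℝ) + 1 ≤ Real.exp (EE μ s n) := by
    refine le_trans ?_ hcard
    have : m ≤ n := by
      have : (m : ℤ) ≤ n := by omega
      exact_mod_cast this
    have : (m : ℝ) ≤ n := by exact_mod_cast this
    linarith
  -- the far terms
  have far : ∀ h' : ℝ, |h'| * wd μ s n ≤ c / 4 * EE μ s n → ∀ z : ℤ, D * wd μ s n < |(z : ℝ) - sl μ s * m| →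
      Real.exp (h' * ((z : ℝ) - sl μ s * m)) * W μ s η a m z * W μ s η (a.1 + m, a.2 + z) n' (y - z) ≤
        Real.exp (-((G + 1) * EE μ s n)) := by
    intro h' hh' z hz
    refine (H hq hw hη hh' a m n' y z h1 h2).trans (Real.exp_le_exp.2 ?_)
    have g0 : 0 ≤ hc μ s c n / 2 * |(y : ℝ) - sl μ s * ((m + n' : ℕ) : ℝ)| :=
      mul_nonneg (by have := hc_nonneg h0 n; linarith) (abs_nonneg _)
    have g1 : C₃ * (1 + q) ^ 2 * fq16 (2 * P) (|lat16 μ s b a| / wd μ s n + 1) ≤ A := by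
      rw [hA]
      refine mul_le_mul_of_nonneg_left (fq16_mono ?_) (by positivity)
      have g2 : |lat16 μ s b a| / wd μ s n ≤ R := by rwa [div_le_iff₀ hw0]
      have g3 : 0 ≤ |lat16 μ s b a| / wd μ s n := by positivity
      rw [abs_of_nonneg (by linarith : 0 ≤ |lat16 μ s b a| / wd μ s n + 1), abs_of_nonneg (by linarith : 0 ≤ R + 1)]
      linarith
    have g2 : D ≤ |(z : ℝ) - sl μ s * m| / wd μ s n := by
      rw [le_div_iff₀ hw0]
      exact hz.le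
    have g3 := mul_le_mul_of_nonneg_right g1 hE.le
    have g4 := mul_le_mul_of_nonneg_left g2 (show 0 ≤ c / 8 * EE μ s n by positivity)
    have g5 : c / 8 * EE μ s n * D = (A + 1 + G) * EE μ s n := by rw [← hcD]; ring
    rw [g5] at g4
    have g6 : (A + 1 + G) * EE μ s n = A * EE μ s n + (G + 1) * EE μ s n := by ring
    rw [g6] at g4
    linarith
  have fsm : ∀ h' : ℝ, |h'| * wd μ s n ≤ c / 4 * EE μ s n →
      ∑ z ∈ (Icc (0 : ℤ) m).filter (fun z : ℤ => ¬ |(z : ℝ) - sl μ s * m| ≤ D * wd μ s n),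
        Real.exp (h' * ((z : ℝ) - sl μ s * m)) * W μ s η a m z * W μ s η (a.1 + m, a.2 + z) n' (y - z) ≤
        Real.exp (-(G * EE μ s n)) := by
    intro h' hh'
    refine (sum_le_card_nsmul _ _ (Real.exp (-((G + 1) * EE μ s n))) fun z hz => far h' hh' z (not_le.1 (mem_filter.1 hz).2)).trans ?_
    rw [nsmul_eq_mul]
    have g1 : ((((Icc (0 : ℤ) m).filter (fun z : ℤ => ¬ |(z : ℝ) - sl μ s * m| ≤ D * wd μ s n)).card : ℕ) : ℝ) ≤ Real.exp (EE μ s n) := by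
      refine le_trans ?_ hmn
      have g2 := card_filter_le (Icc (0 : ℤ) m) (fun z : ℤ => ¬ |(z : ℝ) - sl μ s * m| ≤ D * wd μ s n)
      rw [Int.card_Icc] at g2
      have g3 : ((m : ℤ) + 1 - 0).toNat = m + 1 := by omega
      rw [g3] at g2
      exact_mod_cast g2
    calc _ ≤ Real.exp (EE μ s n) * Real.exp (-((G + 1) * EE μ s n)) := mul_le_mul_of_nonneg_right g1 (Real.exp_pos _).le
      _ = _ := by
        rw [← Real.exp_add]
        congr 1
        ring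
  have eW : W μ s η a (m + n') y = ∑ z ∈ Icc (0 : ℤ) m,
      Real.exp (0 * ((z : ℝ) - sl μ s * m)) * W μ s η a m z * W μ s η (a.1 + m, a.2 + z) n' (y - z) := by
    rw [W_add]
    refine sum_congr rfl fun z _ => ?_
    rw [zero_mul, Real.exp_zero, one_mul]
  have nn : ∀ (h' : ℝ) (z : ℤ), 0 ≤ Real.exp (h' * ((z : ℝ) - sl μ s * m)) * W μ s η a m z * W μ s η (a.1 + m, a.2 + z) n' (y - z) :=
    fun h' z => mul_nonneg (mul_nonneg (Real.exp_pos _).le (W_nonneg _ _ _ _)) (W_nonneg _ _ _ _)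
  have near : ∀ h₁ h₂ : ℝ, |h₁ - h₂| ≤ |h| → ∀ z : ℤ, |(z : ℝ) - sl μ s * m| ≤ D * wd μ s n →
      Real.exp (h₁ * ((z : ℝ) - sl μ s * m)) * W μ s η a m z * W μ s η (a.1 + m, a.2 + z) n' (y - z) ≤
      Real.exp (|h| * (D * wd μ s n)) *
        (Real.exp (h₂ * ((z : ℝ) - sl μ s * m)) * W μ s η a m z * W μ s η (a.1 + m, a.2 + z) n' (y - z)) := by
    intro h₁ h₂ h12 z hz
    have g1 : Real.exp (h₁ * ((z : ℝ) - sl μ s * m)) ≤ Real.exp (|h| * (D * wd μ s n)) * Real.exp (h₂ * ((z : ℝ) - sl μ s * m)) := by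
      rw [← Real.exp_add]
      refine Real.exp_le_exp.2 ?_
      have g2 : (h₁ - h₂) * ((z : ℝ) - sl μ s * m) ≤ |h| * (D * wd μ s n) := by
        refine (le_abs_self _).trans ?_
        rw [abs_mul]
        exact mul_le_mul h12 hz (abs_nonneg _) (abs_nonneg _)
      linarith
    have g2 : 0 ≤ W μ s η a m z * W μ s η (a.1 + m, a.2 + z) n' (y - z) := mul_nonneg (W_nonneg _ _ _ _) (W_nonneg _ _ _ _)
    have g3 := mul_le_mul_of_nonneg_right g1 g2
    linarith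
  have hh0 : |(0 : ℝ)| * wd μ s n ≤ c / 4 * EE μ s n := by
    rw [abs_zero, zero_mul]
    positivity
  have gen : ∀ h₁ h₂ : ℝ, |h₁ - h₂| ≤ |h| → |h₁| * wd μ s n ≤ c / 4 * EE μ s n →
      ∑ z ∈ Icc (0 : ℤ) m, Real.exp (h₁ * ((z : ℝ) - sl μ s * m)) * W μ s η a m z * W μ s η (a.1 + m, a.2 + z) n' (y - z) ≤
      Real.exp (|h| * (D * wd μ s n)) * (∑ z ∈ Icc (0 : ℤ) m,
        Real.exp (h₂ * ((z : ℝ) - sl μ s * m)) * W μ s η a m z * W μ s η (a.1 + m, a.2 + z) n' (y - z)) + Real.exp (-(G * EE μ s n)) := by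
    intro h₁ h₂ h12 hh₁
    rw [← sum_filter_add_sum_filter_not (Icc (0 : ℤ) m) (fun z : ℤ => |(z : ℝ) - sl μ s * m| ≤ D * wd μ s n)
      (fun z => Real.exp (h₁ * ((z : ℝ) - sl μ s * m)) * W μ s η a m z * W μ s η (a.1 + m, a.2 + z) n' (y - z))]
    refine add_le_add ?_ (fsm h₁ hh₁)
    rw [mul_sum]
    refine (sum_le_sum fun z hz => near h₁ h₂ h12 z (mem_filter.1 hz).2).trans ?_
    exact sum_le_sum_of_subset_of_nonneg (filter_subset _ _) fun z _ _ => mul_nonneg (Real.exp_pos _).le (nn h₂ z)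
  constructor
  · rw [K1_eq, eW]
    exact gen h 0 (by rw [sub_zero]) hh
  · rw [K1_eq, eW]
    exact gen 0 h (by rw [zero_sub, abs_neg]) hh0

end

end Pool.Agent.W_7d29a1_C1.U16
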