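import Pool.Agent.W_7d29a1_C1.SeaL12
import Pool.Agent.W_7d29a1_C1.FarW89
import Pool.Agent.W_7d29a1_C1.ForW12

/-!
MP_7d29a1_pr, [C1] attractor route, SHELL: **the tuned slab event gives the lanes and the walls of P1 for the real kernels**, and the
real profiles at the inner seam. (helper12)

* `TC12` : literal content of helper20's `TS20` at a base, two lanes (`mem_at_TS20`, `ι = Bool`, `j₁ = true`, `j₀ = false`);
* `ln_TC12` : `TC12` and the comparison of `nk` with `W` (`force12`) give `Ln12 nk`, the levels and the difference;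
* `real12` : `fw (i + n) y * wt (i + n) y = Λ * push nk (fw i * wt i) y`;
* `conv_tune`, `conv_off` : from the masses with the weight of the row to the masses without it.
-/

set_option autoImplicit false

namespace Pool.Agent.W_7d29a1_C1.S12

open Finset
open Pool.Agent.W_7d29a1_F Pool.Agent.W_7d29a1_h4g Pool.Agent.W_7d29a1_H Pool.Agent.W_7d29a1_HS
open Pool.Agent.W_7d29a1_C1.U16 (ker fw_ker ker_nonneg ker_eq_zero K1)
open Pool.Agent.W_7d29a1_C1.K91P (fw fw_nonneg fw_lo)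
open Pool.Agent.W_7d29a1_C1.K91 (wt wt_pos)
open Pool.Agent.W_7d29a1_C1.FarW89 (nk bl ker_nk nk_nonneg nk_K1 bl_le)

noncomputable section

variable {μ : MeasureTheory.Measure ℝ} {s h : ℝ} {η : Env}

/-- The literal content of the tuned slab event with two lanes at the base `b`. -/
structure TC12 (μ : MeasureTheory.Measure ℝ) (s : ℝ) (η : Env) (b : Pt) (T : ℕ) (a e : Bool → ℤ) (ω r L G d t : ℝ) : Prop where
  low : ∀ j, Real.exp L ≤ W μ s η (b.1, a j + b.2) T (e j - a j)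
  off : ∀ (x y : ℤ), |(x : ℝ)| ≤ ω → (∀ j, ¬ (|(x : ℝ) - a j| ≤ r ∧ |(y : ℝ) - e j| ≤ r)) →
    W μ s η (b.1, x + b.2) T (y - x) ≤ Real.exp (-G)
  cell : ∀ (j : Bool) (x y : ℤ), |(x : ℝ) - a j| ≤ r → |(y : ℝ) - e j| ≤ r →
    W μ s η (b.1, x + b.2) T (y - x) ≤ Real.exp d * W μ s η (b.1, a j + b.2) T (e j - a j)
  dif : |Real.log (W μ s η (b.1, a true + b.2) T (e true - a true)) -
    Real.log (W μ s η (b.1, a false + b.2) T (e false - a false)) - t| ≤ d

/-- The kernel `Kn` of the slab is the kernel `W` up to the factor `Φ` and the error `ε`, from the window. -/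
structure Cm12 (μ : MeasureTheory.Measure ℝ) (s : ℝ) (η : Env) (b : Pt) (T : ℕ) (Kn : ℤ → ℤ → ℝ) (ω Φ ε : ℝ) : Prop where
  Φ1 : 1 ≤ Φ
  up : ∀ x y : ℤ, |(x : ℝ) - b.2| ≤ ω → Kn x y ≤ Φ * W μ s η (b.1, x) T (y - x) + ε
  lo : ∀ x y : ℤ, |(x : ℝ) - b.2| ≤ ω → W μ s η (b.1, x) T (y - x) ≤ Φ * Kn x y + ε

/-- **LANES AND WALLS OF THE REAL KERNEL.** `r'` = the integer half width of the cells. -/
theorem ln_TC12 {b : Pt} {T : ℕ} {a e : Bool → ℤ} {ω r L G d t Φ ε : ℝ} {Kn : ℤ → ℤ → ℝ} (hT : TC12 μ s η b T a e ω r L G d t)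
    (hC : Cm12 μ s η b T Kn ω Φ ε) (hK0 : ∀ x y, 0 ≤ Kn x y) (hd : 0 ≤ d) (hε1 : ε ≤ Real.exp (-G)) (hε2 : 2 * ε ≤ Real.exp L)
    (ha : ∀ j, |(a j : ℝ)| ≤ ω - r) {r' : ℤ} (hr0 : 0 ≤ r') (hr1 : (r' : ℝ) ≤ r) (hr2 : r < r' + 1) {I J Wx Wy : Finset ℤ}
    (hWx : ∀ x ∈ Wx, |(x : ℝ) - b.2| ≤ ω) (hPW : ∀ j, Icc (a j + b.2 - r') (a j + b.2 + r') ⊆ Wx) (hWI : Wx ⊆ I)
    (hQW : ∀ j, Icc (e j + b.2 - r') (e j + b.2 + r') ⊆ Wy) (hWJ : Wy ⊆ J)
    (hQQ : Disjoint (Icc (e true + b.2 - r') (e true + b.2 + r')) (Icc (e false + b.2 - r') (e false + b.2 + r'))) :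
    Ln12 Kn I J Wx Wy (Icc (a true + b.2 - r') (a true + b.2 + r')) (Icc (a false + b.2 - r') (a false + b.2 + r'))
      (Icc (e true + b.2 - r') (e true + b.2 + r')) (Icc (e false + b.2 - r') (e false + b.2 + r'))
      (a true + b.2) (a false + b.2) (e true + b.2) (e false + b.2) (4 * Φ ^ 2 * Real.exp d) (2 * Φ * Real.exp (-G)) ∧
    (∀ j, Real.exp L ≤ 2 * Φ * Kn (a j + b.2) (e j + b.2)) ∧
    |Real.log (Kn (a true + b.2) (e true + b.2)) - Real.log (Kn (a false + b.2) (e false + b.2)) - t| ≤ d + 2 * Real.log (2 * Φ) := by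
  have hΦ := hC.Φ1
  have hΦ0 : 0 < Φ := by linarith
  have hr : 0 ≤ r := le_trans (by exact_mod_cast hr0) hr1
  have eL := Real.exp_pos L
  have ed1 : 1 ≤ Real.exp d := Real.one_le_exp hd
  have lane : ∀ j, |((a j + b.2 : ℤ) : ℝ) - b.2| ≤ ω := fun j => by
    push_cast
    rw [add_sub_cancel_right]
    linarith [ha j]
  have eW : ∀ j, W μ s η (b.1, a j + b.2) T (e j + b.2 - (a j + b.2)) = W μ s η (b.1, a j + b.2) T (e j - a j) := fun j => by
    congr 1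
    ring
  have lo1 : ∀ j, W μ s η (b.1, a j + b.2) T (e j - a j) ≤ 2 * Φ * Kn (a j + b.2) (e j + b.2) := fun j => by
    have h1 := hC.lo _ (e j + b.2) (lane j)
    rw [eW] at h1
    have h2 := hT.low j
    linarith
  have up1 : ∀ j, Kn (a j + b.2) (e j + b.2) ≤ 2 * Φ * W μ s η (b.1, a j + b.2) T (e j - a j) := fun j => by
    have h1 := hC.up _ (e j + b.2) (lane j)
    rw [eW] at h1
    have h2 := hT.low j
    have h3 := mul_le_mul_of_nonneg_right hΦ (eL.le.trans h2)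
    linarith
  have W0 : ∀ j, 0 < W μ s η (b.1, a j + b.2) T (e j - a j) := fun j => eL.trans_le (hT.low j)
  have K0 : ∀ j, 0 < Kn (a j + b.2) (e j + b.2) := fun j => by
    have h1 := (W0 j).trans_le (lo1 j)
    have h2 : 0 < 2 * Φ := by linarith
    exact pos_of_mul_pos_right h1 h2.le
  -- integer cells
  have inc : ∀ (u v : ℤ), u ∈ Icc (v + b.2 - r') (v + b.2 + r') → |((u - b.2 : ℤ) : ℝ) - v| ≤ r := fun u v hu => by
    rw [mem_Icc] at hu
    refine le_trans ?_ hr1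
    have h1 : |u - b.2 - v| ≤ r' := by
      rw [abs_le]
      constructor <;> omega
    have h2 : ((|u - b.2 - v| : ℤ) : ℝ) ≤ r' := by exact_mod_cast h1
    push_cast at h2 ⊢
    exact h2
  have nin : ∀ (u v : ℤ), |((u - b.2 : ℤ) : ℝ) - v| ≤ r → u ∈ Icc (v + b.2 - r') (v + b.2 + r') := fun u v hu => by
    rw [mem_Icc]
    have h1 : ((|u - b.2 - v| : ℤ) : ℝ) < ((r' + 1 : ℤ) : ℝ) := by
      push_cast at hu ⊢
      linarith
    have h2 : |u - b.2 - v| < r' + 1 := by exact_mod_cast h1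
    have h3 : |u - b.2 - v| ≤ r' := by omega
    rw [abs_le] at h3
    constructor <;> omega
  have cells : ∀ j, ∀ x ∈ Icc (a j + b.2 - r') (a j + b.2 + r'), ∀ y ∈ Icc (e j + b.2 - r') (e j + b.2 + r'),
      Kn x y ≤ 4 * Φ ^ 2 * Real.exp d * Kn (a j + b.2) (e j + b.2) := by
    intro j x hx y hy
    have hxw := hWx x (hPW j hx)
    have h1 := hC.up x y hxw
    have h2 := hT.cell j (x - b.2) (y - b.2) (inc x (a j) hx) (inc y (e j) hy)
    rw [sub_add_cancel, show y - b.2 - (x - b.2) = y - x by ring] at h2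
    have h3 := lo1 j
    have h4 := hT.low j
    have h5 := mul_le_mul_of_nonneg_left h2 hΦ0.le
    have h6 : ε ≤ Φ * (Real.exp d * W μ s η (b.1, a j + b.2) T (e j - a j)) := by
      have g1 : 1 ≤ Φ * Real.exp d := by nlinarith
      have g2 := mul_le_mul_of_nonneg_right g1 (W0 j).le
      linarith
    have h7 : Kn x y ≤ 2 * Φ * Real.exp d * W μ s η (b.1, a j + b.2) T (e j - a j) := by linarith
    have h8 := mul_le_mul_of_nonneg_left h3 (show 0 ≤ 2 * Φ * Real.exp d by positivity)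
    refine h7.trans (h8.trans (le_of_eq ?_))
    ring
  refine ⟨⟨hK0, K0 true, K0 false, by positivity, by positivity, ?_, ?_, ?_, ?_, hPW true, hPW false, hWI, hQW true, hQW false, hWJ,
    hQQ, cells true, cells false, ?_⟩, ?_, ?_⟩
  · rw [mem_Icc]; omega
  · rw [mem_Icc]; omega
  · rw [mem_Icc]; omega
  · rw [mem_Icc]; omega
  · intro x hx y _ h1 h2
    have hxw := hWx x hx
    have h3 := hC.up x y hxw
    have h4 := hT.off (x - b.2) (y - b.2) (by push_cast; exact hxw) (fun j hj => by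
      cases j with
      | true => exact h1 ⟨nin x _ hj.1, nin y _ hj.2⟩
      | false => exact h2 ⟨nin x _ hj.1, nin y _ hj.2⟩)
    rw [sub_add_cancel, show y - b.2 - (x - b.2) = y - x by ring] at h4
    have h5 := mul_le_mul_of_nonneg_left h4 hΦ0.le
    have h6 : Real.exp (-G) ≤ Φ * Real.exp (-G) := by
      have := mul_le_mul_of_nonneg_right hΦ (Real.exp_pos (-G)).le
      linarith
    linarith
  · exact fun j => (hT.low j).trans (lo1 j)
  · have lg : ∀ j, |Real.log (Kn (a j + b.2) (e j + b.2)) - Real.log (W μ s η (b.1, a j + b.2) T (e j - a j))| ≤ Real.log (2 * Φ) := by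
      intro j
      have h2 : 0 < 2 * Φ := by linarith
      have h3 := Real.log_le_log (W0 j) (lo1 j)
      have h4 := Real.log_le_log (K0 j) (up1 j)
      rw [Real.log_mul h2.ne' (K0 j).ne'] at h3
      rw [Real.log_mul h2.ne' (W0 j).ne'] at h4
      rw [abs_le]
      constructor <;> linarith
    have g1 := lg true
    have g2 := lg false
    have g3 := hT.dif
    rw [abs_le] at g1 g2 g3 ⊢
    constructor <;> linarith [g1.1, g1.2, g2.1, g2.2, g3.1, g3.2]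

/-! ### The comparison for the real kernel -/

/-- **`nk` against `W`** : `f` = the price of the force. -/
theorem cm_nk12 [MeasureTheory.IsProbabilityMeasure μ] {c C : ℝ} {n₀ : ℕ} (h0 : In μ s c C n₀) (P : ℕ) {q R G : ℝ} (hq : 0 ≤ q)
    (hR : 0 ≤ R) (hG : 0 ≤ G) : ∃ D : ℝ, 0 < D ∧ ∃ n₁ : ℕ, 1 ≤ n₁ ∧ ∀ {h : ℝ} {T N : ℕ} {b : Pt} {η : Env} {p : ℕ → ℝ} {M i n : ℕ}
    {c₀ : ℤ}, n₁ ≤ T → N ≤ T →
    (∀ (p : Pt) (j : ℕ), b.1 ≤ p.1 → p.1 + j ≤ b.1 + N → ∀ y : ℤ,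
      W μ s η p j y ≤ Real.exp (q * U16.fq16 P (|U16.lat16 μ s b p| / wd μ s T + 1) * EE μ s T - H75.hc μ s c T * |(y : ℝ) - sl μ s * j|)) →
    |h| * wd μ s T ≤ c / 4 * EE μ s T → (∀ k, k < M → p k = Real.exp (s + h)) → (∀ k, M ≤ k → p k = Real.exp s) →
    b.1 ≤ i → ((i + n : ℕ) : ℤ) ≤ b.1 + N → ∀ {ω : ℝ}, (∀ x : ℤ, |(x : ℝ) - c₀| ≤ ω → |U16.lat16 μ s b ((i : ℤ), x)| ≤ R * wd μ s T) →
      Cm12 μ s η ((i : ℤ), c₀) n (nk μ s h η p M i n) ω (Real.exp (|h| * (D * wd μ s T))) (Real.exp (-(G * EE μ s T))) := by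
  obtain ⟨D, hD, n₁, hn₁, H⟩ := U16.force12 h0 P hq hR hG
  refine ⟨D, hD, max n₁ 1, le_max_right _ _, ?_⟩
  intro h T N b η p M i n c₀ hT hN hη hh hp hp' h1 h2 ω hω
  have hwT : 0 ≤ wd μ s T := h0.wd_nonneg T
  have key : ∀ x y : ℤ, |(x : ℝ) - c₀| ≤ ω →
      nk μ s h η p M i n x y ≤ Real.exp (|h| * (D * wd μ s T)) * W μ s η ((i : ℤ), x) n (y - x) + Real.exp (-(G * EE μ s T)) ∧
      W μ s η ((i : ℤ), x) n (y - x) ≤ Real.exp (|h| * (D * wd μ s T)) * nk μ s h η p M i n x y + Real.exp (-(G * EE μ s T)) := by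
    intro x y hx
    have h3 := H ((le_max_left _ _).trans hT) hN hη hh ((i : ℤ), x) (bl M i n) (n - bl M i n) (y - x) h1 (by
      have := bl_le M i n
      show (i : ℤ) + (bl M i n : ℕ) + ((n - bl M i n : ℕ) : ℤ) ≤ b.1 + N
      have h4 : (i : ℤ) + (bl M i n : ℕ) + ((n - bl M i n : ℕ) : ℤ) = ((i + n : ℕ) : ℤ) := by
        push_cast [Nat.cast_sub this]
        ring
      rw [h4]
      exact h2) (hω x hx)
    rw [Nat.add_sub_cancel' (bl_le M i n)] at h3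
    rw [nk_K1 hp hp' i n x y]
    exact h3
  exact ⟨Real.one_le_exp (by positivity), fun x y hx => (key x y hx).1, fun x y hx => (key x y hx).2⟩

/-! ### The real profiles -/

/-- The factor of the rows. -/
def Lam12 (μ : MeasureTheory.Measure ℝ) (s h : ℝ) (M i n : ℕ) : ℝ := Real.exp (n * lam μ s + h * sl μ s * bl M i n)

theorem Lam12_pos (M i n : ℕ) : 0 < Lam12 μ s h M i n := Real.exp_pos _

/-- **The real profile at the inner seam.** -/
theorem real12 {p : ℕ → ℝ} {M : ℕ} {l : ℤ → ℝ} {lo hi h' : ℤ} (hlo : ∀ y, y < lo → l y = 0) (hh : h' ≤ hi) (i n : ℕ) {y : ℤ}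
    (hy : y ∈ Icc lo h') : fw (wt η) p l (i + n) y * wt η (i + n) y =
      Lam12 μ s h M i n * push (Icc lo hi) (nk μ s h η p M i n) (fun x => fw (wt η) p l i x * wt η i x) y := by
  have hwy := wt_pos η (i + n) y
  have e1 : fw (wt η) p l (i + n) y = ∑ x ∈ Icc lo hi, fw (wt η) p l i x * ker (wt η) p i n x y := by
    rw [fw_ker]
    have s1 : ∑ x ∈ Icc (y - n) y, fw (wt η) p l i x * ker (wt η) p i n x y =
        ∑ x ∈ Icc (y - n) y ∪ Icc lo hi, fw (wt η) p l i x * ker (wt η) p i n x y := by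
      refine sum_subset subset_union_left fun x _ hx => ?_
      rw [ker_eq_zero i n x y (fun h1 => hx (mem_Icc.2 ⟨by omega, h1.1⟩)), mul_zero]
    have s2 : ∑ x ∈ Icc lo hi, fw (wt η) p l i x * ker (wt η) p i n x y =
        ∑ x ∈ Icc (y - n) y ∪ Icc lo hi, fw (wt η) p l i x * ker (wt η) p i n x y := by
      refine sum_subset subset_union_right fun x hx hx' => ?_
      rw [mem_union] at hx
      have hx2 := hx.resolve_right hx'
      rw [mem_Icc] at hx2 hy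
      have hlt : x < lo := by
        by_contra hcon
        exact hx' (mem_Icc.2 ⟨not_lt.1 hcon, by omega⟩)
      rw [fw_lo hlo i x hlt, zero_mul]
    rw [s1, s2]
  rw [e1]
  unfold push
  rw [sum_mul, mul_sum]
  refine sum_congr rfl fun x _ => ?_
  rw [ker_nk (μ := μ) (s := s) (h := h) (M := M) i n x y]
  unfold Lam12
  field_simp

/-- Tuning, from the masses with the weight of the row. -/
theorem conv_tune {A B : Finset ℤ} {a θ g : ℤ → ℝ} {Λ b e : ℝ} (hΛ : 0 < Λ) (hg : ∀ y, 0 ≤ g y) (he : 0 ≤ e)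
    (hθ : ∀ y ∈ A ∪ B, Real.exp (-b) ≤ θ y ∧ θ y ≤ Real.exp b) (ha : ∀ y ∈ A ∪ B, a y * θ y = Λ * g y)
    (h : ∑ y ∈ B, g y ≤ e * ∑ y ∈ A, g y) : ∑ y ∈ B, a y ≤ e * Real.exp (2 * b) * ∑ y ∈ A, a y := by
  have a0 : ∀ y ∈ A ∪ B, 0 ≤ a y := fun y hy => by
    have h1 := (Real.exp_pos (-b)).trans_le (hθ y hy).1
    have h2 : 0 ≤ a y * θ y := by rw [ha y hy]; exact mul_nonneg hΛ.le (hg y)
    exact nonneg_of_mul_nonneg_left h2 h1
  have up : ∀ y ∈ A ∪ B, a y ≤ Real.exp b * (Λ * g y) := fun y hy => by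
    have h1 := mul_le_mul_of_nonneg_left (hθ y hy).1 (a0 y hy)
    rw [ha y hy, Real.exp_neg] at h1
    have h2 := Real.exp_pos b
    rw [← div_eq_mul_inv, div_le_iff₀ h2] at h1
    linarith
  have lo : ∀ y ∈ A ∪ B, Λ * g y ≤ Real.exp b * a y := fun y hy => by
    have h1 := mul_le_mul_of_nonneg_left (hθ y hy).2 (a0 y hy)
    rw [ha y hy] at h1
    linarith
  calc ∑ y ∈ B, a y ≤ ∑ y ∈ B, Real.exp b * (Λ * g y) := sum_le_sum fun y hy => up y (mem_union_right _ hy)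
    _ = Real.exp b * Λ * ∑ y ∈ B, g y := by rw [mul_sum]; exact sum_congr rfl fun y _ => by ring
    _ ≤ Real.exp b * Λ * (e * ∑ y ∈ A, g y) := mul_le_mul_of_nonneg_left h (by positivity)
    _ = Real.exp b * e * ∑ y ∈ A, Λ * g y := by rw [← mul_sum]; ring
    _ ≤ Real.exp b * e * ∑ y ∈ A, Real.exp b * a y :=
        mul_le_mul_of_nonneg_left (sum_le_sum fun y hy => lo y (mem_union_left _ hy)) (by positivity)
    _ = _ := by
        rw [← mul_sum, two_mul, Real.exp_add]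
        ring

/-- Off the cells, from the masses with the weight of the row: `ph y * Gm ≤ θ y * φ y`. -/
theorem conv_off {O Q : Finset ℤ} {a θ g ph φ : ℤ → ℝ} {Λ b e Gm : ℝ} (hΛ : 0 < Λ) (hg : ∀ y, 0 ≤ g y) (he : 0 ≤ e) (hGm : 0 < Gm)
    (hθ0 : ∀ y ∈ O, 0 < θ y) (hθ : ∀ y ∈ Q, Real.exp (-b) ≤ θ y ∧ θ y ≤ Real.exp b) (haO : ∀ y ∈ O, a y * θ y = Λ * g y)
    (haQ : ∀ y ∈ Q, a y * θ y = Λ * g y) (hph : ∀ y ∈ O, ph y * Gm ≤ θ y * φ y)
    (h : ∑ y ∈ O, g y * φ y ≤ e * ((∑ y ∈ Q, g y) * Gm)) : ∑ y ∈ O, a y * ph y ≤ e * Real.exp b * ∑ y ∈ Q, a y := by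
  have a0 : ∀ y ∈ O, 0 ≤ a y := fun y hy => by
    have h2 : 0 ≤ a y * θ y := by rw [haO y hy]; exact mul_nonneg hΛ.le (hg y)
    exact nonneg_of_mul_nonneg_left h2 (hθ0 y hy)
  have a0' : ∀ y ∈ Q, 0 ≤ a y := fun y hy => by
    have h1 := (Real.exp_pos (-b)).trans_le (hθ y hy).1
    have h2 : 0 ≤ a y * θ y := by rw [haQ y hy]; exact mul_nonneg hΛ.le (hg y)
    exact nonneg_of_mul_nonneg_left h2 h1
  have lo : ∀ y ∈ Q, Λ * g y ≤ Real.exp b * a y := fun y hy => by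
    have h1 := mul_le_mul_of_nonneg_left (hθ y hy).2 (a0' y hy)
    rw [haQ y hy] at h1
    linarith
  have h3 : (∑ y ∈ O, a y * ph y) * Gm ≤ e * Real.exp b * (∑ y ∈ Q, a y) * Gm := by
    calc (∑ y ∈ O, a y * ph y) * Gm = ∑ y ∈ O, a y * (ph y * Gm) := by
          rw [sum_mul]
          exact sum_congr rfl fun y _ => by ring
      _ ≤ ∑ y ∈ O, a y * (θ y * φ y) := sum_le_sum fun y hy => mul_le_mul_of_nonneg_left (hph y hy) (a0 y hy)
      _ = Λ * ∑ y ∈ O, g y * φ y := by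
          rw [mul_sum]
          refine sum_congr rfl fun y hy => ?_
          rw [← mul_assoc, haO y hy]
          ring
      _ ≤ Λ * (e * ((∑ y ∈ Q, g y) * Gm)) := mul_le_mul_of_nonneg_left h hΛ.le
      _ = e * (∑ y ∈ Q, Λ * g y) * Gm := by rw [← mul_sum]; ring
      _ ≤ e * (∑ y ∈ Q, Real.exp b * a y) * Gm :=
          mul_le_mul_of_nonneg_right (mul_le_mul_of_nonneg_left (sum_le_sum lo) he) hGm.le
      _ = _ := by
          rw [← mul_sum]
          ring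
  exact le_of_mul_le_mul_right h3 hGm

end

end Pool.Agent.W_7d29a1_C1.S12
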