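import Pool.Agent.W_7d29a1_C1.TunV20
import Pool.Agent.W_7d29a1_C1.SeaM12

/-!
MP_7d29a1_pr, [C1] SHELL, fresh ball, slab P1: **THE EVENT OF THE INNER SLAB AND ITS PROBABILITY**, in the units of the ball. (helper20)

`EA20` = tuned slab event `TS20` (two lanes) and the level `FU24` at every place. `tc_EA20`, `fu_EA20`: literal content in the names of
SeaM12. `freA20`: at any base, every outside frozen, probability `≥ c₁`, for every length `T` which is a multiple of `Q` and comparable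
with the unit `T'` of the ball (all widths and levels in units of `T'`).
-/

set_option autoImplicit false

namespace Pool.Agent.W_7d29a1_C1

open MeasureTheory ProbabilityTheory Filter Topology
open Pool.Agent.W_7d29a1_F Pool.Agent.W_7d29a1_h4g Pool.Agent.W_7d29a1_H Pool.Agent.W_7d29a1_HS
open Pool.Agent.W_7d29a1_HR (Dec Fin')
open Pool.Agent.W_7d29a1_C1.S71 (Off gl)
open Pool.Agent.W_7d29a1_C1.P24 (FU24 FU24_sh meas_FU24 dec_FU24 on_FU24)

noncomputable section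

variable {μ : Measure ℝ} {s c C : ℝ} {n₀ : ℕ}

/-- Monotone in the constants. -/
theorem TS20_mono {ι : Type} {a e : ι → ℤ} {T : ℕ} {ω ω' r L L' G G' U U' d d' : ℝ} (h1 : ω' ≤ ω) (h2 : L' ≤ L) (h3 : G' ≤ G)
    (h4 : U ≤ U') (h5 : d ≤ d') [IsProbabilityMeasure μ] (j₁ j₀ : ι) (t : ℝ) :
    TS20 μ s a e T ω r L G U d j₁ j₀ t ⊆ TS20 μ s a e T ω' r L' G' U' d' j₁ j₀ t := by
  rintro η ⟨⟨a1, a2, a3⟩, a4, a5⟩
  refine ⟨⟨fun j => (Real.exp_le_exp.2 h2).trans (a1 j), fun x y hx hy => (a2 x y (hx.trans h1) hy).trans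
    (Real.exp_le_exp.2 (by linarith)), fun x hx => (a3 x (hx.trans h1)).trans h4⟩, fun j x y hx hy => ?_, le_trans a5 h5⟩
  exact (a4 j x y hx hy).trans (mul_le_mul_of_nonneg_right (Real.exp_le_exp.2 h5) (W_nonneg _ _ _ _))

/-- **THE EVENT OF P1** (base `0`, length `T`): two lanes `true`, `false`, and the level at every place. -/
def EA20 (μ : Measure ℝ) (s c : ℝ) (a e : Bool → ℤ) (T : ℕ) (ω r L G U d t : ℝ) (P : ℕ) (q : ℝ) : Set Env :=
  TS20 μ s a e T ω r L G U d true false t ∩ FU24 μ s c T T P 0 q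

theorem meas_EA20 (a e : Bool → ℤ) (T : ℕ) (ω r L G U d t : ℝ) (P : ℕ) (q : ℝ) :
    MeasurableSet (EA20 μ s c a e T ω r L G U d t P q) :=
  (meas_TS20 a e T ω r L G U d true false t).inter (meas_FU24 _ _ _ _ _)

theorem on_EA20 (a e : Bool → ℤ) (T : ℕ) (ω r L G U d t : ℝ) (P : ℕ) (q : ℝ) :
    On20 (rows 0 (0 + T)) (EA20 μ s c a e T ω r L G U d t P q) :=
  (on_TS20 a e T ω r L G U d true false t).inter (on_FU24 T T P 0 q)

/-- The event at the base `b` reads the rows of the slab. -/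
theorem on_at_EA20 (a e : Bool → ℤ) (T : ℕ) (ω r L G U d t : ℝ) (P : ℕ) (q : ℝ) (b : Pt) :
    On20 (rows b.1 (b.1 + T)) (at20 b (EA20 μ s c a e T ω r L G U d t P q)) := on_at20' b (on_EA20 a e T ω r L G U d t P q)

theorem meas_at_EA20 (a e : Bool → ℤ) (T : ℕ) (ω r L G U d t : ℝ) (P : ℕ) (q : ℝ) (b : Pt) :
    MeasurableSet (at20 b (EA20 μ s c a e T ω r L G U d t P q)) := meas_at20 b (meas_EA20 a e T ω r L G U d t P q)

/-- The literal content of the tuned event in the names of SeaM12. -/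
theorem tc_EA20 {a e : Bool → ℤ} {T : ℕ} {ω r L G U d t : ℝ} {P : ℕ} {q : ℝ} {b : Pt} {η : Env}
    (hη : η ∈ at20 b (EA20 μ s c a e T ω r L G U d t P q)) : S12.TC12 μ s η b T a e ω r L G d t := by
  have h1 : η ∈ at20 b (TS20 μ s a e T ω r L G U d true false t) := hη.1
  rw [mem_at_TS20] at h1
  exact ⟨h1.1.1, h1.1.2.1, h1.2.1, h1.2.2⟩

/-- The levels of the slab: masses of the whole slab. -/
theorem v_EA20 {a e : Bool → ℤ} {T : ℕ} {ω r L G U d t : ℝ} {P : ℕ} {q : ℝ} {b : Pt} {η : Env}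
    (hη : η ∈ at20 b (EA20 μ s c a e T ω r L G U d t P q)) : ∀ x : ℤ, |(x : ℝ)| ≤ ω → V μ s η (b.1, x + b.2) T ≤ U := by
  have h1 : η ∈ at20 b (TS20 μ s a e T ω r L G U d true false t) := hη.1
  rw [mem_at_TS20] at h1
  exact h1.1.2.2

/-- The level at every place (hypothesis of `cm_nk12`). -/
theorem fu_EA20 {a e : Bool → ℤ} {T : ℕ} {ω r L G U d t : ℝ} {P : ℕ} {q : ℝ} {b : Pt} {η : Env}
    (hη : η ∈ at20 b (EA20 μ s c a e T ω r L G U d t P q)) : η ∈ FU24 μ s c T T P b q := by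
  have h1 : sh b η ∈ FU24 μ s c T T P 0 q := hη.2
  rw [FU24_sh, zero_add] at h1
  exact h1

/-! ### The units of the ball -/

section

variable [IsProbabilityMeasure μ]

theorem wd_unit20 (h : In μ s c C n₀) {B T T' : ℕ} (hT : 1 ≤ T) (hT' : 1 ≤ T') (h1 : T' ≤ B * T) : wd μ s T' ≤ 2 * B * wd μ s T := by
  have hw := h.wd_nonneg T
  have hTR : (0 : ℝ) < T := by exact_mod_cast hT
  rcases le_total T T' with h2 | h2
  · have h3 := U16.wd_le h hT h2
    refine h3.trans (mul_le_mul_of_nonneg_right ?_ hw)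
    have h4 : (T' : ℝ) / T ≤ B := by
      rw [div_le_iff₀ hTR]
      exact_mod_cast h1
    linarith
  · have hB : 1 ≤ B := by
      by_contra hc
      have : B = 0 := by omega
      subst this
      omega
    have h3 := U16.wd_le_two h hT' h2
    have h4 : (1 : ℝ) ≤ B := by exact_mod_cast hB
    nlinarith

theorem EE_unit20 (h : In μ s c C n₀) {B T T' : ℕ} (hB : 1 ≤ B) (h1 : T' ≤ B * T) : EE μ s T' ≤ B * EE μ s T :=
  Pool.Agent.W_7d29a1_H.EE_le_mul h.em s hB h1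

end

/-- **THE INNER SLAB: THE PROBABILITY**, every outside frozen, at any base, in the units of the ball `T'`. -/
theorem freA20 [IsProbabilityMeasure μ] (h : In μ s c C n₀) {B : ℕ} (hB : 1 ≤ B) : ∃ P : ℕ, ∀ K₁ δ d δ' Kt L : ℝ, 0 ≤ K₁ → 0 < δ →
    0 < d → 0 < δ' → 0 ≤ Kt → ∃ κ q : ℝ, 0 < κ ∧ 0 ≤ q ∧ ∀ K : ℝ, K₁ ≤ K → ∃ U : ℝ, 0 ≤ U ∧ ∀ G : ℝ, 0 ≤ G →
      ∃ (c₁ : ℝ) (Q n₁ : ℕ), 0 < c₁ ∧ 1 ≤ Q ∧ 1 ≤ n₁ ∧ ∀ T T' : ℕ, n₁ ≤ T → Q ∣ T → T ≤ B * T' → T' ≤ B * T →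
      ∃ r : ℝ, κ * wd μ s T' ≤ r ∧ r ≤ δ' * wd μ s T' ∧
      ∀ a e : Bool → ℤ, (∀ j, |(a j : ℝ)| ≤ K₁ * wd μ s T') → (∀ j, |(e j : ℝ) - sl μ s * T| ≤ K₁ * wd μ s T') →
        (((a true : ℝ) + δ * wd μ s T' ≤ a false ∧ (e true : ℝ) + δ * wd μ s T' ≤ e false) ∨
          ((a false : ℝ) + δ * wd μ s T' ≤ a true ∧ (e false : ℝ) + δ * wd μ s T' ≤ e true)) →
        ∀ t : ℝ, |t| ≤ Kt * EE μ s T' →
        ∀ (b : Pt) (A : Set Pt), rows b.1 (b.1 + T) ⊆ A → ∀ f : Env,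
        c₁ ≤ (law μ).real {η | gl A η f ∈ at20 b (EA20 μ s c a e T (K * wd μ s T') r (L * EE μ s T')
          (G * EE μ s T') (U * EE μ s T') (d * EE μ s T') t P q)} := by
  obtain ⟨P, hP⟩ := tslabV20 (μ := μ) (s := s) h
  refine ⟨P, fun K₁ δ d δ' Kt L hK₁ hδ hd hδ' hKt => ?_⟩
  have hBR : (1 : ℝ) ≤ B := by exact_mod_cast hB
  have hB0 : (0 : ℝ) < B := by linarith
  obtain ⟨κ, q, hκ, hq, hK⟩ := hP (2 * B * K₁) (δ / (2 * B)) (d / B) (δ' / (2 * B)) (B * Kt) (B * |L|) (by positivity) (by positivity)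
    (by positivity) (by positivity) (by positivity)
  refine ⟨κ / (2 * B), q, by positivity, hq, fun K hKK => ?_⟩
  obtain ⟨U, hU, hG⟩ := hK (2 * B * K) (mul_le_mul_of_nonneg_left hKK (by positivity))
  refine ⟨B * U, by positivity, fun G hG0 => ?_⟩
  obtain ⟨c₁, Q, n₁, hc₁, hQ, hn₁, hmain⟩ := hG (B * G) (by positivity)
  refine ⟨c₁, Q, Q * n₁, hc₁, hQ, Nat.mul_pos hQ hn₁, fun T T' hT hQT hTT' hT'T => ?_⟩
  obtain ⟨n, rfl⟩ := hQT
  have hn : n₁ ≤ n := Nat.le_of_mul_le_mul_left hT hQ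
  obtain ⟨T, eT⟩ : ∃ T, T = Q * n := ⟨_, rfl⟩
  have hm := hmain n hn
  rw [← eT] at hm hT hTT' hT'T ⊢
  have hT1 : 1 ≤ T := le_trans (Nat.mul_pos hQ hn₁) hT
  have hT'1 : 1 ≤ T' := by
    by_contra hc
    have : T' = 0 := by omega
    subst this
    omega
  have w1 := wd_unit20 h hT1 hT'1 hT'T
  have w2 := wd_unit20 h hT'1 hT1 hTT'
  have e1 := EE_unit20 h hB hT'T
  have e2 := EE_unit20 h hB hTT'
  have hw := h.wd_nonneg T
  have hw' := h.wd_nonneg T'
  have hE := EE_pos (μ := μ) (s := s) T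
  have hE' := EE_pos (μ := μ) (s := s) T'
  obtain ⟨r, hr1, hr2, hmain⟩ := hm
  refine ⟨r, ?_, ?_, ?_⟩
  · refine le_trans ?_ hr1
    calc κ / (2 * B) * wd μ s T' ≤ κ / (2 * B) * (2 * B * wd μ s T) := mul_le_mul_of_nonneg_left w1 (by positivity)
      _ = κ * wd μ s T := by field_simp
  · refine hr2.trans ?_
    calc δ' / (2 * B) * wd μ s T ≤ δ' / (2 * B) * (2 * B * wd μ s T') := mul_le_mul_of_nonneg_left w2 (by positivity)
      _ = δ' * wd μ s T' := by field_simp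
  · intro a e ha he hsep t ht b A hA f
    have k1 : K₁ * wd μ s T' ≤ 2 * B * K₁ * wd μ s T := by
      calc K₁ * wd μ s T' ≤ K₁ * (2 * B * wd μ s T) := mul_le_mul_of_nonneg_left w1 hK₁
        _ = _ := by ring
    have k2 : δ / (2 * B) * wd μ s T ≤ δ * wd μ s T' := by
      calc δ / (2 * B) * wd μ s T ≤ δ / (2 * B) * (2 * B * wd μ s T') := mul_le_mul_of_nonneg_left w2 (by positivity)
        _ = _ := by field_simp
    have k3 : K * wd μ s T' ≤ 2 * B * K * wd μ s T := by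
      calc K * wd μ s T' ≤ K * (2 * B * wd μ s T) := mul_le_mul_of_nonneg_left w1 (hK₁.trans hKK)
        _ = _ := by ring
    have k4 : L * EE μ s T' ≤ B * |L| * EE μ s T := by
      calc L * EE μ s T' ≤ |L| * EE μ s T' := mul_le_mul_of_nonneg_right (le_abs_self L) hE'.le
        _ ≤ |L| * (B * EE μ s T) := mul_le_mul_of_nonneg_left e1 (abs_nonneg L)
        _ = _ := by ring
    have k5 : G * EE μ s T' ≤ B * G * EE μ s T := by
      calc G * EE μ s T' ≤ G * (B * EE μ s T) := mul_le_mul_of_nonneg_left e1 hG0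
        _ = _ := by ring
    have k6 : U * EE μ s T ≤ B * U * EE μ s T' := by
      calc U * EE μ s T ≤ U * (B * EE μ s T') := mul_le_mul_of_nonneg_left e2 hU
        _ = _ := by ring
    have k7 : d / B * EE μ s T ≤ d * EE μ s T' := by
      calc d / B * EE μ s T ≤ d / B * (B * EE μ s T') := mul_le_mul_of_nonneg_left e2 (by positivity)
        _ = _ := by field_simp
    have k8 : Kt * EE μ s T' ≤ B * Kt * EE μ s T := by
      calc Kt * EE μ s T' ≤ Kt * (B * EE μ s T) := mul_le_mul_of_nonneg_left e1 hKt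
        _ = _ := by ring
    have h1 := hmain Bool (by simp) a e (fun j => (ha j).trans k1) (fun j => (he j).trans k1) (fun j j' hj => by
      have key : ∀ j j' : Bool, j ≠ j' → (((a j : ℝ) + δ * wd μ s T' ≤ a j' ∧ (e j : ℝ) + δ * wd μ s T' ≤ e j') ∨
          ((a j' : ℝ) + δ * wd μ s T' ≤ a j ∧ (e j' : ℝ) + δ * wd μ s T' ≤ e j)) := by
        intro j j' hj
        cases j <;> cases j'
        · exact absurd rfl hj
        · exact hsep.symm
        · exact hsep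
        · exact absurd rfl hj
      rcases key j j' hj with g | g
      · exact Or.inl ⟨by linarith [g.1], by linarith [g.2]⟩
      · exact Or.inr ⟨by linarith [g.1], by linarith [g.2]⟩) true false t (ht.trans k8) (fun hh => by cases hh) b A hA f
    refine h1.trans (measureReal_mono (fun η hη => ?_) (measure_ne_top _ _))
    exact ⟨TS20_mono k3 k4 k5 k6 k7 true false t hη.1, hη.2⟩

end

end Pool.Agent.W_7d29a1_C1
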