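import Pool.Agent.W_7d29a1_C1.GeoU10

/-!
MP_7d29a1_pr, attractor route, the shell (helper10): the grid with WIDE boxes (helper47 85518): `V v` is at least `2 (R + 2) wd (T v)`,
`R` = the radius of `box_m`, and the level events are taken at the scale `B T v` with `V v + v + 2 ≤ wd (B T v)`.
-/

set_option autoImplicit false

namespace Pool.Agent.W_7d29a1_C1.T10

open MeasureTheory Filter Topology
open Pool.Agent.W_7d29a1_F Pool.Agent.W_7d29a1_h4g Pool.Agent.W_7d29a1_H Pool.Agent.W_7d29a1_HS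
open Pool.Agent.W_7d29a1_C1.S71 Pool.Agent.W_7d29a1_C1.U16

noncomputable section

/-- **THE GRID WITH WIDE BOXES**. -/
structure GW (μ : Measure ℝ) (s : ℝ) (R : ℝ) (B : ℕ) (C₀ : ℝ) (h₀ K L : ℕ) (G : Gd) : Prop where
  K2 : 2 ≤ K
  h1 : 1 ≤ h₀
  B2 : 2 ≤ B
  R1 : 1 ≤ R
  C1 : 1 ≤ C₀
  ok : G.Ok L
  nest : G.Nest L (H60.AT (Tg h₀ K))
  H : ∀ v, G.H v = Hg h₀ K v
  V01 : G.V 0 = G.V 1
  /-- one width is more than the level -/
  small : ∀ v : ℕ, 1 ≤ v → (v : ℝ) + 2 ≤ wd μ s (Tg h₀ K v)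
  /-- the units -/
  wB : ∀ v, 1 ≤ v → wd μ s (B * Tg h₀ K v) ≤ C₀ * wd μ s (Tg h₀ K v)
  wB' : ∀ v, 1 ≤ v → wd μ s (Tg h₀ K v) ≤ wd μ s (B * Tg h₀ K v)
  w2 : ∀ v, 1 ≤ v → wd μ s (Tg h₀ K v) ≤ C₀ * wd μ s (2 * Tg h₀ K v)
  w2' : ∀ v, 1 ≤ v → wd μ s (2 * Tg h₀ K v) ≤ C₀ * wd μ s (Tg h₀ K v)
  w21 : ∀ v, 1 ≤ v → 1 ≤ wd μ s (2 * Tg h₀ K v)
  /-- the boxes in the units of the level events, errors included -/
  V : ∀ v, 1 ≤ v → v ≤ L → (G.V v : ℝ) + (v + 2) ≤ wd μ s (B * Tg h₀ K v)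
  /-- the boxes are wide -/
  V' : ∀ v, 1 ≤ v → v ≤ L → 2 * (R + 2) * wd μ s (Tg h₀ K v) ≤ G.V v
  err : ∀ v, v ≤ L → ∀ r, r < G.H v → |(G.s r : ℝ) - sl μ s * r| ≤ v + 1
  err' : ∀ r, |(G.s r : ℝ) - sl μ s * r| ≤ L + 2
  /-- the number of places -/
  card : ∀ v t, v ≤ t → t ≤ L → ((G.subs v t).card : ℝ) ≤ C₀ * (K : ℝ) ^ (2 * (t - v))

/-- **EXISTENCE**. -/
theorem geoW10 {μ : Measure ℝ} [IsProbabilityMeasure μ] {s c C : ℝ} {n₀ : ℕ} (hI : In μ s c C n₀) {R : ℝ} (hR : 1 ≤ R) {K : ℕ}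
    (hK : 2 ≤ K) : ∃ (B : ℕ) (C₀ : ℝ) (n₁ : ℕ), 2 ≤ B ∧ 1 ≤ C₀ ∧ 1 ≤ n₁ ∧ ∀ h₀ L : ℕ, n₁ ≤ h₀ → ∃ G : Gd, GW μ s R B C₀ h₀ K L G := by
  obtain ⟨κ, hκ, hκ1, H⟩ := geo10 hI
  obtain ⟨a, k, n₂, _, hW⟩ := grW17 hI
  obtain ⟨n₃, hn₃⟩ := Pool.Agent.W_7d29a1_HZ.wd'_eq hI
  have hk := hW.k0
  have hk1 := hW.k1
  have ha := hW.a0
  have hb := hW.b0
  have hK0 : (0 : ℝ) < K := by exact_mod_cast (show 0 < K by omega)
  have hK1 : 1 ≤ K := by omega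
  obtain ⟨D, hD⟩ : ∃ D : ℝ, D = 2 * (R + 2) * K := ⟨_, rfl⟩
  have hD0 : 0 < D := by rw [hD]; positivity
  obtain ⟨n₁, hn₁, HG⟩ := H hD0 (show (0 : ℝ) < 1 / 2 by norm_num)
  -- the scale of the level events
  obtain ⟨X, hX⟩ : ∃ X : ℝ, X = k⁻¹ * (D / κ + 1) := ⟨_, rfl⟩
  have hX0 : 0 < X := by rw [hX]; positivity
  obtain ⟨B, hB⟩ : ∃ B : ℕ, X ≤ (B : ℝ) ^ a ∧ 2 ≤ B := by
    have h1 : ∀ᶠ n : ℕ in atTop, X ≤ (n : ℝ) ^ a :=
      ((tendsto_rpow_atTop ha).comp tendsto_natCast_atTop_atTop).eventually_ge_atTop X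
    exact (h1.and (eventually_ge_atTop 2)).exists
  obtain ⟨hBX, hB2⟩ := hB
  have hB0 : (0 : ℝ) < B := by exact_mod_cast (show 0 < B by omega)
  obtain ⟨C₀, hC⟩ : ∃ C₀ : ℝ, C₀ = max (max (max 1 κ⁻¹) (K / κ ^ 2)) (k⁻¹ * (B : ℝ) ^ (1 - a)) := ⟨_, rfl⟩
  have hC1 : 1 ≤ C₀ := by rw [hC]; exact ((le_max_left _ _).trans (le_max_left _ _)).trans (le_max_left _ _)
  have hC0 : κ⁻¹ ≤ C₀ := by rw [hC]; exact ((le_max_right _ _).trans (le_max_left _ _)).trans (le_max_left _ _)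
  have hC2 : K / κ ^ 2 ≤ C₀ := by rw [hC]; exact (le_max_right _ _).trans (le_max_left _ _)
  have hC3 : k⁻¹ * (B : ℝ) ^ (1 - a) ≤ C₀ := by rw [hC]; exact le_max_right _ _
  have hC4 : k⁻¹ * (2 : ℝ) ^ (1 - a) ≤ C₀ := by
    refine le_trans ?_ hC3
    exact mul_le_mul_of_nonneg_left (Real.rpow_le_rpow (by norm_num) (by exact_mod_cast hB2) hb.le) (by positivity)
  refine ⟨B, C₀, max n₁ (max n₂ n₃), hB2, hC1, hn₁.trans (le_max_left _ _), fun h₀ L hh => ?_⟩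
  obtain ⟨G, g, gk, g1⟩ := HG K h₀ L hK ((le_max_left _ _).trans hh)
  have hh2 : n₂ ≤ h₀ := ((le_max_left _ _).trans (le_max_right _ _)).trans hh
  have hh3 : n₃ ≤ h₀ := ((le_max_right _ _).trans (le_max_right _ _)).trans hh
  have hh1 : 1 ≤ h₀ := hn₁.trans ((le_max_left _ _).trans hh)
  have hT : ∀ v, 1 ≤ v → h₀ ≤ Tg h₀ K v := fun v hv => by
    rw [Tg_pos hv, mul_comm 2 h₀, mul_assoc]
    exact Nat.le_mul_of_pos_right _ (Nat.mul_pos two_pos (Nat.pow_pos hK1))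
  have hT0 : ∀ v, 1 ≤ v → (0 : ℝ) < (Tg h₀ K v : ℕ) := fun v hv => by exact_mod_cast hh1.trans (hT v hv)
  have hTB : ∀ v, Tg h₀ K v ≤ B * Tg h₀ K v := fun v => Nat.le_mul_of_pos_left _ (by omega)
  have rat : ∀ v, 1 ≤ v → ((B * Tg h₀ K v : ℕ) : ℝ) / (Tg h₀ K v : ℕ) = B := fun v hv => by
    have := hT0 v hv
    push_cast
    field_simp
  have hVX : ∀ v, 1 ≤ v → (D / κ + 1) * wd μ s (Tg h₀ K v) ≤ wd μ s (B * Tg h₀ K v) := fun v hv => by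
    have h1 := hW.lo (Tg h₀ K v) (B * Tg h₀ K v) (hh2.trans (hT v hv)) (hTB v)
    rw [rat v hv] at h1
    refine le_trans ?_ h1
    have h2 : D / κ + 1 ≤ k * (B : ℝ) ^ a := by
      have h3 := mul_le_mul_of_nonneg_left hBX hk.le
      rw [hX, ← mul_assoc, mul_inv_cancel₀ hk.ne', one_mul] at h3
      exact h3
    exact mul_le_mul_of_nonneg_right h2 (by linarith [g1 v hv])
  have sm : ∀ v : ℕ, 1 ≤ v → (v : ℝ) + 2 ≤ wd μ s (Tg h₀ K v) := fun v hv => by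
    have h1 := g.small v hv
    have h2 : (1 : ℝ) ≤ v := by exact_mod_cast hv
    linarith
  have cardpos : ∀ v t, 1 ≤ v → v ≤ t → t ≤ L → ((G.subs v t).card : ℝ) ≤ C₀ * (K : ℝ) ^ (2 * (t - v)) := fun v t hv hvt ht =>
    (g.card hκ hD0 hh1 hK1 hv hvt ht (by linarith [g1 v hv])).trans (mul_le_mul_of_nonneg_right hC2 (by positivity))
  refine ⟨G, hK, hh1, hB2, hR, hC1, g.ok, g.nest, g.H, g.V01, sm, fun v hv => ?_, fun v hv => ?_, fun v hv => ?_, fun v hv => ?_,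
    fun v hv => ?_, fun v hv hvL => ?_, fun v hv hvL => ?_, g.err, g.err', ?_⟩
  · have h1 := hW.up (Tg h₀ K v) (B * Tg h₀ K v) (hh2.trans (hT v hv)) (hTB v)
    rw [rat v hv] at h1
    have h2 : wd μ s (B * Tg h₀ K v) ≤ k⁻¹ * (B : ℝ) ^ (1 - a) * wd μ s (Tg h₀ K v) := by
      rw [mul_assoc, inv_mul_eq_div, le_div_iff₀ hk]
      linarith
    exact h2.trans (mul_le_mul_of_nonneg_right hC3 (by linarith [g1 v hv]))
  · refine le_trans ?_ (hVX v hv)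
    have h1 : (1 : ℝ) ≤ D / κ + 1 := by
      have : 0 ≤ D / κ := by positivity
      linarith
    exact le_mul_of_one_le_left (by linarith [g1 v hv]) h1
  · have h1 := gk v hv
    have h2 : wd μ s (Tg h₀ K v) ≤ κ⁻¹ * wd μ s (2 * Tg h₀ K v) := by
      rw [inv_mul_eq_div, le_div_iff₀ hκ]
      linarith
    have h3 : 0 ≤ wd μ s (2 * Tg h₀ K v) := le_trans (by have := g1 v hv; positivity) h1
    exact h2.trans (mul_le_mul_of_nonneg_right hC0 h3)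
  · have h1 := hW.up (Tg h₀ K v) (2 * Tg h₀ K v) (hh2.trans (hT v hv)) (by omega)
    have h0 := hT0 v hv
    have e1 : ((2 * Tg h₀ K v : ℕ) : ℝ) / (Tg h₀ K v : ℕ) = 2 := by
      push_cast
      field_simp
    rw [e1] at h1
    have h2 : wd μ s (2 * Tg h₀ K v) ≤ k⁻¹ * (2 : ℝ) ^ (1 - a) * wd μ s (Tg h₀ K v) := by
      rw [mul_assoc, inv_mul_eq_div, le_div_iff₀ hk]
      linarith
    exact h2.trans (mul_le_mul_of_nonneg_right hC4 (by linarith [g1 v hv]))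
  · have h1 : n₃ ≤ 2 * Tg h₀ K v := hh3.trans ((hT v hv).trans (by omega))
    refine le_trans ?_ (hn₃ _ h1).2.2
    refine Real.one_le_rpow ?_ (by norm_num)
    exact_mod_cast (show 1 ≤ 2 * Tg h₀ K v by have := hh1.trans (hT v hv); omega)
  · have h1 := g.Vle v hv hvL
    have h2 := sm v hv
    have h3 := hVX v hv
    have h4 : (D / κ + 1) * wd μ s (Tg h₀ K v) = D / κ * wd μ s (Tg h₀ K v) + wd μ s (Tg h₀ K v) := by ring
    linarith
  · have h1 := g.leV v hv hvL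
    have e : D / K = 2 * (R + 2) := by
      rw [hD]
      field_simp
    rwa [e] at h1
  · intro v t hvt ht
    have hKp : ∀ n : ℕ, (1 : ℝ) ≤ (K : ℝ) ^ n := fun n => one_le_pow₀ (by exact_mod_cast hK1)
    rcases Nat.eq_zero_or_pos t with ht0 | ht0
    · have hv0 : v = 0 := by omega
      subst hv0
      subst ht0
      have h1 : (G.subs 0 0).card ≤ 1 := by
        refine (Gd.card_subs G 0 0).trans ?_
        rw [Nat.div_self (g.ok.H0 0 ht), Nat.div_self (g.ok.V0 0 ht)]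
      have h2 : ((G.subs 0 0).card : ℝ) ≤ 1 := by exact_mod_cast h1
      exact h2.trans (one_le_mul_of_one_le_of_one_le hC1 (hKp _))
    · rcases Nat.eq_zero_or_pos v with hv0 | hv0
      · subst hv0
        have e1 : G.subs 0 t = G.subs 1 t := subs_congr g.H01 g.V01 rfl rfl
        rw [e1]
        refine (cardpos 1 t le_rfl ht0 ht).trans ?_
        exact mul_le_mul_of_nonneg_left (pow_le_pow_right₀ (by exact_mod_cast hK1) (by omega)) (by linarith)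
      · exact cardpos v t hv0 hvt ht

section lat

variable {μ : Measure ℝ} {s : ℝ}

namespace GW

variable {R C₀ : ℝ} {B h₀ K L : ℕ} {G : Gd}

theorem K1 (g : GW μ s R B C₀ h₀ K L G) : 1 ≤ K := by
  have := g.K2
  omega

theorem TH (g : GW μ s R B C₀ h₀ K L G) {v : ℕ} (hv : 1 ≤ v) : Tg h₀ K v = 2 * G.H v := by rw [g.H, Tg_Hg hv]

theorem Tpos (g : GW μ s R B C₀ h₀ K L G) {v : ℕ} (hv : 1 ≤ v) : 1 ≤ Tg h₀ K v := by
  rw [Tg_pos hv]
  exact Nat.mul_pos (Nat.mul_pos two_pos g.h1) (Nat.pow_pos g.K1)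

theorem H01 (g : GW μ s R B C₀ h₀ K L G) : G.H 0 = G.H 1 := by rw [g.H, g.H, Hg_zero]

theorem z01 (g : GW μ s R B C₀ h₀ K L G) (c : ℕ × ℤ) : G.z 0 c = G.z 1 c := by
  unfold Gd.z
  rw [g.H01, g.V01]

/-- **One place in the innermost slab.** -/
theorem dg0 (g : GW μ s R B C₀ h₀ K L G) (hL : 1 ≤ L) (c : ℕ × ℤ) : G.dg 0 c = 0 := by
  have h1 := g.ok.z_dg (show 0 < L by omega) c
  rw [g.z01] at h1
  exact (add_eq_left.1 h1.symm)

theorem A0 (_ : GW μ s R B C₀ h₀ K L G) : H60.AT (Tg h₀ K) 0 = ∅ := H60.AT_zero (Tg_zero h₀ K)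

/-- The condition of `slabsT60` and `nest_AT`. -/
theorem HT (g : GW μ s R B C₀ h₀ K L G) (v : ℕ) : G.H (v + 1) + Tg h₀ K v ≤ Tg h₀ K (v + 1) + G.H v := by
  rw [g.H, g.H]
  exact Tg_nest g.K1 v

theorem Hmono (g : GW μ s R B C₀ h₀ K L G) {u v : ℕ} (huv : u ≤ v) : G.H u ≤ G.H v := by
  rw [g.H, g.H]
  exact Hg_mono g.K1 huv

theorem Tmono (g : GW μ s R B C₀ h₀ K L G) {u v : ℕ} (huv : u ≤ v) : Tg h₀ K u ≤ Tg h₀ K v := Tg_mono g.K1 huv

theorem w1 (g : GW μ s R B C₀ h₀ K L G) {v : ℕ} (hv : 1 ≤ v) : 1 ≤ wd μ s (Tg h₀ K v) := by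
  have h1 := g.small v hv
  have h2 : (0 : ℝ) ≤ v := by positivity
  linarith

/-- The widths of the boxes in the unit `wd (T v)`. -/
theorem Vle (g : GW μ s R B C₀ h₀ K L G) {v : ℕ} (hv : 1 ≤ v) (hL : v ≤ L) : (G.V v : ℝ) ≤ C₀ * wd μ s (Tg h₀ K v) := by
  have h1 := g.V v hv hL
  have h2 := g.wB v hv
  have h3 : (0 : ℝ) ≤ v := by positivity
  linarith

/-- **The wide grid is a grid `GU`** with `δ = C₀ ^ 2`: everything of `GU` holds (slabsG60 with `Lam = C₀ ^ 2`). -/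
theorem toGU (g : GW μ s R B C₀ h₀ K L G) : GU μ s (C₀ ^ 2) C₀ h₀ K L G where
  K2 := g.K2
  h1 := g.h1
  ok := g.ok
  nest := g.nest
  H := g.H
  V01 := g.V01
  w1 := g.w21
  V v hv hL := by
    have h1 := g.V v hv hL
    have h2 := g.wB v hv
    have h3 := g.w2 v hv
    have h4 := g.C1
    have h5 : C₀ * wd μ s (Tg h₀ K v) ≤ C₀ * (C₀ * wd μ s (2 * Tg h₀ K v)) := mul_le_mul_of_nonneg_left h3 (by linarith)
    have e : C₀ ^ 2 * wd μ s (2 * Tg h₀ K v) = C₀ * (C₀ * wd μ s (2 * Tg h₀ K v)) := by ring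
    rw [e]
    linarith
  V' v hv hL := by
    have h1 := g.V' v hv hL
    have h2 := g.w2' v hv
    have h3 := g.w1 hv
    have h4 := g.C1
    have h5 := g.R1
    have h6 : wd μ s (Tg h₀ K v) ≤ (G.V v : ℝ) := by
      refine le_trans ?_ h1
      have : (1 : ℝ) ≤ 2 * (R + 2) := by linarith
      exact le_mul_of_one_le_left (by linarith) this
    have hK0 : (1 : ℝ) ≤ K := by exact_mod_cast g.K1
    have h7 : C₀ * wd μ s (Tg h₀ K v) ≤ C₀ * G.V v := mul_le_mul_of_nonneg_left h6 (by linarith)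
    have h8 : C₀ * (G.V v : ℝ) ≤ C₀ * K * G.V v := by
      rw [mul_assoc]
      refine mul_le_mul_of_nonneg_left ?_ (by linarith)
      exact le_mul_of_one_le_left (by linarith) hK0
    linarith
  err := g.err
  err' := g.err'
  card v t hvt ht := by
    have h1 := g.card v t hvt ht
    have hK0 : (1 : ℝ) ≤ K := by exact_mod_cast g.K1
    have h4 := g.C1
    refine h1.trans (mul_le_mul_of_nonneg_right ?_ (by positivity))
    exact le_mul_of_one_le_right (by linarith) hK0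

/-- **A SITE AND THE BASE OF ITS BOX.** -/
theorem lat_base (g : GW μ s R B C₀ h₀ K L G) {v : ℕ} (hv : 1 ≤ v) (hL : v ≤ L) (c : ℕ × ℤ) :
    |lat16 μ s (G.x v c) (pt c)| + 1 ≤ wd μ s (B * Tg h₀ K v) := by
  have h1 := g.ok.col hL (b := c) (g.err v hL)
  have h2 := g.V v hv hL
  have e : lat16 μ s (G.x v c) (pt c) = (c.2 : ℝ) - (G.z v c).2 - sl μ s * ((c.1 : ℝ) - (G.z v c).1) := by
    unfold lat16
    show ((c.2 - (G.z v c).2 : ℤ) : ℝ) - sl μ s * (((c.1 : ℤ) - ((G.z v c).1 : ℤ) : ℤ) : ℝ) = _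
    push_cast
    ring
  rw [e]
  linarith

theorem lat_base' (g : GW μ s R B C₀ h₀ K L G) {v : ℕ} (hv : 1 ≤ v) (hL : v ≤ L) (c : ℕ × ℤ) :
    |lat16 μ s (pt c) (G.x v c)| + 1 ≤ wd μ s (B * Tg h₀ K v) := by
  rw [lat_swap, abs_neg]
  exact g.lat_base hv hL c

/-- **The base points of two levels.** -/
theorem lat_lev (g : GW μ s R B C₀ h₀ K L G) {u v : ℕ} (huv : u ≤ v) (hv : 1 ≤ v) (hL : v ≤ L) (c : ℕ × ℤ) :
    |lat16 μ s (G.x v c) (G.x u c)| + 1 ≤ wd μ s (B * Tg h₀ K v) := by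
  have h1 := g.lat_base hv hL (G.z u c)
  have e1 : G.x v (G.z u c) = G.x v c := Gd.x_congr (g.ok.z_z huv hL c)
  rw [e1] at h1
  exact h1

theorem lat_lev' (g : GW μ s R B C₀ h₀ K L G) {u v : ℕ} (huv : u ≤ v) (hv : 1 ≤ v) (hL : v ≤ L) (c : ℕ × ℤ) :
    |lat16 μ s (G.x u c) (G.x v c)| + 1 ≤ wd μ s (B * Tg h₀ K v) := by
  rw [lat_swap, abs_neg]
  exact g.lat_lev huv hv hL c

/-- **Two sites of the same box.** -/
theorem lat_same (g : GW μ s R B C₀ h₀ K L G) {v : ℕ} (hv : 1 ≤ v) (hL : v ≤ L) {c d : ℕ × ℤ} (hcd : G.z v c = G.z v d) :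
    |lat16 μ s (pt c) (pt d)| + 2 ≤ 2 * wd μ s (B * Tg h₀ K v) := by
  have h1 := g.lat_base' hv hL c
  have h2 := g.lat_base hv hL d
  have h3 := lat_tri (μ := μ) (s := s) (pt c) (G.x v c) (pt d)
  rw [Gd.x_congr hcd] at h1 h3
  linarith

/-- A site of the same box of a lower level sees the higher base points as its own. -/
theorem lat_in (g : GW μ s R B C₀ h₀ K L G) {t v : ℕ} (htv : t ≤ v) (hv : 1 ≤ v) (hL : v ≤ L) {a c : ℕ × ℤ} (hac : G.z t a = G.z t c) :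
    |lat16 μ s (pt a) (G.x v c)| + 1 ≤ wd μ s (B * Tg h₀ K v) := by
  rw [← g.ok.x_nested htv hL hac]
  exact g.lat_base' hv hL a

/-- From any reference line. -/
theorem lat_ref (g : GW μ s R B C₀ h₀ K L G) {v : ℕ} (hv : 1 ≤ v) (hL : v ≤ L) (κ : Pt) (c : ℕ × ℤ) :
    |lat16 μ s κ (G.x v c)| + 1 ≤ |lat16 μ s κ (pt c)| + wd μ s (B * Tg h₀ K v) := by
  have h1 := g.lat_base' hv hL c
  have h2 := lat_tri (μ := μ) (s := s) κ (pt c) (G.x v c)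
  linarith

/-- The lateral coordinate of a base point of level `u`, from the base point of level `v`. -/
theorem lat_place (g : GW μ s R B C₀ h₀ K L G) {u v : ℕ} (huv : u ≤ v) (hv : 1 ≤ v) (hL : v ≤ L) (c : ℕ × ℤ) :
    |((G.z u (G.rel v c)).2 : ℝ) - sl μ s * (G.z u (G.rel v c)).1| + 1 ≤ wd μ s (B * Tg h₀ K v) := by
  have h1 := g.lat_lev huv hv hL c
  have e : lat16 μ s (G.x v c) (G.x u c) = ((G.z u (G.rel v c)).2 : ℝ) - sl μ s * (G.z u (G.rel v c)).1 := by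
    rw [g.ok.x_le huv hL c]
    unfold lat16
    have e1 : (G.x v c + pt (G.z u (G.rel v c))).2 - (G.x v c).2 = (G.z u (G.rel v c)).2 := by
      show (G.x v c).2 + (G.z u (G.rel v c)).2 - (G.x v c).2 = _
      ring
    have e2 : (G.x v c + pt (G.z u (G.rel v c))).1 - (G.x v c).1 = ((G.z u (G.rel v c)).1 : ℤ) := by
      show (G.x v c).1 + ((G.z u (G.rel v c)).1 : ℤ) - (G.x v c).1 = _
      ring
    rw [e1, e2]
    push_cast
    ring
  rw [← e]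
  exact h1

/-- The same for all the places. -/
theorem lat_subs (g : GW μ s R B C₀ h₀ K L G) {u v : ℕ} (huv : u ≤ v) (hv : 1 ≤ v) (hL : v ≤ L) {o : ℕ × ℤ} (ho : o ∈ G.subs u v) :
    o.1 + G.H u ≤ G.H v ∧ |(o.2 : ℝ) - sl μ s * o.1| + 1 ≤ wd μ s (B * Tg h₀ K v) := by
  obtain ⟨i, hi⟩ := g.ok.dvdH huv hL
  obtain ⟨j, hj⟩ := g.ok.dvdV huv hL
  have H0 := g.ok.H0 u (huv.trans hL)
  have V0 := g.ok.V0 u (huv.trans hL)
  unfold Gd.subs at ho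
  rw [Finset.mem_image] at ho
  obtain ⟨w, hw, rfl⟩ := ho
  rw [Finset.mem_product, Finset.mem_range, Finset.mem_range, hi, hj, Nat.mul_div_cancel_left _ H0,
    Nat.mul_div_cancel_left _ V0] at hw
  have h1 : G.H u * w.1 + G.H u ≤ G.H v := by
    rw [hi]
    calc G.H u * w.1 + G.H u = G.H u * (w.1 + 1) := by ring
      _ ≤ G.H u * i := Nat.mul_le_mul_left _ hw.1
  refine ⟨h1, ?_⟩
  have h2 := g.err v hL (G.H u * w.1) (by omega)
  have h3 : (G.V u : ℤ) * (w.2 : ℤ) ≤ G.V v := by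
    rw [hj]
    push_cast
    exact mul_le_mul_of_nonneg_left (by exact_mod_cast hw.2.le) (by positivity)
  have h4 : (0 : ℤ) ≤ (G.V u : ℤ) * (w.2 : ℤ) := by positivity
  have h3' : ((G.V u : ℤ) : ℝ) * ((w.2 : ℤ) : ℝ) ≤ (G.V v : ℝ) := by exact_mod_cast h3
  have h4' : (0 : ℝ) ≤ ((G.V u : ℤ) : ℝ) * ((w.2 : ℤ) : ℝ) := by exact_mod_cast h4
  have h5 := g.V v hv hL
  have h6 : |((G.s (G.H u * w.1) + (G.V u : ℤ) * (w.2 : ℤ) : ℤ) : ℝ) - sl μ s * ((G.H u * w.1 : ℕ) : ℝ)| ≤ G.V v + (v + 1) := by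
    rw [Int.cast_add, Int.cast_mul]
    rw [abs_le] at h2 ⊢
    constructor <;> linarith [h2.1, h2.2]
  show |((G.s (G.H u * w.1) + (G.V u : ℤ) * (w.2 : ℤ) : ℤ) : ℝ) - sl μ s * ((G.H u * w.1 : ℕ) : ℝ)| + 1 ≤ _
  linarith

/-- Every base of the level `v` inside a box of the level `t` is at a place of `subs v t`. -/
theorem base_mem (g : GW μ s R B C₀ h₀ K L G) {v t : ℕ} (hvt : v ≤ t) (ht : t ≤ L) (c : ℕ × ℤ) :
    ∃ o ∈ G.subs v t, G.z v c = G.z t c + o :=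
  ⟨_, g.ok.mem_subs hvt ht c, g.ok.z_le hvt ht c⟩

/-! ### Rows -/

/-- **The tower is above the row `0`**: the hypothesis `hrow` of `slabsT60`. -/
theorem row_ge (g : GW μ s R B C₀ h₀ K L G) {t : ℕ} (ht : t ≤ L) {c : ℕ × ℤ} (hc : Tg h₀ K t + G.H t ≤ c.1) {v : ℕ} (hv : v ≤ t) :
    Tg h₀ K v ≤ (G.z v c).1 := by
  have h1 := g.ok.row_lt (hv.trans ht) c
  have h2 := g.Tmono (u := v) hv
  have h3 := g.Hmono (u := v) hv
  omega

/-- The regions of all levels `v ≤ t` of a site in the rows `(z_t - T_t, z_t + T_t]`. -/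
theorem row_in (g : GW μ s R B C₀ h₀ K L G) {v t : ℕ} (hvt : v ≤ t) (ht : t ≤ L) (c : ℕ × ℤ) :
    (G.z t c).1 ≤ (G.z v c).1 ∧ (G.z v c).1 + G.H v ≤ (G.z t c).1 + G.H t ∧
      (G.z v c).1 + Tg h₀ K v ≤ (G.z t c).1 + Tg h₀ K t := by
  have h1 := congrArg Prod.fst (g.ok.z_le hvt ht c)
  have h1' : (G.z v c).1 = (G.z t c).1 + (G.z v (G.rel t c)).1 := h1
  have h2 := g.ok.row_place hvt ht c
  have h3 := g.Hmono (u := v) hvt
  have h4 : G.H t + Tg h₀ K v ≤ Tg h₀ K t + G.H v := by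
    rcases Nat.eq_zero_or_pos v with h0 | h0
    · rcases Nat.eq_zero_or_pos t with t0 | t0
      · rw [h0, t0]
        omega
      · rw [g.TH t0, h0, Tg_zero]
        omega
    · rw [g.TH h0, g.TH (show 1 ≤ t by omega)]
      omega
  omega

end GW

end lat

end

end Pool.Agent.W_7d29a1_C1.T10
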