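import Pool.Agent.W_7d29a1_C1.EnG60
import Pool.Agent.W_7d29a1_C1.GeoW10
import Pool.Agent.W_7d29a1_C1.FreA20
import Pool.Agent.W_7d29a1_C1.EnC83

/-!
Both halves (MP_7d29a1_pr), attractor route: THE KERNEL OF THE INSIDE OF A SUCCESS IN THE LETTERS OF THE SHELL (helper60).

`enU60` : an envelope in the unit of the scale `T₂` and the line of `κ` becomes `En31` in the unit of a comparable scale `Tt` and the line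
of `κ'`, constants explicit; `loU60` : the same for a lower bound between two windows. `inE60` : `enG60` over the grid `GW` for a contact of a
success, any unit `Tt` comparable with `2 T_t`, any line `κ'` within `Λ' wd (2 T_t)` of the box (the constants stay explicit functions of
those of `enG60`).
-/

set_option autoImplicit false
set_option linter.unusedSectionVars false

namespace Pool.Agent.W_7d29a1_C1.H60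

open MeasureTheory ProbabilityTheory Filter Topology
open Pool.Agent.W_7d29a1_F Pool.Agent.W_7d29a1_h4g Pool.Agent.W_7d29a1_H Pool.Agent.W_7d29a1_HS
open Pool.Agent.W_7d29a1_C1.S71 Pool.Agent.W_7d29a1_C1.Sw9 Pool.Agent.W_7d29a1_C1.H75 Pool.Agent.W_7d29a1_C1.U16
open Pool.Agent.W_7d29a1_C1.FarK89 Pool.Agent.W_7d29a1_C1.FarW89
open Pool.Agent.W_7d29a1_C1.T10 Pool.Agent.W_7d29a1_C1.S83 Pool.Agent.W_7d29a1_C1.D31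
open scoped ENNReal

noncomputable section

variable {μ : Measure ℝ} {s : ℝ} [IsProbabilityMeasure μ] {c C : ℝ} {n₀ : ℕ}

/-- The numbers of two comparable scales. -/
theorem units60 (h0 : In μ s c C n₀) {a T T' : ℕ} (ha : 1 ≤ a) (hT : 1 ≤ T) (hT' : 1 ≤ T') (h1 : T ≤ a * T') (h2 : T' ≤ a * T)
    (hw : 0 < wd μ s T) (hw' : 0 < wd μ s T') :
    EE μ s T' ≤ a * EE μ s T ∧ wd μ s T ≤ 2 * a * wd μ s T' ∧ EE μ s T / wd μ s T ≤ 2 * a ^ 2 * (EE μ s T' / wd μ s T') := by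
  have e1 := EE_unit20 h0 ha h2
  have e1' := EE_unit20 h0 ha h1
  have e2 := wd_unit20 h0 hT' hT h1
  have e2' := wd_unit20 h0 hT hT' h2
  refine ⟨e1, e2, ?_⟩
  have hE' := EE_pos (μ := μ) (s := s) T'
  have haR : (0 : ℝ) < a := by exact_mod_cast ha
  rw [div_le_iff₀ hw]
  have e3 : EE μ s T' ≤ EE μ s T' / wd μ s T' * (2 * a * wd μ s T) := by
    calc EE μ s T' = EE μ s T' / wd μ s T' * wd μ s T' := by field_simp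
      _ ≤ _ := mul_le_mul_of_nonneg_left e2' (by positivity)
  calc EE μ s T ≤ a * EE μ s T' := e1'
    _ ≤ a * (EE μ s T' / wd μ s T' * (2 * a * wd μ s T)) := mul_le_mul_of_nonneg_left e3 haR.le
    _ = _ := by ring

/-- **AN ENVELOPE IN THE LETTERS OF THE SHELL**: unit of the comparable scale `Tt`, line of `κ'`. -/
theorem enU60 (h0 : In μ s c C n₀) {a : ℕ} (ha : 1 ≤ a) {c₂ σ : ℝ} (hc₂ : 0 < c₂) (hσ : 0 < σ) : ∃ n₁ : ℕ, 1 ≤ n₁ ∧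
    ∀ {Tt T₂ : ℕ}, n₁ ≤ Tt → n₁ ≤ T₂ → Tt ≤ a * T₂ → T₂ ≤ a * Tt → ∀ {κ κ' : Pt} {Λ q r : ℝ} {k : ℤ → ℤ → ℝ} {i j : ℤ} {P : ℕ}
      {I J : Finset ℤ}, |lat16 μ s κ κ'| ≤ Λ * wd μ s T₂ → 0 ≤ Λ → 0 ≤ q → 0 ≤ r → (∀ x y, 0 ≤ k x y) →
      (∀ x ∈ I, ∀ y ∈ J, k x y ≤ Real.exp (q * gr P (|lat16 μ s κ (i, x)| / wd μ s T₂) * EE μ s T₂ -
        r * (EE μ s T₂ / wd μ s T₂) * |lat16 μ s κ (j, y) - lat16 μ s κ (i, x)|)) →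
      En31 P (r / (2 * a ^ 2)) c₂ (EE μ s Tt) (wd μ s Tt) (q * gr P (2 * a + Λ + 1) * a) σ (fun x => lat16 μ s κ' (i, x))
        (fun y => lat16 μ s κ' (j, y)) k I J := by
  obtain ⟨m₁, hm₁, H1⟩ := sumR83 h0 hc₂ hσ
  obtain ⟨m₂, H2⟩ := eventually_atTop.1 ((wd_tendsto h0).eventually_ge_atTop 1)
  refine ⟨max (max m₁ m₂) 1, le_max_right _ _, ?_⟩
  intro Tt T₂ hTt hT₂ h1 h2 κ κ' Λ q r k i j P I J hκ hΛ hq hr k0 H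
  have haR : (1 : ℝ) ≤ a := by exact_mod_cast ha
  have a1 : 1 ≤ Tt := (le_max_right _ _).trans hTt
  have a2 : 1 ≤ T₂ := (le_max_right _ _).trans hT₂
  have w1 : 0 < wd μ s Tt := by linarith [H2 Tt (((le_max_right _ _).trans (le_max_left _ _)).trans hTt)]
  have w2 : 0 < wd μ s T₂ := by linarith [H2 T₂ (((le_max_right _ _).trans (le_max_left _ _)).trans hT₂)]
  have hE := EE_pos (μ := μ) (s := s) Tt
  have hE₂ := EE_pos (μ := μ) (s := s) T₂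
  obtain ⟨u1, u2, u3⟩ := units60 h0 ha a1 a2 h1 h2 w1 w2
  have hrate : r / (2 * a ^ 2) * (EE μ s Tt / wd μ s Tt) ≤ r * (EE μ s T₂ / wd μ s T₂) := by
    calc r / (2 * a ^ 2) * (EE μ s Tt / wd μ s Tt) ≤ r / (2 * a ^ 2) * (2 * a ^ 2 * (EE μ s T₂ / wd μ s T₂)) :=
          mul_le_mul_of_nonneg_left u3 (by positivity)
      _ = _ := by field_simp
  have hchg : ∀ p : Pt, lat16 μ s κ' p + lat16 μ s κ κ' = lat16 μ s κ p := fun p => by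
    rw [lat_chain κ κ' p]
    ring
  refine en_unit (a := lat16 μ s κ κ') hE w1 hE₂.le w2 hq hΛ (by positivity) u2 u1 hrate hκ k0 (fun x hx y hy => ?_) hσ.le fun x => ?_
  · refine (H x hx y hy).trans (Real.exp_le_exp.2 ?_)
    rw [hchg]
    have e1 : lat16 μ s κ' (j, y) - lat16 μ s κ' (i, x) = lat16 μ s κ (j, y) - lat16 μ s κ (i, x) := by
      have := hchg (j, y)
      have := hchg (i, x)
      linarith
    rw [e1]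
    have hX : 0 ≤ |lat16 μ s κ (i, x)| / wd μ s T₂ := by positivity
    have g1 : gr P (|lat16 μ s κ (i, x)| / wd μ s T₂) ≤ gr P (|lat16 μ s κ (i, x)| / wd μ s T₂ + 1) := gr_mono P hX (by linarith)
    have g2 := mul_le_mul_of_nonneg_right (mul_le_mul_of_nonneg_left g1 hq) hE₂.le
    linarith
  · have h3 := H1 Tt (((le_max_left _ _).trans (le_max_left _ _)).trans hTt)
      (lat16 μ s κ' (i, x) + ((κ'.2 : ℝ) + sl μ s * ((j - κ'.1 : ℤ) : ℝ))) J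
    refine le_trans (Finset.sum_le_sum fun y _ => Real.exp_le_exp.2 ?_) h3
    have e1 : (y : ℝ) - (lat16 μ s κ' (i, x) + ((κ'.2 : ℝ) + sl μ s * ((j - κ'.1 : ℤ) : ℝ))) =
        lat16 μ s κ' (j, y) - lat16 μ s κ' (i, x) := by
      have e2 : lat16 μ s κ' (j, y) = ((y - κ'.2 : ℤ) : ℝ) - sl μ s * ((j - κ'.1 : ℤ) : ℝ) := rfl
      rw [e2]
      push_cast
      ring
    rw [e1]

/-- **A LOWER BOUND IN THE LETTERS OF THE SHELL.** -/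
theorem loU60 (h0 : In μ s c C n₀) {a : ℕ} (ha : 1 ≤ a) {Tt T₂ : ℕ} (hTt : 1 ≤ Tt) (hT₂ : 1 ≤ T₂) (h1 : Tt ≤ a * T₂)
    (h2 : T₂ ≤ a * Tt) {κ κ' : Pt} {Λ D U : ℝ} {k : ℤ → ℤ → ℝ} {i j : ℤ} (hκ : |lat16 μ s κ κ'| ≤ Λ * wd μ s T₂) (hD : 0 ≤ D)
    (hU : 0 ≤ U) (H : ∀ x y : ℤ, |lat16 μ s κ (i, x)| ≤ (2 * a * D + Λ) * wd μ s T₂ → |lat16 μ s κ (j, y)| ≤ (2 * a * D + Λ) * wd μ s T₂ →
      Real.exp (-(U * EE μ s T₂)) ≤ k x y) (x y : ℤ) (hx : |lat16 μ s κ' (i, x)| ≤ D * wd μ s Tt)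
    (hy : |lat16 μ s κ' (j, y)| ≤ D * wd μ s Tt) : Real.exp (-(U * a * EE μ s Tt)) ≤ k x y := by
  have e2 := wd_unit20 h0 hT₂ hTt h1
  have e1 := EE_unit20 h0 ha h2
  have key : ∀ p : Pt, |lat16 μ s κ' p| ≤ D * wd μ s Tt → |lat16 μ s κ p| ≤ (2 * a * D + Λ) * wd μ s T₂ := fun p hp => by
    have h3 := lat_tri (μ := μ) (s := s) κ κ' p
    have h4 := mul_le_mul_of_nonneg_left e2 hD
    linarith
  refine le_trans (Real.exp_le_exp.2 ?_) (H x y (key _ hx) (key _ hy))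
  have := mul_le_mul_of_nonneg_left e1 hU
  linarith

/-- **THE KERNEL OF THE WHOLE INSIDE FOR A CONTACT OF A SUCCESS, OVER THE GRID `GW`**: unit of any scale `Tt` comparable with `2 T_t`, any line
`κ'` within `Λ' wd (2 T_t)` of the base of the box. -/
theorem inE60 (h0 : In μ s c C n₀) (P : ℕ) {K : ℕ} (hK : 2 ≤ K) {a : ℕ} (ha : 1 ≤ a) {θ Kw D Λ' C₀ : ℝ} (hθ : 0 < θ) (hθ8 : θ ≤ 1 / 8)
    (hD : 0 ≤ D) (hΛ' : 0 ≤ Λ') (hKw : 2 * (2 * a * D + (Λ' + C₀ ^ 2)) + 8 ≤ Kw) :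
    ∃ R : ℝ, 1 < R ∧ ∀ q₀ : ℝ, 0 ≤ q₀ → ∃ q U : ℝ, 0 ≤ q ∧ 0 < U ∧
    ∀ c₂ σ : ℝ, 0 < c₂ → 0 < σ → ∃ n₁ : ℕ, 1 ≤ n₁ ∧
    ∀ {R' : ℝ} {B : ℕ} {h : ℝ} {p : ℕ → ℝ} {M h₀ : ℕ} {G : Gd} {L Lm : ℕ} {t : ℕ} {y : ℕ → ℝ} {x : ℕ × ℤ} {η : Env} {κ' : Pt}
      {r₀ r₁ : ℤ} {ρ₀ ρ₁ Tt : ℕ} {q₁ : ℝ}, GW μ s R' B C₀ h₀ K L G → (∀ k, k < M → p k = Real.exp (s + h)) →
      (∀ k, M ≤ k → p k = Real.exp s) → n₁ ≤ h₀ → 2 ≤ t → t ≤ L → t ≤ Lm + 1 → Monotone y → (∀ l, 0 ≤ y l) →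
      (∀ l, y l ≤ q₀ * R ^ l) → 0 ≤ q₁ → q₁ ≤ q₀ → (∀ v ≤ t, Tg h₀ K v ≤ (G.z v x).1) →
      η ∉ Rch (lvL G (LvE Lm (EL60 μ s c θ Kw P (Tg h₀ K) y)) L) (t - 2) x →
      sh (G.x t x) η ∈ ELx60 μ s c θ Kw P (2 * Tg h₀ K t) (Tg h₀ K (t - 1)) r₀ r₁ q₁ (G.z (t - 1) (G.rel t x)) →
      |lat16 μ s κ' (G.x t x)| ≤ Λ' * wd μ s (2 * Tg h₀ K t) → n₁ ≤ Tt → Tt ≤ a * (2 * Tg h₀ K t) → 2 * Tg h₀ K t ≤ a * Tt →
      -(Tg h₀ K t : ℤ) ≤ r₀ → r₁ ≤ Tg h₀ K t → ((G.z t x).1 : ℤ) + r₀ ≤ ρ₀ → (ρ₁ : ℤ) ≤ ((G.z t x).1 : ℤ) + r₁ →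
      θ * (2 * Tg h₀ K t : ℕ) ≤ ((((G.z t x).1 : ℤ) - Tg h₀ K (t - 1) - ρ₀ : ℤ) : ℝ) →
      θ * (2 * Tg h₀ K t : ℕ) ≤ ((ρ₁ + G.H (t - 1) - (((G.z t x).1 : ℤ) + G.H t + Tg h₀ K (t - 1)) : ℤ) : ℝ) →
      |h| * wd μ s (2 * Tg h₀ K t) ≤ c / 8 * EE μ s (2 * Tg h₀ K t) →
      (∀ P', 2 * P ≤ P' → ∀ I J : Finset ℤ, En31 P' (c / 8 / (2 * a ^ 2)) c₂ (EE μ s Tt) (wd μ s Tt)
        (q * gr P' (2 * a + (Λ' + C₀ ^ 2) + 1) * a) σ (fun z => lat16 μ s κ' ((ρ₀ : ℤ), z)) (fun z => lat16 μ s κ' ((ρ₁ : ℤ), z))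
        (nk μ s h η p M ρ₀ (ρ₁ - ρ₀)) I J) ∧
      (∀ z z' : ℤ, |lat16 μ s κ' ((ρ₀ : ℤ), z)| ≤ D * wd μ s Tt → |lat16 μ s κ' ((ρ₁ : ℤ), z')| ≤ D * wd μ s Tt →
        Real.exp (-(U * a * EE μ s Tt)) ≤ nk μ s h η p M ρ₀ (ρ₁ - ρ₀) z z') := by
  have haR : (1 : ℝ) ≤ a := by exact_mod_cast ha
  have hc0 := h0.c0
  obtain ⟨R, hR, H⟩ := enG60 h0 P hK (θ := θ) (Kw := Kw) (D := 2 * a * D + (Λ' + C₀ ^ 2)) hθ hθ8 (by positivity) hKw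
  refine ⟨R, hR, fun q₀ hq₀ => ?_⟩
  obtain ⟨q, U, hq, hU, H⟩ := H q₀ (C₀ ^ 2) hq₀ (by positivity)
  refine ⟨q, U, hq, hU, fun c₂ σ hc₂ hσ => ?_⟩
  obtain ⟨n₁, hn₁, H⟩ := H c₂ σ hc₂ hσ
  obtain ⟨n₂, hn₂, HU⟩ := enU60 h0 ha hc₂ hσ
  refine ⟨max n₁ n₂, hn₁.trans (le_max_left _ _), ?_⟩
  intro R' B h p M h₀ G L Lm t y x η κ' r₀ r₁ ρ₀ ρ₁ Tt q₁ g hp hp' hh ht htL htLm hym hy0 hyR hq1 hq1' hrow hY hx hκ' hTt hTa hTa'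
    hr0 hr1 hρ₀ hρ₁ hl0 hl1 hforce
  have gu := g.toGU
  have hT2 : h₀ ≤ 2 * Tg h₀ K t := by
    rw [Tg_pos (show 1 ≤ t by omega), mul_comm 2 h₀, mul_assoc]
    have h1 : 1 ≤ 2 * K ^ t := by
      have := Nat.one_le_pow t K (by omega)
      omega
    calc h₀ ≤ h₀ * (2 * K ^ t) := Nat.le_mul_of_pos_right _ (by omega)
      _ ≤ 2 * (h₀ * (2 * K ^ t)) := by omega
  have hx' : sh (G.x t x) η ∈ ELx60 μ s c θ Kw P (2 * Tg h₀ K t) (Tg h₀ K (t - 1)) r₀ r₁ q₁ (G.dg (t - 1) x) := by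
    unfold Gd.dg
    rw [Nat.sub_add_cancel (show 1 ≤ t by omega)]
    exact hx
  obtain ⟨s1, s2⟩ := H (h := h) (p := p) (M := M) (κ := pt x) hp hp' g.ok g.H ((le_max_left _ _).trans hh) ht htL htLm hym hy0 hyR
    hq1 hq1' hrow hY hx' (fun v hv1 hv2 => gu.lat_base' hv1 (hv2.trans htL) x) hr0 hr1 hρ₀ hρ₁ hl0 hl1 hforce
  have hw21 := gu.lat_base (show 1 ≤ t by omega) htL x
  have hκκ : |lat16 μ s (pt x) κ'| ≤ (Λ' + C₀ ^ 2) * wd μ s (2 * Tg h₀ K t) := by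
    have h1 := lat_tri (μ := μ) (s := s) κ' (G.x t x) (pt x)
    rw [lat_swap, abs_neg]
    linarith
  have hpp : ∀ k, 0 < p k := fun k => by
    rcases lt_or_ge k M with h3 | h3
    · rw [hp k h3]; exact Real.exp_pos _
    · rw [hp' k h3]; exact Real.exp_pos _
  have n2 : n₂ ≤ 2 * Tg h₀ K t := (le_max_right _ _).trans (hh.trans hT2)
  refine ⟨fun P' hP' I J => ?_, fun z z' hz hz' => ?_⟩
  · have e := s1 P' hP' I J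
    exact HU ((le_max_right _ _).trans hTt) n2 hTa hTa' hκκ (by positivity) hq (by positivity) (fun _ _ => nk_nonneg hpp _ _ _ _) e.up
  · exact loU60 h0 ha (hn₁.trans ((le_max_left _ _).trans hTt)) (hn₂.trans n2) hTa hTa' hκκ hD hU.le s2 z z' hz hz'

end

end Pool.Agent.W_7d29a1_C1.H60
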