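import Pool.Agent.W_7d29a1_C1.CmpV83

/-!
MP_7d29a1_pr, [C1], SHELL: THE SEAM IS CARRIED THROUGH THE TWO LANES OF THE BUFFER. (helper83)

Rows `i` (first seam, cells `C₁ < C₂`) and `i + n` (end of `M ∘ F`, cells `D₁`, `D₂`). `Psh` : the kernel maps `C_j` to `D_j` with the size
`A_j`, everything else from the cells is small, from outside of the cells it maps the slope `ph'` under the slope `ph` (joint slopes
allowed). `Psh.seam` : `SeamI` at the row `i` gives `SeamI` at the row `i + n`; the sizes cancel.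
-/

set_option autoImplicit false

namespace Pool.Agent.W_7d29a1_C1.S83

open Finset
open Pool.Agent.W_7d29a1_C1.K91 (Grp Box wt wt_pos)
open Pool.Agent.W_7d29a1_C1.K91P
open Pool.Agent.W_7d29a1_C1.U16 (ker ker_nonneg ker_eq_zero fw_ker)

noncomputable section

/-- The kernel of the buffer lanes between the rows of two seams. -/
structure Psh (I J C₁ C₂ D₁ D₂ : Finset ℤ) (K : ℤ → ℤ → ℝ) (ph ph' : ℤ → ℝ) (A₁ A₂ L Lk M R ε : ℝ) : Prop where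
  K0 : ∀ x y, 0 ≤ K x y
  p0 : ∀ y, 0 ≤ ph' y
  A10 : 0 ≤ A₁
  A20 : 0 ≤ A₂
  L0 : 0 ≤ L
  Lk0 : 0 ≤ Lk
  M0 : 0 ≤ M
  R0 : 0 ≤ R
  ε0 : 0 ≤ ε
  CI1 : C₁ ⊆ I
  CI2 : C₂ ⊆ I
  dC : Disjoint C₁ C₂
  DJ1 : D₁ ⊆ J
  DJ2 : D₂ ⊆ J
  lo1 : ∀ x ∈ C₁, A₁ ≤ L * ∑ y ∈ D₁, K x y
  lo2 : ∀ x ∈ C₂, A₂ ≤ L * ∑ y ∈ D₂, K x y
  up1 : ∀ x ∈ C₁, ∑ y ∈ D₁, K x y ≤ L * A₁
  up2 : ∀ x ∈ C₂, ∑ y ∈ D₂, K x y ≤ L * A₂
  cr1 : ∀ x ∈ C₁, ∑ y ∈ D₂, K x y ≤ ε * A₁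
  cr2 : ∀ x ∈ C₂, ∑ y ∈ D₁, K x y ≤ ε * A₂
  of1 : ∀ x ∈ C₁, ∑ y ∈ J \ (D₁ ∪ D₂), K x y * ph' y ≤ ε * A₁
  of2 : ∀ x ∈ C₂, ∑ y ∈ J \ (D₁ ∪ D₂), K x y * ph' y ≤ ε * A₂
  out1 : ∀ x ∈ I, x ∉ C₁ ∪ C₂ → ∑ y ∈ J, K x y * ph' y ≤ Lk * ph x * A₁
  out2 : ∀ x ∈ I, x ∉ C₁ ∪ C₂ → ∑ y ∈ J, K x y * ph' y ≤ Lk * ph x * A₂
  inD : ∀ y ∈ D₁ ∪ D₂, 1 ≤ M * ph' y
  r12 : A₁ ≤ R * A₂
  r21 : A₂ ≤ R * A₁

/-- The mirror. -/
theorem Psh.symm {I J C₁ C₂ D₁ D₂ : Finset ℤ} {K : ℤ → ℤ → ℝ} {ph ph' : ℤ → ℝ} {A₁ A₂ L Lk M R ε : ℝ}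
    (h : Psh I J C₁ C₂ D₁ D₂ K ph ph' A₁ A₂ L Lk M R ε) : Psh I J C₂ C₁ D₂ D₁ K ph ph' A₂ A₁ L Lk M R ε where
  K0 := h.K0
  p0 := h.p0
  A10 := h.A20
  A20 := h.A10
  L0 := h.L0
  Lk0 := h.Lk0
  M0 := h.M0
  R0 := h.R0
  ε0 := h.ε0
  CI1 := h.CI2
  CI2 := h.CI1
  dC := h.dC.symm
  DJ1 := h.DJ2
  DJ2 := h.DJ1
  lo1 := h.lo2
  lo2 := h.lo1
  up1 := h.up2
  up2 := h.up1
  cr1 := h.cr2
  cr2 := h.cr1
  of1 := fun x hx => by
    rw [union_comm]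
    exact h.of2 x hx
  of2 := fun x hx => by
    rw [union_comm]
    exact h.of1 x hx
  out1 := fun x hx hx' => h.out2 x hx (by rwa [union_comm] at hx')
  out2 := fun x hx hx' => h.out1 x hx (by rwa [union_comm] at hx')
  inD := fun y hy => h.inD y (by rwa [union_comm] at hy)
  r12 := h.r21
  r21 := h.r12

variable {I J C₁ C₂ D₁ D₂ : Finset ℤ} {K : ℤ → ℤ → ℝ} {ph ph' a a' : ℤ → ℝ} {A₁ A₂ L Lk M R ε e1 e2 : ℝ}

/-- One group: off the cells and tuned. -/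
theorem Psh.one (h : Psh I J C₁ C₂ D₁ D₂ K ph ph' A₁ A₂ L Lk M R ε) (a0 : ∀ x, 0 ≤ a x)
    (ha : ∀ y ∈ J, a' y = ∑ x ∈ I, a x * K x y) (he1 : 0 ≤ e1) (he2 : 0 ≤ e2)
    (off : ∑ x ∈ I \ (C₁ ∪ C₂), a x * ph x ≤ e1 * ∑ x ∈ C₁ ∪ C₂, a x) (tune : ∑ x ∈ C₂, a x ≤ e2 * ∑ x ∈ C₁, a x) :
    ∑ y ∈ J \ (D₁ ∪ D₂), a' y * ph' y ≤ L * (ε * (1 + R * e2) + Lk * (e1 * (1 + e2))) * ∑ y ∈ D₁, a' y ∧
      ∑ y ∈ D₂, a' y ≤ L * (ε + L * R * e2 + M * Lk * (e1 * (1 + e2))) * ∑ y ∈ D₁, a' y := by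
  have hK0 := h.K0
  have hA1 := h.A10
  have hA2 := h.A20
  have hL := h.L0
  have hLk := h.Lk0
  have hM := h.M0
  have hR := h.R0
  have hε := h.ε0
  have hC : C₁ ∪ C₂ ⊆ I := union_subset h.CI1 h.CI2
  obtain ⟨s, hs⟩ : ∃ s : ℝ, s = ∑ x ∈ C₁, a x := ⟨_, rfl⟩
  have hs0 : 0 ≤ s := hs ▸ sum_nonneg fun x _ => a0 x
  have hs2 : ∑ x ∈ C₂, a x ≤ e2 * s := by rw [hs]; exact tune
  have hoff : ∑ x ∈ I \ (C₁ ∪ C₂), a x * ph x ≤ e1 * ((1 + e2) * s) := by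
    refine off.trans (mul_le_mul_of_nonneg_left ?_ he1)
    rw [sum_union h.dC, ← hs]
    linarith
  -- the size of the image
  have hlow : A₁ * s ≤ L * ∑ y ∈ D₁, a' y := by
    have e : ∑ y ∈ D₁, a' y = ∑ x ∈ I, a x * ∑ y ∈ D₁, K x y := by
      rw [sum_congr rfl fun y hy => ha y (h.DJ1 hy), sum_comm]
      exact sum_congr rfl fun x _ => by rw [mul_sum]
    rw [e, hs, mul_sum, mul_sum]
    refine le_trans (sum_le_sum fun x hx => ?_) (sum_le_sum_of_subset_of_nonneg h.CI1 fun x _ _ =>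
      mul_nonneg hL (mul_nonneg (a0 x) (sum_nonneg fun y _ => hK0 x y)))
    have := mul_le_mul_of_nonneg_right (h.lo1 x hx) (a0 x)
    linarith
  -- the splitting of a sum over the starts
  have split : ∀ (T : Finset ℤ) (g : ℤ → ℝ) (u1 u2 u3 : ℝ), 0 ≤ u2 → 0 ≤ u3 → (∀ y ∈ T, y ∈ J) →
      (∀ x ∈ C₁, ∑ y ∈ T, K x y * g y ≤ u1) → (∀ x ∈ C₂, ∑ y ∈ T, K x y * g y ≤ u2) →
      (∀ x ∈ I, x ∉ C₁ ∪ C₂ → ∑ y ∈ T, K x y * g y ≤ u3 * ph x) →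
      ∑ y ∈ T, a' y * g y ≤ u1 * s + u2 * (e2 * s) + u3 * (e1 * ((1 + e2) * s)) := by
    intro T g u1 u2 u3 hu2 hu3 hT g1 g2 g3
    have e : ∑ y ∈ T, a' y * g y = ∑ x ∈ I, a x * ∑ y ∈ T, K x y * g y := by
      calc ∑ y ∈ T, a' y * g y = ∑ y ∈ T, ∑ x ∈ I, a x * (K x y * g y) := by
            refine sum_congr rfl fun y hy => ?_
            rw [ha y (hT y hy), sum_mul]
            exact sum_congr rfl fun x _ => by ring
        _ = ∑ x ∈ I, ∑ y ∈ T, a x * (K x y * g y) := sum_comm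
        _ = _ := sum_congr rfl fun x _ => by rw [mul_sum]
    rw [e, ← sum_sdiff hC, sum_union h.dC]
    have t1 : ∑ x ∈ C₁, a x * ∑ y ∈ T, K x y * g y ≤ u1 * s := by
      rw [hs, mul_sum]
      refine sum_le_sum fun x hx => ?_
      have := mul_le_mul_of_nonneg_left (g1 x hx) (a0 x)
      linarith
    have t2 : ∑ x ∈ C₂, a x * ∑ y ∈ T, K x y * g y ≤ u2 * (e2 * s) := by
      refine le_trans ?_ (mul_le_mul_of_nonneg_left hs2 hu2)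
      rw [mul_sum]
      refine sum_le_sum fun x hx => ?_
      have := mul_le_mul_of_nonneg_left (g2 x hx) (a0 x)
      linarith
    have t3 : ∑ x ∈ I \ (C₁ ∪ C₂), a x * ∑ y ∈ T, K x y * g y ≤ u3 * (e1 * ((1 + e2) * s)) := by
      refine le_trans ?_ (mul_le_mul_of_nonneg_left hoff hu3)
      rw [mul_sum]
      refine sum_le_sum fun x hx => ?_
      have := mul_le_mul_of_nonneg_left (g3 x (mem_sdiff.1 hx).1 (mem_sdiff.1 hx).2) (a0 x)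
      linarith
    linarith
  constructor
  · have k1 := split (J \ (D₁ ∪ D₂)) ph' (ε * A₁) (ε * (R * A₁)) (Lk * A₁) (by positivity) (by positivity)
      (fun y hy => (mem_sdiff.1 hy).1) h.of1
      (fun x hx => (h.of2 x hx).trans (mul_le_mul_of_nonneg_left h.r21 hε))
      (fun x hx hx' => by
        refine (sum_le_sum_of_subset_of_nonneg sdiff_subset fun y _ _ => mul_nonneg (hK0 x y) (h.p0 y)).trans
          ((h.out1 x hx hx').trans (le_of_eq ?_))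
        ring)
    refine k1.trans ?_
    have k2 := mul_le_mul_of_nonneg_left hlow (show 0 ≤ ε * (1 + R * e2) + Lk * (e1 * (1 + e2)) by positivity)
    calc ε * A₁ * s + ε * (R * A₁) * (e2 * s) + Lk * A₁ * (e1 * ((1 + e2) * s))
        = (ε * (1 + R * e2) + Lk * (e1 * (1 + e2))) * (A₁ * s) := by ring
      _ ≤ _ := k2
      _ = _ := by ring
  · have k1 := split D₂ (fun _ => 1) (ε * A₁) (L * (R * A₁)) (M * Lk * A₁) (by positivity) (by positivity)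
      (fun y hy => h.DJ2 hy) (fun x hx => by
        simp only [mul_one]
        exact h.cr1 x hx)
      (fun x hx => by
        simp only [mul_one]
        exact (h.up2 x hx).trans (mul_le_mul_of_nonneg_left h.r21 hL))
      (fun x hx hx' => by
        calc ∑ y ∈ D₂, K x y * 1 ≤ ∑ y ∈ D₂, M * (K x y * ph' y) := by
              refine sum_le_sum fun y hy => ?_
              have := mul_le_mul_of_nonneg_left (h.inD y (mem_union_right _ hy)) (hK0 x y)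
              linarith
          _ ≤ ∑ y ∈ J, M * (K x y * ph' y) := sum_le_sum_of_subset_of_nonneg h.DJ2 fun y _ _ =>
              mul_nonneg hM (mul_nonneg (hK0 x y) (h.p0 y))
          _ = M * ∑ y ∈ J, K x y * ph' y := by rw [mul_sum]
          _ ≤ M * (Lk * ph x * A₁) := mul_le_mul_of_nonneg_left (h.out1 x hx hx') hM
          _ = _ := by ring)
    simp only [mul_one] at k1
    refine k1.trans ?_
    have k2 := mul_le_mul_of_nonneg_left hlow (show 0 ≤ ε + L * R * e2 + M * Lk * (e1 * (1 + e2)) by positivity)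
    calc ε * A₁ * s + L * (R * A₁) * (e2 * s) + M * Lk * A₁ * (e1 * ((1 + e2) * s))
        = (ε + L * R * e2 + M * Lk * (e1 * (1 + e2))) * (A₁ * s) := by ring
      _ ≤ _ := k2
      _ = _ := by ring

/-- **THE SEAM AFTER THE LANES.** -/
theorem Psh.seam {b b' : ℤ → ℝ} (h : Psh I J C₁ C₂ D₁ D₂ K ph ph' A₁ A₂ L Lk M R ε) (a0 : ∀ x, 0 ≤ a x) (b0 : ∀ x, 0 ≤ b x)
    (ha : ∀ y ∈ J, a' y = ∑ x ∈ I, a x * K x y) (hb : ∀ y ∈ J, b' y = ∑ x ∈ I, b x * K x y) (he1 : 0 ≤ e1) (he2 : 0 ≤ e2)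
    (hI : SeamI I C₁ C₂ a b ph e1 e2) {e1' e2' : ℝ} (h1 : L * (ε * (1 + R * e2) + Lk * (e1 * (1 + e2))) ≤ e1')
    (h2 : L * (ε + L * R * e2 + M * Lk * (e1 * (1 + e2))) ≤ e2') (dD : Disjoint D₁ D₂) :
    SeamI J D₁ D₂ a' b' ph' e1' e2' := by
  have hL := h.L0
  have hLk := h.Lk0
  have hR := h.R0
  have hε := h.ε0
  have aJ : ∀ y ∈ J, 0 ≤ a' y := fun y hy => by
    rw [ha y hy]
    exact sum_nonneg fun x _ => mul_nonneg (a0 x) (h.K0 x y)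
  have bJ : ∀ y ∈ J, 0 ≤ b' y := fun y hy => by
    rw [hb y hy]
    exact sum_nonneg fun x _ => mul_nonneg (b0 x) (h.K0 x y)
  have hI' : ∑ x ∈ I \ (C₂ ∪ C₁), b x * ph x ≤ e1 * ∑ x ∈ C₂ ∪ C₁, b x := by
    rw [union_comm]
    exact hI.offb
  obtain ⟨u1, u2⟩ := h.one a0 ha he1 he2 hI.offa hI.ta
  obtain ⟨v1, v2⟩ := h.symm.one b0 hb he1 he2 hI' hI.tb
  have z1 : 0 ≤ L * (ε * (1 + R * e2) + Lk * (e1 * (1 + e2))) := by positivity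
  have sa1 : 0 ≤ ∑ y ∈ D₁, a' y := sum_nonneg fun y hy => aJ y (h.DJ1 hy)
  have sa2 : 0 ≤ ∑ y ∈ D₂, a' y := sum_nonneg fun y hy => aJ y (h.DJ2 hy)
  have sb1 : 0 ≤ ∑ y ∈ D₁, b' y := sum_nonneg fun y hy => bJ y (h.DJ1 hy)
  have sb2 : 0 ≤ ∑ y ∈ D₂, b' y := sum_nonneg fun y hy => bJ y (h.DJ2 hy)
  refine ⟨?_, ?_, u2.trans (mul_le_mul_of_nonneg_right h2 sa1), v2.trans (mul_le_mul_of_nonneg_right h2 sb2)⟩
  · refine u1.trans ?_
    rw [sum_union dD]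
    refine mul_le_mul h1 (by linarith) sa1 (z1.trans h1)
  · rw [union_comm D₂ D₁] at v1
    refine v1.trans ?_
    rw [sum_union dD]
    refine mul_le_mul h1 (by linarith) sb2 (z1.trans h1)

/-! ### The masses of the model -/

variable {w : ℕ → ℤ → ℝ} {p : ℕ → ℝ} {l r : ℤ → ℝ} {X lo hi : ℤ} {N : ℕ}

/-- The forward masses are pushed by the kernel. -/
theorem fw_push83 {m : ℤ → ℝ} (hm : ∀ y, y < lo → m y = 0) (i n : ℕ) {y : ℤ} (hy : y ∈ Icc lo hi) :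
    fw w p m (i + n) y = ∑ x ∈ Icc lo hi, fw w p m i x * ker w p i n x y := by
  have hy' := mem_Icc.1 hy
  rw [fw_ker]
  have e1 : ∑ x ∈ Icc (y - (n : ℤ)) y, fw w p m i x * ker w p i n x y =
      ∑ x ∈ (Icc (y - (n : ℤ)) y).filter (fun x => lo ≤ x), fw w p m i x * ker w p i n x y := by
    rw [sum_filter]
    refine sum_congr rfl fun x _ => ?_
    split_ifs with h1
    · rfl
    · rw [fw_lo hm i x (by omega), zero_mul]
  have e2 : ∑ x ∈ Icc lo hi, fw w p m i x * ker w p i n x y =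
      ∑ x ∈ (Icc lo hi).filter (fun x => y - n ≤ x ∧ x ≤ y), fw w p m i x * ker w p i n x y := by
    rw [sum_filter]
    refine sum_congr rfl fun x _ => ?_
    split_ifs with h1
    · rfl
    · rw [ker_eq_zero i n x y (fun hc => h1 ⟨by omega, hc.1⟩), mul_zero]
  rw [e1, e2]
  refine sum_congr ?_ fun _ _ => rfl
  ext x
  simp only [mem_filter, mem_Icc]
  omega

/-- **The seam of the model after the lanes.** `Kn` = the kernel in any normalisation, `u` = the weights of the seam rows in it: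
`ker x y = Λ * Kn x y * u' y` on the box. -/
theorem seam_fw83 (hw : ∀ k y, 0 < w k y) (hp : ∀ k, 0 < p k) (h : Box l r X lo hi N) {i n : ℕ} {Λ : ℝ} (hΛ : 0 < Λ)
    (hP : Psh (Icc lo hi) (Icc lo hi) C₁ C₂ D₁ D₂ (fun x y => ker w p i n x y / Λ) ph ph' A₁ A₂ L Lk M R ε)
    (he1 : 0 ≤ e1) (he2 : 0 ≤ e2) (hI : SeamI (Icc lo hi) C₁ C₂ (fw w p l i) (fw w p r i) ph e1 e2) {e1' e2' : ℝ}
    (h1 : L * (ε * (1 + R * e2) + Lk * (e1 * (1 + e2))) ≤ e1')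
    (h2 : L * (ε + L * R * e2 + M * Lk * (e1 * (1 + e2))) ≤ e2') (dD : Disjoint D₁ D₂) :
    SeamI (Icc lo hi) D₁ D₂ (fw w p l (i + n)) (fw w p r (i + n)) ph' e1' e2' := by
  have a0 : ∀ x, 0 ≤ fw w p l i x := fw_nonneg hw hp h.g.l0 i
  have b0 : ∀ x, 0 ≤ fw w p r i x := fw_nonneg hw hp h.g.r0 i
  have key : ∀ m : ℤ → ℝ, (∀ y, y < lo → m y = 0) → ∀ y ∈ Icc lo hi, fw w p m (i + n) y / Λ =
      ∑ x ∈ Icc lo hi, fw w p m i x * (ker w p i n x y / Λ) := by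
    intro m hm y hy
    rw [fw_push83 hm i n hy, sum_div]
    exact sum_congr rfl fun x _ => by rw [mul_div_assoc]
  have hS := hP.seam (a' := fun y => fw w p l (i + n) y / Λ) (b' := fun y => fw w p r (i + n) y / Λ) a0 b0
    (key l fun y hy => (h.lo0 y hy).1) (key r fun y hy => (h.lo0 y hy).2) he1 he2 hI h1 h2 dD
  have sc : ∀ (f g : ℤ → ℝ) (S T : Finset ℤ) (c : ℝ), ∑ y ∈ S, f y / Λ * g y ≤ c * ∑ y ∈ T, f y / Λ →
      ∑ y ∈ S, f y * g y ≤ c * ∑ y ∈ T, f y := by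
    intro f g S T c hh
    have e3 : ∑ y ∈ S, f y / Λ * g y = (∑ y ∈ S, f y * g y) / Λ := by
      rw [sum_div]
      exact sum_congr rfl fun y _ => by ring
    rw [e3, ← sum_div, ← mul_div_assoc, div_le_div_iff_of_pos_right hΛ] at hh
    exact hh
  have sc' : ∀ (f : ℤ → ℝ) (S T : Finset ℤ) (c : ℝ), ∑ y ∈ S, f y / Λ ≤ c * ∑ y ∈ T, f y / Λ →
      ∑ y ∈ S, f y ≤ c * ∑ y ∈ T, f y := by
    intro f S T c hh
    rw [← sum_div, ← sum_div, ← mul_div_assoc, div_le_div_iff_of_pos_right hΛ] at hh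
    exact hh
  exact ⟨sc _ _ _ _ _ hS.offa, sc _ _ _ _ _ hS.offb, sc' _ _ _ _ hS.ta, sc' _ _ _ _ hS.tb⟩

end

end Pool.Agent.W_7d29a1_C1.S83
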