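import Pool.Agent.W_7d29a1_C1.SeaN12

/-!
MP_7d29a1_pr, [C1] attractor route, SHELL: **P1, from the edge row `i` of the outer ball to the seam row `i + n + 1`.** (helper12)

The fresh rows of P1 are `(i, i + n]`; `st12 nk p` = the kernel and one more step, so `fw (i + n + 1) y = Λ * push (st12 nk) (fw i * wt i) y`
without any weight of the row `i + n + 1` (`real12S`). `step12`: lanes and walls of `nk` give lanes and walls of `st12 nk`, the cells grow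
by one column on the right. `seamA12`: SeamIn for a kernel `K` with `a y = Λ * push K f y`.
-/

set_option autoImplicit false

namespace Pool.Agent.W_7d29a1_C1.S12

open Finset
open Pool.Agent.W_7d29a1_F (Env)
open Pool.Agent.W_7d29a1_C1.K91P (fw fw_nonneg fw_lo)
open Pool.Agent.W_7d29a1_C1.K91 (wt wt_pos)
open Pool.Agent.W_7d29a1_C1.FarW89 (nk nk_nonneg nk_eq_zero)
open Pool.Agent.W_7d29a1_C1.D31 (fsum DP31)

noncomputable section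

/-- The kernel and one more step. -/
def st12 (k : ℤ → ℤ → ℝ) (p : ℝ) (x y : ℤ) : ℝ := k x y + p * k x (y - 1)

theorem st12_nonneg {k : ℤ → ℤ → ℝ} {p : ℝ} (hk : ∀ x y, 0 ≤ k x y) (hp : 0 ≤ p) (x y : ℤ) : 0 ≤ st12 k p x y :=
  add_nonneg (hk x y) (mul_nonneg hp (hk x (y - 1)))

/-- **One more step** : lanes and walls; the cells grow by one column. -/
theorem step12 {K : ℤ → ℤ → ℝ} {I J J' W Wy Wy' P₁ P₂ : Finset ℤ} {A₁ A₂ B₁ B₂ r' : ℤ} {dl ep p : ℝ}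
    (h : Ln12 K I J W Wy P₁ P₂ (Icc (B₁ - r') (B₁ + r')) (Icc (B₂ - r') (B₂ + r')) A₁ A₂ B₁ B₂ dl ep) (hp : 0 ≤ p)
    (e1 : ep ≤ dl * K A₁ B₁) (e2 : ep ≤ dl * K A₂ B₂) (hW : ∀ y ∈ Wy', y ∈ Wy ∧ y - 1 ∈ Wy)
    (hQ1 : Icc (B₁ - r') (B₁ + r' + 1) ⊆ Wy') (hQ2 : Icc (B₂ - r') (B₂ + r' + 1) ⊆ Wy') (hJ : Wy' ⊆ J')
    (hQQ : Disjoint (Icc (B₁ - r') (B₁ + r' + 1)) (Icc (B₂ - r') (B₂ + r' + 1))) :
    Ln12 (st12 K p) I J' W Wy' P₁ P₂ (Icc (B₁ - r') (B₁ + r' + 1)) (Icc (B₂ - r') (B₂ + r' + 1)) A₁ A₂ B₁ B₂ ((1 + p) * dl)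
      ((1 + p) * ep) ∧ K A₁ B₁ ≤ st12 K p A₁ B₁ ∧ K A₂ B₂ ≤ st12 K p A₂ B₂ ∧ st12 K p A₁ B₁ ≤ (1 + p * dl) * K A₁ B₁ ∧
      st12 K p A₂ B₂ ≤ (1 + p * dl) * K A₂ B₂ := by
  have lo : ∀ x y, K x y ≤ st12 K p x y := fun x y => by
    have := mul_nonneg hp (h.K0 x (y - 1))
    unfold st12
    linarith
  have q1 : ∀ y, y ∈ Icc (B₁ - r') (B₁ + r') → y ∈ Icc (B₁ - r') (B₁ + r' + 1) := fun y hy => by
    rw [mem_Icc] at hy ⊢
    omega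
  have q2 : ∀ y, y ∈ Icc (B₂ - r') (B₂ + r') → y ∈ Icc (B₂ - r') (B₂ + r' + 1) := fun y hy => by
    rw [mem_Icc] at hy ⊢
    omega
  have q1' : ∀ y, y - 1 ∈ Icc (B₁ - r') (B₁ + r') → y ∈ Icc (B₁ - r') (B₁ + r' + 1) := fun y hy => by
    rw [mem_Icc] at hy ⊢
    omega
  have q2' : ∀ y, y - 1 ∈ Icc (B₂ - r') (B₂ + r') → y ∈ Icc (B₂ - r') (B₂ + r' + 1) := fun y hy => by
    rw [mem_Icc] at hy ⊢
    omega
  -- in the cells
  have c1 : ∀ x ∈ P₁, ∀ y ∈ Icc (B₁ - r') (B₁ + r' + 1), K x y ≤ dl * K A₁ B₁ ∧ K x (y - 1) ≤ dl * K A₁ B₁ := by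
    intro x hx y hy
    have hy2 : y ∉ Icc (B₂ - r') (B₂ + r' + 1) := fun h2 => disjoint_left.1 hQQ hy h2
    have w := hW y (hQ1 hy)
    constructor
    · by_cases h1 : y ∈ Icc (B₁ - r') (B₁ + r')
      · exact h.in1 x hx y h1
      · exact (h.wall x (h.P1 hx) y w.1 (fun h3 => h1 h3.2) (fun h3 => hy2 (q2 y h3.2))).trans e1
    · by_cases h1 : y - 1 ∈ Icc (B₁ - r') (B₁ + r')
      · exact h.in1 x hx (y - 1) h1
      · exact (h.wall x (h.P1 hx) (y - 1) w.2 (fun h3 => h1 h3.2) (fun h3 => hy2 (q2' y h3.2))).trans e1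
  have c2 : ∀ x ∈ P₂, ∀ y ∈ Icc (B₂ - r') (B₂ + r' + 1), K x y ≤ dl * K A₂ B₂ ∧ K x (y - 1) ≤ dl * K A₂ B₂ := by
    intro x hx y hy
    have hy2 : y ∉ Icc (B₁ - r') (B₁ + r' + 1) := fun h2 => disjoint_left.1 hQQ h2 hy
    have w := hW y (hQ2 hy)
    constructor
    · by_cases h1 : y ∈ Icc (B₂ - r') (B₂ + r')
      · exact h.in2 x hx y h1
      · exact (h.wall x (h.P2 hx) y w.1 (fun h3 => hy2 (q1 y h3.2)) (fun h3 => h1 h3.2)).trans e2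
    · by_cases h1 : y - 1 ∈ Icc (B₂ - r') (B₂ + r')
      · exact h.in2 x hx (y - 1) h1
      · exact (h.wall x (h.P2 hx) (y - 1) w.2 (fun h3 => hy2 (q1' y h3.2)) (fun h3 => h1 h3.2)).trans e2
  have m1 : B₁ ∈ Icc (B₁ - r') (B₁ + r' + 1) := q1 _ h.m1
  have m2 : B₂ ∈ Icc (B₂ - r') (B₂ + r' + 1) := q2 _ h.m2
  refine ⟨⟨st12_nonneg h.K0 hp, h.k1.trans_le (lo _ _), h.k2.trans_le (lo _ _), mul_nonneg (by linarith) h.dl0,
    mul_nonneg (by linarith) h.ep0, h.y1, h.y2, m1, m2, h.P1, h.P2, h.WI, hQ1, hQ2, hJ, hQQ, ?_, ?_, ?_⟩, lo _ _, lo _ _, ?_, ?_⟩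
  · intro x hx y hy
    have h1 := c1 x hx y hy
    have h2 := mul_le_mul_of_nonneg_left h1.2 hp
    have h3 := mul_le_mul_of_nonneg_left (lo A₁ B₁) (mul_nonneg (show 0 ≤ 1 + p by linarith) h.dl0)
    unfold st12 at h3 ⊢
    linarith [h1.1]
  · intro x hx y hy
    have h1 := c2 x hx y hy
    have h2 := mul_le_mul_of_nonneg_left h1.2 hp
    have h3 := mul_le_mul_of_nonneg_left (lo A₂ B₂) (mul_nonneg (show 0 ≤ 1 + p by linarith) h.dl0)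
    unfold st12 at h3 ⊢
    linarith [h1.1]
  · intro x hx y hy h1 h2
    have w := hW y hy
    have g1 := h.wall x hx y w.1 (fun h3 => h1 ⟨h3.1, q1 y h3.2⟩) (fun h3 => h2 ⟨h3.1, q2 y h3.2⟩)
    have g2 := h.wall x hx (y - 1) w.2 (fun h3 => h1 ⟨h3.1, q1' y h3.2⟩) (fun h3 => h2 ⟨h3.1, q2' y h3.2⟩)
    have g3 := mul_le_mul_of_nonneg_left g2 hp
    unfold st12
    linarith
  · have h1 := mul_le_mul_of_nonneg_left (c1 A₁ h.y1 B₁ m1).2 hp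
    unfold st12
    linarith
  · have h1 := mul_le_mul_of_nonneg_left (c2 A₂ h.y2 B₂ m2).2 hp
    unfold st12
    linarith

/-- The difference of the levels after one more step. -/
theorem diff12 {k1 k2 s1 s2 t d D : ℝ} (h1 : 0 < k1) (h2 : 0 < k2) (hD : 0 < D) (a1 : k1 ≤ s1) (a2 : k2 ≤ s2) (b1 : s1 ≤ D * k1)
    (b2 : s2 ≤ D * k2) (h : |Real.log k1 - Real.log k2 - t| ≤ d) : |Real.log s1 - Real.log s2 - t| ≤ d + Real.log D := by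
  have l1 := Real.log_le_log h1 a1
  have l2 := Real.log_le_log h2 a2
  have u1 := Real.log_le_log (h1.trans_le a1) b1
  have u2 := Real.log_le_log (h2.trans_le a2) b2
  rw [Real.log_mul hD.ne' h1.ne'] at u1
  rw [Real.log_mul hD.ne' h2.ne'] at u2
  rw [abs_le] at h ⊢
  constructor <;> linarith [h.1, h.2]

/-- **The real profile at the seam row `i + n + 1`.** -/
theorem real12S {μ : MeasureTheory.Measure ℝ} {s h : ℝ} {η : Env} {p : ℕ → ℝ} {M : ℕ} {l : ℤ → ℝ} {lo hi h' : ℤ}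
    (hlo : ∀ y, y < lo → l y = 0) (hh : h' ≤ hi) (i n : ℕ) {y : ℤ} (hy : y ∈ Icc lo h') :
    fw (wt η) p l (i + n + 1) y =
      Lam12 μ s h M i n * push (Icc lo hi) (st12 (nk μ s h η p M i n) (p (i + n))) (fun x => fw (wt η) p l i x * wt η i x) y := by
  have e1 : fw (wt η) p l (i + n + 1) y = wt η (i + n) y * fw (wt η) p l (i + n) y +
      p (i + n) * (wt η (i + n) (y - 1) * fw (wt η) p l (i + n) (y - 1)) := rfl
  have e2 := real12 (μ := μ) (s := s) (h := h) (η := η) (p := p) (M := M) hlo hh i n hy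
  have e3 : fw (wt η) p l (i + n) (y - 1) * wt η (i + n) (y - 1) =
      Lam12 μ s h M i n * push (Icc lo hi) (nk μ s h η p M i n) (fun x => fw (wt η) p l i x * wt η i x) (y - 1) := by
    rw [mem_Icc] at hy
    rcases hy.1.lt_or_eq with h1 | h1
    · exact real12 hlo hh i n (mem_Icc.2 ⟨by omega, by omega⟩)
    · rw [fw_lo hlo (i + n) (y - 1) (by omega), zero_mul]
      unfold push
      rw [sum_eq_zero, mul_zero]
      intro x hx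
      rw [mem_Icc] at hx
      rw [nk_eq_zero i n (fun h2 => by omega), mul_zero]
  have e4 : push (Icc lo hi) (st12 (nk μ s h η p M i n) (p (i + n))) (fun x => fw (wt η) p l i x * wt η i x) y =
      push (Icc lo hi) (nk μ s h η p M i n) (fun x => fw (wt η) p l i x * wt η i x) y +
        p (i + n) * push (Icc lo hi) (nk μ s h η p M i n) (fun x => fw (wt η) p l i x * wt η i x) (y - 1) := by
    unfold push st12
    rw [mul_sum, ← sum_add_distrib]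
    exact sum_congr rfl fun x _ => by ring
  rw [e1, e4, mul_add]
  calc wt η (i + n) y * fw (wt η) p l (i + n) y + p (i + n) * (wt η (i + n) (y - 1) * fw (wt η) p l (i + n) (y - 1))
      = fw (wt η) p l (i + n) y * wt η (i + n) y + p (i + n) * (fw (wt η) p l (i + n) (y - 1) * wt η (i + n) (y - 1)) := by ring
    _ = _ := by
      rw [e2, e3]
      ring

variable {I : Finset ℤ} {cen cen' Wr : ℝ} {kap K : ℤ → ℤ → ℝ} {yl yr yp : ℤ} {q gf b : ℝ} {F θ L R : ℤ → ℝ}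

/-- **SeamIn, for a kernel** `K` with `al y = Λ * push K fl y`, `ar y = Λ * push K fr y` (no weights of the seam row). -/
theorem seamA12 {Wy P₁ P₂ : Finset ℤ} {lo h' a1 b1 a2 b2 A₁ A₂ B₁ B₂ : ℤ} {dl ep q₁ : ℝ}
    (oL : One12 I cen cen' Wr kap yl yp q gf L F) (oR : One12 I cen cen' Wr kap yr yp q gf R F)
    (hLn : Ln12 K I (Icc lo h') (win I cen Wr) Wy P₁ P₂ (Icc a1 b1) (Icc a2 b2) A₁ A₂ B₁ B₂ dl ep)
    (hyL : L yl ≤ Real.exp q₁ * (L A₁ * θ A₁)) (hyR : R yr ≤ Real.exp q₁ * (R A₂ * θ A₂))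
    {u v th : ℝ} (hu : ∀ x ∈ P₂, L x * θ x ≤ Real.exp u * (L A₁ * θ A₁)) (hv : ∀ x ∈ P₁, R x * θ x ≤ Real.exp v * (R A₂ * θ A₂))
    (d1 : Real.exp u * K A₂ B₂ ≤ th * K A₁ B₁) (d2 : Real.exp v * K A₁ B₁ ≤ th * K A₂ B₂) (hθ0 : ∀ x, 0 < θ x)
    (θw : ∀ x ∈ win I cen Wr, Real.exp (-b) ≤ θ x ∧ θ x ≤ Real.exp b)
    {S : Finset ℤ} {kp K5 : ℤ → ℤ → ℝ} {G : ℤ → ℝ} {mp : ℤ} {e0 κ₀ ef' e e' : ℝ} (he0 : 0 ≤ e0)
    (comp : ∀ x ∈ I, ∀ z' ∈ I, ∑ y ∈ Icc lo h' \ (Icc a1 b1 ∪ Icc a2 b2), K x y * (∑ z ∈ S, kp y z * K5 z z') ≤ kap x z' / θ x)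
    (near : ∀ x ∈ win I cen Wr, ∀ z' ∈ win I cen' Wr,
      ∑ y ∈ Icc lo h' \ (Icc a1 b1 ∪ Icc a2 b2), K x y * (∑ z ∈ S, kp y z * K5 z z') ≤ e0)
    (hkap : ∀ x z, 0 ≤ kap x z) (hκ₀ : 0 < κ₀) (cov : ∀ x ∈ I, ∀ y ∈ Icc a1 b1 ∪ Icc a2 b2, K x y * κ₀ ≤ kap x yp / θ x)
    (hG : ∀ z ∈ S, G z = ∑ z' ∈ I, K5 z z' * F z') (hK5 : ∀ z z', 0 ≤ K5 z z') (hmp : mp ∈ S) (k5 : 0 < K5 mp yp)
    (he : 0 ≤ e) (he' : 0 ≤ e')
    (n1 : ((Icc a2 b2).card : ℝ) * Real.exp (-gf + q₁) ≤ ef' * (κ₀ * K A₁ B₁))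
    (n2 : ((Icc a1 b1).card : ℝ) * Real.exp (-gf + q₁) ≤ ef' * (κ₀ * K A₂ B₂))
    (n3 : e2c (win I cen Wr) P₂ (Icc a2 b2) (K A₁ B₁) (Real.exp (q + 2 * b)) dl ep ef' th ≤ e')
    (n4 : e2c (win I cen Wr) P₁ (Icc a1 b1) (K A₂ B₂) (Real.exp (q + 2 * b)) dl ep ef' th ≤ e')
    (n5 : Real.exp (-gf + q₁) + (win I cen Wr).card * (win I cen' Wr).card * (Real.exp (q + 2 * b) * Real.exp q * e0) ≤
      e * (K A₁ B₁ * K5 mp yp))
    (n6 : Real.exp (-gf + q₁) + (win I cen Wr).card * (win I cen' Wr).card * (Real.exp (q + 2 * b) * Real.exp q * e0) ≤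
      e * (K A₂ B₂ * K5 mp yp))
    {Λ : ℝ} (hΛ : 0 < Λ) {al ar : ℤ → ℝ} (hal : ∀ y ∈ Icc lo h', al y = Λ * push I K (fun x => L x * θ x) y)
    (har : ∀ y ∈ Icc lo h', ar y = Λ * push I K (fun x => R x * θ x) y)
    {ph : ℤ → ℝ} (hph : ∀ y ∈ Icc lo h' \ (Icc a1 b1 ∪ Icc a2 b2), ph y * G mp ≤ ∑ z ∈ S, kp y z * G z) :
    Sh21.SeamIn lo h' al ar a1 b1 a2 b2 ph e e' := by
  have hA₁ : A₁ ∈ win I cen Wr := hLn.P1 hLn.y1
  have hA₂ : A₂ ∈ win I cen Wr := hLn.P2 hLn.y2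
  have fl := ft12 oL θw hθ0 hA₁ hyL he0 comp near
  have fr := ft12 oR θw hθ0 hA₂ hyR he0 comp near
  have pl := pf12 oL θw hθ0 hA₁ hyL he0 hu d1 comp near hkap hκ₀ (fun x hx y hy => cov x hx y (mem_union_right _ hy)) n1
  have pr := pf12 oR θw hθ0 hA₂ hyR he0 hv d2 comp near hkap hκ₀ (fun x hx y hy => cov x hx y (mem_union_left _ hy)) n2
  have cJ : Icc a1 b1 ∪ Icc a2 b2 ⊆ Icc lo h' := union_subset (hLn.Q1.trans hLn.WJ) (hLn.Q2.trans hLn.WJ)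
  have Gm0 : 0 < G mp := by
    rw [hG mp hmp]
    refine (mul_pos k5 oL.Fp).trans_le (single_le_sum (f := fun z' => K5 mp z' * F z') (fun z' _ => mul_nonneg (hK5 _ _) (oL.F0 _)) oL.pI)
  have t1 := tune12' hLn pl n3 he'
  have t2 := tune12' hLn.symm pr n4 he'
  have o1 := offG12 hLn win_sub fl hG hK5 hmp oL.pI k5 he n5
  have fr' : Ft12 K (fun y z' => ∑ z ∈ S, kp y z * K5 z z') (fun x z => kap x z / θ x) I (Icc lo h') I (win I cen Wr) (win I cen' Wr)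
      (Icc a2 b2 ∪ Icc a1 b1) A₂ yp (fun x => R x * θ x) F (Real.exp (q + 2 * b)) (Real.exp q) (Real.exp (-gf + q₁)) e0 := by
    rw [union_comm]
    exact fr
  have o2 := offG12 hLn.symm win_sub fr' hG hK5 hmp oL.pI k5 he n6
  rw [union_comm (Icc a2 b2)] at o2
  have posL : ∀ y, 0 ≤ push I K (fun x => L x * θ x) y := push_nonneg hLn.K0 fun x => mul_nonneg (oL.X0 x) (hθ0 x).le
  have posR : ∀ y, 0 ≤ push I K (fun x => R x * θ x) y := push_nonneg hLn.K0 fun x => mul_nonneg (oR.X0 x) (hθ0 x).le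
  -- the four sums
  have off : ∀ {a g : ℤ → ℝ}, (∀ y, 0 ≤ g y) → (∀ y ∈ Icc lo h', a y = Λ * g y) →
      ∑ y ∈ Icc lo h' \ (Icc a1 b1 ∪ Icc a2 b2), ∑ z ∈ S, g y * (kp y z * G z) ≤ e * ((∑ y ∈ Icc a1 b1 ∪ Icc a2 b2, g y) * G mp) →
      ∑ y ∈ Icc lo h' \ (Icc a1 b1 ∪ Icc a2 b2), a y * ph y ≤ e * ∑ y ∈ Icc a1 b1 ∪ Icc a2 b2, a y := by
    intro a g hg ha h1
    have e3 : ∑ y ∈ Icc a1 b1 ∪ Icc a2 b2, a y = Λ * ∑ y ∈ Icc a1 b1 ∪ Icc a2 b2, g y := by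
      rw [mul_sum]
      exact sum_congr rfl fun y hy => ha y (cJ hy)
    have e4 : (∑ y ∈ Icc lo h' \ (Icc a1 b1 ∪ Icc a2 b2), a y * ph y) * G mp ≤
        Λ * ∑ y ∈ Icc lo h' \ (Icc a1 b1 ∪ Icc a2 b2), ∑ z ∈ S, g y * (kp y z * G z) := by
      rw [sum_mul, mul_sum]
      refine sum_le_sum fun y hy => ?_
      rw [ha y (mem_sdiff.1 hy).1, ← mul_sum]
      have h2 := mul_le_mul_of_nonneg_left (hph y hy) (mul_nonneg hΛ.le (hg y))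
      linarith
    rw [e3]
    have h3 := mul_le_mul_of_nonneg_left h1 hΛ.le
    have h4 : (∑ y ∈ Icc lo h' \ (Icc a1 b1 ∪ Icc a2 b2), a y * ph y) * G mp ≤
        e * (Λ * ∑ y ∈ Icc a1 b1 ∪ Icc a2 b2, g y) * G mp := by linarith
    exact le_of_mul_le_mul_right h4 Gm0
  have tun : ∀ {a g : ℤ → ℝ} {A B : Finset ℤ}, (∀ y ∈ A ∪ B, a y = Λ * g y) → ∑ y ∈ B, g y ≤ e' * ∑ y ∈ A, g y →
      ∑ y ∈ B, a y ≤ e' * ∑ y ∈ A, a y := by
    intro a g A B ha h1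
    rw [sum_congr rfl fun y hy => ha y (mem_union_right _ hy), sum_congr rfl fun y hy => ha y (mem_union_left _ hy), ← mul_sum,
      ← mul_sum]
    have h2 := mul_le_mul_of_nonneg_left h1 hΛ.le
    linarith
  have ps : ∀ {a g : ℤ → ℝ} {B : Finset ℤ} {c : ℝ}, (∀ y ∈ B, a y = Λ * g y) → 0 < c → c ≤ ∑ y ∈ B, g y → 0 < ∑ y ∈ B, a y := by
    intro a g B c ha hc h1
    rw [sum_congr rfl ha, ← mul_sum]
    exact mul_pos hΛ (hc.trans_le h1)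
  refine ⟨⟨off posL hal o1, off posR har o2, tun (fun y hy => hal y (cJ hy)) t1, tun (fun y hy => har y (cJ ?_)) t2⟩, ?_, ?_⟩
  · rw [union_comm] at hy
    exact hy
  · exact ps (fun y hy => hal y (cJ (mem_union_right _ hy)))
      (mul_pos (mul_pos (oL.pos (mem_win.1 hA₂).2) (hθ0 _)) hLn.k2)
      (main_le (f := fun x => L x * θ x) hLn.symm (fun x => mul_nonneg (oL.X0 x) (hθ0 x).le))
  · exact ps (fun y hy => har y (cJ (mem_union_left _ hy)))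
      (mul_pos (mul_pos (oR.pos (mem_win.1 hA₁).2) (hθ0 _)) hLn.k1)
      (main_le (f := fun x => R x * θ x) hLn (fun x => mul_nonneg (oR.X0 x) (hθ0 x).le))

end

end Pool.Agent.W_7d29a1_C1.S12
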