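import Pool.Agent.W_7d29a1_C1.FreW47
import Pool.Agent.W_7d29a1_C1.SeaP83
import Pool.Agent.W_7d29a1_C1.StA12

/-!
MP_7d29a1_pr, [C1] SHELL, THE FRESH BALL: THE LETTERS OF THE KERNELS AND THE WHOLE DETERMINISTIC CHAIN. (helper47)

Rows `c0 < i = c0' < K = e < c3 ≤ N`. `KM47` : `c0 → i` (rows `[c0, i)`), `K147` : `i → K` (rows `[i, K]`), `K247` : `K → c3` (rows
`(K, c3)`), `B47`, `G47` = profiles at the rows `K`, `c3`; every weight is read once. `w47` : seam at `c0`, the two lanes (`Psh`), inside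
and exit (`Jnt`) give the weight of the box.
-/

set_option autoImplicit false

namespace Pool.Agent.W_7d29a1_C1.Fr47

open Finset
open Pool.Agent.W_7d29a1_F (Env)
open Pool.Agent.W_7d29a1_C1.K91 (Grp Box wt wt_pos)
open Pool.Agent.W_7d29a1_C1.K91P
open Pool.Agent.W_7d29a1_C1.U16 (ker ker_nonneg ker_eq_zero ker_succ)
open Pool.Agent.W_7d29a1_C1.Bx47
open Pool.Agent.W_7d29a1_C1.S83
open Pool.Agent.W_7d29a1_C1.S12 (st12 st12_nonneg Lam12 Lam12_pos)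
open Pool.Agent.W_7d29a1_C1.FarW89 (nk nk_nonneg nk_eq_zero ker_nk)
open Pool.Agent.W_7d29a1_C1.H60

noncomputable section

variable {μ : MeasureTheory.Measure ℝ} {s h : ℝ} {η : Env} {p : ℕ → ℝ} {M : ℕ}

/-- The end weight inside. -/
theorem ker_wt47 (i n : ℕ) (x y : ℤ) : ker (wt η) p i n x y * wt η (i + n) y =
    Lam12 μ s h M i n * (wt η i x * nk μ s h η p M i n x y) := by
  have h1 := (wt_pos η (i + n) y).ne'
  rw [ker_nk (μ := μ) (s := s) (h := h) (M := M)]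
  unfold Lam12
  field_simp

/-- The last step. -/
theorem ker_st47 (i m : ℕ) (x y : ℤ) : ker (wt η) p i (m + 1) x y =
    Lam12 μ s h M i m * (wt η i x * st12 (nk μ s h η p M i m) (p (i + m)) x y) := by
  have h1 := ker_wt47 (μ := μ) (s := s) (h := h) (η := η) (p := p) (M := M) i m x y
  have h2 := ker_wt47 (μ := μ) (s := s) (h := h) (η := η) (p := p) (M := M) i m x (y - 1)
  rw [ker_succ]
  unfold st12
  calc wt η (i + m) y * ker (wt η) p i m x y + p (i + m) * (wt η (i + m) (y - 1) * ker (wt η) p i m x (y - 1))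
      = ker (wt η) p i m x y * wt η (i + m) y + p (i + m) * (ker (wt η) p i m x (y - 1) * wt η (i + m) (y - 1)) := by ring
    _ = _ := by
      rw [h1, h2]
      ring

/-- The kernel of the lanes of the buffer. -/
def KM47 (μ : MeasureTheory.Measure ℝ) (s h : ℝ) (η : Env) (p : ℕ → ℝ) (M c₀ n : ℕ) (x y : ℤ) : ℝ :=
  wt η c₀ x * st12 (nk μ s h η p M c₀ n) (p (c₀ + n)) x y

/-- The kernel of the inside. -/
def K147 (μ : MeasureTheory.Measure ℝ) (s h : ℝ) (η : Env) (p : ℕ → ℝ) (M i n : ℕ) (x y : ℤ) : ℝ :=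
  wt η i x * nk μ s h η p M i n x y

/-- The kernel of the exit. -/
def K247 (μ : MeasureTheory.Measure ℝ) (s h : ℝ) (η : Env) (p : ℕ → ℝ) (M K m : ℕ) (v z : ℤ) : ℝ :=
  st12 (nk μ s h η p M K m) (p (K + m)) v z

/-- The profile behind the inside. -/
def B47 (μ : MeasureTheory.Measure ℝ) (s h : ℝ) (η : Env) (p : ℕ → ℝ) (M N i n : ℕ) (v : ℤ) : ℝ :=
  Lam12 μ s h M i n * (bw (wt η) p (i + n) (N - (i + n)) v / wt η (i + n) v)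

/-- The profile behind the exit. -/
def G47 (μ : MeasureTheory.Measure ℝ) (s h : ℝ) (η : Env) (p : ℕ → ℝ) (M N i n m : ℕ) (z : ℤ) : ℝ :=
  Lam12 μ s h M i n * Lam12 μ s h M (i + n) m * bw (wt η) p (i + n + (m + 1)) (N - (i + n + (m + 1))) z

theorem KM47_nonneg (hp : ∀ k, 0 < p k) (c₀ n : ℕ) (x y : ℤ) : 0 ≤ KM47 μ s h η p M c₀ n x y :=
  mul_nonneg (wt_pos η c₀ x).le (st12_nonneg (fun _ _ => nk_nonneg hp _ _ _ _) (hp _).le x y)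

theorem K147_nonneg (hp : ∀ k, 0 < p k) (i n : ℕ) (x y : ℤ) : 0 ≤ K147 μ s h η p M i n x y :=
  mul_nonneg (wt_pos η i x).le (nk_nonneg hp _ _ _ _)

theorem K247_nonneg (hp : ∀ k, 0 < p k) (i n : ℕ) (x y : ℤ) : 0 ≤ K247 μ s h η p M i n x y :=
  st12_nonneg (fun _ _ => nk_nonneg hp _ _ _ _) (hp _).le x y

theorem K147_zero (i n : ℕ) {x y : ℤ} (hxy : ¬ (x ≤ y ∧ y ≤ x + n)) : K147 μ s h η p M i n x y = 0 := by
  unfold K147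
  rw [nk_eq_zero i n hxy, mul_zero]

theorem K247_zero (i n : ℕ) {x y : ℤ} (hxy : ¬ (x ≤ y ∧ y ≤ x + (n + 1 : ℕ))) : K247 μ s h η p M i n x y = 0 := by
  unfold K247 st12
  rw [nk_eq_zero i n (x := x) (y := y) (by push_cast at hxy; omega), nk_eq_zero i n (x := x) (y := y - 1) (by push_cast at hxy; omega)]
  ring

theorem KM47_zero (i n : ℕ) {x y : ℤ} (hxy : ¬ (x ≤ y ∧ y ≤ x + (n + 1 : ℕ))) : KM47 μ s h η p M i n x y = 0 := by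
  have h1 := K247_zero (μ := μ) (s := s) (h := h) (η := η) (p := p) (M := M) i n hxy
  unfold K247 at h1
  unfold KM47
  rw [h1, mul_zero]

theorem G47_nonneg (hp : ∀ k, 0 < p k) (N i n m : ℕ) (z : ℤ) : 0 ≤ G47 μ s h η p M N i n m z :=
  mul_nonneg (mul_nonneg (Lam12_pos _ _ _).le (Lam12_pos _ _ _).le) (bw_pos (wt_pos η) hp _ _ _).le

theorem G47_pos (hp : ∀ k, 0 < p k) (N i n m : ℕ) (z : ℤ) : 0 < G47 μ s h η p M N i n m z :=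
  mul_pos (mul_pos (Lam12_pos _ _ _) (Lam12_pos _ _ _)) (bw_pos (wt_pos η) hp _ _ _)

/-- `hKB` of `d3K_47`. -/
theorem hKB47 (N i n : ℕ) (x y : ℤ) : ker (wt η) p i n x y * bw (wt η) p (i + n) (N - (i + n)) y =
    K147 μ s h η p M i n x y * B47 μ s h η p M N i n y := by
  have h1 := ker_wt47 (μ := μ) (s := s) (h := h) (η := η) (p := p) (M := M) i n x y
  have h2 := (wt_pos η (i + n) y).ne'
  unfold K147 B47
  calc ker (wt η) p i n x y * bw (wt η) p (i + n) (N - (i + n)) y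
      = (ker (wt η) p i n x y * wt η (i + n) y) * (bw (wt η) p (i + n) (N - (i + n)) y / wt η (i + n) y) := by
        field_simp
    _ = _ := by
      rw [h1]
      ring

/-- `hB` of `d3K_47`. -/
theorem hB47 {N i n m : ℕ} (hN : i + n + (m + 1) ≤ N) {lo hi v : ℤ} (h1 : lo ≤ v) (h2 : v ≤ hi - ((m + 1 : ℕ) : ℤ)) :
    B47 μ s h η p M N i n v = ∑ z ∈ Icc lo hi, K247 μ s h η p M (i + n) m v z * G47 μ s h η p M N i n m z := by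
  have h3 := sum_ker_eq (w := wt η) (p := p) (lo := lo) (hi := hi) (N := N) (i := i + n) (n := m + 1) rfl hN (x := v) h1 (by omega)
  have h4 := (wt_pos η (i + n) v).ne'
  unfold B47 K247 G47
  rw [← h3, sum_div, mul_sum]
  refine sum_congr rfl fun z _ => ?_
  rw [ker_st47 (μ := μ) (s := s) (h := h) (M := M)]
  field_simp

/-- The kernel of the lanes of the buffer with both end weights in single form (rows `c0 .. c0 + n`). -/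
theorem ker_end47 (c₀ n : ℕ) (x y : ℤ) : ker (wt η) p c₀ n x y / Lam12 μ s h M c₀ n = wt η c₀ x * nk μ s h η p M c₀ n x y / wt η (c₀ + n) y := by
  have h1 := ker_wt47 (μ := μ) (s := s) (h := h) (η := η) (p := p) (M := M) c₀ n x y
  have h2 := (wt_pos η (c₀ + n) y).ne'
  have h3 := (Lam12_pos (μ := μ) (s := s) (h := h) M c₀ n).ne'
  rw [div_eq_div_iff h3 h2, h1]
  ring

/-- The same with a last step. -/
theorem ker_KM47 (c₀ n : ℕ) : (fun x y => ker (wt η) p c₀ (n + 1) x y / Lam12 μ s h M c₀ n) = KM47 μ s h η p M c₀ n := by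
  funext x y
  rw [ker_st47 (μ := μ) (s := s) (h := h) (M := M), mul_div_cancel_left₀ _ (Lam12_pos _ _ _).ne']
  rfl

variable {Γ : Cx} {C₁ C₂ β₁ β₂ δ₀ δ δ' : Finset ℤ} {kap kap₂ : ℤ → ℤ → ℝ} {ph : ℤ → ℝ}
  {L Lk Mh R ε A₁ A₂ L₁ L₂ V Φ e4 A₃ A₄ G₀ B₀ Lb Λ : ℝ}

/-- **THE WHOLE DETERMINISTIC CHAIN.** Rows `c₀`, `c₀' = c₀ + n'`, `e = c₀' + n`, `c3 = e + (m + 1)`. -/
theorem w47 (hk : 1 ≤ Γ.k) (hq0 : ∀ j, j < Γ.k → 0 ≤ Γ.q j) (hq1 : ∃ j, j < Γ.k ∧ 0 < Γ.q j) {c₀ n' n m : ℕ}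
    (hN : c₀ + n' + n + (m + 1) ≤ Γ.N) {Q : Finset (ℕ × ℤ)}
    (hQ : Q ⊆ Ico (c₀ + n') (c₀ + n' + n) ×ˢ Icc (0 : ℤ) Γ.hi)
    (hlt : ∀ x ∈ β₁, ∀ x' ∈ β₂, x < x') {e1 e2 : ℝ} (he1 : 0 ≤ e1) (he2 : 0 ≤ e2) (hΛ : 0 < Λ)
    (hS : SeamI (Icc 0 Γ.hi) C₁ C₂ (fw (wt η) Γ.p Cx.l c₀) (fw (wt η) Γ.p Γ.r c₀) ph e1 e2)
    (hP : Psh (Icc 0 Γ.hi) (Icc 0 Γ.hi) C₁ C₂ β₁ β₂ (fun x y => ker (wt η) Γ.p c₀ n' x y / Λ) ph
      (jph (Icc 0 Γ.hi) kap (G47 μ s h η Γ.p M Γ.N (c₀ + n') n m) G₀) A₁ A₂ L Lk Mh R ε)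
    (hJ : Jnt (Icc 0 (Γ.hi - (n + (m + 1) : ℕ))) (Icc 0 (Γ.hi - ((m + 1 : ℕ) : ℤ))) (Icc 0 Γ.hi) (β₁ ∪ β₂) δ₀ δ δ'
      (K147 μ s h η Γ.p M (c₀ + n') n) (K247 μ s h η Γ.p M (c₀ + n' + n) m) kap kap₂
      (G47 μ s h η Γ.p M Γ.N (c₀ + n') n m) L₁ L₂ V Φ e4 A₃ A₄ G₀)
    (up1 : ∀ x ∈ β₁ ∪ β₂, ∑ y ∈ δ, K147 μ s h η Γ.p M (c₀ + n') n x y ≤ L₁ * A₃) (B00 : 0 ≤ B₀) (Lb0 : 0 ≤ Lb)
    (cu : ∀ v ∈ δ, B47 μ s h η Γ.p M Γ.N (c₀ + n') n v ≤ Lb * B₀)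
    (cl : ∀ v ∈ δ₀, B₀ ≤ Lb * B47 μ s h η Γ.p M Γ.N (c₀ + n') n v) {v₀ : ℤ} (hv₀ : v₀ ∈ δ₀)
    {e1' e2' : ℝ} (h1 : L * (ε * (1 + R * e2) + Lk * (e1 * (1 + e2))) ≤ e1')
    (h2 : L * (ε + L * R * e2 + Mh * Lk * (e1 * (1 + e2))) ≤ e2')
    {ε' z z3 : ℝ} (hε' : ε' ≤ 1) (hz3 : z3 = e4 * V * L₁ ^ 2 * L₂ * Φ) (hz3' : z3 ≤ 1 / 2)
    (hz : (2 * L₁ * Lb) ^ 2 * e2' + (L₁ * L₂ ^ 2 * V ^ 2 * Φ * Lb) * (2 * L₁ * Lb) * (e1' * (1 + e2')) + z3 ≤ z) (hz1 : z ≤ 1)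
    (hin : ∀ x ∈ β₁, ∀ x' ∈ β₂, ∀ y ∈ δ, ∀ y' ∈ δ,
      (1 - ε') * (ker (wt η) Γ.p (c₀ + n') n x y * ker (wt η) Γ.p (c₀ + n') n x' y') ≤
        mq (wt η) Γ.p Q (c₀ + n') n x x' y y') :
    (1 - ε') * (1 - 2 * z) ≤ ∑ c ∈ Q, Γ.w c η := by
  have hβ : Disjoint β₁ β₂ := disjoint_left.2 fun x hx hx' => absurd (hlt x hx x hx') (lt_irrefl x)
  have hL := hP.L0
  have hLk := hP.Lk0
  have hR := hP.R0
  have hε := hP.ε0
  have hM := hP.M0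
  have he1' : 0 ≤ e1' := le_trans (by positivity) h1
  have he2' : 0 ≤ e2' := le_trans (by positivity) h2
  have hI : SeamI (Icc 0 Γ.hi) β₁ β₂ (fw (wt η) Γ.p Cx.l (c₀ + n')) (fw (wt η) Γ.p Γ.r (c₀ + n'))
      (jph (Icc 0 Γ.hi) kap (G47 μ s h η Γ.p M Γ.N (c₀ + n') n m) G₀) e1' e2' :=
    seam_fw83 (A₁ := A₁) (A₂ := A₂) (L := L) (Lk := Lk) (M := Mh) (R := R) (ε := ε) (wt_pos η) H83.p_pos (H83.box hk hq0)
      hΛ hP he1 he2 hS h1 h2 hβ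
  exact d3K_Cx hk hq0 hq1 rfl hN hQ hlt hJ
    (fun v hv => hB47 hN (mem_Icc.1 hv).1 (mem_Icc.1 hv).2) (fun x _ y _ => hKB47 _ _ _ x y) up1 B00 Lb0 cu cl hv₀ hε' he1' he2' hz3
    hz3' hz hz1 hin hI

/-- The numbers, in powers of two bases. -/
theorem num47a {x y q r : ℝ} (hx : 1 ≤ x) (hxy : x ≤ y) (hr0 : 0 ≤ r) (hr : r ≤ 1 / 256) (hq : q = r ^ 2)
    {L Lk Mh R ε e1 e2 L₁ L₂ V Φ Lb e4 : ℝ} (hL0 : 0 ≤ L) (hLk0 : 0 ≤ Lk) (hM0 : 0 ≤ Mh) (hR0 : 0 ≤ R) (hL10 : 0 ≤ L₁) (hL20 : 0 ≤ L₂)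
    (hV0 : 0 ≤ V) (hΦ0 : 0 ≤ Φ) (hLb0 : 0 ≤ Lb) (he10 : 0 ≤ e1) (he20 : 0 ≤ e2) (he40 : 0 ≤ e4) (hε0 : 0 ≤ ε)
    (hL : L ≤ x) (hR : R ≤ x) (hL1 : L₁ ≤ x) (hLb : Lb ≤ x)
    (hLk : Lk ≤ y ^ 2) (hMh : Mh ≤ y ^ 2) (hL2 : L₂ ≤ y ^ 2) (hV : V ≤ y) (hΦ : Φ ≤ y)
    (h1 : y ^ 18 * e1 ≤ q) (h4 : y ^ 18 * e4 ≤ q) (hF : y ^ 18 * ε ≤ q) (h2 : x ^ 10 * e2 ≤ r) :
    e4 * V * L₁ ^ 2 * L₂ * Φ ≤ 1 / 2 ∧
    (2 * L₁ * Lb) ^ 2 * (L * (ε + L * R * e2 + Mh * Lk * (e1 * (1 + e2)))) +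
      (L₁ * L₂ ^ 2 * V ^ 2 * Φ * Lb) * (2 * L₁ * Lb) * (L * (ε * (1 + R * e2) + Lk * (e1 * (1 + e2))) *
        (1 + L * (ε + L * R * e2 + Mh * Lk * (e1 * (1 + e2))))) + e4 * V * L₁ ^ 2 * L₂ * Φ ≤ 1 / 16 := by
  have hx0 : 0 ≤ x := by linarith
  have hy : 1 ≤ y := hx.trans hxy
  have hy0 : 0 ≤ y := by linarith
  have hq0 : 0 ≤ q := by rw [hq]; positivity
  have hq1 : q ≤ 1 / 65536 := by
    rw [hq]
    calc r ^ 2 ≤ (1 / 256) ^ 2 := pow_le_pow_left₀ hr0 hr 2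
      _ = _ := by norm_num
  -- powers
  have py : ∀ (k : ℕ) (t : ℝ), k ≤ 18 → 0 ≤ t → y ^ 18 * t ≤ q → y ^ k * t ≤ q := fun k t hk ht h =>
    (mul_le_mul_of_nonneg_right (pow_le_pow_right₀ hy hk) ht).trans h
  have px : ∀ (k : ℕ), k ≤ 10 → x ^ k * e2 ≤ r := fun k hk =>
    (mul_le_mul_of_nonneg_right (pow_le_pow_right₀ hx hk) he20).trans h2
  have he2' : e2 ≤ 1 := by
    have := px 0 (by norm_num)
    simp at this
    linarith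
  have hε' : ε ≤ q := by simpa using py 0 ε (by norm_num) hε0 hF
  -- the term A
  have tA : e4 * V * L₁ ^ 2 * L₂ * Φ ≤ q := by
    calc e4 * V * L₁ ^ 2 * L₂ * Φ ≤ e4 * y * y ^ 2 * y ^ 2 * y := by
          gcongr
          exact hL1.trans hxy
      _ = y ^ 6 * e4 := by ring
      _ ≤ q := py 6 e4 (by norm_num) he40 h4
  -- the inner sums
  have i2 : L * (ε + L * R * e2 + Mh * Lk * (e1 * (1 + e2))) ≤ x * ε + x ^ 3 * e2 + 2 * (x * y ^ 4 * e1) := by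
    calc L * (ε + L * R * e2 + Mh * Lk * (e1 * (1 + e2))) ≤ x * (ε + x * x * e2 + y ^ 2 * y ^ 2 * (e1 * (1 + 1))) := by gcongr
      _ = _ := by ring
  have i2' : 0 ≤ L * (ε + L * R * e2 + Mh * Lk * (e1 * (1 + e2))) := by positivity
  have j1 : x * ε ≤ q := by
    calc x * ε ≤ y ^ 1 * ε := by rw [pow_one]; gcongr
      _ ≤ q := py 1 ε (by norm_num) hε0 hF
  have j2 : x * y ^ 4 * e1 ≤ q := by
    calc x * y ^ 4 * e1 ≤ y * y ^ 4 * e1 := by gcongr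
      _ = y ^ 5 * e1 := by ring
      _ ≤ q := py 5 e1 (by norm_num) he10 h1
  have j3 := px 3 (by norm_num)
  have i2'' : L * (ε + L * R * e2 + Mh * Lk * (e1 * (1 + e2))) ≤ 1 := by linarith
  have i1 : L * (ε * (1 + R * e2) + Lk * (e1 * (1 + e2))) ≤ 2 * (x * ε) + 2 * (x * y ^ 2 * e1) := by
    have hRe : R * e2 ≤ 1 := by
      calc R * e2 ≤ x ^ 1 * e2 := by rw [pow_one]; gcongr
        _ ≤ r := px 1 (by norm_num)
        _ ≤ 1 := by linarith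
    calc L * (ε * (1 + R * e2) + Lk * (e1 * (1 + e2))) ≤ x * (ε * (1 + 1) + y ^ 2 * (e1 * (1 + 1))) := by gcongr
      _ = _ := by ring
  have i1' : 0 ≤ L * (ε * (1 + R * e2) + Lk * (e1 * (1 + e2))) := by positivity
  -- the term B
  have tB : (2 * L₁ * Lb) ^ 2 * (L * (ε + L * R * e2 + Mh * Lk * (e1 * (1 + e2)))) ≤ 4 * q + 4 * r + 8 * q := by
    calc (2 * L₁ * Lb) ^ 2 * (L * (ε + L * R * e2 + Mh * Lk * (e1 * (1 + e2))))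
        ≤ (2 * x * x) ^ 2 * (x * ε + x ^ 3 * e2 + 2 * (x * y ^ 4 * e1)) := by gcongr
      _ = 4 * (x ^ 5 * ε) + 4 * (x ^ 7 * e2) + 8 * (x ^ 5 * y ^ 4 * e1) := by ring
      _ ≤ 4 * (y ^ 5 * ε) + 4 * (x ^ 7 * e2) + 8 * (y ^ 5 * y ^ 4 * e1) := by gcongr
      _ ≤ _ := by
        have k1 := py 5 ε (by norm_num) hε0 hF
        have k2 := px 7 (by norm_num)
        have k3 := py 9 e1 (by norm_num) he10 h1
        have k4 : y ^ 5 * y ^ 4 * e1 = y ^ 9 * e1 := by ring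
        rw [k4]
        linarith
  -- the term C
  have tC : (L₁ * L₂ ^ 2 * V ^ 2 * Φ * Lb) * (2 * L₁ * Lb) * (L * (ε * (1 + R * e2) + Lk * (e1 * (1 + e2))) *
        (1 + L * (ε + L * R * e2 + Mh * Lk * (e1 * (1 + e2))))) ≤ 16 * q := by
    calc (L₁ * L₂ ^ 2 * V ^ 2 * Φ * Lb) * (2 * L₁ * Lb) * (L * (ε * (1 + R * e2) + Lk * (e1 * (1 + e2))) *
        (1 + L * (ε + L * R * e2 + Mh * Lk * (e1 * (1 + e2)))))
        ≤ (y * (y ^ 2) ^ 2 * y ^ 2 * y * y) * (2 * y * y) * ((2 * (y * ε) + 2 * (y * y ^ 2 * e1)) * (1 + 1)) := by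
          have a1 : L₁ ≤ y := hL1.trans hxy
          have a2 : Lb ≤ y := hLb.trans hxy
          have a3 : L * (ε * (1 + R * e2) + Lk * (e1 * (1 + e2))) ≤ 2 * (y * ε) + 2 * (y * y ^ 2 * e1) := by
            refine i1.trans ?_
            gcongr
          gcongr
      _ = 8 * (y ^ 12 * ε) + 8 * (y ^ 14 * e1) := by ring
      _ ≤ _ := by
        have k1 := py 12 ε (by norm_num) hε0 hF
        have k3 := py 14 e1 (by norm_num) he10 h1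
        linarith
  exact ⟨by linarith, by linarith⟩

/-- **The numbers**: `E` = unit of energy of the block, `g1`, `g4`, `gF` = the gains chosen last (unit `E`), `t2` = the tune exponent, `a` = all
the costs which meet the tune error, `b` = all the costs. -/
theorem num47 {E a b g1 g4 gF t2 : ℝ} (hE : 8 ≤ E) (ha : 0 ≤ a) (hab : a ≤ b)
    (k1 : 9 * b + 2 ≤ g1) (k4 : 9 * b + 2 ≤ g4) (kF : 9 * b + 2 ≤ gF) (k2 : 5 * (a * E) + 8 ≤ t2)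
    {L Lk Mh R ε e1 e2 L₁ L₂ V Φ Lb e4 : ℝ} (hL0 : 0 ≤ L) (hLk0 : 0 ≤ Lk) (hM0 : 0 ≤ Mh) (hR0 : 0 ≤ R) (hL10 : 0 ≤ L₁) (hL20 : 0 ≤ L₂)
    (hV0 : 0 ≤ V) (hΦ0 : 0 ≤ Φ) (hLb0 : 0 ≤ Lb) (he10 : 0 ≤ e1) (he20 : 0 ≤ e2) (he40 : 0 ≤ e4) (hε0 : 0 ≤ ε)
    (hL : L ≤ Real.exp (a * E / 2)) (hR : R ≤ Real.exp (a * E / 2)) (hL1 : L₁ ≤ Real.exp (a * E / 2)) (hLb : Lb ≤ Real.exp (a * E / 2))
    (hLk : Lk ≤ Real.exp (b * E)) (hMh : Mh ≤ Real.exp (b * E)) (hL2 : L₂ ≤ Real.exp (b * E)) (hV : V ≤ Real.exp (b * E / 2))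
    (hΦ : Φ ≤ Real.exp (b * E / 2)) (h1 : e1 ≤ Real.exp (-(g1 * E))) (h4 : e4 ≤ Real.exp (-(g4 * E))) (hF : ε ≤ Real.exp (-(gF * E)))
    (h2 : e2 ≤ Real.exp (-t2)) :
    e4 * V * L₁ ^ 2 * L₂ * Φ ≤ 1 / 2 ∧
    (2 * L₁ * Lb) ^ 2 * (L * (ε + L * R * e2 + Mh * Lk * (e1 * (1 + e2)))) +
      (L₁ * L₂ ^ 2 * V ^ 2 * Φ * Lb) * (2 * L₁ * Lb) * (L * (ε * (1 + R * e2) + Lk * (e1 * (1 + e2))) *
        (1 + L * (ε + L * R * e2 + Mh * Lk * (e1 * (1 + e2))))) + e4 * V * L₁ ^ 2 * L₂ * Φ ≤ 1 / 16 := by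
  have hE0 : 0 ≤ E := by linarith
  have e2E : Real.exp (b * E) = Real.exp (b * E / 2) ^ 2 := by
    rw [← Real.exp_nat_mul]
    congr 1
    push_cast
    ring
  have ey : ∀ g t : ℝ, 9 * b + 2 ≤ g → t ≤ Real.exp (-(g * E)) → Real.exp (b * E / 2) ^ 18 * t ≤ Real.exp (-16) := by
    intro g t hg ht
    have h3 := mul_le_mul_of_nonneg_left ht (pow_nonneg (Real.exp_pos (b * E / 2)).le 18)
    refine h3.trans ?_
    rw [← Real.exp_nat_mul, ← Real.exp_add]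
    refine Real.exp_le_exp.2 ?_
    have h4 := mul_le_mul_of_nonneg_right hg hE0
    push_cast
    linarith
  have r0 : Real.exp (-8) ≤ 1 / 256 := by
    rw [Real.exp_neg, inv_le_comm₀ (Real.exp_pos _) (by norm_num)]
    have h3 : (2 : ℝ) ≤ Real.exp 1 := by
      have := Real.add_one_le_exp (1 : ℝ)
      linarith
    have h4 : Real.exp 8 = Real.exp 1 ^ 8 := by
      rw [← Real.exp_nat_mul]
      norm_num
    rw [h4]
    calc ((1 : ℝ) / 256)⁻¹ = 2 ^ 8 := by norm_num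
      _ ≤ _ := pow_le_pow_left₀ (by norm_num) h3 8
  have q0 : Real.exp (-16) = Real.exp (-8) ^ 2 := by
    rw [← Real.exp_nat_mul]
    norm_num
  have hx : 1 ≤ Real.exp (a * E / 2) := Real.one_le_exp (by positivity)
  have hxy : Real.exp (a * E / 2) ≤ Real.exp (b * E / 2) := Real.exp_le_exp.2 (by
    have := mul_le_mul_of_nonneg_right hab hE0
    linarith)
  refine num47a hx hxy (Real.exp_pos _).le r0 q0 hL0 hLk0 hM0 hR0 hL10 hL20 hV0 hΦ0 hLb0 he10 he20 he40 hε0 hL hR hL1 hLb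
    (by rwa [← e2E]) (by rwa [← e2E]) (by rwa [← e2E]) hV hΦ (ey g1 e1 k1 h1) (ey g4 e4 k4 h4) (ey gF ε kF hF) ?_
  have h3 := mul_le_mul_of_nonneg_left h2 (pow_nonneg (Real.exp_pos (a * E / 2)).le 10)
  refine h3.trans ?_
  rw [← Real.exp_nat_mul, ← Real.exp_add]
  refine Real.exp_le_exp.2 ?_
  push_cast
  linarith

end

end Pool.Agent.W_7d29a1_C1.Fr47
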