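import Pool.Agent.W_7d29a1_C1.JnC35
import Pool.Agent.W_7d29a1_C1.FrL47

/-!
MP_7d29a1_pr, [C1], SHELL, FRESH BALL: **THE INSIDE HALF OF `Jnt` IN THE LETTERS OF `w47`** (helper35). `rowG_unit` : another unit and
another centre of `RowG`. `jnC35` : for `K147` (rows `i = c0' → e`), from the level event of `FC35` and the single weights of the row
`c0'`: `comp` with the envelopes `kap31`, `lo1`, `up1` (`A₁ = 1`, `L₁ = exp (CL E)`).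
-/

set_option autoImplicit false

namespace Pool.Agent.W_7d29a1_C1.JnC35

open MeasureTheory ProbabilityTheory Filter Topology Finset
open Pool.Agent.W_7d29a1_F Pool.Agent.W_7d29a1_h4g Pool.Agent.W_7d29a1_H Pool.Agent.W_7d29a1_HS
open Pool.Agent.W_7d29a1_C1 Pool.Agent.W_7d29a1_C1.H75 Pool.Agent.W_7d29a1_C1.U16 Pool.Agent.W_7d29a1_C1.FarK89 Pool.Agent.W_7d29a1_C1.FarW89
open Pool.Agent.W_7d29a1_C1.K91 (wt wt_pos)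
open Pool.Agent.W_7d29a1_C1.S83 (RowG K5)
open Pool.Agent.W_7d29a1_C1.D31 (En31 kapo31 kap31)
open Pool.Agent.W_7d29a1_C1.Fr47 (K147 K147_nonneg K147_zero)

noncomputable section

/-- **Another unit, another centre.** -/
theorem rowG_unit {r z z' : ℤ} {R R' t : ℝ} (hR : 0 < R) (hRR : R ≤ R') (ht : 0 ≤ t) : RowG r z R t ⊆
    RowG r z' R' (t * (1 + Real.log (R' / R * (1 + |((z' - z : ℤ) : ℝ)| / R')))) := by
  intro η hη x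
  have hR' : 0 < R' := lt_of_lt_of_le hR hRR
  obtain ⟨A, hA⟩ : ∃ A : ℝ, A = R' / R * (1 + |((z' - z : ℤ) : ℝ)| / R') := ⟨_, rfl⟩
  obtain ⟨X, hX⟩ : ∃ X : ℝ, X = |((x - z' : ℤ) : ℝ)| / R' := ⟨_, rfl⟩
  have hX0 : 0 ≤ X := by rw [hX]; positivity
  have hq : 1 ≤ R' / R := by rwa [le_div_iff₀ hR, one_mul]
  have hA1 : 1 ≤ A := by
    rw [hA]
    have : 0 ≤ |((z' - z : ℤ) : ℝ)| / R' := by positivity
    nlinarith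
  have h1 : |((x - z : ℤ) : ℝ)| ≤ |((x - z' : ℤ) : ℝ)| + |((z' - z : ℤ) : ℝ)| := by
    have e : ((x - z : ℤ) : ℝ) = ((x - z' : ℤ) : ℝ) + ((z' - z : ℤ) : ℝ) := by
      push_cast
      ring
    rw [e]
    exact abs_add_le _ _
  have h2 : 1 + |((x - z : ℤ) : ℝ)| / R ≤ A * (1 + X) := by
    have e1 : |((x - z : ℤ) : ℝ)| / R ≤ R' / R * (X + |((z' - z : ℤ) : ℝ)| / R') := by
      rw [hX, ← add_div, div_mul_div_comm, mul_comm R' _, mul_div_mul_right _ _ hR'.ne']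
      exact div_le_div_of_nonneg_right h1 hR.le
    have e2 : 0 ≤ |((z' - z : ℤ) : ℝ)| / R' := by positivity
    rw [hA]
    have e3 : 0 ≤ R' / R * (|((z' - z : ℤ) : ℝ)| / R' * X) := by positivity
    nlinarith
  have h3 : Real.log (1 + |((x - z : ℤ) : ℝ)| / R) ≤ Real.log A + Real.log (1 + X) := by
    rw [← Real.log_mul (by linarith) (by linarith)]
    exact Real.log_le_log (by positivity) h2
  have h4 := Real.log_nonneg hA1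
  have h5 := Real.log_nonneg (show (1 : ℝ) ≤ 1 + X by linarith)
  refine (hη x).trans ?_
  rw [← hA, ← hX, mul_assoc]
  refine mul_le_mul_of_nonneg_left ?_ ht
  nlinarith [mul_nonneg h4 h5]

variable {μ : Measure ℝ} {s c C : ℝ} {n₀ : ℕ} [IsProbabilityMeasure μ]

/-- **THE INSIDE HALF OF `Jnt`.** Rows `i → i + n`, `e = i + n`, `c3 = e + m`; `ρ` = window of the cells (in widths `wd Tt`). -/
theorem jnC35 (h0 : In μ s c C n₀) (P : ℕ) {θ K : ℝ} (hK : 4 ≤ K) (hθ : 0 < θ) : ∃ P₀ : ℕ, ∀ q u ρ : ℝ, 0 ≤ q → 0 ≤ u → 0 ≤ ρ →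
    2 * ρ + 6 ≤ K → ∃ q₁ CL : ℝ, 0 ≤ q₁ ∧ 0 < CL ∧ ∀ c₁ c₂ c₃ c₃' σ : ℝ, 0 < c₁ → 0 < c₂ → 0 ≤ c₃' → c₃' ≤ c₃ →
    c₃' + c₁ + c₂ ≤ c / 8 → 0 < σ → σ ≤ 1 → ∃ n₁ : ℕ, 1 ≤ n₁ ∧
    ∀ {h : ℝ} {η : Env} {p : ℕ → ℝ} {M : ℕ} {κ b : Pt} {Tt N : ℕ} {z : ℤ}, n₁ ≤ Tt → N ≤ Tt →
    (∀ k, k < M → p k = Real.exp (s + h)) → (∀ k, M ≤ k → p k = Real.exp s) → η ∈ Far16 μ s c θ K Tt N P b q →
    |lat16 μ s κ b| ≤ wd μ s Tt → |h| * wd μ s Tt ≤ c / 8 * EE μ s Tt →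
    ∀ (i n : ℕ), b.1 ≤ i → (i : ℤ) + n ≤ b.1 + N → θ * Tt ≤ n → η ∈ RowG (i : ℤ) z (wd μ s Tt) (u * EE μ s Tt) →
    |(z : ℝ) - ln35 μ s κ i| ≤ wd μ s Tt →
    (∀ P', P₀ ≤ P' → ∀ (J : Finset ℤ) (Q₂ S₂ cen₃ : ℝ) (m : ℕ) (x z : ℤ), 0 ≤ Q₂ →
      ∑ y ∈ J, K147 μ s h η p M i n x y * kap31 P' c₁ c₃ Q₂ S₂ (EE μ s Tt) (wd μ s Tt) (ln35 μ s κ (i + n)) cen₃ m y z ≤
        kap31 P' c₁ c₃' (Q₂ + q₁) (S₂ + σ) (EE μ s Tt) (wd μ s Tt) (ln35 μ s κ i) cen₃ (n + m) x z) ∧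
    (∀ P', P₀ ≤ P' → ∀ I J : Finset ℤ, En31 P' (c / 8) c₂ (EE μ s Tt) (wd μ s Tt) q₁ σ (fun x => (x : ℝ) - ln35 μ s κ i)
      (fun y => (y : ℝ) - ln35 μ s κ (i + n)) (K147 μ s h η p M i n) I J) ∧
    (∀ (δ₀ : Finset ℤ) (y x : ℤ), y ∈ δ₀ → |(y : ℝ) - ln35 μ s κ (i + n)| ≤ ρ * wd μ s Tt → |(x : ℝ) - ln35 μ s κ i| ≤ ρ * wd μ s Tt →
      1 ≤ Real.exp (CL * EE μ s Tt) * ∑ y ∈ δ₀, K147 μ s h η p M i n x y) ∧
    ∀ (δ : Finset ℤ) (x : ℤ), |(x : ℝ) - ln35 μ s κ i| ≤ ρ * wd μ s Tt →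
      ∑ y ∈ δ, K147 μ s h η p M i n x y ≤ Real.exp (CL * EE μ s Tt) * 1 := by
  have hc0 := h0.c0
  obtain ⟨P₀, H1⟩ := jn35 h0 P hK hθ
  refine ⟨P₀, fun q u ρ hq hu hρ hρK => ?_⟩
  obtain ⟨q₁, CL, hq₁, hCL, H2⟩ := H1 q u ρ hq hu hρ hρK
  refine ⟨q₁, CL, hq₁, hCL, fun c₁ c₂ c₃ c₃' σ hc₁ hc₂ hc₃' h3 hcc hσ hσ1 => ?_⟩
  obtain ⟨n₁, hn₁, H3⟩ := H2 c₂ σ hc₂ (by linarith) hσ hσ1
  obtain ⟨n₂, H4⟩ := eventually_atTop.1 ((wd_tendsto h0).eventually_ge_atTop 1)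
  refine ⟨max n₁ n₂, hn₁.trans (le_max_left _ _), ?_⟩
  intro h η p M κ b Tt N z hT hNT hp hp' hη hb hh i n hi1 hi2 hθn hR hz
  have hw1 := H4 Tt ((le_max_right _ _).trans hT)
  have hw0 : 0 < wd μ s Tt := by linarith
  have hE := EE_pos (μ := μ) (s := s) Tt
  have hpp : ∀ k, 0 < p k := fun k => by
    rcases lt_or_ge k M with h1 | h1
    · rw [hp k h1]; exact Real.exp_pos _
    · rw [hp' k h1]; exact Real.exp_pos _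
  obtain ⟨k1, k2, k3⟩ := H3 ((le_max_left _ _).trans hT) hNT hp hp' hη hb hh i n hi1 hi2 hθn hR hz
  refine ⟨fun P' hP' J Q₂ S₂ cen₃ m x z hQ₂ => ?_, k1, fun δ₀ y x hy hy1 hx => ?_, fun δ x hx => ?_⟩
  · exact comp35_cut hE hw0 hc₁ hc₂.le hc₃' h3 hcc (k1 P' hP' {x} J) hQ₂ (fun x y hxy => K147_zero i n hxy) (mem_singleton_self x) z
  · refine (k2 x y hx hy1).trans (mul_le_mul_of_nonneg_left ?_ (Real.exp_pos _).le)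
    exact single_le_sum (f := fun y => K147 μ s h η p M i n x y) (fun y _ => K147_nonneg hpp i n x y) hy
  · rw [mul_one]
    exact k3 x δ hx

end

end Pool.Agent.W_7d29a1_C1.JnC35
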