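import Pool.Agent.W_7d29a1_C1.PshM83
import Pool.Agent.W_7d29a1_C1.JnD35

/-!
MP_7d29a1_pr, [C1], SHELL, FRESH BALL: **`Psh` OF THE BUFFER FROM THE LANES OF `M ∘ F`** (helper83), in the letters of `w47`.

Rows `c₀`, `c₀' = c₀ + n`, `c3 = c₀' + m`; inner unit `(E₀, w₀) = (EE TF, wd TF)`, unit of the ball `(E, w) = (EE T, wd T)`, `TF ≤ T ≤ 4 TF`.
* `psh_dec83` : `psh_mf83` with two envelopes `c₀ → c3`: `kc` (level `0`, for the walls: its `Φ` does not see the envelope of `M ∘ F`) and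
  `kap0` (any start);
* `nk_kW83` : `nk = kW` up to `exp (|h| n)`, any switch row; `row83` : single weights in another unit;
* `pshB83` : the instance.
-/

set_option autoImplicit false

namespace Pool.Agent.W_7d29a1_C1.S83

open MeasureTheory Finset
open Pool.Agent.W_7d29a1_F Pool.Agent.W_7d29a1_H Pool.Agent.W_7d29a1_HS
open Pool.Agent.W_7d29a1_C1.K91 (wt wt_pos)
open Pool.Agent.W_7d29a1_C1.H75 Pool.Agent.W_7d29a1_C1.U16 Pool.Agent.W_7d29a1_C1.FarK89 Pool.Agent.W_7d29a1_C1.FarW89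
open Pool.Agent.W_7d29a1_C1.D31
open Pool.Agent.W_7d29a1_C1.S12 (Lam12 Lam12_pos)
open Pool.Agent.W_7d29a1_C1.JnC35 (ln35)
open Pool.Agent.W_7d29a1_C1.Fr47

noncomputable section

section det

variable {P : ℕ} {J C₁ C₂ D₁ D₂ C D U I : Finset ℤ} {N K kap kap0 kc : ℤ → ℤ → ℝ} {α β G ℓ₀ ℓ₁ ℓ₂ : ℤ → ℝ} {t₁ t₂ z₀ : ℤ} {n m : ℕ}
  {E w A Cs ell g be be' u b σ κ c0 c1 Q1 Λ CC Φ₀ G₀ V mm L Lk Mh ε : ℝ}

/-- **`Psh` from the lanes, two envelopes.** -/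
theorem psh_dec83 (hE : 0 < E) (hw : 0 < w) (h : MF83 J C₁ C₂ D₁ D₂ N ℓ₁ t₁ t₂ E w A ell g be n) (hA : 0 < A) (hCs : 0 < Cs)
    (hα : Ws83 (C₁ ∪ C₂) α ℓ₀ E w u b) (hβ : Ws83 (D₁ ∪ D₂) β ℓ₁ E w u b) (hK : ∀ x y, K x y = Cs * (α x * (N x y * β y)))
    (hCI1 : C₁ ⊆ I) (hCI2 : C₂ ⊆ I) (hdC : Disjoint C₁ C₂) (hDJ1 : D₁ ⊆ J) (hDJ2 : D₂ ⊆ J) (hdD : Disjoint D₁ D₂)
    (hc1 : (D₁.card : ℝ) ≤ Real.exp (κ * E)) (hc2 : (D₂.card : ℝ) ≤ Real.exp (κ * E)) (hκ : 0 ≤ κ)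
    (hc0 : 0 ≤ c0) (hc01 : c0 ≤ c1) (hbe0 : 0 ≤ be) (hbe : b + be' ≤ be) (hΛ : ∀ x ∈ C₁ ∪ C₂, |ℓ₀ x| ≤ Λ * w)
    (hCC : ∀ d : ℝ, 0 ≤ d → Q1 * gr P d + c0 * d ≤ CC + be' * d)
    (hsum : ∑ y ∈ J, Real.exp (-((be - b - be') * (E / w) * |ℓ₁ y|)) ≤ Real.exp (σ * E))
    (kap_0 : ∀ y z, 0 ≤ kap y z) (kapz : ∀ y z : ℤ, ¬ (y ≤ z ∧ z ≤ y + m) → kap y z = 0)
    (kapu : ∀ y z, kap y z ≤ Real.exp (Q1 * gr P (|ℓ₁ y| / w) * E - c1 * (E / w) * |ℓ₂ z - ℓ₁ y|))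
    (kc0 : ∀ x z, 0 ≤ kc x z)
    (kcl : ∀ x z : ℤ, x ≤ z → z ≤ x + (n + m : ℕ) → Real.exp (-(c0 * (E / w) * |ℓ₂ z - ℓ₀ x|)) ≤ kc x z)
    (hLk : 0 ≤ Lk) (comp : ∀ x ∈ I, ∀ z ∈ U, ∑ y ∈ J, K x y * kap y z ≤ Lk * (Cs * A) * kap0 x z)
    (hG : ∀ z, 0 ≤ G z) (hG₀ : 0 < G₀) (hΦ : ∀ x ∈ C₁ ∪ C₂, ∑ z ∈ U, kc x z * G z ≤ Φ₀ * G₀)
    (hz₀ : z₀ ∈ U) (hV : 0 ≤ V) (hV₀ : G₀ ≤ V * G z₀) (hm : ∀ y ∈ D₁ ∪ D₂, Real.exp (-(mm * E)) ≤ kap y z₀)
    (hMh : V * Real.exp (mm * E) ≤ Mh)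
    (hL : Real.exp ((ell + 2 * u + κ) * E) ≤ L) (hε : Real.exp ((2 * u + κ - g) * E) ≤ ε)
    (hε' : Real.exp ((CC + c0 * Λ + 2 * u + σ - g) * E) * Φ₀ ≤ ε) :
    Psh I J C₁ C₂ D₁ D₂ K (jph U kap0 G G₀) (jph U kap G G₀) (Cs * A) (Cs * A) L Lk Mh 1 ε := by
  have hs := h.symm
  have hCA : 0 < Cs * A := mul_pos hCs hA
  have K0 : ∀ x y, 0 ≤ K x y := fun x y => by
    rw [hK]
    have h1 := h.N0 x y
    have h2 := hβ.pos y
    have h3 := hα.pos x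
    positivity
  have jp0 : ∀ y, 0 ≤ jph U kap G G₀ y := fun y => div_nonneg (sum_nonneg fun z _ => mul_nonneg (kap_0 y z) (hG z)) hG₀.le
  have l1 := lane_83 (C := C₁ ∪ C₂) (D := D₁ ∪ D₂) (κ := κ) hE h hw hbe0 hA hCs hα hβ hK subset_union_left subset_union_left subset_union_right
    hDJ2 hdD hc1 hc2 hκ hL hε
  have l2 := lane_83 (C := C₁ ∪ C₂) (D := D₁ ∪ D₂) (κ := κ) hE hs hw hbe0 hA hCs hα hβ hK subset_union_right subset_union_right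
    subset_union_left hDJ1 hdD.symm hc2 hc1 hκ hL hε
  have o1 := of_83 (C := C₁ ∪ C₂) (D := D₁ ∪ D₂) (U := U) (kap := kap) (kap0 := kc) (G := G) (G₀ := G₀) hE hw h hA hCs hα hβ hK
    subset_union_left hc0 hc01 hbe (fun x hx => hΛ x (mem_union_left _ hx)) hCC hsum kapz kapu kc0 kcl hG hG₀
    (fun x hx => hΦ x (mem_union_left _ hx)) hε'
  have o2 := of_83 (C := C₁ ∪ C₂) (D := D₁ ∪ D₂) (U := U) (kap := kap) (kap0 := kc) (G := G) (G₀ := G₀) hE hw hs hA hCs hα hβ hK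
    subset_union_right hc0 hc01 hbe (fun x hx => hΛ x (mem_union_right _ hx)) hCC hsum kapz kapu kc0 kcl hG hG₀
    (fun x hx => hΦ x (mem_union_right _ hx)) hε'
  have out : ∀ x ∈ I, ∑ y ∈ J, K x y * jph U kap G G₀ y ≤ Lk * jph U kap0 G G₀ x * (Cs * A) := by
    intro x hx
    have e2 : ∑ y ∈ J, K x y * jph U kap G G₀ y = (∑ z ∈ U, (∑ y ∈ J, K x y * kap y z) * G z) / G₀ := by
      unfold jph
      rw [eq_div_iff hG₀.ne', sum_mul]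
      calc ∑ y ∈ J, K x y * ((∑ z ∈ U, kap y z * G z) / G₀) * G₀ = ∑ y ∈ J, ∑ z ∈ U, K x y * kap y z * G z := by
            refine sum_congr rfl fun y _ => ?_
            rw [mul_assoc, div_mul_cancel₀ _ hG₀.ne', mul_sum]
            exact sum_congr rfl fun z _ => by ring
        _ = ∑ z ∈ U, ∑ y ∈ J, K x y * kap y z * G z := sum_comm
        _ = _ := sum_congr rfl fun z _ => by rw [sum_mul]
    rw [e2]
    unfold jph
    rw [div_le_iff₀ hG₀]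
    have e3 : Lk * ((∑ z ∈ U, kap0 x z * G z) / G₀) * (Cs * A) * G₀ = Lk * (Cs * A) * ∑ z ∈ U, kap0 x z * G z := by
      field_simp
    rw [e3, mul_sum]
    refine sum_le_sum fun z hz => ?_
    refine (mul_le_mul_of_nonneg_right (comp x hx z hz) (hG z)).trans (le_of_eq ?_)
    ring
  have hεn : 0 ≤ ε := (Real.exp_pos _).le.trans hε
  exact
    { K0 := K0
      p0 := jp0
      A10 := hCA.le
      A20 := hCA.le
      L0 := (Real.exp_pos _).le.trans hL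
      Lk0 := hLk
      M0 := le_trans (mul_nonneg hV (Real.exp_pos _).le) hMh
      R0 := zero_le_one
      ε0 := hεn
      CI1 := hCI1
      CI2 := hCI2
      dC := hdC
      DJ1 := hDJ1
      DJ2 := hDJ2
      lo1 := fun x hx => (l1 x hx).1
      lo2 := fun x hx => (l2 x hx).1
      up1 := fun x hx => (l1 x hx).2.1
      up2 := fun x hx => (l2 x hx).2.1
      cr1 := fun x hx => (l1 x hx).2.2
      cr2 := fun x hx => (l2 x hx).2.2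
      of1 := o1
      of2 := fun x hx => by
        rw [union_comm]
        exact o2 x hx
      out1 := fun x hx _ => out x hx
      out2 := fun x hx _ => out x hx
      inD := fun y hy => by
        have f1 : kap y z₀ * G z₀ ≤ ∑ z ∈ U, kap y z * G z :=
          single_le_sum (f := fun z => kap y z * G z) (fun z _ => mul_nonneg (kap_0 y z) (hG z)) hz₀
        have f2 := mul_le_mul_of_nonneg_right (hm y hy) (hG z₀)
        have f3 : G₀ ≤ V * Real.exp (mm * E) * ∑ z ∈ U, kap y z * G z := by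
          have f4 := mul_le_mul_of_nonneg_left (f2.trans f1) (show 0 ≤ V * Real.exp (mm * E) by positivity)
          have f5 : V * Real.exp (mm * E) * (Real.exp (-(mm * E)) * G z₀) = V * G z₀ := by
            rw [mul_assoc, ← mul_assoc (Real.exp (mm * E)), ← Real.exp_add]
            simp
          linarith
        have f6 : 0 ≤ ∑ z ∈ U, kap y z * G z := sum_nonneg fun z _ => mul_nonneg (kap_0 y z) (hG z)
        unfold jph
        rw [mul_div_assoc', le_div_iff₀ hG₀, one_mul]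
        exact f3.trans (mul_le_mul_of_nonneg_right hMh f6)
      r12 := by rw [one_mul]
      r21 := by rw [one_mul] }

/-- Powers of the logarithm against a line. -/
theorem lin_gr83 (P : ℕ) {Q b : ℝ} (hQ : 0 ≤ Q) (hb : 0 < b) {d : ℝ} (hd : 0 ≤ d) : Q * gr P d ≤ LQ P b Q + b * d := by
  have h1 := lipQ P hb hQ le_rfl (le_refl (0 : ℝ)) hd
  have h2 := AQ_nonneg P b Q
  have h3 := gr_mono P hd (show d ≤ AQ P b Q + (0 + d) by linarith)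
  have h4 := mul_le_mul_of_nonneg_left h3 hQ
  rw [add_zero] at h1
  unfold LQ
  linarith

/-- The single weights in another unit and along another line. -/
theorem row83 {η : Env} {r : ℕ} {z : ℤ} {R u D E w E₀ w₀ ρ cen : ℝ} (hη : η ∈ RowG (r : ℤ) z w₀ (u * E₀)) (hw : 0 < w) (hw0 : 0 < w₀)
    (hE0 : 0 ≤ E₀) (hEE : E₀ ≤ E) (hρ : 0 ≤ ρ) (hρw : w ≤ ρ * w₀) (hz : |(z : ℝ) - cen| ≤ D * w₀) (hu : 0 ≤ u) (hD : 0 ≤ D)
    (hR : R = u * (1 + Real.log ((1 + D) * (1 + ρ)))) (x : ℤ) : |η ((r : ℤ), x)| ≤ R * gr 1 (|(x : ℝ) - cen| / w) * E := by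
  obtain ⟨X, hX⟩ : ∃ X : ℝ, X = |(x : ℝ) - cen| / w := ⟨_, rfl⟩
  have hX0 : 0 ≤ X := by rw [hX]; positivity
  have h1 := hη x
  have h2 : |((x - z : ℤ) : ℝ)| / w₀ ≤ D + ρ * X := by
    rw [div_le_iff₀ hw0]
    have e1 : ((x - z : ℤ) : ℝ) = ((x : ℝ) - cen) - ((z : ℝ) - cen) := by
      push_cast
      ring
    have e2 : |(x : ℝ) - cen| = X * w := by
      rw [hX]
      field_simp
    have e3 := abs_sub ((x : ℝ) - cen) ((z : ℝ) - cen)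
    have e4 := mul_le_mul_of_nonneg_left hρw hX0
    rw [e1]
    nlinarith
  have h3 : 0 ≤ |((x - z : ℤ) : ℝ)| / w₀ := by positivity
  have h4 : Real.log (1 + |((x - z : ℤ) : ℝ)| / w₀) ≤ Real.log ((1 + D) * (1 + ρ)) + Real.log (1 + X) := by
    rw [← Real.log_mul (by positivity) (by positivity)]
    refine Real.log_le_log (by linarith) ?_
    nlinarith [mul_nonneg hρ hX0, mul_nonneg hD hX0, mul_nonneg hD hρ, mul_nonneg (mul_nonneg hD hρ) hX0]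
  have h5 : 0 ≤ Real.log ((1 + D) * (1 + ρ)) := Real.log_nonneg (by nlinarith [mul_nonneg hD hρ])
  have h6 := Real.log_nonneg (show (1 : ℝ) ≤ 1 + X by linarith)
  have h7 : u * E₀ * (1 + Real.log (1 + |((x - z : ℤ) : ℝ)| / w₀)) ≤
      u * E * ((1 + Real.log ((1 + D) * (1 + ρ))) * (1 + Real.log (1 + X))) := by
    refine mul_le_mul (mul_le_mul_of_nonneg_left hEE hu) ?_ (by have := Real.log_nonneg (show (1 : ℝ) ≤ 1 + |((x - z : ℤ) : ℝ)| / w₀ by linarith); linarith) (mul_nonneg hu (hE0.trans hEE))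
    nlinarith [mul_nonneg h5 h6]
  have e5 : gr 1 X = 1 + Real.log (1 + X) := by
    unfold gr
    rw [pow_one]
  rw [← hX, e5, hR]
  refine h1.trans (h7.trans (le_of_eq ?_))
  ring

theorem wt_abs83 (η : Env) (r : ℕ) (x : ℤ) :
    Real.exp (-|η ((r : ℤ), x)|) ≤ wt η r x ∧ wt η r x ≤ Real.exp (|η ((r : ℤ), x)|) := by
  unfold wt
  split_ifs
  · exact ⟨Real.exp_le_one_iff.2 (neg_nonpos.2 (abs_nonneg _)), Real.one_le_exp (abs_nonneg _)⟩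
  · exact ⟨Real.exp_le_exp.2 (neg_abs_le _), Real.exp_le_exp.2 (le_abs_self _)⟩

theorem inv_abs83 (η : Env) (r : ℕ) (x : ℤ) :
    Real.exp (-|η ((r : ℤ), x)|) ≤ (wt η r x)⁻¹ ∧ (wt η r x)⁻¹ ≤ Real.exp (|η ((r : ℤ), x)|) := by
  have a1 := wt_abs83 η r x
  have h1 := wt_pos η r x
  constructor
  · rw [Real.exp_neg]
    exact inv_anti₀ h1 a1.2
  · have h2 := inv_anti₀ (Real.exp_pos _) a1.1
    rwa [← Real.exp_neg, neg_neg] at h2

/-- The four forms of the single weights. -/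
theorem ws_row83 {η : Env} {r : ℕ} {R E w cen b Λ : ℝ} {C : Finset ℤ} (hE : 0 < E) (hw : 0 < w) (hR : 0 ≤ R) (hb : 0 < b)
    (h : ∀ x : ℤ, |η ((r : ℤ), x)| ≤ R * gr 1 (|(x : ℝ) - cen| / w) * E) (hΛ0 : 0 ≤ Λ) (hΛ : ∀ x ∈ C, |(x : ℝ) - cen| ≤ Λ * w) :
    Ws83 C (wt η r) (fun x => (x : ℝ) - cen) E w (R * gr 1 Λ + LQ 1 b R) b ∧
      Ws83 C (fun x => (wt η r x)⁻¹) (fun x => (x : ℝ) - cen) E w (R * gr 1 Λ + LQ 1 b R) b := by
  have hLQ : 0 ≤ LQ 1 b R := LQ_nonneg 1 hR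
  have hg : 0 ≤ gr 1 Λ := gr_nonneg 1 hΛ0
  have a1 := fun x => wt_abs83 η r x
  have a2 := fun x => inv_abs83 η r x
  have b1 : ∀ x ∈ C, |η ((r : ℤ), x)| ≤ (R * gr 1 Λ + LQ 1 b R) * E := by
    intro x hx
    have h1 : |(x : ℝ) - cen| / w ≤ Λ := by
      rw [div_le_iff₀ hw]
      exact hΛ x hx
    have h2 := gr_mono 1 (show 0 ≤ |(x : ℝ) - cen| / w by positivity) h1
    have h3 := mul_le_mul_of_nonneg_right (mul_le_mul_of_nonneg_left h2 hR) hE.le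
    have h4 : 0 ≤ LQ 1 b R * E := mul_nonneg hLQ hE.le
    have := h x
    linarith
  have b2 : ∀ x : ℤ, |η ((r : ℤ), x)| ≤ (R * gr 1 Λ + LQ 1 b R + b * (|(x : ℝ) - cen| / w)) * E := by
    intro x
    have h1 := lin_gr83 1 hR hb (show 0 ≤ |(x : ℝ) - cen| / w by positivity)
    have h2 := mul_le_mul_of_nonneg_right h1 hE.le
    have h4 : 0 ≤ R * gr 1 Λ * E := by positivity
    have := h x
    linarith
  constructor
  · refine ⟨fun x => wt_pos η r x, fun x hx => ?_, fun x hx => ?_, fun x => ?_⟩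
    · exact (Real.exp_le_exp.2 (neg_le_neg (b1 x hx))).trans (a1 x).1
    · exact (a1 x).2.trans (Real.exp_le_exp.2 (b1 x hx))
    · exact (a1 x).2.trans (Real.exp_le_exp.2 (b2 x))
  · refine ⟨fun x => inv_pos.2 (wt_pos η r x), fun x hx => ?_, fun x hx => ?_, fun x => ?_⟩
    · exact (Real.exp_le_exp.2 (neg_le_neg (b1 x hx))).trans (a2 x).1
    · exact (a2 x).2.trans (Real.exp_le_exp.2 (b1 x hx))
    · exact (a2 x).2.trans (Real.exp_le_exp.2 (b2 x))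

end det

/-! ### The model -/

variable {μ : Measure ℝ} {s c C : ℝ} {n₀ : ℕ} [IsProbabilityMeasure μ]

/-- **Any switch row.** -/
theorem nk_kW83 (h0 : In μ s c C n₀) {h : ℝ} {η : Env} {p : ℕ → ℝ} {M : ℕ} (hp : ∀ k, k < M → p k = Real.exp (s + h))
    (hp' : ∀ k, M ≤ k → p k = Real.exp s) (i n : ℕ) (x y : ℤ) :
    Real.exp (-(|h| * n)) * W μ s η ((i : ℤ), x) n (y - x) ≤ nk μ s h η p M i n x y ∧
      nk μ s h η p M i n x y ≤ Real.exp (|h| * n) * W μ s η ((i : ℤ), x) n (y - x) := by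
  have hs1 := h0.sl_pos
  have hs2 := h0.sl_lt
  obtain ⟨m, hm⟩ : ∃ m : ℕ, m = bl M i n := ⟨_, rfl⟩
  have hmn : m ≤ n := hm ▸ bl_le M i n
  have e1 : W μ s η ((i : ℤ), x) n (y - x) = ∑ z ∈ Icc (0 : ℤ) m, W μ s η ((i : ℤ), x) m z *
      W μ s η (((i : ℤ), x).1 + m, ((i : ℤ), x).2 + z) (n - m) (y - x - z) := by
    have h1 := W_add (μ := μ) (s := s) η ((i : ℤ), x) m (n - m) (y - x)
    rwa [Nat.add_sub_cancel' hmn] at h1
  rw [nk_K1 hp hp', ← hm, K1_eq, e1, mul_sum, mul_sum]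
  have key : ∀ z ∈ Icc (0 : ℤ) m, |h * ((z : ℝ) - sl μ s * m)| ≤ |h| * n := by
    intro z hz
    rw [mem_Icc] at hz
    rw [abs_mul]
    refine mul_le_mul_of_nonneg_left ?_ (abs_nonneg h)
    have h1 : (0 : ℝ) ≤ z := by exact_mod_cast hz.1
    have h2 : (z : ℝ) ≤ m := by exact_mod_cast hz.2
    have h3 : (m : ℝ) ≤ n := by exact_mod_cast hmn
    have h4 : (0 : ℝ) ≤ m := Nat.cast_nonneg m
    have h5 : 0 ≤ sl μ s * m := by positivity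
    have h6 : sl μ s * m ≤ m := by nlinarith
    rw [abs_le]
    constructor <;> linarith
  constructor
  · refine sum_le_sum fun z hz => ?_
    have h1 := (abs_le.1 (key z hz)).1
    rw [mul_assoc (Real.exp (h * ((z : ℝ) - sl μ s * m)))]
    exact mul_le_mul_of_nonneg_right (Real.exp_le_exp.2 h1) (mul_nonneg (W_nonneg η _ _ _) (W_nonneg η _ _ _))
  · refine sum_le_sum fun z hz => ?_
    have h1 := (abs_le.1 (key z hz)).2
    rw [mul_assoc (Real.exp (h * ((z : ℝ) - sl μ s * m)))]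
    exact mul_le_mul_of_nonneg_right (Real.exp_le_exp.2 h1) (mul_nonneg (W_nonneg η _ _ _) (W_nonneg η _ _ _))

/-- The two units. -/
theorem unit83 (h0 : In μ s c C n₀) {T TF : ℕ} (h1 : 1 ≤ TF) (h2 : TF ≤ T) (h4 : T ≤ 4 * TF) (hw : 0 < wd μ s T) (hw0 : 0 < wd μ s TF) :
    EE μ s TF ≤ EE μ s T ∧ EE μ s T ≤ 4 * EE μ s TF ∧ wd μ s TF ≤ 2 * wd μ s T ∧ wd μ s T ≤ 8 * wd μ s TF ∧
      EE μ s T / wd μ s T ≤ 2 * (EE μ s TF / wd μ s TF) := by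
  have a1 := wd_growth_one h0 h1 h2
  refine ⟨EE_mono h2, ?_, U16.wd_le_two h0 h1 h2, ?_, ?_⟩
  · exact_mod_cast EE_le_mul h0.em s (show 1 ≤ 4 by norm_num) h4
  · have a2 := U16.wd_le h0 h1 h2
    have a3 : (T : ℝ) / TF ≤ 4 := by
      have a4 : (0 : ℝ) < TF := by exact_mod_cast h1
      rw [div_le_iff₀ a4]
      exact_mod_cast h4
    nlinarith
  · rw [div_le_iff₀ hw]
    have e1 : 2 * (EE μ s TF / wd μ s TF) * wd μ s T = (2 * EE μ s TF * wd μ s T) / wd μ s TF := by ring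
    rw [e1, le_div_iff₀ hw0]
    linarith

/-- The kernel of a cell counts few columns. -/
theorem card83 {D : Finset ℤ} {E w Λ c₂ σ cen : ℝ} (hE : 0 < E) (hw : 0 < w) (hc : 0 ≤ c₂) (hΛ : ∀ y ∈ D, |(y : ℝ) - cen| ≤ Λ * w)
    (hsum : ∑ y ∈ D, Real.exp (-(c₂ * (E / w) * |(y : ℝ) - cen|)) ≤ Real.exp (σ * E)) : (D.card : ℝ) ≤ Real.exp ((σ + c₂ * Λ) * E) := by
  have h1 : (D.card : ℝ) * Real.exp (-(c₂ * Λ * E)) ≤ ∑ y ∈ D, Real.exp (-(c₂ * (E / w) * |(y : ℝ) - cen|)) := by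
    rw [← nsmul_eq_mul, ← sum_const]
    refine sum_le_sum fun y hy => Real.exp_le_exp.2 ?_
    have h2 := mul_le_mul_of_nonneg_left (hΛ y hy) (mul_nonneg hc (div_pos hE hw).le)
    have h3 : c₂ * (E / w) * (Λ * w) = c₂ * Λ * E := by field_simp
    linarith
  have h4 := mul_le_mul_of_nonneg_right (h1.trans hsum) (Real.exp_pos (c₂ * Λ * E)).le
  rw [mul_assoc, ← Real.exp_add, ← Real.exp_add] at h4
  simp only [neg_add_cancel, Real.exp_zero, mul_one] at h4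
  refine h4.trans (le_of_eq ?_)
  congr 1
  ring

/-- The cut envelope in the plain form. -/
theorem kap_up83 {P₁ P' : ℕ} {c₁ c₃ Q₂ S₂ E w Q1 cen cen' : ℝ} (hE : 0 < E) (hw : 0 < w) (hP : P₁ ≤ P') (hQ₂ : 0 ≤ Q₂) (hS₂ : 0 ≤ S₂)
    (hQ1 : Q1 = Q₂ * gr P₁ (AQ P₁ c₁ Q₂) + S₂) (m : ℕ) (y z : ℤ) : kap31 P₁ c₁ c₃ Q₂ S₂ E w cen cen' m y z ≤
      Real.exp (Q1 * gr P' (|(y : ℝ) - cen| / w) * E - c₃ * (E / w) * |((z : ℝ) - cen') - ((y : ℝ) - cen)|) := by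
  refine (kap31_le y z).trans ?_
  unfold kapo31
  refine Real.exp_le_exp.2 ?_
  obtain ⟨X, hX⟩ : ∃ X : ℝ, X = |(y : ℝ) - cen| / w := ⟨_, rfl⟩
  have hX0 : 0 ≤ X := by rw [hX]; positivity
  have h1 := gr_shift P₁ (AQ_nonneg P₁ c₁ Q₂) hX0
  have h2 := mul_le_mul_of_nonneg_left h1 hQ₂
  have h3 := gr_one_le P₁ hX0
  have h4 := gr_pow_le hP hX0
  have h5 := gr_nonneg P₁ (AQ_nonneg P₁ c₁ Q₂)
  have h6 : Q₂ * gr P₁ (AQ P₁ c₁ Q₂ + X) + S₂ ≤ Q1 * gr P' X := by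
    have h7 : Q1 * gr P₁ X ≤ Q1 * gr P' X := mul_le_mul_of_nonneg_left h4 (by rw [hQ1]; positivity)
    have h8 : Q1 * gr P₁ X = Q₂ * (gr P₁ (AQ P₁ c₁ Q₂) * gr P₁ X) + S₂ * gr P₁ X := by
      rw [hQ1]
      ring
    have h9 := mul_le_mul_of_nonneg_left h3 hS₂
    linarith
  have h7 := mul_le_mul_of_nonneg_right h6 hE.le
  rw [← hX]
  linarith

/-- A lower bound at the reachable pairs. -/
theorem kap_lo83 {P₁ : ℕ} {c₁ c₃ Q₂ S₂ E w q cen cen' : ℝ} (hE : 0 < E) (hw : 0 < w) (hQ₂ : 0 ≤ Q₂) (hS₂ : 0 ≤ S₂) (hq0 : 0 ≤ q)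
    (hq : q ≤ Q₂) {m : ℕ} {y z : ℤ} (h1 : y ≤ z) (h2 : z ≤ y + m) :
    Real.exp (q * gr P₁ (|(y : ℝ) - cen| / w) * E - c₃ * (E / w) * |((z : ℝ) - cen') - ((y : ℝ) - cen)|) ≤
      kap31 P₁ c₁ c₃ Q₂ S₂ E w cen cen' m y z := by
  rw [kap31_of_reach h1 h2]
  unfold kapo31
  refine Real.exp_le_exp.2 ?_
  have hX0 : 0 ≤ |(y : ℝ) - cen| / w := by positivity
  have hA := AQ_nonneg P₁ c₁ Q₂
  have h3 := gr_mono P₁ hX0 (show |(y : ℝ) - cen| / w ≤ AQ P₁ c₁ Q₂ + |(y : ℝ) - cen| / w by linarith)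
  have h4 := gr_nonneg P₁ hX0
  have h5 : q * gr P₁ (|(y : ℝ) - cen| / w) ≤ Q₂ * gr P₁ (AQ P₁ c₁ Q₂ + |(y : ℝ) - cen| / w) := mul_le_mul hq h3 h4 hQ₂
  have h6 := mul_le_mul_of_nonneg_right h5 hE.le
  have h7 := mul_nonneg hS₂ hE.le
  linarith

/-- **`Psh` OF THE BUFFER.** -/
theorem pshB83 (h0 : In μ s c C n₀) {P₁ : ℕ} {c₁ c₃ Q₂ S₂ ell u D Λ be : ℝ} (hc₃ : 0 < c₃) (hQ₂ : 0 ≤ Q₂) (hS₂ : 0 ≤ S₂)
    (hell : 0 ≤ ell) (hu : 0 ≤ u) (hD : 0 ≤ D) (hΛ : 0 ≤ Λ) (hbe : 0 < be) :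
    ∃ Lx cc Gx : ℝ, 0 ≤ Lx ∧ 0 < cc ∧ cc ≤ c₃ ∧ 0 ≤ Gx ∧ ∃ n₁ : ℕ, 1 ≤ n₁ ∧ ∀ (Qe : ℝ) (Pe P₂ : ℕ), 0 ≤ Qe → P₁ ≤ P₂ → Pe ≤ P₂ → 1 ≤ P₂ →
    ∃ Qx : ℝ, 0 ≤ Qx ∧ ∀ {h : ℝ} {η : Env} {p : ℕ → ℝ} {M : ℕ} {κ : Pt} {T TF i n m : ℕ} {hi : ℤ} {Cb Db : Bool → Finset ℤ} {t : Bool → ℤ}
      {za zb z₀ : ℤ} {A g ca cb c₁' c₃' Q₀ S₀ cen₃ V Φc G₀ Mh ε : ℝ} {G : ℤ → ℝ}, n₁ ≤ TF → TF ≤ T → T ≤ 4 * TF →
      (∀ k, k < M → p k = Real.exp (s + h)) → (∀ k, M ≤ k → p k = Real.exp s) → |h| * n ≤ 1 → 1 ≤ A → 0 ≤ g →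
      -- the lanes
      (∀ j, ∀ x ∈ Cb j, Real.exp (-(ell * EE μ s TF)) * A ≤ W μ s η ((i : ℤ), x) n (t j - x)) →
      (∀ j, ∀ x ∈ Cb j, ∀ y, W μ s η ((i : ℤ), x) n (y - x) ≤ Real.exp (ell * EE μ s TF) * A) →
      (∀ j, ∀ x ∈ Cb j, ∀ y ∈ Icc 0 hi, y ∉ Db j →
        W μ s η ((i : ℤ), x) n (y - x) ≤ Real.exp ((-g - be * (|(y : ℝ) - cb| / wd μ s TF)) * EE μ s TF) * A) →
      |cb - ln35 μ s κ (i + n)| ≤ D * wd μ s TF →
      -- the envelope of every start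
      (∀ x y : ℤ, W μ s η ((i : ℤ), x) n (y - x) ≤ Real.exp ((Qe * gr Pe (|(x : ℝ) - ca| / wd μ s TF) -
        c / 2 * (|(y : ℝ) - x - sl μ s * n| / wd μ s TF)) * EE μ s TF)) →
      |ca - ln35 μ s κ i| ≤ D * wd μ s TF →
      -- single weights
      η ∈ RowG (i : ℤ) za (wd μ s TF) (u * EE μ s TF) → |(za : ℝ) - ln35 μ s κ i| ≤ D * wd μ s TF →
      η ∈ RowG ((i + n : ℕ) : ℤ) zb (wd μ s TF) (u * EE μ s TF) → |(zb : ℝ) - ln35 μ s κ (i + n)| ≤ D * wd μ s TF →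
      -- the cells
      (∀ j, Cb j ⊆ Icc 0 hi) → (∀ j, Db j ⊆ Icc 0 hi) → Disjoint (Cb false) (Cb true) → Disjoint (Db false) (Db true) → (∀ j, t j ∈ Db j) →
      (∀ j, ∀ x ∈ Cb j, |(x : ℝ) - ln35 μ s κ i| ≤ Λ * wd μ s T) → (∀ j, ∀ y ∈ Db j, |(y : ℝ) - ln35 μ s κ (i + n)| ≤ Λ * wd μ s T) →
      -- the profile behind, the envelope from the upper cells
      (∀ z, 0 ≤ G z) → 0 < G₀ → z₀ ∈ Icc 0 hi → |(z₀ : ℝ) - cen₃| ≤ Λ * wd μ s T → (∀ j, ∀ y ∈ Db j, y ≤ z₀ ∧ z₀ ≤ y + m) →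
      0 ≤ V → G₀ ≤ V * G z₀ → V * Real.exp (2 * c₃ * Λ * EE μ s T) ≤ Mh →
      (∀ j, ∀ x ∈ Cb j, ∑ z ∈ Icc 0 hi, kap31 P₁ c₁ cc 0 0 (EE μ s T) (wd μ s T) (ln35 μ s κ i) cen₃ (n + m) x z * G z ≤ Φc * G₀) →
      Real.exp ((Gx - g / 4) * EE μ s T) ≤ ε → Real.exp ((Gx - g / 4) * EE μ s T) * Φc ≤ ε → 0 ≤ Φc →
      0 ≤ c₃' → c₃' ≤ c / 16 → c₃' ≤ c₃ / 2 → Qx ≤ Q₀ → 0 ≤ S₀ →
      Psh (Icc 0 hi) (Icc 0 hi) (Cb false) (Cb true) (Db false) (Db true)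
        (fun x y => ker (wt η) p i n x y / Lam12 μ s h M i n)
        (jph (Icc 0 hi) (kap31 P₂ c₁' c₃' Q₀ S₀ (EE μ s T) (wd μ s T) (ln35 μ s κ i) cen₃ (n + m)) G G₀)
        (jph (Icc 0 hi) (kap31 P₁ c₁ c₃ Q₂ S₂ (EE μ s T) (wd μ s T) (ln35 μ s κ (i + n)) cen₃ m) G G₀) A A
        (Real.exp (Lx * EE μ s T)) 1 Mh 1 ε := by
  have hc0 := h0.c0
  -- the constants
  obtain ⟨R, hR⟩ : ∃ R : ℝ, R = u * (1 + Real.log ((1 + D) * (1 + 8))) := ⟨_, rfl⟩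
  have hR0 : 0 ≤ R := by
    have := Real.log_nonneg (show (1 : ℝ) ≤ (1 + D) * (1 + 8) by linarith)
    rw [hR]
    positivity
  have hb0 : 0 < be / 8 := by linarith
  obtain ⟨uw, huw⟩ : ∃ uw : ℝ, uw = R * gr 1 Λ + LQ 1 (be / 8) R := ⟨_, rfl⟩
  have huw0 : 0 ≤ uw := by
    have h1 := gr_nonneg 1 hΛ
    have h2 := LQ_nonneg (c₁ := be / 8) 1 hR0
    rw [huw]
    positivity
  obtain ⟨Q1, hQ1⟩ : ∃ Q1 : ℝ, Q1 = Q₂ * gr P₁ (AQ P₁ c₁ Q₂) + S₂ := ⟨_, rfl⟩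
  have hgA := gr_nonneg P₁ (AQ_nonneg P₁ c₁ Q₂)
  have hQ10 : 0 ≤ Q1 := by rw [hQ1]; positivity
  obtain ⟨CC, hCC⟩ : ∃ CC : ℝ, CC = LQ P₁ (be / 8) Q1 := ⟨_, rfl⟩
  have hCC0 : 0 ≤ CC := by rw [hCC]; exact LQ_nonneg P₁ hQ10
  obtain ⟨cc, hcc⟩ : ∃ cc : ℝ, cc = min c₃ (be / 8) := ⟨_, rfl⟩
  have hcc0 : 0 < cc := by rw [hcc]; exact lt_min hc₃ hb0
  have hcc1 : cc ≤ c₃ := by rw [hcc]; exact min_le_left _ _
  have hcc2 : cc ≤ be / 8 := by rw [hcc]; exact min_le_right _ _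
  obtain ⟨cm, hcm⟩ : ∃ cm : ℝ, cm = min (c / 8) c₃ := ⟨_, rfl⟩
  have hcm0 : 0 < cm := by rw [hcm]; exact lt_min (by linarith) hc₃
  have hcm1 : cm ≤ c / 8 := by rw [hcm]; exact min_le_left _ _
  have hcm2 : cm ≤ c₃ := by rw [hcm]; exact min_le_right _ _
  obtain ⟨m₁, hm₁, H1⟩ := sumR83 h0 hb0 (σ := 1) one_pos
  obtain ⟨m₂, hm₂, H2⟩ := sumR83 h0 (c₂ := cm / 4) (by linarith) (σ := 1) one_pos
  obtain ⟨m₃, hm₃, H3⟩ := sumR83 h0 (c₂ := 1) one_pos (σ := 1) one_pos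
  obtain ⟨m₄, H4⟩ := Filter.eventually_atTop.1 ((wd_tendsto h0).eventually_ge_atTop 1)
  refine ⟨ell + 1 + 2 * uw + (1 + Λ), cc, CC + cc * Λ + 2 * uw + (1 + Λ) + 2 + be * D, by positivity, hcc0, hcc1, by positivity,
    max (max m₁ m₂) (max m₃ m₄), hm₁.trans ((le_max_left _ _).trans (le_max_left _ _)), fun Qe Pe P₂ hQe hP1 hPe hP2 => ?_⟩
  have hgD := gr_nonneg P₂ (show (0 : ℝ) ≤ 8 + D + 1 by linarith)
  obtain ⟨q, hq⟩ : ∃ q : ℝ, q = (Qe + 1) * gr P₂ (8 + D + 1) * 1 := ⟨_, rfl⟩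
  have hq0 : 0 ≤ q := by rw [hq]; positivity
  obtain ⟨Q, hQ⟩ : ∃ Q : ℝ, Q = q + LQ P₂ (c / 8) R + R + Q1 := ⟨_, rfl⟩
  have hLR := LQ_nonneg (c₁ := c / 8) P₂ hR0
  have hQ0 : 0 ≤ Q := by rw [hQ]; positivity
  refine ⟨lv83 P₂ (cm / 4) Q 2, lv83_nonneg P₂ hQ0 (by norm_num), ?_⟩
  intro h η p M κ T TF i n m hi Cb Db t za zb z₀ A g ca cb c₁' c₃' Q₀ S₀ cen₃ V Φc G₀ Mh ε G hTF hT1 hT4 hp hp' hh hA hg hlow hup hoff hcb
    henv hca hza1 hza2 hzb1 hzb2 hCI hDI hdC hdD htD hCΛ hDΛ hG hG₀ hz₀ hz₀' hzr hV hV₀ hMh hΦ hε1 hε2 hΦ0 hc₃' hc₃1 hc₃2 hQx hS₀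
  have hTF1 : 1 ≤ TF := (hm₁.trans ((le_max_left _ _).trans (le_max_left _ _))).trans hTF
  have hT : max (max m₁ m₂) (max m₃ m₄) ≤ T := hTF.trans hT1
  have hw1 := H4 T (((le_max_right _ _).trans (le_max_right _ _)).trans hT)
  have hw2 := H4 TF (((le_max_right _ _).trans (le_max_right _ _)).trans hTF)
  have hw : 0 < wd μ s T := by linarith
  have hw0 : 0 < wd μ s TF := by linarith
  have hE := EE_pos (μ := μ) (s := s) T
  have hE0 := EE_pos (μ := μ) (s := s) TF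
  have hE01 := one_le_EE (μ := μ) (s := s) TF
  obtain ⟨U1, U2, U3, U4, U5⟩ := unit83 h0 hTF1 hT1 hT4 hw hw0
  have s1 := H1 T (((le_max_left _ _).trans (le_max_left _ _)).trans hT)
  have s2 := H2 T (((le_max_right _ _).trans (le_max_left _ _)).trans hT)
  have s3 := H3 T (((le_max_left _ _).trans (le_max_right _ _)).trans hT)
  have hpp : ∀ k, 0 < p k := fun k => by
    rcases lt_or_ge k M with h1 | h1
    · rw [hp k h1]; exact Real.exp_pos _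
    · rw [hp' k h1]; exact Real.exp_pos _
  generalize hEd : EE μ s T = E at *
  generalize hE0d : EE μ s TF = E₀ at *
  generalize hwd : wd μ s T = w at *
  generalize hw0d : wd μ s TF = w₀ at *
  have hA0 : 0 < A := by linarith
  have ehn : Real.exp (|h| * n) ≤ Real.exp (1 * E₀) := Real.exp_le_exp.2 (by linarith)
  have ehn' : Real.exp (-(1 * E₀)) ≤ Real.exp (-(|h| * n)) := Real.exp_le_exp.2 (by linarith)
  have nkb := nk_kW83 h0 (η := η) hp hp' i n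
  have helE : ell * E₀ ≤ ell * E := mul_le_mul_of_nonneg_left U1 hell
  -- single weights
  have w1 := row83 (cen := ln35 μ s κ i) hza1 hw hw0 hE0.le U1 (by norm_num) U4 hza2 hu hD hR
  have w2 := row83 (cen := ln35 μ s κ (i + n)) hzb1 hw hw0 hE0.le U1 (by norm_num) U4 hzb2 hu hD hR
  have hCΛ' : ∀ x ∈ Cb false ∪ Cb true, |(x : ℝ) - ln35 μ s κ i| ≤ Λ * w := fun x hx => by
    rcases mem_union.1 hx with hx | hx
    · exact hCΛ _ x hx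
    · exact hCΛ _ x hx
  have hDΛ' : ∀ y ∈ Db false ∪ Db true, |(y : ℝ) - ln35 μ s κ (i + n)| ≤ Λ * w := fun x hx => by
    rcases mem_union.1 hx with hx | hx
    · exact hDΛ _ x hx
    · exact hDΛ _ x hx
  have wa := (ws_row83 hE hw hR0 hb0 w1 hΛ hCΛ').1
  have wb := (ws_row83 hE hw hR0 hb0 w2 hΛ hDΛ').2
  rw [← huw] at wa wb
  -- the lanes
  have hE0E : E / w / 2 ≤ E₀ / w₀ := by linarith
  have mf : MF83 (Icc 0 hi) (Cb false) (Cb true) (Db false) (Db true) (nk μ s h η p M i n) (fun y => (y : ℝ) - ln35 μ s κ (i + n))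
      (t false) (t true) E w A (ell + 1) (g / 4 - 1 - be * D) (be / 2) n := by
    have low : ∀ j, ∀ x ∈ Cb j, Real.exp (-((ell + 1) * E)) * A ≤ nk μ s h η p M i n x (t j) := by
      intro j x hx
      refine le_trans ?_ (nkb x (t j)).1
      have h1 := hlow j x hx
      have h2 : Real.exp (-((ell + 1) * E)) ≤ Real.exp (-(1 * E₀)) * Real.exp (-(ell * E₀)) := by
        rw [← Real.exp_add]
        refine Real.exp_le_exp.2 ?_
        linarith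
      calc Real.exp (-((ell + 1) * E)) * A ≤ Real.exp (-(1 * E₀)) * Real.exp (-(ell * E₀)) * A := mul_le_mul_of_nonneg_right h2 hA0.le
        _ = Real.exp (-(1 * E₀)) * (Real.exp (-(ell * E₀)) * A) := by ring
        _ ≤ _ := mul_le_mul ehn' h1 (by positivity) (Real.exp_pos _).le
    have up : ∀ j, ∀ x ∈ Cb j, ∀ y, nk μ s h η p M i n x y ≤ Real.exp ((ell + 1) * E) * A := by
      intro j x hx y
      refine (nkb x y).2.trans ?_
      have h1 := hup j x hx y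
      have h2 : Real.exp (1 * E₀) * Real.exp (ell * E₀) ≤ Real.exp ((ell + 1) * E) := by
        rw [← Real.exp_add]
        refine Real.exp_le_exp.2 ?_
        linarith
      calc Real.exp (|h| * n) * W μ s η ((i : ℤ), x) n (y - x) ≤ Real.exp (1 * E₀) * (Real.exp (ell * E₀) * A) :=
            mul_le_mul ehn h1 (W_nonneg η _ _ _) (Real.exp_pos _).le
        _ = Real.exp (1 * E₀) * Real.exp (ell * E₀) * A := by ring
        _ ≤ _ := mul_le_mul_of_nonneg_right h2 hA0.le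
    have off : ∀ j, ∀ x ∈ Cb j, ∀ y ∈ Icc 0 hi, y ∉ Db j → nk μ s h η p M i n x y ≤
        Real.exp ((-(g / 4 - 1 - be * D) - be / 2 * (|(y : ℝ) - ln35 μ s κ (i + n)| / w)) * E) * A := by
      intro j x hx y hy hyD
      refine (nkb x y).2.trans ?_
      have h1 := hoff j x hx y hy hyD
      have f1 : |(y : ℝ) - ln35 μ s κ (i + n)| ≤ |(y : ℝ) - cb| + D * w₀ := by
        have e1 : (y : ℝ) - ln35 μ s κ (i + n) = ((y : ℝ) - cb) + (cb - ln35 μ s κ (i + n)) := by ring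
        rw [e1]
        exact (abs_add_le _ _).trans (by linarith)
      have f2 : E / w / 2 * |(y : ℝ) - ln35 μ s κ (i + n)| ≤ |(y : ℝ) - cb| / w₀ * E₀ + D * E₀ := by
        have e1 := mul_le_mul hE0E f1 (abs_nonneg _) (div_pos hE0 hw0).le
        have e2 : E₀ / w₀ * (|(y : ℝ) - cb| + D * w₀) = |(y : ℝ) - cb| / w₀ * E₀ + D * E₀ := by field_simp
        linarith
      have f3 : D * E₀ ≤ D * E := mul_le_mul_of_nonneg_left U1 hD
      have f4 : g / 4 * E ≤ g * E₀ := by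
        have := mul_le_mul_of_nonneg_left U2 hg
        linarith
      have f5 := mul_le_mul_of_nonneg_left (f2.trans (add_le_add le_rfl f3)) hbe.le
      have h2 : Real.exp (1 * E₀) * Real.exp ((-g - be * (|(y : ℝ) - cb| / w₀)) * E₀) ≤
          Real.exp ((-(g / 4 - 1 - be * D) - be / 2 * (|(y : ℝ) - ln35 μ s κ (i + n)| / w)) * E) := by
        rw [← Real.exp_add]
        refine Real.exp_le_exp.2 ?_
        have e3 : be * (E / w / 2 * |(y : ℝ) - ln35 μ s κ (i + n)|) = be / 2 * (|(y : ℝ) - ln35 μ s κ (i + n)| / w) * E := by ring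
        rw [e3] at f5
        linarith
      calc Real.exp (|h| * n) * W μ s η ((i : ℤ), x) n (y - x) ≤
            Real.exp (1 * E₀) * (Real.exp ((-g - be * (|(y : ℝ) - cb| / w₀)) * E₀) * A) :=
            mul_le_mul ehn h1 (W_nonneg η _ _ _) (Real.exp_pos _).le
        _ = Real.exp (1 * E₀) * Real.exp ((-g - be * (|(y : ℝ) - cb| / w₀)) * E₀) * A := by ring
        _ ≤ _ := mul_le_mul_of_nonneg_right h2 hA0.le
    exact ⟨fun x y => nk_nonneg hpp i n x y, fun x y hxy => nk_eq_zero i n hxy, htD _, htD _, low _, low _, fun x hx y _ => up _ x hx y,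
      fun x hx y _ => up _ x hx y, off _, off _⟩
  -- the envelope
  have hln : ln35 μ s κ (i + n) - ln35 μ s κ i = sl μ s * n := by
    unfold ln35
    push_cast
    ring
  have hen : En31 P₂ (c / 4) (cm / 4) E w q 1 (fun x => (x : ℝ) - ln35 μ s κ i) (fun y => (y : ℝ) - ln35 μ s κ (i + n))
      (nk μ s h η p M i n) (Icc 0 hi) (Icc 0 hi) := by
    rw [hq]
    have U5' := mul_le_mul_of_nonneg_left U5 (show 0 ≤ c / 4 by linarith)
    refine en_unit (κ := c / 2) (a := ln35 μ s κ i - ca) (ρ := 8) (B := 1) hE hw hE0.le hw0 (by linarith) hD (by norm_num) U4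
      (by linarith) (by linarith) (by rw [abs_sub_comm]; exact hca) (fun x y => nk_nonneg hpp i n x y) (fun x _ y _ => ?_) (by norm_num)
      (fun x => ?_)
    · refine (nkb x y).2.trans ((mul_le_mul ehn (henv x y) (W_nonneg η _ _ _) (Real.exp_pos _).le).trans ?_)
      rw [← Real.exp_add]
      refine Real.exp_le_exp.2 ?_
      have e1 : (x : ℝ) - ln35 μ s κ i + (ln35 μ s κ i - ca) = (x : ℝ) - ca := by ring
      have e2 : ((y : ℝ) - ln35 μ s κ (i + n)) - ((x : ℝ) - ln35 μ s κ i) = (y : ℝ) - x - sl μ s * n := by linarith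
      simp only [e1, e2]
      have hX0 : 0 ≤ |(x : ℝ) - ca| / w₀ := by positivity
      have g1 := gr_pow_le hPe hX0
      have g2 := gr_mono P₂ hX0 (show |(x : ℝ) - ca| / w₀ ≤ |(x : ℝ) - ca| / w₀ + 1 by linarith)
      have g3 := gr_one_le P₂ (show 0 ≤ |(x : ℝ) - ca| / w₀ + 1 by linarith)
      have g4 := mul_le_mul_of_nonneg_right (mul_le_mul_of_nonneg_left (g1.trans g2) hQe) hE0.le
      have g5 := mul_le_mul_of_nonneg_right g3 hE0.le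
      have g6 : c / 2 * (|(y : ℝ) - x - sl μ s * n| / w₀) * E₀ = c / 2 * (E₀ / w₀) * |(y : ℝ) - x - sl μ s * n| := by ring
      linarith
    · refine le_trans (sum_le_sum fun y _ => le_of_eq ?_) (s2 (ln35 μ s κ (i + n) + ((x : ℝ) - ln35 μ s κ i)) (Icc 0 hi))
      congr 4
      ring
  have hK : ∀ x y, ker (wt η) p i n x y / Lam12 μ s h M i n = 1 * (wt η i x * (nk μ s h η p M i n x y * (wt η (i + n) y)⁻¹)) := fun x y => by
    rw [ker_end47, one_mul, div_eq_mul_inv, mul_assoc]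
  have hgr1 : ∀ {X : ℝ}, 0 ≤ X → gr 1 X ≤ gr P₂ X := fun {X} hX => gr_pow_le hP2 hX
  have hc3cm : c₃' ≤ cm / 2 := by
    rw [hcm]
    rcases min_choice (c / 8) c₃ with h1 | h1 <;> rw [h1] <;> linarith
  have cp : ∀ x ∈ Icc 0 hi, ∀ z ∈ Icc 0 hi, ∑ y ∈ Icc 0 hi, ker (wt η) p i n x y / Lam12 μ s h M i n *
      kap31 P₁ c₁ c₃ Q₂ S₂ E w (ln35 μ s κ (i + n)) cen₃ m y z ≤ 1 * kap31 P₂ c₁' c₃' Q₀ S₀ E w (ln35 μ s κ i) cen₃ (n + m) x z := by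
    refine comp0_83 (P := P₂) (N := nk μ s h η p M i n) (K := fun x y => ker (wt η) p i n x y / Lam12 μ s h M i n)
      (α := wt η i) (β := fun y => (wt η (i + n) y)⁻¹) (ℓ₀ := fun x => (x : ℝ) - ln35 μ s κ i)
      (ℓ₁ := fun y => (y : ℝ) - ln35 μ s κ (i + n)) (ℓ₂ := fun z => (z : ℝ) - cen₃) (n := n) (m := m)
      (c := cm) (cN := c / 4) (c₂ := cm / 4) (c₄ := c / 8) (c₅ := cm / 4) (c1 := c₃) (c0 := c₃') (q := q) (s₁ := 1) (s₂ := 1) (S := 2)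
      (Q := Q) (uu := R) (Q₀ := Q₀) (Q1 := Q1) hE hw (by linarith) hen (fun x y hxy => nk_eq_zero i n hxy) hR0
      (fun x => (wt_pos η i x).le) (fun y => (inv_pos.2 (wt_pos η _ y)).le) ?_ ?_ hK one_pos (fun y z => kap31_nonneg y z) ?_ hQ10
      (by norm_num) (fun y z => kap_up83 hE hw hP1 hQ₂ hS₂ hQ1 m y z) ?_ ?_ (by linarith) (by linarith) (by linarith) hcm2 hc₃'
      (by linarith) (by rw [hQ]) (by norm_num) hQx (fun x z => kap31_nonneg x z) ?_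
    · intro x _
      refine (wt_abs83 η i x).2.trans (Real.exp_le_exp.2 ((w1 x).trans ?_))
      exact mul_le_mul_of_nonneg_right (mul_le_mul_of_nonneg_left (hgr1 (by positivity)) hR0) hE.le
    · intro y _
      refine (inv_abs83 η (i + n) y).2.trans (Real.exp_le_exp.2 ((w2 y).trans ?_))
      exact mul_le_mul_of_nonneg_right (mul_le_mul_of_nonneg_left (hgr1 (by positivity)) hR0) hE.le
    · intro y z hyz
      exact if_neg hyz
    · intro y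
      refine le_trans (sum_le_sum fun z _ => le_of_eq ?_) (s2 (cen₃ + ((y : ℝ) - ln35 μ s κ (i + n))) (Icc 0 hi))
      congr 4
      ring
    · intro x
      refine le_trans (sum_le_sum fun z _ => le_of_eq ?_) (s2 (cen₃ + ((x : ℝ) - ln35 μ s κ i)) (Icc 0 hi))
      congr 4
      ring
    · intro x z h1 h2
      have hQ₀ : 0 ≤ Q₀ := (lv83_nonneg P₂ hQ0 (by norm_num)).trans hQx
      exact kap_lo83 hE hw hQ₀ hS₀ hQ₀ le_rfl h1 (by push_cast at h2 ⊢; omega)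
  have fin := psh_dec83 (P := P₁) (J := Icc 0 hi) (I := Icc 0 hi) (U := Icc 0 hi) (N := nk μ s h η p M i n)
    (K := fun x y => ker (wt η) p i n x y / Lam12 μ s h M i n)
    (kap := kap31 P₁ c₁ c₃ Q₂ S₂ E w (ln35 μ s κ (i + n)) cen₃ m) (kap0 := kap31 P₂ c₁' c₃' Q₀ S₀ E w (ln35 μ s κ i) cen₃ (n + m))
    (kc := kap31 P₁ c₁ cc 0 0 E w (ln35 μ s κ i) cen₃ (n + m)) (α := wt η i) (β := fun y => (wt η (i + n) y)⁻¹) (G := G)
    (ℓ₀ := fun x => (x : ℝ) - ln35 μ s κ i) (ℓ₁ := fun y => (y : ℝ) - ln35 μ s κ (i + n)) (ℓ₂ := fun z => (z : ℝ) - cen₃)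
    (t₁ := t false) (t₂ := t true) (z₀ := z₀) (n := n) (m := m) (A := A) (Cs := 1) (ell := ell + 1) (g := g / 4 - 1 - be * D)
    (be := be / 2) (be' := be / 4) (u := uw) (b := be / 8) (σ := 1) (κ := 1 + Λ) (c0 := cc) (c1 := c₃) (Q1 := Q1) (Λ := Λ) (CC := CC)
    (Φ₀ := Φc) (G₀ := G₀) (V := V) (mm := 2 * c₃ * Λ) (L := Real.exp ((ell + 1 + 2 * uw + (1 + Λ)) * E)) (Lk := 1) (Mh := Mh) (ε := ε)
    hE hw mf hA0 one_pos wa wb hK (hCI _) (hCI _) hdC (hDI _) (hDI _) hdD ?_ ?_ (by linarith) hcc0.le hcc1 (by linarith) (by linarith)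
    hCΛ' ?_ ?_ (fun y z => kap31_nonneg y z) ?_ (fun y z => kap_up83 hE hw le_rfl hQ₂ hS₂ hQ1 m y z) (fun x z => kap31_nonneg x z) ?_
    zero_le_one ?_ hG hG₀ ?_ hz₀ hV hV₀ ?_ hMh le_rfl ?_ ?_
  · rwa [one_mul] at fin
  · have h1 := card83 (σ := 1) hE hw zero_le_one (hDΛ false) (s3 _ _)
    rwa [one_mul] at h1
  · have h1 := card83 (σ := 1) hE hw zero_le_one (hDΛ true) (s3 _ _)
    rwa [one_mul] at h1
  · intro d hd
    have h1 := lin_gr83 P₁ hQ10 hb0 hd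
    have h2 := mul_le_mul_of_nonneg_right hcc2 hd
    rw [hCC]
    linarith
  · refine le_trans (sum_le_sum fun y _ => le_of_eq ?_) (s1 (ln35 μ s κ (i + n)) (Icc 0 hi))
    congr 4
    ring
  · intro y z hyz
    exact if_neg hyz
  · intro x z h1 h2
    have h3 := kap_lo83 (P₁ := P₁) (c₁ := c₁) (c₃ := cc) (cen := ln35 μ s κ i) (cen' := cen₃) hE hw (le_refl (0 : ℝ)) (le_refl (0 : ℝ))
      (le_refl (0 : ℝ)) le_rfl h1 h2
    rwa [zero_mul, zero_mul, zero_sub] at h3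
  · intro x hx z hz
    refine (cp x hx z hz).trans (mul_le_mul_of_nonneg_right ?_ (kap31_nonneg x z))
    linarith
  · intro x hx
    rcases mem_union.1 hx with hx | hx
    · exact hΦ _ x hx
    · exact hΦ _ x hx
  · intro y hy
    have hy' := hDΛ' y hy
    have hr : y ≤ z₀ ∧ z₀ ≤ y + m := by
      rcases mem_union.1 hy with hy | hy
      · exact hzr _ y hy
      · exact hzr _ y hy
    have h3 := kap_lo83 (P₁ := P₁) (c₁ := c₁) (c₃ := c₃) (cen := ln35 μ s κ (i + n)) (cen' := cen₃) hE hw hQ₂ hS₂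
      (le_refl (0 : ℝ)) hQ₂ hr.1 hr.2
    rw [zero_mul, zero_mul, zero_sub] at h3
    refine le_trans (Real.exp_le_exp.2 (neg_le_neg ?_)) h3
    have h4 : |((z₀ : ℝ) - cen₃) - ((y : ℝ) - ln35 μ s κ (i + n))| ≤ 2 * Λ * w := (abs_sub _ _).trans (by linarith)
    have h5 := mul_le_mul_of_nonneg_left h4 (mul_nonneg hc₃.le (div_pos hE hw).le)
    have h6 : c₃ * (E / w) * (2 * Λ * w) = 2 * c₃ * Λ * E := by field_simp
    linarith
  · refine le_trans (Real.exp_le_exp.2 (mul_le_mul_of_nonneg_right ?_ hE.le)) hε1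
    have : 0 ≤ cc * Λ := mul_nonneg hcc0.le hΛ
    linarith
  · refine le_trans (mul_le_mul_of_nonneg_right (Real.exp_le_exp.2 (mul_le_mul_of_nonneg_right ?_ hE.le)) hΦ0) hε2
    linarith

end

end Pool.Agent.W_7d29a1_C1.S83
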