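import Pool.Agent.W_7d29a1_C1.KBu21
import Pool.Agent.W_7d29a1_C1.InE60
import Pool.Agent.W_7d29a1_C1.FrcK26
import Pool.Agent.W_7d29a1_C1.PshB83

/-!
Both halves (MP_7d29a1_pr), attractor route [C1]: THE STEP `Stp` OF THE FIRST BUFFER, KERNEL `k0` OF `So47` AT THE ROW `c0`. (helper21)

`kap_mono21` : the cut envelope in its profile exponent, rates and levels. `kSz21` : from the envelope `PE26` of the whole first buffer and the
single weights of the row `c0`: `Stp` from `kr60` at the row `c0 + n1` to `kap31 P₀ c₁₀ c₃₀ Q₀ S₀` at the row `c0`, and `kc21 ≤ k0`.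
-/

set_option autoImplicit false
set_option linter.unusedSectionVars false

namespace Pool.Agent.W_7d29a1_C1.Sh21

open Finset MeasureTheory Pool.Agent.W_7d29a1_F Pool.Agent.W_7d29a1_h4g Pool.Agent.W_7d29a1_H Pool.Agent.W_7d29a1_HS
open Pool.Agent.W_7d29a1_C1 Pool.Agent.W_7d29a1_C1.H75 Pool.Agent.W_7d29a1_C1.U16 Pool.Agent.W_7d29a1_C1.FarK89 Pool.Agent.W_7d29a1_C1.FarW89
open Pool.Agent.W_7d29a1_C1.K91 (wt wt_pos)
open Pool.Agent.W_7d29a1_C1.S12 (Lam12 Lam12_pos)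
open Pool.Agent.W_7d29a1_C1.D31 (En31 kapo31 kap31 kapo31_pos kap31_nonneg kap31_le kap31_of_reach le_kap31)
open Pool.Agent.W_7d29a1_C1.JnC35 (ln35 AQ_mono)
open Pool.Agent.W_7d29a1_C1.H60 (kr60 kr60_nonneg enU60 stp60 wt60)
open Pool.Agent.W_7d29a1_C1.B26 (PE26 lt26)
open Pool.Agent.W_7d29a1_C1.Basin76
open Pool.Agent.W_7d29a1_C1.S83 (RowG nk_kW83 unit83 wt_abs83 row83 gr_pow_le)

noncomputable section

/-- **The cut envelope is monotone.** -/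
theorem kap_mono21 {P P' : ℕ} {c₁ c₃ Q S c₁' c₃' Q' S' E w cen cen' : ℝ} (hE : 0 < E) (hw : 0 < w) (hP : P ≤ P') (hQ : 0 ≤ Q)
    (hQ' : Q * gr P (AQ P c₁ Q) ≤ Q') (hS : S ≤ S') (hc : c₃' ≤ c₃) (m : ℕ) (y z : ℤ) :
    kap31 P c₁ c₃ Q S E w cen cen' m y z ≤ kap31 P' c₁' c₃' Q' S' E w cen cen' m y z := by
  by_cases h1 : y ≤ z ∧ z ≤ y + m
  swap
  · have e : kap31 P c₁ c₃ Q S E w cen cen' m y z = 0 := if_neg h1
    rw [e]
    exact kap31_nonneg _ _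
  rw [kap31_of_reach h1.1 h1.2, kap31_of_reach h1.1 h1.2]
  unfold kapo31
  refine Real.exp_le_exp.2 ?_
  obtain ⟨X, hX⟩ : ∃ X : ℝ, X = |(y : ℝ) - cen| / w := ⟨_, rfl⟩
  have hX0 : 0 ≤ X := by rw [hX]; positivity
  have hA := AQ_nonneg P c₁ Q
  have hA' := AQ_nonneg P' c₁' Q'
  have g1 := gr_shift P hA hX0
  have g2 : gr P X ≤ gr P' (AQ P' c₁' Q' + X) := (gr_pow_le hP hX0).trans (gr_mono P' hX0 (by linarith))
  have g3 := gr_nonneg P hA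
  have g4 := gr_nonneg P' (show 0 ≤ AQ P' c₁' Q' + X by linarith)
  have g5 : Q * gr P (AQ P c₁ Q + X) ≤ Q' * gr P' (AQ P' c₁' Q' + X) := by
    calc Q * gr P (AQ P c₁ Q + X) ≤ Q * (gr P (AQ P c₁ Q) * gr P X) := mul_le_mul_of_nonneg_left g1 hQ
      _ = Q * gr P (AQ P c₁ Q) * gr P X := by ring
      _ ≤ Q * gr P (AQ P c₁ Q) * gr P' (AQ P' c₁' Q' + X) := mul_le_mul_of_nonneg_left g2 (mul_nonneg hQ g3)
      _ ≤ _ := mul_le_mul_of_nonneg_right hQ' g4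
  have g6 := mul_le_mul_of_nonneg_right (add_le_add g5 hS) hE.le
  have g7 := mul_le_mul_of_nonneg_right (mul_le_mul_of_nonneg_right hc (div_pos hE hw).le) (abs_nonneg ((z : ℝ) - cen' - ((y : ℝ) - cen)))
  rw [← hX]
  linarith

/-- The same exponent and rate: the levels. -/
theorem kap_up21 {P : ℕ} {c₁ c₃ Q S Q' S' E w cen cen' : ℝ} (hE : 0 < E) (hw : 0 < w) (hc₁ : 0 < c₁) (hQ : 0 ≤ Q) (hQ' : Q ≤ Q')
    (hS : S ≤ S') (m : ℕ) (y z : ℤ) : kap31 P c₁ c₃ Q S E w cen cen' m y z ≤ kap31 P c₁ c₃ Q' S' E w cen cen' m y z := by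
  by_cases h1 : y ≤ z ∧ z ≤ y + m
  swap
  · have e : kap31 P c₁ c₃ Q S E w cen cen' m y z = 0 := if_neg h1
    rw [e]
    exact kap31_nonneg _ _
  rw [kap31_of_reach h1.1 h1.2, kap31_of_reach h1.1 h1.2]
  unfold kapo31
  refine Real.exp_le_exp.2 ?_
  have hX0 : 0 ≤ |(y : ℝ) - cen| / w := by positivity
  have hA := AQ_nonneg P c₁ Q
  have hA' := AQ_mono (P := P) hc₁ hQ hQ'
  have g1 := gr_mono P (show 0 ≤ AQ P c₁ Q + |(y : ℝ) - cen| / w by linarith) (add_le_add hA' (le_refl (|(y : ℝ) - cen| / w)))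
  have g2 := gr_nonneg P (show 0 ≤ AQ P c₁ Q' + |(y : ℝ) - cen| / w by linarith)
  have g3 : Q * gr P (AQ P c₁ Q + |(y : ℝ) - cen| / w) ≤ Q' * gr P (AQ P c₁ Q' + |(y : ℝ) - cen| / w) :=
    (mul_le_mul_of_nonneg_left g1 hQ).trans (mul_le_mul_of_nonneg_right hQ' g2)
  have g4 := mul_le_mul_of_nonneg_right (add_le_add g3 hS) hE.le
  linarith

/-- **The kernel of the cells is below the kernel of `So47`.** -/
theorem kc_le21 {μ : Measure ℝ} {s : ℝ} {P P₀ : ℕ} {dk ck c₁₀ c₃₀ Q₀ S₀ E w : ℝ} {κ : Pt} {c0 c3 : ℕ} (hE : 0 < E) (hw : 0 < w) (hP : P ≤ P₀)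
    (hQ : 0 ≤ Q₀) (hS : 0 ≤ S₀) (hc : c₃₀ ≤ ck) (a z : ℤ) :
    kc21 μ s P dk ck E w κ c0 c3 a z ≤ kap31 P₀ c₁₀ c₃₀ Q₀ S₀ E w (ln35 μ s κ c0) (ln35 μ s κ c3) (c3 - c0) a z :=
  kap_mono21 hE hw hP le_rfl (by rw [zero_mul]; exact hQ) hS hc _ a z

/-- The level of `k0`. -/
def qz21 (P₀ P : ℕ) (c₁ Q Qw u0 D : ℝ) : ℝ :=
  Q * gr P (AQ P c₁ Q) + (Qw + 1) * gr P₀ (2 * 4 + 8 * D + 1) * 4 + u0 * (1 + Real.log ((1 + 8 * D) * (1 + 8)))

variable {μ : Measure ℝ} {s c C : ℝ} {n₀ : ℕ} [IsProbabilityMeasure μ]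

/-- **THE STEP OF THE FIRST BUFFER**, kernel of `So47` at the row of the cells. -/
theorem kSz21 (h0 : In μ s c C n₀) {c₂ σ D : ℝ} (hc₂ : 0 < c₂) (hσ : 0 < σ) (hD : 0 ≤ D) : ∃ n₁ : ℕ, 1 ≤ n₁ ∧
    ∀ {T TF n1 : ℕ}, n₁ ≤ TF → TF ≤ T → T ≤ 4 * TF →
      ∀ {h : ℝ} {η : Env} {p : ℕ → ℝ} {M P P₀ Pw c0 c3 : ℕ} {κ : Pt} {x0 lo hi : ℤ} {c₁ c₃ c₁₀ c₃₀ Q S Q₀ S₀ Qw u0 : ℝ},
      (∀ k, k < M → p k = Real.exp (s + h)) → (∀ k, M ≤ k → p k = Real.exp s) → |h| * n1 ≤ 1 → c0 + n1 ≤ c3 →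
      |(x0 : ℝ) - ln35 μ s κ c0| ≤ D * wd μ s T → 0 ≤ u0 → η ∈ RowG (c0 : ℤ) x0 (wd μ s TF) (u0 * EE μ s TF) →
      PE26 (kW μ s η c0 n1) (fun x => lt26 (sl μ s) (wd μ s TF) 0 (x - x0)) (fun x => lt26 (sl μ s) (wd μ s TF) n1 (x - x0)) (EE μ s TF)
        Pw Qw (c / 2) → 0 ≤ Qw → Pw ≤ P₀ → P ≤ P₀ → 1 ≤ P₀ → 0 < c₁₀ → 0 ≤ c₃₀ → c₃₀ ≤ c₃ → c₃₀ + c₁₀ + c₂ ≤ c / 64 → 0 ≤ Q →
      qz21 P₀ P c₁ Q Qw u0 D ≤ Q₀ → S + σ ≤ S₀ → ∀ Z : Finset ℤ,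
      Stp (wt η) p lo hi c0 n1 (Icc lo hi) Z (kap31 P₀ c₁₀ c₃₀ Q₀ S₀ (EE μ s T) (wd μ s T) (ln35 μ s κ c0) (ln35 μ s κ c3) (c3 - c0))
        (kr60 μ s η P c₁ c₃ (EE μ s T) (wd μ s T) κ c3 Q S (c0 + n1)) 1 (Lam12 μ s h M c0 n1) := by
  obtain ⟨N1, hN1, H1⟩ := enU60 h0 (show 1 ≤ 4 by norm_num) hc₂ hσ
  obtain ⟨N2, H2⟩ := Filter.eventually_atTop.1 ((wd_tendsto h0).eventually_ge_atTop 1)
  refine ⟨max N1 (max N2 1), (le_max_right _ _).trans (le_max_right _ _), ?_⟩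
  intro T TF n1 hTF hT1 hT4 h η p M P P₀ Pw c0 c3 κ x0 lo hi c₁ c₃ c₁₀ c₃₀ Q S Q₀ S₀ Qw u0 hp hp' hh hr hx0 hu0 hrow hpe hQw hPw hPP hP0
    hc10 hc30 hc33 hcc hQ hQ0 hS0 Z
  have hTF1 : 1 ≤ TF := ((le_max_right _ _).trans (le_max_right _ _)).trans hTF
  have hwF : 0 < wd μ s TF := by linarith [H2 TF (((le_max_left _ _).trans (le_max_right _ _)).trans hTF)]
  have hwT : 0 < wd μ s T := by linarith [H2 T ((((le_max_left _ _).trans (le_max_right _ _)).trans hTF).trans hT1)]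
  have hE := EE_pos (μ := μ) (s := s) T
  have hEF := one_le_EE (μ := μ) (s := s) TF
  obtain ⟨u1, u2, u3, u4, u5⟩ := unit83 h0 hTF1 hT1 hT4 hwT hwF
  have hp0 : ∀ k, 0 < p k := fun k => by
    by_cases hk : k < M
    · rw [hp k hk]
      exact Real.exp_pos _
    · rw [hp' k (not_lt.1 hk)]
      exact Real.exp_pos _
  -- the envelope
  have en := H1 (Tt := T) (T₂ := TF) (((le_max_left _ _).trans hTF).trans hT1) ((le_max_left _ _).trans hTF) hT4 (by omega)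
    (κ := ((c0 : ℤ), x0)) (κ' := κ) (Λ := 8 * D) (q := Qw + 1) (r := c / 2) (k := nk μ s h η p M c0 n1) (i := (c0 : ℤ))
    (j := ((c0 + n1 : ℕ) : ℤ)) (P := P₀) (I := Icc lo hi) (J := Icc lo (hi + n1)) ?_ (by positivity) (by linarith) (by have := h0.c0; linarith)
    (fun x y => nk_nonneg hp0 _ _ _ _) ?_
  rotate_left
  · -- the two lines
    have e1 : lat16 μ s ((c0 : ℤ), x0) κ = -((x0 : ℝ) - ln35 μ s κ c0) := by
      unfold lat16 ln35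
      push_cast
      ring
    rw [e1, abs_neg]
    refine hx0.trans ?_
    have := mul_le_mul_of_nonneg_left u4 hD
    linarith
  · intro x _ y _
    have h1 := hpe x y
    have h2 := (nk_kW83 h0 (h := h) (η := η) (p := p) (M := M) hp hp' c0 n1 x y).2
    have h3 : Real.exp (|h| * n1) ≤ Real.exp (EE μ s TF) := Real.exp_le_exp.2 (by linarith)
    have h4 : nk μ s h η p M c0 n1 x y ≤ Real.exp (EE μ s TF) * kW μ s η c0 n1 x y :=
      h2.trans (mul_le_mul_of_nonneg_right h3 (W_nonneg _ _ _ _))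
    refine h4.trans ((mul_le_mul_of_nonneg_left h1 (Real.exp_pos _).le).trans ?_)
    rw [← Real.exp_add]
    refine Real.exp_le_exp.2 ?_
    have eX : |lt26 (sl μ s) (wd μ s TF) 0 (x - x0)| = |lat16 μ s ((c0 : ℤ), x0) ((c0 : ℤ), x)| / wd μ s TF := by
      have : lt26 (sl μ s) (wd μ s TF) 0 (x - x0) = lat16 μ s ((c0 : ℤ), x0) ((c0 : ℤ), x) / wd μ s TF := by
        unfold lt26 lat16
        push_cast
        ring
      rw [this, abs_div, abs_of_pos hwF]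
    have eY : c / 2 * |lt26 (sl μ s) (wd μ s TF) n1 (y - x0) - lt26 (sl μ s) (wd μ s TF) 0 (x - x0)| * EE μ s TF =
        c / 2 * (EE μ s TF / wd μ s TF) * |lat16 μ s ((c0 : ℤ), x0) (((c0 + n1 : ℕ) : ℤ), y) - lat16 μ s ((c0 : ℤ), x0) ((c0 : ℤ), x)| := by
      have : lt26 (sl μ s) (wd μ s TF) n1 (y - x0) - lt26 (sl μ s) (wd μ s TF) 0 (x - x0) =
          (lat16 μ s ((c0 : ℤ), x0) (((c0 + n1 : ℕ) : ℤ), y) - lat16 μ s ((c0 : ℤ), x0) ((c0 : ℤ), x)) / wd μ s TF := by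
        unfold lt26 lat16
        push_cast
        ring
      rw [this, abs_div, abs_of_pos hwF]
      ring
    have hX0 : 0 ≤ |lat16 μ s ((c0 : ℤ), x0) ((c0 : ℤ), x)| / wd μ s TF := by positivity
    have f1 : fq16 Pw (lt26 (sl μ s) (wd μ s TF) 0 (x - x0)) = gr Pw (|lat16 μ s ((c0 : ℤ), x0) ((c0 : ℤ), x)| / wd μ s TF) := by
      rw [← eX]
      unfold gr
      rfl
    rw [sub_mul, eY]
    have f2 := gr_pow_le hPw hX0
    have f3 := gr_one_le P₀ hX0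
    have f4 : Qw * fq16 Pw (lt26 (sl μ s) (wd μ s TF) 0 (x - x0)) + 1 ≤
        (Qw + 1) * gr P₀ (|lat16 μ s ((c0 : ℤ), x0) ((c0 : ℤ), x)| / wd μ s TF) := by
      rw [f1]
      have := mul_le_mul_of_nonneg_left f2 hQw
      linarith
    have f5 := mul_le_mul_of_nonneg_right f4 (show 0 ≤ EE μ s TF by linarith)
    linarith
  -- the step at the exponent `P₀`
  obtain ⟨q, hq⟩ : ∃ q : ℝ, q = (Qw + 1) * gr P₀ (2 * (4 : ℕ) + 8 * D + 1) * (4 : ℕ) := ⟨_, rfl⟩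
  obtain ⟨u, hu⟩ : ∃ u : ℝ, u = u0 * (1 + Real.log ((1 + 8 * D) * (1 + 8))) := ⟨_, rfl⟩
  obtain ⟨Q', hQ'⟩ : ∃ Q' : ℝ, Q' = Q * gr P (AQ P c₁ Q) := ⟨_, rfl⟩
  have hlog : 0 ≤ Real.log ((1 + 8 * D) * (1 + 8)) := Real.log_nonneg (by linarith)
  have hu' : 0 ≤ u := by
    rw [hu]
    positivity
  have hQ'0 : 0 ≤ Q' := by
    rw [hQ']
    exact mul_nonneg hQ (gr_nonneg P (AQ_nonneg P c₁ Q))
  have hQsum : Q' + q + u ≤ Q₀ := by
    refine le_trans (le_of_eq ?_) hQ0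
    unfold qz21
    rw [hQ', hq, hu]
    push_cast
    ring
  rw [← hq] at en
  have st := stp60 (μ := μ) (s := s) (h := h) (M := M) (η := η) (p := p) (c₃' := c₃₀) (c₃ := c₃) (c₁ := c₁₀) (Q := Q') (S := S) (c := c / 64) hE hwT hc10 hc₂.le hc30 hc33
    hcc hQ'0 hr (κ := κ) (lo := lo) (H := hi) (r := c0) (n := n1) (P := P₀) (q := q) (σ := σ) (c3 := c3) (c₂ := c₂) ?_ Z
  swap
  · have e1 : c / 2 / (2 * ((4 : ℕ) : ℝ) ^ 2) = c / 64 := by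
      push_cast
      ring
    rw [e1] at en
    have e2 : (fun x : ℤ => lat16 μ s κ ((c0 : ℤ), x)) = fun x : ℤ => (x : ℝ) - ln35 μ s κ c0 := by
      funext x
      unfold lat16 ln35
      push_cast
      ring
    have e3 : (fun y : ℤ => lat16 μ s κ (((c0 + n1 : ℕ) : ℤ), y)) = fun y : ℤ => (y : ℝ) - ln35 μ s κ (c0 + n1) := by
      funext x
      unfold lat16 ln35
      push_cast
      ring
    rw [e2, e3] at en
    exact en
  intro x hx z hz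
  have s1 : ∑ y ∈ Icc lo (hi + n1), R26P.kf (wt η) p c0 n1 x y * kr60 μ s η P c₁ c₃ (EE μ s T) (wd μ s T) κ c3 Q S (c0 + n1) y z ≤
      ∑ y ∈ Icc lo (hi + n1), R26P.kf (wt η) p c0 n1 x y * kr60 μ s η P₀ c₁₀ c₃ (EE μ s T) (wd μ s T) κ c3 Q' S (c0 + n1) y z := by
    refine sum_le_sum fun y _ => mul_le_mul_of_nonneg_left ?_ (R26P.kf_nonneg (fun k y => wt_pos η k y) hp0 _ _ _ _)
    unfold kr60
    exact mul_le_mul_of_nonneg_left (kap_mono21 hE hwT hPP hQ (le_of_eq hQ'.symm) le_rfl le_rfl _ y z) (wt_pos η _ _).le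
  refine s1.trans ((st x hx z hz).trans ?_)
  refine mul_le_mul_of_nonneg_left ?_ (mul_nonneg zero_le_one (Lam12_pos _ _ _).le)
  unfold kr60
  have w1 := wt60 (η := η) (P := P₀) (c₁ := c₁₀) (c₃ := c₃₀) (E := EE μ s T) (w := wd μ s T) (Q := Q' + q) (S := S + σ) (x := x)
    (r := c0) (u := u) hE hwT hc10 hP0 (by rw [hq]; have := gr_nonneg P₀ (show 0 ≤ 2 * ((4 : ℕ) : ℝ) + 8 * D + 1 by positivity); positivity) hu'
    (cen := ln35 μ s κ c0) (c3 - c0) (ln35 μ s κ c3) ?_ z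
  · refine w1.trans (kap_up21 hE hwT hc10 ?_ hQsum hS0 _ x z)
    have := gr_nonneg P₀ (show 0 ≤ 2 * ((4 : ℕ) : ℝ) + 8 * D + 1 by positivity)
    rw [hq]
    positivity
  · have r1 := row83 (η := η) (r := c0) (z := x0) (R := u) (u := u0) (D := 8 * D) (E := EE μ s T) (w := wd μ s T) (E₀ := EE μ s TF)
      (w₀ := wd μ s TF) (ρ := 8) (cen := ln35 μ s κ c0) hrow hwT hwF (by linarith) u1 (by norm_num) u4
      (hx0.trans (by have := mul_le_mul_of_nonneg_left u4 hD; linarith)) hu0 (by positivity) hu x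
    refine (wt_abs83 η c0 x).2.trans (Real.exp_le_exp.2 (r1.trans (le_of_eq ?_)))
    unfold gr
    rw [pow_one]

end

end Pool.Agent.W_7d29a1_C1.Sh21
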