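import Pool.Agent.W_7d29a1_C1.BufG26

/-!
MP_7d29a1_pr, [C1] ENVELOPES WITH POLYLOGARITHMIC GROWTH IN THE START and their composition. (helper26)

`PE26 k L L' E P Q h`: `k x y ≤ exp ((Q (1 + log (1 + |L x|))^P - h |L' y - L x|) E)`. `pe_comp26`: two envelopes give an envelope;
`pe_unit26`: the level `UE26` of a block of the scale `m` in the unit of the scale `T`.
-/

set_option autoImplicit false

namespace Pool.Agent.W_7d29a1_C1.B26

open MeasureTheory ProbabilityTheory Filter Topology Finset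
open Pool.Agent.W_7d29a1_F Pool.Agent.W_7d29a1_h4g Pool.Agent.W_7d29a1_H Pool.Agent.W_7d29a1_HS
open Pool.Agent.W_7d29a1_C1
open Pool.Agent.W_7d29a1_C1.Basin76
open Pool.Agent.W_7d29a1_C1.H75 (hc)
open Pool.Agent.W_7d29a1_C1.U16 (fq16 fq16_one fq16_mono lat16)

noncomputable section

/-- The envelope with polylogarithmic growth. -/
def PE26 (k : ℤ → ℤ → ℝ) (L L' : ℤ → ℝ) (E : ℝ) (P : ℕ) (Q h : ℝ) : Prop :=
  ∀ x y : ℤ, k x y ≤ Real.exp ((Q * fq16 P (L x) - h * |L' y - L x|) * E)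

/-- The constant of a linear change of the argument. -/
def C26 (P : ℕ) (a : ℝ) : ℝ := (1 + Real.log (3 * (1 + a))) ^ P

theorem C26_nonneg (P : ℕ) {a : ℝ} (ha : 0 ≤ a) : 0 ≤ C26 P a := by
  unfold C26
  have : 0 ≤ Real.log (3 * (1 + a)) := Real.log_nonneg (by linarith)
  positivity

theorem fq_lin26 (P : ℕ) {a X : ℝ} (ha : 0 ≤ a) (hX : 0 ≤ X) : fq16 P (X * a + 2) ≤ C26 P a * fq16 P X := by
  unfold fq16 C26
  have hXa : 0 ≤ X * a := mul_nonneg hX ha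
  rw [abs_of_nonneg hX, abs_of_nonneg (by linarith), ← mul_pow]
  have h1 : Real.log (1 + (X * a + 2)) ≤ Real.log (3 * (1 + a)) + Real.log (1 + X) := by
    rw [← Real.log_mul (by positivity) (by positivity)]
    exact Real.log_le_log (by linarith) (by nlinarith)
  have h2 : 0 ≤ Real.log (3 * (1 + a)) := Real.log_nonneg (by linarith)
  have h3 : 0 ≤ Real.log (1 + X) := Real.log_nonneg (by linarith)
  have h4 : 0 ≤ Real.log (1 + (X * a + 2)) := Real.log_nonneg (by linarith)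
  refine pow_le_pow_left₀ (by linarith) ?_ P
  nlinarith

theorem fq_pow26 {P P' : ℕ} (h : P ≤ P') (X : ℝ) : fq16 P X ≤ fq16 P' X := by
  unfold fq16
  refine pow_le_pow_right₀ ?_ h
  have : 0 ≤ Real.log (1 + |X|) := Real.log_nonneg (by linarith [abs_nonneg X])
  linarith

/-- **Composition of two envelopes.** -/
theorem pe_comp26 (P₁ P₂ : ℕ) {Q₁ Q₂ h₁ h₂ h : ℝ} (hQ₁ : 0 ≤ Q₁) (hQ₂ : 0 ≤ Q₂) (hh₁ : h < h₁) (hh₂ : h ≤ h₂) (hh : 0 ≤ h) :
    ∃ (P : ℕ) (Q : ℝ), 0 ≤ Q ∧ P₁ ≤ P ∧ Q₁ ≤ Q ∧ ∀ (k₁ k₂ : ℤ → ℤ → ℝ) (L L' L'' : ℤ → ℝ) (E : ℝ), 0 ≤ E →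
      (∀ x y, 0 ≤ k₁ x y) → (∀ x y, 0 ≤ k₂ x y) →
      PE26 k₁ L L' E P₁ Q₁ h₁ → PE26 k₂ L' L'' E P₂ Q₂ h₂ → ∀ (S : Finset ℤ), (S.card : ℝ) ≤ Real.exp E → ∀ x z : ℤ,
      ∑ y ∈ S, k₁ x y * k₂ y z ≤ Real.exp ((Q * fq16 P (L x) - h * |L'' z - L x|) * E) := by
  obtain ⟨M, hM, hM'⟩ := log_small26 P₂ (ε := (h₁ - h) / (Q₂ * 2 ^ P₂ + 1)) (by
    have : 0 ≤ Q₂ * 2 ^ P₂ := by positivity
    exact div_pos (by linarith) (by linarith))
  obtain ⟨A, hA⟩ : ∃ A : ℝ, A = Q₂ * 2 ^ P₂ := ⟨_, rfl⟩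
  have hA0 : 0 ≤ A := by rw [hA]; positivity
  refine ⟨max P₁ P₂, Q₁ + A + A * M + 1, by positivity, le_max_left _ _, ?_,
    fun k₁ k₂ L L' L'' E hE n₁ n₂ e₁ e₂ S hS x z => ?_⟩
  · have : 0 ≤ A * M := mul_nonneg hA0 hM
    linarith
  have key : ∀ y ∈ S, k₁ x y * k₂ y z ≤ Real.exp (((Q₁ + A + A * M) * fq16 (max P₁ P₂) (L x) - h * |L'' z - L x|) * E) := by
    intro y _
    have h1 := mul_le_mul (e₁ x y) (e₂ y z) (n₂ y z) (Real.exp_pos _).le
    rw [← Real.exp_add, ← add_mul] at h1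
    refine h1.trans (Real.exp_le_exp.2 (mul_le_mul_of_nonneg_right ?_ hE))
    have f1 := fq_pow26 (le_max_left P₁ P₂) (L x)
    have f2 := fq_pow26 (le_max_right P₁ P₂) (L x)
    have f3 := fq16_one (max P₁ P₂) (L x)
    -- the second factor
    have g1 : fq16 P₂ (L' y) ≤ fq16 P₂ (|L x| + |L' y - L x|) := by
      refine fq16_mono ?_
      rw [abs_of_nonneg (show 0 ≤ |L x| + |L' y - L x| by positivity)]
      have := abs_add_le (L x) (L' y - L x)
      rwa [add_sub_cancel] at this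
    have g2 := fq26_add P₂ (abs_nonneg (L x)) (abs_nonneg (L' y - L x))
    have g3 := hM' _ (abs_nonneg (L' y - L x))
    have g4 : fq16 P₂ |L x| = fq16 P₂ (L x) := by
      unfold fq16
      rw [abs_abs]
    rw [g4] at g2
    have g5 : Q₂ * fq16 P₂ (L' y) ≤ A * fq16 P₂ (L x) + A * ((h₁ - h) / (A + 1) * |L' y - L x| + M) := by
      have a1 := mul_le_mul_of_nonneg_left (g1.trans g2) hQ₂
      have a2 := mul_le_mul_of_nonneg_left g3 hA0
      rw [hA] at a2 ⊢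
      linarith
    have g6 : A * ((h₁ - h) / (A + 1)) ≤ h₁ - h := by
      rw [mul_div_assoc', div_le_iff₀ (by linarith)]
      nlinarith
    have g7 := mul_le_mul_of_nonneg_right g6 (abs_nonneg (L' y - L x))
    have t1 : |L'' z - L x| ≤ |L'' z - L' y| + |L' y - L x| := abs_sub_le _ _ _
    have t2 := mul_le_mul_of_nonneg_left t1 hh
    have t3 := mul_le_mul_of_nonneg_right hh₂ (abs_nonneg (L'' z - L' y))
    have t4 := mul_le_mul_of_nonneg_left f1 hQ₁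
    have t5 := mul_le_mul_of_nonneg_left f2 hA0
    have t6 := mul_le_mul_of_nonneg_left f3 (mul_nonneg hA0 hM)
    linarith
  have hX : 0 ≤ Real.exp (((Q₁ + A + A * M) * fq16 (max P₁ P₂) (L x) - h * |L'' z - L x|) * E) := (Real.exp_pos _).le
  calc ∑ y ∈ S, k₁ x y * k₂ y z ≤ ∑ _y ∈ S, Real.exp (((Q₁ + A + A * M) * fq16 (max P₁ P₂) (L x) - h * |L'' z - L x|) * E) :=
        sum_le_sum key
    _ = (S.card : ℝ) * Real.exp (((Q₁ + A + A * M) * fq16 (max P₁ P₂) (L x) - h * |L'' z - L x|) * E) := by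
        rw [sum_const, nsmul_eq_mul]
    _ ≤ Real.exp E * Real.exp (((Q₁ + A + A * M) * fq16 (max P₁ P₂) (L x) - h * |L'' z - L x|) * E) :=
        mul_le_mul_of_nonneg_right hS hX
    _ ≤ _ := by
        rw [← Real.exp_add]
        refine Real.exp_le_exp.2 ?_
        have f3 := fq16_one (max P₁ P₂) (L x)
        have := mul_le_mul_of_nonneg_right f3 hE
        linarith

variable {μ : Measure ℝ} {s c C : ℝ} {n₀ : ℕ}

/-- The level of a block in the unit of the scale `T`. -/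
theorem pe_unit26 [IsProbabilityMeasure μ] {m T N P n a : ℕ} {r z : ℤ} {q h J D : ℝ} {η : Env} (hη : η ∈ UE26 μ s c m N P (r, z) q)
    (hn : n ≤ N) (hq : 0 ≤ q) (hw : 0 < wd μ s T) (hwm : 1 ≤ wd μ s m) (hE : EE μ s m ≤ EE μ s T)
    (hh : h * (wd μ s m * EE μ s T) ≤ c * (EE μ s m * wd μ s T)) (hJ0 : 0 ≤ J) (hJ : wd μ s T ≤ J * wd μ s m) (hD : D = 1)
    (hz : |(z : ℝ) - sl μ s * a| ≤ D) :
    PE26 (kW μ s η r n) (lt26 (sl μ s) (wd μ s T) a) (lt26 (sl μ s) (wd μ s T) (a + n)) (EE μ s T) P (q * C26 P J) h := by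
  intro x y
  have hwm0 : 0 < wd μ s m := by linarith
  have hET := EE_pos (μ := μ) (s := s) T
  have h1 := up_unit26 hη hn hq hw hwm0 hE hh x y (Y := |lt26 (sl μ s) (wd μ s T) a x| * J + 2) (by
    have e : (x : ℝ) - z = ((x : ℝ) - sl μ s * a) - ((z : ℝ) - sl μ s * a) := by ring
    have h4 : |(x : ℝ) - z| ≤ |(x : ℝ) - sl μ s * a| + 1 := by
      rw [e]
      refine (abs_sub _ _).trans ?_
      linarith
    have h5 : |(x : ℝ) - z| / wd μ s m ≤ |lt26 (sl μ s) (wd μ s T) a x| * J + 1 := by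
      rw [div_le_iff₀ hwm0]
      have h6 : |(x : ℝ) - sl μ s * a| = |lt26 (sl μ s) (wd μ s T) a x| * wd μ s T := by
        unfold lt26
        rw [abs_div, abs_of_pos hw]
        field_simp
      have h7 := mul_le_mul_of_nonneg_left hJ (abs_nonneg (lt26 (sl μ s) (wd μ s T) a x))
      rw [h6] at h4
      nlinarith
    linarith)
  rw [← lt26_sub (sl μ s) (wd μ s T) a n x y] at h1
  refine h1.trans (Real.exp_le_exp.2 (mul_le_mul_of_nonneg_right ?_ hET.le))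
  have h2 := mul_le_mul_of_nonneg_left (fq_lin26 P hJ0 (abs_nonneg (lt26 (sl μ s) (wd μ s T) a x))) hq
  have g4 : fq16 P |lt26 (sl μ s) (wd μ s T) a x| = fq16 P (lt26 (sl μ s) (wd μ s T) a x) := by
    unfold fq16
    rw [abs_abs]
  rw [g4] at h2
  linarith

end

end Pool.Agent.W_7d29a1_C1.B26
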