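import Pool.Agent.W_7d29a1_C1.BufJ26

/-!
MP_7d29a1_pr, [C1] SHELL, FRESH BALL: COVARIANCE OF THE KERNEL FACTS UNDER THE SHIFT (helper78, wanted by helper47)

`sh z η p = η (p + z)`. A fact of the environment `sh z η` at the base `b` is the fact of `η` at the base `b + z`, columns moved by `z.2`.
* **`kW_sh`**, `kW_of_sh` ; `lat16_add`, `lat16_base` ; `UE26_sh`, `RK26_sh`;
* **`BufO26.shift`** : cells, window, column moved by `d`; `BufO26.sh` : the kernel `kW`;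
* `BufP26.sh` (envelope and output at the base `z`).
-/

set_option autoImplicit false

namespace Pool.Agent.W_7d29a1_C1.B26

open MeasureTheory ProbabilityTheory Filter Topology Finset
open Pool.Agent.W_7d29a1_F Pool.Agent.W_7d29a1_h4g Pool.Agent.W_7d29a1_H Pool.Agent.W_7d29a1_HS
open Pool.Agent.W_7d29a1_C1
open Pool.Agent.W_7d29a1_C1.CR76 Pool.Agent.W_7d29a1_C1.Basin76
open Pool.Agent.W_7d29a1_C1.R26 (RK26)
open Pool.Agent.W_7d29a1_C1.H75 (hc)
open Pool.Agent.W_7d29a1_C1.U16 (fq16 lat16)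

noncomputable section

variable {μ : Measure ℝ} {s c : ℝ}

/-- **The kernel of the shifted environment.** -/
theorem kW_sh (z : Pt) (η : Env) (r : ℤ) (n : ℕ) (x y : ℤ) : kW μ s (sh z η) r n x y = kW μ s η (r + z.1) n (x + z.2) (y + z.2) := by
  unfold kW
  rw [W_sh (μ := μ) (s := s) η ((r, x) : Pt) z n (y - x)]
  have e1 : ((r, x) : Pt) + z = (r + z.1, x + z.2) := rfl
  have e2 : y + z.2 - (x + z.2) = y - x := by ring
  rw [e1, e2]

/-- The kernel read in the shifted environment. -/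
theorem kW_of_sh (z : Pt) (η : Env) (r : ℤ) (n : ℕ) (x y : ℤ) : kW μ s η r n x y = kW μ s (sh z η) (r - z.1) n (x - z.2) (y - z.2) := by
  rw [kW_sh, sub_add_cancel, sub_add_cancel, sub_add_cancel]

theorem lat16_add (b p z : Pt) : lat16 μ s (b + z) (p + z) = lat16 μ s b p := by
  unfold lat16
  have e1 : (p + z).2 - (b + z).2 = p.2 - b.2 := by
    show p.2 + z.2 - (b.2 + z.2) = _
    ring
  have e2 : (p + z).1 - (b + z).1 = p.1 - b.1 := by
    show p.1 + z.1 - (b.1 + z.1) = _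
    ring
  rw [e1, e2]

theorem lat16_base (b p z : Pt) : lat16 μ s (b + z) p = lat16 μ s b (p - z) := by
  have h := lat16_add (μ := μ) (s := s) b (p - z) z
  rwa [sub_add_cancel] at h

/-- The upper envelope. -/
theorem UE26_sh (n N P : ℕ) (b z : Pt) (q : ℝ) (η : Env) : sh z η ∈ UE26 μ s c n N P b q ↔ η ∈ UE26 μ s c n N P (b + z) q := by
  constructor
  · intro h p j h1 h2 y
    have h1' : b.1 + z.1 ≤ p.1 := h1
    have h2' : p.1 + j ≤ b.1 + z.1 + N := h2
    have k := h (p - z) j (by show b.1 ≤ p.1 - z.1; linarith) (by show p.1 - z.1 + j ≤ b.1 + N; linarith) y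
    rw [W_sh, sub_add_cancel, ← lat16_base] at k
    exact k
  · intro h p j h1 h2 y
    have k := h (p + z) j (by show b.1 + z.1 ≤ p.1 + z.1; linarith) (by show p.1 + z.1 + j ≤ b.1 + z.1 + N; linarith) y
    rw [lat16_add] at k
    rw [W_sh]
    exact k

/-- The event of a cross ratio. -/
theorem RK26_sh (z : Pt) (η : Env) (r : ℤ) (n : ℕ) (x x' y y' : ℤ) (ε : ℝ) :
    sh z η ∈ RK26 μ s r n x x' y y' ε ↔ η ∈ RK26 μ s (r + z.1) n (x + z.2) (x' + z.2) (y + z.2) (y' + z.2) ε := by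
  have e : CR (kW μ s (sh z η) r n) x x' y y' = CR (kW μ s η (r + z.1) n) (x + z.2) (x' + z.2) (y + z.2) (y' + z.2) := by
    unfold CR
    rw [kW_sh, kW_sh, kW_sh, kW_sh]
  constructor
  · intro h
    have h' : CR (kW μ s (sh z η) r n) x x' y y' ≤ 1 + ε := h
    rw [e] at h'
    exact h'
  · intro h
    have h' : CR (kW μ s η (r + z.1) n) (x + z.2) (x' + z.2) (y + z.2) (y' + z.2) ≤ 1 + ε := h
    rw [← e] at h'
    exact h'

/-! ### The output of the buffer -/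

section out

variable {Kr Kr' : ℤ → ℤ → ℝ} {L3 L3' : ℤ → ℝ} {E lam1 lam2 : ℝ} {a1 b1 a2 b2 xa xb s0 : ℤ} {A δ ell ell0 Kc be g : ℝ}

theorem sum_shift (d : ℤ) (X : Finset ℤ) (f f' : ℤ → ℝ) (h : ∀ x, f' (x + d) = f x) :
    ∑ x ∈ X, f' x = ∑ x ∈ X.map ⟨fun x : ℤ => x - d, fun a b hab => by
      have : a - d = b - d := hab
      omega⟩, f x := by
  rw [sum_map]
  refine sum_congr rfl fun x _ => ?_
  have := h (x - d)
  rw [sub_add_cancel] at this
  exact this

theorem mem_shift {d : ℤ} {X : Finset ℤ} {x : ℤ} (hx : x ∈ X.map ⟨fun x : ℤ => x - d, fun a b hab => by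
      have : a - d = b - d := hab
      omega⟩) : x + d ∈ X := by
  obtain ⟨y, hy, rfl⟩ := mem_map.1 hx
  show y - d + d ∈ X
  rwa [sub_add_cancel]

/-- **The output of the buffer, columns moved by `d`.** -/
theorem BufO26.shift (H : BufO26 Kr L3 E lam1 lam2 a1 b1 a2 b2 xa xb s0 A δ ell ell0 Kc be g) (d : ℤ)
    (hK : ∀ y x, Kr' (y + d) (x + d) = Kr y x) (hL : ∀ x, L3' (x + d) = L3 x) :
    BufO26 Kr' L3' E lam1 lam2 (a1 + d) (b1 + d) (a2 + d) (b2 + d) (xa + d) (xb + d) (s0 + d) A δ ell ell0 Kc be g := by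
  have hK' : ∀ y x, Kr' y x = Kr (y - d) (x - d) := fun y x => by
    have := hK (y - d) (x - d)
    rwa [sub_add_cancel, sub_add_cancel] at this
  have hL' : ∀ x, L3' x = L3 (x - d) := fun x => by
    have := hL (x - d)
    rwa [sub_add_cancel] at this
  have hS : ∀ (y : ℤ) (X : Finset ℤ), ∑ x ∈ X, Kr' y x * Real.exp (be * |L3' x| * E) =
      ∑ x ∈ X.map ⟨fun x : ℤ => x - d, fun a b hab => by
        have : a - d = b - d := hab
        omega⟩, Kr (y - d) x * Real.exp (be * |L3 x| * E) := fun y X =>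
    sum_shift d X _ _ fun x => by
      rw [hK', hL', add_sub_cancel_right]
  have hor : ∀ y : ℤ, (a1 + d ≤ y ∧ y ≤ b1 + d) ∨ (a2 + d ≤ y ∧ y ≤ b2 + d) → (a1 ≤ y - d ∧ y - d ≤ b1) ∨ (a2 ≤ y - d ∧ y - d ≤ b2) := by
    intro y h
    omega
  refine ⟨?_, ?_, fun y h1 h2 x hx => ?_, fun y h1 h2 x hx => ?_, fun y hy x h1 h2 => ?_, fun y hy x => ?_, fun y hy X hX => ?_,
    fun y hy X hX => ?_, fun y h1 h2 X hX => ?_, fun y h1 h2 X hX => ?_⟩
  · have h := H.cr1
    unfold CR at h ⊢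
    rw [hK, hK, hK, hK]
    exact h
  · have h := H.cr2
    unfold CR at h ⊢
    rw [hK, hK, hK, hK]
    exact h
  · rw [hL'] at hx
    rw [hK']
    exact H.lowc1 (y - d) (by omega) (by omega) (x - d) hx
  · rw [hL'] at hx
    rw [hK']
    exact H.lowc2 (y - d) (by omega) (by omega) (x - d) hx
  · rw [hK']
    exact H.loww (y - d) (hor y hy) (x - d) (by omega) (by omega)
  · rw [hK']
    exact H.up (y - d) (hor y hy) (x - d)
  · rw [hS]
    exact H.exl (y - d) (hor y hy) _ fun x hx => by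
      have := hX _ (mem_shift hx)
      omega
  · rw [hS]
    exact H.exr (y - d) (hor y hy) _ fun x hx => by
      have := hX _ (mem_shift hx)
      omega
  · rw [hS]
    exact H.sep1 (y - d) (by omega) (by omega) _ fun x hx => by
      have := hX _ (mem_shift hx)
      omega
  · rw [hS]
    exact H.sep2 (y - d) (by omega) (by omega) _ fun x hx => by
      have := hX _ (mem_shift hx)
      omega

/-- The output of the buffer for `kW` of the shifted environment. -/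
theorem BufO26.sh {z : Pt} {η : Env} {r : ℤ} {n : ℕ}
    (H : BufO26 (kW μ s (Pool.Agent.W_7d29a1_F.sh z η) r n) L3 E lam1 lam2 a1 b1 a2 b2 xa xb s0 A δ ell ell0 Kc be g) :
    BufO26 (kW μ s η (r + z.1) n) (fun x => L3 (x - z.2)) E lam1 lam2 (a1 + z.2) (b1 + z.2) (a2 + z.2) (b2 + z.2) (xa + z.2)
      (xb + z.2) (s0 + z.2) A δ ell ell0 Kc be g :=
  H.shift z.2 (fun y x => (kW_sh z η r n y x).symm) fun x => by
    show L3 (x + z.2 - z.2) = L3 x
    rw [add_sub_cancel_right]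

end out

/-- **`BufP26` at the base `z`** : the envelope and the output. -/
theorem BufP26.sh {z : Pt} {η : Env} {nM T nB : ℕ} {u : Bool → ℤ} {th K Kx del A δ ell ellw Kc be g Q1 : ℝ}
    (H : BufP26 μ s c (Pool.Agent.W_7d29a1_F.sh z η) nM T nB u th K Kx del A δ ell ellw Kc be g Q1) :
    (∀ y x : ℤ, kW μ s η z.1 (nM + (T + nB)) (y + z.2) (x + z.2) ≤
      Real.exp ((Q1 + 3 * (c / 16) * |lt26 (sl μ s) (wd μ s T) 0 y| -
        c / 2 * |lt26 (sl μ s) (wd μ s T) (nM + T + nB) x - lt26 (sl μ s) (wd μ s T) 0 y|) * EE μ s T)) ∧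
    ∀ a1 b1 a2 b2 xa xb s0 : ℤ, a1 ≤ b1 → a2 ≤ b2 → (∀ y : ℤ, a1 ≤ y → y ≤ b1 → |(y : ℝ) - u false| ≤ th * wd μ s T) →
      (∀ y : ℤ, a2 ≤ y → y ≤ b2 → |(y : ℝ) - u true| ≤ th * wd μ s T) → -K ≤ lt26 (sl μ s) (wd μ s T) (nM + T + nB) xa →
      lt26 (sl μ s) (wd μ s T) (nM + T + nB) xa ≤ -Kx → lt26 (sl μ s) (wd μ s T) (nM + T + nB) xb ≤ K →
      Kx ≤ lt26 (sl μ s) (wd μ s T) (nM + T + nB) xb → xa ≤ xb →
      u false / wd μ s T + del / 4 ≤ lt26 (sl μ s) (wd μ s T) (nM + T + nB) s0 →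
      lt26 (sl μ s) (wd μ s T) (nM + T + nB) s0 + del / 4 ≤ u true / wd μ s T →
      BufO26 (kW μ s η z.1 (nM + (T + nB))) (fun x => lt26 (sl μ s) (wd μ s T) (nM + T + nB) (x - z.2)) (EE μ s T) (u false / wd μ s T)
        (u true / wd μ s T) (a1 + z.2) (b1 + z.2) (a2 + z.2) (b2 + z.2) (xa + z.2) (xb + z.2) (s0 + z.2) A δ ell ellw Kc be g := by
  refine ⟨fun y x => ?_, fun a1 b1 a2 b2 xa xb s0 h1 h2 h3 h4 h5 h6 h7 h8 h9 h10 h11 => ?_⟩
  · have h := H.env y x
    rw [kW_sh, zero_add] at h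
    exact h
  · have h := (H.out a1 b1 a2 b2 xa xb s0 h1 h2 h3 h4 h5 h6 h7 h8 h9 h10 h11).sh
    rw [zero_add] at h
    exact h

end

end Pool.Agent.W_7d29a1_C1.B26
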