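import Pool.Agent.W_7d29a1_C1.FrbH26
import Pool.Agent.W_7d29a1_C1.FrbP26
import Pool.Agent.W_7d29a1_C1.ShF78

/-!
MP_7d29a1_pr, [C1] THE BUFFER OF THE FRESH BALL: the two output structures `MO26` (`M o F`), `BO26` (the whole buffer), their change by a
shift of the columns, and the envelopes of composed blocks. (helper26)
-/

set_option autoImplicit false

namespace Pool.Agent.W_7d29a1_C1.B26

open MeasureTheory ProbabilityTheory Filter Topology Finset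
open Pool.Agent.W_7d29a1_F Pool.Agent.W_7d29a1_h4g Pool.Agent.W_7d29a1_H Pool.Agent.W_7d29a1_HS
open Pool.Agent.W_7d29a1_C1
open Pool.Agent.W_7d29a1_C1.Basin76
open Pool.Agent.W_7d29a1_C1.U16 (fq16 fq16_one fq16_mono lat16)

noncomputable section

/-- **The output of `M o F`.** Kernel `N`, lateral coordinates `L0` of the start row, `Lp` of the end row, unit `E`; start cells
`|x - u i| ≤ R`, ends `t i`, end cells `|y - t i| ≤ r`; strength `exp (L E) ≤ A ≤ exp (Q1 E)`. -/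
structure MO26 (N : ℤ → ℤ → ℝ) (L0 Lp : ℤ → ℝ) (E : ℝ) (u t : Bool → ℤ) (R r L Q1 A ell g G' be : ℝ) (P : ℕ) (Q hh : ℝ) : Prop where
  lo : Real.exp (L * E) ≤ A
  up : A ≤ Real.exp (Q1 * E)
  mf : MF26 N Lp u t R r E A ell g G' be
  pe : PE26 N L0 Lp E P Q hh

/-- **The output of the whole buffer.** Kernel `Kr`, lateral coordinates `L0` of the start row, `L3` of the end row, `mu i` the lateral
coordinates of the ends of the lanes. -/
structure BO26 (Kr : ℤ → ℤ → ℝ) (L0 L3 : ℤ → ℝ) (E : ℝ) (u : Bool → ℤ) (mu : Bool → ℝ) (R K Kx del A δ ell ellw Kc be g G' hB : ℝ)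
    (P : ℕ) (Q hh : ℝ) : Prop where
  out : OutW26 Kr L3 u mu R E K Kx del A δ ell ellw Kc be g
  pt : PtW26 Kr L3 u mu R E A ell g G' be hB
  pe : PE26 Kr L0 L3 E P Q hh

/-! ### Monotonicity -/

section mono

variable {N Kr : ℤ → ℤ → ℝ} {Lp L3 : ℤ → ℝ} {u t : Bool → ℤ} {mu : Bool → ℝ} {R r E A ell g G' be hB : ℝ}

theorem MF26.mono_be (H : MF26 N Lp u t R r E A ell g G' be) {be' : ℝ} (hb : be' ≤ be) (hE : 0 ≤ E) (hA : 0 ≤ A) :
    MF26 N Lp u t R r E A ell g G' be' := by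
  refine ⟨H.low, H.up, H.crs, fun i x hx y hy => (H.off i x hx y hy).trans ?_⟩
  refine mul_le_mul_of_nonneg_right (Real.exp_le_exp.2 (mul_le_mul_of_nonneg_right ?_ hE)) hA
  have := mul_le_mul_of_nonneg_right hb (abs_nonneg (Lp y))
  linarith

theorem PtW26.mono (H : PtW26 Kr L3 u mu R E A ell g G' be hB) {ell' g1 G1 : ℝ} (h1 : ell ≤ ell') (h2 : g1 ≤ g) (h3 : G1 ≤ G')
    (hE : 0 ≤ E) (hA : 0 ≤ A) : PtW26 Kr L3 u mu R E A ell' g1 G1 be hB := by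
  intro i y hy x
  refine (H i y hy x).trans (mul_le_mul_of_nonneg_right (add_le_add (add_le_add ?_ ?_) ?_) hA)
  · exact Real.exp_le_exp.2 (mul_le_mul_of_nonneg_right (by linarith) hE)
  · exact Real.exp_le_exp.2 (mul_le_mul_of_nonneg_right (by linarith) hE)
  · exact Real.exp_le_exp.2 (mul_le_mul_of_nonneg_right (by linarith) hE)

end mono

/-! ### The shift of the columns -/

section shift

variable {N N' Kr Kr' : ℤ → ℤ → ℝ} {L0 L0' Lp Lp' L3 L3' : ℤ → ℝ} {E : ℝ} {u t u' t' : Bool → ℤ} {mu : Bool → ℝ}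
  {R r L Q1 A ell g G' be hB K Kx del δ ellw Kc : ℝ} {P : ℕ} {Q hh : ℝ}

theorem MF26.shift (H : MF26 N Lp u t R r E A ell g G' be) (d : ℤ) (hN : ∀ x y, N' (x + d) (y + d) = N x y)
    (hL : ∀ x, Lp' (x + d) = Lp x) (hu : ∀ i, u' i = u i + d) (ht : ∀ i, t' i = t i + d) : MF26 N' Lp' u' t' R r E A ell g G' be := by
  have hN' : ∀ y x, N' y x = N (y - d) (x - d) := fun y x => by
    have := hN (y - d) (x - d)
    rwa [sub_add_cancel, sub_add_cancel] at this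
  have hL' : ∀ x, Lp' x = Lp (x - d) := fun x => by
    have := hL (x - d)
    rwa [sub_add_cancel] at this
  have cu : ∀ (i : Bool) (x : ℤ), |(x : ℝ) - u' i| = |((x - d : ℤ) : ℝ) - u i| := fun i x => by
    rw [hu]
    congr 1
    push_cast
    ring
  have ct : ∀ (i : Bool) (x : ℤ), |(x : ℝ) - t' i| = |((x - d : ℤ) : ℝ) - t i| := fun i x => by
    rw [ht]
    congr 1
    push_cast
    ring
  refine ⟨fun i x hx => ?_, fun i x hx y => ?_, fun i x hx y hy => ?_, fun i x hx y hy => ?_⟩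
  · rw [cu] at hx
    have := H.low i (x - d) hx
    rw [hN', ht, add_sub_cancel_right]
    exact this
  · rw [cu] at hx
    rw [hN']
    exact H.up i (x - d) hx (y - d)
  · rw [cu] at hx
    rw [ct] at hy
    rw [hN']
    exact H.crs i (x - d) hx (y - d) hy
  · rw [cu] at hx
    rw [hN', hL']
    exact H.off i (x - d) hx (y - d) fun j => by
      rw [← ct]
      exact hy j

theorem PE26.shift (H : PE26 N L0 Lp E P Q hh) (d : ℤ) (hN : ∀ x y, N' (x + d) (y + d) = N x y) (hL0 : ∀ x, L0' (x + d) = L0 x)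
    (hL : ∀ x, Lp' (x + d) = Lp x) : PE26 N' L0' Lp' E P Q hh := by
  intro x y
  have h1 := H (x - d) (y - d)
  rw [← hN, ← hL0, ← hL, sub_add_cancel, sub_add_cancel] at h1
  exact h1

theorem PtW26.shift (H : PtW26 Kr L3 u mu R E A ell g G' be hB) (d : ℤ) (hK : ∀ x y, Kr' (x + d) (y + d) = Kr x y)
    (hL : ∀ x, L3' (x + d) = L3 x) (hu : ∀ i, u' i = u i + d) : PtW26 Kr' L3' u' mu R E A ell g G' be hB := by
  intro i y hy x
  have h1 := H i (y - d) (by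
    have e : ((y - d : ℤ) : ℝ) - u i = (y : ℝ) - u' i := by
      rw [hu]
      push_cast
      ring
    rw [e]
    exact hy) (x - d)
  rw [← hK, ← hL, sub_add_cancel, sub_add_cancel] at h1
  exact h1

theorem OutW26.shift (H : OutW26 Kr L3 u mu R E K Kx del A δ ell ellw Kc be g) (d : ℤ) (hK : ∀ x y, Kr' (x + d) (y + d) = Kr x y)
    (hL : ∀ x, L3' (x + d) = L3 x) (hu : ∀ i, u' i = u i + d) : OutW26 Kr' L3' u' mu R E K Kx del A δ ell ellw Kc be g := by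
  have hL' : ∀ x, L3' x = L3 (x - d) := fun x => by
    have := hL (x - d)
    rwa [sub_add_cancel] at this
  intro a1 b1 a2 b2 xa xb s0 h1 h2 c1 c2 x1 x2 x3 x4 x5 s1 s2
  have h3 := H (a1 - d) (b1 - d) (a2 - d) (b2 - d) (xa - d) (xb - d) (s0 - d) (by omega) (by omega) (fun y g1 g2 => ?_) (fun y g1 g2 => ?_)
    (by rw [← hL']; exact x1) (by rw [← hL']; exact x2) (by rw [← hL']; exact x3) (by rw [← hL']; exact x4) (by omega)
    (by rw [← hL']; exact s1) (by rw [← hL']; exact s2)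
  · have h4 := h3.shift d hK hL
    rw [sub_add_cancel, sub_add_cancel, sub_add_cancel, sub_add_cancel, sub_add_cancel, sub_add_cancel, sub_add_cancel] at h4
    exact h4
  · have h5 := c1 (y + d) (by omega) (by omega)
    rw [hu] at h5
    push_cast at h5
    rwa [add_sub_add_right_eq_sub] at h5
  · have h5 := c2 (y + d) (by omega) (by omega)
    rw [hu] at h5
    push_cast at h5
    rwa [add_sub_add_right_eq_sub] at h5

theorem MO26.shift (H : MO26 N L0 Lp E u t R r L Q1 A ell g G' be P Q hh) (d : ℤ) (hN : ∀ x y, N' (x + d) (y + d) = N x y)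
    (hL0 : ∀ x, L0' (x + d) = L0 x) (hL : ∀ x, Lp' (x + d) = Lp x) (hu : ∀ i, u' i = u i + d) (ht : ∀ i, t' i = t i + d) :
    MO26 N' L0' Lp' E u' t' R r L Q1 A ell g G' be P Q hh :=
  ⟨H.lo, H.up, H.mf.shift d hN hL hu ht, H.pe.shift d hN hL0 hL⟩

theorem BO26.shift (H : BO26 Kr L0 L3 E u mu R K Kx del A δ ell ellw Kc be g G' hB P Q hh) (d : ℤ)
    (hK : ∀ x y, Kr' (x + d) (y + d) = Kr x y) (hL0 : ∀ x, L0' (x + d) = L0 x) (hL : ∀ x, L3' (x + d) = L3 x)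
    (hu : ∀ i, u' i = u i + d) : BO26 Kr' L0' L3' E u' mu R K Kx del A δ ell ellw Kc be g G' hB P Q hh :=
  ⟨H.out.shift d hK hL hu, H.pt.shift d hK hL hu, H.pe.shift d hK hL0 hL⟩

end shift

/-! ### Envelopes of composed blocks -/

/-- The rule of composition of two envelopes. -/
def PC26 (P₁ P₂ P : ℕ) (Q₁ Q₂ Q h₁ h₂ h : ℝ) : Prop := ∀ (k₁ k₂ : ℤ → ℤ → ℝ) (L L' L'' : ℤ → ℝ) (E : ℝ), 0 ≤ E →
  (∀ x y, 0 ≤ k₁ x y) → (∀ x y, 0 ≤ k₂ x y) →
  PE26 k₁ L L' E P₁ Q₁ h₁ → PE26 k₂ L' L'' E P₂ Q₂ h₂ → ∀ (S : Finset ℤ), (S.card : ℝ) ≤ Real.exp E → ∀ x z : ℤ,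
  ∑ y ∈ S, k₁ x y * k₂ y z ≤ Real.exp ((Q * fq16 P (L x) - h * |L'' z - L x|) * E)

theorem pc26 (P₁ P₂ : ℕ) {Q₁ Q₂ h₁ h₂ h : ℝ} (hQ₁ : 0 ≤ Q₁) (hQ₂ : 0 ≤ Q₂) (hh₁ : h < h₁) (hh₂ : h ≤ h₂) (hh : 0 ≤ h) :
    ∃ (P : ℕ) (Q : ℝ), 0 ≤ Q ∧ P₁ ≤ P ∧ Q₁ ≤ Q ∧ PC26 P₁ P₂ P Q₁ Q₂ Q h₁ h₂ h := pe_comp26 P₁ P₂ hQ₁ hQ₂ hh₁ hh₂ hh

variable {μ : Measure ℝ} {s c C : ℝ} {n₀ : ℕ}

theorem pe_kW26 {η : Env} {r : ℤ} {n1 n2 P₁ P₂ P : ℕ} {Q₁ Q₂ Q h₁ h₂ h E : ℝ} {L L' L'' : ℤ → ℝ} (C : PC26 P₁ P₂ P Q₁ Q₂ Q h₁ h₂ h)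
    (hE : 0 ≤ E) (e₁ : PE26 (kW μ s η r n1) L L' E P₁ Q₁ h₁) (e₂ : PE26 (kW μ s η (r + n1) n2) L' L'' E P₂ Q₂ h₂)
    (hn : (n1 : ℝ) + 1 ≤ Real.exp E) : PE26 (kW μ s η r (n1 + n2)) L L'' E P Q h := by
  intro x z
  rw [kW_step26 (μ := μ) (s := s) η r n1 n2 x z (Icc x (x + n1)) (Subset.refl _) (fun y => kW μ s η (r + n1) n2 y z) fun y _ => rfl]
  refine C _ _ _ _ _ _ hE (fun x y => kW_nonneg η r n1 x y) (fun x y => kW_nonneg η _ n2 x y) e₁ e₂ _ ?_ x z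
  rw [Int.card_Icc]
  have e : (x + (n1 : ℤ) + 1 - x).toNat = n1 + 1 := by omega
  rw [e]
  push_cast
  exact hn

end

end Pool.Agent.W_7d29a1_C1.B26
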