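import Pool.Agent.W_7d29a1_C1.Fact74

/-!
Both halves (MP_7d29a1_pr), attractor route [C1]: SUCCESS => H1, first part : EXITS FROM ENVELOPES. (helper21)

Everything is over the kernels `kf w p r n` of K91P. `cen r` = the site of the line in the row `r`, `dc` = distance from the line,
`sk` = skew of a step. `KD` : a kernel with an upper envelope and a lower bound on a window, in one normalization `κ`; `Gr` : a profile
which grows at most like `exp (V + β dc)`; `FL` : a slab with one lane into the narrow cell `[ya, yb]`.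

* `Gr.pull` : backward masses behind a `KD` kernel;
* `lx_far`, `rx_far` : exits from a window at distance `D`;
* `lx_fun`, `rx_fun` : exits from the narrow cell behind one lane.
-/

set_option autoImplicit false
set_option linter.unusedSectionVars false

namespace Pool.Agent.W_7d29a1_C1.X21

open Finset Pool.Agent.W_7d29a1_C1.Gini76 Pool.Agent.W_7d29a1_C1.CR76 Pool.Agent.W_7d29a1_C1.K91P
  Pool.Agent.W_7d29a1_C1.Basin76 Pool.Agent.W_7d29a1_C1.R26P Pool.Agent.W_7d29a1_C1.F74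

noncomputable section

/-! ### Distances -/

/-- Distance of a site of the row `r` from the line. -/
def dc (cen : ℕ → ℤ) (r : ℕ) (y : ℤ) : ℝ := |((y - cen r : ℤ) : ℝ)|

/-- Skew of a step from the row `r` to the row `r + n`. -/
def sk (cen : ℕ → ℤ) (r n : ℕ) (y x : ℤ) : ℝ := |((x - cen (r + n) - (y - cen r) : ℤ) : ℝ)|

variable {cen : ℕ → ℤ}

theorem dc_nonneg (r : ℕ) (y : ℤ) : 0 ≤ dc cen r y := abs_nonneg _

theorem sk_nonneg (r n : ℕ) (y x : ℤ) : 0 ≤ sk cen r n y x := abs_nonneg _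

theorem dc_self (r : ℕ) : dc cen r (cen r) = 0 := by
  unfold dc
  simp

theorem dc_le (r n : ℕ) (y x : ℤ) : dc cen (r + n) x ≤ sk cen r n y x + dc cen r y := by
  unfold dc sk
  refine le_trans (le_of_eq ?_) (abs_add_le _ _)
  congr 1
  push_cast
  ring

theorem le_dc_left {r : ℕ} {x : ℤ} {D : ℝ} (h : D ≤ ((cen r - x : ℤ) : ℝ)) : D ≤ dc cen r x := by
  unfold dc
  refine h.trans (le_trans (le_abs_self _) (le_of_eq ?_))
  rw [← abs_neg]
  congr 1
  push_cast
  ring

theorem le_dc_right {r : ℕ} {x : ℤ} {D : ℝ} (h : D ≤ ((x - cen r : ℤ) : ℝ)) : D ≤ dc cen r x := h.trans (le_abs_self _)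

/-! ### Data -/

/-- A kernel with envelope and lower bound. `H` = last site of the start row for which the envelope is asked. -/
structure KD (w : ℕ → ℤ → ℝ) (p : ℕ → ℝ) (cen : ℕ → ℤ) (lo H : ℤ) (r n : ℕ) (κ U U' b h Ry Rx : ℝ) : Prop where
  k0 : 0 < κ
  up : ∀ y x : ℤ, lo ≤ y → y ≤ H → kf w p r n y x ≤ κ * Real.exp (U + b * dc cen r y - h * sk cen r n y x)
  lw : ∀ y x : ℤ, dc cen r y ≤ Ry → dc cen (r + n) x ≤ Rx → κ * Real.exp (-U') ≤ kf w p r n y x

/-- Growth of a profile. -/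
def Gr (cen : ℕ → ℤ) (lo H : ℤ) (r : ℕ) (V β : ℝ) (F : ℤ → ℝ) : Prop :=
  ∀ x : ℤ, lo ≤ x → x ≤ H → F x ≤ Real.exp (V + β * dc cen r x) * F (cen r)

/-- A slab with one lane into the narrow cell `[ya, yb]`. -/
structure FL (w : ℕ → ℤ → ℝ) (p : ℕ → ℝ) (cen : ℕ → ℤ) (lo H : ℤ) (e n : ℕ) (ya yb : ℤ) (κ L g U b h Rv Rx : ℝ) : Prop where
  k0 : 0 < κ
  lane : κ * Real.exp L ≤ kf w p e n (cen e) (cen (e + n))
  near : ∀ v z : ℤ, dc cen e v ≤ Rv → dc cen (e + n) z ≤ Rx → ¬ (ya ≤ z ∧ z ≤ yb) → kf w p e n v z ≤ κ * Real.exp (-g)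
  up : ∀ v z : ℤ, lo ≤ v → v ≤ H → kf w p e n v z ≤ κ * Real.exp (U + b * dc cen e v - h * sk cen e n v z)

variable {w : ℕ → ℤ → ℝ} {p : ℕ → ℝ} {lo H H' : ℤ} {r n m : ℕ} {κ U U' b h Ry Rx V β : ℝ} {F : ℤ → ℝ}

theorem Gr.mono {V' β' : ℝ} (h : Gr cen lo H r V β F) (hF : 0 ≤ F (cen r)) (hV : V ≤ V') (hβ : β ≤ β') : Gr cen lo H r V' β' F := by
  intro x h1 h2
  refine (h x h1 h2).trans (mul_le_mul_of_nonneg_right (Real.exp_le_exp.2 ?_) hF)
  have := mul_le_mul_of_nonneg_right hβ (dc_nonneg (cen := cen) r x)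
  linarith

theorem Gr.sub {H'' : ℤ} (h : Gr cen lo H r V β F) (hH : H'' ≤ H) : Gr cen lo H'' r V β F := fun x h1 h2 => h x h1 (h2.trans hH)

theorem Gr.one (hV : 0 ≤ V) (hβ : 0 ≤ β) (hF : ∀ x, F x = 1) : Gr cen lo H r V β F := by
  intro x _ _
  rw [hF, hF, mul_one]
  exact Real.one_le_exp (add_nonneg hV (mul_nonneg hβ (dc_nonneg r x)))

theorem KD.shrink {Ry' Rx' : ℝ} (K : KD w p cen lo H r n κ U U' b h Ry Rx) (h1 : Ry' ≤ Ry) (h2 : Rx' ≤ Rx) :
    KD w p cen lo H r n κ U U' b h Ry' Rx' :=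
  ⟨K.k0, K.up, fun y x a1 a2 => K.lw y x (a1.trans h1) (a2.trans h2)⟩

/-- One step and the profile behind it. -/
theorem KD.prod (hw : ∀ k y, 0 < w k y) (hp : ∀ k, 0 < p k) (K : KD w p cen lo H r n κ U U' b h Ry Rx)
    (G : Gr cen lo H' (r + n) V β F) (hF : ∀ x, 0 ≤ F x) (hH : H + n ≤ H') (hβ : 0 ≤ β) {y x : ℤ} (h1 : lo ≤ y) (h2 : y ≤ H) :
    kf w p r n y x * F x ≤ κ * F (cen (r + n)) * Real.exp (U + V + (b + β) * dc cen r y - (h - β) * sk cen r n y x) := by
  by_cases hc : y ≤ x ∧ x ≤ y + n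
  · have g1 := K.up y x h1 h2
    have g2 := G x (by omega) (by omega)
    have g3 := dc_le (cen := cen) r n y x
    have g4 := mul_le_mul_of_nonneg_left g3 hβ
    have k0 := K.k0
    have s1 := mul_le_mul g1 g2 (hF x) (by positivity)
    refine s1.trans ?_
    have e : κ * Real.exp (U + b * dc cen r y - h * sk cen r n y x) * (Real.exp (V + β * dc cen (r + n) x) * F (cen (r + n))) =
        κ * F (cen (r + n)) * Real.exp (U + b * dc cen r y - h * sk cen r n y x + (V + β * dc cen (r + n) x)) := by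
      rw [Real.exp_add (U + b * dc cen r y - h * sk cen r n y x)]
      ring
    rw [e]
    refine mul_le_mul_of_nonneg_left (Real.exp_le_exp.2 ?_) (mul_nonneg k0.le (hF _))
    linarith
  · rw [kf_zero r n hc, zero_mul]
    have := K.k0
    have := hF (cen (r + n))
    positivity

theorem card_cone (y : ℤ) (n : ℕ) : ((Icc y (y + n)).card : ℝ) = n + 1 := by
  rw [Int.card_Icc]
  have : (y + n + 1 - y).toNat = n + 1 := by omega
  rw [this]
  push_cast
  ring

theorem bw_up (hw : ∀ k y, 0 < w k y) (hp : ∀ k, 0 < p k) (K : KD w p cen lo H r n κ U U' b h Ry Rx)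
    (G : Gr cen lo H' (r + n) V β (bw w p (r + n) m)) (hH : H + n ≤ H') (hβ : 0 ≤ β) (hβh : β ≤ h) {y : ℤ}
    (h1 : lo ≤ y) (h2 : y ≤ H) :
    bw w p r (n + m) y ≤ (n + 1) * (κ * bw w p (r + n) m (cen (r + n)) * Real.exp (U + V + (b + β) * dc cen r y)) := by
  rw [ev_total r n m (a := y) (lo := y) (hi := y + n) le_rfl le_rfl, ← card_cone y n, ← nsmul_eq_mul]
  refine sum_le_card_nsmul _ _ _ fun x _ => ?_
  refine (K.prod hw hp G (fun z => (bw_pos hw hp m (r + n) z).le) hH hβ h1 h2).trans ?_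
  have a0 := mul_pos K.k0 (bw_pos hw hp m (r + n) (cen (r + n)))
  refine mul_le_mul_of_nonneg_left (Real.exp_le_exp.2 ?_) a0.le
  have := mul_nonneg (sub_nonneg.2 hβh) (sk_nonneg (cen := cen) r n y x)
  linarith

/-- The cone contains every site where the kernel is positive. -/
theorem mem_cone {y x : ℤ} (h : 0 < kf w p r n y x) : x ∈ Icc y (y + n) := by
  rw [mem_Icc]
  by_contra hc
  rw [kf_zero r n hc] at h
  exact lt_irrefl _ h

theorem KD.pos (K : KD w p cen lo H r n κ U U' b h Ry Rx) {y x : ℤ} (h1 : dc cen r y ≤ Ry) (h2 : dc cen (r + n) x ≤ Rx) :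
    0 < kf w p r n y x :=
  lt_of_lt_of_le (mul_pos K.k0 (Real.exp_pos _)) (K.lw y x h1 h2)

theorem bw_lo (hw : ∀ k y, 0 < w k y) (hp : ∀ k, 0 < p k) (K : KD w p cen lo H r n κ U U' b h Ry Rx) (m : ℕ) {y : ℤ}
    (h1 : dc cen r y ≤ Ry) (h0 : 0 ≤ Rx) : κ * Real.exp (-U') * bw w p (r + n) m (cen (r + n)) ≤ bw w p r (n + m) y := by
  have h2 : dc cen (r + n) (cen (r + n)) ≤ Rx := by rw [dc_self]; exact h0
  have a1 := K.lw y _ h1 h2
  have a2 := bw_pos hw hp m (r + n) (cen (r + n))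
  rw [ev_total r n m (a := y) (lo := y) (hi := y + n) le_rfl le_rfl]
  refine (mul_le_mul_of_nonneg_right a1 a2.le).trans ?_
  exact single_le_sum (f := fun z => kf w p r n y z * bw w p (r + n) m z)
    (fun z _ => mul_nonneg (kf_nonneg hw hp r n y z) (bw_pos hw hp m (r + n) z).le) (mem_cone (K.pos h1 h2))

/-- **Backward masses behind an enveloped kernel.** -/
theorem Gr.pull (hw : ∀ k y, 0 < w k y) (hp : ∀ k, 0 < p k) (K : KD w p cen lo H r n κ U U' b h Ry Rx)
    (G : Gr cen lo H' (r + n) V β (bw w p (r + n) m)) (hH : H + n ≤ H') (hβ : 0 ≤ β) (hβh : β ≤ h) (hy : 0 ≤ Ry) (hx : 0 ≤ Rx) :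
    Gr cen lo H r (U + U' + V + Real.log (n + 1)) (b + β) (bw w p r (n + m)) := by
  intro y h1 h2
  have a1 := bw_up hw hp K G hH hβ hβh h1 h2
  have a2 := bw_lo hw hp K m (y := cen r) (by rw [dc_self]; exact hy) hx
  have n1 : (0 : ℝ) < n + 1 := by positivity
  refine a1.trans ?_
  have e : ((n : ℝ) + 1) * (κ * bw w p (r + n) m (cen (r + n)) * Real.exp (U + V + (b + β) * dc cen r y)) =
      Real.exp (U + U' + V + Real.log (n + 1) + (b + β) * dc cen r y) * (κ * Real.exp (-U') * bw w p (r + n) m (cen (r + n))) := by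
    have e1 : Real.exp (U + U' + V + Real.log (n + 1) + (b + β) * dc cen r y) =
        (n + 1) * Real.exp (U + V + (b + β) * dc cen r y) * Real.exp U' := by
      rw [← Real.exp_log n1, ← Real.exp_add, ← Real.exp_add, Real.exp_log n1]
      congr 1
      ring
    have e2 : Real.exp U' * Real.exp (-U') = 1 := by rw [← Real.exp_add, add_neg_cancel, Real.exp_zero]
    rw [e1]
    calc _ = (n + 1) * Real.exp (U + V + (b + β) * dc cen r y) * (κ * bw w p (r + n) m (cen (r + n))) * 1 := by ring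
      _ = _ := by
        rw [← e2]
        ring
  rw [e]
  exact mul_le_mul_of_nonneg_left a2 (Real.exp_pos _).le

/-! ### Exits from a window -/

theorem far_aux (hw : ∀ k y, 0 < w k y) (hp : ∀ k, 0 < p k) (K : KD w p cen lo H r n κ U U' b h Ry Rx)
    (G : Gr cen lo H' (r + n) V β (bw w p (r + n) m)) (hH : H + n ≤ H') (hβ : 0 ≤ β) (hβh : β ≤ h) (hb : 0 ≤ b) (hx0 : 0 ≤ Rx)
    {a : ℤ} {D : ℝ} (h1 : lo ≤ a) (h2 : a ≤ H) (h3 : dc cen r a ≤ Ry) (P : ℤ → Prop) [DecidablePred P]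
    (hP : ∀ z, P z → D ≤ dc cen (r + n) z) :
    ev w p r n m P a ≤ (n + 1) * Real.exp (U + U' + V + (b + h) * Ry - (h - β) * D) * bw w p r (n + m) a := by
  have a0 := mul_pos K.k0 (bw_pos hw hp m (r + n) (cen (r + n)))
  have lo' := bw_lo hw hp K m h3 hx0
  have t : ev w p r n m P a ≤ (n + 1) * (κ * bw w p (r + n) m (cen (r + n)) * Real.exp (U + V + (b + h) * Ry - (h - β) * D)) := by
    unfold ev
    rw [← card_cone a n]
    refine (sum_le_card_nsmul _ _ (κ * bw w p (r + n) m (cen (r + n)) * Real.exp (U + V + (b + h) * Ry - (h - β) * D))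
      fun z hz => ?_).trans ?_
    · rw [mem_filter] at hz
      refine (K.prod hw hp G (fun z => (bw_pos hw hp m (r + n) z).le) hH hβ h1 h2).trans ?_
      refine mul_le_mul_of_nonneg_left (Real.exp_le_exp.2 ?_) a0.le
      have g1 := hP z hz.2
      have g2 := dc_le (cen := cen) r n a z
      have g3 : (h - β) * (D - dc cen r a) ≤ (h - β) * sk cen r n a z := mul_le_mul_of_nonneg_left (by linarith) (sub_nonneg.2 hβh)
      have g4 : (b + h) * dc cen r a ≤ (b + h) * Ry := mul_le_mul_of_nonneg_left h3 (by linarith)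
      nlinarith
    · rw [nsmul_eq_mul]
      refine mul_le_mul_of_nonneg_right ?_ (by positivity)
      exact_mod_cast card_le_card (filter_subset _ _)
  refine t.trans ?_
  have e : ((n : ℝ) + 1) * (κ * bw w p (r + n) m (cen (r + n)) * Real.exp (U + V + (b + h) * Ry - (h - β) * D)) =
      (n + 1) * Real.exp (U + U' + V + (b + h) * Ry - (h - β) * D) * (κ * Real.exp (-U') * bw w p (r + n) m (cen (r + n))) := by
    have e1 : Real.exp (U + V + (b + h) * Ry - (h - β) * D) = Real.exp (U + U' + V + (b + h) * Ry - (h - β) * D) * Real.exp (-U') := by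
      rw [← Real.exp_add]
      congr 1
      ring
    rw [e1]
    ring
  rw [e]
  exact mul_le_mul_of_nonneg_left lo' (by positivity)

/-- **Left exit from a window.** -/
theorem lx_far (hw : ∀ k y, 0 < w k y) (hp : ∀ k, 0 < p k) (K : KD w p cen lo H r n κ U U' b h Ry Rx)
    (G : Gr cen lo H' (r + n) V β (bw w p (r + n) m)) (hH : H + n ≤ H') (hβ : 0 ≤ β) (hβh : β ≤ h) (hb : 0 ≤ b) (hx0 : 0 ≤ Rx)
    {a x : ℤ} {D ε : ℝ} (h1 : lo ≤ a) (h2 : a ≤ H) (h3 : dc cen r a ≤ Ry) (hD : D ≤ ((cen (r + n) - x : ℤ) : ℝ))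
    (hε : (n + 1) * Real.exp (U + U' + V + (b + h) * Ry - (h - β) * D) ≤ ε) : LX w p r n m a x ε := by
  unfold LX
  refine (far_aux hw hp K G hH hβ hβh hb hx0 h1 h2 h3 (· < x) (D := D) fun z hz => le_dc_left ?_).trans
    (mul_le_mul_of_nonneg_right hε (bw_pos hw hp _ _ _).le)
  refine hD.trans ?_
  exact_mod_cast (by omega : cen (r + n) - x ≤ cen (r + n) - z)

/-- **Right exit from a window.** -/
theorem rx_far (hw : ∀ k y, 0 < w k y) (hp : ∀ k, 0 < p k) (K : KD w p cen lo H r n κ U U' b h Ry Rx)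
    (G : Gr cen lo H' (r + n) V β (bw w p (r + n) m)) (hH : H + n ≤ H') (hβ : 0 ≤ β) (hβh : β ≤ h) (hb : 0 ≤ b) (hx0 : 0 ≤ Rx)
    {a x : ℤ} {D ε : ℝ} (h1 : lo ≤ a) (h2 : a ≤ H) (h3 : dc cen r a ≤ Ry) (hD : D ≤ ((x - cen (r + n) : ℤ) : ℝ))
    (hε : (n + 1) * Real.exp (U + U' + V + (b + h) * Ry - (h - β) * D) ≤ ε) : RX w p r n m a x ε := by
  unfold RX
  refine (far_aux hw hp K G hH hβ hβh hb hx0 h1 h2 h3 (x < ·) (D := D) fun z hz => le_dc_right ?_).trans
    (mul_le_mul_of_nonneg_right hε (bw_pos hw hp _ _ _).le)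
  refine hD.trans ?_
  exact_mod_cast (by omega : x - cen (r + n) ≤ z - cen (r + n))

/-! ### Exits from a narrow cell behind one lane -/

variable {n' : ℕ} {ya yb : ℤ} {κs L g Us bs hs Rv Rz lam : ℝ}

/-- One route through the slab, off the exit cell. -/
theorem route (hw : ∀ k y, 0 < w k y) (hp : ∀ k, 0 < p k) (K : KD w p cen lo H r n κ U U' b h Ry Rx)
    (S : FL w p cen lo H' (r + n) n' ya yb κs L g Us bs hs Rv Rz) {H'' : ℤ}
    (G : Gr cen lo H'' (r + n + n') V β F) (hF : ∀ x, 0 ≤ F x) (hH : H + n ≤ H') (hH' : H' + n' ≤ H'') (hβ : 0 ≤ β)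
    (hb : 0 ≤ b) (hbs : 0 ≤ bs) (hh : 0 ≤ h) (hs1 : β ≤ hs) (hs2 : bs + β ≤ h)
    {a v z : ℤ} (h1 : lo ≤ a) (h2 : a ≤ H) (h3 : dc cen r a ≤ Ry) (hz : ¬ (ya ≤ z ∧ z ≤ yb))
    (N1 : U + U' + b * Ry + V + β * Rz - g - L ≤ -lam)
    (N2 : U + U' + (b + h) * Ry + Us + V - L - (h - bs - β) * Rv ≤ -lam)
    (N3 : U + U' + b * Ry + Us + (bs + hs) * Rv + V - L - (hs - β) * Rz ≤ -lam) :
    kf w p r n a v * kf w p (r + n) n' v z * F z ≤
      κ * κs * F (cen (r + n + n')) * Real.exp (-U' + L - lam) := by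
  have k0 := K.k0
  have s0 := S.k0
  have f0 := hF (cen (r + n + n'))
  by_cases hc : (a ≤ v ∧ v ≤ a + n) ∧ (v ≤ z ∧ z ≤ v + n')
  · have g1 := K.up a v h1 h2
    have g2 := G z (by omega) (by omega)
    have t1 := dc_le (cen := cen) r n a v
    have t2 := dc_le (cen := cen) (r + n) n' v z
    have q1 := sk_nonneg (cen := cen) r n a v
    have q2 := sk_nonneg (cen := cen) (r + n) n' v z
    have q3 := dc_nonneg (cen := cen) r a
    have q4 := dc_nonneg (cen := cen) (r + n) v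
    have q5 := dc_nonneg (cen := cen) (r + n + n') z
    have kn := kf_nonneg hw hp (r + n) n' v z
    -- the case distinction
    have key : ∃ X : ℝ, kf w p (r + n) n' v z ≤ κs * Real.exp X ∧
        U + b * dc cen r a - h * sk cen r n a v + X + (V + β * dc cen (r + n + n') z) ≤ -U' + L - lam := by
      have hbR : b * dc cen r a ≤ b * Ry := mul_le_mul_of_nonneg_left h3 hb
      by_cases hv : dc cen (r + n) v ≤ Rv
      · by_cases hzz : dc cen (r + n + n') z ≤ Rz
        · refine ⟨-g, S.near v z hv hzz hz, ?_⟩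
          have e1 := mul_nonneg hh q1
          have e2 := mul_le_mul_of_nonneg_left hzz hβ
          linarith
        · push Not at hzz
          refine ⟨_, S.up v z (by omega) (by omega), ?_⟩
          have e1 := mul_nonneg hh q1
          have e2 : bs * dc cen (r + n) v ≤ bs * Rv := mul_le_mul_of_nonneg_left hv hbs
          have e3 : hs * (dc cen (r + n + n') z - dc cen (r + n) v) ≤ hs * sk cen (r + n) n' v z :=
            mul_le_mul_of_nonneg_left (by linarith) (by linarith)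
          have e4 : hs * dc cen (r + n) v ≤ hs * Rv := mul_le_mul_of_nonneg_left hv (by linarith)
          have e5 : (hs - β) * Rz ≤ (hs - β) * dc cen (r + n + n') z := mul_le_mul_of_nonneg_left hzz.le (by linarith)
          nlinarith
      · push Not at hv
        refine ⟨_, S.up v z (by omega) (by omega), ?_⟩
        have e1 : h * (dc cen (r + n) v - dc cen r a) ≤ h * sk cen r n a v := mul_le_mul_of_nonneg_left (by linarith) hh
        have e2 : β * dc cen (r + n + n') z ≤ β * (sk cen (r + n) n' v z + dc cen (r + n) v) := mul_le_mul_of_nonneg_left t2 hβ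
        have e3 : 0 ≤ (hs - β) * sk cen (r + n) n' v z := mul_nonneg (by linarith) q2
        have e4 : (h - bs - β) * Rv ≤ (h - bs - β) * dc cen (r + n) v := mul_le_mul_of_nonneg_left hv.le (by linarith)
        have e5 : h * dc cen r a ≤ h * Ry := mul_le_mul_of_nonneg_left h3 hh
        nlinarith
    obtain ⟨X, x1, x2⟩ := key
    have s1 : kf w p r n a v * kf w p (r + n) n' v z ≤ κ * Real.exp (U + b * dc cen r a - h * sk cen r n a v) * (κs * Real.exp X) :=
      mul_le_mul g1 x1 kn (by positivity)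
    have s2 := mul_le_mul s1 g2 (hF z) (by positivity)
    refine s2.trans ?_
    have e : κ * Real.exp (U + b * dc cen r a - h * sk cen r n a v) * (κs * Real.exp X) *
        (Real.exp (V + β * dc cen (r + n + n') z) * F (cen (r + n + n'))) = κ * κs * F (cen (r + n + n')) *
        Real.exp (U + b * dc cen r a - h * sk cen r n a v + X + (V + β * dc cen (r + n + n') z)) := by
      rw [Real.exp_add (U + b * dc cen r a - h * sk cen r n a v + X), Real.exp_add (U + b * dc cen r a - h * sk cen r n a v)]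
      ring
    rw [e]
    exact mul_le_mul_of_nonneg_left (Real.exp_le_exp.2 x2) (by positivity)
  · have e : kf w p r n a v * kf w p (r + n) n' v z = 0 := by
      by_cases h5 : a ≤ v ∧ v ≤ a + n
      · rw [kf_zero (r + n) n' (y := v) (x := z) (fun h6 => hc ⟨h5, h6⟩), mul_zero]
      · rw [kf_zero r n h5, zero_mul]
    rw [e, zero_mul]
    positivity

/-- The lane. -/
theorem lane_le (hw : ∀ k y, 0 < w k y) (hp : ∀ k, 0 < p k) (K : KD w p cen lo H r n κ U U' b h Ry Rx)
    (S : FL w p cen lo H' (r + n) n' ya yb κs L g Us bs hs Rv Rz) (m : ℕ) (hx0 : 0 ≤ Rx) {a : ℤ} (h3 : dc cen r a ≤ Ry) :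
    κ * κs * bw w p (r + n + n') m (cen (r + n + n')) * Real.exp (-U' + L) ≤ bw w p r (n + (n' + m)) a := by
  have h2 : dc cen (r + n) (cen (r + n)) ≤ Rx := by rw [dc_self]; exact hx0
  have a1 := K.lw a _ h3 h2
  have a2 := bw_pos hw hp m (r + n + n') (cen (r + n + n'))
  have a3 := bw_pos hw hp (n' + m) (r + n) (cen (r + n))
  have s0 := S.k0
  have b1 : κs * Real.exp L * bw w p (r + n + n') m (cen (r + n + n')) ≤ bw w p (r + n) (n' + m) (cen (r + n)) := by
    rw [ev_total (r + n) n' m (a := cen (r + n)) (lo := cen (r + n)) (hi := cen (r + n) + n') le_rfl le_rfl]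
    refine (mul_le_mul_of_nonneg_right S.lane a2.le).trans ?_
    refine single_le_sum (f := fun z => kf w p (r + n) n' (cen (r + n)) z * bw w p (r + n + n') m z)
      (fun z _ => mul_nonneg (kf_nonneg hw hp _ _ _ _) (bw_pos hw hp _ _ _).le) (mem_cone (w := w) (p := p) (r := r + n) ?_)
    exact lt_of_lt_of_le (mul_pos s0 (Real.exp_pos _)) S.lane
  have b2 : κ * Real.exp (-U') * bw w p (r + n) (n' + m) (cen (r + n)) ≤ bw w p r (n + (n' + m)) a := by
    have := bw_lo hw hp K (n' + m) h3 hx0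
    exact this
  have b3 := mul_le_mul_of_nonneg_left b1 (mul_pos K.k0 (Real.exp_pos (-U'))).le
  have e : κ * κs * bw w p (r + n + n') m (cen (r + n + n')) * Real.exp (-U' + L) =
      κ * Real.exp (-U') * (κs * Real.exp L * bw w p (r + n + n') m (cen (r + n + n'))) := by
    rw [Real.exp_add]
    ring
  rw [e]
  exact b3.trans b2

/-- **Off the exit cell.** -/
theorem fun_aux (hw : ∀ k y, 0 < w k y) (hp : ∀ k, 0 < p k) (K : KD w p cen lo H r n κ U U' b h Ry Rx)
    (S : FL w p cen lo H' (r + n) n' ya yb κs L g Us bs hs Rv Rz) {H'' : ℤ}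
    (G : Gr cen lo H'' (r + n + n') V β (bw w p (r + n + n') m)) (hH : H + n ≤ H') (hH' : H' + n' ≤ H'') (hβ : 0 ≤ β)
    (hb : 0 ≤ b) (hbs : 0 ≤ bs) (hh : 0 ≤ h) (hs1 : β ≤ hs) (hs2 : bs + β ≤ h) (hx0 : 0 ≤ Rx)
    {a : ℤ} (h1 : lo ≤ a) (h2 : a ≤ H) (h3 : dc cen r a ≤ Ry) (P : ℤ → Prop) [DecidablePred P] (hP : ∀ z, P z → ¬ (ya ≤ z ∧ z ≤ yb))
    (N1 : U + U' + b * Ry + V + β * Rz - g - L ≤ -lam)
    (N2 : U + U' + (b + h) * Ry + Us + V - L - (h - bs - β) * Rv ≤ -lam)
    (N3 : U + U' + b * Ry + Us + (bs + hs) * Rv + V - L - (hs - β) * Rz ≤ -lam) :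
    ev w p r (n + n') m P a ≤ (n + n' + 1) * (n + 1) * Real.exp (-lam) * bw w p r (n + n' + m) a := by
  have er : r + (n + n') = r + n + n' := by ring
  have em : n + n' + m = n + (n' + m) := by ring
  have la := lane_le hw hp K S m hx0 h3
  rw [em]
  have k0 := K.k0
  have s0 := S.k0
  have f0 := bw_pos hw hp m (r + n + n') (cen (r + n + n'))
  have t : ev w p r (n + n') m P a ≤ (n + n' + 1) * ((n + 1) *
      (κ * κs * bw w p (r + n + n') m (cen (r + n + n')) * Real.exp (-U' + L - lam))) := by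
    unfold ev
    rw [er]
    have c1 : ((n : ℝ) + n' + 1) = ((Icc a (a + (n + n' : ℕ))).card : ℝ) := by
      rw [card_cone a (n + n')]
      push_cast
      ring
    rw [c1]
    refine (sum_le_card_nsmul _ _ ((n + 1) * (κ * κs * bw w p (r + n + n') m (cen (r + n + n')) * Real.exp (-U' + L - lam)))
      fun z hz => ?_).trans ?_
    · rw [mem_filter] at hz
      rw [kf_comp r n n' a z (S := Icc a (a + n)) Subset.rfl]
      unfold comp
      rw [sum_mul, ← card_cone a n, ← nsmul_eq_mul]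
      refine sum_le_card_nsmul _ _ _ fun v _ => ?_
      exact route hw hp K S G (fun x => (bw_pos hw hp m (r + n + n') x).le) hH hH' hβ hb hbs hh hs1 hs2 h1 h2 h3 (hP z hz.2) N1 N2 N3
    · rw [nsmul_eq_mul]
      refine mul_le_mul_of_nonneg_right ?_ (by positivity)
      exact_mod_cast card_le_card (filter_subset _ _)
  refine t.trans ?_
  have e : ((n : ℝ) + n' + 1) * ((n + 1) * (κ * κs * bw w p (r + n + n') m (cen (r + n + n')) * Real.exp (-U' + L - lam))) =
      (n + n' + 1) * (n + 1) * Real.exp (-lam) * (κ * κs * bw w p (r + n + n') m (cen (r + n + n')) * Real.exp (-U' + L)) := by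
    have e1 : Real.exp (-U' + L - lam) = Real.exp (-lam) * Real.exp (-U' + L) := by
      rw [← Real.exp_add]
      congr 1
      ring
    rw [e1]
    ring
  rw [e]
  exact mul_le_mul_of_nonneg_left la (by positivity)

end

end Pool.Agent.W_7d29a1_C1.X21
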