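import Pool.Agent.W_7d29a1_C1.Contr91

/-!
MP_7d29a1_pr, the attractor route: THE EXACT CONTRACTION IDENTITY with a weight `p k` of the step `1` which depends on the row `k`
(the force is switched off at a row), deterministic part. The objects of Contr91, the same names, in the namespace K91P. (helper91)
-/

set_option autoImplicit false

namespace Pool.Agent.W_7d29a1_C1.K91P

open Finset
open Pool.Agent.W_7d29a1_C1.K91 (Grp Box cut cut_pos sum_shift zs zs_mix dl cut_dl1 cut_dl2 jn jn_nonneg jn_le Del dw del_dw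
  dw_pos cut_sub)

noncomputable section

/-- Forward masses: the weights of the rows below `k`. -/
def fw (w : ℕ → ℤ → ℝ) (p : ℕ → ℝ) (l : ℤ → ℝ) : ℕ → ℤ → ℝ
  | 0, y => l y
  | k + 1, y => w k y * fw w p l k y + p k * (w k (y - 1) * fw w p l k (y - 1))

/-- Backward masses: `j` rows from the row `k` on, free end. -/
def bw (w : ℕ → ℤ → ℝ) (p : ℕ → ℝ) : ℕ → ℕ → ℤ → ℝ
  | _, 0, _ => 1
  | k, j + 1, y => w k y * (bw w p (k + 1) j y + p k * bw w p (k + 1) j (y + 1))

theorem fw_zero (w : ℕ → ℤ → ℝ) (p : ℕ → ℝ) (l : ℤ → ℝ) (y : ℤ) : fw w p l 0 y = l y := rfl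

theorem fw_succ (w : ℕ → ℤ → ℝ) (p : ℕ → ℝ) (l : ℤ → ℝ) (k : ℕ) (y : ℤ) :
    fw w p l (k + 1) y = w k y * fw w p l k y + p k * (w k (y - 1) * fw w p l k (y - 1)) := rfl

theorem bw_zero (w : ℕ → ℤ → ℝ) (p : ℕ → ℝ) (k : ℕ) (y : ℤ) : bw w p k 0 y = 1 := by
  cases k <;> rfl

theorem bw_succ (w : ℕ → ℤ → ℝ) (p : ℕ → ℝ) (k j : ℕ) (y : ℤ) :
    bw w p k (j + 1) y = w k y * (bw w p (k + 1) j y + p k * bw w p (k + 1) j (y + 1)) := by
  cases k <;> rfl

variable {w : ℕ → ℤ → ℝ} {p : ℕ → ℝ} {l r : ℤ → ℝ}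

theorem fw_nonneg (hw : ∀ k y, 0 < w k y) (hp : ∀ k, 0 < p k) (hl : ∀ y, 0 ≤ l y) : ∀ k y, 0 ≤ fw w p l k y
  | 0, y => hl y
  | k + 1, y => by
    rw [fw_succ]
    have h1 := fw_nonneg hw hp hl k y
    have h2 := fw_nonneg hw hp hl k (y - 1)
    have h3 := hw k y
    have h4 := hw k (y - 1)
    have hpk := hp k; positivity

theorem bw_pos (hw : ∀ k y, 0 < w k y) (hp : ∀ k, 0 < p k) : ∀ (j k : ℕ) (y : ℤ), 0 < bw w p k j y
  | 0, k, y => by rw [bw_zero]; exact one_pos
  | j + 1, k, y => by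
    rw [bw_succ]
    have h1 := bw_pos hw hp j (k + 1) y
    have h2 := bw_pos hw hp j (k + 1) (y + 1)
    have h3 := hw k y
    have hpk := hp k; positivity

theorem fw_add : ∀ (k : ℕ) (y : ℤ), fw w p (fun y => l y + r y) k y = fw w p l k y + fw w p r k y
  | 0, _ => rfl
  | k + 1, y => by
    rw [fw_succ, fw_succ, fw_succ, fw_add k y, fw_add k (y - 1)]
    ring

/-- The forward masses stay to the right of the starts. -/
theorem fw_lo {A : ℤ} (hl : ∀ y, y < A → l y = 0) : ∀ (k : ℕ) (y : ℤ), y < A → fw w p l k y = 0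
  | 0, y, h => hl y h
  | k + 1, y, h => by
    rw [fw_succ, fw_lo hl k y h, fw_lo hl k (y - 1) (by omega)]
    ring

/-- The forward masses move by at most one column per row. -/
theorem fw_hi {B : ℤ} (hl : ∀ y, B < y → l y = 0) : ∀ (k : ℕ) (y : ℤ), B + k < y → fw w p l k y = 0
  | 0, y, h => hl y (by simpa using h)
  | k + 1, y, h => by
    push_cast at h
    rw [fw_succ, fw_hi hl k y (by omega), fw_hi hl k (y - 1) (by omega)]
    ring

/-! ### The interface -/

/-- The share of the left group. -/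
def Fk (w : ℕ → ℤ → ℝ) (p : ℕ → ℝ) (l r : ℤ → ℝ) (X : ℤ) (k : ℕ) (y : ℤ) : ℝ :=
  if fw w p l k y + fw w p r k y = 0 then (if y < X then 1 else 0)
  else fw w p l k y / (fw w p l k y + fw w p r k y)

/-- The law of the interface. -/
def rho (w : ℕ → ℤ → ℝ) (p : ℕ → ℝ) (l r : ℤ → ℝ) (X : ℤ) (k : ℕ) (q : ℤ) : ℝ :=
  Fk w p l r X k (q - 1) - Fk w p l r X k q

/-- The probability that the interface moves. -/
def th (w : ℕ → ℤ → ℝ) (p : ℕ → ℝ) (l r : ℤ → ℝ) (k : ℕ) (q : ℤ) : ℝ :=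
  p k * (w k (q - 1) * (fw w p l k (q - 1) + fw w p r k (q - 1))) / (fw w p l (k + 1) q + fw w p r (k + 1) q)

variable {X : ℤ}

theorem Fk_mem (hw : ∀ k y, 0 < w k y) (hp : ∀ k, 0 < p k) (h : Grp l r X) (k : ℕ) (y : ℤ) :
    0 ≤ Fk w p l r X k y ∧ Fk w p l r X k y ≤ 1 := by
  have h1 := fw_nonneg hw hp h.l0 k y
  have h2 := fw_nonneg hw hp h.r0 k y
  unfold Fk
  by_cases h0 : fw w p l k y + fw w p r k y = 0
  · rw [if_pos h0]
    split_ifs <;> norm_num
  · rw [if_neg h0]
    have h3 : 0 < fw w p l k y + fw w p r k y := lt_of_le_of_ne (by positivity) (Ne.symm h0)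
    exact ⟨by positivity, by rw [div_le_one h3]; linarith⟩

theorem Fk_left (h : Grp l r X) (k : ℕ) {y : ℤ} (hy : y < X) : Fk w p l r X k y = 1 := by
  have h2 : fw w p r k y = 0 := fw_lo h.rX k y hy
  unfold Fk
  by_cases h0 : fw w p l k y + fw w p r k y = 0
  · rw [if_pos h0, if_pos hy]
  · rw [if_neg h0, h2, add_zero]
    rw [h2, add_zero] at h0
    exact div_self h0

theorem Fk_right (h : Grp l r X) (k : ℕ) {y : ℤ} (hy : X + k ≤ y) : Fk w p l r X k y = 0 := by
  have h2 : fw w p l k y = 0 := fw_hi (B := X - 1) (fun z hz => h.lX z (by omega)) k y (by omega)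
  unfold Fk
  by_cases h0 : fw w p l k y + fw w p r k y = 0
  · rw [if_pos h0, if_neg (by omega)]
  · rw [if_neg h0, h2, zero_div]

/-- `F m = l`. -/
theorem Fk_mul (hw : ∀ k y, 0 < w k y) (hp : ∀ k, 0 < p k) (h : Grp l r X) (k : ℕ) (y : ℤ) :
    Fk w p l r X k y * (fw w p l k y + fw w p r k y) = fw w p l k y := by
  have h1 := fw_nonneg hw hp h.l0 k y
  have h2 := fw_nonneg hw hp h.r0 k y
  unfold Fk
  by_cases h0 : fw w p l k y + fw w p r k y = 0
  · rw [h0, mul_zero]
    linarith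
  · rw [if_neg h0, div_mul_cancel₀ _ h0]

theorem th_mem (hw : ∀ k y, 0 < w k y) (hp : ∀ k, 0 < p k) (h : Grp l r X) (k : ℕ) (q : ℤ) :
    0 ≤ th w p l r k q ∧ th w p l r k q ≤ 1 := by
  have h1 := fw_nonneg hw hp h.l0 k q
  have h2 := fw_nonneg hw hp h.r0 k q
  have h3 := fw_nonneg hw hp h.l0 k (q - 1)
  have h4 := fw_nonneg hw hp h.r0 k (q - 1)
  have h5 := hw k q
  have h6 := hw k (q - 1)
  have h7 := fw_nonneg hw hp h.l0 (k + 1) q
  have h8 := fw_nonneg hw hp h.r0 (k + 1) q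
  unfold th
  refine ⟨by have hpk := hp k; positivity, div_le_one_of_le₀ ?_ (by have hpk := hp k; positivity)⟩
  rw [fw_succ, fw_succ]
  have : 0 ≤ w k q * fw w p l k q + w k q * fw w p r k q := by positivity
  linarith

theorem th_mul (hw : ∀ k y, 0 < w k y) (hp : ∀ k, 0 < p k) (h : Grp l r X) (k : ℕ) (q : ℤ) :
    th w p l r k q * (fw w p l (k + 1) q + fw w p r (k + 1) q) =
      p k * (w k (q - 1) * (fw w p l k (q - 1) + fw w p r k (q - 1))) := by
  have h1 := fw_nonneg hw hp h.l0 k q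
  have h2 := fw_nonneg hw hp h.r0 k q
  have h3 := fw_nonneg hw hp h.l0 k (q - 1)
  have h4 := fw_nonneg hw hp h.r0 k (q - 1)
  have h5 := hw k q
  have h6 := hw k (q - 1)
  unfold th
  by_cases h0 : fw w p l (k + 1) q + fw w p r (k + 1) q = 0
  · rw [h0, mul_zero]
    rw [fw_succ, fw_succ] at h0
    have e1 : 0 ≤ w k q * fw w p l k q := by positivity
    have e2 : 0 ≤ w k q * fw w p r k q := by positivity
    have e3 : 0 ≤ p k * (w k (q - 1) * fw w p l k (q - 1)) := by have hpk := hp k; positivity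
    have e4 : 0 ≤ p k * (w k (q - 1) * fw w p r k (q - 1)) := by have hpk := hp k; positivity
    rw [mul_add, mul_add]
    linarith
  · rw [div_mul_cancel₀ _ h0]

/-- The share of the left group in the next row. -/
theorem Fk_succ (hw : ∀ k y, 0 < w k y) (hp : ∀ k, 0 < p k) (h : Grp l r X) (k : ℕ) (y : ℤ) :
    Fk w p l r X (k + 1) y = Fk w p l r X k y + th w p l r k y * rho w p l r X k y := by
  have hF1 := Fk_mul hw hp h k y
  have hF2 := Fk_mul hw hp h k (y - 1)
  have ht := th_mul hw hp h k y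
  have h7 := fw_nonneg hw hp h.l0 (k + 1) y
  have h8 := fw_nonneg hw hp h.r0 (k + 1) y
  by_cases h0 : fw w p l (k + 1) y + fw w p r (k + 1) y = 0
  · have e0 : th w p l r k y = 0 := by unfold th; rw [h0, div_zero]
    have e1 : fw w p l k y + fw w p r k y = 0 := by
      have h1 := fw_nonneg hw hp h.l0 k y
      have h2 := fw_nonneg hw hp h.r0 k y
      have h3 := fw_nonneg hw hp h.l0 k (y - 1)
      have h4 := fw_nonneg hw hp h.r0 k (y - 1)
      have h5 := hw k y
      have h6 := hw k (y - 1)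
      rw [fw_succ, fw_succ] at h0
      have e3 : 0 ≤ p k * (w k (y - 1) * fw w p l k (y - 1)) := by have hpk := hp k; positivity
      have e4 : 0 ≤ p k * (w k (y - 1) * fw w p r k (y - 1)) := by have hpk := hp k; positivity
      have e5 : 0 ≤ w k y * (fw w p l k y + fw w p r k y) := by positivity
      have e6 : w k y * (fw w p l k y + fw w p r k y) = 0 := by
        rw [mul_add] at e5 ⊢
        linarith
      exact (mul_eq_zero.1 e6).resolve_left h5.ne'
    rw [e0, zero_mul, add_zero]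
    unfold Fk
    rw [if_pos h0, if_pos e1]
  · have e1 : Fk w p l r X (k + 1) y = fw w p l (k + 1) y / (fw w p l (k + 1) y + fw w p r (k + 1) y) := by
      unfold Fk
      rw [if_neg h0]
    rw [e1, div_eq_iff h0]
    unfold rho
    have e2 : (Fk w p l r X k y + th w p l r k y * (Fk w p l r X k (y - 1) - Fk w p l r X k y)) *
        (fw w p l (k + 1) y + fw w p r (k + 1) y) =
        Fk w p l r X k y * (fw w p l (k + 1) y + fw w p r (k + 1) y) +
        (th w p l r k y * (fw w p l (k + 1) y + fw w p r (k + 1) y)) *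
          (Fk w p l r X k (y - 1) - Fk w p l r X k y) := by ring
    rw [e2, ht]
    rw [fw_succ w p l, fw_succ w p r]
    linear_combination (- w k y) * hF1 - p k * w k (y - 1) * hF2

theorem Fk_anti (hw : ∀ k y, 0 < w k y) (hp : ∀ k, 0 < p k) (h : Grp l r X) : ∀ (k : ℕ) (q : ℤ), 0 ≤ rho w p l r X k q
  | 0, q => by
    unfold rho
    by_cases hq : q ≤ X
    · rw [Fk_left h 0 (show q - 1 < X by omega)]
      linarith [(Fk_mem hw hp h 0 q).2]
    · rw [Fk_right h 0 (show X + (0 : ℕ) ≤ q by push_cast; omega)]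
      linarith [(Fk_mem hw hp h 0 (q - 1)).1]
  | k + 1, q => by
    have h1 := Fk_anti hw hp h k q
    have h2 := Fk_anti hw hp h k (q - 1)
    have h3 := th_mem hw hp h k q
    have h4 := th_mem hw hp h k (q - 1)
    have e : rho w p l r X (k + 1) q =
        (1 - th w p l r k q) * rho w p l r X k q + th w p l r k (q - 1) * rho w p l r X k (q - 1) := by
      unfold rho
      rw [Fk_succ hw hp h, Fk_succ hw hp h]
      unfold rho
      ring
    rw [e]
    have h5 : 0 ≤ 1 - th w p l r k q := by linarith [h3.2]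
    have h6 := h4.1
    positivity

theorem rho_succ (hw : ∀ k y, 0 < w k y) (hp : ∀ k, 0 < p k) (h : Grp l r X) (k : ℕ) (q : ℤ) :
    rho w p l r X (k + 1) q =
      (1 - th w p l r k q) * rho w p l r X k q + th w p l r k (q - 1) * rho w p l r X k (q - 1) := by
  unfold rho
  rw [Fk_succ hw hp h, Fk_succ hw hp h]
  unfold rho
  ring

theorem rho_le_one (hw : ∀ k y, 0 < w k y) (hp : ∀ k, 0 < p k) (h : Grp l r X) (k : ℕ) (q : ℤ) : rho w p l r X k q ≤ 1 := by
  unfold rho
  linarith [(Fk_mem hw hp h k (q - 1)).2, (Fk_mem hw hp h k q).1]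

theorem rho_lo (h : Grp l r X) (k : ℕ) {q : ℤ} (hq : q < X) : rho w p l r X k q = 0 := by
  unfold rho
  rw [Fk_left h k (show q - 1 < X by omega), Fk_left h k hq, sub_self]

theorem rho_hi (h : Grp l r X) (k : ℕ) {q : ℤ} (hq : X + k < q) : rho w p l r X k q = 0 := by
  unfold rho
  rw [Fk_right h k (show X + (k : ℤ) ≤ q - 1 by omega), Fk_right h k (show X + (k : ℤ) ≤ q by omega), sub_self]

/-- **LGV**: the law of the interface is the determinant of the two groups at the neighbours. -/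
theorem rho_det (hw : ∀ k y, 0 < w k y) (hp : ∀ k, 0 < p k) (h : Grp l r X) (k : ℕ) (q : ℤ) :
    rho w p l r X k q * ((fw w p l k (q - 1) + fw w p r k (q - 1)) * (fw w p l k q + fw w p r k q)) =
      fw w p l k (q - 1) * fw w p r k q - fw w p l k q * fw w p r k (q - 1) := by
  have h1 := Fk_mul hw hp h k q
  have h2 := Fk_mul hw hp h k (q - 1)
  unfold rho
  linear_combination (fw w p l k q + fw w p r k q) * h2 - (fw w p l k (q - 1) + fw w p r k (q - 1)) * h1

/-- The law of the interface has the mass `1`. -/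
theorem sum_rho (h : Grp l r X) {N k : ℕ} (hk : k ≤ N) : ∑ q ∈ Icc X (X + N), rho w p l r X k q = 1 := by
  have key : ∀ n : ℕ, ∑ q ∈ Icc X (X + n), rho w p l r X k q = Fk w p l r X k (X - 1) - Fk w p l r X k (X + n) := by
    intro n
    induction n with
    | zero =>
      have e : Icc X (X + ((0 : ℕ) : ℤ)) = {X} := by
        ext q
        simp only [mem_Icc, mem_singleton, Nat.cast_zero]
        omega
      rw [e, sum_singleton]
      unfold rho
      simp
    | succ n ih =>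
      have e : Icc X (X + ((n + 1 : ℕ) : ℤ)) = insert (X + ((n + 1 : ℕ) : ℤ)) (Icc X (X + (n : ℤ))) := by
        ext q
        simp only [mem_Icc, mem_insert]
        push_cast
        omega
      rw [e, sum_insert (by simp only [mem_Icc]; push_cast; omega), ih]
      unfold rho
      have e2 : X + ((n + 1 : ℕ) : ℤ) - 1 = X + n := by push_cast; ring
      rw [e2]
      ring
  rw [key, Fk_left h k (by omega), Fk_right h k (show X + (k : ℤ) ≤ X + N by
    have : (k : ℤ) ≤ N := by exact_mod_cast hk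
    linarith)]
  norm_num

/-! ### One row, deterministic -/
/-- The masses of both groups. -/
def mm (w : ℕ → ℤ → ℝ) (p : ℕ → ℝ) (l r : ℤ → ℝ) (k : ℕ) (y : ℤ) : ℝ := fw w p l k y + fw w p r k y

/-- The total mass when the right half plane above the row `k` is moved one step to the left of the cut `q`. -/
def TT (w : ℕ → ℤ → ℝ) (p : ℕ → ℝ) (l r : ℤ → ℝ) (lo hi : ℤ) (N k : ℕ) (q : ℤ) : ℝ :=
  cut (Icc lo hi) (mm w p l r k) (bw w p k (N - k)) q

/-- The profile above the row `k`. -/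
def GG (w : ℕ → ℤ → ℝ) (p : ℕ → ℝ) (N k : ℕ) (y : ℤ) : ℝ := bw w p (k + 1) (N - (k + 1)) y + p k * bw w p (k + 1) (N - (k + 1)) (y + 1)

/-- The total mass with the contracted row above `k`. -/
def ZZ (w : ℕ → ℤ → ℝ) (p : ℕ → ℝ) (l r : ℤ → ℝ) (lo hi : ℤ) (N k : ℕ) (q : ℤ) : ℝ :=
  zs (Icc lo hi) (mm w p l r k) (w k) (GG w p N k) q

/-- Both neighbours of the cut read the weight at `q - 1`. -/
def Y1 (w : ℕ → ℤ → ℝ) (p : ℕ → ℝ) (l r : ℤ → ℝ) (lo hi : ℤ) (N k : ℕ) (q : ℤ) : ℝ :=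
  ZZ w p l r lo hi N k q + mm w p l r k q * (w k (q - 1) - w k q) * GG w p N k (q - 1)

/-- Both neighbours of the cut read the weight at `q`. -/
def Y2 (w : ℕ → ℤ → ℝ) (p : ℕ → ℝ) (l r : ℤ → ℝ) (lo hi : ℤ) (N k : ℕ) (q : ℤ) : ℝ :=
  ZZ w p l r lo hi N k q + mm w p l r k (q - 1) * (w k q - w k (q - 1)) * GG w p N k (q - 1)

/-- The share of the left neighbour of the cut. -/
def vv (w : ℕ → ℤ → ℝ) (p : ℕ → ℝ) (l r : ℤ → ℝ) (k : ℕ) (q : ℤ) : ℝ :=
  mm w p l r k (q - 1) / (mm w p l r k (q - 1) + mm w p l r k q)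

/-- The gain of the row: the two neighbours of the cut read independent weights. -/
def jg (w : ℕ → ℤ → ℝ) (p : ℕ → ℝ) (l r : ℤ → ℝ) (lo hi : ℤ) (N k : ℕ) (q : ℤ) : ℝ :=
  jn (vv w p l r k q) (Y1 w p l r lo hi N k q) (Y2 w p l r lo hi N k q)

/-- The loss of the row: the interface chooses. -/
def JG (w : ℕ → ℤ → ℝ) (p : ℕ → ℝ) (l r : ℤ → ℝ) (lo hi : ℤ) (N k : ℕ) (q : ℤ) : ℝ :=
  jn (th w p l r k q) (TT w p l r lo hi N (k + 1) (q + 1)) (TT w p l r lo hi N (k + 1) q)

variable {lo hi : ℤ} {N : ℕ}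

theorem bfl (h : Box l r X lo hi N) (k : ℕ) {y : ℤ} (hy : y < lo) : fw w p l k y = 0 ∧ fw w p r k y = 0 :=
  ⟨fw_lo (fun z hz => (h.lo0 z hz).1) k y hy, fw_lo (fun z hz => (h.lo0 z hz).2) k y hy⟩

theorem bfh (h : Box l r X lo hi N) {k : ℕ} {y : ℤ} (hy : hi - N + k < y) : fw w p l k y = 0 ∧ fw w p r k y = 0 :=
  ⟨fw_hi (fun z hz => (h.hi0 z hz).1) k y hy, fw_hi (fun z hz => (h.hi0 z hz).2) k y hy⟩

theorem bml (h : Box l r X lo hi N) (k : ℕ) {y : ℤ} (hy : y < lo) : mm w p l r k y = 0 := by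
  unfold mm
  rw [(bfl h k hy).1, (bfl h k hy).2, add_zero]

theorem bmh (h : Box l r X lo hi N) {k : ℕ} {y : ℤ} (hy : hi - N + k < y) : mm w p l r k y = 0 := by
  unfold mm
  rw [(bfh h hy).1, (bfh h hy).2, add_zero]

theorem mm_nonneg (hw : ∀ k y, 0 < w k y) (hp : ∀ k, 0 < p k) (h : Grp l r X) (k : ℕ) (y : ℤ) : 0 ≤ mm w p l r k y := by
  have h1 := fw_nonneg hw hp h.l0 k y
  have h2 := fw_nonneg hw hp h.r0 k y
  unfold mm
  positivity

theorem mm_succ (k : ℕ) (y : ℤ) :
    mm w p l r (k + 1) y = w k y * mm w p l r k y + p k * (w k (y - 1) * mm w p l r k (y - 1)) := by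
  unfold mm
  rw [fw_succ, fw_succ]
  ring

theorem mm_keep (hw : ∀ k y, 0 < w k y) (hp : ∀ k, 0 < p k) (h : Grp l r X) {D : ℝ} (hD : 0 ≤ D) {y : ℤ} {n : ℕ}
    (hb : ∀ i, i < n → D ≤ w i y) : ∀ k, k ≤ n → D ^ k * (l y + r y) ≤ mm w p l r k y
  | 0, _ => by
    show D ^ 0 * (l y + r y) ≤ fw w p l 0 y + fw w p r 0 y
    rw [fw_zero, fw_zero, pow_zero, one_mul]
  | k + 1, hk => by
    have ih := mm_keep hw hp h hD hb k (by omega)
    have h1 := hb k (by omega)
    have h2 := mm_nonneg hw hp h k (y - 1)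
    have h3 := hw k (y - 1)
    have h4 := mm_nonneg hw hp h k y
    rw [mm_succ]
    have h5 : D * (D ^ k * (l y + r y)) ≤ w k y * mm w p l r k y :=
      mul_le_mul h1 ih (mul_nonneg (pow_nonneg hD _) (add_nonneg (h.l0 y) (h.r0 y))) (hw k y).le
    have h6 : 0 ≤ p k * (w k (y - 1) * mm w p l r k (y - 1)) := by have hpk := hp k; positivity
    calc D ^ (k + 1) * (l y + r y) = D * (D ^ k * (l y + r y)) := by ring
      _ ≤ w k y * mm w p l r k y := h5
      _ ≤ _ := by linarith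



theorem mm_pos (hw : ∀ k y, 0 < w k y) (hp : ∀ k, 0 < p k) (h : Box l r X lo hi N) (k : ℕ) :
    ∃ y ∈ Icc lo hi, 0 < mm w p l r k y := by
  obtain ⟨y, hy⟩ := h.ps
  refine ⟨y, mem_Icc.2 ⟨(h.mem hy).1, ?_⟩, ?_⟩
  · have := (h.mem hy).2
    omega
  · induction k with
    | zero => exact hy
    | succ k ih =>
      rw [mm_succ]
      have h2 := mm_nonneg hw hp h.g k (y - 1)
      have h3 := hw k (y - 1)
      have h4 := hw k y
      have hpk := hp k; positivity

theorem TT_pos (hw : ∀ k y, 0 < w k y) (hp : ∀ k, 0 < p k) (h : Box l r X lo hi N) (k : ℕ) (q : ℤ) :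
    0 < TT w p l r lo hi N k q :=
  cut_pos (mm_nonneg hw hp h.g k) (bw_pos hw hp (N - k) k) (mm_pos hw hp h k) q

theorem bw_eq {k : ℕ} (hk : k < N) (y : ℤ) : bw w p k (N - k) y = w k y * GG w p N k y := by
  have e : N - k = (N - (k + 1)) + 1 := by omega
  rw [e, bw_succ]
  rfl

theorem GG_pos (hw : ∀ k y, 0 < w k y) (hp : ∀ k, 0 < p k) (k : ℕ) (y : ℤ) : 0 < GG w p N k y := by
  have h1 := bw_pos hw hp (N - (k + 1)) (k + 1) y
  have h2 := bw_pos hw hp (N - (k + 1)) (k + 1) (y + 1)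
  unfold GG
  have hpk := hp k; positivity

/-- The contracted row is the mixture over the moves of the interface. -/
theorem ZZ_eq (hw : ∀ k y, 0 < w k y) (hp : ∀ k, 0 < p k) (h : Box l r X lo hi N) {k : ℕ} (hk : k < N) {q : ℤ}
    (hq : q ∈ Icc X (X + N)) :
    ZZ w p l r lo hi N k q = th w p l r k q * TT w p l r lo hi N (k + 1) (q + 1) +
      (1 - th w p l r k q) * TT w p l r lo hi N (k + 1) q := by
  rw [mem_Icc] at hq
  have hX0 := h.X0
  have hX1 := h.X1
  have e : mm w p l r (k + 1) = fun y => w k y * mm w p l r k y + p k * (w k (y - 1) * mm w p l r k (y - 1)) :=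
    funext fun y => mm_succ k y
  have hN : (0 : ℤ) ≤ N := by positivity
  have hkN : (k : ℤ) < N := by exact_mod_cast hk
  have ht : th w p l r k q * (w k q * mm w p l r k q + p k * (w k (q - 1) * mm w p l r k (q - 1))) =
      p k * (w k (q - 1) * mm w p l r k (q - 1)) := by
    have := th_mul hw hp h.g k q
    rw [← mm_succ]
    exact this
  have key := zs_mix (R := bw w p (k + 1) (N - (k + 1))) (lo := lo) (hi := hi) (by omega)
    (fun y hy => bml h (w := w) (p := p) k hy) (bmh h (w := w) (p := p) (k := k) (y := hi) (by omega))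
    (q := q) (by omega) (by omega) ht
  unfold ZZ TT
  rw [e]
  rw [show GG w p N k = fun y => bw w p (k + 1) (N - (k + 1)) y + p k * bw w p (k + 1) (N - (k + 1)) (y + 1) from rfl]
  rw [key]
  ring

theorem ZZ_eqY (w : ℕ → ℤ → ℝ) (p : ℕ → ℝ) (l r : ℤ → ℝ) (lo hi : ℤ) (N k : ℕ) (q : ℤ)
    (h : mm w p l r k (q - 1) + mm w p l r k q = 0 → mm w p l r k (q - 1) = 0 ∧ mm w p l r k q = 0) :
    ZZ w p l r lo hi N k q = vv w p l r k q * Y1 w p l r lo hi N k q + (1 - vv w p l r k q) * Y2 w p l r lo hi N k q := by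
  have e : vv w p l r k q * (mm w p l r k (q - 1) + mm w p l r k q) = mm w p l r k (q - 1) := by
    unfold vv
    by_cases h0 : mm w p l r k (q - 1) + mm w p l r k q = 0
    · rw [h0, mul_zero, (h h0).1]
    · rw [div_mul_cancel₀ _ h0]
  unfold Y1 Y2
  linear_combination (- (w k (q - 1) - w k q) * GG w p N k (q - 1)) * e

theorem vv_mem (hw : ∀ k y, 0 < w k y) (hp : ∀ k, 0 < p k) (h : Grp l r X) (k : ℕ) (q : ℤ) :
    0 ≤ vv w p l r k q ∧ vv w p l r k q ≤ 1 := by
  have h1 := mm_nonneg hw hp h k (q - 1)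
  have h2 := mm_nonneg hw hp h k q
  unfold vv
  exact ⟨by positivity, div_le_one_of_le₀ (by linarith) (by positivity)⟩

theorem fw_congr {w w' : ℕ → ℤ → ℝ} {l : ℤ → ℝ} : ∀ (k : ℕ), (∀ i, i < k → ∀ y, w i y = w' i y) → ∀ y, fw w p l k y = fw w' p l k y
  | 0, _, _ => rfl
  | k + 1, h, y => by
    have ih := fw_congr (l := l) k (fun i hi => h i (by omega))
    rw [fw_succ, fw_succ, ih y, ih (y - 1), h k (by omega) y, h k (by omega) (y - 1)]

theorem bw_congr {w w' : ℕ → ℤ → ℝ} : ∀ (j k : ℕ), (∀ i, k ≤ i → ∀ y, w i y = w' i y) → ∀ y, bw w p k j y = bw w' p k j y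
  | 0, k, _, y => by rw [bw_zero, bw_zero]
  | j + 1, k, h, y => by
    have ih := bw_congr j (k + 1) (fun i hi => h i (by omega))
    rw [bw_succ, bw_succ, ih y, ih (y + 1), h k le_rfl y]

theorem mm_congr {w w' : ℕ → ℤ → ℝ} {k : ℕ} (h : ∀ i, i < k → ∀ y, w i y = w' i y) (y : ℤ) :
    mm w p l r k y = mm w' p l r k y := by
  unfold mm
  rw [fw_congr k h, fw_congr k h]

theorem Fk_congr {w w' : ℕ → ℤ → ℝ} {k : ℕ} (h : ∀ i, i < k → ∀ y, w i y = w' i y) (y : ℤ) :
    Fk w p l r X k y = Fk w' p l r X k y := by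
  unfold Fk
  rw [fw_congr k h, fw_congr k h]

theorem rho_congr {w w' : ℕ → ℤ → ℝ} {k : ℕ} (h : ∀ i, i < k → ∀ y, w i y = w' i y) (q : ℤ) :
    rho w p l r X k q = rho w' p l r X k q := by
  unfold rho
  rw [Fk_congr h, Fk_congr h]

theorem vv_congr {w w' : ℕ → ℤ → ℝ} {k : ℕ} (h : ∀ i, i < k → ∀ y, w i y = w' i y) (q : ℤ) :
    vv w p l r k q = vv w' p l r k q := by
  unfold vv
  rw [mm_congr h, mm_congr h]

theorem del_TT {w w' : ℕ → ℤ → ℝ} {k : ℕ} {j : ℤ} (h : Del w w' k j) (hk : k < N) (q : ℤ) :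
    TT w' p l r lo hi N k q = cut (Icc lo hi) (mm w p l r k) (fun y => dl (w k) j y * GG w p N k y) q := by
  have e1 : mm w' p l r k = mm w p l r k := funext fun y => mm_congr (fun i hi y => h.ne i (by omega) y) y
  have e2 : bw w' p k (N - k) = fun y => dl (w k) j y * GG w p N k y := by
    funext y
    rw [bw_eq hk, h.eq]
    have e3 := bw_congr (p := p) (w := w') (w' := w) (N - (k + 1)) (k + 1) (fun i hi y => h.ne i (by omega) y)
    unfold GG
    rw [e3, e3]
  unfold TT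
  rw [e1, e2]

theorem Y1_eq (h : Box l r X lo hi N) {w w' : ℕ → ℤ → ℝ} {k : ℕ} {q : ℤ} (hd : Del w w' k q) (hk : k < N)
    (hq : q ∈ Icc X (X + N)) : TT w' p l r lo hi N k q = Y1 w p l r lo hi N k q := by
  rw [del_TT hd hk]
  unfold Y1 ZZ
  refine cut_dl1 fun h1 => ?_
  rw [mem_Icc] at h1 hq
  have := h.X0
  have := h.X1
  omega

theorem Y2_eq (h : Box l r X lo hi N) {w w' : ℕ → ℤ → ℝ} {k : ℕ} {q : ℤ} (hd : Del w w' k (q - 1)) (hk : k < N)
    (hq : q ∈ Icc X (X + N)) : TT w' p l r lo hi N k q = Y2 w p l r lo hi N k q := by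
  rw [del_TT hd hk]
  unfold Y2 ZZ
  refine cut_dl2 fun h1 => ?_
  rw [mem_Icc] at h1 hq
  have := h.X0
  have := h.X1
  exact bml h k (by omega)

theorem Y1_pos (hw : ∀ k y, 0 < w k y) (hp : ∀ k, 0 < p k) (h : Box l r X lo hi N) {k : ℕ} (hk : k < N) {q : ℤ}
    (hq : q ∈ Icc X (X + N)) : 0 < Y1 w p l r lo hi N k q := by
  rw [← Y1_eq h (del_dw w k q) hk hq]
  exact TT_pos (dw_pos hw k q) hp h k q

theorem Y2_pos (hw : ∀ k y, 0 < w k y) (hp : ∀ k, 0 < p k) (h : Box l r X lo hi N) {k : ℕ} (hk : k < N) {q : ℤ}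
    (hq : q ∈ Icc X (X + N)) : 0 < Y2 w p l r lo hi N k q := by
  rw [← Y2_eq h (del_dw w k (q - 1)) hk hq]
  exact TT_pos (dw_pos hw k (q - 1)) hp h k q

theorem jg_nonneg (hw : ∀ k y, 0 < w k y) (hp : ∀ k, 0 < p k) (h : Box l r X lo hi N) {k : ℕ} (hk : k < N) {q : ℤ}
    (hq : q ∈ Icc X (X + N)) : 0 ≤ jg w p l r lo hi N k q :=
  jn_nonneg (vv_mem hw hp h.g k q).1 (vv_mem hw hp h.g k q).2 (Y1_pos hw hp h hk hq) (Y2_pos hw hp h hk hq)

theorem JG_nonneg (hw : ∀ k y, 0 < w k y) (hp : ∀ k, 0 < p k) (h : Box l r X lo hi N) (k : ℕ) (q : ℤ) :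
    0 ≤ JG w p l r lo hi N k q :=
  jn_nonneg (th_mem hw hp h.g k q).1 (th_mem hw hp h.g k q).2 (TT_pos hw hp h (k + 1) (q + 1)) (TT_pos hw hp h (k + 1) q)

/-- The gain, in terms of the masses of the two neighbours. -/
theorem jg_le (hw : ∀ k y, 0 < w k y) (hp : ∀ k, 0 < p k) (h : Box l r X lo hi N) {k : ℕ} (hk : k < N) {q : ℤ}
    (hq : q ∈ Icc X (X + N)) :
    jg w p l r lo hi N k q ≤ mm w p l r k (q - 1) * mm w p l r k q * ((w k (q - 1) - w k q) * GG w p N k (q - 1)) ^ 2 /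
      (Y1 w p l r lo hi N k q * Y2 w p l r lo hi N k q) := by
  have h1 := jn_le (vv_mem hw hp h.g k q).1 (vv_mem hw hp h.g k q).2 (Y1_pos hw hp h hk hq) (Y2_pos hw hp h hk hq)
  have hA := mm_nonneg hw hp h.g k (q - 1)
  have hB := mm_nonneg hw hp h.g k q
  refine h1.trans (le_of_eq ?_)
  congr 1
  have e : Y1 w p l r lo hi N k q - Y2 w p l r lo hi N k q =
      (mm w p l r k (q - 1) + mm w p l r k q) * ((w k (q - 1) - w k q) * GG w p N k (q - 1)) := by
    unfold Y1 Y2
    ring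
  have e2 : vv w p l r k q * (mm w p l r k (q - 1) + mm w p l r k q) = mm w p l r k (q - 1) := by
    unfold vv
    by_cases h0 : mm w p l r k (q - 1) + mm w p l r k q = 0
    · rw [h0, mul_zero]
      linarith
    · rw [div_mul_cancel₀ _ h0]
  rw [e]
  have e3 : (1 - vv w p l r k q) * (mm w p l r k (q - 1) + mm w p l r k q) = mm w p l r k q := by
    linear_combination - e2
  calc vv w p l r k q * (1 - vv w p l r k q) *
      ((mm w p l r k (q - 1) + mm w p l r k q) * ((w k (q - 1) - w k q) * GG w p N k (q - 1))) ^ 2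
      = (vv w p l r k q * (mm w p l r k (q - 1) + mm w p l r k q)) *
        ((1 - vv w p l r k q) * (mm w p l r k (q - 1) + mm w p l r k q)) *
        ((w k (q - 1) - w k q) * GG w p N k (q - 1)) ^ 2 := by ring
    _ = _ := by rw [e2, e3]

/-- The loss, in terms of the masses of the two neighbours. -/
theorem JG_le (hw : ∀ k y, 0 < w k y) (hp : ∀ k, 0 < p k) (h : Box l r X lo hi N) {k : ℕ} {q : ℤ}
    (hq : q ∈ Icc X (X + N)) :
    JG w p l r lo hi N k q ≤ mm w p l r k (q - 1) * mm w p l r k q * (p k * w k (q - 1) * w k q *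
      (bw w p (k + 1) (N - (k + 1)) q - bw w p (k + 1) (N - (k + 1)) (q - 1)) ^ 2) /
      (TT w p l r lo hi N (k + 1) (q + 1) * TT w p l r lo hi N (k + 1) q) := by
  have h1 := jn_le (th_mem hw hp h.g k q).1 (th_mem hw hp h.g k q).2 (TT_pos hw hp h (k + 1) (q + 1))
    (TT_pos hw hp h (k + 1) q)
  refine h1.trans (le_of_eq ?_)
  congr 1
  rw [mem_Icc] at hq
  have hX0 := h.X0
  have hX1 := h.X1
  have e : TT w p l r lo hi N (k + 1) (q + 1) - TT w p l r lo hi N (k + 1) q =
      mm w p l r (k + 1) q * (bw w p (k + 1) (N - (k + 1)) q - bw w p (k + 1) (N - (k + 1)) (q - 1)) :=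
    cut_sub (by omega) (by omega)
  have e2 : th w p l r k q * mm w p l r (k + 1) q = p k * (w k (q - 1) * mm w p l r k (q - 1)) := th_mul hw hp h.g k q
  have e3 : (1 - th w p l r k q) * mm w p l r (k + 1) q = w k q * mm w p l r k q := by
    rw [sub_mul, e2, one_mul, mm_succ]
    ring
  rw [e]
  calc th w p l r k q * (1 - th w p l r k q) *
      (mm w p l r (k + 1) q * (bw w p (k + 1) (N - (k + 1)) q - bw w p (k + 1) (N - (k + 1)) (q - 1))) ^ 2
      = (th w p l r k q * mm w p l r (k + 1) q) * ((1 - th w p l r k q) * mm w p l r (k + 1) q) *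
        (bw w p (k + 1) (N - (k + 1)) q - bw w p (k + 1) (N - (k + 1)) (q - 1)) ^ 2 := by ring
    _ = _ := by
      rw [e2, e3]
      ring

/-- One row, the moves of the interface. -/
theorem row_move (hw : ∀ k y, 0 < w k y) (hp : ∀ k, 0 < p k) (h : Box l r X lo hi N) {k : ℕ} (hk : k < N) :
    ∑ q ∈ Icc X (X + N), rho w p l r X (k + 1) q * Real.log (TT w p l r lo hi N (k + 1) q) =
      ∑ q ∈ Icc X (X + N), rho w p l r X k q * (Real.log (ZZ w p l r lo hi N k q) - JG w p l r lo hi N k q) := by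
  have e0 : ∀ q ∈ Icc X (X + N), rho w p l r X (k + 1) q * Real.log (TT w p l r lo hi N (k + 1) q) =
      (1 - th w p l r k q) * rho w p l r X k q * Real.log (TT w p l r lo hi N (k + 1) q) +
        (fun z => th w p l r k z * rho w p l r X k z * Real.log (TT w p l r lo hi N (k + 1) (z + 1))) (q - 1) := by
    intro q _
    show _ = _ + th w p l r k (q - 1) * rho w p l r X k (q - 1) * Real.log (TT w p l r lo hi N (k + 1) (q - 1 + 1))
    rw [rho_succ hw hp h.g, sub_add_cancel]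
    ring
  have hN : (0 : ℤ) ≤ N := by positivity
  have hkN : (k : ℤ) < N := by exact_mod_cast hk
  have e1 : ∑ q ∈ Icc X (X + N), (fun z => th w p l r k z * rho w p l r X k z *
      Real.log (TT w p l r lo hi N (k + 1) (z + 1))) (q - 1) =
      ∑ q ∈ Icc X (X + N), (fun z => th w p l r k z * rho w p l r X k z *
      Real.log (TT w p l r lo hi N (k + 1) (z + 1))) q := by
    refine sum_shift (f := fun z => th w p l r k z * rho w p l r X k z *
      Real.log (TT w p l r lo hi N (k + 1) (z + 1))) (by omega) ?_ ?_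
    · show th w p l r k (X - 1) * rho w p l r X k (X - 1) * _ = 0
      rw [rho_lo h.g k (show X - 1 < X by omega)]
      ring
    · show th w p l r k (X + N) * rho w p l r X k (X + N) * _ = 0
      rw [rho_hi h.g k (show X + (k : ℤ) < X + N by omega)]
      ring
  rw [sum_congr rfl e0, sum_add_distrib, e1, ← sum_add_distrib]
  refine sum_congr rfl fun q hq => ?_
  have e2 : JG w p l r lo hi N k q = Real.log (ZZ w p l r lo hi N k q) -
      th w p l r k q * Real.log (TT w p l r lo hi N (k + 1) (q + 1)) -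
      (1 - th w p l r k q) * Real.log (TT w p l r lo hi N (k + 1) q) := by
    rw [ZZ_eq hw hp h hk hq]
    rfl
  rw [e2]
  ring

/-- At the row `0` the right group is moved one step to the left. -/
theorem TT_zero (h : Box l r X lo hi N) :
    ∑ q ∈ Icc X (X + N), rho w p l r X 0 q * Real.log (TT w p l r lo hi N 0 q) =
      Real.log (∑ y ∈ Icc lo hi, (l y * bw w p 0 N y + r y * bw w p 0 N (y - 1))) := by
  have hN : (0 : ℤ) ≤ N := by positivity
  have e1 : ∀ q, X < q → rho w p l r X 0 q = 0 := fun q hq => rho_hi h.g 0 (by simpa using hq)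
  have e2 : rho w p l r X 0 X = 1 := by
    unfold rho
    rw [Fk_left h.g 0 (show X - 1 < X by omega), Fk_right h.g 0 (show X + ((0 : ℕ) : ℤ) ≤ X by simp), sub_zero]
  rw [sum_eq_single X, e2, one_mul]
  · congr 1
    unfold TT cut
    refine sum_congr rfl fun y _ => ?_
    show (l y + r y) * _ = _
    by_cases hy : y < X
    · rw [if_pos hy, h.g.rX y hy]
      show (l y + 0) * bw w p 0 N y = l y * bw w p 0 N y + 0 * bw w p 0 N (y - 1)
      ring
    · rw [if_neg hy, h.g.lX y (by omega)]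
      show (0 + r y) * bw w p 0 N (y - 1) = 0 * bw w p 0 N y + r y * bw w p 0 N (y - 1)
      ring
  · intro q hq hne
    rw [mem_Icc] at hq
    rw [e1 q (by omega), zero_mul]
  · intro hX
    exact absurd (mem_Icc.2 ⟨le_rfl, by omega⟩) hX

/-- The masses are transported: row by row. -/
theorem sum_mm_bw (h : Box l r X lo hi N) : ∀ k, k ≤ N →
    ∑ y ∈ Icc lo hi, mm w p l r k y * bw w p k (N - k) y = ∑ y ∈ Icc lo hi, (l y + r y) * bw w p 0 N y
  | 0, _ => rfl
  | k + 1, hk => by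
    have hkN : ((k : ℕ) : ℤ) < N := by exact_mod_cast hk
    have hX0 := h.X0
    have hX1 := h.X1
    rw [← sum_mm_bw h k (by omega)]
    have e0 : ∀ y ∈ Icc lo hi, mm w p l r (k + 1) y * bw w p (k + 1) (N - (k + 1)) y =
        w k y * mm w p l r k y * bw w p (k + 1) (N - (k + 1)) y +
        (fun z => p k * (w k z * mm w p l r k z) * bw w p (k + 1) (N - (k + 1)) (z + 1)) (y - 1) := by
      intro y _
      show _ = _ + p k * (w k (y - 1) * mm w p l r k (y - 1)) * bw w p (k + 1) (N - (k + 1)) (y - 1 + 1)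
      rw [mm_succ, sub_add_cancel]
      ring
    have e1 : ∑ y ∈ Icc lo hi, (fun z => p k * (w k z * mm w p l r k z) * bw w p (k + 1) (N - (k + 1)) (z + 1)) (y - 1) =
        ∑ y ∈ Icc lo hi, (fun z => p k * (w k z * mm w p l r k z) * bw w p (k + 1) (N - (k + 1)) (z + 1)) y := by
      refine sum_shift (f := fun z => p k * (w k z * mm w p l r k z) * bw w p (k + 1) (N - (k + 1)) (z + 1)) (by omega) ?_ ?_
      · show p k * (w k (lo - 1) * mm w p l r k (lo - 1)) * _ = 0
        rw [bml h k (show lo - 1 < lo by omega)]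
        ring
      · show p k * (w k hi * mm w p l r k hi) * _ = 0
        rw [bmh h (w := w) (p := p) (k := k) (y := hi) (by omega)]
        ring
    rw [sum_congr rfl e0, sum_add_distrib, e1, ← sum_add_distrib]
    refine sum_congr rfl fun y _ => ?_
    rw [bw_eq (show k < N by omega)]
    unfold GG
    ring

/-- At the row `N` the total mass is the mass of the two groups. -/
theorem TT_last (h : Box l r X lo hi N) :
    ∑ q ∈ Icc X (X + N), rho w p l r X N q * Real.log (TT w p l r lo hi N N q) =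
      Real.log (∑ y ∈ Icc lo hi, (l y + r y) * bw w p 0 N y) := by
  have e : ∀ q, TT w p l r lo hi N N q = ∑ y ∈ Icc lo hi, (l y + r y) * bw w p 0 N y := by
    intro q
    rw [← sum_mm_bw (w := w) (p := p) h N le_rfl]
    unfold TT cut
    refine sum_congr rfl fun y _ => ?_
    rw [Nat.sub_self, bw_zero, bw_zero]
    split_ifs <;> rfl
  rw [sum_congr rfl fun q _ => by rw [e q], ← sum_mul, sum_rho h.g le_rfl, one_mul]

end

end Pool.Agent.W_7d29a1_C1.K91P

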