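import Pool.Agent.W_7d29a1_C1.ContrE91
import Pool.Agent.W_7d29a1_C1.ContrP91
import Pool.Agent.W_7d29a1_F.CoreD1

/-!
MP_7d29a1_pr, [C1] attractor route, THE KERNELS OF THE MODEL K91P (row dependent `p`) AND THEIR BRIDGE TO `W μ s`. (helper16)

`ker w p i n x y`: the mass from the site `(i, x)` to the site `(i + n, y)`, weights of the rows `i, .., i + n - 1`.
`fw_ker`, `bw_ker`, `ker_add`: composition. `ker_W`: if `p = exp (s + h)` on these rows,
`ker (wt η) p i n x y * wt η (i + n) y = wt η i x * exp (n lam + h (y - x)) * W μ s η (i, x) n (y - x)`; `ker_W2`: the rows cross the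
row `M` where the force `h` is switched off.
-/

set_option autoImplicit false

namespace Pool.Agent.W_7d29a1_C1.U16

open MeasureTheory Finset
open Pool.Agent.W_7d29a1_F
open Pool.Agent.W_7d29a1_C1.K91 (wt wt_pos)
open Pool.Agent.W_7d29a1_C1.K91P (fw bw fw_zero fw_succ bw_zero bw_succ fw_nonneg bw_pos)

noncomputable section

/-- The unit mass. -/
def dlt (x y : ℤ) : ℝ := if y = x then 1 else 0

theorem dlt_nonneg (x y : ℤ) : 0 ≤ dlt x y := by
  unfold dlt
  split_ifs <;> norm_num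

/-- The kernel of the rows `i, .., i + n - 1`. -/
def ker (w : ℕ → ℤ → ℝ) (p : ℕ → ℝ) (i n : ℕ) (x y : ℤ) : ℝ := fw (fun k => w (i + k)) (fun k => p (i + k)) (dlt x) n y

section Det

variable {w : ℕ → ℤ → ℝ} {p : ℕ → ℝ} {l : ℤ → ℝ}

theorem ker_zero (i : ℕ) (x y : ℤ) : ker w p i 0 x y = if y = x then 1 else 0 := rfl

theorem ker_succ (i n : ℕ) (x y : ℤ) :
    ker w p i (n + 1) x y = w (i + n) y * ker w p i n x y + p (i + n) * (w (i + n) (y - 1) * ker w p i n x (y - 1)) := rfl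

theorem ker_nonneg (hw : ∀ k y, 0 < w k y) (hp : ∀ k, 0 < p k) (i n : ℕ) (x y : ℤ) : 0 ≤ ker w p i n x y :=
  fw_nonneg (fun k y => hw (i + k) y) (fun k => hp (i + k)) (dlt_nonneg x) n y

theorem ker_eq_zero (i : ℕ) : ∀ (n : ℕ) (x y : ℤ), ¬ (x ≤ y ∧ y ≤ x + n) → ker w p i n x y = 0
  | 0, x, y, h => by
    rw [ker_zero, if_neg]
    rintro rfl
    exact h ⟨le_rfl, by simp⟩
  | n + 1, x, y, h => by
    rw [ker_succ, ker_eq_zero i n x y (fun h1 => h ⟨h1.1, by push_cast; omega⟩),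
      ker_eq_zero i n x (y - 1) (fun h1 => h ⟨by omega, by push_cast; omega⟩)]
    ring

/-- The kernel reads only its rows. -/
theorem ker_congr {w' : ℕ → ℤ → ℝ} {p' : ℕ → ℝ} (i : ℕ) : ∀ (n : ℕ) (x y : ℤ), (∀ k, i ≤ k → k < i + n → w k = w' k ∧ p k = p' k) →
    ker w p i n x y = ker w' p' i n x y
  | 0, x, y, _ => rfl
  | n + 1, x, y, h => by
    obtain ⟨h1, h2⟩ := h (i + n) (by omega) (by omega)
    have h3 : ∀ k, i ≤ k → k < i + n → w k = w' k ∧ p k = p' k := fun k hk hk' => h k hk (by omega)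
    rw [ker_succ, ker_succ, ker_congr i n x y h3, ker_congr i n x (y - 1) h3, h1, h2]

/-- The forward masses after `n` rows more. -/
theorem fw_ker (i : ℕ) : ∀ (n : ℕ) (y : ℤ), fw w p l (i + n) y = ∑ x ∈ Icc (y - n) y, fw w p l i x * ker w p i n x y
  | 0, y => by
    have e : Icc (y - ((0 : ℕ) : ℤ)) y = {y} := by simp
    rw [e, sum_singleton, ker_zero, if_pos rfl, mul_one, add_zero]
  | n + 1, y => by
    have e1 : fw w p l (i + (n + 1)) y = w (i + n) y * fw w p l (i + n) y + p (i + n) * (w (i + n) (y - 1) * fw w p l (i + n) (y - 1)) := rfl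
    have h1 : fw w p l (i + n) y = ∑ x ∈ Icc (y - ((n + 1 : ℕ) : ℤ)) y, fw w p l i x * ker w p i n x y := by
      rw [fw_ker i n y]
      refine sum_subset (Icc_subset_Icc (by push_cast; omega) le_rfl) fun x hx hx' => ?_
      rw [mem_Icc] at hx hx'
      rw [ker_eq_zero i n x y (fun h => hx' ⟨by omega, hx.2⟩), mul_zero]
    have h2 : fw w p l (i + n) (y - 1) = ∑ x ∈ Icc (y - ((n + 1 : ℕ) : ℤ)) y, fw w p l i x * ker w p i n x (y - 1) := by
      rw [fw_ker i n (y - 1)]
      refine sum_subset (Icc_subset_Icc (by push_cast; omega) (by omega)) fun x hx hx' => ?_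
      rw [mem_Icc] at hx hx'
      push_cast at hx
      rw [ker_eq_zero i n x (y - 1) (fun h => hx' ⟨by omega, h.1⟩), mul_zero]
    rw [e1, h1, h2, mul_sum, mul_sum, mul_sum, ← sum_add_distrib]
    refine sum_congr rfl fun x _ => ?_
    rw [ker_succ]
    ring

/-- The backward masses from `n` rows before. -/
theorem bw_ker (i : ℕ) : ∀ (n j : ℕ) (x : ℤ), bw w p i (n + j) x = ∑ y ∈ Icc x (x + n), ker w p i n x y * bw w p (i + n) j y
  | 0, j, x => by
    have e : Icc x (x + ((0 : ℕ) : ℤ)) = {x} := by simp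
    rw [e, sum_singleton, ker_zero, if_pos rfl, one_mul, zero_add, add_zero]
  | n + 1, j, x => by
    have e1 : n + 1 + j = n + (j + 1) := by ring
    rw [e1, bw_ker i n (j + 1) x]
    have h1 : ∀ y ∈ Icc x (x + (n : ℤ)), ker w p i n x y * bw w p (i + n) (j + 1) y =
        ker w p i n x y * w (i + n) y * bw w p (i + (n + 1)) j y + p (i + n) * (ker w p i n x y * w (i + n) y * bw w p (i + (n + 1)) j (y + 1)) := by
      intro y _
      rw [bw_succ, ← add_assoc]
      ring
    rw [sum_congr rfl h1, sum_add_distrib]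
    have h2 : ∑ y ∈ Icc x (x + (n : ℤ)), ker w p i n x y * w (i + n) y * bw w p (i + (n + 1)) j y =
        ∑ y ∈ Icc x (x + ((n + 1 : ℕ) : ℤ)), ker w p i n x y * w (i + n) y * bw w p (i + (n + 1)) j y := by
      refine sum_subset (Icc_subset_Icc le_rfl (by push_cast; omega)) fun y hy hy' => ?_
      rw [mem_Icc] at hy hy'
      rw [ker_eq_zero i n x y (fun h => hy' ⟨hy.1, h.2⟩)]
      ring
    have h3 : ∑ y ∈ Icc x (x + (n : ℤ)), p (i + n) * (ker w p i n x y * w (i + n) y * bw w p (i + (n + 1)) j (y + 1)) =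
        ∑ y ∈ Icc x (x + ((n + 1 : ℕ) : ℤ)), p (i + n) * (ker w p i n x (y - 1) * w (i + n) (y - 1) * bw w p (i + (n + 1)) j y) := by
      have h4 : ∑ y ∈ Icc x (x + (n : ℤ)), p (i + n) * (ker w p i n x y * w (i + n) y * bw w p (i + (n + 1)) j (y + 1)) =
          ∑ y ∈ Icc (x + 1) (x + (n : ℤ) + 1), p (i + n) * (ker w p i n x (y - 1) * w (i + n) (y - 1) * bw w p (i + (n + 1)) j y) := by
        refine sum_bij (fun y _ => y + 1) (fun y hy => ?_) (fun a _ b _ hab => by simpa using hab) (fun y hy => ?_) (fun y _ => ?_)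
        · rw [mem_Icc] at hy ⊢
          omega
        · rw [mem_Icc] at hy
          exact ⟨y - 1, mem_Icc.2 ⟨by omega, by omega⟩, by ring⟩
        · rw [add_sub_cancel_right]
      rw [h4]
      refine sum_subset (Icc_subset_Icc (by omega) (by push_cast; omega)) fun y hy hy' => ?_
      rw [mem_Icc] at hy hy'
      push_cast at hy
      rw [ker_eq_zero i n x (y - 1) (fun h => hy' ⟨by omega, by omega⟩)]
      ring
    rw [h2, h3, ← sum_add_distrib]
    refine sum_congr rfl fun y _ => ?_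
    rw [ker_succ]
    ring

/-- Composition of the kernels. -/
theorem ker_add (i m n : ℕ) (x y : ℤ) : ker w p i (m + n) x y = ∑ z ∈ Icc (y - n) y, ker w p i m x z * ker w p (i + m) n z y := by
  have h1 : ker w p i (m + n) x y = ∑ z ∈ Icc (y - n) y, fw (fun k => w (i + k)) (fun k => p (i + k)) (dlt x) m z *
      ker (fun k => w (i + k)) (fun k => p (i + k)) m n z y := fw_ker (w := fun k => w (i + k)) (p := fun k => p (i + k)) m n y
  rw [h1]
  refine sum_congr rfl fun z _ => ?_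
  have h2 : ker (fun k => w (i + k)) (fun k => p (i + k)) m n z y = ker w p (i + m) n z y := by
    unfold ker
    congr 1
    · funext k
      rw [add_assoc]
    · funext k
      rw [add_assoc]
  rw [h2]
  rfl

end Det

/-! ### The bridge -/

variable {μ : Measure ℝ} {s h : ℝ}

/-- The last step of `W`. -/
theorem W_last (η : Env) (a : Pt) (n : ℕ) (y : ℤ) : Real.exp (lam μ s) * W μ s η a (n + 1) y =
    Real.exp (η (a.1 + (n + 1), a.2 + y)) * (W μ s η a n y + Real.exp s * W μ s η a n (y - 1)) := by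
  unfold W WR
  have e1 : Zr Set.univ η a (n + 1) y = Real.exp (η (a.1 + (n + 1), a.2 + y)) * (Zr Set.univ η a n y + Zr Set.univ η a n (y - 1)) := by
    show (Set.univ : Set Pt).indicator (fun p => Real.exp (η p)) (a.1 + (n + 1), a.2 + y) * _ = _
    rw [Set.indicator_univ]
  have e2 : Real.exp (lam μ s) * Real.exp (s * y - ((n + 1 : ℕ) : ℝ) * lam μ s) = Real.exp (s * y - n * lam μ s) := by
    rw [← Real.exp_add]
    congr 1
    push_cast
    ring
  have e3 : Real.exp s * Real.exp (s * ((y - 1 : ℤ) : ℝ) - n * lam μ s) = Real.exp (s * y - n * lam μ s) := by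
    rw [← Real.exp_add]
    congr 1
    push_cast
    ring
  calc Real.exp (lam μ s) * (Real.exp (s * y - ((n + 1 : ℕ) : ℝ) * lam μ s) * Zr Set.univ η a (n + 1) y)
      = (Real.exp (lam μ s) * Real.exp (s * y - ((n + 1 : ℕ) : ℝ) * lam μ s)) * Zr Set.univ η a (n + 1) y := by ring
    _ = Real.exp (s * y - n * lam μ s) * (Real.exp (η (a.1 + (n + 1), a.2 + y)) * (Zr Set.univ η a n y + Zr Set.univ η a n (y - 1))) := by
        rw [e2, e1]
    _ = Real.exp (η (a.1 + (n + 1), a.2 + y)) * (Real.exp (s * y - n * lam μ s) * Zr Set.univ η a n y +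
        Real.exp (s * y - n * lam μ s) * Zr Set.univ η a n (y - 1)) := by ring
    _ = Real.exp (η (a.1 + (n + 1), a.2 + y)) * (Real.exp (s * y - n * lam μ s) * Zr Set.univ η a n y +
        (Real.exp s * Real.exp (s * ((y - 1 : ℤ) : ℝ) - n * lam μ s)) * Zr Set.univ η a n (y - 1)) := by rw [e3]
    _ = _ := by ring

theorem W_nil (η : Env) (a : Pt) (y : ℤ) : W μ s η a 0 y = if y = 0 then 1 else 0 := by
  unfold W WR
  show Real.exp (s * y - ((0 : ℕ) : ℝ) * lam μ s) * (if y = 0 then 1 else 0) = _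
  split_ifs with h1
  · subst h1
    simp
  · simp

/-- THE BRIDGE, rows with the step weight `exp (s + h)`. -/
theorem ker_W (η : Env) {p : ℕ → ℝ} (i : ℕ) (x : ℤ) : ∀ (n : ℕ) (y : ℤ), (∀ k, i ≤ k → k < i + n → p k = Real.exp (s + h)) →
    ker (wt η) p i n x y * wt η (i + n) y = wt η i x * (Real.exp (n * lam μ s + h * ((y - x : ℤ) : ℝ)) * W μ s η ((i : ℤ), x) n (y - x))
  | 0, y, _ => by
    rw [ker_zero, W_nil]
    by_cases h1 : y = x
    · subst h1
      simp
    · rw [if_neg h1, if_neg (by omega)]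
      ring
  | n + 1, y, hp => by
    have i1 := ker_W η i x n y (fun k hk hk' => hp k hk (by omega))
    have i2 := ker_W η i x n (y - 1) (fun k hk hk' => hp k hk (by omega))
    have hpn := hp (i + n) (by omega) (by omega)
    have hW := W_last (μ := μ) (s := s) η ((i : ℤ), x) n (y - x)
    have e0 : wt η (i + (n + 1)) y = Real.exp (η ((((i : ℤ), x) : Pt).1 + (n + 1), (((i : ℤ), x) : Pt).2 + (y - x))) := by
      unfold wt
      rw [if_neg (by omega)]
      congr 2
      ext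
      · show (((i + (n + 1) : ℕ) : ℤ)) = (i : ℤ) + (n + 1)
        push_cast
        ring
      · show y = x + (y - x)
        ring
    have e1 : Real.exp (((n + 1 : ℕ) : ℝ) * lam μ s + h * ((y - x : ℤ) : ℝ)) = Real.exp (n * lam μ s + h * ((y - x : ℤ) : ℝ)) * Real.exp (lam μ s) := by
      rw [← Real.exp_add]
      congr 1
      push_cast
      ring
    have e2 : y - 1 - x = y - x - 1 := by ring
    have e3 : Real.exp (s + h) * Real.exp (n * lam μ s + h * ((y - 1 - x : ℤ) : ℝ)) = Real.exp (n * lam μ s + h * ((y - x : ℤ) : ℝ)) * Real.exp s := by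
      rw [← Real.exp_add, ← Real.exp_add]
      congr 1
      push_cast
      ring
    rw [ker_succ, hpn]
    calc (wt η (i + n) y * ker (wt η) p i n x y + Real.exp (s + h) * (wt η (i + n) (y - 1) * ker (wt η) p i n x (y - 1))) * wt η (i + (n + 1)) y
        = wt η (i + (n + 1)) y * (ker (wt η) p i n x y * wt η (i + n) y + Real.exp (s + h) *
          (ker (wt η) p i n x (y - 1) * wt η (i + n) (y - 1))) := by ring
      _ = wt η (i + (n + 1)) y * (wt η i x * (Real.exp (n * lam μ s + h * ((y - x : ℤ) : ℝ)) * W μ s η ((i : ℤ), x) n (y - x)) +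
          wt η i x * ((Real.exp (s + h) * Real.exp (n * lam μ s + h * ((y - 1 - x : ℤ) : ℝ))) * W μ s η ((i : ℤ), x) n (y - x - 1))) := by
        rw [i1, i2, e2]
        ring
      _ = wt η i x * (Real.exp (n * lam μ s + h * ((y - x : ℤ) : ℝ)) * (Real.exp (η ((((i : ℤ), x) : Pt).1 + (n + 1), (((i : ℤ), x) : Pt).2 + (y - x))) *
          (W μ s η ((i : ℤ), x) n (y - x) + Real.exp s * W μ s η ((i : ℤ), x) n (y - x - 1)))) := by
        rw [e3, e0]
        ring
      _ = _ := by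
        rw [← hW, e1]
        ring

/-- The composite kernel: `m` rows with the force `h`, then `n` rows without. -/
def CW (μ : Measure ℝ) (s h : ℝ) (η : Env) (a : Pt) (m n : ℕ) (y : ℤ) : ℝ :=
  ∑ z ∈ Icc (0 : ℤ) m, Real.exp (h * z) * W μ s η a m z * W μ s η (a.1 + m, a.2 + z) n (y - z)

/-- THE BRIDGE across the row `i + m` where the force is switched off. -/
theorem ker_W2 (η : Env) {p : ℕ → ℝ} (i m n : ℕ) (x y : ℤ) (hp : ∀ k, i ≤ k → k < i + m → p k = Real.exp (s + h))
    (hp' : ∀ k, i + m ≤ k → k < i + m + n → p k = Real.exp s) :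
    ker (wt η) p i (m + n) x y * wt η (i + (m + n)) y = wt η i x * (Real.exp (((m + n : ℕ) : ℝ) * lam μ s) * CW μ s h η ((i : ℤ), x) m n (y - x)) := by
  have hp'' : ∀ k, i + m ≤ k → k < i + m + n → p k = Real.exp (s + 0) := fun k h1 h2 => by rw [add_zero]; exact hp' k h1 h2
  rw [ker_add, sum_mul]
  have h1 : ∀ z ∈ Icc (y - (n : ℤ)) y, ker (wt η) p i m x z * ker (wt η) p (i + m) n z y * wt η (i + (m + n)) y =
      wt η i x * (Real.exp (((m + n : ℕ) : ℝ) * lam μ s) * (Real.exp (h * ((z - x : ℤ) : ℝ)) * W μ s η ((i : ℤ), x) m (z - x) *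
        W μ s η (((i : ℤ), x).1 + (m : ℤ), ((i : ℤ), x).2 + (z - x)) n (y - x - (z - x)))) := by
    intro z _
    have g1 := ker_W (μ := μ) (s := s) (h := h) η i x m z hp
    have g2 := ker_W (μ := μ) (s := s) (h := 0) η (p := p) (i + m) z n y hp''
    have hz := wt_pos η (i + m) z
    rw [← add_assoc, mul_assoc, g2]
    have e1 : ker (wt η) p i m x z * (wt η (i + m) z * (Real.exp (n * lam μ s + 0 * ((y - z : ℤ) : ℝ)) * W μ s η (((i + m : ℕ) : ℤ), z) n (y - z))) =
        (ker (wt η) p i m x z * wt η (i + m) z) * (Real.exp (n * lam μ s) * W μ s η (((i + m : ℕ) : ℤ), z) n (y - z)) := by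
      rw [zero_mul, add_zero]
      ring
    rw [e1, g1]
    have e2 : Real.exp (((m + n : ℕ) : ℝ) * lam μ s) = Real.exp (m * lam μ s) * Real.exp (n * lam μ s) := by
      rw [← Real.exp_add]
      congr 1
      push_cast
      ring
    have e3 : Real.exp (m * lam μ s + h * ((z - x : ℤ) : ℝ)) = Real.exp (m * lam μ s) * Real.exp (h * ((z - x : ℤ) : ℝ)) := Real.exp_add _ _
    have e4 : ((((i : ℤ), x) : Pt).1 + (m : ℤ), (((i : ℤ), x) : Pt).2 + (z - x)) = ((((i + m : ℕ) : ℤ), z) : Pt) := by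
      ext
      · show (i : ℤ) + m = ((i + m : ℕ) : ℤ)
        push_cast
        ring
      · show x + (z - x) = z
        ring
    have e5 : y - x - (z - x) = y - z := by ring
    rw [e2, e3, e4, e5]
    ring
  rw [sum_congr rfl h1, ← mul_sum, ← mul_sum]
  congr 2
  unfold CW
  -- the sum over z - x
  have h2 : ∑ z ∈ Icc (0 : ℤ) m, Real.exp (h * z) * W μ s η ((i : ℤ), x) m z *
      W μ s η (((i : ℤ), x).1 + (m : ℤ), ((i : ℤ), x).2 + z) n (y - x - z) =
      ∑ z ∈ Icc x (x + m), Real.exp (h * ((z - x : ℤ) : ℝ)) * W μ s η ((i : ℤ), x) m (z - x) *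
        W μ s η (((i : ℤ), x).1 + (m : ℤ), ((i : ℤ), x).2 + (z - x)) n (y - x - (z - x)) := by
    refine sum_bij (fun z _ => z + x) (fun z hz => ?_) (fun a _ b _ hab => by simpa using hab) (fun z hz => ?_) (fun z _ => ?_)
    · rw [mem_Icc] at hz ⊢
      omega
    · rw [mem_Icc] at hz
      exact ⟨z - x, mem_Icc.2 ⟨by omega, by omega⟩, by ring⟩
    · rw [add_sub_cancel_right]
  rw [h2]
  obtain ⟨f, hf⟩ : ∃ f : ℤ → ℝ, f = fun z => Real.exp (h * ((z - x : ℤ) : ℝ)) * W μ s η ((i : ℤ), x) m (z - x) *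
        W μ s η (((i : ℤ), x).1 + (m : ℤ), ((i : ℤ), x).2 + (z - x)) n (y - x - (z - x)) := ⟨_, rfl⟩
  have hf1 : ∀ z, ¬ (x ≤ z ∧ z ≤ x + m) → f z = 0 := by
    intro z hz
    rw [hf]
    dsimp only
    rw [W_eq_zero η ((i : ℤ), x) (fun h => hz ⟨by omega, by omega⟩)]
    ring
  have hf2 : ∀ z, ¬ (y - n ≤ z ∧ z ≤ y) → f z = 0 := by
    intro z hz
    rw [hf]
    dsimp only
    rw [W_eq_zero η (((i : ℤ), x).1 + (m : ℤ), ((i : ℤ), x).2 + (z - x)) (n := n) (y := y - x - (z - x)) (fun h => hz ⟨by omega, by omega⟩)]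
    ring
  have g1 : ∑ z ∈ Icc (y - (n : ℤ)) y, f z = ∑ z ∈ Icc (y - (n : ℤ)) y ∪ Icc x (x + m), f z := by
    refine sum_subset subset_union_left fun z _ hz => hf2 z fun h => hz (mem_Icc.2 h)
  have g2 : ∑ z ∈ Icc x (x + (m : ℤ)), f z = ∑ z ∈ Icc (y - (n : ℤ)) y ∪ Icc x (x + m), f z := by
    refine sum_subset subset_union_right fun z _ hz => hf1 z fun h => hz (mem_Icc.2 h)
  rw [hf] at g1 g2
  rw [g1, g2]

end

end Pool.Agent.W_7d29a1_C1.U16
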