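import Pool.Agent.W_7d29a1_C1.BufC21
import Pool.Agent.W_7d29a1_C1.KerP16
import Pool.Agent.W_7d29a1_C1.Exi21

/-!
Both halves (MP_7d29a1_pr), attractor route [C1]: THE REAL KERNELS AND THE NORMALISED KERNELS `kW`. (helper21)

`fac21` : `kf (wt η) p i n` is `α y * β x` times `kW μ s η i n`, with factors controlled by the lateral coordinates, when the step
weight is constant in the rows and the single weights of the rows `i`, `i + n` are controlled.
-/

set_option autoImplicit false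
set_option linter.unusedSectionVars false

namespace Pool.Agent.W_7d29a1_C1.Sh21

open Finset MeasureTheory Pool.Agent.W_7d29a1_F Pool.Agent.W_7d29a1_h4g Pool.Agent.W_7d29a1_H Pool.Agent.W_7d29a1_C1.CR76
  Pool.Agent.W_7d29a1_C1.K91P Pool.Agent.W_7d29a1_C1.Basin76 Pool.Agent.W_7d29a1_C1.R26P
open Pool.Agent.W_7d29a1_C1.X21 (dc dc_nonneg)

noncomputable section

variable {μ : Measure ℝ} {s h' : ℝ} {η : Env} {p : ℕ → ℝ} {i n : ℕ} {lo h : ℤ} {o W E τ ua va ub vb : ℝ}

/-- Lateral coordinate of a column at a row `n` rows above the base. -/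
def Lc (μ : Measure ℝ) (s o W : ℝ) (n : ℕ) (x : ℤ) : ℝ := ((x : ℝ) - o - sl μ s * n) / W

theorem Lc_zero (y : ℤ) : Lc μ s o W 0 y = ((y : ℝ) - o) / W := by
  unfold Lc
  simp

theorem Lc_abs (hW : 0 < W) (n : ℕ) (x : ℤ) : |(x : ℝ) - o - sl μ s * n| = W * |Lc μ s o W n x| := by
  unfold Lc
  rw [abs_div, abs_of_pos hW]
  field_simp

/-- The weight of a site. -/
theorem wt_bd {j : ℕ} {x : ℤ} {B : ℝ} (hB : |η ((j : ℤ), x)| ≤ B) : K91.wt η j x ≤ Real.exp B ∧ Real.exp (-B) ≤ K91.wt η j x := by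
  have h0 := (abs_nonneg _).trans hB
  rw [abs_le] at hB
  unfold K91.wt
  split_ifs
  · exact ⟨Real.one_le_exp h0, Real.exp_le_one_iff.2 (by linarith)⟩
  · exact ⟨Real.exp_le_exp.2 hB.2, Real.exp_le_exp.2 hB.1⟩

/-- **The factors of the real kernels.** -/
theorem fac21 (hp : ∀ k, i ≤ k → k < i + n → p k = Real.exp (s + h')) (hW : 0 < W) (E0 : 0 ≤ E) (hτ : |h'| * W ≤ τ * E) (hτ0 : 0 ≤ τ)
    (hva : 0 ≤ va) (hvb : 0 ≤ vb) (Wa : ∀ y ∈ Icc lo h, |η ((i : ℤ), y)| ≤ (ua + va * |Lc μ s o W 0 y|) * E)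
    (Wb : ∀ x ∈ Icc lo (h + n), |η (((i + n : ℕ) : ℤ), x)| ≤ (ub + vb * |Lc μ s o W n x|) * E) :
    Fac lo h n (kf (K91.wt η) p i n) (kW μ s η i n) (fun y => K91.wt η i y * Real.exp (-(h' * ((y : ℝ) - o))))
      (fun x => Real.exp (n * lam μ s + h' * ((x : ℝ) - o)) / K91.wt η (i + n) x) (Lc μ s o W 0) (Lc μ s o W n) E 1
      (Real.exp (n * lam μ s + h' * (sl μ s * n))) ua (va + τ) ub (vb + τ) := by
  have wp : ∀ j x, 0 < K91.wt η j x := fun j x => K91.wt_pos η j x
  have tilt : ∀ (m : ℕ) (x : ℤ), |h' * ((x : ℝ) - o - sl μ s * m)| ≤ τ * |Lc μ s o W m x| * E := by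
    intro m x
    rw [abs_mul, Lc_abs hW]
    have := mul_le_mul_of_nonneg_right hτ (abs_nonneg (Lc μ s o W m x))
    linarith
  have tilt0 : ∀ x : ℤ, |h' * ((x : ℝ) - o)| ≤ τ * |Lc μ s o W 0 x| * E := by
    intro x
    have := tilt 0 x
    simp only [Nat.cast_zero, mul_zero, sub_zero] at this
    exact this
  refine
    { eq := fun y x => ?_
      Kr0 := fun y x => kW_nonneg η _ _ _ _
      α0 := fun y => mul_pos (wp _ _) (Real.exp_pos _)
      β0 := fun x => div_pos (Real.exp_pos _) (wp _ _)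
      a0p := one_pos
      b0p := Real.exp_pos _
      E0 := E0
      ka0 := by linarith
      kb0 := by linarith
      aup := fun y hy => ?_
      alw := fun y hy => ?_
      bup := fun x hx => ?_
      blw := fun x hx => ?_ }
  · have h1 := U16.ker_W (μ := μ) (s := s) (h := h') η i y n x hp
    have h2 := (wp (i + n) x).ne'
    have e : Real.exp (n * lam μ s + h' * ((x - y : ℤ) : ℝ)) = Real.exp (-(h' * ((y : ℝ) - o))) *
        Real.exp (n * lam μ s + h' * ((x : ℝ) - o)) := by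
      rw [← Real.exp_add]
      congr 1
      push_cast
      ring
    rw [e] at h1
    show U16.ker (K91.wt η) p i n y x = _
    have h3 : U16.ker (K91.wt η) p i n y x = K91.wt η i y * (Real.exp (-(h' * ((y : ℝ) - o))) *
        Real.exp (n * lam μ s + h' * ((x : ℝ) - o)) * W_7d29a1_F.W μ s η ((i : ℤ), y) n (x - y)) / K91.wt η (i + n) x := by
      rw [eq_div_iff h2]
      exact h1
    rw [h3]
    unfold kW
    ring
  · have b := (wt_bd (Wa y hy)).1
    have t := tilt0 y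
    have t2 : Real.exp (-(h' * ((y : ℝ) - o))) ≤ Real.exp (τ * |Lc μ s o W 0 y| * E) :=
      Real.exp_le_exp.2 (by rw [abs_le] at t; linarith [t.1])
    rw [one_mul]
    refine (mul_le_mul b t2 (Real.exp_pos _).le (Real.exp_pos _).le).trans (le_of_eq ?_)
    rw [← Real.exp_add]
    congr 1
    ring
  · have b := (wt_bd (Wa y hy)).2
    have t := tilt0 y
    have t2 : Real.exp (-(τ * |Lc μ s o W 0 y| * E)) ≤ Real.exp (-(h' * ((y : ℝ) - o))) :=
      Real.exp_le_exp.2 (by rw [abs_le] at t; linarith [t.2])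
    have m := mul_le_mul b t2 (Real.exp_pos _).le (wp _ _).le
    have m2 := mul_le_mul_of_nonneg_right m (Real.exp_pos ((ua + (va + τ) * |Lc μ s o W 0 y|) * E)).le
    refine le_trans (le_of_eq ?_) m2
    rw [← Real.exp_add, ← Real.exp_add, ← Real.exp_zero]
    congr 1
    ring
  · have b := (wt_bd (Wb x hx)).2
    have t := tilt n x
    rw [div_le_iff₀ (wp _ _)]
    have e1 : Real.exp (n * lam μ s + h' * ((x : ℝ) - o)) = Real.exp (n * lam μ s + h' * (sl μ s * n)) *
        Real.exp (h' * ((x : ℝ) - o - sl μ s * n)) := by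
      rw [← Real.exp_add]
      congr 1
      ring
    rw [e1, mul_assoc]
    refine mul_le_mul_of_nonneg_left ?_ (Real.exp_pos _).le
    have m := mul_le_mul_of_nonneg_left b (Real.exp_pos ((ub + (vb + τ) * |Lc μ s o W n x|) * E)).le
    refine le_trans ?_ m
    rw [← Real.exp_add]
    refine Real.exp_le_exp.2 ?_
    rw [abs_le] at t
    linarith [t.2]
  · have b := (wt_bd (Wb x hx)).1
    have t := tilt n x
    have e1 : Real.exp (n * lam μ s + h' * ((x : ℝ) - o)) = Real.exp (n * lam μ s + h' * (sl μ s * n)) *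
        Real.exp (h' * ((x : ℝ) - o - sl μ s * n)) := by
      rw [← Real.exp_add]
      congr 1
      ring
    rw [e1, div_mul_eq_mul_div, le_div_iff₀ (wp _ _), mul_assoc]
    refine mul_le_mul_of_nonneg_left ?_ (Real.exp_pos _).le
    refine b.trans ?_
    rw [← Real.exp_add]
    refine Real.exp_le_exp.2 ?_
    rw [abs_le] at t
    linarith [t.1]

/-- The single weights in lateral coordinates, from the form of `K78.Wl`. -/
theorem wl_lat {cen : ℕ → ℤ} {j m : ℕ} {u0 b1 c4 : ℝ} (hW : 0 < W) (E0 : 0 ≤ E) (hb1 : 0 ≤ b1)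
    (hcen : |(cen j : ℝ) - o - sl μ s * m| ≤ c4 * W) {x : ℤ} (h : |η ((j : ℤ), x)| ≤ u0 * E + b1 * (E / W) * dc cen j x) :
    |η ((j : ℤ), x)| ≤ (u0 + b1 * c4 + b1 * |Lc μ s o W m x|) * E := by
  refine h.trans ?_
  have t : dc cen j x ≤ W * (c4 + |Lc μ s o W m x|) := by
    unfold dc
    have e : ((x - cen j : ℤ) : ℝ) = ((x : ℝ) - o - sl μ s * m) - ((cen j : ℝ) - o - sl μ s * m) := by
      push_cast
      ring
    rw [e]
    refine (abs_sub _ _).trans ?_
    rw [Lc_abs hW]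
    linarith
  have t2 := mul_le_mul_of_nonneg_left t (mul_nonneg hb1 (div_nonneg E0 hW.le))
  have e2 : b1 * (E / W) * (W * (c4 + |Lc μ s o W m x|)) = b1 * (c4 + |Lc μ s o W m x|) * E := by
    field_simp
  rw [e2] at t2
  linarith

/-- A slope of the form of `krn78` in lateral coordinates. -/
theorem slope_lat {cen : ℕ → ℤ} {j m : ℕ} {σ ρ c4 E' W' : ℝ} (hW : 0 < W) (hσ : 0 ≤ σ)
    (hEW : E' / W' * W ≤ E) (hE' : 0 ≤ E') (hW' : 0 < W') (hρ : 0 ≤ ρ) (hc4 : 0 ≤ c4)
    (hcen : |(cen j : ℝ) - o - sl μ s * m| ≤ c4 * W) (x : ℤ) :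
    Real.exp (σ * (E' / W') * (dc cen j x - ρ * W')) ≤ Real.exp ((σ * c4 + σ * |Lc μ s o W m x|) * E) := by
  refine Real.exp_le_exp.2 ?_
  have t : dc cen j x ≤ W * (c4 + |Lc μ s o W m x|) := by
    unfold dc
    have e : ((x - cen j : ℤ) : ℝ) = ((x : ℝ) - o - sl μ s * m) - ((cen j : ℝ) - o - sl μ s * m) := by
      push_cast
      ring
    rw [e]
    refine (abs_sub _ _).trans ?_
    rw [Lc_abs hW]
    linarith
  have q : 0 ≤ E' / W' := div_nonneg hE' hW'.le
  have n1 : 0 ≤ c4 + |Lc μ s o W m x| := by positivity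
  have t1 : dc cen j x - ρ * W' ≤ W * (c4 + |Lc μ s o W m x|) := by
    have := mul_nonneg hρ hW'.le
    linarith
  have t2 := mul_le_mul_of_nonneg_left t1 (mul_nonneg hσ q)
  have t3 := mul_le_mul_of_nonneg_right (mul_le_mul_of_nonneg_left hEW hσ) n1
  refine t2.trans ?_
  refine le_trans (le_of_eq ?_) (t3.trans (le_of_eq ?_))
  · ring
  · ring

end

end Pool.Agent.W_7d29a1_C1.Sh21
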