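import Pool.Agent.W_7d29a1_C1.TiltK97
import Pool.Agent.W_7d29a1_C1.KwC21

/-!
Both halves (MP_7d29a1_pr), attractor route [C1]: KERNEL AND CROSS RATIO UNDER A TILT. (helper21)

Two sequences of step weights which agree up to `θ` in every row of a block of `n` rows : `kf_mc` : the kernels agree up to `θ ^ n`;
`CR_mc` : `CR ≤ 1 + δ` for one of them gives `CR ≤ 1 + θ ^ (4 n) δ` for the other one (LGV determinants, `mc_dp` of helper97). So a
switch row INSIDE a slab of rank one costs nothing. `kf_kW21` : the kernel of the system between multiples of `wt kW / wt`, any `p` with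
`p k ∈ exp s * [θ⁻¹, θ]`.
-/

set_option autoImplicit false
set_option linter.unusedSectionVars false

namespace Pool.Agent.W_7d29a1_C1.Sh21

open Finset MeasureTheory Pool.Agent.W_7d29a1_F Pool.Agent.W_7d29a1_h4g Pool.Agent.W_7d29a1_H Pool.Agent.W_7d29a1_C1.CR76
  Pool.Agent.W_7d29a1_C1.K91P Pool.Agent.W_7d29a1_C1.Basin76 Pool.Agent.W_7d29a1_C1.R26P
open Pool.Agent.W_7d29a1_C1.K91 (Grp shw)
open Pool.Agent.W_7d29a1_C1.K97 (mc)
open Pool.Agent.W_7d29a1_C1.T97 (mc_fw mc_dp)

noncomputable section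

variable {w : ℕ → ℤ → ℝ} {p p' : ℕ → ℝ} {θ δ : ℝ} {r n : ℕ} {y y' x x' : ℤ}

/-- The kernels. -/
theorem kf_mc (hw : ∀ k y, 0 < w k y) (hp : ∀ k, 0 < p k) (hp' : ∀ k, 0 < p' k) (ht : 1 ≤ θ) (h : ∀ i < n, mc θ (p (r + i)) (p' (r + i)))
    (y x : ℤ) : mc (θ ^ n) (kf w p r n y x) (kf w p' r n y x) :=
  mc_fw (shw_pos hw r) (shp_pos hp r) (shp_pos hp' r) ht (sg_nonneg y) n (fun i hi => h i hi) x

/-- The LGV determinants. -/
theorem minor_mc (hw : ∀ k y, 0 < w k y) (hp : ∀ k, 0 < p k) (hp' : ∀ k, 0 < p' k) (ht : 1 ≤ θ) (h : ∀ i < n, mc θ (p (r + i)) (p' (r + i)))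
    (hy : y < y') (hx : x ≤ x') : mc (θ ^ (2 * n)) (kf w p r n y x * kf w p r n y' x' - kf w p r n y x' * kf w p r n y' x)
      (kf w p' r n y x * kf w p' r n y' x' - kf w p' r n y x' * kf w p' r n y' x) := by
  have hg : Grp (sg y) (sg y') y' := ⟨sg_nonneg y, sg_nonneg y', fun z hz => by
    unfold sg; rw [if_neg (by omega)], fun z hz => by unfold sg; rw [if_neg (by omega)]⟩
  exact mc_dp (shw_pos hw r) (shp_pos hp r) (shp_pos hp' r) ht hg n (fun i hi => h i hi) x x' hx

/-- **THE CROSS RATIO UNDER A TILT.** -/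
theorem CR_mc (hw : ∀ k y, 0 < w k y) (hp : ∀ k, 0 < p k) (hp' : ∀ k, 0 < p' k) (ht : 1 ≤ θ) (h : ∀ i < n, mc θ (p (r + i)) (p' (r + i)))
    (hy : y ≤ y') (hx : x ≤ x') (δ0 : 0 ≤ δ) (H : CR (kf w p' r n) y y' x x' ≤ 1 + δ) :
    CR (kf w p r n) y y' x x' ≤ 1 + θ ^ (4 * n) * δ := by
  have hθ : 0 ≤ θ ^ (4 * n) * δ := by positivity
  rcases eq_or_lt_of_le hy with h0 | h0
  · subst h0
    unfold CR
    refine le_trans ?_ (by linarith : (1 : ℝ) ≤ 1 + θ ^ (4 * n) * δ)
    rw [mul_comm (kf w p r n y x') (kf w p r n y x)]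
    exact div_self_le_one _
  · have m1 := kf_mc hw hp hp' ht h y x'
    have m2 := kf_mc hw hp hp' ht h y' x
    have mm := minor_mc hw hp hp' ht h h0 hx
    have a1 := kf_nonneg hw hp r n y x'
    have a2 := kf_nonneg hw hp r n y' x
    have b1 := kf_nonneg hw hp' r n y x'
    have b2 := kf_nonneg hw hp' r n y' x
    have hn : 0 ≤ θ ^ n := by positivity
    by_cases hz : kf w p r n y x' * kf w p r n y' x = 0
    · unfold CR
      rw [hz, div_zero]
      linarith
    · have hz' : 0 < kf w p r n y x' * kf w p r n y' x := lt_of_le_of_ne (mul_nonneg a1 a2) (Ne.symm hz)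
      have h1 : 0 < kf w p r n y x' := lt_of_le_of_ne a1 fun hh => hz (by rw [← hh, zero_mul])
      have h2 : 0 < kf w p r n y' x := lt_of_le_of_ne a2 fun hh => hz (by rw [← hh, mul_zero])
      have h1' : 0 < kf w p' r n y x' := by
        by_contra hcon
        have : kf w p' r n y x' = 0 := le_antisymm (not_lt.1 hcon) b1
        have := m1.1
        nlinarith
      have h2' : 0 < kf w p' r n y' x := by
        by_contra hcon
        have : kf w p' r n y' x = 0 := le_antisymm (not_lt.1 hcon) b2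
        have := m2.1
        nlinarith
      have hz2 : 0 < kf w p' r n y x' * kf w p' r n y' x := mul_pos h1' h2'
      unfold CR at H ⊢
      rw [div_le_iff₀ hz2] at H
      rw [div_le_iff₀ hz']
      have k1 : kf w p' r n y x' * kf w p' r n y' x ≤ θ ^ (2 * n) * (kf w p r n y x' * kf w p r n y' x) := by
        have := mul_le_mul m1.2 m2.2 b2 (by positivity)
        refine this.trans (le_of_eq ?_)
        rw [two_mul, pow_add]
        ring
      have k2 : kf w p r n y x * kf w p r n y' x' - kf w p r n y x' * kf w p r n y' x ≤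
          θ ^ (2 * n) * (δ * (kf w p' r n y x' * kf w p' r n y' x)) := by
        refine mm.1.trans (mul_le_mul_of_nonneg_left (by linarith) (by positivity))
      have k3 := mul_le_mul_of_nonneg_left k1 (show 0 ≤ θ ^ (2 * n) * δ by positivity)
      have e4 : θ ^ (4 * n) = θ ^ (2 * n) * θ ^ (2 * n) := by
        rw [← pow_add]
        congr 1
        ring
      rw [e4]
      linarith

variable {μ : Measure ℝ} {s : ℝ} {η : Env} {i : ℕ}

/-- The system without force. -/
theorem kf_W21 (η : Env) (i n : ℕ) (x y : ℤ) : kf (K91.wt η) (fun _ => Real.exp s) i n x y =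
    Real.exp (n * lam μ s) * (K91.wt η i x * kW μ s η i n x y / K91.wt η (i + n) y) := by
  have h1 := U16.ker_W (μ := μ) (s := s) (h := 0) η (p := fun _ => Real.exp s) i x n y (fun k _ _ => by rw [add_zero])
  have h2 := (K91.wt_pos η (i + n) y).ne'
  show U16.ker (K91.wt η) (fun _ => Real.exp s) i n x y = _
  rw [zero_mul, add_zero] at h1
  rw [mul_div_assoc', eq_div_iff h2, h1]
  unfold kW
  ring

/-- **THE KERNEL OF THE SYSTEM** between multiples of `wt kW / wt`. -/
theorem kf_kW21 (hp : ∀ k, 0 < p k) (ht : 1 ≤ θ) (h : ∀ k < n, mc θ (p (i + k)) (Real.exp s)) (x y : ℤ) :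
    mc (θ ^ n) (kf (K91.wt η) p i n x y) (Real.exp (n * lam μ s) * (K91.wt η i x * kW μ s η i n x y / K91.wt η (i + n) y)) := by
  rw [← kf_W21]
  exact kf_mc (K91.wt_pos η) hp (fun _ => Real.exp_pos s) ht h x y

/-- **The cross ratio of the system.** -/
theorem CR_kW21 (hp : ∀ k, 0 < p k) (ht : 1 ≤ θ) (h : ∀ k < n, mc θ (p (i + k)) (Real.exp s)) (hy : y ≤ y') (hx : x ≤ x') (δ0 : 0 ≤ δ)
    (H : CR (kW μ s η i n) y y' x x' ≤ 1 + δ) : CR (kf (K91.wt η) p i n) y y' x x' ≤ 1 + θ ^ (4 * n) * δ := by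
  refine CR_mc (K91.wt_pos η) hp (fun _ => Real.exp_pos s) ht h hy hx δ0 (le_trans (le_of_eq ?_) H)
  refine Pool.Agent.W_7d29a1_C1.R26.CR_diag (A := fun u => Real.exp (n * lam μ s) * K91.wt η i u) (D := fun v => K91.wt η (i + n) v)
    (mul_pos (Real.exp_pos _) (K91.wt_pos η i _)) (mul_pos (Real.exp_pos _) (K91.wt_pos η i _)) (K91.wt_pos η _ _) (K91.wt_pos η _ _)
    fun u v => ?_
  rw [kf_W21 (μ := μ)]
  have := (K91.wt_pos η (i + n) v).ne'
  field_simp

end

end Pool.Agent.W_7d29a1_C1.Sh21
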