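import Pool.Agent.W_7d29a1_C1.KInI60
import Pool.Agent.W_7d29a1_C1.CrT21

/-!
Both halves (MP_7d29a1_pr), attractor route [C1]: THE FIRST BUFFER OF `Pcs` AND `KSep` FROM THE BUFFER OF THE FRESH BALL. (helper21)

Rows `c0 → c0 + n1`, `W = kW η c0 n1`, strength `A` of the lanes, `L3` the lateral coordinate of the end row in the unit of the buffer,
`(E0, w0)` its unit, `(E, w)` the unit of the box. `kc21` : the kernel of the cells (level `0`, no weight). `key21` : any sum over end columns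
against the envelope to the last row, from the sum with `exp (be |L3| E0)`. Fields: `q21` (ratios inside a cell), `s0c21`, `ex21` (exits and
separation), `l021`, `s021`.
-/

set_option autoImplicit false
set_option linter.unusedSectionVars false

namespace Pool.Agent.W_7d29a1_C1.Sh21

open Finset MeasureTheory Pool.Agent.W_7d29a1_F Pool.Agent.W_7d29a1_h4g Pool.Agent.W_7d29a1_H Pool.Agent.W_7d29a1_HS
open Pool.Agent.W_7d29a1_C1 Pool.Agent.W_7d29a1_C1.H75 Pool.Agent.W_7d29a1_C1.U16 Pool.Agent.W_7d29a1_C1.FarK89 Pool.Agent.W_7d29a1_C1.FarW89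
open Pool.Agent.W_7d29a1_C1.K91 (wt wt_pos)
open Pool.Agent.W_7d29a1_C1.S12 (Lam12 Lam12_pos)
open Pool.Agent.W_7d29a1_C1.D31 (En31 kapo31 kap31 kapo31_pos kap31_nonneg kap31_le kap31_of_reach le_kap31)
open Pool.Agent.W_7d29a1_C1.JnC35 (ln35 comp35_cut AQ_mono)
open Pool.Agent.W_7d29a1_C1.H60 (kr60 kr60_nonneg kf_nk60 mvk60 sum_kr60 stp60)
open Pool.Agent.W_7d29a1_C1.CR76 Pool.Agent.W_7d29a1_C1.F74 Pool.Agent.W_7d29a1_C1.R26P

noncomputable section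

/-- **The kernel of the cells.** -/
def kc21 (μ : Measure ℝ) (s : ℝ) (P : ℕ) (dk ck E w : ℝ) (κ : Pt) (c0 c3 : ℕ) (a z : ℤ) : ℝ :=
  kap31 P dk ck 0 0 E w (ln35 μ s κ c0) (ln35 μ s κ c3) (c3 - c0) a z

variable {μ : Measure ℝ} {s h : ℝ} {η : Env} {p : ℕ → ℝ} {M P : ℕ} {κ : Pt} {c0 n1 c3 : ℕ} {W : ℤ → ℤ → ℝ} {L3 : ℤ → ℝ}
  {E w E0 B c₁ c₃ Q S ck dk b0 be Cg u u1 Λ D A X ell K0 δ : ℝ} {a z : ℤ} {T : Finset ℤ}

theorem kc21_nonneg (a z : ℤ) : 0 ≤ kc21 μ s P dk ck E w κ c0 c3 a z := kap31_nonneg _ _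

/-- **The numbers of the first buffer.** -/
structure Bg21 (μ : Measure ℝ) (s h : ℝ) (η : Env) (p : ℕ → ℝ) (M P : ℕ) (κ : Pt) (c0 n1 c3 : ℕ) (W : ℤ → ℤ → ℝ) (L3 : ℤ → ℝ)
    (E w E0 B c₁ c₃ Q S ck b0 be Cg D : ℝ) : Prop where
  E1 : 1 ≤ E
  w0 : 0 < w
  E0p : 0 ≤ E0
  EE : E0 ≤ E
  EB : E ≤ B * E0
  hp : ∀ k, 0 < p k
  nk1 : ∀ x y, nk μ s h η p M c0 n1 x y ≤ Real.exp 1 * W x y
  nk2 : ∀ x y, W x y ≤ Real.exp 1 * nk μ s h η p M c0 n1 x y
  L3e : ∀ x : ℤ, |(x : ℝ) - ln35 μ s κ (c0 + n1)| / w ≤ 2 * |L3 x| + D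
  D0 : 0 ≤ D
  ck0 : 0 ≤ ck
  ck3 : ck ≤ c₃
  Q0 : 0 ≤ Q
  hg : ∀ X : ℝ, 0 ≤ X → Q * gr P (AQ P c₁ Q + X) + ck * X ≤ b0 * X + Cg
  b00 : 0 ≤ b0
  be0 : 0 ≤ be
  hb : 2 * (b0 * B) ≤ be
  r : c0 + n1 ≤ c3

variable (G : Bg21 μ s h η p M P κ c0 n1 c3 W L3 E w E0 B c₁ c₃ Q S ck b0 be Cg D)
include G

theorem Bg21.W0 (x y : ℤ) : 0 ≤ W x y := by
  have h1 := nk_nonneg (μ := μ) (s := s) (h := h) (η := η) (M := M) G.hp c0 n1 x y
  have h2 := G.nk1 x y
  have h3 := Real.exp_pos 1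
  by_contra hc
  have h4 := mul_neg_of_pos_of_neg h3 (not_le.1 hc)
  linarith

/-- One term. -/
theorem Bg21.term (ha : |(a : ℝ) - ln35 μ s κ c0| ≤ Λ * w) {x : ℤ} (hax : a ≤ x) (hxa : x ≤ a + n1) (z : ℤ) :
    kap31 P c₁ c₃ Q S E w (ln35 μ s κ (c0 + n1)) (ln35 μ s κ c3) (c3 - (c0 + n1)) x z ≤
      Real.exp ((Cg + S + ck * Λ + be * D) * E) * Real.exp (be * |L3 x| * E0) * kc21 μ s P dk ck E w κ c0 c3 a z := by
  have E1 := G.E1
  have hw := G.w0
  have hE : 0 < E := by linarith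
  have be0 := G.be0
  have b00 := G.b00
  have D0 := G.D0
  obtain ⟨Y, hY⟩ : ∃ Y : ℝ, Y = |(x : ℝ) - ln35 μ s κ (c0 + n1)| / w := ⟨_, rfl⟩
  have hY0 : 0 ≤ Y := by rw [hY]; positivity
  have hx : |(x : ℝ) - ln35 μ s κ (c0 + n1)| ≤ Y * w := by
    rw [hY, div_mul_cancel₀ _ hw.ne']
  have h1 := mvk60 (μ := μ) (s := s) (P := P) (κ := κ) (c₁ := c₁) (dₖ := dk) (S := S) (Q₀ := 0) (S₀ := 0) (Q := Q) (c0 := c0) hE hw G.ck0
    G.ck3 G.Q0 le_rfl le_rfl (show c0 ≤ c0 + n1 by omega) G.r hx ha hax (by rw [Nat.add_sub_cancel_left]; exact hxa) z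
  unfold kc21
  refine h1.trans (mul_le_mul_of_nonneg_right ?_ (kap31_nonneg _ _))
  rw [← Real.exp_add]
  refine Real.exp_le_exp.2 ?_
  have h2 := mul_le_mul_of_nonneg_right (G.hg Y hY0) hE.le
  have h3 : Y ≤ 2 * |L3 x| + D := by rw [hY]; exact G.L3e x
  have hL : 0 ≤ |L3 x| := abs_nonneg _
  have h4 : b0 * Y * E ≤ be * |L3 x| * E0 + be * D * E := by
    have a1 : b0 * Y * E ≤ (2 * |L3 x| + D) * (b0 * E) := by
      have := mul_le_mul_of_nonneg_right h3 (mul_nonneg b00 hE.le)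
      linarith
    have a2 : 2 * (b0 * E) ≤ be * E0 := by
      have b1 := mul_le_mul_of_nonneg_left G.EB b00
      have b2 := mul_le_mul_of_nonneg_right G.hb G.E0p
      linarith
    have a3 := mul_le_mul_of_nonneg_left a2 (show 0 ≤ |L3 x| + D by positivity)
    have a4 := mul_le_mul_of_nonneg_left G.EE (mul_nonneg be0 D0)
    have a5 : 0 ≤ D * (b0 * E) := by positivity
    linarith
  linarith

/-- **ANY SUM OVER END COLUMNS AGAINST THE ENVELOPE TO THE LAST ROW.** -/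
theorem Bg21.key (ha : |(a : ℝ) - ln35 μ s κ c0| ≤ Λ * w) (hwt : wt η c0 a ≤ Real.exp (u * E)) (hA : 0 ≤ A) (hX : 0 ≤ X)
    (H : ∑ x ∈ T, W a x * Real.exp (be * |L3 x| * E0) ≤ X * A) (z : ℤ) :
    ∑ x ∈ T, kf (wt η) p c0 n1 a x * kr60 μ s η P c₁ c₃ E w κ c3 Q S (c0 + n1) x z ≤
      X * Real.exp ((u + Cg + S + ck * Λ + be * D + 1) * E) * (Lam12 μ s h M c0 n1 * A) * kc21 μ s P dk ck E w κ c0 c3 a z := by
  have E1 := G.E1
  have kc0 := kc21_nonneg (μ := μ) (s := s) (P := P) (dk := dk) (ck := ck) (E := E) (w := w) (κ := κ) (c0 := c0) (c3 := c3) a z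
  have k1 : ∑ x ∈ T, nk μ s h η p M c0 n1 a x * kap31 P c₁ c₃ Q S E w (ln35 μ s κ (c0 + n1)) (ln35 μ s κ c3) (c3 - (c0 + n1)) x z ≤
      Real.exp 1 * (Real.exp ((Cg + S + ck * Λ + be * D) * E) * kc21 μ s P dk ck E w κ c0 c3 a z) * (X * A) := by
    refine le_trans ?_ (mul_le_mul_of_nonneg_left H (by positivity))
    rw [mul_sum]
    refine sum_le_sum fun x _ => ?_
    by_cases hr : a ≤ x ∧ x ≤ a + n1
    · have t1 := G.term (dk := dk) ha hr.1 hr.2 z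
      have t2 := mul_le_mul (G.nk1 a x) t1 (kap31_nonneg _ _) (mul_nonneg (Real.exp_pos _).le (G.W0 a x))
      refine t2.trans (le_of_eq ?_)
      ring
    · have e0 : nk μ s h η p M c0 n1 a x = 0 := nk_eq_zero c0 n1 hr
      rw [e0, zero_mul]
      have := G.W0 a x
      positivity
  rw [sum_kr60 (h := h) (M := M)]
  have hL := Lam12_pos (μ := μ) (s := s) (h := h) M c0 n1
  have k2 : wt η c0 a * (∑ x ∈ T, nk μ s h η p M c0 n1 a x *
      kap31 P c₁ c₃ Q S E w (ln35 μ s κ (c0 + n1)) (ln35 μ s κ c3) (c3 - (c0 + n1)) x z) ≤ Real.exp (u * E) *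
      (Real.exp 1 * (Real.exp ((Cg + S + ck * Λ + be * D) * E) * kc21 μ s P dk ck E w κ c0 c3 a z) * (X * A)) := by
    refine mul_le_mul hwt k1 (sum_nonneg fun x _ => mul_nonneg (nk_nonneg G.hp _ _ _ _) (kap31_nonneg _ _)) (Real.exp_pos _).le
  have k3 : Real.exp (u * E) * (Real.exp 1 * Real.exp ((Cg + S + ck * Λ + be * D) * E)) ≤
      Real.exp ((u + Cg + S + ck * Λ + be * D + 1) * E) := by
    rw [← Real.exp_add, ← Real.exp_add]
    refine Real.exp_le_exp.2 ?_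
    linarith
  refine (mul_le_mul_of_nonneg_left k2 hL.le).trans ?_
  have k4 := mul_le_mul_of_nonneg_left k3 (show 0 ≤ Lam12 μ s h M c0 n1 * (kc21 μ s P dk ck E w κ c0 c3 a z * (X * A)) by positivity)
  calc Lam12 μ s h M c0 n1 * (Real.exp (u * E) * (Real.exp 1 * (Real.exp ((Cg + S + ck * Λ + be * D) * E) *
        kc21 μ s P dk ck E w κ c0 c3 a z) * (X * A)))
      = Lam12 μ s h M c0 n1 * (kc21 μ s P dk ck E w κ c0 c3 a z * (X * A)) * (Real.exp (u * E) * (Real.exp 1 *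
        Real.exp ((Cg + S + ck * Λ + be * D) * E))) := by ring
    _ ≤ _ := k4
    _ = _ := by ring

/-- **`s0c`** : all the end columns. -/
theorem Bg21.s0c {L : ℝ} (ha : |(a : ℝ) - ln35 μ s κ c0| ≤ Λ * w) (hwt : wt η c0 a ≤ Real.exp (u * E)) (hA : 0 ≤ A) (hY : 0 ≤ X)
    (H : ∀ x : ℤ, W a x * Real.exp (be * |L3 x| * E0) ≤ X * A) (hn : (n1 : ℝ) + 1 ≤ Real.exp E)
    (hL : X * Real.exp ((u + Cg + S + ck * Λ + be * D + 2) * E) ≤ L) (z : ℤ) :
    ∑ x ∈ T, kf (wt η) p c0 n1 a x * kr60 μ s η P c₁ c₃ E w κ c3 Q S (c0 + n1) x z ≤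
      L * (Lam12 μ s h M c0 n1 * A) * kc21 μ s P dk ck E w κ c0 c3 a z := by
  have hL12 := Lam12_pos (μ := μ) (s := s) (h := h) M c0 n1
  have kc0 := kc21_nonneg (μ := μ) (s := s) (P := P) (dk := dk) (ck := ck) (E := E) (w := w) (κ := κ) (c0 := c0) (c3 := c3) a z
  have e1 : ∑ x ∈ T, kf (wt η) p c0 n1 a x * kr60 μ s η P c₁ c₃ E w κ c3 Q S (c0 + n1) x z =
      ∑ x ∈ T.filter (fun x => a ≤ x ∧ x ≤ a + n1), kf (wt η) p c0 n1 a x * kr60 μ s η P c₁ c₃ E w κ c3 Q S (c0 + n1) x z := by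
    rw [sum_filter]
    refine sum_congr rfl fun x _ => ?_
    split_ifs with h1
    · rfl
    · rw [kf_zero c0 n1 h1, zero_mul]
  have hc : ((T.filter (fun x => a ≤ x ∧ x ≤ a + n1)).card : ℝ) ≤ Real.exp E := by
    refine le_trans ?_ hn
    have h1 : (T.filter (fun x => a ≤ x ∧ x ≤ a + n1)) ⊆ Icc a (a + n1) := fun x hx => mem_Icc.2 (mem_filter.1 hx).2
    have h2 := card_le_card h1
    rw [Int.card_Icc] at h2
    have h3 : (a + n1 + 1 - a).toNat = n1 + 1 := by omega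
    rw [h3] at h2
    exact_mod_cast h2
  have hsum : ∑ x ∈ T.filter (fun x => a ≤ x ∧ x ≤ a + n1), W a x * Real.exp (be * |L3 x| * E0) ≤ (Real.exp E * X) * A := by
    refine (sum_le_sum fun x _ => H x).trans ?_
    rw [sum_const, nsmul_eq_mul]
    have := mul_le_mul_of_nonneg_right hc (mul_nonneg hY hA)
    linarith
  rw [e1]
  refine (G.key (dk := dk) ha hwt hA (by positivity) hsum z).trans ?_
  refine mul_le_mul_of_nonneg_right (mul_le_mul_of_nonneg_right (le_trans (le_of_eq ?_) hL) (by positivity)) kc0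
  have e2 : Real.exp ((u + Cg + S + ck * Λ + be * D + 2) * E) = Real.exp E * Real.exp ((u + Cg + S + ck * Λ + be * D + 1) * E) := by
    rw [← Real.exp_add]
    congr 1
    ring
  rw [e2]
  ring

/-- **`l0`** : one end column `y` of the lane. -/
theorem Bg21.l0 {L : ℝ} {y : ℤ} (hwt : Real.exp (-(u * E)) ≤ wt η c0 a) (hy : wt η (c0 + n1) y ≤ Real.exp (u1 * E)) (hell : 0 ≤ ell)
    (hlow : Real.exp (-(ell * E0)) * A ≤ W a y) (hA : 0 ≤ A) (hyT : y ∈ T) (hL : Real.exp ((u + u1 + ell + 1) * E) ≤ L) :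
    Lam12 μ s h M c0 n1 * A ≤ L * ∑ x ∈ T, kf (wt η) p c0 n1 a x := by
  have hL12 := Lam12_pos (μ := μ) (s := s) (h := h) M c0 n1
  have E1 := G.E1
  have hwa := wt_pos η c0 a
  have hwy := wt_pos η (c0 + n1) y
  have hn0 := nk_nonneg (μ := μ) (s := s) (h := h) (η := η) (M := M) G.hp c0 n1 a y
  have kn : ∀ x, 0 ≤ kf (wt η) p c0 n1 a x := fun x => kf_nonneg (wt_pos η) G.hp _ _ _ _
  have h1 : Lam12 μ s h M c0 n1 * A ≤ Real.exp ((u + u1 + ell + 1) * E) * kf (wt η) p c0 n1 a y := by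
    rw [kf_nk60 (μ := μ) (s := s) (h := h) (M := M) a y]
    have a1 : Real.exp (-((u + u1) * E)) ≤ wt η c0 a / wt η (c0 + n1) y := by
      rw [le_div_iff₀ hwy]
      refine le_trans ?_ hwt
      have := mul_le_mul_of_nonneg_left hy (Real.exp_pos (-((u + u1) * E))).le
      refine this.trans (le_of_eq ?_)
      rw [← Real.exp_add]
      congr 1
      ring
    have a2 : Real.exp (-(ell * E + 1)) * A ≤ nk μ s h η p M c0 n1 a y := by
      have b1 := hlow.trans (G.nk2 a y)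
      have b2 := mul_le_mul_of_nonneg_left b1 (Real.exp_pos (-1)).le
      rw [← mul_assoc, ← mul_assoc, ← Real.exp_add, ← Real.exp_add, neg_add_cancel, Real.exp_zero, one_mul] at b2
      refine le_trans (mul_le_mul_of_nonneg_right (Real.exp_le_exp.2 ?_) hA) b2
      have := mul_le_mul_of_nonneg_left G.EE hell
      linarith
    have a3 := mul_le_mul a1 a2 (mul_nonneg (Real.exp_pos _).le hA) (div_nonneg hwa.le hwy.le)
    have a4 := mul_le_mul_of_nonneg_left a3 (show 0 ≤ Real.exp ((u + u1 + ell + 1) * E) * Lam12 μ s h M c0 n1 by positivity)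
    refine le_trans ?_ (a4.trans (le_of_eq (by ring)))
    have e1 : Real.exp ((u + u1 + ell + 1) * E) * Lam12 μ s h M c0 n1 * (Real.exp (-((u + u1) * E)) * (Real.exp (-(ell * E + 1)) * A)) =
        Real.exp (E - 1) * (Lam12 μ s h M c0 n1 * A) := by
      have : Real.exp (E - 1) = Real.exp ((u + u1 + ell + 1) * E) * Real.exp (-((u + u1) * E)) * Real.exp (-(ell * E + 1)) := by
        rw [← Real.exp_add, ← Real.exp_add]
        congr 1
        ring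
      rw [this]
      ring
    rw [e1]
    exact le_mul_of_one_le_left (by positivity) (Real.one_le_exp (by linarith))
  refine h1.trans (mul_le_mul hL (single_le_sum (f := fun x => kf (wt η) p c0 n1 a x) (fun x _ => kn x) hyT) (kn y)
    ((Real.exp_pos _).le.trans hL))

/-- The kernels of two starts at one column. -/
theorem Bg21.rat {y x : ℤ} (hwa : wt η c0 a ≤ Real.exp (u * E)) (hwy : Real.exp (-(u * E)) ≤ wt η c0 y) (hell : 0 ≤ ell)
    (hup : W a x ≤ Real.exp (ell * E0) * A) (hlow : Real.exp (-(ell * E0)) * A ≤ W y x) (hA : 0 ≤ A) :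
    kf (wt η) p c0 n1 a x ≤ Real.exp ((2 * u + 2 * ell + 2) * E) * kf (wt η) p c0 n1 y x := by
  have hL12 := Lam12_pos (μ := μ) (s := s) (h := h) M c0 n1
  have E1 := G.E1
  have w1 := wt_pos η c0 a
  have w2 := wt_pos η c0 y
  have w3 := wt_pos η (c0 + n1) x
  rw [kf_nk60 (μ := μ) (s := s) (h := h) (M := M) a x, kf_nk60 (μ := μ) (s := s) (h := h) (M := M) y x]
  have hn0 := nk_nonneg (μ := μ) (s := s) (h := h) (η := η) (M := M) G.hp c0 n1 a x
  have a1 : nk μ s h η p M c0 n1 a x ≤ Real.exp ((2 * ell + 2) * E) * nk μ s h η p M c0 n1 y x := by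
    have b1 := (G.nk1 a x).trans (mul_le_mul_of_nonneg_left hup (Real.exp_pos 1).le)
    have b2 := hlow.trans (G.nk2 y x)
    have b3 : Real.exp 1 * (Real.exp (ell * E0) * A) = Real.exp (1 + 2 * ell * E0) * (Real.exp (-(ell * E0)) * A) := by
      have : Real.exp 1 * Real.exp (ell * E0) = Real.exp (1 + 2 * ell * E0) * Real.exp (-(ell * E0)) := by
        rw [← Real.exp_add, ← Real.exp_add]
        congr 1
        ring
      rw [← mul_assoc, this]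
      ring
    rw [b3] at b1
    refine b1.trans ((mul_le_mul_of_nonneg_left b2 (Real.exp_pos _).le).trans ?_)
    rw [← mul_assoc, ← Real.exp_add]
    refine mul_le_mul_of_nonneg_right (Real.exp_le_exp.2 ?_) (nk_nonneg G.hp _ _ _ _)
    have := mul_le_mul_of_nonneg_left G.EE hell
    linarith
  have a2 : wt η c0 a / wt η (c0 + n1) x ≤ Real.exp (2 * u * E) * (wt η c0 y / wt η (c0 + n1) x) := by
    rw [mul_div_assoc', div_le_div_iff_of_pos_right w3]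
    refine hwa.trans ?_
    have := mul_le_mul_of_nonneg_left hwy (Real.exp_pos (2 * u * E)).le
    refine le_trans (le_of_eq ?_) this
    rw [← Real.exp_add]
    congr 1
    ring
  have a3 := mul_le_mul a2 a1 hn0 (by positivity)
  have a4 := mul_le_mul_of_nonneg_left a3 hL12.le
  have e1 : Real.exp ((2 * u + 2 * ell + 2) * E) = Real.exp (2 * u * E) * Real.exp ((2 * ell + 2) * E) := by
    rw [← Real.exp_add]
    congr 1
    ring
  rw [e1]
  calc Lam12 μ s h M c0 n1 * (wt η c0 a / wt η (c0 + n1) x) * nk μ s h η p M c0 n1 a x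
      = Lam12 μ s h M c0 n1 * (wt η c0 a / wt η (c0 + n1) x * nk μ s h η p M c0 n1 a x) := by ring
    _ ≤ _ := a4
    _ = _ := by ring

omit G in
/-- **`q1`, `q2`** : ratios inside a cell at the left edge of the window, from the cross ratio and one column `x` of the window. -/
theorem q21 (hp : ∀ k, 0 < p k) {a1 b1 xa xb x y : ℤ} {L : ℝ} (hy : y ∈ Icc a1 b1) (hbx : b1 ≤ xa) (hxb : xb ≤ a1 + n1)
    (hx1 : xa ≤ x) (hx2 : x ≤ xb) (δ0 : 0 ≤ δ) (H : CR (kf (wt η) p c0 n1) a1 b1 xa xb ≤ 1 + δ)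
    (h1 : kf (wt η) p c0 n1 a1 x ≤ L * kf (wt η) p c0 n1 y x) (h2 : kf (wt η) p c0 n1 y x ≤ L * kf (wt η) p c0 n1 a1 x) :
    kf (wt η) p c0 n1 a1 xa ≤ (1 + δ) * L * kf (wt η) p c0 n1 y xa ∧ kf (wt η) p c0 n1 y xa ≤ (1 + δ) * L * kf (wt η) p c0 n1 a1 xa := by
  obtain ⟨hy1, hy2⟩ := mem_Icc.1 hy
  have tp := TP_kf (w := wt η) (p := p) (wt_pos η) hp c0 n1 a1 b1
  have m1 : a1 ∈ {y : ℤ | a1 ≤ y ∧ y ≤ b1} := ⟨le_rfl, by omega⟩
  have m2 : y ∈ {y : ℤ | a1 ≤ y ∧ y ≤ b1} := ⟨hy1, hy2⟩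
  have m3 : b1 ∈ {y : ℤ | a1 ≤ y ∧ y ≤ b1} := ⟨by omega, le_rfl⟩
  have n1' : xa ∈ {z : ℤ | b1 ≤ z ∧ z ≤ a1 + n1} := ⟨hbx, by omega⟩
  have n2 : x ∈ {z : ℤ | b1 ≤ z ∧ z ≤ a1 + n1} := ⟨by omega, by omega⟩
  have n3 : xb ∈ {z : ℤ | b1 ≤ z ∧ z ≤ a1 + n1} := ⟨by omega, hxb⟩
  obtain ⟨r1, r2⟩ := tp.rank_one m1 m2 m3 n1' n2 n3 hy1 hy2 hx1 hx2
  have p0 := tp.pos a1 m1 xa n1'
  have p1 := tp.pos y m2 xa n1'
  have p2 := tp.pos a1 m1 x n2
  have p3 := tp.pos y m2 x n2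
  have L0 : 0 < L := by
    by_contra hc
    have := mul_nonpos_of_nonpos_of_nonneg (not_lt.1 hc) p3.le
    linarith
  have r2' := r2.trans (mul_le_mul_of_nonneg_right H (by positivity))
  constructor
  · -- `I a1 xa * I y x ≤ (1 + δ) I y xa * I a1 x ≤ (1 + δ) L I y xa * I y x`
    have k1 : kf (wt η) p c0 n1 y x * kf (wt η) p c0 n1 a1 xa ≤ (1 + δ) * (kf (wt η) p c0 n1 y xa * kf (wt η) p c0 n1 a1 x) := by
      have := mul_le_mul_of_nonneg_right r2' p0.le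
      rwa [mul_assoc (1 + δ), div_mul_cancel₀ _ p0.ne'] at this
    have k2 : (1 + δ) * (kf (wt η) p c0 n1 y xa * kf (wt η) p c0 n1 a1 x) ≤
        (1 + δ) * (kf (wt η) p c0 n1 y xa * (L * kf (wt η) p c0 n1 y x)) :=
      mul_le_mul_of_nonneg_left (mul_le_mul_of_nonneg_left h1 p1.le) (by linarith)
    have k3 := k1.trans k2
    have k4 : kf (wt η) p c0 n1 a1 xa * kf (wt η) p c0 n1 y x ≤
        ((1 + δ) * L * kf (wt η) p c0 n1 y xa) * kf (wt η) p c0 n1 y x := by linarith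
    exact le_of_mul_le_mul_right k4 p3
  · have k1 : kf (wt η) p c0 n1 y xa * kf (wt η) p c0 n1 a1 x ≤ kf (wt η) p c0 n1 y x * kf (wt η) p c0 n1 a1 xa := by
      rwa [div_le_iff₀ p0] at r1
    have k2 : kf (wt η) p c0 n1 y x * kf (wt η) p c0 n1 a1 xa ≤ L * kf (wt η) p c0 n1 a1 x * kf (wt η) p c0 n1 a1 xa :=
      mul_le_mul_of_nonneg_right h2 p0.le
    have k3 : kf (wt η) p c0 n1 y xa * kf (wt η) p c0 n1 a1 x ≤
        (L * kf (wt η) p c0 n1 a1 xa) * kf (wt η) p c0 n1 a1 x := by linarith [k1.trans k2]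
    have k4 := le_of_mul_le_mul_right k3 p2
    refine k4.trans ?_
    have : L * kf (wt η) p c0 n1 a1 xa ≤ (1 + δ) * (L * kf (wt η) p c0 n1 a1 xa) := le_mul_of_one_le_left (by positivity) (by linarith)
    linarith

end

end Pool.Agent.W_7d29a1_C1.Sh21
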