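import Pool.Agent.W_7d29a1_C1.FreD24
import Pool.Agent.W_7d29a1_C1.FrL47
import Pool.Agent.W_7d29a1_C1.JnE35

/-!
MP_7d29a1_pr, [C1] SHELL, E4 (helper24): THE EXIT IN THE LETTERS OF THE FRESH BALL. `K247` (rows `e < . ≤ e + 2n`, last step without
weight), the unit of the box `Tt = 32 T`, the line of `κ`, every switch row (`|h| 2n ≤ 1`): `Ex35` (JnE35). `freN24`: one event which
gives the two blocks (`XD24`), their levels, the weights of the rows `e + T`, `e + n`, `e + n + T`, `e + n + n` and `Ex35`.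
-/

set_option autoImplicit false

namespace Pool.Agent.W_7d29a1_C1.P24

open MeasureTheory ProbabilityTheory Filter Topology Finset
open Pool.Agent.W_7d29a1_F Pool.Agent.W_7d29a1_h4g Pool.Agent.W_7d29a1_H Pool.Agent.W_7d29a1_HS
open Pool.Agent.W_7d29a1_C1
open Pool.Agent.W_7d29a1_C1.CR76 Pool.Agent.W_7d29a1_C1.Basin76
open Pool.Agent.W_7d29a1_C1.K91 (wt wt_pos)
open Pool.Agent.W_7d29a1_C1.U16 (K1 K1_eq)
open Pool.Agent.W_7d29a1_C1.FarK89 (gr gr_nonneg gr_one_le gr_mono gr_mul AQ AQ_nonneg)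
open Pool.Agent.W_7d29a1_C1.FarW89 (nk nk_nonneg nk_eq_zero nk_K1 bl bl_le)
open Pool.Agent.W_7d29a1_C1.S12 (st12)
open Pool.Agent.W_7d29a1_C1.Fr47 (K247 K247_nonneg K247_zero)
open Pool.Agent.W_7d29a1_C1.JnC35 (ln35)
open Pool.Agent.W_7d29a1_C1.JnE35 (Ex35)
open Pool.Agent.W_7d29a1_C1.S83 (RowG meas_RowG rowG83 gr_pow_mono)

noncomputable section

variable {μ : Measure ℝ} {s c C : ℝ} {n₀ : ℕ}

/-! ### The normalised kernel and the plain one -/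

/-- With a force which is small on the rows, the normalised kernel is the plain one up to a factor `e`, for every switch row. -/
theorem nk_kW {h : ℝ} {η : Env} {p : ℕ → ℝ} {M i n : ℕ} (hp : ∀ k, k < M → p k = Real.exp (s + h))
    (hp' : ∀ k, M ≤ k → p k = Real.exp s) (s0 : 0 ≤ sl μ s) (s1 : sl μ s ≤ 1) (hh : |h| * n ≤ 1) (x y : ℤ) :
    nk μ s h η p M i n x y ≤ Real.exp 1 * kW μ s η i n x y ∧ kW μ s η i n x y ≤ Real.exp 1 * nk μ s h η p M i n x y := by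
  obtain ⟨m, hm⟩ : ∃ m : ℕ, m = bl M i n := ⟨_, rfl⟩
  have hmn : m ≤ n := by rw [hm]; exact bl_le M i n
  have h1 := nk_K1 (μ := μ) (s := s) (h := h) (η := η) hp hp' i n x y
  rw [← hm, K1_eq] at h1
  have h2 : kW μ s η i n x y = ∑ z ∈ Icc (0 : ℤ) m, W μ s η ((i : ℤ), x) m z * W μ s η ((i : ℤ) + m, x + z) (n - m) (y - x - z) := by
    unfold kW
    have e : n = m + (n - m) := by omega
    conv_lhs => rw [e]
    exact W_add η ((i : ℤ), x) m (n - m) (y - x)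
  have hmR : (m : ℝ) ≤ n := by exact_mod_cast hmn
  have hm0 : (0 : ℝ) ≤ m := Nat.cast_nonneg m
  have key : ∀ z ∈ Icc (0 : ℤ) m, |h * ((z : ℝ) - sl μ s * m)| ≤ 1 := by
    intro z hz
    have hz' := mem_Icc.1 hz
    have g0 : (0 : ℝ) ≤ z := by exact_mod_cast hz'.1
    have g1 : (z : ℝ) ≤ m := by exact_mod_cast hz'.2
    have g2 : |(z : ℝ) - sl μ s * m| ≤ n := by
      rw [abs_le]
      constructor <;> nlinarith
    rw [abs_mul]
    exact (mul_le_mul_of_nonneg_left g2 (abs_nonneg h)).trans hh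
  rw [h1, h2]
  constructor
  · rw [mul_sum]
    refine sum_le_sum fun z hz => ?_
    have g1 := (abs_le.1 (key z hz)).2
    rw [mul_assoc]
    exact mul_le_mul_of_nonneg_right (Real.exp_le_exp.2 g1) (mul_nonneg (W_nonneg _ _ _ _) (W_nonneg _ _ _ _))
  · rw [mul_sum]
    refine sum_le_sum fun z hz => ?_
    have g1 := (abs_le.1 (key z hz)).1
    have g2 : 1 ≤ Real.exp 1 * Real.exp (h * ((z : ℝ) - sl μ s * m)) := by
      rw [← Real.exp_add]
      exact Real.one_le_exp (by linarith)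
    have g3 := mul_le_mul_of_nonneg_right g2
      (mul_nonneg (W_nonneg (μ := μ) (s := s) η ((i : ℤ), x) m z)
        (W_nonneg (μ := μ) (s := s) η ((i : ℤ) + m, x + z) (n - m) (y - x - z)))
    rw [one_mul] at g3
    refine g3.trans (le_of_eq ?_)
    ring

/-! ### Units -/

theorem unit24 {En wn E w q κ R a cen v X : ℝ} {P : ℕ} (hEn : 0 < En) (hwn : 0 < wn) (hw : 0 < w) (h1 : En ≤ E)
    (h2 : E ≤ 32 * En) (h3 : w ≤ 32 * wn) (h4 : wn ≤ 2 * w) (hq : 0 ≤ q) (hκ : 0 ≤ κ) (hR : 0 ≤ R) (ha : |a - cen| ≤ R * w)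
    (hX : 0 ≤ X) : q * gr P (|v - a| / wn) * En - κ * (En / wn) * X ≤
      q * gr P (32 * R + 32) * gr P (|v - cen| / w) * E - κ / 64 * (E / w) * X := by
  obtain ⟨Y, hY⟩ : ∃ Y : ℝ, Y = |v - cen| / w := ⟨_, rfl⟩
  have hY0 : 0 ≤ Y := by rw [hY]; positivity
  have x0 : 0 ≤ |v - a| / wn := by positivity
  have g1 : |v - a| / wn ≤ 32 * Y + 32 * R := by
    rw [div_le_iff₀ hwn]
    have e1 := abs_sub (v - cen) (a - cen)
    rw [sub_sub_sub_cancel_right] at e1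
    have e2 : |v - cen| = Y * w := by rw [hY]; field_simp
    have e3 : (Y + R) * w ≤ (Y + R) * (32 * wn) := mul_le_mul_of_nonneg_left h3 (by positivity)
    rw [e2] at e1
    nlinarith
  have g2 : gr P (|v - a| / wn) ≤ gr P (32 * R + 32) * gr P Y :=
    gr_mul P (by positivity) hY0 x0 (by nlinarith [mul_nonneg hR hY0])
  have g3 := mul_le_mul_of_nonneg_left g2 hq
  have gA := gr_nonneg P (show 0 ≤ 32 * R + 32 by positivity)
  have gB := gr_nonneg P hY0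
  have g4 : q * gr P (|v - a| / wn) * En ≤ q * (gr P (32 * R + 32) * gr P Y) * E := mul_le_mul g3 h1 hEn.le (by positivity)
  have g5 : E / w ≤ 64 * (En / wn) := by
    rw [div_le_iff₀ hw]
    have e1 : 64 * (En / wn) * w = 64 * En * (w / wn) := by ring
    rw [e1]
    have e2 : 1 / 2 ≤ w / wn := by
      rw [le_div_iff₀ hwn]
      linarith
    nlinarith
  have g6 : κ / 64 * (E / w) * X ≤ κ * (En / wn) * X := by
    have := mul_le_mul_of_nonneg_left g5 (show 0 ≤ κ / 64 by positivity)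
    refine mul_le_mul_of_nonneg_right ?_ hX
    linarith
  rw [← hY]
  linarith

/-- The last step without weight moves the end by one column. -/
theorem skew24 {κ g z b v a S : ℝ} (hκ : 0 ≤ κ) (hg : 0 ≤ g) (s0 : 0 ≤ S) (s1 : S ≤ 1) :
    -(κ * g * |(z - b) - (v - a)|) ≤ κ * g - κ * g * |(z - (b + S)) - (v - a)| ∧
    -(κ * g * |(z - 1 - b) - (v - a)|) ≤ κ * g - κ * g * |(z - (b + S)) - (v - a)| := by
  have hκg : 0 ≤ κ * g := mul_nonneg hκ hg
  constructor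
  · have e1 : |(z - (b + S)) - (v - a)| ≤ |(z - b) - (v - a)| + 1 := by
      have := abs_sub ((z - b) - (v - a)) S
      rw [abs_of_nonneg s0] at this
      have e2 : (z - b) - (v - a) - S = (z - (b + S)) - (v - a) := by ring
      rw [e2] at this
      linarith
    have := mul_le_mul_of_nonneg_left e1 hκg
    linarith
  · have e1 : |(z - (b + S)) - (v - a)| ≤ |(z - 1 - b) - (v - a)| + 1 := by
      have h1 := abs_add_le ((z - 1 - b) - (v - a)) (1 - S)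
      have h2 : |1 - S| ≤ 1 := by rw [abs_le]; constructor <;> linarith
      have e2 : (z - 1 - b) - (v - a) + (1 - S) = (z - (b + S)) - (v - a) := by ring
      rw [e2] at h1
      linarith
    have := mul_le_mul_of_nonneg_left e1 hκg
    linarith

/-! ### The exit in the letters of the fresh ball -/

/-- **FROM THE TWO BLOCKS TO `Ex35`.** -/
theorem ex_of_xd24 [IsProbabilityMeasure μ] {hh : ℝ} {η : Env} {p : ℕ → ℝ} {M e n T P : ℕ} {a a' : ℤ} {ρ U β h G K ε q κ₀ R : ℝ} {κ : Pt}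
    {Tt : ℕ} (D : XD24 μ s η (e : ℤ) a a' n T P ρ U β h G K ε q κ₀) (hp : ∀ k, k < M → p k = Real.exp (s + hh))
    (hp' : ∀ k, M ≤ k → p k = Real.exp s) (s0 : 0 ≤ sl μ s) (s1 : sl μ s ≤ 1) (hn : 1 ≤ n) (hh1 : |hh| * (n + n : ℕ) ≤ 1)
    (hwn : 2 ≤ wd μ s n) (hEn : Real.exp 1 * (1 + Real.exp (|s| + 1)) ≤ Real.exp (EE μ s n))
    (h1 : EE μ s n ≤ EE μ s Tt) (h2 : EE μ s Tt ≤ 32 * EE μ s n) (h3 : wd μ s Tt ≤ 32 * wd μ s n) (h4 : wd μ s n ≤ 2 * wd μ s Tt)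
    (hq : 0 ≤ q) (hκ : 0 ≤ κ₀) (hκ1 : κ₀ ≤ 1) (hU : 0 ≤ U) (hG : 0 ≤ G) (hR : 0 ≤ R)
    (ha : |(a : ℝ) - ln35 μ s κ e| ≤ R * wd μ s Tt) (hρ : 0 ≤ ρ) {δ' : Finset ℤ} (hne : δ'.Nonempty)
    (hδ : ∀ z ∈ δ', |(z : ℝ) - (a + sl μ s * (n + n + 1 : ℕ))| ≤ wd μ s Tt / 64) :
    Ex35 P ((q + 2) * gr P (32 * R + 32)) (κ₀ / 64) (U + 2) (G / 32) (EE μ s Tt) (wd μ s Tt) (ln35 μ s κ e)
      (ln35 μ s κ (e + (n + n + 1))) a (n + n + 1) (Ce24 a ρ) δ' (K247 μ s hh η p M e (n + n)) := by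
  have hE1 : 1 ≤ EE μ s n := one_le_EE n
  have hE0 : 0 < EE μ s n := by linarith
  have hE : 0 < EE μ s Tt := by linarith
  have hwn0 : 0 < wd μ s n := by linarith
  have hw : 0 < wd μ s Tt := by linarith
  obtain ⟨En, hEnd⟩ : ∃ x : ℝ, x = EE μ s n := ⟨_, rfl⟩
  obtain ⟨g, hg⟩ : ∃ x : ℝ, x = EE μ s n / wd μ s n := ⟨_, rfl⟩
  have hg0 : 0 ≤ g := by rw [hg]; positivity
  have hgE : κ₀ * g ≤ EE μ s n := by
    have e1 : g ≤ EE μ s n := by rw [hg]; exact div_le_self hE0.le (by linarith)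
    nlinarith
  have hp0 : ∀ k, 0 < p k := fun k => by
    rcases lt_or_ge k M with h5 | h5
    · rw [hp k h5]; exact Real.exp_pos _
    · rw [hp' k h5]; exact Real.exp_pos _
  have hhn : |hh| ≤ 1 := by
    have e1 : (1 : ℝ) ≤ ((n + n : ℕ) : ℝ) := by exact_mod_cast (by omega : 1 ≤ n + n)
    have := mul_le_mul_of_nonneg_left e1 (abs_nonneg hh)
    linarith
  have hps : ∀ k, p k ≤ Real.exp (|s| + 1) := fun k => by
    have e1 := le_abs_self s
    have e2 := le_abs_self hh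
    rcases lt_or_ge k M with h5 | h5
    · rw [hp k h5]; exact Real.exp_le_exp.2 (by linarith)
    · rw [hp' k h5]; exact Real.exp_le_exp.2 (by linarith)
  obtain ⟨N, hN⟩ : ∃ N : ℤ → ℤ → ℝ, N = fun x y => nk μ s hh η p M e (n + n) x y := ⟨_, rfl⟩
  obtain ⟨k, hk⟩ : ∃ k : ℤ → ℤ → ℝ, k = fun x y => kW μ s η (e : ℤ) (n + n) x y := ⟨_, rfl⟩
  have nk1' : ∀ x y, N x y ≤ Real.exp 1 * k x y := fun x y => by
    rw [hN, hk]
    exact (nk_kW hp hp' s0 s1 hh1 x y).1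
  have nk2' : ∀ x y, k x y ≤ Real.exp 1 * N x y := fun x y => by
    rw [hN, hk]
    exact (nk_kW hp hp' s0 s1 hh1 x y).2
  have N0 : ∀ x y, 0 ≤ N x y := fun x y => by rw [hN]; exact nk_nonneg hp0 _ _ _ _
  have k0 : ∀ x y, 0 ≤ k x y := fun x y => by rw [hk]; exact kW_nonneg η _ _ _ _
  obtain ⟨π, hπ⟩ : ∃ π : ℝ, π = p (e + (n + n)) := ⟨_, rfl⟩
  have hπ0 : 0 ≤ π := by rw [hπ]; exact (hp0 _).le
  have hπE : Real.exp 1 * (1 + π) ≤ Real.exp (EE μ s n) := by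
    refine le_trans (mul_le_mul_of_nonneg_left ?_ (Real.exp_pos 1).le) hEn
    have := hps (e + (n + n))
    rw [hπ]
    linarith
  have hKd : ∀ v z, K247 μ s hh η p M e (n + n) v z = N v z + π * N v (z - 1) := fun v z => by
    rw [hN, hπ]
    rfl
  have hK0 : ∀ v z, 0 ≤ K247 μ s hh η p M e (n + n) v z := fun v z => K247_nonneg hp0 _ _ _ _
  -- lines
  obtain ⟨b, hb⟩ : ∃ b : ℝ, b = a + sl μ s * (n + n) := ⟨_, rfl⟩
  have hb' : b + sl μ s = a + sl μ s * (((n + n : ℕ) : ℝ) + 1) := by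
    rw [hb]
    push_cast
    ring
  have sk : ∀ v z : ℤ, -(κ₀ * g * |((z : ℝ) - b) - ((v : ℝ) - a)|) ≤ EE μ s n - κ₀ * g * |((z : ℝ) - (b + sl μ s)) - ((v : ℝ) - a)| ∧
      -(κ₀ * g * |(((z - 1 : ℤ) : ℝ) - b) - ((v : ℝ) - a)|) ≤ EE μ s n - κ₀ * g * |((z : ℝ) - (b + sl μ s)) - ((v : ℝ) - a)| := by
    intro v z
    obtain ⟨g1, g2⟩ := skew24 (z := (z : ℝ)) (b := b) (v := (v : ℝ)) (a := (a : ℝ)) hκ hg0 s0 s1
    push_cast
    constructor <;> linarith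
  -- the sum of two terms
  have two : ∀ (F : ℝ) (c0 : ℤ → ℝ) (v z : ℤ), 0 ≤ F → (∀ v, 0 ≤ c0 v) → (∀ z : ℤ, k v z ≤ F * Real.exp (c0 v * EE μ s n -
      κ₀ * g * |((z : ℝ) - b) - ((v : ℝ) - a)|)) → K247 μ s hh η p M e (n + n) v z ≤
      F * Real.exp ((c0 v + 2) * EE μ s n - κ₀ * g * |((z : ℝ) - (b + sl μ s)) - ((v : ℝ) - a)|) := by
    intro F c0 v z hF _ H
    obtain ⟨s3, s4⟩ := sk v z
    have t1 : k v z ≤ F * Real.exp ((c0 v + 1) * EE μ s n - κ₀ * g * |((z : ℝ) - (b + sl μ s)) - ((v : ℝ) - a)|) :=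
      (H z).trans (mul_le_mul_of_nonneg_left (Real.exp_le_exp.2 (by linarith)) hF)
    have t2 : k v (z - 1) ≤ F * Real.exp ((c0 v + 1) * EE μ s n - κ₀ * g * |((z : ℝ) - (b + sl μ s)) - ((v : ℝ) - a)|) :=
      (H (z - 1)).trans (mul_le_mul_of_nonneg_left (Real.exp_le_exp.2 (by linarith)) hF)
    obtain ⟨Y, hY⟩ : ∃ Y : ℝ, Y = F * Real.exp ((c0 v + 1) * EE μ s n - κ₀ * g * |((z : ℝ) - (b + sl μ s)) - ((v : ℝ) - a)|) := ⟨_, rfl⟩
    have hY0 : 0 ≤ Y := by rw [hY]; positivity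
    rw [← hY] at t1 t2
    rw [hKd]
    have u1 : N v z ≤ Real.exp 1 * Y := (nk1' v z).trans (mul_le_mul_of_nonneg_left t1 (Real.exp_pos 1).le)
    have u2 : π * N v (z - 1) ≤ π * (Real.exp 1 * Y) :=
      mul_le_mul_of_nonneg_left ((nk1' v (z - 1)).trans (mul_le_mul_of_nonneg_left t2 (Real.exp_pos 1).le)) hπ0
    calc N v z + π * N v (z - 1) ≤ Real.exp 1 * (1 + π) * Y := by linarith
      _ ≤ Real.exp (EE μ s n) * Y := mul_le_mul_of_nonneg_right hπE hY0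
      _ = F * (Real.exp (EE μ s n) * Real.exp ((c0 v + 1) * EE μ s n -
          κ₀ * g * |((z : ℝ) - (b + sl μ s)) - ((v : ℝ) - a)|)) := by
          rw [hY]
          ring
      _ = _ := by
          rw [← Real.exp_add]
          congr 2
          ring
  have Xv : ∀ v : ℤ, 0 ≤ |(v : ℝ) - a| / wd μ s n := fun v => by positivity
  have grE : ∀ v : ℤ, (q * gr P (|(v : ℝ) - a| / wd μ s n) + 2) * EE μ s n ≤ (q + 2) * gr P (|(v : ℝ) - a| / wd μ s n) * EE μ s n := by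
    intro v
    have g1 := gr_one_le P (Xv v)
    exact mul_le_mul_of_nonneg_right (by linarith) hE0.le
  obtain ⟨Ev, hEv⟩ : ∃ Ev : ℤ → ℤ → ℝ, Ev = fun v z : ℤ => Real.exp ((q + 2) * gr P (32 * R + 32) *
    gr P (|(v : ℝ) - ln35 μ s κ e| / wd μ s Tt) * EE μ s Tt - κ₀ / 64 * (EE μ s Tt / wd μ s Tt) *
      |((z : ℝ) - ln35 μ s κ (e + (n + n + 1))) - ((v : ℝ) - ln35 μ s κ e)|) := ⟨_, rfl⟩
  have hEv0 : ∀ v z, 0 ≤ Ev v z := fun v z => by rw [hEv]; exact (Real.exp_pos _).le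
  have out : ∀ v z : ℤ, Real.exp ((q + 2) * gr P (|(v : ℝ) - a| / wd μ s n) * EE μ s n -
      κ₀ * g * |((z : ℝ) - (b + sl μ s)) - ((v : ℝ) - a)|) ≤ Ev v z := by
    intro v z
    rw [hEv, hg]
    refine Real.exp_le_exp.2 ?_
    have g1 := unit24 (P := P) (v := (v : ℝ)) hE0 hwn0 hw h1 h2 h3 h4 (show 0 ≤ q + 2 by linarith) hκ hR ha
      (abs_nonneg (((z : ℝ) - (b + sl μ s)) - ((v : ℝ) - a)))
    have e1 : ((z : ℝ) - (b + sl μ s)) - ((v : ℝ) - a) = ((z : ℝ) - ln35 μ s κ (e + (n + n + 1))) - ((v : ℝ) - ln35 μ s κ e) := by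
      rw [hb]
      unfold ln35
      push_cast
      ring
    rw [e1] at g1 ⊢
    exact g1
  have hGE : Real.exp (-(G * EE μ s n)) ≤ Real.exp (-(G / 32 * EE μ s Tt)) := by
    refine Real.exp_le_exp.2 ?_
    have := mul_le_mul_of_nonneg_left h2 hG
    linarith
  refine ⟨hK0, fun v z h => K247_zero e (n + n) h, mem_Ce24.2 (by rw [sub_self, abs_zero]; exact hρ), ?_, ?_, ?_, ?_, hne⟩
  · -- upper bound
    intro v z
    have t := two 1 (fun v => q * gr P (|(v : ℝ) - a| / wd μ s n)) v z zero_le_one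
      (fun v => mul_nonneg hq (gr_nonneg P (Xv v))) (fun z => by
        rw [one_mul, hk, hb, hg]
        exact D.en v z)
    rw [one_mul] at t
    have t2 := out v z
    rw [hEv] at t2
    exact (t.trans (Real.exp_le_exp.2 (by have := grE v; linarith))).trans t2
  · -- off the start cell
    intro v z hv'
    have hv : ¬ |(v : ℝ) - a| ≤ ρ := fun hc => hv' (mem_Ce24.2 hc)
    have t := two (Real.exp (-(G * EE μ s n))) (fun v => q * gr P (|(v : ℝ) - a| / wd μ s n)) v z (Real.exp_pos _).le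
      (fun v => mul_nonneg hq (gr_nonneg P (Xv v))) (fun z => by
        rw [hk, hb, hg]
        exact D.ofe v z hv)
    have t2 := out v z
    rw [hEv] at t2
    refine t.trans (mul_le_mul hGE ((Real.exp_le_exp.2 (by have := grE v; linarith)).trans t2) (Real.exp_pos _).le (Real.exp_pos _).le)
  · -- the start cell
    intro v z hv'
    have hv : |(v : ℝ) - a| ≤ ρ := mem_Ce24.1 hv'
    obtain ⟨F, hF⟩ : ∃ F : ℝ, F = Real.exp (-(G * EE μ s n)) := ⟨_, rfl⟩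
    have hF0 : 0 ≤ F := by rw [hF]; exact (Real.exp_pos _).le
    obtain ⟨s3, s4⟩ := sk v z
    obtain ⟨Y, hY⟩ : ∃ Y : ℝ, Y = F * Real.exp (EE μ s n - κ₀ * g * |((z : ℝ) - (b + sl μ s)) - ((v : ℝ) - a)|) := ⟨_, rfl⟩
    have hY0 : 0 ≤ Y := by rw [hY]; positivity
    have t1 : k v z ≤ Real.exp (U * EE μ s n) * (Real.exp 1 * N a z) + Y := by
      have t := D.cell v hv z
      rw [← hF, ← hg, ← hb] at t
      have t3 : F * Real.exp (-(κ₀ * g * |((z : ℝ) - b) - ((v : ℝ) - a)|)) ≤ Y := by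
        rw [hY]
        exact mul_le_mul_of_nonneg_left (Real.exp_le_exp.2 s3) hF0
      have t4 := mul_le_mul_of_nonneg_left (nk2' a z) (Real.exp_pos (U * EE μ s n)).le
      have t5 : k v z ≤ Real.exp (U * EE μ s n) * k a z + F * Real.exp (-(κ₀ * g * |((z : ℝ) - b) - ((v : ℝ) - a)|)) := by
        rw [hk]
        exact t
      linarith
    have t2 : k v (z - 1) ≤ Real.exp (U * EE μ s n) * (Real.exp 1 * N a (z - 1)) + Y := by
      have t := D.cell v hv (z - 1)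
      rw [← hF, ← hg, ← hb] at t
      have t3 : F * Real.exp (-(κ₀ * g * |(((z - 1 : ℤ) : ℝ) - b) - ((v : ℝ) - a)|)) ≤ Y := by
        rw [hY]
        exact mul_le_mul_of_nonneg_left (Real.exp_le_exp.2 s4) hF0
      have t4 := mul_le_mul_of_nonneg_left (nk2' a (z - 1)) (Real.exp_pos (U * EE μ s n)).le
      have t5 : k v (z - 1) ≤ Real.exp (U * EE μ s n) * k a (z - 1) +
          F * Real.exp (-(κ₀ * g * |(((z - 1 : ℤ) : ℝ) - b) - ((v : ℝ) - a)|)) := by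
        rw [hk]
        exact t
      linarith
    have u1 := (nk1' v z).trans (mul_le_mul_of_nonneg_left t1 (Real.exp_pos 1).le)
    have u2 := mul_le_mul_of_nonneg_left ((nk1' v (z - 1)).trans (mul_le_mul_of_nonneg_left t2 (Real.exp_pos 1).le)) hπ0
    have u3 : K247 μ s hh η p M e (n + n) v z ≤
        Real.exp 1 * (Real.exp (U * EE μ s n) * Real.exp 1) * K247 μ s hh η p M e (n + n) a z + Real.exp 1 * (1 + π) * Y := by
      rw [hKd v z, hKd a z]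
      linarith
    have u4 : Real.exp 1 * (Real.exp (U * EE μ s n) * Real.exp 1) ≤ Real.exp ((U + 2) * EE μ s n) := by
      rw [← Real.exp_add, ← Real.exp_add]
      exact Real.exp_le_exp.2 (by linarith)
    have u5 : Real.exp 1 * (1 + π) * Y ≤ F * Real.exp ((q + 2) * gr P (|(v : ℝ) - a| / wd μ s n) * EE μ s n -
        κ₀ * g * |((z : ℝ) - (b + sl μ s)) - ((v : ℝ) - a)|) := by
      refine (mul_le_mul_of_nonneg_right hπE hY0).trans ?_
      rw [hY, ← mul_assoc, mul_comm (Real.exp (EE μ s n)) F, mul_assoc, ← Real.exp_add]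
      refine mul_le_mul_of_nonneg_left (Real.exp_le_exp.2 ?_) hF0
      have g1 := gr_one_le P (Xv v)
      have g2 : 2 * EE μ s n ≤ (q + 2) * gr P (|(v : ℝ) - a| / wd μ s n) * EE μ s n :=
        mul_le_mul_of_nonneg_right (by nlinarith) hE0.le
      linarith
    have u6 : K247 μ s hh η p M e (n + n) v z ≤ Real.exp ((U + 2) * EE μ s n) * K247 μ s hh η p M e (n + n) a z +
        F * Real.exp ((q + 2) * gr P (|(v : ℝ) - a| / wd μ s n) * EE μ s n -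
          κ₀ * g * |((z : ℝ) - (b + sl μ s)) - ((v : ℝ) - a)|) :=
      u3.trans (add_le_add (mul_le_mul_of_nonneg_right u4 (hK0 a z)) u5)
    have t2' := out v z
    refine u6.trans (add_le_add (mul_le_mul_of_nonneg_right (Real.exp_le_exp.2 ?_) (hK0 a z)) ?_)
    · exact mul_le_mul_of_nonneg_left h1 (by linarith)
    · rw [hEv] at t2'
      rw [hF]
      exact mul_le_mul hGE t2' (Real.exp_pos _).le (Real.exp_pos _).le
  · -- the lower half
    intro z hzδ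
    have hz := hδ z hzδ
    have hz' : |(z : ℝ) - (a + sl μ s * (n + n))| ≤ wd μ s n := by
      have e1 : (z : ℝ) - (a + sl μ s * (n + n)) = ((z : ℝ) - (a + sl μ s * (n + n + 1 : ℕ))) + sl μ s := by
        push_cast
        ring
      rw [e1]
      refine (abs_add_le _ _).trans ?_
      rw [abs_of_nonneg s0]
      linarith
    have t1 := D.lo z hz'
    have t2 := nk2' a z
    rw [hk] at t2
    have t3 := t1.trans t2
    have t4 : N a z ≤ K247 μ s hh η p M e (n + n) a z := by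
      rw [hKd a z]
      have := mul_nonneg hπ0 (N0 a (z - 1))
      linarith
    have t5 := mul_le_mul_of_nonneg_left t3 (Real.exp_pos (-1)).le
    rw [← mul_assoc, ← Real.exp_add, ← Real.exp_add, neg_add_cancel, Real.exp_zero, one_mul] at t5
    refine le_trans (Real.exp_le_exp.2 ?_) (t5.trans t4)
    have g1 := mul_le_mul_of_nonneg_left h1 (show 0 ≤ U + 2 by linarith)
    linarith

/-! ### Probability -/

theorem on_row24 {r z : ℤ} {R t : ℝ} {lo hi : ℤ} (h1 : lo < r) (h2 : r ≤ hi) : On20 (rows lo hi) (RowG r z R t) := by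
  intro η η' he
  have h : ∀ x : ℤ, η (r, x) = η' (r, x) := fun x => he _ ⟨h1, h2⟩
  constructor
  · intro h3 x
    rw [← h x]
    exact h3 x
  · intro h3 x
    rw [h x]
    exact h3 x

theorem inter_row24 [IsProbabilityMeasure μ] {A B : Set Env} {p x : ℝ}
    (hA : p ≤ (law μ).real A) (hB : (law μ).real Bᶜ ≤ x) : p - x ≤ (law μ).real (A ∩ B) := by
  have h1 : (law μ).real A ≤ (law μ).real (A ∩ B) + (law μ).real Bᶜ := by
    refine le_trans (measureReal_mono (μ := law μ) (s₂ := (A ∩ B) ∪ Bᶜ) ?_) (measureReal_union_le _ _)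
    intro η hη
    by_cases h : η ∈ B
    · exact Or.inl ⟨hη, h⟩
    · exact Or.inr h
  linarith

/-- **THE EXIT OF THE FRESH BALL.** -/
theorem freN24 [IsProbabilityMeasure μ] (h : In μ s c C n₀) : ∃ c' : ℝ, 0 < c' ∧ ∀ β ρ₀ R u : ℝ, 0 < β → 0 < ρ₀ → 0 ≤ R → 0 < u →
    ∃ (P : ℕ) (d U q : ℝ), 0 < d ∧ d ≤ ρ₀ ∧ d ≤ 1 ∧ 0 ≤ U ∧ 0 ≤ q ∧ ∀ G K : ℝ, 0 ≤ G → 0 ≤ K →
    ∃ (p : ℝ) (Q n₁ : ℕ), 0 < p ∧ 1 ≤ Q ∧ 1 ≤ n₁ ∧ ∀ t : ℕ, n₁ ≤ t → ∀ T n Tt : ℕ, T = Q * t → n = 6 * T → Tt = 32 * T →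
    ∀ (e : ℕ) (a a' : ℤ), |(a' : ℝ) - (a + sl μ s * n)| ≤ wd μ s n → ∃ Λ : Set Env, MeasurableSet Λ ∧
      On20 (rows (e : ℤ) ((e : ℤ) + n + n)) Λ ∧ p ≤ (law μ).real Λ ∧ ∀ η ∈ Λ,
        XD24 μ s η (e : ℤ) a a' n T P (d * wd μ s T) U β (c / 2048) (32 * G) K (Real.exp (-(n : ℝ) ^ c')) q (c / 4096) ∧
        (η ∈ EVR24 μ s (c / 512) n P (e : ℤ) ((e : ℤ) + n) ((e : ℤ), a) q ∧
          η ∈ EVR24 μ s (c / 512) n P ((e : ℤ) + n) ((e : ℤ) + n + n) ((e : ℤ) + n, a') q) ∧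
        (η ∈ RowG ((e : ℤ) + T) (pt24 μ s ((e : ℤ), a) T) (wd μ s Tt) (u * EE μ s Tt) ∧
          η ∈ RowG ((e : ℤ) + n) a' (wd μ s Tt) (u * EE μ s Tt) ∧
          η ∈ RowG ((e : ℤ) + n + T) (pt24 μ s ((e : ℤ) + n, a') T) (wd μ s Tt) (u * EE μ s Tt) ∧
          η ∈ RowG ((e : ℤ) + n + n) (pt24 μ s ((e : ℤ) + n, a') n) (wd μ s Tt) (u * EE μ s Tt)) ∧
        ∀ (hh : ℝ) (w : ℕ → ℝ) (M : ℕ) (κ : Pt), (∀ k, k < M → w k = Real.exp (s + hh)) → (∀ k, M ≤ k → w k = Real.exp s) →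
          |hh| * (n + n : ℕ) ≤ 1 → |(a : ℝ) - ln35 μ s κ e| ≤ R * wd μ s Tt →
          ∀ δ' : Finset ℤ, δ'.Nonempty → (∀ z ∈ δ', |(z : ℝ) - (a + sl μ s * (n + n + 1 : ℕ))| ≤ wd μ s Tt / 64) →
          Ex35 P ((q + 2) * gr P (32 * R + 32)) (c / 262144) (U + 2) G (EE μ s Tt) (wd μ s Tt) (ln35 μ s κ e)
            (ln35 μ s κ (e + (n + n + 1))) a (n + n + 1) (Ce24 a (d * wd μ s T)) δ' (K247 μ s hh η w M e (n + n)) := by
  obtain ⟨c', hc', H⟩ := freD24 h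
  have h0 := h.c0
  have hc1 := h.c1
  refine ⟨c', hc', fun β ρ₀ R u hβ hρ₀ hR hu => ?_⟩
  obtain ⟨P, d, U, q, hd, hdρ, hd1, hU, hq, H⟩ := H β ρ₀ hβ hρ₀
  refine ⟨P, d, U, q, hd, hdρ, hd1, hU, hq, fun G K hG hK => ?_⟩
  obtain ⟨p, Q, n₁, hp, hQ, hn₁, H⟩ := H (32 * G) K (by positivity) hK
  obtain ⟨nr, hnr1, hnr⟩ := rowG83 h hu 1
  obtain ⟨nw, hnw⟩ := eventually_atTop.1 ((wd_tendsto h).eventually_ge_atTop 2)
  obtain ⟨nv, hnv⟩ := eventually_atTop.1 (h.tv.eventually_le_const (show (0 : ℝ) < 1 by norm_num))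
  obtain ⟨ne, hne⟩ := eventually_atTop.1 (h.tE.eventually_ge_atTop (Real.log (Real.exp 1 * (1 + Real.exp (|s| + 1)))))
  obtain ⟨np, hnp⟩ := eventually_atTop.1 (h.tE.eventually_ge_atTop (-Real.log (p / 8)))
  refine ⟨p / 2, Q, n₁ + (nr + nw + nv + ne + np), by positivity, hQ, by omega, fun t ht T n Tt hT hn hTt e a a' haa => ?_⟩
  have htT : t ≤ T := by rw [hT]; exact Nat.le_mul_of_pos_left t (by omega)
  obtain ⟨Λ, m1, o1, p1, H⟩ := H t (by omega) T n hT hn e a a' haa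
  have hn1 : 1 ≤ n := by omega
  have hnT : n ≤ Tt := by omega
  have hT16 : Tt ≤ 16 * n := by omega
  have hwn2 : 2 ≤ wd μ s n := hnw n (by omega)
  have hC := cmp24 h hn1 hnT hT16 (by linarith)
  have hwT : 1 ≤ wd μ s Tt := (by norm_num : (1 : ℝ) ≤ 2).trans (hnw Tt (by omega))
  have hwTT : wd μ s Tt ≤ Tt := by
    have g1 := hnv Tt (by omega)
    have g2 : (0 : ℝ) ≤ Tt := Nat.cast_nonneg Tt
    have e1 : wd μ s Tt = Tt * vA 1 μ s Tt := rfl
    rw [e1]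
    nlinarith
  have hrow : ∀ r z : ℤ, (law μ).real (RowG r z (wd μ s Tt) (u * EE μ s Tt))ᶜ ≤ p / 8 := fun r z => by
    refine (hnr Tt (by omega) r z (wd μ s Tt) hwT hwTT).trans ?_
    have g1 := hnp Tt (by omega)
    have g2 : Real.exp (-(1 * EE μ s Tt)) ≤ Real.exp (Real.log (p / 8)) := Real.exp_le_exp.2 (by linarith)
    rwa [Real.exp_log (by positivity)] at g2
  obtain ⟨B₁, hB₁⟩ : ∃ B : Set Env, B = RowG ((e : ℤ) + T) (pt24 μ s ((e : ℤ), a) T) (wd μ s Tt) (u * EE μ s Tt) := ⟨_, rfl⟩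
  obtain ⟨B₂, hB₂⟩ : ∃ B : Set Env, B = RowG ((e : ℤ) + n) a' (wd μ s Tt) (u * EE μ s Tt) := ⟨_, rfl⟩
  obtain ⟨B₃, hB₃⟩ : ∃ B : Set Env, B = RowG ((e : ℤ) + n + T) (pt24 μ s ((e : ℤ) + n, a') T) (wd μ s Tt) (u * EE μ s Tt) := ⟨_, rfl⟩
  obtain ⟨B₄, hB₄⟩ : ∃ B : Set Env, B = RowG ((e : ℤ) + n + n) (pt24 μ s ((e : ℤ) + n, a') n) (wd μ s Tt) (u * EE μ s Tt) := ⟨_, rfl⟩
  have mB₁ : MeasurableSet B₁ := by rw [hB₁]; exact meas_RowG _ _ _ _
  have mB₂ : MeasurableSet B₂ := by rw [hB₂]; exact meas_RowG _ _ _ _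
  have mB₃ : MeasurableSet B₃ := by rw [hB₃]; exact meas_RowG _ _ _ _
  have mB₄ : MeasurableSet B₄ := by rw [hB₄]; exact meas_RowG _ _ _ _
  have q1 := inter_row24 (B := B₁) (x := p / 8) p1 (by rw [hB₁]; exact hrow _ _)
  have q2 := inter_row24 (B := B₂) (x := p / 8) q1 (by rw [hB₂]; exact hrow _ _)
  have q3 := inter_row24 (B := B₃) (x := p / 8) q2 (by rw [hB₃]; exact hrow _ _)
  have q4 := inter_row24 (B := B₄) (x := p / 8) q3 (by rw [hB₄]; exact hrow _ _)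
  refine ⟨(((Λ ∩ B₁) ∩ B₂) ∩ B₃) ∩ B₄, (((m1.inter mB₁).inter mB₂).inter mB₃).inter mB₄, ?_, by linarith, fun η hη => ?_⟩
  · refine (((o1.inter ?_).inter ?_).inter ?_).inter ?_
    · rw [hB₁]; exact on_row24 (by omega) (by omega)
    · rw [hB₂]; exact on_row24 (by omega) (by omega)
    · rw [hB₃]; exact on_row24 (by omega) (by omega)
    · rw [hB₄]; exact on_row24 (by omega) (by omega)
  obtain ⟨⟨⟨⟨hη, r1⟩, r2⟩, r3⟩, r4⟩ := hη
  obtain ⟨D, V1, V2⟩ := H η hη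
  rw [hB₁] at r1
  rw [hB₂] at r2
  rw [hB₃] at r3
  rw [hB₄] at r4
  refine ⟨D, ⟨V1, V2⟩, ⟨r1, r2, r3, r4⟩, fun hh w M κ hw hw' hhn ha δ' hnem hδ => ?_⟩
  have hX := ex_of_xd24 (R := R) (κ := κ) (Tt := Tt) D hw hw' h.sl_pos.le h.sl_lt.le hn1 hhn hwn2 (by
    have g1 := hne n (by omega)
    rwa [Real.log_le_iff_le_exp (by positivity)] at g1) hC.e1 hC.e2 hC.a1 hC.a2 hq (by positivity) (by linarith) hU (by positivity) hR ha
    (mul_nonneg hd.le (wd_pos96 h (by omega)).le) hnem hδ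
  have e1 : 32 * G / 32 = G := by ring
  have e2 : c / 4096 / 64 = c / 262144 := by ring
  rw [e1, e2] at hX
  exact hX

end

end Pool.Agent.W_7d29a1_C1.P24
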