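import Pool.Agent.W_7d29a1_C1.KInI60
import Pool.Agent.W_7d29a1_C1.InE60
import Pool.Agent.W_7d29a1_C1.FreN24
import Pool.Agent.W_7d29a1_C1.PshB83

/-!
Both halves (MP_7d29a1_pr), attractor route [C1], SHELL: COMMON LEMMAS FOR THE EXIT HALF OF `Pcs` (helper60).

`evr60` : the level event `EVR24` gives `En31` of the normalised kernels in the unit of a comparable scale and on the line of any point near
it; `wl60` : ends in a bad set with a gain `G`; `off60` : the gain of the walls `Of24`; `klo60` : a lower bound of `kW` as one of `nk`;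
`wts60` : one row of weights; `low60` : a lower half with the amplitude `Lam12`; `st60` : the last step without weight.
-/

set_option autoImplicit false
set_option linter.unusedSectionVars false

namespace Pool.Agent.W_7d29a1_C1.H60

open Finset Filter Topology
open Pool.Agent.W_7d29a1_F Pool.Agent.W_7d29a1_h4g Pool.Agent.W_7d29a1_H Pool.Agent.W_7d29a1_HS
open Pool.Agent.W_7d29a1_C1 Pool.Agent.W_7d29a1_C1.H75 Pool.Agent.W_7d29a1_C1.U16 Pool.Agent.W_7d29a1_C1.FarK89 Pool.Agent.W_7d29a1_C1.FarW89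
open Pool.Agent.W_7d29a1_C1.Basin76 (kW kW_nonneg)
open Pool.Agent.W_7d29a1_C1.K91 (wt wt_pos)
open Pool.Agent.W_7d29a1_C1.S83 (RowG lv83 lv83_nonneg en_EVR en_weak sumR83)
open Pool.Agent.W_7d29a1_C1.S12 (st12 Lam12)
open Pool.Agent.W_7d29a1_C1.D31 (En31 kapo31 kap31 kapo31_pos kap31_nonneg kap31_le kap31_of_reach le_kap31)
open Pool.Agent.W_7d29a1_C1.JnC35 (ln35 lat_ln comp35_cut AQ_mono)
open Pool.Agent.W_7d29a1_C1.Sh21 (Stp)
open Pool.Agent.W_7d29a1_C1.R26P (kf)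
open Pool.Agent.W_7d29a1_C1.P24 (EVR24 Of24 Ce24 mem_Ce24 nk_kW)

noncomputable section

/-! ### Weights -/

/-- **ONE ROW OF WEIGHTS** in the unit of the ball: `|x - line| ≤ K w`, centre within `D w` of the line. -/
theorem wts60 {η : Env} {r : ℕ} {z : ℤ} {w E u K D cen : ℝ} (hη : η ∈ RowG (r : ℤ) z w (u * E)) (hw : 0 < w) (hu : 0 ≤ u) (hE : 0 ≤ E)
    (hz : |(z : ℝ) - cen| ≤ D * w) {x : ℤ} (hx : |(x : ℝ) - cen| ≤ K * w) :
    wt η r x ≤ Real.exp (u * gr 1 (K + D) * E) ∧ Real.exp (-(u * gr 1 (K + D) * E)) ≤ wt η r x := by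
  have h1 := hη x
  have h2 : |((x - z : ℤ) : ℝ)| / w ≤ K + D := by
    rw [div_le_iff₀ hw]
    have e1 : ((x - z : ℤ) : ℝ) = ((x : ℝ) - cen) - ((z : ℝ) - cen) := by push_cast; ring
    have := abs_sub ((x : ℝ) - cen) ((z : ℝ) - cen)
    rw [e1]
    linarith
  have h3 : 0 ≤ |((x - z : ℤ) : ℝ)| / w := by positivity
  have h4 : Real.log (1 + |((x - z : ℤ) : ℝ)| / w) ≤ Real.log (1 + (K + D)) := Real.log_le_log (by linarith) (by linarith)
  have e4 : gr 1 (K + D) = 1 + Real.log (1 + (K + D)) := by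
    unfold gr
    rw [pow_one]
  have h5 : |η ((r : ℤ), x)| ≤ u * gr 1 (K + D) * E := by
    refine h1.trans ?_
    have := mul_le_mul_of_nonneg_left (add_le_add (le_refl (1 : ℝ)) h4) (mul_nonneg hu hE)
    rw [e4]
    linarith
  obtain ⟨h6, h7⟩ := S83.wt_abs83 η r x
  exact ⟨h7.trans (Real.exp_le_exp.2 h5), (Real.exp_le_exp.2 (neg_le_neg h5)).trans h6⟩

section det

variable {μ : MeasureTheory.Measure ℝ} {s h : ℝ} {η : Env} {p : ℕ → ℝ} {M P : ℕ}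
  {c c₁ c₂ c₃ c₃' c₅ cₖ dₖ E w Q S q σ : ℝ} {κ : Pt} {lo H x a : ℤ} {r n c3 c0 : ℕ}

/-- **A LOWER HALF**, amplitude `Lam12`. -/
theorem low60 {ℓ u u' : ℝ} {x y : ℤ} (hk : Real.exp (-(ℓ * E)) ≤ nk μ s h η p M r n x y) (hx : Real.exp (-(u * E)) ≤ wt η r x)
    (hy : wt η (r + n) y ≤ Real.exp (u' * E)) : Lam12 μ s h M r n ≤ Real.exp ((ℓ + u + u') * E) * kf (wt η) p r n x y := by
  have w2 := wt_pos η (r + n) y
  have hL : 0 < Lam12 μ s h M r n := Real.exp_pos _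
  rw [kf_nk60 (μ := μ) (s := s) (h := h) (M := M) x y]
  have h1 : Real.exp (-((ℓ + u + u') * E)) ≤ wt η r x / wt η (r + n) y * nk μ s h η p M r n x y := by
    have h2 : Real.exp (-(u * E)) * Real.exp (-(u' * E)) ≤ wt η r x / wt η (r + n) y := by
      rw [div_eq_mul_inv]
      refine mul_le_mul hx ?_ (Real.exp_pos _).le (wt_pos η r x).le
      rw [Real.exp_neg]
      exact inv_anti₀ w2 hy
    have h3 := mul_le_mul h2 hk (Real.exp_pos _).le ((mul_pos (Real.exp_pos _) (Real.exp_pos _)).le.trans h2)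
    rw [← Real.exp_add, ← Real.exp_add] at h3
    refine le_trans (le_of_eq ?_) h3
    congr 1
    ring
  have h4 := mul_le_mul_of_nonneg_left h1 (Real.exp_pos ((ℓ + u + u') * E)).le
  rw [← Real.exp_add, add_neg_cancel, Real.exp_zero] at h4
  have h5 := mul_le_mul_of_nonneg_left h4 hL.le
  refine (le_of_eq (mul_one _).symm).trans (h5.trans (le_of_eq ?_))
  ring

/-- **ENDS IN A BAD SET WITH THE GAIN `Gn`.** -/
theorem wl60 {Gn : ℝ} (hE : 0 < E) (hw : 0 < w) (hc₁ : 0 < c₁) (hc₂ : 0 ≤ c₂) (hc₃ : 0 ≤ c₃') (h3 : c₃' ≤ c₃)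
    (hcc : c₃' + c₁ + c₂ ≤ c) (hQ : 0 ≤ Q) (hσ : 0 ≤ σ) (hr : r + n ≤ c3) (hp : ∀ k, 0 < p k) {T : Finset ℤ}
    (hT : ∀ v ∈ T, nk μ s h η p M r n x v ≤
      Real.exp (-(Gn * E) - c * (E / w) * |((v : ℝ) - ln35 μ s κ (r + n)) - ((x : ℝ) - ln35 μ s κ r)|))
    (hsum : ∀ x : ℤ, ∑ v ∈ T, Real.exp (-(c₂ * (E / w) * |((v : ℝ) - ln35 μ s κ (r + n)) - ((x : ℝ) - ln35 μ s κ r)|)) ≤
      Real.exp (σ * E)) (z : ℤ) :
    ∑ v ∈ T, kf (wt η) p r n x v * kr60 μ s η P c₁ c₃ E w κ c3 Q S (r + n) v z ≤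
      Real.exp (-(Gn * E)) * Lam12 μ s h M r n * kr60 μ s η P c₁ c₃' E w κ c3 Q (S + σ) r x z := by
  have en' : En31 P c c₂ E w 0 σ (fun x => (x : ℝ) - ln35 μ s κ r) (fun y => (y : ℝ) - ln35 μ s κ (r + n))
      (fun x y => Real.exp (Gn * E) * nk μ s h η p M r n x y) {x} T := by
    refine ⟨le_rfl, hσ, fun a b => mul_nonneg (Real.exp_pos _).le (nk_nonneg hp _ _ _ _), fun a ha v hv => ?_, hsum⟩
    rw [mem_singleton] at ha
    subst ha
    refine (mul_le_mul_of_nonneg_left (hT v hv) (Real.exp_pos _).le).trans ?_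
    rw [← Real.exp_add]
    refine Real.exp_le_exp.2 ?_
    linarith
  have h1 := comp35_cut (S := S) (cen₃ := ln35 μ s κ c3) (m := c3 - (r + n)) (Q := Q) hE hw hc₁ hc₂ hc₃ h3 (by linarith) en' hQ
    (fun x y hxy => by rw [nk_eq_zero r n hxy, mul_zero]) (mem_singleton_self x) z
  rw [show n + (c3 - (r + n)) = c3 - r by omega, add_zero] at h1
  have e1 : ∑ y ∈ T, Real.exp (Gn * E) * nk μ s h η p M r n x y *
      kap31 P c₁ c₃ Q S E w (ln35 μ s κ (r + n)) (ln35 μ s κ c3) (c3 - (r + n)) y z = Real.exp (Gn * E) *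
      ∑ y ∈ T, nk μ s h η p M r n x y * kap31 P c₁ c₃ Q S E w (ln35 μ s κ (r + n)) (ln35 μ s κ c3) (c3 - (r + n)) y z := by
    rw [mul_sum]
    exact sum_congr rfl fun y _ => by ring
  rw [e1] at h1
  have h4 := mul_le_mul_of_nonneg_left h1 (Real.exp_pos (-(Gn * E))).le
  rw [← mul_assoc, ← Real.exp_add, neg_add_cancel, Real.exp_zero, one_mul] at h4
  rw [sum_kr60 (h := h) (M := M)]
  unfold kr60
  have h5 := mul_le_mul_of_nonneg_left (mul_le_mul_of_nonneg_left h4 (wt_pos η r x).le) (Real.exp_pos (n * lam μ s + h * sl μ s * bl M r n)).le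
  refine (h5.trans (le_of_eq ?_))
  unfold Lam12
  ring

/-- **THE LAST STEP WITHOUT WEIGHT**: the line goes on. -/
theorem st60 (s0 : 0 ≤ sl μ s) (s1 : sl μ s ≤ 1) (hE : 1 ≤ E) (hw : 1 ≤ w) (hc : 0 ≤ c) (hc1 : c ≤ 1) {π : ℝ} (hπ : 0 ≤ π)
    (hπE : 1 + π ≤ Real.exp E) {K : ℤ → ℤ → ℝ} {I : Finset ℤ} (K0 : ∀ x y, 0 ≤ K x y)
    (en : ∀ J : Finset ℤ, En31 P c c₂ E w q σ (fun x => (x : ℝ) - ln35 μ s κ r) (fun y => (y : ℝ) - ln35 μ s κ (r + n)) K I J)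
    (hσ : ∀ (x : ℤ) (J : Finset ℤ), ∑ y ∈ J, Real.exp (-(c₂ * (E / w) * |((y : ℝ) - ln35 μ s κ (r + (n + 1))) -
      ((x : ℝ) - ln35 μ s κ r)|)) ≤ Real.exp (σ * E)) (J : Finset ℤ) :
    En31 P c c₂ E w (q + 2) σ (fun x => (x : ℝ) - ln35 μ s κ r) (fun y => (y : ℝ) - ln35 μ s κ (r + (n + 1))) (st12 K π) I J := by
  have q0 := (en ∅).q0
  have s0' := (en ∅).s0
  refine ⟨by linarith, s0', fun x y => S12.st12_nonneg K0 hπ x y, fun x hx y _ => ?_, fun x => hσ x J⟩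
  obtain ⟨X, hX⟩ : ∃ X : ℝ, X = |(x : ℝ) - ln35 μ s κ r| / w := ⟨_, rfl⟩
  have hX0 : 0 ≤ X := by rw [hX]; positivity
  have hg := gr_one_le P hX0
  have el : ln35 μ s κ (r + (n + 1)) = ln35 μ s κ (r + n) + sl μ s := by
    unfold ln35
    push_cast
    ring
  obtain ⟨D, hD⟩ : ∃ D : ℝ, D = |((y : ℝ) - ln35 μ s κ (r + (n + 1))) - ((x : ℝ) - ln35 μ s κ r)| := ⟨_, rfl⟩
  have hEw : 0 ≤ E / w := by positivity
  have hEw1 : E / w ≤ E := div_le_self (by linarith) hw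
  have b1 : ∀ y' : ℤ, D - 1 ≤ |((y' : ℝ) - ln35 μ s κ (r + n)) - ((x : ℝ) - ln35 μ s κ r)| →
      K x y' ≤ Real.exp ((q + 1) * gr P X * E - c * (E / w) * D) := by
    intro y' hy'
    have h1 := (en {y'}).up x hx y' (mem_singleton_self y')
    refine h1.trans (Real.exp_le_exp.2 ?_)
    have h2 := mul_le_mul_of_nonneg_left hy' (mul_nonneg hc hEw)
    have h3 : c * (E / w) ≤ E := by
      have := mul_le_mul hc1 hEw1 hEw zero_le_one
      linarith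
    have h4 : E ≤ gr P X * E := le_mul_of_one_le_left (by linarith) hg
    have e1 : (q + 1) * gr P X * E = q * gr P X * E + gr P X * E := by ring
    rw [e1]
    show q * gr P (|(x : ℝ) - ln35 μ s κ r| / w) * E - c * (E / w) * |((y' : ℝ) - ln35 μ s κ (r + n)) - ((x : ℝ) - ln35 μ s κ r)| ≤ _
    rw [← hX]
    linarith
  have t1 := b1 y (by
    have := abs_sub (((y : ℝ) - ln35 μ s κ (r + n)) - ((x : ℝ) - ln35 μ s κ r)) (sl μ s)
    rw [abs_of_nonneg s0] at this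
    have e1 : ((y : ℝ) - ln35 μ s κ (r + n)) - ((x : ℝ) - ln35 μ s κ r) - sl μ s =
        ((y : ℝ) - ln35 μ s κ (r + (n + 1))) - ((x : ℝ) - ln35 μ s κ r) := by rw [el]; ring
    rw [e1, ← hD] at this
    linarith)
  have t2 := b1 (y - 1) (by
    have := abs_add_le ((((y - 1 : ℤ) : ℝ) - ln35 μ s κ (r + n)) - ((x : ℝ) - ln35 μ s κ r)) (1 - sl μ s)
    have h1 : |1 - sl μ s| ≤ 1 := by
      rw [abs_le]
      constructor <;> linarith
    have e1 : (((y - 1 : ℤ) : ℝ) - ln35 μ s κ (r + n)) - ((x : ℝ) - ln35 μ s κ r) + (1 - sl μ s) =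
        ((y : ℝ) - ln35 μ s κ (r + (n + 1))) - ((x : ℝ) - ln35 μ s κ r) := by
      rw [el]
      push_cast
      ring
    rw [e1, ← hD] at this
    linarith)
  show st12 K π x y ≤ Real.exp ((q + 2) * gr P (|(x : ℝ) - ln35 μ s κ r| / w) * E - c * (E / w) *
    |((y : ℝ) - ln35 μ s κ (r + (n + 1))) - ((x : ℝ) - ln35 μ s κ r)|)
  rw [← hX, ← hD]
  unfold st12
  have t3 := mul_le_mul_of_nonneg_left t2 hπ
  obtain ⟨Y, hY⟩ : ∃ Y : ℝ, Y = Real.exp ((q + 1) * gr P X * E - c * (E / w) * D) := ⟨_, rfl⟩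
  rw [← hY] at t1 t3
  have hY0 : 0 ≤ Y := by rw [hY]; exact (Real.exp_pos _).le
  have t4 : K x y + π * K x (y - 1) ≤ Real.exp E * Y := by
    have := mul_le_mul_of_nonneg_right hπE hY0
    linarith
  refine t4.trans ?_
  rw [hY, ← Real.exp_add]
  refine Real.exp_le_exp.2 ?_
  have h4 : E ≤ gr P X * E := le_mul_of_one_le_left (by linarith) hg
  have e1 : (q + 2) * gr P X * E = (q + 1) * gr P X * E + gr P X * E := by ring
  rw [e1]
  linarith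

end det

/-! ### The level event -/

variable {μ : MeasureTheory.Measure ℝ} {s : ℝ} [MeasureTheory.IsProbabilityMeasure μ] {c C : ℝ} {n₀ : ℕ}

/-- **`EVR24` AS `En31`** of the normalised kernels (any switch row) in the unit of a comparable scale, on the line of `κ`. -/
theorem evr60 (h0 : In μ s c C n₀) (P : ℕ) {cE q : ℝ} (hcE : 0 < cE) (hq : 0 ≤ q) {a : ℕ} (ha : 1 ≤ a) {Λ : ℝ} (hΛ : 0 ≤ Λ) :
    ∃ Q : ℝ, 0 ≤ Q ∧ ∀ c₂ σ : ℝ, 0 < c₂ → 0 < σ → ∃ n₁ : ℕ, 1 ≤ n₁ ∧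
    ∀ {η : Env} {h : ℝ} {p : ℕ → ℝ} {M n Tt : ℕ} {lo hi : ℤ} {b κ : Pt} {i m : ℕ}, (∀ k, k < M → p k = Real.exp (s + h)) →
      (∀ k, M ≤ k → p k = Real.exp s) → n₁ ≤ n → n₁ ≤ Tt → Tt ≤ a * n → n ≤ a * Tt → η ∈ EVR24 μ s cE n P lo hi b q →
      lo ≤ i → (i : ℤ) + m ≤ hi → |lat16 μ s b κ| ≤ Λ * wd μ s n → |h| * wd μ s n ≤ cE / 2 * EE μ s n →
      ∀ P', P ≤ P' → ∀ I J : Finset ℤ, En31 P' (cE / 8 / (2 * a ^ 2)) c₂ (EE μ s Tt) (wd μ s Tt) Q σ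
        (fun x => (x : ℝ) - ln35 μ s κ i) (fun y => (y : ℝ) - ln35 μ s κ (i + m)) (nk μ s h η p M i m) I J := by
  obtain ⟨L, hL⟩ : ∃ L : ℝ, L = lv83 P (cE / 8) (2 * (q * gr P 1)) 2 := ⟨_, rfl⟩
  have hg1 := gr_one_le P (show (0 : ℝ) ≤ 1 by norm_num)
  have hL0 : 0 ≤ L := by
    rw [hL]
    exact lv83_nonneg P (by positivity) (by norm_num)
  have haR : (1 : ℝ) ≤ a := by exact_mod_cast ha
  have hg2 := gr_nonneg P (show (0 : ℝ) ≤ 2 * a + Λ + 1 by positivity)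
  refine ⟨L * gr P (2 * a + Λ + 1) * a, by positivity, fun c₂ σ hc₂ hσ => ?_⟩
  obtain ⟨m₁, hm₁, H1⟩ := sumR83 h0 (show 0 < cE / 8 by positivity) one_pos
  obtain ⟨m₂, hm₂, H2⟩ := enU60 h0 ha hc₂ hσ
  obtain ⟨m₃, H3⟩ := eventually_atTop.1 ((wd_tendsto h0).eventually_ge_atTop 1)
  refine ⟨max (max m₁ m₂) m₃, (hm₁.trans (le_max_left _ _)).trans (le_max_left _ _), ?_⟩
  intro η h p M n Tt lo hi b κ i m hp hp' hn hTt h1 h2 hV hi1 hi2 hκ hh P' hP' I J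
  have n1 : m₁ ≤ n := ((le_max_left _ _).trans (le_max_left _ _)).trans hn
  have n2 : m₂ ≤ n := ((le_max_right _ _).trans (le_max_left _ _)).trans hn
  have n3 : m₃ ≤ n := (le_max_right _ _).trans hn
  have t2 : m₂ ≤ Tt := ((le_max_right _ _).trans (le_max_left _ _)).trans hTt
  have t3 : m₃ ≤ Tt := (le_max_right _ _).trans hTt
  have hw : 0 < wd μ s n := by linarith [H3 n n3]
  have hwT : 0 < wd μ s Tt := by linarith [H3 Tt t3]
  have hpp : ∀ k, 0 < p k := fun k => by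
    rcases lt_or_ge k M with h3 | h3
    · rw [hp k h3]; exact Real.exp_pos _
    · rw [hp' k h3]; exact Real.exp_pos _
  have e1 := en_EVR (c' := cE / 8) (c₁ := cE / 8) (c₂ := cE / 8) (s := 1) (Q := 2 * (q * gr P 1)) (S := 2) (i := i) (n := m) hV hq hw hi1
    hi2 hh hp hp' (by positivity) (by positivity) (by positivity) (by linarith) zero_le_one le_rfl (by norm_num)
    (fun z J => H1 n n1 z J) I J
  rw [← hL] at e1
  have e2 := H2 (Tt := Tt) (T₂ := n) (κ := b) (κ' := κ) (Λ := Λ) (q := L) (r := cE / 8) (k := nk μ s h η p M i m) (i := (i : ℤ))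
    (j := ((i + m : ℕ) : ℤ)) (P := P) (I := I) (J := J) t2 n2 h1 h2 hκ hΛ hL0 (by positivity) (fun _ _ => nk_nonneg hpp _ _ _ _)
    (fun x hx y hy => e1.up x hx y hy)
  have e3 := en_weak (EE_pos (μ := μ) (s := s) Tt) hwT e2 hP' le_rfl le_rfl le_rfl le_rfl
  have e4 : (fun x : ℤ => (x : ℝ) - ln35 μ s κ i) = fun x => lat16 μ s κ ((i : ℤ), x) := by
    funext x
    rw [lat_ln]
  have e5 : (fun y : ℤ => (y : ℝ) - ln35 μ s κ (i + m)) = fun y => lat16 μ s κ (((i + m : ℕ) : ℤ), y) := by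
    funext y
    rw [lat_ln]
  rw [e4, e5]
  exact e3

/-- **THE GAIN OF THE WALLS** in the unit of the ball, for a start within `K` units of the line. -/
theorem off60 (h0 : In μ s c C n₀) {a n Tt : ℕ} (ha : 1 ≤ a) (hn : 1 ≤ n) (hTt : 1 ≤ Tt) (h1 : Tt ≤ a * n) (h2 : n ≤ a * Tt)
    (hwn : 0 < wd μ s n) (hwT : 0 < wd μ s Tt) {h : ℝ} {η : Env} {p : ℕ → ℝ} {M : ℕ} (hp : ∀ k, k < M → p k = Real.exp (s + h))
    (hp' : ∀ k, M ≤ k → p k = Real.exp s) {κ : Pt} {r m : ℕ} (hh : |h| * m ≤ 1) {bad : ℤ → ℤ → Prop} {ca cb G β hr K R Gn : ℝ}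
    (H : Of24 (kW μ s η r m) bad ca cb (wd μ s n) (EE μ s n) G β hr) (hβ : 0 ≤ β) (hhr : 0 ≤ hr) (hK : 0 ≤ K) (hR : 0 ≤ R)
    (hca : |ca - ln35 μ s κ r| ≤ R * wd μ s Tt) (hcb : cb - ca = sl μ s * m) (hGn : 0 ≤ Gn)
    (hG : a * Gn + β * (2 * a * (K + R)) + 1 ≤ G) {x v : ℤ} (hx : |(x : ℝ) - ln35 μ s κ r| ≤ K * wd μ s Tt) (hb : bad x v) :
    nk μ s h η p M r m x v ≤ Real.exp (-(Gn * EE μ s Tt) - hr / (2 * a ^ 2) * (EE μ s Tt / wd μ s Tt) *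
      |((v : ℝ) - ln35 μ s κ (r + m)) - ((x : ℝ) - ln35 μ s κ r)|) := by
  have haR : (1 : ℝ) ≤ a := by exact_mod_cast ha
  obtain ⟨u1, u2, u3⟩ := units60 h0 ha hTt hn h1 h2 hwT hwn
  have hE := EE_pos (μ := μ) (s := s) n
  have hET := EE_pos (μ := μ) (s := s) Tt
  have hE1 : 1 ≤ EE μ s n := one_le_EE n
  have e1 := EE_unit20 h0 ha h1
  refine (nk_kW hp hp' h0.sl_pos.le h0.sl_lt.le hh x v).1.trans ?_
  refine (mul_le_mul_of_nonneg_left (H x v hb) (Real.exp_pos 1).le).trans ?_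
  rw [← Real.exp_add]
  refine Real.exp_le_exp.2 ?_
  have e2 : ((v : ℝ) - cb) - ((x : ℝ) - ca) = ((v : ℝ) - ln35 μ s κ (r + m)) - ((x : ℝ) - ln35 μ s κ r) := by
    have e3 : ln35 μ s κ (r + m) = ln35 μ s κ r + sl μ s * m := by
      unfold ln35
      push_cast
      ring
    rw [e3]
    linarith
  rw [e2]
  obtain ⟨D, hD⟩ : ∃ D : ℝ, D = |((v : ℝ) - ln35 μ s κ (r + m)) - ((x : ℝ) - ln35 μ s κ r)| := ⟨_, rfl⟩
  rw [← hD]
  have hD0 : 0 ≤ D := by rw [hD]; positivity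
  have g1 : |(x : ℝ) - ca| / wd μ s n ≤ 2 * a * (K + R) := by
    rw [div_le_iff₀ hwn]
    have a1 := abs_sub ((x : ℝ) - ln35 μ s κ r) (ca - ln35 μ s κ r)
    rw [sub_sub_sub_cancel_right] at a1
    have a2 := mul_le_mul_of_nonneg_left u2 (show 0 ≤ K + R by linarith)
    linarith
  have g2 := mul_le_mul_of_nonneg_right (mul_le_mul_of_nonneg_left g1 hβ) hE.le
  have g3 : hr / (2 * a ^ 2) * (EE μ s Tt / wd μ s Tt) * D ≤ hr * (D / wd μ s n) * EE μ s n := by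
    have a1 := mul_le_mul_of_nonneg_left u3 (show 0 ≤ hr / (2 * a ^ 2) by positivity)
    have a2 := mul_le_mul_of_nonneg_right a1 hD0
    refine a2.trans (le_of_eq ?_)
    have : (a : ℝ) ≠ 0 := by positivity
    field_simp
  have g4 : Gn * EE μ s Tt ≤ a * Gn * EE μ s n := by
    have := mul_le_mul_of_nonneg_left e1 hGn
    linarith
  have g5 := mul_le_mul_of_nonneg_right hG hE.le
  have e6 : (-G + β * (|(x : ℝ) - ca| / wd μ s n) - hr * (D / wd μ s n)) * EE μ s n =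
      -(G * EE μ s n) + β * (|(x : ℝ) - ca| / wd μ s n) * EE μ s n - hr * (D / wd μ s n) * EE μ s n := by ring
  rw [e6]
  linarith

/-- **A LOWER BOUND OF `kW` AS ONE OF `nk`.** -/
theorem klo60 (h0 : In μ s c C n₀) {n Tt : ℕ} (hnT : n ≤ Tt) {h : ℝ} {η : Env} {p : ℕ → ℝ} {M : ℕ}
    (hp : ∀ k, k < M → p k = Real.exp (s + h)) (hp' : ∀ k, M ≤ k → p k = Real.exp s) {r m : ℕ} (hh : |h| * m ≤ 1) {U : ℝ} (hU : 0 ≤ U)
    {x v : ℤ} (H : Real.exp (-(U * EE μ s n)) ≤ kW μ s η r m x v) :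
    Real.exp (-((U + 1) * EE μ s Tt)) ≤ nk μ s h η p M r m x v := by
  have h1 := H.trans (nk_kW hp hp' h0.sl_pos.le h0.sl_lt.le hh x v).2
  have h2 := mul_le_mul_of_nonneg_left h1 (Real.exp_pos (-1)).le
  rw [← mul_assoc, ← Real.exp_add, ← Real.exp_add, neg_add_cancel, Real.exp_zero, one_mul] at h2
  refine le_trans (Real.exp_le_exp.2 ?_) h2
  have h3 : EE μ s n ≤ EE μ s Tt := EE_mono hnT
  have h4 : 1 ≤ EE μ s Tt := one_le_EE Tt
  have := mul_le_mul_of_nonneg_left h3 hU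
  linarith

end

end Pool.Agent.W_7d29a1_C1.H60
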