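import Pool.Agent.W_7d29a1_C1.KIl44
import Pool.Agent.W_7d29a1_C1.KEv60
import Pool.Agent.W_7d29a1_C1.KBu21
import Pool.Agent.W_7d29a1_C1.FrbS26

/-!
MP_7d29a1_pr, attractor route [C1], SHELL, SIDE F, the place of `LsU` (helper8): **THE FIELD `l0a` OF `Pcs` AND THE SIZE OF THE KERNEL OF THE
CELLS**. `low8` : one step with a strength `A`. `l0a8` : the strength of the lanes times the amplitudes of the rows `c0 → c0 + (n1 + na)` is
below `L² Σ` over the cell of the exit, from the lower half of the lanes (`MO26`) and the lower bound `c0' → c0 + (n1 + na)`. `phif8`.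
-/

set_option autoImplicit false

namespace Pool.Agent.W_7d29a1_C1.H8

open MeasureTheory Finset Filter
open Pool.Agent.W_7d29a1_F Pool.Agent.W_7d29a1_h4g Pool.Agent.W_7d29a1_H Pool.Agent.W_7d29a1_HS
open Pool.Agent.W_7d29a1_C1
open Pool.Agent.W_7d29a1_C1.FarW89 (nk nk_nonneg)
open Pool.Agent.W_7d29a1_C1.K91 (wt wt_pos)
open Pool.Agent.W_7d29a1_C1.S12 (Lam12 Lam12_pos)
open Pool.Agent.W_7d29a1_C1.Basin76
open Pool.Agent.W_7d29a1_C1.S83 (sumR83)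
open Pool.Agent.W_7d29a1_C1.D31 (kap31 kapo31)
open Pool.Agent.W_7d29a1_C1.FarK89 (gr AQ)
open Pool.Agent.W_7d29a1_C1.JnC35 (ln35)
open Pool.Agent.W_7d29a1_C1.H60 (kf_nk60)
open Pool.Agent.W_7d29a1_C1.R26P (kf)
open Pool.Agent.W_7d29a1_C1.U16 (ker_nonneg)
open Pool.Agent.W_7d29a1_C1.P24 (nk_kW)
open Pool.Agent.W_7d29a1_C1.F74 (cl2)
open Pool.Agent.W_7d29a1_C1.B26
open Pool.Agent.W_7d29a1_C1.Lt44 (Lam12_add nk_ge44)
open Pool.Agent.W_7d29a1_C1.Sh21 (kc21)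

noncomputable section

variable {μ : Measure ℝ} [IsProbabilityMeasure μ] {s c C h : ℝ} {n₀ : ℕ} {η : Env} {p : ℕ → ℝ} {M : ℕ}

omit [IsProbabilityMeasure μ] in
/-- **ONE STEP WITH A STRENGTH.** -/
theorem low8 {r n : ℕ} {x y : ℤ} {E U u u' A : ℝ} (hA : 0 ≤ A) (wx : Real.exp (-(u * E)) ≤ wt η r x)
    (wy : wt η (r + n) y ≤ Real.exp (u' * E)) (lo : Real.exp (-(U * E)) * A ≤ nk μ s h η p M r n x y) :
    Lam12 μ s h M r n * A ≤ Real.exp ((U + u + u') * E) * kf (wt η) p r n x y := by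
  rw [kf_nk60 (μ := μ) (s := s) (h := h) (M := M) x y]
  have hL := Lam12_pos (μ := μ) (s := s) (h := h) M r n
  have hy := wt_pos η (r + n) y
  have h1 : Real.exp (-((u + u') * E)) ≤ wt η r x / wt η (r + n) y := by
    rw [le_div_iff₀ hy]
    have e : Real.exp (-(u * E)) = Real.exp (-((u + u') * E)) * Real.exp (u' * E) := by
      rw [← Real.exp_add]
      congr 1
      ring
    rw [e] at wx
    exact (mul_le_mul_of_nonneg_left wy (Real.exp_pos _).le).trans wx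
  have h2 : Real.exp (-((U + u + u') * E)) * A ≤ wt η r x / wt η (r + n) y * nk μ s h η p M r n x y := by
    have e : Real.exp (-((U + u + u') * E)) * A = Real.exp (-((u + u') * E)) * (Real.exp (-(U * E)) * A) := by
      rw [← mul_assoc, ← Real.exp_add]
      congr 2
      ring
    rw [e]
    exact mul_le_mul h1 lo (mul_nonneg (Real.exp_pos _).le hA) (div_pos (wt_pos η r x) hy).le
  have h3 := mul_le_mul_of_nonneg_left h2 (mul_nonneg (Real.exp_pos ((U + u + u') * E)).le hL.le)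
  have e1 : Real.exp ((U + u + u') * E) * Lam12 μ s h M r n * (Real.exp (-((U + u + u') * E)) * A) = Lam12 μ s h M r n * A := by
    have e2 : Real.exp ((U + u + u') * E) * Real.exp (-((U + u + u') * E)) = 1 := by
      rw [← Real.exp_add, add_neg_cancel, Real.exp_zero]
    linear_combination Lam12 μ s h M r n * A * e2
  rw [e1] at h3
  refine h3.trans (le_of_eq ?_)
  ring

/-- **THE FIELD `l0a`.** Rows `c0 → c0 + nL` (lanes, `kW`), `c0 + nL → c0 + (n1 + na)` (`nk`); `t i` the ends of the lanes, `e₁` a site of the cell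
`[va, vb]`; `E0` the unit of the lanes. -/
theorem l0a8 (h0 : In μ s c C n₀) (hp : ∀ k, k < M → p k = Real.exp (s + h)) (hp' : ∀ k, M ≤ k → p k = Real.exp s)
    {c0 nL n1 na nR : ℕ} (hn : nL + nR = n1 + na) (hh : |h| * nL ≤ 1) {a1 b1 a2 b2 va vb e₁ : ℤ} (hv : va ≤ e₁) (hv' : e₁ ≤ vb)
    {E E0 A R ell Ui u u' : ℝ} (hE : 1 ≤ E) (hEE : E0 ≤ E) (hell : 0 ≤ ell) (hA : 0 ≤ A) {ub t : Bool → ℤ}
    (hc1 : ∀ y : ℤ, a1 ≤ y → y ≤ b1 → |(y : ℝ) - ub false| ≤ R) (hc2 : ∀ y : ℤ, a2 ≤ y → y ≤ b2 → |(y : ℝ) - ub true| ≤ R)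
    (low : ∀ (i : Bool) (x : ℤ), |(x : ℝ) - ub i| ≤ R → Real.exp (-(ell * E0)) * A ≤ kW μ s η c0 nL x (t i))
    (lo : ∀ i : Bool, Real.exp (-(Ui * E)) ≤ nk μ s h η p M (c0 + nL) nR (t i) e₁)
    (wx : ∀ x ∈ cl2 a1 b1 a2 b2, Real.exp (-(u * E)) ≤ wt η c0 x) (wy : wt η (c0 + (n1 + na)) e₁ ≤ Real.exp (u' * E))
    {L : ℝ} (hL1 : 1 ≤ L) (hL : Real.exp ((ell + 1 + Ui + u + u') * E) ≤ L) :
    ∀ x ∈ cl2 a1 b1 a2 b2, (Lam12 μ s h M c0 n1 * A) * Lam12 μ s h M (c0 + n1) na ≤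
      L ^ 2 * ∑ y ∈ Icc va vb, kf (wt η) p c0 (n1 + na) x y := by
  intro x hx
  have hp0 : ∀ k, 0 < p k := fun k => by
    rcases lt_or_ge k M with h5 | h5
    · rw [hp k h5]; exact Real.exp_pos _
    · rw [hp' k h5]; exact Real.exp_pos _
  obtain ⟨i, hi⟩ : ∃ i, |(x : ℝ) - ub i| ≤ R := by
    unfold cl2 at hx
    rw [mem_union, mem_Icc, mem_Icc] at hx
    rcases hx with h1 | h1
    · exact ⟨false, hc1 x h1.1 h1.2⟩
    · exact ⟨true, hc2 x h1.1 h1.2⟩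
  have k1 := (low i x hi).trans (nk_kW (i := c0) (n := nL) hp hp' h0.sl_pos.le h0.sl_lt.le hh x (t i)).2
  -- the lanes in the kernel of the model
  have k2 : Real.exp (-((ell + 1) * E)) * A ≤ nk μ s h η p M c0 nL x (t i) := by
    have h2 := mul_le_mul_of_nonneg_left k1 (Real.exp_pos (-1)).le
    rw [← mul_assoc, ← mul_assoc, ← Real.exp_add, ← Real.exp_add, neg_add_cancel, Real.exp_zero, one_mul] at h2
    refine (mul_le_mul_of_nonneg_right (Real.exp_le_exp.2 ?_) hA).trans h2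
    have := mul_le_mul_of_nonneg_left hEE hell
    linarith
  have k3 : Real.exp (-((ell + 1 + Ui) * E)) * A ≤ nk μ s h η p M c0 (n1 + na) x e₁ := by
    rw [← hn]
    refine le_trans ?_ (nk_ge44 (y := t i) hp0)
    have e : Real.exp (-((ell + 1 + Ui) * E)) * A = Real.exp (-((ell + 1) * E)) * A * Real.exp (-(Ui * E)) := by
      rw [mul_right_comm, ← Real.exp_add]
      congr 2
      ring
    rw [e]
    exact mul_le_mul k2 (lo i) (Real.exp_pos _).le (nk_nonneg hp0 _ _ _ _)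
  have k4 := low8 hA (wx x hx) wy k3
  have nn : ∀ y, 0 ≤ kf (wt η) p c0 (n1 + na) x y := fun y => ker_nonneg (wt_pos η) hp0 _ _ _ _
  have k5 : kf (wt η) p c0 (n1 + na) x e₁ ≤ ∑ y ∈ Icc va vb, kf (wt η) p c0 (n1 + na) x y :=
    single_le_sum (f := fun v => kf (wt η) p c0 (n1 + na) x v) (fun v _ => nn v) (mem_Icc.2 ⟨hv, hv'⟩)
  have k6 : Real.exp ((ell + 1 + Ui + u + u') * E) ≤ L ^ 2 := by
    refine hL.trans ?_
    nlinarith
  have e3 : (Lam12 μ s h M c0 n1 * A) * Lam12 μ s h M (c0 + n1) na = Lam12 μ s h M c0 (n1 + na) * A := by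
    rw [Lam12_add]
    ring
  rw [e3]
  exact k4.trans (mul_le_mul k6 k5 (nn _) (by positivity))

/-- **THE SIZE OF THE KERNEL OF THE CELLS.** -/
theorem phif8 (h0 : In μ s c C n₀) {ck f : ℝ} (hck : 0 < ck) (hf : 0 < f) : ∃ n₁ : ℕ, 1 ≤ n₁ ∧ ∀ T : ℕ, n₁ ≤ T → ∀ (P : ℕ) (dk : ℝ) (κ : Pt)
    (c0 c3 : ℕ) (a : ℤ) (J : Finset ℤ), ∑ v ∈ J, kc21 μ s P dk ck (EE μ s T) (wd μ s T) κ c0 c3 a v ≤ Real.exp (f * EE μ s T) := by
  obtain ⟨n₁, hn₁, H⟩ := sumR83 h0 hck hf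
  refine ⟨n₁, hn₁, fun T hT P dk κ c0 c3 a J => ?_⟩
  refine (sum_le_sum fun v _ => ?_).trans (H T hT ((ln35 μ s κ c3 : ℝ) + ((a : ℝ) - ln35 μ s κ c0)) J)
  unfold kc21
  refine (D31.kap31_le _ _).trans (Real.exp_le_exp.2 ?_)
  have e : ((v : ℝ) - ln35 μ s κ c3) - ((a : ℝ) - ln35 μ s κ c0) = (v : ℝ) - (ln35 μ s κ c3 + ((a : ℝ) - ln35 μ s κ c0)) := by ring
  rw [e, zero_mul, zero_add, zero_mul, zero_sub]

end

end Pool.Agent.W_7d29a1_C1.H8
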