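import Pool.Agent.W_7d29a1_C1.PbP60

/-!
Both halves (MP_7d29a1_pr), attractor route [C1], SHELL: THE LOWER DATA OF THE FIRST BUFFER IN THE LETTERS OF `LsP44` (helper60).

`Lw60` : the cells of the seam row, the ends of the lanes, the lower half of the lanes (same strength `A` as `Pb21`), the weights of the cells.
-/

set_option autoImplicit false
set_option linter.unusedSectionVars false

namespace Pool.Agent.W_7d29a1_C1.H60

open Finset Filter Topology MeasureTheory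
open Pool.Agent.W_7d29a1_F Pool.Agent.W_7d29a1_h4g Pool.Agent.W_7d29a1_H Pool.Agent.W_7d29a1_HS
open Pool.Agent.W_7d29a1_C1 Pool.Agent.W_7d29a1_C1.H75 Pool.Agent.W_7d29a1_C1.U16 Pool.Agent.W_7d29a1_C1.FarK89 Pool.Agent.W_7d29a1_C1.FarW89
open Pool.Agent.W_7d29a1_C1.K91 (wt wt_pos)
open Pool.Agent.W_7d29a1_C1.JnC35 (ln35)
open Pool.Agent.W_7d29a1_C1.T10 (kF cF)
open Pool.Agent.W_7d29a1_C1.F74 (cl2)
open Pool.Agent.W_7d29a1_C1.S83 (RowG unit83 wt_abs83)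
open Pool.Agent.W_7d29a1_C1.Sh21 Pool.Agent.W_7d29a1_C1.Basin76
open Pool.Agent.W_7d29a1_C1.F45
open Pool.Agent.W_7d29a1_C1.H8 (uc8 uc8_near sg8)

noncomputable section

variable {μ : Measure ℝ} {s c C : ℝ} {n₀ : ℕ}

/-- **The lower data of the first buffer**: cells within `R` of `ub`, lane ends `tb` at the row `c0 + nL`, strength `A`. -/
structure Lw60 (μ : Measure ℝ) (s : ℝ) (T : ℕ) (κ : Pt) (ζ : Env) (a1 b1 a2 b2 : ℤ) (c0 nL n1 c0' : ℕ) (ub tb : Bool → ℤ)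
    (R E0 ell u A : ℝ) : Prop where
  Aone : 1 ≤ A
  Ele : E0 ≤ EE μ s T
  Eone : 1 ≤ E0
  nL1 : 1 ≤ nL
  nLn : nL ≤ n1
  n1T : n1 ≤ T
  row : c0 + nL = c0'
  cell1 : ∀ y : ℤ, a1 ≤ y → y ≤ b1 → |(y : ℝ) - ub false| ≤ R
  cell2 : ∀ y : ℤ, a2 ≤ y → y ≤ b2 → |(y : ℝ) - ub true| ≤ R
  low : ∀ (i : Bool) (x : ℤ), |(x : ℝ) - ub i| ≤ R → Real.exp (-(ell * E0)) * A ≤ kW μ s ζ (c0 : ℤ) nL x (tb i)
  tn : ∀ i, |(tb i : ℝ) - ln35 μ s κ c0'| ≤ 2 * wd μ s T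
  ln : ∀ y ∈ cl2 a1 b1 a2 b2, |(y : ℝ) - ln35 μ s κ c0| ≤ 2 * wd μ s T
  wts : ∀ y ∈ cl2 a1 b1 a2 b2, Real.exp (-(u * EE μ s T)) ≤ wt ζ c0 y ∧ wt ζ c0 y ≤ Real.exp (u * EE μ s T)

/-- **THE LOWER DATA AT ONE PLACE.** -/
theorem lwP60 [IsProbabilityMeasure μ] (h : In μ s c C n₀) {ell K0 d th : ℝ} (hd : 0 < d) (hd1 : d ≤ 1) (hth : 0 < th)
    (hth1 : th ≤ 1 / 4) {g : ℝ} {o : LnO} (ho : o.Ok (lnI c d th K0)) {w : LnJ} {p : LnP} (hp : p.Ok w) :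
    ∃ n₂ : ℕ, 1 ≤ n₂ ∧ ∀ (T : ℕ → ℕ) (cm : ℕ → ℤ) (j : ℕ) (z : ℕ × ℤ) (ζ : Env) (r A : ℝ) (k : KE45) (m₂ : ℕ) (φ v v₁ g₂ : ℝ)
      (σ : Fr47.NS47), n₂ ≤ T j → T j ≤ z.1 →
      MO45 μ s c d th (lnI c d th K0) ell g w.G' o p.Q T cm j ((z.1 : ℤ), z.2) ζ r A →
      σ = sg45 μ s d th o p.Q k T cm m₂ φ v v₁ g₂ →
      ∃ (ub tb : Bool → ℤ) (R : ℝ), Lw60 μ s (T j) ((z.1 : ℤ), z.2 + cm j) ζ (z.2 + σ.α₁ j) (z.2 + σ.β₁ j) (z.2 + σ.α₂ j) (z.2 + σ.β₂ j)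
        (σ.c0 j z) (nM45 th o p.Q T j + TF45 th o p.Q T j) (n145 th o p.Q T j) (cF th (R145 o p.Q) z.1 (T j)) ub tb R
        (EE μ s (TF45 th o p.Q T j)) (ell + 2) (ub21 1 8) A := by
  obtain ⟨nr, hnr1, hnr⟩ := rows60 hth hth1 ho (show (lnI c d th K0).th' = th / 8 from rfl) hp.Q
  obtain ⟨nw, hnw⟩ := eventually_atTop.1 ((wd_tendsto h).eventually_ge_atTop (max 8 (8 / d)))
  refine ⟨nr + 4 * nw + 4, by omega, ?_⟩
  intro T cm j z ζ r A k m₂ φ v v₁ g₂ σ hT hTz hM hσ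
  obtain ⟨e1, rF1, rF2, rM, rB, rn⟩ := hnr T j (by omega)
  -- the letters
  obtain ⟨κ, hκ⟩ : ∃ κ : Pt, κ = ((z.1 : ℤ), z.2 + cm j) := ⟨_, rfl⟩
  have hc0 : σ.c0 j z = z.1 - T j + 1 := by rw [hσ]; rfl
  obtain ⟨c0, hc0d⟩ : ∃ c0, c0 = σ.c0 j z := ⟨_, rfl⟩
  rw [← hc0d] at hc0
  rw [← hc0d, ← hκ]
  have c0Z : (c0 : ℤ) = 1 - (T j : ℤ) + (z.1 : ℤ) := by omega
  have eMT := nMTF45 th o p.Q T j
  have hrow0 : c0 + (nM45 th o p.Q T j + TF45 th o p.Q T j) = cF th (R145 o p.Q) z.1 (T j) := by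
    rw [eMT, hc0]
    unfold cF
    ring
  obtain ⟨TF, hTF⟩ : ∃ TF, TF = TF45 th o p.Q T j := ⟨_, rfl⟩
  obtain ⟨nM, hnM⟩ : ∃ nM, nM = nM45 th o p.Q T j := ⟨_, rfl⟩
  obtain ⟨c1, hc1⟩ : ∃ c1, c1 = cF th (R145 o p.Q) z.1 (T j) := ⟨_, rfl⟩
  rw [← hTF, ← hnM] at e1 rM
  rw [← hTF] at rF1 rF2 rB
  rw [← hTF, ← hnM, ← hc1] at hrow0
  rw [← hTF, ← hnM, ← hc1]
  -- sizes
  have w1 := hnw (T j) (by omega)
  have w2 := hnw TF (by omega)
  have w8 : (8 : ℝ) ≤ wd μ s (T j) := (le_max_left _ _).trans w1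
  have w08 : (8 : ℝ) ≤ wd μ s TF := (le_max_left _ _).trans w2
  have w0 : 0 < wd μ s (T j) := by linarith
  have w00 : 0 < wd μ s TF := by linarith
  obtain ⟨u1, -, u3, u4, -⟩ := unit83 h (show 1 ≤ TF by omega) rF1 rF2 w0 w00
  have dw1 : d * wd μ s (T j) ≤ wd μ s (T j) := by
    have := mul_le_mul_of_nonneg_right hd1 w0.le
    linarith
  have th1 : o.th ≤ d / 16 := ho.th1
  have th0 := ho.th0
  obtain ⟨R, hR⟩ : ∃ R : ℝ, R = o.th * wd μ s TF := ⟨_, rfl⟩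
  have hR0 : 0 ≤ R := by rw [hR]; positivity
  have hR1 : R ≤ d / 8 * wd μ s (T j) := by
    have t1 := mul_le_mul_of_nonneg_right th1 w00.le
    have t2 := mul_le_mul_of_nonneg_left u3 (show 0 ≤ d / 16 by linarith)
    linarith
  have hR2 : R ≤ wd μ s TF := by
    have t1 := mul_le_mul_of_nonneg_right (show o.th ≤ 1 by linarith) w00.le
    linarith
  obtain ⟨rad, hrad⟩ : ∃ rad : ℕ, rad = ⌊o.th * wd μ s (TF45 th o p.Q T j)⌋₊ := ⟨_, rfl⟩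
  have hradR : (rad : ℝ) ≤ R := by
    rw [hrad, hR, hTF]
    exact Nat.floor_le (by rw [← hTF]; positivity)
  -- the lines
  have hln : ln35 μ s κ c0 = (z.2 : ℝ) + cm j + sl μ s * (1 - (T j : ℝ)) := by
    unfold ln35
    rw [hκ, c0Z]
    push_cast
    ring
  have hln1 : ln35 μ s κ c1 = ln35 μ s κ c0 + sl μ s * (nM + TF : ℕ) := by
    rw [← hrow0]
    unfold ln35
    push_cast
    ring
  obtain ⟨x0, hx0⟩ : ∃ x0 : ℤ, x0 = (bp45 μ s T cm j).2 + z.2 := ⟨_, rfl⟩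
  have hx0n : |(x0 : ℝ) - ln35 μ s κ c0| ≤ 1 := by
    have f1 := Int.floor_le (sl μ s * (1 - (T j : ℝ)))
    have f2 := Int.lt_floor_add_one (sl μ s * (1 - (T j : ℝ)))
    rw [hx0, hln]
    unfold bp45
    push_cast
    rw [abs_le]
    constructor <;> linarith
  obtain ⟨ub, hub⟩ : ∃ ub : Bool → ℤ, ub = fun i => u45 μ s d T cm j i + z.2 := ⟨_, rfl⟩
  obtain ⟨tb, htb⟩ : ∃ tb : Bool → ℤ, tb = fun i => t45 μ s d th o p.Q T cm j i + z.2 := ⟨_, rfl⟩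
  have hubn : ∀ i, |(ub i : ℝ) - ln35 μ s κ c0 - (if i then 3 / 4 * d * wd μ s (T j) else -(3 / 4 * d * wd μ s (T j)))| ≤ 1 := fun i => by
    have h1 := uc8_near (μ := μ) (s := s) d (wd μ s (T j)) (cm j) (1 - (T j : ℤ)) i
    rw [hub, hln]
    show |((u45 μ s d T cm j i + z.2 : ℤ) : ℝ) - _ - _| ≤ 1
    unfold u45
    refine le_trans (le_of_eq ?_) h1
    congr 1
    push_cast
    ring
  have htbn : ∀ i, |(tb i : ℝ) - (ln35 μ s κ c0 + sl μ s * (nM + TF : ℕ)) -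
      (if i then 3 / 4 * d * wd μ s (T j) else -(3 / 4 * d * wd μ s (T j)))| ≤ 1 := fun i => by
    have h1 := uc8_near (μ := μ) (s := s) d (wd μ s (T j)) (cm j) (1 - (T j : ℤ) + ((nM + TF : ℕ) : ℤ)) i
    rw [htb, hln]
    show |((t45 μ s d th o p.Q T cm j i + z.2 : ℤ) : ℝ) - _ - _| ≤ 1
    unfold t45
    rw [← hnM, ← hTF]
    refine le_trans (le_of_eq ?_) h1
    congr 1
    push_cast
    ring
  have dwp : 0 ≤ 3 / 4 * d * wd μ s (T j) := by positivity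
  have hifa : ∀ i : Bool, |(if i then 3 / 4 * d * wd μ s (T j) else -(3 / 4 * d * wd μ s (T j)))| ≤ 3 / 4 * (d * wd μ s (T j)) := fun i => by
    split_ifs
    · rw [abs_of_nonneg dwp]
      linarith
    · rw [abs_neg, abs_of_nonneg dwp]
      linarith
  have hub1 : ∀ i, |(ub i : ℝ) - ln35 μ s κ c0| ≤ 3 / 4 * (d * wd μ s (T j)) + 1 := fun i => by
    have h1 := hubn i
    have h2 := hifa i
    have h3 := abs_add_le ((ub i : ℝ) - ln35 μ s κ c0 - (if i then 3 / 4 * d * wd μ s (T j) else -(3 / 4 * d * wd μ s (T j))))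
      (if i then 3 / 4 * d * wd μ s (T j) else -(3 / 4 * d * wd μ s (T j)))
    rw [sub_add_cancel] at h3
    linarith
  have htb1 : ∀ i, |(tb i : ℝ) - (ln35 μ s κ c0 + sl μ s * (nM + TF : ℕ))| ≤ 3 / 4 * (d * wd μ s (T j)) + 1 := fun i => by
    have h1 := htbn i
    have h2 := hifa i
    have h3 := abs_add_le ((tb i : ℝ) - (ln35 μ s κ c0 + sl μ s * (nM + TF : ℕ)) -
      (if i then 3 / 4 * d * wd μ s (T j) else -(3 / 4 * d * wd μ s (T j)))) (if i then 3 / 4 * d * wd μ s (T j) else -(3 / 4 * d * wd μ s (T j)))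
    rw [sub_add_cancel] at h3
    linarith
  -- the cells
  have ea1 : z.2 + σ.α₁ j = ub false - rad := by
    rw [hσ, hub, hrad]
    show z.2 + (u45 μ s d T cm j false - _) = u45 μ s d T cm j false + z.2 - _
    ring
  have eb1 : z.2 + σ.β₁ j = ub false + rad := by
    rw [hσ, hub, hrad]
    show z.2 + (u45 μ s d T cm j false + _) = u45 μ s d T cm j false + z.2 + _
    ring
  have ea2 : z.2 + σ.α₂ j = ub true - rad := by
    rw [hσ, hub, hrad]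
    show z.2 + (u45 μ s d T cm j true - _) = u45 μ s d T cm j true + z.2 - _
    ring
  have eb2 : z.2 + σ.β₂ j = ub true + rad := by
    rw [hσ, hub, hrad]
    show z.2 + (u45 μ s d T cm j true + _) = u45 μ s d T cm j true + z.2 + _
    ring
  rw [ea1, eb1, ea2, eb2]
  have cellR : ∀ (i : Bool) (y : ℤ), ub i - rad ≤ y → y ≤ ub i + rad → |(y : ℝ) - ub i| ≤ R := fun i y h1 h2 => by
    have h1' : ((ub i - rad : ℤ) : ℝ) ≤ y := Int.cast_le.2 h1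
    have h2' : (y : ℝ) ≤ ((ub i + rad : ℤ) : ℝ) := Int.cast_le.2 h2
    push_cast at h1' h2'
    rw [abs_le]
    constructor <;> linarith
  have cellor : ∀ y ∈ cl2 (ub false - rad) (ub false + rad) (ub true - rad) (ub true + rad), ∃ i, |(y : ℝ) - ub i| ≤ R := fun y hy => by
    unfold cl2 at hy
    rw [mem_union, mem_Icc, mem_Icc] at hy
    rcases hy with hy | hy
    · exact ⟨false, cellR false y hy.1 hy.2⟩
    · exact ⟨true, cellR true y hy.1 hy.2⟩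
  have cellL : ∀ (i : Bool) (y : ℤ), |(y : ℝ) - ub i| ≤ R → |(y : ℝ) - ln35 μ s κ c0| ≤ 2 * wd μ s (T j) := fun i y h3 => by
    have h4 := hub1 i
    have h5 := abs_sub_le (y : ℝ) (ub i) (ln35 μ s κ c0)
    linarith
  have cellx : ∀ (i : Bool) (y : ℤ), |(y : ℝ) - ub i| ≤ R → |((y - x0 : ℤ) : ℝ)| ≤ (8 + 1) * wd μ s TF := fun i y h3 => by
    have h4 := hub1 i
    have e2 : ((y - x0 : ℤ) : ℝ) = ((y : ℝ) - ub i) + (((ub i : ℝ) - ln35 μ s κ c0) - ((x0 : ℝ) - ln35 μ s κ c0)) := by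
      push_cast
      ring
    rw [e2]
    refine (abs_add_le _ _).trans ?_
    have h5 := abs_sub ((ub i : ℝ) - ln35 μ s κ c0) ((x0 : ℝ) - ln35 μ s κ c0)
    linarith
  -- the facts in these letters
  have hrow : ζ ∈ RowG (c0 : ℤ) x0 (wd μ s TF) (1 * EE μ s TF) := by
    have h1 := hM.ra
    rw [← hTF, ← hx0, show (bp45 μ s T cm j).1 + ((z.1 : ℤ), z.2).1 = (c0 : ℤ) from c0Z.symm] at h1
    exact h1
  have hE1 := one_le_EE (μ := μ) (s := s) TF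
  have hA1 : 1 ≤ A := by
    refine le_trans (Real.one_le_exp ?_) hM.mo.lo
    exact mul_nonneg zero_le_one (zero_le_one.trans (one_le_EE _))
  refine ⟨ub, tb, R, ?_⟩
  refine
    { Aone := hA1
      Ele := u1
      Eone := hE1
      nL1 := by omega
      nLn := by omega
      n1T := rn
      row := hrow0
      cell1 := cellR false
      cell2 := cellR true
      low := fun i x hx => ?_
      tn := fun i => ?_
      ln := fun y hy => ?_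
      wts := fun y hy => ?_ }
  · have h1 := hM.mo.mf.low i x (by
      rw [← hTF, ← hR]
      have e2 : (u45 μ s d T cm j i + ((z.1 : ℤ), z.2).2) = ub i := by rw [hub]
      rw [e2]
      exact hx)
    rw [← hTF, ← hnM, show (bp45 μ s T cm j).1 + ((z.1 : ℤ), z.2).1 = (c0 : ℤ) from c0Z.symm] at h1
    have e2 : (t45 μ s d th o p.Q T cm j i + ((z.1 : ℤ), z.2).2) = tb i := by rw [htb]
    rw [e2] at h1
    have e3 : ell + 2 * (lnI c d th K0).dd = ell + 2 := by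
      show ell + 2 * 1 = ell + 2
      ring
    rw [e3] at h1
    exact h1
  · rw [hln1]
    have := htb1 i
    linarith
  · obtain ⟨i, hi⟩ := cellor y hy
    exact cellL i y hi
  · obtain ⟨i, hi⟩ := cellor y hy
    have h1 := S83.RowG.win hrow w00 (mul_nonneg zero_le_one (by linarith : (0 : ℝ) ≤ EE μ s TF)) (cellx i y hi)
    have h2 : |ζ ((c0 : ℤ), y)| ≤ ub21 1 8 * EE μ s (T j) := by
      refine h1.trans ?_
      unfold ub21
      rw [show (1 : ℝ) + (8 + 1) = 2 + 8 by ring]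
      have hlog : 0 ≤ Real.log (2 + 8 : ℝ) := Real.log_nonneg (by norm_num)
      have := mul_le_mul_of_nonneg_left u1 (show 0 ≤ 1 * (1 + Real.log (2 + 8 : ℝ)) by positivity)
      linarith
    obtain ⟨w1, w2⟩ := wt_abs83 ζ c0 y
    exact ⟨(Real.exp_le_exp.2 (neg_le_neg h2)).trans w1, w2.trans (Real.exp_le_exp.2 h2)⟩

end

end Pool.Agent.W_7d29a1_C1.H60
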