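import Pool.Agent.W_7d29a1_C1.KEz24
import Pool.Agent.W_7d29a1_C1.CrT21

/-!
MP_7d29a1_pr, [C1] SHELL (helper24): THE SLAB OF SMALL CROSS RATIO OF `Pcs` (rows `e + T / 32 → e + 6 (T / 32)`) FROM THE FACTS OF THE EXIT
SET. `Pw24`: the fields; `kEw24`.
-/

set_option autoImplicit false

namespace Pool.Agent.W_7d29a1_C1.P24

open MeasureTheory ProbabilityTheory Filter Topology Finset
open Pool.Agent.W_7d29a1_F Pool.Agent.W_7d29a1_h4g Pool.Agent.W_7d29a1_H Pool.Agent.W_7d29a1_HS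
open Pool.Agent.W_7d29a1_C1
open Pool.Agent.W_7d29a1_C1.CR76 Pool.Agent.W_7d29a1_C1.Basin76
open Pool.Agent.W_7d29a1_C1.K91 (wt wt_pos)
open Pool.Agent.W_7d29a1_C1.FarK89 (gr gr_nonneg gr_one_le gr_mono AQ AQ_nonneg)
open Pool.Agent.W_7d29a1_C1.FarW89 (nk nk_nonneg)
open Pool.Agent.W_7d29a1_C1.S12 (Lam12 Lam12_pos)
open Pool.Agent.W_7d29a1_C1.JnC35 (ln35)
open Pool.Agent.W_7d29a1_C1.S83 (RowG sumR83)
open Pool.Agent.W_7d29a1_C1.D31 (En31)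
open Pool.Agent.W_7d29a1_C1.R26P (kf)
open Pool.Agent.W_7d29a1_C1.H60 (kr60 kr60_nonneg kf_nk60 stp60 ex60 exc60)
open Pool.Agent.W_7d29a1_C1.Sh21 (Stp CR_kW21)
open Pool.Agent.W_7d29a1_C1.K97 (mc)

noncomputable section

variable {μ : Measure ℝ} {s c C : ℝ} {n₀ : ℕ} {hh : ℝ} {η : Env} {p : ℕ → ℝ} {M : ℕ}

/-- **`lm`** : from a cell of the row `rg` to one place of the row `rg + m`. -/
theorem lm_24 [IsProbabilityMeasure μ] {U E w u : ℝ} {rg m : ℕ} {x y b b' : ℤ} {En : ℝ}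
    (hk : Real.exp (-(U * En)) ≤ kW μ s η (rg : ℤ) m x y) (hp : ∀ k, k < M → p k = Real.exp (s + hh))
    (hp' : ∀ k, M ≤ k → p k = Real.exp s) (s0 : 0 ≤ sl μ s) (s1 : sl μ s ≤ 1) (hh1 : |hh| * m ≤ 1) (hu : 0 ≤ u) (hU : 0 ≤ U)
    (hE : En ≤ E) (hE1 : 1 ≤ E) (hw : 0 < w) (r1 : η ∈ RowG (rg : ℤ) b w (u * E)) (r2 : η ∈ RowG ((rg + m : ℕ) : ℤ) b' w (u * E))
    (hx : |(x : ℝ) - b| ≤ w) (hy : |(y : ℝ) - b'| ≤ w) :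
    Lam12 μ s hh M rg m ≤ Real.exp ((U + 4 * u + 1) * E) * kf (wt η) p rg m x y := by
  have hE0 : 0 ≤ E := by linarith
  have hp0 : ∀ k, 0 < p k := fun k => by
    rcases lt_or_ge k M with h5 | h5
    · rw [hp k h5]; exact Real.exp_pos _
    · rw [hp' k h5]; exact Real.exp_pos _
  obtain ⟨g1, g2⟩ := nk_kW (μ := μ) (η := η) (n := m) hp hp' s0 s1 hh1 (i := rg) x y
  obtain ⟨-, w1⟩ := wt_row24 r1 hw hu hE0 hx
  obtain ⟨w2, -⟩ := wt_row24 r2 hw hu hE0 hy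
  have hw2 := wt_pos η (rg + m) y
  have n0 : 0 ≤ nk μ s hh η p M rg m x y := nk_nonneg hp0 _ _ _ _
  have L0 := Lam12_pos (μ := μ) (s := s) (h := hh) M rg m
  have k1 : Real.exp (-((U + 1) * E)) ≤ nk μ s hh η p M rg m x y := by
    have h1 := mul_le_mul_of_nonneg_left (hk.trans g2) (Real.exp_pos (-1)).le
    rw [← mul_assoc, ← Real.exp_add, ← Real.exp_add, neg_add_cancel, Real.exp_zero, one_mul] at h1
    refine le_trans (Real.exp_le_exp.2 ?_) h1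
    have := mul_le_mul_of_nonneg_left hE hU
    linarith
  have k2 : Real.exp (-(4 * u * E)) ≤ wt η rg x / wt η (rg + m) y := by
    rw [le_div_iff₀ hw2]
    calc Real.exp (-(4 * u * E)) * wt η (rg + m) y ≤ Real.exp (-(4 * u * E)) * Real.exp (2 * u * E) :=
          mul_le_mul_of_nonneg_left w2 (Real.exp_pos _).le
      _ = Real.exp (-(2 * u * E)) := by
        rw [← Real.exp_add]
        congr 1
        ring
      _ ≤ _ := w1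
  rw [kf_nk60 (μ := μ) (s := s) (h := hh) (M := M)]
  have h1 := mul_le_mul k2 k1 (Real.exp_pos _).le (div_pos (wt_pos η rg x) hw2).le
  rw [← Real.exp_add] at h1
  have h2 := mul_le_mul_of_nonneg_left h1 (Real.exp_pos ((U + 4 * u + 1) * E)).le
  rw [← Real.exp_add] at h2
  have e1 : (U + 4 * u + 1) * E + (-(4 * u * E) + -((U + 1) * E)) = 0 := by ring
  rw [e1, Real.exp_zero] at h2
  calc Lam12 μ s hh M rg m = Lam12 μ s hh M rg m * 1 := (mul_one _).symm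
    _ ≤ Lam12 μ s hh M rg m * (Real.exp ((U + 4 * u + 1) * E) *
        (wt η rg x / wt η (rg + m) y * nk μ s hh η p M rg m x y)) := mul_le_mul_of_nonneg_left h2 L0.le
    _ = _ := by ring

/-- **`crm`.** -/
theorem crm24 [IsProbabilityMeasure μ] {n t m re : ℕ} {a' e2 : ℤ} {ρ U β h G K ε : ℝ} (X : XO24 μ s η ((re : ℤ), a') n t m e2 ρ U β h G K ε)
    (hp : ∀ k, k < M → p k = Real.exp (s + hh)) (hp' : ∀ k, M ≤ k → p k = Real.exp s) (hh1 : |hh| * m ≤ 1)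
    (hε : 0 ≤ ε) {ya yb za zb : ℤ} (hya : ya ∈ Ce24 e2 ρ) (hyb : yb ∈ Ce24 e2 ρ) (hy : ya ≤ yb) (hz : za ≤ zb)
    (h1 : |((za : ℝ) - (a' + sl μ s * n))| ≤ K * wd μ s n) (h2 : |((zb : ℝ) - (a' + sl μ s * n))| ≤ K * wd μ s n) :
    CR (kf (wt η) p (re + t) m) ya yb za zb ≤ 1 + Real.exp 4 * ε := by
  have hp0 : ∀ k, 0 < p k := fun k => by
    rcases lt_or_ge k M with h5 | h5
    · rw [hp k h5]; exact Real.exp_pos _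
    · rw [hp' k h5]; exact Real.exp_pos _
  obtain ⟨θ, hθ⟩ : ∃ θ : ℝ, θ = Real.exp |hh| := ⟨_, rfl⟩
  have ht : 1 ≤ θ := by rw [hθ]; exact Real.one_le_exp (abs_nonneg _)
  have hm : ∀ k, mc θ (p k) (Real.exp s) := fun k => by
    unfold mc
    rw [hθ]
    have a1 := le_abs_self hh
    have a2 := neg_abs_le hh
    have a3 := abs_nonneg hh
    rcases lt_or_ge k M with h5 | h5
    · rw [hp k h5, ← Real.exp_add, ← Real.exp_add]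
      exact ⟨Real.exp_le_exp.2 (by linarith), Real.exp_le_exp.2 (by linarith)⟩
    · rw [hp' k h5, ← Real.exp_add]
      exact ⟨Real.exp_le_exp.2 (by linarith), Real.exp_le_exp.2 (by linarith)⟩
  have nn : ∀ a b, 0 ≤ kW μ s η ((re + t : ℕ) : ℤ) m a b := fun a b => kW_nonneg _ _ _ _ _
  have e1 : ((re + t : ℕ) : ℤ) = (re : ℤ) + t := by push_cast; ring
  have H : CR (kW μ s η ((re + t : ℕ) : ℤ) m) ya yb za zb ≤ 1 + ε := by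
    unfold CR
    refine div_le_of_le_mul₀ (mul_nonneg (nn _ _) (nn _ _)) (by linarith) ?_
    rw [e1]
    exact X.rk ya hya yb hyb za zb h1 h2
  have g := CR_kW21 (p := p) (i := re + t) (n := m) hp0 ht (fun k _ => hm _) hy hz hε H
  refine g.trans ?_
  have hθ4 : θ ^ (4 * m) ≤ Real.exp 4 := by
    rw [hθ, ← Real.exp_nat_mul]
    refine Real.exp_le_exp.2 ?_
    push_cast
    linarith
  have := mul_le_mul_of_nonneg_right hθ4 hε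
  linarith

/-! ### The slab -/

/-- **THE FIELDS OF `Pcs` OF THE SLAB OF SMALL CROSS RATIO.** `rg` = first row of the slab, `H` = right end of the box in this row. -/
structure Pw24 (w : ℕ → ℤ → ℝ) (p : ℕ → ℝ) (lo H : ℤ) (rg ng : ℕ) (Z : Finset ℤ) (a1 a2 da db va vb xm xn ua ub : ℤ) (d0 : Finset ℤ)
    (k0 kg ke : ℤ → ℤ → ℝ) (δ e L Am : ℝ) : Prop where
  Amp : 0 < Am
  kgn : ∀ x z, 0 ≤ kg x z
  g1 : va ≤ vb
  g2 : vb ≤ xm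
  g3 : xm ≤ xn
  g4 : xn ≤ va + ng
  d0s : d0 ⊆ Icc xm xn
  d0d : d0 ⊆ Icc da db
  sm : Stp w p lo H rg ng (Icc lo H) Z kg ke L Am
  lm : ∀ x ∈ Icc va vb, Am ≤ L * ∑ y ∈ d0, kf w p rg ng x y
  xm1 : ∀ z ∈ Z, ∑ x ∈ (Icc lo (H + ng)).filter (· < xm), kf w p rg ng va x * ke x z ≤ e * Am * k0 a1 z
  xm2 : ∀ z ∈ Z, ∑ x ∈ (Icc lo (H + ng)).filter (xn < ·), kf w p rg ng vb x * ke x z ≤ e * Am * k0 a2 z
  crm : CR (kf w p rg ng) va vb xm xn ≤ 1 + δ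
  fe : ∀ x ∈ Icc va vb, ∀ z ∈ Z,
    ∑ v ∈ (Icc lo (H + ng)).filter (fun v => ¬ (ua ≤ v ∧ v ≤ ub)), kf w p rg ng x v * ke v z ≤ e * Am * kg x z

/-- **THE SLAB FROM THE FACTS OF THE EXIT SET.** -/
theorem kEw24 [IsProbabilityMeasure μ] (h : In μ s c C n₀) {c' : ℝ} {P : ℕ} {d U β q u : ℝ} (hd : 0 < d) (hd2 : d ≤ 1 / 2) (hU : 0 ≤ U)
    (hq : 0 ≤ q) (hu : 0 ≤ u) {Pk : ℕ} (hPk : P + 1 ≤ Pk) {c₁ c₂ c₃e c₃g cₖ dₖ c₅ σ : ℝ} (hc₁ : 0 < c₁) (hc₂ : 0 < c₂)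
    (hc₃g : 0 ≤ c₃g) (h3 : c₃g ≤ c₃e) (hcₖ : 0 ≤ cₖ) (hck : cₖ ≤ c₃e) (hc₅ : 0 < c₅)
    (hcc : c₃e + c₁ + c₂ + c₅ ≤ c / 32768) (hσ : 0 < σ) :
    ∃ qe : ℝ, 0 ≤ qe ∧ ∀ Q S Q₀ S₀ Λ ge : ℝ, 0 ≤ Q → 0 ≤ S → 0 ≤ Q₀ → 0 ≤ S₀ → 0 ≤ Λ → 0 ≤ ge →
    ∃ Ku₀ : ℝ, 2 ≤ Ku₀ ∧ ∀ Ku : ℝ, Ku₀ ≤ Ku → ∀ G K : ℝ, 32 * (Ku + 2) ≤ K → ∃ n₂ : ℕ, ∀ T : ℕ, n₂ ≤ T → 32 ∣ T →
    ∀ (κ : Pt) (ζ : Env), FXz24 μ s c c' P d U β q G K 1 u T κ ζ → ∀ (hh : ℝ) (p : ℕ → ℝ) (M : ℕ),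
    (∀ k, k < M → p k = Real.exp (s + hh)) → (∀ k, M ≤ k → p k = Real.exp s) → |hh| * T ≤ 1 →
    ∀ (c0 e : ℕ) (lo H : ℤ) (Z : Finset ℤ) (a1 a2 : ℤ), (e : ℤ) = κ.1 + rE24 T → c0 + T ≤ e →
      |(a1 : ℝ) - ln35 μ s κ c0| ≤ Λ * wd μ s T → |(a2 : ℝ) - ln35 μ s κ c0| ≤ Λ * wd μ s T →
      Pw24 (wt ζ) p lo H (e + T / 32) (5 * (T / 32)) Z a1 a2 (κ.2 + cM24 μ s T) (κ.2 + cM24 μ s T)
        (pt24 μ s ((e : ℤ), κ.2 + cE24 μ s T) (T / 32) - ⌊d * wd μ s (T / 32)⌋)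
        (pt24 μ s ((e : ℤ), κ.2 + cE24 μ s T) (T / 32) + ⌊d * wd μ s (T / 32)⌋)
        (wl24 μ s T κ (e + 6 * (T / 32)) Ku) (wr24 μ s T κ (e + 6 * (T / 32)) Ku)
        (wl24 μ s T κ (e + 6 * (T / 32)) Ku) (wr24 μ s T κ (e + 6 * (T / 32)) Ku) {κ.2 + cM24 μ s T}
        (D31.kap31 Pk dₖ cₖ Q₀ S₀ (EE μ s T) (wd μ s T) (ln35 μ s κ c0) (ln35 μ s κ (e + 6 * (T / 32) + T / 32 + (5 * (T / 32) + 1)))
          (e + 6 * (T / 32) + T / 32 + (5 * (T / 32) + 1) - c0))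
        (kr60 μ s ζ Pk c₁ c₃g (EE μ s T) (wd μ s T) κ (e + 6 * (T / 32) + T / 32 + (5 * (T / 32) + 1)) (Q + qe) (S + σ) (e + T / 32))
        (kr60 μ s ζ Pk c₁ c₃e (EE μ s T) (wd μ s T) κ (e + 6 * (T / 32) + T / 32 + (5 * (T / 32) + 1)) Q S (e + 6 * (T / 32)))
        (Real.exp 4 * Real.exp (-((6 * (T / 32) : ℕ) : ℝ) ^ c')) (Real.exp (-(ge * EE μ s T))) (Real.exp ((U + 4 * u + 1) * EE μ s T))
        (Lam12 μ s hh M (e + T / 32) (5 * (T / 32))) := by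
  have h0 := h.c0
  have hc1 := h.c1
  have s0 := h.sl_pos
  have s1 := h.sl_lt
  have hlog2 := Real.log_nonneg (show (1 : ℝ) ≤ 2 by norm_num)
  have hgr := gr_nonneg Pk (show (0 : ℝ) ≤ 32 * 1 + 32 by norm_num)
  obtain ⟨qe, hqe⟩ : ∃ qe : ℝ, qe = (1 + Real.log 2) ^ P * q * gr Pk (32 * 1 + 32) + 1 := ⟨_, rfl⟩
  have hqe0 : 0 ≤ qe := by rw [hqe]; positivity
  refine ⟨qe, hqe0, fun Q S Q₀ S₀ Λ ge hQ hS hQ₀ hS₀ hΛ hge => ?_⟩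
  obtain ⟨Ku₀, hKu₀⟩ : ∃ Ku₀ : ℝ, Ku₀ = 2 + (ge + 2 * u + (Q + qe) * gr Pk (AQ Pk c₁ (Q + qe) + 2) + (S + σ) + cₖ * (2 + Λ)) / c₅ := ⟨_, rfl⟩
  have hgA := gr_nonneg Pk (show 0 ≤ AQ Pk c₁ (Q + qe) + 2 by have := AQ_nonneg Pk c₁ (Q + qe); linarith)
  have hKu2 : 2 ≤ Ku₀ := by
    rw [hKu₀]
    have : 0 ≤ (ge + 2 * u + (Q + qe) * gr Pk (AQ Pk c₁ (Q + qe) + 2) + (S + σ) + cₖ * (2 + Λ)) / c₅ := by positivity
    linarith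
  have hKe : ge + 2 * u + (Q + qe) * gr Pk (AQ Pk c₁ (Q + qe) + 2) + (S + σ) + cₖ * (2 + Λ) ≤ c₅ * (Ku₀ - 2) := by
    rw [hKu₀, add_sub_cancel_left, mul_div_cancel₀ _ hc₅.ne']
  refine ⟨Ku₀, hKu2, fun Ku hKu G K hK => ?_⟩
  obtain ⟨nw, hnw⟩ := eventually_atTop.1 ((wd_tendsto h).eventually_ge_atTop 4)
  obtain ⟨ns, hns1, hns⟩ := sumR83 h hc₂ hσ
  obtain ⟨nx, hnx⟩ := xv24' h Ku 2
  obtain ⟨ny, hny⟩ := xv24' h 2 Λ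
  refine ⟨32 * (nw + 1) + ns + nx + ny, fun T hT h32 κ ζ F hh p M hp hp' hh1 c0 e lo H Z a1 a2 he hc0 ha1 ha2 => ?_⟩
  obtain ⟨t, ht⟩ : ∃ t : ℕ, t = T / 32 := ⟨_, rfl⟩
  have hTt : T = 32 * t := by rw [ht]; omega
  rw [← ht]
  obtain ⟨rg, hrg⟩ : ∃ rg : ℕ, rg = e + t := ⟨_, rfl⟩
  obtain ⟨re, hre⟩ : ∃ re : ℕ, re = e + 6 * t := ⟨_, rfl⟩
  rw [← hrg, ← hre]
  have hrr : rg + 5 * t = re := by rw [hrg, hre]; ring
  obtain ⟨a, ha⟩ : ∃ a : ℤ, a = κ.2 + cE24 μ s T := ⟨_, rfl⟩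
  obtain ⟨a', ha'⟩ : ∃ a' : ℤ, a' = κ.2 + cM24 μ s T := ⟨_, rfl⟩
  obtain ⟨e1, he1⟩ : ∃ e1 : ℤ, e1 = pt24 μ s ((e : ℤ), a) t := ⟨_, rfl⟩
  obtain ⟨E, hEd⟩ : ∃ E : ℝ, E = EE μ s T := ⟨_, rfl⟩
  obtain ⟨w, hwd⟩ : ∃ w : ℝ, w = wd μ s T := ⟨_, rfl⟩
  have F1 := F e he
  rw [← ht, ← ha, ← ha'] at F1
  have hn1 : 1 ≤ 6 * t := by omega
  have hw4 : 4 ≤ w := by rw [hwd]; exact hnw T (by omega)
  have hwn4 : 4 ≤ wd μ s (6 * t) := hnw _ (by omega)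
  have hC := cmp24 h hn1 (show 6 * t ≤ T by omega) (show T ≤ 16 * (6 * t) by omega) (by linarith only [hwn4])
  have un : Un24 (EE μ s (6 * t)) (wd μ s (6 * t)) E w := by
    rw [hEd, hwd]
    exact ⟨one_le_EE _, by linarith only [hwn4], by rw [← hwd]; linarith only [hw4], hC.e1, hC.e2, hC.a1, hC.a2⟩
  have hE1 := un.E1
  have hw0 : 0 < w := by linarith only [hw4]
  have hhn : ∀ m : ℕ, m ≤ T → |hh| * m ≤ 1 := fun m hm =>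
    (mul_le_mul_of_nonneg_left (by exact_mod_cast hm : (m : ℝ) ≤ T) (abs_nonneg hh)).trans hh1
  have hp0 : ∀ k, 0 < p k := fun k => by
    rcases lt_or_ge k M with h5 | h5
    · rw [hp k h5]; exact Real.exp_pos _
    · rw [hp' k h5]; exact Real.exp_pos _
  have hsum : ∀ (z : ℝ) (J : Finset ℤ), ∑ y ∈ J, Real.exp (-(c₂ * (E / w) * |(y : ℝ) - z|)) ≤ Real.exp (σ * E) := fun z J => by
    rw [hEd, hwd]
    exact hns T (by omega) z J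
  -- places
  have am : |(a' : ℝ) - ln35 μ s κ re| ≤ 1 := by
    have := am_near24 (μ := μ) (s := s) he
    rw [← ht, ← hre, ← ha'] at this
    exact this
  have an : |(a : ℝ) - ln35 μ s κ e| ≤ 1 := by
    have := a_near24 (μ := μ) (s := s) he
    rw [← ha] at this
    exact this
  have e1n : |(e1 : ℝ) - ln35 μ s κ rg| ≤ 2 := by
    have g1 := pt24_near (μ := μ) (s := s) ((e : ℤ), a) t
    rw [← he1] at g1
    have g2 := abs_add_le ((e1 : ℝ) - a - sl μ s * t) ((a : ℝ) - ln35 μ s κ e)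
    rw [hrg, ln35_add]
    have q1 : (e1 : ℝ) - a - sl μ s * t + ((a : ℝ) - ln35 μ s κ e) = (e1 : ℝ) - (ln35 μ s κ e + sl μ s * t) := by ring
    rw [q1] at g2
    have g1' : |(e1 : ℝ) - a - sl μ s * t| ≤ 1 := g1
    linarith only [g2, g1', an]
  obtain ⟨ρ, hρ⟩ : ∃ ρ : ℝ, ρ = d * wd μ s t := ⟨_, rfl⟩
  have ht1 : 1 ≤ t := by omega
  have hρw : ρ ≤ w := by
    have g1 := Pool.Agent.W_7d29a1_C1.U16.wd_le_two h ht1 (show t ≤ T by omega)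
    rw [← hwd] at g1
    have g2 := h.wd_nonneg t
    rw [hρ]
    nlinarith only [hw4, g1, hd, hd2]
  have hρ0 : 0 ≤ ρ := by
    have g2 := h.wd_nonneg t
    rw [hρ]
    positivity
  have vnear : ∀ y : ℤ, y ∈ Ce24 e1 ρ → |(y : ℝ) - ln35 μ s κ rg| ≤ 2 * w := fun y hy => by
    have g1 := mem_Ce24.1 hy
    have g2 := abs_add_le ((y : ℝ) - e1) ((e1 : ℝ) - ln35 μ s κ rg)
    rw [sub_add_sub_cancel] at g2
    linarith only [g2, g1, hρw, e1n, hw4]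
  -- the facts
  have X1 : XO24 μ s ζ ((e : ℤ), a) (6 * t) t (5 * t) e1 ρ U β (c / 2048) (32 * G) K (Real.exp (-((6 * t : ℕ) : ℝ) ^ c')) := by
    have := F1.D.X1
    rw [← he1, ← hρ] at this
    exact this
  have V1 := F1.V1
  have r1 : ζ ∈ RowG ((rg : ℕ) : ℤ) e1 w (u * E) := by
    have := F1.r1
    rw [← he1, ← hwd, ← hEd] at this
    rw [hrg, Nat.cast_add]
    exact this
  have r2 : ζ ∈ RowG ((rg + 5 * t : ℕ) : ℤ) a' w (u * E) := by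
    have := F1.r2
    rw [← hwd, ← hEd] at this
    rw [hrr, hre, Nat.cast_add]
    exact this
  -- envelope
  have lnb : ∀ r : ℕ, ln35 μ s ((e : ℤ), a) r - ln35 μ s κ r = (a : ℝ) - ln35 μ s κ e := fun r => by
    unfold ln35
    push_cast
    ring
  have en : ∀ I J : Finset ℤ, En31 Pk (c / 512 / 64) c₂ E w qe σ (fun x => (x : ℝ) - ln35 μ s κ rg)
      (fun y => (y : ℝ) - ln35 μ s κ (rg + 5 * t)) (nk μ s hh ζ p M rg (5 * t)) I J := fun I J => by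
    rw [hqe]
    exact en_evr24 V1 (by rw [hrg]; push_cast; omega) (by rw [hrg]; push_cast; omega) hp hp' s0.le s1.le (hhn (5 * t) (by omega)) un hq
      (by positivity) zero_le_one (by rw [lnb, one_mul]; linarith only [an, hw4]) hPk hσ.le hsum I J
  have hcc' : c₃e + c₁ + c₂ + c₅ ≤ c / 512 / 64 := by
    rw [div_div]
    norm_num
    exact hcc
  have hc₃e : 0 ≤ c₃e := hc₃g.trans h3
  have hL1 : 1 ≤ Real.exp ((U + 4 * u + 1) * E) := Real.one_le_exp (by positivity)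
  have hAm := Lam12_pos (μ := μ) (s := s) (h := hh) M rg (5 * t)
  rw [← ha, ← ha', ← he1, ← hρ, ← hEd, ← hwd]
  have hfl : (0 : ℤ) ≤ ⌊ρ⌋ := Int.floor_nonneg.2 hρ0
  have hva : (e1 - ⌊ρ⌋ : ℤ) ∈ Ce24 e1 ρ := by
    unfold Ce24
    exact mem_Icc.2 ⟨le_rfl, by omega⟩
  have hvb : (e1 + ⌊ρ⌋ : ℤ) ∈ Ce24 e1 ρ := by
    unfold Ce24
    exact mem_Icc.2 ⟨by omega, le_rfl⟩
  have hvv : e1 - ⌊ρ⌋ ≤ e1 + ⌊ρ⌋ := by omega
  obtain ⟨c3, hc3⟩ : ∃ c3 : ℕ, c3 = re + t + (5 * t + 1) := ⟨_, rfl⟩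
  rw [← hc3]
  obtain ⟨xm, hxm⟩ : ∃ xm : ℤ, xm = wl24 μ s T κ re Ku := ⟨_, rfl⟩
  obtain ⟨xn, hxn⟩ : ∃ xn : ℤ, xn = wr24 μ s T κ re Ku := ⟨_, rfl⟩
  rw [← hxm, ← hxn]
  have hKu0 : 2 ≤ Ku := hKu2.trans hKu
  have hKuw : 4 ≤ Ku * w := by nlinarith only [hKu0, hw4]
  have mw : ∀ v : ℤ, (xm ≤ v ∧ v ≤ xn) ↔ |(v : ℝ) - ln35 μ s κ re| ≤ Ku * w := fun v => by
    rw [hxm, hxn, hwd]
    exact mem_w24
  have am' : xm ≤ a' ∧ a' ≤ xn := (mw a').2 (by linarith only [am, hKuw])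
  have hxmn : xm ≤ xn := am'.1.trans am'.2
  have hxm1 := (mw xm).1 ⟨le_rfl, hxmn⟩
  have hxn1 := (mw xn).1 ⟨hxmn, le_rfl⟩
  have out : ∀ v : ℤ, ¬ (xm ≤ v ∧ v ≤ xn) → Ku * w ≤ |(v : ℝ) - ln35 μ s κ (rg + 5 * t)| := fun v hv => by
    rw [hrr]
    exact (not_le.1 (fun hc => hv ((mw v).2 hc))).le
  have cnt : ∀ z : ℤ, |(z : ℝ) - ln35 μ s κ re| ≤ Ku * w → |(z : ℝ) - (a + sl μ s * ((6 * t : ℕ) : ℝ))| ≤ K * wd μ s (6 * t) :=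
    fun z hz => by
    have e2 : ln35 μ s κ re - (a + sl μ s * ((6 * t : ℕ) : ℝ)) = ln35 μ s κ e - a := by
      rw [hre, ln35_add]
      ring
    have g1 := abs_add_le ((z : ℝ) - ln35 μ s κ re) (ln35 μ s κ re - (a + sl μ s * ((6 * t : ℕ) : ℝ)))
    rw [sub_add_sub_cancel, e2, abs_sub_comm (ln35 μ s κ e) (a : ℝ)] at g1
    have g2 := mul_le_mul_of_nonneg_left un.a1 (show 0 ≤ Ku + 2 by linarith only [hKu0])
    have g3 := mul_le_mul_of_nonneg_right hK (show 0 ≤ wd μ s (6 * t) by linarith only [hwn4])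
    linarith only [g1, g2, g3, hz, an, hw4]
  have wty : ∀ y : ℤ, y ∈ Ce24 e1 ρ → wt ζ rg y ≤ Real.exp (2 * u * E) := fun y hy =>
    (wt_row24 r1 hw0 hu (by linarith only [hE1]) ((mem_Ce24.1 hy).trans hρw)).1
  have cell : ∀ (b y : ℤ), |(b : ℝ) - ln35 μ s κ c0| ≤ Λ * wd μ s T → y ∈ Ce24 e1 ρ → b ≤ y ∧ y ≤ b + ((rg - c0 : ℕ) : ℤ) :=
    fun b y hb hy => by
    have g1 := vnear y hy
    rw [hwd] at g1
    have e2 : c0 + (rg - c0) = rg := by omega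
    refine hny T (by omega) (rg - c0) (by omega) κ c0 b y hb ?_
    rw [e2]
    exact g1
  -- exits, seen from a cell
  have hxc : ∀ (b y : ℤ) (T' : Finset ℤ), |(b : ℝ) - ln35 μ s κ c0| ≤ Λ * wd μ s T → y ∈ Ce24 e1 ρ → (∀ v ∈ T', ¬ (xm ≤ v ∧ v ≤ xn)) → ∀ z : ℤ,
      ∑ v ∈ T', kf (wt ζ) p rg (5 * t) y v * kr60 μ s ζ Pk c₁ c₃e E w κ c3 Q S re v z ≤
        Real.exp (-(ge * E)) * Lam12 μ s hh M rg (5 * t) *
          D31.kap31 Pk dₖ cₖ Q₀ S₀ E w (ln35 μ s κ c0) (ln35 μ s κ c3) (c3 - c0) b z := fun b y T' hb hy hT' z => by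
    obtain ⟨q1, q2⟩ := cell b y hb hy
    have g := exc60 (η := ζ) (M := M) (h := hh) (p := p) (P := Pk) (c := c / 512 / 64) (c₁ := c₁) (c₂ := c₂) (c₃ := c₃e) (c₅ := c₅) (cₖ := cₖ) (dₖ := dₖ)
      (q := qe) (σ := σ) (κ := κ) (r := rg) (n := 5 * t) (c3 := c3) (c0 := c0) (a := b) (x := y) (Q := Q) (S := S) (Q₀ := Q₀) (S₀ := S₀) (U := 2)
      (K := Ku) (Λ := Λ) (u := 2 * u) (I := {y}) (J := T') (T := T') (by linarith only [hE1]) hw0 hc₁ hc₂.le hc₃e hc₅.le hcc' hcₖ hck hQ hQ₀ hS₀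
      (by omega) (by omega) (en _ _) (mem_singleton_self y) (vnear y hy) Subset.rfl (fun v hv => out v (hT' v hv)) (by rw [hwd]; exact hb) q1 q2
      (wty y hy) z
    rw [hrr] at g
    refine g.trans (mul_le_mul_of_nonneg_right (mul_le_mul_of_nonneg_right (Real.exp_le_exp.2 ?_) hAm.le) (D31.kap31_nonneg _ _))
    have g2 := mul_le_mul_of_nonneg_left hKu hc₅.le
    have g3 := mul_le_mul_of_nonneg_right (show ge + 2 * u + (Q + qe) * gr Pk (AQ Pk c₁ (Q + qe) + 2) + (S + σ) + cₖ * (2 + Λ) ≤ c₅ * (Ku - 2) by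
      linarith only [hKe, g2]) (show 0 ≤ E by linarith only [hE1])
    linarith only [g3]
  refine ⟨hAm, fun x z => kr60_nonneg x z, hvv, ?_, hxmn, ?_, singleton_subset_iff.2 (mem_Icc.2 am'), singleton_subset_iff.2 (mem_Icc.2 ⟨le_rfl, le_rfl⟩),
    ?_, ?_, ?_, ?_, ?_, ?_⟩
  · refine (hnx T (by omega) (5 * t) (by omega) κ rg _ _ (by rw [← hwd]; exact vnear _ hvb) ?_).1
    rw [hrr, ← hwd]
    exact hxm1
  · refine (hnx T (by omega) (5 * t) (by omega) κ rg _ _ (by rw [← hwd]; exact vnear _ hva) ?_).2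
    rw [hrr, ← hwd]
    exact hxn1
  · -- sm
    intro x hx z hz
    have g := stp60 (η := ζ) (M := M) (h := hh) (p := p) (P := Pk) (c := c / 512 / 64) (c₁ := c₁) (c₂ := c₂) (c₃ := c₃e) (c₃' := c₃g) (q := qe) (σ := σ)
      (κ := κ) (r := rg) (n := 5 * t) (c3 := c3) (Q := Q) (S := S) (lo := lo) (H := H) (by linarith only [hE1]) hw0 hc₁ hc₂.le hc₃g h3
      (by linarith only [hcc', h3, hc₅]) hQ (by omega) (en _ _) Z x hx z hz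
    rw [hrr] at g
    exact g.trans (mul_le_mul_of_nonneg_right (mul_le_mul_of_nonneg_right hL1 hAm.le) (kr60_nonneg x z))
  · -- lm
    intro x hx
    rw [sum_singleton]
    have hxC : x ∈ Ce24 e1 ρ := hx
    refine lm_24 (b := e1) (b' := a') (w := w) (En := EE μ s (6 * t)) ?_ hp hp' s0.le s1.le (hhn (5 * t) (by omega)) hu hU un.e1 hE1 hw0 r1 r2
      ((mem_Ce24.1 hxC).trans hρw) (by rw [sub_self, abs_zero]; exact hw0.le)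
    have g := X1.loR x hxC a' (by
      have g1 := abs_add_le ((a' : ℝ) - ln35 μ s κ re) (ln35 μ s κ re - (a + sl μ s * ((6 * t : ℕ) : ℝ)))
      have e2 : ln35 μ s κ re - (a + sl μ s * ((6 * t : ℕ) : ℝ)) = ln35 μ s κ e - a := by
        rw [hre, ln35_add]
        ring
      rw [sub_add_sub_cancel, e2, abs_sub_comm (ln35 μ s κ e) (a : ℝ)] at g1
      linarith only [g1, am, an, hwn4])
    have e2 : ((rg : ℕ) : ℤ) = (e : ℤ) + t := by rw [hrg]; push_cast; ring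
    rw [e2]
    exact g
  · -- xm1
    intro z _
    exact hxc a1 _ _ ha1 hva (fun v hv hc => by
      have := (mem_filter.1 hv).2
      omega) z
  · intro z _
    exact hxc a2 _ _ ha2 hvb (fun v hv hc => by
      have := (mem_filter.1 hv).2
      omega) z
  · -- crm
    have g := crm24 X1 hp hp' (hhn (5 * t) (by omega)) (Real.exp_pos _).le hva hvb hvv hxmn (cnt _ hxm1) (cnt _ hxn1)
    rw [← hrg] at g
    exact g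
  · -- fe
    intro x hx z _
    have hxC : x ∈ Ce24 e1 ρ := hx
    have g := ex60 (η := ζ) (M := M) (h := hh) (p := p) (P := Pk) (c := c / 512 / 64) (c₁ := c₁) (c₂ := c₂) (c₃ := c₃e) (c₃' := c₃g) (c₅ := c₅) (q := qe)
      (σ := σ) (κ := κ) (r := rg) (n := 5 * t) (c3 := c3) (x := x) (Q := Q) (S := S) (U := 2) (K := Ku)
      (T := (Icc lo (H + (5 * t : ℕ))).filter (fun v => ¬ (xm ≤ v ∧ v ≤ xn)))
      (J := (Icc lo (H + (5 * t : ℕ))).filter (fun v => ¬ (xm ≤ v ∧ v ≤ xn))) (I := {x})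
      (by linarith only [hE1]) hw0 hc₁ hc₂.le hc₃g h3 hc₅.le (by linarith only [hcc', h3]) hQ (by omega) (en _ _) (mem_singleton_self x)
      (vnear x hxC) Subset.rfl (fun v hv => out v (mem_filter.1 hv).2) z
    rw [hrr] at g
    refine g.trans (mul_le_mul_of_nonneg_right (mul_le_mul_of_nonneg_right (Real.exp_le_exp.2 ?_) hAm.le) (kr60_nonneg x z))
    have g2 := mul_le_mul_of_nonneg_left hKu hc₅.le
    have g4 : 0 ≤ 2 * u + (Q + qe) * gr Pk (AQ Pk c₁ (Q + qe) + 2) + (S + σ) + cₖ * (2 + Λ) := by positivity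
    have g3 := mul_le_mul_of_nonneg_right (show ge ≤ c₅ * (Ku - 2) by
      linarith only [hKe, g2, g4]) (show 0 ≤ E by linarith only [hE1])
    linarith only [g3]

/-! ### Both blocks -/

/-- **THE SLAB AND THE SECOND BLOCK, ONE CHOICE OF `(G, K)`.** -/
theorem kEj24 [IsProbabilityMeasure μ] (h : In μ s c C n₀) {c' : ℝ} {P : ℕ} {d U β q u : ℝ} (hd : 0 < d) (hd2 : d ≤ 1 / 2) (hU : 0 ≤ U)
    (hβ : 0 ≤ β) (hq : 0 ≤ q) (hu : 0 ≤ u) {Pk : ℕ} (hPk : P + 1 ≤ Pk) {c₁ c₂ c₃ c₃e c₃g cₖ dₖ c₅ σ : ℝ} (hc₁ : 0 < c₁) (hc₂ : 0 < c₂)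
    (hc₃g : 0 ≤ c₃g) (h3g : c₃g ≤ c₃e) (h3 : c₃e ≤ c₃) (hcₖ : 0 ≤ cₖ) (hck : cₖ ≤ c₃e) (hc₅ : 0 < c₅) (hcc : c₃e + c₁ + c₂ ≤ c / 131072)
    (hcc' : c₃e + c₁ + c₂ + c₅ ≤ c / 32768) (h35 : c₃ + c₅ ≤ c / 32768) (hσ : 0 < σ) :
    ∃ qe qg : ℝ, 0 ≤ qe ∧ 0 ≤ qg ∧ ∀ Q S Q₀ S₀ Λ ge : ℝ, qe + 2 ≤ Q → 0 ≤ S → 0 ≤ Q₀ → 0 ≤ S₀ → 0 ≤ Λ → 0 ≤ ge →
    ∃ Ku K' Gc Kc : ℝ, 2 ≤ Ku ∧ 2 ≤ K' ∧ 0 ≤ Gc ∧ 0 ≤ Kc ∧ ∀ G K : ℝ, Gc ≤ G → Kc ≤ K → ∃ n₂ : ℕ, ∀ T : ℕ, n₂ ≤ T → 32 ∣ T →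
    ∀ (κ : Pt) (ζ : Env), FXz24 μ s c c' P d U β q G K 1 u T κ ζ → ∀ (hh : ℝ) (p : ℕ → ℝ) (M : ℕ),
    (∀ k, k < M → p k = Real.exp (s + hh)) → (∀ k, M ≤ k → p k = Real.exp s) → |hh| * T ≤ 1 →
    ∀ (c0 e : ℕ) (lo H : ℤ) (Z : Finset ℤ) (a1 a2 b2 zm : ℤ), (e : ℤ) = κ.1 + rE24 T → c0 + T ≤ e →
      |(zm : ℝ) - ln35 μ s κ (e + 6 * (T / 32) + T / 32 + (5 * (T / 32) + 1))| ≤ 2 →
      (∀ v : ℤ, |(v : ℝ) - ln35 μ s κ (e + 6 * (T / 32))| ≤ wd μ s T → lo ≤ v ∧ v ≤ H + (5 * (T / 32) : ℕ)) →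
      (∀ v : ℤ, |(v : ℝ) - ln35 μ s κ (e + 6 * (T / 32) + T / 32)| ≤ 2 * wd μ s T → lo ≤ v ∧ v ≤ H + (5 * (T / 32) : ℕ) + (T / 32 : ℕ)) →
      |(a1 : ℝ) - ln35 μ s κ c0| ≤ Λ * wd μ s T → |(a2 : ℝ) - ln35 μ s κ c0| ≤ Λ * wd μ s T →
      |(b2 : ℝ) - ln35 μ s κ c0| ≤ Λ * wd μ s T →
      Pw24 (wt ζ) p lo H (e + T / 32) (5 * (T / 32)) Z a1 a2 (κ.2 + cM24 μ s T) (κ.2 + cM24 μ s T)
        (pt24 μ s ((e : ℤ), κ.2 + cE24 μ s T) (T / 32) - ⌊d * wd μ s (T / 32)⌋)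
        (pt24 μ s ((e : ℤ), κ.2 + cE24 μ s T) (T / 32) + ⌊d * wd μ s (T / 32)⌋)
        (wl24 μ s T κ (e + 6 * (T / 32)) Ku) (wr24 μ s T κ (e + 6 * (T / 32)) Ku)
        (wl24 μ s T κ (e + 6 * (T / 32)) Ku) (wr24 μ s T κ (e + 6 * (T / 32)) Ku) {κ.2 + cM24 μ s T}
        (D31.kap31 Pk dₖ cₖ Q₀ S₀ (EE μ s T) (wd μ s T) (ln35 μ s κ c0) (ln35 μ s κ (e + 6 * (T / 32) + T / 32 + (5 * (T / 32) + 1)))
          (e + 6 * (T / 32) + T / 32 + (5 * (T / 32) + 1) - c0))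
        (kr60 μ s ζ Pk c₁ c₃g (EE μ s T) (wd μ s T) κ (e + 6 * (T / 32) + T / 32 + (5 * (T / 32) + 1)) (Q + qe + qg) (S + σ + σ)
          (e + T / 32))
        (kr60 μ s ζ Pk c₁ c₃e (EE μ s T) (wd μ s T) κ (e + 6 * (T / 32) + T / 32 + (5 * (T / 32) + 1)) (Q + qe) (S + σ) (e + 6 * (T / 32)))
        (Real.exp 4 * Real.exp (-((6 * (T / 32) : ℕ) : ℝ) ^ c')) (Real.exp (-(ge * EE μ s T))) (Real.exp ((U + 4 * u + 1) * EE μ s T))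
        (Lam12 μ s hh M (e + T / 32) (5 * (T / 32))) ∧
      Py24 (wt ζ) p lo (H + (5 * (T / 32) : ℕ)) (e + 6 * (T / 32)) (T / 32) (5 * (T / 32) + 1) Z a1 b2 (κ.2 + cM24 μ s T) (κ.2 + cM24 μ s T)
        (pt24 μ s (((e + 6 * (T / 32) : ℕ) : ℤ), κ.2 + cM24 μ s T) (T / 32) - ⌊d * wd μ s (T / 32)⌋)
        (pt24 μ s (((e + 6 * (T / 32) : ℕ) : ℤ), κ.2 + cM24 μ s T) (T / 32) + ⌊d * wd μ s (T / 32)⌋)
        (zm - (⌈K' * wd μ s T⌉ + 1)) (zm + (⌈K' * wd μ s T⌉ + 1))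
        (wl24 μ s T κ (e + 6 * (T / 32)) Ku) (wr24 μ s T κ (e + 6 * (T / 32)) Ku)
        (D31.kap31 Pk dₖ cₖ Q₀ S₀ (EE μ s T) (wd μ s T) (ln35 μ s κ c0) (ln35 μ s κ (e + 6 * (T / 32) + T / 32 + (5 * (T / 32) + 1)))
          (e + 6 * (T / 32) + T / 32 + (5 * (T / 32) + 1) - c0))
        (kr60 μ s ζ Pk c₁ c₃e (EE μ s T) (wd μ s T) κ (e + 6 * (T / 32) + T / 32 + (5 * (T / 32) + 1)) (Q + qe) (S + σ) (e + 6 * (T / 32)))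
        (kr60 μ s ζ Pk c₁ c₃ (EE μ s T) (wd μ s T) κ (e + 6 * (T / 32) + T / 32 + (5 * (T / 32) + 1)) Q S (e + 6 * (T / 32) + T / 32))
        (Real.exp 4 * Real.exp (-((6 * (T / 32) : ℕ) : ℝ) ^ c')) (Real.exp (-(ge * EE μ s T))) (Real.exp ((U + 4 * u + 1) * EE μ s T))
        (Lam12 μ s hh M (e + 6 * (T / 32)) (T / 32)) (Lam12 μ s hh M (e + 6 * (T / 32) + T / 32) (5 * (T / 32))) := by
  obtain ⟨q1, hq1, H1⟩ := kEz24 (c' := c') (dₖ := dₖ) h hd hd2 hU hβ hq hu hPk hc₁ hc₂ (hc₃g.trans h3g) h3 hcc hcₖ (hck.trans h3) hc₅ h35 hσ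
  obtain ⟨q2, hq2, H2⟩ := kEw24 (c' := c') (β := β) (dₖ := dₖ) h hd hd2 hU hq hu hPk hc₁ hc₂ hc₃g h3g hcₖ hck hc₅ hcc' hσ
  refine ⟨q1, q2, hq1, hq2, fun Q S Q₀ S₀ Λ ge hQ hS hQ₀ hS₀ hΛ hge => ?_⟩
  obtain ⟨Ku, hKu, H2⟩ := H2 (Q + q1) (S + σ) Q₀ S₀ Λ ge (by linarith) (by linarith) hQ₀ hS₀ hΛ hge
  have H2 := H2 Ku le_rfl
  obtain ⟨K', Gc, Kc, hK', hGc, hKc, H1⟩ := H1 Q S Q₀ S₀ Λ ge Ku hQ hS hQ₀ hS₀ hΛ hge (by linarith)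
  refine ⟨Ku, K', Gc, max Kc (32 * (Ku + 2)), hKu, hK', hGc, hKc.trans (le_max_left _ _), fun G K hG hK => ?_⟩
  obtain ⟨n2, H2⟩ := H2 G K ((le_max_right _ _).trans hK)
  obtain ⟨n1, H1⟩ := H1 G K hG ((le_max_left _ _).trans hK)
  refine ⟨n1 + n2, fun T hT h32 κ ζ F hh p M hp hp' hh1 c0 e lo H Z a1 a2 b2 zm he hc0 hzm B1 B2 ha1 ha2 hb2 => ⟨?_, ?_⟩⟩
  · exact H2 T (by omega) h32 κ ζ F hh p M hp hp' hh1 c0 e lo H Z a1 a2 he hc0 ha1 ha2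
  · exact H1 T (by omega) h32 κ ζ F hh p M hp hp' hh1 c0 e lo _ Z a1 b2 zm he hc0 hzm B1 B2 ha1 hb2

end

end Pool.Agent.W_7d29a1_C1.P24
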