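import Pool.Agent.W_7d29a1_C1.KInI60

/-!
Both halves (MP_7d29a1_pr), attractor route [C1], SHELL: THE LOWER HALVES OF `Pcs` FROM LOWER BOUNDS OF THE NORMALISED KERNELS. (helper44)

Letters of `KInI60`: amplitude `Lam12` of a step, weights of the two rows near the line. `low44` : one step; `lows44` : a sum over a set
which contains one good end; `la44` : two steps through one place (`c0' → e → e + T`); `Lam12_add` : the amplitudes multiply.
-/

set_option autoImplicit false
set_option linter.unusedSectionVars false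

namespace Pool.Agent.W_7d29a1_C1.Lt44

open Finset
open Pool.Agent.W_7d29a1_F Pool.Agent.W_7d29a1_h4g Pool.Agent.W_7d29a1_H Pool.Agent.W_7d29a1_HS
open Pool.Agent.W_7d29a1_C1 Pool.Agent.W_7d29a1_C1.H75 Pool.Agent.W_7d29a1_C1.U16 Pool.Agent.W_7d29a1_C1.FarK89 Pool.Agent.W_7d29a1_C1.FarW89
open Pool.Agent.W_7d29a1_C1.K91 (wt wt_pos)
open Pool.Agent.W_7d29a1_C1.S12 (st12 Lam12 Lam12_pos)
open Pool.Agent.W_7d29a1_C1.H60 (kf_nk60)
open Pool.Agent.W_7d29a1_C1.R26P (kf)

noncomputable section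

variable {μ : MeasureTheory.Measure ℝ} {s h : ℝ} {η : Env} {p : ℕ → ℝ} {M r n m : ℕ} {x y z : ℤ} {E U U₁ U₂ u u' : ℝ}

/-- The amplitudes multiply. -/
theorem Lam12_add : Lam12 μ s h M r (n + m) = Lam12 μ s h M r n * Lam12 μ s h M (r + n) m := by
  unfold Lam12
  rw [← Real.exp_add, bl_add]
  congr 1
  push_cast
  ring

/-- One place of the middle row. -/
theorem nk_ge44 (hp : ∀ k, 0 < p k) : nk μ s h η p M r n x y * nk μ s h η p M (r + n) m y z ≤ nk μ s h η p M r (n + m) x z := by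
  rw [nk_add]
  by_cases hy : y ∈ Icc (z - m) z
  · exact single_le_sum (f := fun v => nk μ s h η p M r n x v * nk μ s h η p M (r + n) m v z)
      (fun v _ => mul_nonneg (nk_nonneg hp _ _ _ _) (nk_nonneg hp _ _ _ _)) hy
  · have h1 : nk μ s h η p M (r + n) m y z = 0 := nk_eq_zero _ _ fun h2 => hy (mem_Icc.2 ⟨by omega, by omega⟩)
    rw [h1, mul_zero]
    exact sum_nonneg fun v _ => mul_nonneg (nk_nonneg hp _ _ _ _) (nk_nonneg hp _ _ _ _)

/-- The composite lower bound. -/
theorem nk_low44 (hp : ∀ k, 0 < p k) (h1 : Real.exp (-(U₁ * E)) ≤ nk μ s h η p M r n x y)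
    (h2 : Real.exp (-(U₂ * E)) ≤ nk μ s h η p M (r + n) m y z) : Real.exp (-((U₁ + U₂) * E)) ≤ nk μ s h η p M r (n + m) x z := by
  refine le_trans ?_ (nk_ge44 (y := y) hp)
  have e : Real.exp (-((U₁ + U₂) * E)) = Real.exp (-(U₁ * E)) * Real.exp (-(U₂ * E)) := by
    rw [← Real.exp_add]
    congr 1
    ring
  rw [e]
  exact mul_le_mul h1 h2 (Real.exp_pos _).le (nk_nonneg hp _ _ _ _)

/-- **ONE STEP.** -/
theorem low44 (wx : Real.exp (-(u * E)) ≤ wt η r x) (wy : wt η (r + n) y ≤ Real.exp (u' * E))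
    (lo : Real.exp (-(U * E)) ≤ nk μ s h η p M r n x y) :
    Lam12 μ s h M r n ≤ Real.exp ((U + u + u') * E) * kf (wt η) p r n x y := by
  rw [kf_nk60 (μ := μ) (s := s) (h := h) (M := M) x y]
  have hL := Lam12_pos (μ := μ) (s := s) (h := h) M r n
  have hy := wt_pos η (r + n) y
  have h1 : Real.exp (-((u + u') * E)) ≤ wt η r x / wt η (r + n) y := by
    rw [le_div_iff₀ hy]
    have e : Real.exp (-(u * E)) = Real.exp (-((u + u') * E)) * Real.exp (u' * E) := by
      rw [← Real.exp_add]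
      congr 1
      ring
    rw [e] at wx
    exact (mul_le_mul_of_nonneg_left wy (Real.exp_pos _).le).trans wx
  have h2 : Real.exp (-((U + u + u') * E)) ≤ wt η r x / wt η (r + n) y * nk μ s h η p M r n x y := by
    have e : Real.exp (-((U + u + u') * E)) = Real.exp (-((u + u') * E)) * Real.exp (-(U * E)) := by
      rw [← Real.exp_add]
      congr 1
      ring
    rw [e]
    exact mul_le_mul h1 lo (Real.exp_pos _).le (div_pos (wt_pos η r x) hy).le
  have h3 := mul_le_mul_of_nonneg_left h2 (mul_nonneg (Real.exp_pos ((U + u + u') * E)).le hL.le)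
  have e1 : Real.exp ((U + u + u') * E) * Lam12 μ s h M r n * Real.exp (-((U + u + u') * E)) = Lam12 μ s h M r n := by
    rw [mul_right_comm, ← Real.exp_add, add_neg_cancel, Real.exp_zero, one_mul]
  rw [e1] at h3
  refine h3.trans (le_of_eq ?_)
  ring

/-- **A SUM WHICH CONTAINS A GOOD END.** -/
theorem lows44 (hp : ∀ k, 0 < p k) {T : Finset ℤ} (hy : y ∈ T) (wx : Real.exp (-(u * E)) ≤ wt η r x)
    (wy : wt η (r + n) y ≤ Real.exp (u' * E)) (lo : Real.exp (-(U * E)) ≤ nk μ s h η p M r n x y) :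
    Lam12 μ s h M r n ≤ Real.exp ((U + u + u') * E) * ∑ v ∈ T, kf (wt η) p r n x v :=
  (low44 wx wy lo).trans (mul_le_mul_of_nonneg_left (single_le_sum (f := fun v => kf (wt η) p r n x v)
    (fun _ _ => ker_nonneg (wt_pos η) hp _ _ _ _) hy) (Real.exp_pos _).le)

/-- **TWO STEPS THROUGH ONE PLACE** (field `la`: `c0' → e → e + T`). -/
theorem la44 (hp : ∀ k, 0 < p k) {T : Finset ℤ} (hz : z ∈ T) (wx : Real.exp (-(u * E)) ≤ wt η r x)
    (wz : wt η (r + (n + m)) z ≤ Real.exp (u' * E)) (h1 : Real.exp (-(U₁ * E)) ≤ nk μ s h η p M r n x y)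
    (h2 : Real.exp (-(U₂ * E)) ≤ nk μ s h η p M (r + n) m y z) :
    Lam12 μ s h M r (n + m) ≤ Real.exp ((U₁ + U₂ + u + u') * E) * ∑ v ∈ T, kf (wt η) p r (n + m) x v :=
  lows44 hp hz wx wz (nk_low44 hp h1 h2)

/-- **The last buffer** (its last step has no weight): kernel of `n + 1` rows from `nk` of `n` rows. -/
theorem lst44 (hp : ∀ k, 0 < p k) {T : Finset ℤ} (hz : z ∈ T) (wx : Real.exp (-(u * E)) ≤ wt η r x)
    (lo : Real.exp (-(U * E)) ≤ st12 (nk μ s h η p M r n) (p (r + n)) x z) :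
    Lam12 μ s h M r n ≤ Real.exp ((U + u) * E) * ∑ v ∈ T, kf (wt η) p r (n + 1) x v := by
  have hL := Lam12_pos (μ := μ) (s := s) (h := h) M r n
  have e1 : kf (wt η) p r (n + 1) x z = Lam12 μ s h M r n * (wt η r x * st12 (nk μ s h η p M r n) (p (r + n)) x z) :=
    Fr47.ker_st47 r n x z
  have h2 : Real.exp (-((U + u) * E)) ≤ wt η r x * st12 (nk μ s h η p M r n) (p (r + n)) x z := by
    have e : Real.exp (-((U + u) * E)) = Real.exp (-(u * E)) * Real.exp (-(U * E)) := by
      rw [← Real.exp_add]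
      congr 1
      ring
    rw [e]
    exact mul_le_mul wx lo (Real.exp_pos _).le (wt_pos η r x).le
  have h3 := mul_le_mul_of_nonneg_left (mul_le_mul_of_nonneg_left h2 hL.le) (Real.exp_pos ((U + u) * E)).le
  have e2 : Real.exp ((U + u) * E) * (Lam12 μ s h M r n * Real.exp (-((U + u) * E))) = Lam12 μ s h M r n := by
    rw [mul_left_comm, ← Real.exp_add, add_neg_cancel, Real.exp_zero, mul_one]
  rw [e2, ← e1] at h3
  exact h3.trans (mul_le_mul_of_nonneg_left (single_le_sum (f := fun v => kf (wt η) p r (n + 1) x v)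
    (fun v _ => ker_nonneg (wt_pos η) hp _ _ _ _) hz) (Real.exp_pos _).le)

end

end Pool.Agent.W_7d29a1_C1.Lt44
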