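import Pool.Agent.W_7d29a1_C1.KEz24
import Pool.Agent.W_7d29a1_C1.KEv60
import Pool.Agent.W_7d29a1_C1.KIl44

/-!
Both halves (MP_7d29a1_pr), attractor route [C1], SHELL: THE INSIDE AND THE TUBE OF THE EXIT IN THE FIELDS OF `Pcs` (helper60).

Rows `r1 → e = r1 + n' → rg = e + t`, kernels `En31` of both parts (`en1` : the inside, `en2` : the tube), walls of the tube off the cell `Cc`
of the row `rg`. `sa60` = field `sa`; `wl60'` = field `wl`. `Pu60` : the fields of `Pcs` of this block; `kSa60` : they follow from the inside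
(`inE48`) and the facts `FXz24` of the exit set, with the lower half and the places of the cell.
-/

set_option autoImplicit false
set_option linter.unusedSectionVars false

namespace Pool.Agent.W_7d29a1_C1.H60

open Finset Filter Topology
open Pool.Agent.W_7d29a1_F Pool.Agent.W_7d29a1_h4g Pool.Agent.W_7d29a1_H Pool.Agent.W_7d29a1_HS
open Pool.Agent.W_7d29a1_C1 Pool.Agent.W_7d29a1_C1.H75 Pool.Agent.W_7d29a1_C1.U16 Pool.Agent.W_7d29a1_C1.FarK89 Pool.Agent.W_7d29a1_C1.FarW89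
open Pool.Agent.W_7d29a1_C1.K91 (wt wt_pos)
open Pool.Agent.W_7d29a1_C1.S12 (st12 Lam12 Lam12_pos)
open Pool.Agent.W_7d29a1_C1.D31 (En31 kap31 kap31_nonneg)
open Pool.Agent.W_7d29a1_C1.JnC35 (ln35)
open Pool.Agent.W_7d29a1_C1.Sh21 (Stp ex_z)
open Pool.Agent.W_7d29a1_C1.R26P (kf)
open Pool.Agent.W_7d29a1_C1.Lt44 (Lam12_add)
open Pool.Agent.W_7d29a1_C1.P24
open Pool.Agent.W_7d29a1_C1.S83 (RowG sumR83)

noncomputable section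

variable {μ : MeasureTheory.Measure ℝ} {s hh : ℝ} {η : Env} {p : ℕ → ℝ} {M P : ℕ}
  {cin ct ch c₁ c₂ c₃ c₃e c₃i c₅ E w Q S qin qe σ : ℝ} {κ : Pt} {lo H : ℤ} {r1 n' t m : ℕ}

/-- **FIELD `sa`.** -/
theorem sa60 (hp : ∀ k, 0 < p k) (hE : 0 < E) (hw : 0 < w) (hc₁ : 0 < c₁) (hc₂ : 0 ≤ c₂) (hc₃i : 0 ≤ c₃i) (h3i : c₃i ≤ c₃e) (h3 : c₃e ≤ c₃)
    (hci : c₃i + c₁ + c₂ ≤ cin) (hct : c₃e + c₁ + c₂ ≤ ct) (hQ : 0 ≤ Q) (hqe : 0 ≤ qe)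
    (en1 : ∀ I J : Finset ℤ, En31 P cin c₂ E w qin σ (fun x => (x : ℝ) - ln35 μ s κ r1) (fun y => (y : ℝ) - ln35 μ s κ (r1 + n'))
      (nk μ s hh η p M r1 n') I J)
    (en2 : ∀ I J : Finset ℤ, En31 P ct c₂ E w qe σ (fun x => (x : ℝ) - ln35 μ s κ (r1 + n')) (fun y => (y : ℝ) - ln35 μ s κ (r1 + n' + t))
      (nk μ s hh η p M (r1 + n') t) I J) (Z : Finset ℤ) :
    Stp (wt η) p lo H r1 (n' + t) (Icc lo H) Z (kr60 μ s η P c₁ c₃i E w κ (r1 + n' + t + (m + 1)) (Q + qe + qin) (S + σ + σ) r1)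
      (kr60 μ s η P c₁ c₃ E w κ (r1 + n' + t + (m + 1)) Q S (r1 + n' + t)) 1 (Lam12 μ s hh M r1 (n' + t)) := by
  have a1 := stp60 (κ := κ) (η := η) (p := p) (M := M) (h := hh) (μ := μ) (s := s) (P := P) (r := r1) (n := n') (c3 := r1 + n' + t + (m + 1)) (lo := lo)
    (H := H) (S := S + σ) (c₃ := c₃e) (c₃' := c₃i) hE hw hc₁ hc₂ hc₃i h3i hci (show 0 ≤ Q + qe by linarith) (by omega) (en1 _ _) Z
  have a2 := stp60 (κ := κ) (η := η) (p := p) (M := M) (h := hh) (μ := μ) (s := s) (P := P) (r := r1 + n') (n := t) (c3 := r1 + n' + t + (m + 1))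
    (lo := lo) (H := H + n') (S := S) (c₃ := c₃) (c₃' := c₃e) hE hw hc₁ hc₂ (hc₃i.trans h3i) h3 hct hQ (by omega) (en2 _ _) Z
  have a3 := a1.comp (wt_pos η) hp Subset.rfl a2 zero_le_one (Lam12_pos _ _ _).le
  rw [mul_one, ← Lam12_add] at a3
  exact a3

/-- **FIELD `wl`.** `Kx` = half width of the window of starts, `Ku` = of the window of the row `e`. -/
theorem wl60' {Kx Ku Kw ge G' : ℝ} {Cc : Finset ℤ} (hp : ∀ k, 0 < p k) (hE : 1 ≤ E) (hw : 0 < w) (hc₁ : 0 < c₁) (hc₂ : 0 ≤ c₂) (hc₃i : 0 ≤ c₃i)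
    (h3i : c₃i ≤ c₃e) (h3 : c₃e ≤ c₃) (hc₅ : 0 ≤ c₅) (hci : c₃i + c₁ + c₂ + c₅ ≤ cin) (hct : c₃e + c₁ + c₂ ≤ ct) (hch : c₃e + c₁ + c₂ ≤ ch)
    (hQ : 0 ≤ Q) (hqe : 0 ≤ qe)
    (en1 : ∀ I J : Finset ℤ, En31 P cin c₂ E w qin σ (fun x => (x : ℝ) - ln35 μ s κ r1) (fun y => (y : ℝ) - ln35 μ s κ (r1 + n'))
      (nk μ s hh η p M r1 n') I J)
    (en2 : ∀ I J : Finset ℤ, En31 P ct c₂ E w qe σ (fun x => (x : ℝ) - ln35 μ s κ (r1 + n')) (fun y => (y : ℝ) - ln35 μ s κ (r1 + n' + t))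
      (nk μ s hh η p M (r1 + n') t) I J)
    (hsum : ∀ (z : ℝ) (J : Finset ℤ), ∑ y ∈ J, Real.exp (-(c₂ * (E / w) * |(y : ℝ) - z|)) ≤ Real.exp (σ * E))
    (wall : ∀ v y : ℤ, |(v : ℝ) - ln35 μ s κ (r1 + n')| ≤ Kw * w → y ∉ Cc → nk μ s hh η p M (r1 + n') t v y ≤
      Real.exp (-(G' * E) - ch * (E / w) * |((y : ℝ) - ln35 μ s κ (r1 + n' + t)) - ((v : ℝ) - ln35 μ s κ (r1 + n'))|))
    (hKu : Ku ≤ Kw) (hge : ge + 2 ≤ c₅ * (Ku - Kx)) (hG' : ge + 2 ≤ G') {x z : ℤ} (hx : x ∈ Icc lo H)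
    (hxK : |(x : ℝ) - ln35 μ s κ r1| ≤ Kx * w) {T : Finset ℤ} (hT : T ⊆ Icc lo (H + (n' + t : ℕ))) (hTC : ∀ y ∈ T, y ∉ Cc) :
    ∑ v ∈ T, kf (wt η) p r1 (n' + t) x v * kr60 μ s η P c₁ c₃ E w κ (r1 + n' + t + (m + 1)) Q S (r1 + n' + t) v z ≤
      Real.exp (-(ge * E)) * Lam12 μ s hh M r1 (n' + t) *
        kr60 μ s η P c₁ c₃i E w κ (r1 + n' + t + (m + 1)) (Q + qe + qin) (S + σ + σ) r1 x z := by
  have hE0 : 0 < E := by linarith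
  have hσ := (en1 ∅ ∅).s0
  obtain ⟨xa, hxa⟩ : ∃ xa : ℤ, xa = ⌈ln35 μ s κ (r1 + n') - Ku * w⌉ := ⟨_, rfl⟩
  obtain ⟨xb, hxb⟩ : ∃ xb : ℤ, xb = ⌊ln35 μ s κ (r1 + n') + Ku * w⌋ := ⟨_, rfl⟩
  have s1 := stp60 (κ := κ) (η := η) (p := p) (M := M) (h := hh) (μ := μ) (s := s) (P := P) (r := r1) (n := n') (c3 := r1 + n' + t + (m + 1)) (lo := lo)
    (H := H) (S := S + σ) (c₃ := c₃e) (c₃' := c₃i) hE0 hw hc₁ hc₂ hc₃i h3i (by linarith) (show 0 ≤ Q + qe by linarith) (by omega) (en1 _ _) {z}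
    x hx z (mem_singleton_self z)
  have s2 := stp60 (κ := κ) (η := η) (p := p) (M := M) (h := hh) (μ := μ) (s := s) (P := P) (r := r1 + n') (n := t) (c3 := r1 + n' + t + (m + 1))
    (lo := lo) (H := H + n') (S := S) (c₃ := c₃) (c₃' := c₃e) hE0 hw hc₁ hc₂ (hc₃i.trans h3i) h3 hct hQ (by omega) (en2 _ _) {z}
  have ex : ∀ T' : Finset ℤ, T' ⊆ Icc lo (H + n') → (∀ v ∈ T', Ku * w ≤ |(v : ℝ) - ln35 μ s κ (r1 + n')|) →
      ∑ v ∈ T', kf (wt η) p r1 n' x v * kr60 μ s η P c₁ c₃e E w κ (r1 + n' + t + (m + 1)) (Q + qe) (S + σ) (r1 + n') v z ≤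
        Real.exp (-((ge + 2) * E)) * Lam12 μ s hh M r1 n' *
          kr60 μ s η P c₁ c₃i E w κ (r1 + n' + t + (m + 1)) (Q + qe + qin) (S + σ + σ) r1 x z := by
    intro T' hT' hK
    refine (ex60 (h := hh) (M := M) (c₃ := c₃e) (c₃' := c₃i) (S := S + σ) (Q := Q + qe) (U := Kx) (K := Ku) hE0 hw hc₁ hc₂ hc₃i h3i hc₅ hci
      (by linarith) (by omega) (en1 _ _) hx hxK hT' hK z).trans ?_
    refine mul_le_mul_of_nonneg_right (mul_le_mul_of_nonneg_right (Real.exp_le_exp.2 ?_) (Lam12_pos _ _ _).le) (kr60_nonneg _ _)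
    have := mul_le_mul_of_nonneg_right hge hE0.le
    linarith
  have key := ex_z (w := wt η) (p := p) (lo := lo) (h := H) (r := r1) (n := n') (m := t) (Z := {z}) (a := x) (xa := xa) (xb := xb) (z := z)
    (k := kr60 μ s η P c₁ c₃i E w κ (r1 + n' + t + (m + 1)) (Q + qe + qin) (S + σ + σ) r1)
    (k' := kr60 μ s η P c₁ c₃e E w κ (r1 + n' + t + (m + 1)) (Q + qe) (S + σ) (r1 + n'))
    (k'' := kr60 μ s η P c₁ c₃ E w κ (r1 + n' + t + (m + 1)) Q S (r1 + n' + t)) (A0 := Lam12 μ s hh M r1 n') (A1 := Lam12 μ s hh M (r1 + n') t)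
    (L1 := 1) (L2 := 1) (e := Real.exp (-((ge + 2) * E))) (e' := Real.exp (-((ge + 2) * E))) (wt_pos η) hp hx (mem_singleton_self z) T
    (by
      refine hT.trans (le_of_eq ?_)
      congr 1
      push_cast
      ring)
    (ex _ (filter_subset _ _) fun v hv => by
      have h1 := (mem_filter.1 hv).2
      rw [hxa, Int.lt_ceil] at h1
      rw [abs_sub_comm]
      exact le_trans (by linarith) (le_abs_self _))
    (ex _ (filter_subset _ _) fun v hv => by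
      have h1 := (mem_filter.1 hv).2
      rw [hxb, Int.floor_lt] at h1
      exact le_trans (by linarith) (le_abs_self _))
    s1 s2 (fun y hy h1 h2 => by
      rw [hxa, Int.ceil_le] at h1
      rw [hxb, Int.le_floor] at h2
      have hyK : |(y : ℝ) - ln35 μ s κ (r1 + n')| ≤ Kw * w := by
        have h3 := mul_le_mul_of_nonneg_right hKu hw.le
        rw [abs_le]
        constructor <;> linarith
      refine (of_24 (P := P) (q := qe) (m := m) (Q := Q) (S := S) (c₃ := c₃) (c₃' := c₃e) wall hsum hp hqe hσ hE0 hw hc₁ hc₂ (hc₃i.trans h3i) h3 hch hQ hyK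
        hTC).trans ?_
      refine mul_le_mul_of_nonneg_right (mul_le_mul_of_nonneg_right (Real.exp_le_exp.2 ?_) (Lam12_pos _ _ _).le) (kr60_nonneg _ _)
      have := mul_le_mul_of_nonneg_right hG' hE0.le
      linarith)
    (fun y _ => kr60_nonneg _ _) (fun y _ => kr60_nonneg _ _) zero_le_one (Lam12_pos _ _ _).le (Real.exp_pos _).le
  rw [← Lam12_add] at key
  refine key.trans (mul_le_mul_of_nonneg_right (mul_le_mul_of_nonneg_right ?_ (Lam12_pos _ _ _).le) (kr60_nonneg _ _))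
  have h1 : Real.exp (-((ge + 2) * E)) = Real.exp (-(ge * E)) * Real.exp (-(2 * E)) := by
    rw [← Real.exp_add]
    congr 1
    ring
  have h2 : Real.exp (-(2 * E)) ≤ 1 / 3 := by
    have h3 : (3 : ℝ) ≤ Real.exp (2 * E) := by
      have := Real.add_one_le_exp (2 * E)
      linarith
    rw [Real.exp_neg, ← one_div]
    exact one_div_le_one_div_of_le (by norm_num) h3
  rw [h1]
  have h4 := mul_le_mul_of_nonneg_left h2 (Real.exp_pos (-(ge * E))).le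
  linarith

/-! ### The fields of `Pcs` -/

/-- **THE FIELDS OF `Pcs` OF THE INSIDE AND THE TUBE.** `r1` = end of the first buffer, `na` = rows up to the cell of the exit. -/
structure Pu60 (w : ℕ → ℤ → ℝ) (p : ℕ → ℝ) (lo H : ℤ) (r1 na : ℕ) (Z : Finset ℤ) (xa xb va vb : ℤ) (k1 kg : ℤ → ℤ → ℝ) (e Aa : ℝ) :
    Prop where
  Aap : 0 < Aa
  k1n : ∀ x z, 0 ≤ k1 x z
  kgn : ∀ x z, 0 ≤ kg x z
  sa : Stp w p lo H r1 na (Icc lo H) Z k1 kg 1 Aa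
  wl : ∀ x ∈ Icc lo H, xa ≤ x → x ≤ xb → ∀ z ∈ Z,
    ∑ v ∈ (Icc lo (H + na)).filter (fun v => ¬ (va ≤ v ∧ v ≤ vb)), kf w p r1 na x v * kg v z ≤ e * Aa * k1 x z
  g1 : va ≤ vb

/-- **THE INSIDE AND THE TUBE FROM THE FACTS OF A SUCCESS.** `e = r1 + n'` = row of the exit, `a = κ.2 + cE24` = its start, `e₁` = the end of its
tube; `lowT` : the lower half goes on to `e₁` from any earlier row `r0`; `wte` : weights of the cell; `cell` : its place seen from the row `c0`. -/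
theorem kSa60 [MeasureTheory.IsProbabilityMeasure μ] {c C : ℝ} {n₀ : ℕ} (h : In μ s c C n₀) {c' : ℝ} {Px : ℕ} {d U β q u : ℝ} (hd : 0 < d)
    (hd2 : d ≤ 1 / 2) (hU : 0 ≤ U) (hβ : 0 ≤ β) (hq : 0 ≤ q) (hu : 0 ≤ u) {Pk : ℕ} (hPk : Px + 1 ≤ Pk) (hc₁ : 0 < c₁) (hc₂ : 0 < c₂)
    (hc₃i : 0 ≤ c₃i) (h3i : c₃i ≤ c₃e) (h3 : c₃e ≤ c₃) (hcc : c₃e + c₁ + c₂ ≤ c / 131072) (hci : c₃i + c₁ + c₂ + c₅ ≤ cin)
    (hc₅ : 0 < c₅) (hσ : 0 < σ) :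
    ∃ qe : ℝ, 0 ≤ qe ∧ ∀ Q S Λ ge Kx : ℝ, 0 ≤ Q → 0 ≤ ge → 0 ≤ Kx → ∃ Gc : ℝ, 0 ≤ Gc ∧ ∀ G K : ℝ, Gc ≤ G →
    ∃ n₂ : ℕ, ∀ T : ℕ, n₂ ≤ T → 32 ∣ T → ∀ (κ : Pt) (ζ : Env), FXz24 μ s c c' Px d U β q G K 1 u T κ ζ →
    ∀ (hh : ℝ) (p : ℕ → ℝ) (M : ℕ), (∀ k, k < M → p k = Real.exp (s + hh)) → (∀ k, M ≤ k → p k = Real.exp s) → |hh| * T ≤ 1 →
    ∀ (r1 n' c3 : ℕ) (lo H : ℤ) (Z : Finset ℤ) (xa xb : ℤ) (qin : ℝ), ((r1 + n' : ℕ) : ℤ) = κ.1 + rE24 T → r1 + n' + T / 32 + 1 ≤ c3 →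
      (∀ I J : Finset ℤ, En31 Pk cin c₂ (EE μ s T) (wd μ s T) qin σ (fun x => (x : ℝ) - ln35 μ s κ r1)
        (fun y => (y : ℝ) - ln35 μ s κ (r1 + n')) (nk μ s hh ζ p M r1 n') I J) →
      (∀ x : ℤ, xa ≤ x → x ≤ xb → |(x : ℝ) - ln35 μ s κ r1| ≤ Kx * wd μ s T) →
      ∃ e₁ : ℤ, e₁ = pt24 μ s (((r1 + n' : ℕ) : ℤ), κ.2 + cE24 μ s T) (T / 32) ∧
        Pu60 (wt ζ) p lo H r1 (n' + T / 32) Z xa xb (e₁ - ⌊d * wd μ s (T / 32)⌋) (e₁ + ⌊d * wd μ s (T / 32)⌋)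
          (kr60 μ s ζ Pk c₁ c₃i (EE μ s T) (wd μ s T) κ c3 (Q + qe + qin) (S + σ + σ) r1)
          (kr60 μ s ζ Pk c₁ c₃ (EE μ s T) (wd μ s T) κ c3 Q S (r1 + n' + T / 32)) (Real.exp (-(ge * EE μ s T)))
          (Lam12 μ s hh M r1 (n' + T / 32)) ∧
        (∀ (r0 n0 : ℕ) (x : ℤ) (Ui : ℝ), r0 + n0 = r1 + n' → Real.exp (-(Ui * EE μ s T)) ≤ nk μ s hh ζ p M r0 n0 x (κ.2 + cE24 μ s T) →
          Real.exp (-((Ui + (U + 1)) * EE μ s T)) ≤ nk μ s hh ζ p M r0 (n0 + T / 32) x e₁) ∧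
        (∀ y : ℤ, e₁ - ⌊d * wd μ s (T / 32)⌋ ≤ y → y ≤ e₁ + ⌊d * wd μ s (T / 32)⌋ → |(y : ℝ) - ln35 μ s κ (r1 + n' + T / 32)| ≤ 2 * wd μ s T ∧
          wt ζ (r1 + n' + T / 32) y ≤ Real.exp (2 * u * EE μ s T) ∧ Real.exp (-(2 * u * EE μ s T)) ≤ wt ζ (r1 + n' + T / 32) y) ∧
        (∀ (c0 N : ℕ) (b : ℤ), |(b : ℝ) - ln35 μ s κ c0| ≤ Λ * wd μ s T → c0 + N = r1 + n' + T / 32 → T ≤ 8 * N →
          b ≤ e₁ - ⌊d * wd μ s (T / 32)⌋ ∧ e₁ + ⌊d * wd μ s (T / 32)⌋ ≤ b + N) := by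
  have h0 := h.c0
  have s0 := h.sl_pos
  have s1 := h.sl_lt
  have hlog2 := Real.log_nonneg (show (1 : ℝ) ≤ 2 by norm_num)
  have hgr := gr_nonneg Pk (show (0 : ℝ) ≤ 32 * 1 + 32 by norm_num)
  obtain ⟨qe, hqe⟩ : ∃ qe : ℝ, qe = (1 + Real.log 2) ^ Px * q * gr Pk (32 * 1 + 32) + 1 := ⟨_, rfl⟩
  have hqe0 : 0 ≤ qe := by rw [hqe]; positivity
  refine ⟨qe, hqe0, fun Q S Λ ge Kx hQ hge hKx => ?_⟩
  obtain ⟨Ku, hKu⟩ : ∃ Ku : ℝ, Ku = Kx + (ge + 2) / c₅ := ⟨_, rfl⟩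
  have hKu0 : 0 ≤ Ku := by rw [hKu]; positivity
  have hKu1 : ge + 2 ≤ c₅ * (Ku - Kx) := by
    rw [hKu, add_sub_cancel_left, mul_div_cancel₀ _ hc₅.ne']
  refine ⟨β * (Ku + 1) + 1 + (ge + 2), by positivity, fun G K hG => ?_⟩
  obtain ⟨nw, hnw⟩ := eventually_atTop.1 ((wd_tendsto h).eventually_ge_atTop 4)
  obtain ⟨ns, hns1, hns⟩ := sumR83 h hc₂ hσ
  obtain ⟨nx, hnx⟩ := xv24' h 2 Λ
  refine ⟨32 * (nw + 1) + ns + nx, fun T hT h32 κ ζ F hh p M hp hp' hh1 r1 n' c3 lo H Z xa xb qin he hc3 en1 hx => ?_⟩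
  obtain ⟨t, ht⟩ : ∃ t : ℕ, t = T / 32 := ⟨_, rfl⟩
  have hTt : T = 32 * t := by rw [ht]; omega
  rw [← ht] at hc3 ⊢
  obtain ⟨m, hm⟩ : ∃ m : ℕ, c3 = r1 + n' + t + (m + 1) := ⟨c3 - (r1 + n' + t) - 1, by omega⟩
  obtain ⟨a, ha⟩ : ∃ a : ℤ, a = κ.2 + cE24 μ s T := ⟨_, rfl⟩
  obtain ⟨e₁, he₁⟩ : ∃ e₁ : ℤ, e₁ = pt24 μ s (((r1 + n' : ℕ) : ℤ), a) t := ⟨_, rfl⟩
  obtain ⟨E, hEd⟩ : ∃ E : ℝ, E = EE μ s T := ⟨_, rfl⟩
  obtain ⟨w, hwd⟩ : ∃ w : ℝ, w = wd μ s T := ⟨_, rfl⟩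
  have F1 := F (r1 + n') he
  rw [← ht, ← ha] at F1
  have hn1 : 1 ≤ 6 * t := by omega
  have ht1 : 1 ≤ t := by omega
  have hw4 : 4 ≤ w := by rw [hwd]; exact hnw T (by omega)
  have hwn4 : 4 ≤ wd μ s (6 * t) := hnw _ (by omega)
  have hC := cmp24 h hn1 (show 6 * t ≤ T by omega) (show T ≤ 16 * (6 * t) by omega) (by linarith only [hwn4])
  have un : Un24 (EE μ s (6 * t)) (wd μ s (6 * t)) E w := by
    rw [hEd, hwd]
    exact ⟨one_le_EE _, by linarith only [hwn4], by rw [← hwd]; linarith only [hw4], hC.e1, hC.e2, hC.a1, hC.a2⟩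
  have hE1 := un.E1
  have hw0 : 0 < w := by linarith only [hw4]
  have hhn : ∀ k : ℕ, k ≤ T → |hh| * k ≤ 1 := fun k hk =>
    (mul_le_mul_of_nonneg_left (by exact_mod_cast hk : (k : ℝ) ≤ T) (abs_nonneg hh)).trans hh1
  have hp0 : ∀ k, 0 < p k := fun k => by
    rcases lt_or_ge k M with h5 | h5
    · rw [hp k h5]; exact Real.exp_pos _
    · rw [hp' k h5]; exact Real.exp_pos _
  have hsum : ∀ (z : ℝ) (J : Finset ℤ), ∑ y ∈ J, Real.exp (-(c₂ * (E / w) * |(y : ℝ) - z|)) ≤ Real.exp (σ * E) := fun z J => by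
    rw [hEd, hwd]
    exact hns T (by omega) z J
  -- places
  have an : |(a : ℝ) - ln35 μ s κ (r1 + n')| ≤ 1 := by
    rw [ha]
    exact a_near24 he
  have en : |(e₁ : ℝ) - ln35 μ s κ (r1 + n' + t)| ≤ 2 := by
    have g1 := pt24_near (μ := μ) (s := s) (((r1 + n' : ℕ) : ℤ), a) t
    rw [← he₁] at g1
    have g1' : |(e₁ : ℝ) - a - sl μ s * t| ≤ 1 := g1
    have g2 := abs_add_le ((e₁ : ℝ) - a - sl μ s * t) ((a : ℝ) - ln35 μ s κ (r1 + n'))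
    have e1 : (e₁ : ℝ) - a - sl μ s * t + ((a : ℝ) - ln35 μ s κ (r1 + n')) = (e₁ : ℝ) - (ln35 μ s κ (r1 + n') + sl μ s * t) := by ring
    rw [e1] at g2
    rw [ln35_add]
    linarith only [g2, g1', an]
  obtain ⟨ρ, hρ⟩ : ∃ ρ : ℝ, ρ = d * wd μ s t := ⟨_, rfl⟩
  have hρw : ρ ≤ w := by
    have g1 := Pool.Agent.W_7d29a1_C1.U16.wd_le_two h ht1 (show t ≤ T by omega)
    rw [← hwd] at g1
    have g2 := h.wd_nonneg t
    rw [hρ]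
    nlinarith only [hw4, g1, hd, hd2]
  have hρ0 : 0 ≤ ρ := by
    have g2 := h.wd_nonneg t
    rw [hρ]
    positivity
  have hfl : (0 : ℤ) ≤ ⌊ρ⌋ := Int.floor_nonneg.2 hρ0
  have cellI : ∀ y : ℤ, y ∈ Ce24 e₁ ρ ↔ (e₁ - ⌊ρ⌋ ≤ y ∧ y ≤ e₁ + ⌊ρ⌋) := fun y => by
    unfold Ce24
    rw [mem_Icc]
  have ynear : ∀ y : ℤ, y ∈ Ce24 e₁ ρ → |(y : ℝ) - ln35 μ s κ (r1 + n' + t)| ≤ 2 * w := fun y hy => by
    have g1 := mem_Ce24.1 hy
    have g2 := abs_add_le ((y : ℝ) - e₁) ((e₁ : ℝ) - ln35 μ s κ (r1 + n' + t))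
    rw [sub_add_sub_cancel] at g2
    linarith only [g2, g1, hρw, en, hw4]
  -- the facts of the exit
  have X1 : XO24 μ s ζ (((r1 + n' : ℕ) : ℤ), a) (6 * t) t (5 * t) e₁ ρ U β (c / 2048) (32 * G) K (Real.exp (-((6 * t : ℕ) : ℝ) ^ c')) := by
    have := F1.D.X1
    rw [← he₁, ← hρ] at this
    exact this
  have V1 : ζ ∈ EVR24 μ s (c / 512) (6 * t) Px ((r1 + n' : ℕ) : ℤ) (((r1 + n' : ℕ) : ℤ) + (6 * t : ℕ)) (((r1 + n' : ℕ) : ℤ), a) q := F1.V1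
  have rr : ζ ∈ RowG ((r1 + n' + t : ℕ) : ℤ) e₁ w (u * E) := by
    have := F1.r1
    rw [← he₁, ← hwd, ← hEd] at this
    rw [Nat.cast_add (r1 + n') t]
    exact this
  have lnb : ∀ r : ℕ, ln35 μ s (((r1 + n' : ℕ) : ℤ), a) r - ln35 μ s κ r = (a : ℝ) - ln35 μ s κ (r1 + n') := fun r => by
    unfold ln35
    push_cast
    ring
  have en2 : ∀ I J : Finset ℤ, En31 Pk (c / 512 / 64) c₂ E w qe σ (fun x => (x : ℝ) - ln35 μ s κ (r1 + n'))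
      (fun y => (y : ℝ) - ln35 μ s κ (r1 + n' + t)) (nk μ s hh ζ p M (r1 + n') t) I J := fun I J => by
    rw [hqe]
    exact en_evr24 V1 le_rfl (by push_cast; omega) hp hp' s0.le s1.le (hhn t (by omega)) un hq (by positivity) zero_le_one
      (by rw [lnb, one_mul]; linarith only [an, hw4]) hPk hσ.le hsum I J
  rw [← hEd, ← hwd] at en1
  have hdiv : c / 131072 ≤ c / 512 / 64 := by
    rw [div_div]
    exact div_le_div_of_nonneg_left h0.le (by norm_num) (by norm_num)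
  have hLp := Lam12_pos (μ := μ) (s := s) (h := hh) M r1 (n' + t)
  rw [← ha, ← he₁, ← hρ, ← hEd, ← hwd, hm]
  refine ⟨e₁, rfl, ⟨hLp, fun x z => kr60_nonneg x z, fun x z => kr60_nonneg x z, ?_, ?_, by omega⟩, ?_, ?_, ?_⟩
  · -- sa
    exact sa60 hp0 (by linarith only [hE1]) hw0 hc₁ hc₂.le hc₃i h3i h3 (by linarith only [hci, hc₅]) (hcc.trans hdiv) hQ hqe0 en1 en2 Z
  · -- wl
    intro x hxI hx1 hx2 z _
    have hxK := hx x hx1 hx2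
    rw [← hwd] at hxK
    exact wl60' (Kx := Kx) (Ku := Ku) (Kw := Ku) (G' := G - β * (Ku + 1) - 1) (ch := c / 2048 / 64) (Cc := Ce24 e₁ ρ) hp0 hE1 hw0 hc₁ hc₂.le hc₃i
      h3i h3 hc₅.le hci (hcc.trans hdiv) (by
        refine hcc.trans (le_of_eq ?_)
        rw [div_div]
        norm_num) hQ hqe0 en1 en2 hsum
      (fun v y hv hy => ofn24 X1 hp hp' s0.le s1.le (hhn t (by omega)) un hβ (by positivity) hKu0 (by linarith only [hG, hge]) (by linarith only [an, hw4])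
        hv hy) le_rfl hKu1 (by linarith only [hG]) hxI hxK (filter_subset _ _)
      (fun y hy hc => (mem_filter.1 hy).2 ((cellI y).1 hc))
  · -- the lower half
    intro r0 n0 x Ui hr0 hlo
    have g1 : Real.exp (-((U + 1) * E)) ≤ nk μ s hh ζ p M (r0 + n0) t a e₁ := by
      rw [hEd, hr0]
      exact klo60 h (show 6 * t ≤ T by omega) hp hp' (hhn t (by omega)) hU X1.loF
    exact Lt44.nk_low44 hp0 hlo g1
  · intro y hy1 hy2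
    have hy := (cellI y).2 ⟨hy1, hy2⟩
    exact ⟨ynear y hy, wt_row24 rr hw0 hu (by linarith only [hE1]) ((mem_Ce24.1 hy).trans hρw)⟩
  · intro c0 N b hb hN hN8
    have q1 := hnx T (by omega) N hN8 κ c0 b (e₁ - ⌊ρ⌋) (by rw [← hwd]; exact hb) (by
      rw [hN, ← hwd]
      exact ynear _ ((cellI _).2 ⟨le_rfl, by omega⟩))
    have q2 := hnx T (by omega) N hN8 κ c0 b (e₁ + ⌊ρ⌋) (by rw [← hwd]; exact hb) (by
      rw [hN, ← hwd]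
      exact ynear _ ((cellI _).2 ⟨by omega, le_rfl⟩))
    exact ⟨q1.1, q2.2⟩

end

end Pool.Agent.W_7d29a1_C1.H60
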