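import Pool.Agent.W_7d29a1_C1.KBv21
import Pool.Agent.W_7d29a1_C1.KSa60
import Pool.Agent.W_7d29a1_C1.KEw24

/-!
Both halves (MP_7d29a1_pr), attractor route [C1]: `Pcs` AND `KSep` FROM THE FOUR BLOCKS. (helper73)
-/

set_option autoImplicit false

namespace Pool.Agent.W_7d29a1_C1.Sb73

open Finset Pool.Agent.W_7d29a1_C1.CR76 Pool.Agent.W_7d29a1_C1.K91P Pool.Agent.W_7d29a1_C1.R26P Pool.Agent.W_7d29a1_C1.F74
  Pool.Agent.W_7d29a1_C1.Sh21 Pool.Agent.W_7d29a1_C1.H60 Pool.Agent.W_7d29a1_C1.P24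

noncomputable section

variable {w : ℕ → ℤ → ℝ} {p : ℕ → ℝ} {lo h : ℤ} {c0 n1 na ng nb n3 : ℕ} {a1 b1 a2 b2 xa xb s da db ya yb za zb va vb xm xn ua ub : ℤ}
  {d0 : Finset ℤ} {kc k0 k1 kg ke k2 : ℤ → ℤ → ℝ} {δ δB δW δY e eB eU eW eY es L LB LW LY L0 A0 Aa Am A2 A3 : ℝ}

theorem pcs73 (hw : ∀ k y, 0 < w k y) (hp : ∀ k, 0 < p k)
    (b : Pb21 w p lo h c0 n1 a1 b1 a2 b2 xa xb s (Icc lo (h + n1 + na + ng + nb + n3)) kc k0 k1 δB eB es LB L0 A0)
    (u : Pu60 w p lo (h + n1) (c0 + n1) na (Icc lo (h + n1 + na + ng + nb + n3)) xa xb va vb k1 kg eU Aa)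
    (W : Pw24 w p lo (h + n1 + na) (c0 + n1 + na) ng (Icc lo (h + n1 + na + ng + nb + n3)) a1 a2 da db va vb xm xn ua ub d0 kc kg ke
      δW eW LW Am)
    (Y : Py24 w p lo (h + n1 + na + ng) (c0 + n1 + na + ng) nb n3 (Icc lo (h + n1 + na + ng + nb + n3)) a1 b2 da db ya yb za zb ua ub
      kc ke k2 δY eY LY A2 A3)
    (l0a : ∀ x ∈ cl2 a1 b1 a2 b2, A0 * Aa ≤ L ^ 2 * ∑ y ∈ Icc va vb, kf w p c0 (n1 + na) x y) (g0 : a1 ≤ va)
    (g5 : vb ≤ a2 + (n1 + na : ℕ)) (A0p : 0 < A0) (δ0 : 0 ≤ δ) (e0 : 0 ≤ e) (L1 : 1 ≤ L) (L01 : 1 ≤ L0) (dB : δB ≤ δ) (dW : δW ≤ δ)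
    (dY : δY ≤ δ) (heB : eB ≤ e) (heU : eU ≤ e) (heW : eW ≤ e) (heY : eY ≤ e) (hLB : LB ≤ L) (hLW : LW ≤ L) (hLY : LY ≤ L) :
    Pcs w p lo h c0 n1 na ng nb n3 a1 b1 a2 b2 xa xb da db ya yb za zb va vb xm xn ua ub d0 kc k0 k1 kg ke k2 δ e L L0 A0 Aa Am A2 A3 ∧
      KSep w p lo h c0 n1 a1 a2 s (Icc lo (h + n1 + na + ng + nb + n3)) kc k1 es A0 := by
  obtain ⟨Z, hZ⟩ : ∃ Z : Finset ℤ, Z = Icc lo (h + n1 + na + ng + nb + n3) := ⟨_, rfl⟩
  rw [← hZ] at b u W Y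
  have geo := b.g
  have h1 := geo.h1
  have h2 := geo.h2
  have h3 := geo.h3
  have ca1 : a1 ∈ cl2 a1 b1 a2 b2 := by
    unfold cl2
    simp only [mem_union, mem_Icc]
    omega
  have ca2 : a2 ∈ cl2 a1 b1 a2 b2 := by
    unfold cl2
    simp only [mem_union, mem_Icc]
    omega
  have cb2 : b2 ∈ cl2 a1 b1 a2 b2 := by
    unfold cl2
    simp only [mem_union, mem_Icc]
    omega
  have sm : ∀ {a b' C X K : ℝ}, a ≤ b' → 0 ≤ C → 0 ≤ K → X ≤ a * C * K → X ≤ b' * C * K := fun hab hC hK hX =>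
    hX.trans (mul_le_mul_of_nonneg_right (mul_le_mul_of_nonneg_right hab hC) hK)
  have sl : ∀ {a b' C S : ℝ}, a ≤ b' → 0 ≤ S → C ≤ a * S → C ≤ b' * S := fun hab hS hX =>
    hX.trans (mul_le_mul_of_nonneg_right hab hS)
  have kn : ∀ (r n : ℕ) (x y : ℤ), 0 ≤ kf w p r n x y := fun r n x y => kf_nonneg hw hp r n x y
  have sub := geo.sub
  rw [← hZ]
  refine ⟨?_, b.sp⟩
  exact
    { g := geo
      δ0 := δ0
      e0 := e0
      L1 := L1
      L01 := L01
      A0p := A0p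
      Aap := u.Aap
      Amp := W.Amp
      A2p := Y.A2p
      A3p := Y.A3p
      kcn := b.kcn
      kck := b.kck
      k0n := b.k0n
      k1n := b.k1n
      kgn := fun x _ z => u.kgn x z
      ken := fun x _ z => Y.ken x z
      k2n := fun x _ z => Y.k2n x z
      c1 := b.c1.trans (by linarith)
      c2 := b.c2.trans (by linarith)
      q1 := b.q1
      q2 := b.q2
      s0 := by
        rw [← hZ]
        exact fun x hx z hz => sm hLB A0p.le (b.k0n x hx z) (b.s0 x hx z hz)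
      s0c := by
        rw [← hZ]
        exact fun x hx z hz => sm hLB A0p.le (b.kcn x hx z) (b.s0c x hx z hz)
      xl := by
        rw [← hZ]
        exact fun a ha z hz => sm heB A0p.le (b.kcn a ha z) (b.xl a ha z hz)
      xr := by
        rw [← hZ]
        exact fun a ha z hz => sm heB A0p.le (b.kcn a ha z) (b.xr a ha z hz)
      l0a := l0a
      sa := by
        rw [← hZ]
        exact fun x hx z hz => sm L1 u.Aap.le (b.k1n x hx z) (u.sa x hx z hz)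
      wl := by
        rw [← hZ]
        exact fun x hx h5 h6 z hz => sm heU u.Aap.le (b.k1n x hx z) (u.wl x hx h5 h6 z hz)
      g0 := g0
      g1 := W.g1
      g2 := W.g2
      g3 := W.g3
      g4 := W.g4
      g5 := g5
      d0s := W.d0s
      d0d := W.d0d
      sm := by
        rw [← hZ]
        exact fun x hx z hz => sm hLW W.Amp.le (W.kgn x z) (W.sm x hx z hz)
      lm := fun x hx => sl hLW (sum_nonneg fun y _ => kn _ _ _ _) (W.lm x hx)
      xm1 := by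
        rw [← hZ]
        exact fun z hz => sm heW W.Amp.le (b.kcn a1 ca1 z) (W.xm1 z hz)
      xm2 := by
        rw [← hZ]
        exact fun z hz => sm heW W.Amp.le (b.kcn a2 ca2 z) (W.xm2 z hz)
      crm := W.crm.trans (by linarith)
      fe := by
        rw [← hZ]
        exact fun x hx z hz => sm heW W.Amp.le (W.kgn x z) (W.fe x hx z hz)
      gd := Y.gd
      gy := Y.gy
      gx := Y.gx
      s2 := by
        rw [← hZ]
        exact fun x hx z hz => sm hLY Y.A2p.le (Y.ken x z) (Y.s2 x hx z hz)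
      l2 := fun v hv => sl hLY (sum_nonneg fun y _ => kn _ _ _ _) (Y.l2 v hv)
      of := by
        rw [← hZ]
        exact fun v hv h5 h6 z hz => sm heY Y.A2p.le (Y.ken v z) (Y.of v hv h5 h6 z hz)
      s3 := by
        rw [← hZ]
        exact fun y hy z hz => sm hLY Y.A3p.le (Y.k2n y z) (Y.s3 y hy z hz)
      l3 := fun y hy => sl hLY (kn _ _ _ _) (Y.l3 y hy)
      cx := Y.cx.trans (by linarith)
      yl := by
        rw [← hZ]
        exact fun z hz h5 => sm heY Y.A3p.le (b.kcn a1 ca1 z) (Y.yl z hz h5)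
      yr := by
        rw [← hZ]
        exact fun z hz h5 => sm heY Y.A3p.le (b.kcn b2 cb2 z) (Y.yr z hz h5) }

end

end Pool.Agent.W_7d29a1_C1.Sb73
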