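import Pool.Agent.W_7d29a1_C1.KEw24
import Pool.Agent.W_7d29a1_C1.KSa60

/-!
MP_7d29a1_pr, [C1] SHELL, SIDE F (helper24): THE THREE BLOCKS OF `Pcs` BEHIND THE FIRST BUFFER, ONE SET OF LETTERS, AT ONE PLACE. All rates are
`c / 1048576`, all `σ = 1`. `lv24` : the levels of `k2, ke, kg, k1`. `suE24` : from the kernel of the inside (`En31`, rows `c0 + n1 → e`) and the
facts `FXz24` of the exit set, in the rows of `Pcs` (`na = n' + T / 32`, `ng = 5 (T / 32)`, `nb = T / 32`, `n3 = 5 (T / 32) + 1`).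
-/

set_option autoImplicit false

namespace Pool.Agent.W_7d29a1_C1.P24

open MeasureTheory ProbabilityTheory Filter Topology Finset
open Pool.Agent.W_7d29a1_F Pool.Agent.W_7d29a1_h4g Pool.Agent.W_7d29a1_H Pool.Agent.W_7d29a1_HS
open Pool.Agent.W_7d29a1_C1
open Pool.Agent.W_7d29a1_C1.CR76 Pool.Agent.W_7d29a1_C1.Basin76
open Pool.Agent.W_7d29a1_C1.K91 (wt wt_pos)
open Pool.Agent.W_7d29a1_C1.FarW89 (nk nk_nonneg)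
open Pool.Agent.W_7d29a1_C1.S12 (Lam12 Lam12_pos)
open Pool.Agent.W_7d29a1_C1.JnC35 (ln35)
open Pool.Agent.W_7d29a1_C1.D31 (En31)
open Pool.Agent.W_7d29a1_C1.H60 (kr60 kSa60 Pu60)

noncomputable section

variable {μ : Measure ℝ} {s c C : ℝ} {n₀ : ℕ}

/-- The common rate. -/
def rt24 (c : ℝ) : ℝ := c / 1048576

/-- The envelope from the row `r` to the row `c3`, rate and slope `rt24 c`. -/
def ks24 (μ : Measure ℝ) (s c : ℝ) (ζ : Env) (Pk T : ℕ) (κ : Pt) (c3 : ℕ) (Q S : ℝ) (r : ℕ) : ℤ → ℤ → ℝ :=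
  kr60 μ s ζ Pk (rt24 c) (rt24 c) (EE μ s T) (wd μ s T) κ c3 Q S r

/-- The kernel of the cells. -/
def kc24 (μ : Measure ℝ) (s c : ℝ) (Pk T : ℕ) (κ : Pt) (c0 c3 : ℕ) : ℤ → ℤ → ℝ :=
  D31.kap31 Pk (rt24 c) (rt24 c) 0 0 (EE μ s T) (wd μ s T) (ln35 μ s κ c0) (ln35 μ s κ c3) (c3 - c0)

/-- **THE THREE BLOCKS AT ONE PLACE.** `Q2 ≤ Qe ≤ Qg ≤ Q1` : the levels of `k2, ke, kg, k1` (`k1` : `Q1 + qin`). -/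
theorem suE24 [IsProbabilityMeasure μ] (h : In μ s c C n₀) {c' : ℝ} {P : ℕ} {d U β q u : ℝ} (hd : 0 < d) (hd2 : d ≤ 1 / 2) (hU : 0 ≤ U)
    (hβ : 0 ≤ β) (hq : 0 ≤ q) (hu : 0 ≤ u) {Pk : ℕ} (hPk : P + 1 ≤ Pk) :
    ∃ Q2 Qe Qg Q1 : ℝ, 0 ≤ Q2 ∧ 0 ≤ Qe ∧ 0 ≤ Qg ∧ 0 ≤ Q1 ∧ ∀ Λ ge : ℝ, 0 ≤ Λ → 0 ≤ ge →
    ∃ Ku K' Gj Kc : ℝ, 2 ≤ Ku ∧ 2 ≤ K' ∧ 0 ≤ Gj ∧ 0 ≤ Kc ∧ ∀ Kx : ℝ, 0 ≤ Kx → ∃ Gs : ℝ, 0 ≤ Gs ∧
    ∀ G K : ℝ, Gj ≤ G → Gs ≤ G → Kc ≤ K → ∃ n₂ : ℕ, ∀ T : ℕ, n₂ ≤ T → 32 ∣ T →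
    ∀ (κ : Pt) (ζ : Env), FXz24 μ s c c' P d U β q G K 1 u T κ ζ → ∀ (hh : ℝ) (p : ℕ → ℝ) (M : ℕ),
    (∀ k, k < M → p k = Real.exp (s + hh)) → (∀ k, M ≤ k → p k = Real.exp s) → |hh| * T ≤ 1 →
    ∀ (c0 n1 n' : ℕ) (lo H : ℤ) (Z : Finset ℤ) (a1 a2 b2 xa xb zm : ℤ) (qin : ℝ), ((c0 + n1 + n' : ℕ) : ℤ) = κ.1 + rE24 T → T ≤ n1 + n' →
      (∀ I J : Finset ℤ, En31 Pk (c / 64) (rt24 c) (EE μ s T) (wd μ s T) qin 1 (fun x => (x : ℝ) - ln35 μ s κ (c0 + n1))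
        (fun y => (y : ℝ) - ln35 μ s κ (c0 + n1 + n')) (nk μ s hh ζ p M (c0 + n1) n') I J) →
      (∀ x : ℤ, xa ≤ x → x ≤ xb → |(x : ℝ) - ln35 μ s κ (c0 + n1)| ≤ Kx * wd μ s T) →
      ∀ t na c3 : ℕ, t = T / 32 → na = n' + t → c3 = c0 + n1 + na + 5 * t + t + (5 * t + 1) →
      |(zm : ℝ) - ln35 μ s κ c3| ≤ 2 →
      (∀ v : ℤ, |(v : ℝ) - ln35 μ s κ (c0 + n1 + na + 5 * t)| ≤ wd μ s T → lo ≤ v ∧ v ≤ H + n1 + na + (5 * t : ℕ)) →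
      (∀ v : ℤ, |(v : ℝ) - ln35 μ s κ (c0 + n1 + na + 5 * t + t)| ≤ 2 * wd μ s T → lo ≤ v ∧ v ≤ H + n1 + na + (5 * t : ℕ) + t) →
      |(a1 : ℝ) - ln35 μ s κ c0| ≤ Λ * wd μ s T → |(a2 : ℝ) - ln35 μ s κ c0| ≤ Λ * wd μ s T →
      |(b2 : ℝ) - ln35 μ s κ c0| ≤ Λ * wd μ s T →
      ∀ e₁ e₂ a' : ℤ, e₁ = pt24 μ s (((c0 + n1 + n' : ℕ) : ℤ), κ.2 + cE24 μ s T) t → a' = κ.2 + cM24 μ s T →
        e₂ = pt24 μ s (((c0 + n1 + na + 5 * t : ℕ) : ℤ), a') t →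
      Pu60 (wt ζ) p lo (H + n1) (c0 + n1) na Z xa xb (e₁ - ⌊d * wd μ s t⌋) (e₁ + ⌊d * wd μ s t⌋)
        (ks24 μ s c ζ Pk T κ c3 (Q1 + qin) 4 (c0 + n1)) (ks24 μ s c ζ Pk T κ c3 Qg 2 (c0 + n1 + na)) (Real.exp (-(ge * EE μ s T)))
        (Lam12 μ s hh M (c0 + n1) na) ∧
      Pw24 (wt ζ) p lo (H + n1 + na) (c0 + n1 + na) (5 * t) Z a1 a2 a' a' (e₁ - ⌊d * wd μ s t⌋) (e₁ + ⌊d * wd μ s t⌋)
        (wl24 μ s T κ (c0 + n1 + na + 5 * t) Ku) (wr24 μ s T κ (c0 + n1 + na + 5 * t) Ku)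
        (wl24 μ s T κ (c0 + n1 + na + 5 * t) Ku) (wr24 μ s T κ (c0 + n1 + na + 5 * t) Ku) {a'} (kc24 μ s c Pk T κ c0 c3)
        (ks24 μ s c ζ Pk T κ c3 Qg 2 (c0 + n1 + na)) (ks24 μ s c ζ Pk T κ c3 Qe 1 (c0 + n1 + na + 5 * t))
        (Real.exp 4 * Real.exp (-((6 * t : ℕ) : ℝ) ^ c')) (Real.exp (-(ge * EE μ s T))) (Real.exp ((U + 4 * u + 1) * EE μ s T))
        (Lam12 μ s hh M (c0 + n1 + na) (5 * t)) ∧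
      Py24 (wt ζ) p lo (H + n1 + na + (5 * t : ℕ)) (c0 + n1 + na + 5 * t) t (5 * t + 1) Z a1 b2 a' a'
        (e₂ - ⌊d * wd μ s t⌋) (e₂ + ⌊d * wd μ s t⌋) (zm - (⌈K' * wd μ s T⌉ + 1)) (zm + (⌈K' * wd μ s T⌉ + 1))
        (wl24 μ s T κ (c0 + n1 + na + 5 * t) Ku) (wr24 μ s T κ (c0 + n1 + na + 5 * t) Ku) (kc24 μ s c Pk T κ c0 c3)
        (ks24 μ s c ζ Pk T κ c3 Qe 1 (c0 + n1 + na + 5 * t)) (ks24 μ s c ζ Pk T κ c3 Q2 0 (c0 + n1 + na + 5 * t + t))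
        (Real.exp 4 * Real.exp (-((6 * t : ℕ) : ℝ) ^ c')) (Real.exp (-(ge * EE μ s T))) (Real.exp ((U + 4 * u + 1) * EE μ s T))
        (Lam12 μ s hh M (c0 + n1 + na + 5 * t) t) (Lam12 μ s hh M (c0 + n1 + na + 5 * t + t) (5 * t)) ∧
      (∀ (r0 n0 : ℕ) (x : ℤ) (Ui : ℝ), r0 + n0 = c0 + n1 + n' →
        Real.exp (-(Ui * EE μ s T)) ≤ nk μ s hh ζ p M r0 n0 x (κ.2 + cE24 μ s T) →
        Real.exp (-((Ui + (U + 1)) * EE μ s T)) ≤ nk μ s hh ζ p M r0 (n0 + t) x e₁) ∧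
      (∀ y : ℤ, e₁ - ⌊d * wd μ s t⌋ ≤ y → y ≤ e₁ + ⌊d * wd μ s t⌋ → |(y : ℝ) - ln35 μ s κ (c0 + n1 + na)| ≤ 2 * wd μ s T ∧
        wt ζ (c0 + n1 + na) y ≤ Real.exp (2 * u * EE μ s T) ∧ Real.exp (-(2 * u * EE μ s T)) ≤ wt ζ (c0 + n1 + na) y) ∧
      (∀ (b : ℤ), |(b : ℝ) - ln35 μ s κ c0| ≤ Λ * wd μ s T →
        b ≤ e₁ - ⌊d * wd μ s t⌋ ∧ e₁ + ⌊d * wd μ s t⌋ ≤ b + (n1 + na : ℕ)) := by
  have h0 := h.c0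
  have r0 : 0 < rt24 c := by unfold rt24; positivity
  have hr : rt24 c = c / 1048576 := rfl
  obtain ⟨qe, qg, hqe, hqg, HJ⟩ := kEj24 (c' := c') (P := P) (Pk := Pk) (c₁ := rt24 c) (c₂ := rt24 c) (c₃ := rt24 c) (c₃e := rt24 c) (c₃g := rt24 c)
    (cₖ := rt24 c) (dₖ := rt24 c) (c₅ := rt24 c) (σ := 1) h hd hd2 hU hβ hq hu hPk r0 r0 r0.le le_rfl le_rfl r0.le le_rfl r0
    (by rw [hr]; linarith) (by rw [hr]; linarith) (by rw [hr]; linarith) one_pos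
  obtain ⟨qs, hqs, HS⟩ := kSa60 (c' := c') (Px := P) (Pk := Pk) (c₁ := rt24 c) (c₂ := rt24 c) (c₃ := rt24 c) (c₃e := rt24 c) (c₃i := rt24 c)
    (c₅ := rt24 c) (cin := c / 64) (σ := 1) h hd hd2 hU hβ hq hu hPk r0 r0 r0.le le_rfl le_rfl (by rw [hr]; linarith) (by rw [hr]; linarith)
    r0 one_pos
  refine ⟨qe + 2, qe + 2 + qe, qe + 2 + qe + qg, qe + 2 + qe + qg + qs, by linarith, by linarith, by linarith, by linarith, fun Λ ge hΛ hge => ?_⟩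
  obtain ⟨Ku, K', Gj, Kc, hKu, hK', hGj, hKc, HJ⟩ := HJ (qe + 2) 0 0 0 Λ ge le_rfl le_rfl le_rfl le_rfl hΛ hge
  refine ⟨Ku, K', Gj, Kc, hKu, hK', hGj, hKc, fun Kx hKx => ?_⟩
  obtain ⟨Gs, hGs, HS⟩ := HS (qe + 2 + qe + qg) (0 + 1 + 1) Λ ge Kx (by linarith) hge hKx
  refine ⟨Gs, hGs, fun G K h1 h2 h3 => ?_⟩
  obtain ⟨n1', HJ⟩ := HJ G K h1 h3
  obtain ⟨n2', HS⟩ := HS G K h2
  refine ⟨n1' + n2', fun T hT h32 κ ζ F hh p M hp hp' hh1 c0 n1 n' lo H Z a1 a2 b2 xa xb zm qin he hTn en1 hx t na c3 ht hna hc3 hzm B1 B2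
    ha1 ha2 hb2 e₁ e₂ a' he₁ ha' he₂ => ?_⟩
  have e6 : c0 + n1 + n' + 6 * (T / 32) = c0 + n1 + na + 5 * t := by omega
  have eg : c0 + n1 + n' + T / 32 = c0 + n1 + na := by omega
  have ec3 : c0 + n1 + na + 5 * t + T / 32 + (5 * (T / 32) + 1) = c3 := by omega
  have S1 : (0 : ℝ) + 1 + 1 = 2 := by norm_num
  have S2 : (0 : ℝ) + 1 + 1 + 1 + 1 = 4 := by norm_num
  have S3 : (0 : ℝ) + 1 = 1 := by norm_num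
  obtain ⟨e₁', he₁', A1, A2, A3, A4⟩ := HS T (by omega) h32 κ ζ F hh p M hp hp' hh1 (c0 + n1) n' c3 lo (H + n1) Z xa xb qin he (by omega) en1 hx
  obtain ⟨J1, J2⟩ := HJ T (by omega) h32 κ ζ F hh p M hp hp' hh1 c0 (c0 + n1 + n') lo (H + n1 + na) Z a1 a2 b2 zm he (by omega)
    (by rw [e6, ec3]; exact hzm) (by rw [e6, ← ht]; exact B1) (by rw [e6, ← ht]; exact B2) ha1 ha2 hb2
  have ee : e₁' = e₁ := by rw [he₁', he₁, ht]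
  rw [ee] at A1 A2 A3 A4
  rw [e6, eg, ec3, ← ht, ← ha', ← he₁] at J1
  rw [e6, ec3, ← ht, ← ha', ← he₂] at J2
  rw [eg, ← ht] at A1
  unfold ks24 kc24
  rw [S2, S1, ← hna] at A1
  rw [S1, S3] at J1
  rw [S3] at J2
  refine ⟨A1, J1, J2, fun r0 n0 x Ui h5 h6 => ?_, fun y h5 h6 => ?_, fun b hb => ?_⟩
  · rw [ht]
    exact A2 r0 n0 x Ui h5 h6
  · rw [ht] at h5 h6
    have g := A3 y h5 h6
    rw [eg] at g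
    exact g
  · rw [ht]
    exact A4 c0 (n1 + na) b hb (by omega) (by omega)

end

end Pool.Agent.W_7d29a1_C1.P24
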