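import Pool.Agent.W_7d29a1_C1.LsS7
import Pool.Agent.W_7d29a1_C1.SuE24
import Pool.Agent.W_7d29a1_C1.KSz21
import Pool.Agent.W_7d29a1_C1.PbL60
import Pool.Agent.W_7d29a1_C1.PcT73
import Pool.Agent.W_7d29a1_C1.CosP47
import Pool.Agent.W_7d29a1_C1.L0a8
import Pool.Agent.W_7d29a1_C1.FrP83

/-!
MP_7d29a1_pr, [C1] SHELL, SIDE F: **`LsP44` FROM `In`**, second composition. (helper7)

`rwP7` : the rows of the first buffer. `stP7` : `kSz21` in the letters of `LsP44`. `lsP7` : the record at one place.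
-/

set_option autoImplicit false

namespace Pool.Agent.W_7d29a1_C1.N7

open MeasureTheory ProbabilityTheory Filter Topology Finset
open Pool.Agent.W_7d29a1_F Pool.Agent.W_7d29a1_h4g Pool.Agent.W_7d29a1_H Pool.Agent.W_7d29a1_HS
open Pool.Agent.W_7d29a1_C1
open Pool.Agent.W_7d29a1_C1.T10
open Pool.Agent.W_7d29a1_C1.F45
open Pool.Agent.W_7d29a1_C1.Basin76
open Pool.Agent.W_7d29a1_C1.K91 (wt wt_pos)
open Pool.Agent.W_7d29a1_C1.S12 (Lam12 Lam12_pos)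
open Pool.Agent.W_7d29a1_C1.JnC35 (ln35)
open Pool.Agent.W_7d29a1_C1.F74 (cl2)
open Pool.Agent.W_7d29a1_C1.H60 (kr60 pbP60 lwP60 Lw60)
open Pool.Agent.W_7d29a1_C1.B26 (lt26 cp26)
open Pool.Agent.W_7d29a1_C1.S83 (RowG)
open Pool.Agent.W_7d29a1_C1.Sh21
open Pool.Agent.W_7d29a1_C1.Lt44
open Pool.Agent.W_7d29a1_C1.P24 (suE24 rt24 ks24 kc24 wl24 wr24 pt24 rE24 cE24 cM24)
open Pool.Agent.W_7d29a1_C1.C47
open Pool.Agent.W_7d29a1_C1.D31 (kap31 kap31_nonneg)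
open Pool.Agent.W_7d29a1_C1.Fr47 (NS47)

noncomputable section

/-- **THE ROWS OF THE FIRST BUFFER.** -/
theorem rwP7 {th : ℝ} (h0 : 0 < th) (h1 : th ≤ 1 / 4) {i : LnI} (hi : i.th' = th / 8) {o : LnO} (ho : o.Ok i) {Q : ℕ} (hQ : 1 ≤ Q) :
    ∃ n₁ : ℕ, 1 ≤ n₁ ∧ ∀ (T : ℕ → ℕ) (j r : ℕ), n₁ ≤ T j → T j ≤ r →
      (1 ≤ TF45 th o Q T j ∧ TF45 th o Q T j ≤ T j ∧ T j ≤ 4 * TF45 th o Q T j) ∧ nM45 th o Q T j ≤ TF45 th o Q T j ∧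
      nB45 th o Q T j ≤ TF45 th o Q T j ∧ n145 th o Q T j = nM45 th o Q T j + (TF45 th o Q T j + nB45 th o Q T j) ∧
      cF th (R145 o Q) r (T j) = r - T j + 1 + (nM45 th o Q T j + TF45 th o Q T j) ∧
      cF th (R145 o Q) r (T j) + Q * o.j1 * kF th (R145 o Q) (T j) = r - T j + 1 + n145 th o Q T j ∧
      r - T j + 1 + n145 th o Q T j ≤ r := by
  have R1 : 1 ≤ R145 o Q := R145_pos ho hQ
  obtain ⟨n₁, hn₁, H⟩ := rowsF h0 h1 R1 1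
  refine ⟨max n₁ (3 * R145 o Q), hn₁.trans (le_max_left _ _), fun T j r hT hr => ?_⟩
  obtain ⟨_, _, _, _, _, H6⟩ := H (T j) r ((le_max_left _ _).trans hT) hr
  have H6 := H6 (Q * o.j1) 0 (by
    have j2 := ho.j2'
    rw [hi] at j2
    unfold R145
    push_cast
    have a1 : (0 : ℝ) ≤ (Q : ℝ) * o.j1 := by positivity
    have a2 : (0 : ℝ) ≤ th / 8 * (Q * (o.j2 * o.a)) := by positivity
    have a3 : (Q : ℝ) * o.j1 ≤ (Q : ℝ) * o.j1 * (th / 8 * o.j2) := le_mul_of_one_le_right a1 j2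
    have e : th / 8 * (Q * (o.j2 * (o.a + o.j1) : ℝ)) = th / 8 * (Q * (o.j2 * o.a)) + (Q : ℝ) * o.j1 * (th / 8 * o.j2) := by ring
    rw [e]
    linarith) (by
      push_cast
      positivity)
  have e1 : cF th (R145 o Q) r (T j) = r - T j + 1 + (nM45 th o Q T j + TF45 th o Q T j) := by
    unfold cF
    rw [nMTF45]
  have e2 : n145 th o Q T j = nM45 th o Q T j + (TF45 th o Q T j + nB45 th o Q T j) := by
    unfold n145 nM45 TF45 nB45 kk45 R145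
    ring
  have e3 : cF th (R145 o Q) r (T j) + Q * o.j1 * kF th (R145 o Q) (T j) = r - T j + 1 + n145 th o Q T j := by
    rw [e1, e2]
    unfold nB45 kk45
    ring
  refine ⟨TF7 h0 h1 ho hQ ((le_max_right _ _).trans hT), ?_, ?_, e2, e1, e3, ?_⟩
  · unfold nM45 TF45
    exact Nat.mul_le_mul_right _ (Nat.mul_le_mul_left _ (Nat.mul_le_mul_right _ ho.aj))
  · unfold nB45 TF45
    refine Nat.mul_le_mul_right _ (Nat.mul_le_mul_left _ ?_)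
    have := ho.j2
    exact Nat.le_mul_of_pos_right _ (by omega)
  · rw [← e3]
    exact H6.trans (by omega)

variable {μ : Measure ℝ} [IsProbabilityMeasure μ] {s c C : ℝ} {n₀ : ℕ}

omit [IsProbabilityMeasure μ] in
/-- The kernel of `So47` along the line of the box. -/
theorem k0P7 {d th : ℝ} {o : LnO} {Q : ℕ} {k : KE45} {T : ℕ → ℕ} {cm : ℕ → ℤ} {j m₂ : ℕ} {φ v v₁ g₂ : ℝ} {z : ℕ × ℤ} {σ : NS47}
    (hσ : σ = sg45 μ s d th o Q k T cm m₂ φ v v₁ g₂) (hT : T j ≤ z.1) :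
    σ.k0 j z = kap31 k.P k.c₁ k.c₃ k.Q k.S (EE μ s (T j)) (wd μ s (T j)) (ln35 μ s ((z.1 : ℤ), z.2 + cm j) (σ.c0 j z))
      (ln35 μ s ((z.1 : ℤ), z.2 + cm j) (σ.c3 j z)) (σ.c3 j z - σ.c0 j z) := by
  subst hσ
  have h1 := Fr47.k0_lit83 (μ := μ) (s := s) (σ := sg45 μ s d th o Q k T cm m₂ φ v v₁ g₂) (j := j) (z := z) (ρ := (cm j : ℝ))
    (x₀ := z.2 + cm j) (P := k.P) (c₁ := k.c₁) (c₃ := k.c₃) (Q := k.Q) (S := k.S) (E := EE μ s (T j)) (w := wd μ s (T j)) hT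
    (by push_cast; ring) (by
      show kap31 k.P k.c₁ k.c₃ k.Q k.S (EE μ s (T j)) (wd μ s (T j)) ((cm j : ℝ) + sl μ s * (1 - (T j : ℝ)))
        ((cm j : ℝ) + sl μ s * ((T j : ℝ) + 1)) (2 * T j) = kap31 k.P k.c₁ k.c₃ k.Q k.S (EE μ s (T j)) (wd μ s (T j))
        ((cm j : ℝ) + sl μ s * (1 - (T j : ℝ))) ((cm j : ℝ) + sl μ s * (1 + (T j : ℝ))) (2 * T j)
      rw [add_comm (T j : ℝ) 1])
  rw [h1]
  have e : (sg45 μ s d th o Q k T cm m₂ φ v v₁ g₂).c3 j z - (sg45 μ s d th o Q k T cm m₂ φ v v₁ g₂).c0 j z = 2 * T j := by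
    show z.1 + T j + 1 - (z.1 - T j + 1) = 2 * T j
    omega
  rw [e]
  rfl

/-- **`kSz21` IN THE LETTERS OF `LsP44`.** -/
theorem stP7 (h : In μ s c C n₀) {ell K0 d th g : ℝ} (hth : 0 < th) (hth1 : th ≤ 1 / 4) {o : LnO} (ho : o.Ok (lnI c d th K0))
    {w : LnJ} {p : LnP} (hp : p.Ok w) {c₂ : ℝ} (hc₂ : 0 < c₂) :
    ∃ n₂ : ℕ, 1 ≤ n₂ ∧ ∀ (T : ℕ → ℕ) (cm : ℕ → ℤ) (j : ℕ) (z : ℕ × ℤ) (hh : ℝ) (pr : ℕ → ℝ) (M : ℕ) (ζ : Env) (r A : ℝ)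
      (k : KE45) (m₂ : ℕ) (φ v v₁ g₂ : ℝ) (σ : NS47), n₂ ≤ T j → T j ≤ z.1 → (∀ k, k < M → pr k = Real.exp (s + hh)) →
      (∀ k, M ≤ k → pr k = Real.exp s) → |hh| * T j ≤ 1 →
      MO45 μ s c d th (lnI c d th K0) ell g w.G' o p.Q T cm j ((z.1 : ℤ), z.2) ζ r A →
      BT45 μ s c d th (lnI c d th K0) ell g o w p T cm j ((z.1 : ℤ), z.2) ζ A →
      σ = sg45 μ s d th o p.Q k T cm m₂ φ v v₁ g₂ →
      ∀ {P : ℕ} {c₁ c₃ Q S : ℝ}, o.Pw ≤ k.P → P ≤ k.P → 1 ≤ k.P → 0 < k.c₁ → 0 ≤ k.c₃ → k.c₃ ≤ c₃ → k.c₃ + k.c₁ + c₂ ≤ c / 64 → 0 ≤ Q →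
      qz21 k.P P c₁ Q o.Qw 1 1 ≤ k.Q → S + 1 ≤ k.S → ∀ (Z : Finset ℤ) (hi : ℤ),
      Stp (wt ζ) pr 0 hi (σ.c0 j z) (n145 th o p.Q T j) (Icc (0 : ℤ) hi) Z (σ.k0 j z)
        (kr60 μ s ζ P c₁ c₃ (EE μ s (T j)) (wd μ s (T j)) ((z.1 : ℤ), z.2 + cm j) (σ.c3 j z) Q S (σ.c0 j z + n145 th o p.Q T j)) 1
        (Lam12 μ s hh M (σ.c0 j z) (n145 th o p.Q T j)) := by
  obtain ⟨nr, hnr1, hnr⟩ := rwP7 hth hth1 (show (lnI c d th K0).th' = th / 8 from rfl) ho hp.Q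
  obtain ⟨nk, hnk1, hnk⟩ := kSz21 h (c₂ := c₂) (σ := 1) (D := 1) hc₂ one_pos zero_le_one
  obtain ⟨nw, hnw⟩ := eventually_atTop.1 ((wd_tendsto h).eventually_ge_atTop 1)
  refine ⟨nr + 4 * nk + nw, by omega, ?_⟩
  intro T cm j z hh pr M ζ r A k m₂ φ v v₁ g₂ σ hT hTz hpr hpr' hh1 hM hB hσ P c₁ c₃ Q S hPw hPP hP1 hc10 hc30 hc33 hcc hQ hQ0 hS0 Z hi
  obtain ⟨⟨t1, t2, t3⟩, rM, rB, e1, e2, e3, e4⟩ := hnr T j z.1 (by omega) hTz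
  have k0e := k0P7 (μ := μ) (s := s) hσ hTz
  have hc0 : σ.c0 j z = z.1 - T j + 1 := by rw [hσ]; rfl
  have hc3 : σ.c3 j z = z.1 + T j + 1 := by rw [hσ]; rfl
  have c0Z : ((σ.c0 j z : ℕ) : ℤ) = (bp45 μ s T cm j).1 + z.1 := by
    show ((σ.c0 j z : ℕ) : ℤ) = 1 - (T j : ℤ) + z.1
    omega
  rw [k0e]
  have hx0 : |(((bp45 μ s T cm j).2 + z.2 : ℤ) : ℝ) - ln35 μ s ((z.1 : ℤ), z.2 + cm j) (σ.c0 j z)| ≤ 1 * wd μ s (T j) := by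
    have w1 := hnw (T j) (by omega)
    have l0 : ln35 μ s ((z.1 : ℤ), z.2 + cm j) (σ.c0 j z) = (z.2 : ℝ) + cm j + sl μ s * (1 - (T j : ℝ)) := by
      unfold ln35
      rw [c0Z]
      show (((z.2 + cm j : ℤ) : ℝ)) + sl μ s * (((1 - (T j : ℤ) + z.1 - (z.1 : ℤ) : ℤ) : ℝ)) = _
      push_cast
      ring
    have f1 := Int.floor_le (sl μ s * (1 - (T j : ℝ)))
    have f2 := Int.lt_floor_add_one (sl μ s * (1 - (T j : ℝ)))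
    rw [l0]
    show |(((cm j + ⌊sl μ s * (1 - (T j : ℝ))⌋) + z.2 : ℤ) : ℝ) - _| ≤ _
    push_cast
    rw [abs_le]
    constructor <;> linarith
  have hrow : ζ ∈ RowG ((σ.c0 j z : ℕ) : ℤ) ((bp45 μ s T cm j).2 + z.2) (wd μ s (TF45 th o p.Q T j)) (1 * EE μ s (TF45 th o p.Q T j)) := by
    rw [c0Z]
    exact hM.ra
  have hpe := hB.pe
  have hn1T : (n145 th o p.Q T j : ℝ) ≤ T j := by
    have : n145 th o p.Q T j ≤ T j := by omega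
    exact_mod_cast this
  have e5 : nM45 th o p.Q T j + TF45 th o p.Q T j + nB45 th o p.Q T j = n145 th o p.Q T j := by omega
  rw [show ((((z.1 : ℕ) : ℤ), z.2) : Pt).1 = ((z.1 : ℕ) : ℤ) from rfl, show ((((z.1 : ℕ) : ℤ), z.2) : Pt).2 = z.2 from rfl, ← c0Z, ← e1, e5] at hpe
  exact hnk (T := T j) (TF := TF45 th o p.Q T j) (n1 := n145 th o p.Q T j) (by omega) t2 t3 hpr hpr'
    ((mul_le_mul_of_nonneg_left hn1T (abs_nonneg _)).trans hh1) (by omega) hx0 zero_le_one hrow hpe ho.Qw hPw hPP hP1 hc10 hc30 hc33 hcc hQ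
    hQ0 hS0 Z

/-- **THE PLACE**: `LsP44` from `In`. -/
theorem lsP7 (h : In μ s c C n₀) : LsP44 μ s c := by
  have hc := h.c0
  have r0 : 0 < rt24 c := by unfold rt24; positivity
  have hr : rt24 c = c / 1048576 := rfl
  intro ell K0 hell hK0 d th hd hd1 hth hth4 x hx P
  obtain ⟨Pk, hPk⟩ : ∃ Pk : ℕ, Pk = max (2 * P) (x.P + 1) := ⟨_, rfl⟩
  have hPk1 : 2 * P ≤ Pk := by rw [hPk]; exact le_max_left _ _
  have hPk2 : x.P + 1 ≤ Pk := by rw [hPk]; exact le_max_right _ _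
  have xd := hx.d0
  have xd1 := hx.d1
  have xU := hx.U
  obtain ⟨Q2, Qe, Qg, Q1, hQ2, hQe, hQg, hQ1, HS⟩ := suE24 (μ := μ) (s := s) (c := c) h (c' := x.c') (P := x.P) (d := x.d) (U := x.U)
    (β := 1) (q := x.q) (u := 1) hx.d0 (by linarith) hx.U zero_le_one hx.q zero_le_one hPk2
  obtain ⟨B₀, hB₀, HB⟩ := cosP47 Pk (c₁ := rt24 c) r0 (ck := rt24 c) (S := 4) (ell := ell + 2) (be := c / 8) (K0 := 8) (u0 := 1) (D := 1)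
    (Qc := Q1) (X := x.U + 16) r0.le (by norm_num) (by linarith) (by linarith) (by norm_num) zero_le_one zero_le_one hQ1 (by linarith)
  have ub0 : 0 ≤ ub21 1 8 := ub21_nonneg zero_le_one (by norm_num)
  refine ⟨rt24 c, 1, rt24 c, 1, 2 * ub21 1 8 + 2 * (ell + 2) + 7, B₀, 4, 2, r0, one_pos, r0, zero_le_one, by linarith, hB₀, by norm_num,
    fun qin Ui hqin hUi gs hgs => ?_⟩
  obtain ⟨CL, hCL⟩ : ∃ CL : ℝ, CL = cb21 Pk (rt24 c) (rt24 c) (Q1 + qin) 4 (ell + 2) (c / 8) 8 1 1 := ⟨_, rfl⟩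
  have HB := HB qin Ui hqin hUi
  rw [← hCL] at HB
  have hQgr : 0 ≤ (Q1 + qin) * FarK89.gr Pk (FarK89.AQ Pk (rt24 c) (Q1 + qin)) :=
    mul_nonneg (by linarith) (FarK89.gr_nonneg Pk (FarK89.AQ_nonneg Pk (rt24 c) (Q1 + qin)))
  have hCLb : ell + 2 + ub21 1 8 + 8 ≤ CL := by
    rw [hCL]
    unfold cb21
    linarith [r0]
  refine ⟨4 * (CL + gs), fun g hg hgU o ho => ?_⟩
  obtain ⟨cδ, hcδ, -, -, Nd, Hd⟩ := del47 ho.c' hx.c'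
  refine ⟨max Pk o.Pw, cδ, hcδ, fun P₀ hPU hP1 => ⟨qz21 P₀ Pk (rt24 c) (Q1 + qin) o.Qw 1 1, 4 + 1, ?_⟩⟩
  intro c₁₀ c₃₀ Q₀ S₀ hc10 hc10' hc30 hc30' hQ₀ hQU hS₀ hSU ge hge
  obtain ⟨Ku, K', Gj, Kc, hKu, hK', hGj, hKc, HS⟩ := HS 3 ge (by norm_num) hge
  refine ⟨10, 4 * (CL + ge), 0, fun w hw hKw hgx hG' p hp => ?_⟩
  have pKx := hp.Kx
  have pK := hp.K
  obtain ⟨Gs, hGs, HS⟩ := HS (2 * p.K + 1) (by linarith)
  refine ⟨max Gj Gs, Kc, fun GX KX hGX hGU hKX hKU => ?_⟩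
  obtain ⟨n2', HS⟩ := HS GX KX ((le_max_left _ _).trans hGU) ((le_max_right _ _).trans hGU) hKU
  obtain ⟨ns, -, Hst⟩ := stP7 (μ := μ) (s := s) (K0 := K0) (g := g) (d := d) h hth hth4 ho hp (c₂ := rt24 c) r0
  obtain ⟨nb, -, Hpb⟩ := pbP60 (μ := μ) (s := s) h hell hd hd1 hth hth4 hg ho hw hKw hp
  obtain ⟨nl, -, Hlw⟩ := lwP60 (μ := μ) (s := s) (ell := ell) (g := g) h hd hd1 hth hth4 ho hp
  obtain ⟨nf, -, Hf⟩ := H8.phif8 (μ := μ) (s := s) h (ck := rt24 c) (f := 1) r0 one_pos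
  obtain ⟨nr, hnr1, Hr⟩ := rwP7 hth hth4 (show (lnI c d th K0).th' = th / 8 from rfl) ho hp.Q
  obtain ⟨nw, hnw⟩ := eventually_atTop.1 ((wd_tendsto h).eventually_ge_atTop 8)
  refine ⟨n2' + ns + nb + nl + nf + nr + nw + Nd, ?_⟩
  intro T cm j m₂ z Γk hh pr M ζ φ v v₁ g₂ hT h32 hTz hpr hpr' hhh hBx hFA hFB hFX hIn
  obtain ⟨⟨t1, t2, t3⟩, rM, rB, e1, e2, e3, e4⟩ := Hr T j z.1 (by omega) hTz
  obtain ⟨σ, hσ⟩ : ∃ σ : NS47, σ = sg45 μ s d th o p.Q ⟨P₀, c₁₀, c₃₀, Q₀, S₀⟩ T cm m₂ φ v v₁ g₂ := ⟨_, rfl⟩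
  rw [← hσ]
  obtain ⟨r, A, hM, hRC, hBT⟩ := hFB
  have hh1 : |hh| * (T j : ℝ) ≤ 1 := by linarith
  have k0e := k0P7 (μ := μ) (s := s) hσ hTz
  have hc0 : σ.c0 j z = z.1 - T j + 1 := by rw [hσ]; rfl
  have hc3 : σ.c3 j z = z.1 + T j + 1 := by rw [hσ]; rfl
  have hT' : σ.T j = T j := by rw [hσ]; rfl
  have hζc : σ.ζc j = H8.zc8 μ s T cm j := by rw [hσ]; rfl
  -- the letters
  obtain ⟨κ, hκ⟩ : ∃ κ : Pt, κ = ((z.1 : ℤ), z.2 + cm j) := ⟨_, rfl⟩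
  have St := Hst T cm j z hh pr M ζ r A ⟨P₀, c₁₀, c₃₀, Q₀, S₀⟩ m₂ φ v v₁ g₂ σ (by omega) hTz hpr hpr' hh1 hM hBT hσ (P := Pk)
    (c₁ := rt24 c) (c₃ := rt24 c) (Q := Q1 + qin) (S := 4) ((le_max_right _ _).trans hPU) ((le_max_left _ _).trans hPU) hP1 hc10 hc30.le hc30'
    (by show c₃₀ + c₁₀ + rt24 c ≤ c / 64; rw [hr] at hc10' hc30' ⊢; linarith) (by linarith) hQU hSU
  obtain ⟨cell, e3', Pb⟩ := Hpb T cm j z Γk hh pr M ζ r A ⟨P₀, c₁₀, c₃₀, Q₀, S₀⟩ m₂ φ v v₁ g₂ σ (by omega) hTz hpr hpr' hh1 hBx hM hBT hσ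
  obtain ⟨ub, tb, R, Lw⟩ := Hlw T cm j z ζ r A ⟨P₀, c₁₀, c₃₀, Q₀, S₀⟩ m₂ φ v v₁ g₂ σ (by omega) hTz hM hσ
  rw [e3] at hIn
  rw [e2] at hIn Lw
  rw [← hκ] at St cell Pb Lw hIn hBx k0e
  obtain ⟨c0, hc0d⟩ : ∃ c0, c0 = σ.c0 j z := ⟨_, rfl⟩
  obtain ⟨c3, hc3d⟩ : ∃ c3, c3 = σ.c3 j z := ⟨_, rfl⟩
  obtain ⟨n1, hn1⟩ : ∃ n1, n1 = n145 th o p.Q T j := ⟨_, rfl⟩
  obtain ⟨nL, hnL⟩ : ∃ nL, nL = nM45 th o p.Q T j + TF45 th o p.Q T j := ⟨_, rfl⟩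
  rw [← hc0] at hIn Lw e4
  rw [← hc0d, ← hc3d, ← hn1] at St Pb
  rw [← hc0d, ← hn1, ← hnL] at Lw hIn
  rw [← hc0d, ← hn1] at e4
  rw [← hc0d, ← hc3d] at k0e
  rw [← hc0d] at cell
  rw [← hc0d] at hc0
  rw [← hc3d] at hc3
  have hE := EE_pos (μ := μ) (s := s) (T j)
  have hE1 := one_le_EE (μ := μ) (s := s) (T j)
  have hw8 := hnw (T j) (by omega)
  have hw0 : 0 < wd μ s (T j) := by linarith
  -- the rows
  obtain ⟨t, ht⟩ := h32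
  have ht32 : T j / 32 = t := by omega
  have ht8 : T j / 8 = 4 * t := by omega
  have ht5 : 5 * T j / 8 = 20 * t := by omega
  have hnn : n1 + n1 ≤ n1 + T j := by omega
  obtain ⟨n', hn'⟩ : ∃ n' : ℕ, c0 + n1 + n' = z.1 + 5 * T j / 8 := ⟨z.1 + 5 * T j / 8 - (c0 + n1), by omega⟩
  have he24 : ((c0 + n1 + n' : ℕ) : ℤ) = κ.1 + rE24 (T j) := by
    rw [hκ]
    show ((c0 + n1 + n' : ℕ) : ℤ) = (z.1 : ℤ) + ((5 * (T j / 8) : ℕ) : ℤ)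
    omega
  obtain ⟨na, hna⟩ : ∃ na : ℕ, na = n' + t := ⟨_, rfl⟩
  have hce : c0 + n1 + n' = c0 + nL + (z.1 + 5 * T j / 8 - (c0 + nL)) := by omega
  have hc3e : c3 = c0 + n1 + na + 5 * t + t + (5 * t + 1) := by omega
  have hsum : n1 + na + 5 * t + t + (5 * t + 1) = 2 * T j := by omega
  obtain ⟨Z, hZ⟩ : ∃ Z : Finset ℤ, Z = Icc (0 : ℤ) ((Γk : ℤ) + c0 + n1 + na + (5 * t : ℕ) + t + (5 * t + 1 : ℕ)) := ⟨_, rfl⟩
  have hZ3 : Z = Icc (0 : ℤ) ((Γk : ℤ) + c3) := by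
    rw [hZ, hc3e]
    congr 1
    push_cast
    ring
  -- the inside
  have en1 : ∀ I J : Finset ℤ, D31.En31 Pk (c / 64) (rt24 c) (EE μ s (T j)) (wd μ s (T j)) qin 1 (fun x => (x : ℝ) - ln35 μ s κ (c0 + n1))
      (fun y => (y : ℝ) - ln35 μ s κ (c0 + n1 + n')) (FarW89.nk μ s hh ζ pr M (c0 + n1) n') I J := by
    intro I J
    have h1 := hIn.up Pk hPk1 I J
    rw [← hn', show c0 + n1 + n' - (c0 + n1) = n' by omega] at h1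
    exact h1
  -- the first buffer
  have kcle : ∀ a z', kc21 μ s Pk (rt24 c) (rt24 c) (EE μ s (T j)) (wd μ s (T j)) κ c0 c3 a z' ≤ σ.k0 j z a z' := by
    intro a z'
    rw [k0e]
    exact kc_le21 hE hw0 ((le_max_left _ _).trans hPU) hQ₀ hS₀ hc30' a z'
  obtain ⟨xa, xb, sc, hwin, HP⟩ := Pb (P := Pk) (c₁ := rt24 c) (c₃ := rt24 c) (ck := rt24 c) (dk := rt24 c) (Q := Q1 + qin) (S := 4)
    (Z := Z) (k0 := σ.k0 j z) r0 r0.le le_rfl (by rw [hr]; linarith) (by linarith) (by norm_num)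
    (fun x _ z' => by rw [k0e]; exact kap31_nonneg _ _) (St Z _) (fun a _ z' => kcle a z')
  rw [← hCL] at HP
  -- the columns
  have hzm : |((z.2 + σ.ζc j : ℤ) : ℝ) - ln35 μ s κ c3| ≤ 2 := by
    have h1 : |((z.2 + σ.ζc j : ℤ) : ℝ) - ln35 μ s ((z.1 : ℤ), z.2 + cm j) (σ.c3 j z)| ≤ 1 := by
      rw [hσ]
      exact H8.zc8_near
    rw [← hκ, ← hc3d] at h1
    linarith
  have B1 : ∀ v : ℤ, |(v : ℝ) - ln35 μ s κ (c0 + n1 + na + 5 * t)| ≤ wd μ s (T j) →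
      0 ≤ v ∧ v ≤ (Γk : ℤ) + c0 + n1 + na + (5 * t : ℕ) := by
    intro v hv
    have h1 := hBx (c0 + n1 + na + 5 * t) v (by omega) (by linarith)
    omega
  have B2 : ∀ v : ℤ, |(v : ℝ) - ln35 μ s κ (c0 + n1 + na + 5 * t + t)| ≤ 2 * wd μ s (T j) →
      0 ≤ v ∧ v ≤ (Γk : ℤ) + c0 + n1 + na + (5 * t : ℕ) + t := by
    intro v hv
    have h1 := hBx (c0 + n1 + na + 5 * t + t) v (by omega) (by linarith)
    omega
  have geo := HP.g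
  have g1 := geo.h1
  have g2 := geo.h2
  have g3 := geo.h3
  have ca1 : z.2 + σ.α₁ j ∈ cl2 (z.2 + σ.α₁ j) (z.2 + σ.β₁ j) (z.2 + σ.α₂ j) (z.2 + σ.β₂ j) := by
    unfold cl2
    simp only [mem_union, mem_Icc]
    omega
  have ca2 : z.2 + σ.α₂ j ∈ cl2 (z.2 + σ.α₁ j) (z.2 + σ.β₁ j) (z.2 + σ.α₂ j) (z.2 + σ.β₂ j) := by
    unfold cl2
    simp only [mem_union, mem_Icc]
    omega
  have cb2 : z.2 + σ.β₂ j ∈ cl2 (z.2 + σ.α₁ j) (z.2 + σ.β₁ j) (z.2 + σ.α₂ j) (z.2 + σ.β₂ j) := by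
    unfold cl2
    simp only [mem_union, mem_Icc]
    omega
  have c23 : ∀ y ∈ cl2 (z.2 + σ.α₁ j) (z.2 + σ.β₁ j) (z.2 + σ.α₂ j) (z.2 + σ.β₂ j), |(y : ℝ) - ln35 μ s κ c0| ≤ 3 * wd μ s (T j) := by
    intro y hy
    have h1 := cell y hy
    linarith
  obtain ⟨e₁, he₁⟩ : ∃ e₁ : ℤ, e₁ = pt24 μ s (((c0 + n1 + n' : ℕ) : ℤ), κ.2 + cE24 μ s (T j)) t := ⟨_, rfl⟩
  obtain ⟨a', ha'⟩ : ∃ a' : ℤ, a' = κ.2 + cM24 μ s (T j) := ⟨_, rfl⟩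
  obtain ⟨e₂, he₂⟩ : ∃ e₂ : ℤ, e₂ = pt24 μ s (((c0 + n1 + na + 5 * t : ℕ) : ℤ), a') t := ⟨_, rfl⟩
  obtain ⟨U1, W1, Y1, X1, X2, X3⟩ := HS (T j) (by omega) ⟨t, ht⟩ κ ζ (by rw [hκ]; exact hFX) hh pr M hpr hpr' hh1 c0 n1 n' 0
    ((Γk : ℤ) + c0) Z (z.2 + σ.α₁ j) (z.2 + σ.α₂ j) (z.2 + σ.β₂ j) xa xb (z.2 + σ.ζc j) qin he24 (by omega) en1 hwin t na c3 ht32.symm hna
    hc3e hzm B1 B2 (c23 _ ca1) (c23 _ ca2) (c23 _ cb2) e₁ e₂ a' he₁ ha' he₂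
  -- `l0a`
  have hfl : (0 : ℤ) ≤ ⌊x.d * wd μ s t⌋ := Int.floor_nonneg.2 (mul_nonneg hx.d0.le (h.wd_nonneg t))
  have hX2 := X2 e₁ (by omega) (by omega)
  have hlnE : |((κ.2 + cE24 μ s (T j) : ℤ) : ℝ) - ln35 μ s κ (z.1 + 5 * T j / 8)| ≤ 2 * wd μ s (T j) := by
    have l1 : ln35 μ s κ (z.1 + 5 * T j / 8) = (κ.2 : ℝ) + sl μ s * (rE24 (T j) : ℕ) := by
      have e5 : (((z.1 + 5 * T j / 8 : ℕ) : ℤ) - κ.1 : ℤ) = (rE24 (T j) : ℕ) := by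
        rw [← hn']
        omega
      unfold ln35
      rw [e5]
      push_cast
      ring
    have f1 := Int.floor_le (sl μ s * (rE24 (T j) : ℕ))
    have f2 := Int.lt_floor_add_one (sl μ s * (rE24 (T j) : ℕ))
    rw [l1]
    unfold cE24
    push_cast
    rw [abs_le]
    constructor <;> linarith
  have lo := fun i : Bool => X1 (c0 + nL) (z.1 + 5 * T j / 8 - (c0 + nL)) (tb i) Ui hce.symm (hIn.lo (tb i) _ (Lw.tn i) hlnE)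
  obtain ⟨lam, hlam⟩ : ∃ lam : ℝ, lam = B₀ * (1 + qin + Ui) ^ 2 := ⟨_, rfl⟩
  rw [← hlam] at HB ⊢
  have hlam0 : 0 ≤ lam := by linarith
  obtain ⟨L, hL⟩ : ∃ L : ℝ, L = Real.exp (lam * EE μ s (T j)) := ⟨_, rfl⟩
  have hL1 : 1 ≤ L := by rw [hL]; exact Real.one_le_exp (mul_nonneg hlam0 hE.le)
  have hle : ∀ {y : ℝ}, y ≤ lam → Real.exp (y * EE μ s (T j)) ≤ L := fun hy => by
    rw [hL]
    exact Real.exp_le_exp.2 (mul_le_mul_of_nonneg_right hy hE.le)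
  have nLT : |hh| * (nL : ℝ) ≤ 1 := by
    have h1 := Lw.nLn
    have h2 := Lw.n1T
    have h3 : (nL : ℝ) ≤ T j := by exact_mod_cast h1.trans h2
    exact (mul_le_mul_of_nonneg_left h3 (abs_nonneg _)).trans hh1
  have hl0a := H8.l0a8 (μ := μ) (s := s) h hpr hpr' (c0 := c0) (nL := nL) (n1 := n1) (na := na)
    (nR := z.1 + 5 * T j / 8 - (c0 + nL) + t) (by omega) nLT (va := e₁ - ⌊x.d * wd μ s t⌋) (vb := e₁ + ⌊x.d * wd μ s t⌋) (e₁ := e₁)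
    (by omega) (by omega) hE1 Lw.Ele (ell := ell + 2) (Ui := Ui + (x.U + 1)) (u := ub21 1 8) (u' := 2 * 1) (by linarith)
    (by linarith [Lw.Aone]) Lw.cell1 Lw.cell2 Lw.low lo (fun y hy => (Lw.wts y hy).1) (by rw [← add_assoc]; exact hX2.2.1) hL1
    (hle (by linarith))
  have hp0 : ∀ k, 0 < pr k := fun k => by
    rcases lt_or_ge k M with h5 | h5
    · rw [hpr k h5]; exact Real.exp_pos _
    · rw [hpr' k h5]; exact Real.exp_pos _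
  have hAp : 0 < A := by linarith [Lw.Aone]
  have hD := Hd (T j) (by omega)
  have ha32 : Real.exp 4 ≤ Real.exp 32 := Real.exp_le_exp.2 (by norm_num)
  have dB : Real.exp 4 * Real.exp (-((TF45 th o p.Q T j : ℕ) : ℝ) ^ o.c') ≤ Real.exp 32 * Real.exp (-((T j : ℝ) ^ cδ)) :=
    mul_le_mul ha32 (hD.1 _ t3) (Real.exp_pos _).le (Real.exp_pos _).le
  have dW : Real.exp 4 * Real.exp (-((6 * t : ℕ) : ℝ) ^ x.c') ≤ Real.exp 32 * Real.exp (-((T j : ℝ) ^ cδ)) := by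
    have h1 := hD.2 ⟨t, ht⟩
    rw [ht32] at h1
    exact mul_le_mul ha32 h1 (Real.exp_pos _).le (Real.exp_pos _).le
  have hL0 : 1 ≤ Real.exp ((2 * ub21 1 8 + 2 * (ell + 2) + 7) * EE μ s (T j)) := Real.one_le_exp (mul_nonneg (by linarith) hE.le)
  rw [hZ] at HP U1 W1 Y1
  have PP := Sb73.pcs73 (e := Real.exp (-(ge * EE μ s (T j)))) (δ := Real.exp 32 * Real.exp (-((T j : ℝ) ^ cδ))) (L := L) (wt_pos ζ) hp0 HP
    U1 W1 Y1 hl0a (X3 _ (c23 _ ca1)).1 (X3 _ (c23 _ ca2)).2 (mul_pos (Lam12_pos _ _ _) hAp) (by positivity) (Real.exp_pos _).le hL1 hL0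
    dB dW dW (exC47 hE.le hgx) le_rfl le_rfl le_rfl (hle (by linarith)) (hle (by linarith)) (hle (by linarith))
  obtain ⟨P1, P2⟩ := PP
  rw [← hZ, hZ3, hc3d, hc0d, hn1] at P2
  rw [hc3d, hc0d, hn1] at P1
  refine ⟨na, 5 * t, t, 5 * t + 1, xa, xb, sc, _, _, _, _, _, _, _, _, _, _, _, _, _, _, _, _, _, _, _, _,
    Real.exp (-((g / 4 - CL) * EE μ s (T j))), _, _, _, _, _, _, _, P1, P2, ?_, ?_, ?_, ?_, ?_, ?_, (Real.exp_pos _).le, ?_, ?_, ?_, ?_⟩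
  · omega
  · rw [← hn1, hT']
    omega
  · rw [hT']
    omega
  · rw [← hn1, hT']
    omega
  · intro a _
    rw [hT']
    exact Hf (T j) (by omega) Pk (rt24 c) κ (σ.c0 j z) (σ.c3 j z) a _
  · rw [hT']
  · rw [hT', hL]
  · rw [hT']
  · rw [hT']
    exact exC47 hE.le hgU
  · rw [hT']

end

end Pool.Agent.W_7d29a1_C1.N7
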