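import Pool.Agent.W_7d29a1_C1.Root91
import Pool.Agent.W_7d29a1_C1.LsP7

/-!
MP_7d29a1_pr, attractor route [C1] (helper91): THE LAST FIELD OF THE ROOT. `lsP7` (helper7) is the place of the fourth piece of the
fresh ball; with it the structure `Opn91` is a theorem, from `In` alone.
-/

set_option autoImplicit false

namespace Pool.Agent.W_7d29a1_C1.R91

open MeasureTheory
open Pool.Agent.W_7d29a1_HS

/-- **NOTHING IS LEFT OF THE ROUTE.** -/
theorem opn91 {μ : Measure ℝ} [IsProbabilityMeasure μ] {s c C : ℝ} {n₀ : ℕ} (hI : In μ s c C n₀) : Opn91 μ s c where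
  lP := N7.lsP7 hI

end Pool.Agent.W_7d29a1_C1.R91
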