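import Pool.Agent.W_7d29a1_C1.AliveC99
import Pool.Agent.W_7d29a1_C1.Ctx60
import Pool.Agent.W_7d29a1_LB.NSF14
import Pool.Agent.W_7d29a1_LB.Meet

/-!
Both halves (MP_7d29a1_pr), attractor route: **ALIVE** (helper99). In every context of the scale `n` the share of the pairs which have not met
when half of the last `L` rows are done is at most `n ^ (-1/16)` in the mean. No window and no bound of the tilted rows is used: the sites
which can be reached at the row `M` are at a distance `≤ k + M ≤ 2 N ^ (9 / 8)`, and `L ≥ N ^ 3`.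
-/

set_option autoImplicit false

namespace Pool.Agent.W_7d29a1_C1.K99

open Finset MeasureTheory ProbabilityTheory Filter Topology
open Pool.Agent.W_7d29a1_F Pool.Agent.W_7d29a1_X
open Pool.Agent.W_7d29a1_H (sl EE EE_pos one_le_EE)
open Pool.Agent.W_7d29a1_HS (In wd)
open Pool.Agent.W_7d29a1_HZ (wd' EE')
open Pool.Agent.W_7d29a1_LB (PP E2 met dst NSFr)
open Pool.Agent.W_7d29a1_C1.K91 (wt wt_pos Grp Box)
open Pool.Agent.W_7d29a1_C1.K91P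
open Pool.Agent.W_7d29a1_C1.H60

noncomputable section

/-- The groups of a context. -/
theorem box60 {Γ : Cx} (k1 : 1 ≤ Γ.k) (q0 : ∀ j, j < Γ.k → 0 ≤ Γ.q j) : Box Cx.l Γ.r 1 0 Γ.hi Γ.N where
  g :=
    { l0 := fun y => by
        unfold Cx.l
        split_ifs <;> norm_num
      r0 := fun y => by
        unfold Cx.r
        split_ifs with h
        · exact q0 _ (by omega)
        · exact le_rfl
      lX := fun y hy => by
        unfold Cx.l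
        rw [if_neg (by omega)]
      rX := fun y hy => by
        unfold Cx.r
        rw [if_neg (by omega)] }
  lo0 := fun y hy => by
    unfold Cx.l Cx.r
    rw [if_neg (by omega), if_neg (by omega)]
    exact ⟨rfl, rfl⟩
  hi0 := fun y hy => by
    unfold Cx.hi at hy
    unfold Cx.l Cx.r
    rw [if_neg (by omega), if_neg (by omega)]
    exact ⟨rfl, rfl⟩
  X0 := by norm_num
  X1 := by
    unfold Cx.hi
    have : (1 : ℤ) ≤ Γ.k := by exact_mod_cast k1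
    linarith
  ps := ⟨0, by
    unfold Cx.l Cx.r
    rw [if_pos rfl, if_neg (by omega)]
    norm_num⟩

theorem p60_pos (Γ : Cx) (i : ℕ) : 0 < Γ.p i := by
  unfold Cx.p
  split_ifs <;> exact Real.exp_pos _

theorem ZM60 (Γ : Cx) (η : Env) : ∑ x ∈ Icc (0 : ℤ) Γ.hi, Cx.l x * bw (wt η) Γ.p 0 Γ.N x = Γ.ZM η := by
  unfold Cx.ZM
  rw [sum_eq_single (0 : ℤ)]
  · unfold Cx.l
    rw [if_pos rfl, one_mul]
  · intro x _ hx
    unfold Cx.l
    rw [if_neg hx, zero_mul]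
  · intro h
    exfalso
    apply h
    rw [mem_Icc]
    unfold Cx.hi
    constructor <;> positivity

theorem ZM60_pos (Γ : Cx) (η : Env) : 0 < Γ.ZM η := bw_pos (wt_pos η) (p60_pos Γ) _ _ _

theorem ZR60_nonneg {Γ : Cx} (q0 : ∀ j, j < Γ.k → 0 ≤ Γ.q j) (η : Env) : 0 ≤ Γ.ZR η := by
  unfold Cx.ZR
  refine sum_nonneg fun y _ => mul_nonneg ?_ (bw_pos (wt_pos η) (p60_pos Γ) _ _ _).le
  unfold Cx.r
  split_ifs with h
  · exact q0 _ (by omega)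
  · exact le_rfl

/-- **Pointwise.** The share of the pairs which have not met at the row `K` is at most the probability that the polymers from the sites
`0` and `k + M` of the row `M` do not meet in the next `j ≤ K - M` rows. -/
theorem alive_det {Γ : Cx} (k1 : 1 ≤ Γ.k) (q0 : ∀ j, j < Γ.k → 0 ≤ Γ.q j) {K j : ℕ} (hK : K ≤ Γ.N)
    (hj : Γ.M + j ≤ K) (η : Env) : nm (wt η) Γ.p Cx.l Γ.r 0 Γ.hi Γ.N K / (Γ.ZM η * Γ.ZR η) ≤
      nq (wt η) Γ.p Γ.N Γ.M j 0 ((Γ.k + Γ.M : ℕ) : ℤ) := by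
  have hw : ∀ k y, 0 < wt η k y := wt_pos η
  have hp := p60_pos Γ
  have hb := box60 k1 q0
  have hM := ZM60_pos Γ η
  have hR := ZR60_nonneg q0 η
  have q1 := nq_mem (N := Γ.N) hw hp j Γ.M 0 ((Γ.k + Γ.M : ℕ) : ℤ)
  have h1 := nm_le_nq hw hp hb hK (a := 0) (b := Γ.k)
    (fun x hx => by
      by_contra h2
      refine hx ?_
      unfold Cx.l
      rw [if_neg (by omega)])
    (fun y hy => by
      by_contra h2
      refine hy ?_
      unfold Cx.r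
      rw [if_neg (by omega)])
  rw [ZM60] at h1
  have e1 : ∑ y ∈ Icc (0 : ℤ) Γ.hi, Γ.r y * bw (wt η) Γ.p 0 Γ.N y = Γ.ZR η := rfl
  rw [e1] at h1
  have h2 : nq (wt η) Γ.p Γ.N 0 K 0 Γ.k ≤ nq (wt η) Γ.p Γ.N Γ.M j 0 ((Γ.k + Γ.M : ℕ) : ℤ) := by
    obtain ⟨j', hj'⟩ : ∃ j' : ℕ, K = Γ.M + j' := ⟨K - Γ.M, by omega⟩
    have h3 := nq_push (N := Γ.N) hw hp Γ.M 0 j' 0 Γ.k
    rw [← hj', Nat.zero_add] at h3
    refine h3.trans ((nq_anti' hw hp (show j ≤ j' by omega) _ _ _).trans (le_of_eq ?_))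
    push_cast
    rfl
  rcases hR.lt_or_eq with h4 | h4
  · rw [div_le_iff₀ (mul_pos hM h4)]
    exact h1.trans (mul_le_mul_of_nonneg_right h2 (by positivity))
  · rw [← h4, mul_zero, div_zero]
    exact q1.1

variable {μ : Measure ℝ} {s : ℝ} [IsProbabilityMeasure μ] {c C : ℝ} {n₀ : ℕ}

open Classical in
/-- **In the mean.** -/
theorem alive_E2 {Γ : Cx} {L : ℕ} (hs : Γ.s = s) (k1 : 1 ≤ Γ.k) (q0 : ∀ j, j < Γ.k → 0 ≤ Γ.q j) (hN : Γ.N = Γ.M + L + 1) {K j : ℕ}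
    (hK : K ≤ Γ.N) (hj : Γ.M + j ≤ K) (hjL : j ≤ L) :
    ∫ η, nm (wt η) Γ.p Cx.l Γ.r 0 Γ.hi Γ.N K / (Γ.ZM η * Γ.ZR η) ∂(law μ) ≤
      E2 μ s ((Γ.k + Γ.M : ℕ) : ℤ) L (fun S S' => if met ((Γ.k + Γ.M : ℕ) : ℤ) j (S, S') then 0 else 1) := by
  have hp := p60_pos Γ
  obtain ⟨d, hd⟩ : ∃ d : ℤ, d = ((Γ.k + Γ.M : ℕ) : ℤ) := ⟨_, rfl⟩
  obtain ⟨F, hF⟩ : ∃ F : Finset ℕ → Finset ℕ → ℝ, F = fun S S' => if met d j (S, S') then 0 else 1 := ⟨_, rfl⟩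
  have hm := Pool.Agent.W_7d29a1_LB.measurable_PP (μ := μ) (s := s) d L F
  have hi := Pool.Agent.W_7d29a1_LB.integrable_PP (μ := μ) (s := s) d L F
  have hsh : MeasurePreserving (sh ((Γ.M : ℤ), (0 : ℤ))) (law μ) (law μ) := mp_sh _
  have e1 : ∫ η, PP μ s d L (sh ((Γ.M : ℤ), (0 : ℤ)) η) F ∂(law μ) = E2 μ s d L F :=
    hsh.hasLaw.integral_comp (f := fun η : Env => PP μ s d L η F) hm.aestronglyMeasurable
  rw [← hd, ← hF, ← e1]
  refine integral_mono_of_nonneg (ae_of_all _ fun η => ?_) ?_ (ae_of_all _ fun η => ?_)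
  · exact div_nonneg (nm_nonneg (wt_pos η) hp (box60 k1 q0).g _)
      (mul_nonneg (ZM60_pos Γ η).le (ZR60_nonneg q0 η))
  · exact hsh.integrable_comp_of_integrable hi
  · refine (alive_det k1 q0 hK hj η).trans ?_
    have h1 := nq_le_PP (μ := μ) (s := s) η hp (j := j) hN hjL
      (fun i hi => by unfold Cx.p; rw [if_neg (by omega), hs]) 0 d
    rw [zero_add] at h1
    rw [← hd, hF]
    exact h1

/-- The width is at least `n ^ (1/2 - e)` (as `wd_half67`, repeated to keep the imports short). -/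
theorem wd_half99 (h : In μ s c C n₀)
    (hU : ∀ ε : ℝ, 0 < ε → ∃ n₁ : ℕ, ∀ n : ℕ, n₁ ≤ n → EE μ s n ^ 2 ≤ (n : ℝ) ^ ε * wd μ s n) {e : ℝ} (he : 0 < e) :
    ∀ᶠ n : ℕ in atTop, (n : ℝ) ^ (1 / 2 - e) ≤ wd μ s n := by
  obtain ⟨K, hK, hnp⟩ := Pool.Agent.W_7d29a1_HZ.np_weak h
  obtain ⟨n₁, h1⟩ := hU e he
  obtain ⟨n₂, h2⟩ := Pool.Agent.W_7d29a1_HZ.wd'_eq h
  have ev : ∀ᶠ n : ℕ in atTop, K ≤ (n : ℝ) ^ e := ((tendsto_rpow_atTop he).comp tendsto_natCast_atTop_atTop).eventually_ge_atTop _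
  filter_upwards [ev, eventually_ge_atTop n₁, eventually_ge_atTop n₂, eventually_ge_atTop 1] with n g3 hn1' hn2' hn1
  have g1 := h1 n hn1'
  obtain ⟨w1, w2, -⟩ := h2 n hn2'
  have hnR : (1 : ℝ) ≤ n := by exact_mod_cast hn1
  have hn0 : (0 : ℝ) < n := by linarith
  have g4 := hnp n hn1
  rw [w1, w2] at g4
  have hw := h.wd_pos hn1
  have hE := EE_pos (μ := μ) (s := s) n
  have h5 : (n : ℝ) ≤ (n : ℝ) ^ (2 * e) * wd μ s n ^ 2 := by
    calc (n : ℝ) ≤ K * (wd μ s n * EE μ s n ^ 2) := g4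
      _ ≤ (n : ℝ) ^ e * (wd μ s n * ((n : ℝ) ^ e * wd μ s n)) := by
          refine mul_le_mul g3 (mul_le_mul_of_nonneg_left g1 hw.le) (by positivity) (by positivity)
      _ = (n : ℝ) ^ e * (n : ℝ) ^ e * wd μ s n ^ 2 := by ring
      _ = _ := by
        rw [← Real.rpow_add hn0]
        congr 2
        ring
  have h6 : ((n : ℝ) ^ (1 / 2 - e)) ^ 2 ≤ wd μ s n ^ 2 := by
    have e1 : ((n : ℝ) ^ (1 / 2 - e)) ^ 2 = (n : ℝ) ^ (-(2 * e)) * n := by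
      rw [← Real.rpow_natCast, ← Real.rpow_mul hn0.le]
      nth_rewrite 3 [← Real.rpow_one (n : ℝ)]
      rw [← Real.rpow_add hn0]
      congr 1
      push_cast
      ring
    have e2 : (n : ℝ) ^ (-(2 * e)) * ((n : ℝ) ^ (2 * e) * wd μ s n ^ 2) = wd μ s n ^ 2 := by
      rw [← mul_assoc, ← Real.rpow_add hn0]
      have : -(2 * e) + 2 * e = 0 := by ring
      rw [this, Real.rpow_zero, one_mul]
    rw [e1]
    refine le_trans (mul_le_mul_of_nonneg_left h5 (by positivity)) (le_of_eq e2)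
  exact (pow_le_pow_iff_left₀ (by positivity) hw.le (by norm_num)).1 h6

/-- **ALIVE.** In every context of the scale `n`, at every row `K ≥ (M + N) / 2`: the mean share of the pairs which have not met is at most
`n ^ (-1/16)`. -/
theorem alive99 (h : In μ s c C n₀)
    (hU : ∀ ε : ℝ, 0 < ε → ∃ n₁ : ℕ, ∀ n : ℕ, n₁ ≤ n → EE μ s n ^ 2 ≤ (n : ℝ) ^ ε * wd μ s n) :
    ∀ᶠ n : ℕ in atTop, ∀ c₁ δ κ : ℝ, δ ≤ 1 / 8 → ∀ Γ : Cx, Adm μ s c₁ δ κ n Γ → ∀ K : ℕ, Γ.M + Γ.N ≤ 2 * K → K ≤ Γ.N →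
      ∫ η, nm (wt η) Γ.p Cx.l Γ.r 0 Γ.hi Γ.N K / (Γ.ZM η * Γ.ZR η) ∂(law μ) ≤ (n : ℝ) ^ (-(1 / 16) : ℝ) := by
  classical
  obtain ⟨N₀, hmeet⟩ := Pool.Agent.W_7d29a1_LB.meet_of h (Pool.Agent.W_7d29a1_LB.nsf14 h) (ε := 1 / 24) (by norm_num) (by norm_num)
  obtain ⟨a, A, ha, ha1, hA, hwd⟩ := Pool.Agent.W_7d29a1_HZ.Z96.wd_all96 h
  obtain ⟨N₁, hhalf⟩ := eventually_atTop.1 (wd_half99 h hU (e := 1 / 24) (by norm_num))
  have ev1 : ∀ᶠ n : ℕ in atTop, A * max 1 (wd μ s 1) ≤ (n : ℝ) ^ a :=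
    ((tendsto_rpow_atTop ha).comp tendsto_natCast_atTop_atTop).eventually_ge_atTop _
  have ev2 : ∀ᶠ n : ℕ in atTop, (2 : ℝ) ≤ (n : ℝ) ^ (1 / 8 : ℝ) :=
    ((tendsto_rpow_atTop (by norm_num : (0 : ℝ) < 1 / 8)).comp tendsto_natCast_atTop_atTop).eventually_ge_atTop _
  filter_upwards [ev1, ev2, eventually_ge_atTop N₀, eventually_ge_atTop N₁, eventually_ge_atTop 1] with n g1 g2 g3 g4 g5
  intro c₁ δ κ hδ Γ hΓ K hK1 hK2
  obtain ⟨N, L, hnN, -, hNL, -, hMN, hN, -, -⟩ := hΓ.hor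
  have hnR : (1 : ℝ) ≤ n := by exact_mod_cast g5
  have hn0 : (0 : ℝ) < n := by linarith
  have hNR : (n : ℝ) ≤ N := by exact_mod_cast hnN
  have hN0 : (0 : ℝ) < N := by linarith
  have hN1 : (1 : ℝ) ≤ N := by linarith
  have hN3 : N ≤ N ^ 3 := Nat.le_self_pow (by norm_num) N
  have hLR : ((N : ℝ)) ^ 3 ≤ L := by exact_mod_cast hNL
  have hNLR : (N : ℝ) ≤ L := by exact_mod_cast hN3.trans hNL
  have hL0 : (0 : ℝ) < L := by linarith
  -- the distance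
  have hk : (Γ.k : ℝ) ≤ (N : ℝ) ^ (9 / 8 : ℝ) := by
    have h1 := (hwd 1 n le_rfl g5).2.2
    rw [Nat.cast_one, div_one] at h1
    have h2 : wd μ s n ≤ (n : ℝ) ^ (1 : ℝ) := by
      refine (le_max_right 1 (wd μ s n)).trans (h1.trans ?_)
      have h3 : (n : ℝ) ^ (1 : ℝ) = (n : ℝ) ^ a * (n : ℝ) ^ (1 - a) := by
        rw [← Real.rpow_add hn0]
        congr 1
        ring
      rw [h3]
      calc A * (n : ℝ) ^ (1 - a) * max 1 (wd μ s 1) = (A * max 1 (wd μ s 1)) * (n : ℝ) ^ (1 - a) := by ring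
        _ ≤ _ := mul_le_mul_of_nonneg_right g1 (by positivity)
    calc (Γ.k : ℝ) ≤ (n : ℝ) ^ δ * wd μ s n := hΓ.k2
      _ ≤ (n : ℝ) ^ (1 / 8 : ℝ) * (n : ℝ) ^ (1 : ℝ) :=
          mul_le_mul (Real.rpow_le_rpow_of_exponent_le hnR hδ) h2 (h.wd_pos g5).le (by positivity)
      _ = (n : ℝ) ^ (9 / 8 : ℝ) := by
          rw [← Real.rpow_add hn0]
          congr 1
          norm_num
      _ ≤ _ := Real.rpow_le_rpow hn0.le hNR (by norm_num)
  have hd : ((Γ.k + Γ.M : ℕ) : ℝ) ≤ (L : ℝ) ^ (-(1 / 24) : ℝ) * wd μ s L := by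
    have h1 : (Γ.M : ℝ) ≤ (N : ℝ) ^ (9 / 8 : ℝ) := by
      have h2 : (Γ.M : ℝ) ≤ N := by exact_mod_cast hMN
      refine h2.trans ?_
      nth_rewrite 1 [← Real.rpow_one (N : ℝ)]
      exact Real.rpow_le_rpow_of_exponent_le hN1 (by norm_num)
    have h3 : (2 : ℝ) ≤ (N : ℝ) ^ (1 / 8 : ℝ) := g2.trans (Real.rpow_le_rpow hn0.le hNR (by norm_num))
    have h4 : (N : ℝ) ^ (5 / 4 : ℝ) ≤ (L : ℝ) ^ (5 / 12 : ℝ) := by
      have h5 : (N : ℝ) ^ (5 / 4 : ℝ) = ((N : ℝ) ^ 3) ^ (5 / 12 : ℝ) := by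
        rw [← Real.rpow_natCast, ← Real.rpow_mul hN0.le]
        congr 1
        norm_num
      rw [h5]
      exact Real.rpow_le_rpow (by positivity) hLR (by norm_num)
    have h6 : (L : ℝ) ^ (5 / 12 : ℝ) = (L : ℝ) ^ (-(1 / 24) : ℝ) * (L : ℝ) ^ (1 / 2 - 1 / 24 : ℝ) := by
      rw [← Real.rpow_add hL0]
      congr 1
      norm_num
    have h7 := hhalf L (by
      have := hN3.trans hNL
      omega)
    calc ((Γ.k + Γ.M : ℕ) : ℝ) = (Γ.k : ℝ) + Γ.M := by push_cast; ring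
      _ ≤ 2 * (N : ℝ) ^ (9 / 8 : ℝ) := by linarith
      _ ≤ (N : ℝ) ^ (1 / 8 : ℝ) * (N : ℝ) ^ (9 / 8 : ℝ) := mul_le_mul_of_nonneg_right h3 (by positivity)
      _ = (N : ℝ) ^ (5 / 4 : ℝ) := by
          rw [← Real.rpow_add hN0]
          congr 1
          norm_num
      _ ≤ (L : ℝ) ^ (5 / 12 : ℝ) := h4
      _ = (L : ℝ) ^ (-(1 / 24) : ℝ) * (L : ℝ) ^ (1 / 2 - 1 / 24 : ℝ) := h6
      _ ≤ _ := mul_le_mul_of_nonneg_left h7 (by positivity)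
  have k1 := hΓ.k1
  have h8 := hmeet L (by
    have := hN3.trans hNL
    omega) (Γ.k + Γ.M) (by omega) hd
  refine (alive_E2 (μ := μ) (s := s) hΓ.hs k1 hΓ.q0 hN hK2 (j := L / 2) (by omega) (by omega)).trans (h8.trans ?_)
  have h9 : (L : ℝ) ^ (-(1 / 24 / 2) : ℝ) ≤ ((n : ℝ) ^ 3) ^ (-(1 / 24 / 2) : ℝ) := by
    refine Real.rpow_le_rpow_of_nonpos (by positivity) ?_ (by norm_num)
    calc (n : ℝ) ^ 3 ≤ (N : ℝ) ^ 3 := pow_le_pow_left₀ hn0.le hNR 3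
      _ ≤ L := hLR
  refine h9.trans (le_of_eq ?_)
  rw [← Real.rpow_natCast, ← Real.rpow_mul hn0.le]
  congr 1
  norm_num

end

end Pool.Agent.W_7d29a1_C1.K99
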