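import Pool.Agent.W_7d29a1_C1.PairP91

/-!
Both halves (MP_7d29a1_pr), attractor route: **the probability that two replicas have not met** (helper99). `nq N k j x y` is the quenched
probability that the paths from `x` and `y` in the row `k` have not met in the next `j` rows (`N` rows in all). It is antitone in `x`,
monotone in `y`, antitone in `j`. The mass `nm` of the pairs which have not met at the row `K` is at most `nq` times the total mass.
-/

set_option autoImplicit false

namespace Pool.Agent.W_7d29a1_C1.K99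

open Finset
open Pool.Agent.W_7d29a1_C1.K91 (Grp Box ps2 ps2_congr ps2_mul)
open Pool.Agent.W_7d29a1_C1.K91P

noncomputable section

variable {w : ℕ → ℤ → ℝ} {p : ℕ → ℝ} {l r : ℤ → ℝ} {X lo hi : ℤ}

/-- One step of a walk with the transition masses `b x`, `P * b (x + 1)`. -/
def av (b : ℤ → ℝ) (P : ℝ) (f : ℤ → ℝ) (x : ℤ) : ℝ := (b x * f x + P * b (x + 1) * f (x + 1)) / (b x + P * b (x + 1))

section av

variable {b : ℤ → ℝ} {P : ℝ}

theorem av_mono (hb : ∀ x, 0 < b x) (hP : 0 < P) {f g : ℤ → ℝ} (h : ∀ x, f x ≤ g x) (x : ℤ) : av b P f x ≤ av b P g x := by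
  unfold av
  have h1 := hb x
  have h2 := hb (x + 1)
  refine div_le_div_of_nonneg_right ?_ (by positivity)
  have h3 := mul_le_mul_of_nonneg_left (h x) h1.le
  have h4 := mul_le_mul_of_nonneg_left (h (x + 1)) (show 0 ≤ P * b (x + 1) by positivity)
  linarith

theorem av_le (hb : ∀ x, 0 < b x) (hP : 0 < P) {f : ℤ → ℝ} {x : ℤ} {B : ℝ} (h0 : f x ≤ B) (h1 : f (x + 1) ≤ B) : av b P f x ≤ B := by
  unfold av
  have h2 := hb x
  have h3 := hb (x + 1)
  rw [div_le_iff₀ (by positivity)]
  have h4 := mul_le_mul_of_nonneg_left h0 h2.le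
  have h5 := mul_le_mul_of_nonneg_left h1 (show 0 ≤ P * b (x + 1) by positivity)
  linarith

theorem le_av (hb : ∀ x, 0 < b x) (hP : 0 < P) {f : ℤ → ℝ} {x : ℤ} {B : ℝ} (h0 : B ≤ f x) (h1 : B ≤ f (x + 1)) : B ≤ av b P f x := by
  unfold av
  have h2 := hb x
  have h3 := hb (x + 1)
  rw [le_div_iff₀ (by positivity)]
  have h4 := mul_le_mul_of_nonneg_left h0 h2.le
  have h5 := mul_le_mul_of_nonneg_left h1 (show 0 ≤ P * b (x + 1) by positivity)
  linarith

theorem av_anti (hb : ∀ x, 0 < b x) (hP : 0 < P) {f : ℤ → ℝ} (h : Antitone f) : Antitone (av b P f) := by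
  intro x y hxy
  rcases hxy.lt_or_eq with h1 | h1
  · exact (av_le hb hP (B := f y) le_rfl (h (by omega))).trans (le_av hb hP (h (by omega)) (h (by omega)))
  · rw [h1]

theorem av_monot (hb : ∀ x, 0 < b x) (hP : 0 < P) {f : ℤ → ℝ} (h : Monotone f) : Monotone (av b P f) := by
  intro x y hxy
  rcases hxy.lt_or_eq with h1 | h1
  · exact (av_le hb hP (B := f y) (h (by omega)) (h (by omega))).trans (le_av hb hP le_rfl (h (by omega)))
  · rw [h1]

end av

/-- **The quenched probability that the paths from `x` and `y` in the row `k` have not met in the next `j` rows.** -/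
def nq (w : ℕ → ℤ → ℝ) (p : ℕ → ℝ) (N : ℕ) : ℕ → ℕ → ℤ → ℤ → ℝ
  | _, 0, x, y => if x < y then 1 else 0
  | k, j + 1, x, y => if x < y then av (bw w p (k + 1) (N - (k + 1))) (p k)
      (fun x => av (bw w p (k + 1) (N - (k + 1))) (p k) (fun y => nq w p N (k + 1) j x y) y) x else 0

variable {N : ℕ}

theorem nq_zero (k : ℕ) (x y : ℤ) : nq w p N k 0 x y = if x < y then 1 else 0 := by
  cases k <;> rfl

theorem nq_succ (k j : ℕ) (x y : ℤ) : nq w p N k (j + 1) x y = if x < y then av (bw w p (k + 1) (N - (k + 1))) (p k)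
    (fun x => av (bw w p (k + 1) (N - (k + 1))) (p k) (fun y => nq w p N (k + 1) j x y) y) x else 0 := by
  cases k <;> rfl

theorem nq_mem (hw : ∀ k y, 0 < w k y) (hp : ∀ k, 0 < p k) : ∀ (j k : ℕ) (x y : ℤ), 0 ≤ nq w p N k j x y ∧ nq w p N k j x y ≤ 1
  | 0, k, x, y => by
    rw [nq_zero]
    split_ifs <;> norm_num
  | j + 1, k, x, y => by
    rw [nq_succ]
    have hb := bw_pos hw hp (N - (k + 1)) (k + 1)
    split_ifs
    · exact ⟨le_av hb (hp k) (le_av hb (hp k) (nq_mem hw hp j (k + 1) _ _).1 (nq_mem hw hp j (k + 1) _ _).1)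
          (le_av hb (hp k) (nq_mem hw hp j (k + 1) _ _).1 (nq_mem hw hp j (k + 1) _ _).1),
        av_le hb (hp k) (av_le hb (hp k) (nq_mem hw hp j (k + 1) _ _).2 (nq_mem hw hp j (k + 1) _ _).2)
          (av_le hb (hp k) (nq_mem hw hp j (k + 1) _ _).2 (nq_mem hw hp j (k + 1) _ _).2)⟩
    · norm_num

/-- Antitone in the left site, monotone in the right site. -/
theorem nq_ord (hw : ∀ k y, 0 < w k y) (hp : ∀ k, 0 < p k) : ∀ (j k : ℕ),
    (∀ y, Antitone fun x => nq w p N k j x y) ∧ ∀ x, Monotone fun y => nq w p N k j x y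
  | 0, k => by
    constructor
    · intro y x x' hx
      show nq w p N k 0 x' y ≤ nq w p N k 0 x y
      rw [nq_zero, nq_zero]
      by_cases h1 : x' < y
      · rw [if_pos h1, if_pos (by omega)]
      · rw [if_neg h1]
        split_ifs <;> norm_num
    · intro x y y' hy
      show nq w p N k 0 x y ≤ nq w p N k 0 x y'
      rw [nq_zero, nq_zero]
      by_cases h1 : x < y
      · rw [if_pos h1, if_pos (by omega)]
      · rw [if_neg h1]
        split_ifs <;> norm_num
  | j + 1, k => by
    obtain ⟨i1, i2⟩ := nq_ord hw hp j (k + 1)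
    have hb := bw_pos hw hp (N - (k + 1)) (k + 1)
    constructor
    · intro y x x' hx
      show nq w p N k (j + 1) x' y ≤ nq w p N k (j + 1) x y
      have h0 := nq_mem (N := N) hw hp (j + 1) k x y
      rw [nq_succ k j x' y]
      by_cases h1 : x' < y
      · rw [if_pos h1, nq_succ, if_pos (by omega)]
        refine av_anti hb (hp k) (f := fun x => av (bw w p (k + 1) (N - (k + 1))) (p k) (fun y => nq w p N (k + 1) j x y) y) ?_ hx
        intro a a' ha
        exact av_mono hb (hp k) (fun z => i1 z ha) y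
      · rw [if_neg h1]
        exact h0.1
    · intro x y y' hy
      show nq w p N k (j + 1) x y ≤ nq w p N k (j + 1) x y'
      have h0 := nq_mem (N := N) hw hp (j + 1) k x y'
      rw [nq_succ k j x y]
      by_cases h1 : x < y
      · rw [if_pos h1, nq_succ, if_pos (by omega)]
        exact av_mono hb (hp k) (fun z => av_monot hb (hp k) (i2 z) hy) x
      · rw [if_neg h1]
        exact h0.1

theorem nq_le (hw : ∀ k y, 0 < w k y) (hp : ∀ k, 0 < p k) {j k : ℕ} {x x' y y' : ℤ} (hx : x' ≤ x) (hy : y ≤ y') :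
    nq w p N k j x y ≤ nq w p N k j x' y' :=
  ((nq_ord hw hp j k).1 y hx).trans ((nq_ord hw hp j k).2 x' hy)

/-- Antitone in the number of rows. -/
theorem nq_anti (hw : ∀ k y, 0 < w k y) (hp : ∀ k, 0 < p k) : ∀ (j k : ℕ) (x y : ℤ), nq w p N k (j + 1) x y ≤ nq w p N k j x y
  | 0, k, x, y => by
    have h0 := nq_mem (N := N) hw hp 1 k x y
    rw [nq_zero]
    by_cases h1 : x < y
    · rw [if_pos h1]
      exact h0.2
    · rw [if_neg h1, nq_succ, if_neg h1]
  | j + 1, k, x, y => by
    have hb := bw_pos hw hp (N - (k + 1)) (k + 1)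
    rw [nq_succ, nq_succ]
    by_cases h1 : x < y
    · rw [if_pos h1, if_pos h1]
      exact av_mono hb (hp k) (fun z => av_mono hb (hp k) (fun z' => nq_anti hw hp j (k + 1) z z') y) x
    · rw [if_neg h1, if_neg h1]

theorem nq_anti' (hw : ∀ k y, 0 < w k y) (hp : ∀ k, 0 < p k) {j j' : ℕ} (h : j ≤ j') (k : ℕ) (x y : ℤ) :
    nq w p N k j' x y ≤ nq w p N k j x y := by
  induction j', h using Nat.le_induction with
  | base => exact le_rfl
  | succ m _ ih => exact (nq_anti hw hp m k x y).trans ih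

/-- The first `m` rows: the left path goes straight, the right path goes to the right. -/
theorem nq_push (hw : ∀ k y, 0 < w k y) (hp : ∀ k, 0 < p k) : ∀ (m k j : ℕ) (x y : ℤ),
    nq w p N k (m + j) x y ≤ nq w p N (k + m) j x (y + m)
  | 0, k, j, x, y => by
    rw [Nat.zero_add, Nat.add_zero, Nat.cast_zero, add_zero]
  | m + 1, k, j, x, y => by
    have hb := bw_pos hw hp (N - (k + 1)) (k + 1)
    have h0 := nq_mem (N := N) hw hp j (k + (m + 1)) x (y + ((m + 1 : ℕ) : ℤ))
    have e : m + 1 + j = (m + j) + 1 := by ring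
    rw [e, nq_succ]
    split_ifs with h1
    · have h2 : ∀ x' y' : ℤ, x ≤ x' → y' ≤ y + 1 → nq w p N (k + 1) (m + j) x' y' ≤
          nq w p N (k + (m + 1)) j x (y + ((m + 1 : ℕ) : ℤ)) := by
        intro x' y' hx hy
        refine (nq_le hw hp hx hy).trans ((nq_push hw hp m (k + 1) j x (y + 1)).trans (le_of_eq ?_))
        congr 1
        · omega
        · push_cast
          ring
      exact av_le hb (hp k) (av_le hb (hp k) (h2 _ _ le_rfl (by omega)) (h2 _ _ le_rfl le_rfl))
        (av_le hb (hp k) (h2 _ _ (by omega) (by omega)) (h2 _ _ (by omega) le_rfl))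
    · exact h0.1

/-- **The two path kernel is `nq` times the total masses.** -/
theorem pb_nq (hw : ∀ k y, 0 < w k y) (hp : ∀ k, 0 < p k) {K : ℕ} (hK : K ≤ N) : ∀ (j k : ℕ), k + j = K → ∀ x y : ℤ,
    pb w p (fun a b => bw w p K (N - K) a * bw w p K (N - K) b) k j x y =
      nq w p N k j x y * (bw w p k (N - k) x * bw w p k (N - k) y)
  | 0, k, hk, x, y => by
    rw [pb_zero, nq_zero, show k = K by omega]
    split_ifs <;> ring
  | j + 1, k, hk, x, y => by
    have h1 := pb_nq hw hp hK j (k + 1) (by omega)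
    have hkN : k < N := by omega
    rw [pb_succ, nq_succ, h1, h1, h1, h1, bw_eq hkN, bw_eq hkN]
    have hb := bw_pos hw hp (N - (k + 1)) (k + 1)
    split_ifs with h2
    · unfold av GG
      have a1 := hb x
      have a2 := hb (x + 1)
      have a3 := hb y
      have a4 := hb (y + 1)
      have a5 := hp k
      have n1 : bw w p (k + 1) (N - (k + 1)) x + p k * bw w p (k + 1) (N - (k + 1)) (x + 1) ≠ 0 := by positivity
      have n2 : bw w p (k + 1) (N - (k + 1)) y + p k * bw w p (k + 1) (N - (k + 1)) (y + 1) ≠ 0 := by positivity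
      field_simp
      ring
    · ring

/-- **The mass of the pairs which have not met.** -/
theorem nm_le_nq (hw : ∀ k y, 0 < w k y) (hp : ∀ k, 0 < p k) (h : Box l r X lo hi N) {K : ℕ} (hK : K ≤ N) {a b : ℤ}
    (ha : ∀ x, l x ≠ 0 → a ≤ x) (hb : ∀ y, r y ≠ 0 → y ≤ b) :
    nm w p l r lo hi N K ≤ nq w p N 0 K a b *
      ((∑ x ∈ Icc lo hi, l x * bw w p 0 N x) * ∑ y ∈ Icc lo hi, r y * bw w p 0 N y) := by
  have h1 := sum_dp_pb (w := w) (p := p) h (fun a b => bw w p K (N - K) a * bw w p K (N - K) b) K 0 (by omega)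
  rw [Nat.zero_add] at h1
  have h2 : nm w p l r lo hi N K = ps2 lo hi (fun x y => dp w p l r K x y *
      if x < y then bw w p K (N - K) x * bw w p K (N - K) y else 0) := rfl
  rw [h2, ← h1, sum_mul_sum, mul_sum]
  unfold ps2
  refine sum_le_sum fun x _ => ?_
  rw [mul_sum]
  refine sum_le_sum fun y _ => ?_
  show dp w p l r 0 x y * pb w p (fun a b => bw w p K (N - K) a * bw w p K (N - K) b) 0 K x y ≤ _
  rw [pb_nq hw hp hK K 0 (by omega) x y, Nat.sub_zero]
  have b1 := bw_pos hw hp N 0 x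
  have b2 := bw_pos hw hp N 0 y
  have l0 := h.g.l0
  have r0 := h.g.r0
  have q0 := nq_mem (N := N) hw hp K 0 x y
  have q1 := nq_mem (N := N) hw hp K 0 a b
  have e1 : dp w p l r 0 x y ≤ l x * r y := by
    show l x * r y - l y * r x ≤ l x * r y
    have := mul_nonneg (l0 y) (r0 x)
    linarith
  have e2 : l x * r y * nq w p N 0 K x y ≤ l x * r y * nq w p N 0 K a b := by
    by_cases hx : l x = 0
    · rw [hx]
      simp
    · by_cases hy : r y = 0
      · rw [hy]
        simp
      · exact mul_le_mul_of_nonneg_left (nq_le hw hp (ha x hx) (hb y hy)) (mul_nonneg (l0 x) (r0 y))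
  calc dp w p l r 0 x y * (nq w p N 0 K x y * (bw w p 0 N x * bw w p 0 N y))
      ≤ l x * r y * (nq w p N 0 K x y * (bw w p 0 N x * bw w p 0 N y)) :=
        mul_le_mul_of_nonneg_right e1 (mul_nonneg q0.1 (by positivity))
    _ = (l x * r y * nq w p N 0 K x y) * (bw w p 0 N x * bw w p 0 N y) := by ring
    _ ≤ (l x * r y * nq w p N 0 K a b) * (bw w p 0 N x * bw w p 0 N y) :=
        mul_le_mul_of_nonneg_right e2 (by positivity)
    _ = _ := by ring

end

end Pool.Agent.W_7d29a1_C1.K99
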