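import Pool.Agent.W_7d29a1_C1.AliveA99
import Pool.Agent.W_7d29a1_X.Path89

/-!
Both halves (MP_7d29a1_pr), attractor route: **sums over paths** (helper99). The backward masses and the two path kernel as sums over the
sets of right steps. The weights of a path from the site `x` of the row `k`: `PW w p k t x S`.
-/

set_option autoImplicit false

namespace Pool.Agent.W_7d29a1_C1.K99

open Finset
open Pool.Agent.W_7d29a1_X (pos pos_insert pos_insert_succ pos_succ_of pos_zero pos_inter)
open Pool.Agent.W_7d29a1_C1.K91P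

noncomputable section

variable {w : ℕ → ℤ → ℝ} {p : ℕ → ℝ}

/-- The weight of `t` rows of the path with the right steps `S`, from the site `x` of the row `k`. -/
def PW (w : ℕ → ℤ → ℝ) (p : ℕ → ℝ) (k t : ℕ) (x : ℤ) (S : Finset ℕ) : ℝ :=
  ∏ i ∈ range t, (w (k + i) (x + pos S i) * if i ∈ S then p (k + i) else 1)

/-- Backward masses with the final weight `G`. -/
def bwf (w : ℕ → ℤ → ℝ) (p : ℕ → ℝ) (G : ℤ → ℝ) : ℕ → ℕ → ℤ → ℝ
  | _, 0, x => G x
  | k, t + 1, x => w k x * (bwf w p G (k + 1) t x + p k * bwf w p G (k + 1) t (x + 1))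

theorem bwf_zero (G : ℤ → ℝ) (k : ℕ) (x : ℤ) : bwf w p G k 0 x = G x := by
  cases k <;> rfl

theorem bwf_succ (G : ℤ → ℝ) (k t : ℕ) (x : ℤ) :
    bwf w p G k (t + 1) x = w k x * (bwf w p G (k + 1) t x + p k * bwf w p G (k + 1) t (x + 1)) := by
  cases k <;> rfl

/-- The last step. -/
theorem bwf_last (G : ℤ → ℝ) : ∀ (t k : ℕ) (x : ℤ), bwf w p G k (t + 1) x =
    bwf w p (fun a => w (k + t) a * (G a + p (k + t) * G (a + 1))) k t x
  | 0, k, x => by
    rw [bwf_succ, bwf_zero, bwf_zero, bwf_zero, Nat.add_zero]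
  | t + 1, k, x => by
    rw [bwf_succ, bwf_last G t (k + 1) x, bwf_last G t (k + 1) (x + 1), bwf_succ]
    have e : k + 1 + t = k + (t + 1) := by ring
    rw [e]

theorem bw_bwf (i : ℕ) : ∀ (t k : ℕ) (x : ℤ), bw w p k (t + i) x = bwf w p (bw w p (k + t) i) k t x
  | 0, k, x => by
    rw [bwf_zero, Nat.zero_add, Nat.add_zero]
  | t + 1, k, x => by
    rw [show t + 1 + i = t + i + 1 by ring, bw_succ, bw_bwf i t (k + 1) x, bw_bwf i t (k + 1) (x + 1), bwf_succ]
    have e : k + 1 + t = k + (t + 1) := by ring
    rw [e]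

theorem PW_zero (k : ℕ) (x : ℤ) (S : Finset ℕ) : PW w p k 0 x S = 1 := by
  unfold PW
  rw [range_zero, prod_empty]

theorem PW_nonneg (hw : ∀ k y, 0 < w k y) (hp : ∀ k, 0 < p k) (k t : ℕ) (x : ℤ) (S : Finset ℕ) : 0 ≤ PW w p k t x S := by
  unfold PW
  refine prod_nonneg fun i _ => mul_nonneg (hw _ _).le ?_
  split_ifs
  · exact (hp _).le
  · norm_num

theorem PW_succ_of (k : ℕ) {t : ℕ} (x : ℤ) {S : Finset ℕ} (h : S ⊆ range t) :
    PW w p k (t + 1) x S = PW w p k t x S * w (k + t) (x + pos S t) := by
  have h2 : t ∉ S := fun h3 => by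
    have := h h3
    simp at this
  unfold PW
  rw [prod_range_succ, if_neg h2, mul_one]

theorem PW_succ_insert (k : ℕ) {t : ℕ} (x : ℤ) (S : Finset ℕ) :
    PW w p k (t + 1) x (insert t S) = PW w p k t x S * (w (k + t) (x + pos S t) * p (k + t)) := by
  unfold PW
  rw [prod_range_succ, if_pos (mem_insert_self t S), pos_insert le_rfl]
  congr 1
  refine prod_congr rfl fun i hi => ?_
  rw [mem_range] at hi
  rw [pos_insert hi.le]
  congr 1
  have : i ∈ insert t S ↔ i ∈ S := by
    rw [mem_insert]
    constructor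
    · rintro (h | h)
      · omega
      · exact h
    · exact Or.inr
  by_cases h3 : i ∈ S
  · rw [if_pos h3, if_pos (this.2 h3)]
  · rw [if_neg h3, if_neg fun h4 => h3 (this.1 h4)]

/-- The last step of a sum over paths. -/
theorem sum_last (f : Finset ℕ → ℝ) (t : ℕ) :
    ∑ S ∈ (range (t + 1)).powerset, f S = ∑ S ∈ (range t).powerset, (f S + f (insert t S)) := by
  rw [range_add_one, sum_powerset_insert notMem_range_self, ← sum_add_distrib]

/-- **Backward masses are sums over paths.** -/
theorem sum_PW (k : ℕ) (x : ℤ) : ∀ (t : ℕ) (G : ℤ → ℝ),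
    ∑ S ∈ (range t).powerset, PW w p k t x S * G (x + pos S t) = bwf w p G k t x
  | 0, G => by
    rw [range_zero, powerset_empty, sum_singleton, PW_zero, pos_zero, add_zero, one_mul, bwf_zero]
  | t + 1, G => by
    rw [sum_last, bwf_last, ← sum_PW k x t]
    refine sum_congr rfl fun S hS => ?_
    rw [mem_powerset] at hS
    rw [PW_succ_of k x hS, PW_succ_insert k x S, pos_succ_of hS, pos_insert_succ hS, ← add_assoc]
    ring

open Classical in
/-- The paths from `x` and `y` have not met until the row `j`. -/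
def NI (x y : ℤ) (j : ℕ) (S S' : Finset ℕ) : Prop := ∀ i ≤ j, x + pos S i < y + pos S' i

theorem NI_succ {x y : ℤ} {j : ℕ} {S S' : Finset ℕ} :
    NI x y (j + 1) S S' ↔ NI x y j S S' ∧ x + pos S (j + 1) < y + pos S' (j + 1) := by
  constructor
  · intro h
    exact ⟨fun i hi => h i (by omega), h (j + 1) le_rfl⟩
  · rintro ⟨h1, h2⟩ i hi
    rcases Nat.lt_or_ge i (j + 1) with h3 | h3
    · exact h1 i (by omega)
    · rw [show i = j + 1 by omega]
      exact h2

theorem NI_insert_left {x y : ℤ} {j t : ℕ} (h : j ≤ t) {S S' : Finset ℕ} : NI x y j (insert t S) S' ↔ NI x y j S S' := by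
  unfold NI
  refine forall_congr' fun i => ?_
  constructor
  · intro h1 h2
    have := h1 h2
    rwa [pos_insert (by omega)] at this
  · intro h1 h2
    have := h1 h2
    rwa [pos_insert (by omega)]

theorem NI_insert_right {x y : ℤ} {j t : ℕ} (h : j ≤ t) {S S' : Finset ℕ} : NI x y j S (insert t S') ↔ NI x y j S S' := by
  unfold NI
  refine forall_congr' fun i => ?_
  constructor
  · intro h1 h2
    have := h1 h2
    rwa [pos_insert (by omega)] at this
  · intro h1 h2
    have := h1 h2
    rwa [pos_insert (by omega)]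

/-- The last step of the two path kernel. -/
theorem pb_last (g : ℤ → ℤ → ℝ) : ∀ (t k : ℕ) (x y : ℤ), pb w p g k (t + 1) x y =
    pb w p (fun a b => pb w p g (k + t) 1 a b) k t x y
  | 0, k, x, y => by
    rw [pb_zero, Nat.add_zero]
    split_ifs with h
    · rfl
    · exact pb_not g k 1 h
  | t + 1, k, x, y => by
    have e : k + 1 + t = k + (t + 1) := by ring
    rw [pb_succ g k (t + 1) x y, pb_last g t (k + 1) x y, pb_last g t (k + 1) (x + 1) y, pb_last g t (k + 1) x (y + 1),
      pb_last g t (k + 1) (x + 1) (y + 1), pb_succ _ k t x y, e]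

open Classical in
/-- **The two path kernel is a sum over pairs of paths.** -/
theorem sum_NI (k : ℕ) (x y : ℤ) : ∀ (t : ℕ) (g : ℤ → ℤ → ℝ),
    ∑ S ∈ (range t).powerset, ∑ S' ∈ (range t).powerset, (if NI x y t S S' then 1 else 0) *
      (PW w p k t x S * PW w p k t y S' * g (x + pos S t) (y + pos S' t)) = pb w p g k t x y
  | 0, g => by
    rw [range_zero, powerset_empty, sum_singleton, sum_singleton, PW_zero, PW_zero, pos_zero, add_zero, add_zero, pb_zero]
    by_cases h : x < y
    · have h1 : NI x y 0 ∅ ∅ := fun i hi => by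
        rw [show i = 0 by omega, pos_zero, add_zero, add_zero]
        exact h
      rw [if_pos h1, if_pos h]
      ring
    · have h1 : ¬ NI x y 0 ∅ ∅ := fun h2 => h (by
        have := h2 0 le_rfl
        rwa [pos_zero, add_zero, add_zero] at this)
      rw [if_neg h1, if_neg h]
      ring
  | t + 1, g => by
    rw [sum_last, pb_last, ← sum_NI k x y t]
    refine sum_congr rfl fun S hS => ?_
    rw [mem_powerset] at hS
    rw [sum_last, sum_last, ← sum_add_distrib]
    refine sum_congr rfl fun S' hS' => ?_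
    rw [mem_powerset] at hS'
    obtain ⟨I, hI⟩ : ∃ I : ℝ, I = if NI x y t S S' then 1 else 0 := ⟨_, rfl⟩
    have key : ∀ (A B : Finset ℕ) (a b : ℤ), (NI x y t A B ↔ NI x y t S S') → x + pos A (t + 1) = a → y + pos B (t + 1) = b →
        (if NI x y (t + 1) A B then (1 : ℝ) else 0) = I * if a < b then 1 else 0 := by
      intro A B a b h1 h2 h3
      rw [hI]
      by_cases h4 : NI x y t S S'
      · by_cases h5 : a < b
        · rw [if_pos (NI_succ.2 ⟨h1.2 h4, by rw [h2, h3]; exact h5⟩), if_pos h4, if_pos h5, mul_one]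
        · rw [if_neg fun h6 => h5 (by rw [← h2, ← h3]; exact (NI_succ.1 h6).2), if_pos h4, if_neg h5, mul_zero]
      · rw [if_neg fun h6 => h4 (h1.1 (NI_succ.1 h6).1), if_neg h4, zero_mul]
    rw [key S S' (x + pos S t) (y + pos S' t) Iff.rfl (by rw [pos_succ_of hS]) (by rw [pos_succ_of hS']),
      key S (insert t S') (x + pos S t) (y + pos S' t + 1) (NI_insert_right le_rfl) (by rw [pos_succ_of hS])
        (by rw [pos_insert_succ hS', add_assoc]),
      key (insert t S) S' (x + pos S t + 1) (y + pos S' t) (NI_insert_left le_rfl) (by rw [pos_insert_succ hS, add_assoc])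
        (by rw [pos_succ_of hS']),
      key (insert t S) (insert t S') (x + pos S t + 1) (y + pos S' t + 1)
        ((NI_insert_left le_rfl).trans (NI_insert_right le_rfl)) (by rw [pos_insert_succ hS, add_assoc])
        (by rw [pos_insert_succ hS', add_assoc])]
    have ex : x + (pos S t + 1) = x + pos S t + 1 := by ring
    have ey : y + (pos S' t + 1) = y + pos S' t + 1 := by ring
    rw [PW_succ_of k x hS, PW_succ_insert k x S, PW_succ_of k y hS', PW_succ_insert k y S', pos_succ_of hS,
      pos_insert_succ hS, pos_succ_of hS', pos_insert_succ hS', ← hI, ex, ey]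
    rw [show (1 : ℕ) = 0 + 1 from rfl, pb_succ g (k + t) 0, pb_zero, pb_zero, pb_zero, pb_zero]
    have hlt : I * (if x + pos S t < y + pos S' t then (1 : ℝ) else 0) = I := by
      rw [hI]
      by_cases h4 : NI x y t S S'
      · rw [if_pos h4, if_pos (h4 t le_rfl), mul_one]
      · rw [if_neg h4, zero_mul]
    by_cases h5 : x + pos S t < y + pos S' t
    · rw [if_pos h5]
      split_ifs <;> ring
    · rw [if_neg h5, mul_zero] at hlt
      rw [← hlt]
      ring

open Classical in
/-- **Not met until the row `j` of `j + m` rows.** -/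
theorem sum_NI_add (k j : ℕ) (x y : ℤ) : ∀ (m : ℕ) (G G' : ℤ → ℝ),
    ∑ S ∈ (range (j + m)).powerset, ∑ S' ∈ (range (j + m)).powerset, (if NI x y j S S' then 1 else 0) *
      ((PW w p k (j + m) x S * G (x + pos S (j + m))) * (PW w p k (j + m) y S' * G' (y + pos S' (j + m)))) =
    pb w p (fun a b => bwf w p G (k + j) m a * bwf w p G' (k + j) m b) k j x y
  | 0, G, G' => by
    rw [Nat.add_zero, ← sum_NI k x y j]
    refine sum_congr rfl fun S _ => sum_congr rfl fun S' _ => ?_
    rw [bwf_zero, bwf_zero]
    ring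
  | m + 1, G, G' => by
    have e : j + (m + 1) = (j + m) + 1 := by ring
    have e1 : ∀ a, bwf w p G (k + j) (m + 1) a =
        bwf w p (fun a => w (k + j + m) a * (G a + p (k + j + m) * G (a + 1))) (k + j) m a := fun a => bwf_last G m (k + j) a
    have e2 : ∀ a, bwf w p G' (k + j) (m + 1) a =
        bwf w p (fun a => w (k + j + m) a * (G' a + p (k + j + m) * G' (a + 1))) (k + j) m a := fun a => bwf_last G' m (k + j) a
    simp only [e1, e2]
    rw [← sum_NI_add k j x y m, e, sum_last]
    refine sum_congr rfl fun S hS => ?_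
    rw [mem_powerset] at hS
    rw [sum_last, sum_last, ← sum_add_distrib]
    refine sum_congr rfl fun S' hS' => ?_
    rw [mem_powerset] at hS'
    have f1 : (if NI x y j S (insert (j + m) S') then (1 : ℝ) else 0) = if NI x y j S S' then 1 else 0 := by
      simp only [NI_insert_right (show j ≤ j + m by omega)]
    have f2 : (if NI x y j (insert (j + m) S) S' then (1 : ℝ) else 0) = if NI x y j S S' then 1 else 0 := by
      simp only [NI_insert_left (show j ≤ j + m by omega)]
    have f3 : (if NI x y j (insert (j + m) S) (insert (j + m) S') then (1 : ℝ) else 0) = if NI x y j S S' then 1 else 0 := by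
      simp only [NI_insert_left (show j ≤ j + m by omega), NI_insert_right (show j ≤ j + m by omega)]
    have ex : x + (pos S (j + m) + 1) = x + pos S (j + m) + 1 := by ring
    have ey : y + (pos S' (j + m) + 1) = y + pos S' (j + m) + 1 := by ring
    have ek : k + (j + m) = k + j + m := by ring
    rw [f1, f2, f3, PW_succ_of k x hS, PW_succ_insert k x S, PW_succ_of k y hS', PW_succ_insert k y S', pos_succ_of hS,
      pos_insert_succ hS, pos_succ_of hS', pos_insert_succ hS', ex, ey, ek]
    ring

end

end Pool.Agent.W_7d29a1_C1.K99
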