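import Pool.Agent.W_7d29a1_C1.AliveB99
import Pool.Agent.W_7d29a1_C1.ContrEP91
import Pool.Agent.W_7d29a1_LB.Swap82

/-!
Both halves (MP_7d29a1_pr), attractor route: **`nq` at the row `M` of the environment is the probability `PP` of `LB/Swap82` that two
polymers with free ends and `L` rows do not meet** (helper99). The weight of the row `M` plays no role.
-/

set_option autoImplicit false

namespace Pool.Agent.W_7d29a1_C1.K99

open Finset MeasureTheory ProbabilityTheory
open Pool.Agent.W_7d29a1_F Pool.Agent.W_7d29a1_X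
open Pool.Agent.W_7d29a1_LB (PP E2 met dst)
open Pool.Agent.W_7d29a1_C1.K91 (wt wt_pos)
open Pool.Agent.W_7d29a1_C1.K91P

noncomputable section

variable {μ : Measure ℝ} {s : ℝ}

theorem prod_steps (S : Finset ℕ) (P : ℕ → ℝ) (M L : ℕ) (hP : ∀ i, M ≤ i → P i = Real.exp s) :
    ∏ i ∈ range L, (if i ∈ S then P (M + i) else 1) = Real.exp (s * (pos S L : ℝ)) := by
  have e1 : ∏ i ∈ range L, (if i ∈ S then P (M + i) else 1) = ∏ i ∈ range L, (if i ∈ S then Real.exp s else 1) := by
    refine prod_congr rfl fun i _ => ?_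
    rw [hP (M + i) (by omega)]
  rw [e1, prod_ite_mem, prod_const, ← Real.exp_nat_mul]
  congr 1
  have e2 : ((pos S L : ℤ) : ℝ) = ((range L ∩ S).card : ℝ) := by
    unfold pos
    rw [inter_comm]
    push_cast
    rfl
  rw [e2]
  ring

/-- The weight of a path and its last (free) row. -/
theorem PW_pth (η : Env) (P : ℕ → ℝ) (M L : ℕ) (hP : ∀ i, M ≤ i → P i = Real.exp s) (x : ℤ) (S : Finset ℕ) :
    PW (wt η) P M L x S * bw (wt η) P (M + L) 1 (x + pos S L) =
      wt η M x * (1 + Real.exp s) * Real.exp (L * lam μ s) * pth μ s (sh ((M : ℤ), x) η) L S := by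
  have h1 : bw (wt η) P (M + L) 1 (x + pos S L) = wt η (M + L) (x + pos S L) * (1 + Real.exp s) := by
    rw [show (1 : ℕ) = 0 + 1 from rfl, bw_succ, bw_zero, bw_zero, hP (M + L) (by omega), mul_one]
  have h2 : (∏ i ∈ range L, wt η (M + i) (x + pos S i)) * wt η (M + L) (x + pos S L) =
      wt η M x * ∏ i ∈ range L, Real.exp ((sh ((M : ℤ), x) η) ((i : ℤ) + 1, pos S (i + 1))) := by
    rw [← prod_range_succ (fun i => wt η (M + i) (x + pos S i)), prod_range_succ', pos_zero, add_zero, add_zero, mul_comm]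
    congr 1
    refine prod_congr rfl fun i _ => ?_
    unfold wt sh
    rw [if_neg (by omega)]
    congr 2
    ext
    · show ((M + (i + 1) : ℕ) : ℤ) = (i : ℤ) + 1 + M
      push_cast
      ring
    · show x + pos S (i + 1) = pos S (i + 1) + x
      ring
  have h3 := prod_steps (s := s) S P M L hP
  rw [h1]
  unfold PW pth
  rw [prod_mul_distrib, h3]
  have h4 : Real.exp (s * (pos S L : ℝ) - L * lam μ s) * Real.exp (L * lam μ s) = Real.exp (s * (pos S L : ℝ)) := by
    rw [← Real.exp_add]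
    congr 1
    ring
  calc (∏ i ∈ range L, wt η (M + i) (x + pos S i)) * Real.exp (s * (pos S L : ℝ)) * (wt η (M + L) (x + pos S L) * (1 + Real.exp s))
      = ((∏ i ∈ range L, wt η (M + i) (x + pos S i)) * wt η (M + L) (x + pos S L)) * Real.exp (s * (pos S L : ℝ)) *
        (1 + Real.exp s) := by ring
    _ = _ := by
      rw [h2, ← h4]
      ring

theorem sh_sh (η : Env) (M : ℕ) (x d : ℤ) : sh ((0 : ℤ), d) (sh ((M : ℤ), x) η) = sh ((M : ℤ), x + d) η := by
  funext q
  unfold sh
  congr 1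
  ext
  · show q.1 + 0 + (M : ℤ) = q.1 + M
    ring
  · show q.2 + d + x = q.2 + (x + d)
    ring

/-- The Gibbs weights. -/
theorem GS_PW (η : Env) (P : ℕ → ℝ) (M L : ℕ) (hP : ∀ i, M ≤ i → P i = Real.exp s) (x : ℤ) (S : Finset ℕ) :
    GS μ s (sh ((M : ℤ), x) η) L S = PW (wt η) P M L x S * bw (wt η) P (M + L) 1 (x + pos S L) / bw (wt η) P M (L + 1) x := by
  obtain ⟨A, hA⟩ : ∃ A : ℝ, A = wt η M x * (1 + Real.exp s) * Real.exp (L * lam μ s) := ⟨_, rfl⟩
  have hA0 : 0 < A := by
    rw [hA]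
    have h1 := wt_pos η M x
    have h2 := Real.exp_pos s
    have h3 := Real.exp_pos (L * lam μ s)
    positivity
  have h1 : bw (wt η) P M (L + 1) x = A * Real.exp (V μ s (sh ((M : ℤ), x) η) 0 L) := by
    rw [bw_bwf 1 L M x, ← sum_PW M x L]
    have h2 := GS_sum (μ := μ) (s := s) (sh ((M : ℤ), x) η) L
    unfold GS at h2
    rw [← sum_div, div_eq_one_iff_eq (Real.exp_pos _).ne'] at h2
    rw [← h2, mul_sum]
    refine sum_congr rfl fun T _ => ?_
    rw [PW_pth (μ := μ) (s := s) η P M L hP x T, hA]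
  rw [PW_pth (μ := μ) (s := s) η P M L hP x S, h1, ← hA]
  unfold GS
  rw [mul_div_mul_left _ _ hA0.ne']

open Classical in
/-- **The probability not to meet.** -/
theorem nq_le_PP (η : Env) {P : ℕ → ℝ} (hp : ∀ k, 0 < P k) {M L N j : ℕ} (hN : N = M + L + 1) (hj : j ≤ L)
    (hP : ∀ i, M ≤ i → P i = Real.exp s) (x d : ℤ) :
    nq (wt η) P N M j x (x + d) ≤ PP μ s d L (sh ((M : ℤ), x) η) (fun S S' => if met d j (S, S') then 0 else 1) := by
  have hw : ∀ k y, 0 < wt η k y := wt_pos η
  obtain ⟨m, hm⟩ : ∃ m : ℕ, L = j + m := ⟨L - j, by omega⟩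
  have hb1 := bw_pos hw hp (L + 1) M x
  have hb2 := bw_pos hw hp (L + 1) M (x + d)
  have h1 := pb_nq (N := N) hw hp (K := M + j) (by omega) j M rfl x (x + d)
  have e1 : N - (M + j) = m + 1 := by omega
  have e2 : N - M = L + 1 := by omega
  rw [e1, e2] at h1
  have e3 : ∀ a, bw (wt η) P (M + j) (m + 1) a = bwf (wt η) P (bw (wt η) P (M + L) 1) (M + j) m a := by
    intro a
    rw [bw_bwf 1 m (M + j) a]
    have : M + j + m = M + L := by omega
    rw [this]
  simp only [e3] at h1
  rw [← sum_NI_add M j x (x + d) m, ← hm] at h1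
  have h2 : nq (wt η) P N M j x (x + d) = ∑ S ∈ (range L).powerset, ∑ S' ∈ (range L).powerset,
      (if NI x (x + d) j S S' then 1 else 0) * (GS μ s (sh ((M : ℤ), x) η) L S * GS μ s (sh ((M : ℤ), x + d) η) L S') := by
    have h3 : nq (wt η) P N M j x (x + d) = (nq (wt η) P N M j x (x + d) *
        (bw (wt η) P M (L + 1) x * bw (wt η) P M (L + 1) (x + d))) /
        (bw (wt η) P M (L + 1) x * bw (wt η) P M (L + 1) (x + d)) := by
      field_simp
    rw [h3, ← h1, sum_div]
    refine sum_congr rfl fun S _ => ?_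
    rw [sum_div]
    refine sum_congr rfl fun S' _ => ?_
    rw [GS_PW (μ := μ) (s := s) η P M L hP x S, GS_PW (μ := μ) (s := s) η P M L hP (x + d) S', mul_div_assoc, mul_div_mul_comm]
  rw [h2]
  unfold PP
  refine sum_le_sum fun S _ => ?_
  rw [mul_sum]
  refine sum_le_sum fun S' _ => ?_
  rw [sh_sh]
  have g1 := GS_nonneg (μ := μ) (s := s) (sh ((M : ℤ), x) η) L S
  have g2 := GS_nonneg (μ := μ) (s := s) (sh ((M : ℤ), x + d) η) L S'
  have g3 : (if NI x (x + d) j S S' then (1 : ℝ) else 0) ≤ if met d j (S, S') then 0 else 1 := by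
    by_cases h4 : NI x (x + d) j S S'
    · have h5 : ¬ met d j (S, S') := by
        rintro ⟨i, hi, h0⟩
        have := h4 i hi
        unfold dst at h0
        simp only at h0
        omega
      rw [if_pos h4, if_neg h5]
    · rw [if_neg h4]
      split_ifs <;> norm_num
  calc (if NI x (x + d) j S S' then (1 : ℝ) else 0) * (GS μ s (sh ((M : ℤ), x) η) L S * GS μ s (sh ((M : ℤ), x + d) η) L S')
      ≤ (if met d j (S, S') then 0 else 1) * (GS μ s (sh ((M : ℤ), x) η) L S * GS μ s (sh ((M : ℤ), x + d) η) L S') :=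
        mul_le_mul_of_nonneg_right g3 (mul_nonneg g1 g2)
    _ = _ := by ring

end

end Pool.Agent.W_7d29a1_C1.K99
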