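import Pool.Agent.W_7d29a1_C1.Seq71B

/-!
MP_7d29a1_pr, the attractor route: SMALL BALL BY A GATE AT THE GIBBS LOCATION, abstract engine. (helper40)

`R i η' ω` is the environment `ω` with the annulus `i` taken from `η'`; the annuli are ordered from the outside to the inside
(`j < i`: the annulus `j` is outside of `i`). `w` = the Gibbs weight of a cell (any weight). `T i` = the annulus `i` is typical
(or: its tube has the first lucky value), `L i` = it is lucky (or: the tube has the second lucky value), `U i` = the annulus is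
usable (typical or lucky, the rest is normal enough); usability does not see whether annuli are typical or lucky.
`H i` = the hit set: the level seen from the annulus `i` and its outside is at the target; it does not see a swap of annuli
further inside. If some typical filling hits, then no lucky filling hits (`excl`), and luck costs at most the factor `c` of
weight (`cmp`). Then the weight of `all usable annuli hit, at least r of them are typical` is at most `(1 + c) ^ (- r)`.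
There is no union over the positions of the unusable annuli.
-/

set_option autoImplicit false

namespace Pool.Agent.W_7d29a1_C1.H40

open MeasureTheory Finset
open scoped ENNReal Classical

noncomputable section

variable {Ω : Type*} [MeasurableSpace Ω] {P : Measure Ω}

/-- The data of the gate at the Gibbs location. -/
structure HitData (P : Measure Ω) (R : ℕ → Ω → Ω → Ω) (S : Finset ℕ) (T L U H : ℕ → Set Ω) (w : Ω → ℝ≥0∞)
    (c : ℝ≥0∞) : Prop where
  mp : ∀ i ∈ S, MeasurePreserving (fun q : Ω × Ω => R i q.1 q.2) (P.prod P) P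
  rr : ∀ i ∈ S, ∀ η η' ω, R i η (R i η' ω) = R i η ω
  mT : ∀ i ∈ S, MeasurableSet (T i)
  mL : ∀ i ∈ S, MeasurableSet (L i)
  mU : ∀ i ∈ S, MeasurableSet (U i)
  mH : ∀ i ∈ S, MeasurableSet (H i)
  mw : Measurable w
  disj : ∀ i ∈ S, Disjoint (T i) (L i)
  /-- usable annuli are typical or lucky -/
  sub : ∀ i ∈ S, U i ⊆ T i ∪ L i
  /-- usability is not changed when an annulus is changed inside `typical or lucky` -/
  inv : ∀ i ∈ S, ∀ j ∈ S, ∀ η ω, ω ∈ T i ∪ L i → R i η ω ∈ T i ∪ L i → ω ∈ U j → R i η ω ∈ U j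
  /-- typicality of an outer annulus does not see such a change -/
  invT : ∀ i ∈ S, ∀ j ∈ S, j < i → ∀ η ω, ω ∈ T i ∪ L i → R i η ω ∈ T i ∪ L i → ω ∈ T j → R i η ω ∈ T j
  /-- the hit set of an outer annulus does not see such a change -/
  invH : ∀ i ∈ S, ∀ j ∈ S, j < i → ∀ η ω, ω ∈ T i ∪ L i → R i η ω ∈ T i ∪ L i → ω ∈ H j → R i η ω ∈ H j
  /-- luck costs at most the factor `c` of weight -/
  cmp : ∀ i ∈ S, ∀ ω, ω ∈ U i →
    c * ∫⁻ η in {η | R i η ω ∈ T i}, w (R i η ω) ∂P ≤ ∫⁻ η in {η | R i η ω ∈ L i}, w (R i η ω) ∂P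
  /-- typical and lucky fillings do not both hit -/
  excl : ∀ i ∈ S, ∀ ω, ω ∈ U i → ∀ η η', R i η ω ∈ T i ∩ H i → R i η' ω ∈ L i ∩ H i → False

/-- The factor of one annulus. -/
def gf (T H : Set Ω) (c : ℝ≥0∞) (ω : Ω) : ℝ≥0∞ := if ω ∈ H then (if ω ∈ T then 1 + c else 1) else 0

theorem measurable_gf {T H : Set Ω} (hT : MeasurableSet T) (hH : MeasurableSet H) (c : ℝ≥0∞) :
    Measurable (gf T H c) :=
  Measurable.ite hH (Measurable.ite hT measurable_const measurable_const) measurable_const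

/-- Exactly the annuli of `V` are usable. -/
def Kv (S : Finset ℕ) (U : ℕ → Set Ω) (V : Finset ℕ) : Set Ω := {ω | ∀ i ∈ S, ω ∈ U i ↔ i ∈ V}

theorem measurableSet_Kv {S : Finset ℕ} {U : ℕ → Set Ω} (hU : ∀ i ∈ S, MeasurableSet (U i)) (V : Finset ℕ) :
    MeasurableSet (Kv S U V) := by
  have : Kv S U V = ⋂ i ∈ S, {ω | ω ∈ U i ↔ i ∈ V} := by
    ext ω
    simp [Kv]
  rw [this]
  refine Finset.measurableSet_biInter _ fun i hi => ?_
  by_cases hiV : i ∈ V
  · have e : {ω | ω ∈ U i ↔ i ∈ V} = U i := by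
      ext ω
      simp [hiV]
    rw [e]
    exact hU i hi
  · have e : {ω | ω ∈ U i ↔ i ∈ V} = (U i)ᶜ := by
      ext ω
      simp [hiV]
    rw [e]
    exact (hU i hi).compl

namespace HitData

variable {R : ℕ → Ω → Ω → Ω} {S : Finset ℕ} {T L U H : ℕ → Set Ω} {w : Ω → ℝ≥0∞} {c : ℝ≥0∞}

/-- Membership in `Kv` is kept by a change inside `typical or lucky`. -/
theorem K_iff (h : HitData P R S T L U H w c) {V : Finset ℕ} {a : ℕ} (ha : a ∈ S) {η η₀ ω : Ω}
    (h0 : R a η₀ ω ∈ T a ∪ L a) (h1 : R a η ω ∈ T a ∪ L a) (hK : R a η₀ ω ∈ Kv S U V) : R a η ω ∈ Kv S U V := by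
  intro j hj
  rw [← hK j hj]
  constructor
  · intro h2
    have h3 := h.inv a ha j hj η₀ (R a η ω) h1 (by rw [h.rr a ha]; exact h0) h2
    rwa [h.rr a ha] at h3
  · intro h2
    have h3 := h.inv a ha j hj η (R a η₀ ω) h0 (by rw [h.rr a ha]; exact h1) h2
    rwa [h.rr a ha] at h3

/-- The factors of the outer annuli are kept as well. -/
theorem gf_eq (h : HitData P R S T L U H w c) {a j : ℕ} (ha : a ∈ S) (hj : j ∈ S) (hja : j < a) {η η₀ ω : Ω}
    (h0 : R a η₀ ω ∈ T a ∪ L a) (h1 : R a η ω ∈ T a ∪ L a) :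
    gf (T j) (H j) c (R a η ω) = gf (T j) (H j) c (R a η₀ ω) := by
  have e1 : R a η ω ∈ T j ↔ R a η₀ ω ∈ T j := by
    constructor
    · intro h2
      have h3 := h.invT a ha j hj hja η₀ (R a η ω) h1 (by rw [h.rr a ha]; exact h0) h2
      rwa [h.rr a ha] at h3
    · intro h2
      have h3 := h.invT a ha j hj hja η (R a η₀ ω) h0 (by rw [h.rr a ha]; exact h1) h2
      rwa [h.rr a ha] at h3
  have e2 : R a η ω ∈ H j ↔ R a η₀ ω ∈ H j := by
    constructor
    · intro h2
      have h3 := h.invH a ha j hj hja η₀ (R a η ω) h1 (by rw [h.rr a ha]; exact h0) h2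
      rwa [h.rr a ha] at h3
    · intro h2
      have h3 := h.invH a ha j hj hja η (R a η₀ ω) h0 (by rw [h.rr a ha]; exact h1) h2
      rwa [h.rr a ha] at h3
  unfold gf
  simp only [e1, e2]

/-- Fubini for one annulus. -/
theorem conv [SFinite P] (h : HitData P R S T L U H w c) {a : ℕ} (ha : a ∈ S) {B : Set Ω} (hB : MeasurableSet B)
    {f : Ω → ℝ≥0∞} (hf : Measurable f) :
    ∫⁻ ω in B, f ω ∂P = ∫⁻ ω, ∫⁻ η in {η | R a η ω ∈ B}, f (R a η ω) ∂P ∂P := by
  have hmp := h.mp a ha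
  have hmeasR : Measurable (fun q : Ω × Ω => R a q.1 q.2) := hmp.measurable
  rw [← lintegral_indicator hB, ← hmp.lintegral_comp (hf.indicator hB)]
  refine (lintegral_prod_symm' (fun q : Ω × Ω => B.indicator f (R a q.1 q.2))
    ((hf.indicator hB).comp hmeasR)).trans ?_
  refine lintegral_congr fun ω => ?_
  have hBω : MeasurableSet {η | R a η ω ∈ B} := (hmeasR.comp (measurable_id.prodMk measurable_const)) hB
  rw [← lintegral_indicator hBω]
  refine lintegral_congr fun η => ?_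
  by_cases hη : R a η ω ∈ B
  · rw [Set.indicator_of_mem hη, Set.indicator_of_mem (show η ∈ {η | R a η ω ∈ B} from hη)]
  · rw [Set.indicator_of_notMem hη, Set.indicator_of_notMem (show η ∉ {η | R a η ω ∈ B} from hη)]

/-- One annulus, everything else fixed. -/
theorem inner [SFinite P] (h : HitData P R S T L U H w c) {a : ℕ} (ha : a ∈ S) {ω : Ω} (hω : ω ∈ U a) :
    ∫⁻ η in {η | R a η ω ∈ T a ∪ L a}, gf (T a) (H a) c (R a η ω) * w (R a η ω) ∂P ≤
      ∫⁻ η in {η | R a η ω ∈ T a ∪ L a}, w (R a η ω) ∂P := by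
  have hmeasR : Measurable (fun q : Ω × Ω => R a q.1 q.2) := (h.mp a ha).measurable
  have hmR : Measurable fun η => R a η ω := hmeasR.comp (measurable_id.prodMk measurable_const)
  have hmT : MeasurableSet {η | R a η ω ∈ T a} := hmR (h.mT a ha)
  have hmL : MeasurableSet {η | R a η ω ∈ L a} := hmR (h.mL a ha)
  have hd : Disjoint {η | R a η ω ∈ T a} {η | R a η ω ∈ L a} := by
    rw [Set.disjoint_left]
    intro η h1 h2
    exact Set.disjoint_left.1 (h.disj a ha) h1 h2
  have e3 : {η | R a η ω ∈ T a ∪ L a} = {η | R a η ω ∈ T a} ∪ {η | R a η ω ∈ L a} := rfl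
  rw [e3, lintegral_union hmL hd, lintegral_union hmL hd]
  by_cases hex : ∃ η₀, R a η₀ ω ∈ T a ∩ H a
  · obtain ⟨η₀, hη₀⟩ := hex
    have hL0 : ∫⁻ η in {η | R a η ω ∈ L a}, gf (T a) (H a) c (R a η ω) * w (R a η ω) ∂P = 0 := by
      rw [← lintegral_indicator hmL, lintegral_eq_zero_iff]
      · refine Filter.Eventually.of_forall fun η => ?_
        by_cases h1 : η ∈ {η | R a η ω ∈ L a}
        · rw [Set.indicator_of_mem h1]
          have h2 : R a η ω ∉ H a := fun h3 => h.excl a ha ω hω η₀ η hη₀ ⟨h1, h3⟩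
          simp [gf, h2]
        · rw [Set.indicator_of_notMem h1]
          rfl
      · exact (((measurable_gf (h.mT a ha) (h.mH a ha) c).mul h.mw).comp hmR).indicator hmL
    rw [hL0, add_zero]
    calc ∫⁻ η in {η | R a η ω ∈ T a}, gf (T a) (H a) c (R a η ω) * w (R a η ω) ∂P
        ≤ ∫⁻ η in {η | R a η ω ∈ T a}, (1 + c) * w (R a η ω) ∂P := by
          refine lintegral_mono fun η => ?_
          refine mul_le_mul_left ?_ _
          unfold gf
          split_ifs
          · exact le_rfl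
          · exact le_self_add
          · exact zero_le
      _ = (1 + c) * ∫⁻ η in {η | R a η ω ∈ T a}, w (R a η ω) ∂P := lintegral_const_mul _ (h.mw.comp hmR)
      _ = ∫⁻ η in {η | R a η ω ∈ T a}, w (R a η ω) ∂P + c * ∫⁻ η in {η | R a η ω ∈ T a}, w (R a η ω) ∂P := by
          rw [add_mul, one_mul]
      _ ≤ _ := by
          gcongr
          exact h.cmp a ha ω hω
  · have hT0 : ∫⁻ η in {η | R a η ω ∈ T a}, gf (T a) (H a) c (R a η ω) * w (R a η ω) ∂P = 0 := by
      rw [← lintegral_indicator hmT, lintegral_eq_zero_iff]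
      · refine Filter.Eventually.of_forall fun η => ?_
        by_cases h1 : η ∈ {η | R a η ω ∈ T a}
        · rw [Set.indicator_of_mem h1]
          have h2 : R a η ω ∉ H a := fun h3 => hex ⟨η, h1, h3⟩
          simp [gf, h2]
        · rw [Set.indicator_of_notMem h1]
          rfl
      · exact (((measurable_gf (h.mT a ha) (h.mH a ha) c).mul h.mw).comp hmR).indicator hmT
    rw [hT0, zero_add]
    refine le_trans ?_ le_add_self
    rw [← lintegral_indicator hmL, ← lintegral_indicator hmL]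
    refine lintegral_mono fun η => ?_
    by_cases h1 : η ∈ {η | R a η ω ∈ L a}
    · rw [Set.indicator_of_mem h1, Set.indicator_of_mem h1]
      have h2 : R a η ω ∉ T a := fun h3 => Set.disjoint_left.1 (h.disj a ha) h3 h1
      have h4 : gf (T a) (H a) c (R a η ω) ≤ 1 := by
        unfold gf
        rw [if_neg h2]
        split_ifs
        · exact le_rfl
        · exact zero_le
      calc gf (T a) (H a) c (R a η ω) * w (R a η ω) ≤ 1 * w (R a η ω) := mul_le_mul_left h4 _
        _ = _ := one_mul _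
    · rw [Set.indicator_of_notMem h1, Set.indicator_of_notMem h1]

/-- **The chain**, from the innermost annulus outwards, for one set `V` of usable annuli. -/
theorem chain [SFinite P] (h : HitData P R S T L U H w c) {V : Finset ℕ} (hVS : V ⊆ S) (s : Finset ℕ) :
    s ⊆ V → ∫⁻ ω in Kv S U V, (∏ j ∈ s, gf (T j) (H j) c ω) * w ω ∂P ≤ ∫⁻ ω in Kv S U V, w ω ∂P := by
  have hKm : MeasurableSet (Kv S U V) := measurableSet_Kv h.mU V
  induction s using Finset.induction_on_max with
  | empty => intro _; simp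
  | insert a s hmax ih =>
    intro hs
    have haV : a ∈ V := hs (mem_insert_self a s)
    have haS : a ∈ S := hVS haV
    have hsV : s ⊆ V := fun j hj => hs (mem_insert_of_mem hj)
    have hnot : a ∉ s := fun h1 => lt_irrefl _ (hmax a h1)
    have hmG : Measurable fun ω => ∏ j ∈ s, gf (T j) (H j) c ω :=
      Finset.measurable_prod _ fun j hj => measurable_gf (h.mT j (hVS (hsV hj))) (h.mH j (hVS (hsV hj))) c
    have hmga := measurable_gf (h.mT a haS) (h.mH a haS) c
    refine le_trans ?_ (ih hsV)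
    simp only [prod_insert hnot]
    rw [h.conv haS hKm (f := fun ω => (gf (T a) (H a) c ω * ∏ j ∈ s, gf (T j) (H j) c ω) * w ω)
        ((hmga.mul hmG).mul h.mw),
      h.conv haS hKm (f := fun ω => (∏ j ∈ s, gf (T j) (H j) c ω) * w ω) (hmG.mul h.mw)]
    refine lintegral_mono fun ω => ?_
    by_cases hex : ∃ η₀, R a η₀ ω ∈ Kv S U V
    · obtain ⟨η₀, hη₀⟩ := hex
      have hU0 : R a η₀ ω ∈ U a := (hη₀ a haS).2 haV
      have hN0 : R a η₀ ω ∈ T a ∪ L a := h.sub a haS hU0
      have hset : {η | R a η ω ∈ Kv S U V} = {η | R a η ω ∈ T a ∪ L a} := by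
        ext η
        constructor
        · intro h1
          exact h.sub a haS ((h1 a haS).2 haV)
        · intro h1
          exact h.K_iff haS hN0 h1 hη₀
      have hmR : Measurable fun η => R a η ω :=
        (h.mp a haS).measurable.comp (measurable_id.prodMk measurable_const)
      have hmN : MeasurableSet {η | R a η ω ∈ T a ∪ L a} := hmR ((h.mT a haS).union (h.mL a haS))
      have hG : ∀ η, R a η ω ∈ T a ∪ L a →
          ∏ j ∈ s, gf (T j) (H j) c (R a η ω) = ∏ j ∈ s, gf (T j) (H j) c (R a η₀ ω) := fun η h1 =>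
        prod_congr rfl fun j hj => h.gf_eq haS (hVS (hsV hj)) (hmax j hj) hN0 h1
      set G : ℝ≥0∞ := ∏ j ∈ s, gf (T j) (H j) c (R a η₀ ω) with hGdef
      have hin := h.inner haS hU0
      simp only [h.rr a haS] at hin
      show ∫⁻ η in {η | R a η ω ∈ Kv S U V},
          (gf (T a) (H a) c (R a η ω) * ∏ j ∈ s, gf (T j) (H j) c (R a η ω)) * w (R a η ω) ∂P ≤
        ∫⁻ η in {η | R a η ω ∈ Kv S U V}, (∏ j ∈ s, gf (T j) (H j) c (R a η ω)) * w (R a η ω) ∂P
      rw [hset]
      have e1 : ∫⁻ η in {η | R a η ω ∈ T a ∪ L a},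
            (gf (T a) (H a) c (R a η ω) * ∏ j ∈ s, gf (T j) (H j) c (R a η ω)) * w (R a η ω) ∂P =
          ∫⁻ η in {η | R a η ω ∈ T a ∪ L a}, G * (gf (T a) (H a) c (R a η ω) * w (R a η ω)) ∂P := by
        refine setLIntegral_congr_fun hmN fun η h1 => ?_
        show (gf (T a) (H a) c (R a η ω) * ∏ j ∈ s, gf (T j) (H j) c (R a η ω)) * w (R a η ω) =
          G * (gf (T a) (H a) c (R a η ω) * w (R a η ω))
        rw [hG η h1]
        ring
      have e2 : ∫⁻ η in {η | R a η ω ∈ T a ∪ L a}, (∏ j ∈ s, gf (T j) (H j) c (R a η ω)) * w (R a η ω) ∂P =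
          ∫⁻ η in {η | R a η ω ∈ T a ∪ L a}, G * w (R a η ω) ∂P := by
        refine setLIntegral_congr_fun hmN fun η h1 => ?_
        show (∏ j ∈ s, gf (T j) (H j) c (R a η ω)) * w (R a η ω) = G * w (R a η ω)
        rw [hG η h1]
      have m1 : Measurable fun η => gf (T a) (H a) c (R a η ω) * w (R a η ω) := (hmga.mul h.mw).comp hmR
      have m2 : Measurable fun η => w (R a η ω) := h.mw.comp hmR
      rw [e1, e2, lintegral_const_mul _ m1, lintegral_const_mul _ m2]
      exact mul_le_mul_right hin _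
    · have e1 : {η | R a η ω ∈ Kv S U V} = ∅ := by
        ext η
        simp only [Set.mem_ofPred_eq, Set.mem_empty_iff_false, iff_false]
        exact fun hη => hex ⟨η, hη⟩
      show ∫⁻ η in {η | R a η ω ∈ Kv S U V},
          (gf (T a) (H a) c (R a η ω) * ∏ j ∈ s, gf (T j) (H j) c (R a η ω)) * w (R a η ω) ∂P ≤ _
      rw [e1]
      simp

/-- All usable annuli hit, at least `r` of them are typical. -/
def Er (S : Finset ℕ) (T U H : ℕ → Set Ω) (r : ℕ) : Set Ω :=
  {ω | r ≤ (S.filter fun i => ω ∈ U i ∧ ω ∈ T i).card ∧ ∀ i ∈ S, ω ∈ U i → ω ∈ H i}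

/-- **SMALL BALL BY A GATE AT THE GIBBS LOCATION.** -/
theorem hit [SFinite P] (h : HitData P R S T L U H w c) (r : ℕ) :
    (1 + c) ^ r * ∫⁻ ω in Er S T U H r, w ω ∂P ≤ ∫⁻ ω, w ω ∂P := by
  have hKm : ∀ V, MeasurableSet (Kv S U V) := measurableSet_Kv h.mU
  have hKd : ∀ V ∈ S.powerset, ∀ V' ∈ S.powerset, V ≠ V' → Disjoint (Kv S U V) (Kv S U V') := by
    intro V hV V' hV' hne
    rw [Set.disjoint_left]
    intro ω h1 h2
    refine hne (Finset.ext fun i => ?_)
    by_cases hi : i ∈ S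
    · rw [← h1 i hi, ← h2 i hi]
    · exact ⟨fun h3 => absurd (mem_powerset.1 hV h3) hi, fun h3 => absurd (mem_powerset.1 hV' h3) hi⟩
  have hEm : MeasurableSet (Er S T U H r) := by
    have e : Er S T U H r =
        (⋃ Q ∈ S.powersetCard r, ⋂ i ∈ Q, (U i ∩ T i)) ∩ ⋂ i ∈ S, ((U i)ᶜ ∪ H i) := by
      ext ω
      simp only [Er, Set.mem_ofPred_eq, Set.mem_inter_iff, Set.mem_iUnion, Set.mem_iInter, Set.mem_union,
        Set.mem_compl_iff]
      constructor
      · rintro ⟨h1, h2⟩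
        obtain ⟨Q, hQ, hc⟩ := Finset.exists_subset_card_eq h1
        refine ⟨⟨Q, mem_powersetCard.2 ⟨hQ.trans (filter_subset _ _), hc⟩, fun i hi => (mem_filter.1 (hQ hi)).2⟩,
          fun i hi => ?_⟩
        by_cases h3 : ω ∈ U i
        · exact Or.inr (h2 i hi h3)
        · exact Or.inl h3
      · rintro ⟨⟨Q, hQ, h1⟩, h2⟩
        obtain ⟨h3, h4⟩ := mem_powersetCard.1 hQ
        refine ⟨?_, fun i hi h5 => (h2 i hi).resolve_left fun h6 => h6 h5⟩
        rw [← h4]
        exact card_le_card fun i hi => mem_filter.2 ⟨h3 hi, h1 i hi⟩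
    rw [e]
    refine MeasurableSet.inter ?_ ?_
    · refine Finset.measurableSet_biUnion _ fun Q hQ => Finset.measurableSet_biInter _ fun i hi => ?_
      have hiS := (mem_powersetCard.1 hQ).1 hi
      exact (h.mU i hiS).inter (h.mT i hiS)
    · exact Finset.measurableSet_biInter _ fun i hi => (h.mU i hi).compl.union (h.mH i hi)
  have hcov : Er S T U H r = ⋃ V ∈ S.powerset, (Kv S U V ∩ Er S T U H r) := by
    ext ω
    simp only [Set.mem_iUnion, Set.mem_inter_iff, exists_prop]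
    constructor
    · intro h1
      exact ⟨S.filter fun i => ω ∈ U i, mem_powerset.2 (filter_subset _ _), fun i hi => by simp [hi], h1⟩
    · rintro ⟨V, -, -, h1⟩
      exact h1
  rw [hcov, lintegral_biUnion_finset
      (fun V hV V' hV' hne => (hKd V hV V' hV' hne).mono Set.inter_subset_left Set.inter_subset_left)
      (fun V _ => (hKm V).inter hEm), mul_sum]
  have h2 : ∑ V ∈ S.powerset, ∫⁻ ω in Kv S U V, w ω ∂P ≤ ∫⁻ ω, w ω ∂P := by
    rw [← lintegral_biUnion_finset (fun V hV V' hV' hne => hKd V hV V' hV' hne) (fun V _ => hKm V)]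
    exact setLIntegral_le_lintegral _ _
  refine le_trans (sum_le_sum fun V hV => ?_) h2
  have hVS := mem_powerset.1 hV
  refine le_trans ?_ (h.chain hVS V (Finset.Subset.refl V))
  rw [← lintegral_const_mul _ h.mw, ← lintegral_indicator ((hKm V).inter hEm), ← lintegral_indicator (hKm V)]
  refine lintegral_mono fun ω => ?_
  by_cases h3 : ω ∈ Kv S U V ∩ Er S T U H r
  · rw [Set.indicator_of_mem h3, Set.indicator_of_mem h3.1]
    obtain ⟨h4, h5, h6⟩ := h3
    refine mul_le_mul_left ?_ _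
    have hG : ∏ j ∈ V, gf (T j) (H j) c ω = (1 + c) ^ (V.filter fun i => ω ∈ T i).card := by
      rw [← prod_const, prod_filter]
      refine prod_congr rfl fun j hj => ?_
      have h7 : ω ∈ H j := h6 j (hVS hj) ((h4 j (hVS hj)).2 hj)
      unfold gf
      rw [if_pos h7]
    rw [hG]
    refine pow_le_pow_right₀ le_self_add (h5.trans (card_le_card fun i hi => ?_))
    obtain ⟨h8, h9, h10⟩ := mem_filter.1 hi
    exact mem_filter.2 ⟨(h4 i h8).1 h9, h10⟩
  · rw [Set.indicator_of_notMem h3]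
    exact zero_le

end HitData

/-- **Sum over the cells.** `w C` = Gibbs weight of the cell `C`; on `D` the weights sum to at least `1`; on `D`, where
`w C ≥ δ`, every usable annulus of `C` hits. Then the mass of `D` is at most
`(1 + c) ^ (- r) * ∑ ∫ w C + (number of cells) * δ + ∑ P (less than r usable typical annuli)`. -/
theorem small_ball {κ : Type*} [IsProbabilityMeasure P] (F : Finset κ) {R : κ → ℕ → Ω → Ω → Ω} {S : κ → Finset ℕ}
    {T L U H : κ → ℕ → Set Ω} {w : κ → Ω → ℝ≥0∞} {c : ℝ≥0∞} (hdata : ∀ C ∈ F, HitData P (R C) (S C) (T C) (L C) (U C) (H C) (w C) c)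
    {D : Set Ω} (hD : MeasurableSet D) (hsum : ∀ ω ∈ D, 1 ≤ ∑ C ∈ F, w C ω) (hw1 : ∀ C ∈ F, ∀ ω, w C ω ≤ 1)
    (hc : c ≠ ∞) (r : ℕ) (δ : ℝ≥0∞)
    (hhit : ∀ C ∈ F, ∀ ω ∈ D, δ ≤ w C ω → ∀ i ∈ S C, ω ∈ U C i → ω ∈ H C i) :
    P D ≤ ((1 + c) ^ r)⁻¹ * ∑ C ∈ F, ∫⁻ ω, w C ω ∂P + F.card * δ +
      ∑ C ∈ F, P {ω | ((S C).filter fun i => ω ∈ U C i ∧ ω ∈ T C i).card < r} := by
  have h1 : P D ≤ ∑ C ∈ F, ∫⁻ ω in D, w C ω ∂P := by
    rw [← lintegral_finsetSum' _ fun C hC => ((hdata C hC).mw).aemeasurable]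
    calc P D = ∫⁻ _ in D, 1 ∂P := by rw [setLIntegral_const, one_mul]
      _ ≤ _ := setLIntegral_mono_ae' hD (Filter.Eventually.of_forall fun ω h2 => hsum ω h2)
  have hone : ∀ C ∈ F, ∫⁻ ω in D, w C ω ∂P ≤ ((1 + c) ^ r)⁻¹ * ∫⁻ ω, w C ω ∂P + δ +
      P {ω | ((S C).filter fun i => ω ∈ U C i ∧ ω ∈ T C i).card < r} := by
    intro C hC
    have hd := hdata C hC
    set E := HitData.Er (S C) (T C) (U C) (H C) r with hE
    set B : Set Ω := {ω | ((S C).filter fun i => ω ∈ U C i ∧ ω ∈ T C i).card < r} with hB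
    set Dl : Set Ω := {ω | w C ω ≤ δ} with hDl
    have hDlm : MeasurableSet Dl := measurableSet_le hd.mw measurable_const
    have hcov : D ⊆ E ∪ Dl ∪ B := by
      intro ω hω
      by_cases h2 : ω ∈ B
      · exact Or.inr h2
      · by_cases h3 : ω ∈ Dl
        · exact Or.inl (Or.inr h3)
        · refine Or.inl (Or.inl ⟨not_lt.1 h2, ?_⟩)
          exact hhit C hC ω hω (le_of_lt (not_le.1 h3))
    calc ∫⁻ ω in D, w C ω ∂P ≤ ∫⁻ ω in E ∪ Dl ∪ B, w C ω ∂P := lintegral_mono_set hcov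
      _ ≤ ∫⁻ ω in E ∪ Dl, w C ω ∂P + ∫⁻ ω in B, w C ω ∂P := lintegral_union_le _ _ _
      _ ≤ (∫⁻ ω in E, w C ω ∂P + ∫⁻ ω in Dl, w C ω ∂P) + ∫⁻ ω in B, w C ω ∂P := by
          gcongr
          exact lintegral_union_le _ _ _
      _ ≤ (((1 + c) ^ r)⁻¹ * ∫⁻ ω, w C ω ∂P + δ) + P B := by
          gcongr
          · have h4 := hd.hit r
            have h5 : (1 + c) ^ r ≠ 0 := by
              refine pow_ne_zero _ ?_
              exact ne_of_gt (lt_of_lt_of_le one_pos le_self_add)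
            have h6 : (1 + c) ^ r ≠ ∞ := ENNReal.pow_ne_top (ENNReal.add_ne_top.2 ⟨ENNReal.one_ne_top, hc⟩)
            rw [← ENNReal.div_eq_inv_mul, ENNReal.le_div_iff_mul_le (Or.inl h5) (Or.inl h6), mul_comm]
            exact h4
          · calc ∫⁻ ω in Dl, w C ω ∂P ≤ ∫⁻ _ in Dl, δ ∂P :=
                setLIntegral_mono' hDlm fun ω h2 => h2
              _ = δ * P Dl := setLIntegral_const _ _
              _ ≤ δ * 1 := by gcongr; exact prob_le_one
              _ = δ := mul_one _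
          · calc ∫⁻ ω in B, w C ω ∂P ≤ ∫⁻ _ in B, 1 ∂P := lintegral_mono fun ω => hw1 C hC ω
              _ = P B := by rw [setLIntegral_const, one_mul]
  refine h1.trans ((sum_le_sum hone).trans (le_of_eq ?_))
  rw [sum_add_distrib, sum_add_distrib, ← mul_sum, sum_const, nsmul_eq_mul]

/-! ### The instance on the environment law -/

open Pool.Agent.W_7d29a1_F Pool.Agent.W_7d29a1_C1.S71

/-- The same annulus twice. -/
theorem gl_same (A : Set Pt) (η η' ω : Env) : gl A η (gl A η' ω) = gl A η ω := by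
  funext p
  by_cases h1 : p ∈ A
  · rw [gl_of_mem h1, gl_of_mem h1]
  · rw [gl_of_not_mem h1, gl_of_not_mem h1, gl_of_not_mem h1]

/-- **The data over `law μ`**, when the typicality and the hit set of an annulus do not read the annuli further inside. -/
theorem hitData_gl {μ : Measure ℝ} [IsProbabilityMeasure μ] {S : Finset ℕ} {A : ℕ → Set Pt} {T L U H : ℕ → Set Env}
    {w : Env → ℝ≥0∞} {c : ℝ≥0∞} (mT : ∀ i ∈ S, MeasurableSet (T i)) (mL : ∀ i ∈ S, MeasurableSet (L i))
    (mU : ∀ i ∈ S, MeasurableSet (U i)) (mH : ∀ i ∈ S, MeasurableSet (H i)) (mw : Measurable w)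
    (disj : ∀ i ∈ S, Disjoint (T i) (L i)) (sub : ∀ i ∈ S, U i ⊆ T i ∪ L i)
    (inv : ∀ i ∈ S, ∀ j ∈ S, ∀ η ω, ω ∈ T i ∪ L i → gl (A i) η ω ∈ T i ∪ L i → ω ∈ U j → gl (A i) η ω ∈ U j)
    (offT : ∀ i ∈ S, ∀ j ∈ S, j < i → Off (A i) (T j)) (offH : ∀ i ∈ S, ∀ j ∈ S, j < i → Off (A i) (H j))
    (cmp : ∀ i ∈ S, ∀ ω, ω ∈ U i → c * ∫⁻ η in {η | gl (A i) η ω ∈ T i}, w (gl (A i) η ω) ∂(law μ) ≤
      ∫⁻ η in {η | gl (A i) η ω ∈ L i}, w (gl (A i) η ω) ∂(law μ))
    (excl : ∀ i ∈ S, ∀ ω, ω ∈ U i → ∀ η η', gl (A i) η ω ∈ T i ∩ H i → gl (A i) η' ω ∈ L i ∩ H i → False) :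
    HitData (law μ) (fun i => gl (A i)) S T L U H w c where
  mp i _ := mp_gl (μ := μ) (A i)
  rr i _ η η' ω := gl_same (A i) η η' ω
  mT := mT
  mL := mL
  mU := mU
  mH := mH
  mw := mw
  disj := disj
  sub := sub
  inv := inv
  invT i hi j hj hji η ω _ _ h2 := ((offT i hi j hj hji).gl η ω).2 h2
  invH i hi j hj hji η ω _ _ h2 := ((offH i hi j hj hji).gl η ω).2 h2
  cmp := cmp
  excl := excl

end

end Pool.Agent.W_7d29a1_C1.H40
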