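import Pool.Agent.W_7d29a1_F.CoreB2

/-!
MP_7d29a1_pr, C1, ARMS (helper94), abstract part: the truncated exponential Chebyshev inequality for a sum of nonnegative functions of
disjoint sets of sites.
-/

set_option autoImplicit false

namespace Pool.Agent.W_7d29a1_C1.H94

open MeasureTheory ProbabilityTheory Filter Topology
open Pool.Agent.W_7d29a1_F

variable {μ : Measure ℝ} [IsProbabilityMeasure μ]

theorem exp_two {x : ℝ} (h0 : 0 ≤ x) (h1 : x ≤ 1) : Real.exp x ≤ 1 + 2 * x := by
  have h := abs_le.1 (Real.abs_exp_sub_one_sub_id_le (x := x) (by rw [abs_of_nonneg h0]; exact h1))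
  nlinarith [h.2]

/-- **Truncated Chernoff bound.** -/
theorem trunc94 (M : ℕ) (Y : ℕ → Env → ℝ) (S : ℕ → Set Pt) {a b r q : ℝ} (hb : 0 < b)
    (hm : ∀ i < M, Measurable (Y i)) (h0 : ∀ i < M, ∀ η, 0 ≤ Y i η) (hi : ∀ i < M, Integrable (Y i) (law μ))
    (hdep : ∀ i < M, DependsOn (Y i) (S i)) (hdis : ∀ i < M, ∀ j < M, i ≠ j → Disjoint (S i) (S j))
    (ha : ∀ i < M, ∫ η, Y i η ∂(law μ) ≤ a) (hq : ∀ i < M, (law μ).real {η | b ≤ Y i η} ≤ q) :
    (law μ).real {η | 2 * (M * a) + r * b ≤ ∑ i ∈ Finset.range M, Y i η} ≤ Real.exp (-r) + M * q := by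
  classical
  -- the truncated functions
  obtain ⟨Z, hZ⟩ : ∃ Z : ℕ → Env → ℝ, Z = fun i η => min (Y i η) b := ⟨_, rfl⟩
  have hZm : ∀ i < M, Measurable (Z i) := fun i h => by
    rw [hZ]
    exact (hm i h).min measurable_const
  have hZ0 : ∀ i < M, ∀ η, 0 ≤ Z i η := fun i h η => by
    rw [hZ]
    exact le_min (h0 i h η) hb.le
  have hZb : ∀ i η, Z i η ≤ b := fun i η => by
    rw [hZ]
    exact min_le_right _ _
  have hsub : {η | 2 * (M * a) + r * b ≤ ∑ i ∈ Finset.range M, Y i η} ⊆
      {η | 2 * (M * a) + r * b ≤ ∑ i ∈ Finset.range M, Z i η} ∪ ⋃ i ∈ Finset.range M, {η | b ≤ Y i η} := by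
    intro η hη
    by_cases hc : ∃ i ∈ Finset.range M, b ≤ Y i η
    · obtain ⟨i, hi1, hi2⟩ := hc
      exact Or.inr (Set.mem_iUnion₂.2 ⟨i, hi1, hi2⟩)
    · left
      have h1 : ∀ i ∈ Finset.range M, Z i η = Y i η := by
        intro i hi1
        rw [hZ]
        refine min_eq_left ?_
        by_contra hcon
        exact hc ⟨i, hi1, (not_le.1 hcon).le⟩
      show 2 * (M * a) + r * b ≤ ∑ i ∈ Finset.range M, Z i η
      rw [Finset.sum_congr rfl h1]
      exact hη
  have h1 : (law μ).real (⋃ i ∈ Finset.range M, {η | b ≤ Y i η}) ≤ M * q := by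
    refine (measureReal_biUnion_finset_le _ _).trans ?_
    calc ∑ i ∈ Finset.range M, (law μ).real {η | b ≤ Y i η} ≤ ∑ _i ∈ Finset.range M, q :=
          Finset.sum_le_sum fun i h => hq i (Finset.mem_range.1 h)
      _ = M * q := by rw [Finset.sum_const, Finset.card_range, nsmul_eq_mul]
  -- the exponential moment
  have h2 : ∀ i < M, ∫ η, Real.exp (Z i η / b) ∂(law μ) ≤ Real.exp (2 * a / b) := by
    intro i h
    have hint : Integrable (Z i) (law μ) := by
      refine Integrable.mono' (hi i h) (hZm i h).aestronglyMeasurable (Eventually.of_forall fun η => ?_)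
      rw [Real.norm_eq_abs, abs_of_nonneg (hZ0 i h η), hZ]
      exact min_le_left _ _
    have h3 : ∫ η, Real.exp (Z i η / b) ∂(law μ) ≤ ∫ η, (1 + 2 / b * Z i η) ∂(law μ) := by
      refine integral_mono_of_nonneg (Eventually.of_forall fun η => (Real.exp_pos _).le)
        ((integrable_const 1).add (hint.const_mul _)) (Eventually.of_forall fun η => ?_)
      show Real.exp (Z i η / b) ≤ 1 + 2 / b * Z i η
      have h4 := exp_two (x := Z i η / b) (div_nonneg (hZ0 i h η) hb.le) ((div_le_one hb).2 (hZb i η))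
      have e : 2 * (Z i η / b) = 2 / b * Z i η := by ring
      rw [e] at h4
      exact h4
    have h5 : ∫ η, (1 + 2 / b * Z i η) ∂(law μ) = 1 + 2 / b * ∫ η, Z i η ∂(law μ) := by
      rw [integral_add (integrable_const _) (hint.const_mul _), integral_const_mul]
      simp
    have h6 : ∫ η, Z i η ∂(law μ) ≤ a := by
      refine le_trans (integral_mono hint (hi i h) fun η => ?_) (ha i h)
      rw [hZ]
      exact min_le_left _ _
    have h7 : 2 / b * ∫ η, Z i η ∂(law μ) ≤ 2 / b * a := mul_le_mul_of_nonneg_left h6 (by positivity)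
    have h8 := Real.add_one_le_exp (2 * a / b)
    have e : 2 / b * a = 2 * a / b := by ring
    rw [h5] at h3
    linarith
  have h3 : ∫ η, ∏ i ∈ Finset.range M, Real.exp (Z i η / b) ∂(law μ) ≤ Real.exp (M * (2 * a / b)) := by
    rw [indep_prod (μ := μ) (Finset.range M) (fun i η => Real.exp (Z i η / b)) S
      (fun i h => Real.measurable_exp.comp ((hZm i (Finset.mem_range.1 h)).div_const b))
      (fun i h η η' hη => ?_)
      (fun i h j h' hij => hdis i (Finset.mem_range.1 h) j (Finset.mem_range.1 h') hij)]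
    · calc ∏ i ∈ Finset.range M, ∫ η, Real.exp (Z i η / b) ∂(law μ) ≤ ∏ _i ∈ Finset.range M, Real.exp (2 * a / b) :=
            Finset.prod_le_prod (fun i _ => integral_nonneg fun η => (Real.exp_pos _).le)
              fun i h => h2 i (Finset.mem_range.1 h)
        _ = Real.exp (M * (2 * a / b)) := by rw [Finset.prod_const, Finset.card_range, ← Real.exp_nat_mul]
    · show Real.exp (Z i η / b) = Real.exp (Z i η' / b)
      have := hdep i (Finset.mem_range.1 h) hη
      rw [hZ]
      show Real.exp (min (Y i η) b / b) = Real.exp (min (Y i η') b / b)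
      rw [this]
  have h4 : (law μ).real {η | 2 * (M * a) + r * b ≤ ∑ i ∈ Finset.range M, Z i η} ≤ Real.exp (-r) := by
    obtain ⟨T, hT⟩ : ∃ T : ℝ, T = 2 * (M * a) + r * b := ⟨_, rfl⟩
    rw [← hT]
    have hmeas : Measurable fun η => Real.exp ((∑ i ∈ Finset.range M, Z i η) / b) :=
      Real.measurable_exp.comp ((Finset.measurable_sum _ fun i h => hZm i (Finset.mem_range.1 h)).div_const b)
    have hintg : Integrable (fun η => Real.exp ((∑ i ∈ Finset.range M, Z i η) / b)) (law μ) := by
      refine Integrable.mono' (integrable_const (Real.exp M)) hmeas.aestronglyMeasurable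
        (Eventually.of_forall fun η => ?_)
      rw [Real.norm_eq_abs, abs_of_pos (Real.exp_pos _)]
      refine Real.exp_le_exp.2 ?_
      rw [div_le_iff₀ hb]
      calc ∑ i ∈ Finset.range M, Z i η ≤ ∑ _i ∈ Finset.range M, b := Finset.sum_le_sum fun i _ => hZb i η
        _ = M * b := by rw [Finset.sum_const, Finset.card_range, nsmul_eq_mul]
    have hmk := mul_meas_ge_le_integral_of_nonneg (μ := law μ)
      (Eventually.of_forall fun η => (Real.exp_pos ((∑ i ∈ Finset.range M, Z i η) / b)).le) hintg (Real.exp (T / b))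
    have he : ∫ η, Real.exp ((∑ i ∈ Finset.range M, Z i η) / b) ∂(law μ) =
        ∫ η, ∏ i ∈ Finset.range M, Real.exp (Z i η / b) ∂(law μ) := by
      refine integral_congr_ae (Eventually.of_forall fun η => ?_)
      show Real.exp ((∑ i ∈ Finset.range M, Z i η) / b) = ∏ i ∈ Finset.range M, Real.exp (Z i η / b)
      rw [← Real.exp_sum, Finset.sum_div]
    rw [he] at hmk
    have h5 := hmk.trans h3
    have h6 : (law μ).real {η | T ≤ ∑ i ∈ Finset.range M, Z i η} ≤
        (law μ).real {η | Real.exp (T / b) ≤ Real.exp ((∑ i ∈ Finset.range M, Z i η) / b)} := by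
      refine measureReal_mono (fun η hη => ?_) (measure_ne_top _ _)
      exact Real.exp_le_exp.2 (div_le_div_of_nonneg_right hη hb.le)
    have h7 : Real.exp (T / b) * (law μ).real {η | T ≤ ∑ i ∈ Finset.range M, Z i η} ≤ Real.exp (M * (2 * a / b)) :=
      (mul_le_mul_of_nonneg_left h6 (Real.exp_pos _).le).trans h5
    have h8 : Real.exp (M * (2 * a / b)) = Real.exp (T / b) * Real.exp (-r) := by
      rw [← Real.exp_add]
      congr 1
      rw [hT]
      field_simp
      ring
    rw [h8] at h7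
    exact le_of_mul_le_mul_left h7 (Real.exp_pos _)
  calc (law μ).real {η | 2 * (M * a) + r * b ≤ ∑ i ∈ Finset.range M, Y i η}
      ≤ (law μ).real ({η | 2 * (M * a) + r * b ≤ ∑ i ∈ Finset.range M, Z i η} ∪
          ⋃ i ∈ Finset.range M, {η | b ≤ Y i η}) := measureReal_mono hsub (measure_ne_top _ _)
    _ ≤ _ := measureReal_union_le _ _
    _ ≤ _ := add_le_add h4 h1

end Pool.Agent.W_7d29a1_C1.H94
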