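import Pool.Agent.W_7d29a1_HX.X50_Unl
import Pool.Agent.W_7d29a1_HS.Mom
import Pool.Agent.W_7d29a1_H.TwoH14
import Pool.Agent.W_7d29a1_H.LamH2
import Pool.Agent.W_7d29a1_C1.ArmT94

/-!
MP_7d29a1_pr, C1, ARMS (helper94), part 1: the tilts which belong to a scale `t` and to a smaller slope; the unit of such a tilt at the
scale `t`; tails of the luck, of the reversed luck and of the cost of the straight displacement at its own tilt.
-/

set_option autoImplicit false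

namespace Pool.Agent.W_7d29a1_C1.H94

open MeasureTheory ProbabilityTheory Filter Topology
open Pool.Agent.W_7d29a1_F Pool.Agent.W_7d29a1_h4g Pool.Agent.W_7d29a1_H Pool.Agent.W_7d29a1_HS
open Pool.Agent.W_7d29a1_L (Mh T kap Bx mem_Bx le_Mh Mh_nonneg Sub_Mh)
open Pool.Agent.W_7d29a1_h47 (EM Nondeg)

variable {μ : Measure ℝ} [IsProbabilityMeasure μ] {s c C : ℝ} {n₀ : ℕ}

/-- Uniform input for the tilts near `s`. -/
structure Fam94 (μ : Measure ℝ) (s κ c C : ℝ) (n₀ : ℕ) (K1 : ℝ) (x₁ : ℕ) : Prop where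
  κ0 : 0 < κ
  κ1 : κ ≤ 1
  inn : ∀ r : ℝ, |r| ≤ κ → In μ (s + r) c C n₀
  half : ∀ r : ℝ, |r| ≤ κ → ∀ x j : ℕ, x₁ ≤ x → gg μ (s + r) (x + j) ≤ gg μ (s + r) x + j / 2 + K1

omit [IsProbabilityMeasure μ] in
/-- The weight at two tilts. -/
theorem W_ex (s r : ℝ) (η : Env) (a : Pt) (n : ℕ) (y : ℤ) :
    W μ s η a n y = Real.exp (-(r * ((y : ℝ) - sl μ s * n)) + n * ex μ s r) * W μ (s + r) η a n y := by
  unfold W WR
  rw [← mul_assoc, ← Real.exp_add]
  congr 2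
  unfold ex
  ring

omit [IsProbabilityMeasure μ] in
/-- The cost at two tilts. -/
theorem X_ex (s r : ℝ) (η : Env) (a : Pt) {n : ℕ} {y : ℤ} (h0 : 0 ≤ y) (h1 : y ≤ n) :
    X μ (s + r) η a n y = X μ s η a n y - r * ((y : ℝ) - sl μ s * n) + n * ex μ s r := by
  have hp := W_pos (μ := μ) (s := s + r) η a h0 h1
  have h := W_ex (μ := μ) s r η a n y
  unfold X
  rw [h, Real.log_mul (Real.exp_pos _).ne' hp.ne', Real.log_exp]
  ring

/-- The unit of the tilt `s + r` at the scale `m`. -/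
theorem unit_le94 {H δ : ℝ} {A : Set ℝ} (hD : Dirs μ H δ A) {s r : ℝ} (hs : s ∈ A) {m : ℕ} {B : ℝ}
    (h1 : m * (|r| * vA 1 μ s m) ≤ B) (h2 : m * ex μ s r ≤ B) : EE μ (s + r) m ≤ EE μ s m + 2 * B := by
  have hv0 : 0 ≤ vA 1 μ s m := add_nonneg (hD.vr_nonneg hs zero_le_one m) (hD.vl_nonneg hs zero_le_one m)
  have hB0 : 0 ≤ B := le_trans (by positivity) h1
  refine EE_le fun j hj => ?_
  obtain ⟨z0, z1⟩ := zs_mem (μ := μ) (s := s) j
  have a1 : es μ (s + r) j ≤ ep μ (s + r) j (zs μ s j) := es_le z0 z1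
  have a2 : es μ s j + 1 ≤ EE μ s m := le_EE hj
  rcases Nat.eq_zero_or_pos j with hj0 | hj0
  · subst hj0
    have e1 := es_zero (μ := μ) (s := s + r)
    have e2 := es_zero (μ := μ) (s := s)
    rw [e1]
    rw [e2] at a2
    linarith
  have h3 : e μ s j (zs μ s j) ≤ 1 * EE μ s j := by
    have b1 := e_zs_le hD.em s j
    have b2 : es μ s j + 1 ≤ EE μ s j := le_EE le_rfl
    linarith
  have h4 := hD.near_of_e hs (a := 1) zero_le_one hj0 z0 z1 h3
  have h5 := hD.w_mono hs (a := 1) zero_le_one hj0 hj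
  have h6 : |(zs μ s j : ℝ) - sl μ s * j| ≤ m * vA 1 μ s m := h4.trans h5
  have h7 : (s - (s + r)) * (zs μ s j : ℝ) - (lam μ s - lam μ (s + r)) * j ≤ 2 * B := by
    have a1 : (s - (s + r)) * (zs μ s j : ℝ) - (lam μ s - lam μ (s + r)) * j =
        -(r * ((zs μ s j : ℝ) - sl μ s * j)) + j * ex μ s r := by
      unfold ex
      ring
    have a2 : -(r * ((zs μ s j : ℝ) - sl μ s * j)) ≤ |r| * (m * vA 1 μ s m) := by
      calc -(r * ((zs μ s j : ℝ) - sl μ s * j)) ≤ |r * ((zs μ s j : ℝ) - sl μ s * j)| := neg_le_abs _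
        _ = |r| * |(zs μ s j : ℝ) - sl μ s * j| := abs_mul _ _
        _ ≤ _ := mul_le_mul_of_nonneg_left h6 (abs_nonneg _)
    have a4 : (j : ℝ) * ex μ s r ≤ m * ex μ s r :=
      mul_le_mul_of_nonneg_right (by exact_mod_cast hj) (ex_nonneg hD.em hD.nd s r)
    have a5 : |r| * (m * vA 1 μ s m) = m * (|r| * vA 1 μ s m) := by ring
    rw [a1]
    linarith
  have h8 := ep_cmp35 hD.em (s + r) s z0 z1 (D := 2 * B) (by linarith) h7
  rw [ep_zs] at h8
  linarith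

/-! ### The tilts -/

/-- A tilt on the side `ε` has the sign `ε`. -/
theorem tilt_sign (hμ : EM μ) (hnd : Nondeg μ) {ε r x : ℝ} (hε : ε = 1 ∨ ε = -1) (hx : 0 ≤ x)
    (h : sl μ (s + r) = sl μ s + ε * x) : ε * r = |r| ∧ r = ε * |r| := by
  have hm := sl_strictMono hμ hnd
  rcases hε with rfl | rfl
  · have h0 : 0 ≤ r := by
      by_contra hcon
      have := hm (show s + r < s by linarith)
      linarith
    rw [abs_of_nonneg h0]
    exact ⟨by ring, by ring⟩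
  · have h0 : r ≤ 0 := by
      by_contra hcon
      have := hm (show s < s + r by linarith)
      linarith
    rw [abs_of_nonpos h0]
    exact ⟨by ring, by ring⟩

/-- The excess of a tilt is at most `|r| x`. -/
theorem ex_le_x (hμ : EM μ) (hnd : Nondeg μ) {ε r x : ℝ} (hε : ε = 1 ∨ ε = -1) (hx : 0 ≤ x)
    (h : sl μ (s + r) = sl μ s + ε * x) : ex μ s r ≤ |r| * x := by
  have h1 := ex_le_sl hμ hnd s r
  rw [h] at h1
  have h2 := (tilt_sign (s := s) hμ hnd hε hx h).1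
  calc ex μ s r ≤ r * (sl μ s + ε * x - sl μ s) := h1
    _ = (ε * r) * x := by ring
    _ = |r| * x := by rw [h2]

/-- The tilt of a scale: `EE ≤ t |r| x ≤ D ^ 3 EE`, `x = vA t`. -/
theorem tilt_scale {H δ : ℝ} {A : Set ℝ} (hD : Dirs μ H δ A) (hs : s ∈ A) {D d : ℝ} (hD1 : 1 ≤ D)
    (hS : ∀ x, |x| ≤ d → J μ s (2 * x) ≤ D * J μ s x ∧ J μ s (-x) ≤ D * J μ s x) {t : ℕ} (ht : 1 ≤ t)
    (hv : vA 1 μ s t ≤ d) {ε r : ℝ} (hε : ε = 1 ∨ ε = -1) (hr : |r| ≤ 1)
    (h : sl μ (s + r) = sl μ s + ε * vA 1 μ s t) :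
    EE μ s t ≤ t * (|r| * vA 1 μ s t) ∧ t * (|r| * vA 1 μ s t) ≤ D ^ 3 * EE μ s t ∧
      J μ s (ε * vA 1 μ s t) ≤ |r| * vA 1 μ s t := by
  have hv0 : 0 ≤ vA 1 μ s t := add_nonneg (hD.vr_nonneg hs zero_le_one t) (hD.vl_nonneg hs zero_le_one t)
  obtain ⟨x, hx⟩ : ∃ x, x = vA 1 μ s t := ⟨_, rfl⟩
  rw [← hx] at hv hv0 h ⊢
  have hJ0 := J_u0_14 hD hs hD1 hS ht (by rw [← hx]; exact hv) hε
  rw [← hx] at hJ0
  have hsg := (tilt_sign (s := s) hD.em hD.nd hε hv0 h).1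
  have hex := ex_le_x (s := s) hD.em hD.nd hε hv0 h
  have hex0 := ex_nonneg hD.em hD.nd s r
  have ht0 : (0 : ℝ) < t := by exact_mod_cast ht
  have hJ1 : J μ s (ε * x) ≤ |r| * x := by
    have h1 := J_at hD.em hD.nd s hr h
    have h2 : r * (ε * x) = |r| * x := by
      calc r * (ε * x) = (ε * r) * x := by ring
        _ = |r| * x := by rw [hsg]
    rw [h1, h2]
    linarith
  have hJ2 : |r| * x ≤ D * J μ s (ε * x) := by
    have h1 := le_J hD.em hD.nd s (2 * (ε * x)) hr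
    have h2 : r * (2 * (ε * x)) = 2 * (|r| * x) := by
      calc r * (2 * (ε * x)) = 2 * ((ε * r) * x) := by ring
        _ = 2 * (|r| * x) := by rw [hsg]
    rw [h2] at h1
    have h3 : |ε * x| ≤ d := by
      rw [abs_mul, abs_of_nonneg hv0]
      rcases hε with rfl | rfl
      · simpa using hv
      · simpa using hv
    have h4 := (hS _ h3).1
    linarith
  refine ⟨hJ0.1.trans (mul_le_mul_of_nonneg_left hJ1 ht0.le), ?_, hJ1⟩
  calc t * (|r| * x) ≤ t * (D * J μ s (ε * x)) := mul_le_mul_of_nonneg_left hJ2 ht0.le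
    _ = D * (t * J μ s (ε * x)) := by ring
    _ ≤ D * (D ^ 2 * EE μ s t) := mul_le_mul_of_nonneg_left hJ0.2 (by linarith)
    _ = _ := by ring

/-- The tilt of a much smaller slope. -/
theorem tilt_small (hμ : EM μ) (hnd : Nondeg μ) {ρ d : ℝ} (hρ0 : 0 < ρ) {k : ℕ} (hk : 4 * ρ ^ k ≤ 1)
    (hSu : ∀ x, |x| ≤ d → 2 * J μ s (x / 2) ≤ ρ * J μ s x) {ε r r' x x' : ℝ} (hε : ε = 1 ∨ ε = -1) (hx : 0 ≤ x)
    (hxd : x ≤ d) (hJ : J μ s (ε * x) ≤ |r| * x) (hx' : 0 ≤ x') (hxx : 2 * x' * 2 ^ k ≤ x) (hr' : |r'| ≤ 1)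
    (h' : sl μ (s + r') = sl μ s + ε * x') : |r'| ≤ |r| / 2 := by
  have hsg := (tilt_sign (s := s) hμ hnd hε hx' h').1
  rcases hx'.eq_or_lt with h0 | h0
  · rw [← h0, mul_zero, add_zero] at h'
    have h1 : s + r' = s := (sl_strictMono hμ hnd).injective h'
    have h2 : r' = 0 := by linarith
    rw [h2, abs_zero]
    positivity
  have hεa : |ε| = 1 := by
    rcases hε with rfl | rfl <;> simp
  have hp : (0 : ℝ) < 2 ^ k := by positivity
  -- halving
  have hit : ∀ (k : ℕ) (z : ℝ), |z| ≤ d → 2 ^ k * J μ s (z / 2 ^ k) ≤ ρ ^ k * J μ s z := by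
    intro k
    induction k with
    | zero => intro z _; simp
    | succ k ih =>
      intro z hz
      have h1 : |z / 2| ≤ d := by
        rw [abs_div, abs_two]
        have := abs_nonneg z
        linarith
      have h2 := ih (z / 2) h1
      have h3 := hSu z hz
      have e1 : z / 2 ^ (k + 1) = z / 2 / 2 ^ k := by
        rw [pow_succ]
        field_simp
      calc 2 ^ (k + 1) * J μ s (z / 2 ^ (k + 1)) = 2 * (2 ^ k * J μ s (z / 2 / 2 ^ k)) := by
            rw [e1]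
            ring
        _ ≤ 2 * (ρ ^ k * J μ s (z / 2)) := mul_le_mul_of_nonneg_left h2 (by norm_num)
        _ = ρ ^ k * (2 * J μ s (z / 2)) := by ring
        _ ≤ ρ ^ k * (ρ * J μ s z) := mul_le_mul_of_nonneg_left h3 (by positivity)
        _ = _ := by ring
  have h1 := le_J hμ hnd s (2 * (ε * x')) hr'
  have h2 : r' * (2 * (ε * x')) = 2 * (|r'| * x') := by
    calc r' * (2 * (ε * x')) = 2 * ((ε * r') * x') := by ring
      _ = 2 * (|r'| * x') := by rw [hsg]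
  rw [h2] at h1
  have h3 := ex_le_x (s := s) hμ hnd hε hx' h'
  have h4 : |r'| * x' ≤ J μ s (2 * (ε * x')) := by linarith
  -- convexity
  have hx0 : 0 < x := lt_of_lt_of_le (by positivity) hxx
  obtain ⟨θ, hθ⟩ : ∃ θ : ℝ, θ = 2 * x' * 2 ^ k / x := ⟨_, rfl⟩
  have hθ0 : 0 ≤ θ := by rw [hθ]; positivity
  have hθ1 : θ ≤ 1 := by
    rw [hθ, div_le_one hx0]
    exact hxx
  have hc := J_convex hμ hnd s
  have h5 : J μ s (2 * (ε * x')) ≤ θ * J μ s (ε * x / 2 ^ k) := by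
    have h6 := hc.2 (Set.mem_univ (ε * x / 2 ^ k)) (Set.mem_univ 0) hθ0 (sub_nonneg.2 hθ1) (by ring)
    simp only [smul_eq_mul, mul_zero, add_zero, J_zero hμ hnd s] at h6
    have e : θ * (ε * x / 2 ^ k) = 2 * (ε * x') := by
      rw [hθ]
      field_simp
    rw [e] at h6
    exact h6
  have h6 := hit k (ε * x) (by rw [abs_mul, hεa, one_mul, abs_of_nonneg hx]; exact hxd)
  have h7 : |r'| * x' ≤ 2 * ρ ^ k * |r| * x' := by
    have hJ0 := J_nonneg hμ hnd s (ε * x / 2 ^ k)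
    have h8 : 2 ^ k * J μ s (ε * x / 2 ^ k) ≤ ρ ^ k * (|r| * x) :=
      h6.trans (mul_le_mul_of_nonneg_left hJ (by positivity))
    have h9 : θ * J μ s (ε * x / 2 ^ k) = 2 * x' / x * (2 ^ k * J μ s (ε * x / 2 ^ k)) := by
      rw [hθ]
      ring
    have h10 : 2 * x' / x * (2 ^ k * J μ s (ε * x / 2 ^ k)) ≤ 2 * x' / x * (ρ ^ k * (|r| * x)) :=
      mul_le_mul_of_nonneg_left h8 (by positivity)
    have h11 : 2 * x' / x * (ρ ^ k * (|r| * x)) = 2 * ρ ^ k * |r| * x' := by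
      field_simp
    linarith
  have h8 : |r'| ≤ 2 * ρ ^ k * |r| := le_of_mul_le_mul_right h7 h0
  have h9 : 2 * ρ ^ k * |r| ≤ |r| / 2 := by
    have := mul_le_mul_of_nonneg_right hk (abs_nonneg r)
    linarith
  exact h8.trans h9

/-! ### Tails -/

/-- The luck at its own tilt. -/
theorem tail_V94 (h : In μ s c C n₀) {n m : ℕ} (hn : n₀ ≤ n) (hn1 : 1 ≤ n) (hm : m ≤ 4 * n) (u : ℝ) :
    (law μ).real {η | u * (C * EE μ s n) ≤ V μ s η 0 m} ≤ C * Real.exp (-u) := by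
  have hC0 : 0 < C := lt_of_lt_of_le one_pos h.C1
  have hE := EE_pos (μ := μ) (s := s) n
  have hw : 0 < wd μ s n := by
    unfold wd
    have h1 := h.vA_pos hn1
    have h2 : (0 : ℝ) < n := by exact_mod_cast hn1
    positivity
  have hl := h.luck n hn 0 (-(wd μ s n / 2)) (by
    rw [abs_zero, zero_mul]
    have := h.c0
    positivity)
  obtain ⟨M, hM⟩ : ∃ M : Env → ℝ, M = fun η => Mh μ s (sl μ s) 0 (wd μ s n) (-(wd μ s n / 2)) (4 * n) η := ⟨_, rfl⟩
  have hMS : Sub M := by rw [hM]; exact Sub_Mh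
  have hMV : ∀ η, V μ s η 0 m ≤ M η := by
    intro η
    have hq : (((0 : ℕ), (0 : ℤ)), m) ∈ Bx (sl μ s) (wd μ s n) (-(wd μ s n / 2)) (4 * n) := by
      rw [mem_Bx h.sl_pos.le h.sl_lt.le]
      refine ⟨?_, ?_, ?_⟩
      · show 0 + m ≤ 4 * n
        omega
      · show -(wd μ s n / 2) < ((0 : ℤ) : ℝ) - sl μ s * ((0 : ℕ) : ℝ)
        push_cast
        linarith
      · show ((0 : ℤ) : ℝ) - sl μ s * ((0 : ℕ) : ℝ) ≤ -(wd μ s n / 2) + wd μ s n
        push_cast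
        linarith
    have h1 := le_Mh (μ := μ) (s := s) (v := sl μ s) (h := 0) η hq
    have h2 : T μ s (sl μ s) 0 η (((0 : ℕ) : ℤ), (0 : ℤ)) m = V μ s η 0 m := by
      unfold T kap
      simp only [add_zero, sub_self, zero_mul, mul_zero]
      rfl
    have h3 : T μ s (sl μ s) 0 η (((0 : ℕ) : ℤ), (0 : ℤ)) m ≤ M η := by
      rw [hM]
      exact h1
    rw [← h2]
    exact h3
  have hexpS : Sub fun η => M η / (C * EE μ s n) := by
    have := hMS.const_mul (1 / (C * EE μ s n))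
    refine (congrArg Pool.Agent.W_7d29a1_F.Sub (funext fun η => ?_)).mp this
    ring
  have hl' : ∫ η, Real.exp (M η / (C * EE μ s n)) ∂(law μ) ≤ C := by rw [hM]; exact hl
  have hCE : 0 < C * EE μ s n := by positivity
  have hmk := mul_meas_ge_le_integral_of_nonneg (μ := law μ)
    (Eventually.of_forall fun η => (Real.exp_pos (M η / (C * EE μ s n))).le) (hexpS.exp_int h.em) (Real.exp u)
  have h6 : (law μ).real {η | u * (C * EE μ s n) ≤ V μ s η 0 m} ≤
      (law μ).real {η | Real.exp u ≤ Real.exp (M η / (C * EE μ s n))} := by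
    refine measureReal_mono (fun η hη => ?_) (measure_ne_top _ _)
    refine Real.exp_le_exp.2 ((le_div_iff₀ hCE).2 ?_)
    exact le_trans hη (hMV η)
  have h7 : Real.exp u * (law μ).real {η | u * (C * EE μ s n) ≤ V μ s η 0 m} ≤ C :=
    ((mul_le_mul_of_nonneg_left h6 (Real.exp_pos _).le).trans hmk).trans hl'
  have h8 : Real.exp u * (C * Real.exp (-u)) = C := by
    rw [mul_left_comm, ← Real.exp_add, add_neg_cancel, Real.exp_zero, mul_one]
  exact le_of_mul_le_mul_left (h7.trans h8.ge) (Real.exp_pos u)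

end Pool.Agent.W_7d29a1_C1.H94
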