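import Pool.Agent.W_7d29a1_C1.ArmG94
import Pool.Agent.W_7d29a1_HS.Reg

/-!
MP_7d29a1_pr, C1, ARMS (helper94), part 6: the node inequality (three arbitrary rows): its geometry, measurability and rows.
-/

set_option autoImplicit false

namespace Pool.Agent.W_7d29a1_C1.H94

open MeasureTheory ProbabilityTheory Filter Topology
open Pool.Agent.W_7d29a1_F Pool.Agent.W_7d29a1_h4g Pool.Agent.W_7d29a1_H Pool.Agent.W_7d29a1_HS
open Pool.Agent.W_7d29a1_h47 (EM Nondeg)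

noncomputable section

variable {μ : Measure ℝ} [IsProbabilityMeasure μ] {s κ c C K1 : ℝ} {n₀ x₁ : ℕ}

/-- Far scales. -/
theorem far94 (h : In μ s c C n₀) {θ : ℝ} (hθ : 0 < θ) : ∃ (K0 n₃ : ℕ), 4 ≤ K0 ∧ 1 ≤ n₃ ∧ ∀ m n : ℕ, n₃ ≤ m → K0 * m ≤ n →
    vA 1 μ s n ≤ θ * vA 1 μ s m ∧ 16 * wd μ s m ≤ wd μ s n := by
  obtain ⟨K, a, n₁, hK, ha, hn1, hv⟩ := vA_pow h
  obtain ⟨b, k, hb, hk, n₂, hn2, hw⟩ := wd_ratio h
  have e1 : ∀ᶠ N : ℕ in atTop, K / θ ≤ (N : ℝ) ^ a :=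
    ((tendsto_rpow_atTop ha).comp tendsto_natCast_atTop_atTop).eventually_ge_atTop _
  have e2 : ∀ᶠ N : ℕ in atTop, 16 / k ≤ (N : ℝ) ^ b :=
    ((tendsto_rpow_atTop hb).comp tendsto_natCast_atTop_atTop).eventually_ge_atTop _
  obtain ⟨K0, hK0⟩ := eventually_atTop.1 (e1.and e2)
  refine ⟨max K0 4, max n₁ n₂, le_max_right _ _, hn1.trans (le_max_left _ _), fun m n hm hn => ?_⟩
  obtain ⟨N, hN⟩ : ∃ N, N = max K0 4 := ⟨_, rfl⟩
  have hN4 : 4 ≤ N := by rw [hN]; exact le_max_right _ _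
  obtain ⟨f1, f2⟩ := hK0 N (by rw [hN]; exact le_max_left _ _)
  rw [← hN] at hn
  have hm1 : n₁ ≤ m := (le_max_left _ _).trans hm
  have hm2 : n₂ ≤ m := (le_max_right _ _).trans hm
  have hm0 : 1 ≤ m := hn1.trans hm1
  have hmn : m ≤ n := (Nat.le_mul_of_pos_left m (by omega)).trans hn
  have hmr : (0 : ℝ) < m := by exact_mod_cast hm0
  have hnr : (0 : ℝ) < n := by exact_mod_cast hm0.trans hmn
  have hNr : (0 : ℝ) < N := by exact_mod_cast (by omega : 0 < N)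
  have hnN : (N : ℝ) * m ≤ n := by exact_mod_cast hn
  have hNa : 0 < (N : ℝ) ^ a := Real.rpow_pos_of_pos hNr a
  constructor
  · have h1 := hv m n hm1 hmn
    have h2 : (m : ℝ) / n ≤ 1 / N := by
      rw [div_le_div_iff₀ hnr hNr]
      linarith
    have h3 : ((m : ℝ) / n) ^ a ≤ 1 / (N : ℝ) ^ a := by
      calc ((m : ℝ) / n) ^ a ≤ (1 / (N : ℝ)) ^ a := Real.rpow_le_rpow (by positivity) h2 ha.le
        _ = 1 / (N : ℝ) ^ a := by rw [Real.div_rpow zero_le_one hNr.le, Real.one_rpow]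
    have h4 : K * ((m : ℝ) / n) ^ a ≤ θ := by
      rw [div_le_iff₀ hθ] at f1
      calc K * ((m : ℝ) / n) ^ a ≤ K * (1 / (N : ℝ) ^ a) := mul_le_mul_of_nonneg_left h3 hK.le
        _ = K / (N : ℝ) ^ a := by ring
        _ ≤ θ := by
          rw [div_le_iff₀ hNa]
          linarith
    exact h1.trans (mul_le_mul_of_nonneg_right h4 (h.vA_nonneg m))
  · have h1 := hw m n hm2 hmn
    have h2 : (N : ℝ) ≤ (n : ℝ) / m := by
      rw [le_div_iff₀ hmr]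
      exact hnN
    have h3 : (N : ℝ) ^ b ≤ ((n : ℝ) / m) ^ b := Real.rpow_le_rpow hNr.le h2 hb.le
    have h4 : 16 ≤ k * ((n : ℝ) / m) ^ b := by
      rw [div_le_iff₀ hk] at f2
      have := mul_le_mul_of_nonneg_left h3 hk.le
      linarith
    exact (mul_le_mul_of_nonneg_right h4 (h.wd_nonneg m)).trans h1

/-! ### The ends of the annulus -/

/-- Rounding towards the centre. -/
def off (ε v : ℝ) : ℤ := if ε = 1 then ⌊v⌋ else ⌈v⌉

theorem off_le {ε : ℝ} (hε : ε = 1 ∨ ε = -1) (v : ℝ) : ε * (off ε v : ℝ) ≤ ε * v ∧ ε * v - 1 ≤ ε * (off ε v : ℝ) := by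
  unfold off
  rcases hε with rfl | rfl
  · rw [if_pos rfl]
    have h1 := Int.floor_le v
    have h2 := Int.sub_one_lt_floor v
    constructor <;> linarith
  · rw [if_neg (by norm_num)]
    have h1 := Int.le_ceil v
    have h2 := Int.ceil_lt_add_one v
    constructor <;> linarith

/-- The inner end of the node: frame coordinate `X` at the middle row, displacement `D`. -/
def na (μ : Measure ℝ) (s ε : ℝ) (n1 : ℕ) (X D : ℝ) : ℤ := off ε (X - sl μ s * n1 + ε * (7 / 8 * D))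

/-- The outer end. -/
def nb (μ : Measure ℝ) (s ε : ℝ) (n2 : ℕ) (q X D : ℝ) : ℤ := off ε (X + sl μ s * n2 + ε * (16 * q * D))

/-- **The node inequality**: rows `r`, `r + n1`, `r + n1 + n2`, frame coordinate `X` and displacement `D` at the middle row. -/
def NodI (μ : Measure ℝ) (s c₀ δ₁ ε q : ℝ) (η : Env) (r : ℤ) (n1 n2 : ℕ) (X D : ℝ) : Prop :=
  Nm μ s ε (δ₁ * (D / n1)) η (r, na μ s ε n1 X D) n1 n2 (nb μ s ε n2 q X D - na μ s ε n1 X D) ≤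
    Real.exp (-(c₀ * ((n1 : ℝ) * J μ s (ε * (δ₁ * (D / n1)))))) *
      W μ s η (r, na μ s ε n1 X D) (n1 + n2) (nb μ s ε n2 q X D - na μ s ε n1 X D)

/-- The displacements of the node. -/
theorem geo94 {sl₀ ε δ₁ r₀ θ : ℝ} (hε : ε = 1 ∨ ε = -1) (hs0 : 2 * δ₁ ≤ sl₀) (hs1 : sl₀ ≤ 1 - 2 * δ₁) (hδ : 0 < δ₁) (hr : 1 ≤ r₀)
    (hθ : 16 * r₀ * θ ≤ δ₁) {n1 n2 : ℕ} (hn1 : 1 ≤ n1) (hn2 : 1 ≤ n2) {q D X : ℝ} (hq : 1 ≤ q) (hqn : q * n1 ≤ θ * n2)
    (hD : 2 ≤ D) (hDt : D ≤ 2 * n1) {a b y : ℤ}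
    (ha : a = off ε (X - sl₀ * n1 + ε * (7 / 8 * D))) (hb : b = off ε (X + sl₀ * n2 + ε * (16 * q * D))) (hy : y = b - a) :
    0 ≤ y ∧ y ≤ (n1 + n2 : ℕ) ∧ 0 ≤ ε * ((y : ℝ) / (n1 + n2 : ℕ) - sl₀) ∧
      r₀ * (ε * ((y : ℝ) / (n1 + n2 : ℕ) - sl₀)) ≤ δ₁ * (D / n1) := by
  have hεε : ε * ε = 1 := by rcases hε with rfl | rfl <;> norm_num
  obtain ⟨n, hn⟩ : ∃ n, n = n1 + n2 := ⟨_, rfl⟩
  rw [← hn]
  have hnr : (n : ℝ) = n1 + n2 := by rw [hn]; push_cast; ring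
  have h1r : (1 : ℝ) ≤ n1 := by exact_mod_cast hn1
  have h2r : (1 : ℝ) ≤ n2 := by exact_mod_cast hn2
  have hn0 : 0 < (n : ℝ) := by rw [hnr]; linarith
  have hn20 : (0 : ℝ) < n2 := by linarith
  have hn10 : (0 : ℝ) < n1 := by linarith
  obtain ⟨Db, hDb⟩ : ∃ Db, Db = 16 * q * D := ⟨_, rfl⟩
  rw [← hDb] at hb
  have hDbD : 16 * D ≤ Db := by
    rw [hDb]
    have : 16 * D * 1 ≤ 16 * D * q := mul_le_mul_of_nonneg_left hq (by linarith)
    linarith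
  obtain ⟨a1, a2⟩ := off_le hε (X - sl₀ * n1 + ε * (7 / 8 * D))
  obtain ⟨b1, b2⟩ := off_le hε (X + sl₀ * n2 + ε * Db)
  rw [← ha] at a1 a2
  rw [← hb] at b1 b2
  have ea : ε * (X - sl₀ * n1 + ε * (7 / 8 * D)) = ε * (X - sl₀ * n1) + 7 / 8 * D := by
    rw [mul_add, ← mul_assoc ε ε, hεε, one_mul]
  have eb : ε * (X + sl₀ * n2 + ε * Db) = ε * (X + sl₀ * n2) + Db := by
    rw [mul_add, ← mul_assoc ε ε, hεε, one_mul]
  rw [ea] at a1 a2
  rw [eb] at b1 b2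
  have hyr : (y : ℝ) = b - a := by rw [hy]; push_cast; ring
  have e1 : ε * ((y : ℝ) - sl₀ * n) = ε * b - ε * a - (ε * (X + sl₀ * n2) - ε * (X - sl₀ * n1)) := by
    rw [hyr, hnr]
    ring
  have lo : 0 ≤ ε * ((y : ℝ) - sl₀ * n) := by rw [e1]; linarith
  have hi : ε * ((y : ℝ) - sl₀ * n) ≤ Db := by rw [e1]; linarith
  have e2 : ε * ((y : ℝ) / n - sl₀) = ε * ((y : ℝ) - sl₀ * n) / n := by field_simp
  have hDbn : Db / n ≤ 16 * θ * (D / n1) := by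
    have h2 : Db / n ≤ Db / n2 := div_le_div_of_nonneg_left (by linarith) hn20 (by rw [hnr]; linarith)
    refine h2.trans ?_
    rw [hDb, div_le_iff₀ hn20]
    calc 16 * q * D = 16 * (D / n1) * (q * n1) := by field_simp
      _ ≤ 16 * (D / n1) * (θ * n2) := mul_le_mul_of_nonneg_left hqn (by positivity)
      _ = _ := by ring
  have hup : ε * ((y : ℝ) / n - sl₀) ≤ 16 * θ * (D / n1) := by
    rw [e2]
    exact (div_le_div_of_nonneg_right hi hn0.le).trans hDbn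
  have hlo : 0 ≤ ε * ((y : ℝ) / n - sl₀) := by
    rw [e2]
    exact div_nonneg lo hn0.le
  have hDt1 : D / n1 ≤ 2 := (div_le_iff₀ hn10).2 hDt
  have hDt0 : 0 ≤ D / n1 := by positivity
  have hr1 : r₀ * (ε * ((y : ℝ) / n - sl₀)) ≤ δ₁ * (D / n1) := by
    calc r₀ * (ε * ((y : ℝ) / n - sl₀)) ≤ r₀ * (16 * θ * (D / n1)) := mul_le_mul_of_nonneg_left hup (by linarith)
      _ = 16 * r₀ * θ * (D / n1) := by ring
      _ ≤ δ₁ * (D / n1) := mul_le_mul_of_nonneg_right hθ hDt0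
  have hsm : ε * ((y : ℝ) / n - sl₀) ≤ 2 * δ₁ := by
    have h1 : 1 * (ε * ((y : ℝ) / n - sl₀)) ≤ r₀ * (ε * ((y : ℝ) / n - sl₀)) := mul_le_mul_of_nonneg_right hr hlo
    have h2 : δ₁ * (D / n1) ≤ δ₁ * 2 := mul_le_mul_of_nonneg_left hDt1 hδ.le
    linarith
  have hab : |(y : ℝ) / n - sl₀| ≤ 2 * δ₁ := by
    rcases hε with rfl | rfl
    · rw [abs_le]
      constructor <;> linarith
    · rw [abs_le]
      constructor <;> linarith
  obtain ⟨c1, c2⟩ := abs_le.1 hab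
  refine ⟨?_, ?_, hlo, hr1⟩
  · have h1 : 0 ≤ (y : ℝ) / n := by linarith
    have h2 : 0 ≤ (y : ℝ) := by
      have := mul_nonneg h1 hn0.le
      rwa [div_mul_cancel₀ _ hn0.ne'] at this
    exact_mod_cast h2
  · have h1 : (y : ℝ) / n ≤ 1 := by linarith
    rw [div_le_one hn0] at h1
    exact_mod_cast h1

/-! ### Shift, measurability, rows -/

omit [IsProbabilityMeasure μ] in
theorem Nm_sh (s ε x : ℝ) (η : Env) (a : Pt) (n1 n2 : ℕ) (y : ℤ) : Nm μ s ε x (sh a η) 0 n1 n2 y = Nm μ s ε x η a n1 n2 y := by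
  unfold Nm
  refine Finset.sum_congr rfl fun z _ => ?_
  rw [W_sh, W_sh, zero_add]
  congr 2
  refine Prod.ext ?_ ?_
  · simp only [Prod.fst_add, Prod.fst_zero]
    ring
  · simp only [Prod.snd_add, Prod.snd_zero]
    ring

omit [IsProbabilityMeasure μ] in
theorem meas_Nm (s ε x : ℝ) (a : Pt) (n1 n2 : ℕ) (y : ℤ) : Measurable fun η : Env => Nm μ s ε x η a n1 n2 y := by
  unfold Nm
  exact Finset.measurable_sum _ fun z _ => (measurable_W _ _ _).mul (measurable_W _ _ _)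

theorem dep_Nm (s ε x : ℝ) (a : Pt) (n1 n2 : ℕ) (y : ℤ) :
    DependsOn (fun η : Env => Nm μ s ε x η a n1 n2 y) (rows a.1 (a.1 + n1 + n2)) := by
  intro η η' hh
  show Nm μ s ε x η a n1 n2 y = Nm μ s ε x η' a n1 n2 y
  unfold Nm
  refine Finset.sum_congr rfl fun z _ => ?_
  have h1 : W μ s η a n1 z = W μ s η' a n1 z := W_dep_rows (μ := μ) (s := s) a n1 z fun p hp => hh p ⟨hp.1, by have := hp.2; omega⟩
  have h2 : W μ s η (a.1 + n1, a.2 + z) n2 (y - z) = W μ s η' (a.1 + n1, a.2 + z) n2 (y - z) :=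
    W_dep_rows (μ := μ) (s := s) (a.1 + n1, a.2 + z) n2 (y - z) fun p hp => hh p ⟨by have := hp.1; simp only at this; omega, hp.2⟩
  rw [h1, h2]

theorem meas_NodI (s c₀ δ₁ ε q : ℝ) (r : ℤ) (n1 n2 : ℕ) (X D : ℝ) : MeasurableSet {η : Env | NodI μ s c₀ δ₁ ε q η r n1 n2 X D} :=
  measurableSet_le (meas_Nm _ _ _ _ _ _ _) ((measurable_W _ _ _).const_mul _)

theorem dep_NodI (s c₀ δ₁ ε q : ℝ) (r : ℤ) (n1 n2 : ℕ) (X D : ℝ) :
    DependsOn (fun η : Env => NodI μ s c₀ δ₁ ε q η r n1 n2 X D) (rows r (r + n1 + n2)) := by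
  intro η η' hh
  show NodI μ s c₀ δ₁ ε q η r n1 n2 X D = NodI μ s c₀ δ₁ ε q η' r n1 n2 X D
  unfold NodI
  have h1 : Nm μ s ε (δ₁ * (D / n1)) η (r, na μ s ε n1 X D) n1 n2 (nb μ s ε n2 q X D - na μ s ε n1 X D) =
      Nm μ s ε (δ₁ * (D / n1)) η' (r, na μ s ε n1 X D) n1 n2 (nb μ s ε n2 q X D - na μ s ε n1 X D) :=
    dep_Nm (μ := μ) s ε (δ₁ * (D / n1)) (r, na μ s ε n1 X D) n1 n2 _ fun q hq => hh q hq
  have h2 : W μ s η (r, na μ s ε n1 X D) (n1 + n2) (nb μ s ε n2 q X D - na μ s ε n1 X D) =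
      W μ s η' (r, na μ s ε n1 X D) (n1 + n2) (nb μ s ε n2 q X D - na μ s ε n1 X D) :=
    W_dep_rows (μ := μ) (s := s) (r, na μ s ε n1 X D) (n1 + n2) _ fun q hq => hh q ⟨hq.1, by
      have := hq.2
      simp only at this
      push_cast at this
      omega⟩
  rw [h1, h2]

end

end Pool.Agent.W_7d29a1_C1.H94
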