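import Pool.Agent.W_7d29a1_C1.ArmA94

/-!
MP_7d29a1_pr, C1, ARMS (helper94), part 7: the constants of the node inequality; the rate of a displacement along the chain.
-/

set_option autoImplicit false

namespace Pool.Agent.W_7d29a1_C1.H94

open MeasureTheory ProbabilityTheory Filter Topology
open Pool.Agent.W_7d29a1_F Pool.Agent.W_7d29a1_h4g Pool.Agent.W_7d29a1_H Pool.Agent.W_7d29a1_HS
open Pool.Agent.W_7d29a1_h47 (EM Nondeg)

noncomputable section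

variable {μ : Measure ℝ} [IsProbabilityMeasure μ] {s κ c C K1 : ℝ} {n₀ x₁ : ℕ}

/-! ### The rate function -/

theorem J_th (hμ : EM μ) (hnd : Nondeg μ) (s z : ℝ) {θ : ℝ} (h0 : 0 ≤ θ) (h1 : θ ≤ 1) : J μ s (θ * z) ≤ θ * J μ s z := by
  have h6 := (J_convex hμ hnd s).2 (Set.mem_univ z) (Set.mem_univ 0) h0 (sub_nonneg.2 h1) (by ring)
  simpa only [smul_eq_mul, mul_zero, add_zero, J_zero hμ hnd s] using h6

theorem J_ray (hμ : EM μ) (hnd : Nondeg μ) (s ε : ℝ) {x x' : ℝ} (h0 : 0 ≤ x) (h1 : x ≤ x') : J μ s (ε * x) ≤ J μ s (ε * x') := by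
  rcases (h0.trans h1).eq_or_lt with h2 | h2
  · have : x = 0 := by linarith
    rw [this, ← h2]
  · have h3 := J_th hμ hnd s (ε * x') (θ := x / x') (by positivity) ((div_le_one h2).2 h1)
    have e : x / x' * (ε * x') = ε * x := by field_simp
    rw [e] at h3
    exact h3.trans (mul_le_of_le_one_left (J_nonneg hμ hnd s _) ((div_le_one h2).2 h1))

theorem sup_iter {ρ d : ℝ} (hρ0 : 0 < ρ) (hSu : ∀ x, |x| ≤ d → 2 * J μ s (x / 2) ≤ ρ * J μ s x) :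
    ∀ (k : ℕ) (z : ℝ), |z| ≤ d → 2 ^ k * J μ s (z / 2 ^ k) ≤ ρ ^ k * J μ s z := by
  intro k
  induction k with
  | zero => intro z _; simp
  | succ k ih =>
    intro z hz
    have h1 : |z / 2| ≤ d := by
      rw [abs_div, abs_two]
      have := abs_nonneg z
      linarith
    have h2 := ih (z / 2) h1
    have h3 := hSu z hz
    have e1 : z / 2 ^ (k + 1) = z / 2 / 2 ^ k := by
      rw [pow_succ]
      field_simp
    calc 2 ^ (k + 1) * J μ s (z / 2 ^ (k + 1)) = 2 * (2 ^ k * J μ s (z / 2 / 2 ^ k)) := by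
          rw [e1]
          ring
      _ ≤ 2 * (ρ ^ k * J μ s (z / 2)) := mul_le_mul_of_nonneg_left h2 (by norm_num)
      _ = ρ ^ k * (2 * J μ s (z / 2)) := by ring
      _ ≤ ρ ^ k * (ρ * J μ s z) := mul_le_mul_of_nonneg_left h3 (by positivity)
      _ = _ := by ring

/-- A quarter of the displacement at the inner row costs more. -/
theorem J_down (hμ : EM μ) (hnd : Nondeg μ) {ρ d : ℝ} (hρ0 : 0 < ρ) {k : ℕ} (hk : 4 * ρ ^ k ≤ 1)
    (hSu : ∀ x, |x| ≤ d → 2 * J μ s (x / 2) ≤ ρ * J μ s x) {ε : ℝ} (hε : ε = 1 ∨ ε = -1) {δ₁ : ℝ} (hδ : 0 < δ₁) (hδd : δ₁ ≤ d)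
    {t0 t1 : ℕ} (ht0 : 1 ≤ t0) (h01 : 4 * 2 ^ k * t0 ≤ t1) {D : ℝ} (hD0 : 0 ≤ D) (hD : D ≤ t0) :
    t1 * J μ s (ε * (δ₁ * (4 * D / t1))) ≤ t0 * J μ s (ε * (δ₁ * (D / t0))) := by
  have ht0r : (0 : ℝ) < t0 := by exact_mod_cast ht0
  have h01r : 4 * 2 ^ k * (t0 : ℝ) ≤ t1 := by exact_mod_cast h01
  have hp : (0 : ℝ) < 2 ^ k := by positivity
  have ht1r : (0 : ℝ) < t1 := lt_of_lt_of_le (by positivity) h01r
  have hεa : |ε| = 1 := by rcases hε with rfl | rfl <;> simp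
  obtain ⟨x, hx⟩ : ∃ x, x = δ₁ * (D / t0) := ⟨_, rfl⟩
  have hx0 : 0 ≤ x := by rw [hx]; positivity
  have hxd : x ≤ d := by
    rw [hx]
    have h1 : D / t0 ≤ 1 := (div_le_one ht0r).2 hD
    have h2 : δ₁ * (D / t0) ≤ δ₁ * 1 := mul_le_mul_of_nonneg_left h1 hδ.le
    linarith
  obtain ⟨θ, hθ⟩ : ∃ θ : ℝ, θ = 4 * 2 ^ k * t0 / t1 := ⟨_, rfl⟩
  have hθ0 : 0 ≤ θ := by rw [hθ]; positivity
  have hθ1 : θ ≤ 1 := by rw [hθ, div_le_one ht1r]; exact h01r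
  have e1 : ε * (δ₁ * (4 * D / t1)) = θ * (ε * x / 2 ^ k) := by
    rw [hθ, hx]
    field_simp
  rw [e1, ← hx]
  have h1 := J_th hμ hnd s (ε * x / 2 ^ k) hθ0 hθ1
  have h2 := sup_iter (μ := μ) (s := s) hρ0 hSu k (ε * x) (by rw [abs_mul, hεa, one_mul, abs_of_nonneg hx0]; exact hxd)
  have hJ := J_nonneg hμ hnd s (ε * x)
  calc t1 * J μ s (θ * (ε * x / 2 ^ k)) ≤ t1 * (θ * J μ s (ε * x / 2 ^ k)) := mul_le_mul_of_nonneg_left h1 ht1r.le
    _ = 4 * t0 * (2 ^ k * J μ s (ε * x / 2 ^ k)) := by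
      rw [hθ]
      field_simp
    _ ≤ 4 * t0 * (ρ ^ k * J μ s (ε * x)) := mul_le_mul_of_nonneg_left h2 (by positivity)
    _ = 4 * ρ ^ k * (t0 * J μ s (ε * x)) := by ring
    _ ≤ 1 * (t0 * J μ s (ε * x)) := mul_le_mul_of_nonneg_right hk (by positivity)
    _ = _ := one_mul _

/-- The constants of the node inequality. `K0` = least ratio of two scales, `Kb` = largest ratio of the heights of a node. -/
structure Cs94 (μ : Measure ℝ) (s c₀ δ₁ c₁ A a g θ Y₁ : ℝ) (K0 Kb n₃ : ℕ) : Prop where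
  em : EM μ
  nd : Nondeg μ
  c₀0 : 0 < c₀
  δ0 : 0 < δ₁
  δ1 : δ₁ ≤ 1 / 8
  c₁0 : 0 < c₁
  A0 : 0 < A
  a0 : 0 < a
  g0 : 0 < g
  θ0 : 0 < θ
  Y1 : 1 ≤ Y₁
  K4 : 4 ≤ K0
  n1 : 1 ≤ n₃
  wd2 : ∀ n, n₃ ≤ n → 2 ≤ wd μ s n
  wd16 : ∀ m n, n₃ ≤ m → K0 * m ≤ n → vA 1 μ s n ≤ θ / 8 * vA 1 μ s m ∧ 16 * wd μ s m ≤ wd μ s n
  geo : ∀ n1 n2 : ℕ, 1 ≤ n1 → 1 ≤ n2 → ∀ q X D : ℝ, 1 ≤ q → q * n1 ≤ θ * n2 → 2 ≤ D → D ≤ 2 * n1 → ∀ ε : ℝ, ε = 1 ∨ ε = -1 →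
    0 ≤ nb μ s ε n2 q X D - na μ s ε n1 X D ∧ nb μ s ε n2 q X D - na μ s ε n1 X D ≤ (n1 + n2 : ℕ)
  /-- The probability that the node inequality fails. -/
  prob : ∀ n1 n2 : ℕ, n₃ ≤ n1 → 1 ≤ n2 → n2 ≤ Kb * n1 → ∀ q X D Y : ℝ, 1 ≤ q → q * n1 ≤ θ * n2 → Y₁ ≤ Y → Y * wd μ s n1 ≤ D →
    D ≤ 2 * n1 → ∀ ε : ℝ, ε = 1 ∨ ε = -1 → ∀ r : ℤ,
    (law μ).real {η | ¬ NodI μ s c₀ δ₁ ε q η r n1 n2 X D} ≤ A * Real.exp (-(a * Y ^ g))
  /-- The rate along the chain of the heights `T 1 < T 2 < ..`. -/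
  rate : ∀ (T : ℕ → ℕ) (m : ℕ), n₃ ≤ T 1 → (∀ i, 1 ≤ i → i < m → K0 * T i ≤ T (i + 1)) → ∀ i j : ℕ, 1 ≤ i → 1 ≤ j → i < m → j < m →
    ∀ Y D D' : ℝ, Y₁ ≤ Y →
    D ≤ T i → Y * wd μ s (T i) ≤ D → Y * wd μ s (T j) ≤ 4 ^ (((i : ℤ) - j).natAbs) * D → 0 ≤ D' → D ≤ 4 * D' → D' ≤ D →
    ∀ ε : ℝ, ε = 1 ∨ ε = -1 → ∀ n : ℕ, T i ≤ 2 * n → n ≤ T i →
    c₁ * (Y * EE μ s (T j)) ≤ c₀ * (n * J μ s (ε * (δ₁ * (D' / n))))

/-- **The constants exist.** -/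
theorem cs94 (hF : Fam94 μ s κ c C n₀ K1 x₁) : ∃ (c₀ δ₁ c₁ A a g θ : ℝ) (K0 : ℕ), ∀ Kb : ℕ, ∃ (n₃ : ℕ) (Y₁ : ℝ),
    Cs94 μ s c₀ δ₁ c₁ A a g θ Y₁ K0 Kb n₃ := by
  have h : In μ s c C n₀ := by
    have := hF.inn 0 (by rw [abs_zero]; exact hF.κ0.le)
    rwa [add_zero] at this
  obtain ⟨δ₀, r₀, c₀, A, a, g, hδ₀, hr₀, hc₀, hA, ha, hg, hg1, hl⟩ := lsl94 hF
  obtain ⟨Ds, d₁, hD1, hd₁, hsym⟩ := h.sym
  obtain ⟨ρ, d₂, hρ0, hρ1, hd₂, hsup⟩ := h.sup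
  obtain ⟨H, δ, hDir⟩ := h.dir
  obtain ⟨k₀, hk₀⟩ : ∃ k₀ : ℕ, 4 * ρ ^ k₀ ≤ 1 := by
    obtain ⟨k₀, hk⟩ := exists_pow_lt_of_lt_one (show (0 : ℝ) < 1 / 4 by norm_num) hρ1
    exact ⟨k₀, by linarith⟩
  have hs0 := h.sl_pos
  have hs1 := h.sl_lt
  obtain ⟨d, hd⟩ : ∃ d, d = min (min δ₀ (1 / 4)) (min (min d₁ d₂) (min (sl μ s) (1 - sl μ s))) := ⟨_, rfl⟩
  have hd0 : 0 < d := by
    rw [hd]
    exact lt_min (lt_min hδ₀ (by norm_num)) (lt_min (lt_min hd₁ hd₂) (lt_min hs0 (by linarith)))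
  obtain ⟨δ₁, hδ₁⟩ : ∃ δ₁, δ₁ = d / 2 := ⟨_, rfl⟩
  have hδ0 : 0 < δ₁ := by rw [hδ₁]; positivity
  have hdδ : d = 2 * δ₁ := by rw [hδ₁]; ring
  have q1 : 2 * δ₁ ≤ δ₀ := by rw [← hdδ, hd]; exact (min_le_left _ _).trans (min_le_left _ _)
  have q2 : 2 * δ₁ ≤ 1 / 4 := by rw [← hdδ, hd]; exact (min_le_left _ _).trans (min_le_right _ _)
  have q3 : 2 * δ₁ ≤ d₁ := by rw [← hdδ, hd]; exact (min_le_right _ _).trans ((min_le_left _ _).trans (min_le_left _ _))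
  have q4 : 2 * δ₁ ≤ d₂ := by rw [← hdδ, hd]; exact (min_le_right _ _).trans ((min_le_left _ _).trans (min_le_right _ _))
  have q5 : 2 * δ₁ ≤ sl μ s := by rw [← hdδ, hd]; exact (min_le_right _ _).trans ((min_le_right _ _).trans (min_le_left _ _))
  have q6 : 2 * δ₁ ≤ 1 - sl μ s := by rw [← hdδ, hd]; exact (min_le_right _ _).trans ((min_le_right _ _).trans (min_le_right _ _))
  have hr0 : 0 < r₀ := by linarith
  obtain ⟨θ, hθ⟩ : ∃ θ, θ = δ₁ / (16 * r₀) := ⟨_, rfl⟩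
  have hθ0 : 0 < θ := by rw [hθ]; positivity
  have hθr : 16 * r₀ * θ ≤ δ₁ := by
    rw [hθ]
    field_simp
    exact le_rfl
  obtain ⟨K0', n3', hK4, hn31, hfar⟩ := far94 h (θ := θ / 8) (by positivity)
  obtain ⟨K0, hK0⟩ : ∃ K0, K0 = max K0' (4 * 2 ^ k₀) := ⟨_, rfl⟩
  have hK01 : K0' ≤ K0 := by rw [hK0]; exact le_max_left _ _
  have hK02 : 4 * 2 ^ k₀ ≤ K0 := by rw [hK0]; exact le_max_right _ _
  have hDs0 : 0 < Ds := by linarith
  refine ⟨c₀, δ₁, c₀ * δ₁ / (2 * Ds ^ 2), A, a * δ₁ ^ g, g, θ, K0, fun Kb => ?_⟩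
  obtain ⟨Y₀, n₃'', hY₀, hn₃'', hlsl⟩ := hl (Kb + 1)
  obtain ⟨N1, hN1⟩ := wd_large h 2
  obtain ⟨N2, hN2⟩ := eventually_atTop.1 (h.tv.eventually_lt_const hd₁)
  obtain ⟨n₃, hn₃⟩ : ∃ n₃, n₃ = max (max n3' n₃'') (max N1 N2) := ⟨_, rfl⟩
  have p1 : n3' ≤ n₃ := by rw [hn₃]; exact (le_max_left _ _).trans (le_max_left _ _)
  have p2 : n₃'' ≤ n₃ := by rw [hn₃]; exact (le_max_right _ _).trans (le_max_left _ _)
  have p3 : N1 ≤ n₃ := by rw [hn₃]; exact (le_max_left _ _).trans (le_max_right _ _)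
  have p4 : N2 ≤ n₃ := by rw [hn₃]; exact (le_max_right _ _).trans (le_max_right _ _)
  have hn31' : 1 ≤ n₃ := hn31.trans p1
  have hK04 : 4 ≤ K0 := hK4.trans hK01
  have hfar' : ∀ m n : ℕ, n₃ ≤ m → K0 * m ≤ n → vA 1 μ s n ≤ θ / 8 * vA 1 μ s m ∧ 16 * wd μ s m ≤ wd μ s n := fun m n hm hn =>
    hfar m n (p1.trans hm) ((Nat.mul_le_mul_right _ hK01).trans hn)
  have hgeo : ∀ n1 n2 : ℕ, 1 ≤ n1 → 1 ≤ n2 → ∀ q X D : ℝ, 1 ≤ q → q * n1 ≤ θ * n2 → 2 ≤ D → D ≤ 2 * n1 → ∀ ε : ℝ, ε = 1 ∨ ε = -1 →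
      0 ≤ nb μ s ε n2 q X D - na μ s ε n1 X D ∧ nb μ s ε n2 q X D - na μ s ε n1 X D ≤ (n1 + n2 : ℕ) ∧
      0 ≤ ε * (((nb μ s ε n2 q X D - na μ s ε n1 X D : ℤ) : ℝ) / (n1 + n2 : ℕ) - sl μ s) ∧
      r₀ * (ε * (((nb μ s ε n2 q X D - na μ s ε n1 X D : ℤ) : ℝ) / (n1 + n2 : ℕ) - sl μ s)) ≤ δ₁ * (D / n1) := by
    intro n1 n2 h1 h2 q X D hq hqn hD hDt ε hε
    exact geo94 hε q5 (by linarith) hδ0 hr₀ hθr h1 h2 hq hqn hD hDt rfl rfl rfl
  obtain ⟨Y₁, hY₁⟩ : ∃ Y₁ : ℝ, Y₁ = max 1 (max (Y₀ / δ₁) (1 / δ₁)) := ⟨_, rfl⟩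
  have r1 : 1 ≤ Y₁ := by rw [hY₁]; exact le_max_left _ _
  have r2 : Y₀ / δ₁ ≤ Y₁ := by rw [hY₁]; exact (le_max_left _ _).trans (le_max_right _ _)
  have r3 : 1 / δ₁ ≤ Y₁ := by rw [hY₁]; exact (le_max_right _ _).trans (le_max_right _ _)
  refine ⟨n₃, Y₁, h.em, h.nd, hc₀, hδ0, by linarith, by positivity, hA, by positivity, hg, hθ0, r1, hK04, hn31',
    fun n hn => hN1 n (p3.trans hn), hfar', fun n1 n2 h1 h2 q X D hq hqn hD hDt ε hε =>
      ⟨(hgeo n1 n2 h1 h2 q X D hq hqn hD hDt ε hε).1, (hgeo n1 n2 h1 h2 q X D hq hqn hD hDt ε hε).2.1⟩, ?_, ?_⟩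
  · -- the probability
    intro n1 n2 hn1 hn2 hnb q X D Y hq hqn hY hYD hDt ε hε r
    have hn11 : 1 ≤ n1 := hn31'.trans hn1
    have hY1 : 1 ≤ Y := r1.trans hY
    have hY0 : 0 < Y := by linarith
    have hw1 := h.wd_pos hn11
    have hw2 := hN1 n1 (p3.trans hn1)
    have hD2 : 2 ≤ D := by
      calc (2 : ℝ) = 1 * 2 := by ring
        _ ≤ Y * wd μ s n1 := mul_le_mul hY1 hw2 (by norm_num) hY0.le
        _ ≤ D := hYD
    obtain ⟨g1, g2, g3, g4⟩ := hgeo n1 n2 hn11 hn2 q X D hq hqn hD2 hDt ε hε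
    have hn1r : (0 : ℝ) < n1 := by exact_mod_cast hn11
    have hDt1 : D / n1 ≤ 2 := (div_le_iff₀ hn1r).2 hDt
    obtain ⟨y, hy⟩ : ∃ y, y = nb μ s ε n2 q X D - na μ s ε n1 X D := ⟨_, rfl⟩
    rw [← hy] at g1 g2 g3 g4
    have hnn : n1 + n2 ≤ 2 ^ (Kb + 1) * n1 := by
      have e3 : 1 + Kb ≤ 2 ^ (Kb + 1) := by
        have := (Nat.lt_two_pow_self (n := Kb))
        rw [pow_succ]
        omega
      calc n1 + n2 ≤ n1 + Kb * n1 := Nat.add_le_add_left hnb _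
        _ = (1 + Kb) * n1 := by ring
        _ ≤ _ := Nat.mul_le_mul_right _ e3
    have hYv : Y * vA 1 μ s n1 ≤ D / n1 := by
      rw [le_div_iff₀ hn1r]
      unfold wd at hYD
      linarith
    have hl1 := hlsl n1 (p2.trans hn1) n2 hn2 hnn (δ₁ * Y) (by
        rw [div_le_iff₀ hδ0] at r2
        have := mul_le_mul_of_nonneg_right hY hδ0.le
        linarith) (δ₁ * (D / n1)) (by
        rw [mul_assoc]
        exact mul_le_mul_of_nonneg_left hYv hδ0.le) (by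
        have : δ₁ * (D / n1) ≤ δ₁ * 2 := mul_le_mul_of_nonneg_left hDt1 hδ0.le
        linarith) ε hε y g1 g2 g3 g4
    obtain ⟨E, hE⟩ : ∃ E : Set Env, E = {η | Real.exp (-(c₀ * (n1 * J μ s (ε * (δ₁ * (D / n1)))))) * W μ s η 0 (n1 + n2) y ≤
        Nm μ s ε (δ₁ * (D / n1)) η 0 n1 n2 y} := ⟨_, rfl⟩
    have hEm : MeasurableSet E := by
      rw [hE]
      exact measurableSet_le ((measurable_W _ _ _).const_mul _) (meas_Nm _ _ _ _ _ _ _)
    rw [← hE] at hl1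
    obtain ⟨a', ha'⟩ : ∃ a' : Pt, a' = (r, na μ s ε n1 X D) := ⟨_, rfl⟩
    have hsub : {η | ¬ NodI μ s c₀ δ₁ ε q η r n1 n2 X D} ⊆ {η | sh a' η ∈ E} := by
      intro η hη
      rw [Set.mem_ofPred_eq] at hη ⊢
      unfold NodI at hη
      rw [not_le, ← hy, ← ha'] at hη
      rw [hE, Set.mem_ofPred_eq, Nm_sh, W_sh, zero_add]
      exact hη.le
    refine (measureReal_mono hsub (measure_ne_top _ _)).trans ?_
    rw [real_sh (μ := μ) a' hEm]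
    refine hl1.trans (le_of_eq ?_)
    rw [Real.mul_rpow hδ0.le hY0.le]
    ring_nf
  · -- the rate
    intro T m hT1 hT i j hi1 hj1 hi hj Y D D' hY hDT hYi hYj hD'0 hDD hD'D ε hε n hn hnT
    have hTn : ∀ i, 1 ≤ i → i ≤ m → n₃ ≤ T i := by
      intro i hi
      induction i, hi using Nat.le_induction with
      | base => intro _; exact hT1
      | succ i hi ih =>
        intro hi'
        have := hT i hi (by omega)
        exact (ih (by omega)).trans ((Nat.le_mul_of_pos_left _ (by omega)).trans this)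
    have hεa : |ε| = 1 := by rcases hε with rfl | rfl <;> simp
    have hTi1 : 1 ≤ T i := hn31'.trans (hTn i hi1 hi.le)
    have hTir : (0 : ℝ) < T i := by exact_mod_cast hTi1
    have hY1 : 1 ≤ Y := r1.trans hY
    have hY0 : 0 < Y := by linarith
    have hδY : 1 ≤ δ₁ * Y := by
      have := r3.trans hY
      rw [div_le_iff₀ hδ0] at this
      linarith
    -- the base
    have hbase : ∀ k, 1 ≤ k → k < m → ∀ D'' : ℝ, Y * wd μ s (T k) ≤ D'' →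
        δ₁ * Y * EE μ s (T k) ≤ T k * J μ s (ε * (δ₁ * (D'' / T k))) := by
      intro k hk1 hk D'' hD''
      have hTk1 : 1 ≤ T k := hn31'.trans (hTn k hk1 hk.le)
      have hTkr : (0 : ℝ) < T k := by exact_mod_cast hTk1
      have hvk := h.vA_pos hTk1
      have hvd : vA 1 μ s (T k) ≤ d₁ := (hN2 _ (p4.trans (hTn k hk1 hk.le))).le
      have j1 := (J_u0_14 hDir (Set.mem_singleton s) hD1 hsym hTk1 hvd hε).1
      have j2 := J_th h.em h.nd s (ε * (δ₁ * (Y * vA 1 μ s (T k)))) (θ := 1 / (δ₁ * Y)) (by positivity)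
        ((div_le_one (by positivity)).2 hδY)
      have e1 : 1 / (δ₁ * Y) * (ε * (δ₁ * (Y * vA 1 μ s (T k)))) = ε * vA 1 μ s (T k) := by field_simp
      rw [e1] at j2
      have j3 : J μ s (ε * (δ₁ * (Y * vA 1 μ s (T k)))) ≤ J μ s (ε * (δ₁ * (D'' / T k))) := by
        refine J_ray h.em h.nd s ε (by positivity) (mul_le_mul_of_nonneg_left ?_ hδ0.le)
        rw [le_div_iff₀ hTkr]
        unfold wd at hD''
        linarith
      have j4 : δ₁ * Y * J μ s (ε * vA 1 μ s (T k)) ≤ J μ s (ε * (δ₁ * (Y * vA 1 μ s (T k)))) := by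
        calc δ₁ * Y * J μ s (ε * vA 1 μ s (T k)) ≤ δ₁ * Y * (1 / (δ₁ * Y) * J μ s (ε * (δ₁ * (Y * vA 1 μ s (T k))))) :=
              mul_le_mul_of_nonneg_left j2 (by positivity)
          _ = _ := by field_simp
      calc δ₁ * Y * EE μ s (T k) ≤ δ₁ * Y * (T k * J μ s (ε * vA 1 μ s (T k))) := mul_le_mul_of_nonneg_left j1 (by positivity)
        _ = T k * (δ₁ * Y * J μ s (ε * vA 1 μ s (T k))) := by ring
        _ ≤ _ := mul_le_mul_of_nonneg_left (j4.trans j3) hTkr.le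
    have hD0 : 0 < D := lt_of_lt_of_le (mul_pos hY0 (h.wd_pos hTi1)) hYi
    have hmain : δ₁ * Y * EE μ s (T j) ≤ T i * J μ s (ε * (δ₁ * (D / T i))) := by
      rcases le_or_gt j i with hji | hij
      · -- `j ≤ i`
        have hmonoT : ∀ k, j + k ≤ m → T j ≤ T (j + k) := by
          intro k
          induction k with
          | zero => intro _; exact le_rfl
          | succ k ih =>
            intro hk
            have := hT (j + k) (by omega) (by omega)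
            exact (ih (by omega)).trans ((Nat.le_mul_of_pos_left _ (by omega)).trans this)
        have h1 : T j ≤ T i := by
          have := hmonoT (i - j) (by omega)
          rwa [show j + (i - j) = i by omega] at this
        exact (mul_le_mul_of_nonneg_left (EE_mono h1) (by positivity)).trans (hbase i hi1 hi D hYi)
      · -- `i < j`
        have hdn : ∀ k, i + k ≤ j → 4 ^ k * D ≤ T (i + k) ∧
            T (i + k) * J μ s (ε * (δ₁ * (4 ^ k * D / T (i + k)))) ≤ T i * J μ s (ε * (δ₁ * (D / T i))) := by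
          intro k
          induction k with
          | zero =>
            intro _
            rw [pow_zero, one_mul, add_zero]
            exact ⟨hDT, le_rfl⟩
          | succ k ih =>
            intro hk
            obtain ⟨i1, i2⟩ := ih (by omega)
            have h1 := hT (i + k) (by omega) (by omega)
            have h2 : 4 * 2 ^ k₀ * T (i + k) ≤ T (i + k + 1) := (Nat.mul_le_mul_right _ hK02).trans h1
            have h3 : 4 * T (i + k) ≤ T (i + k + 1) := (Nat.mul_le_mul_right _ hK04).trans h1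
            have h3r : 4 * (T (i + k) : ℝ) ≤ T (i + k + 1) := by exact_mod_cast h3
            have h4 := J_down h.em h.nd hρ0 hk₀ hsup hε hδ0 (show δ₁ ≤ d₂ by linarith) (hn31'.trans (hTn (i + k) (by omega) (by omega))) h2
              (D := 4 ^ k * D) (by positivity) i1
            have e1 : (4 : ℝ) ^ (k + 1) * D = 4 * (4 ^ k * D) := by ring
            rw [show i + (k + 1) = i + k + 1 by ring, e1]
            exact ⟨by linarith, h4.trans i2⟩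
        obtain ⟨i1, i2⟩ := hdn (j - i) (by omega)
        rw [show i + (j - i) = j by omega] at i1 i2
        have e : ((i : ℤ) - j).natAbs = j - i := by omega
        rw [e] at hYj
        exact (hbase j hj1 hj _ hYj).trans i2
    -- the comparison of `D` and `D'`
    have hn1 : 1 ≤ n := by omega
    have hnr0 : (0 : ℝ) < n := by exact_mod_cast hn1
    have hnr : (T i : ℝ) ≤ 2 * n := by exact_mod_cast hn
    have hnTr : (n : ℝ) ≤ T i := by exact_mod_cast hnT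
    obtain ⟨x, hx⟩ : ∃ x, x = δ₁ * (D' / T i) := ⟨_, rfl⟩
    have hx0 : 0 ≤ x := by rw [hx]; positivity
    have hD'T : D' / T i ≤ 1 := (div_le_one hTir).2 (hD'D.trans hDT)
    have hxδ : x ≤ δ₁ := by
      rw [hx]
      have : δ₁ * (D' / T i) ≤ δ₁ * 1 := mul_le_mul_of_nonneg_left hD'T hδ0.le
      linarith
    have k1 : J μ s (ε * (δ₁ * (D / T i))) ≤ J μ s (2 * (2 * (ε * x))) := by
      have e1 : 2 * (2 * (ε * x)) = ε * (4 * x) := by ring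
      rw [e1]
      refine J_ray h.em h.nd s ε (by positivity) ?_
      have : D / T i ≤ 4 * D' / T i := div_le_div_of_nonneg_right hDD hTir.le
      calc δ₁ * (D / T i) ≤ δ₁ * (4 * D' / T i) := mul_le_mul_of_nonneg_left this hδ0.le
        _ = _ := by rw [hx]; ring
    have k2 := (hsym (2 * (ε * x)) (by
      rw [abs_mul, abs_mul, hεa, one_mul, abs_of_nonneg hx0, abs_two]
      linarith)).1
    have k3 := (hsym (ε * x) (by
      rw [abs_mul, hεa, one_mul, abs_of_nonneg hx0]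
      linarith)).1
    have k4 : J μ s (ε * x) ≤ J μ s (ε * (δ₁ * (D' / n))) := by
      refine J_ray h.em h.nd s ε hx0 ?_
      rw [hx]
      exact mul_le_mul_of_nonneg_left (div_le_div_of_nonneg_left hD'0 hnr0 hnTr) hδ0.le
    obtain ⟨Jv, hJv⟩ : ∃ Jv, Jv = J μ s (ε * (δ₁ * (D' / n))) := ⟨_, rfl⟩
    have hJ0 : 0 ≤ Jv := by rw [hJv]; exact J_nonneg h.em h.nd s _
    rw [← hJv] at k4 ⊢
    have k5 : J μ s (ε * (δ₁ * (D / T i))) ≤ Ds * (Ds * Jv) :=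
      k1.trans (k2.trans (mul_le_mul_of_nonneg_left (k3.trans (mul_le_mul_of_nonneg_left k4 hDs0.le)) hDs0.le))
    have k6 : δ₁ * Y * EE μ s (T j) ≤ 2 * n * (Ds * (Ds * Jv)) :=
      hmain.trans ((mul_le_mul_of_nonneg_left k5 hTir.le).trans (mul_le_mul_of_nonneg_right hnr (by positivity)))
    calc c₀ * δ₁ / (2 * Ds ^ 2) * (Y * EE μ s (T j)) = c₀ / (2 * Ds ^ 2) * (δ₁ * Y * EE μ s (T j)) := by ring
      _ ≤ c₀ / (2 * Ds ^ 2) * (2 * n * (Ds * (Ds * Jv))) := mul_le_mul_of_nonneg_left k6 (by positivity)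
      _ = c₀ * (n * Jv) := by field_simp

end

end Pool.Agent.W_7d29a1_C1.H94
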