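import Pool.Agent.W_7d29a1_F.CoreB2

/-!
Both halves (MP_7d29a1_pr), attractor route, ARMS (helper94): the chain over the scales. (helper89)

`chain89`: numeric recursion for the masses. `count89`: number of the scales near a scale with a high level. `prob89`: the sum of the
levels (functions of disjoint sets of sites at distance `≥ 2`). Pathwise form:

`u j` = distance of an arm from the centre at the scale `j`, in units of the scale. LOCAL STEEPNESS at the scale `j` with the level `ξ j`: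
`u j ≥ 2 ^ ξ j * Y` implies `u (j - 1) ≥ 2 u j` or `u (j + 1) ≥ 2 u j`. Then the number of the scales with `u j ≥ Y` is at most
`2 ∑ ξ j` + the logarithms of the distances at the two ends (`arm_count`). `xi_tail`: the sum of the levels is at most `δ m` off
probability `exp (- L m)`.
-/

set_option autoImplicit false

namespace Pool.Agent.W_7d29a1_C1.ArmC89

open Finset MeasureTheory ProbabilityTheory

noncomputable section

/-! ### Deterministic part -/

/-- Growth to the right. -/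
theorem grow {u : ℕ → ℝ} {m : ℕ} {ξ : ℕ → ℕ} {Y : ℝ} (hY : 0 < Y)
    (hs : ∀ j, 1 ≤ j → j < m → 2 ^ ξ j * Y ≤ u j → 2 * u j ≤ u (j - 1) ∨ 2 * u j ≤ u (j + 1))
    {j : ℕ} (hj : Y ≤ u j) (h1 : 2 * u j ≤ u (j + 1)) (k : ℕ) (hk : 1 ≤ k) (hkm : j + k ≤ m)
    (hx : ∀ i, 1 ≤ i → i < k → 2 ^ ξ (j + i) * Y ≤ u (j + i)) :
    2 ^ k * Y ≤ u (j + k) ∧ 2 * u (j + k - 1) ≤ u (j + k) ∧ 0 < u (j + k - 1) := by
  induction k with
  | zero => omega
  | succ k ih =>
    rcases Nat.eq_zero_or_pos k with hk0 | hk0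
    · subst hk0
      refine ⟨?_, ?_, ?_⟩
      · rw [zero_add, pow_one]
        linarith
      · simpa using h1
      · simp only [zero_add, Nat.add_sub_cancel]
        linarith
    · obtain ⟨h2, h3, h4⟩ := ih hk0 (by omega) fun i hi1 hi2 => hx i hi1 (by omega)
      have h5 := hs (j + k) (by omega) (by omega) (hx k hk0 (by omega))
      have hpos : 0 < u (j + k) := by linarith
      rcases h5 with h5 | h5
      · exfalso
        linarith
      · have e : j + (k + 1) - 1 = j + k := by omega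
        rw [e]
        refine ⟨?_, ?_, hpos⟩
        · rw [pow_succ]
          have e2 : j + (k + 1) = j + k + 1 := by omega
          rw [e2]
          linarith
        · exact h5

/-- The alternative: a scale near by with a high level, or the right end is far. -/
theorem right {u : ℕ → ℝ} {m : ℕ} {ξ : ℕ → ℕ} {Y : ℝ} (hY : 0 < Y)
    (hs : ∀ j, 1 ≤ j → j < m → 2 ^ ξ j * Y ≤ u j → 2 * u j ≤ u (j - 1) ∨ 2 * u j ≤ u (j + 1))
    {b : ℕ} (hb : u m ≤ 2 ^ b * Y) {j : ℕ} (hjm : j < m) (hj : Y ≤ u j) (h1 : 2 * u j ≤ u (j + 1)) :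
    (∃ i, j < i ∧ i < m ∧ i - j < ξ i) ∨ m - j ≤ b := by
  by_cases hall : ∀ i, 1 ≤ i → i < m - j → 2 ^ ξ (j + i) * Y ≤ u (j + i)
  · right
    have h2 := (grow hY hs hj h1 (m - j) (by omega) (by omega) hall).1
    rw [show j + (m - j) = m from by omega] at h2
    have h3 : (2 : ℝ) ^ (m - j) ≤ 2 ^ b := le_of_mul_le_mul_right (h2.trans hb) hY
    exact (pow_le_pow_iff_right₀ (by norm_num : (1 : ℝ) < 2)).1 h3
  · left
    push Not at hall
    -- the first failure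
    classical
    have hex : ∃ i, 1 ≤ i ∧ i < m - j ∧ u (j + i) < 2 ^ ξ (j + i) * Y := hall
    obtain ⟨hi1, hi2, hi3⟩ := Nat.find_spec hex
    set i := Nat.find hex with hi
    have hmin : ∀ i', 1 ≤ i' → i' < i → 2 ^ ξ (j + i') * Y ≤ u (j + i') := by
      intro i' h2 h3
      by_contra h4
      push Not at h4
      exact Nat.find_min hex h3 ⟨h2, by omega, h4⟩
    have h2 := (grow hY hs hj h1 i hi1 (by omega) hmin).1
    refine ⟨j + i, by omega, by omega, ?_⟩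
    have h3 : (2 : ℝ) ^ i * Y < 2 ^ ξ (j + i) * Y := lt_of_le_of_lt h2 hi3
    have h4 : (2 : ℝ) ^ i < 2 ^ ξ (j + i) := lt_of_mul_lt_mul_right h3 hY.le
    have h5 := (pow_lt_pow_iff_right₀ (by norm_num : (1 : ℝ) < 2)).1 h4
    omega

/-- The alternative at every far scale. -/
theorem alt {u : ℕ → ℝ} {m : ℕ} {ξ : ℕ → ℕ} {Y : ℝ} (hY : 0 < Y)
    (hs : ∀ j, 1 ≤ j → j < m → 2 ^ ξ j * Y ≤ u j → 2 * u j ≤ u (j - 1) ∨ 2 * u j ≤ u (j + 1))
    {a b : ℕ} (ha : u 0 ≤ 2 ^ a * Y) (hb : u m ≤ 2 ^ b * Y) {j : ℕ} (hj1 : 1 ≤ j) (hjm : j < m) (hj : Y ≤ u j) :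
    (∃ i, 1 ≤ i ∧ i < m ∧ i - j < ξ i ∧ j - i < ξ i) ∨ m - j ≤ b ∨ j ≤ a := by
  rcases lt_or_ge (u j) (2 ^ ξ j * Y) with h1 | h1
  · left
    refine ⟨j, hj1, hjm, ?_, ?_⟩
    all_goals
      rw [Nat.sub_self]
      by_contra h2
      have h3 : ξ j = 0 := by omega
      rw [h3, pow_zero, one_mul] at h1
      linarith
  · rcases hs j hj1 hjm h1 with h2 | h2
    · -- to the left: reflect
      let v : ℕ → ℝ := fun i => u (m - i)
      let ζ : ℕ → ℕ := fun i => ξ (m - i)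
      have hs' : ∀ i, 1 ≤ i → i < m → 2 ^ ζ i * Y ≤ v i → 2 * v i ≤ v (i - 1) ∨ 2 * v i ≤ v (i + 1) := by
        intro i hi1 hi2 hi3
        have h3 := hs (m - i) (by omega) (by omega) hi3
        have e1 : m - i - 1 = m - (i + 1) := by omega
        have e2 : m - i + 1 = m - (i - 1) := by omega
        rw [e1, e2] at h3
        exact h3.symm
      have e0 : m - (m - j) = j := by omega
      have hv : v (m - j) = u j := by
        show u (m - (m - j)) = u j
        rw [e0]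
      have hvm : v m ≤ 2 ^ a * Y := by
        show u (m - m) ≤ _
        rw [Nat.sub_self]
        exact ha
      have hv1 : 2 * v (m - j) ≤ v (m - j + 1) := by
        rw [hv]
        show _ ≤ u (m - (m - j + 1))
        rw [show m - (m - j + 1) = j - 1 from by omega]
        exact h2
      rcases right hY hs' hvm (show m - j < m by omega) (by rw [hv]; exact hj) hv1 with ⟨i, hi1, hi2, hi3⟩ | h3
      · left
        refine ⟨m - i, by omega, by omega, ?_, ?_⟩
        · have : i - (m - j) < ξ (m - i) := hi3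
          omega
        · have : i - (m - j) < ξ (m - i) := hi3
          omega
      · right
        right
        omega
    · rcases right hY hs hb hjm hj h2 with ⟨i, hi1, hi2, hi3⟩ | h3
      · left
        exact ⟨i, by omega, hi2, hi3, by omega⟩
      · right
        left
        exact h3

/-- **The number of the far scales.** -/
theorem arm_count {u : ℕ → ℝ} {m : ℕ} {ξ : ℕ → ℕ} {Y : ℝ} (hY : 0 < Y)
    (hs : ∀ j, 1 ≤ j → j < m → 2 ^ ξ j * Y ≤ u j → 2 * u j ≤ u (j - 1) ∨ 2 * u j ≤ u (j + 1))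
    {a b : ℕ} (ha : u 0 ≤ 2 ^ a * Y) (hb : u m ≤ 2 ^ b * Y) :
    ((Ico 1 m).filter fun j => Y ≤ u j).card ≤ 2 * ∑ j ∈ Ico 1 m, ξ j + a + b := by
  classical
  have hsub : (Ico 1 m).filter (fun j => Y ≤ u j) ⊆
      ((Ico 1 m).biUnion fun i => Ico (i + 1 - ξ i) (i + ξ i)) ∪ (Icc 1 a ∪ Ico (m - b) m) := by
    intro j hj
    rw [mem_filter, mem_Ico] at hj
    obtain ⟨⟨hj1, hjm⟩, hj2⟩ := hj
    rw [mem_union, mem_union, mem_biUnion, mem_Icc, mem_Ico]
    rcases alt hY hs ha hb hj1 hjm hj2 with ⟨i, hi1, hi2, hi3, hi4⟩ | h | h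
    · left
      refine ⟨i, mem_Ico.2 ⟨hi1, hi2⟩, mem_Ico.2 ⟨?_, ?_⟩⟩ <;> omega
    · right
      right
      omega
    · right
      left
      omega
  refine (card_le_card hsub).trans ?_
  refine (card_union_le _ _).trans ?_
  have h1 : ((Ico 1 m).biUnion fun i => Ico (i + 1 - ξ i) (i + ξ i)).card ≤ ∑ i ∈ Ico 1 m, 2 * ξ i := by
    refine card_biUnion_le.trans (sum_le_sum fun i _ => ?_)
    rw [Nat.card_Ico]
    omega
  have h2 : (Icc 1 a ∪ Ico (m - b) m).card ≤ a + b := by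
    refine (card_union_le _ _).trans ?_
    rw [Nat.card_Icc, Nat.card_Ico]
    omega
  rw [← mul_sum] at h1
  omega

/-! ### The sum of the levels -/

section

variable {Ω : Type*} [MeasurableSpace Ω] {P : Measure Ω} [IsProbabilityMeasure P]

/-- The exponential moment of a level with an exponential tail. -/
theorem lev_exp {ξ : Ω → ℕ} (hm : Measurable ξ) {θ A : ℝ} (hθ : 0 ≤ θ) (hA : 0 ≤ A)
    (ht : ∀ i : ℕ, 1 ≤ i → P.real {ω | i ≤ ξ ω} ≤ A * Real.exp (-((θ + 1) * i))) :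
    Integrable (fun ω => Real.exp (θ * ξ ω)) P ∧ 1 ≤ ∫ ω, Real.exp (θ * ξ ω) ∂P ∧ ∫ ω, Real.exp (θ * ξ ω) ∂P ≤ 1 + A := by
  have hmeas : Measurable fun ω => Real.exp (θ * ξ ω) :=
    Real.measurable_exp.comp ((measurable_from_nat (f := fun n : ℕ => (n : ℝ)).comp hm).const_mul θ)
  have h0 : ∀ ω, 0 ≤ Real.exp (θ * ξ ω) := fun ω => (Real.exp_pos _).le
  have hset : ∀ i : ℕ, MeasurableSet {ω | i ≤ ξ ω} := fun i => hm (measurableSet_Ici (a := i))
  have hpt : ∀ ω, ENNReal.ofReal (Real.exp (θ * ξ ω)) ≤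
      1 + ∑' i : ℕ, ENNReal.ofReal (Real.exp (θ * ((i : ℝ) + 1))) * {ω | i + 1 ≤ ξ ω}.indicator (fun _ => (1 : ENNReal)) ω := by
    intro ω
    rcases Nat.eq_zero_or_pos (ξ ω) with h1 | h1
    · rw [h1]
      simp
    · obtain ⟨n, hn⟩ : ∃ n, ξ ω = n + 1 := ⟨ξ ω - 1, by omega⟩
      refine le_trans ?_ le_add_self
      refine le_trans (le_of_eq ?_) (ENNReal.le_tsum n)
      have h2 : ω ∈ {ω | n + 1 ≤ ξ ω} := by
        show n + 1 ≤ ξ ω
        omega
      rw [Set.indicator_of_mem h2, mul_one, hn]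
      push_cast
      rfl
  have hl : ∫⁻ ω, ENNReal.ofReal (Real.exp (θ * ξ ω)) ∂P ≤ ENNReal.ofReal (1 + A) := by
    calc ∫⁻ ω, ENNReal.ofReal (Real.exp (θ * ξ ω)) ∂P ≤
        ∫⁻ ω, (1 + ∑' i : ℕ, ENNReal.ofReal (Real.exp (θ * ((i : ℝ) + 1))) *
          {ω | i + 1 ≤ ξ ω}.indicator (fun _ => (1 : ENNReal)) ω) ∂P := lintegral_mono hpt
      _ = 1 + ∑' i : ℕ, ENNReal.ofReal (Real.exp (θ * ((i : ℝ) + 1))) * P {ω | i + 1 ≤ ξ ω} := by
          rw [lintegral_add_left measurable_const, lintegral_const, measure_univ, mul_one, lintegral_tsum]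
          · congr 1
            refine tsum_congr fun i => ?_
            rw [lintegral_const_mul _ ((measurable_const).indicator (hset (i + 1))),
              lintegral_indicator_const (hset (i + 1)), one_mul]
          · intro i
            exact (((measurable_const).indicator (hset (i + 1))).const_mul _).aemeasurable
      _ ≤ 1 + ∑' i : ℕ, ENNReal.ofReal (A * (1 / 2) ^ (i + 1)) := by
          refine add_le_add le_rfl (ENNReal.tsum_le_tsum fun i => ?_)
          have h1 := ht (i + 1) (by omega)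
          have h2 : P {ω | i + 1 ≤ ξ ω} = ENNReal.ofReal (P.real {ω | i + 1 ≤ ξ ω}) := by
            rw [Measure.real, ENNReal.ofReal_toReal (measure_ne_top _ _)]
          rw [h2, ← ENNReal.ofReal_mul (Real.exp_pos _).le]
          refine ENNReal.ofReal_le_ofReal ?_
          have h3 := mul_le_mul_of_nonneg_left h1 (Real.exp_pos (θ * ((i : ℝ) + 1))).le
          refine h3.trans ?_
          have h4 : Real.exp (θ * ((i : ℝ) + 1)) * (A * Real.exp (-((θ + 1) * ((i + 1 : ℕ) : ℝ)))) =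
              A * Real.exp (-1) ^ (i + 1) := by
            rw [← Real.exp_nat_mul, mul_left_comm, ← Real.exp_add]
            congr 2
            push_cast
            ring
          rw [h4]
          refine mul_le_mul_of_nonneg_left (pow_le_pow_left₀ (Real.exp_pos _).le ?_ _) hA
          have h5 : (2 : ℝ) ≤ Real.exp 1 := by
            have := Real.add_one_le_exp (1 : ℝ)
            linarith
          rw [Real.exp_neg, one_div]
          exact inv_anti₀ (by norm_num) h5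
      _ = ENNReal.ofReal (1 + A) := by
          have h1 : Summable fun i : ℕ => A * (1 / 2 : ℝ) ^ (i + 1) := by
            have := (summable_geometric_two.mul_left (A * (1 / 2)))
            refine this.congr fun i => ?_
            rw [pow_succ]
            ring
          rw [← ENNReal.ofReal_tsum_of_nonneg (fun i => by positivity) h1, ENNReal.ofReal_add zero_le_one hA,
            ENNReal.ofReal_one]
          congr 2
          have h2 : ∑' i : ℕ, A * (1 / 2 : ℝ) ^ (i + 1) = A * (1 / 2) * ∑' i : ℕ, (1 / 2 : ℝ) ^ i := by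
            rw [← tsum_mul_left]
            refine tsum_congr fun i => ?_
            rw [pow_succ]
            ring
          rw [h2, tsum_geometric_two]
          ring
  have hint : Integrable (fun ω => Real.exp (θ * ξ ω)) P := by
    refine ⟨hmeas.aestronglyMeasurable, ?_⟩
    rw [hasFiniteIntegral_iff_ofReal (ae_of_all _ h0)]
    exact lt_of_le_of_lt hl ENNReal.ofReal_lt_top
  refine ⟨hint, ?_, ?_⟩
  · have h1 := integral_mono (μ := P) (integrable_const (1 : ℝ)) hint fun ω => by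
      show (1 : ℝ) ≤ Real.exp (θ * ξ ω)
      exact Real.one_le_exp (by positivity)
    simpa using h1
  · rw [integral_eq_lintegral_of_nonneg_ae (ae_of_all _ h0) hmeas.aestronglyMeasurable]
    have h1 := ENNReal.toReal_mono ENNReal.ofReal_ne_top hl
    rwa [ENNReal.toReal_ofReal (by linarith)] at h1

/-- One parity. -/
theorem xi_one (ξ : ℕ → Ω → ℕ) (hm : ∀ j, Measurable (ξ j)) {θ : ℝ} (hθ : 0 ≤ θ)
    (ht : ∀ j i : ℕ, 1 ≤ i → P.real {ω | i ≤ ξ j ω} ≤ Real.exp (-((θ + 1) * i))) (s : Finset ℕ)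
    (hprod : ∫ ω, ∏ j ∈ s, Real.exp (θ * ξ j ω) ∂P = ∏ j ∈ s, ∫ ω, Real.exp (θ * ξ j ω) ∂P) (x : ℝ) :
    P.real {ω | x ≤ ∑ j ∈ s, (ξ j ω : ℝ)} ≤ 2 ^ s.card * Real.exp (-(θ * x)) := by
  have h1 : ∀ j, Integrable (fun ω => Real.exp (θ * ξ j ω)) P ∧ 1 ≤ ∫ ω, Real.exp (θ * ξ j ω) ∂P ∧
      ∫ ω, Real.exp (θ * ξ j ω) ∂P ≤ 1 + 1 := fun j =>
    lev_exp (hm j) hθ zero_le_one fun i hi => by
      rw [one_mul]
      exact ht j i hi
  have h2 : (1 : ℝ) ≤ ∏ j ∈ s, ∫ ω, Real.exp (θ * ξ j ω) ∂P := by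
    have := Finset.prod_le_prod (s := s) (f := fun _ => (1 : ℝ)) (g := fun j => ∫ ω, Real.exp (θ * ξ j ω) ∂P)
      (fun _ _ => zero_le_one) fun j _ => (h1 j).2.1
    simpa using this
  have h3 : ∏ j ∈ s, ∫ ω, Real.exp (θ * ξ j ω) ∂P ≤ 2 ^ s.card := by
    have := Finset.prod_le_prod (s := s) (f := fun j => ∫ ω, Real.exp (θ * ξ j ω) ∂P) (g := fun _ => (2 : ℝ))
      (fun j _ => zero_le_one.trans (h1 j).2.1) fun j _ => (h1 j).2.2.trans (by norm_num)
    simpa using this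
  have hint : Integrable (fun ω => ∏ j ∈ s, Real.exp (θ * ξ j ω)) P := by
    by_contra h4
    rw [integral_undef h4] at hprod
    linarith
  have h4 := mul_meas_ge_le_integral_of_nonneg (μ := P) (f := fun ω => ∏ j ∈ s, Real.exp (θ * ξ j ω))
    (ae_of_all _ fun ω => prod_nonneg fun _ _ => (Real.exp_pos _).le) hint (Real.exp (θ * x))
  have hsub : {ω | x ≤ ∑ j ∈ s, (ξ j ω : ℝ)} ⊆ {ω | Real.exp (θ * x) ≤ ∏ j ∈ s, Real.exp (θ * ξ j ω)} := by
    intro ω hω
    have hω' : x ≤ ∑ j ∈ s, (ξ j ω : ℝ) := hω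
    show Real.exp (θ * x) ≤ ∏ j ∈ s, Real.exp (θ * ξ j ω)
    rw [← Real.exp_sum, ← mul_sum]
    exact Real.exp_le_exp.2 (mul_le_mul_of_nonneg_left hω' hθ)
  have h5 := measureReal_mono (μ := P) hsub (measure_ne_top _ _)
  rw [hprod] at h4
  have h6 := h4.trans h3
  have h7 : P.real {ω | x ≤ ∑ j ∈ s, (ξ j ω : ℝ)} * Real.exp (θ * x) ≤ 2 ^ s.card := by
    have := mul_le_mul_of_nonneg_left h5 (Real.exp_pos (θ * x)).le
    linarith
  rw [Real.exp_neg, ← div_eq_mul_inv, le_div_iff₀ (Real.exp_pos _)]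
  exact h7

/-- **The sum of the levels.** The two parities. -/
theorem xi_sum (ξ : ℕ → Ω → ℕ) (hm : ∀ j, Measurable (ξ j)) {θ : ℝ} (hθ : 0 ≤ θ)
    (ht : ∀ j i : ℕ, 1 ≤ i → P.real {ω | i ≤ ξ j ω} ≤ Real.exp (-((θ + 1) * i)))
    (hprod : ∀ s : Finset ℕ, (∀ i ∈ s, ∀ j ∈ s, i < j → i + 2 ≤ j) →
      ∫ ω, ∏ j ∈ s, Real.exp (θ * ξ j ω) ∂P = ∏ j ∈ s, ∫ ω, Real.exp (θ * ξ j ω) ∂P) (s : Finset ℕ) (x : ℝ) :
    P.real {ω | x ≤ ∑ j ∈ s, (ξ j ω : ℝ)} ≤ 2 * (2 ^ s.card * Real.exp (-(θ * (x / 2)))) := by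
  classical
  obtain ⟨s0, hs0⟩ : ∃ s0, s0 = s.filter fun j => j % 2 = 0 := ⟨_, rfl⟩
  obtain ⟨s1, hs1⟩ : ∃ s1, s1 = s.filter fun j => ¬ j % 2 = 0 := ⟨_, rfl⟩
  have h0 : ∀ ω, ∑ j ∈ s, (ξ j ω : ℝ) = ∑ j ∈ s0, (ξ j ω : ℝ) + ∑ j ∈ s1, (ξ j ω : ℝ) := fun ω => by
    rw [hs0, hs1, sum_filter_add_sum_filter_not]
  have hsub : {ω | x ≤ ∑ j ∈ s, (ξ j ω : ℝ)} ⊆ {ω | x / 2 ≤ ∑ j ∈ s0, (ξ j ω : ℝ)} ∪ {ω | x / 2 ≤ ∑ j ∈ s1, (ξ j ω : ℝ)} := by
    intro ω hω
    have hω' : x ≤ ∑ j ∈ s, (ξ j ω : ℝ) := hω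
    rw [h0 ω] at hω'
    by_contra h1
    rw [Set.mem_union, not_or] at h1
    obtain ⟨h2, h3⟩ := h1
    have h2' : ¬ x / 2 ≤ ∑ j ∈ s0, (ξ j ω : ℝ) := h2
    have h3' : ¬ x / 2 ≤ ∑ j ∈ s1, (ξ j ω : ℝ) := h3
    push Not at h2' h3'
    linarith
  have hc0 : s0.card ≤ s.card := by
    rw [hs0]
    exact card_le_card (filter_subset _ _)
  have hc1 : s1.card ≤ s.card := by
    rw [hs1]
    exact card_le_card (filter_subset _ _)
  have b0 := xi_one ξ hm hθ ht s0 (hprod s0 (by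
    intro i hi j hj hij
    rw [hs0, mem_filter] at hi hj
    omega)) (x / 2)
  have b1 := xi_one ξ hm hθ ht s1 (hprod s1 (by
    intro i hi j hj hij
    rw [hs1, mem_filter] at hi hj
    omega)) (x / 2)
  have hE := Real.exp_pos (-(θ * (x / 2)))
  have e0 : (2 : ℝ) ^ s0.card * Real.exp (-(θ * (x / 2))) ≤ 2 ^ s.card * Real.exp (-(θ * (x / 2))) :=
    mul_le_mul_of_nonneg_right (pow_le_pow_right₀ (by norm_num) hc0) hE.le
  have e1 : (2 : ℝ) ^ s1.card * Real.exp (-(θ * (x / 2))) ≤ 2 ^ s.card * Real.exp (-(θ * (x / 2))) :=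
    mul_le_mul_of_nonneg_right (pow_le_pow_right₀ (by norm_num) hc1) hE.le
  have h1 := (measureReal_mono (μ := P) hsub (measure_ne_top _ _)).trans (measureReal_union_le _ _)
  linarith

omit [MeasurableSpace Ω] in
/-- Numbers. -/
theorem tail_num {A a g : ℝ} (hA : 0 < A) (ha : 0 < a) (hg : 0 < g) (B : ℝ) : ∃ Y₁ : ℝ, 1 ≤ Y₁ ∧ ∀ Y : ℝ, Y₁ ≤ Y →
    ∀ i : ℕ, 1 ≤ i → A * Real.exp (-(a * (2 ^ i * Y) ^ g)) ≤ Real.exp (-(B * i)) := by
  have hl2 : 0 < Real.log 2 := Real.log_pos (by norm_num)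
  obtain ⟨Z, hZ⟩ : ∃ Z : ℝ, Z = max 1 (max (|B| / (a * (g * Real.log 2))) (|Real.log A| / a)) := ⟨_, rfl⟩
  have hZ1 : 1 ≤ Z := by rw [hZ]; exact le_max_left _ _
  have hZ2 : |B| / (a * (g * Real.log 2)) ≤ Z := by rw [hZ]; exact (le_max_left _ _).trans (le_max_right _ _)
  have hZ3 : |Real.log A| / a ≤ Z := by rw [hZ]; exact (le_max_right _ _).trans (le_max_right _ _)
  refine ⟨Z ^ (1 / g), Real.one_le_rpow hZ1 (by positivity), fun Y hY i hi => ?_⟩
  have hY0 : 0 < Y := lt_of_lt_of_le (by positivity) hY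
  have hYg : Z ≤ Y ^ g := by
    have h1 := Real.rpow_le_rpow (by positivity) hY hg.le
    rwa [← Real.rpow_mul (by linarith), one_div, inv_mul_cancel₀ hg.ne', Real.rpow_one] at h1
  have h1 : (2 ^ i * Y : ℝ) ^ g = ((2 : ℝ) ^ i) ^ g * Y ^ g := Real.mul_rpow (by positivity) hY0.le
  have h2 : 1 + (i : ℝ) * (g * Real.log 2) ≤ ((2 : ℝ) ^ i) ^ g := by
    have h3 : ((2 : ℝ) ^ i) ^ g = Real.exp ((i : ℝ) * (g * Real.log 2)) := by
      rw [← Real.rpow_natCast, ← Real.rpow_mul (by norm_num), Real.rpow_def_of_pos (by norm_num)]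
      congr 1
      ring
    rw [h3]
    linarith [Real.add_one_le_exp ((i : ℝ) * (g * Real.log 2))]
  have hi0 : (0 : ℝ) ≤ i := Nat.cast_nonneg i
  have h3 : Z * (1 + (i : ℝ) * (g * Real.log 2)) ≤ (2 ^ i * Y : ℝ) ^ g := by
    rw [h1, mul_comm]
    exact mul_le_mul h2 hYg (by linarith) (by positivity)
  have h4 : |Real.log A| ≤ a * Z := by
    rw [div_le_iff₀ ha] at hZ3
    linarith
  have h5 : |B| ≤ a * Z * (g * Real.log 2) := by
    rw [div_le_iff₀ (by positivity)] at hZ2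
    linarith
  have h6 := mul_le_mul_of_nonneg_left h3 ha.le
  have h7 := mul_le_mul_of_nonneg_right h5 hi0
  have h8 : B * i ≤ |B| * i := mul_le_mul_of_nonneg_right (le_abs_self B) hi0
  have h9 := le_abs_self (Real.log A)
  calc A * Real.exp (-(a * (2 ^ i * Y) ^ g)) = Real.exp (Real.log A - a * (2 ^ i * Y) ^ g) := by
        rw [sub_eq_add_neg, Real.exp_add, Real.exp_log hA]
    _ ≤ Real.exp (-(B * i)) := by
        refine Real.exp_le_exp.2 ?_
        have h10 : a * (Z * (1 + (i : ℝ) * (g * Real.log 2))) = a * Z + a * Z * (g * Real.log 2) * i := by ring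
        linarith

/-- The sum of the levels, numbers. -/
theorem xi_fin {L δ θ : ℝ} (hδ : 0 < δ) (hθ : θ = 2 * (|L| + 2) / δ) (ξ : ℕ → Ω → ℕ) (hm : ∀ j, Measurable (ξ j))
    (ht : ∀ j i : ℕ, 1 ≤ i → P.real {ω | i ≤ ξ j ω} ≤ Real.exp (-((θ + 1) * i)))
    (hprod : ∀ s : Finset ℕ, (∀ i ∈ s, ∀ j ∈ s, i < j → i + 2 ≤ j) →
      ∫ ω, ∏ j ∈ s, Real.exp (θ * ξ j ω) ∂P = ∏ j ∈ s, ∫ ω, Real.exp (θ * ξ j ω) ∂P)
    (s : Finset ℕ) (m : ℕ) (hsm : s.card ≤ m) : P.real {ω | δ * m ≤ ∑ j ∈ s, (ξ j ω : ℝ)} ≤ Real.exp (-(L * m)) := by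
  have hθ0 : 0 ≤ θ := by rw [hθ]; positivity
  rcases Nat.eq_zero_or_pos m with h1 | h1
  · subst h1
    rw [Nat.cast_zero, mul_zero, mul_zero, neg_zero, Real.exp_zero]
    exact measureReal_le_one
  have h2 := xi_sum ξ hm hθ0 ht hprod s (δ * m)
  refine h2.trans ?_
  have hm1 : (1 : ℝ) ≤ m := by exact_mod_cast h1
  have h3 : θ * (δ * m / 2) = (|L| + 2) * m := by
    rw [hθ]
    field_simp
  rw [h3]
  have h4 : (2 : ℝ) ^ s.card ≤ 2 ^ m := pow_le_pow_right₀ (by norm_num) hsm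
  have h5 : (2 : ℝ) ^ m ≤ Real.exp (m : ℝ) := by
    have h6 : (2 : ℝ) ≤ Real.exp 1 := by
      have := Real.add_one_le_exp (1 : ℝ)
      linarith
    calc (2 : ℝ) ^ m ≤ Real.exp 1 ^ m := pow_le_pow_left₀ (by norm_num) h6 _
      _ = Real.exp (m : ℝ) := by rw [← Real.exp_nat_mul, mul_one]
  have h6 : (2 : ℝ) ≤ Real.exp (m : ℝ) := by
    have := Real.add_one_le_exp (m : ℝ)
    linarith
  have hE := Real.exp_pos (-((|L| + 2) * m))
  calc 2 * ((2 : ℝ) ^ s.card * Real.exp (-((|L| + 2) * m)))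
      ≤ Real.exp (m : ℝ) * (Real.exp (m : ℝ) * Real.exp (-((|L| + 2) * m))) := by
        refine mul_le_mul h6 (mul_le_mul_of_nonneg_right (h4.trans h5) hE.le) (by positivity) (Real.exp_pos _).le
    _ = Real.exp (-(|L| * m)) := by
        rw [← Real.exp_add, ← Real.exp_add]
        congr 1
        ring
    _ ≤ Real.exp (-(L * m)) := by
        refine Real.exp_le_exp.2 ?_
        have := mul_le_mul_of_nonneg_right (le_abs_self L) (show (0 : ℝ) ≤ m by linarith)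
        linarith

end

/-! ### The numeric chain -/

/-- **The recursion for the masses.** -/
theorem chain89 {m : ℤ → ℕ → ℝ} {xi : ℤ → ℕ} {j : ℤ} {D : ℕ} {P Q : ℝ} (hP : 0 ≤ P) (_hQ0 : 0 ≤ Q)
    (hxi : ∀ j' : ℤ, |j' - j| < D → (xi j' : ℤ) ≤ |j' - j|)
    (hrec : ∀ (j' : ℤ) (l : ℕ), |j' - j| ≤ l → l < D → xi j' ≤ l → m j' l ≤ m (j' - 1) (l + 1) + m (j' + 1) (l + 1) + P)
    (hQ : ∀ j' : ℤ, |j' - j| ≤ D → m j' D ≤ Q) : m j 0 ≤ 2 ^ D * (P + Q) := by
  have key : ∀ k : ℕ, k ≤ D → ∀ j' : ℤ, |j' - j| ≤ ((D - k : ℕ) : ℤ) → m j' (D - k) ≤ 2 ^ k * (P + Q) - P := by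
    intro k
    induction k with
    | zero =>
      intro _ j' hj'
      rw [Nat.sub_zero] at hj' ⊢
      have := hQ j' hj'
      rw [pow_zero, one_mul]
      linarith
    | succ k ih =>
      intro hk j' hj'
      have e : D - (k + 1) + 1 = D - k := by omega
      have hl : D - (k + 1) < D := by omega
      have h1 : |j' - j| < (D : ℤ) := by omega
      have h2 : xi j' ≤ D - (k + 1) := by
        have := hxi j' h1
        omega
      have h3 := hrec j' (D - (k + 1)) hj' hl h2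
      rw [e] at h3
      have h4 := ih (by omega) (j' - 1) (by
        rw [abs_le] at hj' ⊢
        constructor <;> omega)
      have h5 := ih (by omega) (j' + 1) (by
        rw [abs_le] at hj' ⊢
        constructor <;> omega)
      rw [pow_succ]
      linarith
  have h1 := key D le_rfl j (by rw [sub_self, abs_zero]; exact Int.natCast_nonneg _)
  rw [Nat.sub_self] at h1
  linarith

/-- **The number of the scales near a scale with a high level.** -/
theorem count89 (xi : ℤ → ℕ) (lo hi : ℤ) :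
    open Classical in ((Icc lo hi).filter fun j => ∃ j' ∈ Icc lo hi, |j' - j| < (xi j' : ℤ)).card ≤
      2 * ∑ j' ∈ Icc lo hi, xi j' := by
  classical
  have hsub : (Icc lo hi).filter (fun j => ∃ j' ∈ Icc lo hi, |j' - j| < (xi j' : ℤ)) ⊆
      (Icc lo hi).biUnion fun j' => Ico (j' + 1 - xi j') (j' + xi j') := by
    intro j hj
    rw [mem_filter] at hj
    obtain ⟨j', hj', h1⟩ := hj.2
    rw [mem_biUnion]
    refine ⟨j', hj', ?_⟩
    rw [abs_lt] at h1
    rw [mem_Ico]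
    constructor <;> omega
  refine (card_le_card hsub).trans ?_
  rw [mul_sum]
  refine card_biUnion_le.trans (sum_le_sum fun i _ => ?_)
  rw [Int.card_Ico]
  omega

open Pool.Agent.W_7d29a1_F in
/-- **The sum of the levels.** -/
theorem prob89 {A a g : ℝ} (hA : 0 < A) (ha : 0 < a) (hg : 0 < g) (L : ℝ) {δ : ℝ} (hδ : 0 < δ) : ∃ Y₁ : ℝ, 1 ≤ Y₁ ∧
    ∀ Y : ℝ, Y₁ ≤ Y → ∀ (μ : Measure ℝ) [IsProbabilityMeasure μ] (m : ℕ) (xi : ℕ → Env → ℕ) (S : ℕ → Set Pt),
    (∀ j < m, Measurable (xi j)) → (∀ j < m, DependsOn (xi j) (S j)) →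
    (∀ j j', j < m → j' < m → j + 2 ≤ j' → Disjoint (S j) (S j')) →
    (∀ j < m, ∀ i : ℕ, 1 ≤ i → (law μ).real {η | i ≤ xi j η} ≤ A * Real.exp (-(a * (2 ^ i * Y) ^ g))) →
    (law μ).real {η | δ * m ≤ ∑ j ∈ range m, (xi j η : ℝ)} ≤ Real.exp (-(L * m)) := by
  classical
  obtain ⟨θ, hθ⟩ : ∃ θ : ℝ, θ = 2 * (|L| + 2) / δ := ⟨_, rfl⟩
  have hθ0 : 0 ≤ θ := by rw [hθ]; positivity
  obtain ⟨Y₁, hY1, hY⟩ := tail_num hA ha hg (θ + 1)
  refine ⟨Y₁, hY1, fun Y hYY μ _ m xi S hm hdep hdis ht => ?_⟩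
  obtain ⟨ζ, hζ⟩ : ∃ ζ : ℕ → Env → ℕ, ζ = fun j => if j < m then xi j else fun _ => 0 := ⟨_, rfl⟩
  have hζ1 : ∀ j < m, ζ j = xi j := fun j hj => by
    rw [hζ]
    exact if_pos hj
  have hζ2 : ∀ j, ¬ j < m → ζ j = fun _ => 0 := fun j hj => by
    rw [hζ]
    exact if_neg hj
  have hζm : ∀ j, Measurable (ζ j) := by
    intro j
    by_cases hj : j < m
    · rw [hζ1 j hj]
      exact hm j hj
    · rw [hζ2 j hj]
      exact measurable_const
  have hζt : ∀ j i : ℕ, 1 ≤ i → (law μ).real {η | i ≤ ζ j η} ≤ Real.exp (-((θ + 1) * i)) := by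
    intro j i hi
    by_cases hj : j < m
    · rw [hζ1 j hj]
      exact (ht j hj i hi).trans (hY Y hYY i hi)
    · rw [hζ2 j hj]
      have e : {η : Env | i ≤ 0} = ∅ := by
        ext η
        simp only [Set.mem_ofPred_eq, Set.mem_empty_iff_false, iff_false]
        omega
      rw [e, measureReal_empty]
      exact (Real.exp_pos _).le
  have hprod : ∀ s : Finset ℕ, (∀ i ∈ s, ∀ j ∈ s, i < j → i + 2 ≤ j) →
      ∫ η, ∏ j ∈ s, Real.exp (θ * ζ j η) ∂(law μ) = ∏ j ∈ s, ∫ η, Real.exp (θ * ζ j η) ∂(law μ) := by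
    intro s hs
    refine indep_prod (μ := μ) s (fun j η => Real.exp (θ * ζ j η)) (fun j => if j < m then S j else ∅) ?_ ?_ ?_
    · intro j _
      exact Real.measurable_exp.comp ((measurable_from_nat (f := fun n : ℕ => (n : ℝ)).comp (hζm j)).const_mul θ)
    · intro j _ η η' hh
      show Real.exp (θ * ζ j η) = Real.exp (θ * ζ j η')
      by_cases hj : j < m
      · simp only [if_pos hj] at hh
        rw [hζ1 j hj, hdep j hj hh]
      · rw [hζ2 j hj]
    · intro i hi j hj hij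
      by_cases hi' : i < m
      · by_cases hj' : j < m
        · rw [if_pos hi', if_pos hj']
          rcases lt_or_gt_of_ne hij with h1 | h1
          · exact hdis i j hi' hj' (hs i hi j hj h1)
          · exact (hdis j i hj' hi' (hs j hj i hi h1)).symm
        · rw [if_neg hj']
          exact Set.disjoint_empty _
      · rw [if_neg hi']
        exact Set.empty_disjoint _
  have h1 := xi_fin hδ hθ ζ hζm hζt hprod (range m) m (by rw [card_range])
  have e : {η | δ * (m : ℝ) ≤ ∑ j ∈ range m, (xi j η : ℝ)} = {η | δ * (m : ℝ) ≤ ∑ j ∈ range m, (ζ j η : ℝ)} := by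
    ext η
    simp only [Set.mem_ofPred_eq]
    have : ∑ j ∈ range m, (xi j η : ℝ) = ∑ j ∈ range m, (ζ j η : ℝ) :=
      sum_congr rfl fun j hj => by rw [hζ1 j (mem_range.1 hj)]
    rw [this]
  rw [e]
  exact h1

open Pool.Agent.W_7d29a1_F in
/-- The union. -/
theorem union89 {ι : Type*} (F : Finset ι) (μ : Measure ℝ) [IsProbabilityMeasure μ] (E : ι → Set Env) {q : ℝ}
    (h : ∀ c ∈ F, (law μ).real (E c) ≤ q) : (law μ).real {η | ∃ c ∈ F, η ∈ E c} ≤ F.card * q := by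
  have e : {η | ∃ c ∈ F, η ∈ E c} = ⋃ c ∈ F, E c := by
    ext η
    simp
  rw [e]
  refine (measureReal_biUnion_finset_le F E).trans ?_
  rw [← nsmul_eq_mul]
  exact sum_le_card_nsmul _ _ _ h

end

end Pool.Agent.W_7d29a1_C1.ArmC89
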