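import Pool.Agent.W_7d29a1_C1.ArmB94
import Pool.Agent.W_7d29a1_C1.ArmC89

/-!
MP_7d29a1_pr, C1, ARMS (helper94), part 8: THE FAT LEVEL OF A NODE: measurability, rows, tail; all real displacements and frames from the
dyadic ones.
-/

set_option autoImplicit false

namespace Pool.Agent.W_7d29a1_C1.H94

open MeasureTheory ProbabilityTheory Filter Topology
open Pool.Agent.W_7d29a1_F Pool.Agent.W_7d29a1_h4g Pool.Agent.W_7d29a1_H Pool.Agent.W_7d29a1_HS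
open Pool.Agent.W_7d29a1_h47 (EM Nondeg)

noncomputable section

variable {μ : Measure ℝ} [IsProbabilityMeasure μ] {s c₀ δ₁ c₁ A a g θ Y₁ : ℝ} {K0 Kb n₃ : ℕ}

/-- The node inequality at the level `p`, at all the places near the centre. -/
def NodOK (μ : Measure ℝ) (s c₀ δ₁ Y w q : ℝ) (R : ℕ) (η : Env) (r : ℤ) (n1 n2 : ℕ) (x : ℤ) (p : ℕ) : Prop :=
  ∀ i : ℤ, |i| ≤ (R : ℤ) ^ p → ∀ ε : ℝ, ε = 1 ∨ ε = -1 → 2 ^ p * Y * w ≤ 2 * n1 →
    NodI μ s c₀ δ₁ ε q η r n1 n2 (x + i * w) (2 ^ p * Y * w)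

/-- **The fat level of a node.** -/
def nu (μ : Measure ℝ) (s c₀ δ₁ Y w q : ℝ) (R : ℕ) (r : ℤ) (n1 n2 : ℕ) (x : ℤ) (η : Env) : ℕ :=
  sInf {l : ℕ | ∀ p, l ≤ p → NodOK μ s c₀ δ₁ Y w q R η r n1 n2 x p}

/-- Beyond the macroscopic displacements there is nothing to check. -/
theorem nod_big {Y w : ℝ} (hY : 0 < Y) (hw : 0 < w) (n1 : ℕ) : ∃ N : ℕ, ∀ p, N ≤ p → 2 * (n1 : ℝ) < 2 ^ p * Y * w := by
  obtain ⟨N, hN⟩ := pow_unbounded_of_one_lt (2 * (n1 : ℝ) / (Y * w)) (one_lt_two (α := ℝ))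
  refine ⟨N, fun p hp => ?_⟩
  have h1 : (2 : ℝ) ^ N ≤ 2 ^ p := pow_le_pow_right₀ one_le_two hp
  have h2 := hN.trans_le h1
  rw [div_lt_iff₀ (by positivity)] at h2
  linarith

omit [IsProbabilityMeasure μ] in
theorem nu_spec {Y w q : ℝ} (hY : 0 < Y) (hw : 0 < w) (R : ℕ) (r : ℤ) (n1 n2 : ℕ) (x : ℤ) (η : Env) {p : ℕ}
    (hp : nu μ s c₀ δ₁ Y w q R r n1 n2 x η ≤ p) : NodOK μ s c₀ δ₁ Y w q R η r n1 n2 x p := by
  obtain ⟨N, hN⟩ := nod_big hY hw n1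
  have hne : ({l : ℕ | ∀ p, l ≤ p → NodOK μ s c₀ δ₁ Y w q R η r n1 n2 x p}).Nonempty :=
    ⟨N, fun p hp i _ ε _ h => absurd h (not_le.2 (hN p hp))⟩
  exact Nat.sInf_mem hne p hp

omit [IsProbabilityMeasure μ] in
theorem le_nu {Y w q : ℝ} (hY : 0 < Y) (hw : 0 < w) (R : ℕ) (r : ℤ) (n1 n2 : ℕ) (x : ℤ) (η : Env) {i : ℕ} (hi : 1 ≤ i) :
    i ≤ nu μ s c₀ δ₁ Y w q R r n1 n2 x η ↔ ∃ p, i ≤ p + 1 ∧ ¬ NodOK μ s c₀ δ₁ Y w q R η r n1 n2 x p := by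
  constructor
  · intro h
    by_contra hcon
    push Not at hcon
    have h1 : nu μ s c₀ δ₁ Y w q R r n1 n2 x η ≤ i - 1 := Nat.sInf_le fun p hp => hcon p (by omega)
    omega
  · rintro ⟨p, h1, h2⟩
    by_contra hcon
    exact h2 (nu_spec hY hw R r n1 n2 x η (by omega))

theorem meas_NodOK (s c₀ δ₁ Y w q : ℝ) (R : ℕ) (r : ℤ) (n1 n2 : ℕ) (x : ℤ) (p : ℕ) :
    MeasurableSet {η : Env | NodOK μ s c₀ δ₁ Y w q R η r n1 n2 x p} := by
  have e : {η : Env | NodOK μ s c₀ δ₁ Y w q R η r n1 n2 x p} = ⋂ i : ℤ, ⋂ (_ : |i| ≤ (R : ℤ) ^ p), ⋂ (_ : 2 ^ p * Y * w ≤ 2 * (n1 : ℝ)),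
      ({η : Env | NodI μ s c₀ δ₁ 1 q η r n1 n2 (x + i * w) (2 ^ p * Y * w)} ∩
        {η : Env | NodI μ s c₀ δ₁ (-1) q η r n1 n2 (x + i * w) (2 ^ p * Y * w)}) := by
    ext η
    simp only [Set.mem_iInter, Set.mem_inter_iff, Set.mem_ofPred_eq]
    constructor
    · intro h i hi hp
      exact ⟨h i hi 1 (Or.inl rfl) hp, h i hi (-1) (Or.inr rfl) hp⟩
    · intro h i hi ε hε hp
      rcases hε with rfl | rfl
      · exact (h i hi hp).1
      · exact (h i hi hp).2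
  rw [e]
  exact MeasurableSet.iInter fun i => MeasurableSet.iInter fun _ => MeasurableSet.iInter fun _ =>
    (meas_NodI _ _ _ _ _ _ _ _ _ _).inter (meas_NodI _ _ _ _ _ _ _ _ _ _)

theorem meas_nu {Y w : ℝ} (hY : 0 < Y) (hw : 0 < w) (s c₀ δ₁ q : ℝ) (R : ℕ) (r : ℤ) (n1 n2 : ℕ) (x : ℤ) :
    Measurable (nu μ s c₀ δ₁ Y w q R r n1 n2 x) := by
  refine measurable_of_Ici fun i => ?_
  rcases Nat.eq_zero_or_pos i with h0 | h0
  · subst h0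
    have : nu μ s c₀ δ₁ Y w q R r n1 n2 x ⁻¹' Set.Ici 0 = Set.univ := by
      ext η
      simp
    rw [this]
    exact MeasurableSet.univ
  · have e : nu μ s c₀ δ₁ Y w q R r n1 n2 x ⁻¹' Set.Ici i =
        ⋃ p : ℕ, ⋃ (_ : i ≤ p + 1), {η : Env | NodOK μ s c₀ δ₁ Y w q R η r n1 n2 x p}ᶜ := by
      ext η
      simp only [Set.mem_preimage, Set.mem_Ici, Set.mem_iUnion, Set.mem_compl_iff, Set.mem_ofPred_eq, exists_prop]
      exact le_nu hY hw R r n1 n2 x η h0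
    rw [e]
    exact MeasurableSet.iUnion fun p => MeasurableSet.iUnion fun _ => (meas_NodOK _ _ _ _ _ _ _ _ _ _ _ _).compl

theorem dep_nu (s c₀ δ₁ Y w q : ℝ) (R : ℕ) (r : ℤ) (n1 n2 : ℕ) (x : ℤ) :
    DependsOn (nu μ s c₀ δ₁ Y w q R r n1 n2 x) (rows r (r + n1 + n2)) := by
  intro η η' hh
  unfold nu
  congr 1
  ext l
  simp only [Set.mem_ofPred_eq]
  have h1 : ∀ p, NodOK μ s c₀ δ₁ Y w q R η r n1 n2 x p ↔ NodOK μ s c₀ δ₁ Y w q R η' r n1 n2 x p := by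
    intro p
    unfold NodOK
    refine forall_congr' fun i => forall_congr' fun _ => forall_congr' fun ε => forall_congr' fun _ => forall_congr' fun _ => ?_
    exact iff_of_eq (dep_NodI (μ := μ) s c₀ δ₁ ε q r n1 n2 (x + i * w) (2 ^ p * Y * w) hh)
  exact forall_congr' fun p => forall_congr' fun _ => h1 p

/-- The probability of one level. -/
theorem nod_prob (hC : Cs94 μ s c₀ δ₁ c₁ A a g θ Y₁ K0 Kb n₃) {n1 n2 : ℕ} (hn1 : n₃ ≤ n1) (hn2 : 1 ≤ n2) (hnb : n2 ≤ Kb * n1)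
    {Y w q : ℝ} (hq : 1 ≤ q) (hqn : q * n1 ≤ θ * n2) (hY : 8 * Y₁ ≤ Y) (hw : wd μ s n1 ≤ 8 * w) {R : ℕ} (hR : 1 ≤ R)
    (r : ℤ) (x : ℤ) (p : ℕ) :
    (law μ).real {η | ¬ NodOK μ s c₀ δ₁ Y w q R η r n1 n2 x p} ≤ 6 * (R : ℝ) ^ p * (A * Real.exp (-(a * (2 ^ p * Y / 8) ^ g))) := by
  classical
  have hA := hC.A0
  have hY1 := hC.Y1
  have hY0 : 0 < Y := by linarith
  have hwd := hC.wd2 n1 hn1
  have hw0 : 0 < w := by linarith
  have hRr : (1 : ℝ) ≤ R := by exact_mod_cast hR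
  have hRp : (1 : ℝ) ≤ (R : ℝ) ^ p := one_le_pow₀ hRr
  by_cases hbig : 2 ^ p * Y * w ≤ 2 * n1
  · obtain ⟨P, hP⟩ : ∃ P : ℝ, P = A * Real.exp (-(a * (2 ^ p * Y / 8) ^ g)) := ⟨_, rfl⟩
    have hP0 : 0 ≤ P := by rw [hP]; positivity
    rw [← hP]
    have h1 : ∀ i : ℤ, ∀ ε : ℝ, ε = 1 ∨ ε = -1 →
        (law μ).real {η | ¬ NodI μ s c₀ δ₁ ε q η r n1 n2 (x + i * w) (2 ^ p * Y * w)} ≤ P := by
      intro i ε hε
      rw [hP]
      refine hC.prob n1 n2 hn1 hn2 hnb q (x + i * w) (2 ^ p * Y * w) (2 ^ p * Y / 8) hq hqn ?_ ?_ hbig ε hε r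
      · have : (1 : ℝ) ≤ 2 ^ p := one_le_pow₀ one_le_two
        have h2 : 1 * Y ≤ 2 ^ p * Y := mul_le_mul_of_nonneg_right this hY0.le
        linarith
      · have h2 : (0 : ℝ) ≤ 2 ^ p * Y / 8 := by positivity
        have h3 := mul_le_mul_of_nonneg_left hw h2
        linarith
    obtain ⟨F, hF⟩ : ∃ F : Finset ℤ, F = Finset.Icc (-((R : ℤ) ^ p)) ((R : ℤ) ^ p) := ⟨_, rfl⟩
    have hsub : {η | ¬ NodOK μ s c₀ δ₁ Y w q R η r n1 n2 x p} ⊆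
        ⋃ i ∈ F, ({η | ¬ NodI μ s c₀ δ₁ 1 q η r n1 n2 (x + i * w) (2 ^ p * Y * w)} ∪
          {η | ¬ NodI μ s c₀ δ₁ (-1) q η r n1 n2 (x + i * w) (2 ^ p * Y * w)}) := by
      intro η hη
      rw [Set.mem_ofPred_eq] at hη
      unfold NodOK at hη
      push Not at hη
      obtain ⟨i, hi, ε, hε, -, h2⟩ := hη
      simp only [Set.mem_iUnion, Set.mem_union, Set.mem_ofPred_eq]
      refine ⟨i, by rw [hF, Finset.mem_Icc]; exact abs_le.1 hi, ?_⟩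
      rcases hε with rfl | rfl
      · exact Or.inl h2
      · exact Or.inr h2
    refine (measureReal_mono hsub (measure_ne_top _ _)).trans ?_
    refine (measureReal_biUnion_finset_le F _).trans ?_
    have h2 : ∀ i ∈ F, (law μ).real ({η | ¬ NodI μ s c₀ δ₁ 1 q η r n1 n2 (x + i * w) (2 ^ p * Y * w)} ∪
          {η | ¬ NodI μ s c₀ δ₁ (-1) q η r n1 n2 (x + i * w) (2 ^ p * Y * w)}) ≤ 2 * P := by
      intro i _
      refine (measureReal_union_le _ _).trans ?_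
      have a1 := h1 i 1 (Or.inl rfl)
      have a2 := h1 i (-1) (Or.inr rfl)
      linarith
    refine (Finset.sum_le_card_nsmul _ _ _ h2).trans ?_
    rw [nsmul_eq_mul, hF, Int.card_Icc]
    have h3 : (((R : ℤ) ^ p + 1 - -((R : ℤ) ^ p)).toNat : ℝ) = 2 * (R : ℝ) ^ p + 1 := by
      have h4 : ((R : ℤ) ^ p + 1 - -((R : ℤ) ^ p)).toNat = 2 * R ^ p + 1 := by
        have : (R : ℤ) ^ p = ((R ^ p : ℕ) : ℤ) := by push_cast; ring
        rw [this]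
        omega
      rw [h4]
      push_cast
      ring
    rw [h3]
    have h5 : 2 * (R : ℝ) ^ p + 1 ≤ 3 * (R : ℝ) ^ p := by linarith
    calc (2 * (R : ℝ) ^ p + 1) * (2 * P) ≤ (3 * (R : ℝ) ^ p) * (2 * P) := mul_le_mul_of_nonneg_right h5 (by linarith)
      _ = _ := by ring
  · have e : {η : Env | ¬ NodOK μ s c₀ δ₁ Y w q R η r n1 n2 x p} = ∅ := by
      ext η
      simp only [Set.mem_ofPred_eq, Set.mem_empty_iff_false, iff_false, not_not]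
      intro i _ ε _ h
      exact absurd h hbig
    rw [e, measureReal_empty]
    positivity

/-- **The tail of the fat level.** -/
theorem nu_tail (hC : Cs94 μ s c₀ δ₁ c₁ A a g θ Y₁ K0 Kb n₃) {R : ℕ} (hR : 1 ≤ R) : ∃ Y₂ : ℝ, 8 * Y₁ ≤ Y₂ ∧ 8 ≤ Y₂ ∧ ∀ Y : ℝ, Y₂ ≤ Y →
    ∀ n1 n2 : ℕ, n₃ ≤ n1 → 1 ≤ n2 → n2 ≤ Kb * n1 → ∀ w q : ℝ, 1 ≤ q → q * n1 ≤ θ * n2 → wd μ s n1 ≤ 8 * w → ∀ (r x : ℤ) (i : ℕ), 1 ≤ i →
    (law μ).real {η | i ≤ nu μ s c₀ δ₁ Y w q R r n1 n2 x η} ≤ 12 * A * Real.exp (-(a / (2 * 16 ^ g) * (2 ^ i * Y) ^ g)) := by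
  have hA := hC.A0
  have ha := hC.a0
  have hg := hC.g0
  obtain ⟨b, hb⟩ : ∃ b : ℝ, b = a / 8 ^ g := ⟨_, rfl⟩
  have hb0 : 0 < b := by rw [hb]; positivity
  have hRr : (1 : ℝ) ≤ R := by exact_mod_cast hR
  obtain ⟨Y₂, hY21, hY2⟩ := ArmC89.tail_num (A := 1) (a := b / 2) (g := g) one_pos (by positivity) hg (Real.log (2 * R))
  refine ⟨max Y₂ (max (8 * Y₁) 8), (le_max_left _ _).trans (le_max_right _ _), (le_max_right _ _).trans (le_max_right _ _),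
    fun Y hY n1 n2 hn1 hn2 hnb w q hq hqn hw r x i hi => ?_⟩
  have hYa : Y₂ ≤ Y := (le_max_left _ _).trans hY
  have hYb : 8 * Y₁ ≤ Y := ((le_max_left _ _).trans (le_max_right _ _)).trans hY
  have hYc : 8 ≤ Y := ((le_max_right _ _).trans (le_max_right _ _)).trans hY
  have hY0 : 0 < Y := by linarith
  have hwd := hC.wd2 n1 hn1
  have hw0 : 0 < w := by linarith
  -- one level
  have hone : ∀ p : ℕ, (law μ).real {η | ¬ NodOK μ s c₀ δ₁ Y w q R η r n1 n2 x p} ≤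
      6 * A * ((1 / 2) ^ p * Real.exp (-(b / 2 * (2 ^ p * Y) ^ g))) := by
    intro p
    refine (nod_prob hC hn1 hn2 hnb hq hqn hYb hw hR r x p).trans ?_
    have e1 : a * (2 ^ p * Y / 8) ^ g = b / 2 * (2 ^ p * Y) ^ g + b / 2 * (2 ^ p * Y) ^ g := by
      rw [Real.div_rpow (by positivity) (by norm_num), hb]
      ring
    have e2 : (R : ℝ) ^ p * Real.exp (-(b / 2 * (2 ^ p * Y) ^ g)) ≤ (1 / 2) ^ p := by
      rcases Nat.eq_zero_or_pos p with h0 | h0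
      · subst h0
        have h1 : 0 ≤ b / 2 * (2 ^ 0 * Y) ^ g := by positivity
        have h2 : Real.exp (-(b / 2 * (2 ^ 0 * Y) ^ g)) ≤ 1 := Real.exp_le_one_iff.2 (by linarith)
        rw [pow_zero, one_mul, pow_zero ((1 : ℝ) / 2)]
        exact h2
      · have h1 := hY2 Y hYa p h0
        rw [one_mul] at h1
        have h2 : Real.exp (-(Real.log (2 * R) * p)) = 1 / (2 * (R : ℝ)) ^ p := by
          rw [Real.exp_neg, mul_comm, Real.exp_nat_mul, Real.exp_log (by positivity), one_div]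
        rw [h2] at h1
        calc (R : ℝ) ^ p * Real.exp (-(b / 2 * (2 ^ p * Y) ^ g)) ≤ (R : ℝ) ^ p * (1 / (2 * (R : ℝ)) ^ p) :=
              mul_le_mul_of_nonneg_left h1 (by positivity)
          _ = (1 / 2) ^ p := by
            rw [mul_pow, div_pow, one_pow]
            have : (R : ℝ) ^ p ≠ 0 := by positivity
            field_simp
    rw [e1, neg_add, Real.exp_add]
    have h3 := mul_le_mul_of_nonneg_right e2 (Real.exp_pos (-(b / 2 * (2 ^ p * Y) ^ g))).le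
    calc 6 * (R : ℝ) ^ p * (A * (Real.exp (-(b / 2 * (2 ^ p * Y) ^ g)) * Real.exp (-(b / 2 * (2 ^ p * Y) ^ g)))) =
          6 * A * ((R : ℝ) ^ p * Real.exp (-(b / 2 * (2 ^ p * Y) ^ g)) * Real.exp (-(b / 2 * (2 ^ p * Y) ^ g))) := by ring
      _ ≤ _ := mul_le_mul_of_nonneg_left h3 (by positivity)
  -- the union
  obtain ⟨N, hN⟩ := nod_big hY0 hw0 n1
  have hsub : {η | i ≤ nu μ s c₀ δ₁ Y w q R r n1 n2 x η} ⊆
      ⋃ p ∈ Finset.Ico (i - 1) (max N i), {η | ¬ NodOK μ s c₀ δ₁ Y w q R η r n1 n2 x p} := by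
    intro η hη
    rw [Set.mem_ofPred_eq, le_nu hY0 hw0 R r n1 n2 x η hi] at hη
    obtain ⟨p, h1, h2⟩ := hη
    simp only [Set.mem_iUnion, Set.mem_ofPred_eq]
    refine ⟨p, ?_, h2⟩
    rw [Finset.mem_Ico]
    refine ⟨by omega, ?_⟩
    by_contra hcon
    exact h2 fun i _ ε _ h => absurd h (not_le.2 (hN p ((le_max_left _ _).trans (not_lt.1 hcon))))
  refine (measureReal_mono hsub (measure_ne_top _ _)).trans ?_
  refine (measureReal_biUnion_finset_le _ _).trans ?_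
  obtain ⟨E, hE⟩ : ∃ E : ℝ, E = Real.exp (-(b / 2 * (2 ^ (i - 1) * Y) ^ g)) := ⟨_, rfl⟩
  have hE0 : 0 < E := by rw [hE]; exact Real.exp_pos _
  have h1 : ∀ p ∈ Finset.Ico (i - 1) (max N i), (law μ).real {η | ¬ NodOK μ s c₀ δ₁ Y w q R η r n1 n2 x p} ≤
      6 * A * E * (1 / 2) ^ p := by
    intro p hp
    rw [Finset.mem_Ico] at hp
    refine (hone p).trans ?_
    have h2 : Real.exp (-(b / 2 * (2 ^ p * Y) ^ g)) ≤ E := by
      rw [hE]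
      refine Real.exp_le_exp.2 (neg_le_neg (mul_le_mul_of_nonneg_left ?_ (by positivity)))
      refine Real.rpow_le_rpow (by positivity) (mul_le_mul_of_nonneg_right ?_ hY0.le) hg.le
      exact pow_le_pow_right₀ one_le_two hp.1
    calc 6 * A * ((1 / 2) ^ p * Real.exp (-(b / 2 * (2 ^ p * Y) ^ g))) ≤ 6 * A * ((1 / 2) ^ p * E) :=
          mul_le_mul_of_nonneg_left (mul_le_mul_of_nonneg_left h2 (by positivity)) (by positivity)
      _ = _ := by ring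
  refine (Finset.sum_le_sum h1).trans ?_
  rw [← Finset.mul_sum]
  have h2 : ∑ p ∈ Finset.Ico (i - 1) (max N i), (1 / 2 : ℝ) ^ p ≤ 2 := by
    have h3 : ∑ p ∈ Finset.Ico (i - 1) (max N i), (1 / 2 : ℝ) ^ p ≤ ∑' p : ℕ, (1 / 2 : ℝ) ^ p :=
      Summable.sum_le_tsum _ (fun _ _ => by positivity) summable_geometric_two
    rwa [tsum_geometric_two] at h3
  have h4 : E = Real.exp (-(a / (2 * 16 ^ g) * (2 ^ i * Y) ^ g)) := by
    rw [hE, hb]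
    congr 2
    have e3 : (2 : ℝ) ^ i * Y = 2 * (2 ^ (i - 1) * Y) := by
      obtain ⟨k, rfl⟩ : ∃ k, i = k + 1 := ⟨i - 1, by omega⟩
      rw [Nat.add_sub_cancel, pow_succ]
      ring
    have e4 : (16 : ℝ) ^ g = 8 ^ g * 2 ^ g := by
      rw [← Real.mul_rpow (by norm_num) (by norm_num)]
      norm_num
    obtain ⟨Z, hZ⟩ : ∃ Z : ℝ, Z = 2 ^ (i - 1) * Y := ⟨_, rfl⟩
    have hZ0 : 0 ≤ Z := by rw [hZ]; positivity
    rw [e3, ← hZ, Real.mul_rpow (by norm_num) hZ0, e4]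
    have h8 : (0 : ℝ) < 8 ^ g := by positivity
    have h22 : (0 : ℝ) < 2 ^ g := by positivity
    field_simp
  rw [← h4]
  calc 6 * A * E * ∑ p ∈ Finset.Ico (i - 1) (max N i), (1 / 2 : ℝ) ^ p ≤ 6 * A * E * 2 := mul_le_mul_of_nonneg_left h2 (by positivity)
    _ = _ := by ring

omit [IsProbabilityMeasure μ] in
/-- **All real displacements and frames.** -/
theorem nu_all {Y w q : ℝ} (hY : 8 ≤ Y) (hw : 0 < w) (hq : 1 ≤ q) {R : ℕ} (hR : 1 ≤ R) (r : ℤ) (n1 n2 : ℕ) (x : ℤ) (η : Env) {l : ℕ}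
    (hl : nu μ s c₀ δ₁ Y w q R r n1 n2 x η ≤ l) {X D : ℝ} (hX : |X - x| ≤ (R : ℝ) ^ l * w) (hD : 2 ^ l * (2 * Y * w) ≤ D) (hDn : D ≤ 2 * n1)
    {ε : ℝ} (hε : ε = 1 ∨ ε = -1) : ∃ X' D' : ℝ, D' + |X' - X| ≤ D ∧ D / 4 + |X' - X| ≤ 7 / 8 * D' ∧
      4 * q * D + |X' - X| ≤ 16 * q * D' ∧ D / 4 ≤ D' ∧ 2 ≤ D' / w ∧ NodI μ s c₀ δ₁ ε q η r n1 n2 X' D' := by
  have hY0 : 0 < Y := by linarith
  have hRr : (1 : ℝ) ≤ R := by exact_mod_cast hR
  -- the place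
  obtain ⟨i, hi⟩ : ∃ i : ℤ, i = ⌊(X - x) / w⌋ := ⟨_, rfl⟩
  have hXw : |(X - x) / w| ≤ (R : ℝ) ^ l := by
    rw [abs_div, abs_of_pos hw, div_le_iff₀ hw]
    exact hX
  obtain ⟨x1, x2⟩ := abs_le.1 hXw
  have hil : -((R : ℤ) ^ l) ≤ i := by
    rw [hi]
    refine Int.le_floor.2 ?_
    push_cast
    exact x1
  have hiu : i ≤ (R : ℤ) ^ l := by
    have h1 : (i : ℝ) ≤ (R : ℝ) ^ l := by
      rw [hi]
      exact (Int.floor_le _).trans x2
    exact_mod_cast h1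
  have he : |(x + i * w) - X| ≤ w := by
    have h1 := Int.floor_le ((X - x) / w)
    have h2 := Int.lt_floor_add_one ((X - x) / w)
    rw [← hi] at h1 h2
    rw [le_div_iff₀ hw] at h1
    rw [div_lt_iff₀ hw] at h2
    rw [abs_le]
    constructor <;> linarith
  -- the level
  have hYw : 0 < Y * w := by positivity
  have h2l : (1 : ℝ) ≤ 2 ^ l := one_le_pow₀ one_le_two
  have hD16 : 16 * w ≤ D := by
    have h1 : 1 * (2 * Y * w) ≤ 2 ^ l * (2 * Y * w) := mul_le_mul_of_nonneg_right h2l (by positivity)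
    have h2 : 8 * w ≤ Y * w := mul_le_mul_of_nonneg_right hY hw.le
    linarith
  have hx : (2 : ℝ) ^ l ≤ (D - w) / (Y * w) := by
    rw [le_div_iff₀ hYw]
    have h1 : w ≤ 2 ^ l * (Y * w) := by
      have h3 : 1 * (Y * w) ≤ 2 ^ l * (Y * w) := mul_le_mul_of_nonneg_right h2l hYw.le
      have h4 : 1 * w ≤ Y * w := mul_le_mul_of_nonneg_right (by linarith) hw.le
      linarith
    have h2 : 2 ^ l * (2 * Y * w) = 2 * (2 ^ l * (Y * w)) := by ring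
    linarith
  obtain ⟨p, hp1, hp2⟩ := exists_nat_pow_near (h2l.trans hx) (one_lt_two (α := ℝ))
  have hlp : l ≤ p := by
    have h1 : (2 : ℝ) ^ l < 2 ^ (p + 1) := lt_of_le_of_lt hx hp2
    have h2 := (pow_lt_pow_iff_right₀ (one_lt_two (α := ℝ))).1 h1
    omega
  rw [le_div_iff₀ hYw] at hp1
  rw [div_lt_iff₀ hYw] at hp2
  obtain ⟨D', hD'⟩ : ∃ D' : ℝ, D' = 2 ^ p * Y * w := ⟨_, rfl⟩
  have h1 : D' ≤ D - w := by rw [hD']; linarith
  have h2 : D - w < 2 * D' := by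
    rw [hD']
    have : (2 : ℝ) ^ (p + 1) * (Y * w) = 2 * (2 ^ p * Y * w) := by ring
    linarith
  have hOK := nu_spec (μ := μ) (s := s) (c₀ := c₀) (δ₁ := δ₁) (q := q) hY0 hw R r n1 n2 x η (hl.trans hlp) i (by
    have h5 : (R : ℤ) ^ l ≤ (R : ℤ) ^ p := pow_le_pow_right₀ (by exact_mod_cast hR) hlp
    rw [abs_le]
    constructor <;> linarith) ε hε (by rw [← hD']; linarith)
  rw [← hD'] at hOK
  refine ⟨x + i * w, D', by linarith, by linarith, ?_, by linarith, ?_, hOK⟩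
  · have h3 : q * (D - w) ≤ q * (2 * D') := mul_le_mul_of_nonneg_left h2.le (by linarith)
    have h4 : q * (16 * w) ≤ q * D := mul_le_mul_of_nonneg_left hD16 (by linarith)
    have h5 : 1 * w ≤ q * w := mul_le_mul_of_nonneg_right hq hw.le
    linarith
  · rw [le_div_iff₀ hw]
    linarith

end

end Pool.Agent.W_7d29a1_C1.H94
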