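import Pool.Agent.W_7d29a1_C1.ArmX6

/-!
MP_7d29a1_pr, attractor route [C1], ARMS (board 83918 (1)): THE ARMS OF A PLACE, glue for (D2) and (LR). (helper88)

Rows `r u ≤ r (u + 1) ≤ ..`, layer `v` = rows `(r v, r (v + 1)]` of scale `T v` (label), frame `κ`, `lt` = lateral
coordinate; kernels `nk`, any backward masses `Bf` with `Sys16 nk Bf N` (`bh16`: `sys_model16`; end profile:
`ArmG88.sys_prof88`).  Node `i` (`1 ≤ i < m`) = rows `r (u + (i - 1))`, `r (u + i)`, `r (u + (i + 1))`, centre `xc i`,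
unit `wd (T (u + (i - 1)))`.

* `split88` : short arms from a bound of the long ones;
* **`arm88`** : nodes + numbers + top boundary ⟹ `Bf (r u) x ≤ 2 PM16 (|lt (u + j) z - lt u x| < Z wd (T (u + (j - 1))))`;
* **`arm_dd88`** : the arms hypothesis of `dd_one89` (`j = i + 2`, window `(K - 2) wd (T (u + (i + 1))) - 1` around `ρ`);
* `cen88` : the hypothesis on the centres, for places at lateral distance `K₁ wd (T (u + n))`.
-/

set_option autoImplicit false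

namespace Pool.Agent.W_7d29a1_C1.ArmD88

open Finset Pool.Agent.W_7d29a1_F MeasureTheory
open Pool.Agent.W_7d29a1_H (sl EE)
open Pool.Agent.W_7d29a1_HS (wd)
open Pool.Agent.W_7d29a1_h4g Pool.Agent.W_7d29a1_H Pool.Agent.W_7d29a1_HS
open Pool.Agent.W_7d29a1_C1.FarW89 (nk lt lt_sub)
open Pool.Agent.W_7d29a1_C1.U16 (Sys16 PM16 PM16_mono PM16_split lat16)
open Pool.Agent.W_7d29a1_C1.H94 (nu Cs94)
open Pool.Agent.W_7d29a1_C1.ArmX6 (norm_two6)
open Pool.Agent.W_7d29a1_C1.ArmW6 (lab6)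

noncomputable section

variable {μ : Measure ℝ} {s h : ℝ} {η : Env} {p : ℕ → ℝ} {M N : ℕ} {Bf : ℕ → ℤ → ℝ}

/-- The two parts. -/
theorem split88 {K : ℕ → ℕ → ℤ → ℤ → ℝ} (S : Sys16 K Bf N) {a e : ℕ} (ha : a ≤ e) (he : e ≤ N) (x : ℤ) (l : ℤ → ℝ)
    {t : ℝ} (h1 : PM16 K Bf a e x (fun z => t ≤ |l z|) ≤ 1 / 2 * Bf a x) :
    Bf a x ≤ 2 * PM16 K Bf a e x (fun z => |l z| < t) := by
  have h2 := PM16_split S ha he x (fun z => t ≤ |l z|)
  have h3 : PM16 K Bf a e x (fun z => ¬ t ≤ |l z|) ≤ PM16 K Bf a e x (fun z => |l z| < t) :=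
    PM16_mono S he x fun z _ _ hz => not_le.1 hz
  linarith

variable [IsProbabilityMeasure μ] {c C : ℝ} {n₀ : ℕ}

/-- The rows of a tower. -/
theorem rows88 {r T : ℕ → ℕ} {u m : ℕ} (hr : ∀ i, i < m → r (u + i) ≤ r (u + (i + 1)) ∧ r (u + (i + 1)) ≤ r (u + i) + T (u + i))
    (hT : ∀ i, i + 1 < m → 4 * T (u + i) ≤ T (u + (i + 1))) : ∀ i, 1 ≤ i → i ≤ m →
      r u ≤ r (u + i) ∧ r (u + i) - r u ≤ 2 * T (u + (i - 1)) := by
  intro i
  induction i with
  | zero => intro h0; exact absurd h0 (by norm_num)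
  | succ i ih =>
    intro _ him
    have h1 := hr i (by omega)
    rcases Nat.eq_zero_or_pos i with h0 | h0
    · subst h0
      simp only [Nat.add_zero, Nat.zero_add, Nat.sub_self] at h1 ⊢
      omega
    · have h2 := ih h0 (by omega)
      have h3 := hT (i - 1) (by omega)
      have e1 : i - 1 + 1 = i := by omega
      rw [e1] at h3
      have e2 : i + 1 - 1 = i := by omega
      rw [e2]
      omega

/-- **THE ARMS OF A PLACE.** -/
theorem arm88 (h0 : In μ s c C n₀) {θ : ℝ} (hθ : 0 < θ) (K0 : ℕ) {Bn : ℕ} (hBn : 1 ≤ Bn) : ∃ K1 n₄ : ℕ, 4 ≤ K1 ∧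
    ∀ {c₀ δ₁ c₁ A aa g Y₁ : ℝ} {Kb n₃ : ℕ}, Cs94 μ s c₀ δ₁ c₁ A aa g θ Y₁ K0 Kb n₃ → ∀ Kr : ℕ, 4 * Kr * Bn ≤ Kb →
    ∀ {h : ℝ} {η : Env} {p : ℕ → ℝ} {M N : ℕ} {Bf : ℕ → ℤ → ℝ},
      Sys16 (fun a b x z => nk μ s h η p M a (b - a) x z) Bf N →
      (∀ k, k < M → p k = Real.exp (s + h)) → (∀ k, M ≤ k → p k = Real.exp s) →
    ∀ {κ : Pt} {r T : ℕ → ℕ} {u m j : ℕ}, 1 ≤ j → j < m →
      (∀ i, i < m → r (u + i) ≤ r (u + (i + 1)) ∧ r (u + (i + 1)) ≤ r (u + i) + T (u + i)) →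
      (∀ i, i < m → T (u + i) ≤ Bn * (r (u + (i + 1)) - r (u + i))) →
      (∀ i, i < m → n₄ ≤ T (u + i) ∧ Bn * n₃ ≤ T (u + i)) →
      (∀ i, i + 1 < m → K1 * T (u + i) ≤ T (u + (i + 1)) ∧ T (u + (i + 1)) ≤ Kr * T (u + i)) →
      r (u + m) ≤ N → (∀ i, 1 ≤ i → i < m → r (u + (i + 1)) ≤ M ∨ M ≤ r (u + (i - 1))) →
    ∀ {x : ℤ} {xc : ℕ → ℤ} {R : ℕ} {Y Z : ℝ} {l0 : ℕ}, 1 ≤ R → 8 ≤ Y → 8 * Y₁ ≤ Y → 2 ^ (l0 + 1) * Y ≤ Z →
      (∀ i, 1 ≤ i → i < m → nu μ s c₀ δ₁ Y (wd μ s (T (u + (i - 1)))) (wd μ s (T (u + i)) / wd μ s (T (u + (i - 1)))) R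
        (r (u + (i - 1)) : ℤ) (r (u + i) - r (u + (i - 1))) (r (u + (i + 1)) - r (u + i)) (xc i) η ≤
          ((i : ℤ) - j).natAbs + l0) →
      (∀ i, 1 ≤ i → i < m → |lt μ s κ r (u + i) (xc i) - lt μ s κ r u x| ≤
        (R : ℝ) ^ (((i : ℤ) - j).natAbs + l0) * wd μ s (T (u + (i - 1)))) →
      16 * (((r (u + m) - r u : ℕ) : ℝ) * Real.exp (-(c₁ * (Z / 8 * EE μ s (r (u + j) - r u))))) ≤ 1 →
      16 * (((r (u + m) - r u : ℕ) : ℝ) * PM16 (fun a b x z => nk μ s h η p M a (b - a) x z) Bf (r u) (r (u + m)) x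
        (fun z => 4 ^ (m - j) * (Z * wd μ s (T (u + (m - 1)))) ≤ |lt μ s κ r (u + m) z - lt μ s κ r u x|)) ≤ Bf (r u) x →
      Bf (r u) x ≤ 2 * PM16 (fun a b x z => nk μ s h η p M a (b - a) x z) Bf (r u) (r (u + j)) x
        (fun z => |lt μ s κ r (u + j) z - lt μ s κ r u x| < Z * wd μ s (T (u + (j - 1)))) := by
  obtain ⟨K1, n₄, hK1, H⟩ := lab6 h0 hθ K0 hBn
  refine ⟨K1, n₄, hK1, ?_⟩
  intro c₀ δ₁ c₁ A aa g Y₁ Kb n₃ hC Kr hKr h η p M N Bf S hp hp' κ r T u m j hj1 hjm hrr hlen hbig hKT hN hM x xc R Y Z l0 hR hY hY1 hZ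
    hnu hX hnum htop
  have hmon : ∀ i, 1 ≤ i → i ≤ m → r u ≤ r (u + i) ∧ r (u + i) - r u ≤ 2 * T (u + (i - 1)) :=
    rows88 (hr := fun i hi => hrr i hi) (hT := fun i hi => (Nat.mul_le_mul_right _ hK1).trans (hKT i hi).1)
  -- the heights and the labels
  obtain ⟨Th, hTh⟩ : ∃ Th : ℕ → ℕ, Th = fun i => r (u + i) - r u := ⟨_, rfl⟩
  have eTh : ∀ i, Th i = r (u + i) - r u := fun i => by rw [hTh]
  obtain ⟨Hl, hHl⟩ : ∃ Hl : ℕ → ℕ, Hl = fun i => T (u + (i - 1)) := ⟨_, rfl⟩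
  have eHl : ∀ i, Hl i = T (u + (i - 1)) := fun i => by rw [hHl]
  have hT0 : Th 0 = 0 := by rw [eTh, Nat.add_zero, Nat.sub_self]
  obtain ⟨g1, g2, g3, g4, g5, g6, g7⟩ := H hC Kr hKr Hl Th m hT0 (by omega)
    (fun i h1 h2 => by
      rw [eHl]
      exact hbig (i - 1) (by omega))
    (fun i h1 h2 => by
      rw [eHl, eHl]
      have := (hKT (i - 1) (by omega)).1
      rw [show i - 1 + 1 = i + 1 - 1 by omega] at this
      exact this)
    (fun i h1 h2 => by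
      rw [eHl, eHl]
      have := (hKT (i - 1) (by omega)).2
      rw [show i - 1 + 1 = i + 1 - 1 by omega] at this
      exact this)
    (fun i h1 h2 => by
      rw [eTh, eHl]
      exact (hmon i h1 h2).2)
    (fun i h1 h2 => by
      rw [eTh, eHl]
      have h3 := hlen (i - 1) (by omega)
      rw [show i - 1 + 1 = i by omega] at h3
      refine h3.trans (Nat.mul_le_mul_left _ ?_)
      rcases Nat.lt_or_ge 1 i with h4 | h4
      · have := (hmon (i - 1) (by omega) (by omega)).1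
        omega
      · have e : i - 1 = 0 := by omega
        rw [e, Nat.add_zero])
  have hru : ∀ i, i ≤ m → r u ≤ r (u + i) := fun i hi => by
    rcases Nat.eq_zero_or_pos i with h1 | h1
    · subst h1
      exact le_of_eq (by rw [Nat.add_zero])
    · exact (hmon i h1 hi).1
  have eru : ∀ i, i ≤ m → r u + Th i = r (u + i) := fun i hi => by
    rw [eTh]
    have := hru i hi
    omega
  have elt : ∀ i, i ≤ m → ∀ z : ℤ, lat16 μ s ((r u : ℤ), x) ((r (u + i) : ℤ), z) = lt μ s κ r (u + i) z - lt μ s κ r u x := by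
    intro i hi z
    rw [lt_sub κ r u (u + i) x z (hru i hi)]
    unfold lat16
    push_cast [Nat.cast_sub (hru i hi)]
    ring
  have hd1 : ∀ i, 1 ≤ i → i < m → Th i - Th (i - 1) = r (u + i) - r (u + (i - 1)) := fun i h1 h2 => by
    have a1 := eru i (by omega)
    have a2 := eru (i - 1) (by omega)
    omega
  have hd2 : ∀ i, 1 ≤ i → i < m → Th (i + 1) - Th i = r (u + (i + 1)) - r (u + i) := fun i h1 h2 => by
    have a1 := eru i (by omega)
    have a2 := eru (i + 1) (by omega)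
    omega
  have main := norm_two6 hC S hp hp' (T := Th) (m := m) (j := j) hT0 g1 g2 hj1 hjm (w := fun i => wd μ s (Hl i)) (lm := 8)
    (by norm_num) g5 (fun i h1 h2 => g6 i h1 (by omega)) g7 (fun i h1 h2 => (g4 i h1 h2).hqn) (a := r u) (x := x)
    (by rw [eru m le_rfl]; exact hN)
    (fun i h1 h2 => by
      rw [eru (i + 1) (by omega), eru (i - 1) (by omega)]
      exact hM i h1 h2)
    (xc := xc) (R := R) hR hY hY1 (l0 := l0)
    (fun i h1 h2 => by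
      have a2 := eru (i - 1) (by omega)
      have e2 : ((r u : ℤ) + Th (i - 1)) = (r (u + (i - 1)) : ℤ) := by
        rw [← a2]
        push_cast
        ring
      rw [e2, hd1 i h1 h2, hd2 i h1 h2]
      have e3 : Hl (i + 1) = T (u + i) := by rw [eHl, show i + 1 - 1 = i by omega]
      have e4 : Hl i = T (u + (i - 1)) := eHl i
      simp only [e3, e4]
      exact hnu i h1 h2)
    (fun i h1 h2 => by
      have h3 := hX i h1 h2
      have e3 := lt_sub (μ := μ) (s := s) κ r u (u + i) x (xc i) (hru i (by omega))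
      rw [e3, ← eTh i] at h3
      have e4 : (x : ℝ) + sl μ s * Th i - xc i = -(((xc i - x : ℤ) : ℝ) - sl μ s * ((Th i : ℕ) : ℝ)) := by
        push_cast
        ring
      rw [e4, abs_neg]
      have e5 : Hl i = T (u + (i - 1)) := eHl i
      simp only [e5]
      exact h3)
    (Z := Z) hZ
  simp only [eru j hjm.le, eru m le_rfl] at main
  simp only [elt j hjm.le, elt m le_rfl] at main
  have e6 : Hl j = T (u + (j - 1)) := eHl j
  have e7 : Hl m = T (u + (m - 1)) := eHl m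
  rw [e6, e7, eTh m, eTh j] at main
  refine split88 S (hru j hjm.le) (by
    have a1 := eru j hjm.le
    have a2 := eru m le_rfl
    have a3 : r (u + j) ≤ r (u + m) := by
      have : ∀ d, j + d ≤ m → r (u + j) ≤ r (u + (j + d)) := by
        intro d
        induction d with
        | zero => intro _; exact le_rfl
        | succ d ih =>
          intro hd
          exact (ih (by omega)).trans (hrr (j + d) (by omega)).1
      have h5 := this (m - j) (by omega)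
      rwa [show j + (m - j) = m by omega] at h5
    omega) x (fun z => lt μ s κ r (u + j) z - lt μ s κ r u x) (main.trans ?_)
  obtain ⟨Q, hQ⟩ : ∃ Q, Q = PM16 (fun a b x z => nk μ s h η p M a (b - a) x z) Bf (r u) (r (u + m)) x
        (fun z => 4 ^ (m - j) * (Z * wd μ s (T (u + (m - 1)))) ≤ |lt μ s κ r (u + m) z - lt μ s κ r u x|) := ⟨_, rfl⟩
  obtain ⟨E, hE⟩ : ∃ E, E = Real.exp (-(c₁ * (Z / 8 * EE μ s (r (u + j) - r u)))) := ⟨_, rfl⟩
  obtain ⟨Tm, hTm⟩ : ∃ Tm : ℝ, Tm = ((r (u + m) - r u : ℕ) : ℝ) := ⟨_, rfl⟩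
  rw [← hQ, ← hTm] at htop
  rw [← hE, ← hTm] at hnum
  rw [← hE, ← hQ, ← hTm]
  have hB : 0 < Bf (r u) x := S.b0 _ _ ((hru m le_rfl).trans hN)
  have h8 := mul_le_mul_of_nonneg_right hnum hB.le
  have e8 : 2 * Tm * (2 * E * Bf (r u) x + Q) = 4 * (Tm * E) * Bf (r u) x + 2 * (Tm * Q) := by ring
  rw [e8]
  linarith

/-- **The arms hypothesis of `dd_one89`** (`Pa := 2`, window around the line `ρ`), any base level `l0`. -/
theorem arm_dd88 (h0 : In μ s c C n₀) {θ : ℝ} (hθ : 0 < θ) (K0 : ℕ) {Bn : ℕ} (hBn : 1 ≤ Bn) : ∃ K1 n₄ : ℕ, 4 ≤ K1 ∧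
    ∀ {c₀ δ₁ c₁ A aa g Y₁ : ℝ} {Kb n₃ : ℕ}, Cs94 μ s c₀ δ₁ c₁ A aa g θ Y₁ K0 Kb n₃ → ∀ Kr : ℕ, 4 * Kr * Bn ≤ Kb →
    ∀ {h : ℝ} {η : Env} {p : ℕ → ℝ} {M N : ℕ} {Bf : ℕ → ℤ → ℝ},
      Sys16 (fun a b x z => nk μ s h η p M a (b - a) x z) Bf N →
      (∀ k, k < M → p k = Real.exp (s + h)) → (∀ k, M ≤ k → p k = Real.exp s) →
    ∀ {κ : Pt} {r T : ℕ → ℕ} {u m i : ℕ}, i + 2 < m →
      (∀ i, i < m → r (u + i) ≤ r (u + (i + 1)) ∧ r (u + (i + 1)) ≤ r (u + i) + T (u + i)) →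
      (∀ i, i < m → T (u + i) ≤ Bn * (r (u + (i + 1)) - r (u + i))) →
      (∀ i, i < m → n₄ ≤ T (u + i) ∧ Bn * n₃ ≤ T (u + i)) →
      (∀ i, i + 1 < m → K1 * T (u + i) ≤ T (u + (i + 1)) ∧ T (u + (i + 1)) ≤ Kr * T (u + i)) →
      r (u + m) ≤ N → (∀ i, 1 ≤ i → i < m → r (u + (i + 1)) ≤ M ∨ M ≤ r (u + (i - 1))) →
    ∀ {x : ℤ} {xc : ℕ → ℤ} {R : ℕ} {Y Z : ℝ} {l0 : ℕ}, 1 ≤ R → 8 ≤ Y → 8 * Y₁ ≤ Y → 2 ^ (l0 + 1) * Y ≤ Z →
      (∀ k, 1 ≤ k → k < m → nu μ s c₀ δ₁ Y (wd μ s (T (u + (k - 1)))) (wd μ s (T (u + k)) / wd μ s (T (u + (k - 1)))) R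
        (r (u + (k - 1)) : ℤ) (r (u + k) - r (u + (k - 1))) (r (u + (k + 1)) - r (u + k)) (xc k) η ≤
          ((k : ℤ) - (i + 2 : ℕ)).natAbs + l0) →
      (∀ k, 1 ≤ k → k < m → |lt μ s κ r (u + k) (xc k) - lt μ s κ r u x| ≤
        (R : ℝ) ^ (((k : ℤ) - (i + 2 : ℕ)).natAbs + l0) * wd μ s (T (u + (k - 1)))) →
      16 * (((r (u + m) - r u : ℕ) : ℝ) * Real.exp (-(c₁ * (Z / 8 * EE μ s (r (u + (i + 2)) - r u))))) ≤ 1 →
      16 * (((r (u + m) - r u : ℕ) : ℝ) * PM16 (fun a b x z => nk μ s h η p M a (b - a) x z) Bf (r u) (r (u + m)) x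
        (fun z => 4 ^ (m - (i + 2)) * (Z * wd μ s (T (u + (m - 1)))) ≤ |lt μ s κ r (u + m) z - lt μ s κ r u x|)) ≤ Bf (r u) x →
    ∀ {K K₁ ρ : ℝ}, |lt μ s κ r u x - ρ| ≤ K₁ * wd μ s (T (u + i)) → 0 ≤ K₁ → K₁ + Z + 3 ≤ K →
      Bf (r u) x ≤ 2 * PM16 (fun a b x z => nk μ s h η p M a (b - a) x z) Bf (r u) (r (u + (i + 2))) x
        (fun z => |lt μ s κ r (u + (i + 2)) z - ρ| ≤ (K - 2) * wd μ s (T (u + (i + 1))) - 1) := by
  obtain ⟨K1, n₄, hK1, H⟩ := arm88 h0 hθ K0 hBn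
  obtain ⟨K2, n₅, hK2, H2⟩ := lab6 h0 hθ K0 hBn
  refine ⟨max K1 K2, max n₄ n₅, hK1.trans (le_max_left _ _), ?_⟩
  intro c₀ δ₁ c₁ A aa g Y₁ Kb n₃ hC Kr hKr h η p M N Bf S hp hp' κ r T u m i him hrr hlen hbig hKT hN hM x xc R Y Z l0 hR hY hY1 hZ
    hnu hX hnum htop K K₁ ρ hx hK₁ hK
  have key := H hC Kr hKr S hp hp' (κ := κ) (r := r) (T := T) (u := u) (m := m) (j := i + 2) (by omega) him hrr hlen
    (fun k hk => ⟨(le_max_left _ _).trans (hbig k hk).1, (hbig k hk).2⟩)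
    (fun k hk => ⟨(Nat.mul_le_mul_right _ (le_max_left _ _)).trans (hKT k hk).1, (hKT k hk).2⟩) hN hM hR hY hY1 hZ hnu hX hnum htop
  -- the widths
  obtain ⟨-, -, -, -, w1, -, w16⟩ := H2 hC Kr hKr (fun k => T (u + (k - 1))) (fun k => r (u + k) - r u) m
    (by rw [Nat.add_zero, Nat.sub_self]) (by omega)
    (fun k h1 h2 => ⟨(le_max_right _ _).trans (hbig (k - 1) (by omega)).1, (hbig (k - 1) (by omega)).2⟩)
    (fun k h1 h2 => by
      have := (Nat.mul_le_mul_right _ (le_max_right _ _)).trans (hKT (k - 1) (by omega)).1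
      rw [show k - 1 + 1 = k by omega] at this
      show K2 * T (u + (k - 1)) ≤ T (u + (k + 1 - 1))
      rw [show k + 1 - 1 = k by omega]
      exact this)
    (fun k h1 h2 => by
      have := (hKT (k - 1) (by omega)).2
      rw [show k - 1 + 1 = k by omega] at this
      show T (u + (k + 1 - 1)) ≤ Kr * T (u + (k - 1))
      rw [show k + 1 - 1 = k by omega]
      exact this)
    (fun k h1 h2 => (rows88 (hr := fun i hi => hrr i hi)
      (hT := fun i hi => (Nat.mul_le_mul_right _ (hK1.trans (le_max_left _ _))).trans (hKT i hi).1) k h1 h2).2)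
    (fun k h1 h2 => by
      have h3 := hlen (k - 1) (by omega)
      rw [show k - 1 + 1 = k by omega] at h3
      refine h3.trans (Nat.mul_le_mul_left _ ?_)
      rcases Nat.lt_or_ge 1 k with h4 | h4
      · have := (rows88 (hr := fun i hi => hrr i hi)
          (hT := fun i hi => (Nat.mul_le_mul_right _ (hK1.trans (le_max_left _ _))).trans (hKT i hi).1) (k - 1) (by omega)
          (by omega)).1
        omega
      · have e : k - 1 = 0 := by omega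
        rw [e, Nat.add_zero])
  have a1 := w1 (i + 1) (by omega) (by omega)
  have a2 := w16 (i + 1) (by omega) (by omega)
  have e1 : i + 1 - 1 = i := by omega
  have e2 : i + 1 + 1 - 1 = i + 1 := by omega
  simp only [e1, e2] at a1 a2
  have e3 : i + 2 - 1 = i + 1 := by omega
  rw [e3] at key
  refine key.trans (mul_le_mul_of_nonneg_left ?_ (by norm_num))
  refine PM16_mono S ?_ x fun z _ _ hz => ?_
  · refine le_trans ?_ hN
    have : ∀ d, i + 2 + d ≤ m → r (u + (i + 2)) ≤ r (u + (i + 2 + d)) := by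
      intro d
      induction d with
      | zero => intro _; exact le_rfl
      | succ d ih =>
        intro hd
        exact (ih (by omega)).trans (hrr (i + 2 + d) (by omega)).1
    have h5 := this (m - (i + 2)) (by omega)
    rwa [show i + 2 + (m - (i + 2)) = m by omega] at h5
  · have t1 : |lt μ s κ r (u + (i + 2)) z - ρ| ≤ |lt μ s κ r (u + (i + 2)) z - lt μ s κ r u x| + |lt μ s κ r u x - ρ| := by
      have := abs_add_le (lt μ s κ r (u + (i + 2)) z - lt μ s κ r u x) (lt μ s κ r u x - ρ)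
      rwa [sub_add_sub_cancel] at this
    have t2 : K₁ * wd μ s (T (u + i)) ≤ K₁ * wd μ s (T (u + (i + 1))) := mul_le_mul_of_nonneg_left (by linarith) hK₁
    nlinarith

omit [IsProbabilityMeasure μ] in
/-- **The hypothesis on the centres**: the centres within `C₀` units of the line `ρ`, the place within `K₁ wd (T (u + n))` of it. -/
theorem cen88 {κ : Pt} {r T : ℕ → ℕ} {u m n k e : ℕ} {x y : ℤ} {ρ C₀ K₁ : ℝ} {R : ℕ} (hk1 : 1 ≤ k) (hkm : k < m) (hnm : n < m)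
    (hw0 : ∀ v, v < m → 0 ≤ wd μ s (T (u + v))) (hwm : ∀ v, v + 1 < m → wd μ s (T (u + v)) ≤ wd μ s (T (u + (v + 1))))
    (hw : ∀ v, v + 1 < m → wd μ s (T (u + (v + 1))) ≤ R * wd μ s (T (u + v)))
    (hC₀ : 0 ≤ C₀) (hK₁ : 0 ≤ K₁) (hR1 : 1 ≤ R) (hR : C₀ + K₁ ≤ R) (he : (n + 1 - k) + 1 ≤ e)
    (hy : |lt μ s κ r (u + k) y - ρ| ≤ C₀ * wd μ s (T (u + (k - 1)))) (hx : |lt μ s κ r u x - ρ| ≤ K₁ * wd μ s (T (u + n))) :
    |lt μ s κ r (u + k) y - lt μ s κ r u x| ≤ (R : ℝ) ^ e * wd μ s (T (u + (k - 1))) := by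
  have hR1' : (1 : ℝ) ≤ R := by exact_mod_cast hR1
  -- the width of the scale n against the width of the scale k - 1
  have h1 : ∀ d, k - 1 + d < m → wd μ s (T (u + (k - 1 + d))) ≤ (R : ℝ) ^ d * wd μ s (T (u + (k - 1))) := by
    intro d
    induction d with
    | zero => intro _; rw [pow_zero, one_mul, Nat.add_zero]
    | succ d ih =>
      intro hd
      have h2 := ih (by omega)
      have h3 := hw (k - 1 + d) (by omega)
      calc wd μ s (T (u + (k - 1 + (d + 1)))) ≤ R * wd μ s (T (u + (k - 1 + d))) := h3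
        _ ≤ R * ((R : ℝ) ^ d * wd μ s (T (u + (k - 1)))) := mul_le_mul_of_nonneg_left h2 (by linarith)
        _ = _ := by rw [pow_succ]; ring
  have h1' : ∀ d v, v + d < m → wd μ s (T (u + v)) ≤ wd μ s (T (u + (v + d))) := by
    intro d
    induction d with
    | zero => intro v _; exact le_rfl
    | succ d ih =>
      intro v hd
      exact (ih v (by omega)).trans (hwm (v + d) (by omega))
  have h0 := hw0 (k - 1) (by omega)
  have h4 : wd μ s (T (u + n)) ≤ (R : ℝ) ^ (n + 1 - k) * wd μ s (T (u + (k - 1))) := by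
    rcases Nat.lt_or_ge n (k - 1) with h5 | h5
    · have h6 := h1' (k - 1 - n) n (by omega)
      rw [show n + (k - 1 - n) = k - 1 by omega] at h6
      rw [show n + 1 - k = 0 by omega, pow_zero, one_mul]
      exact h6
    · have h6 := h1 (n + 1 - k) (by omega)
      rw [show k - 1 + (n + 1 - k) = n by omega] at h6
      exact h6
  have hp1 : (1 : ℝ) ≤ (R : ℝ) ^ (n + 1 - k) := one_le_pow₀ hR1'
  have t1 : |lt μ s κ r (u + k) y - lt μ s κ r u x| ≤ |lt μ s κ r (u + k) y - ρ| + |lt μ s κ r u x - ρ| := by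
    have := abs_sub (lt μ s κ r (u + k) y - ρ) (lt μ s κ r u x - ρ)
    rwa [sub_sub_sub_cancel_right] at this
  have t2 : K₁ * wd μ s (T (u + n)) ≤ K₁ * ((R : ℝ) ^ (n + 1 - k) * wd μ s (T (u + (k - 1)))) := mul_le_mul_of_nonneg_left h4 hK₁
  have t3 : C₀ * wd μ s (T (u + (k - 1))) ≤ C₀ * ((R : ℝ) ^ (n + 1 - k) * wd μ s (T (u + (k - 1)))) :=
    mul_le_mul_of_nonneg_left (le_mul_of_one_le_left h0 hp1) hC₀
  have t4 : (C₀ + K₁) * ((R : ℝ) ^ (n + 1 - k) * wd μ s (T (u + (k - 1)))) ≤ R * ((R : ℝ) ^ (n + 1 - k) * wd μ s (T (u + (k - 1)))) :=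
    mul_le_mul_of_nonneg_right hR (by positivity)
  have t5 : (R : ℝ) ^ ((n + 1 - k) + 1) ≤ (R : ℝ) ^ e := pow_le_pow_right₀ hR1' he
  have t6 := mul_le_mul_of_nonneg_right t5 h0
  have t7 : (R : ℝ) * ((R : ℝ) ^ (n + 1 - k) * wd μ s (T (u + (k - 1)))) = (R : ℝ) ^ ((n + 1 - k) + 1) * wd μ s (T (u + (k - 1))) := by
    rw [pow_succ]
    ring
  linarith

end

end Pool.Agent.W_7d29a1_C1.ArmD88
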