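import Pool.Agent.W_7d29a1_C1.ArmC89

/-!
Both halves (MP_7d29a1_pr), attractor route, ARMS: THE CHAIN WITH THE THRESHOLDS (numbers only). (helper89, statement of helper94)

`M i D` = the mass beyond `D` at the scale `i`. The annulus inequality at the scales `1 ≤ i < m`, above the level `2 ^ xi i`, gives
`M j (Y w j) ≤ 2 ^ Dep (P + Q)`.
-/

set_option autoImplicit false

namespace Pool.Agent.W_7d29a1_C1.ArmC89

theorem norm89 {M : ℕ → ℝ → ℝ} {w T : ℕ → ℝ} {m j Dep : ℕ} {xi : ℕ → ℕ} {Y P Q : ℝ} (hP : 0 ≤ P) (h0 : ∀ i D, 0 ≤ M i D)
    (hanti : ∀ i, Antitone (M i)) (hz : ∀ i ≤ m, ∀ D, T i < D → M i D = 0) (hw0 : 0 < w 0) (hw : ∀ i < m, 16 * w i ≤ w (i + 1))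
    (hY : 0 < Y) (hb : T 0 < Y * w 0) (hj : j < m) (hxi : ∀ i, 1 ≤ i → i < m → (xi i : ℤ) ≤ |(i : ℤ) - j|)
    (hrec : ∀ i, 1 ≤ i → i < m → ∀ D, 2 ^ xi i * (Y * w i) ≤ D → Y * w i ≤ D → Y * w j ≤ 4 ^ (|(i : ℤ) - j|).toNat * D → D ≤ T i →
      M i D ≤ M (i - 1) (D / 4) + M (i + 1) (4 * (w (i + 1) / w i) * D) + P)
    (hDep : ∀ i < m, T i < 4 ^ Dep * (Y * w i)) (hQ : M m (4 ^ (m - j) * (Y * w m)) ≤ Q) : M j (Y * w j) ≤ 2 ^ Dep * (P + Q) := by
  have hQ0 : 0 ≤ Q := (h0 _ _).trans hQ
  have hwp : ∀ i, i ≤ m → 0 < w i := by
    intro i
    induction i with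
    | zero => exact fun _ => hw0
    | succ i ih =>
      intro hi
      have h1 := ih (by omega)
      have h2 := hw i (by omega)
      linarith
  have hwm : ∀ d i, i + d ≤ m → w i ≤ w (i + d) := by
    intro d
    induction d with
    | zero => exact fun i _ => le_rfl
    | succ d ih =>
      intro i hi
      have h1 := ih i (by omega)
      have h2 := hw (i + d) (by omega)
      have h3 := hwp (i + d) (by omega)
      rw [← add_assoc]
      linarith
  have hwj := hwp j hj.le
  -- the thresholds and the masses
  obtain ⟨thr, hthr⟩ : ∃ thr : ℤ → ℕ → ℝ, thr = fun (i : ℤ) l => max (4 ^ l * (Y * w i.toNat)) (Y * w j / 4 ^ (i - (j : ℤ)).natAbs) := ⟨_, rfl⟩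
  obtain ⟨mm, hmm⟩ : ∃ mm : ℤ → ℕ → ℝ, mm = fun (i : ℤ) l => if i < 0 then 0 else if (m : ℤ) ≤ i then Q else M i.toNat (thr i l) := ⟨_, rfl⟩
  have e1 : ∀ (i : ℤ) (l : ℕ), i < 0 → mm i l = 0 := fun i l hi => by rw [hmm]; exact if_pos hi
  have e2 : ∀ (i : ℤ) (l : ℕ), (m : ℤ) ≤ i → mm i l = Q := fun i l hi => by
    rw [hmm]
    dsimp only
    rw [if_neg (by omega), if_pos hi]
  have e3 : ∀ (i : ℤ) (l : ℕ), 0 ≤ i → i < m → mm i l = M i.toNat (thr i l) := fun i l hi hi' => by
    rw [hmm]
    dsimp only
    rw [if_neg (by omega), if_neg (by omega)]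
  have hmm0 : ∀ i l, 0 ≤ mm i l := by
    intro i l
    rcases lt_or_ge i 0 with h1 | h1
    · rw [e1 i l h1]
    · rcases lt_or_ge i (m : ℤ) with h2 | h2
      · rw [e3 i l h1 h2]
        exact h0 _ _
      · rw [e2 i l h2]
        exact hQ0
  obtain ⟨ze, hze⟩ : ∃ ze : ℤ → ℕ, ze = fun (i : ℤ) => if 1 ≤ i ∧ i < (m : ℤ) then xi i.toNat else 0 := ⟨_, rfl⟩
  have hfin : mm j 0 ≤ 2 ^ Dep * (P + Q) := by
    refine chain89 (xi := ze) hP hQ0 ?_ ?_ ?_
    · -- the levels
      intro i _
      rw [hze]
      dsimp only
      split_ifs with h1
      · have h2 := hxi i.toNat (by omega) (by omega)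
        rw [Int.toNat_of_nonneg (by omega)] at h2
        exact h2
      · simp
    · -- the recursion
      intro i l hil _ hzl
      have hm1 := hmm0 (i - 1) (l + 1)
      have hp1 := hmm0 (i + 1) (l + 1)
      rcases lt_or_ge i 0 with h1 | h1
      · rw [e1 i l h1]
        linarith
      · rcases lt_or_ge i (m : ℤ) with h2 | h2
        · obtain ⟨k, rfl⟩ : ∃ k : ℕ, i = k := ⟨i.toNat, by omega⟩
          have hkm : k < m := by omega
          rw [e3 k l h1 h2, Int.toNat_natCast]
          obtain ⟨D, hD⟩ : ∃ D : ℝ, D = thr k l := ⟨_, rfl⟩
          have hwk := hwp k hkm.le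
          have hYk : 0 < Y * w k := mul_pos hY hwk
          have hYj : 0 < Y * w j := mul_pos hY hwj
          have hD1 : 4 ^ l * (Y * w k) ≤ D := by
            rw [hD, hthr]
            dsimp only
            rw [Int.toNat_natCast]
            exact le_max_left _ _
          have hD2 : Y * w j / 4 ^ ((k : ℤ) - j).natAbs ≤ D := by
            rw [hD, hthr]
            exact le_max_right _ _
          have h4l : (1 : ℝ) ≤ 4 ^ l := one_le_pow₀ (by norm_num)
          have hD3 : Y * w k ≤ D := by nlinarith
          rw [← hD]
          rcases lt_or_ge (T k) D with h3 | h3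
          · rw [hz k hkm.le D h3]
            linarith
          · rcases Nat.eq_zero_or_pos k with h4 | h4
            · subst h4
              exfalso
              linarith
            · have h5 : xi k ≤ l := by
                rw [hze] at hzl
                dsimp only at hzl
                rw [if_pos ⟨by omega, h2⟩, Int.toNat_natCast] at hzl
                exact hzl
              have h6 : 2 ^ xi k * (Y * w k) ≤ D := by
                refine le_trans (mul_le_mul_of_nonneg_right ?_ hYk.le) hD1
                calc (2 : ℝ) ^ xi k ≤ 2 ^ l := pow_le_pow_right₀ (by norm_num) h5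
                  _ ≤ 4 ^ l := pow_le_pow_left₀ (by norm_num) (by norm_num) l
              have hna : (|(k : ℤ) - j|).toNat = ((k : ℤ) - j).natAbs := by
                rw [Int.abs_eq_natAbs, Int.toNat_natCast]
              have h7 : Y * w j ≤ 4 ^ (|(k : ℤ) - j|).toNat * D := by
                rw [hna]
                rw [div_le_iff₀ (by positivity)] at hD2
                linarith
              have h8 := hrec k h4 hkm D h6 hD3 h7 h3
              have hil' : ((k : ℤ) - j).natAbs ≤ l := by
                rw [Int.abs_eq_natAbs] at hil
                exact_mod_cast hil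
              -- the term below
              have h9 : M (k - 1) (D / 4) ≤ mm ((k : ℤ) - 1) (l + 1) := by
                rw [e3 _ _ (by omega) (by omega), show ((k : ℤ) - 1).toNat = k - 1 from by omega]
                refine hanti _ ?_
                rw [hthr]
                dsimp only
                rw [show ((k : ℤ) - 1).toNat = k - 1 from by omega]
                refine max_le ?_ ?_
                · have h10 := hw (k - 1) (by omega)
                  rw [show k - 1 + 1 = k from by omega] at h10
                  have h11 : 4 ^ (l + 1) * (Y * w (k - 1)) = 4 * (4 ^ l * Y) * w (k - 1) := by rw [pow_succ]; ring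
                  have h12 : 0 < 4 ^ l * Y := by positivity
                  have h13 : 4 * (4 ^ l * Y) * w (k - 1) ≤ 4 * (4 ^ l * Y) * (w k / 16) :=
                    mul_le_mul_of_nonneg_left (by linarith) (by positivity)
                  rw [h11]
                  have h14 : 4 * (4 ^ l * Y) * (w k / 16) = 4 ^ l * (Y * w k) / 4 := by ring
                  rw [h14] at h13
                  linarith
                · rcases le_or_gt k j with h10 | h10
                  · have h11 : ((k : ℤ) - 1 - j).natAbs = ((k : ℤ) - j).natAbs + 1 := by omega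
                    rw [h11, pow_succ, ← div_div]
                    linarith
                  · have h11 : w j ≤ w k := by
                      have := hwm (k - j) j (by omega)
                      rwa [show j + (k - j) = k from by omega] at this
                    have h12 : Y * w j / 4 ^ ((k : ℤ) - 1 - j).natAbs ≤ Y * w j :=
                      div_le_self hYj.le (one_le_pow₀ (by norm_num))
                    have h13 : 4 * (Y * w k) ≤ 4 ^ l * (Y * w k) := by
                      refine mul_le_mul_of_nonneg_right ?_ hYk.le
                      calc (4 : ℝ) = 4 ^ 1 := by norm_num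
                        _ ≤ 4 ^ l := pow_le_pow_right₀ (by norm_num) (by omega)
                    have h14 := mul_le_mul_of_nonneg_left h11 hY.le
                    linarith
              -- the term above
              have hwk1 := hwp (k + 1) (by omega)
              have h16 := hw k hkm
              have h10 : M (k + 1) (4 * (w (k + 1) / w k) * D) ≤ mm ((k : ℤ) + 1) (l + 1) := by
                have hr16 : 16 ≤ w (k + 1) / w k := by
                  rw [le_div_iff₀ hwk]
                  exact h16
                have hup : 4 ^ (l + 1) * (Y * w (k + 1)) ≤ 4 * (w (k + 1) / w k) * D := by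
                  have h11 : 4 ^ (l + 1) * (Y * w (k + 1)) = 4 * (w (k + 1) / w k) * (4 ^ l * (Y * w k)) := by
                    rw [pow_succ]
                    field_simp
                  rw [h11]
                  exact mul_le_mul_of_nonneg_left hD1 (by positivity)
                rcases lt_or_ge (k + 1) m with h11 | h11
                · rw [e3 _ _ (by omega) (by omega), show ((k : ℤ) + 1).toNat = k + 1 from by omega]
                  refine hanti _ ?_
                  rw [hthr]
                  dsimp only
                  rw [show ((k : ℤ) + 1).toNat = k + 1 from by omega]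
                  refine max_le hup ?_
                  have hDp : 0 < D := lt_of_lt_of_le hYk hD3
                  have h12 : Y * w j / 4 ^ ((k : ℤ) + 1 - j).natAbs ≤ 4 * (Y * w j / 4 ^ ((k : ℤ) - j).natAbs) := by
                    rw [← mul_div_assoc, div_le_div_iff₀ (by positivity) (by positivity)]
                    have h13 : (4 : ℝ) ^ ((k : ℤ) - j).natAbs ≤ 4 * 4 ^ ((k : ℤ) + 1 - j).natAbs := by
                      rw [← pow_succ']
                      exact pow_le_pow_right₀ (by norm_num) (by omega)
                    calc Y * w j * 4 ^ ((k : ℤ) - j).natAbs ≤ Y * w j * (4 * 4 ^ ((k : ℤ) + 1 - j).natAbs) :=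
                          mul_le_mul_of_nonneg_left h13 hYj.le
                      _ = _ := by ring
                  have h13 : 4 * D ≤ 4 * (w (k + 1) / w k) * D := by
                    refine mul_le_mul_of_nonneg_right ?_ hDp.le
                    linarith
                  linarith
                · rw [e2 _ _ (by omega)]
                  have hkm' : k + 1 = m := by omega
                  have h12 : 4 ^ (m - j) * (Y * w m) ≤ 4 * (w (k + 1) / w k) * D := by
                    rw [← hkm']
                    refine le_trans ?_ hup
                    exact mul_le_mul_of_nonneg_right (pow_le_pow_right₀ (by norm_num) (by omega)) (by positivity)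
                  rw [← hkm'] at h12 hQ
                  exact (hanti (k + 1) h12).trans hQ
              linarith
        · rw [e2 i l h2, e2 (i + 1) (l + 1) (by omega)]
          linarith
    · -- the end
      intro i _
      rcases lt_or_ge i 0 with h1 | h1
      · rw [e1 i Dep h1]
        exact hQ0
      · rcases lt_or_ge i (m : ℤ) with h2 | h2
        · rw [e3 i Dep h1 h2]
          have h3 := hDep i.toNat (by omega)
          rw [hz i.toNat (by omega) _ (lt_of_lt_of_le h3 (by rw [hthr]; exact le_max_left _ _))]
          exact hQ0
        · rw [e2 i Dep h2]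
  rw [e3 j 0 (by omega) (by exact_mod_cast hj), Int.toNat_natCast] at hfin
  have e4 : thr j 0 = Y * w j := by
    rw [hthr]
    dsimp only
    rw [Int.toNat_natCast, sub_self, Int.natAbs_zero, pow_zero, one_mul, div_one, max_self]
  rwa [e4] at hfin

end Pool.Agent.W_7d29a1_C1.ArmC89
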