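import Pool.Agent.W_7d29a1_C1.ArmC94
import Pool.Agent.W_7d29a1_C1.ArmR89

/-!
MP_7d29a1_pr, C1, ARMS (helper94), part 9: THE NORMAL SCALES, for abstract masses. Heights `T 0 = 0 < T 1 < .. < T m` above the start row
`r0`, frame line `x0 + sl t`, nodes `(T (i - 1), T i, T (i + 1))` with integer centres `xc i`.
-/

set_option autoImplicit false

namespace Pool.Agent.W_7d29a1_C1.H94

open MeasureTheory ProbabilityTheory Filter Topology
open Pool.Agent.W_7d29a1_F Pool.Agent.W_7d29a1_h4g Pool.Agent.W_7d29a1_H Pool.Agent.W_7d29a1_HS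
open Pool.Agent.W_7d29a1_h47 (EM Nondeg)

noncomputable section

variable {μ : Measure ℝ} [IsProbabilityMeasure μ] {s c₀ δ₁ c₁ A a g θ Y₁ : ℝ} {K0 Kb n₃ : ℕ}

/-- The units of the chain. -/
def wT (μ : Measure ℝ) (s : ℝ) (T : ℕ → ℕ) (i : ℕ) : ℝ := if i = 0 then wd μ s (T 1) / 16 else wd μ s (T i)

/-- The depth of the recursion. -/
theorem dep94 {N : ℕ} (hN : 1 ≤ N) : ∃ D : ℕ, (N : ℝ) < 4 ^ D ∧ (2 : ℝ) ^ D ≤ 2 * N := by
  obtain ⟨D, h1, h2⟩ := exists_nat_pow_near (x := (N : ℝ)) (y := 4) (by exact_mod_cast hN) (by norm_num)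
  refine ⟨D + 1, h2, ?_⟩
  have h3 : (2 : ℝ) ^ D ≤ 4 ^ D := pow_le_pow_left₀ (by norm_num) (by norm_num) D
  rw [pow_succ]
  linarith

/-- The heights. -/
theorem T_facts (hC : Cs94 μ s c₀ δ₁ c₁ A a g θ Y₁ K0 Kb n₃) {T : ℕ → ℕ} {m : ℕ} (hT0 : T 0 = 0) (hT1 : n₃ ≤ T 1)
    (hTK : ∀ i, 1 ≤ i → i < m → K0 * T i ≤ T (i + 1)) :
    (∀ i, 1 ≤ i → i ≤ m → n₃ ≤ T i) ∧ (∀ i, i < m → 4 * T i ≤ T (i + 1)) ∧ (∀ i, i ≤ m → T i ≤ T m) := by
  have hK := hC.K4
  have h1 : ∀ i, 1 ≤ i → i ≤ m → n₃ ≤ T i := by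
    intro i hi
    induction i, hi using Nat.le_induction with
    | base => intro _; exact hT1
    | succ i hi ih =>
      intro hi'
      have := hTK i hi (by omega)
      exact (ih (by omega)).trans ((Nat.le_mul_of_pos_left _ (by omega)).trans this)
  have h2 : ∀ i, i < m → 4 * T i ≤ T (i + 1) := by
    intro i hi
    rcases Nat.eq_zero_or_pos i with h0 | h0
    · subst h0
      rw [hT0]
      exact Nat.zero_le _
    · exact (Nat.mul_le_mul_right _ hK).trans (hTK i h0 hi)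
  refine ⟨h1, h2, fun i hi => ?_⟩
  obtain ⟨k, hk⟩ : ∃ k, m = i + k := ⟨m - i, by omega⟩
  have h3 : ∀ k, i + k ≤ m → T i ≤ T (i + k) := by
    intro k
    induction k with
    | zero => intro _; exact le_rfl
    | succ k ih =>
      intro hk
      have := h2 (i + k) (by omega)
      have e : i + (k + 1) = i + k + 1 := by ring
      rw [e]
      have := ih (by omega)
      omega
  have := h3 k (by omega)
  rwa [← hk] at this

/-- The numbers of a node of the chain. -/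
theorem node_num (hC : Cs94 μ s c₀ δ₁ c₁ A a g θ Y₁ K0 Kb n₃) {t0 t1 t2 : ℕ} (h01 : 4 * t0 ≤ t1) (ht1 : n₃ ≤ t1) (h12 : K0 * t1 ≤ t2) :
    1 ≤ t1 - t0 ∧ 1 ≤ t2 - t1 ∧ t1 ≤ 2 * (t1 - t0) ∧ 1 ≤ wd μ s t2 / wd μ s t1 ∧
      wd μ s t2 / wd μ s t1 * (t1 - t0 : ℕ) ≤ θ * (t2 - t1 : ℕ) := by
  have hn := hC.n1
  have hK := hC.K4
  have h4 : 4 * t1 ≤ t2 := (Nat.mul_le_mul_right _ hK).trans h12
  have hw := hC.wd2 t1 ht1
  obtain ⟨v1, v2⟩ := hC.wd16 t1 t2 ht1 h12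
  have hw0 : 0 < wd μ s t1 := by linarith
  have hθ := hC.θ0
  refine ⟨by omega, by omega, by omega, ?_, ?_⟩
  · rw [one_le_div hw0]
    linarith
  · have ht1r : (0 : ℝ) < t1 := by exact_mod_cast (by omega : 0 < t1)
    have ht2r : (0 : ℝ) < t2 := by exact_mod_cast (by omega : 0 < t2)
    have e1 : (((t1 - t0 : ℕ) : ℝ)) ≤ t1 := by exact_mod_cast Nat.sub_le t1 t0
    have e2 : (t2 : ℝ) ≤ 2 * ((t2 - t1 : ℕ) : ℝ) := by exact_mod_cast (by omega : t2 ≤ 2 * (t2 - t1))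
    have hv1 : 0 < vA 1 μ s t1 := by
      unfold wd at hw0
      exact (mul_pos_iff_of_pos_left ht1r).1 hw0
    have hq0 : 0 ≤ wd μ s t2 / wd μ s t1 := by
      have : 0 < wd μ s t2 := by linarith
      positivity
    calc wd μ s t2 / wd μ s t1 * (t1 - t0 : ℕ) ≤ wd μ s t2 / wd μ s t1 * t1 := mul_le_mul_of_nonneg_left e1 hq0
      _ = t2 * (vA 1 μ s t2 / vA 1 μ s t1) := by
        unfold wd
        field_simp
      _ ≤ t2 * (θ / 8) := by
        refine mul_le_mul_of_nonneg_left ?_ ht2r.le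
        rw [div_le_iff₀ hv1]
        exact v1
      _ ≤ θ * (t2 - t1 : ℕ) := by
        have := mul_le_mul_of_nonneg_left e2 hθ.le
        have h5 : 0 ≤ θ * t2 := by positivity
        linarith

/-- **THE NORMAL SCALES.** -/
theorem norm94 (hC : Cs94 μ s c₀ δ₁ c₁ A a g θ Y₁ K0 Kb n₃) {T : ℕ → ℕ} {m j : ℕ} (hT0 : T 0 = 0) (hT1 : n₃ ≤ T 1)
    (hTK : ∀ i, 1 ≤ i → i < m → K0 * T i ≤ T (i + 1)) (hj1 : 1 ≤ j) (hjm : j < m) {η : Env} {r0 : ℤ} {x0 : ℝ} {xc : ℕ → ℤ} {R : ℕ}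
    (hR : 1 ≤ R) {Y : ℝ} (hY : 8 ≤ Y) (hY1 : Y₁ ≤ Y)
    (hnu : ∀ i, 1 ≤ i → i < m → nu μ s c₀ δ₁ Y (wd μ s (T i)) (wd μ s (T (i + 1)) / wd μ s (T i)) R (r0 + T (i - 1)) (T i - T (i - 1))
      (T (i + 1) - T i) (xc i) η ≤ ((i : ℤ) - j).natAbs)
    (hX : ∀ i, 1 ≤ i → i < m → |x0 + sl μ s * T i - xc i| ≤ (R : ℝ) ^ ((i : ℤ) - j).natAbs * wd μ s (T i))
    {ε : ℝ} (hε : ε = 1 ∨ ε = -1) {M : ℕ → ℝ → ℝ} {Tot : ℝ} (hTot : 0 ≤ Tot) (h0 : ∀ i D, 0 ≤ M i D) (hanti : ∀ i, Antitone (M i))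
    (hz : ∀ i, i ≤ m → ∀ D, (T i : ℝ) < D → M i D = 0)
    (hM : ∀ i, 1 ≤ i → i < m → ∀ X' D' D p : ℝ, D' + |X' - (x0 + sl μ s * T i)| ≤ D → D / 4 + |X' - (x0 + sl μ s * T i)| ≤ 7 / 8 * D' →
      4 * (wd μ s (T (i + 1)) / wd μ s (T i)) * D + |X' - (x0 + sl μ s * T i)| ≤ 16 * (wd μ s (T (i + 1)) / wd μ s (T i)) * D' →
      0 ≤ nb μ s ε (T (i + 1) - T i) (wd μ s (T (i + 1)) / wd μ s (T i)) X' D' - na μ s ε (T i - T (i - 1)) X' D' →
      nb μ s ε (T (i + 1) - T i) (wd μ s (T (i + 1)) / wd μ s (T i)) X' D' - na μ s ε (T i - T (i - 1)) X' D' ≤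
        ((T i - T (i - 1)) + (T (i + 1) - T i) : ℕ) →
      δ₁ * (D' / (T i - T (i - 1) : ℕ)) * (T i - T (i - 1) : ℕ) ≤ D' / 8 →
      Nm μ s ε (δ₁ * (D' / (T i - T (i - 1) : ℕ))) η (r0 + T (i - 1), na μ s ε (T i - T (i - 1)) X' D') (T i - T (i - 1))
          (T (i + 1) - T i) (nb μ s ε (T (i + 1) - T i) (wd μ s (T (i + 1)) / wd μ s (T i)) X' D' - na μ s ε (T i - T (i - 1)) X' D') ≤
        p * W μ s η (r0 + T (i - 1), na μ s ε (T i - T (i - 1)) X' D') ((T i - T (i - 1)) + (T (i + 1) - T i))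
          (nb μ s ε (T (i + 1) - T i) (wd μ s (T (i + 1)) / wd μ s (T i)) X' D' - na μ s ε (T i - T (i - 1)) X' D') →
      M i D ≤ M (i - 1) (D / 4) + M (i + 1) (4 * (wd μ s (T (i + 1)) / wd μ s (T i)) * D) + p * Tot)
    {Z : ℝ} (hZ : 2 * Y ≤ Z) :
    M j (Z * wd μ s (T j)) ≤ 2 * T m * (Real.exp (-(c₁ * (Z * EE μ s (T j)))) * Tot + M m (4 ^ (m - j) * (Z * wd μ s (T m)))) := by
  obtain ⟨f1, f2, f3⟩ := T_facts hC hT0 hT1 hTK
  have hn := hC.n1
  have hδ := hC.δ0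
  have hδ1 := hC.δ1
  have hY0 : 0 < Y := by linarith
  have hZ0 : 0 < Z := by linarith
  have hTm : 1 ≤ T m := hn.trans (f1 m (by omega) le_rfl)
  obtain ⟨Dep, hD1, hD2⟩ := dep94 hTm
  have hw : ∀ i, 1 ≤ i → i ≤ m → 2 ≤ wd μ s (T i) := fun i h1 h2 => hC.wd2 _ (f1 i h1 h2)
  have hw1 := hw 1 le_rfl (by omega)
  have ew : ∀ i, 1 ≤ i → wT μ s T i = wd μ s (T i) := fun i hi => by
    unfold wT
    rw [if_neg (by omega)]
  have ew0 : wT μ s T 0 = wd μ s (T 1) / 16 := by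
    unfold wT
    rw [if_pos rfl]
  obtain ⟨P, hP⟩ : ∃ P, P = Real.exp (-(c₁ * (Z * EE μ s (T j)))) * Tot := ⟨_, rfl⟩
  have hP0 : 0 ≤ P := by rw [hP]; positivity
  have main := ArmC89.norm89 (M := M) (w := wT μ s T) (T := fun i => (T i : ℝ)) (m := m) (j := j) (Dep := Dep)
    (xi := fun i => ((i : ℤ) - j).natAbs) (Y := Z) (P := P) (Q := M m (4 ^ (m - j) * (Z * wd μ s (T m)))) hP0 h0 hanti hz
    (by rw [ew0]; linarith)
    (by
      intro i hi
      rcases Nat.eq_zero_or_pos i with h | h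
      · subst h
        rw [ew0, ew 1 le_rfl]
        linarith
      · rw [ew i h, ew (i + 1) (by omega)]
        exact (hC.wd16 _ _ (f1 i h hi.le) (hTK i h hi)).2)
    hZ0
    (by
      show ((T 0 : ℕ) : ℝ) < Z * wT μ s T 0
      rw [hT0, ew0]
      have : 0 < Z * (wd μ s (T 1) / 16) := mul_pos hZ0 (by linarith)
      simpa using this)
    hjm
    (by
      intro i _ _
      exact le_of_eq (Int.natCast_natAbs _))
    (by
      intro i hi1 him D hDa hDb hDc hDT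
      rw [ew i hi1] at hDa hDb ⊢
      rw [ew j hj1] at hDc
      rw [ew (i + 1) (by omega)]
      obtain ⟨t0, ht0⟩ : ∃ t0, t0 = T (i - 1) := ⟨_, rfl⟩
      have h01 : 4 * t0 ≤ T i := by
        have := f2 (i - 1) (by omega)
        rwa [show i - 1 + 1 = i by omega, ← ht0] at this
      obtain ⟨m1, m2, m3, m4, m5⟩ := node_num hC h01 (f1 i hi1 him.le) (hTK i hi1 him)
      have hnu' := hnu i hi1 him
      have hX' := hX i hi1 him
      have hMi := hM i hi1 him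
      rw [← ht0] at hnu' hMi
      obtain ⟨n1, hn1⟩ : ∃ n1, n1 = T i - t0 := ⟨_, rfl⟩
      rw [← hn1] at m1 m3 m5 hnu' hMi
      obtain ⟨w, hw'⟩ : ∃ w, w = wd μ s (T i) := ⟨_, rfl⟩
      obtain ⟨q, hq⟩ : ∃ q, q = wd μ s (T (i + 1)) / wd μ s (T i) := ⟨_, rfl⟩
      rw [← hq] at m4 m5 hnu' hMi ⊢
      rw [← hw'] at hnu' hX' hDa hDb
      have hw2 : 2 ≤ w := by rw [hw']; exact hw i hi1 him.le
      have hTi2 : (T i : ℝ) ≤ 2 * n1 := by exact_mod_cast m3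
      have hDl : 2 ^ ((i : ℤ) - j).natAbs * (2 * Y * w) ≤ D := by
        refine le_trans (mul_le_mul_of_nonneg_left ?_ (by positivity)) hDa
        exact mul_le_mul_of_nonneg_right hZ (by linarith)
      obtain ⟨X', D', g1, g2, g3, g4, g5, g6⟩ := nu_all hY (show 0 < w by linarith) m4 hR _ _ _ _ _ hnu' hX' hDl
        (hDT.trans hTi2) hε
      have hD'0 : 2 ≤ D' := by
        rw [le_div_iff₀ (by linarith)] at g5
        linarith
      have hD'D : D' ≤ D := by linarith [abs_nonneg (X' - (x0 + sl μ s * T i))]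
      have hn1r : (0 : ℝ) < n1 := by exact_mod_cast (by omega : 0 < n1)
      obtain ⟨k1, k2⟩ := hC.geo n1 (T (i + 1) - T i) m1 m2 q X' D' m4 m5 hD'0 (by linarith) ε hε
      unfold NodI at g6
      have hfin := hMi X' D' D _ g1 g2 g3 k1 k2 (by
        have e : δ₁ * (D' / n1) * n1 = δ₁ * D' := by field_simp
        rw [e]
        have := mul_le_mul_of_nonneg_right hδ1 (show 0 ≤ D' by linarith)
        linarith) g6
      have hrate := hC.rate T m hT1 hTK i j hi1 hj1 him hjm Z D D' (by linarith) hDT (by rw [← hw']; exact hDb) (by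
          have e : (|(i : ℤ) - j|).toNat = ((i : ℤ) - j).natAbs := by rw [Int.abs_eq_natAbs, Int.toNat_natCast]
          rw [e] at hDc
          exact hDc) (by linarith) (by linarith) hD'D ε hε n1 m3 (by rw [hn1]; exact Nat.sub_le _ _)
      have hpP : Real.exp (-(c₀ * ((n1 : ℝ) * J μ s (ε * (δ₁ * (D' / n1)))))) * Tot ≤ P := by
        rw [hP]
        exact mul_le_mul_of_nonneg_right (Real.exp_le_exp.2 (neg_le_neg hrate)) hTot
      linarith)
    (by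
      intro i hi
      rcases Nat.eq_zero_or_pos i with h | h
      · subst h
        show ((T 0 : ℕ) : ℝ) < _
        rw [hT0, ew0]
        have : 0 < 4 ^ Dep * (Z * (wd μ s (T 1) / 16)) := mul_pos (by positivity) (mul_pos hZ0 (by linarith))
        simpa using this
      · show ((T i : ℕ) : ℝ) < _
        rw [ew i h]
        have h1 : (T i : ℝ) ≤ T m := by exact_mod_cast f3 i hi.le
        have h2 : 1 ≤ Z * wd μ s (T i) := by
          have h3 := hw i h hi.le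
          have h4 : 1 * 1 ≤ Z * wd μ s (T i) := mul_le_mul (by linarith) (by linarith) zero_le_one hZ0.le
          linarith
        have h5 : (4 : ℝ) ^ Dep * 1 ≤ 4 ^ Dep * (Z * wd μ s (T i)) := mul_le_mul_of_nonneg_left h2 (by positivity)
        linarith)
    (by rw [ew m (by omega)])
  rw [ew j hj1] at main
  refine main.trans ?_
  rw [← hP]
  exact mul_le_mul_of_nonneg_right hD2 (add_nonneg hP0 (h0 _ _))

end

end Pool.Agent.W_7d29a1_C1.H94
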