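import Mathlib

/-!
MP_7d29a1_pr, C1, ARMS (helper94): the numbers of the local steepness lemma.
-/

set_option autoImplicit false

namespace Pool.Agent.W_7d29a1_C1.H94

/-- The thresholds. -/
theorem num94 {C CK C₁ L0 F Q Et G E1 E2 E0 nx : ℝ} (hC : 0 < C) (hCK : 0 < CK) (hC₁ : 0 < C₁) (hL0 : 0 < L0) (hF : 0 < F)
    (hQ : 64 + 64 * L0 + 32 * (C * CK) + 8 * (2 * C * CK + (C₁ + 1) * CK + (C₁ + 4) * F + (C₁ + 1)) ≤ Q) (hEt : 1 ≤ Et)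
    (hG : Q ^ 16 * Et / 2 ≤ G) (h1 : E1 ≤ CK * Q ^ 8 * Et) (h2 : E2 ≤ CK * Q ^ 8 * Et) (h00 : 0 ≤ E0)
    (h0 : E0 ≤ CK * Q ^ 8 * Et) (hnx0 : 0 ≤ nx) (hnx : 2 * nx ≤ F * Q ^ 16 * Et) :
    Q * (C * E1) ≤ G / 8 ∧ Q * (C * E2) ≤ G / 16 ∧ Q ≤ G / 16 - L0 ∧
      2 * (Q ^ 4 * (C * E2)) + Q * ((C₁ + Q) * E0 + (C₁ + 4) * (2 / Q ^ 4) * nx + C₁ + 1) ≤ G / 4 := by
  have hCCK : 0 < C * CK := mul_pos hC hCK
  obtain ⟨Λ, hΛ⟩ : ∃ Λ : ℝ, Λ = 2 * C * CK + (C₁ + 1) * CK + (C₁ + 4) * F + (C₁ + 1) := ⟨_, rfl⟩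
  have hΛ0 : 0 < Λ := by rw [hΛ]; positivity
  rw [← hΛ] at hQ
  have hQ64 : 64 ≤ Q := by linarith
  have hQ1 : 1 ≤ Q := by linarith
  have hQ0 : 0 < Q := by linarith
  have hEt0 : 0 < Et := by linarith
  have hpow : ∀ k : ℕ, 1 ≤ k → Q ≤ Q ^ k := fun k hk => by
    calc Q = Q ^ 1 := (pow_one Q).symm
      _ ≤ Q ^ k := pow_le_pow_right₀ hQ1 hk
  have hA : 32 * (C * CK) ≤ Q := by linarith
  have hB : 8 * Λ ≤ Q := by linarith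
  have hL : 64 * L0 ≤ Q := by linarith
  have key : ∀ E : ℝ, E ≤ CK * Q ^ 8 * Et → 32 * (Q * (C * E)) ≤ Q ^ 16 * Et := by
    intro E hE
    calc 32 * (Q * (C * E)) ≤ 32 * (Q * (C * (CK * Q ^ 8 * Et))) :=
          mul_le_mul_of_nonneg_left (mul_le_mul_of_nonneg_left (mul_le_mul_of_nonneg_left hE hC.le) hQ0.le) (by norm_num)
      _ = 32 * (C * CK) * (Q ^ 9 * Et) := by ring
      _ ≤ Q ^ 7 * (Q ^ 9 * Et) := mul_le_mul_of_nonneg_right (hA.trans (hpow 7 (by norm_num))) (by positivity)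
      _ = Q ^ 16 * Et := by ring
  have k1 := key E1 h1
  have k2 := key E2 h2
  have hQE : Q ^ 16 * 1 ≤ Q ^ 16 * Et := mul_le_mul_of_nonneg_left hEt (by positivity)
  have hG0 : 0 ≤ Q ^ 16 * Et := by positivity
  refine ⟨by linarith, by linarith, ?_, ?_⟩
  · have a1 : 64 * Q ≤ Q * Q := mul_le_mul_of_nonneg_right hQ64 hQ0.le
    have a2 : Q * Q ≤ Q ^ 16 := by
      calc Q * Q = Q ^ 2 := by ring
        _ ≤ Q ^ 16 := pow_le_pow_right₀ hQ1 (by norm_num)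
    linarith
  · have a2 : 2 * (Q ^ 4 * (C * E2)) ≤ 2 * C * CK * (Q ^ 12 * Et) := by
      calc 2 * (Q ^ 4 * (C * E2)) ≤ 2 * (Q ^ 4 * (C * (CK * Q ^ 8 * Et))) :=
            mul_le_mul_of_nonneg_left (mul_le_mul_of_nonneg_left (mul_le_mul_of_nonneg_left h2 hC.le) (by positivity)) (by norm_num)
        _ = _ := by ring
    have a3 : Q * ((C₁ + Q) * E0) ≤ (C₁ + 1) * CK * (Q ^ 10 * Et) := by
      have b1 : C₁ + Q ≤ (C₁ + 1) * Q := by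
        have : C₁ * 1 ≤ C₁ * Q := mul_le_mul_of_nonneg_left hQ1 hC₁.le
        linarith
      calc Q * ((C₁ + Q) * E0) ≤ Q * (((C₁ + 1) * Q) * (CK * Q ^ 8 * Et)) :=
            mul_le_mul_of_nonneg_left (mul_le_mul b1 h0 h00 (by positivity)) hQ0.le
        _ = _ := by ring
    have a4 : Q * ((C₁ + 4) * (2 / Q ^ 4) * nx) ≤ (C₁ + 4) * F * (Q ^ 13 * Et) := by
      calc Q * ((C₁ + 4) * (2 / Q ^ 4) * nx) = (C₁ + 4) * (Q / Q ^ 4) * (2 * nx) := by ring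
        _ ≤ (C₁ + 4) * (Q / Q ^ 4) * (F * Q ^ 16 * Et) := mul_le_mul_of_nonneg_left hnx (by positivity)
        _ = _ := by
          field_simp
    have p1 : Q ^ 12 * Et ≤ Q ^ 13 * Et := mul_le_mul_of_nonneg_right (pow_le_pow_right₀ hQ1 (by norm_num)) hEt0.le
    have p2 : Q ^ 10 * Et ≤ Q ^ 13 * Et := mul_le_mul_of_nonneg_right (pow_le_pow_right₀ hQ1 (by norm_num)) hEt0.le
    have p3 : Q ≤ Q ^ 13 * Et := by
      have c2 : Q ^ 13 * 1 ≤ Q ^ 13 * Et := mul_le_mul_of_nonneg_left hEt (by positivity)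
      linarith [hpow 13 (by norm_num)]
    have q1 := mul_le_mul_of_nonneg_left p1 (show 0 ≤ 2 * C * CK by positivity)
    have q2 := mul_le_mul_of_nonneg_left p2 (show 0 ≤ (C₁ + 1) * CK by positivity)
    have q3 := mul_le_mul_of_nonneg_left p3 (show 0 ≤ C₁ + 1 by positivity)
    have q4 : 8 * Λ * (Q ^ 13 * Et) ≤ Q ^ 3 * (Q ^ 13 * Et) :=
      mul_le_mul_of_nonneg_right (hB.trans (hpow 3 (by norm_num))) (by positivity)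
    have q5 : Q ^ 3 * (Q ^ 13 * Et) = Q ^ 16 * Et := by ring
    have q6 : Λ * (Q ^ 13 * Et) = 2 * C * CK * (Q ^ 13 * Et) + (C₁ + 1) * CK * (Q ^ 13 * Et) +
        (C₁ + 4) * F * (Q ^ 13 * Et) + (C₁ + 1) * (Q ^ 13 * Et) := by
      rw [hΛ]
      ring
    have q7 : Q * ((C₁ + Q) * E0 + (C₁ + 4) * (2 / Q ^ 4) * nx + C₁ + 1) =
        Q * ((C₁ + Q) * E0) + Q * ((C₁ + 4) * (2 / Q ^ 4) * nx) + (C₁ + 1) * Q := by
      ring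
    rw [q7]
    linarith

/-- The final sum. -/
theorem fin94 {C As A₀ A₁ a₀ g₀ Q : ℝ} (hC : 0 < C) (hAs : 0 < As) (hA₀ : 0 < A₀) (hA₁ : 0 < A₁) (ha₀ : 0 < a₀) (hg1 : g₀ ≤ 1)
    (hQ1 : 1 ≤ Q) (hpow : Q ^ 4 * Real.exp (-(a₀ * Q ^ g₀)) ≤ A₁ * Real.exp (-(a₀ / 2 * Q ^ g₀))) :
    C * Real.exp (-Q) + As * Real.exp (-Q) + C * Real.exp (-Q) +
      (Real.exp (-Q) + Q ^ 4 * (A₀ * Real.exp (-(a₀ * Q ^ g₀)))) ≤
      (2 * C + As + 1 + A₀ * A₁) * Real.exp (-(min 1 (a₀ / 2) * Q ^ g₀)) := by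
  have hQ0 : 0 < Q := by linarith
  have hexpQ : Real.exp (-Q) ≤ Real.exp (-(min 1 (a₀ / 2) * Q ^ g₀)) := by
    refine Real.exp_le_exp.2 (neg_le_neg ?_)
    have h1 : Q ^ g₀ ≤ Q ^ (1 : ℝ) := Real.rpow_le_rpow_of_exponent_le hQ1 hg1
    rw [Real.rpow_one] at h1
    calc min 1 (a₀ / 2) * Q ^ g₀ ≤ 1 * Q ^ g₀ := mul_le_mul_of_nonneg_right (min_le_left _ _) (Real.rpow_nonneg hQ0.le _)
      _ ≤ Q := by rw [one_mul]; exact h1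
  have hexp2 : Real.exp (-(a₀ / 2 * Q ^ g₀)) ≤ Real.exp (-(min 1 (a₀ / 2) * Q ^ g₀)) :=
    Real.exp_le_exp.2 (neg_le_neg (mul_le_mul_of_nonneg_right (min_le_right _ _) (Real.rpow_nonneg hQ0.le _)))
  obtain ⟨B, hB⟩ : ∃ B, B = Real.exp (-(min 1 (a₀ / 2) * Q ^ g₀)) := ⟨_, rfl⟩
  rw [← hB] at hexpQ hexp2 ⊢
  have e5 : Q ^ 4 * (A₀ * Real.exp (-(a₀ * Q ^ g₀))) ≤ A₀ * A₁ * B := by
    calc Q ^ 4 * (A₀ * Real.exp (-(a₀ * Q ^ g₀))) = A₀ * (Q ^ 4 * Real.exp (-(a₀ * Q ^ g₀))) := by ring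
      _ ≤ A₀ * (A₁ * Real.exp (-(a₀ / 2 * Q ^ g₀))) := mul_le_mul_of_nonneg_left hpow hA₀.le
      _ ≤ A₀ * (A₁ * B) := mul_le_mul_of_nonneg_left (mul_le_mul_of_nonneg_left hexp2 hA₁.le) hA₀.le
      _ = _ := by ring
  have f1 : C * Real.exp (-Q) ≤ C * B := mul_le_mul_of_nonneg_left hexpQ hC.le
  have f2 : As * Real.exp (-Q) ≤ As * B := mul_le_mul_of_nonneg_left hexpQ hAs.le
  have e : (2 * C + As + 1 + A₀ * A₁) * B = C * B + As * B + C * B + B + A₀ * A₁ * B := by ring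
  rw [e]
  linarith

end Pool.Agent.W_7d29a1_C1.H94
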