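import Pool.Agent.W_7d29a1_C1.ArmL94
import Pool.Agent.W_7d29a1_C1.ArmN94

/-!
MP_7d29a1_pr, C1, ARMS (helper94), part 4: THE LOCAL STEEPNESS LEMMA, at a natural scale `t = 2 ^ τ`.
-/

set_option autoImplicit false

namespace Pool.Agent.W_7d29a1_C1.H94

open MeasureTheory ProbabilityTheory Filter Topology
open Pool.Agent.W_7d29a1_F Pool.Agent.W_7d29a1_h4g Pool.Agent.W_7d29a1_H Pool.Agent.W_7d29a1_HS
open Pool.Agent.W_7d29a1_h47 (EM Nondeg rows)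
open Pool.Agent.W_7d29a1_g (rv rev_sum)
open Pool.Agent.W_7d29a1_HX.X50 (unlucky_all)

noncomputable section

variable {μ : Measure ℝ} [IsProbabilityMeasure μ] {s κ c C K1 : ℝ} {n₀ x₁ : ℕ}

/-- The unit of a tilt of the family, `16 i + k` octaves above. -/
theorem EE_fam (hF : Fam94 μ s κ c C n₀ K1 x₁) {r : ℝ} (hr : |r| ≤ κ) {τ i k n : ℕ} (hτ : x₁ ≤ τ) (hn : n ≤ 2 ^ (τ + (16 * i + k))) :
    EE μ (s + r) n ≤ (2 : ℝ) ^ ((k : ℝ) / 2 + K1) * ((2 : ℝ) ^ i) ^ 8 * EE μ (s + r) (2 ^ τ) := by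
  refine (EE_mono hn).trans ?_
  rw [← pow_gg, ← pow_gg]
  have h1 := hF.half r hr τ (16 * i + k) hτ
  have h2 : (2 : ℝ) ^ ((k : ℝ) / 2 + K1) * ((2 : ℝ) ^ i) ^ 8 * (2 : ℝ) ^ gg μ (s + r) τ =
      (2 : ℝ) ^ (gg μ (s + r) τ + ((16 * i + k : ℕ) : ℝ) / 2 + K1) := by
    have e1 : ((2 : ℝ) ^ i) ^ 8 = (2 : ℝ) ^ (8 * (i : ℝ)) := by
      rw [← pow_mul, ← Real.rpow_natCast]
      congr 1
      push_cast
      ring
    rw [e1, ← Real.rpow_add two_pos, ← Real.rpow_add two_pos]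
    congr 1
    push_cast
    ring
  rw [h2]
  exact Real.rpow_le_rpow_of_exponent_le one_le_two h1

/-- **THE LOCAL STEEPNESS LEMMA** (start at the origin). -/
theorem lsl_core94 (hF : Fam94 μ s κ c C n₀ K1 x₁) : ∃ (τ₀ k₀ : ℕ) (A a g : ℝ), 0 < A ∧ 0 < a ∧ 0 < g ∧ g ≤ 1 ∧
    ∀ k : ℕ, ∃ i₀ : ℕ, ∀ τ, τ₀ ≤ τ → ∀ i, i₀ ≤ i → ∀ ε : ℝ, ε = 1 ∨ ε = -1 → ∀ n1 n2 : ℕ, 1 ≤ n2 → 2 ^ (τ + 16 * i) ≤ n1 →
      n1 + n2 ≤ 2 ^ (τ + (16 * i + k)) → ∀ x1 : ℝ, 2 * vA 1 μ s (2 ^ τ) ≤ x1 → ∀ y : ℤ, 0 ≤ y → y ≤ (n1 + n2 : ℕ) →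
      0 ≤ ε * ((y : ℝ) / (n1 + n2 : ℕ) - sl μ s) → 2 ^ (k₀ + 1) * (ε * ((y : ℝ) / (n1 + n2 : ℕ) - sl μ s)) ≤ vA 1 μ s (2 ^ τ) →
      (law μ).real {η | Real.exp (-(n1 * EE μ s (2 ^ τ) / (4 * 2 ^ τ))) * W μ s η 0 (n1 + n2) y ≤ Nm μ s ε x1 η 0 n1 n2 y} ≤
        A * Real.exp (-(a * ((2 : ℝ) ^ i) ^ g)) := by
  have h : In μ s c C n₀ := by
    have := hF.inn 0 (by rw [abs_zero]; exact hF.κ0.le)
    rwa [add_zero] at this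
  obtain ⟨C₁, A₀, a₀, g₀, hC₁, hA₀, ha₀, hg₀, hg1, hU⟩ := unlucky_all h
  obtain ⟨As, hAs, hsite⟩ := tail_site h.em
  obtain ⟨D, d₁, hD1, hd₁, hsym⟩ := h.sym
  obtain ⟨ρ, d₂, hρ0, hρ1, hd₂, hsup⟩ := h.sup
  obtain ⟨ρ₀, hρ₀, htilt⟩ := exists_tilt h.em h.nd |s| hF.κ0
  obtain ⟨H, δ, hD⟩ := h.dir
  obtain ⟨k₀, hk₀⟩ : ∃ k₀ : ℕ, 4 * ρ ^ k₀ ≤ 1 := by
    obtain ⟨k₀, hk⟩ := exists_pow_lt_of_lt_one (show (0 : ℝ) < 1 / 4 by norm_num) hρ1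
    exact ⟨k₀, by linarith⟩
  obtain ⟨A₁, hA₁, hpow⟩ := pow_exp_le ha₀ hg₀
  obtain ⟨d, hd⟩ : ∃ d, d = min (min d₁ d₂) ρ₀ := ⟨_, rfl⟩
  have hd0 : 0 < d := by rw [hd]; exact lt_min (lt_min hd₁ hd₂) hρ₀
  have hdd1 : d ≤ d₁ := by rw [hd]; exact (min_le_left _ _).trans (min_le_left _ _)
  have hdd2 : d ≤ d₂ := by rw [hd]; exact (min_le_left _ _).trans (min_le_right _ _)
  have hdd3 : d ≤ ρ₀ := by rw [hd]; exact min_le_right _ _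
  obtain ⟨n₂, hn₂⟩ := eventually_atTop.1 (h.tv.eventually_lt_const hd0)
  have hC0 : 0 < C := lt_of_lt_of_le one_pos h.C1
  -- the constants
  refine ⟨max (max n₂ n₀) x₁, k₀, 2 * C + As + 1 + A₀ * A₁, min 1 (a₀ / 2), g₀, by positivity, by positivity, hg₀, hg1, fun k => ?_⟩
  obtain ⟨CK, hCK⟩ : ∃ CK : ℝ, CK = (2 : ℝ) ^ ((k : ℝ) / 2 + K1) * (1 + 2 * D ^ 3) := ⟨_, rfl⟩
  have hD0 : 0 < D := by linarith
  have hCK0 : 0 < CK := by rw [hCK]; positivity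
  obtain ⟨L0, hL0⟩ : ∃ L0 : ℝ, L0 = |s| + |lam μ s| + 3 := ⟨_, rfl⟩
  have hL00 : 0 < L0 := by rw [hL0]; positivity
  obtain ⟨Fc, hFc⟩ : ∃ Fc : ℝ, Fc = 2 ^ (k + 1) * D ^ 3 := ⟨_, rfl⟩
  have hFc0 : 0 < Fc := by rw [hFc]; positivity
  obtain ⟨i₀, hi₀⟩ := pow_unbounded_of_one_lt (64 + 64 * L0 + 32 * (C * CK) + 8 * (2 * C * CK + (C₁ + 1) * CK + (C₁ + 4) * Fc + (C₁ + 1)))
    (one_lt_two (α := ℝ))
  refine ⟨i₀, fun τ hτ i hi ε hε n1 n2 hn2 hn1 hnn x1 hx1 y hy0 hy1 hyε hyk => ?_⟩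
  have hτ1 : n₂ ≤ τ := (le_max_left _ _).trans ((le_max_left _ _).trans hτ)
  have hτ2 : n₀ ≤ τ := (le_max_right _ _).trans ((le_max_left _ _).trans hτ)
  have hτ3 : x₁ ≤ τ := (le_max_right _ _).trans hτ
  have hτp : τ ≤ 2 ^ τ := Nat.lt_two_pow_self.le
  have ht1 : 1 ≤ 2 ^ τ := Nat.one_le_two_pow
  obtain ⟨Q, hQ⟩ : ∃ Q : ℝ, Q = (2 : ℝ) ^ i := ⟨_, rfl⟩
  have hQΛ : 64 + 64 * L0 + 32 * (C * CK) + 8 * (2 * C * CK + (C₁ + 1) * CK + (C₁ + 4) * Fc + (C₁ + 1)) ≤ Q := by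
    rw [hQ]
    exact hi₀.le.trans (pow_le_pow_right₀ one_le_two hi)
  have hQ1 : 1 ≤ Q := by
    rw [hQ]
    exact one_le_pow₀ one_le_two
  have hQ0 : 0 < Q := by linarith
  rw [← hQ]
  obtain ⟨x0, hx0⟩ : ∃ x0, x0 = vA 1 μ s (2 ^ τ) := ⟨_, rfl⟩
  have hx00 : 0 < x0 := by rw [hx0]; exact h.vA_pos ht1
  have hx0d : x0 ≤ d := by rw [hx0]; exact (hn₂ _ (hτ1.trans hτp)).le
  obtain ⟨Et, hEt⟩ : ∃ Et, Et = EE μ s (2 ^ τ) := ⟨_, rfl⟩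
  have hEt1 : 1 ≤ Et := by rw [hEt]; exact one_le_EE _
  have hEt0 : 0 < Et := by linarith
  obtain ⟨t, htt⟩ : ∃ t : ℝ, t = 2 ^ τ := ⟨_, rfl⟩
  have ht0 : 0 < t := by rw [htt]; positivity
  obtain ⟨n, hn⟩ : ∃ n, n = n1 + n2 := ⟨_, rfl⟩
  have hεa : |ε| = 1 := by rcases hε with rfl | rfl <;> simp
  have hεε : ε * ε = 1 := by rcases hε with rfl | rfl <;> norm_num
  -- the two tilts
  obtain ⟨r1, hr1κ, hr1⟩ := htilt s le_rfl (ε * x0) (by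
    rw [abs_mul, hεa, one_mul, abs_of_pos hx00]
    exact hx0d.trans hdd3)
  obtain ⟨x2, hx2⟩ : ∃ x2, x2 = ε * ((y : ℝ) / (n1 + n2 : ℕ) - sl μ s) := ⟨_, rfl⟩
  rw [← hx2] at hyε hyk
  rw [← hx0] at hyk hx1
  have hp2 : (1 : ℝ) ≤ 2 ^ k₀ := one_le_pow₀ one_le_two
  have hx2x : 2 * x2 * 2 ^ k₀ ≤ x0 := by
    calc 2 * x2 * 2 ^ k₀ = 2 ^ (k₀ + 1) * x2 := by ring
      _ ≤ x0 := hyk
  have hx2x' : 2 * x2 ≤ x0 := by
    have : 2 * x2 * 1 ≤ 2 * x2 * 2 ^ k₀ := mul_le_mul_of_nonneg_left hp2 (by linarith)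
    linarith
  have hyx : (y : ℝ) / (n1 + n2 : ℕ) - sl μ s = ε * x2 := by
    rw [hx2, ← mul_assoc, hεε, one_mul]
  obtain ⟨r2, hr2κ, hr2⟩ := htilt s le_rfl (ε * x2) (by
    rw [abs_mul, hεa, one_mul, abs_of_nonneg hyε]
    linarith)
  have hr11 : |r1| ≤ 1 := hr1κ.trans hF.κ1
  have hr21 : |r2| ≤ 1 := hr2κ.trans hF.κ1
  obtain ⟨s1, s2, s3⟩ := tilt_scale (s := s) hD (Set.mem_singleton s) hD1 (fun x hx => hsym x (hx.trans hdd1)) ht1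
    (by rw [← hx0]; exact hx0d) hε hr11 (by rw [← hx0]; exact hr1)
  rw [← hx0, ← hEt] at s1 s2
  rw [← hx0] at s3
  have hcast : ((2 ^ τ : ℕ) : ℝ) = t := by rw [htt]; push_cast; ring
  rw [hcast] at s1 s2
  have hr12 : |r2| ≤ |r1| / 2 := tilt_small (s := s) h.em h.nd hρ0 hk₀ (fun x hx => hsup x (hx.trans hdd2)) hε hx00.le hx0d s3
    hyε hx2x hr21 hr2
  -- sizes
  have hnr : ((n1 + n2 : ℕ) : ℝ) ≤ 2 ^ k * Q ^ 16 * t := by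
    have h1 : ((n1 + n2 : ℕ) : ℝ) ≤ ((2 ^ (τ + (16 * i + k)) : ℕ) : ℝ) := by exact_mod_cast hnn
    refine h1.trans (le_of_eq ?_)
    rw [hQ, htt]
    push_cast
    rw [← pow_mul, ← pow_add, ← pow_add]
    congr 1
    ring
  have hn1r : Q ^ 16 * t ≤ n1 := by
    have h1 : ((2 ^ (τ + 16 * i) : ℕ) : ℝ) ≤ n1 := by exact_mod_cast hn1
    refine (le_of_eq ?_).trans h1
    rw [hQ, htt]
    push_cast
    rw [← pow_mul, ← pow_add]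
    congr 1
    ring
  obtain ⟨G, hG⟩ : ∃ G : ℝ, G = n1 * (|r1| * x0) / 2 := ⟨_, rfl⟩
  have hrx0 : 0 ≤ |r1| * x0 := by positivity
  have hGlo : Q ^ 16 * Et / 2 ≤ G := by
    rw [hG]
    have h1 : Q ^ 16 * Et ≤ Q ^ 16 * (t * (|r1| * x0)) := mul_le_mul_of_nonneg_left s1 (by positivity)
    have h2 : Q ^ 16 * t * (|r1| * x0) ≤ n1 * (|r1| * x0) := mul_le_mul_of_nonneg_right hn1r hrx0
    have h3 : Q ^ 16 * (t * (|r1| * x0)) = Q ^ 16 * t * (|r1| * x0) := by ring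
    linarith
  have hGtar : n1 * EE μ s (2 ^ τ) / (4 * 2 ^ τ) ≤ G / 2 := by
    rw [← hEt, ← htt, hG, div_le_iff₀ (by positivity)]
    have h2 : n1 * Et ≤ n1 * (t * (|r1| * x0)) := mul_le_mul_of_nonneg_left s1 (Nat.cast_nonneg _)
    linarith
  have hnx : ((n1 + n2 : ℕ) : ℝ) * (|r1| * x0) ≤ 2 ^ k * Q ^ 16 * (D ^ 3 * Et) := by
    calc ((n1 + n2 : ℕ) : ℝ) * (|r1| * x0) ≤ 2 ^ k * Q ^ 16 * t * (|r1| * x0) := mul_le_mul_of_nonneg_right hnr hrx0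
      _ = 2 ^ k * Q ^ 16 * (t * (|r1| * x0)) := by ring
      _ ≤ _ := mul_le_mul_of_nonneg_left s2 (by positivity)
  -- the units
  have hunit : ∀ r x : ℝ, |r| ≤ κ → |r| ≤ |r1| → 0 ≤ x → x ≤ x0 → sl μ (s + r) = sl μ s + ε * x →
      EE μ (s + r) (n1 + n2) ≤ CK * Q ^ 8 * Et := by
    intro r x hr hrr hx hxx hsl
    have h1 := EE_fam hF hr (i := i) (k := k) hτ3 hnn
    have h2 : EE μ (s + r) (2 ^ τ) ≤ EE μ s (2 ^ τ) + 2 * (D ^ 3 * Et) := by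
      refine unit_le94 hD (Set.mem_singleton s) ?_ ?_
      · rw [hcast, ← hx0]
        refine le_trans ?_ s2
        exact mul_le_mul_of_nonneg_left (mul_le_mul_of_nonneg_right hrr hx00.le) ht0.le
      · rw [hcast]
        refine le_trans ?_ s2
        refine mul_le_mul_of_nonneg_left ?_ ht0.le
        exact (ex_le_x (s := s) h.em h.nd hε hx hsl).trans (mul_le_mul hrr hxx hx (abs_nonneg _))
    rw [← hEt] at h2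
    calc EE μ (s + r) (n1 + n2) ≤ (2 : ℝ) ^ ((k : ℝ) / 2 + K1) * ((2 : ℝ) ^ i) ^ 8 * EE μ (s + r) (2 ^ τ) := h1
      _ ≤ (2 : ℝ) ^ ((k : ℝ) / 2 + K1) * ((2 : ℝ) ^ i) ^ 8 * (Et + 2 * (D ^ 3 * Et)) :=
        mul_le_mul_of_nonneg_left h2 (by positivity)
      _ = CK * Q ^ 8 * Et := by
        rw [hCK, hQ]
        ring
  have hU1 := hunit r1 x0 hr1κ le_rfl hx00.le le_rfl hr1
  have hU2 := hunit r2 x2 hr2κ (hr12.trans (by linarith [abs_nonneg r1])) hyε (by linarith) hr2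
  have hU0 : EE μ s (n1 + n2) ≤ CK * Q ^ 8 * Et := by
    have := hunit 0 0 (by rw [abs_zero]; exact hF.κ0.le) (by rw [abs_zero]; exact abs_nonneg _) le_rfl hx00.le
      (by rw [add_zero, mul_zero, add_zero])
    rwa [add_zero] at this
  have hn0 : n₀ ≤ n1 + n2 := by
    have h1 : 2 ^ τ ≤ 2 ^ (τ + 16 * i) := Nat.pow_le_pow_right (by norm_num) (Nat.le_add_right _ _)
    omega
  have hn11 : 1 ≤ n1 + n2 := by omega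
  have hIn1 := hF.inn r1 hr1κ
  have hIn2 := hF.inn r2 hr2κ
  -- thresholds
  have hM : ((2 ^ (4 * i) : ℕ) : ℝ) = Q ^ 4 := by
    rw [hQ]
    push_cast
    rw [← pow_mul]
    congr 1
    ring
  have hnx2 : 2 * (((n1 + n2 : ℕ) : ℝ) * (|r1| * x0)) ≤ Fc * Q ^ 16 * Et := by
    calc 2 * (((n1 + n2 : ℕ) : ℝ) * (|r1| * x0)) ≤ 2 * (2 ^ k * Q ^ 16 * (D ^ 3 * Et)) :=
          mul_le_mul_of_nonneg_left hnx (by norm_num)
      _ = _ := by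
        rw [hFc]
        ring
  obtain ⟨th1, th2, th3, th4⟩ := num94 hC0 hCK0 hC₁ hL00 hFc0 hQΛ hEt1 hGlo hU1 hU2 (EE_pos (μ := μ) (s := s) (n1 + n2)).le hU0
    (mul_nonneg (Nat.cast_nonneg _) hrx0) hnx2
  obtain ⟨b, hb⟩ : ∃ b, b = (C₁ + Q) * EE μ s (n1 + n2) + (C₁ + 4) * (2 * ((n1 + n2 : ℕ) : ℝ) / Q ^ 4) * (|r1| * x0) +
      C₁ + 1 := ⟨_, rfl⟩
  have hbe : (C₁ + Q) * EE μ s (n1 + n2) + (C₁ + 4) * (2 / Q ^ 4) * (((n1 + n2 : ℕ) : ℝ) * (|r1| * x0)) + C₁ + 1 = b := by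
    rw [hb]
    ring
  rw [hbe] at th4
  -- the events
  obtain ⟨Z, hZ⟩ : ∃ Z : Pt, Z = (((n1 + n2 : ℕ) : ℤ), y) := ⟨_, rfl⟩
  have hsub : {η | Real.exp (-(n1 * EE μ s (2 ^ τ) / (4 * 2 ^ τ))) * W μ s η 0 (n1 + n2) y ≤ Nm μ s ε x1 η 0 n1 n2 y} ⊆
      (({η | Q * (C * EE μ (s + r1) (n1 + n2)) ≤ V μ (s + r1) η 0 n1} ∪ {η : Env | G / 16 - L0 ≤ η Z}) ∪
      {η | Q * (C * EE μ (s + r2) (n1 + n2)) ≤ V μ (s + r2) (rv Z η) 0 (n2 - 1)}) ∪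
      {η | 2 * (Q ^ 4 * (C * EE μ (s + r2) (n1 + n2))) + Q * b ≤ X μ (s + r2) η 0 (n1 + n2) y} := by
    intro η hη
    rw [Set.mem_ofPred_eq] at hη
    have h1 := Nm_le (s := s) h.em h.nd hε hx00.le hyε hr1 hr2 hr12 hr21 hx1 η hn2 hy0 hy1
    rw [← hG, ← hZ, ← hL0] at h1
    have h2 := hη.trans h1
    have hWp := W_pos (μ := μ) (s := s) η 0 hy0 hy1
    have h3 := Real.exp_le_exp.1 (le_of_mul_le_mul_right h2 hWp)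
    by_contra hcon
    simp only [Set.mem_union, Set.mem_ofPred_eq, not_or, not_le] at hcon
    obtain ⟨⟨⟨c1, c2⟩, c3⟩, c4⟩ := hcon
    linarith
  have e1 := tail_V94 hIn1 hn0 hn11 (show n1 ≤ 4 * (n1 + n2) by omega) Q
  have e2 : (law μ).real {η : Env | G / 16 - L0 ≤ η Z} ≤ As * Real.exp (-Q) :=
    (hsite Z _).trans (mul_le_mul_of_nonneg_left (Real.exp_le_exp.2 (by linarith)) hAs.le)
  have e3 := tail_rv hIn2 hn0 hn11 (show n2 - 1 ≤ 4 * (n1 + n2) by omega) Z Q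
  have hMn : 2 ^ (4 * i) ≤ n1 + n2 := by
    have h1 : 2 ^ (4 * i) ≤ 2 ^ (τ + 16 * i) := Nat.pow_le_pow_right (by norm_num) (by omega)
    omega
  have e4 := tail_X94 h hC₁ ha₀ hU (r := r2) (q := |r1|) (x := x0) hIn2 hr21 (hr12.trans (by linarith [abs_nonneg r1]))
    hn0 Nat.one_le_two_pow hMn hy0 hy1 (by rw [hr2, ← hyx]; ring)
    (by rw [hyx, abs_mul, hεa, one_mul, abs_of_nonneg hyε]; linarith)
    (by
      rw [hyx]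
      have hcv := J_convex h.em h.nd s
      have hθ0 : 0 ≤ 2 * x2 / x0 := by positivity
      have hθ1 : 2 * x2 / x0 ≤ 1 := (div_le_one hx00).2 hx2x'
      have h6 := hcv.2 (Set.mem_univ (ε * x0)) (Set.mem_univ 0) hθ0 (sub_nonneg.2 hθ1) (by ring)
      simp only [smul_eq_mul, mul_zero, add_zero, J_zero h.em h.nd s] at h6
      have e : 2 * x2 / x0 * (ε * x0) = 2 * (ε * x2) := by field_simp
      rw [e] at h6
      refine h6.trans (le_trans ?_ s3)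
      exact mul_le_of_le_one_left (J_nonneg h.em h.nd s _) hθ1) (u := Q) hQ0.le
  rw [hM, ← hb] at e4
  refine (measureReal_mono hsub (measure_ne_top _ _)).trans (le_trans ?_ (fin94 hC0 hAs hA₀ hA₁ ha₀ hg1 hQ1 (hpow Q hQ1)))
  refine (measureReal_union_le _ _).trans (add_le_add ?_ e4)
  refine (measureReal_union_le _ _).trans (add_le_add ?_ e3)
  exact (measureReal_union_le _ _).trans (add_le_add e1 e2)

end

end Pool.Agent.W_7d29a1_C1.H94
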