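import Pool.Agent.W_7d29a1_HS.InAll
import Pool.Agent.W_7d29a1_C1.ArmM94

/-!
MP_7d29a1_pr, C1, ARMS (helper94): the uniform input for the tilts near `s`, without hypotheses.
-/

set_option autoImplicit false

namespace Pool.Agent.W_7d29a1_C1.H94

open MeasureTheory ProbabilityTheory
open Pool.Agent.W_7d29a1_F Pool.Agent.W_7d29a1_h4g Pool.Agent.W_7d29a1_H Pool.Agent.W_7d29a1_HS
open Pool.Agent.W_7d29a1_h47 (EM Nondeg)

variable {μ : Measure ℝ} [IsProbabilityMeasure μ]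

/-- **The uniform input.** -/
theorem fam94 (hμ : EM μ) (hnd : Nondeg μ) (s : ℝ) : ∃ (c C : ℝ) (n₀ : ℕ) (K1 : ℝ) (x₁ : ℕ), Fam94 μ s 1 c C n₀ K1 x₁ := by
  obtain ⟨c, C, n₀, h⟩ := in_Icc (μ := μ) hμ hnd (|s| + 1)
  obtain ⟨β, K, δ, T, L, x₁, -, -, -, -, hhalf, -⟩ := (out_all (μ := μ) hμ hnd (|s| + 1)).cone 1 one_pos
  have hmem : ∀ r : ℝ, |r| ≤ 1 → s + r ∈ Set.Icc (-(|s| + 1)) (|s| + 1) := fun r hr => by
    have h1 := abs_le.1 hr
    have h2 := neg_abs_le s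
    have h3 := le_abs_self s
    exact ⟨by linarith, by linarith⟩
  exact ⟨c, C, n₀, K, x₁, ⟨one_pos, le_rfl, fun r hr => h _ (hmem r hr), fun r hr x j hx => hhalf _ (hmem r hr) x j hx⟩⟩

end Pool.Agent.W_7d29a1_C1.H94
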