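import Pool.Agent.W_7d29a1_C1.ArmP88
import Pool.Agent.W_7d29a1_C1.ArmA94

/-!
MP_7d29a1_pr, attractor route [C1], ARMS (board 78673, 79982): the one annulus inequality for the masses of a
polymer, and time reversal. (helper88)

* `Nm_up`, `Nm_dn`, `hrecN88`, `hrecN88'` : `Nm ≤ p W` (`ArmL94`, helper94) for ONE pair of end points gives the
  three row inequality of `ArmP88`; `Nm_sh`, `prob_Nm`, `Nm_dep`, `Nm_meas` : base point, rows, measurability;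
* `Ms`, `Tot`, **`ann88`** (Q1), any starting profile, real frame, node in general position :
  `Ms (t0 + n1) D ≤ Ms t0 (D / 4) + Ms (t0 + n1 + n2) (4 q D) + p Tot`;
* `Ms_zero`, `Ms_anti`, `Ms_nonneg`, `Ms_le` (Q2);
* `W_rev88`, **`mass_rev88`** (Q3) : the polymer into a site is the polymer from the site in `rv 0 η`.
-/

set_option autoImplicit false

namespace Pool.Agent.W_7d29a1_C1.ArmQ88

open Finset Pool.Agent.W_7d29a1_F MeasureTheory
open Pool.Agent.W_7d29a1_H (sl)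
open Pool.Agent.W_7d29a1_C1.H94 (Nm off)
open Pool.Agent.W_7d29a1_C1.ArmP88
open Pool.Agent.W_7d29a1_g (rv Zr_rev)

noncomputable section

variable {μ : Measure ℝ} {s : ℝ}

theorem Nm_nonneg88 (ε x : ℝ) (η : Env) (a : Pt) (n1 n2 : ℕ) (y : ℤ) : 0 ≤ Nm μ s ε x η a n1 n2 y :=
  sum_nonneg fun _ _ => mul_nonneg (W_nonneg η _ _ _) (W_nonneg η _ _ _)

/-- Right side. -/
theorem Nm_up (x : ℝ) (η : Env) (r a0 b0 z0 : ℤ) (n1 n2 : ℕ)
    (hz : (sl μ s + x) * n1 ≤ ((z0 - a0 : ℤ) : ℝ)) :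
    ∑ z ∈ Icc a0 (a0 + n1) with z0 ≤ z, W μ s η (r, a0) n1 (z - a0) * W μ s η (r + n1, z) n2 (b0 - z) ≤
      Nm μ s 1 x η (r, a0) n1 n2 (b0 - a0) := by
  unfold Nm
  have h1 : ∑ z ∈ Icc a0 (a0 + (n1 : ℤ)) with z0 ≤ z,
      W μ s η (r, a0) n1 (z - a0) * W μ s η (r + n1, z) n2 (b0 - z) =
      ∑ k ∈ (Icc (0 : ℤ) n1).filter (fun k => z0 ≤ a0 + k),
        W μ s η (r, a0) n1 k * W μ s η (((r, a0) : Pt).1 + n1, ((r, a0) : Pt).2 + k) n2 (b0 - a0 - k) := by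
    refine sum_nbij' (fun z => z - a0) (fun k => a0 + k) ?_ ?_ ?_ ?_ ?_
    · intro z hz'
      rw [mem_filter, mem_Icc] at hz' ⊢
      refine ⟨⟨?_, ?_⟩, ?_⟩ <;> omega
    · intro k hk
      rw [mem_filter, mem_Icc] at hk ⊢
      refine ⟨⟨?_, ?_⟩, ?_⟩ <;> omega
    · intro z _; ring
    · intro k _; ring
    · intro z _
      have e1 : a0 + (z - a0) = z := by ring
      have e2 : b0 - a0 - (z - a0) = b0 - z := by ring
      simp only [e1, e2]
  rw [h1]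
  refine sum_le_sum_of_subset_of_nonneg (fun k hk => ?_) fun _ _ _ =>
    mul_nonneg (W_nonneg η _ _ _) (W_nonneg η _ _ _)
  rw [mem_filter] at hk ⊢
  refine ⟨hk.1, ?_⟩
  have h2 : ((z0 - a0 : ℤ) : ℝ) ≤ (k : ℝ) := by
    have : z0 - a0 ≤ k := by have := hk.2; omega
    exact_mod_cast this
  nlinarith

/-- Left side. -/
theorem Nm_dn (x : ℝ) (η : Env) (r a0 b0 z0 : ℤ) (n1 n2 : ℕ)
    (hz : ((z0 - a0 : ℤ) : ℝ) ≤ (sl μ s - x) * n1) :
    ∑ z ∈ Icc a0 (a0 + n1) with z ≤ z0, W μ s η (r, a0) n1 (z - a0) * W μ s η (r + n1, z) n2 (b0 - z) ≤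
      Nm μ s (-1) x η (r, a0) n1 n2 (b0 - a0) := by
  unfold Nm
  have h1 : ∑ z ∈ Icc a0 (a0 + (n1 : ℤ)) with z ≤ z0,
      W μ s η (r, a0) n1 (z - a0) * W μ s η (r + n1, z) n2 (b0 - z) =
      ∑ k ∈ (Icc (0 : ℤ) n1).filter (fun k => a0 + k ≤ z0),
        W μ s η (r, a0) n1 k * W μ s η (((r, a0) : Pt).1 + n1, ((r, a0) : Pt).2 + k) n2 (b0 - a0 - k) := by
    refine sum_nbij' (fun z => z - a0) (fun k => a0 + k) ?_ ?_ ?_ ?_ ?_
    · intro z hz'
      rw [mem_filter, mem_Icc] at hz' ⊢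
      refine ⟨⟨?_, ?_⟩, ?_⟩ <;> omega
    · intro k hk
      rw [mem_filter, mem_Icc] at hk ⊢
      refine ⟨⟨?_, ?_⟩, ?_⟩ <;> omega
    · intro z _; ring
    · intro k _; ring
    · intro z _
      have e1 : a0 + (z - a0) = z := by ring
      have e2 : b0 - a0 - (z - a0) = b0 - z := by ring
      simp only [e1, e2]
  rw [h1]
  refine sum_le_sum_of_subset_of_nonneg (fun k hk => ?_) fun _ _ _ =>
    mul_nonneg (W_nonneg η _ _ _) (W_nonneg η _ _ _)
  rw [mem_filter] at hk ⊢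
  refine ⟨hk.1, ?_⟩
  have h2 : (k : ℝ) ≤ ((z0 - a0 : ℤ) : ℝ) := by
    have : k ≤ z0 - a0 := by have := hk.2; omega
    exact_mod_cast this
  nlinarith

/-- **The three row inequality from `Nm`** (right side). -/
theorem hrecN88 {η : Env} {r : ℤ} {A B X : Finset ℤ} {f F : ℤ → ℝ} {t0 n1 n2 m : ℕ}
    (hf : ∀ a ∈ A, 0 ≤ f a) (hF : ∀ b ∈ B, 0 ≤ F b)
    (hX : ∀ a ∈ A, Icc a (a + (t0 + n1 + n2 : ℕ)) ⊆ X) {a0 b0 z0 : ℤ} {p x : ℝ}
    (hab : a0 ≤ b0) (hba : b0 ≤ a0 + n1 + n2) (hz : (sl μ s + x) * n1 ≤ ((z0 - a0 : ℤ) : ℝ))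
    (hp : Nm μ s 1 x η (r + t0, a0) n1 n2 (b0 - a0) ≤ p * W μ s η (r + t0, a0) (n1 + n2) (b0 - a0)) :
    mass μ s η r (t0 + n1 + n2 + m) A B X f F (t0 + n1) (fun z => z0 ≤ z) ≤
      mass μ s η r (t0 + n1 + n2 + m) A B X f F t0 (fun x => a0 < x) +
      mass μ s η r (t0 + n1 + n2 + m) A B X f F (t0 + n1 + n2) (fun y => b0 < y) +
      p * mass μ s η r (t0 + n1 + n2 + m) A B X f F t0 (fun _ => True) :=
  hrec88 hf hF hX hab hba ((Nm_up x η (r + t0) a0 b0 z0 n1 n2 hz).trans hp)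

/-- The left side. -/
theorem hrecN88' {η : Env} {r : ℤ} {A B X : Finset ℤ} {f F : ℤ → ℝ} {t0 n1 n2 m : ℕ}
    (hf : ∀ a ∈ A, 0 ≤ f a) (hF : ∀ b ∈ B, 0 ≤ F b)
    (hX : ∀ a ∈ A, Icc a (a + (t0 + n1 + n2 : ℕ)) ⊆ X) {a0 b0 z0 : ℤ} {p x : ℝ}
    (hab : a0 ≤ b0) (hba : b0 ≤ a0 + n1 + n2) (hz : ((z0 - a0 : ℤ) : ℝ) ≤ (sl μ s - x) * n1)
    (hp : Nm μ s (-1) x η (r + t0, a0) n1 n2 (b0 - a0) ≤ p * W μ s η (r + t0, a0) (n1 + n2) (b0 - a0)) :
    mass μ s η r (t0 + n1 + n2 + m) A B X f F (t0 + n1) (fun z => z ≤ z0) ≤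
      mass μ s η r (t0 + n1 + n2 + m) A B X f F t0 (fun x => x < a0) +
      mass μ s η r (t0 + n1 + n2 + m) A B X f F (t0 + n1 + n2) (fun y => y < b0) +
      p * mass μ s η r (t0 + n1 + n2 + m) A B X f F t0 (fun _ => True) :=
  hrec88' hf hF hX hab hba ((Nm_dn x η (r + t0) a0 b0 z0 n1 n2 hz).trans hp)

/-- `Nm` of a shifted environment. -/
theorem Nm_sh (ε x : ℝ) (η : Env) (a : Pt) (n1 n2 : ℕ) (y : ℤ) :
    Nm μ s ε x (sh a η) 0 n1 n2 y = Nm μ s ε x η a n1 n2 y := by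
  unfold Nm
  refine sum_congr rfl fun k _ => ?_
  rw [W_sh, W_sh, zero_add]
  congr 2
  ext <;> simp [add_comm]

theorem Nm_meas (ε x : ℝ) (a : Pt) (n1 n2 : ℕ) (y : ℤ) : Measurable fun η : Env => Nm μ s ε x η a n1 n2 y := by
  unfold Nm
  exact Finset.measurable_sum _ fun k _ => (measurable_W _ _ _).mul (measurable_W _ _ _)

/-- The probability of a failure does not depend on the base point. -/
theorem prob_Nm [IsProbabilityMeasure μ] (ε x q : ℝ) (a : Pt) (n1 n2 : ℕ) (y : ℤ) :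
    (law μ).real {η | q * W μ s η a (n1 + n2) y ≤ Nm μ s ε x η a n1 n2 y} =
      (law μ).real {η | q * W μ s η 0 (n1 + n2) y ≤ Nm μ s ε x η 0 n1 n2 y} := by
  have hE : MeasurableSet {η : Env | q * W μ s η 0 (n1 + n2) y ≤ Nm μ s ε x η 0 n1 n2 y} :=
    measurableSet_le (measurable_const.mul (measurable_W _ _ _)) (Nm_meas ε x 0 n1 n2 y)
  rw [← real_sh (μ := μ) a hE]
  congr 1
  ext η
  simp only [Set.mem_ofPred_eq, Nm_sh, W_sh, zero_add]

/-- A failure at `a` reads the rows `(a.1, a.1 + n1 + n2]` only. -/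
theorem Nm_dep (ε x q : ℝ) (a : Pt) (n1 n2 : ℕ) (y : ℤ) :
    DependsOn (fun η : Env => q * W μ s η a (n1 + n2) y ≤ Nm μ s ε x η a n1 n2 y)
      {p : Pt | a.1 < p.1 ∧ p.1 ≤ a.1 + n1 + n2} := by
  intro η η' h
  have hW : ∀ (b : Pt) (n : ℕ) (z : ℤ), a.1 ≤ b.1 → b.1 + n ≤ a.1 + n1 + n2 →
      W μ s η b n z = W μ s η' b n z := by
    intro b n z hb hn
    refine W_dep b n z fun p hp => h p ?_
    obtain ⟨h1, h2, -⟩ := hp
    exact ⟨by omega, by omega⟩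
  have e1 := hW a (n1 + n2) y le_rfl (by push_cast; omega)
  have e2 : Nm μ s ε x η a n1 n2 y = Nm μ s ε x η' a n1 n2 y := by
    unfold Nm
    refine sum_congr rfl fun k _ => ?_
    rw [hW a n1 k le_rfl (by omega), hW (a.1 + n1, a.2 + k) n2 (y - k) (by simp) (by simp)]
  simp only [e1, e2]

/-! ### one annulus -/

/-- The mass (starting profile `f` on `A` at the row `r0`, final profile `F` on `B` at the row `r0 + n`) of the
paths whose displacement at the row `r0 + t`, in the frame through `x0`, is at least `D` on the side `ε`. -/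
def Ms (μ : Measure ℝ) (s : ℝ) (η : Env) (r0 : ℤ) (n : ℕ) (A B Xw : Finset ℤ) (f F : ℤ → ℝ) (x0 ε : ℝ) (t : ℕ)
    (D : ℝ) : ℝ :=
  mass μ s η r0 n A B Xw f F t (fun x => D ≤ ε * ((x : ℝ) - x0 - sl μ s * t))

/-- The total mass. -/
def Tot (μ : Measure ℝ) (s : ℝ) (η : Env) (r0 : ℤ) (n : ℕ) (A B : Finset ℤ) (f F : ℤ → ℝ) : ℝ :=
  ∑ a ∈ A, ∑ b ∈ B, f a * W μ s η (r0, a) n (b - a) * F b

variable {η : Env} {r0 : ℤ} {n : ℕ} {A B Xw : Finset ℤ} {f F : ℤ → ℝ} {x0 ε : ℝ}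

theorem win88 (hX : ∀ a ∈ A, Icc a (a + (n : ℕ)) ⊆ Xw) {t : ℕ} (ht : t ≤ n) :
    ∀ a ∈ A, Icc a (a + (t : ℕ)) ⊆ Xw := fun a ha =>
  (Icc_subset_Icc_right (by omega)).trans (hX a ha)

theorem tot_row (hX : ∀ a ∈ A, Icc a (a + (n : ℕ)) ⊆ Xw) {t : ℕ} (ht : t ≤ n) :
    mass μ s η r0 n A B Xw f F t (fun _ => True) = Tot μ s η r0 n A B f F :=
  mass_total ht (win88 hX ht)

theorem Ms_nonneg (hf : ∀ a ∈ A, 0 ≤ f a) (hF : ∀ b ∈ B, 0 ≤ F b) (t : ℕ) (D : ℝ) :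
    0 ≤ Ms μ s η r0 n A B Xw f F x0 ε t D := mass_nonneg hf hF _

theorem Tot_nonneg (hf : ∀ a ∈ A, 0 ≤ f a) (hF : ∀ b ∈ B, 0 ≤ F b) : 0 ≤ Tot μ s η r0 n A B f F :=
  sum_nonneg fun a ha => sum_nonneg fun b hb =>
    mul_nonneg (mul_nonneg (hf a ha) (W_nonneg η _ _ _)) (hF b hb)

theorem Ms_anti (hf : ∀ a ∈ A, 0 ≤ f a) (hF : ∀ b ∈ B, 0 ≤ F b) (t : ℕ) {D D' : ℝ} (h : D ≤ D') :
    Ms μ s η r0 n A B Xw f F x0 ε t D' ≤ Ms μ s η r0 n A B Xw f F x0 ε t D :=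
  mass_mono hf hF fun _ hx => h.trans hx

theorem Ms_le (hf : ∀ a ∈ A, 0 ≤ f a) (hF : ∀ b ∈ B, 0 ≤ F b) (hX : ∀ a ∈ A, Icc a (a + (n : ℕ)) ⊆ Xw)
    {t : ℕ} (ht : t ≤ n) (D : ℝ) : Ms μ s η r0 n A B Xw f F x0 ε t D ≤ Tot μ s η r0 n A B f F := by
  rw [← tot_row (η := η) (r0 := r0) (B := B) (f := f) (F := F) hX ht]
  exact mass_mono hf hF fun _ _ => trivial

theorem Ms_zero (h0 : 0 ≤ sl μ s) (h1 : sl μ s ≤ 1) (hε : ε = 1 ∨ ε = -1) {e0 : ℝ}
    (hA : ∀ a ∈ A, |(a : ℝ) - x0| ≤ e0) {t : ℕ} {D : ℝ} (hD : (t : ℝ) + e0 < D) :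
    Ms μ s η r0 n A B Xw f F x0 ε t D = 0 := by
  unfold Ms mass
  refine sum_eq_zero fun x hx => ?_
  rw [mem_filter] at hx
  rw [fw_zero, zero_mul]
  intro a ha hh
  have h2 : (a : ℝ) ≤ x := by exact_mod_cast hh.1
  have h3 : (x : ℝ) ≤ a + t := by exact_mod_cast hh.2
  have ht0 : (0 : ℝ) ≤ t := Nat.cast_nonneg _
  have h4 : 0 ≤ sl μ s * t := mul_nonneg h0 ht0
  have h5 : sl μ s * t ≤ t := by nlinarith
  have h6 := hx.2
  have h7 := abs_le.mp (hA a ha)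
  rcases hε with rfl | rfl
  · linarith [h7.2]
  · linarith [h7.1]

/-- **(Q1) One annulus** (a node in general position) : the centre `X'` is a real number at distance `≤ e` from
the frame at the middle row. -/
theorem ann88 (hε : ε = 1 ∨ ε = -1) (hf : ∀ a ∈ A, 0 ≤ f a) (hF : ∀ b ∈ B, 0 ≤ F b)
    (hX : ∀ a ∈ A, Icc a (a + (n : ℕ)) ⊆ Xw) {t0 n1 n2 : ℕ} (hn : t0 + n1 + n2 ≤ n)
    {D D' X' e q x1 p : ℝ} (he : |X' - (x0 + sl μ s * ((t0 + n1 : ℕ) : ℝ))| ≤ e) (hD : D' + e ≤ D)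
    (h1 : D / 4 + e ≤ 7 / 8 * D') (h2 : 4 * q * D + e ≤ 16 * q * D') {a b : ℤ}
    (ha : a = off ε (X' - sl μ s * n1 + ε * (7 / 8 * D'))) (hb : b = off ε (X' + sl μ s * n2 + ε * (16 * q * D')))
    (hab : 0 ≤ b - a) (hba : b - a ≤ n1 + n2) (hx1 : x1 * n1 ≤ D' / 8)
    (hNm : Nm μ s ε x1 η (r0 + t0, a) n1 n2 (b - a) ≤ p * W μ s η (r0 + t0, a) (n1 + n2) (b - a)) :
    Ms μ s η r0 n A B Xw f F x0 ε (t0 + n1) D ≤
      Ms μ s η r0 n A B Xw f F x0 ε t0 (D / 4) +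
      Ms μ s η r0 n A B Xw f F x0 ε (t0 + n1 + n2) (4 * q * D) + p * Tot μ s η r0 n A B f F := by
  obtain ⟨m, rfl⟩ : ∃ m, n = t0 + n1 + n2 + m := ⟨n - (t0 + n1 + n2), by omega⟩
  have hX2 := win88 hX (t := t0 + n1 + n2) (by omega)
  rw [← tot_row (η := η) (r0 := r0) (B := B) (f := f) (F := F) hX (show t0 ≤ t0 + n1 + n2 + m by omega)]
  obtain ⟨he1, he2⟩ := abs_le.mp he
  push_cast at he1 he2
  rcases hε with rfl | rfl
  · have ha' : a = ⌊X' - sl μ s * n1 + 1 * (7 / 8 * D')⌋ := ha.trans (if_pos rfl)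
    have hb' : b = ⌊X' + sl μ s * n2 + 1 * (16 * q * D')⌋ := hb.trans (if_pos rfl)
    have fa := Int.floor_le (X' - sl μ s * n1 + 1 * (7 / 8 * D'))
    rw [← ha'] at fa
    have h := hrecN88 (μ := μ) (s := s) (η := η) (r := r0) (A := A) (B := B) (X := Xw) (f := f) (F := F)
      (t0 := t0) (n1 := n1) (n2 := n2) (m := m) hf hF hX2 (a0 := a) (b0 := b)
      (z0 := ⌈x0 + sl μ s * ((t0 + n1 : ℕ) : ℝ) + D⌉) (p := p) (x := x1) (by omega) (by omega)
      (by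
        push_cast
        have h3 := Int.le_ceil (x0 + sl μ s * ((t0 + n1 : ℕ) : ℝ) + D)
        push_cast at h3
        nlinarith)
      hNm
    refine le_trans ?_ (h.trans (add_le_add (add_le_add ?_ ?_) le_rfl))
    · refine mass_mono hf hF fun x hx => ?_
      rw [Int.ceil_le]
      push_cast at hx ⊢
      linarith
    · refine mass_mono hf hF fun x hx => ?_
      rw [ha', Int.floor_lt] at hx
      linarith
    · refine mass_mono hf hF fun x hx => ?_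
      rw [hb', Int.floor_lt] at hx
      push_cast
      linarith
  · have hne : ¬ ((-1 : ℝ) = 1) := by norm_num
    have ha' : a = ⌈X' - sl μ s * n1 + -1 * (7 / 8 * D')⌉ := ha.trans (if_neg hne)
    have hb' : b = ⌈X' + sl μ s * n2 + -1 * (16 * q * D')⌉ := hb.trans (if_neg hne)
    have fa := Int.le_ceil (X' - sl μ s * n1 + -1 * (7 / 8 * D'))
    rw [← ha'] at fa
    have h := hrecN88' (μ := μ) (s := s) (η := η) (r := r0) (A := A) (B := B) (X := Xw) (f := f) (F := F)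
      (t0 := t0) (n1 := n1) (n2 := n2) (m := m) hf hF hX2 (a0 := a) (b0 := b)
      (z0 := ⌊x0 + sl μ s * ((t0 + n1 : ℕ) : ℝ) - D⌋) (p := p) (x := x1) (by omega) (by omega)
      (by
        push_cast
        have h3 := Int.floor_le (x0 + sl μ s * ((t0 + n1 : ℕ) : ℝ) - D)
        push_cast at h3
        nlinarith)
      hNm
    refine le_trans ?_ (h.trans (add_le_add (add_le_add ?_ ?_) le_rfl))
    · refine mass_mono hf hF fun x hx => ?_
      rw [Int.le_floor]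
      push_cast at hx ⊢
      linarith
    · refine mass_mono hf hF fun x hx => ?_
      rw [ha', Int.lt_ceil] at hx
      linarith
    · refine mass_mono hf hF fun x hx => ?_
      rw [hb', Int.lt_ceil] at hx
      push_cast
      linarith

/-! ### time reversal -/

theorem rv_sh88 (a : Pt) (η : Env) : sh a (rv 0 η) = rv (-a) η := by
  funext p
  unfold sh rv
  congr 1
  abel

/-- The weights of the reversed environment. -/
theorem W_rev88 (η : Env) (r x z : ℤ) (n : ℕ) :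
    W μ s (rv 0 η) (-(r + n), -z) n (-x - -z) * Real.exp (η (r + n, z)) =
      W μ s η (r, x) n (z - x) * Real.exp (η (r, x)) := by
  have e0 : W μ s (rv 0 η) (-(r + n), -z) n (-x - -z) = W μ s (rv (r + n, z) η) 0 n (z - x) := by
    have h := W_sh (μ := μ) (s := s) (rv 0 η) 0 (-(r + n), -z) n (z - x)
    rw [zero_add] at h
    have e1 : -x - -z = z - x := by ring
    rw [e1, ← h, rv_sh88]
    congr 2
    ext <;> simp
  rw [e0]
  have h2 := Zr_rev η ((r + n, z) : Pt) n (z - x)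
  have e2 : ((((r + n, z) : Pt).1 - n, ((r + n, z) : Pt).2 - (z - x)) : Pt) = (r, x) := by
    ext <;> simp
  rw [e2] at h2
  unfold W WR
  calc _ = Real.exp (s * ((z - x : ℤ) : ℝ) - n * lam μ s) *
        (Real.exp (η (r + n, z)) * Zr Set.univ (rv (r + n, z) η) 0 n (z - x)) := by ring
    _ = Real.exp (s * ((z - x : ℤ) : ℝ) - n * lam μ s) *
        (Real.exp (η (r, x)) * Zr Set.univ η (r, x) n (z - x)) := by rw [← h2]
    _ = _ := by ring

/-- **(Q3) Time reversal of the masses.** -/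
theorem mass_rev88 (η : Env) (c : Pt) {n t : ℕ} (ht : t ≤ n) (A X : Finset ℤ) (f : ℤ → ℝ) (P : ℤ → Prop)
    [DecidablePred P] :
    mass μ s η (c.1 - n) n A {c.2} X f (fun _ => 1) (n - t) P =
      Real.exp (η c) * mass μ s (rv 0 η) (-c.1) n {-c.2} (A.image fun a => -a) (X.image fun a => -a)
        (fun _ => 1) (fun b => f (-b) * Real.exp (-(η (c.1 - n, -b)))) t (fun x => P (-x)) := by
  unfold mass
  rw [mul_sum]
  refine sum_nbij' (fun x => -x) (fun x => -x) ?_ ?_ ?_ ?_ ?_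
  · intro x hx
    rw [mem_filter] at hx ⊢
    exact ⟨mem_image_of_mem _ hx.1, by simpa only [neg_neg] using hx.2⟩
  · intro x hx
    rw [mem_filter, mem_image] at hx
    obtain ⟨⟨y, hy, rfl⟩, h2⟩ := hx
    rw [mem_filter]
    rw [neg_neg] at h2 ⊢
    exact ⟨hy, h2⟩
  · intro x _; exact neg_neg x
  · intro x _; exact neg_neg x
  · intro x _
    have hinj : Set.InjOn (fun a : ℤ => -a) (A : Set ℤ) := fun a _ b _ h => neg_injective h
    unfold fw bw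
    rw [sum_singleton, sum_singleton, sum_image hinj, one_mul, mul_one]
    have ec : (c.1 : ℤ) - n + ((n - t : ℕ) : ℤ) = c.1 - t := by omega
    have en : n - (n - t) = t := by omega
    rw [ec, en]
    have h1 := W_rev88 (μ := μ) (s := s) η (c.1 - t) x c.2 t
    have e1 : c.1 - (t : ℤ) + t = c.1 := by ring
    rw [e1] at h1
    have h2 : ∀ a, W μ s (rv 0 η) (-c.1 + t, -x) (n - t) (-a - -x) * Real.exp (η (c.1 - t, x)) =
        W μ s η (c.1 - n, a) (n - t) (x - a) * Real.exp (η (c.1 - n, a)) := by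
      intro a
      have h := W_rev88 (μ := μ) (s := s) η (c.1 - n) a x (n - t)
      rw [ec] at h
      have e2 : -(c.1 - (t : ℤ)) = -c.1 + t := by ring
      rw [e2] at h
      exact h
    have p1 : Real.exp (η (c.1 - t, x)) ≠ 0 := (Real.exp_pos _).ne'
    rw [sum_mul]
    rw [mul_sum, mul_sum]
    refine sum_congr rfl fun a _ => ?_
    simp only [neg_neg]
    have h3 := h2 a
    have e3 : Real.exp (-(η (c.1 - n, a))) * Real.exp (η (c.1 - n, a)) = 1 := by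
      rw [← Real.exp_add, neg_add_cancel, Real.exp_zero]
    have ecc : Real.exp (η c) = Real.exp (η (c.1, c.2)) := rfl
    have key : (f a * W μ s η (c.1 - n, a) (n - t) (x - a) * W μ s η (c.1 - t, x) t (c.2 - x)) *
        Real.exp (η (c.1 - t, x)) =
        (Real.exp (η c) * (W μ s (rv 0 η) (-c.1, -c.2) t (-x - -c.2) *
          (W μ s (rv 0 η) (-c.1 + t, -x) (n - t) (-a - -x) * (f a * Real.exp (-(η (c.1 - n, a))))))) *
        Real.exp (η (c.1 - t, x)) := by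
      calc _ = f a * W μ s η (c.1 - n, a) (n - t) (x - a) *
            (W μ s η (c.1 - t, x) t (c.2 - x) * Real.exp (η (c.1 - t, x))) := by ring
        _ = f a * W μ s η (c.1 - n, a) (n - t) (x - a) *
            (W μ s (rv 0 η) (-c.1, -c.2) t (-x - -c.2) * Real.exp (η (c.1, c.2))) := by rw [h1]
        _ = f a * (W μ s η (c.1 - n, a) (n - t) (x - a) *
            (Real.exp (-(η (c.1 - n, a))) * Real.exp (η (c.1 - n, a)))) *
            (W μ s (rv 0 η) (-c.1, -c.2) t (-x - -c.2) * Real.exp (η (c.1, c.2))) := by rw [e3, mul_one]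
        _ = f a * Real.exp (-(η (c.1 - n, a))) *
            (W μ s η (c.1 - n, a) (n - t) (x - a) * Real.exp (η (c.1 - n, a))) *
            (W μ s (rv 0 η) (-c.1, -c.2) t (-x - -c.2) * Real.exp (η (c.1, c.2))) := by ring
        _ = f a * Real.exp (-(η (c.1 - n, a))) *
            (W μ s (rv 0 η) (-c.1 + t, -x) (n - t) (-a - -x) * Real.exp (η (c.1 - t, x))) *
            (W μ s (rv 0 η) (-c.1, -c.2) t (-x - -c.2) * Real.exp (η (c.1, c.2))) := by rw [h3]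
        _ = _ := by rw [ecc]; ring
    have := mul_right_cancel₀ p1 key
    rw [← this]

end

end Pool.Agent.W_7d29a1_C1.ArmQ88
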