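import Pool.Agent.W_7d29a1_C1.ArmD94
import Pool.Agent.W_7d29a1_C1.ArmQ88
import Pool.Agent.W_7d29a1_C1.ArmF94

/-!
MP_7d29a1_pr, C1, ARMS (helper94), part 10: THE NORMAL SCALES OF A SITE, for every profile at the top row.
-/

set_option autoImplicit false

namespace Pool.Agent.W_7d29a1_C1.H94

open MeasureTheory ProbabilityTheory Filter Topology Finset
open Pool.Agent.W_7d29a1_F Pool.Agent.W_7d29a1_h4g Pool.Agent.W_7d29a1_H Pool.Agent.W_7d29a1_HS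
open Pool.Agent.W_7d29a1_h47 (EM Nondeg)
open Pool.Agent.W_7d29a1_C1.ArmQ88

noncomputable section

variable {μ : Measure ℝ} [IsProbabilityMeasure μ] {s c₀ δ₁ c₁ A a g θ Y₁ : ℝ} {K0 Kb n₃ : ℕ}

/-- The constants, without hypotheses. -/
theorem cs94_all (hμ : EM μ) (hnd : Nondeg μ) (s : ℝ) : ∃ (c₀ δ₁ c₁ A a g θ : ℝ) (K0 : ℕ), ∀ Kb : ℕ, ∃ (n₃ : ℕ) (Y₁ : ℝ),
    Cs94 μ s c₀ δ₁ c₁ A a g θ Y₁ K0 Kb n₃ := by
  obtain ⟨c, C, n₀, K1, x₁, hF⟩ := fam94 hμ hnd s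
  exact cs94 hF

/-- **The normal scales of the polymer from `(r0, x0)`** with an arbitrary profile `F ≥ 0` at the row `r0 + T m`. -/
theorem norm_site94 (hC : Cs94 μ s c₀ δ₁ c₁ A a g θ Y₁ K0 Kb n₃) {T : ℕ → ℕ} {m j : ℕ} (hT0 : T 0 = 0) (hT1 : n₃ ≤ T 1)
    (hTK : ∀ i, 1 ≤ i → i < m → K0 * T i ≤ T (i + 1)) (hj1 : 1 ≤ j) (hjm : j < m) {η : Env} {r0 x0 : ℤ} {xc : ℕ → ℤ} {R : ℕ}
    (hR : 1 ≤ R) {Y : ℝ} (hY : 8 ≤ Y) (hY1 : Y₁ ≤ Y)
    (hnu : ∀ i, 1 ≤ i → i < m → nu μ s c₀ δ₁ Y (wd μ s (T i)) (wd μ s (T (i + 1)) / wd μ s (T i)) R (r0 + T (i - 1)) (T i - T (i - 1))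
      (T (i + 1) - T i) (xc i) η ≤ ((i : ℤ) - j).natAbs)
    (hX : ∀ i, 1 ≤ i → i < m → |(x0 : ℝ) + sl μ s * T i - xc i| ≤ (R : ℝ) ^ ((i : ℤ) - j).natAbs * wd μ s (T i))
    {ε : ℝ} (hε : ε = 1 ∨ ε = -1) {B Xw : Finset ℤ} {f F : ℤ → ℝ} (hf : 0 ≤ f x0) (hF : ∀ b ∈ B, 0 ≤ F b)
    (hXw : Icc x0 (x0 + (T m : ℕ)) ⊆ Xw) {Z : ℝ} (hZ : 2 * Y ≤ Z) :
    Ms μ s η r0 (T m) {x0} B Xw f F x0 ε (T j) (Z * wd μ s (T j)) ≤
      2 * T m * (Real.exp (-(c₁ * (Z * EE μ s (T j)))) * Tot μ s η r0 (T m) {x0} B f F +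
        Ms μ s η r0 (T m) {x0} B Xw f F x0 ε (T m) (4 ^ (m - j) * (Z * wd μ s (T m)))) := by
  obtain ⟨f1, f2, f3⟩ := T_facts hC hT0 hT1 hTK
  obtain ⟨s0, s1⟩ := sl_mem hC.em hC.nd s
  have hf' : ∀ a ∈ ({x0} : Finset ℤ), 0 ≤ f a := fun a ha => by
    rw [Finset.mem_singleton] at ha
    rw [ha]
    exact hf
  have hXw' : ∀ a ∈ ({x0} : Finset ℤ), Icc a (a + (T m : ℕ)) ⊆ Xw := fun a ha => by
    rw [Finset.mem_singleton] at ha
    rw [ha]
    exact hXw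
  have hfr : ∀ a ∈ ({x0} : Finset ℤ), |(a : ℝ) - x0| ≤ 0 := fun a ha => by
    rw [Finset.mem_singleton] at ha
    rw [ha, sub_self, abs_zero]
  have main := norm94 hC hT0 hT1 hTK hj1 hjm (η := η) (r0 := r0) (x0 := (x0 : ℝ)) (xc := xc) hR hY hY1 hnu hX hε
    (M := fun i D => if i ≤ m then Ms μ s η r0 (T m) {x0} B Xw f F x0 ε (T i) D else 0)
    (Tot := Tot μ s η r0 (T m) {x0} B f F) (Tot_nonneg hf' hF)
    (fun i D => by
      show 0 ≤ if i ≤ m then Ms μ s η r0 (T m) {x0} B Xw f F x0 ε (T i) D else 0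
      split_ifs
      · exact Ms_nonneg hf' hF _ _
      · exact le_rfl)
    (fun i D D' h => by
      show (if i ≤ m then Ms μ s η r0 (T m) {x0} B Xw f F x0 ε (T i) D' else 0) ≤
        if i ≤ m then Ms μ s η r0 (T m) {x0} B Xw f F x0 ε (T i) D else 0
      split_ifs
      · exact Ms_anti hf' hF _ h
      · exact le_rfl)
    (fun i hi D hD => by
      show (if i ≤ m then Ms μ s η r0 (T m) {x0} B Xw f F x0 ε (T i) D else 0) = 0
      rw [if_pos hi]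
      exact Ms_zero s0.le s1.le hε hfr (by rw [add_zero]; exact hD))
    (fun i hi1 him X' D' D p g1 g2 g3 g4 g5 g6 g7 => by
      show (if i ≤ m then Ms μ s η r0 (T m) {x0} B Xw f F x0 ε (T i) D else 0) ≤
        (if i - 1 ≤ m then Ms μ s η r0 (T m) {x0} B Xw f F x0 ε (T (i - 1)) (D / 4) else 0) +
        (if i + 1 ≤ m then Ms μ s η r0 (T m) {x0} B Xw f F x0 ε (T (i + 1)) (4 * (wd μ s (T (i + 1)) / wd μ s (T i)) * D) else 0) +
        p * Tot μ s η r0 (T m) {x0} B f F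
      rw [if_pos him.le, if_pos (by omega), if_pos (by omega)]
      have h01 : T (i - 1) ≤ T i := by
        have := f2 (i - 1) (by omega)
        rw [show i - 1 + 1 = i by omega] at this
        omega
      have h12 : T i ≤ T (i + 1) := by
        have := f2 i him
        omega
      have h2m := f3 (i + 1) (by omega)
      have e1 : T (i - 1) + (T i - T (i - 1)) = T i := by omega
      have e2 : T i + (T (i + 1) - T i) = T (i + 1) := by omega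
      have key := ann88 (μ := μ) (s := s) (η := η) (r0 := r0) (n := T m) (A := {x0}) (B := B) (Xw := Xw) (f := f) (F := F)
        (x0 := (x0 : ℝ)) (ε := ε) hε hf' hF hXw' (t0 := T (i - 1)) (n1 := T i - T (i - 1)) (n2 := T (i + 1) - T i) (by omega)
        (D := D) (D' := D') (X' := X') (e := |X' - ((x0 : ℝ) + sl μ s * T i)|) (q := wd μ s (T (i + 1)) / wd μ s (T i))
        (x1 := δ₁ * (D' / (T i - T (i - 1) : ℕ))) (p := p) (by rw [e1]) g1 g2 g3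
        (a := na μ s ε (T i - T (i - 1)) X' D') (b := nb μ s ε (T (i + 1) - T i) (wd μ s (T (i + 1)) / wd μ s (T i)) X' D')
        rfl rfl g4 (by push_cast at g5 ⊢; exact g5) g6 g7
      rw [e1, e2] at key
      exact key) hZ
  simp only [if_pos hjm.le, le_refl, if_true] at main
  exact main

end

end Pool.Agent.W_7d29a1_C1.H94
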