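import Pool.Agent.W_7d29a1_C1.ArmD94

/-!
MP_7d29a1_pr, C1, ARMS: helper94's `norm94` with a BASE LEVEL `l0` (helper84's text 81603): the levels of the nodes are at most
`|i - j| + l0` and the centres are at the distance at most `R ^ (|i - j| + l0)` units; the displacements start at `2 ^ (l0 + 1) Y` units.
(helper89)
-/

set_option autoImplicit false

namespace Pool.Agent.W_7d29a1_C1.ArmL89

open MeasureTheory ProbabilityTheory Filter Topology
open Pool.Agent.W_7d29a1_F Pool.Agent.W_7d29a1_h4g Pool.Agent.W_7d29a1_H Pool.Agent.W_7d29a1_HS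
open Pool.Agent.W_7d29a1_h47 (EM Nondeg)
open Pool.Agent.W_7d29a1_C1.H94

noncomputable section

variable {μ : Measure ℝ} [IsProbabilityMeasure μ] {s c₀ δ₁ c₁ A a g θ Y₁ : ℝ} {K0 Kb n₃ : ℕ}

/-- **The normal scales with a base level `l0`** (`l0 = 0` = `norm94`). -/
theorem norm94L (hC : Cs94 μ s c₀ δ₁ c₁ A a g θ Y₁ K0 Kb n₃) {T : ℕ → ℕ} {m j : ℕ} (hT0 : T 0 = 0) (hT1 : n₃ ≤ T 1)
    (hTK : ∀ i, 1 ≤ i → i < m → K0 * T i ≤ T (i + 1)) (hj1 : 1 ≤ j) (hjm : j < m) {η : Env} {r0 : ℤ} {x0 : ℝ} {xc : ℕ → ℤ} {R : ℕ}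
    (hR : 1 ≤ R) {Y : ℝ} (hY : 8 ≤ Y) (hY1 : Y₁ ≤ Y) {l0 : ℕ}
    (hnu : ∀ i, 1 ≤ i → i < m → nu μ s c₀ δ₁ Y (wd μ s (T i)) (wd μ s (T (i + 1)) / wd μ s (T i)) R (r0 + T (i - 1)) (T i - T (i - 1))
      (T (i + 1) - T i) (xc i) η ≤ ((i : ℤ) - j).natAbs + l0)
    (hX : ∀ i, 1 ≤ i → i < m → |x0 + sl μ s * T i - xc i| ≤ (R : ℝ) ^ (((i : ℤ) - j).natAbs + l0) * wd μ s (T i))
    {ε : ℝ} (hε : ε = 1 ∨ ε = -1) {M : ℕ → ℝ → ℝ} {Tot : ℝ} (hTot : 0 ≤ Tot) (h0 : ∀ i D, 0 ≤ M i D) (hanti : ∀ i, Antitone (M i))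
    (hz : ∀ i, i ≤ m → ∀ D, (T i : ℝ) < D → M i D = 0)
    (hM : ∀ i, 1 ≤ i → i < m → ∀ X' D' D p : ℝ, D' + |X' - (x0 + sl μ s * T i)| ≤ D → D / 4 + |X' - (x0 + sl μ s * T i)| ≤ 7 / 8 * D' →
      4 * (wd μ s (T (i + 1)) / wd μ s (T i)) * D + |X' - (x0 + sl μ s * T i)| ≤ 16 * (wd μ s (T (i + 1)) / wd μ s (T i)) * D' →
      0 ≤ nb μ s ε (T (i + 1) - T i) (wd μ s (T (i + 1)) / wd μ s (T i)) X' D' - na μ s ε (T i - T (i - 1)) X' D' →
      nb μ s ε (T (i + 1) - T i) (wd μ s (T (i + 1)) / wd μ s (T i)) X' D' - na μ s ε (T i - T (i - 1)) X' D' ≤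
        ((T i - T (i - 1)) + (T (i + 1) - T i) : ℕ) →
      δ₁ * (D' / (T i - T (i - 1) : ℕ)) * (T i - T (i - 1) : ℕ) ≤ D' / 8 →
      Nm μ s ε (δ₁ * (D' / (T i - T (i - 1) : ℕ))) η (r0 + T (i - 1), na μ s ε (T i - T (i - 1)) X' D') (T i - T (i - 1))
          (T (i + 1) - T i) (nb μ s ε (T (i + 1) - T i) (wd μ s (T (i + 1)) / wd μ s (T i)) X' D' - na μ s ε (T i - T (i - 1)) X' D') ≤
        p * W μ s η (r0 + T (i - 1), na μ s ε (T i - T (i - 1)) X' D') ((T i - T (i - 1)) + (T (i + 1) - T i))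
          (nb μ s ε (T (i + 1) - T i) (wd μ s (T (i + 1)) / wd μ s (T i)) X' D' - na μ s ε (T i - T (i - 1)) X' D') →
      M i D ≤ M (i - 1) (D / 4) + M (i + 1) (4 * (wd μ s (T (i + 1)) / wd μ s (T i)) * D) + p * Tot)
    {Z : ℝ} (hZL : 2 ^ (l0 + 1) * Y ≤ Z) :
    M j (Z * wd μ s (T j)) ≤ 2 * T m * (Real.exp (-(c₁ * (Z * EE μ s (T j)))) * Tot + M m (4 ^ (m - j) * (Z * wd μ s (T m)))) := by
  obtain ⟨f1, f2, f3⟩ := T_facts hC hT0 hT1 hTK
  have hn := hC.n1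
  have hδ := hC.δ0
  have hδ1 := hC.δ1
  have hY0 : 0 < Y := by linarith
  have h2l : (1 : ℝ) ≤ 2 ^ l0 := one_le_pow₀ one_le_two
  have hZ' : 2 ^ l0 * (2 * Y) ≤ Z := by
    rw [pow_succ] at hZL
    linarith
  have hZ : 2 * Y ≤ Z := by
    have h := mul_le_mul_of_nonneg_right h2l (show 0 ≤ 2 * Y by linarith)
    linarith
  have hZ0 : 0 < Z := by linarith
  have hTm : 1 ≤ T m := hn.trans (f1 m (by omega) le_rfl)
  obtain ⟨Dep, hD1, hD2⟩ := dep94 hTm
  have hw : ∀ i, 1 ≤ i → i ≤ m → 2 ≤ wd μ s (T i) := fun i h1 h2 => hC.wd2 _ (f1 i h1 h2)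
  have hw1 := hw 1 le_rfl (by omega)
  have ew : ∀ i, 1 ≤ i → wT μ s T i = wd μ s (T i) := fun i hi => by
    unfold wT
    rw [if_neg (by omega)]
  have ew0 : wT μ s T 0 = wd μ s (T 1) / 16 := by
    unfold wT
    rw [if_pos rfl]
  obtain ⟨P, hP⟩ : ∃ P, P = Real.exp (-(c₁ * (Z * EE μ s (T j)))) * Tot := ⟨_, rfl⟩
  have hP0 : 0 ≤ P := by rw [hP]; positivity
  have main := ArmC89.norm89 (M := M) (w := wT μ s T) (T := fun i => (T i : ℝ)) (m := m) (j := j) (Dep := Dep)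
    (xi := fun i => ((i : ℤ) - j).natAbs) (Y := Z) (P := P) (Q := M m (4 ^ (m - j) * (Z * wd μ s (T m)))) hP0 h0 hanti hz
    (by rw [ew0]; linarith)
    (by
      intro i hi
      rcases Nat.eq_zero_or_pos i with h | h
      · subst h
        rw [ew0, ew 1 le_rfl]
        linarith
      · rw [ew i h, ew (i + 1) (by omega)]
        exact (hC.wd16 _ _ (f1 i h hi.le) (hTK i h hi)).2)
    hZ0
    (by
      show ((T 0 : ℕ) : ℝ) < Z * wT μ s T 0
      rw [hT0, ew0]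
      have : 0 < Z * (wd μ s (T 1) / 16) := mul_pos hZ0 (by linarith)
      simpa using this)
    hjm
    (by
      intro i _ _
      exact le_of_eq (Int.natCast_natAbs _))
    (by
      intro i hi1 him D hDa hDb hDc hDT
      rw [ew i hi1] at hDa hDb ⊢
      rw [ew j hj1] at hDc
      rw [ew (i + 1) (by omega)]
      obtain ⟨t0, ht0⟩ : ∃ t0, t0 = T (i - 1) := ⟨_, rfl⟩
      have h01 : 4 * t0 ≤ T i := by
        have := f2 (i - 1) (by omega)
        rwa [show i - 1 + 1 = i by omega, ← ht0] at this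
      obtain ⟨m1, m2, m3, m4, m5⟩ := node_num hC h01 (f1 i hi1 him.le) (hTK i hi1 him)
      have hnu' := hnu i hi1 him
      have hX' := hX i hi1 him
      have hMi := hM i hi1 him
      rw [← ht0] at hnu' hMi
      obtain ⟨n1, hn1⟩ : ∃ n1, n1 = T i - t0 := ⟨_, rfl⟩
      rw [← hn1] at m1 m3 m5 hnu' hMi
      obtain ⟨w, hw'⟩ : ∃ w, w = wd μ s (T i) := ⟨_, rfl⟩
      obtain ⟨q, hq⟩ : ∃ q, q = wd μ s (T (i + 1)) / wd μ s (T i) := ⟨_, rfl⟩
      rw [← hq] at m4 m5 hnu' hMi ⊢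
      rw [← hw'] at hnu' hX' hDa hDb
      have hw2 : 2 ≤ w := by rw [hw']; exact hw i hi1 him.le
      have hTi2 : (T i : ℝ) ≤ 2 * n1 := by exact_mod_cast m3
      have hDl : 2 ^ (((i : ℤ) - j).natAbs + l0) * (2 * Y * w) ≤ D := by
        have e : (2 : ℝ) ^ (((i : ℤ) - j).natAbs + l0) * (2 * Y * w) = 2 ^ ((i : ℤ) - j).natAbs * (2 ^ l0 * (2 * Y) * w) := by
          rw [pow_add]
          ring
        rw [e]
        refine le_trans (mul_le_mul_of_nonneg_left ?_ (by positivity)) hDa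
        exact mul_le_mul_of_nonneg_right hZ' (by linarith)
      obtain ⟨X', D', g1, g2, g3, g4, g5, g6⟩ := nu_all hY (show 0 < w by linarith) m4 hR _ _ _ _ _ hnu' hX' hDl
        (hDT.trans hTi2) hε
      have hD'0 : 2 ≤ D' := by
        rw [le_div_iff₀ (by linarith)] at g5
        linarith
      have hD'D : D' ≤ D := by linarith [abs_nonneg (X' - (x0 + sl μ s * T i))]
      have hn1r : (0 : ℝ) < n1 := by exact_mod_cast (by omega : 0 < n1)
      obtain ⟨k1, k2⟩ := hC.geo n1 (T (i + 1) - T i) m1 m2 q X' D' m4 m5 hD'0 (by linarith) ε hε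
      unfold NodI at g6
      have hfin := hMi X' D' D _ g1 g2 g3 k1 k2 (by
        have e : δ₁ * (D' / n1) * n1 = δ₁ * D' := by field_simp
        rw [e]
        have := mul_le_mul_of_nonneg_right hδ1 (show 0 ≤ D' by linarith)
        linarith) g6
      have hrate := hC.rate T m hT1 hTK i j hi1 hj1 him hjm Z D D' (by linarith) hDT (by rw [← hw']; exact hDb) (by
          have e : (|(i : ℤ) - j|).toNat = ((i : ℤ) - j).natAbs := by rw [Int.abs_eq_natAbs, Int.toNat_natCast]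
          rw [e] at hDc
          exact hDc) (by linarith) (by linarith) hD'D ε hε n1 m3 (by rw [hn1]; exact Nat.sub_le _ _)
      have hpP : Real.exp (-(c₀ * ((n1 : ℝ) * J μ s (ε * (δ₁ * (D' / n1)))))) * Tot ≤ P := by
        rw [hP]
        exact mul_le_mul_of_nonneg_right (Real.exp_le_exp.2 (neg_le_neg hrate)) hTot
      linarith)
    (by
      intro i hi
      rcases Nat.eq_zero_or_pos i with h | h
      · subst h
        show ((T 0 : ℕ) : ℝ) < _
        rw [hT0, ew0]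
        have : 0 < 4 ^ Dep * (Z * (wd μ s (T 1) / 16)) := mul_pos (by positivity) (mul_pos hZ0 (by linarith))
        simpa using this
      · show ((T i : ℕ) : ℝ) < _
        rw [ew i h]
        have h1 : (T i : ℝ) ≤ T m := by exact_mod_cast f3 i hi.le
        have h2 : 1 ≤ Z * wd μ s (T i) := by
          have h3 := hw i h hi.le
          have h4 : 1 * 1 ≤ Z * wd μ s (T i) := mul_le_mul (by linarith) (by linarith) zero_le_one hZ0.le
          linarith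
        have h5 : (4 : ℝ) ^ Dep * 1 ≤ 4 ^ Dep * (Z * wd μ s (T i)) := mul_le_mul_of_nonneg_left h2 (by positivity)
        linarith)
    (by rw [ew m (by omega)])
  rw [ew j hj1] at main
  refine main.trans ?_
  rw [← hP]
  exact mul_le_mul_of_nonneg_right hD2 (add_nonneg hP0 (h0 _ _))

end

end Pool.Agent.W_7d29a1_C1.ArmL89
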