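import Pool.Agent.W_7d29a1_F.CoreD1

/-!
MP_7d29a1_pr, attractor route [C1], ARMS (board 76007): THE PLANAR PART. (helper88)

Three rows `r0 < r1 < r2`.  A path which at `r0` is `≤ a0` and at `r2` is `≤ b0` is, in the conditional law
given its two positions, stochastically below the point to point polymer `a0 → b0` (LGV, `W_tp2`).  Hence for
ARBITRARY nonnegative weights `f` (what happens before `r0`) and `F` (what happens after `r2`):

`Mass (S_{r1} ≥ z0) ≤ Mass (S_{r0} > a0) + Mass (S_{r2} > b0) + p Mass (all)`,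

`p = ` the polymer `a0 → b0` puts at most the part `p` of its mass on `z ≥ z0`.

* `TN M` : nonnegative kernel with nonnegative minors (`TN_W` : the weights of a slab);
* `dom88`, `dom88'` : stochastic domination, two products, and its mirror image;
* `prof88`, `prof88'` : the three row inequality, any finite windows, and its mirror image;
* `fw`, `bw`, `mass` : a polymer with a starting profile `f` on `A` and a final profile `F` on `B`;
  `mass_total`, `hrec88`, `hrec88'` : the inequality for its one row masses.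
-/

set_option autoImplicit false

namespace Pool.Agent.W_7d29a1_C1.ArmP88

open Finset Pool.Agent.W_7d29a1_F MeasureTheory

noncomputable section

/-! ### abstract kernels -/

/-- Nonnegative kernel with nonnegative minors. -/
def TN (M : ℤ → ℤ → ℝ) : Prop :=
  (∀ a z, 0 ≤ M a z) ∧ ∀ a a' z z', a ≤ a' → z ≤ z' → M a z' * M a' z ≤ M a z * M a' z'

theorem split_le {S : Finset ℤ} {P : ℤ → Prop} [DecidablePred P] {f g : ℤ → ℝ}
    (h : ∀ z ∈ S, P z → ∀ z' ∈ S, ¬ P z' → f z * g z' ≤ g z * f z') :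
    (∑ z ∈ S with P z, f z) * (∑ z ∈ S, g z) ≤ (∑ z ∈ S with P z, g z) * (∑ z ∈ S, f z) := by
  rw [← sum_filter_add_sum_filter_not S P g, ← sum_filter_add_sum_filter_not S P f, mul_add, mul_add]
  have h1 : (∑ z ∈ S with P z, f z) * (∑ z ∈ S with ¬ P z, g z) ≤
      (∑ z ∈ S with P z, g z) * (∑ z ∈ S with ¬ P z, f z) := by
    rw [sum_mul_sum, sum_mul_sum]
    refine sum_le_sum fun z hz => sum_le_sum fun z' hz' => ?_
    rw [mem_filter] at hz hz'
    exact h z hz.1 hz.2 z' hz'.1 hz'.2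
  have h2 : (∑ z ∈ S with P z, f z) * (∑ z ∈ S with P z, g z) =
      (∑ z ∈ S with P z, g z) * (∑ z ∈ S with P z, f z) := mul_comm _ _
  linarith

variable {M N : ℤ → ℤ → ℝ}

theorem term_le (hM : TN M) (hN : TN N) {a a0 b b0 z z' : ℤ} (ha : a ≤ a0) (hb : b ≤ b0) (hz : z' ≤ z) :
    (M a z * N z b) * (M a0 z' * N z' b0) ≤ (M a0 z * N z b0) * (M a z' * N z' b) := by
  have h1 := hM.2 a a0 z' z ha hz
  have h2 := hN.2 z' z b b0 hz hb
  have n1 : 0 ≤ M a z * M a0 z' := mul_nonneg (hM.1 _ _) (hM.1 _ _)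
  have n2 : 0 ≤ N z' b * N z b0 := mul_nonneg (hN.1 _ _) (hN.1 _ _)
  have n3 : 0 ≤ N z' b0 * N z b := mul_nonneg (hN.1 _ _) (hN.1 _ _)
  calc (M a z * N z b) * (M a0 z' * N z' b0) = (M a z * M a0 z') * (N z' b0 * N z b) := by ring
    _ ≤ (M a z' * M a0 z) * (N z' b * N z b0) :=
        mul_le_mul h1 h2 n3 (le_trans n1 h1)
    _ = (M a0 z * N z b0) * (M a z' * N z' b) := by ring

/-- **Stochastic domination** : `a ≤ a0`, `b ≤ b0`. -/
theorem dom88 (hM : TN M) (hN : TN N) {a a0 b b0 : ℤ} (ha : a ≤ a0) (hb : b ≤ b0) (S : Finset ℤ) (z0 : ℤ) :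
    (∑ z ∈ S with z0 ≤ z, M a z * N z b) * (∑ z ∈ S, M a0 z * N z b0) ≤
      (∑ z ∈ S with z0 ≤ z, M a0 z * N z b0) * (∑ z ∈ S, M a z * N z b) := by
  refine split_le (P := fun z => z0 ≤ z) (f := fun z => M a z * N z b) (g := fun z => M a0 z * N z b0) ?_
  intro z _ hz z' _ hz'
  exact term_le hM hN ha hb (by omega)

/-- The mirror image : `a0 ≤ a`, `b0 ≤ b`. -/
theorem dom88' (hM : TN M) (hN : TN N) {a a0 b b0 : ℤ} (ha : a0 ≤ a) (hb : b0 ≤ b) (S : Finset ℤ) (z0 : ℤ) :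
    (∑ z ∈ S with z ≤ z0, M a z * N z b) * (∑ z ∈ S, M a0 z * N z b0) ≤
      (∑ z ∈ S with z ≤ z0, M a0 z * N z b0) * (∑ z ∈ S, M a z * N z b) := by
  refine split_le (P := fun z => z ≤ z0) (f := fun z => M a z * N z b) (g := fun z => M a0 z * N z b0) ?_
  intro z _ hz z' _ hz'
  have := term_le hM hN (a := a0) (a0 := a) (b := b0) (b0 := b) (z := z') (z' := z) ha hb (by omega)
  linarith [this]

/-- The conditional part of the up set, from one pair of end points. -/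
theorem part88 (hM : TN M) (hN : TN N) {a a0 b b0 : ℤ} (ha : a ≤ a0) (hb : b ≤ b0) (S : Finset ℤ) (z0 : ℤ)
    {p : ℝ} (hp : ∑ z ∈ S with z0 ≤ z, M a0 z * N z b0 ≤ p * ∑ z ∈ S, M a0 z * N z b0)
    (h0 : 0 < ∑ z ∈ S, M a0 z * N z b0) :
    ∑ z ∈ S with z0 ≤ z, M a z * N z b ≤ p * ∑ z ∈ S, M a z * N z b := by
  have n0 : 0 ≤ ∑ z ∈ S, M a z * N z b := sum_nonneg fun z _ => mul_nonneg (hM.1 _ _) (hN.1 _ _)
  have h1 := dom88 hM hN ha hb S z0
  have h2 := mul_le_mul_of_nonneg_right hp n0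
  have h3 : (∑ z ∈ S with z0 ≤ z, M a z * N z b) * (∑ z ∈ S, M a0 z * N z b0) ≤
      (p * ∑ z ∈ S, M a z * N z b) * (∑ z ∈ S, M a0 z * N z b0) := by
    calc _ ≤ _ := h1
      _ ≤ _ := h2
      _ = _ := by ring
  exact le_of_mul_le_mul_right h3 h0

theorem part88' (hM : TN M) (hN : TN N) {a a0 b b0 : ℤ} (ha : a0 ≤ a) (hb : b0 ≤ b) (S : Finset ℤ) (z0 : ℤ)
    {p : ℝ} (hp : ∑ z ∈ S with z ≤ z0, M a0 z * N z b0 ≤ p * ∑ z ∈ S, M a0 z * N z b0)
    (h0 : 0 < ∑ z ∈ S, M a0 z * N z b0) :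
    ∑ z ∈ S with z ≤ z0, M a z * N z b ≤ p * ∑ z ∈ S, M a z * N z b := by
  have n0 : 0 ≤ ∑ z ∈ S, M a z * N z b := sum_nonneg fun z _ => mul_nonneg (hM.1 _ _) (hN.1 _ _)
  have h1 := dom88' hM hN ha hb S z0
  have h2 := mul_le_mul_of_nonneg_right hp n0
  have h3 : (∑ z ∈ S with z ≤ z0, M a z * N z b) * (∑ z ∈ S, M a0 z * N z b0) ≤
      (p * ∑ z ∈ S, M a z * N z b) * (∑ z ∈ S, M a0 z * N z b0) := by
    calc _ ≤ _ := h1
      _ ≤ _ := h2
      _ = _ := by ring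
  exact le_of_mul_le_mul_right h3 h0

/-- Any rule `part` for the good pairs gives the three row inequality. -/
theorem three_le {A B S : Finset ℤ} {f F : ℤ → ℝ} (hM : TN M) (hN : TN N) (hf : ∀ a ∈ A, 0 ≤ f a)
    (hF : ∀ b ∈ B, 0 ≤ F b) {P Qa Qb : ℤ → Prop} [DecidablePred P] [DecidablePred Qa] [DecidablePred Qb]
    {p : ℝ} (hp0 : 0 ≤ p)
    (hp : ∀ a ∈ A, ¬ Qa a → ∀ b ∈ B, ¬ Qb b →
      ∑ z ∈ S with P z, M a z * N z b ≤ p * ∑ z ∈ S, M a z * N z b) :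
    ∑ a ∈ A, ∑ z ∈ S with P z, ∑ b ∈ B, f a * M a z * N z b * F b ≤
      (∑ a ∈ A with Qa a, ∑ z ∈ S, ∑ b ∈ B, f a * M a z * N z b * F b) +
      (∑ a ∈ A, ∑ z ∈ S, ∑ b ∈ B with Qb b, f a * M a z * N z b * F b) +
      p * ∑ a ∈ A, ∑ z ∈ S, ∑ b ∈ B, f a * M a z * N z b * F b := by
  have sw : ∀ (A' B' S' : Finset ℤ), ∑ a ∈ A', ∑ z ∈ S', ∑ b ∈ B', f a * M a z * N z b * F b =
      ∑ a ∈ A', ∑ b ∈ B', (f a * F b) * ∑ z ∈ S', M a z * N z b := by
    intro A' B' S'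
    refine sum_congr rfl fun a _ => ?_
    rw [sum_comm]
    refine sum_congr rfl fun b _ => ?_
    rw [mul_sum]
    exact sum_congr rfl fun z _ => by ring
  rw [sw, sw, sw, sw]
  have e1 : ∑ a ∈ A with Qa a, ∑ b ∈ B, (f a * F b) * ∑ z ∈ S, M a z * N z b =
      ∑ a ∈ A, ∑ b ∈ B, if Qa a then (f a * F b) * ∑ z ∈ S, M a z * N z b else 0 := by
    rw [sum_filter]
    refine sum_congr rfl fun a _ => ?_
    split_ifs <;> simp
  have e2 : ∑ a ∈ A, ∑ b ∈ B with Qb b, (f a * F b) * ∑ z ∈ S, M a z * N z b =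
      ∑ a ∈ A, ∑ b ∈ B, if Qb b then (f a * F b) * ∑ z ∈ S, M a z * N z b else 0 := by
    refine sum_congr rfl fun a _ => ?_
    rw [sum_filter]
  rw [e1, e2, mul_sum, ← sum_add_distrib, ← sum_add_distrib]
  refine sum_le_sum fun a ha => ?_
  rw [mul_sum, ← sum_add_distrib, ← sum_add_distrib]
  refine sum_le_sum fun b hb => ?_
  have n0 : 0 ≤ ∑ z ∈ S, M a z * N z b := sum_nonneg fun z _ => mul_nonneg (hM.1 _ _) (hN.1 _ _)
  have nfF : 0 ≤ f a * F b := mul_nonneg (hf a ha) (hF b hb)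
  have hle : ∑ z ∈ S with P z, M a z * N z b ≤ ∑ z ∈ S, M a z * N z b :=
    sum_le_sum_of_subset_of_nonneg (filter_subset _ _) fun z _ _ => mul_nonneg (hM.1 _ _) (hN.1 _ _)
  have n1 : 0 ≤ (f a * F b) * ∑ z ∈ S, M a z * N z b := mul_nonneg nfF n0
  have n2 : 0 ≤ p * ((f a * F b) * ∑ z ∈ S, M a z * N z b) := mul_nonneg hp0 n1
  by_cases h1 : Qa a
  · have := mul_le_mul_of_nonneg_left hle nfF
    simp only [h1, if_true]
    split_ifs <;> linarith
  · by_cases h2 : Qb b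
    · have := mul_le_mul_of_nonneg_left hle nfF
      simp only [h1, h2, if_true, if_false]
      linarith
    · have h3 := mul_le_mul_of_nonneg_left (hp a ha h1 b hb h2) nfF
      simp only [h1, h2, if_false]
      have e3 : (f a * F b) * (p * ∑ z ∈ S, M a z * N z b) =
          p * ((f a * F b) * ∑ z ∈ S, M a z * N z b) := by ring
      linarith

/-- **The three row inequality**, arbitrary nonnegative weights before and after. -/
theorem prof88 (hM : TN M) (hN : TN N) {A B S : Finset ℤ} {f F : ℤ → ℝ} (hf : ∀ a ∈ A, 0 ≤ f a)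
    (hF : ∀ b ∈ B, 0 ≤ F b) {a0 b0 z0 : ℤ} {p : ℝ}
    (hp : ∑ z ∈ S with z0 ≤ z, M a0 z * N z b0 ≤ p * ∑ z ∈ S, M a0 z * N z b0)
    (h0 : 0 < ∑ z ∈ S, M a0 z * N z b0) :
    ∑ a ∈ A, ∑ z ∈ S with z0 ≤ z, ∑ b ∈ B, f a * M a z * N z b * F b ≤
      (∑ a ∈ A with a0 < a, ∑ z ∈ S, ∑ b ∈ B, f a * M a z * N z b * F b) +
      (∑ a ∈ A, ∑ z ∈ S, ∑ b ∈ B with b0 < b, f a * M a z * N z b * F b) +
      p * ∑ a ∈ A, ∑ z ∈ S, ∑ b ∈ B, f a * M a z * N z b * F b := by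
  have hp0 : 0 ≤ p := by
    by_contra hneg
    push Not at hneg
    have h1 : 0 ≤ ∑ z ∈ S with z0 ≤ z, M a0 z * N z b0 :=
      sum_nonneg fun z _ => mul_nonneg (hM.1 _ _) (hN.1 _ _)
    have h2 := mul_neg_of_neg_of_pos hneg h0
    linarith
  exact three_le hM hN hf hF hp0 fun a _ ha b _ hb =>
    part88 hM hN (not_lt.mp ha) (not_lt.mp hb) S z0 hp h0

/-- The mirror image. -/
theorem prof88' (hM : TN M) (hN : TN N) {A B S : Finset ℤ} {f F : ℤ → ℝ} (hf : ∀ a ∈ A, 0 ≤ f a)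
    (hF : ∀ b ∈ B, 0 ≤ F b) {a0 b0 z0 : ℤ} {p : ℝ}
    (hp : ∑ z ∈ S with z ≤ z0, M a0 z * N z b0 ≤ p * ∑ z ∈ S, M a0 z * N z b0)
    (h0 : 0 < ∑ z ∈ S, M a0 z * N z b0) :
    ∑ a ∈ A, ∑ z ∈ S with z ≤ z0, ∑ b ∈ B, f a * M a z * N z b * F b ≤
      (∑ a ∈ A with a < a0, ∑ z ∈ S, ∑ b ∈ B, f a * M a z * N z b * F b) +
      (∑ a ∈ A, ∑ z ∈ S, ∑ b ∈ B with b < b0, f a * M a z * N z b * F b) +
      p * ∑ a ∈ A, ∑ z ∈ S, ∑ b ∈ B, f a * M a z * N z b * F b := by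
  have hp0 : 0 ≤ p := by
    by_contra hneg
    push Not at hneg
    have h1 : 0 ≤ ∑ z ∈ S with z ≤ z0, M a0 z * N z b0 :=
      sum_nonneg fun z _ => mul_nonneg (hM.1 _ _) (hN.1 _ _)
    have h2 := mul_neg_of_neg_of_pos hneg h0
    linarith
  exact three_le hM hN hf hF hp0 fun a _ ha b _ hb =>
    part88' hM hN (not_lt.mp ha) (not_lt.mp hb) S z0 hp h0

/-! ### the weights of the polymer -/

section model

variable {μ : Measure ℝ} {s : ℝ}

theorem TN_W (η : Env) (r : ℤ) (n : ℕ) : TN fun a z => W μ s η (r, a) n (z - a) :=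
  ⟨fun _ _ => W_nonneg η _ n _, fun a a' z z' ha hz => W_tp2 η r a a' n z z' ha hz⟩

theorem W_out (η : Env) (r : ℤ) (n : ℕ) {x z : ℤ} (h : ¬ (x ≤ z ∧ z ≤ x + n)) :
    W μ s η (r, x) n (z - x) = 0 :=
  W_eq_zero η _ (by omega)

/-- Composition over any window which contains the reachable sites. -/
theorem W_comp (η : Env) (r : ℤ) (m n : ℕ) (x y : ℤ) (S : Finset ℤ) (hS : Icc x (x + m) ⊆ S) :
    ∑ z ∈ S, W μ s η (r, x) m (z - x) * W μ s η (r + m, z) n (y - z) = W μ s η (r, x) (m + n) (y - x) := by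
  rw [W_add]
  symm
  have h1 : ∑ k ∈ Icc (0 : ℤ) m, W μ s η (r, x) m k *
      W μ s η (((r, x) : Pt).1 + m, ((r, x) : Pt).2 + k) n (y - x - k) =
      ∑ z ∈ Icc x (x + m), W μ s η (r, x) m (z - x) * W μ s η (r + m, z) n (y - z) := by
    refine sum_nbij' (fun k => x + k) (fun y => y - x) ?_ ?_ ?_ ?_ ?_
    · intro k hk
      rw [mem_Icc] at hk ⊢
      constructor <;> omega
    · intro y hy
      rw [mem_Icc] at hy ⊢
      constructor <;> omega
    · intro k _; ring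
    · intro y _; ring
    · intro k _
      have e1 : x + k - x = k := by ring
      have e2 : y - (x + k) = y - x - k := by ring
      simp only [e1, e2]
  rw [h1]
  refine sum_subset hS fun z _ hz => ?_
  rw [mem_Icc] at hz
  rw [W_out (μ := μ) (s := s) η r m hz, zero_mul]

/-- Forward weight : starting profile `f` on `A` at the row `r`, `t` rows later at `x`. -/
def fw (μ : Measure ℝ) (s : ℝ) (η : Env) (r : ℤ) (A : Finset ℤ) (f : ℤ → ℝ) (t : ℕ) (x : ℤ) : ℝ :=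
  ∑ a ∈ A, f a * W μ s η (r, a) t (x - a)

/-- Backward weight : from `x` at the row `r`, `t` rows before the final profile `F` on `B`. -/
def bw (μ : Measure ℝ) (s : ℝ) (η : Env) (r : ℤ) (B : Finset ℤ) (F : ℤ → ℝ) (t : ℕ) (x : ℤ) : ℝ :=
  ∑ b ∈ B, W μ s η (r, x) t (b - x) * F b

theorem fw_nonneg {η : Env} {r : ℤ} {A : Finset ℤ} {f : ℤ → ℝ} (hf : ∀ a ∈ A, 0 ≤ f a) (t : ℕ) (x : ℤ) :
    0 ≤ fw μ s η r A f t x := sum_nonneg fun a ha => mul_nonneg (hf a ha) (W_nonneg η _ _ _)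

theorem bw_nonneg {η : Env} {r : ℤ} {B : Finset ℤ} {F : ℤ → ℝ} (hF : ∀ b ∈ B, 0 ≤ F b) (t : ℕ) (x : ℤ) :
    0 ≤ bw μ s η r B F t x := sum_nonneg fun b hb => mul_nonneg (W_nonneg η _ _ _) (hF b hb)

theorem fw_comp {η : Env} {r : ℤ} {A : Finset ℤ} {f : ℤ → ℝ} {t m : ℕ} {X : Finset ℤ}
    (hX : ∀ a ∈ A, Icc a (a + t) ⊆ X) (z : ℤ) :
    fw μ s η r A f (t + m) z = ∑ x ∈ X, fw μ s η r A f t x * W μ s η (r + t, x) m (z - x) := by
  unfold fw
  simp_rw [sum_mul]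
  rw [sum_comm]
  refine sum_congr rfl fun a ha => ?_
  rw [← W_comp (μ := μ) (s := s) η r t m a z X (hX a ha), mul_sum]
  exact sum_congr rfl fun x _ => by ring

theorem bw_comp {η : Env} {r : ℤ} {B : Finset ℤ} {F : ℤ → ℝ} {t m : ℕ} {X : Finset ℤ} {x : ℤ}
    (hX : Icc x (x + m) ⊆ X) :
    bw μ s η r B F (m + t) x = ∑ z ∈ X, W μ s η (r, x) m (z - x) * bw μ s η (r + m) B F t z := by
  unfold bw
  simp_rw [mul_sum]
  rw [sum_comm]
  refine sum_congr rfl fun b _ => ?_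
  rw [← W_comp (μ := μ) (s := s) η r m t x b X hX, sum_mul]
  exact sum_congr rfl fun z _ => by ring

theorem fw_zero {η : Env} {r : ℤ} {A : Finset ℤ} {f : ℤ → ℝ} {t : ℕ} {x : ℤ}
    (h : ∀ a ∈ A, ¬ (a ≤ x ∧ x ≤ a + t)) : fw μ s η r A f t x = 0 := by
  unfold fw
  refine sum_eq_zero fun a ha => ?_
  rw [W_out (μ := μ) (s := s) η r t (h a ha), mul_zero]

/-- Mass of the paths (starting profile `f` on `A` at the row `r`, final profile `F` on `B` at the row `r + n`)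
whose position at the row `r + t` satisfies `P`; `X` = window of the sums. -/
def mass (μ : Measure ℝ) (s : ℝ) (η : Env) (r : ℤ) (n : ℕ) (A B X : Finset ℤ) (f F : ℤ → ℝ) (t : ℕ)
    (P : ℤ → Prop) [DecidablePred P] : ℝ :=
  ∑ x ∈ X with P x, fw μ s η r A f t x * bw μ s η (r + t) B F (n - t) x

/-- The total mass does not depend on the row. -/
theorem mass_total {η : Env} {r : ℤ} {n : ℕ} {A B X : Finset ℤ} {f F : ℤ → ℝ} {t : ℕ} (ht : t ≤ n)
    (hX : ∀ a ∈ A, Icc a (a + t) ⊆ X) :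
    mass μ s η r n A B X f F t (fun _ => True) = ∑ a ∈ A, ∑ b ∈ B, f a * W μ s η (r, a) n (b - a) * F b := by
  unfold mass fw bw
  rw [filter_true_of_mem (fun _ _ => trivial)]
  simp_rw [sum_mul_sum]
  rw [sum_comm]
  refine sum_congr rfl fun a ha => ?_
  rw [sum_comm]
  refine sum_congr rfl fun b _ => ?_
  have h := W_comp (μ := μ) (s := s) η r t (n - t) a b X (hX a ha)
  rw [Nat.add_sub_cancel' ht] at h
  rw [← h, mul_sum, sum_mul]
  exact sum_congr rfl fun x _ => by ring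

/-- The masses of one row in terms of three rows. -/
theorem mass_three {η : Env} {r : ℤ} {A B : Finset ℤ} {f F : ℤ → ℝ} {t0 n1 n2 m : ℕ} {X : Finset ℤ}
    (hX : ∀ a ∈ A, Icc a (a + (t0 + n1 + n2 : ℕ)) ⊆ X) (P : ℤ → Prop) [DecidablePred P] :
    (mass μ s η r (t0 + n1 + n2 + m) A B X f F t0 P =
      ∑ x ∈ X with P x, ∑ z ∈ X, ∑ y ∈ X, fw μ s η r A f t0 x * W μ s η (r + t0, x) n1 (z - x) *
        W μ s η (r + t0 + n1, z) n2 (y - z) * bw μ s η (r + t0 + n1 + n2) B F m y) ∧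
    (mass μ s η r (t0 + n1 + n2 + m) A B X f F (t0 + n1) P =
      ∑ x ∈ X, ∑ z ∈ X with P z, ∑ y ∈ X, fw μ s η r A f t0 x * W μ s η (r + t0, x) n1 (z - x) *
        W μ s η (r + t0 + n1, z) n2 (y - z) * bw μ s η (r + t0 + n1 + n2) B F m y) ∧
    (mass μ s η r (t0 + n1 + n2 + m) A B X f F (t0 + n1 + n2) P =
      ∑ x ∈ X, ∑ z ∈ X, ∑ y ∈ X with P y, fw μ s η r A f t0 x * W μ s η (r + t0, x) n1 (z - x) *
        W μ s η (r + t0 + n1, z) n2 (y - z) * bw μ s η (r + t0 + n1 + n2) B F m y) := by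
  have hX0 : ∀ a ∈ A, Icc a (a + (t0 : ℕ)) ⊆ X := fun a ha =>
    (Icc_subset_Icc_right (by push_cast; omega)).trans (hX a ha)
  have hX1 : ∀ a ∈ A, Icc a (a + ((t0 + n1 : ℕ) : ℤ)) ⊆ X := fun a ha =>
    (Icc_subset_Icc_right (by push_cast; omega)).trans (hX a ha)
  -- backward weights, only at the sites which carry forward weight
  have hb1 : ∀ z, fw μ s η r A f (t0 + n1) z ≠ 0 →
      bw μ s η (r + t0 + n1) B F (n2 + m) z =
        ∑ y ∈ X, W μ s η (r + t0 + n1, z) n2 (y - z) * bw μ s η (r + t0 + n1 + n2) B F m y := by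
    intro z hz
    have : ∃ a ∈ A, a ≤ z ∧ z ≤ a + ((t0 + n1 : ℕ) : ℤ) := by
      by_contra hcon
      push Not at hcon
      exact hz (fw_zero fun a ha hh => absurd hh.2 (not_le.mpr (hcon a ha hh.1)))
    obtain ⟨a, ha, h1, h2⟩ := this
    exact bw_comp (μ := μ) (s := s) ((Icc_subset_Icc h1 (by push_cast at h2 ⊢; omega)).trans (hX a ha))
  have hb0 : ∀ x, fw μ s η r A f t0 x ≠ 0 →
      bw μ s η (r + t0) B F (n1 + (n2 + m)) x =
        ∑ z ∈ X, W μ s η (r + t0, x) n1 (z - x) *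
          ∑ y ∈ X, W μ s η (r + t0 + n1, z) n2 (y - z) * bw μ s η (r + t0 + n1 + n2) B F m y := by
    intro x hx
    have : ∃ a ∈ A, a ≤ x ∧ x ≤ a + (t0 : ℤ) := by
      by_contra hcon
      push Not at hcon
      exact hx (fw_zero fun a ha hh => absurd hh.2 (not_le.mpr (hcon a ha hh.1)))
    obtain ⟨a, ha, h1, h2⟩ := this
    have hx1 : Icc x (x + n1) ⊆ X := (Icc_subset_Icc h1 (by push_cast; omega)).trans (hX a ha)
    rw [bw_comp (μ := μ) (s := s) hx1]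
    refine sum_congr rfl fun z _ => ?_
    by_cases hz : x ≤ z ∧ z ≤ x + n1
    · rw [bw_comp (μ := μ) (s := s)
        ((Icc_subset_Icc (h1.trans hz.1) (by have := hz.2; push_cast; omega)).trans (hX a ha))]
    · rw [W_out (μ := μ) (s := s) η (r + t0) n1 hz, zero_mul, zero_mul]
  refine ⟨?_, ?_, ?_⟩
  · unfold mass
    refine sum_congr rfl fun x _ => ?_
    have e : t0 + n1 + n2 + m - t0 = n1 + (n2 + m) := by omega
    rw [e]
    by_cases hx : fw μ s η r A f t0 x = 0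
    · rw [hx]; simp
    · rw [hb0 x hx, mul_sum]
      refine sum_congr rfl fun z _ => ?_
      rw [mul_sum, mul_sum]
      exact sum_congr rfl fun y _ => by ring
  · unfold mass
    rw [sum_comm]
    refine sum_congr rfl fun z _ => ?_
    have e : t0 + n1 + n2 + m - (t0 + n1) = n2 + m := by omega
    have e' : (r + ((t0 + n1 : ℕ) : ℤ)) = r + t0 + n1 := by push_cast; ring
    rw [e, e']
    by_cases hz : fw μ s η r A f (t0 + n1) z = 0
    · rw [hz, zero_mul]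
      symm
      rw [fw_comp (μ := μ) (s := s) hX0] at hz
      calc _ = ∑ x ∈ X, (fw μ s η r A f t0 x * W μ s η (r + t0, x) n1 (z - x)) *
          ∑ y ∈ X, W μ s η (r + t0 + n1, z) n2 (y - z) * bw μ s η (r + t0 + n1 + n2) B F m y := by
            refine sum_congr rfl fun x _ => ?_
            rw [mul_sum]
            exact sum_congr rfl fun y _ => by ring
        _ = 0 := by rw [← sum_mul, hz, zero_mul]
    · rw [hb1 z hz, fw_comp (μ := μ) (s := s) hX0, sum_mul]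
      refine sum_congr rfl fun x _ => ?_
      rw [mul_sum]
      exact sum_congr rfl fun y _ => by ring
  · unfold mass
    have e : t0 + n1 + n2 + m - (t0 + n1 + n2) = m := by omega
    have e' : (r + ((t0 + n1 + n2 : ℕ) : ℤ)) = r + t0 + n1 + n2 := by push_cast; ring
    rw [e, e']
    have h1 : ∀ x z : ℤ, ∑ y ∈ X with P y, fw μ s η r A f t0 x * W μ s η (r + t0, x) n1 (z - x) *
        W μ s η (r + t0 + n1, z) n2 (y - z) * bw μ s η (r + t0 + n1 + n2) B F m y =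
        ∑ y ∈ X with P y, (fw μ s η r A f t0 x * W μ s η (r + t0, x) n1 (z - x) *
        W μ s η (r + t0 + n1, z) n2 (y - z)) * bw μ s η (r + t0 + n1 + n2) B F m y := fun _ _ => rfl
    have h2 : ∑ x ∈ X, ∑ z ∈ X, ∑ y ∈ X with P y, fw μ s η r A f t0 x * W μ s η (r + t0, x) n1 (z - x) *
        W μ s η (r + t0 + n1, z) n2 (y - z) * bw μ s η (r + t0 + n1 + n2) B F m y =
        ∑ y ∈ X with P y, (∑ z ∈ X, (∑ x ∈ X, fw μ s η r A f t0 x * W μ s η (r + t0, x) n1 (z - x)) *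
        W μ s η (r + t0 + n1, z) n2 (y - z)) * bw μ s η (r + t0 + n1 + n2) B F m y := by
      simp_rw [sum_mul]
      rw [sum_comm]
      have : ∀ z ∈ X, ∑ x ∈ X, ∑ y ∈ X with P y, fw μ s η r A f t0 x * W μ s η (r + t0, x) n1 (z - x) *
          W μ s η (r + t0 + n1, z) n2 (y - z) * bw μ s η (r + t0 + n1 + n2) B F m y =
          ∑ y ∈ X with P y, ∑ x ∈ X, fw μ s η r A f t0 x * W μ s η (r + t0, x) n1 (z - x) *
          W μ s η (r + t0 + n1, z) n2 (y - z) * bw μ s η (r + t0 + n1 + n2) B F m y := fun z _ => sum_comm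
      rw [sum_congr rfl this, sum_comm]
    rw [h2]
    refine sum_congr rfl fun y _ => ?_
    congr 1
    have h3 : ∀ z, fw μ s η r A f (t0 + n1) z =
        ∑ x ∈ X, fw μ s η r A f t0 x * W μ s η (r + t0, x) n1 (z - x) := fun z =>
      fw_comp (μ := μ) (s := s) hX0 z
    have h4 := fw_comp (μ := μ) (s := s) (η := η) (r := r) (f := f) (m := n2) hX1 y
    rw [h4]
    refine sum_congr rfl fun z _ => ?_
    rw [h3 z]
    congr 3
    push_cast
    ring

/-- The window of the sums is irrelevant as soon as it contains the reachable sites. -/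
theorem mass_window {η : Env} {r : ℤ} {n : ℕ} {A B X X' : Finset ℤ} {f F : ℤ → ℝ} {t : ℕ}
    (hX : ∀ a ∈ A, Icc a (a + t) ⊆ X) (hXX : X ⊆ X') (P : ℤ → Prop) [DecidablePred P] :
    mass μ s η r n A B X' f F t P = mass μ s η r n A B X f F t P := by
  unfold mass
  symm
  refine sum_subset (filter_subset_filter _ hXX) fun x hx hx' => ?_
  rw [mem_filter] at hx hx'
  have hn : x ∉ X := fun h => hx' ⟨h, hx.2⟩
  rw [fw_zero (μ := μ) (s := s) fun a ha hh => hn (hX a ha (mem_Icc.mpr hh)), zero_mul]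

theorem mass_nonneg {η : Env} {r : ℤ} {n : ℕ} {A B X : Finset ℤ} {f F : ℤ → ℝ} {t : ℕ}
    (hf : ∀ a ∈ A, 0 ≤ f a) (hF : ∀ b ∈ B, 0 ≤ F b) (P : ℤ → Prop) [DecidablePred P] :
    0 ≤ mass μ s η r n A B X f F t P :=
  sum_nonneg fun x _ => mul_nonneg (fw_nonneg hf t x) (bw_nonneg hF _ x)

theorem mass_mono {η : Env} {r : ℤ} {n : ℕ} {A B X : Finset ℤ} {f F : ℤ → ℝ} {t : ℕ}
    (hf : ∀ a ∈ A, 0 ≤ f a) (hF : ∀ b ∈ B, 0 ≤ F b) {P Q : ℤ → Prop} [DecidablePred P] [DecidablePred Q]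
    (h : ∀ x, P x → Q x) : mass μ s η r n A B X f F t P ≤ mass μ s η r n A B X f F t Q := by
  unfold mass
  refine sum_le_sum_of_subset_of_nonneg (fun x hx => ?_) fun x _ _ =>
    mul_nonneg (fw_nonneg hf t x) (bw_nonneg hF _ x)
  rw [mem_filter] at hx ⊢
  exact ⟨hx.1, h x hx.2⟩

/-- **hrec of the chain.** Rows `r + t0`, `r + t0 + n1`, `r + t0 + n1 + n2`; total length `t0 + n1 + n2 + m`. -/
theorem hrec88 {η : Env} {r : ℤ} {A B X : Finset ℤ} {f F : ℤ → ℝ} {t0 n1 n2 m : ℕ}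
    (hf : ∀ a ∈ A, 0 ≤ f a) (hF : ∀ b ∈ B, 0 ≤ F b)
    (hX : ∀ a ∈ A, Icc a (a + (t0 + n1 + n2 : ℕ)) ⊆ X) {a0 b0 z0 : ℤ} {p : ℝ}
    (hab : a0 ≤ b0) (hba : b0 ≤ a0 + n1 + n2)
    (hp : ∑ z ∈ Icc a0 (a0 + n1) with z0 ≤ z,
        W μ s η (r + t0, a0) n1 (z - a0) * W μ s η (r + t0 + n1, z) n2 (b0 - z) ≤
      p * W μ s η (r + t0, a0) (n1 + n2) (b0 - a0)) :
    mass μ s η r (t0 + n1 + n2 + m) A B X f F (t0 + n1) (fun z => z0 ≤ z) ≤
      mass μ s η r (t0 + n1 + n2 + m) A B X f F t0 (fun x => a0 < x) +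
      mass μ s η r (t0 + n1 + n2 + m) A B X f F (t0 + n1 + n2) (fun y => b0 < y) +
      p * mass μ s η r (t0 + n1 + n2 + m) A B X f F t0 (fun _ => True) := by
  set X' : Finset ℤ := X ∪ Icc a0 (a0 + n1) with hX'
  have hXX : X ⊆ X' := subset_union_left
  have hS : Icc a0 (a0 + (n1 : ℤ)) ⊆ X' := subset_union_right
  have hXa : ∀ a ∈ A, Icc a (a + (t0 + n1 + n2 : ℕ)) ⊆ X' := fun a ha => (hX a ha).trans hXX
  have hX0 : ∀ a ∈ A, Icc a (a + (t0 : ℕ)) ⊆ X := fun a ha =>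
    (Icc_subset_Icc_right (by push_cast; omega)).trans (hX a ha)
  have hX1 : ∀ a ∈ A, Icc a (a + ((t0 + n1 : ℕ) : ℤ)) ⊆ X := fun a ha =>
    (Icc_subset_Icc_right (by push_cast; omega)).trans (hX a ha)
  have hX2 : ∀ a ∈ A, Icc a (a + ((t0 + n1 + n2 : ℕ) : ℤ)) ⊆ X := fun a ha =>
    (Icc_subset_Icc_right (by push_cast; omega)).trans (hX a ha)
  rw [← mass_window hX0 hXX, ← mass_window hX1 hXX, ← mass_window hX2 hXX, ← mass_window hX0 hXX]
  have tot := W_comp (μ := μ) (s := s) η (r + t0) n1 n2 a0 b0 X' hS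
  have hpos : 0 < W μ s η (r + t0, a0) (n1 + n2) (b0 - a0) := W_pos η _ (by omega) (by push_cast; omega)
  have hup : ∑ z ∈ X' with z0 ≤ z,
      W μ s η (r + t0, a0) n1 (z - a0) * W μ s η (r + t0 + n1, z) n2 (b0 - z) =
      ∑ z ∈ Icc a0 (a0 + (n1 : ℤ)) with z0 ≤ z,
        W μ s η (r + t0, a0) n1 (z - a0) * W μ s η (r + t0 + n1, z) n2 (b0 - z) := by
    symm
    refine sum_subset (filter_subset_filter _ hS) fun z hz hz' => ?_
    rw [mem_filter] at hz hz'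
    have hn : ¬ (a0 ≤ z ∧ z ≤ a0 + (n1 : ℤ)) := fun h => hz' ⟨mem_Icc.mpr h, hz.2⟩
    rw [W_out (μ := μ) (s := s) η (r + t0) n1 hn, zero_mul]
  have key := prof88 (TN_W (μ := μ) (s := s) η (r + t0) n1) (TN_W (μ := μ) (s := s) η (r + t0 + n1) n2)
    (A := X') (B := X') (S := X') (f := fw μ s η r A f t0) (F := bw μ s η (r + t0 + n1 + n2) B F m)
    (fun a _ => fw_nonneg hf t0 a) (fun b _ => bw_nonneg hF m b) (a0 := a0) (b0 := b0) (z0 := z0) (p := p)
    (by rw [tot, hup]; exact hp) (by rw [tot]; exact hpos)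
  rw [(mass_three (μ := μ) (s := s) (B := B) (F := F) (f := f) (m := m) hXa _).1,
    (mass_three (μ := μ) (s := s) (B := B) (F := F) (f := f) (m := m) hXa _).2.1,
    (mass_three (μ := μ) (s := s) (B := B) (F := F) (f := f) (m := m) hXa _).2.2,
    (mass_three (μ := μ) (s := s) (B := B) (F := F) (f := f) (m := m) hXa _).1]
  rw [filter_true_of_mem (s := X') (p := fun _ => True) (fun _ _ => trivial)]
  exact key

/-- The mirror image. -/
theorem hrec88' {η : Env} {r : ℤ} {A B X : Finset ℤ} {f F : ℤ → ℝ} {t0 n1 n2 m : ℕ}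
    (hf : ∀ a ∈ A, 0 ≤ f a) (hF : ∀ b ∈ B, 0 ≤ F b)
    (hX : ∀ a ∈ A, Icc a (a + (t0 + n1 + n2 : ℕ)) ⊆ X) {a0 b0 z0 : ℤ} {p : ℝ}
    (hab : a0 ≤ b0) (hba : b0 ≤ a0 + n1 + n2)
    (hp : ∑ z ∈ Icc a0 (a0 + n1) with z ≤ z0,
        W μ s η (r + t0, a0) n1 (z - a0) * W μ s η (r + t0 + n1, z) n2 (b0 - z) ≤
      p * W μ s η (r + t0, a0) (n1 + n2) (b0 - a0)) :
    mass μ s η r (t0 + n1 + n2 + m) A B X f F (t0 + n1) (fun z => z ≤ z0) ≤
      mass μ s η r (t0 + n1 + n2 + m) A B X f F t0 (fun x => x < a0) +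
      mass μ s η r (t0 + n1 + n2 + m) A B X f F (t0 + n1 + n2) (fun y => y < b0) +
      p * mass μ s η r (t0 + n1 + n2 + m) A B X f F t0 (fun _ => True) := by
  set X' : Finset ℤ := X ∪ Icc a0 (a0 + n1) with hX'
  have hXX : X ⊆ X' := subset_union_left
  have hS : Icc a0 (a0 + (n1 : ℤ)) ⊆ X' := subset_union_right
  have hXa : ∀ a ∈ A, Icc a (a + (t0 + n1 + n2 : ℕ)) ⊆ X' := fun a ha => (hX a ha).trans hXX
  have hX0 : ∀ a ∈ A, Icc a (a + (t0 : ℕ)) ⊆ X := fun a ha =>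
    (Icc_subset_Icc_right (by push_cast; omega)).trans (hX a ha)
  have hX1 : ∀ a ∈ A, Icc a (a + ((t0 + n1 : ℕ) : ℤ)) ⊆ X := fun a ha =>
    (Icc_subset_Icc_right (by push_cast; omega)).trans (hX a ha)
  have hX2 : ∀ a ∈ A, Icc a (a + ((t0 + n1 + n2 : ℕ) : ℤ)) ⊆ X := fun a ha =>
    (Icc_subset_Icc_right (by push_cast; omega)).trans (hX a ha)
  rw [← mass_window hX0 hXX, ← mass_window hX1 hXX, ← mass_window hX2 hXX, ← mass_window hX0 hXX]
  have tot := W_comp (μ := μ) (s := s) η (r + t0) n1 n2 a0 b0 X' hS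
  have hpos : 0 < W μ s η (r + t0, a0) (n1 + n2) (b0 - a0) := W_pos η _ (by omega) (by push_cast; omega)
  have hup : ∑ z ∈ X' with z ≤ z0,
      W μ s η (r + t0, a0) n1 (z - a0) * W μ s η (r + t0 + n1, z) n2 (b0 - z) =
      ∑ z ∈ Icc a0 (a0 + (n1 : ℤ)) with z ≤ z0,
        W μ s η (r + t0, a0) n1 (z - a0) * W μ s η (r + t0 + n1, z) n2 (b0 - z) := by
    symm
    refine sum_subset (filter_subset_filter _ hS) fun z hz hz' => ?_
    rw [mem_filter] at hz hz'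
    have hn : ¬ (a0 ≤ z ∧ z ≤ a0 + (n1 : ℤ)) := fun h => hz' ⟨mem_Icc.mpr h, hz.2⟩
    rw [W_out (μ := μ) (s := s) η (r + t0) n1 hn, zero_mul]
  have key := prof88' (TN_W (μ := μ) (s := s) η (r + t0) n1) (TN_W (μ := μ) (s := s) η (r + t0 + n1) n2)
    (A := X') (B := X') (S := X') (f := fw μ s η r A f t0) (F := bw μ s η (r + t0 + n1 + n2) B F m)
    (fun a _ => fw_nonneg hf t0 a) (fun b _ => bw_nonneg hF m b) (a0 := a0) (b0 := b0) (z0 := z0) (p := p)
    (by rw [tot, hup]; exact hp) (by rw [tot]; exact hpos)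
  rw [(mass_three (μ := μ) (s := s) (B := B) (F := F) (f := f) (m := m) hXa _).1,
    (mass_three (μ := μ) (s := s) (B := B) (F := F) (f := f) (m := m) hXa _).2.1,
    (mass_three (μ := μ) (s := s) (B := B) (F := F) (f := f) (m := m) hXa _).2.2,
    (mass_three (μ := μ) (s := s) (B := B) (F := F) (f := f) (m := m) hXa _).1]
  rw [filter_true_of_mem (s := X') (p := fun _ => True) (fun _ _ => trivial)]
  exact key

end model

end

end Pool.Agent.W_7d29a1_C1.ArmP88
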