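import Pool.Agent.W_7d29a1_C1.TamP16
import Pool.Agent.W_7d29a1_C1.ArmP88

/-!
MP_7d29a1_pr, attractor route [C1], ARMS (board 80829 (i)): the three row inequality for the systems `Sys16` of
`TamP16`. (helper88)

* `step_X`, `comp_X` : the rules of `Sys16` over any window which contains the reachable places;
* `PM16_bot`, `PM16_mid`, `PM16_top` : the masses of the rows `e0 ≤ e1 ≤ e2` as triple sums;
* **`node16`**, **`node16'`** : kernels of the rows `(e0, e1]`, `(e1, e2]` with nonnegative minors;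
  `PM (e1, z0 ≤ z) ≤ PM (e0, a0 < z) + PM (e2, b0 < z) + p B a x` from ONE pair of places `a0`, `b0`.
-/

set_option autoImplicit false

namespace Pool.Agent.W_7d29a1_C1.ArmS88

open Finset
open Pool.Agent.W_7d29a1_C1.U16 (Sys16 PM16)
open Pool.Agent.W_7d29a1_C1.ArmP88 (TN prof88 prof88')

noncomputable section

variable {K : ℕ → ℕ → ℤ → ℤ → ℝ} {B : ℕ → ℤ → ℝ} {N : ℕ}

theorem step_X (S : Sys16 K B N) {a b : ℕ} {x : ℤ} {X : Finset ℤ} (hab : a ≤ b) (hb : b ≤ N)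
    (hX : Icc x (x + ((b - a : ℕ) : ℤ)) ⊆ X) : ∑ z ∈ X, K a b x z * B b z = B a x := by
  rw [S.step a b x hab hb]
  symm
  refine sum_subset hX fun z _ hz => ?_
  rw [S.out a b x z hab (fun h => hz (mem_Icc.2 h)), zero_mul]

theorem comp_X (S : Sys16 K B N) {a b c : ℕ} {x : ℤ} {X : Finset ℤ} (hab : a ≤ b) (hbc : b ≤ c)
    (hX : Icc x (x + ((b - a : ℕ) : ℤ)) ⊆ X) (z : ℤ) : ∑ y ∈ X, K a b x y * K b c y z = K a c x z := by
  rw [S.comp a b c x z hab hbc]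
  symm
  refine sum_subset hX fun y _ hy => ?_
  rw [S.out a b x y hab (fun h => hy (mem_Icc.2 h)), zero_mul]

/-- The mass of a row over any window. -/
theorem PM16_X (S : Sys16 K B N) {a e : ℕ} {x : ℤ} {X : Finset ℤ} (hae : a ≤ e)
    (hX : Icc x (x + ((e - a : ℕ) : ℤ)) ⊆ X) (P : ℤ → Prop) [DecidablePred P] :
    PM16 K B a e x P = ∑ z ∈ X with P z, K a e x z * B e z := by
  unfold PM16
  refine sum_subset (filter_subset_filter _ hX) fun z hz hz' => ?_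
  rw [mem_filter] at hz hz'
  have hn : z ∉ Icc x (x + ((e - a : ℕ) : ℤ)) := fun h => hz' ⟨h, hz.2⟩
  rw [S.out a e x z hae (fun h => hn (mem_Icc.2 h)), zero_mul]

section three

variable {a e0 e1 e2 : ℕ} {x : ℤ} {X : Finset ℤ} (P : ℤ → Prop) [DecidablePred P]

theorem PM16_bot (S : Sys16 K B N) (h0 : a ≤ e0) (h1 : e0 ≤ e1) (h2 : e1 ≤ e2) (hN : e2 ≤ N)
    (hX : Icc x (x + ((e2 - a : ℕ) : ℤ)) ⊆ X) : PM16 K B a e0 x P =
      ∑ u ∈ X with P u, ∑ z ∈ X, ∑ y ∈ X, K a e0 x u * K e0 e1 u z * K e1 e2 z y * B e2 y := by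
  rw [PM16_X S h0 ((Icc_subset_Icc_right (by omega)).trans hX)]
  refine sum_congr rfl fun u _ => ?_
  by_cases hu : x ≤ u ∧ u ≤ x + ((e0 - a : ℕ) : ℤ)
  · have hu1 : Icc u (u + ((e1 - e0 : ℕ) : ℤ)) ⊆ X := (Icc_subset_Icc hu.1 (by omega)).trans hX
    rw [← step_X S h1 (h2.trans hN) hu1, mul_sum]
    refine sum_congr rfl fun z _ => ?_
    by_cases hz : u ≤ z ∧ z ≤ u + ((e1 - e0 : ℕ) : ℤ)
    · have hz1 : Icc z (z + ((e2 - e1 : ℕ) : ℤ)) ⊆ X := (Icc_subset_Icc (hu.1.trans hz.1) (by omega)).trans hX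
      rw [← step_X S h2 hN hz1, mul_sum, mul_sum]
      exact sum_congr rfl fun y _ => by ring
    · rw [S.out e0 e1 u z h1 hz, zero_mul, mul_zero]
      symm
      refine sum_eq_zero fun y _ => ?_
      simp only [zero_mul]
  · rw [S.out a e0 x u h0 hu, zero_mul]
    symm
    refine sum_eq_zero fun z _ => sum_eq_zero fun y _ => ?_
    simp only [zero_mul]

theorem PM16_mid (S : Sys16 K B N) (h0 : a ≤ e0) (h1 : e0 ≤ e1) (h2 : e1 ≤ e2) (hN : e2 ≤ N)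
    (hX : Icc x (x + ((e2 - a : ℕ) : ℤ)) ⊆ X) : PM16 K B a e1 x P =
      ∑ u ∈ X, ∑ z ∈ X with P z, ∑ y ∈ X, K a e0 x u * K e0 e1 u z * K e1 e2 z y * B e2 y := by
  rw [PM16_X S (h0.trans h1) ((Icc_subset_Icc_right (by omega)).trans hX), sum_comm]
  refine sum_congr rfl fun z _ => ?_
  by_cases hz : x ≤ z ∧ z ≤ x + ((e1 - a : ℕ) : ℤ)
  · have hz1 : Icc z (z + ((e2 - e1 : ℕ) : ℤ)) ⊆ X := (Icc_subset_Icc hz.1 (by omega)).trans hX
    rw [← step_X S h2 hN hz1, ← comp_X S h0 h1 (((Icc_subset_Icc_right (by omega))).trans hX) z, sum_mul]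
    refine sum_congr rfl fun u _ => ?_
    rw [mul_sum]
    exact sum_congr rfl fun y _ => by ring
  · rw [S.out a e1 x z (h0.trans h1) hz, zero_mul]
    symm
    refine sum_eq_zero fun u _ => sum_eq_zero fun y _ => ?_
    have : K a e0 x u * K e0 e1 u z = 0 := by
      by_cases hu : x ≤ u ∧ u ≤ x + ((e0 - a : ℕ) : ℤ)
      · rw [S.out e0 e1 u z h1 (by omega), mul_zero]
      · rw [S.out a e0 x u h0 hu, zero_mul]
    rw [this, zero_mul, zero_mul]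

theorem PM16_top (S : Sys16 K B N) (h0 : a ≤ e0) (h1 : e0 ≤ e1) (h2 : e1 ≤ e2)
    (hX : Icc x (x + ((e2 - a : ℕ) : ℤ)) ⊆ X) : PM16 K B a e2 x P =
      ∑ u ∈ X, ∑ z ∈ X, ∑ y ∈ X with P y, K a e0 x u * K e0 e1 u z * K e1 e2 z y * B e2 y := by
  rw [PM16_X S (h0.trans (h1.trans h2)) hX]
  have hsw : ∀ u ∈ X, ∑ z ∈ X, ∑ y ∈ X with P y, K a e0 x u * K e0 e1 u z * K e1 e2 z y * B e2 y =
      ∑ y ∈ X with P y, ∑ z ∈ X, K a e0 x u * K e0 e1 u z * K e1 e2 z y * B e2 y := fun u _ => sum_comm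
  rw [sum_congr rfl hsw, sum_comm]
  refine sum_congr rfl fun y _ => ?_
  rw [← comp_X S (h0.trans h1) h2 ((Icc_subset_Icc_right (by omega)).trans hX) y, sum_mul, sum_comm]
  refine sum_congr rfl fun z _ => ?_
  rw [← comp_X S h0 h1 ((Icc_subset_Icc_right (by omega)).trans hX) z, sum_mul, sum_mul]

end three

/-- The two kernels between two places, over a window. -/
theorem two_X (S : Sys16 K B N) {e0 e1 e2 : ℕ} {a0 b0 : ℤ} {X : Finset ℤ} (h1 : e0 ≤ e1)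
    (hX : Icc a0 (a0 + ((e1 - e0 : ℕ) : ℤ)) ⊆ X) (P : ℤ → Prop) [DecidablePred P] :
    ∑ z ∈ X with P z, K e0 e1 a0 z * K e1 e2 z b0 =
      ∑ z ∈ Icc a0 (a0 + ((e1 - e0 : ℕ) : ℤ)) with P z, K e0 e1 a0 z * K e1 e2 z b0 := by
  symm
  refine sum_subset (filter_subset_filter _ hX) fun z hz hz' => ?_
  rw [mem_filter] at hz hz'
  have hn : z ∉ Icc a0 (a0 + ((e1 - e0 : ℕ) : ℤ)) := fun h => hz' ⟨h, hz.2⟩
  rw [S.out e0 e1 a0 z h1 (fun h => hn (mem_Icc.2 h)), zero_mul]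

/-- **The node inequality of a system**, right side. -/
theorem node16 (S : Sys16 K B N) {a e0 e1 e2 : ℕ} (h0 : a ≤ e0) (h1 : e0 ≤ e1) (h2 : e1 ≤ e2) (hN : e2 ≤ N)
    (T1 : TN (K e0 e1)) (T2 : TN (K e1 e2)) (x : ℤ) {a0 b0 z0 : ℤ} {p : ℝ} (hpos : 0 < K e0 e2 a0 b0)
    (hp : ∑ z ∈ Icc a0 (a0 + ((e1 - e0 : ℕ) : ℤ)) with z0 ≤ z, K e0 e1 a0 z * K e1 e2 z b0 ≤ p * K e0 e2 a0 b0) :
    PM16 K B a e1 x (fun z => z0 ≤ z) ≤ PM16 K B a e0 x (fun z => a0 < z) + PM16 K B a e2 x (fun z => b0 < z) +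
      p * B a x := by
  obtain ⟨X, hX1, hX2⟩ : ∃ X : Finset ℤ, Icc x (x + ((e2 - a : ℕ) : ℤ)) ⊆ X ∧ Icc a0 (a0 + ((e1 - e0 : ℕ) : ℤ)) ⊆ X :=
    ⟨_, subset_union_left, subset_union_right⟩
  have tot : ∑ z ∈ X, K e0 e1 a0 z * K e1 e2 z b0 = K e0 e2 a0 b0 := comp_X S h1 h2 hX2 b0
  have key := prof88 T1 T2 (A := X) (B := X) (S := X) (f := fun u => K a e0 x u) (F := fun y => B e2 y)
    (fun _ _ => S.k0 _ _ _ _) (fun _ _ => (S.b0 _ _ hN).le) (a0 := a0) (b0 := b0) (z0 := z0) (p := p)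
    (by rw [tot, two_X S h1 hX2]; exact hp) (by rw [tot]; exact hpos)
  rw [PM16_mid _ S h0 h1 h2 hN hX1, PM16_bot _ S h0 h1 h2 hN hX1, PM16_top _ S h0 h1 h2 hX1]
  have e : B a x = ∑ u ∈ X, ∑ z ∈ X, ∑ y ∈ X, K a e0 x u * K e0 e1 u z * K e1 e2 z y * B e2 y := by
    have g1 := PM16_bot (fun _ => True) S h0 h1 h2 hN hX1
    have g2 := PM16_X S (e := e0) h0 ((Icc_subset_Icc_right (by omega)).trans hX1) (fun _ => True)
    rw [filter_true_of_mem (s := X) (p := fun _ => True) (fun _ _ => trivial)] at g1 g2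
    rw [← g1, g2, step_X S h0 (h1.trans (h2.trans hN)) ((Icc_subset_Icc_right (by omega)).trans hX1)]
  rw [e]
  exact key

/-- The mirror image. -/
theorem node16' (S : Sys16 K B N) {a e0 e1 e2 : ℕ} (h0 : a ≤ e0) (h1 : e0 ≤ e1) (h2 : e1 ≤ e2) (hN : e2 ≤ N)
    (T1 : TN (K e0 e1)) (T2 : TN (K e1 e2)) (x : ℤ) {a0 b0 z0 : ℤ} {p : ℝ} (hpos : 0 < K e0 e2 a0 b0)
    (hp : ∑ z ∈ Icc a0 (a0 + ((e1 - e0 : ℕ) : ℤ)) with z ≤ z0, K e0 e1 a0 z * K e1 e2 z b0 ≤ p * K e0 e2 a0 b0) :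
    PM16 K B a e1 x (fun z => z ≤ z0) ≤ PM16 K B a e0 x (fun z => z < a0) + PM16 K B a e2 x (fun z => z < b0) +
      p * B a x := by
  obtain ⟨X, hX1, hX2⟩ : ∃ X : Finset ℤ, Icc x (x + ((e2 - a : ℕ) : ℤ)) ⊆ X ∧ Icc a0 (a0 + ((e1 - e0 : ℕ) : ℤ)) ⊆ X :=
    ⟨_, subset_union_left, subset_union_right⟩
  have tot : ∑ z ∈ X, K e0 e1 a0 z * K e1 e2 z b0 = K e0 e2 a0 b0 := comp_X S h1 h2 hX2 b0
  have key := prof88' T1 T2 (A := X) (B := X) (S := X) (f := fun u => K a e0 x u) (F := fun y => B e2 y)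
    (fun _ _ => S.k0 _ _ _ _) (fun _ _ => (S.b0 _ _ hN).le) (a0 := a0) (b0 := b0) (z0 := z0) (p := p)
    (by rw [tot, two_X S h1 hX2]; exact hp) (by rw [tot]; exact hpos)
  rw [PM16_mid _ S h0 h1 h2 hN hX1, PM16_bot _ S h0 h1 h2 hN hX1, PM16_top _ S h0 h1 h2 hX1]
  have e : B a x = ∑ u ∈ X, ∑ z ∈ X, ∑ y ∈ X, K a e0 x u * K e0 e1 u z * K e1 e2 z y * B e2 y := by
    have g1 := PM16_bot (fun _ => True) S h0 h1 h2 hN hX1
    have g2 := PM16_X S (e := e0) h0 ((Icc_subset_Icc_right (by omega)).trans hX1) (fun _ => True)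
    rw [filter_true_of_mem (s := X) (p := fun _ => True) (fun _ _ => trivial)] at g1 g2
    rw [← g1, g2, step_X S h0 (h1.trans (h2.trans hN)) ((Icc_subset_Icc_right (by omega)).trans hX1)]
  rw [e]
  exact key

end

end Pool.Agent.W_7d29a1_C1.ArmS88
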