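import Pool.Agent.W_7d29a1_C1.TamK16
import Pool.Agent.W_7d29a1_C1.ArmS88
import Pool.Agent.W_7d29a1_C1.ArmQ88
import Pool.Agent.W_7d29a1_C1.ArmL89

/-!
MP_7d29a1_pr, attractor route [C1], ARMS (board 80829 (i), 83522): the node inequality FOR THE MODEL (kernels `nk`
of `FarW89`), ANY backward masses `B` with `Sys16 nk B N` (`bh16` of `TamK16`: `sys_model16`). (helper88)

* `nk_lo`, `nk_hi`, `nk_tilt` : on rows which do not contain the switch row `M` the kernel `nk` is the weight `W`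
  up to the factor `exp (g (y - x - sl n))`; `TN_tilt`;
* `node_B88`, `node_B88'` : the three row inequality for `PM16` from ONE inequality of weights `W`;
* **`ann_B88`** (`annPM88` for `bh16`) : `ann88` (`ArmQ88`) for the masses `PM16`, any frame point `κ`;
* **`norm_B88`** (`norm_model88` for `bh16`) : `norm94L` (`ArmL89`) for the masses of the model, start `(a, x)`, frame
  through it, base level `l0`, all nodes `1 ≤ i < m` entirely below or above the switch row `M`;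
  **`norm_twoB88`** (`norm_two88`) : two sided.
-/

set_option autoImplicit false

namespace Pool.Agent.W_7d29a1_C1.ArmK88

open Finset Pool.Agent.W_7d29a1_F MeasureTheory
open Pool.Agent.W_7d29a1_H (sl EE sl_mem)
open Pool.Agent.W_7d29a1_HS (wd)
open Pool.Agent.W_7d29a1_C1.K91 (wt wt_pos)
open Pool.Agent.W_7d29a1_C1.FarW89 (nk bl nk_nonneg)
open Pool.Agent.W_7d29a1_C1.U16 (Sys16 PM16 PM16_mono bh16 sys_model16 ker_W lat16 p3_16)
open Pool.Agent.W_7d29a1_C1.H94 (Nm off na nb nu Cs94 T_facts)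
open Pool.Agent.W_7d29a1_C1.ArmP88 (TN TN_W)
open Pool.Agent.W_7d29a1_C1.ArmQ88 (Nm_up Nm_dn)
open Pool.Agent.W_7d29a1_C1.ArmS88 (node16 node16')

noncomputable section

variable {μ : Measure ℝ} {s h : ℝ} {η : Env} {p : ℕ → ℝ} {M N : ℕ} {B : ℕ → ℤ → ℝ}

theorem nk_lo (hp : ∀ k, k < M → p k = Real.exp (s + h)) {i n : ℕ} (hM : i + n ≤ M) (x y : ℤ) :
    nk μ s h η p M i n x y =
      Real.exp (h * (((y - x : ℤ) : ℝ) - sl μ s * n)) * W μ s η ((i : ℤ), x) n (y - x) := by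
  have h1 := ker_W (μ := μ) (s := s) (h := h) η (p := p) i x n y (fun k _ hk => hp k (by omega))
  have h2 := wt_pos η i x
  have hb : bl M i n = n := by unfold bl; omega
  unfold nk
  rw [h1, hb]
  have e1 : Real.exp (h * (((y - x : ℤ) : ℝ) - sl μ s * n)) = Real.exp (-(n * lam μ s + h * sl μ s * n)) *
      Real.exp (n * lam μ s + h * ((y - x : ℤ) : ℝ)) := by
    rw [← Real.exp_add]
    congr 1
    ring
  rw [e1]
  field_simp

theorem nk_hi (hp' : ∀ k, M ≤ k → p k = Real.exp s) {i n : ℕ} (hM : M ≤ i) (x y : ℤ) :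
    nk μ s h η p M i n x y = W μ s η ((i : ℤ), x) n (y - x) := by
  have h1 := ker_W (μ := μ) (s := s) (h := 0) η (p := p) i x n y (fun k hk _ => by
    rw [add_zero]
    exact hp' k (by omega))
  have h2 := wt_pos η i x
  have hb : bl M i n = 0 := by unfold bl; omega
  unfold nk
  rw [h1, hb]
  have e1 : Real.exp (-(n * lam μ s + h * sl μ s * ((0 : ℕ) : ℝ))) *
      Real.exp (n * lam μ s + 0 * ((y - x : ℤ) : ℝ)) = 1 := by
    rw [← Real.exp_add, ← Real.exp_zero]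
    congr 1
    push_cast
    ring
  calc _ = (Real.exp (-(n * lam μ s + h * sl μ s * ((0 : ℕ) : ℝ))) *
      Real.exp (n * lam μ s + 0 * ((y - x : ℤ) : ℝ))) * W μ s η ((i : ℤ), x) n (y - x) := by field_simp
    _ = _ := by rw [e1, one_mul]

/-- Rows which do not contain the switch. -/
theorem nk_tilt (μ : Measure ℝ) (η : Env) (hp : ∀ k, k < M → p k = Real.exp (s + h))
    (hp' : ∀ k, M ≤ k → p k = Real.exp s) {e0 e2 : ℕ} (hM : e2 ≤ M ∨ M ≤ e0) :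
    ∃ g : ℝ, ∀ i n : ℕ, e0 ≤ i → i + n ≤ e2 → ∀ x y : ℤ, nk μ s h η p M i n x y =
      Real.exp (g * (((y - x : ℤ) : ℝ) - sl μ s * n)) * W μ s η ((i : ℤ), x) n (y - x) := by
  rcases hM with hM | hM
  · exact ⟨h, fun i n _ hi x y => nk_lo hp (by omega) x y⟩
  · refine ⟨0, fun i n hi _ x y => ?_⟩
    rw [nk_hi hp' (by omega) x y, zero_mul, Real.exp_zero, one_mul]

theorem TN_tilt (g c : ℝ) {F : ℤ → ℤ → ℝ} (hF : TN F) :
    TN fun a z => Real.exp (g * (((z - a : ℤ) : ℝ) - c)) * F a z := by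
  refine ⟨fun a z => mul_nonneg (Real.exp_pos _).le (hF.1 a z), fun a a' z z' ha hz => ?_⟩
  have h1 := hF.2 a a' z z' ha hz
  have e1 : Real.exp (g * (((z' - a : ℤ) : ℝ) - c)) * Real.exp (g * (((z - a' : ℤ) : ℝ) - c)) =
      Real.exp (g * (((z - a : ℤ) : ℝ) - c)) * Real.exp (g * (((z' - a' : ℤ) : ℝ) - c)) := by
    rw [← Real.exp_add, ← Real.exp_add]
    congr 1
    push_cast
    ring
  have h2 : 0 ≤ Real.exp (g * (((z - a : ℤ) : ℝ) - c)) * Real.exp (g * (((z' - a' : ℤ) : ℝ) - c)) := by positivity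
  calc _ = (Real.exp (g * (((z' - a : ℤ) : ℝ) - c)) * Real.exp (g * (((z - a' : ℤ) : ℝ) - c))) * (F a z' * F a' z) := by
        ring
    _ = (Real.exp (g * (((z - a : ℤ) : ℝ) - c)) * Real.exp (g * (((z' - a' : ℤ) : ℝ) - c))) * (F a z' * F a' z) := by
        rw [e1]
    _ ≤ (Real.exp (g * (((z - a : ℤ) : ℝ) - c)) * Real.exp (g * (((z' - a' : ℤ) : ℝ) - c))) * (F a z * F a' z') :=
        mul_le_mul_of_nonneg_left h1 h2
    _ = _ := by ring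

/-- The data of one node of the model. -/
theorem node_data (μ : Measure ℝ) (η : Env) (hp : ∀ k, k < M → p k = Real.exp (s + h))
    (hp' : ∀ k, M ≤ k → p k = Real.exp s) {e0 e1 e2 n1 n2 : ℕ} (h1 : e1 = e0 + n1) (h2 : e2 = e1 + n2)
    (hM : e2 ≤ M ∨ M ≤ e0) {a0 b0 : ℤ} (hab : a0 ≤ b0) (hba : b0 ≤ a0 + n1 + n2) :
    TN (fun x z => nk μ s h η p M e0 (e1 - e0) x z) ∧ TN (fun x z => nk μ s h η p M e1 (e2 - e1) x z) ∧
    0 < nk μ s h η p M e0 (e2 - e0) a0 b0 ∧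
    ∀ (P : ℤ → Prop) [DecidablePred P] (pr : ℝ),
      ∑ z ∈ Icc a0 (a0 + n1) with P z, W μ s η ((e0 : ℤ), a0) n1 (z - a0) * W μ s η ((e0 : ℤ) + n1, z) n2 (b0 - z) ≤
        pr * W μ s η ((e0 : ℤ), a0) (n1 + n2) (b0 - a0) →
      ∑ z ∈ Icc a0 (a0 + ((e1 - e0 : ℕ) : ℤ)) with P z, nk μ s h η p M e0 (e1 - e0) a0 z *
        nk μ s h η p M e1 (e2 - e1) z b0 ≤ pr * nk μ s h η p M e0 (e2 - e0) a0 b0 := by
  obtain ⟨g, hg⟩ := nk_tilt μ η hp hp' hM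
  have f1 : e1 - e0 = n1 := by omega
  have f2 : e2 - e1 = n2 := by omega
  have f3 : e2 - e0 = n1 + n2 := by omega
  have k1 : ∀ x z : ℤ, nk μ s h η p M e0 n1 x z =
      Real.exp (g * (((z - x : ℤ) : ℝ) - sl μ s * n1)) * W μ s η ((e0 : ℤ), x) n1 (z - x) :=
    hg e0 n1 le_rfl (by omega)
  have k2 : ∀ x z : ℤ, nk μ s h η p M e1 n2 x z =
      Real.exp (g * (((z - x : ℤ) : ℝ) - sl μ s * n2)) * W μ s η ((e1 : ℤ), x) n2 (z - x) :=
    hg e1 n2 (by omega) (by omega)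
  have k3 : ∀ x z : ℤ, nk μ s h η p M e0 (n1 + n2) x z =
      Real.exp (g * (((z - x : ℤ) : ℝ) - sl μ s * ((n1 + n2 : ℕ) : ℝ))) * W μ s η ((e0 : ℤ), x) (n1 + n2) (z - x) :=
    hg e0 (n1 + n2) le_rfl (by omega)
  rw [f1, f2, f3]
  refine ⟨?_, ?_, ?_, ?_⟩
  · have e : (fun x z => nk μ s h η p M e0 n1 x z) = fun x z : ℤ =>
        Real.exp (g * (((z - x : ℤ) : ℝ) - sl μ s * n1)) * W μ s η ((e0 : ℤ), x) n1 (z - x) := by
      funext x z
      exact k1 x z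
    rw [e]
    exact TN_tilt g _ (TN_W (μ := μ) (s := s) η (e0 : ℤ) n1)
  · have e : (fun x z => nk μ s h η p M e1 n2 x z) = fun x z : ℤ =>
        Real.exp (g * (((z - x : ℤ) : ℝ) - sl μ s * n2)) * W μ s η ((e1 : ℤ), x) n2 (z - x) := by
      funext x z
      exact k2 x z
    rw [e]
    exact TN_tilt g _ (TN_W (μ := μ) (s := s) η (e1 : ℤ) n2)
  · rw [k3]
    exact mul_pos (Real.exp_pos _) (W_pos η _ (by omega) (by push_cast; omega))
  · intro P _ pr hP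
    rw [k3]
    have he : (e0 : ℤ) + n1 = ((e1 : ℕ) : ℤ) := by rw [h1]; push_cast; ring
    rw [he] at hP
    have e : ∀ z : ℤ, nk μ s h η p M e0 n1 a0 z * nk μ s h η p M e1 n2 z b0 =
        Real.exp (g * (((b0 - a0 : ℤ) : ℝ) - sl μ s * ((n1 + n2 : ℕ) : ℝ))) *
          (W μ s η ((e0 : ℤ), a0) n1 (z - a0) * W μ s η ((e1 : ℤ), z) n2 (b0 - z)) := by
      intro z
      have e1' : Real.exp (g * (((b0 - a0 : ℤ) : ℝ) - sl μ s * ((n1 + n2 : ℕ) : ℝ))) =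
          Real.exp (g * (((z - a0 : ℤ) : ℝ) - sl μ s * n1)) * Real.exp (g * (((b0 - z : ℤ) : ℝ) - sl μ s * n2)) := by
        rw [← Real.exp_add]
        congr 1
        push_cast
        ring
      rw [k1, k2, e1']
      ring
    simp only [e]
    rw [← mul_sum]
    calc _ ≤ Real.exp (g * (((b0 - a0 : ℤ) : ℝ) - sl μ s * ((n1 + n2 : ℕ) : ℝ))) *
        (pr * W μ s η ((e0 : ℤ), a0) (n1 + n2) (b0 - a0)) := mul_le_mul_of_nonneg_left hP (Real.exp_pos _).le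
      _ = _ := by ring

/-- **The node inequality of the model**, right side. -/
theorem node_B88 (S : Sys16 (fun a b x z => nk μ s h η p M a (b - a) x z) B N) (hp : ∀ k, k < M → p k = Real.exp (s + h))
    (hp' : ∀ k, M ≤ k → p k = Real.exp s) {a e0 e1 e2 n1 n2 : ℕ} (h0 : a ≤ e0) (h1 : e1 = e0 + n1) (h2 : e2 = e1 + n2)
    (hN : e2 ≤ N) (hM : e2 ≤ M ∨ M ≤ e0) (x : ℤ) {a0 b0 z0 : ℤ} (hab : a0 ≤ b0) (hba : b0 ≤ a0 + n1 + n2) {pr : ℝ}
    (hW : ∑ z ∈ Icc a0 (a0 + n1) with z0 ≤ z, W μ s η ((e0 : ℤ), a0) n1 (z - a0) *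
      W μ s η ((e0 : ℤ) + n1, z) n2 (b0 - z) ≤ pr * W μ s η ((e0 : ℤ), a0) (n1 + n2) (b0 - a0)) :
    PM16 (fun a b x z => nk μ s h η p M a (b - a) x z) B a e1 x (fun z => z0 ≤ z) ≤
      PM16 (fun a b x z => nk μ s h η p M a (b - a) x z) B a e0 x (fun z => a0 < z) +
      PM16 (fun a b x z => nk μ s h η p M a (b - a) x z) B a e2 x (fun z => b0 < z) +
      pr * B a x := by
  obtain ⟨t1, t2, t3, t4⟩ := node_data μ η hp hp' h1 h2 hM hab hba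
  exact node16 S h0 (by omega) (by omega) hN t1 t2 x t3 (t4 _ _ hW)

/-- Left side. -/
theorem node_B88' (S : Sys16 (fun a b x z => nk μ s h η p M a (b - a) x z) B N) (hp : ∀ k, k < M → p k = Real.exp (s + h))
    (hp' : ∀ k, M ≤ k → p k = Real.exp s) {a e0 e1 e2 n1 n2 : ℕ} (h0 : a ≤ e0) (h1 : e1 = e0 + n1) (h2 : e2 = e1 + n2)
    (hN : e2 ≤ N) (hM : e2 ≤ M ∨ M ≤ e0) (x : ℤ) {a0 b0 z0 : ℤ} (hab : a0 ≤ b0) (hba : b0 ≤ a0 + n1 + n2) {pr : ℝ}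
    (hW : ∑ z ∈ Icc a0 (a0 + n1) with z ≤ z0, W μ s η ((e0 : ℤ), a0) n1 (z - a0) *
      W μ s η ((e0 : ℤ) + n1, z) n2 (b0 - z) ≤ pr * W μ s η ((e0 : ℤ), a0) (n1 + n2) (b0 - a0)) :
    PM16 (fun a b x z => nk μ s h η p M a (b - a) x z) B a e1 x (fun z => z ≤ z0) ≤
      PM16 (fun a b x z => nk μ s h η p M a (b - a) x z) B a e0 x (fun z => z < a0) +
      PM16 (fun a b x z => nk μ s h η p M a (b - a) x z) B a e2 x (fun z => z < b0) +
      pr * B a x := by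
  obtain ⟨t1, t2, t3, t4⟩ := node_data μ η hp hp' h1 h2 hM hab hba
  exact node16' S h0 (by omega) (by omega) hN t1 t2 x t3 (t4 _ _ hW)

/-! ### the annulus -/

/-- **The annulus for the masses of the model** (`ann88` for `PM16`), any frame point `κ`. -/
theorem ann_B88 (S : Sys16 (fun a b x z => nk μ s h η p M a (b - a) x z) B N) (hp : ∀ k, k < M → p k = Real.exp (s + h))
    (hp' : ∀ k, M ≤ k → p k = Real.exp s) {a e0 e1 e2 n1 n2 : ℕ} (h0 : a ≤ e0) (h1 : e1 = e0 + n1) (h2 : e2 = e1 + n2)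
    (hN : e2 ≤ N) (hM : e2 ≤ M ∨ M ≤ e0) (x : ℤ) {κ : Pt} {ε : ℝ} (hε : ε = 1 ∨ ε = -1) {D D' X' e q x1 pr : ℝ}
    (he : |X' - ((κ.2 : ℝ) + sl μ s * (((e1 : ℤ) - κ.1 : ℤ) : ℝ))| ≤ e) (hD : D' + e ≤ D)
    (g1 : D / 4 + e ≤ 7 / 8 * D') (g2 : 4 * q * D + e ≤ 16 * q * D')
    (hab : 0 ≤ nb μ s ε n2 q X' D' - na μ s ε n1 X' D') (hba : nb μ s ε n2 q X' D' - na μ s ε n1 X' D' ≤ n1 + n2)
    (hx1 : x1 * n1 ≤ D' / 8)
    (hNm : Nm μ s ε x1 η ((e0 : ℤ), na μ s ε n1 X' D') n1 n2 (nb μ s ε n2 q X' D' - na μ s ε n1 X' D') ≤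
      pr * W μ s η ((e0 : ℤ), na μ s ε n1 X' D') (n1 + n2) (nb μ s ε n2 q X' D' - na μ s ε n1 X' D')) :
    PM16 (fun a b x z => nk μ s h η p M a (b - a) x z) B a e1 x
        (fun z => D ≤ ε * lat16 μ s κ ((e1 : ℤ), z)) ≤
      PM16 (fun a b x z => nk μ s h η p M a (b - a) x z) B a e0 x
        (fun z => D / 4 ≤ ε * lat16 μ s κ ((e0 : ℤ), z)) +
      PM16 (fun a b x z => nk μ s h η p M a (b - a) x z) B a e2 x
        (fun z => 4 * q * D ≤ ε * lat16 μ s κ ((e2 : ℤ), z)) +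
      pr * B a x := by
  obtain ⟨a0, ha⟩ : ∃ a0, a0 = na μ s ε n1 X' D' := ⟨_, rfl⟩
  obtain ⟨b0, hb⟩ : ∃ b0, b0 = nb μ s ε n2 q X' D' := ⟨_, rfl⟩
  rw [← ha, ← hb] at hab hba hNm
  unfold na off at ha
  unfold nb off at hb
  obtain ⟨he1, he2⟩ := abs_le.mp he
  have c0 : (e0 : ℤ) = (e1 : ℤ) - n1 := by omega
  have c2 : (e2 : ℤ) = (e1 : ℤ) + n2 := by omega
  have l0 : ∀ z : ℤ, lat16 μ s κ ((e0 : ℤ), z) =
      z - ((κ.2 : ℝ) + sl μ s * (((e1 : ℤ) - κ.1 : ℤ) : ℝ)) + sl μ s * n1 := by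
    intro z
    unfold lat16
    rw [c0]
    push_cast
    ring
  have l1 : ∀ z : ℤ, lat16 μ s κ ((e1 : ℤ), z) = z - ((κ.2 : ℝ) + sl μ s * (((e1 : ℤ) - κ.1 : ℤ) : ℝ)) := by
    intro z
    unfold lat16
    push_cast
    ring
  have l2 : ∀ z : ℤ, lat16 μ s κ ((e2 : ℤ), z) =
      z - ((κ.2 : ℝ) + sl μ s * (((e1 : ℤ) - κ.1 : ℤ) : ℝ)) - sl μ s * n2 := by
    intro z
    unfold lat16
    rw [c2]
    push_cast
    ring
  obtain ⟨X, hX⟩ : ∃ X : ℝ, X = (κ.2 : ℝ) + sl μ s * (((e1 : ℤ) - κ.1 : ℤ) : ℝ) := ⟨_, rfl⟩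
  rw [← hX] at he1 he2 l0 l1 l2
  rcases hε with rfl | rfl
  · rw [if_pos rfl] at ha hb
    have fa := Int.floor_le (X' - sl μ s * n1 + 1 * (7 / 8 * D'))
    rw [← ha] at fa
    have key := node_B88 S hp hp' h0 h1 h2 hN hM x (a0 := a0) (b0 := b0) (z0 := ⌈X + D⌉) (pr := pr)
      (by omega) (by omega) ((Nm_up x1 η (e0 : ℤ) a0 b0 ⌈X + D⌉ n1 n2 (by
        have h3 := Int.le_ceil (X + D)
        push_cast
        nlinarith)).trans hNm)
    refine le_trans ?_ (key.trans (add_le_add (add_le_add ?_ ?_) le_rfl))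
    · refine PM16_mono S (by omega) x fun z _ _ hz => ?_
      rw [l1] at hz
      rw [Int.ceil_le]
      linarith
    · refine PM16_mono S (by omega) x fun z _ _ hz => ?_
      rw [ha, Int.floor_lt] at hz
      rw [l0]
      linarith
    · refine PM16_mono S (by omega) x fun z _ _ hz => ?_
      rw [hb, Int.floor_lt] at hz
      rw [l2]
      linarith
  · have hne : ¬ ((-1 : ℝ) = 1) := by norm_num
    rw [if_neg hne] at ha hb
    have fa := Int.le_ceil (X' - sl μ s * n1 + -1 * (7 / 8 * D'))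
    rw [← ha] at fa
    have key := node_B88' S hp hp' h0 h1 h2 hN hM x (a0 := a0) (b0 := b0) (z0 := ⌊X - D⌋) (pr := pr)
      (by omega) (by omega) ((Nm_dn x1 η (e0 : ℤ) a0 b0 ⌊X - D⌋ n1 n2 (by
        have h3 := Int.floor_le (X - D)
        push_cast
        nlinarith)).trans hNm)
    refine le_trans ?_ (key.trans (add_le_add (add_le_add ?_ ?_) le_rfl))
    · refine PM16_mono S (by omega) x fun z _ _ hz => ?_
      rw [l1] at hz
      rw [Int.le_floor]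
      linarith
    · refine PM16_mono S (by omega) x fun z _ _ hz => ?_
      rw [ha, Int.lt_ceil] at hz
      rw [l0]
      linarith
    · refine PM16_mono S (by omega) x fun z _ _ hz => ?_
      rw [hb, Int.lt_ceil] at hz
      rw [l2]
      linarith

/-! ### two sides -/

section abs

variable {K : ℕ → ℕ → ℤ → ℤ → ℝ}

theorem PM16_abs_le (S : Sys16 K B N) {a e : ℕ} (he : e ≤ N) (x : ℤ) (l : ℤ → ℝ) (D : ℝ) :
    PM16 K B a e x (fun z => D ≤ |l z|) ≤ PM16 K B a e x (fun z => D ≤ 1 * l z) + PM16 K B a e x (fun z => D ≤ -1 * l z) := by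
  unfold PM16
  have h0 : ∀ z, 0 ≤ K a e x z * B e z := fun z => mul_nonneg (S.k0 _ _ _ _) (S.b0 _ _ he).le
  rw [sum_filter, sum_filter, sum_filter, ← sum_add_distrib]
  refine sum_le_sum fun z _ => ?_
  have h1 := h0 z
  by_cases g1 : D ≤ 1 * l z
  · rw [if_pos g1]
    split_ifs <;> linarith
  · by_cases g2 : D ≤ -1 * l z
    · rw [if_pos g2]
      split_ifs <;> linarith
    · have g3 : ¬ D ≤ |l z| := by
        push Not at g1 g2 ⊢
        exact abs_lt.2 ⟨by linarith, by linarith⟩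
      rw [if_neg g1, if_neg g2, if_neg g3, add_zero]

theorem PM16_abs_ge (S : Sys16 K B N) {a e : ℕ} (he : e ≤ N) (x : ℤ) (l : ℤ → ℝ) {D : ℝ} (hD : 0 < D) :
    PM16 K B a e x (fun z => D ≤ 1 * l z) + PM16 K B a e x (fun z => D ≤ -1 * l z) ≤ PM16 K B a e x (fun z => D ≤ |l z|) := by
  unfold PM16
  have h0 : ∀ z, 0 ≤ K a e x z * B e z := fun z => mul_nonneg (S.k0 _ _ _ _) (S.b0 _ _ he).le
  rw [sum_filter, sum_filter, sum_filter, ← sum_add_distrib]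
  refine sum_le_sum fun z _ => ?_
  have h1 := h0 z
  have a1 := le_abs_self (l z)
  have a2 := neg_le_abs (l z)
  by_cases g1 : D ≤ 1 * l z
  · have g2 : ¬ D ≤ -1 * l z := by
      intro g2
      linarith
    rw [if_pos g1, if_neg g2, if_pos (by linarith), add_zero]
  · by_cases g2 : D ≤ -1 * l z
    · rw [if_neg g1, if_pos g2, if_pos (by linarith), zero_add]
    · rw [if_neg g1, if_neg g2, add_zero]
      split_ifs
      · exact h1
      · exact le_rfl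

end abs

/-! ### the normal scales of the model -/

variable [IsProbabilityMeasure μ] {c₀ δ₁ c₁ A aa g θ Y₁ : ℝ} {K0 Kb n₃ : ℕ}

/-- **The normal scales of the model** (`norm94L` for `PM16`): start `(a, x)`, frame through it. -/
theorem norm_B88 (hC : Cs94 μ s c₀ δ₁ c₁ A aa g θ Y₁ K0 Kb n₃) (S : Sys16 (fun a b x z => nk μ s h η p M a (b - a) x z) B N)
    (hp : ∀ k, k < M → p k = Real.exp (s + h)) (hp' : ∀ k, M ≤ k → p k = Real.exp s)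
    {T : ℕ → ℕ} {m j : ℕ} (hT0 : T 0 = 0) (hT1 : n₃ ≤ T 1)
    (hTK : ∀ i, 1 ≤ i → i < m → K0 * T i ≤ T (i + 1)) (hj1 : 1 ≤ j) (hjm : j < m) {a : ℕ} {x : ℤ} (hN : a + T m ≤ N)
    (hM : ∀ i, 1 ≤ i → i < m → a + T (i + 1) ≤ M ∨ M ≤ a + T (i - 1)) {xc : ℕ → ℤ} {R : ℕ}
    (hR : 1 ≤ R) {Y : ℝ} (hY : 8 ≤ Y) (hY1 : Y₁ ≤ Y) {l0 : ℕ}
    (hnu : ∀ i, 1 ≤ i → i < m → nu μ s c₀ δ₁ Y (wd μ s (T i)) (wd μ s (T (i + 1)) / wd μ s (T i)) R ((a : ℤ) + T (i - 1))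
      (T i - T (i - 1)) (T (i + 1) - T i) (xc i) η ≤ ((i : ℤ) - j).natAbs + l0)
    (hX : ∀ i, 1 ≤ i → i < m → |(x : ℝ) + sl μ s * T i - xc i| ≤ (R : ℝ) ^ (((i : ℤ) - j).natAbs + l0) * wd μ s (T i))
    {ε : ℝ} (hε : ε = 1 ∨ ε = -1) {Z : ℝ} (hZ : 2 ^ (l0 + 1) * Y ≤ Z) :
    PM16 (fun a b x z => nk μ s h η p M a (b - a) x z) B a (a + T j) x
        (fun z => Z * wd μ s (T j) ≤ ε * lat16 μ s ((a : ℤ), x) (((a + T j : ℕ) : ℤ), z)) ≤
      2 * T m * (Real.exp (-(c₁ * (Z * EE μ s (T j)))) * B a x +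
        PM16 (fun a b x z => nk μ s h η p M a (b - a) x z) B a (a + T m) x
          (fun z => 4 ^ (m - j) * (Z * wd μ s (T m)) ≤ ε * lat16 μ s ((a : ℤ), x) (((a + T m : ℕ) : ℤ), z))) := by
  obtain ⟨f1, f2, f3⟩ := T_facts hC hT0 hT1 hTK
  obtain ⟨s0, s1⟩ := sl_mem hC.em hC.nd s
  obtain ⟨Q, hQ⟩ : ∃ Q : ℕ → ℝ → ℝ, Q = fun i D =>
      PM16 (fun a b x z => nk μ s h η p M a (b - a) x z) B a (a + T i) x
        (fun z => D ≤ ε * lat16 μ s ((a : ℤ), x) (((a + T i : ℕ) : ℤ), z)) := ⟨_, rfl⟩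
  have hQe : ∀ i D, Q i D = PM16 (fun a b x z => nk μ s h η p M a (b - a) x z) B a (a + T i) x
        (fun z => D ≤ ε * lat16 μ s ((a : ℤ), x) (((a + T i : ℕ) : ℤ), z)) := fun i D => by rw [hQ]
  have hle : ∀ i, i ≤ m → a + T i ≤ N := fun i hi => by
    have := f3 i hi
    omega
  have fr : ∀ i : ℕ, ((((a : ℤ), x) : Pt).2 : ℝ) + sl μ s * (((((a + T i : ℕ) : ℤ) - (((a : ℤ), x) : Pt).1 : ℤ)) : ℝ) =
      (x : ℝ) + sl μ s * T i := by
    intro i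
    push_cast
    ring
  have main := ArmL89.norm94L hC hT0 hT1 hTK hj1 hjm (η := η) (r0 := (a : ℤ)) (x0 := (x : ℝ)) (xc := xc) hR hY hY1 hnu hX hε
    (M := fun i D => if i ≤ m then Q i D else 0)
    (Tot := B a x) (S.b0 a x (by omega)).le
    (fun i D => by
      show 0 ≤ if i ≤ m then Q i D else 0
      split_ifs with hi
      · rw [hQe]
        exact U16.PM16_nonneg S (hle i hi) x _
      · exact le_rfl)
    (fun i D D' hDD => by
      show (if i ≤ m then Q i D' else 0) ≤ if i ≤ m then Q i D else 0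
      split_ifs with hi
      · rw [hQe, hQe]
        exact PM16_mono S (hle i hi) x fun z _ _ hz => hDD.trans hz
      · exact le_rfl)
    (fun i hi D hD => by
      show (if i ≤ m then Q i D else 0) = 0
      rw [if_pos hi, hQe]
      refine U16.PM16_zero x fun z hz1 hz2 hz => ?_
      have e1 : ((a + T i - a : ℕ) : ℤ) = T i := by omega
      rw [e1] at hz2
      have h3 : (x : ℝ) ≤ z := by exact_mod_cast hz1
      have h4 : (z : ℝ) ≤ x + T i := by exact_mod_cast hz2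
      have h5 : (0 : ℝ) ≤ T i := Nat.cast_nonneg _
      have h6 : 0 ≤ sl μ s * T i := mul_nonneg s0.le h5
      have h7 : sl μ s * T i ≤ T i := by nlinarith
      have e2 : lat16 μ s ((a : ℤ), x) (((a + T i : ℕ) : ℤ), z) = (z : ℝ) - x - sl μ s * T i := by
        unfold lat16
        push_cast
        ring
      rw [e2] at hz
      rcases hε with rfl | rfl <;> linarith)
    (fun i hi1 him X' D' D pr k1 k2 k3 k4 k5 k6 k7 => by
      show (if i ≤ m then Q i D else 0) ≤ (if i - 1 ≤ m then Q (i - 1) (D / 4) else 0) +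
        (if i + 1 ≤ m then Q (i + 1) (4 * (wd μ s (T (i + 1)) / wd μ s (T i)) * D) else 0) +
        pr * B a x
      rw [if_pos him.le, if_pos (by omega), if_pos (by omega), hQe, hQe, hQe]
      have h01 : T (i - 1) ≤ T i := by
        have := f2 (i - 1) (by omega)
        rw [show i - 1 + 1 = i by omega] at this
        omega
      have h12 : T i ≤ T (i + 1) := by
        have := f2 i him
        omega
      have h2m := f3 (i + 1) (by omega)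
      have c0 : ((a + T (i - 1) : ℕ) : ℤ) = (a : ℤ) + T (i - 1) := by push_cast; ring
      exact ann_B88 S hp hp' (a := a) (e0 := a + T (i - 1)) (e1 := a + T i) (e2 := a + T (i + 1))
        (n1 := T i - T (i - 1)) (n2 := T (i + 1) - T i) (by omega) (by omega) (by omega) (by omega) (hM i hi1 him) x
        (κ := ((a : ℤ), x)) hε (e := |X' - ((x : ℝ) + sl μ s * T i)|) (by rw [fr]) k1 k2 k3 k4
        (by push_cast at k5 ⊢; exact k5) k6 (by rw [c0]; exact k7)) hZ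
  simp only [if_pos hjm.le, le_refl, if_true] at main
  rw [hQe, hQe] at main
  exact main

/-- **Two sided.** -/
theorem norm_twoB88 (hC : Cs94 μ s c₀ δ₁ c₁ A aa g θ Y₁ K0 Kb n₃) (S : Sys16 (fun a b x z => nk μ s h η p M a (b - a) x z) B N)
    (hp : ∀ k, k < M → p k = Real.exp (s + h)) (hp' : ∀ k, M ≤ k → p k = Real.exp s)
    {T : ℕ → ℕ} {m j : ℕ} (hT0 : T 0 = 0) (hT1 : n₃ ≤ T 1)
    (hTK : ∀ i, 1 ≤ i → i < m → K0 * T i ≤ T (i + 1)) (hj1 : 1 ≤ j) (hjm : j < m) {a : ℕ} {x : ℤ} (hN : a + T m ≤ N)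
    (hM : ∀ i, 1 ≤ i → i < m → a + T (i + 1) ≤ M ∨ M ≤ a + T (i - 1)) {xc : ℕ → ℤ} {R : ℕ}
    (hR : 1 ≤ R) {Y : ℝ} (hY : 8 ≤ Y) (hY1 : Y₁ ≤ Y) {l0 : ℕ}
    (hnu : ∀ i, 1 ≤ i → i < m → nu μ s c₀ δ₁ Y (wd μ s (T i)) (wd μ s (T (i + 1)) / wd μ s (T i)) R ((a : ℤ) + T (i - 1))
      (T i - T (i - 1)) (T (i + 1) - T i) (xc i) η ≤ ((i : ℤ) - j).natAbs + l0)
    (hX : ∀ i, 1 ≤ i → i < m → |(x : ℝ) + sl μ s * T i - xc i| ≤ (R : ℝ) ^ (((i : ℤ) - j).natAbs + l0) * wd μ s (T i))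
    {Z : ℝ} (hZ : 2 ^ (l0 + 1) * Y ≤ Z) :
    PM16 (fun a b x z => nk μ s h η p M a (b - a) x z) B a (a + T j) x
        (fun z => Z * wd μ s (T j) ≤ |lat16 μ s ((a : ℤ), x) (((a + T j : ℕ) : ℤ), z)|) ≤
      2 * T m * (2 * Real.exp (-(c₁ * (Z * EE μ s (T j)))) * B a x +
        PM16 (fun a b x z => nk μ s h η p M a (b - a) x z) B a (a + T m) x
          (fun z => 4 ^ (m - j) * (Z * wd μ s (T m)) ≤ |lat16 μ s ((a : ℤ), x) (((a + T m : ℕ) : ℤ), z)|)) := by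
  obtain ⟨f1, f2, f3⟩ := T_facts hC hT0 hT1 hTK
  have hjm' := f3 j hjm.le
  have hYZ : 0 < Z := by
    have h2 : (1 : ℝ) ≤ 2 ^ (l0 + 1) := one_le_pow₀ one_le_two
    nlinarith
  have hwm : 0 < wd μ s (T m) := by
    have := hC.wd2 _ (f1 m (by omega) le_rfl)
    linarith
  have r1 := norm_B88 hC S hp hp' hT0 hT1 hTK hj1 hjm hN hM hR hY hY1 hnu hX (Or.inl rfl) hZ
  have r2 := norm_B88 hC S hp hp' hT0 hT1 hTK hj1 hjm hN hM hR hY hY1 hnu hX (Or.inr rfl) hZ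
  have r3 := PM16_abs_le S (a := a) (e := a + T j) (by omega) x
    (fun z => lat16 μ s ((a : ℤ), x) (((a + T j : ℕ) : ℤ), z)) (Z * wd μ s (T j))
  have r4 := PM16_abs_ge S (a := a) (e := a + T m) hN x
    (fun z => lat16 μ s ((a : ℤ), x) (((a + T m : ℕ) : ℤ), z)) (D := 4 ^ (m - j) * (Z * wd μ s (T m))) (by positivity)
  have hTm0 : (0 : ℝ) ≤ 2 * T m := by positivity
  have r5 := mul_le_mul_of_nonneg_left r4 hTm0
  nlinarith

/-! ### the masses `bh16` -/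

omit [IsProbabilityMeasure μ] in
/-- The annulus for `bh16`. -/
theorem annPM88 (hpp : ∀ k, 0 < p k) (hp : ∀ k, k < M → p k = Real.exp (s + h))
    (hp' : ∀ k, M ≤ k → p k = Real.exp s) {a e0 e1 e2 n1 n2 : ℕ} (h0 : a ≤ e0) (h1 : e1 = e0 + n1) (h2 : e2 = e1 + n2)
    (hN : e2 ≤ N) (hM : e2 ≤ M ∨ M ≤ e0) (x : ℤ) {κ : Pt} {ε : ℝ} (hε : ε = 1 ∨ ε = -1) {D D' X' e q x1 pr : ℝ}
    (he : |X' - ((κ.2 : ℝ) + sl μ s * (((e1 : ℤ) - κ.1 : ℤ) : ℝ))| ≤ e) (hD : D' + e ≤ D)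
    (g1 : D / 4 + e ≤ 7 / 8 * D') (g2 : 4 * q * D + e ≤ 16 * q * D')
    (hab : 0 ≤ nb μ s ε n2 q X' D' - na μ s ε n1 X' D') (hba : nb μ s ε n2 q X' D' - na μ s ε n1 X' D' ≤ n1 + n2)
    (hx1 : x1 * n1 ≤ D' / 8)
    (hNm : Nm μ s ε x1 η ((e0 : ℤ), na μ s ε n1 X' D') n1 n2 (nb μ s ε n2 q X' D' - na μ s ε n1 X' D') ≤
      pr * W μ s η ((e0 : ℤ), na μ s ε n1 X' D') (n1 + n2) (nb μ s ε n2 q X' D' - na μ s ε n1 X' D')) :
    PM16 (fun a b x z => nk μ s h η p M a (b - a) x z) (bh16 μ s h η p M N) a e1 x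
        (fun z => D ≤ ε * lat16 μ s κ ((e1 : ℤ), z)) ≤
      PM16 (fun a b x z => nk μ s h η p M a (b - a) x z) (bh16 μ s h η p M N) a e0 x
        (fun z => D / 4 ≤ ε * lat16 μ s κ ((e0 : ℤ), z)) +
      PM16 (fun a b x z => nk μ s h η p M a (b - a) x z) (bh16 μ s h η p M N) a e2 x
        (fun z => 4 * q * D ≤ ε * lat16 μ s κ ((e2 : ℤ), z)) +
      pr * bh16 μ s h η p M N a x :=
  ann_B88 (sys_model16 hpp) hp hp' h0 h1 h2 hN hM x hε he hD g1 g2 hab hba hx1 hNm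

/-- The normal scales for `bh16`. -/
theorem norm_model88 (hC : Cs94 μ s c₀ δ₁ c₁ A aa g θ Y₁ K0 Kb n₃) (hpp : ∀ k, 0 < p k)
    (hp : ∀ k, k < M → p k = Real.exp (s + h)) (hp' : ∀ k, M ≤ k → p k = Real.exp s)
    {T : ℕ → ℕ} {m j : ℕ} (hT0 : T 0 = 0) (hT1 : n₃ ≤ T 1)
    (hTK : ∀ i, 1 ≤ i → i < m → K0 * T i ≤ T (i + 1)) (hj1 : 1 ≤ j) (hjm : j < m) {a : ℕ} {x : ℤ} (hN : a + T m ≤ N)
    (hM : ∀ i, 1 ≤ i → i < m → a + T (i + 1) ≤ M ∨ M ≤ a + T (i - 1)) {xc : ℕ → ℤ} {R : ℕ}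
    (hR : 1 ≤ R) {Y : ℝ} (hY : 8 ≤ Y) (hY1 : Y₁ ≤ Y) {l0 : ℕ}
    (hnu : ∀ i, 1 ≤ i → i < m → nu μ s c₀ δ₁ Y (wd μ s (T i)) (wd μ s (T (i + 1)) / wd μ s (T i)) R ((a : ℤ) + T (i - 1))
      (T i - T (i - 1)) (T (i + 1) - T i) (xc i) η ≤ ((i : ℤ) - j).natAbs + l0)
    (hX : ∀ i, 1 ≤ i → i < m → |(x : ℝ) + sl μ s * T i - xc i| ≤ (R : ℝ) ^ (((i : ℤ) - j).natAbs + l0) * wd μ s (T i))
    {ε : ℝ} (hε : ε = 1 ∨ ε = -1) {Z : ℝ} (hZ : 2 ^ (l0 + 1) * Y ≤ Z) :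
    PM16 (fun a b x z => nk μ s h η p M a (b - a) x z) (bh16 μ s h η p M N) a (a + T j) x
        (fun z => Z * wd μ s (T j) ≤ ε * lat16 μ s ((a : ℤ), x) (((a + T j : ℕ) : ℤ), z)) ≤
      2 * T m * (Real.exp (-(c₁ * (Z * EE μ s (T j)))) * bh16 μ s h η p M N a x +
        PM16 (fun a b x z => nk μ s h η p M a (b - a) x z) (bh16 μ s h η p M N) a (a + T m) x
          (fun z => 4 ^ (m - j) * (Z * wd μ s (T m)) ≤ ε * lat16 μ s ((a : ℤ), x) (((a + T m : ℕ) : ℤ), z))) :=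
  norm_B88 hC (sys_model16 hpp) hp hp' hT0 hT1 hTK hj1 hjm hN hM hR hY hY1 hnu hX hε hZ

/-- Two sided. -/
theorem norm_two88 (hC : Cs94 μ s c₀ δ₁ c₁ A aa g θ Y₁ K0 Kb n₃) (hpp : ∀ k, 0 < p k)
    (hp : ∀ k, k < M → p k = Real.exp (s + h)) (hp' : ∀ k, M ≤ k → p k = Real.exp s)
    {T : ℕ → ℕ} {m j : ℕ} (hT0 : T 0 = 0) (hT1 : n₃ ≤ T 1)
    (hTK : ∀ i, 1 ≤ i → i < m → K0 * T i ≤ T (i + 1)) (hj1 : 1 ≤ j) (hjm : j < m) {a : ℕ} {x : ℤ} (hN : a + T m ≤ N)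
    (hM : ∀ i, 1 ≤ i → i < m → a + T (i + 1) ≤ M ∨ M ≤ a + T (i - 1)) {xc : ℕ → ℤ} {R : ℕ}
    (hR : 1 ≤ R) {Y : ℝ} (hY : 8 ≤ Y) (hY1 : Y₁ ≤ Y) {l0 : ℕ}
    (hnu : ∀ i, 1 ≤ i → i < m → nu μ s c₀ δ₁ Y (wd μ s (T i)) (wd μ s (T (i + 1)) / wd μ s (T i)) R ((a : ℤ) + T (i - 1))
      (T i - T (i - 1)) (T (i + 1) - T i) (xc i) η ≤ ((i : ℤ) - j).natAbs + l0)
    (hX : ∀ i, 1 ≤ i → i < m → |(x : ℝ) + sl μ s * T i - xc i| ≤ (R : ℝ) ^ (((i : ℤ) - j).natAbs + l0) * wd μ s (T i))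
    {Z : ℝ} (hZ : 2 ^ (l0 + 1) * Y ≤ Z) :
    PM16 (fun a b x z => nk μ s h η p M a (b - a) x z) (bh16 μ s h η p M N) a (a + T j) x
        (fun z => Z * wd μ s (T j) ≤ |lat16 μ s ((a : ℤ), x) (((a + T j : ℕ) : ℤ), z)|) ≤
      2 * T m * (2 * Real.exp (-(c₁ * (Z * EE μ s (T j)))) * bh16 μ s h η p M N a x +
        PM16 (fun a b x z => nk μ s h η p M a (b - a) x z) (bh16 μ s h η p M N) a (a + T m) x
          (fun z => 4 ^ (m - j) * (Z * wd μ s (T m)) ≤ |lat16 μ s ((a : ℤ), x) (((a + T m : ℕ) : ℤ), z)|)) :=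
  norm_twoB88 hC (sys_model16 hpp) hp hp' hT0 hT1 hTK hj1 hjm hN hM hR hY hY1 hnu hX hZ

end

end Pool.Agent.W_7d29a1_C1.ArmK88
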