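import Pool.Agent.W_7d29a1_C1.TamO16
import Pool.Agent.W_7d29a1_C1.ArmK88

/-!
MP_7d29a1_pr, attractor route [C1], ARMS (board 82697, 83522): GENERAL END PROFILES and the masses `MM16`. (helper88)

* `nk_pos88` : the kernel is positive on the cone;
* `bpr88 .. r G a x` = `∑_y nk a (r - a) x y G y`; **`sys_prof88`** : `G > 0` ⟹ a `Sys16` with top row `r`;
  `bpr88_top` (`= G` at the row `r`), `bpr88_bh16`, `bpr88_mono`, `bpr88_add`, `bpr88_smul`;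
* **`norm_MM88`** : the conclusion of `norm94L` for `MM16` (`TamO16`).
-/

set_option autoImplicit false

namespace Pool.Agent.W_7d29a1_C1.ArmG88

open Finset Pool.Agent.W_7d29a1_F MeasureTheory
open Pool.Agent.W_7d29a1_H (sl EE)
open Pool.Agent.W_7d29a1_HS (wd)
open Pool.Agent.W_7d29a1_C1.K91 (wt wt_pos)
open Pool.Agent.W_7d29a1_C1.FarW89 (nk bl nk_nonneg nk_zero nk_eq_zero)
open Pool.Agent.W_7d29a1_C1.U16 (Sys16 PM16 bh16 sys_model16 lat16 MM16 PN16 ker ker_succ ker_zero ker_nonneg)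
open Pool.Agent.W_7d29a1_C1.H94 (nu Cs94)
open Pool.Agent.W_7d29a1_C1.ArmK88 (norm_B88)

noncomputable section

variable {μ : Measure ℝ} {s h : ℝ} {η : Env} {p : ℕ → ℝ} {M N : ℕ}

/-! ### general end profiles -/

theorem ker_pos88 {w : ℕ → ℤ → ℝ} (hw : ∀ k y, 0 < w k y) (hp : ∀ k, 0 < p k) (i : ℕ) :
    ∀ (n : ℕ) (x y : ℤ), x ≤ y → y ≤ x + n → 0 < ker w p i n x y
  | 0, x, y, h1, h2 => by
    have : y = x := by
      push_cast at h2
      omega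
    rw [ker_zero, if_pos this]
    exact one_pos
  | n + 1, x, y, h1, h2 => by
    rw [ker_succ]
    have a1 := ker_nonneg hw hp i n x y
    have a2 := ker_nonneg hw hp i n x (y - 1)
    have w1 := hw (i + n) y
    have w2 := hw (i + n) (y - 1)
    have p1 := hp (i + n)
    by_cases h3 : y ≤ x + n
    · have := ker_pos88 hw hp i n x y h1 h3
      positivity
    · have := ker_pos88 hw hp i n x (y - 1) (by omega) (by push_cast at h2; omega)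
      positivity

theorem nk_pos88 (hpp : ∀ k, 0 < p k) (i n : ℕ) {x y : ℤ} (h1 : x ≤ y) (h2 : y ≤ x + n) :
    0 < nk μ s h η p M i n x y := by
  have a1 := ker_pos88 (w := wt η) (wt_pos η) hpp i n x y h1 h2
  have a2 := wt_pos η i x
  have a3 := wt_pos η (i + n) y
  unfold nk
  positivity

/-- The backward masses of an end profile `G` at the row `r`. -/
def bpr88 (μ : Measure ℝ) (s h : ℝ) (η : Env) (p : ℕ → ℝ) (M r : ℕ) (G : ℤ → ℝ) (a : ℕ) (x : ℤ) : ℝ :=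
  ∑ y ∈ Icc x (x + ((r - a : ℕ) : ℤ)), nk μ s h η p M a (r - a) x y * G y

theorem bpr88_top (r : ℕ) (G : ℤ → ℝ) (x : ℤ) : bpr88 μ s h η p M r G r x = G x := by
  unfold bpr88
  rw [Nat.sub_self, Nat.cast_zero, add_zero, Icc_self, sum_singleton, nk_zero, if_pos rfl, one_mul]

/-- Over any window. -/
theorem bpr88_X (r : ℕ) (G : ℤ → ℝ) {a : ℕ} {x : ℤ} {X : Finset ℤ} (hX : Icc x (x + ((r - a : ℕ) : ℤ)) ⊆ X) :
    bpr88 μ s h η p M r G a x = ∑ y ∈ X, nk μ s h η p M a (r - a) x y * G y := by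
  unfold bpr88
  refine sum_subset hX fun y _ hy => ?_
  rw [nk_eq_zero _ _ (fun hh => hy (mem_Icc.2 hh)), zero_mul]

theorem bpr88_mono (hpp : ∀ k, 0 < p k) (r : ℕ) {G G' : ℤ → ℝ} (hG : ∀ y, G y ≤ G' y) (a : ℕ) (x : ℤ) :
    bpr88 μ s h η p M r G a x ≤ bpr88 μ s h η p M r G' a x :=
  sum_le_sum fun y _ => mul_le_mul_of_nonneg_left (hG y) (nk_nonneg hpp _ _ _ _)

theorem bpr88_nonneg (hpp : ∀ k, 0 < p k) (r : ℕ) {G : ℤ → ℝ} (hG : ∀ y, 0 ≤ G y) (a : ℕ) (x : ℤ) :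
    0 ≤ bpr88 μ s h η p M r G a x :=
  sum_nonneg fun y _ => mul_nonneg (nk_nonneg hpp _ _ _ _) (hG y)

theorem bpr88_add (r : ℕ) (G G' : ℤ → ℝ) (a : ℕ) (x : ℤ) : bpr88 μ s h η p M r (fun y => G y + G' y) a x =
    bpr88 μ s h η p M r G a x + bpr88 μ s h η p M r G' a x := by
  unfold bpr88
  rw [← sum_add_distrib]
  exact sum_congr rfl fun y _ => by ring

theorem bpr88_smul (r : ℕ) (c : ℝ) (G : ℤ → ℝ) (a : ℕ) (x : ℤ) : bpr88 μ s h η p M r (fun y => c * G y) a x =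
    c * bpr88 μ s h η p M r G a x := by
  unfold bpr88
  rw [mul_sum]
  exact sum_congr rfl fun y _ => by ring

/-- **The system of an end profile** `G > 0` at the row `r`. -/
theorem sys_prof88 (hpp : ∀ k, 0 < p k) (r : ℕ) {G : ℤ → ℝ} (hG : ∀ y, 0 < G y) :
    Sys16 (fun a b x z => nk μ s h η p M a (b - a) x z) (bpr88 μ s h η p M r G) r := by
  have S0 := sys_model16 (μ := μ) (s := s) (h := h) (η := η) (p := p) (M := M) (N := r) hpp
  refine ⟨S0.k0, fun a x _ => ?_, S0.out, S0.one, fun a b x hab hbr => ?_, S0.comp⟩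
  · unfold bpr88
    exact sum_pos (fun y hy => mul_pos (nk_pos88 hpp _ _ (mem_Icc.1 hy).1 (mem_Icc.1 hy).2) (hG y))
      ⟨x, mem_Icc.2 ⟨le_rfl, by omega⟩⟩
  · have h1 : ∀ y, nk μ s h η p M a (r - a) x y =
        ∑ z ∈ Icc x (x + ((b - a : ℕ) : ℤ)), nk μ s h η p M a (b - a) x z * nk μ s h η p M b (r - b) z y := fun y =>
      S0.comp a b r x y hab hbr
    unfold bpr88
    simp only [h1, sum_mul]
    rw [sum_comm]
    refine sum_congr rfl fun z hz => ?_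
    rw [mem_Icc] at hz
    have h2 := bpr88_X (μ := μ) (s := s) (h := h) (η := η) (p := p) (M := M) r G (a := b) (x := z)
      (X := Icc x (x + ((r - a : ℕ) : ℤ))) (Icc_subset_Icc hz.1 (by omega))
    unfold bpr88 at h2
    rw [h2, mul_sum]
    exact sum_congr rfl fun y _ => by ring

/-- `bh16` is the profile `bh16 r`. -/
theorem bpr88_bh16 (hpp : ∀ k, 0 < p k) {r a : ℕ} (har : a ≤ r) (hrN : r ≤ N) (x : ℤ) :
    bpr88 μ s h η p M r (bh16 μ s h η p M N r) a x = bh16 μ s h η p M N a x :=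
  ((sys_model16 (μ := μ) (s := s) (h := h) (η := η) (p := p) (M := M) (N := N) hpp).step a r x har hrN).symm

/-- The mass through the places `Q` of the row `r` is the backward mass of the profile `1_Q B`. -/
theorem bpr88_ind {r a : ℕ} (B : ℕ → ℤ → ℝ) (x : ℤ) (Q : ℤ → Prop) [DecidablePred Q] :
    bpr88 μ s h η p M r (fun y => if Q y then B r y else 0) a x =
      PM16 (fun a b x z => nk μ s h η p M a (b - a) x z) B a r x Q := by
  unfold bpr88 PM16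
  rw [sum_filter]
  refine sum_congr rfl fun y _ => ?_
  by_cases hy : Q y
  · simp only [if_pos hy]
  · simp only [if_neg hy, mul_zero]

/-! ### the masses `MM16` -/

variable [IsProbabilityMeasure μ] {c₀ δ₁ c₁ A aa g θ Y₁ : ℝ} {K0 Kb n₃ : ℕ} {B : ℕ → ℤ → ℝ}

/-- `norm94L` for any `B`, the places written as displacements from the start. -/
theorem norm_G88 (hC : Cs94 μ s c₀ δ₁ c₁ A aa g θ Y₁ K0 Kb n₃)
    (S : Sys16 (fun a b x z => nk μ s h η p M a (b - a) x z) B N)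
    (hp : ∀ k, k < M → p k = Real.exp (s + h)) (hp' : ∀ k, M ≤ k → p k = Real.exp s)
    {T : ℕ → ℕ} {m j : ℕ} (hT0 : T 0 = 0) (hT1 : n₃ ≤ T 1)
    (hTK : ∀ i, 1 ≤ i → i < m → K0 * T i ≤ T (i + 1)) (hj1 : 1 ≤ j) (hjm : j < m) {a : ℕ} {x : ℤ} (hN : a + T m ≤ N)
    (hM : ∀ i, 1 ≤ i → i < m → a + T (i + 1) ≤ M ∨ M ≤ a + T (i - 1)) {xc : ℕ → ℤ} {R : ℕ}
    (hR : 1 ≤ R) {Y : ℝ} (hY : 8 ≤ Y) (hY1 : Y₁ ≤ Y) {l0 : ℕ}
    (hnu : ∀ i, 1 ≤ i → i < m → nu μ s c₀ δ₁ Y (wd μ s (T i)) (wd μ s (T (i + 1)) / wd μ s (T i)) R ((a : ℤ) + T (i - 1))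
      (T i - T (i - 1)) (T (i + 1) - T i) (xc i) η ≤ ((i : ℤ) - j).natAbs + l0)
    (hX : ∀ i, 1 ≤ i → i < m → |(x : ℝ) + sl μ s * T i - xc i| ≤ (R : ℝ) ^ (((i : ℤ) - j).natAbs + l0) * wd μ s (T i))
    {ε : ℝ} (hε : ε = 1 ∨ ε = -1) {Z : ℝ} (hZ : 2 ^ (l0 + 1) * Y ≤ Z) :
    PM16 (fun a b x z => nk μ s h η p M a (b - a) x z) B a (a + T j) x
        (fun z => Z * wd μ s (T j) ≤ ε * ((z : ℝ) - x - sl μ s * T j)) ≤
      2 * T m * (Real.exp (-(c₁ * (Z * EE μ s (T j)))) * B a x +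
        PM16 (fun a b x z => nk μ s h η p M a (b - a) x z) B a (a + T m) x
          (fun z => 4 ^ (m - j) * (Z * wd μ s (T m)) ≤ ε * ((z : ℝ) - x - sl μ s * T m))) := by
  have main := norm_B88 hC S hp hp' hT0 hT1 hTK hj1 hjm hN hM hR hY hY1 hnu hX hε hZ
  have e : ∀ (i : ℕ) (z : ℤ), lat16 μ s ((a : ℤ), x) (((a + T i : ℕ) : ℤ), z) = (z : ℝ) - x - sl μ s * T i := by
    intro i z
    unfold lat16
    push_cast
    ring
  simp only [e] at main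
  exact main

/-- **The conclusion of `norm94L` for `MM16`.** -/
theorem norm_MM88 (hC : Cs94 μ s c₀ δ₁ c₁ A aa g θ Y₁ K0 Kb n₃) (hpp : ∀ k, 0 < p k)
    (hp : ∀ k, k < M → p k = Real.exp (s + h)) (hp' : ∀ k, M ≤ k → p k = Real.exp s)
    {T : ℕ → ℕ} {m j : ℕ} (hT0 : T 0 = 0) (hT1 : n₃ ≤ T 1)
    (hTK : ∀ i, 1 ≤ i → i < m → K0 * T i ≤ T (i + 1)) (hj1 : 1 ≤ j) (hjm : j < m) {r₀ : ℕ} {x : ℤ} (hN : r₀ + T m ≤ N)
    (hM : ∀ i, 1 ≤ i → i < m → r₀ + T (i + 1) ≤ M ∨ M ≤ r₀ + T (i - 1)) {xc : ℕ → ℤ} {R : ℕ}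
    (hR : 1 ≤ R) {Y : ℝ} (hY : 8 ≤ Y) (hY1 : Y₁ ≤ Y) {l0 : ℕ}
    (hnu : ∀ i, 1 ≤ i → i < m → nu μ s c₀ δ₁ Y (wd μ s (T i)) (wd μ s (T (i + 1)) / wd μ s (T i)) R ((r₀ : ℤ) + T (i - 1))
      (T i - T (i - 1)) (T (i + 1) - T i) (xc i) η ≤ ((i : ℤ) - j).natAbs + l0)
    (hX : ∀ i, 1 ≤ i → i < m → |(x : ℝ) + sl μ s * T i - xc i| ≤ (R : ℝ) ^ (((i : ℤ) - j).natAbs + l0) * wd μ s (T i))
    {ε : ℝ} (hε : ε = 1 ∨ ε = -1) {Z : ℝ} (hZ : 2 ^ (l0 + 1) * Y ≤ Z) :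
    MM16 μ s h η p M N r₀ T x ε j (Z * wd μ s (T j)) ≤
      2 * T m * (Real.exp (-(c₁ * (Z * EE μ s (T j)))) * bh16 μ s h η p M N r₀ x +
        MM16 μ s h η p M N r₀ T x ε m (4 ^ (m - j) * (Z * wd μ s (T m)))) :=
  norm_G88 hC (sys_model16 (N := N) hpp) hp hp' hT0 hT1 hTK hj1 hjm hN hM hR hY hY1 hnu hX hε hZ

end

end Pool.Agent.W_7d29a1_C1.ArmG88
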