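import Pool.Agent.W_7d29a1_C1.ArmM94

/-!
MP_7d29a1_pr, C1, ARMS (helper94), part 5: THE LOCAL STEEPNESS LEMMA for every slope `x1 ≥ Y vA n1` (selection of the natural scale).
-/

set_option autoImplicit false

namespace Pool.Agent.W_7d29a1_C1.H94

open MeasureTheory ProbabilityTheory Filter Topology
open Pool.Agent.W_7d29a1_F Pool.Agent.W_7d29a1_h4g Pool.Agent.W_7d29a1_H Pool.Agent.W_7d29a1_HS
open Pool.Agent.W_7d29a1_h47 (EM Nondeg rows)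

noncomputable section

variable {μ : Measure ℝ} [IsProbabilityMeasure μ] {s κ c C K1 : ℝ} {n₀ x₁ : ℕ}

/-- The powers of two. -/
theorem pow_num {Y Q g : ℝ} (hY : 0 ≤ Y) (hQ : 0 < Q) (hg0 : 0 < g) (hg1 : g ≤ 1) (h : Y ≤ 2 ^ 18 * Q ^ 16) :
    Y ^ (g / 16) ≤ 4 * Q ^ g := by
  have h1 : Y ^ (g / 16) ≤ (2 ^ 18 * Q ^ 16) ^ (g / 16) := Real.rpow_le_rpow hY h (by positivity)
  have h2 : ((2 : ℝ) ^ 18 * Q ^ 16) ^ (g / 16) = ((2 : ℝ) ^ 18) ^ (g / 16) * (Q ^ 16) ^ (g / 16) :=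
    Real.mul_rpow (by positivity) (by positivity)
  have h3 : (Q ^ 16) ^ (g / 16) = Q ^ g := by
    rw [← Real.rpow_natCast Q 16, ← Real.rpow_mul hQ.le]
    congr 1
    push_cast
    ring
  have h4 : ((2 : ℝ) ^ 18) ^ (g / 16) ≤ 4 := by
    rw [← Real.rpow_natCast (2 : ℝ) 18, ← Real.rpow_mul (by norm_num)]
    calc (2 : ℝ) ^ (((18 : ℕ) : ℝ) * (g / 16)) ≤ (2 : ℝ) ^ (2 : ℝ) := by
          refine Real.rpow_le_rpow_of_exponent_le (by norm_num) ?_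
          push_cast
          linarith
      _ = 4 := by norm_num
  rw [h2, h3] at h1
  exact h1.trans (mul_le_mul_of_nonneg_right h4 (Real.rpow_nonneg hQ.le g))

/-- **THE LOCAL STEEPNESS LEMMA**: `n1`, `n2` comparable, slope `x1 ≥ Y vA n1`; the whole displacement has a slope at most `x1 / r₀`. -/
theorem lsl94 (hF : Fam94 μ s κ c C n₀ K1 x₁) : ∃ δ₀ r₀ c₀ A a g : ℝ, 0 < δ₀ ∧ 1 ≤ r₀ ∧ 0 < c₀ ∧ 0 < A ∧ 0 < a ∧ 0 < g ∧ g ≤ 1 ∧
    ∀ k : ℕ, ∃ (Y₀ : ℝ) (n₃ : ℕ), 1 ≤ Y₀ ∧ 1 ≤ n₃ ∧ ∀ n1, n₃ ≤ n1 → ∀ n2, 1 ≤ n2 → n1 + n2 ≤ 2 ^ k * n1 → ∀ Y, Y₀ ≤ Y → ∀ x1 : ℝ,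
      Y * vA 1 μ s n1 ≤ x1 → x1 ≤ δ₀ → ∀ ε : ℝ, ε = 1 ∨ ε = -1 → ∀ y : ℤ, 0 ≤ y → y ≤ (n1 + n2 : ℕ) →
      0 ≤ ε * ((y : ℝ) / (n1 + n2 : ℕ) - sl μ s) → r₀ * (ε * ((y : ℝ) / (n1 + n2 : ℕ) - sl μ s)) ≤ x1 →
      (law μ).real {η | Real.exp (-(c₀ * (n1 * J μ s (ε * x1)))) * W μ s η 0 (n1 + n2) y ≤ Nm μ s ε x1 η 0 n1 n2 y} ≤
        A * Real.exp (-(a * Y ^ g)) := by
  have h : In μ s c C n₀ := by
    have := hF.inn 0 (by rw [abs_zero]; exact hF.κ0.le)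
    rwa [add_zero] at this
  obtain ⟨τ₀, k₀, A, a, g, hA, ha, hg, hg1, hcore⟩ := lsl_core94 hF
  obtain ⟨D, d₁, hD1, hd₁, hsym⟩ := h.sym
  obtain ⟨H, δ, hD⟩ := h.dir
  have hs := Set.mem_singleton s
  have hD0 : 0 < D := by linarith
  obtain ⟨n₂, hn₂⟩ := eventually_atTop.1 (h.tv.eventually_lt_const (show (0 : ℝ) < d₁ / 2 by positivity))
  obtain ⟨τ₁, hτ₁⟩ : ∃ τ₁, τ₁ = max τ₀ n₂ := ⟨_, rfl⟩
  have hv1 : 0 < vA 1 μ s (2 ^ τ₁) := h.vA_pos Nat.one_le_two_pow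
  refine ⟨4 * vA 1 μ s (2 ^ τ₁), 2 ^ (k₀ + 3), 1 / (4 * D ^ 4), A, a / 4, g / 16, by positivity, one_le_pow₀ one_le_two, by positivity,
    hA, by positivity, by positivity, by linarith, fun k => ?_⟩
  obtain ⟨i₀, hi₀⟩ := hcore (k + 16)
  obtain ⟨n₄, hn₄⟩ := wd_large h (4 * vA 1 μ s (2 ^ τ₁) * 2 ^ τ₁ / 4)
  refine ⟨4 * 2 ^ (16 * i₀), max n₄ 1, ?_, le_max_right _ _, fun n1 hn1 n2 hn2 hnn Y hY x1 hx1 hx1d ε hε y hy0 hy1 hyε hyr => ?_⟩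
  · have : (1 : ℝ) ≤ 2 ^ (16 * i₀) := one_le_pow₀ one_le_two
    linarith
  have hn11 : 1 ≤ n1 := (le_max_right _ _).trans hn1
  have hn1r : (0 : ℝ) < n1 := by exact_mod_cast hn11
  have hp16 : (1 : ℝ) ≤ 2 ^ (16 * i₀) := one_le_pow₀ one_le_two
  have hY4 : 4 ≤ Y := by linarith
  have hY0 : 0 < Y := by linarith
  have hvn := h.vA_pos hn11
  have hx10 : 0 < x1 := lt_of_lt_of_le (by positivity) hx1
  -- the natural scale
  have hex : ∃ τ, τ₁ ≤ τ ∧ 2 * vA 1 μ s (2 ^ τ) ≤ x1 := by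
    obtain ⟨n₅, hn₅⟩ := eventually_atTop.1 (h.tv.eventually_lt_const (show (0 : ℝ) < x1 / 2 by positivity))
    refine ⟨max τ₁ n₅, le_max_left _ _, ?_⟩
    have := hn₅ (2 ^ max τ₁ n₅) ((le_max_right _ _).trans Nat.lt_two_pow_self.le)
    linarith
  classical
  obtain ⟨τ, hτ⟩ : ∃ τ, τ = Nat.find hex := ⟨_, rfl⟩
  have hτs := Nat.find_spec hex
  rw [← hτ] at hτs
  obtain ⟨hτa, hτb⟩ := hτs
  have hmin : τ₁ < τ → x1 < 2 * vA 1 μ s (2 ^ (τ - 1)) := by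
    intro hlt
    have h1 := Nat.find_min hex (m := τ - 1) (by rw [← hτ]; omega)
    by_contra hcon
    exact h1 ⟨by omega, not_lt.1 hcon⟩
  have hlow : x1 ≤ 4 * vA 1 μ s (2 ^ τ) := by
    rcases hτa.eq_or_lt with h1 | h1
    · rw [← h1]
      exact hx1d
    · have h2 := hmin h1
      have h3 := hD.vA_two hs (a := 1) zero_le_one (n := 2 ^ (τ - 1)) Nat.one_le_two_pow
      have h4 : 2 * 2 ^ (τ - 1) = 2 ^ τ := by
        rw [← pow_succ']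
        congr 1
        omega
      rw [h4] at h3
      linarith
  have hR : Y * 2 ^ τ ≤ 4 * (n1 : ℝ) := by
    rcases hτa.eq_or_lt with h1 | h1
    · have h2 := hn₄ n1 ((le_max_left _ _).trans hn1)
      unfold wd at h2
      have h3 : Y * (n1 * vA 1 μ s n1) ≤ n1 * (4 * vA 1 μ s (2 ^ τ₁)) := by
        calc Y * (n1 * vA 1 μ s n1) = n1 * (Y * vA 1 μ s n1) := by ring
          _ ≤ n1 * (4 * vA 1 μ s (2 ^ τ₁)) := mul_le_mul_of_nonneg_left (hx1.trans hx1d) hn1r.le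
      have h4 := mul_le_mul_of_nonneg_left h2 hY0.le
      rw [← h1]
      have h5 : vA 1 μ s (2 ^ τ₁) * (Y * 2 ^ τ₁) ≤ vA 1 μ s (2 ^ τ₁) * (4 * n1) := by linarith
      exact le_of_mul_le_mul_left h5 hv1
    · have h2 := hmin h1
      obtain ⟨m, hm⟩ : ∃ m, m = 2 ^ (τ - 1) := ⟨_, rfl⟩
      rw [← hm] at h2
      have hm1 : 1 ≤ m := by rw [hm]; exact Nat.one_le_two_pow
      have hmn : m ≤ n1 := by
        by_contra hcon
        have h3 := hD.vA_le_two hs (a := 1) zero_le_one hn11 (not_le.1 hcon).le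
        have h4 : 4 * vA 1 μ s n1 ≤ Y * vA 1 μ s n1 := mul_le_mul_of_nonneg_right hY4 hvn.le
        linarith
      have h3 := hD.w_mono hs (a := 1) zero_le_one hm1 hmn
      have hmr : (0 : ℝ) < m := by exact_mod_cast hm1
      have h4 : Y * (x1 * m) ≤ 2 * (x1 * n1) := by
        calc Y * (x1 * m) ≤ Y * (2 * vA 1 μ s m * m) :=
              mul_le_mul_of_nonneg_left (mul_le_mul_of_nonneg_right h2.le hmr.le) hY0.le
          _ = 2 * (Y * (m * vA 1 μ s m)) := by ring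
          _ ≤ 2 * (Y * (n1 * vA 1 μ s n1)) := mul_le_mul_of_nonneg_left (mul_le_mul_of_nonneg_left h3 hY0.le) (by norm_num)
          _ = 2 * ((Y * vA 1 μ s n1) * n1) := by ring
          _ ≤ 2 * (x1 * n1) := mul_le_mul_of_nonneg_left (mul_le_mul_of_nonneg_right hx1 hn1r.le) (by norm_num)
      have h5 : x1 * (Y * m) ≤ x1 * (2 * n1) := by linarith
      have h6 : Y * m ≤ 2 * n1 := le_of_mul_le_mul_left h5 hx10
      have h7 : (m : ℝ) * 2 = 2 ^ τ := by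
        rw [hm]
        push_cast
        rw [← pow_succ]
        congr 1
        omega
      have h8 : Y * 2 ^ τ = 2 * (Y * m) := by rw [← h7]; ring
      linarith
  -- the number of octaves
  obtain ⟨L, hL⟩ : ∃ L, L = Nat.log 2 n1 := ⟨_, rfl⟩
  have hL1 : 2 ^ L ≤ n1 := by rw [hL]; exact Nat.pow_log_le_self 2 (by omega)
  have hL2 : n1 < 2 ^ (L + 1) := by rw [hL]; exact Nat.lt_pow_succ_log_self (by norm_num) n1
  have hτi : 2 ^ (τ + 16 * i₀) ≤ n1 := by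
    have h1 : (4 * 2 ^ (16 * i₀)) * 2 ^ τ ≤ 4 * (n1 : ℝ) :=
      (mul_le_mul_of_nonneg_right hY (by positivity)).trans hR
    have h2 : ((2 ^ (τ + 16 * i₀) : ℕ) : ℝ) ≤ n1 := by
      push_cast
      rw [pow_add]
      linarith
    exact_mod_cast h2
  have hτL : τ + 16 * i₀ ≤ L := by
    rw [hL]
    exact Nat.le_log_of_pow_le (by norm_num) hτi
  obtain ⟨i, hi⟩ : ∃ i, i = (L - τ) / 16 := ⟨_, rfl⟩
  have hi1 : 16 * i ≤ L - τ := by omega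
  have hi2 : L - τ < 16 * (i + 1) := by omega
  have hii : i₀ ≤ i := by omega
  have hn1lo : 2 ^ (τ + 16 * i) ≤ n1 := (Nat.pow_le_pow_right (by norm_num) (by omega)).trans hL1
  have hn1hi : n1 ≤ 2 ^ (τ + 16 * i + 16) := hL2.le.trans (Nat.pow_le_pow_right (by norm_num) (by omega))
  have hnhi : n1 + n2 ≤ 2 ^ (τ + (16 * i + (k + 16))) := by
    refine hnn.trans ((Nat.mul_le_mul_left _ hn1hi).trans (le_of_eq ?_))
    rw [← pow_add]
    congr 1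
    ring
  have hfin := hi₀ τ (((le_max_left _ _).trans hτ₁.ge).trans hτa) i hii ε hε n1 n2 hn2 hn1lo hnhi x1 hτb y hy0 hy1 hyε (by
    have e : (2 : ℝ) ^ (k₀ + 3) = 4 * 2 ^ (k₀ + 1) := by ring
    rw [e] at hyr
    linarith)
  -- the power
  have hYQ : Y ≤ 2 ^ 18 * ((2 : ℝ) ^ i) ^ 16 := by
    have h1 : (n1 : ℝ) ≤ 2 ^ (τ + 16 * i + 16) := by exact_mod_cast hn1hi
    have h2 : Y * 2 ^ τ ≤ (2 ^ 18 * ((2 : ℝ) ^ i) ^ 16) * 2 ^ τ := by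
      calc Y * 2 ^ τ ≤ 4 * 2 ^ (τ + 16 * i + 16) := hR.trans (mul_le_mul_of_nonneg_left h1 (by norm_num))
        _ = _ := by
          rw [← pow_mul, pow_add, pow_add]
          ring
    exact le_of_mul_le_mul_right h2 (by positivity)
  have hpow := pow_num hY0.le (show (0 : ℝ) < 2 ^ i by positivity) hg hg1 hYQ
  have hexp : A * Real.exp (-(a * ((2 : ℝ) ^ i) ^ g)) ≤ A * Real.exp (-(a / 4 * Y ^ (g / 16))) := by
    refine mul_le_mul_of_nonneg_left (Real.exp_le_exp.2 (neg_le_neg ?_)) hA.le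
    calc a / 4 * Y ^ (g / 16) ≤ a / 4 * (4 * ((2 : ℝ) ^ i) ^ g) := mul_le_mul_of_nonneg_left hpow (by positivity)
      _ = _ := by ring
  refine le_trans (measureReal_mono (fun η hη => ?_) (measure_ne_top _ _)) (hfin.trans hexp)
  rw [Set.mem_ofPred_eq] at hη ⊢
  refine le_trans (mul_le_mul_of_nonneg_right (Real.exp_le_exp.2 (neg_le_neg ?_)) (W_nonneg _ _ _ _)) hη
  -- the gain
  have hτn : n₂ ≤ 2 ^ τ := (((le_max_right _ _).trans hτ₁.ge).trans hτa).trans Nat.lt_two_pow_self.le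
  have hvd := hn₂ _ hτn
  obtain ⟨v, hv⟩ : ∃ v, v = vA 1 μ s (2 ^ τ) := ⟨_, rfl⟩
  rw [← hv] at hvd hlow
  have hv0 : 0 < v := by rw [hv]; exact h.vA_pos Nat.one_le_two_pow
  have hεa : |ε| = 1 := by rcases hε with rfl | rfl <;> simp
  have j1 := (J_u0_14 hD hs hD1 hsym (m := 2 ^ τ) Nat.one_le_two_pow (by rw [← hv]; linarith) hε).2
  rw [← hv] at j1
  have j2 : J μ s (2 * (ε * v)) ≤ D * J μ s (ε * v) := (hsym _ (by rw [abs_mul, hεa, one_mul, abs_of_pos hv0]; linarith)).1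
  have j3 : J μ s (2 * (2 * (ε * v))) ≤ D * J μ s (2 * (ε * v)) :=
    (hsym _ (by rw [abs_mul, abs_mul, hεa, one_mul, abs_of_pos hv0, abs_two]; linarith)).1
  have j4 : J μ s (ε * x1) ≤ J μ s (2 * (2 * (ε * v))) := by
    have hcv := J_convex h.em h.nd s
    have hθ0 : 0 ≤ x1 / (4 * v) := by positivity
    have hθ1 : x1 / (4 * v) ≤ 1 := (div_le_one (by positivity)).2 hlow
    have h6 := hcv.2 (Set.mem_univ (2 * (2 * (ε * v)))) (Set.mem_univ 0) hθ0 (sub_nonneg.2 hθ1) (by ring)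
    simp only [smul_eq_mul, mul_zero, add_zero, J_zero h.em h.nd s] at h6
    have e : x1 / (4 * v) * (2 * (2 * (ε * v))) = ε * x1 := by
      field_simp
      ring
    rw [e] at h6
    exact h6.trans (mul_le_of_le_one_left (J_nonneg h.em h.nd s _) hθ1)
  have ht0 : (0 : ℝ) < 2 ^ τ := by positivity
  have hcast : ((2 ^ τ : ℕ) : ℝ) = 2 ^ τ := by push_cast; ring
  rw [hcast] at j1
  have j5 : 2 ^ τ * J μ s (ε * x1) ≤ D ^ 4 * EE μ s (2 ^ τ) := by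
    calc (2 : ℝ) ^ τ * J μ s (ε * x1) ≤ 2 ^ τ * (D * (D * J μ s (ε * v))) :=
          mul_le_mul_of_nonneg_left (j4.trans (j3.trans (mul_le_mul_of_nonneg_left j2 hD0.le))) ht0.le
      _ = D ^ 2 * (2 ^ τ * J μ s (ε * v)) := by ring
      _ ≤ D ^ 2 * (D ^ 2 * EE μ s (2 ^ τ)) := mul_le_mul_of_nonneg_left j1 (by positivity)
      _ = _ := by ring
  rw [le_div_iff₀ (by positivity)]
  calc 1 / (4 * D ^ 4) * (n1 * J μ s (ε * x1)) * (4 * 2 ^ τ) = n1 / D ^ 4 * (2 ^ τ * J μ s (ε * x1)) := by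
        field_simp
    _ ≤ n1 / D ^ 4 * (D ^ 4 * EE μ s (2 ^ τ)) := mul_le_mul_of_nonneg_left j5 (by positivity)
    _ = n1 * EE μ s (2 ^ τ) := by field_simp

end

end Pool.Agent.W_7d29a1_C1.H94
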