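import Pool.Agent.W_7d29a1_C1.ArmD94

/-!
MP_7d29a1_pr, C1, ARMS (helper94's text 81398): the exponential moment of the fat level of a node (S1), the sum of the levels of the chain
of nodes above a site (S2), the same for the reversed environment (S3), and the number of the scales which are not normal. (helper89)
-/

set_option autoImplicit false

namespace Pool.Agent.W_7d29a1_C1.ArmS89

open MeasureTheory ProbabilityTheory Finset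
open Pool.Agent.W_7d29a1_F Pool.Agent.W_7d29a1_h4g Pool.Agent.W_7d29a1_H Pool.Agent.W_7d29a1_HS
open Pool.Agent.W_7d29a1_C1.H94 Pool.Agent.W_7d29a1_C1.ArmC89
open Pool.Agent.W_7d29a1_g (rv)

noncomputable section

variable {μ : Measure ℝ} [IsProbabilityMeasure μ] {s c₀ δ₁ c₁ A a g θ Y₁ c C : ℝ} {K0 Kb n₃ n₀ : ℕ}

/-! ### (S1) The exponential moment -/

/-- The moment is near `1`. -/
theorem nu_mom_d (hC : Cs94 μ s c₀ δ₁ c₁ A a g θ Y₁ K0 Kb n₃) {R : ℕ} (hR : 1 ≤ R) {z d : ℝ} (hz : 1 ≤ z) (hd : 0 < d) :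
    ∃ Y₂ : ℝ, 8 * Y₁ ≤ Y₂ ∧ 8 ≤ Y₂ ∧ ∀ Y : ℝ, Y₂ ≤ Y → ∀ n1 n2 : ℕ, n₃ ≤ n1 → 1 ≤ n2 → n2 ≤ Kb * n1 → ∀ w q : ℝ, 1 ≤ q →
    q * n1 ≤ θ * n2 → wd μ s n1 ≤ 8 * w → ∀ r x : ℤ,
    Integrable (fun η : Env => z ^ nu μ s c₀ δ₁ Y w q R r n1 n2 x η) (law μ) ∧
      1 ≤ ∫ η : Env, z ^ nu μ s c₀ δ₁ Y w q R r n1 n2 x η ∂(law μ) ∧
      ∫ η : Env, z ^ nu μ s c₀ δ₁ Y w q R r n1 n2 x η ∂(law μ) ≤ 1 + d := by
  have hA := hC.A0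
  have ha := hC.a0
  have hg := hC.g0
  have hz0 : 0 < z := by linarith
  obtain ⟨Y₂, h1, h2, h3⟩ := nu_tail hC hR
  obtain ⟨Y₃, h4, h5⟩ := tail_num (A := 12 * A / d) (a := a / (2 * 16 ^ g)) (g := g) (by positivity) (by positivity) hg
    (Real.log z + 1)
  refine ⟨max Y₂ Y₃, h1.trans (le_max_left _ _), h2.trans (le_max_left _ _),
    fun Y hY n1 n2 hn1 hn2 hnb w q hq hqn hw r x => ?_⟩
  have hY2 : Y₂ ≤ Y := (le_max_left _ _).trans hY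
  have hY3 : Y₃ ≤ Y := (le_max_right _ _).trans hY
  have hY0 : 0 < Y := by linarith
  have hwd := hC.wd2 n1 hn1
  have hw0 : 0 < w := by linarith
  have hl := lev_exp (P := law μ) (meas_nu (μ := μ) hY0 hw0 s c₀ δ₁ q R r n1 n2 x) (Real.log_nonneg hz) hd.le fun i hi => by
    refine (h3 Y hY2 n1 n2 hn1 hn2 hnb w q hq hqn hw r x i hi).trans ?_
    have h6 := mul_le_mul_of_nonneg_left (h5 Y hY3 i hi) hd.le
    refine le_trans (le_of_eq ?_) h6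
    field_simp
  have e : ∀ n : ℕ, Real.exp (Real.log z * n) = z ^ n := fun n => by
    rw [mul_comm, Real.exp_nat_mul, Real.exp_log hz0]
  simp only [e] at hl
  exact hl

/-- **(S1)** -/
theorem nu_mom (hC : Cs94 μ s c₀ δ₁ c₁ A a g θ Y₁ K0 Kb n₃) {R : ℕ} (hR : 1 ≤ R) {z : ℝ} (hz : 1 ≤ z) :
    ∃ Y₂ : ℝ, 8 * Y₁ ≤ Y₂ ∧ 8 ≤ Y₂ ∧ ∀ Y : ℝ, Y₂ ≤ Y → ∀ n1 n2 : ℕ, n₃ ≤ n1 → 1 ≤ n2 → n2 ≤ Kb * n1 → ∀ w q : ℝ, 1 ≤ q →
    q * n1 ≤ θ * n2 → wd μ s n1 ≤ 8 * w → ∀ r x : ℤ,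
    Integrable (fun η : Env => z ^ nu μ s c₀ δ₁ Y w q R r n1 n2 x η) (law μ) ∧
      1 ≤ ∫ η : Env, z ^ nu μ s c₀ δ₁ Y w q R r n1 n2 x η ∂(law μ) ∧
      ∫ η : Env, z ^ nu μ s c₀ δ₁ Y w q R r n1 n2 x η ∂(law μ) ≤ 2 := by
  obtain ⟨Y₂, h1, h2, h3⟩ := nu_mom_d hC hR hz one_pos
  refine ⟨Y₂, h1, h2, fun Y hY n1 n2 hn1 hn2 hnb w q hq hqn hw r x => ?_⟩
  obtain ⟨h4, h5, h6⟩ := h3 Y hY n1 n2 hn1 hn2 hnb w q hq hqn hw r x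
  exact ⟨h4, h5, by linarith⟩

/-! ### The chain of the nodes -/

/-- The level of the node `i` of the chain `T` above the row `r0`, with the centres `xc`. -/
def nuT (μ : Measure ℝ) (s c₀ δ₁ Y : ℝ) (R : ℕ) (T : ℕ → ℕ) (r0 : ℤ) (xc : ℕ → ℤ) (i : ℕ) (η : Env) : ℕ :=
  nu μ s c₀ δ₁ Y (wd μ s (T i)) (wd μ s (T (i + 1)) / wd μ s (T i)) R (r0 + T (i - 1)) (T i - T (i - 1)) (T (i + 1) - T i) (xc i) η

/-- The centres on the line of the site `c`. -/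
def xl (μ : Measure ℝ) (s : ℝ) (T : ℕ → ℕ) (c : Pt) (i : ℕ) : ℤ := c.2 + ⌊sl μ s * T i⌋

/-- The numbers of the nodes of a chain. -/
theorem node_all (hC : Cs94 μ s c₀ δ₁ c₁ A a g θ Y₁ K0 Kb n₃) (h : In μ s c C n₀) {Kb' : ℕ} (hKb : 2 * Kb' ≤ Kb) {T : ℕ → ℕ} {m : ℕ}
    (hT0 : T 0 = 0) (hT1 : n₃ ≤ T 1) (hTK : ∀ i, 1 ≤ i → i < m → K0 * T i ≤ T (i + 1))
    (hTB : ∀ i, 1 ≤ i → i < m → T (i + 1) ≤ Kb' * T i) {i : ℕ} (hi1 : 1 ≤ i) (hi : i < m) :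
    0 < wd μ s (T i) ∧ n₃ ≤ T i - T (i - 1) ∧ 1 ≤ T (i + 1) - T i ∧ T (i + 1) - T i ≤ Kb * (T i - T (i - 1)) ∧
      1 ≤ wd μ s (T (i + 1)) / wd μ s (T i) ∧
      wd μ s (T (i + 1)) / wd μ s (T i) * (T i - T (i - 1) : ℕ) ≤ θ * (T (i + 1) - T i : ℕ) ∧
      wd μ s (T i - T (i - 1)) ≤ 8 * wd μ s (T i) := by
  obtain ⟨f1, f2, f3⟩ := T_facts hC hT0 hT1 hTK
  have hK := hC.K4
  have hn := hC.n1
  have h01 : 4 * T (i - 1) ≤ T i := by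
    have := f2 (i - 1) (by omega)
    rwa [show i - 1 + 1 = i by omega] at this
  have hTi := f1 i hi1 hi.le
  obtain ⟨g1, g2, g3, g4, g5⟩ := node_num hC h01 hTi (hTK i hi1 hi)
  have hw2 := hC.wd2 (T i) hTi
  have hn1 : n₃ ≤ T i - T (i - 1) := by
    rcases Nat.lt_or_ge 1 i with h1 | h1
    · have h2 := f1 (i - 1) (by omega) (by omega)
      omega
    · have h2 : i = 1 := by omega
      subst h2
      rw [Nat.sub_self, hT0, Nat.sub_zero]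
      exact hT1
  refine ⟨by linarith, hn1, g2, ?_, g4, g5, ?_⟩
  · have h1 := hTB i hi1 hi
    calc T (i + 1) - T i ≤ T (i + 1) := Nat.sub_le _ _
      _ ≤ Kb' * T i := h1
      _ ≤ Kb' * (2 * (T i - T (i - 1))) := Nat.mul_le_mul_left _ g3
      _ = 2 * Kb' * (T i - T (i - 1)) := by ring
      _ ≤ Kb * (T i - T (i - 1)) := Nat.mul_le_mul_right _ hKb
  · have h1 := wd_le_two h (m := T i - T (i - 1)) (n := T i) (by omega) (Nat.sub_le _ _)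
    linarith

theorem meas_nuT {Y : ℝ} (hY : 0 < Y) (s c₀ δ₁ : ℝ) (R : ℕ) (T : ℕ → ℕ) (r0 : ℤ) (xc : ℕ → ℤ) {i : ℕ} (hw : 0 < wd μ s (T i)) :
    Measurable (nuT μ s c₀ δ₁ Y R T r0 xc i) :=
  meas_nu hY hw s c₀ δ₁ _ R _ _ _ _

theorem dep_nuT (s c₀ δ₁ Y : ℝ) (R : ℕ) (T : ℕ → ℕ) (r0 : ℤ) (xc : ℕ → ℤ) {i : ℕ} (h1 : T (i - 1) ≤ T i) (h2 : T i ≤ T (i + 1)) :
    DependsOn (nuT μ s c₀ δ₁ Y R T r0 xc i) (rows (r0 + T (i - 1)) (r0 + T (i + 1))) := by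
  have h := dep_nu (μ := μ) s c₀ δ₁ Y (wd μ s (T i)) (wd μ s (T (i + 1)) / wd μ s (T i)) R (r0 + T (i - 1)) (T i - T (i - 1))
    (T (i + 1) - T i) (xc i)
  have e : r0 + (T (i - 1) : ℤ) + ((T i - T (i - 1) : ℕ) : ℤ) + ((T (i + 1) - T i : ℕ) : ℤ) = r0 + T (i + 1) := by omega
  rw [e] at h
  exact h

/-- **The sum of the levels of a chain of nodes, any centres.** -/
theorem chain_prob (hC : Cs94 μ s c₀ δ₁ c₁ A a g θ Y₁ K0 Kb n₃) (h : In μ s c C n₀) {Kb' : ℕ} (hKb : 2 * Kb' ≤ Kb) {R : ℕ} (hR : 1 ≤ R)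
    (L : ℝ) {δ : ℝ} (hδ : 0 < δ) : ∃ Y₂ : ℝ, 8 * Y₁ ≤ Y₂ ∧ 8 ≤ Y₂ ∧ ∀ Y : ℝ, Y₂ ≤ Y → ∀ (T : ℕ → ℕ) (m : ℕ), T 0 = 0 → n₃ ≤ T 1 →
    (∀ i, 1 ≤ i → i < m → K0 * T i ≤ T (i + 1)) → (∀ i, 1 ≤ i → i < m → T (i + 1) ≤ Kb' * T i) → ∀ (r0 : ℤ) (xc : ℕ → ℤ),
    (law μ).real {η | δ * m ≤ ∑ i ∈ Ico 1 m, (nuT μ s c₀ δ₁ Y R T r0 xc i η : ℝ)} ≤ Real.exp (-(L * m)) := by
  classical
  have hA := hC.A0
  have ha := hC.a0
  have hg := hC.g0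
  obtain ⟨Y₂, h1, h2, h3⟩ := nu_tail hC hR
  obtain ⟨Y₃, h4, h5⟩ := prob89 (A := 12 * A) (a := a / (2 * 16 ^ g)) (g := g) (by positivity) (by positivity) hg L hδ
  refine ⟨max Y₂ Y₃, h1.trans (le_max_left _ _), h2.trans (le_max_left _ _), fun Y hY T m hT0 hT1 hTK hTB r0 xc => ?_⟩
  have hY2 : Y₂ ≤ Y := (le_max_left _ _).trans hY
  have hY3 : Y₃ ≤ Y := (le_max_right _ _).trans hY
  have hY0 : 0 < Y := by linarith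
  obtain ⟨f1, f2, f3⟩ := T_facts hC hT0 hT1 hTK
  have hmono : ∀ i k, i + k ≤ m → T i ≤ T (i + k) := by
    intro i k
    induction k with
    | zero => intro _; exact le_rfl
    | succ k ih =>
      intro hk
      have h6 := f2 (i + k) (by omega)
      have h7 := ih (by omega)
      have e : i + (k + 1) = i + k + 1 := by ring
      rw [e]
      omega
  obtain ⟨xi, hxi⟩ : ∃ xi : ℕ → Env → ℕ, xi = fun i => if i = 0 then fun _ => 0 else nuT μ s c₀ δ₁ Y R T r0 xc i := ⟨_, rfl⟩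
  have x0 : xi 0 = fun _ => 0 := by rw [hxi]; exact if_pos rfl
  have x1 : ∀ i, 1 ≤ i → xi i = nuT μ s c₀ δ₁ Y R T r0 xc i := fun i hi => by
    rw [hxi]
    exact if_neg (by omega)
  obtain ⟨S, hS⟩ : ∃ S : ℕ → Set Pt, S = fun i => if i = 0 then ∅ else rows (r0 + T (i - 1)) (r0 + T (i + 1)) := ⟨_, rfl⟩
  have s0 : S 0 = ∅ := by rw [hS]; exact if_pos rfl
  have s1 : ∀ i, 1 ≤ i → S i = rows (r0 + T (i - 1)) (r0 + T (i + 1)) := fun i hi => by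
    rw [hS]
    exact if_neg (by omega)
  have key := h5 Y hY3 μ m xi S ?_ ?_ ?_ ?_
  · refine le_trans (le_of_eq ?_) key
    congr 1
    ext η
    simp only [Set.mem_ofPred_eq]
    have e : ∑ i ∈ range m, (xi i η : ℝ) = ∑ i ∈ Ico 1 m, (nuT μ s c₀ δ₁ Y R T r0 xc i η : ℝ) := by
      rcases Nat.eq_zero_or_pos m with hm | hm
      · subst hm
        rfl
      · rw [range_eq_Ico, sum_eq_sum_Ico_succ_bot hm, x0, Nat.cast_zero, zero_add]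
        exact sum_congr rfl fun i hi => by rw [x1 i (mem_Ico.1 hi).1]
    rw [e]
  · intro i hi
    rcases Nat.eq_zero_or_pos i with h6 | h6
    · subst h6
      rw [x0]
      exact measurable_const
    · rw [x1 i h6]
      exact meas_nuT hY0 s c₀ δ₁ R T r0 xc (node_all hC h hKb hT0 hT1 hTK hTB h6 hi).1
  · intro i hi
    rcases Nat.eq_zero_or_pos i with h6 | h6
    · subst h6
      rw [x0]
      intro η η' _
      rfl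
    · rw [x1 i h6, s1 i h6]
      refine dep_nuT (μ := μ) s c₀ δ₁ Y R T r0 xc ?_ ?_
      · have := hmono (i - 1) 1 (by omega)
        rwa [show i - 1 + 1 = i by omega] at this
      · exact hmono i 1 (by omega)
  · intro i i' hi hi' hii
    rcases Nat.eq_zero_or_pos i with h6 | h6
    · subst h6
      rw [s0]
      exact Set.empty_disjoint _
    · rw [s1 i h6, s1 i' (by omega), Set.disjoint_left]
      intro p hp hp'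
      have h7 : T (i + 1) ≤ T (i' - 1) := by
        have := hmono (i + 1) (i' - 1 - (i + 1)) (by omega)
        rwa [show i + 1 + (i' - 1 - (i + 1)) = i' - 1 by omega] at this
      have h8 := hp.2
      have h9 := hp'.1
      omega
  · intro i hi j hj
    rcases Nat.eq_zero_or_pos i with h6 | h6
    · subst h6
      rw [x0]
      have e : {η : Env | j ≤ 0} = ∅ := by
        ext η
        simp only [Set.mem_ofPred_eq, Set.mem_empty_iff_false, iff_false]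
        omega
      rw [e, measureReal_empty]
      positivity
    · rw [x1 i h6]
      obtain ⟨g0, g1, g2, g3, g4, g5, g6⟩ := node_all hC h hKb hT0 hT1 hTK hTB h6 hi
      exact h3 Y hY2 _ _ g1 g2 g3 _ _ g4 g5 g6 _ _ j hj

/-- The event of the sum is measurable. -/
theorem meas_sum {Y : ℝ} (hY : 0 < Y) (s c₀ δ₁ : ℝ) (R : ℕ) {T : ℕ → ℕ} (r0 : ℤ) (xc : ℕ → ℤ) {m : ℕ}
    (hw : ∀ i, 1 ≤ i → i < m → 0 < wd μ s (T i)) (x : ℝ) :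
    MeasurableSet {η : Env | x ≤ ∑ i ∈ Ico 1 m, (nuT μ s c₀ δ₁ Y R T r0 xc i η : ℝ)} := by
  refine measurableSet_le measurable_const (Finset.measurable_sum _ fun i hi => ?_)
  rw [mem_Ico] at hi
  exact (measurable_from_nat (f := fun n : ℕ => (n : ℝ))).comp (meas_nuT hY s c₀ δ₁ R T r0 xc (hw i hi.1 hi.2))

/-! ### (S2) Sites -/

/-- **(S2) The sum of the levels above a site.** -/
theorem site_prob (hC : Cs94 μ s c₀ δ₁ c₁ A a g θ Y₁ K0 Kb n₃) (h : In μ s c C n₀) {Kb' : ℕ} (hKb : 2 * Kb' ≤ Kb)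
    (L : ℝ) {δ : ℝ} (hδ : 0 < δ) : ∃ Y₂ : ℝ, 8 * Y₁ ≤ Y₂ ∧ 8 ≤ Y₂ ∧ ∀ Y : ℝ, Y₂ ≤ Y → ∀ (T : ℕ → ℕ) (m : ℕ), T 0 = 0 → n₃ ≤ T 1 →
    (∀ i, 1 ≤ i → i < m → K0 * T i ≤ T (i + 1)) → (∀ i, 1 ≤ i → i < m → T (i + 1) ≤ Kb' * T i) → ∀ c' : Pt,
    (law μ).real {η | δ * m ≤ ∑ i ∈ Ico 1 m, (nu μ s c₀ δ₁ Y (wd μ s (T i)) (wd μ s (T (i + 1)) / wd μ s (T i)) 1
      (c'.1 + T (i - 1)) (T i - T (i - 1)) (T (i + 1) - T i) (c'.2 + ⌊sl μ s * T i⌋) η : ℝ)} ≤ Real.exp (-(L * m)) := by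
  obtain ⟨Y₂, h1, h2, h3⟩ := chain_prob hC h hKb (R := 1) le_rfl L hδ
  exact ⟨Y₂, h1, h2, fun Y hY T m hT0 hT1 hTK hTB c' => h3 Y hY T m hT0 hT1 hTK hTB c'.1 (xl μ s T c')⟩

/-! ### The scales which are not normal -/

/-- The scale `j` is near a node with a high level. -/
def BadAt (nv : ℕ → ℕ) (m j : ℕ) : Prop := ¬ ∀ i, 1 ≤ i → i < m → nv i ≤ ((i : ℤ) - j).natAbs

open Classical in
/-- The scales near a node with a high level. -/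
def bad (nv : ℕ → ℕ) (m : ℕ) : Finset ℕ := (Ico 1 m).filter (BadAt nv m)

theorem not_bad {nv : ℕ → ℕ} {m j : ℕ} (hj1 : 1 ≤ j) (hj : j < m) (hb : j ∉ bad nv m) :
    ∀ i, 1 ≤ i → i < m → nv i ≤ ((i : ℤ) - j).natAbs := by
  classical
  unfold bad at hb
  rw [mem_filter, mem_Ico] at hb
  by_contra h1
  exact hb ⟨⟨hj1, hj⟩, h1⟩

/-- **Their number.** -/
theorem bad_card (nv : ℕ → ℕ) (m : ℕ) : (bad nv m).card ≤ 2 * ∑ i ∈ Ico 1 m, nv i := by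
  classical
  have hsub : bad nv m ⊆ (Ico 1 m).biUnion fun i => Ico (i + 1 - nv i) (i + nv i) := by
    intro j hj
    unfold bad at hj
    rw [mem_filter, mem_Ico] at hj
    obtain ⟨⟨h1, h2⟩, h3⟩ := hj
    unfold BadAt at h3
    push Not at h3
    obtain ⟨i, hi1, hi2, hi3⟩ := h3
    rw [mem_biUnion]
    refine ⟨i, mem_Ico.2 ⟨hi1, hi2⟩, mem_Ico.2 ⟨?_, ?_⟩⟩ <;> omega
  refine (card_le_card hsub).trans ?_
  rw [mul_sum]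
  refine card_biUnion_le.trans (sum_le_sum fun i _ => ?_)
  rw [Nat.card_Ico]
  omega

/-- **The number of the bad scales, any measure preserving image of the environment, any centres.** -/
theorem bad_prob (hC : Cs94 μ s c₀ δ₁ c₁ A a g θ Y₁ K0 Kb n₃) (h : In μ s c C n₀) {Kb' : ℕ} (hKb : 2 * Kb' ≤ Kb) {R : ℕ} (hR : 1 ≤ R)
    (L : ℝ) {δ : ℝ} (hδ : 0 < δ) : ∃ Y₂ : ℝ, 8 * Y₁ ≤ Y₂ ∧ 8 ≤ Y₂ ∧ ∀ Y : ℝ, Y₂ ≤ Y → ∀ (T : ℕ → ℕ) (m : ℕ), T 0 = 0 → n₃ ≤ T 1 →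
    (∀ i, 1 ≤ i → i < m → K0 * T i ≤ T (i + 1)) → (∀ i, 1 ≤ i → i < m → T (i + 1) ≤ Kb' * T i) →
    ∀ φ : Env → Env, MeasurePreserving φ (law μ) (law μ) → ∀ (r0 : ℤ) (xc : ℕ → ℤ),
    (law μ).real {η | δ * m ≤ ∑ i ∈ Ico 1 m, (nuT μ s c₀ δ₁ Y R T r0 xc i (φ η) : ℝ)} ≤ Real.exp (-(L * m)) ∧
    (law μ).real {η | δ * m ≤ ((bad (fun i => nuT μ s c₀ δ₁ Y R T r0 xc i (φ η)) m).card : ℝ)} ≤ Real.exp (-(L * m)) := by
  obtain ⟨Y₂, h1, h2, h3⟩ := chain_prob hC h hKb hR L hδ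
  obtain ⟨Y₃, h4, h5, h6⟩ := chain_prob hC h hKb hR L (half_pos hδ)
  refine ⟨max Y₂ Y₃, h1.trans (le_max_left _ _), h2.trans (le_max_left _ _),
    fun Y hY T m hT0 hT1 hTK hTB φ hφ r0 xc => ?_⟩
  have hY2 : Y₂ ≤ Y := (le_max_left _ _).trans hY
  have hY3 : Y₃ ≤ Y := (le_max_right _ _).trans hY
  have hY0 : 0 < Y := by linarith
  have hw : ∀ i, 1 ≤ i → i < m → 0 < wd μ s (T i) := fun i hi1 hi => (node_all hC h hKb hT0 hT1 hTK hTB hi1 hi).1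
  have tr : ∀ x : ℝ, (law μ).real {η | x ≤ ∑ i ∈ Ico 1 m, (nuT μ s c₀ δ₁ Y R T r0 xc i (φ η) : ℝ)} =
      (law μ).real {η | x ≤ ∑ i ∈ Ico 1 m, (nuT μ s c₀ δ₁ Y R T r0 xc i η : ℝ)} := fun x =>
    hφ.measureReal_preimage (meas_sum hY0 s c₀ δ₁ R r0 xc hw x).nullMeasurableSet
  refine ⟨?_, ?_⟩
  · rw [tr]
    exact h3 Y hY2 T m hT0 hT1 hTK hTB r0 xc
  · have h7 := h6 Y hY3 T m hT0 hT1 hTK hTB r0 xc
    rw [← tr] at h7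
    refine le_trans (measureReal_mono ?_ (measure_ne_top _ _)) h7
    intro η hη
    rw [Set.mem_ofPred_eq] at hη ⊢
    have h8 : ((bad (fun i => nuT μ s c₀ δ₁ Y R T r0 xc i (φ η)) m).card : ℝ) ≤
        2 * ∑ i ∈ Ico 1 m, (nuT μ s c₀ δ₁ Y R T r0 xc i (φ η) : ℝ) := by
      exact_mod_cast bad_card (fun i => nuT μ s c₀ δ₁ Y R T r0 xc i (φ η)) m
    linarith

/-- **(S2), (S3) for a finite set of sites**, for the environment and for the reversed environment: outside an event of probability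
`|F| exp (-(L m))` all but `δ m` of the scales of each site are normal. -/
theorem site_bad (hC : Cs94 μ s c₀ δ₁ c₁ A a g θ Y₁ K0 Kb n₃) (h : In μ s c C n₀) {Kb' : ℕ} (hKb : 2 * Kb' ≤ Kb) {R : ℕ} (hR : 1 ≤ R)
    (L : ℝ) {δ : ℝ} (hδ : 0 < δ) : ∃ Y₂ : ℝ, 8 * Y₁ ≤ Y₂ ∧ 8 ≤ Y₂ ∧ ∀ Y : ℝ, Y₂ ≤ Y → ∀ (T : ℕ → ℕ) (m : ℕ), T 0 = 0 → n₃ ≤ T 1 →
    (∀ i, 1 ≤ i → i < m → K0 * T i ≤ T (i + 1)) → (∀ i, 1 ≤ i → i < m → T (i + 1) ≤ Kb' * T i) →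
    ∀ (F : Finset Pt) (Z : Pt),
    (law μ).real {η | ∃ c' ∈ F, δ * m ≤ ((bad (fun i => nuT μ s c₀ δ₁ Y R T c'.1 (xl μ s T c') i η) m).card : ℝ)} ≤
      F.card * Real.exp (-(L * m)) ∧
    (law μ).real {η | ∃ c' ∈ F, δ * m ≤ ((bad (fun i => nuT μ s c₀ δ₁ Y R T c'.1 (xl μ s T c') i (rv Z η)) m).card : ℝ)} ≤
      F.card * Real.exp (-(L * m)) := by
  obtain ⟨Y₂, h1, h2, h3⟩ := bad_prob hC h hKb hR L hδ
  refine ⟨Y₂, h1, h2, fun Y hY T m hT0 hT1 hTK hTB F Z => ⟨?_, ?_⟩⟩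
  · exact union89 F μ (fun c' => {η | δ * m ≤ ((bad (fun i => nuT μ s c₀ δ₁ Y R T c'.1 (xl μ s T c') i η) m).card : ℝ)}) fun c' _ =>
      (h3 Y hY T m hT0 hT1 hTK hTB (fun η => η) (MeasurePreserving.id _) c'.1 (xl μ s T c')).2
  · exact union89 F μ (fun c' => {η | δ * m ≤ ((bad (fun i => nuT μ s c₀ δ₁ Y R T c'.1 (xl μ s T c') i (rv Z η)) m).card : ℝ)})
      fun c' _ => (h3 Y hY T m hT0 hT1 hTK hTB (rv Z) (mp_neg (μ := μ) Z) c'.1 (xl μ s T c')).2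

/-- **(S2), (S3): the sums for a finite set of sites.** -/
theorem site_sum (hC : Cs94 μ s c₀ δ₁ c₁ A a g θ Y₁ K0 Kb n₃) (h : In μ s c C n₀) {Kb' : ℕ} (hKb : 2 * Kb' ≤ Kb) {R : ℕ} (hR : 1 ≤ R)
    (L : ℝ) {δ : ℝ} (hδ : 0 < δ) : ∃ Y₂ : ℝ, 8 * Y₁ ≤ Y₂ ∧ 8 ≤ Y₂ ∧ ∀ Y : ℝ, Y₂ ≤ Y → ∀ (T : ℕ → ℕ) (m : ℕ), T 0 = 0 → n₃ ≤ T 1 →
    (∀ i, 1 ≤ i → i < m → K0 * T i ≤ T (i + 1)) → (∀ i, 1 ≤ i → i < m → T (i + 1) ≤ Kb' * T i) →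
    ∀ (F : Finset Pt) (Z : Pt),
    (law μ).real {η | ∃ c' ∈ F, δ * m ≤ ∑ i ∈ Ico 1 m, (nuT μ s c₀ δ₁ Y R T c'.1 (xl μ s T c') i η : ℝ)} ≤
      F.card * Real.exp (-(L * m)) ∧
    (law μ).real {η | ∃ c' ∈ F, δ * m ≤ ∑ i ∈ Ico 1 m, (nuT μ s c₀ δ₁ Y R T c'.1 (xl μ s T c') i (rv Z η) : ℝ)} ≤
      F.card * Real.exp (-(L * m)) := by
  obtain ⟨Y₂, h1, h2, h3⟩ := bad_prob hC h hKb hR L hδ
  refine ⟨Y₂, h1, h2, fun Y hY T m hT0 hT1 hTK hTB F Z => ⟨?_, ?_⟩⟩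
  · exact union89 F μ (fun c' => {η | δ * m ≤ ∑ i ∈ Ico 1 m, (nuT μ s c₀ δ₁ Y R T c'.1 (xl μ s T c') i η : ℝ)}) fun c' _ =>
      (h3 Y hY T m hT0 hT1 hTK hTB (fun η => η) (MeasurePreserving.id _) c'.1 (xl μ s T c')).1
  · exact union89 F μ (fun c' => {η | δ * m ≤ ∑ i ∈ Ico 1 m, (nuT μ s c₀ δ₁ Y R T c'.1 (xl μ s T c') i (rv Z η) : ℝ)})
      fun c' _ => (h3 Y hY T m hT0 hT1 hTK hTB (rv Z) (mp_neg (μ := μ) Z) c'.1 (xl μ s T c')).1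

end

end Pool.Agent.W_7d29a1_C1.ArmS89
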