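import Pool.Agent.W_7d29a1_C1.ArmE94
import Pool.Agent.W_7d29a1_C1.ArmS89

/-!
MP_7d29a1_pr, C1, ARMS (helper94), part 11: THE ARMS OF ALL THE SITES, upwards and downwards, for every profile.
-/

set_option autoImplicit false

namespace Pool.Agent.W_7d29a1_C1.H94

open MeasureTheory ProbabilityTheory Filter Topology Finset
open Pool.Agent.W_7d29a1_F Pool.Agent.W_7d29a1_h4g Pool.Agent.W_7d29a1_H Pool.Agent.W_7d29a1_HS
open Pool.Agent.W_7d29a1_h47 (EM Nondeg)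
open Pool.Agent.W_7d29a1_g (rv)
open Pool.Agent.W_7d29a1_C1.ArmP88 Pool.Agent.W_7d29a1_C1.ArmQ88 Pool.Agent.W_7d29a1_C1.ArmS89

noncomputable section

variable {μ : Measure ℝ} [IsProbabilityMeasure μ] {s c₀ δ₁ c₁ A a g θ Y₁ : ℝ} {K0 Kb n₃ : ℕ}

/-- The scale `j` is normal for the polymers which start at `p`. -/
def UpAt (μ : Measure ℝ) (s c₁ Y : ℝ) (T : ℕ → ℕ) (m j : ℕ) (η : Env) (p : Pt) : Prop :=
  ∀ ε : ℝ, ε = 1 ∨ ε = -1 → ∀ (B Xw : Finset ℤ) (f F : ℤ → ℝ), 0 ≤ f p.2 → (∀ b ∈ B, 0 ≤ F b) → Icc p.2 (p.2 + (T m : ℕ)) ⊆ Xw →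
    ∀ Z : ℝ, 2 * Y ≤ Z → Ms μ s η p.1 (T m) {p.2} B Xw f F p.2 ε (T j) (Z * wd μ s (T j)) ≤
      2 * T m * (Real.exp (-(c₁ * (Z * EE μ s (T j)))) * Tot μ s η p.1 (T m) {p.2} B f F +
        Ms μ s η p.1 (T m) {p.2} B Xw f F p.2 ε (T m) (4 ^ (m - j) * (Z * wd μ s (T m))))

/-- The mass of the polymers which end at `p` (starting profile `f` on `B` at the row `p.1 - n`) and have at the row `p.1 - t` the
displacement `≥ D` on the side `ε`. -/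
def Md (μ : Measure ℝ) (s : ℝ) (η : Env) (p : Pt) (n : ℕ) (B Xw : Finset ℤ) (f : ℤ → ℝ) (ε : ℝ) (t : ℕ) (D : ℝ) : ℝ :=
  mass μ s η (p.1 - n) n B {p.2} Xw f (fun _ => 1) (n - t) (fun x => D ≤ ε * ((p.2 : ℝ) - x - sl μ s * t))

/-- The scale `j` is normal for the polymers which end at `p`. -/
def DnAt (μ : Measure ℝ) (s c₁ Y : ℝ) (T : ℕ → ℕ) (m j : ℕ) (η : Env) (p : Pt) : Prop :=
  ∀ ε : ℝ, ε = 1 ∨ ε = -1 → ∀ (B Xw : Finset ℤ) (f : ℤ → ℝ), (∀ b ∈ B, 0 ≤ f b) → Icc (p.2 - (T m : ℕ)) p.2 ⊆ Xw →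
    ∀ Z : ℝ, 2 * Y ≤ Z → Md μ s η p (T m) B Xw f ε (T j) (Z * wd μ s (T j)) ≤
      2 * T m * (Real.exp (-(c₁ * (Z * EE μ s (T j)))) * (∑ b ∈ B, f b * W μ s η (p.1 - T m, b) (T m) (p.2 - b)) +
        Md μ s η p (T m) B Xw f ε (T m) (4 ^ (m - j) * (Z * wd μ s (T m))))

/-- The good scales of a site are normal. -/
theorem up_good (hC : Cs94 μ s c₀ δ₁ c₁ A a g θ Y₁ K0 Kb n₃) {T : ℕ → ℕ} {m j : ℕ} (hT0 : T 0 = 0) (hT1 : n₃ ≤ T 1)
    (hTK : ∀ i, 1 ≤ i → i < m → K0 * T i ≤ T (i + 1)) (hj1 : 1 ≤ j) (hjm : j < m) {η : Env} {p : Pt} {Y : ℝ} (hY : 8 ≤ Y) (hY1 : Y₁ ≤ Y)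
    (hb : j ∉ bad (fun i => nuT μ s c₀ δ₁ Y 1 T p.1 (xl μ s T p) i η) m) : UpAt μ s c₁ Y T m j η p := by
  intro ε hε B Xw f F hf hF hXw Z hZ
  obtain ⟨f1, f2, f3⟩ := T_facts hC hT0 hT1 hTK
  refine norm_site94 hC hT0 hT1 hTK hj1 hjm (xc := xl μ s T p) (R := 1) le_rfl hY hY1 (fun i hi1 him => ?_) (fun i hi1 him => ?_) hε hf hF hXw hZ
  · have := not_bad hj1 hjm hb i hi1 him
    exact this
  · rw [Nat.cast_one, one_pow, one_mul]
    have h1 := hC.wd2 _ (f1 i hi1 him.le)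
    have h2 := Int.floor_le (sl μ s * T i)
    have h3 := Int.lt_floor_add_one (sl μ s * T i)
    have e : (p.2 : ℝ) + sl μ s * T i - (xl μ s T p i : ℤ) = sl μ s * T i - ⌊sl μ s * T i⌋ := by
      unfold xl
      push_cast
      ring
    rw [e, abs_of_nonneg (by linarith)]
    linarith

/-- From the reversed environment to the polymers which end at `p`. -/
theorem dn_of_up {T : ℕ → ℕ} {m j : ℕ} (hjm : T j ≤ T m) {η : Env} {p : Pt} {Y : ℝ} (h : UpAt μ s c₁ Y T m j (rv 0 η) (-p)) :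
    DnAt μ s c₁ Y T m j η p := by
  intro ε hε B Xw f hf hXw Z hZ
  obtain ⟨F, hF⟩ : ∃ F : ℤ → ℝ, F = fun b => f (-b) * Real.exp (-(η (p.1 - T m, -b))) := ⟨_, rfl⟩
  have hF0 : ∀ b ∈ B.image (fun a => -a), 0 ≤ F b := by
    intro b hb
    rw [mem_image] at hb
    obtain ⟨a, ha, rfl⟩ := hb
    rw [hF]
    simp only [neg_neg]
    exact mul_nonneg (hf a ha) (Real.exp_pos _).le
  have hX : Icc (-p).2 ((-p).2 + (T m : ℕ)) ⊆ Xw.image (fun a => -a) := by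
    intro x hx
    rw [mem_Icc] at hx
    rw [mem_image]
    refine ⟨-x, hXw ?_, neg_neg x⟩
    rw [mem_Icc]
    have e : (-p).2 = -p.2 := rfl
    rw [e] at hx
    constructor <;> omega
  have h1 := h ε hε (B.image fun a => -a) (Xw.image fun a => -a) (fun _ => 1) F zero_le_one hF0 hX Z hZ
  have key : ∀ t, t ≤ T m → ∀ D : ℝ, Md μ s η p (T m) B Xw f ε t D =
      Real.exp (η p) * Ms μ s (rv 0 η) (-p).1 (T m) {(-p).2} (B.image fun a => -a) (Xw.image fun a => -a) (fun _ => 1) F (-p).2 ε t D := by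
    intro t ht D
    unfold Md Ms
    rw [mass_rev88 η p ht B Xw f (fun x => D ≤ ε * ((p.2 : ℝ) - x - sl μ s * t)), hF]
    congr 1
    have e : (-p).1 = -p.1 := rfl
    have e2 : (-p).2 = -p.2 := rfl
    rw [e, e2]
    unfold mass
    refine sum_congr ?_ fun _ _ => rfl
    refine filter_congr fun x _ => ?_
    push_cast
    rw [show (p.2 : ℝ) - -(x : ℝ) = x - -(p.2 : ℝ) by ring]
  have htot : Real.exp (η p) * Tot μ s (rv 0 η) (-p).1 (T m) {(-p).2} (B.image fun a => -a) (fun _ => 1) F =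
      ∑ b ∈ B, f b * W μ s η (p.1 - T m, b) (T m) (p.2 - b) := by
    unfold Tot
    rw [sum_singleton, sum_image (fun a _ b _ hab => neg_injective hab), mul_sum]
    refine sum_congr rfl fun b _ => ?_
    have h2 := W_rev88 (μ := μ) (s := s) η (p.1 - T m) b p.2 (T m)
    have e1 : (p.1 - T m + (T m : ℤ)) = p.1 := by ring
    rw [e1] at h2
    rw [hF]
    simp only [neg_neg, one_mul]
    have e2 : ((-p).1, (-p).2) = ((-p.1, -p.2) : Pt) := rfl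
    have e3 : (-p).2 = -p.2 := rfl
    rw [e2, e3]
    have e4 : -b - -p.2 = -b - -p.2 := rfl
    have h3 : W μ s (rv 0 η) (-p.1, -p.2) (T m) (-b - -p.2) * Real.exp (η (p.1, p.2)) =
        W μ s η (p.1 - T m, b) (T m) (p.2 - b) * Real.exp (η (p.1 - T m, b)) := h2
    have h4 : Real.exp (η (p.1 - T m, b)) * Real.exp (-(η (p.1 - T m, b))) = 1 := by
      rw [← Real.exp_add, add_neg_cancel, Real.exp_zero]
    calc Real.exp (η p) * (W μ s (rv 0 η) (-p.1, -p.2) (T m) (-b - -p.2) * (f b * Real.exp (-(η (p.1 - T m, b))))) =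
          (W μ s (rv 0 η) (-p.1, -p.2) (T m) (-b - -p.2) * Real.exp (η (p.1, p.2))) * (f b * Real.exp (-(η (p.1 - T m, b)))) := by
            rw [show ((p.1, p.2) : Pt) = p from rfl]
            ring
      _ = f b * W μ s η (p.1 - T m, b) (T m) (p.2 - b) * (Real.exp (η (p.1 - T m, b)) * Real.exp (-(η (p.1 - T m, b)))) := by
            rw [h3]
            ring
      _ = _ := by rw [h4, mul_one]
  rw [key (T j) hjm, key (T m) le_rfl, ← htot]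
  have h2 := mul_le_mul_of_nonneg_left h1 (Real.exp_pos (η p)).le
  refine h2.trans (le_of_eq ?_)
  ring

open Classical in
/-- **THE ARMS OF ALL THE SITES.** Outside of probability `2 |F| exp (- L m)` all the sites of `F` have at most `δ m` scales which are not
normal upwards or not normal downwards. -/
theorem arms_site94 {c C : ℝ} {n₀ : ℕ} (hC : Cs94 μ s c₀ δ₁ c₁ A a g θ Y₁ K0 Kb n₃) (h : In μ s c C n₀) {Kb' : ℕ} (hKb : 2 * Kb' ≤ Kb)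
    (L : ℝ) {δ : ℝ} (hδ : 0 < δ) : ∃ Y₂ : ℝ, 8 ≤ Y₂ ∧ ∀ Y : ℝ, Y₂ ≤ Y → ∀ (T : ℕ → ℕ) (m : ℕ), T 0 = 0 → n₃ ≤ T 1 →
    (∀ i, 1 ≤ i → i < m → K0 * T i ≤ T (i + 1)) → (∀ i, 1 ≤ i → i < m → T (i + 1) ≤ Kb' * T i) → ∀ F : Finset Pt,
    (law μ).real {η | ∃ p ∈ F, δ * m ≤ (((Ico 1 m).filter fun j => ¬ (UpAt μ s c₁ Y T m j η p ∧ DnAt μ s c₁ Y T m j η p)).card : ℝ)} ≤
      2 * (F.card * Real.exp (-(L * m))) := by
  obtain ⟨Y₂, h1, h2, h3⟩ := site_bad hC h hKb (R := 1) le_rfl L (half_pos hδ)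
  have hY11 := hC.Y1
  refine ⟨Y₂, h2, fun Y hY T m hT0 hT1 hTK hTB F => ?_⟩
  obtain ⟨f1, f2, f3⟩ := T_facts hC hT0 hT1 hTK
  obtain ⟨u1, -⟩ := h3 Y hY T m hT0 hT1 hTK hTB F 0
  obtain ⟨-, u2⟩ := h3 Y hY T m hT0 hT1 hTK hTB (F.image fun p => -p) 0
  have hcard : ((F.image fun p : Pt => -p).card : ℝ) ≤ F.card := by exact_mod_cast card_image_le
  have u3 : (law μ).real {η | ∃ c' ∈ F.image fun p : Pt => -p,
      δ / 2 * m ≤ ((bad (fun i => nuT μ s c₀ δ₁ Y 1 T c'.1 (xl μ s T c') i (rv 0 η)) m).card : ℝ)} ≤ F.card * Real.exp (-(L * m)) :=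
    u2.trans (mul_le_mul_of_nonneg_right hcard (Real.exp_pos _).le)
  have hsub : {η | ∃ p ∈ F, δ * m ≤ (((Ico 1 m).filter fun j => ¬ (UpAt μ s c₁ Y T m j η p ∧ DnAt μ s c₁ Y T m j η p)).card : ℝ)} ⊆
      {η | ∃ c' ∈ F, δ / 2 * m ≤ ((bad (fun i => nuT μ s c₀ δ₁ Y 1 T c'.1 (xl μ s T c') i η) m).card : ℝ)} ∪
      {η | ∃ c' ∈ F.image fun p : Pt => -p,
        δ / 2 * m ≤ ((bad (fun i => nuT μ s c₀ δ₁ Y 1 T c'.1 (xl μ s T c') i (rv 0 η)) m).card : ℝ)} := by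
    rintro η ⟨p, hp, hη⟩
    by_contra hcon
    rw [Set.mem_union, not_or] at hcon
    obtain ⟨n1, n2⟩ := hcon
    have m1 : ((bad (fun i => nuT μ s c₀ δ₁ Y 1 T p.1 (xl μ s T p) i η) m).card : ℝ) < δ / 2 * m := by
      by_contra h4
      exact n1 ⟨p, hp, not_lt.1 h4⟩
    have m2 : ((bad (fun i => nuT μ s c₀ δ₁ Y 1 T (-p).1 (xl μ s T (-p)) i (rv 0 η)) m).card : ℝ) < δ / 2 * m := by
      by_contra h4
      exact n2 ⟨-p, mem_image_of_mem _ hp, not_lt.1 h4⟩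
    have hss : (Ico 1 m).filter (fun j => ¬ (UpAt μ s c₁ Y T m j η p ∧ DnAt μ s c₁ Y T m j η p)) ⊆
        bad (fun i => nuT μ s c₀ δ₁ Y 1 T p.1 (xl μ s T p) i η) m ∪
        bad (fun i => nuT μ s c₀ δ₁ Y 1 T (-p).1 (xl μ s T (-p)) i (rv 0 η)) m := by
      intro j hj
      rw [mem_filter, mem_Ico] at hj
      obtain ⟨⟨hj1, hjm⟩, hj2⟩ := hj
      rw [mem_union]
      by_contra h4
      rw [not_or] at h4
      refine hj2 ⟨up_good hC hT0 hT1 hTK hj1 hjm (by linarith) (by linarith) h4.1, ?_⟩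
      exact dn_of_up (f3 j hjm.le) (up_good hC hT0 hT1 hTK hj1 hjm (by linarith) (by linarith) h4.2)
    have h5 : (((Ico 1 m).filter fun j => ¬ (UpAt μ s c₁ Y T m j η p ∧ DnAt μ s c₁ Y T m j η p)).card : ℝ) ≤
        ((bad (fun i => nuT μ s c₀ δ₁ Y 1 T p.1 (xl μ s T p) i η) m).card : ℝ) +
        ((bad (fun i => nuT μ s c₀ δ₁ Y 1 T (-p).1 (xl μ s T (-p)) i (rv 0 η)) m).card : ℝ) := by
      exact_mod_cast (card_le_card hss).trans (card_union_le _ _)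
    linarith
  have h6 := (measureReal_mono (μ := law μ) hsub (measure_ne_top _ _)).trans (measureReal_union_le _ _)
  linarith

end

end Pool.Agent.W_7d29a1_C1.H94
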