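import Pool.Agent.W_7d29a1_C1.ArmX94

/-!
MP_7d29a1_pr, C1, ARMS (helper94), part 3: THE LOCAL STEEPNESS LEMMA. `t = 2 ^ τ` is the natural scale of the slope `x1`, `n1 ≥ Q ^ 16 t`
(`Q = 2 ^ i`): the polymer from `0` to `(n1 + n2, y)`, whose slope is much smaller than `x1`, is at the time `n1` beyond the slope `x1`
with Gibbs mass at most `exp (- n1 EE t / (4 t))`, except for a stretched exponentially small probability in `Q`.
-/

set_option autoImplicit false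

namespace Pool.Agent.W_7d29a1_C1.H94

open MeasureTheory ProbabilityTheory Filter Topology
open Pool.Agent.W_7d29a1_F Pool.Agent.W_7d29a1_h4g Pool.Agent.W_7d29a1_H Pool.Agent.W_7d29a1_HS
open Pool.Agent.W_7d29a1_h47 (EM Nondeg rows)
open Pool.Agent.W_7d29a1_g (rv rev_sum)

noncomputable section

variable {μ : Measure ℝ} {s c C : ℝ} {n₀ : ℕ}

/-- The weight of the paths from `a` to `a + (n1 + n2, y)` which are beyond the slope `x` on the side `ε` after `n1` steps. -/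
def Nm (μ : Measure ℝ) (s ε x : ℝ) (η : Env) (a : Pt) (n1 n2 : ℕ) (y : ℤ) : ℝ :=
  ∑ z ∈ (Finset.Icc (0 : ℤ) n1).filter (fun z : ℤ => x * n1 ≤ ε * ((z : ℝ) - sl μ s * n1)),
    W μ s η a n1 z * W μ s η (a.1 + n1, a.2 + z) n2 (y - z)

/-- **The exact inequality of the two tilts.** -/
theorem Nm_le [IsProbabilityMeasure μ] (hμ : EM μ) (hnd : Nondeg μ) {ε x1 x0 x2 r1 r2 : ℝ} (hε : ε = 1 ∨ ε = -1) (hx0 : 0 ≤ x0) (hx2 : 0 ≤ x2)
    (h1 : sl μ (s + r1) = sl μ s + ε * x0) (h2 : sl μ (s + r2) = sl μ s + ε * x2) (hr : |r2| ≤ |r1| / 2) (hr2 : |r2| ≤ 1)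
    (hx1 : 2 * x0 ≤ x1) (η : Env) {n1 n2 : ℕ} (hn2 : 1 ≤ n2) {y : ℤ} (hy0 : 0 ≤ y) (hy1 : y ≤ (n1 + n2 : ℕ)) :
    Nm μ s ε x1 η 0 n1 n2 y ≤ Real.exp (-(n1 * (|r1| * x0) / 2) + V μ (s + r1) η 0 n1 +
      (η (((n1 + n2 : ℕ) : ℤ), y) + (|s| + |lam μ s| + 3)) + V μ (s + r2) (rv (((n1 + n2 : ℕ) : ℤ), y) η) 0 (n2 - 1) +
      X μ (s + r2) η 0 (n1 + n2) y) * W μ s η 0 (n1 + n2) y := by
  obtain ⟨g1, k1⟩ := tilt_sign (s := s) hμ hnd hε hx0 h1
  obtain ⟨g2, k2⟩ := tilt_sign (s := s) hμ hnd hε hx2 h2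
  obtain ⟨Z, hZ⟩ : ∃ Z : Pt, Z = (((n1 + n2 : ℕ) : ℤ), y) := ⟨_, rfl⟩
  have hn1r : (0 : ℝ) ≤ n1 := Nat.cast_nonneg _
  have hεε : ε * ε = 1 := by rcases hε with rfl | rfl <;> norm_num
  obtain ⟨F, hF⟩ : ∃ F : ℝ, F = -(r2 * ((y : ℝ) - sl μ s * (n1 + n2 : ℕ))) + (n1 + n2 : ℕ) * ex μ s r2 := ⟨_, rfl⟩
  -- the total weight
  have hW : W μ s η 0 (n1 + n2) y = Real.exp (F - X μ (s + r2) η 0 (n1 + n2) y) := by
    rw [W_ex (μ := μ) s r2 η 0 (n1 + n2) y, ← hF, Real.exp_sub, div_eq_mul_inv, ← Real.exp_neg]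
    congr 1
    unfold X
    rw [neg_neg, Real.exp_log (W_pos (μ := μ) (s := s + r2) η 0 hy0 hy1)]
  -- the second factor
  have hW2 : ∀ z : ℤ, W μ (s + r2) η ((n1 : ℤ), z) n2 (y - z) ≤
      Real.exp (η Z + (|s| + |lam μ s| + 3) + V μ (s + r2) (rv Z η) 0 (n2 - 1)) := by
    intro z
    obtain ⟨m, rfl⟩ : ∃ m, n2 = m + 1 := ⟨n2 - 1, by omega⟩
    have h3 := rev_sum (μ := μ) (s := s + r2) η Z m {y - z}
    rw [Finset.sum_singleton] at h3
    have e1 : (Z.1 - ((m + 1 : ℕ) : ℤ), Z.2 - (y - z)) = (((n1 : ℤ), z) : Pt) := by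
      rw [hZ]
      refine Prod.ext ?_ ?_
      · simp only
        push_cast
        ring
      · simp only
        ring
    rw [e1] at h3
    refine h3.trans ?_
    rw [Nat.add_sub_cancel, Real.exp_add, Real.exp_add]
    exact mul_le_mul_of_nonneg_right (mul_le_mul_of_nonneg_left (log_rev hμ hnd s hr2) (Real.exp_pos _).le) (Real.exp_pos _).le
  obtain ⟨Rb, hRb⟩ : ∃ Rb : ℝ, Rb = η Z + (|s| + |lam μ s| + 3) + V μ (s + r2) (rv Z η) 0 (n2 - 1) := ⟨_, rfl⟩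
  rw [← hRb] at hW2
  -- one term
  have hterm : ∀ z ∈ (Finset.Icc (0 : ℤ) n1).filter (fun z : ℤ => x1 * n1 ≤ ε * ((z : ℝ) - sl μ s * n1)),
      W μ s η 0 n1 z * W μ s η ((0 : Pt).1 + n1, (0 : Pt).2 + z) n2 (y - z) ≤
        Real.exp (F - n1 * (|r1| * x0) / 2 + Rb) * W μ (s + r1) η 0 n1 z := by
    intro z hz
    rw [Finset.mem_filter] at hz
    have e0 : ((0 : Pt).1 + (n1 : ℤ), (0 : Pt).2 + z) = (((n1 : ℤ), z) : Pt) := by simp
    rw [e0, W_ex (μ := μ) s r1 η 0 n1 z, W_ex (μ := μ) s r2 η ((n1 : ℤ), z) n2 (y - z)]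
    obtain ⟨a1, ha1⟩ : ∃ a1, a1 = -(r1 * ((z : ℝ) - sl μ s * n1)) + n1 * ex μ s r1 := ⟨_, rfl⟩
    obtain ⟨a2, ha2⟩ : ∃ a2, a2 = -(r2 * (((y - z : ℤ) : ℝ) - sl μ s * n2)) + n2 * ex μ s r2 := ⟨_, rfl⟩
    rw [← ha1, ← ha2]
    have h3 : a1 + a2 ≤ F - n1 * (|r1| * x0) / 2 := by
      have e1 : a1 + a2 = F - ((r1 - r2) * ((z : ℝ) - sl μ s * n1) - n1 * (ex μ s r1 - ex μ s r2)) := by
        rw [ha1, ha2, hF]
        push_cast
        ring
      have h4 : ex μ s r1 - ex μ s r2 ≤ (|r1| - |r2|) * x0 := by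
        have h5 := lam_tangent hμ hnd (s + r1) (s + r2)
        rw [h1] at h5
        have e2 : (sl μ s + ε * x0) * (s + r2 - (s + r1)) = sl μ s * (r2 - r1) - (ε * r1 - ε * r2) * x0 := by ring
        rw [e2, g1, g2] at h5
        unfold ex
        linarith
      have h5 : (|r1| - |r2|) * (x1 * n1) ≤ (r1 - r2) * ((z : ℝ) - sl μ s * n1) := by
        have e3 : (r1 - r2) * ((z : ℝ) - sl μ s * n1) = (|r1| - |r2|) * (ε * ((z : ℝ) - sl μ s * n1)) := by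
          rw [← g1, ← g2]
          calc (r1 - r2) * ((z : ℝ) - sl μ s * n1) = (ε * ε) * ((r1 - r2) * ((z : ℝ) - sl μ s * n1)) := by rw [hεε, one_mul]
            _ = _ := by ring
        rw [e3]
        exact mul_le_mul_of_nonneg_left hz.2 (by linarith [abs_nonneg r1])
      have h6 : n1 * (ex μ s r1 - ex μ s r2) ≤ n1 * ((|r1| - |r2|) * x0) := mul_le_mul_of_nonneg_left h4 hn1r
      have h7 : |r1| / 2 * x0 ≤ (|r1| - |r2|) * (x1 - x0) :=
        mul_le_mul (by linarith) (by linarith) hx0 (by linarith [abs_nonneg r1])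
      have h8 := mul_le_mul_of_nonneg_left h7 hn1r
      rw [e1]
      have e4 : n1 * (|r1| / 2 * x0) = n1 * (|r1| * x0) / 2 := by ring
      have e5 : n1 * ((|r1| - |r2|) * (x1 - x0)) = (|r1| - |r2|) * (x1 * n1) - n1 * ((|r1| - |r2|) * x0) := by ring
      linarith
    have hWn : 0 ≤ W μ (s + r1) η 0 n1 z := W_nonneg _ _ _ _
    calc Real.exp a1 * W μ (s + r1) η 0 n1 z * (Real.exp a2 * W μ (s + r2) η ((n1 : ℤ), z) n2 (y - z))
        = Real.exp (a1 + a2) * (W μ (s + r1) η 0 n1 z * W μ (s + r2) η ((n1 : ℤ), z) n2 (y - z)) := by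
          rw [Real.exp_add]
          ring
      _ ≤ Real.exp (F - n1 * (|r1| * x0) / 2) * (W μ (s + r1) η 0 n1 z * Real.exp Rb) := by
          refine mul_le_mul (Real.exp_le_exp.2 h3) (mul_le_mul_of_nonneg_left (hW2 z) hWn)
            (mul_nonneg hWn (W_nonneg _ _ _ _)) (Real.exp_pos _).le
      _ = _ := by
          rw [Real.exp_add]
          ring
  have hsum : Nm μ s ε x1 η 0 n1 n2 y ≤ Real.exp (F - n1 * (|r1| * x0) / 2 + Rb) * Real.exp (V μ (s + r1) η 0 n1) := by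
    unfold Nm
    refine (Finset.sum_le_sum hterm).trans ?_
    rw [← Finset.mul_sum]
    exact mul_le_mul_of_nonneg_left (WS_le_exp_V (μ := μ) (s := s + r1) η 0 n1 _) (Real.exp_pos _).le
  refine hsum.trans (le_of_eq ?_)
  rw [hW, ← Real.exp_add, ← Real.exp_add, ← hZ]
  congr 1
  rw [hRb]
  ring

/-- The powers. -/
theorem pow_exp_le {a g : ℝ} (ha : 0 < a) (hg : 0 < g) : ∃ A : ℝ, 0 < A ∧ ∀ Q : ℝ, 1 ≤ Q →
    Q ^ 4 * Real.exp (-(a * Q ^ g)) ≤ A * Real.exp (-(a / 2 * Q ^ g)) := by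
  obtain ⟨N, hN⟩ := exists_nat_ge (4 / g)
  refine ⟨N.factorial * (2 / a) ^ N, by positivity, fun Q hQ => ?_⟩
  have hQ0 : 0 < Q := by linarith
  have hQg : 0 ≤ Q ^ g := Real.rpow_nonneg hQ0.le g
  have h1 : Q ^ 4 ≤ (Q ^ g) ^ N := by
    rw [← Real.rpow_natCast (Q ^ g) N, ← Real.rpow_mul hQ0.le, ← Real.rpow_natCast Q 4]
    refine Real.rpow_le_rpow_of_exponent_le hQ ?_
    rw [div_le_iff₀ hg] at hN
    push_cast
    linarith
  have h2 := Real.pow_div_factorial_le_exp (x := a / 2 * Q ^ g) (by positivity) N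
  rw [div_le_iff₀ (by positivity), mul_pow] at h2
  have h3 : (Q ^ g) ^ N ≤ (2 / a) ^ N * (Real.exp (a / 2 * Q ^ g) * N.factorial) := by
    have h4 : (Q ^ g) ^ N = (2 / a) ^ N * ((a / 2) ^ N * (Q ^ g) ^ N) := by
      rw [← mul_assoc, ← mul_pow]
      have : 2 / a * (a / 2) = 1 := by field_simp
      rw [this, one_pow, one_mul]
    rw [h4]
    exact mul_le_mul_of_nonneg_left h2 (by positivity)
  have h5 : Real.exp (-(a * Q ^ g)) = Real.exp (-(a / 2 * Q ^ g)) * Real.exp (-(a / 2 * Q ^ g)) := by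
    rw [← Real.exp_add]
    congr 1
    ring
  have h6 : Real.exp (a / 2 * Q ^ g) * Real.exp (-(a / 2 * Q ^ g)) = 1 := by
    rw [← Real.exp_add, add_neg_cancel, Real.exp_zero]
  rw [h5]
  calc Q ^ 4 * (Real.exp (-(a / 2 * Q ^ g)) * Real.exp (-(a / 2 * Q ^ g)))
      ≤ ((2 / a) ^ N * (Real.exp (a / 2 * Q ^ g) * N.factorial)) * (Real.exp (-(a / 2 * Q ^ g)) * Real.exp (-(a / 2 * Q ^ g))) :=
        mul_le_mul_of_nonneg_right (h1.trans h3) (by positivity)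
    _ = N.factorial * (2 / a) ^ N * (Real.exp (a / 2 * Q ^ g) * Real.exp (-(a / 2 * Q ^ g))) * Real.exp (-(a / 2 * Q ^ g)) := by ring
    _ = _ := by rw [h6, mul_one]

end

end Pool.Agent.W_7d29a1_C1.H94
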