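import Pool.Agent.W_7d29a1_C1.SysN89

/-!
MP_7d29a1_pr, [C1], D2 / (LR) FOR THE FORWARD MASSES: the system `Sys84` for the kernels `nk` read DOWNWARD. (helper84)

`fh84 .. i x`: the forward mass `fw (wt η) p l i x` times the weight of its own site, divided by the factor of the rows. `LayP84`: the layers
with decreasing rows. `sysP84`: they are a `Sys84` in every box (the level is read at the upper end of the step: slope `3 c / 8`).
`massP84`: the mass identities. `dd_oneP84`: **the comparison for `fh84`** (twin of `dd_one89`).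
-/

set_option autoImplicit false

namespace Pool.Agent.W_7d29a1_C1.SysP84

open MeasureTheory ProbabilityTheory Filter Topology Finset
open Pool.Agent.W_7d29a1_F Pool.Agent.W_7d29a1_h4g Pool.Agent.W_7d29a1_H Pool.Agent.W_7d29a1_HS
open Pool.Agent.W_7d29a1_C1.H75 Pool.Agent.W_7d29a1_C1.U16 Pool.Agent.W_7d29a1_C1.FarK89 Pool.Agent.W_7d29a1_C1.FarW89
open Pool.Agent.W_7d29a1_C1.DD84 Pool.Agent.W_7d29a1_C1.SysN89
open Pool.Agent.W_7d29a1_C1.K91 (wt wt_pos)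
open Pool.Agent.W_7d29a1_C1.K91P (fw fw_nonneg)

noncomputable section

variable {μ : Measure ℝ} {s : ℝ}

/-! ### The forward masses -/

/-- The normalised forward mass. -/
def fh84 (μ : Measure ℝ) (s h : ℝ) (η : Env) (p : ℕ → ℝ) (M : ℕ) (l : ℤ → ℝ) (i : ℕ) (x : ℤ) : ℝ :=
  Real.exp (-((i : ℝ) * lam μ s + h * sl μ s * bl M 0 i)) * (fw (wt η) p l i x * wt η i x)

theorem fw_fh84 {h : ℝ} {η : Env} {p : ℕ → ℝ} {M i : ℕ} {l : ℤ → ℝ} (x : ℤ) : fw (wt η) p l i x * wt η i x =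
    Real.exp ((i : ℝ) * lam μ s + h * sl μ s * bl M 0 i) * fh84 μ s h η p M l i x := by
  unfold fh84
  rw [← mul_assoc, ← Real.exp_add, add_neg_cancel, Real.exp_zero, one_mul]

theorem fh_nonneg {h : ℝ} {η : Env} {p : ℕ → ℝ} {M : ℕ} {l : ℤ → ℝ} (hp : ∀ k, 0 < p k) (hl : ∀ y, 0 ≤ l y) (i : ℕ) (x : ℤ) :
    0 ≤ fh84 μ s h η p M l i x := by
  have h1 := wt_pos η i x
  have h2 := fw_nonneg (w := wt η) (wt_pos η) hp hl i x
  unfold fh84
  positivity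

/-- **One step of the forward masses.** -/
theorem fh_step {h : ℝ} {η : Env} {p : ℕ → ℝ} {M : ℕ} {l : ℤ → ℝ} (i n : ℕ) (y : ℤ) : fh84 μ s h η p M l (i + n) y =
    ∑ x ∈ Icc (y - n) y, nk μ s h η p M i n x y * fh84 μ s h η p M l i x := by
  have e0 : fh84 μ s h η p M l (i + n) y = Real.exp (-(((i + n : ℕ) : ℝ) * lam μ s + h * sl μ s * bl M 0 (i + n))) *
      ((∑ x ∈ Icc (y - n) y, fw (wt η) p l i x * ker (wt η) p i n x y) * wt η (i + n) y) := by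
    unfold fh84
    rw [fw_ker]
  rw [e0, sum_mul, mul_sum]
  refine sum_congr rfl fun x _ => ?_
  have h1 := wt_pos η (i + n) y
  have h2 := wt_pos η i x
  rw [ker_nk (μ := μ) (s := s) (h := h) (M := M)]
  have e1 : Real.exp (-(((i + n : ℕ) : ℝ) * lam μ s + h * sl μ s * bl M 0 (i + n))) *
      Real.exp ((n : ℝ) * lam μ s + h * sl μ s * bl M i n) = Real.exp (-((i : ℝ) * lam μ s + h * sl μ s * bl M 0 i)) := by
    rw [← Real.exp_add, bl_add, zero_add]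
    congr 1
    push_cast
    ring
  calc _ = (Real.exp (-(((i + n : ℕ) : ℝ) * lam μ s + h * sl μ s * bl M 0 (i + n))) *
      Real.exp ((n : ℝ) * lam μ s + h * sl μ s * bl M i n)) * (nk μ s h η p M i n x y * (fw (wt η) p l i x * wt η i x)) := by
        field_simp
    _ = _ := by
      rw [e1]
      unfold fh84
      ring

/-! ### The downward system -/

/-- The box of the row `r v`, rows downward. -/
def bd (r : ℕ → ℕ) (a : ℕ) (x₀ R : ℤ) (v : ℕ) : Finset ℤ := Icc (x₀ - R - ((r a - r v : ℕ) : ℤ)) (x₀ + R)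

/-- The kernels downward: `x` in the row `r v`, `y` in the row `r (v + 1) ≤ r v`. -/
def kd (μ : Measure ℝ) (s h : ℝ) (η : Env) (p : ℕ → ℝ) (M : ℕ) (r : ℕ → ℕ) (v : ℕ) (x y : ℤ) : ℝ :=
  nk μ s h η p M (r (v + 1)) (r v - r (v + 1)) y x

theorem rd_mono {r : ℕ → ℕ} {a b : ℕ} (hr : ∀ u, a ≤ u → u < b → r (u + 1) ≤ r u) : ∀ m u, a ≤ u → u + m ≤ b → r (u + m) ≤ r u
  | 0, _, _, _ => le_rfl
  | m + 1, u, hu, hm => (hr (u + m) (by omega) (by omega)).trans (rd_mono hr m u hu (by omega))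

/-- The composition of the steps is the kernel. -/
theorem cmp_kd {h : ℝ} {η : Env} {p : ℕ → ℝ} {M : ℕ} {r : ℕ → ℕ} {a b : ℕ} (hr : ∀ u, a ≤ u → u < b → r (u + 1) ≤ r u) {x₀ R : ℤ} :
    ∀ m u, a ≤ u → u + m ≤ b → ∀ x ∈ bd r a x₀ R u, ∀ y,
      cmp (kd μ s h η p M r) (bd r a x₀ R) m u x y = nk μ s h η p M (r (u + m)) (r u - r (u + m)) y x
  | 0, u, _, _, x, _, y => by
    rw [add_zero, Nat.sub_self, nk_zero]
    show (if x = y then (1 : ℝ) else 0) = _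
    by_cases h1 : x = y
    · rw [if_pos h1, if_pos h1.symm]
    · rw [if_neg h1, if_neg (fun h2 => h1 h2.symm)]
  | m + 1, u, hu, hm, x, hx, y => by
    have hau : r u ≤ r a := by
      have h1 := rd_mono hr (u - a) a le_rfl (by omega)
      rwa [Nat.add_sub_cancel' hu] at h1
    have h1 := hr u hu (by omega)
    have h2 := rd_mono hr m (u + 1) (by omega) (by omega)
    have e0 : u + 1 + m = u + (m + 1) := by omega
    rw [e0] at h2
    have e1 : r u - r (u + (m + 1)) = (r (u + 1) - r (u + (m + 1))) + (r u - r (u + 1)) := by omega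
    have e2 : r (u + (m + 1)) + (r (u + 1) - r (u + (m + 1))) = r (u + 1) := by omega
    rw [e1, nk_add, e2]
    show ∑ z ∈ bd r a x₀ R (u + 1), kd μ s h η p M r u x z * cmp (kd μ s h η p M r) (bd r a x₀ R) m (u + 1) z y = _
    have h3 : ∀ z ∈ bd r a x₀ R (u + 1), kd μ s h η p M r u x z * cmp (kd μ s h η p M r) (bd r a x₀ R) m (u + 1) z y =
        nk μ s h η p M (r (u + (m + 1))) (r (u + 1) - r (u + (m + 1))) y z * nk μ s h η p M (r (u + 1)) (r u - r (u + 1)) z x := by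
      intro z hz
      rw [cmp_kd hr m (u + 1) (by omega) (by omega) z hz y, e0, mul_comm]
      rfl
    rw [sum_congr rfl h3]
    refine (sum_subset (fun z hz => ?_) fun z _ hz => ?_).symm
    · unfold bd at hx ⊢
      rw [mem_Icc] at hx hz ⊢
      omega
    · rw [nk_eq_zero (r (u + 1)), mul_zero]
      rintro ⟨h4, h5⟩
      apply hz
      rw [mem_Icc]
      omega

/-! ### The layers -/

/-- The layers `a ≤ v < b` with decreasing rows: rows `r`, scales `T`, levels `q`; the force is small at every scale. -/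
structure LayP84 (μ : Measure ℝ) (s c θ K h : ℝ) (P : ℕ) (η : Env) (κ : Pt) (r T N : ℕ → ℕ) (q : ℕ → ℝ) (bs : ℕ → Pt)
    (a b n₁ : ℕ) : Prop where
  q0 : ∀ v, a ≤ v → v < b → 0 ≤ q v
  T1 : ∀ v, a ≤ v → v < b → n₁ ≤ T v
  NT : ∀ v, a ≤ v → v < b → N v ≤ T v
  rr : ∀ v, a ≤ v → v < b → r (v + 1) ≤ r v
  b1 : ∀ v, a ≤ v → v < b → (bs v).1 ≤ r (v + 1)
  b2 : ∀ v, a ≤ v → v < b → (r v : ℤ) ≤ (bs v).1 + N v
  b3 : ∀ v, a ≤ v → v < b → |lat16 μ s κ (bs v)| ≤ wd μ s (T v)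
  far : ∀ v, a ≤ v → v < b → η ∈ Far16 μ s c θ K (T v) (N v) P (bs v) (q v)
  force : ∀ v, a ≤ v → v < b → |h| * wd μ s (T v) ≤ c / 4 * EE μ s (T v)
  len : ∀ v, a ≤ v → v < b → θ * T v ≤ ((r v - r (v + 1) : ℕ) : ℝ)

theorem LayP84.sub {c θ K h : ℝ} {P : ℕ} {η : Env} {κ : Pt} {r T N : ℕ → ℕ} {q : ℕ → ℝ} {bs : ℕ → Pt} {a b n₁ a' b' n₁' : ℕ}
    (hL : LayP84 μ s c θ K h P η κ r T N q bs a b n₁) (ha : a ≤ a') (hb : b' ≤ b) (hn : n₁' ≤ n₁) :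
    LayP84 μ s c θ K h P η κ r T N q bs a' b' n₁' :=
  ⟨fun v h1 h2 => hL.q0 v (by omega) (by omega), fun v h1 h2 => hn.trans (hL.T1 v (by omega) (by omega)),
    fun v h1 h2 => hL.NT v (by omega) (by omega), fun v h1 h2 => hL.rr v (by omega) (by omega),
    fun v h1 h2 => hL.b1 v (by omega) (by omega), fun v h1 h2 => hL.b2 v (by omega) (by omega),
    fun v h1 h2 => hL.b3 v (by omega) (by omega), fun v h1 h2 => hL.far v (by omega) (by omega),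
    fun v h1 h2 => hL.force v (by omega) (by omega), fun v h1 h2 => hL.len v (by omega) (by omega)⟩

/-- The levels downward. -/
def qd (P : ℕ) (c K C' : ℝ) (q : ℕ → ℝ) (v : ℕ) : ℝ := LQ (2 * P) (c / 8) (qq P C' q v) + qq P C' q v * gr (2 * P) K

theorem qd_nonneg (P : ℕ) {c K C' : ℝ} {q : ℕ → ℝ} (hC' : 0 ≤ C') (hK : 0 ≤ K) (v : ℕ) : 0 ≤ qd P c K C' q v := by
  have h1 : 0 ≤ qq P C' q v := by
    unfold qq
    have := gr_nonneg (2 * P) (show (0 : ℝ) ≤ 2 by norm_num)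
    positivity
  have h2 := LQ_nonneg (2 * P) (c₁ := c / 8) h1
  have h3 := gr_nonneg (2 * P) hK
  unfold qd
  positivity

variable [IsProbabilityMeasure μ] {c C : ℝ} {n₀ : ℕ}

/-- **THE LAYERS ARE A `Sys84` IN EVERY BOX.** -/
theorem sysP84 (h0 : In μ s c C n₀) (P : ℕ) {θ K : ℝ} (hK : 3 ≤ K) (hθ : 0 < θ) : ∃ C' : ℝ, 0 < C' ∧ ∃ n₁ : ℕ, 1 ≤ n₁ ∧
    ∀ {h : ℝ} {η : Env} {p : ℕ → ℝ} {M : ℕ} {κ : Pt} {r T N : ℕ → ℕ} {q : ℕ → ℝ} {bs : ℕ → Pt} {a b n₂ : ℕ}, n₁ ≤ n₂ →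
    (∀ k, k < M → p k = Real.exp (s + h)) → (∀ k, M ≤ k → p k = Real.exp s) → LayP84 μ s c θ K h P η κ r T N q bs a b n₂ →
    ∀ (x₀ R : ℤ) (ρ : ℝ), (∀ v, a < v → v < b → ∃ z ∈ bd r a x₀ R v, |lt μ s κ r v z - ρ| ≤ 1) →
    Sys84 μ s (2 * P) (3 * c / 8) (c / 8) (K - 2) 1 ρ T (qd P c K C' q) (lt μ s κ r) (kd μ s h η p M r) (bd r a x₀ R) a b := by
  have hc0 := h0.c0
  obtain ⟨C₄, hC₄, m₁, H⟩ := comp_up h0 P
  obtain ⟨m₂, hm₂, H2⟩ := sum89 h0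
  obtain ⟨m₃, hm₃⟩ := eventually_atTop.1 ((wd_tendsto h0).eventually_ge_atTop 1)
  obtain ⟨C₅, hC₅, m₄, H3⟩ := comp_low h0 P (K := K) hK hθ
  obtain ⟨C', hC'⟩ : ∃ C' : ℝ, C' = max C₄ C₅ := ⟨_, rfl⟩
  have hC'4 : C₄ ≤ C' := by rw [hC']; exact le_max_left _ _
  have hC'5 : C₅ ≤ C' := by rw [hC']; exact le_max_right _ _
  have hC'0 : 0 < C' := by linarith
  refine ⟨C', hC'0, max (max m₁ m₄) (max m₂ m₃), hm₂.trans ((le_max_left _ _).trans (le_max_right _ _)), ?_⟩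
  intro h η p M κ r T N q bs a b n₂ hn₂ hp hp' h1 x₀ R ρ hmid
  have l1 : m₁ ≤ n₂ := ((le_max_left _ _).trans (le_max_left _ _)).trans hn₂
  have l4 : m₄ ≤ n₂ := ((le_max_right _ _).trans (le_max_left _ _)).trans hn₂
  have l2 : m₂ ≤ n₂ := ((le_max_left _ _).trans (le_max_right _ _)).trans hn₂
  have l3 : m₃ ≤ n₂ := ((le_max_right _ _).trans (le_max_right _ _)).trans hn₂
  have hw : ∀ u, a ≤ u → u < b → 1 ≤ wd μ s (T u) := fun u hu hub => hm₃ _ (l3.trans (h1.T1 u hu hub))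
  have hpos : ∀ k, 0 < p k := by
    intro k
    rcases lt_or_ge k M with h2 | h2
    · rw [hp k h2]
      exact Real.exp_pos _
    · rw [hp' k h2]
      exact Real.exp_pos _
  have hqq0 : ∀ u, 0 ≤ qq P C' q u := fun u => by
    unfold qq
    have := gr_nonneg (2 * P) (show (0 : ℝ) ≤ 2 by norm_num)
    positivity
  have hLQ0 : ∀ u, 0 ≤ LQ (2 * P) (c / 8) (qq P C' q u) := fun u => LQ_nonneg _ (hqq0 u)
  have hgK := gr_nonneg (2 * P) (show (0 : ℝ) ≤ K by linarith)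
  -- the level read from the line, at the lower end
  have hlev : ∀ (C₀ : ℝ), 0 ≤ C₀ → C₀ ≤ C' → ∀ u, a ≤ u → u < b → ∀ y : ℤ,
      C₀ * (1 + q u) ^ 2 * fq16 (2 * P) (|lat16 μ s (bs u) ((r (u + 1) : ℤ), y)| / wd μ s (T u) + 1) * EE μ s (T u) ≤
        qq P C' q u * gr (2 * P) (|lt μ s κ r (u + 1) y| / wd μ s (T u)) * EE μ s (T u) := by
    intro C₀ hC₀ hC₀' u hu hub y
    have hw0 : 0 < wd μ s (T u) := by linarith [hw u hu hub]
    have h3 := lev_line (μ := μ) (s := s) (P := P) (p := ((r (u + 1) : ℤ), y)) hw0 (h1.b3 u hu hub)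
    refine mul_le_mul_of_nonneg_right ?_ (EE_pos (μ := μ) (s := s) (T u)).le
    have h5 : C₀ * (1 + q u) ^ 2 * fq16 (2 * P) (|lat16 μ s (bs u) ((r (u + 1) : ℤ), y)| / wd μ s (T u) + 1) ≤
        C' * (1 + q u) ^ 2 * (gr (2 * P) 2 * gr (2 * P) (|lat16 μ s κ ((r (u + 1) : ℤ), y)| / wd μ s (T u))) :=
      mul_le_mul (mul_le_mul_of_nonneg_right hC₀' (sq_nonneg _)) h3 (zero_le_one.trans (fq16_one _ _)) (by positivity)
    refine h5.trans (le_of_eq ?_)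
    unfold qq lt
    ring
  have hsum : ∀ u, bl M (r (u + 1)) (r u - r (u + 1)) + ((r u - r (u + 1)) - bl M (r (u + 1)) (r u - r (u + 1))) = r u - r (u + 1) :=
    fun u => Nat.add_sub_cancel' (bl_le M (r (u + 1)) (r u - r (u + 1)))
  refine ⟨qd_nonneg P hC'0.le (by linarith), fun v x y => nk_nonneg hpos _ _ _ _, ?_, ?_, ?_, hmid⟩
  · intro u hu hub x y _
    have hru := h1.rr u hu hub
    have hb1 := h1.b1 u hu hub
    have hb2 := h1.b2 u hu hub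
    have hw0 : 0 < wd μ s (T u) := by linarith [hw u hu hub]
    have hE := EE_pos (μ := μ) (s := s) (T u)
    have h2 := (H (l1.trans (h1.T1 u hu hub)) (h1.NT u hu hub) (h1.q0 u hu hub) (h1.far u hu hub) hK (h1.force u hu hub)
      ((r (u + 1) : ℤ), y) (bl M (r (u + 1)) (r u - r (u + 1))) ((r u - r (u + 1)) - bl M (r (u + 1)) (r u - r (u + 1))) hb1 (by
        show (r (u + 1) : ℤ) + (bl M (r (u + 1)) (r u - r (u + 1)) : ℕ) +
          (((r u - r (u + 1)) - bl M (r (u + 1)) (r u - r (u + 1)) : ℕ) : ℤ) ≤ _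
        have := hsum u
        omega)).1 (x - y)
    unfold kd
    rw [nk_K1 hp hp']
    refine h2.trans (Real.exp_le_exp.2 ?_)
    rw [hsum u, ← lt_sub κ r (u + 1) u y x hru]
    obtain ⟨Δ, hΔ⟩ : ∃ Δ : ℝ, Δ = |lt μ s κ r u x - lt μ s κ r (u + 1) y| := ⟨_, rfl⟩
    have hΔ0 : 0 ≤ Δ := by rw [hΔ]; exact abs_nonneg _
    have hΔ' : |lt μ s κ r (u + 1) y - lt μ s κ r u x| = Δ := by rw [hΔ, abs_sub_comm]
    obtain ⟨X, hX⟩ : ∃ X : ℝ, X = |lt μ s κ r u x| / wd μ s (T u) := ⟨_, rfl⟩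
    have hX0 : 0 ≤ X := by rw [hX]; positivity
    rw [← hΔ, hΔ', ← hX]
    have h3 : |lt μ s κ r (u + 1) y| / wd μ s (T u) ≤ X + Δ / wd μ s (T u) := by
      rw [hX, ← add_div]
      refine div_le_div_of_nonneg_right ?_ hw0.le
      have h5 : lt μ s κ r (u + 1) y = lt μ s κ r u x - (lt μ s κ r u x - lt μ s κ r (u + 1) y) := by ring
      rw [h5, hΔ]
      exact abs_sub _ _
    have hL0 := hqq0 u
    obtain ⟨L, hL⟩ : ∃ L : ℝ, L = qq P C' q u := ⟨_, rfl⟩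
    have hA := AQ_nonneg (2 * P) (c / 8) L
    have h4 : L * gr (2 * P) (|lt μ s κ r (u + 1) y| / wd μ s (T u)) ≤
        LQ (2 * P) (c / 8) L * gr (2 * P) X + c / 8 * (Δ / wd μ s (T u)) := by
      rw [← hL] at hL0
      have h5 : gr (2 * P) (|lt μ s κ r (u + 1) y| / wd μ s (T u)) ≤ gr (2 * P) (AQ (2 * P) (c / 8) L + (X + Δ / wd μ s (T u))) :=
        gr_mono _ (by positivity) (by linarith)
      have h6 := lipQ (2 * P) (c := c / 8) (Q := L) (Q' := L) (X := X) (d := Δ / wd μ s (T u)) (by positivity) hL0 le_rfl hX0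
        (by positivity)
      have h7 := mul_le_mul_of_nonneg_left h5 hL0
      have h8 := mul_le_mul_of_nonneg_left (gr_shift (2 * P) hA hX0) hL0
      have h9 : L * (gr (2 * P) (AQ (2 * P) (c / 8) L) * gr (2 * P) X) = LQ (2 * P) (c / 8) L * gr (2 * P) X := by
        unfold LQ
        ring
      rw [h9] at h8
      linarith
    have h5 := hlev C₄ hC₄.le hC'4 u hu hub y
    rw [← hL] at h5
    have h6 := mul_le_mul_of_nonneg_right h4 hE.le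
    have h7 : (LQ (2 * P) (c / 8) L * gr (2 * P) X + c / 8 * (Δ / wd μ s (T u))) * EE μ s (T u) =
        LQ (2 * P) (c / 8) L * gr (2 * P) X * EE μ s (T u) + c / 8 * (EE μ s (T u) / wd μ s (T u)) * Δ := by
      ring
    have h8 : hc μ s c (T u) / 2 * Δ = c / 2 * (EE μ s (T u) / wd μ s (T u)) * Δ := by
      unfold hc
      ring
    have h9 : LQ (2 * P) (c / 8) L * gr (2 * P) X * EE μ s (T u) ≤ qd P c K C' q u * gr (2 * P) X * EE μ s (T u) := by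
      refine mul_le_mul_of_nonneg_right (mul_le_mul_of_nonneg_right ?_ (gr_nonneg _ hX0)) hE.le
      unfold qd
      rw [← hL]
      have : 0 ≤ L * gr (2 * P) K := mul_nonneg (by rw [hL]; exact hqq0 u) hgK
      linarith
    rw [h8]
    have h10 : 3 * c / 8 * (EE μ s (T u) / wd μ s (T u)) * Δ = c / 2 * (EE μ s (T u) / wd μ s (T u)) * Δ -
        c / 8 * (EE μ s (T u) / wd μ s (T u)) * Δ := by ring
    rw [h10]
    linarith
  · intro u hu hub x y _ hd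
    have hru := h1.rr u hu hub
    have hb1 := h1.b1 u hu hub
    have hb2 := h1.b2 u hu hub
    have hw0 : 0 < wd μ s (T u) := by linarith [hw u hu hub]
    have hE := EE_pos (μ := μ) (s := s) (T u)
    have h2 := H3 (l4.trans (h1.T1 u hu hub)) (h1.NT u hu hub) (h1.q0 u hu hub) (h1.far u hu hub) (h1.force u hu hub)
      ((r (u + 1) : ℤ), y) (bl M (r (u + 1)) (r u - r (u + 1))) ((r u - r (u + 1)) - bl M (r (u + 1)) (r u - r (u + 1))) (x - y) hb1 (by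
        show (r (u + 1) : ℤ) + (bl M (r (u + 1)) (r u - r (u + 1)) : ℕ) +
          (((r u - r (u + 1)) - bl M (r (u + 1)) (r u - r (u + 1)) : ℕ) : ℤ) ≤ _
        have := hsum u
        omega) (by rw [hsum u]; exact h1.len u hu hub) (by
        rw [hsum u, ← lt_sub κ r (u + 1) u y x hru, abs_sub_comm]
        exact hd)
    unfold kd
    rw [nk_K1 hp hp']
    refine le_trans (Real.exp_le_exp.2 (neg_le_neg ((hlev C₅ hC₅.le hC'5 u hu hub y).trans ?_))) h2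
    refine mul_le_mul_of_nonneg_right ?_ hE.le
    obtain ⟨X, hX⟩ : ∃ X : ℝ, X = |lt μ s κ r u x| / wd μ s (T u) := ⟨_, rfl⟩
    have hX0 : 0 ≤ X := by rw [hX]; positivity
    rw [← hX]
    have h3 : |lt μ s κ r (u + 1) y| / wd μ s (T u) ≤ K + X := by
      have h5 : |lt μ s κ r (u + 1) y| ≤ |lt μ s κ r u x| + (K - 2) * wd μ s (T u) := by
        have h6 := abs_add_le (lt μ s κ r (u + 1) y - lt μ s κ r u x) (lt μ s κ r u x)
        rw [sub_add_cancel] at h6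
        linarith
      rw [div_le_iff₀ hw0, hX, add_mul, div_mul_cancel₀ _ hw0.ne']
      linarith
    have h4 : gr (2 * P) (|lt μ s κ r (u + 1) y| / wd μ s (T u)) ≤ gr (2 * P) K * gr (2 * P) X :=
      (gr_mono (2 * P) (by positivity) h3).trans (gr_shift (2 * P) (by linarith) hX0)
    have h5 := mul_le_mul_of_nonneg_left h4 (hqq0 u)
    have h6 : qq P C' q u * (gr (2 * P) K * gr (2 * P) X) ≤ qd P c K C' q u * gr (2 * P) X := by
      rw [← mul_assoc]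
      refine mul_le_mul_of_nonneg_right ?_ (gr_nonneg _ hX0)
      unfold qd
      have := hLQ0 u
      linarith
    exact h5.trans h6
  · intro u hu hub x
    have h2 := H2 (T u) (l2.trans (h1.T1 u hu hub)) ((x : ℝ) - sl μ s * ((r u - r (u + 1) : ℕ) : ℝ)) (bd r a x₀ R (u + 1))
    rw [one_mul]
    refine le_trans (le_of_eq (sum_congr rfl fun y _ => ?_)) h2
    rw [abs_sub_comm (lt μ s κ r (u + 1) y), lt_sub κ r (u + 1) u y x (h1.rr u hu hub)]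
    congr 3
    rw [abs_sub_comm]
    congr 1
    push_cast
    ring

/-! ### The masses in the box -/

omit [IsProbabilityMeasure μ] in
/-- A large box contains the lines and the places. -/
theorem boxP84 (κ : Pt) (r : ℕ → ℕ) (a b : ℕ) (x₀ : ℤ) (Λ : ℝ) : ∃ R₀ : ℤ, ∀ R : ℤ, R₀ ≤ R → ∀ ρ : ℝ, |ρ| ≤ Λ → ∀ v, v ≤ b →
    ∃ z ∈ bd r a x₀ R v, |lt μ s κ r v z - ρ| ≤ 1 := by
  obtain ⟨R₀, hR₀⟩ : ∃ R₀ : ℤ, R₀ = ∑ v ∈ range (b + 1), (|κ.2 - x₀| + |⌈|sl μ s * (((r v : ℤ) - κ.1 : ℤ) : ℝ)| + |Λ|⌉| + 1) := ⟨_, rfl⟩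
  refine ⟨R₀, fun R hR ρ hρ v hv => ⟨κ.2 + ⌊sl μ s * (((r v : ℤ) - κ.1 : ℤ) : ℝ) + ρ⌋, ?_, line_site κ r ρ v⟩⟩
  have h1 : |κ.2 - x₀| + |⌈|sl μ s * (((r v : ℤ) - κ.1 : ℤ) : ℝ)| + |Λ|⌉| + 1 ≤ R₀ := by
    rw [hR₀]
    exact single_le_sum (f := fun v => |κ.2 - x₀| + |⌈|sl μ s * (((r v : ℤ) - κ.1 : ℤ) : ℝ)| + |Λ|⌉| + 1)
      (fun v _ => by positivity) (mem_range.2 (by omega : v < b + 1))
  obtain ⟨t, ht⟩ : ∃ t : ℝ, t = sl μ s * (((r v : ℤ) - κ.1 : ℤ) : ℝ) := ⟨_, rfl⟩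
  rw [← ht] at h1 ⊢
  have h2 := le_abs_self (⌈|t| + |Λ|⌉)
  have h3 : |t + ρ| ≤ (⌈|t| + |Λ|⌉ : ℝ) := (abs_add_le t ρ).trans ((add_le_add le_rfl (hρ.trans (le_abs_self Λ))).trans (Int.le_ceil _))
  obtain ⟨h4, h5⟩ := abs_le.1 h3
  have h6 : -⌈|t| + |Λ|⌉ ≤ ⌊t + ρ⌋ := Int.le_floor.2 (by push_cast; linarith)
  have h7 : ⌊t + ρ⌋ ≤ ⌈|t| + |Λ|⌉ := by
    have := Int.floor_le (t + ρ)
    have h8 : (⌊t + ρ⌋ : ℝ) ≤ (⌈|t| + |Λ|⌉ : ℝ) := this.trans h5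
    exact_mod_cast h8
  have h9 := abs_le.1 (le_refl |κ.2 - x₀|)
  unfold bd
  rw [mem_Icc]
  omega

omit [IsProbabilityMeasure μ] in
/-- **The mass identity in the box.** -/
theorem massP84 {h : ℝ} {η : Env} {p : ℕ → ℝ} {M : ℕ} {l : ℤ → ℝ} {r : ℕ → ℕ} {a b : ℕ}
    (hr : ∀ u, a ≤ u → u < b → r (u + 1) ≤ r u) {x₀ R : ℤ} {m u : ℕ} (hu : a ≤ u) (hm : u + m ≤ b) {x : ℤ}
    (hx : x ∈ bd r a x₀ R u) : fh84 μ s h η p M l (r u) x =
      ∑ z ∈ bd r a x₀ R (u + m), cmp (kd μ s h η p M r) (bd r a x₀ R) m u x z * fh84 μ s h η p M l (r (u + m)) z := by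
  have hau : r u ≤ r a := by
    have h1 := rd_mono hr (u - a) a le_rfl (by omega)
    rwa [Nat.add_sub_cancel' hu] at h1
  have h2 := rd_mono hr m u hu hm
  have e1 : r u = r (u + m) + (r u - r (u + m)) := by omega
  have e2 := fh_step (μ := μ) (s := s) (h := h) (η := η) (p := p) (M := M) (l := l) (r (u + m)) (r u - r (u + m)) x
  rw [← e1] at e2
  rw [e2]
  have hsub : Icc (x - ((r u - r (u + m) : ℕ) : ℤ)) x ⊆ bd r a x₀ R (u + m) := by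
    intro z hz
    unfold bd at hx ⊢
    rw [mem_Icc] at hx hz ⊢
    omega
  rw [sum_subset hsub fun z _ hz => by
    rw [nk_eq_zero _ _ (fun h => hz (mem_Icc.2 ⟨by omega, h.1⟩)), zero_mul]]
  exact sum_congr rfl fun z _ => by rw [cmp_kd hr m u hu hm x hx z]

/-- The mass of the place `x` of the row `a` through the places `Q` of the earlier row `e`. -/
def PMP84 (μ : Measure ℝ) (s h : ℝ) (η : Env) (p : ℕ → ℝ) (M : ℕ) (l : ℤ → ℝ) (a e : ℕ) (x : ℤ) (Q : ℤ → Prop) [DecidablePred Q] : ℝ :=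
  ∑ z ∈ (Icc (x - ((a - e : ℕ) : ℤ)) x).filter Q, nk μ s h η p M e (a - e) z x * fh84 μ s h η p M l e z

omit [IsProbabilityMeasure μ] in
/-- The mass through the places `Q` in the box. -/
theorem pmP84 {h : ℝ} {η : Env} {p : ℕ → ℝ} {M : ℕ} {l : ℤ → ℝ} {r : ℕ → ℕ} {a b : ℕ} (hr : ∀ u, a ≤ u → u < b → r (u + 1) ≤ r u)
    {x₀ R : ℤ} {m u : ℕ} (hu : a ≤ u) (hm : u + m ≤ b) {x : ℤ} (hx : x ∈ bd r a x₀ R u) (Q : ℤ → Prop) [DecidablePred Q] :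
    PMP84 μ s h η p M l (r u) (r (u + m)) x Q =
      ∑ z ∈ (Icc (x - ((r u - r (u + m) : ℕ) : ℤ)) x).filter Q, cmp (kd μ s h η p M r) (bd r a x₀ R) m u x z *
        fh84 μ s h η p M l (r (u + m)) z := by
  unfold PMP84
  exact sum_congr rfl fun z _ => by rw [cmp_kd hr m u hu hm x hx z]

/-- The levels of the downward system. -/
theorem qd_le (P : ℕ) {c K C' : ℝ} (hc : 0 < c) (hK : 0 ≤ K) (hC' : 0 ≤ C') :
    ∃ Cq : ℝ, 0 ≤ Cq ∧ ∀ {q₀ : ℝ} {q : ℕ → ℝ} {u v : ℕ} {Θ : ℝ}, 0 ≤ q₀ → 1 ≤ Θ → 0 ≤ q v → q v ≤ q₀ * Θ ^ (v - u) →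
      qd P c K C' q v ≤ Cq * (1 + q₀) ^ 4 * (Θ ^ 4) ^ (v - u) := by
  have hg2 := gr_nonneg (2 * P) (show (0 : ℝ) ≤ 2 by norm_num)
  have hgK := gr_nonneg (2 * P) hK
  have hCL := CL_pos (2 * P) (show 0 < c / 8 by positivity)
  obtain ⟨a₀, ha₀⟩ : ∃ a₀ : ℝ, a₀ = C' * gr (2 * P) 2 := ⟨_, rfl⟩
  have ha00 : 0 ≤ a₀ := by rw [ha₀]; positivity
  refine ⟨CL (2 * P) (c / 8) * (1 + a₀) ^ 2 + a₀ * gr (2 * P) K, by positivity, ?_⟩
  intro q₀ q u v Θ hq₀ hΘ hq0 hq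
  have h1 := qq_le (C' := C') (q₀ := q₀) P hC' hq₀ hΘ hq0 hq
  rw [← ha₀] at h1
  have hqq0 : 0 ≤ qq P C' q v := by
    unfold qq
    positivity
  have h2 := lq_le (2 * P) (show 0 < c / 8 by positivity) hqq0
  obtain ⟨y, hy⟩ : ∃ y : ℝ, y = (1 + q₀) ^ 2 * (Θ ^ 2) ^ (v - u) := ⟨_, rfl⟩
  have hy1 : 1 ≤ y := by
    rw [hy]
    exact one_le_mul_of_one_le_of_one_le (one_le_pow₀ (by linarith)) (one_le_pow₀ (one_le_pow₀ hΘ))
  have hyy : (1 + q₀) ^ 4 * (Θ ^ 4) ^ (v - u) = y * y := by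
    have e1 : (Θ ^ 4) ^ (v - u) = (Θ ^ 2) ^ (v - u) * (Θ ^ 2) ^ (v - u) := by
      rw [← mul_pow]
      congr 1
      ring
    rw [hy, e1]
    ring
  have h1' : qq P C' q v ≤ a₀ * y := by
    rw [hy]
    linarith
  rw [mul_assoc, hyy]
  have h3 : (1 + qq P C' q v) ^ 2 ≤ ((1 + a₀) * y) ^ 2 := by
    refine pow_le_pow_left₀ (by linarith) ?_ 2
    linarith
  have h4 := mul_le_mul_of_nonneg_left h3 hCL.le
  have h5 : qq P C' q v * gr (2 * P) K ≤ a₀ * gr (2 * P) K * (y * y) := by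
    have h6 := mul_le_mul_of_nonneg_right h1' hgK
    have h7 : y ≤ y * y := le_mul_of_one_le_left (by linarith) hy1
    have h8 := mul_le_mul_of_nonneg_left h7 (show 0 ≤ a₀ * gr (2 * P) K by positivity)
    linarith [show a₀ * y * gr (2 * P) K = a₀ * gr (2 * P) K * y by ring]
  unfold qd
  linarith [show CL (2 * P) (c / 8) * ((1 + a₀) * y) ^ 2 = CL (2 * P) (c / 8) * (1 + a₀) ^ 2 * (y * y) by ring,
    show (CL (2 * P) (c / 8) * (1 + a₀) ^ 2 + a₀ * gr (2 * P) K) * (y * y) =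
      CL (2 * P) (c / 8) * (1 + a₀) ^ 2 * (y * y) + a₀ * gr (2 * P) K * (y * y) by ring]

/-- **ONE PLACE OF THE SCALE `i` AGAINST ONE PLACE OF THE INNER WINDOW**, for the forward masses; the arms of the place at the row
`r (u + (i + 2))` (earlier) in the form of `PMP84`. -/
theorem dd_oneP84 (h0 : In μ s c C n₀) (P : ℕ) {θ K : ℝ} (hθ : 0 < θ) : ∃ K₀ : ℕ, 2 ≤ K₀ ∧
    ∀ K₁ q₀ R Pa : ℝ, 1 ≤ K₁ → K₁ + 3 ≤ K → 0 ≤ q₀ → 0 ≤ R → 0 ≤ Pa → ∀ b : ℕ, ∃ (A : ℝ) (n₁ : ℕ), 0 ≤ A ∧ 1 ≤ n₁ ∧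
    ∀ {h : ℝ} {η : Env} {p : ℕ → ℝ} {M : ℕ} {l : ℤ → ℝ} {κ : Pt} {r T N : ℕ → ℕ} {q : ℕ → ℝ} {bs : ℕ → Pt} {u i : ℕ} {Θ : ℝ},
    (∀ k, k < M → p k = Real.exp (s + h)) → (∀ k, M ≤ k → p k = Real.exp s) → (∀ y, 0 ≤ l y) → 1 ≤ Θ → Θ ^ 4 ≤ 2 →
    LayP84 μ s c θ K h P η κ r T N q bs u (u + (i + 2)) n₁ →
    (∀ v, u ≤ v → v < u + (i + 1) → K₀ * T v ≤ T (v + 1) ∧ T (v + 1) ≤ b * T v) →
    (∀ v, u ≤ v → v < u + (i + 2) → q v ≤ q₀ * Θ ^ (v - u)) →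
    ∀ (ρ : ℝ), |ρ| ≤ R * wd μ s (T u) → ∀ (x x' : ℤ), |lt μ s κ r u x - ρ| ≤ K₁ * wd μ s (T (u + i)) →
    |lt μ s κ r u x' - ρ| ≤ K₁ * wd μ s (T u) → ∀ (Q : ℤ → Prop) [DecidablePred Q],
    (∀ z, x - ((r u - r (u + (i + 2)) : ℕ) : ℤ) ≤ z → z ≤ x → Q z →
      |lt μ s κ r (u + (i + 2)) z - ρ| ≤ (K - 2) * wd μ s (T (u + (i + 1))) - 1) →
    fh84 μ s h η p M l (r u) x ≤ Pa * PMP84 μ s h η p M l (r u) (r (u + (i + 2))) x Q →
    fh84 μ s h η p M l (r u) x ≤ Real.exp (A * (Θ ^ (8 * i) * EE μ s (T (u + i)))) * fh84 μ s h η p M l (r u) x' := by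
  have hc0 := h0.c0
  obtain ⟨K₀, hK₀, H⟩ := ddi_one h0 (2 * P) (cc := 3 * c / 8) (c₁ := c / 16) (c₂ := c / 8) (c₃ := c / 8) (by positivity) (by positivity)
    (by positivity) (by linarith)
  refine ⟨K₀, hK₀, fun K₁ q₀ R Pa hK₁ hK hq₀ hR hPa b => ?_⟩
  obtain ⟨C', hC', m₁, hm₁, HS⟩ := sysP84 h0 P (θ := θ) (K := K) (by linarith) hθ
  obtain ⟨Cq, hCq, Hq⟩ := qd_le P (c := c) (K := K) (C' := C') hc0 (by linarith) hC'.le
  obtain ⟨A, m₂, hA, hm₂, H2⟩ := H (K - 2) K₁ (Cq * (1 + q₀) ^ 4) 1 R Pa hK₁ (by linarith) (by positivity) zero_le_one hR hPa b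
  refine ⟨A, max m₁ m₂, hA, hm₁.trans (le_max_left _ _), ?_⟩
  intro h η p M l κ r T N q bs u i Θ hp hp' hl hΘ hΘ2 hL hT hq ρ hρ x x' hx hx' Q _ hQ harm
  have hpos : ∀ k, 0 < p k := by
    intro k
    rcases lt_or_ge k M with h2 | h2
    · rw [hp k h2]
      exact Real.exp_pos _
    · rw [hp' k h2]
      exact Real.exp_pos _
  obtain ⟨R₀, hR₀⟩ := boxP84 (μ := μ) (s := s) κ r u (u + (i + 2)) x |ρ|
  obtain ⟨Rb, hRb⟩ : ∃ Rb : ℤ, Rb = max R₀ |x' - x| := ⟨_, rfl⟩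
  have hR1 : R₀ ≤ Rb := by rw [hRb]; exact le_max_left _ _
  have hR2 : |x' - x| ≤ Rb := by rw [hRb]; exact le_max_right _ _
  have hxb : x ∈ bd r u x Rb u := by
    unfold bd
    rw [mem_Icc]
    have := (abs_nonneg (x' - x)).trans hR2
    omega
  have hxb' : x' ∈ bd r u x Rb u := by
    unfold bd
    rw [mem_Icc]
    rw [abs_le] at hR2
    omega
  have hsys := HS (le_max_left _ _) hp hp' hL x Rb ρ fun v _ hv => hR₀ Rb hR1 ρ le_rfl v hv.le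
  have hrr := hL.rr
  have e1 := massP84 (μ := μ) (s := s) (h := h) (η := η) (p := p) (M := M) (l := l) hrr (m := i + 2) le_rfl le_rfl hxb
  have e2 := massP84 (μ := μ) (s := s) (h := h) (η := η) (p := p) (M := M) (l := l) hrr (m := i + 2) le_rfl le_rfl hxb'
  have e3 := pmP84 (μ := μ) (s := s) (h := h) (η := η) (p := p) (M := M) (l := l) hrr (m := i + 2) le_rfl le_rfl hxb Q
  rw [e3] at harm
  have key := H2 T u i (u + (i + 2)) (Θ ^ 4) (one_le_pow₀ hΘ) hΘ2 ((le_max_right _ _).trans (hL.T1 u le_rfl (by omega))) hT le_rfl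
    (qd P c K C' q) (lt μ s κ r) (kd μ s h η p M r) (bd r u x Rb) ρ hsys
    (fun v hv hv' => Hq hq₀ hΘ (hL.q0 v hv hv') (hq v hv hv')) hρ
    (fh84 μ s h η p M l (r u)) (fh84 μ s h η p M l (r (u + (i + 2))))
    ((Icc (x - ((r u - r (u + (i + 2)) : ℕ) : ℤ)) x).filter Q) x x'
    (fun z => fh_nonneg hpos hl _ _) e1 e2
    (fun z hz => by
      obtain ⟨z1, z2⟩ := mem_filter.1 hz
      rw [mem_Icc] at z1
      refine ⟨?_, hQ z z1.1 z1.2 z2⟩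
      unfold bd at hxb ⊢
      rw [mem_Icc] at hxb ⊢
      omega) hx hx' harm
  rw [← pow_mul] at key
  rw [show 8 * i = 4 * (2 * i) by ring]
  exact key

end

end Pool.Agent.W_7d29a1_C1.SysP84
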