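import Pool.Agent.W_7d29a1_C1.ArmR88
import Pool.Agent.W_7d29a1_C1.ArmK88
import Pool.Agent.W_7d29a1_C1.ArmD88
import Pool.Agent.W_7d29a1_C1.SysP84

/-!
MP_7d29a1_pr, attractor route [C1], THE ARMS OF THE PAST (board 83918 (2)): masses `fh84` of `SysP84`. (helper88)

Rows DOWNWARD `r u ≥ r (u + 1) ≥ ..`, layer `v` = rows `(r (v + 1), r v]` of scale `T v` (label), frame `κ`, `lt` =
lateral coordinate.  Node `i` (`1 ≤ i < m`) = rows `r (u + (i - 1))`, `r (u + i)`, `r (u + (i + 1))`, centre `xc i` in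
the row `r (u + i)`, unit `wd (T (u + (i - 1)))`; it is read in the REVERSED environment `rv 0 η` (rows and columns
change sign).

* `krv`, `brv`, `sysRv` : the reversed kernels and masses are a `SysR88`; `PM_rv` : `PM16` of them = `PMP84`;
* `Cj_rv` : on rows which do not contain the switch the reversed kernels are conjugated tilts of `W` of `rv 0 η`;
* **`armP88`** : nodes + numbers + top boundary ⟹ `fh84 (r u) x ≤ 2 PMP84 (|lt (u + j) z - lt u x| < Z wd (T (u + (j - 1))))`;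
* **`arm_ddP88`** : the arms hypothesis of `dd_oneP84` (`j = i + 2`, window `(K - 2) wd (T (u + (i + 1))) - 1` around `ρ`).
-/

set_option autoImplicit false

namespace Pool.Agent.W_7d29a1_C1.ArmPa88

open Finset Pool.Agent.W_7d29a1_F MeasureTheory
open Pool.Agent.W_7d29a1_h4g Pool.Agent.W_7d29a1_H Pool.Agent.W_7d29a1_HS
open Pool.Agent.W_7d29a1_C1.FarW89 (nk nk_nonneg nk_eq_zero nk_add lt lt_sub)
open Pool.Agent.W_7d29a1_C1.U16 (PM16 lat16)
open Pool.Agent.W_7d29a1_C1.H94 (nu Cs94)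
open Pool.Agent.W_7d29a1_C1.ArmW6 (lab6)
open Pool.Agent.W_7d29a1_C1.ArmR88
open Pool.Agent.W_7d29a1_C1.ArmK88 (nk_tilt)
open Pool.Agent.W_7d29a1_C1.ArmQ88 (W_rev88)
open Pool.Agent.W_7d29a1_C1.SysP84 (fh84 PMP84 fh_step fh_nonneg)
open Pool.Agent.W_7d29a1_g (rv)

noncomputable section

variable {μ : Measure ℝ} {s h : ℝ} {η : Env} {p : ℕ → ℝ} {M : ℕ} {l : ℤ → ℝ}

/-- The reversed kernels: rows `a ≤ b ≤ R` stand for the rows `R - a ≥ R - b`. -/
def krv (μ : Measure ℝ) (s h : ℝ) (η : Env) (p : ℕ → ℝ) (M R a b : ℕ) (y x : ℤ) : ℝ :=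
  nk μ s h η p M (R - b) (b - a) (-x) (-y)

/-- The reversed masses. -/
def brv (μ : Measure ℝ) (s h : ℝ) (η : Env) (p : ℕ → ℝ) (M : ℕ) (l : ℤ → ℝ) (R a : ℕ) (y : ℤ) : ℝ :=
  fh84 μ s h η p M l (R - a) (-y)

/-- **The reversed system.** -/
theorem sysRv (hpos : ∀ k, 0 < p k) (hl : ∀ y, 0 ≤ l y) (R : ℕ) :
    SysR88 (krv μ s h η p M R) (brv μ s h η p M l R) R := by
  refine ⟨fun a b x z _ _ => nk_nonneg hpos _ _ _ _, fun a x _ => fh_nonneg hpos hl _ _, ?_, ?_, ?_⟩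
  · intro a b x z hab hb hxz
    unfold krv
    refine nk_eq_zero _ _ fun h1 => hxz ?_
    omega
  · intro a b x hab hb
    have h1 := fh_step (μ := μ) (s := s) (h := h) (η := η) (p := p) (M := M) (l := l) (R - b) (b - a) (-x)
    have e1 : R - b + (b - a) = R - a := by omega
    rw [e1] at h1
    unfold brv krv
    rw [h1]
    refine sum_nbij' (fun z => -z) (fun z => -z) ?_ ?_ ?_ ?_ ?_
    · intro z hz
      rw [mem_Icc] at hz ⊢
      omega
    · intro z hz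
      rw [mem_Icc] at hz ⊢
      omega
    · intro z _; exact neg_neg z
    · intro z _; exact neg_neg z
    · intro z _
      simp only [neg_neg]
  · intro a b c x z hab hbc hc
    unfold krv
    have h1 := nk_add (μ := μ) (s := s) (h := h) (η := η) (p := p) (M := M) (R - c) (c - b) (b - a) (-z) (-x)
    have e1 : c - b + (b - a) = c - a := by omega
    have e2 : R - c + (c - b) = R - b := by omega
    rw [e1, e2] at h1
    rw [h1]
    refine sum_nbij' (fun z => -z) (fun z => -z) ?_ ?_ ?_ ?_ ?_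
    · intro z hz
      rw [mem_Icc] at hz ⊢
      omega
    · intro z hz
      rw [mem_Icc] at hz ⊢
      omega
    · intro z _; exact neg_neg z
    · intro z _; exact neg_neg z
    · intro w _
      simp only [neg_neg]
      ring

/-- `PM16` of the reversed system. -/
theorem PM_rv (R : ℕ) {a e : ℕ} (ha : a ≤ e) (he : e ≤ R) (x : ℤ) (Q : ℤ → Prop) [DecidablePred Q] :
    PM16 (krv μ s h η p M R) (brv μ s h η p M l R) a e (-x) (fun z => Q (-z)) =
      PMP84 μ s h η p M l (R - a) (R - e) x Q := by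
  have e1 : R - a - (R - e) = e - a := by omega
  unfold PM16 PMP84 krv brv
  rw [e1]
  refine sum_nbij' (fun z => -z) (fun z => -z) ?_ ?_ ?_ ?_ ?_
  · intro z hz
    rw [mem_filter, mem_Icc] at hz ⊢
    refine ⟨⟨?_, ?_⟩, hz.2⟩ <;> omega
  · intro z hz
    rw [mem_filter, mem_Icc] at hz ⊢
    refine ⟨⟨?_, ?_⟩, ?_⟩
    · omega
    · omega
    · rw [neg_neg]
      exact hz.2
  · intro z _; exact neg_neg z
  · intro z _; exact neg_neg z
  · intro z _
    simp only [neg_neg]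

/-- The conjugating factors. -/
def phv (η : Env) (R a : ℕ) (y : ℤ) : ℝ := Real.exp (η (((R - a : ℕ) : ℤ), -y))

/-- **The reversed kernels are conjugated tilts** of the weights of the reversed environment. -/
theorem Cj_rv (hp : ∀ k, k < M → p k = Real.exp (s + h)) (hp' : ∀ k, M ≤ k → p k = Real.exp s) {R e0 e2 : ℕ} (he : e2 ≤ R)
    (hM : R - e0 ≤ M ∨ M ≤ R - e2) :
    Cj88 μ s (krv μ s h η p M R) (rv 0 η) (-(R : ℤ)) (phv η R) e0 e2 := by
  obtain ⟨g, hg⟩ := nk_tilt μ η hp hp' (e0 := R - e2) (e2 := R - e0) hM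
  refine ⟨g, fun i n hi hin x z => ?_⟩
  have e1 : i + n - i = n := by omega
  unfold krv phv
  rw [e1, hg (R - (i + n)) n (by omega) (by omega)]
  have h1 := W_rev88 (μ := μ) (s := s) η ((R - (i + n) : ℕ) : ℤ) (-z) (-x) n
  have e2' : ((R - (i + n) : ℕ) : ℤ) + n = ((R - i : ℕ) : ℤ) := by omega
  have e3 : -(((R - i : ℕ) : ℤ)) = (i : ℤ) + -(R : ℤ) := by omega
  have e4 : - -z - - -x = z - x := by ring
  have e5 : -x - -z = z - x := by ring
  rw [e2', e3, e4, e5, neg_neg] at h1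
  rw [e5]
  have p1 : 0 < Real.exp (η (((R - (i + n) : ℕ) : ℤ), -z)) := Real.exp_pos _
  have h2 : W μ s η (((R - (i + n) : ℕ) : ℤ), -z) n (z - x) =
      Real.exp (η (((R - i : ℕ) : ℤ), -x)) / Real.exp (η (((R - (i + n) : ℕ) : ℤ), -z)) *
        W μ s (rv 0 η) ((i : ℤ) + -(R : ℤ), x) n (z - x) := by
    rw [div_mul_eq_mul_div, eq_div_iff p1.ne', ← h1]
    ring
  rw [h2]
  ring

theorem phv_pos (R i : ℕ) (x : ℤ) : 0 < phv η R i x := Real.exp_pos _

/-- The rows of a downward tower. -/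
theorem rowsP88 {r T : ℕ → ℕ} {u m : ℕ}
    (hr : ∀ i, i < m → r (u + (i + 1)) ≤ r (u + i) ∧ r (u + i) ≤ r (u + (i + 1)) + T (u + i))
    (hT : ∀ i, i + 1 < m → 4 * T (u + i) ≤ T (u + (i + 1))) : ∀ i, 1 ≤ i → i ≤ m →
      r (u + i) ≤ r u ∧ r u - r (u + i) ≤ 2 * T (u + (i - 1)) := by
  intro i
  induction i with
  | zero => intro h0; exact absurd h0 (by norm_num)
  | succ i ih =>
    intro _ him
    have h1 := hr i (by omega)
    rcases Nat.eq_zero_or_pos i with h0 | h0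
    · subst h0
      simp only [Nat.add_zero, Nat.zero_add, Nat.sub_self] at h1 ⊢
      omega
    · have h2 := ih h0 (by omega)
      have h3 := hT (i - 1) (by omega)
      have e1 : i - 1 + 1 = i := by omega
      rw [e1] at h3
      have e2 : i + 1 - 1 = i := by omega
      rw [e2]
      omega

/-- Two rows of a downward tower. -/
theorem rowP2 {r : ℕ → ℕ} {u m j : ℕ} (hr : ∀ i, i < m → r (u + (i + 1)) ≤ r (u + i)) (hj : j ≤ m) : r (u + m) ≤ r (u + j) := by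
  have : ∀ d, j + d ≤ m → r (u + (j + d)) ≤ r (u + j) := by
    intro d
    induction d with
    | zero => intro _; exact le_rfl
    | succ d ih =>
      intro hd
      exact (hr (j + d) (by omega)).trans (ih (by omega))
  have h5 := this (m - j) (by omega)
  rwa [show j + (m - j) = m by omega] at h5

variable [IsProbabilityMeasure μ] {c C : ℝ} {n₀ : ℕ}

/-- **THE ARMS OF A PLACE, PAST.** -/
theorem armP88 (h0 : In μ s c C n₀) {θ : ℝ} (hθ : 0 < θ) (K0 : ℕ) {Bn : ℕ} (hBn : 1 ≤ Bn) : ∃ K1 n₄ : ℕ, 4 ≤ K1 ∧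
    ∀ {c₀ δ₁ c₁ A aa g Y₁ : ℝ} {Kb n₃ : ℕ}, Cs94 μ s c₀ δ₁ c₁ A aa g θ Y₁ K0 Kb n₃ → ∀ Kr : ℕ, 4 * Kr * Bn ≤ Kb →
    ∀ {h : ℝ} {η : Env} {p : ℕ → ℝ} {M : ℕ} {l : ℤ → ℝ},
      (∀ k, k < M → p k = Real.exp (s + h)) → (∀ k, M ≤ k → p k = Real.exp s) → (∀ y, 0 ≤ l y) →
    ∀ {κ : Pt} {r T : ℕ → ℕ} {u m j : ℕ}, 1 ≤ j → j < m →
      (∀ i, i < m → r (u + (i + 1)) ≤ r (u + i) ∧ r (u + i) ≤ r (u + (i + 1)) + T (u + i)) →
      (∀ i, i < m → T (u + i) ≤ Bn * (r (u + i) - r (u + (i + 1)))) →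
      (∀ i, i < m → n₄ ≤ T (u + i) ∧ Bn * n₃ ≤ T (u + i)) →
      (∀ i, i + 1 < m → K1 * T (u + i) ≤ T (u + (i + 1)) ∧ T (u + (i + 1)) ≤ Kr * T (u + i)) →
      (∀ i, 1 ≤ i → i < m → r (u + (i - 1)) ≤ M ∨ M ≤ r (u + (i + 1))) →
    ∀ {x : ℤ} {xc : ℕ → ℤ} {R : ℕ} {Y Z : ℝ} {l0 : ℕ}, 1 ≤ R → 8 ≤ Y → 8 * Y₁ ≤ Y → 2 ^ (l0 + 1) * Y ≤ Z →
      (∀ i, 1 ≤ i → i < m → nu μ s c₀ δ₁ Y (wd μ s (T (u + (i - 1)))) (wd μ s (T (u + i)) / wd μ s (T (u + (i - 1)))) R
        (-(r (u + (i - 1)) : ℤ)) (r (u + (i - 1)) - r (u + i)) (r (u + i) - r (u + (i + 1))) (-xc i) (rv 0 η) ≤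
          ((i : ℤ) - j).natAbs + l0) →
      (∀ i, 1 ≤ i → i < m → |lt μ s κ r (u + i) (xc i) - lt μ s κ r u x| ≤
        (R : ℝ) ^ (((i : ℤ) - j).natAbs + l0) * wd μ s (T (u + (i - 1)))) →
      16 * (((r u - r (u + m) : ℕ) : ℝ) * Real.exp (-(c₁ * (Z / 8 * EE μ s (r u - r (u + j)))))) ≤ 1 →
      16 * (((r u - r (u + m) : ℕ) : ℝ) * PMP84 μ s h η p M l (r u) (r (u + m)) x
        (fun z => 4 ^ (m - j) * (Z * wd μ s (T (u + (m - 1)))) ≤ |lt μ s κ r (u + m) z - lt μ s κ r u x|)) ≤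
          fh84 μ s h η p M l (r u) x →
      fh84 μ s h η p M l (r u) x ≤ 2 * PMP84 μ s h η p M l (r u) (r (u + j)) x
        (fun z => |lt μ s κ r (u + j) z - lt μ s κ r u x| < Z * wd μ s (T (u + (j - 1)))) := by
  obtain ⟨K1, n₄, hK1, H⟩ := lab6 h0 hθ K0 hBn
  refine ⟨K1, n₄, hK1, ?_⟩
  intro c₀ δ₁ c₁ A aa g Y₁ Kb n₃ hC Kr hKr h η p M l hp hp' hl κ r T u m j hj1 hjm hrr hlen hbig hKT hM x xc R Y Z l0 hR hY hY1 hZ
    hnu hX hnum htop
  have hpos : ∀ k, 0 < p k := by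
    intro k
    rcases lt_or_ge k M with h2 | h2
    · rw [hp k h2]
      exact Real.exp_pos _
    · rw [hp' k h2]
      exact Real.exp_pos _
  have hmon : ∀ i, 1 ≤ i → i ≤ m → r (u + i) ≤ r u ∧ r u - r (u + i) ≤ 2 * T (u + (i - 1)) :=
    rowsP88 (hr := fun i hi => hrr i hi) (hT := fun i hi => (Nat.mul_le_mul_right _ hK1).trans (hKT i hi).1)
  have hru : ∀ i, i ≤ m → r (u + i) ≤ r u := fun i hi => by
    rcases Nat.eq_zero_or_pos i with h1 | h1
    · subst h1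
      exact le_of_eq (by rw [Nat.add_zero])
    · exact (hmon i h1 hi).1
  -- the heights and the labels
  obtain ⟨Th, hTh⟩ : ∃ Th : ℕ → ℕ, Th = fun i => r u - r (u + i) := ⟨_, rfl⟩
  have eTh : ∀ i, Th i = r u - r (u + i) := fun i => by rw [hTh]
  obtain ⟨Hl, hHl⟩ : ∃ Hl : ℕ → ℕ, Hl = fun i => T (u + (i - 1)) := ⟨_, rfl⟩
  have eHl : ∀ i, Hl i = T (u + (i - 1)) := fun i => by rw [hHl]
  have hT0 : Th 0 = 0 := by rw [eTh, Nat.add_zero, Nat.sub_self]
  obtain ⟨g1, g2, g3, g4, g5, g6, g7⟩ := H hC Kr hKr Hl Th m hT0 (by omega)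
    (fun i h1 h2 => by
      rw [eHl]
      exact hbig (i - 1) (by omega))
    (fun i h1 h2 => by
      rw [eHl, eHl]
      have := (hKT (i - 1) (by omega)).1
      rw [show i - 1 + 1 = i + 1 - 1 by omega] at this
      exact this)
    (fun i h1 h2 => by
      rw [eHl, eHl]
      have := (hKT (i - 1) (by omega)).2
      rw [show i - 1 + 1 = i + 1 - 1 by omega] at this
      exact this)
    (fun i h1 h2 => by
      rw [eTh, eHl]
      exact (hmon i h1 h2).2)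
    (fun i h1 h2 => by
      rw [eTh, eHl]
      have h3 := hlen (i - 1) (by omega)
      rw [show i - 1 + 1 = i by omega] at h3
      refine h3.trans (Nat.mul_le_mul_left _ ?_)
      have := hru (i - 1) (by omega)
      omega)
  have eru : ∀ i, i ≤ m → r u - Th i = r (u + i) := fun i hi => by
    rw [eTh]
    have := hru i hi
    omega
  have eru' : ∀ i, i ≤ m → Th i + r (u + i) = r u := fun i hi => by
    rw [eTh]
    have := hru i hi
    omega
  have elt : ∀ i, i ≤ m → ∀ z : ℤ, |lt μ s κ r (u + i) z - lt μ s κ r u x| = |((-z : ℤ) : ℝ) - ((-x : ℤ) : ℝ) - sl μ s * Th i| := by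
    intro i hi z
    have h1 := lt_sub (μ := μ) (s := s) κ r (u + i) u z x (hru i hi)
    rw [abs_sub_comm, h1, ← eTh]
    congr 1
    push_cast
    ring
  have hd1 : ∀ i, 1 ≤ i → i < m → Th i - Th (i - 1) = r (u + (i - 1)) - r (u + i) := fun i h1 h2 => by
    have a1 := eru' i (by omega)
    have a2 := eru' (i - 1) (by omega)
    omega
  have hd2 : ∀ i, 1 ≤ i → i < m → Th (i + 1) - Th i = r (u + i) - r (u + (i + 1)) := fun i h1 h2 => by
    have a1 := eru' i (by omega)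
    have a2 := eru' (i + 1) (by omega)
    omega
  have S := sysRv (μ := μ) (s := s) (h := h) (η := η) (M := M) hpos hl (r u)
  have etop : 16 * ((Th m : ℝ) * PM16 (krv μ s h η p M (r u)) (brv μ s h η p M l (r u)) 0 (0 + Th m) (-x)
      (fun z => 4 ^ (m - j) * (Z * wd μ s (Hl m)) ≤ |(z : ℝ) - ((-x : ℤ) : ℝ) - sl μ s * Th m|)) ≤
        brv μ s h η p M l (r u) 0 (-x) := by
    have b1 : brv μ s h η p M l (r u) 0 (-x) = fh84 μ s h η p M l (r u) x := by
      unfold brv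
      rw [neg_neg, Nat.sub_zero]
    rw [b1]
    refine le_trans ?_ htop
    rw [← eTh m]
    refine mul_le_mul_of_nonneg_left (mul_le_mul_of_nonneg_left ?_ (Nat.cast_nonneg _)) (by norm_num)
    have b2 := PM_rv (μ := μ) (s := s) (h := h) (η := η) (p := p) (M := M) (l := l) (r u) (a := 0) (e := 0 + Th m) (Nat.zero_le _)
      (by rw [zero_add]; have := eru' m le_rfl; omega) x
      (fun z => 4 ^ (m - j) * (Z * wd μ s (T (u + (m - 1)))) ≤ |lt μ s κ r (u + m) z - lt μ s κ r u x|)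
    rw [Nat.sub_zero, zero_add, eru m le_rfl] at b2
    rw [← b2, zero_add]
    refine PM_mono S (Nat.zero_le _) (by have := eru' m le_rfl; omega) (-x) fun z _ _ hz => ?_
    rw [elt m le_rfl, neg_neg, ← eHl]
    exact hz
  have main := armR88 hC S (fun i y => phv_pos (η := η) (r u) i y) (T := Th) (m := m) (j := j) hT0 g1 g2 hj1 hjm (w := fun i => wd μ s (Hl i))
    (lm := 8) (by norm_num) g5 (fun i h1 h2 => g6 i h1 (by omega)) g7 (fun i h1 h2 => (g4 i h1 h2).hqn) (a := 0) (x := -x)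
    (by rw [zero_add]; have := eru' m le_rfl; omega)
    (fun i h1 h2 => by
      have a1 := eru (i + 1) (by omega)
      have a2 := eru (i - 1) (by omega)
      have a3 := eru' (i + 1) (by omega)
      refine Cj_rv hp hp' (by omega) ?_
      rw [zero_add, zero_add, a1, a2]
      exact hM i h1 h2)
    (xc := fun i => -xc i) (R := R) hR hY hY1 (l0 := l0)
    (fun i h1 h2 => by
      have a2 := eru' (i - 1) (by omega)
      have e2 : (((0 : ℕ) : ℤ) + -(r u : ℤ) + Th (i - 1)) = -(r (u + (i - 1)) : ℤ) := by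
        push_cast
        omega
      rw [e2, hd1 i h1 h2, hd2 i h1 h2]
      have e3 : Hl (i + 1) = T (u + i) := by rw [eHl, show i + 1 - 1 = i by omega]
      have e4 : Hl i = T (u + (i - 1)) := eHl i
      simp only [e3, e4]
      exact hnu i h1 h2)
    (fun i h1 h2 => by
      have h3 := hX i h1 h2
      rw [elt i (by omega)] at h3
      have e4 : ((-x : ℤ) : ℝ) + sl μ s * Th i - ((-xc i : ℤ) : ℝ) = -(((-xc i : ℤ) : ℝ) - ((-x : ℤ) : ℝ) - sl μ s * Th i) := by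
        ring
      rw [e4, abs_neg]
      have e5 : Hl i = T (u + (i - 1)) := eHl i
      simp only [e5]
      exact h3)
    (Z := Z) hZ
    (by
      rw [eTh m, eTh j]
      exact hnum)
    etop
  have b1 : brv μ s h η p M l (r u) 0 (-x) = fh84 μ s h η p M l (r u) x := by
    unfold brv
    rw [neg_neg, Nat.sub_zero]
  rw [b1] at main
  refine main.trans (mul_le_mul_of_nonneg_left ?_ (by norm_num))
  have b2 := PM_rv (μ := μ) (s := s) (h := h) (η := η) (p := p) (M := M) (l := l) (r u) (a := 0) (e := 0 + Th j) (Nat.zero_le _)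
      (by rw [zero_add]; have := eru' j hjm.le; omega) x
      (fun z => |lt μ s κ r (u + j) z - lt μ s κ r u x| < Z * wd μ s (T (u + (j - 1))))
  rw [Nat.sub_zero, zero_add, eru j hjm.le] at b2
  rw [← b2, zero_add]
  refine PM_mono S (Nat.zero_le _) (by have := eru' j hjm.le; omega) (-x) fun z _ _ hz => ?_
  rw [elt j hjm.le, neg_neg, ← eHl]
  exact hz

/-- **The arms hypothesis of `dd_oneP84`** (`Pa := 2`, window around the line `ρ`), any base level `l0`. -/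
theorem arm_ddP88 (h0 : In μ s c C n₀) {θ : ℝ} (hθ : 0 < θ) (K0 : ℕ) {Bn : ℕ} (hBn : 1 ≤ Bn) : ∃ K1 n₄ : ℕ, 4 ≤ K1 ∧
    ∀ {c₀ δ₁ c₁ A aa g Y₁ : ℝ} {Kb n₃ : ℕ}, Cs94 μ s c₀ δ₁ c₁ A aa g θ Y₁ K0 Kb n₃ → ∀ Kr : ℕ, 4 * Kr * Bn ≤ Kb →
    ∀ {h : ℝ} {η : Env} {p : ℕ → ℝ} {M : ℕ} {l : ℤ → ℝ},
      (∀ k, k < M → p k = Real.exp (s + h)) → (∀ k, M ≤ k → p k = Real.exp s) → (∀ y, 0 ≤ l y) →
    ∀ {κ : Pt} {r T : ℕ → ℕ} {u m i : ℕ}, i + 2 < m →
      (∀ i, i < m → r (u + (i + 1)) ≤ r (u + i) ∧ r (u + i) ≤ r (u + (i + 1)) + T (u + i)) →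
      (∀ i, i < m → T (u + i) ≤ Bn * (r (u + i) - r (u + (i + 1)))) →
      (∀ i, i < m → n₄ ≤ T (u + i) ∧ Bn * n₃ ≤ T (u + i)) →
      (∀ i, i + 1 < m → K1 * T (u + i) ≤ T (u + (i + 1)) ∧ T (u + (i + 1)) ≤ Kr * T (u + i)) →
      (∀ i, 1 ≤ i → i < m → r (u + (i - 1)) ≤ M ∨ M ≤ r (u + (i + 1))) →
    ∀ {x : ℤ} {xc : ℕ → ℤ} {R : ℕ} {Y Z : ℝ} {l0 : ℕ}, 1 ≤ R → 8 ≤ Y → 8 * Y₁ ≤ Y → 2 ^ (l0 + 1) * Y ≤ Z →
      (∀ k, 1 ≤ k → k < m → nu μ s c₀ δ₁ Y (wd μ s (T (u + (k - 1)))) (wd μ s (T (u + k)) / wd μ s (T (u + (k - 1)))) R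
        (-(r (u + (k - 1)) : ℤ)) (r (u + (k - 1)) - r (u + k)) (r (u + k) - r (u + (k + 1))) (-xc k) (rv 0 η) ≤
          ((k : ℤ) - (i + 2 : ℕ)).natAbs + l0) →
      (∀ k, 1 ≤ k → k < m → |lt μ s κ r (u + k) (xc k) - lt μ s κ r u x| ≤
        (R : ℝ) ^ (((k : ℤ) - (i + 2 : ℕ)).natAbs + l0) * wd μ s (T (u + (k - 1)))) →
      16 * (((r u - r (u + m) : ℕ) : ℝ) * Real.exp (-(c₁ * (Z / 8 * EE μ s (r u - r (u + (i + 2))))))) ≤ 1 →
      16 * (((r u - r (u + m) : ℕ) : ℝ) * PMP84 μ s h η p M l (r u) (r (u + m)) x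
        (fun z => 4 ^ (m - (i + 2)) * (Z * wd μ s (T (u + (m - 1)))) ≤ |lt μ s κ r (u + m) z - lt μ s κ r u x|)) ≤
          fh84 μ s h η p M l (r u) x →
    ∀ {K K₁ ρ : ℝ}, |lt μ s κ r u x - ρ| ≤ K₁ * wd μ s (T (u + i)) → 0 ≤ K₁ → K₁ + Z + 3 ≤ K →
      fh84 μ s h η p M l (r u) x ≤ 2 * PMP84 μ s h η p M l (r u) (r (u + (i + 2))) x
        (fun z => |lt μ s κ r (u + (i + 2)) z - ρ| ≤ (K - 2) * wd μ s (T (u + (i + 1))) - 1) := by
  obtain ⟨K1, n₄, hK1, H⟩ := armP88 h0 hθ K0 hBn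
  obtain ⟨K2, n₅, hK2, H2⟩ := lab6 h0 hθ K0 hBn
  refine ⟨max K1 K2, max n₄ n₅, hK1.trans (le_max_left _ _), ?_⟩
  intro c₀ δ₁ c₁ A aa g Y₁ Kb n₃ hC Kr hKr h η p M l hp hp' hl κ r T u m i him hrr hlen hbig hKT hM x xc R Y Z l0 hR hY hY1 hZ
    hnu hX hnum htop K K₁ ρ hx hK₁ hK
  have hpos : ∀ k, 0 < p k := by
    intro k
    rcases lt_or_ge k M with h2 | h2
    · rw [hp k h2]
      exact Real.exp_pos _
    · rw [hp' k h2]
      exact Real.exp_pos _
  have key := H hC Kr hKr hp hp' hl (κ := κ) (r := r) (T := T) (u := u) (m := m) (j := i + 2) (by omega) him hrr hlen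
    (fun k hk => ⟨(le_max_left _ _).trans (hbig k hk).1, (hbig k hk).2⟩)
    (fun k hk => ⟨(Nat.mul_le_mul_right _ (le_max_left _ _)).trans (hKT k hk).1, (hKT k hk).2⟩) hM hR hY hY1 hZ hnu hX hnum htop
  have hmon := rowsP88 (hr := fun i hi => hrr i hi)
      (hT := fun i hi => (Nat.mul_le_mul_right _ (hK1.trans (le_max_left _ _))).trans (hKT i hi).1)
  -- the widths
  obtain ⟨-, -, -, -, w1, -, w16⟩ := H2 hC Kr hKr (fun k => T (u + (k - 1))) (fun k => r u - r (u + k)) m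
    (by rw [Nat.add_zero, Nat.sub_self]) (by omega)
    (fun k h1 h2 => ⟨(le_max_right _ _).trans (hbig (k - 1) (by omega)).1, (hbig (k - 1) (by omega)).2⟩)
    (fun k h1 h2 => by
      have := (Nat.mul_le_mul_right _ (le_max_right _ _)).trans (hKT (k - 1) (by omega)).1
      rw [show k - 1 + 1 = k by omega] at this
      show K2 * T (u + (k - 1)) ≤ T (u + (k + 1 - 1))
      rw [show k + 1 - 1 = k by omega]
      exact this)
    (fun k h1 h2 => by
      have := (hKT (k - 1) (by omega)).2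
      rw [show k - 1 + 1 = k by omega] at this
      show T (u + (k + 1 - 1)) ≤ Kr * T (u + (k - 1))
      rw [show k + 1 - 1 = k by omega]
      exact this)
    (fun k h1 h2 => (hmon k h1 h2).2)
    (fun k h1 h2 => by
      have h3 := hlen (k - 1) (by omega)
      rw [show k - 1 + 1 = k by omega] at h3
      refine h3.trans (Nat.mul_le_mul_left _ ?_)
      rcases Nat.lt_or_ge 1 k with h4 | h4
      · have := (hmon (k - 1) (by omega) (by omega)).1
        omega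
      · have e : k - 1 = 0 := by omega
        rw [e, Nat.add_zero])
  have a1 := w1 (i + 1) (by omega) (by omega)
  have a2 := w16 (i + 1) (by omega) (by omega)
  have e1 : i + 1 - 1 = i := by omega
  have e2 : i + 1 + 1 - 1 = i + 1 := by omega
  simp only [e1, e2] at a1 a2
  have e3 : i + 2 - 1 = i + 1 := by omega
  rw [e3] at key
  refine key.trans (mul_le_mul_of_nonneg_left ?_ (by norm_num))
  unfold PMP84
  refine sum_le_sum_of_subset_of_nonneg (fun z hz => ?_) fun z _ _ =>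
    mul_nonneg (nk_nonneg hpos _ _ _ _) (fh_nonneg hpos hl _ _)
  rw [mem_filter] at hz ⊢
  refine ⟨hz.1, ?_⟩
  have t0 := hz.2
  have t1 : |lt μ s κ r (u + (i + 2)) z - ρ| ≤ |lt μ s κ r (u + (i + 2)) z - lt μ s κ r u x| + |lt μ s κ r u x - ρ| := by
    have := abs_add_le (lt μ s κ r (u + (i + 2)) z - lt μ s κ r u x) (lt μ s κ r u x - ρ)
    rwa [sub_add_sub_cancel] at this
  have t2 : K₁ * wd μ s (T (u + i)) ≤ K₁ * wd μ s (T (u + (i + 1))) := mul_le_mul_of_nonneg_left (by linarith) hK₁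
  nlinarith

end

end Pool.Agent.W_7d29a1_C1.ArmPa88
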