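import Pool.Agent.W_7d29a1_C1.DepN6
import Pool.Agent.W_7d29a1_C1.ArmQ88

/-!
MP_7d29a1_pr, attractor route [C1], THE NODES OF THE PAST AS DEPTHS. (helper88)

* `W_last`, `Nm_last`, **`dep_nu_strict`** : `nu` does not read the LAST row of the node (the weight of the end point
  cancels): rows `(r, r + n1 + n2 - 1]`;
* `nuP` : the node of the PAST: cuts with rows `a < b < e`, read downward from `e` in `rv 0 η`; `nuP_rows` : it reads
  the rows strictly between `a` and `e`; `nuP_lint` : moments as `nu`;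
* **`dpXP88`**, **`dp3_p88`** : `dpX6`, `dp3_x6` (`DepN6`) for the past; `dpNP88`, `depthsP88` : with the levels.
-/

set_option autoImplicit false

namespace Pool.Agent.W_7d29a1_C1.ArmPn88

open MeasureTheory ProbabilityTheory Finset
open Pool.Agent.W_7d29a1_F Pool.Agent.W_7d29a1_h4g Pool.Agent.W_7d29a1_H Pool.Agent.W_7d29a1_HS
open Pool.Agent.W_7d29a1_C1.H75 Pool.Agent.W_7d29a1_C1.U16 Pool.Agent.W_7d29a1_C1.H40
open Pool.Agent.W_7d29a1_C1.H94 Pool.Agent.W_7d29a1_C1.ArmS89 Pool.Agent.W_7d29a1_C1.Dep6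
open Pool.Agent.W_7d29a1_g (rv TR_succ_univ)
open scoped ENNReal

noncomputable section

variable {μ : Measure ℝ} {s c C c₀ δ₁ c₁ A a g θ Y₁ : ℝ} {K0 Kb n₃ n₀ : ℕ}

/-- The last site is a factor. -/
theorem W_last (b : Pt) (n : ℕ) (y : ℤ) {η η' : Env} (hh : ∀ p ∈ rows b.1 (b.1 + n), η p = η' p) :
    W μ s η b (n + 1) y =
      Real.exp (η (b.1 + (n + 1), b.2 + y) - η' (b.1 + (n + 1), b.2 + y)) * W μ s η' b (n + 1) y := by
  have e : ∀ z : ℤ, Zr Set.univ η b n z = Zr Set.univ η' b n z := fun z =>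
    Zr_dep Set.univ b n z fun p hp => hh p ⟨hp.1.1, hp.1.2.1⟩
  unfold W WR
  rw [TR_succ_univ, TR_succ_univ, e, e]
  have h3 : Real.exp (η (b.1 + (n + 1), b.2 + y)) =
      Real.exp (η (b.1 + (n + 1), b.2 + y) - η' (b.1 + (n + 1), b.2 + y)) * Real.exp (η' (b.1 + (n + 1), b.2 + y)) := by
    rw [← Real.exp_add, sub_add_cancel]
  rw [h3]
  ring

/-- The same for the numerator of a node. -/
theorem Nm_last (ε x : ℝ) (b : Pt) (n1 m : ℕ) (y : ℤ) {η η' : Env} (hh : ∀ p ∈ rows b.1 (b.1 + n1 + m), η p = η' p) :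
    Nm μ s ε x η b n1 (m + 1) y =
      Real.exp (η (b.1 + n1 + (m + 1), b.2 + y) - η' (b.1 + n1 + (m + 1), b.2 + y)) * Nm μ s ε x η' b n1 (m + 1) y := by
  unfold Nm
  rw [mul_sum]
  refine sum_congr rfl fun z _ => ?_
  have h1 : W μ s η b n1 z = W μ s η' b n1 z :=
    W_dep_rows (μ := μ) (s := s) b n1 z fun p hp => hh p ⟨hp.1, by have := hp.2; omega⟩
  have h2 := W_last (μ := μ) (s := s) (b.1 + n1, b.2 + z) m (y - z) (η := η) (η' := η')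
    (fun p hp => hh p ⟨by have := hp.1; simp only at this; omega, by have := hp.2; simp only at this; omega⟩)
  rw [h1, h2]
  have e1 : ((b.1 + (n1 : ℤ) + ((m : ℤ) + 1), b.2 + z + (y - z)) : Pt) = (b.1 + n1 + (m + 1), b.2 + y) := by
    ext
    · rfl
    · show b.2 + z + (y - z) = b.2 + y
      ring
  simp only [e1]
  ring

theorem NodI_strict (s c₀ δ₁ ε q : ℝ) (r : ℤ) (n1 n2 : ℕ) (hn2 : 1 ≤ n2) (X D : ℝ) {η η' : Env}
    (hh : ∀ p ∈ rows r (r + n1 + n2 - 1), η p = η' p) :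
    NodI μ s c₀ δ₁ ε q η r n1 n2 X D ↔ NodI μ s c₀ δ₁ ε q η' r n1 n2 X D := by
  obtain ⟨m, rfl⟩ : ∃ m, n2 = m + 1 := ⟨n2 - 1, by omega⟩
  have hh' : ∀ p ∈ rows r (r + n1 + m), η p = η' p := fun p hp => hh p ⟨hp.1, by have := hp.2; push_cast; omega⟩
  unfold NodI
  have h1 := Nm_last (μ := μ) (s := s) ε (δ₁ * (D / n1)) (r, na μ s ε n1 X D) n1 m
    (nb μ s ε (m + 1) q X D - na μ s ε n1 X D) (η := η) (η' := η') hh'
  have h2 := W_last (μ := μ) (s := s) (r, na μ s ε n1 X D) (n1 + m) (nb μ s ε (m + 1) q X D - na μ s ε n1 X D)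
    (η := η) (η' := η') fun p hp => hh' p ⟨hp.1, by
      have h3 : p.1 ≤ r + ((n1 + m : ℕ) : ℤ) := hp.2
      push_cast at h3
      omega⟩
  have e1 : (r + ((n1 + m : ℕ) : ℤ) + 1 : ℤ) = r + n1 + (m + 1) := by push_cast; ring
  have e2 : ((r : ℤ) + (((n1 + m : ℕ) : ℤ) + 1)) = r + n1 + (m + 1) := by push_cast; ring
  have e3 : n1 + m + 1 = n1 + (m + 1) := by ring
  simp only [e2, e3] at h2
  simp only at h1
  rw [h1, h2]
  obtain ⟨F, hF⟩ : ∃ F, F = Real.exp (η (r + n1 + (m + 1), na μ s ε n1 X D + (nb μ s ε (m + 1) q X D - na μ s ε n1 X D)) -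
      η' (r + n1 + (m + 1), na μ s ε n1 X D + (nb μ s ε (m + 1) q X D - na μ s ε n1 X D))) := ⟨_, rfl⟩
  have hF0 : 0 < F := by rw [hF]; exact Real.exp_pos _
  rw [← hF]
  rw [mul_left_comm]
  exact mul_le_mul_iff_right₀ hF0

/-- **The level of a node does not read the last row.** -/
theorem dep_nu_strict (s c₀ δ₁ Y w q : ℝ) (R : ℕ) (r : ℤ) (n1 n2 : ℕ) (hn2 : 1 ≤ n2) (x : ℤ) {η η' : Env}
    (hh : ∀ p ∈ rows r (r + n1 + n2 - 1), η p = η' p) :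
    nu μ s c₀ δ₁ Y w q R r n1 n2 x η = nu μ s c₀ δ₁ Y w q R r n1 n2 x η' := by
  unfold nu
  congr 1
  ext l
  simp only [Set.mem_ofPred_eq]
  have h1 : ∀ p, NodOK μ s c₀ δ₁ Y w q R η r n1 n2 x p ↔ NodOK μ s c₀ δ₁ Y w q R η' r n1 n2 x p := by
    intro p
    unfold NodOK
    refine forall_congr' fun i => forall_congr' fun _ => forall_congr' fun ε => forall_congr' fun _ => forall_congr' fun _ => ?_
    exact NodI_strict s c₀ δ₁ ε q r n1 n2 hn2 (x + i * w) (2 ^ p * Y * w) hh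
  exact forall_congr' fun p => forall_congr' fun _ => h1 p

/-! ### the node of the past -/

/-- **The level of a node of the past**: start row `e` (the latest), `n1` rows down to the middle, `n2` rows down to the
end, centre `x` in the middle row. -/
def nuP (μ : Measure ℝ) (s c₀ δ₁ Y w q : ℝ) (R : ℕ) (e : ℤ) (n1 n2 : ℕ) (x : ℤ) (η : Env) : ℕ :=
  nu μ s c₀ δ₁ Y w q R (-e) n1 n2 (-x) (rv 0 η)

theorem mp_rv0 [IsProbabilityMeasure μ] : MeasurePreserving (rv 0) (law μ) (law μ) := mp_neg (μ := μ) 0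

theorem measurable_rv0 : Measurable (rv 0 : Env → Env) := by
  unfold rv
  exact measurable_pi_lambda _ fun p => measurable_pi_apply _

theorem meas_nuP {Y w : ℝ} [IsProbabilityMeasure μ] (hY : 0 < Y) (hw : 0 < w) (s c₀ δ₁ q : ℝ) (R : ℕ) (e : ℤ) (n1 n2 : ℕ) (x : ℤ) :
    Measurable (nuP μ s c₀ δ₁ Y w q R e n1 n2 x) :=
  (meas_nu (μ := μ) hY hw s c₀ δ₁ q R (-e) n1 n2 (-x)).comp measurable_rv0

/-- **The rows**: strictly between the two ends. -/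
theorem nuP_rows (s c₀ δ₁ Y w q : ℝ) (R : ℕ) (e : ℤ) (n1 n2 : ℕ) (hn2 : 1 ≤ n2) (x : ℤ) {η η' : Env}
    (hh : ∀ p : Pt, e - n1 - n2 < p.1 → p.1 < e → η p = η' p) :
    nuP μ s c₀ δ₁ Y w q R e n1 n2 x η = nuP μ s c₀ δ₁ Y w q R e n1 n2 x η' := by
  unfold nuP
  refine dep_nu_strict s c₀ δ₁ Y w q R (-e) n1 n2 hn2 (-x) fun p hp => ?_
  unfold rv
  have h1 := hp.1
  have h2 := hp.2
  refine hh (0 - p) ?_ ?_
  · rw [Prod.fst_sub, Prod.fst_zero]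
    omega
  · rw [Prod.fst_sub, Prod.fst_zero]
    omega

/-- Integrals of functions of the level. -/
theorem nuP_lint [IsProbabilityMeasure μ] {Y w : ℝ} (hY : 0 < Y) (hw : 0 < w) (q : ℝ) (R : ℕ) (e : ℤ) (n1 n2 : ℕ) (x : ℤ)
    (f : ℕ → ℝ≥0∞) : ∫⁻ η, f (nuP μ s c₀ δ₁ Y w q R e n1 n2 x η) ∂(law μ) =
      ∫⁻ η, f (nu μ s c₀ δ₁ Y w q R (-e) n1 n2 (-x) η) ∂(law μ) :=
  (mp_rv0 (μ := μ)).lintegral_comp (f := fun η => f (nu μ s c₀ δ₁ Y w q R (-e) n1 n2 (-x) η))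
    ((measurable_from_nat (f := f)).comp (meas_nu (μ := μ) hY hw s c₀ δ₁ q R (-e) n1 n2 (-x)))

variable {Λ : Type*}

open Classical in
/-- **The level of the node of three cuts, past**: rows `a < b < e`, start at `e`. -/
def dpXP88 (μ : Measure ℝ) (s c₀ δ₁ θ Y : ℝ) (Kb n₃ R : ℕ) (w q : Cut Λ → Cut Λ → Cut Λ → ℝ) (col : Cut Λ → Cut Λ → Cut Λ → ℤ)
    (a b e : Cut Λ) (η : Env) : ℕ :=
  if NdOk μ s θ Kb n₃ (nR b e) (nR a b) (w a b e) (q a b e) then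
    nuP μ s c₀ δ₁ Y (w a b e) (q a b e) R e.row (nR b e) (nR a b) (col a b e) η
  else 0

theorem dpXP_eq {Y : ℝ} {R : ℕ} {w q : Cut Λ → Cut Λ → Cut Λ → ℝ} {col : Cut Λ → Cut Λ → Cut Λ → ℤ} {a b e : Cut Λ} (η : Env)
    (h : NdOk μ s θ Kb n₃ (nR b e) (nR a b) (w a b e) (q a b e)) : dpXP88 μ s c₀ δ₁ θ Y Kb n₃ R w q col a b e η =
      nuP μ s c₀ δ₁ Y (w a b e) (q a b e) R e.row (nR b e) (nR a b) (col a b e) η := if_pos h

/-- **THE LEVELS OF THE NODES OF THE PAST ARE DEPTHS**, for all triples of cuts. -/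
theorem dp3_p88 [IsProbabilityMeasure μ] (hC : Cs94 μ s c₀ δ₁ c₁ A a g θ Y₁ K0 Kb n₃) {R : ℕ} (hR : 1 ≤ R) {z d : ℝ} (hz : 1 ≤ z)
    (hd : 0 < d) : ∃ Y₂ : ℝ, 8 * Y₁ ≤ Y₂ ∧ 8 ≤ Y₂ ∧ ∀ Y : ℝ, Y₂ ≤ Y → ∀ {Λ : Type*} (w q : Cut Λ → Cut Λ → Cut Λ → ℝ)
      (col : Cut Λ → Cut Λ → Cut Λ → ℤ),
        Dp3 μ (ENNReal.ofReal z) (1 + ENNReal.ofReal d) (dpXP88 μ s c₀ δ₁ θ Y Kb n₃ R w q col) := by
  obtain ⟨Y₂, h1, h2, H⟩ := nu_mom_d hC hR hz hd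
  have hP : IsProbabilityMeasure (law μ) := by unfold law; infer_instance
  refine ⟨Y₂, h1, h2, fun Y hY Λ w q col => ⟨fun a b e => ?_, fun a b e η η' hh => ?_, fun a b e => ?_⟩⟩
  · by_cases h : NdOk μ s θ Kb n₃ (nR b e) (nR a b) (w a b e) (q a b e)
    · have e1 : dpXP88 μ s c₀ δ₁ θ Y Kb n₃ R w q col a b e =
          nuP μ s c₀ δ₁ Y (w a b e) (q a b e) R e.row (nR b e) (nR a b) (col a b e) := funext fun η => dpXP_eq η h
      rw [e1]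
      have hw := hC.wd2 _ h.hn1
      have hw' := h.hw
      exact meas_nuP (by linarith) (by linarith) _ _ _ _ _ _ _ _ _
    · have e1 : dpXP88 μ s c₀ δ₁ θ Y Kb n₃ R w q col a b e = fun _ => 0 := funext fun η => if_neg h
      rw [e1]
      exact measurable_const
  · by_cases h : NdOk μ s θ Kb n₃ (nR b e) (nR a b) (w a b e) (q a b e)
    · rw [dpXP_eq η h, dpXP_eq η' h]
      have hn := hC.n1
      have k1 := nR_row (a := b) (b := e) (hn.trans h.hn1)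
      have k2 := nR_row (a := a) (b := b) h.hn2
      refine nuP_rows s c₀ δ₁ Y _ _ R _ _ _ h.hn2 _ fun p hp1 hp2 => hh p ⟨?_, hp2.le⟩
      omega
    · unfold dpXP88
      rw [if_neg h, if_neg h]
  · by_cases h : NdOk μ s θ Kb n₃ (nR b e) (nR a b) (w a b e) (q a b e)
    · obtain ⟨i1, -, i3⟩ := H Y hY (nR b e) (nR a b) h.hn1 h.hn2 h.hnb (w a b e) (q a b e) h.hq h.hqn h.hw (-e.row) (-col a b e)
      have hz0 : 0 ≤ z := by linarith
      have hw := hC.wd2 _ h.hn1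
      have hw' := h.hw
      calc ∫⁻ η, ENNReal.ofReal z ^ dpXP88 μ s c₀ δ₁ θ Y Kb n₃ R w q col a b e η ∂(law μ)
          = ∫⁻ η, ENNReal.ofReal z ^ nuP μ s c₀ δ₁ Y (w a b e) (q a b e) R e.row (nR b e) (nR a b) (col a b e) η ∂(law μ) :=
            lintegral_congr fun η => by rw [dpXP_eq η h]
        _ = ∫⁻ η, ENNReal.ofReal z ^ nu μ s c₀ δ₁ Y (w a b e) (q a b e) R (-e.row) (nR b e) (nR a b) (-col a b e) η ∂(law μ) :=
            nuP_lint (μ := μ) (s := s) (by linarith) (by linarith) _ _ _ _ _ _ fun n => ENNReal.ofReal z ^ n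
        _ = ∫⁻ η, ENNReal.ofReal (z ^ nu μ s c₀ δ₁ Y (w a b e) (q a b e) R (-e.row) (nR b e) (nR a b) (-col a b e) η) ∂(law μ) := by
            refine lintegral_congr fun η => ?_
            rw [ENNReal.ofReal_pow hz0]
        _ = ENNReal.ofReal (∫ η, z ^ nu μ s c₀ δ₁ Y (w a b e) (q a b e) R (-e.row) (nR b e) (nR a b) (-col a b e) η ∂(law μ)) :=
            (ofReal_integral_eq_lintegral_ofReal i1 (Filter.Eventually.of_forall fun η => by positivity)).symm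
        _ ≤ ENNReal.ofReal (1 + d) := ENNReal.ofReal_le_ofReal i3
        _ = 1 + ENNReal.ofReal d := by rw [ENNReal.ofReal_add zero_le_one hd.le, ENNReal.ofReal_one]
    · have e1 : ∀ η, dpXP88 μ s c₀ δ₁ θ Y Kb n₃ R w q col a b e η = 0 := fun η => if_neg h
      simp only [e1, pow_zero, lintegral_const, measure_univ, mul_one]
      exact le_self_add

/-- The depth of a node of the past: its fat level and the levels of its rows. -/
def dpNP88 (μ : Measure ℝ) (s c₀ δ₁ θ Y : ℝ) (Kb n₃ R : ℕ) (w q : Cut Λ → Cut Λ → Cut Λ → ℝ) (col : Cut Λ → Cut Λ → Cut Λ → ℤ)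
    (c θ' K : ℝ) (P : ℕ) (q₀ th : ℝ) (D : ℕ) (H : ℕ → ℕ) (col' : Cut Λ → ℤ) (a b e : Cut Λ) (η : Env) : ℕ :=
  max (dpXP88 μ s c₀ δ₁ θ Y Kb n₃ R w q col a b e η) (dpL6 μ s c θ' K P q₀ th D H col' a e η)

/-- **ALL THE DEPTHS OF THE PAST.** -/
theorem depthsP88 [IsProbabilityMeasure μ] (hC : Cs94 μ s c₀ δ₁ c₁ A a g θ Y₁ K0 Kb n₃) (h : In μ s c C n₀) {R : ℕ} (hR : 1 ≤ R)
    {K θ' : ℝ} (hK : 0 < K) (hθ : 0 < θ') (hθ1 : θ' ≤ 1) : ∃ P n₁ : ℕ, 1 ≤ n₁ ∧ ∀ th z ε : ℝ, 1 < th → 1 ≤ z → 0 < ε →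
      ∃ Y₂ Y₀ : ℝ, 8 * Y₁ ≤ Y₂ ∧ 8 ≤ Y₂ ∧ 1 ≤ Y₀ ∧ ∀ Y : ℝ, Y₂ ≤ Y → ∀ q₀ : ℝ, Y₀ ≤ q₀ → ∀ (D : ℕ) (H : ℕ → ℕ), (∀ v, n₁ ≤ H v) →
        ∀ {Λ : Type*} (w q : Cut Λ → Cut Λ → Cut Λ → ℝ) (col : Cut Λ → Cut Λ → Cut Λ → ℤ) (col' : Cut Λ → ℤ),
          Dp2 μ (ENNReal.ofReal z) (1 + ENNReal.ofReal ε) (dpL6 μ s c θ' K P q₀ th D H col') ∧
            Dp3 μ (ENNReal.ofReal z) (1 + ENNReal.ofReal ε)
              (dpNP88 μ s c₀ δ₁ θ Y Kb n₃ R w q col c θ' K P q₀ th D H col') := by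
  obtain ⟨P, n₁, hn1, X⟩ := dp2_6 h hK hθ hθ1
  refine ⟨P, n₁, hn1, fun th z ε hth hz hε => ?_⟩
  obtain ⟨Y₂, h1, h2, X3⟩ := dp3_p88 hC hR hz (half_pos hε)
  obtain ⟨Y₀, h3, X⟩ := X th z (ε / 2) hth hz (half_pos hε)
  refine ⟨Y₂, Y₀, h1, h2, h3, fun Y hY q₀ hq D H hH Λ w q col col' => ?_⟩
  have hz' : (1 : ℝ≥0∞) ≤ ENNReal.ofReal z := by
    rw [← ENNReal.ofReal_one]
    exact ENNReal.ofReal_le_ofReal hz
  have e : ENNReal.ofReal (ε / 2) + ENNReal.ofReal (ε / 2) = ENNReal.ofReal ε := by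
    rw [← ENNReal.ofReal_add (by positivity) (by positivity), add_halves]
  have hL := X q₀ hq D H hH col'
  refine ⟨hL.mono (add_le_add le_rfl (ENNReal.ofReal_le_ofReal (by linarith))), ?_⟩
  have h5 := (X3 Y hY w q col).max hz' hL.dp3
  rw [e] at h5
  exact h5

end

end Pool.Agent.W_7d29a1_C1.ArmPn88
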