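import Pool.Agent.W_7d29a1_C1.DepN6

/-!
MP_7d29a1_pr, C1, ARMS: helper94's `norm94` / helper89's `norm94L` IN LABEL UNITS: the units `w i` of the nodes are any numbers with
`wd (T i) ≤ lam w i`, `16 w i ≤ w (i + 1)`; nothing else changes. For node variables which are functions of three cuts (`DepN6`). (helper6)
-/

set_option autoImplicit false

namespace Pool.Agent.W_7d29a1_C1.ArmW6

open MeasureTheory ProbabilityTheory Filter Topology
open Pool.Agent.W_7d29a1_F Pool.Agent.W_7d29a1_h4g Pool.Agent.W_7d29a1_H Pool.Agent.W_7d29a1_HS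
open Pool.Agent.W_7d29a1_h47 (EM Nondeg)
open Pool.Agent.W_7d29a1_C1.H94

noncomputable section

variable {μ : Measure ℝ} [IsProbabilityMeasure μ] {s c₀ δ₁ c₁ A a g θ Y₁ : ℝ} {K0 Kb n₃ : ℕ}

/-- The units of the chain. -/
def wU (w : ℕ → ℝ) (i : ℕ) : ℝ := if i = 0 then w 1 / 16 else w i

/-- **The normal scales in label units** (`w i = wd μ s (T i)`, `lam = 1` = `norm94L`). -/
theorem norm94W (hC : Cs94 μ s c₀ δ₁ c₁ A a g θ Y₁ K0 Kb n₃) {T : ℕ → ℕ} {m j : ℕ} (hT0 : T 0 = 0) (hT1 : n₃ ≤ T 1)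
    (hTK : ∀ i, 1 ≤ i → i < m → K0 * T i ≤ T (i + 1)) (hj1 : 1 ≤ j) (hjm : j < m) {w : ℕ → ℝ} {lam : ℝ} (hlam : 1 ≤ lam)
    (hw1 : ∀ i, 1 ≤ i → i ≤ m → 1 ≤ w i) (hwT : ∀ i, 1 ≤ i → i < m → wd μ s (T i) ≤ lam * w i)
    (hw16 : ∀ i, 1 ≤ i → i < m → 16 * w i ≤ w (i + 1))
    (hqn : ∀ i, 1 ≤ i → i < m → w (i + 1) / w i * (T i - T (i - 1) : ℕ) ≤ θ * (T (i + 1) - T i : ℕ))
    {η : Env} {r0 : ℤ} {x0 : ℝ} {xc : ℕ → ℤ} {R : ℕ}
    (hR : 1 ≤ R) {Y : ℝ} (hY : 8 ≤ Y) (hY1 : lam * Y₁ ≤ Y) {l0 : ℕ}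
    (hnu : ∀ i, 1 ≤ i → i < m → nu μ s c₀ δ₁ Y (w i) (w (i + 1) / w i) R (r0 + T (i - 1)) (T i - T (i - 1))
      (T (i + 1) - T i) (xc i) η ≤ ((i : ℤ) - j).natAbs + l0)
    (hX : ∀ i, 1 ≤ i → i < m → |x0 + sl μ s * T i - xc i| ≤ (R : ℝ) ^ (((i : ℤ) - j).natAbs + l0) * w i)
    {ε : ℝ} (hε : ε = 1 ∨ ε = -1) {M : ℕ → ℝ → ℝ} {Tot : ℝ} (hTot : 0 ≤ Tot) (h0 : ∀ i D, 0 ≤ M i D) (hanti : ∀ i, Antitone (M i))
    (hz : ∀ i, i ≤ m → ∀ D, (T i : ℝ) < D → M i D = 0)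
    (hM : ∀ i, 1 ≤ i → i < m → ∀ X' D' D p : ℝ, D' + |X' - (x0 + sl μ s * T i)| ≤ D → D / 4 + |X' - (x0 + sl μ s * T i)| ≤ 7 / 8 * D' →
      4 * (w (i + 1) / w i) * D + |X' - (x0 + sl μ s * T i)| ≤ 16 * (w (i + 1) / w i) * D' →
      0 ≤ nb μ s ε (T (i + 1) - T i) (w (i + 1) / w i) X' D' - na μ s ε (T i - T (i - 1)) X' D' →
      nb μ s ε (T (i + 1) - T i) (w (i + 1) / w i) X' D' - na μ s ε (T i - T (i - 1)) X' D' ≤
        ((T i - T (i - 1)) + (T (i + 1) - T i) : ℕ) →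
      δ₁ * (D' / (T i - T (i - 1) : ℕ)) * (T i - T (i - 1) : ℕ) ≤ D' / 8 →
      Nm μ s ε (δ₁ * (D' / (T i - T (i - 1) : ℕ))) η (r0 + T (i - 1), na μ s ε (T i - T (i - 1)) X' D') (T i - T (i - 1))
          (T (i + 1) - T i) (nb μ s ε (T (i + 1) - T i) (w (i + 1) / w i) X' D' - na μ s ε (T i - T (i - 1)) X' D') ≤
        p * W μ s η (r0 + T (i - 1), na μ s ε (T i - T (i - 1)) X' D') ((T i - T (i - 1)) + (T (i + 1) - T i))
          (nb μ s ε (T (i + 1) - T i) (w (i + 1) / w i) X' D' - na μ s ε (T i - T (i - 1)) X' D') →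
      M i D ≤ M (i - 1) (D / 4) + M (i + 1) (4 * (w (i + 1) / w i) * D) + p * Tot)
    {Z : ℝ} (hZL : 2 ^ (l0 + 1) * Y ≤ Z) :
    M j (Z * w j) ≤ 2 * T m * (Real.exp (-(c₁ * (Z / lam * EE μ s (T j)))) * Tot + M m (4 ^ (m - j) * (Z * w m))) := by
  obtain ⟨f1, f2, f3⟩ := T_facts hC hT0 hT1 hTK
  have hn := hC.n1
  have hδ := hC.δ0
  have hδ1 := hC.δ1
  have hY0 : 0 < Y := by linarith
  have h2l : (1 : ℝ) ≤ 2 ^ l0 := one_le_pow₀ one_le_two
  have hZ' : 2 ^ l0 * (2 * Y) ≤ Z := by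
    rw [pow_succ] at hZL
    linarith
  have hZ : 2 * Y ≤ Z := by
    have h := mul_le_mul_of_nonneg_right h2l (show 0 ≤ 2 * Y by linarith)
    linarith
  have hZ0 : 0 < Z := by linarith
  have hTm : 1 ≤ T m := hn.trans (f1 m (by omega) le_rfl)
  obtain ⟨Dep, hD1, hD2⟩ := dep94 hTm
  have hwj := hwT j hj1 hjm
  have hlam0 : 0 < lam := by linarith
  have hw11 := hw1 1 le_rfl (by omega)
  have ew : ∀ i, 1 ≤ i → wU w i = w i := fun i hi => by
    unfold wU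
    rw [if_neg (by omega)]
  have ew0 : wU w 0 = w 1 / 16 := by
    unfold wU
    rw [if_pos rfl]
  obtain ⟨P, hP⟩ : ∃ P, P = Real.exp (-(c₁ * (Z / lam * EE μ s (T j)))) * Tot := ⟨_, rfl⟩
  have hP0 : 0 ≤ P := by rw [hP]; positivity
  have main := ArmC89.norm89 (M := M) (w := wU w) (T := fun i => (T i : ℝ)) (m := m) (j := j) (Dep := Dep)
    (xi := fun i => ((i : ℤ) - j).natAbs) (Y := Z) (P := P) (Q := M m (4 ^ (m - j) * (Z * w m))) hP0 h0 hanti hz
    (by rw [ew0]; linarith)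
    (by
      intro i hi
      rcases Nat.eq_zero_or_pos i with h | h
      · subst h
        rw [ew0, ew 1 le_rfl]
        linarith
      · rw [ew i h, ew (i + 1) (by omega)]
        exact hw16 i h hi)
    hZ0
    (by
      show ((T 0 : ℕ) : ℝ) < Z * wU w 0
      rw [hT0, ew0]
      have : 0 < Z * (w 1 / 16) := mul_pos hZ0 (by linarith)
      simpa using this)
    hjm
    (by
      intro i _ _
      exact le_of_eq (Int.natCast_natAbs _))
    (by
      intro i hi1 him D hDa hDb hDc hDT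
      rw [ew i hi1] at hDa hDb ⊢
      rw [ew j hj1] at hDc
      rw [ew (i + 1) (by omega)]
      obtain ⟨t0, ht0⟩ : ∃ t0, t0 = T (i - 1) := ⟨_, rfl⟩
      have h01 : 4 * t0 ≤ T i := by
        have := f2 (i - 1) (by omega)
        rwa [show i - 1 + 1 = i by omega, ← ht0] at this
      obtain ⟨m1, m2, m3, -, -⟩ := node_num hC h01 (f1 i hi1 him.le) (hTK i hi1 him)
      have m5 := hqn i hi1 him
      have hwi1 := hw1 i hi1 him.le
      have m4 : 1 ≤ w (i + 1) / w i := by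
        rw [one_le_div (by linarith)]
        have := hw16 i hi1 him
        linarith
      rw [← ht0] at m5
      have hwTi := hwT i hi1 him
      have hnu' := hnu i hi1 him
      have hX' := hX i hi1 him
      have hMi := hM i hi1 him
      rw [← ht0] at hnu' hMi
      obtain ⟨n1, hn1⟩ : ∃ n1, n1 = T i - t0 := ⟨_, rfl⟩
      rw [← hn1] at m1 m3 m5 hnu' hMi
      obtain ⟨q, hq⟩ : ∃ q, q = w (i + 1) / w i := ⟨_, rfl⟩
      rw [← hq] at m4 m5 hnu' hMi ⊢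
      obtain ⟨u, hu⟩ : ∃ u, u = w i := ⟨_, rfl⟩
      rw [← hu] at hnu' hX' hDa hDb hwTi hwi1
      have hTi2 : (T i : ℝ) ≤ 2 * n1 := by exact_mod_cast m3
      have hDl : 2 ^ (((i : ℤ) - j).natAbs + l0) * (2 * Y * u) ≤ D := by
        have e : (2 : ℝ) ^ (((i : ℤ) - j).natAbs + l0) * (2 * Y * u) = 2 ^ ((i : ℤ) - j).natAbs * (2 ^ l0 * (2 * Y) * u) := by
          rw [pow_add]
          ring
        rw [e]
        refine le_trans (mul_le_mul_of_nonneg_left ?_ (by positivity)) hDa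
        exact mul_le_mul_of_nonneg_right hZ' (by linarith)
      obtain ⟨X', D', g1, g2, g3, g4, g5, g6⟩ := nu_all hY (show 0 < u by linarith) m4 hR _ _ _ _ _ hnu' hX' hDl
        (hDT.trans hTi2) hε
      have hD'0 : 2 ≤ D' := by
        rw [le_div_iff₀ (by linarith)] at g5
        linarith
      have hZl : Z / lam * lam = Z := div_mul_cancel₀ _ hlam0.ne'
      have hZl0 : 0 < Z / lam := by positivity
      have hD'D : D' ≤ D := by linarith [abs_nonneg (X' - (x0 + sl μ s * T i))]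
      have hn1r : (0 : ℝ) < n1 := by exact_mod_cast (by omega : 0 < n1)
      obtain ⟨k1, k2⟩ := hC.geo n1 (T (i + 1) - T i) m1 m2 q X' D' m4 m5 hD'0 (by linarith) ε hε
      unfold NodI at g6
      have hfin := hMi X' D' D _ g1 g2 g3 k1 k2 (by
        have e : δ₁ * (D' / n1) * n1 = δ₁ * D' := by field_simp
        rw [e]
        have := mul_le_mul_of_nonneg_right hδ1 (show 0 ≤ D' by linarith)
        linarith) g6
      have hrate := hC.rate T m hT1 hTK i j hi1 hj1 him hjm (Z / lam) D D' (by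
          rw [le_div_iff₀ hlam0]
          linarith) hDT (by
          have h7 := mul_le_mul_of_nonneg_left hwTi hZl0.le
          have h8 : Z / lam * (lam * u) = Z * u := by rw [← mul_assoc, hZl]
          linarith) (by
          have e : (|(i : ℤ) - j|).toNat = ((i : ℤ) - j).natAbs := by rw [Int.abs_eq_natAbs, Int.toNat_natCast]
          rw [e] at hDc
          have h7 := mul_le_mul_of_nonneg_left hwj hZl0.le
          have h8 : Z / lam * (lam * w j) = Z * w j := by rw [← mul_assoc, hZl]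
          linarith) (by linarith) (by linarith) hD'D ε hε n1 m3 (by rw [hn1]; exact Nat.sub_le _ _)
      have hpP : Real.exp (-(c₀ * ((n1 : ℝ) * J μ s (ε * (δ₁ * (D' / n1)))))) * Tot ≤ P := by
        rw [hP]
        exact mul_le_mul_of_nonneg_right (Real.exp_le_exp.2 (neg_le_neg hrate)) hTot
      linarith)
    (by
      intro i hi
      rcases Nat.eq_zero_or_pos i with h | h
      · subst h
        show ((T 0 : ℕ) : ℝ) < _
        rw [hT0, ew0]
        have : 0 < 4 ^ Dep * (Z * (w 1 / 16)) := mul_pos (by positivity) (mul_pos hZ0 (by linarith))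
        simpa using this
      · show ((T i : ℕ) : ℝ) < _
        rw [ew i h]
        have h1 : (T i : ℝ) ≤ T m := by exact_mod_cast f3 i hi.le
        have h2 : 1 ≤ Z * w i := by
          have h3 := hw1 i h hi.le
          have h4 : 1 * 1 ≤ Z * w i := mul_le_mul (by linarith) (by linarith) zero_le_one hZ0.le
          linarith
        have h5 : (4 : ℝ) ^ Dep * 1 ≤ 4 ^ Dep * (Z * w i) := mul_le_mul_of_nonneg_left h2 (by positivity)
        linarith)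
    (by rw [ew m (by omega)])
  rw [ew j hj1] at main
  refine main.trans ?_
  rw [← hP]
  exact mul_le_mul_of_nonneg_right hD2 (add_nonneg hP0 (h0 _ _))

open Pool.Agent.W_7d29a1_C1.Dep6 (NdOk)

/-- **THE NUMBERS OF A TOWER IN LABEL UNITS.** `H i` = the height of the label of the cut number `i`, `T i` = its true height above the
start. `K1` depends on `In`, `θ`, `K0`, `B` only. -/
theorem lab6 {s c C : ℝ} {n₀ : ℕ} (h : In μ s c C n₀) {θ : ℝ} (hθ : 0 < θ) (K0 : ℕ) {B : ℕ} (hB : 1 ≤ B) :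
    ∃ K1 n₄ : ℕ, 4 ≤ K1 ∧ ∀ {c₀ δ₁ c₁ A a g Y₁ : ℝ} {Kb n₃ : ℕ}, Cs94 μ s c₀ δ₁ c₁ A a g θ Y₁ K0 Kb n₃ → ∀ Kr : ℕ, 4 * Kr * B ≤ Kb →
      ∀ (H T : ℕ → ℕ) (m : ℕ), T 0 = 0 → 1 ≤ m → (∀ i, 1 ≤ i → i ≤ m → n₄ ≤ H i ∧ B * n₃ ≤ H i) →
        (∀ i, 1 ≤ i → i < m → K1 * H i ≤ H (i + 1)) → (∀ i, 1 ≤ i → i < m → H (i + 1) ≤ Kr * H i) →
        (∀ i, 1 ≤ i → i ≤ m → T i ≤ 2 * H i) → (∀ i, 1 ≤ i → i ≤ m → H i ≤ B * T i) →
          n₃ ≤ T 1 ∧ (∀ i, 1 ≤ i → i < m → K0 * T i ≤ T (i + 1)) ∧ (∀ i, 1 ≤ i → i < m → T (i + 1) ≤ 2 * Kr * B * T i) ∧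
            (∀ i, 1 ≤ i → i < m → NdOk μ s θ Kb n₃ (T i - T (i - 1)) (T (i + 1) - T i) (wd μ s (H i))
              (wd μ s (H (i + 1)) / wd μ s (H i))) ∧
            (∀ i, 1 ≤ i → i ≤ m → 1 ≤ wd μ s (H i)) ∧ (∀ i, 1 ≤ i → i ≤ m → wd μ s (T i) ≤ 8 * wd μ s (H i)) ∧
            ∀ i, 1 ≤ i → i < m → 16 * wd μ s (H i) ≤ wd μ s (H (i + 1)) := by
  have hBr : (1 : ℝ) ≤ B := by exact_mod_cast hB
  obtain ⟨K', n', hK', hn', hfar⟩ := far94 h (θ := θ / (4 * B)) (by positivity)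
  refine ⟨max K' (2 * K0 * B + 8 * B), max n' 1, le_trans hK' (le_max_left _ _), ?_⟩
  intro c₀ δ₁ c₁ A a g Y₁ Kb n₃ hC Kr hKr H T m hT0 hm hH hHK hHr hTH hHT
  have hn := hC.n1
  have hK4 := hC.K4
  have hTn : ∀ i, 1 ≤ i → i ≤ m → n₃ ≤ T i := fun i h1 h2 =>
    Nat.le_of_mul_le_mul_left ((hH i h1 h2).2.trans (hHT i h1 h2)) (by omega)
  have hHn : ∀ i, 1 ≤ i → i ≤ m → n' ≤ H i := fun i h1 h2 => (le_max_left _ _).trans (hH i h1 h2).1
  have hH1 : ∀ i, 1 ≤ i → i ≤ m → 1 ≤ H i := fun i h1 h2 => hn'.trans (hHn i h1 h2)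
  have hK1 : ∀ i, 1 ≤ i → i < m → K' * H i ≤ H (i + 1) := fun i h1 h2 =>
    (Nat.mul_le_mul_right _ (le_max_left _ _)).trans (hHK i h1 h2)
  have hK2 : ∀ i, 1 ≤ i → i < m → (2 * K0 * B + 8 * B) * H i ≤ H (i + 1) := fun i h1 h2 =>
    (Nat.mul_le_mul_right _ (le_max_right _ _)).trans (hHK i h1 h2)
  have hTK : ∀ i, 1 ≤ i → i < m → K0 * T i ≤ T (i + 1) := by
    intro i h1 h2
    have e1 := hTH i h1 h2.le
    have e2 := hHT (i + 1) (by omega) h2
    have e3 := hK2 i h1 h2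
    have e4 : B * (K0 * T i) ≤ B * T (i + 1) := by
      calc B * (K0 * T i) ≤ B * (K0 * (2 * H i)) := Nat.mul_le_mul_left _ (Nat.mul_le_mul_left _ e1)
        _ = 2 * K0 * B * H i := by ring
        _ ≤ (2 * K0 * B + 8 * B) * H i := Nat.mul_le_mul_right _ (Nat.le_add_right _ _)
        _ ≤ H (i + 1) := e3
        _ ≤ B * T (i + 1) := e2
    exact Nat.le_of_mul_le_mul_left e4 (by omega)
  have hT4 : ∀ i, i < m → 4 * T i ≤ T (i + 1) := by
    intro i h2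
    rcases Nat.eq_zero_or_pos i with h0 | h0
    · subst h0
      rw [hT0]
      exact Nat.zero_le _
    · exact (Nat.mul_le_mul_right _ hK4).trans (hTK i h0 h2)
  have hTr : ∀ i, 1 ≤ i → i < m → T (i + 1) ≤ 2 * Kr * B * T i := by
    intro i h1 h2
    calc T (i + 1) ≤ 2 * H (i + 1) := hTH (i + 1) (by omega) h2
      _ ≤ 2 * (Kr * H i) := Nat.mul_le_mul_left _ (hHr i h1 h2)
      _ ≤ 2 * (Kr * (B * T i)) := Nat.mul_le_mul_left _ (Nat.mul_le_mul_left _ (hHT i h1 h2.le))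
      _ = 2 * Kr * B * T i := by ring
  have hwd : ∀ i, 1 ≤ i → i ≤ m → 0 < wd μ s (H i) := fun i h1 h2 => h.wd_pos (hH1 i h1 h2)
  have hw8 : ∀ i, 1 ≤ i → i ≤ m → ∀ n, 1 ≤ n → n ≤ 2 * H i → wd μ s n ≤ 8 * wd μ s (H i) := by
    intro i h1 h2 n hn1 hn2
    have e0 := hH1 i h1 h2
    have e1 := wd_le_two h hn1 hn2
    have e2 := vA_le_two h e0 (show H i ≤ 2 * H i by omega)
    have e3 : wd μ s (2 * H i) ≤ 4 * wd μ s (H i) := by
      unfold wd
      have e4 := mul_le_mul_of_nonneg_left e2 (show (0 : ℝ) ≤ ((2 * H i : ℕ) : ℝ) by positivity)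
      push_cast at e4 ⊢
      linarith
    linarith
  refine ⟨hTn 1 le_rfl hm, hTK, hTr, fun i h1 h2 => ?_, fun i h1 h2 => ?_, fun i h1 h2 => ?_, fun i h1 h2 => ?_⟩
  · have h2' := h2.le
    have a1 := hTn i h1 h2'
    have a2 := hT4 (i - 1) (by omega)
    rw [show i - 1 + 1 = i by omega] at a2
    have a3 := hT4 i h2
    have a4 := hTH i h1 h2'
    have hn1 : n₃ ≤ T i - T (i - 1) := by
      rcases Nat.eq_zero_or_pos (i - 1) with h3 | h3
      · rw [h3, hT0]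
        exact a1
      · have := hTn (i - 1) h3 (by omega)
        omega
    obtain ⟨f1, f2⟩ := hfar (H i) (H (i + 1)) (hHn i h1 h2') (hK1 i h1 h2)
    have g1 := hwd i h1 h2'
    have g2 := hwd (i + 1) (by omega) h2
    refine ⟨hn1, by omega, ?_, ?_, ?_, hw8 i h1 h2' _ (by omega) (by omega)⟩
    · have b1 := hTr i h1 h2
      calc T (i + 1) - T i ≤ T (i + 1) := Nat.sub_le _ _
        _ ≤ 2 * Kr * B * T i := b1
        _ ≤ 2 * Kr * B * (2 * (T i - T (i - 1))) := Nat.mul_le_mul_left _ (by omega)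
        _ = 4 * Kr * B * (T i - T (i - 1)) := by ring
        _ ≤ Kb * (T i - T (i - 1)) := Nat.mul_le_mul_right _ hKr
    · rw [one_le_div g1]
      linarith
    · have hHr0 : (0 : ℝ) < H i := by exact_mod_cast hH1 i h1 h2'
      have hH'0 : (0 : ℝ) < H (i + 1) := by exact_mod_cast hH1 (i + 1) (by omega) h2
      have hv0 := h.vA_pos (hH1 i h1 h2')
      have b1 : ((T i - T (i - 1) : ℕ) : ℝ) ≤ 2 * H i := by
        exact_mod_cast (Nat.sub_le _ _).trans a4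
      have b2 : (H (i + 1) : ℝ) ≤ 2 * B * ((T (i + 1) - T i : ℕ) : ℝ) := by
        have b3 := hHT (i + 1) (by omega) h2
        have b4 : T (i + 1) ≤ 2 * (T (i + 1) - T i) := by omega
        have b5 : H (i + 1) ≤ 2 * B * (T (i + 1) - T i) :=
          b3.trans ((Nat.mul_le_mul_left _ b4).trans (le_of_eq (by ring)))
        exact_mod_cast b5
      have b3 : wd μ s (H (i + 1)) / wd μ s (H i) ≤ H (i + 1) / H i * (θ / (4 * B)) := by
        rw [div_le_iff₀ g1]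
        unfold wd
        have b4 := mul_le_mul_of_nonneg_left f1 hH'0.le
        calc (H (i + 1) : ℝ) * vA 1 μ s (H (i + 1)) ≤ H (i + 1) * (θ / (4 * B) * vA 1 μ s (H i)) := b4
          _ = H (i + 1) / H i * (θ / (4 * B)) * (H i * vA 1 μ s (H i)) := by field_simp
      have b0 : 0 ≤ H (i + 1) / H i * (θ / (4 * B)) := by positivity
      calc wd μ s (H (i + 1)) / wd μ s (H i) * (T i - T (i - 1) : ℕ)
          ≤ H (i + 1) / H i * (θ / (4 * B)) * (2 * H i) := mul_le_mul b3 b1 (by positivity) b0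
        _ = θ / (2 * B) * H (i + 1) := by field_simp; ring
        _ ≤ θ / (2 * B) * (2 * B * ((T (i + 1) - T i : ℕ) : ℝ)) := mul_le_mul_of_nonneg_left b2 (by positivity)
        _ = θ * (T (i + 1) - T i : ℕ) := by field_simp
  · have h3 : n₃ ≤ H i := (Nat.le_mul_of_pos_left _ (by omega)).trans (hH i h1 h2).2
    have h4 := hC.wd2 (H i) h3
    linarith
  · exact hw8 i h1 h2 (T i) (hn.trans (hTn i h1 h2)) (hTH i h1 h2)
  · exact (hfar (H i) (H (i + 1)) (hHn i h1 h2.le) (hK1 i h1 h2)).2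

end

end Pool.Agent.W_7d29a1_C1.ArmW6
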