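import Pool.Agent.W_7d29a1_C1.TamP16
import Pool.Agent.W_7d29a1_C1.ArmQ88
import Pool.Agent.W_7d29a1_C1.ArmW6

/-!
MP_7d29a1_pr, attractor route [C1], ARMS, GENERAL KERNELS (board 83918 (2)), for the future and for the past. (helper88)

* `SysR88 K B N` : `Sys16` (`TamP16`) with `B ≥ 0` (zeros allowed) and all rules only for rows `≤ N`;
* `Cj88 .. K η' ρ φ e0 e2` : on the rows `[e0, e2]` the kernels are `φ i x / φ j z · exp (g (z - x - sl (j - i))) · W` of the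
  environment `η'` at the rows `i + ρ`;
* `nodeR88`, `annR88` : the three row inequality and the annulus for `PM16`;
* **`normR88`** : `norm94W` (`ArmW6`: label units `w i`) for `PM16`, start `(a, x)`, any base level `l0`; **`armR88`** : the
  arms of a place, two sided, numbers and top boundary as hypotheses.
-/

set_option autoImplicit false

namespace Pool.Agent.W_7d29a1_C1.ArmR88

open Finset Pool.Agent.W_7d29a1_F MeasureTheory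
open Pool.Agent.W_7d29a1_H (sl EE sl_mem)
open Pool.Agent.W_7d29a1_HS (wd)
open Pool.Agent.W_7d29a1_C1.U16 (PM16)
open Pool.Agent.W_7d29a1_C1.H94 (Nm off na nb nu Cs94 T_facts)
open Pool.Agent.W_7d29a1_C1.ArmP88 (TN TN_W prof88 prof88')
open Pool.Agent.W_7d29a1_C1.ArmQ88 (Nm_up Nm_dn)

noncomputable section

/-- Kernels and backward masses, rows `≤ N`. -/
structure SysR88 (K : ℕ → ℕ → ℤ → ℤ → ℝ) (B : ℕ → ℤ → ℝ) (N : ℕ) : Prop where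
  k0 : ∀ a b x z, a ≤ b → b ≤ N → 0 ≤ K a b x z
  b0 : ∀ a x, a ≤ N → 0 ≤ B a x
  out : ∀ a b x z, a ≤ b → b ≤ N → ¬ (x ≤ z ∧ z ≤ x + ((b - a : ℕ) : ℤ)) → K a b x z = 0
  step : ∀ a b x, a ≤ b → b ≤ N → B a x = ∑ z ∈ Icc x (x + ((b - a : ℕ) : ℤ)), K a b x z * B b z
  comp : ∀ a b c x z, a ≤ b → b ≤ c → c ≤ N → K a c x z = ∑ y ∈ Icc x (x + ((b - a : ℕ) : ℤ)), K a b x y * K b c y z

section sys

variable {K : ℕ → ℕ → ℤ → ℤ → ℝ} {B : ℕ → ℤ → ℝ} {N : ℕ}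

theorem PM_nonneg (S : SysR88 K B N) {a e : ℕ} (ha : a ≤ e) (he : e ≤ N) (x : ℤ) (Q : ℤ → Prop) [DecidablePred Q] :
    0 ≤ PM16 K B a e x Q :=
  sum_nonneg fun z _ => mul_nonneg (S.k0 _ _ _ _ ha he) (S.b0 _ _ he)

theorem PM_mono (S : SysR88 K B N) {a e : ℕ} (ha : a ≤ e) (he : e ≤ N) (x : ℤ) {Q Q' : ℤ → Prop} [DecidablePred Q]
    [DecidablePred Q'] (h : ∀ z : ℤ, x ≤ z → z ≤ x + ((e - a : ℕ) : ℤ) → Q z → Q' z) :
    PM16 K B a e x Q ≤ PM16 K B a e x Q' := by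
  refine sum_le_sum_of_subset_of_nonneg (fun z hz => ?_) fun z _ _ => mul_nonneg (S.k0 _ _ _ _ ha he) (S.b0 _ _ he)
  obtain ⟨h1, h2⟩ := mem_filter.1 hz
  exact mem_filter.2 ⟨h1, h z (mem_Icc.1 h1).1 (mem_Icc.1 h1).2 h2⟩

theorem PM_split (S : SysR88 K B N) {a e : ℕ} (ha : a ≤ e) (he : e ≤ N) (x : ℤ) (Q : ℤ → Prop) [DecidablePred Q] :
    PM16 K B a e x Q + PM16 K B a e x (fun z => ¬ Q z) = B a x := by
  unfold PM16
  rw [S.step a e x ha he]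
  exact sum_filter_add_sum_filter_not _ _ _

theorem step_X (S : SysR88 K B N) {a b : ℕ} {x : ℤ} {X : Finset ℤ} (hab : a ≤ b) (hb : b ≤ N)
    (hX : Icc x (x + ((b - a : ℕ) : ℤ)) ⊆ X) : ∑ z ∈ X, K a b x z * B b z = B a x := by
  rw [S.step a b x hab hb]
  symm
  refine sum_subset hX fun z _ hz => ?_
  rw [S.out a b x z hab hb (fun h => hz (mem_Icc.2 h)), zero_mul]

theorem comp_X (S : SysR88 K B N) {a b c : ℕ} {x : ℤ} {X : Finset ℤ} (hab : a ≤ b) (hbc : b ≤ c) (hc : c ≤ N)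
    (hX : Icc x (x + ((b - a : ℕ) : ℤ)) ⊆ X) (z : ℤ) : ∑ y ∈ X, K a b x y * K b c y z = K a c x z := by
  rw [S.comp a b c x z hab hbc hc]
  symm
  refine sum_subset hX fun y _ hy => ?_
  rw [S.out a b x y hab (hbc.trans hc) (fun h => hy (mem_Icc.2 h)), zero_mul]

theorem PM_X (S : SysR88 K B N) {a e : ℕ} {x : ℤ} {X : Finset ℤ} (hae : a ≤ e) (he : e ≤ N)
    (hX : Icc x (x + ((e - a : ℕ) : ℤ)) ⊆ X) (P : ℤ → Prop) [DecidablePred P] :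
    PM16 K B a e x P = ∑ z ∈ X with P z, K a e x z * B e z := by
  unfold PM16
  refine sum_subset (filter_subset_filter _ hX) fun z hz hz' => ?_
  rw [mem_filter] at hz hz'
  have hn : z ∉ Icc x (x + ((e - a : ℕ) : ℤ)) := fun h => hz' ⟨h, hz.2⟩
  rw [S.out a e x z hae he (fun h => hn (mem_Icc.2 h)), zero_mul]

section three

variable {a e0 e1 e2 : ℕ} {x : ℤ} {X : Finset ℤ} (P : ℤ → Prop) [DecidablePred P]

theorem PM_bot (S : SysR88 K B N) (h0 : a ≤ e0) (h1 : e0 ≤ e1) (h2 : e1 ≤ e2) (hN : e2 ≤ N)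
    (hX : Icc x (x + ((e2 - a : ℕ) : ℤ)) ⊆ X) : PM16 K B a e0 x P =
      ∑ u ∈ X with P u, ∑ z ∈ X, ∑ y ∈ X, K a e0 x u * K e0 e1 u z * K e1 e2 z y * B e2 y := by
  have n1 : e1 ≤ N := h2.trans hN
  have n0 : e0 ≤ N := h1.trans n1
  rw [PM_X S h0 n0 ((Icc_subset_Icc_right (by omega)).trans hX)]
  refine sum_congr rfl fun u _ => ?_
  by_cases hu : x ≤ u ∧ u ≤ x + ((e0 - a : ℕ) : ℤ)
  · have hu1 : Icc u (u + ((e1 - e0 : ℕ) : ℤ)) ⊆ X := (Icc_subset_Icc hu.1 (by omega)).trans hX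
    rw [← step_X S h1 n1 hu1, mul_sum]
    refine sum_congr rfl fun z _ => ?_
    by_cases hz : u ≤ z ∧ z ≤ u + ((e1 - e0 : ℕ) : ℤ)
    · have hz1 : Icc z (z + ((e2 - e1 : ℕ) : ℤ)) ⊆ X := (Icc_subset_Icc (hu.1.trans hz.1) (by omega)).trans hX
      rw [← step_X S h2 hN hz1, mul_sum, mul_sum]
      exact sum_congr rfl fun y _ => by ring
    · rw [S.out e0 e1 u z h1 n1 hz, zero_mul, mul_zero]
      symm
      refine sum_eq_zero fun y _ => ?_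
      simp only [zero_mul]
  · rw [S.out a e0 x u h0 n0 hu, zero_mul]
    symm
    refine sum_eq_zero fun z _ => sum_eq_zero fun y _ => ?_
    simp only [zero_mul]

theorem PM_mid (S : SysR88 K B N) (h0 : a ≤ e0) (h1 : e0 ≤ e1) (h2 : e1 ≤ e2) (hN : e2 ≤ N)
    (hX : Icc x (x + ((e2 - a : ℕ) : ℤ)) ⊆ X) : PM16 K B a e1 x P =
      ∑ u ∈ X, ∑ z ∈ X with P z, ∑ y ∈ X, K a e0 x u * K e0 e1 u z * K e1 e2 z y * B e2 y := by
  have n1 : e1 ≤ N := h2.trans hN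
  have n0 : e0 ≤ N := h1.trans n1
  rw [PM_X S (h0.trans h1) n1 ((Icc_subset_Icc_right (by omega)).trans hX), sum_comm]
  refine sum_congr rfl fun z _ => ?_
  by_cases hz : x ≤ z ∧ z ≤ x + ((e1 - a : ℕ) : ℤ)
  · have hz1 : Icc z (z + ((e2 - e1 : ℕ) : ℤ)) ⊆ X := (Icc_subset_Icc hz.1 (by omega)).trans hX
    rw [← step_X S h2 hN hz1, ← comp_X S h0 h1 n1 (((Icc_subset_Icc_right (by omega))).trans hX) z, sum_mul]
    refine sum_congr rfl fun u _ => ?_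
    rw [mul_sum]
    exact sum_congr rfl fun y _ => by ring
  · rw [S.out a e1 x z (h0.trans h1) n1 hz, zero_mul]
    symm
    refine sum_eq_zero fun u _ => sum_eq_zero fun y _ => ?_
    have : K a e0 x u * K e0 e1 u z = 0 := by
      by_cases hu : x ≤ u ∧ u ≤ x + ((e0 - a : ℕ) : ℤ)
      · rw [S.out e0 e1 u z h1 n1 (by omega), mul_zero]
      · rw [S.out a e0 x u h0 n0 hu, zero_mul]
    rw [this, zero_mul, zero_mul]

theorem PM_top (S : SysR88 K B N) (h0 : a ≤ e0) (h1 : e0 ≤ e1) (h2 : e1 ≤ e2) (hN : e2 ≤ N)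
    (hX : Icc x (x + ((e2 - a : ℕ) : ℤ)) ⊆ X) : PM16 K B a e2 x P =
      ∑ u ∈ X, ∑ z ∈ X, ∑ y ∈ X with P y, K a e0 x u * K e0 e1 u z * K e1 e2 z y * B e2 y := by
  rw [PM_X S (h0.trans (h1.trans h2)) hN hX]
  have hsw : ∀ u ∈ X, ∑ z ∈ X, ∑ y ∈ X with P y, K a e0 x u * K e0 e1 u z * K e1 e2 z y * B e2 y =
      ∑ y ∈ X with P y, ∑ z ∈ X, K a e0 x u * K e0 e1 u z * K e1 e2 z y * B e2 y := fun u _ => sum_comm
  rw [sum_congr rfl hsw, sum_comm]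
  refine sum_congr rfl fun y _ => ?_
  rw [← comp_X S (h0.trans h1) h2 hN ((Icc_subset_Icc_right (by omega)).trans hX) y, sum_mul, sum_comm]
  refine sum_congr rfl fun z _ => ?_
  rw [← comp_X S h0 h1 (h2.trans hN) ((Icc_subset_Icc_right (by omega)).trans hX) z, sum_mul, sum_mul]

end three

theorem two_X (S : SysR88 K B N) {e0 e1 e2 : ℕ} {a0 b0 : ℤ} {X : Finset ℤ} (h1 : e0 ≤ e1) (hN : e1 ≤ N)
    (hX : Icc a0 (a0 + ((e1 - e0 : ℕ) : ℤ)) ⊆ X) (P : ℤ → Prop) [DecidablePred P] :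
    ∑ z ∈ X with P z, K e0 e1 a0 z * K e1 e2 z b0 =
      ∑ z ∈ Icc a0 (a0 + ((e1 - e0 : ℕ) : ℤ)) with P z, K e0 e1 a0 z * K e1 e2 z b0 := by
  symm
  refine sum_subset (filter_subset_filter _ hX) fun z hz hz' => ?_
  rw [mem_filter] at hz hz'
  have hn : z ∉ Icc a0 (a0 + ((e1 - e0 : ℕ) : ℤ)) := fun h => hz' ⟨h, hz.2⟩
  rw [S.out e0 e1 a0 z h1 hN (fun h => hn (mem_Icc.2 h)), zero_mul]

/-- **The node inequality**, right side. -/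
theorem nodeR88 (S : SysR88 K B N) {a e0 e1 e2 : ℕ} (h0 : a ≤ e0) (h1 : e0 ≤ e1) (h2 : e1 ≤ e2) (hN : e2 ≤ N)
    (T1 : TN (K e0 e1)) (T2 : TN (K e1 e2)) (x : ℤ) {a0 b0 z0 : ℤ} {p : ℝ} (hpos : 0 < K e0 e2 a0 b0)
    (hp : ∑ z ∈ Icc a0 (a0 + ((e1 - e0 : ℕ) : ℤ)) with z0 ≤ z, K e0 e1 a0 z * K e1 e2 z b0 ≤ p * K e0 e2 a0 b0) :
    PM16 K B a e1 x (fun z => z0 ≤ z) ≤ PM16 K B a e0 x (fun z => a0 < z) + PM16 K B a e2 x (fun z => b0 < z) +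
      p * B a x := by
  obtain ⟨X, hX1, hX2⟩ : ∃ X : Finset ℤ, Icc x (x + ((e2 - a : ℕ) : ℤ)) ⊆ X ∧ Icc a0 (a0 + ((e1 - e0 : ℕ) : ℤ)) ⊆ X :=
    ⟨_, subset_union_left, subset_union_right⟩
  have n1 : e1 ≤ N := h2.trans hN
  have n0 : e0 ≤ N := h1.trans n1
  have tot : ∑ z ∈ X, K e0 e1 a0 z * K e1 e2 z b0 = K e0 e2 a0 b0 := comp_X S h1 h2 hN hX2 b0
  have key := prof88 T1 T2 (A := X) (B := X) (S := X) (f := fun u => K a e0 x u) (F := fun y => B e2 y)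
    (fun _ _ => S.k0 _ _ _ _ h0 n0) (fun _ _ => S.b0 _ _ hN) (a0 := a0) (b0 := b0) (z0 := z0) (p := p)
    (by rw [tot, two_X S h1 n1 hX2]; exact hp) (by rw [tot]; exact hpos)
  rw [PM_mid _ S h0 h1 h2 hN hX1, PM_bot _ S h0 h1 h2 hN hX1, PM_top _ S h0 h1 h2 hN hX1]
  have e : B a x = ∑ u ∈ X, ∑ z ∈ X, ∑ y ∈ X, K a e0 x u * K e0 e1 u z * K e1 e2 z y * B e2 y := by
    have g1 := PM_bot (fun _ => True) S h0 h1 h2 hN hX1
    have g2 := PM_X S (e := e0) h0 n0 ((Icc_subset_Icc_right (by omega)).trans hX1) (fun _ => True)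
    rw [filter_true_of_mem (s := X) (p := fun _ => True) (fun _ _ => trivial)] at g1 g2
    rw [← g1, g2, step_X S h0 n0 ((Icc_subset_Icc_right (by omega)).trans hX1)]
  rw [e]
  exact key

/-- The mirror image. -/
theorem nodeR88' (S : SysR88 K B N) {a e0 e1 e2 : ℕ} (h0 : a ≤ e0) (h1 : e0 ≤ e1) (h2 : e1 ≤ e2) (hN : e2 ≤ N)
    (T1 : TN (K e0 e1)) (T2 : TN (K e1 e2)) (x : ℤ) {a0 b0 z0 : ℤ} {p : ℝ} (hpos : 0 < K e0 e2 a0 b0)
    (hp : ∑ z ∈ Icc a0 (a0 + ((e1 - e0 : ℕ) : ℤ)) with z ≤ z0, K e0 e1 a0 z * K e1 e2 z b0 ≤ p * K e0 e2 a0 b0) :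
    PM16 K B a e1 x (fun z => z ≤ z0) ≤ PM16 K B a e0 x (fun z => z < a0) + PM16 K B a e2 x (fun z => z < b0) +
      p * B a x := by
  obtain ⟨X, hX1, hX2⟩ : ∃ X : Finset ℤ, Icc x (x + ((e2 - a : ℕ) : ℤ)) ⊆ X ∧ Icc a0 (a0 + ((e1 - e0 : ℕ) : ℤ)) ⊆ X :=
    ⟨_, subset_union_left, subset_union_right⟩
  have n1 : e1 ≤ N := h2.trans hN
  have n0 : e0 ≤ N := h1.trans n1
  have tot : ∑ z ∈ X, K e0 e1 a0 z * K e1 e2 z b0 = K e0 e2 a0 b0 := comp_X S h1 h2 hN hX2 b0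
  have key := prof88' T1 T2 (A := X) (B := X) (S := X) (f := fun u => K a e0 x u) (F := fun y => B e2 y)
    (fun _ _ => S.k0 _ _ _ _ h0 n0) (fun _ _ => S.b0 _ _ hN) (a0 := a0) (b0 := b0) (z0 := z0) (p := p)
    (by rw [tot, two_X S h1 n1 hX2]; exact hp) (by rw [tot]; exact hpos)
  rw [PM_mid _ S h0 h1 h2 hN hX1, PM_bot _ S h0 h1 h2 hN hX1, PM_top _ S h0 h1 h2 hN hX1]
  have e : B a x = ∑ u ∈ X, ∑ z ∈ X, ∑ y ∈ X, K a e0 x u * K e0 e1 u z * K e1 e2 z y * B e2 y := by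
    have g1 := PM_bot (fun _ => True) S h0 h1 h2 hN hX1
    have g2 := PM_X S (e := e0) h0 n0 ((Icc_subset_Icc_right (by omega)).trans hX1) (fun _ => True)
    rw [filter_true_of_mem (s := X) (p := fun _ => True) (fun _ _ => trivial)] at g1 g2
    rw [← g1, g2, step_X S h0 n0 ((Icc_subset_Icc_right (by omega)).trans hX1)]
  rw [e]
  exact key

theorem PM_abs_le (S : SysR88 K B N) {a e : ℕ} (ha : a ≤ e) (he : e ≤ N) (x : ℤ) (l : ℤ → ℝ) (D : ℝ) :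
    PM16 K B a e x (fun z => D ≤ |l z|) ≤ PM16 K B a e x (fun z => D ≤ 1 * l z) + PM16 K B a e x (fun z => D ≤ -1 * l z) := by
  unfold PM16
  have h0 : ∀ z, 0 ≤ K a e x z * B e z := fun z => mul_nonneg (S.k0 _ _ _ _ ha he) (S.b0 _ _ he)
  rw [sum_filter, sum_filter, sum_filter, ← sum_add_distrib]
  refine sum_le_sum fun z _ => ?_
  have h1 := h0 z
  by_cases g1 : D ≤ 1 * l z
  · rw [if_pos g1]
    split_ifs <;> linarith
  · by_cases g2 : D ≤ -1 * l z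
    · rw [if_pos g2]
      split_ifs <;> linarith
    · have g3 : ¬ D ≤ |l z| := by
        push Not at g1 g2 ⊢
        exact abs_lt.2 ⟨by linarith, by linarith⟩
      rw [if_neg g1, if_neg g2, if_neg g3, add_zero]

theorem PM_abs_ge (S : SysR88 K B N) {a e : ℕ} (ha : a ≤ e) (he : e ≤ N) (x : ℤ) (l : ℤ → ℝ) {D : ℝ} (hD : 0 < D) :
    PM16 K B a e x (fun z => D ≤ 1 * l z) + PM16 K B a e x (fun z => D ≤ -1 * l z) ≤ PM16 K B a e x (fun z => D ≤ |l z|) := by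
  unfold PM16
  have h0 : ∀ z, 0 ≤ K a e x z * B e z := fun z => mul_nonneg (S.k0 _ _ _ _ ha he) (S.b0 _ _ he)
  rw [sum_filter, sum_filter, sum_filter, ← sum_add_distrib]
  refine sum_le_sum fun z _ => ?_
  have h1 := h0 z
  have a1 := le_abs_self (l z)
  have a2 := neg_le_abs (l z)
  by_cases g1 : D ≤ 1 * l z
  · have g2 : ¬ D ≤ -1 * l z := by
      intro g2
      linarith
    rw [if_pos g1, if_neg g2, if_pos (by linarith), add_zero]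
  · by_cases g2 : D ≤ -1 * l z
    · rw [if_neg g1, if_pos g2, if_pos (by linarith), zero_add]
    · rw [if_neg g1, if_neg g2, add_zero]
      split_ifs
      · exact h1
      · exact le_rfl

end sys

/-! ### kernels which are conjugated tilts of the weights -/

variable {μ : Measure ℝ} {s : ℝ} {K : ℕ → ℕ → ℤ → ℤ → ℝ} {B : ℕ → ℤ → ℝ} {N : ℕ} {η : Env} {ρ : ℤ} {φ : ℕ → ℤ → ℝ}

/-- On the rows `[e0, e2]` the kernels are conjugated tilts of the weights of `η`, rows shifted by `ρ`. -/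
def Cj88 (μ : Measure ℝ) (s : ℝ) (K : ℕ → ℕ → ℤ → ℤ → ℝ) (η : Env) (ρ : ℤ) (φ : ℕ → ℤ → ℝ) (e0 e2 : ℕ) : Prop :=
  ∃ g : ℝ, ∀ i n : ℕ, e0 ≤ i → i + n ≤ e2 → ∀ x z : ℤ, K i (i + n) x z =
    φ i x / φ (i + n) z * (Real.exp (g * (((z - x : ℤ) : ℝ) - sl μ s * n)) * W μ s η ((i : ℤ) + ρ, x) n (z - x))

theorem TN_conj (g c : ℝ) {F : ℤ → ℤ → ℝ} (hF : TN F) {f1 f2 : ℤ → ℝ} (h1 : ∀ x, 0 < f1 x) (h2 : ∀ x, 0 < f2 x) :
    TN fun a z => f1 a / f2 z * (Real.exp (g * (((z - a : ℤ) : ℝ) - c)) * F a z) := by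
  refine ⟨fun a z => mul_nonneg (div_nonneg (h1 a).le (h2 z).le) (mul_nonneg (Real.exp_pos _).le (hF.1 a z)),
    fun a a' z z' ha hz => ?_⟩
  have h3 := hF.2 a a' z z' ha hz
  have e1 : Real.exp (g * (((z' - a : ℤ) : ℝ) - c)) * Real.exp (g * (((z - a' : ℤ) : ℝ) - c)) =
      Real.exp (g * (((z - a : ℤ) : ℝ) - c)) * Real.exp (g * (((z' - a' : ℤ) : ℝ) - c)) := by
    rw [← Real.exp_add, ← Real.exp_add]
    congr 1
    push_cast
    ring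
  have p1 := h1 a
  have p2 := h1 a'
  have p3 := h2 z
  have p4 := h2 z'
  have h4 : 0 ≤ f1 a / f2 z * (f1 a' / f2 z') * (Real.exp (g * (((z - a : ℤ) : ℝ) - c)) *
      Real.exp (g * (((z' - a' : ℤ) : ℝ) - c))) := by positivity
  calc _ = f1 a / f2 z * (f1 a' / f2 z') * (Real.exp (g * (((z' - a : ℤ) : ℝ) - c)) *
        Real.exp (g * (((z - a' : ℤ) : ℝ) - c))) * (F a z' * F a' z) := by
        field_simp
    _ = f1 a / f2 z * (f1 a' / f2 z') * (Real.exp (g * (((z - a : ℤ) : ℝ) - c)) *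
        Real.exp (g * (((z' - a' : ℤ) : ℝ) - c))) * (F a z' * F a' z) := by rw [e1]
    _ ≤ f1 a / f2 z * (f1 a' / f2 z') * (Real.exp (g * (((z - a : ℤ) : ℝ) - c)) *
        Real.exp (g * (((z' - a' : ℤ) : ℝ) - c))) * (F a z * F a' z') := mul_le_mul_of_nonneg_left h3 h4
    _ = _ := by field_simp

/-- The data of one node. -/
theorem dataR88 (hφ : ∀ i x, 0 < φ i x) {e0 e1 e2 n1 n2 : ℕ} (h1 : e1 = e0 + n1) (h2 : e2 = e1 + n2)
    (hK : Cj88 μ s K η ρ φ e0 e2) {a0 b0 : ℤ} (hab : a0 ≤ b0) (hba : b0 ≤ a0 + n1 + n2) :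
    TN (K e0 e1) ∧ TN (K e1 e2) ∧ 0 < K e0 e2 a0 b0 ∧
    ∀ (P : ℤ → Prop) [DecidablePred P] (pr : ℝ),
      ∑ z ∈ Icc a0 (a0 + n1) with P z, W μ s η ((e0 : ℤ) + ρ, a0) n1 (z - a0) *
        W μ s η ((e0 : ℤ) + ρ + n1, z) n2 (b0 - z) ≤ pr * W μ s η ((e0 : ℤ) + ρ, a0) (n1 + n2) (b0 - a0) →
      ∑ z ∈ Icc a0 (a0 + ((e1 - e0 : ℕ) : ℤ)) with P z, K e0 e1 a0 z * K e1 e2 z b0 ≤ pr * K e0 e2 a0 b0 := by
  obtain ⟨g, hg⟩ := hK
  have f1 : e1 - e0 = n1 := by omega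
  subst h1
  subst h2
  have k1 : ∀ x z : ℤ, K e0 (e0 + n1) x z = φ e0 x / φ (e0 + n1) z *
      (Real.exp (g * (((z - x : ℤ) : ℝ) - sl μ s * n1)) * W μ s η ((e0 : ℤ) + ρ, x) n1 (z - x)) :=
    hg e0 n1 le_rfl (by omega)
  have k2 : ∀ x z : ℤ, K (e0 + n1) (e0 + n1 + n2) x z = φ (e0 + n1) x / φ (e0 + n1 + n2) z *
      (Real.exp (g * (((z - x : ℤ) : ℝ) - sl μ s * n2)) * W μ s η (((e0 + n1 : ℕ) : ℤ) + ρ, x) n2 (z - x)) :=
    hg (e0 + n1) n2 (by omega) le_rfl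
  have k3 : ∀ x z : ℤ, K e0 (e0 + n1 + n2) x z = φ e0 x / φ (e0 + n1 + n2) z *
      (Real.exp (g * (((z - x : ℤ) : ℝ) - sl μ s * ((n1 + n2 : ℕ) : ℝ))) * W μ s η ((e0 : ℤ) + ρ, x) (n1 + n2) (z - x)) := by
    intro x z
    have := hg e0 (n1 + n2) le_rfl (by omega) x z
    rw [show e0 + (n1 + n2) = e0 + n1 + n2 by omega] at this
    exact this
  rw [f1]
  refine ⟨?_, ?_, ?_, ?_⟩
  · have e : K e0 (e0 + n1) = fun x z : ℤ => φ e0 x / φ (e0 + n1) z *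
        (Real.exp (g * (((z - x : ℤ) : ℝ) - sl μ s * n1)) * W μ s η ((e0 : ℤ) + ρ, x) n1 (z - x)) := by
      funext x z
      exact k1 x z
    rw [e]
    exact TN_conj g _ (TN_W (μ := μ) (s := s) η ((e0 : ℤ) + ρ) n1) (hφ _) (hφ _)
  · have e : K (e0 + n1) (e0 + n1 + n2) = fun x z : ℤ => φ (e0 + n1) x / φ (e0 + n1 + n2) z *
        (Real.exp (g * (((z - x : ℤ) : ℝ) - sl μ s * n2)) * W μ s η (((e0 + n1 : ℕ) : ℤ) + ρ, x) n2 (z - x)) := by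
      funext x z
      exact k2 x z
    rw [e]
    exact TN_conj g _ (TN_W (μ := μ) (s := s) η (((e0 + n1 : ℕ) : ℤ) + ρ) n2) (hφ _) (hφ _)
  · rw [k3]
    exact mul_pos (div_pos (hφ _ _) (hφ _ _)) (mul_pos (Real.exp_pos _) (W_pos η _ (by omega) (by push_cast; omega)))
  · intro P _ pr hP
    rw [k3]
    have he : (e0 : ℤ) + ρ + n1 = ((e0 + n1 : ℕ) : ℤ) + ρ := by push_cast; ring
    rw [he] at hP
    obtain ⟨G, hG⟩ : ∃ G, G = Real.exp (g * (((b0 - a0 : ℤ) : ℝ) - sl μ s * ((n1 + n2 : ℕ) : ℝ))) := ⟨_, rfl⟩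
    have hG0 : 0 < G := by rw [hG]; exact Real.exp_pos _
    have e : ∀ z : ℤ, K e0 (e0 + n1) a0 z * K (e0 + n1) (e0 + n1 + n2) z b0 =
        φ e0 a0 / φ (e0 + n1 + n2) b0 * G *
          (W μ s η ((e0 : ℤ) + ρ, a0) n1 (z - a0) * W μ s η (((e0 + n1 : ℕ) : ℤ) + ρ, z) n2 (b0 - z)) := by
      intro z
      have e1' : G = Real.exp (g * (((z - a0 : ℤ) : ℝ) - sl μ s * n1)) * Real.exp (g * (((b0 - z : ℤ) : ℝ) - sl μ s * n2)) := by
        rw [hG, ← Real.exp_add]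
        congr 1
        push_cast
        ring
      have p1 := hφ (e0 + n1) z
      have p2 := hφ (e0 + n1 + n2) b0
      rw [k1, k2, e1']
      field_simp
    simp only [e]
    rw [← mul_sum, ← hG]
    have h3 : 0 ≤ φ e0 a0 / φ (e0 + n1 + n2) b0 * G := mul_nonneg (div_nonneg (hφ _ _).le (hφ _ _).le) hG0.le
    calc _ ≤ φ e0 a0 / φ (e0 + n1 + n2) b0 * G * (pr * W μ s η ((e0 : ℤ) + ρ, a0) (n1 + n2) (b0 - a0)) :=
          mul_le_mul_of_nonneg_left hP h3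
      _ = _ := by ring

/-- **The annulus** for `PM16`, the places written as displacements from the line through `(a, x0)`. -/
theorem annR88 (S : SysR88 K B N) (hφ : ∀ i x, 0 < φ i x) {a e0 e1 e2 n1 n2 : ℕ} (h0 : a ≤ e0) (h1 : e1 = e0 + n1)
    (h2 : e2 = e1 + n2) (hN : e2 ≤ N) (hK : Cj88 μ s K η ρ φ e0 e2) (x : ℤ) {x0 : ℝ} {ε : ℝ} (hε : ε = 1 ∨ ε = -1)
    {D D' X' e q x1 pr : ℝ} (he : |X' - (x0 + sl μ s * ((e1 - a : ℕ) : ℝ))| ≤ e) (hD : D' + e ≤ D)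
    (g1 : D / 4 + e ≤ 7 / 8 * D') (g2 : 4 * q * D + e ≤ 16 * q * D')
    (hab : 0 ≤ nb μ s ε n2 q X' D' - na μ s ε n1 X' D') (hba : nb μ s ε n2 q X' D' - na μ s ε n1 X' D' ≤ n1 + n2)
    (hx1 : x1 * n1 ≤ D' / 8)
    (hNm : Nm μ s ε x1 η ((e0 : ℤ) + ρ, na μ s ε n1 X' D') n1 n2 (nb μ s ε n2 q X' D' - na μ s ε n1 X' D') ≤
      pr * W μ s η ((e0 : ℤ) + ρ, na μ s ε n1 X' D') (n1 + n2) (nb μ s ε n2 q X' D' - na μ s ε n1 X' D')) :
    PM16 K B a e1 x (fun z => D ≤ ε * ((z : ℝ) - x0 - sl μ s * ((e1 - a : ℕ) : ℝ))) ≤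
      PM16 K B a e0 x (fun z => D / 4 ≤ ε * ((z : ℝ) - x0 - sl μ s * ((e0 - a : ℕ) : ℝ))) +
      PM16 K B a e2 x (fun z => 4 * q * D ≤ ε * ((z : ℝ) - x0 - sl μ s * ((e2 - a : ℕ) : ℝ))) +
      pr * B a x := by
  obtain ⟨a0, ha⟩ : ∃ a0, a0 = na μ s ε n1 X' D' := ⟨_, rfl⟩
  obtain ⟨b0, hb⟩ : ∃ b0, b0 = nb μ s ε n2 q X' D' := ⟨_, rfl⟩
  rw [← ha, ← hb] at hab hba hNm
  unfold na off at ha
  unfold nb off at hb
  obtain ⟨he1, he2⟩ := abs_le.mp he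
  obtain ⟨X, hX⟩ : ∃ X : ℝ, X = x0 + sl μ s * ((e1 - a : ℕ) : ℝ) := ⟨_, rfl⟩
  have c0 : ((e0 - a : ℕ) : ℝ) = ((e1 - a : ℕ) : ℝ) - n1 := by
    have : e0 - a + n1 = e1 - a := by omega
    rw [← this]
    push_cast
    ring
  have c2 : ((e2 - a : ℕ) : ℝ) = ((e1 - a : ℕ) : ℝ) + n2 := by
    have : e1 - a + n2 = e2 - a := by omega
    rw [← this]
    push_cast
    ring
  have l0 : ∀ z : ℤ, (z : ℝ) - x0 - sl μ s * ((e0 - a : ℕ) : ℝ) = z - X + sl μ s * n1 := by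
    intro z
    rw [hX, c0]
    ring
  have l1 : ∀ z : ℤ, (z : ℝ) - x0 - sl μ s * ((e1 - a : ℕ) : ℝ) = z - X := by
    intro z
    rw [hX]
    ring
  have l2 : ∀ z : ℤ, (z : ℝ) - x0 - sl μ s * ((e2 - a : ℕ) : ℝ) = z - X - sl μ s * n2 := by
    intro z
    rw [hX, c2]
    ring
  rw [← hX] at he1 he2
  simp only [l0, l1, l2]
  obtain ⟨t1, t2, t3, t4⟩ := dataR88 hφ h1 h2 hK (a0 := a0) (b0 := b0) (by omega) (by omega)
  have a1 : a ≤ e1 := by omega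
  have a2 : a ≤ e2 := by omega
  have n1' : e1 ≤ N := by omega
  have n0' : e0 ≤ N := by omega
  rcases hε with rfl | rfl
  · rw [if_pos rfl] at ha hb
    have fa := Int.floor_le (X' - sl μ s * n1 + 1 * (7 / 8 * D'))
    rw [← ha] at fa
    have key := nodeR88 S h0 (by omega) (by omega) hN t1 t2 x t3 (t4 (fun z => ⌈X + D⌉ ≤ z) pr
      ((Nm_up x1 η ((e0 : ℤ) + ρ) a0 b0 ⌈X + D⌉ n1 n2 (by
        have h3 := Int.le_ceil (X + D)
        push_cast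
        nlinarith)).trans hNm))
    refine le_trans ?_ (key.trans (add_le_add (add_le_add ?_ ?_) le_rfl))
    · refine PM_mono S a1 n1' x fun z _ _ hz => ?_
      rw [Int.ceil_le]
      linarith
    · refine PM_mono S h0 n0' x fun z _ _ hz => ?_
      rw [ha, Int.floor_lt] at hz
      linarith
    · refine PM_mono S a2 hN x fun z _ _ hz => ?_
      rw [hb, Int.floor_lt] at hz
      linarith
  · have hne : ¬ ((-1 : ℝ) = 1) := by norm_num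
    rw [if_neg hne] at ha hb
    have fa := Int.le_ceil (X' - sl μ s * n1 + -1 * (7 / 8 * D'))
    rw [← ha] at fa
    have key := nodeR88' S h0 (by omega) (by omega) hN t1 t2 x t3 (t4 (fun z => z ≤ ⌊X - D⌋) pr
      ((Nm_dn x1 η ((e0 : ℤ) + ρ) a0 b0 ⌊X - D⌋ n1 n2 (by
        have h3 := Int.floor_le (X - D)
        push_cast
        nlinarith)).trans hNm))
    refine le_trans ?_ (key.trans (add_le_add (add_le_add ?_ ?_) le_rfl))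
    · refine PM_mono S a1 n1' x fun z _ _ hz => ?_
      rw [Int.le_floor]
      linarith
    · refine PM_mono S h0 n0' x fun z _ _ hz => ?_
      rw [ha, Int.lt_ceil] at hz
      linarith
    · refine PM_mono S a2 hN x fun z _ _ hz => ?_
      rw [hb, Int.lt_ceil] at hz
      linarith

variable [IsProbabilityMeasure μ] {c₀ δ₁ c₁ A aa g θ Y₁ : ℝ} {K0 Kb n₃ : ℕ}

/-- **The normal scales for general kernels**, label units `w i`. -/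
theorem normR88 (hC : Cs94 μ s c₀ δ₁ c₁ A aa g θ Y₁ K0 Kb n₃) (S : SysR88 K B N) (hφ : ∀ i x, 0 < φ i x)
    {T : ℕ → ℕ} {m j : ℕ} (hT0 : T 0 = 0) (hT1 : n₃ ≤ T 1)
    (hTK : ∀ i, 1 ≤ i → i < m → K0 * T i ≤ T (i + 1)) (hj1 : 1 ≤ j) (hjm : j < m) {w : ℕ → ℝ} {lm : ℝ} (hlam : 1 ≤ lm)
    (hw1 : ∀ i, 1 ≤ i → i ≤ m → 1 ≤ w i) (hwT : ∀ i, 1 ≤ i → i < m → wd μ s (T i) ≤ lm * w i)
    (hw16 : ∀ i, 1 ≤ i → i < m → 16 * w i ≤ w (i + 1))
    (hqn : ∀ i, 1 ≤ i → i < m → w (i + 1) / w i * (T i - T (i - 1) : ℕ) ≤ θ * (T (i + 1) - T i : ℕ))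
    {a : ℕ} {x : ℤ} (hN : a + T m ≤ N)
    (hK : ∀ i, 1 ≤ i → i < m → Cj88 μ s K η ρ φ (a + T (i - 1)) (a + T (i + 1))) {xc : ℕ → ℤ} {R : ℕ}
    (hR : 1 ≤ R) {Y : ℝ} (hY : 8 ≤ Y) (hY1 : lm * Y₁ ≤ Y) {l0 : ℕ}
    (hnu : ∀ i, 1 ≤ i → i < m → nu μ s c₀ δ₁ Y (w i) (w (i + 1) / w i) R ((a : ℤ) + ρ + T (i - 1))
      (T i - T (i - 1)) (T (i + 1) - T i) (xc i) η ≤ ((i : ℤ) - j).natAbs + l0)
    (hX : ∀ i, 1 ≤ i → i < m → |(x : ℝ) + sl μ s * T i - xc i| ≤ (R : ℝ) ^ (((i : ℤ) - j).natAbs + l0) * w i)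
    {ε : ℝ} (hε : ε = 1 ∨ ε = -1) {Z : ℝ} (hZ : 2 ^ (l0 + 1) * Y ≤ Z) :
    PM16 K B a (a + T j) x (fun z => Z * w j ≤ ε * ((z : ℝ) - x - sl μ s * T j)) ≤
      2 * T m * (Real.exp (-(c₁ * (Z / lm * EE μ s (T j)))) * B a x +
        PM16 K B a (a + T m) x (fun z => 4 ^ (m - j) * (Z * w m) ≤ ε * ((z : ℝ) - x - sl μ s * T m))) := by
  obtain ⟨f1, f2, f3⟩ := T_facts hC hT0 hT1 hTK
  obtain ⟨s0, s1⟩ := sl_mem hC.em hC.nd s
  obtain ⟨Q, hQ⟩ : ∃ Q : ℕ → ℝ → ℝ, Q = fun i D =>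
      PM16 K B a (a + T i) x (fun z => D ≤ ε * ((z : ℝ) - x - sl μ s * T i)) := ⟨_, rfl⟩
  have hQe : ∀ i D, Q i D = PM16 K B a (a + T i) x (fun z => D ≤ ε * ((z : ℝ) - x - sl μ s * T i)) := fun i D => by rw [hQ]
  have hle : ∀ i, i ≤ m → a + T i ≤ N := fun i hi => by
    have := f3 i hi
    omega
  have eT : ∀ i : ℕ, ((a + T i - a : ℕ) : ℝ) = T i := fun i => by
    congr 1
    omega
  have main := ArmW6.norm94W hC hT0 hT1 hTK hj1 hjm hlam hw1 hwT hw16 hqn (η := η) (r0 := (a : ℤ) + ρ) (x0 := (x : ℝ)) (xc := xc)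
    hR hY hY1 hnu hX hε
    (M := fun i D => if i ≤ m then Q i D else 0)
    (Tot := B a x) (S.b0 a x (by omega))
    (fun i D => by
      show 0 ≤ if i ≤ m then Q i D else 0
      split_ifs with hi
      · rw [hQe]
        exact PM_nonneg S (by omega) (hle i hi) x _
      · exact le_rfl)
    (fun i D D' hDD => by
      show (if i ≤ m then Q i D' else 0) ≤ if i ≤ m then Q i D else 0
      split_ifs with hi
      · rw [hQe, hQe]
        exact PM_mono S (by omega) (hle i hi) x fun z _ _ hz => hDD.trans hz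
      · exact le_rfl)
    (fun i hi D hD => by
      show (if i ≤ m then Q i D else 0) = 0
      rw [if_pos hi, hQe]
      refine U16.PM16_zero x fun z hz1 hz2 hz => ?_
      have e1 : ((a + T i - a : ℕ) : ℤ) = T i := by omega
      rw [e1] at hz2
      have h3 : (x : ℝ) ≤ z := by exact_mod_cast hz1
      have h4 : (z : ℝ) ≤ x + T i := by exact_mod_cast hz2
      have h5 : (0 : ℝ) ≤ T i := Nat.cast_nonneg _
      have h6 : 0 ≤ sl μ s * T i := mul_nonneg s0.le h5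
      have h7 : sl μ s * T i ≤ T i := by nlinarith
      rcases hε with rfl | rfl <;> linarith)
    (fun i hi1 him X' D' D pr k1 k2 k3 k4 k5 k6 k7 => by
      show (if i ≤ m then Q i D else 0) ≤ (if i - 1 ≤ m then Q (i - 1) (D / 4) else 0) +
        (if i + 1 ≤ m then Q (i + 1) (4 * (w (i + 1) / w i) * D) else 0) +
        pr * B a x
      rw [if_pos him.le, if_pos (by omega), if_pos (by omega), hQe, hQe, hQe]
      have h01 : T (i - 1) ≤ T i := by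
        have := f2 (i - 1) (by omega)
        rw [show i - 1 + 1 = i by omega] at this
        omega
      have h12 : T i ≤ T (i + 1) := by
        have := f2 i him
        omega
      have h2m := f3 (i + 1) (by omega)
      have c0 : ((a + T (i - 1) : ℕ) : ℤ) + ρ = (a : ℤ) + ρ + T (i - 1) := by push_cast; ring
      have key := annR88 S hφ (a := a) (e0 := a + T (i - 1)) (e1 := a + T i) (e2 := a + T (i + 1))
        (n1 := T i - T (i - 1)) (n2 := T (i + 1) - T i) (by omega) (by omega) (by omega) (by omega) (hK i hi1 him) x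
        (x0 := (x : ℝ)) hε (e := |X' - ((x : ℝ) + sl μ s * T i)|) (by rw [eT]) k1 k2 k3 k4
        (by push_cast at k5 ⊢; exact k5) k6 (by rw [c0]; exact k7)
      simp only [eT] at key
      exact key) hZ
  simp only [if_pos hjm.le, le_refl, if_true] at main
  rw [hQe, hQe] at main
  exact main

/-- **The arms of a place, general kernels.** -/
theorem armR88 (hC : Cs94 μ s c₀ δ₁ c₁ A aa g θ Y₁ K0 Kb n₃) (S : SysR88 K B N) (hφ : ∀ i x, 0 < φ i x)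
    {T : ℕ → ℕ} {m j : ℕ} (hT0 : T 0 = 0) (hT1 : n₃ ≤ T 1)
    (hTK : ∀ i, 1 ≤ i → i < m → K0 * T i ≤ T (i + 1)) (hj1 : 1 ≤ j) (hjm : j < m) {w : ℕ → ℝ} {lm : ℝ} (hlam : 1 ≤ lm)
    (hw1 : ∀ i, 1 ≤ i → i ≤ m → 1 ≤ w i) (hwT : ∀ i, 1 ≤ i → i < m → wd μ s (T i) ≤ lm * w i)
    (hw16 : ∀ i, 1 ≤ i → i < m → 16 * w i ≤ w (i + 1))
    (hqn : ∀ i, 1 ≤ i → i < m → w (i + 1) / w i * (T i - T (i - 1) : ℕ) ≤ θ * (T (i + 1) - T i : ℕ))
    {a : ℕ} {x : ℤ} (hN : a + T m ≤ N)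
    (hK : ∀ i, 1 ≤ i → i < m → Cj88 μ s K η ρ φ (a + T (i - 1)) (a + T (i + 1))) {xc : ℕ → ℤ} {R : ℕ}
    (hR : 1 ≤ R) {Y : ℝ} (hY : 8 ≤ Y) (hY1 : lm * Y₁ ≤ Y) {l0 : ℕ}
    (hnu : ∀ i, 1 ≤ i → i < m → nu μ s c₀ δ₁ Y (w i) (w (i + 1) / w i) R ((a : ℤ) + ρ + T (i - 1))
      (T i - T (i - 1)) (T (i + 1) - T i) (xc i) η ≤ ((i : ℤ) - j).natAbs + l0)
    (hX : ∀ i, 1 ≤ i → i < m → |(x : ℝ) + sl μ s * T i - xc i| ≤ (R : ℝ) ^ (((i : ℤ) - j).natAbs + l0) * w i)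
    {Z : ℝ} (hZ : 2 ^ (l0 + 1) * Y ≤ Z)
    (hnum : 16 * (T m * Real.exp (-(c₁ * (Z / lm * EE μ s (T j))))) ≤ 1)
    (htop : 16 * (T m * PM16 K B a (a + T m) x (fun z => 4 ^ (m - j) * (Z * w m) ≤ |(z : ℝ) - x - sl μ s * T m|)) ≤ B a x) :
    B a x ≤ 2 * PM16 K B a (a + T j) x (fun z => |(z : ℝ) - x - sl μ s * T j| < Z * w j) := by
  obtain ⟨f1, f2, f3⟩ := T_facts hC hT0 hT1 hTK
  have hjm' := f3 j hjm.le
  have hYZ : 0 < Z := by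
    have h2 : (1 : ℝ) ≤ 2 ^ (l0 + 1) := one_le_pow₀ one_le_two
    nlinarith
  have hwm : 0 < w m := by
    have := hw1 m (by omega) le_rfl
    linarith
  have r1 := normR88 hC S hφ hT0 hT1 hTK hj1 hjm hlam hw1 hwT hw16 hqn hN hK hR hY hY1 hnu hX (Or.inl rfl) hZ
  have r2 := normR88 hC S hφ hT0 hT1 hTK hj1 hjm hlam hw1 hwT hw16 hqn hN hK hR hY hY1 hnu hX (Or.inr rfl) hZ
  have r3 := PM_abs_le S (a := a) (e := a + T j) (by omega) (by omega) x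
    (fun z => (z : ℝ) - x - sl μ s * T j) (Z * w j)
  have r4 := PM_abs_ge S (a := a) (e := a + T m) (by omega) hN x
    (fun z => (z : ℝ) - x - sl μ s * T m) (D := 4 ^ (m - j) * (Z * w m)) (by positivity)
  have hTm0 : (0 : ℝ) ≤ T m := Nat.cast_nonneg _
  have hB0 := S.b0 a x (by omega)
  have r6 := PM_split S (a := a) (e := a + T j) (by omega) (by omega) x (fun z => Z * w j ≤ |(z : ℝ) - x - sl μ s * T j|)
  have r7 : PM16 K B a (a + T j) x (fun z => ¬ Z * w j ≤ |(z : ℝ) - x - sl μ s * T j|) ≤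
      PM16 K B a (a + T j) x (fun z => |(z : ℝ) - x - sl μ s * T j| < Z * w j) :=
    PM_mono S (by omega) (by omega) x fun z _ _ hz => not_le.1 hz
  obtain ⟨E, hE⟩ : ∃ E, E = Real.exp (-(c₁ * (Z / lm * EE μ s (T j)))) := ⟨_, rfl⟩
  obtain ⟨Q, hQ⟩ : ∃ Q, Q = PM16 K B a (a + T m) x (fun z => 4 ^ (m - j) * (Z * w m) ≤ |(z : ℝ) - x - sl μ s * T m|) := ⟨_, rfl⟩
  obtain ⟨Q1, hQ1⟩ : ∃ Q, Q = PM16 K B a (a + T m) x (fun z => 4 ^ (m - j) * (Z * w m) ≤ 1 * ((z : ℝ) - x - sl μ s * T m)) := ⟨_, rfl⟩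
  obtain ⟨Q2, hQ2⟩ : ∃ Q, Q = PM16 K B a (a + T m) x (fun z => 4 ^ (m - j) * (Z * w m) ≤ -1 * ((z : ℝ) - x - sl μ s * T m)) := ⟨_, rfl⟩
  rw [← hE, ← hQ1] at r1
  rw [← hE, ← hQ2] at r2
  rw [← hQ1, ← hQ2, ← hQ] at r4
  rw [← hE] at hnum
  rw [← hQ] at htop
  have r8 := mul_le_mul_of_nonneg_left r4 hTm0
  have r9 := mul_le_mul_of_nonneg_right hnum hB0
  have e1 : 2 * (T m : ℝ) * (E * B a x + Q1) + 2 * (T m : ℝ) * (E * B a x + Q2) =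
      4 * (T m * E) * B a x + 2 * (T m * (Q1 + Q2)) := by ring
  linarith

end

end Pool.Agent.W_7d29a1_C1.ArmR88
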