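import Pool.Agent.W_7d29a1_C1.Arm94
import Pool.Agent.W_7d29a1_H.MeanA
import Pool.Agent.W_7d29a1_g.TubeR17

/-!
MP_7d29a1_pr, C1, ARMS (helper94), part 2: tails of the reversed luck and of the cost of the straight displacement at its own tilt.
-/

set_option autoImplicit false

namespace Pool.Agent.W_7d29a1_C1.H94

open MeasureTheory ProbabilityTheory Filter Topology
open Pool.Agent.W_7d29a1_F Pool.Agent.W_7d29a1_h4g Pool.Agent.W_7d29a1_H Pool.Agent.W_7d29a1_HS
open Pool.Agent.W_7d29a1_h47 (EM Nondeg rows)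
open Pool.Agent.W_7d29a1_g (rv rev_sum)
open Pool.Agent.W_7d29a1_HX.X50 (tt zz tt_top tt_mono ll_spec zz_top yy_spec chain_le real_X)

variable {μ : Measure ℝ} [IsProbabilityMeasure μ] {s c C : ℝ} {n₀ : ℕ}

/-- A site. -/
theorem tail_site (hμ : EM μ) : ∃ A : ℝ, 0 < A ∧ ∀ (Z : Pt) (u : ℝ), (law μ).real {η : Env | u ≤ η Z} ≤ A * Real.exp (-u) := by
  have hint : ∀ Z : Pt, Integrable (fun η : Env => Real.exp (η Z)) (law μ) := fun Z => (Sub.coord Z).exp_int hμ
  refine ⟨(∫ η : Env, Real.exp (η 0) ∂(law μ)) + 1, ?_, fun Z u => ?_⟩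
  · have : 0 ≤ ∫ η : Env, Real.exp (η 0) ∂(law μ) := integral_nonneg fun _ => (Real.exp_pos _).le
    linarith
  have h0 : ∫ η : Env, Real.exp (η Z) ∂(law μ) = ∫ η : Env, Real.exp (η 0) ∂(law μ) := by
    have h := int_sh (μ := μ) Z (f := fun η : Env => Real.exp (η 0)) (Real.measurable_exp.comp (measurable_pi_apply 0))
    rw [← h]
    refine integral_congr_ae (Eventually.of_forall fun η => ?_)
    show Real.exp (η Z) = Real.exp (sh Z η 0)
    unfold sh
    rw [zero_add]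
  have hmk := mul_meas_ge_le_integral_of_nonneg (μ := law μ)
    (Eventually.of_forall fun η : Env => (Real.exp_pos (η Z)).le) (hint Z) (Real.exp u)
  rw [h0] at hmk
  have h1 : (law μ).real {η : Env | u ≤ η Z} ≤ (law μ).real {η : Env | Real.exp u ≤ Real.exp (η Z)} :=
    measureReal_mono (fun η hη => Real.exp_le_exp.2 hη) (measure_ne_top _ _)
  have h2 : Real.exp u * (law μ).real {η : Env | u ≤ η Z} ≤ ∫ η : Env, Real.exp (η 0) ∂(law μ) :=
    (mul_le_mul_of_nonneg_left h1 (Real.exp_pos _).le).trans hmk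
  obtain ⟨I, hI⟩ : ∃ I, I = ∫ η : Env, Real.exp (η 0) ∂(law μ) := ⟨_, rfl⟩
  rw [← hI] at h2 ⊢
  have h3 : Real.exp u * ((I + 1) * Real.exp (-u)) = I + 1 := by
    rw [mul_left_comm, ← Real.exp_add, add_neg_cancel, Real.exp_zero, mul_one]
  exact le_of_mul_le_mul_left (by rw [h3]; linarith) (Real.exp_pos u)

/-- The constant of the reversed luck. -/
theorem log_rev (hμ : EM μ) (hnd : Nondeg μ) (s : ℝ) {r : ℝ} (hr : |r| ≤ 1) :
    Real.exp (-lam μ (s + r)) + Real.exp (s + r - lam μ (s + r)) ≤ Real.exp (|s| + |lam μ s| + 3) := by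
  have h1 := lam_tangent hμ hnd s (s + r)
  obtain ⟨a1, a2⟩ := sl_mem hμ hnd s
  have h2 : -1 ≤ sl μ s * (s + r - s) := by
    have e : s + r - s = r := by ring
    rw [e]
    have h3 : |sl μ s * r| ≤ 1 * 1 := by
      rw [abs_mul]
      exact mul_le_mul (by rw [abs_of_pos a1]; exact a2.le) hr (abs_nonneg _) zero_le_one
    linarith [(abs_le.1 h3).1]
  have h3 : -lam μ (s + r) ≤ |lam μ s| + 1 := by linarith [neg_abs_le (lam μ s), neg_le_abs (lam μ s)]
  have h4 : s + r ≤ |s| + 1 := by linarith [le_abs_self s, le_abs_self r]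
  have h5 : Real.exp (-lam μ (s + r)) ≤ Real.exp (|s| + |lam μ s| + 2) :=
    Real.exp_le_exp.2 (by linarith [abs_nonneg s])
  have h6 : Real.exp (s + r - lam μ (s + r)) ≤ Real.exp (|s| + |lam μ s| + 2) :=
    Real.exp_le_exp.2 (by linarith)
  have h7 : Real.exp (|s| + |lam μ s| + 3) = Real.exp (|s| + |lam μ s| + 2) * Real.exp 1 := by
    rw [← Real.exp_add]
    congr 1
    ring
  have h8 : (2 : ℝ) ≤ Real.exp 1 := by
    have := Real.add_one_le_exp (1 : ℝ)
    linarith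
  have h9 := mul_le_mul_of_nonneg_left h8 (Real.exp_pos (|s| + |lam μ s| + 2)).le
  rw [h7]
  linarith

/-- The reversed luck has the tail of the luck. -/
theorem tail_rv (h : In μ s c C n₀) {n m : ℕ} (hn : n₀ ≤ n) (hn1 : 1 ≤ n) (hm : m ≤ 4 * n) (Z : Pt) (u : ℝ) :
    (law μ).real {η | u * (C * EE μ s n) ≤ V μ s (rv Z η) 0 m} ≤ C * Real.exp (-u) := by
  have hmp : MeasurePreserving (rv Z) (law μ) (law μ) := mp_neg (μ := μ) Z
  have hmeas : MeasurableSet {η : Env | u * (C * EE μ s n) ≤ V μ s η 0 m} :=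
    measurableSet_le measurable_const (Sub_V 0 m).1
  have h1 := hmp.measure_preimage hmeas.nullMeasurableSet
  have h2 := tail_V94 h hn hn1 hm u
  have e : rv Z ⁻¹' {η : Env | u * (C * EE μ s n) ≤ V μ s η 0 m} = {η | u * (C * EE μ s n) ≤ V μ s (rv Z η) 0 m} := rfl
  rw [e] at h1
  unfold Measure.real at h2 ⊢
  rw [h1]
  exact h2

/-- **The cost of the straight displacement at its own tilt.** `q` bounds the tilt, `x` the slope. -/
theorem tail_X94 (h : In μ s c C n₀) {C₁ A a g : ℝ} (hC₁ : 0 < C₁) (ha : 0 < a)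
    (hU : ∀ m : ℕ, 1 ≤ m → ∀ y : ℤ, 0 ≤ y → y ≤ m → ∀ u : ℝ, 0 ≤ u →
      (law μ).real {η | C₁ * (EE μ s m + m * J μ s (((y : ℝ) - sl μ s * m) / m)) + u * EE μ s m ≤ X μ s η 0 m y} ≤
        A * Real.exp (-(a * u ^ g)))
    {r q x : ℝ} (h' : In μ (s + r) c C n₀) (hr1 : |r| ≤ 1) (hrq : |r| ≤ q) {n M : ℕ} (hn0 : n₀ ≤ n) (hM1 : 1 ≤ M) (hMn : M ≤ n)
    {y : ℤ} (hy0 : 0 ≤ y) (hy1 : y ≤ n) (hsl : sl μ (s + r) = (y : ℝ) / n) (hx : |(y : ℝ) / n - sl μ s| ≤ x)
    (hJ : J μ s (2 * ((y : ℝ) / n - sl μ s)) ≤ q * x) {u : ℝ} (hu : 0 ≤ u) :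
    (law μ).real {η | 2 * (M * (C * EE μ (s + r) n)) +
        u * ((C₁ + u) * EE μ s n + (C₁ + 4) * (2 * n / M) * (q * x) + C₁ + 1) ≤ X μ (s + r) η 0 n y} ≤
      Real.exp (-u) + M * (A * Real.exp (-(a * u ^ g))) := by
  obtain ⟨s', hs'⟩ : ∃ s', s' = s + r := ⟨_, rfl⟩
  rw [← hs'] at h' hsl ⊢
  have hn1 : 1 ≤ n := hM1.trans hMn
  have hnr : (0 : ℝ) < n := by exact_mod_cast hn1
  have hMr : (0 : ℝ) < M := by exact_mod_cast hM1
  have hx0 : 0 ≤ x := (abs_nonneg _).trans hx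
  have hq0 : 0 ≤ q := (abs_nonneg _).trans hrq
  have hE := EE_pos (μ := μ) (s := s) n
  have hE1 := one_le_EE (μ := μ) (s := s) n
  obtain ⟨b, hb⟩ : ∃ b, b = (C₁ + u) * EE μ s n + (C₁ + 4) * (2 * n / M) * (q * x) + C₁ + 1 := ⟨_, rfl⟩
  rw [← hb]
  have hb0 : 0 < b := by rw [hb]; positivity
  -- the pieces
  obtain ⟨Y, hY⟩ : ∃ Y : ℕ → Env → ℝ, Y = fun i η => max (X μ s' η ((tt n M i : ℤ), zz y n (tt n M i))
    (tt n M (i + 1) - tt n M i) (zz y n (tt n M (i + 1)) - zz y n (tt n M i))) 0 := ⟨_, rfl⟩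
  have hpiece : ∀ i, 0 ≤ zz y n (tt n M (i + 1)) - zz y n (tt n M i) ∧
      zz y n (tt n M (i + 1)) - zz y n (tt n M i) ≤ ((tt n M (i + 1) - tt n M i : ℕ) : ℤ) ∧
      |((zz y n (tt n M (i + 1)) - zz y n (tt n M i) : ℤ) : ℝ) - (y : ℝ) / n * ((tt n M (i + 1) - tt n M i : ℕ) : ℝ)| ≤ 1 := by
    intro i
    have hmo := tt_mono (m := n) (B := M) (i := i)
    have := yy_spec hn1 hy0 hy1 (tt n M i) (tt n M (i + 1) - tt n M i)
    rw [Nat.add_sub_cancel' hmo] at this
    exact this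
  have hYS : ∀ i, Sub (Y i) := fun i => by
    rw [hY]
    exact (Sub_X _ (hpiece i).1 (hpiece i).2.1).max (Sub.const 0)
  have hY0 : ∀ i η, 0 ≤ Y i η := fun i η => by
    rw [hY]
    exact le_max_right _ _
  have hYdep : ∀ i, DependsOn (Y i) (rows (tt n M i) (tt n M (i + 1))) := by
    intro i η η' hη
    rw [hY]
    have hmo := tt_mono (m := n) (B := M) (i := i)
    have h1 : X μ s' η ((tt n M i : ℤ), zz y n (tt n M i)) (tt n M (i + 1) - tt n M i)
        (zz y n (tt n M (i + 1)) - zz y n (tt n M i)) =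
        X μ s' η' ((tt n M i : ℤ), zz y n (tt n M i)) (tt n M (i + 1) - tt n M i)
        (zz y n (tt n M (i + 1)) - zz y n (tt n M i)) := by
      refine X_dep (μ := μ) (s := s') _ _ _ fun p hp => hη p ⟨hp.1, ?_⟩
      have h2 := hp.2.1
      push_cast [Nat.cast_sub hmo] at h2
      linarith
    show max (X μ s' η _ _ _) 0 = max (X μ s' η' _ _ _) 0
    rw [h1]
  have hdis : ∀ i < M, ∀ j < M, i ≠ j → Disjoint (rows (tt n M i) (tt n M (i + 1)) : Set Pt) (rows (tt n M j) (tt n M (j + 1))) := by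
    intro i _ j _ hij
    rw [Set.disjoint_left]
    intro p hp hp2
    have hmono : Monotone (tt n M) := monotone_nat_of_le_succ fun i => tt_mono
    rcases lt_or_gt_of_ne hij with h1 | h1
    · have h2 := hmono (show i + 1 ≤ j by omega)
      have h3 := hp.2
      have h4 := hp2.1
      have h5 : (tt n M (i + 1) : ℤ) ≤ tt n M j := by exact_mod_cast h2
      linarith
    · have h2 := hmono (show j + 1 ≤ i by omega)
      have h3 := hp.1
      have h4 := hp2.2
      have h5 : (tt n M (j + 1) : ℤ) ≤ tt n M i := by exact_mod_cast h2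
      linarith
  -- the sum
  have hch : ∀ η, X μ s' η 0 n y ≤ ∑ i ∈ Finset.range M, Y i η := by
    intro η
    have h1 := chain_le (μ := μ) (s := s') η (B := M) hn1 hy0 hy1 M
    rw [tt_top hM1, zz_top y hn1] at h1
    rw [hY]
    exact h1
  -- the lengths
  have hlen : ∀ i, 1 ≤ tt n M (i + 1) - tt n M i ∧ tt n M (i + 1) - tt n M i ≤ n ∧
      ((tt n M (i + 1) - tt n M i : ℕ) : ℝ) ≤ 2 * n / M := by
    intro i
    obtain ⟨h1, h2, h3⟩ := ll_spec hM1 hMn i
    obtain ⟨l, hl⟩ : ∃ l, l = tt n M (i + 1) - tt n M i := ⟨_, rfl⟩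
    rw [← hl] at h1 h2 h3 ⊢
    have h4 : l * M < 2 * n := by omega
    refine ⟨h1, ?_, ?_⟩
    · by_contra hcon
      have h5 : n + 1 ≤ l := by omega
      have h6 : (n + 1) * M ≤ l * M := Nat.mul_le_mul_right M h5
      have h7 : (n + 1) * M = n * M + M := by ring
      have h8 : n * 1 ≤ n * M := Nat.mul_le_mul_left n hM1
      omega
    · rw [le_div_iff₀ hMr]
      exact_mod_cast h4.le
  -- the means
  have hmean : ∀ i < M, ∫ η, Y i η ∂(law μ) ≤ C * EE μ s' n := by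
    intro i _
    obtain ⟨hp1, hp2, hp3⟩ := hpiece i
    obtain ⟨hl1, hl2, -⟩ := hlen i
    obtain ⟨l, hl⟩ : ∃ l, l = tt n M (i + 1) - tt n M i := ⟨_, rfl⟩
    obtain ⟨z, hz⟩ : ∃ z, z = zz y n (tt n M (i + 1)) - zz y n (tt n M i) := ⟨_, rfl⟩
    rw [← hl] at hl1 hl2 hp2 hp3
    rw [← hz] at hp1 hp2 hp3
    have h1 : ∫ η, Y i η ∂(law μ) = ep μ s' l z := by
      have hmX : Measurable fun η : Env => max (X μ s' η 0 l z) 0 :=
        ((Sub_X (μ := μ) (s := s') 0 hp1 hp2).1).max measurable_const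
      have h2 := int_sh (μ := μ) ((tt n M i : ℤ), zz y n (tt n M i)) hmX
      unfold ep
      rw [← h2]
      refine integral_congr_ae (Eventually.of_forall fun η => ?_)
      show Y i η = max (X μ s' (sh ((tt n M i : ℤ), zz y n (tt n M i)) η) 0 l z) 0
      rw [X_sh, zero_add, hY, hl, hz]
    rw [h1]
    refine h'.inn n hn0 l z (by omega) hp1 hp2 ?_
    have hv := h'.vA_nonneg n
    have hlr : (0 : ℝ) ≤ l := Nat.cast_nonneg l
    have hc0 := h'.c0
    have h3 : 0 ≤ c * vA 1 μ s' n * l := by positivity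
    rw [hsl]
    linarith
  -- the tails
  have htail : ∀ i < M, (law μ).real {η | b ≤ Y i η} ≤ A * Real.exp (-(a * u ^ g)) := by
    intro i _
    obtain ⟨hp1, hp2, hp3⟩ := hpiece i
    obtain ⟨hl1, hl2, hl3⟩ := hlen i
    obtain ⟨l, hl⟩ : ∃ l, l = tt n M (i + 1) - tt n M i := ⟨_, rfl⟩
    obtain ⟨z, hz⟩ : ∃ z, z = zz y n (tt n M (i + 1)) - zz y n (tt n M i) := ⟨_, rfl⟩
    rw [← hl] at hl1 hl2 hl3 hp2 hp3
    rw [← hz] at hp1 hp2 hp3
    have hlr : (0 : ℝ) < l := by exact_mod_cast hl1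
    have hl1r : (1 : ℝ) ≤ l := by exact_mod_cast hl1
    have h1 := hU l hl1 z hp1 hp2 u hu
    have h2 : {η | b ≤ Y i η} = {η | b ≤ max (X μ s' η ((tt n M i : ℤ), zz y n (tt n M i)) l z) 0} := by
      rw [hY, hl, hz]
    rw [h2, real_X]
    refine le_trans (measureReal_mono (fun η hη => ?_) (measure_ne_top _ _)) h1
    rw [Set.mem_ofPred_eq] at hη ⊢
    have h3 : b ≤ X μ s' η 0 l z := by
      rcases le_max_iff.1 hη with h4 | h4
      · exact h4
      · linarith
    -- the two tilts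
    have h4 := X_ex (μ := μ) s r η 0 hp1 hp2
    rw [← hs'] at h4
    obtain ⟨σ, hσ⟩ : ∃ σ, σ = (y : ℝ) / n - sl μ s := ⟨_, rfl⟩
    rw [← hσ] at hx hJ
    obtain ⟨e0, he0⟩ : ∃ e0 : ℝ, e0 = (z : ℝ) - (y : ℝ) / n * l := ⟨_, rfl⟩
    rw [← he0] at hp3
    have h5 : (z : ℝ) - sl μ s * l = σ * l + e0 := by
      rw [hσ, he0]
      ring
    have h6 : |(z : ℝ) - sl μ s * l| ≤ x * l + 1 := by
      rw [h5]
      refine (abs_add_le _ _).trans (add_le_add ?_ hp3)
      rw [abs_mul, abs_of_pos hlr]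
      exact mul_le_mul_of_nonneg_right hx hlr.le
    have h7 : -(r * ((z : ℝ) - sl μ s * l)) ≤ q * x * l + 1 := by
      have h8 : |r * ((z : ℝ) - sl μ s * l)| ≤ |r| * (x * l + 1) := by
        rw [abs_mul]
        exact mul_le_mul_of_nonneg_left h6 (abs_nonneg r)
      have h9 : |r| * (x * l + 1) ≤ q * x * l + 1 := by
        have h10 : |r| * (x * l) ≤ q * (x * l) := mul_le_mul_of_nonneg_right hrq (by positivity)
        have h11 : q * (x * l) = q * x * l := by ring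
        linarith
      linarith [neg_abs_le (r * ((z : ℝ) - sl μ s * l)), neg_le_abs (r * ((z : ℝ) - sl μ s * l))]
    have h8 : (l : ℝ) * ex μ s r ≤ q * x * l := by
      have h9 : ex μ s r ≤ q * x := by
        have h10 := ex_le_sl h.em h.nd s r
        rw [← hs', hsl, ← hσ] at h10
        refine h10.trans ((le_abs_self _).trans ?_)
        rw [abs_mul]
        exact mul_le_mul hrq hx (abs_nonneg _) hq0
      calc (l : ℝ) * ex μ s r ≤ l * (q * x) := mul_le_mul_of_nonneg_left h9 hlr.le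
        _ = q * x * l := by ring
    have h9 : (l : ℝ) * J μ s (((z : ℝ) - sl μ s * l) / l) ≤ q * x * l + 1 := by
      have hcv := J_convex h.em h.nd s
      have h10 := hcv.2 (Set.mem_univ (2 * σ)) (Set.mem_univ (2 * (e0 / l))) (by norm_num : (0 : ℝ) ≤ 1 / 2)
        (by norm_num : (0 : ℝ) ≤ 1 / 2) (by norm_num)
      simp only [smul_eq_mul] at h10
      have e1 : 1 / 2 * (2 * σ) + 1 / 2 * (2 * (e0 / l)) = ((z : ℝ) - sl μ s * l) / l := by
        rw [h5]
        field_simp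
      rw [e1] at h10
      have h11 := J_le_abs h.em h.nd s (2 * (e0 / l))
      have h12 : |2 * (e0 / l)| ≤ 2 / l := by
        rw [abs_mul, abs_two, abs_div, abs_of_pos hlr, ← mul_div_assoc]
        exact div_le_div_of_nonneg_right (by linarith) hlr.le
      have h13 : J μ s (((z : ℝ) - sl μ s * l) / l) ≤ 1 / 2 * (q * x) + 1 / 2 * (2 / l) := by linarith
      calc (l : ℝ) * J μ s (((z : ℝ) - sl μ s * l) / l) ≤ l * (1 / 2 * (q * x) + 1 / 2 * (2 / l)) :=
            mul_le_mul_of_nonneg_left h13 hlr.le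
        _ = 1 / 2 * (q * x * l) + 1 := by field_simp
        _ ≤ _ := by
          have : 0 ≤ q * x * l := by positivity
          linarith
    have h10 : EE μ s l ≤ EE μ s n := EE_mono hl2
    have h11 : q * x * l ≤ (2 * n / M) * (q * x) := by
      calc q * x * l ≤ q * x * (2 * n / M) := mul_le_mul_of_nonneg_left hl3 (by positivity)
        _ = _ := by ring
    have h12 : C₁ * (EE μ s l + l * J μ s (((z : ℝ) - sl μ s * l) / l)) ≤ C₁ * (EE μ s n + ((2 * n / M) * (q * x) + 1)) :=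
      mul_le_mul_of_nonneg_left (add_le_add h10 (h9.trans (by linarith))) hC₁.le
    have h13 : u * EE μ s l ≤ u * EE μ s n := mul_le_mul_of_nonneg_left h10 hu
    have h14 : 0 ≤ (2 * n / M) * (q * x) := by positivity
    have h15 : b = C₁ * (EE μ s n + ((2 * n / M) * (q * x) + 1)) + u * EE μ s n + 4 * ((2 * n / M) * (q * x)) + 1 := by
      rw [hb]
      ring
    linarith
  have hfin := trunc94 (μ := μ) M Y (fun i => rows (tt n M i) (tt n M (i + 1))) (a := C * EE μ s' n) (b := b) (r := u)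
    (q := A * Real.exp (-(a * u ^ g))) hb0 (fun i _ => (hYS i).1) (fun i _ => hY0 i) (fun i _ => (hYS i).integrable h.em)
    (fun i _ => hYdep i) hdis hmean htail
  refine le_trans (measureReal_mono (fun η hη => ?_) (measure_ne_top _ _)) hfin
  exact le_trans hη (hch η)

end Pool.Agent.W_7d29a1_C1.H94
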