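import Pool.Agent.W_7d29a1_HS.Mom
import Pool.Agent.W_7d29a1_HS.ExitS
import Pool.Agent.W_7d29a1_X.Path89

/-!
[C1] MEET_d, LEAF M5 (helper35; row 683 (5) of helper48): the strip and the negative parts, constants only, every tilt.
`WR_path`: the restricted weights as sums over the paths `S ⊆ range n`. `exit35`: the mean quenched probability to leave the strip of
half width `R wd n` is at most `e` for `R ≥ R₁ (e)`. `neg35`: the negative parts of several lucks.
-/

set_option autoImplicit false

namespace Pool.Agent.W_7d29a1_C1.Exit35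

open MeasureTheory ProbabilityTheory Filter Topology
open Pool.Agent.W_7d29a1_F Pool.Agent.W_7d29a1_h4g Pool.Agent.W_7d29a1_H Pool.Agent.W_7d29a1_HS Pool.Agent.W_7d29a1_X

noncomputable section

variable {μ : Measure ℝ} {s : ℝ}

/-! ### Restricted weights as sums over paths -/

/-- The path `S` from the origin stays in `R` (rows `1, .., n`). -/
def Stay (R : Set Pt) (n : ℕ) (S : Finset ℕ) : Prop := ∀ k < n, ((((k : ℤ) + 1, pos S (k + 1)) : Pt) ∈ R)

theorem WR_succ35 (R : Set Pt) (η : Env) (m : ℕ) (y : ℤ) :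
    WR μ s R η 0 (m + 1) y = R.indicator (fun p => Real.exp (η p)) ((m : ℤ) + 1, y) * Real.exp (-lam μ s) *
      (WR μ s R η 0 m y + Real.exp s * WR μ s R η 0 m (y - 1)) := by
  unfold WR
  rw [Zr_succ89]
  have e0 : (((0 : Pt).1 + ((m : ℤ) + 1), (0 : Pt).2 + y) : Pt) = ((m : ℤ) + 1, y) := by simp
  rw [e0]
  have e1 : Real.exp (s * (y : ℝ) - ((m + 1 : ℕ) : ℝ) * lam μ s) =
      Real.exp (-lam μ s) * Real.exp (s * (y : ℝ) - m * lam μ s) := by
    rw [← Real.exp_add]
    congr 1
    push_cast
    ring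
  have e2 : Real.exp (s * (y : ℝ) - m * lam μ s) =
      Real.exp s * Real.exp (s * ((y - 1 : ℤ) : ℝ) - m * lam μ s) := by
    rw [← Real.exp_add]
    congr 1
    push_cast
    ring
  rw [e1, ← mul_assoc (Real.exp s), ← e2]
  ring

open Classical in
/-- The restricted weight is the sum over the paths which stay in `R`. -/
theorem WR_path (R : Set Pt) (η : Env) (n : ℕ) (y : ℤ) :
    WR μ s R η 0 n y = ∑ S ∈ (Finset.range n).powerset, if pos S n = y ∧ Stay R n S then pth μ s η n S else 0 := by
  induction n generalizing y with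
  | zero =>
    have h1 : WR μ s R η 0 0 y = if y = 0 then 1 else 0 := by
      unfold WR
      rw [Zr_zero89]
      by_cases hy : y = 0
      · subst hy
        simp
      · simp [hy]
    rw [h1, Finset.range_zero, Finset.powerset_empty, Finset.sum_singleton]
    have h2 : Stay R 0 ∅ := fun k hk => absurd hk (Nat.not_lt_zero k)
    have h3 : pos (∅ : Finset ℕ) 0 = 0 := pos_zero _
    have h4 : pth μ s η 0 ∅ = 1 := by
      unfold pth
      simp [pos]
    by_cases hy : y = 0
    · rw [if_pos hy, if_pos ⟨h3.trans hy.symm, h2⟩, h4]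
    · rw [if_neg hy, if_neg fun h => hy (h.1.symm.trans h3)]
  | succ n ih =>
    rw [WR_succ35, ih, ih, Finset.range_add_one, Finset.sum_powerset_insert (by simp)]
    have hst : ∀ S : Finset ℕ, S ⊆ Finset.range n → (Stay R (n + 1) S ↔ Stay R n S ∧ ((((n : ℤ) + 1, pos S n) : Pt) ∈ R)) := by
      intro S hS
      constructor
      · intro h
        refine ⟨fun k hk => h k (by omega), ?_⟩
        have := h n (by omega)
        rwa [pos_succ_of hS] at this
      · rintro ⟨h1, h2⟩ k hk
        rcases Nat.lt_succ_iff_lt_or_eq.1 hk with h3 | h3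
        · exact h1 k h3
        · subst h3
          rwa [pos_succ_of hS]
    have hst' : ∀ S : Finset ℕ, S ⊆ Finset.range n →
        (Stay R (n + 1) (insert n S) ↔ Stay R n S ∧ ((((n : ℤ) + 1, pos S n + 1) : Pt) ∈ R)) := by
      intro S hS
      constructor
      · intro h
        refine ⟨fun k hk => ?_, ?_⟩
        · have := h k (by omega)
          rwa [pos_insert (by omega)] at this
        · have := h n (by omega)
          rwa [pos_insert_succ hS] at this
      · rintro ⟨h1, h2⟩ k hk
        rcases Nat.lt_succ_iff_lt_or_eq.1 hk with h3 | h3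
        · rw [pos_insert (by omega)]
          exact h1 k h3
        · subst h3
          rwa [pos_insert_succ hS]
    have h1 : ∑ S ∈ (Finset.range n).powerset, (if pos S (n + 1) = y ∧ Stay R (n + 1) S then pth μ s η (n + 1) S else 0) =
        R.indicator (fun p => Real.exp (η p)) ((n : ℤ) + 1, y) * Real.exp (-lam μ s) *
          ∑ S ∈ (Finset.range n).powerset, (if pos S n = y ∧ Stay R n S then pth μ s η n S else 0) := by
      rw [Finset.mul_sum]
      refine Finset.sum_congr rfl fun S hS => ?_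
      rw [Finset.mem_powerset] at hS
      rw [pos_succ_of hS, hst S hS]
      by_cases hy : pos S n = y
      · by_cases hR : ((((n : ℤ) + 1, y) : Pt) ∈ R)
        · rw [Set.indicator_of_mem hR]
          by_cases hs : Stay R n S
          · rw [if_pos ⟨hy, hs, by rw [hy]; exact hR⟩, if_pos ⟨hy, hs⟩, pth_succ_of η hS, hy]
          · rw [if_neg fun h => hs h.2.1, if_neg fun h => hs h.2, mul_zero]
        · rw [Set.indicator_of_notMem hR, if_neg fun h => hR (by rw [← hy]; exact h.2.2)]
          ring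
      · rw [if_neg fun h => hy h.1, if_neg fun h => hy h.1, mul_zero]
    have h2 : ∑ S ∈ (Finset.range n).powerset, (if pos (insert n S) (n + 1) = y ∧ Stay R (n + 1) (insert n S) then
          pth μ s η (n + 1) (insert n S) else 0) =
        R.indicator (fun p => Real.exp (η p)) ((n : ℤ) + 1, y) * Real.exp (-lam μ s) *
          (Real.exp s * ∑ S ∈ (Finset.range n).powerset, (if pos S n = y - 1 ∧ Stay R n S then pth μ s η n S else 0)) := by
      rw [Finset.mul_sum, Finset.mul_sum]
      refine Finset.sum_congr rfl fun S hS => ?_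
      rw [Finset.mem_powerset] at hS
      rw [pos_insert_succ hS, hst' S hS]
      by_cases hy : pos S n = y - 1
      · have hy' : pos S n + 1 = y := by omega
        by_cases hR : ((((n : ℤ) + 1, y) : Pt) ∈ R)
        · rw [Set.indicator_of_mem hR]
          by_cases hs : Stay R n S
          · rw [if_pos ⟨hy', hs, by rw [hy']; exact hR⟩, if_pos ⟨hy, hs⟩, pth_succ_insert η hS, hy']
          · rw [if_neg fun h => hs h.2.1, if_neg fun h => hs h.2, mul_zero, mul_zero]
        · rw [Set.indicator_of_notMem hR, if_neg fun h => hR (by rw [← hy']; exact h.2.2)]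
          ring
      · rw [if_neg fun h => hy (by omega), if_neg fun h => hy h.1, mul_zero, mul_zero]
    rw [h1, h2]
    ring

open Classical in
/-- The weight of the strip. -/
theorem cf_path (r : ℝ) (η : Env) (n : ℕ) :
    cf μ s r η 0 n = ∑ S ∈ (Finset.range n).powerset, if Stay (St μ s r 0) n S then pth μ s η n S else 0 := by
  unfold cf
  simp only [WR_path]
  rw [Finset.sum_comm]
  refine Finset.sum_congr rfl fun S _ => ?_
  have h1 : pos S n ∈ Finset.Icc (0 : ℤ) n := Finset.mem_Icc.2 ⟨pos_nonneg _ _, pos_le _ _⟩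
  by_cases hs : Stay (St μ s r 0) n S
  · rw [if_pos hs, Finset.sum_eq_single_of_mem _ h1 fun b _ hb => if_neg fun h => hb h.1.symm, if_pos ⟨rfl, hs⟩]
  · rw [if_neg hs]
    exact Finset.sum_eq_zero fun y _ => if_neg fun h => hs h.2

theorem measurable_pth35 (n : ℕ) (S : Finset ℕ) : Measurable fun η : Env => pth μ s η n S := by
  unfold pth
  refine Measurable.const_mul ?_ _
  exact Finset.measurable_prod _ fun i _ => Real.measurable_exp.comp (measurable_pi_apply _)

theorem measurable_cf35 (r : ℝ) (n : ℕ) : Measurable fun η : Env => cf μ s r η 0 n := by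
  classical
  simp only [cf_path]
  refine Finset.measurable_sum _ fun S _ => ?_
  by_cases hs : Stay (St μ s r 0) n S
  · simp only [if_pos hs]
    exact measurable_pth35 n S
  · simp only [if_neg hs]
    exact measurable_const

theorem cf_nonneg35 (r : ℝ) (η : Env) (n : ℕ) : 0 ≤ cf μ s r η 0 n := by
  classical
  rw [cf_path]
  refine Finset.sum_nonneg fun S _ => ?_
  split_ifs
  · exact pth_nonneg _ _ _
  · exact le_rfl

theorem sum_pth_all (η : Env) (n : ℕ) : ∑ S ∈ (Finset.range n).powerset, pth μ s η n S = Real.exp (V μ s η 0 n) := by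
  have h := GS_sum (μ := μ) (s := s) η n
  unfold GS at h
  rw [← Finset.sum_div, div_eq_one_iff_eq (Real.exp_pos _).ne'] at h
  exact h

theorem cf_le35 (r : ℝ) (η : Env) (n : ℕ) : cf μ s r η 0 n ≤ Real.exp (V μ s η 0 n) := by
  classical
  rw [cf_path, ← sum_pth_all]
  refine Finset.sum_le_sum fun S _ => ?_
  split_ifs
  · exact le_rfl
  · exact pth_nonneg _ _ _

open Classical in
/-- **The quenched probability to leave the strip.** -/
theorem exit_path (r : ℝ) (η : Env) (n : ℕ) :
    (∑ S ∈ (Finset.range n).powerset, if ¬ Stay (St μ s r 0) n S then GS μ s η n S else 0) =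
      1 - cf μ s r η 0 n / Real.exp (V μ s η 0 n) := by
  have hV := Real.exp_pos (V μ s η 0 n)
  have h1 : ∀ S : Finset ℕ, (if ¬ Stay (St μ s r 0) n S then GS μ s η n S else 0) =
      (pth μ s η n S - if Stay (St μ s r 0) n S then pth μ s η n S else 0) / Real.exp (V μ s η 0 n) := by
    intro S
    unfold GS
    by_cases hs : Stay (St μ s r 0) n S
    · rw [if_neg (not_not.2 hs), if_pos hs, sub_self, zero_div]
    · rw [if_pos hs, if_neg hs, sub_zero]
  simp only [h1]
  rw [← Finset.sum_div, Finset.sum_sub_distrib, ← cf_path, sum_pth_all, sub_div, div_self hV.ne']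

/-! ### The exit from the strip -/

variable [IsProbabilityMeasure μ] {c C : ℝ} {n₀ : ℕ}

/-- **EXIT**: the mean quenched probability to leave the strip of half width `R wd n`. -/
theorem exit35 (h : In μ s c C n₀) : ∀ e : ℝ, 0 < e → ∃ R₁ : ℝ, 1 ≤ R₁ ∧ ∃ n₁ : ℕ, ∀ R : ℝ, R₁ ≤ R → ∀ n, n₁ ≤ n →
    ∫ η, (1 - cf μ s (R * wd μ s n) η 0 n / Real.exp (V μ s η 0 n)) ∂(law μ) ≤ e := by
  intro e he
  have hc0 := h.c0
  have hC0 : 0 < C := lt_of_lt_of_le one_pos h.C1
  obtain ⟨R0, hR01, hR0c, n1, hn1, hex⟩ := exit_main h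
  obtain ⟨A, hA⟩ := tail_V h 1
  have hA0 : 0 ≤ A := by
    have h1 := hA 1 le_rfl 1 le_rfl
    rw [one_pow, div_one] at h1
    exact measureReal_nonneg.trans h1
  -- the three errors tend to zero
  have t1 : Tendsto (fun R : ℝ => Real.exp (-(c / 64 * R))) atTop (𝓝 0) := by
    refine Real.tendsto_exp_neg_atTop_nhds_zero.comp ?_
    exact tendsto_id.const_mul_atTop (by positivity)
  have t2 : Tendsto (fun R : ℝ => 4 * (C * Real.exp (-(c * R / (16 * C))))) atTop (𝓝 0) := by
    have h2 : Tendsto (fun R : ℝ => c * R / (16 * C)) atTop atTop := by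
      have h3 : (fun R : ℝ => c * R / (16 * C)) = fun R : ℝ => (c / (16 * C)) * R := by
        funext R
        ring
      rw [h3]
      exact tendsto_id.const_mul_atTop (by positivity)
    have h4 := (Real.tendsto_exp_neg_atTop_nhds_zero.comp h2).const_mul (4 * C)
    rw [mul_zero] at h4
    refine h4.congr fun R => ?_
    show 4 * C * Real.exp (-(c * R / (16 * C))) = _
    ring
  have t3 : Tendsto (fun R : ℝ => A / (c * R / 16) ^ 1) atTop (𝓝 0) := by
    have h2 : Tendsto (fun R : ℝ => (c * R / 16) ^ 1) atTop atTop := by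
      have h3 : (fun R : ℝ => (c * R / 16) ^ 1) = fun R : ℝ => (c / 16) * R := by
        funext R
        ring
      rw [h3]
      exact tendsto_id.const_mul_atTop (by positivity)
    exact h2.const_div_atTop A
  obtain ⟨r1, h1⟩ := eventually_atTop.1 (t1.eventually_le_const (show (0 : ℝ) < e / 3 by positivity))
  obtain ⟨r2, h2⟩ := eventually_atTop.1 (t2.eventually_le_const (show (0 : ℝ) < e / 3 by positivity))
  obtain ⟨r3, h3⟩ := eventually_atTop.1 (t3.eventually_le_const (show (0 : ℝ) < e / 3 by positivity))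
  refine ⟨max R0 (max r1 (max r2 r3)), hR01.trans (le_max_left _ _), n1, fun R hR n hn => ?_⟩
  have hRR0 : R0 ≤ R := (le_max_left _ _).trans hR
  have hRr1 : r1 ≤ R := (le_max_left _ _).trans ((le_max_right _ _).trans hR)
  have hRr2 : r2 ≤ R := (le_max_left _ _).trans ((le_max_right _ _).trans ((le_max_right _ _).trans hR))
  have hRr3 : r3 ≤ R := (le_max_right _ _).trans ((le_max_right _ _).trans ((le_max_right _ _).trans hR))
  have hR0' : 0 < R := by linarith
  have hE1 := one_le_EE (μ := μ) (s := s) n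
  obtain ⟨B, hB⟩ : ∃ B : Set Env, B = {η | Real.exp (-(c / 64 * R * EE μ s n)) * Real.exp (V μ s η 0 n) ≤
        Real.exp (V μ s η 0 n) - cf μ s (R * wd μ s n) η 0 n} := ⟨_, rfl⟩
  have hmcf : Measurable fun η : Env => cf μ s (R * wd μ s n) η 0 n := measurable_cf35 _ _
  have hmV : Measurable fun η : Env => V μ s η 0 n := measurable_V 0 n
  have mB : MeasurableSet B := by
    rw [hB]
    exact measurableSet_le ((Real.measurable_exp.comp hmV).const_mul _) ((Real.measurable_exp.comp hmV).sub hmcf)
  have hcf0 : ∀ η : Env, 0 ≤ cf μ s (R * wd μ s n) η 0 n := fun η => cf_nonneg35 _ _ _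
  have hcfV : ∀ η : Env, cf μ s (R * wd μ s n) η 0 n ≤ Real.exp (V μ s η 0 n) := fun η => cf_le35 _ _ _
  have hpt : ∀ η : Env, 1 - cf μ s (R * wd μ s n) η 0 n / Real.exp (V μ s η 0 n) ≤
      Real.exp (-(c / 64 * R)) + B.indicator (fun _ => (1 : ℝ)) η := by
    intro η
    have hV := Real.exp_pos (V μ s η 0 n)
    by_cases hη : η ∈ B
    · rw [Set.indicator_of_mem hη]
      have h4 : 0 ≤ cf μ s (R * wd μ s n) η 0 n / Real.exp (V μ s η 0 n) := div_nonneg (hcf0 η) hV.le
      have h5 := Real.exp_pos (-(c / 64 * R))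
      linarith
    · rw [Set.indicator_of_notMem hη, add_zero]
      rw [hB, Set.mem_ofPred_eq, not_le] at hη
      have h4 : 1 - cf μ s (R * wd μ s n) η 0 n / Real.exp (V μ s η 0 n) =
          (Real.exp (V μ s η 0 n) - cf μ s (R * wd μ s n) η 0 n) / Real.exp (V μ s η 0 n) := by
        rw [sub_div, div_self hV.ne']
      rw [h4, div_le_iff₀ hV]
      refine hη.le.trans (mul_le_mul_of_nonneg_right (Real.exp_le_exp.2 ?_) hV.le)
      have h5 : c / 64 * R * 1 ≤ c / 64 * R * EE μ s n := mul_le_mul_of_nonneg_left hE1 (by positivity)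
      linarith
  have hint : Integrable (fun η : Env => 1 - cf μ s (R * wd μ s n) η 0 n / Real.exp (V μ s η 0 n)) (law μ) := by
    refine Integrable.of_bound ((measurable_const.sub (hmcf.div (Real.measurable_exp.comp hmV))).aestronglyMeasurable) 1
      (ae_of_all _ fun η => ?_)
    have hV := Real.exp_pos (V μ s η 0 n)
    have h4 : 0 ≤ cf μ s (R * wd μ s n) η 0 n / Real.exp (V μ s η 0 n) := div_nonneg (hcf0 η) hV.le
    have h5 : cf μ s (R * wd μ s n) η 0 n / Real.exp (V μ s η 0 n) ≤ 1 := (div_le_one hV).2 (hcfV η)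
    rw [Real.norm_eq_abs, abs_le]
    constructor <;> linarith
  have h4 := integral_mono hint ((integrable_const (Real.exp (-(c / 64 * R)))).add ((integrable_const (1 : ℝ)).indicator mB)) hpt
  refine h4.trans ?_
  have h5 : ∫ η, ((fun _ : Env => Real.exp (-(c / 64 * R))) + B.indicator (fun _ => (1 : ℝ))) η ∂(law μ) =
      Real.exp (-(c / 64 * R)) + (law μ).real B := by
    show ∫ η, (Real.exp (-(c / 64 * R)) + B.indicator (fun _ => (1 : ℝ)) η) ∂(law μ) = _
    rw [integral_add (integrable_const _) ((integrable_const (1 : ℝ)).indicator mB), integral_indicator_const _ mB]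
    simp
  rw [h5]
  have h6 := hex n hn R hRR0
  rw [← hB] at h6
  have h7 := hA n (hn1.trans hn) (c * R / 16) (hR0c R hRR0)
  have h8 := h1 R hRr1
  have h9 := h2 R hRr2
  have h10 := h3 R hRr3
  linarith

/-! ### The negative parts -/

/-- **NEGATIVE PARTS** of the lucks of several starts (Markov). -/
theorem neg35 (hEM : Pool.Agent.W_7d29a1_h47.EM μ) (n : ℕ) {ι : Type*} (I : Finset ι) (a : ι → Pt) {u : ℝ} (hu : 0 < u) :
    (law μ).real {η | u * EE μ s n ≤ ∑ i ∈ I, max (-V μ s η (a i) n) 0} ≤ I.card / u := by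
  have hE := EE_pos (μ := μ) (s := s) n
  have hsub : ∀ b : Pt, Sub fun η : Env => max (-V μ s η b n) 0 := fun b =>
    (Sub_V (μ := μ) (s := s) b n).neg.max (Sub.const 0)
  have h1 : ∀ b : Pt, ∫ η, max (-V μ s η b n) 0 ∂(law μ) ≤ EE μ s n := by
    intro b
    have h2 := Pool.Agent.W_7d29a1_f21.mp_integral (mp_sh (μ := μ) b)
      (F := fun η : Env => max (-V μ s η 0 n) 0) (hsub 0).1.aestronglyMeasurable
    have h3 : ∫ η, max (-V μ s η b n) 0 ∂(law μ) = ∫ η, max (-V μ s η 0 n) 0 ∂(law μ) := by
      rw [← h2]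
      refine integral_congr_ae (Filter.Eventually.of_forall fun η => ?_)
      show max (-V μ s η b n) 0 = max (-V μ s (sh b η) 0 n) 0
      rw [V_sh, zero_add]
    rw [h3]
    exact mean_neg_V (μ := μ) (s := s) hEM (le_refl n)
  have hint : Integrable (fun η : Env => ∑ i ∈ I, max (-V μ s η (a i) n) 0) (law μ) :=
    integrable_finsetSum _ fun i _ => (hsub (a i)).integrable hEM
  have h2 := mul_meas_ge_le_integral_of_nonneg (μ := law μ) (f := fun η : Env => ∑ i ∈ I, max (-V μ s η (a i) n) 0)
    (ae_of_all _ fun η => Finset.sum_nonneg fun i _ => le_max_right _ _) hint (u * EE μ s n)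
  have h3 : ∫ η, ∑ i ∈ I, max (-V μ s η (a i) n) 0 ∂(law μ) ≤ I.card * EE μ s n := by
    rw [integral_finsetSum _ fun i _ => (hsub (a i)).integrable hEM]
    calc ∑ i ∈ I, ∫ η, max (-V μ s η (a i) n) 0 ∂(law μ) ≤ ∑ _i ∈ I, EE μ s n := Finset.sum_le_sum fun i _ => h1 _
      _ = I.card * EE μ s n := by rw [Finset.sum_const, nsmul_eq_mul]
  rw [le_div_iff₀ hu]
  have h4 : u * EE μ s n * (law μ).real {η | u * EE μ s n ≤ ∑ i ∈ I, max (-V μ s η (a i) n) 0} ≤ I.card * EE μ s n :=
    h2.trans h3
  have h5 : EE μ s n * ((law μ).real {η | u * EE μ s n ≤ ∑ i ∈ I, max (-V μ s η (a i) n) 0} * u) ≤ EE μ s n * I.card := by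
    linarith
  exact le_of_mul_le_mul_left h5 hE

end

end Pool.Agent.W_7d29a1_C1.Exit35
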