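import Pool.Agent.W_7d29a1_C1.Arr89
import Pool.Agent.W_7d29a1_C1.Exit35

/-!
[C1] MEET_d (row 683): arrows and the tube (helper35), over `Arr89` of helper89.
`arr_conf`: inequality (A) with the tube `lo k ≤ x + ps S k ≤ hi k`: the exit of the outer paths comes before the minimum.
`PX_GS`: the chain of the quenched transition probabilities `pq` is the free polymer, `PX (pq ..) x T S = GS μ s (sh (0, x) η) T S`.
-/

set_option autoImplicit false

namespace Pool.Agent.W_7d29a1_C1.Arr35

open Finset Pool.Agent.W_7d29a1_C1.Arr89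
open Pool.Agent.W_7d29a1_F
open Pool.Agent.W_7d29a1_X (pos pth GS)

noncomputable section

/-! ### The tube -/

/-- The path from `x` stays between `lo` and `hi`. -/
def Tube (lo hi : ℕ → ℝ) (T : ℕ) (x : ℤ) (S : Finset ℕ) : Prop :=
  ∀ k ≤ T, lo k ≤ ((x + ps S k : ℤ) : ℝ) ∧ ((x + ps S k : ℤ) : ℝ) ≤ hi k

section

variable {κ : Type*} [Fintype κ] [DecidableEq κ]

open Classical in
/-- The sum over the tuples without a common site which satisfy `Q`. -/
def qQ (π : ℕ → ℤ → ℝ) (T : ℕ) (x : κ → ℤ) (Q : (κ → Finset ℕ) → Prop) : ℝ :=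
  ∑ S ∈ (Tup T x).filter Q, ∏ i, PX π (x i) T (S i)

open Classical in
/-- `qQ` is an arrow probability. -/
theorem qQ_eq (π : ℕ → ℤ → ℝ) {T : ℕ} {a b : ℤ} {x : κ → ℤ} (ha : ∀ i, a ≤ x i) (hb : ∀ i, x i + T ≤ b)
    (Q : (κ → Finset ℕ) → Prop) :
    qQ π T x Q = ∑ R ∈ (Bx T a b).powerset, wt π (Bx T a b) R *
      (if (∀ i j, i ≠ j → NI T (x i) (x j) (pa R (x i) T) (pa R (x j) T)) ∧ Q (fun i => pa R (x i) T) then 1 else 0) := by
  unfold qQ
  rw [sum_congr rfl fun S hS => (tup_prob π ha hb (mem_filter.1 hS).1).symm, sum_comm]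
  refine sum_congr rfl fun R _ => ?_
  rw [← mul_sum]
  congr 1
  by_cases h : (∀ i j, i ≠ j → NI T (x i) (x j) (pa R (x i) T) (pa R (x j) T)) ∧ Q (fun i => pa R (x i) T)
  · rw [if_pos h, sum_eq_single (fun i => pa R (x i) T)]
    · rw [if_pos (fun _ => rfl)]
    · intro S _ hne
      rw [if_neg]
      intro h2
      exact hne (funext fun i => (h2 i).symm)
    · intro h2
      exact absurd (mem_filter.2 ⟨mem_Tup.2 ⟨fun i => pa_subset _ _ _, h.1⟩, h.2⟩) h2
  · rw [if_neg h]
    refine sum_eq_zero fun S hS => if_neg fun h2 => h ?_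
    have h3 : (fun i => pa R (x i) T) = S := funext h2
    obtain ⟨hS1, hS2⟩ := mem_filter.1 hS
    refine ⟨fun i j hij => ?_, by rw [h3]; exact hS2⟩
    rw [h2 i, h2 j]
    exact (mem_Tup.1 hS1).2 i j hij

end

open Classical in
/-- The probability that the path from `x` satisfies `Q`. -/
def pQ (π : ℕ → ℤ → ℝ) (T : ℕ) (x : ℤ) (Q : Finset ℕ → Prop) : ℝ := ∑ S ∈ (range T).powerset.filter Q, PX π x T S

open Classical in
theorem pQ_eq (π : ℕ → ℤ → ℝ) {T : ℕ} {a b : ℤ} {x : ℤ} (ha : a ≤ x) (hb : x + T ≤ b) (Q : Finset ℕ → Prop) :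
    pQ π T x Q = ∑ R ∈ (Bx T a b).powerset, wt π (Bx T a b) R * (if Q (pa R x T) then 1 else 0) := by
  have h1 := qQ_eq (κ := Unit) π (T := T) (a := a) (b := b) (x := fun _ => x) (fun _ => ha) (fun _ => hb) fun S => Q (S ())
  have h2 : qQ π T (fun _ : Unit => x) (fun S => Q (S ())) = pQ π T x Q := by
    unfold qQ pQ
    refine sum_nbij' (fun S => S ()) (fun S _ => S) ?_ ?_ ?_ ?_ ?_
    · intro S hS
      obtain ⟨h3, h4⟩ := mem_filter.1 hS
      exact mem_filter.2 ⟨mem_powerset.2 ((mem_Tup.1 h3).1 ()), h4⟩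
    · intro S hS
      obtain ⟨h3, h4⟩ := mem_filter.1 hS
      refine mem_filter.2 ⟨mem_Tup.2 ⟨fun _ => mem_powerset.1 h3, fun i j hij => absurd (Subsingleton.elim i j) hij⟩, h4⟩
    · intro S _
      rfl
    · intro S _
      rfl
    · intro S _
      simp
  rw [← h2, h1]
  refine sum_congr rfl fun R _ => ?_
  congr 1
  refine if_congr ?_ rfl rfl
  exact ⟨fun h => h.2, fun h => ⟨fun i j hij => absurd (Subsingleton.elim i j) hij, h⟩⟩

open Classical in
/-- **Inequality (A) with a tube**: the exits of the two outer paths come before the minimum. -/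
theorem arr_conf {π : ℕ → ℤ → ℝ} (h0 : ∀ k y, 0 ≤ π k y) (h1 : ∀ k y, π k y ≤ 1) (T N M : ℕ) {x : ℕ → ℤ}
    (hx : Monotone x) (lo hi : ℕ → ℝ) :
    ∑ j ∈ range M, qT π T (fun i : Fin 2 => x (j + i)) ≤
      N + M * ((pQ π T (x 0) (fun S => ∃ k ≤ T, ((x 0 + ps S k : ℤ) : ℝ) < lo k) +
        pQ π T (x M) (fun S => ∃ k ≤ T, hi k < ((x M + ps S k : ℤ) : ℝ))) +
        min 1 (∑ I ∈ powersetCard N (range M), qQ π T (fun i : I => x i) fun S => ∀ i : I, Tube lo hi T (x i) (S i))) := by
  have ha : ∀ j ≤ M, x 0 ≤ x j := fun j _ => hx (Nat.zero_le j)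
  have hb : ∀ j ≤ M, x j + T ≤ x M + T := fun j hj => by have := hx hj; omega
  set B := Bx T (x 0) (x M + T) with hB
  let dis : Finset (ℕ × ℤ) → ℕ → Prop := fun R j => NI T (x j) (x (j + 1)) (pa R (x j) T) (pa R (x (j + 1)) T)
  have e1 : ∑ j ∈ range M, qT π T (fun i : Fin 2 => x (j + i)) =
      ∑ R ∈ B.powerset, wt π B R * (((range M).filter fun j => dis R j).card : ℝ) := by
    have e2 : ∀ j ∈ range M, qT π T (fun i : Fin 2 => x (j + i)) =
        ∑ R ∈ B.powerset, wt π B R * (if dis R j then 1 else 0) := by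
      intro j hj
      rw [mem_range] at hj
      rw [qT_eq (a := x 0) (b := x M + T) π]
      · refine sum_congr rfl fun R _ => ?_
        congr 1
        have hPQ : (∀ i k : Fin 2, i ≠ k → NI T (x (j + i)) (x (j + k)) (pa R (x (j + i)) T)
            (pa R (x (j + k)) T)) ↔ dis R j := by
          constructor
          · intro h
            have := h 0 1 (by decide)
            simpa using this
          · intro h i k hik
            fin_cases i <;> fin_cases k
            · exact absurd rfl hik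
            · exact h
            · exact h.symm
            · exact absurd rfl hik
        by_cases hQ : dis R j
        · rw [if_pos hQ, if_pos (hPQ.2 hQ)]
        · rw [if_neg hQ, if_neg (fun h => hQ (hPQ.1 h))]
      · intro i
        exact ha _ (by have := i.2; omega)
      · intro i
        exact hb _ (by have := i.2; omega)
    rw [sum_congr rfl e2, sum_comm]
    refine sum_congr rfl fun R _ => ?_
    rw [← mul_sum, card_filter]
    push_cast
    rfl
  have hord : ∀ R : Finset (ℕ × ℤ), ∀ I ⊆ (range M).filter fun j => dis R j, ∀ i ∈ I, ∀ j ∈ I, i ≠ j →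
      NI T (x i) (x j) (pa R (x i) T) (pa R (x j) T) := by
    intro R I hI
    have hlt : ∀ i ∈ I, ∀ j ∈ I, i < j → NI T (x i) (x j) (pa R (x i) T) (pa R (x j) T) := by
      intro i hi j _ hij k hk
      have h2 := (mem_filter.1 (hI hi)).2 k hk
      rw [pos_pa R _ hk, pos_pa R _ hk] at h2
      rw [pos_pa R _ hk, pos_pa R _ hk]
      have h3 : flow R (x i) k ≤ flow R (x (i + 1)) k := flow_mono R (hx (Nat.le_succ i)) k
      have h4 : flow R (x (i + 1)) k ≤ flow R (x j) k := flow_mono R (hx hij) k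
      omega
    intro i hi j hj hij
    rcases lt_or_gt_of_ne hij with h | h
    · exact hlt i hi j hj h
    · exact (hlt j hj i hi h).symm
  -- the good event of a set of indices
  let G : Finset (ℕ × ℤ) → Finset ℕ → Prop := fun R I =>
    (∀ i j : I, i ≠ j → NI T (x i) (x j) (pa R (x i) T) (pa R (x j) T)) ∧ ∀ i : I, Tube lo hi T (x i) (pa R (x i) T)
  let LL : Finset (ℕ × ℤ) → Prop := fun R => ∃ k ≤ T, ((x 0 + ps (pa R (x 0) T) k : ℤ) : ℝ) < lo k
  let HH : Finset (ℕ × ℤ) → Prop := fun R => ∃ k ≤ T, hi k < ((x M + ps (pa R (x M) T) k : ℤ) : ℝ)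
  have e3 : ∑ I ∈ powersetCard N (range M), qQ π T (fun i : I => x i) (fun S => ∀ i : I, Tube lo hi T (x i) (S i)) =
      ∑ R ∈ B.powerset, wt π B R * ∑ I ∈ powersetCard N (range M), (if G R I then 1 else 0) := by
    have e4 : ∀ I ∈ powersetCard N (range M), qQ π T (fun i : I => x i) (fun S => ∀ i : I, Tube lo hi T (x i) (S i)) =
        ∑ R ∈ B.powerset, wt π B R * (if G R I then 1 else 0) := by
      intro I hI
      have hI' := (mem_powersetCard.1 hI).1
      rw [qQ_eq (κ := I) (a := x 0) (b := x M + T) (x := fun i : I => x i) π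
        (fun i : I => ha i (mem_range.1 (hI' i.2)).le) (fun i : I => hb i (mem_range.1 (hI' i.2)).le)
        (fun S => ∀ i : I, Tube lo hi T (x i) (S i))]
      refine sum_congr rfl fun R _ => ?_
      congr 1
      by_cases h : G R I
      · exact (if_pos h).trans (if_pos h).symm
      · exact (if_neg h).trans (if_neg h).symm
    rw [sum_congr rfl e4, sum_comm]
    refine sum_congr rfl fun R _ => ?_
    rw [← mul_sum]
  have eL : pQ π T (x 0) (fun S => ∃ k ≤ T, ((x 0 + ps S k : ℤ) : ℝ) < lo k) =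
      ∑ R ∈ B.powerset, wt π B R * (if LL R then 1 else 0) := by
    rw [pQ_eq π le_rfl (hb 0 (Nat.zero_le M))]
    refine sum_congr rfl fun R _ => ?_
    congr 1
    by_cases h : LL R
    · exact (if_pos h).trans (if_pos h).symm
    · exact (if_neg h).trans (if_neg h).symm
  have eH : pQ π T (x M) (fun S => ∃ k ≤ T, hi k < ((x M + ps S k : ℤ) : ℝ)) =
      ∑ R ∈ B.powerset, wt π B R * (if HH R then 1 else 0) := by
    rw [pQ_eq π (ha M le_rfl) le_rfl]
    refine sum_congr rfl fun R _ => ?_
    congr 1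
    by_cases h : HH R
    · exact (if_pos h).trans (if_pos h).symm
    · exact (if_neg h).trans (if_neg h).symm
  -- pointwise
  have e5 : ∀ R : Finset (ℕ × ℤ), (((range M).filter fun j => dis R j).card : ℝ) ≤
      N + M * (((if LL R then (1 : ℝ) else 0) + (if HH R then 1 else 0)) +
        min 1 (∑ I ∈ powersetCard N (range M), (if G R I then (1 : ℝ) else 0))) := by
    intro R
    set D := (range M).filter fun j => dis R j with hD
    have hDM : (D.card : ℝ) ≤ M := by
      have h2 := card_le_card (filter_subset (fun j => dis R j) (range M))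
      rw [card_range] at h2
      exact_mod_cast h2
    have hs0 : 0 ≤ ∑ I ∈ powersetCard N (range M), (if G R I then (1 : ℝ) else 0) :=
      sum_nonneg fun I _ => by split_ifs <;> norm_num
    have hM0 : (0 : ℝ) ≤ M := Nat.cast_nonneg M
    have hN0 : (0 : ℝ) ≤ N := Nat.cast_nonneg N
    have hm0 : 0 ≤ min 1 (∑ I ∈ powersetCard N (range M), (if G R I then (1 : ℝ) else 0)) := le_min zero_le_one hs0
    have hL0 : 0 ≤ (if LL R then (1 : ℝ) else 0) := by split_ifs <;> norm_num
    have hH0 : 0 ≤ (if HH R then (1 : ℝ) else 0) := by split_ifs <;> norm_num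
    by_cases hc : N ≤ D.card
    · suffices hone : 1 ≤ ((if LL R then (1 : ℝ) else 0) + (if HH R then 1 else 0)) +
          min 1 (∑ I ∈ powersetCard N (range M), (if G R I then (1 : ℝ) else 0)) by
        have h2 := mul_le_mul_of_nonneg_left hone hM0
        linarith
      by_cases hLR : LL R
      · rw [if_pos hLR]
        linarith
      by_cases hHR : HH R
      · rw [if_pos hHR]
        linarith
      obtain ⟨I, hI, hIc⟩ := exists_subset_card_eq hc
      have hIM : I ⊆ range M := hI.trans (filter_subset _ _)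
      have hG : G R I := by
        refine ⟨fun i j hij => hord R I hI i i.2 j j.2 fun h => hij (Subtype.ext h), fun i k hk => ?_⟩
        have hiM : (i : ℕ) ≤ M := (mem_range.1 (hIM i.2)).le
        rw [pos_pa R _ hk]
        constructor
        · by_contra h2
          push Not at h2
          refine hLR ⟨k, hk, lt_of_le_of_lt ?_ h2⟩
          rw [pos_pa R _ hk]
          exact_mod_cast flow_mono R (ha i hiM) k
        · by_contra h2
          push Not at h2
          refine hHR ⟨k, hk, lt_of_lt_of_le h2 ?_⟩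
          rw [pos_pa R _ hk]
          exact_mod_cast flow_mono R (hx hiM) k
      have h2 : (1 : ℝ) ≤ ∑ I ∈ powersetCard N (range M), (if G R I then (1 : ℝ) else 0) := by
        have h3 := single_le_sum (s := powersetCard N (range M)) (a := I)
          (f := fun I : Finset ℕ => (if G R I then (1 : ℝ) else 0)) (fun I _ => by
            split_ifs <;> norm_num)
          (mem_powersetCard.2 ⟨hIM, hIc⟩)
        refine le_trans (le_of_eq ?_) h3
        rw [if_pos hG]
      rw [min_eq_left h2]
      linarith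
    · push Not at hc
      have h2 : (D.card : ℝ) ≤ N := by exact_mod_cast hc.le
      have h3 : 0 ≤ (M : ℝ) * (((if LL R then (1 : ℝ) else 0) + (if HH R then 1 else 0)) +
        min 1 (∑ I ∈ powersetCard N (range M), (if G R I then (1 : ℝ) else 0))) := mul_nonneg hM0 (by linarith)
      linarith
  have hw : ∀ R, 0 ≤ wt π B R := fun R => wt_nonneg h0 h1 B R
  have hM0 : (0 : ℝ) ≤ M := Nat.cast_nonneg M
  rw [e1, e3, eL, eH]
  calc ∑ R ∈ B.powerset, wt π B R * (((range M).filter fun j => dis R j).card : ℝ)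
      ≤ ∑ R ∈ B.powerset, wt π B R * (N + M * (((if LL R then (1 : ℝ) else 0) + (if HH R then 1 else 0)) +
        min 1 (∑ I ∈ powersetCard N (range M), (if G R I then (1 : ℝ) else 0)))) :=
        sum_le_sum fun R _ => mul_le_mul_of_nonneg_left (e5 R) (hw R)
    _ = N + M * ((∑ R ∈ B.powerset, wt π B R * (if LL R then 1 else 0) +
          ∑ R ∈ B.powerset, wt π B R * (if HH R then 1 else 0)) +
        ∑ R ∈ B.powerset, wt π B R * min 1 (∑ I ∈ powersetCard N (range M), (if G R I then (1 : ℝ) else 0))) := by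
        have h2 : ∀ R ∈ B.powerset, wt π B R * (N + M * (((if LL R then (1 : ℝ) else 0) + (if HH R then 1 else 0)) +
            min 1 (∑ I ∈ powersetCard N (range M), (if G R I then (1 : ℝ) else 0)))) =
            wt π B R * N + M * ((wt π B R * (if LL R then 1 else 0) + wt π B R * (if HH R then 1 else 0)) +
              wt π B R * min 1 (∑ I ∈ powersetCard N (range M), (if G R I then (1 : ℝ) else 0))) := fun R _ => by ring
        rw [sum_congr rfl h2, sum_add_distrib, ← sum_mul, wt_sum, one_mul, ← mul_sum, sum_add_distrib, sum_add_distrib]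
    _ ≤ _ := by
        refine add_le_add le_rfl (mul_le_mul_of_nonneg_left (add_le_add le_rfl ?_) hM0)
        refine le_min ?_ ?_
        · calc _ ≤ ∑ R ∈ B.powerset, wt π B R * 1 :=
              sum_le_sum fun R _ => mul_le_mul_of_nonneg_left (min_le_left _ _) (hw R)
            _ = 1 := by simp only [mul_one]; exact wt_sum π B
        · exact sum_le_sum fun R _ => mul_le_mul_of_nonneg_left (min_le_right _ _) (hw R)

/-! ### The quenched chain -/

variable {μ : MeasureTheory.Measure ℝ} {s : ℝ}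

/-- The first step of the free polymer. -/
theorem exp_V_first (η : Env) (a : Pt) (m : ℕ) :
    Real.exp (V μ s η a (m + 1)) =
      Real.exp (-lam μ s + η (a.1 + 1, a.2)) * Real.exp (V μ s η (a.1 + 1, a.2) m) +
        Real.exp (s - lam μ s + η (a.1 + 1, a.2 + 1)) * Real.exp (V μ s η (a.1 + 1, a.2 + 1) m) := by
  rw [add_comm m 1, exp_V_add]
  have e0 : Finset.Icc (0 : ℤ) ((1 : ℕ) : ℤ) = {0, 1} := by
    ext i
    rw [Finset.mem_Icc, Finset.mem_insert, Finset.mem_singleton]
    omega
  rw [e0, Finset.sum_pair (by norm_num)]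
  have h1 : W μ s η a 1 0 = Real.exp (-lam μ s + η (a.1 + 1, a.2)) := by
    have h2 := Pool.Agent.W_7d29a1_X.W_succ (μ := μ) (s := s) η a 0 0
    have h3 : W μ s η a 0 0 = 1 := by
      unfold W WR
      rw [Pool.Agent.W_7d29a1_X.Zr_zero89]
      simp
    have h4 : W μ s η a 0 (0 - 1) = 0 := by
      unfold W WR
      rw [Pool.Agent.W_7d29a1_X.Zr_zero89]
      simp
    rw [zero_add] at h2
    rw [h2, h3, h4, Real.exp_add]
    simp
    ring
  have h1' : W μ s η a 1 1 = Real.exp (s - lam μ s + η (a.1 + 1, a.2 + 1)) := by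
    have h2 := Pool.Agent.W_7d29a1_X.W_succ (μ := μ) (s := s) η a 0 1
    have h3 : W μ s η a 0 1 = 0 := by
      unfold W WR
      rw [Pool.Agent.W_7d29a1_X.Zr_zero89]
      simp
    have h4 : W μ s η a 0 (1 - 1) = 1 := by
      unfold W WR
      rw [Pool.Agent.W_7d29a1_X.Zr_zero89]
      simp
    rw [zero_add] at h2
    rw [h2, h3, h4, Real.exp_add, Real.exp_sub, Real.exp_neg]
    simp
    ring
  rw [h1, h1']
  simp

/-- The quenched transition probability (step `(1, 1)`) of the free polymer of length `T`. -/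
def pq (μ : MeasureTheory.Measure ℝ) (s : ℝ) (η : Env) (T k : ℕ) (y : ℤ) : ℝ :=
  if k < T then Real.exp (s - lam μ s + η ((k : ℤ) + 1, y + 1)) * Real.exp (V μ s η ((k : ℤ) + 1, y + 1) (T - (k + 1))) /
    Real.exp (V μ s η ((k : ℤ), y) (T - k)) else 0

theorem one_sub_pq (η : Env) {T k : ℕ} (hk : k < T) (y : ℤ) :
    1 - pq μ s η T k y = Real.exp (-lam μ s + η ((k : ℤ) + 1, y)) *
      Real.exp (V μ s η ((k : ℤ) + 1, y) (T - (k + 1))) / Real.exp (V μ s η ((k : ℤ), y) (T - k)) := by
  unfold pq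
  rw [if_pos hk]
  have h1 := exp_V_first (μ := μ) (s := s) η ((k : ℤ), y) (T - (k + 1))
  have e1 : T - (k + 1) + 1 = T - k := by omega
  rw [e1] at h1
  have h2 := Real.exp_pos (V μ s η ((k : ℤ), y) (T - k))
  rw [eq_div_iff h2.ne', sub_mul, one_mul, div_mul_cancel₀ _ h2.ne', h1]
  simp

theorem pq_nonneg (η : Env) (T k : ℕ) (y : ℤ) : 0 ≤ pq μ s η T k y := by
  unfold pq
  split_ifs
  · positivity
  · exact le_rfl

theorem pq_le_one (η : Env) (T k : ℕ) (y : ℤ) : pq μ s η T k y ≤ 1 := by
  by_cases hk : k < T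
  · have h1 := one_sub_pq (μ := μ) (s := s) η hk y
    have h2 : 0 ≤ 1 - pq μ s η T k y := by
      rw [h1]
      positivity
    linarith
  · unfold pq
    rw [if_neg hk]
    exact zero_le_one

/-- **The quenched chain is the free polymer.** -/
theorem PX_GS (η : Env) (x : ℤ) (T : ℕ) {S : Finset ℕ} (hS : S ⊆ range T) :
    PX (pq μ s η T) x T S = GS μ s (sh (0, x) η) T S := by
  classical
  -- one factor per row
  have h1 : PX (pq μ s η T) x T S = ∏ k ∈ range T,
      (if k ∈ S then pq μ s η T k (x + ps S k) else 1 - pq μ s η T k (x + ps S k)) := by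
    unfold PX
    rw [Finset.prod_ite, Finset.filter_mem_eq_inter, Finset.inter_eq_right.2 hS]
    congr 1
    refine Finset.prod_congr ?_ fun _ _ => rfl
    ext k
    rw [Finset.mem_filter, Finset.mem_sdiff]
  have h2 : ∀ k ∈ range T, (if k ∈ S then pq μ s η T k (x + ps S k) else 1 - pq μ s η T k (x + ps S k)) =
      (Real.exp ((if k ∈ S then s else 0) - lam μ s) * Real.exp (η ((k : ℤ) + 1, x + ps S (k + 1)))) *
        (Real.exp (V μ s η (((k + 1 : ℕ) : ℤ), x + ps S (k + 1)) (T - (k + 1))) /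
          Real.exp (V μ s η ((k : ℤ), x + ps S k) (T - k))) := by
    intro k hk
    rw [Finset.mem_range] at hk
    rw [ps_succ]
    by_cases h3 : k ∈ S
    · simp only [if_pos h3]
      unfold pq
      rw [if_pos hk, Real.exp_add]
      push_cast
      rw [← add_assoc]
      ring
    · simp only [if_neg h3]
      rw [one_sub_pq η hk, Real.exp_add, add_zero, zero_sub]
      push_cast
      ring
  rw [h1, Finset.prod_congr rfl h2, Finset.prod_mul_distrib, Finset.prod_mul_distrib]
  have h3 : ∏ k ∈ range T, (Real.exp (V μ s η (((k + 1 : ℕ) : ℤ), x + ps S (k + 1)) (T - (k + 1))) /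
      Real.exp (V μ s η ((k : ℤ), x + ps S k) (T - k))) =
      Real.exp (V μ s η ((T : ℤ), x + ps S T) (T - T)) / Real.exp (V μ s η (((0 : ℕ) : ℤ), x + ps S 0) (T - 0)) := by
    have h9 : ∀ m ≤ T, ∏ k ∈ range m, (Real.exp (V μ s η (((k + 1 : ℕ) : ℤ), x + ps S (k + 1)) (T - (k + 1))) /
        Real.exp (V μ s η ((k : ℤ), x + ps S k) (T - k))) =
        Real.exp (V μ s η ((m : ℤ), x + ps S m) (T - m)) / Real.exp (V μ s η (((0 : ℕ) : ℤ), x + ps S 0) (T - 0)) := by
      intro m
      induction m with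
      | zero =>
        intro _
        rw [Finset.prod_range_zero]
        exact (div_self (Real.exp_ne_zero _)).symm
      | succ m ih =>
        intro hm
        rw [Finset.prod_range_succ, ih (Nat.le_of_succ_le hm)]
        have h10 : Real.exp (V μ s η ((m : ℤ), x + ps S m) (T - m)) ≠ 0 := Real.exp_ne_zero _
        field_simp
    exact h9 T le_rfl
  have h4 : V μ s η ((T : ℤ), x + ps S T) (T - T) = 0 := by
    rw [Nat.sub_self]
    unfold V WS
    have e1 : Finset.Icc (0 : ℤ) ((0 : ℕ) : ℤ) = {0} := by simp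
    rw [e1, Finset.sum_singleton]
    unfold W WR
    rw [Pool.Agent.W_7d29a1_X.Zr_zero89]
    simp
  have h5 : ∏ k ∈ range T, Real.exp ((if k ∈ S then s else 0) - lam μ s) = Real.exp (s * (ps S T : ℝ) - T * lam μ s) := by
    rw [← Real.exp_sum, Finset.sum_sub_distrib, Finset.sum_const, Finset.card_range, nsmul_eq_mul]
    congr 2
    rw [← Finset.sum_filter, Finset.filter_mem_eq_inter, Finset.sum_const, nsmul_eq_mul]
    unfold ps
    rw [Finset.inter_comm]
    push_cast
    ring
  rw [h3, h4, h5, Real.exp_zero, ps_zero, add_zero, Nat.sub_zero]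
  have h6 : V μ s (sh (0, x) η) 0 T = V μ s η (((0 : ℕ) : ℤ), x) T := by
    rw [V_sh, zero_add]
    rfl
  unfold GS pth
  rw [h6]
  have h7 : ∏ i ∈ range T, Real.exp (sh (0, x) η ((i : ℤ) + 1, pos S (i + 1))) =
      ∏ k ∈ range T, Real.exp (η ((k : ℤ) + 1, x + ps S (k + 1))) := by
    refine Finset.prod_congr rfl fun k _ => ?_
    congr 1
    show η (((k : ℤ) + 1, pos S (k + 1)) + (0, x)) = _
    congr 1
    refine Prod.ext ?_ ?_
    · show (k : ℤ) + 1 + 0 = (k : ℤ) + 1
      ring
    · show pos S (k + 1) + x = x + ps S (k + 1)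
      rw [add_comm]
      rfl
  rw [h7]
  show _ = Real.exp (s * (ps S T : ℝ) - T * lam μ s) * _ / _
  ring

end

end Pool.Agent.W_7d29a1_C1.Arr35
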