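import Mathlib

/-!
Both halves (MP_7d29a1_pr), attractor route, MEET_d (row 683, section (1)): ARROWS, abstract. (helper89)

Sites `(k, y) : ℕ × ℤ`, `k < T`; a configuration of arrows is the finite set `R` of the sites with a right arrow, independent,
probability `π k y`. A path of length `T` is the set `S ⊆ range T` of its up steps, `ps S k` = number of up steps before `k`.
`PX π x T S` is the probability of the path `S` from `x` (the chain with transition probabilities `π`). Paths which do not meet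
use different arrows, so `qI` (sum over the non intersecting tuples of the products) is the arrow probability of no meeting, and
the number of `j` with `path j`, `path (j+1)` disjoint gives inequality (A): `arr_main`.
-/

set_option autoImplicit false

namespace Pool.Agent.W_7d29a1_C1.Arr89

open Finset

noncomputable section

/-- The number of up steps before `t`. -/
def ps (S : Finset ℕ) (t : ℕ) : ℤ := ((S ∩ range t).card : ℤ)

lemma ps_zero (S : Finset ℕ) : ps S 0 = 0 := by simp [ps]

lemma ps_succ (S : Finset ℕ) (t : ℕ) : ps S (t + 1) = ps S t + if t ∈ S then 1 else 0 := by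
  unfold ps
  rw [range_add_one]
  by_cases h : t ∈ S
  · rw [if_pos h, inter_insert_of_mem h, card_insert_of_notMem (by simp)]
    push_cast
    ring
  · rw [if_neg h, inter_insert_of_notMem h, add_zero]

lemma ps_nonneg (S : Finset ℕ) (t : ℕ) : 0 ≤ ps S t := Int.natCast_nonneg _

lemma ps_le (S : Finset ℕ) (t : ℕ) : ps S t ≤ t := by
  unfold ps
  have h := card_le_card (inter_subset_right : S ∩ range t ⊆ range t)
  rw [card_range] at h
  exact_mod_cast h

/-- The flow of the arrows. -/
def flow (R : Finset (ℕ × ℤ)) (x : ℤ) : ℕ → ℤ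
  | 0 => x
  | k + 1 => flow R x k + if (k, flow R x k) ∈ R then 1 else 0

/-- The path from `x`. -/
def pa (R : Finset (ℕ × ℤ)) (x : ℤ) (T : ℕ) : Finset ℕ := (range T).filter fun k => (k, flow R x k) ∈ R

lemma pa_subset (R : Finset (ℕ × ℤ)) (x : ℤ) (T : ℕ) : pa R x T ⊆ range T := filter_subset _ _

lemma pos_pa (R : Finset (ℕ × ℤ)) (x : ℤ) {T k : ℕ} (hk : k ≤ T) : x + ps (pa R x T) k = flow R x k := by
  induction k with
  | zero => simp [ps_zero, flow]
  | succ k ih =>
    rw [ps_succ, ← add_assoc, ih (by omega)]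
    have h : (k ∈ pa R x T) ↔ (k, flow R x k) ∈ R := by
      unfold pa
      rw [mem_filter, mem_range]
      exact ⟨fun h => h.2, fun h => ⟨by omega, h⟩⟩
    simp only [flow, h]

lemma pa_eq_iff {R : Finset (ℕ × ℤ)} {x : ℤ} {T : ℕ} {S : Finset ℕ} (hS : S ⊆ range T) :
    pa R x T = S ↔ ∀ k < T, ((k, x + ps S k) ∈ R ↔ k ∈ S) := by
  constructor
  · rintro rfl k hk
    rw [pos_pa R x hk.le]
    unfold pa
    rw [mem_filter, mem_range]
    exact ⟨fun h => ⟨hk, h⟩, fun h => h.2⟩
  · intro h
    have h1 : ∀ k ≤ T, flow R x k = x + ps S k := by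
      intro k
      induction k with
      | zero => intro _; simp [ps_zero, flow]
      | succ k ih =>
        intro hk
        simp only [flow]
        rw [ih (by omega), ps_succ]
        have h2 := h k (by omega)
        by_cases h3 : k ∈ S
        · rw [if_pos h3, if_pos (h2.2 h3)]; ring
        · rw [if_neg h3, if_neg (fun h4 => h3 (h2.1 h4))]; ring
    ext k
    unfold pa
    rw [mem_filter, mem_range]
    constructor
    · rintro ⟨hk, h3⟩
      rw [h1 k hk.le] at h3
      exact (h k hk).1 h3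
    · intro hk
      have hk' := mem_range.1 (hS hk)
      refine ⟨hk', ?_⟩
      rw [h1 k hk'.le]
      exact (h k hk').2 hk

/-- The order is kept. -/
lemma flow_mono (R : Finset (ℕ × ℤ)) {x x' : ℤ} (h : x ≤ x') (k : ℕ) : flow R x k ≤ flow R x' k := by
  induction k with
  | zero => exact h
  | succ k ih =>
    simp only [flow]
    rcases ih.eq_or_lt with h1 | h1
    · rw [h1]
    · split_ifs <;> omega

/-- The weight of a configuration of arrows on `B`. -/
def wt (π : ℕ → ℤ → ℝ) (B R : Finset (ℕ × ℤ)) : ℝ :=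
  (∏ v ∈ R, π v.1 v.2) * ∏ v ∈ B \ R, (1 - π v.1 v.2)

lemma wt_nonneg {π : ℕ → ℤ → ℝ} (h0 : ∀ k y, 0 ≤ π k y) (h1 : ∀ k y, π k y ≤ 1) (B R : Finset (ℕ × ℤ)) :
    0 ≤ wt π B R :=
  mul_nonneg (prod_nonneg fun v _ => h0 _ _) (prod_nonneg fun v _ => sub_nonneg.2 (h1 _ _))

lemma wt_sum (π : ℕ → ℤ → ℝ) (B : Finset (ℕ × ℤ)) : ∑ R ∈ B.powerset, wt π B R = 1 := by
  unfold wt
  rw [← Finset.prod_add]
  simp

/-- The cylinders. -/
lemma cyl (π : ℕ → ℤ → ℝ) {B C1 C0 : Finset (ℕ × ℤ)} (h1 : C1 ⊆ B) (h0 : C0 ⊆ B) (hd : Disjoint C1 C0) :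
    ∑ R ∈ B.powerset, wt π B R * (if C1 ⊆ R ∧ Disjoint C0 R then 1 else 0) =
      (∏ v ∈ C1, π v.1 v.2) * ∏ v ∈ C0, (1 - π v.1 v.2) := by
  have h2 : ∀ R ∈ B.powerset, wt π B R * (if C1 ⊆ R ∧ Disjoint C0 R then 1 else 0) =
      (∏ v ∈ R, (if v ∈ C0 then 0 else π v.1 v.2)) *
        ∏ v ∈ B \ R, (if v ∈ C1 then 0 else 1 - π v.1 v.2) := by
    intro R hR
    rw [mem_powerset] at hR
    by_cases ha : Disjoint C0 R
    · have e1 : ∏ v ∈ R, (if v ∈ C0 then (0 : ℝ) else π v.1 v.2) = ∏ v ∈ R, π v.1 v.2 :=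
        prod_congr rfl fun v hv => if_neg fun h => disjoint_left.1 ha h hv
      by_cases hb : C1 ⊆ R
      · have e2 : ∏ v ∈ B \ R, (if v ∈ C1 then (0 : ℝ) else 1 - π v.1 v.2) =
            ∏ v ∈ B \ R, (1 - π v.1 v.2) :=
          prod_congr rfl fun v hv => if_neg fun h => (mem_sdiff.1 hv).2 (hb h)
        rw [if_pos ⟨hb, ha⟩, mul_one, e1, e2]
        rfl
      · rw [if_neg (fun h => hb h.1), mul_zero]
        obtain ⟨v, hv1, hvR⟩ := not_subset.1 hb
        have e : ∏ w ∈ B \ R, (if w ∈ C1 then (0 : ℝ) else 1 - π w.1 w.2) = 0 :=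
          prod_eq_zero (mem_sdiff.2 ⟨h1 hv1, hvR⟩) (by rw [if_pos hv1])
        rw [e, mul_zero]
    · rw [if_neg (fun h => ha h.2), mul_zero]
      obtain ⟨v, hv0, hvR⟩ := not_disjoint_iff.1 ha
      have e : ∏ w ∈ R, (if w ∈ C0 then (0 : ℝ) else π w.1 w.2) = 0 :=
        prod_eq_zero hvR (by rw [if_pos hv0])
      rw [e, zero_mul]
  rw [sum_congr rfl h2, ← Finset.prod_add]
  have h3 : ∀ v ∈ B, ((if v ∈ C0 then (0 : ℝ) else π v.1 v.2) + (if v ∈ C1 then 0 else 1 - π v.1 v.2)) =
      (if v ∈ C1 then π v.1 v.2 else 1) * (if v ∈ C0 then 1 - π v.1 v.2 else 1) := by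
    intro v _
    by_cases hv1 : v ∈ C1
    · have hv0 : v ∉ C0 := disjoint_left.1 hd hv1
      simp [hv1, hv0]
    · by_cases hv0 : v ∈ C0
      · simp [hv1, hv0]
      · simp [hv1, hv0]
  rw [prod_congr rfl h3, prod_mul_distrib]
  congr 1
  · rw [← prod_filter]
    refine prod_congr ?_ fun _ _ => rfl
    ext v
    rw [mem_filter]
    exact ⟨fun h => h.2, fun h => ⟨h1 h, h⟩⟩
  · rw [← prod_filter]
    refine prod_congr ?_ fun _ _ => rfl
    ext v
    rw [mem_filter]
    exact ⟨fun h => h.2, fun h => ⟨h0 h, h⟩⟩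

/-- The probability of the path `S` from `x`. -/
def PX (π : ℕ → ℤ → ℝ) (x : ℤ) (T : ℕ) (S : Finset ℕ) : ℝ :=
  (∏ k ∈ S, π k (x + ps S k)) * ∏ k ∈ range T \ S, (1 - π k (x + ps S k))

/-- The paths `S` from `x` and `S'` from `x'` have no common site in the rows `0, ..., T`. -/
def NI (T : ℕ) (x x' : ℤ) (S S' : Finset ℕ) : Prop := ∀ k ≤ T, x + ps S k ≠ x' + ps S' k

instance (T : ℕ) (x x' : ℤ) (S S' : Finset ℕ) : Decidable (NI T x x' S S') := by
  unfold NI; infer_instance

lemma NI.symm {T : ℕ} {x x' : ℤ} {S S' : Finset ℕ} (h : NI T x x' S S') : NI T x' x S' S :=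
  fun k hk => (h k hk).symm

variable {κ : Type*} [Fintype κ] [DecidableEq κ]

/-- The tuples of paths (from `x i`) without a common site. -/
def Tup (T : ℕ) (x : κ → ℤ) : Finset (κ → Finset ℕ) :=
  open Classical in
  (Fintype.piFinset fun _ : κ => (range T).powerset).filter fun S =>
    ∀ i j, i ≠ j → NI T (x i) (x j) (S i) (S j)

lemma mem_Tup {T : ℕ} {x : κ → ℤ} {S : κ → Finset ℕ} :
    S ∈ Tup T x ↔ (∀ i, S i ⊆ range T) ∧ ∀ i j, i ≠ j → NI T (x i) (x j) (S i) (S j) := by
  classical
  unfold Tup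
  rw [mem_filter, Fintype.mem_piFinset]
  simp only [mem_powerset]

/-- The box of the sites. -/
def Bx (T : ℕ) (a b : ℤ) : Finset (ℕ × ℤ) := range T ×ˢ Icc a b

/-- The up sites and the down sites of a path. -/
def up (x : ℤ) (S : Finset ℕ) : Finset (ℕ × ℤ) := S.image fun k => (k, x + ps S k)

def dn (T : ℕ) (x : ℤ) (S : Finset ℕ) : Finset (ℕ × ℤ) := (range T \ S).image fun k => (k, x + ps S k)

lemma mem_up {x : ℤ} {S : Finset ℕ} {v : ℕ × ℤ} : v ∈ up x S ↔ v.1 ∈ S ∧ v.2 = x + ps S v.1 := by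
  unfold up
  rw [mem_image]
  constructor
  · rintro ⟨k, hk, rfl⟩; exact ⟨hk, rfl⟩
  · rintro ⟨h1, h2⟩; exact ⟨v.1, h1, by rw [← h2]⟩

lemma mem_dn {T : ℕ} {x : ℤ} {S : Finset ℕ} {v : ℕ × ℤ} :
    v ∈ dn T x S ↔ (v.1 < T ∧ v.1 ∉ S) ∧ v.2 = x + ps S v.1 := by
  unfold dn
  rw [mem_image]
  constructor
  · rintro ⟨k, hk, rfl⟩
    rw [mem_sdiff, mem_range] at hk
    exact ⟨hk, rfl⟩
  · rintro ⟨h1, h2⟩
    exact ⟨v.1, by rw [mem_sdiff, mem_range]; exact h1, by rw [← h2]⟩

/-- The arrow probability of a tuple of disjoint paths is the product. -/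
lemma tup_prob (π : ℕ → ℤ → ℝ) {T : ℕ} {a b : ℤ} {x : κ → ℤ} (ha : ∀ i, a ≤ x i) (hb : ∀ i, x i + T ≤ b)
    {S : κ → Finset ℕ} (hS : S ∈ Tup T x) :
    ∑ R ∈ (Bx T a b).powerset, wt π (Bx T a b) R * (if ∀ i, pa R (x i) T = S i then 1 else 0) =
      ∏ i, PX π (x i) T (S i) := by
  obtain ⟨hS1, hS2⟩ := mem_Tup.1 hS
  have hB : ∀ i k, k < T → (k, x i + ps (S i) k) ∈ Bx T a b := by
    intro i k hk
    unfold Bx
    rw [mem_product, mem_range, mem_Icc]
    have h1 := ps_nonneg (S i) k
    have h2 := ps_le (S i) k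
    have h3 := ha i
    have h4 := hb i
    have h5 : (k : ℤ) < T := by exact_mod_cast hk
    exact ⟨hk, by simp only; omega, by simp only; omega⟩
  have hsep : ∀ i j (k : ℕ) (y : ℤ), k < T → y = x i + ps (S i) k → y = x j + ps (S j) k → i = j := by
    intro i j k y hk h1 h2
    by_contra hij
    exact hS2 i j hij k hk.le (h1.symm.trans h2)
  have hU : (univ.biUnion fun i => up (x i) (S i)) ⊆ Bx T a b := by
    intro v hv
    rw [mem_biUnion] at hv
    obtain ⟨i, _, hv⟩ := hv
    rw [mem_up] at hv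
    have := hB i v.1 (mem_range.1 (hS1 i hv.1))
    rw [← hv.2] at this
    exact this
  have hD : (univ.biUnion fun i => dn T (x i) (S i)) ⊆ Bx T a b := by
    intro v hv
    rw [mem_biUnion] at hv
    obtain ⟨i, _, hv⟩ := hv
    rw [mem_dn] at hv
    have := hB i v.1 hv.1.1
    rw [← hv.2] at this
    exact this
  have hdis : Disjoint (univ.biUnion fun i => up (x i) (S i)) (univ.biUnion fun i => dn T (x i) (S i)) := by
    rw [disjoint_left]
    intro v hv hv'
    rw [mem_biUnion] at hv hv'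
    obtain ⟨i, _, hv⟩ := hv
    obtain ⟨j, _, hv'⟩ := hv'
    rw [mem_up] at hv
    rw [mem_dn] at hv'
    have hij := hsep i j v.1 v.2 hv'.1.1 hv.2 hv'.2
    subst hij
    exact hv'.1.2 hv.1
  have hev : ∀ R : Finset (ℕ × ℤ), (∀ i, pa R (x i) T = S i) ↔
      ((univ.biUnion fun i => up (x i) (S i)) ⊆ R ∧ Disjoint (univ.biUnion fun i => dn T (x i) (S i)) R) := by
    intro R
    constructor
    · intro h
      constructor
      · intro v hv
        rw [mem_biUnion] at hv
        obtain ⟨i, _, hv⟩ := hv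
        rw [mem_up] at hv
        have h1 := (pa_eq_iff (hS1 i)).1 (h i) v.1 (mem_range.1 (hS1 i hv.1))
        have h2 := h1.2 hv.1
        rw [← hv.2] at h2
        exact h2
      · rw [disjoint_left]
        intro v hv hvR
        rw [mem_biUnion] at hv
        obtain ⟨i, _, hv⟩ := hv
        rw [mem_dn] at hv
        have h1 := (pa_eq_iff (hS1 i)).1 (h i) v.1 hv.1.1
        rw [← hv.2] at h1
        exact hv.1.2 (h1.1 hvR)
    · rintro ⟨h1, h2⟩ i
      rw [pa_eq_iff (hS1 i)]
      intro k hk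
      constructor
      · intro h3
        by_contra h4
        refine disjoint_left.1 h2 ?_ h3
        rw [mem_biUnion]
        exact ⟨i, mem_univ _, mem_dn.2 ⟨⟨hk, h4⟩, rfl⟩⟩
      · intro h3
        refine h1 ?_
        rw [mem_biUnion]
        exact ⟨i, mem_univ _, mem_up.2 ⟨h3, rfl⟩⟩
  have h0 : ∀ R ∈ (Bx T a b).powerset, wt π (Bx T a b) R * (if ∀ i, pa R (x i) T = S i then (1 : ℝ) else 0) =
      wt π (Bx T a b) R * (if (univ.biUnion fun i => up (x i) (S i)) ⊆ R ∧
        Disjoint (univ.biUnion fun i => dn T (x i) (S i)) R then 1 else 0) := by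
    intro R _
    congr 1
    exact if_congr (hev R) rfl rfl
  rw [sum_congr rfl h0, cyl π hU hD hdis, prod_biUnion, prod_biUnion, ← prod_mul_distrib]
  · refine prod_congr rfl fun i _ => ?_
    unfold PX up dn
    rw [prod_image (fun k _ l _ h => (Prod.ext_iff.1 h).1), prod_image (fun k _ l _ h => (Prod.ext_iff.1 h).1)]
  · intro i _ j _ hij
    rw [Function.onFun, disjoint_left]
    intro v hv hv'
    rw [mem_dn] at hv hv'
    exact hij (hsep i j v.1 v.2 hv.1.1 hv.2 hv'.2)
  · intro i _ j _ hij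
    rw [Function.onFun, disjoint_left]
    intro v hv hv'
    rw [mem_up] at hv hv'
    exact hij (hsep i j v.1 v.2 (mem_range.1 (hS1 i hv.1)) hv.2 hv'.2)

/-- `q`: the sum over the tuples without a common site of the products. -/
def qT (π : ℕ → ℤ → ℝ) (T : ℕ) (x : κ → ℤ) : ℝ := ∑ S ∈ Tup T x, ∏ i, PX π (x i) T (S i)

/-- `q` is the arrow probability that the paths have no common site. -/
lemma qT_eq (π : ℕ → ℤ → ℝ) {T : ℕ} {a b : ℤ} {x : κ → ℤ} (ha : ∀ i, a ≤ x i) (hb : ∀ i, x i + T ≤ b) :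
    qT π T x = ∑ R ∈ (Bx T a b).powerset, wt π (Bx T a b) R *
      (if ∀ i j, i ≠ j → NI T (x i) (x j) (pa R (x i) T) (pa R (x j) T) then 1 else 0) := by
  classical
  unfold qT
  rw [sum_congr rfl fun S hS => (tup_prob π ha hb hS).symm, sum_comm]
  refine sum_congr rfl fun R _ => ?_
  rw [← mul_sum]
  congr 1
  by_cases h : ∀ i j, i ≠ j → NI T (x i) (x j) (pa R (x i) T) (pa R (x j) T)
  · rw [if_pos h, sum_eq_single (fun i => pa R (x i) T)]
    · rw [if_pos (fun _ => rfl)]
    · intro S _ hne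
      rw [if_neg]
      intro h2
      exact hne (funext fun i => (h2 i).symm)
    · intro h2
      exact absurd (mem_Tup.2 ⟨fun i => pa_subset _ _ _, h⟩) h2
  · rw [if_neg h]
    refine sum_eq_zero fun S hS => if_neg fun h2 => h ?_
    intro i j hij
    rw [h2 i, h2 j]
    exact (mem_Tup.1 hS).2 i j hij

/-- **Inequality (A).** `x` is non decreasing on `{0, ..., M}`; `p_j` = the probability that the paths from `x j` and `x (j + 1)`
have no common site. -/
theorem arr_main {π : ℕ → ℤ → ℝ} (h0 : ∀ k y, 0 ≤ π k y) (h1 : ∀ k y, π k y ≤ 1) (T N M : ℕ) {x : ℕ → ℤ}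
    (hx : Monotone x) :
    ∑ j ∈ range M, qT π T (fun i : Fin 2 => x (j + i)) ≤
      N + M * min 1 (∑ I ∈ powersetCard N (range M), qT π T fun i : I => x i) := by
  classical
  have ha : ∀ j ≤ M, x 0 ≤ x j := fun j _ => hx (Nat.zero_le j)
  have hb : ∀ j ≤ M, x j + T ≤ x M + T := fun j hj => by have := hx hj; omega
  set B := Bx T (x 0) (x M + T) with hB
  -- the number of neighbours without a common site
  let dis : Finset (ℕ × ℤ) → ℕ → Prop := fun R j => NI T (x j) (x (j + 1)) (pa R (x j) T) (pa R (x (j + 1)) T)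
  have e1 : ∑ j ∈ range M, qT π T (fun i : Fin 2 => x (j + i)) =
      ∑ R ∈ B.powerset, wt π B R * (((range M).filter fun j => dis R j).card : ℝ) := by
    have e2 : ∀ j ∈ range M, qT π T (fun i : Fin 2 => x (j + i)) =
        ∑ R ∈ B.powerset, wt π B R * (if dis R j then 1 else 0) := by
      intro j hj
      rw [mem_range] at hj
      rw [qT_eq (a := x 0) (b := x M + T) π]
      · refine sum_congr rfl fun R _ => ?_
        congr 1
        have hPQ : (∀ i k : Fin 2, i ≠ k → NI T (x (j + i)) (x (j + k)) (pa R (x (j + i)) T)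
            (pa R (x (j + k)) T)) ↔ dis R j := by
          constructor
          · intro h
            have := h 0 1 (by decide)
            simpa using this
          · intro h i k hik
            fin_cases i <;> fin_cases k
            · exact absurd rfl hik
            · exact h
            · exact h.symm
            · exact absurd rfl hik
        by_cases hQ : dis R j
        · rw [if_pos hQ, if_pos (hPQ.2 hQ)]
        · rw [if_neg hQ, if_neg (fun h => hQ (hPQ.1 h))]
      · intro i
        exact ha _ (by have := i.2; omega)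
      · intro i
        exact hb _ (by have := i.2; omega)
    rw [sum_congr rfl e2, sum_comm]
    refine sum_congr rfl fun R _ => ?_
    rw [← mul_sum, card_filter]
    push_cast
    rfl
  -- the order
  have hord : ∀ R : Finset (ℕ × ℤ), ∀ I ⊆ (range M).filter fun j => dis R j, ∀ i ∈ I, ∀ j ∈ I, i ≠ j →
      NI T (x i) (x j) (pa R (x i) T) (pa R (x j) T) := by
    intro R I hI
    have hlt : ∀ i ∈ I, ∀ j ∈ I, i < j → NI T (x i) (x j) (pa R (x i) T) (pa R (x j) T) := by
      intro i hi j _ hij k hk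
      have h2 := (mem_filter.1 (hI hi)).2 k hk
      rw [pos_pa R _ hk, pos_pa R _ hk] at h2
      rw [pos_pa R _ hk, pos_pa R _ hk]
      have h3 : flow R (x i) k ≤ flow R (x (i + 1)) k := flow_mono R (hx (Nat.le_succ i)) k
      have h4 : flow R (x (i + 1)) k ≤ flow R (x j) k := flow_mono R (hx hij) k
      omega
    intro i hi j hj hij
    rcases lt_or_gt_of_ne hij with h | h
    · exact hlt i hi j hj h
    · exact (hlt j hj i hi h).symm
  have e3 : ∑ I ∈ powersetCard N (range M), qT π T (fun i : I => x i) =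
      ∑ R ∈ B.powerset, wt π B R * ∑ I ∈ powersetCard N (range M),
        (if ∀ i j : I, i ≠ j → NI T (x i) (x j) (pa R (x i) T) (pa R (x j) T) then 1 else 0) := by
    have e4 : ∀ I ∈ powersetCard N (range M), qT π T (fun i : I => x i) =
        ∑ R ∈ B.powerset, wt π B R *
        (if ∀ i j : I, i ≠ j → NI T (x i) (x j) (pa R (x i) T) (pa R (x j) T) then 1 else 0) := by
      intro I hI
      have hI' := (mem_powersetCard.1 hI).1
      rw [qT_eq (a := x 0) (b := x M + T) π]
      · intro i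
        exact ha _ (by have := mem_range.1 (hI' i.2); omega)
      · intro i
        exact hb _ (by have := mem_range.1 (hI' i.2); omega)
    rw [sum_congr rfl e4, sum_comm]
    refine sum_congr rfl fun R _ => ?_
    rw [← mul_sum]
  -- pointwise
  have e5 : ∀ R : Finset (ℕ × ℤ), (((range M).filter fun j => dis R j).card : ℝ) ≤
      N + M * min 1 (∑ I ∈ powersetCard N (range M),
        (if ∀ i j : I, i ≠ j → NI T (x i) (x j) (pa R (x i) T) (pa R (x j) T) then (1 : ℝ) else 0)) := by
    intro R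
    set D := (range M).filter fun j => dis R j with hD
    have hDM : (D.card : ℝ) ≤ M := by
      have h2 := card_le_card (filter_subset (fun j => dis R j) (range M))
      rw [card_range] at h2
      exact_mod_cast h2
    have hs0 : 0 ≤ ∑ I ∈ powersetCard N (range M),
        (if ∀ i j : I, i ≠ j → NI T (x i) (x j) (pa R (x i) T) (pa R (x j) T) then (1 : ℝ) else 0) :=
      sum_nonneg fun I _ => by split_ifs <;> norm_num
    by_cases hc : N ≤ D.card
    · obtain ⟨I, hI, hIc⟩ := exists_subset_card_eq hc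
      have h2 : (1 : ℝ) ≤ ∑ I ∈ powersetCard N (range M),
          (if ∀ i j : I, i ≠ j → NI T (x i) (x j) (pa R (x i) T) (pa R (x j) T) then (1 : ℝ) else 0) := by
        have h3 := single_le_sum (s := powersetCard N (range M)) (a := I)
          (f := fun I : Finset ℕ => (if ∀ i j : I, i ≠ j → NI T (x i) (x j) (pa R (x i) T) (pa R (x j) T)
            then (1 : ℝ) else 0)) (fun I _ => by split_ifs <;> norm_num)
          (mem_powersetCard.2 ⟨hI.trans (filter_subset _ _), hIc⟩)
        refine le_trans (le_of_eq ?_) h3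
        rw [if_pos]
        intro i j hij
        exact hord R I hI i i.2 j j.2 fun h => hij (Subtype.ext h)
      rw [min_eq_left h2]
      have : (0 : ℝ) ≤ N := Nat.cast_nonneg N
      linarith
    · push Not at hc
      have h2 : (D.card : ℝ) ≤ N := by exact_mod_cast hc.le
      have h3 : 0 ≤ (M : ℝ) * min 1 (∑ I ∈ powersetCard N (range M),
        (if ∀ i j : I, i ≠ j → NI T (x i) (x j) (pa R (x i) T) (pa R (x j) T) then (1 : ℝ) else 0)) :=
        mul_nonneg (Nat.cast_nonneg M) (le_min zero_le_one hs0)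
      linarith
  have hw : ∀ R, 0 ≤ wt π B R := fun R => wt_nonneg h0 h1 B R
  rw [e1, e3]
  calc ∑ R ∈ B.powerset, wt π B R * (((range M).filter fun j => dis R j).card : ℝ)
      ≤ ∑ R ∈ B.powerset, wt π B R * (N + M * min 1 (∑ I ∈ powersetCard N (range M),
        (if ∀ i j : I, i ≠ j → NI T (x i) (x j) (pa R (x i) T) (pa R (x j) T) then (1 : ℝ) else 0))) :=
        sum_le_sum fun R _ => mul_le_mul_of_nonneg_left (e5 R) (hw R)
    _ = N + M * ∑ R ∈ B.powerset, wt π B R * min 1 (∑ I ∈ powersetCard N (range M),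
        (if ∀ i j : I, i ≠ j → NI T (x i) (x j) (pa R (x i) T) (pa R (x j) T) then (1 : ℝ) else 0)) := by
        simp only [mul_add]
        rw [sum_add_distrib, ← sum_mul, wt_sum, one_mul, mul_sum]
        congr 1
        refine sum_congr rfl fun R _ => ?_
        ring
    _ ≤ _ := by
        gcongr
        refine le_min ?_ ?_
        · calc _ ≤ ∑ R ∈ B.powerset, wt π B R * 1 :=
              sum_le_sum fun R _ => mul_le_mul_of_nonneg_left (min_le_left _ _) (hw R)
            _ = 1 := by simp only [mul_one]; exact wt_sum π B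
        · exact sum_le_sum fun R _ => mul_le_mul_of_nonneg_left (min_le_right _ _) (hw R)

end

end Pool.Agent.W_7d29a1_C1.Arr89
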