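import Pool.Agent.W_7d29a1_C1.Arr35

/-!
[C1] MEET_d (row 683): arrows for a MONOTONE FAMILY of transition probabilities (helper56), over `Arr89` of helper89.

One uniform variable `U v` per site `v`; the path number `j` goes up at `v` iff `U v ≤ π j v`, where `π j v` is non decreasing in `j`.
So paths keep their order although they have different transition probabilities (bridges to different ends), paths without a common
site are independent, and inequality (A) of row 683 holds: `arrM_conf`. `pair_le`: the pair gets less likely to be disjoint if its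
right path is moved to the left (or its left path to the right).
-/

set_option autoImplicit false

namespace Pool.Agent.W_7d29a1_C1.ArrM56

open Finset MeasureTheory
open Pool.Agent.W_7d29a1_C1.Arr89
open Pool.Agent.W_7d29a1_C1.Arr35 (Tube pQ)

noncomputable section

/-! ### The uniform variables -/

/-- One variable per site. -/
abbrev Un := ℕ × ℤ → ℝ

/-- The uniform law. -/
def nu : Measure ℝ := volume.restrict (Set.Icc 0 1)

instance : IsProbabilityMeasure nu := ⟨by
  unfold nu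
  rw [Measure.restrict_apply_univ, Real.volume_Icc]
  norm_num⟩

/-- The law of the variables. -/
def PU : Measure Un := Measure.infinitePi fun _ => nu

instance : IsProbabilityMeasure PU := by
  unfold PU
  infer_instance

theorem nu_le {p : ℝ} (h1 : p ≤ 1) : nu {u | u ≤ p} = ENNReal.ofReal p := by
  unfold nu
  rw [Measure.restrict_apply (show MeasurableSet {u : ℝ | u ≤ p} from measurableSet_Iic)]
  have e : {u : ℝ | u ≤ p} ∩ Set.Icc 0 1 = Set.Icc 0 p := by
    ext u
    simp only [Set.mem_inter_iff, Set.mem_ofPred_eq, Set.mem_Icc]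
    constructor
    · rintro ⟨a, b, c⟩
      exact ⟨b, a⟩
    · rintro ⟨a, b⟩
      exact ⟨b, a, b.trans h1⟩
  rw [e, Real.volume_Icc, sub_zero]

theorem nu_gt {p : ℝ} (h0 : 0 ≤ p) : nu {u | p < u} = ENNReal.ofReal (1 - p) := by
  unfold nu
  rw [Measure.restrict_apply (show MeasurableSet {u : ℝ | p < u} from measurableSet_Ioi)]
  have e : {u : ℝ | p < u} ∩ Set.Icc 0 1 = Set.Ioc p 1 := by
    ext u
    simp only [Set.mem_inter_iff, Set.mem_ofPred_eq, Set.mem_Icc, Set.mem_Ioc]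
    constructor
    · rintro ⟨a, b, c⟩
      exact ⟨a, c⟩
    · rintro ⟨a, b⟩
      exact ⟨a, h0.trans a.le, b⟩
  rw [e, Real.volume_Ioc]

/-- The arrows of one family member in the box. -/
def RR (π : ℕ → ℤ → ℝ) (T : ℕ) (a b : ℤ) (U : Un) : Finset (ℕ × ℤ) := (Bx T a b).filter fun v => U v ≤ π v.1 v.2

theorem RR_mono {π π' : ℕ → ℤ → ℝ} (h : ∀ k y, π k y ≤ π' k y) (T : ℕ) (a b : ℤ) (U : Un) :
    RR π T a b U ⊆ RR π' T a b U := by
  intro v hv
  obtain ⟨h1, h2⟩ := mem_filter.1 hv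
  exact mem_filter.2 ⟨h1, h2.trans (h _ _)⟩

/-- The order is kept, more arrows go further to the right. -/
theorem flow_mono2 {R R' : Finset (ℕ × ℤ)} (hR : R ⊆ R') {x x' : ℤ} (h : x ≤ x') (k : ℕ) : flow R x k ≤ flow R' x' k := by
  induction k with
  | zero => exact h
  | succ k ih =>
    simp only [flow]
    rcases ih.eq_or_lt with h1 | h1
    · rw [h1]
      by_cases h2 : (k, flow R' x' k) ∈ R
      · rw [if_pos h2, if_pos (hR h2)]
      · rw [if_neg h2]
        split_ifs <;> omega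
    · split_ifs <;> omega

theorem site_mem {T : ℕ} {a b x : ℤ} (ha : a ≤ x) (hb : x + T ≤ b) (S : Finset ℕ) {k : ℕ} (hk : k < T) :
    (k, x + ps S k) ∈ Bx T a b := by
  unfold Bx
  rw [mem_product, mem_range, mem_Icc]
  have h1 := ps_nonneg S k
  have h2 := ps_le S k
  have h5 : (k : ℤ) < T := by exact_mod_cast hk
  exact ⟨hk, by simp only; omega, by simp only; omega⟩

/-- The path is `S` iff the variables along `S` decide so. -/
theorem pa_RR {π : ℕ → ℤ → ℝ} {T : ℕ} {a b x : ℤ} (ha : a ≤ x) (hb : x + T ≤ b) {S : Finset ℕ} (hS : S ⊆ range T) (U : Un) :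
    pa (RR π T a b U) x T = S ↔ ∀ k < T, (U (k, x + ps S k) ≤ π k (x + ps S k) ↔ k ∈ S) := by
  rw [pa_eq_iff hS]
  refine forall₂_congr fun k hk => ?_
  have h1 : ((k, x + ps S k) ∈ RR π T a b U) ↔ U (k, x + ps S k) ≤ π k (x + ps S k) := by
    unfold RR
    rw [mem_filter]
    exact ⟨fun h => h.2, fun h => ⟨site_mem ha hb S hk, h⟩⟩
  rw [h1]

section tup

variable {κ : Type*} [Fintype κ] [DecidableEq κ]

/-- The event that the paths are the given ones. -/
def Cy (π : κ → ℕ → ℤ → ℝ) (T : ℕ) (a b : ℤ) (x : κ → ℤ) (S : κ → Finset ℕ) : Set Un :=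
  {U | ∀ i, pa (RR (π i) T a b U) (x i) T = S i}

omit [DecidableEq κ] in
theorem measurableSet_Cy (π : κ → ℕ → ℤ → ℝ) {T : ℕ} {a b : ℤ} {x : κ → ℤ} (ha : ∀ i, a ≤ x i) (hb : ∀ i, x i + T ≤ b)
    {S : κ → Finset ℕ} (hS : ∀ i, S i ⊆ range T) : MeasurableSet (Cy π T a b x S) := by
  have h1 : Cy π T a b x S = ⋂ i : κ, ⋂ k : ℕ, {U : Un | k < T → (U (k, x i + ps (S i) k) ≤ π i k (x i + ps (S i) k) ↔ k ∈ S i)} := by
    ext U
    unfold Cy
    rw [Set.mem_ofPred_eq, Set.mem_iInter]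
    refine forall_congr' fun i => ?_
    rw [pa_RR (ha i) (hb i) (hS i), Set.mem_iInter]
    rfl
  rw [h1]
  refine MeasurableSet.iInter fun i => MeasurableSet.iInter fun k => ?_
  by_cases hk : k < T
  · by_cases hkS : k ∈ S i
    · have e : {U : Un | k < T → (U (k, x i + ps (S i) k) ≤ π i k (x i + ps (S i) k) ↔ k ∈ S i)} =
          {U : Un | U (k, x i + ps (S i) k) ≤ π i k (x i + ps (S i) k)} := by
        ext U
        rw [Set.mem_ofPred_eq, Set.mem_ofPred_eq]
        exact ⟨fun h => (h hk).2 hkS, fun h _ => ⟨fun _ => hkS, fun _ => h⟩⟩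
      rw [e]
      exact measurableSet_le (measurable_pi_apply _) measurable_const
    · have e : {U : Un | k < T → (U (k, x i + ps (S i) k) ≤ π i k (x i + ps (S i) k) ↔ k ∈ S i)} =
          {U : Un | π i k (x i + ps (S i) k) < U (k, x i + ps (S i) k)} := by
        ext U
        rw [Set.mem_ofPred_eq, Set.mem_ofPred_eq]
        constructor
        · intro h
          by_contra h2
          exact hkS ((h hk).1 (not_lt.1 h2))
        · intro h _
          exact ⟨fun h2 => absurd h2 (not_le.2 h), fun h2 => absurd h2 hkS⟩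
      rw [e]
      exact measurableSet_lt measurable_const (measurable_pi_apply _)
  · have e : {U : Un | k < T → (U (k, x i + ps (S i) k) ≤ π i k (x i + ps (S i) k) ↔ k ∈ S i)} = Set.univ := by
      ext U
      rw [Set.mem_ofPred_eq]
      exact ⟨fun _ => Set.mem_univ _, fun _ h => absurd h hk⟩
    rw [e]
    exact MeasurableSet.univ

/-- The set of the values of the variable at `v` which the paths `S` allow. -/
def tv (π : κ → ℕ → ℤ → ℝ) (T : ℕ) (x : κ → ℤ) (S : κ → Finset ℕ) (v : ℕ × ℤ) : Set ℝ :=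
  {u | ∀ i, v.1 < T → v.2 = x i + ps (S i) v.1 → (u ≤ π i v.1 v.2 ↔ v.1 ∈ S i)}

theorem PX_prod (π : ℕ → ℤ → ℝ) (x : ℤ) {T : ℕ} {S : Finset ℕ} (hS : S ⊆ range T) :
    PX π x T S = ∏ k ∈ range T, if k ∈ S then π k (x + ps S k) else 1 - π k (x + ps S k) := by
  unfold PX
  rw [← prod_sdiff hS, mul_comm]
  congr 1
  · refine prod_congr rfl fun k hk => ?_
    rw [if_neg (mem_sdiff.1 hk).2]
  · refine prod_congr rfl fun k hk => ?_
    rw [if_pos hk]

/-- **The probability of a tuple of disjoint paths is the product.** -/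
theorem tupM_prob {π : κ → ℕ → ℤ → ℝ} (h0 : ∀ i k y, 0 ≤ π i k y) (h1 : ∀ i k y, π i k y ≤ 1) {T : ℕ} {a b : ℤ} {x : κ → ℤ}
    (ha : ∀ i, a ≤ x i) (hb : ∀ i, x i + T ≤ b) {S : κ → Finset ℕ} (hS : S ∈ Tup T x) :
    PU.real (Cy π T a b x S) = ∏ i, PX (π i) (x i) T (S i) := by
  obtain ⟨hS1, hS2⟩ := mem_Tup.1 hS
  have hsep : ∀ i j (k : ℕ) (y : ℤ), k < T → y = x i + ps (S i) k → y = x j + ps (S j) k → i = j := by
    intro i j k y hk h1 h2
    by_contra hij
    exact hS2 i j hij k hk.le (h1.symm.trans h2)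
  obtain ⟨V, hV⟩ : ∃ V : Finset (ℕ × ℤ), V = univ.biUnion fun i => (range T).image fun k => (k, x i + ps (S i) k) := ⟨_, rfl⟩
  have hmem : ∀ v ∈ V, ∃ i, v.1 < T ∧ v.2 = x i + ps (S i) v.1 := by
    intro v hv
    rw [hV, mem_biUnion] at hv
    obtain ⟨i, -, hv⟩ := hv
    rw [mem_image] at hv
    obtain ⟨k, hk, rfl⟩ := hv
    exact ⟨i, mem_range.1 hk, rfl⟩
  have h2 : Cy π T a b x S = Set.pi V (tv π T x S) := by
    ext U
    unfold Cy tv
    rw [Set.mem_ofPred_eq, Set.mem_pi]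
    constructor
    · intro h v hv i hv1 hv2
      have h3 := (pa_RR (ha i) (hb i) (hS1 i) U).1 (h i) v.1 hv1
      rw [← hv2] at h3
      exact h3
    · intro h i
      rw [pa_RR (ha i) (hb i) (hS1 i)]
      intro k hk
      refine h (k, x i + ps (S i) k) ?_ i hk rfl
      rw [hV]
      exact_mod_cast mem_biUnion.2 ⟨i, mem_univ _, mem_image.2 ⟨k, mem_range.2 hk, rfl⟩⟩
  have h3 : ∀ i, ∀ k < T, tv π T x S (k, x i + ps (S i) k) = {u | u ≤ π i k (x i + ps (S i) k) ↔ k ∈ S i} := by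
    intro i k hk
    ext u
    unfold tv
    rw [Set.mem_ofPred_eq, Set.mem_ofPred_eq]
    constructor
    · intro h
      exact h i hk rfl
    · intro h j _ hj
      have hij := hsep i j k _ hk rfl hj
      subst hij
      exact h
  have h4 : ∀ i, ∀ k < T, MeasurableSet (tv π T x S (k, x i + ps (S i) k)) ∧ (nu (tv π T x S (k, x i + ps (S i) k))).toReal =
      if k ∈ S i then π i k (x i + ps (S i) k) else 1 - π i k (x i + ps (S i) k) := by
    intro i k hk
    rw [h3 i k hk]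
    by_cases hkS : k ∈ S i
    · have e : {u : ℝ | u ≤ π i k (x i + ps (S i) k) ↔ k ∈ S i} = {u | u ≤ π i k (x i + ps (S i) k)} := by
        ext u
        rw [Set.mem_ofPred_eq, Set.mem_ofPred_eq]
        exact ⟨fun h => h.2 hkS, fun h => ⟨fun _ => hkS, fun _ => h⟩⟩
      rw [e, if_pos hkS]
      refine ⟨measurableSet_Iic, ?_⟩
      rw [nu_le (h1 _ _ _), ENNReal.toReal_ofReal (h0 _ _ _)]
    · have e : {u : ℝ | u ≤ π i k (x i + ps (S i) k) ↔ k ∈ S i} = {u | π i k (x i + ps (S i) k) < u} := by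
        ext u
        rw [Set.mem_ofPred_eq, Set.mem_ofPred_eq]
        constructor
        · intro h
          by_contra h2
          exact hkS (h.1 (not_lt.1 h2))
        · intro h
          exact ⟨fun h2 => absurd h2 (not_le.2 h), fun h2 => absurd h2 hkS⟩
      rw [e, if_neg hkS]
      refine ⟨measurableSet_Ioi, ?_⟩
      rw [nu_gt (h0 _ _ _), ENNReal.toReal_ofReal (sub_nonneg.2 (h1 _ _ _))]
  rw [measureReal_def, h2]
  unfold PU
  rw [Measure.infinitePi_pi]
  · rw [ENNReal.toReal_prod, hV, prod_biUnion]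
    · refine prod_congr rfl fun i _ => ?_
      rw [prod_image (fun k _ l _ h => (Prod.ext_iff.1 h).1), PX_prod (π i) (x i) (hS1 i)]
      refine prod_congr rfl fun k hk => ?_
      exact (h4 i k (mem_range.1 hk)).2
    · intro i _ j _ hij
      rw [Function.onFun, disjoint_left]
      intro v hv hv'
      rw [mem_image] at hv hv'
      obtain ⟨k, hk, rfl⟩ := hv
      obtain ⟨l, hl, hl2⟩ := hv'
      obtain ⟨e1, e2⟩ := Prod.ext_iff.1 hl2
      simp only at e1 e2
      subst e1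
      exact hij (hsep i j l _ (mem_range.1 hk) rfl e2.symm)
  · intro v hv
    obtain ⟨i, hv1, hv2⟩ := hmem v hv
    have h5 := (h4 i v.1 hv1).1
    rw [← hv2] at h5
    exact h5

/-- The sum over the tuples without a common site which satisfy `Q`, one transition probability for each path. -/
def qM (π : κ → ℕ → ℤ → ℝ) (T : ℕ) (x : κ → ℤ) (Q : (κ → Finset ℕ) → Prop) : ℝ :=
  open Classical in
  ∑ S ∈ (Tup T x).filter Q, ∏ i, PX (π i) (x i) T (S i)

/-- The event that the paths have no common site and satisfy `Q`. -/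
def Ev (π : κ → ℕ → ℤ → ℝ) (T : ℕ) (a b : ℤ) (x : κ → ℤ) (Q : (κ → Finset ℕ) → Prop) : Set Un :=
  {U | (∀ i j, i ≠ j → NI T (x i) (x j) (pa (RR (π i) T a b U) (x i) T) (pa (RR (π j) T a b U) (x j) T)) ∧
    Q (fun i => pa (RR (π i) T a b U) (x i) T)}

theorem Ev_eq (π : κ → ℕ → ℤ → ℝ) (T : ℕ) (a b : ℤ) (x : κ → ℤ) (Q : (κ → Finset ℕ) → Prop) :
    Ev π T a b x Q = open Classical in ⋃ S ∈ (Tup T x).filter Q, Cy π T a b x S := by
  classical
  ext U
  unfold Ev
  rw [Set.mem_ofPred_eq, Set.mem_iUnion₂]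
  constructor
  · rintro ⟨h1, h2⟩
    refine ⟨fun i => pa (RR (π i) T a b U) (x i) T, ?_, ?_⟩
    · rw [mem_filter]
      exact ⟨mem_Tup.2 ⟨fun i => pa_subset _ _ _, h1⟩, h2⟩
    · unfold Cy
      rw [Set.mem_ofPred_eq]
      exact fun i => rfl
  · rintro ⟨S, hS, hU⟩
    rw [mem_filter] at hS
    unfold Cy at hU
    rw [Set.mem_ofPred_eq] at hU
    have h3 : (fun i => pa (RR (π i) T a b U) (x i) T) = S := funext hU
    refine ⟨fun i j hij => ?_, by rw [h3]; exact hS.2⟩
    rw [hU i, hU j]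
    exact (mem_Tup.1 hS.1).2 i j hij

theorem measurableSet_Ev (π : κ → ℕ → ℤ → ℝ) {T : ℕ} {a b : ℤ} {x : κ → ℤ} (ha : ∀ i, a ≤ x i) (hb : ∀ i, x i + T ≤ b)
    (Q : (κ → Finset ℕ) → Prop) : MeasurableSet (Ev π T a b x Q) := by
  classical
  rw [Ev_eq]
  refine Finset.measurableSet_biUnion _ fun S hS => ?_
  exact measurableSet_Cy π ha hb (mem_Tup.1 (mem_filter.1 hS).1).1

/-- **The sum is a probability.** -/
theorem qM_eq {π : κ → ℕ → ℤ → ℝ} (h0 : ∀ i k y, 0 ≤ π i k y) (h1 : ∀ i k y, π i k y ≤ 1) {T : ℕ} {a b : ℤ} {x : κ → ℤ}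
    (ha : ∀ i, a ≤ x i) (hb : ∀ i, x i + T ≤ b) (Q : (κ → Finset ℕ) → Prop) :
    qM π T x Q = PU.real (Ev π T a b x Q) := by
  classical
  rw [Ev_eq, measureReal_biUnion_finset]
  · unfold qM
    refine (sum_congr (by ext S; simp only [mem_filter]) fun S hS => ?_)
    exact (tupM_prob h0 h1 ha hb (mem_filter.1 hS).1).symm
  · intro S _ S' _ hSS
    rw [Function.onFun, Set.disjoint_left]
    intro U hU hU'
    unfold Cy at hU hU'
    rw [Set.mem_ofPred_eq] at hU hU'
    exact hSS (funext fun i => (hU i).symm.trans (hU' i))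
  · intro S hS
    exact measurableSet_Cy π ha hb (mem_Tup.1 (mem_filter.1 hS).1).1

theorem qM_nonneg {π : κ → ℕ → ℤ → ℝ} (h0 : ∀ i k y, 0 ≤ π i k y) (h1 : ∀ i k y, π i k y ≤ 1) (T : ℕ) (x : κ → ℤ)
    (Q : (κ → Finset ℕ) → Prop) : 0 ≤ qM π T x Q := by
  classical
  unfold qM
  refine sum_nonneg fun S _ => prod_nonneg fun i _ => ?_
  unfold PX
  exact mul_nonneg (prod_nonneg fun k _ => h0 _ _ _) (prod_nonneg fun k _ => sub_nonneg.2 (h1 _ _ _))

end tup

/-! ### Two paths -/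

/-- The probability that the two paths have no common site in the rows `0, ..., T`. -/
def p2 (π π' : ℕ → ℤ → ℝ) (T : ℕ) (x x' : ℤ) : ℝ := qM ![π, π'] T ![x, x'] fun _ => True

/-- The probability as a sum over the pairs of paths. -/
theorem p2_pairs (π π' : ℕ → ℤ → ℝ) (T : ℕ) (x x' : ℤ) : p2 π π' T x x' =
    ∑ p ∈ ((range T).powerset ×ˢ (range T).powerset).filter fun p => NI T x x' p.1 p.2, PX π x T p.1 * PX π' x' T p.2 := by
  have h0 : qM ![π, π'] T ![x, x'] (fun _ => True) = ∑ S ∈ Tup T ![x, x'], ∏ i, PX (![π, π'] i) (![x, x'] i) T (S i) := by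
    unfold qM
    refine sum_congr ?_ fun _ _ => rfl
    ext S
    simp only [mem_filter, and_true]
  unfold p2
  rw [h0]
  refine sum_nbij' (fun S => (S 0, S 1)) (fun p => ![p.1, p.2]) ?_ ?_ ?_ ?_ ?_
  · intro S hS
    obtain ⟨h2, h3⟩ := mem_Tup.1 hS
    refine mem_filter.2 ⟨mem_product.2 ⟨mem_powerset.2 (h2 0), mem_powerset.2 (h2 1)⟩, ?_⟩
    exact h3 0 1 (by decide)
  · intro p hp
    obtain ⟨h2, h3⟩ := mem_filter.1 hp
    obtain ⟨h4, h5⟩ := mem_product.1 h2
    refine mem_Tup.2 ⟨fun i => ?_, fun i j hij => ?_⟩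
    · fin_cases i
      · exact mem_powerset.1 h4
      · exact mem_powerset.1 h5
    · fin_cases i <;> fin_cases j
      · exact absurd rfl hij
      · exact h3
      · exact h3.symm
      · exact absurd rfl hij
  · intro S _
    funext i
    fin_cases i <;> rfl
  · intro p _
    rfl
  · intro S _
    rw [Fin.prod_univ_two]
    rfl

/-- The event that two paths have no common site. -/
def E2 (π π' : ℕ → ℤ → ℝ) (T : ℕ) (a b x x' : ℤ) : Set Un :=
  {U | NI T x x' (pa (RR π T a b U) x T) (pa (RR π' T a b U) x' T)}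

theorem E2_eq (π π' : ℕ → ℤ → ℝ) (T : ℕ) (a b x x' : ℤ) : E2 π π' T a b x x' = Ev ![π, π'] T a b ![x, x'] fun _ => True := by
  ext U
  unfold E2 Ev
  rw [Set.mem_ofPred_eq, Set.mem_ofPred_eq]
  constructor
  · intro h
    refine ⟨fun i j hij => ?_, trivial⟩
    fin_cases i <;> fin_cases j
    · exact absurd rfl hij
    · exact h
    · exact h.symm
    · exact absurd rfl hij
  · rintro ⟨h, -⟩
    exact h 0 1 (by decide)

theorem p2_eq {π π' : ℕ → ℤ → ℝ} (h0 : ∀ k y, 0 ≤ π k y) (h1 : ∀ k y, π k y ≤ 1) (h0' : ∀ k y, 0 ≤ π' k y)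
    (h1' : ∀ k y, π' k y ≤ 1) {T : ℕ} {a b x x' : ℤ} (ha : a ≤ x) (ha' : a ≤ x') (hb : x + T ≤ b) (hb' : x' + T ≤ b) :
    p2 π π' T x x' = PU.real (E2 π π' T a b x x') := by
  rw [E2_eq]
  refine qM_eq ?_ ?_ ?_ ?_ _
  · intro i
    fin_cases i
    · exact h0
    · exact h0'
  · intro i
    fin_cases i
    · exact h1
    · exact h1'
  · intro i
    fin_cases i
    · exact ha
    · exact ha'
  · intro i
    fin_cases i
    · exact hb
    · exact hb'

theorem measurableSet_E2 (π π' : ℕ → ℤ → ℝ) {T : ℕ} {a b x x' : ℤ} (ha : a ≤ x) (ha' : a ≤ x') (hb : x + T ≤ b) (hb' : x' + T ≤ b) :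
    MeasurableSet (E2 π π' T a b x x') := by
  rw [E2_eq]
  refine measurableSet_Ev _ ?_ ?_ _
  · intro i
    fin_cases i
    · exact ha
    · exact ha'
  · intro i
    fin_cases i
    · exact hb
    · exact hb'

/-- Two paths without a common site keep their strict order, whatever their arrows are. -/
theorem NI_strict {R R' : Finset (ℕ × ℤ)} {T : ℕ} {x x' : ℤ} (hx : x ≤ x')
    (h : NI T x x' (pa R x T) (pa R' x' T)) : ∀ k ≤ T, flow R x k < flow R' x' k := by
  intro k
  induction k with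
  | zero =>
    intro hk
    have h1 := h 0 hk
    rw [pos_pa R _ hk, pos_pa R' _ hk] at h1
    simp only [flow] at h1 ⊢
    omega
  | succ k ih =>
    intro hk
    have h1 := ih (by omega)
    have h2 := h (k + 1) hk
    rw [pos_pa R _ hk, pos_pa R' _ hk] at h2
    simp only [flow] at h2 ⊢
    split_ifs at h2 ⊢ <;> omega

theorem NI_of_lt {R R' : Finset (ℕ × ℤ)} {T : ℕ} {x x' : ℤ} (h : ∀ k ≤ T, flow R x k < flow R' x' k) :
    NI T x x' (pa R x T) (pa R' x' T) := by
  intro k hk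
  rw [pos_pa R _ hk, pos_pa R' _ hk]
  exact (h k hk).ne

/-- **Monotonicity of the pair**: `π₁ ≤ π`, `x₁ ≤ x` (the left path moved to the left) and `π' ≤ π₁'`, `x' ≤ x₁'` (the right path moved to
the right): the pair is at least as likely to be disjoint. -/
theorem pair_le {π π' π₁ π₁' : ℕ → ℤ → ℝ} (h0 : ∀ k y, 0 ≤ π k y) (h1 : ∀ k y, π k y ≤ 1) (h0' : ∀ k y, 0 ≤ π' k y)
    (h1' : ∀ k y, π' k y ≤ 1) (g0 : ∀ k y, 0 ≤ π₁ k y) (g1 : ∀ k y, π₁ k y ≤ 1) (g0' : ∀ k y, 0 ≤ π₁' k y)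
    (g1' : ∀ k y, π₁' k y ≤ 1) (hl : ∀ k y, π₁ k y ≤ π k y) (hr : ∀ k y, π' k y ≤ π₁' k y) {T : ℕ} {x x' x₁ x₁' : ℤ}
    (hx : x ≤ x') (hx1 : x₁ ≤ x) (hx1' : x' ≤ x₁') : p2 π π' T x x' ≤ p2 π₁ π₁' T x₁ x₁' := by
  rw [p2_eq h0 h1 h0' h1' (a := x₁) (b := x₁' + T) hx1 (by omega) (by omega) (by omega),
    p2_eq g0 g1 g0' g1' (a := x₁) (b := x₁' + T) le_rfl (by omega) (by omega) le_rfl]
  refine measureReal_mono ?_ (measure_ne_top _ _)
  intro U hU
  unfold E2 at hU ⊢
  rw [Set.mem_ofPred_eq] at hU ⊢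
  refine NI_of_lt fun k hk => ?_
  have h2 := NI_strict hx hU k hk
  have h3 := flow_mono2 (RR_mono hl T x₁ (x₁' + T) U) hx1 k
  have h4 := flow_mono2 (RR_mono hr T x₁ (x₁' + T) U) hx1' k
  omega

/-! ### One path -/

/-- The event of one path. -/
def E1 (π : ℕ → ℤ → ℝ) (T : ℕ) (a b x : ℤ) (Q : Finset ℕ → Prop) : Set Un := {U | Q (pa (RR π T a b U) x T)}

theorem E1_eq (π : ℕ → ℤ → ℝ) (T : ℕ) (a b x : ℤ) (Q : Finset ℕ → Prop) :
    E1 π T a b x Q = Ev (fun _ : Unit => π) T a b (fun _ => x) fun S => Q (S ()) := by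
  ext U
  unfold E1 Ev
  rw [Set.mem_ofPred_eq, Set.mem_ofPred_eq]
  exact ⟨fun h => ⟨fun i j hij => absurd (Subsingleton.elim i j) hij, h⟩, fun h => h.2⟩

theorem measurableSet_E1 (π : ℕ → ℤ → ℝ) {T : ℕ} {a b x : ℤ} (ha : a ≤ x) (hb : x + T ≤ b) (Q : Finset ℕ → Prop) :
    MeasurableSet (E1 π T a b x Q) := by
  rw [E1_eq]
  exact measurableSet_Ev _ (fun _ => ha) (fun _ => hb) _

theorem pQ_eqM {π : ℕ → ℤ → ℝ} (h0 : ∀ k y, 0 ≤ π k y) (h1 : ∀ k y, π k y ≤ 1) {T : ℕ} {a b x : ℤ} (ha : a ≤ x) (hb : x + T ≤ b)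
    (Q : Finset ℕ → Prop) : pQ π T x Q = PU.real (E1 π T a b x Q) := by
  classical
  have h2 : qM (fun _ : Unit => π) T (fun _ => x) (fun S => Q (S ())) = pQ π T x Q := by
    unfold qM pQ
    refine sum_nbij' (fun S => S ()) (fun S _ => S) ?_ ?_ ?_ ?_ ?_
    · intro S hS
      obtain ⟨h3, h4⟩ := mem_filter.1 hS
      exact mem_filter.2 ⟨mem_powerset.2 ((mem_Tup.1 h3).1 ()), h4⟩
    · intro S hS
      obtain ⟨h3, h4⟩ := mem_filter.1 hS
      refine mem_filter.2 ⟨mem_Tup.2 ⟨fun _ => mem_powerset.1 h3, fun i j hij => absurd (Subsingleton.elim i j) hij⟩, h4⟩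
    · intro S _
      rfl
    · intro S _
      rfl
    · intro S _
      simp
  rw [← h2, E1_eq]
  exact qM_eq (fun _ => h0) (fun _ => h1) (fun _ => ha) (fun _ => hb) _

/-! ### Inequality (A) -/

/-- **Inequality (A) for a monotone family, with a tube.** `x j` and `π j` are non decreasing in `j`. -/
theorem arrM_conf {π : ℕ → ℕ → ℤ → ℝ} (h0 : ∀ j k y, 0 ≤ π j k y) (h1 : ∀ j k y, π j k y ≤ 1)
    (hπ : ∀ i j, i ≤ j → ∀ k y, π i k y ≤ π j k y) (T N M : ℕ) {x : ℕ → ℤ} (hx : Monotone x) (lo hi : ℕ → ℝ) :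
    ∑ j ∈ range M, p2 (π j) (π (j + 1)) T (x j) (x (j + 1)) ≤
      N + M * ((pQ (π 0) T (x 0) (fun S => ∃ k ≤ T, ((x 0 + ps S k : ℤ) : ℝ) < lo k) +
        pQ (π M) T (x M) (fun S => ∃ k ≤ T, hi k < ((x M + ps S k : ℤ) : ℝ))) +
        min 1 (∑ I ∈ powersetCard N (range M), qM (fun i : I => π i) T (fun i : I => x i)
          fun S => ∀ i : I, Tube lo hi T (x i) (S i))) := by
  classical
  have ha : ∀ j ≤ M, x 0 ≤ x j := fun j _ => hx (Nat.zero_le j)
  have hb : ∀ j ≤ M, x j + T ≤ x M + T := fun j hj => by have := hx hj; omega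
  obtain ⟨a, haa⟩ : ∃ a : ℤ, a = x 0 := ⟨_, rfl⟩
  obtain ⟨b, hbb⟩ : ∃ b : ℤ, b = x M + T := ⟨_, rfl⟩
  rw [← haa] at ha
  rw [← hbb] at hb
  have hM0 : (0 : ℝ) ≤ M := Nat.cast_nonneg M
  have hN0 : (0 : ℝ) ≤ N := Nat.cast_nonneg N
  -- the events
  obtain ⟨D, hD⟩ : ∃ D : ℕ → Set Un, ∀ j, D j = E2 (π j) (π (j + 1)) T a b (x j) (x (j + 1)) := ⟨_, fun _ => rfl⟩
  obtain ⟨G, hG⟩ : ∃ G : Finset ℕ → Set Un, ∀ I : Finset ℕ, G I =
      Ev (fun i : I => π i) T a b (fun i : I => x i) fun S => ∀ i : I, Tube lo hi T (x i) (S i) := ⟨_, fun _ => rfl⟩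
  obtain ⟨LL, hLL⟩ : ∃ L : Set Un, L = E1 (π 0) T a b (x 0) (fun S => ∃ k ≤ T, ((x 0 + ps S k : ℤ) : ℝ) < lo k) := ⟨_, rfl⟩
  obtain ⟨HH, hHH⟩ : ∃ H : Set Un, H = E1 (π M) T a b (x M) (fun S => ∃ k ≤ T, hi k < ((x M + ps S k : ℤ) : ℝ)) := ⟨_, rfl⟩
  have mD : ∀ j < M, MeasurableSet (D j) := fun j hj => by
    rw [hD]
    exact measurableSet_E2 _ _ (ha j hj.le) (ha (j + 1) hj) (hb j hj.le) (hb (j + 1) hj)
  have mG : ∀ I ∈ powersetCard N (range M), MeasurableSet (G I) := fun I hI => by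
    rw [hG]
    have hI' := (mem_powersetCard.1 hI).1
    exact measurableSet_Ev (κ := I) _ (fun i : I => ha i (mem_range.1 (hI' i.2)).le)
      (fun i : I => hb i (mem_range.1 (hI' i.2)).le) _
  have mL : MeasurableSet LL := by
    rw [hLL]
    exact measurableSet_E1 _ (ha 0 (Nat.zero_le M)) (hb 0 (Nat.zero_le M)) _
  have mH : MeasurableSet HH := by
    rw [hHH]
    exact measurableSet_E1 _ (ha M le_rfl) (hb M le_rfl) _
  have e1 : ∀ j ∈ range M, p2 (π j) (π (j + 1)) T (x j) (x (j + 1)) = PU.real (D j) := fun j hj => by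
    have hj' := mem_range.1 hj
    rw [hD]
    exact p2_eq (h0 j) (h1 j) (h0 (j + 1)) (h1 (j + 1)) (ha j hj'.le) (ha (j + 1) hj') (hb j hj'.le) (hb (j + 1) hj')
  have e2 : ∀ I ∈ powersetCard N (range M), qM (fun i : I => π i) T (fun i : I => x i)
      (fun S => ∀ i : I, Tube lo hi T (x i) (S i)) = PU.real (G I) := fun I hI => by
    have hI' := (mem_powersetCard.1 hI).1
    rw [hG]
    exact qM_eq (κ := I) (fun i : I => h0 i) (fun i : I => h1 i) (fun i : I => ha i (mem_range.1 (hI' i.2)).le)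
      (fun i : I => hb i (mem_range.1 (hI' i.2)).le) _
  have e3 : pQ (π 0) T (x 0) (fun S => ∃ k ≤ T, ((x 0 + ps S k : ℤ) : ℝ) < lo k) = PU.real LL := by
    rw [hLL]
    exact pQ_eqM (h0 0) (h1 0) (ha 0 (Nat.zero_le M)) (hb 0 (Nat.zero_le M)) _
  have e4 : pQ (π M) T (x M) (fun S => ∃ k ≤ T, hi k < ((x M + ps S k : ℤ) : ℝ)) = PU.real HH := by
    rw [hHH]
    exact pQ_eqM (h0 M) (h1 M) (ha M le_rfl) (hb M le_rfl) _
  rw [sum_congr rfl e1, sum_congr rfl e2, e3, e4]
  -- the order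
  have hord : ∀ U : Un, ∀ I ⊆ (range M).filter fun j => U ∈ D j, ∀ i ∈ I, ∀ j ∈ I, i ≠ j →
      NI T (x i) (x j) (pa (RR (π i) T a b U) (x i) T) (pa (RR (π j) T a b U) (x j) T) := by
    intro U I hI
    have hlt : ∀ i ∈ I, ∀ j ∈ I, i < j →
        NI T (x i) (x j) (pa (RR (π i) T a b U) (x i) T) (pa (RR (π j) T a b U) (x j) T) := by
      intro i hi j _ hij
      have h2 := (mem_filter.1 (hI hi)).2
      rw [hD] at h2
      unfold E2 at h2
      rw [Set.mem_ofPred_eq] at h2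
      refine NI_of_lt fun k hk => ?_
      have h3 := NI_strict (hx (show i ≤ i + 1 from Nat.le_succ i)) h2 k hk
      have h4 : flow (RR (π (i + 1)) T a b U) (x (i + 1)) k ≤ flow (RR (π j) T a b U) (x j) k :=
        flow_mono2 (RR_mono (hπ (i + 1) j hij) T a b U) (hx hij) k
      omega
    intro i hi j hj hij
    rcases lt_or_gt_of_ne hij with h | h
    · exact hlt i hi j hj h
    · exact (hlt j hj i hi h).symm
  -- pointwise
  have e5 : ∀ U : Un, ∑ j ∈ range M, (D j).indicator (fun _ => (1 : ℝ)) U ≤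
      N + M * ((LL.indicator (fun _ => (1 : ℝ)) U + HH.indicator (fun _ => (1 : ℝ)) U) +
        min 1 (∑ I ∈ powersetCard N (range M), (G I).indicator (fun _ => (1 : ℝ)) U)) := by
    intro U
    have hcard : ∑ j ∈ range M, (D j).indicator (fun _ => (1 : ℝ)) U = (((range M).filter fun j => U ∈ D j).card : ℝ) := by
      rw [card_filter]
      push_cast
      refine sum_congr rfl fun j _ => ?_
      rw [Set.indicator_apply]
    rw [hcard]
    set DD := (range M).filter fun j => U ∈ D j with hDD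
    have hDM : (DD.card : ℝ) ≤ M := by
      have h2 := card_le_card (filter_subset (fun j => U ∈ D j) (range M))
      rw [card_range] at h2
      exact_mod_cast h2
    have hi0 : ∀ s : Set Un, 0 ≤ s.indicator (fun _ => (1 : ℝ)) U := fun s =>
      Set.indicator_nonneg (fun _ _ => zero_le_one) U
    have hs0 : 0 ≤ ∑ I ∈ powersetCard N (range M), (G I).indicator (fun _ => (1 : ℝ)) U := sum_nonneg fun I _ => hi0 _
    have hm0 : 0 ≤ min 1 (∑ I ∈ powersetCard N (range M), (G I).indicator (fun _ => (1 : ℝ)) U) := le_min zero_le_one hs0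
    have hL0 := hi0 LL
    have hH0 := hi0 HH
    by_cases hc : N ≤ DD.card
    · suffices hone : 1 ≤ (LL.indicator (fun _ => (1 : ℝ)) U + HH.indicator (fun _ => (1 : ℝ)) U) +
          min 1 (∑ I ∈ powersetCard N (range M), (G I).indicator (fun _ => (1 : ℝ)) U) by
        have h2 := mul_le_mul_of_nonneg_left hone hM0
        linarith
      by_cases hLR : U ∈ LL
      · rw [Set.indicator_of_mem hLR]
        linarith
      by_cases hHR : U ∈ HH
      · rw [Set.indicator_of_mem hHR]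
        linarith
      obtain ⟨I, hI, hIc⟩ := exists_subset_card_eq hc
      have hIM : I ⊆ range M := hI.trans (filter_subset _ _)
      have hGI : U ∈ G I := by
        rw [hG]
        unfold Ev
        rw [Set.mem_ofPred_eq]
        refine ⟨fun i j hij => hord U I hI i i.2 j j.2 fun h => hij (Subtype.ext h), fun i k hk => ?_⟩
        have hiM : (i : ℕ) ≤ M := (mem_range.1 (hIM i.2)).le
        rw [pos_pa _ _ hk]
        constructor
        · by_contra h2
          push Not at h2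
          refine hLR ?_
          rw [hLL]
          unfold E1
          rw [Set.mem_ofPred_eq]
          refine ⟨k, hk, lt_of_le_of_lt ?_ h2⟩
          rw [pos_pa _ _ hk]
          exact_mod_cast flow_mono2 (RR_mono (hπ 0 i (Nat.zero_le _)) T a b U) (hx (Nat.zero_le _)) k
        · by_contra h2
          push Not at h2
          refine hHR ?_
          rw [hHH]
          unfold E1
          rw [Set.mem_ofPred_eq]
          refine ⟨k, hk, lt_of_lt_of_le h2 ?_⟩
          rw [pos_pa _ _ hk]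
          exact_mod_cast flow_mono2 (RR_mono (hπ i M hiM) T a b U) (hx hiM) k
      have h2 : (1 : ℝ) ≤ ∑ I ∈ powersetCard N (range M), (G I).indicator (fun _ => (1 : ℝ)) U := by
        have h3 := single_le_sum (s := powersetCard N (range M)) (a := I)
          (f := fun I : Finset ℕ => (G I).indicator (fun _ => (1 : ℝ)) U) (fun I _ => hi0 _)
          (mem_powersetCard.2 ⟨hIM, hIc⟩)
        refine le_trans (le_of_eq ?_) h3
        rw [Set.indicator_of_mem hGI]
      rw [min_eq_left h2]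
      linarith
    · push Not at hc
      have h2 : (DD.card : ℝ) ≤ N := by exact_mod_cast hc.le
      have h3 : 0 ≤ (M : ℝ) * ((LL.indicator (fun _ => (1 : ℝ)) U + HH.indicator (fun _ => (1 : ℝ)) U) +
        min 1 (∑ I ∈ powersetCard N (range M), (G I).indicator (fun _ => (1 : ℝ)) U)) := mul_nonneg hM0 (by linarith)
      linarith
  -- the mean
  have iI : ∀ s : Set Un, MeasurableSet s → Integrable (fun U => s.indicator (fun _ => (1 : ℝ)) U) PU := fun s hs =>
    (integrable_const (1 : ℝ)).indicator hs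
  have eI : ∀ s : Set Un, MeasurableSet s → ∫ U, s.indicator (fun _ => (1 : ℝ)) U ∂PU = PU.real s := fun s hs => by
    rw [integral_indicator_const _ hs, smul_eq_mul, mul_one]
  have i1 : Integrable (fun U => ∑ j ∈ range M, (D j).indicator (fun _ => (1 : ℝ)) U) PU :=
    integrable_finsetSum _ fun j hj => iI _ (mD j (mem_range.1 hj))
  have i2 : Integrable (fun U => ∑ I ∈ powersetCard N (range M), (G I).indicator (fun _ => (1 : ℝ)) U) PU :=
    integrable_finsetSum _ fun I hI => iI _ (mG I hI)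
  have i3 : Integrable (fun U => min 1 (∑ I ∈ powersetCard N (range M), (G I).indicator (fun _ => (1 : ℝ)) U)) PU :=
    (integrable_const (1 : ℝ)).inf i2
  have i4 : Integrable (fun U => LL.indicator (fun _ => (1 : ℝ)) U + HH.indicator (fun _ => (1 : ℝ)) U) PU :=
    (iI _ mL).add (iI _ mH)
  have i5 : Integrable (fun U => (LL.indicator (fun _ => (1 : ℝ)) U + HH.indicator (fun _ => (1 : ℝ)) U) +
      min 1 (∑ I ∈ powersetCard N (range M), (G I).indicator (fun _ => (1 : ℝ)) U)) PU := i4.add i3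
  have i6 : Integrable (fun U => (N : ℝ) + M * ((LL.indicator (fun _ => (1 : ℝ)) U + HH.indicator (fun _ => (1 : ℝ)) U) +
      min 1 (∑ I ∈ powersetCard N (range M), (G I).indicator (fun _ => (1 : ℝ)) U))) PU :=
    (integrable_const _).add (i5.const_mul _)
  have h2 := integral_mono i1 i6 e5
  rw [integral_finsetSum _ fun j hj => iI _ (mD j (mem_range.1 hj)), integral_add (integrable_const _) (i5.const_mul _),
    integral_const, probReal_univ, one_smul, integral_const_mul, integral_add i4 i3, integral_add (iI _ mL) (iI _ mH),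
    eI _ mL, eI _ mH, sum_congr rfl fun j hj => eI _ (mD j (mem_range.1 hj))] at h2
  refine h2.trans (add_le_add le_rfl (mul_le_mul_of_nonneg_left (add_le_add le_rfl ?_) hM0))
  refine le_min ?_ ?_
  · have h3 := integral_mono i3 (integrable_const (1 : ℝ)) fun U => min_le_left _ _
    rw [integral_const, probReal_univ, one_smul] at h3
    exact h3
  · have h3 := integral_mono i3 i2 fun U => min_le_right _ _
    rw [integral_finsetSum _ fun I hI => iI _ (mG I hI), sum_congr rfl fun I hI => eI _ (mG I hI)] at h3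
    exact h3

end

end Pool.Agent.W_7d29a1_C1.ArrM56
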