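import Pool.Agent.W_7d29a1_C1.Arr89
import Pool.Agent.W_7d29a1_X.Path89

/-!
Both halves (MP_7d29a1_pr), attractor route, MEET_d (row 683, section (1)): ARROWS of the quenched polymer. (helper89)

`g ≥ 0` is any weight of the end position (future mass at the row `T`), `Zt g m k y` the mass of the paths of length `m` from the
site `(k, y)`, `Gg` the quenched polymer from `(0, x)`, `qG` = product mass of the tuples without a common site in the rows
`0, ..., T`. `arr_pol` is inequality (A) of row 683 for one environment and any `g`.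
-/

set_option autoImplicit false

namespace Pool.Agent.W_7d29a1_C1.Arr89

open Finset Pool.Agent.W_7d29a1_F Pool.Agent.W_7d29a1_X

noncomputable section

variable {μ : MeasureTheory.Measure ℝ} {s : ℝ}

/-- The mass of the paths of length `m` from `(k, y)`, weight `g` of the end position. -/
def Zt (μ : MeasureTheory.Measure ℝ) (s : ℝ) (η : Env) (g : ℤ → ℝ) : ℕ → ℕ → ℤ → ℝ
  | 0, _, y => g y
  | m + 1, k, y => Real.exp (-lam μ s) * (Real.exp (η ((k : ℤ) + 1, y)) * Zt μ s η g m (k + 1) y +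
      Real.exp s * Real.exp (η ((k : ℤ) + 1, y + 1)) * Zt μ s η g m (k + 1) (y + 1))

lemma Zt_nonneg {η : Env} {g : ℤ → ℝ} (hg : ∀ y, 0 ≤ g y) (m k : ℕ) (y : ℤ) : 0 ≤ Zt μ s η g m k y := by
  induction m generalizing k y with
  | zero => exact hg y
  | succ m ih =>
    unfold Zt
    have h1 := ih (k + 1) y
    have h2 := ih (k + 1) (y + 1)
    positivity

/-- The quenched probability of an up step at `(k, y)`, total length `T`. -/
def prb (μ : MeasureTheory.Measure ℝ) (s : ℝ) (η : Env) (g : ℤ → ℝ) (T k : ℕ) (y : ℤ) : ℝ :=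
  if k < T then Real.exp (-lam μ s) * (Real.exp s * Real.exp (η ((k : ℤ) + 1, y + 1)) *
    Zt μ s η g (T - (k + 1)) (k + 1) (y + 1)) / Zt μ s η g (T - k) k y else 0

lemma Zt_step {η : Env} {g : ℤ → ℝ} {T k : ℕ} (hk : k < T) (y : ℤ) :
    Zt μ s η g (T - k) k y = Real.exp (-lam μ s) * (Real.exp (η ((k : ℤ) + 1, y)) *
      Zt μ s η g (T - (k + 1)) (k + 1) y + Real.exp s * Real.exp (η ((k : ℤ) + 1, y + 1)) *
        Zt μ s η g (T - (k + 1)) (k + 1) (y + 1)) := by
  have h : T - k = (T - (k + 1)) + 1 := by omega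
  rw [h]
  rfl

lemma prb_nonneg {η : Env} {g : ℤ → ℝ} (hg : ∀ y, 0 ≤ g y) (T k : ℕ) (y : ℤ) : 0 ≤ prb μ s η g T k y := by
  unfold prb
  split_ifs
  · have h1 := Zt_nonneg (μ := μ) (s := s) (η := η) hg (T - (k + 1)) (k + 1) (y + 1)
    have h2 := Zt_nonneg (μ := μ) (s := s) (η := η) hg (T - k) k y
    positivity
  · exact le_rfl

lemma prb_le {η : Env} {g : ℤ → ℝ} (hg : ∀ y, 0 ≤ g y) (T k : ℕ) (y : ℤ) : prb μ s η g T k y ≤ 1 := by
  unfold prb
  split_ifs with hk
  · refine div_le_one_of_le₀ ?_ (Zt_nonneg hg _ _ _)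
    rw [Zt_step hk y, mul_add]
    have h1 := Zt_nonneg (μ := μ) (s := s) (η := η) hg (T - (k + 1)) (k + 1) y
    have h2 : 0 ≤ Real.exp (-lam μ s) * (Real.exp (η ((k : ℤ) + 1, y)) * Zt μ s η g (T - (k + 1)) (k + 1) y) := by
      positivity
    linarith
  · exact zero_le_one

/-- The weight of one step of the path `S` from `x`. -/
def st (μ : MeasureTheory.Measure ℝ) (s : ℝ) (η : Env) (x : ℤ) (S : Finset ℕ) (k : ℕ) : ℝ :=
  Real.exp (-lam μ s) * ((if k ∈ S then Real.exp s else 1) * Real.exp (η ((k : ℤ) + 1, x + ps S (k + 1))))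

lemma pth_st (η : Env) (x : ℤ) (S : Finset ℕ) (T : ℕ) :
    pth μ s (sh (0, x) η) T S = ∏ k ∈ range T, st μ s η x S k := by
  have h1 : Real.exp (s * (pos S T : ℝ) - T * lam μ s) =
      ∏ k ∈ range T, (Real.exp (-lam μ s) * (if k ∈ S then Real.exp s else 1)) := by
    induction T with
    | zero => simp [pos_zero]
    | succ T ih =>
      rw [prod_range_succ, ← ih]
      have e : pos S (T + 1) = pos S T + if T ∈ S then 1 else 0 := ps_succ S T
      rw [e]
      by_cases h : T ∈ S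
      · rw [if_pos h, if_pos h, ← Real.exp_add, ← Real.exp_add]
        congr 1
        push_cast
        ring
      · rw [if_neg h, if_neg h, mul_one, ← Real.exp_add]
        congr 1
        push_cast
        ring
  unfold pth
  rw [h1, ← prod_mul_distrib]
  refine prod_congr rfl fun k _ => ?_
  unfold st sh
  have e : (((k : ℤ) + 1, pos S (k + 1)) : Pt) + (0, x) = ((k : ℤ) + 1, x + ps S (k + 1)) := by
    ext
    · simp
    · simp only [Prod.mk_add_mk]
      rw [add_comm]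
      rfl
  rw [e]
  ring

/-- The transition probability along `S`. -/
def tr (π : ℕ → ℤ → ℝ) (x : ℤ) (S : Finset ℕ) (k : ℕ) : ℝ :=
  if k ∈ S then π k (x + ps S k) else 1 - π k (x + ps S k)

lemma PX_tr (π : ℕ → ℤ → ℝ) (x : ℤ) {T : ℕ} {S : Finset ℕ} (hS : S ⊆ range T) :
    PX π x T S = ∏ k ∈ range T, tr π x S k := by
  unfold PX
  rw [← prod_sdiff hS, mul_comm]
  congr 1
  · refine prod_congr rfl fun k hk => ?_
    unfold tr
    rw [if_neg (mem_sdiff.1 hk).2]
  · refine prod_congr rfl fun k hk => ?_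
    unfold tr
    rw [if_pos hk]

lemma tr_step {η : Env} {g : ℤ → ℝ} (hg : ∀ y, 0 ≤ g y) (x : ℤ) (S : Finset ℕ) {T k : ℕ} (hk : k < T) :
    tr (prb μ s η g T) x S k * Zt μ s η g (T - k) k (x + ps S k) =
      st μ s η x S k * Zt μ s η g (T - (k + 1)) (k + 1) (x + ps S (k + 1)) := by
  have h1 := Zt_nonneg (μ := μ) (s := s) (η := η) hg (T - (k + 1)) (k + 1) (x + ps S k)
  have h2 := Zt_nonneg (μ := μ) (s := s) (η := η) hg (T - (k + 1)) (k + 1) (x + ps S k + 1)
  have h3 := Zt_step (μ := μ) (s := s) (η := η) (g := g) hk (x + ps S k)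
  have e0 := Real.exp_pos (-lam μ s)
  have e1 := Real.exp_pos (η ((k : ℤ) + 1, x + ps S k))
  have e2 := Real.exp_pos (η ((k : ℤ) + 1, x + ps S k + 1))
  have e3 := Real.exp_pos s
  unfold tr st prb
  rw [if_pos hk]
  by_cases hz : Zt μ s η g (T - k) k (x + ps S k) = 0
  · -- both continuations have mass zero
    have h4 : Zt μ s η g (T - (k + 1)) (k + 1) (x + ps S k) = 0 ∧
        Zt μ s η g (T - (k + 1)) (k + 1) (x + ps S k + 1) = 0 := by
      rw [h3] at hz
      rcases mul_eq_zero.1 hz with h | h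
      · exact absurd h e0.ne'
      · have a1 := mul_nonneg e1.le h1
        have a2 := mul_nonneg (mul_pos e3 e2).le h2
        have b1 : Real.exp (η ((k : ℤ) + 1, x + ps S k)) * Zt μ s η g (T - (k + 1)) (k + 1) (x + ps S k) = 0 := by
          linarith
        have b2 : Real.exp s * Real.exp (η ((k : ℤ) + 1, x + ps S k + 1)) *
            Zt μ s η g (T - (k + 1)) (k + 1) (x + ps S k + 1) = 0 := by linarith
        exact ⟨(mul_eq_zero.1 b1).resolve_left e1.ne', (mul_eq_zero.1 b2).resolve_left (mul_pos e3 e2).ne'⟩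
    rw [hz, mul_zero, ps_succ]
    by_cases hkS : k ∈ S
    · simp only [hkS, if_true]
      rw [← add_assoc, h4.2, mul_zero]
    · simp only [hkS, if_false]
      rw [add_zero, h4.1, mul_zero]
  · rw [ps_succ]
    by_cases hkS : k ∈ S
    · simp only [hkS, if_true]
      rw [← add_assoc, div_mul_cancel₀ _ hz]
      ring
    · simp only [hkS, if_false]
      rw [add_zero, sub_mul, div_mul_cancel₀ _ hz, one_mul, h3]
      ring

lemma PX_prb {η : Env} {g : ℤ → ℝ} (hg : ∀ y, 0 ≤ g y) (x : ℤ) {T : ℕ} {S : Finset ℕ} (hS : S ⊆ range T) :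
    PX (prb μ s η g T) x T S * Zt μ s η g T 0 x = pth μ s (sh (0, x) η) T S * g (x + pos S T) := by
  have h1 : ∀ k ≤ T, (∏ j ∈ range k, tr (prb μ s η g T) x S j) * Zt μ s η g T 0 x =
      (∏ j ∈ range k, st μ s η x S j) * Zt μ s η g (T - k) k (x + ps S k) := by
    intro k
    induction k with
    | zero => intro _; simp [ps_zero]
    | succ k ih =>
      intro hk
      have h2 := ih (by omega)
      have h3 := tr_step (μ := μ) (s := s) (η := η) hg x S (show k < T by omega)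
      rw [prod_range_succ, prod_range_succ]
      calc (∏ j ∈ range k, tr (prb μ s η g T) x S j) * tr (prb μ s η g T) x S k * Zt μ s η g T 0 x
          = ((∏ j ∈ range k, tr (prb μ s η g T) x S j) * Zt μ s η g T 0 x) * tr (prb μ s η g T) x S k := by ring
        _ = (∏ j ∈ range k, st μ s η x S j) * (tr (prb μ s η g T) x S k * Zt μ s η g (T - k) k (x + ps S k)) := by
          rw [h2]; ring
        _ = _ := by rw [h3]; ring
  have h2 := h1 T le_rfl
  rw [PX_tr _ x hS, h2, pth_st, Nat.sub_self]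
  rfl

/-- The quenched polymer from `(0, x)`. -/
def Gg (μ : MeasureTheory.Measure ℝ) (s : ℝ) (η : Env) (g : ℤ → ℝ) (T : ℕ) (x : ℤ) (S : Finset ℕ) : ℝ :=
  pth μ s (sh (0, x) η) T S * g (x + pos S T) / Zt μ s η g T 0 x

lemma PX_eq_Gg {η : Env} {g : ℤ → ℝ} (hg : ∀ y, 0 ≤ g y) {x : ℤ} {T : ℕ} (hZ : 0 < Zt μ s η g T 0 x) {S : Finset ℕ}
    (hS : S ⊆ range T) : PX (prb μ s η g T) x T S = Gg μ s η g T x S := by
  unfold Gg
  rw [eq_div_iff hZ.ne']
  exact PX_prb hg x hS

variable {κ : Type*} [Fintype κ] [DecidableEq κ]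

/-- The product mass of the tuples without a common site. -/
def qG (μ : MeasureTheory.Measure ℝ) (s : ℝ) (η : Env) (g : ℤ → ℝ) (T : ℕ) (x : κ → ℤ) : ℝ :=
  ∑ S ∈ Tup T x, ∏ i, Gg μ s η g T (x i) (S i)

lemma qT_eq_qG {η : Env} {g : ℤ → ℝ} (hg : ∀ y, 0 ≤ g y) {T : ℕ} {x : κ → ℤ}
    (hZ : ∀ i, 0 < Zt μ s η g T 0 (x i)) : qT (prb μ s η g T) T x = qG μ s η g T x := by
  unfold qT qG
  refine sum_congr rfl fun S hS => prod_congr rfl fun i _ => ?_
  exact PX_eq_Gg hg (hZ i) ((mem_Tup.1 hS).1 i)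

/-- **Inequality (A) for the quenched polymers of one environment**, any weight `g ≥ 0` of the end position. -/
theorem arr_pol {η : Env} {g : ℤ → ℝ} (hg : ∀ y, 0 ≤ g y) (T N M : ℕ) {x : ℕ → ℤ} (hx : Monotone x)
    (hZ : ∀ j ≤ M, 0 < Zt μ s η g T 0 (x j)) :
    ∑ j ∈ range M, qG μ s η g T (fun i : Fin 2 => x (j + i)) ≤
      N + M * min 1 (∑ I ∈ powersetCard N (range M), qG μ s η g T fun i : I => x i) := by
  have h := arr_main (prb_nonneg (μ := μ) (s := s) (η := η) hg T) (prb_le hg T) T N M hx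
  have e1 : ∀ j ∈ range M, qT (prb μ s η g T) T (fun i : Fin 2 => x (j + i)) =
      qG μ s η g T (fun i : Fin 2 => x (j + i)) := fun j hj => by
    rw [mem_range] at hj
    exact qT_eq_qG hg fun i => hZ _ (by have := i.2; omega)
  have e2 : ∀ I ∈ powersetCard N (range M), qT (prb μ s η g T) T (fun i : I => x i) =
      qG μ s η g T (fun i : I => x i) := fun I hI => by
    refine qT_eq_qG hg fun i => hZ _ ?_
    have := mem_range.1 ((mem_powersetCard.1 hI).1 i.2)
    omega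
  rw [sum_congr rfl e1, sum_congr rfl e2] at h
  exact h

/-- Reindexing of the tuples. -/
lemma qG_equiv {κ' : Type*} [Fintype κ'] [DecidableEq κ'] (e : κ' ≃ κ) (η : Env) (g : ℤ → ℝ) (T : ℕ)
    (x : κ → ℤ) : qG μ s η g T (fun i => x (e i)) = qG μ s η g T x := by
  unfold qG
  refine sum_nbij' (fun S => fun i => S (e.symm i)) (fun S => fun i => S (e i)) ?_ ?_ ?_ ?_ ?_
  · intro S hS
    rw [mem_Tup] at hS ⊢
    refine ⟨fun i => hS.1 _, fun i j hij => ?_⟩
    have h := hS.2 (e.symm i) (e.symm j) fun h => hij (e.symm.injective h)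
    simpa using h
  · intro S hS
    rw [mem_Tup] at hS ⊢
    exact ⟨fun i => hS.1 _, fun i j hij => hS.2 _ _ fun h => hij (e.injective h)⟩
  · intro S _
    funext i
    simp
  · intro S _
    funext i
    simp
  · intro S _
    refine (Fintype.prod_equiv e _ _ fun i => ?_)
    simp

/-! ### The masses -/

lemma W_one_zero (η : Env) (a : Pt) : W μ s η a 1 0 = Real.exp (-lam μ s) * Real.exp (η (a.1 + 1, a.2)) := by
  rw [W_succ]
  unfold W WR
  simp [Zr]
  ring

lemma W_one_one (η : Env) (a : Pt) :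
    W μ s η a 1 1 = Real.exp (-lam μ s) * (Real.exp s * Real.exp (η (a.1 + 1, a.2 + 1))) := by
  rw [W_succ]
  unfold W WR
  simp [Zr]
  ring

lemma Icc_one : Icc (0 : ℤ) ((1 : ℕ) : ℤ) = {0, 1} := by
  ext z
  simp only [mem_Icc, mem_insert, mem_singleton]
  push_cast
  omega

/-- The mass as a sum over the end positions. -/
lemma Zt_eq (η : Env) (g : ℤ → ℝ) (m k : ℕ) (y : ℤ) :
    Zt μ s η g m k y = ∑ z ∈ Icc (0 : ℤ) m, W μ s η ((k : ℤ), y) m z * g (y + z) := by
  induction m generalizing k y with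
  | zero =>
    have e1 : Icc (0 : ℤ) ((0 : ℕ) : ℤ) = {0} := by simp
    rw [e1, sum_singleton]
    unfold Zt W WR
    simp [Zr]
  | succ m ih =>
    unfold Zt
    rw [ih, ih]
    have h1 : ∀ z : ℤ, W μ s η ((k : ℤ), y) (m + 1) z =
        Real.exp (-lam μ s) * Real.exp (η ((k : ℤ) + 1, y)) * W μ s η (((k + 1 : ℕ) : ℤ), y) m z +
        Real.exp (-lam μ s) * (Real.exp s * Real.exp (η ((k : ℤ) + 1, y + 1))) *
          W μ s η (((k + 1 : ℕ) : ℤ), y + 1) m (z - 1) := by
      intro z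
      rw [add_comm m 1, W_add, Icc_one, sum_pair zero_ne_one, W_one_zero, W_one_one]
      have e1 : ((((k : ℤ), y) : Pt).1 + ((1 : ℕ) : ℤ), (((k : ℤ), y) : Pt).2 + 0) = ((((k + 1 : ℕ) : ℤ), y) : Pt) := by
        ext
        · simp
        · simp
      have e2 : ((((k : ℤ), y) : Pt).1 + ((1 : ℕ) : ℤ), (((k : ℤ), y) : Pt).2 + 1) =
          ((((k + 1 : ℕ) : ℤ), y + 1) : Pt) := by
        ext
        · simp
        · simp
      rw [e1, e2, sub_zero]
    have h2 : ∑ z ∈ Icc (0 : ℤ) ((m + 1 : ℕ) : ℤ), W μ s η (((k + 1 : ℕ) : ℤ), y) m z * g (y + z) =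
        ∑ z ∈ Icc (0 : ℤ) m, W μ s η (((k + 1 : ℕ) : ℤ), y) m z * g (y + z) := by
      symm
      refine sum_subset (Icc_subset_Icc le_rfl (by push_cast; omega)) fun z _ hz => ?_
      rw [W_eq_zero η _ (fun h => hz (mem_Icc.2 h)), zero_mul]
    have h3 : ∑ z ∈ Icc (0 : ℤ) ((m + 1 : ℕ) : ℤ), W μ s η (((k + 1 : ℕ) : ℤ), y + 1) m (z - 1) * g (y + z) =
        ∑ z ∈ Icc (0 : ℤ) m, W μ s η (((k + 1 : ℕ) : ℤ), y + 1) m z * g (y + 1 + z) := by
      have e1 : ∑ z ∈ (Icc (0 : ℤ) m).image (fun z => z + 1),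
          W μ s η (((k + 1 : ℕ) : ℤ), y + 1) m (z - 1) * g (y + z) =
          ∑ z ∈ Icc (0 : ℤ) m, W μ s η (((k + 1 : ℕ) : ℤ), y + 1) m z * g (y + 1 + z) := by
        rw [sum_image fun a _ b _ hab => by simpa using hab]
        refine sum_congr rfl fun z _ => ?_
        rw [show z + 1 - 1 = z by ring, show y + (z + 1) = y + 1 + z by ring]
      rw [← e1]
      symm
      refine sum_subset ?_ fun z _ hz => ?_
      · intro z hz
        rw [mem_image] at hz
        obtain ⟨w, hw, rfl⟩ := hz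
        rw [mem_Icc] at hw ⊢
        push_cast
        omega
      · rw [W_eq_zero η _ (fun h => hz ?_), zero_mul]
        rw [mem_image]
        exact ⟨z - 1, mem_Icc.2 h, by ring⟩
    simp only [h1, add_mul]
    rw [sum_add_distrib]
    have h4 : ∑ z ∈ Icc (0 : ℤ) ((m + 1 : ℕ) : ℤ), Real.exp (-lam μ s) * Real.exp (η ((k : ℤ) + 1, y)) *
        W μ s η (((k + 1 : ℕ) : ℤ), y) m z * g (y + z) =
        Real.exp (-lam μ s) * Real.exp (η ((k : ℤ) + 1, y)) *
          ∑ z ∈ Icc (0 : ℤ) m, W μ s η (((k + 1 : ℕ) : ℤ), y) m z * g (y + z) := by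
      rw [← h2, mul_sum]
      exact sum_congr rfl fun z _ => by ring
    have h5 : ∑ z ∈ Icc (0 : ℤ) ((m + 1 : ℕ) : ℤ), Real.exp (-lam μ s) *
        (Real.exp s * Real.exp (η ((k : ℤ) + 1, y + 1))) *
        W μ s η (((k + 1 : ℕ) : ℤ), y + 1) m (z - 1) * g (y + z) =
        Real.exp (-lam μ s) * (Real.exp s * Real.exp (η ((k : ℤ) + 1, y + 1))) *
          ∑ z ∈ Icc (0 : ℤ) m, W μ s η (((k + 1 : ℕ) : ℤ), y + 1) m z * g (y + 1 + z) := by
      rw [← h3, mul_sum]
      exact sum_congr rfl fun z _ => by ring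
    rw [h4, h5]
    ring

/-- Free end: the mass is `exp V`. -/
lemma Zt_one (η : Env) (T : ℕ) (x : ℤ) : Zt μ s η (fun _ => 1) T 0 x = Real.exp (V μ s η (0, x) T) := by
  rw [Zt_eq, exp_V]
  unfold WS
  simp

/-- Free end: `Gg` is the Gibbs weight `GS` of the shifted environment. -/
lemma Gg_one (η : Env) (T : ℕ) (x : ℤ) (S : Finset ℕ) :
    Gg μ s η (fun _ => 1) T x S = GS μ s (sh (0, x) η) T S := by
  unfold Gg GS
  rw [Zt_one, V_sh, mul_one]
  have e : ((0 : Pt) + (0, x)) = (0, x) := by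
    ext <;> simp
  rw [e]

end

end Pool.Agent.W_7d29a1_C1.Arr89
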