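import Mathlib

/-!
MP_7d29a1_pr, [C1], SHELL: THE STARTS OF THE TWO LANES ARE CHOSEN BY THE OUTSIDE (no modulus of the outer profiles). (helper47)

* `asc47`: greedy ascent: if `φ` oscillates by at most `N ε` on `[x₀ - N d, x₀ + N d]`, there is `a`, `|a - x₀| ≤ (N - 1) d`, with
  `φ x ≤ φ a + ε` for all `|x - a| ≤ d`.
* `pair47`: `fl / fr` nonincreasing with cross ratio `≥ exp g` between the inner ends `y₁ < y₂` of the two parts of the window: there are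
  starts `a₁`, `a₂` with `fr x * fl x' * exp (g - 2 ε) ≤ fl a₁ * fr a₂` for all `x`, `x'` of the two collars.
* `lanes47`: with the kernels of the two lanes: `A₂ * B₁ ≤ κ² D² exp (2 ε - g) * (A₁ * B₂)` for the masses which enter through the collars.
-/

set_option autoImplicit false

namespace Pool.Agent.W_7d29a1_C1.Asc47

open Finset

/-- **Greedy ascent.** -/
theorem asc47 {φ : ℤ → ℝ} {x₀ : ℤ} {N d : ℕ} {ε : ℝ} (hN : 1 ≤ N)
    (hosc : ∀ x, |x - x₀| ≤ N * d → φ x ≤ φ x₀ + N * ε) :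
    ∃ a, |a - x₀| ≤ ((N : ℤ) - 1) * d ∧ ∀ x, |x - a| ≤ d → φ x ≤ φ a + ε := by
  by_contra hc
  push Not at hc
  have key : ∀ k : ℕ, k + 1 ≤ N → ∃ a, |a - x₀| ≤ ((k : ℤ) + 1) * d ∧ φ x₀ + (k + 1) * ε < φ a := by
    intro k
    induction k with
    | zero =>
      intro _
      obtain ⟨x, h1, h2⟩ := hc x₀ (by
        rw [sub_self, abs_zero]
        have : (1 : ℤ) ≤ N := by exact_mod_cast hN
        exact mul_nonneg (by linarith) (by positivity))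
      exact ⟨x, by simpa using h1, by simpa using h2⟩
    | succ k ih =>
      intro hk
      obtain ⟨a, h1, h2⟩ := ih (by omega)
      have hk' : ((k : ℤ) + 1) ≤ (N : ℤ) - 1 := by
        have : ((k + 1 + 1 : ℕ) : ℤ) ≤ N := by exact_mod_cast hk
        push_cast at this
        linarith
      obtain ⟨x, h3, h4⟩ := hc a (h1.trans (mul_le_mul_of_nonneg_right hk' (by positivity)))
      refine ⟨x, ?_, ?_⟩
      · calc |x - x₀| = |(x - a) + (a - x₀)| := by ring_nf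
          _ ≤ |x - a| + |a - x₀| := abs_add_le _ _
          _ ≤ d + ((k : ℤ) + 1) * d := add_le_add h3 h1
          _ = (((k + 1 : ℕ) : ℤ) + 1) * d := by push_cast; ring
      · calc φ x₀ + (((k + 1 : ℕ) : ℝ) + 1) * ε = φ x₀ + (k + 1) * ε + ε := by push_cast; ring
          _ < φ a + ε := by linarith
          _ < φ x := h4
  obtain ⟨a, h1, h2⟩ := key (N - 1) (by omega)
  have e1 : ((N - 1 : ℕ) : ℤ) + 1 = N := by
    have : 1 ≤ N := hN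
    push_cast [Nat.cast_sub this]
    ring
  have e2 : ((N - 1 : ℕ) : ℝ) + 1 = N := by exact_mod_cast e1
  rw [e1] at h1
  rw [e2] at h2
  exact absurd (hosc a h1) (not_le.2 h2)

/-- **The two starts.** `u`, `v`: the losses; `u + v ≤ 2 ε - g`. -/
theorem pair47 {fl fr : ℤ → ℝ} {x₁ x₂ y₁ y₂ : ℤ} {N d : ℕ} {ε g : ℝ} (hN : 1 ≤ N)
    (pos : ∀ x, |x - x₁| ≤ N * d ∨ |x - x₂| ≤ N * d → 0 < fl x ∧ 0 < fr x) (py₁ : 0 < fr y₁) (py₂ : 0 < fl y₂) (py₃ : 0 ≤ fr y₂)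
    (mono : ∀ x y, x ≤ y → fl y * fr x ≤ fl x * fr y)
    (h₁ : x₁ + ((N : ℤ) - 1) * d ≤ y₁) (h₂ : y₂ ≤ x₂ - ((N : ℤ) - 1) * d)
    (hg : Real.exp g * (fl y₂ * fr y₁) ≤ fl y₁ * fr y₂)
    (osc₁ : ∀ x, |x - x₁| ≤ N * d → Real.log (fr x) ≤ Real.log (fr x₁) + N * ε)
    (osc₂ : ∀ x, |x - x₂| ≤ N * d → Real.log (fl x) ≤ Real.log (fl x₂) + N * ε) :
    ∃ (a₁ a₂ : ℤ) (u v : ℝ), |a₁ - x₁| ≤ ((N : ℤ) - 1) * d ∧ |a₂ - x₂| ≤ ((N : ℤ) - 1) * d ∧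
      (∀ x, |x - a₂| ≤ d → fl x ≤ Real.exp u * fl a₁) ∧ (∀ x, |x - a₁| ≤ d → fr x ≤ Real.exp v * fr a₂) ∧
      u + v ≤ 2 * ε - g ∧ u = Real.log (fl a₂) - Real.log (fl a₁) + ε ∧ v = Real.log (fr a₁) - Real.log (fr a₂) + ε := by
  obtain ⟨a₁, ha₁, m₁⟩ := asc47 hN osc₁
  obtain ⟨a₂, ha₂, m₂⟩ := asc47 hN osc₂
  have hNN : (1 : ℤ) ≤ N := by exact_mod_cast hN
  have hd : (0 : ℤ) ≤ d := by positivity
  have le1 : ((N : ℤ) - 1) * d ≤ N * d := mul_le_mul_of_nonneg_right (by linarith) hd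
  have c₁ : ∀ x, |x - a₁| ≤ d → |x - x₁| ≤ N * d := fun x hx => by
    calc |x - x₁| = |(x - a₁) + (a₁ - x₁)| := by ring_nf
      _ ≤ |x - a₁| + |a₁ - x₁| := abs_add_le _ _
      _ ≤ d + ((N : ℤ) - 1) * d := add_le_add hx ha₁
      _ = N * d := by ring
  have c₂ : ∀ x, |x - a₂| ≤ d → |x - x₂| ≤ N * d := fun x hx => by
    calc |x - x₂| = |(x - a₂) + (a₂ - x₂)| := by ring_nf
      _ ≤ |x - a₂| + |a₂ - x₂| := abs_add_le _ _
      _ ≤ d + ((N : ℤ) - 1) * d := add_le_add hx ha₂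
      _ = N * d := by ring
  obtain ⟨p1, p2⟩ := pos a₁ (Or.inl (ha₁.trans le1))
  obtain ⟨p3, p4⟩ := pos a₂ (Or.inr (ha₂.trans le1))
  have b₁ : a₁ ≤ y₁ := by
    have := (abs_le.1 ha₁).2
    linarith
  have b₂ : y₂ ≤ a₂ := by
    have := (abs_le.1 ha₂).1
    linarith
  refine ⟨a₁, a₂, _, _, ha₁, ha₂, fun x hx => ?_, fun x hx => ?_, ?_, rfl, rfl⟩
  · obtain ⟨q1, q2⟩ := pos x (Or.inr (c₂ x hx))
    have h3 := m₂ x hx
    have e1 : Real.exp (Real.log (fl a₂) - Real.log (fl a₁) + ε) * fl a₁ = Real.exp (Real.log (fl a₂) + ε) := by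
      have : fl a₁ = Real.exp (Real.log (fl a₁)) := (Real.exp_log p1).symm
      conv_lhs => rw [this]
      rw [← Real.exp_add]
      congr 1
      rw [Real.log_exp]
      ring
    rw [e1]
    calc fl x = Real.exp (Real.log (fl x)) := (Real.exp_log q1).symm
      _ ≤ _ := Real.exp_le_exp.2 h3
  · obtain ⟨q1, q2⟩ := pos x (Or.inl (c₁ x hx))
    have h3 := m₁ x hx
    have e1 : Real.exp (Real.log (fr a₁) - Real.log (fr a₂) + ε) * fr a₂ = Real.exp (Real.log (fr a₁) + ε) := by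
      have : fr a₂ = Real.exp (Real.log (fr a₂)) := (Real.exp_log p4).symm
      conv_lhs => rw [this]
      rw [← Real.exp_add]
      congr 1
      rw [Real.log_exp]
      ring
    rw [e1]
    calc fr x = Real.exp (Real.log (fr x)) := (Real.exp_log q2).symm
      _ ≤ _ := Real.exp_le_exp.2 h3
  · have k1 := mono a₁ y₁ b₁
    have k2 := mono y₂ a₂ b₂
    -- fl y₁ fr a₁ ≤ fl a₁ fr y₁, fl a₂ fr y₂ ≤ fl y₂ fr a₂
    have k3 : Real.exp g * (fr a₁ * fl a₂) * (fr y₁ * fl y₂) ≤ fl a₁ * fr a₂ * (fr y₁ * fl y₂) := by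
      have t1 : 0 < fr a₁ * fl a₂ := mul_pos p2 p3
      have t2 : fl y₁ * fr a₁ * (fl a₂ * fr y₂) ≤ fl a₁ * fr y₁ * (fl y₂ * fr a₂) := by
        have s1 : 0 ≤ fl a₂ * fr y₂ := mul_nonneg p3.le py₃
        exact mul_le_mul k1 k2 s1 (mul_nonneg p1.le py₁.le)
      calc Real.exp g * (fr a₁ * fl a₂) * (fr y₁ * fl y₂) = Real.exp g * (fl y₂ * fr y₁) * (fr a₁ * fl a₂) := by ring
        _ ≤ fl y₁ * fr y₂ * (fr a₁ * fl a₂) := mul_le_mul_of_nonneg_right hg t1.le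
        _ = fl y₁ * fr a₁ * (fl a₂ * fr y₂) := by ring
        _ ≤ _ := t2
        _ = _ := by ring
    have k4 : Real.exp g * (fr a₁ * fl a₂) ≤ fl a₁ * fr a₂ := le_of_mul_le_mul_right k3 (mul_pos py₁ py₂)
    have k5 := Real.log_le_log (by positivity) k4
    rw [Real.log_mul (Real.exp_pos g).ne' (by positivity), Real.log_exp, Real.log_mul p2.ne' p3.ne', Real.log_mul p1.ne' p4.ne'] at k5
    linarith

/-- **The tuned pair of lanes**: masses through the collars. -/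
theorem lanes47 {fl fr : ℤ → ℝ} {K : ℤ → ℤ → ℝ} {S₁ S₂ C₁ C₂ : Finset ℤ} {a₁ a₂ : ℤ} {W₁ W₂ κ D u v δ ε g : ℝ}
    (hfl : ∀ x, 0 ≤ fl x) (hfr : ∀ x, 0 ≤ fr x) (hK : ∀ x y, 0 ≤ K x y) (ha₁ : a₁ ∈ S₁) (ha₂ : a₂ ∈ S₂) (hW₁ : 0 < W₁) (hW₂ : 0 < W₂)
    (hκ : 0 ≤ κ) (lo₁ : W₁ ≤ ∑ y ∈ C₁, K a₁ y) (lo₂ : W₂ ≤ ∑ y ∈ C₂, K a₂ y)
    (up₁ : ∀ x ∈ S₁, ∀ y ∈ C₁, K x y ≤ κ * W₁) (up₂ : ∀ x ∈ S₂, ∀ y ∈ C₂, K x y ≤ κ * W₂)
    (D₁ : (S₁.card : ℝ) * C₁.card ≤ D) (D₂ : (S₂.card : ℝ) * C₂.card ≤ D)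
    (hu : ∀ x ∈ S₂, fl x ≤ Real.exp u * fl a₁) (hv : ∀ x ∈ S₁, fr x ≤ Real.exp v * fr a₂) (huv : u + v ≤ 2 * ε - g)
    (ht : |Real.log W₁ - Real.log W₂ - (u - v) / 2| ≤ δ) :
    (∑ x ∈ S₂, ∑ y ∈ C₂, fl x * K x y) ≤ D * κ * Real.exp (δ + ε - g / 2) * ∑ x ∈ S₁, ∑ y ∈ C₁, fl x * K x y ∧
    (∑ x ∈ S₁, ∑ y ∈ C₁, fr x * K x y) ≤ D * κ * Real.exp (δ + ε - g / 2) * ∑ x ∈ S₂, ∑ y ∈ C₂, fr x * K x y := by
  have hD : 0 ≤ D := le_trans (by positivity) D₁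
  have gen : ∀ (f : ℤ → ℝ) (S S' C C' : Finset ℤ) (a : ℤ) (W W' u : ℝ), (∀ x, 0 ≤ f x) → a ∈ S → 0 < W → 0 < W' →
      W ≤ ∑ y ∈ C, K a y → (∀ x ∈ S', ∀ y ∈ C', K x y ≤ κ * W') → (S'.card : ℝ) * C'.card ≤ D →
      (∀ x ∈ S', f x ≤ Real.exp u * f a) →
      ∑ x ∈ S', ∑ y ∈ C', f x * K x y ≤ D * κ * Real.exp (u + Real.log W' - Real.log W) * ∑ x ∈ S, ∑ y ∈ C, f x * K x y := by
    intro f S S' C C' a W W' u hf ha hW hW' lo up hD' hu'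
    have h1 : ∑ x ∈ S', ∑ y ∈ C', f x * K x y ≤ D * (Real.exp u * f a * (κ * W')) := by
      calc ∑ x ∈ S', ∑ y ∈ C', f x * K x y ≤ ∑ x ∈ S', ∑ y ∈ C', Real.exp u * f a * (κ * W') :=
            sum_le_sum fun x hx => sum_le_sum fun y hy => mul_le_mul (hu' x hx) (up x hx y hy) (hK x y)
              (mul_nonneg (Real.exp_pos u).le (hf a))
        _ = (S'.card : ℝ) * C'.card * (Real.exp u * f a * (κ * W')) := by
            rw [sum_const, sum_const, nsmul_eq_mul, nsmul_eq_mul]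
            ring
        _ ≤ _ := mul_le_mul_of_nonneg_right hD' (mul_nonneg (mul_nonneg (Real.exp_pos u).le (hf a)) (mul_nonneg hκ hW'.le))
    have h2 : f a * W ≤ ∑ x ∈ S, ∑ y ∈ C, f x * K x y := by
      calc f a * W ≤ f a * ∑ y ∈ C, K a y := mul_le_mul_of_nonneg_left lo (hf a)
        _ = ∑ y ∈ C, f a * K a y := by rw [mul_sum]
        _ ≤ _ := single_le_sum (f := fun x => ∑ y ∈ C, f x * K x y) (fun x _ => sum_nonneg fun y _ => mul_nonneg (hf x) (hK x y)) ha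
    have e1 : D * (Real.exp u * f a * (κ * W')) = D * κ * Real.exp (u + Real.log W' - Real.log W) * (f a * W) := by
      have e2 : Real.exp (u + Real.log W' - Real.log W) = Real.exp u * W' / W := by
        rw [Real.exp_sub, Real.exp_add, Real.exp_log hW', Real.exp_log hW]
      rw [e2]
      field_simp
    rw [e1] at h1
    exact h1.trans (mul_le_mul_of_nonneg_left h2 (by positivity))
  rw [abs_le] at ht
  have m1 : Real.exp (u + Real.log W₂ - Real.log W₁) ≤ Real.exp (δ + ε - g / 2) := Real.exp_le_exp.2 (by linarith [ht.1])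
  have m2 : Real.exp (v + Real.log W₁ - Real.log W₂) ≤ Real.exp (δ + ε - g / 2) := Real.exp_le_exp.2 (by linarith [ht.2])
  constructor
  · refine (gen fl S₁ S₂ C₁ C₂ a₁ W₁ W₂ u hfl ha₁ hW₁ hW₂ lo₁ up₂ D₂ hu).trans ?_
    refine mul_le_mul_of_nonneg_right (mul_le_mul_of_nonneg_left m1 (by positivity)) ?_
    exact sum_nonneg fun x _ => sum_nonneg fun y _ => mul_nonneg (hfl x) (hK x y)
  · refine (gen fr S₂ S₁ C₂ C₁ a₂ W₂ W₁ v hfr ha₂ hW₂ hW₁ lo₂ up₁ D₁ hv).trans ?_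
    refine mul_le_mul_of_nonneg_right (mul_le_mul_of_nonneg_left m2 (by positivity)) ?_
    exact sum_nonneg fun x _ => sum_nonneg fun y _ => mul_nonneg (hfr x) (hK x y)

end Pool.Agent.W_7d29a1_C1.Asc47
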