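import Pool.Agent.W_7d29a1_C1.Ex9

/-!
Both halves (MP_7d29a1_pr), attractor route: THE ASSEMBLY, abstract part (helper60).

`CD` = the contacts of one context: `C c` = the contact functional (level integrated), `w c` = the weight of the first meeting in the
natural plane (sum at most one), `ws c` = the weight of the contact in its own frame, `R c` = what is on wild events.
`PD` = the exchange of the insides of two copies, the first one seen from the contact `c`, the second one from the contact `c'`.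
`lec60`: the ratio `sum C / sum w` does not depend on the context; `lm60`: from this to the loss of memory at one site.
-/

set_option autoImplicit false

namespace Pool.Agent.W_7d29a1_C1.H60

open MeasureTheory

variable {Ω : Type*} [MeasurableSpace Ω] {P : Measure Ω} {ι ι' : Type*}

/-! ### Exchange on disjoint sets -/

/-- Exchange on pairwise disjoint sets `A i`, each one invariant under `σ i` off `D i`. -/
theorem exch60 {Z : Type*} [MeasurableSpace Z] {Q : Measure Z} (m : ℕ) {σ : ℕ → Z → Z}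
    (hσ : ∀ i < m, MeasurePreserving (σ i) Q Q) {A D : ℕ → Set Z} (hA : ∀ i, MeasurableSet (A i))
    (hDm : ∀ i, MeasurableSet (D i)) (hd : Pairwise fun i j => Disjoint (A i) (A j))
    (hD : ∀ i < m, ∀ z, z ∉ D i → (z ∈ A i ↔ σ i z ∈ A i)) {H : Z → ℝ} (hHm : Measurable H) (hH : Integrable H Q) :
    |∫ z, H z ∂Q| ≤ (1 / 2) * ∑ i ∈ Finset.range m, (∫ z in A i, |H z + H (σ i z)| ∂Q + ∫ z in D i, |H (σ i z)| ∂Q) +
      ∫ z in (⋃ i ∈ Finset.range m, A i)ᶜ, |H z| ∂Q := by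
  classical
  set Un : Set Z := ⋃ i ∈ Finset.range m, A i with hUn
  have hUm : MeasurableSet Un := Finset.measurableSet_biUnion _ fun i _ => hA i
  have h1 : ∫ z, H z ∂Q = ∫ z in Un, H z ∂Q + ∫ z in Unᶜ, H z ∂Q := (integral_add_compl hUm hH).symm
  have h2 : ∫ z in Un, H z ∂Q = ∑ i ∈ Finset.range m, ∫ z in A i, H z ∂Q := by
    rw [hUn]
    refine integral_biUnion_finset _ (fun i _ => hA i) (fun i _ j _ hne => hd hne) fun i _ => hH.integrableOn
  have h3 : |∫ z in Un, H z ∂Q| ≤ (1 / 2) * ∑ i ∈ Finset.range m,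
        (∫ z in A i, |H z + H (σ i z)| ∂Q + ∫ z in D i, |H (σ i z)| ∂Q) := by
    rw [h2, Finset.mul_sum]
    refine (Finset.abs_sum_le_sum_abs _ _).trans (Finset.sum_le_sum fun i hi => ?_)
    have hi' := Finset.mem_range.1 hi
    exact H9.one_scale (hσ i hi') (hA i) (hDm i) (hD i hi') hHm hH
  have h4 : |∫ z in Unᶜ, H z ∂Q| ≤ ∫ z in Unᶜ, |H z| ∂Q := abs_integral_le_integral_abs
  rw [h1]
  exact (abs_add_le _ _).trans (add_le_add h3 h4)

/-! ### The data -/

/-- The contacts of one context. -/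
structure CD (P : Measure Ω) (S : Finset ι) (C w ws R : ι → Ω → ℝ) (K X t : ℝ) : Prop where
  K0 : 0 ≤ K
  mC : ∀ c ∈ S, Measurable (C c)
  mw : ∀ c ∈ S, Measurable (w c)
  w0 : ∀ c ∈ S, ∀ ω, 0 ≤ w c ω
  sw : ∀ ω, ∑ c ∈ S, w c ω ≤ 1
  ws0 : ∀ c ∈ S, ∀ ω, 0 ≤ ws c ω
  iws : ∀ c ∈ S, Integrable (ws c) P
  R0 : ∀ c ∈ S, ∀ ω, 0 ≤ R c ω
  iR : ∀ c ∈ S, Integrable (R c) P
  bC : ∀ c ∈ S, ∀ ω, |C c ω| ≤ K * ws c ω + R c ω
  tX : ∑ c ∈ S, ∫ ω, ws c ω ∂P ≤ X
  tR : ∑ c ∈ S, ∫ ω, R c ω ∂P ≤ t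

/-- The exchange of the insides. `A i` = the outermost (or innermost) common success is at the scale `i`. -/
structure PD (P : Measure Ω) (B C w C' w' : Ω → ℝ) (m : ℕ) (σ : ℕ → Ω × Ω → Ω × Ω) (A D : ℕ → Set (Ω × Ω)) (o t : ℝ) :
    Prop where
  mp : ∀ i < m, MeasurePreserving (σ i) (P.prod P) (P.prod P)
  mA : ∀ i, MeasurableSet (A i)
  mD : ∀ i, MeasurableSet (D i)
  dj : Pairwise fun i j => Disjoint (A i) (A j)
  inv : ∀ i < m, ∀ z, z ∉ D i → (z ∈ A i ↔ σ i z ∈ A i)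
  c1 : ∀ i < m, ∀ z ∈ A i, |C (σ i z).1 - C' z.2| ≤ t
  c2 : ∀ i < m, ∀ z ∈ A i, |C' (σ i z).2 - C z.1| ≤ t
  w1 : ∀ i < m, ∀ z ∈ A i, |w (σ i z).1 - w' z.2| ≤ t
  w2 : ∀ i < m, ∀ z ∈ A i, |w' (σ i z).2 - w z.1| ≤ t
  b : ∀ i < m, ∀ z ∈ A i, |B (σ i z).1 - B z.1| ≤ o

/-- The weight of a pair of contacts. -/
def pw (w ws w' ws' : Ω → ℝ) (z : Ω × Ω) : ℝ := ws z.1 * w' z.2 + w z.1 * ws' z.2

/-- The antisymmetric function. -/
def HH (g : ℝ → ℝ) (B C w C' w' : Ω → ℝ) (z : Ω × Ω) : ℝ := g (B z.1) * (C z.1 * w' z.2 - w z.1 * C' z.2)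

section pair

variable {S : Finset ι} {S' : Finset ι'} {C w ws R : ι → Ω → ℝ} {C' w' ws' R' : ι' → Ω → ℝ} {K X X' t t' : ℝ}

theorem CD.w1 (h : CD P S C w ws R K X t) {c : ι} (hc : c ∈ S) (ω : Ω) : w c ω ≤ 1 := by
  refine le_trans ?_ (h.sw ω)
  exact Finset.single_le_sum (f := fun c => w c ω) (fun c hc => h.w0 c hc ω) hc

theorem CD.iC [IsProbabilityMeasure P] (h : CD P S C w ws R K X t) {c : ι} (hc : c ∈ S) : Integrable (C c) P := by
  refine Integrable.mono' (((h.iws c hc).const_mul K).add (h.iR c hc)) (h.mC c hc).aestronglyMeasurable ?_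
  refine Filter.Eventually.of_forall fun ω => ?_
  rw [Real.norm_eq_abs]
  exact h.bC c hc ω

theorem CD.iw [IsProbabilityMeasure P] (h : CD P S C w ws R K X t) {c : ι} (hc : c ∈ S) : Integrable (w c) P := by
  refine Integrable.mono' (integrable_const (1 : ℝ)) (h.mw c hc).aestronglyMeasurable ?_
  refine Filter.Eventually.of_forall fun ω => ?_
  rw [Real.norm_eq_abs, abs_of_nonneg (h.w0 c hc ω)]
  exact h.w1 hc ω

/-- The bound of the antisymmetric function. -/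
theorem abs_HH_le (h : CD P S C w ws R K X t) (h' : CD P S' C' w' ws' R' K X' t') {g : ℝ → ℝ} {G : ℝ}
    (g0 : ∀ x, 0 ≤ g x) (gG : ∀ x, g x ≤ G) (B : Ω → ℝ) {c : ι} (hc : c ∈ S) {c' : ι'} (hc' : c' ∈ S') (z : Ω × Ω) :
    |HH g B (C c) (w c) (C' c') (w' c') z| ≤ G * (K * pw (w c) (ws c) (w' c') (ws' c') z + (R c z.1 + R' c' z.2)) := by
  have a1 := h.bC c hc z.1
  have a2 := h'.bC c' hc' z.2
  have b1 := h.w0 c hc z.1
  have b2 := h'.w0 c' hc' z.2
  have b3 := h.w1 hc z.1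
  have b4 := h'.w1 hc' z.2
  have r1 := h.R0 c hc z.1
  have r2 := h'.R0 c' hc' z.2
  have e1 : |C c z.1 * w' c' z.2 - w c z.1 * C' c' z.2| ≤ K * pw (w c) (ws c) (w' c') (ws' c') z + (R c z.1 + R' c' z.2) := by
    refine (abs_sub _ _).trans ?_
    rw [abs_mul, abs_mul, abs_of_nonneg b1, abs_of_nonneg b2]
    have e2 : |C c z.1| * w' c' z.2 ≤ (K * ws c z.1 + R c z.1) * w' c' z.2 := mul_le_mul_of_nonneg_right a1 b2
    have e3 : w c z.1 * |C' c' z.2| ≤ w c z.1 * (K * ws' c' z.2 + R' c' z.2) := mul_le_mul_of_nonneg_left a2 b1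
    have e4 : R c z.1 * w' c' z.2 ≤ R c z.1 := mul_le_of_le_one_right r1 b4
    have e5 : w c z.1 * R' c' z.2 ≤ R' c' z.2 := mul_le_of_le_one_left r2 b3
    unfold pw
    nlinarith
  unfold HH
  rw [abs_mul, abs_of_nonneg (g0 _)]
  exact mul_le_mul (gG _) e1 (abs_nonneg _) ((g0 0).trans (gG 0))

/-- **The antisymmetric function and its exchange.** -/
theorem abs_HH_add_le (h : CD P S C w ws R K X t) (h' : CD P S' C' w' ws' R' K X' t') {g : ℝ → ℝ} {G L : ℝ}
    (g0 : ∀ x, 0 ≤ g x) (gG : ∀ x, g x ≤ G) (gL : ∀ x y, |g x - g y| ≤ L * |x - y|) {B : Ω → ℝ} {c : ι} (hc : c ∈ S)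
    {c' : ι'} (hc' : c' ∈ S') {m : ℕ} {σ : ℕ → Ω × Ω → Ω × Ω} {A D : ℕ → Set (Ω × Ω)} {o τ : ℝ}
    (hP : PD P B (C c) (w c) (C' c') (w' c') m σ A D o τ) {i : ℕ} (hi : i < m) {z : Ω × Ω} (hz : z ∈ A i) :
    |HH g B (C c) (w c) (C' c') (w' c') z + HH g B (C c) (w c) (C' c') (w' c') (σ i z)| ≤
      L * o * (K * pw (w c) (ws c) (w' c') (ws' c') z + (R c z.1 + R' c' z.2)) +
        G * (τ * (2 + |C' c' z.2| + |C' c' (σ i z).2|)) := by
  have L0 : 0 ≤ L := by
    have h1 := gL 1 0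
    have h2 := abs_nonneg (g 1 - g 0)
    simp only [sub_zero, abs_one, mul_one] at h1
    linarith
  have G0 : 0 ≤ G := (g0 0).trans (gG 0)
  have k1 := hP.c1 i hi z hz
  have k2 := hP.c2 i hi z hz
  have k3 := hP.w1 i hi z hz
  have k4 := hP.w2 i hi z hz
  have k5 := hP.b i hi z hz
  have τ0 : 0 ≤ τ := (abs_nonneg _).trans k1
  have o0 : 0 ≤ o := (abs_nonneg _).trans k5
  -- the first part
  have a1 := h.bC c hc z.1
  have a2 := h'.bC c' hc' z.2
  have b1 := h.w0 c hc z.1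
  have b2 := h'.w0 c' hc' z.2
  have b3 := h.w1 hc z.1
  have b4 := h'.w1 hc' z.2
  have r1 := h.R0 c hc z.1
  have r2 := h'.R0 c' hc' z.2
  have e1 : |C c z.1 * w' c' z.2 - w c z.1 * C' c' z.2| ≤ K * pw (w c) (ws c) (w' c') (ws' c') z + (R c z.1 + R' c' z.2) := by
    refine (abs_sub _ _).trans ?_
    rw [abs_mul, abs_mul, abs_of_nonneg b1, abs_of_nonneg b2]
    have e2 : |C c z.1| * w' c' z.2 ≤ (K * ws c z.1 + R c z.1) * w' c' z.2 := mul_le_mul_of_nonneg_right a1 b2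
    have e3 : w c z.1 * |C' c' z.2| ≤ w c z.1 * (K * ws' c' z.2 + R' c' z.2) := mul_le_mul_of_nonneg_left a2 b1
    have e4 : R c z.1 * w' c' z.2 ≤ R c z.1 := mul_le_of_le_one_right r1 b4
    have e5 : w c z.1 * R' c' z.2 ≤ R' c' z.2 := mul_le_of_le_one_left r2 b3
    unfold pw
    nlinarith
  have g1 : |g (B z.1) - g (B (σ i z).1)| ≤ L * o := by
    refine (gL _ _).trans (mul_le_mul_of_nonneg_left ?_ L0)
    rw [abs_sub_comm]
    exact k5
  -- the second part
  have v1 := h.w0 c hc (σ i z).1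
  have v2 := h'.w0 c' hc' (σ i z).2
  have v3 := h.w1 hc (σ i z).1
  have v4 := h'.w1 hc' (σ i z).2
  have e6 : (C c (σ i z).1 * w' c' (σ i z).2 - w c (σ i z).1 * C' c' (σ i z).2) +
      (C c z.1 * w' c' z.2 - w c z.1 * C' c' z.2) =
      (C c (σ i z).1 - C' c' z.2) * w' c' (σ i z).2 + C' c' z.2 * (w' c' (σ i z).2 - w c z.1) -
        ((w c (σ i z).1 - w' c' z.2) * C' c' (σ i z).2 + w' c' z.2 * (C' c' (σ i z).2 - C c z.1)) := by ring
  have e7 : |(C c (σ i z).1 * w' c' (σ i z).2 - w c (σ i z).1 * C' c' (σ i z).2) +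
      (C c z.1 * w' c' z.2 - w c z.1 * C' c' z.2)| ≤ τ * (2 + |C' c' z.2| + |C' c' (σ i z).2|) := by
    rw [e6]
    refine (abs_sub _ _).trans ?_
    have f1 : |(C c (σ i z).1 - C' c' z.2) * w' c' (σ i z).2 + C' c' z.2 * (w' c' (σ i z).2 - w c z.1)| ≤
        τ + |C' c' z.2| * τ := by
      refine (abs_add_le _ _).trans (add_le_add ?_ ?_)
      · rw [abs_mul, abs_of_nonneg v2]
        calc _ ≤ τ * 1 := mul_le_mul k1 v4 v2 τ0
          _ = τ := mul_one _
      · rw [abs_mul]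
        exact mul_le_mul_of_nonneg_left k4 (abs_nonneg _)
    have f2 : |(w c (σ i z).1 - w' c' z.2) * C' c' (σ i z).2 + w' c' z.2 * (C' c' (σ i z).2 - C c z.1)| ≤
        τ * |C' c' (σ i z).2| + τ := by
      refine (abs_add_le _ _).trans (add_le_add ?_ ?_)
      · rw [abs_mul]
        exact mul_le_mul_of_nonneg_right k3 (abs_nonneg _)
      · rw [abs_mul, abs_of_nonneg b2]
        calc _ ≤ 1 * τ := mul_le_mul b4 k2 (abs_nonneg _) zero_le_one
          _ = τ := one_mul _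
    nlinarith
  have e8 : HH g B (C c) (w c) (C' c') (w' c') z + HH g B (C c) (w c) (C' c') (w' c') (σ i z) =
      (g (B z.1) - g (B (σ i z).1)) * (C c z.1 * w' c' z.2 - w c z.1 * C' c' z.2) +
        g (B (σ i z).1) * ((C c (σ i z).1 * w' c' (σ i z).2 - w c (σ i z).1 * C' c' (σ i z).2) +
          (C c z.1 * w' c' z.2 - w c z.1 * C' c' z.2)) := by
    unfold HH
    ring
  rw [e8]
  refine (abs_add_le _ _).trans (add_le_add ?_ ?_)
  · rw [abs_mul]
    exact mul_le_mul g1 e1 (abs_nonneg _) (by positivity)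
  · rw [abs_mul, abs_of_nonneg (g0 _)]
    exact mul_le_mul (gG _) e7 (abs_nonneg _) G0

end pair

/-! ### One pair -/

section pair2

variable {S : Finset ι} {S' : Finset ι'} {C w ws R : ι → Ω → ℝ} {C' w' ws' R' : ι' → Ω → ℝ} {K X X' t t' : ℝ}

theorem meas_HH (h : CD P S C w ws R K X t) (h' : CD P S' C' w' ws' R' K X' t') {g : ℝ → ℝ} (hg : Measurable g) {B : Ω → ℝ}
    (hB : Measurable B) {c : ι} (hc : c ∈ S) {c' : ι'} (hc' : c' ∈ S') : Measurable (HH g B (C c) (w c) (C' c') (w' c')) := by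
  have m1 : Measurable fun z : Ω × Ω => C c z.1 := (h.mC c hc).comp measurable_fst
  have m2 : Measurable fun z : Ω × Ω => w c z.1 := (h.mw c hc).comp measurable_fst
  have m3 : Measurable fun z : Ω × Ω => C' c' z.2 := (h'.mC c' hc').comp measurable_snd
  have m4 : Measurable fun z : Ω × Ω => w' c' z.2 := (h'.mw c' hc').comp measurable_snd
  have m5 : Measurable fun z : Ω × Ω => g (B z.1) := (hg.comp hB).comp measurable_fst
  exact m5.mul ((m1.mul m4).sub (m2.mul m3))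

theorem int_pw [IsProbabilityMeasure P] (h : CD P S C w ws R K X t) (h' : CD P S' C' w' ws' R' K X' t') {c : ι} (hc : c ∈ S)
    {c' : ι'} (hc' : c' ∈ S') : Integrable (pw (w c) (ws c) (w' c') (ws' c')) (P.prod P) :=
  ((h.iws c hc).mul_prod (h'.iw hc')).add ((h.iw hc).mul_prod (h'.iws c' hc'))

theorem int_RR [IsProbabilityMeasure P] (h : CD P S C w ws R K X t) (h' : CD P S' C' w' ws' R' K X' t') {c : ι} (hc : c ∈ S)
    {c' : ι'} (hc' : c' ∈ S') : Integrable (fun z : Ω × Ω => R c z.1 + R' c' z.2) (P.prod P) :=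
  ((h.iR c hc).comp_fst P).add ((h'.iR c' hc').comp_snd P)

theorem int_HH [IsProbabilityMeasure P] (h : CD P S C w ws R K X t) (h' : CD P S' C' w' ws' R' K X' t') {g : ℝ → ℝ} {G : ℝ}
    (hg : Measurable g) (g0 : ∀ x, 0 ≤ g x) (gG : ∀ x, g x ≤ G) {B : Ω → ℝ} (hB : Measurable B) {c : ι} (hc : c ∈ S)
    {c' : ι'} (hc' : c' ∈ S') : Integrable (HH g B (C c) (w c) (C' c') (w' c')) (P.prod P) := by
  refine Integrable.mono' ((((int_pw h h' hc hc').const_mul K).add (int_RR h h' hc hc')).const_mul G)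
    (meas_HH h h' hg hB hc hc').aestronglyMeasurable (Filter.Eventually.of_forall fun z => ?_)
  rw [Real.norm_eq_abs]
  exact abs_HH_le h h' g0 gG B hc hc' z

theorem pw_nonneg (h : CD P S C w ws R K X t) (h' : CD P S' C' w' ws' R' K X' t') {c : ι} (hc : c ∈ S) {c' : ι'}
    (hc' : c' ∈ S') (z : Ω × Ω) : 0 ≤ pw (w c) (ws c) (w' c') (ws' c') z := by
  have b1 := h.w0 c hc z.1
  have b2 := h'.w0 c' hc' z.2
  have b3 := h.ws0 c hc z.1
  have b4 := h'.ws0 c' hc' z.2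
  unfold pw
  positivity

/-- **One pair of contacts.** -/
theorem pair60 [IsProbabilityMeasure P] (h : CD P S C w ws R K X t) (h' : CD P S' C' w' ws' R' K X' t') {g : ℝ → ℝ} {G L : ℝ}
    (hg : Measurable g) (g0 : ∀ x, 0 ≤ g x) (gG : ∀ x, g x ≤ G) (gL : ∀ x y, |g x - g y| ≤ L * |x - y|) {B : Ω → ℝ}
    (hB : Measurable B) {c : ι} (hc : c ∈ S) {c' : ι'} (hc' : c' ∈ S') {m : ℕ} {σ : ℕ → Ω × Ω → Ω × Ω}
    {A D : ℕ → Set (Ω × Ω)} {o τ : ℝ} (o0 : 0 ≤ o) (τ0 : 0 ≤ τ)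
    (hP : PD P B (C c) (w c) (C' c') (w' c') m σ A D o τ) :
    |∫ z, HH g B (C c) (w c) (C' c') (w' c') z ∂(P.prod P)| ≤
      L * o * (K * ∫ z, pw (w c) (ws c) (w' c') (ws' c') z ∂(P.prod P) + (∫ ω, R c ω ∂P + ∫ ω, R' c' ω ∂P)) +
      m * (G * (τ * (2 + 2 * ∫ ω, |C' c' ω| ∂P))) +
      G * (K * (∑ i ∈ Finset.range m, ∫ z in D i, pw (w c) (ws c) (w' c') (ws' c') (σ i z) ∂(P.prod P)) +
        m * (∫ ω, R c ω ∂P + ∫ ω, R' c' ω ∂P)) +
      G * (K * (∫ z in (⋃ i ∈ Finset.range m, A i)ᶜ, pw (w c) (ws c) (w' c') (ws' c') z ∂(P.prod P)) +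
        (∫ ω, R c ω ∂P + ∫ ω, R' c' ω ∂P)) := by
  classical
  have L0 : 0 ≤ L := by
    have h1 := gL 1 0
    have h2 := abs_nonneg (g 1 - g 0)
    simp only [sub_zero, abs_one, mul_one] at h1
    linarith
  have G0 : 0 ≤ G := (g0 0).trans (gG 0)
  have K0 := h.K0
  set H : Ω × Ω → ℝ := HH g B (C c) (w c) (C' c') (w' c') with hH
  set p : Ω × Ω → ℝ := pw (w c) (ws c) (w' c') (ws' c') with hp
  set r : Ω × Ω → ℝ := fun z => R c z.1 + R' c' z.2 with hr
  set a : Ω × Ω → ℝ := fun z => |C' c' z.2| with ha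
  have iH : Integrable H (P.prod P) := int_HH h h' hg g0 gG hB hc hc'
  have mH : Measurable H := meas_HH h h' hg hB hc hc'
  have ip : Integrable p (P.prod P) := int_pw h h' hc hc'
  have ir : Integrable r (P.prod P) := int_RR h h' hc hc'
  have ia : Integrable a (P.prod P) := ((h'.iC hc').abs).comp_snd P
  have p0 : ∀ z, 0 ≤ p z := pw_nonneg h h' hc hc'
  have r0 : ∀ z, 0 ≤ r z := fun z => add_nonneg (h.R0 c hc z.1) (h'.R0 c' hc' z.2)
  have a0 : ∀ z, 0 ≤ a z := fun z => abs_nonneg _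
  have er : ∫ z, r z ∂(P.prod P) = ∫ ω, R c ω ∂P + ∫ ω, R' c' ω ∂P := by
    rw [hr]
    rw [integral_add ((h.iR c hc).comp_fst P) ((h'.iR c' hc').comp_snd P)]
    congr 1
    · have := integral_fun_fst (μ := P) (ν := P) (fun ω => R c ω)
      simpa using this
    · have := integral_fun_snd (μ := P) (ν := P) (fun ω => R' c' ω)
      simpa using this
  have ea : ∫ z, a z ∂(P.prod P) = ∫ ω, |C' c' ω| ∂P := by
    have := integral_fun_snd (μ := P) (ν := P) (fun ω => |C' c' ω|)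
    simpa using this
  have key := exch60 m hP.mp hP.mA hP.mD hP.dj hP.inv mH iH
  -- the successes
  have k1 : ∑ i ∈ Finset.range m, ∫ z in A i, |H z + H (σ i z)| ∂(P.prod P) ≤
      L * o * (K * ∫ z, p z ∂(P.prod P) + ∫ z, r z ∂(P.prod P)) + m * (G * (τ * (2 + 2 * ∫ z, a z ∂(P.prod P)))) := by
    have s1 : ∀ i ∈ Finset.range m, ∫ z in A i, |H z + H (σ i z)| ∂(P.prod P) ≤
        (∫ z in A i, L * o * (K * p z + r z) ∂(P.prod P)) + G * (τ * (2 + 2 * ∫ z, a z ∂(P.prod P))) := by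
      intro i hi
      have hi' := Finset.mem_range.1 hi
      have i1 : Integrable (fun z => L * o * (K * p z + r z)) (P.prod P) := ((ip.const_mul K).add ir).const_mul (L * o)
      have ias : Integrable (fun z => a (σ i z)) (P.prod P) := (hP.mp i hi').integrable_comp_of_integrable ia
      have i2 : Integrable (fun z => G * (τ * (2 + a z + a (σ i z)))) (P.prod P) :=
        ((((integrable_const (2 : ℝ)).add ia).add ias).const_mul τ).const_mul G
      have iHs : Integrable (fun z => H (σ i z)) (P.prod P) := (hP.mp i hi').integrable_comp_of_integrable iH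
      calc ∫ z in A i, |H z + H (σ i z)| ∂(P.prod P)
          ≤ ∫ z in A i, (L * o * (K * p z + r z) + G * (τ * (2 + a z + a (σ i z)))) ∂(P.prod P) := by
            refine setIntegral_mono_on (iH.add iHs).abs.integrableOn (i1.add i2).integrableOn (hP.mA i) fun z hz => ?_
            exact abs_HH_add_le h h' g0 gG gL hc hc' hP hi' hz
        _ = (∫ z in A i, L * o * (K * p z + r z) ∂(P.prod P)) + ∫ z in A i, G * (τ * (2 + a z + a (σ i z))) ∂(P.prod P) :=
            integral_add i1.integrableOn i2.integrableOn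
        _ ≤ _ := by
            refine add_le_add le_rfl ?_
            have e1 : ∫ z in A i, G * (τ * (2 + a z + a (σ i z))) ∂(P.prod P) ≤
                ∫ z, G * (τ * (2 + a z + a (σ i z))) ∂(P.prod P) := by
              refine setIntegral_le_integral i2 (Filter.Eventually.of_forall fun z => ?_)
              have := a0 z
              have := a0 (σ i z)
              show 0 ≤ G * (τ * (2 + a z + a (σ i z)))
              positivity
            have e2 : ∫ z, a (σ i z) ∂(P.prod P) = ∫ z, a z ∂(P.prod P) := by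
              have := integral_map (μ := P.prod P) (hP.mp i hi').measurable.aemeasurable (f := a)
                (by rw [(hP.mp i hi').map_eq]; exact ia.aestronglyMeasurable)
              rw [(hP.mp i hi').map_eq] at this
              exact this.symm
            have e3 : ∫ z, G * (τ * (2 + a z + a (σ i z))) ∂(P.prod P) = G * (τ * (2 + 2 * ∫ z, a z ∂(P.prod P))) := by
              have i0 : Integrable (fun z => 2 + a z) (P.prod P) := (integrable_const (2 : ℝ)).add ia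
              have e4 : ∫ z, (2 + a z + a (σ i z)) ∂(P.prod P) = 2 + 2 * ∫ z, a z ∂(P.prod P) := by
                have e5 : ∫ z, (2 + a z + a (σ i z)) ∂(P.prod P) = (∫ z, (2 + a z) ∂(P.prod P)) + ∫ z, a (σ i z) ∂(P.prod P) :=
                  integral_add i0 ias
                have e6 : ∫ z, (2 + a z) ∂(P.prod P) = (∫ _z, (2 : ℝ) ∂(P.prod P)) + ∫ z, a z ∂(P.prod P) :=
                  integral_add (integrable_const (2 : ℝ)) ia
                rw [e5, e6, e2]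
                simp only [integral_const, probReal_univ, smul_eq_mul, one_mul]
                ring
              rw [integral_const_mul, integral_const_mul, e4]
            exact e1.trans e3.le
    refine (Finset.sum_le_sum s1).trans ?_
    rw [Finset.sum_add_distrib, Finset.sum_const, Finset.card_range, nsmul_eq_mul]
    refine add_le_add ?_ le_rfl
    have i1 : Integrable (fun z => L * o * (K * p z + r z)) (P.prod P) := ((ip.const_mul K).add ir).const_mul (L * o)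
    have e1 : ∑ i ∈ Finset.range m, ∫ z in A i, L * o * (K * p z + r z) ∂(P.prod P) =
        ∫ z in ⋃ i ∈ Finset.range m, A i, L * o * (K * p z + r z) ∂(P.prod P) :=
      (integral_biUnion_finset _ (fun i _ => hP.mA i) (fun i _ j _ hne => hP.dj hne) fun i _ => i1.integrableOn).symm
    rw [e1]
    refine (setIntegral_le_integral i1 (Filter.Eventually.of_forall fun z => ?_)).trans (le_of_eq ?_)
    · have := p0 z
      have := r0 z
      show 0 ≤ L * o * (K * p z + r z)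
      positivity
    · rw [integral_const_mul, integral_add (ip.const_mul K) ir, integral_const_mul]
  -- the exceptional sets
  have k2 : ∑ i ∈ Finset.range m, ∫ z in D i, |H (σ i z)| ∂(P.prod P) ≤
      G * (K * (∑ i ∈ Finset.range m, ∫ z in D i, p (σ i z) ∂(P.prod P)) + m * ∫ z, r z ∂(P.prod P)) := by
    have s1 : ∀ i ∈ Finset.range m, ∫ z in D i, |H (σ i z)| ∂(P.prod P) ≤
        G * (K * (∫ z in D i, p (σ i z) ∂(P.prod P)) + ∫ z, r z ∂(P.prod P)) := by
      intro i hi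
      have hi' := Finset.mem_range.1 hi
      have iHs : Integrable (fun z => H (σ i z)) (P.prod P) := (hP.mp i hi').integrable_comp_of_integrable iH
      have ips : Integrable (fun z => p (σ i z)) (P.prod P) := (hP.mp i hi').integrable_comp_of_integrable ip
      have irs : Integrable (fun z => r (σ i z)) (P.prod P) := (hP.mp i hi').integrable_comp_of_integrable ir
      calc ∫ z in D i, |H (σ i z)| ∂(P.prod P)
          ≤ ∫ z in D i, G * (K * p (σ i z) + r (σ i z)) ∂(P.prod P) := by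
            refine setIntegral_mono_on iHs.abs.integrableOn (((ips.const_mul K).add irs).const_mul G).integrableOn (hP.mD i)
              fun z _ => ?_
            exact abs_HH_le h h' g0 gG B hc hc' (σ i z)
        _ = G * (K * (∫ z in D i, p (σ i z) ∂(P.prod P)) + ∫ z in D i, r (σ i z) ∂(P.prod P)) := by
            rw [integral_const_mul, integral_add (ips.const_mul K).integrableOn irs.integrableOn, integral_const_mul]
        _ ≤ _ := by
            refine mul_le_mul_of_nonneg_left (add_le_add le_rfl ?_) G0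
            have e1 : ∫ z in D i, r (σ i z) ∂(P.prod P) ≤ ∫ z, r (σ i z) ∂(P.prod P) :=
              setIntegral_le_integral irs (Filter.Eventually.of_forall fun z => r0 _)
            have e2 : ∫ z, r (σ i z) ∂(P.prod P) = ∫ z, r z ∂(P.prod P) := by
              have := integral_map (μ := P.prod P) (hP.mp i hi').measurable.aemeasurable (f := r)
                (by rw [(hP.mp i hi').map_eq]; exact ir.aestronglyMeasurable)
              rw [(hP.mp i hi').map_eq] at this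
              exact this.symm
            exact e1.trans e2.le
    refine (Finset.sum_le_sum s1).trans (le_of_eq ?_)
    rw [← Finset.mul_sum, Finset.sum_add_distrib, ← Finset.mul_sum, Finset.sum_const, Finset.card_range, nsmul_eq_mul]
  -- no success
  have mU : MeasurableSet (⋃ i ∈ Finset.range m, A i)ᶜ := (Finset.measurableSet_biUnion _ fun i _ => hP.mA i).compl
  have k3 : ∫ z in (⋃ i ∈ Finset.range m, A i)ᶜ, |H z| ∂(P.prod P) ≤
      G * (K * (∫ z in (⋃ i ∈ Finset.range m, A i)ᶜ, p z ∂(P.prod P)) + ∫ z, r z ∂(P.prod P)) := by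
    calc ∫ z in (⋃ i ∈ Finset.range m, A i)ᶜ, |H z| ∂(P.prod P)
        ≤ ∫ z in (⋃ i ∈ Finset.range m, A i)ᶜ, G * (K * p z + r z) ∂(P.prod P) := by
          refine setIntegral_mono_on iH.abs.integrableOn (((ip.const_mul K).add ir).const_mul G).integrableOn mU fun z _ => ?_
          exact abs_HH_le h h' g0 gG B hc hc' z
      _ = G * (K * (∫ z in (⋃ i ∈ Finset.range m, A i)ᶜ, p z ∂(P.prod P)) +
          ∫ z in (⋃ i ∈ Finset.range m, A i)ᶜ, r z ∂(P.prod P)) := by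
          rw [integral_const_mul, integral_add (ip.const_mul K).integrableOn ir.integrableOn, integral_const_mul]
      _ ≤ _ := by
          refine mul_le_mul_of_nonneg_left (add_le_add le_rfl ?_) G0
          exact setIntegral_le_integral ir (Filter.Eventually.of_forall r0)
  rw [Finset.sum_add_distrib] at key
  rw [er] at k1 k2 k3
  rw [ea] at k1
  set x1 := L * o * (K * ∫ z, p z ∂(P.prod P) + (∫ ω, R c ω ∂P + ∫ ω, R' c' ω ∂P)) with hx1
  have x10 : 0 ≤ x1 := by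
    have q1 : 0 ≤ ∫ z, p z ∂(P.prod P) := integral_nonneg p0
    have q2 : 0 ≤ ∫ ω, R c ω ∂P := integral_nonneg (h.R0 c hc)
    have q3 : 0 ≤ ∫ ω, R' c' ω ∂P := integral_nonneg (h'.R0 c' hc')
    positivity
  have x20 : 0 ≤ m * (G * (τ * (2 + 2 * ∫ ω, |C' c' ω| ∂P))) := by
    have q1 : 0 ≤ ∫ ω, |C' c' ω| ∂P := integral_nonneg fun ω => abs_nonneg _
    positivity
  have x30 : 0 ≤ G * (K * (∑ i ∈ Finset.range m, ∫ z in D i, p (σ i z) ∂(P.prod P)) +
      m * (∫ ω, R c ω ∂P + ∫ ω, R' c' ω ∂P)) := by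
    have q1 : 0 ≤ ∑ i ∈ Finset.range m, ∫ z in D i, p (σ i z) ∂(P.prod P) :=
      Finset.sum_nonneg fun i _ => integral_nonneg fun z => p0 _
    have q2 : 0 ≤ ∫ ω, R c ω ∂P := integral_nonneg (h.R0 c hc)
    have q3 : 0 ≤ ∫ ω, R' c' ω ∂P := integral_nonneg (h'.R0 c' hc')
    positivity
  linarith

end pair2

/-! ### All pairs -/

section all

variable {S : Finset ι} {S' : Finset ι'} {C w ws R : ι → Ω → ℝ} {C' w' ws' R' : ι' → Ω → ℝ} {K X X' t t' : ℝ}

theorem CD.X0 (h : CD P S C w ws R K X t) : 0 ≤ X :=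
  (Finset.sum_nonneg fun c hc => integral_nonneg (h.ws0 c hc)).trans h.tX

theorem CD.t0 (h : CD P S C w ws R K X t) : 0 ≤ t :=
  (Finset.sum_nonneg fun c hc => integral_nonneg (h.R0 c hc)).trans h.tR

theorem CD.sumw [IsProbabilityMeasure P] (h : CD P S C w ws R K X t) : ∑ c ∈ S, ∫ ω, w c ω ∂P ≤ 1 := by
  rw [← integral_finsetSum _ fun c hc => h.iw hc]
  calc ∫ ω, ∑ c ∈ S, w c ω ∂P ≤ ∫ _ω, (1 : ℝ) ∂P :=
        integral_mono (integrable_finsetSum _ fun c hc => h.iw hc) (integrable_const _) h.sw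
    _ = 1 := by simp

theorem CD.sumw0 (h : CD P S C w ws R K X t) : 0 ≤ ∑ c ∈ S, ∫ ω, w c ω ∂P :=
  Finset.sum_nonneg fun c hc => integral_nonneg (h.w0 c hc)

theorem sum_pw_le [IsProbabilityMeasure P] (h : CD P S C w ws R K X t) (h' : CD P S' C' w' ws' R' K X' t') :
    ∑ c ∈ S, ∑ c' ∈ S', ∫ z, pw (w c) (ws c) (w' c') (ws' c') z ∂(P.prod P) ≤ X + X' := by
  have e1 : ∀ c ∈ S, ∀ c' ∈ S', ∫ z, pw (w c) (ws c) (w' c') (ws' c') z ∂(P.prod P) =
      (∫ ω, ws c ω ∂P) * (∫ ω, w' c' ω ∂P) + (∫ ω, w c ω ∂P) * ∫ ω, ws' c' ω ∂P := by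
    intro c hc c' hc'
    have e : ∫ z, pw (w c) (ws c) (w' c') (ws' c') z ∂(P.prod P) =
        ∫ z : Ω × Ω, ws c z.1 * w' c' z.2 ∂(P.prod P) + ∫ z : Ω × Ω, w c z.1 * ws' c' z.2 ∂(P.prod P) :=
      integral_add ((h.iws c hc).mul_prod (h'.iw hc')) ((h.iw hc).mul_prod (h'.iws c' hc'))
    rw [e, integral_prod_mul, integral_prod_mul]
  rw [Finset.sum_congr rfl fun c hc => Finset.sum_congr rfl fun c' hc' => e1 c hc c' hc']
  simp only [Finset.sum_add_distrib, ← Finset.mul_sum, ← Finset.sum_mul]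
  have a1 := h.tX
  have a2 := h'.tX
  have a3 := h.sumw
  have a4 := h'.sumw
  have a5 := h.sumw0
  have a6 := h'.sumw0
  have a7 : 0 ≤ ∑ c ∈ S, ∫ ω, ws c ω ∂P := Finset.sum_nonneg fun c hc => integral_nonneg (h.ws0 c hc)
  have a8 : 0 ≤ ∑ c ∈ S', ∫ ω, ws' c ω ∂P := Finset.sum_nonneg fun c hc => integral_nonneg (h'.ws0 c hc)
  have b1 : (∑ c ∈ S, ∫ ω, ws c ω ∂P) * ∑ c ∈ S', ∫ ω, w' c ω ∂P ≤ X * 1 := mul_le_mul a1 a4 a6 h.X0
  have b2 : (∑ c ∈ S, ∫ ω, w c ω ∂P) * ∑ c ∈ S', ∫ ω, ws' c ω ∂P ≤ 1 * X' := mul_le_mul a3 a2 a8 zero_le_one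
  linarith

theorem sum_RR_le (h : CD P S C w ws R K X t) (h' : CD P S' C' w' ws' R' K X' t') :
    ∑ c ∈ S, ∑ c' ∈ S', (∫ ω, R c ω ∂P + ∫ ω, R' c' ω ∂P) ≤ S'.card * t + S.card * t' := by
  have e : ∑ c ∈ S, ∑ c' ∈ S', (∫ ω, R c ω ∂P + ∫ ω, R' c' ω ∂P) =
      S'.card * (∑ c ∈ S, ∫ ω, R c ω ∂P) + S.card * ∑ c' ∈ S', ∫ ω, R' c' ω ∂P := by
    simp only [Finset.sum_add_distrib, Finset.sum_const, nsmul_eq_mul, ← Finset.mul_sum]
  rw [e]
  exact add_le_add (mul_le_mul_of_nonneg_left h.tR (Nat.cast_nonneg _))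
    (mul_le_mul_of_nonneg_left h'.tR (Nat.cast_nonneg _))

/-- **THE RATIO DOES NOT DEPEND ON THE CONTEXT.** -/
theorem lec60 [IsProbabilityMeasure P] (h : CD P S C w ws R K X t) (h' : CD P S' C' w' ws' R' K X' t') {g : ℝ → ℝ} {G L : ℝ}
    (hg : Measurable g) (g0 : ∀ x, 0 ≤ g x) (gG : ∀ x, g x ≤ G) (gL : ∀ x y, |g x - g y| ≤ L * |x - y|) {B : Ω → ℝ}
    (hB : Measurable B) {m : ℕ} {σ : ι → ι' → ℕ → Ω × Ω → Ω × Ω} {A D : ι → ι' → ℕ → Set (Ω × Ω)} {o τ : ℝ} (o0 : 0 ≤ o)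
    (τ0 : 0 ≤ τ)
    (hP : ∀ c ∈ S, ∀ c' ∈ S', PD P B (C c) (w c) (C' c') (w' c') m (σ c c') (A c c') (D c c') o τ) {N1 N2 Y : ℝ}
    (hN1 : ∑ c ∈ S, ∑ c' ∈ S', ∑ i ∈ Finset.range m,
      ∫ z in D c c' i, pw (w c) (ws c) (w' c') (ws' c') (σ c c' i z) ∂(P.prod P) ≤ N1)
    (hN2 : ∑ c ∈ S, ∑ c' ∈ S', ∫ z in (⋃ i ∈ Finset.range m, A c c' i)ᶜ, pw (w c) (ws c) (w' c') (ws' c') z ∂(P.prod P) ≤ N2)
    (hY : ∀ c' ∈ S', ∫ ω, |C' c' ω| ∂P ≤ Y) :
    |(∑ c ∈ S, ∫ ω, g (B ω) * C c ω ∂P) * (∑ c' ∈ S', ∫ ω, w' c' ω ∂P) -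
        (∑ c ∈ S, ∫ ω, g (B ω) * w c ω ∂P) * (∑ c' ∈ S', ∫ ω, C' c' ω ∂P)| ≤
      L * o * (K * (X + X') + (S'.card * t + S.card * t')) +
      S.card * S'.card * (m * (G * (τ * (2 + 2 * Y)))) +
      G * (K * N1 + m * (S'.card * t + S.card * t')) +
      G * (K * N2 + (S'.card * t + S.card * t')) := by
  classical
  have L0 : 0 ≤ L := by
    have h1 := gL 1 0
    have h2 := abs_nonneg (g 1 - g 0)
    simp only [sub_zero, abs_one, mul_one] at h1
    linarith
  have G0 : 0 ≤ G := (g0 0).trans (gG 0)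
  have K0 := h.K0
  -- the left side is the sum of the integrals over the two copies
  have igC : ∀ c ∈ S, Integrable (fun ω => g (B ω) * C c ω) P := by
    intro c hc
    refine (h.iC hc).bdd_mul (c := G) (hg.comp hB).aestronglyMeasurable (Filter.Eventually.of_forall fun ω => ?_)
    rw [Real.norm_eq_abs, abs_of_nonneg (g0 _)]
    exact gG _
  have igw : ∀ c ∈ S, Integrable (fun ω => g (B ω) * w c ω) P := by
    intro c hc
    refine (h.iw hc).bdd_mul (c := G) (hg.comp hB).aestronglyMeasurable (Filter.Eventually.of_forall fun ω => ?_)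
    rw [Real.norm_eq_abs, abs_of_nonneg (g0 _)]
    exact gG _
  have e1 : ∀ c ∈ S, ∀ c' ∈ S', ∫ z, HH g B (C c) (w c) (C' c') (w' c') z ∂(P.prod P) =
      (∫ ω, g (B ω) * C c ω ∂P) * (∫ ω, w' c' ω ∂P) - (∫ ω, g (B ω) * w c ω ∂P) * ∫ ω, C' c' ω ∂P := by
    intro c hc c' hc'
    have e : ∀ z : Ω × Ω, HH g B (C c) (w c) (C' c') (w' c') z =
        (g (B z.1) * C c z.1) * w' c' z.2 - (g (B z.1) * w c z.1) * C' c' z.2 := by
      intro z
      unfold HH
      ring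
    have p1 : ∫ z : Ω × Ω, (g (B z.1) * C c z.1) * w' c' z.2 ∂(P.prod P) =
        (∫ ω, g (B ω) * C c ω ∂P) * ∫ ω, w' c' ω ∂P :=
      integral_prod_mul (fun ω => g (B ω) * C c ω) (w' c')
    have p2 : ∫ z : Ω × Ω, (g (B z.1) * w c z.1) * C' c' z.2 ∂(P.prod P) =
        (∫ ω, g (B ω) * w c ω ∂P) * ∫ ω, C' c' ω ∂P :=
      integral_prod_mul (fun ω => g (B ω) * w c ω) (C' c')
    rw [integral_congr_ae (Filter.Eventually.of_forall e),
      integral_sub ((igC c hc).mul_prod (h'.iw hc')) ((igw c hc).mul_prod (h'.iC hc')), p1, p2]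
  have e2 : (∑ c ∈ S, ∫ ω, g (B ω) * C c ω ∂P) * (∑ c' ∈ S', ∫ ω, w' c' ω ∂P) -
        (∑ c ∈ S, ∫ ω, g (B ω) * w c ω ∂P) * (∑ c' ∈ S', ∫ ω, C' c' ω ∂P) =
      ∑ c ∈ S, ∑ c' ∈ S', ∫ z, HH g B (C c) (w c) (C' c') (w' c') z ∂(P.prod P) := by
    rw [Finset.sum_congr rfl fun c hc => Finset.sum_congr rfl fun c' hc' => e1 c hc c' hc']
    simp only [Finset.sum_sub_distrib, ← Finset.mul_sum, ← Finset.sum_mul]
  rw [e2]
  have k1 : ∀ c ∈ S, ∀ c' ∈ S', |∫ z, HH g B (C c) (w c) (C' c') (w' c') z ∂(P.prod P)| ≤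
      L * o * (K * ∫ z, pw (w c) (ws c) (w' c') (ws' c') z ∂(P.prod P) + (∫ ω, R c ω ∂P + ∫ ω, R' c' ω ∂P)) +
      m * (G * (τ * (2 + 2 * Y))) +
      G * (K * (∑ i ∈ Finset.range m, ∫ z in D c c' i, pw (w c) (ws c) (w' c') (ws' c') (σ c c' i z) ∂(P.prod P)) +
        m * (∫ ω, R c ω ∂P + ∫ ω, R' c' ω ∂P)) +
      G * (K * (∫ z in (⋃ i ∈ Finset.range m, A c c' i)ᶜ, pw (w c) (ws c) (w' c') (ws' c') z ∂(P.prod P)) +
        (∫ ω, R c ω ∂P + ∫ ω, R' c' ω ∂P)) := by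
    intro c hc c' hc'
    have k := pair60 h h' hg g0 gG gL hB hc hc' o0 τ0 (hP c hc c' hc')
    have k2 : m * (G * (τ * (2 + 2 * ∫ ω, |C' c' ω| ∂P))) ≤ m * (G * (τ * (2 + 2 * Y))) := by
      have := hY c' hc'
      gcongr
    linarith
  refine (Finset.abs_sum_le_sum_abs _ _).trans ?_
  refine (Finset.sum_le_sum fun c hc => (Finset.abs_sum_le_sum_abs _ _).trans (Finset.sum_le_sum fun c' hc' => k1 c hc c' hc')).trans ?_
  have s1 := sum_pw_le h h'
  have s2 := sum_RR_le h h'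
  simp only [Finset.sum_add_distrib, ← Finset.mul_sum, Finset.sum_const, nsmul_eq_mul] at s2 ⊢
  have r1 := mul_le_mul_of_nonneg_left s1 (mul_nonneg (mul_nonneg L0 o0) K0)
  have r2 := mul_le_mul_of_nonneg_left s2 (mul_nonneg L0 o0)
  have r3 := mul_le_mul_of_nonneg_left s2 G0
  have r4 := mul_le_mul_of_nonneg_left s2 (mul_nonneg G0 (Nat.cast_nonneg (α := ℝ) m))
  have r5 := mul_le_mul_of_nonneg_left hN1 (mul_nonneg G0 K0)
  have r6 := mul_le_mul_of_nonneg_left hN2 (mul_nonneg G0 K0)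
  nlinarith

end all

end Pool.Agent.W_7d29a1_C1.H60
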