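import Pool.Agent.W_7d29a1_C1.AsmC8

/-!
MP_7d29a1_pr, attractor route (helper8): the last step of the assembly, second form: the total functional is the sum over ALL contacts
(helper99 79013), so the first and the last rows are not separated.
-/

set_option autoImplicit false

namespace Pool.Agent.W_7d29a1_C1.H8

open MeasureTheory ProbabilityTheory Set Finset Filter Topology
open Pool.Agent.W_7d29a1_F Pool.Agent.W_7d29a1_h4g Pool.Agent.W_7d29a1_H Pool.Agent.W_7d29a1_HS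
open Pool.Agent.W_7d29a1_h47 (EM)
open Pool.Agent.W_7d29a1_C1.H54 (LMx LMR54)
open Pool.Agent.W_7d29a1_C1.H60 (Cx Adm)
open scoped ENNReal NNReal

noncomputable section

/-- **The frame weights**: the sum over all contacts is at most `n ^ (1 / 20)`. -/
def XsP8 (μ : Measure ℝ) (s : ℝ) : Prop :=
  ∃ c₀ : ℝ, 0 < c₀ ∧ ∀ c : ℝ, 0 < c → c ≤ c₀ → ∀ δ : ℝ, 0 < δ → δ ≤ c / 16 → ∃ κ₀ : ℝ, 0 < κ₀ ∧
    ∀ κ : ℝ, 0 < κ → κ ≤ κ₀ → ∀ᶠ n : ℕ in atTop, ∀ Γ : Cx, Adm μ s c δ κ n Γ →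
      ∑ b ∈ Γ.rows 0 Γ.N, ∫ η, Γ.ws b η ∂(law μ) ≤ (n : ℝ) ^ (1 / 20 : ℝ)

/-- **THE TOTAL FUNCTIONAL OF ALL ROWS**: up to the error its mean against a function of the balance point is `v` times the mean of the
function. -/
def PhiA8 (μ : Measure ℝ) (s : ℝ) : Prop :=
  ∀ e : ℝ, 0 < e → e ≤ 1 / 32 → ∃ c₀ : ℝ, 0 < c₀ ∧ ∀ c : ℝ, 0 < c → c ≤ c₀ → ∀ δ : ℝ, 0 < δ → δ ≤ c / 16 → ∃ κ₀ : ℝ, 0 < κ₀ ∧
    ∀ κ : ℝ, 0 < κ → κ ≤ κ₀ → ∀ᶠ n : ℕ in atTop, ∃ v : ℝ, ∀ Γ : Cx, Adm μ s c δ κ n Γ → ∀ a0 : ℝ,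
      |(∫ η, tri ((n : ℝ) ^ (-c) * EE μ s n) (Γ.B η - a0) * (∑ b ∈ Γ.rows 0 Γ.N, Γ.C b η) ∂(law μ)) -
        v * ∫ η, tri ((n : ℝ) ^ (-c) * EE μ s n) (Γ.B η - a0) ∂(law μ)| ≤
        1 / 4 * ((n : ℝ) ^ (-c) / EE μ s n) + (n : ℝ) ^ (2 * e + c) / EE μ s n * Γ.near μ ⌈(n : ℝ) ^ e⌉₊

variable {μ : Measure ℝ} [IsProbabilityMeasure μ] {s : ℝ}

/-- **THE LAST STEP OF THE ASSEMBLY**, all rows. -/
theorem lmd8 (hμ : EM μ) (hE9 : ∀ᶠ n : ℕ in atTop, (n : ℝ) ^ (1 / 9 : ℝ) ≤ EE μ s n) (hLoc : LocP8 μ s) (hXs : XsP8 μ s)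
    (hPhi : PhiA8 μ s) : LMC8 μ s := by
  intro e he he1
  obtain ⟨c₁, hc₁, hXs⟩ := hXs
  obtain ⟨c₂, hc₂, hPhi⟩ := hPhi e he he1
  obtain ⟨c, hcd⟩ : ∃ c : ℝ, c = min (min (c₁ / 4) c₂) (min (e / 16) (1 / 512)) := ⟨_, rfl⟩
  have hc : 0 < c := by
    rw [hcd]
    exact lt_min (lt_min (by linarith) hc₂) (lt_min (by linarith) (by norm_num))
  have hcc₁ : c ≤ c₁ / 4 := by rw [hcd]; exact (min_le_left _ _).trans (min_le_left _ _)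
  have hcc₂ : c ≤ c₂ := by rw [hcd]; exact (min_le_left _ _).trans (min_le_right _ _)
  have hce : c ≤ e / 16 := by rw [hcd]; exact (min_le_right _ _).trans (min_le_left _ _)
  have hc5 : c ≤ 1 / 512 := by rw [hcd]; exact (min_le_right _ _).trans (min_le_right _ _)
  refine ⟨c, hc, by linarith, fun δ hδ hδc => ?_⟩
  obtain ⟨κ₁, hκ₁, hLoc⟩ := hLoc (c / 4) (by linarith) c hc hc5 δ hδ hδc
  obtain ⟨κ₂, hκ₂, hXs⟩ := hXs c hc (by linarith) δ hδ hδc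
  obtain ⟨κ₃, hκ₃, hPhi⟩ := hPhi c hc hcc₂ δ hδ hδc
  obtain ⟨κ, hκd⟩ : ∃ κ : ℝ, κ = min (min κ₁ κ₂) (min κ₃ δ) := ⟨_, rfl⟩
  have hκ : 0 < κ := by
    rw [hκd]
    exact lt_min (lt_min hκ₁ hκ₂) (lt_min hκ₃ hδ)
  have k1 : κ ≤ κ₁ := by rw [hκd]; exact (min_le_left _ _).trans (min_le_left _ _)
  have k2 : κ ≤ κ₂ := by rw [hκd]; exact (min_le_left _ _).trans (min_le_right _ _)
  have k3 : κ ≤ κ₃ := by rw [hκd]; exact (min_le_right _ _).trans (min_le_left _ _)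
  have k4 : κ ≤ δ := by rw [hκd]; exact (min_le_right _ _).trans (min_le_right _ _)
  refine ⟨κ, hκ, k4, ?_⟩
  have hbig : ∀ᶠ n : ℕ in atTop, (32 : ℝ) ≤ (n : ℝ) ^ (c / 4) :=
    ((tendsto_rpow_atTop (by linarith : (0 : ℝ) < c / 4)).comp tendsto_natCast_atTop_atTop).eventually_ge_atTop 32
  filter_upwards [hLoc κ hκ k1, hXs κ hκ k2, hPhi κ hκ k3, hbig, hE9, eventually_ge_atTop 1] with n hLoc hXs hPhi hbig hE9 hn1
  obtain ⟨v, hPhi⟩ := hPhi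
  refine ⟨2 * v, fun Γ hA hq a0 => ?_⟩
  obtain ⟨R, hR0, iR, sR, hR⟩ := hLoc Γ hA
  have hX := hXs Γ hA
  have hG := hA.ok
  have hnR : (1 : ℝ) ≤ n := by exact_mod_cast hn1
  have n0 : (0 : ℝ) < n := by linarith
  have E0 : 0 < EE μ s n := (Real.rpow_pos_of_pos n0 _).trans_le hE9
  obtain ⟨τ, hτ⟩ : ∃ τ : ℝ, τ = (n : ℝ) ^ (-c) * EE μ s n := ⟨_, rfl⟩
  have hτ0 : 0 < τ := by rw [hτ]; exact mul_pos (Real.rpow_pos_of_pos n0 _) E0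
  have hGt : 1 / τ = (n : ℝ) ^ c / EE μ s n := by
    rw [hτ, Real.rpow_neg n0.le]
    have := (Real.rpow_pos_of_pos n0 c).ne'
    field_simp
  have hw := wgt_tri hτ0
  obtain ⟨d, hd⟩ : ∃ d : ℕ, d = ⌈(n : ℝ) ^ e⌉₊ := ⟨_, rfl⟩
  rw [← hd] at hPhi ⊢
  rw [← hτ] at hPhi ⊢
  have gm : Measurable fun a => tri τ (a - a0) := by
    have := hw.cont.measurable
    exact this.comp (measurable_id.sub_const a0)
  have g0 : ∀ x, |tri τ x| ≤ 1 / τ := fun x => by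
    rw [abs_of_nonneg (hw.nn x)]
    exact tri_le hτ0 x
  have gG : ∀ x, |tri τ (x - a0)| ≤ 1 / τ := fun x => g0 _
  have gL : ∀ x y, |tri τ x - tri τ y| ≤ 1 / τ ^ 2 * |x - y| := hw.lip
  have hnr : 0 ≤ Γ.near μ d := Cx.near_nonneg hG d
  -- the localisation
  have b2 := locsum8 (g := tri τ) (a0 := a0) (L := 1 / τ ^ 2) (ε := c / 4) hG (by positivity) iR sR hX
    fun b hb η => (hR b hb η).2 (tri τ) hw.cont.measurable (1 / τ ^ 2) (by positivity) gL a0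
  rw [← one_div_pow] at b2
  have e0 : Γ.rows 0 0 = ∅ := by
    unfold Cx.rows
    rw [Finset.Ico_self, Finset.empty_product]
  have e1 : Γ.rows (Γ.N - 0) Γ.N = ∅ := by
    unfold Cx.rows
    rw [Nat.sub_zero, Finset.Ico_self, Finset.empty_product]
  have key := core8 (B1 := 0) (B3 := 0) hμ hG (d := 0) (Nat.zero_le _) gm gG (by rw [e0, Finset.sum_empty]) b2
    (by rw [e1, Finset.sum_empty]) (hPhi Γ hA a0)
  have num := numC8 (n := (n : ℝ)) (E := EE μ s n) (c := c) (e := e) (c₀ := c₁) (ε := c / 4) hnR hE9 hc hc5 hcc₁ hce rfl hbig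
    (δ := δ) (near := Γ.near μ d) hδ.le hnr
  rw [← hGt] at num
  have e8 : 2 * v / 2 = v := by ring
  rw [e8]
  have p1 : 0 ≤ 1 / τ * ((n : ℝ) ^ (2 * e + 2 * (c / 4)) * Γ.near μ d + (n : ℝ) ^ (-(1 : ℝ))) := by positivity
  have p2 : 0 ≤ 1 / τ * ((n : ℝ) ^ (c / 4) * (n : ℝ) ^ (-c₁) + (n : ℝ) ^ (-(1 : ℝ))) := by positivity
  refine key.trans (le_trans ?_ num)
  linarith

/-- The same for `LMR54`. -/
theorem lmrD8 (hμ : EM μ) (hE9 : ∀ᶠ n : ℕ in atTop, (n : ℝ) ^ (1 / 9 : ℝ) ≤ EE μ s n) (hLoc : LocP8 μ s) (hXs : XsP8 μ s)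
    (hPhi : PhiA8 μ s) : LMR54 μ s := lmr8 hμ (lmd8 hμ hE9 hLoc hXs hPhi)

end

end Pool.Agent.W_7d29a1_C1.H8
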