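import Pool.Agent.W_7d29a1_C1.Lev91

/-!
MP_7d29a1_pr, the attractor route: THE TWO PATH KERNEL. (helper91)

`dp` = determinant of the two groups at two sites of a row, `pb` = backward masses of two paths which do not meet. `dp` is transported by
the two path kernel (LGV), `sum_dp_pb`; the mass of the pairs which have not met loses, per row, the pairs which meet: `nm_step`.
-/

set_option autoImplicit false

namespace Pool.Agent.W_7d29a1_C1.K91

open Finset

noncomputable section

variable {w : ℕ → ℤ → ℝ} {p : ℝ} {l r : ℤ → ℝ} {X lo hi : ℤ} {N : ℕ}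

/-- The determinant of the two groups at the sites `x`, `y` of the row `k`. -/
def dp (w : ℕ → ℤ → ℝ) (p : ℝ) (l r : ℤ → ℝ) (k : ℕ) (x y : ℤ) : ℝ :=
  fw w p l k x * fw w p r k y - fw w p l k y * fw w p r k x

theorem dp_self (k : ℕ) (x : ℤ) : dp w p l r k x x = 0 := by
  unfold dp
  ring

theorem dt_dp (k : ℕ) (q : ℤ) : dt w p l r k q = dp w p l r k (q - 1) q := rfl

theorem dp_succ (k : ℕ) (x y : ℤ) :
    dp w p l r (k + 1) x y = w k x * w k y * dp w p l r k x y + p * (w k (x - 1) * w k y * dp w p l r k (x - 1) y) +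
      p * (w k x * w k (y - 1) * dp w p l r k x (y - 1)) +
      p ^ 2 * (w k (x - 1) * w k (y - 1) * dp w p l r k (x - 1) (y - 1)) := by
  unfold dp
  rw [fw_succ, fw_succ, fw_succ, fw_succ]
  ring

/-- **LGV**: the determinants are nonnegative. -/
theorem dp_nonneg (hw : ∀ k y, 0 < w k y) (hp : 0 < p) (h : Grp l r X) : ∀ (k : ℕ) (x y : ℤ), x ≤ y → 0 ≤ dp w p l r k x y
  | 0, x, y, hxy => by
    show 0 ≤ l x * r y - l y * r x
    by_cases hy : X ≤ y
    · by_cases hx : X ≤ x
      · rw [h.lX x hx, h.lX y hy]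
        simp
      · rw [h.lX y hy, zero_mul, sub_zero]
        exact mul_nonneg (h.l0 x) (h.r0 y)
    · rw [h.rX x (by omega), mul_zero, sub_zero]
      exact mul_nonneg (h.l0 x) (h.r0 y)
  | k + 1, x, y, hxy => by
    rcases eq_or_lt_of_le hxy with h1 | h1
    · rw [h1, dp_self]
    · have a1 := dp_nonneg hw hp h k x y hxy
      have a2 := dp_nonneg hw hp h k (x - 1) y (by omega)
      have a3 := dp_nonneg hw hp h k x (y - 1) (by omega)
      have a4 := dp_nonneg hw hp h k (x - 1) (y - 1) (by omega)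
      have b1 := hw k x
      have b2 := hw k y
      have b3 := hw k (x - 1)
      have b4 := hw k (y - 1)
      rw [dp_succ]
      positivity

theorem dp_zero_left (h : Box l r X lo hi N) (k : ℕ) {x : ℤ} (hx : x < lo) (y : ℤ) : dp w p l r k x y = 0 := by
  unfold dp
  rw [(h.fl k hx).1, (h.fl k hx).2]
  ring

theorem dp_zero_right (h : Box l r X lo hi N) {k : ℕ} {y : ℤ} (hy : hi - N + k < y) (x : ℤ) : dp w p l r k x y = 0 := by
  unfold dp
  rw [(h.fh hy).1, (h.fh hy).2]
  ring

/-- Backward masses of two paths which do not meet, `j` rows from the row `k` on, final weight `g`. -/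
def pb (w : ℕ → ℤ → ℝ) (p : ℝ) (g : ℤ → ℤ → ℝ) : ℕ → ℕ → ℤ → ℤ → ℝ
  | _, 0, x, y => if x < y then g x y else 0
  | k, j + 1, x, y => if x < y then w k x * w k y * (pb w p g (k + 1) j x y + p * pb w p g (k + 1) j (x + 1) y +
      p * pb w p g (k + 1) j x (y + 1) + p ^ 2 * pb w p g (k + 1) j (x + 1) (y + 1)) else 0

theorem pb_zero (g : ℤ → ℤ → ℝ) (k : ℕ) (x y : ℤ) : pb w p g k 0 x y = if x < y then g x y else 0 := by
  cases k <;> rfl

theorem pb_succ (g : ℤ → ℤ → ℝ) (k j : ℕ) (x y : ℤ) : pb w p g k (j + 1) x y =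
    if x < y then w k x * w k y * (pb w p g (k + 1) j x y + p * pb w p g (k + 1) j (x + 1) y +
      p * pb w p g (k + 1) j x (y + 1) + p ^ 2 * pb w p g (k + 1) j (x + 1) (y + 1)) else 0 := by
  cases k <;> rfl

theorem pb_not (g : ℤ → ℤ → ℝ) (k j : ℕ) {x y : ℤ} (h : ¬ x < y) : pb w p g k j x y = 0 := by
  cases j with
  | zero => rw [pb_zero, if_neg h]
  | succ j => rw [pb_succ, if_neg h]

theorem pb_nonneg (hw : ∀ k y, 0 < w k y) (hp : 0 < p) {g : ℤ → ℤ → ℝ} (hg : ∀ x y, 0 ≤ g x y) :
    ∀ (j k : ℕ) (x y : ℤ), 0 ≤ pb w p g k j x y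
  | 0, k, x, y => by
    rw [pb_zero]
    split_ifs
    · exact hg x y
    · exact le_rfl
  | j + 1, k, x, y => by
    rw [pb_succ]
    split_ifs
    · have a1 := pb_nonneg hw hp hg j (k + 1) x y
      have a2 := pb_nonneg hw hp hg j (k + 1) (x + 1) y
      have a3 := pb_nonneg hw hp hg j (k + 1) x (y + 1)
      have a4 := pb_nonneg hw hp hg j (k + 1) (x + 1) (y + 1)
      have b1 := hw k x
      have b2 := hw k y
      positivity
    · exact le_rfl

theorem pb_mono (hw : ∀ k y, 0 < w k y) (hp : 0 < p) {g g' : ℤ → ℤ → ℝ} (hg : ∀ x y, g x y ≤ g' x y) :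
    ∀ (j k : ℕ) (x y : ℤ), pb w p g k j x y ≤ pb w p g' k j x y
  | 0, k, x, y => by
    rw [pb_zero, pb_zero]
    split_ifs
    · exact hg x y
    · exact le_rfl
  | j + 1, k, x, y => by
    rw [pb_succ, pb_succ]
    split_ifs
    · have a1 := pb_mono hw hp hg j (k + 1) x y
      have a2 := pb_mono hw hp hg j (k + 1) (x + 1) y
      have a3 := pb_mono hw hp hg j (k + 1) x (y + 1)
      have a4 := pb_mono hw hp hg j (k + 1) (x + 1) (y + 1)
      have b1 := hw k x
      have b2 := hw k y
      have c2 := mul_le_mul_of_nonneg_left a2 hp.le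
      have c3 := mul_le_mul_of_nonneg_left a3 hp.le
      have c4 := mul_le_mul_of_nonneg_left a4 (sq_nonneg p)
      exact mul_le_mul_of_nonneg_left (by linarith) (by positivity)
    · exact le_rfl

/-- The sum over the pairs of sites of the box. -/
def ps2 (lo hi : ℤ) (f : ℤ → ℤ → ℝ) : ℝ := ∑ x ∈ Icc lo hi, ∑ y ∈ Icc lo hi, f x y

theorem ps2_congr {lo hi : ℤ} {f g : ℤ → ℤ → ℝ} (h : ∀ x ∈ Icc lo hi, ∀ y ∈ Icc lo hi, f x y = g x y) :
    ps2 lo hi f = ps2 lo hi g :=
  sum_congr rfl fun x hx => sum_congr rfl fun y hy => h x hx y hy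

theorem ps2_add (f g : ℤ → ℤ → ℝ) : ps2 lo hi (fun x y => f x y + g x y) = ps2 lo hi f + ps2 lo hi g := by
  unfold ps2
  rw [← sum_add_distrib]
  exact sum_congr rfl fun x _ => sum_add_distrib

theorem ps2_mul (c : ℝ) (f : ℤ → ℤ → ℝ) : ps2 lo hi (fun x y => c * f x y) = c * ps2 lo hi f := by
  unfold ps2
  rw [mul_sum]
  exact sum_congr rfl fun x _ => (mul_sum _ _ _).symm

theorem ps2_shift_left (hlh : lo ≤ hi) {f : ℤ → ℤ → ℝ} (h1 : ∀ y, f (lo - 1) y = 0) (h2 : ∀ y, f hi y = 0) :
    ps2 lo hi (fun x y => f (x - 1) y) = ps2 lo hi f :=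
  sum_shift (f := fun x => ∑ y ∈ Icc lo hi, f x y) hlh (sum_eq_zero fun y _ => h1 y) (sum_eq_zero fun y _ => h2 y)

theorem ps2_shift_right (hlh : lo ≤ hi) {f : ℤ → ℤ → ℝ} (h1 : ∀ x, f x (lo - 1) = 0) (h2 : ∀ x, f x hi = 0) :
    ps2 lo hi (fun x y => f x (y - 1)) = ps2 lo hi f :=
  sum_congr rfl fun x _ => sum_shift (f := fun y => f x y) hlh (h1 x) (h2 x)

/-- **The two path kernel transports the determinants.** -/
theorem sum_dp_pb_step (h : Box l r X lo hi N) (g : ℤ → ℤ → ℝ) {k : ℕ} (hk : k < N) (j : ℕ) :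
    ps2 lo hi (fun x y => dp w p l r k x y * pb w p g k (j + 1) x y) =
      ps2 lo hi (fun x y => dp w p l r (k + 1) x y * pb w p g (k + 1) j x y) := by
  have hX0 := h.X0
  have hX1 := h.X1
  have hN : (0 : ℤ) ≤ N := by positivity
  have hkN : (k : ℤ) < N := by exact_mod_cast hk
  have hlh : lo ≤ hi := by omega
  -- the right side, expanded
  have e1 : ∀ x ∈ Icc lo hi, ∀ y ∈ Icc lo hi, dp w p l r (k + 1) x y * pb w p g (k + 1) j x y =
      w k x * w k y * dp w p l r k x y * pb w p g (k + 1) j x y +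
      ((fun x y => p * (w k x * w k y * dp w p l r k x y) * pb w p g (k + 1) j (x + 1) y) (x - 1) y +
      ((fun x y => p * (w k x * w k y * dp w p l r k x y) * pb w p g (k + 1) j x (y + 1)) x (y - 1) +
      (fun x y => p ^ 2 * (w k x * w k y * dp w p l r k x y) * pb w p g (k + 1) j (x + 1) (y + 1)) (x - 1) (y - 1))) := by
    intro x _ y _
    simp only [sub_add_cancel]
    rw [dp_succ]
    ring
  rw [ps2_congr e1, ps2_add, ps2_add, ps2_add]
  have s1 : ps2 lo hi (fun x y => (fun x y => p * (w k x * w k y * dp w p l r k x y) * pb w p g (k + 1) j (x + 1) y)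
      (x - 1) y) = ps2 lo hi (fun x y => p * (w k x * w k y * dp w p l r k x y) * pb w p g (k + 1) j (x + 1) y) := by
    refine ps2_shift_left (f := fun x y => p * (w k x * w k y * dp w p l r k x y) * pb w p g (k + 1) j (x + 1) y) hlh
      (fun y => ?_) (fun y => ?_)
    · show p * (w k (lo - 1) * w k y * dp w p l r k (lo - 1) y) * _ = 0
      rw [dp_zero_left h k (by omega)]
      ring
    · show p * (w k hi * w k y * dp w p l r k hi y) * _ = 0
      have e : dp w p l r k hi y = - dp w p l r k y hi := by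
        unfold dp
        ring
      rw [e, dp_zero_right h (by omega)]
      ring
  have s2 : ps2 lo hi (fun x y => (fun x y => p * (w k x * w k y * dp w p l r k x y) * pb w p g (k + 1) j x (y + 1))
      x (y - 1)) = ps2 lo hi (fun x y => p * (w k x * w k y * dp w p l r k x y) * pb w p g (k + 1) j x (y + 1)) := by
    refine ps2_shift_right (f := fun x y => p * (w k x * w k y * dp w p l r k x y) * pb w p g (k + 1) j x (y + 1)) hlh
      (fun x => ?_) (fun x => ?_)
    · show p * (w k x * w k (lo - 1) * dp w p l r k x (lo - 1)) * _ = 0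
      have e : dp w p l r k x (lo - 1) = - dp w p l r k (lo - 1) x := by
        unfold dp
        ring
      rw [e, dp_zero_left h k (by omega)]
      ring
    · show p * (w k x * w k hi * dp w p l r k x hi) * _ = 0
      rw [dp_zero_right h (by omega)]
      ring
  have s3 : ps2 lo hi (fun x y => (fun x y => p ^ 2 * (w k x * w k y * dp w p l r k x y) *
      pb w p g (k + 1) j (x + 1) (y + 1)) (x - 1) (y - 1)) =
      ps2 lo hi (fun x y => p ^ 2 * (w k x * w k y * dp w p l r k x y) * pb w p g (k + 1) j (x + 1) (y + 1)) := by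
    have a1 := ps2_shift_left (f := fun x y => (fun x y => p ^ 2 * (w k x * w k y * dp w p l r k x y) *
      pb w p g (k + 1) j (x + 1) (y + 1)) x (y - 1)) hlh (fun y => ?_) (fun y => ?_)
    · rw [a1]
      refine ps2_shift_right (f := fun x y => p ^ 2 * (w k x * w k y * dp w p l r k x y) *
        pb w p g (k + 1) j (x + 1) (y + 1)) hlh (fun x => ?_) (fun x => ?_)
      · show p ^ 2 * (w k x * w k (lo - 1) * dp w p l r k x (lo - 1)) * _ = 0
        have e : dp w p l r k x (lo - 1) = - dp w p l r k (lo - 1) x := by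
          unfold dp
          ring
        rw [e, dp_zero_left h k (by omega)]
        ring
      · show p ^ 2 * (w k x * w k hi * dp w p l r k x hi) * _ = 0
        rw [dp_zero_right h (by omega)]
        ring
    · show p ^ 2 * (w k (lo - 1) * w k (y - 1) * dp w p l r k (lo - 1) (y - 1)) * _ = 0
      rw [dp_zero_left h k (by omega)]
      ring
    · show p ^ 2 * (w k hi * w k (y - 1) * dp w p l r k hi (y - 1)) * _ = 0
      have e : dp w p l r k hi (y - 1) = - dp w p l r k (y - 1) hi := by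
        unfold dp
        ring
      rw [e, dp_zero_right h (by omega)]
      ring
  rw [s1, s2, s3, ← ps2_add, ← ps2_add, ← ps2_add]
  refine ps2_congr fun x _ y _ => ?_
  rw [pb_succ]
  by_cases hxy : x < y
  · rw [if_pos hxy]
    ring
  · rw [if_neg hxy, pb_not g (k + 1) j hxy, pb_not g (k + 1) j (show ¬ x + 1 < y by omega)]
    rcases eq_or_lt_of_le (not_lt.1 hxy) with h1 | h1
    · rw [h1, dp_self]
      ring
    · rw [pb_not g (k + 1) j (show ¬ x < y + 1 by omega), pb_not g (k + 1) j (show ¬ x + 1 < y + 1 by omega)]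
      ring

theorem sum_dp_pb (h : Box l r X lo hi N) (g : ℤ → ℤ → ℝ) : ∀ (j k : ℕ), k + j ≤ N →
    ps2 lo hi (fun x y => dp w p l r k x y * pb w p g k j x y) =
      ps2 lo hi (fun x y => dp w p l r (k + j) x y * if x < y then g x y else 0)
  | 0, k, _ => ps2_congr fun x _ y _ => by rw [pb_zero]; rfl
  | j + 1, k, hk => by
    rw [sum_dp_pb_step h g (show k < N by omega) j, sum_dp_pb h g j (k + 1) (by omega)]
    have e : k + 1 + j = k + (j + 1) := by ring
    rw [e]

/-! ### The pairs which have not met -/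

/-- The mass of the pairs which have not met up to the row `k`. -/
def nm (w : ℕ → ℤ → ℝ) (p : ℝ) (l r : ℤ → ℝ) (lo hi : ℤ) (N k : ℕ) : ℝ :=
  ps2 lo hi (fun x y => dp w p l r k x y * if x < y then bw w p k (N - k) x * bw w p k (N - k) y else 0)

theorem nm_nonneg (hw : ∀ k y, 0 < w k y) (hp : 0 < p) (h : Grp l r X) (k : ℕ) : 0 ≤ nm w p l r lo hi N k := by
  unfold nm ps2
  refine sum_nonneg fun x _ => sum_nonneg fun y _ => ?_
  show 0 ≤ dp w p l r k x y * (if x < y then bw w p k (N - k) x * bw w p k (N - k) y else 0)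
  by_cases hxy : x < y
  · rw [if_pos hxy]
    exact mul_nonneg (dp_nonneg hw hp h k x y hxy.le) (mul_nonneg (bw_pos hw hp _ _ _).le (bw_pos hw hp _ _ _).le)
  · rw [if_neg hxy, mul_zero]

/-- The mass of the pairs which meet at the row `k + 1`. -/
def mt (w : ℕ → ℤ → ℝ) (p : ℝ) (l r : ℤ → ℝ) (lo hi : ℤ) (N k : ℕ) : ℝ :=
  ∑ q ∈ Icc lo hi, dp w p l r k (q - 1) q * (p * (w k (q - 1) * w k q) * bw w p (k + 1) (N - (k + 1)) q ^ 2)

/-- At every row the mass of the pairs which have not met loses the mass of the pairs which meet. -/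
theorem nm_step (h : Box l r X lo hi N) {k : ℕ} (hk : k < N) :
    nm w p l r lo hi N k = nm w p l r lo hi N (k + 1) + mt w p l r lo hi N k := by
  have hX0 := h.X0
  have hX1 := h.X1
  have hN : (0 : ℤ) ≤ N := by positivity
  set g : ℤ → ℤ → ℝ := fun x y => bw w p (k + 1) (N - (k + 1)) x * bw w p (k + 1) (N - (k + 1)) y with hg
  have e1 := sum_dp_pb_step (w := w) (p := p) h g hk 0
  have e2 : ps2 lo hi (fun x y => dp w p l r (k + 1) x y * pb w p g (k + 1) 0 x y) = nm w p l r lo hi N (k + 1) :=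
    ps2_congr fun x _ y _ => by rw [pb_zero]
  rw [e2] at e1
  rw [← e1]
  have e3 : mt w p l r lo hi N k = ps2 lo hi (fun x y => if x = y - 1 then
      dp w p l r k (y - 1) y * (p * (w k (y - 1) * w k y) * bw w p (k + 1) (N - (k + 1)) y ^ 2) else 0) := by
    unfold mt ps2
    rw [sum_comm]
    refine sum_congr rfl fun y hy => ?_
    rw [sum_ite_eq' (Icc lo hi) (y - 1)]
    by_cases h3 : y - 1 ∈ Icc lo hi
    · rw [if_pos h3]
    · rw [if_neg h3]
      rw [mem_Icc] at h3 hy
      rw [dp_zero_left h k (show y - 1 < lo by omega), zero_mul]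
  rw [e3, ← ps2_add]
  unfold nm
  refine ps2_congr fun x _ y _ => ?_
  rw [bw_eq hk, bw_eq hk, pb_succ]
  by_cases hxy : x < y
  · rw [if_pos hxy, if_pos hxy, pb_zero, pb_zero, pb_zero, pb_zero, if_pos hxy, if_pos (show x < y + 1 by omega),
      if_pos (show x + 1 < y + 1 by omega)]
    unfold GG
    by_cases h4 : x = y - 1
    · rw [if_pos h4, if_neg (show ¬ x + 1 < y by omega), h4, sub_add_cancel]
      simp only [hg]
      ring
    · rw [if_neg h4, if_pos (show x + 1 < y by omega)]
      simp only [hg]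
      ring
  · rw [if_neg hxy, if_neg hxy, if_neg (show ¬ x = y - 1 by omega)]
    ring

/-- At the row `0` all pairs have not met. -/
theorem nm_zero (h : Box l r X lo hi N) : nm w p l r lo hi N 0 =
    (∑ x ∈ Icc lo hi, l x * bw w p 0 N x) * ∑ y ∈ Icc lo hi, r y * bw w p 0 N y := by
  unfold nm ps2
  rw [sum_mul_sum]
  refine sum_congr rfl fun x _ => sum_congr rfl fun y _ => ?_
  show (l x * r y - l y * r x) * (if x < y then bw w p 0 N x * bw w p 0 N y else 0) = _
  by_cases hxy : x < y
  · rw [if_pos hxy]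
    by_cases hx : x < X
    · rw [h.g.rX x hx]
      ring
    · rw [h.g.lX x (by omega), h.g.lX y (by omega)]
      ring
  · rw [if_neg hxy]
    by_cases hx : x < X
    · rw [h.g.rX y (by omega)]
      ring
    · rw [h.g.lX x (by omega)]
      ring

/-- **The pairs meet or not**: the total mass of the pairs. -/
theorem nm_total (h : Box l r X lo hi N) : ∀ k, k ≤ N → (∑ x ∈ Icc lo hi, l x * bw w p 0 N x) * (∑ y ∈ Icc lo hi, r y * bw w p 0 N y) =
    nm w p l r lo hi N k + ∑ i ∈ range k, mt w p l r lo hi N i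
  | 0, _ => by rw [nm_zero h, sum_range_zero, add_zero]
  | k + 1, hk => by
    rw [nm_total h k (by omega), nm_step h (show k < N by omega), sum_range_succ]
    ring

end

end Pool.Agent.W_7d29a1_C1.K91
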