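import Pool.Agent.W_7d29a1_C1.LocI91
import Pool.Agent.W_7d29a1_C1.PairP91

/-!
MP_7d29a1_pr, the attractor route: THE LEVEL INTEGRAL OF THE MEETING FUNCTIONAL, and the data of a row of the two groups (K91P, with
a weight `p k` of the step `1` which depends on the row). (helper91)

`mw` is the probability that a path of the left group and an independent path of the right group first meet at the site `q` of the
next row: the sum over all sites and rows is `1` minus the probability that they do not meet.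
-/

set_option autoImplicit false

namespace Pool.Agent.W_7d29a1_C1.L91

open Finset MeasureTheory K91 K97
open Filter Topology

noncomputable section

variable {p : ℝ} {lo hi : ℤ} {wk ml mr f : ℤ → ℝ} {q : ℤ} {κ κ' : ℝ}

/-! ### The meeting functional -/

/-- The meeting functional at the level `a`. -/
def pta (lo hi : ℤ) (p : ℝ) (wk ml mr f : ℤ → ℝ) (q : ℤ) (a : ℝ) : ℝ := pt lo hi p wk ml (fun y => Real.exp (-a) * mr y) f q

/-- The level of the two groups. -/
def nlv (lo hi : ℤ) (p : ℝ) (wk ml mr f : ℤ → ℝ) : ℝ := Real.log (tm lo hi p wk mr f / tm lo hi p wk ml f)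

/-- The probability that two independent paths first meet at `q`. -/
def mw (lo hi : ℤ) (p : ℝ) (wk ml mr f : ℤ → ℝ) (q : ℤ) : ℝ :=
  (ml (q - 1) * mr q - ml q * mr (q - 1)) * (p * (wk (q - 1) * wk q) * f q ^ 2) / (tm lo hi p wk ml f * tm lo hi p wk mr f)

theorem pta_eq (hl : 0 < tm lo hi p wk ml f) (hr : 0 < tm lo hi p wk mr f) (a : ℝ) :
    pta lo hi p wk ml mr f q a = mw lo hi p wk ml mr f q * lg (a - nlv lo hi p wk ml mr f) := by
  have e1 : tm lo hi p wk (fun y => ml y + Real.exp (-a) * mr y) f = tm lo hi p wk ml f + Real.exp (-a) * tm lo hi p wk mr f := by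
    rw [tm_add (m1 := ml) (m2 := fun y => Real.exp (-a) * mr y), tm_smul]
  have e2 : pta lo hi p wk ml mr f q a = (ml (q - 1) * mr q - ml q * mr (q - 1)) * (p * (wk (q - 1) * wk q) * f q ^ 2) *
      (Real.exp (-a) / (tm lo hi p wk ml f + Real.exp (-a) * tm lo hi p wk mr f) ^ 2) := by
    unfold pta pt
    simp only []
    rw [e1]
    ring
  rw [e2, lev_lg hl hr]
  unfold mw nlv
  ring

theorem int_pta (hl : 0 < tm lo hi p wk ml f) (hr : 0 < tm lo hi p wk mr f) : Integrable (pta lo hi p wk ml mr f q) := by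
  have e : pta lo hi p wk ml mr f q = fun a => mw lo hi p wk ml mr f q * lg (a - nlv lo hi p wk ml mr f) :=
    funext fun a => pta_eq hl hr a
  rw [e]
  exact (int_lg.comp_sub_right _).const_mul _

theorem integral_pta (hl : 0 < tm lo hi p wk ml f) (hr : 0 < tm lo hi p wk mr f) :
    ∫ a, pta lo hi p wk ml mr f q a = mw lo hi p wk ml mr f q := by
  rw [integral_congr_ae (Eventually.of_forall fun a => pta_eq hl hr a), integral_const_mul,
    integral_sub_right_eq_self (μ := volume) lg, integral_lg, mul_one]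

/-- **The meeting functional sits at its level.** -/
theorem loc_pta (hl : 0 < tm lo hi p wk ml f) (hr : 0 < tm lo hi p wk mr f) (hm : 0 ≤ mw lo hi p wk ml mr f q) {g : ℝ → ℝ}
    (hg : Measurable g) {L : ℝ} (hL0 : 0 ≤ L) (hL : ∀ a, |g a - g (nlv lo hi p wk ml mr f)| ≤ L * |a - nlv lo hi p wk ml mr f|) :
    |(∫ a, g a * pta lo hi p wk ml mr f q a) - g (nlv lo hi p wk ml mr f) * mw lo hi p wk ml mr f q| ≤
      2 * L * mw lo hi p wk ml mr f q := by
  set B := nlv lo hi p wk ml mr f with hB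
  have hmeas : Measurable fun a : ℝ => (g a - g B) * (mw lo hi p wk ml mr f q * lg (a - B)) := by
    have := measurable_lg
    fun_prop
  have hi1 : Integrable fun a : ℝ => L * mw lo hi p wk ml mr f q * (|a - B| * lg (a - B)) :=
    (int_alg.comp_sub_right B).const_mul _
  have bd : ∀ a, |(g a - g B) * (mw lo hi p wk ml mr f q * lg (a - B))| ≤
      L * mw lo hi p wk ml mr f q * (|a - B| * lg (a - B)) := by
    intro a
    have h0 : 0 ≤ mw lo hi p wk ml mr f q * lg (a - B) := mul_nonneg hm (lg_pos _).le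
    rw [abs_mul, abs_of_nonneg h0]
    refine (mul_le_mul_of_nonneg_right (hL a) h0).trans (le_of_eq ?_)
    ring
  have h1 : Integrable fun a : ℝ => (g a - g B) * (mw lo hi p wk ml mr f q * lg (a - B)) :=
    hi1.mono' hmeas.aestronglyMeasurable (Eventually.of_forall fun a => by rw [Real.norm_eq_abs]; exact bd a)
  have h2 : Integrable fun a : ℝ => mw lo hi p wk ml mr f q * lg (a - B) := (int_lg.comp_sub_right _).const_mul _
  have e0 : ∫ a, mw lo hi p wk ml mr f q * lg (a - B) = mw lo hi p wk ml mr f q := by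
    rw [integral_const_mul, integral_sub_right_eq_self (μ := volume) lg, integral_lg, mul_one]
  have e1 : (∫ a, g a * pta lo hi p wk ml mr f q a) - g B * mw lo hi p wk ml mr f q =
      ∫ a, (g a - g B) * (mw lo hi p wk ml mr f q * lg (a - B)) := by
    have e2 : ∀ a, g a * pta lo hi p wk ml mr f q a = (g a - g B) * (mw lo hi p wk ml mr f q * lg (a - B)) +
        g B * (mw lo hi p wk ml mr f q * lg (a - B)) := by
      intro a
      rw [pta_eq hl hr]
      ring
    rw [integral_congr_ae (Eventually.of_forall e2), integral_add h1 (h2.const_mul _), integral_const_mul, e0]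
    ring
  rw [e1]
  refine (abs_integral_le_integral_abs).trans ?_
  refine (integral_mono h1.abs hi1 bd).trans ?_
  rw [integral_const_mul, integral_sub_right_eq_self (μ := volume) (fun u => |u| * lg u)]
  have h4 := mul_le_mul_of_nonneg_left integral_alg (mul_nonneg hL0 hm)
  linarith

end

end Pool.Agent.W_7d29a1_C1.L91

namespace Pool.Agent.W_7d29a1_C1.K91P

open Finset
open Pool.Agent.W_7d29a1_C1.K91 (Grp Box sum_shift ps2)
open Pool.Agent.W_7d29a1_C1.K97 (rz rt tm ct pt)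
open Pool.Agent.W_7d29a1_C1.L91 (Cutd mw nlv)

noncomputable section

variable {w : ℕ → ℤ → ℝ} {p : ℕ → ℝ} {l r : ℤ → ℝ} {X lo hi : ℤ} {N : ℕ}

/-! ### The data of a row -/

theorem fw_stay (hw : ∀ k y, 0 < w k y) (hp : ∀ k, 0 < p k) (hl : ∀ y, 0 ≤ l y) {y : ℤ} (hy : 0 < l y) :
    ∀ k : ℕ, 0 < fw w p l k y
  | 0 => hy
  | k + 1 => by
    rw [fw_succ]
    have h1 := fw_stay hw hp hl hy k
    have h2 := fw_nonneg hw hp hl k (y - 1)
    have h3 := hw k y
    have h4 := hw k (y - 1)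
    have h5 := hp k
    positivity

theorem rz_pos {lo hi : ℤ} {P : ℝ} {wk m f : ℤ → ℝ} (hP : 0 < P) (hw : ∀ y, 0 < wk y) (hf : ∀ y, 0 < f y)
    (hm : ∀ y, 0 ≤ m y) (h : ∃ y ∈ Icc lo hi, 0 < m y) (q : ℤ) : 0 < rz lo hi P wk m f q := by
  obtain ⟨y0, hy0, h0⟩ := h
  unfold rz K91.zs
  have key : ∀ y, 0 < (if y < q then (fun y => f y + P * f (y + 1)) y else (fun y => f y + P * f (y + 1)) (y - 1)) := by
    intro y
    have a1 := hf y
    have a2 := hf (y + 1)
    have a3 := hf (y - 1)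
    have a4 := hf (y - 1 + 1)
    split_ifs
    · show 0 < f y + P * f (y + 1)
      positivity
    · show 0 < f (y - 1) + P * f (y - 1 + 1)
      positivity
  refine sum_pos' (fun y _ => ?_) ⟨y0, hy0, ?_⟩
  · exact mul_nonneg (mul_nonneg (hm y) (hw y).le) (key y).le
  · exact mul_pos (mul_pos h0 (hw y0)) (key y0)

theorem tm_pos {lo hi : ℤ} {P : ℝ} {wk m f : ℤ → ℝ} (hP : 0 < P) (hw : ∀ y, 0 < wk y) (hf : ∀ y, 0 < f y)
    (hm : ∀ y, 0 ≤ m y) (h : ∃ y ∈ Icc lo hi, 0 < m y) : 0 < tm lo hi P wk m f := by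
  obtain ⟨y0, hy0, h0⟩ := h
  unfold tm
  refine sum_pos' (fun y _ => ?_) ⟨y0, hy0, ?_⟩
  · have a1 := hf y
    have a2 := hf (y + 1)
    have a3 := hm y
    have a4 := hw y
    positivity
  · have a1 := hf y0
    have a2 := hf (y0 + 1)
    have a4 := hw y0
    positivity

/-- **The row `k` of the two groups at the cut `q`.** -/
theorem cutd_row (hw : ∀ k y, 0 < w k y) (hp : ∀ k, 0 < p k) (h : Box l r X lo hi N) (hl : ∃ y, 0 < l y) (hr : ∃ y, 0 < r y)
    {k : ℕ} (hk : k < N) {q : ℤ} (hq1 : q - 1 ∈ Icc lo hi) (hq2 : q ∈ Icc lo hi) {κ κ' : ℝ} (hκ : 1 ≤ κ) (hκ' : 1 ≤ κ')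
    (wl : w k (q - 1) ≤ κ * w k q) (wr : w k q ≤ κ * w k (q - 1))
    (fl : bw w p (k + 1) (N - (k + 1)) (q - 1) ≤ κ' * bw w p (k + 1) (N - (k + 1)) q)
    (fr : bw w p (k + 1) (N - (k + 1)) q ≤ κ' * bw w p (k + 1) (N - (k + 1)) (q - 1)) :
    Cutd lo hi (p k) (w k) (fw w p l k) (fw w p r k) (bw w p (k + 1) (N - (k + 1))) q κ κ' := by
  obtain ⟨yl, hyl⟩ := hl
  obtain ⟨yr, hyr⟩ := hr
  have hkN : (k : ℤ) < N := by exact_mod_cast hk
  have hl0 := fw_nonneg (w := w) (p := p) hw hp h.g.l0 k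
  have hr0 := fw_nonneg (w := w) (p := p) hw hp h.g.r0 k
  have ml : yl ∈ Icc lo hi := by
    have h1 := h.mem (y := yl) (by have := h.g.r0 yl; linarith)
    have h2 : (0 : ℤ) ≤ N := by positivity
    exact mem_Icc.2 ⟨h1.1, by omega⟩
  have mr : yr ∈ Icc lo hi := by
    have h1 := h.mem (y := yr) (by have := h.g.l0 yr; linarith)
    have h2 : (0 : ℤ) ≤ N := by positivity
    exact mem_Icc.2 ⟨h1.1, by omega⟩
  exact
    { p0 := hp k
      w0 := hw k
      f0 := bw_pos hw hp _ _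
      l0 := hl0
      r0 := hr0
      llo := fun y hy => (bfl h k hy).1
      rlo := fun y hy => (bfl h k hy).2
      lhi := (bfh h (k := k) (y := hi) (by omega)).1
      rhi := (bfh h (k := k) (y := hi) (by omega)).2
      q1 := hq1
      q2 := hq2
      det := by
        have := dp_nonneg (w := w) (p := p) hw hp h.g k (q - 1) q (by omega)
        unfold dp at this
        exact this
      k1 := hκ
      k1' := hκ'
      wl := wl
      wr := wr
      fl := fl
      fr := fr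
      zl := rz_pos (hp k) (hw k) (bw_pos hw hp _ _) hl0 ⟨yl, ml, fw_stay hw hp h.g.l0 hyl k⟩ q
      zr := rz_pos (hp k) (hw k) (bw_pos hw hp _ _) hr0 ⟨yr, mr, fw_stay hw hp h.g.r0 hyr k⟩ q }

/-! ### The total mass of the meetings -/

theorem fw_z : ∀ (k : ℕ) (y : ℤ), fw w p (fun _ => (0 : ℝ)) k y = 0
  | 0, _ => rfl
  | k + 1, y => by
    rw [fw_succ, fw_z k y, fw_z k (y - 1)]
    ring

/-- The total of one group is the same at all rows. -/
theorem tm_l (h : Box l r X lo hi N) (hl : ∃ y, 0 < l y) {k : ℕ} (hk : k < N) :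
    tm lo hi (p k) (w k) (fw w p l k) (bw w p (k + 1) (N - (k + 1))) = ∑ y ∈ Icc lo hi, l y * bw w p 0 N y := by
  have h0 : Box l (fun _ => (0 : ℝ)) X lo hi N :=
    { g := ⟨h.g.l0, fun _ => le_rfl, h.g.lX, fun _ _ => rfl⟩
      lo0 := fun y hy => ⟨(h.lo0 y hy).1, rfl⟩
      hi0 := fun y hy => ⟨(h.hi0 y hy).1, rfl⟩
      X0 := h.X0
      X1 := h.X1
      ps := by
        obtain ⟨y, hy⟩ := hl
        exact ⟨y, by linarith⟩ }
  have e := sum_mm_bw (w := w) (p := p) h0 k hk.le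
  have e1 : ∑ y ∈ Icc lo hi, (l y + 0) * bw w p 0 N y = ∑ y ∈ Icc lo hi, l y * bw w p 0 N y :=
    sum_congr rfl fun y _ => by rw [add_zero]
  rw [← e1, ← e]
  unfold tm
  refine sum_congr rfl fun y _ => ?_
  rw [bw_eq hk]
  unfold GG mm
  rw [fw_z]
  ring

theorem tm_r (h : Box l r X lo hi N) (hr : ∃ y, 0 < r y) {k : ℕ} (hk : k < N) :
    tm lo hi (p k) (w k) (fw w p r k) (bw w p (k + 1) (N - (k + 1))) = ∑ y ∈ Icc lo hi, r y * bw w p 0 N y := by
  have h0 : Box (fun _ => (0 : ℝ)) r X lo hi N :=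
    { g := ⟨fun _ => le_rfl, h.g.r0, fun _ _ => rfl, h.g.rX⟩
      lo0 := fun y hy => ⟨rfl, (h.lo0 y hy).2⟩
      hi0 := fun y hy => ⟨rfl, (h.hi0 y hy).2⟩
      X0 := h.X0
      X1 := h.X1
      ps := by
        obtain ⟨y, hy⟩ := hr
        exact ⟨y, by linarith⟩ }
  have e := sum_mm_bw (w := w) (p := p) h0 k hk.le
  have e1 : ∑ y ∈ Icc lo hi, (0 + r y) * bw w p 0 N y = ∑ y ∈ Icc lo hi, r y * bw w p 0 N y :=
    sum_congr rfl fun y _ => by rw [zero_add]
  rw [← e1, ← e]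
  unfold tm
  refine sum_congr rfl fun y _ => ?_
  rw [bw_eq hk]
  unfold GG mm
  rw [fw_z]
  ring

/-- The meeting weights of a row. -/
theorem sum_mw_row (h : Box l r X lo hi N) (hl : ∃ y, 0 < l y) (hr : ∃ y, 0 < r y) {k : ℕ} (hk : k < N) :
    ∑ q ∈ Icc lo hi, mw lo hi (p k) (w k) (fw w p l k) (fw w p r k) (bw w p (k + 1) (N - (k + 1))) q =
      mt w p l r lo hi N k / ((∑ y ∈ Icc lo hi, l y * bw w p 0 N y) * ∑ y ∈ Icc lo hi, r y * bw w p 0 N y) := by
  unfold mw mt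
  rw [sum_div]
  refine sum_congr rfl fun q _ => ?_
  rw [tm_l h hl hk, tm_r h hr hk]
  rfl

/-- **The pairs meet or not**: the meeting weights have the sum `1` minus the share of the pairs which do not meet. -/
theorem sum_mw (hw : ∀ k y, 0 < w k y) (hp : ∀ k, 0 < p k) (h : Box l r X lo hi N) (hl : ∃ y, 0 < l y) (hr : ∃ y, 0 < r y) :
    ∑ k ∈ range N, ∑ q ∈ Icc lo hi, mw lo hi (p k) (w k) (fw w p l k) (fw w p r k) (bw w p (k + 1) (N - (k + 1))) q =
      1 - nm w p l r lo hi N N / ((∑ y ∈ Icc lo hi, l y * bw w p 0 N y) * ∑ y ∈ Icc lo hi, r y * bw w p 0 N y) := by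
  have e := nm_total (w := w) (p := p) h N le_rfl
  have pl : 0 < ∑ y ∈ Icc lo hi, l y * bw w p 0 N y := by
    obtain ⟨y, hy⟩ := hl
    have h1 := h.mem (y := y) (by have := h.g.r0 y; linarith)
    have h2 : (0 : ℤ) ≤ N := by positivity
    exact sum_pos' (fun z _ => mul_nonneg (h.g.l0 z) (bw_pos hw hp _ _ _).le)
      ⟨y, mem_Icc.2 ⟨h1.1, by omega⟩, mul_pos hy (bw_pos hw hp _ _ _)⟩
  have pr : 0 < ∑ y ∈ Icc lo hi, r y * bw w p 0 N y := by
    obtain ⟨y, hy⟩ := hr
    have h1 := h.mem (y := y) (by have := h.g.l0 y; linarith)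
    have h2 : (0 : ℤ) ≤ N := by positivity
    exact sum_pos' (fun z _ => mul_nonneg (h.g.r0 z) (bw_pos hw hp _ _ _).le)
      ⟨y, mem_Icc.2 ⟨h1.1, by omega⟩, mul_pos hy (bw_pos hw hp _ _ _)⟩
  rw [sum_congr rfl fun k hk => sum_mw_row h hl hr (mem_range.1 hk), ← sum_div]
  rw [eq_sub_iff_add_eq, ← add_div, div_eq_one_iff_eq (mul_pos pl pr).ne']
  rw [e]
  ring

theorem mw_nonneg (hw : ∀ k y, 0 < w k y) (hp : ∀ k, 0 < p k) (h : Box l r X lo hi N) (hl : ∃ y, 0 < l y)
    (hr : ∃ y, 0 < r y) {k : ℕ} (hk : k < N) (q : ℤ) :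
    0 ≤ mw lo hi (p k) (w k) (fw w p l k) (fw w p r k) (bw w p (k + 1) (N - (k + 1))) q := by
  have a1 := dp_nonneg (w := w) (p := p) hw hp h.g k (q - 1) q (by omega)
  unfold dp at a1
  have a2 := hp k
  have a3 := hw k (q - 1)
  have a4 := hw k q
  have a5 : 0 ≤ ∑ y ∈ Icc lo hi, l y * bw w p 0 N y :=
    sum_nonneg fun z _ => mul_nonneg (h.g.l0 z) (bw_pos hw hp _ _ _).le
  have a6 : 0 ≤ ∑ y ∈ Icc lo hi, r y * bw w p 0 N y :=
    sum_nonneg fun z _ => mul_nonneg (h.g.r0 z) (bw_pos hw hp _ _ _).le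
  unfold mw
  rw [tm_l h hl hk, tm_r h hr hk]
  positivity

theorem sum_mw_le (hw : ∀ k y, 0 < w k y) (hp : ∀ k, 0 < p k) (h : Box l r X lo hi N) (hl : ∃ y, 0 < l y) (hr : ∃ y, 0 < r y) :
    ∑ k ∈ range N, ∑ q ∈ Icc lo hi, mw lo hi (p k) (w k) (fw w p l k) (fw w p r k) (bw w p (k + 1) (N - (k + 1))) q ≤ 1 := by
  rw [sum_mw hw hp h hl hr]
  have a0 := nm_nonneg (w := w) (p := p) (lo := lo) (hi := hi) (N := N) hw hp h.g N
  have a5 : 0 ≤ ∑ y ∈ Icc lo hi, l y * bw w p 0 N y :=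
    sum_nonneg fun z _ => mul_nonneg (h.g.l0 z) (bw_pos hw hp _ _ _).le
  have a6 : 0 ≤ ∑ y ∈ Icc lo hi, r y * bw w p 0 N y :=
    sum_nonneg fun z _ => mul_nonneg (h.g.r0 z) (bw_pos hw hp _ _ _).le
  have : 0 ≤ nm w p l r lo hi N N / ((∑ y ∈ Icc lo hi, l y * bw w p 0 N y) * ∑ y ∈ Icc lo hi, r y * bw w p 0 N y) :=
    div_nonneg a0 (mul_nonneg a5 a6)
  linarith

end

end Pool.Agent.W_7d29a1_C1.K91P
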