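import Pool.Agent.W_7d29a1_C1.Lev91

/-!
MP_7d29a1_pr, the attractor route: PERTURBATION OF THE CONTACT FUNCTIONALS, deterministic. (helper97)

The gain and the loss of the contact formula are explicit functions of few local numbers (the forward masses of the two groups at
the two neighbours of the cut, times the profile, divided by the total mass). If the numbers of two systems differ by at most `e`,
then `rho * jg` and `rho * JG` differ by at most `K * e`: the interface law is only unstable where the gain is small.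
-/

set_option autoImplicit false

namespace Pool.Agent.W_7d29a1_C1.K97

open Finset K91

noncomputable section

/-! ### The Jensen gap -/

theorem log_sub_le {x y c : ℝ} (hc : 0 < c) (hx : c ≤ x) (hy : c ≤ y) : |Real.log x - Real.log y| ≤ |x - y| / c := by
  have key : ∀ {x y : ℝ}, c ≤ x → c ≤ y → Real.log x - Real.log y ≤ |x - y| / c := by
    intro x y hx hy
    have hx0 : 0 < x := lt_of_lt_of_le hc hx
    have hy0 : 0 < y := lt_of_lt_of_le hc hy
    rw [← Real.log_div hx0.ne' hy0.ne']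
    have h1 : Real.log (x / y) ≤ x / y - 1 := Real.log_le_sub_one_of_pos (div_pos hx0 hy0)
    have h2 : x / y - 1 = (x - y) / y := by
      field_simp
    have h3 : (x - y) / y ≤ |x - y| / y := div_le_div_of_nonneg_right (le_abs_self _) hy0.le
    have h4 : |x - y| / y ≤ |x - y| / c := div_le_div_of_nonneg_left (abs_nonneg _) hc hy
    linarith
  rw [abs_le]
  constructor
  · have := key hy hx
    rw [abs_sub_comm] at this
    linarith
  · exact key hx hy

theorem mix_ge {t a b c : ℝ} (h0 : 0 ≤ t) (h1 : t ≤ 1) (ha : c ≤ a) (hb : c ≤ b) : c ≤ t * a + (1 - t) * b := by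
  have h2 : t * c ≤ t * a := mul_le_mul_of_nonneg_left ha h0
  have h3 : (1 - t) * c ≤ (1 - t) * b := mul_le_mul_of_nonneg_left hb (by linarith)
  linarith

/-- The Jensen gap is Lipschitz. -/
theorem jn_pert {t t' a b a' b' c : ℝ} (hc : 0 < c) (h0 : 0 ≤ t) (h1 : t ≤ 1) (h0' : 0 ≤ t') (h1' : t' ≤ 1)
    (ha : c ≤ a) (hb : c ≤ b) (ha' : c ≤ a') (hb' : c ≤ b') :
    |jn t a b - jn t' a' b'| ≤ (2 * (|t - t'| * |a - b|) + 2 * |a - a'| + 3 * |b - b'|) / c := by
  have hu := mix_ge h0 h1 ha hb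
  have hu' := mix_ge h0' h1' ha' hb'
  have e : jn t a b - jn t' a' b' = (Real.log (t * a + (1 - t) * b) - Real.log (t' * a' + (1 - t') * b')) -
      (Real.log b - Real.log b') - (t - t') * (Real.log a - Real.log b) -
      t' * ((Real.log a - Real.log a') - (Real.log b - Real.log b')) := by
    unfold jn
    ring
  have k1 := log_sub_le hc hu hu'
  have k2 := log_sub_le hc hb hb'
  have k3 := log_sub_le hc ha hb
  have k4 := log_sub_le hc ha ha'
  have e5 : (t * a + (1 - t) * b) - (t' * a' + (1 - t') * b') = (t - t') * (a - b) + t' * (a - a') + (1 - t') * (b - b') := by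
    ring
  have k5 : |(t * a + (1 - t) * b) - (t' * a' + (1 - t') * b')| ≤ |t - t'| * |a - b| + t' * |a - a'| + (1 - t') * |b - b'| := by
    rw [e5]
    refine (abs_add_three _ _ _).trans ?_
    rw [abs_mul, abs_mul, abs_mul, abs_of_nonneg h0', abs_of_nonneg (show 0 ≤ 1 - t' by linarith)]
  have k6 : |jn t a b - jn t' a' b'| ≤ |Real.log (t * a + (1 - t) * b) - Real.log (t' * a' + (1 - t') * b')| +
      |Real.log b - Real.log b'| + |t - t'| * |Real.log a - Real.log b| +
      t' * (|Real.log a - Real.log a'| + |Real.log b - Real.log b'|) := by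
    rw [e]
    have j1 := abs_sub (Real.log (t * a + (1 - t) * b) - Real.log (t' * a' + (1 - t') * b')) (Real.log b - Real.log b')
    have j2 := abs_sub ((Real.log (t * a + (1 - t) * b) - Real.log (t' * a' + (1 - t') * b')) - (Real.log b - Real.log b'))
      ((t - t') * (Real.log a - Real.log b))
    have j3 := abs_sub ((Real.log (t * a + (1 - t) * b) - Real.log (t' * a' + (1 - t') * b')) - (Real.log b - Real.log b') -
      (t - t') * (Real.log a - Real.log b)) (t' * ((Real.log a - Real.log a') - (Real.log b - Real.log b')))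
    have j4 : |(t - t') * (Real.log a - Real.log b)| = |t - t'| * |Real.log a - Real.log b| := abs_mul _ _
    have j5 : |t' * ((Real.log a - Real.log a') - (Real.log b - Real.log b'))| ≤
        t' * (|Real.log a - Real.log a'| + |Real.log b - Real.log b'|) := by
      rw [abs_mul, abs_of_nonneg h0']
      exact mul_le_mul_of_nonneg_left (abs_sub _ _) h0'
    linarith
  have k7 : |t - t'| * |Real.log a - Real.log b| ≤ |t - t'| * (|a - b| / c) := mul_le_mul_of_nonneg_left k3 (abs_nonneg _)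
  have k8 : t' * (|Real.log a - Real.log a'| + |Real.log b - Real.log b'|) ≤ t' * (|a - a'| / c + |b - b'| / c) :=
    mul_le_mul_of_nonneg_left (add_le_add k4 k2) h0'
  have k9 : |(t * a + (1 - t) * b) - (t' * a' + (1 - t') * b')| / c ≤
      (|t - t'| * |a - b| + t' * |a - a'| + (1 - t') * |b - b'|) / c := div_le_div_of_nonneg_right k5 hc.le
  have k10 : t' * |a - a'| ≤ |a - a'| := by
    have := mul_le_mul_of_nonneg_right h1' (abs_nonneg (a - a'))
    linarith
  have k11 : (1 - t') * |b - b'| + t' * |b - b'| = |b - b'| := by ring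
  have k12 : (|t - t'| * |a - b| + t' * |a - a'| + (1 - t') * |b - b'|) / c + |b - b'| / c + |t - t'| * (|a - b| / c) +
      t' * (|a - a'| / c + |b - b'| / c) =
      (2 * (|t - t'| * |a - b|) + 2 * (t' * |a - a'|) + |b - b'| + ((1 - t') * |b - b'| + t' * |b - b'|)) / c := by
    field_simp
    ring
  have k13 : (2 * (|t - t'| * |a - b|) + 2 * (t' * |a - a'|) + |b - b'| + ((1 - t') * |b - b'| + t' * |b - b'|)) / c ≤
      (2 * (|t - t'| * |a - b|) + 2 * |a - a'| + 3 * |b - b'|) / c := by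
    refine div_le_div_of_nonneg_right ?_ hc.le
    rw [k11]
    have := abs_nonneg (b - b')
    linarith
  linarith

/-! ### Shares -/

/-- A share is stable up to the inverse mass. -/
theorem share_pert {x y x' y' e : ℝ} (hx : 0 ≤ x) (hy : 0 ≤ y) (hx' : 0 ≤ x') (hy' : 0 ≤ y')
    (h1 : |x - x'| ≤ e) (h2 : |y - y'| ≤ e) : |x / (x + y) - x' / (x' + y')| * (x + y) ≤ 2 * e := by
  have he : 0 ≤ e := (abs_nonneg _).trans h1
  have s1 : 0 ≤ x / (x + y) := by positivity
  have s2 : x / (x + y) ≤ 1 := div_le_one_of_le₀ (by linarith) (by positivity)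
  rcases eq_or_lt_of_le (show 0 ≤ x' + y' by positivity) with h | h
  · rw [← h, div_zero, sub_zero, abs_of_nonneg s1]
    have hx0 : x' = 0 := by linarith
    have hy0 : y' = 0 := by linarith
    rw [hx0, sub_zero, abs_of_nonneg hx] at h1
    rw [hy0, sub_zero, abs_of_nonneg hy] at h2
    have := mul_le_mul_of_nonneg_right s2 (show 0 ≤ x + y by positivity)
    linarith
  · rcases eq_or_lt_of_le (show 0 ≤ x + y by positivity) with h0 | h0
    · rw [← h0, mul_zero]
      linarith
    · have e1 : (x / (x + y) - x' / (x' + y')) * (x + y) = ((x - x') * y' - x' * (y - y')) / (x' + y') := by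
        field_simp
        ring
      have e2 : |x / (x + y) - x' / (x' + y')| * (x + y) = |((x - x') * y' - x' * (y - y')) / (x' + y')| := by
        rw [← e1, abs_mul, abs_of_pos h0]
      rw [e2, abs_div, abs_of_pos h, div_le_iff₀ h]
      have a1 : |(x - x') * y' - x' * (y - y')| ≤ |x - x'| * y' + x' * |y - y'| := by
        refine (abs_sub _ _).trans ?_
        rw [abs_mul, abs_mul, abs_of_nonneg hy', abs_of_nonneg hx']
      have a2 : |x - x'| * y' ≤ e * y' := mul_le_mul_of_nonneg_right h1 hy'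
      have a3 : x' * |y - y'| ≤ x' * e := mul_le_mul_of_nonneg_left h2 hx'
      have a4 : 0 ≤ e * (x' + y') := by positivity
      linarith

/-! ### The gain as a function of the local numbers -/

/-- The gain: `x`, `y` = masses of the neighbours of the cut (times the profile, over the total), `d` = difference of the weights. -/
def jl (x y d : ℝ) : ℝ := jn (x / (x + y)) (1 + y * d) (1 - x * d)

theorem jl_nonneg {x y d : ℝ} (hx : 0 ≤ x) (hy : 0 ≤ y) (ha : 0 < 1 + y * d) (hb : 0 < 1 - x * d) : 0 ≤ jl x y d :=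
  jn_nonneg (by positivity) (div_le_one_of_le₀ (by linarith) (by positivity)) ha hb

theorem jl_le {x y d c : ℝ} (hc : 0 < c) (hx : 0 ≤ x) (hy : 0 ≤ y) (ha : c ≤ 1 + y * d) (hb : c ≤ 1 - x * d) :
    jl x y d ≤ x * y * d ^ 2 / c ^ 2 := by
  have h := jn_le (t := x / (x + y)) (a := 1 + y * d) (b := 1 - x * d) (by positivity)
    (div_le_one_of_le₀ (by linarith) (by positivity)) (by linarith) (by linarith)
  refine h.trans ?_
  rcases eq_or_lt_of_le (show 0 ≤ x + y by positivity) with h0 | h0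
  · rw [← h0, div_zero, zero_mul, zero_mul, zero_div]
    positivity
  · have e : x / (x + y) * (1 - x / (x + y)) * ((1 + y * d) - (1 - x * d)) ^ 2 = x * y * d ^ 2 := by
      field_simp
      ring
    rw [e]
    refine div_le_div_of_nonneg_left (by positivity) (by positivity) ?_
    rw [pow_two]
    exact mul_le_mul ha hb hc.le (by linarith)

theorem jl_pert {x y x' y' d e c : ℝ} (hc : 0 < c) (hx : 0 ≤ x) (hy : 0 ≤ y) (hx' : 0 ≤ x') (hy' : 0 ≤ y')
    (h1 : |x - x'| ≤ e) (h2 : |y - y'| ≤ e) (ha : c ≤ 1 + y * d) (hb : c ≤ 1 - x * d) (ha' : c ≤ 1 + y' * d)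
    (hb' : c ≤ 1 - x' * d) : |jl x y d - jl x' y' d| ≤ 9 * e * |d| / c := by
  have hp := jn_pert hc (t := x / (x + y)) (t' := x' / (x' + y')) (by positivity)
    (div_le_one_of_le₀ (by linarith) (by positivity)) (by positivity)
    (div_le_one_of_le₀ (by linarith) (by positivity)) ha hb ha' hb'
  refine hp.trans (div_le_div_of_nonneg_right ?_ hc.le)
  have e1 : (1 + y * d) - (1 - x * d) = (x + y) * d := by ring
  have e2 : (1 + y * d) - (1 + y' * d) = (y - y') * d := by ring
  have e3 : (1 - x * d) - (1 - x' * d) = -((x - x') * d) := by ring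
  rw [e1, e2, e3, abs_neg, abs_mul, abs_mul, abs_mul, abs_of_nonneg (show 0 ≤ x + y by positivity)]
  have s := share_pert hx hy hx' hy' h1 h2
  have hd := abs_nonneg d
  have s1 : |x / (x + y) - x' / (x' + y')| * ((x + y) * |d|) ≤ 2 * e * |d| := by
    rw [← mul_assoc]
    exact mul_le_mul_of_nonneg_right s hd
  have s2 : |y - y'| * |d| ≤ e * |d| := mul_le_mul_of_nonneg_right h2 hd
  have s3 : |x - x'| * |d| ≤ e * |d| := mul_le_mul_of_nonneg_right h1 hd
  linarith

/-! ### Interface law times gain -/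

/-- Decrement of the share of the left group: `a`, `b` = left, right group at the left neighbour, `a2`, `b2` at the right one. -/
def ro (a b a2 b2 : ℝ) : ℝ := a / (a + b) - a2 / (a2 + b2)

/-- Interface law times gain. -/
def pg (a b a2 b2 d : ℝ) : ℝ := ro a b a2 b2 * jl (a + b) (a2 + b2) d

theorem ro_le_one {a b a2 b2 : ℝ} (ha : 0 ≤ a) (hb : 0 ≤ b) (ha2 : 0 ≤ a2) (hb2 : 0 ≤ b2) : |ro a b a2 b2| ≤ 1 := by
  have s1 : 0 ≤ a / (a + b) := by positivity
  have s2 : a / (a + b) ≤ 1 := div_le_one_of_le₀ (by linarith) (by positivity)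
  have s3 : 0 ≤ a2 / (a2 + b2) := by positivity
  have s4 : a2 / (a2 + b2) ≤ 1 := div_le_one_of_le₀ (by linarith) (by positivity)
  unfold ro
  rw [abs_le]
  constructor <;> linarith

/-- Local numbers of a row at a cut. -/
structure Num (a b a2 b2 d c : ℝ) : Prop where
  a0 : 0 ≤ a
  b0 : 0 ≤ b
  a20 : 0 ≤ a2
  b20 : 0 ≤ b2
  l1 : c ≤ 1 + (a2 + b2) * d
  l2 : c ≤ 1 - (a + b) * d

/-- **Perturbation of interface law times gain.** -/
theorem pg_pert {a b a2 b2 a' b' a2' b2' d c e M : ℝ} (hc : 0 < c) (h : Num a b a2 b2 d c) (h' : Num a' b' a2' b2' d c)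
    (h1 : |a - a'| ≤ e) (h2 : |b - b'| ≤ e) (h3 : |a2 - a2'| ≤ e) (h4 : |b2 - b2'| ≤ e) (hM : a + b ≤ M) (hM2 : a2 + b2 ≤ M) :
    |pg a b a2 b2 d - pg a' b' a2' b2' d| ≤ e * (18 * |d| / c + 4 * M * d ^ 2 / c ^ 2) := by
  have he : 0 ≤ e := (abs_nonneg _).trans h1
  have ha := h.a0
  have hb := h.b0
  have ha2 := h.a20
  have hb2 := h.b20
  have ha' := h'.a0
  have hb' := h'.b0
  have ha2' := h'.a20
  have hb2' := h'.b20
  have x0 : 0 ≤ a + b := by positivity
  have y0 : 0 ≤ a2 + b2 := by positivity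
  have x0' : 0 ≤ a' + b' := by positivity
  have y0' : 0 ≤ a2' + b2' := by positivity
  have f1 : |(a + b) - (a' + b')| ≤ 2 * e := by
    have e0 : (a + b) - (a' + b') = (a - a') + (b - b') := by ring
    rw [e0]
    refine (abs_add_le _ _).trans ?_
    linarith
  have f2 : |(a2 + b2) - (a2' + b2')| ≤ 2 * e := by
    have e0 : (a2 + b2) - (a2' + b2') = (a2 - a2') + (b2 - b2') := by ring
    rw [e0]
    refine (abs_add_le _ _).trans ?_
    linarith
  have g1 := jl_pert hc x0 y0 x0' y0' f1 f2 h.l1 h.l2 h'.l1 h'.l2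
  have g2 := jl_le hc x0 y0 h.l1 h.l2
  have g0 := jl_nonneg x0 y0 (lt_of_lt_of_le hc h.l1) (lt_of_lt_of_le hc h.l2)
  have r' := ro_le_one ha' hb' ha2' hb2'
  have e1 : pg a b a2 b2 d - pg a' b' a2' b2' d = (ro a b a2 b2 - ro a' b' a2' b2') * jl (a + b) (a2 + b2) d +
      ro a' b' a2' b2' * (jl (a + b) (a2 + b2) d - jl (a' + b') (a2' + b2') d) := by
    unfold pg
    ring
  have m1 : |ro a b a2 b2 - ro a' b' a2' b2'| * jl (a + b) (a2 + b2) d ≤ e * (4 * M * d ^ 2 / c ^ 2) := by
    have s1 := share_pert ha hb ha' hb' h1 h2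
    have s2 := share_pert ha2 hb2 ha2' hb2' h3 h4
    have t1 : |ro a b a2 b2 - ro a' b' a2' b2'| ≤ |a / (a + b) - a' / (a' + b')| + |a2 / (a2 + b2) - a2' / (a2' + b2')| := by
      have e0 : ro a b a2 b2 - ro a' b' a2' b2' = (a / (a + b) - a' / (a' + b')) - (a2 / (a2 + b2) - a2' / (a2' + b2')) := by
        unfold ro
        ring
      rw [e0]
      exact abs_sub _ _
    have hD : 0 ≤ d ^ 2 / c ^ 2 := by positivity
    calc |ro a b a2 b2 - ro a' b' a2' b2'| * jl (a + b) (a2 + b2) d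
        ≤ (|a / (a + b) - a' / (a' + b')| + |a2 / (a2 + b2) - a2' / (a2' + b2')|) * ((a + b) * (a2 + b2) * d ^ 2 / c ^ 2) :=
          mul_le_mul t1 g2 g0 (by positivity)
      _ = (|a / (a + b) - a' / (a' + b')| * (a + b)) * ((a2 + b2) * (d ^ 2 / c ^ 2)) +
          (|a2 / (a2 + b2) - a2' / (a2' + b2')| * (a2 + b2)) * ((a + b) * (d ^ 2 / c ^ 2)) := by ring
      _ ≤ (2 * e) * (M * (d ^ 2 / c ^ 2)) + (2 * e) * (M * (d ^ 2 / c ^ 2)) := by
          refine add_le_add (mul_le_mul s1 (mul_le_mul_of_nonneg_right hM2 hD) (by positivity) (by positivity))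
            (mul_le_mul s2 (mul_le_mul_of_nonneg_right hM hD) (by positivity) (by positivity))
      _ = e * (4 * M * d ^ 2 / c ^ 2) := by ring
  have m2 : |ro a' b' a2' b2'| * |jl (a + b) (a2 + b2) d - jl (a' + b') (a2' + b2') d| ≤ e * (18 * |d| / c) := by
    have h0 := mul_le_mul r' g1 (abs_nonneg _) zero_le_one
    refine h0.trans (le_of_eq ?_)
    ring
  have m3 : |pg a b a2 b2 d - pg a' b' a2' b2' d| ≤ |ro a b a2 b2 - ro a' b' a2' b2'| * jl (a + b) (a2 + b2) d +
      |ro a' b' a2' b2'| * |jl (a + b) (a2 + b2) d - jl (a' + b') (a2' + b2') d| := by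
    rw [e1]
    refine (abs_add_le _ _).trans ?_
    rw [abs_mul, abs_mul, abs_of_nonneg g0]
  linarith

/-! ### Interface law times loss -/

/-- The loss: `x`, `y` = masses arriving at the right site of the cut from the left, from below; `v` = ratio of the profiles. -/
def jq (x y v : ℝ) : ℝ := jn (x / (x + y)) (1 + (x + y) * (v - 1)) 1

theorem jq_nonneg {x y v : ℝ} (hx : 0 ≤ x) (hy : 0 ≤ y) (ha : 0 < 1 + (x + y) * (v - 1)) : 0 ≤ jq x y v :=
  jn_nonneg (by positivity) (div_le_one_of_le₀ (by linarith) (by positivity)) ha one_pos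

theorem jq_le {x y v c : ℝ} (hc : 0 < c) (hx : 0 ≤ x) (hy : 0 ≤ y) (ha : c ≤ 1 + (x + y) * (v - 1)) :
    jq x y v ≤ x * y * (v - 1) ^ 2 / c := by
  have h := jn_le (t := x / (x + y)) (a := 1 + (x + y) * (v - 1)) (b := 1) (by positivity)
    (div_le_one_of_le₀ (by linarith) (by positivity)) (by linarith) one_pos
  refine h.trans ?_
  rw [mul_one]
  rcases eq_or_lt_of_le (show 0 ≤ x + y by positivity) with h0 | h0
  · rw [← h0, div_zero, zero_mul, zero_mul, zero_div]
    positivity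
  · have e : x / (x + y) * (1 - x / (x + y)) * ((1 + (x + y) * (v - 1)) - 1) ^ 2 = x * y * (v - 1) ^ 2 := by
      field_simp
      ring
    rw [e]
    exact div_le_div_of_nonneg_left (by positivity) hc ha

theorem jq_pert {x y x' y' v v' e e2 c V : ℝ} (hc : 0 < c) (hc1 : c ≤ 1) (hx : 0 ≤ x) (hy : 0 ≤ y) (hx' : 0 ≤ x')
    (hy' : 0 ≤ y') (h1 : |x - x'| ≤ e) (h2 : |y - y'| ≤ e) (hv : |v - v'| ≤ e2) (hV : |v - 1| ≤ V)
    (hs : x' + y' ≤ 1) (ha : c ≤ 1 + (x + y) * (v - 1)) (ha' : c ≤ 1 + (x' + y') * (v' - 1)) :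
    |jq x y v - jq x' y' v'| ≤ (8 * e * V + 2 * e2) / c := by
  have hp := jn_pert hc (t := x / (x + y)) (t' := x' / (x' + y')) (by positivity)
    (div_le_one_of_le₀ (by linarith) (by positivity)) (by positivity)
    (div_le_one_of_le₀ (by linarith) (by positivity)) ha hc1 ha' hc1
  refine hp.trans (div_le_div_of_nonneg_right ?_ hc.le)
  have he : 0 ≤ e := (abs_nonneg _).trans h1
  have he2 : 0 ≤ e2 := (abs_nonneg _).trans hv
  have hV0 : 0 ≤ V := (abs_nonneg _).trans hV
  have e1 : (1 + (x + y) * (v - 1)) - 1 = (x + y) * (v - 1) := by ring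
  have e3 : (1 + (x + y) * (v - 1)) - (1 + (x' + y') * (v' - 1)) = ((x - x') + (y - y')) * (v - 1) + (x' + y') * (v - v') := by
    ring
  rw [sub_self, abs_zero, mul_zero, add_zero, e1, e3, abs_mul, abs_of_nonneg (show 0 ≤ x + y by positivity)]
  have s := share_pert hx hy hx' hy' h1 h2
  have s1 : |x / (x + y) - x' / (x' + y')| * ((x + y) * |v - 1|) ≤ 2 * e * V := by
    rw [← mul_assoc]
    exact mul_le_mul s hV (abs_nonneg _) (by positivity)
  have s2 : |((x - x') + (y - y')) * (v - 1) + (x' + y') * (v - v')| ≤ 2 * e * V + e2 := by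
    refine (abs_add_le _ _).trans (add_le_add ?_ ?_)
    · rw [abs_mul]
      refine mul_le_mul ?_ hV (abs_nonneg _) (by positivity)
      refine (abs_add_le _ _).trans ?_
      linarith
    · rw [abs_mul, abs_of_nonneg (show 0 ≤ x' + y' by positivity)]
      have := mul_le_mul hs hv (abs_nonneg _) zero_le_one
      linarith
  linarith

/-- Interface law times loss. -/
def pq (a b a2 b2 v : ℝ) : ℝ := ro a b a2 b2 * jq (a + b) (a2 + b2) v

/-- **Perturbation of interface law times loss.** -/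
theorem pq_pert {a b a2 b2 a' b' a2' b2' v v' c e e2 V : ℝ} (hc : 0 < c) (hc1 : c ≤ 1)
    (ha : 0 ≤ a) (hb : 0 ≤ b) (ha2 : 0 ≤ a2) (hb2 : 0 ≤ b2) (ha' : 0 ≤ a') (hb' : 0 ≤ b') (ha2' : 0 ≤ a2') (hb2' : 0 ≤ b2')
    (h1 : |a - a'| ≤ e) (h2 : |b - b'| ≤ e) (h3 : |a2 - a2'| ≤ e) (h4 : |b2 - b2'| ≤ e) (hv : |v - v'| ≤ e2)
    (hV : |v - 1| ≤ V) (hs : (a + b) + (a2 + b2) ≤ 1) (hs' : (a' + b') + (a2' + b2') ≤ 1)
    (hl : c ≤ 1 + ((a + b) + (a2 + b2)) * (v - 1)) (hl' : c ≤ 1 + ((a' + b') + (a2' + b2')) * (v' - 1)) :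
    |pq a b a2 b2 v - pq a' b' a2' b2' v'| ≤ (e * (16 * V + 4 * V ^ 2) + 2 * e2) / c := by
  have he : 0 ≤ e := (abs_nonneg _).trans h1
  have hV0 : 0 ≤ V := (abs_nonneg _).trans hV
  have x0 : 0 ≤ a + b := by positivity
  have y0 : 0 ≤ a2 + b2 := by positivity
  have x0' : 0 ≤ a' + b' := by positivity
  have y0' : 0 ≤ a2' + b2' := by positivity
  have f1 : |(a + b) - (a' + b')| ≤ 2 * e := by
    have e0 : (a + b) - (a' + b') = (a - a') + (b - b') := by ring
    rw [e0]
    refine (abs_add_le _ _).trans ?_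
    linarith
  have f2 : |(a2 + b2) - (a2' + b2')| ≤ 2 * e := by
    have e0 : (a2 + b2) - (a2' + b2') = (a2 - a2') + (b2 - b2') := by ring
    rw [e0]
    refine (abs_add_le _ _).trans ?_
    linarith
  have g1 := jq_pert hc hc1 x0 y0 x0' y0' f1 f2 hv hV hs' hl hl'
  have g2 := jq_le hc x0 y0 hl
  have g0 := jq_nonneg x0 y0 (lt_of_lt_of_le hc hl)
  have r' := ro_le_one ha' hb' ha2' hb2'
  have e1 : pq a b a2 b2 v - pq a' b' a2' b2' v' = (ro a b a2 b2 - ro a' b' a2' b2') * jq (a + b) (a2 + b2) v +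
      ro a' b' a2' b2' * (jq (a + b) (a2 + b2) v - jq (a' + b') (a2' + b2') v') := by
    unfold pq
    ring
  have m1 : |ro a b a2 b2 - ro a' b' a2' b2'| * jq (a + b) (a2 + b2) v ≤ e * (4 * V ^ 2 / c) := by
    have s1 := share_pert ha hb ha' hb' h1 h2
    have s2 := share_pert ha2 hb2 ha2' hb2' h3 h4
    have t1 : |ro a b a2 b2 - ro a' b' a2' b2'| ≤ |a / (a + b) - a' / (a' + b')| + |a2 / (a2 + b2) - a2' / (a2' + b2')| := by
      have e0 : ro a b a2 b2 - ro a' b' a2' b2' = (a / (a + b) - a' / (a' + b')) - (a2 / (a2 + b2) - a2' / (a2' + b2')) := by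
        unfold ro
        ring
      rw [e0]
      exact abs_sub _ _
    have q1 : (v - 1) ^ 2 ≤ V ^ 2 := by
      rw [← sq_abs]
      exact pow_le_pow_left₀ (abs_nonneg _) hV 2
    have hD : 0 ≤ (v - 1) ^ 2 / c := by positivity
    have hD2 : (v - 1) ^ 2 / c ≤ V ^ 2 / c := div_le_div_of_nonneg_right q1 hc.le
    calc |ro a b a2 b2 - ro a' b' a2' b2'| * jq (a + b) (a2 + b2) v
        ≤ (|a / (a + b) - a' / (a' + b')| + |a2 / (a2 + b2) - a2' / (a2' + b2')|) * ((a + b) * (a2 + b2) * (v - 1) ^ 2 / c) :=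
          mul_le_mul t1 g2 g0 (by positivity)
      _ = (|a / (a + b) - a' / (a' + b')| * (a + b)) * ((a2 + b2) * ((v - 1) ^ 2 / c)) +
          (|a2 / (a2 + b2) - a2' / (a2' + b2')| * (a2 + b2)) * ((a + b) * ((v - 1) ^ 2 / c)) := by ring
      _ ≤ (2 * e) * (1 * (V ^ 2 / c)) + (2 * e) * (1 * (V ^ 2 / c)) := by
          refine add_le_add (mul_le_mul s1 (mul_le_mul (by linarith) hD2 hD zero_le_one) (by positivity) (by positivity))
            (mul_le_mul s2 (mul_le_mul (by linarith) hD2 hD zero_le_one) (by positivity) (by positivity))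
      _ = e * (4 * V ^ 2 / c) := by ring
  have m2 : |ro a' b' a2' b2'| * |jq (a + b) (a2 + b2) v - jq (a' + b') (a2' + b2') v'| ≤ (16 * e * V + 2 * e2) / c := by
    have h0 := mul_le_mul r' g1 (abs_nonneg _) zero_le_one
    refine h0.trans (le_of_eq ?_)
    ring
  have m3 : |pq a b a2 b2 v - pq a' b' a2' b2' v'| ≤ |ro a b a2 b2 - ro a' b' a2' b2'| * jq (a + b) (a2 + b2) v +
      |ro a' b' a2' b2'| * |jq (a + b) (a2 + b2) v - jq (a' + b') (a2' + b2') v'| := by
    rw [e1]
    refine (abs_add_le _ _).trans ?_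
    rw [abs_mul, abs_mul, abs_of_nonneg g0]
  have e9 : (e * (16 * V + 4 * V ^ 2) + 2 * e2) / c = e * (4 * V ^ 2 / c) + (16 * e * V + 2 * e2) / c := by
    field_simp
    ring
  rw [e9]
  linarith

/-! ### The local numbers of the contact formula -/

theorem share_smul {c x y : ℝ} (hc : 0 < c) : c * x / (c * x + c * y) = x / (x + y) := by
  rw [← mul_add, mul_div_mul_left _ _ hc.ne']

theorem ro_smul {c c2 a b a2 b2 : ℝ} (hc : 0 < c) (hc2 : 0 < c2) : ro (c * a) (c * b) (c2 * a2) (c2 * b2) = ro a b a2 b2 := by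
  unfold ro
  rw [share_smul hc, share_smul hc2]

theorem jl_zero_left (y d : ℝ) : jl 0 y d = 0 := by
  unfold jl jn
  simp

theorem jl_zero_right (x d : ℝ) : jl x 0 d = 0 := by
  unfold jl jn
  by_cases hx : x = 0
  · simp [hx]
  · simp [hx]

theorem jq_zero_left (y v : ℝ) : jq 0 y v = 0 := by
  unfold jq jn
  simp

theorem jq_zero_right (x v : ℝ) : jq x 0 v = 0 := by
  unfold jq jn
  by_cases hx : x = 0
  · simp [hx]
  · simp [hx]

variable {w : ℕ → ℤ → ℝ} {p : ℝ} {l r : ℤ → ℝ} {X lo hi : ℤ} {N : ℕ}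

/-- The factor of the gain numbers. -/
def cg (w : ℕ → ℤ → ℝ) (p : ℝ) (l r : ℤ → ℝ) (lo hi : ℤ) (N k : ℕ) (q : ℤ) : ℝ :=
  GG w p N k (q - 1) / ZZ w p l r lo hi N k q

/-- The factor of the loss numbers. -/
def cl (w : ℕ → ℤ → ℝ) (p : ℝ) (l r : ℤ → ℝ) (lo hi : ℤ) (N k : ℕ) (q : ℤ) : ℝ :=
  bw w p (k + 1) (N - (k + 1)) (q - 1) / TT w p l r lo hi N (k + 1) q

theorem ZZ_pos (hw : ∀ k y, 0 < w k y) (hp : 0 < p) (h : Box l r X lo hi N) (k : ℕ) (q : ℤ) :
    0 < ZZ w p l r lo hi N k q := by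
  obtain ⟨y, hy, hm⟩ := mm_pos hw hp h k
  unfold ZZ zs
  refine sum_pos' (fun z _ => ?_) ⟨y, hy, ?_⟩
  · have h1 := mm_nonneg hw hp h.g k z
    have h2 := hw k z
    have h3 := GG_pos (N := N) hw hp k z
    have h4 := GG_pos (N := N) hw hp k (z - 1)
    split_ifs <;> positivity
  · have h2 := hw k y
    have h3 := GG_pos (N := N) hw hp k y
    have h4 := GG_pos (N := N) hw hp k (y - 1)
    split_ifs <;> positivity

theorem cg_pos (hw : ∀ k y, 0 < w k y) (hp : 0 < p) (h : Box l r X lo hi N) (k : ℕ) (q : ℤ) :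
    0 < cg w p l r lo hi N k q := div_pos (GG_pos hw hp k _) (ZZ_pos hw hp h k q)

theorem cl_pos (hw : ∀ k y, 0 < w k y) (hp : 0 < p) (h : Box l r X lo hi N) (k : ℕ) (q : ℤ) :
    0 < cl w p l r lo hi N k q := div_pos (bw_pos hw hp _ _ _) (TT_pos hw hp h (k + 1) q)

/-- The term of the left neighbour is part of the total mass. -/
theorem cg_left (hw : ∀ k y, 0 < w k y) (hp : 0 < p) (h : Box l r X lo hi N) (k : ℕ) {q : ℤ} (hq : q ∈ Icc X (X + N)) :
    cg w p l r lo hi N k q * mm w p l r k (q - 1) * w k (q - 1) ≤ 1 := by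
  have hz := ZZ_pos hw hp h k q
  rw [mem_Icc] at hq
  have hX0 := h.X0
  have hX1 := h.X1
  by_cases h0 : q - 1 < lo
  · rw [h.ml k h0, mul_zero, zero_mul]
    exact zero_le_one
  have h1 : mm w p l r k (q - 1) * w k (q - 1) * GG w p N k (q - 1) ≤ ZZ w p l r lo hi N k q := by
    unfold ZZ zs
    have e : mm w p l r k (q - 1) * w k (q - 1) * GG w p N k (q - 1) =
        mm w p l r k (q - 1) * w k (q - 1) * (if q - 1 < q then GG w p N k (q - 1) else GG w p N k (q - 1 - 1)) := by
      rw [if_pos (by omega)]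
    rw [e]
    refine single_le_sum (f := fun y => mm w p l r k y * w k y * (if y < q then GG w p N k y else GG w p N k (y - 1)))
      (fun z _ => ?_) (mem_Icc.2 ⟨by omega, by omega⟩)
    have h1 := mm_nonneg hw hp h.g k z
    have h2 := hw k z
    have h3 := GG_pos (N := N) hw hp k z
    have h4 := GG_pos (N := N) hw hp k (z - 1)
    show 0 ≤ mm w p l r k z * w k z * (if z < q then GG w p N k z else GG w p N k (z - 1))
    split_ifs <;> positivity
  unfold cg
  have e : GG w p N k (q - 1) / ZZ w p l r lo hi N k q * mm w p l r k (q - 1) * w k (q - 1) =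
      mm w p l r k (q - 1) * w k (q - 1) * GG w p N k (q - 1) / ZZ w p l r lo hi N k q := by ring
  rw [e]
  exact div_le_one_of_le₀ h1 hz.le

/-- The term of the right neighbour is part of the total mass. -/
theorem cg_right (hw : ∀ k y, 0 < w k y) (hp : 0 < p) (h : Box l r X lo hi N) (k : ℕ) {q : ℤ} (hq : q ∈ Icc X (X + N)) :
    cg w p l r lo hi N k q * mm w p l r k q * w k q ≤ 1 := by
  have hz := ZZ_pos hw hp h k q
  rw [mem_Icc] at hq
  have hX0 := h.X0
  have hX1 := h.X1
  have h1 : mm w p l r k q * w k q * GG w p N k (q - 1) ≤ ZZ w p l r lo hi N k q := by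
    unfold ZZ zs
    have e : mm w p l r k q * w k q * GG w p N k (q - 1) =
        mm w p l r k q * w k q * (if q < q then GG w p N k q else GG w p N k (q - 1)) := by
      rw [if_neg (lt_irrefl q)]
    rw [e]
    refine single_le_sum (f := fun y => mm w p l r k y * w k y * (if y < q then GG w p N k y else GG w p N k (y - 1)))
      (fun z _ => ?_) (mem_Icc.2 ⟨by omega, by omega⟩)
    have h1 := mm_nonneg hw hp h.g k z
    have h2 := hw k z
    have h3 := GG_pos (N := N) hw hp k z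
    have h4 := GG_pos (N := N) hw hp k (z - 1)
    show 0 ≤ mm w p l r k z * w k z * (if z < q then GG w p N k z else GG w p N k (z - 1))
    split_ifs <;> positivity
  unfold cg
  have e : GG w p N k (q - 1) / ZZ w p l r lo hi N k q * mm w p l r k q * w k q =
      mm w p l r k q * w k q * GG w p N k (q - 1) / ZZ w p l r lo hi N k q := by ring
  rw [e]
  exact div_le_one_of_le₀ h1 hz.le

/-- The arriving mass is part of the total mass of the next row. -/
theorem cl_le (hw : ∀ k y, 0 < w k y) (hp : 0 < p) (h : Box l r X lo hi N) (k : ℕ) {q : ℤ} (hq : q ∈ Icc X (X + N)) :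
    cl w p l r lo hi N k q * mm w p l r (k + 1) q ≤ 1 := by
  have hz := TT_pos hw hp h (k + 1) q
  rw [mem_Icc] at hq
  have hX0 := h.X0
  have hX1 := h.X1
  have h1 : mm w p l r (k + 1) q * bw w p (k + 1) (N - (k + 1)) (q - 1) ≤ TT w p l r lo hi N (k + 1) q := by
    unfold TT cut
    have e : mm w p l r (k + 1) q * bw w p (k + 1) (N - (k + 1)) (q - 1) =
        mm w p l r (k + 1) q * (if q < q then bw w p (k + 1) (N - (k + 1)) q else bw w p (k + 1) (N - (k + 1)) (q - 1)) := by
      rw [if_neg (lt_irrefl q)]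
    rw [e]
    refine single_le_sum (f := fun y => mm w p l r (k + 1) y * (if y < q then bw w p (k + 1) (N - (k + 1)) y
      else bw w p (k + 1) (N - (k + 1)) (y - 1))) (fun z _ => ?_) (mem_Icc.2 ⟨by omega, by omega⟩)
    have h1 := mm_nonneg hw hp h.g (k + 1) z
    have h3 := bw_pos hw hp (N - (k + 1)) (k + 1) z
    have h4 := bw_pos hw hp (N - (k + 1)) (k + 1) (z - 1)
    show 0 ≤ mm w p l r (k + 1) z * (if z < q then bw w p (k + 1) (N - (k + 1)) z
      else bw w p (k + 1) (N - (k + 1)) (z - 1))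
    split_ifs <;> positivity
  unfold cl
  have e : bw w p (k + 1) (N - (k + 1)) (q - 1) / TT w p l r lo hi N (k + 1) q * mm w p l r (k + 1) q =
      mm w p l r (k + 1) q * bw w p (k + 1) (N - (k + 1)) (q - 1) / TT w p l r lo hi N (k + 1) q := by ring
  rw [e]
  exact div_le_one_of_le₀ h1 hz.le

/-- The numbers of the gain are admissible. -/
theorem num_gain (hw : ∀ k y, 0 < w k y) (hp : 0 < p) (h : Box l r X lo hi N) (k : ℕ) {q : ℤ} (hq : q ∈ Icc X (X + N))
    {c : ℝ} (hc1 : c ≤ 1) (h1 : c * w k q ≤ w k (q - 1)) (h2 : c * w k (q - 1) ≤ w k q) :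
    Num (cg w p l r lo hi N k q * fw w p l k (q - 1)) (cg w p l r lo hi N k q * fw w p r k (q - 1))
      (cg w p l r lo hi N k q * fw w p l k q) (cg w p l r lo hi N k q * fw w p r k q) (w k (q - 1) - w k q) c := by
  have g := (cg_pos hw hp h k q).le
  have f1 := fw_nonneg hw hp h.g.l0 k (q - 1)
  have f2 := fw_nonneg hw hp h.g.r0 k (q - 1)
  have f3 := fw_nonneg hw hp h.g.l0 k q
  have f4 := fw_nonneg hw hp h.g.r0 k q
  refine ⟨by positivity, by positivity, by positivity, by positivity, ?_, ?_⟩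
  · have e : cg w p l r lo hi N k q * fw w p l k q + cg w p l r lo hi N k q * fw w p r k q =
        cg w p l r lo hi N k q * mm w p l r k q := by
      unfold mm
      ring
    rw [e]
    set x := cg w p l r lo hi N k q * mm w p l r k q with hx
    have k1 : x * w k q ≤ 1 := cg_right hw hp h k hq
    have k0 : 0 ≤ x := mul_nonneg g (mm_nonneg hw hp h.g k q)
    have k2 : x * (c * w k q) ≤ x * w k (q - 1) := mul_le_mul_of_nonneg_left h1 k0
    have k3 : 0 ≤ (1 - c) * (1 - x * w k q) := mul_nonneg (by linarith) (by linarith)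
    have k4 : (1 - c) * (1 - x * w k q) = 1 - c - x * w k q + x * (c * w k q) := by ring
    rw [mul_sub]
    linarith
  · have e : cg w p l r lo hi N k q * fw w p l k (q - 1) + cg w p l r lo hi N k q * fw w p r k (q - 1) =
        cg w p l r lo hi N k q * mm w p l r k (q - 1) := by
      unfold mm
      ring
    rw [e]
    set x := cg w p l r lo hi N k q * mm w p l r k (q - 1) with hx
    have k1 : x * w k (q - 1) ≤ 1 := cg_left hw hp h k hq
    have k0 : 0 ≤ x := mul_nonneg g (mm_nonneg hw hp h.g k (q - 1))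
    have k2 : x * (c * w k (q - 1)) ≤ x * w k q := mul_le_mul_of_nonneg_left h2 k0
    have k3 : 0 ≤ (1 - c) * (1 - x * w k (q - 1)) := mul_nonneg (by linarith) (by linarith)
    have k4 : (1 - c) * (1 - x * w k (q - 1)) = 1 - c - x * w k (q - 1) + x * (c * w k (q - 1)) := by ring
    rw [mul_sub]
    linarith

/-- The interface law is the decrement of the shares when both neighbours carry mass. -/
theorem rho_ro {k : ℕ} {q : ℤ} (h1 : mm w p l r k (q - 1) ≠ 0) (h2 : mm w p l r k q ≠ 0) :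
    rho w p l r X k q = ro (fw w p l k (q - 1)) (fw w p r k (q - 1)) (fw w p l k q) (fw w p r k q) := by
  unfold rho Fk ro
  rw [if_neg (show fw w p l k (q - 1) + fw w p r k (q - 1) ≠ 0 from h1),
    if_neg (show fw w p l k q + fw w p r k q ≠ 0 from h2)]

/-- The gain in terms of the local numbers. -/
theorem jg_jl (hw : ∀ k y, 0 < w k y) (hp : 0 < p) (h : Box l r X lo hi N) {k : ℕ} (hk : k < N) {q : ℤ}
    (hq : q ∈ Icc X (X + N)) : jg w p l r lo hi N k q =
      jl (cg w p l r lo hi N k q * mm w p l r k (q - 1)) (cg w p l r lo hi N k q * mm w p l r k q)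
        (w k (q - 1) - w k q) := by
  have hz := ZZ_pos hw hp h k q
  have g := cg_pos hw hp h k q
  have y1 := Y1_pos hw hp h hk hq
  have y2 := Y2_pos hw hp h hk hq
  have v := vv_mem hw hp h.g k q
  have e1 : 1 + cg w p l r lo hi N k q * mm w p l r k q * (w k (q - 1) - w k q) =
      (ZZ w p l r lo hi N k q)⁻¹ * Y1 w p l r lo hi N k q := by
    unfold Y1 cg
    field_simp
  have e2 : 1 - cg w p l r lo hi N k q * mm w p l r k (q - 1) * (w k (q - 1) - w k q) =
      (ZZ w p l r lo hi N k q)⁻¹ * Y2 w p l r lo hi N k q := by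
    unfold Y2 cg
    field_simp
    ring
  unfold jl
  rw [e1, e2, share_smul g]
  unfold jg
  exact (jn_smul (inv_pos.2 hz) v.1 v.2 y1 y2).symm

/-- **Interface law times gain as a function of the local numbers.** -/
theorem rho_jg (hw : ∀ k y, 0 < w k y) (hp : 0 < p) (h : Box l r X lo hi N) {k : ℕ} (hk : k < N) {q : ℤ}
    (hq : q ∈ Icc X (X + N)) : rho w p l r X k q * jg w p l r lo hi N k q =
      pg (cg w p l r lo hi N k q * fw w p l k (q - 1)) (cg w p l r lo hi N k q * fw w p r k (q - 1))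
        (cg w p l r lo hi N k q * fw w p l k q) (cg w p l r lo hi N k q * fw w p r k q) (w k (q - 1) - w k q) := by
  have g := cg_pos hw hp h k q
  have ea : cg w p l r lo hi N k q * fw w p l k (q - 1) + cg w p l r lo hi N k q * fw w p r k (q - 1) =
      cg w p l r lo hi N k q * mm w p l r k (q - 1) := by
    unfold mm
    ring
  have eb : cg w p l r lo hi N k q * fw w p l k q + cg w p l r lo hi N k q * fw w p r k q =
      cg w p l r lo hi N k q * mm w p l r k q := by
    unfold mm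
    ring
  unfold pg
  rw [ea, eb, jg_jl hw hp h hk hq]
  by_cases h1 : mm w p l r k (q - 1) = 0
  · rw [h1, mul_zero, jl_zero_left, mul_zero, mul_zero]
  by_cases h2 : mm w p l r k q = 0
  · rw [h2, mul_zero, jl_zero_right, mul_zero, mul_zero]
  rw [rho_ro h1 h2, ro_smul g g]

/-- The loss in terms of the local numbers. -/
theorem JG_jq (hw : ∀ k y, 0 < w k y) (hp : 0 < p) (h : Box l r X lo hi N) {k : ℕ} {q : ℤ}
    (hq : q ∈ Icc X (X + N)) : JG w p l r lo hi N k q =
      jq (cl w p l r lo hi N k q * (p * w k (q - 1)) * mm w p l r k (q - 1)) (cl w p l r lo hi N k q * w k q * mm w p l r k q)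
        (bw w p (k + 1) (N - (k + 1)) q / bw w p (k + 1) (N - (k + 1)) (q - 1)) := by
  have hz := TT_pos hw hp h (k + 1) q
  have hz2 := TT_pos hw hp h (k + 1) (q + 1)
  have g := cl_pos hw hp h k q
  have v := th_mem hw hp h.g k q
  have f1 := bw_pos hw hp (N - (k + 1)) (k + 1) (q - 1)
  rw [mem_Icc] at hq
  have hX0 := h.X0
  have hX1 := h.X1
  have e0 : TT w p l r lo hi N (k + 1) (q + 1) - TT w p l r lo hi N (k + 1) q =
      mm w p l r (k + 1) q * (bw w p (k + 1) (N - (k + 1)) q - bw w p (k + 1) (N - (k + 1)) (q - 1)) :=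
    cut_sub (by omega) (by omega)
  have em : cl w p l r lo hi N k q * (p * w k (q - 1)) * mm w p l r k (q - 1) + cl w p l r lo hi N k q * w k q * mm w p l r k q =
      cl w p l r lo hi N k q * mm w p l r (k + 1) q := by
    rw [mm_succ]
    ring
  have e1 : 1 + cl w p l r lo hi N k q * mm w p l r (k + 1) q *
      (bw w p (k + 1) (N - (k + 1)) q / bw w p (k + 1) (N - (k + 1)) (q - 1) - 1) =
      (TT w p l r lo hi N (k + 1) q)⁻¹ * TT w p l r lo hi N (k + 1) (q + 1) := by
    have e2 : TT w p l r lo hi N (k + 1) (q + 1) = TT w p l r lo hi N (k + 1) q +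
      mm w p l r (k + 1) q * (bw w p (k + 1) (N - (k + 1)) q - bw w p (k + 1) (N - (k + 1)) (q - 1)) := by linarith
    rw [e2]
    unfold cl
    field_simp
  have e3 : (1 : ℝ) = (TT w p l r lo hi N (k + 1) q)⁻¹ * TT w p l r lo hi N (k + 1) q := (inv_mul_cancel₀ hz.ne').symm
  have e4 : cl w p l r lo hi N k q * (p * w k (q - 1)) * mm w p l r k (q - 1) /
      (cl w p l r lo hi N k q * mm w p l r (k + 1) q) = th w p l r k q := by
    unfold th
    rw [show cl w p l r lo hi N k q * (p * w k (q - 1)) * mm w p l r k (q - 1) =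
      cl w p l r lo hi N k q * (p * (w k (q - 1) * mm w p l r k (q - 1))) by ring, mul_div_mul_left _ _ g.ne']
    rfl
  unfold jq
  rw [em, e4, e1]
  conv_rhs => rw [e3]
  rw [jn_smul (inv_pos.2 hz) v.1 v.2 hz2 hz]
  rfl

/-- **Interface law times loss as a function of the local numbers.** -/
theorem rho_JG (hw : ∀ k y, 0 < w k y) (hp : 0 < p) (h : Box l r X lo hi N) {k : ℕ} {q : ℤ}
    (hq : q ∈ Icc X (X + N)) : rho w p l r X k q * JG w p l r lo hi N k q =
      pq (cl w p l r lo hi N k q * (p * w k (q - 1)) * fw w p l k (q - 1))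
        (cl w p l r lo hi N k q * (p * w k (q - 1)) * fw w p r k (q - 1))
        (cl w p l r lo hi N k q * w k q * fw w p l k q) (cl w p l r lo hi N k q * w k q * fw w p r k q)
        (bw w p (k + 1) (N - (k + 1)) q / bw w p (k + 1) (N - (k + 1)) (q - 1)) := by
  have g := cl_pos hw hp h k q
  have w1 := hw k (q - 1)
  have w2 := hw k q
  have ea : cl w p l r lo hi N k q * (p * w k (q - 1)) * fw w p l k (q - 1) +
      cl w p l r lo hi N k q * (p * w k (q - 1)) * fw w p r k (q - 1) =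
      cl w p l r lo hi N k q * (p * w k (q - 1)) * mm w p l r k (q - 1) := by
    unfold mm
    ring
  have eb : cl w p l r lo hi N k q * w k q * fw w p l k q + cl w p l r lo hi N k q * w k q * fw w p r k q =
      cl w p l r lo hi N k q * w k q * mm w p l r k q := by
    unfold mm
    ring
  unfold pq
  rw [ea, eb, JG_jq hw hp h hq]
  by_cases h1 : mm w p l r k (q - 1) = 0
  · rw [h1, mul_zero, jq_zero_left, mul_zero, mul_zero]
  by_cases h2 : mm w p l r k q = 0
  · rw [h2, mul_zero, jq_zero_right, mul_zero, mul_zero]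
  rw [rho_ro h1 h2, ro_smul (mul_pos g (mul_pos hp w1)) (mul_pos g w2)]

/-- The ratio of two neighbouring cuts. -/
theorem loss_ge (hw : ∀ k y, 0 < w k y) (hp : 0 < p) (h : Box l r X lo hi N) (k : ℕ) {q : ℤ} (hq : q ∈ Icc X (X + N))
    {c : ℝ} (hc1 : c ≤ 1)
    (h1 : c * bw w p (k + 1) (N - (k + 1)) (q - 1) ≤ bw w p (k + 1) (N - (k + 1)) q) :
    c ≤ 1 + cl w p l r lo hi N k q * mm w p l r (k + 1) q *
      (bw w p (k + 1) (N - (k + 1)) q / bw w p (k + 1) (N - (k + 1)) (q - 1) - 1) := by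
  have f1 := bw_pos hw hp (N - (k + 1)) (k + 1) (q - 1)
  have k1 := cl_le hw hp h k hq
  have k0 : 0 ≤ cl w p l r lo hi N k q * mm w p l r (k + 1) q :=
    mul_nonneg (cl_pos hw hp h k q).le (mm_nonneg hw hp h.g (k + 1) q)
  have k2 : c ≤ bw w p (k + 1) (N - (k + 1)) q / bw w p (k + 1) (N - (k + 1)) (q - 1) := by
    rw [le_div_iff₀ f1]
    exact h1
  set x := cl w p l r lo hi N k q * mm w p l r (k + 1) q with hx
  set v := bw w p (k + 1) (N - (k + 1)) q / bw w p (k + 1) (N - (k + 1)) (q - 1) with hv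
  have k3 : x * c ≤ x * v := mul_le_mul_of_nonneg_left k2 k0
  have k4 : 0 ≤ (1 - x) * (1 - c) := mul_nonneg (by linarith) (by linarith)
  have k5 : (1 - x) * (1 - c) = 1 - c - x + x * c := by ring
  rw [mul_sub]
  linarith

/-! ### The row functionals -/

/-- Total mass with the contracted row (`ZZ`), `f` = profile above the next row. -/
def rz (lo hi : ℤ) (p : ℝ) (wk m f : ℤ → ℝ) (q : ℤ) : ℝ := zs (Icc lo hi) m wk (fun y => f y + p * f (y + 1)) q

/-- Total mass with the cut above the next row (`TT (k + 1)`). -/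
def rt (lo hi : ℤ) (p : ℝ) (wk m f : ℤ → ℝ) (q : ℤ) : ℝ :=
  cut (Icc lo hi) (fun y => wk y * m y + p * (wk (y - 1) * m (y - 1))) f q

/-- Total mass. -/
def tm (lo hi : ℤ) (p : ℝ) (wk m f : ℤ → ℝ) : ℝ := ∑ y ∈ Icc lo hi, m y * wk y * (f y + p * f (y + 1))

/-- Interface law times gain. -/
def ctg (lo hi : ℤ) (p : ℝ) (wk ml mr f : ℤ → ℝ) (q : ℤ) : ℝ :=
  pg ((f (q - 1) + p * f q) / rz lo hi p wk (fun y => ml y + mr y) f q * ml (q - 1))
    ((f (q - 1) + p * f q) / rz lo hi p wk (fun y => ml y + mr y) f q * mr (q - 1))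
    ((f (q - 1) + p * f q) / rz lo hi p wk (fun y => ml y + mr y) f q * ml q)
    ((f (q - 1) + p * f q) / rz lo hi p wk (fun y => ml y + mr y) f q * mr q) (wk (q - 1) - wk q)

/-- Interface law times loss. -/
def ctl (lo hi : ℤ) (p : ℝ) (wk ml mr f : ℤ → ℝ) (q : ℤ) : ℝ :=
  pq (f (q - 1) / rt lo hi p wk (fun y => ml y + mr y) f q * (p * wk (q - 1)) * ml (q - 1))
    (f (q - 1) / rt lo hi p wk (fun y => ml y + mr y) f q * (p * wk (q - 1)) * mr (q - 1))
    (f (q - 1) / rt lo hi p wk (fun y => ml y + mr y) f q * wk q * ml q)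
    (f (q - 1) / rt lo hi p wk (fun y => ml y + mr y) f q * wk q * mr q) (f q / f (q - 1))

/-- Interface law times (gain minus loss). -/
def ct (lo hi : ℤ) (p : ℝ) (wk ml mr f : ℤ → ℝ) (q : ℤ) : ℝ := ctg lo hi p wk ml mr f q - ctl lo hi p wk ml mr f q

/-- The probability that a pair (one path of each group) meets at the site `q` of the next row. -/
def pt (lo hi : ℤ) (p : ℝ) (wk ml mr f : ℤ → ℝ) (q : ℤ) : ℝ :=
  (ml (q - 1) * mr q - ml q * mr (q - 1)) * (p * (wk (q - 1) * wk q) * f q ^ 2) / tm lo hi p wk (fun y => ml y + mr y) f ^ 2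

/-- **The contact functional is the row functional.** -/
theorem contact_ct (hw : ∀ k y, 0 < w k y) (hp : 0 < p) (h : Box l r X lo hi N) {k : ℕ} (hk : k < N) {q : ℤ}
    (hq : q ∈ Icc X (X + N)) : rho w p l r X k q * (jg w p l r lo hi N k q - JG w p l r lo hi N k q) =
      ct lo hi p (w k) (fw w p l k) (fw w p r k) (bw w p (k + 1) (N - (k + 1))) q := by
  rw [mul_sub, rho_jg hw hp h hk hq, rho_JG hw hp h hq]
  unfold ct ctg ctl
  have e1 : cg w p l r lo hi N k q = (bw w p (k + 1) (N - (k + 1)) (q - 1) + p * bw w p (k + 1) (N - (k + 1)) q) /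
      rz lo hi p (w k) (fun y => fw w p l k y + fw w p r k y) (bw w p (k + 1) (N - (k + 1))) q := by
    unfold cg GG
    rw [sub_add_cancel]
    rfl
  have e2 : cl w p l r lo hi N k q = bw w p (k + 1) (N - (k + 1)) (q - 1) /
      rt lo hi p (w k) (fun y => fw w p l k y + fw w p r k y) (bw w p (k + 1) (N - (k + 1))) q := by
    unfold cl TT rt
    have e3 : mm w p l r (k + 1) = fun y => w k y * (fw w p l k y + fw w p r k y) +
        p * (w k (y - 1) * (fw w p l k (y - 1) + fw w p r k (y - 1))) := funext fun y => mm_succ k y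
    rw [e3]
  rw [e1, e2]

/-- **The meeting mass is the row functional.** -/
theorem meet_pt (h : Box l r X lo hi N) {k : ℕ} (hk : k < N) (q : ℤ) :
    (fw w p l k (q - 1) * fw w p r k q - fw w p l k q * fw w p r k (q - 1)) *
      (p * (w k (q - 1) * w k q) * bw w p (k + 1) (N - (k + 1)) q ^ 2) / (∑ y ∈ Icc lo hi, (l y + r y) * bw w p 0 N y) ^ 2 =
      pt lo hi p (w k) (fw w p l k) (fw w p r k) (bw w p (k + 1) (N - (k + 1))) q := by
  have e : ∑ y ∈ Icc lo hi, (l y + r y) * bw w p 0 N y =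
      tm lo hi p (w k) (fun y => fw w p l k y + fw w p r k y) (bw w p (k + 1) (N - (k + 1))) := by
    rw [← sum_mm_bw (w := w) (p := p) h k hk.le]
    unfold tm
    refine sum_congr rfl fun y _ => ?_
    rw [bw_eq hk]
    unfold GG mm
    ring
  rw [e]
  rfl

/-! ### Linearity of the totals -/

variable {wk ml mr f : ℤ → ℝ} {q : ℤ}

theorem rz_lin (m1 m2 : ℤ → ℝ) (a b : ℝ) : rz lo hi p wk (fun y => a * m1 y + b * m2 y) f q =
    a * rz lo hi p wk m1 f q + b * rz lo hi p wk m2 f q := by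
  unfold rz zs
  rw [mul_sum, mul_sum, ← sum_add_distrib]
  exact sum_congr rfl fun y _ => by ring

theorem rt_lin (m1 m2 : ℤ → ℝ) (a b : ℝ) : rt lo hi p wk (fun y => a * m1 y + b * m2 y) f q =
    a * rt lo hi p wk m1 f q + b * rt lo hi p wk m2 f q := by
  unfold rt cut
  rw [mul_sum, mul_sum, ← sum_add_distrib]
  exact sum_congr rfl fun y _ => by ring

theorem tm_lin (m1 m2 : ℤ → ℝ) (a b : ℝ) : tm lo hi p wk (fun y => a * m1 y + b * m2 y) f =
    a * tm lo hi p wk m1 f + b * tm lo hi p wk m2 f := by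
  unfold tm
  rw [mul_sum, mul_sum, ← sum_add_distrib]
  exact sum_congr rfl fun y _ => by ring

theorem rz_add (m1 m2 : ℤ → ℝ) : rz lo hi p wk (fun y => m1 y + m2 y) f q = rz lo hi p wk m1 f q + rz lo hi p wk m2 f q := by
  have := rz_lin (lo := lo) (hi := hi) (p := p) (wk := wk) (f := f) (q := q) m1 m2 1 1
  simpa using this

theorem rt_add (m1 m2 : ℤ → ℝ) : rt lo hi p wk (fun y => m1 y + m2 y) f q = rt lo hi p wk m1 f q + rt lo hi p wk m2 f q := by
  have := rt_lin (lo := lo) (hi := hi) (p := p) (wk := wk) (f := f) (q := q) m1 m2 1 1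
  simpa using this

theorem tm_add (m1 m2 : ℤ → ℝ) : tm lo hi p wk (fun y => m1 y + m2 y) f = tm lo hi p wk m1 f + tm lo hi p wk m2 f := by
  have := tm_lin (lo := lo) (hi := hi) (p := p) (wk := wk) (f := f) m1 m2 1 1
  simpa using this

theorem rz_smul (m1 : ℤ → ℝ) (a : ℝ) : rz lo hi p wk (fun y => a * m1 y) f q = a * rz lo hi p wk m1 f q := by
  have := rz_lin (lo := lo) (hi := hi) (p := p) (wk := wk) (f := f) (q := q) m1 m1 a 0
  simpa using this

theorem rt_smul (m1 : ℤ → ℝ) (a : ℝ) : rt lo hi p wk (fun y => a * m1 y) f q = a * rt lo hi p wk m1 f q := by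
  have := rt_lin (lo := lo) (hi := hi) (p := p) (wk := wk) (f := f) (q := q) m1 m1 a 0
  simpa using this

theorem tm_smul (m1 : ℤ → ℝ) (a : ℝ) : tm lo hi p wk (fun y => a * m1 y) f = a * tm lo hi p wk m1 f := by
  have := tm_lin (lo := lo) (hi := hi) (p := p) (wk := wk) (f := f) m1 m1 a 0
  simpa using this

theorem rz_fsmul (m1 : ℤ → ℝ) (a : ℝ) : rz lo hi p wk m1 (fun y => a * f y) q = a * rz lo hi p wk m1 f q := by
  unfold rz zs
  rw [mul_sum]
  refine sum_congr rfl fun y _ => ?_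
  split_ifs <;> ring

theorem rt_fsmul (m1 : ℤ → ℝ) (a : ℝ) : rt lo hi p wk m1 (fun y => a * f y) q = a * rt lo hi p wk m1 f q := by
  unfold rt cut
  rw [mul_sum]
  refine sum_congr rfl fun y _ => ?_
  split_ifs <;> ring

theorem tm_fsmul (m1 : ℤ → ℝ) (a : ℝ) : tm lo hi p wk m1 (fun y => a * f y) = a * tm lo hi p wk m1 f := by
  unfold tm
  rw [mul_sum]
  exact sum_congr rfl fun y _ => by ring

/-- The row functionals do not see a factor of the profile. -/
theorem ct_fsmul {a : ℝ} (ha : 0 < a) : ct lo hi p wk ml mr (fun y => a * f y) q = ct lo hi p wk ml mr f q := by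
  unfold ct ctg ctl
  rw [rz_fsmul, rt_fsmul]
  have e1 : (a * f (q - 1) + p * (a * f q)) / (a * rz lo hi p wk (fun y => ml y + mr y) f q) =
      (f (q - 1) + p * f q) / rz lo hi p wk (fun y => ml y + mr y) f q := by
    rw [show a * f (q - 1) + p * (a * f q) = a * (f (q - 1) + p * f q) by ring, mul_div_mul_left _ _ ha.ne']
  rw [e1, mul_div_mul_left _ _ ha.ne', mul_div_mul_left _ _ ha.ne']

theorem pt_fsmul {a : ℝ} (ha : 0 < a) : pt lo hi p wk ml mr (fun y => a * f y) q = pt lo hi p wk ml mr f q := by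
  unfold pt
  rw [tm_fsmul]
  by_cases h : tm lo hi p wk (fun y => ml y + mr y) f = 0
  · rw [h]
    simp
  · field_simp

/-! ### The level -/

/-- A share of a mixture: `A1 f1 + A2 f2` against `B1 f1 + B2 f2`. -/
theorem share_lev {A1 A2 B1 B2 a x y : ℝ} (h1 : 0 < A1 + Real.exp (-a) * B1) (h2 : 0 < A2 + Real.exp (-a) * B2)
    (hx : 0 ≤ x) (hy : 0 ≤ y) (hxy : 0 < x + y) :
    (A1 * x + A2 * y) / ((A1 * x + A2 * y) + Real.exp (-a) * (B1 * x + B2 * y)) =
      A2 / (A2 + Real.exp (-a) * B2) + lev' A1 A2 B1 B2 a *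
        (x / (x + Real.exp (-(lev A1 A2 B1 B2 a)) * y)) := by
  rw [exp_lev h1 h2]
  have h3 : 0 < (A1 + Real.exp (-a) * B1) * x + (A2 + Real.exp (-a) * B2) * y := by
    rcases eq_or_lt_of_le hx with h | h
    · have : 0 < y := by linarith
      rw [← h]
      positivity
    · positivity
  have h4 : 0 < x + (A2 + Real.exp (-a) * B2) / (A1 + Real.exp (-a) * B1) * y := by
    rcases eq_or_lt_of_le hx with h | h
    · have : 0 < y := by linarith
      rw [← h]
      positivity
    · positivity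
  have e1 : (A1 * x + A2 * y) + Real.exp (-a) * (B1 * x + B2 * y) =
      (A1 + Real.exp (-a) * B1) * x + (A2 + Real.exp (-a) * B2) * y := by ring
  have e2 : x + (A2 + Real.exp (-a) * B2) / (A1 + Real.exp (-a) * B1) * y =
      ((A1 + Real.exp (-a) * B1) * x + (A2 + Real.exp (-a) * B2) * y) / (A1 + Real.exp (-a) * B1) := by
    field_simp
  have e3 : Real.exp (-a) * (A1 * B2 - A2 * B1) =
      A1 * (A2 + Real.exp (-a) * B2) - A2 * (A1 + Real.exp (-a) * B1) := by ring
  rw [e1, e2]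
  unfold lev'
  rw [e3]
  generalize A1 + Real.exp (-a) * B1 = P at *
  generalize A2 + Real.exp (-a) * B2 = Q at *
  have n1 := h1.ne'
  have n2 := h2.ne'
  have n3 := h3.ne'
  generalize hD : P * x + Q * y = D at *
  field_simp
  linear_combination A2 * hD

theorem ro_lev {A1 A2 B1 B2 a x y x2 y2 : ℝ} (h1 : 0 < A1 + Real.exp (-a) * B1) (h2 : 0 < A2 + Real.exp (-a) * B2)
    (hx : 0 ≤ x) (hy : 0 ≤ y) (hxy : 0 < x + y) (hx2 : 0 ≤ x2) (hy2 : 0 ≤ y2) (hxy2 : 0 < x2 + y2) :
    ro (A1 * x + A2 * y) (Real.exp (-a) * (B1 * x + B2 * y)) (A1 * x2 + A2 * y2) (Real.exp (-a) * (B1 * x2 + B2 * y2)) =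
      lev' A1 A2 B1 B2 a * ro x (Real.exp (-(lev A1 A2 B1 B2 a)) * y) x2 (Real.exp (-(lev A1 A2 B1 B2 a)) * y2) := by
  unfold ro
  rw [share_lev h1 h2 hx hy hxy, share_lev h1 h2 hx2 hy2 hxy2]
  ring

/-- Positivity of the data of a row. -/
structure Pos (lo hi : ℤ) (p : ℝ) (wk m f : ℤ → ℝ) (q : ℤ) : Prop where
  p0 : 0 < p
  w0 : ∀ y, 0 < wk y
  f0 : ∀ y, 0 < f y
  z0 : 0 < rz lo hi p wk m f q
  t0 : 0 < rt lo hi p wk m f q
  m0 : 0 < tm lo hi p wk m f

variable {A1 A2 B1 B2 a : ℝ} {f1 f2 : ℤ → ℝ}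

theorem lev_tot (h1 : 0 < A1 + Real.exp (-a) * B1) (h2 : 0 < A2 + Real.exp (-a) * B2) (x y : ℝ) :
    (A1 * x + A2 * y) + Real.exp (-a) * (B1 * x + B2 * y) =
      (A1 + Real.exp (-a) * B1) * (x + Real.exp (-(lev A1 A2 B1 B2 a)) * y) := by
  rw [exp_lev h1 h2]
  field_simp
  ring

/-- **The contact functional at the level `a` is the inner one at the level of the inside.** -/
theorem ct_lev (h1 : 0 < A1 + Real.exp (-a) * B1) (h2 : 0 < A2 + Real.exp (-a) * B2)
    (g1 : ∀ y, 0 ≤ f1 y) (g2 : ∀ y, 0 ≤ f2 y)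
    (h : Pos lo hi p wk (fun y => f1 y + Real.exp (-(lev A1 A2 B1 B2 a)) * f2 y) f q) :
    ct lo hi p wk (fun y => A1 * f1 y + A2 * f2 y) (fun y => Real.exp (-a) * (B1 * f1 y + B2 * f2 y)) f q =
      lev' A1 A2 B1 B2 a * ct lo hi p wk f1 (fun y => Real.exp (-(lev A1 A2 B1 B2 a)) * f2 y) f q := by
  have hp := h.p0
  have w1 := h.w0 (q - 1)
  have w2 := h.w0 q
  have k1 := h.f0 (q - 1)
  have k2 := h.f0 q
  have hz := h.z0
  have ht := h.t0
  have hm : (fun y => (A1 * f1 y + A2 * f2 y) + Real.exp (-a) * (B1 * f1 y + B2 * f2 y)) =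
      fun y => (A1 + Real.exp (-a) * B1) * (f1 y + Real.exp (-(lev A1 A2 B1 B2 a)) * f2 y) :=
    funext fun y => lev_tot h1 h2 (f1 y) (f2 y)
  have ez : rz lo hi p wk (fun y => (A1 * f1 y + A2 * f2 y) + Real.exp (-a) * (B1 * f1 y + B2 * f2 y)) f q =
      (A1 + Real.exp (-a) * B1) * rz lo hi p wk (fun y => f1 y + Real.exp (-(lev A1 A2 B1 B2 a)) * f2 y) f q := by
    rw [hm, rz_smul]
  have et : rt lo hi p wk (fun y => (A1 * f1 y + A2 * f2 y) + Real.exp (-a) * (B1 * f1 y + B2 * f2 y)) f q =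
      (A1 + Real.exp (-a) * B1) * rt lo hi p wk (fun y => f1 y + Real.exp (-(lev A1 A2 B1 B2 a)) * f2 y) f q := by
    rw [hm, rt_smul]
  set E := Real.exp (-(lev A1 A2 B1 B2 a)) with hE
  have hE0 : 0 < E := Real.exp_pos _
  set P := A1 + Real.exp (-a) * B1 with hP
  set Z := rz lo hi p wk (fun y => f1 y + E * f2 y) f q with hZ
  set R := rt lo hi p wk (fun y => f1 y + E * f2 y) f q with hR
  have tq1 := lev_tot h1 h2 (f1 (q - 1)) (f2 (q - 1))
  have tq := lev_tot h1 h2 (f1 q) (f2 q)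
  rw [← hE, ← hP] at tq1 tq
  have a1 := g1 (q - 1)
  have a2 := g2 (q - 1)
  have a3 := g1 q
  have a4 := g2 q
  -- the gain
  have e1 : ctg lo hi p wk (fun y => A1 * f1 y + A2 * f2 y) (fun y => Real.exp (-a) * (B1 * f1 y + B2 * f2 y)) f q =
      lev' A1 A2 B1 B2 a * ctg lo hi p wk f1 (fun y => E * f2 y) f q := by
    unfold ctg pg
    simp only []
    rw [ez, ← hZ]
    have c0 : 0 < (f (q - 1) + p * f q) / (P * Z) := by positivity
    have c1 : 0 < (f (q - 1) + p * f q) / Z := by positivity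
    have x1 : (f (q - 1) + p * f q) / (P * Z) * (A1 * f1 (q - 1) + A2 * f2 (q - 1)) +
        (f (q - 1) + p * f q) / (P * Z) * (Real.exp (-a) * (B1 * f1 (q - 1) + B2 * f2 (q - 1))) =
        (f (q - 1) + p * f q) / Z * f1 (q - 1) + (f (q - 1) + p * f q) / Z * (E * f2 (q - 1)) := by
      rw [← mul_add, tq1, ← mul_add]
      field_simp
    have x2 : (f (q - 1) + p * f q) / (P * Z) * (A1 * f1 q + A2 * f2 q) +
        (f (q - 1) + p * f q) / (P * Z) * (Real.exp (-a) * (B1 * f1 q + B2 * f2 q)) =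
        (f (q - 1) + p * f q) / Z * f1 q + (f (q - 1) + p * f q) / Z * (E * f2 q) := by
      rw [← mul_add, tq, ← mul_add]
      field_simp
    rw [x1, x2, ro_smul c0 c0, ro_smul c1 c1]
    by_cases z1 : f1 (q - 1) + f2 (q - 1) = 0
    · have b1 : f1 (q - 1) = 0 := by linarith
      have b2 : f2 (q - 1) = 0 := by linarith
      rw [b1, b2]
      simp only [mul_zero, add_zero]
      rw [jl_zero_left, mul_zero, mul_zero, mul_zero]
    by_cases z2 : f1 q + f2 q = 0
    · have b1 : f1 q = 0 := by linarith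
      have b2 : f2 q = 0 := by linarith
      rw [b1, b2]
      simp only [mul_zero, add_zero]
      rw [jl_zero_right, mul_zero, mul_zero, mul_zero]
    rw [ro_lev h1 h2 a1 a2 (lt_of_le_of_ne (by positivity) (Ne.symm z1)) a3 a4
      (lt_of_le_of_ne (by positivity) (Ne.symm z2)), ← hE]
    ring
  have e2 : ctl lo hi p wk (fun y => A1 * f1 y + A2 * f2 y) (fun y => Real.exp (-a) * (B1 * f1 y + B2 * f2 y)) f q =
      lev' A1 A2 B1 B2 a * ctl lo hi p wk f1 (fun y => E * f2 y) f q := by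
    unfold ctl pq
    simp only []
    rw [et, ← hR]
    have c0 : 0 < f (q - 1) / (P * R) * (p * wk (q - 1)) := by positivity
    have c0' : 0 < f (q - 1) / (P * R) * wk q := by positivity
    have c1 : 0 < f (q - 1) / R * (p * wk (q - 1)) := by positivity
    have c1' : 0 < f (q - 1) / R * wk q := by positivity
    have x1 : f (q - 1) / (P * R) * (p * wk (q - 1)) * (A1 * f1 (q - 1) + A2 * f2 (q - 1)) +
        f (q - 1) / (P * R) * (p * wk (q - 1)) * (Real.exp (-a) * (B1 * f1 (q - 1) + B2 * f2 (q - 1))) =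
        f (q - 1) / R * (p * wk (q - 1)) * f1 (q - 1) + f (q - 1) / R * (p * wk (q - 1)) * (E * f2 (q - 1)) := by
      rw [← mul_add, tq1, ← mul_add]
      field_simp
    have x2 : f (q - 1) / (P * R) * wk q * (A1 * f1 q + A2 * f2 q) +
        f (q - 1) / (P * R) * wk q * (Real.exp (-a) * (B1 * f1 q + B2 * f2 q)) =
        f (q - 1) / R * wk q * f1 q + f (q - 1) / R * wk q * (E * f2 q) := by
      rw [← mul_add, tq, ← mul_add]
      field_simp
    rw [x1, x2, ro_smul c0 c0', ro_smul c1 c1']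
    by_cases z1 : f1 (q - 1) + f2 (q - 1) = 0
    · have b1 : f1 (q - 1) = 0 := by linarith
      have b2 : f2 (q - 1) = 0 := by linarith
      rw [b1, b2]
      simp only [mul_zero, add_zero]
      rw [jq_zero_left, mul_zero, mul_zero, mul_zero]
    by_cases z2 : f1 q + f2 q = 0
    · have b1 : f1 q = 0 := by linarith
      have b2 : f2 q = 0 := by linarith
      rw [b1, b2]
      simp only [mul_zero, add_zero]
      rw [jq_zero_right, mul_zero, mul_zero, mul_zero]
    rw [ro_lev h1 h2 a1 a2 (lt_of_le_of_ne (by positivity) (Ne.symm z1)) a3 a4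
      (lt_of_le_of_ne (by positivity) (Ne.symm z2)), ← hE]
    ring
  unfold ct
  rw [e1, e2]
  ring

/-- **The meeting functional at the level `a` is the inner one at the level of the inside.** -/
theorem pt_lev (h1 : 0 < A1 + Real.exp (-a) * B1) (h2 : 0 < A2 + Real.exp (-a) * B2)
    (h : Pos lo hi p wk (fun y => f1 y + Real.exp (-(lev A1 A2 B1 B2 a)) * f2 y) f q) :
    pt lo hi p wk (fun y => A1 * f1 y + A2 * f2 y) (fun y => Real.exp (-a) * (B1 * f1 y + B2 * f2 y)) f q =
      lev' A1 A2 B1 B2 a * pt lo hi p wk f1 (fun y => Real.exp (-(lev A1 A2 B1 B2 a)) * f2 y) f q := by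
  have hm : (fun y => (A1 * f1 y + A2 * f2 y) + Real.exp (-a) * (B1 * f1 y + B2 * f2 y)) =
      fun y => (A1 + Real.exp (-a) * B1) * (f1 y + Real.exp (-(lev A1 A2 B1 B2 a)) * f2 y) :=
    funext fun y => lev_tot h1 h2 (f1 y) (f2 y)
  have et : tm lo hi p wk (fun y => (A1 * f1 y + A2 * f2 y) + Real.exp (-a) * (B1 * f1 y + B2 * f2 y)) f =
      (A1 + Real.exp (-a) * B1) * tm lo hi p wk (fun y => f1 y + Real.exp (-(lev A1 A2 B1 B2 a)) * f2 y) f := by
    rw [hm, tm_smul]
  have h0 := h.m0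
  unfold pt
  simp only []
  rw [et]
  rw [exp_lev h1 h2] at h0 ⊢
  unfold lev'
  have n1 := h1.ne'
  have n2 := h2.ne'
  have n0 := h0.ne'
  generalize tm lo hi p wk (fun y => f1 y + (A2 + Real.exp (-a) * B2) / (A1 + Real.exp (-a) * B1) * f2 y) f = M at *
  field_simp
  ring

end

end Pool.Agent.W_7d29a1_C1.K97
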