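import Pool.Agent.W_7d29a1_C1.Ctx60
import Pool.Agent.W_7d29a1_C1.LocR91
import Pool.Agent.W_7d29a1_C1.Row58

/-!
MP_7d29a1_pr, the attractor route: SIZE AND LEVEL OF THE CONTACTS OF A CONTEXT, deterministic. (helper91)

`X` bounds the logarithms of the ratios of the future masses of neighbouring sites (row of the contact and row `0`), `u` the one of the
two weights of the contact. Then `|C| ≤ K ws` and the level integral against a Lipschitz function `g` is `g B * C` up to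
`Lip (2 + 3 X) K ws`.
-/

set_option autoImplicit false

namespace Pool.Agent.W_7d29a1_C1.L91

open Finset MeasureTheory
open Pool.Agent.W_7d29a1_F
open Pool.Agent.W_7d29a1_C1.K91 (Box Grp wt wt_pos zs)
open Pool.Agent.W_7d29a1_C1.K91P
open Pool.Agent.W_7d29a1_C1.K97 (rz rt tm ct pt)
open Pool.Agent.W_7d29a1_C1.H60
open Pool.Agent.W_7d29a1_C1.H60.Cx (l)

noncomputable section

/-! ### Elementary -/

theorem le_of_log {a b u : ℝ} (ha : 0 < a) (hb : 0 < b) (h : |Real.log a - Real.log b| ≤ u) :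
    a ≤ Real.exp u * b ∧ b ≤ Real.exp u * a := by
  have h1 := abs_le.1 h
  constructor
  · rw [← Real.exp_log ha, ← Real.exp_log hb, ← Real.exp_add]
    exact Real.exp_le_exp.2 (by linarith)
  · rw [← Real.exp_log ha, ← Real.exp_log hb, ← Real.exp_add]
    exact Real.exp_le_exp.2 (by linarith)

theorem log_of_le {a b u : ℝ} (ha : 0 < a) (hb : 0 < b) (h1 : a ≤ Real.exp u * b) (h2 : b ≤ Real.exp u * a) :
    |Real.log a - Real.log b| ≤ u := by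
  have k1 := Real.log_le_log ha h1
  have k2 := Real.log_le_log hb h2
  rw [Real.log_mul (Real.exp_pos _).ne' hb.ne', Real.log_exp] at k1
  rw [Real.log_mul (Real.exp_pos _).ne' ha.ne', Real.log_exp] at k2
  rw [abs_le]
  constructor <;> linarith

/-- The contracted total against the total. -/
theorem log_rz_tm {lo hi : ℤ} {P : ℝ} {wk m f : ℤ → ℝ} {q : ℤ} {X : ℝ} (hP : 0 < P) (hw : ∀ y, 0 < wk y) (hf : ∀ y, 0 < f y)
    (hm : ∀ y, 0 ≤ m y) (h0 : ∃ y ∈ Icc lo hi, 0 < m y) (hX0 : 0 ≤ X)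
    (hX : ∀ y ∈ Icc lo hi, |Real.log (f (y - 1) + P * f y) - Real.log (f y + P * f (y + 1))| ≤ X) :
    |Real.log (rz lo hi P wk m f q) - Real.log (tm lo hi P wk m f)| ≤ X := by
  have g1 : ∀ y, 0 < f y + P * f (y + 1) := fun y => by
    have a1 := hf y
    have a2 := hf (y + 1)
    positivity
  have e1 : (1 : ℝ) ≤ Real.exp X := Real.one_le_exp hX0
  refine log_of_le (rz_pos hP hw hf hm h0 q) (tm_pos hP hw hf hm h0) ?_ ?_
  · unfold rz zs tm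
    rw [mul_sum]
    refine sum_le_sum fun y hy => ?_
    have a0 := mul_nonneg (hm y) (hw y).le
    have a1 := g1 y
    have a2 := g1 (y - 1)
    rw [sub_add_cancel] at a2
    have a3 := le_of_log a2 a1 (hX y hy)
    show m y * wk y * (if y < q then f y + P * f (y + 1) else f (y - 1) + P * f (y - 1 + 1)) ≤ _
    rw [sub_add_cancel]
    have a4 : (if y < q then f y + P * f (y + 1) else f (y - 1) + P * f y) ≤ Real.exp X * (f y + P * f (y + 1)) := by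
      split_ifs
      · have := mul_le_mul_of_nonneg_right e1 a1.le
        linarith
      · exact a3.1
    have a5 := mul_le_mul_of_nonneg_left a4 a0
    linarith
  · unfold rz zs tm
    rw [mul_sum]
    refine sum_le_sum fun y hy => ?_
    have a0 := mul_nonneg (hm y) (hw y).le
    have a1 := g1 y
    have a2 := g1 (y - 1)
    rw [sub_add_cancel] at a2
    have a3 := le_of_log a2 a1 (hX y hy)
    show _ ≤ Real.exp X * (m y * wk y * (if y < q then f y + P * f (y + 1) else f (y - 1) + P * f (y - 1 + 1)))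
    rw [sub_add_cancel]
    have a4 : f y + P * f (y + 1) ≤ Real.exp X * (if y < q then f y + P * f (y + 1) else f (y - 1) + P * f y) := by
      split_ifs
      · have := mul_le_mul_of_nonneg_right e1 a1.le
        linarith
      · exact a3.2
    have a5 := mul_le_mul_of_nonneg_left a4 a0
    linarith

/-! ### Contexts -/

/-- The masses of the right group: nonnegative, one positive. -/
structure Msk (Γ : Cx) : Prop where
  k1 : 1 ≤ Γ.k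
  q0 : ∀ j, j < Γ.k → 0 ≤ Γ.q j
  q1 : ∃ j, j < Γ.k ∧ 0 < Γ.q j

variable {Γ : Cx}

theorem p_pos (i : ℕ) : 0 < Γ.p i := by
  unfold Cx.p
  split_ifs <;> exact Real.exp_pos _

theorem l_nonneg (y : ℤ) : 0 ≤ l y := by
  unfold l
  split_ifs <;> norm_num

theorem r_nonneg (hG : Msk Γ) (y : ℤ) : 0 ≤ Γ.r y := by
  unfold Cx.r
  split_ifs with h
  · exact hG.q0 _ (by omega)
  · exact le_rfl

theorem r_pos (hG : Msk Γ) : ∃ y : ℤ, 0 < Γ.r y := by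
  obtain ⟨j, hj, h0⟩ := hG.q1
  refine ⟨(j : ℤ) + 1, ?_⟩
  unfold Cx.r
  rw [if_pos (by omega)]
  have e : ((j : ℤ) + 1 - 1).toNat = j := by
    rw [add_sub_cancel_right]
    exact Int.toNat_natCast j
  rw [e]
  exact h0

theorem r_out {y : ℤ} (h : ¬ (1 ≤ y ∧ y ≤ Γ.k)) : Γ.r y = 0 := by
  unfold Cx.r
  rw [if_neg h]

/-- The box of a context. -/
theorem boxC (hG : Msk Γ) {b : ℝ} (hb : 0 < b) : Box l (fun y => b * Γ.r y) 1 0 Γ.hi Γ.N := by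
  have hk := hG.k1
  have hk' : (1 : ℤ) ≤ Γ.k := by exact_mod_cast hk
  refine ⟨⟨l_nonneg, fun y => mul_nonneg hb.le (r_nonneg hG y), fun y hy => ?_, fun y hy => ?_⟩, fun y hy => ?_, fun y hy => ?_,
    by norm_num, ?_, ?_⟩
  · unfold l
    rw [if_neg (by omega)]
  · show b * Γ.r y = 0
    rw [r_out (by omega), mul_zero]
  · refine ⟨?_, ?_⟩
    · unfold l
      rw [if_neg (by omega)]
    · show b * Γ.r y = 0
      rw [r_out (by omega), mul_zero]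
  · unfold Cx.hi at hy
    refine ⟨?_, ?_⟩
    · unfold l
      rw [if_neg (by omega)]
    · show b * Γ.r y = 0
      rw [r_out (by omega), mul_zero]
  · unfold Cx.hi
    omega
  · refine ⟨0, ?_⟩
    have h1 := r_nonneg hG 0
    have h2 : l 0 = 1 := if_pos rfl
    rw [h2]
    have h3 : 0 ≤ b * Γ.r 0 := mul_nonneg hb.le h1
    show (0 : ℝ) < 1 + b * Γ.r 0
    linarith

theorem boxC1 (hG : Msk Γ) : Box l Γ.r 1 0 Γ.hi Γ.N := by
  have h := boxC hG one_pos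
  have e : (fun y => 1 * Γ.r y) = Γ.r := funext fun y => one_mul _
  rw [e] at h
  exact h

/-- The profile above the row `i + 1`. -/
def fC (Γ : Cx) (η : Env) (i : ℕ) : ℤ → ℝ := bw (wt η) Γ.p (i + 1) (Γ.N - (i + 1))

theorem GG_fC (η : Env) (i : ℕ) (y : ℤ) : GG (wt η) Γ.p Γ.N i y = fC Γ η i y + Γ.p i * fC Γ η i (y + 1) := rfl

/-- The contact functional of a context is the row functional. -/
theorem ct_cta (hG : Msk Γ) (η : Env) {i : ℕ} (hi : i < Γ.N) {x : ℤ} (hx : x ∈ Icc (1 : ℤ) (1 + Γ.N)) (a : ℝ) :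
    Γ.ct η (i, x) a = cta 0 Γ.hi (Γ.p i) (wt η i) (fw (wt η) Γ.p l i) (fw (wt η) Γ.p Γ.r i) (fC Γ η i) x a := by
  unfold Cx.ct
  rw [R58.contact_ct (wt_pos η) p_pos (boxC hG (Real.exp_pos (-a))) hi hx]
  have e : fw (wt η) Γ.p (fun y => Real.exp (-a) * Γ.r y) i = fun y => Real.exp (-a) * fw (wt η) Γ.p Γ.r i y :=
    funext fun y => fw_smul _ _ i y
  show ct 0 Γ.hi (Γ.p i) (wt η i) (fw (wt η) Γ.p l i) (fw (wt η) Γ.p (fun y => Real.exp (-a) * Γ.r y) i) (fC Γ η i) x = _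
  rw [e]
  rfl

theorem C_eq (hG : Msk Γ) (η : Env) {i : ℕ} (hi : i < Γ.N) {x : ℤ} (hx : x ∈ Icc (1 : ℤ) (1 + Γ.N)) :
    Γ.C (i, x) η = Cc 0 Γ.hi (Γ.p i) (wt η i) (fw (wt η) Γ.p l i) (fw (wt η) Γ.p Γ.r i) (fC Γ η i) x := by
  unfold Cx.C Cc
  refine integral_congr_ae (Filter.Eventually.of_forall fun a => ?_)
  exact ct_cta hG η hi hx a

theorem ws_eq (η : Env) (i : ℕ) (x : ℤ) :
    Γ.ws (i, x) η = cw 0 Γ.hi (Γ.p i) (wt η i) (fw (wt η) Γ.p l i) (fw (wt η) Γ.p Γ.r i) (fC Γ η i) x := by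
  unfold Cx.ws cw
  have e1 : dp (wt η) Γ.p l Γ.r i (x - 1) x * (Γ.p i * (wt η i (x - 1) * wt η i x) * GG (wt η) Γ.p Γ.N i (x - 1) ^ 2) =
      L91.dw (Γ.p i) (wt η i) (fw (wt η) Γ.p l i) (fw (wt η) Γ.p Γ.r i) (fC Γ η i) x := by
    unfold L91.dw
    rw [GG_fC, sub_add_cancel]
    unfold dp
    ring
  show dp (wt η) Γ.p l Γ.r i (x - 1) x * (Γ.p i * (wt η i (x - 1) * wt η i x) * GG (wt η) Γ.p Γ.N i (x - 1) ^ 2) / _ = _
  rw [e1]
  rfl

/-- The data of the contact. -/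
theorem cutdC (hG : Msk Γ) (η : Env) {i : ℕ} (hi : i < Γ.N) {x : ℤ} (hx : x ∈ Icc (1 : ℤ) (1 + Γ.N)) {u X : ℝ}
    (hu : |Real.log (wt η i (x - 1)) - Real.log (wt η i x)| ≤ u) (hf : |Real.log (fC Γ η i (x - 1)) - Real.log (fC Γ η i x)| ≤ X) :
    Cutd 0 Γ.hi (Γ.p i) (wt η i) (fw (wt η) Γ.p l i) (fw (wt η) Γ.p Γ.r i) (fC Γ η i) x (Real.exp u) (Real.exp X) := by
  have hk' : (1 : ℤ) ≤ Γ.k := by exact_mod_cast hG.k1
  rw [mem_Icc] at hx
  have hu0 : 0 ≤ u := (abs_nonneg _).trans hu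
  have hX0 : 0 ≤ X := (abs_nonneg _).trans hf
  have f1 : 0 < fC Γ η i (x - 1) := bw_pos (wt_pos η) p_pos _ _ _
  have f2 : 0 < fC Γ η i x := bw_pos (wt_pos η) p_pos _ _ _
  have a1 := le_of_log (wt_pos η i (x - 1)) (wt_pos η i x) hu
  have a2 := le_of_log f1 f2 hf
  refine cutd_row (wt_pos η) p_pos (boxC1 hG) ⟨0, ?_⟩ (r_pos hG) hi ?_ ?_ (Real.one_le_exp hu0) (Real.one_le_exp hX0) a1.1 a1.2
    a2.1 a2.2
  · show (0 : ℝ) < l 0
    unfold l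
    rw [if_pos rfl]
    exact one_pos
  · rw [mem_Icc]
    unfold Cx.hi
    omega
  · rw [mem_Icc]
    unfold Cx.hi
    omega

theorem l0_pos : ∃ y : ℤ, 0 < l y := by
  refine ⟨0, ?_⟩
  unfold l
  rw [if_pos rfl]
  exact one_pos

theorem sum_l (Γ : Cx) (f : ℤ → ℝ) : ∑ y ∈ Icc (0 : ℤ) Γ.hi, l y * f y = f 0 := by
  rw [sum_eq_single 0]
  · unfold l
    rw [if_pos rfl, one_mul]
  · intro y _ hy
    unfold l
    rw [if_neg hy, zero_mul]
  · intro h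
    exact absurd (mem_Icc.2 ⟨le_rfl, by unfold Cx.hi; positivity⟩) h

theorem ZM_pos (η : Env) : 0 < Γ.ZM η := bw_pos (wt_pos η) p_pos _ _ _

theorem ZR_pos (hG : Msk Γ) (η : Env) : 0 < Γ.ZR η := by
  obtain ⟨y, hy⟩ := r_pos hG
  unfold Cx.ZR
  have h1 : 1 ≤ y ∧ y ≤ Γ.k := by
    by_contra hc
    rw [r_out hc] at hy
    exact lt_irrefl _ hy
  refine sum_pos' (fun z _ => mul_nonneg (r_nonneg hG z) (bw_pos (wt_pos η) p_pos _ _ _).le) ⟨y, ?_, mul_pos hy (bw_pos (wt_pos η) p_pos _ _ _)⟩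
  rw [mem_Icc]
  unfold Cx.hi
  omega

theorem Z0_pos (hG : Msk Γ) (η : Env) : 0 < Γ.Z0 η := by
  obtain ⟨y, hy⟩ := r_pos hG
  unfold Cx.Z0
  have h1 : 1 ≤ y ∧ y ≤ Γ.k := by
    by_contra hc
    rw [r_out hc] at hy
    exact lt_irrefl _ hy
  refine sum_pos' (fun z _ => mul_nonneg (r_nonneg hG z) (bw_pos (wt_pos η) p_pos _ _ _).le) ⟨y, ?_, mul_pos hy (bw_pos (wt_pos η) p_pos _ _ _)⟩
  rw [mem_Icc]
  unfold Cx.hi
  omega

/-- The total of the gap `0` against the one of the gap `1`. -/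
theorem log_Z0_ZR (hG : Msk Γ) (η : Env) {X : ℝ}
    (h0 : ∀ y ∈ Icc (1 : ℤ) Γ.k, |Real.log (bw (wt η) Γ.p 0 Γ.N (y - 1)) - Real.log (bw (wt η) Γ.p 0 Γ.N y)| ≤ X) :
    |Real.log (Γ.Z0 η) - Real.log (Γ.ZR η)| ≤ X := by
  refine log_of_le (Z0_pos hG η) (ZR_pos hG η) ?_ ?_
  · unfold Cx.Z0 Cx.ZR
    rw [mul_sum]
    refine sum_le_sum fun y _ => ?_
    by_cases hy : 1 ≤ y ∧ y ≤ Γ.k
    · have a1 := le_of_log (bw_pos (wt_pos η) p_pos _ _ _) (bw_pos (wt_pos η) p_pos _ _ _) (h0 y (mem_Icc.2 hy))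
      have a2 := mul_le_mul_of_nonneg_left a1.1 (r_nonneg hG y)
      linarith
    · rw [r_out hy]
      simp
  · unfold Cx.Z0 Cx.ZR
    rw [mul_sum]
    refine sum_le_sum fun y _ => ?_
    by_cases hy : 1 ≤ y ∧ y ≤ Γ.k
    · have a1 := le_of_log (bw_pos (wt_pos η) p_pos _ _ _) (bw_pos (wt_pos η) p_pos _ _ _) (h0 y (mem_Icc.2 hy))
      have a2 := mul_le_mul_of_nonneg_left a1.2 (r_nonneg hG y)
      linarith
    · rw [r_out hy]
      simp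

/-- The neighbour ratios of a context at the row `i` and at the row `0` are at most `exp X`. -/
structure Nb (Γ : Cx) (η : Env) (i : ℕ) (X : ℝ) : Prop where
  X0 : 0 ≤ X
  G : ∀ y ∈ Icc (0 : ℤ) Γ.hi, |Real.log (GG (wt η) Γ.p Γ.N i (y - 1)) - Real.log (GG (wt η) Γ.p Γ.N i y)| ≤ X
  f : ∀ y ∈ Icc (1 : ℤ) Γ.hi, |Real.log (fC Γ η i (y - 1)) - Real.log (fC Γ η i y)| ≤ X
  z : ∀ y ∈ Icc (1 : ℤ) Γ.k, |Real.log (bw (wt η) Γ.p 0 Γ.N (y - 1)) - Real.log (bw (wt η) Γ.p 0 Γ.N y)| ≤ X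

/-- The level of the contact is near the balance point. -/
theorem lvl_B (hG : Msk Γ) (η : Env) {i : ℕ} (hi : i < Γ.N) {x : ℤ} {X : ℝ} (hX : Nb Γ η i X) :
    |lvl 0 Γ.hi (Γ.p i) (wt η i) (fw (wt η) Γ.p l i) (fw (wt η) Γ.p Γ.r i) (fC Γ η i) x - Γ.B η| ≤ 3 * X := by
  have hl0 := fw_nonneg (w := wt η) (p := Γ.p) (wt_pos η) p_pos l_nonneg i
  have hr0 := fw_nonneg (w := wt η) (p := Γ.p) (wt_pos η) p_pos (r_nonneg hG) i
  have hf : ∀ y, 0 < fC Γ η i y := fun y => bw_pos (wt_pos η) p_pos _ _ _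
  have hhi : (0 : ℤ) ≤ Γ.hi := by unfold Cx.hi; positivity
  have el : ∃ y ∈ Icc (0 : ℤ) Γ.hi, 0 < fw (wt η) Γ.p l i y := by
    refine ⟨0, mem_Icc.2 ⟨le_rfl, hhi⟩, fw_stay (wt_pos η) p_pos l_nonneg ?_ i⟩
    unfold l
    rw [if_pos rfl]
    exact one_pos
  have er : ∃ y ∈ Icc (0 : ℤ) Γ.hi, 0 < fw (wt η) Γ.p Γ.r i y := by
    obtain ⟨y, hy⟩ := r_pos hG
    have h1 : 1 ≤ y ∧ y ≤ Γ.k := by
      by_contra hc
      rw [r_out hc] at hy
      exact lt_irrefl _ hy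
    refine ⟨y, mem_Icc.2 ⟨by omega, by unfold Cx.hi; omega⟩, fw_stay (wt_pos η) p_pos (r_nonneg hG) hy i⟩
  have hXG : ∀ y ∈ Icc (0 : ℤ) Γ.hi, |Real.log (fC Γ η i (y - 1) + Γ.p i * fC Γ η i y) -
      Real.log (fC Γ η i y + Γ.p i * fC Γ η i (y + 1))| ≤ X := by
    intro y hy
    have := hX.G y hy
    rw [GG_fC, GG_fC, sub_add_cancel] at this
    exact this
  have k1 := log_rz_tm (q := x) (p_pos (Γ := Γ) i) (wt_pos η i) hf hl0 el hX.X0 hXG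
  have k2 := log_rz_tm (q := x) (p_pos (Γ := Γ) i) (wt_pos η i) hf hr0 er hX.X0 hXG
  have t1 : tm 0 Γ.hi (Γ.p i) (wt η i) (fw (wt η) Γ.p l i) (fC Γ η i) = Γ.ZM η := by
    have h := tm_l (w := wt η) (p := Γ.p) (boxC1 hG) l0_pos hi
    rw [sum_l] at h
    exact h
  have t2 : tm 0 Γ.hi (Γ.p i) (wt η i) (fw (wt η) Γ.p Γ.r i) (fC Γ η i) = Γ.ZR η :=
    tm_r (w := wt η) (p := Γ.p) (boxC1 hG) (r_pos hG) hi
  rw [t1] at k1
  rw [t2] at k2
  have k3 := log_Z0_ZR hG η hX.z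
  have z1 : 0 < rz 0 Γ.hi (Γ.p i) (wt η i) (fw (wt η) Γ.p l i) (fC Γ η i) x := rz_pos (p_pos i) (wt_pos η i) hf hl0 el x
  have z2 : 0 < rz 0 Γ.hi (Γ.p i) (wt η i) (fw (wt η) Γ.p Γ.r i) (fC Γ η i) x := rz_pos (p_pos i) (wt_pos η i) hf hr0 er x
  unfold lvl Cx.B
  rw [Real.log_div z2.ne' z1.ne']
  rw [abs_le] at k1 k2 k3 ⊢
  constructor <;> linarith [k1.1, k1.2, k2.1, k2.2, k3.1, k3.2]

/-- The weight in the frame is at most the weight of a step. -/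
theorem ws_le (hG : Msk Γ) (η : Env) {i : ℕ} (hi : i < Γ.N) {x : ℤ} (hx : x ∈ Icc (1 : ℤ) (1 + Γ.N)) :
    0 ≤ Γ.ws (i, x) η ∧ Γ.ws (i, x) η ≤ Γ.p i := by
  have h := cutdC hG η hi hx le_rfl le_rfl
  rw [ws_eq]
  refine ⟨cw_nonneg h, ?_⟩
  unfold cw
  rw [div_le_iff₀ (mul_pos h.zl h.zr)]
  have hp := h.p0
  have w1 := h.w0 (x - 1)
  have w2 := h.w0 x
  have f1 := h.f0 (x - 1)
  have f2 := h.f0 x
  have l1 := h.l0 (x - 1)
  have l2 := h.l0 x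
  have r1 := h.r0 (x - 1)
  have r2 := h.r0 x
  have sl := K97.rz_left (m := fw (wt η) Γ.p l i) hp h.w0 h.f0 h.l0 h.q1
  have sr := K97.rz_right (m := fw (wt η) Γ.p Γ.r i) hp h.w0 h.f0 h.r0 h.q2
  set A := fw (wt η) Γ.p l i with hA
  set B := fw (wt η) Γ.p Γ.r i with hB
  have G0 : 0 < fC Γ η i (x - 1) + Γ.p i * fC Γ η i x := by positivity
  set G := fC Γ η i (x - 1) + Γ.p i * fC Γ η i x with hGdef
  have k1 : 0 ≤ A (x - 1) * wt η i (x - 1) * G := by positivity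
  have k2 : 0 ≤ B x * wt η i x * G := by positivity
  have k3 := mul_le_mul sl sr k2 h.zl.le
  have k4 : L91.dw (Γ.p i) (wt η i) A B (fC Γ η i) x ≤ Γ.p i * ((A (x - 1) * wt η i (x - 1) * G) * (B x * wt η i x * G)) := by
    unfold L91.dw
    rw [← hGdef]
    have k5 : 0 ≤ (A x * B (x - 1)) * (Γ.p i * (wt η i (x - 1) * wt η i x)) * G ^ 2 := by positivity
    have e : Γ.p i * ((A (x - 1) * wt η i (x - 1) * G) * (B x * wt η i x * G)) -
        (A (x - 1) * B x - A x * B (x - 1)) * (Γ.p i * (wt η i (x - 1) * wt η i x)) * G ^ 2 =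
        (A x * B (x - 1)) * (Γ.p i * (wt η i (x - 1) * wt η i x)) * G ^ 2 := by ring
    linarith
  exact k4.trans (mul_le_mul_of_nonneg_left k3 hp.le)

/-- The constant of a contact. -/
def KC (Γ : Cx) (i : ℕ) (u X : ℝ) : ℝ := Kl (Γ.p i) (Real.exp u) (Real.exp X)

/-- **Size of a contact.** -/
theorem abs_C_le (hG : Msk Γ) (η : Env) {i : ℕ} (hi : i < Γ.N) {x : ℤ} (hx : x ∈ Icc (1 : ℤ) (1 + Γ.N)) {u X : ℝ}
    (hu : |Real.log (wt η i (x - 1)) - Real.log (wt η i x)| ≤ u) (hf : |Real.log (fC Γ η i (x - 1)) - Real.log (fC Γ η i x)| ≤ X) :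
    |Γ.C (i, x) η| ≤ KC Γ i u X * Γ.ws (i, x) η := by
  rw [C_eq hG η hi hx, ws_eq]
  exact abs_Cc (cutdC hG η hi hx hu hf)

/-- **The contact sits at the balance point.** -/
theorem loc_C (hG : Msk Γ) (η : Env) {i : ℕ} (hi : i < Γ.N) {x : ℤ} (hx : x ∈ Icc (1 : ℤ) (1 + Γ.N)) {u X : ℝ}
    (hu : |Real.log (wt η i (x - 1)) - Real.log (wt η i x)| ≤ u) (hX : Nb Γ η i X) {g : ℝ → ℝ} (hg : Measurable g) {L : ℝ}
    (hL0 : 0 ≤ L) (hL : ∀ a b, |g a - g b| ≤ L * |a - b|) :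
    Integrable (fun a => g a * Γ.ct η (i, x) a) ∧
    |(∫ a, g a * Γ.ct η (i, x) a) - g (Γ.B η) * Γ.C (i, x) η| ≤ L * ((2 + 3 * X) * KC Γ i u X * Γ.ws (i, x) η) := by
  have hk' : (1 : ℤ) ≤ Γ.k := by exact_mod_cast hG.k1
  have hxx := mem_Icc.1 hx
  have hf := hX.f x (mem_Icc.2 ⟨hxx.1, by unfold Cx.hi; omega⟩)
  have hc := cutdC hG η hi hx hu hf
  have hKw := abs_C_le hG η hi hx hu hf
  have e1 : (fun a => g a * Γ.ct η (i, x) a) = fun a => g a * cta 0 Γ.hi (Γ.p i) (wt η i) (fw (wt η) Γ.p l i)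
      (fw (wt η) Γ.p Γ.r i) (fC Γ η i) x a := funext fun a => by rw [ct_cta hG η hi hx a]
  refine ⟨by rw [e1]; exact int_g_cta hc hg (fun a => hL _ _), ?_⟩
  have k1 := loc_cta hc hg hL0 (fun a => hL _ _)
  rw [← ws_eq, ← C_eq hG η hi hx] at k1
  rw [e1]
  have k2 := lvl_B hG η (x := x) hi hX
  have k3 := hL (lvl 0 Γ.hi (Γ.p i) (wt η i) (fw (wt η) Γ.p l i) (fw (wt η) Γ.p Γ.r i) (fC Γ η i) x) (Γ.B η)
  set v := lvl 0 Γ.hi (Γ.p i) (wt η i) (fw (wt η) Γ.p l i) (fw (wt η) Γ.p Γ.r i) (fC Γ η i) x with hv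
  set I := ∫ a, g a * cta 0 Γ.hi (Γ.p i) (wt η i) (fw (wt η) Γ.p l i) (fw (wt η) Γ.p Γ.r i) (fC Γ η i) x a with hI
  have e2 : I - g (Γ.B η) * Γ.C (i, x) η = (I - g v * Γ.C (i, x) η) + (g v - g (Γ.B η)) * Γ.C (i, x) η := by ring
  rw [e2]
  refine (abs_add_le _ _).trans ?_
  rw [abs_mul]
  have k4 : |g v - g (Γ.B η)| * |Γ.C (i, x) η| ≤ (L * (3 * X)) * (KC Γ i u X * Γ.ws (i, x) η) := by
    refine mul_le_mul (k3.trans (mul_le_mul_of_nonneg_left k2 hL0)) hKw (abs_nonneg _) ?_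
    have := hX.X0
    positivity
  have k5 : 2 * L * (Kl (Γ.p i) (Real.exp u) (Real.exp X) * Γ.ws (i, x) η) = 2 * L * (KC Γ i u X * Γ.ws (i, x) η) := rfl
  rw [k5] at k1
  linarith

end

end Pool.Agent.W_7d29a1_C1.L91
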