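import Pool.Agent.W_7d29a1_C1.Near83
import Pool.Agent.W_7d29a1_C1.LocD91

/-!
Both halves (MP_7d29a1_pr), attractor route: NEAR, the contacts of the first rows against a bounded weight of the level (helper83).
-/

set_option autoImplicit false

namespace Pool.Agent.W_7d29a1_C1.H83

open Finset MeasureTheory ProbabilityTheory Filter Topology
open Pool.Agent.W_7d29a1_F
open Pool.Agent.W_7d29a1_h4g Pool.Agent.W_7d29a1_H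
open Pool.Agent.W_7d29a1_HS (In wd)
open Pool.Agent.W_7d29a1_C1.K91 (Box Grp cut zs jn wt wt_pos measurable_wt sum_shift)
open Pool.Agent.W_7d29a1_C1.K91P Pool.Agent.W_7d29a1_C1.H60
open Pool.Agent.W_7d29a1_C1.L91 (Msk cutdC ct_cta fC)

noncomputable section

variable {Γ : Cx} {μ : Measure ℝ} [IsProbabilityMeasure μ] {s : ℝ}

/-- The level density of a contact is integrable. -/
theorem int_ct (hG : Msk Γ) (η : Env) {i : ℕ} (hi : i < Γ.N) {x : ℤ} (hx : x ∈ Icc (1 : ℤ) (1 + Γ.N)) :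
    Integrable (fun a => Γ.ct η (i, x) a) := by
  have hc := cutdC hG η hi hx le_rfl le_rfl
  exact (L91.int_cta hc).congr (ae_of_all _ fun a => (ct_cta hG η hi hx a).symm)

/-- A bounded weight of the level. -/
theorem abs_g_ct (hG : Msk Γ) (η : Env) {i : ℕ} (hi : i < Γ.N) {x : ℤ} (hx : x ∈ Icc (1 : ℤ) (1 + Γ.N)) {g : ℝ → ℝ}
    {G : ℝ} (hb : ∀ a, |g a| ≤ G) : |∫ a, g a * Γ.ct η (i, x) a| ≤ G * ∫ a, |Γ.ct η (i, x) a| := by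
  have h0 := (int_ct hG η hi hx).abs
  refine abs_integral_le_integral_abs.trans ?_
  rw [← integral_const_mul]
  refine integral_mono_of_nonneg (ae_of_all _ fun a => abs_nonneg _) (h0.const_mul G) (ae_of_all _ fun a => ?_)
  show |g a * Γ.ct η (i, x) a| ≤ G * |Γ.ct η (i, x) a|
  rw [abs_mul]
  exact mul_le_mul_of_nonneg_right (hb a) (abs_nonneg _)

/-- **The contacts of the first rows.** `A c = ∫ |ct| ≤ Kb ws + R`. -/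
theorem near_ct (hG : Msk Γ) {d : ℕ} (hd : d ≤ Γ.N) {P Kb G : ℝ} (hP : ∀ i, i < d → Γ.p i ≤ P) (hKb : 0 ≤ Kb)
    {g : ℝ → ℝ} (hb : ∀ a, |g a| ≤ G) {R : ℕ × ℤ → Env → ℝ} (hR : ∀ c ∈ Γ.rows 0 d, Integrable (R c) (law μ))
    (hA : ∀ c ∈ Γ.rows 0 d, ∀ η, (∫ a, |Γ.ct η c a|) ≤ Kb * Γ.ws c η + R c η) :
    ∑ c ∈ Γ.rows 0 d, ∫ η, |∫ a, g a * Γ.ct η c a| ∂(law μ) ≤
      G * (Kb * (P * (d : ℝ) ^ 2 * Γ.near μ d) + ∑ c ∈ Γ.rows 0 d, ∫ η, R c η ∂(law μ)) := by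
  have hG0 : 0 ≤ G := (abs_nonneg _).trans (hb 0)
  have hm : ∀ c ∈ Γ.rows 0 d, c.1 < Γ.N ∧ c.2 ∈ Icc (1 : ℤ) (1 + Γ.N) := by
    intro c hc
    unfold Cx.rows at hc
    rw [mem_product, mem_Ico] at hc
    exact ⟨by omega, hc.2⟩
  have hi : ∀ c ∈ Γ.rows 0 d, Integrable (fun η => Kb * Γ.ws c η + R c η) (law μ) := by
    intro c hc
    obtain ⟨h1, h2⟩ := hm c hc
    rw [mem_Icc] at h2
    exact ((ws_int hG.k1 hG.q0 hG.q1 h1 h2.1 h2.2).const_mul Kb).add (hR c hc)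
  have h1 : ∀ c ∈ Γ.rows 0 d, ∫ η, |∫ a, g a * Γ.ct η c a| ∂(law μ) ≤
      G * (Kb * ∫ η, Γ.ws c η ∂(law μ) + ∫ η, R c η ∂(law μ)) := by
    intro c hc
    obtain ⟨h1, h2⟩ := hm c hc
    have h2' := mem_Icc.1 h2
    have hws := ws_int (μ := μ) hG.k1 hG.q0 hG.q1 h1 h2'.1 h2'.2
    calc ∫ η, |∫ a, g a * Γ.ct η c a| ∂(law μ) ≤ ∫ η, G * (Kb * Γ.ws c η + R c η) ∂(law μ) := by
          refine integral_mono_of_nonneg (ae_of_all _ fun η => abs_nonneg _) ((hi c hc).const_mul G) (ae_of_all _ fun η => ?_)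
          exact (abs_g_ct hG η h1 h2 hb).trans (mul_le_mul_of_nonneg_left (hA c hc η) hG0)
      _ = _ := by
          rw [integral_const_mul, integral_add (hws.const_mul Kb) (hR c hc), integral_const_mul]
  refine (sum_le_sum h1).trans ?_
  rw [← mul_sum, sum_add_distrib, ← mul_sum]
  refine mul_le_mul_of_nonneg_left ?_ hG0
  exact add_le_add (mul_le_mul_of_nonneg_left (sum_ws hG.k1 hG.q0 hG.q1 hd hP) hKb) le_rfl

/-! ### The contexts at the scale `n` -/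

omit [IsProbabilityMeasure μ] in
/-- The force of a context is at most `1`, so the step weights are bounded. -/
theorem adm_p (hE : Tendsto (EE μ s) atTop atTop) {c δ κ : ℝ} (hδ : 0 ≤ δ) : ∀ᶠ n : ℕ in atTop, ∀ Γ : Cx, Adm μ s c δ κ n Γ →
    ∀ i, Γ.p i ≤ Real.exp (|s| + 1) := by
  filter_upwards [hE.eventually_ge_atTop 1, eventually_ge_atTop 1] with n hn hn1 Γ hA i
  obtain ⟨N, L, _, _, _, _, _, _, h1, _⟩ := hA.hor
  have h2 : (n : ℝ) ^ (-(2 * δ)) ≤ 1 := Real.rpow_le_one_of_one_le_of_nonpos (by exact_mod_cast hn1) (by linarith)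
  have h3 : |Γ.h| ≤ 1 := by
    have h4 := mul_le_mul_of_nonneg_left hn (abs_nonneg Γ.h)
    linarith
  have h5 := le_abs_self s
  have h6 := le_abs_self Γ.h
  unfold Cx.p
  rw [hA.hs]
  split_ifs
  · exact Real.exp_le_exp.2 (by linarith)
  · exact Real.exp_le_exp.2 (by linarith)

omit [IsProbabilityMeasure μ] in
theorem adm_N {c δ κ : ℝ} {n : ℕ} {Γ : Cx} (hA : Adm μ s c δ κ n Γ) : n ≤ Γ.N := by
  obtain ⟨N, L, h1, _, h2, _, _, h3, _, _⟩ := hA.hor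
  have h4 : N ≤ N ^ 3 := Nat.le_self_pow (by norm_num) N
  omega

omit [IsProbabilityMeasure μ] in
theorem adm_msk {c δ κ : ℝ} {n : ℕ} {Γ : Cx} (hA : Adm μ s c δ κ n Γ) : Msk Γ := ⟨hA.k1, hA.q0, hA.q1⟩

/-- The constant. -/
theorem ev_const {e ε : ℝ} (he : 0 < e) (hε : 0 < ε) (K : ℝ) : ∀ᶠ n : ℕ in atTop,
    (n : ℝ) ^ ε * (K * ((⌈(n : ℝ) ^ e⌉₊ : ℕ) : ℝ) ^ 2) ≤ (n : ℝ) ^ (2 * e + 2 * ε) := by
  have h1 : Tendsto (fun n : ℕ => (n : ℝ) ^ ε) atTop atTop := (tendsto_rpow_atTop hε).comp tendsto_natCast_atTop_atTop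
  filter_upwards [h1.eventually_ge_atTop (4 * |K|), eventually_ge_atTop 1] with n hn hn1
  have n0 : (0 : ℝ) < n := by exact_mod_cast hn1
  have n1 : (1 : ℝ) ≤ (n : ℝ) ^ e := Real.one_le_rpow (by exact_mod_cast hn1) he.le
  have h2 : ((⌈(n : ℝ) ^ e⌉₊ : ℕ) : ℝ) ≤ 2 * (n : ℝ) ^ e := by
    have := (Nat.ceil_lt_add_one (show 0 ≤ (n : ℝ) ^ e by linarith)).le
    linarith
  have h3 : ((⌈(n : ℝ) ^ e⌉₊ : ℕ) : ℝ) ^ 2 ≤ 4 * (n : ℝ) ^ (2 * e) := by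
    have e1 : (n : ℝ) ^ (2 * e) = ((n : ℝ) ^ e) ^ 2 := by
      rw [← Real.rpow_natCast ((n : ℝ) ^ e) 2, ← Real.rpow_mul n0.le]
      congr 1
      push_cast
      ring
    rw [e1]
    have h5 := pow_le_pow_left₀ (Nat.cast_nonneg _) h2 2
    linarith
  have p1 : (0 : ℝ) ≤ (n : ℝ) ^ ε := Real.rpow_nonneg n0.le _
  have p2 : (0 : ℝ) ≤ (n : ℝ) ^ (2 * e) := Real.rpow_nonneg n0.le _
  have e2 : (n : ℝ) ^ (2 * e + 2 * ε) = (n : ℝ) ^ ε * ((n : ℝ) ^ ε * (n : ℝ) ^ (2 * e)) := by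
    rw [← Real.rpow_add n0, ← Real.rpow_add n0]
    congr 1
    ring
  rw [e2]
  refine mul_le_mul_of_nonneg_left ?_ p1
  have k1 : K * ((⌈(n : ℝ) ^ e⌉₊ : ℕ) : ℝ) ^ 2 ≤ |K| * (4 * (n : ℝ) ^ (2 * e)) :=
    mul_le_mul (le_abs_self K) h3 (by positivity) (abs_nonneg K)
  have k2 := mul_le_mul_of_nonneg_right hn p2
  linarith

/-- **NEAR.** The contacts in the rows `< ⌈n ^ e⌉` of an admissible context, with any bounded weight `g` of the level and the wild part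
`R` (`∫ |ct| ≤ n ^ ε ws + R`): `sup |g|` times `n ^ (2 e + 2 ε) near` plus the wild part; and the natural weights. -/
theorem near83 (hE : Tendsto (EE μ s) atTop atTop) {e ε c δ κ : ℝ} (he : 0 < e) (he1 : e ≤ 1) (hε : 0 < ε) (hδ : 0 ≤ δ) :
    ∀ᶠ n : ℕ in atTop, ∀ Γ : Cx, Adm μ s c δ κ n Γ → ⌈(n : ℝ) ^ e⌉₊ ≤ n ∧
      (∑ c ∈ Γ.rows 0 ⌈(n : ℝ) ^ e⌉₊, ∫ η, Γ.ws c η ∂(law μ) ≤ (n : ℝ) ^ (2 * e + 2 * ε) * Γ.near μ ⌈(n : ℝ) ^ e⌉₊) ∧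
      (∑ c ∈ Γ.rows 0 ⌈(n : ℝ) ^ e⌉₊, ∫ η, Γ.w c η ∂(law μ) ≤ Γ.near μ ⌈(n : ℝ) ^ e⌉₊) ∧
      ∀ (g : ℝ → ℝ) (G : ℝ), (∀ a, |g a| ≤ G) → ∀ R : ℕ × ℤ → Env → ℝ,
        (∀ c ∈ Γ.rows 0 ⌈(n : ℝ) ^ e⌉₊, Integrable (R c) (law μ)) →
        (∀ c ∈ Γ.rows 0 ⌈(n : ℝ) ^ e⌉₊, ∀ η, (∫ a, |Γ.ct η c a|) ≤ (n : ℝ) ^ ε * Γ.ws c η + R c η) →
        ∑ c ∈ Γ.rows 0 ⌈(n : ℝ) ^ e⌉₊, ∫ η, |∫ a, g a * Γ.ct η c a| ∂(law μ) ≤
          G * ((n : ℝ) ^ (2 * e + 2 * ε) * Γ.near μ ⌈(n : ℝ) ^ e⌉₊ + ∑ c ∈ Γ.rows 0 ⌈(n : ℝ) ^ e⌉₊, ∫ η, R c η ∂(law μ)) := by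
  filter_upwards [adm_p (c := c) (κ := κ) hE hδ, ev_const he hε (Real.exp (|s| + 1)), eventually_ge_atTop 1] with n hp hc hn1 Γ hA
  have hm := adm_msk hA
  have hN := adm_N hA
  have n0 : (0 : ℝ) < n := by exact_mod_cast hn1
  have hd : ⌈(n : ℝ) ^ e⌉₊ ≤ n := by
    refine Nat.ceil_le.2 ?_
    calc (n : ℝ) ^ e ≤ (n : ℝ) ^ (1 : ℝ) := Real.rpow_le_rpow_of_exponent_le (by exact_mod_cast hn1) he1
      _ = n := Real.rpow_one _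
  have hnear := near_nonneg (μ := μ) hm.k1 hm.q0 hm.q1 ⌈(n : ℝ) ^ e⌉₊
  have h1 : (1 : ℝ) ≤ (n : ℝ) ^ ε := Real.one_le_rpow (by exact_mod_cast hn1) hε.le
  have key : (n : ℝ) ^ ε * (Real.exp (|s| + 1) * ((⌈(n : ℝ) ^ e⌉₊ : ℕ) : ℝ) ^ 2 * Γ.near μ ⌈(n : ℝ) ^ e⌉₊) ≤
      (n : ℝ) ^ (2 * e + 2 * ε) * Γ.near μ ⌈(n : ℝ) ^ e⌉₊ := by
    have := mul_le_mul_of_nonneg_right hc hnear
    linarith
  refine ⟨hd, ?_, int_sum_w hm.k1 hm.q0 hm.q1 (hd.trans hN), ?_⟩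
  · refine (sum_ws hm.k1 hm.q0 hm.q1 (hd.trans hN) fun i _ => hp Γ hA i).trans ?_
    refine le_trans ?_ key
    exact le_mul_of_one_le_left (by positivity) h1
  · intro g G hb R hR hRA
    have hG0 : 0 ≤ G := (abs_nonneg _).trans (hb 0)
    refine (near_ct hm (hd.trans hN) (fun i _ => hp Γ hA i) (by positivity) hb hR hRA).trans ?_
    exact mul_le_mul_of_nonneg_left (add_le_add key le_rfl) hG0

end

end Pool.Agent.W_7d29a1_C1.H83
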