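import Pool.Agent.W_7d29a1_C1.Phi68
import Pool.Agent.W_7d29a1_C1.Alive99
import Pool.Agent.W_7d29a1_C1.NearL83
import Pool.Agent.W_7d29a1_C1.AsmD8

/-!
Both halves (MP_7d29a1_pr), attractor route: THE NUMERIC STEP OF THE ASSEMBLY WITH THE TOTAL CONTACT FUNCTIONAL (helper68).

`LecP68` = the result of the exchange (`lec60` with relative error, `N2_phi`), `SqP68` = the second moment of the bound of the total
contact functional. `phiP68`: the total functional is `v` times the mean of the function of the balance point (`PhiA8` of helper8).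
-/

set_option autoImplicit false

namespace Pool.Agent.W_7d29a1_C1.H60

open MeasureTheory Filter Topology Finset
open Pool.Agent.W_7d29a1_F Pool.Agent.W_7d29a1_H Pool.Agent.W_7d29a1_HS
open Pool.Agent.W_7d29a1_h47 (EM)
open Pool.Agent.W_7d29a1_C1.K91 (wt wt_pos)
open Pool.Agent.W_7d29a1_C1.K91P
open Pool.Agent.W_7d29a1_C1.H8 (tri wgt_tri tri_le PhiA8 XsP8)
open Pool.Agent.W_7d29a1_C1.K99 (wd_half99 alive99)

noncomputable section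

/-! ### The statements -/

/-- **THE RESULT OF THE EXCHANGE**: the contacts of a context against the contacts of the reference context, contact functional
`w * clp H Phi`. The rows `d ≤ i < k Γ` of the contacts can be chosen. -/
def LecP68 (μ : Measure ℝ) (s : ℝ) : Prop :=
  ∀ e : ℝ, 0 < e → e ≤ 1 / 32 → ∃ c₀ : ℝ, 0 < c₀ ∧ ∀ c : ℝ, 0 < c → c ≤ c₀ → ∀ δ : ℝ, 0 < δ → δ ≤ c / 16 → ∃ κ₀ : ℝ, 0 < κ₀ ∧
    ∀ κ : ℝ, 0 < κ → κ ≤ κ₀ → ∀ᶠ n : ℕ in atTop, ∃ (H : ℝ) (d : ℕ) (k : Cx → ℕ), (n : ℝ) ≤ H ∧ d ≤ ⌈(n : ℝ) ^ e⌉₊ ∧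
      (∀ Γ : Cx, Adm μ s c δ κ n Γ → d ≤ k Γ ∧ k Γ ≤ Γ.N ∧ Γ.M + Γ.N ≤ 2 * k Γ) ∧ ∀ Γ : Cx, Adm μ s c δ κ n Γ →
      ∀ (g : ℝ → ℝ) (G L : ℝ), Measurable g → (∀ x, 0 ≤ g x) → (∀ x, g x ≤ G) → (∀ x y, |g x - g y| ≤ L * |x - y|) →
      ∀ K : ℝ, 0 < K → K ≤ n →
        |(∑ b ∈ Γ.rows d (k Γ), ∫ η, g (Γ.B η) * (Γ.w b η * clp H (Γ.Phi 0 Γ.N η)) ∂(law μ)) *
            (∑ b' ∈ (ref μ s n).rows d (k (ref μ s n)), ∫ η, (ref μ s n).w b' η ∂(law μ)) -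
          (∑ b ∈ Γ.rows d (k Γ), ∫ η, g (Γ.B η) * Γ.w b η ∂(law μ)) *
            (∑ b' ∈ (ref μ s n).rows d (k (ref μ s n)),
              ∫ η, (ref μ s n).w b' η * clp H ((ref μ s n).Phi 0 (ref μ s n).N η) ∂(law μ))| ≤
        (L * EE μ s n + G) * (n : ℝ) ^ (-c₀) *
            (2 + ∫ η, Γ.SS 0 Γ.N η ∂(law μ) + ∫ η, (ref μ s n).SS 0 (ref μ s n).N η ∂(law μ)) +
          G * ((2 + 2 * K) * (n : ℝ) ^ (-c₀) +
            (∫ η, Γ.SS 0 Γ.N η ^ 2 ∂(law μ) + ∫ η, (ref μ s n).SS 0 (ref μ s n).N η ^ 2 ∂(law μ)) / K)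

/-- **THE SECOND MOMENT** of the bound of the total contact functional. -/
def SqP68 (μ : Measure ℝ) (s : ℝ) : Prop :=
  ∀ ε : ℝ, 0 < ε → ∃ c₀ : ℝ, 0 < c₀ ∧ ∀ c : ℝ, 0 < c → c ≤ c₀ → ∀ δ : ℝ, 0 < δ → δ ≤ c / 16 → ∃ κ₀ : ℝ, 0 < κ₀ ∧
    ∀ κ : ℝ, 0 < κ → κ ≤ κ₀ → ∀ᶠ n : ℕ in atTop, ∀ Γ : Cx, Adm μ s c δ κ n Γ → ∫ η, Γ.SS 0 Γ.N η ^ 2 ∂(law μ) ≤ (n : ℝ) ^ ε

/-- **(Y)**: the second moment of the sum of the weights in the frames. -/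
def YsqP68 (μ : Measure ℝ) (s : ℝ) : Prop :=
  ∀ ε : ℝ, 0 < ε → ∃ c₀ : ℝ, 0 < c₀ ∧ ∀ c : ℝ, 0 < c → c ≤ c₀ → ∀ δ : ℝ, 0 < δ → δ ≤ c / 16 → ∃ κ₀ : ℝ, 0 < κ₀ ∧
    ∀ κ : ℝ, 0 < κ → κ ≤ κ₀ → ∀ᶠ n : ℕ in atTop, ∀ Γ : Cx, Adm μ s c δ κ n Γ → ∫ η, Γ.YY 0 Γ.N η ^ 2 ∂(law μ) ≤ (n : ℝ) ^ ε

/-- **The wild part**: `KW ≤ n ^ ε ws + R` for every environment. -/
def KwP68 (μ : Measure ℝ) (s : ℝ) : Prop :=
  ∀ ε : ℝ, 0 < ε → ∃ c₀ : ℝ, 0 < c₀ ∧ ∀ c : ℝ, 0 < c → c ≤ c₀ → ∀ δ : ℝ, 0 < δ → δ ≤ c / 16 → ∃ κ₀ : ℝ, 0 < κ₀ ∧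
    ∀ κ : ℝ, 0 < κ → κ ≤ κ₀ → ∀ᶠ n : ℕ in atTop, ∀ Γ : Cx, Adm μ s c δ κ n Γ → ∃ R : ℕ × ℤ → Env → ℝ,
      (∀ b ∈ Γ.rows 0 Γ.N, ∀ η, Γ.KW b η ≤ (n : ℝ) ^ ε * Γ.ws b η + R b η) ∧
      (∀ b ∈ Γ.rows 0 Γ.N, Integrable (fun η => R b η ^ 2) (law μ)) ∧
      ∑ b ∈ Γ.rows 0 Γ.N, ∫ η, R b η ^ 2 ∂(law μ) ≤ (n : ℝ) ^ (-(16 : ℝ))

variable {μ : Measure ℝ} [IsProbabilityMeasure μ] {s : ℝ}

/-! ### The reference context -/

omit [IsProbabilityMeasure μ] in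
/-- The reference context is one of the contexts. -/
theorem ref_adm {c δ κ : ℝ} {n : ℕ} (hn : 1 ≤ n) (hc : 0 ≤ c) (hw : 1 ≤ wd μ s n) (h2 : (2 : ℝ) ≤ (n : ℝ) ^ δ) :
    Adm μ s c δ κ n (ref μ s n) := by
  have hok := ref_ok (μ := μ) (s := s) (n := n) (by linarith)
  have hnR : (1 : ℝ) ≤ n := by exact_mod_cast hn
  have hn0 : (0 : ℝ) < n := by linarith
  refine ⟨rfl, hok.k1, ?_, hok.q0, hok.q1, n, n ^ 3, le_rfl, ?_, le_rfl, by omega, Nat.zero_le n, ?_, ?_, ?_⟩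
  · have h1 : ((⌈wd μ s n⌉₊ : ℕ) : ℝ) ≤ wd μ s n + 1 := (Nat.ceil_lt_add_one (by linarith)).le
    have h3 : 2 * wd μ s n ≤ (n : ℝ) ^ δ * wd μ s n := mul_le_mul_of_nonneg_right h2 (by linarith)
    show ((⌈wd μ s n⌉₊ : ℕ) : ℝ) ≤ (n : ℝ) ^ δ * wd μ s n
    linarith
  · calc (n : ℝ) = (n : ℝ) ^ (1 : ℝ) := (Real.rpow_one _).symm
      _ ≤ (n : ℝ) ^ (1 + c) := Real.rpow_le_rpow_of_exponent_le hnR (by linarith)
  · show n ^ 3 + 1 = 0 + n ^ 3 + 1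
    omega
  · show |(0 : ℝ)| * EE μ s n ≤ (n : ℝ) ^ (-(2 * δ))
    rw [abs_zero, zero_mul]
    positivity
  · show |(0 : ℝ)| * EE μ s n ≤ (n : ℝ) ^ κ
    rw [abs_zero, zero_mul]
    positivity

omit [IsProbabilityMeasure μ] in
/-- The reference context has no start near the left group. -/
theorem ref_near {n d : ℕ} (hd : d < ⌈wd μ s n⌉₊) : (ref μ s n).near μ d = 0 := by
  unfold Cx.near
  have e : ∀ η : Env, (∑ j ∈ Finset.range (min d (ref μ s n).k), (ref μ s n).q j * bw (wt η) (ref μ s n).p 0 (ref μ s n).N (j : ℤ)) /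
      (∑ j ∈ Finset.range (ref μ s n).k, (ref μ s n).q j * bw (wt η) (ref μ s n).p 0 (ref μ s n).N (j : ℤ)) = 0 := by
    intro η
    rw [sum_eq_zero, zero_div]
    intro j hj
    rw [mem_range] at hj
    have hq : (ref μ s n).q j = 0 := by
      show (if j + 1 = ⌈wd μ s n⌉₊ then (1 : ℝ) else 0) = 0
      exact if_neg (by omega)
    rw [hq, zero_mul]
  simp only [e, integral_zero]

/-! ### The numbers -/

/-- All errors. -/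
theorem numP68 {n E a c e nr nr' M M' X X' x x' err : ℝ} (hn : 1 ≤ n) (hE : 1 ≤ E) (ha : 0 < a) (ha1 : a ≤ 1 / 16) (hae : a ≤ e)
    (hc : 0 < c) (hca : c ≤ a / 32) (hbig : 112 ≤ n ^ (a / 8)) (hnr : 0 ≤ nr) (hM : M ≤ n ^ (a / 16))
    (hM' : M' ≤ n ^ (a / 16)) (hX : X ≤ 1 + M) (hX' : X' ≤ 1 + M') (hx : x ≤ nr + n ^ (-(1 / 16) : ℝ))
    (hx' : x' ≤ n ^ (-(1 / 16) : ℝ))
    (herr : err ≤ ((n ^ c / E) ^ 2 * E + n ^ c / E) * n ^ (-a) * (2 + X + X') +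
      n ^ c / E * ((2 + 2 * n ^ (a / 4)) * n ^ (-a) + (M + M') / n ^ (a / 4))) :
    err + n ^ c / E * (2 * n ^ (a / 4) * (x + x') + 3 * (M + M') / n ^ (a / 4)) ≤
      1 / 4 * (n ^ (-c) / E) + n ^ (2 * e + c) / E * nr := by
  have n0 : 0 < n := by linarith
  have E0 : 0 < E := by linarith
  have mono : ∀ u v : ℝ, u ≤ v → n ^ u ≤ n ^ v := fun u v h => Real.rpow_le_rpow_of_exponent_le hn h
  have add : ∀ u v : ℝ, n ^ u * n ^ v = n ^ (u + v) := fun u v => (Real.rpow_add n0 u v).symm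
  have pos : ∀ u : ℝ, 0 < n ^ u := fun u => Real.rpow_pos_of_pos n0 u
  have one : ∀ u : ℝ, 0 ≤ u → 1 ≤ n ^ u := fun u hu => Real.one_le_rpow hn hu
  have hε1 := one (a / 16) (by linarith)
  -- multiply by `E`
  have hGL : (n ^ c / E) ^ 2 * E + n ^ c / E ≤ 2 * n ^ (2 * c) / E := by
    have e1 : (n ^ c / E) ^ 2 * E = n ^ (2 * c) / E := by
      have : n ^ (2 * c) = n ^ c * n ^ c := by rw [add]; congr 1; ring
      rw [this]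
      field_simp
    have e2 : n ^ c / E ≤ n ^ (2 * c) / E := div_le_div_of_nonneg_right (mono _ _ (by linarith)) E0.le
    rw [e1]
    have : 2 * n ^ (2 * c) / E = n ^ (2 * c) / E + n ^ (2 * c) / E := by ring
    linarith
  have hXX : 2 + X + X' ≤ 6 * n ^ (a / 16) := by linarith
  have t1 : ((n ^ c / E) ^ 2 * E + n ^ c / E) * n ^ (-a) * (2 + X + X') ≤ 12 * (n ^ (-c - a / 8) / E) := by
    have h1 : ((n ^ c / E) ^ 2 * E + n ^ c / E) * n ^ (-a) * (2 + X + X') ≤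
        (2 * n ^ (2 * c) / E) * n ^ (-a) * (6 * n ^ (a / 16)) := by
      refine (mul_le_mul_of_nonneg_left hXX ?_).trans ?_
      · have := pos c
        have := pos (-a)
        positivity
      · refine mul_le_mul_of_nonneg_right (mul_le_mul_of_nonneg_right hGL (pos _).le) ?_
        have := pos (a / 16)
        positivity
    refine h1.trans ?_
    have e1 : (2 * n ^ (2 * c) / E) * n ^ (-a) * (6 * n ^ (a / 16)) = 12 * (n ^ (2 * c + -a + a / 16) / E) := by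
      rw [← add, ← add]
      ring
    rw [e1]
    refine mul_le_mul_of_nonneg_left (div_le_div_of_nonneg_right (mono _ _ ?_) E0.le) (by norm_num)
    linarith
  have t2 : n ^ c / E * ((2 + 2 * n ^ (a / 4)) * n ^ (-a)) ≤ 4 * (n ^ (-c - a / 8) / E) := by
    have h1 : 2 + 2 * n ^ (a / 4) ≤ 4 * n ^ (a / 4) := by
      have := one (a / 4) (by linarith)
      linarith
    have h2 : n ^ c / E * ((2 + 2 * n ^ (a / 4)) * n ^ (-a)) ≤ n ^ c / E * ((4 * n ^ (a / 4)) * n ^ (-a)) :=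
      mul_le_mul_of_nonneg_left (mul_le_mul_of_nonneg_right h1 (pos _).le) (div_nonneg (pos _).le E0.le)
    refine h2.trans ?_
    have e1 : n ^ c / E * ((4 * n ^ (a / 4)) * n ^ (-a)) = 4 * (n ^ (c + a / 4 + -a) / E) := by
      rw [← add, ← add]
      ring
    rw [e1]
    refine mul_le_mul_of_nonneg_left (div_le_div_of_nonneg_right (mono _ _ ?_) E0.le) (by norm_num)
    linarith
  have t3 : n ^ c / E * (4 * (M + M') / n ^ (a / 4)) ≤ 8 * (n ^ (-c - a / 8) / E) := by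
    have h1 : 4 * (M + M') / n ^ (a / 4) ≤ 8 * n ^ (a / 16) / n ^ (a / 4) :=
      div_le_div_of_nonneg_right (by linarith) (pos _).le
    have h2 := mul_le_mul_of_nonneg_left h1 (div_nonneg (pos c).le E0.le)
    refine h2.trans ?_
    have e1 : n ^ c / E * (8 * n ^ (a / 16) / n ^ (a / 4)) = 8 * (n ^ (c + a / 16 + -(a / 4)) / E) := by
      rw [← add, ← add, Real.rpow_neg n0.le (a / 4)]
      ring
    rw [e1]
    refine mul_le_mul_of_nonneg_left (div_le_div_of_nonneg_right (mono _ _ ?_) E0.le) (by norm_num)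
    linarith
  have t4 : n ^ c / E * (2 * n ^ (a / 4) * (x + x')) ≤ 4 * (n ^ (-c - a / 8) / E) + n ^ (2 * e + c) / E * nr := by
    have h1 : x + x' ≤ nr + 2 * n ^ (-(1 / 16) : ℝ) := by linarith
    have h2 : n ^ c / E * (2 * n ^ (a / 4) * (x + x')) ≤ n ^ c / E * (2 * n ^ (a / 4) * (nr + 2 * n ^ (-(1 / 16) : ℝ))) := by
      refine mul_le_mul_of_nonneg_left (mul_le_mul_of_nonneg_left h1 ?_) (div_nonneg (pos _).le E0.le)
      have := pos (a / 4)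
      positivity
    refine h2.trans ?_
    have e1 : n ^ c / E * (2 * n ^ (a / 4) * (nr + 2 * n ^ (-(1 / 16) : ℝ))) =
        4 * (n ^ (c + a / 4 + -(1 / 16)) / E) + 2 * n ^ (c + a / 4) / E * nr := by
      rw [← add, ← add]
      ring
    rw [e1]
    refine add_le_add ?_ ?_
    · refine mul_le_mul_of_nonneg_left (div_le_div_of_nonneg_right (mono _ _ ?_) E0.le) (by norm_num)
      linarith
    · refine mul_le_mul_of_nonneg_right (div_le_div_of_nonneg_right ?_ E0.le) hnr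
      have h3 : (2 : ℝ) ≤ n ^ (a / 8) := by linarith
      calc 2 * n ^ (c + a / 4) ≤ n ^ (a / 8) * n ^ (c + a / 4) := mul_le_mul_of_nonneg_right h3 (pos _).le
        _ = n ^ (a / 8 + (c + a / 4)) := add _ _
        _ ≤ n ^ (2 * e + c) := mono _ _ (by linarith)
  have t5 : 28 * (n ^ (-c - a / 8) / E) ≤ 1 / 4 * (n ^ (-c) / E) := by
    have e1 : n ^ (-c) = n ^ (-c - a / 8) * n ^ (a / 8) := by
      rw [add]
      congr 1
      ring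
    have h1 := pos (-c - a / 8)
    have h2 : 112 * n ^ (-c - a / 8) ≤ n ^ (-c) := by
      rw [e1]
      nlinarith
    have h3 := div_le_div_of_nonneg_right h2 E0.le
    have e2 : 28 * (n ^ (-c - a / 8) / E) = 1 / 4 * (112 * n ^ (-c - a / 8) / E) := by ring
    rw [e2]
    exact mul_le_mul_of_nonneg_left h3 (by norm_num)
  have e9 : n ^ c / E * ((2 + 2 * n ^ (a / 4)) * n ^ (-a) + (M + M') / n ^ (a / 4)) +
      n ^ c / E * (2 * n ^ (a / 4) * (x + x') + 3 * (M + M') / n ^ (a / 4)) =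
      n ^ c / E * ((2 + 2 * n ^ (a / 4)) * n ^ (-a)) + n ^ c / E * (4 * (M + M') / n ^ (a / 4)) +
        n ^ c / E * (2 * n ^ (a / 4) * (x + x')) := by ring
  linarith

/-! ### The assembly -/

/-- **THE NUMERIC STEP.** -/
theorem phiP68 {c₁ C : ℝ} {n₀ : ℕ} (h : In μ s c₁ C n₀)
    (hU : ∀ ε : ℝ, 0 < ε → ∃ n₁ : ℕ, ∀ n : ℕ, n₁ ≤ n → EE μ s n ^ 2 ≤ (n : ℝ) ^ ε * wd μ s n)
    (hL : LecP68 μ s) (hS : SqP68 μ s) : PhiA8 μ s := by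
  have hμ : EM μ := h.em
  intro e he he1
  obtain ⟨cL, hcL, hL⟩ := hL e he he1
  obtain ⟨a, had⟩ : ∃ a : ℝ, a = min cL (min (1 / 16) e) := ⟨_, rfl⟩
  have ha : 0 < a := by
    rw [had]
    exact lt_min hcL (lt_min (by norm_num) he)
  have haL : a ≤ cL := by rw [had]; exact min_le_left _ _
  have ha1 : a ≤ 1 / 16 := by rw [had]; exact (min_le_right _ _).trans (min_le_left _ _)
  have hae : a ≤ e := by rw [had]; exact (min_le_right _ _).trans (min_le_right _ _)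
  obtain ⟨cS, hcS, hS⟩ := hS (a / 16) (by linarith)
  refine ⟨min (a / 32) cS, lt_min (by linarith) hcS, fun c hc hcc δ hδ hδc => ?_⟩
  have hca : c ≤ a / 32 := hcc.trans (min_le_left _ _)
  have hcS' : c ≤ cS := hcc.trans (min_le_right _ _)
  obtain ⟨κ₁, hκ₁, hL⟩ := hL c hc (by linarith) δ hδ hδc
  obtain ⟨κ₂, hκ₂, hS⟩ := hS c hc hcS' δ hδ hδc
  refine ⟨min κ₁ κ₂, lt_min hκ₁ hκ₂, fun κ hκ hκκ => ?_⟩
  have ev1 : ∀ᶠ n : ℕ in atTop, (112 : ℝ) ≤ (n : ℝ) ^ (a / 8) :=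
    ((tendsto_rpow_atTop (by linarith : 0 < a / 8)).comp tendsto_natCast_atTop_atTop).eventually_ge_atTop _
  have ev2 : ∀ᶠ n : ℕ in atTop, (2 : ℝ) ≤ (n : ℝ) ^ δ :=
    ((tendsto_rpow_atTop hδ).comp tendsto_natCast_atTop_atTop).eventually_ge_atTop _
  have ev3 : ∀ᶠ n : ℕ in atTop, (4 : ℝ) ≤ (n : ℝ) ^ (1 / 4 : ℝ) :=
    ((tendsto_rpow_atTop (by norm_num : (0 : ℝ) < 1 / 4)).comp tendsto_natCast_atTop_atTop).eventually_ge_atTop _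
  filter_upwards [hL κ hκ (hκκ.trans (min_le_left _ _)), hS κ hκ (hκκ.trans (min_le_right _ _)), ev1, ev2, ev3,
    wd_half99 h hU (e := 1 / 24) (by norm_num), alive99 h hU,
    H83.near83 (c := c) (κ := κ) h.tE he (by linarith) (ε := 1) (by norm_num) hδ.le, eventually_ge_atTop 2]
    with n hL hS hbig h2 h4 hwd hal hnear hn2
  obtain ⟨H, d', k, hH, hdd, hk, hL⟩ := hL
  have hn1 : 1 ≤ n := by omega
  have hnR : (1 : ℝ) ≤ n := by exact_mod_cast hn1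
  have n0 : (0 : ℝ) < n := by linarith
  have hE1 : 1 ≤ EE μ s n := one_le_EE (μ := μ) (s := s) n
  have E0 : 0 < EE μ s n := by linarith
  have hw1 : 1 ≤ wd μ s n := le_trans (Real.one_le_rpow hnR (by norm_num)) hwd
  obtain ⟨d, hd⟩ : ∃ d : ℕ, d = ⌈(n : ℝ) ^ e⌉₊ := ⟨_, rfl⟩
  rw [← hd] at hdd hnear ⊢
  have hR := ref_adm (μ := μ) (s := s) (c := c) (κ := κ) hn1 hc.le hw1 h2
  obtain ⟨R, hRd⟩ : ∃ R : Cx, R = ref μ s n := ⟨_, rfl⟩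
  rw [← hRd] at hL hR
  -- the position of `d`
  have hdw : d < ⌈wd μ s n⌉₊ := by
    have h5 : (d : ℝ) ≤ (n : ℝ) ^ e + 1 := by
      rw [hd]
      exact (Nat.ceil_lt_add_one (by positivity)).le
    have h6 : (n : ℝ) ^ e ≤ (n : ℝ) ^ (1 / 32 : ℝ) := Real.rpow_le_rpow_of_exponent_le hnR he1
    have h7 : (n : ℝ) ^ (1 / 32 : ℝ) + 1 < (n : ℝ) ^ (1 / 2 - 1 / 24 : ℝ) := by
      have e1 : (n : ℝ) ^ (1 / 2 - 1 / 24 : ℝ) = (n : ℝ) ^ (1 / 4 : ℝ) * (n : ℝ) ^ (5 / 24 : ℝ) := by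
        rw [← Real.rpow_add n0]
        norm_num
      have e2 : (n : ℝ) ^ (1 / 32 : ℝ) ≤ (n : ℝ) ^ (5 / 24 : ℝ) := Real.rpow_le_rpow_of_exponent_le hnR (by norm_num)
      have e3 : (1 : ℝ) ≤ (n : ℝ) ^ (5 / 24 : ℝ) := Real.one_le_rpow hnR (by norm_num)
      rw [e1]
      nlinarith
    have h8 : (d : ℝ) < wd μ s n := by linarith
    exact Nat.lt_ceil.2 h8
  have hnearR : R.near μ d = 0 := by rw [hRd]; exact ref_near hdw
  -- the masses which do not meet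
  have hdnm : ∀ Γ : Cx, Adm μ s c δ κ n Γ → dnm (law μ) (Γ.rows d' (k Γ)) Γ.w ≤ Γ.near μ d + (n : ℝ) ^ (-(1 / 16) : ℝ) := by
    intro Γ hA
    obtain ⟨q0, q1, q2⟩ := hk Γ hA
    rw [Cx.dnm_eq hA.ok q0 q1]
    have h1 : ∑ c ∈ Γ.rows 0 d', ∫ η, Γ.w c η ∂(law μ) ≤ ∑ c ∈ Γ.rows 0 d, ∫ η, Γ.w c η ∂(law μ) := by
      refine sum_le_sum_of_subset_of_nonneg ?_ fun c hc _ => ?_
      · unfold Cx.rows
        exact product_subset_product (Ico_subset_Ico le_rfl hdd) (Subset.refl _)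
      · exact integral_nonneg fun η => Cx.w_nonneg hA.ok _ η
    exact add_le_add (h1.trans (hnear Γ hA).2.2.1) (hal c δ κ (by linarith) Γ hA (k Γ) q2 q1)
  refine ⟨∫ η, R.Phi 0 R.N η ∂(law μ), fun Γ hA a0 => ?_⟩
  have hG := hA.ok
  have hG' := hR.ok
  obtain ⟨τ, hτ⟩ : ∃ τ : ℝ, τ = (n : ℝ) ^ (-c) * EE μ s n := ⟨_, rfl⟩
  have hτ0 : 0 < τ := by rw [hτ]; exact mul_pos (Real.rpow_pos_of_pos n0 _) E0
  have hGt : 1 / τ = (n : ℝ) ^ c / EE μ s n := by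
    rw [hτ, Real.rpow_neg n0.le]
    have := (Real.rpow_pos_of_pos n0 c).ne'
    field_simp
  rw [← hτ]
  have hw := wgt_tri hτ0
  have gm : Measurable fun a => tri τ (a - a0) := hw.cont.measurable.comp (measurable_id.sub_const a0)
  have g0 : ∀ x, 0 ≤ tri τ (x - a0) := fun x => hw.nn _
  have gG : ∀ x, tri τ (x - a0) ≤ 1 / τ := fun x => tri_le hτ0 _
  have gL : ∀ x y, |tri τ (x - a0) - tri τ (y - a0)| ≤ 1 / τ ^ 2 * |x - y| := fun x y => by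
    have := hw.lip (x - a0) (y - a0)
    rwa [sub_sub_sub_cancel_right] at this
  have hK0 : 0 < (n : ℝ) ^ (a / 4) := Real.rpow_pos_of_pos n0 _
  have hKn : (n : ℝ) ^ (a / 4) ≤ n := by
    calc (n : ℝ) ^ (a / 4) ≤ (n : ℝ) ^ (1 : ℝ) := Real.rpow_le_rpow_of_exponent_le hnR (by linarith)
      _ = n := Real.rpow_one _
  have nd := Cx.nd68 (a := d') (b := k Γ) (a' := 0) (b' := Γ.N) hμ hG (hk Γ hA).2.1 le_rfl
  have nd' := Cx.nd68 (a := d') (b := k R) (a' := 0) (b' := R.N) hμ hG' (hk R hR).2.1 le_rfl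
  have key := lec_phi nd nd' gm g0 gG Γ.meas_B hK0 (hKn.trans hH) (hL Γ hA _ _ _ gm g0 gG gL _ hK0 hKn)
  rw [mul_comm (∫ η, tri τ (Γ.B η - a0) ∂(law μ))] at key
  have ePhi : ∀ η, (∑ b ∈ Γ.rows 0 Γ.N, Γ.C b η) = Γ.Phi 0 Γ.N η := fun η => rfl
  simp only [ePhi]
  refine key.trans ?_
  -- the numbers
  set M := ∫ η, Γ.SS 0 Γ.N η ^ 2 ∂(law μ) with hMd
  set M' := ∫ η, R.SS 0 R.N η ^ 2 ∂(law μ) with hMd'
  have X1 : ∀ Γ₁ : Cx, Adm μ s c δ κ n Γ₁ → ∫ η, Γ₁.SS 0 Γ₁.N η ∂(law μ) ≤ 1 + ∫ η, Γ₁.SS 0 Γ₁.N η ^ 2 ∂(law μ) := by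
    intro Γ₁ hA₁
    have i1 := Cx.int_SS (a := 0) (b := Γ₁.N) hμ hA₁.ok le_rfl
    have i2 := Cx.int_SS2 (a := 0) (b := Γ₁.N) hμ hA₁.ok le_rfl
    have e1 : 1 + ∫ η, Γ₁.SS 0 Γ₁.N η ^ 2 ∂(law μ) = ∫ η, (1 + Γ₁.SS 0 Γ₁.N η ^ 2) ∂(law μ) := by
      rw [integral_add (integrable_const _) i2]
      simp
    rw [e1]
    refine integral_mono i1 ((integrable_const _).add i2) fun η => ?_
    show Γ₁.SS 0 Γ₁.N η ≤ 1 + Γ₁.SS 0 Γ₁.N η ^ 2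
    nlinarith [sq_nonneg (Γ₁.SS 0 Γ₁.N η - 1 / 2)]
  have hMn : (n : ℝ) ^ (-cL) ≤ (n : ℝ) ^ (-a) := Real.rpow_le_rpow_of_exponent_le hnR (by linarith)
  have hM0 : 0 ≤ M := integral_nonneg fun η => sq_nonneg _
  have hM0' : 0 ≤ M' := integral_nonneg fun η => sq_nonneg _
  have hX0 : 0 ≤ ∫ η, Γ.SS 0 Γ.N η ∂(law μ) := integral_nonneg fun η => Cx.SS_nonneg hG 0 Γ.N η
  have hX0' : 0 ≤ ∫ η, R.SS 0 R.N η ∂(law μ) := integral_nonneg fun η => Cx.SS_nonneg hG' 0 R.N η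
  have num := numP68 (n := (n : ℝ)) (E := EE μ s n) (a := a) (c := c) (e := e) (nr := Γ.near μ d) (nr' := 0) (M := M) (M' := M')
    (X := ∫ η, Γ.SS 0 Γ.N η ∂(law μ)) (X' := ∫ η, R.SS 0 R.N η ∂(law μ)) (x := dnm (law μ) (Γ.rows d' (k Γ)) Γ.w)
    (x' := dnm (law μ) (R.rows d' (k R)) R.w)
    (err := (1 / τ ^ 2 * EE μ s n + 1 / τ) * (n : ℝ) ^ (-cL) *
      (2 + ∫ η, Γ.SS 0 Γ.N η ∂(law μ) + ∫ η, R.SS 0 R.N η ∂(law μ)) +
      1 / τ * ((2 + 2 * (n : ℝ) ^ (a / 4)) * (n : ℝ) ^ (-cL) + (M + M') / (n : ℝ) ^ (a / 4)))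
    hnR hE1 ha ha1 hae hc hca hbig (Cx.near_nonneg hG d) (hS Γ hA) (hS R hR) (X1 Γ hA) (X1 R hR) (hdnm Γ hA)
    (by have := hdnm R hR; rwa [hnearR, zero_add] at this) ?_
  · rw [← hGt] at num
    exact num
  · rw [← hGt]
    have e1 : 1 / τ ^ 2 = (1 / τ) ^ 2 := by rw [one_div_pow]
    rw [e1]
    refine add_le_add ?_ ?_
    · refine mul_le_mul_of_nonneg_right (mul_le_mul_of_nonneg_left hMn (by positivity)) (by linarith)
    · refine mul_le_mul_of_nonneg_left (add_le_add (mul_le_mul_of_nonneg_left hMn (by positivity)) le_rfl) (by positivity)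

/-- The number of the contacts. -/
theorem card_rows_le (Γ : Cx) : (((Γ.rows 0 Γ.N).card : ℕ) : ℝ) ≤ ((Γ.N : ℝ) + 1) ^ 2 := by
  unfold Cx.rows
  rw [card_product, Nat.card_Ico, Int.card_Icc]
  have e : ((1 + (Γ.N : ℤ) + 1 - 1).toNat : ℕ) = Γ.N + 1 := by omega
  rw [e, Nat.sub_zero]
  push_cast
  have h0 : (0 : ℝ) ≤ Γ.N := Nat.cast_nonneg _
  nlinarith

/-- **The second moment**: (Y) and the wild part. -/
theorem sqP68 (hY : YsqP68 μ s) (hK : KwP68 μ s) : SqP68 μ s := by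
  intro ε hε
  obtain ⟨c₁, hc₁, hY⟩ := hY (ε / 4) (by linarith)
  obtain ⟨c₂, hc₂, hK⟩ := hK (ε / 4) (by linarith)
  refine ⟨min (min c₁ c₂) (1 / 8), lt_min (lt_min hc₁ hc₂) (by norm_num), fun c hc hcc δ hδ hδc => ?_⟩
  have k1 : c ≤ c₁ := hcc.trans ((min_le_left _ _).trans (min_le_left _ _))
  have k2 : c ≤ c₂ := hcc.trans ((min_le_left _ _).trans (min_le_right _ _))
  have k3 : c ≤ 1 / 8 := hcc.trans (min_le_right _ _)
  obtain ⟨κ₁, hκ₁, hY⟩ := hY c hc k1 δ hδ hδc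
  obtain ⟨κ₂, hκ₂, hK⟩ := hK c hc k2 δ hδ hδc
  refine ⟨min κ₁ κ₂, lt_min hκ₁ hκ₂, fun κ hκ hκκ => ?_⟩
  have ev1 : ∀ᶠ n : ℕ in atTop, (4 : ℝ) ≤ (n : ℝ) ^ (ε / 4) :=
    ((tendsto_rpow_atTop (by linarith : 0 < ε / 4)).comp tendsto_natCast_atTop_atTop).eventually_ge_atTop _
  filter_upwards [hY κ hκ (hκκ.trans (min_le_left _ _)), hK κ hκ (hκκ.trans (min_le_right _ _)), ev1, eventually_ge_atTop 3]
    with n hY hK h4 hn3 Γ hA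
  have hnR : (3 : ℝ) ≤ n := by exact_mod_cast hn3
  have n0 : (0 : ℝ) < n := by linarith
  have n1 : (1 : ℝ) ≤ n := by linarith
  obtain ⟨R, r1, r2, r3⟩ := hK Γ hA
  have y1 := hY Γ hA
  have key := Cx.SS_sq_le hA.ok (a := 0) (b := Γ.N) le_rfl (K := (n : ℝ) ^ (ε / 4)) (R := R) r1 r2
  refine key.trans ?_
  -- the horizon
  obtain ⟨N, L, q1, q2, q3, q4, q5, q6, -, -⟩ := hA.hor
  have hN : (Γ.N : ℝ) + 1 ≤ (n : ℝ) ^ (5 : ℝ) := by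
    have h1 : (Γ.N : ℝ) + 1 ≤ 3 * (N : ℝ) ^ 3 := by
      have h2 : Γ.N + 1 ≤ N + 2 * N ^ 3 + 2 := by omega
      have h3 : N + 2 ≤ N ^ 3 := by
        have h4' : 3 ≤ N := hn3.trans q1
        have h5 : 3 * 3 ≤ N * N := Nat.mul_le_mul h4' h4'
        have h6 : N * 9 ≤ N * (N * N) := Nat.mul_le_mul le_rfl h5
        have h7 : N ^ 3 = N * (N * N) := by ring
        omega
      have h8 : Γ.N + 1 ≤ 3 * N ^ 3 := by omega
      exact_mod_cast h8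
    have h2 : (N : ℝ) ^ 3 ≤ (n : ℝ) ^ (3 * (1 + c)) := by
      have h3 := pow_le_pow_left₀ (Nat.cast_nonneg N) q2 3
      refine h3.trans (le_of_eq ?_)
      rw [← Real.rpow_natCast, ← Real.rpow_mul n0.le]
      congr 1
      push_cast
      ring
    calc (Γ.N : ℝ) + 1 ≤ 3 * (N : ℝ) ^ 3 := h1
      _ ≤ n * (n : ℝ) ^ (3 * (1 + c)) := mul_le_mul hnR h2 (by positivity) n0.le
      _ = (n : ℝ) ^ (1 + 3 * (1 + c)) := by rw [Real.rpow_add n0, Real.rpow_one]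
      _ ≤ (n : ℝ) ^ (5 : ℝ) := Real.rpow_le_rpow_of_exponent_le n1 (by linarith)
  have hcard : (((Γ.rows 0 Γ.N).card : ℕ) : ℝ) ≤ (n : ℝ) ^ (10 : ℝ) := by
    refine (card_rows_le Γ).trans ?_
    have h1 := pow_le_pow_left₀ (by positivity) hN 2
    refine h1.trans (le_of_eq ?_)
    rw [← Real.rpow_natCast, ← Real.rpow_mul n0.le]
    norm_num
  have hw : 2 * (((Γ.rows 0 Γ.N).card : ℕ) : ℝ) * ∑ c ∈ Γ.rows 0 Γ.N, ∫ η, R c η ^ 2 ∂(law μ) ≤ 2 := by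
    have s0 : 0 ≤ ∑ c ∈ Γ.rows 0 Γ.N, ∫ η, R c η ^ 2 ∂(law μ) := sum_nonneg fun c _ => integral_nonneg fun η => sq_nonneg _
    have h1 : (((Γ.rows 0 Γ.N).card : ℕ) : ℝ) * ∑ c ∈ Γ.rows 0 Γ.N, ∫ η, R c η ^ 2 ∂(law μ) ≤
        (n : ℝ) ^ (10 : ℝ) * (n : ℝ) ^ (-(16 : ℝ)) := mul_le_mul hcard r3 s0 (by positivity)
    have h2 : (n : ℝ) ^ (10 : ℝ) * (n : ℝ) ^ (-(16 : ℝ)) ≤ 1 := by
      rw [← Real.rpow_add n0]
      exact Real.rpow_le_one_of_one_le_of_nonpos n1 (by norm_num)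
    linarith
  have hY2 : 2 * ((n : ℝ) ^ (ε / 4)) ^ 2 * (∫ η, Γ.YY 0 Γ.N η ^ 2 ∂(law μ)) ≤ 2 * (n : ℝ) ^ (3 * ε / 4) := by
    have h1 : 2 * ((n : ℝ) ^ (ε / 4)) ^ 2 * (∫ η, Γ.YY 0 Γ.N η ^ 2 ∂(law μ)) ≤ 2 * ((n : ℝ) ^ (ε / 4)) ^ 2 * (n : ℝ) ^ (ε / 4) :=
      mul_le_mul_of_nonneg_left y1 (by positivity)
    refine h1.trans (le_of_eq ?_)
    rw [sq, mul_assoc, mul_assoc, ← Real.rpow_add n0, ← Real.rpow_add n0]
    congr 2
    ring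
  have h5 : (1 : ℝ) ≤ (n : ℝ) ^ (3 * ε / 4) := Real.one_le_rpow n1 (by linarith)
  have h6 : 4 * (n : ℝ) ^ (3 * ε / 4) ≤ (n : ℝ) ^ ε := by
    calc 4 * (n : ℝ) ^ (3 * ε / 4) ≤ (n : ℝ) ^ (ε / 4) * (n : ℝ) ^ (3 * ε / 4) := mul_le_mul_of_nonneg_right h4 (by positivity)
      _ = (n : ℝ) ^ ε := by
        rw [← Real.rpow_add n0]
        congr 1
        ring
  linarith

/-- **The sum of the weights in the frames**, from the second moment. -/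
theorem xsP68 (hY : YsqP68 μ s) : XsP8 μ s := by
  obtain ⟨c₀, hc₀, hY⟩ := hY (1 / 20) (by norm_num)
  refine ⟨c₀, hc₀, fun c hc hcc δ hδ hδc => ?_⟩
  obtain ⟨κ₀, hκ₀, hY⟩ := hY c hc hcc δ hδ hδc
  refine ⟨κ₀, hκ₀, fun κ hκ hκκ => ?_⟩
  filter_upwards [hY κ hκ hκκ, eventually_ge_atTop 1] with n hY hn1 Γ hA
  have hnR : (1 : ℝ) ≤ n := by exact_mod_cast hn1
  have h1 : (1 : ℝ) ≤ (n : ℝ) ^ (1 / 20 : ℝ) := Real.one_le_rpow hnR (by norm_num)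
  have i1 := Cx.int_YY (μ := μ) hA.ok (a := 0) (b := Γ.N) le_rfl
  have i2 := Cx.int_YY2 (μ := μ) hA.ok (a := 0) (b := Γ.N) le_rfl
  have e1 : ∑ b ∈ Γ.rows 0 Γ.N, ∫ η, Γ.ws b η ∂(law μ) = ∫ η, Γ.YY 0 Γ.N η ∂(law μ) := by
    unfold Cx.YY
    rw [integral_finsetSum _ fun _ hc => Cx.int_ws (μ := μ) hA.ok hc]
  have e2 : 1 + ∫ η, Γ.YY 0 Γ.N η ^ 2 ∂(law μ) = ∫ η, (1 + Γ.YY 0 Γ.N η ^ 2) ∂(law μ) := by
    rw [integral_add (integrable_const _) i2]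
    simp
  have e3 : 2 * ∫ η, Γ.YY 0 Γ.N η ∂(law μ) ≤ 1 + ∫ η, Γ.YY 0 Γ.N η ^ 2 ∂(law μ) := by
    rw [e2, ← integral_const_mul]
    refine integral_mono (i1.const_mul 2) ((integrable_const _).add i2) fun η => ?_
    show 2 * Γ.YY 0 Γ.N η ≤ 1 + Γ.YY 0 Γ.N η ^ 2
    nlinarith [sq_nonneg (Γ.YY 0 Γ.N η - 1)]
  have h2 := hY Γ hA
  rw [e1]
  linarith

end

end Pool.Agent.W_7d29a1_C1.H60
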