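import Pool.Agent.W_7d29a1_C1.HybG8

/-!
MP_7d29a1_pr, attractor route (helper8): the fluctuations are at least `n ^ (1 / 9)`.
-/

set_option autoImplicit false

namespace Pool.Agent.W_7d29a1_C1.H8

open MeasureTheory Filter Topology
open Pool.Agent.W_7d29a1_F Pool.Agent.W_7d29a1_h4g Pool.Agent.W_7d29a1_H Pool.Agent.W_7d29a1_HS

variable {μ : Measure ℝ} [IsProbabilityMeasure μ] {s : ℝ}

/-- From the width `≥ n ^ (1 / 4)` and `wd ≤ n ^ ε EE ^ 2`. -/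
theorem ee9_8 (hL : ∀ ε : ℝ, 0 < ε → ∃ n₁ : ℕ, ∀ n : ℕ, n₁ ≤ n → wd μ s n ≤ (n : ℝ) ^ ε * EE μ s n ^ 2) (hw : WlG8 μ s) :
    ∀ᶠ n : ℕ in atTop, (n : ℝ) ^ (1 / 9 : ℝ) ≤ EE μ s n := by
  obtain ⟨n₁, h1⟩ := hL (1 / 36) (by norm_num)
  obtain ⟨n₂, h2⟩ := hw
  filter_upwards [eventually_ge_atTop n₁, eventually_ge_atTop n₂, eventually_ge_atTop 1] with n g1 g2 g3
  have hnR : (1 : ℝ) ≤ n := by exact_mod_cast g3
  have n0 : (0 : ℝ) < n := by linarith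
  have a1 := (h2 n g2).trans (h1 n g1)
  have a2 : (n : ℝ) ^ (1 / 4 : ℝ) = (n : ℝ) ^ (1 / 36 : ℝ) * ((n : ℝ) ^ (1 / 9 : ℝ)) ^ 2 := by
    rw [← Real.rpow_natCast, ← Real.rpow_mul n0.le, ← Real.rpow_add n0]
    norm_num
  rw [a2] at a1
  have a3 := le_of_mul_le_mul_left a1 (Real.rpow_pos_of_pos n0 _)
  have hE0 : 0 ≤ EE μ s n := by have := one_le_EE (μ := μ) (s := s) n; linarith
  exact (pow_le_pow_iff_left₀ (Real.rpow_nonneg n0.le _) hE0 (by norm_num)).1 a3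

end Pool.Agent.W_7d29a1_C1.H8
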