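import Pool.Agent.W_7d29a1_C1.AsmA60

/-!
Both halves (MP_7d29a1_pr), attractor route: THE ASSEMBLY WITH THE TOTAL CONTACT FUNCTIONAL, abstract part (helper68).

The contacts `b` of `AsmA60` are the natural first meeting sites with the weights `w b` (sum `W` at most `1`), the functional of the
contact is `w b * clp H Φ`, where `Φ` = the total of all contact functionals, `|Φ| ≤ S`. The weight in `CD` is `w b * (1 + S)`.
`cd_phi`: the structure `CD` with `K = 1`, `R = 0`. `close_phi`: the lines of `PD` (relative error `θ`). `N2_phi`: the pairs without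
success. `lec_phi`: `|E[g(B) Φ] - E[g(B)] E[Φ']|`.
-/

set_option autoImplicit false

namespace Pool.Agent.W_7d29a1_C1.H60

open MeasureTheory

variable {Ω : Type*} [MeasurableSpace Ω] {P : Measure Ω} {ι ι' : Type*}

/-! ### The truncation -/

/-- The truncation at the height `H`. -/
noncomputable def clp (H x : ℝ) : ℝ := max (-H) (min H x)

theorem abs_clp_le {H : ℝ} (hH : 0 ≤ H) (x : ℝ) : |clp H x| ≤ H := by
  unfold clp
  rw [abs_le]
  exact ⟨le_max_left _ _, max_le (by linarith) (min_le_left _ _)⟩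

theorem abs_clp_le_abs {H : ℝ} (hH : 0 ≤ H) (x : ℝ) : |clp H x| ≤ |x| := by
  unfold clp
  have h1 := neg_abs_le x
  have h2 := le_abs_self x
  have h3 := abs_nonneg x
  rw [abs_le]
  constructor
  · rcases le_total H x with h | h
    · rw [min_eq_left h]
      exact (by linarith : -|x| ≤ H).trans (le_max_right _ _)
    · rw [min_eq_right h]
      exact h1.trans (le_max_right _ _)
  · exact max_le (by linarith) ((min_le_right _ _).trans h2)

theorem clp_lip (H x y : ℝ) : |clp H x - clp H y| ≤ |x - y| := by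
  unfold clp
  refine (abs_max_sub_max_le_max _ _ _ _).trans ?_
  rw [sub_self, abs_zero]
  refine max_le (abs_nonneg _) ?_
  refine (abs_min_sub_min_le_max _ _ _ _).trans ?_
  rw [sub_self, abs_zero]
  exact max_le (abs_nonneg _) le_rfl

/-- The truncation is paid by the second moment. -/
theorem sub_clp_le {H : ℝ} (hH : 0 < H) (x : ℝ) : |x - clp H x| ≤ x ^ 2 / H := by
  by_cases h : |x| ≤ H
  · have e : clp H x = x := by
      unfold clp
      rw [abs_le] at h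
      rw [min_eq_right h.2, max_eq_right h.1]
    rw [e, sub_self, abs_zero]
    positivity
  · rw [not_le] at h
    have h1 : |x - clp H x| ≤ |x| := by
      unfold clp
      rcases le_total 0 x with h0 | h0
      · rw [abs_of_nonneg h0] at h ⊢
        rw [min_eq_left h.le, max_eq_right (by linarith)]
        rw [abs_of_nonneg (by linarith)]
        linarith
      · rw [abs_of_nonpos h0] at h ⊢
        rw [min_eq_right (by linarith), max_eq_left (by linarith)]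
        rw [abs_of_nonpos (by linarith)]
        linarith
    refine h1.trans ?_
    rw [le_div_iff₀ hH, ← sq_abs]
    have := abs_nonneg x
    nlinarith

theorem measurable_clp (H : ℝ) : Measurable (clp H) := by
  unfold clp
  exact measurable_const.max (measurable_const.min measurable_id)

/-! ### The structure `CD` -/

section cd

variable {T : Finset ι} {w : ι → Ω → ℝ} {Φ S : Ω → ℝ} {H : ℝ}

/-- The data of one context: natural weights, total functional, its bound. -/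
structure ND (P : Measure Ω) (T : Finset ι) (w : ι → Ω → ℝ) (Φ S : Ω → ℝ) : Prop where
  mw : ∀ b ∈ T, Measurable (w b)
  w0 : ∀ b ∈ T, ∀ ω, 0 ≤ w b ω
  sw : ∀ ω, ∑ b ∈ T, w b ω ≤ 1
  mΦ : Measurable Φ
  mS : Measurable S
  le : ∀ ω, |Φ ω| ≤ S ω
  iS : Integrable S P
  iS2 : Integrable (fun ω => S ω ^ 2) P

theorem ND.S0 (h : ND P T w Φ S) (ω : Ω) : 0 ≤ S ω := (abs_nonneg _).trans (h.le ω)

theorem ND.w1 (h : ND P T w Φ S) {b : ι} (hb : b ∈ T) (ω : Ω) : w b ω ≤ 1 :=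
  (Finset.single_le_sum (f := fun b => w b ω) (fun b hb => h.w0 b hb ω) hb).trans (h.sw ω)

theorem ND.iΦ (h : ND P T w Φ S) : Integrable Φ P :=
  h.iS.mono' h.mΦ.aestronglyMeasurable (Filter.Eventually.of_forall fun ω => by rw [Real.norm_eq_abs]; exact h.le ω)

theorem ND.iw [IsProbabilityMeasure P] (h : ND P T w Φ S) {b : ι} (hb : b ∈ T) : Integrable (w b) P :=
  (integrable_const (1 : ℝ)).mono' (h.mw b hb).aestronglyMeasurable (Filter.Eventually.of_forall fun ω => by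
    rw [Real.norm_eq_abs, abs_of_nonneg (h.w0 b hb ω)]
    exact h.w1 hb ω)

/-- A function of absolute value at most one times an integrable function. -/
theorem int_mul68 {u f : Ω → ℝ} (hu : Measurable u) (h1 : ∀ ω, |u ω| ≤ 1) (hf : Integrable f P) :
    Integrable (fun ω => u ω * f ω) P :=
  hf.bdd_mul (c := 1) hu.aestronglyMeasurable (Filter.Eventually.of_forall fun ω => by
    rw [Real.norm_eq_abs]
    exact h1 ω)

theorem ND.iwS (h : ND P T w Φ S) {b : ι} (hb : b ∈ T) : Integrable (fun ω => w b ω * S ω) P :=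
  int_mul68 (h.mw b hb) (fun ω => by rw [abs_of_nonneg (h.w0 b hb ω)]; exact h.w1 hb ω) h.iS

/-- **The structure `CD`**: contact functional `w b * clp H Φ`, weight `w b * (1 + S)`, no wild part. -/
theorem cd_phi [IsProbabilityMeasure P] (h : ND P T w Φ S) (hH : 0 ≤ H) :
    CD P T (fun b ω => w b ω * clp H (Φ ω)) w (fun b ω => w b ω * (1 + S ω)) (fun _ _ => 0) 1 (1 + ∫ ω, S ω ∂P) 0 where
  K0 := zero_le_one
  mC := fun b hb => (h.mw b hb).mul ((measurable_clp H).comp h.mΦ)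
  mw := h.mw
  w0 := h.w0
  sw := h.sw
  ws0 := fun b hb ω => mul_nonneg (h.w0 b hb ω) (by have := h.S0 ω; linarith)
  iws := fun b hb => by
    have e : (fun ω => w b ω * (1 + S ω)) = fun ω => w b ω + w b ω * S ω := funext fun ω => by ring
    rw [e]
    exact (h.iw hb).add (h.iwS hb)
  R0 := fun _ _ _ => le_rfl
  iR := fun _ _ => integrable_zero _ _ _
  bC := fun b hb ω => by
    rw [abs_mul, abs_of_nonneg (h.w0 b hb ω), one_mul, add_zero]
    refine mul_le_mul_of_nonneg_left ?_ (h.w0 b hb ω)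
    have := (abs_clp_le_abs hH (Φ ω)).trans (h.le ω)
    linarith
  tX := by
    have e : ∀ b ∈ T, ∫ ω, w b ω * (1 + S ω) ∂P = ∫ ω, w b ω ∂P + ∫ ω, w b ω * S ω ∂P := by
      intro b hb
      rw [← integral_add (h.iw hb) (h.iwS hb)]
      exact integral_congr_ae (Filter.Eventually.of_forall fun ω => by
        show _ = _
        ring)
    rw [Finset.sum_congr rfl e, Finset.sum_add_distrib, ← integral_finsetSum _ fun b hb => h.iw hb,
      ← integral_finsetSum _ fun b hb => h.iwS hb]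
    refine add_le_add ?_ ?_
    · calc ∫ ω, ∑ b ∈ T, w b ω ∂P ≤ ∫ _ω, (1 : ℝ) ∂P :=
            integral_mono (integrable_finsetSum _ fun b hb => h.iw hb) (integrable_const _) h.sw
        _ = 1 := by simp
    · refine integral_mono (integrable_finsetSum _ fun b hb => h.iwS hb) h.iS fun ω => ?_
      show ∑ b ∈ T, w b ω * S ω ≤ S ω
      rw [← Finset.sum_mul]
      exact mul_le_of_le_one_left (h.S0 ω) (h.sw ω)
  tR := by simp

/-! ### The lines of `PD` -/

/-- **The product**: `w, Φ` of the copy with the new inside, `v, Ψ` of the copy from which the inside is taken, `|Ψ| ≤ V`. -/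
theorem close_phi {w v Φ Ψ V τ θ : ℝ} (hH : 0 ≤ H) (v0 : 0 ≤ v) (v1 : v ≤ 1) (τ0 : 0 ≤ τ) (θ0 : 0 ≤ θ) (θ1 : θ ≤ 1)
    (hV : |Ψ| ≤ V) (h1 : |w - v| ≤ τ + θ * v) (h2 : |Φ - Ψ| ≤ τ + θ * V) :
    |w * clp H Φ - v * clp H Ψ| ≤ (3 * H + 2) * τ + 3 * θ * (v * (1 + V)) := by
  have a1 := abs_clp_le hH Φ
  have a2 := abs_clp_le hH Ψ
  have a3 := (abs_clp_le_abs hH Ψ).trans hV
  have a4 := (clp_lip H Φ Ψ).trans h2
  have a5 : |clp H Φ - clp H Ψ| ≤ 2 * H := (abs_sub _ _).trans (by linarith)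
  have V0 : 0 ≤ V := (abs_nonneg _).trans hV
  have e : w * clp H Φ - v * clp H Ψ = (w - v) * (clp H Φ - clp H Ψ) + v * (clp H Φ - clp H Ψ) + (w - v) * clp H Ψ := by ring
  rw [e]
  refine (abs_add_le _ _).trans ?_
  have b1 := abs_add_le ((w - v) * (clp H Φ - clp H Ψ)) (v * (clp H Φ - clp H Ψ))
  rw [abs_mul, abs_mul, abs_of_nonneg v0] at b1
  rw [abs_mul (w - v) (clp H Ψ)]
  have hθv : 0 ≤ θ * v := mul_nonneg θ0 v0
  have c1 : |w - v| * |clp H Φ - clp H Ψ| ≤ τ * (2 * H) + θ * v * (τ + θ * V) := by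
    refine (mul_le_mul_of_nonneg_right h1 (abs_nonneg _)).trans ?_
    rw [add_mul]
    exact add_le_add (mul_le_mul_of_nonneg_left a5 τ0) (mul_le_mul_of_nonneg_left a4 hθv)
  have c2 : v * |clp H Φ - clp H Ψ| ≤ v * (τ + θ * V) := mul_le_mul_of_nonneg_left a4 v0
  have c3 : |w - v| * |clp H Ψ| ≤ τ * H + θ * v * V := by
    refine (mul_le_mul_of_nonneg_right h1 (abs_nonneg _)).trans ?_
    rw [add_mul]
    exact add_le_add (mul_le_mul_of_nonneg_left a2 τ0) (mul_le_mul_of_nonneg_left a3 hθv)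
  have hvτ : v * τ ≤ τ := mul_le_of_le_one_left τ0 v1
  have e1 : θ * (v * τ) ≤ v * τ := mul_le_of_le_one_left (mul_nonneg v0 τ0) θ1
  have e2 : θ * (θ * v * V) ≤ θ * v * V := mul_le_of_le_one_left (mul_nonneg hθv V0) θ1
  nlinarith

end cd

/-! ### The pairs without success -/

/-- The pairs without success: the size of the total functional is paid by the second moment. -/
theorem N2_phi [IsProbabilityMeasure P] {T : Finset ι} {T' : Finset ι'} {w : ι → Ω → ℝ} {w' : ι' → Ω → ℝ} {Φ S Φ' S' : Ω → ℝ}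
    (h : ND P T w Φ S) (h' : ND P T' w' Φ' S') {U : ι → ι' → Set (Ω × Ω)} (hU : ∀ b b', MeasurableSet (U b b')) {K : ℝ}
    (hK : 0 < K) :
    ∑ b ∈ T, ∑ b' ∈ T', ∫ z in U b b', pw (w b) (fun ω => w b ω * (1 + S ω)) (w' b') (fun ω => w' b' ω * (1 + S' ω)) z ∂(P.prod P) ≤
      (2 + 2 * K) * (∑ b ∈ T, ∑ b' ∈ T', ∫ z in U b b', w b z.1 * w' b' z.2 ∂(P.prod P)) +
        (∫ ω, S ω ^ 2 ∂P + ∫ ω, S' ω ^ 2 ∂P) / K := by
  have iw2 : ∀ b ∈ T, ∀ b' ∈ T', Integrable (fun z : Ω × Ω => w b z.1 * w' b' z.2) (P.prod P) := fun b hb b' hb' =>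
    (h.iw hb).mul_prod (h'.iw hb')
  have iS2 : ∀ b ∈ T, Integrable (fun ω => w b ω * S ω ^ 2) P := fun b hb =>
    int_mul68 (h.mw b hb) (fun ω => by rw [abs_of_nonneg (h.w0 b hb ω)]; exact h.w1 hb ω) h.iS2
  have iS2' : ∀ b ∈ T', Integrable (fun ω => w' b ω * S' ω ^ 2) P := fun b hb =>
    int_mul68 (h'.mw b hb) (fun ω => by rw [abs_of_nonneg (h'.w0 b hb ω)]; exact h'.w1 hb ω) h'.iS2
  have iA : ∀ b ∈ T, ∀ b' ∈ T', Integrable (fun z : Ω × Ω => (w b z.1 * S z.1 ^ 2) * w' b' z.2) (P.prod P) :=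
    fun b hb b' hb' => (iS2 b hb).mul_prod (h'.iw hb')
  have iB : ∀ b ∈ T, ∀ b' ∈ T', Integrable (fun z : Ω × Ω => w b z.1 * (w' b' z.2 * S' z.2 ^ 2)) (P.prod P) :=
    fun b hb b' hb' => (h.iw hb).mul_prod (iS2' b' hb')
  have iC : ∀ b ∈ T, ∀ b' ∈ T', Integrable (fun z : Ω × Ω => (w b z.1 * S z.1) * w' b' z.2) (P.prod P) :=
    fun b hb b' hb' => (h.iwS hb).mul_prod (h'.iw hb')
  have iD : ∀ b ∈ T, ∀ b' ∈ T', Integrable (fun z : Ω × Ω => w b z.1 * (w' b' z.2 * S' z.2)) (P.prod P) :=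
    fun b hb b' hb' => (h.iw hb).mul_prod (h'.iwS hb')
  -- one pair
  have key : ∀ b ∈ T, ∀ b' ∈ T', ∫ z in U b b', pw (w b) (fun ω => w b ω * (1 + S ω)) (w' b') (fun ω => w' b' ω * (1 + S' ω)) z
      ∂(P.prod P) ≤ (2 + 2 * K) * (∫ z in U b b', w b z.1 * w' b' z.2 ∂(P.prod P)) +
        ((∫ ω, w b ω * S ω ^ 2 ∂P) * (∫ ω, w' b' ω ∂P) + (∫ ω, w b ω ∂P) * ∫ ω, w' b' ω * S' ω ^ 2 ∂P) / K := by
    intro b hb b' hb'
    have i1 : Integrable (fun z : Ω × Ω => (2 + 2 * K) * (w b z.1 * w' b' z.2)) (P.prod P) := (iw2 b hb b' hb').const_mul _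
    have i2 : Integrable (fun z : Ω × Ω => ((w b z.1 * S z.1 ^ 2) * w' b' z.2 + w b z.1 * (w' b' z.2 * S' z.2 ^ 2)) / K)
      (P.prod P) := ((iA b hb b' hb').add (iB b hb b' hb')).div_const K
    have ip : Integrable (fun z : Ω × Ω => pw (w b) (fun ω => w b ω * (1 + S ω)) (w' b') (fun ω => w' b' ω * (1 + S' ω)) z)
        (P.prod P) := by
      have e : (fun z : Ω × Ω => pw (w b) (fun ω => w b ω * (1 + S ω)) (w' b') (fun ω => w' b' ω * (1 + S' ω)) z) =
          fun z => (w b z.1 * w' b' z.2 + w b z.1 * w' b' z.2) + ((w b z.1 * S z.1) * w' b' z.2 + w b z.1 * (w' b' z.2 * S' z.2)) := by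
        funext z
        unfold pw
        ring
      rw [e]
      exact ((iw2 b hb b' hb').add (iw2 b hb b' hb')).add ((iC b hb b' hb').add (iD b hb b' hb'))
    have hsq : ∀ x : ℝ, x ≤ K + x ^ 2 / K := fun x => by
      rw [← sub_nonneg]
      have e : K + x ^ 2 / K - x = ((x - K / 2) ^ 2 + 3 / 4 * K ^ 2) / K := by
        field_simp
        ring
      rw [e]
      positivity
    have hp : ∀ z : Ω × Ω, pw (w b) (fun ω => w b ω * (1 + S ω)) (w' b') (fun ω => w' b' ω * (1 + S' ω)) z ≤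
        (2 + 2 * K) * (w b z.1 * w' b' z.2) + ((w b z.1 * S z.1 ^ 2) * w' b' z.2 + w b z.1 * (w' b' z.2 * S' z.2 ^ 2)) / K := by
      intro z
      have p0 : 0 ≤ w b z.1 * w' b' z.2 := mul_nonneg (h.w0 b hb z.1) (h'.w0 b' hb' z.2)
      have s1 := mul_le_mul_of_nonneg_left (hsq (S z.1)) p0
      have s2 := mul_le_mul_of_nonneg_left (hsq (S' z.2)) p0
      have e1 : pw (w b) (fun ω => w b ω * (1 + S ω)) (w' b') (fun ω => w' b' ω * (1 + S' ω)) z =
          2 * (w b z.1 * w' b' z.2) + (w b z.1 * w' b' z.2) * S z.1 + (w b z.1 * w' b' z.2) * S' z.2 := by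
        unfold pw
        ring
      have e2 : (2 + 2 * K) * (w b z.1 * w' b' z.2) + ((w b z.1 * S z.1 ^ 2) * w' b' z.2 + w b z.1 * (w' b' z.2 * S' z.2 ^ 2)) / K =
          2 * (w b z.1 * w' b' z.2) + (w b z.1 * w' b' z.2) * (K + S z.1 ^ 2 / K) + (w b z.1 * w' b' z.2) * (K + S' z.2 ^ 2 / K) := by
        ring
      rw [e1, e2]
      linarith
    have k1 := setIntegral_mono (s := U b b') ip.integrableOn (i1.add i2).integrableOn hp
    refine k1.trans ?_
    have e3 : ∫ z in U b b', ((fun z : Ω × Ω => (2 + 2 * K) * (w b z.1 * w' b' z.2)) + fun z : Ω × Ω =>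
        ((w b z.1 * S z.1 ^ 2) * w' b' z.2 + w b z.1 * (w' b' z.2 * S' z.2 ^ 2)) / K) z ∂(P.prod P) =
        ∫ z in U b b', (2 + 2 * K) * (w b z.1 * w' b' z.2) ∂(P.prod P) +
        ∫ z in U b b', ((w b z.1 * S z.1 ^ 2) * w' b' z.2 + w b z.1 * (w' b' z.2 * S' z.2 ^ 2)) / K ∂(P.prod P) :=
      integral_add i1.integrableOn i2.integrableOn
    rw [e3, integral_const_mul]
    refine add_le_add le_rfl ?_
    have k2 : ∫ z in U b b', ((w b z.1 * S z.1 ^ 2) * w' b' z.2 + w b z.1 * (w' b' z.2 * S' z.2 ^ 2)) / K ∂(P.prod P) ≤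
        ∫ z : Ω × Ω, ((w b z.1 * S z.1 ^ 2) * w' b' z.2 + w b z.1 * (w' b' z.2 * S' z.2 ^ 2)) / K ∂(P.prod P) :=
      setIntegral_le_integral i2 (Filter.Eventually.of_forall fun z => by
        have q1 := h.w0 b hb z.1
        have q2 := h'.w0 b' hb' z.2
        show 0 ≤ ((w b z.1 * S z.1 ^ 2) * w' b' z.2 + w b z.1 * (w' b' z.2 * S' z.2 ^ 2)) / K
        positivity)
    refine k2.trans (le_of_eq ?_)
    have e4 : ∫ z : Ω × Ω, ((w b z.1 * S z.1 ^ 2) * w' b' z.2 + w b z.1 * (w' b' z.2 * S' z.2 ^ 2)) ∂(P.prod P) =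
        ∫ z : Ω × Ω, (w b z.1 * S z.1 ^ 2) * w' b' z.2 ∂(P.prod P) + ∫ z : Ω × Ω, w b z.1 * (w' b' z.2 * S' z.2 ^ 2) ∂(P.prod P) :=
      integral_add (iA b hb b' hb') (iB b hb b' hb')
    have e5 : ∫ z : Ω × Ω, (w b z.1 * S z.1 ^ 2) * w' b' z.2 ∂(P.prod P) = (∫ ω, w b ω * S ω ^ 2 ∂P) * ∫ ω, w' b' ω ∂P :=
      integral_prod_mul (fun ω => w b ω * S ω ^ 2) (w' b')
    have e6 : ∫ z : Ω × Ω, w b z.1 * (w' b' z.2 * S' z.2 ^ 2) ∂(P.prod P) = (∫ ω, w b ω ∂P) * ∫ ω, w' b' ω * S' ω ^ 2 ∂P :=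
      integral_prod_mul (w b) (fun ω => w' b' ω * S' ω ^ 2)
    rw [integral_div, e4, e5, e6]
  refine (Finset.sum_le_sum fun b hb => Finset.sum_le_sum fun b' hb' => key b hb b' hb').trans ?_
  simp only [Finset.sum_add_distrib, ← Finset.mul_sum, ← Finset.sum_mul, ← Finset.sum_div]
  refine add_le_add le_rfl (div_le_div_of_nonneg_right ?_ hK.le)
  -- the sums
  have u1 : ∑ b ∈ T, ∫ ω, w b ω * S ω ^ 2 ∂P ≤ ∫ ω, S ω ^ 2 ∂P := by
    rw [← integral_finsetSum _ iS2]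
    refine integral_mono (integrable_finsetSum _ iS2) h.iS2 fun ω => ?_
    show ∑ b ∈ T, w b ω * S ω ^ 2 ≤ S ω ^ 2
    rw [← Finset.sum_mul]
    exact mul_le_of_le_one_left (sq_nonneg _) (h.sw ω)
  have u2 : ∑ b ∈ T', ∫ ω, w' b ω * S' ω ^ 2 ∂P ≤ ∫ ω, S' ω ^ 2 ∂P := by
    rw [← integral_finsetSum _ iS2']
    refine integral_mono (integrable_finsetSum _ iS2') h'.iS2 fun ω => ?_
    show ∑ b ∈ T', w' b ω * S' ω ^ 2 ≤ S' ω ^ 2
    rw [← Finset.sum_mul]
    exact mul_le_of_le_one_left (sq_nonneg _) (h'.sw ω)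
  have u3 : ∑ b ∈ T, ∫ ω, w b ω ∂P ≤ 1 := by
    rw [← integral_finsetSum _ fun b hb => h.iw hb]
    calc ∫ ω, ∑ b ∈ T, w b ω ∂P ≤ ∫ _ω, (1 : ℝ) ∂P :=
          integral_mono (integrable_finsetSum _ fun b hb => h.iw hb) (integrable_const _) h.sw
      _ = 1 := by simp
  have u4 : ∑ b ∈ T', ∫ ω, w' b ω ∂P ≤ 1 := by
    rw [← integral_finsetSum _ fun b hb => h'.iw hb]
    calc ∫ ω, ∑ b ∈ T', w' b ω ∂P ≤ ∫ _ω, (1 : ℝ) ∂P :=
          integral_mono (integrable_finsetSum _ fun b hb => h'.iw hb) (integrable_const _) h'.sw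
      _ = 1 := by simp
  have v1 : 0 ≤ ∑ b ∈ T, ∫ ω, w b ω * S ω ^ 2 ∂P := Finset.sum_nonneg fun b hb => integral_nonneg fun ω =>
    mul_nonneg (h.w0 b hb ω) (sq_nonneg _)
  have v2 : 0 ≤ ∑ b ∈ T', ∫ ω, w' b ω * S' ω ^ 2 ∂P := Finset.sum_nonneg fun b hb => integral_nonneg fun ω =>
    mul_nonneg (h'.w0 b hb ω) (sq_nonneg _)
  have v3 : 0 ≤ ∑ b ∈ T, ∫ ω, w b ω ∂P := Finset.sum_nonneg fun b hb => integral_nonneg fun ω => h.w0 b hb ω
  have v4 : 0 ≤ ∑ b ∈ T', ∫ ω, w' b ω ∂P := Finset.sum_nonneg fun b hb => integral_nonneg fun ω => h'.w0 b hb ω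
  have x1 : (∑ b ∈ T, ∫ ω, w b ω * S ω ^ 2 ∂P) * ∑ b ∈ T', ∫ ω, w' b ω ∂P ≤ (∫ ω, S ω ^ 2 ∂P) * 1 :=
    mul_le_mul u1 u4 v4 (v1.trans u1)
  have x2 : (∑ b ∈ T, ∫ ω, w b ω ∂P) * ∑ b ∈ T', ∫ ω, w' b ω * S' ω ^ 2 ∂P ≤ 1 * ∫ ω, S' ω ^ 2 ∂P :=
    mul_le_mul u3 u2 v2 zero_le_one
  linarith

/-! ### From the contacts to the total functional -/

section last

variable {T : Finset ι} {w : ι → Ω → ℝ} {Φ S : Ω → ℝ}

/-- The mass which does not meet. -/
noncomputable def dnm (P : Measure Ω) (T : Finset ι) (w : ι → Ω → ℝ) : ℝ := 1 - ∑ b ∈ T, ∫ ω, w b ω ∂P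

theorem ND.d0 [IsProbabilityMeasure P] (h : ND P T w Φ S) : 0 ≤ dnm P T w := by
  unfold dnm
  have u3 : ∑ b ∈ T, ∫ ω, w b ω ∂P ≤ 1 := by
    rw [← integral_finsetSum _ fun b hb => h.iw hb]
    calc ∫ ω, ∑ b ∈ T, w b ω ∂P ≤ ∫ _ω, (1 : ℝ) ∂P :=
          integral_mono (integrable_finsetSum _ fun b hb => h.iw hb) (integrable_const _) h.sw
      _ = 1 := by simp
  linarith

/-- The mass which does not meet, with a function of absolute value at most `G`. -/
theorem ND.one_sub [IsProbabilityMeasure P] (h : ND P T w Φ S) {u : Ω → ℝ} {G : ℝ} (hu : Measurable u) (hG : ∀ ω, |u ω| ≤ G) :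
    |∑ b ∈ T, ∫ ω, u ω * w b ω ∂P - ∫ ω, u ω ∂P| ≤ G * dnm P T w := by
  have iu : Integrable u P := (integrable_const G).mono' hu.aestronglyMeasurable (Filter.Eventually.of_forall fun ω => by
    rw [Real.norm_eq_abs]
    exact hG ω)
  have iuw : ∀ b ∈ T, Integrable (fun ω => u ω * w b ω) P := fun b hb =>
    (h.iw hb).bdd_mul (c := G) hu.aestronglyMeasurable (Filter.Eventually.of_forall fun ω => by
      rw [Real.norm_eq_abs]
      exact hG ω)
  have iW : Integrable (fun ω => ∑ b ∈ T, w b ω) P := integrable_finsetSum _ fun b hb => h.iw hb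
  have e1 : ∑ b ∈ T, ∫ ω, u ω * w b ω ∂P - ∫ ω, u ω ∂P = ∫ ω, u ω * (∑ b ∈ T, w b ω - 1) ∂P := by
    rw [← integral_finsetSum _ iuw, ← integral_sub (integrable_finsetSum _ iuw) iu]
    refine integral_congr_ae (Filter.Eventually.of_forall fun ω => ?_)
    show ∑ b ∈ T, u ω * w b ω - u ω = u ω * (∑ b ∈ T, w b ω - 1)
    rw [← Finset.mul_sum]
    ring
  rw [e1]
  refine (abs_integral_le_integral_abs).trans ?_
  have e2 : G * dnm P T w = ∫ ω, G * (1 - ∑ b ∈ T, w b ω) ∂P := by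
    unfold dnm
    rw [integral_const_mul, integral_sub (integrable_const _) iW, integral_finsetSum _ fun b hb => h.iw hb]
    simp
  rw [e2]
  refine integral_mono ?_ ?_ fun ω => ?_
  · refine Integrable.abs ?_
    exact (iW.sub (integrable_const 1)).bdd_mul (c := G) hu.aestronglyMeasurable (Filter.Eventually.of_forall fun ω => by
      rw [Real.norm_eq_abs]
      exact hG ω)
  · exact ((integrable_const 1).sub iW).const_mul G
  · show |u ω * (∑ b ∈ T, w b ω - 1)| ≤ G * (1 - ∑ b ∈ T, w b ω)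
    rw [abs_mul, abs_of_nonpos (by linarith [h.sw ω] : ∑ b ∈ T, w b ω - 1 ≤ 0), neg_sub]
    exact mul_le_mul_of_nonneg_right (hG ω) (by linarith [h.sw ω])

/-- **From the contacts to the total functional.** -/
theorem ND.tot [IsProbabilityMeasure P] (h : ND P T w Φ S) {u : Ω → ℝ} {G H K : ℝ} (hu : Measurable u) (hG : ∀ ω, |u ω| ≤ G)
    (hK : 0 < K) (hH : K ≤ H) :
    |∑ b ∈ T, ∫ ω, u ω * (w b ω * clp H (Φ ω)) ∂P - ∫ ω, u ω * Φ ω ∂P| ≤ G * (K * dnm P T w + 2 * (∫ ω, S ω ^ 2 ∂P) / K) := by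
  have hH0 : 0 < H := hK.trans_le hH
  have G0 : 0 ≤ G := (abs_nonneg _).trans (hG (Classical.choice (MeasureTheory.nonempty_of_isProbabilityMeasure P)))
  have mc : Measurable fun ω => clp H (Φ ω) := (measurable_clp H).comp h.mΦ
  have ic : Integrable (fun ω => clp H (Φ ω)) P := h.iS.mono' mc.aestronglyMeasurable (Filter.Eventually.of_forall fun ω => by
    rw [Real.norm_eq_abs]
    exact (abs_clp_le_abs hH0.le _).trans (h.le ω))
  have iwc : ∀ b ∈ T, Integrable (fun ω => w b ω * clp H (Φ ω)) P := fun b hb =>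
    int_mul68 (h.mw b hb) (fun ω => by rw [abs_of_nonneg (h.w0 b hb ω)]; exact h.w1 hb ω) ic
  have iuwc : ∀ b ∈ T, Integrable (fun ω => u ω * (w b ω * clp H (Φ ω))) P := fun b hb =>
    (iwc b hb).bdd_mul (c := G) hu.aestronglyMeasurable (Filter.Eventually.of_forall fun ω => by
      rw [Real.norm_eq_abs]
      exact hG ω)
  have iuΦ : Integrable (fun ω => u ω * Φ ω) P := h.iΦ.bdd_mul (c := G) hu.aestronglyMeasurable
    (Filter.Eventually.of_forall fun ω => by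
      rw [Real.norm_eq_abs]
      exact hG ω)
  have iW : Integrable (fun ω => ∑ b ∈ T, w b ω) P := integrable_finsetSum _ fun b hb => h.iw hb
  have e1 : ∑ b ∈ T, ∫ ω, u ω * (w b ω * clp H (Φ ω)) ∂P - ∫ ω, u ω * Φ ω ∂P =
      ∫ ω, u ω * ((∑ b ∈ T, w b ω) * clp H (Φ ω) - Φ ω) ∂P := by
    rw [← integral_finsetSum _ iuwc, ← integral_sub (integrable_finsetSum _ iuwc) iuΦ]
    refine integral_congr_ae (Filter.Eventually.of_forall fun ω => ?_)
    show ∑ b ∈ T, u ω * (w b ω * clp H (Φ ω)) - u ω * Φ ω = u ω * ((∑ b ∈ T, w b ω) * clp H (Φ ω) - Φ ω)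
    rw [← Finset.mul_sum, ← Finset.sum_mul]
    ring
  rw [e1]
  refine (abs_integral_le_integral_abs).trans ?_
  have hsq : ∀ x : ℝ, x ≤ K + x ^ 2 / K := fun x => by
    rw [← sub_nonneg]
    have e : K + x ^ 2 / K - x = ((x - K / 2) ^ 2 + 3 / 4 * K ^ 2) / K := by
      field_simp
      ring
    rw [e]
    positivity
  have hp : ∀ ω, |u ω * ((∑ b ∈ T, w b ω) * clp H (Φ ω) - Φ ω)| ≤
      G * (K * (1 - ∑ b ∈ T, w b ω) + 2 * (S ω ^ 2 / K)) := by
    intro ω
    set W := ∑ b ∈ T, w b ω with hW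
    have W1 : W ≤ 1 := h.sw ω
    have W0 : 0 ≤ W := Finset.sum_nonneg fun b hb => h.w0 b hb ω
    have S0 := h.S0 ω
    have e2 : W * clp H (Φ ω) - Φ ω = -((1 - W) * clp H (Φ ω)) - (Φ ω - clp H (Φ ω)) := by ring
    have b1 : |Φ ω - clp H (Φ ω)| ≤ S ω ^ 2 / K := by
      refine (sub_clp_le hH0 (Φ ω)).trans ?_
      have s1 : Φ ω ^ 2 ≤ S ω ^ 2 := by
        rw [← sq_abs]
        exact pow_le_pow_left₀ (abs_nonneg _) (h.le ω) 2
      exact div_le_div₀ (sq_nonneg _) s1 hK hH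
    have b2 : |(1 - W) * clp H (Φ ω)| ≤ K * (1 - W) + S ω ^ 2 / K := by
      rw [abs_mul, abs_of_nonneg (by linarith : 0 ≤ 1 - W)]
      have c1 := (abs_clp_le_abs hH0.le (Φ ω)).trans (h.le ω)
      have c2 := c1.trans (hsq (S ω))
      have c3 := mul_le_mul_of_nonneg_left c2 (by linarith : 0 ≤ 1 - W)
      have c4 : (1 - W) * (S ω ^ 2 / K) ≤ S ω ^ 2 / K := mul_le_of_le_one_left (by positivity) (by linarith)
      linarith
    rw [abs_mul]
    refine mul_le_mul (hG ω) ?_ (abs_nonneg _) G0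
    rw [e2]
    have b3 := abs_sub (-((1 - W) * clp H (Φ ω))) (Φ ω - clp H (Φ ω))
    rw [abs_neg] at b3
    linarith
  have i1 : Integrable (fun ω => G * (K * (1 - ∑ b ∈ T, w b ω) + 2 * (S ω ^ 2 / K))) P :=
    ((((integrable_const 1).sub iW).const_mul K).add ((h.iS2.div_const K).const_mul 2)).const_mul G
  have i2 : Integrable (fun ω => |u ω * ((∑ b ∈ T, w b ω) * clp H (Φ ω) - Φ ω)|) P := by
    refine i1.mono' ?_ (Filter.Eventually.of_forall fun ω => ?_)
    · refine Measurable.aestronglyMeasurable ?_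
      exact (hu.mul (((Finset.measurable_sum _ fun b hb => h.mw b hb).mul mc).sub h.mΦ)).abs
    · rw [Real.norm_eq_abs, abs_abs]
      exact hp ω
  refine (integral_mono i2 i1 hp).trans (le_of_eq ?_)
  rw [integral_const_mul]
  have e3 : ∫ ω, (K * (1 - ∑ b ∈ T, w b ω) + 2 * (S ω ^ 2 / K)) ∂P =
      ∫ ω, K * (1 - ∑ b ∈ T, w b ω) ∂P + ∫ ω, 2 * (S ω ^ 2 / K) ∂P :=
    integral_add (((integrable_const 1).sub iW).const_mul K) ((h.iS2.div_const K).const_mul 2)
  rw [e3, integral_const_mul, integral_const_mul, integral_div, integral_sub (integrable_const _) iW,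
    integral_finsetSum _ fun b hb => h.iw hb]
  unfold dnm
  simp only [integral_const, probReal_univ, smul_eq_mul, mul_one]
  ring

/-- The size of the sum over the contacts. -/
theorem ND.size [IsProbabilityMeasure P] (h0 : ND P T w Φ S) {u : Ω → ℝ} {G1 H K : ℝ} (hu : Measurable u) (hG1 : ∀ ω, |u ω| ≤ G1)
    (hG10 : 0 ≤ G1) (hK : 0 < K) (hH : K ≤ H) :
    |∑ b ∈ T, ∫ ω, u ω * (w b ω * clp H (Φ ω)) ∂P| ≤ G1 * (K + (∫ ω, S ω ^ 2 ∂P) / K) := by
  have hH0 : 0 < H := hK.trans_le hH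
  have hsq : ∀ x : ℝ, x ≤ K + x ^ 2 / K := fun x => by
    rw [← sub_nonneg]
    have e : K + x ^ 2 / K - x = ((x - K / 2) ^ 2 + 3 / 4 * K ^ 2) / K := by
      field_simp
      ring
    rw [e]
    positivity
  have mc : Measurable fun ω => clp H (Φ ω) := (measurable_clp H).comp h0.mΦ
  have ic : Integrable (fun ω => clp H (Φ ω)) P := h0.iS.mono' mc.aestronglyMeasurable
    (Filter.Eventually.of_forall fun ω => by
      rw [Real.norm_eq_abs]
      exact (abs_clp_le_abs hH0.le _).trans (h0.le ω))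
  have iwc : ∀ b ∈ T, Integrable (fun ω => w b ω * clp H (Φ ω)) P := fun b hb =>
    int_mul68 (h0.mw b hb) (fun ω => by rw [abs_of_nonneg (h0.w0 b hb ω)]; exact h0.w1 hb ω) ic
  have iuwc : ∀ b ∈ T, Integrable (fun ω => u ω * (w b ω * clp H (Φ ω))) P := fun b hb =>
    (iwc b hb).bdd_mul (c := G1) hu.aestronglyMeasurable (Filter.Eventually.of_forall fun ω => by
      rw [Real.norm_eq_abs]
      exact hG1 ω)
  rw [← integral_finsetSum _ iuwc]
  refine (abs_integral_le_integral_abs).trans ?_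
  have e : G1 * (K + (∫ ω, S ω ^ 2 ∂P) / K) = ∫ ω, G1 * (K + S ω ^ 2 / K) ∂P := by
    rw [integral_const_mul, integral_add (integrable_const _) (h0.iS2.div_const K), integral_div]
    simp
  rw [e]
  refine integral_mono (integrable_finsetSum _ iuwc).abs (((integrable_const K).add (h0.iS2.div_const K)).const_mul G1) fun ω => ?_
  show |∑ b ∈ T, u ω * (w b ω * clp H (Φ ω))| ≤ G1 * (K + S ω ^ 2 / K)
  rw [← Finset.mul_sum, ← Finset.sum_mul, abs_mul]
  refine mul_le_mul (hG1 ω) ?_ (abs_nonneg _) hG10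
  rw [abs_mul, abs_of_nonneg (Finset.sum_nonneg fun b hb => h0.w0 b hb ω)]
  have c1 := (abs_clp_le_abs hH0.le (Φ ω)).trans (h0.le ω)
  have c2 := mul_le_mul (h0.sw ω) c1 (abs_nonneg _) zero_le_one
  rw [one_mul] at c2
  exact c2.trans (hsq _)

/-- **THE LAST STEP**: from the exchange of the contacts (`err` = the error of `lec60`) to the total functional. -/
theorem lec_phi [IsProbabilityMeasure P] {T' : Finset ι'} {w' : ι' → Ω → ℝ} {Φ' S' : Ω → ℝ}
    (h : ND P T w Φ S) (h' : ND P T' w' Φ' S') {g : ℝ → ℝ} {G H K : ℝ} (hg : Measurable g) (g0 : ∀ x, 0 ≤ g x) (gG : ∀ x, g x ≤ G)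
    {B : Ω → ℝ} (hB : Measurable B) (hK : 0 < K) (hH : K ≤ H) {err : ℝ}
    (he : |(∑ b ∈ T, ∫ ω, g (B ω) * (w b ω * clp H (Φ ω)) ∂P) * (∑ b' ∈ T', ∫ ω, w' b' ω ∂P) -
        (∑ b ∈ T, ∫ ω, g (B ω) * w b ω ∂P) * (∑ b' ∈ T', ∫ ω, w' b' ω * clp H (Φ' ω) ∂P)| ≤ err) :
    |∫ ω, g (B ω) * Φ ω ∂P - (∫ ω, g (B ω) ∂P) * ∫ ω, Φ' ω ∂P| ≤
      err + G * (2 * K * (dnm P T w + dnm P T' w') + 3 * (∫ ω, S ω ^ 2 ∂P + ∫ ω, S' ω ^ 2 ∂P) / K) := by
  have G0 : 0 ≤ G := (g0 0).trans (gG 0)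
  have mg : Measurable fun ω => g (B ω) := hg.comp hB
  have bg : ∀ ω, |g (B ω)| ≤ G := fun ω => by rw [abs_of_nonneg (g0 _)]; exact gG _
  set a := ∑ b ∈ T, ∫ ω, g (B ω) * (w b ω * clp H (Φ ω)) ∂P with ha
  set W' := ∑ b' ∈ T', ∫ ω, w' b' ω ∂P with hW'
  set β := ∑ b ∈ T, ∫ ω, g (B ω) * w b ω ∂P with hβ
  set a' := ∑ b' ∈ T', ∫ ω, w' b' ω * clp H (Φ' ω) ∂P with ha'
  set M := ∫ ω, S ω ^ 2 ∂P with hM
  set M' := ∫ ω, S' ω ^ 2 ∂P with hM'
  set d := dnm P T w with hd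
  set d' := dnm P T' w' with hd'
  have M0 : 0 ≤ M := integral_nonneg fun ω => sq_nonneg _
  have M0' : 0 ≤ M' := integral_nonneg fun ω => sq_nonneg _
  have d0 : 0 ≤ d := h.d0
  have d0' : 0 ≤ d' := h'.d0
  have t1 := h.tot (H := H) mg bg hK hH
  have t2 := h'.tot (H := H) (u := fun _ => (1 : ℝ)) (G := 1) measurable_const (fun _ => by simp) hK hH
  simp only [one_mul] at t2
  have t3 := h.one_sub mg bg
  rw [← ha, ← hM, ← hd] at t1
  rw [← ha', ← hM', ← hd'] at t2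
  rw [← hβ, ← hd] at t3
  have hW'd : 1 - W' = d' := rfl
  -- sizes
  have hsq : ∀ x : ℝ, x ≤ K + x ^ 2 / K := fun x => by
    rw [← sub_nonneg]
    have e : K + x ^ 2 / K - x = ((x - K / 2) ^ 2 + 3 / 4 * K ^ 2) / K := by
      field_simp
      ring
    rw [e]
    positivity
  have d1' : d' ≤ 1 := by
    rw [← hW'd]
    have : 0 ≤ W' := Finset.sum_nonneg fun b hb => integral_nonneg fun ω => h'.w0 b hb ω
    linarith
  have d1 : d ≤ 1 := by
    have : 0 ≤ ∑ b ∈ T, ∫ ω, w b ω ∂P := Finset.sum_nonneg fun b hb => integral_nonneg fun ω => h.w0 b hb ω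
    rw [hd]
    unfold dnm
    linarith
  have hH0 : 0 < H := hK.trans_le hH
  have s1 := h.size (H := H) mg bg G0 hK hH
  rw [← ha, ← hM] at s1
  have s2 := h'.size (H := H) (u := fun _ => (1 : ℝ)) (G1 := 1) measurable_const (fun _ => by simp) zero_le_one hK hH
  simp only [one_mul] at s2
  rw [← ha', ← hM'] at s2
  have s3 : |∫ ω, g (B ω) ∂P| ≤ G := by
    refine (abs_integral_le_integral_abs).trans ?_
    have ig : Integrable (fun ω => g (B ω)) P := (integrable_const G).mono' mg.aestronglyMeasurable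
      (Filter.Eventually.of_forall fun ω => by
        rw [Real.norm_eq_abs]
        exact bg ω)
    calc ∫ ω, |g (B ω)| ∂P ≤ ∫ _ω, G ∂P := integral_mono ig.abs (integrable_const G) bg
      _ = G := by simp
  -- the chain
  set x := ∫ ω, g (B ω) * Φ ω ∂P with hx
  set y := ∫ ω, g (B ω) ∂P with hy
  set v := ∫ ω, Φ' ω ∂P with hv
  have e : x - y * v = (x - a) + a * d' + (a * W' - β * a') + (β - y) * a' + y * (a' - v) := by
    rw [← hW'd]
    ring
  rw [e]
  have r1 : |x - a| ≤ G * (K * d + 2 * M / K) := by rw [abs_sub_comm]; exact t1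
  have r2 : |a * d'| ≤ G * (K + M / K) * d' := by
    rw [abs_mul, abs_of_nonneg d0']
    exact mul_le_mul_of_nonneg_right s1 d0'
  have r4 : |(β - y) * a'| ≤ G * d * (K + M' / K) := by
    rw [abs_mul]
    exact mul_le_mul t3 s2 (abs_nonneg _) (mul_nonneg G0 d0)
  have r5 : |y * (a' - v)| ≤ G * (K * d' + 2 * M' / K) := by
    rw [abs_mul]
    exact mul_le_mul s3 t2 (abs_nonneg _) G0
  have q1 := abs_add_le ((x - a) + a * d' + (a * W' - β * a') + (β - y) * a') (y * (a' - v))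
  have q2 := abs_add_le ((x - a) + a * d' + (a * W' - β * a')) ((β - y) * a')
  have q3 := abs_add_le ((x - a) + a * d') (a * W' - β * a')
  have q4 := abs_add_le (x - a) (a * d')
  have z1 : M / K * d' ≤ M / K := mul_le_of_le_one_right (by positivity) d1'
  have z2 : M' / K * d ≤ M' / K := mul_le_of_le_one_right (by positivity) d1
  have z3 := mul_le_mul_of_nonneg_left z1 G0
  have z4 := mul_le_mul_of_nonneg_left z2 G0
  have e5 : G * (2 * K * (d + d') + 3 * (M + M') / K) = G * (K * d + 2 * M / K) + (G * K * d' + G * (M / K)) +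
      (G * K * d + G * (M' / K)) + G * (K * d' + 2 * M' / K) := by ring
  rw [e5]
  have e6 : G * (K + M / K) * d' = G * K * d' + G * (M / K * d') := by ring
  have e7 : G * d * (K + M' / K) = G * K * d + G * (M' / K * d) := by ring
  rw [e6] at r2
  rw [e7] at r4
  linarith

end last

end Pool.Agent.W_7d29a1_C1.H60
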