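import Pool.Agent.W_7d29a1_C1.CtxM68
import Pool.Agent.W_7d29a1_C1.PhiA68
import Pool.Agent.W_7d29a1_C1.LocD91

/-!
Both halves (MP_7d29a1_pr), attractor route: THE TOTAL CONTACT FUNCTIONAL OF A CONTEXT (helper68).

`Phi a b` = the sum of the contact functionals over the rows `a ≤ i < b`, `YY a b` = the sum of the weights in the frames,
`SS a b` = the sum of `KW c = KC (u_c, f_c) * ws c` with the exact logarithmic ratios of the contact: `|Phi| ≤ SS` for every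
environment. `nd68` = the structure `ND` of `PhiA68` (all moments under `EM μ`).
-/

set_option autoImplicit false

namespace Pool.Agent.W_7d29a1_C1.H60

open MeasureTheory Filter Topology Finset
open Pool.Agent.W_7d29a1_F Pool.Agent.W_7d29a1_HS
open Pool.Agent.W_7d29a1_C1.K91 (Box Grp cut zs jn wt wt_pos measurable_wt Mb wt_Mb)
open Pool.Agent.W_7d29a1_C1.K91P

noncomputable section

theorem Cx.Ok.msk {Γ : Cx} (h : Γ.Ok) : L91.Msk Γ := ⟨h.k1, h.q0, h.q1⟩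

namespace Cx

variable {Γ : Cx}

/-- The logarithmic ratio of the two weights of a contact. -/
def uc (c : ℕ × ℤ) (η : Env) : ℝ := |Real.log (wt η c.1 (c.2 - 1)) - Real.log (wt η c.1 c.2)|

/-- The logarithmic ratio of the profile at a contact. -/
def fc (Γ : Cx) (c : ℕ × ℤ) (η : Env) : ℝ := |Real.log (L91.fC Γ η c.1 (c.2 - 1)) - Real.log (L91.fC Γ η c.1 c.2)|

/-- The bound of the contact functional by the weight in the frame, exact local constant. -/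
def KW (Γ : Cx) (c : ℕ × ℤ) (η : Env) : ℝ := L91.KC Γ c.1 (uc c η) (Γ.fc c η) * Γ.ws c η

/-- The total contact functional of the rows `a ≤ i < b`. -/
def Phi (Γ : Cx) (a b : ℕ) (η : Env) : ℝ := ∑ c ∈ Γ.rows a b, Γ.C c η

/-- The sum of the weights in the frames. -/
def YY (Γ : Cx) (a b : ℕ) (η : Env) : ℝ := ∑ c ∈ Γ.rows a b, Γ.ws c η

/-- The bound of the total contact functional. -/
def SS (Γ : Cx) (a b : ℕ) (η : Env) : ℝ := ∑ c ∈ Γ.rows a b, Γ.KW c η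

theorem uc_nonneg (c : ℕ × ℤ) (η : Env) : 0 ≤ uc c η := abs_nonneg _

theorem fc_nonneg (Γ : Cx) (c : ℕ × ℤ) (η : Env) : 0 ≤ Γ.fc c η := abs_nonneg _

theorem KC_nonneg (Γ : Cx) (i : ℕ) {u X : ℝ} (hu : 0 ≤ u) (hX : 0 ≤ X) : 0 ≤ L91.KC Γ i u X :=
  L91.Kl_nonneg (Γ.p_pos i) (Real.one_le_exp hu) (Real.one_le_exp hX)

theorem KW_nonneg (h : Γ.Ok) (c : ℕ × ℤ) (η : Env) : 0 ≤ Γ.KW c η :=
  mul_nonneg (Γ.KC_nonneg c.1 (uc_nonneg c η) (Γ.fc_nonneg c η)) (ws_nonneg h c η)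

theorem SS_nonneg (h : Γ.Ok) (a b : ℕ) (η : Env) : 0 ≤ Γ.SS a b η := sum_nonneg fun c _ => KW_nonneg h c η

theorem YY_nonneg (h : Γ.Ok) (a b : ℕ) (η : Env) : 0 ≤ Γ.YY a b η := sum_nonneg fun c _ => ws_nonneg h c η

theorem abs_C_le_KW (h : Γ.Ok) {c : ℕ × ℤ} (hc : c ∈ Γ.rows 0 Γ.N) (η : Env) : |Γ.C c η| ≤ Γ.KW c η := by
  have hc' := mem_rows.1 hc
  obtain ⟨i, x⟩ := c
  exact L91.abs_C_le h.msk η hc'.1.2 (mem_Icc.2 hc'.2) le_rfl le_rfl

/-- **`|Phi| ≤ SS`** for every environment. -/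
theorem abs_Phi_le (h : Γ.Ok) {a b : ℕ} (hb : b ≤ Γ.N) (η : Env) : |Γ.Phi a b η| ≤ Γ.SS a b η :=
  (abs_sum_le_sum_abs _ _).trans (sum_le_sum fun _ hc => abs_C_le_KW h (Γ.rows_sub hb hc) η)

/-! ### Measurability -/

theorem meas_uc (c : ℕ × ℤ) : Measurable (uc c) :=
  ((Real.measurable_log.comp (measurable_wt c.1 (c.2 - 1))).sub (Real.measurable_log.comp (measurable_wt c.1 c.2))).abs

theorem meas_fC68 (Γ : Cx) (i : ℕ) (y : ℤ) : Measurable fun η : Env => L91.fC Γ η i y :=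
  pm_bw (W := wt) (p := Γ.p) measurable_wt (Γ.N - (i + 1)) (i + 1) y

theorem meas_fc (Γ : Cx) (c : ℕ × ℤ) : Measurable (Γ.fc c) :=
  ((Real.measurable_log.comp (Γ.meas_fC68 c.1 (c.2 - 1))).sub (Real.measurable_log.comp (Γ.meas_fC68 c.1 c.2))).abs

theorem KC_eq (Γ : Cx) (i : ℕ) (u X : ℝ) : L91.KC Γ i u X = 4 * (1 + 2 * u) * (Real.exp u / Γ.p i) +
    4 * (1 + X) * (max 1 (1 / Γ.p i)) ^ 2 := by
  unfold L91.KC L91.Kl
  rw [Real.log_exp, Real.log_exp]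

theorem meas_KW (Γ : Cx) (c : ℕ × ℤ) : Measurable (Γ.KW c) := by
  unfold KW
  simp only [KC_eq]
  have h1 := meas_uc c
  have h2 := Γ.meas_fc c
  exact (((measurable_const.mul (measurable_const.add (measurable_const.mul h1))).mul
    ((Real.measurable_exp.comp h1).div_const _)).add ((measurable_const.mul (measurable_const.add h2)).mul_const _)).mul
    (Γ.meas_ws c)

/-- The total contact functional is measurable. -/
theorem meas_Phi (Γ : Cx) (a b : ℕ) : Measurable (Γ.Phi a b) := Finset.measurable_sum _ fun c _ => Γ.meas_C c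

theorem meas_YY (Γ : Cx) (a b : ℕ) : Measurable (Γ.YY a b) := Finset.measurable_sum _ fun c _ => Γ.meas_ws c

theorem meas_SS (Γ : Cx) (a b : ℕ) : Measurable (Γ.SS a b) := Finset.measurable_sum _ fun c _ => Γ.meas_KW c

/-! ### Sizes -/

theorem uc_le {c : ℕ × ℤ} (h : Γ.Ok) (hc : c ∈ Γ.rows 0 Γ.N) (η : Env) : uc c η ≤ 2 * Mb 0 Γ.hi Γ.N η := by
  have hc' := mem_rows.1 hc
  have hk := h.k1
  have a1 := wt_Mb 0 Γ.hi Γ.N η c.1 (c.2 - 1) hc'.1.2 (by omega) (by unfold hi; omega)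
  have a2 := wt_Mb 0 Γ.hi Γ.N η c.1 c.2 hc'.1.2 (by omega) (by unfold hi; omega)
  have b1 := Real.log_le_log (Real.exp_pos _) a1.1
  have b2 := Real.log_le_log (wt_pos η c.1 (c.2 - 1)) a1.2
  have b3 := Real.log_le_log (Real.exp_pos _) a2.1
  have b4 := Real.log_le_log (wt_pos η c.1 c.2) a2.2
  rw [Real.log_exp] at b1 b2 b3 b4
  unfold uc
  rw [abs_le]
  constructor <;> linarith

/-- The logarithm of the profile, crude: linear in the weights of the box. -/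
theorem abs_log_fC (h : Γ.Ok) (η : Env) {i : ℕ} {y : ℤ} (h0 : 0 ≤ y) (h1 : y ≤ 1 + (Γ.N : ℤ)) :
    |Real.log (L91.fC Γ η i y)| ≤ Γ.N * Mb 0 Γ.hi Γ.N η + Γ.N * Real.log (1 + Real.exp (|Γ.s| + |Γ.h|)) := by
  have hk := h.k1
  set M := Mb 0 Γ.hi Γ.N η with hM
  have hM0 : 0 ≤ M := sum_nonneg fun a _ => abs_nonneg _
  set P := Real.exp (|Γ.s| + |Γ.h|) with hP
  have hP0 : 0 < P := Real.exp_pos _
  have hN0 : (0 : ℝ) ≤ Γ.N := Nat.cast_nonneg _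
  have hl0 : 0 ≤ Real.log (1 + P) := Real.log_nonneg (by linarith)
  by_cases hi1 : i + 1 ≤ Γ.N
  · have hwb : ∀ (j : ℕ) (z : ℤ), j < Γ.N → 0 ≤ z → z ≤ Γ.hi + Γ.N → Real.exp (-M) ≤ wt η j z ∧ wt η j z ≤ Real.exp M :=
      fun j z k1 k2 k3 => wt_Mb 0 Γ.hi Γ.N η j z k1 (by omega) k3
    have up : L91.fC Γ η i y ≤ ((1 + P) * Real.exp M) ^ (Γ.N - (i + 1)) :=
      bw_le (a := 0) (b := Γ.hi + Γ.N) (n := Γ.N) (wt_pos η) Γ.p_pos (Real.exp_pos M).le (fun j _ => Γ.p_le j)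
        (fun j z hj h3 h4 => (hwb j z hj h3 h4).2) (Γ.N - (i + 1)) (i + 1) y (by omega) h0
        (by unfold hi; push_cast [hi1]; omega)
    have dn : Real.exp (-M) ^ (Γ.N - (i + 1)) ≤ L91.fC Γ η i y :=
      le_bw (a := 0) (b := Γ.hi + Γ.N) (n := Γ.N) (wt_pos η) Γ.p_pos (Real.exp_pos (-M)).le
        (fun j z hj h3 h4 => (hwb j z hj h3 h4).1) (Γ.N - (i + 1)) (i + 1) y (by omega) h0
        (by unfold hi; omega)
    have hf : 0 < L91.fC Γ η i y := bw_pos (wt_pos η) Γ.p_pos _ _ _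
    have l1 := Real.log_le_log hf up
    have l2 := Real.log_le_log (pow_pos (Real.exp_pos _) _) dn
    rw [Real.log_pow, Real.log_mul (by positivity) (Real.exp_pos _).ne', Real.log_exp] at l1
    rw [Real.log_pow, Real.log_exp] at l2
    have hj : ((Γ.N - (i + 1) : ℕ) : ℝ) ≤ Γ.N := by exact_mod_cast (Nat.sub_le _ _)
    have hj0 : (0 : ℝ) ≤ ((Γ.N - (i + 1) : ℕ) : ℝ) := Nat.cast_nonneg _
    have m1 : ((Γ.N - (i + 1) : ℕ) : ℝ) * (Real.log (1 + P) + M) ≤ Γ.N * (Real.log (1 + P) + M) :=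
      mul_le_mul_of_nonneg_right hj (by linarith)
    have m2 : ((Γ.N - (i + 1) : ℕ) : ℝ) * M ≤ Γ.N * M := mul_le_mul_of_nonneg_right hj hM0
    have m3 : 0 ≤ (Γ.N : ℝ) * Real.log (1 + P) := mul_nonneg hN0 hl0
    rw [abs_le]
    constructor
    · linarith
    · linarith
  · have e : L91.fC Γ η i y = 1 := by
      unfold L91.fC
      rw [Nat.sub_eq_zero_of_le (by omega), bw_zero]
    rw [e, Real.log_one, abs_zero]
    have m3 : 0 ≤ (Γ.N : ℝ) * Real.log (1 + P) := mul_nonneg hN0 hl0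
    have m4 : 0 ≤ (Γ.N : ℝ) * M := mul_nonneg hN0 hM0
    linarith

theorem fc_le {c : ℕ × ℤ} (h : Γ.Ok) (hc : c ∈ Γ.rows 0 Γ.N) (η : Env) :
    Γ.fc c η ≤ 2 * (Γ.N * Mb 0 Γ.hi Γ.N η + Γ.N * Real.log (1 + Real.exp (|Γ.s| + |Γ.h|))) := by
  have hc' := mem_rows.1 hc
  have a1 := abs_log_fC h η (i := c.1) (y := c.2 - 1) (by omega) (by omega)
  have a2 := abs_log_fC h η (i := c.1) (y := c.2) (by omega) (by omega)
  unfold fc
  exact (abs_sub _ _).trans (by linarith)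

/-- The constant of the crude bounds. -/
def PP (Γ : Cx) : ℝ := Real.exp (|Γ.s| + |Γ.h|)

theorem PP_ge (Γ : Cx) : 1 ≤ Γ.PP := Real.one_le_exp (add_nonneg (abs_nonneg _) (abs_nonneg _))

theorem inv_p_le (Γ : Cx) (i : ℕ) : 1 / Γ.p i ≤ Γ.PP := by
  unfold p PP
  have h1 := neg_abs_le Γ.s
  have h2 := neg_abs_le Γ.h
  have h3 := abs_nonneg Γ.h
  rw [one_div]
  split_ifs
  · rw [← Real.exp_neg]
    exact Real.exp_le_exp.2 (by linarith)
  · rw [← Real.exp_neg]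
    exact Real.exp_le_exp.2 (by linarith)

/-- **The crude bound of one contact**: exponential in the two weights, LINEAR in the profile. -/
theorem KW_le (h : Γ.Ok) {c : ℕ × ℤ} (hc : c ∈ Γ.rows 0 Γ.N) (η : Env) :
    Γ.KW c η ≤ 4 * Real.exp (3 * uc c η) + 4 * (1 + Γ.fc c η) * Γ.PP ^ 3 := by
  have hp := Γ.p_pos c.1
  have hPP := Γ.PP_ge
  have h1 : Γ.ws c η ≤ Γ.p c.1 := ws_le h hc η
  have h0 := ws_nonneg h c η
  have hu := uc_nonneg c η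
  have hf := Γ.fc_nonneg c η
  unfold KW
  rw [KC_eq, add_mul]
  refine add_le_add ?_ ?_
  · have e1 : 1 + 2 * uc c η ≤ Real.exp (2 * uc c η) := by
      have := Real.add_one_le_exp (2 * uc c η)
      linarith
    have e2 : Real.exp (uc c η) / Γ.p c.1 * Γ.ws c η ≤ Real.exp (uc c η) := by
      rw [div_mul_eq_mul_div, div_le_iff₀ hp]
      exact mul_le_mul_of_nonneg_left h1 (Real.exp_pos _).le
    have e3 : Real.exp (3 * uc c η) = Real.exp (2 * uc c η) * Real.exp (uc c η) := by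
      rw [← Real.exp_add]
      congr 1
      ring
    rw [e3]
    calc 4 * (1 + 2 * uc c η) * (Real.exp (uc c η) / Γ.p c.1) * Γ.ws c η
        = 4 * ((1 + 2 * uc c η) * (Real.exp (uc c η) / Γ.p c.1 * Γ.ws c η)) := by ring
      _ ≤ 4 * (Real.exp (2 * uc c η) * Real.exp (uc c η)) := by
          refine mul_le_mul_of_nonneg_left ?_ (by norm_num)
          exact mul_le_mul e1 e2 (by positivity) (Real.exp_pos _).le
  · have e1 : max 1 (1 / Γ.p c.1) ≤ Γ.PP := max_le hPP (Γ.inv_p_le c.1)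
    have e2 : (max 1 (1 / Γ.p c.1)) ^ 2 ≤ Γ.PP ^ 2 := pow_le_pow_left₀ (by positivity) e1 2
    have e3 : Γ.ws c η ≤ Γ.PP := h1.trans (Γ.p_le c.1)
    calc 4 * (1 + Γ.fc c η) * (max 1 (1 / Γ.p c.1)) ^ 2 * Γ.ws c η
        = 4 * (1 + Γ.fc c η) * ((max 1 (1 / Γ.p c.1)) ^ 2 * Γ.ws c η) := by ring
      _ ≤ 4 * (1 + Γ.fc c η) * (Γ.PP ^ 2 * Γ.PP) := by
          refine mul_le_mul_of_nonneg_left ?_ (by positivity)
          exact mul_le_mul e2 e3 h0 (by positivity)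
      _ = _ := by ring

/-- The same, exponential in the weights of the box. -/
theorem KW_le_exp (h : Γ.Ok) {c : ℕ × ℤ} (hc : c ∈ Γ.rows 0 Γ.N) (η : Env) :
    Γ.KW c η ≤ (4 + 4 * (1 + Γ.PP) ^ (2 * Γ.N) * Γ.PP ^ 3) * Real.exp ((6 + 2 * Γ.N) * Mb 0 Γ.hi Γ.N η) := by
  have h1 := KW_le h hc η
  have h2 := uc_le h hc η
  have h3 := fc_le h hc η
  set M := Mb 0 Γ.hi Γ.N η with hM
  have hM0 : 0 ≤ M := sum_nonneg fun a _ => abs_nonneg _
  have hPP := Γ.PP_ge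
  have hN0 : (0 : ℝ) ≤ Γ.N := Nat.cast_nonneg _
  have e1 : Real.exp (3 * uc c η) ≤ Real.exp ((6 + 2 * Γ.N) * M) := by
    refine Real.exp_le_exp.2 ?_
    have : 0 ≤ 2 * (Γ.N : ℝ) * M := by positivity
    nlinarith
  have e2 : 1 + Γ.fc c η ≤ (1 + Γ.PP) ^ (2 * Γ.N) * Real.exp ((6 + 2 * Γ.N) * M) := by
    have a1 : 1 + Γ.fc c η ≤ Real.exp (Γ.fc c η) := by
      have := Real.add_one_le_exp (Γ.fc c η)
      linarith
    refine a1.trans ((Real.exp_le_exp.2 h3).trans ?_)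
    have a2 : Real.exp (2 * (Γ.N * M + Γ.N * Real.log (1 + Real.exp (|Γ.s| + |Γ.h|)))) =
        (1 + Γ.PP) ^ (2 * Γ.N) * Real.exp (2 * Γ.N * M) := by
      have b1 : (1 + Γ.PP) ^ (2 * Γ.N) = Real.exp ((2 * Γ.N : ℕ) * Real.log (1 + Γ.PP)) := by
        rw [Real.exp_nat_mul, Real.exp_log (by linarith)]
      rw [b1, ← Real.exp_add]
      congr 1
      unfold PP
      push_cast
      ring
    rw [a2]
    refine mul_le_mul_of_nonneg_left (Real.exp_le_exp.2 ?_) (by positivity)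
    nlinarith
  have hE := Real.exp_pos ((6 + 2 * Γ.N) * M)
  have e3 : 4 * (1 + Γ.fc c η) * Γ.PP ^ 3 ≤ 4 * ((1 + Γ.PP) ^ (2 * Γ.N) * Real.exp ((6 + 2 * Γ.N) * M)) * Γ.PP ^ 3 := by
    gcongr
  refine h1.trans ?_
  have e4 : (4 + 4 * (1 + Γ.PP) ^ (2 * Γ.N) * Γ.PP ^ 3) * Real.exp ((6 + 2 * Γ.N) * M) =
      4 * Real.exp ((6 + 2 * Γ.N) * M) + 4 * ((1 + Γ.PP) ^ (2 * Γ.N) * Real.exp ((6 + 2 * Γ.N) * M)) * Γ.PP ^ 3 := by ring
  rw [e4]
  linarith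

section law

variable {μ : Measure ℝ} [IsProbabilityMeasure μ]

theorem int_KW (hμ : Pool.Agent.W_7d29a1_h47.EM μ) (h : Γ.Ok) {c : ℕ × ℤ} (hc : c ∈ Γ.rows 0 Γ.N) :
    Integrable (Γ.KW c) (law μ) := by
  refine ((int_exp_Mb hμ 0 Γ.hi Γ.N (6 + 2 * Γ.N)).const_mul (4 + 4 * (1 + Γ.PP) ^ (2 * Γ.N) * Γ.PP ^ 3)).mono'
    (Γ.meas_KW c).aestronglyMeasurable (Eventually.of_forall fun η => ?_)
  rw [Real.norm_eq_abs, abs_of_nonneg (KW_nonneg h c η)]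
  exact KW_le_exp h hc η

theorem int_SS (hμ : Pool.Agent.W_7d29a1_h47.EM μ) (h : Γ.Ok) {a b : ℕ} (hb : b ≤ Γ.N) : Integrable (Γ.SS a b) (law μ) :=
  integrable_finsetSum _ fun _ hc => int_KW hμ h (Γ.rows_sub hb hc)

theorem int_SS2 (hμ : Pool.Agent.W_7d29a1_h47.EM μ) (h : Γ.Ok) {a b : ℕ} (hb : b ≤ Γ.N) :
    Integrable (fun η => Γ.SS a b η ^ 2) (law μ) := by
  set A : ℝ := (Γ.rows a b).card * (4 + 4 * (1 + Γ.PP) ^ (2 * Γ.N) * Γ.PP ^ 3) with hA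
  refine ((int_exp_Mb hμ 0 Γ.hi Γ.N (2 * (6 + 2 * Γ.N))).const_mul (A ^ 2)).mono'
    ((Γ.meas_SS a b).pow_const 2).aestronglyMeasurable (Eventually.of_forall fun η => ?_)
  rw [Real.norm_eq_abs, abs_of_nonneg (sq_nonneg _)]
  have h1 : Γ.SS a b η ≤ A * Real.exp ((6 + 2 * Γ.N) * Mb 0 Γ.hi Γ.N η) := by
    unfold SS
    refine (sum_le_card_nsmul _ _ _ fun c hc => KW_le_exp h (Γ.rows_sub hb hc) η).trans (le_of_eq ?_)
    rw [nsmul_eq_mul, hA]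
    ring
  have h2 := pow_le_pow_left₀ (SS_nonneg h a b η) h1 2
  refine h2.trans (le_of_eq ?_)
  rw [mul_pow, ← Real.exp_nat_mul]
  congr 2
  push_cast
  ring

theorem int_YY (h : Γ.Ok) {a b : ℕ} (hb : b ≤ Γ.N) : Integrable (Γ.YY a b) (law μ) :=
  integrable_finsetSum _ fun _ hc => int_ws h (Γ.rows_sub hb hc)

theorem YY_le (h : Γ.Ok) {a b : ℕ} (hb : b ≤ Γ.N) (η : Env) : Γ.YY a b η ≤ (Γ.rows a b).card * Γ.PP := by
  unfold YY
  refine (sum_le_card_nsmul _ _ _ fun c hc => (ws_le h (Γ.rows_sub hb hc) η).trans (Γ.p_le c.1)).trans (le_of_eq ?_)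
  rw [nsmul_eq_mul]
  rfl

theorem int_YY2 (h : Γ.Ok) {a b : ℕ} (hb : b ≤ Γ.N) : Integrable (fun η => Γ.YY a b η ^ 2) (law μ) := by
  refine (integrable_const (((Γ.rows a b).card * Γ.PP) ^ 2)).mono' ((Γ.meas_YY a b).pow_const 2).aestronglyMeasurable
    (Eventually.of_forall fun η => ?_)
  rw [Real.norm_eq_abs, abs_of_nonneg (sq_nonneg _)]
  exact pow_le_pow_left₀ (YY_nonneg h a b η) (YY_le h hb η) 2

theorem int_Phi (hμ : Pool.Agent.W_7d29a1_h47.EM μ) (h : Γ.Ok) {a b : ℕ} (hb : b ≤ Γ.N) : Integrable (Γ.Phi a b) (law μ) :=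
  integrable_finsetSum _ fun _ hc => int_C hμ h (Γ.rows_sub hb hc)

/-- **The structure `ND` of `PhiA68`** for a context: the first meetings in the rows `a ≤ i < b`, the total contact functional of the
rows `a' ≤ i < b'`. -/
theorem nd68 (hμ : Pool.Agent.W_7d29a1_h47.EM μ) (h : Γ.Ok) {a b a' b' : ℕ} (hb : b ≤ Γ.N) (hb' : b' ≤ Γ.N) :
    ND (law μ) (Γ.rows a b) Γ.w (Γ.Phi a' b') (Γ.SS a' b') where
  mw := fun c _ => Γ.meas_w c
  w0 := fun c _ η => w_nonneg h c η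
  sw := fun η => sum_w_le h η a b hb
  mΦ := Γ.meas_Phi a' b'
  mS := Γ.meas_SS a' b'
  le := fun η => abs_Phi_le h hb' η
  iS := int_SS hμ h hb'
  iS2 := int_SS2 hμ h hb'

theorem int_nmt (h : Γ.Ok) {i : ℕ} (hi : i ≤ Γ.N) : Integrable (Γ.nmt i) (law μ) := by
  refine (integrable_const (1 : ℝ)).mono' ?_ (Eventually.of_forall fun η => ?_)
  · exact ((Γ.meas_nm i).div (Γ.meas_ZM.mul Γ.meas_ZR)).aestronglyMeasurable
  · rw [Real.norm_eq_abs, abs_of_nonneg (nmt_nonneg h i η)]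
    exact nmt_le_one h η hi

/-- **The mass which does not meet in the rows `a ≤ i < b`**: the first meetings in the rows `i < a` and the pairs which have not met
up to the row `b`. -/
theorem dnm_eq (h : Γ.Ok) {a b : ℕ} (hab : a ≤ b) (hb : b ≤ Γ.N) :
    dnm (law μ) (Γ.rows a b) Γ.w = ∑ c ∈ Γ.rows 0 a, ∫ η, Γ.w c η ∂(law μ) + ∫ η, Γ.nmt b η ∂(law μ) := by
  have ha : a ≤ Γ.N := hab.trans hb
  unfold dnm
  rw [← integral_finsetSum _ fun c hc => int_w h (Γ.rows_sub hb hc), ← integral_finsetSum _ fun c hc => int_w h (Γ.rows_sub ha hc)]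
  have e1 : ∀ η, ∑ c ∈ Γ.rows a b, Γ.w c η = Γ.nmt a η - Γ.nmt b η := fun η => sum_w h η hab hb
  have e2 : ∀ η, ∑ c ∈ Γ.rows 0 a, Γ.w c η = 1 - Γ.nmt a η := fun η => by
    rw [sum_w h η (Nat.zero_le a) ha, nmt_zero h]
  simp only [e1, e2]
  rw [integral_sub (int_nmt h ha) (int_nmt h hb), integral_sub (integrable_const _) (int_nmt h ha)]
  simp
  ring

/-- **The level integrals against the total functional**: the sum over the contacts. -/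
theorem loc_Phi (hμ : Pool.Agent.W_7d29a1_h47.EM μ) (h : Γ.Ok) {a b : ℕ} (hb : b ≤ Γ.N) {g g' : ℝ → ℝ} {G : ℝ}
    (gm : Measurable g) (gb : ∀ x, |g x| ≤ G) (gm' : Measurable g') (gb' : ∀ x, |g' x| ≤ G) :
    |∑ c ∈ Γ.rows a b, ∫ η, (∫ x, g x * Γ.ct η c x) ∂(law μ) - ∫ η, g' (Γ.B η) * Γ.Phi a b η ∂(law μ)| ≤
      ∑ c ∈ Γ.rows a b, ∫ η, |(∫ x, g x * Γ.ct η c x) - g' (Γ.B η) * Γ.C c η| ∂(law μ) := by
  have i1 : ∀ c ∈ Γ.rows a b, Integrable (fun η => ∫ x, g x * Γ.ct η c x) (law μ) := fun c hc =>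
    (int_g_ct hμ h (Γ.rows_sub hb hc) gm gb).integral_prod_left
  have i2 : ∀ c ∈ Γ.rows a b, Integrable (fun η => g' (Γ.B η) * Γ.C c η) (law μ) := fun c hc =>
    (int_C hμ h (Γ.rows_sub hb hc)).bdd_mul (c := G) (gm'.comp Γ.meas_B).aestronglyMeasurable
      (Eventually.of_forall fun η => gb' _)
  have e : ∫ η, g' (Γ.B η) * Γ.Phi a b η ∂(law μ) = ∑ c ∈ Γ.rows a b, ∫ η, g' (Γ.B η) * Γ.C c η ∂(law μ) := by
    rw [← integral_finsetSum _ i2]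
    refine integral_congr_ae (Eventually.of_forall fun η => ?_)
    show g' (Γ.B η) * Γ.Phi a b η = ∑ c ∈ Γ.rows a b, g' (Γ.B η) * Γ.C c η
    rw [← mul_sum]
    rfl
  rw [e, ← sum_sub_distrib]
  refine (abs_sum_le_sum_abs _ _).trans (sum_le_sum fun c hc => ?_)
  rw [← integral_sub (i1 c hc) (i2 c hc)]
  exact abs_integral_le_integral_abs

/-- **The second moment of the bound**: from `KW ≤ K ws + R` for every environment. -/
theorem SS_sq_le (h : Γ.Ok) {a b : ℕ} (hb : b ≤ Γ.N) {K : ℝ} {R : ℕ × ℤ → Env → ℝ}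
    (hR : ∀ c ∈ Γ.rows a b, ∀ η, Γ.KW c η ≤ K * Γ.ws c η + R c η) (hR2 : ∀ c ∈ Γ.rows a b, Integrable (fun η => R c η ^ 2) (law μ)) :
    ∫ η, Γ.SS a b η ^ 2 ∂(law μ) ≤ 2 * K ^ 2 * (∫ η, Γ.YY a b η ^ 2 ∂(law μ)) +
      2 * (Γ.rows a b).card * ∑ c ∈ Γ.rows a b, ∫ η, R c η ^ 2 ∂(law μ) := by
  have hp : ∀ η, Γ.SS a b η ^ 2 ≤ 2 * K ^ 2 * Γ.YY a b η ^ 2 + 2 * (Γ.rows a b).card * ∑ c ∈ Γ.rows a b, R c η ^ 2 := by
    intro η
    have h1 : Γ.SS a b η ≤ K * Γ.YY a b η + ∑ c ∈ Γ.rows a b, R c η := by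
      unfold SS YY
      rw [mul_sum, ← sum_add_distrib]
      exact sum_le_sum fun c hc => hR c hc η
    have h0 := SS_nonneg h a b η
    have h2 : Γ.SS a b η ^ 2 ≤ (K * Γ.YY a b η + ∑ c ∈ Γ.rows a b, R c η) ^ 2 := pow_le_pow_left₀ h0 h1 2
    have h3 := sq_sum_le_card_mul_sum_sq (s := Γ.rows a b) (f := fun c => R c η)
    nlinarith [sq_nonneg (K * Γ.YY a b η - ∑ c ∈ Γ.rows a b, R c η)]
  have i1 : Integrable (fun η => 2 * K ^ 2 * Γ.YY a b η ^ 2) (law μ) := (int_YY2 h hb).const_mul _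
  have i2 : Integrable (fun η => 2 * (Γ.rows a b).card * ∑ c ∈ Γ.rows a b, R c η ^ 2) (law μ) :=
    (integrable_finsetSum _ hR2).const_mul _
  have i3 : Integrable (fun η => Γ.SS a b η ^ 2) (law μ) :=
    (i1.add i2).mono' ((Γ.meas_SS a b).pow_const 2).aestronglyMeasurable (Eventually.of_forall fun η => by
      rw [Real.norm_eq_abs, abs_of_nonneg (sq_nonneg _)]
      exact hp η)
  have i12 : Integrable (fun η => 2 * K ^ 2 * Γ.YY a b η ^ 2 + 2 * (Γ.rows a b).card * ∑ c ∈ Γ.rows a b, R c η ^ 2) (law μ) :=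
    i1.add i2
  refine (integral_mono i3 i12 hp).trans (le_of_eq ?_)
  have e : ∫ η, (2 * K ^ 2 * Γ.YY a b η ^ 2 + 2 * (Γ.rows a b).card * ∑ c ∈ Γ.rows a b, R c η ^ 2) ∂(law μ) =
      ∫ η, 2 * K ^ 2 * Γ.YY a b η ^ 2 ∂(law μ) + ∫ η, 2 * (Γ.rows a b).card * ∑ c ∈ Γ.rows a b, R c η ^ 2 ∂(law μ) :=
    integral_add i1 i2
  rw [e, integral_const_mul, integral_const_mul, integral_finsetSum _ hR2]

end law

end Cx

end

end Pool.Agent.W_7d29a1_C1.H60
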