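import Pool.Agent.W_7d29a1_C1.LocQ56
import Pool.Agent.W_7d29a1_C1.Phi68

/-!
MP_7d29a1_pr, the attractor route: LOC, STRONG FORM (helper56). The wild part has also a small second moment, and it dominates the wild
part of `KW` (the local bound of Phi68).
-/

set_option autoImplicit false

namespace Pool.Agent.W_7d29a1_C1.H56

open Finset MeasureTheory Filter Topology
open Pool.Agent.W_7d29a1_F Pool.Agent.W_7d29a1_h4g Pool.Agent.W_7d29a1_H Pool.Agent.W_7d29a1_HS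
open Pool.Agent.W_7d29a1_h47 (EM Mom)
open Pool.Agent.W_7d29a1_C1.K91 (wt wt_pos Mb)
open Pool.Agent.W_7d29a1_C1.K91P
open Pool.Agent.W_7d29a1_C1.L91
open Pool.Agent.W_7d29a1_C1.H60

noncomputable section

variable {Γ : Cx}

/-! ### `KW` -/

theorem KC_mono (i : ℕ) {u u' X X' : ℝ} (hu : 0 ≤ u) (huu : u ≤ u') (hXX : X ≤ X') :
    KC Γ i u X ≤ KC Γ i u' X' := by
  unfold KC Kl
  rw [Real.log_exp, Real.log_exp, Real.log_exp, Real.log_exp]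
  have hp := L91.p_pos (Γ := Γ) i
  have e := Real.exp_le_exp.2 huu
  refine add_le_add ?_ ?_
  · exact mul_le_mul (by linarith) (div_le_div_of_nonneg_right e hp.le) (by positivity) (by linarith)
  · exact mul_le_mul_of_nonneg_right (by linarith) (by positivity)

/-- **The local bound, up to the wild part.** -/
theorem KW_Rw (h : Γ.Ok) {P u b K : ℝ} (hP0 : 0 ≤ P) (hP : ∀ i, i < Γ.N → Γ.p i ≤ P) (hb : 0 ≤ b) {c : ℕ × ℤ}
    (hc : c ∈ Γ.rows 0 Γ.N) (hu : 0 ≤ u) (hK : (2 + 3 * b) * KC Γ c.1 u b ≤ K) (η : Env) :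
    Γ.KW c η ≤ K * Γ.ws c η + Rw Γ P u b c η := by
  obtain ⟨⟨_, h1⟩, h2, h3⟩ := Cx.mem_rows.1 hc
  have hk := h.k1
  have w0 := Cx.ws_nonneg h c η
  have k0 := KC_nonneg (Γ := Γ) c.1 hu hb
  have hK0 : 0 ≤ K := le_trans (by positivity) hK
  have hx : c.2 ∈ Icc (1 : ℤ) Γ.hi := mem_Icc.2 ⟨h2, by
    unfold Cx.hi
    omega⟩
  by_cases hη : η ∈ bad Γ u b c
  · have x0 := Xc_nonneg (Γ := Γ) hP0 η
    have a1 : Γ.KW c η ≤ KC Γ c.1 (uc c η) (Xc Γ P η) * Γ.ws c η := by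
      unfold Cx.KW
      exact mul_le_mul_of_nonneg_right (KC_mono c.1 (Cx.uc_nonneg c η) (uc_log c η) ((nb_crude h η hP0 hP h1).f c.2 hx)) w0
    have a2 := Cx.ws_le h hc η
    have a3 := KC_nonneg (Γ := Γ) c.1 (uc_nonneg c η) x0
    have a4 := mul_le_mul_of_nonneg_left a2 a3
    have a5 : Rw Γ P u b c η = Γ.p c.1 * ((2 + 3 * Xc Γ P η) * KC Γ c.1 (uc c η) (Xc Γ P η)) := Set.indicator_of_mem hη _
    have hp := L91.p_pos (Γ := Γ) c.1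
    have a6 : 0 ≤ (1 + 3 * Xc Γ P η) * (KC Γ c.1 (uc c η) (Xc Γ P η) * Γ.p c.1) := by positivity
    have a7 : 0 ≤ K * Γ.ws c η := mul_nonneg hK0 w0
    rw [a5]
    nlinarith
  · have a5 : Rw Γ P u b c η = 0 := Set.indicator_of_notMem hη _
    unfold bad at hη
    rw [Set.mem_union, not_or] at hη
    have b1 : uc c η ≤ u := not_lt.1 hη.1
    have b2 : NB Γ b η := not_not.1 hη.2
    have a1 : Γ.KW c η ≤ KC Γ c.1 u b * Γ.ws c η := by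
      unfold Cx.KW
      exact mul_le_mul_of_nonneg_right (KC_mono c.1 (Cx.uc_nonneg c η) ((uc_log c η).trans b1) ((b2.nb h1).f c.2 hx)) w0
    have a2 : KC Γ c.1 u b ≤ K := by
      refine le_trans ?_ hK
      nlinarith [mul_nonneg hb k0]
    rw [a5, add_zero]
    exact a1.trans (mul_le_mul_of_nonneg_right a2 w0)

/-! ### The second moment of the wild part -/

/-- The square of the crude size. -/
def Y2 (Γ : Cx) (P : ℝ) (c : ℕ × ℤ) (η : Env) : ℝ := (1 + Xc Γ P η) ^ 8 + Real.exp (24 * uc c η)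

theorem crude_Rw2 {P K1 : ℝ} (hP0 : 0 ≤ P) {c : ℕ × ℤ} (hK1 : 1 ≤ K1) (hK : Γ.p c.1 * (max 1 (1 / Γ.p c.1)) ^ 2 ≤ K1) {T : ℝ}
    (hT : 0 < T) (u b : ℝ) (η : Env) :
    Rw Γ P u b c η ^ 2 ≤ T * (bad Γ u b c).indicator (fun _ => 1) η + 839808 * K1 ^ 4 / T * Y2 Γ P c η := by
  have x0 := Xc_nonneg (Γ := Γ) hP0 η
  have y0 : 0 ≤ Y2 Γ P c η := by
    unfold Y2
    positivity
  by_cases hη : η ∈ bad Γ u b c
  · unfold Rw
    rw [Set.indicator_of_mem hη, Set.indicator_of_mem hη, mul_one]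
    have a1 := crude_sq (L91.p_pos (Γ := Γ) c.1) (uc_nonneg c η) x0 hK1 hK
    set X := Γ.p c.1 * ((2 + 3 * Xc Γ P η) * KC Γ c.1 (uc c η) (Xc Γ P η)) with hX
    have a1' : X ≤ 18 * K1 * ((1 + Xc Γ P η) ^ 2 + Real.exp (6 * uc c η)) := a1
    have X0 : 0 ≤ X := by
      have h1 := L91.p_pos (Γ := Γ) c.1
      have h3 := KC_nonneg (Γ := Γ) c.1 (uc_nonneg c η) x0
      rw [hX]
      positivity
    have a2 : (X ^ 2) ^ 2 ≤ 839808 * K1 ^ 4 * Y2 Γ P c η := by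
      have e : Real.exp (6 * uc c η) ^ 4 = Real.exp (24 * uc c η) := by
        rw [← Real.exp_nat_mul]
        push_cast
        ring_nf
      unfold Y2
      rw [← e]
      obtain ⟨A, hA⟩ : ∃ A : ℝ, A = (1 + Xc Γ P η) ^ 2 := ⟨_, rfl⟩
      obtain ⟨B, hB⟩ : ∃ B : ℝ, B = Real.exp (6 * uc c η) := ⟨_, rfl⟩
      have e8 : (1 + Xc Γ P η) ^ 8 = A ^ 4 := by
        rw [hA]
        ring
      rw [e8, ← hB]
      rw [← hA, ← hB] at a1'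
      have A0 : 0 ≤ A := by
        rw [hA]
        positivity
      have B0 : 0 ≤ B := by
        rw [hB]
        exact (Real.exp_pos _).le
      have h1 : (X ^ 2) ^ 2 ≤ (18 * K1 * (A + B)) ^ 4 := by
        have := pow_le_pow_left₀ X0 a1' 4
        calc (X ^ 2) ^ 2 = X ^ 4 := by ring
          _ ≤ _ := this
      have h2 : (A + B) ^ 4 ≤ 8 * (A ^ 4 + B ^ 4) := by
        have h3 : (A + B) ^ 2 ≤ 2 * (A ^ 2 + B ^ 2) := by nlinarith [sq_nonneg (A - B)]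
        have h4 : ((A + B) ^ 2) ^ 2 ≤ (2 * (A ^ 2 + B ^ 2)) ^ 2 := pow_le_pow_left₀ (sq_nonneg _) h3 2
        nlinarith [sq_nonneg (A ^ 2 - B ^ 2)]
      have k0 : 0 ≤ 104976 * K1 ^ 4 := by positivity
      calc (X ^ 2) ^ 2 ≤ (18 * K1 * (A + B)) ^ 4 := h1
        _ = 104976 * K1 ^ 4 * (A + B) ^ 4 := by ring
        _ ≤ 104976 * K1 ^ 4 * (8 * (A ^ 4 + B ^ 4)) := mul_le_mul_of_nonneg_left h2 k0
        _ = _ := by ring
    have a3 : X ^ 2 ≤ T + (X ^ 2) ^ 2 / T := by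
      rcases le_total (X ^ 2) T with h1 | h1
      · have : 0 ≤ (X ^ 2) ^ 2 / T := by positivity
        linarith
      · have h2 : X ^ 2 ≤ (X ^ 2) ^ 2 / T := by
          rw [le_div_iff₀ hT]
          nlinarith [sq_nonneg X]
        linarith
    have a4 : (X ^ 2) ^ 2 / T ≤ 839808 * K1 ^ 4 * Y2 Γ P c η / T := div_le_div_of_nonneg_right a2 hT.le
    have e5 : 839808 * K1 ^ 4 / T * Y2 Γ P c η = 839808 * K1 ^ 4 * Y2 Γ P c η / T := by ring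
    rw [e5]
    linarith
  · unfold Rw
    rw [Set.indicator_of_notMem hη, Set.indicator_of_notMem hη, mul_zero, zero_add]
    have : 0 ≤ 839808 * K1 ^ 4 / T * Y2 Γ P c η := by positivity
    simpa using this

theorem Mb_pow8 (lo hi : ℤ) (N : ℕ) (η : Env) : Mb lo hi N η ^ 8 ≤
    (((Icc (0 : ℤ) N) ×ˢ (Icc (lo - 1) (hi + N))).card : ℝ) ^ 7 * ∑ a ∈ (Icc (0 : ℤ) N) ×ˢ (Icc (lo - 1) (hi + N)), Real.exp (8 * |η a|) := by
  set S := (Icc (0 : ℤ) N) ×ˢ (Icc (lo - 1) (hi + N)) with hS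
  have h1 := pow_sum_div_card_le_sum_pow (s := S) (f := fun a => |η a|) (fun a _ => abs_nonneg _) 7
  have h2 : ∑ a ∈ S, |η a| ^ 8 ≤ ∑ a ∈ S, Real.exp (8 * |η a|) := sum_le_sum fun a _ => by
    have k1 : |η a| ≤ Real.exp |η a| := by
      have := Real.add_one_le_exp |η a|
      linarith
    calc |η a| ^ 8 ≤ Real.exp |η a| ^ 8 := pow_le_pow_left₀ (abs_nonneg _) k1 8
      _ = Real.exp (8 * |η a|) := by
        rw [← Real.exp_nat_mul]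
        push_cast
        ring_nf
  have h3 : (0 : ℝ) ≤ (S.card : ℝ) ^ 7 := by positivity
  have e : Mb lo hi N η = ∑ a ∈ S, |η a| := rfl
  rw [e]
  rcases eq_or_lt_of_le h3 with h0 | h0
  · have hc : S.card = 0 := by
      have : (S.card : ℝ) = 0 := by
        by_contra hne
        exact absurd h0.symm (pow_ne_zero 7 hne)
      exact_mod_cast this
    have hS0 : S = ∅ := card_eq_zero.1 hc
    rw [hS0]
    simp
  · rw [div_le_iff₀ h0] at h1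
    refine h1.trans ?_
    rw [mul_comm]
    exact mul_le_mul_of_nonneg_left h2 h3

variable {μ : Measure ℝ} [IsProbabilityMeasure μ]

/-- The mean of the square of the crude size. -/
theorem int_Y2 (hμ : EM μ) {P : ℝ} (hP0 : 0 ≤ P) (c : ℕ × ℤ) : Integrable (Y2 Γ P c) (law μ) ∧
    ∫ η, Y2 Γ P c η ∂(law μ) ≤ 128 * ((1 + Γ.N * Real.log (1 + P)) ^ 8 + 256 * Γ.N ^ 8 * (cd Γ ^ 8 * Mom μ 8)) + 2 * Mom μ 48 := by
  obtain ⟨S, hS⟩ : ∃ S : Finset Pt, S = (Icc (0 : ℤ) Γ.N) ×ˢ (Icc ((0 : ℤ) - 1) (Γ.hi + Γ.N)) := ⟨_, rfl⟩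
  have hcd : cd Γ = S.card := by
    rw [hS]
    rfl
  set D : Env → ℝ := fun η => 128 * ((1 + Γ.N * Real.log (1 + P)) ^ 8 + 256 * Γ.N ^ 8 * ((cd Γ) ^ 7 * ∑ a ∈ S, Real.exp (8 * |η a|))) +
    (Real.exp (48 * |η ((c.1 : ℤ), c.2 - 1)|) + Real.exp (48 * |η ((c.1 : ℤ), c.2)|)) with hD
  have iS : Integrable (fun η : Env => ∑ a ∈ S, Real.exp (8 * |η a|)) (law μ) :=
    integrable_finsetSum _ fun a _ => (int_ev hμ 8 a).1
  have iD1 : Integrable (fun η : Env => 128 * ((1 + Γ.N * Real.log (1 + P)) ^ 8 + 256 * Γ.N ^ 8 * ((cd Γ) ^ 7 *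
      ∑ a ∈ S, Real.exp (8 * |η a|)))) (law μ) :=
    ((integrable_const _).add ((iS.const_mul _).const_mul _)).const_mul _
  have iD2 : Integrable (fun η : Env => Real.exp (48 * |η ((c.1 : ℤ), c.2 - 1)|) + Real.exp (48 * |η ((c.1 : ℤ), c.2)|)) (law μ) :=
    (int_ev hμ 48 _).1.add (int_ev hμ 48 _).1
  have iD : Integrable D (law μ) := iD1.add iD2
  have pw : ∀ η, 0 ≤ Y2 Γ P c η ∧ Y2 Γ P c η ≤ D η := by
    intro η
    have x0 := Xc_nonneg (Γ := Γ) hP0 η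
    have l0 : 0 ≤ Real.log (1 + P) := Real.log_nonneg (by linarith)
    have m0 := Mb_nonneg 0 Γ.hi Γ.N η
    refine ⟨by unfold Y2; positivity, ?_⟩
    have k1 := Mb_pow8 0 Γ.hi Γ.N η
    rw [← hS, ← hcd] at k1
    have k2 : (1 + Xc Γ P η) ^ 8 ≤ 128 * ((1 + Γ.N * Real.log (1 + P)) ^ 8 + 256 * Γ.N ^ 8 * (Mb 0 Γ.hi Γ.N η) ^ 8) := by
      have e : 1 + Xc Γ P η = (1 + Γ.N * Real.log (1 + P)) + 2 * Γ.N * Mb 0 Γ.hi Γ.N η := by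
        unfold Xc
        ring
      rw [e]
      obtain ⟨x, hx⟩ : ∃ x : ℝ, x = 1 + Γ.N * Real.log (1 + P) := ⟨_, rfl⟩
      obtain ⟨y, hy⟩ : ∃ y : ℝ, y = 2 * Γ.N * Mb 0 Γ.hi Γ.N η := ⟨_, rfl⟩
      have e2 : 256 * Γ.N ^ 8 * (Mb 0 Γ.hi Γ.N η) ^ 8 = y ^ 8 := by
        rw [hy]
        ring
      rw [e2, ← hx, ← hy]
      have h1 : (x + y) ^ 2 ≤ 2 * (x ^ 2 + y ^ 2) := by nlinarith [sq_nonneg (x - y)]
      have h2 : ((x + y) ^ 2) ^ 2 ≤ (2 * (x ^ 2 + y ^ 2)) ^ 2 := pow_le_pow_left₀ (sq_nonneg _) h1 2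
      have h3 : ((x + y) ^ 2) ^ 2 ≤ 8 * (x ^ 4 + y ^ 4) := by nlinarith [sq_nonneg (x ^ 2 - y ^ 2)]
      have h4 : (((x + y) ^ 2) ^ 2) ^ 2 ≤ (8 * (x ^ 4 + y ^ 4)) ^ 2 := pow_le_pow_left₀ (sq_nonneg _) h3 2
      have h5 : (8 * (x ^ 4 + y ^ 4)) ^ 2 ≤ 128 * (x ^ 8 + y ^ 8) := by nlinarith [sq_nonneg (x ^ 4 - y ^ 4)]
      calc (x + y) ^ 8 = (((x + y) ^ 2) ^ 2) ^ 2 := by ring
        _ ≤ _ := h4.trans h5
    have k3 : Real.exp (24 * uc c η) ≤ Real.exp (48 * |η ((c.1 : ℤ), c.2 - 1)|) + Real.exp (48 * |η ((c.1 : ℤ), c.2)|) := by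
      unfold uc
      rcases le_total |η ((c.1 : ℤ), c.2 - 1)| |η ((c.1 : ℤ), c.2)| with h1 | h1
      · have h2 : Real.exp (24 * (|η ((c.1 : ℤ), c.2 - 1)| + |η ((c.1 : ℤ), c.2)|)) ≤ Real.exp (48 * |η ((c.1 : ℤ), c.2)|) :=
          Real.exp_le_exp.2 (by linarith)
        have h3 := Real.exp_pos (48 * |η ((c.1 : ℤ), c.2 - 1)|)
        linarith
      · have h2 : Real.exp (24 * (|η ((c.1 : ℤ), c.2 - 1)| + |η ((c.1 : ℤ), c.2)|)) ≤ Real.exp (48 * |η ((c.1 : ℤ), c.2 - 1)|) :=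
          Real.exp_le_exp.2 (by linarith)
        have h3 := Real.exp_pos (48 * |η ((c.1 : ℤ), c.2)|)
        linarith
    have k4 := mul_le_mul_of_nonneg_left k1 (show (0 : ℝ) ≤ 256 * Γ.N ^ 8 by positivity)
    rw [hD]
    unfold Y2
    show _ ≤ 128 * ((1 + Γ.N * Real.log (1 + P)) ^ 8 + 256 * Γ.N ^ 8 * ((cd Γ) ^ 7 * ∑ a ∈ S, Real.exp (8 * |η a|))) +
      (Real.exp (48 * |η ((c.1 : ℤ), c.2 - 1)|) + Real.exp (48 * |η ((c.1 : ℤ), c.2)|))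
    linarith
  have mY : Measurable (Y2 Γ P c) := by
    have h1 := measurable_Xc Γ P
    have h2 := measurable_uc c
    unfold Y2
    fun_prop
  have iY : Integrable (Y2 Γ P c) (law μ) := iD.mono' mY.aestronglyMeasurable (Filter.Eventually.of_forall fun η => by
    rw [Real.norm_eq_abs, abs_of_nonneg (pw η).1]
    exact (pw η).2)
  refine ⟨iY, (integral_mono iY iD fun η => (pw η).2).trans (le_of_eq ?_)⟩
  rw [hD]
  show ∫ η : Env, (128 * ((1 + Γ.N * Real.log (1 + P)) ^ 8 + 256 * Γ.N ^ 8 * ((cd Γ) ^ 7 * ∑ a ∈ S, Real.exp (8 * |η a|))) +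
    (Real.exp (48 * |η ((c.1 : ℤ), c.2 - 1)|) + Real.exp (48 * |η ((c.1 : ℤ), c.2)|))) ∂(law μ) = _
  rw [integral_add iD1 iD2, integral_add (int_ev hμ 48 _).1 (int_ev hμ 48 _).1, (int_ev hμ 48 _).2, (int_ev hμ 48 _).2, integral_const_mul,
    integral_add (integrable_const _) ((iS.const_mul _).const_mul _), integral_const_mul, integral_const_mul,
    integral_finsetSum _ fun a _ => (int_ev hμ 8 a).1]
  rw [sum_congr rfl fun a _ => (int_ev hμ 8 a).2, sum_const, nsmul_eq_mul, integral_const, ← hcd]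
  simp
  ring

/-- **The second moment of the wild part.** -/
theorem int_Rw2 (hμ : EM μ) {P K1 : ℝ} (hP0 : 0 ≤ P) {c : ℕ × ℤ} (hK1 : 1 ≤ K1) (hK : Γ.p c.1 * (max 1 (1 / Γ.p c.1)) ^ 2 ≤ K1)
    {T t : ℝ} (hT : 0 < T) (ht : 0 < t) (u b : ℝ) : Integrable (fun η => Rw Γ P u b c η ^ 2) (law μ) ∧
      ∫ η, Rw Γ P u b c η ^ 2 ∂(law μ) ≤
      T * (2 * (Real.exp (-(t * (u / 2))) * Mom μ t) + (law μ).real {η | ¬ NB Γ b η}) + 839808 * K1 ^ 4 / T *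
        (128 * ((1 + Γ.N * Real.log (1 + P)) ^ 8 + 256 * Γ.N ^ 8 * (cd Γ ^ 8 * Mom μ 8)) + 2 * Mom μ 48) := by
  obtain ⟨iY, hY⟩ := int_Y2 (Γ := Γ) hμ hP0 c
  have iB : Integrable (fun η => T * (bad Γ u b c).indicator (fun _ => (1 : ℝ)) η) (law μ) :=
    ((integrable_const (1 : ℝ)).indicator (meas_bad Γ u b c)).const_mul T
  have iD := iB.add (iY.const_mul (839808 * K1 ^ 4 / T))
  have pw := fun η => crude_Rw2 (Γ := Γ) hP0 (c := c) hK1 hK hT u b η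
  have iR : Integrable (fun η => Rw Γ P u b c η ^ 2) (law μ) :=
    iD.mono' ((measurable_Rw Γ P u b c).pow_const 2).aestronglyMeasurable
    (Filter.Eventually.of_forall fun η => by
      rw [Real.norm_eq_abs, abs_of_nonneg (sq_nonneg _)]
      exact pw η)
  refine ⟨iR, (integral_mono iR iD fun η => pw η).trans ?_⟩
  show ∫ η, (T * (bad Γ u b c).indicator (fun _ => (1 : ℝ)) η + 839808 * K1 ^ 4 / T * Y2 Γ P c η) ∂(law μ) ≤ _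
  have eI : ∫ η, (bad Γ u b c).indicator (fun _ => (1 : ℝ)) η ∂(law μ) = (law μ).real (bad Γ u b c) := by
    rw [integral_indicator_const (1 : ℝ) (meas_bad Γ u b c)]
    simp
  rw [integral_add iB (iY.const_mul _), integral_const_mul, integral_const_mul, eI]
  have hK0 : 0 ≤ 839808 * K1 ^ 4 / T := by positivity
  exact add_le_add (mul_le_mul_of_nonneg_left (prob_bad hμ ht u b c) hT.le) (mul_le_mul_of_nonneg_left hY hK0)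

/-- The constant of the second moments. -/
def D56 (μ : Measure ℝ) (s : ℝ) : ℝ :=
  839808 * (Real.exp (|s| + 1) ^ 3) ^ 4 * (128 * ((1 + Real.log (1 + Real.exp (|s| + 1))) ^ 8 + 256 * Mom μ 8) + 2 * Mom μ 48)

omit [IsProbabilityMeasure μ] in
theorem D56_nonneg {s : ℝ} : 0 ≤ D56 μ s := by
  have h1 : 0 ≤ Mom μ 8 := Mom_nonneg 8
  have h2 : 0 ≤ Mom μ 48 := Mom_nonneg 48
  unfold D56
  positivity

omit [IsProbabilityMeasure μ] in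
theorem Bd.mom2 {s c κ : ℝ} {n m : ℕ} (h : Bd μ s c κ n m Γ) : 839808 * (Real.exp (|s| + 1) ^ 3) ^ 4 *
    (128 * ((1 + Γ.N * Real.log (1 + Real.exp (|s| + 1))) ^ 8 + 256 * Γ.N ^ 8 * (cd Γ ^ 8 * Mom μ 8)) + 2 * Mom μ 48) ≤
    D56 μ s * (m : ℝ) ^ 96 := by
  have m8 : 0 ≤ Mom μ 8 := Mom_nonneg 8
  have m48 : 0 ≤ Mom μ 48 := Mom_nonneg 48
  obtain ⟨P, hP⟩ : ∃ P : ℝ, P = Real.exp (|s| + 1) := ⟨_, rfl⟩
  obtain ⟨l, hl⟩ : ∃ l : ℝ, l = Real.log (1 + P) := ⟨_, rfl⟩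
  have l0 : 0 ≤ l := by
    rw [hl, hP]
    exact Real.log_nonneg (by linarith [Real.exp_pos (|s| + 1)])
  unfold D56
  rw [← hP, ← hl]
  have x1 : (1 : ℝ) ≤ m := by
    have := h.m16
    exact_mod_cast (by omega : 1 ≤ m)
  have N4 : ((Γ.N : ℕ) : ℝ) + 1 ≤ (m : ℝ) ^ 4 := by
    have := h.N4
    exact_mod_cast this
  have N0 : (0 : ℝ) ≤ Γ.N := Nat.cast_nonneg _
  have c0 : 0 ≤ cd Γ := by
    rw [cd_eq]
    positivity
  have a1 : (1 + Γ.N * l) ^ 8 ≤ (1 + l) ^ 8 * (m : ℝ) ^ 96 := by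
    have h1 : 1 + Γ.N * l ≤ (1 + l) * (m : ℝ) ^ 4 := by nlinarith
    have h2 : (1 + Γ.N * l) ^ 8 ≤ ((1 + l) * (m : ℝ) ^ 4) ^ 8 := pow_le_pow_left₀ (by positivity) h1 8
    have h3 : ((1 + l) * (m : ℝ) ^ 4) ^ 8 = (1 + l) ^ 8 * (m : ℝ) ^ 32 := by ring
    have h4 : (m : ℝ) ^ 32 ≤ (m : ℝ) ^ 96 := pow_le_pow_right₀ x1 (by norm_num)
    rw [h3] at h2
    exact h2.trans (mul_le_mul_of_nonneg_left h4 (by positivity))
  have a2 : (Γ.N : ℝ) ^ 8 * (cd Γ ^ 8 * Mom μ 8) ≤ Mom μ 8 * (m : ℝ) ^ 96 := by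
    have h1 : (Γ.N : ℝ) ^ 8 ≤ ((m : ℝ) ^ 4) ^ 8 := pow_le_pow_left₀ N0 (by linarith) 8
    have h2 : cd Γ ^ 8 ≤ ((m : ℝ) ^ 8) ^ 8 := pow_le_pow_left₀ c0 h.cd_le 8
    have h3 := mul_le_mul h1 h2 (by positivity) (by positivity)
    have h4 := mul_le_mul_of_nonneg_right h3 m8
    have e : ((m : ℝ) ^ 4) ^ 8 * ((m : ℝ) ^ 8) ^ 8 * Mom μ 8 = Mom μ 8 * (m : ℝ) ^ 96 := by ring
    rw [e] at h4
    refine le_trans (le_of_eq ?_) h4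
    ring
  have a3 : 2 * Mom μ 48 ≤ 2 * Mom μ 48 * (m : ℝ) ^ 96 := by
    have h1 : (1 : ℝ) ≤ (m : ℝ) ^ 96 := one_le_pow₀ x1
    nlinarith
  have a4 : 128 * ((1 + Γ.N * l) ^ 8 + 256 * Γ.N ^ 8 * (cd Γ ^ 8 * Mom μ 8)) + 2 * Mom μ 48 ≤
      (128 * ((1 + l) ^ 8 + 256 * Mom μ 8) + 2 * Mom μ 48) * (m : ℝ) ^ 96 := by
    have e : 256 * (Γ.N : ℝ) ^ 8 * (cd Γ ^ 8 * Mom μ 8) = 256 * ((Γ.N : ℝ) ^ 8 * (cd Γ ^ 8 * Mom μ 8)) := by ring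
    rw [e]
    linarith
  have a5 := mul_le_mul_of_nonneg_left a4 (show 0 ≤ 839808 * (P ^ 3) ^ 4 by positivity)
  refine a5.trans (le_of_eq ?_)
  ring

/-! ### The numbers -/

omit [IsProbabilityMeasure μ] in
/-- The three terms of the mean of the wild part. -/
theorem num56 (w q : ℕ) {ε c c' C : ℝ} (hε : 0 < ε) (hc : 0 < c) (hc' : 0 < c') (hC : 0 ≤ C) {t : ℝ}
    (ht : t = ((1 + c) * (w + 17 + q) + q + 1) * (24 / ε)) : ∀ᶠ n : ℕ in atTop, ∀ m : ℕ, n ≤ m → (m : ℝ) ≤ (n : ℝ) ^ (1 + c) →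
      (m : ℝ) ^ 8 * ((m : ℝ) ^ (w + 9 + q) * (2 * (Real.exp (-(t * (ε / 12 * Real.log n / 2))) * Mom μ t) + Real.exp (-(m : ℝ) ^ c')) +
        C * (m : ℝ) ^ w / (m : ℝ) ^ (w + 9 + q)) ≤ (n : ℝ) ^ (-(q : ℝ)) := by
  have c1 : 0 < 1 + c := by linarith
  have evm : ∀ᶠ m : ℕ in atTop, (m : ℝ) ^ (w + 17 + 2 * q) * Real.exp (-(m : ℝ) ^ c') ≤ 1 / 3 ∧ 3 * C ≤ (m : ℝ) := by
    filter_upwards [ev_exp (w + 17 + 2 * q) hc', tendsto_natCast_atTop_atTop.eventually_ge_atTop (3 * C)] with m h1 h2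
    exact ⟨h1, h2⟩
  obtain ⟨m₀, hm₀⟩ := eventually_atTop.1 evm
  have evn : ∀ᶠ n : ℕ in atTop, 6 * Mom μ t ≤ (n : ℝ) := tendsto_natCast_atTop_atTop.eventually_ge_atTop _
  filter_upwards [evn, eventually_ge_atTop m₀, eventually_ge_atTop 1] with n h6 hn0 hn1 m hnm hmn
  obtain ⟨g1, g2⟩ := hm₀ m (hn0.trans hnm)
  have n0 : (0 : ℝ) < n := by exact_mod_cast hn1
  have n1 : (1 : ℝ) ≤ n := by exact_mod_cast hn1
  have mn : (n : ℝ) ≤ m := by exact_mod_cast hnm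
  have x1 : (1 : ℝ) ≤ m := n1.trans mn
  have x0 : (0 : ℝ) < m := by linarith
  have mt : 0 ≤ Mom μ t := Mom_nonneg t
  obtain ⟨u, hu⟩ : ∃ u : ℝ, u = ε / 12 * Real.log n := ⟨_, rfl⟩
  rw [← hu]
  have f1 : Real.exp (-(t * (u / 2))) = (n : ℝ) ^ (-((1 + c) * (w + 17 + q) + q + 1)) := by
    rw [Real.rpow_def_of_pos n0, hu, ht]
    congr 1
    field_simp
    ring
  have f2 : (m : ℝ) ^ (w + 17 + q) ≤ (n : ℝ) ^ ((1 + c) * (w + 17 + q)) := by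
    rw [Real.rpow_mul n0.le, ← Real.rpow_natCast]
    push_cast
    exact Real.rpow_le_rpow x0.le hmn (by positivity)
  have nq : (0 : ℝ) < (n : ℝ) ^ (-(q : ℝ)) := by positivity
  have t1 : (m : ℝ) ^ (w + 17 + q) * (2 * (Real.exp (-(t * (u / 2))) * Mom μ t)) ≤ 1 / 3 * (n : ℝ) ^ (-(q : ℝ)) := by
    rw [f1]
    have e1 : (n : ℝ) ^ ((1 + c) * (w + 17 + q)) * (n : ℝ) ^ (-((1 + c) * (w + 17 + q) + q + 1)) = (n : ℝ) ^ (-(q : ℝ)) * (n : ℝ)⁻¹ := by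
      rw [← Real.rpow_add n0, ← Real.rpow_neg_one, ← Real.rpow_add n0]
      congr 1
      ring
    have e2 : (m : ℝ) ^ (w + 17 + q) * (2 * ((n : ℝ) ^ (-((1 + c) * (w + 17 + q) + q + 1)) * Mom μ t)) ≤
        (n : ℝ) ^ ((1 + c) * (w + 17 + q)) * (2 * ((n : ℝ) ^ (-((1 + c) * (w + 17 + q) + q + 1)) * Mom μ t)) :=
      mul_le_mul_of_nonneg_right f2 (by positivity)
    refine e2.trans ?_
    have e3 : (n : ℝ) ^ ((1 + c) * (w + 17 + q)) * (2 * ((n : ℝ) ^ (-((1 + c) * (w + 17 + q) + q + 1)) * Mom μ t)) =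
        2 * Mom μ t * (n : ℝ)⁻¹ * (n : ℝ) ^ (-(q : ℝ)) := by
      rw [show (n : ℝ) ^ ((1 + c) * (w + 17 + q)) * (2 * ((n : ℝ) ^ (-((1 + c) * (w + 17 + q) + q + 1)) * Mom μ t)) =
        ((n : ℝ) ^ ((1 + c) * (w + 17 + q)) * (n : ℝ) ^ (-((1 + c) * (w + 17 + q) + q + 1))) * (2 * Mom μ t) by ring, e1]
      ring
    rw [e3]
    refine mul_le_mul_of_nonneg_right ?_ nq.le
    rw [← div_eq_mul_inv, div_le_iff₀ n0]
    linarith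
  have mq : (m : ℝ) ^ (-(q : ℝ)) ≤ (n : ℝ) ^ (-(q : ℝ)) :=
    Real.rpow_le_rpow_of_nonpos n0 mn (by
      have : (0 : ℝ) ≤ q := Nat.cast_nonneg q
      linarith)
  have mqe : (m : ℝ) ^ (-(q : ℝ)) * (m : ℝ) ^ q = 1 := by
    rw [← Real.rpow_natCast, ← Real.rpow_add x0]
    simp
  have mq0 : (0 : ℝ) < (m : ℝ) ^ (-(q : ℝ)) := by positivity
  have t2 : (m : ℝ) ^ (w + 17 + q) * Real.exp (-(m : ℝ) ^ c') ≤ 1 / 3 * (n : ℝ) ^ (-(q : ℝ)) := by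
    have e1 : (m : ℝ) ^ (w + 17 + q) * Real.exp (-(m : ℝ) ^ c') =
        (m : ℝ) ^ (-(q : ℝ)) * ((m : ℝ) ^ (w + 17 + 2 * q) * Real.exp (-(m : ℝ) ^ c')) := by
      have e2 : (m : ℝ) ^ (w + 17 + 2 * q) = (m : ℝ) ^ (w + 17 + q) * (m : ℝ) ^ q := by ring
      rw [e2]
      calc (m : ℝ) ^ (w + 17 + q) * Real.exp (-(m : ℝ) ^ c') = ((m : ℝ) ^ (-(q : ℝ)) * (m : ℝ) ^ q) *
            ((m : ℝ) ^ (w + 17 + q) * Real.exp (-(m : ℝ) ^ c')) := by rw [mqe, one_mul]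
        _ = _ := by ring
    rw [e1, mul_comm]
    exact mul_le_mul g1 mq mq0.le (by norm_num)
  have t3 : (m : ℝ) ^ 8 * (C * (m : ℝ) ^ w / (m : ℝ) ^ (w + 9 + q)) ≤ 1 / 3 * (n : ℝ) ^ (-(q : ℝ)) := by
    have e1 : (m : ℝ) ^ 8 * (C * (m : ℝ) ^ w / (m : ℝ) ^ (w + 9 + q)) = C / m * (m : ℝ) ^ (-(q : ℝ)) := by
      have e2 : (m : ℝ) ^ (w + 9 + q) = (m : ℝ) ^ 8 * (m : ℝ) ^ w * m * (m : ℝ) ^ q := by ring
      have e3 : (m : ℝ) ^ (-(q : ℝ)) = ((m : ℝ) ^ q)⁻¹ := by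
        rw [Real.rpow_neg x0.le, Real.rpow_natCast]
      rw [e2, e3]
      have := pow_pos x0 q
      have := pow_pos x0 w
      field_simp
    rw [e1]
    refine mul_le_mul ?_ mq mq0.le (by norm_num)
    rw [div_le_iff₀ x0]
    linarith
  have e0 : (m : ℝ) ^ 8 * ((m : ℝ) ^ (w + 9 + q) * (2 * (Real.exp (-(t * (u / 2))) * Mom μ t) + Real.exp (-(m : ℝ) ^ c')) +
      C * (m : ℝ) ^ w / (m : ℝ) ^ (w + 9 + q)) =
      (m : ℝ) ^ (w + 17 + q) * (2 * (Real.exp (-(t * (u / 2))) * Mom μ t)) + (m : ℝ) ^ (w + 17 + q) * Real.exp (-(m : ℝ) ^ c') +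
        (m : ℝ) ^ 8 * (C * (m : ℝ) ^ w / (m : ℝ) ^ (w + 9 + q)) := by
    have e2 : (m : ℝ) ^ (w + 17 + q) = (m : ℝ) ^ 8 * (m : ℝ) ^ (w + 9 + q) := by ring
    rw [e2]
    ring
  rw [e0]
  linarith

/-- **LOC, strong form.** -/
theorem loc56s {s c c₀ C₀ : ℝ} {n₀ : ℕ} (h : In μ s c₀ C₀ n₀) (hN : Nbr56 μ s) {ε : ℝ} (hε : 0 < ε) (hc : 0 < c) :
    ∃ κ₀ > (0 : ℝ), ∀ κ ≤ κ₀, ∀ δ : ℝ, 0 ≤ δ → δ ≤ 1 → ∀ A : ℝ, ∀ᶠ n : ℕ in atTop, ∀ Γ : Cx, Adm μ s c δ κ n Γ →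
      ∃ R : ℕ × ℤ → Env → ℝ, (∀ d, Measurable (R d)) ∧ (∀ d η, 0 ≤ R d η) ∧
        (∀ d ∈ Γ.rows 0 Γ.N, Integrable (R d) (law μ)) ∧ (∑ d ∈ Γ.rows 0 Γ.N, ∫ η, R d η ∂(law μ) ≤ (n : ℝ) ^ (-A)) ∧
        (∀ d ∈ Γ.rows 0 Γ.N, Integrable (fun η => R d η ^ 2) (law μ)) ∧
        (∑ d ∈ Γ.rows 0 Γ.N, ∫ η, R d η ^ 2 ∂(law μ) ≤ (n : ℝ) ^ (-A)) ∧
        ∀ d ∈ Γ.rows 0 Γ.N, ∀ η, |Γ.C d η| ≤ (n : ℝ) ^ ε * Γ.ws d η + R d η ∧
          A56 Γ d η ≤ (n : ℝ) ^ ε * Γ.ws d η + R d η ∧ Γ.KW d η ≤ (n : ℝ) ^ ε * Γ.ws d η + R d η ∧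
          ∀ g : ℝ → ℝ, Measurable g → ∀ L : ℝ, 0 ≤ L → (∀ x y, |g x - g y| ≤ L * |x - y|) → ∀ a0 : ℝ,
            Integrable (fun a => g (a - a0) * Γ.ct η d a) ∧
            |(∫ a, g (a - a0) * Γ.ct η d a) - g (Γ.B η - a0) * Γ.C d η| ≤ L * ((n : ℝ) ^ ε * Γ.ws d η + R d η) := by
  have hμ := h.em
  have c1 : 0 < 1 + c := by linarith
  obtain ⟨κ₀, hκ₀, c', hc', hE⟩ := hN (ε / (8 * (1 + c))) (by positivity)
  refine ⟨κ₀, hκ₀, fun κ hκ δ hδ0 hδ1 A => ?_⟩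
  obtain ⟨P, hP⟩ : ∃ P : ℝ, P = Real.exp (|s| + 1) := ⟨_, rfl⟩
  obtain ⟨q, hq⟩ : ∃ q : ℕ, q = ⌈A⌉₊ := ⟨_, rfl⟩
  have hqA : A ≤ q := by
    rw [hq]
    exact Nat.le_ceil A
  have P1 : 1 ≤ P := by
    rw [hP]
    exact Real.one_le_exp (by positivity)
  obtain ⟨m₀, hm₀⟩ := eventually_atTop.1 hE
  have ev60 : ∀ᶠ n : ℕ in atTop, 60 * Real.exp (|s| + 1) ^ 2 ≤ (n : ℝ) ^ (ε / 2) :=
    ((tendsto_rpow_atTop (by positivity)).comp tendsto_natCast_atTop_atTop).eventually_ge_atTop _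
  obtain ⟨t1, ht1⟩ : ∃ t : ℝ, t = ((1 + c) * ((48 : ℕ) + 17 + q) + q + 1) * (24 / ε) := ⟨_, rfl⟩
  obtain ⟨t2, ht2⟩ : ∃ t : ℝ, t = ((1 + c) * ((96 : ℕ) + 17 + q) + q + 1) * (24 / ε) := ⟨_, rfl⟩
  have t10 : 0 < t1 := by
    rw [ht1]
    positivity
  have t20 : 0 < t2 := by
    rw [ht2]
    positivity
  filter_upwards [num56 (μ := μ) 48 q hε hc hc' (C56_nonneg (μ := μ) (s := s)) ht1,
    num56 (μ := μ) 96 q hε hc hc' (D56_nonneg (μ := μ) (s := s)) ht2, ev60, wd_le56 h, eventually_ge_atTop m₀,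
    eventually_ge_atTop 16] with n hn1 hn2 h60 hw hn0 hn16 Γ hΓ
  obtain ⟨m, B⟩ := Bd.of_adm hΓ hδ0 hδ1 hn16 hw
  have hok : Γ.Ok := hΓ.ok
  have n1' : 1 ≤ n := by omega
  have n0 : (0 : ℝ) < n := by exact_mod_cast n1'
  have n1 : (1 : ℝ) ≤ n := by exact_mod_cast n1'
  have mn : (n : ℝ) ≤ m := by exact_mod_cast B.nm
  have x1 : (1 : ℝ) ≤ m := n1.trans mn
  have x0 : (0 : ℝ) < m := by linarith
  have g3 := hm₀ m (hn0.trans B.nm)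
  obtain ⟨b, hb⟩ : ∃ b : ℝ, b = (n : ℝ) ^ (ε / 8) := ⟨_, rfl⟩
  obtain ⟨u, hu⟩ : ∃ u : ℝ, u = ε / 12 * Real.log n := ⟨_, rfl⟩
  have b1 : 1 ≤ b := by
    rw [hb]
    exact Real.one_le_rpow n1 (by positivity)
  have u0 : 0 ≤ u := by
    rw [hu]
    have := Real.log_nonneg n1
    positivity
  have hP0 : 0 ≤ P := by linarith
  have hPp : ∀ i, i < Γ.N → Γ.p i ≤ P := fun i _ => by
    rw [hP]
    exact B.p_le i
  have hK : ∀ i, (2 + 3 * b) * KC Γ i u b ≤ (n : ℝ) ^ ε := fun i => by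
    rw [hb, hu]
    exact B.K hε n1' h60 i
  have hmb : (m : ℝ) ^ (ε / (8 * (1 + c))) ≤ b := by
    have h1 : (m : ℝ) ^ (ε / (8 * (1 + c))) ≤ ((n : ℝ) ^ (1 + c)) ^ (ε / (8 * (1 + c))) :=
      Real.rpow_le_rpow x0.le B.mn (by positivity)
    refine h1.trans (le_of_eq ?_)
    rw [← Real.rpow_mul n0.le, hb]
    congr 1
    field_simp
  have hNB : (law μ).real {η | ¬ NB Γ b η} ≤ Real.exp (-(m : ℝ) ^ c') := by
    refine (measureReal_mono (B.nbs hmb) (measure_ne_top _ _)).trans (g3 Γ.M B.M Γ.h ?_)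
    exact B.t.trans (Real.rpow_le_rpow_of_exponent_le x1 hκ)
  have e9 : (n : ℝ) ^ (-(q : ℝ)) ≤ (n : ℝ) ^ (-A) := Real.rpow_le_rpow_of_exponent_le n1 (by linarith)
  -- the first moment
  have T10 : (0 : ℝ) < (m : ℝ) ^ (48 + 9 + q) := by positivity
  have T20 : (0 : ℝ) < (m : ℝ) ^ (96 + 9 + q) := by positivity
  have cc := C56_nonneg (μ := μ) (s := s)
  have dd := D56_nonneg (μ := μ) (s := s)
  have mt1 : 0 ≤ Mom μ t1 := Mom_nonneg t1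
  have mt2 : 0 ≤ Mom μ t2 := Mom_nonneg t2
  have one : ∀ d ∈ Γ.rows 0 Γ.N, ∫ η, Rw Γ P u b d η ∂(law μ) ≤
      (m : ℝ) ^ (48 + 9 + q) * (2 * (Real.exp (-(t1 * (u / 2))) * Mom μ t1) + Real.exp (-(m : ℝ) ^ c')) +
        C56 μ s * (m : ℝ) ^ 48 / (m : ℝ) ^ (48 + 9 + q) := by
    intro d hd
    have k1 := (int_Rw (Γ := Γ) hμ hP0 (c := d) (K1 := P ^ 3) (one_le_pow₀ P1) (by rw [hP]; exact B.K1 d.1) T10 t10 u b).2
    refine k1.trans (add_le_add (mul_le_mul_of_nonneg_left (add_le_add le_rfl hNB) T10.le) ?_)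
    have k2 := B.mom
    rw [← hP] at k2
    have k3 := div_le_div_of_nonneg_right k2 T10.le
    refine le_trans (le_of_eq ?_) k3
    ring
  have hsum : ∑ d ∈ Γ.rows 0 Γ.N, ∫ η, Rw Γ P u b d η ∂(law μ) ≤ (n : ℝ) ^ (-A) := by
    refine (sum_le_sum one).trans ?_
    rw [sum_const, nsmul_eq_mul]
    refine (mul_le_mul_of_nonneg_right B.card (by positivity)).trans (le_trans ?_ e9)
    rw [hu]
    exact hn1 m B.nm B.mn
  -- the second moment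
  have two : ∀ d ∈ Γ.rows 0 Γ.N, ∫ η, Rw Γ P u b d η ^ 2 ∂(law μ) ≤
      (m : ℝ) ^ (96 + 9 + q) * (2 * (Real.exp (-(t2 * (u / 2))) * Mom μ t2) + Real.exp (-(m : ℝ) ^ c')) +
        D56 μ s * (m : ℝ) ^ 96 / (m : ℝ) ^ (96 + 9 + q) := by
    intro d hd
    have k1 := (int_Rw2 (Γ := Γ) hμ hP0 (c := d) (K1 := P ^ 3) (one_le_pow₀ P1) (by rw [hP]; exact B.K1 d.1) T20 t20 u b).2
    refine k1.trans (add_le_add (mul_le_mul_of_nonneg_left (add_le_add le_rfl hNB) T20.le) ?_)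
    have k2 := B.mom2 (μ := μ)
    rw [← hP] at k2
    have k3 := div_le_div_of_nonneg_right k2 T20.le
    refine le_trans (le_of_eq ?_) k3
    ring
  have hsum2 : ∑ d ∈ Γ.rows 0 Γ.N, ∫ η, Rw Γ P u b d η ^ 2 ∂(law μ) ≤ (n : ℝ) ^ (-A) := by
    refine (sum_le_sum two).trans ?_
    rw [sum_const, nsmul_eq_mul]
    refine (mul_le_mul_of_nonneg_right B.card (by positivity)).trans (le_trans ?_ e9)
    rw [hu]
    exact hn2 m B.nm B.mn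
  refine ⟨Rw Γ P u b, measurable_Rw Γ P u b, Rw_nonneg hP0 u b, fun d _ => ?_, hsum, fun d _ => ?_, hsum2, fun d hd η => ?_⟩
  · exact (int_Rw (Γ := Γ) hμ hP0 (c := d) (K1 := P ^ 3) (one_le_pow₀ P1) (by rw [hP]; exact B.K1 d.1) T10 t10 u b).1
  · exact (int_Rw2 (Γ := Γ) hμ hP0 (c := d) (K1 := P ^ 3) (one_le_pow₀ P1) (by rw [hP]; exact B.K1 d.1) T20 t20 u b).1
  · have a1 := A56_Rw hok hP0 hPp (by linarith) hd u0 (hK d.1) η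
    refine ⟨(abs_C_A56 d η).trans a1, a1, KW_Rw hok hP0 hPp (by linarith) hd u0 (hK d.1) η, fun g hg L hL0 hL a0 => ?_⟩
    exact loc_Rw hok hP0 hPp (by linarith) hd u0 (hK d.1) η hg hL0 hL a0

end

end Pool.Agent.W_7d29a1_C1.H56
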