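import Pool.Agent.W_7d29a1_C1.LocI8
import Pool.Agent.W_7d29a1_C1.LocS56
import Pool.Agent.W_7d29a1_C1.AsmP68
import Pool.Agent.W_7d29a1_C1.EEl8

/-!
MP_7d29a1_pr, attractor route (helper8): THE WHOLE ASSEMBLY. The loss of memory at one site (`LMR54`) from two inputs: the second moment
of the frame weights (`YsqP68`) and the result of the exchange (`LecP68`).
-/

set_option autoImplicit false

namespace Pool.Agent.W_7d29a1_C1.H8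

open MeasureTheory Filter Topology
open Pool.Agent.W_7d29a1_F Pool.Agent.W_7d29a1_h4g Pool.Agent.W_7d29a1_H Pool.Agent.W_7d29a1_HS
open Pool.Agent.W_7d29a1_C1.H54 (LMR54)
open Pool.Agent.W_7d29a1_C1.H60 (Cx Adm LecP68 SqP68 YsqP68 KwP68 sqP68 xsP68 phiP68)
open Pool.Agent.W_7d29a1_C1.H56 (Nbr56 A56)

variable {μ : Measure ℝ} [IsProbabilityMeasure μ] {s : ℝ} {c C : ℝ} {n₀ : ℕ}

theorem kwP8_of56 (h : In μ s c C n₀) (hN : Nbr56 μ s) : KwP68 μ s := by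
  intro ε hε
  refine ⟨1 / 512, by norm_num, fun c' hc' _ δ hδ hδc => ?_⟩
  obtain ⟨κ₀, hκ₀, H⟩ := H56.loc56s h hN hε hc'
  refine ⟨κ₀, hκ₀, fun κ _ hκ => ?_⟩
  filter_upwards [H κ hκ δ hδ.le (by linarith) 16] with n hn Γ hA
  obtain ⟨R, -, -, -, -, iR2, sR2, hR⟩ := hn Γ hA
  exact ⟨R, fun b hb η => (hR b hb η).2.2.1, iR2, sR2⟩

/-- **THE WHOLE ASSEMBLY**: the loss of memory at one site from (Y) and the result of the exchange. -/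
theorem lmr_all8 (h : In μ s c C n₀) (hL : ∀ ε : ℝ, 0 < ε → ∃ n₁ : ℕ, ∀ n : ℕ, n₁ ≤ n → wd μ s n ≤ (n : ℝ) ^ ε * EE μ s n ^ 2)
    (hU : ∀ ε : ℝ, 0 < ε → ∃ n₁ : ℕ, ∀ n : ℕ, n₁ ≤ n → EE μ s n ^ 2 ≤ (n : ℝ) ^ ε * wd μ s n) (hY : YsqP68 μ s)
    (hLec : LecP68 μ s) : LMR54 μ s := by
  have hw : WlG8 μ s := by
    obtain ⟨n₁, h1⟩ := Pool.Agent.W_7d29a1_HZ.wd'_eq h
    exact ⟨n₁, fun n hn => (h1 n hn).2.2⟩
  exact lmrD8 h.em (ee9_8 hL hw) (locP8 h hL hU) (xsP68 hY)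
    (phiP68 h hU hLec (sqP68 hY (kwP8_of56 h (Nbr78.nbr78 h hL hU))))

end Pool.Agent.W_7d29a1_C1.H8
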