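import Pool.Agent.W_7d29a1_C1.AsmP68

/-!
Both halves (MP_7d29a1_pr), attractor route: THE NUMERIC STEP OF THE ASSEMBLY FOR AN ARBITRARY TOTAL FUNCTIONAL (helper68).

`Ψ Γ` with `|Ψ Γ| ≤ S Γ`; instances: the sum of all contact functionals (`Cx.Phi 0 N`), the corrected sum (mirror frames).
-/

set_option autoImplicit false

namespace Pool.Agent.W_7d29a1_C1.H60

open MeasureTheory Filter Topology Finset
open Pool.Agent.W_7d29a1_F Pool.Agent.W_7d29a1_H Pool.Agent.W_7d29a1_HS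
open Pool.Agent.W_7d29a1_h47 (EM)
open Pool.Agent.W_7d29a1_C1.K91 (wt wt_pos)
open Pool.Agent.W_7d29a1_C1.K91P
open Pool.Agent.W_7d29a1_C1.H8 (tri wgt_tri tri_le)
open Pool.Agent.W_7d29a1_C1.K99 (wd_half99 alive99)

noncomputable section

/-! ### The statements -/

/-- The total functional and its bound. -/
structure TF (μ : Measure ℝ) (Ψ S : Cx → Env → ℝ) : Prop where
  mP : ∀ Γ : Cx, Γ.Ok → Measurable (Ψ Γ)
  mS : ∀ Γ : Cx, Γ.Ok → Measurable (S Γ)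
  le : ∀ Γ : Cx, Γ.Ok → ∀ η, |Ψ Γ η| ≤ S Γ η
  iS : ∀ Γ : Cx, Γ.Ok → Integrable (S Γ) (law μ)
  iS2 : ∀ Γ : Cx, Γ.Ok → Integrable (fun η => S Γ η ^ 2) (law μ)

/-- **THE RESULT OF THE EXCHANGE**: the contacts of a context against the contacts of the reference context, contact functional
`w * clp H Ψ`. The rows `d ≤ i < k Γ` of the contacts can be chosen. -/
def LecQ (μ : Measure ℝ) (s : ℝ) (Ψ S : Cx → Env → ℝ) : Prop :=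
  ∀ e : ℝ, 0 < e → e ≤ 1 / 32 → ∃ c₀ : ℝ, 0 < c₀ ∧ ∀ c : ℝ, 0 < c → c ≤ c₀ → ∀ δ : ℝ, 0 < δ → δ ≤ c / 16 → ∃ κ₀ : ℝ, 0 < κ₀ ∧
    ∀ κ : ℝ, 0 < κ → κ ≤ κ₀ → ∀ᶠ n : ℕ in atTop, ∃ (H : ℝ) (d : ℕ) (k : Cx → ℕ), (n : ℝ) ≤ H ∧ d ≤ ⌈(n : ℝ) ^ e⌉₊ ∧
      (∀ Γ : Cx, Adm μ s c δ κ n Γ → d ≤ k Γ ∧ k Γ ≤ Γ.N ∧ Γ.M + Γ.N ≤ 2 * k Γ) ∧ ∀ Γ : Cx, Adm μ s c δ κ n Γ →
      ∀ (g : ℝ → ℝ) (G L : ℝ), Measurable g → (∀ x, 0 ≤ g x) → (∀ x, g x ≤ G) → (∀ x y, |g x - g y| ≤ L * |x - y|) →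
      ∀ K : ℝ, 0 < K → K ≤ n →
        |(∑ b ∈ Γ.rows d (k Γ), ∫ η, g (Γ.B η) * (Γ.w b η * clp H (Ψ Γ η)) ∂(law μ)) *
            (∑ b' ∈ (ref μ s n).rows d (k (ref μ s n)), ∫ η, (ref μ s n).w b' η ∂(law μ)) -
          (∑ b ∈ Γ.rows d (k Γ), ∫ η, g (Γ.B η) * Γ.w b η ∂(law μ)) *
            (∑ b' ∈ (ref μ s n).rows d (k (ref μ s n)),
              ∫ η, (ref μ s n).w b' η * clp H (Ψ (ref μ s n) η) ∂(law μ))| ≤
        (L * EE μ s n + G) * (n : ℝ) ^ (-c₀) *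
            (2 + ∫ η, S Γ η ∂(law μ) + ∫ η, S (ref μ s n) η ∂(law μ)) +
          G * ((2 + 2 * K) * (n : ℝ) ^ (-c₀) +
            (∫ η, S Γ η ^ 2 ∂(law μ) + ∫ η, S (ref μ s n) η ^ 2 ∂(law μ)) / K)

/-- **THE SECOND MOMENT** of the bound of the total contact functional. -/
def SqQ (μ : Measure ℝ) (s : ℝ) (S : Cx → Env → ℝ) : Prop :=
  ∀ ε : ℝ, 0 < ε → ∃ c₀ : ℝ, 0 < c₀ ∧ ∀ c : ℝ, 0 < c → c ≤ c₀ → ∀ δ : ℝ, 0 < δ → δ ≤ c / 16 → ∃ κ₀ : ℝ, 0 < κ₀ ∧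
    ∀ κ : ℝ, 0 < κ → κ ≤ κ₀ → ∀ᶠ n : ℕ in atTop, ∀ Γ : Cx, Adm μ s c δ κ n Γ → ∫ η, S Γ η ^ 2 ∂(law μ) ≤ (n : ℝ) ^ ε

/-- **THE TOTAL FUNCTIONAL**: up to the error its mean against a function of the balance point is `v` times the mean of the function. -/
def PhiQ (μ : Measure ℝ) (s : ℝ) (Ψ : Cx → Env → ℝ) : Prop :=
  ∀ e : ℝ, 0 < e → e ≤ 1 / 32 → ∃ c₀ : ℝ, 0 < c₀ ∧ ∀ c : ℝ, 0 < c → c ≤ c₀ → ∀ δ : ℝ, 0 < δ → δ ≤ c / 16 → ∃ κ₀ : ℝ, 0 < κ₀ ∧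
    ∀ κ : ℝ, 0 < κ → κ ≤ κ₀ → ∀ᶠ n : ℕ in atTop, ∃ v : ℝ, ∀ Γ : Cx, Adm μ s c δ κ n Γ → ∀ a0 : ℝ,
      |(∫ η, tri ((n : ℝ) ^ (-c) * EE μ s n) (Γ.B η - a0) * Ψ Γ η ∂(law μ)) -
        v * ∫ η, tri ((n : ℝ) ^ (-c) * EE μ s n) (Γ.B η - a0) ∂(law μ)| ≤
        1 / 4 * ((n : ℝ) ^ (-c) / EE μ s n) + (n : ℝ) ^ (2 * e + c) / EE μ s n * Γ.near μ ⌈(n : ℝ) ^ e⌉₊

variable {μ : Measure ℝ} [IsProbabilityMeasure μ] {s : ℝ}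

/-- The data of one context. -/
theorem TF.nd {Ψ S : Cx → Env → ℝ} (hT : TF μ Ψ S) {Γ : Cx} (h : Γ.Ok) {a b : ℕ} (hb : b ≤ Γ.N) :
    ND (law μ) (Γ.rows a b) Γ.w (Ψ Γ) (S Γ) where
  mw := fun c _ => Γ.meas_w c
  w0 := fun c _ η => Cx.w_nonneg h c η
  sw := fun η => Cx.sum_w_le h η a b hb
  mΦ := hT.mP Γ h
  mS := hT.mS Γ h
  le := hT.le Γ h
  iS := hT.iS Γ h
  iS2 := hT.iS2 Γ h

/-- The sum of all contact functionals. -/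
theorem tf68 (hμ : EM μ) : TF μ (fun Γ => Γ.Phi 0 Γ.N) (fun Γ => Γ.SS 0 Γ.N) where
  mP := fun Γ _ => Γ.meas_Phi 0 Γ.N
  mS := fun Γ _ => Γ.meas_SS 0 Γ.N
  le := fun _ h η => Cx.abs_Phi_le h le_rfl η
  iS := fun _ h => Cx.int_SS hμ h le_rfl
  iS2 := fun _ h => Cx.int_SS2 hμ h le_rfl

/-- **THE NUMERIC STEP.** -/
theorem phiQ68 {c₁ C : ℝ} {n₀ : ℕ} (h : In μ s c₁ C n₀)
    (hU : ∀ ε : ℝ, 0 < ε → ∃ n₁ : ℕ, ∀ n : ℕ, n₁ ≤ n → EE μ s n ^ 2 ≤ (n : ℝ) ^ ε * wd μ s n)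
    {Ψ S : Cx → Env → ℝ} (hT : TF μ Ψ S)
    (hL : LecQ μ s Ψ S) (hS : SqQ μ s S) : PhiQ μ s Ψ := by
  intro e he he1
  obtain ⟨cL, hcL, hL⟩ := hL e he he1
  obtain ⟨a, had⟩ : ∃ a : ℝ, a = min cL (min (1 / 16) e) := ⟨_, rfl⟩
  have ha : 0 < a := by
    rw [had]
    exact lt_min hcL (lt_min (by norm_num) he)
  have haL : a ≤ cL := by rw [had]; exact min_le_left _ _
  have ha1 : a ≤ 1 / 16 := by rw [had]; exact (min_le_right _ _).trans (min_le_left _ _)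
  have hae : a ≤ e := by rw [had]; exact (min_le_right _ _).trans (min_le_right _ _)
  obtain ⟨cS, hcS, hS⟩ := hS (a / 16) (by linarith)
  refine ⟨min (a / 32) cS, lt_min (by linarith) hcS, fun c hc hcc δ hδ hδc => ?_⟩
  have hca : c ≤ a / 32 := hcc.trans (min_le_left _ _)
  have hcS' : c ≤ cS := hcc.trans (min_le_right _ _)
  obtain ⟨κ₁, hκ₁, hL⟩ := hL c hc (by linarith) δ hδ hδc
  obtain ⟨κ₂, hκ₂, hS⟩ := hS c hc hcS' δ hδ hδc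
  refine ⟨min κ₁ κ₂, lt_min hκ₁ hκ₂, fun κ hκ hκκ => ?_⟩
  have ev1 : ∀ᶠ n : ℕ in atTop, (112 : ℝ) ≤ (n : ℝ) ^ (a / 8) :=
    ((tendsto_rpow_atTop (by linarith : 0 < a / 8)).comp tendsto_natCast_atTop_atTop).eventually_ge_atTop _
  have ev2 : ∀ᶠ n : ℕ in atTop, (2 : ℝ) ≤ (n : ℝ) ^ δ :=
    ((tendsto_rpow_atTop hδ).comp tendsto_natCast_atTop_atTop).eventually_ge_atTop _
  have ev3 : ∀ᶠ n : ℕ in atTop, (4 : ℝ) ≤ (n : ℝ) ^ (1 / 4 : ℝ) :=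
    ((tendsto_rpow_atTop (by norm_num : (0 : ℝ) < 1 / 4)).comp tendsto_natCast_atTop_atTop).eventually_ge_atTop _
  filter_upwards [hL κ hκ (hκκ.trans (min_le_left _ _)), hS κ hκ (hκκ.trans (min_le_right _ _)), ev1, ev2, ev3,
    wd_half99 h hU (e := 1 / 24) (by norm_num), alive99 h hU,
    H83.near83 (c := c) (κ := κ) h.tE he (by linarith) (ε := 1) (by norm_num) hδ.le, eventually_ge_atTop 2]
    with n hL hS hbig h2 h4 hwd hal hnear hn2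
  obtain ⟨H, d', k, hH, hdd, hk, hL⟩ := hL
  have hn1 : 1 ≤ n := by omega
  have hnR : (1 : ℝ) ≤ n := by exact_mod_cast hn1
  have n0 : (0 : ℝ) < n := by linarith
  have hE1 : 1 ≤ EE μ s n := one_le_EE (μ := μ) (s := s) n
  have E0 : 0 < EE μ s n := by linarith
  have hw1 : 1 ≤ wd μ s n := le_trans (Real.one_le_rpow hnR (by norm_num)) hwd
  obtain ⟨d, hd⟩ : ∃ d : ℕ, d = ⌈(n : ℝ) ^ e⌉₊ := ⟨_, rfl⟩
  rw [← hd] at hdd hnear ⊢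
  have hR := ref_adm (μ := μ) (s := s) (c := c) (κ := κ) hn1 hc.le hw1 h2
  obtain ⟨R, hRd⟩ : ∃ R : Cx, R = ref μ s n := ⟨_, rfl⟩
  rw [← hRd] at hL hR
  -- the position of `d`
  have hdw : d < ⌈wd μ s n⌉₊ := by
    have h5 : (d : ℝ) ≤ (n : ℝ) ^ e + 1 := by
      rw [hd]
      exact (Nat.ceil_lt_add_one (by positivity)).le
    have h6 : (n : ℝ) ^ e ≤ (n : ℝ) ^ (1 / 32 : ℝ) := Real.rpow_le_rpow_of_exponent_le hnR he1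
    have h7 : (n : ℝ) ^ (1 / 32 : ℝ) + 1 < (n : ℝ) ^ (1 / 2 - 1 / 24 : ℝ) := by
      have e1 : (n : ℝ) ^ (1 / 2 - 1 / 24 : ℝ) = (n : ℝ) ^ (1 / 4 : ℝ) * (n : ℝ) ^ (5 / 24 : ℝ) := by
        rw [← Real.rpow_add n0]
        norm_num
      have e2 : (n : ℝ) ^ (1 / 32 : ℝ) ≤ (n : ℝ) ^ (5 / 24 : ℝ) := Real.rpow_le_rpow_of_exponent_le hnR (by norm_num)
      have e3 : (1 : ℝ) ≤ (n : ℝ) ^ (5 / 24 : ℝ) := Real.one_le_rpow hnR (by norm_num)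
      rw [e1]
      nlinarith
    have h8 : (d : ℝ) < wd μ s n := by linarith
    exact Nat.lt_ceil.2 h8
  have hnearR : R.near μ d = 0 := by rw [hRd]; exact ref_near hdw
  -- the masses which do not meet
  have hdnm : ∀ Γ : Cx, Adm μ s c δ κ n Γ → dnm (law μ) (Γ.rows d' (k Γ)) Γ.w ≤ Γ.near μ d + (n : ℝ) ^ (-(1 / 16) : ℝ) := by
    intro Γ hA
    obtain ⟨q0, q1, q2⟩ := hk Γ hA
    rw [Cx.dnm_eq hA.ok q0 q1]
    have h1 : ∑ c ∈ Γ.rows 0 d', ∫ η, Γ.w c η ∂(law μ) ≤ ∑ c ∈ Γ.rows 0 d, ∫ η, Γ.w c η ∂(law μ) := by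
      refine sum_le_sum_of_subset_of_nonneg ?_ fun c hc _ => ?_
      · unfold Cx.rows
        exact product_subset_product (Ico_subset_Ico le_rfl hdd) (Subset.refl _)
      · exact integral_nonneg fun η => Cx.w_nonneg hA.ok _ η
    exact add_le_add (h1.trans (hnear Γ hA).2.2.1) (hal c δ κ (by linarith) Γ hA (k Γ) q2 q1)
  refine ⟨∫ η, Ψ R η ∂(law μ), fun Γ hA a0 => ?_⟩
  have hG := hA.ok
  have hG' := hR.ok
  obtain ⟨τ, hτ⟩ : ∃ τ : ℝ, τ = (n : ℝ) ^ (-c) * EE μ s n := ⟨_, rfl⟩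
  have hτ0 : 0 < τ := by rw [hτ]; exact mul_pos (Real.rpow_pos_of_pos n0 _) E0
  have hGt : 1 / τ = (n : ℝ) ^ c / EE μ s n := by
    rw [hτ, Real.rpow_neg n0.le]
    have := (Real.rpow_pos_of_pos n0 c).ne'
    field_simp
  rw [← hτ]
  have hw := wgt_tri hτ0
  have gm : Measurable fun a => tri τ (a - a0) := hw.cont.measurable.comp (measurable_id.sub_const a0)
  have g0 : ∀ x, 0 ≤ tri τ (x - a0) := fun x => hw.nn _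
  have gG : ∀ x, tri τ (x - a0) ≤ 1 / τ := fun x => tri_le hτ0 _
  have gL : ∀ x y, |tri τ (x - a0) - tri τ (y - a0)| ≤ 1 / τ ^ 2 * |x - y| := fun x y => by
    have := hw.lip (x - a0) (y - a0)
    rwa [sub_sub_sub_cancel_right] at this
  have hK0 : 0 < (n : ℝ) ^ (a / 4) := Real.rpow_pos_of_pos n0 _
  have hKn : (n : ℝ) ^ (a / 4) ≤ n := by
    calc (n : ℝ) ^ (a / 4) ≤ (n : ℝ) ^ (1 : ℝ) := Real.rpow_le_rpow_of_exponent_le hnR (by linarith)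
      _ = n := Real.rpow_one _
  have nd := hT.nd hG (a := d') (hk Γ hA).2.1
  have nd' := hT.nd hG' (a := d') (hk R hR).2.1
  have key := lec_phi nd nd' gm g0 gG Γ.meas_B hK0 (hKn.trans hH) (hL Γ hA _ _ _ gm g0 gG gL _ hK0 hKn)
  rw [mul_comm (∫ η, tri τ (Γ.B η - a0) ∂(law μ))] at key
  refine key.trans ?_
  -- the numbers
  set M := ∫ η, S Γ η ^ 2 ∂(law μ) with hMd
  set M' := ∫ η, S R η ^ 2 ∂(law μ) with hMd'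
  have X1 : ∀ Γ₁ : Cx, Adm μ s c δ κ n Γ₁ → ∫ η, S Γ₁ η ∂(law μ) ≤ 1 + ∫ η, S Γ₁ η ^ 2 ∂(law μ) := by
    intro Γ₁ hA₁
    have i1 := hT.iS Γ₁ hA₁.ok
    have i2 := hT.iS2 Γ₁ hA₁.ok
    have e1 : 1 + ∫ η, S Γ₁ η ^ 2 ∂(law μ) = ∫ η, (1 + S Γ₁ η ^ 2) ∂(law μ) := by
      rw [integral_add (integrable_const _) i2]
      simp
    rw [e1]
    refine integral_mono i1 ((integrable_const _).add i2) fun η => ?_
    show S Γ₁ η ≤ 1 + S Γ₁ η ^ 2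
    nlinarith [sq_nonneg (S Γ₁ η - 1 / 2)]
  have hMn : (n : ℝ) ^ (-cL) ≤ (n : ℝ) ^ (-a) := Real.rpow_le_rpow_of_exponent_le hnR (by linarith)
  have hM0 : 0 ≤ M := integral_nonneg fun η => sq_nonneg _
  have hM0' : 0 ≤ M' := integral_nonneg fun η => sq_nonneg _
  have hX0 : 0 ≤ ∫ η, S Γ η ∂(law μ) := integral_nonneg fun η => (abs_nonneg _).trans (hT.le Γ hG η)
  have hX0' : 0 ≤ ∫ η, S R η ∂(law μ) := integral_nonneg fun η => (abs_nonneg _).trans (hT.le R hG' η)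
  have num := numP68 (n := (n : ℝ)) (E := EE μ s n) (a := a) (c := c) (e := e) (nr := Γ.near μ d) (nr' := 0) (M := M) (M' := M')
    (X := ∫ η, S Γ η ∂(law μ)) (X' := ∫ η, S R η ∂(law μ)) (x := dnm (law μ) (Γ.rows d' (k Γ)) Γ.w)
    (x' := dnm (law μ) (R.rows d' (k R)) R.w)
    (err := (1 / τ ^ 2 * EE μ s n + 1 / τ) * (n : ℝ) ^ (-cL) *
      (2 + ∫ η, S Γ η ∂(law μ) + ∫ η, S R η ∂(law μ)) +
      1 / τ * ((2 + 2 * (n : ℝ) ^ (a / 4)) * (n : ℝ) ^ (-cL) + (M + M') / (n : ℝ) ^ (a / 4)))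
    hnR hE1 ha ha1 hae hc hca hbig (Cx.near_nonneg hG d) (hS Γ hA) (hS R hR) (X1 Γ hA) (X1 R hR) (hdnm Γ hA)
    (by have := hdnm R hR; rwa [hnearR, zero_add] at this) ?_
  · rw [← hGt] at num
    exact num
  · rw [← hGt]
    have e1 : 1 / τ ^ 2 = (1 / τ) ^ 2 := by rw [one_div_pow]
    rw [e1]
    refine add_le_add ?_ ?_
    · refine mul_le_mul_of_nonneg_right (mul_le_mul_of_nonneg_left hMn (by positivity)) (by linarith)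
    · refine mul_le_mul_of_nonneg_left (add_le_add (mul_le_mul_of_nonneg_left hMn (by positivity)) le_rfl) (by positivity)

/-- `LecP68` is the instance. -/
theorem lecQ_iff : LecQ μ s (fun Γ => Γ.Phi 0 Γ.N) (fun Γ => Γ.SS 0 Γ.N) ↔ LecP68 μ s := Iff.rfl

end

end Pool.Agent.W_7d29a1_C1.H60
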