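import Pool.Agent.W_7d29a1_C1.CtxM68

/-!
MP_7d29a1_pr, [C1] attractor route, (Y) by corners: THE SMOOTH SPLITTING OF THE CONTACTS. (helper87)

`chi a f q = (a f q)² / ((a f q)² + f (q - 1)²)`, `f` = future at the next row, `a` = step weight. It is homogeneous of degree `0` in
`f`, Lipschitz in the logarithms of the two values, and `(f (q - 1) + a f q)² chi ≤ 2 (a f q)²`,
`(f (q - 1) + a f q)² (1 - chi) ≤ 2 f (q - 1)²`. `chiC` = the same for a contact of a context.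
-/

set_option autoImplicit false

namespace Pool.Agent.W_7d29a1_C1.Ch87

open Finset MeasureTheory
open Pool.Agent.W_7d29a1_F
open Pool.Agent.W_7d29a1_C1.K91 (Grp Box wt wt_pos measurable_wt zs)
open Pool.Agent.W_7d29a1_C1.K91P
open Pool.Agent.W_7d29a1_C1.H60
open Pool.Agent.W_7d29a1_C1.H60.Cx (l)

noncomputable section

/-- The share of the 1-step, squared and normalised. -/
def chi (a : ℝ) (f : ℤ → ℝ) (q : ℤ) : ℝ := (a * f q) ^ 2 / ((a * f q) ^ 2 + f (q - 1) ^ 2)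

section

variable {a : ℝ} {f g : ℤ → ℝ} {q : ℤ}

theorem chi_nonneg (a : ℝ) (f : ℤ → ℝ) (q : ℤ) : 0 ≤ chi a f q := by
  unfold chi
  positivity

theorem chi_le_one (a : ℝ) (f : ℤ → ℝ) (q : ℤ) : chi a f q ≤ 1 := by
  unfold chi
  exact div_le_one_of_le₀ (by have := sq_nonneg (f (q - 1)); linarith) (by positivity)

theorem one_sub_chi (h1 : f (q - 1) ≠ 0) : 1 - chi a f q = f (q - 1) ^ 2 / ((a * f q) ^ 2 + f (q - 1) ^ 2) := by
  have h2 : (a * f q) ^ 2 + f (q - 1) ^ 2 ≠ 0 := by positivity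
  unfold chi
  field_simp
  ring

theorem chi_smul {c : ℝ} (hc : c ≠ 0) : chi a (fun y => c * f y) q = chi a f q := by
  unfold chi
  have e1 : (a * (c * f q)) ^ 2 = c ^ 2 * (a * f q) ^ 2 := by ring
  have e2 : (c * f (q - 1)) ^ 2 = c ^ 2 * f (q - 1) ^ 2 := by ring
  rw [e1, e2, ← mul_add, mul_div_mul_left _ _ (pow_ne_zero 2 hc)]

theorem chi_shift : chi a (fun y => f (y + 1)) q = chi a f (q + 1) := by
  unfold chi
  simp only [sub_add_cancel, add_sub_cancel_right]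

theorem chi_shift' : chi a (fun y => f (y - 1)) q = chi a f (q - 1) := rfl

/-- The natural frame on the right of the contact. -/
theorem gg_chi (h1 : f (q - 1) ≠ 0) : (f (q - 1) + a * f q) ^ 2 * chi a f q ≤ 2 * (a * f q) ^ 2 := by
  have h2 : 0 < (a * f q) ^ 2 + f (q - 1) ^ 2 := by positivity
  unfold chi
  rw [← mul_div_assoc, div_le_iff₀ h2]
  have h3 : (f (q - 1) + a * f q) ^ 2 ≤ 2 * ((a * f q) ^ 2 + f (q - 1) ^ 2) := by nlinarith [sq_nonneg (f (q - 1) - a * f q)]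
  calc (f (q - 1) + a * f q) ^ 2 * (a * f q) ^ 2 ≤ 2 * ((a * f q) ^ 2 + f (q - 1) ^ 2) * (a * f q) ^ 2 :=
        mul_le_mul_of_nonneg_right h3 (sq_nonneg _)
    _ = _ := by ring

/-- The mirror. -/
theorem gg_one_sub_chi (h1 : f (q - 1) ≠ 0) : (f (q - 1) + a * f q) ^ 2 * (1 - chi a f q) ≤ 2 * f (q - 1) ^ 2 := by
  have h2 : 0 < (a * f q) ^ 2 + f (q - 1) ^ 2 := by positivity
  rw [one_sub_chi h1, ← mul_div_assoc, div_le_iff₀ h2]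
  have h3 : (f (q - 1) + a * f q) ^ 2 ≤ 2 * ((a * f q) ^ 2 + f (q - 1) ^ 2) := by nlinarith [sq_nonneg (f (q - 1) - a * f q)]
  calc (f (q - 1) + a * f q) ^ 2 * f (q - 1) ^ 2 ≤ 2 * ((a * f q) ^ 2 + f (q - 1) ^ 2) * f (q - 1) ^ 2 :=
        mul_le_mul_of_nonneg_right h3 (sq_nonneg _)
    _ = _ := by ring

/-- **`chi` moves little where the two ratios are close.** -/
theorem chi_lip (hf : f (q - 1) ≠ 0) (hg : g (q - 1) ≠ 0) (f0 : 0 ≤ f q) (f1 : 0 ≤ f (q - 1)) (g0 : 0 ≤ g q) (g1 : 0 ≤ g (q - 1))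
    {κ : ℝ} (h1 : f q * g (q - 1) ≤ κ * (g q * f (q - 1))) (h2 : g q * f (q - 1) ≤ κ * (f q * g (q - 1))) (hκ : 1 ≤ κ) :
    |chi a f q - chi a g q| ≤ κ ^ 2 - 1 := by
  obtain ⟨A, hA⟩ : ∃ A, A = (a * f q) ^ 2 := ⟨_, rfl⟩
  obtain ⟨B, hB⟩ : ∃ B, B = f (q - 1) ^ 2 := ⟨_, rfl⟩
  obtain ⟨A', hA'⟩ : ∃ A', A' = (a * g q) ^ 2 := ⟨_, rfl⟩
  obtain ⟨B', hB'⟩ : ∃ B', B' = g (q - 1) ^ 2 := ⟨_, rfl⟩
  have A0 : 0 ≤ A := by rw [hA]; positivity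
  have B0 : 0 < B := by rw [hB]; positivity
  have A0' : 0 ≤ A' := by rw [hA']; positivity
  have B0' : 0 < B' := by rw [hB']; positivity
  have k1 : A * B' ≤ κ ^ 2 * (A' * B) := by
    have h3 := pow_le_pow_left₀ (mul_nonneg f0 g1) h1 2
    have h4 := mul_le_mul_of_nonneg_left h3 (sq_nonneg a)
    rw [hA, hB, hA', hB']
    calc (a * f q) ^ 2 * g (q - 1) ^ 2 = a ^ 2 * (f q * g (q - 1)) ^ 2 := by ring
      _ ≤ a ^ 2 * (κ * (g q * f (q - 1))) ^ 2 := h4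
      _ = _ := by ring
  have k2 : A' * B ≤ κ ^ 2 * (A * B') := by
    have h3 := pow_le_pow_left₀ (mul_nonneg g0 f1) h2 2
    have h4 := mul_le_mul_of_nonneg_left h3 (sq_nonneg a)
    rw [hA, hB, hA', hB']
    calc (a * g q) ^ 2 * f (q - 1) ^ 2 = a ^ 2 * (g q * f (q - 1)) ^ 2 := by ring
      _ ≤ a ^ 2 * (κ * (f q * g (q - 1))) ^ 2 := h4
      _ = _ := by ring
  have e : chi a f q - chi a g q = (A * B' - A' * B) / ((A + B) * (A' + B')) := by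
    unfold chi
    rw [← hA, ← hB, ← hA', ← hB', div_sub_div _ _ (by positivity) (by positivity)]
    congr 1
    ring
  have hD : 0 < (A + B) * (A' + B') := by positivity
  have hκ2 : 0 ≤ κ ^ 2 - 1 := by nlinarith
  rw [e, abs_div, abs_of_pos hD, div_le_iff₀ hD, abs_le]
  have m1 : A' * B ≤ (A + B) * (A' + B') := by nlinarith [mul_nonneg A0 A0', mul_nonneg A0 B0'.le, mul_nonneg B0.le B0'.le]
  have m2 : A * B' ≤ (A + B) * (A' + B') := by nlinarith [mul_nonneg A0 A0', mul_nonneg A0' B0.le, mul_nonneg B0.le B0'.le]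
  have m3 := mul_le_mul_of_nonneg_left m1 hκ2
  have m4 := mul_le_mul_of_nonneg_left m2 hκ2
  constructor <;> nlinarith

/-- The same from a relative error: `f` is `K g` up to `t`. -/
theorem chi_near (g0 : 0 < g q) (g1 : 0 < g (q - 1)) {K t : ℝ} (hK : 0 < K) (ht : 0 ≤ t) (ht1 : t ≤ 1 / 8)
    (h0 : |f q - K * g q| ≤ t * (K * g q)) (h1 : |f (q - 1) - K * g (q - 1)| ≤ t * (K * g (q - 1))) :
    |chi a f q - chi a g q| ≤ 6 * t := by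
  have a0 := abs_le.1 h0
  have a1 := abs_le.1 h1
  have K0 : 0 < K * g q := mul_pos hK g0
  have K1 : 0 < K * g (q - 1) := mul_pos hK g1
  have f0 : 0 < f q := by nlinarith
  have f1 : 0 < f (q - 1) := by nlinarith
  have hc : (1 + t) ≤ (1 + 16 / 7 * t) * (1 - t) := by nlinarith
  have key : ∀ x y x' y' : ℝ, 0 < x' → 0 < y' → x ≤ (1 + t) * (K * x') → (1 - t) * (K * y') ≤ y →
      x * y' ≤ (1 + 16 / 7 * t) * (x' * y) := by
    intro x y x' y' hx' hy' hx hy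
    calc x * y' ≤ (1 + t) * (K * x') * y' := mul_le_mul_of_nonneg_right hx hy'.le
      _ = (1 + t) * (K * x' * y') := by ring
      _ ≤ ((1 + 16 / 7 * t) * (1 - t)) * (K * x' * y') := mul_le_mul_of_nonneg_right hc (by positivity)
      _ = (1 + 16 / 7 * t) * x' * ((1 - t) * (K * y')) := by ring
      _ ≤ (1 + 16 / 7 * t) * x' * y := mul_le_mul_of_nonneg_left hy (by positivity)
      _ = _ := by ring
  have b1 := key (f q) (f (q - 1)) (g q) (g (q - 1)) g0 g1 (by linarith) (by linarith)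
  have b2 := key (f (q - 1)) (f q) (g (q - 1)) (g q) g1 g0 (by linarith) (by linarith)
  refine (chi_lip (a := a) (κ := 1 + 16 / 7 * t) f1.ne' g1.ne' f0.le f1.le g0.le g1.le b1 ?_ (by linarith)).trans (by nlinarith)
  calc g q * f (q - 1) = f (q - 1) * g q := mul_comm _ _
    _ ≤ _ := b2
    _ = _ := by ring

/-- The split functional moves little: `F` against `F'`, `chi` against `chi'`. -/
theorem split_near {F F' x x' : ℝ} (h0 : 0 ≤ x) (h1 : x ≤ 1) : |F * x - F' * x'| ≤ |F - F'| + |F'| * |x - x'| := by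
  have e : F * x - F' * x' = (F - F') * x + F' * (x - x') := by ring
  rw [e]
  refine (abs_add_le _ _).trans (add_le_add ?_ (abs_mul _ _).le)
  rw [abs_mul, abs_of_nonneg h0]
  exact mul_le_of_le_one_right (abs_nonneg _) h1

end

/-! ### Contacts of a context -/

variable {Γ : Cx}

/-- The splitting function of the contact `c`. -/
def chiC (Γ : Cx) (c : ℕ × ℤ) (η : Env) : ℝ := chi (Γ.p c.1) (bw (wt η) Γ.p (c.1 + 1) (Γ.N - (c.1 + 1))) c.2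

theorem chiC_nonneg (Γ : Cx) (c : ℕ × ℤ) (η : Env) : 0 ≤ chiC Γ c η := chi_nonneg _ _ _

theorem chiC_le_one (Γ : Cx) (c : ℕ × ℤ) (η : Env) : chiC Γ c η ≤ 1 := chi_le_one _ _ _

theorem meas_chiC (Γ : Cx) (c : ℕ × ℤ) : Measurable (chiC Γ c) := by
  unfold chiC chi
  have h1 : ∀ y : ℤ, Measurable fun η : Env => bw (wt η) Γ.p (c.1 + 1) (Γ.N - (c.1 + 1)) y := fun y =>
    pm_bw measurable_wt _ _ _
  exact ((measurable_const.mul (h1 c.2)).pow_const 2).div (((measurable_const.mul (h1 c.2)).pow_const 2).add ((h1 (c.2 - 1)).pow_const 2))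

/-- **THE WEIGHT IN THE FRAME AGAINST THE NATURAL WEIGHT, 1-step part.** -/
theorem ws_chi (h : Γ.Ok) (η : Env) {c : ℕ × ℤ} (hc : c ∈ Γ.rows 0 Γ.N)
    (z1 : 0 < zs (Icc 0 Γ.hi) (fw (wt η) Γ.p l c.1) (wt η c.1) (GG (wt η) Γ.p Γ.N c.1) c.2)
    (z2 : 0 < zs (Icc 0 Γ.hi) (fw (wt η) Γ.p Γ.r c.1) (wt η c.1) (GG (wt η) Γ.p Γ.N c.1) c.2) :
    Γ.ws c η * chiC Γ c η ≤ 2 * Γ.p c.1 ^ 2 * Γ.w c η *
      (Γ.ZM η * Γ.ZR η / (zs (Icc 0 Γ.hi) (fw (wt η) Γ.p l c.1) (wt η c.1) (GG (wt η) Γ.p Γ.N c.1) c.2 *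
        zs (Icc 0 Γ.hi) (fw (wt η) Γ.p Γ.r c.1) (wt η c.1) (GG (wt η) Γ.p Γ.N c.1) c.2)) := by
  have hr := (Cx.mem_rows.1 hc).2
  have pM := Cx.ZM_pos Γ η
  have pR := Cx.ZR_pos h η
  obtain ⟨Z, hZ⟩ : ∃ Z, Z = zs (Icc 0 Γ.hi) (fw (wt η) Γ.p l c.1) (wt η c.1) (GG (wt η) Γ.p Γ.N c.1) c.2 *
    zs (Icc 0 Γ.hi) (fw (wt η) Γ.p Γ.r c.1) (wt η c.1) (GG (wt η) Γ.p Γ.N c.1) c.2 := ⟨_, rfl⟩
  have Z0 : 0 < Z := by rw [hZ]; exact mul_pos z1 z2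
  have hd : 0 ≤ dp (wt η) Γ.p l Γ.r c.1 (c.2 - 1) c.2 :=
    dp_nonneg (wt_pos η) Γ.p_pos (Cx.box1 h).g c.1 (c.2 - 1) c.2 (by omega)
  have w1 := wt_pos η c.1 (c.2 - 1)
  have w2 := wt_pos η c.1 c.2
  have pc := Γ.p_pos c.1
  have f0 : 0 < bw (wt η) Γ.p (c.1 + 1) (Γ.N - (c.1 + 1)) (c.2 - 1) := bw_pos (wt_pos η) Γ.p_pos _ _ _
  have eG : GG (wt η) Γ.p Γ.N c.1 (c.2 - 1) = bw (wt η) Γ.p (c.1 + 1) (Γ.N - (c.1 + 1)) (c.2 - 1) +
      Γ.p c.1 * bw (wt η) Γ.p (c.1 + 1) (Γ.N - (c.1 + 1)) c.2 := by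
    unfold GG
    rw [sub_add_cancel]
  have key := gg_chi (a := Γ.p c.1) (f := bw (wt η) Γ.p (c.1 + 1) (Γ.N - (c.1 + 1))) (q := c.2) f0.ne'
  unfold Cx.ws Cx.w chiC
  rw [← hZ, eG]
  obtain ⟨ch, hch⟩ : ∃ ch, ch = chi (Γ.p c.1) (bw (wt η) Γ.p (c.1 + 1) (Γ.N - (c.1 + 1))) c.2 := ⟨_, rfl⟩
  rw [← hch] at key ⊢
  obtain ⟨f, hf⟩ : ∃ f, f = bw (wt η) Γ.p (c.1 + 1) (Γ.N - (c.1 + 1)) := ⟨_, rfl⟩
  rw [← hf] at key ⊢
  have e1 : dp (wt η) Γ.p l Γ.r c.1 (c.2 - 1) c.2 * (Γ.p c.1 * (wt η c.1 (c.2 - 1) * wt η c.1 c.2) * f c.2 ^ 2) /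
      (Γ.ZM η * Γ.ZR η) * (Γ.ZM η * Γ.ZR η / Z) =
      dp (wt η) Γ.p l Γ.r c.1 (c.2 - 1) c.2 * (Γ.p c.1 * (wt η c.1 (c.2 - 1) * wt η c.1 c.2) * f c.2 ^ 2) / Z := by
    field_simp
  calc dp (wt η) Γ.p l Γ.r c.1 (c.2 - 1) c.2 * (Γ.p c.1 * (wt η c.1 (c.2 - 1) * wt η c.1 c.2) *
        (f (c.2 - 1) + Γ.p c.1 * f c.2) ^ 2) / Z * ch
      = (dp (wt η) Γ.p l Γ.r c.1 (c.2 - 1) c.2 * (Γ.p c.1 * (wt η c.1 (c.2 - 1) * wt η c.1 c.2))) / Z *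
        ((f (c.2 - 1) + Γ.p c.1 * f c.2) ^ 2 * ch) := by ring
    _ ≤ (dp (wt η) Γ.p l Γ.r c.1 (c.2 - 1) c.2 * (Γ.p c.1 * (wt η c.1 (c.2 - 1) * wt η c.1 c.2))) / Z *
        (2 * (Γ.p c.1 * f c.2) ^ 2) := mul_le_mul_of_nonneg_left key (by positivity)
    _ = 2 * Γ.p c.1 ^ 2 * (dp (wt η) Γ.p l Γ.r c.1 (c.2 - 1) c.2 *
        (Γ.p c.1 * (wt η c.1 (c.2 - 1) * wt η c.1 c.2) * f c.2 ^ 2) / Z) := by ring
    _ = _ := by
        rw [← e1]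
        ring

end

end Pool.Agent.W_7d29a1_C1.Ch87
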