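import Pool.Agent.W_7d29a1_C1.SigL54
import Pool.Agent.W_7d29a1_C1.Chi87
import Pool.Agent.W_7d29a1_C1.AsmQ68
import Pool.Agent.W_7d29a1_C1.AsmF8

/-!
MP_7d29a1_pr, attractor route (helper54): THE WHOLE ASSEMBLY BY CORNERS. The loss of memory at one site (`LMR54`) from the second
moment of the split frame weights and the result of the exchange for the split functional.
-/

set_option autoImplicit false

namespace Pool.Agent.W_7d29a1_C1.H54

open MeasureTheory Filter Topology Finset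
open Pool.Agent.W_7d29a1_F Pool.Agent.W_7d29a1_h4g Pool.Agent.W_7d29a1_H Pool.Agent.W_7d29a1_HS
open Pool.Agent.W_7d29a1_h47 (EM)
open Pool.Agent.W_7d29a1_C1.H60
open Pool.Agent.W_7d29a1_C1.H8
open Pool.Agent.W_7d29a1_C1.Ch87 (chiC chiC_nonneg chiC_le_one meas_chiC)

variable {μ : Measure ℝ} [IsProbabilityMeasure μ] {s : ℝ} {c C : ℝ} {n₀ : ℕ}

/-- **The split total functional** with the corner weights. -/
noncomputable def PhC (Γ : Cx) : Env → ℝ := PhS Γ (chiC Γ)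

/-- **THE WHOLE ASSEMBLY BY CORNERS**: the loss of memory at one site from the size of the frame weights, the second moment and the
result of the exchange for the split functional. -/
theorem lmr_cor54 (h : In μ s c C n₀)
    (hL : ∀ ε : ℝ, 0 < ε → ∃ n₁ : ℕ, ∀ n : ℕ, n₁ ≤ n → wd μ s n ≤ (n : ℝ) ^ ε * EE μ s n ^ 2)
    (hU : ∀ ε : ℝ, 0 < ε → ∃ n₁ : ℕ, ∀ n : ℕ, n₁ ≤ n → EE μ s n ^ 2 ≤ (n : ℝ) ^ ε * wd μ s n) (hX : XsP8 μ s)
    {S : Cx → Env → ℝ} (hT : TF μ PhC S) (hS : SqQ μ s S) (hLec : LecQ μ s PhC S) : LMR54 μ s := by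
  have hw : WlG8 μ s := by
    obtain ⟨n₁, h1⟩ := Pool.Agent.W_7d29a1_HZ.wd'_eq h
    exact ⟨n₁, fun n hn => (h1 n hn).2.2⟩
  exact lmrS54 (χ := chiC) (fun Γ b => meas_chiC Γ b) (fun Γ b η => chiC_nonneg Γ b η) (fun Γ b η => chiC_le_one Γ b η) h.em h
    (Nbr78.nbr78 h hL hU) (ee9_8 hL hw) (locP8 h hL hU) hX (phiQ68 h hU hT hLec hS)

end Pool.Agent.W_7d29a1_C1.H54
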