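import Pool.Agent.W_7d29a1_C1.Ctx60
import Pool.Agent.W_7d29a1_UB.IdentU

/-!
Both halves (MP_7d29a1_pr), attractor route: THE CONTACTS OF A CONTEXT, measurability, signs, integrability, the sum of the natural
weights (helper68). Over `Ctx60` (helper60), `PairP91` / `ContrEP91` (helper91).
-/

set_option autoImplicit false

namespace Pool.Agent.W_7d29a1_C1.H60

open MeasureTheory Filter Topology Finset
open Pool.Agent.W_7d29a1_F Pool.Agent.W_7d29a1_HS
open Pool.Agent.W_7d29a1_C1.K91 (Box Grp cut zs jn wt wt_pos measurable_wt Mb wt_Mb)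
open Pool.Agent.W_7d29a1_C1.K91P

noncomputable section

/-! ### Measurability in a parameter -/

section par

variable {α : Type*} [MeasurableSpace α] {W : α → ℕ → ℤ → ℝ} {p : ℕ → ℝ} {l r : α → ℤ → ℝ} {X lo hi : ℤ} {N : ℕ}

theorem pm_fw (hW : ∀ k y, Measurable fun x => W x k y) (hl : ∀ y, Measurable fun x => l x y) :
    ∀ (k : ℕ) (y : ℤ), Measurable fun x => fw (W x) p (l x) k y
  | 0, y => hl y
  | k + 1, y => by
    have h1 := pm_fw hW hl k y
    have h2 := pm_fw hW hl k (y - 1)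
    simp only [fw_succ]
    exact ((hW k y).mul h1).add (measurable_const.mul ((hW k (y - 1)).mul h2))

theorem pm_bw (hW : ∀ k y, Measurable fun x => W x k y) : ∀ (j k : ℕ) (y : ℤ), Measurable fun x => bw (W x) p k j y
  | 0, k, y => by
    simp only [bw_zero]
    exact measurable_const
  | j + 1, k, y => by
    have h1 := pm_bw hW j (k + 1) y
    have h2 := pm_bw hW j (k + 1) (y + 1)
    simp only [bw_succ]
    exact (hW k y).mul (h1.add (measurable_const.mul h2))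

theorem pm_mm (hW : ∀ k y, Measurable fun x => W x k y) (hl : ∀ y, Measurable fun x => l x y)
    (hr : ∀ y, Measurable fun x => r x y) (k : ℕ) (y : ℤ) : Measurable fun x => mm (W x) p (l x) (r x) k y :=
  (pm_fw hW hl k y).add (pm_fw hW hr k y)

theorem pm_Fk (hW : ∀ k y, Measurable fun x => W x k y) (hl : ∀ y, Measurable fun x => l x y)
    (hr : ∀ y, Measurable fun x => r x y) (k : ℕ) (y : ℤ) : Measurable fun x => Fk (W x) p (l x) (r x) X k y := by
  have h1 := pm_fw (p := p) hW hl k y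
  have h2 := pm_fw (p := p) hW hr k y
  unfold Fk
  refine Measurable.ite (measurableSet_eq_fun (h1.add h2) measurable_const) measurable_const (h1.div (h1.add h2))

theorem pm_rho (hW : ∀ k y, Measurable fun x => W x k y) (hl : ∀ y, Measurable fun x => l x y)
    (hr : ∀ y, Measurable fun x => r x y) (k : ℕ) (q : ℤ) : Measurable fun x => rho (W x) p (l x) (r x) X k q :=
  (pm_Fk hW hl hr k (q - 1)).sub (pm_Fk hW hl hr k q)

theorem pm_th (hW : ∀ k y, Measurable fun x => W x k y) (hl : ∀ y, Measurable fun x => l x y)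
    (hr : ∀ y, Measurable fun x => r x y) (k : ℕ) (q : ℤ) : Measurable fun x => th (W x) p (l x) (r x) k q :=
  (measurable_const.mul ((hW k (q - 1)).mul ((pm_fw hW hl k (q - 1)).add (pm_fw hW hr k (q - 1))))).div
    ((pm_fw hW hl (k + 1) q).add (pm_fw hW hr (k + 1) q))

theorem pm_vv (hW : ∀ k y, Measurable fun x => W x k y) (hl : ∀ y, Measurable fun x => l x y)
    (hr : ∀ y, Measurable fun x => r x y) (k : ℕ) (q : ℤ) : Measurable fun x => vv (W x) p (l x) (r x) k q :=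
  (pm_mm hW hl hr k (q - 1)).div ((pm_mm hW hl hr k (q - 1)).add (pm_mm hW hl hr k q))

theorem pm_cut {S : Finset ℤ} {m f : α → ℤ → ℝ} (hm : ∀ y, Measurable fun x => m x y) (hf : ∀ y, Measurable fun x => f x y)
    (q : ℤ) : Measurable fun x => cut S (m x) (f x) q := by
  unfold cut
  refine Finset.measurable_sum _ fun y _ => (hm y).mul ?_
  split_ifs
  · exact hf y
  · exact hf (y - 1)

theorem pm_zs {S : Finset ℤ} {m w G : α → ℤ → ℝ} (hm : ∀ y, Measurable fun x => m x y) (hw : ∀ y, Measurable fun x => w x y)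
    (hG : ∀ y, Measurable fun x => G x y) (q : ℤ) : Measurable fun x => zs S (m x) (w x) (G x) q := by
  unfold zs
  refine Finset.measurable_sum _ fun y _ => ((hm y).mul (hw y)).mul ?_
  split_ifs
  · exact hG y
  · exact hG (y - 1)

theorem pm_TT (hW : ∀ k y, Measurable fun x => W x k y) (hl : ∀ y, Measurable fun x => l x y)
    (hr : ∀ y, Measurable fun x => r x y) (k : ℕ) (q : ℤ) : Measurable fun x => TT (W x) p (l x) (r x) lo hi N k q := by
  unfold TT
  exact pm_cut (fun y => pm_mm hW hl hr k y) (fun y => pm_bw hW (N - k) k y) q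

theorem pm_GG (hW : ∀ k y, Measurable fun x => W x k y) (k : ℕ) (y : ℤ) : Measurable fun x => GG (W x) p N k y :=
  (pm_bw hW _ _ _).add (measurable_const.mul (pm_bw hW _ _ _))

theorem pm_ZZ (hW : ∀ k y, Measurable fun x => W x k y) (hl : ∀ y, Measurable fun x => l x y)
    (hr : ∀ y, Measurable fun x => r x y) (k : ℕ) (q : ℤ) : Measurable fun x => ZZ (W x) p (l x) (r x) lo hi N k q := by
  unfold ZZ
  exact pm_zs (fun y => pm_mm hW hl hr k y) (fun y => hW k y) (fun y => pm_GG hW k y) q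

theorem pm_Y1 (hW : ∀ k y, Measurable fun x => W x k y) (hl : ∀ y, Measurable fun x => l x y)
    (hr : ∀ y, Measurable fun x => r x y) (k : ℕ) (q : ℤ) : Measurable fun x => Y1 (W x) p (l x) (r x) lo hi N k q :=
  (pm_ZZ hW hl hr k q).add (((pm_mm hW hl hr k q).mul ((hW k (q - 1)).sub (hW k q))).mul (pm_GG hW k (q - 1)))

theorem pm_Y2 (hW : ∀ k y, Measurable fun x => W x k y) (hl : ∀ y, Measurable fun x => l x y)
    (hr : ∀ y, Measurable fun x => r x y) (k : ℕ) (q : ℤ) : Measurable fun x => Y2 (W x) p (l x) (r x) lo hi N k q :=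
  (pm_ZZ hW hl hr k q).add (((pm_mm hW hl hr k (q - 1)).mul ((hW k q).sub (hW k (q - 1)))).mul (pm_GG hW k (q - 1)))

theorem pm_jn {t a b : α → ℝ} (ht : Measurable t) (ha : Measurable a) (hb : Measurable b) :
    Measurable fun x => jn (t x) (a x) (b x) :=
  ((Real.measurable_log.comp ((ht.mul ha).add ((measurable_const.sub ht).mul hb))).sub
    (ht.mul (Real.measurable_log.comp ha))).sub ((measurable_const.sub ht).mul (Real.measurable_log.comp hb))

theorem pm_jg (hW : ∀ k y, Measurable fun x => W x k y) (hl : ∀ y, Measurable fun x => l x y)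
    (hr : ∀ y, Measurable fun x => r x y) (k : ℕ) (q : ℤ) : Measurable fun x => jg (W x) p (l x) (r x) lo hi N k q :=
  pm_jn (pm_vv hW hl hr k q) (pm_Y1 hW hl hr k q) (pm_Y2 hW hl hr k q)

theorem pm_JG (hW : ∀ k y, Measurable fun x => W x k y) (hl : ∀ y, Measurable fun x => l x y)
    (hr : ∀ y, Measurable fun x => r x y) (k : ℕ) (q : ℤ) : Measurable fun x => JG (W x) p (l x) (r x) lo hi N k q :=
  pm_jn (pm_th hW hl hr k q) (pm_TT hW hl hr (k + 1) (q + 1)) (pm_TT hW hl hr (k + 1) q)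

theorem pm_dp (hW : ∀ k y, Measurable fun x => W x k y) (hl : ∀ y, Measurable fun x => l x y)
    (hr : ∀ y, Measurable fun x => r x y) (k : ℕ) (x y : ℤ) : Measurable fun z => dp (W z) p (l z) (r z) k x y :=
  ((pm_fw hW hl k x).mul (pm_fw hW hr k y)).sub ((pm_fw hW hl k y).mul (pm_fw hW hr k x))

theorem pm_nm (hW : ∀ k y, Measurable fun x => W x k y) (hl : ∀ y, Measurable fun x => l x y)
    (hr : ∀ y, Measurable fun x => r x y) (k : ℕ) : Measurable fun z => nm (W z) p (l z) (r z) lo hi N k := by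
  unfold nm K91.ps2
  refine Finset.measurable_sum _ fun x _ => Finset.measurable_sum _ fun y _ => (pm_dp hW hl hr k x y).mul ?_
  split_ifs
  · exact (pm_bw hW _ _ _).mul (pm_bw hW _ _ _)
  · exact measurable_const

end par

/-! ### The logistic density -/

/-- The density of the level. -/
def lgd (A B a : ℝ) : ℝ := Real.exp (-a) * (A * B) / (A + Real.exp (-a) * B) ^ 2

theorem lgd_nonneg {A B : ℝ} (hA : 0 ≤ A) (hB : 0 ≤ B) (a : ℝ) : 0 ≤ lgd A B a := by
  unfold lgd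
  positivity

theorem measurable_lgd (A B : ℝ) : Measurable (lgd A B) := by
  unfold lgd
  fun_prop

theorem integrable_exp_abs68 : Integrable fun u : ℝ => Real.exp (-|u|) := by
  have h1 : IntegrableOn (fun u : ℝ => Real.exp (-|u|)) (Set.Ioi 0) :=
    (integrableOn_exp_neg_Ioi 0).congr_fun (fun u hu => by
      show Real.exp (-u) = Real.exp (-|u|)
      rw [abs_of_pos (by exact hu)]) measurableSet_Ioi
  have h2 : IntegrableOn (fun u : ℝ => Real.exp (-|u|)) (Set.Iic 0) := by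
    rw [← Measure.map_neg_eq_self (volume : Measure ℝ)]
    have m : MeasurableEmbedding fun x : ℝ => -x := (Homeomorph.neg ℝ).measurableEmbedding
    rw [m.integrableOn_map_iff]
    simp_rw [Function.comp_def, abs_neg, Set.neg_preimage, Set.neg_Iic, neg_zero]
    exact Iff.mpr integrableOn_Ici_iff_integrableOn_Ioi h1
  have h3 := h2.union h1
  rwa [Set.Iic_union_Ioi, integrableOn_univ] at h3

theorem lgd_le {A B : ℝ} (hA : 0 < A) (hB : 0 < B) (a : ℝ) : lgd A B a ≤ Real.exp (-|a - Real.log (B / A)|) := by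
  have hBA : Real.exp (Real.log (B / A)) = B / A := Real.exp_log (by positivity)
  obtain ⟨t, ht⟩ : ∃ t, t = a - Real.log (B / A) := ⟨_, rfl⟩
  have e1 : Real.exp (-a) = Real.exp (-t) * (A / B) := by
    have : -a = -t + -(Real.log (B / A)) := by rw [ht]; ring
    rw [this, Real.exp_add, Real.exp_neg (Real.log (B / A)), hBA, inv_div]
  have e2 : lgd A B a = Real.exp (-t) / (1 + Real.exp (-t)) ^ 2 := by
    unfold lgd
    rw [e1]
    have h0 : A + Real.exp (-t) * (A / B) * B = A * (1 + Real.exp (-t)) := by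
      field_simp
    rw [h0]
    have h1 : 0 < 1 + Real.exp (-t) := by positivity
    field_simp
  rw [e2, ← ht]
  have hE := Real.exp_pos (-t)
  rcases le_total 0 t with h | h
  · rw [abs_of_nonneg h]
    exact div_le_self hE.le (by nlinarith)
  · rw [abs_of_nonpos h, neg_neg]
    rw [div_le_iff₀ (by positivity)]
    have e3 : Real.exp t * Real.exp (-t) = 1 := by rw [← Real.exp_add]; simp
    have hE2 := Real.exp_pos t
    calc Real.exp (-t) = (Real.exp t * Real.exp (-t)) * Real.exp (-t) := by rw [e3, one_mul]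
      _ = Real.exp t * Real.exp (-t) ^ 2 := by ring
      _ ≤ _ := mul_le_mul_of_nonneg_left (by nlinarith) hE2.le

theorem integrable_lgd {A B : ℝ} (hA : 0 ≤ A) (hB : 0 ≤ B) : Integrable (lgd A B) := by
  by_cases h0 : A = 0 ∨ B = 0
  · have e : lgd A B = fun _ => (0 : ℝ) := by
      funext a
      unfold lgd
      rcases h0 with h | h <;> simp [h]
    rw [e]
    exact integrable_zero _ _ _
  · rw [not_or] at h0
    have hA' : 0 < A := lt_of_le_of_ne hA (Ne.symm h0.1)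
    have hB' : 0 < B := lt_of_le_of_ne hB (Ne.symm h0.2)
    refine (integrable_exp_abs68.comp_sub_right (Real.log (B / A))).mono' (measurable_lgd A B).aestronglyMeasurable
      (Eventually.of_forall fun a => ?_)
    rw [Real.norm_eq_abs, abs_of_nonneg (lgd_nonneg hA hB a)]
    exact lgd_le hA' hB' a

theorem integral_lgd {A B : ℝ} (hA : 0 < A) (hB : 0 < B) : ∫ a, lgd A B a = 1 := by
  have hd : ∀ a : ℝ, HasDerivAt (fun a => A / (A + Real.exp (-a) * B)) (lgd A B a) a := by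
    intro a
    have h1 : HasDerivAt (fun a : ℝ => Real.exp (-a)) (-Real.exp (-a)) a := by
      have h := (Real.hasDerivAt_exp (-a)).comp a (hasDerivAt_neg a)
      rw [mul_neg_one] at h
      exact h
    have h2 : HasDerivAt (fun a : ℝ => A + Real.exp (-a) * B) (-Real.exp (-a) * B) a := (h1.mul_const B).const_add A
    have h3 : A + Real.exp (-a) * B ≠ 0 := by positivity
    have h4 := (hasDerivAt_const a A).div h2 h3
    have e : (0 * (A + Real.exp (-a) * B) - A * (-Real.exp (-a) * B)) / (A + Real.exp (-a) * B) ^ 2 = lgd A B a := by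
      unfold lgd
      congr 1
      ring
    rw [e] at h4
    exact h4
  have t1 : Tendsto (fun a : ℝ => A / (A + Real.exp (-a) * B)) atTop (𝓝 1) := by
    have h1 : Tendsto (fun a : ℝ => Real.exp (-a)) atTop (𝓝 0) := Real.tendsto_exp_neg_atTop_nhds_zero
    have h2 : Tendsto (fun a : ℝ => A / (A + Real.exp (-a) * B)) atTop (𝓝 (A / (A + 0 * B))) :=
      tendsto_const_nhds.div (tendsto_const_nhds.add (h1.mul_const B)) (by simpa using hA.ne')
    have e : A / (A + 0 * B) = 1 := by rw [zero_mul, add_zero, div_self hA.ne']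
    rwa [e] at h2
  have t2 : Tendsto (fun a : ℝ => A / (A + Real.exp (-a) * B)) atBot (𝓝 0) := by
    have h1 : Tendsto (fun a : ℝ => Real.exp (-a)) atBot atTop := Real.tendsto_exp_atTop.comp tendsto_neg_atBot_atTop
    have h2 : Tendsto (fun a : ℝ => A + Real.exp (-a) * B) atBot atTop :=
      tendsto_atTop_add_const_left _ _ (h1.atTop_mul_const hB)
    exact h2.const_div_atTop A
  have h := integral_of_hasDerivAt_of_tendsto hd (integrable_lgd hA.le hB.le) t2 t1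
  rw [h, sub_zero]

theorem integral_lgd_le {A B : ℝ} (hA : 0 ≤ A) (hB : 0 ≤ B) : ∫ a, lgd A B a ≤ 1 := by
  by_cases h0 : A = 0 ∨ B = 0
  · have e : lgd A B = fun _ => (0 : ℝ) := by
      funext a
      unfold lgd
      rcases h0 with h | h <;> simp [h]
    rw [e, integral_zero]
    exact zero_le_one
  · rw [not_or] at h0
    exact (integral_lgd (lt_of_le_of_ne hA (Ne.symm h0.1)) (lt_of_le_of_ne hB (Ne.symm h0.2))).le

/-! ### The gain and the loss at one level -/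

section level

variable {w : ℕ → ℤ → ℝ} {p : ℕ → ℝ} {l r : ℤ → ℝ} {X lo hi : ℤ} {N : ℕ}

/-- Two terms of a sum of nonnegative terms. -/
theorem two_le_sum {S : Finset ℤ} {f : ℤ → ℝ} (h0 : ∀ y ∈ S, 0 ≤ f y) {x y : ℤ} (hx : x ∈ S) (hy : y ∈ S) (hxy : x ≠ y) :
    f x + f y ≤ ∑ z ∈ S, f z := by
  have h1 : ({x, y} : Finset ℤ) ⊆ S := by
    intro z hz
    rw [mem_insert, mem_singleton] at hz
    rcases hz with h | h <;> rw [h] <;> assumption
  have h2 := sum_le_sum_of_subset_of_nonneg (f := f) h1 fun z hz _ => h0 z hz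
  rwa [sum_pair hxy] at h2

/-- The neighbours of the cut, from below, read the weight at `q - 1`. -/
theorem le_Y1 (hw : ∀ k y, 0 < w k y) (hp : ∀ k, 0 < p k) (h : Grp l r X) {k : ℕ} {q : ℤ} (h1 : q - 1 ∈ Icc lo hi)
    (h2 : q ∈ Icc lo hi) :
    (mm w p l r k (q - 1) + mm w p l r k q) * (w k (q - 1) * GG w p N k (q - 1)) ≤ Y1 w p l r lo hi N k q := by
  have hs := two_le_sum (S := Icc lo hi) (f := fun y => mm w p l r k y * w k y * (if y < q then GG w p N k y else GG w p N k (y - 1)))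
    (fun y _ => by
      refine mul_nonneg (mul_nonneg (mm_nonneg hw hp h k y) (hw k y).le) ?_
      split_ifs
      · exact (GG_pos hw hp _ _).le
      · exact (GG_pos hw hp _ _).le) h1 h2 (by omega)
  rw [if_pos (show q - 1 < q by omega), if_neg (lt_irrefl q)] at hs
  have e : Y1 w p l r lo hi N k q = (∑ y ∈ Icc lo hi, mm w p l r k y * w k y * (if y < q then GG w p N k y else GG w p N k (y - 1))) +
      mm w p l r k q * (w k (q - 1) - w k q) * GG w p N k (q - 1) := rfl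
  rw [e]
  nlinarith

theorem le_Y2 (hw : ∀ k y, 0 < w k y) (hp : ∀ k, 0 < p k) (h : Grp l r X) {k : ℕ} {q : ℤ} (h1 : q - 1 ∈ Icc lo hi)
    (h2 : q ∈ Icc lo hi) :
    (mm w p l r k (q - 1) + mm w p l r k q) * (w k q * GG w p N k (q - 1)) ≤ Y2 w p l r lo hi N k q := by
  have hs := two_le_sum (S := Icc lo hi) (f := fun y => mm w p l r k y * w k y * (if y < q then GG w p N k y else GG w p N k (y - 1)))
    (fun y _ => by
      refine mul_nonneg (mul_nonneg (mm_nonneg hw hp h k y) (hw k y).le) ?_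
      split_ifs
      · exact (GG_pos hw hp _ _).le
      · exact (GG_pos hw hp _ _).le) h1 h2 (by omega)
  rw [if_pos (show q - 1 < q by omega), if_neg (lt_irrefl q)] at hs
  have e : Y2 w p l r lo hi N k q = (∑ y ∈ Icc lo hi, mm w p l r k y * w k y * (if y < q then GG w p N k y else GG w p N k (y - 1))) +
      mm w p l r k (q - 1) * (w k q - w k (q - 1)) * GG w p N k (q - 1) := rfl
  rw [e]
  nlinarith

theorem le_TT (hw : ∀ k y, 0 < w k y) (hp : ∀ k, 0 < p k) (h : Grp l r X) {k : ℕ} {q : ℤ} (h2 : q ∈ Icc lo hi) (c : ℤ) :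
    mm w p l r k q * (if q < c then bw w p k (N - k) q else bw w p k (N - k) (q - 1)) ≤ TT w p l r lo hi N k c := by
  unfold TT cut
  refine single_le_sum (f := fun y => mm w p l r k y * (if y < c then bw w p k (N - k) y else bw w p k (N - k) (y - 1)))
    (fun y _ => ?_) h2
  refine mul_nonneg (mm_nonneg hw hp h k y) ?_
  split_ifs
  · exact (bw_pos hw hp _ _ _).le
  · exact (bw_pos hw hp _ _ _).le

/-- The square of the relative difference. -/
def sqd (x y : ℝ) : ℝ := (x - y) ^ 2 / (x * y)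

theorem sqd_nonneg {x y : ℝ} (hx : 0 < x) (hy : 0 < y) : 0 ≤ sqd x y := by
  unfold sqd
  positivity

theorem sqd_le {x y : ℝ} (hx : 0 < x) (hy : 0 < y) : sqd x y ≤ x / y + y / x := by
  unfold sqd
  rw [div_add_div _ _ hy.ne' hx.ne', div_le_div_iff₀ (by positivity) (by positivity)]
  have h : 0 < x * y := by positivity
  nlinarith

/-- From a bound of the two totals to the density of the level. -/
theorem to_lgd {D T1 T2 A B E x y a : ℝ} (hA : 0 ≤ A) (hB : 0 ≤ B) (hx : 0 < x) (hy : 0 < y) (hE : 0 ≤ E)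
    (hD : D ≤ Real.exp (-a) * (A * B)) (h1 : (A + Real.exp (-a) * B) * x ≤ T1) (h2 : (A + Real.exp (-a) * B) * y ≤ T2)
    (p1 : 0 < T1) (p2 : 0 < T2) : D * E / (T1 * T2) ≤ lgd A B a * (E / (x * y)) := by
  have hs : 0 ≤ A + Real.exp (-a) * B := by positivity
  have h3 : D * E / (T1 * T2) ≤ Real.exp (-a) * (A * B) * E / (T1 * T2) := by
    gcongr
  refine h3.trans ?_
  rcases eq_or_lt_of_le hs with h0 | h0
  · have hA0 : A = 0 := by
      have : 0 ≤ Real.exp (-a) * B := by positivity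
      linarith
    rw [hA0]
    unfold lgd
    simp
  · unfold lgd
    have h4 : (A + Real.exp (-a) * B) ^ 2 * (x * y) ≤ T1 * T2 := by
      have := mul_le_mul h1 h2 (by positivity) p1.le
      calc (A + Real.exp (-a) * B) ^ 2 * (x * y) = (A + Real.exp (-a) * B) * x * ((A + Real.exp (-a) * B) * y) := by ring
        _ ≤ _ := this
    rw [div_mul_div_comm]
    exact div_le_div_of_nonneg_left (by positivity) (by positivity) h4

/-- **The gain at one level**: at most the logistic density times the square of the relative difference of the two weights. -/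
theorem rho_jg_le (hw : ∀ k y, 0 < w k y) (hp : ∀ k, 0 < p k) {a : ℝ} (h : Box l (fun y => Real.exp (-a) * r y) X lo hi N)
    (hr : ∀ y, 0 ≤ r y) {k : ℕ} (hk : k < N) {q : ℤ} (hq : q ∈ Icc X (X + N)) (hq1 : lo ≤ q - 1) :
    rho w p l (fun y => Real.exp (-a) * r y) X k q * jg w p l (fun y => Real.exp (-a) * r y) lo hi N k q ≤
      lgd (fw w p l k (q - 1)) (fw w p r k q) a * sqd (w k (q - 1)) (w k q) := by
  set r' : ℤ → ℝ := fun y => Real.exp (-a) * r y with hr'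
  have hX0 := h.X0
  have hX1 := h.X1
  have hq' := mem_Icc.1 hq
  have m1 : q - 1 ∈ Icc lo hi := mem_Icc.2 ⟨hq1, by omega⟩
  have m2 : q ∈ Icc lo hi := mem_Icc.2 ⟨by omega, by omega⟩
  have f1 : ∀ y, fw w p r' k y = Real.exp (-a) * fw w p r k y := fun y => fw_smul r (Real.exp (-a)) k y
  have n1 := fw_nonneg hw hp h.g.l0 k (q - 1)
  have n2 := fw_nonneg hw hp h.g.l0 k q
  have n3 := fw_nonneg hw hp hr k q
  have n4 := fw_nonneg hw hp hr k (q - 1)
  have hG := GG_pos (N := N) hw hp k (q - 1)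
  have hw1 := hw k (q - 1)
  have hw2 := hw k q
  have hE := Real.exp_pos (-a)
  have h0 := Fk_anti hw hp h.g k q
  have h1 := mul_le_mul_of_nonneg_left (jg_le hw hp h hk hq) h0
  refine h1.trans ?_
  have hdet := rho_det hw hp h.g k q
  have e1 : rho w p l r' X k q * (mm w p l r' k (q - 1) * mm w p l r' k q * ((w k (q - 1) - w k q) * GG w p N k (q - 1)) ^ 2 /
      (Y1 w p l r' lo hi N k q * Y2 w p l r' lo hi N k q)) =
      (fw w p l k (q - 1) * fw w p r' k q - fw w p l k q * fw w p r' k (q - 1)) *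
        ((w k (q - 1) - w k q) * GG w p N k (q - 1)) ^ 2 / (Y1 w p l r' lo hi N k q * Y2 w p l r' lo hi N k q) := by
    rw [← hdet]
    unfold mm
    ring
  rw [e1]
  have e2 : sqd (w k (q - 1)) (w k q) = ((w k (q - 1) - w k q) * GG w p N k (q - 1)) ^ 2 /
      ((w k (q - 1) * GG w p N k (q - 1)) * (w k q * GG w p N k (q - 1))) := by
    unfold sqd
    field_simp
  rw [e2]
  have hsum : fw w p l k (q - 1) + Real.exp (-a) * fw w p r k q ≤ mm w p l r' k (q - 1) + mm w p l r' k q := by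
    unfold mm
    rw [f1, f1]
    have : 0 ≤ Real.exp (-a) * fw w p r k (q - 1) := by positivity
    linarith
  refine to_lgd n1 n3 (by positivity) (by positivity) (by positivity) ?_ ?_ ?_ (Y1_pos hw hp h hk hq) (Y2_pos hw hp h hk hq)
  · rw [f1, f1]
    have : 0 ≤ fw w p l k q * (Real.exp (-a) * fw w p r k (q - 1)) := by positivity
    nlinarith
  · exact (mul_le_mul_of_nonneg_right hsum (by positivity)).trans (le_Y1 hw hp h.g m1 m2)
  · exact (mul_le_mul_of_nonneg_right hsum (by positivity)).trans (le_Y2 hw hp h.g m1 m2)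

/-- **The loss at one level**: at most a logistic density times the square of the relative difference of the profile. -/
theorem rho_JG_le (hw : ∀ k y, 0 < w k y) (hp : ∀ k, 0 < p k) {a : ℝ} (h : Box l (fun y => Real.exp (-a) * r y) X lo hi N)
    (hr : ∀ y, 0 ≤ r y) {k : ℕ} {q : ℤ} (hq : q ∈ Icc X (X + N)) :
    rho w p l (fun y => Real.exp (-a) * r y) X k q * JG w p l (fun y => Real.exp (-a) * r y) lo hi N k q ≤
      lgd (p k * w k (q - 1) * fw w p l k (q - 1)) (w k q * fw w p r k q) a *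
        sqd (bw w p (k + 1) (N - (k + 1)) q) (bw w p (k + 1) (N - (k + 1)) (q - 1)) := by
  set r' : ℤ → ℝ := fun y => Real.exp (-a) * r y with hr'
  have hX0 := h.X0
  have hX1 := h.X1
  have hq' := mem_Icc.1 hq
  have m2 : q ∈ Icc lo hi := mem_Icc.2 ⟨by omega, by omega⟩
  have f1 : ∀ y, fw w p r' k y = Real.exp (-a) * fw w p r k y := fun y => fw_smul r (Real.exp (-a)) k y
  have n1 := fw_nonneg hw hp h.g.l0 k (q - 1)
  have n2 := fw_nonneg hw hp h.g.l0 k q
  have n3 := fw_nonneg hw hp hr k q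
  have n4 := fw_nonneg hw hp hr k (q - 1)
  have hR1 := bw_pos hw hp (N - (k + 1)) (k + 1) q
  have hR2 := bw_pos hw hp (N - (k + 1)) (k + 1) (q - 1)
  have hw1 := hw k (q - 1)
  have hw2 := hw k q
  have hpk := hp k
  have hE := Real.exp_pos (-a)
  have h0 := Fk_anti hw hp h.g k q
  have h1 := mul_le_mul_of_nonneg_left (JG_le hw hp h (k := k) hq) h0
  refine h1.trans ?_
  have hdet := rho_det hw hp h.g k q
  set R : ℤ → ℝ := bw w p (k + 1) (N - (k + 1)) with hR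
  have e1 : rho w p l r' X k q * (mm w p l r' k (q - 1) * mm w p l r' k q * (p k * w k (q - 1) * w k q *
      (R q - R (q - 1)) ^ 2) / (TT w p l r' lo hi N (k + 1) (q + 1) * TT w p l r' lo hi N (k + 1) q)) =
      ((fw w p l k (q - 1) * fw w p r' k q - fw w p l k q * fw w p r' k (q - 1)) * (p k * w k (q - 1) * w k q)) *
        (R q - R (q - 1)) ^ 2 / (TT w p l r' lo hi N (k + 1) (q + 1) * TT w p l r' lo hi N (k + 1) q) := by
    rw [← hdet]
    unfold mm
    ring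
  rw [e1]
  have hsum : p k * w k (q - 1) * fw w p l k (q - 1) + Real.exp (-a) * (w k q * fw w p r k q) ≤ mm w p l r' (k + 1) q := by
    rw [mm_succ]
    unfold mm
    rw [f1, f1]
    have a1 : 0 ≤ w k q * fw w p l k q := by positivity
    have a2 : 0 ≤ p k * (w k (q - 1) * (Real.exp (-a) * fw w p r k (q - 1))) := by positivity
    nlinarith
  refine to_lgd (by positivity) (by positivity) hR1 hR2 (by positivity) ?_ ?_ ?_ (TT_pos hw hp h _ _) (TT_pos hw hp h _ _)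
  · rw [f1, f1]
    have a1 : 0 ≤ fw w p l k q * (Real.exp (-a) * fw w p r k (q - 1)) * (p k * w k (q - 1) * w k q) := by positivity
    nlinarith
  · have h2 := le_TT (N := N) hw hp h.g (k := k + 1) m2 (q + 1)
    rw [if_pos (show q < q + 1 by omega)] at h2
    exact (mul_le_mul_of_nonneg_right hsum hR1.le).trans h2
  · have h2 := le_TT (N := N) hw hp h.g (k := k + 1) m2 q
    rw [if_neg (lt_irrefl q)] at h2
    exact (mul_le_mul_of_nonneg_right hsum hR2.le).trans h2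

end level

/-! ### The contexts -/

/-- The masses of the right group. -/
structure Cx.Ok (Γ : Cx) : Prop where
  k1 : 1 ≤ Γ.k
  q0 : ∀ j, j < Γ.k → 0 ≤ Γ.q j
  q1 : ∃ j, j < Γ.k ∧ 0 < Γ.q j

theorem Adm.ok {μ : Measure ℝ} {s c δ κ : ℝ} {n : ℕ} {Γ : Cx} (h : Adm μ s c δ κ n Γ) : Γ.Ok := ⟨h.k1, h.q0, h.q1⟩

theorem ref_ok {μ : Measure ℝ} {s : ℝ} {n : ℕ} (h : 0 < wd μ s n) : (ref μ s n).Ok := by
  have hk : 1 ≤ ⌈wd μ s n⌉₊ := Nat.one_le_ceil_iff.2 h
  refine ⟨hk, fun j _ => ?_, ⟨⌈wd μ s n⌉₊ - 1, ?_, ?_⟩⟩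
  · show (0 : ℝ) ≤ if j + 1 = ⌈wd μ s n⌉₊ then 1 else 0
    split_ifs <;> norm_num
  · show ⌈wd μ s n⌉₊ - 1 < ⌈wd μ s n⌉₊
    omega
  · show (0 : ℝ) < if ⌈wd μ s n⌉₊ - 1 + 1 = ⌈wd μ s n⌉₊ then 1 else 0
    rw [if_pos (by omega)]
    exact one_pos

namespace Cx

variable {Γ : Cx}

theorem p_pos (Γ : Cx) (i : ℕ) : 0 < Γ.p i := by
  unfold p
  split_ifs <;> exact Real.exp_pos _

theorem p_le (Γ : Cx) (i : ℕ) : Γ.p i ≤ Real.exp (|Γ.s| + |Γ.h|) := by
  unfold p
  have h1 := le_abs_self Γ.s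
  have h2 := le_abs_self Γ.h
  have h3 := abs_nonneg Γ.h
  split_ifs
  · exact Real.exp_le_exp.2 (by linarith)
  · exact Real.exp_le_exp.2 (by linarith)

theorem l_zero : l 0 = 1 := if_pos rfl

theorem l_ne {y : ℤ} (h : y ≠ 0) : l y = 0 := if_neg h

theorem l_nonneg (y : ℤ) : 0 ≤ l y := by
  unfold l
  split_ifs <;> norm_num

theorem r_nonneg (h : Γ.Ok) (y : ℤ) : 0 ≤ Γ.r y := by
  unfold r
  by_cases h1 : 1 ≤ y ∧ y ≤ Γ.k
  · rw [if_pos h1]
    exact h.q0 _ (by omega)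
  · rw [if_neg h1]

theorem r_out (Γ : Cx) {y : ℤ} (h1 : ¬ (1 ≤ y ∧ y ≤ Γ.k)) : Γ.r y = 0 := if_neg h1

theorem r_pos (h : Γ.Ok) : ∃ y : ℤ, 1 ≤ y ∧ y ≤ Γ.k ∧ 0 < Γ.r y := by
  obtain ⟨j, hj, hq⟩ := h.q1
  have h1 : (1 : ℤ) ≤ (j : ℤ) + 1 ∧ (j : ℤ) + 1 ≤ Γ.k := ⟨by omega, by omega⟩
  refine ⟨(j : ℤ) + 1, h1.1, h1.2, ?_⟩
  unfold r
  rw [if_pos h1]
  have e : ((j : ℤ) + 1 - 1).toNat = j := by omega
  rw [e]
  exact hq

/-- The two groups, the right one with a factor. -/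
theorem grp {c : ℝ} (hc : 0 ≤ c) (h : Γ.Ok) : Grp l (fun y => c * Γ.r y) 1 where
  l0 := l_nonneg
  r0 := fun y => mul_nonneg hc (r_nonneg h y)
  lX := fun y hy => l_ne (by omega)
  rX := fun y hy => by
    show c * Γ.r y = 0
    rw [Γ.r_out (by omega), mul_zero]

theorem box {c : ℝ} (hc : 0 ≤ c) (h : Γ.Ok) : Box l (fun y => c * Γ.r y) 1 0 Γ.hi Γ.N where
  g := grp hc h
  lo0 := fun y hy => ⟨l_ne (by omega), by
    show c * Γ.r y = 0
    rw [Γ.r_out (by omega), mul_zero]⟩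
  hi0 := fun y hy => by
    have hk := h.k1
    unfold hi at hy
    exact ⟨l_ne (by omega), by
      show c * Γ.r y = 0
      rw [Γ.r_out (by omega), mul_zero]⟩
  X0 := by norm_num
  X1 := by
    have hk := h.k1
    unfold hi
    omega
  ps := ⟨0, by
    show 0 < l 0 + c * Γ.r 0
    rw [l_zero, Γ.r_out (by omega), mul_zero, add_zero]
    exact one_pos⟩

theorem box1 (h : Γ.Ok) : Box l Γ.r 1 0 Γ.hi Γ.N := by
  have h1 := box zero_le_one h
  have e : (fun y => (1 : ℝ) * Γ.r y) = Γ.r := funext fun y => one_mul _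
  rwa [e] at h1

/-! ### Measurability -/

theorem meas_dp68 (Γ : Cx) (k : ℕ) (x y : ℤ) : Measurable fun η : Env => dp (wt η) Γ.p l Γ.r k x y :=
  pm_dp (W := wt) (p := Γ.p) (l := fun _ => l) (r := fun _ => Γ.r) measurable_wt (fun _ => measurable_const)
    (fun _ => measurable_const) k x y

/-- **Joint measurability** in the environment and the level. -/
theorem meas_ct (Γ : Cx) (c : ℕ × ℤ) : Measurable fun z : Env × ℝ => Γ.ct z.1 c z.2 := by
  have hW : ∀ (k : ℕ) (y : ℤ), Measurable fun z : Env × ℝ => wt z.1 k y := fun k y => (measurable_wt k y).comp measurable_fst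
  have hl : ∀ y : ℤ, Measurable fun _ : Env × ℝ => l y := fun y => measurable_const
  have hr : ∀ y : ℤ, Measurable fun z : Env × ℝ => Real.exp (-z.2) * Γ.r y := fun y =>
    (Real.measurable_exp.comp measurable_snd.neg).mul_const _
  exact (pm_rho (W := fun z : Env × ℝ => wt z.1) (l := fun _ => l) (r := fun z y => Real.exp (-z.2) * Γ.r y) hW hl hr c.1 c.2).mul
    ((pm_jg (W := fun z : Env × ℝ => wt z.1) (l := fun _ => l) (r := fun z y => Real.exp (-z.2) * Γ.r y) hW hl hr c.1 c.2).sub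
      (pm_JG (W := fun z : Env × ℝ => wt z.1) (l := fun _ => l) (r := fun z y => Real.exp (-z.2) * Γ.r y) hW hl hr c.1 c.2))

theorem meas_ct_left (Γ : Cx) (c : ℕ × ℤ) (a : ℝ) : Measurable fun η : Env => Γ.ct η c a :=
  (Γ.meas_ct c).comp (measurable_id.prodMk measurable_const)

theorem meas_ct_right (Γ : Cx) (c : ℕ × ℤ) (η : Env) : Measurable fun a : ℝ => Γ.ct η c a :=
  (Γ.meas_ct c).comp (measurable_const.prodMk measurable_id)

/-- The contact functional is measurable. -/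
theorem meas_C (Γ : Cx) (c : ℕ × ℤ) : Measurable (Γ.C c) :=
  ((Γ.meas_ct c).stronglyMeasurable.integral_prod_right' (ν := (volume : Measure ℝ))).measurable

theorem meas_ZM (Γ : Cx) : Measurable Γ.ZM := pm_bw measurable_wt _ _ _

theorem meas_ZR (Γ : Cx) : Measurable Γ.ZR := by
  unfold ZR
  exact Finset.measurable_sum _ fun y _ => measurable_const.mul (pm_bw measurable_wt _ _ _)

theorem meas_Z0 (Γ : Cx) : Measurable Γ.Z0 := by
  unfold Z0
  exact Finset.measurable_sum _ fun y _ => measurable_const.mul (pm_bw measurable_wt _ _ _)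

/-- The balance point is measurable. -/
theorem meas_B (Γ : Cx) : Measurable Γ.B :=
  (Real.measurable_log.comp Γ.meas_Z0).sub (Real.measurable_log.comp Γ.meas_ZM)

/-- The natural weight is measurable. -/
theorem meas_w (Γ : Cx) (c : ℕ × ℤ) : Measurable (Γ.w c) := by
  unfold w
  exact ((Γ.meas_dp68 _ _ _).mul ((measurable_const.mul ((measurable_wt _ _).mul (measurable_wt _ _))).mul
    ((pm_bw measurable_wt _ _ _).pow_const 2))).div (Γ.meas_ZM.mul Γ.meas_ZR)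

theorem meas_zs68 (Γ : Cx) {f : ℤ → ℝ} (c : ℕ × ℤ) : Measurable fun η : Env =>
    K91.zs (Finset.Icc 0 Γ.hi) (fw (wt η) Γ.p f c.1) (wt η c.1) (GG (wt η) Γ.p Γ.N c.1) c.2 :=
  pm_zs (m := fun η => fw (wt η) Γ.p f c.1) (w := fun η => wt η c.1) (G := fun η => GG (wt η) Γ.p Γ.N c.1)
    (fun y => pm_fw (W := wt) (p := Γ.p) (l := fun _ => f) measurable_wt (fun _ => measurable_const) c.1 y)
    (fun y => measurable_wt c.1 y) (fun y => pm_GG (W := wt) (p := Γ.p) (N := Γ.N) measurable_wt c.1 y) c.2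

/-- The weight of the contact in its frame is measurable. -/
theorem meas_ws (Γ : Cx) (c : ℕ × ℤ) : Measurable (Γ.ws c) := by
  unfold ws
  exact ((Γ.meas_dp68 _ _ _).mul ((measurable_const.mul ((measurable_wt _ _).mul (measurable_wt _ _))).mul
    ((pm_GG measurable_wt _ _).pow_const 2))).div ((Γ.meas_zs68 c).mul (Γ.meas_zs68 c))

theorem meas_nm (Γ : Cx) (i : ℕ) : Measurable fun η : Env => nm (wt η) Γ.p l Γ.r 0 Γ.hi Γ.N i :=
  pm_nm (W := wt) (p := Γ.p) (l := fun _ => l) (r := fun _ => Γ.r) measurable_wt (fun _ => measurable_const)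
    (fun _ => measurable_const) i

/-! ### Positivity of the masses -/

theorem ZM_pos (Γ : Cx) (η : Env) : 0 < Γ.ZM η := bw_pos (wt_pos η) Γ.p_pos _ _ _

theorem ZM_eq (h : Γ.Ok) (η : Env) : ∑ y ∈ Finset.Icc (0 : ℤ) Γ.hi, l y * bw (wt η) Γ.p 0 Γ.N y = Γ.ZM η := by
  rw [sum_eq_single (0 : ℤ)]
  · rw [l_zero, one_mul]
    rfl
  · intro y _ hy
    rw [l_ne hy, zero_mul]
  · intro h0
    exact absurd (mem_Icc.2 ⟨le_rfl, by unfold hi; omega⟩) h0

theorem ZR_pos (h : Γ.Ok) (η : Env) : 0 < Γ.ZR η := by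
  obtain ⟨y, h1, h2, h3⟩ := r_pos h
  unfold ZR
  exact sum_pos' (fun z _ => mul_nonneg (r_nonneg h z) (bw_pos (wt_pos η) Γ.p_pos _ _ _).le)
    ⟨y, mem_Icc.2 ⟨by omega, by unfold hi; omega⟩, mul_pos h3 (bw_pos (wt_pos η) Γ.p_pos _ _ _)⟩

theorem Z0_pos (h : Γ.Ok) (η : Env) : 0 < Γ.Z0 η := by
  obtain ⟨y, h1, h2, h3⟩ := r_pos h
  unfold Z0
  exact sum_pos' (fun z _ => mul_nonneg (r_nonneg h z) (bw_pos (wt_pos η) Γ.p_pos _ _ _).le)
    ⟨y, mem_Icc.2 ⟨by omega, by unfold hi; omega⟩, mul_pos h3 (bw_pos (wt_pos η) Γ.p_pos _ _ _)⟩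

/-! ### The natural weight: the law of the first meeting -/

/-- The numerator of the natural weight is nonnegative. -/
theorem num_nonneg (h : Γ.Ok) (η : Env) (i : ℕ) (x : ℤ) : 0 ≤ dp (wt η) Γ.p l Γ.r i (x - 1) x *
    (Γ.p i * (wt η i (x - 1) * wt η i x) * bw (wt η) Γ.p (i + 1) (Γ.N - (i + 1)) x ^ 2) := by
  have h1 := dp_nonneg (wt_pos η) Γ.p_pos (box1 h).g i (x - 1) x (by omega)
  have h2 := wt_pos η i (x - 1)
  have h3 := wt_pos η i x
  have h4 := Γ.p_pos i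
  positivity

theorem w_nonneg (h : Γ.Ok) (c : ℕ × ℤ) (η : Env) : 0 ≤ Γ.w c η :=
  div_nonneg (num_nonneg h η c.1 c.2) (mul_nonneg (Γ.ZM_pos η).le (ZR_pos h η).le)

/-- The row `i`: the mass of the pairs which meet, over the cuts which can be reached. -/
theorem mt_eq (h : Γ.Ok) (η : Env) {i : ℕ} (hi : i < Γ.N) : mt (wt η) Γ.p l Γ.r 0 Γ.hi Γ.N i =
    ∑ x ∈ Finset.Icc (1 : ℤ) (1 + (Γ.N : ℤ)), dp (wt η) Γ.p l Γ.r i (x - 1) x *
      (Γ.p i * (wt η i (x - 1) * wt η i x) * bw (wt η) Γ.p (i + 1) (Γ.N - (i + 1)) x ^ 2) := by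
  have hk := h.k1
  unfold K91P.mt
  refine (sum_subset (fun x hx => ?_) fun x hx hx2 => ?_).symm
  · rw [mem_Icc] at hx ⊢
    unfold Cx.hi
    omega
  · rw [mem_Icc] at hx hx2
    have e : dp (wt η) Γ.p l Γ.r i (x - 1) x = 0 := by
      by_cases h1 : x < 1
      · exact dp_zero_left (box1 h) i (by omega) x
      · have f : ∀ z : ℤ, (i : ℤ) < z → fw (wt η) Γ.p l i z = 0 := fun z hz =>
          fw_hi (B := 0) (fun y hy => l_ne (by omega)) i z (by omega)
        unfold dp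
        rw [f (x - 1) (by omega), f x (by omega)]
        ring
    rw [e, zero_mul]

/-- The sum over a row of the natural weights. -/
theorem sum_w_row (h : Γ.Ok) (η : Env) {i : ℕ} (hi : i < Γ.N) : ∑ x ∈ Finset.Icc (1 : ℤ) (1 + (Γ.N : ℤ)), Γ.w (i, x) η =
    mt (wt η) Γ.p l Γ.r 0 Γ.hi Γ.N i / (Γ.ZM η * Γ.ZR η) := by
  rw [mt_eq h η hi, sum_div]
  rfl

/-- The share of the pairs which have not met up to the row `i`. -/
def nmt (Γ : Cx) (i : ℕ) (η : Env) : ℝ := nm (wt η) Γ.p l Γ.r 0 Γ.hi Γ.N i / (Γ.ZM η * Γ.ZR η)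

theorem nmt_nonneg (h : Γ.Ok) (i : ℕ) (η : Env) : 0 ≤ Γ.nmt i η :=
  div_nonneg (nm_nonneg (wt_pos η) Γ.p_pos (box1 h).g i) (mul_nonneg (Γ.ZM_pos η).le (ZR_pos h η).le)

theorem nmt_zero (h : Γ.Ok) (η : Env) : Γ.nmt 0 η = 1 := by
  unfold nmt
  rw [nm_zero (box1 h), ZM_eq h]
  have h1 := Γ.ZM_pos η
  have h2 := ZR_pos h η
  exact div_self (mul_pos h1 h2).ne'

theorem nmt_succ (h : Γ.Ok) (η : Env) {i : ℕ} (hi : i < Γ.N) :
    Γ.nmt (i + 1) η = Γ.nmt i η - ∑ x ∈ Finset.Icc (1 : ℤ) (1 + (Γ.N : ℤ)), Γ.w (i, x) η := by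
  rw [sum_w_row h η hi]
  unfold nmt
  rw [nm_step (box1 h) hi, add_div]
  ring

/-- **The law of the first meeting**, the rows `a ≤ i < b`. -/
theorem sum_w (h : Γ.Ok) (η : Env) {a b : ℕ} (hab : a ≤ b) (hb : b ≤ Γ.N) :
    ∑ c ∈ Γ.rows a b, Γ.w c η = Γ.nmt a η - Γ.nmt b η := by
  unfold rows
  rw [sum_product]
  induction b, hab using Nat.le_induction with
  | base => simp
  | succ b hab ih =>
    rw [sum_Ico_succ_top hab, ih (by omega), nmt_succ h η (show b < Γ.N by omega)]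
    ring

/-- **The law of the first meeting** up to the row `i`. -/
theorem sum_w0 (h : Γ.Ok) (η : Env) {i : ℕ} (hi : i ≤ Γ.N) :
    ∑ c ∈ Γ.rows 0 i, Γ.w c η = 1 - nm (wt η) Γ.p l Γ.r 0 Γ.hi Γ.N i / (Γ.ZM η * Γ.ZR η) := by
  rw [sum_w h η (Nat.zero_le i) hi, nmt_zero h]
  rfl

theorem nmt_anti (h : Γ.Ok) (η : Env) {a b : ℕ} (hab : a ≤ b) (hb : b ≤ Γ.N) : Γ.nmt b η ≤ Γ.nmt a η := by
  have h1 := sum_w h η hab hb
  have h2 : 0 ≤ ∑ c ∈ Γ.rows a b, Γ.w c η := sum_nonneg fun c _ => w_nonneg h c η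
  linarith

theorem nmt_le_one (h : Γ.Ok) (η : Env) {i : ℕ} (hi : i ≤ Γ.N) : Γ.nmt i η ≤ 1 := by
  rw [← nmt_zero h η]
  exact nmt_anti h η (Nat.zero_le i) hi

/-- The natural weights of the rows `a ≤ i < b` have the sum at most `1`. -/
theorem sum_w_le (h : Γ.Ok) (η : Env) (a b : ℕ) (hb : b ≤ Γ.N) : ∑ c ∈ Γ.rows a b, Γ.w c η ≤ 1 := by
  rcases le_total a b with hab | hab
  · rw [sum_w h η hab hb]
    have h1 := nmt_le_one h η (hab.trans hb)
    have h2 := nmt_nonneg h b η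
    linarith
  · have e : Γ.rows a b = ∅ := by
      unfold rows
      rw [Ico_eq_empty_of_le hab, empty_product]
    rw [e, sum_empty]
    exact zero_le_one

theorem w_le_one (h : Γ.Ok) {c : ℕ × ℤ} (hc : c ∈ Γ.rows 0 Γ.N) (η : Env) : Γ.w c η ≤ 1 :=
  (single_le_sum (f := fun c => Γ.w c η) (fun c _ => w_nonneg h c η) hc).trans (sum_w_le h η 0 Γ.N le_rfl)

theorem rows_sub (Γ : Cx) {a b : ℕ} (hb : b ≤ Γ.N) : Γ.rows a b ⊆ Γ.rows 0 Γ.N := by
  unfold rows
  exact product_subset_product_left (Ico_subset_Ico (Nat.zero_le a) hb)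

theorem mem_rows {Γ : Cx} {a b : ℕ} {c : ℕ × ℤ} : c ∈ Γ.rows a b ↔ (a ≤ c.1 ∧ c.1 < b) ∧ 1 ≤ c.2 ∧ c.2 ≤ 1 + (Γ.N : ℤ) := by
  unfold rows
  rw [mem_product, mem_Ico, mem_Icc]

/-! ### The weight of the contact in its frame -/

theorem zs_nonneg (η : Env) {f : ℤ → ℝ} (hf : ∀ y, 0 ≤ f y) (i : ℕ) (x : ℤ) :
    0 ≤ K91.zs (Finset.Icc 0 Γ.hi) (fw (wt η) Γ.p f i) (wt η i) (GG (wt η) Γ.p Γ.N i) x := by
  unfold K91.zs
  refine sum_nonneg fun y _ => mul_nonneg (mul_nonneg (fw_nonneg (wt_pos η) Γ.p_pos hf i y) (wt_pos η i y).le) ?_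
  split_ifs
  · exact (GG_pos (wt_pos η) Γ.p_pos _ _).le
  · exact (GG_pos (wt_pos η) Γ.p_pos _ _).le

theorem le_zs (η : Env) {f : ℤ → ℝ} (hf : ∀ y, 0 ≤ f y) (i : ℕ) (x : ℤ) {y : ℤ} (hy : y ∈ Finset.Icc 0 Γ.hi) :
    fw (wt η) Γ.p f i y * wt η i y * (if y < x then GG (wt η) Γ.p Γ.N i y else GG (wt η) Γ.p Γ.N i (y - 1)) ≤
      K91.zs (Finset.Icc 0 Γ.hi) (fw (wt η) Γ.p f i) (wt η i) (GG (wt η) Γ.p Γ.N i) x := by
  unfold K91.zs
  refine single_le_sum (f := fun y => fw (wt η) Γ.p f i y * wt η i y *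
    (if y < x then GG (wt η) Γ.p Γ.N i y else GG (wt η) Γ.p Γ.N i (y - 1)))
    (fun y _ => mul_nonneg (mul_nonneg (fw_nonneg (wt_pos η) Γ.p_pos hf i y) (wt_pos η i y).le) ?_) hy
  split_ifs
  · exact (GG_pos (wt_pos η) Γ.p_pos _ _).le
  · exact (GG_pos (wt_pos η) Γ.p_pos _ _).le

theorem ws_nonneg (h : Γ.Ok) (c : ℕ × ℤ) (η : Env) : 0 ≤ Γ.ws c η := by
  unfold ws
  have h1 := dp_nonneg (wt_pos η) Γ.p_pos (box1 h).g c.1 (c.2 - 1) c.2 (by omega)
  have h2 := wt_pos η c.1 (c.2 - 1)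
  have h3 := wt_pos η c.1 c.2
  have h4 := Γ.p_pos c.1
  have h5 := zs_nonneg (Γ := Γ) η l_nonneg c.1 c.2
  have h6 := zs_nonneg (Γ := Γ) η (r_nonneg h) c.1 c.2
  positivity

/-- The weight in the frame is at most the weight of the step. -/
theorem ws_le (h : Γ.Ok) {c : ℕ × ℤ} (hc : c ∈ Γ.rows 0 Γ.N) (η : Env) : Γ.ws c η ≤ Γ.p c.1 := by
  obtain ⟨i, x⟩ := c
  have hc' := mem_rows.1 hc
  simp only at hc'
  have hk := h.k1
  have m1 : x - 1 ∈ Finset.Icc 0 Γ.hi := mem_Icc.2 ⟨by omega, by unfold hi; omega⟩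
  have m2 : x ∈ Finset.Icc 0 Γ.hi := mem_Icc.2 ⟨by omega, by unfold hi; omega⟩
  have a1 := le_zs (Γ := Γ) η l_nonneg i x m1
  have a2 := le_zs (Γ := Γ) η (r_nonneg h) i x m2
  rw [if_pos (show x - 1 < x by omega)] at a1
  rw [if_neg (lt_irrefl x)] at a2
  have n1 := fw_nonneg (wt_pos η) Γ.p_pos l_nonneg i (x - 1)
  have n2 := fw_nonneg (wt_pos η) Γ.p_pos l_nonneg i x
  have n3 := fw_nonneg (wt_pos η) Γ.p_pos (r_nonneg h) i x
  have n4 := fw_nonneg (wt_pos η) Γ.p_pos (r_nonneg h) i (x - 1)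
  have g := GG_pos (N := Γ.N) (wt_pos η) Γ.p_pos i (x - 1)
  have w1 := wt_pos η i (x - 1)
  have w2 := wt_pos η i x
  have hp := Γ.p_pos i
  unfold ws
  simp only
  refine div_le_of_le_mul₀ (mul_nonneg (zs_nonneg η l_nonneg i x) (zs_nonneg η (r_nonneg h) i x)) hp.le ?_
  have b1 := mul_le_mul a1 a2 (by positivity) (zs_nonneg (Γ := Γ) η l_nonneg i x)
  have b2 : dp (wt η) Γ.p l Γ.r i (x - 1) x ≤ fw (wt η) Γ.p l i (x - 1) * fw (wt η) Γ.p Γ.r i x := by
    unfold dp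
    have : 0 ≤ fw (wt η) Γ.p l i x * fw (wt η) Γ.p Γ.r i (x - 1) := by positivity
    linarith
  calc dp (wt η) Γ.p l Γ.r i (x - 1) x * (Γ.p i * (wt η i (x - 1) * wt η i x) * GG (wt η) Γ.p Γ.N i (x - 1) ^ 2)
      ≤ fw (wt η) Γ.p l i (x - 1) * fw (wt η) Γ.p Γ.r i x *
        (Γ.p i * (wt η i (x - 1) * wt η i x) * GG (wt η) Γ.p Γ.N i (x - 1) ^ 2) :=
        mul_le_mul_of_nonneg_right b2 (by positivity)
    _ = Γ.p i * (fw (wt η) Γ.p l i (x - 1) * wt η i (x - 1) * GG (wt η) Γ.p Γ.N i (x - 1) *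
        (fw (wt η) Γ.p Γ.r i x * wt η i x * GG (wt η) Γ.p Γ.N i (x - 1))) := by ring
    _ ≤ _ := mul_le_mul_of_nonneg_left b1 hp.le

/-! ### Integrability -/

/-- The bound of the level integral of the contact functional: the relative differences of the two weights and of the profile. -/
def bdC (Γ : Cx) (c : ℕ × ℤ) (η : Env) : ℝ := sqd (wt η c.1 (c.2 - 1)) (wt η c.1 c.2) +
  sqd (bw (wt η) Γ.p (c.1 + 1) (Γ.N - (c.1 + 1)) c.2) (bw (wt η) Γ.p (c.1 + 1) (Γ.N - (c.1 + 1)) (c.2 - 1))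

theorem bdC_nonneg (Γ : Cx) (c : ℕ × ℤ) (η : Env) : 0 ≤ Γ.bdC c η :=
  add_nonneg (sqd_nonneg (wt_pos η _ _) (wt_pos η _ _))
    (sqd_nonneg (bw_pos (wt_pos η) Γ.p_pos _ _ _) (bw_pos (wt_pos η) Γ.p_pos _ _ _))

/-- **The contact functional at one level**, from above. -/
theorem abs_ct_le (h : Γ.Ok) {c : ℕ × ℤ} (hc : c ∈ Γ.rows 0 Γ.N) (η : Env) (a : ℝ) : |Γ.ct η c a| ≤
    lgd (fw (wt η) Γ.p l c.1 (c.2 - 1)) (fw (wt η) Γ.p Γ.r c.1 c.2) a * sqd (wt η c.1 (c.2 - 1)) (wt η c.1 c.2) +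
    lgd (Γ.p c.1 * wt η c.1 (c.2 - 1) * fw (wt η) Γ.p l c.1 (c.2 - 1)) (wt η c.1 c.2 * fw (wt η) Γ.p Γ.r c.1 c.2) a *
      sqd (bw (wt η) Γ.p (c.1 + 1) (Γ.N - (c.1 + 1)) c.2) (bw (wt η) Γ.p (c.1 + 1) (Γ.N - (c.1 + 1)) (c.2 - 1)) := by
  have hc' := mem_rows.1 hc
  have hb := box (Γ := Γ) (Real.exp_pos (-a)).le h
  have hq : c.2 ∈ Finset.Icc (1 : ℤ) (1 + Γ.N) := mem_Icc.2 hc'.2
  have h1 := rho_jg_le (wt_pos η) Γ.p_pos hb (r_nonneg h) hc'.1.2 hq (by omega)
  have h2 := rho_JG_le (wt_pos η) Γ.p_pos hb (r_nonneg h) (k := c.1) hq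
  have h3 := mul_nonneg (Fk_anti (wt_pos η) Γ.p_pos hb.g c.1 c.2) (jg_nonneg (wt_pos η) Γ.p_pos hb hc'.1.2 hq)
  have h4 := mul_nonneg (Fk_anti (wt_pos η) Γ.p_pos hb.g c.1 c.2) (JG_nonneg (wt_pos η) Γ.p_pos hb c.1 c.2)
  unfold ct
  rw [mul_sub, abs_le]
  constructor <;> linarith

theorem integrable_ct (h : Γ.Ok) {c : ℕ × ℤ} (hc : c ∈ Γ.rows 0 Γ.N) (η : Env) : Integrable (Γ.ct η c) := by
  have n1 := fw_nonneg (wt_pos η) Γ.p_pos l_nonneg c.1 (c.2 - 1)
  have n3 := fw_nonneg (wt_pos η) Γ.p_pos (r_nonneg h) c.1 c.2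
  have w1 := wt_pos η c.1 (c.2 - 1)
  have w2 := wt_pos η c.1 c.2
  have hp := Γ.p_pos c.1
  have i1 := integrable_lgd n1 n3
  have m1 : 0 ≤ Γ.p c.1 * wt η c.1 (c.2 - 1) * fw (wt η) Γ.p l c.1 (c.2 - 1) := by positivity
  have m2 : 0 ≤ wt η c.1 c.2 * fw (wt η) Γ.p Γ.r c.1 c.2 := by positivity
  have i2 := integrable_lgd m1 m2
  refine ((i1.mul_const (sqd (wt η c.1 (c.2 - 1)) (wt η c.1 c.2))).add
    (i2.mul_const (sqd (bw (wt η) Γ.p (c.1 + 1) (Γ.N - (c.1 + 1)) c.2) (bw (wt η) Γ.p (c.1 + 1) (Γ.N - (c.1 + 1)) (c.2 - 1))))).mono'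
    (Γ.meas_ct_right c η).aestronglyMeasurable (Eventually.of_forall fun a => ?_)
  rw [Real.norm_eq_abs]
  exact abs_ct_le h hc η a

/-- **The level integral**: at most the relative differences of the two weights and of the profile. -/
theorem int_abs_ct_le (h : Γ.Ok) {c : ℕ × ℤ} (hc : c ∈ Γ.rows 0 Γ.N) (η : Env) : ∫ a, |Γ.ct η c a| ≤ Γ.bdC c η := by
  have n1 := fw_nonneg (wt_pos η) Γ.p_pos l_nonneg c.1 (c.2 - 1)
  have n3 := fw_nonneg (wt_pos η) Γ.p_pos (r_nonneg h) c.1 c.2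
  have w1 := wt_pos η c.1 (c.2 - 1)
  have w2 := wt_pos η c.1 c.2
  have hp := Γ.p_pos c.1
  have s1 := sqd_nonneg w1 w2
  have s2 := sqd_nonneg (bw_pos (wt_pos η) Γ.p_pos (Γ.N - (c.1 + 1)) (c.1 + 1) c.2)
    (bw_pos (wt_pos η) Γ.p_pos (Γ.N - (c.1 + 1)) (c.1 + 1) (c.2 - 1))
  have i1 := integrable_lgd n1 n3
  have m1 : 0 ≤ Γ.p c.1 * wt η c.1 (c.2 - 1) * fw (wt η) Γ.p l c.1 (c.2 - 1) := by positivity
  have m2 : 0 ≤ wt η c.1 c.2 * fw (wt η) Γ.p Γ.r c.1 c.2 := by positivity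
  have i2 := integrable_lgd m1 m2
  have h1 := integral_mono (integrable_ct h hc η).abs ((i1.mul_const _).add (i2.mul_const _)) (abs_ct_le h hc η)
  refine h1.trans ?_
  rw [show (∫ a, ((fun a => lgd (fw (wt η) Γ.p l c.1 (c.2 - 1)) (fw (wt η) Γ.p Γ.r c.1 c.2) a *
      sqd (wt η c.1 (c.2 - 1)) (wt η c.1 c.2)) + fun a => lgd (Γ.p c.1 * wt η c.1 (c.2 - 1) * fw (wt η) Γ.p l c.1 (c.2 - 1))
      (wt η c.1 c.2 * fw (wt η) Γ.p Γ.r c.1 c.2) a * sqd (bw (wt η) Γ.p (c.1 + 1) (Γ.N - (c.1 + 1)) c.2)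
      (bw (wt η) Γ.p (c.1 + 1) (Γ.N - (c.1 + 1)) (c.2 - 1))) a) = _ from integral_add (i1.mul_const _) (i2.mul_const _),
    integral_mul_const, integral_mul_const]
  unfold bdC
  have j1 := mul_le_mul_of_nonneg_right (integral_lgd_le n1 n3) s1
  have j2 := mul_le_mul_of_nonneg_right (integral_lgd_le m1 m2) s2
  linarith

theorem abs_C_le (h : Γ.Ok) {c : ℕ × ℤ} (hc : c ∈ Γ.rows 0 Γ.N) (η : Env) : |Γ.C c η| ≤ Γ.bdC c η :=
  (abs_integral_le_integral_abs).trans (int_abs_ct_le h hc η)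

/-- The bound of the contact functional is at most exponential in the weights of the box. -/
theorem bdC_le (h : Γ.Ok) {c : ℕ × ℤ} (hc : c ∈ Γ.rows 0 Γ.N) (η : Env) :
    Γ.bdC c η ≤ 2 * Real.exp (2 * Mb 0 Γ.hi Γ.N η) +
      2 * (1 + Real.exp (|Γ.s| + |Γ.h|)) ^ Γ.N * Real.exp (2 * Γ.N * Mb 0 Γ.hi Γ.N η) := by
  obtain ⟨i, x⟩ := c
  have hc' := mem_rows.1 hc
  simp only at hc'
  have hk := h.k1
  have hxh : x ≤ Γ.hi := by unfold hi; omega
  set M := Mb 0 Γ.hi Γ.N η with hM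
  have hM0 : 0 ≤ M := sum_nonneg fun a _ => abs_nonneg _
  set P := Real.exp (|Γ.s| + |Γ.h|) with hP
  have hP0 : 0 < P := Real.exp_pos _
  have hwb : ∀ (j : ℕ) (y : ℤ), j < Γ.N → -1 ≤ y → y ≤ Γ.hi + Γ.N → Real.exp (-M) ≤ wt η j y ∧ wt η j y ≤ Real.exp M :=
    fun j y h1 h2 h3 => wt_Mb 0 Γ.hi Γ.N η j y h1 (by omega) h3
  have hratio : ∀ {u v U D : ℝ}, 0 < v → 0 < D → u ≤ U → D ≤ v → 0 ≤ U → u / v ≤ U / D := by
    intro u v U D hv hD hu hDv hU
    exact div_le_div₀ hU hu hD hDv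
  -- the two weights
  have e1 : sqd (wt η i (x - 1)) (wt η i x) ≤ 2 * Real.exp (2 * M) := by
    have a1 := hwb i (x - 1) hc'.1.2 (by omega) (by omega)
    have a2 := hwb i x hc'.1.2 (by omega) (by omega)
    have b1 := hratio (wt_pos η i x) (Real.exp_pos (-M)) a1.2 a2.1 (Real.exp_pos M).le
    have b2 := hratio (wt_pos η i (x - 1)) (Real.exp_pos (-M)) a2.2 a1.1 (Real.exp_pos M).le
    have e : Real.exp M / Real.exp (-M) = Real.exp (2 * M) := by
      rw [← Real.exp_sub]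
      congr 1
      ring
    rw [e] at b1 b2
    refine (sqd_le (wt_pos η i (x - 1)) (wt_pos η i x)).trans ?_
    linarith
  -- the profile
  have e2 : sqd (bw (wt η) Γ.p (i + 1) (Γ.N - (i + 1)) x) (bw (wt η) Γ.p (i + 1) (Γ.N - (i + 1)) (x - 1)) ≤
      2 * (1 + P) ^ Γ.N * Real.exp (2 * Γ.N * M) := by
    have hU := Real.exp_pos M
    have hD := Real.exp_pos (-M)
    have up : ∀ y : ℤ, 0 ≤ y → y ≤ 1 + (Γ.N : ℤ) → bw (wt η) Γ.p (i + 1) (Γ.N - (i + 1)) y ≤
        ((1 + P) * Real.exp M) ^ (Γ.N - (i + 1)) := fun y h1 h2 =>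
      bw_le (a := 0) (b := Γ.hi + Γ.N) (n := Γ.N) (wt_pos η) Γ.p_pos hU.le (fun j _ => Γ.p_le j)
        (fun j z hj h3 h4 => (hwb j z hj (by omega) h4).2) (Γ.N - (i + 1)) (i + 1) y (by omega) h1
        (by unfold hi; push_cast [show i + 1 ≤ Γ.N by omega]; omega)
    have dn : ∀ y : ℤ, 0 ≤ y → y ≤ 1 + (Γ.N : ℤ) → Real.exp (-M) ^ (Γ.N - (i + 1)) ≤
        bw (wt η) Γ.p (i + 1) (Γ.N - (i + 1)) y := fun y h1 h2 =>
      le_bw (a := 0) (b := Γ.hi + Γ.N) (n := Γ.N) (wt_pos η) Γ.p_pos hD.le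
        (fun j z hj h3 h4 => (hwb j z hj (by omega) h4).1) (Γ.N - (i + 1)) (i + 1) y (by omega) h1
        (by unfold hi; omega)
    have hx1 := bw_pos (wt_pos η) Γ.p_pos (Γ.N - (i + 1)) (i + 1) x
    have hx2 := bw_pos (wt_pos η) Γ.p_pos (Γ.N - (i + 1)) (i + 1) (x - 1)
    have b1 := hratio hx2 (pow_pos hD (Γ.N - (i + 1))) (up x (by omega) (by omega)) (dn (x - 1) (by omega) (by omega))
      (by positivity)
    have b2 := hratio hx1 (pow_pos hD (Γ.N - (i + 1))) (up (x - 1) (by omega) (by omega)) (dn x (by omega) (by omega))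
      (by positivity)
    have e : ((1 + P) * Real.exp M) ^ (Γ.N - (i + 1)) / Real.exp (-M) ^ (Γ.N - (i + 1)) ≤
        (1 + P) ^ Γ.N * Real.exp (2 * Γ.N * M) := by
      have c0 : (1 + P) * Real.exp M / Real.exp (-M) = (1 + P) * Real.exp (2 * M) := by
        rw [mul_div_assoc, ← Real.exp_sub]
        congr 2
        ring
      rw [← div_pow, c0]
      have c1 : (1 : ℝ) ≤ (1 + P) * Real.exp (2 * M) :=
        one_le_mul_of_one_le_of_one_le (by linarith) (Real.one_le_exp (by positivity))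
      refine (pow_le_pow_right₀ c1 (show Γ.N - (i + 1) ≤ Γ.N by omega)).trans (le_of_eq ?_)
      rw [mul_pow, ← Real.exp_nat_mul]
      congr 2
      ring
    refine (sqd_le hx1 hx2).trans ?_
    linarith [b1.trans e, b2.trans e]
  unfold bdC
  simp only
  linarith

section law

variable {μ : Measure ℝ} [IsProbabilityMeasure μ]

theorem int_exp_Mb (hμ : Pool.Agent.W_7d29a1_h47.EM μ) (lo hi : ℤ) (N : ℕ) (b : ℝ) :
    Integrable (fun η : Env => Real.exp (b * Mb lo hi N η)) (law μ) :=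
  Pool.Agent.W_7d29a1_UB.integrable_exp_sites27 hμ _ b

/-- The bound of the contact functional is integrable. -/
theorem int_bdC (hμ : Pool.Agent.W_7d29a1_h47.EM μ) (h : Γ.Ok) {c : ℕ × ℤ} (hc : c ∈ Γ.rows 0 Γ.N) :
    Integrable (Γ.bdC c) (law μ) := by
  have hm : Measurable (Γ.bdC c) := by
    unfold bdC sqd
    exact ((((measurable_wt _ _).sub (measurable_wt _ _)).pow_const 2).div ((measurable_wt _ _).mul (measurable_wt _ _))).add
      ((((pm_bw measurable_wt _ _ _).sub (pm_bw measurable_wt _ _ _)).pow_const 2).div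
        ((pm_bw measurable_wt _ _ _).mul (pm_bw measurable_wt _ _ _)))
  refine (((int_exp_Mb hμ 0 Γ.hi Γ.N 2).const_mul 2).add
    ((int_exp_Mb hμ 0 Γ.hi Γ.N (2 * Γ.N)).const_mul (2 * (1 + Real.exp (|Γ.s| + |Γ.h|)) ^ Γ.N))).mono'
    hm.aestronglyMeasurable (Eventually.of_forall fun η => ?_)
  rw [Real.norm_eq_abs, abs_of_nonneg (Γ.bdC_nonneg c η)]
  exact bdC_le h hc η

/-- **The contact functional is integrable.** -/
theorem int_C (hμ : Pool.Agent.W_7d29a1_h47.EM μ) (h : Γ.Ok) {c : ℕ × ℤ} (hc : c ∈ Γ.rows 0 Γ.N) :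
    Integrable (Γ.C c) (law μ) := by
  refine (int_bdC hμ h hc).mono' (Γ.meas_C c).aestronglyMeasurable (Eventually.of_forall fun η => ?_)
  rw [Real.norm_eq_abs]
  exact abs_C_le h hc η

/-- The contact functional is integrable in the environment and the level. -/
theorem int_ct (hμ : Pool.Agent.W_7d29a1_h47.EM μ) (h : Γ.Ok) {c : ℕ × ℤ} (hc : c ∈ Γ.rows 0 Γ.N) :
    Integrable (fun z : Env × ℝ => Γ.ct z.1 c z.2) ((law μ).prod volume) := by
  have hm := (Γ.meas_ct c).aestronglyMeasurable (μ := (law μ).prod volume)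
  rw [integrable_prod_iff hm]
  refine ⟨Eventually.of_forall fun η => integrable_ct h hc η, ?_⟩
  refine (int_bdC hμ h hc).mono' ?_ (Eventually.of_forall fun η => ?_)
  · exact hm.norm.integral_prod_right'
  · rw [Real.norm_eq_abs, abs_of_nonneg (integral_nonneg fun a => norm_nonneg _)]
    exact int_abs_ct_le h hc η

/-- With a bounded weight of the level. -/
theorem int_g_ct (hμ : Pool.Agent.W_7d29a1_h47.EM μ) (h : Γ.Ok) {c : ℕ × ℤ} (hc : c ∈ Γ.rows 0 Γ.N) {g : ℝ → ℝ} {G : ℝ}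
    (gm : Measurable g) (gb : ∀ a, |g a| ≤ G) :
    Integrable (fun z : Env × ℝ => g z.2 * Γ.ct z.1 c z.2) ((law μ).prod volume) :=
  (int_ct hμ h hc).bdd_mul (gm.comp measurable_snd).aestronglyMeasurable (Eventually.of_forall fun z => gb z.2)

/-- **Fubini** for the contact functional with a bounded weight of the level. -/
theorem swap_ct (hμ : Pool.Agent.W_7d29a1_h47.EM μ) (h : Γ.Ok) {c : ℕ × ℤ} (hc : c ∈ Γ.rows 0 Γ.N) {g : ℝ → ℝ} {G : ℝ}
    (gm : Measurable g) (gb : ∀ a, |g a| ≤ G) :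
    ∫ a, g a * ∫ η, Γ.ct η c a ∂(law μ) = ∫ η, (∫ a, g a * Γ.ct η c a) ∂(law μ) := by
  have h1 := integral_integral_swap (f := fun (η : Env) (a : ℝ) => g a * Γ.ct η c a) (int_g_ct hμ h hc gm gb)
  rw [h1]
  refine integral_congr_ae (Eventually.of_forall fun a => ?_)
  simp only
  rw [integral_const_mul]

theorem int_w (h : Γ.Ok) {c : ℕ × ℤ} (hc : c ∈ Γ.rows 0 Γ.N) : Integrable (Γ.w c) (law μ) := by
  refine (integrable_const (1 : ℝ)).mono' (Γ.meas_w c).aestronglyMeasurable (Eventually.of_forall fun η => ?_)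
  rw [Real.norm_eq_abs, abs_of_nonneg (w_nonneg h c η)]
  exact w_le_one h hc η

theorem int_ws (h : Γ.Ok) {c : ℕ × ℤ} (hc : c ∈ Γ.rows 0 Γ.N) : Integrable (Γ.ws c) (law μ) := by
  refine (integrable_const (Γ.p c.1)).mono' (Γ.meas_ws c).aestronglyMeasurable (Eventually.of_forall fun η => ?_)
  rw [Real.norm_eq_abs, abs_of_nonneg (ws_nonneg h c η)]
  exact ws_le h hc η

end law

/-! ### The share of the first sites -/

/-- The share of the first `d` sites in the right group (gap `0`). -/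
def shr (Γ : Cx) (d : ℕ) (η : Env) : ℝ := (∑ j ∈ Finset.range (min d Γ.k), Γ.q j * bw (wt η) Γ.p 0 Γ.N (j : ℤ)) /
    (∑ j ∈ Finset.range Γ.k, Γ.q j * bw (wt η) Γ.p 0 Γ.N (j : ℤ))

theorem meas_shr (Γ : Cx) (d : ℕ) : Measurable (Γ.shr d) :=
  (Finset.measurable_sum _ fun j _ => measurable_const.mul (pm_bw measurable_wt _ _ _)).div
    (Finset.measurable_sum _ fun j _ => measurable_const.mul (pm_bw measurable_wt _ _ _))

theorem shr_nonneg (h : Γ.Ok) (d : ℕ) (η : Env) : 0 ≤ Γ.shr d η := by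
  unfold shr
  refine div_nonneg (sum_nonneg fun j hj => ?_) (sum_nonneg fun j hj => ?_)
  · exact mul_nonneg (h.q0 j (by rw [mem_range] at hj; omega)) (bw_pos (wt_pos η) Γ.p_pos _ _ _).le
  · exact mul_nonneg (h.q0 j (mem_range.1 hj)) (bw_pos (wt_pos η) Γ.p_pos _ _ _).le

theorem shr_mono (h : Γ.Ok) {d e : ℕ} (hde : d ≤ e) (η : Env) : Γ.shr d η ≤ Γ.shr e η := by
  unfold shr
  refine div_le_div_of_nonneg_right (sum_le_sum_of_subset_of_nonneg (range_mono (by omega)) fun j hj _ => ?_)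
    (sum_nonneg fun j hj => ?_)
  · exact mul_nonneg (h.q0 j (by rw [mem_range] at hj; omega)) (bw_pos (wt_pos η) Γ.p_pos _ _ _).le
  · exact mul_nonneg (h.q0 j (mem_range.1 hj)) (bw_pos (wt_pos η) Γ.p_pos _ _ _).le

theorem shr_le_one (h : Γ.Ok) (d : ℕ) (η : Env) : Γ.shr d η ≤ 1 := by
  unfold shr
  refine div_le_one_of_le₀ (sum_le_sum_of_subset_of_nonneg (range_mono (by omega)) fun j hj _ => ?_)
    (sum_nonneg fun j hj => ?_)
  · exact mul_nonneg (h.q0 j (mem_range.1 hj)) (bw_pos (wt_pos η) Γ.p_pos _ _ _).le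
  · exact mul_nonneg (h.q0 j (mem_range.1 hj)) (bw_pos (wt_pos η) Γ.p_pos _ _ _).le

theorem int_shr {μ : Measure ℝ} [IsProbabilityMeasure μ] (h : Γ.Ok) (d : ℕ) : Integrable (Γ.shr d) (law μ) := by
  refine (integrable_const (1 : ℝ)).mono' (Γ.meas_shr d).aestronglyMeasurable (Eventually.of_forall fun η => ?_)
  rw [Real.norm_eq_abs, abs_of_nonneg (shr_nonneg h d η)]
  exact shr_le_one h d η

theorem near_eq (Γ : Cx) (μ : Measure ℝ) (d : ℕ) : Γ.near μ d = ∫ η, Γ.shr d η ∂(law μ) := rfl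

theorem near_nonneg {μ : Measure ℝ} (h : Γ.Ok) (d : ℕ) : 0 ≤ Γ.near μ d :=
  integral_nonneg fun η => shr_nonneg h d η

theorem near_mono {μ : Measure ℝ} [IsProbabilityMeasure μ] (h : Γ.Ok) {d e : ℕ} (hde : d ≤ e) : Γ.near μ d ≤ Γ.near μ e :=
  integral_mono (int_shr h d) (int_shr h e) fun η => shr_mono h hde η

theorem near_le_one {μ : Measure ℝ} [IsProbabilityMeasure μ] (h : Γ.Ok) (d : ℕ) : Γ.near μ d ≤ 1 := by
  have h1 : Γ.near μ d ≤ ∫ _ : Env, (1 : ℝ) ∂(law μ) := integral_mono (int_shr h d) (integrable_const 1) fun η => shr_le_one h d η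
  simpa using h1

end Cx

end

end Pool.Agent.W_7d29a1_C1.H60
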