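import Pool.Agent.W_7d29a1_C1.CtxB8
import Pool.Agent.W_7d29a1_C1.NearL83
import Pool.Agent.W_7d29a1_C1.CtxM68

/-!
MP_7d29a1_pr, attractor route (helper8): THE LAST STEP OF THE ASSEMBLY. From the localisation in the level (`LocP8`), the size of the
frame weights (`XP8`, `TopP8`), the first rows (`near83`, a theorem of helper83) and the ratio statement for the total functional of the
middle rows (`PhiP8`) to the loss of memory at one site (`LMC8`, so `LMR54`).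
-/

set_option autoImplicit false

namespace Pool.Agent.W_7d29a1_C1.H8

open MeasureTheory ProbabilityTheory Set Finset Filter Topology
open Pool.Agent.W_7d29a1_F Pool.Agent.W_7d29a1_h4g Pool.Agent.W_7d29a1_H Pool.Agent.W_7d29a1_HS
open Pool.Agent.W_7d29a1_h47 (EM)
open Pool.Agent.W_7d29a1_C1.H54 (LMx LMR54)
open Pool.Agent.W_7d29a1_C1.H60 (Cx Adm)
open scoped ENNReal NNReal

noncomputable section

/-- The total functional of the rows `d ≤ i < N - d`. -/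
def Phi8 (Γ : Cx) (d : ℕ) (η : Env) : ℝ := ∑ b ∈ Γ.rows d (Γ.N - d), Γ.C b η

/-! ### One context -/

section one

variable {μ : Measure ℝ} [IsProbabilityMeasure μ] {Γ : Cx}

theorem rows_split (Γ : Cx) {a b c : ℕ} (hab : a ≤ b) (hbc : b ≤ c) (f : ℕ × ℤ → ℝ) :
    ∑ x ∈ Γ.rows a c, f x = ∑ x ∈ Γ.rows a b, f x + ∑ x ∈ Γ.rows b c, f x := by
  unfold Cx.rows
  rw [Finset.sum_product, Finset.sum_product, Finset.sum_product]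
  exact (Finset.sum_Ico_consecutive _ hab hbc).symm

/-- **One context**: the first rows, the localisation, the last rows, the total functional. -/
theorem core8 (hμ : EM μ) (hG : Γ.Ok) {d : ℕ} (hd : d + d ≤ Γ.N) {g : ℝ → ℝ} {G : ℝ} (gm : Measurable g) (gG : ∀ x, |g x| ≤ G)
    {v B1 B2 B3 B4 : ℝ}
    (h1 : ∑ b ∈ Γ.rows 0 d, ∫ η, |∫ a, g a * Γ.ct η b a| ∂(law μ) ≤ B1)
    (h2 : ∑ b ∈ Γ.rows 0 Γ.N, ∫ η, |(∫ a, g a * Γ.ct η b a) - g (Γ.B η) * Γ.C b η| ∂(law μ) ≤ B2)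
    (h3 : ∑ b ∈ Γ.rows (Γ.N - d) Γ.N, ∫ η, |Γ.C b η| ∂(law μ) ≤ B3)
    (h4 : |(∫ η, g (Γ.B η) * Phi8 Γ d η ∂(law μ)) - v * ∫ η, g (Γ.B η) ∂(law μ)| ≤ B4) :
    |(∑ b ∈ Γ.rows 0 Γ.N, ∫ η, (∫ a, g a * Γ.ct η b a) ∂(law μ)) - v * ∫ η, g (Γ.B η) ∂(law μ)| ≤ B1 + B2 + G * B3 + B4 := by
  have G0 : 0 ≤ G := (abs_nonneg _).trans (gG 0)
  have hsub : ∀ a b : ℕ, b ≤ Γ.N → ∀ x ∈ Γ.rows a b, x ∈ Γ.rows 0 Γ.N := fun a b hb x hx => Cx.rows_sub Γ hb hx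
  have iX : ∀ b ∈ Γ.rows 0 Γ.N, Integrable (fun η => ∫ a, g a * Γ.ct η b a) (law μ) := fun b hb =>
    (Cx.int_g_ct hμ hG hb gm gG).integral_prod_left
  have iY : ∀ b ∈ Γ.rows 0 Γ.N, Integrable (fun η => g (Γ.B η) * Γ.C b η) (law μ) := fun b hb =>
    (Cx.int_C hμ hG hb).bdd_mul (c := G) (gm.comp Γ.meas_B).aestronglyMeasurable (ae_of_all _ fun η => gG _)
  obtain ⟨X, hX⟩ : ∃ X : ℕ × ℤ → ℝ, X = fun b => ∫ η, (∫ a, g a * Γ.ct η b a) ∂(law μ) := ⟨_, rfl⟩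
  obtain ⟨Y, hY⟩ : ∃ Y : ℕ × ℤ → ℝ, Y = fun b => ∫ η, g (Γ.B η) * Γ.C b η ∂(law μ) := ⟨_, rfl⟩
  obtain ⟨D, hD⟩ : ∃ D : ℕ × ℤ → ℝ, D = fun b => ∫ η, |(∫ a, g a * Γ.ct η b a) - g (Γ.B η) * Γ.C b η| ∂(law μ) := ⟨_, rfl⟩
  have hD0 : ∀ b, 0 ≤ D b := fun b => by
    rw [hD]
    exact integral_nonneg fun η => abs_nonneg _
  have hXY : ∀ b ∈ Γ.rows 0 Γ.N, |X b - Y b| ≤ D b := by
    intro b hb
    rw [hX, hY, hD]
    show |(∫ η, (∫ a, g a * Γ.ct η b a) ∂(law μ)) - ∫ η, g (Γ.B η) * Γ.C b η ∂(law μ)| ≤ _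
    rw [← integral_sub (iX b hb) (iY b hb)]
    exact abs_integral_le_integral_abs
  have e1 : ∑ b ∈ Γ.rows 0 Γ.N, X b = ∑ b ∈ Γ.rows 0 d, X b + (∑ b ∈ Γ.rows d (Γ.N - d), X b + ∑ b ∈ Γ.rows (Γ.N - d) Γ.N, X b) := by
    rw [rows_split Γ (Nat.zero_le d) (show d ≤ Γ.N by omega) X, rows_split Γ (show d ≤ Γ.N - d by omega) (Nat.sub_le _ _) X]
  have e2 : ∑ b ∈ Γ.rows 0 Γ.N, D b = ∑ b ∈ Γ.rows 0 d, D b + (∑ b ∈ Γ.rows d (Γ.N - d), D b + ∑ b ∈ Γ.rows (Γ.N - d) Γ.N, D b) := by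
    rw [rows_split Γ (Nat.zero_le d) (show d ≤ Γ.N by omega) D, rows_split Γ (show d ≤ Γ.N - d by omega) (Nat.sub_le _ _) D]
  have k1 : |∑ b ∈ Γ.rows 0 d, X b| ≤ B1 := by
    refine (Finset.abs_sum_le_sum_abs _ _).trans ((Finset.sum_le_sum fun b _ => ?_).trans h1)
    rw [hX]
    exact abs_integral_le_integral_abs
  have k2 : ∀ a b : ℕ, b ≤ Γ.N → |∑ x ∈ Γ.rows a b, X x - ∑ x ∈ Γ.rows a b, Y x| ≤ ∑ x ∈ Γ.rows a b, D x := by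
    intro a b hb
    rw [← Finset.sum_sub_distrib]
    exact (Finset.abs_sum_le_sum_abs _ _).trans (Finset.sum_le_sum fun x hx => hXY x (hsub a b hb x hx))
  have k3 : |∑ b ∈ Γ.rows (Γ.N - d) Γ.N, Y b| ≤ G * B3 := by
    have q1 : ∀ b ∈ Γ.rows (Γ.N - d) Γ.N, |Y b| ≤ G * ∫ η, |Γ.C b η| ∂(law μ) := by
      intro b hb
      rw [hY]
      refine abs_integral_le_integral_abs.trans ?_
      rw [← integral_const_mul]
      refine integral_mono_of_nonneg (ae_of_all _ fun η => abs_nonneg _)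
        ((Cx.int_C hμ hG (hsub _ _ le_rfl b hb)).abs.const_mul G) (ae_of_all _ fun η => ?_)
      show |g (Γ.B η) * Γ.C b η| ≤ G * |Γ.C b η|
      rw [abs_mul]
      exact mul_le_mul_of_nonneg_right (gG _) (abs_nonneg _)
    calc |∑ b ∈ Γ.rows (Γ.N - d) Γ.N, Y b| ≤ ∑ b ∈ Γ.rows (Γ.N - d) Γ.N, |Y b| := Finset.abs_sum_le_sum_abs _ _
      _ ≤ ∑ b ∈ Γ.rows (Γ.N - d) Γ.N, G * ∫ η, |Γ.C b η| ∂(law μ) := Finset.sum_le_sum q1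
      _ = G * ∑ b ∈ Γ.rows (Γ.N - d) Γ.N, ∫ η, |Γ.C b η| ∂(law μ) := (Finset.mul_sum _ _ _).symm
      _ ≤ G * B3 := mul_le_mul_of_nonneg_left h3 G0
  have e3 : ∑ b ∈ Γ.rows d (Γ.N - d), Y b = ∫ η, g (Γ.B η) * Phi8 Γ d η ∂(law μ) := by
    rw [hY]
    show ∑ b ∈ Γ.rows d (Γ.N - d), ∫ η, g (Γ.B η) * Γ.C b η ∂(law μ) = _
    rw [← integral_finsetSum _ fun b hb => iY b (hsub _ _ (Nat.sub_le _ _) b hb)]
    refine integral_congr_ae (ae_of_all _ fun η => ?_)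
    show ∑ b ∈ Γ.rows d (Γ.N - d), g (Γ.B η) * Γ.C b η = g (Γ.B η) * Phi8 Γ d η
    unfold Phi8
    rw [Finset.mul_sum]
  have k4 := k2 d (Γ.N - d) (Nat.sub_le _ _)
  have k5 := k2 (Γ.N - d) Γ.N le_rfl
  have k6 : 0 ≤ ∑ b ∈ Γ.rows 0 d, D b := Finset.sum_nonneg fun b _ => hD0 b
  have h2' : ∑ b ∈ Γ.rows 0 Γ.N, D b ≤ B2 := by rw [hD]; exact h2
  have hgoal : ∑ b ∈ Γ.rows 0 Γ.N, ∫ η, (∫ a, g a * Γ.ct η b a) ∂(law μ) = ∑ b ∈ Γ.rows 0 Γ.N, X b := by rw [hX]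
  rw [hgoal, e1]
  rw [e2] at h2'
  rw [← e3] at h4
  rw [abs_le] at k1 k3 k4 k5 h4 ⊢
  constructor <;> linarith [k1.1, k1.2, k3.1, k3.2, k4.1, k4.2, k5.1, k5.2, h4.1, h4.2]

end one

/-! ### The inputs -/

/-- **LOC** (the conclusion of `loc56` of helper56): `|∫ ct| ≤ n ^ ε ws + R` with a negligible wild part `R`, and a Lipschitz weight of
the level is evaluated at the balance point `B`. -/
def LocP8 (μ : Measure ℝ) (s : ℝ) : Prop :=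
  ∀ ε : ℝ, 0 < ε → ∀ c : ℝ, 0 < c → c ≤ 1 / 512 → ∀ δ : ℝ, 0 < δ → δ ≤ c / 16 → ∃ κ₀ : ℝ, 0 < κ₀ ∧ ∀ κ : ℝ, 0 < κ → κ ≤ κ₀ →
    ∀ᶠ n : ℕ in atTop, ∀ Γ : Cx, Adm μ s c δ κ n Γ → ∃ R : ℕ × ℤ → Env → ℝ,
      (∀ b η, 0 ≤ R b η) ∧ (∀ b ∈ Γ.rows 0 Γ.N, Integrable (R b) (law μ)) ∧
      ∑ b ∈ Γ.rows 0 Γ.N, ∫ η, R b η ∂(law μ) ≤ (n : ℝ) ^ (-(1 : ℝ)) ∧
      ∀ b ∈ Γ.rows 0 Γ.N, ∀ η, (∫ a, |Γ.ct η b a|) ≤ (n : ℝ) ^ ε * Γ.ws b η + R b η ∧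
        ∀ g : ℝ → ℝ, Measurable g → ∀ L : ℝ, 0 ≤ L → (∀ x y, |g x - g y| ≤ L * |x - y|) → ∀ a0 : ℝ,
          |(∫ a, g (a - a0) * Γ.ct η b a) - g (Γ.B η - a0) * Γ.C b η| ≤ L * ((n : ℝ) ^ ε * Γ.ws b η + R b η)

/-- **The frame weights**: the sum over all contacts is at most `n ^ (1 / 20)`, the sum over the last `⌈n ^ e⌉` rows is at most
`n ^ (- c₀)`. -/
def WsP8 (μ : Measure ℝ) (s : ℝ) : Prop :=
  ∀ e : ℝ, 0 < e → e ≤ 1 / 32 → ∃ c₀ : ℝ, 0 < c₀ ∧ ∀ c : ℝ, 0 < c → c ≤ c₀ → ∀ δ : ℝ, 0 < δ → δ ≤ c / 16 → ∃ κ₀ : ℝ, 0 < κ₀ ∧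
    ∀ κ : ℝ, 0 < κ → κ ≤ κ₀ → ∀ᶠ n : ℕ in atTop, ∀ Γ : Cx, Adm μ s c δ κ n Γ →
      ∑ b ∈ Γ.rows 0 Γ.N, ∫ η, Γ.ws b η ∂(law μ) ≤ (n : ℝ) ^ (1 / 20 : ℝ) ∧
      ∑ b ∈ Γ.rows (Γ.N - ⌈(n : ℝ) ^ e⌉₊) Γ.N, ∫ η, Γ.ws b η ∂(law μ) ≤ (n : ℝ) ^ (-c₀)

/-- **THE TOTAL FUNCTIONAL**: up to the error its mean against a function of the balance point is `v` times the mean of the function. -/
def PhiP8 (μ : Measure ℝ) (s : ℝ) : Prop :=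
  ∀ e : ℝ, 0 < e → e ≤ 1 / 32 → ∃ c₀ : ℝ, 0 < c₀ ∧ ∀ c : ℝ, 0 < c → c ≤ c₀ → ∀ δ : ℝ, 0 < δ → δ ≤ c / 16 → ∃ κ₀ : ℝ, 0 < κ₀ ∧
    ∀ κ : ℝ, 0 < κ → κ ≤ κ₀ → ∀ᶠ n : ℕ in atTop, ∃ v : ℝ, ∀ Γ : Cx, Adm μ s c δ κ n Γ → ∀ a0 : ℝ,
      |(∫ η, tri ((n : ℝ) ^ (-c) * EE μ s n) (Γ.B η - a0) * Phi8 Γ ⌈(n : ℝ) ^ e⌉₊ η ∂(law μ)) -
        v * ∫ η, tri ((n : ℝ) ^ (-c) * EE μ s n) (Γ.B η - a0) ∂(law μ)| ≤
        1 / 4 * ((n : ℝ) ^ (-c) / EE μ s n) + (n : ℝ) ^ (2 * e + c) / EE μ s n * Γ.near μ ⌈(n : ℝ) ^ e⌉₊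

/-! ### The numbers -/

/-- The constants are eaten by the powers of `n`. -/
theorem numC8 {n E c e c₀ ε : ℝ} (hn : 1 ≤ n) (hE : n ^ (1 / 9 : ℝ) ≤ E) (hc : 0 < c) (hc1 : c ≤ 1 / 512) (hcc : c ≤ c₀ / 4)
    (hce : c ≤ e / 16) (hε : ε = c / 4) (hbig : 32 ≤ n ^ (c / 4)) {δ near : ℝ} (hδ : 0 ≤ δ) (hnear : 0 ≤ near) :
    n ^ c / E * (n ^ (2 * e + 2 * ε) * near + n ^ (-(1 : ℝ))) +
      (n ^ c / E) ^ 2 * (n ^ ε * n ^ (1 / 20 : ℝ) + n ^ (-(1 : ℝ))) +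
      n ^ c / E * (n ^ ε * n ^ (-c₀) + n ^ (-(1 : ℝ))) +
      (1 / 4 * (n ^ (-c) / E) + n ^ (2 * e + c) / E * near) ≤ n ^ (-c) / E + n ^ (3 * e + δ + c) / E * near := by
  have n0 : 0 < n := by linarith
  have E0 : 0 < E := (Real.rpow_pos_of_pos n0 _).trans_le hE
  have mono : ∀ a b : ℝ, a ≤ b → n ^ a ≤ n ^ b := fun a b h => Real.rpow_le_rpow_of_exponent_le hn h
  have add : ∀ a b : ℝ, n ^ a * n ^ b = n ^ (a + b) := fun a b => (Real.rpow_add n0 a b).symm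
  have pos : ∀ a : ℝ, 0 < n ^ a := fun a => Real.rpow_pos_of_pos n0 a
  -- `32 n ^ a ≤ n ^ b` for `a + c / 4 ≤ b`
  have big : ∀ a b : ℝ, a + c / 4 ≤ b → 32 * n ^ a ≤ n ^ b := fun a b h => by
    calc 32 * n ^ a ≤ n ^ (c / 4) * n ^ a := mul_le_mul_of_nonneg_right hbig (pos a).le
      _ = n ^ (c / 4 + a) := add _ _
      _ ≤ n ^ b := mono _ _ (by linarith)
  have p1 : 32 * (n ^ c * n ^ (-(1 : ℝ))) ≤ n ^ (-c) := by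
    rw [add]
    exact big _ _ (by linarith)
  have p2 : 32 * (n ^ c * (n ^ ε * n ^ (-c₀))) ≤ n ^ (-c) := by
    rw [add, add]
    exact big _ _ (by linarith)
  have p3 : 32 * ((n ^ c) ^ 2 * n ^ ε * n ^ (1 / 20 : ℝ)) ≤ n ^ (-c) * E := by
    have e1 : (n ^ c) ^ 2 * n ^ ε * n ^ (1 / 20 : ℝ) = n ^ (c + c + ε + 1 / 20) := by
      rw [sq, add, add, add]
    rw [e1]
    calc 32 * n ^ (c + c + ε + 1 / 20) ≤ n ^ (-c + 1 / 9) := big _ _ (by rw [hε]; linarith)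
      _ = n ^ (-c) * n ^ (1 / 9 : ℝ) := (add _ _).symm
      _ ≤ _ := mul_le_mul_of_nonneg_left hE (pos _).le
  have p4 : 32 * (n ^ c * n ^ (2 * e + 2 * ε)) ≤ n ^ (3 * e + δ + c) := by
    rw [add]
    exact big _ _ (by rw [hε]; linarith)
  have p5 : 32 * n ^ (2 * e + c) ≤ n ^ (3 * e + δ + c) := big _ _ (by linarith)
  have q3 : (n ^ c / E) ^ 2 * n ^ ε * n ^ (1 / 20 : ℝ) ≤ 1 / 32 * (n ^ (-c) / E) := by
    have e2 : (n ^ c / E) ^ 2 * n ^ ε * n ^ (1 / 20 : ℝ) = ((n ^ c) ^ 2 * n ^ ε * n ^ (1 / 20 : ℝ)) / E / E := by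
      field_simp
    rw [e2]
    have e3 : 1 / 32 * (n ^ (-c) / E) = (1 / 32 * (n ^ (-c) * E)) / E / E := by
      field_simp
    rw [e3]
    exact div_le_div_of_nonneg_right (div_le_div_of_nonneg_right (by linarith) E0.le) E0.le
  have q6 : (n ^ c / E) ^ 2 * (n ^ ε * n ^ (1 / 20 : ℝ) + n ^ (-(1 : ℝ))) ≤ 1 / 16 * (n ^ (-c) / E) := by
    have h1 : n ^ (-(1 : ℝ)) ≤ n ^ ε * n ^ (1 / 20 : ℝ) := by
      rw [add]
      exact mono _ _ (by rw [hε]; linarith)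
    have h2 := mul_le_mul_of_nonneg_left h1 (sq_nonneg (n ^ c / E))
    have h3 : (n ^ c / E) ^ 2 * (n ^ ε * n ^ (1 / 20 : ℝ)) = (n ^ c / E) ^ 2 * n ^ ε * n ^ (1 / 20 : ℝ) := by ring
    rw [mul_add]
    linarith
  have q1 : n ^ c / E * n ^ (-(1 : ℝ)) ≤ 1 / 32 * (n ^ (-c) / E) := by
    rw [div_mul_eq_mul_div, mul_div_assoc', div_le_div_iff_of_pos_right E0]
    linarith
  have q2 : n ^ c / E * (n ^ ε * n ^ (-c₀)) ≤ 1 / 32 * (n ^ (-c) / E) := by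
    rw [div_mul_eq_mul_div, mul_div_assoc', div_le_div_iff_of_pos_right E0]
    linarith
  have q4 : n ^ c / E * (n ^ (2 * e + 2 * ε) * near) ≤ 1 / 32 * (n ^ (3 * e + δ + c) / E * near) := by
    have e4 : n ^ c / E * (n ^ (2 * e + 2 * ε) * near) = n ^ c * n ^ (2 * e + 2 * ε) / E * near := by ring
    rw [e4]
    have e5 : 1 / 32 * (n ^ (3 * e + δ + c) / E * near) = (1 / 32 * n ^ (3 * e + δ + c)) / E * near := by ring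
    rw [e5]
    exact mul_le_mul_of_nonneg_right (div_le_div_of_nonneg_right (by linarith) E0.le) hnear
  have q5 : n ^ (2 * e + c) / E * near ≤ 1 / 32 * (n ^ (3 * e + δ + c) / E * near) := by
    have e5 : 1 / 32 * (n ^ (3 * e + δ + c) / E * near) = (1 / 32 * n ^ (3 * e + δ + c)) / E * near := by ring
    rw [e5]
    exact mul_le_mul_of_nonneg_right (div_le_div_of_nonneg_right (by linarith) E0.le) hnear
  have r0 : 0 ≤ n ^ (-c) / E := div_nonneg (pos _).le E0.le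
  have r1 : 0 ≤ n ^ (3 * e + δ + c) / E * near := mul_nonneg (div_nonneg (pos _).le E0.le) hnear
  have r2 : n ^ c / E * (n ^ (2 * e + 2 * ε) * near + n ^ (-(1 : ℝ))) =
      n ^ c / E * (n ^ (2 * e + 2 * ε) * near) + n ^ c / E * n ^ (-(1 : ℝ)) := by ring
  have r3 : n ^ c / E * (n ^ ε * n ^ (-c₀) + n ^ (-(1 : ℝ))) =
      n ^ c / E * (n ^ ε * n ^ (-c₀)) + n ^ c / E * n ^ (-(1 : ℝ)) := by ring
  rw [r2, r3]
  linarith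

/-! ### The last step -/

variable {μ : Measure ℝ} [IsProbabilityMeasure μ] {s : ℝ}

/-- The integral of the absolute value of the contact functional. -/
theorem abs_C_int {Γ : Cx} (b : ℕ × ℤ) (η : Env) : |Γ.C b η| ≤ ∫ a, |Γ.ct η b a| := abs_integral_le_integral_abs

/-- The localisation, summed over the contacts. -/
theorem locsum8 {Γ : Cx} (hG : Γ.Ok) {n : ℕ} {ε L X : ℝ} {g : ℝ → ℝ} {a0 : ℝ} {R : ℕ × ℤ → Env → ℝ} (hL : 0 ≤ L)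
    (iR : ∀ b ∈ Γ.rows 0 Γ.N, Integrable (R b) (law μ)) (sR : ∑ b ∈ Γ.rows 0 Γ.N, ∫ η, R b η ∂(law μ) ≤ (n : ℝ) ^ (-(1 : ℝ)))
    (hX : ∑ b ∈ Γ.rows 0 Γ.N, ∫ η, Γ.ws b η ∂(law μ) ≤ X)
    (H : ∀ b ∈ Γ.rows 0 Γ.N, ∀ η, |(∫ a, g (a - a0) * Γ.ct η b a) - g (Γ.B η - a0) * Γ.C b η| ≤
      L * ((n : ℝ) ^ ε * Γ.ws b η + R b η)) :
    ∑ b ∈ Γ.rows 0 Γ.N, ∫ η, |(∫ a, g (a - a0) * Γ.ct η b a) - g (Γ.B η - a0) * Γ.C b η| ∂(law μ) ≤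
      L * ((n : ℝ) ^ ε * X + (n : ℝ) ^ (-(1 : ℝ))) := by
  have q1 : ∀ b ∈ Γ.rows 0 Γ.N, ∫ η, |(∫ a, g (a - a0) * Γ.ct η b a) - g (Γ.B η - a0) * Γ.C b η| ∂(law μ) ≤
      L * ((n : ℝ) ^ ε * (∫ η, Γ.ws b η ∂(law μ)) + ∫ η, R b η ∂(law μ)) := by
    intro b hb
    have i1 := ((Cx.int_ws hG hb).const_mul ((n : ℝ) ^ ε)).add (iR b hb) (μ := law μ)
    rw [← integral_const_mul, ← integral_add ((Cx.int_ws hG hb).const_mul _) (iR b hb), ← integral_const_mul]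
    exact integral_mono_of_nonneg (ae_of_all _ fun η => abs_nonneg _) (i1.const_mul L) (ae_of_all _ fun η => H b hb η)
  refine (Finset.sum_le_sum q1).trans ?_
  rw [← Finset.mul_sum, Finset.sum_add_distrib, ← Finset.mul_sum]
  exact mul_le_mul_of_nonneg_left (add_le_add (mul_le_mul_of_nonneg_left hX (Real.rpow_nonneg (Nat.cast_nonneg _) _)) sR) hL

/-- **THE LAST STEP OF THE ASSEMBLY.** -/
theorem lmc8 (hμ : EM μ) (hE9 : ∀ᶠ n : ℕ in atTop, (n : ℝ) ^ (1 / 9 : ℝ) ≤ EE μ s n) (hLoc : LocP8 μ s) (hWs : WsP8 μ s)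
    (hPhi : PhiP8 μ s) : LMC8 μ s := by
  have hE : Tendsto (EE μ s) atTop atTop :=
    tendsto_atTop_mono' atTop hE9 ((tendsto_rpow_atTop (by norm_num : (0 : ℝ) < 1 / 9)).comp tendsto_natCast_atTop_atTop)
  intro e he he1
  obtain ⟨c₁, hc₁, hWs⟩ := hWs e he he1
  obtain ⟨c₂, hc₂, hPhi⟩ := hPhi e he he1
  obtain ⟨c, hcd⟩ : ∃ c : ℝ, c = min (min (c₁ / 4) c₂) (min (e / 16) (1 / 512)) := ⟨_, rfl⟩
  have hc : 0 < c := by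
    rw [hcd]
    exact lt_min (lt_min (by linarith) hc₂) (lt_min (by linarith) (by norm_num))
  have hcc₁ : c ≤ c₁ / 4 := by rw [hcd]; exact (min_le_left _ _).trans (min_le_left _ _)
  have hcc₂ : c ≤ c₂ := by rw [hcd]; exact (min_le_left _ _).trans (min_le_right _ _)
  have hce : c ≤ e / 16 := by rw [hcd]; exact (min_le_right _ _).trans (min_le_left _ _)
  have hc5 : c ≤ 1 / 512 := by rw [hcd]; exact (min_le_right _ _).trans (min_le_right _ _)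
  refine ⟨c, hc, by linarith, fun δ hδ hδc => ?_⟩
  obtain ⟨κ₁, hκ₁, hLoc⟩ := hLoc (c / 4) (by linarith) c hc hc5 δ hδ hδc
  obtain ⟨κ₂, hκ₂, hWs⟩ := hWs c hc (by linarith) δ hδ hδc
  obtain ⟨κ₃, hκ₃, hPhi⟩ := hPhi c hc hcc₂ δ hδ hδc
  obtain ⟨κ, hκd⟩ : ∃ κ : ℝ, κ = min (min κ₁ κ₂) (min κ₃ δ) := ⟨_, rfl⟩
  have hκ : 0 < κ := by
    rw [hκd]
    exact lt_min (lt_min hκ₁ hκ₂) (lt_min hκ₃ hδ)
  have k1 : κ ≤ κ₁ := by rw [hκd]; exact (min_le_left _ _).trans (min_le_left _ _)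
  have k2 : κ ≤ κ₂ := by rw [hκd]; exact (min_le_left _ _).trans (min_le_right _ _)
  have k3 : κ ≤ κ₃ := by rw [hκd]; exact (min_le_right _ _).trans (min_le_left _ _)
  have k4 : κ ≤ δ := by rw [hκd]; exact (min_le_right _ _).trans (min_le_right _ _)
  refine ⟨κ, hκ, k4, ?_⟩
  have hbig : ∀ᶠ n : ℕ in atTop, (32 : ℝ) ≤ (n : ℝ) ^ (c / 4) :=
    ((tendsto_rpow_atTop (by linarith : (0 : ℝ) < c / 4)).comp tendsto_natCast_atTop_atTop).eventually_ge_atTop 32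
  filter_upwards [hLoc κ hκ k1, hWs κ hκ k2, hPhi κ hκ k3, H83.near83 (c := c) (κ := κ) hE he (by linarith) (ε := c / 4) (by linarith)
    hδ.le, hbig, hE9, eventually_ge_atTop 1] with n hLoc hWs hPhi hNear hbig hE9 hn1
  obtain ⟨v, hPhi⟩ := hPhi
  refine ⟨2 * v, fun Γ hA hq a0 => ?_⟩
  obtain ⟨R, hR0, iR, sR, hR⟩ := hLoc Γ hA
  obtain ⟨hX, hT⟩ := hWs Γ hA
  obtain ⟨hdn, -, -, hN4⟩ := hNear Γ hA
  have hG := hA.ok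
  have hnR : (1 : ℝ) ≤ n := by exact_mod_cast hn1
  have n0 : (0 : ℝ) < n := by linarith
  have E0 : 0 < EE μ s n := (Real.rpow_pos_of_pos n0 _).trans_le hE9
  obtain ⟨τ, hτ⟩ : ∃ τ : ℝ, τ = (n : ℝ) ^ (-c) * EE μ s n := ⟨_, rfl⟩
  have hτ0 : 0 < τ := by rw [hτ]; exact mul_pos (Real.rpow_pos_of_pos n0 _) E0
  have hGt : 1 / τ = (n : ℝ) ^ c / EE μ s n := by
    rw [hτ, Real.rpow_neg n0.le]
    have := (Real.rpow_pos_of_pos n0 c).ne'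
    field_simp
  have hw := wgt_tri hτ0
  obtain ⟨d, hd⟩ : ∃ d : ℕ, d = ⌈(n : ℝ) ^ e⌉₊ := ⟨_, rfl⟩
  rw [← hd] at hT hdn hN4 hPhi ⊢
  rw [← hτ] at hPhi ⊢
  have hN : d + d ≤ Γ.N := by
    obtain ⟨N, L, hN1, -, hL1, -, -, hNe, -⟩ := hA.hor
    have h0 : 1 ≤ N := hn1.trans hN1
    have h1 : 2 * N ≤ N ^ 3 + 1 := by
      rcases Nat.lt_or_ge N 2 with h2 | h2
      · have h3 : N = 1 := by omega
        rw [h3]
        norm_num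
      · have h3 : 2 * 2 ≤ N * N := Nat.mul_le_mul h2 h2
        calc 2 * N ≤ (N * N) * N := Nat.mul_le_mul (by omega) le_rfl
          _ = N ^ 3 := by ring
          _ ≤ N ^ 3 + 1 := Nat.le_succ _
    omega
  have gm : Measurable fun a => tri τ (a - a0) := by
    have := hw.cont.measurable
    exact this.comp (measurable_id.sub_const a0)
  have g0 : ∀ x, |tri τ x| ≤ 1 / τ := fun x => by
    rw [abs_of_nonneg (hw.nn x)]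
    exact tri_le hτ0 x
  have gG : ∀ x, |tri τ (x - a0)| ≤ 1 / τ := fun x => g0 _
  have gL : ∀ x y, |tri τ x - tri τ y| ≤ 1 / τ ^ 2 * |x - y| := hw.lip
  have hnr : 0 ≤ Γ.near μ d := Cx.near_nonneg hG d
  have R0 : ∀ b ∈ Γ.rows 0 Γ.N, 0 ≤ ∫ η, R b η ∂(law μ) := fun b hb => integral_nonneg fun η => hR0 b η
  have sub1 : ∀ a b : ℕ, b ≤ Γ.N → Γ.rows a b ⊆ Γ.rows 0 Γ.N := fun a b hb => Cx.rows_sub Γ hb
  have sR1 : ∀ a b : ℕ, b ≤ Γ.N → ∑ x ∈ Γ.rows a b, ∫ η, R x η ∂(law μ) ≤ (n : ℝ) ^ (-(1 : ℝ)) := fun a b hb =>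
    (Finset.sum_le_sum_of_subset_of_nonneg (sub1 a b hb) fun x hx _ => R0 x hx).trans sR
  have hdN : d ≤ Γ.N := by omega
  -- the first rows
  have b1 : ∑ b ∈ Γ.rows 0 d, ∫ η, |∫ a, tri τ (a - a0) * Γ.ct η b a| ∂(law μ) ≤
      1 / τ * ((n : ℝ) ^ (2 * e + 2 * (c / 4)) * Γ.near μ d + (n : ℝ) ^ (-(1 : ℝ))) := by
    refine (hN4 (fun a => tri τ (a - a0)) (1 / τ) gG R (fun b hb => iR b (sub1 0 d hdN hb))
      fun b hb η => (hR b (sub1 0 d hdN hb) η).1).trans ?_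
    exact mul_le_mul_of_nonneg_left (add_le_add le_rfl (sR1 0 d hdN)) (by positivity)
  -- the localisation
  have b2 := locsum8 (g := tri τ) (a0 := a0) (L := 1 / τ ^ 2) (ε := c / 4) hG (by positivity) iR sR hX
    fun b hb η => (hR b hb η).2 (tri τ) hw.cont.measurable (1 / τ ^ 2) (by positivity) gL a0
  rw [← one_div_pow] at b2
  -- the last rows
  have b3 : ∑ b ∈ Γ.rows (Γ.N - d) Γ.N, ∫ η, |Γ.C b η| ∂(law μ) ≤ (n : ℝ) ^ (c / 4) * (n : ℝ) ^ (-c₁) + (n : ℝ) ^ (-(1 : ℝ)) := by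
    have q1 : ∀ b ∈ Γ.rows (Γ.N - d) Γ.N, ∫ η, |Γ.C b η| ∂(law μ) ≤
        (n : ℝ) ^ (c / 4) * (∫ η, Γ.ws b η ∂(law μ)) + ∫ η, R b η ∂(law μ) := by
      intro b hb
      have hb' := sub1 _ _ le_rfl hb
      rw [← integral_const_mul, ← integral_add ((Cx.int_ws hG hb').const_mul _) (iR b hb')]
      refine integral_mono_of_nonneg (ae_of_all _ fun η => abs_nonneg _) (((Cx.int_ws hG hb').const_mul _).add (iR b hb'))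
        (ae_of_all _ fun η => ?_)
      exact (abs_C_int b η).trans (hR b hb' η).1
    refine (Finset.sum_le_sum q1).trans ?_
    rw [Finset.sum_add_distrib, ← Finset.mul_sum]
    exact add_le_add (mul_le_mul_of_nonneg_left hT (by positivity)) (sR1 _ _ le_rfl)
  have key := core8 hμ hG hN gm gG b1 b2 b3 (hPhi Γ hA a0)
  have num := numC8 (n := (n : ℝ)) (E := EE μ s n) (c := c) (e := e) (c₀ := c₁) (ε := c / 4) hnR hE9 hc hc5 hcc₁ hce rfl hbig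
    (δ := δ) (near := Γ.near μ d) hδ.le hnr
  rw [← hGt] at num
  have e8 : 2 * v / 2 = v := by ring
  rw [e8]
  refine key.trans (le_trans (le_of_eq ?_) num)
  ring

/-- The same for `LMR54`. -/
theorem lmr_of8 (hμ : EM μ) (hE9 : ∀ᶠ n : ℕ in atTop, (n : ℝ) ^ (1 / 9 : ℝ) ≤ EE μ s n) (hLoc : LocP8 μ s) (hWs : WsP8 μ s)
    (hPhi : PhiP8 μ s) : LMR54 μ s := lmr8 hμ (lmc8 hμ hE9 hLoc hWs hPhi)

end

end Pool.Agent.W_7d29a1_C1.H8
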