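import Pool.Agent.W_7d29a1_C1.Sig54
import Pool.Agent.W_7d29a1_C1.AsmD8

/-!
MP_7d29a1_pr, the attractor route, (Y) BY CORNERS: THE LAST STEP WITH THE SPLIT FUNCTIONAL (helper54). With any `χ` with values in
`[0, 1]` the contact functional is split, `C = C χ + C (1 - χ)`, and the second part is moved by the shift `sg` of the future of the
contact. The law does not see it, the balance point moves a little.
-/

set_option autoImplicit false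

namespace Pool.Agent.W_7d29a1_C1.H54

open MeasureTheory ProbabilityTheory Filter Topology Finset
open Pool.Agent.W_7d29a1_F Pool.Agent.W_7d29a1_h4g Pool.Agent.W_7d29a1_H Pool.Agent.W_7d29a1_HS
open Pool.Agent.W_7d29a1_h47 (EM)
open Pool.Agent.W_7d29a1_C1.K91 (Box Grp cut zs jn wt wt_pos measurable_wt)
open Pool.Agent.W_7d29a1_C1.K91P
open Pool.Agent.W_7d29a1_C1.H60
open Pool.Agent.W_7d29a1_C1.H8

noncomputable section

variable {μ : Measure ℝ} [IsProbabilityMeasure μ] {Γ : Cx}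

/-- The integral of a function of the moved environment. -/
theorem int_sg (k : ℕ) {f : Env → ℝ} (hf : Integrable f (law μ)) :
    Integrable (fun η => f (sg k η)) (law μ) ∧ ∫ η, f (sg k η) ∂(law μ) = ∫ η, f η ∂(law μ) := by
  refine ⟨(mp_sg (μ := μ) k).integrable_comp_of_integrable hf, ?_⟩
  have h1 := (mp_sg (μ := μ) k).map_eq
  have h2 : ∫ η, f η ∂(Measure.map (sg k) (law μ)) = ∫ η, f (sg k η) ∂(law μ) :=
    integral_map (meas_sg k).aemeasurable (by rw [h1]; exact hf.aestronglyMeasurable)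
  rw [← h2, h1]

/-- One contact of the split functional: the part `f χ` in place, the part `f (1 - χ)` moved. -/
def spl (b : ℕ × ℤ) (χ f : Env → ℝ) (η : Env) : ℝ := f η * χ η + f (sg b.1 η) * (1 - χ (sg b.1 η))

/-- **The split total functional.** -/
def PhS (Γ : Cx) (χ : ℕ × ℤ → Env → ℝ) (η : Env) : ℝ := ∑ b ∈ Γ.rows 0 Γ.N, spl b (χ b) (Γ.C b) η

theorem meas_spl (b : ℕ × ℤ) {χ f : Env → ℝ} (mχ : Measurable χ) (mf : Measurable f) : Measurable (spl b χ f) :=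
  (mf.mul mχ).add ((mf.comp (meas_sg b.1)).mul (measurable_const.sub (mχ.comp (meas_sg b.1))))

theorem meas_PhS (Γ : Cx) {χ : ℕ × ℤ → Env → ℝ} (mχ : ∀ b, Measurable (χ b)) : Measurable (PhS Γ χ) :=
  Finset.measurable_sum _ fun b _ => meas_spl b (mχ b) (Γ.meas_C b)

theorem abs_spl_le (b : ℕ × ℤ) {χ f g : Env → ℝ} (h0 : ∀ η, 0 ≤ χ η) (h1 : ∀ η, χ η ≤ 1) (h : ∀ η, |f η| ≤ g η) (η : Env) :
    |spl b χ f η| ≤ spl b χ g η := by
  unfold spl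
  refine (abs_add_le _ _).trans (add_le_add ?_ ?_)
  · rw [abs_mul, abs_of_nonneg (h0 η)]
    exact mul_le_mul_of_nonneg_right (h η) (h0 η)
  · have h2 : 0 ≤ 1 - χ (sg b.1 η) := by linarith [h1 (sg b.1 η)]
    rw [abs_mul, abs_of_nonneg h2]
    exact mul_le_mul_of_nonneg_right (h _) h2

theorem int_spl (b : ℕ × ℤ) {χ f : Env → ℝ} (mχ : Measurable χ) (h0 : ∀ η, 0 ≤ χ η) (h1 : ∀ η, χ η ≤ 1)
    (hf : Integrable f (law μ)) : Integrable (fun η => f η * χ η) (law μ) ∧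
      Integrable (fun η => f (sg b.1 η) * (1 - χ (sg b.1 η))) (law μ) ∧ Integrable (spl b χ f) (law μ) ∧
      ∫ η, spl b χ f η ∂(law μ) = ∫ η, f η ∂(law μ) := by
  have i1 : Integrable (fun η => f η * χ η) (law μ) := by
    have := hf.bdd_mul (c := 1) mχ.aestronglyMeasurable (ae_of_all _ fun η => by
      rw [Real.norm_eq_abs, abs_of_nonneg (h0 η)]
      exact h1 η)
    refine this.congr (ae_of_all _ fun η => ?_)
    exact mul_comm _ _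
  have i2' : Integrable (fun η => f η * (1 - χ η)) (law μ) := by
    have hm : Measurable fun η => 1 - χ η := measurable_const.sub mχ
    have hb : ∀ η, ‖(fun η => 1 - χ η) η‖ ≤ 1 := fun η => by
      rw [Real.norm_eq_abs, abs_le]
      constructor <;> linarith [h0 η, h1 η]
    have := hf.bdd_mul (c := 1) hm.aestronglyMeasurable (ae_of_all _ hb)
    refine this.congr (ae_of_all _ fun η => ?_)
    exact mul_comm _ _
  obtain ⟨i2, e2⟩ := int_sg (μ := μ) b.1 i2'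
  refine ⟨i1, i2, i1.add i2, ?_⟩
  have e1 : ∫ η, spl b χ f η ∂(law μ) = ∫ η, f η * χ η ∂(law μ) + ∫ η, f (sg b.1 η) * (1 - χ (sg b.1 η)) ∂(law μ) :=
    integral_add i1 i2
  rw [e1, e2, ← integral_add i1 i2']
  exact integral_congr_ae (ae_of_all _ fun η => by simp only; ring)

/-- **One contact.** -/
theorem one_spl (b : ℕ × ℤ) {χ F C gB : Env → ℝ} (mχ : Measurable χ) (h0 : ∀ η, 0 ≤ χ η) (h1 : ∀ η, χ η ≤ 1)
    (iF : Integrable F (law μ)) (iC : Integrable C (law μ)) (mg : Measurable gB) {G : ℝ} (gG : ∀ η, |gB η| ≤ G)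
    {L X : ℝ} (hLX : 0 ≤ L * (2 * X)) {bad : Set Env} (mb : MeasurableSet bad)
    (hgood : ∀ η, η ∉ bad → |gB (sg b.1 η) - gB η| ≤ L * (2 * X)) :
    |(∫ η, F η ∂(law μ)) - ∫ η, gB η * spl b χ C η ∂(law μ)| ≤ 2 * (∫ η, |F η - gB η * C η| ∂(law μ)) +
      L * (2 * X) * (∫ η, |C η| ∂(law μ)) + 2 * G * ∫ η in bad, |C (sg b.1 η)| ∂(law μ) := by
  have G0 : 0 ≤ G := (abs_nonneg _).trans (gG (fun _ => 0))
  obtain ⟨f1, f2, f3, f4⟩ := int_spl b mχ h0 h1 iF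
  obtain ⟨c1, c2, c3, -⟩ := int_spl b mχ h0 h1 iC
  have igC : Integrable (fun η => gB η * C η) (law μ) := iC.bdd_mul (c := G) mg.aestronglyMeasurable (ae_of_all _ fun η => gG η)
  have igs : Integrable (fun η => gB η * spl b χ C η) (law μ) :=
    c3.bdd_mul (c := G) mg.aestronglyMeasurable (ae_of_all _ fun η => gG η)
  have iD : Integrable (fun η => |F η - gB η * C η|) (law μ) := (iF.sub igC).abs
  obtain ⟨iDs, eDs⟩ := int_sg (μ := μ) b.1 iD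
  have iCa : Integrable (fun η => |C η|) (law μ) := iC.abs
  obtain ⟨iCs, eCs⟩ := int_sg (μ := μ) b.1 iCa
  have iCb : Integrable (bad.indicator fun η => |C (sg b.1 η)|) (law μ) := iCs.indicator mb
  rw [← f4, ← integral_sub f3 igs]
  refine abs_integral_le_integral_abs.trans ?_
  have pt : ∀ η, |spl b χ F η - gB η * spl b χ C η| ≤ |F η - gB η * C η| + |F (sg b.1 η) - gB (sg b.1 η) * C (sg b.1 η)| +
      L * (2 * X) * |C (sg b.1 η)| + 2 * G * bad.indicator (fun η => |C (sg b.1 η)|) η := by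
    intro η
    have e : spl b χ F η - gB η * spl b χ C η = (F η - gB η * C η) * χ η +
        ((F (sg b.1 η) - gB (sg b.1 η) * C (sg b.1 η)) + (gB (sg b.1 η) - gB η) * C (sg b.1 η)) * (1 - χ (sg b.1 η)) := by
      unfold spl
      ring
    have q0 := h0 η
    have q1 := h1 η
    have q2 : 0 ≤ 1 - χ (sg b.1 η) := by linarith [h1 (sg b.1 η)]
    have q3 : 1 - χ (sg b.1 η) ≤ 1 := by linarith [h0 (sg b.1 η)]
    have t1 : |(F η - gB η * C η) * χ η| ≤ |F η - gB η * C η| := by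
      rw [abs_mul, abs_of_nonneg q0]
      exact mul_le_of_le_one_right (abs_nonneg _) q1
    have t3 : |(gB (sg b.1 η) - gB η) * C (sg b.1 η)| ≤ L * (2 * X) * |C (sg b.1 η)| +
        2 * G * bad.indicator (fun η => |C (sg b.1 η)|) η := by
      rw [abs_mul]
      by_cases hb : η ∈ bad
      · rw [Set.indicator_of_mem hb]
        have s1 : |gB (sg b.1 η) - gB η| ≤ 2 * G := by
          have a1 := abs_le.1 (gG (sg b.1 η))
          have a2 := abs_le.1 (gG η)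
          rw [abs_le]
          constructor <;> linarith [a1.1, a1.2, a2.1, a2.2]
        have s2 := mul_le_mul_of_nonneg_right s1 (abs_nonneg (C (sg b.1 η)))
        have s3 : 0 ≤ L * (2 * X) * |C (sg b.1 η)| := mul_nonneg hLX (abs_nonneg _)
        linarith
      · rw [Set.indicator_of_notMem hb, mul_zero, add_zero]
        exact mul_le_mul_of_nonneg_right (hgood η hb) (abs_nonneg _)
    rw [e]
    refine (abs_add_le _ _).trans ?_
    have t2 : |((F (sg b.1 η) - gB (sg b.1 η) * C (sg b.1 η)) + (gB (sg b.1 η) - gB η) * C (sg b.1 η)) * (1 - χ (sg b.1 η))| ≤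
        |F (sg b.1 η) - gB (sg b.1 η) * C (sg b.1 η)| + |(gB (sg b.1 η) - gB η) * C (sg b.1 η)| := by
      rw [abs_mul, abs_of_nonneg q2]
      refine (mul_le_of_le_one_right (abs_nonneg _) q3).trans (abs_add_le _ _)
    linarith
  have i1 := (((iD.add iDs).add (iCs.const_mul (L * (2 * X)))).add (iCb.const_mul (2 * G)))
  have k := integral_mono (f3.sub igs).abs i1 pt
  refine k.trans (le_of_eq ?_)
  have k1 : ∫ η, (|F η - gB η * C η| + |F (sg b.1 η) - gB (sg b.1 η) * C (sg b.1 η)| +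
      L * (2 * X) * |C (sg b.1 η)| + 2 * G * bad.indicator (fun η => |C (sg b.1 η)|) η) ∂(law μ) =
      ((∫ η, |F η - gB η * C η| ∂(law μ)) + (∫ η, |F (sg b.1 η) - gB (sg b.1 η) * C (sg b.1 η)| ∂(law μ)) +
      L * (2 * X) * (∫ η, |C (sg b.1 η)| ∂(law μ))) + 2 * G * ∫ η in bad, |C (sg b.1 η)| ∂(law μ) := by
    rw [integral_add (f := fun η => |F η - gB η * C η| + |F (sg b.1 η) - gB (sg b.1 η) * C (sg b.1 η)| +
      L * (2 * X) * |C (sg b.1 η)|) ((iD.add iDs).add (iCs.const_mul (L * (2 * X)))) (iCb.const_mul (2 * G)),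
      integral_add (f := fun η => |F η - gB η * C η| + |F (sg b.1 η) - gB (sg b.1 η) * C (sg b.1 η)|) (iD.add iDs)
        (iCs.const_mul (L * (2 * X))), integral_add iD iDs, integral_const_mul, integral_const_mul, integral_indicator mb]
  rw [eDs, eCs] at k1
  refine k1.trans ?_
  ring

/-- **The core**: all contacts. -/
theorem coreS54 (hμ : EM μ) (hG : Γ.Ok) {g : ℝ → ℝ} {G : ℝ} (gm : Measurable g) (gG : ∀ x, |g x| ≤ G) {L : ℝ} (hL : 0 ≤ L)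
    (gL : ∀ x y, |g x - g y| ≤ L * |x - y|) {χ : ℕ × ℤ → Env → ℝ} (mχ : ∀ b, Measurable (χ b)) (h0 : ∀ b η, 0 ≤ χ b η)
    (h1 : ∀ b η, χ b η ≤ 1) {X : ℝ} (hX : 0 ≤ X) {bad : Set Env} (mb : MeasurableSet bad)
    (hgood : ∀ η, η ∉ bad → ∀ k < Γ.N, Nx Γ k X η) {D8 C8 E8 v B4 : ℝ}
    (h2 : ∑ b ∈ Γ.rows 0 Γ.N, ∫ η, |(∫ a, g a * Γ.ct η b a) - g (Γ.B η) * Γ.C b η| ∂(law μ) ≤ D8)
    (h3 : ∑ b ∈ Γ.rows 0 Γ.N, ∫ η, |Γ.C b η| ∂(law μ) ≤ C8)
    (h4 : ∑ b ∈ Γ.rows 0 Γ.N, ∫ η in bad, |Γ.C b (sg b.1 η)| ∂(law μ) ≤ E8)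
    (h5 : |(∫ η, g (Γ.B η) * PhS Γ χ η ∂(law μ)) - v * ∫ η, g (Γ.B η) ∂(law μ)| ≤ B4) :
    |(∑ b ∈ Γ.rows 0 Γ.N, ∫ η, (∫ a, g a * Γ.ct η b a) ∂(law μ)) - v * ∫ η, g (Γ.B η) ∂(law μ)| ≤
      2 * D8 + L * (2 * X) * C8 + 2 * G * E8 + B4 := by
  have G0 : 0 ≤ G := (abs_nonneg _).trans (gG 0)
  have hLX : 0 ≤ L * (2 * X) := by positivity
  have iF : ∀ b ∈ Γ.rows 0 Γ.N, Integrable (fun η => ∫ a, g a * Γ.ct η b a) (law μ) := fun b hb =>
    (Cx.int_g_ct hμ hG hb gm gG).integral_prod_left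
  have iC : ∀ b ∈ Γ.rows 0 Γ.N, Integrable (Γ.C b) (law μ) := fun b hb => Cx.int_C hμ hG hb
  have mg : Measurable fun η => g (Γ.B η) := gm.comp Γ.meas_B
  have k : ∀ b ∈ Γ.rows 0 Γ.N, |(∫ η, (∫ a, g a * Γ.ct η b a) ∂(law μ)) - ∫ η, g (Γ.B η) * spl b (χ b) (Γ.C b) η ∂(law μ)| ≤
      2 * (∫ η, |(∫ a, g a * Γ.ct η b a) - g (Γ.B η) * Γ.C b η| ∂(law μ)) +
      L * (2 * X) * (∫ η, |Γ.C b η| ∂(law μ)) + 2 * G * ∫ η in bad, |Γ.C b (sg b.1 η)| ∂(law μ) := by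
    intro b hb
    refine one_spl b (mχ b) (h0 b) (h1 b) (iF b hb) (iC b hb) mg (fun η => gG _) hLX mb fun η hη => ?_
    have hb' := (Cx.mem_rows.1 hb).1.2
    refine (gL _ _).trans (mul_le_mul_of_nonneg_left (B_sg hG hb' (hgood η hη b.1 hb')) hL)
  have e1 : ∫ η, g (Γ.B η) * PhS Γ χ η ∂(law μ) = ∑ b ∈ Γ.rows 0 Γ.N, ∫ η, g (Γ.B η) * spl b (χ b) (Γ.C b) η ∂(law μ) := by
    rw [← integral_finsetSum _ fun b hb =>
      (int_spl b (mχ b) (h0 b) (h1 b) (iC b hb)).2.2.1.bdd_mul (c := G) mg.aestronglyMeasurable (ae_of_all _ fun η => gG _)]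
    refine integral_congr_ae (ae_of_all _ fun η => ?_)
    show g (Γ.B η) * PhS Γ χ η = ∑ b ∈ Γ.rows 0 Γ.N, g (Γ.B η) * spl b (χ b) (Γ.C b) η
    unfold PhS
    rw [mul_sum]
  have k2 : |(∑ b ∈ Γ.rows 0 Γ.N, ∫ η, (∫ a, g a * Γ.ct η b a) ∂(law μ)) - ∫ η, g (Γ.B η) * PhS Γ χ η ∂(law μ)| ≤
      2 * D8 + L * (2 * X) * C8 + 2 * G * E8 := by
    rw [e1, ← sum_sub_distrib]
    refine (abs_sum_le_sum_abs _ _).trans ((sum_le_sum k).trans ?_)
    rw [sum_add_distrib, sum_add_distrib, ← mul_sum, ← mul_sum, ← mul_sum]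
    have q1 := mul_le_mul_of_nonneg_left h3 hLX
    have q2 := mul_le_mul_of_nonneg_left h4 (show 0 ≤ 2 * G by positivity)
    linarith
  rw [abs_le] at k2 h5 ⊢
  constructor <;> linarith [k2.1, k2.2, h5.1, h5.2]

/-! ### The last step -/

/-- **THE SPLIT TOTAL FUNCTIONAL**: up to the error its mean against a function of the balance point is `v` times the mean of the
function. (`PhiA8` with `PhS` instead of the sum of the `C`.) -/
def PhiS54 (χ : Cx → ℕ × ℤ → Env → ℝ) (μ : Measure ℝ) (s : ℝ) : Prop :=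
  ∀ e : ℝ, 0 < e → e ≤ 1 / 32 → ∃ c₀ : ℝ, 0 < c₀ ∧ ∀ c : ℝ, 0 < c → c ≤ c₀ → ∀ δ : ℝ, 0 < δ → δ ≤ c / 16 → ∃ κ₀ : ℝ, 0 < κ₀ ∧
    ∀ κ : ℝ, 0 < κ → κ ≤ κ₀ → ∀ᶠ n : ℕ in atTop, ∃ v : ℝ, ∀ Γ : Cx, Adm μ s c δ κ n Γ → ∀ a0 : ℝ,
      |(∫ η, tri ((n : ℝ) ^ (-c) * EE μ s n) (Γ.B η - a0) * PhS Γ (χ Γ) η ∂(law μ)) -
        v * ∫ η, tri ((n : ℝ) ^ (-c) * EE μ s n) (Γ.B η - a0) ∂(law μ)| ≤
        1 / 4 * ((n : ℝ) ^ (-c) / EE μ s n) + (n : ℝ) ^ (2 * e + c) / EE μ s n * Γ.near μ ⌈(n : ℝ) ^ e⌉₊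

omit [IsProbabilityMeasure μ] in
/-- The number of the contacts of an admissible context. -/
theorem card54 {s c δ κ : ℝ} (hc : c ≤ 1) {n : ℕ} (hn : 1 ≤ n) (hA : Adm μ s c δ κ n Γ) : ((Γ.rows 0 Γ.N).card : ℝ) ≤ 20 * (n : ℝ) ^ 12 := by
  obtain ⟨N, hN1, hN2, hN3, hN4, _⟩ := adm_N54 hc hn hA
  have hn' : (1 : ℝ) ≤ n := by exact_mod_cast hn
  refine (card_rows54 Γ (a := 0) le_rfl).trans ?_
  have d1 : (Γ.N : ℝ) ≤ 4 * (N : ℝ) ^ 3 := by exact_mod_cast hN4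
  have d2 : (N : ℝ) ≤ (n : ℝ) ^ 2 := by
    have := hN2
    rw [show (2 : ℝ) = ((2 : ℕ) : ℝ) by norm_num, Real.rpow_natCast] at this
    exact this
  have d3 : (N : ℝ) ^ 3 ≤ (n : ℝ) ^ 6 := by
    refine (pow_le_pow_left₀ (by positivity) d2 3).trans (le_of_eq ?_)
    ring
  have d4 : (Γ.N : ℝ) ≤ 4 * (n : ℝ) ^ 6 := by linarith
  have d5 : (1 : ℝ) ≤ (n : ℝ) ^ 6 := one_le_pow₀ hn'
  calc (Γ.N : ℝ) * (Γ.N + 1) ≤ (4 * (n : ℝ) ^ 6) * (5 * (n : ℝ) ^ 6) := by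
        refine mul_le_mul d4 (by linarith) (by positivity) (by positivity)
    _ = 20 * (n : ℝ) ^ 12 := by ring

/-- **THE LAST STEP OF THE ASSEMBLY WITH THE SPLIT FUNCTIONAL.** -/
theorem lmdS54 {s : ℝ} {χ : Cx → ℕ × ℤ → Env → ℝ} (mχ : ∀ Γ b, Measurable (χ Γ b)) (h0 : ∀ Γ b η, 0 ≤ χ Γ b η)
    (h1 : ∀ Γ b η, χ Γ b η ≤ 1) (hμ : EM μ) {c₀ C₀ : ℝ} {n₀ : ℕ} (hI : In μ s c₀ C₀ n₀) (hN : H56.Nbr56 μ s)
    (hE9 : ∀ᶠ n : ℕ in atTop, (n : ℝ) ^ (1 / 9 : ℝ) ≤ EE μ s n) (hLoc : LocP8 μ s) (hXs : XsP8 μ s)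
    (hPhi : PhiS54 χ μ s) : LMC8 μ s := by
  intro e he he1
  obtain ⟨c₁, hc₁, hXs⟩ := hXs
  obtain ⟨c₂, hc₂, hPhi⟩ := hPhi e he he1
  obtain ⟨c, hcd⟩ : ∃ c : ℝ, c = min (min (c₁ / 4) c₂) (min (e / 16) (1 / 512)) := ⟨_, rfl⟩
  have hc : 0 < c := by
    rw [hcd]
    exact lt_min (lt_min (by linarith) hc₂) (lt_min (by linarith) (by norm_num))
  have hcc₁ : c ≤ c₁ / 4 := by rw [hcd]; exact (min_le_left _ _).trans (min_le_left _ _)
  have hcc₂ : c ≤ c₂ := by rw [hcd]; exact (min_le_left _ _).trans (min_le_right _ _)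
  have hce : c ≤ e / 16 := by rw [hcd]; exact (min_le_right _ _).trans (min_le_left _ _)
  have hc5 : c ≤ 1 / 512 := by rw [hcd]; exact (min_le_right _ _).trans (min_le_right _ _)
  refine ⟨c, hc, by linarith, fun δ hδ hδc => ?_⟩
  obtain ⟨κ₁, hκ₁, hLoc⟩ := hLoc (c / 16) (by linarith) c hc hc5 δ hδ hδc
  obtain ⟨κ₂, hκ₂, hXs⟩ := hXs c hc (by linarith) δ hδ hδc
  obtain ⟨κ₃, hκ₃, hPhi⟩ := hPhi c hc hcc₂ δ hδ hδc
  obtain ⟨κ₄, hκ₄, c', hc', hNb⟩ := nb_prob54 hI hN (dl := c / 16) (by positivity)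
  obtain ⟨κ, hκd⟩ : ∃ κ : ℝ, κ = min (min κ₁ κ₂) (min κ₃ (min κ₄ δ)) := ⟨_, rfl⟩
  have hκ : 0 < κ := by
    rw [hκd]
    exact lt_min (lt_min hκ₁ hκ₂) (lt_min hκ₃ (lt_min hκ₄ hδ))
  have k1 : κ ≤ κ₁ := by rw [hκd]; exact (min_le_left _ _).trans (min_le_left _ _)
  have k2 : κ ≤ κ₂ := by rw [hκd]; exact (min_le_left _ _).trans (min_le_right _ _)
  have k3 : κ ≤ κ₃ := by rw [hκd]; exact (min_le_right _ _).trans (min_le_left _ _)
  have k5 : κ ≤ κ₄ := by rw [hκd]; exact (min_le_right _ _).trans ((min_le_right _ _).trans (min_le_left _ _))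
  have k4 : κ ≤ δ := by rw [hκd]; exact (min_le_right _ _).trans ((min_le_right _ _).trans (min_le_right _ _))
  refine ⟨κ, hκ, k4, ?_⟩
  have hbig : ∀ᶠ n : ℕ in atTop, (32 : ℝ) ≤ (n : ℝ) ^ (c / 4) :=
    ((tendsto_rpow_atTop (by linarith : (0 : ℝ) < c / 4)).comp tendsto_natCast_atTop_atTop).eventually_ge_atTop 32
  have hbig2 : ∀ᶠ n : ℕ in atTop, (8 : ℝ) ≤ (n : ℝ) ^ (c / 8) :=
    ((tendsto_rpow_atTop (by linarith : (0 : ℝ) < c / 8)).comp tendsto_natCast_atTop_atTop).eventually_ge_atTop 8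
  set P := Real.exp (|s| + 1) with hP
  have hP1 : 1 ≤ P := Real.one_le_exp (by positivity)
  filter_upwards [hLoc κ hκ k1, hXs κ hκ k2, hPhi κ hκ k3, hbig, hE9, eventually_ge_atTop 1, hbig2,
    hNb c (by linarith) δ (by linarith) κ k5, ev_pow54 (20 * P) 14 (B := 1) one_pos hc'] with
    n hLoc hXs hPhi hbig hE9 hn1 hbig2 hNb hev
  obtain ⟨v, hPhi⟩ := hPhi
  refine ⟨2 * v, fun Γ hA hq a0 => ?_⟩
  obtain ⟨R, hR0, iR, sR, hR⟩ := hLoc Γ hA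
  have hX := hXs Γ hA
  have hG := hA.ok
  have hnR : (1 : ℝ) ≤ n := by exact_mod_cast hn1
  have n0 : (0 : ℝ) < n := by linarith
  have E0 : 0 < EE μ s n := (Real.rpow_pos_of_pos n0 _).trans_le hE9
  obtain ⟨τ, hτ⟩ : ∃ τ : ℝ, τ = (n : ℝ) ^ (-c) * EE μ s n := ⟨_, rfl⟩
  have hτ0 : 0 < τ := by rw [hτ]; exact mul_pos (Real.rpow_pos_of_pos n0 _) E0
  have hGt : 1 / τ = (n : ℝ) ^ c / EE μ s n := by
    rw [hτ, Real.rpow_neg n0.le]
    have := (Real.rpow_pos_of_pos n0 c).ne'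
    field_simp
  have hw := wgt_tri hτ0
  obtain ⟨d, hd⟩ : ∃ d : ℕ, d = ⌈(n : ℝ) ^ e⌉₊ := ⟨_, rfl⟩
  have hPhi' := hPhi Γ hA a0
  rw [← hd] at hPhi' ⊢
  rw [← hτ] at hPhi' ⊢
  have gm : Measurable fun a => tri τ (a - a0) := by
    have := hw.cont.measurable
    exact this.comp (measurable_id.sub_const a0)
  have g0 : ∀ x, |tri τ x| ≤ 1 / τ := fun x => by
    rw [abs_of_nonneg (hw.nn x)]
    exact tri_le hτ0 x
  have gG : ∀ x, |tri τ (x - a0)| ≤ 1 / τ := fun x => g0 _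
  have gL : ∀ x y, |tri τ x - tri τ y| ≤ 1 / τ ^ 2 * |x - y| := hw.lip
  have gL' : ∀ x y, |tri τ (x - a0) - tri τ (y - a0)| ≤ 1 / τ ^ 2 * |x - y| := fun x y => by
    refine (gL _ _).trans (le_of_eq ?_)
    congr 2
    ring
  have hnr : 0 ≤ Γ.near μ d := Cx.near_nonneg hG d
  -- the localisation
  have b2 := locsum8 (g := tri τ) (a0 := a0) (L := 1 / τ ^ 2) (ε := c / 16) hG (by positivity) iR sR hX
    fun b hb η => (hR b hb η).2 (tri τ) hw.cont.measurable (1 / τ ^ 2) (by positivity) gL a0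
  -- the sizes
  have absC : ∀ b ∈ Γ.rows 0 Γ.N, ∀ η, |Γ.C b η| ≤ (n : ℝ) ^ (c / 16) * Γ.ws b η + R b η := fun b hb η =>
    (abs_C_int b η).trans (hR b hb η).1
  have np : 0 < (n : ℝ) ^ (c / 16) := Real.rpow_pos_of_pos n0 _
  have b3 : ∑ b ∈ Γ.rows 0 Γ.N, ∫ η, |Γ.C b η| ∂(law μ) ≤ (n : ℝ) ^ (c / 16) * (n : ℝ) ^ (1 / 20 : ℝ) + (n : ℝ) ^ (-(1 : ℝ)) := by
    have q1 : ∀ b ∈ Γ.rows 0 Γ.N, ∫ η, |Γ.C b η| ∂(law μ) ≤
        (n : ℝ) ^ (c / 16) * (∫ η, Γ.ws b η ∂(law μ)) + ∫ η, R b η ∂(law μ) := by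
      intro b hb
      rw [← integral_const_mul, ← integral_add ((Cx.int_ws hG hb).const_mul _) (iR b hb)]
      exact integral_mono_of_nonneg (ae_of_all _ fun η => abs_nonneg _)
        (((Cx.int_ws hG hb).const_mul ((n : ℝ) ^ (c / 16))).add (iR b hb)) (ae_of_all _ fun η => absC b hb η)
    refine (sum_le_sum q1).trans ?_
    rw [sum_add_distrib, ← mul_sum]
    exact add_le_add (mul_le_mul_of_nonneg_left hX np.le) sR
  -- the bad event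
  set X := (n : ℝ) ^ (c / 16) with hXdef
  set bad := toMeasurable (law μ) {η | ¬ NB54 Γ X η} with hbad
  have mb : MeasurableSet bad := measurableSet_toMeasurable _ _
  have pb : (law μ).real bad ≤ Real.exp (-(n : ℝ) ^ c') := by
    rw [hbad, Measure.real, measure_toMeasurable]
    exact hNb Γ hA
  have hgood : ∀ η, η ∉ bad → ∀ k < Γ.N, Nx Γ k X η := by
    intro η hη k hk
    have hNB : NB54 Γ X η := by
      by_contra hc2
      exact hη (subset_toMeasurable _ _ hc2)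
    exact hNB.nx hk
  have hPp := adm_P54 hδ.le hn1 hA
  have b4 : ∑ b ∈ Γ.rows 0 Γ.N, ∫ η in bad, |Γ.C b (sg b.1 η)| ∂(law μ) ≤ 2 * (n : ℝ) ^ (-(1 : ℝ)) := by
    have q1 : ∀ b ∈ Γ.rows 0 Γ.N, ∫ η in bad, |Γ.C b (sg b.1 η)| ∂(law μ) ≤
        X * P * (law μ).real bad + ∫ η, R b η ∂(law μ) := by
      intro b hb
      obtain ⟨i1, e1⟩ := int_sg (μ := μ) b.1 (iR b hb)
      have i2 : IntegrableOn (fun η => X * P + R b (sg b.1 η)) bad (law μ) := ((integrable_const _).add i1).integrableOn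
      have s1 : ∫ η in bad, |Γ.C b (sg b.1 η)| ∂(law μ) ≤ ∫ η in bad, (X * P + R b (sg b.1 η)) ∂(law μ) := by
        refine integral_mono_of_nonneg (ae_of_all _ fun η => abs_nonneg _) i2 (ae_of_all _ fun η => ?_)
        refine (absC b hb (sg b.1 η)).trans (add_le_add ?_ le_rfl)
        exact mul_le_mul_of_nonneg_left ((Cx.ws_le hG hb _).trans (hPp b.1)) np.le
      refine s1.trans ?_
      rw [integral_add (integrable_const _).integrableOn i1.integrableOn]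
      refine add_le_add (le_of_eq ?_) ?_
      · rw [setIntegral_const, smul_eq_mul, mul_comm]
      · rw [← e1]
        exact setIntegral_le_integral i1 (ae_of_all _ fun η => hR0 b _)
    refine (sum_le_sum q1).trans ?_
    rw [sum_add_distrib, sum_const, nsmul_eq_mul]
    have hcard := card54 (by linarith) hn1 hA
    have r1 : ((Γ.rows 0 Γ.N).card : ℝ) * (X * P * (law μ).real bad) ≤ (n : ℝ) ^ (-(1 : ℝ)) := by
      have hX1 : X ≤ n := by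
        rw [hXdef]
        calc (n : ℝ) ^ (c / 16) ≤ (n : ℝ) ^ (1 : ℝ) := Real.rpow_le_rpow_of_exponent_le hnR (by linarith)
          _ = n := Real.rpow_one _
      have s0 : 0 ≤ (law μ).real bad := measureReal_nonneg
      calc ((Γ.rows 0 Γ.N).card : ℝ) * (X * P * (law μ).real bad)
          ≤ (20 * (n : ℝ) ^ 12) * (n * P * Real.exp (-(n : ℝ) ^ c')) := by
            refine mul_le_mul hcard ?_ (by positivity) (by positivity)
            exact mul_le_mul (mul_le_mul_of_nonneg_right hX1 (by positivity)) pb s0 (by positivity)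
        _ = (20 * P * (n : ℝ) ^ 14) * Real.exp (-(n : ℝ) ^ c') * (n : ℝ)⁻¹ := by
            field_simp
        _ ≤ 1 * (n : ℝ)⁻¹ := by
            refine mul_le_mul_of_nonneg_right ?_ (by positivity)
            rw [Real.exp_neg, ← div_eq_mul_inv, div_le_one (Real.exp_pos _)]
            rw [one_mul] at hev
            exact hev
        _ = (n : ℝ) ^ (-(1 : ℝ)) := by rw [one_mul, Real.rpow_neg_one]
    linarith
  have key := coreS54 (Γ := Γ) (χ := χ Γ) hμ hG gm gG (show 0 ≤ 1 / τ ^ 2 by positivity) gL' (mχ Γ) (h0 Γ) (h1 Γ) np.le mb hgood b2 b3 b4 hPhi'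
  have num := numC8 (n := (n : ℝ)) (E := EE μ s n) (c := c) (e := e) (c₀ := 1) (ε := c / 4) hnR hE9 hc hc5 (by linarith) hce rfl hbig
    (δ := δ) (near := Γ.near μ d) hδ.le hnr
  rw [← hGt] at num
  have e8 : 2 * v / 2 = v := by ring
  rw [e8]
  refine key.trans (le_trans ?_ num)
  -- the numbers
  have pp : ∀ a : ℝ, 0 < (n : ℝ) ^ a := fun a => Real.rpow_pos_of_pos n0 a
  have mono : ∀ a b : ℝ, a ≤ b → (n : ℝ) ^ a ≤ (n : ℝ) ^ b := fun a b h => Real.rpow_le_rpow_of_exponent_le hnR h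
  have add : ∀ a b : ℝ, (n : ℝ) ^ a * (n : ℝ) ^ b = (n : ℝ) ^ (a + b) := fun a b => (Real.rpow_add n0 a b).symm
  have hX1 : 1 ≤ X := by
    rw [hXdef]
    exact Real.one_le_rpow hnR (by positivity)
  set Q := X * (n : ℝ) ^ (1 / 20 : ℝ) + (n : ℝ) ^ (-(1 : ℝ)) with hQ
  have hQ0 : 0 < Q := by rw [hQ]; positivity
  have f1 : 4 * X * Q ≤ (n : ℝ) ^ (c / 4) * (n : ℝ) ^ (1 / 20 : ℝ) := by
    have g1 : (n : ℝ) ^ (-(1 : ℝ)) ≤ X * (n : ℝ) ^ (1 / 20 : ℝ) := by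
      rw [hXdef, add]
      exact mono _ _ (by linarith)
    have g2 : X * X = (n : ℝ) ^ (c / 8) := by
      rw [hXdef, add]
      congr 1
      ring
    have g3 : (n : ℝ) ^ (c / 8) * (n : ℝ) ^ (c / 8) = (n : ℝ) ^ (c / 4) := by
      rw [add]
      congr 1
      ring
    calc 4 * X * Q ≤ 4 * X * (2 * (X * (n : ℝ) ^ (1 / 20 : ℝ))) := by
          refine mul_le_mul_of_nonneg_left ?_ (by positivity)
          rw [hQ]
          linarith
      _ = 8 * (X * X) * (n : ℝ) ^ (1 / 20 : ℝ) := by ring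
      _ = 8 * (n : ℝ) ^ (c / 8) * (n : ℝ) ^ (1 / 20 : ℝ) := by rw [g2]
      _ ≤ (n : ℝ) ^ (c / 8) * (n : ℝ) ^ (c / 8) * (n : ℝ) ^ (1 / 20 : ℝ) :=
          mul_le_mul_of_nonneg_right (mul_le_mul_of_nonneg_right hbig2 (pp _).le) (pp _).le
      _ = _ := by rw [g3]
  have f2 : 2 * (1 / τ ^ 2 * Q) + 1 / τ ^ 2 * (2 * X) * Q ≤ (1 / τ) ^ 2 * ((n : ℝ) ^ (c / 4) * (n : ℝ) ^ (1 / 20 : ℝ) + (n : ℝ) ^ (-(1 : ℝ))) := by
    have g1 : 2 * (1 / τ ^ 2 * Q) + 1 / τ ^ 2 * (2 * X) * Q ≤ 1 / τ ^ 2 * (4 * X * Q) := by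
      have : 0 ≤ 1 / τ ^ 2 * Q := by positivity
      nlinarith
    refine g1.trans ?_
    rw [one_div_pow]
    refine mul_le_mul_of_nonneg_left ?_ (by positivity)
    linarith [pp (-(1 : ℝ))]
  have f3 : 2 * (1 / τ) * (2 * (n : ℝ) ^ (-(1 : ℝ))) ≤ 1 / τ * ((n : ℝ) ^ (2 * e + 2 * (c / 4)) * Γ.near μ d + (n : ℝ) ^ (-(1 : ℝ))) +
      1 / τ * ((n : ℝ) ^ (c / 4) * (n : ℝ) ^ (-(1 : ℝ)) + (n : ℝ) ^ (-(1 : ℝ))) := by
    rw [← mul_add]
    have g1 : 0 ≤ (n : ℝ) ^ (2 * e + 2 * (c / 4)) * Γ.near μ d := mul_nonneg (pp _).le hnr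
    have g2 : 2 * (n : ℝ) ^ (-(1 : ℝ)) ≤ (n : ℝ) ^ (c / 4) * (n : ℝ) ^ (-(1 : ℝ)) :=
      mul_le_mul_of_nonneg_right (by linarith) (pp _).le
    calc 2 * (1 / τ) * (2 * (n : ℝ) ^ (-(1 : ℝ))) = 1 / τ * (4 * (n : ℝ) ^ (-(1 : ℝ))) := by ring
      _ ≤ _ := mul_le_mul_of_nonneg_left (by linarith) (by positivity)
  linarith

/-- The same for `LMR54`. -/
theorem lmrS54 {s : ℝ} {χ : Cx → ℕ × ℤ → Env → ℝ} (mχ : ∀ Γ b, Measurable (χ Γ b)) (h0 : ∀ Γ b η, 0 ≤ χ Γ b η)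
    (h1 : ∀ Γ b η, χ Γ b η ≤ 1) (hμ : EM μ) {c₀ C₀ : ℝ} {n₀ : ℕ} (hI : In μ s c₀ C₀ n₀) (hN : H56.Nbr56 μ s)
    (hE9 : ∀ᶠ n : ℕ in atTop, (n : ℝ) ^ (1 / 9 : ℝ) ≤ EE μ s n) (hLoc : LocP8 μ s) (hXs : XsP8 μ s)
    (hPhi : PhiS54 χ μ s) : LMR54 μ s := lmr8 hμ (lmdS54 mχ h0 h1 hμ hI hN hE9 hLoc hXs hPhi)

end

end Pool.Agent.W_7d29a1_C1.H54
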