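import Pool.Agent.W_7d29a1_C1.Cor68
import Pool.Agent.W_7d29a1_C1.SigL54
import Pool.Agent.W_7d29a1_C1.AsmQ68
import Pool.Agent.W_7d29a1_C1.LocS56

/-!
Both halves (MP_7d29a1_pr), attractor route: THE SPLIT TOTAL FUNCTIONAL ((Y) by corners): its bound `SSh` and the second moment
(helper68). `tfS68`, `sqS68`.
-/

set_option autoImplicit false

namespace Pool.Agent.W_7d29a1_C1.H60

open MeasureTheory Filter Topology Finset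
open Pool.Agent.W_7d29a1_F Pool.Agent.W_7d29a1_H Pool.Agent.W_7d29a1_HS
open Pool.Agent.W_7d29a1_h47 (EM)
open Pool.Agent.W_7d29a1_C1.H54 (sg mp_sg spl PhS PhiS54)
open Pool.Agent.W_7d29a1_C1.H56 (Nbr56 loc56s)
open Pool.Agent.W_7d29a1_C1.Cor68

noncomputable section

/-- The bound of the split total functional. -/
def SSh (Γ : Cx) (χ : ℕ × ℤ → Env → ℝ) (η : Env) : ℝ := ∑ b ∈ Γ.rows 0 Γ.N, spl b (χ b) (Γ.KW b) η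

/-- The split sum of the weights in the frames. -/
def YSh (Γ : Cx) (χ : ℕ × ℤ → Env → ℝ) (η : Env) : ℝ := ∑ b ∈ Γ.rows 0 Γ.N, spl b (χ b) (Γ.ws b) η

/-- **(Y), split**: the second moment of the split sum of the weights in the frames. -/
def YshP68 (χ : Cx → ℕ × ℤ → Env → ℝ) (μ : Measure ℝ) (s : ℝ) : Prop :=
  ∀ ε : ℝ, 0 < ε → ∃ c₀ : ℝ, 0 < c₀ ∧ ∀ c : ℝ, 0 < c → c ≤ c₀ → ∀ δ : ℝ, 0 < δ → δ ≤ c / 16 → ∃ κ₀ : ℝ, 0 < κ₀ ∧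
    ∀ κ : ℝ, 0 < κ → κ ≤ κ₀ → ∀ᶠ n : ℕ in atTop, ∀ Γ : Cx, Adm μ s c δ κ n Γ → ∫ η, YSh Γ (χ Γ) η ^ 2 ∂(law μ) ≤ (n : ℝ) ^ ε

variable {μ : Measure ℝ} [IsProbabilityMeasure μ] {s : ℝ}

theorem sd68 (Γ : Cx) {χ : ℕ × ℤ → Env → ℝ} (mχ : ∀ b, Measurable (χ b)) (h0 : ∀ b η, 0 ≤ χ b η) (h1 : ∀ b η, χ b η ≤ 1) :
    SD (law μ) (Γ.rows 0 Γ.N) (fun b => sg b.1) χ where
  mp := fun b _ => mp_sg b.1
  mc := fun b _ => mχ b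
  c0 := fun b _ => h0 b
  c1 := fun b _ => h1 b

omit [IsProbabilityMeasure μ] in
theorem SSh_eq (Γ : Cx) (χ : ℕ × ℤ → Env → ℝ) : SSh Γ χ = Shf (Γ.rows 0 Γ.N) (fun b => sg b.1) χ Γ.KW := rfl

theorem YSh_eq (Γ : Cx) (χ : ℕ × ℤ → Env → ℝ) : YSh Γ χ = Shf (Γ.rows 0 Γ.N) (fun b => sg b.1) χ Γ.ws := rfl

theorem PhS_eq (Γ : Cx) (χ : ℕ × ℤ → Env → ℝ) : PhS Γ χ = Shf (Γ.rows 0 Γ.N) (fun b => sg b.1) χ Γ.C := rfl

/-- The square of one weight is integrable. -/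
theorem int_KW2 (hμ : EM μ) {Γ : Cx} (h : Γ.Ok) {c : ℕ × ℤ} (hc : c ∈ Γ.rows 0 Γ.N) :
    Integrable (fun η => Γ.KW c η ^ 2) (law μ) := by
  refine (Cx.int_SS2 hμ h (a := 0) (b := Γ.N) le_rfl).mono' ((Γ.meas_KW c).pow_const 2).aestronglyMeasurable
    (Eventually.of_forall fun η => ?_)
  rw [Real.norm_eq_abs, abs_of_nonneg (sq_nonneg _)]
  refine pow_le_pow_left₀ (Cx.KW_nonneg h c η) ?_ 2
  exact single_le_sum (f := fun c => Γ.KW c η) (fun c _ => Cx.KW_nonneg h c η) hc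

theorem int_ws2 {Γ : Cx} (h : Γ.Ok) {c : ℕ × ℤ} (hc : c ∈ Γ.rows 0 Γ.N) : Integrable (fun η => Γ.ws c η ^ 2) (law μ) := by
  refine (Cx.int_YY2 (μ := μ) h (a := 0) (b := Γ.N) le_rfl).mono' ((Γ.meas_ws c).pow_const 2).aestronglyMeasurable
    (Eventually.of_forall fun η => ?_)
  rw [Real.norm_eq_abs, abs_of_nonneg (sq_nonneg _)]
  refine pow_le_pow_left₀ (Cx.ws_nonneg h c η) ?_ 2
  exact single_le_sum (f := fun c => Γ.ws c η) (fun c _ => Cx.ws_nonneg h c η) hc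

/-- **The data of the split total functional.** -/
theorem tfS68 (hμ : EM μ) {χ : Cx → ℕ × ℤ → Env → ℝ} (mχ : ∀ Γ b, Measurable (χ Γ b)) (h0 : ∀ Γ b η, 0 ≤ χ Γ b η)
    (h1 : ∀ Γ b η, χ Γ b η ≤ 1) : TF μ (fun Γ => PhS Γ (χ Γ)) (fun Γ => SSh Γ (χ Γ)) where
  mP := fun Γ _ => (sd68 (μ := μ) Γ (mχ Γ) (h0 Γ) (h1 Γ)).measurable fun c _ => Γ.meas_C c
  mS := fun Γ _ => (sd68 (μ := μ) Γ (mχ Γ) (h0 Γ) (h1 Γ)).measurable fun c _ => Γ.meas_KW c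
  le := fun Γ h η => (sd68 (μ := μ) Γ (mχ Γ) (h0 Γ) (h1 Γ)).abs_le (fun _ hc η => Cx.abs_C_le_KW h hc η) η
  iS := fun Γ h => (sd68 (μ := μ) Γ (mχ Γ) (h0 Γ) (h1 Γ)).int fun _ hc => Cx.int_KW hμ h hc
  iS2 := fun Γ h => (sd68 (μ := μ) Γ (mχ Γ) (h0 Γ) (h1 Γ)).int2 (fun c _ => Γ.meas_KW c) fun _ hc => int_KW2 hμ h hc

omit [IsProbabilityMeasure μ] in
/-- The number of the contacts of an admissible context. -/
theorem card68 {c δ κ : ℝ} (hc : c ≤ 1 / 8) {n : ℕ} (hn3 : 3 ≤ n) {Γ : Cx} (hA : Adm μ s c δ κ n Γ) :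
    (((Γ.rows 0 Γ.N).card : ℕ) : ℝ) ≤ (n : ℝ) ^ (10 : ℝ) := by
  have hnR : (3 : ℝ) ≤ n := by exact_mod_cast hn3
  have n0 : (0 : ℝ) < n := by linarith
  have n1 : (1 : ℝ) ≤ n := by linarith
  obtain ⟨N, L, q1, q2, q3, q4, q5, q6, -, -⟩ := hA.hor
  have hN : (Γ.N : ℝ) + 1 ≤ (n : ℝ) ^ (5 : ℝ) := by
    have h1 : (Γ.N : ℝ) + 1 ≤ 3 * (N : ℝ) ^ 3 := by
      have h2 : Γ.N + 1 ≤ N + 2 * N ^ 3 + 2 := by omega
      have h3 : N + 2 ≤ N ^ 3 := by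
        have h4' : 3 ≤ N := hn3.trans q1
        have h5 : 3 * 3 ≤ N * N := Nat.mul_le_mul h4' h4'
        have h6 : N * 9 ≤ N * (N * N) := Nat.mul_le_mul le_rfl h5
        have h7 : N ^ 3 = N * (N * N) := by ring
        omega
      have h8 : Γ.N + 1 ≤ 3 * N ^ 3 := by omega
      exact_mod_cast h8
    have h2 : (N : ℝ) ^ 3 ≤ (n : ℝ) ^ (3 * (1 + c)) := by
      have h3 := pow_le_pow_left₀ (Nat.cast_nonneg N) q2 3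
      refine h3.trans (le_of_eq ?_)
      rw [← Real.rpow_natCast, ← Real.rpow_mul n0.le]
      congr 1
      push_cast
      ring
    calc (Γ.N : ℝ) + 1 ≤ 3 * (N : ℝ) ^ 3 := h1
      _ ≤ n * (n : ℝ) ^ (3 * (1 + c)) := mul_le_mul hnR h2 (by positivity) n0.le
      _ = (n : ℝ) ^ (1 + 3 * (1 + c)) := by rw [Real.rpow_add n0, Real.rpow_one]
      _ ≤ (n : ℝ) ^ (5 : ℝ) := Real.rpow_le_rpow_of_exponent_le n1 (by linarith)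
  refine (card_rows_le Γ).trans ?_
  have h1 := pow_le_pow_left₀ (by positivity) hN 2
  refine h1.trans (le_of_eq ?_)
  rw [← Real.rpow_natCast, ← Real.rpow_mul n0.le]
  norm_num

/-- **The second moment of the bound of the split total functional.** -/
theorem sqS68 {c₀ C₀ : ℝ} {n₀ : ℕ} (hI : In μ s c₀ C₀ n₀) (hN : Nbr56 μ s) {χ : Cx → ℕ × ℤ → Env → ℝ}
    (mχ : ∀ Γ b, Measurable (χ Γ b)) (h0 : ∀ Γ b η, 0 ≤ χ Γ b η) (h1 : ∀ Γ b η, χ Γ b η ≤ 1) (hY : YshP68 χ μ s) :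
    SqQ μ s (fun Γ => SSh Γ (χ Γ)) := by
  intro ε hε
  obtain ⟨c₁, hc₁, hY⟩ := hY (ε / 4) (by linarith)
  refine ⟨min c₁ (1 / 8), lt_min hc₁ (by norm_num), fun c hc hcc δ hδ hδc => ?_⟩
  have k1 : c ≤ c₁ := hcc.trans (min_le_left _ _)
  have k3 : c ≤ 1 / 8 := hcc.trans (min_le_right _ _)
  obtain ⟨κ₁, hκ₁, hY⟩ := hY c hc k1 δ hδ hδc
  obtain ⟨κ₂, hκ₂, hE⟩ := loc56s hI hN (ε := ε / 4) (by linarith) hc
  refine ⟨min κ₁ κ₂, lt_min hκ₁ hκ₂, fun κ hκ hκκ => ?_⟩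
  have ev1 : ∀ᶠ n : ℕ in atTop, (8 : ℝ) ≤ (n : ℝ) ^ (ε / 4) :=
    ((tendsto_rpow_atTop (by linarith : 0 < ε / 4)).comp tendsto_natCast_atTop_atTop).eventually_ge_atTop _
  filter_upwards [hY κ hκ (hκκ.trans (min_le_left _ _)), hE κ (hκκ.trans (min_le_right _ _)) δ hδ.le (by linarith) 16, ev1,
    eventually_ge_atTop 3] with n hY hE h8 hn3 Γ hA
  have hnR : (3 : ℝ) ≤ n := by exact_mod_cast hn3
  have n0 : (0 : ℝ) < n := by linarith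
  have n1 : (1 : ℝ) ≤ n := by linarith
  obtain ⟨R, -, r2, -, -, r5, r6, r7⟩ := hE Γ hA
  have y1 := hY Γ hA
  have hG := hA.ok
  have sd := sd68 (μ := μ) Γ (mχ Γ) (h0 Γ) (h1 Γ)
  have key := sd.sq_int (KW := Γ.KW) (ws := Γ.ws) (R := R) (K := (n : ℝ) ^ (ε / 4)) (Real.rpow_nonneg n0.le _)
    (fun c _ η => Cx.KW_nonneg hG c η) (fun c _ η => r2 c η) (fun c hc η => (r7 c hc η).2.2.1) r5
    (sd.int2 (fun c _ => Γ.meas_ws c) fun _ hc => int_ws2 hG hc)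
  have key' : ∫ η, SSh Γ (χ Γ) η ^ 2 ∂(law μ) ≤ 2 * ((n : ℝ) ^ (ε / 4)) ^ 2 * (∫ η, YSh Γ (χ Γ) η ^ 2 ∂(law μ)) +
      8 * (Γ.rows 0 Γ.N).card * ∑ c ∈ Γ.rows 0 Γ.N, ∫ η, R c η ^ 2 ∂(law μ) := key
  refine key'.trans ?_
  have hcard := card68 k3 hn3 hA
  have s0 : 0 ≤ ∑ c ∈ Γ.rows 0 Γ.N, ∫ η, R c η ^ 2 ∂(law μ) := sum_nonneg fun c _ => integral_nonneg fun η => sq_nonneg _
  have hw : 8 * (((Γ.rows 0 Γ.N).card : ℕ) : ℝ) * ∑ c ∈ Γ.rows 0 Γ.N, ∫ η, R c η ^ 2 ∂(law μ) ≤ 8 := by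
    have h3 : (((Γ.rows 0 Γ.N).card : ℕ) : ℝ) * ∑ c ∈ Γ.rows 0 Γ.N, ∫ η, R c η ^ 2 ∂(law μ) ≤
        (n : ℝ) ^ (10 : ℝ) * (n : ℝ) ^ (-(16 : ℝ)) := mul_le_mul hcard r6 s0 (by positivity)
    have h2 : (n : ℝ) ^ (10 : ℝ) * (n : ℝ) ^ (-(16 : ℝ)) ≤ 1 := by
      rw [← Real.rpow_add n0]
      exact Real.rpow_le_one_of_one_le_of_nonpos n1 (by norm_num)
    linarith
  have hY2 : 2 * ((n : ℝ) ^ (ε / 4)) ^ 2 * (∫ η, YSh Γ (χ Γ) η ^ 2 ∂(law μ)) ≤ 2 * (n : ℝ) ^ (3 * ε / 4) := by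
    have h3 : 2 * ((n : ℝ) ^ (ε / 4)) ^ 2 * (∫ η, YSh Γ (χ Γ) η ^ 2 ∂(law μ)) ≤
        2 * ((n : ℝ) ^ (ε / 4)) ^ 2 * (n : ℝ) ^ (ε / 4) := mul_le_mul_of_nonneg_left y1 (by positivity)
    refine h3.trans (le_of_eq ?_)
    rw [sq, mul_assoc, mul_assoc, ← Real.rpow_add n0, ← Real.rpow_add n0]
    congr 2
    ring
  have h5 : (8 : ℝ) ≤ (n : ℝ) ^ (3 * ε / 4) := h8.trans (Real.rpow_le_rpow_of_exponent_le n1 (by linarith))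
  have h6 : 4 * (n : ℝ) ^ (3 * ε / 4) ≤ (n : ℝ) ^ ε := by
    calc 4 * (n : ℝ) ^ (3 * ε / 4) ≤ (n : ℝ) ^ (ε / 4) * (n : ℝ) ^ (3 * ε / 4) :=
          mul_le_mul_of_nonneg_right (by linarith) (by positivity)
      _ = (n : ℝ) ^ ε := by
        rw [← Real.rpow_add n0]
        congr 1
        ring
  linarith

end

end Pool.Agent.W_7d29a1_C1.H60
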