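import Pool.Agent.W_7d29a1_C1.AsmC54
import Pool.Agent.W_7d29a1_C1.CorQ68

/-!
MP_7d29a1_pr, attractor route (helper54): THE WHOLE ASSEMBLY BY CORNERS, two inputs. The loss of memory at one site (`LMR54`) from
the second moment of the split frame weights (`YshP68`) and the result of the exchange for the split functional (`LecQ`).
-/

set_option autoImplicit false

namespace Pool.Agent.W_7d29a1_C1.H54

open MeasureTheory Filter Topology Finset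
open Pool.Agent.W_7d29a1_F Pool.Agent.W_7d29a1_h4g Pool.Agent.W_7d29a1_H Pool.Agent.W_7d29a1_HS
open Pool.Agent.W_7d29a1_h47 (EM)
open Pool.Agent.W_7d29a1_C1.H60
open Pool.Agent.W_7d29a1_C1.H8
open Pool.Agent.W_7d29a1_C1.Ch87 (chiC chiC_nonneg chiC_le_one meas_chiC)

variable {μ : Measure ℝ} [IsProbabilityMeasure μ] {s : ℝ} {c C : ℝ} {n₀ : ℕ}

/-- The size of the frame weights from the second moment of their split sum. -/
theorem xsS54 {χ : Cx → ℕ × ℤ → Env → ℝ} (mχ : ∀ Γ b, Measurable (χ Γ b)) (h0 : ∀ Γ b η, 0 ≤ χ Γ b η)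
    (h1 : ∀ Γ b η, χ Γ b η ≤ 1) (hY : YshP68 χ μ s) : XsP8 μ s := by
  obtain ⟨c₀, hc₀, hY⟩ := hY (1 / 20) (by norm_num)
  refine ⟨c₀, hc₀, fun c hc hcc δ hδ hδc => ?_⟩
  obtain ⟨κ₀, hκ₀, hY⟩ := hY c hc hcc δ hδ hδc
  refine ⟨κ₀, hκ₀, fun κ hκ hκκ => ?_⟩
  filter_upwards [hY κ hκ hκκ, eventually_ge_atTop 1] with n hY hn1 Γ hA
  have hnR : (1 : ℝ) ≤ n := by exact_mod_cast hn1
  have h4 : (1 : ℝ) ≤ (n : ℝ) ^ (1 / 20 : ℝ) := Real.one_le_rpow hnR (by norm_num)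
  have sd := sd68 (μ := μ) Γ (mχ Γ) (h0 Γ) (h1 Γ)
  have i1 : Integrable (fun η => YSh Γ (χ Γ) η) (law μ) := sd.int fun c hc => Cx.int_ws hA.ok hc
  have i2 : Integrable (fun η => YSh Γ (χ Γ) η ^ 2) (law μ) :=
    sd.int2 (fun c _ => Γ.meas_ws c) fun _ hc => int_ws2 hA.ok hc
  have e1 : ∫ η, YSh Γ (χ Γ) η ∂(law μ) = ∑ b ∈ Γ.rows 0 Γ.N, ∫ η, Γ.ws b η ∂(law μ) :=
    sd.integral_eq fun c hc => Cx.int_ws hA.ok hc
  have e2 : 1 + ∫ η, YSh Γ (χ Γ) η ^ 2 ∂(law μ) = ∫ η, (1 + YSh Γ (χ Γ) η ^ 2) ∂(law μ) := by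
    rw [integral_add (integrable_const _) i2]
    simp
  have e3 : 2 * ∫ η, YSh Γ (χ Γ) η ∂(law μ) ≤ 1 + ∫ η, YSh Γ (χ Γ) η ^ 2 ∂(law μ) := by
    rw [e2, ← integral_const_mul]
    refine integral_mono (i1.const_mul 2) ((integrable_const _).add i2) fun η => ?_
    show 2 * YSh Γ (χ Γ) η ≤ 1 + YSh Γ (χ Γ) η ^ 2
    nlinarith [sq_nonneg (YSh Γ (χ Γ) η - 1)]
  have h2 := hY Γ hA
  rw [← e1]
  linarith

/-- The bound of the split total functional with the corner weights. -/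
noncomputable def ShC (Γ : Cx) : Env → ℝ := SSh Γ (chiC Γ)

/-- **THE WHOLE ASSEMBLY BY CORNERS**: the loss of memory at one site from (Y) by corners and the result of the exchange. -/
theorem lmr_corY54 (h : In μ s c C n₀)
    (hL : ∀ ε : ℝ, 0 < ε → ∃ n₁ : ℕ, ∀ n : ℕ, n₁ ≤ n → wd μ s n ≤ (n : ℝ) ^ ε * EE μ s n ^ 2)
    (hU : ∀ ε : ℝ, 0 < ε → ∃ n₁ : ℕ, ∀ n : ℕ, n₁ ≤ n → EE μ s n ^ 2 ≤ (n : ℝ) ^ ε * wd μ s n) (hY : YshP68 chiC μ s)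
    (hLec : LecQ μ s PhC ShC) : LMR54 μ s := by
  have m1 : ∀ Γ b, Measurable (chiC Γ b) := fun Γ b => meas_chiC Γ b
  have m2 : ∀ Γ b η, 0 ≤ chiC Γ b η := fun Γ b η => chiC_nonneg Γ b η
  have m3 : ∀ Γ b η, chiC Γ b η ≤ 1 := fun Γ b η => chiC_le_one Γ b η
  exact lmr_cor54 h hL hU (xsS54 m1 m2 m3 hY) (tfS68 h.em m1 m2 m3) (sqS68 h (Nbr78.nbr78 h hL hU) m1 m2 m3 hY) hLec

end Pool.Agent.W_7d29a1_C1.H54
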