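import Pool.Agent.W_7d29a1_C1.AsmI9

/-!
Both halves (MP_7d29a1_pr), attractor route: THE ASSEMBLY WITH A PARTNER MAP AND A GLOBAL GOOD EVENT. (helper9)

The estimates of the exchange are asked only on the pairs of environments which are good before and after the exchange.
-/

set_option autoImplicit false

namespace Pool.Agent.W_7d29a1_C1.H60

open MeasureTheory

variable {Ω : Type*} [MeasurableSpace Ω] {P : Measure Ω} {ι ι' : Type*}

section good

variable {Z : Type*} [MeasurableSpace Z] {Q : Measure Z} {κ : Type*} {T : Finset κ} {m : ℕ} {ρ : ℕ → κ → κ}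
  {σ : ℕ → κ → Z → Z} {A : ℕ → κ → Set Z}

/-- The pairs which are good before and after the exchange. -/
def Ag (σ : ℕ → κ → Z → Z) (A : ℕ → κ → Set Z) (Gd : Set Z) (l : ℕ) (p : κ) : Set Z := A l p ∩ (Gd ∩ σ l p ⁻¹' Gd)

theorem Part.good (h : Part Q T m ρ σ A) {Gd : Set Z} (mG : MeasurableSet Gd)
    (ss : ∀ l < m, ∀ p ∈ T, ∀ z ∈ A l p, σ l (ρ l p) (σ l p z) = z) : Part Q T m ρ σ (Ag σ A Gd) := by
  have sub : ∀ l p, (Ag σ A Gd l p).Nonempty → (A l p).Nonempty := fun l p ⟨z, hz⟩ => ⟨z, hz.1⟩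
  refine
    { mp := h.mp
      mA := fun l hl p hp => (h.mA l hl p hp).inter (mG.inter ((h.mp l hl p hp).measurable mG))
      dj := fun p hp l hl l' hl' hne => (h.dj p hp l hl l' hl' hne).mono Set.inter_subset_left Set.inter_subset_left
      rin := fun l hl p hp hA => h.rin l hl p hp (sub l p hA)
      rr := fun l hl p hp hA => h.rr l hl p hp (sub l p hA)
      inv := ?_ }
  intro l hl p hp hA z
  have hA' := sub l p hA
  constructor
  · rintro ⟨h1, h2, h3⟩
    refine ⟨(h.inv l hl p hp hA' z).1 h1, h3, ?_⟩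
    show σ l (ρ l p) (σ l p z) ∈ Gd
    rw [ss l hl p hp z h1]
    exact h2
  · rintro ⟨h1, h2, h3⟩
    have h4 := (h.inv l hl p hp hA' z).2 h1
    have h5 : σ l (ρ l p) (σ l p z) ∈ Gd := h3
    rw [ss l hl p hp z h4] at h5
    exact ⟨h4, h5, h2⟩

end good

section all

variable {S : Finset ι} {S' : Finset ι'} {C w ws R : ι → Ω → ℝ} {C' w' ws' R' : ι' → Ω → ℝ} {K X X' t t' : ℝ}

/-- The successes; the remainder is left. -/
theorem core9 [IsProbabilityMeasure P] (h : CD P S C w ws R K X t) (h' : CD P S' C' w' ws' R' K X' t') {g : ℝ → ℝ} {G L : ℝ}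
    (hg : Measurable g) (g0 : ∀ x, 0 ≤ g x) (gG : ∀ x, g x ≤ G) (gL : ∀ x y, |g x - g y| ≤ L * |x - y|) {B : Ω → ℝ}
    (hB : Measurable B) {m : ℕ} {ρ : ℕ → ι × ι' → ι × ι'} {σ : ℕ → ι × ι' → Ω × Ω → Ω × Ω} {A : ℕ → ι × ι' → Set (Ω × Ω)}
    {o τ th : ℝ} (o0 : 0 ≤ o) (τ0 : 0 ≤ τ) (th0 : 0 ≤ th) (th1 : th ≤ 1 / 2)
    (hP : PDi P B S S' C w ws C' w' ws' m ρ σ A o τ th) :
    |(∑ c ∈ S, ∫ ω, g (B ω) * C c ω ∂P) * (∑ c' ∈ S', ∫ ω, w' c' ω ∂P) -
        (∑ c ∈ S, ∫ ω, g (B ω) * w c ω ∂P) * (∑ c' ∈ S', ∫ ω, C' c' ω ∂P)| ≤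
      L * o * (K * (X + X') + (S'.card * t + S.card * t')) +
      G * (τ * (2 * (S.card * S'.card) + 2 * (S.card * (X' + 2 * (K * X' + t'))))) +
      G * (th * (2 * ((3 + 4 * K) * (X + X') + 4 * (S.card * t')))) +
      ∑ p ∈ S ×ˢ S', ∫ z in (⋃ l ∈ Finset.range m, A l p)ᶜ, |HH g B (C p.1) (w p.1) (C' p.2) (w' p.2) z| ∂(P.prod P) := by
  classical
  have L0 : 0 ≤ L := by
    have h1 := gL 1 0
    have h2 := abs_nonneg (g 1 - g 0)
    simp only [sub_zero, abs_one, mul_one] at h1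
    linarith
  have G0 : 0 ≤ G := (g0 0).trans (gG 0)
  have K0 := h.K0
  rw [lhs9 h h' hg g0 gG hB]
  -- integrability
  have mem : ∀ p ∈ S ×ˢ S', p.1 ∈ S ∧ p.2 ∈ S' := fun p hp => Finset.mem_product.1 hp
  set H : ι × ι' → Ω × Ω → ℝ := fun p => HH g B (C p.1) (w p.1) (C' p.2) (w' p.2) with hH
  set q : ι × ι' → Ω × Ω → ℝ := fun p => pw (w p.1) (ws p.1) (w' p.2) (ws' p.2) with hq
  set r : ι × ι' → Ω × Ω → ℝ := fun p z => R p.1 z.1 + R' p.2 z.2 with hr
  set a : ι × ι' → Ω × Ω → ℝ := fun p z => ws' p.2 z.2 + 2 * |C' p.2 z.2| with ha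
  set b : ι × ι' → Ω × Ω → ℝ := fun p z => (3 + 4 * K) * q p z + 4 * R' p.2 z.2 with hb
  have iH : ∀ p ∈ S ×ˢ S', Integrable (H p) (P.prod P) := fun p hp =>
    int_HH h h' hg g0 gG hB (mem p hp).1 (mem p hp).2
  have iq : ∀ p ∈ S ×ˢ S', Integrable (q p) (P.prod P) := fun p hp => int_pw h h' (mem p hp).1 (mem p hp).2
  have ir : ∀ p ∈ S ×ˢ S', Integrable (r p) (P.prod P) := fun p hp => int_RR h h' (mem p hp).1 (mem p hp).2
  have iR' : ∀ p ∈ S ×ˢ S', Integrable (fun z : Ω × Ω => R' p.2 z.2) (P.prod P) := fun p hp =>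
    (h'.iR p.2 (mem p hp).2).comp_snd P
  have iws : ∀ p ∈ S ×ˢ S', Integrable (fun z : Ω × Ω => ws' p.2 z.2) (P.prod P) := fun p hp =>
    (h'.iws p.2 (mem p hp).2).comp_snd P
  have iC : ∀ p ∈ S ×ˢ S', Integrable (fun z : Ω × Ω => |C' p.2 z.2|) (P.prod P) := fun p hp =>
    ((h'.iC (mem p hp).2).abs).comp_snd P
  have ia : ∀ p ∈ S ×ˢ S', Integrable (a p) (P.prod P) := fun p hp => (iws p hp).add ((iC p hp).const_mul 2)
  have ib : ∀ p ∈ S ×ˢ S', Integrable (b p) (P.prod P) := fun p hp => ((iq p hp).const_mul _).add ((iR' p hp).const_mul 4)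
  have q0 : ∀ p ∈ S ×ˢ S', ∀ z, 0 ≤ q p z := fun p hp => pw_nonneg h h' (mem p hp).1 (mem p hp).2
  have r0 : ∀ p ∈ S ×ˢ S', ∀ z, 0 ≤ r p z := fun p hp z =>
    add_nonneg (h.R0 p.1 (mem p hp).1 z.1) (h'.R0 p.2 (mem p hp).2 z.2)
  have a0 : ∀ p ∈ S ×ˢ S', ∀ z, 0 ≤ a p z := fun p hp z =>
    add_nonneg (h'.ws0 p.2 (mem p hp).2 z.2) (mul_nonneg (by norm_num) (abs_nonneg _))
  have b0 : ∀ p ∈ S ×ˢ S', ∀ z, 0 ≤ b p z := fun p hp z =>
    add_nonneg (mul_nonneg (by positivity) (q0 p hp z)) (mul_nonneg (by norm_num) (h'.R0 p.2 (mem p hp).2 z.2))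
  -- the sums
  have sq : ∑ p ∈ S ×ˢ S', ∫ z, q p z ∂(P.prod P) ≤ X + X' := by
    rw [Finset.sum_product]
    exact sum_pw_le h h'
  have er : ∀ p ∈ S ×ˢ S', ∫ z, r p z ∂(P.prod P) = ∫ ω, R p.1 ω ∂P + ∫ ω, R' p.2 ω ∂P := by
    intro p hp
    have e1 : ∫ z, r p z ∂(P.prod P) = ∫ z : Ω × Ω, R p.1 z.1 ∂(P.prod P) + ∫ z : Ω × Ω, R' p.2 z.2 ∂(P.prod P) :=
      integral_add ((h.iR p.1 (mem p hp).1).comp_fst P) (iR' p hp)
    rw [e1]
    congr 1
    · have := integral_fun_fst (μ := P) (ν := P) (fun ω => R p.1 ω)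
      simpa using this
    · have := integral_fun_snd (μ := P) (ν := P) (fun ω => R' p.2 ω)
      simpa using this
  have sr : ∑ p ∈ S ×ˢ S', ∫ z, r p z ∂(P.prod P) ≤ S'.card * t + S.card * t' := by
    rw [Finset.sum_congr rfl er, Finset.sum_product]
    exact sum_RR_le h h'
  have snd : ∀ f : ι' → Ω → ℝ, ∀ p : ι × ι', ∫ z : Ω × Ω, f p.2 z.2 ∂(P.prod P) = ∫ ω, f p.2 ω ∂P := by
    intro f p
    have := integral_fun_snd (μ := P) (ν := P) (fun ω => f p.2 ω)
    simpa using this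
  have sa : ∑ p ∈ S ×ˢ S', ∫ z, a p z ∂(P.prod P) ≤ S.card * (X' + 2 * (K * X' + t')) := by
    have e1 : ∀ p ∈ S ×ˢ S', ∫ z, a p z ∂(P.prod P) = ∫ ω, ws' p.2 ω ∂P + 2 * ∫ ω, |C' p.2 ω| ∂P := by
      intro p hp
      have e2 : ∫ z, a p z ∂(P.prod P) = ∫ z : Ω × Ω, ws' p.2 z.2 ∂(P.prod P) + ∫ z : Ω × Ω, 2 * |C' p.2 z.2| ∂(P.prod P) :=
        integral_add (iws p hp) ((iC p hp).const_mul 2)
      rw [e2, integral_const_mul, snd (fun c => ws' c) p, snd (fun c ω => |C' c ω|) p]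
    rw [Finset.sum_congr rfl e1, Finset.sum_product]
    simp only [Finset.sum_add_distrib, ← Finset.mul_sum, Finset.sum_const, nsmul_eq_mul]
    rw [show (S.card : ℝ) * ∑ c ∈ S', ∫ ω, ws' c ω ∂P + 2 * ((S.card : ℝ) * ∑ c ∈ S', ∫ ω, |C' c ω| ∂P) =
      S.card * (∑ c ∈ S', ∫ ω, ws' c ω ∂P + 2 * ∑ c ∈ S', ∫ ω, |C' c ω| ∂P) by ring]
    have u1 := h'.tX
    have u2 := h'.sumC
    gcongr
  have sb : ∑ p ∈ S ×ˢ S', ∫ z, b p z ∂(P.prod P) ≤ (3 + 4 * K) * (X + X') + 4 * (S.card * t') := by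
    have e1 : ∀ p ∈ S ×ˢ S', ∫ z, b p z ∂(P.prod P) = (3 + 4 * K) * ∫ z, q p z ∂(P.prod P) + 4 * ∫ ω, R' p.2 ω ∂P := by
      intro p hp
      have e2 : ∫ z, b p z ∂(P.prod P) =
          ∫ z : Ω × Ω, (3 + 4 * K) * q p z ∂(P.prod P) + ∫ z : Ω × Ω, 4 * R' p.2 z.2 ∂(P.prod P) :=
        integral_add ((iq p hp).const_mul _) ((iR' p hp).const_mul 4)
      rw [e2, integral_const_mul, integral_const_mul, snd (fun c => R' c) p]
    rw [Finset.sum_congr rfl e1, Finset.sum_add_distrib, ← Finset.mul_sum, ← Finset.mul_sum]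
    refine add_le_add (mul_le_mul_of_nonneg_left sq (by positivity)) (mul_le_mul_of_nonneg_left ?_ (by norm_num))
    rw [Finset.sum_product]
    simp only [Finset.sum_const, nsmul_eq_mul]
    exact mul_le_mul_of_nonneg_left h'.tR (Nat.cast_nonneg _)
  -- the successes
  have key := hP.pa.exch iH
  have k1 : ∑ l ∈ Finset.range m, ∑ p ∈ S ×ˢ S', ∫ z in A l p, |H p z + H (ρ l p) (σ l p z)| ∂(P.prod P) ≤
      L * o * (K * (X + X') + (S'.card * t + S.card * t')) +
      G * (τ * (2 * (S.card * S'.card) + 2 * (S.card * (X' + 2 * (K * X' + t'))))) +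
      G * (th * (2 * ((3 + 4 * K) * (X + X') + 4 * (S.card * t')))) := by
    have s1 : ∀ l ∈ Finset.range m, ∀ p ∈ S ×ˢ S', ∫ z in A l p, |H p z + H (ρ l p) (σ l p z)| ∂(P.prod P) ≤
        ∫ z in A l p, L * o * (K * q p z + r p z) ∂(P.prod P) +
          G * (τ * (∫ z in A l p, (2 + a p z) ∂(P.prod P) + ∫ z in A l p, a (ρ l p) (σ l p z) ∂(P.prod P))) +
          G * (th * (∫ z in A l p, b p z ∂(P.prod P) + ∫ z in A l p, b (ρ l p) (σ l p z) ∂(P.prod P))) := by
      intro l hl p hp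
      have hl' := Finset.mem_range.1 hl
      by_cases hA : (A l p).Nonempty
      · have hρ := hP.pa.rin l hl' p hp hA
        have hmp := hP.pa.mp l hl' p hp
        have j1 : Integrable (fun z => L * o * (K * q p z + r p z)) (P.prod P) :=
          (((iq p hp).const_mul K).add (ir p hp)).const_mul (L * o)
        have j2 : Integrable (fun z => 2 + a p z) (P.prod P) := (integrable_const (2 : ℝ)).add (ia p hp)
        have j3 : Integrable (fun z => a (ρ l p) (σ l p z)) (P.prod P) := hmp.integrable_comp_of_integrable (ia _ hρ)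
        have j4 : Integrable (fun z => b (ρ l p) (σ l p z)) (P.prod P) := hmp.integrable_comp_of_integrable (ib _ hρ)
        have j5 : Integrable (fun z => H (ρ l p) (σ l p z)) (P.prod P) := hmp.integrable_comp_of_integrable (iH _ hρ)
        have j6 : Integrable (fun z => G * (τ * ((2 + a p z) + a (ρ l p) (σ l p z)))) (P.prod P) :=
          ((j2.add j3).const_mul τ).const_mul G
        have j7 : Integrable (fun z => G * (th * (b p z + b (ρ l p) (σ l p z)))) (P.prod P) :=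
          (((ib p hp).add j4).const_mul th).const_mul G
        have j8 : Integrable (fun z => L * o * (K * q p z + r p z) + G * (τ * ((2 + a p z) + a (ρ l p) (σ l p z))))
          (P.prod P) := j1.add j6
        calc ∫ z in A l p, |H p z + H (ρ l p) (σ l p z)| ∂(P.prod P)
            ≤ ∫ z in A l p, ((L * o * (K * q p z + r p z) + G * (τ * ((2 + a p z) + a (ρ l p) (σ l p z)))) +
                G * (th * (b p z + b (ρ l p) (σ l p z)))) ∂(P.prod P) := by
              refine setIntegral_mono_on ((iH p hp).add j5).abs.integrableOn (j8.add j7).integrableOn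
                (hP.pa.mA l hl' p hp) fun z hz => ?_
              refine (abs_HH_addi9 h h' g0 gG gL τ0 th0 th1 hP hl' hp hz).trans (le_of_eq ?_)
              simp only [ha, hb, hq, hr]
              ring
          _ = _ := by
              rw [integral_add j8.integrableOn j7.integrableOn, integral_add j1.integrableOn j6.integrableOn,
                integral_const_mul G, integral_const_mul τ, integral_const_mul G, integral_const_mul th,
                integral_add j2.integrableOn j3.integrableOn, integral_add (ib p hp).integrableOn j4.integrableOn]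
      · rw [Set.not_nonempty_iff_eq_empty.1 hA]
        simp only [Measure.restrict_empty, integral_zero_measure, add_zero, mul_zero, le_refl]
    refine (Finset.sum_le_sum fun l hl => Finset.sum_le_sum fun p hp => s1 l hl p hp).trans ?_
    simp only [Finset.sum_add_distrib, ← Finset.mul_sum]
    have t1 : ∑ l ∈ Finset.range m, ∑ p ∈ S ×ˢ S', ∫ z in A l p, L * o * (K * q p z + r p z) ∂(P.prod P) ≤
        L * o * (K * (X + X') + (S'.card * t + S.card * t')) := by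
      refine (hP.pa.sumA (f := fun p z => L * o * (K * q p z + r p z))
        (fun p hp => (((iq p hp).const_mul K).add (ir p hp)).const_mul (L * o)) fun p hp z => ?_).trans ?_
      · have := q0 p hp z
        have := r0 p hp z
        positivity
      · have e1 : ∀ p ∈ S ×ˢ S', ∫ z, L * o * (K * q p z + r p z) ∂(P.prod P) =
            L * o * (K * ∫ z, q p z ∂(P.prod P) + ∫ z, r p z ∂(P.prod P)) := by
          intro p hp
          rw [integral_const_mul, integral_add ((iq p hp).const_mul K) (ir p hp), integral_const_mul]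
        rw [Finset.sum_congr rfl e1, ← Finset.mul_sum, Finset.sum_add_distrib, ← Finset.mul_sum]
        gcongr
    have t2 : ∑ l ∈ Finset.range m, ∑ p ∈ S ×ˢ S', ∫ z in A l p, (2 + a p z) ∂(P.prod P) ≤
        2 * (S.card * S'.card) + S.card * (X' + 2 * (K * X' + t')) := by
      refine (hP.pa.sumA (f := fun p z => 2 + a p z) (fun p hp => (integrable_const (2 : ℝ)).add (ia p hp))
        fun p hp z => by have := a0 p hp z; positivity).trans ?_
      have e1 : ∀ p ∈ S ×ˢ S', ∫ z, (2 + a p z) ∂(P.prod P) = 2 + ∫ z, a p z ∂(P.prod P) := by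
        intro p hp
        rw [integral_add (integrable_const _) (ia p hp)]
        simp
      rw [Finset.sum_congr rfl e1, Finset.sum_add_distrib, Finset.sum_const, nsmul_eq_mul, Finset.card_product, Nat.cast_mul]
      linarith
    have t3 := hP.pa.sumS ia a0
    have t4 := hP.pa.sumA ib b0
    have t5 := hP.pa.sumS ib b0
    have v1 : τ * (∑ l ∈ Finset.range m, ∑ p ∈ S ×ˢ S', ∫ z in A l p, (2 + a p z) ∂(P.prod P) +
        ∑ l ∈ Finset.range m, ∑ p ∈ S ×ˢ S', ∫ z in A l p, a (ρ l p) (σ l p z) ∂(P.prod P)) ≤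
        τ * (2 * (S.card * S'.card) + 2 * (S.card * (X' + 2 * (K * X' + t')))) :=
      mul_le_mul_of_nonneg_left (by linarith) τ0
    have v2 : th * (∑ l ∈ Finset.range m, ∑ p ∈ S ×ˢ S', ∫ z in A l p, b p z ∂(P.prod P) +
        ∑ l ∈ Finset.range m, ∑ p ∈ S ×ˢ S', ∫ z in A l p, b (ρ l p) (σ l p z) ∂(P.prod P)) ≤
        th * (2 * ((3 + 4 * K) * (X + X') + 4 * (S.card * t'))) :=
      mul_le_mul_of_nonneg_left (by linarith) th0
    exact add_le_add (add_le_add t1 (mul_le_mul_of_nonneg_left v1 G0)) (mul_le_mul_of_nonneg_left v2 G0)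
  have z0 : 0 ≤ ∑ l ∈ Finset.range m, ∑ p ∈ S ×ˢ S', ∫ z in A l p, |H p z + H (ρ l p) (σ l p z)| ∂(P.prod P) :=
    Finset.sum_nonneg fun l _ => Finset.sum_nonneg fun p _ => integral_nonneg fun z => abs_nonneg _
  calc |∑ p ∈ S ×ˢ S', ∫ z, H p z ∂(P.prod P)| ≤ _ := key
    _ ≤ ∑ l ∈ Finset.range m, ∑ p ∈ S ×ˢ S', ∫ z in A l p, |H p z + H (ρ l p) (σ l p z)| ∂(P.prod P) +
        ∑ p ∈ S ×ˢ S', ∫ z in (⋃ l ∈ Finset.range m, A l p)ᶜ, |H p z| ∂(P.prod P) := by linarith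
    _ ≤ _ := add_le_add k1 le_rfl

/-- The remainder without success: the weights. -/
theorem rem9 [IsProbabilityMeasure P] (h : CD P S C w ws R K X t) (h' : CD P S' C' w' ws' R' K X' t') {g : ℝ → ℝ} {G : ℝ}
    (hg : Measurable g) (g0 : ∀ x, 0 ≤ g x) (gG : ∀ x, g x ≤ G) {B : Ω → ℝ} (hB : Measurable B)
    {E : ι × ι' → Set (Ω × Ω)} (mE : ∀ p ∈ S ×ˢ S', MeasurableSet (E p)) {N2 : ℝ}
    (hN2 : ∑ c ∈ S, ∑ c' ∈ S', ∫ z in E (c, c'), pw (w c) (ws c) (w' c') (ws' c') z ∂(P.prod P) ≤ N2) :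
    ∑ p ∈ S ×ˢ S', ∫ z in E p, |HH g B (C p.1) (w p.1) (C' p.2) (w' p.2) z| ∂(P.prod P) ≤
      G * (K * N2 + (S'.card * t + S.card * t')) := by
  have G0 : 0 ≤ G := (g0 0).trans (gG 0)
  have K0 := h.K0
  have mem : ∀ p ∈ S ×ˢ S', p.1 ∈ S ∧ p.2 ∈ S' := fun p hp => Finset.mem_product.1 hp
  have s1 : ∀ p ∈ S ×ˢ S', ∫ z in E p, |HH g B (C p.1) (w p.1) (C' p.2) (w' p.2) z| ∂(P.prod P) ≤
      G * (K * (∫ z in E p, pw (w p.1) (ws p.1) (w' p.2) (ws' p.2) z ∂(P.prod P)) +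
        (∫ ω, R p.1 ω ∂P + ∫ ω, R' p.2 ω ∂P)) := by
    intro p hp
    have iH := int_HH h h' hg g0 gG hB (mem p hp).1 (mem p hp).2
    have iq := int_pw h h' (mem p hp).1 (mem p hp).2
    have ir := int_RR h h' (mem p hp).1 (mem p hp).2
    have e1 : ∫ z : Ω × Ω, (R p.1 z.1 + R' p.2 z.2) ∂(P.prod P) = ∫ ω, R p.1 ω ∂P + ∫ ω, R' p.2 ω ∂P := by
      have e2 : ∫ z : Ω × Ω, (R p.1 z.1 + R' p.2 z.2) ∂(P.prod P) =
          ∫ z : Ω × Ω, R p.1 z.1 ∂(P.prod P) + ∫ z : Ω × Ω, R' p.2 z.2 ∂(P.prod P) :=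
        integral_add ((h.iR p.1 (mem p hp).1).comp_fst P) ((h'.iR p.2 (mem p hp).2).comp_snd P)
      rw [e2]
      congr 1
      · have := integral_fun_fst (μ := P) (ν := P) (fun ω => R p.1 ω)
        simpa using this
      · have := integral_fun_snd (μ := P) (ν := P) (fun ω => R' p.2 ω)
        simpa using this
    calc ∫ z in E p, |HH g B (C p.1) (w p.1) (C' p.2) (w' p.2) z| ∂(P.prod P)
        ≤ ∫ z in E p, G * (K * pw (w p.1) (ws p.1) (w' p.2) (ws' p.2) z + (R p.1 z.1 + R' p.2 z.2)) ∂(P.prod P) := by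
          refine setIntegral_mono_on iH.abs.integrableOn (((iq.const_mul K).add ir).const_mul G).integrableOn (mE p hp)
            fun z _ => ?_
          exact abs_HH_le h h' g0 gG B (mem p hp).1 (mem p hp).2 z
      _ = G * (K * (∫ z in E p, pw (w p.1) (ws p.1) (w' p.2) (ws' p.2) z ∂(P.prod P)) +
          ∫ z in E p, (R p.1 z.1 + R' p.2 z.2) ∂(P.prod P)) := by
          rw [integral_const_mul, integral_add (iq.const_mul K).integrableOn ir.integrableOn, integral_const_mul]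
      _ ≤ _ := by
          refine mul_le_mul_of_nonneg_left (add_le_add le_rfl ?_) G0
          rw [← e1]
          exact setIntegral_le_integral ir (Filter.Eventually.of_forall fun z =>
            add_nonneg (h.R0 p.1 (mem p hp).1 z.1) (h'.R0 p.2 (mem p hp).2 z.2))
  refine (Finset.sum_le_sum s1).trans ?_
  rw [← Finset.mul_sum, Finset.sum_add_distrib, ← Finset.mul_sum, Finset.sum_product, Finset.sum_product]
  exact mul_le_mul_of_nonneg_left (add_le_add (mul_le_mul_of_nonneg_left hN2 K0) (sum_RR_le h h')) G0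

/-- **THE RATIO DOES NOT DEPEND ON THE CONTEXT, exchange of boxes, with a global good event `Gd`.** -/
theorem lecg9 [IsProbabilityMeasure P] (h : CD P S C w ws R K X t) (h' : CD P S' C' w' ws' R' K X' t') {g : ℝ → ℝ} {G L : ℝ}
    (hg : Measurable g) (g0 : ∀ x, 0 ≤ g x) (gG : ∀ x, g x ≤ G) (gL : ∀ x y, |g x - g y| ≤ L * |x - y|) {B : Ω → ℝ}
    (hB : Measurable B) {m : ℕ} {ρ : ℕ → ι × ι' → ι × ι'} {σ : ℕ → ι × ι' → Ω × Ω → Ω × Ω} {A : ℕ → ι × ι' → Set (Ω × Ω)}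
    {o τ th : ℝ} (o0 : 0 ≤ o) (τ0 : 0 ≤ τ) (th0 : 0 ≤ th) (th1 : th ≤ 1 / 2) {Gd : Set (Ω × Ω)} (mG : MeasurableSet Gd)
    (hA : Part (P.prod P) (S ×ˢ S') m ρ σ A)
    (hP : PDi P B S S' C w ws C' w' ws' m ρ σ (Ag σ A Gd) o τ th) {N2 H : ℝ}
    (hH : ∀ c ∈ S, ∀ ω, |C c ω| ≤ H) (hH' : ∀ c ∈ S', ∀ ω, |C' c ω| ≤ H)
    (hN2 : ∑ c ∈ S, ∑ c' ∈ S', ∫ z in (⋃ i ∈ Finset.range m, A i (c, c'))ᶜ, pw (w c) (ws c) (w' c') (ws' c') z ∂(P.prod P) ≤ N2) :
    |(∑ c ∈ S, ∫ ω, g (B ω) * C c ω ∂P) * (∑ c' ∈ S', ∫ ω, w' c' ω ∂P) -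
        (∑ c ∈ S, ∫ ω, g (B ω) * w c ω ∂P) * (∑ c' ∈ S', ∫ ω, C' c' ω ∂P)| ≤
      L * o * (K * (X + X') + (S'.card * t + S.card * t')) +
      G * (τ * (2 * (S.card * S'.card) + 2 * (S.card * (X' + 2 * (K * X' + t'))))) +
      G * (th * (2 * ((3 + 4 * K) * (X + X') + 4 * (S.card * t')))) +
      G * (K * N2 + (S'.card * t + S.card * t')) +
      4 * G * H * m * (S.card * S'.card) * (P.prod P).real Gdᶜ := by
  classical
  have G0 : 0 ≤ G := (g0 0).trans (gG 0)
  have mem : ∀ p ∈ S ×ˢ S', p.1 ∈ S ∧ p.2 ∈ S' := fun p hp => Finset.mem_product.1 hp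
  have core := core9 h h' hg g0 gG gL hB o0 τ0 th0 th1 hP
  have mU : ∀ p ∈ S ×ˢ S', MeasurableSet (⋃ l ∈ Finset.range m, A l p)ᶜ := fun p hp =>
    (Finset.measurableSet_biUnion _ fun l hl => hA.mA l (Finset.mem_range.1 hl) p hp).compl
  have rem := rem9 h h' hg g0 gG hB (E := fun p => (⋃ l ∈ Finset.range m, A l p)ᶜ) mU hN2
  -- the bad pairs
  have bad : ∀ p ∈ S ×ˢ S', ∫ z in (⋃ l ∈ Finset.range m, Ag σ A Gd l p)ᶜ,
      |HH g B (C p.1) (w p.1) (C' p.2) (w' p.2) z| ∂(P.prod P) ≤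
      ∫ z in (⋃ l ∈ Finset.range m, A l p)ᶜ, |HH g B (C p.1) (w p.1) (C' p.2) (w' p.2) z| ∂(P.prod P) +
        4 * G * H * m * (P.prod P).real Gdᶜ := by
    intro p hp
    have iH := int_HH h h' hg g0 gG hB (mem p hp).1 (mem p hp).2
    have H0 : 0 ≤ H := (abs_nonneg _).trans (hH p.1 (mem p hp).1 (nonempty_of_isProbabilityMeasure P).some)
    have bd : ∀ z, |HH g B (C p.1) (w p.1) (C' p.2) (w' p.2) z| ≤ 2 * G * H := by
      intro z
      have b1 := h.w0 p.1 (mem p hp).1 z.1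
      have b2 := h'.w0 p.2 (mem p hp).2 z.2
      have b3 := h.w1 (mem p hp).1 z.1
      have b4 := h'.w1 (mem p hp).2 z.2
      unfold HH
      rw [abs_mul, abs_of_nonneg (g0 _)]
      have e1 : |C p.1 z.1 * w' p.2 z.2 - w p.1 z.1 * C' p.2 z.2| ≤ 2 * H := by
        refine (abs_sub _ _).trans ?_
        rw [abs_mul, abs_mul, abs_of_nonneg b1, abs_of_nonneg b2]
        have e2 : |C p.1 z.1| * w' p.2 z.2 ≤ H * 1 := mul_le_mul (hH _ (mem p hp).1 _) b4 b2 H0
        have e3 : w p.1 z.1 * |C' p.2 z.2| ≤ 1 * H := mul_le_mul b3 (hH' _ (mem p hp).2 _) (abs_nonneg _) zero_le_one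
        linarith
      calc g (B z.1) * |C p.1 z.1 * w' p.2 z.2 - w p.1 z.1 * C' p.2 z.2| ≤ G * (2 * H) :=
            mul_le_mul (gG _) e1 (abs_nonneg _) G0
        _ = 2 * G * H := by ring
    have sub : (⋃ l ∈ Finset.range m, Ag σ A Gd l p)ᶜ ⊆
        (⋃ l ∈ Finset.range m, A l p)ᶜ ∪ ⋃ l ∈ Finset.range m, (Gdᶜ ∪ σ l p ⁻¹' Gdᶜ) := by
      intro z hz
      by_cases h1 : z ∈ ⋃ l ∈ Finset.range m, A l p
      · refine Or.inr ?_
        simp only [Set.mem_iUnion, exists_prop] at h1 ⊢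
        obtain ⟨l, hl, hzl⟩ := h1
        refine ⟨l, hl, ?_⟩
        by_contra hh
        rw [Set.mem_union, not_or] at hh
        refine hz ?_
        simp only [Set.mem_iUnion, exists_prop]
        exact ⟨l, hl, hzl, not_not.1 hh.1, not_not.1 hh.2⟩
      · exact Or.inl h1
    have mB : MeasurableSet (⋃ l ∈ Finset.range m, (Gdᶜ ∪ σ l p ⁻¹' Gdᶜ)) :=
      Finset.measurableSet_biUnion _ fun l hl =>
        mG.compl.union ((hA.mp l (Finset.mem_range.1 hl) p hp).measurable mG.compl)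
    have i1 : Integrable (fun z => |HH g B (C p.1) (w p.1) (C' p.2) (w' p.2) z|) (P.prod P) := iH.abs
    calc ∫ z in (⋃ l ∈ Finset.range m, Ag σ A Gd l p)ᶜ, |HH g B (C p.1) (w p.1) (C' p.2) (w' p.2) z| ∂(P.prod P)
        ≤ ∫ z in (⋃ l ∈ Finset.range m, A l p)ᶜ ∪ ⋃ l ∈ Finset.range m, (Gdᶜ ∪ σ l p ⁻¹' Gdᶜ),
            |HH g B (C p.1) (w p.1) (C' p.2) (w' p.2) z| ∂(P.prod P) :=
          setIntegral_mono_set i1.integrableOn (Filter.Eventually.of_forall fun z => abs_nonneg _)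
            (Filter.Eventually.of_forall sub)
      _ ≤ ∫ z in (⋃ l ∈ Finset.range m, A l p)ᶜ, |HH g B (C p.1) (w p.1) (C' p.2) (w' p.2) z| ∂(P.prod P) +
          ∫ z in ⋃ l ∈ Finset.range m, (Gdᶜ ∪ σ l p ⁻¹' Gdᶜ), |HH g B (C p.1) (w p.1) (C' p.2) (w' p.2) z| ∂(P.prod P) := by
          rw [← Set.union_sdiff_self, setIntegral_union Set.disjoint_sdiff_right (mB.diff (mU p hp)) i1.integrableOn
            i1.integrableOn]
          refine add_le_add le_rfl ?_
          exact setIntegral_mono_set i1.integrableOn (Filter.Eventually.of_forall fun z => abs_nonneg _)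
            (Filter.Eventually.of_forall Set.sdiff_subset)
      _ ≤ _ := by
          refine add_le_add le_rfl ?_
          calc ∫ z in ⋃ l ∈ Finset.range m, (Gdᶜ ∪ σ l p ⁻¹' Gdᶜ), |HH g B (C p.1) (w p.1) (C' p.2) (w' p.2) z| ∂(P.prod P)
              ≤ ∫ _z in ⋃ l ∈ Finset.range m, (Gdᶜ ∪ σ l p ⁻¹' Gdᶜ), 2 * G * H ∂(P.prod P) :=
                setIntegral_mono_on i1.integrableOn (integrable_const _).integrableOn mB fun z _ => bd z
            _ = (P.prod P).real (⋃ l ∈ Finset.range m, (Gdᶜ ∪ σ l p ⁻¹' Gdᶜ)) * (2 * G * H) := by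
                rw [setIntegral_const, smul_eq_mul]
            _ ≤ (∑ l ∈ Finset.range m, 2 * (P.prod P).real Gdᶜ) * (2 * G * H) := by
                refine mul_le_mul_of_nonneg_right ?_ (by positivity)
                refine (measureReal_biUnion_finset_le _ _).trans (Finset.sum_le_sum fun l hl => ?_)
                refine (measureReal_union_le _ _).trans ?_
                have e1 : (P.prod P).real (σ l p ⁻¹' Gdᶜ) = (P.prod P).real Gdᶜ := by
                  unfold Measure.real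
                  rw [(hA.mp l (Finset.mem_range.1 hl) p hp).measure_preimage mG.compl.nullMeasurableSet]
                rw [e1]
                linarith
            _ = 4 * G * H * m * (P.prod P).real Gdᶜ := by
                rw [Finset.sum_const, Finset.card_range, nsmul_eq_mul]
                ring
  have bads := Finset.sum_le_sum bad
  rw [Finset.sum_add_distrib, Finset.sum_const, nsmul_eq_mul, Finset.card_product, Nat.cast_mul] at bads
  have e9 : (S.card : ℝ) * S'.card * (4 * G * H * m * (P.prod P).real Gdᶜ) =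
      4 * G * H * m * (S.card * S'.card) * (P.prod P).real Gdᶜ := by ring
  rw [e9] at bads
  linarith

end all

end Pool.Agent.W_7d29a1_C1.H60
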