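import Pool.Agent.W_7d29a1_C1.Yc67
import Pool.Agent.W_7d29a1_C1.SigL54

/-!
MP_7d29a1_pr, C1, (Y) BY CORNERS (helper67): the second moment of the split and moved sum of the weights in the frames, and the first
moment of the sum of the weights in the frames (`XsP8`), from the neighbouring sites (`Nbr56`) alone.
-/

set_option autoImplicit false

namespace Pool.Agent.W_7d29a1_C1.Cut67

open Finset MeasureTheory Filter Topology
open Pool.Agent.W_7d29a1_F Pool.Agent.W_7d29a1_h4g Pool.Agent.W_7d29a1_H Pool.Agent.W_7d29a1_HS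
open Pool.Agent.W_7d29a1_C1.K91 (Box Grp zs wt wt_pos measurable_wt)
open Pool.Agent.W_7d29a1_C1.K91P
open Pool.Agent.W_7d29a1_C1.H60
open Pool.Agent.W_7d29a1_C1.H60.Cx (l)
open Pool.Agent.W_7d29a1_C1.H54 (sg NB54 nb_prob54 adm_P54 ev_pow54 spl int_spl card54 meas_spl)
open Pool.Agent.W_7d29a1_C1.Ch87 (chiC chiC_nonneg chiC_le_one meas_chiC)
open Pool.Agent.W_7d29a1_C1.H8 (XsP8)

noncomputable section

variable {Γ : Cx}

theorem ys_spl (Γ : Cx) (η : Env) : YS Γ η = ∑ b ∈ Γ.rows 0 Γ.N, spl b (chiC Γ b) (Γ.ws b) η := rfl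

theorem meas_ys (Γ : Cx) : Measurable (YS Γ) :=
  Finset.measurable_sum _ fun b _ => meas_spl b (meas_chiC Γ b) (Γ.meas_ws b)

theorem ys_nonneg (h : Γ.Ok) (η : Env) : 0 ≤ YS Γ η := by
  refine sum_nonneg fun c _ => add_nonneg (mul_nonneg (Cx.ws_nonneg h c η) (chiC_nonneg Γ c η))
    (mul_nonneg (Cx.ws_nonneg h c _) ?_)
  linarith [chiC_le_one Γ c (sg c.1 η)]

/-- The crude bound. -/
theorem ys_crude (h : Γ.Ok) {P : ℝ} (hP : ∀ i, Γ.p i ≤ P) (η : Env) : YS Γ η ≤ 2 * P * ((Γ.rows 0 Γ.N).card : ℝ) := by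
  have h1 : YS Γ η ≤ ∑ _c ∈ Γ.rows 0 Γ.N, 2 * P := by
    refine sum_le_sum fun c hc => ?_
    have a1 := (Cx.ws_le h hc η).trans (hP c.1)
    have a2 := (Cx.ws_le h hc (sg c.1 η)).trans (hP c.1)
    have a3 := mul_le_of_le_one_right (Cx.ws_nonneg h c η) (chiC_le_one Γ c η)
    have a4 := mul_le_of_le_one_right (Cx.ws_nonneg h c (sg c.1 η)) (by linarith [chiC_nonneg Γ c (sg c.1 η)] :
      1 - chiC Γ c (sg c.1 η) ≤ 1)
    linarith
  rw [sum_const, nsmul_eq_mul] at h1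
  linarith

/-- **The pointwise bound, numbers**: `NB54 Γ X η` and `1 ≤ X`. -/
theorem ys_X (h : Γ.Ok) {η : Env} {X P : ℝ} (hX1 : 1 ≤ X) (hX : NB54 Γ X η) (hP : ∀ i, Γ.p i ≤ P) (hP1 : 1 ≤ P) :
    YS Γ η ≤ 6912 * P ^ 2 * X ^ 2 := by
  have hI : Real.exp X ≤ 2 ^ ⌈2 * X⌉₊ := by
    have e2 : (2 : ℝ) ^ ⌈2 * X⌉₊ = Real.exp ((⌈2 * X⌉₊ : ℝ) * Real.log 2) := by
      rw [Real.exp_nat_mul, Real.exp_log (by norm_num)]
    rw [e2]
    refine Real.exp_le_exp.2 ?_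
    have h1 := Nat.le_ceil (2 * X)
    have h2 : (1 / 2 : ℝ) ≤ Real.log 2 := by
      have := Real.log_two_gt_d9
      linarith
    have h3 := mul_le_mul h1 h2 (by norm_num) (Nat.cast_nonneg _)
    linarith
  have key := ys_le h (fun i hi => hX.nb hi) hP hP1 hI
  have h3 : ((⌈2 * X⌉₊ : ℕ) : ℝ) + 1 ≤ 4 * X := by
    have := Nat.ceil_lt_add_one (show 0 ≤ 2 * X by linarith)
    linarith
  have h4 : (((⌈2 * X⌉₊ : ℕ) : ℝ) + 1) ^ 2 ≤ (4 * X) ^ 2 := pow_le_pow_left₀ (by positivity) h3 2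
  have h5 := mul_le_mul_of_nonneg_left h4 (show 0 ≤ 432 * P ^ 2 by positivity)
  refine key.trans (h5.trans (le_of_eq ?_))
  ring

variable {μ : Measure ℝ} {s : ℝ}

/-- **THE SECOND MOMENT OF THE SPLIT AND MOVED SUM.** -/
def YsqS67 (μ : Measure ℝ) (s : ℝ) : Prop :=
  ∀ ε : ℝ, 0 < ε → ∃ c₀ : ℝ, 0 < c₀ ∧ ∀ c : ℝ, 0 < c → c ≤ c₀ → ∀ δ : ℝ, 0 < δ → δ ≤ c / 16 → ∃ κ₀ : ℝ, 0 < κ₀ ∧
    ∀ κ : ℝ, 0 < κ → κ ≤ κ₀ → ∀ᶠ n : ℕ in atTop, ∀ Γ : Cx, Adm μ s c δ κ n Γ → ∫ η, YS Γ η ^ 2 ∂(law μ) ≤ (n : ℝ) ^ ε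

theorem int_ys2 [IsProbabilityMeasure μ] (h : Γ.Ok) : Integrable (fun η => YS Γ η ^ 2) (law μ) := by
  have hP : ∀ i, Γ.p i ≤ Real.exp (|Γ.s| + |Γ.h|) := Γ.p_le
  refine (integrable_const ((2 * Real.exp (|Γ.s| + |Γ.h|) * ((Γ.rows 0 Γ.N).card : ℝ)) ^ 2)).mono'
    ((meas_ys Γ).pow_const 2).aestronglyMeasurable (Eventually.of_forall fun η => ?_)
  rw [Real.norm_eq_abs, abs_of_nonneg (by positivity)]
  exact pow_le_pow_left₀ (ys_nonneg h η) (ys_crude h hP η) 2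

theorem int_ys [IsProbabilityMeasure μ] (h : Γ.Ok) : Integrable (YS Γ) (law μ) := by
  have hP : ∀ i, Γ.p i ≤ Real.exp (|Γ.s| + |Γ.h|) := Γ.p_le
  refine (integrable_const (2 * Real.exp (|Γ.s| + |Γ.h|) * ((Γ.rows 0 Γ.N).card : ℝ))).mono'
    (meas_ys Γ).aestronglyMeasurable (Eventually.of_forall fun η => ?_)
  rw [Real.norm_eq_abs, abs_of_nonneg (ys_nonneg h η)]
  exact ys_crude h hP η

/-- The law does not see the split. -/
theorem sum_ws_ys [IsProbabilityMeasure μ] (h : Γ.Ok) : ∑ b ∈ Γ.rows 0 Γ.N, ∫ η, Γ.ws b η ∂(law μ) = ∫ η, YS Γ η ∂(law μ) := by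
  have e1 : ∀ b ∈ Γ.rows 0 Γ.N, ∫ η, Γ.ws b η ∂(law μ) = ∫ η, spl b (chiC Γ b) (Γ.ws b) η ∂(law μ) := fun b hb =>
    (int_spl b (meas_chiC Γ b) (chiC_nonneg Γ b) (chiC_le_one Γ b) (Cx.int_ws h hb)).2.2.2.symm
  rw [sum_congr rfl e1, ← integral_finsetSum _ fun b hb =>
    (int_spl b (meas_chiC Γ b) (chiC_nonneg Γ b) (chiC_le_one Γ b) (Cx.int_ws h hb)).2.2.1]
  rfl

/-- **(Y) BY CORNERS.** -/
theorem ysq67 [IsProbabilityMeasure μ] {c₀ C₀ : ℝ} {n₀ : ℕ} (hI : In μ s c₀ C₀ n₀) (hN : H56.Nbr56 μ s) : YsqS67 μ s := by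
  intro ε hε
  obtain ⟨κ₀, hκ₀, c1, hc1, hev⟩ := nb_prob54 hI hN (dl := ε / 8) (by linarith)
  refine ⟨1, one_pos, fun c hc hcc δ hδ hδc => ⟨κ₀, hκ₀, fun κ hκ hκκ => ?_⟩⟩
  obtain ⟨P, hPd⟩ : ∃ P, P = Real.exp (|s| + 1) := ⟨_, rfl⟩
  have hP1 : 1 ≤ P := by
    rw [hPd]
    exact Real.one_le_exp (by positivity)
  have t1 : Tendsto (fun n : ℕ => (n : ℝ) ^ (ε / 8)) atTop atTop :=
    (tendsto_rpow_atTop (by linarith)).comp tendsto_natCast_atTop_atTop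
  filter_upwards [hev c hcc δ (by linarith) κ hκκ, eventually_ge_atTop 1, t1.eventually_ge_atTop (max 2 (6912 * P ^ 2)),
    ev_pow54 ((2 * P * 20) ^ 2) 24 (B := 1) one_pos hc1] with n h1 h2 h3 h4 Γ hA
  have hok := hA.ok
  have hn' : (1 : ℝ) ≤ n := by exact_mod_cast h2
  have n0 : (0 : ℝ) < n := by linarith
  obtain ⟨X, hX⟩ : ∃ X, X = (n : ℝ) ^ (ε / 8) := ⟨_, rfl⟩
  rw [← hX] at h3
  have hX2 : 2 ≤ X := (le_max_left _ _).trans h3
  have hXP : 6912 * P ^ 2 ≤ X := (le_max_right _ _).trans h3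
  have hPp : ∀ i, Γ.p i ≤ P := by
    rw [hPd]
    exact adm_P54 hδ.le h2 hA
  have hcard := card54 hcc h2 hA
  obtain ⟨K, hK⟩ : ∃ K, K = 20 * (n : ℝ) ^ 12 := ⟨_, rfl⟩
  rw [← hK] at hcard
  have hK0 : 0 ≤ K := by rw [hK]; positivity
  obtain ⟨bad, hbad⟩ : ∃ bad, bad = toMeasurable (law μ) {η | ¬ NB54 Γ X η} := ⟨_, rfl⟩
  have mb : MeasurableSet bad := by rw [hbad]; exact measurableSet_toMeasurable _ _
  have pb : (law μ).real bad ≤ Real.exp (-(n : ℝ) ^ c1) := by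
    rw [hbad, Measure.real, measure_toMeasurable, hX]
    exact h1 Γ hA
  have pt : ∀ η, YS Γ η ^ 2 ≤ (X ^ 3) ^ 2 + bad.indicator (fun _ => (2 * P * K) ^ 2) η := by
    intro η
    by_cases hb1 : η ∈ bad
    · rw [Set.indicator_of_mem hb1]
      have e1 := (ys_crude hok hPp η).trans (mul_le_mul_of_nonneg_left hcard (by linarith : (0 : ℝ) ≤ 2 * P))
      have e2 := pow_le_pow_left₀ (ys_nonneg hok η) e1 2
      have e3 : 0 ≤ (X ^ 3) ^ 2 := by positivity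
      linarith
    · rw [Set.indicator_of_notMem hb1, add_zero]
      have hNB : NB54 Γ X η := by
        by_contra hc2
        refine hb1 ?_
        rw [hbad]
        exact subset_toMeasurable _ _ hc2
      have e1 := ys_X hok (by linarith) hNB hPp hP1
      have e2 : 6912 * P ^ 2 * X ^ 2 ≤ X ^ 3 := by
        have := mul_le_mul_of_nonneg_right hXP (sq_nonneg X)
        calc 6912 * P ^ 2 * X ^ 2 ≤ X * X ^ 2 := this
          _ = X ^ 3 := by ring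
      exact pow_le_pow_left₀ (ys_nonneg hok η) (e1.trans e2) 2
  have ib : Integrable (bad.indicator fun _ : Env => (2 * P * K) ^ 2) (law μ) := (integrable_const _).indicator mb
  have i1 := integral_mono (int_ys2 hok) ((integrable_const _).add ib) pt
  have i2 : ∫ η, ((X ^ 3) ^ 2 + bad.indicator (fun _ => (2 * P * K) ^ 2) η) ∂(law μ) =
      (X ^ 3) ^ 2 + (law μ).real bad * (2 * P * K) ^ 2 := by
    rw [integral_add (integrable_const _) ib, integral_indicator_const _ mb]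
    simp
  have i3 : ∫ η, YS Γ η ^ 2 ∂(law μ) ≤ (X ^ 3) ^ 2 + (law μ).real bad * (2 * P * K) ^ 2 := i1.trans (le_of_eq i2)
  refine i3.trans ?_
  have r1 : (law μ).real bad * (2 * P * K) ^ 2 ≤ 1 := by
    have q1 : (2 * P * K) ^ 2 ≤ Real.exp ((n : ℝ) ^ c1) := by
      refine le_trans (le_of_eq ?_) (h4.trans (le_of_eq (by rw [one_mul])))
      rw [hK]
      ring
    calc (law μ).real bad * (2 * P * K) ^ 2 ≤ Real.exp (-(n : ℝ) ^ c1) * Real.exp ((n : ℝ) ^ c1) :=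
          mul_le_mul pb q1 (by positivity) (Real.exp_pos _).le
      _ = 1 := by rw [← Real.exp_add, neg_add_cancel, Real.exp_zero]
  have r2 : (n : ℝ) ^ ε = X ^ 8 := by
    rw [hX, ← Real.rpow_natCast, ← Real.rpow_mul n0.le]
    congr 1
    push_cast
    ring
  rw [r2]
  have r3 : (1 : ℝ) ≤ X ^ 6 := one_le_pow₀ (by linarith)
  have r4 : 4 * X ^ 6 ≤ X ^ 2 * X ^ 6 := mul_le_mul_of_nonneg_right (by nlinarith) (by positivity)
  have r5 : (X ^ 3) ^ 2 = X ^ 6 := by ring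
  have r6 : X ^ 8 = X ^ 2 * X ^ 6 := by ring
  rw [r5, r6]
  linarith

/-- **THE FIRST MOMENT OF THE SUM OF THE WEIGHTS IN THE FRAMES**: `XsP8` of helper8. -/
theorem xs67 [IsProbabilityMeasure μ] {c₁ C₁ : ℝ} {n₁ : ℕ} (hI : In μ s c₁ C₁ n₁) (hN : H56.Nbr56 μ s) : XsP8 μ s := by
  obtain ⟨c₀, hc₀, hY⟩ := ysq67 hI hN (1 / 40) (by norm_num)
  refine ⟨c₀, hc₀, fun c hc hcc δ hδ hδc => ?_⟩
  obtain ⟨κ₀, hκ₀, hY⟩ := hY c hc hcc δ hδ hδc
  refine ⟨κ₀, hκ₀, fun κ hκ hκκ => ?_⟩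
  have t1 : Tendsto (fun n : ℕ => (n : ℝ) ^ (1 / 40 : ℝ)) atTop atTop :=
    (tendsto_rpow_atTop (by norm_num)).comp tendsto_natCast_atTop_atTop
  filter_upwards [hY κ hκ hκκ, eventually_ge_atTop 1, t1.eventually_ge_atTop 2] with n hY hn1 h2 Γ hA
  have hok := hA.ok
  have n0 : (0 : ℝ) < n := by exact_mod_cast hn1
  have hYA := hY Γ hA
  have i2 := int_ys2 (μ := μ) hok
  rw [sum_ws_ys hok]
  have h3 : ∫ η, YS Γ η ∂(law μ) ≤ ∫ η, (1 + YS Γ η ^ 2) ∂(law μ) := by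
    refine integral_mono (int_ys hok) ((integrable_const _).add i2) fun η => ?_
    show YS Γ η ≤ 1 + YS Γ η ^ 2
    nlinarith [sq_nonneg (YS Γ η - 1 / 2)]
  have h4 : ∫ η, (1 + YS Γ η ^ 2) ∂(law μ) = 1 + ∫ η, YS Γ η ^ 2 ∂(law μ) := by
    rw [integral_add (integrable_const _) i2]
    simp
  have h5 : (n : ℝ) ^ (1 / 20 : ℝ) = (n : ℝ) ^ (1 / 40 : ℝ) * (n : ℝ) ^ (1 / 40 : ℝ) := by
    rw [← Real.rpow_add n0]
    norm_num
  rw [h5]
  nlinarith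

end

end Pool.Agent.W_7d29a1_C1.Cut67
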