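import Pool.Agent.W_7d29a1_C1.AsmR9

/-!
Both halves (MP_7d29a1_pr), attractor route: THE ASSEMBLY WITH A PARTNER MAP. (helper9)

The exchange at the scale `l` moves the box of the contact together with the contact: the pair `p` of contacts of the two
copies becomes the pair `ρ l p`. `PDi` = the data, for all pairs together; `leci9` = the comparison of two contexts.
-/

set_option autoImplicit false

namespace Pool.Agent.W_7d29a1_C1.H60

open MeasureTheory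

variable {Ω : Type*} [MeasurableSpace Ω] {P : Measure Ω} {ι ι' : Type*}

/-! ### Exchange with a partner map -/

section exchange

variable {Z : Type*} [MeasurableSpace Z] {Q : Measure Z} {κ : Type*}

/-- The combinatorial and measure theoretic part of the exchange. -/
structure Part (Q : Measure Z) (T : Finset κ) (m : ℕ) (ρ : ℕ → κ → κ) (σ : ℕ → κ → Z → Z) (A : ℕ → κ → Set Z) : Prop where
  mp : ∀ l < m, ∀ p ∈ T, MeasurePreserving (σ l p) Q Q
  mA : ∀ l < m, ∀ p ∈ T, MeasurableSet (A l p)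
  dj : ∀ p ∈ T, ∀ l < m, ∀ l' < m, l ≠ l' → Disjoint (A l p) (A l' p)
  rin : ∀ l < m, ∀ p ∈ T, (A l p).Nonempty → ρ l p ∈ T
  rr : ∀ l < m, ∀ p ∈ T, (A l p).Nonempty → ρ l (ρ l p) = p
  inv : ∀ l < m, ∀ p ∈ T, (A l p).Nonempty → ∀ z, z ∈ A l p ↔ σ l p z ∈ A l (ρ l p)

variable {T : Finset κ} {m : ℕ} {ρ : ℕ → κ → κ} {σ : ℕ → κ → Z → Z} {A : ℕ → κ → Set Z}

theorem Part.ne (h : Part Q T m ρ σ A) {l : ℕ} (hl : l < m) {p : κ} (hp : p ∈ T) (hA : (A l p).Nonempty) :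
    (A l (ρ l p)).Nonempty := by
  obtain ⟨z, hz⟩ := hA
  exact ⟨σ l p z, (h.inv l hl p hp ⟨z, hz⟩ z).1 hz⟩

/-- Change of variables. -/
theorem Part.cv (h : Part Q T m ρ σ A) {f : κ → Z → ℝ} (hf : ∀ p ∈ T, Integrable (f p) Q) {l : ℕ} (hl : l < m) {p : κ}
    (hp : p ∈ T) (hA : (A l p).Nonempty) :
    ∫ z in A l p, f (ρ l p) (σ l p z) ∂Q = ∫ z in A l (ρ l p), f (ρ l p) z ∂Q := by
  have hq := h.rin l hl p hp hA
  have m1 := h.mA l hl p hp
  have m2 := h.mA l hl _ hq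
  have hmp := h.mp l hl p hp
  rw [← integral_indicator m1, ← integral_indicator m2]
  have e1 : (A l p).indicator (fun z => f (ρ l p) (σ l p z)) = fun z => (A l (ρ l p)).indicator (f (ρ l p)) (σ l p z) := by
    funext z
    by_cases hz : z ∈ A l p
    · rw [Set.indicator_of_mem hz, Set.indicator_of_mem ((h.inv l hl p hp hA z).1 hz)]
    · rw [Set.indicator_of_notMem hz, Set.indicator_of_notMem fun hh => hz ((h.inv l hl p hp hA z).2 hh)]
  rw [e1]
  have := integral_map (μ := Q) hmp.measurable.aemeasurable (f := (A l (ρ l p)).indicator (f (ρ l p)))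
    (by rw [hmp.map_eq]; exact ((hf _ hq).indicator m2).aestronglyMeasurable)
  rw [hmp.map_eq] at this
  exact this.symm

open Classical in
/-- The sum over the pairs after the exchange. -/
theorem Part.sum_cv (h : Part Q T m ρ σ A) {f : κ → Z → ℝ} (hf : ∀ p ∈ T, Integrable (f p) Q) {l : ℕ} (hl : l < m) :
    ∑ p ∈ T, ∫ z in A l p, f (ρ l p) (σ l p z) ∂Q = ∑ p ∈ T, ∫ z in A l p, f p z ∂Q := by
  have e1 : ∀ F : κ → Z → ℝ, ∑ p ∈ T, ∫ z in A l p, F p z ∂Q = ∑ p ∈ T with (A l p).Nonempty, ∫ z in A l p, F p z ∂Q := by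
    intro F
    rw [Finset.sum_filter]
    refine Finset.sum_congr rfl fun p _ => ?_
    by_cases hA : (A l p).Nonempty
    · rw [if_pos hA]
    · rw [if_neg hA, Set.not_nonempty_iff_eq_empty.1 hA, Measure.restrict_empty, integral_zero_measure]
  rw [e1, e1 f]
  calc ∑ p ∈ T with (A l p).Nonempty, ∫ z in A l p, f (ρ l p) (σ l p z) ∂Q =
      ∑ p ∈ T with (A l p).Nonempty, ∫ z in A l (ρ l p), f (ρ l p) z ∂Q := by
        refine Finset.sum_congr rfl fun p hp => ?_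
        obtain ⟨hp1, hp2⟩ := Finset.mem_filter.1 hp
        exact h.cv hf hl hp1 hp2
    _ = _ := by
        refine Finset.sum_bij' (fun p _ => ρ l p) (fun p _ => ρ l p) ?_ ?_ ?_ ?_ ?_
        · intro p hp
          obtain ⟨hp1, hp2⟩ := Finset.mem_filter.1 hp
          exact Finset.mem_filter.2 ⟨h.rin l hl p hp1 hp2, h.ne hl hp1 hp2⟩
        · intro p hp
          obtain ⟨hp1, hp2⟩ := Finset.mem_filter.1 hp
          exact Finset.mem_filter.2 ⟨h.rin l hl p hp1 hp2, h.ne hl hp1 hp2⟩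
        · intro p hp
          obtain ⟨hp1, hp2⟩ := Finset.mem_filter.1 hp
          exact h.rr l hl p hp1 hp2
        · intro p hp
          obtain ⟨hp1, hp2⟩ := Finset.mem_filter.1 hp
          exact h.rr l hl p hp1 hp2
        · intro p hp
          rfl

/-- The sum over the scales and the pairs, before the exchange. -/
theorem Part.sumA (h : Part Q T m ρ σ A) {f : κ → Z → ℝ} (hf : ∀ p ∈ T, Integrable (f p) Q) (f0 : ∀ p ∈ T, ∀ z, 0 ≤ f p z) :
    ∑ l ∈ Finset.range m, ∑ p ∈ T, ∫ z in A l p, f p z ∂Q ≤ ∑ p ∈ T, ∫ z, f p z ∂Q := by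
  rw [Finset.sum_comm]
  refine Finset.sum_le_sum fun p hp => ?_
  have e1 : ∑ l ∈ Finset.range m, ∫ z in A l p, f p z ∂Q = ∫ z in ⋃ l ∈ Finset.range m, A l p, f p z ∂Q := by
    refine (integral_biUnion_finset _ (fun l hl => h.mA l (Finset.mem_range.1 hl) p hp) ?_ fun l _ =>
      (hf p hp).integrableOn).symm
    intro l hl l' hl' hne
    exact h.dj p hp l (Finset.mem_range.1 (Finset.mem_coe.1 hl)) l' (Finset.mem_range.1 (Finset.mem_coe.1 hl')) hne
  rw [e1]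
  exact setIntegral_le_integral (hf p hp) (Filter.Eventually.of_forall (f0 p hp))

/-- The sum over the scales and the pairs, after the exchange. -/
theorem Part.sumS (h : Part Q T m ρ σ A) {f : κ → Z → ℝ} (hf : ∀ p ∈ T, Integrable (f p) Q) (f0 : ∀ p ∈ T, ∀ z, 0 ≤ f p z) :
    ∑ l ∈ Finset.range m, ∑ p ∈ T, ∫ z in A l p, f (ρ l p) (σ l p z) ∂Q ≤ ∑ p ∈ T, ∫ z, f p z ∂Q := by
  rw [Finset.sum_congr rfl fun l hl => h.sum_cv hf (Finset.mem_range.1 hl)]
  exact h.sumA hf f0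

/-- **THE EXCHANGE WITH A PARTNER MAP.** -/
theorem Part.exch (h : Part Q T m ρ σ A) {H : κ → Z → ℝ} (hH : ∀ p ∈ T, Integrable (H p) Q) :
    |∑ p ∈ T, ∫ z, H p z ∂Q| ≤
      (1 / 2) * ∑ l ∈ Finset.range m, ∑ p ∈ T, ∫ z in A l p, |H p z + H (ρ l p) (σ l p z)| ∂Q +
        ∑ p ∈ T, ∫ z in (⋃ l ∈ Finset.range m, A l p)ᶜ, |H p z| ∂Q := by
  classical
  have mU : ∀ p ∈ T, MeasurableSet (⋃ l ∈ Finset.range m, A l p) := fun p hp =>
    Finset.measurableSet_biUnion _ fun l hl => h.mA l (Finset.mem_range.1 hl) p hp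
  have h1 : ∀ p ∈ T, ∫ z, H p z ∂Q = ∑ l ∈ Finset.range m, ∫ z in A l p, H p z ∂Q +
      ∫ z in (⋃ l ∈ Finset.range m, A l p)ᶜ, H p z ∂Q := by
    intro p hp
    rw [← integral_add_compl (mU p hp) (hH p hp)]
    congr 1
    refine integral_biUnion_finset _ (fun l hl => h.mA l (Finset.mem_range.1 hl) p hp) ?_ fun l _ => (hH p hp).integrableOn
    intro l hl l' hl' hne
    exact h.dj p hp l (Finset.mem_range.1 (Finset.mem_coe.1 hl)) l' (Finset.mem_range.1 (Finset.mem_coe.1 hl')) hne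
  have h2 : ∑ p ∈ T, ∫ z, H p z ∂Q = ∑ l ∈ Finset.range m, ∑ p ∈ T, ∫ z in A l p, H p z ∂Q +
      ∑ p ∈ T, ∫ z in (⋃ l ∈ Finset.range m, A l p)ᶜ, H p z ∂Q := by
    rw [Finset.sum_congr rfl h1, Finset.sum_add_distrib, Finset.sum_comm]
  have h3 : ∀ l ∈ Finset.range m, ∑ p ∈ T, ∫ z in A l p, H p z ∂Q =
      (1 / 2) * ∑ p ∈ T, ∫ z in A l p, (H p z + H (ρ l p) (σ l p z)) ∂Q := by
    intro l hl
    have hl' := Finset.mem_range.1 hl
    have e1 : ∑ p ∈ T, ∫ z in A l p, (H p z + H (ρ l p) (σ l p z)) ∂Q =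
        ∑ p ∈ T, ∫ z in A l p, H p z ∂Q + ∑ p ∈ T, ∫ z in A l p, H (ρ l p) (σ l p z) ∂Q := by
      rw [← Finset.sum_add_distrib]
      refine Finset.sum_congr rfl fun p hp => ?_
      by_cases hA : (A l p).Nonempty
      · exact integral_add (hH p hp).integrableOn
          ((h.mp l hl' p hp).integrable_comp_of_integrable (hH _ (h.rin l hl' p hp hA))).integrableOn
      · rw [Set.not_nonempty_iff_eq_empty.1 hA, Measure.restrict_empty, integral_zero_measure, integral_zero_measure,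
          integral_zero_measure, add_zero]
    rw [e1, h.sum_cv hH hl']
    ring
  rw [h2, Finset.sum_congr rfl h3, ← Finset.mul_sum]
  refine (abs_add_le _ _).trans (add_le_add ?_ ?_)
  · rw [abs_mul, abs_of_nonneg (by norm_num : (0 : ℝ) ≤ 1 / 2)]
    refine mul_le_mul_of_nonneg_left ?_ (by norm_num)
    refine (Finset.abs_sum_le_sum_abs _ _).trans (Finset.sum_le_sum fun l hl => ?_)
    exact (Finset.abs_sum_le_sum_abs _ _).trans (Finset.sum_le_sum fun p hp => abs_integral_le_integral_abs)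
  · exact (Finset.abs_sum_le_sum_abs _ _).trans (Finset.sum_le_sum fun p hp => abs_integral_le_integral_abs)

end exchange

/-! ### The data -/

/-- **THE EXCHANGE OF THE BOXES OF TWO COPIES**, all the pairs of contacts together. -/
structure PDi (P : Measure Ω) (B : Ω → ℝ) (S : Finset ι) (S' : Finset ι') (C w ws : ι → Ω → ℝ) (C' w' ws' : ι' → Ω → ℝ)
    (m : ℕ) (ρ : ℕ → ι × ι' → ι × ι') (σ : ℕ → ι × ι' → Ω × Ω → Ω × Ω) (A : ℕ → ι × ι' → Set (Ω × Ω)) (o t th : ℝ) :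
    Prop where
  pa : Part (P.prod P) (S ×ˢ S') m ρ σ A
  c1 : ∀ l < m, ∀ p ∈ S ×ˢ S', ∀ z ∈ A l p,
    |C (ρ l p).1 (σ l p z).1 - C' p.2 z.2| ≤ t + th * (ws (ρ l p).1 (σ l p z).1 + ws' p.2 z.2)
  c2 : ∀ l < m, ∀ p ∈ S ×ˢ S', ∀ z ∈ A l p,
    |C' (ρ l p).2 (σ l p z).2 - C p.1 z.1| ≤ t + th * (ws' (ρ l p).2 (σ l p z).2 + ws p.1 z.1)
  w1 : ∀ l < m, ∀ p ∈ S ×ˢ S', ∀ z ∈ A l p,
    |w (ρ l p).1 (σ l p z).1 - w' p.2 z.2| ≤ t + th * (w (ρ l p).1 (σ l p z).1 + w' p.2 z.2)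
  w2 : ∀ l < m, ∀ p ∈ S ×ˢ S', ∀ z ∈ A l p,
    |w' (ρ l p).2 (σ l p z).2 - w p.1 z.1| ≤ t + th * (w' (ρ l p).2 (σ l p z).2 + w p.1 z.1)
  b : ∀ l < m, ∀ p ∈ S ×ˢ S', ∀ z ∈ A l p, |B (σ l p z).1 - B z.1| ≤ o

section all

variable {S : Finset ι} {S' : Finset ι'} {C w ws R : ι → Ω → ℝ} {C' w' ws' R' : ι' → Ω → ℝ} {K X X' t t' : ℝ}

/-- **The antisymmetric function and its exchange.** -/
theorem abs_HH_addi9 (h : CD P S C w ws R K X t) (h' : CD P S' C' w' ws' R' K X' t') {g : ℝ → ℝ} {G L : ℝ}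
    (g0 : ∀ x, 0 ≤ g x) (gG : ∀ x, g x ≤ G) (gL : ∀ x y, |g x - g y| ≤ L * |x - y|) {B : Ω → ℝ}
    {m : ℕ} {ρ : ℕ → ι × ι' → ι × ι'} {σ : ℕ → ι × ι' → Ω × Ω → Ω × Ω} {A : ℕ → ι × ι' → Set (Ω × Ω)} {o τ th : ℝ}
    (τ0 : 0 ≤ τ) (th0 : 0 ≤ th) (th1 : th ≤ 1 / 2) (hP : PDi P B S S' C w ws C' w' ws' m ρ σ A o τ th)
    {l : ℕ} (hl : l < m) {p : ι × ι'} (hp : p ∈ S ×ˢ S') {z : Ω × Ω} (hz : z ∈ A l p) :
    |HH g B (C p.1) (w p.1) (C' p.2) (w' p.2) z +
        HH g B (C (ρ l p).1) (w (ρ l p).1) (C' (ρ l p).2) (w' (ρ l p).2) (σ l p z)| ≤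
      L * o * (K * pw (w p.1) (ws p.1) (w' p.2) (ws' p.2) z + (R p.1 z.1 + R' p.2 z.2)) +
        G * (τ * (2 + (ws' p.2 z.2 + 2 * |C' p.2 z.2|) + (ws' (ρ l p).2 (σ l p z).2 + 2 * |C' (ρ l p).2 (σ l p z).2|)) +
          th * (((3 + 4 * K) * pw (w p.1) (ws p.1) (w' p.2) (ws' p.2) z + 4 * R' p.2 z.2) +
            ((3 + 4 * K) * pw (w (ρ l p).1) (ws (ρ l p).1) (w' (ρ l p).2) (ws' (ρ l p).2) (σ l p z) +
              4 * R' (ρ l p).2 (σ l p z).2))) := by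
  have L0 : 0 ≤ L := by
    have h1 := gL 1 0
    have h2 := abs_nonneg (g 1 - g 0)
    simp only [sub_zero, abs_one, mul_one] at h1
    linarith
  have G0 : 0 ≤ G := (g0 0).trans (gG 0)
  obtain ⟨hc, hc'⟩ := Finset.mem_product.1 hp
  have hq := hP.pa.rin l hl p hp ⟨z, hz⟩
  obtain ⟨hd, hd'⟩ := Finset.mem_product.1 hq
  have k5 := hP.b l hl p hp z hz
  have o0 : 0 ≤ o := (abs_nonneg _).trans k5
  -- the first part
  have a1 := h.bC p.1 hc z.1
  have a2 := h'.bC p.2 hc' z.2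
  have b1 := h.w0 p.1 hc z.1
  have b2 := h'.w0 p.2 hc' z.2
  have b3 := h.w1 hc z.1
  have b4 := h'.w1 hc' z.2
  have r1 := h.R0 p.1 hc z.1
  have r2 := h'.R0 p.2 hc' z.2
  have e1 : |C p.1 z.1 * w' p.2 z.2 - w p.1 z.1 * C' p.2 z.2| ≤
      K * pw (w p.1) (ws p.1) (w' p.2) (ws' p.2) z + (R p.1 z.1 + R' p.2 z.2) := by
    refine (abs_sub _ _).trans ?_
    rw [abs_mul, abs_mul, abs_of_nonneg b1, abs_of_nonneg b2]
    have e2 : |C p.1 z.1| * w' p.2 z.2 ≤ (K * ws p.1 z.1 + R p.1 z.1) * w' p.2 z.2 := mul_le_mul_of_nonneg_right a1 b2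
    have e3 : w p.1 z.1 * |C' p.2 z.2| ≤ w p.1 z.1 * (K * ws' p.2 z.2 + R' p.2 z.2) := mul_le_mul_of_nonneg_left a2 b1
    have e4 : R p.1 z.1 * w' p.2 z.2 ≤ R p.1 z.1 := mul_le_of_le_one_right r1 b4
    have e5 : w p.1 z.1 * R' p.2 z.2 ≤ R' p.2 z.2 := mul_le_of_le_one_left r2 b3
    unfold pw
    nlinarith
  have g1 : |g (B z.1) - g (B (σ l p z).1)| ≤ L * o := by
    refine (gL _ _).trans (mul_le_mul_of_nonneg_left ?_ L0)
    rw [abs_sub_comm]
    exact k5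
  -- the second part
  have e7 := cross9 (C1 := C p.1 z.1) (C2 := C' p.2 z.2) (D1 := C (ρ l p).1 (σ l p z).1) (D2 := C' (ρ l p).2 (σ l p z).2)
    (w1 := w p.1 z.1) (w2 := w' p.2 z.2) (v1 := w (ρ l p).1 (σ l p z).1) (v2 := w' (ρ l p).2 (σ l p z).2)
    (s1 := ws p.1 z.1) (s2 := ws' p.2 z.2) (r1 := ws (ρ l p).1 (σ l p z).1) (r2 := ws' (ρ l p).2 (σ l p z).2)
    (R2 := R' p.2 z.2) (Q2 := R' (ρ l p).2 (σ l p z).2) h.K0 τ0 th0 th1
    b1 b2 b3 b4 (h.ws0 _ hc _) (h'.ws0 _ hc' _) (h.w0 _ hd _) (h'.w0 _ hd' _) (h.w1 hd _) (h'.w1 hd' _) (h.ws0 _ hd _)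
    (h'.ws0 _ hd' _) r2 (h'.R0 _ hd' _) a2 (h'.bC _ hd' _) (hP.c1 l hl p hp z hz) (hP.c2 l hl p hp z hz)
    (hP.w1 l hl p hp z hz) (hP.w2 l hl p hp z hz)
  have e8 : HH g B (C p.1) (w p.1) (C' p.2) (w' p.2) z +
        HH g B (C (ρ l p).1) (w (ρ l p).1) (C' (ρ l p).2) (w' (ρ l p).2) (σ l p z) =
      (g (B z.1) - g (B (σ l p z).1)) * (C p.1 z.1 * w' p.2 z.2 - w p.1 z.1 * C' p.2 z.2) +
        g (B (σ l p z).1) * ((C (ρ l p).1 (σ l p z).1 * w' (ρ l p).2 (σ l p z).2 -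
          w (ρ l p).1 (σ l p z).1 * C' (ρ l p).2 (σ l p z).2) +
          (C p.1 z.1 * w' p.2 z.2 - w p.1 z.1 * C' p.2 z.2)) := by
    unfold HH
    ring
  rw [e8]
  refine (abs_add_le _ _).trans (add_le_add ?_ ?_)
  · rw [abs_mul]
    exact mul_le_mul g1 e1 (abs_nonneg _) (by positivity)
  · rw [abs_mul, abs_of_nonneg (g0 _)]
    refine mul_le_mul (gG _) (e7.trans (le_of_eq ?_)) (abs_nonneg _) G0
    unfold pw
    ring

/-- The left side as one sum over the pairs. -/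
theorem lhs9 [IsProbabilityMeasure P] (h : CD P S C w ws R K X t) (h' : CD P S' C' w' ws' R' K X' t') {g : ℝ → ℝ} {G : ℝ}
    (hg : Measurable g) (g0 : ∀ x, 0 ≤ g x) (gG : ∀ x, g x ≤ G) {B : Ω → ℝ} (hB : Measurable B) :
    (∑ c ∈ S, ∫ ω, g (B ω) * C c ω ∂P) * (∑ c' ∈ S', ∫ ω, w' c' ω ∂P) -
        (∑ c ∈ S, ∫ ω, g (B ω) * w c ω ∂P) * (∑ c' ∈ S', ∫ ω, C' c' ω ∂P) =
      ∑ p ∈ S ×ˢ S', ∫ z, HH g B (C p.1) (w p.1) (C' p.2) (w' p.2) z ∂(P.prod P) := by
  have igC : ∀ c ∈ S, Integrable (fun ω => g (B ω) * C c ω) P := by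
    intro c hc
    refine (h.iC hc).bdd_mul (c := G) (hg.comp hB).aestronglyMeasurable (Filter.Eventually.of_forall fun ω => ?_)
    rw [Real.norm_eq_abs, abs_of_nonneg (g0 _)]
    exact gG _
  have igw : ∀ c ∈ S, Integrable (fun ω => g (B ω) * w c ω) P := by
    intro c hc
    refine (h.iw hc).bdd_mul (c := G) (hg.comp hB).aestronglyMeasurable (Filter.Eventually.of_forall fun ω => ?_)
    rw [Real.norm_eq_abs, abs_of_nonneg (g0 _)]
    exact gG _
  have e1 : ∀ c ∈ S, ∀ c' ∈ S', ∫ z, HH g B (C c) (w c) (C' c') (w' c') z ∂(P.prod P) =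
      (∫ ω, g (B ω) * C c ω ∂P) * (∫ ω, w' c' ω ∂P) - (∫ ω, g (B ω) * w c ω ∂P) * ∫ ω, C' c' ω ∂P := by
    intro c hc c' hc'
    have e : ∀ z : Ω × Ω, HH g B (C c) (w c) (C' c') (w' c') z =
        (g (B z.1) * C c z.1) * w' c' z.2 - (g (B z.1) * w c z.1) * C' c' z.2 := by
      intro z
      unfold HH
      ring
    have p1 : ∫ z : Ω × Ω, (g (B z.1) * C c z.1) * w' c' z.2 ∂(P.prod P) =
        (∫ ω, g (B ω) * C c ω ∂P) * ∫ ω, w' c' ω ∂P :=
      integral_prod_mul (fun ω => g (B ω) * C c ω) (w' c')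
    have p2 : ∫ z : Ω × Ω, (g (B z.1) * w c z.1) * C' c' z.2 ∂(P.prod P) =
        (∫ ω, g (B ω) * w c ω ∂P) * ∫ ω, C' c' ω ∂P :=
      integral_prod_mul (fun ω => g (B ω) * w c ω) (C' c')
    rw [integral_congr_ae (Filter.Eventually.of_forall e),
      integral_sub ((igC c hc).mul_prod (h'.iw hc')) ((igw c hc).mul_prod (h'.iC hc')), p1, p2]
  rw [Finset.sum_product, Finset.sum_congr rfl fun c hc => Finset.sum_congr rfl fun c' hc' => e1 c hc c' hc']
  simp only [Finset.sum_sub_distrib, ← Finset.mul_sum, ← Finset.sum_mul]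

/-- The size of the contact functionals, all together. -/
theorem CD.sumC [IsProbabilityMeasure P] (h : CD P S C w ws R K X t) : ∑ c ∈ S, ∫ ω, |C c ω| ∂P ≤ K * X + t := by
  calc ∑ c ∈ S, ∫ ω, |C c ω| ∂P ≤ ∑ c ∈ S, (K * ∫ ω, ws c ω ∂P + ∫ ω, R c ω ∂P) := by
        refine Finset.sum_le_sum fun c hc => ?_
        calc ∫ ω, |C c ω| ∂P ≤ ∫ ω, (K * ws c ω + R c ω) ∂P :=
              integral_mono (h.iC hc).abs (((h.iws c hc).const_mul K).add (h.iR c hc)) (h.bC c hc)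
          _ = K * ∫ ω, ws c ω ∂P + ∫ ω, R c ω ∂P := by
              rw [integral_add ((h.iws c hc).const_mul K) (h.iR c hc), integral_const_mul]
    _ = K * (∑ c ∈ S, ∫ ω, ws c ω ∂P) + ∑ c ∈ S, ∫ ω, R c ω ∂P := by
        rw [Finset.sum_add_distrib, Finset.mul_sum]
    _ ≤ K * X + t := add_le_add (mul_le_mul_of_nonneg_left h.tX h.K0) h.tR

/-- **THE RATIO DOES NOT DEPEND ON THE CONTEXT, exchange of boxes.** -/
theorem leci9 [IsProbabilityMeasure P] (h : CD P S C w ws R K X t) (h' : CD P S' C' w' ws' R' K X' t') {g : ℝ → ℝ} {G L : ℝ}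
    (hg : Measurable g) (g0 : ∀ x, 0 ≤ g x) (gG : ∀ x, g x ≤ G) (gL : ∀ x y, |g x - g y| ≤ L * |x - y|) {B : Ω → ℝ}
    (hB : Measurable B) {m : ℕ} {ρ : ℕ → ι × ι' → ι × ι'} {σ : ℕ → ι × ι' → Ω × Ω → Ω × Ω} {A : ℕ → ι × ι' → Set (Ω × Ω)}
    {o τ th : ℝ} (o0 : 0 ≤ o) (τ0 : 0 ≤ τ) (th0 : 0 ≤ th) (th1 : th ≤ 1 / 2)
    (hP : PDi P B S S' C w ws C' w' ws' m ρ σ A o τ th) {N2 : ℝ}
    (hN2 : ∑ c ∈ S, ∑ c' ∈ S', ∫ z in (⋃ i ∈ Finset.range m, A i (c, c'))ᶜ, pw (w c) (ws c) (w' c') (ws' c') z ∂(P.prod P) ≤ N2) :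
    |(∑ c ∈ S, ∫ ω, g (B ω) * C c ω ∂P) * (∑ c' ∈ S', ∫ ω, w' c' ω ∂P) -
        (∑ c ∈ S, ∫ ω, g (B ω) * w c ω ∂P) * (∑ c' ∈ S', ∫ ω, C' c' ω ∂P)| ≤
      L * o * (K * (X + X') + (S'.card * t + S.card * t')) +
      G * (τ * (2 * (S.card * S'.card) + 2 * (S.card * (X' + 2 * (K * X' + t'))))) +
      G * (th * (2 * ((3 + 4 * K) * (X + X') + 4 * (S.card * t')))) +
      G * (K * N2 + (S'.card * t + S.card * t')) := by
  classical
  have L0 : 0 ≤ L := by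
    have h1 := gL 1 0
    have h2 := abs_nonneg (g 1 - g 0)
    simp only [sub_zero, abs_one, mul_one] at h1
    linarith
  have G0 : 0 ≤ G := (g0 0).trans (gG 0)
  have K0 := h.K0
  rw [lhs9 h h' hg g0 gG hB]
  -- integrability
  have mem : ∀ p ∈ S ×ˢ S', p.1 ∈ S ∧ p.2 ∈ S' := fun p hp => Finset.mem_product.1 hp
  set H : ι × ι' → Ω × Ω → ℝ := fun p => HH g B (C p.1) (w p.1) (C' p.2) (w' p.2) with hH
  set q : ι × ι' → Ω × Ω → ℝ := fun p => pw (w p.1) (ws p.1) (w' p.2) (ws' p.2) with hq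
  set r : ι × ι' → Ω × Ω → ℝ := fun p z => R p.1 z.1 + R' p.2 z.2 with hr
  set a : ι × ι' → Ω × Ω → ℝ := fun p z => ws' p.2 z.2 + 2 * |C' p.2 z.2| with ha
  set b : ι × ι' → Ω × Ω → ℝ := fun p z => (3 + 4 * K) * q p z + 4 * R' p.2 z.2 with hb
  have iH : ∀ p ∈ S ×ˢ S', Integrable (H p) (P.prod P) := fun p hp =>
    int_HH h h' hg g0 gG hB (mem p hp).1 (mem p hp).2
  have iq : ∀ p ∈ S ×ˢ S', Integrable (q p) (P.prod P) := fun p hp => int_pw h h' (mem p hp).1 (mem p hp).2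
  have ir : ∀ p ∈ S ×ˢ S', Integrable (r p) (P.prod P) := fun p hp => int_RR h h' (mem p hp).1 (mem p hp).2
  have iR' : ∀ p ∈ S ×ˢ S', Integrable (fun z : Ω × Ω => R' p.2 z.2) (P.prod P) := fun p hp =>
    (h'.iR p.2 (mem p hp).2).comp_snd P
  have iws : ∀ p ∈ S ×ˢ S', Integrable (fun z : Ω × Ω => ws' p.2 z.2) (P.prod P) := fun p hp =>
    (h'.iws p.2 (mem p hp).2).comp_snd P
  have iC : ∀ p ∈ S ×ˢ S', Integrable (fun z : Ω × Ω => |C' p.2 z.2|) (P.prod P) := fun p hp =>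
    ((h'.iC (mem p hp).2).abs).comp_snd P
  have ia : ∀ p ∈ S ×ˢ S', Integrable (a p) (P.prod P) := fun p hp => (iws p hp).add ((iC p hp).const_mul 2)
  have ib : ∀ p ∈ S ×ˢ S', Integrable (b p) (P.prod P) := fun p hp => ((iq p hp).const_mul _).add ((iR' p hp).const_mul 4)
  have q0 : ∀ p ∈ S ×ˢ S', ∀ z, 0 ≤ q p z := fun p hp => pw_nonneg h h' (mem p hp).1 (mem p hp).2
  have r0 : ∀ p ∈ S ×ˢ S', ∀ z, 0 ≤ r p z := fun p hp z =>
    add_nonneg (h.R0 p.1 (mem p hp).1 z.1) (h'.R0 p.2 (mem p hp).2 z.2)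
  have a0 : ∀ p ∈ S ×ˢ S', ∀ z, 0 ≤ a p z := fun p hp z =>
    add_nonneg (h'.ws0 p.2 (mem p hp).2 z.2) (mul_nonneg (by norm_num) (abs_nonneg _))
  have b0 : ∀ p ∈ S ×ˢ S', ∀ z, 0 ≤ b p z := fun p hp z =>
    add_nonneg (mul_nonneg (by positivity) (q0 p hp z)) (mul_nonneg (by norm_num) (h'.R0 p.2 (mem p hp).2 z.2))
  -- the sums
  have sq : ∑ p ∈ S ×ˢ S', ∫ z, q p z ∂(P.prod P) ≤ X + X' := by
    rw [Finset.sum_product]
    exact sum_pw_le h h'
  have er : ∀ p ∈ S ×ˢ S', ∫ z, r p z ∂(P.prod P) = ∫ ω, R p.1 ω ∂P + ∫ ω, R' p.2 ω ∂P := by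
    intro p hp
    have e1 : ∫ z, r p z ∂(P.prod P) = ∫ z : Ω × Ω, R p.1 z.1 ∂(P.prod P) + ∫ z : Ω × Ω, R' p.2 z.2 ∂(P.prod P) :=
      integral_add ((h.iR p.1 (mem p hp).1).comp_fst P) (iR' p hp)
    rw [e1]
    congr 1
    · have := integral_fun_fst (μ := P) (ν := P) (fun ω => R p.1 ω)
      simpa using this
    · have := integral_fun_snd (μ := P) (ν := P) (fun ω => R' p.2 ω)
      simpa using this
  have sr : ∑ p ∈ S ×ˢ S', ∫ z, r p z ∂(P.prod P) ≤ S'.card * t + S.card * t' := by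
    rw [Finset.sum_congr rfl er, Finset.sum_product]
    exact sum_RR_le h h'
  have snd : ∀ f : ι' → Ω → ℝ, ∀ p : ι × ι', ∫ z : Ω × Ω, f p.2 z.2 ∂(P.prod P) = ∫ ω, f p.2 ω ∂P := by
    intro f p
    have := integral_fun_snd (μ := P) (ν := P) (fun ω => f p.2 ω)
    simpa using this
  have sa : ∑ p ∈ S ×ˢ S', ∫ z, a p z ∂(P.prod P) ≤ S.card * (X' + 2 * (K * X' + t')) := by
    have e1 : ∀ p ∈ S ×ˢ S', ∫ z, a p z ∂(P.prod P) = ∫ ω, ws' p.2 ω ∂P + 2 * ∫ ω, |C' p.2 ω| ∂P := by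
      intro p hp
      have e2 : ∫ z, a p z ∂(P.prod P) = ∫ z : Ω × Ω, ws' p.2 z.2 ∂(P.prod P) + ∫ z : Ω × Ω, 2 * |C' p.2 z.2| ∂(P.prod P) :=
        integral_add (iws p hp) ((iC p hp).const_mul 2)
      rw [e2, integral_const_mul, snd (fun c => ws' c) p, snd (fun c ω => |C' c ω|) p]
    rw [Finset.sum_congr rfl e1, Finset.sum_product]
    simp only [Finset.sum_add_distrib, ← Finset.mul_sum, Finset.sum_const, nsmul_eq_mul]
    rw [show (S.card : ℝ) * ∑ c ∈ S', ∫ ω, ws' c ω ∂P + 2 * ((S.card : ℝ) * ∑ c ∈ S', ∫ ω, |C' c ω| ∂P) =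
      S.card * (∑ c ∈ S', ∫ ω, ws' c ω ∂P + 2 * ∑ c ∈ S', ∫ ω, |C' c ω| ∂P) by ring]
    have u1 := h'.tX
    have u2 := h'.sumC
    gcongr
  have sb : ∑ p ∈ S ×ˢ S', ∫ z, b p z ∂(P.prod P) ≤ (3 + 4 * K) * (X + X') + 4 * (S.card * t') := by
    have e1 : ∀ p ∈ S ×ˢ S', ∫ z, b p z ∂(P.prod P) = (3 + 4 * K) * ∫ z, q p z ∂(P.prod P) + 4 * ∫ ω, R' p.2 ω ∂P := by
      intro p hp
      have e2 : ∫ z, b p z ∂(P.prod P) =
          ∫ z : Ω × Ω, (3 + 4 * K) * q p z ∂(P.prod P) + ∫ z : Ω × Ω, 4 * R' p.2 z.2 ∂(P.prod P) :=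
        integral_add ((iq p hp).const_mul _) ((iR' p hp).const_mul 4)
      rw [e2, integral_const_mul, integral_const_mul, snd (fun c => R' c) p]
    rw [Finset.sum_congr rfl e1, Finset.sum_add_distrib, ← Finset.mul_sum, ← Finset.mul_sum]
    refine add_le_add (mul_le_mul_of_nonneg_left sq (by positivity)) (mul_le_mul_of_nonneg_left ?_ (by norm_num))
    rw [Finset.sum_product]
    simp only [Finset.sum_const, nsmul_eq_mul]
    exact mul_le_mul_of_nonneg_left h'.tR (Nat.cast_nonneg _)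
  -- the successes
  have key := hP.pa.exch iH
  have k1 : ∑ l ∈ Finset.range m, ∑ p ∈ S ×ˢ S', ∫ z in A l p, |H p z + H (ρ l p) (σ l p z)| ∂(P.prod P) ≤
      L * o * (K * (X + X') + (S'.card * t + S.card * t')) +
      G * (τ * (2 * (S.card * S'.card) + 2 * (S.card * (X' + 2 * (K * X' + t'))))) +
      G * (th * (2 * ((3 + 4 * K) * (X + X') + 4 * (S.card * t')))) := by
    have s1 : ∀ l ∈ Finset.range m, ∀ p ∈ S ×ˢ S', ∫ z in A l p, |H p z + H (ρ l p) (σ l p z)| ∂(P.prod P) ≤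
        ∫ z in A l p, L * o * (K * q p z + r p z) ∂(P.prod P) +
          G * (τ * (∫ z in A l p, (2 + a p z) ∂(P.prod P) + ∫ z in A l p, a (ρ l p) (σ l p z) ∂(P.prod P))) +
          G * (th * (∫ z in A l p, b p z ∂(P.prod P) + ∫ z in A l p, b (ρ l p) (σ l p z) ∂(P.prod P))) := by
      intro l hl p hp
      have hl' := Finset.mem_range.1 hl
      by_cases hA : (A l p).Nonempty
      · have hρ := hP.pa.rin l hl' p hp hA
        have hmp := hP.pa.mp l hl' p hp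
        have j1 : Integrable (fun z => L * o * (K * q p z + r p z)) (P.prod P) :=
          (((iq p hp).const_mul K).add (ir p hp)).const_mul (L * o)
        have j2 : Integrable (fun z => 2 + a p z) (P.prod P) := (integrable_const (2 : ℝ)).add (ia p hp)
        have j3 : Integrable (fun z => a (ρ l p) (σ l p z)) (P.prod P) := hmp.integrable_comp_of_integrable (ia _ hρ)
        have j4 : Integrable (fun z => b (ρ l p) (σ l p z)) (P.prod P) := hmp.integrable_comp_of_integrable (ib _ hρ)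
        have j5 : Integrable (fun z => H (ρ l p) (σ l p z)) (P.prod P) := hmp.integrable_comp_of_integrable (iH _ hρ)
        have j6 : Integrable (fun z => G * (τ * ((2 + a p z) + a (ρ l p) (σ l p z)))) (P.prod P) :=
          ((j2.add j3).const_mul τ).const_mul G
        have j7 : Integrable (fun z => G * (th * (b p z + b (ρ l p) (σ l p z)))) (P.prod P) :=
          (((ib p hp).add j4).const_mul th).const_mul G
        have j8 : Integrable (fun z => L * o * (K * q p z + r p z) + G * (τ * ((2 + a p z) + a (ρ l p) (σ l p z))))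
          (P.prod P) := j1.add j6
        calc ∫ z in A l p, |H p z + H (ρ l p) (σ l p z)| ∂(P.prod P)
            ≤ ∫ z in A l p, ((L * o * (K * q p z + r p z) + G * (τ * ((2 + a p z) + a (ρ l p) (σ l p z)))) +
                G * (th * (b p z + b (ρ l p) (σ l p z)))) ∂(P.prod P) := by
              refine setIntegral_mono_on ((iH p hp).add j5).abs.integrableOn (j8.add j7).integrableOn
                (hP.pa.mA l hl' p hp) fun z hz => ?_
              refine (abs_HH_addi9 h h' g0 gG gL τ0 th0 th1 hP hl' hp hz).trans (le_of_eq ?_)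
              simp only [ha, hb, hq, hr]
              ring
          _ = _ := by
              rw [integral_add j8.integrableOn j7.integrableOn, integral_add j1.integrableOn j6.integrableOn,
                integral_const_mul G, integral_const_mul τ, integral_const_mul G, integral_const_mul th,
                integral_add j2.integrableOn j3.integrableOn, integral_add (ib p hp).integrableOn j4.integrableOn]
      · rw [Set.not_nonempty_iff_eq_empty.1 hA]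
        simp only [Measure.restrict_empty, integral_zero_measure, add_zero, mul_zero, le_refl]
    refine (Finset.sum_le_sum fun l hl => Finset.sum_le_sum fun p hp => s1 l hl p hp).trans ?_
    simp only [Finset.sum_add_distrib, ← Finset.mul_sum]
    have t1 : ∑ l ∈ Finset.range m, ∑ p ∈ S ×ˢ S', ∫ z in A l p, L * o * (K * q p z + r p z) ∂(P.prod P) ≤
        L * o * (K * (X + X') + (S'.card * t + S.card * t')) := by
      refine (hP.pa.sumA (f := fun p z => L * o * (K * q p z + r p z))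
        (fun p hp => (((iq p hp).const_mul K).add (ir p hp)).const_mul (L * o)) fun p hp z => ?_).trans ?_
      · have := q0 p hp z
        have := r0 p hp z
        positivity
      · have e1 : ∀ p ∈ S ×ˢ S', ∫ z, L * o * (K * q p z + r p z) ∂(P.prod P) =
            L * o * (K * ∫ z, q p z ∂(P.prod P) + ∫ z, r p z ∂(P.prod P)) := by
          intro p hp
          rw [integral_const_mul, integral_add ((iq p hp).const_mul K) (ir p hp), integral_const_mul]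
        rw [Finset.sum_congr rfl e1, ← Finset.mul_sum, Finset.sum_add_distrib, ← Finset.mul_sum]
        gcongr
    have t2 : ∑ l ∈ Finset.range m, ∑ p ∈ S ×ˢ S', ∫ z in A l p, (2 + a p z) ∂(P.prod P) ≤
        2 * (S.card * S'.card) + S.card * (X' + 2 * (K * X' + t')) := by
      refine (hP.pa.sumA (f := fun p z => 2 + a p z) (fun p hp => (integrable_const (2 : ℝ)).add (ia p hp))
        fun p hp z => by have := a0 p hp z; positivity).trans ?_
      have e1 : ∀ p ∈ S ×ˢ S', ∫ z, (2 + a p z) ∂(P.prod P) = 2 + ∫ z, a p z ∂(P.prod P) := by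
        intro p hp
        rw [integral_add (integrable_const _) (ia p hp)]
        simp
      rw [Finset.sum_congr rfl e1, Finset.sum_add_distrib, Finset.sum_const, nsmul_eq_mul, Finset.card_product, Nat.cast_mul]
      linarith
    have t3 := hP.pa.sumS ia a0
    have t4 := hP.pa.sumA ib b0
    have t5 := hP.pa.sumS ib b0
    have v1 : τ * (∑ l ∈ Finset.range m, ∑ p ∈ S ×ˢ S', ∫ z in A l p, (2 + a p z) ∂(P.prod P) +
        ∑ l ∈ Finset.range m, ∑ p ∈ S ×ˢ S', ∫ z in A l p, a (ρ l p) (σ l p z) ∂(P.prod P)) ≤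
        τ * (2 * (S.card * S'.card) + 2 * (S.card * (X' + 2 * (K * X' + t')))) :=
      mul_le_mul_of_nonneg_left (by linarith) τ0
    have v2 : th * (∑ l ∈ Finset.range m, ∑ p ∈ S ×ˢ S', ∫ z in A l p, b p z ∂(P.prod P) +
        ∑ l ∈ Finset.range m, ∑ p ∈ S ×ˢ S', ∫ z in A l p, b (ρ l p) (σ l p z) ∂(P.prod P)) ≤
        th * (2 * ((3 + 4 * K) * (X + X') + 4 * (S.card * t'))) :=
      mul_le_mul_of_nonneg_left (by linarith) th0
    exact add_le_add (add_le_add t1 (mul_le_mul_of_nonneg_left v1 G0)) (mul_le_mul_of_nonneg_left v2 G0)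
  -- no success
  have k3 : ∑ p ∈ S ×ˢ S', ∫ z in (⋃ l ∈ Finset.range m, A l p)ᶜ, |H p z| ∂(P.prod P) ≤
      G * (K * N2 + (S'.card * t + S.card * t')) := by
    have s1 : ∀ p ∈ S ×ˢ S', ∫ z in (⋃ l ∈ Finset.range m, A l p)ᶜ, |H p z| ∂(P.prod P) ≤
        G * (K * (∫ z in (⋃ l ∈ Finset.range m, A l p)ᶜ, q p z ∂(P.prod P)) + ∫ z, r p z ∂(P.prod P)) := by
      intro p hp
      have mU : MeasurableSet (⋃ l ∈ Finset.range m, A l p)ᶜ :=
        (Finset.measurableSet_biUnion _ fun l hl => hP.pa.mA l (Finset.mem_range.1 hl) p hp).compl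
      calc ∫ z in (⋃ l ∈ Finset.range m, A l p)ᶜ, |H p z| ∂(P.prod P)
          ≤ ∫ z in (⋃ l ∈ Finset.range m, A l p)ᶜ, G * (K * q p z + r p z) ∂(P.prod P) := by
            refine setIntegral_mono_on (iH p hp).abs.integrableOn
              ((((iq p hp).const_mul K).add (ir p hp)).const_mul G).integrableOn mU fun z _ => ?_
            exact abs_HH_le h h' g0 gG B (mem p hp).1 (mem p hp).2 z
        _ = G * (K * (∫ z in (⋃ l ∈ Finset.range m, A l p)ᶜ, q p z ∂(P.prod P)) +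
            ∫ z in (⋃ l ∈ Finset.range m, A l p)ᶜ, r p z ∂(P.prod P)) := by
            rw [integral_const_mul, integral_add ((iq p hp).const_mul K).integrableOn (ir p hp).integrableOn,
              integral_const_mul]
        _ ≤ _ := by
            refine mul_le_mul_of_nonneg_left (add_le_add le_rfl ?_) G0
            exact setIntegral_le_integral (ir p hp) (Filter.Eventually.of_forall (r0 p hp))
    refine (Finset.sum_le_sum s1).trans ?_
    rw [← Finset.mul_sum, Finset.sum_add_distrib, ← Finset.mul_sum]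
    have s2 : ∑ p ∈ S ×ˢ S', ∫ z in (⋃ l ∈ Finset.range m, A l p)ᶜ, q p z ∂(P.prod P) ≤ N2 := by
      rw [Finset.sum_product]
      exact hN2
    exact mul_le_mul_of_nonneg_left (add_le_add (mul_le_mul_of_nonneg_left s2 K0) sr) G0
  have z0 : 0 ≤ ∑ l ∈ Finset.range m, ∑ p ∈ S ×ˢ S', ∫ z in A l p, |H p z + H (ρ l p) (σ l p z)| ∂(P.prod P) :=
    Finset.sum_nonneg fun l _ => Finset.sum_nonneg fun p _ => integral_nonneg fun z => abs_nonneg _
  calc |∑ p ∈ S ×ˢ S', ∫ z, H p z ∂(P.prod P)| ≤ _ := key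
    _ ≤ ∑ l ∈ Finset.range m, ∑ p ∈ S ×ˢ S', ∫ z in A l p, |H p z + H (ρ l p) (σ l p z)| ∂(P.prod P) +
        ∑ p ∈ S ×ˢ S', ∫ z in (⋃ l ∈ Finset.range m, A l p)ᶜ, |H p z| ∂(P.prod P) := by linarith
    _ ≤ _ := add_le_add k1 k3

end all

end Pool.Agent.W_7d29a1_C1.H60
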