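import Pool.Agent.W_7d29a1_C1.AsmG9
import Pool.Agent.W_7d29a1_C1.AsmQ68

/-!
MP_7d29a1_pr, attractor route (helper8): from the exchange of the boxes of two copies, the natural weights without success and a global
good event (`PdiP8`) to the result of the exchange (`LecP68`).
-/

set_option autoImplicit false

namespace Pool.Agent.W_7d29a1_C1.H8

open MeasureTheory ProbabilityTheory Set Finset Filter Topology
open Pool.Agent.W_7d29a1_F Pool.Agent.W_7d29a1_h4g Pool.Agent.W_7d29a1_H Pool.Agent.W_7d29a1_HS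
open Pool.Agent.W_7d29a1_h47 (EM)
open Pool.Agent.W_7d29a1_C1.H60
open scoped ENNReal NNReal

noncomputable section

/-! ### Two contexts -/

/-- **THE EXCHANGE FOR TWO CONTEXTS** with the accuracy `q`: natural weights `w`, `w'` of the sites `T`, `T'`; total functionals `Φ`,
`Φ'` with the bounds `Sb`, `Sb'`. `S`, `S'`: finite sets of sites which contain `T`, `T'`; all weights are `0` elsewhere. -/
def Exch8 {Ω ι ι' : Type*} [MeasurableSpace Ω] (P : Measure Ω) (B : Ω → ℝ) (T : Finset ι) (T' : Finset ι') (w : ι → Ω → ℝ)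
    (w' : ι' → Ω → ℝ) (Φ Sb Φ' Sb' : Ω → ℝ) (H E q : ℝ) : Prop :=
  ∃ (S : Finset ι) (S' : Finset ι') (m : ℕ) (ρ : ℕ → ι × ι' → ι × ι') (σ : ℕ → ι × ι' → Ω × Ω → Ω × Ω)
    (A : ℕ → ι × ι' → Set (Ω × Ω)) (Gd : Set (Ω × Ω)) (o τ th : ℝ),
    (T ⊆ S ∧ ∀ b ∈ S, b ∉ T → ∀ η, w b η = 0) ∧ (T' ⊆ S' ∧ ∀ b ∈ S', b ∉ T' → ∀ η, w' b η = 0) ∧
    (∀ b ∈ S, Measurable (w b)) ∧ (∀ b ∈ S', Measurable (w' b)) ∧
    (0 ≤ o ∧ o ≤ q * E) ∧ (0 ≤ τ ∧ τ * ((S.card + 1) * (S'.card + 1)) ≤ q) ∧ (0 ≤ th ∧ th ≤ 1 / 2 ∧ th ≤ q) ∧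
    MeasurableSet Gd ∧ H * m * (S.card * S'.card) * (P.prod P).real Gdᶜ ≤ q ∧
    Part (P.prod P) (S ×ˢ S') m ρ σ A ∧
    PDi P B S S' (fun b η => w b η * clp H (Φ η)) w (fun b η => w b η * (1 + Sb η))
      (fun b η => w' b η * clp H (Φ' η)) w' (fun b η => w' b η * (1 + Sb' η)) m ρ σ (Ag σ A Gd) o τ th ∧
    ∑ c ∈ S, ∑ c' ∈ S', ∫ z in (⋃ i ∈ Finset.range m, A i (c, c'))ᶜ, w c z.1 * w' c' z.2 ∂(P.prod P) ≤ q

section two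

variable {Ω ι ι' : Type*} [MeasurableSpace Ω] {P : Measure Ω} [IsProbabilityMeasure P] {B : Ω → ℝ} {T : Finset ι} {T' : Finset ι'}
  {w : ι → Ω → ℝ} {w' : ι' → Ω → ℝ} {Φ Sb Φ' Sb' : Ω → ℝ} {H E q : ℝ}

omit [IsProbabilityMeasure P] in
theorem nd_ext8 (h : ND P T w Φ Sb) {S : Finset ι} (h1 : T ⊆ S) (h2 : ∀ b ∈ S, b ∉ T → ∀ η, w b η = 0)
    (hm : ∀ b ∈ S, Measurable (w b)) : ND P S w Φ Sb where
  mw := hm
  w0 := fun b hb η => by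
    by_cases hT : b ∈ T
    · exact h.w0 b hT η
    · rw [h2 b hb hT η]
  sw := fun η => by
    rw [← Finset.sum_subset h1 fun b hb hb' => h2 b hb hb' η]
    exact h.sw η
  mΦ := h.mΦ
  mS := h.mS
  le := h.le
  iS := h.iS
  iS2 := h.iS2

/-- **THE RESULT OF THE EXCHANGE FOR TWO CONTEXTS.** -/
theorem exch8 (h : ND P T w Φ Sb) (h' : ND P T' w' Φ' Sb') (hB : Measurable B) {g : ℝ → ℝ} {G L : ℝ} (hg : Measurable g)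
    (g0 : ∀ x, 0 ≤ g x) (gG : ∀ x, g x ≤ G) (gL : ∀ x y, |g x - g y| ≤ L * |x - y|) {K : ℝ} (hK : 0 < K) (hH : 0 ≤ H) (hE : 0 ≤ E)
    (hX : Exch8 P B T T' w w' Φ Sb Φ' Sb' H E q) :
    |(∑ b ∈ T, ∫ ω, g (B ω) * (w b ω * clp H (Φ ω)) ∂P) * (∑ b' ∈ T', ∫ ω, w' b' ω ∂P) -
        (∑ b ∈ T, ∫ ω, g (B ω) * w b ω ∂P) * (∑ b' ∈ T', ∫ ω, w' b' ω * clp H (Φ' ω) ∂P)| ≤
      (L * E + 26 * G) * q * (2 + ∫ ω, Sb ω ∂P + ∫ ω, Sb' ω ∂P) +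
        G * ((2 + 2 * K) * q + (∫ ω, Sb ω ^ 2 ∂P + ∫ ω, Sb' ω ^ 2 ∂P) / K) := by
  obtain ⟨S, S', m, ρ, σ, A, Gd, o, τ, th, ⟨s1, s2⟩, ⟨s1', s2'⟩, mw, mw', ⟨o0, oq⟩, ⟨τ0, τq⟩, ⟨th0, th1, thq⟩, mG, hbad, hA, hP, hN⟩ := hX
  have L0 : 0 ≤ L := by
    have h1 := gL 1 0
    have h2 := abs_nonneg (g 1 - g 0)
    simp only [sub_zero, abs_one, mul_one] at h1
    linarith
  have G0 : 0 ≤ G := (g0 0).trans (gG 0)
  have n1 := nd_ext8 h s1 s2 mw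
  have n2 := nd_ext8 h' s1' s2' mw'
  have d1 := cd_phi n1 hH
  have d2 := cd_phi n2 hH
  classical
  obtain ⟨U, hU⟩ : ∃ U : ι → ι' → Set (Ω × Ω), U = fun b b' =>
    if b ∈ S ∧ b' ∈ S' then (⋃ i ∈ Finset.range m, A i (b, b'))ᶜ else ∅ := ⟨_, rfl⟩
  have mU : ∀ b b', MeasurableSet (U b b') := by
    intro b b'
    rw [hU]
    show MeasurableSet (if b ∈ S ∧ b' ∈ S' then (⋃ i ∈ Finset.range m, A i (b, b'))ᶜ else ∅)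
    split_ifs with hb
    · exact (Finset.measurableSet_biUnion _ fun l hl => hA.mA l (Finset.mem_range.1 hl) (b, b') (Finset.mem_product.2 hb)).compl
    · exact MeasurableSet.empty
  have eU : ∀ b ∈ S, ∀ b' ∈ S', U b b' = (⋃ i ∈ Finset.range m, A i (b, b'))ᶜ := fun b hb b' hb' => by
    rw [hU]
    show (if b ∈ S ∧ b' ∈ S' then (⋃ i ∈ Finset.range m, A i (b, b'))ᶜ else ∅) = _
    rw [if_pos ⟨hb, hb'⟩]
  have hN2 := N2_phi n1 n2 mU hK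
  have e1 : ∑ b ∈ S, ∑ b' ∈ S', ∫ z in U b b', pw (w b) (fun ω => w b ω * (1 + Sb ω)) (w' b') (fun ω => w' b' ω * (1 + Sb' ω)) z
        ∂(P.prod P) =
      ∑ b ∈ S, ∑ b' ∈ S', ∫ z in (⋃ i ∈ Finset.range m, A i (b, b'))ᶜ,
        pw (w b) (fun ω => w b ω * (1 + Sb ω)) (w' b') (fun ω => w' b' ω * (1 + Sb' ω)) z ∂(P.prod P) :=
    Finset.sum_congr rfl fun b hb => Finset.sum_congr rfl fun b' hb' => by rw [eU b hb b' hb']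
  have e2 : ∑ b ∈ S, ∑ b' ∈ S', ∫ z in U b b', w b z.1 * w' b' z.2 ∂(P.prod P) =
      ∑ b ∈ S, ∑ b' ∈ S', ∫ z in (⋃ i ∈ Finset.range m, A i (b, b'))ᶜ, w b z.1 * w' b' z.2 ∂(P.prod P) :=
    Finset.sum_congr rfl fun b hb => Finset.sum_congr rfl fun b' hb' => by rw [eU b hb b' hb']
  rw [e1, e2] at hN2
  have q0 : 0 ≤ q := th0.trans thq
  have hC : ∀ c ∈ S, ∀ ω, |w c ω * clp H (Φ ω)| ≤ H := fun c hc ω => by
    rw [abs_mul, abs_of_nonneg (n1.w0 c hc ω)]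
    calc w c ω * |clp H (Φ ω)| ≤ 1 * H := mul_le_mul (n1.w1 hc ω) (abs_clp_le hH _) (abs_nonneg _) zero_le_one
      _ = H := one_mul H
  have hC' : ∀ c ∈ S', ∀ ω, |w' c ω * clp H (Φ' ω)| ≤ H := fun c hc ω => by
    rw [abs_mul, abs_of_nonneg (n2.w0 c hc ω)]
    calc w' c ω * |clp H (Φ' ω)| ≤ 1 * H := mul_le_mul (n2.w1 hc ω) (abs_clp_le hH _) (abs_nonneg _) zero_le_one
      _ = H := one_mul H
  have key := lecg9 d1 d2 hg g0 gG gL hB o0 τ0 th0 th1 mG hA hP hC hC' hN2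
  -- the sums over `T`
  have t1 : ∑ b ∈ T, ∫ ω, g (B ω) * (w b ω * clp H (Φ ω)) ∂P = ∑ b ∈ S, ∫ ω, g (B ω) * (w b ω * clp H (Φ ω)) ∂P :=
    Finset.sum_subset s1 fun b hb hb' => by simp [s2 b hb hb']
  have t2 : ∑ b ∈ T, ∫ ω, g (B ω) * w b ω ∂P = ∑ b ∈ S, ∫ ω, g (B ω) * w b ω ∂P :=
    Finset.sum_subset s1 fun b hb hb' => by simp [s2 b hb hb']
  have t3 : ∑ b ∈ T', ∫ ω, w' b ω ∂P = ∑ b ∈ S', ∫ ω, w' b ω ∂P :=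
    Finset.sum_subset s1' fun b hb hb' => by simp [s2' b hb hb']
  have t4 : ∑ b ∈ T', ∫ ω, w' b ω * clp H (Φ' ω) ∂P = ∑ b ∈ S', ∫ ω, w' b ω * clp H (Φ' ω) ∂P :=
    Finset.sum_subset s1' fun b hb hb' => by simp [s2' b hb hb']
  rw [t1, t2, t3, t4]
  refine key.trans ?_
  -- the numbers
  obtain ⟨Y, hY⟩ : ∃ Y : ℝ, Y = ∫ ω, Sb ω ∂P := ⟨_, rfl⟩
  obtain ⟨Y', hY'⟩ : ∃ Y' : ℝ, Y' = ∫ ω, Sb' ω ∂P := ⟨_, rfl⟩
  obtain ⟨Q, hQ⟩ : ∃ Q : ℝ, Q = (∫ ω, Sb ω ^ 2 ∂P + ∫ ω, Sb' ω ^ 2 ∂P) / K := ⟨_, rfl⟩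
  obtain ⟨N, hNd⟩ : ∃ N : ℝ, N = ∑ b ∈ S, ∑ b' ∈ S', ∫ z in (⋃ i ∈ Finset.range m, A i (b, b'))ᶜ, w b z.1 * w' b' z.2 ∂(P.prod P) :=
    ⟨_, rfl⟩
  obtain ⟨bd, hbd⟩ : ∃ bd : ℝ, bd = (P.prod P).real Gdᶜ := ⟨_, rfl⟩
  rw [← hbd] at hbad
  rw [← hNd] at hN
  rw [← hY, ← hY', ← hQ, ← hNd, ← hbd]
  have Y0 : 0 ≤ Y := hY ▸ integral_nonneg fun ω => h.S0 ω
  have Y0' : 0 ≤ Y' := hY' ▸ integral_nonneg fun ω => h'.S0 ω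
  obtain ⟨a, ha⟩ : ∃ a : ℝ, a = (S.card : ℝ) := ⟨_, rfl⟩
  obtain ⟨a', ha'⟩ : ∃ a' : ℝ, a' = (S'.card : ℝ) := ⟨_, rfl⟩
  rw [← ha, ← ha'] at τq hbad
  rw [← ha, ← ha']
  have a0 : 0 ≤ a := ha ▸ Nat.cast_nonneg _
  have a0' : 0 ≤ a' := ha' ▸ Nat.cast_nonneg _
  have u1 : L * o * (1 * ((1 + Y) + (1 + Y')) + (a' * 0 + a * 0)) ≤ L * E * q * (2 + Y + Y') := by
    have h1 : L * o ≤ L * (q * E) := mul_le_mul_of_nonneg_left oq L0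
    have h2 : 0 ≤ 2 + Y + Y' := by linarith
    calc L * o * (1 * ((1 + Y) + (1 + Y')) + (a' * 0 + a * 0)) = L * o * (2 + Y + Y') := by ring
      _ ≤ L * (q * E) * (2 + Y + Y') := mul_le_mul_of_nonneg_right h1 h2
      _ = L * E * q * (2 + Y + Y') := by ring
  have v1 : τ * (2 * (a * a') + 2 * (a * ((1 + Y') + 2 * (1 * (1 + Y') + 0)))) ≤ 8 * q * (2 + Y + Y') := by
    have h1 : a * a' ≤ (a + 1) * (a' + 1) := by nlinarith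
    have h2 : a ≤ (a + 1) * (a' + 1) := by nlinarith
    have h3 : τ * (a * a') ≤ q := (mul_le_mul_of_nonneg_left h1 τ0).trans τq
    have h4 : τ * a ≤ q := (mul_le_mul_of_nonneg_left h2 τ0).trans τq
    have h5 : τ * a * (1 + Y') ≤ q * (1 + Y') := mul_le_mul_of_nonneg_right h4 (by linarith)
    have h6 : τ * (2 * (a * a') + 2 * (a * ((1 + Y') + 2 * (1 * (1 + Y') + 0)))) = 2 * (τ * (a * a')) + 6 * (τ * a * (1 + Y')) := by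
      ring
    rw [h6]
    have h7 : 0 ≤ q * Y := mul_nonneg q0 Y0
    have h8 : 0 ≤ q * Y' := mul_nonneg q0 Y0'
    nlinarith
  have v2 : th * (2 * ((3 + 4 * 1) * ((1 + Y) + (1 + Y')) + 4 * (a * 0))) ≤ 14 * q * (2 + Y + Y') := by
    have h2 : 0 ≤ 2 + Y + Y' := by linarith
    calc th * (2 * ((3 + 4 * 1) * ((1 + Y) + (1 + Y')) + 4 * (a * 0))) = 14 * th * (2 + Y + Y') := by ring
      _ ≤ 14 * q * (2 + Y + Y') := mul_le_mul_of_nonneg_right (by linarith) h2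
  have v3 : 1 * ((2 + 2 * K) * N + Q) + (a' * 0 + a * 0) ≤ (2 + 2 * K) * q + Q := by
    have h1 : (2 + 2 * K) * N ≤ (2 + 2 * K) * q := mul_le_mul_of_nonneg_left hN (by linarith)
    linarith
  have v4 : 4 * G * H * m * (a * a') * bd ≤ G * (4 * q * (2 + Y + Y')) := by
    have h1 : 4 * G * H * m * (a * a') * bd = G * (4 * (H * m * (a * a') * bd)) := by ring
    rw [h1]
    refine mul_le_mul_of_nonneg_left ?_ G0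
    have h7 : 0 ≤ q * Y := mul_nonneg q0 Y0
    have h8 : 0 ≤ q * Y' := mul_nonneg q0 Y0'
    nlinarith
  have w1 := mul_le_mul_of_nonneg_left v1 G0
  have w2 := mul_le_mul_of_nonneg_left v2 G0
  have w3 := mul_le_mul_of_nonneg_left v3 G0
  have fin : L * E * q * (2 + Y + Y') + G * (8 * q * (2 + Y + Y')) + G * (14 * q * (2 + Y + Y')) + G * ((2 + 2 * K) * q + Q) +
      G * (4 * q * (2 + Y + Y')) = (L * E + 26 * G) * q * (2 + Y + Y') + G * ((2 + 2 * K) * q + Q) := by ring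
  rw [← fin]
  exact add_le_add (add_le_add (add_le_add (add_le_add u1 w1) w2) w3) v4

end two

/-! ### All contexts -/

/-- **THE EXCHANGE**: for all contexts of the scale `n` against the reference context, accuracy `n ^ (- c₀)`. -/
def PdiG8 (μ : Measure ℝ) (s : ℝ) (Ψ Sg : Cx → Env → ℝ) : Prop :=
  ∀ e : ℝ, 0 < e → e ≤ 1 / 32 → ∃ c₀ : ℝ, 0 < c₀ ∧ ∀ c : ℝ, 0 < c → c ≤ c₀ → ∀ δ : ℝ, 0 < δ → δ ≤ c / 16 → ∃ κ₀ : ℝ, 0 < κ₀ ∧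
    ∀ κ : ℝ, 0 < κ → κ ≤ κ₀ → ∀ᶠ n : ℕ in atTop, ∃ (H : ℝ) (d : ℕ) (k : Cx → ℕ), (n : ℝ) ≤ H ∧ d ≤ ⌈(n : ℝ) ^ e⌉₊ ∧
      (∀ Γ : Cx, Adm μ s c δ κ n Γ → d ≤ k Γ ∧ k Γ ≤ Γ.N ∧ Γ.M + Γ.N ≤ 2 * k Γ) ∧ ∀ Γ : Cx, Adm μ s c δ κ n Γ →
        Exch8 (law μ) Γ.B (Γ.rows d (k Γ)) ((ref μ s n).rows d (k (ref μ s n))) Γ.w (ref μ s n).w (Ψ Γ) (Sg Γ)
          (Ψ (ref μ s n)) (Sg (ref μ s n)) H (EE μ s n) ((n : ℝ) ^ (-c₀))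

variable {μ : Measure ℝ} [IsProbabilityMeasure μ] {s : ℝ}

/-- **From the exchange to its result.** -/
theorem lecG8 {c₁ C : ℝ} {n₀ : ℕ} (h : In μ s c₁ C n₀) (hw1 : ∀ᶠ n : ℕ in atTop, 1 ≤ wd μ s n) {Ψ Sg : Cx → Env → ℝ}
    (hT : TF μ Ψ Sg) (hP : PdiG8 μ s Ψ Sg) : LecQ μ s Ψ Sg := by
  have hμ := h.em
  intro e he he1
  obtain ⟨a, ha, hP⟩ := hP e he he1
  refine ⟨a / 2, by positivity, fun c hc hca δ hδ hδc => ?_⟩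
  obtain ⟨κ₀, hκ₀, hP⟩ := hP c hc (by linarith) δ hδ hδc
  refine ⟨κ₀, hκ₀, fun κ hκ hκκ => ?_⟩
  have hbig : ∀ᶠ n : ℕ in atTop, (26 : ℝ) ≤ (n : ℝ) ^ (a / 2) :=
    ((tendsto_rpow_atTop (by linarith : (0 : ℝ) < a / 2)).comp tendsto_natCast_atTop_atTop).eventually_ge_atTop 26
  have hbig2 : ∀ᶠ n : ℕ in atTop, (2 : ℝ) ≤ (n : ℝ) ^ δ :=
    ((tendsto_rpow_atTop hδ).comp tendsto_natCast_atTop_atTop).eventually_ge_atTop 2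
  filter_upwards [hP κ hκ hκκ, hbig, hbig2, hw1, eventually_ge_atTop 1] with n hn hbig hbig2 hw hn1
  obtain ⟨H, d, k, hH, hd, hk, hX⟩ := hn
  refine ⟨H, d, k, hH, hd, hk, fun Γ hA g G L hg g0 gG gL K hK hKn => ?_⟩
  have hnR : (1 : ℝ) ≤ n := by exact_mod_cast hn1
  have n0 : (0 : ℝ) < n := by linarith
  have hR : Adm μ s c δ κ n (ref μ s n) := ref_adm hn1 hc.le hw hbig2
  have hG := hA.ok
  have hG' := hR.ok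
  obtain ⟨hk1, hk2, hk3⟩ := hk Γ hA
  obtain ⟨hk1', hk2', hk3'⟩ := hk _ hR
  have E0 : 0 < EE μ s n := zero_lt_one.trans_le (Pool.Agent.W_7d29a1_H.one_le_EE (μ := μ) (s := s) n)
  have key := exch8 (hT.nd hG hk2) (hT.nd hG' hk2') Γ.meas_B hg g0 gG gL hK (by linarith) E0.le (hX Γ hA)
  refine key.trans ?_
  have L0 : 0 ≤ L := by
    have h1 := gL 1 0
    have h2 := abs_nonneg (g 1 - g 0)
    simp only [sub_zero, abs_one, mul_one] at h1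
    linarith
  have G0 : 0 ≤ G := (g0 0).trans (gG 0)
  have p0 : 0 < (n : ℝ) ^ (-a) := Real.rpow_pos_of_pos n0 _
  have q0 : 0 < (n : ℝ) ^ (-(a / 2)) := Real.rpow_pos_of_pos n0 _
  have e1 : 26 * (n : ℝ) ^ (-a) ≤ (n : ℝ) ^ (-(a / 2)) := by
    calc 26 * (n : ℝ) ^ (-a) ≤ (n : ℝ) ^ (a / 2) * (n : ℝ) ^ (-a) := mul_le_mul_of_nonneg_right hbig p0.le
      _ = (n : ℝ) ^ (-(a / 2)) := by
        rw [← Real.rpow_add n0]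
        congr 1
        ring
  have e2 : (n : ℝ) ^ (-a) ≤ (n : ℝ) ^ (-(a / 2)) := by linarith
  obtain ⟨Y, hY⟩ : ∃ Y : ℝ, Y = 2 + ∫ η, Sg Γ η ∂(law μ) + ∫ η, Sg (ref μ s n) η ∂(law μ) := ⟨_, rfl⟩
  have Y0 : 0 ≤ Y := by
    have h1 : 0 ≤ ∫ η, Sg Γ η ∂(law μ) := integral_nonneg fun η => (abs_nonneg _).trans (hT.le Γ hG η)
    have h2 : 0 ≤ ∫ η, Sg (ref μ s n) η ∂(law μ) := integral_nonneg fun η => (abs_nonneg _).trans (hT.le _ hG' η)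
    rw [hY]
    linarith
  rw [← hY]
  have f1 : (L * EE μ s n + 26 * G) * (n : ℝ) ^ (-a) ≤ (L * EE μ s n + G) * (n : ℝ) ^ (-(a / 2)) := by
    have h1 : L * EE μ s n * (n : ℝ) ^ (-a) ≤ L * EE μ s n * (n : ℝ) ^ (-(a / 2)) :=
      mul_le_mul_of_nonneg_left e2 (mul_nonneg L0 E0.le)
    have h2 : G * (26 * (n : ℝ) ^ (-a)) ≤ G * (n : ℝ) ^ (-(a / 2)) := mul_le_mul_of_nonneg_left e1 G0
    nlinarith
  have f2 := mul_le_mul_of_nonneg_right f1 Y0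
  have f3 : (2 + 2 * K) * (n : ℝ) ^ (-a) ≤ (2 + 2 * K) * (n : ℝ) ^ (-(a / 2)) := mul_le_mul_of_nonneg_left e2 (by linarith)
  exact add_le_add f2 (mul_le_mul_of_nonneg_left (add_le_add f3 le_rfl) G0)

/-- **THE EXCHANGE** for the sum of all contact functionals. -/
def PdiP8 (μ : Measure ℝ) (s : ℝ) : Prop := PdiG8 μ s (fun Γ => Γ.Phi 0 Γ.N) (fun Γ => Γ.SS 0 Γ.N)

theorem lec8 {c₁ C : ℝ} {n₀ : ℕ} (h : In μ s c₁ C n₀) (hw1 : ∀ᶠ n : ℕ in atTop, 1 ≤ wd μ s n) (hP : PdiP8 μ s) : LecP68 μ s :=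
  lecG8 h hw1 (tf68 h.em) hP

end

end Pool.Agent.W_7d29a1_C1.H8
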