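import Pool.Agent.W_7d29a1_C1.Ex9

/-!
Both halves (MP_7d29a1_pr), attractor route: FROM UNDAMAGED WINDOWS TO A JOINT SUCCESS. (helper54)

Blocks `0, .., m-1`, a larger index is further outside; `R i η ω` = the environment `ω` with the block `i` taken from `η`.

* `D i` = the window outside the block `i` is wide: does not see the blocks `≤ i`;
* `S i` = the block `i` is a funnel and the window behind it contains every normal inside: does not see the blocks `< i`;
* `X i` = the block `i` or the inside is abnormal: off `X i` the sets `X j`, `j > i`, do not see the block `i`;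
* `W` = any weight; if the outside window is wide, the weight of `normal, success` is at least `c` times the weight of
  `normal, no success`, up to `e`, everything but the block `i` being fixed.

Then `E [W; no normal success, #D ≥ #X + r] ≤ (1 + c)^(-r) (E W + m (1 + c)^m e)`. No counting, no invariance of the
windows under a success further outside (it makes them wider), and the abnormal blocks cost nothing.
-/

set_option autoImplicit false

namespace Pool.Agent.W_7d29a1_C1.H54

open MeasureTheory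
open scoped ENNReal

variable {Ω : Type*} [MeasurableSpace Ω] {P : Measure Ω}

/-- The data of the chain. -/
structure ChData (P : Measure Ω) (m : ℕ) (R : ℕ → Ω → Ω → Ω) (D S X : ℕ → Set Ω) (W : Ω → ℝ≥0∞) (c e : ℝ≥0∞) :
    Prop where
  mp : ∀ i < m, MeasurePreserving (fun w : Ω × Ω => R i w.1 w.2) (P.prod P) P
  mD : ∀ i < m, MeasurableSet (D i)
  mS : ∀ i < m, MeasurableSet (S i)
  mX : ∀ i < m, MeasurableSet (X i)
  mW : Measurable W
  /-- the outside window does not see the inner blocks -/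
  bD : ∀ i < m, ∀ j < m, i ≤ j → ∀ η ω, R i η ω ∈ D j ↔ ω ∈ D j
  /-- the success does not see the blocks inside -/
  bS : ∀ i < m, ∀ j < m, i < j → ∀ η ω, R i η ω ∈ S j ↔ ω ∈ S j
  /-- off `X i` the abnormality further outside does not see the block `i` -/
  bX : ∀ i < m, ∀ j < m, i < j → ∀ η η' ω, R i η ω ∉ X i → R i η' ω ∉ X i → (R i η ω ∈ X j ↔ R i η' ω ∈ X j)
  /-- the comparison at one block, everything else fixed -/
  cmp : ∀ i < m, ∀ ω ∈ D i, c * ∫⁻ η in {η | R i η ω ∉ X i ∧ R i η ω ∉ S i}, W (R i η ω) ∂P ≤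
    ∫⁻ η in {η | R i η ω ∉ X i ∧ R i η ω ∈ S i}, W (R i η ω) ∂P + e

open Classical in
/-- The factor of the block `i`. -/
noncomputable def ff (D S X : ℕ → Set Ω) (c : ℝ≥0∞) (i : ℕ) (ω : Ω) : ℝ≥0∞ :=
  (if ω ∈ S i ∧ ω ∉ X i then 0 else 1) * ((if ω ∈ D i then 1 + c else 1) * (if ω ∈ X i then (1 + c)⁻¹ else 1))

theorem meas_ff {D S X : ℕ → Set Ω} {c : ℝ≥0∞} {i : ℕ} (hD : MeasurableSet (D i)) (hS : MeasurableSet (S i))
    (hX : MeasurableSet (X i)) : Measurable (ff D S X c i) := by
  classical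
  unfold ff
  refine Measurable.mul (Measurable.ite (hS.inter hX.compl) measurable_const measurable_const) ?_
  exact Measurable.mul (Measurable.ite hD measurable_const measurable_const)
    (Measurable.ite hX measurable_const measurable_const)

omit [MeasurableSpace Ω] in
theorem ff_le {D S X : ℕ → Set Ω} {c : ℝ≥0∞} (i : ℕ) (ω : Ω) : ff D S X c i ω ≤ 1 + c := by
  classical
  unfold ff
  have h1 : (if ω ∈ S i ∧ ω ∉ X i then (0 : ℝ≥0∞) else 1) ≤ 1 := by split_ifs <;> simp
  have h2 : (if ω ∈ D i then 1 + c else 1) ≤ 1 + c := by split_ifs <;> simp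
  have h3 : (if ω ∈ X i then (1 + c)⁻¹ else 1) ≤ 1 := by
    split_ifs
    · exact ENNReal.inv_le_one.2 le_self_add
    · exact le_rfl
  calc _ ≤ 1 * ((1 + c) * 1) := by gcongr
    _ = 1 + c := by rw [one_mul, mul_one]

/-- The product of the factors of the blocks `i, .., m-1`. -/
noncomputable def GG (D S X : ℕ → Set Ω) (c : ℝ≥0∞) (m i : ℕ) (ω : Ω) : ℝ≥0∞ := ∏ j ∈ Finset.Ico i m, ff D S X c j ω

namespace ChData

variable {m : ℕ} {R : ℕ → Ω → Ω → Ω} {D S X : ℕ → Set Ω} {W : Ω → ℝ≥0∞} {c e : ℝ≥0∞}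

theorem meas_GG (h : ChData P m R D S X W c e) (i : ℕ) : Measurable (GG D S X c m i) := by
  unfold GG
  refine Finset.measurable_prod _ fun j hj => ?_
  have hj' := (Finset.mem_Ico.1 hj).2
  exact meas_ff (h.mD j hj') (h.mS j hj') (h.mX j hj')

omit [MeasurableSpace Ω] in
theorem GG_le (D S X : ℕ → Set Ω) (c : ℝ≥0∞) (m i : ℕ) (ω : Ω) : GG D S X c m i ω ≤ (1 + c) ^ m := by
  unfold GG
  calc ∏ j ∈ Finset.Ico i m, ff D S X c j ω ≤ ∏ _j ∈ Finset.Ico i m, (1 + c) :=
        Finset.prod_le_prod' fun j _ => ff_le j ω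
    _ = (1 + c) ^ (m - i) := by rw [Finset.prod_const, Nat.card_Ico]
    _ ≤ (1 + c) ^ m := pow_le_pow_right₀ le_self_add (Nat.sub_le m i)

/-- Off `X i` the factors further outside do not see the block `i`. -/
theorem GG_blind (h : ChData P m R D S X W c e) {i : ℕ} (hi : i < m) (η η' ω : Ω) (h1 : R i η ω ∉ X i)
    (h2 : R i η' ω ∉ X i) : GG D S X c m (i + 1) (R i η ω) = GG D S X c m (i + 1) (R i η' ω) := by
  classical
  unfold GG
  refine Finset.prod_congr rfl fun j hj => ?_
  obtain ⟨hj1, hj2⟩ := Finset.mem_Ico.1 hj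
  have hij : i < j := hj1
  have a1 : R i η ω ∈ D j ↔ R i η' ω ∈ D j := (h.bD i hi j hj2 hij.le η ω).trans (h.bD i hi j hj2 hij.le η' ω).symm
  have a2 : R i η ω ∈ S j ↔ R i η' ω ∈ S j := (h.bS i hi j hj2 hij η ω).trans (h.bS i hi j hj2 hij η' ω).symm
  have a3 := h.bX i hi j hj2 hij η η' ω h1 h2
  unfold ff
  simp only [a1, a2, a3]

/-- **One block.** -/
theorem one [IsProbabilityMeasure P] (h : ChData P m R D S X W c e) {i : ℕ} (hi : i < m) :
    ∫⁻ ω, W ω * GG D S X c m i ω ∂P ≤ ∫⁻ ω, W ω * GG D S X c m (i + 1) ω ∂P + (1 + c) ^ m * e := by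
  classical
  have hmp := h.mp i hi
  have hmR : Measurable (fun w : Ω × Ω => R i w.1 w.2) := hmp.measurable
  have conv : ∀ F : Ω → ℝ≥0∞, Measurable F → ∫⁻ ω, F ω ∂P = ∫⁻ ω, ∫⁻ η, F (R i η ω) ∂P ∂P := by
    intro F hF
    rw [← hmp.lintegral_comp hF]
    exact lintegral_prod_symm' (fun w : Ω × Ω => F (R i w.1 w.2)) (hF.comp hmR)
  have hRω : ∀ ω, Measurable fun η => R i η ω := fun ω => hmR.comp (measurable_id.prodMk measurable_const)
  have mG := h.meas_GG (i + 1)
  have mG0 := h.meas_GG i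
  have mf : Measurable (ff D S X c i) := meas_ff (h.mD i hi) (h.mS i hi) (h.mX i hi)
  have eG : ∀ ω, GG D S X c m i ω = ff D S X c i ω * GG D S X c m (i + 1) ω := by
    intro ω
    unfold GG
    rw [Finset.prod_eq_prod_Ico_succ_bot hi]
  rw [conv (fun ω => W ω * GG D S X c m i ω) (h.mW.mul mG0),
    conv (fun ω => W ω * GG D S X c m (i + 1) ω) (h.mW.mul mG)]
  -- everything but the block `i` fixed
  have key : ∀ ω, ∫⁻ η, W (R i η ω) * GG D S X c m i (R i η ω) ∂P ≤
      ∫⁻ η, W (R i η ω) * GG D S X c m (i + 1) (R i η ω) ∂P + (1 + c) ^ m * e := by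
    intro ω
    have mV : Measurable fun η => W (R i η ω) := h.mW.comp (hRω ω)
    have mGη : Measurable fun η => GG D S X c m (i + 1) (R i η ω) := mG.comp (hRω ω)
    have mA : MeasurableSet {η | R i η ω ∉ X i} := (hRω ω) (h.mX i hi).compl
    have mB : MeasurableSet {η | R i η ω ∉ X i ∧ R i η ω ∉ S i} :=
      ((hRω ω) (h.mX i hi).compl).inter ((hRω ω) (h.mS i hi).compl)
    have mB' : MeasurableSet {η | R i η ω ∉ X i ∧ R i η ω ∈ S i} :=
      ((hRω ω) (h.mX i hi).compl).inter ((hRω ω) (h.mS i hi))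
    by_cases hne : ∃ η0, R i η0 ω ∉ X i ∧ ω ∈ D i
    · obtain ⟨η0, hη0, hD⟩ := hne
      set a : ℝ≥0∞ := GG D S X c m (i + 1) (R i η0 ω) with ha
      have hGa : ∀ η, R i η ω ∉ X i → GG D S X c m (i + 1) (R i η ω) = a := fun η hη => h.GG_blind hi η η0 ω hη hη0
      have ha1 : a ≤ (1 + c) ^ m := GG_le D S X c m (i + 1) _
      have hDη : ∀ η, R i η ω ∈ D i := fun η => (h.bD i hi i hi le_rfl η ω).2 hD
      have eA : {η | R i η ω ∉ X i} = {η | R i η ω ∉ X i ∧ R i η ω ∉ S i} ∪ {η | R i η ω ∉ X i ∧ R i η ω ∈ S i} := by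
        ext η
        simp only [Set.mem_ofPred_eq, Set.mem_union]
        tauto
      have hdis : Disjoint {η | R i η ω ∉ X i ∧ R i η ω ∉ S i} {η | R i η ω ∉ X i ∧ R i η ω ∈ S i} := by
        rw [Set.disjoint_left]
        rintro η ⟨_, h1⟩ ⟨_, h2⟩
        exact h1 h2
      -- the left side
      have l1 : ∫⁻ η in {η | R i η ω ∉ X i ∧ R i η ω ∉ S i}, W (R i η ω) * GG D S X c m i (R i η ω) ∂P =
          a * (∫⁻ η in {η | R i η ω ∉ X i ∧ R i η ω ∉ S i}, W (R i η ω) ∂P +
            c * ∫⁻ η in {η | R i η ω ∉ X i ∧ R i η ω ∉ S i}, W (R i η ω) ∂P) := by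
        have : ∀ η ∈ {η | R i η ω ∉ X i ∧ R i η ω ∉ S i},
            W (R i η ω) * GG D S X c m i (R i η ω) = (a * (1 + c)) * W (R i η ω) := by
          rintro η ⟨h1, h2⟩
          rw [eG, hGa η h1]
          have : ff D S X c i (R i η ω) = 1 + c := by
            unfold ff
            rw [if_neg (fun hh => h2 hh.1), if_pos (hDη η), if_neg h1, one_mul, mul_one]
          rw [this]
          ring
        rw [setLIntegral_congr_fun mB this, lintegral_const_mul _ mV]
        ring
      have l2 : ∫⁻ η in {η | R i η ω ∉ X i ∧ R i η ω ∈ S i}, W (R i η ω) * GG D S X c m i (R i η ω) ∂P = 0 := by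
        have : ∀ η ∈ {η | R i η ω ∉ X i ∧ R i η ω ∈ S i},
            W (R i η ω) * GG D S X c m i (R i η ω) = 0 := by
          rintro η ⟨h1, h2⟩
          rw [eG]
          have : ff D S X c i (R i η ω) = 0 := by
            unfold ff
            rw [if_pos ⟨h2, h1⟩, zero_mul]
          rw [this, zero_mul, mul_zero]
        rw [setLIntegral_congr_fun mB' this, lintegral_zero]
      have l3 : ∫⁻ η in {η | R i η ω ∉ X i}ᶜ, W (R i η ω) * GG D S X c m i (R i η ω) ∂P ≤
          ∫⁻ η in {η | R i η ω ∉ X i}ᶜ, W (R i η ω) * GG D S X c m (i + 1) (R i η ω) ∂P := by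
        refine setLIntegral_mono' mA.compl fun η hη => ?_
        have hX : R i η ω ∈ X i := by
          simpa using hη
        rw [eG]
        refine mul_le_mul_right ?_ _
        calc ff D S X c i (R i η ω) * GG D S X c m (i + 1) (R i η ω) ≤ 1 * GG D S X c m (i + 1) (R i η ω) := by
              refine mul_le_mul_left ?_ _
              unfold ff
              rw [if_neg (fun hh => hh.2 hX), if_pos (hDη η), if_pos hX, one_mul]
              exact ENNReal.mul_inv_le_one _
          _ = _ := one_mul _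
      -- the right side
      have r1 : ∫⁻ η in {η | R i η ω ∉ X i}, W (R i η ω) * GG D S X c m (i + 1) (R i η ω) ∂P =
          a * (∫⁻ η in {η | R i η ω ∉ X i ∧ R i η ω ∉ S i}, W (R i η ω) ∂P +
            ∫⁻ η in {η | R i η ω ∉ X i ∧ R i η ω ∈ S i}, W (R i η ω) ∂P) := by
        have : ∀ η ∈ {η | R i η ω ∉ X i},
            W (R i η ω) * GG D S X c m (i + 1) (R i η ω) = a * W (R i η ω) := by
          intro η h1
          rw [hGa η h1, mul_comm]
        rw [setLIntegral_congr_fun mA this, lintegral_const_mul _ mV, eA, lintegral_union mB' hdis]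
      calc ∫⁻ η, W (R i η ω) * GG D S X c m i (R i η ω) ∂P
          = ∫⁻ η in {η | R i η ω ∉ X i}, W (R i η ω) * GG D S X c m i (R i η ω) ∂P +
            ∫⁻ η in {η | R i η ω ∉ X i}ᶜ, W (R i η ω) * GG D S X c m i (R i η ω) ∂P :=
            (lintegral_add_compl _ mA).symm
        _ ≤ a * (∫⁻ η in {η | R i η ω ∉ X i ∧ R i η ω ∉ S i}, W (R i η ω) ∂P +
              c * ∫⁻ η in {η | R i η ω ∉ X i ∧ R i η ω ∉ S i}, W (R i η ω) ∂P) +
            ∫⁻ η in {η | R i η ω ∉ X i}ᶜ, W (R i η ω) * GG D S X c m (i + 1) (R i η ω) ∂P := by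
            refine add_le_add ?_ l3
            conv_lhs => rw [eA]
            rw [lintegral_union mB' hdis, l1, l2, add_zero]
        _ ≤ a * (∫⁻ η in {η | R i η ω ∉ X i ∧ R i η ω ∉ S i}, W (R i η ω) ∂P +
              (∫⁻ η in {η | R i η ω ∉ X i ∧ R i η ω ∈ S i}, W (R i η ω) ∂P + e)) +
            ∫⁻ η in {η | R i η ω ∉ X i}ᶜ, W (R i η ω) * GG D S X c m (i + 1) (R i η ω) ∂P := by
            gcongr
            exact h.cmp i hi ω hD
        _ = (∫⁻ η in {η | R i η ω ∉ X i}, W (R i η ω) * GG D S X c m (i + 1) (R i η ω) ∂P +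
            ∫⁻ η in {η | R i η ω ∉ X i}ᶜ, W (R i η ω) * GG D S X c m (i + 1) (R i η ω) ∂P) + a * e := by
            rw [r1]
            ring
        _ = ∫⁻ η, W (R i η ω) * GG D S X c m (i + 1) (R i η ω) ∂P + a * e := by
            rw [lintegral_add_compl _ mA]
        _ ≤ _ := by gcongr
    · -- no gain: all the factors are at most `1`
      refine le_add_right (lintegral_mono fun η => ?_)
      rw [eG]
      refine mul_le_mul_right ?_ _
      calc ff D S X c i (R i η ω) * GG D S X c m (i + 1) (R i η ω) ≤ 1 * GG D S X c m (i + 1) (R i η ω) := by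
            refine mul_le_mul_left ?_ _
            by_cases hX : R i η ω ∈ X i
            · unfold ff
              rw [if_neg (fun hh => hh.2 hX), if_pos hX, one_mul]
              split_ifs
              · exact ENNReal.mul_inv_le_one _
              · rw [one_mul]
                exact ENNReal.inv_le_one.2 le_self_add
            · have hD : R i η ω ∉ D i := by
                intro hh
                exact hne ⟨η, hX, (h.bD i hi i hi le_rfl η ω).1 hh⟩
              unfold ff
              rw [if_neg hD, if_neg hX, one_mul, mul_one]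
              split_ifs <;> simp
        _ = _ := one_mul _
  calc ∫⁻ ω, ∫⁻ η, W (R i η ω) * GG D S X c m i (R i η ω) ∂P ∂P
      ≤ ∫⁻ ω, (∫⁻ η, W (R i η ω) * GG D S X c m (i + 1) (R i η ω) ∂P + (1 + c) ^ m * e) ∂P := lintegral_mono key
    _ = _ := by
      rw [lintegral_add_right _ measurable_const, lintegral_const, measure_univ, mul_one]

/-- The whole chain. -/
theorem chain [IsProbabilityMeasure P] (h : ChData P m R D S X W c e) :
    ∫⁻ ω, W ω * GG D S X c m 0 ω ∂P ≤ ∫⁻ ω, W ω ∂P + m * ((1 + c) ^ m * e) := by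
  have key : ∀ k, k ≤ m → ∫⁻ ω, W ω * GG D S X c m (m - k) ω ∂P ≤ ∫⁻ ω, W ω ∂P + k * ((1 + c) ^ m * e) := by
    intro k
    induction k with
    | zero =>
      intro _
      have e0 : ∀ ω, GG D S X c m (m - 0) ω = 1 := by
        intro ω
        unfold GG
        rw [Nat.sub_zero, Finset.Ico_self, Finset.prod_empty]
      simp only [e0, mul_one, Nat.cast_zero, zero_mul, add_zero, le_refl]
    | succ k ih =>
      intro hk
      have h1 := h.one (i := m - (k + 1)) (by omega)
      have e1 : m - (k + 1) + 1 = m - k := by omega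
      rw [e1] at h1
      calc _ ≤ _ := h1
        _ ≤ (∫⁻ ω, W ω ∂P + k * ((1 + c) ^ m * e)) + (1 + c) ^ m * e := by gcongr; exact ih (by omega)
        _ = _ := by push_cast; ring
  have := key m le_rfl
  rwa [Nat.sub_self] at this

end ChData

open Classical in
/-- No normal success, and the number of wide windows exceeds the number of abnormal blocks by `r`. -/
def Bad (D S X : ℕ → Set Ω) (m r : ℕ) : Set Ω :=
  {ω | (∀ i < m, ω ∈ S i → ω ∈ X i) ∧
    ((Finset.range m).filter fun i => ω ∈ X i).card + r ≤ ((Finset.range m).filter fun i => ω ∈ D i).card}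

omit [MeasurableSpace Ω] in
theorem GG_ge {D S X : ℕ → Set Ω} {m r : ℕ} {c : ℝ≥0∞} (hc : c ≠ ∞) {ω : Ω} (hω : ω ∈ Bad D S X m r) :
    (1 + c) ^ r ≤ GG D S X c m 0 ω := by
  classical
  obtain ⟨h1, h2⟩ := hω
  have hg0 : (1 + c) ≠ 0 := by simp
  have hg1 : (1 + c) ≠ ∞ := ENNReal.add_ne_top.2 ⟨ENNReal.one_ne_top, hc⟩
  have e1 : GG D S X c m 0 ω = (1 + c) ^ ((Finset.range m).filter fun i => ω ∈ D i).card *
      ((1 + c)⁻¹) ^ ((Finset.range m).filter fun i => ω ∈ X i).card := by
    unfold GG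
    rw [← Finset.range_eq_Ico]
    have : ∀ j ∈ Finset.range m, ff D S X c j ω =
        (if ω ∈ D j then 1 + c else 1) * (if ω ∈ X j then (1 + c)⁻¹ else 1) := by
      intro j hj
      unfold ff
      rw [if_neg (fun hh => hh.2 (h1 j (Finset.mem_range.1 hj) hh.1)), one_mul]
    rw [Finset.prod_congr rfl this, Finset.prod_mul_distrib, Finset.prod_ite, Finset.prod_ite]
    simp only [Finset.prod_const, one_pow, mul_one]
  rw [e1]
  calc (1 + c) ^ r = (1 + c) ^ (((Finset.range m).filter fun i => ω ∈ X i).card + r) *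
        ((1 + c)⁻¹) ^ ((Finset.range m).filter fun i => ω ∈ X i).card := by
        rw [pow_add, mul_comm ((1 + c) ^ _) ((1 + c) ^ r), mul_assoc, ← mul_pow, ENNReal.mul_inv_cancel hg0 hg1,
          one_pow, mul_one]
    _ ≤ _ := by
        refine mul_le_mul_left (pow_le_pow_right₀ le_self_add ?_) _
        convert h2 using 2

theorem measurableSet_Bad {D S X : ℕ → Set Ω} {m r : ℕ} (hD : ∀ i < m, MeasurableSet (D i))
    (hS : ∀ i < m, MeasurableSet (S i)) (hX : ∀ i < m, MeasurableSet (X i)) : MeasurableSet (Bad D S X m r) := by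
  classical
  have card : ∀ Y : ℕ → Set Ω, (∀ i < m, MeasurableSet (Y i)) →
      Measurable fun ω => ((Finset.range m).filter fun i => ω ∈ Y i).card := by
    intro Y hY
    have e : (fun ω => ((Finset.range m).filter fun i => ω ∈ Y i).card) =
        fun ω => ∑ i ∈ Finset.range m, (if ω ∈ Y i then 1 else 0) := by
      funext ω
      rw [Finset.card_filter]
    rw [e]
    exact Finset.measurable_sum _ fun i hi =>
      Measurable.ite (hY i (Finset.mem_range.1 hi)) measurable_const measurable_const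
  have m1 : MeasurableSet {ω | ∀ i < m, ω ∈ S i → ω ∈ X i} := by
    have : {ω | ∀ i < m, ω ∈ S i → ω ∈ X i} = ⋂ i ∈ Finset.range m, ((S i)ᶜ ∪ X i) := by
      ext ω
      simp only [Set.mem_ofPred_eq, Set.mem_iInter, Finset.mem_range, Set.mem_union, Set.mem_compl_iff]
      exact forall₂_congr fun i _ => by tauto
    rw [this]
    exact Finset.measurableSet_biInter _ fun i hi =>
      ((hS i (Finset.mem_range.1 hi)).compl.union (hX i (Finset.mem_range.1 hi)))
  have m2 : MeasurableSet {ω | ((Finset.range m).filter fun i => ω ∈ X i).card + r ≤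
      ((Finset.range m).filter fun i => ω ∈ D i).card} :=
    measurableSet_le ((card X hX).add measurable_const) (card D hD)
  have : Bad D S X m r = {ω | ∀ i < m, ω ∈ S i → ω ∈ X i} ∩ {ω | ((Finset.range m).filter fun i => ω ∈ X i).card + r ≤
      ((Finset.range m).filter fun i => ω ∈ D i).card} := by
    ext ω
    unfold Bad
    simp only [Set.mem_ofPred_eq, Set.mem_inter_iff]
  rw [this]
  exact m1.inter m2

/-- **NO NORMAL SUCCESS IS RARE UNDER `W`.** -/
theorem ChData.none [IsProbabilityMeasure P] {m : ℕ} {R : ℕ → Ω → Ω → Ω} {D S X : ℕ → Set Ω} {W : Ω → ℝ≥0∞}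
    {c e : ℝ≥0∞} (h : ChData P m R D S X W c e) (hc : c ≠ ∞) (r : ℕ) :
    (1 + c) ^ r * ∫⁻ ω in Bad D S X m r, W ω ∂P ≤ ∫⁻ ω, W ω ∂P + m * ((1 + c) ^ m * e) := by
  refine le_trans ?_ h.chain
  have mB : MeasurableSet (Bad D S X m r) := measurableSet_Bad h.mD h.mS h.mX
  calc (1 + c) ^ r * ∫⁻ ω in Bad D S X m r, W ω ∂P = ∫⁻ ω in Bad D S X m r, (1 + c) ^ r * W ω ∂P := by
        rw [lintegral_const_mul _ h.mW]
    _ ≤ ∫⁻ ω in Bad D S X m r, W ω * GG D S X c m 0 ω ∂P := by
        refine setLIntegral_mono' mB fun ω hω => ?_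
        rw [mul_comm]
        exact mul_le_mul_right (GG_ge hc hω) _
    _ ≤ _ := setLIntegral_le_lintegral _ _

/-! ### Exchange at the outermost normal success -/

/-- The outermost success is `i`. -/
def outer (J : ℕ → Set Ω) (m i : ℕ) : Set Ω := {ω | ω ∈ J i ∧ ∀ j, i < j → j < m → ω ∉ J j}

/-- **EXCHANGE.** `σ i` = exchange of the blocks `< i` of the two copies: it preserves the law and every `J j`, `j ≥ i`.
The event `outermost success = i` is then exactly invariant. -/
theorem exch54 (m : ℕ) {σ : ℕ → Ω → Ω} (hσ : ∀ i < m, MeasurePreserving (σ i) P P) {J : ℕ → Set Ω}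
    (hJ : ∀ i, MeasurableSet (J i)) (hinv : ∀ i < m, ∀ j < m, i ≤ j → ∀ ω, σ i ω ∈ J j ↔ ω ∈ J j)
    {H : Ω → ℝ} (hHm : Measurable H) (hH : Integrable H P) :
    |∫ ω, H ω ∂P| ≤ (1 / 2) * ∑ i ∈ Finset.range m, ∫ ω in outer J m i, |H ω + H (σ i ω)| ∂P +
      ∫ ω in {ω | ∀ i < m, ω ∉ J i}, |H ω| ∂P := by
  have ein : ∀ k < m, H9.inner (fun k => J (m - 1 - k)) k = outer J m (m - 1 - k) := by
    intro k hk
    ext ω
    rw [H9.mem_inner]
    unfold outer
    simp only [Set.mem_ofPred_eq]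
    refine and_congr_right fun _ => ⟨fun h j h1 h2 => ?_, fun h j h1 => ?_⟩
    · have := h (m - 1 - j) (by omega)
      rwa [show m - 1 - (m - 1 - j) = j by omega] at this
    · exact h (m - 1 - j) (by omega) (by omega)
  have hinv' : ∀ i < m, ∀ ω, ω ∈ outer J m i ↔ σ i ω ∈ outer J m i := by
    intro i hi ω
    unfold outer
    simp only [Set.mem_ofPred_eq]
    rw [hinv i hi i hi le_rfl ω]
    refine and_congr_right fun _ => forall_congr' fun j => forall_congr' fun h1 => forall_congr' fun h2 => ?_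
    rw [hinv i hi j h2 h1.le ω]
  have h1 := H9.exch (P := P) m (σ := fun k => σ (m - 1 - k)) (fun k hk => hσ (m - 1 - k) (by omega))
    (J := fun k => J (m - 1 - k)) (D := fun _ => ∅) (fun k => hJ _) (fun _ => MeasurableSet.empty)
    (fun k hk ω _ => by rw [ein k hk]; exact hinv' (m - 1 - k) (by omega) ω) hHm hH
  refine h1.trans (add_le_add (mul_le_mul_of_nonneg_left (le_of_eq ?_) (by norm_num)) (le_of_eq ?_))
  · have e1 : ∀ k ∈ Finset.range m,
        (∫ ω in H9.inner (fun k => J (m - 1 - k)) k, |H ω + H (σ (m - 1 - k) ω)| ∂P +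
          ∫ ω in (∅ : Set Ω), |H (σ (m - 1 - k) ω)| ∂P) =
        (fun i => ∫ ω in outer J m i, |H ω + H (σ i ω)| ∂P) (m - 1 - k) := by
      intro k hk
      rw [ein k (Finset.mem_range.1 hk), Measure.restrict_empty, integral_zero_measure, add_zero]
    rw [Finset.sum_congr rfl e1]
    exact Finset.sum_range_reflect (fun i => ∫ ω in outer J m i, |H ω + H (σ i ω)| ∂P) m
  · have e2 : (⋃ k ∈ Finset.range m, J (m - 1 - k))ᶜ = {ω | ∀ i < m, ω ∉ J i} := by
      ext ω
      simp only [Set.mem_compl_iff, Set.mem_iUnion, Finset.mem_range, not_exists, Set.mem_ofPred_eq]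
      constructor
      · intro h i hi
        have := h (m - 1 - i) (by omega)
        rwa [show m - 1 - (m - 1 - i) = i by omega] at this
      · exact fun h k hk => h (m - 1 - k) (by omega)
    rw [e2]

/-- The remainder of the exchange: `|H| ≤ C W`. Few wide windows or many abnormal blocks, or no normal success in spite
of many wide windows. -/
theorem ChData.rest [IsProbabilityMeasure P] {m : ℕ} {R : ℕ → Ω → Ω → Ω} {D S X : ℕ → Set Ω} {W : Ω → ℝ≥0∞}
    {c e : ℝ≥0∞} (h : ChData P m R D S X W c e) (hc : c ≠ ∞) (r : ℕ) {F : Ω → ℝ≥0∞} {C : ℝ≥0∞} (hF : ∀ ω, F ω ≤ C * W ω) :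
    ∫⁻ ω in {ω | ∀ i < m, ω ∉ S i \ X i}, F ω ∂P ≤
      C * (((1 + c) ^ r)⁻¹ * (∫⁻ ω, W ω ∂P + m * ((1 + c) ^ m * e))) +
        C * ∫⁻ ω in {ω | ω ∉ Bad D S X m r ∧ ∀ i < m, ω ∉ S i \ X i}, W ω ∂P := by
  have mB : MeasurableSet (Bad D S X m r) := measurableSet_Bad h.mD h.mS h.mX
  have hg0 : (1 + c) ^ r ≠ 0 := by positivity
  have hg1 : (1 + c) ^ r ≠ ∞ := ENNReal.pow_ne_top (ENNReal.add_ne_top.2 ⟨ENNReal.one_ne_top, hc⟩)
  have h1 : ∫⁻ ω in {ω | ∀ i < m, ω ∉ S i \ X i}, F ω ∂P ≤
      ∫⁻ ω in Bad D S X m r, F ω ∂P + ∫⁻ ω in {ω | ω ∉ Bad D S X m r ∧ ∀ i < m, ω ∉ S i \ X i}, F ω ∂P := by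
    refine (lintegral_mono_set (t := Bad D S X m r ∪ {ω | ω ∉ Bad D S X m r ∧ ∀ i < m, ω ∉ S i \ X i}) ?_).trans
      (lintegral_union_le _ _ _)
    intro ω hω
    by_cases hb : ω ∈ Bad D S X m r
    · exact Or.inl hb
    · exact Or.inr ⟨hb, hω⟩
  refine h1.trans (add_le_add ?_ ?_)
  · calc ∫⁻ ω in Bad D S X m r, F ω ∂P ≤ ∫⁻ ω in Bad D S X m r, C * W ω ∂P := lintegral_mono fun ω => hF ω
      _ = C * ∫⁻ ω in Bad D S X m r, W ω ∂P := lintegral_const_mul _ h.mW
      _ ≤ _ := by
        gcongr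
        calc ∫⁻ ω in Bad D S X m r, W ω ∂P = ((1 + c) ^ r)⁻¹ * ((1 + c) ^ r * ∫⁻ ω in Bad D S X m r, W ω ∂P) := by
              rw [← mul_assoc, ENNReal.inv_mul_cancel hg0 hg1, one_mul]
          _ ≤ _ := by
            gcongr
            exact h.none hc r
  · calc _ ≤ ∫⁻ ω in {ω | ω ∉ Bad D S X m r ∧ ∀ i < m, ω ∉ S i \ X i}, C * W ω ∂P := lintegral_mono fun ω => hF ω
      _ = _ := lintegral_const_mul _ h.mW

end Pool.Agent.W_7d29a1_C1.H54
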