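import Pool.Agent.W_7d29a1_C1.Seq71

/-!
MP_7d29a1_pr, the attractor route: sequential products with DEPTHS. (helper71)

`lprod_le`: `f i` is a nonnegative function of the environment which does not read the sites of `A j` for the later `j`; its
integral over the sites of `A i` is at most `M i` whatever the rest is. Then `∫ ∏ f i ≤ ∏ M i`. `lprod_cond`: the same with the
sites off all the `A i` frozen. `depth_le`: depths `N i` with `P(N i ≥ j | rest) ≤ C ρ ^ j`. `sum_le`: tail of the sum.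
-/

set_option autoImplicit false

namespace Pool.Agent.W_7d29a1_C1.S71

open MeasureTheory ProbabilityTheory Finset
open Pool.Agent.W_7d29a1_F
open scoped ENNReal Classical

noncomputable section

variable {μ : Measure ℝ} [IsProbabilityMeasure μ]

/-- The function does not read the sites of `A`. -/
def OffF {β : Type*} (A : Set Pt) (f : Env → β) : Prop := ∀ η η' : Env, (∀ p, p ∉ A → η p = η' p) → f η = f η'

theorem OffF.gl {β : Type*} {A : Set Pt} {f : Env → β} (h : OffF A f) (η' η : Env) : f (gl A η' η) = f η :=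
  h _ _ fun _ hp => gl_of_not_mem hp η' η

theorem OffF.mono {β : Type*} {A A' : Set Pt} {f : Env → β} (h : OffF A f) (hA : A' ⊆ A) : OffF A' f :=
  fun η η' he => h η η' fun p hp => he p fun h1 => hp (hA h1)

theorem OffF.comp {β γ : Type*} {A : Set Pt} {f : Env → β} (h : OffF A f) (g : β → γ) : OffF A fun η => g (f η) :=
  fun η η' he => congrArg g (h η η' he)

theorem OffF.set {β : Type*} {A : Set Pt} {f : Env → β} (h : OffF A f) (t : Set β) : Off A (f ⁻¹' t) :=
  fun η η' he => by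
    show f η ∈ t ↔ f η' ∈ t
    rw [h η η' he]

theorem Off.ind {A : Set Pt} {E : Set Env} (h : Off A E) : OffF A (E.indicator (1 : Env → ℝ≥0∞)) := by
  intro η η' he
  by_cases h1 : η ∈ E
  · rw [Set.indicator_of_mem h1, Set.indicator_of_mem ((h η η' he).1 h1), Pi.one_apply, Pi.one_apply]
  · rw [Set.indicator_of_notMem h1, Set.indicator_of_notMem fun h2 => h1 ((h η η' he).2 h2)]

/-- Gluing twice. -/
theorem gl_gl {A U : Set Pt} (hA : A ⊆ U) (η'' η' η : Env) : gl U (gl A η'' η') η = gl A η'' (gl U η' η) := by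
  funext p
  by_cases h1 : p ∈ A
  · rw [gl_of_mem (hA h1), gl_of_mem h1, gl_of_mem h1]
  · rw [gl_of_not_mem h1]
    by_cases h2 : p ∈ U
    · rw [gl_of_mem h2, gl_of_mem h2, gl_of_not_mem h1]
    · rw [gl_of_not_mem h2, gl_of_not_mem h2]

/-- **Sequential product.** -/
theorem lprod_le {A : ℕ → Set Pt} {f : ℕ → Env → ℝ≥0∞} (hf : ∀ i, Measurable (f i)) {M : ℕ → ℝ≥0∞} (S : Finset ℕ)
    (hoff : ∀ i ∈ S, ∀ j ∈ S, i < j → OffF (A j) (f i))
    (h : ∀ i ∈ S, ∀ η, ∫⁻ η', f i (gl (A i) η' η) ∂(law μ) ≤ M i) :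
    ∫⁻ η, ∏ i ∈ S, f i η ∂(law μ) ≤ ∏ i ∈ S, M i := by
  have : IsProbabilityMeasure (law μ) := by unfold law; infer_instance
  induction S using Finset.induction_on_max with
  | empty => simp
  | insert a S ha ih =>
    have hnot : a ∉ S := fun h1 => lt_irrefl _ (ha a h1)
    have ih' := ih (fun i hi j hj => hoff i (mem_insert_of_mem hi) j (mem_insert_of_mem hj))
      fun i hi => h i (mem_insert_of_mem hi)
    have hm : Measurable fun η => ∏ i ∈ S, f i η := Finset.measurable_prod _ fun i _ => hf i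
    have hO : OffF (A a) fun η => ∏ i ∈ S, f i η := fun η η' he =>
      prod_congr rfl fun i hi => hoff i (mem_insert_of_mem hi) a (mem_insert_self _ _) (ha i hi) η η' he
    simp only [prod_insert hnot]
    calc ∫⁻ η, f a η * ∏ i ∈ S, f i η ∂(law μ)
        = ∫⁻ η, ∫⁻ η', f a (gl (A a) η' η) * ∏ i ∈ S, f i (gl (A a) η' η) ∂(law μ) ∂(law μ) :=
          lintegral_gl (μ := μ) (A a) (f := fun η => f a η * ∏ i ∈ S, f i η) ((hf a).mul hm)
      _ = ∫⁻ η, (∫⁻ η', f a (gl (A a) η' η) ∂(law μ)) * ∏ i ∈ S, f i η ∂(law μ) := by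
          refine lintegral_congr fun η => ?_
          refine Eq.trans (lintegral_congr fun η' => ?_)
            (lintegral_mul_const (∏ i ∈ S, f i η) ((hf a).comp (measurable_gl_left (A a) η)))
          show f a (gl (A a) η' η) * ∏ i ∈ S, f i (gl (A a) η' η) = f a (gl (A a) η' η) * ∏ i ∈ S, f i η
          rw [hO.gl η' η]
      _ ≤ ∫⁻ η, M a * ∏ i ∈ S, f i η ∂(law μ) :=
          lintegral_mono fun η => mul_le_mul_left (h a (mem_insert_self _ _) η) _
      _ = M a * ∫⁻ η, ∏ i ∈ S, f i η ∂(law μ) := lintegral_const_mul _ hm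
      _ ≤ M a * ∏ i ∈ S, M i := mul_le_mul_right ih' _

/-- **The same with the sites off the `A i` frozen.** -/
theorem lprod_cond {A : ℕ → Set Pt} {f : ℕ → Env → ℝ≥0∞} (hf : ∀ i, Measurable (f i)) {M : ℕ → ℝ≥0∞} (S : Finset ℕ)
    {U : Set Pt} (hU : ∀ i ∈ S, A i ⊆ U) (hoff : ∀ i ∈ S, ∀ j ∈ S, i < j → OffF (A j) (f i))
    (h : ∀ i ∈ S, ∀ η, ∫⁻ η', f i (gl (A i) η' η) ∂(law μ) ≤ M i) (η : Env) :
    ∫⁻ η', ∏ i ∈ S, f i (gl U η' η) ∂(law μ) ≤ ∏ i ∈ S, M i := by
  refine lprod_le (μ := μ) (A := A) (f := fun i η' => f i (gl U η' η))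
    (fun i => (hf i).comp (measurable_gl_left U η)) S ?_ ?_
  · intro i hi j hj hij ζ ζ' he
    refine hoff i hi j hj hij _ _ fun p hp => ?_
    by_cases h2 : p ∈ U
    · rw [gl_of_mem h2, gl_of_mem h2, he p hp]
    · rw [gl_of_not_mem h2, gl_of_not_mem h2]
  · intro i hi ζ
    refine le_trans (le_of_eq (lintegral_congr fun η' => ?_)) (h i hi (gl U ζ η))
    show f i (gl U (gl (A i) η' ζ) η) = f i (gl (A i) η' (gl U ζ η))
    rw [gl_gl (hU i hi)]

/-- Several events with different bounds. -/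
theorem inter_le {A : ℕ → Set Pt} {B : ℕ → Set Env} (hB : ∀ i, MeasurableSet (B i)) {ε : ℕ → ℝ≥0∞} (S : Finset ℕ)
    {U : Set Pt} (hU : ∀ i ∈ S, A i ⊆ U) (hoff : ∀ i ∈ S, ∀ j ∈ S, i < j → Off (A j) (B i))
    (h : ∀ i ∈ S, ∀ η, law μ {η' | gl (A i) η' η ∈ B i} ≤ ε i) (η : Env) :
    law μ {η' | gl U η' η ∈ ⋂ i ∈ S, B i} ≤ ∏ i ∈ S, ε i := by
  have hm : MeasurableSet {η' : Env | gl U η' η ∈ ⋂ i ∈ S, B i} :=
    (measurable_gl_left U η) (Finset.measurableSet_biInter _ fun i _ => hB i)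
  rw [← lintegral_indicator_one hm]
  refine le_trans (lintegral_mono fun η' => ?_) (lprod_cond (μ := μ) (A := A)
    (f := fun i => (B i).indicator 1) (fun i => measurable_one.indicator (hB i)) S hU
    (fun i hi j hj hij => (hoff i hi j hj hij).ind) (M := ε) ?_ η)
  · by_cases h1 : η' ∈ {η' : Env | gl U η' η ∈ ⋂ i ∈ S, B i}
    · rw [Set.indicator_of_mem h1, Pi.one_apply]
      have h2 : ∀ i ∈ S, gl U η' η ∈ B i := fun i hi => by
        have h3 : gl U η' η ∈ ⋂ i ∈ S, B i := h1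
        simp only [Set.mem_iInter] at h3
        exact h3 i hi
      refine le_of_eq (Eq.symm (prod_eq_one fun i hi => ?_))
      rw [Set.indicator_of_mem (h2 i hi), Pi.one_apply]
    · rw [Set.indicator_of_notMem h1]
      exact zero_le
  · intro i hi ζ
    have hm' : MeasurableSet {η' : Env | gl (A i) η' ζ ∈ B i} := (measurable_gl_left (A i) ζ) (hB i)
    refine le_trans (le_of_eq ?_) (h i hi ζ)
    rw [← lintegral_indicator_one hm']
    refine lintegral_congr fun η' => ?_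
    by_cases h1 : gl (A i) η' ζ ∈ B i
    · rw [Set.indicator_of_mem h1, Set.indicator_of_mem (s := {η' : Env | gl (A i) η' ζ ∈ B i}) h1]
      rfl
    · rw [Set.indicator_of_notMem h1, Set.indicator_of_notMem (s := {η' : Env | gl (A i) η' ζ ∈ B i}) h1]

/-- **Depths.** `P(N i ≥ j | rest) ≤ C ρ ^ j`: the pattern `N i ≥ k i` on `S` costs `∏ C ρ ^ (k i)`, with everything off the
`A i` frozen. -/
theorem depth_le {A : ℕ → Set Pt} {N : ℕ → Env → ℕ} (hN : ∀ i, Measurable (N i)) {C ρ : ℝ≥0∞} (S : Finset ℕ)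
    {U : Set Pt} (hU : ∀ i ∈ S, A i ⊆ U) (hoff : ∀ i ∈ S, ∀ j ∈ S, i < j → OffF (A j) (N i)) (k : ℕ → ℕ)
    (h : ∀ i ∈ S, ∀ η, law μ {η' | k i ≤ N i (gl (A i) η' η)} ≤ C * ρ ^ k i) (η : Env) :
    law μ {η' | ∀ i ∈ S, k i ≤ N i (gl U η' η)} ≤ ∏ i ∈ S, (C * ρ ^ k i) := by
  have hB : ∀ i, MeasurableSet (N i ⁻¹' Set.Ici (k i)) := fun i => (hN i) measurableSet_Ici
  have h1 := inter_le (μ := μ) (A := A) (B := fun i => N i ⁻¹' Set.Ici (k i)) hB (ε := fun i => C * ρ ^ k i) S hU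
    (fun i hi j hj hij => (hoff i hi j hj hij).set _) h η
  refine le_trans (le_of_eq (congrArg _ ?_)) h1
  ext η'
  simp only [Set.mem_setOf_eq, Set.mem_iInter, Set.mem_preimage, Set.mem_Ici]

/-- **Tail of the sum of the depths** from an exponential moment at each scale. -/
theorem sum_le {A : ℕ → Set Pt} {N : ℕ → Env → ℕ} (hN : ∀ i, Measurable (N i)) {z M : ℝ≥0∞} (hz : 1 ≤ z) (hz' : z ≠ ∞)
    (S : Finset ℕ) (hoff : ∀ i ∈ S, ∀ j ∈ S, i < j → OffF (A j) (N i))
    (h : ∀ i ∈ S, ∀ η, ∫⁻ η', z ^ N i (gl (A i) η' η) ∂(law μ) ≤ M) (r : ℕ) :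
    law μ {η | r ≤ ∑ i ∈ S, N i η} ≤ M ^ S.card / z ^ r := by
  have h0 : z ≠ 0 := fun h1 => by rw [h1] at hz; exact absurd hz (by simp)
  have hmz : Measurable fun n : ℕ => z ^ n := measurable_from_top
  have h1 := lprod_le (μ := μ) (A := A) (f := fun i η => z ^ N i η) (fun i => hmz.comp (hN i)) S
    (fun i hi j hj hij => (hoff i hi j hj hij).comp _) (M := fun _ => M) h
  rw [prod_const] at h1
  have hmeas : Measurable fun η => ∏ i ∈ S, z ^ N i η := Finset.measurable_prod _ fun i _ => hmz.comp (hN i)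
  rw [ENNReal.le_div_iff_mul_le (Or.inl (pow_ne_zero _ h0)) (Or.inl (ENNReal.pow_ne_top hz'))]
  refine le_trans ?_ h1
  rw [mul_comm]
  refine le_trans (mul_le_mul_right (measure_mono (μ := law μ) (t := {η | z ^ r ≤ ∏ i ∈ S, z ^ N i η}) ?_) _)
    (mul_meas_ge_le_lintegral hmeas _)
  intro η hη
  show z ^ r ≤ ∏ i ∈ S, z ^ N i η
  rw [prod_pow_eq_pow_sum]
  exact pow_le_pow_right₀ hz hη

end

end Pool.Agent.W_7d29a1_C1.S71
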