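import Pool.Agent.W_7d29a1_F.CoreB1
import Pool.Agent.W_7d29a1_C1.Seq71B
import Pool.Agent.W_7d29a1_C1.Chain54

/-!
Both halves (MP_7d29a1_pr), attractor route: TWO COPIES OF THE ENVIRONMENT. (helper9)

`sw A a` exchanges the sites `A` of the first copy with the sites `A + a` of the second copy (row shift and column shift
`a`). It preserves the law of the pair and is an involution. `ref2 B a η ω` takes the block `B` (resp. `B + a`) from
fresh copies. Events of the pair are written through `fs w = w.1` and `sn a w = sh a w.2`, the second copy seen from `a`.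
-/

set_option autoImplicit false

namespace Pool.Agent.W_7d29a1_C1.Sw9

open MeasureTheory ProbabilityTheory
open Pool.Agent.W_7d29a1_F Pool.Agent.W_7d29a1_C1.S71
open scoped ENNReal Classical

noncomputable section

variable {μ : Measure ℝ} [IsProbabilityMeasure μ]

/-! ### The shift -/

theorem sh_sh (a b : Pt) (η : Env) : sh a (sh b η) = sh (a + b) η := by
  funext p
  unfold sh
  rw [add_assoc]

theorem sh_zero (η : Env) : sh 0 η = η := by
  funext p
  unfold sh
  rw [add_zero]

theorem sh_neg_sh (a : Pt) (η : Env) : sh (-a) (sh a η) = η := by rw [sh_sh, neg_add_cancel, sh_zero]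

theorem sh_sh_neg (a : Pt) (η : Env) : sh a (sh (-a) η) = η := by rw [sh_sh, add_neg_cancel, sh_zero]

theorem measurable_sh (a : Pt) : Measurable (sh a) := measurable_pi_lambda _ fun p => measurable_pi_apply (p + a)

/-! ### Permutations of four copies -/

section perm

variable {α β γ δ : Type*} [MeasurableSpace α] [MeasurableSpace β] [MeasurableSpace γ] [MeasurableSpace δ]
  {a : Measure α} {b : Measure β} {c : Measure γ} {d : Measure δ} [SFinite a] [SFinite b] [SFinite c] [SFinite d]

/-- `(x, (y, z)) ↦ (y, (x, z))`. -/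
theorem mp_left : MeasurePreserving (fun q : α × (β × γ) => (q.2.1, (q.1, q.2.2))) (a.prod (b.prod c)) (b.prod (a.prod c)) := by
  have h1 : MeasurePreserving (MeasurableEquiv.prodAssoc.symm : α × (β × γ) ≃ᵐ (α × β) × γ) (a.prod (b.prod c))
      ((a.prod b).prod c) := (measurePreserving_prodAssoc a b c).symm _
  have h2 : MeasurePreserving (Prod.map Prod.swap id : (α × β) × γ → (β × α) × γ) ((a.prod b).prod c) ((b.prod a).prod c) :=
    (Measure.measurePreserving_swap (μ := a) (ν := b)).prod (MeasurePreserving.id c)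
  have h3 : MeasurePreserving (MeasurableEquiv.prodAssoc : (β × α) × γ ≃ᵐ β × (α × γ)) ((b.prod a).prod c)
      (b.prod (a.prod c)) := measurePreserving_prodAssoc b a c
  exact h3.comp (h2.comp h1)

/-- `((x, y), (z, t)) ↦ ((z, y), (x, t))` for equal factors `a = c`. -/
theorem mp_four : MeasurePreserving (fun q : (α × β) × (γ × δ) => ((q.2.1, q.1.2), (q.1.1, q.2.2)))
    ((a.prod b).prod (c.prod d)) ((c.prod b).prod (a.prod d)) := by
  have h1 : MeasurePreserving (MeasurableEquiv.prodAssoc : (α × β) × (γ × δ) ≃ᵐ α × (β × (γ × δ)))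
      ((a.prod b).prod (c.prod d)) (a.prod (b.prod (c.prod d))) := measurePreserving_prodAssoc a b (c.prod d)
  have h2 : MeasurePreserving (Prod.map id (fun q : β × (γ × δ) => (q.2.1, (q.1, q.2.2))))
      (a.prod (b.prod (c.prod d))) (a.prod (c.prod (b.prod d))) := (MeasurePreserving.id a).prod mp_left
  have h3 : MeasurePreserving (fun q : α × (γ × (β × δ)) => (q.2.1, (q.1, q.2.2)))
      (a.prod (c.prod (b.prod d))) (c.prod (a.prod (b.prod d))) := mp_left
  have h4 : MeasurePreserving (Prod.map id (fun q : α × (β × δ) => (q.2.1, (q.1, q.2.2))))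
      (c.prod (a.prod (b.prod d))) (c.prod (b.prod (a.prod d))) := (MeasurePreserving.id c).prod mp_left
  have h5 : MeasurePreserving (MeasurableEquiv.prodAssoc.symm : γ × (β × (α × δ)) ≃ᵐ (γ × β) × (α × δ))
      (c.prod (b.prod (a.prod d))) ((c.prod b).prod (a.prod d)) := (measurePreserving_prodAssoc c b (a.prod d)).symm _
  exact h5.comp (h4.comp (h3.comp (h2.comp h1)))

/-- `((x, y), (z, t)) ↦ ((x, z), (y, t))`. -/
theorem mp_mid : MeasurePreserving (fun q : (α × β) × (γ × δ) => ((q.1.1, q.2.1), (q.1.2, q.2.2)))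
    ((a.prod b).prod (c.prod d)) ((a.prod c).prod (b.prod d)) := by
  have h1 : MeasurePreserving (MeasurableEquiv.prodAssoc : (α × β) × (γ × δ) ≃ᵐ α × (β × (γ × δ)))
      ((a.prod b).prod (c.prod d)) (a.prod (b.prod (c.prod d))) := measurePreserving_prodAssoc a b (c.prod d)
  have h2 : MeasurePreserving (Prod.map id (fun q : β × (γ × δ) => (q.2.1, (q.1, q.2.2))))
      (a.prod (b.prod (c.prod d))) (a.prod (c.prod (b.prod d))) := (MeasurePreserving.id a).prod mp_left
  have h3 : MeasurePreserving (MeasurableEquiv.prodAssoc.symm : α × (γ × (β × δ)) ≃ᵐ (α × γ) × (β × δ))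
      (a.prod (c.prod (b.prod d))) ((a.prod c).prod (b.prod d)) := (measurePreserving_prodAssoc a c (b.prod d)).symm _
  exact h3.comp (h2.comp h1)

end perm

/-! ### Gluing -/

theorem gl_gl_left (A : Set Pt) (α β γ : Env) : gl A (gl A α β) γ = gl A α γ := by
  funext p
  by_cases hp : p ∈ A
  · rw [gl_of_mem hp, gl_of_mem hp, gl_of_mem hp]
  · rw [gl_of_not_mem hp, gl_of_not_mem hp]

theorem gl_gl_right (A : Set Pt) (α β γ : Env) : gl A α (gl A β γ) = gl A α γ := by
  funext p
  by_cases hp : p ∈ A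
  · rw [gl_of_mem hp, gl_of_mem hp]
  · rw [gl_of_not_mem hp, gl_of_not_mem hp, gl_of_not_mem hp]

theorem gl_self (A : Set Pt) (η : Env) : gl A η η = η := by
  funext p
  by_cases hp : p ∈ A
  · rw [gl_of_mem hp]
  · rw [gl_of_not_mem hp]

/-- Exchange of the sites of `A`, no shift. -/
def sw0 (A : Set Pt) (w : Env × Env) : Env × Env := (gl A w.2 w.1, gl A w.1 w.2)

theorem measurable_sw0 (A : Set Pt) : Measurable (sw0 A) :=
  ((measurable_gl A).comp (measurable_snd.prodMk measurable_fst)).prodMk (measurable_gl A)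

theorem mp_sw0 (A : Set Pt) : MeasurePreserving (sw0 A) ((law μ).prod (law μ)) ((law μ).prod (law μ)) := by
  have hF : MeasurePreserving (Prod.map (fun q : Env × Env => gl A q.1 q.2) (fun q : Env × Env => gl A q.1 q.2))
      (((law μ).prod (law μ)).prod ((law μ).prod (law μ))) ((law μ).prod (law μ)) := (mp_gl A).prod (mp_gl A)
  have hp : MeasurePreserving (fun q : (Env × Env) × (Env × Env) => ((q.2.1, q.1.2), (q.1.1, q.2.2)))
      (((law μ).prod (law μ)).prod ((law μ).prod (law μ))) (((law μ).prod (law μ)).prod ((law μ).prod (law μ))) := mp_four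
  have he : sw0 A ∘ Prod.map (fun q : Env × Env => gl A q.1 q.2) (fun q : Env × Env => gl A q.1 q.2) =
      Prod.map (fun q : Env × Env => gl A q.1 q.2) (fun q : Env × Env => gl A q.1 q.2) ∘
        fun q : (Env × Env) × (Env × Env) => ((q.2.1, q.1.2), (q.1.1, q.2.2)) := by
    funext q
    show (gl A (gl A q.2.1 q.2.2) (gl A q.1.1 q.1.2), gl A (gl A q.1.1 q.1.2) (gl A q.2.1 q.2.2)) =
      (gl A q.2.1 q.1.2, gl A q.1.1 q.2.2)
    simp only [gl_gl_left, gl_gl_right]
  refine ⟨measurable_sw0 A, ?_⟩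
  calc Measure.map (sw0 A) ((law μ).prod (law μ))
      = Measure.map (sw0 A) (Measure.map (Prod.map (fun q : Env × Env => gl A q.1 q.2) (fun q : Env × Env => gl A q.1 q.2))
          (((law μ).prod (law μ)).prod ((law μ).prod (law μ)))) := by rw [hF.map_eq]
    _ = Measure.map (sw0 A ∘ Prod.map (fun q : Env × Env => gl A q.1 q.2) (fun q : Env × Env => gl A q.1 q.2))
          (((law μ).prod (law μ)).prod ((law μ).prod (law μ))) := Measure.map_map (measurable_sw0 A) hF.measurable
    _ = (law μ).prod (law μ) := by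
        rw [he]
        exact (hF.comp hp).map_eq

/-! ### The exchange -/

/-- The first copy. -/
def fs (w : Env × Env) : Env := w.1

/-- The second copy, seen from the site `a`. -/
def sn (a : Pt) (w : Env × Env) : Env := sh a w.2

/-- **THE EXCHANGE**: the sites `A` of the first copy against the sites `A + a` of the second one. -/
def sw (A : Set Pt) (a : Pt) (w : Env × Env) : Env × Env := (gl A (sn a w) (fs w), sh (-a) (gl A (fs w) (sn a w)))

theorem fs_sw (A : Set Pt) (a : Pt) (w : Env × Env) : fs (sw A a w) = gl A (sn a w) (fs w) := rfl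

theorem sn_sw (A : Set Pt) (a : Pt) (w : Env × Env) : sn a (sw A a w) = gl A (fs w) (sn a w) :=
  sh_sh_neg a (gl A (fs w) (sn a w))

theorem fs_sw_mem {A : Set Pt} {p : Pt} (hp : p ∈ A) (a : Pt) (w : Env × Env) : (sw A a w).1 p = w.2 (p + a) :=
  gl_of_mem hp _ _

theorem fs_sw_not {A : Set Pt} {p : Pt} (hp : p ∉ A) (a : Pt) (w : Env × Env) : (sw A a w).1 p = w.1 p :=
  gl_of_not_mem hp _ _

theorem sn_sw_mem {A : Set Pt} {p : Pt} (hp : p ∈ A) (a : Pt) (w : Env × Env) : (sw A a w).2 (p + a) = w.1 p := by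
  have h : sn a (sw A a w) p = w.1 p := by
    rw [sn_sw, gl_of_mem hp]
    rfl
  exact h

theorem sn_sw_not {A : Set Pt} {p : Pt} (hp : p ∉ A) (a : Pt) (w : Env × Env) : (sw A a w).2 (p + a) = w.2 (p + a) := by
  have h : sn a (sw A a w) p = sn a w p := by
    rw [sn_sw, gl_of_not_mem hp]
  exact h

theorem ext2 {a : Pt} {w w' : Env × Env} (h1 : fs w = fs w') (h2 : sn a w = sn a w') : w = w' := by
  refine Prod.ext h1 ?_
  have h3 := congrArg (sh (-a)) h2
  unfold sn at h3
  rwa [sh_neg_sh, sh_neg_sh] at h3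

/-- An involution. -/
theorem sw_sw (A : Set Pt) (a : Pt) (w : Env × Env) : sw A a (sw A a w) = w := by
  refine ext2 (a := a) ?_ ?_
  · rw [fs_sw, sn_sw, fs_sw, gl_gl_right, gl_gl_left, gl_self]
  · rw [sn_sw, fs_sw, sn_sw, gl_gl_right, gl_gl_left, gl_self]

theorem sw_eq (A : Set Pt) (a : Pt) : sw A a = Prod.map id (sh (-a)) ∘ (sw0 A ∘ Prod.map id (sh a)) := rfl

theorem mp_sw (A : Set Pt) (a : Pt) : MeasurePreserving (sw A a) ((law μ).prod (law μ)) ((law μ).prod (law μ)) := by
  rw [sw_eq]
  exact ((MeasurePreserving.id (law μ)).prod (mp_sh (-a))).comp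
    ((mp_sw0 A).comp ((MeasurePreserving.id (law μ)).prod (mp_sh a)))

theorem measurable_sw (A : Set Pt) (a : Pt) : Measurable (sw A a) := by
  rw [sw_eq]
  exact (measurable_id.prodMap (measurable_sh (-a))).comp
    ((measurable_sw0 A).comp (measurable_id.prodMap (measurable_sh a)))

theorem measurable_fs : Measurable fs := measurable_fst

theorem measurable_sn (a : Pt) : Measurable (sn a) := (measurable_sh a).comp measurable_snd

theorem mp_fs : MeasurePreserving fs ((law μ).prod (law μ)) (law μ) := measurePreserving_fst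

theorem mp_sn (a : Pt) : MeasurePreserving (sn a) ((law μ).prod (law μ)) (law μ) :=
  (mp_sh a).comp measurePreserving_snd

/-! ### What the exchange does to functions and events -/

/-- Only the sites of `B` matter. -/
theorem offF_eq {β : Type*} {A : Set Pt} {f : Env → β} (h : OffF A f) {η η' : Env} (he : ∀ p, p ∉ A → η p = η' p) :
    f η = f η' := h η η' he

/-- A function which does not see `A`. -/
theorem fs_off {β : Type*} {A : Set Pt} {f : Env → β} (h : OffF A f) (a : Pt) (w : Env × Env) :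
    f (fs (sw A a w)) = f (fs w) := h.gl _ _

theorem sn_off {β : Type*} {A : Set Pt} {f : Env → β} (h : OffF A f) (a : Pt) (w : Env × Env) :
    f (sn a (sw A a w)) = f (sn a w) := by
  rw [sn_sw]
  exact h.gl _ _

/-- A function which sees `A` only: it is taken from the other copy. -/
theorem fs_in {β : Type*} {A : Set Pt} {f : Env → β} (h : OffF Aᶜ f) (a : Pt) (w : Env × Env) :
    f (fs (sw A a w)) = f (sn a w) := by
  refine h _ _ fun p hp => ?_
  rw [Set.mem_compl_iff, not_not] at hp
  rw [fs_sw, gl_of_mem hp]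

theorem sn_in {β : Type*} {A : Set Pt} {f : Env → β} (h : OffF Aᶜ f) (a : Pt) (w : Env × Env) :
    f (sn a (sw A a w)) = f (fs w) := by
  refine h _ _ fun p hp => ?_
  rw [Set.mem_compl_iff, not_not] at hp
  rw [sn_sw, gl_of_mem hp]

/-- A function of the sites outside of `A` and of the sites in `A`: the inside is taken from the other copy. -/
theorem fs_both {β : Type*} {A : Set Pt} {g : Env → Env → β} (h1 : ∀ η, OffF Aᶜ (g η)) (h2 : ∀ η, OffF A fun η' => g η' η)
    (a : Pt) (w : Env × Env) : g (fs (sw A a w)) (fs (sw A a w)) = g (fs w) (sn a w) := by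
  rw [fs_in (h1 _) a w]
  exact fs_off (h2 _) a w

theorem sn_both {β : Type*} {A : Set Pt} {g : Env → Env → β} (h1 : ∀ η, OffF Aᶜ (g η)) (h2 : ∀ η, OffF A fun η' => g η' η)
    (a : Pt) (w : Env × Env) : g (sn a (sw A a w)) (sn a (sw A a w)) = g (sn a w) (fs w) := by
  rw [sn_in (h1 _) a w]
  exact sn_off (h2 _) a w

theorem Off.toF {A : Set Pt} {E : Set Env} (h : Off A E) : OffF A fun η => η ∈ E :=
  fun η η' he => propext (h η η' he)

/-- Both copies are in `E` (the second one seen from `a`). -/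
def both (a : Pt) (E : Set Env) : Set (Env × Env) := {w | fs w ∈ E ∧ sn a w ∈ E}

/-- One of the copies is in `E`. -/
def either (a : Pt) (E : Set Env) : Set (Env × Env) := {w | fs w ∈ E ∨ sn a w ∈ E}

theorem measurableSet_both (a : Pt) {E : Set Env} (hE : MeasurableSet E) : MeasurableSet (both a E) :=
  (measurable_fs hE).inter (measurable_sn a hE)

theorem measurableSet_either (a : Pt) {E : Set Env} (hE : MeasurableSet E) : MeasurableSet (either a E) :=
  (measurable_fs hE).union (measurable_sn a hE)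

/-- Invariance: the event of each copy does not see `A`. -/
theorem both_off {A : Set Pt} {E : Set Env} (h : Off A E) (a : Pt) (w : Env × Env) : sw A a w ∈ both a E ↔ w ∈ both a E := by
  have h1 := fs_off (Off.toF h) a w
  have h2 := sn_off (Off.toF h) a w
  exact and_congr (iff_of_eq h1) (iff_of_eq h2)

theorem either_off {A : Set Pt} {E : Set Env} (h : Off A E) (a : Pt) (w : Env × Env) :
    sw A a w ∈ either a E ↔ w ∈ either a E := by
  have h1 := fs_off (Off.toF h) a w
  have h2 := sn_off (Off.toF h) a w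
  exact or_congr (iff_of_eq h1) (iff_of_eq h2)

/-- Invariance: the event of each copy sees `A` only. -/
theorem both_in {A : Set Pt} {E : Set Env} (h : Off Aᶜ E) (a : Pt) (w : Env × Env) : sw A a w ∈ both a E ↔ w ∈ both a E := by
  have h1 := fs_in (Off.toF h) a w
  have h2 := sn_in (Off.toF h) a w
  exact (and_congr (iff_of_eq h1) (iff_of_eq h2)).trans and_comm

theorem either_in {A : Set Pt} {E : Set Env} (h : Off Aᶜ E) (a : Pt) (w : Env × Env) :
    sw A a w ∈ either a E ↔ w ∈ either a E := by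
  have h1 := fs_in (Off.toF h) a w
  have h2 := sn_in (Off.toF h) a w
  exact (or_congr (iff_of_eq h1) (iff_of_eq h2)).trans or_comm

/-- ABNORMALITY THROUGH THE LEVELS OF THE BLOCKS: `E i k` = the block `k` has a level which spoils the scale `i`, it sees
the block `B k` only. The event `some block k ∈ S spoils i in one of the copies` is invariant under the exchange of any
union of blocks. -/
theorem levels_inv {ι : Type*} {A : Set Pt} {B : ι → Set Pt} (hB : ∀ k, B k ⊆ A ∨ Disjoint (B k) A) {E : ι → Set Env}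
    (hE : ∀ k, Off (B k)ᶜ (E k)) (S : Set ι) (a : Pt) (w : Env × Env) :
    (∃ k ∈ S, sw A a w ∈ either a (E k)) ↔ ∃ k ∈ S, w ∈ either a (E k) := by
  refine exists_congr fun k => and_congr_right fun _ => ?_
  rcases hB k with h | h
  · exact either_in ((hE k).mono (Set.compl_subset_compl.2 h)) a w
  · exact either_off ((hE k).mono fun p hp hq => (Set.disjoint_left.1 h) hq hp) a w

/-! ### Nested exchanges -/

theorem sw_comp {A A' : Set Pt} (h : A ⊆ A') (a : Pt) (w : Env × Env) : sw A' a (sw A a w) = sw (A' \ A) a w := by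
  refine ext2 (a := a) ?_ ?_
  · rw [fs_sw, sn_sw, fs_sw, fs_sw]
    funext p
    by_cases h1 : p ∈ A
    · rw [gl_of_mem (h h1), gl_of_mem h1, gl_of_not_mem fun hh => hh.2 h1]
    · by_cases h2 : p ∈ A'
      · rw [gl_of_mem h2, gl_of_not_mem h1, gl_of_mem (show p ∈ A' \ A from ⟨h2, h1⟩)]
      · rw [gl_of_not_mem h2, gl_of_not_mem h1, gl_of_not_mem fun hh => h2 hh.1]
  · rw [sn_sw, fs_sw, sn_sw, sn_sw]
    funext p
    by_cases h1 : p ∈ A
    · rw [gl_of_mem (h h1), gl_of_mem h1, gl_of_not_mem fun hh => hh.2 h1]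
    · by_cases h2 : p ∈ A'
      · rw [gl_of_mem h2, gl_of_not_mem h1, gl_of_mem (show p ∈ A' \ A from ⟨h2, h1⟩)]
      · rw [gl_of_not_mem h2, gl_of_not_mem h1, gl_of_not_mem fun hh => h2 hh.1]

/-! ### Fresh blocks in both copies -/

/-- The block `B` of the first copy and the block `B + a` of the second copy are taken from `η`. -/
def ref2 (B : Set Pt) (a : Pt) (η w : Env × Env) : Env × Env :=
  (gl B (fs η) (fs w), sh (-a) (gl B (sn a η) (sn a w)))

theorem fs_ref2 (B : Set Pt) (a : Pt) (η w : Env × Env) : fs (ref2 B a η w) = gl B (fs η) (fs w) := rfl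

theorem sn_ref2 (B : Set Pt) (a : Pt) (η w : Env × Env) : sn a (ref2 B a η w) = gl B (sn a η) (sn a w) :=
  sh_sh_neg a (gl B (sn a η) (sn a w))

theorem mp_ref2 (B : Set Pt) (a : Pt) : MeasurePreserving (fun q : (Env × Env) × (Env × Env) => ref2 B a q.1 q.2)
    (((law μ).prod (law μ)).prod ((law μ).prod (law μ))) ((law μ).prod (law μ)) := by
  have h0 : MeasurePreserving (Prod.map (Prod.map id (sh a)) (Prod.map id (sh a)) :
      (Env × Env) × (Env × Env) → (Env × Env) × (Env × Env))
      (((law μ).prod (law μ)).prod ((law μ).prod (law μ))) (((law μ).prod (law μ)).prod ((law μ).prod (law μ))) :=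
    ((MeasurePreserving.id (law μ)).prod (mp_sh a)).prod ((MeasurePreserving.id (law μ)).prod (mp_sh a))
  have h1 : MeasurePreserving (fun q : (Env × Env) × (Env × Env) => ((q.1.1, q.2.1), (q.1.2, q.2.2)))
      (((law μ).prod (law μ)).prod ((law μ).prod (law μ))) (((law μ).prod (law μ)).prod ((law μ).prod (law μ))) := mp_mid
  have h2 : MeasurePreserving (Prod.map (fun q : Env × Env => gl B q.1 q.2) (fun q : Env × Env => gl B q.1 q.2))
      (((law μ).prod (law μ)).prod ((law μ).prod (law μ))) ((law μ).prod (law μ)) := (mp_gl B).prod (mp_gl B)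
  have h3 : MeasurePreserving (Prod.map id (sh (-a)) : Env × Env → Env × Env) ((law μ).prod (law μ))
      ((law μ).prod (law μ)) := (MeasurePreserving.id (law μ)).prod (mp_sh (-a))
  exact h3.comp (h2.comp (h1.comp h0))

theorem ref2_off {B : Set Pt} {E : Set Env} (h : Off B E) (a : Pt) (η w : Env × Env) :
    (fs (ref2 B a η w) ∈ E ↔ fs w ∈ E) ∧ (sn a (ref2 B a η w) ∈ E ↔ sn a w ∈ E) := by
  refine ⟨h.gl _ _, ?_⟩
  rw [sn_ref2]
  exact h.gl _ _

theorem ref2_both_off {B : Set Pt} {E : Set Env} (h : Off B E) (a : Pt) (η w : Env × Env) :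
    ref2 B a η w ∈ both a E ↔ w ∈ both a E :=
  and_congr (ref2_off h a η w).1 (ref2_off h a η w).2

theorem ref2_either_off {B : Set Pt} {E : Set Env} (h : Off B E) (a : Pt) (η w : Env × Env) :
    ref2 B a η w ∈ either a E ↔ w ∈ either a E :=
  or_congr (ref2_off h a η w).1 (ref2_off h a η w).2

/-! ### The comparison for the pair from the comparison for one copy -/

/-- Product weights: if in each copy the weight of the normal contents is at most `C` times the weight of the normal
successful ones, the same holds for the pair with `C ^ 2`. -/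
theorem cmp_two {f g : Env → ℝ≥0∞} (hf : Measurable f) (hg : Measurable g) {N S N' S' : Set Env}
    (hN : MeasurableSet N) (hS : MeasurableSet S) (hN' : MeasurableSet N') (hS' : MeasurableSet S') {C : ℝ≥0∞}
    (h1 : ∫⁻ η in N, f η ∂(law μ) ≤ C * ∫⁻ η in N ∩ S, f η ∂(law μ))
    (h2 : ∫⁻ η in N', g η ∂(law μ) ≤ C * ∫⁻ η in N' ∩ S', g η ∂(law μ)) :
    ∫⁻ q in N ×ˢ N', f q.1 * g q.2 ∂((law μ).prod (law μ)) ≤
      C ^ 2 * ∫⁻ q in (N ∩ S) ×ˢ (N' ∩ S'), f q.1 * g q.2 ∂((law μ).prod (law μ)) := by
  have key : ∀ M M' : Set Env, MeasurableSet M → MeasurableSet M' →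
      ∫⁻ q in M ×ˢ M', f q.1 * g q.2 ∂((law μ).prod (law μ)) = (∫⁻ η in M, f η ∂(law μ)) * ∫⁻ η in M', g η ∂(law μ) := by
    intro M M' hM hM'
    rw [← Measure.prod_restrict]
    exact lintegral_prod_mul hf.aemeasurable hg.aemeasurable
  rw [key N N' hN hN', key _ _ (hN.inter hS) (hN'.inter hS')]
  calc _ ≤ (C * ∫⁻ η in N ∩ S, f η ∂(law μ)) * (C * ∫⁻ η in N' ∩ S', g η ∂(law μ)) := by gcongr
    _ = _ := by ring

/-! ### The exchange at the outermost success, for the law of the environment -/

/-- **EXCHANGE**: `A i` = the inside of the block `i` (increasing in `i`), `J j` = joint success. -/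
theorem exch_two (m : ℕ) (A : ℕ → Set Pt) (a : Pt) {J : ℕ → Set (Env × Env)} (hJ : ∀ i, MeasurableSet (J i))
    (hinv : ∀ i < m, ∀ j < m, i ≤ j → ∀ w, sw (A i) a w ∈ J j ↔ w ∈ J j) {H : Env × Env → ℝ} (hHm : Measurable H)
    (hH : Integrable H ((law μ).prod (law μ))) :
    |∫ w, H w ∂((law μ).prod (law μ))| ≤
      (1 / 2) * ∑ i ∈ Finset.range m, ∫ w in H54.outer J m i, |H w + H (sw (A i) a w)| ∂((law μ).prod (law μ)) +
      ∫ w in {w | ∀ i < m, w ∉ J i}, |H w| ∂((law μ).prod (law μ)) :=
  H54.exch54 m (σ := fun i => sw (A i) a) (fun i _ => mp_sw (A i) a) hJ hinv hHm hH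

/-- The joint success `both copies are in S j and no level spoils j in one of the copies` satisfies the hypothesis of
`exch_two`: `S j` does not see the inside `A j`, the levels see one block each. -/
theorem joint_inv {ι : Type*} {m : ℕ} {A : ℕ → Set Pt} (hA : ∀ i j, i ≤ j → A i ⊆ A j) {B : ι → Set Pt}
    (hB : ∀ i < m, ∀ k, B k ⊆ A i ∨ Disjoint (B k) (A i)) {S : ℕ → Set Env} (hS : ∀ j < m, Off (A j) (S j))
    {E : ℕ → ι → Set Env} (hE : ∀ j k, Off (B k)ᶜ (E j k)) (K : ℕ → Set ι) (a : Pt) :
    ∀ i < m, ∀ j < m, i ≤ j → ∀ w,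
      sw (A i) a w ∈ both a (S j) \ {w | ∃ k ∈ K j, w ∈ either a (E j k)} ↔
        w ∈ both a (S j) \ {w | ∃ k ∈ K j, w ∈ either a (E j k)} := by
  intro i hi j hj hij w
  have h1 := both_off ((hS j hj).mono (hA i j hij)) a w
  have h2 := levels_inv (hB i hi) (hE j) (K j) a w
  exact and_congr h1 (not_congr h2)

/-- The two halves: `SA j` (outer half of the block `j` and everything outside) does not see the exchanged region `A j`;
`SB j` (inner half of the block `j`) sees only its own sites `Q j ⊆ A j`, which are disjoint from `A i` for `i < j`. The joint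
success `both copies in SA j and in SB j, no level spoils j` satisfies the hypothesis of `exch_two`. -/
theorem joint_inv2 {ι : Type*} {m : ℕ} {A Q : ℕ → Set Pt} (hA : ∀ i j, i ≤ j → A i ⊆ A j) (hQ : ∀ j, Q j ⊆ A j)
    (hQd : ∀ i j, i < j → Disjoint (Q j) (A i)) {B : ι → Set Pt} (hB : ∀ i < m, ∀ k, B k ⊆ A i ∨ Disjoint (B k) (A i))
    {SA SB : ℕ → Set Env} (hSA : ∀ j < m, Off (A j) (SA j)) (hSB : ∀ j < m, Off (Q j)ᶜ (SB j))
    {E : ℕ → ι → Set Env} (hE : ∀ j k, Off (B k)ᶜ (E j k)) (K : ℕ → Set ι) (a : Pt) :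
    ∀ i < m, ∀ j < m, i ≤ j → ∀ w,
      sw (A i) a w ∈ (both a (SA j) ∩ both a (SB j)) \ {w | ∃ k ∈ K j, w ∈ either a (E j k)} ↔
        w ∈ (both a (SA j) ∩ both a (SB j)) \ {w | ∃ k ∈ K j, w ∈ either a (E j k)} := by
  intro i hi j hj hij w
  have h1 := both_off ((hSA j hj).mono (hA i j hij)) a w
  have h2 := levels_inv (hB i hi) (hE j) (K j) a w
  have h3 : sw (A i) a w ∈ both a (SB j) ↔ w ∈ both a (SB j) := by
    rcases Nat.lt_or_ge i j with h | h
    · exact both_off ((hSB j hj).mono fun p hp hq => (Set.disjoint_left.1 (hQd i j h)) hq hp) a w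
    · have e : i = j := le_antisymm hij h
      subst e
      exact both_in ((hSB i hj).mono (Set.compl_subset_compl.2 (hQ i))) a w
  exact and_congr (and_congr h1 h3) (not_congr h2)

end

end Pool.Agent.W_7d29a1_C1.Sw9
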