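import Pool.Agent.W_7d29a1_C1.Tile10
import Pool.Agent.W_7d29a1_C1.Sw9

/-!
MP_7d29a1_pr, attractor route, the shell (helper10): the tower of a site over the grid of `Tile10`. `x k c` = the base point of the box of
level `k` of the site `c`, `A k` = a region around the base point (`Nest`: the region of the box `v` lies in the region of the box
`v + 1`), `Sl v c` = the slab between the regions of the levels `v` and `v + 1`, `lv v c` = a variable of this slab, seen from the boxes.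
The slabs below the level `t` move with the box of level `t`, the slabs above stay.
-/

set_option autoImplicit false

namespace Pool.Agent.W_7d29a1_C1.T10

open MeasureTheory
open Pool.Agent.W_7d29a1_F
open Pool.Agent.W_7d29a1_C1.S71

noncomputable section

/-- A site as a point of the plane. -/
def pt (b : ℕ × ℤ) : Pt := ((b.1 : ℤ), b.2)

theorem pt_add (a b : ℕ × ℤ) : pt (a + b) = pt a + pt b :=
  Prod.ext (by show ((a.1 + b.1 : ℕ) : ℤ) = (a.1 : ℤ) + (b.1 : ℤ); push_cast; ring) rfl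

theorem pt_zero : pt 0 = 0 := rfl

theorem pt_inj {a b : ℕ × ℤ} (h : pt a = pt b) : a = b := by
  have h0 : (((a.1 : ℤ), a.2) : ℤ × ℤ) = ((b.1 : ℤ), b.2) := h
  rw [Prod.mk.injEq] at h0
  exact Prod.ext (by exact_mod_cast h0.1) h0.2

/-- The set `A` around the point `p`. -/
def At (p : Pt) (A : Set Pt) : Set Pt := {q | q - p ∈ A}

theorem mem_At {p q : Pt} {A : Set Pt} : q ∈ At p A ↔ q - p ∈ A := Iff.rfl

theorem mem_At_add {p q : Pt} {A : Set Pt} : q + p ∈ At p A ↔ q ∈ A := by rw [mem_At, add_sub_cancel_right]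

namespace Gd

variable {G : Gd} {L : ℕ}

/-- The base point of the box of level `k`. -/
def x (G : Gd) (k : ℕ) (c : ℕ × ℤ) : Pt := pt (G.z k c)

/-- The place of the box of level `v` in the box of level `v + 1`. -/
def dg (G : Gd) (v : ℕ) (c : ℕ × ℤ) : ℕ × ℤ := G.z v (G.rel (v + 1) c)

theorem Ok.z_dg (h : G.Ok L) {v : ℕ} (hv : v < L) (c : ℕ × ℤ) : G.z v c = G.z (v + 1) c + G.dg v c :=
  h.z_le (Nat.le_succ v) hv c

theorem Ok.x_dg (h : G.Ok L) {v : ℕ} (hv : v < L) (c : ℕ × ℤ) : G.x v c = G.x (v + 1) c + pt (G.dg v c) := by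
  unfold x
  rw [h.z_dg hv, pt_add]

theorem Ok.x_le (h : G.Ok L) {v t : ℕ} (hvt : v ≤ t) (ht : t ≤ L) (c : ℕ × ℤ) : G.x v c = G.x t c + pt (G.z v (G.rel t c)) := by
  unfold x
  rw [← pt_add, ← h.z_le hvt ht]

theorem x_congr {k : ℕ} {c d : ℕ × ℤ} (h : G.z k c = G.z k d) : G.x k c = G.x k d := by
  unfold x
  rw [h]

theorem Ok.x_nested (h : G.Ok L) {t v : ℕ} (htv : t ≤ v) (hv : v ≤ L) {c d : ℕ × ℤ} (hcd : G.z t c = G.z t d) :
    G.x v c = G.x v d := x_congr (h.z_nested htv hv hcd)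

/-- The places above the level `t` are functions of the box of level `t`. -/
theorem Ok.dg_congr (h : G.Ok L) {t v : ℕ} (htv : t ≤ v) (hv : v < L) {c d : ℕ × ℤ} (hcd : G.z t c = G.z t d) :
    G.dg v c = G.dg v d := by
  have h1 := h.z_dg hv c
  have h2 := h.z_dg hv d
  rw [h.z_nested htv hv.le hcd, h.z_nested (htv.trans (Nat.le_succ v)) hv hcd, h2] at h1
  exact (add_left_cancel h1).symm

/-- The places below the level `t` are those of the transplanted site. -/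
theorem Ok.dg_tr (h : G.Ok L) {t v : ℕ} (hvt : v + 1 ≤ t) (ht : t ≤ L) (a b : ℕ × ℤ) :
    G.dg v (G.z t a + G.rel t b) = G.dg v b := by
  unfold dg
  rw [h.rel_tr hvt ht]

/-! ### Nested regions -/

/-- The region of the box of level `v` lies in the region of its box of level `v + 1`. -/
def Nest (G : Gd) (L : ℕ) (A : ℕ → Set Pt) : Prop := ∀ v, v < L → ∀ c : ℕ × ℤ, ∀ q ∈ A v, q + pt (G.dg v c) ∈ A (v + 1)

variable {A : ℕ → Set Pt}

theorem Ok.nest_pt (h : G.Ok L) (hA : G.Nest L A) {u v : ℕ} (huv : u ≤ v) (hv : v ≤ L) (c : ℕ × ℤ) {q : Pt} (hq : q ∈ A u) :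
    q + (G.x u c - G.x v c) ∈ A v := by
  induction v, huv using Nat.le_induction with
  | base =>
    rw [sub_self, add_zero]
    exact hq
  | succ v huv ih =>
    have h1 := hA v (by omega) c _ (ih (by omega))
    have h2 := h.x_dg (show v < L by omega) c
    have e : q + (G.x u c - G.x v c) + pt (G.dg v c) = q + (G.x u c - G.x (v + 1) c) := by
      rw [h2]
      abel
    rwa [e] at h1

/-- **Nested.** -/
theorem Ok.nest_le (h : G.Ok L) (hA : G.Nest L A) {u v : ℕ} (huv : u ≤ v) (hv : v ≤ L) (c : ℕ × ℤ) :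
    At (G.x u c) (A u) ⊆ At (G.x v c) (A v) := fun q hq => by
  have h1 := h.nest_pt hA huv hv c (show q - G.x u c ∈ A u from hq)
  have e : q - G.x u c + (G.x u c - G.x v c) = q - G.x v c := by abel
  rwa [e] at h1

/-- The region of a box of level `v` inside the region of the box of level `t`, from the base point of the latter. -/
theorem Ok.nest_rel (h : G.Ok L) (hA : G.Nest L A) {v t : ℕ} (hvt : v ≤ t) (ht : t ≤ L) (c : ℕ × ℤ) {q : Pt} (hq : q ∈ A v) :
    q + pt (G.z v (G.rel t c)) ∈ A t := by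
  have h1 := h.nest_pt hA hvt ht c hq
  rw [h.x_le hvt ht c] at h1
  have e : q + (G.x t c + pt (G.z v (G.rel t c)) - G.x t c) = q + pt (G.z v (G.rel t c)) := by abel
  rwa [e] at h1

/-- The slab between the levels `v` and `v + 1`. -/
def Sl (G : Gd) (A : ℕ → Set Pt) (v : ℕ) (c : ℕ × ℤ) : Set Pt := At (G.x (v + 1) c) (A (v + 1)) \ At (G.x v c) (A v)

/-- The slabs below the level `t` are inside. -/
theorem Ok.Sl_sub (h : G.Ok L) (hA : G.Nest L A) {v t : ℕ} (hvt : v + 1 ≤ t) (ht : t ≤ L) (c : ℕ × ℤ) :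
    G.Sl A v c ⊆ At (G.x t c) (A t) := fun _ hq => h.nest_le hA hvt ht c hq.1

/-- The slabs above the level `t` are outside. -/
theorem Ok.Sl_disj (h : G.Ok L) (hA : G.Nest L A) {v t : ℕ} (htv : t ≤ v) (hv : v ≤ L) (c : ℕ × ℤ) :
    Disjoint (G.Sl A v c) (At (G.x t c) (A t)) :=
  Set.disjoint_left.2 fun _ hq hq2 => hq.2 (h.nest_le hA htv hv c hq2)

theorem Ok.Sl_pair (h : G.Ok L) (hA : G.Nest L A) {u v : ℕ} (huv : u < v) (hv : v ≤ L) (c : ℕ × ℤ) :
    Disjoint (G.Sl A u c) (G.Sl A v c) :=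
  Set.disjoint_left.2 fun _ hq hq2 => hq2.2 (h.Sl_sub hA huv hv c hq)

theorem Sl_union {t : ℕ} (c : ℕ × ℤ) {q : Pt} (hq : q ∈ At (G.x t c) (A t)) :
    q ∈ At (G.x 0 c) (A 0) ∨ ∃ v, v < t ∧ q ∈ G.Sl A v c := by
  induction t with
  | zero => exact Or.inl hq
  | succ t ih =>
    by_cases h1 : q ∈ At (G.x t c) (A t)
    · rcases ih h1 with h2 | ⟨v, hv, h2⟩
      · exact Or.inl h2
      · exact Or.inr ⟨v, by omega, h2⟩
    · exact Or.inr ⟨t, Nat.lt_succ_self t, hq, h1⟩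

/-- The slabs of two sites of the same box. -/
theorem Ok.Sl_congr (h : G.Ok L) {t v : ℕ} (htv : t ≤ v) (hv : v < L) {c d : ℕ × ℤ} (hcd : G.z t c = G.z t d) :
    G.Sl A v c = G.Sl A v d := by
  unfold Sl
  rw [h.x_nested (htv.trans (Nat.le_succ v)) hv hcd, h.x_nested htv hv.le hcd]

/-! ### Variables of the slabs -/

variable {β : Type*}

/-- `Lv v o` reads the slab `v` when the box of level `v` is at the place `o`. -/
def Rd (A : ℕ → Set Pt) (Lv : ℕ → ℕ × ℤ → Env → β) : Prop := ∀ v o, OffF (A (v + 1) \ At (pt o) (A v))ᶜ (Lv v o)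

/-- The variable of the slab `v` of the site `c`. -/
def lv (G : Gd) (Lv : ℕ → ℕ × ℤ → Env → β) (v : ℕ) (c : ℕ × ℤ) (η : Env) : β := Lv v (G.dg v c) (sh (G.x (v + 1) c) η)

/-- The variable seen from a region `A t` (`y.1` = the place of the box `v` in the box `v + 1`, `y.2` = the place of the box `v + 1` in the
box `t`). -/
def Lt (A : ℕ → Set Pt) (Lv : ℕ → ℕ × ℤ → Env → β) (t v : ℕ) (y : (ℕ × ℤ) × (ℕ × ℤ)) (ζ : Env) : β :=
  Lv v y.1 (sh (pt y.2) (gl (A t) ζ 0))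

/-- The place of the slab `v` in the box of level `t`. -/
def ps (G : Gd) (t v : ℕ) (c : ℕ × ℤ) : (ℕ × ℤ) × (ℕ × ℤ) := (G.dg v c, G.z (v + 1) (G.rel t c))

variable {Lv : ℕ → ℕ × ℤ → Env → β}

/-- The variable reads the slab only. -/
theorem Ok.lv_read (h : G.Ok L) (hL : Rd A Lv) {v : ℕ} (hv : v < L) (c : ℕ × ℤ) : OffF (G.Sl A v c)ᶜ (G.lv Lv v c) :=
  fun η η' hη => by
    unfold lv
    refine hL v _ _ _ fun p hp => ?_
    rw [Set.mem_compl_iff, not_not] at hp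
    refine hη (p + G.x (v + 1) c) ?_
    rw [Set.mem_compl_iff, not_not]
    refine ⟨mem_At_add.2 hp.1, fun h2 => hp.2 ?_⟩
    have e : p + G.x (v + 1) c - G.x v c = p - pt (G.dg v c) := by
      rw [h.x_dg hv c]
      abel
    have h3 : p + G.x (v + 1) c - G.x v c ∈ A v := h2
    rw [e] at h3
    exact h3

/-- The slabs above the level `t` do not see the region of the level `t`. -/
theorem Ok.lv_out (h : G.Ok L) (hA : G.Nest L A) (hL : Rd A Lv) {t v : ℕ} (htv : t ≤ v) (hv : v < L) (c : ℕ × ℤ) :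
    OffF (At (G.x t c) (A t)) (G.lv Lv v c) :=
  (h.lv_read hL hv c).mono fun _ hq hq2 => Set.disjoint_left.1 (h.Sl_disj hA htv hv.le c) hq2 hq

/-- The variables above the level `t` are functions of the box of level `t`. -/
theorem Ok.lv_congr (h : G.Ok L) {t v : ℕ} (htv : t ≤ v) (hv : v < L) {c d : ℕ × ℤ} (hcd : G.z t c = G.z t d) :
    G.lv Lv v c = G.lv Lv v d := by
  unfold lv
  rw [h.dg_congr htv hv hcd, h.x_nested (htv.trans (Nat.le_succ v)) hv hcd]

/-- The variables below the level `t`, seen from the box of level `t`. -/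
theorem Ok.lv_in (h : G.Ok L) (hA : G.Nest L A) (hL : Rd A Lv) {t v : ℕ} (hvt : v + 1 ≤ t) (ht : t ≤ L) (c : ℕ × ℤ) (η : Env) :
    G.lv Lv v c η = Lt A Lv t v (G.ps t v c) (sh (G.x t c) η) := by
  unfold lv Lt ps
  refine hL v _ _ _ fun p hp => ?_
  rw [Set.mem_compl_iff, not_not] at hp
  have h1 := h.nest_rel hA hvt ht c hp.1
  show η (p + G.x (v + 1) c) = gl (A t) (sh (G.x t c) η) 0 (p + pt (G.z (v + 1) (G.rel t c)))
  rw [gl_of_mem h1, h.x_le hvt ht c]
  show η (p + (G.x t c + pt (G.z (v + 1) (G.rel t c)))) = η (p + pt (G.z (v + 1) (G.rel t c)) + G.x t c)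
  congr 1
  abel

/-- The variable seen from the region reads the region only. -/
theorem Lt_read (t v : ℕ) (y : (ℕ × ℤ) × (ℕ × ℤ)) : OffF (A t)ᶜ (Lt A Lv t v y) := fun η η' hη => by
  unfold Lt
  have e : gl (A t) η 0 = gl (A t) η' 0 := by
    funext p
    by_cases hp : p ∈ A t
    · rw [gl_of_mem hp, gl_of_mem hp]
      exact hη p (by rw [Set.mem_compl_iff, not_not]; exact hp)
    · rw [gl_of_not_mem hp, gl_of_not_mem hp]
  rw [e]

theorem Ok.ps_tr (h : G.Ok L) {t v : ℕ} (hvt : v + 1 ≤ t) (ht : t ≤ L) (a b : ℕ × ℤ) :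
    G.ps t v (G.z t a + G.rel t b) = G.ps t v b := by
  unfold ps
  rw [h.dg_tr hvt ht, h.rel_tr le_rfl ht]

/-- **The places are exchanged by the partner map.** -/
theorem Ok.ps_pm (h : G.Ok L) {t v : ℕ} (hvt : v + 1 ≤ t) (ht : t ≤ L) (c : (ℕ × ℤ) × (ℕ × ℤ)) :
    G.ps t v (G.pm t c).1 = G.ps t v c.2 ∧ G.ps t v (G.pm t c).2 = G.ps t v c.1 := ⟨h.ps_tr hvt ht _ _, h.ps_tr hvt ht _ _⟩

/-- The base points of the levels `≥ t` are not changed by the partner map. -/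
theorem Ok.x_pm (h : G.Ok L) {t u : ℕ} (htu : t ≤ u) (hu : u ≤ L) (c : (ℕ × ℤ) × (ℕ × ℤ)) :
    G.x u (G.pm t c).1 = G.x u c.1 ∧ G.x u (G.pm t c).2 = G.x u c.2 :=
  ⟨x_congr (h.pm_z htu hu c).1, x_congr (h.pm_z htu hu c).2⟩

theorem Ok.lv_pm (h : G.Ok L) {t v : ℕ} (htv : t ≤ v) (hv : v < L) (c : (ℕ × ℤ) × (ℕ × ℤ)) :
    G.lv Lv v (G.pm t c).1 = G.lv Lv v c.1 ∧ G.lv Lv v (G.pm t c).2 = G.lv Lv v c.2 :=
  ⟨h.lv_congr htv hv (h.pm_z le_rfl (htv.trans hv.le) c).1, h.lv_congr htv hv (h.pm_z le_rfl (htv.trans hv.le) c).2⟩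

theorem measurable_lv [MeasurableSpace β] (hm : ∀ v o, Measurable (Lv v o)) (v : ℕ) (c : ℕ × ℤ) : Measurable (G.lv Lv v c) :=
  (hm v _).comp (measurable_pi_lambda _ fun _ => measurable_pi_apply _)

/-- The place of the box of level `k` and the position in it determine the position in the higher box. -/
theorem Ok.rel_le (h : G.Ok L) {k j : ℕ} (hkj : k ≤ j) (hj : j ≤ L) (c : ℕ × ℤ) :
    G.rel j c = G.z k (G.rel j c) + G.rel k c := by
  have h1 := h.z_add_rel (hkj.trans hj) (G.rel j c)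
  rw [h.rel_rel hkj hj] at h1
  exact h1.symm

/-! ### Rows -/

/-- The rows `-lo v ≤ row < hi v` around the base point. -/
def RA (lo hi : ℕ → ℤ) (v : ℕ) : Set Pt := {q | -lo v ≤ q.1 ∧ q.1 < hi v}

/-- The row of the place of a box of level `v` in a box of level `t`. -/
theorem Ok.row_place (h : G.Ok L) {v t : ℕ} (hvt : v ≤ t) (ht : t ≤ L) (c : ℕ × ℤ) :
    (G.z v (G.rel t c)).1 + G.H v ≤ G.H t := by
  obtain ⟨e, he⟩ := h.dvdH hvt ht
  have v0 := h.H0 v (hvt.trans ht)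
  have t0 := h.H0 t ht
  show G.H v * (c.1 % G.H t / G.H v) + G.H v ≤ G.H t
  have h1 : c.1 % G.H t / G.H v < e := by
    rw [Nat.div_lt_iff_lt_mul v0, mul_comm, ← he]
    exact Nat.mod_lt _ t0
  calc G.H v * (c.1 % G.H t / G.H v) + G.H v = G.H v * (c.1 % G.H t / G.H v + 1) := by ring
    _ ≤ G.H v * e := Nat.mul_le_mul_left _ h1
    _ = G.H t := he.symm

/-- **Rows are nested.** -/
theorem Ok.nest_rows (h : G.Ok L) {lo hi : ℕ → ℤ} (hlo : ∀ v, v < L → lo v ≤ lo (v + 1))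
    (hhi : ∀ v, v < L → (G.H (v + 1) : ℤ) - G.H v + hi v ≤ hi (v + 1)) : G.Nest L (RA lo hi) := fun v hv c q hq => by
  have h1 := h.row_place (Nat.le_succ v) hv c
  have h2 : (((G.z v (G.rel (v + 1) c)).1 : ℕ) : ℤ) + G.H v ≤ G.H (v + 1) := by exact_mod_cast h1
  have h3 : (0 : ℤ) ≤ (((G.z v (G.rel (v + 1) c)).1 : ℕ) : ℤ) := by positivity
  have a1 := hlo v hv
  have a2 := hhi v hv
  have q1 := hq.1
  have q2 := hq.2
  refine ⟨?_, ?_⟩
  · show -lo (v + 1) ≤ q.1 + (((G.z v (G.rel (v + 1) c)).1 : ℕ) : ℤ)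
    omega
  · show q.1 + (((G.z v (G.rel (v + 1) c)).1 : ℕ) : ℤ) < hi (v + 1)
    omega

theorem mem_At_RA {lo hi : ℕ → ℤ} {v : ℕ} {p q : Pt} : q ∈ At p (RA lo hi v) ↔ p.1 - lo v ≤ q.1 ∧ q.1 < p.1 + hi v := by
  show (-lo v ≤ (q - p).1 ∧ (q - p).1 < hi v) ↔ _
  have e : (q - p).1 = q.1 - p.1 := rfl
  rw [e]
  constructor <;> rintro ⟨h1, h2⟩ <;> constructor <;> omega

/-- **The region of a box of level `v` in a box of level `t`**: its rows, from the base of the latter. -/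
theorem Ok.rows_in (h : G.Ok L) {lo hi : ℕ → ℤ} {v t : ℕ} (hvt : v ≤ t) (ht : t ≤ L) (c : ℕ × ℤ) {q : Pt}
    (hq : q ∈ At (G.x v c) (RA lo hi v)) :
    ((G.z t c).1 : ℤ) - lo v ≤ q.1 ∧ q.1 < ((G.z t c).1 : ℤ) + ((G.H t : ℤ) - G.H v + hi v) := by
  rw [mem_At_RA] at hq
  have h1 := h.row_place hvt ht c
  have h2 : (((G.z v (G.rel t c)).1 : ℕ) : ℤ) + G.H v ≤ G.H t := by exact_mod_cast h1
  have h3 : (0 : ℤ) ≤ (((G.z v (G.rel t c)).1 : ℕ) : ℤ) := by positivity
  have h4 : (G.x v c).1 = ((G.z t c).1 : ℤ) + (((G.z v (G.rel t c)).1 : ℕ) : ℤ) := by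
    rw [h.x_le hvt ht c]
    rfl
  rw [h4] at hq
  constructor <;> omega

/-- The rows of a site in its box. -/
theorem Ok.row_x (h : G.Ok L) {k : ℕ} (hk : k ≤ L) (c : ℕ × ℤ) : (G.x k c).1 ≤ (c.1 : ℤ) ∧ (c.1 : ℤ) < (G.x k c).1 + G.H k := by
  have h1 := G.row_le k c
  have h2 := h.row_lt hk c
  constructor
  · show (((G.z k c).1 : ℕ) : ℤ) ≤ (c.1 : ℤ)
    exact_mod_cast h1
  · show (c.1 : ℤ) < (((G.z k c).1 : ℕ) : ℤ) + G.H k
    exact_mod_cast h2

/-! ### The places of the boxes of level `v` in a box of level `t` -/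

/-- The places of the boxes of level `v` in a box of level `t`. -/
def subs (G : Gd) (v t : ℕ) : Finset (ℕ × ℤ) :=
  (Finset.range (G.H t / G.H v) ×ˢ Finset.range (G.V t / G.V v)).image fun w =>
    (G.H v * w.1, G.s (G.H v * w.1) + (G.V v : ℤ) * (w.2 : ℤ))

theorem Ok.mem_subs (h : G.Ok L) {v t : ℕ} (hvt : v ≤ t) (ht : t ≤ L) (c : ℕ × ℤ) : G.z v (G.rel t c) ∈ G.subs v t := by
  obtain ⟨e, he⟩ := h.dvdH hvt ht
  obtain ⟨f, hf⟩ := h.dvdV hvt ht
  have v0 := h.H0 v (hvt.trans ht)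
  have t0 := h.H0 t ht
  have V0 := h.V0 v (hvt.trans ht)
  have V0' := h.V0' (hvt.trans ht)
  have T0' := h.V0' ht
  have hu : G.u (G.rel t c) = G.u c % G.V t := by
    show G.s (c.1 % G.H t) + G.u c % G.V t - G.s (c.1 % G.H t) = _
    ring
  have hn : 0 ≤ G.u c % G.V t / G.V v := Int.ediv_nonneg (Int.emod_nonneg _ T0'.ne') V0'.le
  unfold subs
  rw [Finset.mem_image]
  refine ⟨(c.1 % G.H t / G.H v, (G.u c % G.V t / G.V v).toNat), ?_, ?_⟩
  · rw [Finset.mem_product, Finset.mem_range, Finset.mem_range]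
    constructor
    · show c.1 % G.H t / G.H v < G.H t / G.H v
      rw [he, Nat.mul_div_cancel_left _ v0]
      exact Nat.div_lt_of_lt_mul (Nat.mod_lt _ (he ▸ t0))
    · show (G.u c % G.V t / G.V v).toNat < G.V t / G.V v
      have h1 : G.V t / G.V v = f := by rw [hf, Nat.mul_div_cancel_left _ V0]
      rw [h1]
      have h2 : G.u c % G.V t / G.V v < (f : ℤ) := by
        rw [Int.ediv_lt_iff_lt_mul V0']
        have h3 := Int.emod_lt_of_pos (G.u c) T0'
        have h4 : (G.V t : ℤ) = (f : ℤ) * G.V v := by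
          rw [hf]
          push_cast
          ring
        rwa [h4] at h3 ⊢
      omega
  · show (G.H v * (c.1 % G.H t / G.H v), G.s (G.H v * (c.1 % G.H t / G.H v)) + (G.V v : ℤ) *
      (((G.u c % G.V t / G.V v).toNat : ℕ) : ℤ)) = G.z v (G.rel t c)
    unfold z
    rw [hu, Int.toNat_of_nonneg hn]
    rfl

theorem card_subs (G : Gd) (v t : ℕ) : (G.subs v t).card ≤ (G.H t / G.H v) * (G.V t / G.V v) := by
  unfold subs
  refine Finset.card_image_le.trans ?_
  rw [Finset.card_product, Finset.card_range, Finset.card_range]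

end Gd

end

end Pool.Agent.W_7d29a1_C1.T10
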