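import Pool.Agent.W_7d29a1_C1.Rng60
import Pool.Agent.W_7d29a1_C1.Tow10

/-!
Both halves (MP_7d29a1_pr), attractor route: THE CHAIN OF THE BOXES OVER helper10's TOWER (helper60).

Boxes `G.z i c`, regions `A v` around the base points (`Nest`), resampled ball of the box of level `i` = the region of level `i + m₂`,
slabs `v < L`, ranges `lvL Lv L v c`, usable scales blind to the ball, block events blind to the region of level `j - g`.
`BoxR.tower` : the structure `BoxR`; `rsumT60` : the sum of the ranges.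
-/

set_option autoImplicit false
set_option linter.unusedSectionVars false

namespace Pool.Agent.W_7d29a1_C1.H60

open MeasureTheory ProbabilityTheory
open Pool.Agent.W_7d29a1_F Pool.Agent.W_7d29a1_C1.S71 Pool.Agent.W_7d29a1_C1.Sw9
open Pool.Agent.W_7d29a1_C1.T10
open scoped ENNReal

noncomputable section

variable {μ : Measure ℝ} [IsProbabilityMeasure μ] {G : Gd} {L : ℕ} {A : ℕ → Set Pt} {Lv : ℕ → ℕ × ℤ → Env → ℕ}

/-- The ranges of the slabs `v < L`; no slab above. -/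
def lvL (G : Gd) (Lv : ℕ → ℕ × ℤ → Env → ℕ) (L v : ℕ) (c : ℕ × ℤ) (η : Env) : ℕ := if v < L then G.lv Lv v c η else 0

theorem lvL_lt {v : ℕ} (hv : v < L) (c : ℕ × ℤ) : lvL G Lv L v c = G.lv Lv v c := by
  funext η
  unfold lvL
  rw [if_pos hv]

theorem lvL_ge {v : ℕ} (hv : ¬ v < L) (c : ℕ × ℤ) : lvL G Lv L v c = fun _ => 0 := by
  funext η
  unfold lvL
  rw [if_neg hv]

theorem measurable_lvL (hm : ∀ v o, Measurable (Lv v o)) (v : ℕ) (c : ℕ × ℤ) : Measurable (lvL G Lv L v c) := by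
  by_cases hv : v < L
  · rw [lvL_lt hv]
    exact Gd.measurable_lv hm v c
  · rw [lvL_ge hv]
    exact measurable_const

/-- The resampled ball of the box `Q` of level `i`. -/
def Bl (G : Gd) (A : ℕ → Set Pt) (m₂ i : ℕ) (Q : ℕ × ℤ) : Set Pt := At (G.x (i + m₂) Q) (A (i + m₂))

theorem Bl_z (hG : G.Ok L) {m₂ i : ℕ} (hi : i + m₂ ≤ L) (c : ℕ × ℤ) : Bl G A m₂ i (G.z i c) = At (G.x (i + m₂) c) (A (i + m₂)) := by
  unfold Bl
  rw [Gd.x_congr (hG.z_z (Nat.le_add_right i m₂) hi c)]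

/-- **ONE COPY OVER THE TOWER**; the block events of the scale `j` may depend on the box of the level `j - g`. -/
theorem BoxR.towerP (hG : G.Ok L) (hA : G.Nest L A) (hL : Gd.Rd A Lv) {m m₂ g : ℕ} (h2 : 1 ≤ m₂) (hg : 1 ≤ g)
    (hm : ∀ i < m, i + m₂ ≤ L) {T : Finset (ℕ × ℤ)} {V S : ℕ → ℕ × ℤ → Set Env} {w : ℕ × ℤ → Env → ℝ≥0∞}
    (mV : ∀ j < m, ∀ c ∈ T, MeasurableSet (V j c)) (mS : ∀ j < m, ∀ c ∈ T, MeasurableSet (S j c))
    (mL : ∀ v o, Measurable (Lv v o)) (mw : ∀ c ∈ T, Measurable (w c)) (w1 : ∀ ω, ∑ c ∈ T, w c ω ≤ 1)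
    (oV : ∀ j < m, ∀ c ∈ T, Off (At (G.x (j + m₂) c) (A (j + m₂))) (V j c))
    (eV : ∀ j < m, ∀ c ∈ T, ∀ d ∈ T, G.z j c = G.z j d → V j c = V j d)
    (oS : ∀ j < m, g ≤ j → ∀ c ∈ T, Off (At (G.x (j - g) c) (A (j - g))) (S j c))
    (eS : ∀ j < m, g ≤ j → ∀ c ∈ T, ∀ d ∈ T, G.z (j - g) c = G.z (j - g) d → S j c = S j d) :
    BoxR (law μ) T m (m₂ + g) (fun i => i + m₂ - 1) G.z (fun i Q => gl (Bl G A m₂ i Q)) V S (lvL G Lv L) w := by
  refine BoxR.model mV mS (fun v c _ => measurable_lvL mL v c) mw w1 ?_ ?_ ?_ ?_ ?_ ?_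
  · intro i hi j hij hj c hc
    rw [Bl_z hG (hm i hi)]
    intro η η' he
    exact oV j hj c hc η η' fun p hp => he p fun hp' => hp (hG.nest_le hA (by omega) (hm j hj) c hp')
  · intro i hi j hij hj c hc d hd hcd
    exact eV j hj c hc d hd (hG.z_nested hij ((Nat.le_add_right j m₂).trans (hm j hj)) hcd)
  · intro i hi j hij hj c hc
    rw [Bl_z hG (hm i hi)]
    intro η η' he
    refine oS j hj (by omega) c hc η η' fun p hp => he p fun hp' => hp (hG.nest_le hA (by omega) ?_ c hp')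
    have := hm j hj
    omega
  · intro i hi j hij hj c hc d hd hcd
    refine eS j hj (by omega) c hc d hd (hG.z_nested (show i ≤ j - g by omega) ?_ hcd)
    have := hm j hj
    omega
  · intro i hi v hv c _
    rw [Bl_z hG (hm i hi)]
    by_cases hvL : v < L
    · rw [lvL_lt hvL]
      have hv' : i + m₂ ≤ v := by
        have : i + m₂ - 1 < v := hv
        omega
      exact hG.lv_out hA hL hv' hvL c
    · rw [lvL_ge hvL]
      exact fun _ _ _ => rfl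
  · intro i hi v hv c _ d _ hcd
    by_cases hvL : v < L
    · rw [lvL_lt hvL, lvL_lt hvL]
      have hv' : i ≤ v := by
        have : i + m₂ - 1 < v := hv
        omega
      exact hG.lv_congr hv' hvL hcd
    · rw [lvL_ge hvL, lvL_ge hvL]

/-- **ONE COPY OVER THE TOWER.** -/
theorem BoxR.tower (hG : G.Ok L) (hA : G.Nest L A) (hL : Gd.Rd A Lv) {m m₂ g : ℕ} (h2 : 1 ≤ m₂) (hg : 1 ≤ g)
    (hm : ∀ i < m, i + m₂ ≤ L) {T : Finset (ℕ × ℤ)} {V S : ℕ → ℕ × ℤ → Set Env} {w : ℕ × ℤ → Env → ℝ≥0∞}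
    (mV : ∀ j < m, ∀ c ∈ T, MeasurableSet (V j c)) (mS : ∀ j < m, ∀ c ∈ T, MeasurableSet (S j c))
    (mL : ∀ v o, Measurable (Lv v o)) (mw : ∀ c ∈ T, Measurable (w c)) (w1 : ∀ ω, ∑ c ∈ T, w c ω ≤ 1)
    (oV : ∀ j < m, ∀ c ∈ T, Off (At (G.x (j + m₂) c) (A (j + m₂))) (V j c))
    (eV : ∀ j < m, ∀ c ∈ T, ∀ d ∈ T, G.z j c = G.z j d → V j c = V j d)
    (oS : ∀ j < m, g ≤ j → ∀ c ∈ T, Off (At (G.x (j - g) c) (A (j - g))) (S j c))
    (eS : ∀ j < m, ∀ c ∈ T, ∀ d ∈ T, G.z j c = G.z j d → S j c = S j d) :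
    BoxR (law μ) T m (m₂ + g) (fun i => i + m₂ - 1) G.z (fun i Q => gl (Bl G A m₂ i Q)) V S (lvL G Lv L) w :=
  BoxR.towerP hG hA hL h2 hg hm mV mS mL mw w1 oV eV oS fun j hj _ c hc d hd hcd =>
    eS j hj c hc d hd (hG.z_nested (Nat.sub_le j g) ((Nat.le_add_right j m₂).trans (hm j hj)) hcd)

/-- The two conditions on the outer and the mid rows. -/
theorem io_mi60 {m m₂ g : ℕ} (h2 : 1 ≤ m₂) (hg : 1 ≤ g) :
    (∀ i j, i + (m₂ + g) ≤ j → j < m → i + m₂ - 1 ≤ j - 2) ∧ (∀ i j, i ≤ j → j < m → i + m₂ - 1 + (j - i) ≤ j + m₂ - 1) :=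
  ⟨fun i j h _ => by omega, fun i j h _ => by omega⟩

/-- The level events of the slabs of the site `c`. -/
def ELc (G : Gd) (EL : ℕ → ℕ × ℤ → ℕ → Set Env) (c : ℕ × ℤ) (v l : ℕ) : Set Env := sh (G.x (v + 1) c) ⁻¹' EL v (G.dg v c) l

/-- The range variables of level events. -/
def LvE (Lm : ℕ) (EL : ℕ → ℕ × ℤ → ℕ → Set Env) (v : ℕ) (o : ℕ × ℤ) : Env → ℕ := rng Lm (EL v o)

theorem Rd_LvE {Lm : ℕ} {EL : ℕ → ℕ × ℤ → ℕ → Set Env} (h : ∀ v o l, Off (A (v + 1) \ At (pt o) (A v))ᶜ (EL v o l)) :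
    Gd.Rd A (LvE Lm EL) := fun v o => OffF_rng (h v o)

theorem measurable_LvE {Lm : ℕ} {EL : ℕ → ℕ × ℤ → ℕ → Set Env} (h : ∀ v o l, MeasurableSet (EL v o l)) (v : ℕ) (o : ℕ × ℤ) :
    Measurable (LvE Lm EL v o) := measurable_rng Lm (h v o)

theorem lvL_eq {Lm : ℕ} {EL : ℕ → ℕ × ℤ → ℕ → Set Env} {v : ℕ} (hv : v < L) (c : ℕ × ℤ) :
    lvL G (LvE Lm EL) L v c = rng Lm (ELc G EL c v) := by
  rw [lvL_lt hv]
  rfl

/-- **A SLAB WHICH DOES NOT REACH BEYOND `a`** is in its level event of the range `a - v`. -/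
theorem lev_of60 {Lm : ℕ} {EL : ℕ → ℕ × ℤ → ℕ → Set Env} (mono : ∀ v o i j, i ≤ j → EL v o i ⊆ EL v o j) {a v : ℕ} (hv : v < L)
    (ha : a < Lm) {c : ℕ × ℤ} {η : Env} (h : v + lvL G (LvE Lm EL) L v c η ≤ a) : η ∈ ELc G EL c v (a - v) := by
  rw [lvL_eq hv] at h
  exact mem_of_rng (fun i j hij => Set.preimage_mono (mono v _ i j hij)) (by omega) (show a - v < Lm by omega)

/-- All the slabs `v ≤ a` of a leaf which is not reached at `a`. -/
theorem lev_not60 {Lm : ℕ} {EL : ℕ → ℕ × ℤ → ℕ → Set Env} (mono : ∀ v o i j, i ≤ j → EL v o i ⊆ EL v o j) {a : ℕ} (ha : a < Lm)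
    (haL : a < L) {c : ℕ × ℤ} {η : Env} (h : η ∉ Rch (lvL G (LvE Lm EL) L) a c) {v : ℕ} (hv : v ≤ a) :
    η ∈ ELc G EL c v (a - v) := by
  have hvL : v < L := by omega
  refine lev_of60 mono hvL ha ?_
  by_contra hcc
  exact h ⟨v, hv, not_le.1 hcc⟩

/-- **THE SUM OF THE RANGES OVER THE TOWER.** -/
theorem rsumT60 {A' a g κ b χ ε : ℝ} (hA' : 0 < A') (ha : 0 < a) (hg : 0 < g) (hκ : 1 < κ) (hb : 0 ≤ b) (hχ : 0 < χ) (hε : 0 < ε) :
    ∃ U₀ : ℝ, 1 ≤ U₀ ∧ ∀ U : ℝ, U₀ ≤ U → ∀ (G : Gd) (L Lm : ℕ) (A : ℕ → Set Pt) (EL : ℕ → ℕ × ℤ → ℕ → Set Env), G.Ok L → G.Nest L A →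
      (∀ v o l, MeasurableSet (EL v o l)) → (∀ v o l, Off (A (v + 1) \ At (pt o) (A v))ᶜ (EL v o l)) →
      (∀ v < L, ∀ c l, (law μ).real (EL v (G.dg v c) l)ᶜ ≤ A' * Real.exp (-(a * (U * κ ^ (χ * (l : ℝ))) ^ g))) → ∀ (c : ℕ × ℤ) (r : ℕ),
      law μ {η | r ≤ ∑ v ∈ Finset.range L, lvL G (LvE Lm EL) L v c η} ≤ ENNReal.ofReal ((1 + ε) ^ L / (κ ^ b) ^ r) := by
  obtain ⟨U₀, hU₀, H⟩ := rsum60 (μ := μ) (b := b) hA' ha hg hκ hb hχ hε
  refine ⟨U₀, hU₀, fun U hU G L Lm A EL hG hA mE oE hP c r => ?_⟩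
  have h1 := H U hU L Lm (fun v => G.Sl A v c) (fun v l => ELc G EL c v l)
    (fun i hi j hj hij => hG.Sl_pair hA hij hj.le c)
    (fun v hv l => (mE v _ l).preimage (measurable_sh _))
    (fun v hv l => by
      have h2 := hG.lv_read (Lv := fun v o η => η ∈ EL v o l) (fun v o => Off.toF (oE v o l)) hv c
      intro η η' he
      exact iff_of_eq (h2 η η' he))
    (fun v hv l => by
      refine le_trans (le_of_eq ?_) (hP v hv c l)
      unfold Measure.real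
      congr 1
      exact (mp_sh (μ := μ) (G.x (v + 1) c)).measure_preimage (mE v _ l).compl.nullMeasurableSet) r
  refine le_trans (le_of_eq ?_) h1
  congr 1
  ext η
  simp only [Set.mem_ofPred_eq]
  rw [Finset.sum_congr rfl fun v hv => congrFun (lvL_eq (Finset.mem_range.1 hv) c) η]

end

end Pool.Agent.W_7d29a1_C1.H60
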