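import Pool.Agent.W_7d29a1_C1.PhiA68
import Pool.Agent.W_7d29a1_C1.Seq71B

/-!
Both halves (MP_7d29a1_pr), attractor route: THE CLOSENESS LEMMA FOR ONE CONTEXT (helper68).

`one_phi`: from the two estimates of a success (natural weight, total functional) to the estimate of the contact functional
`w * clp H Φ`, one sided, in the form of `pdg9`.
-/

set_option autoImplicit false

namespace Pool.Agent.W_7d29a1_C1.H60

open MeasureTheory
open Pool.Agent.W_7d29a1_F Pool.Agent.W_7d29a1_C1.S71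

/-- The truncation to `[0, 1]`. -/
noncomputable def cl1 (x : ℝ) : ℝ := max 0 (min 1 x)

theorem cl1_nonneg (x : ℝ) : 0 ≤ cl1 x := le_max_left _ _

theorem cl1_le_one (x : ℝ) : cl1 x ≤ 1 := max_le zero_le_one (min_le_left _ _)

theorem cl1_of {x : ℝ} (h0 : 0 ≤ x) (h1 : x ≤ 1) : cl1 x = x := by
  unfold cl1
  rw [min_eq_right h1, max_eq_right h0]

theorem cl1_lip (x y : ℝ) : |cl1 x - cl1 y| ≤ |x - y| := by
  unfold cl1
  refine (abs_max_sub_max_le_max _ _ _ _).trans ?_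
  rw [sub_self, abs_zero]
  refine max_le (abs_nonneg _) ?_
  refine (abs_min_sub_min_le_max _ _ _ _).trans ?_
  rw [sub_self, abs_zero]
  exact max_le (abs_nonneg _) le_rfl

theorem measurable_cl1 : Measurable cl1 := by
  unfold cl1
  exact measurable_const.max (measurable_const.min measurable_id)

/-- The weight. -/
theorem one_w {w v E : ℝ} (w0 : 0 ≤ w) (w1 : w ≤ 1) (h1 : |w - v| ≤ E) : |w - cl1 v| ≤ E := by
  have := cl1_lip w v
  rw [cl1_of w0 w1] at this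
  exact this.trans h1

/-- **THE CLOSENESS LEMMA**: one sided, `w, Φ, S` of the environment, `v, Ψ` of the inside. -/
theorem one_phi {H w v Φ Ψ S t θ : ℝ} (hH : 0 ≤ H) (w0 : 0 ≤ w) (w1 : w ≤ 1) (t0 : 0 ≤ t) (θ0 : 0 ≤ θ) (θ1 : θ ≤ 1)
    (hS : |Φ| ≤ S) (h1 : |w - v| ≤ t + θ * w) (h2 : |Φ - Ψ| ≤ t + θ * (1 + S)) :
    |w * clp H Φ - cl1 v * clp H Ψ| ≤ (H + 2) * t + 3 * θ * (w * (1 + S)) := by
  have a0 := one_w w0 w1 h1
  have a1 := abs_clp_le hH Ψ
  have a2 := (abs_clp_le_abs hH Φ).trans hS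
  have a3 := (clp_lip H Φ Ψ).trans h2
  have S0 : 0 ≤ S := (abs_nonneg _).trans hS
  have a4 : |clp H Ψ| ≤ S + (t + θ * (1 + S)) := by
    have e : clp H Ψ = clp H Φ - (clp H Φ - clp H Ψ) := by ring
    rw [e]
    exact (abs_sub _ _).trans (add_le_add a2 a3)
  have e : w * clp H Φ - cl1 v * clp H Ψ = w * (clp H Φ - clp H Ψ) + (w - cl1 v) * clp H Ψ := by ring
  rw [e]
  refine (abs_add_le _ _).trans ?_
  rw [abs_mul, abs_mul, abs_of_nonneg w0]
  have c1 : w * |clp H Φ - clp H Ψ| ≤ t + θ * (w * (1 + S)) := by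
    have h3 := mul_le_mul_of_nonneg_left a3 w0
    have h4 : w * t ≤ t := mul_le_of_le_one_left t0 w1
    linarith [h3, h4, (by ring : w * (t + θ * (1 + S)) = w * t + θ * (w * (1 + S)))]
  have c2 : |w - cl1 v| * |clp H Ψ| ≤ t * H + θ * w * (S + (t + θ * (1 + S))) := by
    refine (mul_le_mul_of_nonneg_right a0 (abs_nonneg _)).trans ?_
    rw [add_mul]
    exact add_le_add (mul_le_mul_of_nonneg_left a1 t0) (mul_le_mul_of_nonneg_left a4 (mul_nonneg θ0 w0))
  have c3 : θ * w * (S + (t + θ * (1 + S))) ≤ t + 2 * θ * (w * (1 + S)) := by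
    have d1 : θ * w ≤ 1 := (mul_le_mul θ1 w1 w0 zero_le_one).trans (by norm_num)
    have d2 : θ * w * t ≤ t := mul_le_of_le_one_left t0 d1
    have d3 : θ * w * (θ * (1 + S)) ≤ θ * (w * (1 + S)) := by
      have d4 : 0 ≤ θ * (w * (1 + S)) := by positivity
      calc θ * w * (θ * (1 + S)) = θ * (θ * (w * (1 + S))) := by ring
        _ ≤ θ * (w * (1 + S)) := mul_le_of_le_one_left d4 θ1
    have d5 : θ * w * S ≤ θ * (w * (1 + S)) := by
      have : 0 ≤ θ * w := mul_nonneg θ0 w0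
      nlinarith
    calc θ * w * (S + (t + θ * (1 + S))) = θ * w * S + θ * w * t + θ * w * (θ * (1 + S)) := by ring
      _ ≤ θ * (w * (1 + S)) + t + θ * (w * (1 + S)) := add_le_add (add_le_add d5 d2) d3
      _ = t + 2 * θ * (w * (1 + S)) := by ring
  calc w * |clp H Φ - clp H Ψ| + |w - cl1 v| * |clp H Ψ| ≤
      (t + θ * (w * (1 + S))) + (t * H + (t + 2 * θ * (w * (1 + S)))) := add_le_add c1 (c2.trans (add_le_add le_rfl c3))
    _ = (H + 2) * t + 3 * θ * (w * (1 + S)) := by ring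

/-- The same with `0 ≤ t`, one statement for the weight too, constants `t' = (H + 2) t`, `θ' = 3 θ`. -/
theorem one_phi_w {H w v t θ : ℝ} (hH : 0 ≤ H) (w0 : 0 ≤ w) (w1 : w ≤ 1) (t0 : 0 ≤ t) (θ0 : 0 ≤ θ)
    (h1 : |w - v| ≤ t + θ * w) : |w - cl1 v| ≤ (H + 2) * t + 3 * θ * w := by
  refine (one_w w0 w1 h1).trans ?_
  have h2 : 0 ≤ θ * w := mul_nonneg θ0 w0
  have h3 : 0 ≤ H * t := mul_nonneg hH t0
  nlinarith

/-! ### Functions of the inside -/

theorem offF_cl1 {A : Set Pt} {v : Env → ℝ} (h : OffF A v) : OffF A fun η => cl1 (v η) := h.comp cl1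

theorem offF_mul {A : Set Pt} {v Ψ : Env → ℝ} (h : OffF A v) (h' : OffF A Ψ) (H : ℝ) :
    OffF A fun η => cl1 (v η) * clp H (Ψ η) := fun η η' he => by
  show cl1 (v η) * clp H (Ψ η) = cl1 (v η') * clp H (Ψ η')
  rw [h η η' he, h' η η' he]

end Pool.Agent.W_7d29a1_C1.H60
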