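import Pool.Agent.W_7d29a1_C1.TileC98
import Pool.Agent.W_7d29a1_C1.AsmL8
import Pool.Agent.W_7d29a1_C1.ClosA68
import Pool.Agent.W_7d29a1_C1.BoxT60

/-!
MP_7d29a1_pr, attractor route (helper8): numbers of the junction: rows of an admissible context, number of the sites, polynomial errors.
-/

set_option autoImplicit false

namespace Pool.Agent.W_7d29a1_C1.H8

open MeasureTheory ProbabilityTheory Set Finset Filter Topology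
open Pool.Agent.W_7d29a1_F Pool.Agent.W_7d29a1_h4g Pool.Agent.W_7d29a1_H Pool.Agent.W_7d29a1_HS
open Pool.Agent.W_7d29a1_h47 (EM)
open Pool.Agent.W_7d29a1_C1.H60 Pool.Agent.W_7d29a1_C1.T10 Pool.Agent.W_7d29a1_C1.T98
open scoped ENNReal NNReal

noncomputable section

/-! ### Rows and sites -/

/-- The number of rows of an admissible context. -/
theorem rows_le8 {μ : Measure ℝ} {s c δ κ : ℝ} {n : ℕ} {Γ : Cx} (hA : Adm μ s c δ κ n Γ) (hc : c ≤ 1 / 32) (hn : 1 ≤ n)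
    (h4 : (4 : ℝ) ≤ (n : ℝ) ^ (29 / 32 : ℝ)) : Γ.N ≤ n ^ 4 := by
  obtain ⟨N', L, h1, h2, -, h3, h5, h6, -⟩ := hA.hor
  have hnR : (1 : ℝ) ≤ n := by exact_mod_cast hn
  have n0 : (0 : ℝ) < n := by linarith
  have k1 : 1 ≤ N' := hn.trans h1
  have k2 : Γ.N ≤ 4 * N' ^ 3 := by
    have e1 : N' ≤ N' ^ 3 := by
      calc N' = N' * 1 := by ring
        _ ≤ N' * N' ^ 2 := Nat.mul_le_mul_left _ (Nat.one_le_pow _ _ k1)
        _ = N' ^ 3 := by ring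
    have e2 : 1 ≤ N' ^ 3 := Nat.one_le_pow _ _ k1
    omega
  have k3 : (N' : ℝ) ^ 3 ≤ (n : ℝ) ^ (99 / 32 : ℝ) := by
    calc (N' : ℝ) ^ 3 ≤ ((n : ℝ) ^ (33 / 32 : ℝ)) ^ 3 := by
          refine pow_le_pow_left₀ (Nat.cast_nonneg _) (h2.trans (Real.rpow_le_rpow_of_exponent_le hnR (by linarith))) 3
      _ = (n : ℝ) ^ (99 / 32 : ℝ) := by
          rw [← Real.rpow_natCast, ← Real.rpow_mul n0.le]
          norm_num
  have k4 : (Γ.N : ℝ) ≤ (n : ℝ) ^ 4 := by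
    have e1 : (Γ.N : ℝ) ≤ 4 * (N' : ℝ) ^ 3 := by exact_mod_cast k2
    calc (Γ.N : ℝ) ≤ 4 * (N' : ℝ) ^ 3 := e1
      _ ≤ (n : ℝ) ^ (29 / 32 : ℝ) * (n : ℝ) ^ (99 / 32 : ℝ) := mul_le_mul h4 k3 (by positivity) (by positivity)
      _ = (n : ℝ) ^ 4 := by
          rw [← Real.rpow_add n0, ← Real.rpow_natCast]
          norm_num
  exact_mod_cast k4

/-- **THE NUMBER OF SITES.** -/
theorem card_Sc8 {G : Gd} {m j0 j1 N n : ℕ} {sl : ℝ} (hN : G.H m * j1 ≤ N) (hNn : N ≤ n ^ 4) (hn : 3 ≤ n) (hV : G.V m ≤ n)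
    (hsl : |sl| ≤ 1) (hs : ∀ r : ℕ, |(G.s r : ℝ) - sl * r| ≤ n) : (Sc G m j0 j1 N).card ≤ n ^ 16 := by
  have hnR : (3 : ℝ) ≤ n := by exact_mod_cast hn
  have hN' : (N : ℝ) ≤ (n : ℝ) ^ 4 := by exact_mod_cast hNn
  have hK : ((G.H m * j1 : ℕ) : ℝ) ≤ (n : ℝ) ^ 4 := le_trans (by exact_mod_cast hN) hN'
  have hX := Xc_le (G := G) (N := N) (K := G.H m * j1) hs
  have hX0 := Xc_nonneg G N (G.H m * j1)
  obtain ⟨X, hXd⟩ : ∃ X : ℤ, X = Xc G (G.H m * j1) N := ⟨_, rfl⟩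
  obtain ⟨K, hKd⟩ : ∃ K : ℝ, K = ((G.H m * j1 : ℕ) : ℝ) := ⟨_, rfl⟩
  rw [← hXd, ← hKd] at hX
  rw [← hXd] at hX0
  rw [← hKd] at hK
  have K0 : 0 ≤ K := hKd ▸ Nat.cast_nonneg _
  have h1 : (X : ℝ) ≤ 2 * (n : ℝ) ^ 9 := by
    have e1 : K * (|sl| * K + n) ≤ (n : ℝ) ^ 4 * (1 * (n : ℝ) ^ 4 + n) := by
      refine mul_le_mul hK ?_ (by positivity) (by positivity)
      have e2 : |sl| * K ≤ 1 * (n : ℝ) ^ 4 := mul_le_mul hsl hK K0 zero_le_one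
      linarith
    have e3 : (n : ℝ) ^ 4 * (1 * (n : ℝ) ^ 4 + n) = (n : ℝ) ^ 8 + (n : ℝ) ^ 5 := by ring
    have p4 : (n : ℝ) ^ 4 ≤ (n : ℝ) ^ 8 := pow_le_pow_right₀ (by linarith) (by norm_num)
    have p5 : (n : ℝ) ^ 5 ≤ (n : ℝ) ^ 8 := pow_le_pow_right₀ (by linarith) (by norm_num)
    have p1 : (1 : ℝ) ≤ (n : ℝ) ^ 8 := one_le_pow₀ (by linarith)
    have p9 : 3 * (n : ℝ) ^ 8 ≤ (n : ℝ) ^ 9 := by
      have : (n : ℝ) ^ 9 = n * (n : ℝ) ^ 8 := by ring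
      rw [this]
      exact mul_le_mul_of_nonneg_right hnR (by positivity)
    linarith
  have h2 : (2 * X + 1).toNat ≤ n ^ 10 * 2 := by
    have e1 : (((2 * X + 1).toNat : ℤ) : ℝ) = 2 * (X : ℝ) + 1 := by
      rw [Int.toNat_of_nonneg (by omega)]
      push_cast
      ring
    have e2 : (((2 * X + 1).toNat : ℕ) : ℝ) = 2 * (X : ℝ) + 1 := by
      rw [← e1]
      norm_cast
    have e3 : (((2 * X + 1).toNat : ℕ) : ℝ) ≤ ((n ^ 10 * 2 : ℕ) : ℝ) := by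
      rw [e2]
      push_cast
      have p : 3 * (n : ℝ) ^ 9 ≤ (n : ℝ) ^ 10 := by
        have : (n : ℝ) ^ 10 = n * (n : ℝ) ^ 9 := by ring
        rw [this]
        exact mul_le_mul_of_nonneg_right hnR (by positivity)
      have p1 : (1 : ℝ) ≤ (n : ℝ) ^ 9 := one_le_pow₀ (by linarith)
      linarith
    exact_mod_cast e3
  rw [card_Sc, ← hXd]
  calc G.H m * (j1 - j0) * (G.V m * (2 * X + 1).toNat) ≤ n ^ 4 * (n * (n ^ 10 * 2)) := by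
        refine Nat.mul_le_mul ?_ (Nat.mul_le_mul hV h2)
        exact (Nat.mul_le_mul_left _ (Nat.sub_le _ _)).trans (hN.trans hNn)
    _ = 2 * n ^ 15 := by ring
    _ ≤ n * n ^ 15 := Nat.mul_le_mul_right _ (by omega)
    _ = n ^ 16 := by ring

/-! ### Polynomial errors -/

/-- **FROM `Part`, `PDi` AND THE REMAINDER TO THE EXCHANGE OF TWO CONTEXTS**: `H = n`, polynomial number of sites. -/
theorem exch_num8 {Ω ι ι' : Type*} [MeasurableSpace Ω] {P : Measure Ω} [IsProbabilityMeasure P] {B : Ω → ℝ} {T S : Finset ι}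
    {T' S' : Finset ι'} {w : ι → Ω → ℝ} {w' : ι' → Ω → ℝ} {Φ Sb Φ' Sb' : Ω → ℝ} {m n : ℕ} {ρ : ℕ → ι × ι' → ι × ι'}
    {σ : ℕ → ι × ι' → Ω × Ω → Ω × Ω} {A : ℕ → ι × ι' → Set (Ω × Ω)} {Gd : Set (Ω × Ω)} {o t th E c₀ : ℝ}
    (hT : T ⊆ S ∧ ∀ b ∈ S, b ∉ T → ∀ η, w b η = 0) (hT' : T' ⊆ S' ∧ ∀ b ∈ S', b ∉ T' → ∀ η, w' b η = 0)
    (mw : ∀ b ∈ S, Measurable (w b)) (mw' : ∀ b ∈ S', Measurable (w' b)) (hn : 3 ≤ n) (hm : m ≤ n) (hc : S.card ≤ n ^ 16)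
    (hc' : S'.card ≤ n ^ 16) (h0 : c₀ ≤ 1) (o0 : 0 ≤ o) (ho : o ≤ (n : ℝ) ^ (-c₀) * E) (t0 : 0 ≤ t) (ht : t ≤ (n : ℝ) ^ (-(40 : ℝ)))
    (th0 : 0 ≤ th) (th1 : 6 * th ≤ 1) (hth : 3 * th ≤ (n : ℝ) ^ (-c₀)) (mG : MeasurableSet Gd)
    (hG : (P.prod P).real Gdᶜ ≤ 2 * (n : ℝ) ^ (-(40 : ℝ))) (hA : Part (P.prod P) (S ×ˢ S') m ρ σ A)
    (hP : PDi P B S S' (fun b η => w b η * clp n (Φ η)) w (fun b η => w b η * (1 + Sb η))
      (fun b η => w' b η * clp n (Φ' η)) w' (fun b η => w' b η * (1 + Sb' η)) m ρ σ (Ag σ A Gd) o (2 * (((n : ℝ) + 2) * t))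
      (3 * th))
    (hN : ∑ c ∈ S, ∑ c' ∈ S', ∫ z in (⋃ i ∈ Finset.range m, A i (c, c'))ᶜ, w c z.1 * w' c' z.2 ∂(P.prod P) ≤ (n : ℝ) ^ (-c₀)) :
    Exch8 P B T T' w w' Φ Sb Φ' Sb' n E ((n : ℝ) ^ (-c₀)) := by
  have hnR : (3 : ℝ) ≤ n := by exact_mod_cast hn
  have n0 : (0 : ℝ) < n := by linarith
  have a1 : (S.card : ℝ) ≤ (n : ℝ) ^ 16 := by exact_mod_cast hc
  have a2 : (S'.card : ℝ) ≤ (n : ℝ) ^ 16 := by exact_mod_cast hc'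
  have a3 : (m : ℝ) ≤ n := by exact_mod_cast hm
  have p1 : (1 : ℝ) ≤ (n : ℝ) ^ 16 := one_le_pow₀ (by linarith)
  have e1 : (n : ℝ) ^ (-(40 : ℝ)) = ((n : ℝ) ^ 40)⁻¹ := by
    rw [Real.rpow_neg n0.le]
    norm_cast
  have q1 : ((n : ℝ))⁻¹ ≤ (n : ℝ) ^ (-c₀) := by
    rw [← Real.rpow_neg_one]
    exact Real.rpow_le_rpow_of_exponent_le (by linarith) (by linarith)
  have n6 : (16 : ℝ) ≤ (n : ℝ) ^ 5 := by
    calc (16 : ℝ) ≤ 3 ^ 5 := by norm_num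
      _ ≤ (n : ℝ) ^ 5 := pow_le_pow_left₀ (by norm_num) hnR 5
  refine ⟨S, S', m, ρ, σ, A, Gd, o, 2 * (((n : ℝ) + 2) * t), 3 * th, hT, hT', mw, mw', ⟨o0, ho⟩, ⟨by positivity, ?_⟩,
    ⟨by positivity, by linarith, hth⟩, mG, ?_, hA, hP, hN⟩
  · refine le_trans ?_ q1
    have b1 : ((S.card : ℝ) + 1) * (S'.card + 1) ≤ 4 * (n : ℝ) ^ 32 := by
      calc ((S.card : ℝ) + 1) * (S'.card + 1) ≤ (2 * (n : ℝ) ^ 16) * (2 * (n : ℝ) ^ 16) :=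
            mul_le_mul (by linarith) (by linarith) (by positivity) (by positivity)
        _ = 4 * (n : ℝ) ^ 32 := by ring
    have b2 : 2 * (((n : ℝ) + 2) * t) ≤ 4 * n * ((n : ℝ) ^ 40)⁻¹ := by
      have c1 : ((n : ℝ) + 2) * t ≤ (2 * n) * ((n : ℝ) ^ 40)⁻¹ := mul_le_mul (by linarith) (e1 ▸ ht) t0 (by positivity)
      linarith
    calc 2 * (((n : ℝ) + 2) * t) * (((S.card : ℝ) + 1) * (S'.card + 1)) ≤ 4 * n * ((n : ℝ) ^ 40)⁻¹ * (4 * (n : ℝ) ^ 32) :=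
          mul_le_mul b2 b1 (by positivity) (by positivity)
      _ = 16 * ((n : ℝ) ^ 7)⁻¹ := by
          field_simp
          ring
      _ ≤ (n : ℝ) ^ 5 * ((n : ℝ) ^ 7)⁻¹ := mul_le_mul_of_nonneg_right n6 (by positivity)
      _ = ((n : ℝ))⁻¹ * ((n : ℝ))⁻¹ := by
          field_simp
      _ ≤ ((n : ℝ))⁻¹ * 1 := mul_le_mul_of_nonneg_left (inv_le_one_of_one_le₀ (by linarith)) (by positivity)
      _ = ((n : ℝ))⁻¹ := mul_one _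
  · refine le_trans ?_ q1
    have b1 : (n : ℝ) * m * (S.card * S'.card) ≤ (n : ℝ) ^ 34 := by
      calc (n : ℝ) * m * (S.card * S'.card) ≤ n * n * ((n : ℝ) ^ 16 * (n : ℝ) ^ 16) := by
            refine mul_le_mul (mul_le_mul_of_nonneg_left a3 n0.le) (mul_le_mul a1 a2 (by positivity) (by positivity))
              (by positivity) (by positivity)
        _ = (n : ℝ) ^ 34 := by ring
    calc (n : ℝ) * m * (S.card * S'.card) * (P.prod P).real Gdᶜ ≤ (n : ℝ) ^ 34 * (2 * ((n : ℝ) ^ 40)⁻¹) := by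
          refine mul_le_mul b1 (e1 ▸ hG) measureReal_nonneg (by positivity)
      _ = 2 * ((n : ℝ) ^ 6)⁻¹ := by
          field_simp
      _ ≤ (n : ℝ) ^ 5 * ((n : ℝ) ^ 6)⁻¹ := mul_le_mul_of_nonneg_right (by linarith) (by positivity)
      _ = ((n : ℝ))⁻¹ := by
          field_simp

end

end Pool.Agent.W_7d29a1_C1.H8
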