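import Pool.Agent.W_7d29a1_C1.InvB9

/-!
Both halves (MP_7d29a1_pr), attractor route: THE EXCHANGE OF THE BOXES PRESERVES THE OUTERMOST CHOSEN SUCCESS, the inner half of
the success may depend on the place of the contact in its box. (helper9; after helper60, helper47)

As `InvB9`, with `SI : ℕ → ι → Set Env` in place of `SI : ℕ → Set Env`: at the level `t` of the exchange the inner events are
exchanged with the places (`iE`, `iE'`), further out they are functions of the next smaller box only (`iF`, `iF'`).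
-/

set_option autoImplicit false

namespace Pool.Agent.W_7d29a1_C1.Pd9

open MeasureTheory ProbabilityTheory
open Pool.Agent.W_7d29a1_F Pool.Agent.W_7d29a1_C1.S71 Pool.Agent.W_7d29a1_C1.Sw9
open scoped ENNReal Classical

noncomputable section

/-- **THE DATA OF THE EXCHANGE AT THE LEVEL `t` FOR THE PAIR `(c, c')` WITH PARTNER `(d, d')`.** -/
structure InvP (m M t : ℕ) {ι ι' Y : Type*} (A : ℕ → Set Pt) (x : ℕ → ι → Pt) (x' : ℕ → ι' → Pt) (V So : ℕ → ι → Set Env)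
    (V' So' : ℕ → ι' → Set Env) (SI : ℕ → ι → Set Env) (SI' : ℕ → ι' → Set Env) (lv : ℕ → ι → Env → ℕ) (lv' : ℕ → ι' → Env → ℕ) (c d : ι) (c' d' : ι')
    (L : ℕ → Y → Env → ℕ) (ps : ℕ → ι → Y) (ps' : ℕ → ι' → Y) : Prop where
  xd : ∀ u, t ≤ u → x u d = x u c
  xd' : ∀ u, t ≤ u → x' u d' = x' u c'
  vO : ∀ u, t ≤ u → u < m → Off (At (x t c) (A t)) (V u c)
  vO' : ∀ u, t ≤ u → u < m → Off (At (x' t c') (A t)) (V' u c')
  vE : ∀ u, t ≤ u → u < m → V u d = V u c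
  vE' : ∀ u, t ≤ u → u < m → V' u d' = V' u c'
  sO : ∀ u, (u = t ∨ t + M ≤ u) → u < m → Off (At (x t c) (A t)) (So u c)
  sO' : ∀ u, (u = t ∨ t + M ≤ u) → u < m → Off (At (x' t c') (A t)) (So' u c')
  sE : ∀ u, (u = t ∨ t + M ≤ u) → u < m → So u d = So u c
  sE' : ∀ u, (u = t ∨ t + M ≤ u) → u < m → So' u d' = So' u c'
  iI : Off (A t)ᶜ (SI t c)
  iI' : Off (A t)ᶜ (SI' t c')
  iE : SI t d = SI' t c'
  iE' : SI' t d' = SI t c
  iF : ∀ u, t + M ≤ u → u < m → SI u d = SI u c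
  iF' : ∀ u, t + M ≤ u → u < m → SI' u d' = SI' u c'
  iO : ∀ u, t + M ≤ u → t < u → u < m → Off (At (x t c) (A t)) (sh (x u c) ⁻¹' SI u c)
  iO' : ∀ u, t + M ≤ u → t < u → u < m → Off (At (x' t c') (A t)) (sh (x' u c') ⁻¹' SI' u c')
  lO : ∀ v, t ≤ v → OffF (At (x t c) (A t)) (lv v c)
  lO' : ∀ v, t ≤ v → OffF (At (x' t c') (A t)) (lv' v c')
  lE : ∀ v, t ≤ v → lv v d = lv v c
  lE' : ∀ v, t ≤ v → lv' v d' = lv' v c'
  LI : ∀ v < t, ∀ y, OffF (A t)ᶜ (L v y)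
  l1 : ∀ v < t, ∀ η, lv v c η = L v (ps v c) (sh (x t c) η)
  l2 : ∀ v < t, ∀ η, lv' v c' η = L v (ps' v c') (sh (x' t c') η)
  l3 : ∀ v < t, ∀ η, lv v d η = L v (ps v d) (sh (x t d) η)
  l4 : ∀ v < t, ∀ η, lv' v d' η = L v (ps' v d') (sh (x' t d') η)
  pd : ∀ v < t, ps v d = ps' v c'
  pd' : ∀ v < t, ps' v d' = ps v c

/-- Success for both: outer and inner halves, the inner half with the place. -/
def SSp {ι ι' : Type*} (x : ℕ → ι → Pt) (x' : ℕ → ι' → Pt) (So : ℕ → ι → Set Env) (So' : ℕ → ι' → Set Env) (SI : ℕ → ι → Set Env)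
    (SI' : ℕ → ι' → Set Env) (p : ι × ι') (u : ℕ) : Set (Env × Env) :=
  {z | (z.1 ∈ So u p.1 ∧ z.2 ∈ So' u p.2) ∧ (sh (x u p.1) z.1 ∈ SI u p.1 ∧ sh (x' u p.2) z.2 ∈ SI' u p.2)}

/-- The old form. -/
theorem SSp_const {ι ι' : Type*} (x : ℕ → ι → Pt) (x' : ℕ → ι' → Pt) (So : ℕ → ι → Set Env) (So' : ℕ → ι' → Set Env)
    (SI : ℕ → Set Env) : SSp x x' So So' (fun u _ => SI u) (fun u _ => SI u) = SS x x' So So' SI := rfl

section

variable {m M t : ℕ} {ι ι' Y : Type*} {A : ℕ → Set Pt} {x : ℕ → ι → Pt} {x' : ℕ → ι' → Pt} {V So : ℕ → ι → Set Env}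
  {V' So' : ℕ → ι' → Set Env} {SI : ℕ → ι → Set Env} {SI' : ℕ → ι' → Set Env} {lv : ℕ → ι → Env → ℕ} {lv' : ℕ → ι' → Env → ℕ} {c d : ι} {c' d' : ι'}
  {L : ℕ → Y → Env → ℕ} {ps : ℕ → ι → Y} {ps' : ℕ → ι' → Y}

/-- **The ranges of all the slabs are invariant.** -/
theorem InvP.rg_inv (h : InvP m M t A x x' V So V' So' SI SI' lv lv' c d c' d' L ps ps') (z : Env × Env) :
    rg lv lv' (d, d') (swc (A t) (x t c) (x' t c') z) = rg lv lv' (c, c') z := by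
  funext v
  refine lev9 (Y := Y) (t := t) (v := v) (fun hv => ⟨h.lO v hv, h.lE v hv, h.lO' v hv, h.lE' v hv⟩) (fun hv => ?_) z
  refine ⟨L v, ps v c, ps' v c', h.LI v hv, h.l1 v hv, h.l2 v hv, fun η => ?_, fun η => ?_⟩
  · rw [h.l3 v hv, h.pd v hv, h.xd t le_rfl]
  · rw [h.l4 v hv, h.pd' v hv, h.xd' t le_rfl]

theorem InvP.VV_inv (h : InvP m M t A x x' V So V' So' SI SI' lv lv' c d c' d' L ps ps') {u : ℕ} (hu : t ≤ u) (hm : u < m)
    (z : Env × Env) : z ∈ VV V V' (c, c') u ↔ swc (A t) (x t c) (x' t c') z ∈ VV V V' (d, d') u := by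
  show (z.1 ∈ V u c ∧ z.2 ∈ V' u c') ↔ _
  show _ ↔ ((swc (A t) (x t c) (x' t c') z).1 ∈ V u d ∧ (swc (A t) (x t c) (x' t c') z).2 ∈ V' u d')
  rw [h.vE u hu hm, h.vE' u hu hm, outS1 (h.vO u hu hm), outS2 (h.vO' u hu hm)]

theorem InvP.SS_inv0 (h : InvP m M t A x x' V So V' So' SI SI' lv lv' c d c' d' L ps ps') (hm : t < m) (z : Env × Env) :
    z ∈ SSp x x' So So' SI SI' (c, c') t ↔ swc (A t) (x t c) (x' t c') z ∈ SSp x x' So So' SI SI' (d, d') t := by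
  show ((z.1 ∈ So t c ∧ z.2 ∈ So' t c') ∧ (sh (x t c) z.1 ∈ SI t c ∧ sh (x' t c') z.2 ∈ SI' t c')) ↔
    (((swc (A t) (x t c) (x' t c') z).1 ∈ So t d ∧ (swc (A t) (x t c) (x' t c') z).2 ∈ So' t d') ∧
      (sh (x t d) (swc (A t) (x t c) (x' t c') z).1 ∈ SI t d ∧ sh (x' t d') (swc (A t) (x t c) (x' t c') z).2 ∈ SI' t d'))
  rw [h.sE t (Or.inl rfl) hm, h.sE' t (Or.inl rfl) hm, outS1 (h.sO t (Or.inl rfl) hm), outS2 (h.sO' t (Or.inl rfl) hm),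
    h.xd t le_rfl, h.xd' t le_rfl, h.iE, h.iE', inS1 h.iI', inS2 h.iI]
  tauto

theorem InvP.SS_inv (h : InvP m M t A x x' V So V' So' SI SI' lv lv' c d c' d' L ps ps') (hM : 0 < M) {u : ℕ} (hu : t + M ≤ u)
    (hm : u < m) (z : Env × Env) :
    z ∈ SSp x x' So So' SI SI' (c, c') u ↔ swc (A t) (x t c) (x' t c') z ∈ SSp x x' So So' SI SI' (d, d') u := by
  have htu : t < u := by omega
  show ((z.1 ∈ So u c ∧ z.2 ∈ So' u c') ∧ (sh (x u c) z.1 ∈ SI u c ∧ sh (x' u c') z.2 ∈ SI' u c')) ↔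
    (((swc (A t) (x t c) (x' t c') z).1 ∈ So u d ∧ (swc (A t) (x t c) (x' t c') z).2 ∈ So' u d') ∧
      (sh (x u d) (swc (A t) (x t c) (x' t c') z).1 ∈ SI u d ∧ sh (x' u d') (swc (A t) (x t c) (x' t c') z).2 ∈ SI' u d'))
  have e1 : sh (x u c) (swc (A t) (x t c) (x' t c') z).1 ∈ SI u c ↔ sh (x u c) z.1 ∈ SI u c := outS1 (h.iO u hu htu hm) z
  have e2 : sh (x' u c') (swc (A t) (x t c) (x' t c') z).2 ∈ SI' u c' ↔ sh (x' u c') z.2 ∈ SI' u c' := outS2 (h.iO' u hu htu hm) z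
  rw [h.sE u (Or.inr hu) hm, h.sE' u (Or.inr hu) hm, outS1 (h.sO u (Or.inr hu) hm), outS2 (h.sO' u (Or.inr hu) hm),
    h.xd u htu.le, h.xd' u htu.le, h.iF u hu hm, h.iF' u hu hm, e1, e2]

theorem InvP.YY_inv (h : InvP m M t A x x' V So V' So' SI SI' lv lv' c d c' d' L ps ps') (Yf : ℕ → (ℕ → ℕ) → Prop) (u : ℕ)
    (z : Env × Env) : z ∈ YY lv lv' Yf (c, c') u ↔ swc (A t) (x t c) (x' t c') z ∈ YY lv lv' Yf (d, d') u := by
  show Yf u (rg lv lv' (c, c') z) ↔ Yf u (rg lv lv' (d, d') (swc (A t) (x t c) (x' t c') z))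
  rw [h.rg_inv z]

/-- **THE OUTERMOST CHOSEN SUCCESS OF THE PAIR BECOMES THE ONE OF THE PARTNER.** -/
theorem InvP.ao9 (h : InvP m M t A x x' V So V' So' SI SI' lv lv' c d c' d' L ps ps') (hM : 0 < M) (hm : t < m)
    (Yf : ℕ → (ℕ → ℕ) → Prop) (z : Env × Env) :
    z ∈ H77.AO M m (VV V V' (c, c')) (SSp x x' So So' SI SI' (c, c')) (YY lv lv' Yf (c, c')) t ↔
      swc (A t) (x t c) (x' t c') z ∈
        H77.AO M m (VV V V' (d, d')) (SSp x x' So So' SI SI' (d, d')) (YY lv lv' Yf (d, d')) t :=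
  H77.AO_inv (fun _ h1 h2 => h.VV_inv h1 h2 z) (h.SS_inv0 hm z) (fun _ h1 h2 => h.SS_inv hM h1 h2 z)
    fun _ _ _ => h.YY_inv Yf _ z

end

end

end Pool.Agent.W_7d29a1_C1.Pd9
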