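import Pool.Agent.W_7d29a1_C1.PosP98
import Pool.Agent.W_7d29a1_C1.N2P60
import Pool.Agent.W_7d29a1_C1.AsmN8

/-!
MP_7d29a1_pr, attractor route (helper8): THE JUNCTION. `Sd8`, `SdOk8` = the data of the shell at one scale, common to all the contexts;
`Cp8` = what has to be shown for one context; `ShlG8` = all contexts, with the quantifiers; `pdiG_of8 : ShlG8 ⇒ PdiG8`.
-/

set_option autoImplicit false

namespace Pool.Agent.W_7d29a1_C1.H8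

open MeasureTheory ProbabilityTheory Filter Topology
open Pool.Agent.W_7d29a1_F Pool.Agent.W_7d29a1_h4g Pool.Agent.W_7d29a1_H Pool.Agent.W_7d29a1_HS
open Pool.Agent.W_7d29a1_h47 (EM)
open Pool.Agent.W_7d29a1_C1.H60 Pool.Agent.W_7d29a1_C1.S71
open Pool.Agent.W_7d29a1_C1.T98 (Sc rows_sub98 mem_St w_zero98 kT dT dT_le dims98n pm_Sc98)
open Pool.Agent.W_7d29a1_C1.P98 (Half Ut Su SHP junP98)
open Pool.Agent.W_7d29a1_C1.Pd9 Pool.Agent.W_7d29a1_C1.H77 Pool.Agent.W_7d29a1_C1.Lec17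
open Pool.Agent.W_7d29a1_C1.T10 (Gd pt)
open scoped ENNReal NNReal

noncomputable section

variable {μ : Measure ℝ} [IsProbabilityMeasure μ]

/-! ### The pairs without a chosen success, the tail of the ranges as a hypothesis -/

/-- **N2 OVER THE TOWER** (`n2T60` of helper60 with the tail of the ranges as a hypothesis, so that nothing is chosen after the gain). -/
theorem n2T8 {κ c s B c₀ : ℝ} (hκ : 0 < κ) (hc : 0 < c) (hc1 : c ≤ 1) {m₂ g k : ℕ} (h2 : 1 ≤ m₂) (hg : 1 ≤ g)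
    (h0 : c₀ < κ / (8 * ((m₂ + g : ℕ) : ℝ)) * Real.log (1 + c)) (h1 : c₀ < s) (h1' : c₀ < 1) :
    ∀ᶠ n : ℕ in atTop, ∀ (m L : ℕ), κ * Real.log n ≤ m → m + m₂ ≤ L →
      ∀ (G : Gd) (A : ℕ → Set Pt) (Lv : ℕ → ℕ × ℤ → Env → ℕ), G.Ok L → G.Nest L A → Gd.Rd A Lv → (∀ v o, Measurable (Lv v o)) →
      ∀ (T T' : Finset (ℕ × ℤ)) (V So V' So' SI : ℕ → ℕ × ℤ → Set Env) (w w' : ℕ × ℤ → Env → ℝ)
        (a p e ν a' p' e' ν' : ℝ),
      CpyP μ G L A Lv m m₂ g k T V So SI w a p e ν → CpyP μ G L A Lv m m₂ g k T' V' So' SI w' a' p' e' ν' →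
      (∀ q ∈ T, law μ {ω | m / (16 * (m₂ + g)) ≤ ∑ v ∈ Finset.range (m + m₂), lvL G Lv L v q ω} ≤
        ENNReal.ofReal ((n : ℝ) ^ (-(2 * B + 2)))) →
      (∀ q ∈ T', law μ {ω | m / (16 * (m₂ + g)) ≤ ∑ v ∈ Finset.range (m + m₂), lvL G Lv L v q ω} ≤
        ENNReal.ofReal ((n : ℝ) ^ (-(2 * B + 2)))) →
      c * (1 + c) ^ k ≤ (a * p) * (a' * p') → ν ≤ (n : ℝ) ^ (-s) → ν' ≤ (n : ℝ) ^ (-s) →
      (T.card : ℝ) ≤ (n : ℝ) ^ B → (T'.card : ℝ) ≤ (n : ℝ) ^ B →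
      m * (T.card * T'.card * ((1 + c) ^ m * (T.card * e + T'.card * e'))) ≤ 1 →
      ∑ q ∈ T, ∑ q' ∈ T', ∫ z in (⋃ t ∈ Finset.range m, Ut G L Lv (m₂ + g) m (fun i => i - 2) V So V' So' SI t (q, q'))ᶜ,
        w q z.1 * w' q' z.2 ∂((law μ).prod (law μ)) ≤ (n : ℝ) ^ (-c₀) := by
  classical
  have hM : 0 < m₂ + g := by omega
  have hlog : Tendsto (fun n : ℕ => κ * Real.log n) atTop atTop :=
    (Real.tendsto_log_atTop.comp tendsto_natCast_atTop_atTop).const_mul_atTop hκ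
  filter_upwards [n2E17 (c := c) (κ := κ) (B := B) (s := s) (A := 2 * B + 1) hc hκ hM le_rfl h0 h1 h1',
    eventually_ge_atTop 2, hlog.eventually_ge_atTop ((16 * (m₂ + g) + m₂ + 3 : ℕ) : ℝ)] with n E17 hn2 hnm
  intro m L hm hmL G A Lv hG hA hL mL T T' V So V' So' SI w w' a p e ν a' p' e' ν' h h' tl tl' cp hν hν' hT hT' herr
  have hn1 : 1 ≤ n := by omega
  have hn0 : (0 : ℝ) < n := by exact_mod_cast hn1
  have hmm : 16 * (m₂ + g) + m₂ + 3 ≤ m := by exact_mod_cast hnm.trans hm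
  have R1 := h.boxR hG hA hL mL h2 hg hmL
  have R2' := h'.boxR hG hA hL mL h2 hg hmL
  obtain ⟨io1, io2⟩ := io_mi60 (m := m) h2 hg
  set l := lvL G Lv L with hl
  set err : ℝ := m * (T.card * T'.card * ((1 + c) ^ m * (T.card * e + T'.card * e'))) with herr0
  have herr1 : 0 ≤ err := by
    have := h.e0
    have := h'.e0
    have : 0 ≤ 1 + c := by linarith
    positivity
  have hch := hch60 R1 R2' h.fr h'.fr io1 io2 h.a0 h'.a0 h.p0 h.e0 h'.e0 hc.le hc1 cp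
  -- the good event
  set b₁ : ℕ := m / (8 * (m₂ + g)) / 2 + 1 with hb1
  have e1 : m / (16 * (m₂ + g)) ≤ b₁ := by
    have : m / (16 * (m₂ + g)) = m / (8 * (m₂ + g)) / 2 := by
      rw [Nat.div_div_eq_div_mul]
      congr 1
      ring
    omega
  have tail : ∀ q : ℕ × ℤ, law μ {ω | m / (16 * (m₂ + g)) ≤ ∑ v ∈ Finset.range (m + m₂), l v q ω} ≤
      ENNReal.ofReal ((n : ℝ) ^ (-(2 * B + 2))) →
      law μ {ω | b₁ ≤ ∑ v ∈ Finset.range (m + m₂), l v q ω} ≤ ENNReal.ofReal ((n : ℝ) ^ (-(2 * B + 2))) := by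
    intro q hq
    refine le_trans (measure_mono fun ω hω => ?_) hq
    exact e1.trans hω
  have hτ0 : 0 ≤ (n : ℝ) ^ (-(2 * B + 2)) := Real.rpow_nonneg hn0.le _
  have hio : ∀ i < m, ∀ j < m, i + m₂ - 1 = j + m₂ - 1 → i = j := fun i _ j _ hij => by omega
  have hiL : ∀ i < m, i + m₂ - 1 < m + m₂ := fun i hi => by omega
  have main := n2T17 (P := law μ) (T := T) (T' := T') (w := w) (w' := w') (M := m₂ + g) (m := m) (r := m / (4 * (m₂ + g)))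
    (q := m / 8 + 1) (b := m / (8 * (m₂ + g))) (c := c) (err := err) (τ := (n : ℝ) ^ (-(2 * B + 2)) + (n : ℝ) ^ (-(2 * B + 2)))
    (ν := (n : ℝ) ^ (-s)) h.mw h'.mw h.w0 h'.w0 h.w1 h'.w1
    (VV := fun q q' i => both2 V V' i (q, q')) (S := fun q q' i => both2 (SHp G.x So (SIr G SI)) (SHp G.x So' (SIr G SI)) i (q, q'))
    (Y := fun q q' i => Rch (l2 l l) (i - 2) (q, q')) (X := fun q q' i => Rch (l2 l l) (i + m₂ - 1) (q, q'))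
    (fun q hq q' hq' t ht => ((h.mV t ht q hq).preimage measurable_fst).inter ((h'.mV t ht q' hq').preimage measurable_snd))
    (fun q hq q' hq' t ht => ((h.mS t ht q hq).preimage measurable_fst).inter ((h'.mS t ht q' hq').preimage measurable_snd))
    (fun q hq q' hq' t ht => measurableSet_Rch (fun v => ((measurable_lvL mL v q).comp measurable_fst).max
      ((measurable_lvL mL v q').comp measurable_snd)) _)
    (fun q hq q' hq' t ht => measurableSet_Rch (fun v => ((measurable_lvL mL v q).comp measurable_fst).max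
      ((measurable_lvL mL v q').comp measurable_snd)) _)
    hc.le herr1 hch (V := fun q t => V t q) (V' := fun q t => V' t q) hM (fun q _ q' _ t _ z hz hz' => ⟨hz, hz'⟩)
    (G := fun q q' => G60 l l (m + m₂) b₁ q q')
    (fun q _ q' _ z hz => hG60 (io := fun i => i + m₂ - 1) hio hiL (by omega) q q' z hz)
    (cnt17 (M := m₂ + g) (by omega)).2 (by positivity) (Real.rpow_nonneg hn0.le _)
    (fun q hq q' hq' => hτ60 (fun v => measurable_lvL mL v q) (fun v => measurable_lvL mL v q') hτ0 hτ0 (tail q (tl q hq))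
      (tail q' (tl' q' hq')))
    (h.hν.trans (ENNReal.ofReal_le_ofReal hν)) (h'.hν.trans (ENNReal.ofReal_le_ofReal hν'))
  have e1 : ∀ q q' : ℕ × ℤ, SSp G.x G.x So So' (fun u c => SI u (G.rel u c)) (fun u c => SI u (G.rel u c)) (q, q') =
      fun i => both2 (SHp G.x So (SIr G SI)) (SHp G.x So' (SIr G SI)) i (q, q') :=
    fun q q' => SSp_both (q, q')
  unfold Ut
  simp only [e1]
  refine main.trans ?_
  refine E17 m T.card T'.card err _ _ hm hT hT' herr1 herr (by positivity) ?_ le_rfl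
  have e2 : (n : ℝ) ^ (-(2 * B + 1)) = (n : ℝ) * (n : ℝ) ^ (-(2 * B + 2)) := by
    rw [show -(2 * B + 1) = 1 + -(2 * B + 2) by ring, Real.rpow_add hn0, Real.rpow_one]
  rw [e2]
  have h3 : (2 : ℝ) ≤ n := by exact_mod_cast hn2
  nlinarith

/-! ### The data -/

/-- **THE DATA OF THE SHELL** at one scale, common to all the contexts. -/
structure Sd8 where
  /-- the grid -/
  G : Gd
  /-- the number of levels -/
  L : ℕ
  /-- the level of the boxes of which the set of sites is a union -/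
  mt : ℕ
  /-- the number of scales -/
  m : ℕ
  /-- the regions around the base points -/
  A : ℕ → Set Pt
  /-- the inner half of the success, by the place in the box -/
  SI : ℕ → ℕ × ℤ → Set Env
  /-- the ranges of the slabs -/
  Lv : ℕ → ℕ × ℤ → Env → ℕ
  /-- the weight of the inside, by the place in the box -/
  vI : ℕ → ℕ × ℤ → Env → ℝ
  /-- the total functional of the inside, by the place in the box -/
  PI : ℕ → ℕ × ℤ → Env → ℝ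

/-- The conditions on the common data: grid, regions, inner half of the success, ranges, functions of the inside, numbers. -/
structure SdOk8 (μ : Measure ℝ) (s : ℝ) (n m₂ : ℕ) (κ' : ℝ) (D : Sd8) : Prop where
  ok : D.G.Ok D.L
  mtL : D.mt ≤ D.L
  mmt : ∀ l < D.m, l ≤ D.mt
  mL : D.m + m₂ ≤ D.L
  nest : D.G.Nest D.L D.A
  rd : Gd.Rd D.A D.Lv
  mLv : ∀ v o, Measurable (D.Lv v o)
  mSI : ∀ u < D.m, ∀ y, MeasurableSet (D.SI u y)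
  iSI : ∀ u < D.m, ∀ y, Off (D.A u)ᶜ (D.SI u y)
  ov : ∀ l < D.m, ∀ y, OffF (D.A l)ᶜ (D.vI l y)
  oP : ∀ l < D.m, ∀ y, OffF (D.A l)ᶜ (D.PI l y)
  Hn : D.G.H D.mt ≤ n
  Vn : D.G.V D.mt ≤ n
  sn : ∀ r : ℕ, |(D.G.s r : ℝ) - sl μ s * r| ≤ n
  m1 : κ' * Real.log n ≤ D.m
  m2 : 2 ^ D.m ≤ n

/-- The first row of the contacts. -/
def Sd8.d (D : Sd8) (n : ℕ) (e : ℝ) : ℕ := dT (D.G.H D.mt) ((n : ℝ) ^ e)

/-- The last row of the contacts. -/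
def Sd8.k (D : Sd8) (n : ℕ) (e : ℝ) (Γ : Cx) : ℕ := kT (D.G.H D.mt) (D.d n e) (Γ.N - n)

/-- The sites: a union of boxes of level `mt` which contains all the contacts of the rows `d ≤ i < k`. -/
def Sd8.S (D : Sd8) (n : ℕ) (e : ℝ) (Γ : Cx) : Finset (ℕ × ℤ) :=
  Sc D.G D.mt (⌈(n : ℝ) ^ e⌉₊ / D.G.H D.mt) ((Γ.N - n - D.d n e) / D.G.H D.mt) Γ.N

/-- **WHAT HAS TO BE SHOWN FOR ONE CONTEXT.** `V` = usable scales, `So` = outer half of the success, `bO` = balance point seen from outside,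
`Bd` = bad environments, `a`, `p`, `e'` = numbers of FreshP, `s'` = the exponent. -/
structure Cp8 (μ : Measure ℝ) [IsProbabilityMeasure μ] (s : ℝ) (D : Sd8) (n m₂ g k : ℕ) (e a p s' : ℝ) (Γ : Cx) (Ψ Sg : Env → ℝ)
    (V So : ℕ → ℕ × ℤ → Set Env) (bO : ℕ → ℕ × ℤ → Env → ℝ) (Bd : Set Env) : Prop where
  half : Half D.G D.A D.m g (D.S n e Γ) V So D.SI
  oV : ∀ j < D.m, ∀ c ∈ D.S n e Γ, Off (T10.At (D.G.x (j + m₂) c) (D.A (j + m₂))) (V j c)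
  /-- **FreshP** -/
  fresh : Fresh (law μ) (D.S n e Γ) D.m k (fun i => i + m₂ - 1) (fun i => i - 2) D.G.z (fun i Q => gl (Bl D.G D.A m₂ i Q)) V
    (SHP D.G So D.SI) (lvL D.G D.Lv D.L) (fun c ω => ENNReal.ofReal (Γ.w c ω)) (ENNReal.ofReal a) (ENNReal.ofReal p)
    (ENNReal.ofReal ((n : ℝ) ^ (-(60 : ℝ))))
  /-- **few scales are reached** -/
  tau : ∀ c ∈ D.S n e Γ, law μ {ω | D.m / (16 * (m₂ + g)) ≤ ∑ v ∈ Finset.range (D.m + m₂), lvL D.G D.Lv D.L v c ω} ≤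
    ENNReal.ofReal ((n : ℝ) ^ (-(34 : ℝ)))
  /-- **few scales are not usable** -/
  nu : ∑ c ∈ D.S n e Γ, ∫⁻ ω in Nar (fun t => V t c) D.m (D.m / 8 + 1), ENNReal.ofReal (Γ.w c ω) ∂(law μ) ≤
    ENNReal.ofReal ((n : ℝ) ^ (-s'))
  mB : MeasurableSet Bd
  /-- **bad environments** -/
  bd : (law μ).real Bd ≤ (n : ℝ) ^ (-(40 : ℝ))
  /-- **success: weight and total functional are those of the inside** -/
  close : ∀ l < D.m, ∀ c ∈ D.S n e Γ, ∀ η ∈ Su D.G D.L D.Lv (fun i => i - 2) V So D.SI l c, η ∉ Bd →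
    |Γ.w c η - D.vI l (D.G.rel l c) (sh (D.G.x l c) η)| ≤ (n : ℝ) ^ (-(40 : ℝ)) + (n : ℝ) ^ (-s') * Γ.w c η ∧
    |Ψ η - D.PI l (D.G.rel l c) (sh (D.G.x l c) η)| ≤ (n : ℝ) ^ (-(40 : ℝ)) + (n : ℝ) ^ (-s') * (1 + Sg η)
  obO : ∀ l < D.m, ∀ c ∈ D.S n e Γ, OffF (T10.At (D.G.x l c) (D.A l)) (bO l (D.G.z l c))
  /-- **success: the balance point is seen from outside** -/
  bal : ∀ l < D.m, ∀ c ∈ D.S n e Γ, ∀ η ∈ Su D.G D.L D.Lv (fun i => i - 2) V So D.SI l c, η ∉ Bd →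
    |Γ.B η - bO l (D.G.z l c) η| ≤ (n : ℝ) ^ (-s') * EE μ s n

/-- **THE SHELL FOR ALL CONTEXTS**: grid ratio, `m₂`, `g`, `k`, `a`, `p`, the number of scales per `log n` and the exponent before `c`,
`δ`, `κ`; the data of the scale `n` before the context. -/
def ShlG8 (μ : Measure ℝ) [IsProbabilityMeasure μ] (s : ℝ) (Ψ Sg : Cx → Env → ℝ) : Prop :=
  ∀ e : ℝ, 0 < e → e ≤ 1 / 32 → ∃ (m₂ g k : ℕ) (κ' a p s' : ℝ), 1 ≤ m₂ ∧ 1 ≤ g ∧ 0 < κ' ∧ 0 < a ∧ 0 < p ∧ 0 < s' ∧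
    ∀ c : ℝ, 0 < c → c ≤ s' → ∀ δ : ℝ, 0 < δ → δ ≤ c / 16 → ∃ κ₀ : ℝ, 0 < κ₀ ∧
    ∀ κ : ℝ, 0 < κ → κ ≤ κ₀ → ∀ᶠ n : ℕ in atTop, ∃ D : Sd8, SdOk8 μ s n m₂ κ' D ∧
      ∀ Γ : Cx, Adm μ s c δ κ n Γ → ∃ (V So : ℕ → ℕ × ℤ → Set Env) (bO : ℕ → ℕ × ℤ → Env → ℝ) (Bd : Set Env),
        Cp8 μ s D n m₂ g k e a p s' Γ (Ψ Γ) (Sg Γ) V So bO Bd

/-! ### The sites -/

section sites

variable {D : Sd8} {n : ℕ} {e : ℝ} {Γ : Cx}

theorem rows_S8 (hG : D.G.Ok D.L) (hmt : D.mt ≤ D.L) : Γ.rows (D.d n e) (D.k n e Γ) ⊆ D.S n e Γ :=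
  rows_sub98 hG hmt Γ

theorem w_S8 (hk : D.k n e Γ ≤ Γ.N) {c : ℕ × ℤ} (hc : c ∈ D.S n e Γ) (hn : c ∉ Γ.rows (D.d n e) (D.k n e Γ)) (η : Env) :
    Γ.w c η = 0 := by
  have h1 := (mem_St.1 hc).1
  refine w_zero98 Γ ?_ η
  by_contra hcon
  push Not at hcon
  refine hn ?_
  unfold Cx.rows
  rw [Finset.mem_product, Finset.mem_Ico, Finset.mem_Icc]
  have h2 : c.1 < D.k n e Γ := h1.2
  refine ⟨⟨h1.1, h2⟩, by omega, by omega⟩

theorem sumw_S8 (hG : D.G.Ok D.L) (hmt : D.mt ≤ D.L) (hΓ : Γ.Ok) (hk : D.k n e Γ ≤ Γ.N) (η : Env) :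
    ∑ c ∈ D.S n e Γ, Γ.w c η ≤ 1 := by
  rw [← Finset.sum_subset (rows_S8 hG hmt) fun c hc hc' => w_S8 hk hc hc' η]
  exact Cx.sum_w_le hΓ η _ _ hk

theorem w1_S8 (hG : D.G.Ok D.L) (hmt : D.mt ≤ D.L) (hΓ : Γ.Ok) (hk : D.k n e Γ ≤ Γ.N) {c : ℕ × ℤ} (hc : c ∈ D.S n e Γ) (η : Env) :
    Γ.w c η ≤ 1 :=
  (Finset.single_le_sum (f := fun c => Γ.w c η) (fun c _ => Cx.w_nonneg hΓ c η) hc).trans (sumw_S8 hG hmt hΓ hk η)

end sites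

/-! ### One scale -/

/-- The structure `CpyP` of helper60 for one context. -/
theorem Cp8.cpy {s : ℝ} {D : Sd8} {n m₂ g k : ℕ} {e a p s' κ' : ℝ} {Γ : Cx} {Ψ Sg : Env → ℝ} {V So : ℕ → ℕ × ℤ → Set Env}
    {bO : ℕ → ℕ × ℤ → Env → ℝ} {Bd : Set Env} (h : Cp8 μ s D n m₂ g k e a p s' Γ Ψ Sg V So bO Bd) (hD : SdOk8 μ s n m₂ κ' D)
    (hΓ : Γ.Ok) (hk : D.k n e Γ ≤ Γ.N) (ha : 0 ≤ a) (hp : 0 ≤ p) :
    CpyP μ D.G D.L D.A D.Lv D.m m₂ g k (D.S n e Γ) V So D.SI (fun c ω => Γ.w c ω) a p ((n : ℝ) ^ (-(60 : ℝ))) ((n : ℝ) ^ (-s')) where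
  mV := h.half.mV
  mS := h.half.mS hD.mSI
  mw := fun c _ => Γ.meas_w c
  w0 := fun c _ ω => Cx.w_nonneg hΓ c ω
  w1 := fun ω => sumw_S8 hD.ok hD.mtL hΓ hk ω
  oV := h.oV
  eV := h.half.eV
  oS := h.half.oS hD.ok hD.nest fun j hj => (hD.mmt j hj).trans hD.mtL
  eS := h.half.eS hD.ok fun j hj => (hD.mmt j hj).trans hD.mtL
  fr := h.fresh
  hν := h.nu
  a0 := ha
  p0 := hp
  e0 := Real.rpow_nonneg (Nat.cast_nonneg n) _

/-- **TWO CONTEXTS OVER THE SAME DATA.** -/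
theorem pair8 {s : ℝ} {D : Sd8} {n m₂ g k : ℕ} {e a p s' κ' c₀ : ℝ} {Γ Γ' : Cx} {Ψ Sg Ψ' Sg' : Env → ℝ}
    {V So V' So' : ℕ → ℕ × ℤ → Set Env} {bO bO' : ℕ → ℕ × ℤ → Env → ℝ} {Bd Bd' : Set Env}
    (h : Cp8 μ s D n m₂ g k e a p s' Γ Ψ Sg V So bO Bd) (h' : Cp8 μ s D n m₂ g k e a p s' Γ' Ψ' Sg' V' So' bO' Bd')
    (hD : SdOk8 μ s n m₂ κ' D) (hΓ : Γ.Ok) (hΓ' : Γ'.Ok) (hk : D.k n e Γ ≤ Γ.N) (hk' : D.k n e Γ' ≤ Γ'.N) (h2 : 1 ≤ m₂)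
    (hn : 3 ≤ n) (hN : Γ.N ≤ n ^ 4) (hN' : Γ'.N ≤ n ^ 4) (hsl : |sl μ s| ≤ 1) (h0 : c₀ ≤ 1)
    (hS : ∀ η, |Ψ η| ≤ Sg η) (hS' : ∀ η, |Ψ' η| ≤ Sg' η) (hs1 : (n : ℝ) ^ (-s') * 6 ≤ 1)
    (hs2 : 3 * (n : ℝ) ^ (-s') ≤ (n : ℝ) ^ (-c₀)) (hE : 0 ≤ EE μ s n)
    (hN2 : ∑ c ∈ D.S n e Γ, ∑ c' ∈ D.S n e Γ', ∫ z in (⋃ t ∈ Finset.range D.m, Ut D.G D.L D.Lv (m₂ + g) D.m (fun i => i - 2) V So V' So'
      D.SI t (c, c'))ᶜ, Γ.w c z.1 * Γ'.w c' z.2 ∂((law μ).prod (law μ)) ≤ (n : ℝ) ^ (-c₀)) :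
    Exch8 (law μ) Γ.B (Γ.rows (D.d n e) (D.k n e Γ)) (Γ'.rows (D.d n e) (D.k n e Γ')) Γ.w Γ'.w Ψ Sg Ψ' Sg' n (EE μ s n)
      ((n : ℝ) ^ (-c₀)) := by
  have hnR : (3 : ℝ) ≤ n := by exact_mod_cast hn
  have n0 : (0 : ℝ) < n := by linarith
  have hm : ∀ j < D.m, j ≤ D.L := fun j hj => (hD.mmt j hj).trans hD.mtL
  have t0 : 0 ≤ (n : ℝ) ^ (-(40 : ℝ)) := Real.rpow_nonneg n0.le _
  have th0 : 0 ≤ (n : ℝ) ^ (-s') := Real.rpow_nonneg n0.le _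
  have th1 : (n : ℝ) ^ (-s') ≤ 1 := by linarith
  have hB : ∀ l < D.m, ∀ c ∈ D.S n e Γ, ∀ d ∈ D.S n e Γ, D.G.x l c = D.G.x l d →
      ∀ η ∈ Su D.G D.L D.Lv (fun i => i - 2) V So D.SI l c, ∀ η' ∈ Su D.G D.L D.Lv (fun i => i - 2) V So D.SI l d, η ∉ Bd → η' ∉ Bd →
      (∀ q, q ∉ D.A l → sh (D.G.x l c) η q = sh (D.G.x l c) η' q) → |Γ.B η - Γ.B η'| ≤ 2 * ((n : ℝ) ^ (-s') * EE μ s n) := by
    intro l hl c hc d hd hx η hη η' hη' hb hb' heq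
    have hz : D.G.z l c = D.G.z l d := T10.pt_inj hx
    have a1 := h.bal l hl c hc η hη hb
    have a2 := h.bal l hl d hd η' hη' hb'
    rw [← hz] at a2
    have a3 : bO l (D.G.z l c) η = bO l (D.G.z l c) η' := by
      refine h.obO l hl c hc η η' fun q hq => ?_
      have h1 : q - D.G.x l c ∉ D.A l := hq
      have h2 := heq _ h1
      have e1 : ∀ ζ : Env, sh (D.G.x l c) ζ (q - D.G.x l c) = ζ q := fun ζ => by
        show ζ (q - D.G.x l c + D.G.x l c) = ζ q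
        rw [sub_add_cancel]
      rwa [e1, e1] at h2
    rw [← a3] at a2
    have a4 : Γ.B η - Γ.B η' = (Γ.B η - bO l (D.G.z l c) η) - (Γ.B η' - bO l (D.G.z l c) η) := by ring
    rw [a4]
    exact (abs_sub _ _).trans (by linarith)
  have key := junP98 (μ := μ) (Lv := D.Lv) (M := m₂ + g) (mi := fun i => i - 2) (T := D.S n e Γ) (T' := D.S n e Γ') hD.ok hD.nest hD.rd
    hD.mLv hm (by omega) (by omega) hD.mSI hD.iSI h.half h'.half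
    (pm_Sc98 hD.ok hD.mtL hD.mmt) h.mB h'.mB (B := Γ.B)
    (C := fun b η => Γ.w b η * clp n (Ψ η)) (w := Γ.w) (ws := fun b η => Γ.w b η * (1 + Sg η))
    (C' := fun b η => Γ'.w b η * clp n (Ψ' η)) (w' := Γ'.w) (ws' := fun b η => Γ'.w b η * (1 + Sg' η))
    (F := fun l y η => cl1 (D.vI l y η) * clp n (D.PI l y η)) (Fw := fun l y η => cl1 (D.vI l y η))
    (o := 2 * ((n : ℝ) ^ (-s') * EE μ s n)) (t := ((n : ℝ) + 2) * (n : ℝ) ^ (-(40 : ℝ))) (th := 3 * (n : ℝ) ^ (-s'))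
    (fun l hl y => offF_mul (hD.ov l hl y) (hD.oP l hl y) n) (fun l hl y => offF_cl1 (hD.ov l hl y))
    (fun l hl c hc η hη hb => by
      have h1 := h.close l hl c hc η hη hb
      exact one_phi n0.le (Cx.w_nonneg hΓ c η) (w1_S8 hD.ok hD.mtL hΓ hk hc η) t0 th0 th1 (hS η) h1.1 h1.2)
    (fun l hl c hc η hη hb => one_phi_w n0.le (Cx.w_nonneg hΓ c η) (w1_S8 hD.ok hD.mtL hΓ hk hc η) t0 th0
      (h.close l hl c hc η hη hb).1)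
    (fun l hl c hc η hη hb => by
      have h1 := h'.close l hl c hc η hη hb
      exact one_phi n0.le (Cx.w_nonneg hΓ' c η) (w1_S8 hD.ok hD.mtL hΓ' hk' hc η) t0 th0 th1 (hS' η) h1.1 h1.2)
    (fun l hl c hc η hη hb => one_phi_w n0.le (Cx.w_nonneg hΓ' c η) (w1_S8 hD.ok hD.mtL hΓ' hk' hc η) t0 th0
      (h'.close l hl c hc η hη hb).1)
    hB
  have hm2 : D.m ≤ n := (Nat.lt_two_pow_self).le.trans hD.m2
  have e1 : D.G.H D.mt * ((Γ.N - n - D.d n e) / D.G.H D.mt) ≤ Γ.N := hk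
  have e2 : D.G.H D.mt * ((Γ'.N - n - D.d n e) / D.G.H D.mt) ≤ Γ'.N := hk'
  refine exch_num8 ⟨rows_S8 hD.ok hD.mtL, fun b hb hb' η => w_S8 hk hb hb' η⟩ ⟨rows_S8 hD.ok hD.mtL, fun b hb hb' η => w_S8 hk' hb hb' η⟩
    (fun b _ => Γ.meas_w b) (fun b _ => Γ'.meas_w b) hn hm2 (card_Sc8 e1 hN hn hD.Vn hsl hD.sn) (card_Sc8 e2 hN' hn hD.Vn hsl hD.sn) h0
    (by positivity) ?_ t0 le_rfl th0 (by linarith) hs2 (measurableSet_GdP h.mB h'.mB) ?_ key.1 key.2 hN2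
  · have h3 := mul_le_mul_of_nonneg_right (show 2 * (n : ℝ) ^ (-s') ≤ (n : ℝ) ^ (-c₀) by linarith) hE
    linarith
  · refine compl_GdP.trans ?_
    have b1 := h.bd
    have b2 := h'.bd
    linarith

/-! ### All contexts -/

/-- The gain. -/
theorem gain8 {a p : ℝ} (ha : 0 < a) (hp : 0 < p) (k : ℕ) : ∃ c : ℝ, 0 < c ∧ c ≤ 1 ∧ c * (1 + c) ^ k ≤ (a * p) * (a * p) := by
  have h0 : 0 < (a * p) * (a * p) := by positivity
  refine ⟨min 1 ((a * p) * (a * p) / 2 ^ k), lt_min one_pos (by positivity), min_le_left _ _, ?_⟩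
  obtain ⟨c, hc⟩ : ∃ c : ℝ, c = min 1 ((a * p) * (a * p) / 2 ^ k) := ⟨_, rfl⟩
  rw [← hc]
  have h1 : c ≤ 1 := hc ▸ min_le_left _ _
  have h2 : c ≤ (a * p) * (a * p) / 2 ^ k := hc ▸ min_le_right _ _
  have h3 : 0 < c := hc ▸ lt_min one_pos (by positivity)
  calc c * (1 + c) ^ k ≤ c * 2 ^ k := mul_le_mul_of_nonneg_left (pow_le_pow_left₀ (by linarith) (by linarith) k) h3.le
    _ ≤ (a * p) * (a * p) / 2 ^ k * 2 ^ k := mul_le_mul_of_nonneg_right h2 (by positivity)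
    _ = (a * p) * (a * p) := by field_simp

/-- The error of the chain. -/
theorem err8 {n m a b : ℕ} {c : ℝ} (hn : 3 ≤ n) (hm : 2 ^ m ≤ n) (hc : 0 ≤ c) (hc1 : c ≤ 1) (ha : (a : ℝ) ≤ (n : ℝ) ^ (16 : ℝ))
    (hb : (b : ℝ) ≤ (n : ℝ) ^ (16 : ℝ)) :
    (m : ℝ) * (a * b * ((1 + c) ^ m * (a * (n : ℝ) ^ (-(60 : ℝ)) + b * (n : ℝ) ^ (-(60 : ℝ))))) ≤ 1 := by
  have hnR : (3 : ℝ) ≤ n := by exact_mod_cast hn
  have n0 : (0 : ℝ) < n := by linarith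
  have e1 : (n : ℝ) ^ (-(60 : ℝ)) = ((n : ℝ) ^ 60)⁻¹ := by
    rw [Real.rpow_neg n0.le]
    norm_cast
  have e2 : (n : ℝ) ^ (16 : ℝ) = (n : ℝ) ^ 16 := by norm_cast
  rw [e2] at ha hb
  rw [e1]
  have h1 : (m : ℝ) ≤ n := by
    have : m ≤ n := (Nat.lt_two_pow_self).le.trans hm
    exact_mod_cast this
  have h2 : (1 + c) ^ m ≤ n := by
    calc (1 + c) ^ m ≤ 2 ^ m := pow_le_pow_left₀ (by linarith) (by linarith) m
      _ ≤ n := by exact_mod_cast hm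
  have h3 : (a : ℝ) * ((n : ℝ) ^ 60)⁻¹ + b * ((n : ℝ) ^ 60)⁻¹ ≤ 2 * (n : ℝ) ^ 16 * ((n : ℝ) ^ 60)⁻¹ := by
    have := mul_le_mul_of_nonneg_right (add_le_add ha hb) (show 0 ≤ ((n : ℝ) ^ 60)⁻¹ by positivity)
    linarith
  calc (m : ℝ) * (a * b * ((1 + c) ^ m * (a * ((n : ℝ) ^ 60)⁻¹ + b * ((n : ℝ) ^ 60)⁻¹)))
      ≤ n * ((n : ℝ) ^ 16 * (n : ℝ) ^ 16 * (n * (2 * (n : ℝ) ^ 16 * ((n : ℝ) ^ 60)⁻¹))) := by
        refine mul_le_mul h1 (mul_le_mul (mul_le_mul ha hb (by positivity) (by positivity)) (mul_le_mul h2 h3 (by positivity) n0.le)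
          (by positivity) (by positivity)) (by positivity) n0.le
    _ = 2 * ((n : ℝ) ^ 10)⁻¹ := by
        field_simp
    _ ≤ (n : ℝ) ^ 10 * ((n : ℝ) ^ 10)⁻¹ := by
        refine mul_le_mul_of_nonneg_right ?_ (by positivity)
        calc (2 : ℝ) ≤ 3 ^ 10 := by norm_num
          _ ≤ (n : ℝ) ^ 10 := pow_le_pow_left₀ (by norm_num) hnR 10
    _ = 1 := by field_simp

/-- **FROM THE SHELL TO THE EXCHANGE.** -/
theorem pdiG_of8 {s : ℝ} (hsl : |sl μ s| ≤ 1) {Ψ Sg : Cx → Env → ℝ} (hT : TF μ Ψ Sg)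
    (hw1 : ∀ᶠ n : ℕ in atTop, 1 ≤ wd μ s n) (hX : ShlG8 μ s Ψ Sg) : PdiG8 μ s Ψ Sg := by
  intro e he he1
  obtain ⟨m₂, g, k, κ', a, p, s', h2, hg, hκ', ha, hp, hs', hX⟩ := hX e he he1
  obtain ⟨cw, hcw, hcw1, hcw2⟩ := gain8 ha hp k
  have hM : (0 : ℝ) < ((m₂ + g : ℕ) : ℝ) := by exact_mod_cast (by omega : 0 < m₂ + g)
  obtain ⟨x, hx⟩ : ∃ x : ℝ, x = κ' / (8 * ((m₂ + g : ℕ) : ℝ)) * Real.log (1 + cw) := ⟨_, rfl⟩
  have x0 : 0 < x := by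
    have := Real.log_pos (show (1 : ℝ) < 1 + cw by linarith)
    rw [hx]
    positivity
  obtain ⟨c₀, hc₀⟩ : ∃ c₀ : ℝ, c₀ = min (s' / 2) (min (x / 2) (1 / 32)) := ⟨_, rfl⟩
  have p0 : 0 < c₀ := by
    rw [hc₀]
    exact lt_min (by linarith) (lt_min (by linarith) (by norm_num))
  have q1 : c₀ ≤ s' / 2 := hc₀ ▸ min_le_left _ _
  have q2 : c₀ ≤ x / 2 := hc₀ ▸ (min_le_right _ _).trans (min_le_left _ _)
  have q3 : c₀ ≤ 1 / 32 := hc₀ ▸ (min_le_right _ _).trans (min_le_right _ _)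
  refine ⟨c₀, p0, fun c hc hc1 δ hδ hδc => ?_⟩
  have hc2 : c ≤ 1 / 32 := hc1.trans q3
  obtain ⟨κ₀, hκ₀, hX⟩ := hX c hc (by linarith) δ hδ hδc
  refine ⟨κ₀, hκ₀, fun κ hκ hκκ => ?_⟩
  have ev : ∀ {y : ℝ}, 0 < y → ∀ M : ℝ, ∀ᶠ n : ℕ in atTop, M ≤ (n : ℝ) ^ y := fun hy M =>
    ((tendsto_rpow_atTop hy).comp tendsto_natCast_atTop_atTop).eventually_ge_atTop M
  have hN2 := n2T8 (μ := μ) (κ := κ') (c := cw) (s := s') (B := 16) (c₀ := c₀) hκ' hcw hcw1 h2 hg (k := k) (by rw [← hx]; linarith)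
    (by linarith) (by linarith)
  filter_upwards [hX κ hκ hκκ, hN2, ev (show (0 : ℝ) < 29 / 32 by norm_num) 4, ev (show (0 : ℝ) < s' - c₀ by linarith) 3, ev hs' 6,
    ev hδ 2, hw1, eventually_ge_atTop 3, ev (show (0 : ℝ) < 1 - e by linarith) 2] with n hn hN2 ev4 ev3 ev6 ev2 hw hn3 evd
  obtain ⟨D, hD, hn⟩ := hn
  have hn1 : 1 ≤ n := by omega
  have hnR : (3 : ℝ) ≤ n := by exact_mod_cast hn3
  have n0 : (0 : ℝ) < n := by linarith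
  have hH : 0 < D.G.H D.mt := hD.ok.H0 D.mt hD.mtL
  have hd : D.d n e ≤ n := by
    have h1 : D.d n e ≤ ⌈(n : ℝ) ^ e⌉₊ := dT_le _ _
    have h3 : (⌈(n : ℝ) ^ e⌉₊ : ℝ) < (n : ℝ) ^ e + 1 := Nat.ceil_lt_add_one (Real.rpow_nonneg n0.le _)
    have h4 : 2 * (n : ℝ) ^ e ≤ n := by
      calc 2 * (n : ℝ) ^ e ≤ (n : ℝ) ^ (1 - e) * (n : ℝ) ^ e := mul_le_mul_of_nonneg_right evd (by positivity)
        _ = n := by
          rw [← Real.rpow_add n0]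
          simp
    have h5 : 1 ≤ (n : ℝ) ^ e := Real.one_le_rpow (by linarith) he.le
    have h6 : ((D.d n e : ℕ) : ℝ) < n + 1 := by
      have : ((D.d n e : ℕ) : ℝ) ≤ (⌈(n : ℝ) ^ e⌉₊ : ℝ) := by exact_mod_cast h1
      linarith
    have h7 : D.d n e < n + 1 := by exact_mod_cast h6
    omega
  have dims : ∀ Γ : Cx, Adm μ s c δ κ n Γ → D.d n e ≤ D.k n e Γ ∧ D.k n e Γ ≤ Γ.N ∧ Γ.M + Γ.N ≤ 2 * D.k n e Γ := by
    intro Γ hA
    have h1 := dims98n hA hn3 hH hD.Hn hd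
    have h3 : D.k n e Γ = kT (D.G.H D.mt) (D.d n e) (Γ.N - n) := rfl
    rw [h3]
    refine ⟨h1.1, by omega, h1.2.2.1⟩
  refine ⟨n, D.d n e, D.k n e, le_rfl, dT_le _ _, dims, fun Γ hA => ?_⟩
  have hR : Adm μ s c δ κ n (ref μ s n) := ref_adm hn1 hc.le hw ev2
  obtain ⟨V, So, bO, Bd, hC⟩ := hn Γ hA
  obtain ⟨V', So', bO', Bd', hC'⟩ := hn _ hR
  have dG := dims Γ hA
  have dR := dims _ hR
  have hG := hA.ok
  have hG' := hR.ok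
  have NG := rows_le8 hA hc2 hn1 ev4
  have NR := rows_le8 hR hc2 hn1 ev4
  have i1 : 3 * (n : ℝ) ^ (-s') ≤ (n : ℝ) ^ (-c₀) := by
    calc 3 * (n : ℝ) ^ (-s') ≤ (n : ℝ) ^ (s' - c₀) * (n : ℝ) ^ (-s') := mul_le_mul_of_nonneg_right ev3 (by positivity)
      _ = (n : ℝ) ^ (-c₀) := by
        rw [← Real.rpow_add n0]
        congr 1
        ring
  have i2 : (n : ℝ) ^ (-s') * 6 ≤ 1 := by
    calc (n : ℝ) ^ (-s') * 6 ≤ (n : ℝ) ^ (-s') * (n : ℝ) ^ s' := mul_le_mul_of_nonneg_left ev6 (by positivity)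
      _ = 1 := by
        rw [← Real.rpow_add n0]
        simp
  have cast16 : ∀ {x : ℕ}, x ≤ n ^ 16 → (x : ℝ) ≤ (n : ℝ) ^ (16 : ℝ) := fun {x} hx => by
    have e2 : (n : ℝ) ^ (16 : ℝ) = (n : ℝ) ^ 16 := by norm_cast
    rw [e2]
    exact_mod_cast hx
  have k1 : D.G.H D.mt * ((Γ.N - n - D.d n e) / D.G.H D.mt) ≤ Γ.N := dG.2.1
  have k2 : D.G.H D.mt * (((ref μ s n).N - n - D.d n e) / D.G.H D.mt) ≤ (ref μ s n).N := dR.2.1
  have card1 : ((D.S n e Γ).card : ℝ) ≤ (n : ℝ) ^ (16 : ℝ) := cast16 (card_Sc8 k1 NG hn3 hD.Vn hsl hD.sn)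
  have card2 : ((D.S n e (ref μ s n)).card : ℝ) ≤ (n : ℝ) ^ (16 : ℝ) := cast16 (card_Sc8 k2 NR hn3 hD.Vn hsl hD.sn)
  have e34 : (-(2 * (16 : ℝ) + 2)) = -(34 : ℝ) := by norm_num
  have tl := hC.tau
  have tl' := hC'.tau
  rw [← e34] at tl tl'
  refine pair8 hC hC' hD hG hG' dG.2.1 dR.2.1 h2 hn3 NG NR hsl (by linarith) (hT.le Γ hG) (hT.le _ hG') i2 i1
    (zero_le_one.trans (Pool.Agent.W_7d29a1_H.one_le_EE (μ := μ) (s := s) n)) ?_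
  exact hN2 D.m D.L hD.m1 hD.mL D.G D.A D.Lv hD.ok hD.nest hD.rd hD.mLv _ _ V So V' So' D.SI _ _ a p _ _ a p _ _
    (hC.cpy hD hG dG.2.1 ha.le hp.le) (hC'.cpy hD hG' dR.2.1 ha.le hp.le) tl tl' hcw2 le_rfl le_rfl card1 card2
    (err8 hn3 hD.m2 hcw.le hcw1 card1 card2)

omit [IsProbabilityMeasure μ] in
theorem sl8 {s c₁ C : ℝ} {n₀ : ℕ} (h : In μ s c₁ C n₀) : |sl μ s| ≤ 1 := by
  obtain ⟨H, δ, hD⟩ := h.dir
  have h0 := hD.δ0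
  have h1 := hD.lo s rfl
  have h2 := hD.hi s rfl
  rw [abs_le]
  constructor <;> linarith

theorem wd8 {s c₁ C : ℝ} {n₀ : ℕ} (h : In μ s c₁ C n₀) : ∀ᶠ n : ℕ in atTop, 1 ≤ wd μ s n := by
  obtain ⟨H, δ, hD⟩ := h.dir
  filter_upwards [h.tE.eventually_ge_atTop 2, eventually_ge_atTop 1] with n hE hn1
  have h1 := hD.vA_lower (s := s) rfl (a := 1) zero_le_one hn1
  have hnp : (0 : ℝ) < n := by exact_mod_cast (by omega : 0 < n)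
  have h2 := mul_le_mul_of_nonneg_left h1 hnp.le
  have h3 : (n : ℝ) * (2 * (1 * EE μ s n / n)) = 2 * EE μ s n := by
    field_simp
  rw [h3] at h2
  unfold wd
  linarith

/-- **THE RESULT OF THE EXCHANGE FROM THE SHELL.** -/
theorem lecQ_of8 {s c₁ C : ℝ} {n₀ : ℕ} (h : In μ s c₁ C n₀) {Ψ Sg : Cx → Env → ℝ} (hT : TF μ Ψ Sg) (hX : ShlG8 μ s Ψ Sg) :
    LecQ μ s Ψ Sg :=
  lecG8 h (wd8 h) hT (pdiG_of8 (sl8 h) hT (wd8 h) hX)

end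

end Pool.Agent.W_7d29a1_C1.H8
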