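import Pool.Agent.W_7d29a1_C1.AsmM8
import Pool.Agent.W_7d29a1_C1.AsmH54

/-!
MP_7d29a1_pr, attractor route (helper8): THE LOSS OF MEMORY AT ONE SITE FROM THE SHELL (`ShlG8` with the split functional of helper54).
-/

set_option autoImplicit false

namespace Pool.Agent.W_7d29a1_C1.H8

open MeasureTheory
open Pool.Agent.W_7d29a1_F Pool.Agent.W_7d29a1_h4g Pool.Agent.W_7d29a1_H Pool.Agent.W_7d29a1_HS
open Pool.Agent.W_7d29a1_C1.H60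
open Pool.Agent.W_7d29a1_C1.H54 (LMR54 PhC ShC lmr_lec54)

variable {μ : Measure ℝ} [IsProbabilityMeasure μ] {s : ℝ} {c C : ℝ} {n₀ : ℕ}

/-- **THE LOSS OF MEMORY AT ONE SITE FROM THE SHELL.** -/
theorem lmr_shl8 (h : In μ s c C n₀)
    (hL : ∀ ε : ℝ, 0 < ε → ∃ n₁ : ℕ, ∀ n : ℕ, n₁ ≤ n → wd μ s n ≤ (n : ℝ) ^ ε * EE μ s n ^ 2)
    (hU : ∀ ε : ℝ, 0 < ε → ∃ n₁ : ℕ, ∀ n : ℕ, n₁ ≤ n → EE μ s n ^ 2 ≤ (n : ℝ) ^ ε * wd μ s n)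
    (hX : ShlG8 μ s PhC ShC) : LMR54 μ s :=
  lmr_lec54 h hL hU (lecQ_of8 h (tfS68 h.em Ch87.meas_chiC Ch87.chiC_nonneg Ch87.chiC_le_one) hX)

end Pool.Agent.W_7d29a1_C1.H8
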