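import Pool.Agent.W_7d29a1_C1.AsmA60

/-!
Both halves (MP_7d29a1_pr), attractor route: THE ASSEMBLY WITH A RELATIVE ERROR. (helper9, over helper60)

`PDr` = the exchange of the insides of two copies, up to `t` and a relative error `th` (the two contexts have different step
weights in the exchanged region). `lecr9` = the comparison of the ratio in two contexts.
-/

set_option autoImplicit false

namespace Pool.Agent.W_7d29a1_C1.H60

open MeasureTheory

variable {Ω : Type*} [MeasurableSpace Ω] {P : Measure Ω} {ι ι' : Type*}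

/-- The exchange of the insides, with a relative error. -/
structure PDr (P : Measure Ω) (B C w ws C' w' ws' : Ω → ℝ) (m : ℕ) (σ : ℕ → Ω × Ω → Ω × Ω) (A D : ℕ → Set (Ω × Ω))
    (o t th : ℝ) : Prop where
  mp : ∀ i < m, MeasurePreserving (σ i) (P.prod P) (P.prod P)
  mA : ∀ i, MeasurableSet (A i)
  mD : ∀ i, MeasurableSet (D i)
  dj : Pairwise fun i j => Disjoint (A i) (A j)
  inv : ∀ i < m, ∀ z, z ∉ D i → (z ∈ A i ↔ σ i z ∈ A i)
  c1 : ∀ i < m, ∀ z ∈ A i, |C (σ i z).1 - C' z.2| ≤ t + th * (ws (σ i z).1 + ws' z.2)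
  c2 : ∀ i < m, ∀ z ∈ A i, |C' (σ i z).2 - C z.1| ≤ t + th * (ws' (σ i z).2 + ws z.1)
  w1 : ∀ i < m, ∀ z ∈ A i, |w (σ i z).1 - w' z.2| ≤ t + th * (w (σ i z).1 + w' z.2)
  w2 : ∀ i < m, ∀ z ∈ A i, |w' (σ i z).2 - w z.1| ≤ t + th * (w' (σ i z).2 + w z.1)
  b : ∀ i < m, ∀ z ∈ A i, |B (σ i z).1 - B z.1| ≤ o

/-- Real numbers: the cross terms. `1` = first copy, `2` = second copy, `a` = after the exchange. -/
theorem cross9 {t th K C1 C2 w1 w2 s1 s2 R2 D1 D2 v1 v2 r1 r2 Q2 : ℝ} (K0 : 0 ≤ K) (t0 : 0 ≤ t) (th0 : 0 ≤ th) (th1 : th ≤ 1 / 2)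
    (w10 : 0 ≤ w1) (w20 : 0 ≤ w2) (w11 : w1 ≤ 1) (w21 : w2 ≤ 1) (s10 : 0 ≤ s1) (s20 : 0 ≤ s2)
    (v10 : 0 ≤ v1) (v20 : 0 ≤ v2) (v11 : v1 ≤ 1) (v21 : v2 ≤ 1) (r10 : 0 ≤ r1) (r20 : 0 ≤ r2) (R20 : 0 ≤ R2) (Q20 : 0 ≤ Q2)
    (hC2 : |C2| ≤ K * s2 + R2) (hD2 : |D2| ≤ K * r2 + Q2)
    (k1 : |D1 - C2| ≤ t + th * (r1 + s2)) (k2 : |D2 - C1| ≤ t + th * (r2 + s1)) (k3 : |v1 - w2| ≤ t + th * (v1 + w2))
    (k4 : |v2 - w1| ≤ t + th * (v2 + w1)) :
    |(D1 * v2 - v1 * D2) + (C1 * w2 - w1 * C2)| ≤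
      t * (2 + s2 + r2 + 2 * |C2| + 2 * |D2|) +
        th * ((3 + 4 * K) * ((s1 * w2 + w1 * s2) + (r1 * v2 + v1 * r2)) + 4 * (R2 + Q2)) := by
  have K0' : 0 ≤ |C2| := abs_nonneg _
  have K1' : 0 ≤ |D2| := abs_nonneg _
  -- comparison of the weights
  have a1 : v2 ≤ 3 * w1 + 2 * t := by
    have := (abs_le.1 k4).2
    nlinarith
  have a2 : w2 ≤ 3 * v1 + 2 * t := by
    have := (abs_le.1 k3).1
    nlinarith
  have e : (D1 * v2 - v1 * D2) + (C1 * w2 - w1 * C2) =
      (D1 - C2) * v2 + C2 * (v2 - w1) - ((v1 - w2) * D2 + w2 * (D2 - C1)) := by ring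
  have T1 : |(D1 - C2) * v2| ≤ t * (1 + s2) + th * (r1 * v2 + 3 * (w1 * s2)) := by
    rw [abs_mul, abs_of_nonneg v20]
    calc |D1 - C2| * v2 ≤ (t + th * (r1 + s2)) * v2 := mul_le_mul_of_nonneg_right k1 v20
      _ = t * v2 + th * (r1 * v2) + th * s2 * v2 := by ring
      _ ≤ t * 1 + th * (r1 * v2) + th * s2 * (3 * w1 + 2 * t) := by gcongr
      _ = t * (1 + 2 * th * s2) + th * (r1 * v2 + 3 * (w1 * s2)) := by ring
      _ ≤ t * (1 + 1 * s2) + th * (r1 * v2 + 3 * (w1 * s2)) := by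
          have : 2 * th ≤ 1 := by linarith
          gcongr
      _ = _ := by ring
  have T2 : |C2 * (v2 - w1)| ≤ t * (2 * |C2|) + th * (4 * (K * (w1 * s2)) + 4 * R2) := by
    rw [abs_mul]
    have b1 : |v2 - w1| ≤ t + th * (4 * w1 + 2 * t) := by
      refine k4.trans ?_
      have : th * (v2 + w1) ≤ th * (4 * w1 + 2 * t) := mul_le_mul_of_nonneg_left (by linarith) th0
      linarith
    have b2 : |C2| * w1 ≤ K * (w1 * s2) + R2 := by
      calc |C2| * w1 ≤ (K * s2 + R2) * w1 := mul_le_mul_of_nonneg_right hC2 w10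
        _ = K * (w1 * s2) + R2 * w1 := by ring
        _ ≤ K * (w1 * s2) + R2 * 1 := by gcongr
        _ = _ := by ring
    calc |C2| * |v2 - w1| ≤ |C2| * (t + th * (4 * w1 + 2 * t)) := mul_le_mul_of_nonneg_left b1 K0'
      _ = t * ((1 + 2 * th) * |C2|) + th * (4 * (|C2| * w1)) := by ring
      _ ≤ t * (2 * |C2|) + th * (4 * (K * (w1 * s2) + R2)) := by
          have : 1 + 2 * th ≤ 2 := by linarith
          gcongr
      _ = _ := by ring
  have T3 : |(v1 - w2) * D2| ≤ t * (2 * |D2|) + th * (4 * (K * (v1 * r2)) + 4 * Q2) := by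
    rw [abs_mul, mul_comm]
    have b1 : |v1 - w2| ≤ t + th * (4 * v1 + 2 * t) := by
      refine k3.trans ?_
      have : th * (v1 + w2) ≤ th * (4 * v1 + 2 * t) := mul_le_mul_of_nonneg_left (by linarith) th0
      linarith
    have b2 : |D2| * v1 ≤ K * (v1 * r2) + Q2 := by
      calc |D2| * v1 ≤ (K * r2 + Q2) * v1 := mul_le_mul_of_nonneg_right hD2 v10
        _ = K * (v1 * r2) + Q2 * v1 := by ring
        _ ≤ K * (v1 * r2) + Q2 * 1 := by gcongr
        _ = _ := by ring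
    calc |D2| * |v1 - w2| ≤ |D2| * (t + th * (4 * v1 + 2 * t)) := mul_le_mul_of_nonneg_left b1 K1'
      _ = t * ((1 + 2 * th) * |D2|) + th * (4 * (|D2| * v1)) := by ring
      _ ≤ t * (2 * |D2|) + th * (4 * (K * (v1 * r2) + Q2)) := by
          have : 1 + 2 * th ≤ 2 := by linarith
          gcongr
      _ = _ := by ring
  have T4 : |w2 * (D2 - C1)| ≤ t * (1 + r2) + th * (s1 * w2 + 3 * (v1 * r2)) := by
    rw [abs_mul, abs_of_nonneg w20]
    calc w2 * |D2 - C1| ≤ w2 * (t + th * (r2 + s1)) := mul_le_mul_of_nonneg_left k2 w20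
      _ = t * w2 + th * (s1 * w2) + th * r2 * w2 := by ring
      _ ≤ t * 1 + th * (s1 * w2) + th * r2 * (3 * v1 + 2 * t) := by gcongr
      _ = t * (1 + 2 * th * r2) + th * (s1 * w2 + 3 * (v1 * r2)) := by ring
      _ ≤ t * (1 + 1 * r2) + th * (s1 * w2 + 3 * (v1 * r2)) := by
          have : 2 * th ≤ 1 := by linarith
          gcongr
      _ = _ := by ring
  have tri : |(D1 * v2 - v1 * D2) + (C1 * w2 - w1 * C2)| ≤
      |(D1 - C2) * v2| + |C2 * (v2 - w1)| + (|(v1 - w2) * D2| + |w2 * (D2 - C1)|) := by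
    rw [e]
    exact (abs_sub _ _).trans (add_le_add (abs_add_le _ _) (abs_add_le _ _))
  have m1 : 0 ≤ r1 * v2 := mul_nonneg r10 v20
  have m2 : 0 ≤ s1 * w2 := mul_nonneg s10 w20
  have m3 : 0 ≤ w1 * s2 := mul_nonneg w10 s20
  have m4 : 0 ≤ v1 * r2 := mul_nonneg v10 r20
  have m5 := mul_nonneg K0 m1
  have m6 := mul_nonneg K0 m2
  have inner : (r1 * v2 + 3 * (w1 * s2)) + (4 * (K * (w1 * s2)) + 4 * R2) + (4 * (K * (v1 * r2)) + 4 * Q2) +
      (s1 * w2 + 3 * (v1 * r2)) ≤ (3 + 4 * K) * ((s1 * w2 + w1 * s2) + (r1 * v2 + v1 * r2)) + 4 * (R2 + Q2) := by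
    nlinarith
  have inner' := mul_le_mul_of_nonneg_left inner th0
  calc _ ≤ _ := tri
    _ ≤ (t * (1 + s2) + th * (r1 * v2 + 3 * (w1 * s2))) + (t * (2 * |C2|) + th * (4 * (K * (w1 * s2)) + 4 * R2)) +
        ((t * (2 * |D2|) + th * (4 * (K * (v1 * r2)) + 4 * Q2)) + (t * (1 + r2) + th * (s1 * w2 + 3 * (v1 * r2)))) :=
        add_le_add (add_le_add T1 T2) (add_le_add T3 T4)
    _ = t * (2 + s2 + r2 + 2 * |C2| + 2 * |D2|) + th * ((r1 * v2 + 3 * (w1 * s2)) + (4 * (K * (w1 * s2)) + 4 * R2) +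
        (4 * (K * (v1 * r2)) + 4 * Q2) + (s1 * w2 + 3 * (v1 * r2))) := by ring
    _ ≤ _ := by linarith

section pair

variable {S : Finset ι} {S' : Finset ι'} {C w ws R : ι → Ω → ℝ} {C' w' ws' R' : ι' → Ω → ℝ} {K X X' t t' : ℝ}

/-- **The antisymmetric function and its exchange.** -/
theorem abs_HH_add_le9 (h : CD P S C w ws R K X t) (h' : CD P S' C' w' ws' R' K X' t') {g : ℝ → ℝ} {G L : ℝ}
    (g0 : ∀ x, 0 ≤ g x) (gG : ∀ x, g x ≤ G) (gL : ∀ x y, |g x - g y| ≤ L * |x - y|) {B : Ω → ℝ} {c : ι} (hc : c ∈ S)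
    {c' : ι'} (hc' : c' ∈ S') {m : ℕ} {σ : ℕ → Ω × Ω → Ω × Ω} {A D : ℕ → Set (Ω × Ω)} {o τ th : ℝ} (τ0 : 0 ≤ τ)
    (th0 : 0 ≤ th) (th1 : th ≤ 1 / 2) (hP : PDr P B (C c) (w c) (ws c) (C' c') (w' c') (ws' c') m σ A D o τ th)
    {i : ℕ} (hi : i < m) {z : Ω × Ω} (hz : z ∈ A i) :
    |HH g B (C c) (w c) (C' c') (w' c') z + HH g B (C c) (w c) (C' c') (w' c') (σ i z)| ≤
      L * o * (K * pw (w c) (ws c) (w' c') (ws' c') z + (R c z.1 + R' c' z.2)) +
        G * (τ * (2 + ws' c' z.2 + ws' c' (σ i z).2 + 2 * |C' c' z.2| + 2 * |C' c' (σ i z).2|) +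
          th * ((3 + 4 * K) * (pw (w c) (ws c) (w' c') (ws' c') z + pw (w c) (ws c) (w' c') (ws' c') (σ i z)) +
            4 * (R' c' z.2 + R' c' (σ i z).2))) := by
  have L0 : 0 ≤ L := by
    have h1 := gL 1 0
    have h2 := abs_nonneg (g 1 - g 0)
    simp only [sub_zero, abs_one, mul_one] at h1
    linarith
  have G0 : 0 ≤ G := (g0 0).trans (gG 0)
  have k5 := hP.b i hi z hz
  have o0 : 0 ≤ o := (abs_nonneg _).trans k5
  -- the first part
  have a1 := h.bC c hc z.1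
  have a2 := h'.bC c' hc' z.2
  have b1 := h.w0 c hc z.1
  have b2 := h'.w0 c' hc' z.2
  have b3 := h.w1 hc z.1
  have b4 := h'.w1 hc' z.2
  have r1 := h.R0 c hc z.1
  have r2 := h'.R0 c' hc' z.2
  have e1 : |C c z.1 * w' c' z.2 - w c z.1 * C' c' z.2| ≤ K * pw (w c) (ws c) (w' c') (ws' c') z + (R c z.1 + R' c' z.2) := by
    refine (abs_sub _ _).trans ?_
    rw [abs_mul, abs_mul, abs_of_nonneg b1, abs_of_nonneg b2]
    have e2 : |C c z.1| * w' c' z.2 ≤ (K * ws c z.1 + R c z.1) * w' c' z.2 := mul_le_mul_of_nonneg_right a1 b2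
    have e3 : w c z.1 * |C' c' z.2| ≤ w c z.1 * (K * ws' c' z.2 + R' c' z.2) := mul_le_mul_of_nonneg_left a2 b1
    have e4 : R c z.1 * w' c' z.2 ≤ R c z.1 := mul_le_of_le_one_right r1 b4
    have e5 : w c z.1 * R' c' z.2 ≤ R' c' z.2 := mul_le_of_le_one_left r2 b3
    unfold pw
    nlinarith
  have g1 : |g (B z.1) - g (B (σ i z).1)| ≤ L * o := by
    refine (gL _ _).trans (mul_le_mul_of_nonneg_left ?_ L0)
    rw [abs_sub_comm]
    exact k5
  -- the second part
  have e7 := cross9 (C1 := C c z.1) (C2 := C' c' z.2) (D1 := C c (σ i z).1) (D2 := C' c' (σ i z).2) (w1 := w c z.1)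
    (w2 := w' c' z.2) (v1 := w c (σ i z).1) (v2 := w' c' (σ i z).2) (s1 := ws c z.1) (s2 := ws' c' z.2)
    (r1 := ws c (σ i z).1) (r2 := ws' c' (σ i z).2) (R2 := R' c' z.2) (Q2 := R' c' (σ i z).2) h.K0 τ0 th0 th1
    b1 b2 b3 b4 (h.ws0 c hc _) (h'.ws0 c' hc' _) (h.w0 c hc _) (h'.w0 c' hc' _) (h.w1 hc _) (h'.w1 hc' _) (h.ws0 c hc _)
    (h'.ws0 c' hc' _) r2 (h'.R0 c' hc' _) a2 (h'.bC c' hc' _) (hP.c1 i hi z hz) (hP.c2 i hi z hz) (hP.w1 i hi z hz)
    (hP.w2 i hi z hz)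
  have e8 : HH g B (C c) (w c) (C' c') (w' c') z + HH g B (C c) (w c) (C' c') (w' c') (σ i z) =
      (g (B z.1) - g (B (σ i z).1)) * (C c z.1 * w' c' z.2 - w c z.1 * C' c' z.2) +
        g (B (σ i z).1) * ((C c (σ i z).1 * w' c' (σ i z).2 - w c (σ i z).1 * C' c' (σ i z).2) +
          (C c z.1 * w' c' z.2 - w c z.1 * C' c' z.2)) := by
    unfold HH
    ring
  rw [e8]
  refine (abs_add_le _ _).trans (add_le_add ?_ ?_)
  · rw [abs_mul]
    exact mul_le_mul g1 e1 (abs_nonneg _) (by positivity)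
  · rw [abs_mul, abs_of_nonneg (g0 _)]
    refine mul_le_mul (gG _) (e7.trans (le_of_eq ?_)) (abs_nonneg _) G0
    unfold pw
    ring

/-- **One pair of contacts.** -/
theorem pairr9 [IsProbabilityMeasure P] (h : CD P S C w ws R K X t) (h' : CD P S' C' w' ws' R' K X' t') {g : ℝ → ℝ} {G L : ℝ}
    (hg : Measurable g) (g0 : ∀ x, 0 ≤ g x) (gG : ∀ x, g x ≤ G) (gL : ∀ x y, |g x - g y| ≤ L * |x - y|) {B : Ω → ℝ}
    (hB : Measurable B) {c : ι} (hc : c ∈ S) {c' : ι'} (hc' : c' ∈ S') {m : ℕ} {σ : ℕ → Ω × Ω → Ω × Ω}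
    {A D : ℕ → Set (Ω × Ω)} {o τ th : ℝ} (o0 : 0 ≤ o) (τ0 : 0 ≤ τ) (th0 : 0 ≤ th) (th1 : th ≤ 1 / 2)
    (hP : PDr P B (C c) (w c) (ws c) (C' c') (w' c') (ws' c') m σ A D o τ th) :
    |∫ z, HH g B (C c) (w c) (C' c') (w' c') z ∂(P.prod P)| ≤
      L * o * (K * ∫ z, pw (w c) (ws c) (w' c') (ws' c') z ∂(P.prod P) + (∫ ω, R c ω ∂P + ∫ ω, R' c' ω ∂P)) +
      m * (G * (τ * (2 + 2 * ∫ ω, ws' c' ω ∂P + 4 * ∫ ω, |C' c' ω| ∂P))) +
      G * (th * ((3 + 4 * K) * (2 * ∫ z, pw (w c) (ws c) (w' c') (ws' c') z ∂(P.prod P) +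
        ∑ i ∈ Finset.range m, ∫ z in D i, pw (w c) (ws c) (w' c') (ws' c') (σ i z) ∂(P.prod P)) +
          8 * (m * ∫ ω, R' c' ω ∂P))) +
      G * (K * (∑ i ∈ Finset.range m, ∫ z in D i, pw (w c) (ws c) (w' c') (ws' c') (σ i z) ∂(P.prod P)) +
        m * (∫ ω, R c ω ∂P + ∫ ω, R' c' ω ∂P)) +
      G * (K * (∫ z in (⋃ i ∈ Finset.range m, A i)ᶜ, pw (w c) (ws c) (w' c') (ws' c') z ∂(P.prod P)) +
        (∫ ω, R c ω ∂P + ∫ ω, R' c' ω ∂P)) := by
  classical
  have L0 : 0 ≤ L := by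
    have h1 := gL 1 0
    have h2 := abs_nonneg (g 1 - g 0)
    simp only [sub_zero, abs_one, mul_one] at h1
    linarith
  have G0 : 0 ≤ G := (g0 0).trans (gG 0)
  have K0 := h.K0
  set H : Ω × Ω → ℝ := HH g B (C c) (w c) (C' c') (w' c') with hH
  set p : Ω × Ω → ℝ := pw (w c) (ws c) (w' c') (ws' c') with hp
  set r : Ω × Ω → ℝ := fun z => R c z.1 + R' c' z.2 with hr
  set a : Ω × Ω → ℝ := fun z => ws' c' z.2 + 2 * |C' c' z.2| with ha
  set q : Ω × Ω → ℝ := fun z => R' c' z.2 with hq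
  have iH : Integrable H (P.prod P) := int_HH h h' hg g0 gG hB hc hc'
  have mH : Measurable H := meas_HH h h' hg hB hc hc'
  have ip : Integrable p (P.prod P) := int_pw h h' hc hc'
  have ir : Integrable r (P.prod P) := int_RR h h' hc hc'
  have ia1 : Integrable (fun z : Ω × Ω => ws' c' z.2) (P.prod P) := (h'.iws c' hc').comp_snd P
  have ia2 : Integrable (fun z : Ω × Ω => |C' c' z.2|) (P.prod P) := ((h'.iC hc').abs).comp_snd P
  have ia : Integrable a (P.prod P) := ia1.add (ia2.const_mul 2)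
  have iq : Integrable q (P.prod P) := (h'.iR c' hc').comp_snd P
  have p0 : ∀ z, 0 ≤ p z := pw_nonneg h h' hc hc'
  have r0 : ∀ z, 0 ≤ r z := fun z => add_nonneg (h.R0 c hc z.1) (h'.R0 c' hc' z.2)
  have a0 : ∀ z, 0 ≤ a z := fun z => add_nonneg (h'.ws0 c' hc' z.2) (mul_nonneg (by norm_num) (abs_nonneg _))
  have q0 : ∀ z, 0 ≤ q z := fun z => h'.R0 c' hc' z.2
  have er : ∫ z, r z ∂(P.prod P) = ∫ ω, R c ω ∂P + ∫ ω, R' c' ω ∂P := by
    rw [hr]
    rw [integral_add ((h.iR c hc).comp_fst P) ((h'.iR c' hc').comp_snd P)]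
    congr 1
    · have := integral_fun_fst (μ := P) (ν := P) (fun ω => R c ω)
      simpa using this
    · have := integral_fun_snd (μ := P) (ν := P) (fun ω => R' c' ω)
      simpa using this
  have ea : ∫ z, a z ∂(P.prod P) = ∫ ω, ws' c' ω ∂P + 2 * ∫ ω, |C' c' ω| ∂P := by
    have e1 : ∫ z : Ω × Ω, ws' c' z.2 ∂(P.prod P) = ∫ ω, ws' c' ω ∂P := by
      have := integral_fun_snd (μ := P) (ν := P) (fun ω => ws' c' ω)
      simpa using this
    have e2 : ∫ z : Ω × Ω, |C' c' z.2| ∂(P.prod P) = ∫ ω, |C' c' ω| ∂P := by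
      have := integral_fun_snd (μ := P) (ν := P) (fun ω => |C' c' ω|)
      simpa using this
    have e3 : ∫ z, a z ∂(P.prod P) = ∫ z : Ω × Ω, ws' c' z.2 ∂(P.prod P) + ∫ z : Ω × Ω, 2 * |C' c' z.2| ∂(P.prod P) :=
      integral_add ia1 (ia2.const_mul 2)
    rw [e3, integral_const_mul, e1, e2]
  have eq : ∫ z, q z ∂(P.prod P) = ∫ ω, R' c' ω ∂P := by
    have := integral_fun_snd (μ := P) (ν := P) (fun ω => R' c' ω)
    simpa using this
  have inv : ∀ i < m, ∀ F : Ω × Ω → ℝ, Integrable F (P.prod P) → ∫ z, F (σ i z) ∂(P.prod P) = ∫ z, F z ∂(P.prod P) := by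
    intro i hi F hF
    have := integral_map (μ := P.prod P) (hP.mp i hi).measurable.aemeasurable (f := F)
      (by rw [(hP.mp i hi).map_eq]; exact hF.aestronglyMeasurable)
    rw [(hP.mp i hi).map_eq] at this
    exact this.symm
  have key := exch60 m hP.mp hP.mA hP.mD hP.dj hP.inv mH iH
  set pt : ℝ := ∫ z, p z ∂(P.prod P) with hpt
  set dt : ℝ := ∑ i ∈ Finset.range m, ∫ z in D i, p (σ i z) ∂(P.prod P) with hdt
  -- the weight after the exchange
  have sig : ∑ i ∈ Finset.range m, ∫ z in A i, p (σ i z) ∂(P.prod P) ≤ pt + dt := by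
    have s1 : ∀ i ∈ Finset.range m, ∫ z in A i, p (σ i z) ∂(P.prod P) ≤
        ∫ z in A i, p z ∂(P.prod P) + ∫ z in D i, p (σ i z) ∂(P.prod P) := by
      intro i hi
      have hi' := Finset.mem_range.1 hi
      have ips : Integrable (fun z => p (σ i z)) (P.prod P) := (hP.mp i hi').integrable_comp_of_integrable ip
      have m1 : MeasurableSet (σ i ⁻¹' A i) := (hP.mp i hi').measurable (hP.mA i)
      have s2 : A i ⊆ σ i ⁻¹' A i ∪ D i := by
        intro z hz
        by_cases hd : z ∈ D i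
        · exact Or.inr hd
        · exact Or.inl ((hP.inv i hi' z hd).1 hz)
      have s3 : ∫ z in A i, p (σ i z) ∂(P.prod P) ≤ ∫ z in σ i ⁻¹' A i ∪ D i, p (σ i z) ∂(P.prod P) :=
        setIntegral_mono_set ips.integrableOn (Filter.Eventually.of_forall fun z => p0 _)
          (Filter.Eventually.of_forall s2)
      have s4 : ∫ z in σ i ⁻¹' A i ∪ D i, p (σ i z) ∂(P.prod P) ≤
          ∫ z in σ i ⁻¹' A i, p (σ i z) ∂(P.prod P) + ∫ z in D i, p (σ i z) ∂(P.prod P) := by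
        have e1 : σ i ⁻¹' A i ∪ D i = σ i ⁻¹' A i ∪ (D i \ σ i ⁻¹' A i) := Set.union_sdiff_self.symm
        rw [e1, setIntegral_union Set.disjoint_sdiff_right ((hP.mD i).diff m1) ips.integrableOn ips.integrableOn]
        refine add_le_add le_rfl ?_
        exact setIntegral_mono_set ips.integrableOn (Filter.Eventually.of_forall fun z => p0 _)
          (Filter.Eventually.of_forall Set.sdiff_subset)
      have s5 : ∫ z in σ i ⁻¹' A i, p (σ i z) ∂(P.prod P) = ∫ z in A i, p z ∂(P.prod P) := by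
        rw [← integral_indicator m1, ← integral_indicator (hP.mA i)]
        have e1 : (σ i ⁻¹' A i).indicator (fun z => p (σ i z)) = fun z => (A i).indicator p (σ i z) := by
          funext z
          by_cases hz : σ i z ∈ A i
          · rw [Set.indicator_of_mem hz]
            exact Set.indicator_of_mem (s := σ i ⁻¹' A i) hz _
          · rw [Set.indicator_of_notMem hz]
            exact Set.indicator_of_notMem (s := σ i ⁻¹' A i) hz _
        rw [e1]
        exact inv i hi' _ (ip.indicator (hP.mA i))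
      linarith
    refine (Finset.sum_le_sum s1).trans ?_
    rw [Finset.sum_add_distrib]
    refine add_le_add ?_ le_rfl
    have e1 : ∑ i ∈ Finset.range m, ∫ z in A i, p z ∂(P.prod P) = ∫ z in ⋃ i ∈ Finset.range m, A i, p z ∂(P.prod P) :=
      (integral_biUnion_finset _ (fun i _ => hP.mA i) (fun i _ j _ hne => hP.dj hne) fun i _ => ip.integrableOn).symm
    rw [e1]
    exact setIntegral_le_integral ip (Filter.Eventually.of_forall p0)
  have sum1 : ∑ i ∈ Finset.range m, ∫ z in A i, p z ∂(P.prod P) ≤ pt := by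
    have e1 : ∑ i ∈ Finset.range m, ∫ z in A i, p z ∂(P.prod P) = ∫ z in ⋃ i ∈ Finset.range m, A i, p z ∂(P.prod P) :=
      (integral_biUnion_finset _ (fun i _ => hP.mA i) (fun i _ j _ hne => hP.dj hne) fun i _ => ip.integrableOn).symm
    rw [e1]
    exact setIntegral_le_integral ip (Filter.Eventually.of_forall p0)
  -- the successes
  have k1 : ∑ i ∈ Finset.range m, ∫ z in A i, |H z + H (σ i z)| ∂(P.prod P) ≤
      L * o * (K * pt + ∫ z, r z ∂(P.prod P)) + m * (G * (τ * (2 + 2 * ∫ z, a z ∂(P.prod P)))) +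
        G * (th * ((3 + 4 * K) * (2 * pt + dt) + 8 * (m * ∫ z, q z ∂(P.prod P)))) := by
    have s1 : ∀ i ∈ Finset.range m, ∫ z in A i, |H z + H (σ i z)| ∂(P.prod P) ≤
        (∫ z in A i, L * o * (K * p z + r z) ∂(P.prod P)) + G * (τ * (2 + 2 * ∫ z, a z ∂(P.prod P))) +
          G * (th * ((3 + 4 * K) * (∫ z in A i, p z ∂(P.prod P) + ∫ z in A i, p (σ i z) ∂(P.prod P)) +
            8 * ∫ z, q z ∂(P.prod P))) := by
      intro i hi
      have hi' := Finset.mem_range.1 hi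
      have i1 : Integrable (fun z => L * o * (K * p z + r z)) (P.prod P) := ((ip.const_mul K).add ir).const_mul (L * o)
      have ias : Integrable (fun z => a (σ i z)) (P.prod P) := (hP.mp i hi').integrable_comp_of_integrable ia
      have iqs : Integrable (fun z => q (σ i z)) (P.prod P) := (hP.mp i hi').integrable_comp_of_integrable iq
      have ips : Integrable (fun z => p (σ i z)) (P.prod P) := (hP.mp i hi').integrable_comp_of_integrable ip
      have i2 : Integrable (fun z => G * (τ * (2 + a z + a (σ i z)))) (P.prod P) :=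
        ((((integrable_const (2 : ℝ)).add ia).add ias).const_mul τ).const_mul G
      have i3 : Integrable (fun z => G * (th * ((3 + 4 * K) * (p z + p (σ i z))))) (P.prod P) :=
        (((ip.add ips).const_mul (3 + 4 * K)).const_mul th).const_mul G
      have i4 : Integrable (fun z => G * (th * (4 * (q z + q (σ i z))))) (P.prod P) :=
        (((iq.add iqs).const_mul 4).const_mul th).const_mul G
      have iHs : Integrable (fun z => H (σ i z)) (P.prod P) := (hP.mp i hi').integrable_comp_of_integrable iH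
      have i5 : Integrable (fun z => L * o * (K * p z + r z) + G * (τ * (2 + a z + a (σ i z)))) (P.prod P) := i1.add i2
      have i6 : Integrable (fun z => G * (th * ((3 + 4 * K) * (p z + p (σ i z)))) + G * (th * (4 * (q z + q (σ i z)))))
        (P.prod P) := i3.add i4
      calc ∫ z in A i, |H z + H (σ i z)| ∂(P.prod P)
          ≤ ∫ z in A i, ((L * o * (K * p z + r z) + G * (τ * (2 + a z + a (σ i z)))) +
              (G * (th * ((3 + 4 * K) * (p z + p (σ i z)))) + G * (th * (4 * (q z + q (σ i z)))))) ∂(P.prod P) := by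
            refine setIntegral_mono_on (iH.add iHs).abs.integrableOn (i5.add i6).integrableOn (hP.mA i) fun z hz => ?_
            refine (abs_HH_add_le9 h h' g0 gG gL hc hc' τ0 th0 th1 hP hi' hz).trans (le_of_eq ?_)
            simp only [ha, hq, hp, hr]
            ring
        _ = ((∫ z in A i, L * o * (K * p z + r z) ∂(P.prod P)) + ∫ z in A i, G * (τ * (2 + a z + a (σ i z))) ∂(P.prod P)) +
            ((∫ z in A i, G * (th * ((3 + 4 * K) * (p z + p (σ i z)))) ∂(P.prod P)) +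
              ∫ z in A i, G * (th * (4 * (q z + q (σ i z)))) ∂(P.prod P)) := by
            rw [integral_add i5.integrableOn i6.integrableOn, integral_add i1.integrableOn i2.integrableOn,
              integral_add i3.integrableOn i4.integrableOn]
        _ ≤ _ := by
            have e1 : ∫ z in A i, G * (τ * (2 + a z + a (σ i z))) ∂(P.prod P) ≤
                G * (τ * (2 + 2 * ∫ z, a z ∂(P.prod P))) := by
              have e1' : ∫ z in A i, G * (τ * (2 + a z + a (σ i z))) ∂(P.prod P) ≤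
                  ∫ z, G * (τ * (2 + a z + a (σ i z))) ∂(P.prod P) := by
                refine setIntegral_le_integral i2 (Filter.Eventually.of_forall fun z => ?_)
                have := a0 z
                have := a0 (σ i z)
                show 0 ≤ G * (τ * (2 + a z + a (σ i z)))
                positivity
              have e4 : ∫ z, (2 + a z + a (σ i z)) ∂(P.prod P) = 2 + 2 * ∫ z, a z ∂(P.prod P) := by
                have e5 : ∫ z, (2 + a z + a (σ i z)) ∂(P.prod P) =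
                    (∫ z, (2 + a z) ∂(P.prod P)) + ∫ z, a (σ i z) ∂(P.prod P) :=
                  integral_add ((integrable_const (2 : ℝ)).add ia) ias
                have e6 : ∫ z, (2 + a z) ∂(P.prod P) = (∫ _z, (2 : ℝ) ∂(P.prod P)) + ∫ z, a z ∂(P.prod P) :=
                  integral_add (integrable_const (2 : ℝ)) ia
                rw [e5, e6, inv i hi' a ia]
                simp only [integral_const, probReal_univ, smul_eq_mul, one_mul]
                ring
              have e7 : ∫ z, G * (τ * (2 + a z + a (σ i z))) ∂(P.prod P) = G * (τ * (2 + 2 * ∫ z, a z ∂(P.prod P))) := by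
                rw [integral_const_mul, integral_const_mul, e4]
              exact e1'.trans e7.le
            have e2 : ∫ z in A i, G * (th * ((3 + 4 * K) * (p z + p (σ i z)))) ∂(P.prod P) =
                G * (th * ((3 + 4 * K) * (∫ z in A i, p z ∂(P.prod P) + ∫ z in A i, p (σ i z) ∂(P.prod P)))) := by
              rw [integral_const_mul, integral_const_mul, integral_const_mul,
                integral_add ip.integrableOn ips.integrableOn]
            have e3 : ∫ z in A i, G * (th * (4 * (q z + q (σ i z)))) ∂(P.prod P) ≤ G * (th * (8 * ∫ z, q z ∂(P.prod P))) := by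
              have e3' : ∫ z in A i, G * (th * (4 * (q z + q (σ i z)))) ∂(P.prod P) ≤
                  ∫ z, G * (th * (4 * (q z + q (σ i z)))) ∂(P.prod P) := by
                refine setIntegral_le_integral i4 (Filter.Eventually.of_forall fun z => ?_)
                have := q0 z
                have := q0 (σ i z)
                show 0 ≤ G * (th * (4 * (q z + q (σ i z))))
                positivity
              refine e3'.trans (le_of_eq ?_)
              rw [integral_const_mul, integral_const_mul, integral_const_mul, integral_add iq iqs, inv i hi' q iq]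
              ring
            rw [e2]
            have e5 : G * (th * ((3 + 4 * K) * (∫ z in A i, p z ∂(P.prod P) + ∫ z in A i, p (σ i z) ∂(P.prod P)) +
                8 * ∫ z, q z ∂(P.prod P))) =
                G * (th * ((3 + 4 * K) * (∫ z in A i, p z ∂(P.prod P) + ∫ z in A i, p (σ i z) ∂(P.prod P)))) +
                  G * (th * (8 * ∫ z, q z ∂(P.prod P))) := by ring
            rw [e5]
            linarith
    refine (Finset.sum_le_sum s1).trans ?_
    rw [Finset.sum_add_distrib, Finset.sum_add_distrib, Finset.sum_const, Finset.card_range, nsmul_eq_mul]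
    have i1 : Integrable (fun z => L * o * (K * p z + r z)) (P.prod P) := ((ip.const_mul K).add ir).const_mul (L * o)
    have f1 : ∑ i ∈ Finset.range m, ∫ z in A i, L * o * (K * p z + r z) ∂(P.prod P) ≤
        L * o * (K * pt + ∫ z, r z ∂(P.prod P)) := by
      have e1 : ∑ i ∈ Finset.range m, ∫ z in A i, L * o * (K * p z + r z) ∂(P.prod P) =
          ∫ z in ⋃ i ∈ Finset.range m, A i, L * o * (K * p z + r z) ∂(P.prod P) :=
        (integral_biUnion_finset _ (fun i _ => hP.mA i) (fun i _ j _ hne => hP.dj hne) fun i _ => i1.integrableOn).symm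
      rw [e1]
      refine (setIntegral_le_integral i1 (Filter.Eventually.of_forall fun z => ?_)).trans (le_of_eq ?_)
      · have := p0 z
        have := r0 z
        show 0 ≤ L * o * (K * p z + r z)
        positivity
      · rw [integral_const_mul, integral_add (ip.const_mul K) ir, integral_const_mul]
    have f2 : ∑ i ∈ Finset.range m, G * (th * ((3 + 4 * K) * (∫ z in A i, p z ∂(P.prod P) +
        ∫ z in A i, p (σ i z) ∂(P.prod P)) + 8 * ∫ z, q z ∂(P.prod P))) ≤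
        G * (th * ((3 + 4 * K) * (2 * pt + dt) + 8 * (m * ∫ z, q z ∂(P.prod P)))) := by
      rw [← Finset.mul_sum, ← Finset.mul_sum]
      refine mul_le_mul_of_nonneg_left (mul_le_mul_of_nonneg_left ?_ th0) G0
      rw [Finset.sum_add_distrib, ← Finset.mul_sum, Finset.sum_add_distrib, Finset.sum_const, Finset.card_range,
        nsmul_eq_mul]
      have h3 : (3 + 4 * K) * ((∑ i ∈ Finset.range m, ∫ z in A i, p z ∂(P.prod P)) +
          ∑ i ∈ Finset.range m, ∫ z in A i, p (σ i z) ∂(P.prod P)) ≤ (3 + 4 * K) * (2 * pt + dt) :=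
        mul_le_mul_of_nonneg_left (by linarith) (by positivity)
      linarith
    linarith
  -- the exceptional sets
  have k2 : ∑ i ∈ Finset.range m, ∫ z in D i, |H (σ i z)| ∂(P.prod P) ≤ G * (K * dt + m * ∫ z, r z ∂(P.prod P)) := by
    have s1 : ∀ i ∈ Finset.range m, ∫ z in D i, |H (σ i z)| ∂(P.prod P) ≤
        G * (K * (∫ z in D i, p (σ i z) ∂(P.prod P)) + ∫ z, r z ∂(P.prod P)) := by
      intro i hi
      have hi' := Finset.mem_range.1 hi
      have iHs : Integrable (fun z => H (σ i z)) (P.prod P) := (hP.mp i hi').integrable_comp_of_integrable iH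
      have ips : Integrable (fun z => p (σ i z)) (P.prod P) := (hP.mp i hi').integrable_comp_of_integrable ip
      have irs : Integrable (fun z => r (σ i z)) (P.prod P) := (hP.mp i hi').integrable_comp_of_integrable ir
      calc ∫ z in D i, |H (σ i z)| ∂(P.prod P)
          ≤ ∫ z in D i, G * (K * p (σ i z) + r (σ i z)) ∂(P.prod P) := by
            refine setIntegral_mono_on iHs.abs.integrableOn (((ips.const_mul K).add irs).const_mul G).integrableOn (hP.mD i)
              fun z _ => ?_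
            exact abs_HH_le h h' g0 gG B hc hc' (σ i z)
        _ = G * (K * (∫ z in D i, p (σ i z) ∂(P.prod P)) + ∫ z in D i, r (σ i z) ∂(P.prod P)) := by
            rw [integral_const_mul, integral_add (ips.const_mul K).integrableOn irs.integrableOn, integral_const_mul]
        _ ≤ _ := by
            refine mul_le_mul_of_nonneg_left (add_le_add le_rfl ?_) G0
            have e1 : ∫ z in D i, r (σ i z) ∂(P.prod P) ≤ ∫ z, r (σ i z) ∂(P.prod P) :=
              setIntegral_le_integral irs (Filter.Eventually.of_forall fun z => r0 _)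
            exact e1.trans (inv i hi' r ir).le
    refine (Finset.sum_le_sum s1).trans (le_of_eq ?_)
    rw [← Finset.mul_sum, Finset.sum_add_distrib, ← Finset.mul_sum, Finset.sum_const, Finset.card_range, nsmul_eq_mul]
  -- no success
  have mU : MeasurableSet (⋃ i ∈ Finset.range m, A i)ᶜ := (Finset.measurableSet_biUnion _ fun i _ => hP.mA i).compl
  have k3 : ∫ z in (⋃ i ∈ Finset.range m, A i)ᶜ, |H z| ∂(P.prod P) ≤
      G * (K * (∫ z in (⋃ i ∈ Finset.range m, A i)ᶜ, p z ∂(P.prod P)) + ∫ z, r z ∂(P.prod P)) := by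
    calc ∫ z in (⋃ i ∈ Finset.range m, A i)ᶜ, |H z| ∂(P.prod P)
        ≤ ∫ z in (⋃ i ∈ Finset.range m, A i)ᶜ, G * (K * p z + r z) ∂(P.prod P) := by
          refine setIntegral_mono_on iH.abs.integrableOn (((ip.const_mul K).add ir).const_mul G).integrableOn mU fun z _ => ?_
          exact abs_HH_le h h' g0 gG B hc hc' z
      _ = G * (K * (∫ z in (⋃ i ∈ Finset.range m, A i)ᶜ, p z ∂(P.prod P)) +
          ∫ z in (⋃ i ∈ Finset.range m, A i)ᶜ, r z ∂(P.prod P)) := by
          rw [integral_const_mul, integral_add (ip.const_mul K).integrableOn ir.integrableOn, integral_const_mul]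
      _ ≤ _ := by
          refine mul_le_mul_of_nonneg_left (add_le_add le_rfl ?_) G0
          exact setIntegral_le_integral ir (Filter.Eventually.of_forall r0)
  rw [Finset.sum_add_distrib] at key
  rw [er] at k1 k2 k3
  rw [ea, eq] at k1
  have hws0 : 0 ≤ ∫ ω, ws' c' ω ∂P := integral_nonneg (h'.ws0 c' hc')
  have hC0 : 0 ≤ ∫ ω, |C' c' ω| ∂P := integral_nonneg fun ω => abs_nonneg _
  have hR0 : 0 ≤ ∫ ω, R c ω ∂P := integral_nonneg (h.R0 c hc)
  have hR0' : 0 ≤ ∫ ω, R' c' ω ∂P := integral_nonneg (h'.R0 c' hc')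
  have pt0 : 0 ≤ pt := integral_nonneg p0
  have dt0 : 0 ≤ dt := Finset.sum_nonneg fun i _ => integral_nonneg fun z => p0 _
  have x1 : 0 ≤ L * o * (K * pt + (∫ ω, R c ω ∂P + ∫ ω, R' c' ω ∂P)) := by positivity
  have x2 : 0 ≤ m * (G * (τ * (2 + 2 * ∫ ω, ws' c' ω ∂P + 4 * ∫ ω, |C' c' ω| ∂P))) := by positivity
  have x3 : 0 ≤ G * (th * ((3 + 4 * K) * (2 * pt + dt) + 8 * (m * ∫ ω, R' c' ω ∂P))) := by positivity
  have x4 : 0 ≤ G * (K * dt + m * (∫ ω, R c ω ∂P + ∫ ω, R' c' ω ∂P)) := by positivity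
  have e6 : 2 + 2 * (∫ ω, ws' c' ω ∂P + 2 * ∫ ω, |C' c' ω| ∂P) = 2 + 2 * ∫ ω, ws' c' ω ∂P + 4 * ∫ ω, |C' c' ω| ∂P := by ring
  rw [e6] at k1
  linarith

end pair

section all

variable {S : Finset ι} {S' : Finset ι'} {C w ws R : ι → Ω → ℝ} {C' w' ws' R' : ι' → Ω → ℝ} {K X X' t t' : ℝ}

/-- The size of the contact functional. -/
theorem CD.intC [IsProbabilityMeasure P] (h : CD P S C w ws R K X t) {c : ι} (hc : c ∈ S) :
    ∫ ω, |C c ω| ∂P ≤ K * X + t := by
  have h1 : ∫ ω, ws c ω ∂P ≤ X :=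
    (Finset.single_le_sum (f := fun c => ∫ ω, ws c ω ∂P) (fun c hc => integral_nonneg (h.ws0 c hc)) hc).trans h.tX
  have h2 : ∫ ω, R c ω ∂P ≤ t :=
    (Finset.single_le_sum (f := fun c => ∫ ω, R c ω ∂P) (fun c hc => integral_nonneg (h.R0 c hc)) hc).trans h.tR
  calc ∫ ω, |C c ω| ∂P ≤ ∫ ω, (K * ws c ω + R c ω) ∂P :=
        integral_mono (h.iC hc).abs (((h.iws c hc).const_mul K).add (h.iR c hc)) (h.bC c hc)
    _ = K * ∫ ω, ws c ω ∂P + ∫ ω, R c ω ∂P := by
        rw [integral_add ((h.iws c hc).const_mul K) (h.iR c hc), integral_const_mul]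
    _ ≤ K * X + t := add_le_add (mul_le_mul_of_nonneg_left h1 h.K0) h2

/-- **THE RATIO DOES NOT DEPEND ON THE CONTEXT, with a relative error.** -/
theorem lecr9 [IsProbabilityMeasure P] (h : CD P S C w ws R K X t) (h' : CD P S' C' w' ws' R' K X' t') {g : ℝ → ℝ} {G L : ℝ}
    (hg : Measurable g) (g0 : ∀ x, 0 ≤ g x) (gG : ∀ x, g x ≤ G) (gL : ∀ x y, |g x - g y| ≤ L * |x - y|) {B : Ω → ℝ}
    (hB : Measurable B) {m : ℕ} {σ : ι → ι' → ℕ → Ω × Ω → Ω × Ω} {A D : ι → ι' → ℕ → Set (Ω × Ω)} {o τ th : ℝ} (o0 : 0 ≤ o)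
    (τ0 : 0 ≤ τ) (th0 : 0 ≤ th) (th1 : th ≤ 1 / 2)
    (hP : ∀ c ∈ S, ∀ c' ∈ S', PDr P B (C c) (w c) (ws c) (C' c') (w' c') (ws' c') m (σ c c') (A c c') (D c c') o τ th)
    {N1 N2 : ℝ}
    (hN1 : ∑ c ∈ S, ∑ c' ∈ S', ∑ i ∈ Finset.range m,
      ∫ z in D c c' i, pw (w c) (ws c) (w' c') (ws' c') (σ c c' i z) ∂(P.prod P) ≤ N1)
    (hN2 : ∑ c ∈ S, ∑ c' ∈ S', ∫ z in (⋃ i ∈ Finset.range m, A c c' i)ᶜ, pw (w c) (ws c) (w' c') (ws' c') z ∂(P.prod P) ≤ N2) :
    |(∑ c ∈ S, ∫ ω, g (B ω) * C c ω ∂P) * (∑ c' ∈ S', ∫ ω, w' c' ω ∂P) -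
        (∑ c ∈ S, ∫ ω, g (B ω) * w c ω ∂P) * (∑ c' ∈ S', ∫ ω, C' c' ω ∂P)| ≤
      L * o * (K * (X + X') + (S'.card * t + S.card * t')) +
      S.card * S'.card * (m * (G * (τ * (2 + 2 * X' + 4 * (K * X' + t'))))) +
      G * (th * ((3 + 4 * K) * (2 * (X + X') + N1) + 8 * (m * (S'.card * t + S.card * t')))) +
      G * (K * N1 + m * (S'.card * t + S.card * t')) +
      G * (K * N2 + (S'.card * t + S.card * t')) := by
  classical
  have L0 : 0 ≤ L := by
    have h1 := gL 1 0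
    have h2 := abs_nonneg (g 1 - g 0)
    simp only [sub_zero, abs_one, mul_one] at h1
    linarith
  have G0 : 0 ≤ G := (g0 0).trans (gG 0)
  have K0 := h.K0
  -- the left side is the sum of the integrals over the two copies
  have igC : ∀ c ∈ S, Integrable (fun ω => g (B ω) * C c ω) P := by
    intro c hc
    refine (h.iC hc).bdd_mul (c := G) (hg.comp hB).aestronglyMeasurable (Filter.Eventually.of_forall fun ω => ?_)
    rw [Real.norm_eq_abs, abs_of_nonneg (g0 _)]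
    exact gG _
  have igw : ∀ c ∈ S, Integrable (fun ω => g (B ω) * w c ω) P := by
    intro c hc
    refine (h.iw hc).bdd_mul (c := G) (hg.comp hB).aestronglyMeasurable (Filter.Eventually.of_forall fun ω => ?_)
    rw [Real.norm_eq_abs, abs_of_nonneg (g0 _)]
    exact gG _
  have e1 : ∀ c ∈ S, ∀ c' ∈ S', ∫ z, HH g B (C c) (w c) (C' c') (w' c') z ∂(P.prod P) =
      (∫ ω, g (B ω) * C c ω ∂P) * (∫ ω, w' c' ω ∂P) - (∫ ω, g (B ω) * w c ω ∂P) * ∫ ω, C' c' ω ∂P := by
    intro c hc c' hc'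
    have e : ∀ z : Ω × Ω, HH g B (C c) (w c) (C' c') (w' c') z =
        (g (B z.1) * C c z.1) * w' c' z.2 - (g (B z.1) * w c z.1) * C' c' z.2 := by
      intro z
      unfold HH
      ring
    have p1 : ∫ z : Ω × Ω, (g (B z.1) * C c z.1) * w' c' z.2 ∂(P.prod P) =
        (∫ ω, g (B ω) * C c ω ∂P) * ∫ ω, w' c' ω ∂P :=
      integral_prod_mul (fun ω => g (B ω) * C c ω) (w' c')
    have p2 : ∫ z : Ω × Ω, (g (B z.1) * w c z.1) * C' c' z.2 ∂(P.prod P) =
        (∫ ω, g (B ω) * w c ω ∂P) * ∫ ω, C' c' ω ∂P :=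
      integral_prod_mul (fun ω => g (B ω) * w c ω) (C' c')
    rw [integral_congr_ae (Filter.Eventually.of_forall e),
      integral_sub ((igC c hc).mul_prod (h'.iw hc')) ((igw c hc).mul_prod (h'.iC hc')), p1, p2]
  have e2 : (∑ c ∈ S, ∫ ω, g (B ω) * C c ω ∂P) * (∑ c' ∈ S', ∫ ω, w' c' ω ∂P) -
        (∑ c ∈ S, ∫ ω, g (B ω) * w c ω ∂P) * (∑ c' ∈ S', ∫ ω, C' c' ω ∂P) =
      ∑ c ∈ S, ∑ c' ∈ S', ∫ z, HH g B (C c) (w c) (C' c') (w' c') z ∂(P.prod P) := by
    rw [Finset.sum_congr rfl fun c hc => Finset.sum_congr rfl fun c' hc' => e1 c hc c' hc']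
    simp only [Finset.sum_sub_distrib, ← Finset.mul_sum, ← Finset.sum_mul]
  rw [e2]
  have k1 : ∀ c ∈ S, ∀ c' ∈ S', |∫ z, HH g B (C c) (w c) (C' c') (w' c') z ∂(P.prod P)| ≤
      L * o * (K * ∫ z, pw (w c) (ws c) (w' c') (ws' c') z ∂(P.prod P) + (∫ ω, R c ω ∂P + ∫ ω, R' c' ω ∂P)) +
      m * (G * (τ * (2 + 2 * X' + 4 * (K * X' + t')))) +
      G * (th * ((3 + 4 * K) * (2 * ∫ z, pw (w c) (ws c) (w' c') (ws' c') z ∂(P.prod P) +
        ∑ i ∈ Finset.range m, ∫ z in D c c' i, pw (w c) (ws c) (w' c') (ws' c') (σ c c' i z) ∂(P.prod P)) +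
          8 * (m * (∫ ω, R c ω ∂P + ∫ ω, R' c' ω ∂P)))) +
      G * (K * (∑ i ∈ Finset.range m, ∫ z in D c c' i, pw (w c) (ws c) (w' c') (ws' c') (σ c c' i z) ∂(P.prod P)) +
        m * (∫ ω, R c ω ∂P + ∫ ω, R' c' ω ∂P)) +
      G * (K * (∫ z in (⋃ i ∈ Finset.range m, A c c' i)ᶜ, pw (w c) (ws c) (w' c') (ws' c') z ∂(P.prod P)) +
        (∫ ω, R c ω ∂P + ∫ ω, R' c' ω ∂P)) := by
    intro c hc c' hc'
    have k := pairr9 h h' hg g0 gG gL hB hc hc' o0 τ0 th0 th1 (hP c hc c' hc')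
    have u1 : ∫ ω, ws' c' ω ∂P ≤ X' :=
      (Finset.single_le_sum (f := fun c => ∫ ω, ws' c ω ∂P) (fun c hc => integral_nonneg (h'.ws0 c hc)) hc').trans h'.tX
    have u2 := h'.intC hc'
    have u3 : 0 ≤ ∫ ω, R c ω ∂P := integral_nonneg (h.R0 c hc)
    have k2 : m * (G * (τ * (2 + 2 * ∫ ω, ws' c' ω ∂P + 4 * ∫ ω, |C' c' ω| ∂P))) ≤
        m * (G * (τ * (2 + 2 * X' + 4 * (K * X' + t')))) := by
      gcongr
    have k3 : G * (th * ((3 + 4 * K) * (2 * ∫ z, pw (w c) (ws c) (w' c') (ws' c') z ∂(P.prod P) +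
        ∑ i ∈ Finset.range m, ∫ z in D c c' i, pw (w c) (ws c) (w' c') (ws' c') (σ c c' i z) ∂(P.prod P)) +
          8 * (m * ∫ ω, R' c' ω ∂P))) ≤
        G * (th * ((3 + 4 * K) * (2 * ∫ z, pw (w c) (ws c) (w' c') (ws' c') z ∂(P.prod P) +
        ∑ i ∈ Finset.range m, ∫ z in D c c' i, pw (w c) (ws c) (w' c') (ws' c') (σ c c' i z) ∂(P.prod P)) +
          8 * (m * (∫ ω, R c ω ∂P + ∫ ω, R' c' ω ∂P)))) := by
      have u4 : ∫ ω, R' c' ω ∂P ≤ ∫ ω, R c ω ∂P + ∫ ω, R' c' ω ∂P := by linarith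
      gcongr
    linarith
  refine (Finset.abs_sum_le_sum_abs _ _).trans ?_
  refine (Finset.sum_le_sum fun c hc => (Finset.abs_sum_le_sum_abs _ _).trans (Finset.sum_le_sum fun c' hc' => k1 c hc c' hc')).trans ?_
  have s1 := sum_pw_le h h'
  have s2 := sum_RR_le h h'
  simp only [Finset.sum_add_distrib, ← Finset.mul_sum, Finset.sum_const, nsmul_eq_mul] at s2 ⊢
  have r1 := mul_le_mul_of_nonneg_left s1 (mul_nonneg (mul_nonneg L0 o0) K0)
  have r2 := mul_le_mul_of_nonneg_left s2 (mul_nonneg L0 o0)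
  have r3 := mul_le_mul_of_nonneg_left s2 G0
  have r4 := mul_le_mul_of_nonneg_left s2 (mul_nonneg G0 (Nat.cast_nonneg (α := ℝ) m))
  have r5 := mul_le_mul_of_nonneg_left hN1 (mul_nonneg G0 K0)
  have r6 := mul_le_mul_of_nonneg_left hN2 (mul_nonneg G0 K0)
  have q0 : 0 ≤ G * th * (3 + 4 * K) := by positivity
  have r7 := mul_le_mul_of_nonneg_left s1 q0
  have r8 := mul_le_mul_of_nonneg_left hN1 q0
  have r9 := mul_le_mul_of_nonneg_left s2 (mul_nonneg (mul_nonneg G0 th0) (Nat.cast_nonneg (α := ℝ) m))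
  nlinarith only [r1, r2, r3, r4, r5, r6, r7, r8, r9]

end all

end Pool.Agent.W_7d29a1_C1.H60
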