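import Pool.Agent.W_7d29a1_F.Defs

/-!
[C1] MEET_d, LEAF M2 (helper35; row 683 (2) of helper48): THE CONCAVE BK INEQUALITY.
`FF T c A ηs = ∑ τ ∈ T, c τ * ∏ i, ∏ v ∈ A τ i, exp (ηs i v)` with `c ≥ 0` and, for every `τ`, pairwise disjoint sets of sites
`A τ i`. For every concave bounded `φ` the mean of `φ (F (η, .., η))` is at most the mean of `φ (F (η_1, .., η_N))` with independent
copies: the sites are replaced one by one, `F` is affine in the variables of one site.
-/

set_option autoImplicit false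

namespace Pool.Agent.W_7d29a1_C1.BKc35

open MeasureTheory Set Pool.Agent.W_7d29a1_F

noncomputable section

/-! ### Affine functions with non negative coefficients -/

section aff

variable {ι : Type*} [Fintype ι]

/-- `Q` is affine with non negative coefficients. -/
def Aff (Q : (ι → ℝ) → ℝ) : Prop :=
  ∃ (a : ℝ) (b : ι → ℝ), 0 ≤ a ∧ (∀ i, 0 ≤ b i) ∧ ∀ z, Q z = a + ∑ i, b i * z i

theorem Aff.zero : Aff (fun _ : ι → ℝ => (0 : ℝ)) :=
  ⟨0, fun _ => 0, le_rfl, fun _ => le_rfl, fun z => by simp⟩

theorem Aff.add {P Q : (ι → ℝ) → ℝ} (hP : Aff P) (hQ : Aff Q) : Aff fun z => P z + Q z := by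
  obtain ⟨a, b, ha, hb, h⟩ := hP
  obtain ⟨a', b', ha', hb', h'⟩ := hQ
  refine ⟨a + a', fun i => b i + b' i, add_nonneg ha ha', fun i => add_nonneg (hb i) (hb' i), fun z => ?_⟩
  simp only [h, h', add_mul, Finset.sum_add_distrib]
  ring

theorem Aff.smul {Q : (ι → ℝ) → ℝ} {r : ℝ} (hr : 0 ≤ r) (hQ : Aff Q) : Aff fun z => r * Q z := by
  obtain ⟨a, b, ha, hb, h⟩ := hQ
  refine ⟨r * a, fun i => r * b i, mul_nonneg hr ha, fun i => mul_nonneg hr (hb i), fun z => ?_⟩
  simp only [h, mul_add, Finset.mul_sum, mul_assoc]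

theorem Aff.sum {T : Type*} (S : Finset T) {Q : T → (ι → ℝ) → ℝ} (h : ∀ τ ∈ S, Aff (Q τ)) :
    Aff fun z => ∑ τ ∈ S, Q τ z := by
  classical
  induction S using Finset.induction_on with
  | empty => simpa using Aff.zero (ι := ι)
  | insert x S hx ih =>
      have h1 := (h x (Finset.mem_insert_self _ _)).add (ih fun τ hτ => h τ (Finset.mem_insert_of_mem hτ))
      simpa [Finset.sum_insert hx] using h1

theorem Aff.of_eq {P Q : (ι → ℝ) → ℝ} (hP : Aff P) (h : ∀ z, Q z = P z) : Aff Q := by
  obtain ⟨a, b, ha, hb, h'⟩ := hP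
  exact ⟨a, b, ha, hb, fun z => by rw [h, h']⟩

theorem Aff.const {r : ℝ} (hr : 0 ≤ r) : Aff (fun _ : ι → ℝ => r) :=
  ⟨r, fun _ => 0, hr, fun _ => le_rfl, fun z => by simp⟩

theorem Aff.coord (i : ι) : Aff (fun z : ι → ℝ => z i) := by
  classical
  refine ⟨0, fun j => if j = i then 1 else 0, le_rfl, fun j => ?_, fun z => by simp⟩
  dsimp only
  split_ifs <;> norm_num

/-- One tuple of disjoint sets: the product is affine in the variables of the site `u`. -/
theorem aff_prod {V : Type*} [DecidableEq V] (u : V) (A : ι → Finset V) (hA : Pairwise fun i j => Disjoint (A i) (A j))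
    (E : ι → V → ℝ) (hE : ∀ i v, 0 ≤ E i v) :
    Aff fun z : ι → ℝ => ∏ i, ∏ v ∈ A i, if v = u then z i else E i v := by
  classical
  have h1 : ∀ (i : ι) (z : ι → ℝ), ∏ v ∈ A i, (if v = u then z i else E i v) =
      (if u ∈ A i then z i else 1) * ∏ v ∈ (A i).erase u, E i v := by
    intro i z
    by_cases hu : u ∈ A i
    · rw [← Finset.mul_prod_erase _ _ hu, if_pos rfl, if_pos hu]
      congr 1
      exact Finset.prod_congr rfl fun v hv => if_neg (Finset.ne_of_mem_erase hv)
    · rw [if_neg hu, one_mul, Finset.erase_eq_of_notMem hu]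
      refine Finset.prod_congr rfl fun v hv => if_neg fun h => hu ?_
      rw [← h]
      exact hv
  have h2 : ∀ z : ι → ℝ, (∏ i, ∏ v ∈ A i, if v = u then z i else E i v) =
      (∏ i, ∏ v ∈ (A i).erase u, E i v) * ∏ i, (if u ∈ A i then z i else 1) := by
    intro z
    rw [← Finset.prod_mul_distrib]
    exact Finset.prod_congr rfl fun i _ => by rw [h1, mul_comm]
  have h3 : 0 ≤ ∏ i, ∏ v ∈ (A i).erase u, E i v :=
    Finset.prod_nonneg fun i _ => Finset.prod_nonneg fun v _ => hE i v
  by_cases hex : ∃ i₀, u ∈ A i₀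
  · obtain ⟨i₀, hi₀⟩ := hex
    have h4 : ∀ z : ι → ℝ, ∏ i, (if u ∈ A i then z i else 1) = z i₀ := by
      intro z
      rw [Finset.prod_eq_single i₀]
      · rw [if_pos hi₀]
      · intro i _ hi
        exact if_neg fun h => Finset.disjoint_left.1 (hA hi) h hi₀
      · intro h
        exact absurd (Finset.mem_univ _) h
    exact ((Aff.coord i₀).smul h3).of_eq fun z => by rw [h2, h4]
  · push Not at hex
    have h4 : ∀ z : ι → ℝ, ∏ i, (if u ∈ A i then z i else 1) = 1 := fun z =>
      Finset.prod_eq_one fun i _ => if_neg (hex i)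
    exact (Aff.const h3).of_eq fun z => by rw [h2, h4, mul_one]

end aff

/-! ### Jensen at one site -/

section jensen

variable {ι : Type*} [Fintype ι]

theorem conc_sum {φ : ℝ → ℝ} (hφ : ConcaveOn ℝ (Ici 0) φ) {a : ℝ} (ha : 0 ≤ a) {b : ι → ℝ} (hb : ∀ i, 0 ≤ b i)
    (hB : 0 < ∑ i, b i) {z : ι → ℝ} (hz : ∀ i, 0 ≤ z i) :
    ∑ i, (b i / ∑ j, b j) * φ (a + (∑ j, b j) * z i) ≤ φ (a + ∑ i, b i * z i) := by
  set B := ∑ j, b j with hBd
  have h1 := hφ.le_map_sum (t := Finset.univ) (w := fun i => b i / B) (p := fun i => a + B * z i)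
    (fun i _ => div_nonneg (hb i) hB.le) (by rw [← Finset.sum_div, ← hBd, div_self hB.ne'])
    (fun i _ => add_nonneg ha (mul_nonneg hB.le (hz i)))
  simp only [smul_eq_mul] at h1
  refine h1.trans (le_of_eq ?_)
  congr 1
  have h2 : ∀ i, b i / B * (a + B * z i) = (b i / B) * a + b i * z i := fun i => by
    field_simp
  rw [Finset.sum_congr rfl fun i _ => h2 i, Finset.sum_add_distrib, ← Finset.sum_mul, ← Finset.sum_div, ← hBd,
    div_self hB.ne', one_mul]

/-- **JENSEN AT ONE SITE**: one common variable against independent ones. -/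
theorem site_le (μ : Measure ℝ) [IsProbabilityMeasure μ] {φ : ℝ → ℝ} (hφ : ConcaveOn ℝ (Ici 0) φ) (hm : Measurable φ) {C : ℝ}
    (hC : ∀ z, 0 ≤ z → |φ z| ≤ C) {Q : (ι → ℝ) → ℝ} (hQ : Aff Q) {w : ℝ → ℝ} (hw : Measurable w) (hw0 : ∀ t, 0 ≤ w t) (i₀ : ι) :
    ∫ y, φ (Q fun _ => w (y i₀)) ∂(Measure.pi fun _ : ι => μ) ≤ ∫ y, φ (Q fun i => w (y i)) ∂(Measure.pi fun _ : ι => μ) := by
  obtain ⟨a, b, ha, hb, h⟩ := hQ
  simp only [h]
  set B := ∑ j, b j with hBd
  have hB0 : 0 ≤ B := Finset.sum_nonneg fun i _ => hb i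
  have e1 : ∀ t : ℝ, a + ∑ i, b i * t = a + B * t := fun t => by rw [← Finset.sum_mul]
  simp only [e1]
  have hint : ∀ (g : (ι → ℝ) → ℝ), Measurable g → (∀ y, 0 ≤ g y) →
      Integrable (fun y => φ (g y)) (Measure.pi fun _ : ι => μ) := by
    intro g hg hg0
    refine Integrable.of_bound (hm.comp hg).aestronglyMeasurable C (ae_of_all _ fun y => ?_)
    rw [Real.norm_eq_abs]
    exact hC _ (hg0 y)
  have hwi : ∀ i : ι, Measurable fun y : ι → ℝ => w (y i) := fun i => hw.comp (measurable_pi_apply i)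
  rcases hB0.eq_or_lt with hB | hB
  · have hb0 : ∀ i, b i = 0 := fun i =>
      (Finset.sum_eq_zero_iff_of_nonneg (fun i _ => hb i)).1 (hBd ▸ hB.symm) i (Finset.mem_univ _)
    have h0 : ∀ y : ι → ℝ, a + ∑ i, b i * w (y i) = a + B * w (y i₀) := fun y => by
      rw [← hB, zero_mul]
      simp [hb0]
    simp only [h0]
    exact le_rfl
  · -- all the one variable means are equal
    have h2 : ∀ i : ι, ∫ y, φ (a + B * w (y i)) ∂(Measure.pi fun _ : ι => μ) = ∫ t, φ (a + B * w t) ∂μ := by
      intro i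
      have h3 := (measurePreserving_eval (fun _ : ι => μ) i)
      have h4 : Measurable fun t : ℝ => φ (a + B * w t) := hm.comp ((hw.const_mul B).const_add a)
      have h5 := integral_map (μ := Measure.pi fun _ : ι => μ) (φ := Function.eval i) h3.measurable.aemeasurable
        (f := fun t : ℝ => φ (a + B * w t)) h4.aestronglyMeasurable
      rw [h3.map_eq] at h5
      rw [h5]
    have h6 : ∫ y, φ (a + B * w (y i₀)) ∂(Measure.pi fun _ : ι => μ) =
        ∫ y, ∑ i, (b i / B) * φ (a + B * w (y i)) ∂(Measure.pi fun _ : ι => μ) := by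
      rw [integral_finsetSum _ fun i _ => (hint _ (((hwi i).const_mul B).const_add a) fun y =>
        add_nonneg ha (mul_nonneg hB0 (hw0 _))).const_mul _]
      simp only [integral_const_mul, h2]
      rw [← Finset.sum_mul, ← Finset.sum_div, ← hBd, div_self hB.ne', one_mul]
    rw [h6]
    refine integral_mono ?_ ?_ fun y => conc_sum hφ ha hb hB fun i => hw0 _
    · exact integrable_finsetSum _ fun i _ => (hint _ (((hwi i).const_mul B).const_add a) fun y =>
        add_nonneg ha (mul_nonneg hB0 (hw0 _))).const_mul _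
    · exact hint _ ((Finset.measurable_sum _ fun i _ => (hwi i).const_mul _).const_add a) fun y =>
        add_nonneg ha (Finset.sum_nonneg fun i _ => mul_nonneg (hb i) (hw0 _))

end jensen

/-! ### Replacing one coordinate of a product measure -/

section update

variable {V X : Type*} [DecidableEq V] [MeasurableSpace X]

theorem measurable_upd (u : V) : Measurable fun p : (V → X) × X => Function.update p.1 u p.2 := by
  refine measurable_pi_lambda _ fun v => ?_
  by_cases h : v = u
  · subst h
    simpa using measurable_snd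
  · simp only [Function.update_of_ne h]
    exact (measurable_pi_apply v).comp measurable_fst

theorem map_upd (P : V → Measure X) [∀ v, IsProbabilityMeasure (P v)] (u : V) :
    ((Measure.infinitePi P).prod (P u)).map (fun p => Function.update p.1 u p.2) = Measure.infinitePi P := by
  classical
  refine Measure.eq_infinitePi P fun s t ht => ?_
  rw [Measure.map_apply (measurable_upd u) (MeasurableSet.pi s.countable_toSet fun v _ => ht v)]
  by_cases hu : u ∈ s
  · have h1 : (fun p : (V → X) × X => Function.update p.1 u p.2) ⁻¹' (Set.pi s t) =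
        (Set.pi (s.erase u) t) ×ˢ t u := by
      ext p
      simp only [mem_preimage, Set.mem_pi, Finset.mem_coe, mem_prod, Finset.mem_erase]
      constructor
      · intro h
        refine ⟨fun v hv => ?_, ?_⟩
        · have := h v hv.2
          rwa [Function.update_of_ne hv.1] at this
        · have := h u hu
          rwa [Function.update_self] at this
      · rintro ⟨h2, h3⟩ v hv
        by_cases hvu : v = u
        · subst hvu
          rwa [Function.update_self]
        · rw [Function.update_of_ne hvu]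
          exact h2 v ⟨hvu, hv⟩
    rw [h1, Measure.prod_prod, Measure.infinitePi_pi P fun v _ => ht v, mul_comm, Finset.mul_prod_erase s (fun v => P v (t v)) hu]
  · have h1 : (fun p : (V → X) × X => Function.update p.1 u p.2) ⁻¹' (Set.pi s t) = (Set.pi s t) ×ˢ Set.univ := by
      ext p
      simp only [mem_preimage, Set.mem_pi, Finset.mem_coe, mem_prod, mem_univ, and_true]
      constructor
      · intro h v hv
        have := h v hv
        rwa [Function.update_of_ne (ne_of_mem_of_not_mem hv hu)] at this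
      · intro h v hv
        rw [Function.update_of_ne (ne_of_mem_of_not_mem hv hu)]
        exact h v hv
    rw [h1, Measure.prod_prod, Measure.infinitePi_pi P fun v _ => ht v, measure_univ, mul_one]

/-- A bounded function is integrated one coordinate first. -/
theorem integral_upd (P : V → Measure X) [∀ v, IsProbabilityMeasure (P v)] (u : V) {f : (V → X) → ℝ} (hf : Measurable f) {C : ℝ}
    (hC : ∀ x, |f x| ≤ C) :
    ∫ x, f x ∂(Measure.infinitePi P) = ∫ x, ∫ y, f (Function.update x u y) ∂(P u) ∂(Measure.infinitePi P) := by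
  have h1 := integral_map (μ := (Measure.infinitePi P).prod (P u)) (measurable_upd u).aemeasurable (f := f)
    (by rw [map_upd]; exact hf.aestronglyMeasurable)
  rw [map_upd] at h1
  rw [h1, integral_prod]
  refine Integrable.of_bound (hf.comp (measurable_upd u)).aestronglyMeasurable C (ae_of_all _ fun p => ?_)
  rw [Real.norm_eq_abs]
  exact hC _

end update

/-! ### The inequality -/

section main

variable {ι T V : Type*} [Fintype ι] [DecidableEq V]

/-- The sum over the tuples of sets, in the environments `x · i`. -/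
def FV (S : Finset T) (c : T → ℝ) (A : T → ι → Finset V) (w : ℝ → ℝ) (x : V → ι → ℝ) : ℝ :=
  ∑ τ ∈ S, c τ * ∏ i, ∏ v ∈ A τ i, w (x v i)

/-- The environments: independent at the sites of `U`, the copy `i₀` elsewhere. -/
def mix (i₀ : ι) (U : Finset V) (x : V → ι → ℝ) : V → ι → ℝ := fun v i => if v ∈ U then x v i else x v i₀

theorem measurable_mix (i₀ : ι) (U : Finset V) : Measurable (mix i₀ U) := by
  refine measurable_pi_lambda _ fun v => measurable_pi_lambda _ fun i => ?_
  unfold mix
  by_cases h : v ∈ U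
  · simp only [h, if_true]
    exact (measurable_pi_apply i).comp (measurable_pi_apply v)
  · simp only [h, if_false]
    exact (measurable_pi_apply i₀).comp (measurable_pi_apply v)

omit [DecidableEq V] in
theorem measurable_FV (S : Finset T) (c : T → ℝ) (A : T → ι → Finset V) {w : ℝ → ℝ} (hw : Measurable w) :
    Measurable (FV S c A w) := by
  unfold FV
  refine Finset.measurable_sum _ fun τ _ => Measurable.const_mul ?_ _
  refine Finset.measurable_prod _ fun i _ => Finset.measurable_prod _ fun v _ => ?_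
  exact hw.comp ((measurable_pi_apply i).comp (measurable_pi_apply v))

omit [DecidableEq V] in
theorem FV_nonneg {S : Finset T} {c : T → ℝ} (hc : ∀ τ ∈ S, 0 ≤ c τ) (A : T → ι → Finset V) {w : ℝ → ℝ} (hw0 : ∀ t, 0 ≤ w t)
    (x : V → ι → ℝ) : 0 ≤ FV S c A w x :=
  Finset.sum_nonneg fun τ hτ => mul_nonneg (hc τ hτ) (Finset.prod_nonneg fun _ _ => Finset.prod_nonneg fun _ _ => hw0 _)

/-- `FV` is affine in the variables of the site `u`. -/
theorem aff_FV {S : Finset T} {c : T → ℝ} (hc : ∀ τ ∈ S, 0 ≤ c τ) {A : T → ι → Finset V}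
    (hA : ∀ τ ∈ S, Pairwise fun i j => Disjoint (A τ i) (A τ j)) (u : V) (E : ι → V → ℝ) (hE : ∀ i v, 0 ≤ E i v) :
    Aff fun z : ι → ℝ => ∑ τ ∈ S, c τ * ∏ i, ∏ v ∈ A τ i, if v = u then z i else E i v :=
  Aff.sum S fun τ hτ => (aff_prod u (A τ) (hA τ hτ) E hE).smul (hc τ hτ)

theorem step (μ : Measure ℝ) [IsProbabilityMeasure μ] {S : Finset T} {c : T → ℝ} (hc : ∀ τ ∈ S, 0 ≤ c τ) {A : T → ι → Finset V}
    (hA : ∀ τ ∈ S, Pairwise fun i j => Disjoint (A τ i) (A τ j)) {φ : ℝ → ℝ} (hφ : ConcaveOn ℝ (Ici 0) φ) (hm : Measurable φ)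
    {C : ℝ} (hC : ∀ z, 0 ≤ z → |φ z| ≤ C) {w : ℝ → ℝ} (hw : Measurable w) (hw0 : ∀ t, 0 ≤ w t) (i₀ : ι) (U : Finset V) {u : V}
    (hu : u ∉ U) :
    ∫ x, φ (FV S c A w (mix i₀ U x)) ∂(Measure.infinitePi fun _ : V => Measure.pi fun _ : ι => μ) ≤
      ∫ x, φ (FV S c A w (mix i₀ (insert u U) x)) ∂(Measure.infinitePi fun _ : V => Measure.pi fun _ : ι => μ) := by
  classical
  have hmes : ∀ U : Finset V, Measurable fun x => φ (FV S c A w (mix i₀ U x)) := fun U =>
    hm.comp ((measurable_FV S c A hw).comp (measurable_mix i₀ U))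
  have hbd : ∀ (U : Finset V) (x : V → ι → ℝ), |φ (FV S c A w (mix i₀ U x))| ≤ C := fun U x =>
    hC _ (FV_nonneg hc A hw0 _)
  rw [integral_upd (fun _ : V => Measure.pi fun _ : ι => μ) u (hmes U) (hbd U),
    integral_upd (fun _ : V => Measure.pi fun _ : ι => μ) u (hmes _) (hbd _)]
  have hin : ∀ U : Finset V, Integrable (fun x => ∫ y, φ (FV S c A w (mix i₀ U (Function.update x u y)))
      ∂(Measure.pi fun _ : ι => μ)) (Measure.infinitePi fun _ : V => Measure.pi fun _ : ι => μ) := by
    intro U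
    have h1 : Integrable (fun p : (V → ι → ℝ) × (ι → ℝ) => φ (FV S c A w (mix i₀ U (Function.update p.1 u p.2))))
        ((Measure.infinitePi fun _ : V => Measure.pi fun _ : ι => μ).prod (Measure.pi fun _ : ι => μ)) := by
      refine Integrable.of_bound ((hmes U).comp (measurable_upd u)).aestronglyMeasurable C (ae_of_all _ fun p => ?_)
      rw [Real.norm_eq_abs]
      exact hbd _ _
    exact h1.integral_prod_left
  refine integral_mono (hin U) (hin _) fun x => ?_
  -- the site `u`
  set E : ι → V → ℝ := fun i v => w (mix i₀ U x v i) with hE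
  have hE0 : ∀ i v, 0 ≤ E i v := fun i v => hw0 _
  have hQ := aff_FV hc hA u E hE0
  have e1 : ∀ y : ι → ℝ, FV S c A w (mix i₀ U (Function.update x u y)) =
      ∑ τ ∈ S, c τ * ∏ i, ∏ v ∈ A τ i, if v = u then (fun _ : ι => w (y i₀)) i else E i v := by
    intro y
    unfold FV
    refine Finset.sum_congr rfl fun τ _ => ?_
    congr 1
    refine Finset.prod_congr rfl fun i _ => Finset.prod_congr rfl fun v _ => ?_
    by_cases hv : v = u
    · subst hv
      simp [mix, hu]
    · simp [mix, hv, hE, Function.update_of_ne hv]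
  have e2 : ∀ y : ι → ℝ, FV S c A w (mix i₀ (insert u U) (Function.update x u y)) =
      ∑ τ ∈ S, c τ * ∏ i, ∏ v ∈ A τ i, if v = u then (fun i : ι => w (y i)) i else E i v := by
    intro y
    unfold FV
    refine Finset.sum_congr rfl fun τ _ => ?_
    congr 1
    refine Finset.prod_congr rfl fun i _ => Finset.prod_congr rfl fun v _ => ?_
    by_cases hv : v = u
    · subst hv
      simp [mix]
    · simp [mix, hv, hE, Function.update_of_ne hv]
  simp only [e1, e2]
  exact site_le μ hφ hm hC hQ hw hw0 i₀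

/-- The inequality in the space `V → ι → ℝ`. -/
theorem bk_col (μ : Measure ℝ) [IsProbabilityMeasure μ] {S : Finset T} {c : T → ℝ} (hc : ∀ τ ∈ S, 0 ≤ c τ) {A : T → ι → Finset V}
    (hA : ∀ τ ∈ S, Pairwise fun i j => Disjoint (A τ i) (A τ j)) {φ : ℝ → ℝ} (hφ : ConcaveOn ℝ (Ici 0) φ) (hm : Measurable φ)
    {C : ℝ} (hC : ∀ z, 0 ≤ z → |φ z| ≤ C) {w : ℝ → ℝ} (hw : Measurable w) (hw0 : ∀ t, 0 ≤ w t) (i₀ : ι) :
    ∫ x, φ (FV S c A w fun v _ => x v i₀) ∂(Measure.infinitePi fun _ : V => Measure.pi fun _ : ι => μ) ≤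
      ∫ x, φ (FV S c A w x) ∂(Measure.infinitePi fun _ : V => Measure.pi fun _ : ι => μ) := by
  classical
  have h1 : ∀ U : Finset V,
      ∫ x, φ (FV S c A w (mix i₀ ∅ x)) ∂(Measure.infinitePi fun _ : V => Measure.pi fun _ : ι => μ) ≤
        ∫ x, φ (FV S c A w (mix i₀ U x)) ∂(Measure.infinitePi fun _ : V => Measure.pi fun _ : ι => μ) := by
    intro U
    induction U using Finset.induction_on with
    | empty => exact le_rfl
    | insert u U hu ih => exact ih.trans (step μ hc hA hφ hm hC hw hw0 i₀ U hu)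
  have h2 := h1 (S.biUnion fun τ => Finset.univ.biUnion (A τ))
  have e1 : ∀ x : V → ι → ℝ, FV S c A w (mix i₀ ∅ x) = FV S c A w fun v _ => x v i₀ := fun x => by
    unfold FV mix
    simp
  have e2 : ∀ x : V → ι → ℝ, FV S c A w (mix i₀ (S.biUnion fun τ => Finset.univ.biUnion (A τ)) x) = FV S c A w x := by
    intro x
    unfold FV
    refine Finset.sum_congr rfl fun τ hτ => ?_
    congr 1
    refine Finset.prod_congr rfl fun i _ => Finset.prod_congr rfl fun v hv => ?_
    unfold mix
    rw [if_pos]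
    rw [Finset.mem_biUnion]
    exact ⟨τ, hτ, Finset.mem_biUnion.2 ⟨i, Finset.mem_univ _, hv⟩⟩
  simpa only [e1, e2] using h2

end main

/-! ### Rows and columns of the product space -/

section flip

variable {ι V : Type*} [Fintype ι]

omit [Fintype ι] in
theorem measurable_flip : Measurable fun (x : ι → V → ℝ) (v : V) (i : ι) => x i v :=
  measurable_pi_lambda _ fun v => measurable_pi_lambda _ fun i => (measurable_pi_apply v).comp (measurable_pi_apply i)

/-- Independent copies of a product measure: the columns are independent. -/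
theorem map_flip (μ : Measure ℝ) [IsProbabilityMeasure μ] :
    (Measure.pi fun _ : ι => Measure.infinitePi fun _ : V => μ).map (fun x v i => x i v) =
      Measure.infinitePi fun _ : V => Measure.pi fun _ : ι => μ := by
  have h1 : (Measure.pi fun _ : ι => Measure.infinitePi fun _ : V => μ) =
      (Measure.infinitePi fun _ : ι × V => μ).map (MeasurableEquiv.curry ι V ℝ) := by
    rw [Measure.infinitePi_map_curry (fun (_ : ι) (_ : V) => μ)]
    exact (Measure.infinitePi_eq_pi (fun _ : ι => Measure.infinitePi fun _ : V => μ)).symm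
  have h2 : (Measure.infinitePi fun _ : V => Measure.pi fun _ : ι => μ) =
      (Measure.infinitePi fun _ : V × ι => μ).map (MeasurableEquiv.curry V ι ℝ) := by
    rw [Measure.infinitePi_map_curry (fun (_ : V) (_ : ι) => μ)]
    congr 1
    funext v
    rw [Measure.infinitePi_eq_pi]
  have h3 : (Measure.infinitePi fun _ : V × ι => μ) = (Measure.infinitePi fun _ : ι × V => μ).map
      (MeasurableEquiv.piCongrLeft (fun _ : V × ι => ℝ) (Equiv.prodComm ι V)) := by
    have := Measure.infinitePi_map_piCongrLeft (fun _ : V × ι => μ) (Equiv.prodComm ι V)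
    exact this.symm
  rw [h1, h2, h3, Measure.map_map measurable_flip (MeasurableEquiv.measurable _),
    Measure.map_map (MeasurableEquiv.measurable _) (MeasurableEquiv.measurable _)]
  congr 1

end flip

/-! ### The concave BK inequality in the environments of `law μ` -/

section law

variable {ι T : Type*} [Fintype ι]

/-- The sum over the tuples of sets of sites: the environment `i` is used at the sites of the set `i`. -/
def FF (S : Finset T) (c : T → ℝ) (A : T → ι → Finset Pt) (ηs : ι → Env) : ℝ :=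
  ∑ τ ∈ S, c τ * ∏ i, ∏ v ∈ A τ i, Real.exp (ηs i v)

theorem FF_nonneg {S : Finset T} {c : T → ℝ} (hc : ∀ τ ∈ S, 0 ≤ c τ) (A : T → ι → Finset Pt) (ηs : ι → Env) :
    0 ≤ FF S c A ηs :=
  Finset.sum_nonneg fun τ hτ =>
    mul_nonneg (hc τ hτ) (Finset.prod_nonneg fun _ _ => Finset.prod_nonneg fun _ _ => (Real.exp_pos _).le)

theorem measurable_FF (S : Finset T) (c : T → ℝ) (A : T → ι → Finset Pt) : Measurable (FF S c A) := by
  unfold FF
  refine Finset.measurable_sum _ fun τ _ => Measurable.const_mul ?_ _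
  refine Finset.measurable_prod _ fun i _ => Finset.measurable_prod _ fun v _ => ?_
  exact Real.measurable_exp.comp ((measurable_pi_apply v).comp (measurable_pi_apply i))

/-- **THE CONCAVE BK INEQUALITY.** -/
theorem bkc (μ : Measure ℝ) [IsProbabilityMeasure μ] {S : Finset T} {c : T → ℝ} (hc : ∀ τ ∈ S, 0 ≤ c τ) {A : T → ι → Finset Pt}
    (hA : ∀ τ ∈ S, Pairwise fun i j => Disjoint (A τ i) (A τ j)) {φ : ℝ → ℝ} (hφ : ConcaveOn ℝ (Ici 0) φ) (hm : Measurable φ)
    {C : ℝ} (hC : ∀ z, 0 ≤ z → |φ z| ≤ C) :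
    ∫ η, φ (FF S c A fun _ => η) ∂(law μ) ≤ ∫ ηs, φ (FF S c A ηs) ∂(Measure.pi fun _ : ι => law μ) := by
  classical
  rcases isEmpty_or_nonempty ι with hι | ⟨⟨i₀⟩⟩
  · -- no set at all: both sides are the same constant
    have h1 : ∀ ηs : ι → Env, FF S c A ηs = ∑ τ ∈ S, c τ := fun ηs => by
      unfold FF
      simp
    simp only [h1, integral_const]
    simp
  · have h1 := bk_col μ hc hA hφ hm hC Real.measurable_exp (fun t => (Real.exp_pos t).le) i₀
    have e1 : ∫ η, φ (FF S c A fun _ => η) ∂(law μ) =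
        ∫ ηs, φ (FF S c A fun _ => ηs i₀) ∂(Measure.pi fun _ : ι => law μ) := by
      have h3 := measurePreserving_eval (fun _ : ι => law μ) i₀
      have h4 : Measurable fun η : Env => φ (FF S c A fun _ => η) :=
        hm.comp ((measurable_FF S c A).comp (measurable_pi_lambda _ fun _ => measurable_id))
      have h5 := integral_map (μ := Measure.pi fun _ : ι => law μ) (φ := Function.eval i₀) h3.measurable.aemeasurable
        (f := fun η : Env => φ (FF S c A fun _ => η)) h4.aestronglyMeasurable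
      rw [h3.map_eq] at h5
      rw [h5]
    have e2 : ∀ f : (Pt → ι → ℝ) → ℝ, Measurable f →
        ∫ x, f x ∂(Measure.infinitePi fun _ : Pt => Measure.pi fun _ : ι => μ) =
          ∫ ηs, f (fun v i => ηs i v) ∂(Measure.pi fun _ : ι => law μ) := by
      intro f hf
      have h5 := integral_map (μ := Measure.pi fun _ : ι => law μ) (φ := fun (x : ι → Pt → ℝ) (v : Pt) (i : ι) => x i v)
        measurable_flip.aemeasurable (f := f) hf.aestronglyMeasurable
      rw [← h5]
      congr 1
      exact (map_flip (ι := ι) (V := Pt) μ).symm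
    have m1 : Measurable fun x : Pt → ι → ℝ => φ (FV S c A Real.exp fun v _ => x v i₀) := by
      have m2 : Measurable fun (x : Pt → ι → ℝ) (v : Pt) (_ : ι) => x v i₀ :=
        measurable_pi_lambda _ fun v => measurable_pi_lambda _ fun _ =>
          (measurable_pi_apply i₀).comp (measurable_pi_apply v)
      exact hm.comp ((measurable_FV S c A Real.measurable_exp).comp m2)
    have m3 : Measurable fun x : Pt → ι → ℝ => φ (FV S c A Real.exp x) :=
      hm.comp (measurable_FV S c A Real.measurable_exp)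
    rw [e2 (fun x => φ (FV S c A Real.exp fun v _ => x v i₀)) m1, e2 (fun x => φ (FV S c A Real.exp x)) m3] at h1
    rw [e1]
    exact h1

/-- The form used for sums over disjoint paths: `φ = min 1 (lam z)`. -/
theorem bkc_min (μ : Measure ℝ) [IsProbabilityMeasure μ] {S : Finset T} {c : T → ℝ} (hc : ∀ τ ∈ S, 0 ≤ c τ)
    {A : T → ι → Finset Pt} (hA : ∀ τ ∈ S, Pairwise fun i j => Disjoint (A τ i) (A τ j)) {r : ℝ} (hr : 0 ≤ r) :
    ∫ η, min 1 (r * FF S c A fun _ => η) ∂(law μ) ≤
      ∫ ηs, min 1 (r * FF S c A ηs) ∂(Measure.pi fun _ : ι => law μ) := by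
  have h1 : ConcaveOn ℝ (Ici 0) fun z : ℝ => min 1 (r * z) := by
    have h2 : ConcaveOn ℝ (Ici (0 : ℝ)) fun _ : ℝ => (1 : ℝ) := concaveOn_const _ (convex_Ici _)
    have h3 : ConcaveOn ℝ (Ici (0 : ℝ)) fun z : ℝ => r * z := by
      have := (concaveOn_id (𝕜 := ℝ) (convex_Ici (0 : ℝ))).smul hr
      simpa [smul_eq_mul] using this
    exact h2.inf h3
  refine bkc μ hc hA h1 (measurable_const.min (measurable_const.mul measurable_id)) (C := 1) fun z hz => ?_
  rw [abs_of_nonneg (le_min zero_le_one (mul_nonneg hr hz))]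
  exact min_le_left _ _

end law

end

end Pool.Agent.W_7d29a1_C1.BKc35
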