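import Pool.Agent.W_7d29a1_f21.Ind

/-!
Both halves (MP_7d29a1_pr), attractor route, MEET_d (row 683, section (2)): CONCAVE BK. (helper89)

`FF T c A w = sum over the tuples t of c t * prod over the paths i of prod over the sites v of A t i of u (w i v)`, the sets
`A t i`, `i : κ`, of one tuple are pairwise disjoint. For every concave `phi`: the mean of `phi` of `FF` in ONE
environment is at most the mean of `phi` of `FF` with an independent environment for each of the `N` paths.
-/

set_option autoImplicit false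

namespace Pool.Agent.W_7d29a1_C1.BK89

open MeasureTheory ProbabilityTheory Finset Pool.Agent.W_7d29a1_f21

noncomputable section

variable {σ τ κ : Type*} [Fintype κ] [DecidableEq κ]

/-- The sum over the tuples of disjoint sets, the `i`-th set reads the environment `w i`. -/
def FF (u : ℝ → ℝ) (T : Finset τ) (c : τ → ℝ) (A : τ → κ → Finset σ) (w : κ → σ → ℝ) : ℝ :=
  ∑ t ∈ T, c t * ∏ i, ∏ v ∈ A t i, u (w i v)

lemma FF_nonneg {u : ℝ → ℝ} (hu0 : ∀ x, 0 ≤ u x) {T : Finset τ} {c : τ → ℝ} (hc : ∀ t ∈ T, 0 ≤ c t)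
    (A : τ → κ → Finset σ) (w : κ → σ → ℝ) : 0 ≤ FF u T c A w :=
  Finset.sum_nonneg fun t ht => mul_nonneg (hc t ht) <|
    Finset.prod_nonneg fun i _ => Finset.prod_nonneg fun v _ => hu0 _

lemma FF_congr {u : ℝ → ℝ} {T : Finset τ} {c : τ → ℝ} {A : τ → κ → Finset σ}
    {w w' : κ → σ → ℝ} (h : ∀ t ∈ T, ∀ i, ∀ v ∈ A t i, w i v = w' i v) :
    FF u T c A w = FF u T c A w' := by
  unfold FF
  refine Finset.sum_congr rfl fun t ht => ?_
  congr 1
  refine Finset.prod_congr rfl fun i _ => Finset.prod_congr rfl fun v hv => ?_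
  rw [h t ht i v hv]

lemma measurable_FF {u : ℝ → ℝ} (hu : Measurable u) (T : Finset τ) (c : τ → ℝ)
    (A : τ → κ → Finset σ) : Measurable (FF u T c A) := by
  unfold FF
  refine Finset.measurable_sum _ fun t _ => ?_
  refine Measurable.const_mul ?_ _
  refine Finset.measurable_prod _ fun i _ => Finset.measurable_prod _ fun v _ => ?_
  exact hu.comp ((measurable_pi_apply v).comp (measurable_pi_apply i))

/-- One site `v`: `FF` is affine in the values of the site `v` in the `N` environments. -/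
lemma split [DecidableEq σ] {u : ℝ → ℝ} {T : Finset τ} {c : τ → ℝ} {A : τ → κ → Finset σ}
    (hA : ∀ t ∈ T, Pairwise fun i j => Disjoint (A t i) (A t j)) (v : σ) (w : κ → σ → ℝ) :
    FF u T c A w =
      (∑ t ∈ T, c t * (∏ i, ∏ x ∈ (A t i).erase v, u (w i x)) * (if ∀ i, v ∉ A t i then 1 else 0)) +
      ∑ i, (∑ t ∈ T, c t * (∏ i, ∏ x ∈ (A t i).erase v, u (w i x)) *
        (if v ∈ A t i then 1 else 0)) * u (w i v) := by
  have h1 : ∀ t ∈ T, (∏ i, ∏ x ∈ A t i, u (w i x)) =
      (∏ i, ∏ x ∈ (A t i).erase v, u (w i x)) *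
        ((if ∀ i, v ∉ A t i then 1 else 0) + ∑ i, (if v ∈ A t i then 1 else 0) * u (w i v)) := by
    intro t ht
    by_cases hv : ∀ i, v ∉ A t i
    · rw [if_pos hv]
      have e1 : ∑ i, (if v ∈ A t i then (1 : ℝ) else 0) * u (w i v) = 0 :=
        Finset.sum_eq_zero fun i _ => by rw [if_neg (hv i), zero_mul]
      rw [e1, add_zero, mul_one]
      refine Finset.prod_congr rfl fun i _ => ?_
      rw [Finset.erase_eq_of_notMem (hv i)]
    · rw [if_neg hv]
      push Not at hv
      obtain ⟨i0, hi0⟩ := hv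
      have hne : ∀ i, i ≠ i0 → v ∉ A t i := fun i hi hvi =>
        Finset.disjoint_left.1 (hA t ht hi) hvi hi0
      have e1 : ∑ i, (if v ∈ A t i then (1 : ℝ) else 0) * u (w i v) = u (w i0 v) := by
        rw [Finset.sum_eq_single i0 (fun i _ hi => by rw [if_neg (hne i hi), zero_mul])
          (fun h => absurd (Finset.mem_univ _) h), if_pos hi0, one_mul]
      rw [e1, zero_add, ← Finset.mul_prod_erase univ _ (Finset.mem_univ i0),
        ← Finset.mul_prod_erase univ (fun i => ∏ x ∈ (A t i).erase v, u (w i x))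
          (Finset.mem_univ i0)]
      have e2 : ∏ x ∈ A t i0, u (w i0 x) = u (w i0 v) * ∏ x ∈ (A t i0).erase v, u (w i0 x) :=
        (Finset.mul_prod_erase _ _ hi0).symm
      have e3 : ∏ i ∈ univ.erase i0, ∏ x ∈ A t i, u (w i x) =
          ∏ i ∈ univ.erase i0, ∏ x ∈ (A t i).erase v, u (w i x) := by
        refine Finset.prod_congr rfl fun i hi => ?_
        rw [Finset.erase_eq_of_notMem (hne i (Finset.ne_of_mem_erase hi))]
      rw [e2, e3]
      ring
  have h2 : FF u T c A w = ∑ t ∈ T, (c t * (∏ i, ∏ x ∈ (A t i).erase v, u (w i x)) *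
      (if ∀ i, v ∉ A t i then 1 else 0) +
      ∑ i, (c t * (∏ i, ∏ x ∈ (A t i).erase v, u (w i x)) * (if v ∈ A t i then 1 else 0)) *
        u (w i v)) := by
    unfold FF
    refine Finset.sum_congr rfl fun t ht => ?_
    rw [h1 t ht, mul_add, mul_add, Finset.mul_sum, Finset.mul_sum]
    congr 1
    · ring
    · refine Finset.sum_congr rfl fun i _ => ?_
      ring
  rw [h2, Finset.sum_add_distrib, Finset.sum_comm]
  congr 1
  refine Finset.sum_congr rfl fun i _ => ?_
  rw [Finset.sum_mul]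

/-- Jensen for one site. -/
lemma jensen {φ : ℝ → ℝ} (hφ : ConcaveOn ℝ (Set.Ici 0) φ) {a : ℝ} (ha : 0 ≤ a) {b : κ → ℝ}
    (hb : ∀ i, 0 ≤ b i) (hB : 0 < ∑ i, b i) {y : κ → ℝ} (hy : ∀ i, 0 ≤ y i) :
    ∑ i, b i / (∑ j, b j) * φ (a + (∑ j, b j) * y i) ≤ φ (a + ∑ i, b i * y i) := by
  have h0 : ∀ i ∈ (univ : Finset (κ)), 0 ≤ b i / ∑ j, b j := fun i _ =>
    div_nonneg (hb i) hB.le
  have h1 : ∑ i, b i / (∑ j, b j) = 1 := by rw [← Finset.sum_div, div_self hB.ne']
  have h2 : ∀ i ∈ (univ : Finset (κ)), a + (∑ j, b j) * y i ∈ Set.Ici (0 : ℝ) := fun i _ => by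
    have := mul_nonneg hB.le (hy i)
    exact Set.mem_Ici.2 (by linarith)
  have h3 := hφ.le_map_sum h0 h1 h2
  simp only [smul_eq_mul] at h3
  refine h3.trans (le_of_eq ?_)
  congr 1
  have h4 : ∑ i, b i / (∑ j, b j) * (a + (∑ j, b j) * y i) =
      (∑ i, b i / (∑ j, b j)) * a + ∑ i, b i * y i := by
    rw [Finset.sum_mul, ← Finset.sum_add_distrib]
    refine Finset.sum_congr rfl fun i _ => ?_
    field_simp
  rw [h4, h1, one_mul]

variable {μ : Measure ℝ} [IsProbabilityMeasure μ]

open Classical in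
/-- The hybrid: the sites of `U` are split, the others are common. -/
def hyb (U : Finset σ) (ω : Option (κ) × σ → ℝ) : κ → σ → ℝ :=
  fun i v => if v ∈ U then ω (some i, v) else ω (none, v)

lemma measurable_hyb (U : Finset σ) : Measurable (hyb (κ := κ) U) := by
  refine measurable_pi_iff.2 fun i => measurable_pi_iff.2 fun v => ?_
  unfold hyb
  by_cases h : v ∈ U
  · simp only [h, if_true]; exact measurable_pi_apply _
  · simp only [h, if_false]; exact measurable_pi_apply _

lemma intg {Ω : Type*} [MeasurableSpace Ω] {P : Measure Ω} [IsFiniteMeasure P] {φ : ℝ → ℝ}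
    (hφm : Measurable φ) {K : ℝ} (hφb : ∀ z, 0 ≤ z → |φ z| ≤ K) {f : Ω → ℝ} (hf : Measurable f)
    (hf0 : ∀ x, 0 ≤ f x) : Integrable (fun x => φ (f x)) P := by
  refine Integrable.mono' (integrable_const K) (hφm.comp hf).aestronglyMeasurable ?_
  exact Filter.Eventually.of_forall fun x => by
    rw [Real.norm_eq_abs]; exact hφb _ (hf0 x)

/-- The step: split one more site. -/
lemma step {u : ℝ → ℝ} (hu : Measurable u) (hu0 : ∀ x, 0 ≤ u x) {T : Finset τ} {c : τ → ℝ}
    (hc : ∀ t ∈ T, 0 ≤ c t) {A : τ → κ → Finset σ}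
    (hA : ∀ t ∈ T, Pairwise fun i j => Disjoint (A t i) (A t j)) {φ : ℝ → ℝ}
    (hφ : ConcaveOn ℝ (Set.Ici 0) φ) (hφm : Measurable φ) {K : ℝ} (hφb : ∀ z, 0 ≤ z → |φ z| ≤ K)
    [DecidableEq σ] {U : Finset σ} {v : σ} (hv : v ∉ U) :
    ∫ ω, φ (FF u T c A (hyb U ω)) ∂(lw (Option (κ) × σ) μ) ≤
      ∫ ω, φ (FF u T c A (hyb (insert v U) ω)) ∂(lw (Option (κ) × σ) μ) := by
  have hm : Measurable (FF u T c A) := measurable_FF hu T c A
  have hi : ∀ V : Finset σ, Integrable (fun ω => φ (FF u T c A (hyb V ω)))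
      (lw (Option (κ) × σ) μ) := fun V =>
    intg hφm hφb (hm.comp (measurable_hyb V)) fun ω => FF_nonneg hu0 hc A _
  set J : Set (Option (κ) × σ) := {p | p.2 = v} with hJ
  rw [integral_splice (μ := μ) Jᶜ (hi U), integral_splice (μ := μ) Jᶜ (hi (insert v U))]
  have hs : ∀ V : Finset σ, Measurable fun w : (Option (κ) × σ → ℝ) × (Option (κ) × σ → ℝ) =>
      FF u T c A (hyb V (splice Jᶜ w.1 w.2)) := fun V =>
    (hm.comp (measurable_hyb V)).comp (mp_splice (μ := μ) Jᶜ).measurable
  have hii : ∀ V : Finset σ, Integrable (fun w : (Option (κ) × σ → ℝ) ×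
      (Option (κ) × σ → ℝ) => φ (FF u T c A (hyb V (splice Jᶜ w.1 w.2))))
      ((lw (Option (κ) × σ) μ).prod (lw (Option (κ) × σ) μ)) := fun V =>
    intg hφm hφb (hs V) fun w => FF_nonneg hu0 hc A _
  refine integral_mono_ae (hii U).integral_prod_left (hii (insert v U)).integral_prod_left ?_
  refine Filter.Eventually.of_forall fun g => ?_
  simp only
  -- the coefficients
  set W0 : κ → σ → ℝ := hyb U (splice Jᶜ g g) with hW0
  set a : ℝ := ∑ t ∈ T, c t * (∏ i, ∏ x ∈ (A t i).erase v, u (W0 i x)) *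
    (if ∀ i, v ∉ A t i then 1 else 0) with ha
  set b : κ → ℝ := fun i => ∑ t ∈ T, c t * (∏ i, ∏ x ∈ (A t i).erase v, u (W0 i x)) *
    (if v ∈ A t i then 1 else 0) with hb
  have hoff : ∀ (V : Finset σ) (g' : Option (κ) × σ → ℝ) (i : κ) (x : σ), x ≠ v →
      (x ∈ V ↔ x ∈ U) → hyb V (splice Jᶜ g g') i x = W0 i x := by
    intro V g' i x hx hVU
    have h1 : ∀ o : Option (κ), splice Jᶜ g g' (o, x) = splice Jᶜ g g (o, x) := fun o => by
      have : (o, x) ∈ Jᶜ := by simp [hJ, hx]
      rw [splice_mem _ _ this, splice_mem _ _ this]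
    rw [hW0]
    unfold hyb
    by_cases hxU : x ∈ U
    · rw [if_pos (hVU.2 hxU), if_pos hxU, h1]
    · rw [if_neg (fun h => hxU (hVU.1 h)), if_neg hxU, h1]
  have hon : ∀ (o : Option (κ)) (g' : Option (κ) × σ → ℝ),
      splice Jᶜ g g' (o, v) = g' (o, v) := fun o g' => by
    have : (o, v) ∉ Jᶜ := by simp [hJ]
    rw [splice_not_mem _ _ this]
  have hprod : ∀ (V : Finset σ) (g' : Option (κ) × σ → ℝ), (∀ x, x ≠ v → (x ∈ V ↔ x ∈ U)) →
      ∀ t, (∏ i, ∏ x ∈ (A t i).erase v, u (hyb V (splice Jᶜ g g') i x)) =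
        ∏ i, ∏ x ∈ (A t i).erase v, u (W0 i x) := by
    intro V g' hV t
    refine Finset.prod_congr rfl fun i _ => Finset.prod_congr rfl fun x hx => ?_
    rw [hoff V g' i x (Finset.ne_of_mem_erase hx) (hV x (Finset.ne_of_mem_erase hx))]
  have eU : ∀ g' : Option (κ) × σ → ℝ, FF u T c A (hyb U (splice Jᶜ g g')) =
      a + (∑ i, b i) * u (g' (none, v)) := by
    intro g'
    rw [split hA v]
    have h2 : ∀ i, hyb U (splice Jᶜ g g') i v = g' (none, v) := fun i => by
      unfold hyb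
      rw [if_neg hv, hon]
    simp only [hprod U g' (fun x _ => Iff.rfl), h2]
    rw [← Finset.sum_mul]
  have eV : ∀ g' : Option (κ) × σ → ℝ, FF u T c A (hyb (insert v U) (splice Jᶜ g g')) =
      a + ∑ i, b i * u (g' (some i, v)) := by
    intro g'
    rw [split hA v]
    have h2 : ∀ i, hyb (insert v U) (splice Jᶜ g g') i v = g' (some i, v) := fun i => by
      unfold hyb
      rw [if_pos (Finset.mem_insert_self v U), hon]
    simp only [hprod (insert v U) g' (fun x hx => by simp [hx]), h2]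
    rfl
  simp only [eU, eV]
  have hR : ∀ t ∈ T, 0 ≤ c t * (∏ i, ∏ x ∈ (A t i).erase v, u (W0 i x)) := fun t ht =>
    mul_nonneg (hc t ht) (Finset.prod_nonneg fun i _ => Finset.prod_nonneg fun x _ => hu0 _)
  have ha0 : 0 ≤ a := Finset.sum_nonneg fun t ht => by
    split_ifs
    · rw [mul_one]; exact hR t ht
    · rw [mul_zero]
  have hb0 : ∀ i, 0 ≤ b i := fun i => Finset.sum_nonneg fun t ht => by
    split_ifs
    · rw [mul_one]; exact hR t ht
    · rw [mul_zero]
  have hev : ∀ p : Option (κ) × σ, Measurable fun g' : Option (κ) × σ → ℝ => u (g' p) :=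
    fun p => hu.comp (measurable_pi_apply p)
  rcases (Finset.sum_nonneg fun i (_ : i ∈ (univ : Finset (κ))) => hb0 i).eq_or_lt with hB | hB
  · have hbz : ∀ i, b i = 0 := fun i =>
      (Finset.sum_eq_zero_iff_of_nonneg fun i _ => hb0 i).1 hB.symm i (Finset.mem_univ i)
    simp only [hbz, zero_mul, Finset.sum_const_zero, le_refl]
  · -- Jensen
    have hmain : ∀ i : κ, ∫ g', φ (a + (∑ j, b j) * u (g' (some i, v)))
        ∂(lw (Option (κ) × σ) μ) =
        ∫ g', φ (a + (∑ j, b j) * u (g' (none, v))) ∂(lw (Option (κ) × σ) μ) := by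
      intro i
      have hf : Measurable fun x : ℝ => φ (a + (∑ j, b j) * u x) :=
        hφm.comp ((hu.const_mul _).const_add _)
      have h1 := mp_integral (measurePreserving_eval_infinitePi
        (fun _ : Option (κ) × σ => μ) (some i, v)) hf.aestronglyMeasurable
      have h2 := mp_integral (measurePreserving_eval_infinitePi
        (fun _ : Option (κ) × σ => μ) (none, v)) hf.aestronglyMeasurable
      exact h1.trans h2.symm
    have hint : ∀ i : κ, Integrable (fun g' : Option (κ) × σ → ℝ =>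
        φ (a + (∑ j, b j) * u (g' (some i, v)))) (lw (Option (κ) × σ) μ) := fun i =>
      intg hφm hφb (((hev _).const_mul _).const_add _) fun g' => by
        have := mul_nonneg hB.le (hu0 (g' (some i, v)))
        linarith
    calc ∫ g', φ (a + (∑ i, b i) * u (g' (none, v))) ∂(lw (Option (κ) × σ) μ)
        = ∑ i, b i / (∑ j, b j) * ∫ g', φ (a + (∑ j, b j) * u (g' (some i, v)))
          ∂(lw (Option (κ) × σ) μ) := by
          simp only [hmain]
          rw [← Finset.sum_mul, ← Finset.sum_div, div_self hB.ne', one_mul]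
      _ = ∫ g', ∑ i, b i / (∑ j, b j) * φ (a + (∑ j, b j) * u (g' (some i, v)))
          ∂(lw (Option (κ) × σ) μ) := by
          rw [integral_finsetSum _ fun i _ => (hint i).const_mul _]
          refine Finset.sum_congr rfl fun i _ => ?_
          rw [integral_const_mul]
      _ ≤ _ := by
          refine integral_mono (integrable_finsetSum _ fun i _ => (hint i).const_mul _) ?_
            fun g' => ?_
          · refine intg hφm hφb ?_ ?_
            · exact (Finset.measurable_sum _ fun i _ => (hev _).const_mul _).const_add _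
            · intro g'
              have := Finset.sum_nonneg fun i (_ : i ∈ (univ : Finset (κ))) =>
                mul_nonneg (hb0 i) (hu0 (g' (some i, v)))
              linarith
          · exact jensen hφ ha0 hb0 hB fun i => hu0 _

/-- The `N` environments `ω (some i, ·)` are independent with law `lw σ μ`. -/
lemma mp_curry : MeasurePreserving (fun (ω : Option (κ) × σ → ℝ) (i : κ) (x : σ) =>
    ω (some i, x)) (lw (Option (κ) × σ) μ) (Measure.pi fun _ : κ => lw σ μ) := by
  have hinj : Function.Injective fun p : κ × σ => ((some p.1, p.2) : Option (κ) × σ) := by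
    rintro ⟨i, x⟩ ⟨j, y⟩ h
    simpa using h
  have h1 := mp_reindex (μ := μ) hinj
  have h2 : MeasurePreserving (MeasurableEquiv.curry (κ) σ ℝ) (lw (κ × σ) μ)
      (Measure.pi fun _ : κ => lw σ μ) := by
    refine ⟨MeasurableEquiv.measurable _, ?_⟩
    have h3 := Measure.infinitePi_map_curry (fun (_ : κ) (_ : σ) => μ)
    rw [Measure.infinitePi_eq_pi (μ := fun _ : κ => Measure.infinitePi fun _ : σ => μ)] at h3
    exact h3
  exact h2.comp h1

/-- **Concave BK.** -/
theorem bk {u : ℝ → ℝ} (hu : Measurable u) (hu0 : ∀ x, 0 ≤ u x) {T : Finset τ} {c : τ → ℝ}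
    (hc : ∀ t ∈ T, 0 ≤ c t) {A : τ → κ → Finset σ}
    (hA : ∀ t ∈ T, Pairwise fun i j => Disjoint (A t i) (A t j)) {φ : ℝ → ℝ}
    (hφ : ConcaveOn ℝ (Set.Ici 0) φ) (hφm : Measurable φ) {K : ℝ} (hφb : ∀ z, 0 ≤ z → |φ z| ≤ K) :
    ∫ g, φ (FF u T c A fun _ => g) ∂(lw σ μ) ≤
      ∫ w, φ (FF u T c A w) ∂(Measure.pi fun _ : κ => lw σ μ) := by
  classical
  have hm : Measurable (FF u T c A) := measurable_FF hu T c A
  have key : ∀ U : Finset σ, ∫ ω, φ (FF u T c A (hyb ∅ ω)) ∂(lw (Option (κ) × σ) μ) ≤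
      ∫ ω, φ (FF u T c A (hyb U ω)) ∂(lw (Option (κ) × σ) μ) := by
    intro U
    induction U using Finset.induction_on with
    | empty => exact le_rfl
    | insert v U hv ih => exact ih.trans (step hu hu0 hc hA hφ hφm hφb hv)
  have h0 : ∫ ω, φ (FF u T c A (hyb ∅ ω)) ∂(lw (Option (κ) × σ) μ) =
      ∫ g, φ (FF u T c A fun _ => g) ∂(lw σ μ) := by
    have hinj : Function.Injective fun x : σ => ((none, x) : Option (κ) × σ) := by
      intro x y h
      simpa using h
    have hmc : Measurable fun g : σ → ℝ => φ (FF u T c A fun _ => g) :=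
      hφm.comp (hm.comp (measurable_pi_iff.2 fun _ => measurable_id))
    rw [← mp_integral (mp_reindex (μ := μ) hinj) hmc.aestronglyMeasurable]
    refine integral_congr_ae (Filter.Eventually.of_forall fun ω => ?_)
    have e : hyb (κ := κ) (∅ : Finset σ) ω = fun _ p => ω (none, p) := by
      funext i x
      simp [hyb]
    simp only [e]
  have h1 : ∫ ω, φ (FF u T c A (hyb (T.biUnion fun t => univ.biUnion fun i => A t i) ω))
      ∂(lw (Option (κ) × σ) μ) =
      ∫ w, φ (FF u T c A w) ∂(Measure.pi fun _ : κ => lw σ μ) := by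
    have hmc : Measurable fun w : κ → σ → ℝ => φ (FF u T c A w) := hφm.comp hm
    rw [← mp_integral (mp_curry (κ := κ) (σ := σ) (μ := μ)) hmc.aestronglyMeasurable]
    refine integral_congr_ae (Filter.Eventually.of_forall fun ω => ?_)
    simp only
    rw [FF_congr fun t ht i v hv => ?_]
    unfold hyb
    rw [if_pos]
    simp only [Finset.mem_biUnion, Finset.mem_univ, true_and]
    exact ⟨t, ht, i, hv⟩
  rw [← h0, ← h1]
  exact key _

lemma concaveOn_min {l : ℝ} (_hl : 0 ≤ l) : ConcaveOn ℝ (Set.Ici 0) fun z : ℝ => min 1 (l * z) := by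
  have h1 : ConcaveOn ℝ (Set.Ici (0 : ℝ)) fun _ : ℝ => (1 : ℝ) := concaveOn_const _ (convex_Ici 0)
  have h2 : ConcaveOn ℝ (Set.Ici (0 : ℝ)) fun z : ℝ => l * z := by
    refine ⟨convex_Ici 0, fun x _ y _ a b _ _ _ => ?_⟩
    simp only [smul_eq_mul]
    exact le_of_eq (by ring)
  exact h1.inf h2

/-- Concave BK with `phi z = min 1 (l z)`. -/
theorem bk_min {u : ℝ → ℝ} (hu : Measurable u) (hu0 : ∀ x, 0 ≤ u x) {T : Finset τ} {c : τ → ℝ}
    (hc : ∀ t ∈ T, 0 ≤ c t) {A : τ → κ → Finset σ}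
    (hA : ∀ t ∈ T, Pairwise fun i j => Disjoint (A t i) (A t j)) {l : ℝ} (hl : 0 ≤ l) :
    ∫ g, min 1 (l * FF u T c A fun _ => g) ∂(lw σ μ) ≤
      ∫ w, min 1 (l * FF u T c A w) ∂(Measure.pi fun _ : κ => lw σ μ) :=
  bk (K := 1) hu hu0 hc hA (concaveOn_min hl)
    (measurable_const.min (measurable_id.const_mul l)) fun z hz => by
      rw [abs_of_nonneg (le_min zero_le_one (mul_nonneg hl hz))]
      exact min_le_left _ _

end

end Pool.Agent.W_7d29a1_C1.BK89
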