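import Pool.Agent.W_7d29a1_C1.ContrEP91
import Pool.Agent.W_7d29a1_HS.Defs

/-!
MP_7d29a1_pr, the attractor route: NEIGHBOURING SITES, the statement (helper56). In all rows, with all ends, tilted or not, the
logarithms of the masses of two neighbouring sites differ by at most `N ^ δ`.
-/

set_option autoImplicit false

namespace Pool.Agent.W_7d29a1_C1.H56

open MeasureTheory Filter Topology
open Pool.Agent.W_7d29a1_F Pool.Agent.W_7d29a1_h4g Pool.Agent.W_7d29a1_H Pool.Agent.W_7d29a1_HS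
open Pool.Agent.W_7d29a1_C1.K91 (wt)
open Pool.Agent.W_7d29a1_C1.K91P (bw)

noncomputable section

/-- The step weights: `M` rows with the force `s + h`, then the force `s`. -/
def pN (s h : ℝ) (M : ℕ) (i : ℕ) : ℝ := if i < M then Real.exp (s + h) else Real.exp s

/-- **Neighbouring sites.** -/
def Nbr56 (μ : Measure ℝ) (s : ℝ) : Prop :=
  ∀ dl : ℝ, 0 < dl → ∃ κ > (0 : ℝ), ∃ c' > (0 : ℝ), ∀ᶠ N : ℕ in atTop, ∀ M : ℕ, M ≤ N → ∀ h : ℝ, |h| * EE μ s N ≤ (N : ℝ) ^ κ →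
    (law μ).real {η | ∃ i j : ℕ, i + j ≤ 4 * N ^ 3 ∧ ∃ y : ℤ, |y| ≤ (N : ℤ) ^ 4 ∧
      (N : ℝ) ^ dl < |Real.log (bw (wt η) (pN s h M) i j y) - Real.log (bw (wt η) (pN s h M) i j (y - 1))|} ≤
      Real.exp (-(N : ℝ) ^ c')

end

end Pool.Agent.W_7d29a1_C1.H56
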