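import Pool.Agent.W_7d29a1_C1.LocD91
import Pool.Agent.W_7d29a1_C1.CtxM68
import Pool.Agent.W_7d29a1_C1.NbrD56

/-!
MP_7d29a1_pr, the attractor route: LOC, THE WILD PART OF THE CONTACTS (helper56). Over LocD91 (deterministic part) and CtxM68
(measurability).

`bad Γ u b c` = one of the two weights of the contact is larger than `exp u`, or two neighbouring sites differ by more than `exp b`
somewhere. `Rw` = the crude size of the contact on that event. Off the event the contact functional is at most `K ws`; the mean of `Rw`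
is at most `T P(bad) + E X ^ 2 / T`.
-/

set_option autoImplicit false

namespace Pool.Agent.W_7d29a1_C1.H56

open Finset MeasureTheory
open Pool.Agent.W_7d29a1_F
open Pool.Agent.W_7d29a1_h47 (EM Mom)
open Pool.Agent.W_7d29a1_C1.K91 (Box Grp wt wt_pos zs measurable_wt Mb int_Mb wt_Mb)
open Pool.Agent.W_7d29a1_C1.K91P
open Pool.Agent.W_7d29a1_C1.L91
open Pool.Agent.W_7d29a1_C1.H60
open Pool.Agent.W_7d29a1_C1.H60.Cx (l)

noncomputable section

variable {Γ : Cx}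

theorem msk (h : Γ.Ok) : Msk Γ := ⟨h.k1, h.q0, h.q1⟩

/-! ### The bad event -/

/-- The logarithms of the masses of neighbouring sites differ by at most `b`, in all rows and with all ends. -/
def NB (Γ : Cx) (b : ℝ) (η : Env) : Prop :=
  ∀ i j : ℕ, i + j ≤ Γ.N → ∀ y : ℤ, 0 ≤ y → y ≤ Γ.hi + 1 →
    |Real.log (bw (wt η) Γ.p i j y) - Real.log (bw (wt η) Γ.p i j (y - 1))| ≤ b

/-- The size of the field at the two sites of a contact. -/
def uc (c : ℕ × ℤ) (η : Env) : ℝ := |η ((c.1 : ℤ), c.2 - 1)| + |η ((c.1 : ℤ), c.2)|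

theorem uc_nonneg (c : ℕ × ℤ) (η : Env) : 0 ≤ uc c η := add_nonneg (abs_nonneg _) (abs_nonneg _)

theorem uc_log (c : ℕ × ℤ) (η : Env) : |Real.log (wt η c.1 (c.2 - 1)) - Real.log (wt η c.1 c.2)| ≤ uc c η := by
  unfold wt uc
  split_ifs
  · rw [sub_self, abs_zero]
    positivity
  · rw [Real.log_exp, Real.log_exp]
    exact abs_sub _ _

/-- **The bad event of a contact.** -/
def bad (Γ : Cx) (u b : ℝ) (c : ℕ × ℤ) : Set Env := {η | u < uc c η} ∪ {η | ¬ NB Γ b η}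

theorem measurable_ev (a : Pt) : Measurable fun η : Env => |η a| := (measurable_pi_apply a).abs

theorem measurable_uc (c : ℕ × ℤ) : Measurable (uc c) := (measurable_ev _).add (measurable_ev _)

theorem meas_NB (Γ : Cx) (b : ℝ) : MeasurableSet {η : Env | NB Γ b η} := by
  unfold NB
  simp only [Set.ofPred_forall]
  refine MeasurableSet.iInter fun i => MeasurableSet.iInter fun j => MeasurableSet.iInter fun _ =>
    MeasurableSet.iInter fun y => MeasurableSet.iInter fun _ => MeasurableSet.iInter fun _ => ?_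
  exact measurableSet_le ((meas_bw j i y).log.sub (meas_bw j i (y - 1)).log).abs measurable_const

theorem meas_bad (Γ : Cx) (u b : ℝ) (c : ℕ × ℤ) : MeasurableSet (bad Γ u b c) :=
  (measurableSet_lt measurable_const (measurable_uc c)).union (meas_NB Γ b).compl

/-- The neighbour data from bounds of the profile. -/
theorem nb_of {η : Env} {i : ℕ} {b : ℝ} (hb : 0 ≤ b)
    (hf : ∀ y : ℤ, 0 ≤ y → y ≤ Γ.hi + 1 → |Real.log (fC Γ η i y) - Real.log (fC Γ η i (y - 1))| ≤ b)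
    (hz : ∀ y ∈ Icc (1 : ℤ) Γ.k, |Real.log (bw (wt η) Γ.p 0 Γ.N (y - 1)) - Real.log (bw (wt η) Γ.p 0 Γ.N y)| ≤ b) : Nb Γ η i b where
  X0 := hb
  G := fun y hy => by
    rw [mem_Icc] at hy
    have f0 : ∀ y, 0 < fC Γ η i y := fun y => bw_pos (wt_pos η) L91.p_pos _ _ _
    have hp := L91.p_pos (Γ := Γ) i
    have a1 := le_of_log (f0 _) (f0 _) (hf y hy.1 (by omega))
    have a2 := le_of_log (f0 _) (f0 _) (hf (y + 1) (by omega) (by omega))
    rw [add_sub_cancel_right] at a2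
    rw [GG_fC, GG_fC, sub_add_cancel]
    have b1 := f0 y
    have b2 := f0 (y + 1)
    have b3 := f0 (y - 1)
    have m1 := mul_le_mul_of_nonneg_left a2.1 hp.le
    have m2 := mul_le_mul_of_nonneg_left a2.2 hp.le
    refine log_of_le (by positivity) (by positivity) ?_ ?_
    · linarith [a1.2]
    · linarith [a1.1]
  f := fun y hy => by
    rw [mem_Icc] at hy
    rw [abs_sub_comm]
    exact hf y (by omega) (by omega)
  z := hz

theorem NB.nb {η : Env} {b : ℝ} (h : NB Γ b η) {i : ℕ} (hi : i < Γ.N) : Nb Γ η i b := by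
  have h0 : (0 : ℤ) ≤ Γ.hi := by unfold Cx.hi; positivity
  have hb : 0 ≤ b := (abs_nonneg _).trans (h 0 0 (by omega) 0 le_rfl (by omega))
  refine nb_of hb (fun y h1 h2 => h (i + 1) (Γ.N - (i + 1)) (by omega) y h1 h2) fun y hy => ?_
  rw [mem_Icc] at hy
  rw [abs_sub_comm]
  refine h 0 Γ.N (by omega) y (by omega) ?_
  unfold Cx.hi
  omega

/-! ### The crude neighbour ratio -/

/-- The crude bound of the neighbour ratio. -/
def Xc (Γ : Cx) (P : ℝ) (η : Env) : ℝ := Γ.N * (2 * Mb 0 Γ.hi Γ.N η + Real.log (1 + P))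

theorem Mb_nonneg (lo hi : ℤ) (N : ℕ) (η : Env) : 0 ≤ Mb lo hi N η := sum_nonneg fun _ _ => abs_nonneg _

theorem Xc_nonneg {P : ℝ} (hP : 0 ≤ P) (η : Env) : 0 ≤ Xc Γ P η := by
  have h1 := Mb_nonneg 0 Γ.hi Γ.N η
  have h2 : 0 ≤ Real.log (1 + P) := Real.log_nonneg (by linarith)
  unfold Xc
  positivity

theorem crude_le (η : Env) {P : ℝ} (hP0 : 0 ≤ P) (hP : ∀ i, i < Γ.N → Γ.p i ≤ P) {i j : ℕ} (hij : i + j ≤ Γ.N) {y z : ℤ}
    (hy : -1 ≤ y) (hy2 : y + j ≤ Γ.hi + Γ.N) (hz : -1 ≤ z) (hz2 : z ≤ Γ.hi + Γ.N) :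
    bw (wt η) Γ.p i j y ≤ Real.exp (Xc Γ P η) * bw (wt η) Γ.p i j z := by
  obtain ⟨M, hM⟩ : ∃ M : ℝ, M = Mb 0 Γ.hi Γ.N η := ⟨_, rfl⟩
  have hM0 : 0 ≤ M := by
    rw [hM]
    exact Mb_nonneg _ _ _ _
  have w := fun (i : ℕ) (y : ℤ) (h1 : i < Γ.N) (h2 : -1 ≤ y) (h3 : y ≤ Γ.hi + Γ.N) => wt_Mb 0 Γ.hi Γ.N η i y h1 (by omega) h3
  unfold Xc
  rw [← hM] at w ⊢
  have u1 : bw (wt η) Γ.p i j y ≤ ((1 + P) * Real.exp M) ^ j :=
    bw_le (a := -1) (b := Γ.hi + Γ.N) (n := Γ.N) (wt_pos η) L91.p_pos (Real.exp_pos M).le hP (fun i z h1 h2 h3 => (w i z h1 h2 h3).2)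
      j i y hij hy hy2
  have u2 : Real.exp (-M) ^ j ≤ bw (wt η) Γ.p i j z :=
    le_bw (a := -1) (b := Γ.hi + Γ.N) (n := Γ.N) (wt_pos η) L91.p_pos (Real.exp_pos (-M)).le (fun i z h1 h2 h3 => (w i z h1 h2 h3).1)
      j i z hij hz hz2
  refine u1.trans ?_
  have hj : (j : ℝ) ≤ Γ.N := by
    have : j ≤ Γ.N := by omega
    exact_mod_cast this
  have hl : 0 ≤ Real.log (1 + P) := Real.log_nonneg (by linarith)
  have e1 : ((1 + P) * Real.exp M) ^ j = Real.exp (j * (2 * M + Real.log (1 + P))) * Real.exp (-M) ^ j := by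
    rw [← Real.exp_nat_mul, ← Real.exp_add, mul_pow, ← Real.exp_nat_mul]
    have e2 : (1 + P) ^ j = Real.exp (j * Real.log (1 + P)) := by
      rw [Real.exp_nat_mul, Real.exp_log (by linarith)]
    rw [e2, ← Real.exp_add]
    congr 1
    ring
  rw [e1]
  refine mul_le_mul ?_ u2 (pow_nonneg (Real.exp_pos _).le _) (Real.exp_pos _).le
  exact Real.exp_le_exp.2 (mul_le_mul_of_nonneg_right hj (by linarith))

theorem crude_log (η : Env) {P : ℝ} (hP0 : 0 ≤ P) (hP : ∀ i, i < Γ.N → Γ.p i ≤ P) {i j : ℕ} (hij : i + j ≤ Γ.N) {y z : ℤ}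
    (hy : -1 ≤ y) (hy2 : y + j ≤ Γ.hi + Γ.N) (hz : -1 ≤ z) (hz2 : z + j ≤ Γ.hi + Γ.N) :
    |Real.log (bw (wt η) Γ.p i j y) - Real.log (bw (wt η) Γ.p i j z)| ≤ Xc Γ P η :=
  log_of_le (bw_pos (wt_pos η) L91.p_pos _ _ _) (bw_pos (wt_pos η) L91.p_pos _ _ _)
    (crude_le η hP0 hP hij hy hy2 hz (by omega)) (crude_le η hP0 hP hij hz hz2 hy (by omega))

/-- The crude neighbour data, valid for every environment. -/
theorem nb_crude (h : Γ.Ok) (η : Env) {P : ℝ} (hP0 : 0 ≤ P) (hP : ∀ i, i < Γ.N → Γ.p i ≤ P) {i : ℕ} (hi : i < Γ.N) :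
    Nb Γ η i (Xc Γ P η) := by
  have hk := h.k1
  have e : Γ.hi = Γ.k + Γ.N := rfl
  refine nb_of (Xc_nonneg hP0 η) (fun y h1 h2 => ?_) fun y hy => ?_
  · exact crude_log η hP0 hP (by omega) (by omega) (by omega) (by omega) (by omega)
  · rw [mem_Icc] at hy
    exact crude_log η hP0 hP (by omega) (by omega) (by omega) (by omega) (by omega)

/-! ### The wild part -/

/-- **The wild part of a contact.** -/
def Rw (Γ : Cx) (P u b : ℝ) (c : ℕ × ℤ) (η : Env) : ℝ :=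
  (bad Γ u b c).indicator (fun η => Γ.p c.1 * ((2 + 3 * Xc Γ P η) * KC Γ c.1 (uc c η) (Xc Γ P η))) η

/-- The level integral of the absolute value of the contact functional. -/
def A56 (Γ : Cx) (c : ℕ × ℤ) (η : Env) : ℝ := ∫ a, |Γ.ct η c a|

theorem A56_nonneg (c : ℕ × ℤ) (η : Env) : 0 ≤ A56 Γ c η := integral_nonneg fun _ => abs_nonneg _

theorem abs_C_A56 (c : ℕ × ℤ) (η : Env) : |Γ.C c η| ≤ A56 Γ c η := abs_integral_le_integral_abs

theorem KC_nonneg (i : ℕ) {u X : ℝ} (hu : 0 ≤ u) (hX : 0 ≤ X) : 0 ≤ KC Γ i u X :=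
  Kl_nonneg (L91.p_pos i) (Real.one_le_exp hu) (Real.one_le_exp hX)

theorem A56_le (h : Γ.Ok) (η : Env) {c : ℕ × ℤ} (hc : c ∈ Γ.rows 0 Γ.N) {u X : ℝ}
    (hu : |Real.log (wt η c.1 (c.2 - 1)) - Real.log (wt η c.1 c.2)| ≤ u) (hX : Nb Γ η c.1 X) :
    A56 Γ c η ≤ KC Γ c.1 u X * Γ.ws c η := by
  obtain ⟨i, x⟩ := c
  obtain ⟨⟨_, h1⟩, h2, h3⟩ := Cx.mem_rows.1 hc
  have hk := h.k1
  have hx : x ∈ Icc (1 : ℤ) (1 + Γ.N) := mem_Icc.2 ⟨h2, h3⟩
  have hf := hX.f x (mem_Icc.2 ⟨h2, by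
    show x ≤ Γ.k + Γ.N
    have : x ≤ 1 + Γ.N := h3
    omega⟩)
  have hd := cutdC (msk h) η h1 hx hu hf
  have e : A56 Γ (i, x) η = ∫ a, |cta 0 Γ.hi (Γ.p i) (wt η i) (fw (wt η) Γ.p l i) (fw (wt η) Γ.p Γ.r i) (fC Γ η i) x a| := by
    unfold A56
    exact integral_congr_ae (Filter.Eventually.of_forall fun a => by simp only [ct_cta (msk h) η h1 hx a])
  rw [e, L91.ws_eq]
  exact integral_abs_cta hd

theorem Rw_nonneg {P : ℝ} (hP0 : 0 ≤ P) (u b : ℝ) (c : ℕ × ℤ) (η : Env) : 0 ≤ Rw Γ P u b c η := by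
  unfold Rw
  refine Set.indicator_nonneg (fun η _ => ?_) η
  have h1 := L91.p_pos (Γ := Γ) c.1
  have h2 := Xc_nonneg (Γ := Γ) hP0 η
  have h3 := KC_nonneg (Γ := Γ) c.1 (uc_nonneg c η) h2
  positivity

/-- **The size of a contact.** -/
theorem A56_Rw (h : Γ.Ok) {P u b K : ℝ} (hP0 : 0 ≤ P) (hP : ∀ i, i < Γ.N → Γ.p i ≤ P) (hb : 0 ≤ b) {c : ℕ × ℤ}
    (hc : c ∈ Γ.rows 0 Γ.N) (hu : 0 ≤ u) (hK : (2 + 3 * b) * KC Γ c.1 u b ≤ K) (η : Env) :
    A56 Γ c η ≤ K * Γ.ws c η + Rw Γ P u b c η := by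
  obtain ⟨⟨_, h1⟩, h2, h3⟩ := Cx.mem_rows.1 hc
  have w0 := Cx.ws_nonneg h c η
  have k0 := KC_nonneg (Γ := Γ) c.1 hu hb
  have hK0 : 0 ≤ K := le_trans (by positivity) hK
  by_cases hη : η ∈ bad Γ u b c
  · have x0 := Xc_nonneg (Γ := Γ) hP0 η
    have a1 := A56_le h η hc (uc_log c η) (nb_crude h η hP0 hP h1)
    have a2 := Cx.ws_le h hc η
    have a3 := KC_nonneg (Γ := Γ) c.1 (uc_nonneg c η) x0
    have a4 := mul_le_mul_of_nonneg_left a2 a3
    have a5 : Rw Γ P u b c η = Γ.p c.1 * ((2 + 3 * Xc Γ P η) * KC Γ c.1 (uc c η) (Xc Γ P η)) := Set.indicator_of_mem hη _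
    have hp := L91.p_pos (Γ := Γ) c.1
    have a6 : 0 ≤ (1 + 3 * Xc Γ P η) * (KC Γ c.1 (uc c η) (Xc Γ P η) * Γ.p c.1) := by positivity
    have a7 : 0 ≤ K * Γ.ws c η := mul_nonneg hK0 w0
    rw [a5]
    nlinarith
  · have a5 : Rw Γ P u b c η = 0 := Set.indicator_of_notMem hη _
    unfold bad at hη
    rw [Set.mem_union, not_or] at hη
    have b1 : uc c η ≤ u := not_lt.1 hη.1
    have b2 : NB Γ b η := not_not.1 hη.2
    have a1 := A56_le h η hc ((uc_log c η).trans b1) (b2.nb h1)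
    have a2 : KC Γ c.1 u b ≤ K := by
      refine le_trans ?_ hK
      nlinarith [mul_nonneg hb k0]
    rw [a5, add_zero]
    exact a1.trans (mul_le_mul_of_nonneg_right a2 w0)

/-- **The contact sits at the balance point**, up to the wild part. -/
theorem loc_Rw (h : Γ.Ok) {P u b K : ℝ} (hP0 : 0 ≤ P) (hP : ∀ i, i < Γ.N → Γ.p i ≤ P) (hb : 0 ≤ b) {c : ℕ × ℤ}
    (hc : c ∈ Γ.rows 0 Γ.N) (hu : 0 ≤ u) (hK : (2 + 3 * b) * KC Γ c.1 u b ≤ K) (η : Env) {g : ℝ → ℝ} (hg : Measurable g) {L : ℝ}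
    (hL0 : 0 ≤ L) (hL : ∀ x y, |g x - g y| ≤ L * |x - y|) (a0 : ℝ) :
    Integrable (fun a => g (a - a0) * Γ.ct η c a) ∧
    |(∫ a, g (a - a0) * Γ.ct η c a) - g (Γ.B η - a0) * Γ.C c η| ≤ L * (K * Γ.ws c η + Rw Γ P u b c η) := by
  obtain ⟨i, x⟩ := c
  obtain ⟨⟨_, h1⟩, h2, h3⟩ := Cx.mem_rows.1 hc
  have hx : x ∈ Icc (1 : ℤ) (1 + Γ.N) := mem_Icc.2 ⟨h2, h3⟩
  have w0 := Cx.ws_nonneg h (i, x) η
  have k0 := KC_nonneg (Γ := Γ) i hu hb
  have hK0 : 0 ≤ K := le_trans (by positivity) hK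
  have hg' : Measurable fun a => g (a - a0) := hg.comp (measurable_id.sub_const a0)
  have hL' : ∀ a b : ℝ, |g (a - a0) - g (b - a0)| ≤ L * |a - b| := fun a b => by
    refine (hL _ _).trans (le_of_eq ?_)
    congr 2
    ring
  by_cases hη : η ∈ bad Γ u b (i, x)
  · have x0 := Xc_nonneg (Γ := Γ) hP0 η
    obtain ⟨a0', a1⟩ := loc_C (msk h) η h1 hx (uc_log (i, x) η) (nb_crude h η hP0 hP h1) hg' hL0 hL'
    refine ⟨a0', a1.trans (mul_le_mul_of_nonneg_left ?_ hL0)⟩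
    have a2 := Cx.ws_le h hc η
    have a3 := KC_nonneg (Γ := Γ) i (uc_nonneg (i, x) η) x0
    have a5 : Rw Γ P u b (i, x) η = Γ.p i * ((2 + 3 * Xc Γ P η) * KC Γ i (uc (i, x) η) (Xc Γ P η)) := Set.indicator_of_mem hη _
    have a4 := mul_le_mul_of_nonneg_left a2 (show 0 ≤ (2 + 3 * Xc Γ P η) * KC Γ i (uc (i, x) η) (Xc Γ P η) by positivity)
    have a7 : 0 ≤ K * Γ.ws (i, x) η := mul_nonneg hK0 w0
    rw [a5]
    refine a4.trans ?_
    show (2 + 3 * Xc Γ P η) * KC Γ i (uc (i, x) η) (Xc Γ P η) * Γ.p i ≤ _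
    linarith
  · have a5 : Rw Γ P u b (i, x) η = 0 := Set.indicator_of_notMem hη _
    unfold bad at hη
    rw [Set.mem_union, not_or] at hη
    have b1 : uc (i, x) η ≤ u := not_lt.1 hη.1
    have b2 : NB Γ b η := not_not.1 hη.2
    obtain ⟨a0', a1⟩ := loc_C (msk h) η h1 hx ((uc_log (i, x) η).trans b1) (b2.nb h1) hg' hL0 hL'
    refine ⟨a0', a1.trans (mul_le_mul_of_nonneg_left ?_ hL0)⟩
    rw [a5, add_zero]
    exact mul_le_mul_of_nonneg_right hK w0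

theorem measurable_Xc (Γ : Cx) (P : ℝ) : Measurable (Xc Γ P) := by
  unfold Xc Mb
  exact measurable_const.mul ((measurable_const.mul (Finset.measurable_sum _ fun a _ => measurable_ev a)).add measurable_const)

theorem measurable_Rw (Γ : Cx) (P u b : ℝ) (c : ℕ × ℤ) : Measurable (Rw Γ P u b c) := by
  unfold Rw
  refine Measurable.indicator ?_ (meas_bad Γ u b c)
  have h1 := measurable_Xc Γ P
  have h2 := measurable_uc c
  unfold KC Kl
  fun_prop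

/-! ### The mean of the wild part -/

/-- The crude size. -/
def Yc (Γ : Cx) (P : ℝ) (c : ℕ × ℤ) (η : Env) : ℝ := (1 + Xc Γ P η) ^ 4 + Real.exp (12 * uc c η)

theorem crude_sq {p u X K1 : ℝ} (hp : 0 < p) (hu : 0 ≤ u) (hX : 0 ≤ X) (hK1 : 1 ≤ K1) (hK : p * (max 1 (1 / p)) ^ 2 ≤ K1) :
    p * ((2 + 3 * X) * Kl p (Real.exp u) (Real.exp X)) ≤ 18 * K1 * ((1 + X) ^ 2 + Real.exp (6 * u)) := by
  unfold Kl
  rw [Real.log_exp, Real.log_exp]
  have e1 : 1 + 2 * u ≤ Real.exp (2 * u) := by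
    have := Real.add_one_le_exp (2 * u)
    linarith
  have e0 : 0 < Real.exp u := Real.exp_pos u
  have e2 : (1 + 2 * u) * Real.exp u ≤ Real.exp (3 * u) := by
    have h1 := mul_le_mul_of_nonneg_right e1 e0.le
    rw [← Real.exp_add] at h1
    refine h1.trans (le_of_eq ?_)
    ring_nf
  have e3 : Real.exp (3 * u) ^ 2 = Real.exp (6 * u) := by
    rw [← Real.exp_nat_mul]
    push_cast
    ring_nf
  have a1 : p * ((2 + 3 * X) * (4 * (1 + 2 * u) * (Real.exp u / p) + 4 * (1 + X) * (max 1 (1 / p)) ^ 2)) =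
      (2 + 3 * X) * (4 * ((1 + 2 * u) * Real.exp u) + 4 * (1 + X) * (p * (max 1 (1 / p)) ^ 2)) := by
    field_simp
  rw [a1]
  have a2 : 4 * ((1 + 2 * u) * Real.exp u) + 4 * (1 + X) * (p * (max 1 (1 / p)) ^ 2) ≤ 4 * Real.exp (3 * u) + 4 * (1 + X) * K1 := by
    have := mul_le_mul_of_nonneg_left hK (show 0 ≤ 4 * (1 + X) by positivity)
    linarith
  have a3 : (2 + 3 * X) * (4 * ((1 + 2 * u) * Real.exp u) + 4 * (1 + X) * (p * (max 1 (1 / p)) ^ 2)) ≤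
      (3 * (1 + X)) * (4 * Real.exp (3 * u) + 4 * (1 + X) * K1) := by
    refine mul_le_mul (by linarith) a2 ?_ (by positivity)
    positivity
  refine a3.trans ?_
  rw [← e3]
  have a4 : 2 * ((1 + X) * Real.exp (3 * u)) ≤ (1 + X) ^ 2 + Real.exp (3 * u) ^ 2 := by nlinarith [sq_nonneg ((1 + X) - Real.exp (3 * u))]
  have a5 : 0 ≤ (K1 - 1) * ((1 + X) ^ 2 + Real.exp (3 * u) ^ 2) := mul_nonneg (by linarith) (by positivity)
  have a6 : 0 ≤ K1 * Real.exp (3 * u) ^ 2 := by positivity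
  nlinarith

variable {μ : Measure ℝ} [IsProbabilityMeasure μ]

theorem crude_Rw {P K1 : ℝ} (hP0 : 0 ≤ P) {c : ℕ × ℤ} (hK1 : 1 ≤ K1) (hK : Γ.p c.1 * (max 1 (1 / Γ.p c.1)) ^ 2 ≤ K1) {T : ℝ} (hT : 0 < T)
    (u b : ℝ) (η : Env) :
    Rw Γ P u b c η ≤ T * (bad Γ u b c).indicator (fun _ => 1) η + 648 * K1 ^ 2 / T * Yc Γ P c η := by
  have x0 := Xc_nonneg (Γ := Γ) hP0 η
  have y0 : 0 ≤ Yc Γ P c η := by
    unfold Yc
    positivity
  by_cases hη : η ∈ bad Γ u b c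
  · unfold Rw
    rw [Set.indicator_of_mem hη, Set.indicator_of_mem hη, mul_one]
    have a1 := crude_sq (L91.p_pos (Γ := Γ) c.1) (uc_nonneg c η) x0 hK1 hK
    set X := Γ.p c.1 * ((2 + 3 * Xc Γ P η) * KC Γ c.1 (uc c η) (Xc Γ P η)) with hX
    have a1' : X ≤ 18 * K1 * ((1 + Xc Γ P η) ^ 2 + Real.exp (6 * uc c η)) := a1
    have X0 : 0 ≤ X := by
      have h1 := L91.p_pos (Γ := Γ) c.1
      have h3 := KC_nonneg (Γ := Γ) c.1 (uc_nonneg c η) x0
      rw [hX]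
      positivity
    have a2 : X ^ 2 ≤ 648 * K1 ^ 2 * Yc Γ P c η := by
      have e : Real.exp (6 * uc c η) ^ 2 = Real.exp (12 * uc c η) := by
        rw [← Real.exp_nat_mul]
        push_cast
        ring_nf
      unfold Yc
      rw [← e]
      refine (pow_le_pow_left₀ X0 a1' 2).trans ?_
      have k0 : 0 ≤ K1 ^ 2 := by positivity
      have h2 : ((1 + Xc Γ P η) ^ 2 + Real.exp (6 * uc c η)) ^ 2 ≤ 2 * ((1 + Xc Γ P η) ^ 4 + Real.exp (6 * uc c η) ^ 2) := by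
        nlinarith [sq_nonneg ((1 + Xc Γ P η) ^ 2 - Real.exp (6 * uc c η))]
      have h3 := mul_le_mul_of_nonneg_left h2 (show 0 ≤ 324 * K1 ^ 2 by positivity)
      calc (18 * K1 * ((1 + Xc Γ P η) ^ 2 + Real.exp (6 * uc c η))) ^ 2 =
            324 * K1 ^ 2 * ((1 + Xc Γ P η) ^ 2 + Real.exp (6 * uc c η)) ^ 2 := by ring
        _ ≤ _ := h3
        _ = _ := by ring
    have a3 : X ≤ T + X ^ 2 / T := by
      rcases le_total X T with h1 | h1
      · have : 0 ≤ X ^ 2 / T := by positivity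
        linarith
      · have h2 : X ≤ X ^ 2 / T := by
          rw [le_div_iff₀ hT]
          nlinarith
        linarith
    have a4 : X ^ 2 / T ≤ 648 * K1 ^ 2 * Yc Γ P c η / T := div_le_div_of_nonneg_right a2 hT.le
    have e5 : 648 * K1 ^ 2 / T * Yc Γ P c η = 648 * K1 ^ 2 * Yc Γ P c η / T := by ring
    rw [e5]
    linarith
  · unfold Rw
    rw [Set.indicator_of_notMem hη, Set.indicator_of_notMem hη, mul_zero, zero_add]
    positivity

/-- Moments of the field. -/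
theorem int_ev (hμ : EM μ) (b : ℝ) (a : Pt) : Integrable (fun η : Env => Real.exp (b * |η a|)) (law μ) ∧
    ∫ η : Env, Real.exp (b * |η a|) ∂(law μ) = Mom μ b := by
  have h : MeasurePreserving (Function.eval a) (law μ) μ := measurePreserving_eval_infinitePi (fun _ : Pt => μ) a
  refine ⟨h.integrable_comp_of_integrable (hμ b), ?_⟩
  have h1 : Mom μ b = ∫ u, Real.exp (b * |u|) ∂(Measure.map (Function.eval a) (law μ)) := by
    rw [h.map_eq]
    rfl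
  rw [h1, integral_map h.measurable.aemeasurable (by fun_prop)]

omit [IsProbabilityMeasure μ] in
theorem Mb_pow (lo hi : ℤ) (N : ℕ) (η : Env) : Mb lo hi N η ^ 4 ≤
    (((Icc (0 : ℤ) N) ×ˢ (Icc (lo - 1) (hi + N))).card : ℝ) ^ 3 * ∑ a ∈ (Icc (0 : ℤ) N) ×ˢ (Icc (lo - 1) (hi + N)), Real.exp (4 * |η a|) := by
  set S := (Icc (0 : ℤ) N) ×ˢ (Icc (lo - 1) (hi + N)) with hS
  have h1 := pow_sum_div_card_le_sum_pow (s := S) (f := fun a => |η a|) (fun a _ => abs_nonneg _) 3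
  have h2 : ∑ a ∈ S, |η a| ^ 4 ≤ ∑ a ∈ S, Real.exp (4 * |η a|) := sum_le_sum fun a _ => by
    have k1 : |η a| ≤ Real.exp |η a| := by
      have := Real.add_one_le_exp |η a|
      linarith
    calc |η a| ^ 4 ≤ Real.exp |η a| ^ 4 := pow_le_pow_left₀ (abs_nonneg _) k1 4
      _ = Real.exp (4 * |η a|) := by
        rw [← Real.exp_nat_mul]
        push_cast
        ring_nf
  have h3 : (0 : ℝ) ≤ (S.card : ℝ) ^ 3 := by positivity
  have e : Mb lo hi N η = ∑ a ∈ S, |η a| := rfl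
  rw [e]
  rcases eq_or_lt_of_le h3 with h0 | h0
  · have hc : S.card = 0 := by
      have : (S.card : ℝ) = 0 := by
        by_contra hne
        exact absurd h0.symm (pow_ne_zero 3 hne)
      exact_mod_cast this
    have hS0 : S = ∅ := card_eq_zero.1 hc
    rw [hS0]
    simp
  · rw [div_le_iff₀ h0] at h1
    refine h1.trans ?_
    rw [mul_comm]
    exact mul_le_mul_of_nonneg_left h2 h3

/-- The number of sites of the box. -/
def cd (Γ : Cx) : ℝ := (((Icc (0 : ℤ) Γ.N) ×ˢ (Icc ((0 : ℤ) - 1) (Γ.hi + Γ.N))).card : ℝ)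

theorem cd_eq (Γ : Cx) : cd Γ = (Γ.N + 1) * (Γ.k + 2 * Γ.N + 2) := by
  unfold cd
  rw [card_product, Int.card_Icc, Int.card_Icc]
  have e1 : ((Γ.N : ℤ) + 1 - 0).toNat = Γ.N + 1 := by omega
  have e2 : (Γ.hi + Γ.N + 1 - (0 - 1)).toNat = Γ.k + 2 * Γ.N + 2 := by
    unfold Cx.hi
    omega
  rw [e1, e2]
  push_cast
  ring

/-- The mean of the crude size. -/
theorem int_Yc (hμ : EM μ) {P : ℝ} (hP0 : 0 ≤ P) (c : ℕ × ℤ) : Integrable (Yc Γ P c) (law μ) ∧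
    ∫ η, Yc Γ P c η ∂(law μ) ≤ 8 * ((1 + Γ.N * Real.log (1 + P)) ^ 4 + 16 * Γ.N ^ 4 * (cd Γ ^ 4 * Mom μ 4)) + 2 * Mom μ 24 := by
  obtain ⟨S, hS⟩ : ∃ S : Finset Pt, S = (Icc (0 : ℤ) Γ.N) ×ˢ (Icc ((0 : ℤ) - 1) (Γ.hi + Γ.N)) := ⟨_, rfl⟩
  have hcd : cd Γ = S.card := by
    rw [hS]
    rfl
  set D : Env → ℝ := fun η => 8 * ((1 + Γ.N * Real.log (1 + P)) ^ 4 + 16 * Γ.N ^ 4 * ((cd Γ) ^ 3 * ∑ a ∈ S, Real.exp (4 * |η a|))) +
    (Real.exp (24 * |η ((c.1 : ℤ), c.2 - 1)|) + Real.exp (24 * |η ((c.1 : ℤ), c.2)|)) with hD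
  have iS : Integrable (fun η : Env => ∑ a ∈ S, Real.exp (4 * |η a|)) (law μ) :=
    integrable_finsetSum _ fun a _ => (int_ev hμ 4 a).1
  have iD1 : Integrable (fun η : Env => 8 * ((1 + Γ.N * Real.log (1 + P)) ^ 4 + 16 * Γ.N ^ 4 * ((cd Γ) ^ 3 *
      ∑ a ∈ S, Real.exp (4 * |η a|)))) (law μ) :=
    ((integrable_const _).add ((iS.const_mul _).const_mul _)).const_mul _
  have iD2 : Integrable (fun η : Env => Real.exp (24 * |η ((c.1 : ℤ), c.2 - 1)|) + Real.exp (24 * |η ((c.1 : ℤ), c.2)|)) (law μ) :=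
    (int_ev hμ 24 _).1.add (int_ev hμ 24 _).1
  have iD : Integrable D (law μ) := iD1.add iD2
  have pw : ∀ η, 0 ≤ Yc Γ P c η ∧ Yc Γ P c η ≤ D η := by
    intro η
    have x0 := Xc_nonneg (Γ := Γ) hP0 η
    have l0 : 0 ≤ Real.log (1 + P) := Real.log_nonneg (by linarith)
    have m0 := Mb_nonneg 0 Γ.hi Γ.N η
    refine ⟨by unfold Yc; positivity, ?_⟩
    have k1 := Mb_pow 0 Γ.hi Γ.N η
    rw [← hS, ← hcd] at k1
    have k2 : (1 + Xc Γ P η) ^ 4 ≤ 8 * ((1 + Γ.N * Real.log (1 + P)) ^ 4 + 16 * Γ.N ^ 4 * (Mb 0 Γ.hi Γ.N η) ^ 4) := by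
      have e : 1 + Xc Γ P η = (1 + Γ.N * Real.log (1 + P)) + 2 * Γ.N * Mb 0 Γ.hi Γ.N η := by
        unfold Xc
        ring
      rw [e]
      set x := 1 + Γ.N * Real.log (1 + P) with hx
      set y := 2 * Γ.N * Mb 0 Γ.hi Γ.N η with hy
      have e2 : 16 * Γ.N ^ 4 * (Mb 0 Γ.hi Γ.N η) ^ 4 = y ^ 4 := by
        rw [hy]
        ring
      rw [e2]
      have h1 : (x + y) ^ 2 ≤ 2 * (x ^ 2 + y ^ 2) := by nlinarith [sq_nonneg (x - y)]
      have h2 : ((x + y) ^ 2) ^ 2 ≤ (2 * (x ^ 2 + y ^ 2)) ^ 2 := pow_le_pow_left₀ (sq_nonneg _) h1 2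
      nlinarith [sq_nonneg (x ^ 2 - y ^ 2)]
    have k3 : Real.exp (12 * uc c η) ≤ Real.exp (24 * |η ((c.1 : ℤ), c.2 - 1)|) + Real.exp (24 * |η ((c.1 : ℤ), c.2)|) := by
      unfold uc
      rcases le_total |η ((c.1 : ℤ), c.2 - 1)| |η ((c.1 : ℤ), c.2)| with h1 | h1
      · have h2 : Real.exp (12 * (|η ((c.1 : ℤ), c.2 - 1)| + |η ((c.1 : ℤ), c.2)|)) ≤ Real.exp (24 * |η ((c.1 : ℤ), c.2)|) :=
          Real.exp_le_exp.2 (by linarith)
        have h3 := Real.exp_pos (24 * |η ((c.1 : ℤ), c.2 - 1)|)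
        linarith
      · have h2 : Real.exp (12 * (|η ((c.1 : ℤ), c.2 - 1)| + |η ((c.1 : ℤ), c.2)|)) ≤ Real.exp (24 * |η ((c.1 : ℤ), c.2 - 1)|) :=
          Real.exp_le_exp.2 (by linarith)
        have h3 := Real.exp_pos (24 * |η ((c.1 : ℤ), c.2)|)
        linarith
    have k4 := mul_le_mul_of_nonneg_left k1 (show (0 : ℝ) ≤ 16 * Γ.N ^ 4 by positivity)
    rw [hD]
    unfold Yc
    show _ ≤ 8 * ((1 + Γ.N * Real.log (1 + P)) ^ 4 + 16 * Γ.N ^ 4 * ((cd Γ) ^ 3 * ∑ a ∈ S, Real.exp (4 * |η a|))) +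
      (Real.exp (24 * |η ((c.1 : ℤ), c.2 - 1)|) + Real.exp (24 * |η ((c.1 : ℤ), c.2)|))
    linarith
  have mY : Measurable (Yc Γ P c) := by
    have h1 := measurable_Xc Γ P
    have h2 := measurable_uc c
    unfold Yc
    fun_prop
  have iY : Integrable (Yc Γ P c) (law μ) := iD.mono' mY.aestronglyMeasurable (Filter.Eventually.of_forall fun η => by
    rw [Real.norm_eq_abs, abs_of_nonneg (pw η).1]
    exact (pw η).2)
  refine ⟨iY, (integral_mono iY iD fun η => (pw η).2).trans (le_of_eq ?_)⟩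
  rw [hD]
  show ∫ η : Env, (8 * ((1 + Γ.N * Real.log (1 + P)) ^ 4 + 16 * Γ.N ^ 4 * ((cd Γ) ^ 3 * ∑ a ∈ S, Real.exp (4 * |η a|))) +
    (Real.exp (24 * |η ((c.1 : ℤ), c.2 - 1)|) + Real.exp (24 * |η ((c.1 : ℤ), c.2)|))) ∂(law μ) = _
  rw [integral_add iD1 iD2, integral_add (int_ev hμ 24 _).1 (int_ev hμ 24 _).1, (int_ev hμ 24 _).2, (int_ev hμ 24 _).2, integral_const_mul,
    integral_add (integrable_const _) ((iS.const_mul _).const_mul _), integral_const_mul, integral_const_mul,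
    integral_finsetSum _ fun a _ => (int_ev hμ 4 a).1]
  rw [sum_congr rfl fun a _ => (int_ev hμ 4 a).2, sum_const, nsmul_eq_mul, integral_const, ← hcd]
  simp
  ring

omit [IsProbabilityMeasure μ] in
theorem Mom_nonneg (b : ℝ) : 0 ≤ Mom μ b := integral_nonneg fun _ => (Real.exp_pos _).le

/-- The field at one site is not large. -/
theorem prob_ev (hμ : EM μ) {t v : ℝ} (ht : 0 < t) (a : Pt) : (law μ).real {η : Env | v < |η a|} ≤ Real.exp (-(t * v)) * Mom μ t := by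
  have h := int_ev hμ t a
  have h1 := mul_meas_ge_le_integral_of_nonneg (μ := law μ) (f := fun η : Env => Real.exp (t * |η a|))
    (Filter.Eventually.of_forall fun η => (Real.exp_pos _).le) h.1 (Real.exp (t * v))
  rw [h.2] at h1
  have h2 : (law μ).real {η : Env | v < |η a|} ≤ (law μ).real {η : Env | Real.exp (t * v) ≤ Real.exp (t * |η a|)} := by
    refine measureReal_mono (fun η hη => ?_) (measure_ne_top _ _)
    have h3 : v < |η a| := hη
    exact Real.exp_le_exp.2 (mul_le_mul_of_nonneg_left h3.le ht.le)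
  have h4 : (law μ).real {η : Env | Real.exp (t * v) ≤ Real.exp (t * |η a|)} ≤ Real.exp (-(t * v)) * Mom μ t := by
    rw [Real.exp_neg, ← div_eq_inv_mul, le_div_iff₀ (Real.exp_pos _), mul_comm]
    exact h1
  exact h2.trans h4

/-- The probability of the bad event. -/
theorem prob_bad (hμ : EM μ) {t : ℝ} (ht : 0 < t) (u b : ℝ) (c : ℕ × ℤ) : (law μ).real (bad Γ u b c) ≤
    2 * (Real.exp (-(t * (u / 2))) * Mom μ t) + (law μ).real {η | ¬ NB Γ b η} := by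
  unfold bad
  refine (measureReal_union_le _ _).trans (add_le_add_left ?_ _)
  have h1 : {η : Env | u < uc c η} ⊆ {η : Env | u / 2 < |η ((c.1 : ℤ), c.2 - 1)|} ∪ {η : Env | u / 2 < |η ((c.1 : ℤ), c.2)|} := by
    intro η hη
    have h2 : u < |η ((c.1 : ℤ), c.2 - 1)| + |η ((c.1 : ℤ), c.2)| := hη
    by_cases h3 : u / 2 < |η ((c.1 : ℤ), c.2 - 1)|
    · exact Or.inl h3
    · right
      show u / 2 < |η ((c.1 : ℤ), c.2)|
      linarith [not_lt.1 h3]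
  refine (measureReal_mono h1 (measure_ne_top _ _)).trans ((measureReal_union_le _ _).trans ?_)
  have k1 := prob_ev hμ (v := u / 2) ht ((c.1 : ℤ), c.2 - 1)
  have k2 := prob_ev hμ (v := u / 2) ht ((c.1 : ℤ), c.2)
  linarith

/-- **The mean of the wild part.** -/
theorem int_Rw (hμ : EM μ) {P K1 : ℝ} (hP0 : 0 ≤ P) {c : ℕ × ℤ} (hK1 : 1 ≤ K1) (hK : Γ.p c.1 * (max 1 (1 / Γ.p c.1)) ^ 2 ≤ K1)
    {T t : ℝ} (hT : 0 < T) (ht : 0 < t) (u b : ℝ) : Integrable (Rw Γ P u b c) (law μ) ∧ ∫ η, Rw Γ P u b c η ∂(law μ) ≤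
      T * (2 * (Real.exp (-(t * (u / 2))) * Mom μ t) + (law μ).real {η | ¬ NB Γ b η}) + 648 * K1 ^ 2 / T *
        (8 * ((1 + Γ.N * Real.log (1 + P)) ^ 4 + 16 * Γ.N ^ 4 * (cd Γ ^ 4 * Mom μ 4)) + 2 * Mom μ 24) := by
  obtain ⟨iY, hY⟩ := int_Yc (Γ := Γ) hμ hP0 c
  have iB : Integrable (fun η => T * (bad Γ u b c).indicator (fun _ => (1 : ℝ)) η) (law μ) :=
    ((integrable_const (1 : ℝ)).indicator (meas_bad Γ u b c)).const_mul T
  have iD := iB.add (iY.const_mul (648 * K1 ^ 2 / T))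
  have pw := fun η => crude_Rw (Γ := Γ) hP0 (c := c) hK1 hK hT u b η
  have iR : Integrable (Rw Γ P u b c) (law μ) := iD.mono' (measurable_Rw Γ P u b c).aestronglyMeasurable
    (Filter.Eventually.of_forall fun η => by
      rw [Real.norm_eq_abs, abs_of_nonneg (Rw_nonneg hP0 u b c η)]
      exact pw η)
  refine ⟨iR, (integral_mono iR iD fun η => pw η).trans ?_⟩
  show ∫ η, (T * (bad Γ u b c).indicator (fun _ => (1 : ℝ)) η + 648 * K1 ^ 2 / T * Yc Γ P c η) ∂(law μ) ≤ _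
  have eI : ∫ η, (bad Γ u b c).indicator (fun _ => (1 : ℝ)) η ∂(law μ) = (law μ).real (bad Γ u b c) := by
    rw [integral_indicator_const (1 : ℝ) (meas_bad Γ u b c)]
    simp
  rw [integral_add iB (iY.const_mul _), integral_const_mul, integral_const_mul, eI]
  have hK0 : 0 ≤ 648 * K1 ^ 2 / T := by positivity
  exact add_le_add (mul_le_mul_of_nonneg_left (prob_bad hμ ht u b c) hT.le) (mul_le_mul_of_nonneg_left hY hK0)

end

end Pool.Agent.W_7d29a1_C1.H56
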