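import Pool.Agent.W_7d29a1_C1.YSeam54
import Pool.Agent.W_7d29a1_HS.Scale

/-!
MP_7d29a1_pr, the attractor route: THE SECOND MOMENT OF THE SUM OF THE WEIGHTS IN THE FRAMES BY COUNTING (helper54).
`Nbr56` (neighbouring sites) => off a tiny event the sum of the weights in the frames is at most a constant times the number of the
contacts of the natural weight at least `exp (-n ^ dl)`, plus a tiny term.
-/

set_option autoImplicit false

namespace Pool.Agent.W_7d29a1_C1.H54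

open MeasureTheory Filter Topology Finset
open Pool.Agent.W_7d29a1_F Pool.Agent.W_7d29a1_h4g Pool.Agent.W_7d29a1_H Pool.Agent.W_7d29a1_HS
open Pool.Agent.W_7d29a1_C1.K91 (Box Grp cut zs jn wt wt_pos measurable_wt)
open Pool.Agent.W_7d29a1_C1.K91P
open Pool.Agent.W_7d29a1_C1.H60
open Pool.Agent.W_7d29a1_C1.H60.Cx (l)
open Pool.Agent.W_7d29a1_C1.L91 (Msk Nb fC)

noncomputable section

variable {μ : Measure ℝ} {s : ℝ} {Γ : Cx}

/-- The logarithms of the masses of neighbouring sites differ by at most `b`, in all rows, with all ends. -/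
def NB54 (Γ : Cx) (b : ℝ) (η : Env) : Prop := ∀ i j : ℕ, i + j ≤ Γ.N → ∀ y ∈ Icc (0 : ℤ) (Γ.hi + 1),
  |Real.log (bw (wt η) Γ.p i j y) - Real.log (bw (wt η) Γ.p i j (y - 1))| ≤ b

theorem NB54.nb {b : ℝ} {η : Env} (h : NB54 Γ b η) {i : ℕ} (hi : i < Γ.N) : Nb Γ η i b := by
  have hhi : (0 : ℤ) ≤ Γ.hi := by unfold Cx.hi; positivity
  have hb : 0 ≤ b := (abs_nonneg _).trans (h 0 0 (by omega) 0 (mem_Icc.2 ⟨le_rfl, by omega⟩))
  have hf : ∀ y ∈ Icc (0 : ℤ) (Γ.hi + 1), |Real.log (fC Γ η i (y - 1)) - Real.log (fC Γ η i y)| ≤ b := by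
    intro y hy
    rw [abs_sub_comm]
    exact h (i + 1) (Γ.N - (i + 1)) (by omega) y hy
  refine ⟨hb, fun y hy => ?_, fun y hy => ?_, fun y hy => ?_⟩
  · have hy' := mem_Icc.1 hy
    have f0 : ∀ z, 0 < fC Γ η i z := fun z => bw_pos (wt_pos η) Γ.p_pos _ _ _
    have a1 := L91.le_of_log (f0 (y - 1)) (f0 y) (hf y (mem_Icc.2 ⟨hy'.1, by omega⟩))
    have h2 := hf (y + 1) (mem_Icc.2 ⟨by omega, by omega⟩)
    rw [add_sub_cancel_right] at h2
    have a2 := L91.le_of_log (f0 y) (f0 (y + 1)) h2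
    have hp := Γ.p_pos i
    rw [L91.GG_fC, L91.GG_fC, sub_add_cancel]
    have g1 := f0 (y - 1)
    have g2 := f0 y
    have g3 := f0 (y + 1)
    refine L91.log_of_le (by positivity) (by positivity) ?_ ?_
    · have := mul_le_mul_of_nonneg_left a2.1 hp.le
      linarith [a1.1]
    · have := mul_le_mul_of_nonneg_left a2.2 hp.le
      linarith [a1.2]
  · have hy' := mem_Icc.1 hy
    exact hf y (mem_Icc.2 ⟨by omega, by omega⟩)
  · have hy' := mem_Icc.1 hy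
    rw [abs_sub_comm]
    refine h 0 Γ.N (by omega) y (mem_Icc.2 ⟨by omega, ?_⟩)
    unfold Cx.hi
    omega

/-- The step weights of an admissible context. -/
theorem adm_p54 {c δ κ : ℝ} {n : ℕ} (h : Adm μ s c δ κ n Γ) : Γ.p = H56.pN s Γ.h Γ.M := by
  funext i
  unfold Cx.p H56.pN
  rw [h.hs]

/-- The tilt of an admissible context is at most `1`. -/
theorem adm_h54 [IsProbabilityMeasure μ] {c δ κ : ℝ} (hδ : 0 ≤ δ) {n : ℕ} (hn : 1 ≤ n) (h : Adm μ s c δ κ n Γ) : |Γ.h| ≤ 1 := by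
  obtain ⟨N, L, _, _, _, _, _, _, h1, _⟩ := h.hor
  have h2 := one_le_EE (μ := μ) (s := s) n
  have hn' : (1 : ℝ) ≤ n := by exact_mod_cast hn
  have h3 : (n : ℝ) ^ (-(2 * δ)) ≤ 1 := Real.rpow_le_one_of_one_le_of_nonpos hn' (by linarith)
  nlinarith [abs_nonneg Γ.h]

theorem adm_P54 [IsProbabilityMeasure μ] {c δ κ : ℝ} (hδ : 0 ≤ δ) {n : ℕ} (hn : 1 ≤ n) (h : Adm μ s c δ κ n Γ) (i : ℕ) :
    Γ.p i ≤ Real.exp (|s| + 1) := by
  refine (Γ.p_le i).trans (Real.exp_le_exp.2 ?_)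
  rw [h.hs]
  linarith [adm_h54 hδ hn h]

/-- The size of an admissible context. -/
theorem adm_N54 {c δ κ : ℝ} (hc : c ≤ 1) {n : ℕ} (hn : 1 ≤ n) (h : Adm μ s c δ κ n Γ) :
    ∃ N : ℕ, n ≤ N ∧ (N : ℝ) ≤ (n : ℝ) ^ (2 : ℝ) ∧ Γ.M ≤ N ∧ Γ.N ≤ 4 * N ^ 3 ∧ |Γ.h| * EE μ s N ≤ (N : ℝ) ^ κ := by
  obtain ⟨N, L, h1, h2, h3, h4, h5, h6, h7, h8⟩ := h.hor
  have hn' : (1 : ℝ) ≤ n := by exact_mod_cast hn
  refine ⟨N, h1, h2.trans (Real.rpow_le_rpow_of_exponent_le hn' (by linarith)), h5, ?_, h8⟩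
  have hN : 1 ≤ N := hn.trans h1
  have e1 : N ≤ N ^ 3 := Nat.le_self_pow (by norm_num) N
  omega

/-- **Neighbouring sites of a context.** -/
theorem nb_prob54 [IsProbabilityMeasure μ] {c₀ C₀ : ℝ} {n₀ : ℕ} (hI : In μ s c₀ C₀ n₀) (hN : H56.Nbr56 μ s) {dl : ℝ} (hdl : 0 < dl) :
    ∃ κ₀ > (0 : ℝ), ∃ c' > (0 : ℝ), ∀ c ≤ (1 : ℝ), ∀ δ ≤ (1 : ℝ), ∀ κ ≤ κ₀, ∀ᶠ n : ℕ in atTop, ∀ Γ : Cx, Adm μ s c δ κ n Γ →
      (law μ).real {η | ¬ NB54 Γ ((n : ℝ) ^ dl) η} ≤ Real.exp (-(n : ℝ) ^ c') := by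
  obtain ⟨κ₀, hκ₀, c', hc', hev⟩ := hN (dl / 2) (by positivity)
  refine ⟨κ₀, hκ₀, c', hc', fun c hc δ hδ κ hκ => ?_⟩
  obtain ⟨n₂, hn₂⟩ := eventually_atTop.1 hev
  set W := wd μ s 1 with hW
  filter_upwards [eventually_ge_atTop n₂, eventually_ge_atTop 1, eventually_ge_atTop ⌈2 * W + 6⌉₊] with n h1 h2 h3 Γ hA
  obtain ⟨N, hN1, hN2, hN3, hN4, hN5⟩ := adm_N54 hc h2 hA
  have hn' : (1 : ℝ) ≤ n := by exact_mod_cast h2
  have hN' : (1 : ℝ) ≤ N := by exact_mod_cast (h2.trans hN1)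
  have k1 := hn₂ N (h1.trans hN1) Γ.M hN3 Γ.h (hN5.trans (Real.rpow_le_rpow_of_exponent_le hN' hκ))
  have k2 : Real.exp (-(N : ℝ) ^ c') ≤ Real.exp (-(n : ℝ) ^ c') := by
    refine Real.exp_le_exp.2 (neg_le_neg ?_)
    exact Real.rpow_le_rpow (by positivity) (by exact_mod_cast hN1) hc'.le
  refine le_trans (measureReal_mono ?_ (measure_ne_top _ _)) (k1.trans k2)
  intro η hη
  by_contra hc1
  refine hη ?_
  intro i j hij y hy
  by_contra hc2
  refine hc1 ⟨i, j, hij.trans hN4, y, ?_, ?_⟩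
  · -- the box
    have hy' := mem_Icc.1 hy
    have a1 : (Γ.k : ℝ) ≤ (2 * W) * (n : ℝ) ^ 2 := by
      refine hA.k2.trans ?_
      have b1 := wd_lower_one hI (m := 1) (n := n) le_rfl h2
      have b2 : (n : ℝ) ^ δ ≤ n := by
        calc (n : ℝ) ^ δ ≤ (n : ℝ) ^ (1 : ℝ) := Real.rpow_le_rpow_of_exponent_le hn' hδ
          _ = n := Real.rpow_one _
      have b3 : 0 < wd μ s n := by
        have e1 := wd_ge_one hI h2
        have e2 := one_le_EE (μ := μ) (s := s) n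
        linarith
      calc (n : ℝ) ^ δ * wd μ s n ≤ n * wd μ s n := mul_le_mul_of_nonneg_right b2 b3.le
        _ ≤ n * (2 * (n * wd μ s 1)) := by
          refine mul_le_mul_of_nonneg_left ?_ (by positivity)
          have : ((1 : ℕ) : ℝ) = 1 := Nat.cast_one
          rw [this, one_mul] at b1
          exact b1
        _ = _ := by rw [hW]; ring
    have a2 : (2 * W + 6 : ℝ) ≤ n := (Nat.le_ceil _).trans (by exact_mod_cast h3)
    have a3 : (Γ.hi : ℝ) + 1 ≤ (N : ℝ) ^ 4 := by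
      have c1 : ((Γ.hi : ℤ) : ℝ) = (Γ.k : ℝ) + Γ.N := by
        unfold Cx.hi
        push_cast
        ring
      have c2 : (Γ.N : ℝ) ≤ 4 * (N : ℝ) ^ 3 := by exact_mod_cast hN4
      have c3 : (n : ℝ) ≤ N := by exact_mod_cast hN1
      have c4 : (n : ℝ) ^ 2 ≤ (N : ℝ) ^ 2 := pow_le_pow_left₀ (by positivity) c3 2
      have c5 : (N : ℝ) ^ 2 ≤ (N : ℝ) ^ 3 := pow_le_pow_right₀ hN' (by norm_num)
      have c6 : (1 : ℝ) ≤ (N : ℝ) ^ 3 := one_le_pow₀ hN'
      have c7 : 0 ≤ 2 * W := by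
        have e1 := wd_ge_one hI (n := 1) le_rfl
        have e2 := one_le_EE (μ := μ) (s := s) 1
        rw [hW]
        linarith
      rw [c1]
      have c8 : (Γ.k : ℝ) ≤ 2 * W * (N : ℝ) ^ 3 :=
        a1.trans (mul_le_mul_of_nonneg_left (c4.trans c5) c7)
      have c9 : (2 * W + 6) * (N : ℝ) ^ 3 ≤ N * (N : ℝ) ^ 3 := mul_le_mul_of_nonneg_right (a2.trans c3) (by positivity)
      calc (Γ.k : ℝ) + Γ.N + 1 ≤ (2 * W + 6) * (N : ℝ) ^ 3 := by
            have d1 : (2 * W + 6) * (N : ℝ) ^ 3 = 2 * W * (N : ℝ) ^ 3 + 4 * (N : ℝ) ^ 3 + 2 * (N : ℝ) ^ 3 := by ring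
            rw [d1]
            generalize (N : ℝ) ^ 3 = T at c8 c2 c6 ⊢
            generalize 2 * W * T = V at c8 ⊢
            linarith
        _ ≤ N * (N : ℝ) ^ 3 := c9
        _ = (N : ℝ) ^ 4 := by ring
    have a4 : (Γ.hi : ℤ) + 1 ≤ (N : ℤ) ^ 4 := by exact_mod_cast a3
    rw [abs_of_nonneg hy'.1]
    exact hy'.2.trans a4
  · rw [← adm_p54 hA]
    refine lt_of_le_of_lt ?_ (not_le.1 hc2)
    calc (N : ℝ) ^ (dl / 2) ≤ ((n : ℝ) ^ (2 : ℝ)) ^ (dl / 2) := Real.rpow_le_rpow (by positivity) hN2 (by positivity)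
      _ = (n : ℝ) ^ dl := by
        rw [← Real.rpow_mul (by positivity)]
        congr 1
        ring

/-- A power is below an exponential of a power. -/
theorem ev_pow54 (A : ℝ) (k : ℕ) {B c : ℝ} (hB : 0 < B) (hc : 0 < c) :
    ∀ᶠ n : ℕ in atTop, A * (n : ℝ) ^ k ≤ Real.exp (B * (n : ℝ) ^ c) := by
  have h1 := tendsto_rpow_mul_exp_neg_mul_atTop_nhds_zero ((k : ℝ) / c) B hB
  have h2 : Tendsto (fun n : ℕ => (n : ℝ) ^ c) atTop atTop := (tendsto_rpow_atTop hc).comp tendsto_natCast_atTop_atTop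
  have h3 := (h1.comp h2).const_mul |A|
  rw [mul_zero] at h3
  filter_upwards [h3.eventually (gt_mem_nhds one_pos)] with n hn
  simp only [Function.comp] at hn
  have e1 : ((n : ℝ) ^ c) ^ ((k : ℝ) / c) = (n : ℝ) ^ k := by
    rw [← Real.rpow_mul (by positivity), mul_div_cancel₀ _ hc.ne', Real.rpow_natCast]
  rw [e1, neg_mul, Real.exp_neg, ← mul_assoc, ← div_eq_mul_inv, div_lt_one (Real.exp_pos _)] at hn
  exact (mul_le_mul_of_nonneg_right (le_abs_self A) (by positivity)).trans hn.le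

theorem card_rows54 (Γ : Cx) {a b : ℕ} (hb : b ≤ Γ.N) : ((Γ.rows a b).card : ℝ) ≤ (Γ.N : ℝ) * (Γ.N + 1) := by
  have h1 : (Γ.rows a b).card ≤ Γ.N * (Γ.N + 1) := by
    unfold Cx.rows
    rw [card_product, Nat.card_Ico, Int.card_Icc]
    refine Nat.mul_le_mul (by omega) ?_
    omega
  exact_mod_cast h1

/-- **The second moment of the sum of the weights in the frames, by counting.** -/
theorem ysq54 [IsProbabilityMeasure μ] {c₀ C₀ : ℝ} {n₀ : ℕ} (hI : In μ s c₀ C₀ n₀) (hN : H56.Nbr56 μ s) {dl : ℝ} (hdl : 0 < dl) :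
    ∃ κ₀ > (0 : ℝ), ∃ c' > (0 : ℝ), ∀ c ≤ (1 : ℝ), ∀ δ : ℝ, 0 ≤ δ → δ ≤ 1 → ∀ κ ≤ κ₀, ∀ᶠ n : ℕ in atTop, ∀ Γ : Cx,
      Adm μ s c δ κ n Γ → ∀ a b : ℕ, b ≤ Γ.N →
      ∫ η, (∑ c ∈ Γ.rows a b, Γ.ws c η) ^ 2 ∂(law μ) ≤
        2 * Real.exp (|s| + 1) ^ 2 * ∫ η, cnt Γ a b (Real.exp (-(n : ℝ) ^ dl)) η ^ 2 ∂(law μ) + Real.exp (-(n : ℝ) ^ c') := by
  obtain ⟨κ₀, hκ₀, c1, hc1, hev⟩ := nb_prob54 hI hN (dl := dl / 2) (by positivity)
  set e := min dl c1 / 2 with he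
  have he0 : 0 < e := by
    rw [he]
    exact half_pos (lt_min hdl hc1)
  have he1 : 2 * e ≤ dl := by
    have := min_le_left dl c1
    linarith
  have he2 : 2 * e ≤ c1 := by
    have := min_le_right dl c1
    linarith
  refine ⟨κ₀, hκ₀, e, he0, fun c hc δ hδ0 hδ κ hκ => ?_⟩
  set P := Real.exp (|s| + 1) with hP
  have hP1 : 1 ≤ P := Real.one_le_exp (by positivity)
  -- eventual inequalities
  have t1 : Tendsto (fun n : ℕ => (n : ℝ) ^ e) atTop atTop := (tendsto_rpow_atTop he0).comp tendsto_natCast_atTop_atTop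
  have t2 : Tendsto (fun n : ℕ => (n : ℝ) ^ (dl / 2)) atTop atTop :=
    (tendsto_rpow_atTop (by positivity)).comp tendsto_natCast_atTop_atTop
  filter_upwards [hev c hc δ hδ κ hκ, eventually_ge_atTop 1, t1.eventually_ge_atTop 4, t2.eventually_ge_atTop 16,
    ev_pow54 (8 * (20 * (4 * P ^ 2))) 24 (B := 1 / 8) (by norm_num) hdl,
    ev_pow54 (2 * (P * 20) ^ 2) 24 (B := 1 / 2) (by norm_num) hc1] with n h1 h2 h3 h4 h5 h6 Γ hA a b hb
  have hn' : (1 : ℝ) ≤ n := by exact_mod_cast h2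
  have hok := hA.ok
  obtain ⟨N, hN1, hN2, hN3, hN4, _⟩ := adm_N54 hc h2 hA
  have hPp := adm_P54 hδ0 h2 hA
  set X := (n : ℝ) ^ (dl / 2) with hX
  set T := (n : ℝ) ^ dl with hT
  have hXX : X ^ 2 = T := by
    rw [hX, hT, ← Real.rpow_natCast, ← Real.rpow_mul (by positivity)]
    congr 1
    push_cast
    ring
  have hX0 : 16 ≤ X := h4
  have hTX : 16 * X ≤ T := by
    rw [← hXX]
    nlinarith
  -- the number of the contacts
  have hcard : ((Γ.rows a b).card : ℝ) ≤ 20 * (n : ℝ) ^ 12 := by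
    refine (card_rows54 Γ hb).trans ?_
    have d1 : (Γ.N : ℝ) ≤ 4 * (N : ℝ) ^ 3 := by exact_mod_cast hN4
    have d2 : (N : ℝ) ≤ (n : ℝ) ^ 2 := by
      have := hN2
      rw [show (2 : ℝ) = ((2 : ℕ) : ℝ) by norm_num, Real.rpow_natCast] at this
      exact this
    have d3 : (N : ℝ) ^ 3 ≤ (n : ℝ) ^ 6 := by
      refine (pow_le_pow_left₀ (by positivity) d2 3).trans (le_of_eq ?_)
      ring
    have d4 : (Γ.N : ℝ) ≤ 4 * (n : ℝ) ^ 6 := by linarith
    have d5 : (1 : ℝ) ≤ (n : ℝ) ^ 6 := one_le_pow₀ hn'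
    calc (Γ.N : ℝ) * (Γ.N + 1) ≤ (4 * (n : ℝ) ^ 6) * (5 * (n : ℝ) ^ 6) := by
          refine mul_le_mul d4 (by linarith) (by positivity) (by positivity)
      _ = 20 * (n : ℝ) ^ 12 := by ring
  set K := 20 * (n : ℝ) ^ 12 with hK
  have hK0 : 0 ≤ K := by positivity
  set tiny := K * ((Real.exp X + P) ^ 2 * Real.exp (2 * X) * Real.exp (-T)) with htiny
  have htiny0 : 0 ≤ tiny := by positivity
  set bad := toMeasurable (law μ) {η | ¬ NB54 Γ X η} with hbad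
  have mb : MeasurableSet bad := measurableSet_toMeasurable _ _
  have pb : (law μ).real bad ≤ Real.exp (-(n : ℝ) ^ c1) := by
    rw [hbad, Measure.real, measure_toMeasurable]
    exact h1 Γ hA
  -- pointwise
  set Y : Env → ℝ := fun η => ∑ c ∈ Γ.rows a b, Γ.ws c η with hY
  have Y0 : ∀ η, 0 ≤ Y η := fun η => sum_nonneg fun c _ => Cx.ws_nonneg hok c η
  have Y1 : ∀ η, Y η ≤ P * K := fun η => by
    have e1 : Y η ≤ ∑ _c ∈ Γ.rows a b, P := sum_le_sum fun c hc => (Cx.ws_le hok (Cx.rows_sub Γ hb hc) η).trans (hPp c.1)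
    rw [sum_const, nsmul_eq_mul] at e1
    refine e1.trans ?_
    rw [mul_comm]
    exact mul_le_mul_of_nonneg_left hcard (by positivity)
  set t := Real.exp (-T) with ht
  have pt : ∀ η, Y η ^ 2 ≤ 2 * P ^ 2 * cnt Γ a b t η ^ 2 + 2 * tiny ^ 2 + bad.indicator (fun _ => (P * K) ^ 2) η := by
    intro η
    have c0 := cnt_nonneg Γ a b t η
    by_cases hb1 : η ∈ bad
    · rw [Set.indicator_of_mem hb1]
      have e1 := pow_le_pow_left₀ (Y0 η) (Y1 η) 2
      have e2 : 0 ≤ 2 * P ^ 2 * cnt Γ a b t η ^ 2 := by positivity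
      have e3 : 0 ≤ 2 * tiny ^ 2 := by positivity
      linarith
    · rw [Set.indicator_of_notMem hb1, add_zero]
      have hNB : NB54 Γ X η := by
        by_contra hc2
        exact hb1 (subset_toMeasurable _ _ hc2)
      have e1 := ysum54 hok η (a := a) hb hPp (fun i _ hi => hNB.nb (lt_of_lt_of_le hi hb)) (t := t) (Real.exp_pos _).le
      have e2 : ((Γ.rows a b).card : ℝ) * ((Real.exp X + P) ^ 2 * Real.exp (2 * X) * t) ≤ tiny :=
        mul_le_mul_of_nonneg_right hcard (by positivity)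
      have e3 : Y η ≤ P * cnt Γ a b t η + tiny := e1.trans (by linarith)
      have e4 := pow_le_pow_left₀ (Y0 η) e3 2
      nlinarith [sq_nonneg (P * cnt Γ a b t η - tiny)]
  -- integration
  have mY : Measurable Y := Finset.measurable_sum _ fun c _ => Γ.meas_ws c
  have iY : Integrable (fun η => Y η ^ 2) (law μ) := by
    refine (integrable_const ((P * K) ^ 2)).mono' (mY.pow_const 2).aestronglyMeasurable (Eventually.of_forall fun η => ?_)
    rw [Real.norm_eq_abs, abs_of_nonneg (by positivity)]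
    exact pow_le_pow_left₀ (Y0 η) (Y1 η) 2
  have ic : Integrable (fun η => cnt Γ a b t η ^ 2) (law μ) := by
    refine (integrable_const (K ^ 2)).mono' ((meas_cnt Γ a b t).pow_const 2).aestronglyMeasurable (Eventually.of_forall fun η => ?_)
    rw [Real.norm_eq_abs, abs_of_nonneg (by positivity)]
    exact pow_le_pow_left₀ (cnt_nonneg _ _ _ _ _) ((cnt_le _ _ _ _ _).trans hcard) 2
  have ib : Integrable (bad.indicator fun _ : Env => (P * K) ^ 2) (law μ) := (integrable_const _).indicator mb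
  have i1 := integral_mono iY (((ic.const_mul (2 * P ^ 2)).add (integrable_const (2 * tiny ^ 2))).add ib) pt
  have i2 : ∫ η, (2 * P ^ 2 * cnt Γ a b t η ^ 2 + 2 * tiny ^ 2 + bad.indicator (fun _ => (P * K) ^ 2) η) ∂(law μ) =
      2 * P ^ 2 * ∫ η, cnt Γ a b t η ^ 2 ∂(law μ) + 2 * tiny ^ 2 + (law μ).real bad * (P * K) ^ 2 := by
    rw [integral_add (f := fun η => 2 * P ^ 2 * cnt Γ a b t η ^ 2 + 2 * tiny ^ 2)
      ((ic.const_mul (2 * P ^ 2)).add (integrable_const (2 * tiny ^ 2))) ib,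
      integral_add (ic.const_mul (2 * P ^ 2)) (integrable_const (2 * tiny ^ 2)), integral_const_mul, integral_const,
      integral_indicator_const _ mb]
    simp
  have i3 : ∫ η, Y η ^ 2 ∂(law μ) ≤ 2 * P ^ 2 * ∫ η, cnt Γ a b t η ^ 2 ∂(law μ) + 2 * tiny ^ 2 + (law μ).real bad * (P * K) ^ 2 :=
    i1.trans (le_of_eq i2)
  refine i3.trans ?_
  -- the errors
  have r1 : (law μ).real bad * (P * K) ^ 2 ≤ Real.exp (-(n : ℝ) ^ e) / 2 := by
    have q1 : 2 * (P * K) ^ 2 ≤ Real.exp (1 / 2 * (n : ℝ) ^ c1) := by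
      refine le_trans (le_of_eq ?_) h6
      rw [hK]
      ring
    have q2 : (law μ).real bad * (P * K) ^ 2 ≤ Real.exp (-(n : ℝ) ^ c1) * (Real.exp (1 / 2 * (n : ℝ) ^ c1) / 2) :=
      mul_le_mul pb (by linarith) (by positivity) (Real.exp_pos _).le
    refine q2.trans ?_
    rw [← mul_div_assoc, ← Real.exp_add]
    refine div_le_div_of_nonneg_right (Real.exp_le_exp.2 ?_) (by norm_num)
    have q3 : (n : ℝ) ^ e * (n : ℝ) ^ e ≤ (n : ℝ) ^ c1 := by
      rw [← Real.rpow_add (by positivity)]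
      exact Real.rpow_le_rpow_of_exponent_le hn' (by linarith)
    nlinarith
  have r2 : 2 * tiny ^ 2 ≤ Real.exp (-(n : ℝ) ^ e) / 2 := by
    have q1 : (Real.exp X + P) ^ 2 ≤ 4 * P ^ 2 * Real.exp (2 * X) := by
      have w1 : 1 ≤ Real.exp X := Real.one_le_exp (by linarith)
      have w2 : Real.exp X + P ≤ 2 * P * Real.exp X := by nlinarith
      have w3 := pow_le_pow_left₀ (by positivity) w2 2
      refine w3.trans (le_of_eq ?_)
      rw [show 2 * X = X + X by ring, Real.exp_add]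
      ring
    have q2 : tiny ≤ K * (4 * P ^ 2) * Real.exp (4 * X - T) := by
      rw [htiny]
      have w1 : (Real.exp X + P) ^ 2 * Real.exp (2 * X) * Real.exp (-T) ≤ 4 * P ^ 2 * Real.exp (2 * X) * Real.exp (2 * X) * Real.exp (-T) :=
        mul_le_mul_of_nonneg_right (mul_le_mul_of_nonneg_right q1 (Real.exp_pos _).le) (Real.exp_pos _).le
      refine (mul_le_mul_of_nonneg_left w1 hK0).trans (le_of_eq ?_)
      rw [show 4 * X - T = 2 * X + 2 * X + -T by ring, Real.exp_add, Real.exp_add]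
      ring
    have q3 : K * (4 * P ^ 2) ≤ Real.exp (1 / 8 * T) / 8 := by
      have w1 : (1 : ℝ) ≤ (n : ℝ) ^ 12 := one_le_pow₀ hn'
      have w2 : (n : ℝ) ^ 12 ≤ (n : ℝ) ^ 24 := pow_le_pow_right₀ hn' (by norm_num)
      have w3 : 8 * (20 * (4 * P ^ 2)) * (n : ℝ) ^ 12 ≤ 8 * (20 * (4 * P ^ 2)) * (n : ℝ) ^ 24 :=
        mul_le_mul_of_nonneg_left w2 (by positivity)
      have w4 := w3.trans h5
      rw [hK]
      linarith
    have q4 : tiny ≤ Real.exp (-(T / 2)) / 8 := by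
      refine q2.trans ?_
      have w1 := mul_le_mul_of_nonneg_right q3 (Real.exp_pos (4 * X - T)).le
      refine w1.trans ?_
      rw [div_mul_eq_mul_div, ← Real.exp_add]
      refine div_le_div_of_nonneg_right (Real.exp_le_exp.2 ?_) (by norm_num)
      linarith
    have q5 : tiny ^ 2 ≤ Real.exp (-T) / 64 := by
      refine (pow_le_pow_left₀ htiny0 q4 2).trans (le_of_eq ?_)
      rw [div_pow, ← Real.exp_nat_mul]
      norm_num
      ring
    have q6 : Real.exp (-T) ≤ Real.exp (-(n : ℝ) ^ e) := by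
      refine Real.exp_le_exp.2 (neg_le_neg ?_)
      exact Real.rpow_le_rpow_of_exponent_le hn' (by linarith)
    linarith [Real.exp_pos (-(n : ℝ) ^ e)]
  linarith

end

end Pool.Agent.W_7d29a1_C1.H54
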