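import Pool.Agent.W_7d29a1_C1.SucM54
import Pool.Agent.W_7d29a1_C1.LocP56
import Pool.Agent.W_7d29a1_C1.YSeamP54

/-!
Both halves (MP_7d29a1_pr), attractor route [C1]: THE BAD ENVIRONMENTS OF AN ADMISSIBLE CONTEXT. (helper54)

`bad54` : off a set of probability at most `n ^ (-40)` the local facts `Lc54` of all rows hold (neighbouring sites, straight steps, both sides)
and the logarithmic ratio of any two neighbouring single weights is at most `ε log n`.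
-/

set_option autoImplicit false

namespace Pool.Agent.W_7d29a1_C1.H54

open MeasureTheory ProbabilityTheory Filter Topology Finset
open Pool.Agent.W_7d29a1_F Pool.Agent.W_7d29a1_H Pool.Agent.W_7d29a1_HS
open Pool.Agent.W_7d29a1_h47 (EM Mom)
open Pool.Agent.W_7d29a1_C1.K91 (wt wt_pos)
open Pool.Agent.W_7d29a1_C1.H60
open Pool.Agent.W_7d29a1_C1.H60.Cx (uc mem_rows)
open Pool.Agent.W_7d29a1_C1.Nbr78 (StE78 Str78)

noncomputable section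

variable {μ : Measure ℝ} {s : ℝ} {Γ : Cx}

/-- The size of an admissible context, with the box. -/
theorem adm_hi54 [IsProbabilityMeasure μ] {c₀ C₀ : ℝ} {n₀ : ℕ} (hI : In μ s c₀ C₀ n₀) {c δ κ : ℝ} (hc : c ≤ 1) (hδ : δ ≤ 1) :
    ∀ᶠ n : ℕ in atTop, ∀ Γ : Cx, Adm μ s c δ κ n Γ →
      ∃ N : ℕ, n ≤ N ∧ (N : ℝ) ≤ (n : ℝ) ^ (2 : ℝ) ∧ Γ.M ≤ N ∧ Γ.N ≤ 4 * N ^ 3 ∧ |Γ.h| * EE μ s N ≤ (N : ℝ) ^ κ ∧
        (Γ.hi : ℝ) + 8 ≤ (N : ℝ) ^ 4 := by
  set W := wd μ s 1 with hW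
  filter_upwards [eventually_ge_atTop 1, eventually_ge_atTop ⌈2 * W + 12⌉₊] with n h2 h3 Γ hA
  obtain ⟨N, hN1, hN2, hN3, hN4, hN5⟩ := adm_N54 hc h2 hA
  have hn' : (1 : ℝ) ≤ n := by exact_mod_cast h2
  have hN' : (1 : ℝ) ≤ N := by exact_mod_cast (h2.trans hN1)
  refine ⟨N, hN1, hN2, hN3, hN4, hN5, ?_⟩
  have a1 : (Γ.k : ℝ) ≤ (2 * W) * (n : ℝ) ^ 2 := by
    refine hA.k2.trans ?_
    have b1 := wd_lower_one hI (m := 1) (n := n) le_rfl h2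
    have b2 : (n : ℝ) ^ δ ≤ n := by
      calc (n : ℝ) ^ δ ≤ (n : ℝ) ^ (1 : ℝ) := Real.rpow_le_rpow_of_exponent_le hn' hδ
        _ = n := Real.rpow_one _
    have b3 : 0 < wd μ s n := by
      have e1 := wd_ge_one hI h2
      have e2 := one_le_EE (μ := μ) (s := s) n
      linarith
    calc (n : ℝ) ^ δ * wd μ s n ≤ n * wd μ s n := mul_le_mul_of_nonneg_right b2 b3.le
      _ ≤ n * (2 * (n * wd μ s 1)) := by
        refine mul_le_mul_of_nonneg_left ?_ (by positivity)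
        have : ((1 : ℕ) : ℝ) = 1 := Nat.cast_one
        rw [this, one_mul] at b1
        exact b1
      _ = _ := by rw [hW]; ring
  have a2 : (2 * W + 12 : ℝ) ≤ n := (Nat.le_ceil _).trans (by exact_mod_cast h3)
  have c1 : ((Γ.hi : ℤ) : ℝ) = (Γ.k : ℝ) + Γ.N := by
    unfold Cx.hi
    push_cast
    ring
  have c2 : (Γ.N : ℝ) ≤ 4 * (N : ℝ) ^ 3 := by exact_mod_cast hN4
  have c3 : (n : ℝ) ≤ N := by exact_mod_cast hN1
  have c4 : (n : ℝ) ^ 2 ≤ (N : ℝ) ^ 2 := pow_le_pow_left₀ (by positivity) c3 2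
  have c5 : (N : ℝ) ^ 2 ≤ (N : ℝ) ^ 3 := pow_le_pow_right₀ hN' (by norm_num)
  have c6 : (1 : ℝ) ≤ (N : ℝ) ^ 3 := one_le_pow₀ hN'
  have c7 : 0 ≤ 2 * W := by
    have e1 := wd_ge_one hI (n := 1) le_rfl
    have e2 := one_le_EE (μ := μ) (s := s) 1
    rw [hW]
    linarith
  rw [c1]
  have d1 : (2 * W) * (n : ℝ) ^ 2 ≤ 2 * W * (N : ℝ) ^ 3 := mul_le_mul_of_nonneg_left (c4.trans c5) c7
  have d2 : (2 * W + 12) * (N : ℝ) ^ 3 ≤ N * (N : ℝ) ^ 3 := mul_le_mul_of_nonneg_right (a2.trans c3) (by positivity)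
  have d3 : (Γ.k : ℝ) ≤ 2 * W * (N : ℝ) ^ 3 := a1.trans d1
  have d4 : (8 : ℝ) ≤ 8 * (N : ℝ) ^ 3 := le_mul_of_one_le_right (by norm_num) c6
  calc (Γ.k : ℝ) + Γ.N + 8 ≤ 2 * W * (N : ℝ) ^ 3 + 4 * (N : ℝ) ^ 3 + 8 * (N : ℝ) ^ 3 := add_le_add (add_le_add d3 c2) d4
    _ = (2 * W + 12) * (N : ℝ) ^ 3 := by ring
    _ ≤ N * (N : ℝ) ^ 3 := d2
    _ = (N : ℝ) ^ 4 := by ring

/-- The ratio of two neighbouring single weights at one contact. -/
theorem uc_prob54 [IsProbabilityMeasure μ] (hμ : EM μ) {t u : ℝ} (ht : 0 < t) (hu : 0 ≤ u) (c : ℕ × ℤ) :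
    (law μ).real {η : Env | u < uc c η} ≤ 2 * (Real.exp (-(t * (u / 2))) * Mom μ t) := by
  have h1 : {η : Env | u < uc c η} ⊆ {η : Env | u / 2 < |η ((c.1 : ℤ), c.2 - 1)|} ∪ {η : Env | u / 2 < |η ((c.1 : ℤ), c.2)|} := by
    intro η hη
    have h2 : u < |Real.log (wt η c.1 (c.2 - 1)) - Real.log (wt η c.1 c.2)| := hη
    by_cases h0 : c.1 = 0
    · exfalso
      unfold wt at h2
      rw [if_pos h0, if_pos h0, sub_self, abs_zero] at h2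
      linarith
    · unfold wt at h2
      rw [if_neg h0, if_neg h0, Real.log_exp, Real.log_exp] at h2
      have h4 := h2.trans_le (abs_sub _ _)
      by_cases h3 : u / 2 < |η ((c.1 : ℤ), c.2 - 1)|
      · exact Or.inl h3
      · right
        show u / 2 < |η ((c.1 : ℤ), c.2)|
        linarith [not_lt.1 h3]
  refine (measureReal_mono h1 (measure_ne_top _ _)).trans ((measureReal_union_le _ _).trans ?_)
  have k1 := H56.prob_ev hμ (v := u / 2) ht ((c.1 : ℤ), c.2 - 1)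
  have k2 := H56.prob_ev hμ (v := u / 2) ht ((c.1 : ℤ), c.2)
  linarith

/-- Two local events: neighbouring sites and single weights at a fine exponent, straight steps at a coarse one. -/
theorem Lc54.two {w : ℕ → ℤ → ℝ} {p : ℕ → ℝ} {N : ℕ} {hi : ℤ} {X t X' t' : ℝ} {m0 m0' : ℕ} (h : Lc54 w p N hi X t m0)
    (h' : Lc54 w p N hi X' t' m0') (hm : ∀ i ≤ N, ∀ y ∈ Icc (-1 : ℤ) (hi + 2 + m0'), Real.exp (-X) ≤ w i y ∧ w i y ≤ Real.exp X) :
    Lc54 w p N hi X t' m0' :=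
  ⟨h.X0, h'.t0, h.nb, hm, h'.sd, h'.su⟩

/-- **THE BAD ENVIRONMENTS.** The ratios are at most `exp X`, `X ≤ n ^ b`, and the straight steps have a much smaller share `t`. -/
theorem bad54 [IsProbabilityMeasure μ] {c₀ C₀ : ℝ} {n₀ : ℕ} (hI : In μ s c₀ C₀ n₀) (hS : Str78 μ s) {dl ε : ℝ} (hdl : 0 < dl)
    (hε : 0 < ε) :
    ∃ κ₀ > (0 : ℝ), ∃ b > (0 : ℝ), b ≤ dl ∧ ∀ c ≤ (1 : ℝ), ∀ δ ≤ (1 : ℝ), ∀ κ ≤ κ₀, ∀ᶠ n : ℕ in atTop, ∀ Γ : Cx, Adm μ s c δ κ n Γ →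
      ∃ Bd : Set Env, MeasurableSet Bd ∧ (law μ).real Bd ≤ (n : ℝ) ^ (-(40 : ℝ)) ∧
        ∃ (X t : ℝ) (m0 : ℕ), 0 ≤ X ∧ X ≤ (n : ℝ) ^ b ∧ 0 ≤ t ∧ t ≤ Real.exp (-(n : ℝ) ^ (2 * b)) ∧ (m0 : ℝ) ≤ (n : ℝ) ^ dl + 1 ∧
          ∀ η, η ∉ Bd → Lc54 (wt η) Γ.p Γ.N Γ.hi X t m0 ∧ ∀ d ∈ Γ.rows 0 Γ.N, uc d η ≤ ε * Real.log n := by
  have hμ := hI.em
  obtain ⟨d, hd⟩ : ∃ d, d = min (dl / 2) 1 := ⟨_, rfl⟩
  have hd0 : 0 < d := by rw [hd]; exact lt_min (by linarith) one_pos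
  have hd1 : d ≤ dl / 2 := by rw [hd]; exact min_le_left _ _
  have hd2 : d ≤ 1 := by rw [hd]; exact min_le_right _ _
  obtain ⟨κ₂, hκ₂, c', hc', hev⟩ := hS d hd0
  obtain ⟨d', hd'⟩ : ∃ d', d' = min d (c' / 4) := ⟨_, rfl⟩
  have hd0' : 0 < d' := by rw [hd']; exact lt_min hd0 (by linarith)
  have hd1' : d' ≤ d := by rw [hd']; exact min_le_left _ _
  have hd2' : d' ≤ c' / 4 := by rw [hd']; exact min_le_right _ _
  obtain ⟨κ₁, hκ₁, c₁, hc₁, hev1⟩ := hS d' hd0'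
  refine ⟨min κ₁ κ₂, lt_min hκ₁ hκ₂, 2 * d', by linarith, by linarith, fun c hc δ hδ κ hκ => ?_⟩
  have hκ1 := hκ.trans (min_le_left _ _)
  have hκ2 := hκ.trans (min_le_right _ _)
  obtain ⟨n₂, hn₂⟩ := eventually_atTop.1 hev
  obtain ⟨n₃, hn₃⟩ := eventually_atTop.1 hev1
  obtain ⟨t, ht⟩ : ∃ t : ℝ, t = 120 / ε := ⟨_, rfl⟩
  have ht0 : 0 < t := by rw [ht]; positivity
  obtain ⟨Mo, hMo⟩ : ∃ Mo : ℝ, Mo = Mom μ t := ⟨_, rfl⟩
  have hMo0 : 0 ≤ Mo := by rw [hMo]; exact H56.Mom_nonneg t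
  have ev1 : ∀ᶠ n : ℕ in atTop, 80 * Mo ≤ (n : ℝ) ^ (1 : ℝ) :=
    ((tendsto_rpow_atTop one_pos).comp tendsto_natCast_atTop_atTop).eventually_ge_atTop _
  filter_upwards [adm_hi54 hI (κ := κ) hc hδ, eventually_ge_atTop n₂, eventually_ge_atTop n₃, eventually_ge_atTop 2, ev1,
    ev_pow54 4 40 (B := 1) one_pos hc', ev_pow54 4 40 (B := 1) one_pos hc₁] with n hadm hn2 hn23 hn3 ev1 hev2 hev3 Γ hA
  obtain ⟨N, hN1, hN2, hN3, hN4, hN5, hN6⟩ := hadm Γ hA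
  have hn1 : 1 ≤ n := by omega
  have hn' : (1 : ℝ) ≤ n := by exact_mod_cast hn1
  have n0 : (0 : ℝ) < n := by linarith
  have hN' : (1 : ℝ) ≤ N := by exact_mod_cast (hn1.trans hN1)
  have k1 := hn₂ N (hn2.trans hN1) Γ.M hN3 Γ.h (hN5.trans (Real.rpow_le_rpow_of_exponent_le hN' hκ2))
  have k2 := hn₃ N (hn23.trans hN1) Γ.M hN3 Γ.h (hN5.trans (Real.rpow_le_rpow_of_exponent_le hN' hκ1))
  -- the bad set
  obtain ⟨B1, hB1⟩ : ∃ B1 : Set Env, B1 = {η | ¬ StE78 s Γ.h Γ.M N d c' η} := ⟨_, rfl⟩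
  obtain ⟨B3, hB3⟩ : ∃ B3 : Set Env, B3 = {η | ¬ StE78 s Γ.h Γ.M N d' c₁ η} := ⟨_, rfl⟩
  obtain ⟨u, hu⟩ : ∃ u : ℝ, u = ε * Real.log n := ⟨_, rfl⟩
  have hu0 : 0 ≤ u := by rw [hu]; exact mul_nonneg hε.le (Real.log_nonneg hn')
  obtain ⟨B2, hB2⟩ : ∃ B2 : Set Env, B2 = ⋃ d ∈ Γ.rows 0 Γ.N, {η | u < uc d η} := ⟨_, rfl⟩
  have small : ∀ (c₂ : ℝ), 0 < c₂ → 4 * (n : ℝ) ^ 40 ≤ Real.exp (1 * (n : ℝ) ^ c₂) →
      Real.exp (-(N : ℝ) ^ c₂) ≤ 1 / 4 * (n : ℝ) ^ (-(40 : ℝ)) := by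
    intro c₂ hc₂ hev2
    have e1 : Real.exp (-(N : ℝ) ^ c₂) ≤ Real.exp (-(n : ℝ) ^ c₂) :=
      Real.exp_le_exp.2 (neg_le_neg (Real.rpow_le_rpow (by positivity) (by exact_mod_cast hN1) hc₂.le))
    refine e1.trans ?_
    rw [Real.rpow_neg n0.le, Real.exp_neg]
    have e2 : (n : ℝ) ^ (40 : ℝ) = (n : ℝ) ^ 40 := by
      rw [← Real.rpow_natCast]
      norm_num
    rw [e2, one_div, ← mul_inv]
    rw [one_mul] at hev2
    exact inv_anti₀ (by positivity) hev2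
  refine ⟨toMeasurable (law μ) (B1 ∪ B3 ∪ B2), measurableSet_toMeasurable _ _, ?_, ?_⟩
  · rw [Measure.real, measure_toMeasurable]
    show (law μ).real (B1 ∪ B3 ∪ B2) ≤ _
    refine (measureReal_union_le _ _).trans ?_
    have b1 : (law μ).real (B1 ∪ B3) ≤ 1 / 4 * (n : ℝ) ^ (-(40 : ℝ)) + 1 / 4 * (n : ℝ) ^ (-(40 : ℝ)) := by
      refine (measureReal_union_le _ _).trans (add_le_add ?_ ?_)
      · rw [hB1]
        exact k1.trans (small c' hc' hev2)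
      · rw [hB3]
        exact k2.trans (small c₁ hc₁ hev3)
    have b2 : (law μ).real B2 ≤ 1 / 2 * (n : ℝ) ^ (-(40 : ℝ)) := by
      rw [hB2]
      refine (measureReal_biUnion_finset_le _ _).trans ?_
      have e1 : ∀ d ∈ Γ.rows 0 Γ.N, (law μ).real {η : Env | u < uc d η} ≤ 2 * ((n : ℝ) ^ (-(60 : ℝ)) * Mo) := by
        intro d _
        have h1 := uc_prob54 (μ := μ) hμ ht0 hu0 d
        rw [← hMo] at h1
        have e : Real.exp (-(t * (u / 2))) = (n : ℝ) ^ (-(60 : ℝ)) := by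
          rw [Real.rpow_def_of_pos n0]
          congr 1
          rw [hu, ht]
          field_simp
          ring
        rwa [e] at h1
      refine (sum_le_sum e1).trans ?_
      rw [sum_const, nsmul_eq_mul]
      have hcard : ((Γ.rows 0 Γ.N).card : ℝ) ≤ 20 * (n : ℝ) ^ (12 : ℝ) := by
        have := card54 hc hn1 hA
        have e2 : (n : ℝ) ^ (12 : ℝ) = (n : ℝ) ^ 12 := by
          rw [← Real.rpow_natCast]
          norm_num
        rw [e2]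
        exact this
      have p60 : 0 < (n : ℝ) ^ (-(60 : ℝ)) := Real.rpow_pos_of_pos n0 _
      calc ((Γ.rows 0 Γ.N).card : ℝ) * (2 * ((n : ℝ) ^ (-(60 : ℝ)) * Mo))
          ≤ (20 * (n : ℝ) ^ (12 : ℝ)) * (2 * ((n : ℝ) ^ (-(60 : ℝ)) * Mo)) := mul_le_mul_of_nonneg_right hcard (by positivity)
        _ = 1 / 2 * (80 * Mo) * ((n : ℝ) ^ (12 : ℝ) * (n : ℝ) ^ (-(60 : ℝ))) := by ring
        _ ≤ 1 / 2 * (n : ℝ) ^ (1 : ℝ) * ((n : ℝ) ^ (12 : ℝ) * (n : ℝ) ^ (-(60 : ℝ))) := by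
          refine mul_le_mul_of_nonneg_right (mul_le_mul_of_nonneg_left ev1 (by norm_num)) ?_
          positivity
        _ = 1 / 2 * (n : ℝ) ^ (-(47 : ℝ)) := by
          rw [← Real.rpow_add n0, mul_assoc, ← Real.rpow_add n0]
          norm_num
        _ ≤ 1 / 2 * (n : ℝ) ^ (-(40 : ℝ)) :=
          mul_le_mul_of_nonneg_left (Real.rpow_le_rpow_of_exponent_le hn' (by norm_num)) (by norm_num)
    linarith
  · have nat_exp : ∀ d : ℝ, 0 < d → d ≤ 1 → (N : ℝ) ^ d ≤ (n : ℝ) ^ (2 * d) := by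
      intro d hd0 _
      calc (N : ℝ) ^ d ≤ ((n : ℝ) ^ (2 : ℝ)) ^ d := Real.rpow_le_rpow (by positivity) hN2 hd0.le
        _ = (n : ℝ) ^ (2 * d) := by rw [← Real.rpow_mul n0.le]
    have hh : Γ.hi + 8 ≤ (N : ℤ) ^ 4 := by exact_mod_cast hN6
    have g5 : N + 1 ≤ N ^ 4 := by
      have g6 : 2 ≤ N := hn3.trans hN1
      have g7 : N * 2 ≤ N * N ^ 3 := Nat.mul_le_mul le_rfl (g6.trans (Nat.le_self_pow (by norm_num) N))
      have g8 : N * N ^ 3 = N ^ 4 := by ring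
      omega
    have ce : ∀ d : ℝ, 0 < d → d ≤ 1 → ⌈(N : ℝ) ^ d⌉₊ ≤ N + 1 := by
      intro d hd0 hd2
      have g1 : (⌈(N : ℝ) ^ d⌉₊ : ℝ) ≤ (N : ℝ) + 1 := by
        have g2 := (Nat.ceil_lt_add_one (show (0 : ℝ) ≤ (N : ℝ) ^ d by positivity)).le
        have g3 : (N : ℝ) ^ d ≤ N := by
          calc (N : ℝ) ^ d ≤ (N : ℝ) ^ (1 : ℝ) := Real.rpow_le_rpow_of_exponent_le hN' hd2
            _ = N := Real.rpow_one _
        linarith
      exact_mod_cast g1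
    refine ⟨(N : ℝ) ^ d', Real.exp (-(N : ℝ) ^ c'), ⌈(N : ℝ) ^ d⌉₊, by positivity, nat_exp d' hd0' (by linarith),
      (Real.exp_pos _).le, ?_, ?_, fun η hη => ?_⟩
    · refine Real.exp_le_exp.2 (neg_le_neg ?_)
      calc (n : ℝ) ^ (2 * (2 * d')) ≤ (n : ℝ) ^ c' := Real.rpow_le_rpow_of_exponent_le hn' (by linarith)
        _ ≤ (N : ℝ) ^ c' := Real.rpow_le_rpow (by positivity) (by exact_mod_cast hN1) hc'.le
    · have := (Nat.ceil_lt_add_one (show (0 : ℝ) ≤ (N : ℝ) ^ d by positivity)).le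
      have h2 := nat_exp d hd0 hd2
      have h3 : (n : ℝ) ^ (2 * d) ≤ (n : ℝ) ^ dl := Real.rpow_le_rpow_of_exponent_le hn' (by linarith)
      linarith
    · have hη' : η ∉ B1 ∪ B3 ∪ B2 := fun h => hη (subset_toMeasurable _ _ h)
      have h1 : StE78 s Γ.h Γ.M N d c' η := by
        by_contra hc1
        exact hη' (Or.inl (Or.inl (by rw [hB1]; exact hc1)))
      have h2 : StE78 s Γ.h Γ.M N d' c₁ η := by
        by_contra hc1
        exact hη' (Or.inl (Or.inr (by rw [hB3]; exact hc1)))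
      refine ⟨?_, fun d hd => ?_⟩
      · have L1 := lc54_of78 (Γ := Γ) (N' := N) (dl := d) (c' := c') (by rw [hA.hs]; exact h1) hN4 (by omega)
          (by exact_mod_cast (ce d hd0 hd2).trans g5)
        have L2 := lc54_of78 (Γ := Γ) (N' := N) (dl := d') (c' := c₁) (by rw [hA.hs]; exact h2) hN4 (by omega)
          (by exact_mod_cast (ce d' hd0' (by linarith)).trans g5)
        refine L2.two L1 fun i hi' y hy => ?_
        rw [mem_Icc] at hy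
        have hce : (⌈(N : ℝ) ^ d⌉₊ : ℤ) ≤ (N : ℤ) ^ 4 := by exact_mod_cast (ce d hd0 hd2).trans g5
        have hi0 : (0 : ℤ) ≤ Γ.hi := by unfold Cx.hi; positivity
        have a := h2.2.2 i (by omega) y (by rw [abs_le]; constructor <;> omega)
        rw [abs_le] at a
        have X0 : 0 ≤ (N : ℝ) ^ d' := by positivity
        unfold K91.wt
        split_ifs
        · constructor
          · rw [Real.exp_le_one_iff]
            linarith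
          · exact Real.one_le_exp X0
        · exact ⟨Real.exp_le_exp.2 (by linarith [a.1]), Real.exp_le_exp.2 a.2⟩
      · by_contra hc1
        refine hη' (Or.inr ?_)
        rw [hB2]
        simp only [Set.mem_iUnion]
        refine ⟨d, hd, ?_⟩
        show u < uc d η
        rw [hu]
        exact not_le.1 hc1

end

end Pool.Agent.W_7d29a1_C1.H54
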