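import Pool.Agent.W_7d29a1_C1.Grd77

/-!
Both halves (MP_7d29a1_pr), attractor route: THE OUTERMOST CHOSEN JOINT SUCCESS (helper77).

`p` = a pair of contacts, `V t` = the usable scales of the pair `p`, `S t` = the block event, `Y t` = the inside is abnormal.
`AO M m V S Y t` = the scale `t` is chosen (`GD`), it is a normal success, and no chosen scale further outside is one.
For a fixed pair the sets are pairwise disjoint, their complement is 'no chosen normal success', and the exchange `σ` together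
with the partner of the pair preserves them: only the events of the scales `j ≥ t` enter, and of `S` only `j = t` and
`j ≥ t + M`, because nothing is chosen in `(t, t + M)`.
-/

set_option autoImplicit false

namespace Pool.Agent.W_7d29a1_C1.H77

variable {Z : Type*} {M m : ℕ}

/-- A chosen normal success. -/
def JO (M m : ℕ) (V S Y : ℕ → Set Z) (t : ℕ) : Set Z := GD M m V t ∩ (S t \ Y t)

/-- The outermost chosen normal success is `t`. -/
def AO (M m : ℕ) (V S Y : ℕ → Set Z) (t : ℕ) : Set Z := {z | z ∈ JO M m V S Y t ∧ ∀ j, t < j → j < m → z ∉ JO M m V S Y j}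

theorem JO_lt {V S Y : ℕ → Set Z} {t : ℕ} {z : Z} (h : z ∈ JO M m V S Y t) : t < m := grd_lt h.1

theorem AO_sub {V S Y : ℕ → Set Z} (t : ℕ) : AO M m V S Y t ⊆ V t ∩ (S t \ Y t) := fun _ h => ⟨GD_sub V h.1.1, h.1.2⟩

theorem AO_disj (V S Y : ℕ → Set Z) : Pairwise fun t u => Disjoint (AO M m V S Y t) (AO M m V S Y u) := by
  intro t u htu
  rw [Set.disjoint_left]
  rintro z ⟨h1, h2⟩ ⟨h3, h4⟩
  rcases lt_trichotomy t u with h | h | h
  · exact h2 u h (JO_lt h3) h3
  · exact htu h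
  · exact h4 t h (JO_lt h1) h1

theorem measurableSet_JO [MeasurableSpace Z] {V S Y : ℕ → Set Z} (hV : ∀ t < m, MeasurableSet (V t))
    (hS : ∀ t < m, MeasurableSet (S t)) (hY : ∀ t < m, MeasurableSet (Y t)) (t : ℕ) : MeasurableSet (JO M m V S Y t) := by
  by_cases ht : t < m
  · exact (measurableSet_GD hV t).inter ((hS t ht).diff (hY t ht))
  · have : JO M m V S Y t = ∅ := by
      ext z
      simp only [Set.mem_empty_iff_false, iff_false]
      exact fun h => ht (JO_lt h)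
    rw [this]
    exact MeasurableSet.empty

theorem measurableSet_AO [MeasurableSpace Z] {V S Y : ℕ → Set Z} (hV : ∀ t < m, MeasurableSet (V t))
    (hS : ∀ t < m, MeasurableSet (S t)) (hY : ∀ t < m, MeasurableSet (Y t)) (t : ℕ) : MeasurableSet (AO M m V S Y t) := by
  have e : AO M m V S Y t = JO M m V S Y t ∩ ⋂ j ∈ Finset.Ioo t m, (JO M m V S Y j)ᶜ := by
    ext z
    unfold AO
    simp only [Set.mem_ofPred_eq, Set.mem_inter_iff, Set.mem_iInter, Finset.mem_Ioo, Set.mem_compl_iff, and_imp]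
  rw [e]
  exact (measurableSet_JO hV hS hY t).inter (Finset.measurableSet_biInter _ fun j _ => (measurableSet_JO hV hS hY j).compl)

/-- The complement = no chosen normal success. -/
theorem compl_AO (V S Y : ℕ → Set Z) :
    (⋃ t ∈ Finset.range m, AO M m V S Y t)ᶜ = {z | ∀ t < m, z ∉ JO M m V S Y t} := by
  classical
  ext z
  simp only [Set.mem_compl_iff, Set.mem_iUnion, Finset.mem_range, not_exists, Set.mem_ofPred_eq]
  constructor
  · intro h t ht hz
    have hne : ((Finset.range m).filter fun j => z ∈ JO M m V S Y j).Nonempty :=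
      ⟨t, Finset.mem_filter.2 ⟨Finset.mem_range.2 ht, hz⟩⟩
    set j0 := ((Finset.range m).filter fun j => z ∈ JO M m V S Y j).max' hne with hj0
    obtain ⟨h1, h2⟩ := Finset.mem_filter.1 (Finset.max'_mem _ hne)
    rw [← hj0] at h1 h2
    refine h j0 (Finset.mem_range.1 h1) ⟨h2, fun j h3 h4 h5 => ?_⟩
    have := Finset.le_max' ((Finset.range m).filter fun j => z ∈ JO M m V S Y j) j
      (Finset.mem_filter.2 ⟨Finset.mem_range.2 h4, h5⟩)
    rw [← hj0] at this
    omega
  · rintro h t ht ⟨h1, _⟩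
    exact h t ht h1

/-- Transport of a chosen normal success: two points (two pairs) with the same events. -/
theorem JO_congr {V S Y V' S' Y' : ℕ → Set Z} {t j : ℕ} {z z' : Z} (hV : ∀ u, t ≤ u → u < m → (z ∈ V u ↔ z' ∈ V' u))
    (hS : z ∈ S j ↔ z' ∈ S' j) (hY : z ∈ Y j ↔ z' ∈ Y' j) (htj : t ≤ j) :
    z ∈ JO M m V S Y j ↔ z' ∈ JO M m V' S' Y' j := by
  unfold JO
  have e1 : z ∈ GD M m V j ↔ z' ∈ GD M m V' j := by
    unfold GD
    exact grd_congr fun u h1 h2 => hV u (htj.trans h1) h2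
  simp only [Set.mem_inter_iff, Set.mem_diff, e1, hS, hY]

/-- **INVARIANCE.** `z' = σ z`, the primed events are those of the partner of the pair. Only the scales `j ≥ t` enter, and of
`S` only `j = t` and `j ≥ t + M`. -/
theorem AO_inv {V S Y V' S' Y' : ℕ → Set Z} {t : ℕ} {z z' : Z} (hV : ∀ u, t ≤ u → u < m → (z ∈ V u ↔ z' ∈ V' u))
    (hS0 : z ∈ S t ↔ z' ∈ S' t) (hS : ∀ j, t + M ≤ j → j < m → (z ∈ S j ↔ z' ∈ S' j))
    (hY : ∀ j, t ≤ j → j < m → (z ∈ Y j ↔ z' ∈ Y' j)) : z ∈ AO M m V S Y t ↔ z' ∈ AO M m V' S' Y' t := by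
  by_cases ht : t < m
  · have e0 : z ∈ JO M m V S Y t ↔ z' ∈ JO M m V' S' Y' t := JO_congr hV hS0 (hY t le_rfl ht) le_rfl
    have eG : ∀ j, t ≤ j → (z ∈ GD M m V j ↔ z' ∈ GD M m V' j) := by
      intro j hj
      unfold GD
      exact grd_congr fun u h1 h2 => hV u (hj.trans h1) h2
    unfold AO
    simp only [Set.mem_ofPred_eq]
    rw [e0]
    refine and_congr_right fun h0 => forall_congr' fun j => forall_congr' fun h1 => forall_congr' fun h2 => ?_
    by_cases hj : t + M ≤ j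
    · exact not_congr (JO_congr hV (hS j hj h2) (hY j h1.le h2) h1.le)
    · -- nothing is chosen in `(t, t + M)`
      have g0 : z' ∈ GD M m V' t := h0.1
      have g1 : z ∈ GD M m V t := (eG t le_rfl).2 g0
      have n1 : z ∉ JO M m V S Y j := fun h => GD_sep g1 h1 (by omega) h.1
      have n2 : z' ∉ JO M m V' S' Y' j := fun h => GD_sep g0 h1 (by omega) h.1
      exact iff_of_true n1 n2
  · constructor
    · rintro ⟨h, _⟩
      exact absurd (JO_lt h) ht
    · rintro ⟨h, _⟩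
      exact absurd (JO_lt h) ht

/-- The pair form for an index family: `V`, `S`, `Y` indexed by the pair, `ρ` the partner, `σ` the exchange. -/
theorem AO_iff {ι : Type*} {V S Y : ι → ℕ → Set Z} {t : ℕ} {ρ : ι → ι} {σ : ι → Z → Z} {p : ι}
    (hV : ∀ u, t ≤ u → u < m → ∀ z, (z ∈ V p u ↔ σ p z ∈ V (ρ p) u))
    (hS0 : ∀ z, (z ∈ S p t ↔ σ p z ∈ S (ρ p) t)) (hS : ∀ j, t + M ≤ j → j < m → ∀ z, (z ∈ S p j ↔ σ p z ∈ S (ρ p) j))
    (hY : ∀ j, t ≤ j → j < m → ∀ z, (z ∈ Y p j ↔ σ p z ∈ Y (ρ p) j)) (z : Z) :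
    z ∈ AO M m (V p) (S p) (Y p) t ↔ σ p z ∈ AO M m (V (ρ p)) (S (ρ p)) (Y (ρ p)) t :=
  AO_inv (fun u h1 h2 => hV u h1 h2 z) (hS0 z) (fun j h1 h2 => hS j h1 h2 z) fun j h1 h2 => hY j h1 h2 z

open Classical in
/-- **THE FACTOR OF THE CHAIN.** -/
noncomputable def fo (M m : ℕ) (V S Y X : ℕ → Set Z) (c : ENNReal) (t : ℕ) (z : Z) : ENNReal :=
  (if z ∈ JO M m V S Y t then 0 else 1) *
    ((if z ∈ GD M m V t then 1 + c else 1) * (if z ∈ GD M m V t ∩ X t then (1 + c)⁻¹ else 1))

/-- The product over the scales `t, .., m - 1`. -/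
noncomputable def GO (M m : ℕ) (V S Y X : ℕ → Set Z) (c : ENNReal) (t : ℕ) (z : Z) : ENNReal :=
  ∏ j ∈ Finset.Ico t m, fo M m V S Y X c j z

open Classical in
/-- **A SUCCESS MAY SPOIL `k` BLOCKS.** `z` = an old normal filling, `z'` = a fresh one: further outside `z'` has the same usable
scales, `S` agrees from `t + M` on, `z'` may be more abnormal, `X` only `k` times (on the chosen scales). -/
theorem GO_spoil {V S Y X V' S' Y' X' : ℕ → Set Z} {c : ENNReal} {t k : ℕ} {z z' : Z} (hc : c ≠ ⊤)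
    (ht : z ∈ GD M m V t) (hV : ∀ u, t ≤ u → u < m → (z ∈ V u ↔ z' ∈ V' u))
    (hS : ∀ j, t + M ≤ j → j < m → (z ∈ S j ↔ z' ∈ S' j)) (hY : ∀ j, t + M ≤ j → j < m → z ∈ Y j → z' ∈ Y' j)
    (hk : ((Finset.Ico (t + 1) m).filter fun j => z' ∈ GD M m V' j ∩ X' j ∧ z ∉ GD M m V j ∩ X j).card ≤ k) :
    GO M m V S Y X c (t + 1) z ≤ (1 + c) ^ k * GO M m V' S' Y' X' c (t + 1) z' := by
  have hg0 : (1 + c) ≠ 0 := by simp
  have hg1 : (1 + c) ≠ ⊤ := ENNReal.add_ne_top.2 ⟨ENNReal.one_ne_top, hc⟩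
  have eG : ∀ j, t ≤ j → (z ∈ GD M m V j ↔ z' ∈ GD M m V' j) := by
    intro j hj
    unfold GD
    exact grd_congr fun u h1 h2 => hV u (hj.trans h1) h2
  have ht' : z' ∈ GD M m V' t := (eG t le_rfl).1 ht
  -- one factor
  have key : ∀ j ∈ Finset.Ico (t + 1) m, fo M m V S Y X c j z ≤
      (if z' ∈ GD M m V' j ∩ X' j ∧ z ∉ GD M m V j ∩ X j then 1 + c else 1) * fo M m V' S' Y' X' c j z' := by
    intro j hj
    obtain ⟨h1, h2⟩ := Finset.mem_Ico.1 hj
    have a1 : (if z ∈ JO M m V S Y j then (0 : ENNReal) else 1) ≤ if z' ∈ JO M m V' S' Y' j then 0 else 1 := by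
      by_cases hz' : z' ∈ JO M m V' S' Y' j
      · have hz : z ∈ JO M m V S Y j := by
          have g' : z' ∈ GD M m V' j := hz'.1
          have hjM : t + M ≤ j := by
            by_contra hcc
            exact GD_sep ht' (by omega) (by omega) g'
          exact ⟨(eG j (by omega)).2 g', (hS j hjM h2).2 hz'.2.1, fun hy => hz'.2.2 (hY j hjM h2 hy)⟩
        rw [if_pos hz, if_pos hz']
      · rw [if_neg hz']
        split_ifs <;> simp
    have a2 : (if z ∈ GD M m V j then 1 + c else 1) = if z' ∈ GD M m V' j then 1 + c else 1 := by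
      simp only [eG j (by omega)]
    have a3 : (if z ∈ GD M m V j ∩ X j then (1 + c)⁻¹ else 1) ≤
        (if z' ∈ GD M m V' j ∩ X' j ∧ z ∉ GD M m V j ∩ X j then 1 + c else 1) *
          (if z' ∈ GD M m V' j ∩ X' j then (1 + c)⁻¹ else 1) := by
      by_cases hx : z ∈ GD M m V j ∩ X j
      · rw [if_pos hx, if_neg (fun hh => hh.2 hx), one_mul]
        split_ifs
        · exact le_rfl
        · exact ENNReal.inv_le_one.2 le_self_add
      · by_cases hx' : z' ∈ GD M m V' j ∩ X' j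
        · rw [if_neg hx, if_pos ⟨hx', hx⟩, if_pos hx', ENNReal.mul_inv_cancel hg0 hg1]
        · rw [if_neg hx, if_neg (fun hh => hx' hh.1), if_neg hx', one_mul]
    unfold fo
    calc (if z ∈ JO M m V S Y j then (0 : ENNReal) else 1) *
          ((if z ∈ GD M m V j then 1 + c else 1) * (if z ∈ GD M m V j ∩ X j then (1 + c)⁻¹ else 1))
        ≤ (if z' ∈ JO M m V' S' Y' j then 0 else 1) * ((if z' ∈ GD M m V' j then 1 + c else 1) *
          ((if z' ∈ GD M m V' j ∩ X' j ∧ z ∉ GD M m V j ∩ X j then 1 + c else 1) *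
            (if z' ∈ GD M m V' j ∩ X' j then (1 + c)⁻¹ else 1))) := by
          rw [a2]
          gcongr
      _ = _ := by ring
  unfold GO
  calc ∏ j ∈ Finset.Ico (t + 1) m, fo M m V S Y X c j z
      ≤ ∏ j ∈ Finset.Ico (t + 1) m, ((if z' ∈ GD M m V' j ∩ X' j ∧ z ∉ GD M m V j ∩ X j then 1 + c else 1) *
        fo M m V' S' Y' X' c j z') := Finset.prod_le_prod' key
    _ = (1 + c) ^ ((Finset.Ico (t + 1) m).filter fun j => z' ∈ GD M m V' j ∩ X' j ∧ z ∉ GD M m V j ∩ X j).card *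
        ∏ j ∈ Finset.Ico (t + 1) m, fo M m V' S' Y' X' c j z' := by
          rw [Finset.prod_mul_distrib, Finset.prod_ite]
          simp only [Finset.prod_const, one_pow, mul_one]
    _ ≤ _ := by
          gcongr
          exact le_self_add

end Pool.Agent.W_7d29a1_C1.H77
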