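import Pool.Agent.W_7d29a1_C1.PdG9
import Pool.Agent.W_7d29a1_C1.Out77

/-!
Both halves (MP_7d29a1_pr), attractor route: THE EXCHANGE OF THE BOXES PRESERVES THE OUTERMOST CHOSEN SUCCESS. (helper9)

`(c, c')` = a pair of contacts, `(d, d')` = its partner for the exchange at the level `t` (region `A t` around the base points
`x t c`, `x' t c'` of the boxes). The events further outside do not see the exchanged region and depend on the boxes only; the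
inner half of the success and the levels inside the box are exchanged.
-/

set_option autoImplicit false

namespace Pool.Agent.W_7d29a1_C1.Pd9

open MeasureTheory ProbabilityTheory
open Pool.Agent.W_7d29a1_F Pool.Agent.W_7d29a1_C1.S71 Pool.Agent.W_7d29a1_C1.Sw9
open scoped ENNReal Classical

noncomputable section

/-- The region `A` around `p`. -/
def At (p : Pt) (A : Set Pt) : Set Pt := {q | q - p ∈ A}

/-- Outside of the region `A` around `p` the first copy is unchanged. -/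
theorem swc_fst_of_not {A : Set Pt} {p p' q : Pt} (hq : q ∉ At p A) (z : Env × Env) : (swc A p p' z).1 q = z.1 q := by
  have hq' : q - p ∉ A := hq
  have h1 : sh p (swc A p p' z).1 (q - p) = sh p z.1 (q - p) := by
    rw [c1_swc, gl_of_not_mem hq']
  have h2 : ∀ η : Env, sh p η (q - p) = η q := by
    intro η
    show η (q - p + p) = η q
    rw [sub_add_cancel]
  rwa [h2, h2] at h1

theorem swc_snd_of_not {A : Set Pt} {p p' q : Pt} (hq : q ∉ At p' A) (z : Env × Env) : (swc A p p' z).2 q = z.2 q := by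
  have hq' : q - p' ∉ A := hq
  have h1 : sh p' (swc A p p' z).2 (q - p') = sh p' z.2 (q - p') := by
    rw [c2_swc, gl_of_not_mem hq']
  have h2 : ∀ η : Env, sh p' η (q - p') = η q := by
    intro η
    show η (q - p' + p') = η q
    rw [sub_add_cancel]
  rwa [h2, h2] at h1

theorem out1 {β : Type*} {A : Set Pt} {p p' : Pt} {f : Env → β} (h : OffF (At p A) f) (z : Env × Env) :
    f (swc A p p' z).1 = f z.1 := h _ _ fun _ hq => swc_fst_of_not hq z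

theorem out2 {β : Type*} {A : Set Pt} {p p' : Pt} {f : Env → β} (h : OffF (At p' A) f) (z : Env × Env) :
    f (swc A p p' z).2 = f z.2 := h _ _ fun _ hq => swc_snd_of_not hq z

theorem outS1 {A : Set Pt} {p p' : Pt} {E : Set Env} (h : Off (At p A) E) (z : Env × Env) :
    (swc A p p' z).1 ∈ E ↔ z.1 ∈ E := h _ _ fun _ hq => swc_fst_of_not hq z

theorem outS2 {A : Set Pt} {p p' : Pt} {E : Set Env} (h : Off (At p' A) E) (z : Env × Env) :
    (swc A p p' z).2 ∈ E ↔ z.2 ∈ E := h _ _ fun _ hq => swc_snd_of_not hq z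

theorem inS1 {A : Set Pt} {I : Set Env} (h : Off Aᶜ I) (p p' : Pt) (z : Env × Env) :
    sh p (swc A p p' z).1 ∈ I ↔ sh p' z.2 ∈ I := iff_of_eq (in1 (Off.toF h) p p' z)

theorem inS2 {A : Set Pt} {I : Set Env} (h : Off Aᶜ I) (p p' : Pt) (z : Env × Env) :
    sh p' (swc A p p' z).2 ∈ I ↔ sh p z.1 ∈ I := iff_of_eq (in2 (Off.toF h) p p' z)

/-! ### Levels -/

/-- **THE RANGE OF A LEVEL, BOTH COPIES**: the levels of the slabs `v ≥ t` do not move, those of the slabs `v < t` are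
exchanged. -/
theorem lev9 {A : Set Pt} {p p' : Pt} {Y : Type*} {t v : ℕ} {f fd : Env → ℕ} {f' fd' : Env → ℕ}
    (ho : t ≤ v → OffF (At p A) f ∧ fd = f ∧ OffF (At p' A) f' ∧ fd' = f')
    (hi : v < t → ∃ (L : Y → Env → ℕ) (y y' : Y), (∀ a, OffF Aᶜ (L a)) ∧ (∀ η, f η = L y (sh p η)) ∧
      (∀ η, f' η = L y' (sh p' η)) ∧ (∀ η, fd η = L y' (sh p η)) ∧ (∀ η, fd' η = L y (sh p' η))) (z : Env × Env) :
    max (fd (swc A p p' z).1) (fd' (swc A p p' z).2) = max (f z.1) (f' z.2) := by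
  rcases Nat.lt_or_ge v t with h | h
  · obtain ⟨L, y, y', hL, e1, e2, e3, e4⟩ := hi h
    rw [e1, e2, e3, e4, in1 (hL y') p p' z, in2 (hL y) p p' z, max_comm]
  · obtain ⟨h1, h2, h3, h4⟩ := ho h
    rw [h2, h4, out1 h1, out2 h3]

/-! ### The data -/

/-- **THE DATA OF THE EXCHANGE AT THE LEVEL `t` FOR THE PAIR `(c, c')` WITH PARTNER `(d, d')`.** -/
structure InvD (m M t : ℕ) {ι ι' Y : Type*} (A : ℕ → Set Pt) (x : ℕ → ι → Pt) (x' : ℕ → ι' → Pt) (V So : ℕ → ι → Set Env)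
    (V' So' : ℕ → ι' → Set Env) (SI : ℕ → Set Env) (lv : ℕ → ι → Env → ℕ) (lv' : ℕ → ι' → Env → ℕ) (c d : ι) (c' d' : ι')
    (L : ℕ → Y → Env → ℕ) (ps : ℕ → ι → Y) (ps' : ℕ → ι' → Y) : Prop where
  xd : ∀ u, t ≤ u → x u d = x u c
  xd' : ∀ u, t ≤ u → x' u d' = x' u c'
  vO : ∀ u, t ≤ u → u < m → Off (At (x t c) (A t)) (V u c)
  vO' : ∀ u, t ≤ u → u < m → Off (At (x' t c') (A t)) (V' u c')
  vE : ∀ u, t ≤ u → u < m → V u d = V u c
  vE' : ∀ u, t ≤ u → u < m → V' u d' = V' u c'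
  sO : ∀ u, (u = t ∨ t + M ≤ u) → u < m → Off (At (x t c) (A t)) (So u c)
  sO' : ∀ u, (u = t ∨ t + M ≤ u) → u < m → Off (At (x' t c') (A t)) (So' u c')
  sE : ∀ u, (u = t ∨ t + M ≤ u) → u < m → So u d = So u c
  sE' : ∀ u, (u = t ∨ t + M ≤ u) → u < m → So' u d' = So' u c'
  iI : Off (A t)ᶜ (SI t)
  iO : ∀ u, t + M ≤ u → t < u → u < m → Off (At (x t c) (A t)) (sh (x u c) ⁻¹' SI u)
  iO' : ∀ u, t + M ≤ u → t < u → u < m → Off (At (x' t c') (A t)) (sh (x' u c') ⁻¹' SI u)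
  lO : ∀ v, t ≤ v → OffF (At (x t c) (A t)) (lv v c)
  lO' : ∀ v, t ≤ v → OffF (At (x' t c') (A t)) (lv' v c')
  lE : ∀ v, t ≤ v → lv v d = lv v c
  lE' : ∀ v, t ≤ v → lv' v d' = lv' v c'
  LI : ∀ v < t, ∀ y, OffF (A t)ᶜ (L v y)
  l1 : ∀ v < t, ∀ η, lv v c η = L v (ps v c) (sh (x t c) η)
  l2 : ∀ v < t, ∀ η, lv' v c' η = L v (ps' v c') (sh (x' t c') η)
  l3 : ∀ v < t, ∀ η, lv v d η = L v (ps v d) (sh (x t d) η)
  l4 : ∀ v < t, ∀ η, lv' v d' η = L v (ps' v d') (sh (x' t d') η)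
  pd : ∀ v < t, ps v d = ps' v c'
  pd' : ∀ v < t, ps' v d' = ps v c

/-- Usable for both. -/
def VV {ι ι' : Type*} (V : ℕ → ι → Set Env) (V' : ℕ → ι' → Set Env) (p : ι × ι') (u : ℕ) : Set (Env × Env) :=
  {z | z.1 ∈ V u p.1 ∧ z.2 ∈ V' u p.2}

/-- Success for both: outer and inner halves. -/
def SS {ι ι' : Type*} (x : ℕ → ι → Pt) (x' : ℕ → ι' → Pt) (So : ℕ → ι → Set Env) (So' : ℕ → ι' → Set Env) (SI : ℕ → Set Env)
    (p : ι × ι') (u : ℕ) : Set (Env × Env) :=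
  {z | (z.1 ∈ So u p.1 ∧ z.2 ∈ So' u p.2) ∧ (sh (x u p.1) z.1 ∈ SI u ∧ sh (x' u p.2) z.2 ∈ SI u)}

/-- The range of the slab `v`, both copies. -/
def rg {ι ι' : Type*} (lv : ℕ → ι → Env → ℕ) (lv' : ℕ → ι' → Env → ℕ) (p : ι × ι') (z : Env × Env) (v : ℕ) : ℕ :=
  max (lv v p.1 z.1) (lv' v p.2 z.2)

/-- An event of the ranges. -/
def YY {ι ι' : Type*} (lv : ℕ → ι → Env → ℕ) (lv' : ℕ → ι' → Env → ℕ) (Yf : ℕ → (ℕ → ℕ) → Prop) (p : ι × ι') (u : ℕ) :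
    Set (Env × Env) := {z | Yf u (rg lv lv' p z)}

section

variable {m M t : ℕ} {ι ι' Y : Type*} {A : ℕ → Set Pt} {x : ℕ → ι → Pt} {x' : ℕ → ι' → Pt} {V So : ℕ → ι → Set Env}
  {V' So' : ℕ → ι' → Set Env} {SI : ℕ → Set Env} {lv : ℕ → ι → Env → ℕ} {lv' : ℕ → ι' → Env → ℕ} {c d : ι} {c' d' : ι'}
  {L : ℕ → Y → Env → ℕ} {ps : ℕ → ι → Y} {ps' : ℕ → ι' → Y}

/-- **The ranges of all the slabs are invariant.** -/
theorem InvD.rg_inv (h : InvD m M t A x x' V So V' So' SI lv lv' c d c' d' L ps ps') (z : Env × Env) :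
    rg lv lv' (d, d') (swc (A t) (x t c) (x' t c') z) = rg lv lv' (c, c') z := by
  funext v
  refine lev9 (Y := Y) (t := t) (v := v) (fun hv => ⟨h.lO v hv, h.lE v hv, h.lO' v hv, h.lE' v hv⟩) (fun hv => ?_) z
  refine ⟨L v, ps v c, ps' v c', h.LI v hv, h.l1 v hv, h.l2 v hv, fun η => ?_, fun η => ?_⟩
  · rw [h.l3 v hv, h.pd v hv, h.xd t le_rfl]
  · rw [h.l4 v hv, h.pd' v hv, h.xd' t le_rfl]

theorem InvD.VV_inv (h : InvD m M t A x x' V So V' So' SI lv lv' c d c' d' L ps ps') {u : ℕ} (hu : t ≤ u) (hm : u < m)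
    (z : Env × Env) : z ∈ VV V V' (c, c') u ↔ swc (A t) (x t c) (x' t c') z ∈ VV V V' (d, d') u := by
  show (z.1 ∈ V u c ∧ z.2 ∈ V' u c') ↔ _
  show _ ↔ ((swc (A t) (x t c) (x' t c') z).1 ∈ V u d ∧ (swc (A t) (x t c) (x' t c') z).2 ∈ V' u d')
  rw [h.vE u hu hm, h.vE' u hu hm, outS1 (h.vO u hu hm), outS2 (h.vO' u hu hm)]

theorem InvD.SS_inv0 (h : InvD m M t A x x' V So V' So' SI lv lv' c d c' d' L ps ps') (hm : t < m) (z : Env × Env) :
    z ∈ SS x x' So So' SI (c, c') t ↔ swc (A t) (x t c) (x' t c') z ∈ SS x x' So So' SI (d, d') t := by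
  show ((z.1 ∈ So t c ∧ z.2 ∈ So' t c') ∧ (sh (x t c) z.1 ∈ SI t ∧ sh (x' t c') z.2 ∈ SI t)) ↔
    (((swc (A t) (x t c) (x' t c') z).1 ∈ So t d ∧ (swc (A t) (x t c) (x' t c') z).2 ∈ So' t d') ∧
      (sh (x t d) (swc (A t) (x t c) (x' t c') z).1 ∈ SI t ∧ sh (x' t d') (swc (A t) (x t c) (x' t c') z).2 ∈ SI t))
  rw [h.sE t (Or.inl rfl) hm, h.sE' t (Or.inl rfl) hm, outS1 (h.sO t (Or.inl rfl) hm), outS2 (h.sO' t (Or.inl rfl) hm),
    h.xd t le_rfl, h.xd' t le_rfl, inS1 h.iI, inS2 h.iI]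
  tauto

theorem InvD.SS_inv (h : InvD m M t A x x' V So V' So' SI lv lv' c d c' d' L ps ps') (hM : 0 < M) {u : ℕ} (hu : t + M ≤ u)
    (hm : u < m) (z : Env × Env) :
    z ∈ SS x x' So So' SI (c, c') u ↔ swc (A t) (x t c) (x' t c') z ∈ SS x x' So So' SI (d, d') u := by
  have htu : t < u := by omega
  show ((z.1 ∈ So u c ∧ z.2 ∈ So' u c') ∧ (sh (x u c) z.1 ∈ SI u ∧ sh (x' u c') z.2 ∈ SI u)) ↔
    (((swc (A t) (x t c) (x' t c') z).1 ∈ So u d ∧ (swc (A t) (x t c) (x' t c') z).2 ∈ So' u d') ∧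
      (sh (x u d) (swc (A t) (x t c) (x' t c') z).1 ∈ SI u ∧ sh (x' u d') (swc (A t) (x t c) (x' t c') z).2 ∈ SI u))
  have e1 : sh (x u c) (swc (A t) (x t c) (x' t c') z).1 ∈ SI u ↔ sh (x u c) z.1 ∈ SI u := outS1 (h.iO u hu htu hm) z
  have e2 : sh (x' u c') (swc (A t) (x t c) (x' t c') z).2 ∈ SI u ↔ sh (x' u c') z.2 ∈ SI u := outS2 (h.iO' u hu htu hm) z
  rw [h.sE u (Or.inr hu) hm, h.sE' u (Or.inr hu) hm, outS1 (h.sO u (Or.inr hu) hm), outS2 (h.sO' u (Or.inr hu) hm),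
    h.xd u htu.le, h.xd' u htu.le, e1, e2]

theorem InvD.YY_inv (h : InvD m M t A x x' V So V' So' SI lv lv' c d c' d' L ps ps') (Yf : ℕ → (ℕ → ℕ) → Prop) (u : ℕ)
    (z : Env × Env) : z ∈ YY lv lv' Yf (c, c') u ↔ swc (A t) (x t c) (x' t c') z ∈ YY lv lv' Yf (d, d') u := by
  show Yf u (rg lv lv' (c, c') z) ↔ Yf u (rg lv lv' (d, d') (swc (A t) (x t c) (x' t c') z))
  rw [h.rg_inv z]

/-- **THE OUTERMOST CHOSEN SUCCESS OF THE PAIR BECOMES THE ONE OF THE PARTNER.** -/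
theorem InvD.ao9 (h : InvD m M t A x x' V So V' So' SI lv lv' c d c' d' L ps ps') (hM : 0 < M) (hm : t < m)
    (Yf : ℕ → (ℕ → ℕ) → Prop) (z : Env × Env) :
    z ∈ H77.AO M m (VV V V' (c, c')) (SS x x' So So' SI (c, c')) (YY lv lv' Yf (c, c')) t ↔
      swc (A t) (x t c) (x' t c') z ∈
        H77.AO M m (VV V V' (d, d')) (SS x x' So So' SI (d, d')) (YY lv lv' Yf (d, d')) t :=
  H77.AO_inv (fun _ h1 h2 => h.VV_inv h1 h2 z) (h.SS_inv0 hm z) (fun _ h1 h2 => h.SS_inv hM h1 h2 z)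
    fun _ _ _ => h.YY_inv Yf _ z

end

end

end Pool.Agent.W_7d29a1_C1.Pd9
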