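import Pool.Agent.W_7d29a1_C1.HoneB74

/-!
Both halves (MP_7d29a1_pr), attractor route [C1]: H1 FOR ONE CONTACT, with the distance of the rows as a field. (helper74)

`SucN` : one row `k = c0 + K`, masses near `A1 F1 + A2 F2` and profile near `KK` times the inner profile in the sense of `K97.Nr`
(from `F74.nr74` or from any other route), amplitudes, regularity at the cut `q`. `SucN.ct`, `SucN.pt` : the contact functional and
the meeting weight are those of the inner system. `tpos` : the total of `nr74` is positive.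
-/

set_option autoImplicit false
set_option linter.unusedSectionVars false

namespace Pool.Agent.W_7d29a1_C1.H1c

open Finset MeasureTheory
open Pool.Agent.W_7d29a1_C1.K91 (lev lev' zs cut shw sum_shift)
open Pool.Agent.W_7d29a1_C1.K97
open Pool.Agent.W_7d29a1_C1.L91
open Pool.Agent.W_7d29a1_C1.K91P (fw bw shp bw_pos fw_comp bw_comp)
open Pool.Agent.W_7d29a1_C1.R26P
open Pool.Agent.W_7d29a1_C1.F74

noncomputable section

variable {w : ℕ → ℤ → ℝ} {p : ℕ → ℝ} {lo hi : ℤ} {c0 K J k : ℕ} {a1 a2 q : ℤ} {l r f : ℤ → ℝ}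
  {A1 A2 B1 B2 KK kap eta ρ R1 M : ℝ}

/-- The ratio of the totals of the two cells. -/
def rrn (pk ρ R1 : ℝ) : ℝ := (1 + pk) ^ 2 * ρ ^ 2 * R1 / min 1 pk

theorem rrn_one {pk : ℝ} (hp : 0 < pk) (hρ : 1 ≤ ρ) (h1 : 1 ≤ R1) : 1 ≤ rrn pk ρ R1 := by
  have mp : 0 < min 1 pk := lt_min one_pos hp
  unfold rrn
  rw [le_div_iff₀ mp, one_mul]
  have h2 : min 1 pk ≤ 1 := min_le_left _ _
  have h3 : 1 ≤ (1 + pk) ^ 2 := by nlinarith
  have h4 : 1 ≤ ρ ^ 2 := by nlinarith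
  have h5 : 1 * 1 ≤ (1 + pk) ^ 2 * ρ ^ 2 := mul_le_mul h3 h4 zero_le_one (by linarith)
  have h6 : 1 * 1 ≤ (1 + pk) ^ 2 * ρ ^ 2 * R1 := mul_le_mul (by linarith) h1 zero_le_one (by linarith)
  linarith

/-- The mass of one start is positive. -/
theorem upos (hw : ∀ k y, 0 < w k y) (hp : ∀ k, 0 < p k) {f' : ℤ → ℝ} (hf : ∀ y, 0 < f' y) {a : ℤ} (ha : a ∈ Icc lo hi) :
    0 < U lo hi (w k) (kf w p c0 K a) f' := by
  have t : 0 < w k a * (kf w p c0 K a a * f' a) := mul_pos (hw k a) (mul_pos (kf_pos hw hp c0 K le_rfl (by omega)) (hf a))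
  refine t.trans_le ?_
  unfold U
  exact single_le_sum (f := fun y => w k y * (kf w p c0 K a y * f' y))
    (fun y _ => mul_nonneg (hw k y).le (mul_nonneg (kf_nonneg hw hp _ _ _ _) (hf y).le)) ha

/-- **The total of a model row is positive.** -/
theorem tpos (hw : ∀ k y, 0 < w k y) (hp : ∀ k, 0 < p k) {f' : ℤ → ℝ} (hf : ∀ y, 0 < f' y) (h1 : a1 ∈ Icc lo hi)
    (h2 : a2 ∈ Icc lo hi) {C1 C2 : ℝ} (c1 : 0 < C1) (c2 : 0 < C2) :
    0 < min 1 (p k) * U lo hi (w k) (fun y => C1 * kf w p c0 K a1 y + C2 * kf w p c0 K a2 y) f' := by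
  refine mul_pos (lt_min one_pos (hp k)) ?_
  have e : U lo hi (w k) (fun y => C1 * kf w p c0 K a1 y + C2 * kf w p c0 K a2 y) f' =
      C1 * U lo hi (w k) (kf w p c0 K a1) f' + C2 * U lo hi (w k) (kf w p c0 K a2) f' := by
    unfold U
    rw [mul_sum, mul_sum, ← sum_add_distrib]
    exact sum_congr rfl fun y _ => by ring
  rw [e]
  have := mul_pos c1 (upos (k := k) (c0 := c0) (K := K) hw hp hf h1)
  have := mul_pos c2 (upos (k := k) (c0 := c0) (K := K) hw hp hf h2)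
  linarith

/-- **One row near the model.** `f` = real profile above the row `k`, `J` = number of inner rows above the row `k + 1`. -/
structure SucN (w : ℕ → ℤ → ℝ) (p : ℕ → ℝ) (lo hi : ℤ) (l r : ℤ → ℝ) (c0 K J k : ℕ) (f : ℤ → ℝ) (a1 a2 q : ℤ)
    (A1 A2 B1 B2 KK kap eta ρ R1 M : ℝ) : Prop where
  hk : k = c0 + K
  g1 : lo ≤ a1
  g2 : a1 < a2
  g3 : a2 + K < hi
  A1p : 0 < A1
  A2p : 0 < A2
  B1p : 0 < B1
  B2p : 0 < B2
  KKp : 0 < KK
  f0 : ∀ y, 0 < f y
  G : Reg lo hi (w k) f q kap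
  G' : Reg lo hi (w k) (bw w p (k + 1) J) q kap
  eta0 : 0 ≤ eta
  e1 : (1 + p k) * eta ≤ 1 / 2
  nl : ∃ T, 0 < T ∧ Nr lo hi (p k) (w k) (fw w p l k) f (fun y => A1 * kf w p c0 K a1 y + A2 * kf w p c0 K a2 y)
    (fun y => KK * bw w p (k + 1) J y) q eta T
  nr : ∃ T, 0 < T ∧ Nr lo hi (p k) (w k) (fw w p r k) f (fun y => B1 * kf w p c0 K a1 y + B2 * kf w p c0 K a2 y)
    (fun y => KK * bw w p (k + 1) J y) q eta T
  ρ1 : 1 ≤ ρ
  ri : ∀ y ∈ Icc lo hi, bw w p (k + 1) J (y - 1) ≤ ρ * bw w p (k + 1) J y ∧ bw w p (k + 1) J (y + 1) ≤ ρ * bw w p (k + 1) J y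
  r1 : 1 ≤ R1
  t12 : bw w p c0 (K + (J + 1)) a1 ≤ R1 * bw w p c0 (K + (J + 1)) a2
  t21 : bw w p c0 (K + (J + 1)) a2 ≤ R1 * bw w p c0 (K + (J + 1)) a1
  w1 : Real.log (B1 / B2) ≤ -(M + 1)
  w2 : M + 1 ≤ Real.log (A1 / A2)
  hM : Real.log (rrn (p k) ρ R1) + 1 ≤ M

/-- The total of one start, inner system. -/
theorem tot_n {a : ℤ} (N : ℕ) (h1 : lo ≤ a) (h2 : a + K < hi) :
    ∑ y ∈ Icc lo hi, w (c0 + K) y * (kf w p c0 K a y * (bw w p (c0 + K + 1) N y + p (c0 + K) * bw w p (c0 + K + 1) N (y + 1))) =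
      bw w p c0 (K + (N + 1)) a := by
  rw [ev_total (w := w) (p := p) c0 K (N + 1) (a := a) (lo := lo) (hi := hi) h1 h2.le]
  refine sum_congr rfl fun y _ => ?_
  rw [K91P.bw_succ]
  ring

/-- **The cell.** -/
theorem SucN.cell (hw : ∀ k y, 0 < w k y) (hp : ∀ k, 0 < p k)
    (S : SucN w p lo hi l r c0 K J k f a1 a2 q A1 A2 B1 B2 KK kap eta ρ R1 M) :
    Cell lo hi A1 A2 B1 B2 kap eta (rrn (p k) ρ R1) (p k) (w k) f (fun y => KK * bw w p (k + 1) J y) (fw w p l k) (fw w p r k)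
      (kf w p c0 K a1) (kf w p c0 K a2) q := by
  obtain ⟨hk, g1, g2, g3, A1p, A2p, B1p, B2p, K0, f0, G, G', eta0, e1, nl, nr, ρ1, ri, r1, t12, t21, w1, w2, hM⟩ := S
  subst hk
  have hKz : (0 : ℤ) ≤ (K : ℤ) := by positivity
  have hlh : lo ≤ hi := by omega
  have pk := hp (c0 + K)
  have wk := hw (c0 + K)
  have mp : 0 < min 1 (p (c0 + K)) := lt_min one_pos pk
  have i0 : ∀ y, 0 < bw w p (c0 + K + 1) J y := fun y => bw_pos hw hp _ _ y
  have f0' : ∀ y, 0 < KK * bw w p (c0 + K + 1) J y := fun y => mul_pos K0 (i0 y)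
  have k1 : ∀ y, 0 ≤ kf w p c0 K a1 y := fun y => kf_nonneg hw hp _ _ _ _
  have k2 : ∀ y, 0 ≤ kf w p c0 K a2 y := fun y => kf_nonneg hw hp _ _ _ _
  have rf : ∀ y ∈ Icc lo hi, KK * bw w p (c0 + K + 1) J (y - 1) ≤ ρ * (KK * bw w p (c0 + K + 1) J y) ∧
      KK * bw w p (c0 + K + 1) J (y + 1) ≤ ρ * (KK * bw w p (c0 + K + 1) J y) := by
    intro y hy
    have r := ri y hy
    constructor
    · have := mul_le_mul_of_nonneg_left r.1 K0.le
      linarith
    · have := mul_le_mul_of_nonneg_left r.2 K0.le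
      linarith
  have z1l : kf w p c0 K a1 (lo - 1) = 0 := kf_zero c0 K (by omega)
  have z2l : kf w p c0 K a2 (lo - 1) = 0 := kf_zero c0 K (by omega)
  have z1h : kf w p c0 K a1 hi = 0 := kf_zero c0 K (by omega)
  have z2h : kf w p c0 K a2 hi = 0 := kf_zero c0 K (by omega)
  have U1 := upos (k := c0 + K) (c0 := c0) (K := K) (lo := lo) (hi := hi) (a := a1) hw hp f0' (by rw [mem_Icc]; omega)
  have U2 := upos (k := c0 + K) (c0 := c0) (K := K) (lo := lo) (hi := hi) (a := a2) hw hp f0' (by rw [mem_Icc]; omega)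
  have ti1 := tot_n (w := w) (p := p) (c0 := c0) (K := K) (lo := lo) (hi := hi) (a := a1) J g1 (by omega)
  have ti2 := tot_n (w := w) (p := p) (c0 := c0) (K := K) (lo := lo) (hi := hi) (a := a2) J (by omega) g3
  have up : ∀ a : ℤ, U lo hi (w (c0 + K)) (kf w p c0 K a) (fun y => KK * bw w p (c0 + K + 1) J y) ≤
      KK * ∑ y ∈ Icc lo hi, w (c0 + K) y * (kf w p c0 K a y *
      (bw w p (c0 + K + 1) J y + p (c0 + K) * bw w p (c0 + K + 1) J (y + 1))) := by
    intro a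
    unfold U
    rw [mul_sum]
    refine sum_le_sum fun y _ => ?_
    have h1 : 0 ≤ KK * (w (c0 + K) y * (kf w p c0 K a y * (p (c0 + K) * bw w p (c0 + K + 1) J (y + 1)))) :=
      mul_nonneg K0.le (mul_nonneg (wk y).le (mul_nonneg (kf_nonneg hw hp _ _ _ _) (mul_nonneg pk.le (i0 _).le)))
    linarith
  have dn : ∀ a : ℤ, KK * ∑ y ∈ Icc lo hi, w (c0 + K) y * (kf w p c0 K a y *
      (bw w p (c0 + K + 1) J y + p (c0 + K) * bw w p (c0 + K + 1) J (y + 1))) ≤
      (1 + p (c0 + K) * ρ) * U lo hi (w (c0 + K)) (kf w p c0 K a) (fun y => KK * bw w p (c0 + K + 1) J y) := by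
    intro a
    have s := step_le (lo := lo) (hi := hi) (wk := w (c0 + K)) (m := kf w p c0 K a)
      (f := fun y => KK * bw w p (c0 + K + 1) J y) (ρ := ρ) wk (fun y => kf_nonneg hw hp _ _ _ _) pk fun y hy => (rf y hy).2
    refine le_trans (le_of_eq ?_) s
    rw [mul_sum]
    refine sum_congr rfl fun y _ => ?_
    ring
  have P1 : 1 + p (c0 + K) * ρ ≤ (1 + p (c0 + K)) * ρ := by linarith
  have R0 : 0 < R1 := by linarith
  have rat : ∀ a a' : ℤ, (∑ y ∈ Icc lo hi, w (c0 + K) y * (kf w p c0 K a y *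
      (bw w p (c0 + K + 1) J y + p (c0 + K) * bw w p (c0 + K + 1) J (y + 1)))) ≤
      R1 * (∑ y ∈ Icc lo hi, w (c0 + K) y * (kf w p c0 K a' y *
      (bw w p (c0 + K + 1) J y + p (c0 + K) * bw w p (c0 + K + 1) J (y + 1)))) →
      0 ≤ U lo hi (w (c0 + K)) (kf w p c0 K a') (fun y => KK * bw w p (c0 + K + 1) J y) →
      (1 + p (c0 + K)) * ρ * U lo hi (w (c0 + K)) (kf w p c0 K a) (fun y => KK * bw w p (c0 + K + 1) J y) ≤
      rrn (p (c0 + K)) ρ R1 * (min 1 (p (c0 + K)) *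
        U lo hi (w (c0 + K)) (kf w p c0 K a') (fun y => KK * bw w p (c0 + K + 1) J y)) := by
    intro a a' h u0
    have h1 := up a
    have h2 := dn a'
    have h3 := mul_le_mul_of_nonneg_left h K0.le
    have h4 : U lo hi (w (c0 + K)) (kf w p c0 K a) (fun y => KK * bw w p (c0 + K + 1) J y) ≤
        R1 * ((1 + p (c0 + K)) * ρ * U lo hi (w (c0 + K)) (kf w p c0 K a') (fun y => KK * bw w p (c0 + K + 1) J y)) := by
      have h5 := mul_le_mul_of_nonneg_left h2 R0.le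
      have h6 := mul_le_mul_of_nonneg_left (mul_le_mul_of_nonneg_right P1 u0) R0.le
      linarith
    have h7 : 0 ≤ (1 + p (c0 + K)) * ρ := by positivity
    have h8 := mul_le_mul_of_nonneg_left h4 h7
    refine h8.trans (le_of_eq ?_)
    unfold rrn
    field_simp
  have q12 := rat a1 a2 (by rw [ti1, ti2]; exact t12) U2.le
  have q21 := rat a2 a1 (by rw [ti1, ti2]; exact t21) U1.le
  have lo1 := tot_le (q := q) pk wk k1 f0' hlh z1l z1h
  have lo2 := tot_le (q := q) pk wk k2 f0' hlh z2l z2h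
  have hi1 := tot_ge pk wk k1 f0' hlh ρ1 rf z1l z1h q
  have hi2 := tot_ge pk wk k2 f0' hlh ρ1 rf z2l z2h q
  have lp1 := mul_pos mp U1
  have lp2 := mul_pos mp U2
  have rr1 := rrn_one pk ρ1 r1
  have rr0 : 0 ≤ rrn (p (c0 + K)) ρ R1 := by linarith
  exact
    { p0 := pk
      w0 := wk
      f0 := f0
      f0' := f0'
      g1 := k1
      g2 := k2
      R := G
      R' := ⟨G'.k1, G'.q1, G'.q2, G'.wl, G'.wr, G'.wl2, G'.wr2, by
        show KK * bw w p (c0 + K + 1) J (q - 1) ≤ kap * (KK * bw w p (c0 + K + 1) J q)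
        have := mul_le_mul_of_nonneg_left G'.fl K0.le
        linarith, by
        show KK * bw w p (c0 + K + 1) J q ≤ kap * (KK * bw w p (c0 + K + 1) J (q - 1))
        have := mul_le_mul_of_nonneg_left G'.fr K0.le
        linarith⟩
      e0 := eta0
      e1 := e1
      nl := nl
      nr := nr
      r0 := rr0
      z1 := lp1.trans_le lo1.1
      z2 := lp2.trans_le lo2.1
      z12 := hi1.1.trans (q12.trans (mul_le_mul_of_nonneg_left lo2.1 rr0))
      z21 := hi2.1.trans (q21.trans (mul_le_mul_of_nonneg_left lo1.1 rr0))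
      t1 := lp1.trans_le lo1.2.1
      t2 := lp2.trans_le lo2.2.1
      t12 := hi1.2.1.trans (q12.trans (mul_le_mul_of_nonneg_left lo2.2.1 rr0))
      t21 := hi2.2.1.trans (q21.trans (mul_le_mul_of_nonneg_left lo1.2.1 rr0))
      m1 := lp1.trans_le lo1.2.2
      m2 := lp2.trans_le lo2.2.2
      m12 := hi1.2.2.trans (q12.trans (mul_le_mul_of_nonneg_left lo2.2.2 rr0))
      m21 := hi2.2.2.trans (q21.trans (mul_le_mul_of_nonneg_left lo1.2.2 rr0)) }

/-- The inner contact functional, in any box. -/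
theorem fin_n (g1 : lo ≤ a1) (g2 : a1 < a2) (g3 : a2 + K < hi) (hk : k = c0 + K) (N : ℕ) (q : ℤ) :
    Cc lo hi (p k) (w k) (kf w p c0 K a1) (kf w p c0 K a2) (bw w p (k + 1) N) q =
      Fin (shw w c0) (shp p c0) K N a1 a2 q := by
  subst hk
  unfold Fin
  have e1 : bw w p (c0 + K + 1) N = bw (shw w c0) (shp p c0) (K + 1) N := by
    funext y
    exact bw_comp c0 N (K + 1) y
  rw [e1]
  exact cc_box (sup_sg g1 (by omega)) (sup_sg (by omega) (by omega)) (sup_sg le_rfl (by omega)) (sup_sg (by omega) (by omega))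

theorem win_n (g1 : lo ≤ a1) (g2 : a1 < a2) (g3 : a2 + K < hi) (hk : k = c0 + K) (N : ℕ) (q : ℤ) :
    mw lo hi (p k) (w k) (kf w p c0 K a1) (kf w p c0 K a2) (bw w p (k + 1) N) q =
      Win (shw w c0) (shp p c0) K N a1 a2 q := by
  subst hk
  unfold Win
  have e1 : bw w p (c0 + K + 1) N = bw (shw w c0) (shp p c0) (K + 1) N := by
    funext y
    exact bw_comp c0 N (K + 1) y
  rw [e1]
  exact mw_box (sup_sg g1 (by omega)) (sup_sg (by omega) (by omega)) (sup_sg le_rfl (by omega)) (sup_sg (by omega) (by omega))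

/-- **H1 for one contact, contact functional.** -/
theorem SucN.ct {κ κ' : ℝ} (hw : ∀ k y, 0 < w k y) (hp : ∀ k, 0 < p k)
    (S : SucN w p lo hi l r c0 K J k f a1 a2 q A1 A2 B1 B2 KK kap eta ρ R1 M)
    (C : Cutd lo hi (p k) (w k) (fw w p l k) (fw w p r k) f q κ κ') :
    |Cc lo hi (p k) (w k) (fw w p l k) (fw w p r k) f q - Fin (shw w c0) (shp p c0) K J a1 a2 q| ≤
      2 * (M + 1) * (176 * (1 + p k) * kap ^ 8 * eta) + 12 * kap ^ 8 * rrn (p k) ρ R1 * Real.exp (-M) +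
        6 * (Kl (p k) κ κ' * p k) * rrn (p k) ρ R1 * Real.exp (-M) := by
  have key := hone_ct S.A1p S.A2p S.B1p S.B2p (S.cell hw hp) C (rrn_one (hp _) S.ρ1 S.r1) S.w1 S.w2 S.hM
  have e : Cc lo hi (p k) (w k) (kf w p c0 K a1) (kf w p c0 K a2) (fun y => KK * bw w p (k + 1) J y) q =
      Fin (shw w c0) (shp p c0) K J a1 a2 q := by
    rw [← fin_n S.g1 S.g2 S.g3 S.hk J q]
    exact cc_fsmul S.KKp
  rw [e] at key
  exact key

/-- **H1 for one contact, first meeting.** -/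
theorem SucN.pt {κ κ' : ℝ} (hw : ∀ k y, 0 < w k y) (hp : ∀ k, 0 < p k)
    (S : SucN w p lo hi l r c0 K J k f a1 a2 q A1 A2 B1 B2 KK kap eta ρ R1 M)
    (C : Cutd lo hi (p k) (w k) (fw w p l k) (fw w p r k) f q κ κ') :
    |mw lo hi (p k) (w k) (fw w p l k) (fw w p r k) f q - Win (shw w c0) (shp p c0) K J a1 a2 q| ≤
      2 * (M + 1) * (16 * (1 + p k) * eta) + 8 * rrn (p k) ρ R1 * Real.exp (-M) + 6 * rrn (p k) ρ R1 * Real.exp (-M) := by
  have key := hone_pt S.A1p S.A2p S.B1p S.B2p (S.cell hw hp) C (rrn_one (hp _) S.ρ1 S.r1) S.w1 S.w2 S.hM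
  have e : mw lo hi (p k) (w k) (kf w p c0 K a1) (kf w p c0 K a2) (fun y => KK * bw w p (k + 1) J y) q =
      Win (shw w c0) (shp p c0) K J a1 a2 q := by
    rw [← win_n S.g1 S.g2 S.g3 S.hk J q]
    exact mw_fsmul S.KKp
  rw [e] at key
  exact key

end

end Pool.Agent.W_7d29a1_C1.H1c
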