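import Pool.Agent.W_7d29a1_C1.Phi74
import Pool.Agent.W_7d29a1_C1.HoneN74

/-!
Both halves (MP_7d29a1_pr), attractor route [C1]: H1 FOR THE TOTAL CONTACT FUNCTIONAL OF A CONTEXT, general form. (helper74)

`SucT` : all contacts of the middle rows `c0 + K`, `n1 ≤ K < D'`, are near their inner values (`D'` is free, `D' ≤ D`).
`phiT74` : the total contact functional is `FPh` of the inside. `nearN_C`, `nearN_w` : one contact from `SucN`.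
-/

set_option autoImplicit false
set_option linter.unusedSectionVars false

namespace Pool.Agent.W_7d29a1_C1.H1c

open Finset MeasureTheory
open Pool.Agent.W_7d29a1_F
open Pool.Agent.W_7d29a1_C1.K91 (shw Box Grp wt wt_pos zs)
open Pool.Agent.W_7d29a1_C1.K97
open Pool.Agent.W_7d29a1_C1.L91
open Pool.Agent.W_7d29a1_C1.K91P (fw bw shp bw_pos dp GG)
open Pool.Agent.W_7d29a1_C1.R26P
open Pool.Agent.W_7d29a1_C1.F74
open Pool.Agent.W_7d29a1_C1.H60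
open Pool.Agent.W_7d29a1_C1.H60.Cx (l uc mem_rows)

noncomputable section

variable {Γ : Cx} {η : Env} {c0 n1 D' D K : ℕ} {a1 a2 : ℤ} {A1 A2 B1 B2 KK kap eta ρ R1 M : ℝ}

/-- **One contact from `SucN`**, contact functional: inner rows `c0 .. c0 + D`, contact row `c0 + K`. -/
theorem nearN_C (h : Γ.Ok) (η : Env) (hK : K < D) (hD : c0 + D ≤ Γ.N) {x : ℤ} (hx : x ∈ Icc (1 : ℤ) (1 + Γ.N)) {u X : ℝ}
    (hu : uc (c0 + K, x) η ≤ u) (hX : Nb Γ η (c0 + K) X)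
    (S : SucN (wt η) Γ.p 0 Γ.hi l Γ.r c0 K (D - (K + 1)) (c0 + K) (fC Γ η (c0 + K)) a1 a2 x A1 A2 B1 B2 KK kap eta ρ R1 M) :
    |Γ.C (c0 + K, x) η - Fin (shw (wt η) c0) (shp Γ.p c0) K (D - (K + 1)) a1 a2 x| ≤
      ect (Γ.p (c0 + K)) kap eta (rrn (Γ.p (c0 + K)) ρ R1) (KC Γ (c0 + K) u X) M := by
  have hi : c0 + K < Γ.N := by omega
  have hxx := mem_Icc.1 hx
  have hk' : (1 : ℤ) ≤ Γ.k := by exact_mod_cast h.k1
  have hf := hX.f x (mem_Icc.2 ⟨hxx.1, by unfold Cx.hi; omega⟩)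
  rw [C_eq h.msk η hi hx]
  exact S.ct (wt_pos η) L91.p_pos (cutdC h.msk η hi hx hu hf)

/-- **One contact from `SucN`**, natural weight. -/
theorem nearN_w (h : Γ.Ok) (η : Env) (hK : K < D) (hD : c0 + D ≤ Γ.N) {x : ℤ} (hx : x ∈ Icc (1 : ℤ) (1 + Γ.N))
    (S : SucN (wt η) Γ.p 0 Γ.hi l Γ.r c0 K (D - (K + 1)) (c0 + K) (fC Γ η (c0 + K)) a1 a2 x A1 A2 B1 B2 KK kap eta ρ R1 M) :
    |Γ.w (c0 + K, x) η - Win (shw (wt η) c0) (shp Γ.p c0) K (D - (K + 1)) a1 a2 x| ≤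
      ept (Γ.p (c0 + K)) eta (rrn (Γ.p (c0 + K)) ρ R1) M := by
  have hi : c0 + K < Γ.N := by omega
  rw [w_eq h η hi x]
  exact S.pt (wt_pos η) L91.p_pos (cutdC h.msk η hi hx le_rfl le_rfl)

/-- **All contacts of the middle rows are near their inner values.** -/
structure SucT (Γ : Cx) (η : Env) (c0 n1 D' D : ℕ) (a1 a2 : ℤ) (τ τ' : ℝ) : Prop where
  hn : n1 ≤ D'
  hD : D' ≤ D
  hN : c0 + D ≤ Γ.N
  g1 : 0 ≤ a1
  g2 : a1 < a2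
  g3 : a2 ≤ c0
  C : ∀ K, n1 ≤ K → K < D' → ∀ x ∈ Icc (1 : ℤ) (1 + Γ.N),
    |Γ.C (c0 + K, x) η - Fin (shw (wt η) c0) (shp Γ.p c0) K (D - (K + 1)) a1 a2 x| ≤ τ
  w : ∀ K, n1 ≤ K → K < D' → ∀ x ∈ Icc (1 : ℤ) (1 + Γ.N),
    |Γ.w (c0 + K, x) η - Win (shw (wt η) c0) (shp Γ.p c0) K (D - (K + 1)) a1 a2 x| ≤ τ'

/-- `SucT` from `SucN` at all middle contacts (the parameters may depend on the contact). -/
theorem SucT.of (h : Γ.Ok) (hn : n1 ≤ D') (hD : D' ≤ D) (hN : c0 + D ≤ Γ.N) (g1 : 0 ≤ a1) (g2 : a1 < a2) (g3 : a2 ≤ c0)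
    {u X τ τ' : ℝ} (hX : ∀ K, n1 ≤ K → K < D' → Nb Γ η (c0 + K) X)
    (hu : ∀ K, n1 ≤ K → K < D' → ∀ x ∈ Icc (1 : ℤ) (1 + Γ.N), uc (c0 + K, x) η ≤ u)
    (S : ∀ K, n1 ≤ K → K < D' → ∀ x ∈ Icc (1 : ℤ) (1 + Γ.N), ∃ A1 A2 B1 B2 KK kap eta ρ R1 M : ℝ,
      SucN (wt η) Γ.p 0 Γ.hi l Γ.r c0 K (D - (K + 1)) (c0 + K) (fC Γ η (c0 + K)) a1 a2 x A1 A2 B1 B2 KK kap eta ρ R1 M ∧
      ect (Γ.p (c0 + K)) kap eta (rrn (Γ.p (c0 + K)) ρ R1) (KC Γ (c0 + K) u X) M ≤ τ ∧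
      ept (Γ.p (c0 + K)) eta (rrn (Γ.p (c0 + K)) ρ R1) M ≤ τ') :
    SucT Γ η c0 n1 D' D a1 a2 τ τ' where
  hn := hn
  hD := hD
  hN := hN
  g1 := g1
  g2 := g2
  g3 := g3
  C := fun K h1 h2 x hx => by
    obtain ⟨A1, A2, B1, B2, KK, kap, eta, ρ, R1, M, s, t, _⟩ := S K h1 h2 x hx
    exact (nearN_C h η (by omega) hN hx (hu K h1 h2 x hx) (hX K h1 h2) s).trans t
  w := fun K h1 h2 x hx => by
    obtain ⟨A1, A2, B1, B2, KK, kap, eta, ρ, R1, M, s, _, t⟩ := S K h1 h2 x hx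
    exact (nearN_w h η (by omega) hN hx s).trans t

/-- **The size of a contact against its natural weight.** -/
theorem abs_C_le_w (h : Γ.Ok) (η : Env) {u X Kr : ℝ} (hX : ∀ i < Γ.N, Nb Γ η i X) (hu : ∀ c ∈ Γ.rows 0 Γ.N, uc c η ≤ u)
    (hKr : ∀ i < Γ.N, KC Γ i u X * ((Real.exp X + Γ.p i) ^ 2 * Real.exp (2 * X)) ≤ Kr) {i : ℕ} (hi : i < Γ.N) {x : ℤ}
    (hx : x ∈ Icc (1 : ℤ) (1 + Γ.N)) : |Γ.C (i, x) η| ≤ Kr * Γ.w (i, x) η := by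
  have hmem : (i, x) ∈ Γ.rows 0 Γ.N := by
    rw [mem_rows]
    exact ⟨⟨Nat.zero_le _, hi⟩, mem_Icc.1 hx⟩
  have u0 : 0 ≤ u := (abs_nonneg _).trans (hu _ hmem)
  have X0 := (hX i hi).X0
  have K0 : 0 ≤ KC Γ i u X := Kl_nonneg (L91.p_pos i) (Real.one_le_exp u0) (Real.one_le_exp X0)
  have hxx := mem_Icc.1 hx
  have hk' : (1 : ℤ) ≤ Γ.k := by exact_mod_cast h.k1
  have hf := (hX i hi).f x (mem_Icc.2 ⟨hxx.1, by unfold Cx.hi; omega⟩)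
  have b1 := L91.abs_C_le h.msk η hi hx (hu _ hmem) hf
  have b2 := ws_le_w h η hi hx (hX i hi)
  have b3 := Cx.w_nonneg h (i, x) η
  have b4 := mul_le_mul_of_nonneg_left b2 K0
  have b5 := mul_le_mul_of_nonneg_right (hKr i hi) b3
  linarith

/-- **H1 FOR THE TOTAL CONTACT FUNCTIONAL**, `D'` free. -/
theorem phiT74 (h : Γ.Ok) {u X τ τ' t Kr : ℝ} (S : SucT Γ η c0 n1 D' D a1 a2 τ τ')
    (hX : ∀ i < Γ.N, Nb Γ η i X) (hu : ∀ c ∈ Γ.rows 0 Γ.N, uc c η ≤ u)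
    (hKr : ∀ i < Γ.N, KC Γ i u X * ((Real.exp X + Γ.p i) ^ 2 * Real.exp (2 * X)) ≤ Kr) (hKr0 : 0 ≤ Kr)
    (mt : 1 - t ≤ Mtp (shw (wt η) c0) (shp Γ.p c0) n1 D' D a1 a2) :
    |Γ.Phi 0 Γ.N η - FPh (shw (wt η) c0) (shp Γ.p c0) n1 D' D a1 a2| ≤
      (D' - n1 : ℕ) * ((Γ.N + 1 : ℕ) * τ) + Kr * (t + (D' - n1 : ℕ) * ((Γ.N + 1 : ℕ) * τ')) := by
  have hn := S.hn
  have hD := S.hD
  have hN := S.hN
  have g1 := S.g1
  have g2 := S.g2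
  have g3 := S.g3
  have eC : ∑ k ∈ range Γ.N, ∑ q ∈ Icc (1 : ℤ) (1 + Γ.N), Γ.C (k, q) η = Γ.Phi 0 Γ.N η := by
    unfold Cx.Phi Cx.rows
    rw [sum_product, ← range_eq_Ico]
  have eW : ∑ k ∈ range Γ.N, ∑ q ∈ Icc (1 : ℤ) (1 + Γ.N), Γ.w (k, q) η ≤ 1 := by
    have := Cx.sum_w_le h η 0 Γ.N le_rfl
    unfold Cx.rows at this
    rw [sum_product, ← range_eq_Ico] at this
    exact this
  have key := phi_close (W := shw (wt η) c0) (P := shp Γ.p c0) (N := Γ.N) (c0 := c0) (n1 := n1) (D' := D') (D := D) (qa := 1)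
    (qb := 1 + Γ.N) (a1 := a1) (a2 := a2) (C := fun k q => Γ.C (k, q) η) (wc := fun k q => Γ.w (k, q) η) (τ := τ) (τ' := τ')
    (t := t) (Kr := Kr) g2.le hn (by omega) (by omega) (by omega) hKr0 eW
    (fun k q hk hq => abs_C_le_w h η hX hu hKr hk hq) (fun K h1 h2 x hx => S.C K h1 h2 x hx)
    (fun K h1 h2 x hx => S.w K h1 h2 x hx) mt
  rw [eC] at key
  have e : (1 + (Γ.N : ℤ) + 1 - 1).toNat = Γ.N + 1 := by omega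
  rw [e] at key
  exact key

end

end Pool.Agent.W_7d29a1_C1.H1c
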