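import Pool.Agent.W_7d29a1_C1.NbrC78

/-!
MP_7d29a1_pr, the attractor route (helper78): STRAIGHT STEPS. In all rows, with all ends, the paths whose first `⌈N ^ δ⌉` steps are equal have
at most the share `exp (- N ^ c')` of the mass; together with the neighbouring sites (`Nbr56`) and the weights: one event.
-/

set_option autoImplicit false

namespace Pool.Agent.W_7d29a1_C1.Nbr78

open MeasureTheory ProbabilityTheory Filter Topology Finset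
open Pool.Agent.W_7d29a1_F Pool.Agent.W_7d29a1_X Pool.Agent.W_7d29a1_h4g Pool.Agent.W_7d29a1_H
open Pool.Agent.W_7d29a1_h47 (EM)
open Pool.Agent.W_7d29a1_HS (In wd)
open Pool.Agent.W_7d29a1_HZ (wd' EE' wd'_pow wd'_eq)
open Pool.Agent.W_7d29a1_C1.K91 (wt wt_pos)
open Pool.Agent.W_7d29a1_C1.K91P (bw bw_zero bw_succ bw_pos GG)
open Pool.Agent.W_7d29a1_C1.H8 (ps8 ps8_pos)
open Pool.Agent.W_7d29a1_C1.Win84 (TG QV bd mem_bd LB84 UB84 ev84)
open Pool.Agent.W_7d29a1_C1.H56 (pN Nbr56)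
open scoped ENNReal

noncomputable section

/-! ### More straight steps have less mass -/

section det

variable {w : ℕ → ℤ → ℝ} {p q : ℕ → ℝ}

theorem DU_anti1 (hw : ∀ k y, 0 < w k y) (hp : ∀ k, 0 < p k) (j : ℕ) : ∀ (m i : ℕ) (y : ℤ), DU w p j (m + 1) i y ≤ DU w p (j + 1) m i y
  | 0, i, y => by
    rw [DU_succ, DU_zero, DU_zero, bw_succ]
    refine mul_le_mul_of_nonneg_left ?_ (hw i y).le
    have := bw_pos hw hp j (i + 1) y
    linarith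
  | m + 1, i, y => by
    have ih := DU_anti1 hw hp j m (i + 1) (y + 1)
    rw [DU_succ _ (m + 1), DU_succ (j + 1) m]
    exact mul_le_mul_of_nonneg_left (mul_le_mul_of_nonneg_left ih (hp i).le) (hw i y).le

theorem DD_anti1 (hw : ∀ k y, 0 < w k y) (hp : ∀ k, 0 < p k) (j : ℕ) : ∀ (m i : ℕ) (y : ℤ), DD w p j (m + 1) i y ≤ DD w p (j + 1) m i y
  | 0, i, y => by
    rw [DD_succ, DD_zero, DD_zero, bw_succ]
    refine mul_le_mul_of_nonneg_left ?_ (hw i y).le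
    have := mul_pos (hp i) (bw_pos hw hp j (i + 1) (y + 1))
    linarith
  | m + 1, i, y => by
    have ih := DD_anti1 hw hp j m (i + 1) y
    rw [DD_succ _ (m + 1), DD_succ (j + 1) m]
    exact mul_le_mul_of_nonneg_left ih (hw i y).le

theorem DU_anti (hw : ∀ k y, 0 < w k y) (hp : ∀ k, 0 < p k) (m i : ℕ) (y : ℤ) : ∀ (r j : ℕ), DU w p j (m + r) i y ≤ DU w p (j + r) m i y
  | 0, j => le_rfl
  | r + 1, j => by
    have h1 := DU_anti1 hw hp j (m + r) i y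
    have h2 := DU_anti hw hp m i y r (j + 1)
    rw [show j + 1 + r = j + (r + 1) by ring] at h2
    exact h1.trans h2

theorem DD_anti (hw : ∀ k y, 0 < w k y) (hp : ∀ k, 0 < p k) (m i : ℕ) (y : ℤ) : ∀ (r j : ℕ), DD w p j (m + r) i y ≤ DD w p (j + r) m i y
  | 0, j => le_rfl
  | r + 1, j => by
    have h1 := DD_anti1 hw hp j (m + r) i y
    have h2 := DD_anti hw hp m i y r (j + 1)
    rw [show j + 1 + r = j + (r + 1) by ring] at h2
    exact h1.trans h2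

/-! ### The last row of the step weights -/

theorem DU_last78 (j : ℕ) : ∀ (m i : ℕ) (y : ℤ), (∀ k, i ≤ k → k < i + (m + j) → p k = q k) →
    (1 + q (i + (m + j))) * DU w p (j + 1) m i y = (1 + p (i + (m + j))) * DU w q (j + 1) m i y
  | 0, i, y, h => by
    rw [Nat.zero_add] at h ⊢
    rw [DU_zero, DU_zero]
    exact bw_last78 j i y h
  | m + 1, i, y, h => by
    have ih := DU_last78 j m (i + 1) (y + 1) fun k h1 h2 => h k (by omega) (by omega)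
    rw [show i + 1 + (m + j) = i + (m + 1 + j) by ring] at ih
    rw [DU_succ, DU_succ, h i le_rfl (by omega)]
    linear_combination (w i y) * q i * ih

theorem DD_last78 (j : ℕ) : ∀ (m i : ℕ) (y : ℤ), (∀ k, i ≤ k → k < i + (m + j) → p k = q k) →
    (1 + q (i + (m + j))) * DD w p (j + 1) m i y = (1 + p (i + (m + j))) * DD w q (j + 1) m i y
  | 0, i, y, h => by
    rw [Nat.zero_add] at h ⊢
    rw [DD_zero, DD_zero]
    exact bw_last78 j i y h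
  | m + 1, i, y, h => by
    have ih := DD_last78 j m (i + 1) y fun k h1 h2 => h k (by omega) (by omega)
    rw [show i + 1 + (m + j) = i + (m + 1 + j) by ring] at ih
    rw [DD_succ, DD_succ]
    linear_combination (w i y) * ih

/-- The shares do not see the last row of the step weights. -/
theorem share_last78 (hp : ∀ k, 0 < p k) (hq : ∀ k, 0 < q k) {j m i : ℕ} {y : ℤ}
    (h : ∀ k, i ≤ k → k < i + (m + j) → p k = q k) {x : ℝ}
    (hs : DU w q (j + 1) m i y ≤ x * bw w q i (m + j + 1) y ∧ DD w q (j + 1) m i y ≤ x * bw w q i (m + j + 1) y) :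
    DU w p (j + 1) m i y ≤ x * bw w p i (m + j + 1) y ∧ DD w p (j + 1) m i y ≤ x * bw w p i (m + j + 1) y := by
  have h1 := DU_last78 (w := w) j m i y h
  have h2 := DD_last78 (w := w) j m i y h
  have h3 := bw_last78 (w := w) (m + j) i y h
  have g1 := hp (i + (m + j))
  have g2 := hq (i + (m + j))
  obtain ⟨P, hP⟩ : ∃ P, P = 1 + p (i + (m + j)) := ⟨_, rfl⟩
  obtain ⟨Q, hQ⟩ : ∃ Q, Q = 1 + q (i + (m + j)) := ⟨_, rfl⟩
  rw [← hP, ← hQ] at h1 h2 h3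
  have hP0 : 0 < P := by rw [hP]; linarith
  have hQ0 : 0 < Q := by rw [hQ]; linarith
  obtain ⟨s1, s2⟩ := hs
  constructor
  · have k1 : Q * DU w p (j + 1) m i y ≤ Q * (x * bw w p i (m + j + 1) y) := by
      rw [h1]
      have k2 := mul_le_mul_of_nonneg_left s1 hP0.le
      have k3 : Q * (x * bw w p i (m + j + 1) y) = x * (Q * bw w p i (m + j + 1) y) := by ring
      rw [k3, h3]
      linarith
    exact le_of_mul_le_mul_left k1 hQ0
  · have k1 : Q * DD w p (j + 1) m i y ≤ Q * (x * bw w p i (m + j + 1) y) := by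
      rw [h2]
      have k2 := mul_le_mul_of_nonneg_left s2 hP0.le
      have k3 : Q * (x * bw w p i (m + j + 1) y) = x * (Q * bw w p i (m + j + 1) y) := by ring
      rw [k3, h3]
      linarith
    exact le_of_mul_le_mul_left k1 hQ0

end det

variable {μ : Measure ℝ} {s h : ℝ}

/-- Many tilted rows. -/
theorem shr_many78 (η : Env) {i K L m : ℕ} (hm : m ≤ K) {x ε : ℝ} {y : ℤ} (h1 : (m : ℤ) ∈ bd μ s K ε m) (h0 : (0 : ℤ) ∈ bd μ s K ε m)
    (hU : QV μ s h η ((i : ℤ), y) m (K - m) L (bd μ s K ε m) ≤ x * Real.exp (TG μ s h K L η ((i : ℤ), y))) :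
    DU (wt η) (ps8 s h (i + K)) (K - m + L + 1) m i y ≤ x * bw (wt η) (ps8 s h (i + K)) i (K + L + 1) y ∧
      DD (wt η) (ps8 s h (i + K)) (K - m + L + 1) m i y ≤ x * bw (wt η) (ps8 s h (i + K)) i (K + L + 1) y := by
  obtain ⟨k, rfl⟩ : ∃ k : ℕ, K = m + k := ⟨K - m, by omega⟩
  rw [Nat.add_sub_cancel_left] at hU ⊢
  exact share_TL78 (L := L) η (rfl : i + (m + k) = i + (m + k)) y hU h1 h0

/-- Few tilted rows. -/
theorem shr_few78 (η : Env) {i K J m : ℕ} (hm : m ≤ J) {x ε : ℝ} (hx0 : 0 ≤ x) (hhK : |h| * K ≤ 1) {y : ℤ}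
    (h1 : (m : ℤ) ∈ bd μ s J ε m) (h0 : (0 : ℤ) ∈ bd μ s J ε m)
    (hU : QV μ s 0 η ((i : ℤ), y) m (J - m) 0 (bd μ s J ε m) ≤ x * Real.exp (TG μ s 0 J 0 η ((i : ℤ), y))) :
    DU (wt η) (ps8 s h (i + K)) (J - m + 1) m i y ≤ Real.exp 1 * Real.exp 1 * x * bw (wt η) (ps8 s h (i + K)) i (J + 1) y ∧
      DD (wt η) (ps8 s h (i + K)) (J - m + 1) m i y ≤ Real.exp 1 * Real.exp 1 * x * bw (wt η) (ps8 s h (i + K)) i (J + 1) y := by
  obtain ⟨k, rfl⟩ : ∃ k : ℕ, J = m + k := ⟨J - m, by omega⟩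
  rw [Nat.add_sub_cancel_left] at hU ⊢
  have hw : ∀ k y, 0 < wt η k y := wt_pos η
  have hp := ps8_pos s h (i + K)
  have hq := ps8_pos s 0 (i + (m + k))
  obtain ⟨s1, s2⟩ := share_TL78 (L := 0) η (rfl : i + (m + k) = i + (m + k)) y hU h1 h0
  rw [add_zero] at s1 s2
  rw [show m + k + 0 + 1 = m + (k + 1) by ring] at s1 s2
  rw [show m + k + 1 = m + (k + 1) by ring]
  have hh := abs_nonneg h
  have c1 : ∀ r, r < i + K → ps8 s h (i + K) r ≤ Real.exp |h| * ps8 s 0 (i + (m + k)) r := by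
    intro r hr
    rw [ps8_zero78, ← Real.exp_add]
    unfold ps8
    rw [if_pos hr]
    exact Real.exp_le_exp.2 (by have := le_abs_self h; linarith)
  have c2 : ∀ r, i + K ≤ r → ps8 s h (i + K) r ≤ ps8 s 0 (i + (m + k)) r := by
    intro r hr
    rw [ps8_zero78]
    unfold ps8
    rw [if_neg (by omega)]
  have c3 : ∀ r, r < i + K → ps8 s 0 (i + (m + k)) r ≤ Real.exp |h| * ps8 s h (i + K) r := by
    intro r hr
    rw [ps8_zero78]
    unfold ps8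
    rw [if_pos hr, ← Real.exp_add]
    exact Real.exp_le_exp.2 (by have := neg_abs_le h; linarith)
  have c4 : ∀ r, i + K ≤ r → ps8 s 0 (i + (m + k)) r ≤ ps8 s h (i + K) r := by
    intro r hr
    rw [ps8_zero78]
    unfold ps8
    rw [if_neg (by omega)]
  obtain ⟨E, hE⟩ : ∃ E, E = Real.exp (|h| * ((i + K - i : ℕ) : ℝ)) := ⟨_, rfl⟩
  have hKi : i + K - i = K := by omega
  have hE1 : 1 ≤ E := by rw [hE]; exact Real.one_le_exp (by positivity)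
  have hEe : E ≤ Real.exp 1 := by
    rw [hE, hKi]
    exact Real.exp_le_exp.2 hhK
  have t1 := DU_cmp hw hp hq hh c1 c2 (k + 1) m i y
  have t2 := DD_cmp hw hp hq hh c1 c2 (k + 1) m i y
  have t3 := bw_cmp hw hq hp hh c3 c4 (m + (k + 1)) i y
  rw [← hE] at t1 t2 t3
  have hb := bw_pos hw hp (m + (k + 1)) i y
  have fin : ∀ {d' d : ℝ}, d' ≤ x * bw (wt η) (ps8 s 0 (i + (m + k))) i (m + (k + 1)) y → d ≤ E * d' →
      d ≤ Real.exp 1 * Real.exp 1 * x * bw (wt η) (ps8 s h (i + K)) i (m + (k + 1)) y := by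
    intro d' d g1 g2
    have g3 : d ≤ E * (x * (E * bw (wt η) (ps8 s h (i + K)) i (m + (k + 1)) y)) :=
      g2.trans (mul_le_mul_of_nonneg_left (g1.trans (mul_le_mul_of_nonneg_left t3 hx0)) (by linarith))
    have g4 : E * (x * (E * bw (wt η) (ps8 s h (i + K)) i (m + (k + 1)) y)) =
        (E * E) * (x * bw (wt η) (ps8 s h (i + K)) i (m + (k + 1)) y) := by ring
    rw [g4] at g3
    have g5 : E * E ≤ Real.exp 1 * Real.exp 1 := mul_le_mul hEe hEe (by linarith) (Real.exp_pos _).le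
    have g6 := mul_le_mul_of_nonneg_right g5 (mul_nonneg hx0 hb.le)
    linarith
  exact ⟨fin s1 t1, fin s2 t2⟩

variable [IsProbabilityMeasure μ] {c C : ℝ} {n₀ : ℕ}

/-- **Straight steps**, one site. -/
theorem shr78 (h : In μ s c C n₀) (hL : LB84 μ s) (hU : UB84 μ s) : ∀ d : ℝ, 0 < d → 64 * d ≤ 1 → ∃ κ : ℝ, 0 < κ ∧ ∃ g : ℝ, 0 < g ∧
    ∀ᶠ N : ℕ in atTop, ∀ M : ℕ, M ≤ N → ∀ t : ℝ, |t| * EE μ s N ≤ (N : ℝ) ^ κ → ∀ i m J : ℕ, m = ⌈(N : ℝ) ^ d⌉₊ → m ≤ J →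
    J ≤ 4 * N ^ 3 → ∀ y : ℤ,
    (law μ).real {η | ¬ (DU (wt η) (ps8 s t M) (J - m + 1) m i y ≤ Real.exp (-(N : ℝ) ^ g) * bw (wt η) (ps8 s t M) i (J + 1) y ∧
      DD (wt η) (ps8 s t M) (J - m + 1) m i y ≤ Real.exp (-(N : ℝ) ^ g) * bw (wt η) (ps8 s t M) i (J + 1) y)} ≤
      Real.exp (-(N : ℝ) ^ g) := by
  intro d hd0 hd2
  obtain ⟨a₁, K₁, ha₁, ha₁', hK₁, hwp⟩ := wd'_pow h
  obtain ⟨ε, hε⟩ : ∃ ε : ℝ, ε = d * a₁ / 8 := ⟨_, rfl⟩
  have hε0 : 0 < ε := by rw [hε]; positivity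
  obtain ⟨κ₁, c₁, hκ₁, hc₁, K₀, hcomp⟩ := comp78 h hL hU ε hε0 (4 / d)
  obtain ⟨g, hg⟩ : ∃ g : ℝ, g = min (sl μ s) (1 - sl μ s) := ⟨_, rfl⟩
  have hs0 := h.sl_pos
  have hs1 := h.sl_lt
  have hg0 : 0 < g := by
    rw [hg]
    exact lt_min hs0 (by linarith)
  obtain ⟨W, hW⟩ : ∃ W : ℝ, W = wd' μ s 1 := ⟨_, rfl⟩
  have hW1 : 1 ≤ W := by rw [hW]; exact le_max_left _ _
  obtain ⟨κ, hκ⟩ : ∃ κ : ℝ, κ = min (κ₁ * (2 * d)) (1 / 32) := ⟨_, rfl⟩
  have hκ0 : 0 < κ := by rw [hκ]; positivity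
  have hκa : κ ≤ κ₁ * (2 * d) := by rw [hκ]; exact min_le_left _ _
  have hκb : κ ≤ 1 / 32 := by rw [hκ]; exact min_le_right _ _
  obtain ⟨nE, hE⟩ := EE_low78 h hL
  refine ⟨κ, hκ0, d * c₁ / 2, by positivity, ?_⟩
  have ev1 := ev84 (K₀ : ℝ) hd0
  have ev2 := ev84 5 hd0
  have ev3 := ev84 (K₁ * W / g + 1) (show 0 < d * a₁ / 2 by positivity)
  have ev4 := ev84 3 (show 0 < d * c₁ / 2 by positivity)
  filter_upwards [ev1, ev2, ev3, ev4, eventually_ge_atTop (max nE 4)] with N q1 q2 q3 q4 q5 M hMN t ht i m J hmd hmJ hJN y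
  have hNE : nE ≤ N := (le_max_left _ _).trans q5
  have hN4 : 4 ≤ N := (le_max_right _ _).trans q5
  have hNR : (4 : ℝ) ≤ N := by exact_mod_cast hN4
  have hN1 : (1 : ℝ) ≤ N := by linarith
  have hN0 : (0 : ℝ) < N := by linarith
  have hmono : ∀ {x z : ℝ}, x ≤ z → (N : ℝ) ^ x ≤ (N : ℝ) ^ z := fun h => Real.rpow_le_rpow_of_exponent_le hN1 h
  obtain ⟨D, hD⟩ : ∃ D : ℝ, D = (N : ℝ) ^ d := ⟨_, rfl⟩
  rw [← hD] at q1 q2 hmd
  have hm1 : D ≤ m := by rw [hmd]; exact Nat.le_ceil _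
  have hm2 : (m : ℝ) ≤ D + 1 := by rw [hmd]; exact (Nat.ceil_lt_add_one (by linarith)).le
  have hm0 : 1 ≤ m := by
    have : (1 : ℝ) ≤ m := by linarith
    exact_mod_cast this
  have hDD : D * D = (N : ℝ) ^ (2 * d) := by
    rw [hD, ← Real.rpow_add hN0]
    congr 1
    ring
  have hmDD : (m : ℝ) ≤ D * D := hm2.trans (by nlinarith only [q2])
  have hEN := hE N hNE
  have ht0 := abs_nonneg t
  have htD : |t| * (N : ℝ) ^ (2 * d) ≤ 1 := by
    have h1 : (N : ℝ) ^ κ * (N : ℝ) ^ (2 * d) ≤ EE μ s N := by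
      rw [← Real.rpow_add hN0]
      exact (hmono (by linarith)).trans hEN
    have h2 : (N : ℝ) ^ κ * (|t| * (N : ℝ) ^ (2 * d)) ≤ (N : ℝ) ^ κ * 1 := by
      rw [mul_one]
      refine le_trans (le_of_eq ?_) ((mul_le_mul_of_nonneg_left h1 ht0).trans ht)
      ring
    exact le_of_mul_le_mul_left h2 (by positivity)
  have hu0 : 0 ≤ D := by linarith
  have hN34 : 4 * N ^ 3 ≤ N ^ 4 := by
    have : N ^ 4 = N * N ^ 3 := by ring
    rw [this]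
    exact Nat.mul_le_mul_right _ hN4
  have hext : ∀ K : ℕ, K ≤ N ^ 4 → (m : ℤ) ∈ bd μ s K ε m ∧ (0 : ℤ) ∈ bd μ s K ε m := by
    intro K hK
    have hw := (hwp 1 m le_rfl hm0).2.2
    rw [Nat.cast_one, div_one, ← hW] at hw
    refine bd_ext78 (g := g) (by rw [hg]; exact min_le_left _ _) (by rw [hg]; exact min_le_right _ _) hw hm0 ?_
    have h1 : (K : ℝ) ^ ε ≤ (N : ℝ) ^ (d * a₁ / 2) := by
      have h2 : (K : ℝ) ≤ (N : ℝ) ^ (4 : ℝ) := by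
        have : (K : ℝ) ≤ ((N ^ 4 : ℕ) : ℝ) := by exact_mod_cast hK
        refine this.trans (le_of_eq ?_)
        push_cast
        rw [← Real.rpow_natCast]
        norm_num
      have h3 := Real.rpow_le_rpow (Nat.cast_nonneg K) h2 hε0.le
      rw [← Real.rpow_mul hN0.le] at h3
      refine h3.trans (hmono ?_)
      rw [hε]
      linarith
    have h2 : (N : ℝ) ^ (d * a₁) ≤ (m : ℝ) ^ a₁ := by
      rw [Real.rpow_mul hN0.le, ← hD]
      exact Real.rpow_le_rpow hu0 hm1 ha₁.le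
    have h3 : (N : ℝ) ^ (d * a₁) = (N : ℝ) ^ (d * a₁ / 2) * (N : ℝ) ^ (d * a₁ / 2) := by
      rw [← Real.rpow_add hN0]
      congr 1
      ring
    have h4 : K₁ * W < g * (N : ℝ) ^ (d * a₁ / 2) := by
      have h5 : g * (K₁ * W / g + 1) ≤ g * (N : ℝ) ^ (d * a₁ / 2) := mul_le_mul_of_nonneg_left q3 hg0.le
      have h6 : g * (K₁ * W / g + 1) = K₁ * W + g := by field_simp
      linarith
    have h5 : 0 < (N : ℝ) ^ (d * a₁ / 2) := Real.rpow_pos_of_pos hN0 _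
    have h6 : 0 < K₁ * W := mul_pos (by linarith) (by linarith)
    calc (K : ℝ) ^ ε * (K₁ * W) ≤ (N : ℝ) ^ (d * a₁ / 2) * (K₁ * W) := mul_le_mul_of_nonneg_right h1 h6.le
      _ < (N : ℝ) ^ (d * a₁ / 2) * (g * (N : ℝ) ^ (d * a₁ / 2)) := mul_lt_mul_of_pos_left h4 h5
      _ = g * (N : ℝ) ^ (d * a₁) := by rw [h3]; ring
      _ ≤ g * (m : ℝ) ^ a₁ := mul_le_mul_of_nonneg_left h2 hg0.le
  -- the small numbers
  obtain ⟨Q, hQ⟩ : ∃ Q : ℝ, Q = (N : ℝ) ^ (d * c₁ / 2) := ⟨_, rfl⟩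
  rw [← hQ] at q4 ⊢
  have hQQ : (N : ℝ) ^ (d * c₁) = Q * Q := by
    rw [hQ, ← Real.rpow_add hN0]
    congr 1
    ring
  have hxle : ∀ K : ℕ, m ≤ K → Real.exp (-(K : ℝ) ^ c₁) ≤ Real.exp (-(Q * Q)) := by
    intro K hK
    refine Real.exp_le_exp.2 (neg_le_neg ?_)
    rw [← hQQ, Real.rpow_mul hN0.le, ← hD]
    have : (m : ℝ) ≤ K := by exact_mod_cast hK
    exact Real.rpow_le_rpow hu0 (hm1.trans this) hc₁.le
  have hx1 : Real.exp (-(Q * Q)) ≤ Real.exp (-Q) := Real.exp_le_exp.2 (by nlinarith)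
  have hx2 : Real.exp 1 * Real.exp 1 * Real.exp (-(Q * Q)) ≤ Real.exp (-Q) := by
    rw [← Real.exp_add, ← Real.exp_add]
    exact Real.exp_le_exp.2 (by nlinarith)
  have hmK0 : ∀ K : ℕ, m ≤ K → K₀ ≤ K := by
    intro K hK
    have h1 : (K₀ : ℝ) ≤ (m : ℝ) := by linarith
    have h2 : K₀ ≤ m := by exact_mod_cast h1
    exact h2.trans hK
  obtain ⟨K, hK⟩ : ∃ K : ℕ, K = min M (i + J) - i := ⟨_, rfl⟩
  have hKJ : K ≤ J := by
    have := min_le_right M (i + J)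
    omega
  have hKN : K ≤ N := by
    have := min_le_left M (i + J)
    omega
  have hJN' : J ≤ N ^ 4 := hJN.trans hN34
  -- the cut
  have hcut : ∀ (η : Env) (x : ℝ), (DU (wt η) (ps8 s t (i + K)) (J - m + 1) m i y ≤ x * bw (wt η) (ps8 s t (i + K)) i (J + 1) y ∧
      DD (wt η) (ps8 s t (i + K)) (J - m + 1) m i y ≤ x * bw (wt η) (ps8 s t (i + K)) i (J + 1) y) →
      (DU (wt η) (ps8 s t M) (J - m + 1) m i y ≤ x * bw (wt η) (ps8 s t M) i (J + 1) y ∧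
      DD (wt η) (ps8 s t M) (J - m + 1) m i y ≤ x * bw (wt η) (ps8 s t M) i (J + 1) y) := by
    intro η x hx
    have e : J + 1 = m + (J - m) + 1 := by omega
    rw [e] at hx ⊢
    refine share_last78 (ps8_pos s t M) (ps8_pos s t (i + K)) (fun k h1 h2 => ?_) hx
    unfold ps8
    by_cases hk : k < M
    · rw [if_pos hk, if_pos]
      have : k < min M (i + J) := lt_min hk (by omega)
      omega
    · rw [if_neg hk, if_neg]
      have : min M (i + J) ≤ M := min_le_left _ _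
      omega
  have hbpos : ∀ η : Env, 0 < bw (wt η) (ps8 s t M) i (J + 1) y := fun η => bw_pos (wt_pos η) (ps8_pos s t M) _ _ _
  rcases le_or_gt ((N : ℝ) ^ (2 * d)) (K : ℝ) with hc | hc
  · -- many tilted rows
    have hmK : m ≤ K := by
      have : (m : ℝ) ≤ K := by rw [← hDD] at hc; linarith only [hc, hmDD]
      exact_mod_cast this
    obtain ⟨L, hLd⟩ : ∃ L : ℕ, L = J - K := ⟨_, rfl⟩
    have hJe : J + 1 = K + L + 1 := by omega
    have hJe2 : J - m + 1 = K - m + L + 1 := by omega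
    have hDK : D ≤ K := by
      have : (m : ℝ) ≤ K := by exact_mod_cast hmK
      linarith
    have hLp : (L : ℝ) ≤ (K : ℝ) ^ (4 / d) := by
      have h1 : (L : ℝ) ≤ (N : ℝ) ^ (4 : ℝ) := by
        have h2 : L ≤ N ^ 4 := by omega
        have : (L : ℝ) ≤ ((N ^ 4 : ℕ) : ℝ) := by exact_mod_cast h2
        refine this.trans (le_of_eq ?_)
        push_cast
        rw [← Real.rpow_natCast]
        norm_num
      have h3 := Real.rpow_le_rpow hu0 hDK (show 0 ≤ 4 / d by positivity)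
      rw [hD, ← Real.rpow_mul hN0.le, show d * (4 / d) = 4 by field_simp] at h3
      exact h1.trans h3
    have htK : |t| * EE μ s K ≤ (K : ℝ) ^ κ₁ := by
      have h1 : |t| * EE μ s K ≤ |t| * EE μ s N := mul_le_mul_of_nonneg_left (EE_mono hKN) ht0
      have h2 := Real.rpow_le_rpow (by positivity) hc hκ₁.le
      rw [← Real.rpow_mul hN0.le] at h2
      exact h1.trans (ht.trans ((hmono (by linarith)).trans h2))
    have p1 := hcomp K (hmK0 K hmK) L hLp m (K - m) hm0 (by omega) t htK ((i : ℤ), y)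
    obtain ⟨e1, e2⟩ := hext K (hKJ.trans hJN')
    have hx := hxle K hmK
    refine (measureReal_mono ?_ (measure_ne_top _ _)).trans (p1.trans (hx.trans hx1))
    intro η hη hcon
    refine hη (hcut η _ ?_)
    have h4 := shr_many78 η hmK e1 e2 hcon
    rw [← hJe, ← hJe2] at h4
    have hb := bw_pos (wt_pos η) (ps8_pos s t (i + K)) (J + 1) i y
    have h5 := mul_le_mul_of_nonneg_right (hx.trans hx1) hb.le
    exact ⟨h4.1.trans h5, h4.2.trans h5⟩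
  · -- few tilted rows
    have hhK : |t| * (K : ℝ) ≤ 1 := (mul_le_mul_of_nonneg_left hc.le ht0).trans htD
    have p1 := hcomp J (hmK0 J hmJ) 0 (by simp; positivity) m (J - m) hm0 (by omega) 0 (by simp; positivity) ((i : ℤ), y)
    obtain ⟨e1, e2⟩ := hext J hJN'
    have hx := hxle J hmJ
    refine (measureReal_mono ?_ (measure_ne_top _ _)).trans (p1.trans (hx.trans hx1))
    intro η hη hcon
    refine hη (hcut η _ ?_)
    have h4 := shr_few78 η hmJ (Real.exp_pos _).le hhK e1 e2 hcon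
    have hb := bw_pos (wt_pos η) (ps8_pos s t (i + K)) (J + 1) i y
    have h5 := mul_le_mul_of_nonneg_right ((mul_le_mul_of_nonneg_left hx (by positivity :
      0 ≤ Real.exp 1 * Real.exp 1)).trans hx2) hb.le
    exact ⟨h4.1.trans h5, h4.2.trans h5⟩

/-! ### The event -/

/-- **The event**: neighbouring sites, straight steps, weights. -/
def StE78 (s h : ℝ) (M N : ℕ) (dl c' : ℝ) (η : Env) : Prop :=
  (∀ i j : ℕ, i + j ≤ 4 * N ^ 3 → ∀ y : ℤ, |y| ≤ (N : ℤ) ^ 4 →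
    |Real.log (bw (wt η) (pN s h M) i j y) - Real.log (bw (wt η) (pN s h M) i j (y - 1))| ≤ (N : ℝ) ^ dl) ∧
  (∀ i j : ℕ, i + (⌈(N : ℝ) ^ dl⌉₊ + j) ≤ 4 * N ^ 3 → ∀ y : ℤ, |y| ≤ (N : ℤ) ^ 4 →
    DU (wt η) (pN s h M) j ⌈(N : ℝ) ^ dl⌉₊ i y ≤ Real.exp (-(N : ℝ) ^ c') * bw (wt η) (pN s h M) i (⌈(N : ℝ) ^ dl⌉₊ + j) y ∧
    DD (wt η) (pN s h M) j ⌈(N : ℝ) ^ dl⌉₊ i y ≤ Real.exp (-(N : ℝ) ^ c') * bw (wt η) (pN s h M) i (⌈(N : ℝ) ^ dl⌉₊ + j) y) ∧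
  ∀ i : ℕ, i ≤ 4 * N ^ 3 → ∀ y : ℤ, |y| ≤ 2 * (N : ℤ) ^ 4 → |η ((i : ℤ), y)| ≤ (N : ℝ) ^ dl

/-- The statement. -/
def Str78 (μ : Measure ℝ) (s : ℝ) : Prop :=
  ∀ dl : ℝ, 0 < dl → ∃ κ > (0 : ℝ), ∃ c' > (0 : ℝ), ∀ᶠ N : ℕ in atTop, ∀ M : ℕ, M ≤ N → ∀ h : ℝ, |h| * EE μ s N ≤ (N : ℝ) ^ κ →
    (law μ).real {η | ¬ StE78 s h M N dl c' η} ≤ Real.exp (-(N : ℝ) ^ c')

/-- **STRAIGHT STEPS.** -/
theorem str78 (h : In μ s c C n₀) (hL : LB84 μ s) (hU : UB84 μ s) : Str78 μ s := by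
  intro dl hdl
  obtain ⟨d, hd⟩ : ∃ d : ℝ, d = min dl 1 / 64 := ⟨_, rfl⟩
  have hd0 : 0 < d := by rw [hd]; positivity
  have hd1 : 64 * d ≤ dl := by
    have := min_le_left dl 1
    rw [hd]; linarith
  have hd2 : 64 * d ≤ 1 := by
    have := min_le_right dl 1
    rw [hd]; linarith
  obtain ⟨κ₁, hκ₁, c₁, hc₁, h1⟩ := nbr78 h hL hU dl hdl
  obtain ⟨κ₂, hκ₂, g, hg, h2⟩ := shr78 h hL hU d hd0 hd2
  obtain ⟨B, hB1, hB⟩ := tail78 h.em
  obtain ⟨g', hg'⟩ : ∃ g' : ℝ, g' = min (min c₁ g) dl := ⟨_, rfl⟩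
  have hg'0 : 0 < g' := by rw [hg']; positivity
  have ev1 := Pool.Agent.W_7d29a1_HZ.Z22.absorb (100 * (2 + B)) 10 (b := 1) (g := g') one_pos hg'0
  refine ⟨min κ₁ κ₂, by positivity, g' / 2, by positivity, ?_⟩
  filter_upwards [h1, h2, ev1, ev84 4 hd0, eventually_ge_atTop 2] with N q1 q2 q3 q4 hN M hM t ht
  have hNR : (2 : ℝ) ≤ N := by exact_mod_cast hN
  have hN1 : (1 : ℝ) ≤ N := by linarith
  have hN0 : (0 : ℝ) < N := by linarith
  have hmono : ∀ {x z : ℝ}, x ≤ z → (N : ℝ) ^ x ≤ (N : ℝ) ^ z := fun h => Real.rpow_le_rpow_of_exponent_le hN1 h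
  have r1 := q1 M hM t (ht.trans (hmono (min_le_left _ _)))
  obtain ⟨m, hm⟩ : ∃ m : ℕ, m = ⌈(N : ℝ) ^ d⌉₊ := ⟨_, rfl⟩
  obtain ⟨m0, hm0⟩ : ∃ m0 : ℕ, m0 = ⌈(N : ℝ) ^ dl⌉₊ := ⟨_, rfl⟩
  have hmm : m + 1 ≤ m0 := by
    have e1 : (m : ℝ) ≤ (N : ℝ) ^ d + 1 := by
      rw [hm]
      exact (Nat.ceil_lt_add_one (by positivity)).le
    have e2 : (N : ℝ) ^ dl ≤ m0 := by rw [hm0]; exact Nat.le_ceil _
    have e3 : (N : ℝ) ^ (2 * d) ≤ (N : ℝ) ^ dl := hmono (by linarith)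
    have e4 : (N : ℝ) ^ (2 * d) = (N : ℝ) ^ d * (N : ℝ) ^ d := by
      rw [← Real.rpow_add hN0]
      congr 1
      ring
    have e5 : ((m + 1 : ℕ) : ℝ) ≤ m0 := by
      push_cast
      nlinarith
    exact_mod_cast e5
  obtain ⟨Q, hQ⟩ : ∃ Q : ℝ, Q = Real.exp (-(N : ℝ) ^ g') := ⟨_, rfl⟩
  have hQ0 : 0 < Q := by rw [hQ]; exact Real.exp_pos _
  have hQc : Real.exp (-(N : ℝ) ^ c₁) ≤ Q := by
    rw [hQ]
    exact Real.exp_le_exp.2 (neg_le_neg (hmono (by rw [hg']; exact (min_le_left _ _).trans (min_le_left _ _))))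
  have hQg : Real.exp (-(N : ℝ) ^ g) ≤ Q := by
    rw [hQ]
    exact Real.exp_le_exp.2 (neg_le_neg (hmono (by rw [hg']; exact (min_le_left _ _).trans (min_le_right _ _))))
  have hQd : Real.exp (-(N : ℝ) ^ dl) ≤ Q := by
    rw [hQ]
    exact Real.exp_le_exp.2 (neg_le_neg (hmono (by rw [hg']; exact min_le_right _ _)))
  have hQ2 : Q ≤ Real.exp (-(N : ℝ) ^ (g' / 2)) := by
    rw [hQ]
    exact Real.exp_le_exp.2 (neg_le_neg (hmono (by linarith)))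
  -- the three events
  obtain ⟨S, hS⟩ : ∃ S : Finset (ℕ × (ℕ × ℤ)), S = range (4 * N ^ 3 + 1) ×ˢ (range (4 * N ^ 3 + 1) ×ˢ Icc (-(N : ℤ) ^ 4) ((N : ℤ) ^ 4)) :=
    ⟨_, rfl⟩
  obtain ⟨S', hS'⟩ : ∃ S' : Finset (ℕ × ℤ), S' = range (4 * N ^ 3 + 1) ×ˢ Icc (-(2 * (N : ℤ) ^ 4)) (2 * (N : ℤ) ^ 4) := ⟨_, rfl⟩
  obtain ⟨F, hF⟩ : ∃ F : ℕ × (ℕ × ℤ) → Set Env, F = fun r => {η : Env | m ≤ r.2.1 ∧ r.2.1 ≤ 4 * N ^ 3 ∧
    ¬ (DU (wt η) (ps8 s t M) (r.2.1 - m + 1) m r.1 r.2.2 ≤ Real.exp (-(N : ℝ) ^ g) * bw (wt η) (ps8 s t M) r.1 (r.2.1 + 1) r.2.2 ∧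
      DD (wt η) (ps8 s t M) (r.2.1 - m + 1) m r.1 r.2.2 ≤ Real.exp (-(N : ℝ) ^ g) * bw (wt η) (ps8 s t M) r.1 (r.2.1 + 1) r.2.2)} :=
    ⟨_, rfl⟩
  have hsub : {η : Env | ¬ StE78 s t M N dl (g' / 2) η} ⊆ {η : Env | ∃ i j : ℕ, i + j ≤ 4 * N ^ 3 ∧ ∃ y : ℤ, |y| ≤ (N : ℤ) ^ 4 ∧
      (N : ℝ) ^ dl < |Real.log (bw (wt η) (pN s t M) i j y) - Real.log (bw (wt η) (pN s t M) i j (y - 1))|} ∪
      ((⋃ r ∈ S, F r) ∪ ⋃ r ∈ S', {η : Env | (N : ℝ) ^ dl < |η ((r.1 : ℤ), r.2)|}) := by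
    intro η hη
    by_contra hcon
    simp only [Set.mem_union, not_or] at hcon
    obtain ⟨n1, n2, n3⟩ := hcon
    refine hη ⟨fun i j hij y hy => ?_, fun i j hij y hy => ?_, fun i hi y hy => ?_⟩
    · by_contra h3
      exact n1 ⟨i, j, hij, y, hy, not_le.1 h3⟩
    · rw [← hm0] at hij ⊢
      obtain ⟨r, hr⟩ : ∃ r : ℕ, m0 = m + r := ⟨m0 - m, by omega⟩
      obtain ⟨J, hJ⟩ : ∃ J : ℕ, m0 + j = J + 1 := ⟨m0 + j - 1, by omega⟩
      have hgood : DU (wt η) (ps8 s t M) (J - m + 1) m i y ≤ Real.exp (-(N : ℝ) ^ g) * bw (wt η) (ps8 s t M) i (J + 1) y ∧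
          DD (wt η) (ps8 s t M) (J - m + 1) m i y ≤ Real.exp (-(N : ℝ) ^ g) * bw (wt η) (ps8 s t M) i (J + 1) y := by
        by_contra h3
        refine n2 (Set.mem_iUnion₂.2 ⟨(i, (J, y)), ?_, ?_⟩)
        · rw [hS, mem_product, mem_product, mem_range, mem_range, mem_Icc]
          have := abs_le.1 hy
          exact ⟨by show i < _; omega, by show J < _; omega, this.1, this.2⟩
        · rw [hF]
          exact ⟨by show m ≤ J; omega, by show J ≤ _; omega, h3⟩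
      have hp := ps8_pos s t M
      have hw : ∀ k y, 0 < wt η k y := wt_pos η
      have hb := bw_pos hw hp (J + 1) i y
      have a1 := DU_anti hw hp m i y r j
      have a2 := DD_anti hw hp m i y r j
      have e : j + r = J - m + 1 := by omega
      rw [e, ← hr] at a1 a2
      rw [hJ]
      have k1 : Real.exp (-(N : ℝ) ^ g) * bw (wt η) (ps8 s t M) i (J + 1) y ≤
          Real.exp (-(N : ℝ) ^ (g' / 2)) * bw (wt η) (ps8 s t M) i (J + 1) y := mul_le_mul_of_nonneg_right (hQg.trans hQ2) hb.le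
      exact ⟨a1.trans (hgood.1.trans k1), a2.trans (hgood.2.trans k1)⟩
    · by_contra h3
      refine n3 (Set.mem_iUnion₂.2 ⟨(i, y), ?_, not_le.1 h3⟩)
      rw [hS', mem_product, mem_range, mem_Icc]
      have := abs_le.1 hy
      exact ⟨by show i < _; omega, this.1, this.2⟩
  refine (measureReal_mono hsub (measure_ne_top _ _)).trans ((measureReal_union_le _ _).trans ?_)
  have p1 : (law μ).real (⋃ r ∈ S, F r) ≤ (S.card : ℝ) * Q := by
    refine (measureReal_biUnion_finset_le _ _).trans ?_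
    have h3 : ∀ r ∈ S, (law μ).real (F r) ≤ Q := by
      intro r _
      rw [hF]
      by_cases hr : m ≤ r.2.1 ∧ r.2.1 ≤ 4 * N ^ 3
      · refine le_trans (measureReal_mono ?_ (measure_ne_top _ _))
          ((q2 M hM t (ht.trans (hmono (min_le_right _ _))) r.1 m r.2.1 hm hr.1 hr.2 r.2.2).trans hQg)
        intro η hη
        exact hη.2.2
      · have : {η : Env | m ≤ r.2.1 ∧ r.2.1 ≤ 4 * N ^ 3 ∧
            ¬ (DU (wt η) (ps8 s t M) (r.2.1 - m + 1) m r.1 r.2.2 ≤ Real.exp (-(N : ℝ) ^ g) * bw (wt η) (ps8 s t M) r.1 (r.2.1 + 1) r.2.2 ∧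
              DD (wt η) (ps8 s t M) (r.2.1 - m + 1) m r.1 r.2.2 ≤
                Real.exp (-(N : ℝ) ^ g) * bw (wt η) (ps8 s t M) r.1 (r.2.1 + 1) r.2.2)} = ∅ := by
          ext η
          simp only [Set.mem_setOf_eq, Set.mem_empty_iff_false, iff_false]
          rintro ⟨z1, z2, -⟩
          exact hr ⟨z1, z2⟩
        beta_reduce
        rw [this, measureReal_empty]
        exact hQ0.le
    refine (sum_le_sum h3).trans (le_of_eq ?_)
    rw [sum_const, nsmul_eq_mul]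
  have p2 : (law μ).real (⋃ r ∈ S', {η : Env | (N : ℝ) ^ dl < |η ((r.1 : ℤ), r.2)|}) ≤ (S'.card : ℝ) * (B * Q) := by
    refine (measureReal_biUnion_finset_le _ _).trans ?_
    refine (sum_le_sum fun r _ => (hB ((r.1 : ℤ), r.2) ((N : ℝ) ^ dl)).trans (mul_le_mul_of_nonneg_left hQd (by linarith))).trans
      (le_of_eq ?_)
    rw [sum_const, nsmul_eq_mul]
  have h3 : (1 : ℝ) ≤ (N : ℝ) ^ 3 := one_le_pow₀ hN1
  have h4 : (1 : ℝ) ≤ (N : ℝ) ^ 4 := one_le_pow₀ hN1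
  have h5 : 4 * (N : ℝ) ^ 3 + 1 ≤ 5 * (N : ℝ) ^ 3 := by linarith
  have hcS : (S.card : ℝ) ≤ 75 * (N : ℝ) ^ 10 := by
    rw [hS, card_product, card_product, card_range, Int.card_Icc]
    have e : ((N : ℤ) ^ 4 + 1 - (-(N : ℤ) ^ 4)).toNat = 2 * N ^ 4 + 1 := by
      have h2 : (N : ℤ) ^ 4 + 1 - (-(N : ℤ) ^ 4) = ((2 * N ^ 4 + 1 : ℕ) : ℤ) := by
        push_cast
        ring
      rw [h2, Int.toNat_natCast]
    rw [e]
    push_cast
    have h6 : 2 * (N : ℝ) ^ 4 + 1 ≤ 3 * (N : ℝ) ^ 4 := by linarith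
    have h7 : (4 * (N : ℝ) ^ 3 + 1) * ((4 * (N : ℝ) ^ 3 + 1) * (2 * (N : ℝ) ^ 4 + 1)) ≤
        (5 * (N : ℝ) ^ 3) * ((5 * (N : ℝ) ^ 3) * (3 * (N : ℝ) ^ 4)) := by gcongr
    refine h7.trans (le_of_eq ?_)
    ring
  have hcS' : (S'.card : ℝ) ≤ 25 * (N : ℝ) ^ 10 := by
    rw [hS', card_product, card_range, Int.card_Icc]
    have e : (2 * (N : ℤ) ^ 4 + 1 - (-(2 * (N : ℤ) ^ 4))).toNat = 4 * N ^ 4 + 1 := by
      have h2 : 2 * (N : ℤ) ^ 4 + 1 - (-(2 * (N : ℤ) ^ 4)) = ((4 * N ^ 4 + 1 : ℕ) : ℤ) := by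
        push_cast
        ring
      rw [h2, Int.toNat_natCast]
    rw [e]
    push_cast
    have h6 : 4 * (N : ℝ) ^ 4 + 1 ≤ 5 * (N : ℝ) ^ 4 := by linarith
    have h7 : (4 * (N : ℝ) ^ 3 + 1) * (4 * (N : ℝ) ^ 4 + 1) ≤ (5 * (N : ℝ) ^ 3) * (5 * (N : ℝ) ^ 4) := by gcongr
    refine h7.trans ?_
    have e7 : (5 * (N : ℝ) ^ 3) * (5 * (N : ℝ) ^ 4) = 25 * ((N : ℝ) ^ 7) := by ring
    have e10 : (N : ℝ) ^ 7 ≤ (N : ℝ) ^ 10 := pow_le_pow_right₀ hN1 (by norm_num)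
    rw [e7]
    linarith
  have h10 : (1 : ℝ) ≤ (N : ℝ) ^ 10 := one_le_pow₀ hN1
  have hfin : Q + ((S.card : ℝ) * Q + (S'.card : ℝ) * (B * Q)) ≤ 100 * (2 + B) * (N : ℝ) ^ 10 * Q := by
    have z1 : (S.card : ℝ) * Q ≤ 75 * (N : ℝ) ^ 10 * Q := mul_le_mul_of_nonneg_right hcS hQ0.le
    have z2 : (S'.card : ℝ) * (B * Q) ≤ 25 * (N : ℝ) ^ 10 * (B * Q) := mul_le_mul_of_nonneg_right hcS' (by positivity)
    have z3 : Q ≤ (N : ℝ) ^ 10 * Q := le_mul_of_one_le_left hQ0.le h10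
    have z4 : 0 ≤ (N : ℝ) ^ 10 * Q := by positivity
    have z5 : 0 ≤ B * ((N : ℝ) ^ 10 * Q) := by positivity
    have z6 : 25 * (N : ℝ) ^ 10 * (B * Q) = 25 * (B * ((N : ℝ) ^ 10 * Q)) := by ring
    have z7 : 100 * (2 + B) * (N : ℝ) ^ 10 * Q = 200 * ((N : ℝ) ^ 10 * Q) + 100 * (B * ((N : ℝ) ^ 10 * Q)) := by ring
    have z8 : 75 * (N : ℝ) ^ 10 * Q = 75 * ((N : ℝ) ^ 10 * Q) := by ring
    rw [z6] at z2
    rw [z8] at z1
    rw [z7]
    linarith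
  refine le_trans (add_le_add (r1.trans hQc) ((measureReal_union_le _ _).trans (add_le_add p1 p2))) (hfin.trans ?_)
  rw [one_mul, ← hQ, show (10 : ℝ) = ((10 : ℕ) : ℝ) by norm_num, Real.rpow_natCast] at q3
  exact q3

end

end Pool.Agent.W_7d29a1_C1.Nbr78
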