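import Pool.Agent.W_7d29a1_C1.SucN21
import Pool.Agent.W_7d29a1_C1.PhiB74
import Pool.Agent.W_7d29a1_C1.Str78

/-!
Both halves (MP_7d29a1_pr), attractor route [C1]: SUCCESS => H1 AT ALL CONTACTS OF THE MIDDLE ROWS OF A CONTEXT. (helper21)

`Lc21` : the local facts of all rows (neighbouring sites, single weights, straight steps); `lc_of78` : from the event `StE78` of
helper78; `sucT21` : `All`, `Fut`, `SeamIn`, `Lc21` give `H1c.SucT`, the hypothesis of `phiT74`.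
-/

set_option autoImplicit false
set_option linter.unusedSectionVars false

namespace Pool.Agent.W_7d29a1_C1.Sh21

open Finset MeasureTheory Pool.Agent.W_7d29a1_C1.Gini76 Pool.Agent.W_7d29a1_C1.CR76 Pool.Agent.W_7d29a1_C1.R26P
  Pool.Agent.W_7d29a1_C1.F74 Pool.Agent.W_7d29a1_C1.P21
open Pool.Agent.W_7d29a1_F
open Pool.Agent.W_7d29a1_C1.K91P (fw bw bw_pos bw_succ shp GG fw_nonneg)
open Pool.Agent.W_7d29a1_C1.K91 (wt wt_pos shw)
open Pool.Agent.W_7d29a1_C1.K97 (Nr Reg)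
open Pool.Agent.W_7d29a1_C1.Nbr78 (DD DU StE78)
open Pool.Agent.W_7d29a1_C1.H56 (pN)
open Pool.Agent.W_7d29a1_C1.L91 (Nb fC GG_fC KC)
open Pool.Agent.W_7d29a1_C1.H60
open Pool.Agent.W_7d29a1_C1.H60.Cx (l uc)
open Pool.Agent.W_7d29a1_C1.H1c (SucN SucT rrn ect ept)

noncomputable section

variable {w : ℕ → ℤ → ℝ} {p : ℕ → ℝ} {N : ℕ} {hi : ℤ} {X t P : ℝ} {m0 : ℕ}

/-- **The local facts of all rows.** -/
structure Lc21 (w : ℕ → ℤ → ℝ) (p : ℕ → ℝ) (N : ℕ) (hi : ℤ) (X t : ℝ) (m0 : ℕ) : Prop where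
  X0 : 0 ≤ X
  t0 : 0 ≤ t
  nb : ∀ i j : ℕ, i + j ≤ N → ∀ y ∈ Icc (0 : ℤ) (hi + 1), |Real.log (bw w p i j y) - Real.log (bw w p i j (y - 1))| ≤ X
  wt : ∀ i ≤ N, ∀ y ∈ Icc (-1 : ℤ) (hi + 1), Real.exp (-X) ≤ w i y ∧ w i y ≤ Real.exp X
  st : ∀ i j : ℕ, i + (m0 + j) ≤ N → ∀ y ∈ Icc (-1 : ℤ) hi, DD w p j m0 i y ≤ t * bw w p i (m0 + j) y

theorem ratio_of_log {a b : ℝ} (ha : 0 < a) (hb : 0 < b) (h : |Real.log a - Real.log b| ≤ X) :
    a ≤ Real.exp X * b ∧ b ≤ Real.exp X * a := by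
  rw [abs_le] at h
  constructor
  · have := Real.exp_le_exp.2 (show Real.log a ≤ X + Real.log b by linarith [h.2])
    rwa [Real.exp_add, Real.exp_log ha, Real.exp_log hb] at this
  · have := Real.exp_le_exp.2 (show Real.log b ≤ X + Real.log a by linarith [h.1])
    rwa [Real.exp_add, Real.exp_log ha, Real.exp_log hb] at this

/-- Neighbours of a profile. -/
theorem Lc21.rat (hw : ∀ k y, 0 < w k y) (hp : ∀ k, 0 < p k) (h : Lc21 w p N hi X t m0) {i j : ℕ} (hij : i + j ≤ N) {y : ℤ}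
    (h1 : 0 ≤ y) (h2 : y ≤ hi + 1) :
    bw w p i j y ≤ Real.exp X * bw w p i j (y - 1) ∧ bw w p i j (y - 1) ≤ Real.exp X * bw w p i j y :=
  ratio_of_log (bw_pos hw hp _ _ _) (bw_pos hw hp _ _ _) (h.nb i j hij y (mem_Icc.2 ⟨h1, h2⟩))

/-- The ratio of `SucN` and `Row21`. -/
theorem Lc21.ri (hw : ∀ k y, 0 < w k y) (hp : ∀ k, 0 < p k) (h : Lc21 w p N hi X t m0) {i j : ℕ} (hij : i + j ≤ N) {y : ℤ}
    (hy : y ∈ Icc (0 : ℤ) hi) : bw w p i j (y - 1) ≤ Real.exp X * bw w p i j y ∧ bw w p i j (y + 1) ≤ Real.exp X * bw w p i j y := by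
  rw [mem_Icc] at hy
  refine ⟨(h.rat hw hp hij hy.1 (by omega)).2, ?_⟩
  have := (h.rat hw hp hij (show (0 : ℤ) ≤ y + 1 by omega) (by omega)).1
  rwa [add_sub_cancel_right] at this

/-- The regularity at a cut. -/
theorem Lc21.reg (hw : ∀ k y, 0 < w k y) (hp : ∀ k, 0 < p k) (h : Lc21 w p N hi X t m0) {k i j : ℕ} (hk : k ≤ N) (hij : i + j ≤ N)
    {q : ℤ} (h1 : 1 ≤ q) (h2 : q ≤ hi) : Reg 0 hi (w k) (bw w p i j) q (Real.exp X) := by
  have a1 := h.wt k hk (q - 1) (mem_Icc.2 ⟨by omega, by omega⟩)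
  have a2 := h.wt k hk q (mem_Icc.2 ⟨by omega, by omega⟩)
  have r := h.rat hw hp hij (show (0 : ℤ) ≤ q by omega) (by omega)
  have E := Real.exp_pos X
  have e : Real.exp X * Real.exp (-X) = 1 := by rw [← Real.exp_add]; simp
  refine ⟨Real.one_le_exp h.X0, mem_Icc.2 ⟨by omega, by omega⟩, mem_Icc.2 ⟨by omega, h2⟩, ?_, ?_, a1.2, a2.2, r.2, r.1⟩
  · rw [← e]
    exact mul_le_mul_of_nonneg_left a1.1 E.le
  · rw [← e]
    exact mul_le_mul_of_nonneg_left a2.1 E.le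

/-- The left neighbour of the off profile. -/
theorem Lc21.dn (hw : ∀ k y, 0 < w k y) (hp : ∀ k, 0 < p k) (h : Lc21 w p N hi X t m0) (hP0 : 0 ≤ P) (hP : ∀ i, p i ≤ P) (Q : ℤ → Prop)
    [DecidablePred Q] {r n2 M : ℕ} (hn : m0 ≤ n2) (hr : r + (n2 + M) ≤ N) {y : ℤ} (hy : y ∈ Icc (0 : ℤ) hi) :
    ev w p r n2 M Q (y - 1) ≤ (Real.exp (2 * X) * (1 + P)) ^ m0 * ev w p r n2 M Q y + t * bw w p r (n2 + M) (y - 1) := by
  obtain ⟨nu, rfl⟩ : ∃ nu, n2 = m0 + nu := ⟨n2 - m0, by omega⟩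
  rw [mem_Icc] at hy
  refine off_dn21 hw hp Q (Real.one_le_exp (by have := h.X0; linarith)) hP0 M (fun i hi' => ⟨?_, hP _⟩) ?_
  · have a1 := h.wt (r + i) (by omega) (y - 1) (mem_Icc.2 ⟨by omega, by omega⟩)
    have a2 := h.wt (r + i) (by omega) y (mem_Icc.2 ⟨by omega, by omega⟩)
    have e : Real.exp (2 * X) * Real.exp (-X) = Real.exp X := by
      rw [← Real.exp_add]
      congr 1
      ring
    have := mul_le_mul_of_nonneg_left a2.1 (Real.exp_pos (2 * X)).le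
    linarith [a1.2]
  · have := h.st r (nu + M) (by omega) (y - 1) (mem_Icc.2 ⟨by omega, by omega⟩)
    have e : m0 + (nu + M) = m0 + nu + M := by ring
    rwa [e] at this

/-- **`Nb`.** -/
theorem Lc21.nbc {Γ : Cx} {η : Env} (h : Lc21 (K91.wt η) Γ.p Γ.N Γ.hi X t m0) {i : ℕ} (hi' : i < Γ.N) : Nb Γ η i X := by
  have hw : ∀ k y, 0 < K91.wt η k y := K91.wt_pos η
  have hp : ∀ k, 0 < Γ.p k := L91.p_pos
  have hk : (0 : ℤ) ≤ Γ.hi := by unfold Cx.hi; positivity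
  have hkk : (Γ.k : ℤ) ≤ Γ.hi := by unfold Cx.hi; omega
  refine ⟨h.X0, fun y hy => ?_, fun y hy => ?_, fun y hy => ?_⟩
  · rw [mem_Icc] at hy
    have r1 := h.rat hw hp (i := i + 1) (j := Γ.N - (i + 1)) (by omega) hy.1 (by omega)
    have r2 := h.rat hw hp (i := i + 1) (j := Γ.N - (i + 1)) (by omega) (show (0 : ℤ) ≤ y + 1 by omega) (by omega)
    rw [add_sub_cancel_right] at r2
    have pp := hp i
    have b0 := fun z : ℤ => bw_pos hw hp (Γ.N - (i + 1)) (i + 1) z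
    have g : ∀ z : ℤ, GG (K91.wt η) Γ.p Γ.N i z = bw (K91.wt η) Γ.p (i + 1) (Γ.N - (i + 1)) z +
        Γ.p i * bw (K91.wt η) Γ.p (i + 1) (Γ.N - (i + 1)) (z + 1) := fun z => rfl
    have g1 : GG (K91.wt η) Γ.p Γ.N i y ≤ Real.exp X * GG (K91.wt η) Γ.p Γ.N i (y - 1) := by
      rw [g, g, sub_add_cancel]
      have := mul_le_mul_of_nonneg_left r2.1 pp.le
      linarith [r1.1]
    have g2 : GG (K91.wt η) Γ.p Γ.N i (y - 1) ≤ Real.exp X * GG (K91.wt η) Γ.p Γ.N i y := by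
      rw [g, g, sub_add_cancel]
      have := mul_le_mul_of_nonneg_left r2.2 pp.le
      linarith [r1.2]
    have q1 : 0 < GG (K91.wt η) Γ.p Γ.N i y := by
      rw [g]
      have := b0 y
      have := b0 (y + 1)
      positivity
    have q2 : 0 < GG (K91.wt η) Γ.p Γ.N i (y - 1) := by
      rw [g]
      have := b0 (y - 1)
      have := b0 (y - 1 + 1)
      positivity
    have l1 := Real.log_le_log q1 g1
    have l2 := Real.log_le_log q2 g2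
    rw [Real.log_mul (Real.exp_pos X).ne' q2.ne', Real.log_exp] at l1
    rw [Real.log_mul (Real.exp_pos X).ne' q1.ne', Real.log_exp] at l2
    rw [abs_le]
    constructor <;> linarith
  · rw [mem_Icc] at hy
    have := h.nb (i + 1) (Γ.N - (i + 1)) (by omega) y (mem_Icc.2 ⟨by omega, by omega⟩)
    rw [abs_sub_comm]
    exact this
  · rw [mem_Icc] at hy
    have := h.nb 0 Γ.N (by omega) y (mem_Icc.2 ⟨by omega, by omega⟩)
    rw [abs_sub_comm]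
    exact this

/-- The logarithmic ratio of two weights. -/
theorem Lc21.uc_le {Γ : Cx} {η : Env} (h : Lc21 (K91.wt η) Γ.p Γ.N Γ.hi X t m0) {i : ℕ} (hi' : i ≤ Γ.N) {x : ℤ} (h1 : 1 ≤ x)
    (h2 : x ≤ Γ.hi + 1) : uc (i, x) η ≤ 2 * X := by
  have a1 := h.wt i hi' (x - 1) (mem_Icc.2 ⟨by omega, by omega⟩)
  have a2 := h.wt i hi' x (mem_Icc.2 ⟨by omega, by omega⟩)
  have w1 := K91.wt_pos η i (x - 1)
  have w2 := K91.wt_pos η i x
  have b1 := Real.log_le_log (Real.exp_pos _) a1.1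
  have b2 := Real.log_le_log w1 a1.2
  have b3 := Real.log_le_log (Real.exp_pos _) a2.1
  have b4 := Real.log_le_log w2 a2.2
  rw [Real.log_exp] at b1 b2 b3 b4
  show |Real.log (K91.wt η i (x - 1)) - Real.log (K91.wt η i x)| ≤ 2 * X
  rw [abs_le]
  constructor <;> linarith

/-- **From the event of helper78.** -/
theorem lc_of78 {Γ : Cx} {η : Env} {N' : ℕ} {dl c' : ℝ} (h : StE78 Γ.s Γ.h Γ.M N' dl c' η) (hN : Γ.N ≤ 4 * N' ^ 3)
    (hc : Γ.hi + 1 ≤ (N' : ℤ) ^ 4) :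
    Lc21 (K91.wt η) Γ.p Γ.N Γ.hi ((N' : ℝ) ^ dl) (Real.exp (-(N' : ℝ) ^ c')) ⌈(N' : ℝ) ^ dl⌉₊ := by
  have hk : (0 : ℤ) ≤ Γ.hi := by unfold Cx.hi; positivity
  have X0 : 0 ≤ (N' : ℝ) ^ dl := Real.rpow_nonneg (Nat.cast_nonneg _) _
  have ep : Γ.p = pN Γ.s Γ.h Γ.M := rfl
  refine ⟨X0, (Real.exp_pos _).le, fun i j hij y hy => ?_, fun i hi' y hy => ?_, fun i j hij y hy => ?_⟩
  · rw [mem_Icc] at hy
    rw [ep]
    exact h.1 i j (by omega) y (by rw [abs_le]; constructor <;> omega)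
  · rw [mem_Icc] at hy
    have a := h.2.2 i (by omega) y (by rw [abs_le]; constructor <;> omega)
    rw [abs_le] at a
    unfold K91.wt
    split_ifs
    · constructor
      · rw [Real.exp_le_one_iff]
        linarith
      · exact Real.one_le_exp X0
    · exact ⟨Real.exp_le_exp.2 (by linarith [a.1]), Real.exp_le_exp.2 a.2⟩
  · rw [mem_Icc] at hy
    rw [ep]
    exact (h.2.1 i j (by omega) y (by rw [abs_le]; constructor <;> omega)).2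

/-- The support of the left group. -/
theorem sup_l {Γ : Cx} {η : Env} {c0 : ℕ} {y : ℤ} (hy : fw (K91.wt η) Γ.p l c0 y ≠ 0) : 0 ≤ y ∧ y ≤ (Γ.k : ℤ) + c0 := by
  by_contra hc
  refine hy ?_
  by_cases h1 : 0 ≤ y
  · refine K91P.fw_hi (B := Γ.k) (fun z hz => ?_) c0 y (by omega)
    unfold Cx.l
    rw [if_neg (by omega)]
  · refine K91P.fw_lo (fun z hz => ?_) c0 y (show y < 0 by omega)
    unfold Cx.l
    rw [if_neg (by omega)]

/-- The support of the right group. -/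
theorem sup_r {Γ : Cx} {η : Env} {c0 : ℕ} {y : ℤ} (hy : fw (K91.wt η) Γ.p Γ.r c0 y ≠ 0) : 0 ≤ y ∧ y ≤ (Γ.k : ℤ) + c0 := by
  by_contra hc
  refine hy ?_
  by_cases h1 : 0 ≤ y
  · refine K91P.fw_hi (B := Γ.k) (fun z hz => ?_) c0 y (by omega)
    unfold Cx.r
    rw [if_neg (by omega)]
  · refine K91P.fw_lo (fun z hz => ?_) c0 y (show y < 0 by omega)
    unfold Cx.r
    rw [if_neg (by omega)]

section final

variable {Γ : Cx} {η : Env} {c0 n1 ne nb n3 m D' : ℕ} {a1 b1 a2 b2 xa xb s da db ya yb za zb : ℤ}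
  {ph p1 pe p2 p3 ph' p1' pe' p2' p3' : ℤ → ℝ}
  {δ e e1 e2 U L L0 V A0 A1 A2 A3 G0 ε ε' M τ τ' ef Uf Lf : ℝ}

/-- **SUCCESS => H1 AT ALL CONTACTS OF THE MIDDLE ROWS.** -/
theorem sucT21 (h : Γ.Ok)
    (S : All (K91.wt η) Γ.p 0 (Γ.k + c0) c0 n1 ne nb n3 a1 b1 a2 b2 xa xb s da db ya yb za zb ph p1 pe p2 p3 δ e U L L0 A0 A1 A2 A3)
    (F : Fut (K91.wt η) Γ.p 0 (Γ.k + c0 + n1 + ne + nb + n3) (c0 + n1 + ne + nb + n3) m za zb p3 V G0)
    (S' : All (K91.wt η) Γ.p 0 (Γ.k + c0) c0 n1 ne nb n3 a1 b1 a2 b2 xa xb s da db ya yb za zb ph' p1' pe' p2' p3' δ ef Uf Lf L0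
      A0 A1 A2 A3)
    (hp3 : ∀ z ∈ Icc (0 : ℤ) (Γ.k + c0 + n1 + ne + nb + n3), 1 ≤ p3' z)
    (I : SeamIn 0 (Γ.k + c0) (fw (K91.wt η) Γ.p l c0) (fw (K91.wt η) Γ.p Γ.r c0) a1 b1 a2 b2 ph e1 e2) (he1 : 0 ≤ e1) (he2 : 0 ≤ e2)
    (hN : c0 + (n1 + ne + nb + n3) + m = Γ.N) (ha2 : a2 ≤ c0) (C : Lc21 (K91.wt η) Γ.p Γ.N Γ.hi X t m0)
    (hn : n1 ≤ D') (hD : D' + m0 ≤ n1 + ne + nb) (hP : ∀ i, Γ.p i ≤ P)
    (hε : e * (V * L * U * L) * (V * L * U * L) ≤ ε) (hεf : ef * (Lf * Uf * Lf) * (Lf * Uf * Lf) ≤ ε)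
    (hε1 : e1 * (V * L * U * L) * (V * L * U * L) ≤ ε) (sm : δ + 12 * ε ≤ 1 / 4)
    (he : ∀ i, (Real.exp (2 * X) * (1 + P)) ^ m0 / min 1 (Γ.p i) * ε + t ≤ ε')
    (e1' : ∀ i, (1 + Γ.p i) * et (Γ.p i) δ ε' (Real.exp X) ≤ 1 / 2) (hM1 : Real.exp (M + 1) * (e2 * L0 ^ 4) ≤ 1)
    (hM : ∀ i, Real.log (rrn (Γ.p i) (Real.exp X) ((Lf * Uf * Lf) ^ 2)) + 1 ≤ M)
    (hτ : ∀ i, ect (Γ.p i) (Real.exp X) (et (Γ.p i) δ ε' (Real.exp X)) (rrn (Γ.p i) (Real.exp X) ((Lf * Uf * Lf) ^ 2))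
      (KC Γ i (2 * X) X) M ≤ τ)
    (hτ' : ∀ i, ept (Γ.p i) (et (Γ.p i) δ ε' (Real.exp X)) (rrn (Γ.p i) (Real.exp X) ((Lf * Uf * Lf) ^ 2)) M ≤ τ') :
    SucT Γ η c0 n1 D' (n1 + ne + nb + n3) a1 a2 τ τ' := by
  have hw : ∀ k y, 0 < K91.wt η k y := K91.wt_pos η
  have hp : ∀ k, 0 < Γ.p k := L91.p_pos
  have P0 : 0 ≤ P := (hp 0).le.trans (hP 0)
  have hk1 : (1 : ℤ) ≤ Γ.k := by exact_mod_cast h.k1
  have hi0 : (0 : ℤ) ≤ Γ.hi := by unfold Cx.hi; positivity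
  have g := S.g
  have g1 := g.h1
  have g2 := g.h2
  have g7 := g.h7
  have ε0 : 0 ≤ ε := by
    refine le_trans ?_ hε
    have V1 := F.V1
    have L1 := S.L1
    have U1 := S.U1
    have := S.e0
    positivity
  have δ0 := S.δ0
  have F0 : Fut (K91.wt η) Γ.p 0 (Γ.k + c0 + n1 + ne + nb + n3) (c0 + n1 + ne + nb + n3) 0 za zb p3' 1 1 := Fut.flat le_rfl hp3
  have β1 : 1 ≤ (Real.exp (2 * X) * (1 + P)) ^ m0 := by
    refine one_le_pow₀ ?_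
    have := Real.one_le_exp (show 0 ≤ 2 * X by linarith [C.X0])
    nlinarith
  refine SucT.of h hn (by omega) (by omega) g7 (by omega) ha2 (u := 2 * X) (X := X) (fun K h1 h2 => C.nbc (by omega))
    (fun K h1 h2 x hx => C.uc_le (by omega) (mem_Icc.1 hx).1 (by
      have := (mem_Icc.1 hx).2
      unfold Cx.hi
      omega)) fun K h1 h2 x hx => ?_
  obtain ⟨n2, hn2⟩ : ∃ n2, K + (n2 + 1) = n1 + ne + nb := ⟨n1 + ne + nb - (K + 1), by omega⟩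
  have em : Γ.N - (c0 + K + 1) = n2 + (n3 + m) := by omega
  have hx' := mem_Icc.1 hx
  have hxh : x ≤ Γ.hi := by
    unfold Cx.hi
    omega
  have hm0 : m0 ≤ n2 := by omega
  have eJ : n1 + ne + nb + n3 - (K + 1) = n2 + n3 := by omega
  refine ⟨_, _, _, _, _, Real.exp X, et (Γ.p (c0 + K)) δ ε' (Real.exp X), Real.exp X, (Lf * Uf * Lf) ^ 2, M,
    sucn21 (k := c0 + K) (hi := Γ.hi) (q := x) (rr := Γ.r) (l := l) (J := n1 + ne + nb + n3 - (K + 1)) (n2 := n2) (m := m)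
      (β := (Real.exp (2 * X) * (1 + P)) ^ m0) (t := t) hw hp S F S' F0 Cx.l_nonneg
      (Cx.r_nonneg h) (fun y => sup_l) (fun y => sup_r) I he1 he2 h1 hn2 rfl eJ ?_ ?_ hε hεf hε1 sm (by linarith) (Real.one_le_exp C.X0)
      β1 C.t0 (he _) ?_ ?_ ?_ ?_ ?_ ?_ (e1' _) hM1 (hM _), hτ _, hτ' _⟩
  · unfold Cx.hi
    omega
  · unfold fC
    rw [em]
  · unfold fC
    exact C.reg hw hp (by omega) (by omega) hx'.1 hxh
  · rw [eJ]
    exact C.reg hw hp (by omega) (by omega) hx'.1 hxh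
  · intro y hy
    unfold fC
    exact C.ri hw hp (by omega) hy
  · intro y hy
    rw [eJ]
    exact C.ri hw hp (by omega) hy
  · intro y hy
    exact C.dn hw hp P0 hP _ hm0 (by omega) hy
  · intro y hy
    exact C.dn hw hp P0 hP _ hm0 (by omega) hy

end final

end

end Pool.Agent.W_7d29a1_C1.Sh21
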