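import Pool.Agent.W_7d29a1_C1.HB10
import Pool.Agent.W_7d29a1_C1.SucT21
import Pool.Agent.W_7d29a1_C1.InvB9

/-!
Both halves (MP_7d29a1_pr), attractor route [C1]: THE BALANCE POINT ON A SUCCESS IS A FUNCTION OF THE OUTSIDE. (helper9)

`bO9` : the logarithmic ratio of the two profiles on the cells of the first seam (rows before the seam only); `bal9` : the balance
point is `bO9` up to the logarithms of the constants (over `H10.B_bal`, `H10.Bal.of21`, helper10); `hB_of_bal9` : the field `hB` of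
`pdg9`.
-/

set_option autoImplicit false
set_option linter.unusedSectionVars false

namespace Pool.Agent.W_7d29a1_C1.Pd9

open MeasureTheory Finset
open Pool.Agent.W_7d29a1_F Pool.Agent.W_7d29a1_C1.S71 Pool.Agent.W_7d29a1_C1.Sw9
open Pool.Agent.W_7d29a1_C1.K91 (wt wt_pos)
open Pool.Agent.W_7d29a1_C1.K91P (fw bw fw_congr)
open Pool.Agent.W_7d29a1_C1.H60
open Pool.Agent.W_7d29a1_C1.Sh21 (All SeamIn Lc21)

noncomputable section

/-- **The balance point seen from outside**: the two profiles on the cells at the seam row `c0`. -/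
def bO9 (Γ : Cx) (c0 : ℕ) (a1 b1 a2 b2 : ℤ) (η : Env) : ℝ :=
  Real.log (∑ x ∈ F74.cl2 a1 b1 a2 b2, fw (wt η) Γ.p Γ.r c0 x) -
    Real.log (∑ x ∈ F74.cl2 a1 b1 a2 b2, fw (wt η) Γ.p Cx.l c0 x)

theorem bO9_congr (Γ : Cx) {c0 : ℕ} (a1 b1 a2 b2 : ℤ) {η η' : Env} (h : ∀ q : Pt, q.1 < c0 → η q = η' q) :
    bO9 Γ c0 a1 b1 a2 b2 η = bO9 Γ c0 a1 b1 a2 b2 η' := by
  have hw : ∀ j, j < c0 → ∀ y, wt η j y = wt η' j y := fun j hj y => by
    unfold wt
    rw [h ((j : ℤ), y) (by show ((j : ℕ) : ℤ) < c0; exact_mod_cast hj)]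
  unfold bO9
  rw [sum_congr rfl fun x _ => fw_congr (l := Γ.r) c0 hw x, sum_congr rfl fun x _ => fw_congr (l := Cx.l) c0 hw x]

/-- A region in the rows after the seam is not read. -/
theorem bO9_off (Γ : Cx) {c0 : ℕ} (a1 b1 a2 b2 : ℤ) {Q : Set Pt} (hQ : ∀ q ∈ Q, (c0 : ℤ) ≤ q.1) :
    OffF Q (bO9 Γ c0 a1 b1 a2 b2) := by
  intro η η' h
  exact bO9_congr Γ a1 b1 a2 b2 fun q hq => h q fun hq' => by
    have := hQ q hq'
    omega

theorem measurable_bO9 (Γ : Cx) (c0 : ℕ) (a1 b1 a2 b2 : ℤ) : Measurable (bO9 Γ c0 a1 b1 a2 b2) := by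
  have m : ∀ l : ℤ → ℝ, Measurable fun η : Env => ∑ x ∈ F74.cl2 a1 b1 a2 b2, fw (wt η) Γ.p l c0 x := fun l =>
    Finset.measurable_sum _ fun x _ => K91P.meas_fw l c0 x
  exact (Real.measurable_log.comp (m Γ.r)).sub (Real.measurable_log.comp (m Cx.l))

variable {Γ : Cx}

/-- **THE BALANCE POINT ON A SUCCESS.** -/
theorem bal9 (hG : L91.Msk Γ) {η : Env} {X t : ℝ} {m0 : ℕ} (Lc : Lc21 (wt η) Γ.p Γ.N Γ.hi X t m0)
    {h : ℤ} {c0 n1 ne nb n3 m : ℕ} {a1 b1 a2 b2 xa xb s da db ya yb za zb : ℤ}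
    {ph p1 pe p2 p3 : ℤ → ℝ} {δ e e1 e2 U L L0 V A0 A1 A2 A3 G0 : ℝ}
    (S : All (wt η) Γ.p 0 h c0 n1 ne nb n3 a1 b1 a2 b2 xa xb s da db ya yb za zb ph p1 pe p2 p3 δ e U L L0 A0 A1 A2 A3)
    (F : Sh21.Fut (wt η) Γ.p 0 (h + n1 + ne + nb + n3) (c0 + n1 + ne + nb + n3) m za zb p3 V G0)
    (I : SeamIn 0 h (fw (wt η) Γ.p Cx.l c0) (fw (wt η) Γ.p Γ.r c0) a1 b1 a2 b2 ph e1 e2)
    (hN : c0 + (n1 + ne + (nb + (n3 + m))) = Γ.N) (h1 : Γ.hi - Γ.N + c0 ≤ h) (h2 : h ≤ Γ.hi) (he0 : 0 ≤ e1) (he1 : e1 ≤ 1) :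
    |Γ.B η - bO9 Γ c0 a1 b1 a2 b2 η| ≤ X + 2 * (Real.log V + 2 * Real.log L + Real.log U + Real.log 2) := by
  have hX : ∀ y ∈ Icc (1 : ℤ) Γ.k, |Real.log (bw (wt η) Γ.p 0 Γ.N (y - 1)) - Real.log (bw (wt η) Γ.p 0 Γ.N y)| ≤ X := by
    intro y hy
    rw [mem_Icc] at hy
    rw [abs_sub_comm]
    exact Lc.nb 0 Γ.N (by omega) y (mem_Icc.2 ⟨by omega, by unfold Cx.hi; omega⟩)
  have k := H10.B_bal hG hX (H10.Bal.of21 hG S F I hN h1 h2 he0)
  have V1 := F.V1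
  have L1 := S.L1
  have U1 := S.U1
  have e : Real.log (V * L * U * L) = Real.log V + 2 * Real.log L + Real.log U := by
    rw [Real.log_mul (by positivity) (by positivity), Real.log_mul (by positivity) (by positivity),
      Real.log_mul (by positivity) (by positivity)]
    ring
  have l1 : Real.log (1 + e1) ≤ Real.log 2 := Real.log_le_log (by linarith) (by linarith)
  rw [e] at k
  refine k.trans ?_
  linarith

/-- The field `hB` of `pdg9`: `B` is close to a function `bO` of the box which does not read the region. -/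
theorem hB_of_bal9 {ι Z : Type*} {S : Finset ι} {m : ℕ} {A : ℕ → Set Pt} {z : ℕ → ι → Z} {x : ℕ → ι → Pt}
    (hz : ∀ l < m, ∀ c ∈ S, ∀ d ∈ S, x l c = x l d → z l c = z l d) {Sc : ℕ → ι → Set Env} {Bd : Set Env} {B : Env → ℝ}
    {bO : ℕ → Z → Env → ℝ} {o : ℝ} (hO : ∀ l < m, ∀ c ∈ S, (Sc l c).Nonempty → OffF (At (x l c) (A l)) (bO l (z l c)))
    (hb : ∀ l < m, ∀ c ∈ S, ∀ η ∈ Sc l c, η ∉ Bd → |B η - bO l (z l c) η| ≤ o) :
    ∀ l < m, ∀ c ∈ S, ∀ d ∈ S, x l c = x l d → ∀ η ∈ Sc l c, ∀ η' ∈ Sc l d, η ∉ Bd → η' ∉ Bd →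
      (∀ q, q ∉ A l → sh (x l c) η q = sh (x l c) η' q) → |B η - B η'| ≤ 2 * o := by
  intro l hl c hc d hd hx η hη η' hη' hB hB' hs
  have k := hb l hl c hc η hη hB
  have k' := hb l hl d hd η' hη' hB'
  rw [← hz l hl c hc d hd hx] at k'
  have e : bO l (z l c) η = bO l (z l c) η' := by
    refine hO l hl c hc ⟨η, hη⟩ η η' fun q hq => ?_
    have := hs (q - x l c) hq
    have e1 : sh (x l c) η (q - x l c) = η q := by
      show η (q - x l c + x l c) = η q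
      rw [sub_add_cancel]
    have e2 : sh (x l c) η' (q - x l c) = η' q := by
      show η' (q - x l c + x l c) = η' q
      rw [sub_add_cancel]
    rwa [e1, e2] at this
  rw [← e] at k'
  rw [abs_le] at k k' ⊢
  constructor <;> linarith [k.1, k.2, k'.1, k'.2]

end

end Pool.Agent.W_7d29a1_C1.Pd9
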