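import Pool.Agent.W_7d29a1_C1.TamK16
import Pool.Agent.W_7d29a1_C1.KerP16

/-!
MP_7d29a1_pr, attractor route [C1], SHELL: MOST OF THE FUTURE OF A FAR PLACE STAYS FAR, IN THE MODEL. (helper31)

`sub31`, `cut31R`, `tail31`: sub towers. `halfT31`: abstract. `stayM31`: rows `r a → R` (`Slabs`), `R → r' f'` (`Slabs`), local regularity at
`r' f'`: the part of the future of the place `x` of the row `r a` with a displacement `≥ Δ` at the row `R` is at most the half. No lower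
bound is used for the cut slabs. `stayB31`: the same in `ker`, `bw`.
-/

set_option autoImplicit false

namespace Pool.Agent.W_7d29a1_C1.D31

open MeasureTheory ProbabilityTheory Filter Topology Finset
open Pool.Agent.W_7d29a1_F Pool.Agent.W_7d29a1_h4g Pool.Agent.W_7d29a1_H Pool.Agent.W_7d29a1_HS
open Pool.Agent.W_7d29a1_C1.K91 (wt wt_pos)
open Pool.Agent.W_7d29a1_C1.K91P (bw bw_pos)
open Pool.Agent.W_7d29a1_C1.H75 Pool.Agent.W_7d29a1_C1.U16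
open Pool.Agent.W_7d29a1_C1.FarK89 Pool.Agent.W_7d29a1_C1.FarW89

noncomputable section

variable {μ : Measure ℝ} {s : ℝ} [IsProbabilityMeasure μ]

/-! ### Sub towers -/

theorem cost0_31 {c θ K h Q : ℝ} {P : ℕ} {η : Env} {κ : Pt} {r T N : ℕ → ℕ} {q : ℕ → ℝ} {bs : ℕ → Pt} {a b Tt n₁ : ℕ}
    (hw : 0 ≤ wd μ s Tt) (hwT : ∀ u, a ≤ u → u < b → 0 ≤ wd μ s (T u)) (_h : Slabs μ s c θ K h P η κ r T N q bs a b Tt n₁ Q) (u : ℕ)
    (hu : u ∈ Ico a b) : 0 ≤ (1 + q u) ^ 2 * gr (2 * P) (2 * wd μ s Tt / wd μ s (T u)) * EE μ s (T u) := by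
  rw [mem_Ico] at hu
  have h5 := hwT u hu.1 hu.2
  have h6 := EE_pos (μ := μ) (s := s) (T u)
  have h7 := gr_nonneg (2 * P) (show 0 ≤ 2 * wd μ s Tt / wd μ s (T u) by positivity)
  positivity

theorem sub31 {c θ K h Q : ℝ} {P : ℕ} {η : Env} {κ : Pt} {r T N : ℕ → ℕ} {q : ℕ → ℝ} {bs : ℕ → Pt} {a b Tt n₁ : ℕ}
    (hw : 0 ≤ wd μ s Tt) (hwT : ∀ u, a ≤ u → u < b → 0 ≤ wd μ s (T u)) (h1 : Slabs μ s c θ K h P η κ r T N q bs a b Tt n₁ Q)
    {a' b' : ℕ} (ha : a ≤ a') (hb : b' ≤ b) : Slabs μ s c θ K h P η κ r T N q bs a' b' Tt n₁ Q :=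
  ⟨fun u h2 h3 => h1.q0 u (by omega) (by omega), h1.K3, h1.Tt1, fun u h2 h3 => h1.T1 u (by omega) (by omega),
    fun u h2 h3 => h1.TT u (by omega) (by omega), fun u h2 h3 => h1.NT u (by omega) (by omega),
    fun u h2 h3 => h1.rr u (by omega) (by omega), fun u h2 h3 => h1.b1 u (by omega) (by omega),
    fun u h2 h3 => h1.b2 u (by omega) (by omega), fun u h2 h3 => h1.b3 u (by omega) (by omega),
    fun u h2 h3 => h1.far u (by omega) (by omega),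
    (sum_le_sum_of_subset_of_nonneg (Ico_subset_Ico ha hb) fun u hu _ => cost0_31 hw hwT h1 u hu).trans h1.cost, h1.force⟩

/-- The last slab is cut at the row `R`. -/
theorem cut31R {c θ K h Q : ℝ} {P : ℕ} {η : Env} {κ : Pt} {r T N : ℕ → ℕ} {q : ℕ → ℝ} {bs : ℕ → Pt} {a b Tt n₁ : ℕ}
    (h1 : Slabs μ s c θ K h P η κ r T N q bs a b Tt n₁ Q) {R : ℕ} (hR1 : ∀ u, u + 1 = b → r u ≤ R) (hR2 : R ≤ r b) :
    Slabs μ s c θ K h P η κ (fun u => if u < b then r u else R) T N q bs a b Tt n₁ Q := by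
  refine ⟨h1.q0, h1.K3, h1.Tt1, h1.T1, h1.TT, h1.NT, fun u h2 h3 => ?_, fun u h2 h3 => ?_, fun u h2 h3 => ?_, h1.b3, h1.far, h1.cost,
    h1.force⟩
  · show (if u < b then r u else R) ≤ (if u + 1 < b then r (u + 1) else R)
    rw [if_pos h3]
    split_ifs with h4
    · exact h1.rr u h2 h3
    · exact hR1 u (by omega)
  · show (bs u).1 ≤ ((if u < b then r u else R : ℕ) : ℤ)
    rw [if_pos h3]
    exact h1.b1 u h2 h3
  · show ((if u + 1 < b then r (u + 1) else R : ℕ) : ℤ) ≤ (bs u).1 + N u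
    have h5 := h1.b2 u h2 h3
    split_ifs with h4
    · exact h5
    · have h6 : u + 1 = b := by omega
      rw [h6] at h5
      have h7 : (R : ℤ) ≤ r b := by exact_mod_cast hR2
      exact h7.trans h5

/-- The rest of the last slab. -/
theorem tail31 {c θ K h Q : ℝ} {P : ℕ} {η : Env} {κ : Pt} {r T N : ℕ → ℕ} {q : ℕ → ℝ} {bs : ℕ → Pt} {a v Tt n₁ : ℕ}
    (hw : 0 ≤ wd μ s Tt) (hwT : ∀ u, a ≤ u → u < v + 1 → 0 ≤ wd μ s (T u)) (hav : a ≤ v)
    (h1 : Slabs μ s c θ K h P η κ r T N q bs a (v + 1) Tt n₁ Q) {R : ℕ} (hR1 : r v ≤ R) (hR2 : R ≤ r (v + 1)) :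
    Slabs μ s c θ K h P η κ (fun u => if u = 0 then R else r (v + 1)) (fun _ => T v) (fun _ => N v) (fun _ => q v) (fun _ => bs v)
      0 1 Tt n₁ Q := by
  have hv : v < v + 1 := Nat.lt_succ_self v
  have hr1 : (r v : ℤ) ≤ R := by exact_mod_cast hR1
  refine ⟨fun u _ _ => h1.q0 v hav hv, h1.K3, h1.Tt1, fun u _ _ => h1.T1 v hav hv, fun u _ _ => h1.TT v hav hv,
    fun u _ _ => h1.NT v hav hv, fun u _ h3 => ?_, fun u _ h3 => ?_, fun u _ h3 => ?_, fun u _ _ => h1.b3 v hav hv,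
    fun u _ _ => h1.far v hav hv, ?_, h1.force⟩
  · have h4 : u = 0 := by omega
    subst h4
    exact hR2
  · have h4 : u = 0 := by omega
    subst h4
    exact (h1.b1 v hav hv).trans hr1
  · have h4 : u = 0 := by omega
    subst h4
    exact h1.b2 v hav hv
  · have h4 := single_le_sum (f := fun u => (1 + q u) ^ 2 * gr (2 * P) (2 * wd μ s Tt / wd μ s (T u)) * EE μ s (T u))
      (fun u hu => cost0_31 hw hwT h1 u hu) (mem_Ico.2 ⟨hav, hv⟩)
    rw [show Ico 0 1 = {0} from rfl, sum_singleton]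
    exact h4.trans h1.cost

/-! ### The half -/

/-- Most of the future is at a displacement `< Δ`, abstract, two steps: `K1` to the row `R` (profile `F1`), `K2` from there to the last row
(profile `F2`), lower bound `K3` to one site of the last row. -/
theorem halfT31 {K1 K2 K3 : ℤ → ℤ → ℝ} {F1 F2 : ℤ → ℝ} {Fx : ℝ} {n n' : ℕ} {x y₀ : ℤ} {δ : ℤ → ℝ} {δ' : ℤ → ℤ → ℝ}
    {b U1 U2 al r σ cK β Δ : ℝ} {B : Finset ℤ} (hF : K3 x y₀ * F2 y₀ ≤ Fx) (hF0 : 0 ≤ Fx) (hK1 : ∀ v, 0 ≤ K1 x v)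
    (hK0 : ∀ v, ¬ (x ≤ v ∧ v ≤ x + n) → K1 x v = 0) (hF2 : ∀ y, 0 ≤ F2 y)
    (hF1 : ∀ v, F1 v = ∑ y ∈ Icc v (v + n'), K2 v y * F2 y) (up1 : ∀ v ∈ Icc x (x + n), K1 x v ≤ Real.exp (U1 - cK * δ v))
    (up2 : ∀ v ∈ Icc x (x + n), ∀ y ∈ Icc v (v + n'), K2 v y ≤ Real.exp (U2 + β * δ v - cK * δ' v y)) (hlow : Real.exp (-al) ≤ K3 x y₀)
    (hLR : ∀ v ∈ Icc x (x + n), ∀ y ∈ Icc v (v + n'), F2 y ≤ Real.exp (r + σ * |(y : ℝ) - y₀|) * F2 y₀)
    (hdist : ∀ v ∈ Icc x (x + n), ∀ y ∈ Icc v (v + n'), |(y : ℝ) - y₀| ≤ δ' v y + δ v + 1) (hδ' : ∀ v y, 0 ≤ δ' v y)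
    (hB : ∀ v ∈ B, Δ ≤ δ v) (hσ : 0 ≤ σ) (hσc : β + σ ≤ cK) (hβ : 0 ≤ β)
    (hcard : 2 * (((n : ℝ) + 1) * ((n' : ℝ) + 1)) ≤ Real.exp b) (hnum : b + U1 + U2 + r + al + σ ≤ (cK - β - σ) * Δ) :
    ∑ v ∈ B, K1 x v * F1 v ≤ 1 / 2 * Fx := by
  classical
  have e1 : ∑ v ∈ B, K1 x v * F1 v = ∑ v ∈ B.filter (fun v => v ∈ Icc x (x + n)), K1 x v * F1 v := by
    rw [sum_filter]
    refine sum_congr rfl fun v _ => ?_
    split_ifs with h1
    · rfl
    · rw [hK0 v (fun h => h1 (mem_Icc.2 h)), zero_mul]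
  have hF2y : F2 y₀ ≤ Real.exp al * Fx := by
    have h3 := (mul_le_mul_of_nonneg_right hlow (hF2 y₀)).trans hF
    have h4 := mul_le_mul_of_nonneg_left h3 (Real.exp_pos al).le
    rwa [← mul_assoc, ← Real.exp_add, add_neg_cancel, Real.exp_zero, one_mul] at h4
  -- the profile at the row `R`
  have hR : ∀ v ∈ Icc x (x + n), F1 v ≤ ((n' : ℝ) + 1) * (Real.exp (U2 + r + σ + (β + σ) * δ v) * F2 y₀) := by
    intro v hv
    rw [hF1 v]
    have h1 : ∀ y ∈ Icc v (v + n'), K2 v y * F2 y ≤ Real.exp (U2 + r + σ + (β + σ) * δ v) * F2 y₀ := by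
      intro y hy
      have t1 := mul_le_mul (up2 v hv y hy) (hLR v hv y hy) (hF2 y) (Real.exp_pos _).le
      refine t1.trans ?_
      rw [← mul_assoc, ← Real.exp_add]
      refine mul_le_mul_of_nonneg_right (Real.exp_le_exp.2 ?_) (hF2 y₀)
      have t2 := mul_le_mul_of_nonneg_left (hdist v hv y hy) hσ
      have t3 : σ * δ' v y ≤ cK * δ' v y := mul_le_mul_of_nonneg_right (by linarith) (hδ' v y)
      linarith [show σ * (δ' v y + δ v + 1) = σ * δ' v y + σ * δ v + σ by ring, show (β + σ) * δ v = β * δ v + σ * δ v by ring]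
    refine (sum_le_sum h1).trans ?_
    rw [sum_const, nsmul_eq_mul]
    refine mul_le_mul_of_nonneg_right ?_ (mul_nonneg (Real.exp_pos _).le (hF2 y₀))
    rw [Int.card_Icc]
    have : (v + (n' : ℤ) + 1 - v).toNat = n' + 1 := by omega
    rw [this]
    push_cast
    exact le_rfl
  have h1 : ∀ v ∈ B.filter (fun v => v ∈ Icc x (x + n)), K1 x v * F1 v ≤ ((n' : ℝ) + 1) * (Real.exp (-b) * Fx) := by
    intro v hv
    obtain ⟨hvB, hv⟩ := mem_filter.1 hv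
    have t0 : 0 ≤ ((n' : ℝ) + 1) * (Real.exp (U2 + r + σ + (β + σ) * δ v) * F2 y₀) :=
      mul_nonneg (by positivity) (mul_nonneg (Real.exp_pos _).le (hF2 y₀))
    have t1 : K1 x v * F1 v ≤ Real.exp (U1 - cK * δ v) * (((n' : ℝ) + 1) * (Real.exp (U2 + r + σ + (β + σ) * δ v) * F2 y₀)) :=
      (mul_le_mul_of_nonneg_left (hR v hv) (hK1 v)).trans (mul_le_mul_of_nonneg_right (up1 v hv) t0)
    have t3 := mul_le_mul_of_nonneg_left (hB v hvB) (show 0 ≤ cK - β - σ by linarith)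
    have t4 : Real.exp (U1 - cK * δ v) * Real.exp (U2 + r + σ + (β + σ) * δ v) ≤ Real.exp (-b) * Real.exp (-al) := by
      rw [← Real.exp_add, ← Real.exp_add]
      refine Real.exp_le_exp.2 ?_
      linarith [show (cK - β - σ) * δ v = cK * δ v - (β + σ) * δ v by ring]
    calc K1 x v * F1 v ≤ _ := t1
      _ = ((n' : ℝ) + 1) * (Real.exp (U1 - cK * δ v) * Real.exp (U2 + r + σ + (β + σ) * δ v) * F2 y₀) := by ring
      _ ≤ ((n' : ℝ) + 1) * (Real.exp (-b) * Real.exp (-al) * (Real.exp al * Fx)) :=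
        mul_le_mul_of_nonneg_left (mul_le_mul t4 hF2y (hF2 y₀) (by positivity)) (by positivity)
      _ = ((n' : ℝ) + 1) * (Real.exp (-b) * (Real.exp (-al) * Real.exp al) * Fx) := by ring
      _ = _ := by rw [← Real.exp_add, neg_add_cancel, Real.exp_zero, mul_one]
  rw [e1]
  refine (sum_le_sum h1).trans ?_
  rw [sum_const, nsmul_eq_mul]
  have hc : ((B.filter (fun v => v ∈ Icc x (x + n))).card : ℝ) ≤ (n : ℝ) + 1 := by
    have h2 : (B.filter (fun v => v ∈ Icc x (x + n))).card ≤ (Icc x (x + (n : ℤ))).card :=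
      card_le_card fun y hy => (mem_filter.1 hy).2
    rw [Int.card_Icc] at h2
    have h3 : (x + (n : ℤ) + 1 - x).toNat = n + 1 := by omega
    rw [h3] at h2
    exact_mod_cast h2
  have h2 := mul_le_mul_of_nonneg_right hcard (mul_nonneg (Real.exp_pos (-b)).le hF0)
  rw [← mul_assoc (Real.exp b), ← Real.exp_add, add_neg_cancel, Real.exp_zero, one_mul] at h2
  have h3 := mul_le_mul_of_nonneg_right hc (show 0 ≤ ((n' : ℝ) + 1) * (Real.exp (-b) * Fx) by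
    have := Real.exp_pos (-b)
    positivity)
  linarith

variable {c C : ℝ} {n₀ : ℕ}

/-- The loss of the stay. -/
def lst31 (P : ℕ) (c δ C₅ C₆ Q K w Y : ℝ) : ℝ :=
  4 + (LQ (2 * P) (c / 8) (C₅ * Q) * gr (2 * P) (Y / w) + Q) +
    (LQ (2 * P) (c / 8) (C₅ * Q) * gr (2 * P) (AQ (2 * P) δ (LQ (2 * P) (c / 8) (C₅ * Q)) + Y / w) + Q) + C₆ * Q * gr (2 * P) (Y / w + K)

/-- **STAY IN THE MODEL.** Upper bounds over the slabs `r a → R = r f = r' a' → r' f'` (any lengths), lower bound over the slabs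
`r'' a'' = r a → r'' f'' = r' f'`, local regularity at the row `r' f'`. -/
theorem stayM31 (h0 : In μ s c C n₀) (P : ℕ) {K θ : ℝ} (hK : 4 ≤ K) (hθ : 0 < θ) : ∃ C₅ C₆ : ℝ, 0 < C₅ ∧ 0 < C₆ ∧
    ∃ n₁ : ℕ, 1 ≤ n₁ ∧
    ∀ {h Q : ℝ} {η : Env} {p : ℕ → ℝ} {M N : ℕ} {κ : Pt} {r T Nr r' T' Nr' r'' T'' Nr'' : ℕ → ℕ} {q q' q'' : ℕ → ℝ} {bs bs' bs'' : ℕ → Pt}
    {a f a' f' a'' f'' Tt : ℕ}, a ≤ f → a' ≤ f' → a'' < f'' → r f = r' a' → r'' a'' = r a → r'' f'' = r' f' →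
    (∀ k, k < M → p k = Real.exp (s + h)) → (∀ k, M ≤ k → p k = Real.exp s) →
    Slabs μ s c θ K h P η κ r T Nr q bs a f Tt n₁ Q → Slabs μ s c θ K h P η κ r' T' Nr' q' bs' a' f' Tt n₁ Q →
    Slabs μ s c θ K h P η κ r'' T'' Nr'' q'' bs'' a'' f'' Tt n₁ Q →
    (∀ u, a'' ≤ u → u < f'' → θ * T'' u ≤ ((r'' (u + 1) - r'' u : ℕ) : ℝ)) →
    r' f' ≤ N → (N : ℝ) + 1 ≤ Real.exp (EE μ s Tt) →
    ∀ {Y D r₀ σ δ Δ : ℝ}, 0 ≤ σ → 0 < δ → δ * (EE μ s Tt / wd μ s Tt) + σ ≤ hc μ s c Tt / 8 → 0 ≤ Y →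
    (∀ y y₀ : ℤ, |lt μ s κ r' f' y₀| ≤ Y + 1 → |(y : ℝ) - y₀| ≤ D →
      bh16 μ s h η p M N (r' f') y ≤ Real.exp (r₀ + σ * |(y : ℝ) - y₀|) * bh16 μ s h η p M N (r' f') y₀) →
    ∀ x : ℤ, |lt μ s κ r a x| ≤ Y → ((r' f' - r a : ℕ) : ℝ) ≤ D →
    lst31 P c δ C₅ C₆ Q K (wd μ s Tt) Y * EE μ s Tt + r₀ + σ ≤ (hc μ s c Tt / 8 - δ * (EE μ s Tt / wd μ s Tt) - σ) * Δ →
    ∀ B : Finset ℤ, (∀ v ∈ B, Δ ≤ |lt μ s κ r f v - lt μ s κ r a x|) →
      ∑ v ∈ B, nk μ s h η p M (r a) (r f - r a) x v * bh16 μ s h η p M N (r f) v ≤ 1 / 2 * bh16 μ s h η p M N (r a) x := by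
  have hc0 := h0.c0
  obtain ⟨C₅, hC₅, n₃, hn₃, H2⟩ := far_up h0 P
  obtain ⟨C₆, hC₆, n₄, hn₄, H3⟩ := far_low89 h0 P hK hθ
  obtain ⟨n₅, hn₅⟩ := eventually_atTop.1 ((wd_tendsto h0).eventually_ge_atTop 2)
  refine ⟨C₅, C₆, hC₅, hC₆, max n₃ (max n₄ n₅), hn₃.trans (le_max_left _ _), ?_⟩
  intro h Q η p M N κ r T Nr r' T' Nr' r'' T'' Nr'' q q' q'' bs bs' bs'' a f a' f' a'' f'' Tt haf haf' haf'' hrr hra hrf hp hp' hS hS' hS''
    hθr hrN hN Y D r₀ σ δ Δ hσ hδ hσc hY hLR x hx hxD hnum B hB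
  have l3 : n₃ ≤ max n₃ (max n₄ n₅) := le_max_left _ _
  have l4 : n₄ ≤ max n₃ (max n₄ n₅) := (le_max_left _ _).trans (le_max_right _ _)
  have l5 : n₅ ≤ max n₃ (max n₄ n₅) := (le_max_right _ _).trans (le_max_right _ _)
  have hpp : ∀ k, 0 < p k := fun k => by
    rcases lt_or_ge k M with h1 | h1
    · rw [hp k h1]; exact Real.exp_pos _
    · rw [hp' k h1]; exact Real.exp_pos _
  have S := sys_model16 (μ := μ) (s := s) (h := h) (η := η) (p := p) (M := M) (N := N) hpp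
  have mono : ∀ {r T Nr : ℕ → ℕ} {q : ℕ → ℝ} {bs : ℕ → Pt} {a f : ℕ}, Slabs μ s c θ K h P η κ r T Nr q bs a f Tt
      (max n₃ (max n₄ n₅)) Q → ∀ {m' : ℕ}, m' ≤ max n₃ (max n₄ n₅) → Slabs μ s c θ K h P η κ r T Nr q bs a f Tt m' Q :=
    fun hS _ hm => ⟨hS.q0, hS.K3, hm.trans hS.Tt1, fun u h1 h2 => hm.trans (hS.T1 u h1 h2), hS.TT, hS.NT, hS.rr, hS.b1, hS.b2, hS.b3,
      hS.far, hS.cost, hS.force⟩
  have hw2 : ∀ {m : ℕ}, max n₃ (max n₄ n₅) ≤ m → 2 ≤ wd μ s m := fun hm => hn₅ _ (l5.trans hm)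
  have hw : 2 ≤ wd μ s Tt := hw2 hS.Tt1
  have hw0 : 0 < wd μ s Tt := by linarith
  have hE := EE_pos (μ := μ) (s := s) Tt
  have rmon : ∀ {r T Nr : ℕ → ℕ} {q : ℕ → ℝ} {bs : ℕ → Pt} {a f : ℕ}, a ≤ f → Slabs μ s c θ K h P η κ r T Nr q bs a f Tt
      (max n₃ (max n₄ n₅)) Q → r a ≤ r f := by
    intro r T Nr q bs a f haf hS
    have := r_mono (r := r) (a := a) (b := f) hS.rr (f - a) a le_rfl (by omega)
    rwa [Nat.add_sub_cancel' haf] at this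
  have hraf : r a ≤ r f := rmon haf hS
  have hraf' : r' a' ≤ r' f' := rmon haf' hS'
  have hEw : 0 < EE μ s Tt / wd μ s Tt := by positivity
  obtain ⟨n, hn⟩ : ∃ n, n = r f - r a := ⟨_, rfl⟩
  obtain ⟨n', hn'⟩ : ∃ n', n' = r' f' - r' a' := ⟨_, rfl⟩
  have hnn : n + n' = r' f' - r a := by omega
  have hQ0 : 0 ≤ Q := by
    have h3 := hS.cost
    have h4 := sum_nonneg (s := Ico a f) fun u hu => cost0_31 hw0.le (fun u h2 h3 => by linarith [hw2 (hS.T1 u h2 h3)]) hS u hu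
    exact nonneg_of_mul_nonneg_left (h4.trans h3) hE
  obtain ⟨Λ, hΛ⟩ : ∃ Λ : ℝ, Λ = LQ (2 * P) (c / 8) (C₅ * Q) := ⟨_, rfl⟩
  have hΛ0 : 0 ≤ Λ := by rw [hΛ]; exact LQ_nonneg _ (by positivity)
  -- the site on the line of `x` at the last row
  have hlt0 : lt μ s κ r'' a'' x = lt μ s κ r a x := by
    unfold lt
    rw [hra]
  have hltf : ∀ y : ℤ, lt μ s κ r'' f'' y = lt μ s κ r' f' y := fun y => by
    unfold lt
    rw [hrf]
  have hltm : ∀ y : ℤ, lt μ s κ r' a' y = lt μ s κ r f y := fun y => by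
    unfold lt
    rw [hrr]
  obtain ⟨ρ, hρ⟩ : ∃ ρ : ℝ, ρ = lt μ s κ r a x := ⟨_, rfl⟩
  obtain ⟨y₀, hy₀⟩ : ∃ y₀ : ℤ, y₀ = κ.2 + ⌊sl μ s * (((r'' f'' : ℤ) - κ.1 : ℤ) : ℝ) + ρ⌋ := ⟨_, rfl⟩
  have hline : |lt μ s κ r'' f'' y₀ - ρ| ≤ 1 := by rw [hy₀]; exact line_site κ r'' ρ f''
  have hlow := H3 haf'' hp hp' (mono hS'' l4) hθr ρ x y₀ (by
      rw [hlt0, ← hρ, sub_self, abs_zero]
      have h5 := hw2 (hS''.T1 a'' le_rfl haf'')
      nlinarith) (by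
      have h5 := hw2 (hS''.T1 (f'' - 1) (by omega) (by omega))
      refine hline.trans ?_
      nlinarith)
  have e12 : r'' f'' - r'' a'' = n + n' := by rw [hrf, hra, hnn]
  rw [hra, show r'' f'' - r a = n + n' by rw [hrf, hnn]] at hlow
  have hy₀m : x ≤ y₀ ∧ y₀ ≤ x + ((n + n' : ℕ) : ℤ) := by
    by_contra hcon
    rw [nk_eq_zero _ _ hcon] at hlow
    exact absurd hlow (not_le.2 (Real.exp_pos _))
  rw [hltf] at hline
  have hstep : ∀ v, bh16 μ s h η p M N (r f) v = ∑ y ∈ Icc v (v + (n' : ℤ)), nk μ s h η p M (r f) n' v y * bh16 μ s h η p M N (r' f') y := by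
    intro v
    have h1 := S.step (r' a') (r' f') v hraf' hrN
    rwa [← hn', ← hrr] at h1
  refine halfT31 (K1 := fun x v => nk μ s h η p M (r a) (r f - r a) x v) (K2 := fun v y => nk μ s h η p M (r f) n' v y)
    (K3 := fun x y => nk μ s h η p M (r a) (n + n') x y) (F2 := bh16 μ s h η p M N (r' f'))
    (δ := fun v => |lt μ s κ r f v - lt μ s κ r a x|) (δ' := fun v y => |lt μ s κ r' f' y - lt μ s κ r f v|)
    (b := 4 * EE μ s Tt) (r := r₀) (σ := σ) (cK := hc μ s c Tt / 8) (β := δ * (EE μ s Tt / wd μ s Tt)) (y₀ := y₀) (n := n) (n' := n') (Δ := Δ)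
    (al := C₆ * Q * gr (2 * P) (|ρ| / wd μ s Tt + K) * EE μ s Tt)
    (U1 := (Λ * gr (2 * P) (|lt μ s κ r a x| / wd μ s Tt) + Q) * EE μ s Tt)
    (U2 := (Λ * gr (2 * P) (AQ (2 * P) δ Λ + Y / wd μ s Tt) + Q) * EE μ s Tt)
    ?_ (S.b0 _ _ (by omega)).le (fun y => nk_nonneg hpp _ _ _ _) (fun y hy => nk_eq_zero _ _ (by rw [← hn]; exact hy))
    (fun y => (S.b0 _ _ hrN).le) hstep (fun y _ => ?_) (fun v hv y _ => ?_) hlow (fun v hv y hy => ?_) (fun v hv y hy => ?_)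
    (fun v y => abs_nonneg _) hB hσ hσc (by positivity) ?_ ?_
  · have h1 := S.step (r a) (r' f') x (by omega) hrN
    rw [h1, ← hnn]
    exact single_le_sum (f := fun y => nk μ s h η p M (r a) (n + n') x y * bh16 μ s h η p M N (r' f') y)
      (fun y _ => mul_nonneg (nk_nonneg hpp _ _ _ _) (S.b0 _ _ hrN).le) (mem_Icc.2 hy₀m)
  · have h1 := H2 haf hp hp' (mono hS l3) x y
    rw [← lt_sub κ r a f x y hraf, ← hΛ] at h1
    exact h1
  · have h1 := H2 haf' hp hp' (mono hS' l3) v y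
    rw [← lt_sub κ r' a' f' v y hraf', ← hΛ, ← hn', ← hrr, hltm] at h1
    refine h1.trans (Real.exp_le_exp.2 ?_)
    have g1 : gr (2 * P) (|lt μ s κ r f v| / wd μ s Tt) ≤
        gr (2 * P) (AQ (2 * P) δ Λ + (Y / wd μ s Tt + |lt μ s κ r f v - lt μ s κ r a x| / wd μ s Tt)) := by
      refine gr_mono _ (by positivity) ?_
      have h1 : |lt μ s κ r f v| ≤ Y + |lt μ s κ r f v - lt μ s κ r a x| := by
        have h2 := abs_add_le (lt μ s κ r a x) (lt μ s κ r f v - lt μ s κ r a x)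
        rw [add_sub_cancel] at h2
        linarith
      rw [← add_div]
      have h2 := div_le_div_of_nonneg_right h1 hw0.le
      have h3 := AQ_nonneg (2 * P) δ Λ
      linarith
    have g2 := lipQ (2 * P) hδ hΛ0 (le_refl Λ) (div_nonneg hY hw0.le) (div_nonneg (abs_nonneg (lt μ s κ r f v - lt μ s κ r a x)) hw0.le)
    have g3 := mul_le_mul_of_nonneg_right ((mul_le_mul_of_nonneg_left g1 hΛ0).trans g2) hE.le
    have e3 : (Λ * gr (2 * P) (AQ (2 * P) δ Λ + Y / wd μ s Tt) + δ * (|lt μ s κ r f v - lt μ s κ r a x| / wd μ s Tt)) * EE μ s Tt =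
        Λ * gr (2 * P) (AQ (2 * P) δ Λ + Y / wd μ s Tt) * EE μ s Tt +
          δ * (EE μ s Tt / wd μ s Tt) * |lt μ s κ r f v - lt μ s κ r a x| := by ring
    rw [e3] at g3
    linarith [show (Λ * gr (2 * P) (|lt μ s κ r f v| / wd μ s Tt) + Q) * EE μ s Tt =
        Λ * gr (2 * P) (|lt μ s κ r f v| / wd μ s Tt) * EE μ s Tt + Q * EE μ s Tt by ring,
      show (Λ * gr (2 * P) (AQ (2 * P) δ Λ + Y / wd μ s Tt) + Q) * EE μ s Tt =
        Λ * gr (2 * P) (AQ (2 * P) δ Λ + Y / wd μ s Tt) * EE μ s Tt + Q * EE μ s Tt by ring]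
  · refine hLR y y₀ ?_ ?_
    · have h2 := abs_add_le (lt μ s κ r' f' y₀ - ρ) ρ
      rw [sub_add_cancel] at h2
      rw [← hρ] at hx
      linarith
    · refine le_trans ?_ hxD
      rw [← hnn]
      rw [mem_Icc] at hv hy
      have h1 : (x : ℝ) ≤ v := by exact_mod_cast hv.1
      have h2 : (v : ℝ) ≤ x + n := by exact_mod_cast hv.2
      have h3 : (v : ℝ) ≤ y := by exact_mod_cast hy.1
      have h4 : (y : ℝ) ≤ v + n' := by exact_mod_cast hy.2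
      have h5 : (x : ℝ) ≤ y₀ := by exact_mod_cast hy₀m.1
      have h6 : (y₀ : ℝ) ≤ x + ((n + n' : ℕ) : ℝ) := by exact_mod_cast hy₀m.2
      push_cast at h6 ⊢
      rw [abs_le]
      constructor <;> linarith
  · have e2 : (y : ℝ) - y₀ = (lt μ s κ r' f' y - lt μ s κ r f v) + (lt μ s κ r f v - lt μ s κ r a x) - (lt μ s κ r' f' y₀ - ρ) := by
      rw [hρ]
      unfold lt lat16
      push_cast
      ring
    rw [e2]
    refine (abs_sub _ _).trans ?_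
    have := abs_add_le (lt μ s κ r' f' y - lt μ s κ r f v) (lt μ s κ r f v - lt μ s κ r a x)
    linarith
  · have h1 : Real.exp (4 * EE μ s Tt) = Real.exp (EE μ s Tt) * Real.exp (EE μ s Tt) * (Real.exp (EE μ s Tt) * Real.exp (EE μ s Tt)) := by
      rw [← Real.exp_add, ← Real.exp_add]
      congr 1
      ring
    have h2 := Real.add_one_le_exp (EE μ s Tt)
    have h3 := one_le_EE (μ := μ) (s := s) Tt
    have hnN : (n : ℝ) + 1 ≤ (N : ℝ) + 1 := by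
      have h1 : n ≤ N := by omega
      have : (n : ℝ) ≤ N := by exact_mod_cast h1
      linarith
    have hnN' : (n' : ℝ) + 1 ≤ (N : ℝ) + 1 := by
      have h1 : n' ≤ N := by omega
      have : (n' : ℝ) ≤ N := by exact_mod_cast h1
      linarith
    have h4 : ((n : ℝ) + 1) * ((n' : ℝ) + 1) ≤ Real.exp (EE μ s Tt) * Real.exp (EE μ s Tt) :=
      mul_le_mul (hnN.trans hN) (hnN'.trans hN) (by positivity) (Real.exp_pos _).le
    have h5 : 2 ≤ Real.exp (EE μ s Tt) * Real.exp (EE μ s Tt) := by nlinarith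
    rw [h1]
    exact mul_le_mul h5 h4 (by positivity) (by positivity)
  · have g1 : gr (2 * P) (|lt μ s κ r a x| / wd μ s Tt) ≤ gr (2 * P) (Y / wd μ s Tt) :=
      gr_mono _ (by positivity) (div_le_div_of_nonneg_right hx hw0.le)
    have g2 : gr (2 * P) (|ρ| / wd μ s Tt + K) ≤ gr (2 * P) (Y / wd μ s Tt + K) := by
      refine gr_mono _ (by positivity) ?_
      have := div_le_div_of_nonneg_right (hρ ▸ hx : |ρ| ≤ Y) hw0.le
      linarith
    have g3 := mul_le_mul_of_nonneg_right (mul_le_mul_of_nonneg_left g1 hΛ0) hE.le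
    have g4 := mul_le_mul_of_nonneg_right (mul_le_mul_of_nonneg_left g2 (mul_nonneg hC₆.le hQ0)) hE.le
    refine le_trans ?_ hnum
    unfold lst31
    rw [← hΛ]
    linarith [show (4 + (Λ * gr (2 * P) (Y / wd μ s Tt) + Q) + (Λ * gr (2 * P) (AQ (2 * P) δ Λ + Y / wd μ s Tt) + Q) +
        C₆ * Q * gr (2 * P) (Y / wd μ s Tt + K)) * EE μ s Tt = 4 * EE μ s Tt +
        Λ * gr (2 * P) (Y / wd μ s Tt) * EE μ s Tt + Q * EE μ s Tt + (Λ * gr (2 * P) (AQ (2 * P) δ Λ + Y / wd μ s Tt) + Q) * EE μ s Tt +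
        C₆ * Q * gr (2 * P) (Y / wd μ s Tt + K) * EE μ s Tt by ring,
      show (Λ * gr (2 * P) (|lt μ s κ r a x| / wd μ s Tt) + Q) * EE μ s Tt =
        Λ * gr (2 * P) (|lt μ s κ r a x| / wd μ s Tt) * EE μ s Tt + Q * EE μ s Tt by ring]

omit [IsProbabilityMeasure μ] in
/-- From the normalised form to `ker`, `bw`. -/
theorem stayB31 {h : ℝ} {η : Env} {p : ℕ → ℝ} {M N i n : ℕ} (hin : i + n ≤ N) {x : ℤ} {B : Finset ℤ}
    (hB : ∑ v ∈ B, nk μ s h η p M i n x v * bh16 μ s h η p M N (i + n) v ≤ 1 / 2 * bh16 μ s h η p M N i x) :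
    ∑ v ∈ B, ker (wt η) p i n x v * bw (wt η) p (i + n) (N - (i + n)) v ≤ 1 / 2 * bw (wt η) p i (N - i) x := by
  have e0 : N - i = n + (N - (i + n)) := by omega
  have e1 : Real.exp ((n : ℝ) * lam μ s + h * sl μ s * bl M i n) *
      Real.exp (((N - (i + n) : ℕ) : ℝ) * lam μ s + h * sl μ s * bl M (i + n) (N - (i + n))) =
      Real.exp (((N - i : ℕ) : ℝ) * lam μ s + h * sl μ s * bl M i (N - i)) := by
    rw [← Real.exp_add, e0, bl_add]
    congr 1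
    push_cast
    ring
  have e2 : ∀ v, ker (wt η) p i n x v * bw (wt η) p (i + n) (N - (i + n)) v =
      Real.exp (((N - i : ℕ) : ℝ) * lam μ s + h * sl μ s * bl M i (N - i)) * wt η i x *
        (nk μ s h η p M i n x v * bh16 μ s h η p M N (i + n) v) := by
    intro v
    have h1 := wt_pos η i x
    have h2 := wt_pos η (i + n) v
    rw [ker_nk (μ := μ) (s := s) (h := h) (M := M), bw_bh16 (μ := μ) (s := s) (h := h) (M := M), ← e1]
    field_simp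
  rw [sum_congr rfl fun v _ => e2 v, ← mul_sum, bw_bh16 (μ := μ) (s := s) (h := h) (M := M) (a := i)]
  have h3 := mul_le_mul_of_nonneg_left hB (mul_nonneg (Real.exp_pos
    (((N - i : ℕ) : ℝ) * lam μ s + h * sl μ s * bl M i (N - i))).le (wt_pos η i x).le)
  refine h3.trans (le_of_eq ?_)
  ring

end

end Pool.Agent.W_7d29a1_C1.D31
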