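import Pool.Agent.W_7d29a1_C1.VInM31
import Pool.Agent.W_7d29a1_C1.StayM31

/-!
MP_7d29a1_pr, attractor route [C1], SHELL: THE KERNEL OF THE BALL (helper27): the clauses `hlowS`, `hlowE`, `hkw` of `vin31` / `vin95` from
the slabs `Slabs` of the ball, any number of slabs, rows `r a = i`, `r b = i + n`.

Order of the constants: `P`, `K`, `θ` | `C₅`, `C₆`, `n₁` | everything else.
-/

set_option autoImplicit false

namespace Pool.Agent.W_7d29a1_C1.Ball27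

open MeasureTheory ProbabilityTheory Filter Topology Finset
open Pool.Agent.W_7d29a1_F Pool.Agent.W_7d29a1_h4g Pool.Agent.W_7d29a1_H Pool.Agent.W_7d29a1_HS
open Pool.Agent.W_7d29a1_C1.H60 (Cx)
open Pool.Agent.W_7d29a1_C1.K91 (wt wt_pos)
open Pool.Agent.W_7d29a1_C1.H75 Pool.Agent.W_7d29a1_C1.U16
open Pool.Agent.W_7d29a1_C1.FarK89 Pool.Agent.W_7d29a1_C1.FarW89
open Pool.Agent.W_7d29a1_C1.D31

noncomputable section

/-- The weight of a site from below. -/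
theorem wt_low27 {ω : Env} {i : ℕ} {y : ℤ} {Lw : ℝ} (h : |ω ((i : ℤ), y)| ≤ Lw) : Real.exp (-Lw) ≤ wt ω i y := by
  have hL : 0 ≤ Lw := (abs_nonneg _).trans h
  unfold wt
  split_ifs with h0
  · rw [← Real.exp_zero]
    exact Real.exp_le_exp.2 (by linarith)
  · exact Real.exp_le_exp.2 (abs_le.1 h).1

/-- The weight of a site from above. -/
theorem wt_up27 {ω : Env} {i : ℕ} {y : ℤ} {Lw : ℝ} (h : |ω ((i : ℤ), y)| ≤ Lw) : wt ω i y ≤ Real.exp Lw := by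
  have hL : 0 ≤ Lw := (abs_nonneg _).trans h
  unfold wt
  split_ifs with h0
  · rw [← Real.exp_zero]
    exact Real.exp_le_exp.2 hL
  · exact Real.exp_le_exp.2 (abs_le.1 h).2

variable {μ : Measure ℝ} {s : ℝ} [IsProbabilityMeasure μ] {c C : ℝ} {n₀ : ℕ}

/-- **THE KERNEL OF THE BALL**: lower bounds (starts, ends) and the upper bound. -/
theorem ball27 (h0 : In μ s c C n₀) (P : ℕ) {θ K : ℝ} (hK : 4 ≤ K) (hθ : 0 < θ) : ∃ C₅ C₆ : ℝ, 0 < C₅ ∧ 0 < C₆ ∧ ∃ n₁ : ℕ, 1 ≤ n₁ ∧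
    ∀ {Q : ℝ} {Γ : Cx} {ω : Env} {κ : Pt} {r T Nr : ℕ → ℕ} {q : ℕ → ℝ} {bs : ℕ → Pt} {a b Tt : ℕ}, a < b → Γ.s = s →
      Slabs μ s c θ K Γ.h P ω κ r T Nr q bs a b Tt n₁ Q →
      (∀ u, a ≤ u → u < b → θ * T u ≤ ((r (u + 1) - r u : ℕ) : ℝ)) →
      ∀ {i n : ℕ} {cen cen' d D₀ Lw : ℝ}, r a = i → r b = i + n → |d| ≤ D₀ →
      (∀ x : ℤ, lt μ s κ r a x = ((x : ℝ) - cen) + d) → (∀ z : ℤ, lt μ s κ r b z = ((z : ℝ) - cen') + d) →
      -- starts and ends in a window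
      (∀ x z : ℤ, ∀ Y : ℝ, |ω ((i : ℤ), x)| ≤ Lw → |((z : ℝ) - cen') - ((x : ℝ) - cen)| ≤ 1 →
        (|(x : ℝ) - cen| ≤ Y ∨ |(z : ℝ) - cen'| ≤ Y) →
        Real.exp (-(C₆ * Q * gr (2 * P) ((Y + D₀) / wd μ s Tt + K) * EE μ s Tt + Lw)) ≤ kM31 μ s Γ ω i n x z) ∧
      -- the upper bound
      (∀ x z : ℤ, ∀ Y : ℝ, |ω ((i : ℤ), x)| ≤ Lw → |(x : ℝ) - cen| ≤ Y →
        kM31 μ s Γ ω i n x z ≤ Real.exp (Lw + (LQ (2 * P) (c / 8) (C₅ * Q) * gr (2 * P) ((Y + D₀) / wd μ s Tt) + Q) * EE μ s Tt)) := by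
  have hc0 := h0.c0
  obtain ⟨C₅, hC₅, n₃, hn₃, H2⟩ := far_up h0 P
  obtain ⟨C₆, hC₆, n₄, hn₄, H3⟩ := far_low89 h0 P hK hθ
  obtain ⟨n₅, hn₅⟩ := eventually_atTop.1 ((wd_tendsto h0).eventually_ge_atTop 2)
  refine ⟨C₅, C₆, hC₅, hC₆, max n₃ (max n₄ n₅), hn₃.trans (le_max_left _ _), ?_⟩
  intro Q Γ ω κ r T Nr q bs a b Tt hab hs hS hlen i n cen cen' d D₀ Lw hra hrb hd hla hlb
  have l3 : n₃ ≤ max n₃ (max n₄ n₅) := le_max_left _ _
  have l4 : n₄ ≤ max n₃ (max n₄ n₅) := (le_max_left _ _).trans (le_max_right _ _)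
  have l5 : n₅ ≤ max n₃ (max n₄ n₅) := (le_max_right _ _).trans (le_max_right _ _)
  have hp : ∀ k, k < Γ.M → Γ.p k = Real.exp (s + Γ.h) := fun k hk => by
    unfold Cx.p
    rw [if_pos hk, hs]
  have hp' : ∀ k, Γ.M ≤ k → Γ.p k = Real.exp s := fun k hk => by
    unfold Cx.p
    rw [if_neg (by omega), hs]
  have mono : ∀ {m' : ℕ}, m' ≤ max n₃ (max n₄ n₅) → Slabs μ s c θ K Γ.h P ω κ r T Nr q bs a b Tt m' Q := fun hm =>
    ⟨hS.q0, hS.K3, hm.trans hS.Tt1, fun u h1 h2 => hm.trans (hS.T1 u h1 h2), hS.TT, hS.NT, hS.rr, hS.b1, hS.b2, hS.b3,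
      hS.far, hS.cost, hS.force⟩
  have hw2 : ∀ {m : ℕ}, max n₃ (max n₄ n₅) ≤ m → 2 ≤ wd μ s m := fun hm => hn₅ _ (l5.trans hm)
  have hw : 2 ≤ wd μ s Tt := hw2 hS.Tt1
  have hw0 : 0 < wd μ s Tt := by linarith
  have hE := EE_pos (μ := μ) (s := s) Tt
  have hQ0 : 0 ≤ Q := by
    have h3 := hS.cost
    have h4 := sum_nonneg (s := Ico a b) fun u hu => cost0_31 hw0.le (fun u h2 h3 => by linarith [hw2 (hS.T1 u h2 h3)]) hS u hu
    exact nonneg_of_mul_nonneg_left (h4.trans h3) hE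
  have hΛ0 : 0 ≤ LQ (2 * P) (c / 8) (C₅ * Q) := LQ_nonneg _ (by positivity)
  have en : r b - r a = n := by omega
  refine ⟨fun x z Y hω hxz hY => ?_, fun x z Y hω hY => ?_⟩
  · have h1 : ∀ ρ : ℝ, |lt μ s κ r a x - ρ| ≤ 1 → |lt μ s κ r b z - ρ| ≤ 1 → |ρ| ≤ Y + D₀ →
        Real.exp (-(C₆ * Q * gr (2 * P) ((Y + D₀) / wd μ s Tt + K) * EE μ s Tt)) ≤ nk μ s Γ.h ω Γ.p Γ.M i n x z := by
      intro ρ g1 g2 g3
      have h2 := H3 hab hp hp' (mono l4) hlen ρ x z (by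
          have h5 := hw2 (hS.T1 a le_rfl hab)
          refine g1.trans ?_
          nlinarith) (by
          have h5 := hw2 (hS.T1 (b - 1) (by omega) (by omega))
          refine g2.trans ?_
          nlinarith)
      rw [en, hra] at h2
      refine le_trans (Real.exp_le_exp.2 ?_) h2
      have g5 : gr (2 * P) (|ρ| / wd μ s Tt + K) ≤ gr (2 * P) ((Y + D₀) / wd μ s Tt + K) := by
        refine gr_mono _ (by positivity) ?_
        have := div_le_div_of_nonneg_right g3 hw0.le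
        linarith
      have g6 := mul_le_mul_of_nonneg_right (mul_le_mul_of_nonneg_left g5 (mul_nonneg hC₆.le hQ0)) hE.le
      linarith
    have h2 : Real.exp (-(C₆ * Q * gr (2 * P) ((Y + D₀) / wd μ s Tt + K) * EE μ s Tt)) ≤ nk μ s Γ.h ω Γ.p Γ.M i n x z := by
      rcases hY with hY | hY
      · refine h1 (lt μ s κ r a x) (by rw [sub_self, abs_zero]; norm_num) ?_ ?_
        · rw [hla, hlb]
          have e : (z : ℝ) - cen' + d - ((x : ℝ) - cen + d) = ((z : ℝ) - cen') - ((x : ℝ) - cen) := by ring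
          rw [e]
          exact hxz
        · rw [hla]
          exact (abs_add_le _ _).trans (add_le_add hY hd)
      · refine h1 (lt μ s κ r b z) ?_ (by rw [sub_self, abs_zero]; norm_num) ?_
        · rw [hla, hlb]
          have e : (x : ℝ) - cen + d - ((z : ℝ) - cen' + d) = -(((z : ℝ) - cen') - ((x : ℝ) - cen)) := by ring
          rw [e, abs_neg]
          exact hxz
        · rw [hlb]
          exact (abs_add_le _ _).trans (add_le_add hY hd)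
    have h3 := mul_le_mul (wt_low27 hω) h2 (Real.exp_pos _).le (wt_pos ω i x).le
    rw [← Real.exp_add] at h3
    have e : -(C₆ * Q * gr (2 * P) ((Y + D₀) / wd μ s Tt + K) * EE μ s Tt + Lw) =
        -Lw + -(C₆ * Q * gr (2 * P) ((Y + D₀) / wd μ s Tt + K) * EE μ s Tt) := by ring
    rw [e]
    exact h3
  · have h1 := H2 hab.le hp hp' (mono l3) x z
    rw [en, hra] at h1
    have hx : |lt μ s κ r a x| ≤ Y + D₀ := by
      rw [hla]
      exact (abs_add_le _ _).trans (add_le_add hY hd)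
    have g1 : gr (2 * P) (|lt μ s κ r a x| / wd μ s Tt) ≤ gr (2 * P) ((Y + D₀) / wd μ s Tt) :=
      gr_mono _ (by positivity) (div_le_div_of_nonneg_right hx hw0.le)
    have g3 := mul_le_mul_of_nonneg_right (mul_le_mul_of_nonneg_left g1 hΛ0) hE.le
    have g4 : 0 ≤ hc μ s c Tt / 8 * |((z - x : ℤ) : ℝ) - sl μ s * ((n : ℕ) : ℝ)| := by
      have := hc_nonneg h0 Tt
      positivity
    have h2 : nk μ s Γ.h ω Γ.p Γ.M i n x z ≤
        Real.exp ((LQ (2 * P) (c / 8) (C₅ * Q) * gr (2 * P) ((Y + D₀) / wd μ s Tt) + Q) * EE μ s Tt) := by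
      refine h1.trans (Real.exp_le_exp.2 ?_)
      have e1 : (LQ (2 * P) (c / 8) (C₅ * Q) * gr (2 * P) (|lt μ s κ r a x| / wd μ s Tt) + Q) * EE μ s Tt =
        LQ (2 * P) (c / 8) (C₅ * Q) * gr (2 * P) (|lt μ s κ r a x| / wd μ s Tt) * EE μ s Tt + Q * EE μ s Tt := by ring
      have e2 : (LQ (2 * P) (c / 8) (C₅ * Q) * gr (2 * P) ((Y + D₀) / wd μ s Tt) + Q) * EE μ s Tt =
        LQ (2 * P) (c / 8) (C₅ * Q) * gr (2 * P) ((Y + D₀) / wd μ s Tt) * EE μ s Tt + Q * EE μ s Tt := by ring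
      rw [e1, e2]
      linarith
    have h3 := mul_le_mul (wt_up27 hω) h2 (nk_nonneg Γ.p_pos _ _ _ _) (Real.exp_pos _).le
    rw [← Real.exp_add] at h3
    exact h3

end

end Pool.Agent.W_7d29a1_C1.Ball27
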