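import Pool.Agent.W_7d29a1_C1.Num17

/-!
MP_7d29a1_pr, attractor route, row 690 issue 3, section 9 (helper17): the numbers, boxes and greedy blocks. The threshold `q₀` of the
levels may be polynomial in `M = m₀ + m₁ + 2`, `m₀` is fixed before, `m₁` is the last choice (polynomial against exponential).
The counts of the blocks: `a = m / 4`, `b = m / (8 M)`, `r = m / (4 M)`.
-/

set_option autoImplicit false

namespace Pool.Agent.W_7d29a1_C1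

open Filter Topology

noncomputable section

variable {E : ℕ → ℝ} {a b k : ℝ} {n₁ : ℕ}

/-- **THE LAST CHOICE `m₁`** (row 690, issue 3). `m₀` is fixed; for all large `m`:
`X (1 + m₀ + m + Y) ^ p E (T K ^ 2) ≤ η / 32 E (T K ^ m)`, uniformly in `T`. -/
theorem GrE17.last3 (h : GrE17 E a b k n₁) {K : ℕ} (hK : 2 ≤ K) {η : ℝ} (hη : 0 < η) {X Y : ℝ} (hX : 0 ≤ X) (hY : 0 ≤ Y)
    (p m₀ M₁ : ℕ) :
    ∃ m₁ : ℕ, M₁ ≤ m₁ ∧ 3 ≤ m₁ ∧ ∀ m : ℕ, m₁ ≤ m → ∀ T : ℕ, n₁ ≤ T →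
      X * (1 + (m₀ : ℝ) + m + Y) ^ p * E (T * K ^ 2) ≤ η / 32 * E (T * K ^ m) := by
  obtain ⟨j₀, h0⟩ := h.small hK (X * (1 + m₀ + Y + 2) ^ p) (show 0 < η / 32 by positivity) p
  refine ⟨max M₁ (j₀ + 3), le_max_left _ _, by omega, fun m hm T hT => ?_⟩
  have h3 := h0 (m - 2) (by omega) (T * K ^ 2) (hT.trans (Nat.le_mul_of_pos_right T (Nat.pos_of_ne_zero (by positivity))))
  have e1 : T * K ^ 2 * K ^ (m - 2) = T * K ^ m := by
    rw [mul_assoc, ← pow_add]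
    congr 2
    omega
  rw [e1] at h3
  refine le_trans (mul_le_mul_of_nonneg_right ?_ (h.pos _ (hT.trans (Nat.le_mul_of_pos_right T
    (Nat.pos_of_ne_zero (by positivity))))).le) h3
  rw [mul_assoc, ← mul_pow]
  refine mul_le_mul_of_nonneg_left (pow_le_pow_left₀ (by positivity) ?_ p) hX
  have h5 : ((m - 2 : ℕ) : ℝ) = m - 2 := by
    rw [Nat.cast_sub (by omega)]
    norm_num
  have h6 : (2 : ℝ) ≤ m := by exact_mod_cast (by omega : 2 ≤ m)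
  have h7 : (0 : ℝ) ≤ m₀ := Nat.cast_nonneg _
  rw [h5]
  nlinarith [mul_nonneg (by linarith : (0 : ℝ) ≤ m₀ + Y) (by linarith : (0 : ℝ) ≤ (m : ℝ) - 2)]

/-- The same for the bare ratio: `X (1 + m₀ + m + Y) ^ p ≤ η x ^ (m - 2)`. -/
theorem m₁_17 {x : ℝ} (hx : 1 < x) {η : ℝ} (hη : 0 < η) {X Y : ℝ} (hX : 0 ≤ X) (hY : 0 ≤ Y) (p m₀ M₁ : ℕ) :
    ∃ m₁ : ℕ, M₁ ≤ m₁ ∧ 3 ≤ m₁ ∧ ∀ m : ℕ, m₁ ≤ m → X * (1 + (m₀ : ℝ) + m + Y) ^ p ≤ η * x ^ (m - 2) := by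
  obtain ⟨j₀, h0⟩ := geo17 hx (X * (1 + m₀ + Y + 2) ^ p / η) p
  refine ⟨max M₁ (j₀ + 3), le_max_left _ _, by omega, fun m hm => ?_⟩
  have h3 := h0 (m - 2) (by omega)
  have h5 : ((m - 2 : ℕ) : ℝ) = m - 2 := by
    rw [Nat.cast_sub (by omega)]
    norm_num
  have h6 : (2 : ℝ) ≤ m := by exact_mod_cast (by omega : 2 ≤ m)
  have h7 : (0 : ℝ) ≤ m₀ := Nat.cast_nonneg _
  have h8 : X * (1 + (m₀ : ℝ) + m + Y) ^ p ≤ X * (1 + m₀ + Y + 2) ^ p * (1 + ((m - 2 : ℕ) : ℝ)) ^ p := by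
    rw [mul_assoc, ← mul_pow]
    refine mul_le_mul_of_nonneg_left (pow_le_pow_left₀ (by positivity) ?_ p) hX
    rw [h5]
    nlinarith [mul_nonneg (by linarith : (0 : ℝ) ≤ m₀ + Y) (by linarith : (0 : ℝ) ≤ (m : ℝ) - 2)]
  refine h8.trans ?_
  have h9 := mul_le_mul_of_nonneg_left h3 hη.le
  have h10 : η * (X * (1 + m₀ + Y + 2) ^ p / η * (1 + ((m - 2 : ℕ) : ℝ)) ^ p) =
      X * (1 + m₀ + Y + 2) ^ p * (1 + ((m - 2 : ℕ) : ℝ)) ^ p := by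
    field_simp
  rwa [h10] at h9

/-- **THE FAR PRICE** (helper31 80439 (4)): an uncovered scale in `[t + l / 4, t + l - 2]` pays for the place at the distance of the
scale `t + l`, with a power `K ^ (e' l)` of the distance, `4 e' < a`, and with the outer unit `E (T K ^ m₀)`. -/
theorem GrE17.farD (h : GrE17 E a b k n₁) {K : ℕ} (hK : 2 ≤ K) {e' : ℝ} (hea : 4 * e' < a) {η : ℝ} (hη : 0 < η) {X : ℝ}
    (hX : 0 ≤ X) (m₀ p : ℕ) :
    ∃ l₁ : ℕ, ∀ l : ℕ, l₁ ≤ l → ∀ T : ℕ, n₁ ≤ T →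
      X * (1 + (l : ℝ)) ^ p * (K : ℝ) ^ (e' * l) * E (T * K ^ m₀) ≤ η * E (T * K ^ (l / 4)) := by
  have hk := h.k0
  have hKR : (1 : ℝ) < K := by exact_mod_cast (by omega : 1 < K)
  have hK0 : (0 : ℝ) < K := by linarith
  have ha := h.a0
  obtain ⟨Y, hY⟩ : ∃ Y : ℝ, Y = (K : ℝ) ^ (3 / 4 * a) * (((K : ℝ) ^ b) ^ m₀ / k) / (η * k) := ⟨_, rfl⟩
  have hY0 : 0 < Y := by
    rw [hY]
    positivity
  obtain ⟨l₁, h1⟩ := geo17 (x := (K : ℝ) ^ (a / 4 - e')) (Real.one_lt_rpow hKR (by linarith)) (X * Y) p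
  refine ⟨l₁, fun l hl T hT => ?_⟩
  have h2 := h1 l hl
  have h3 := h.lo_sc hT (by omega : 1 ≤ K) (l / 4)
  have h4 := h.up_sc hT (by omega : 1 ≤ K) m₀
  have hET := h.pos T hT
  have h5 : E (T * K ^ m₀) ≤ ((K : ℝ) ^ b) ^ m₀ / k * E T := by
    rw [div_mul_eq_mul_div, le_div_iff₀ hk]
    linarith
  -- the floor
  have h6 : (K : ℝ) ^ (a / 4 * l) ≤ (K : ℝ) ^ (3 / 4 * a) * ((K : ℝ) ^ a) ^ (l / 4) := by
    rw [← Real.rpow_natCast, ← Real.rpow_mul hK0.le, ← Real.rpow_add hK0]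
    refine Real.rpow_le_rpow_of_exponent_le hKR.le ?_
    have h7 : l ≤ 4 * (l / 4) + 3 := by omega
    have h8 : (l : ℝ) ≤ 4 * ((l / 4 : ℕ) : ℝ) + 3 := by exact_mod_cast h7
    nlinarith
  have h9 : ((K : ℝ) ^ (a / 4 - e')) ^ l * (K : ℝ) ^ (e' * l) = (K : ℝ) ^ (a / 4 * l) := by
    rw [← Real.rpow_natCast, ← Real.rpow_mul hK0.le, ← Real.rpow_add hK0]
    congr 1
    ring
  have hKe : 0 < (K : ℝ) ^ (e' * l) := Real.rpow_pos_of_pos hK0 _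
  have h10 := mul_le_mul_of_nonneg_right h2 hKe.le
  rw [h9] at h10
  have h11 := h10.trans h6
  have hA : 0 < (K : ℝ) ^ (3 / 4 * a) := Real.rpow_pos_of_pos hK0 _
  have hB : 0 < ((K : ℝ) ^ b) ^ m₀ / k := by positivity
  have e1 : X * Y * (1 + (l : ℝ)) ^ p * (K : ℝ) ^ (e' * l) * (η * k) =
      (K : ℝ) ^ (3 / 4 * a) * (X * (1 + (l : ℝ)) ^ p * (K : ℝ) ^ (e' * l) * (((K : ℝ) ^ b) ^ m₀ / k)) := by
    rw [hY]
    field_simp
  have h12 := mul_le_mul_of_nonneg_right h11 (show 0 ≤ η * k by positivity)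
  rw [e1] at h12
  have h13 : X * (1 + (l : ℝ)) ^ p * (K : ℝ) ^ (e' * l) * (((K : ℝ) ^ b) ^ m₀ / k) ≤ η * (k * ((K : ℝ) ^ a) ^ (l / 4)) := by
    have h14 : (K : ℝ) ^ (3 / 4 * a) * ((K : ℝ) ^ a) ^ (l / 4) * (η * k) =
        (K : ℝ) ^ (3 / 4 * a) * (η * (k * ((K : ℝ) ^ a) ^ (l / 4))) := by ring
    rw [h14] at h12
    exact le_of_mul_le_mul_left h12 hA
  calc X * (1 + (l : ℝ)) ^ p * (K : ℝ) ^ (e' * l) * E (T * K ^ m₀)
      ≤ X * (1 + (l : ℝ)) ^ p * (K : ℝ) ^ (e' * l) * (((K : ℝ) ^ b) ^ m₀ / k * E T) :=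
        mul_le_mul_of_nonneg_left h5 (by positivity)
    _ = X * (1 + (l : ℝ)) ^ p * (K : ℝ) ^ (e' * l) * (((K : ℝ) ^ b) ^ m₀ / k) * E T := by ring
    _ ≤ η * (k * ((K : ℝ) ^ a) ^ (l / 4)) * E T := mul_le_mul_of_nonneg_right h13 hET.le
    _ = η * (k * ((K : ℝ) ^ a) ^ (l / 4) * E T) := by ring
    _ ≤ η * E (T * K ^ (l / 4)) := mul_le_mul_of_nonneg_left h3 hη.le

/-- `K` large: `C / log K < a` (the exponent `e'` of the far places is `C / log K`). -/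
theorem K_17 {a : ℝ} (ha : 0 < a) (C : ℝ) : ∃ K₀ : ℕ, 2 ≤ K₀ ∧ ∀ K : ℕ, K₀ ≤ K → C / Real.log K < a := by
  obtain ⟨K₁, h1⟩ := eventually_atTop.1 (ev_log17 (|C| / a + 1))
  refine ⟨max K₁ 2, le_max_right _ _, fun K hK => ?_⟩
  have h2 := h1 K ((le_max_left _ _).trans hK)
  have h3 : 0 < Real.log K := lt_of_lt_of_le (by positivity) h2
  rw [div_lt_iff₀ h3]
  have h4 := mul_le_mul_of_nonneg_left h2 ha.le
  have h5 : a * (|C| / a + 1) = |C| + a := by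
    field_simp
  rw [h5] at h4
  linarith [le_abs_self C]

/-! ### The counts -/

/-- The counts of the blocks: `a = m / 4` unusable scales of both copies together (`m / 8` of each copy), `b = m / (8 M)` abnormal
ones, `r = m / (4 M)`. -/
theorem cnt17 {M m : ℕ} (hm : 3 ≤ m) :
    m / 4 + M * (m / (8 * M) + m / (4 * M)) ≤ m ∧ M * (m / (8 * M) + m / (4 * M)) + 2 * (m / 8 + 1) ≤ m + 1 := by
  have h1 : 8 * (M * (m / (8 * M))) ≤ m := by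
    calc 8 * (M * (m / (8 * M))) = 8 * M * (m / (8 * M)) := by ring
      _ ≤ m := Nat.mul_div_le m (8 * M)
  have h2 : 4 * (M * (m / (4 * M))) ≤ m := by
    calc 4 * (M * (m / (4 * M))) = 4 * M * (m / (4 * M)) := by ring
      _ ≤ m := Nat.mul_div_le m (4 * M)
  rw [mul_add]
  constructor <;> omega

/-- The gain `r = m / (4 M)` is of order `log n`. -/
theorem r17 {κ : ℝ} (hκ : 0 < κ) {M : ℕ} (hM : 0 < M) :
    ∀ᶠ n : ℕ in atTop, ∀ m : ℕ, κ * Real.log n ≤ m → κ / (8 * M) * Real.log n ≤ ((m / (4 * M) : ℕ) : ℝ) := by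
  have hM' : (0 : ℝ) < M := by exact_mod_cast hM
  filter_upwards [ev_log17 (8 * M / κ)] with n hn m hm
  have h1 : (m : ℝ) / (4 * M) - 1 ≤ ((m / (4 * M) : ℕ) : ℝ) := by
    have h2 : m < 4 * M * (m / (4 * M)) + 4 * M := by
      have h3 := Nat.div_add_mod m (4 * M)
      have h4 := Nat.mod_lt m (show 0 < 4 * M by omega)
      omega
    have h5 : (m : ℝ) < 4 * M * ((m / (4 * M) : ℕ) : ℝ) + 4 * M := by exact_mod_cast h2
    rw [sub_le_iff_le_add, div_le_iff₀ (by positivity)]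
    linarith
  have h6 : κ * Real.log n / (4 * M) ≤ (m : ℝ) / (4 * M) := div_le_div_of_nonneg_right hm (by positivity)
  have h7 : 1 ≤ κ / (8 * M) * Real.log n := by
    have h8 := mul_le_mul_of_nonneg_left hn (show 0 ≤ κ / (8 * M) by positivity)
    have h9 : κ / (8 * M) * (8 * M / κ) = 1 := by
      field_simp
    rwa [h9] at h8
  have h10 : κ * Real.log n / (4 * M) = 2 * (κ / (8 * M) * Real.log n) := by
    field_simp
    ring
  linarith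

end

end Pool.Agent.W_7d29a1_C1
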