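import Pool.Agent.W_7d29a1_C1.LecG17
import Pool.Agent.W_7d29a1_C1.Out77
import Pool.Agent.W_7d29a1_C1.NumI17

/-!
Both halves (MP_7d29a1_pr), attractor route: THE PAIRS WITHOUT JOINT SUCCESS, boxes and greedy blocks (helper17).

`GO_ge17`: on the pairs without a chosen normal success, with `r` more chosen scales than chosen abnormal ones, the product of the
factors of the chain is at least `(1 + c) ^ r`. `n2T17`: from the inequality of the chain for all the pairs, the goodness of the levels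
and the weight of `many unusable scales` to the sum over all the pairs of the weight of the complement of the sets `AO`.
`n2E17`: the exponent.
-/

set_option autoImplicit false

namespace Pool.Agent.W_7d29a1_C1.Lec17

open MeasureTheory Filter Topology
open Pool.Agent.W_7d29a1_C1.H77
open scoped ENNReal Classical

noncomputable section

/-- **THE GAIN.** -/
theorem GO_ge17 {Z : Type*} {M m r : ℕ} {V S Y X : ℕ → Set Z} {c : ℝ≥0∞} (hc : c ≠ ∞) {z : Z}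
    (hz : z ∈ Bd (JO M m V S Y) (GD M m V) (fun t => GD M m V t ∩ X t) m r) : (1 + c) ^ r ≤ GO M m V S Y X c 0 z := by
  have hg0 : (1 + c) ≠ 0 := by simp
  have hg1 : (1 + c) ≠ ∞ := ENNReal.add_ne_top.2 ⟨ENNReal.one_ne_top, hc⟩
  obtain ⟨h1, h2⟩ := hz
  have e1 : GO M m V S Y X c 0 z = (1 + c) ^ ((Finset.range m).filter fun t => z ∈ GD M m V t).card *
      ((1 + c)⁻¹) ^ ((Finset.range m).filter fun t => z ∈ GD M m V t ∩ X t).card := by
    unfold GO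
    rw [← Finset.range_eq_Ico]
    have e2 : ∀ j ∈ Finset.range m, fo M m V S Y X c j z =
        (if z ∈ GD M m V j then 1 + c else 1) * (if z ∈ GD M m V j ∩ X j then (1 + c)⁻¹ else 1) := by
      intro j hj
      unfold fo
      rw [if_neg (h1 j (Finset.mem_range.1 hj)), one_mul]
    rw [Finset.prod_congr rfl e2, Finset.prod_mul_distrib, Finset.prod_ite, Finset.prod_ite]
    simp only [Finset.prod_const, one_pow, mul_one]
  rw [e1]
  set d := ((Finset.range m).filter fun t => z ∈ GD M m V t).card with hd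
  set x := ((Finset.range m).filter fun t => z ∈ GD M m V t ∩ X t).card with hx
  have h3 : x + r ≤ d := by
    convert h2 using 2
    rw [hx]
    congr 1
    ext i
    simp only [Finset.mem_filter]
  calc (1 + c) ^ r = (1 + c) ^ (x + r) * ((1 + c)⁻¹) ^ x := by
        rw [pow_add, mul_comm ((1 + c) ^ x), mul_assoc, ← mul_pow, ENNReal.mul_inv_cancel hg0 hg1, one_pow, mul_one]
    _ ≤ (1 + c) ^ d * ((1 + c)⁻¹) ^ x := by
        gcongr
        exact le_self_add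

theorem measurable_GO17 {Z : Type*} [MeasurableSpace Z] {M m : ℕ} {V S Y X : ℕ → Set Z} {c : ℝ≥0∞}
    (hV : ∀ t < m, MeasurableSet (V t)) (hS : ∀ t < m, MeasurableSet (S t)) (hY : ∀ t < m, MeasurableSet (Y t))
    (hX : ∀ t < m, MeasurableSet (X t)) (t : ℕ) : Measurable (GO M m V S Y X c t) := by
  unfold GO
  refine Finset.measurable_prod _ fun j hj => ?_
  have hj' := (Finset.mem_Ico.1 hj).2
  unfold fo
  refine (Measurable.ite (measurableSet_JO hV hS hY j) measurable_const measurable_const).mul ?_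
  exact (Measurable.ite (measurableSet_GD hV j) measurable_const measurable_const).mul
    (Measurable.ite ((measurableSet_GD hV j).inter (hX j hj')) measurable_const measurable_const)

section

variable {Ω : Type*} [MeasurableSpace Ω] {P : Measure Ω} {ι ι' : Type*} {T : Finset ι} {T' : Finset ι'}
  {w : ι → Ω → ℝ} {w' : ι' → Ω → ℝ} {M m r q b : ℕ} {c err τ ν : ℝ}

/-- **ALL THE PAIRS WITHOUT A CHOSEN NORMAL SUCCESS.** `hch` is the inequality of the chain (all factors) for the pairs. -/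
theorem n2T17 [IsProbabilityMeasure P] (mw : ∀ k ∈ T, Measurable (w k)) (mw' : ∀ k ∈ T', Measurable (w' k))
    (w0 : ∀ k ∈ T, ∀ ω, 0 ≤ w k ω) (w0' : ∀ k ∈ T', ∀ ω, 0 ≤ w' k ω) (w1 : ∀ ω, ∑ k ∈ T, w k ω ≤ 1)
    (w1' : ∀ ω, ∑ k ∈ T', w' k ω ≤ 1) {VV S Y X : ι → ι' → ℕ → Set (Ω × Ω)}
    (mV : ∀ k ∈ T, ∀ k' ∈ T', ∀ t < m, MeasurableSet (VV k k' t)) (mS : ∀ k ∈ T, ∀ k' ∈ T', ∀ t < m, MeasurableSet (S k k' t))
    (mY : ∀ k ∈ T, ∀ k' ∈ T', ∀ t < m, MeasurableSet (Y k k' t)) (mX : ∀ k ∈ T, ∀ k' ∈ T', ∀ t < m, MeasurableSet (X k k' t))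
    (hc : 0 ≤ c) (he : 0 ≤ err)
    (hch : ∑ k ∈ T, ∑ k' ∈ T', ∫⁻ z, (ENNReal.ofReal (w k z.1) * ENNReal.ofReal (w' k' z.2)) *
      GO M m (VV k k') (S k k') (Y k k') (X k k') (ENNReal.ofReal c) 0 z ∂(P.prod P) ≤ ENNReal.ofReal (1 + err))
    {V : ι → ℕ → Set Ω} {V' : ι' → ℕ → Set Ω} (hM0 : 0 < M)
    (hV : ∀ k ∈ T, ∀ k' ∈ T', ∀ t < m, ∀ z : Ω × Ω, z.1 ∈ V k t → z.2 ∈ V' k' t → z ∈ VV k k' t)
    {G : ι → ι' → Set (Ω × Ω)}
    (hG : ∀ k ∈ T, ∀ k' ∈ T', ∀ z ∈ G k k', ((Finset.range m).filter fun t => z ∈ X k k' t).card ≤ b)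
    (hq : M * (b + r) + 2 * q ≤ m + 1) (hτ0 : 0 ≤ τ) (hν0 : 0 ≤ ν)
    (hτ : ∀ k ∈ T, ∀ k' ∈ T', (P.prod P) (G k k')ᶜ ≤ ENNReal.ofReal τ)
    (hν : ∑ k ∈ T, ∫⁻ ω in Nar (V k) m q, ENNReal.ofReal (w k ω) ∂P ≤ ENNReal.ofReal ν)
    (hν' : ∑ k ∈ T', ∫⁻ ω in Nar (V' k) m q, ENNReal.ofReal (w' k ω) ∂P ≤ ENNReal.ofReal ν) :
    ∑ k ∈ T, ∑ k' ∈ T', ∫ z in (⋃ t ∈ Finset.range m, AO M m (VV k k') (S k k') (Y k k') t)ᶜ,
        w k z.1 * w' k' z.2 ∂(P.prod P) ≤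
      ((1 + c) ^ r)⁻¹ * (1 + err) + (T.card * T'.card * τ + 2 * ν) := by
  have hc1 : 0 < 1 + c := by linarith
  have hp : 0 < (1 + c) ^ r := by positivity
  set J : ι → ι' → ℕ → Set (Ω × Ω) := fun k k' => JO M m (VV k k') (S k k') (Y k k') with hJ
  set DD : ι → ι' → ℕ → Set (Ω × Ω) := fun k k' => GD M m (VV k k') with hDD
  set XX : ι → ι' → ℕ → Set (Ω × Ω) := fun k k' t => GD M m (VV k k') t ∩ X k k' t with hXX
  have e1 : (1 : ℝ≥0∞) + ENNReal.ofReal c = ENNReal.ofReal (1 + c) := by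
    rw [ENNReal.ofReal_add zero_le_one hc, ENNReal.ofReal_one]
  -- the gain
  have hβ : ∑ k ∈ T, ∑ k' ∈ T', ∫⁻ z in Bd (J k k') (DD k k') (XX k k') m r,
      ENNReal.ofReal (w k z.1) * ENNReal.ofReal (w' k' z.2) ∂(P.prod P) ≤ ENNReal.ofReal (((1 + c) ^ r)⁻¹ * (1 + err)) := by
    have hg0 : (1 + ENNReal.ofReal c) ^ r ≠ 0 := by positivity
    have hg1 : (1 + ENNReal.ofReal c) ^ r ≠ ∞ :=
      ENNReal.pow_ne_top (ENNReal.add_ne_top.2 ⟨ENNReal.one_ne_top, ENNReal.ofReal_ne_top⟩)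
    have k1 : (1 + ENNReal.ofReal c) ^ r * (∑ k ∈ T, ∑ k' ∈ T', ∫⁻ z in Bd (J k k') (DD k k') (XX k k') m r,
        ENNReal.ofReal (w k z.1) * ENNReal.ofReal (w' k' z.2) ∂(P.prod P)) ≤ ENNReal.ofReal (1 + err) := by
      refine le_trans ?_ hch
      rw [Finset.mul_sum]
      refine Finset.sum_le_sum fun k hk => ?_
      rw [Finset.mul_sum]
      refine Finset.sum_le_sum fun k' hk' => ?_
      have mW : Measurable fun z : Ω × Ω => ENNReal.ofReal (w k z.1) * ENNReal.ofReal (w' k' z.2) :=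
        (((mw k hk).comp measurable_fst).ennreal_ofReal).mul (((mw' k' hk').comp measurable_snd).ennreal_ofReal)
      have mG := measurable_GO17 (M := M) (c := ENNReal.ofReal c) (mV k hk k' hk') (mS k hk k' hk') (mY k hk k' hk')
        (mX k hk k' hk') 0
      rw [← lintegral_const_mul _ mW]
      calc ∫⁻ z in Bd (J k k') (DD k k') (XX k k') m r,
            (1 + ENNReal.ofReal c) ^ r * (ENNReal.ofReal (w k z.1) * ENNReal.ofReal (w' k' z.2)) ∂(P.prod P)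
          ≤ ∫⁻ z in Bd (J k k') (DD k k') (XX k k') m r, (ENNReal.ofReal (w k z.1) * ENNReal.ofReal (w' k' z.2)) *
              GO M m (VV k k') (S k k') (Y k k') (X k k') (ENNReal.ofReal c) 0 z ∂(P.prod P) := by
            refine setLIntegral_mono (mW.mul mG) fun z hz => ?_
            rw [mul_comm]
            exact mul_le_mul_right (GO_ge17 ENNReal.ofReal_ne_top hz) _
        _ ≤ _ := setLIntegral_le_lintegral _ _
    calc _ = ((1 + ENNReal.ofReal c) ^ r)⁻¹ * ((1 + ENNReal.ofReal c) ^ r * (∑ k ∈ T, ∑ k' ∈ T',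
          ∫⁻ z in Bd (J k k') (DD k k') (XX k k') m r, ENNReal.ofReal (w k z.1) * ENNReal.ofReal (w' k' z.2) ∂(P.prod P))) := by
          rw [← mul_assoc, ENNReal.inv_mul_cancel hg0 hg1, one_mul]
      _ ≤ ((1 + ENNReal.ofReal c) ^ r)⁻¹ * ENNReal.ofReal (1 + err) := by gcongr
      _ = _ := by
          rw [e1, ← ENNReal.ofReal_pow hc1.le, ← ENNReal.ofReal_inv_of_pos hp, ← ENNReal.ofReal_mul (by positivity)]
  have hMM : ∀ k ∈ T, ∀ k' ∈ T', ∀ z : Ω × Ω, ((Finset.range m).filter fun i => z.1 ∈ V k i ∧ z.2 ∈ V' k' i).card ≤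
      M * ((Finset.range m).filter fun i => z ∈ DD k k' i).card := by
    intro k hk k' hk' z
    refine le_trans (Finset.card_le_card fun i hi => ?_) (grd_card (m := m) (V := fun u => z ∈ VV k k' u) hM0)
    obtain ⟨q1, q2⟩ := Finset.mem_filter.1 hi
    exact Finset.mem_filter.2 ⟨q1, hV k hk k' hk' i (Finset.mem_range.1 q1) z q2.1 q2.2⟩
  have hGG : ∀ k ∈ T, ∀ k' ∈ T', ∀ z ∈ G k k', ((Finset.range m).filter fun i => z ∈ XX k k' i).card ≤ b := by
    intro k hk k' hk' z hz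
    refine le_trans (Finset.card_le_card fun i hi => ?_) (hG k hk k' hk' z hz)
    obtain ⟨q1, q2⟩ := Finset.mem_filter.1 hi
    exact Finset.mem_filter.2 ⟨q1, q2.2⟩
  exact grdR17 (J := J) (DD := DD) (XX := XX) mw mw' w0 w0' w1 w1' hβ hM0 hMM
    (fun k hk k' hk' z hz => by convert hGG k hk k' hk' z hz) hq (by positivity) hτ0 hν0 hτ hν hν'
    fun k hk k' hk' => by rw [compl_AO]

end

/-- **THE EXPONENT.** `r = m / (4 M)`, `b = m / (8 M)`, `q = m / 8 + 1`. -/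
theorem n2E17 {c κ B s A : ℝ} (hc : 0 < c) (hκ : 0 < κ) {M : ℕ} (hM : 0 < M) (hA : 2 * B + 1 ≤ A) {c₀ : ℝ}
    (h0 : c₀ < κ / (8 * M) * Real.log (1 + c)) (h1 : c₀ < s) (h2 : c₀ < 1) :
    ∀ᶠ n : ℕ in atTop, ∀ (m p p' : ℕ) (err τ ν : ℝ), κ * Real.log n ≤ m → (p : ℝ) ≤ (n : ℝ) ^ B → (p' : ℝ) ≤ (n : ℝ) ^ B →
      0 ≤ err → err ≤ 1 → 0 ≤ τ → τ ≤ (n : ℝ) ^ (-A) → ν ≤ (n : ℝ) ^ (-s) →
      ((1 + c) ^ (m / (4 * M)))⁻¹ * (1 + err) + (p * p' * τ + 2 * ν) ≤ (n : ℝ) ^ (-c₀) := by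
  set x := κ / (8 * M) * Real.log (1 + c) with hx
  obtain ⟨s', hs1, hs2⟩ : ∃ s', c₀ < s' ∧ s' < min x (min s 1) := exists_between (lt_min h0 (lt_min h1 h2))
  have hs3 : s' < x := hs2.trans_le (min_le_left _ _)
  have hs4 : s' < s := hs2.trans_le ((min_le_right _ _).trans (min_le_left _ _))
  filter_upwards [numG17 hA hs1 h2, r17 hκ hM, third17 hs3 (C := 2) two_pos, eventually_ge_atTop 1] with n n1 n2 n3 hn1 m p p'
    err τ ν hm hp hp' he0 he hτ hτ' hν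
  have hn0 : (0 : ℝ) < n := by exact_mod_cast hn1
  have hn1' : (1 : ℝ) ≤ n := by exact_mod_cast hn1
  have g1 := gain17 hc hn1 (n2 m hm)
  have i0 : 0 ≤ ((1 + c) ^ (m / (4 * M)))⁻¹ := by positivity
  have b1 : ((1 + c) ^ (m / (4 * M)))⁻¹ * (1 + err) ≤ (n : ℝ) ^ (-s') := by
    have q0 : 0 ≤ (n : ℝ) ^ (-s') := Real.rpow_nonneg hn0.le _
    calc _ ≤ (n : ℝ) ^ (-x) * 2 := mul_le_mul g1 (by linarith) (by linarith) (Real.rpow_nonneg hn0.le _)
      _ ≤ (n : ℝ) ^ (-s') / 3 := by linarith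
      _ ≤ _ := by linarith
  have b2 : ν ≤ (n : ℝ) ^ (-s') := hν.trans (Real.rpow_le_rpow_of_exponent_le hn1' (by linarith))
  exact n1 p p' _ τ ν hp hp' hτ hτ' b1 b2

end

end Pool.Agent.W_7d29a1_C1.Lec17
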