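import Pool.Agent.W_7d29a1_C1.BoxJ60
import Pool.Agent.W_7d29a1_C1.LecT17
import Pool.Agent.W_7d29a1_C1.Sw9

/-!
Both halves (MP_7d29a1_pr), attractor route: THE CHAIN OF THE BOXES IN TERMS OF USABLE SCALES, BLOCK EVENTS AND RANGES OF THE LEVELS,
FOR PAIRS OF COPIES (helper60).

`Rch l a q` = some level `v ≤ a` reaches beyond `a`. `BoxR` = one copy: usable scales `V i`, block events `S i` (of the box), ranges
`l v q`; `V j`, `j ≥ i`, `S j`, `j ≥ i + M`, and `l v`, `v > io i`, neither see the ball `i` nor distinguish the leaves of the box `i`.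
`GF` = the good fillings, `Fresh` = FreshP of one copy. `BoxR.boxJ` : the chain of BoxJ60 with `D = GD M m V`, `J = JO`,
`X i = Rch l (io i)`, `Y i = Rch l (mi i)`. `BoxR.prod`, `Fresh.prod` : two independent copies. `hch60` : the hypothesis `hch` of
helper17's `n2T17` from FreshP of the two copies.
-/

set_option autoImplicit false
set_option linter.unusedSectionVars false

namespace Pool.Agent.W_7d29a1_C1.H60

open MeasureTheory
open Pool.Agent.W_7d29a1_C1.H77 Pool.Agent.W_7d29a1_C1.Lec17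
open scoped ENNReal

noncomputable section

/-- Some level `v ≤ a` of the leaf `q` reaches beyond `a`. -/
def Rch {Ω Λ : Type*} (l : ℕ → Λ → Ω → ℕ) (a : ℕ) (q : Λ) : Set Ω := {ω | ∃ v ≤ a, a < v + l v q ω}

section

variable {Ω Λ β : Type*} [MeasurableSpace Ω] [DecidableEq β] {P : Measure Ω} {L : Finset Λ} {m M k : ℕ} {io mi : ℕ → ℕ}
  {anc : ℕ → Λ → β} {R : ℕ → β → Ω → Ω → Ω} {V S : ℕ → Λ → Set Ω} {l : ℕ → Λ → Ω → ℕ} {w : Λ → Ω → ℝ≥0∞} {a p e c : ℝ≥0∞}

/-- The leaf `q` read as a family over the scales. -/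
def lf (A : ℕ → Λ → Set Ω) (q : Λ) : ℕ → Set Ω := fun i => A i q

/-- **ONE COPY.** -/
structure BoxR (P : Measure Ω) (L : Finset Λ) (m M : ℕ) (io : ℕ → ℕ) (anc : ℕ → Λ → β) (R : ℕ → β → Ω → Ω → Ω)
    (V S : ℕ → Λ → Set Ω) (l : ℕ → Λ → Ω → ℕ) (w : Λ → Ω → ℝ≥0∞) : Prop where
  mp : ∀ i < m, ∀ Q, MeasurePreserving (fun w : Ω × Ω => R i Q w.1 w.2) (P.prod P) P
  mV : ∀ i < m, ∀ q ∈ L, MeasurableSet (V i q)
  mS : ∀ i < m, ∀ q ∈ L, MeasurableSet (S i q)
  ml : ∀ v, ∀ q ∈ L, Measurable (l v q)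
  mw : ∀ q ∈ L, Measurable (w q)
  w1 : ∀ ω, ∑ q ∈ L, w q ω ≤ 1
  bV : ∀ i < m, ∀ j, i ≤ j → j < m → ∀ q ∈ L, ∀ η ω, R i (anc i q) η ω ∈ V j q ↔ ω ∈ V j q
  eV : ∀ i < m, ∀ j, i ≤ j → j < m → ∀ q ∈ L, ∀ q' ∈ L, anc i q = anc i q' → V j q = V j q'
  bS : ∀ i < m, ∀ j, i + M ≤ j → j < m → ∀ q ∈ L, ∀ η ω, R i (anc i q) η ω ∈ S j q ↔ ω ∈ S j q
  eS : ∀ i < m, ∀ j, i + M ≤ j → j < m → ∀ q ∈ L, ∀ q' ∈ L, anc i q = anc i q' → S j q = S j q'
  bl : ∀ i < m, ∀ v, io i < v → ∀ q ∈ L, ∀ η ω, l v q (R i (anc i q) η ω) = l v q ω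
  el : ∀ i < m, ∀ v, io i < v → ∀ q ∈ L, ∀ q' ∈ L, anc i q = anc i q' → l v q = l v q'

/-- **THE GOOD FILLINGS** of the box `Q` of level `i`: block event, levels inside the outer row reach at most `k` further, no level
inside the mid row reaches it; for all the leaves. -/
def GF (L : Finset Λ) (k : ℕ) (io mi : ℕ → ℕ) (anc : ℕ → Λ → β) (R : ℕ → β → Ω → Ω → Ω) (S : ℕ → Λ → Set Ω)
    (l : ℕ → Λ → Ω → ℕ) (i : ℕ) (Q : β) (ω : Ω) : Set Ω :=
  {η | ∀ q ∈ L, anc i q = Q → R i Q η ω ∈ S i q ∧ (∀ v ≤ io i, v + l v q (R i Q η ω) ≤ io i + k) ∧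
    ∀ v ≤ mi i, v + l v q (R i Q η ω) ≤ mi i}

/-- **FreshP OF ONE COPY**: at a usable scale either no leaf of the box has weight more than `e` in a normal filling, or with
probability `≥ p` the filling is good and the box has weight `≥ a`. -/
def Fresh (P : Measure Ω) (L : Finset Λ) (m k : ℕ) (io mi : ℕ → ℕ) (anc : ℕ → Λ → β) (R : ℕ → β → Ω → Ω → Ω)
    (V S : ℕ → Λ → Set Ω) (l : ℕ → Λ → Ω → ℕ) (w : Λ → Ω → ℝ≥0∞) (a p e : ℝ≥0∞) : Prop :=
  ∀ i < m, ∀ q₀ ∈ L, ∀ ω ∈ V i q₀,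
    (∀ q ∈ L, anc i q = anc i q₀ → ∀ η, R i (anc i q₀) η ω ∉ Rch l (io i) q → w q (R i (anc i q₀) η ω) ≤ e) ∨
      p ≤ P {η | η ∈ GF L k io mi anc R S l i (anc i q₀) ω ∧
        a ≤ ∑ q ∈ L.filter (fun q => anc i q = anc i q₀), w q (R i (anc i q₀) η ω)}

theorem measurableSet_Rch {q : Λ} (h : ∀ v, Measurable (l v q)) (b : ℕ) : MeasurableSet (Rch l b q) := by
  have e : Rch l b q = ⋃ v ∈ Finset.range (b + 1), {ω | b < v + l v q ω} := by
    ext ω
    simp only [Rch, Set.mem_ofPred_eq, Set.mem_iUnion, Finset.mem_range, exists_prop, Nat.lt_succ_iff]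
  rw [e]
  exact Finset.measurableSet_biUnion _ fun v _ => measurableSet_lt measurable_const ((h v).const_add v)

namespace BoxR

theorem meas_R (h : BoxR P L m M io anc R V S l w) {i : ℕ} (hi : i < m) (Q : β) (ω : Ω) : Measurable fun η => R i Q η ω :=
  (h.mp i hi Q).measurable.comp (measurable_id.prodMk measurable_const)

theorem measurableSet_GF (h : BoxR P L m M io anc R V S l w) {i : ℕ} (hi : i < m) (Q : β) (ω : Ω) :
    MeasurableSet (GF L k io mi anc R S l i Q ω) := by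
  have e : GF L k io mi anc R S l i Q ω = ⋂ q ∈ L, {η | anc i q = Q → R i Q η ω ∈ S i q ∧
      (∀ v ≤ io i, v + l v q (R i Q η ω) ≤ io i + k) ∧ ∀ v ≤ mi i, v + l v q (R i Q η ω) ≤ mi i} := by
    ext η
    simp only [GF, Set.mem_ofPred_eq, Set.mem_iInter]
  rw [e]
  refine Finset.measurableSet_biInter _ fun q hq => ?_
  by_cases hQ : anc i q = Q
  · have mlv : ∀ v, Measurable fun η => l v q (R i Q η ω) := fun v => (h.ml v q hq).comp (h.meas_R hi Q ω)
    have e2 : {η | anc i q = Q → R i Q η ω ∈ S i q ∧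
      (∀ v ≤ io i, v + l v q (R i Q η ω) ≤ io i + k) ∧ ∀ v ≤ mi i, v + l v q (R i Q η ω) ≤ mi i} =
      (fun η => R i Q η ω) ⁻¹' (S i q) ∩ ((⋂ v ∈ Finset.range (io i + 1), {η | v + l v q (R i Q η ω) ≤ io i + k}) ∩
        ⋂ v ∈ Finset.range (mi i + 1), {η | v + l v q (R i Q η ω) ≤ mi i}) := by
      ext η
      simp only [hQ, Set.mem_ofPred_eq, Set.mem_inter_iff, Set.mem_preimage, Set.mem_iInter, Finset.mem_range,
        Nat.lt_succ_iff, true_implies]
    rw [e2]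
    refine ((h.meas_R hi Q ω) (h.mS i hi q hq)).inter ((Finset.measurableSet_biInter _ fun v _ => ?_).inter
      (Finset.measurableSet_biInter _ fun v _ => ?_))
    · exact measurableSet_le ((mlv v).const_add v) measurable_const
    · exact measurableSet_le ((mlv v).const_add v) measurable_const
  · have e2 : {η | anc i q = Q → R i Q η ω ∈ S i q ∧
      (∀ v ≤ io i, v + l v q (R i Q η ω) ≤ io i + k) ∧ ∀ v ≤ mi i, v + l v q (R i Q η ω) ≤ mi i} = Set.univ := by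
      ext η
      simp [hQ]
    rw [e2]
    exact MeasurableSet.univ

/-- The factors are those of Out77. -/
theorem FF_eq (hc : c ≠ ∞) (i : ℕ) (q : Λ) (ω : Ω) :
    FF (fun i q => GD M m (lf V q) i) (fun i q => JO M m (lf V q) (lf S q) (fun i => Rch l (mi i) q) i)
      (fun i q => Rch l (io i) q) c i q ω =
      fo M m (lf V q) (lf S q) (fun i => Rch l (mi i) q) (fun i => Rch l (io i) q) c i ω := by
  classical
  have hg0 : (1 + c) ≠ 0 := by simp
  have hg1 : (1 + c) ≠ ∞ := ENNReal.add_ne_top.2 ⟨ENNReal.one_ne_top, hc⟩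
  unfold FF fo
  by_cases h1 : ω ∈ JO M m (lf V q) (lf S q) (fun i => Rch l (mi i) q) i
  · rw [if_pos h1, if_pos h1, zero_mul]
  · rw [if_neg h1, if_neg h1, one_mul]
    by_cases h2 : ω ∈ GD M m (lf V q) i
    · by_cases h3 : ω ∈ Rch l (io i) q
      · rw [if_neg (fun hh => hh.2 h3), if_pos h2, if_pos ⟨h2, h3⟩, ENNReal.mul_inv_cancel hg0 hg1]
      · rw [if_pos ⟨h2, h3⟩, if_pos h2, if_neg (fun hh => h3 hh.2), mul_one]
    · rw [if_neg (fun hh => h2 hh.1), if_neg h2, if_neg (fun hh => h2 hh.1), mul_one]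

theorem GJ_eq (hc : c ≠ ∞) (i : ℕ) (q : Λ) (ω : Ω) :
    GJ (fun i q => GD M m (lf V q) i) (fun i q => JO M m (lf V q) (lf S q) (fun i => Rch l (mi i) q) i)
      (fun i q => Rch l (io i) q) c m i q ω =
      GO M m (lf V q) (lf S q) (fun i => Rch l (mi i) q) (fun i => Rch l (io i) q) c i ω := by
  unfold GJ GO
  exact Finset.prod_congr rfl fun j _ => FF_eq hc j q ω

/-- **THE SPOILED FACTORS.** -/
theorem spoil (h : BoxR P L m M io anc R V S l w) (hc : c ≠ ∞) (h1 : ∀ i j, i + M ≤ j → j < m → io i ≤ mi j)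
    (h2 : ∀ i j, i ≤ j → j < m → io i + (j - i) ≤ io j) {i : ℕ} (hi : i < m) {q q' : Λ} (hq : q ∈ L) (hq' : q' ∈ L)
    (hqq : anc i q = anc i q') {ω : Ω} (hω : ω ∈ GD M m (lf V q) i) {η η' : Ω} (hη : R i (anc i q) η ω ∉ Rch l (io i) q)
    (hη' : η' ∈ GF L k io mi anc R S l i (anc i q) ω) :
    GO M m (lf V q) (lf S q) (fun i => Rch l (mi i) q) (fun i => Rch l (io i) q) c (i + 1) (R i (anc i q) η ω) ≤
      (1 + c) ^ k * GO M m (lf V q') (lf S q') (fun i => Rch l (mi i) q') (fun i => Rch l (io i) q') c (i + 1)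
        (R i (anc i q) η' ω) := by
  classical
  have bV' : ∀ j, i ≤ j → j < m → (R i (anc i q) η' ω ∈ V j q' ↔ ω ∈ V j q') := fun j a b => by
    have := h.bV i hi j a b q' hq' η' ω
    rwa [← hqq] at this
  have bS' : ∀ j, i + M ≤ j → j < m → (R i (anc i q) η' ω ∈ S j q' ↔ ω ∈ S j q') := fun j a b => by
    have := h.bS i hi j a b q' hq' η' ω
    rwa [← hqq] at this
  have bl' : ∀ v, io i < v → l v q' (R i (anc i q) η' ω) = l v q (R i (anc i q) η ω) := fun v hv => by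
    have := h.bl i hi v hv q' hq' η' ω
    rw [← hqq] at this
    rw [this, h.bl i hi v hv q hq η ω, h.el i hi v hv q hq q' hq' hqq]
  have nor : ∀ v ≤ io i, v + l v q (R i (anc i q) η ω) ≤ io i := fun v hv => by
    by_contra hcc
    exact hη ⟨v, hv, not_le.1 hcc⟩
  have hGD : R i (anc i q) η ω ∈ GD M m (lf V q) i := by
    unfold GD at hω ⊢
    exact (grd_congr fun u a b => h.bV i hi u a b q hq η ω).2 hω
  refine GO_spoil hc hGD (fun u a b => ?_) (fun j a b => ?_) (fun j a b hy => ?_) ?_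
  · show R i (anc i q) η ω ∈ V u q ↔ R i (anc i q) η' ω ∈ V u q'
    rw [h.bV i hi u a b q hq η ω, bV' u a b, h.eV i hi u a b q hq q' hq' hqq]
  · show R i (anc i q) η ω ∈ S j q ↔ R i (anc i q) η' ω ∈ S j q'
    rw [h.bS i hi j a b q hq η ω, bS' j a b, h.eS i hi j a b q hq q' hq' hqq]
  · obtain ⟨v, hv, hv2⟩ := hy
    have hij := h1 i j a b
    have hvi : io i < v := by
      by_contra hcc
      have := nor v (by omega)
      omega
    refine ⟨v, hv, ?_⟩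
    rw [bl' v hvi]
    exact hv2
  · refine le_trans (Finset.card_le_card (t := Finset.Ico (i + 1) (i + k)) fun j hj => ?_) (by rw [Nat.card_Ico]; omega)
    obtain ⟨hj1, hj2, hj3⟩ := Finset.mem_filter.1 hj
    obtain ⟨a, b⟩ := Finset.mem_Ico.1 hj1
    obtain ⟨hjD, v, hv, hv2⟩ := hj2
    refine Finset.mem_Ico.2 ⟨a, ?_⟩
    have hij := h2 i j (by omega) b
    have hvi : v ≤ io i := by
      by_contra hcc
      refine hj3 ⟨?_, v, hv, ?_⟩
      · have e1 : ∀ u, j ≤ u → u < m → (R i (anc i q) η ω ∈ V u q ↔ R i (anc i q) η' ω ∈ V u q') := fun u a1 b1 => by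
          rw [h.bV i hi u (by omega) b1 q hq η ω, bV' u (by omega) b1, h.eV i hi u (by omega) b1 q hq q' hq' hqq]
        unfold GD at hjD ⊢
        exact (grd_congr e1).2 hjD
      · rw [← bl' v (by omega)]
        exact hv2
    have := (hη' q' hq' hqq.symm).2.1 v hvi
    omega

/-- **THE BOX CHAIN.** -/
theorem boxJ [IsProbabilityMeasure P] (h : BoxR P L m M io anc R V S l w) (hc : c ≠ ∞)
    (h1 : ∀ i j, i + M ≤ j → j < m → io i ≤ mi j) (h2 : ∀ i j, i ≤ j → j < m → io i + (j - i) ≤ io j)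
    (hit : ∀ i < m, ∀ q₀ ∈ L, ∀ ω ∈ V i q₀,
      (∑ q ∈ L.filter (fun q => anc i q = anc i q₀), ∫⁻ η in {η | R i (anc i q₀) η ω ∉ Rch l (io i) q},
          w q (R i (anc i q₀) η ω) ∂P ≤ e) ∨
        p ≤ ∫⁻ η in GF L k io mi anc R S l i (anc i q₀) ω, ∑ q ∈ L.filter (fun q => anc i q = anc i q₀),
          w q (R i (anc i q₀) η ω) ∂P) (cp : c * (1 + c) ^ k ≤ p) (c1 : c ≤ 1) :
    BoxJ P L m k anc R (fun i q => GD M m (lf V q) i)
      (fun i q => JO M m (lf V q) (lf S q) (fun i => Rch l (mi i) q) i) (fun i q => Rch l (io i) q)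
      (GF L k io mi anc R S l) w c p e where
  mp := h.mp
  mD := fun i _ q hq => measurableSet_GD (fun t ht => h.mV t ht q hq) i
  mJ := fun i _ q hq => measurableSet_JO (fun t ht => h.mV t ht q hq) (fun t ht => h.mS t ht q hq)
    (fun t _ => measurableSet_Rch (fun v => h.ml v q hq) (mi t)) i
  mX := fun i _ q hq => measurableSet_Rch (fun v => h.ml v q hq) (io i)
  mV := h.mw
  mG := fun i hi Q ω => h.measurableSet_GF hi Q ω
  V1 := h.w1
  JD := fun i _ q _ ω hω => hω.1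
  eD := fun i hi q hq q' hq' hqq => by
    ext ω
    show ω ∈ GD M m (lf V q) i ↔ ω ∈ GD M m (lf V q') i
    unfold GD
    refine grd_congr fun u a b => ?_
    show ω ∈ V u q ↔ ω ∈ V u q'
    rw [h.eV i hi u a b q hq q' hq' hqq]
  bD := fun i hi q hq η ω => by
    show R i (anc i q) η ω ∈ GD M m (lf V q) i ↔ ω ∈ GD M m (lf V q) i
    unfold GD
    exact grd_congr fun u a b => h.bV i hi u a b q hq η ω
  gj := fun i hi q hq ω hω η hη => by
    refine ⟨?_, (hη q hq rfl).1, ?_⟩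
    · show R i (anc i q) η ω ∈ GD M m (lf V q) i
      change ω ∈ GD M m (lf V q) i at hω
      unfold GD at hω ⊢
      exact (grd_congr fun u a b => h.bV i hi u a b q hq η ω).2 hω
    · rintro ⟨v, hv, hv2⟩
      have := (hη q hq rfl).2.2 v hv
      omega
  gg := fun i hi q hq q' hq' hqq ω hω η η' hη hη' => by
    rw [GJ_eq hc, GJ_eq hc]
    exact h.spoil hc h1 h2 hi hq hq' hqq hω hη hη'
  hit := fun i hi Q ω hh => by
    obtain ⟨q₀, hq₀, hQ, hω⟩ := hh
    subst hQ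
    exact hit i hi q₀ hq₀ ω (GD_sub (lf V q₀) hω)
  cp := cp
  c1 := c1

/-- **THE CHAIN** in the factors of Out77. -/
theorem chainR [IsProbabilityMeasure P] (h : BoxR P L m M io anc R V S l w) (hc : c ≠ ∞)
    (h1 : ∀ i j, i + M ≤ j → j < m → io i ≤ mi j) (h2 : ∀ i j, i ≤ j → j < m → io i + (j - i) ≤ io j)
    (hit : ∀ i < m, ∀ q₀ ∈ L, ∀ ω ∈ V i q₀,
      (∑ q ∈ L.filter (fun q => anc i q = anc i q₀), ∫⁻ η in {η | R i (anc i q₀) η ω ∉ Rch l (io i) q},
          w q (R i (anc i q₀) η ω) ∂P ≤ e) ∨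
        p ≤ ∫⁻ η in GF L k io mi anc R S l i (anc i q₀) ω, ∑ q ∈ L.filter (fun q => anc i q = anc i q₀),
          w q (R i (anc i q₀) η ω) ∂P) (cp : c * (1 + c) ^ k ≤ p) (c1 : c ≤ 1) :
    ∑ q ∈ L, ∫⁻ ω, w q ω * GO M m (lf V q) (lf S q) (fun i => Rch l (mi i) q) (fun i => Rch l (io i) q) c 0 ω ∂P ≤
      1 + m * (L.card * ((1 + c) ^ m * e)) := by
  have := (h.boxJ hc h1 h2 hit cp c1).chain
  simpa only [GJ_eq hc] using this

end BoxR

/-- `hit` of one copy. -/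
theorem Fresh.hit [IsProbabilityMeasure P] (h : BoxR P L m M io anc R V S l w) (hf : Fresh P L m k io mi anc R V S l w a p e)
    {i : ℕ} (hi : i < m) {q₀ : Λ} (hq₀ : q₀ ∈ L) {ω : Ω} (hω : ω ∈ V i q₀) :
    (∑ q ∈ L.filter (fun q => anc i q = anc i q₀), ∫⁻ η in {η | R i (anc i q₀) η ω ∉ Rch l (io i) q},
        w q (R i (anc i q₀) η ω) ∂P ≤ L.card * e) ∨
      a * p ≤ ∫⁻ η in GF L k io mi anc R S l i (anc i q₀) ω, ∑ q ∈ L.filter (fun q => anc i q = anc i q₀),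
        w q (R i (anc i q₀) η ω) ∂P := by
  classical
  rcases hf i hi q₀ hq₀ ω hω with h1 | h1
  · left
    calc ∑ q ∈ L.filter (fun q => anc i q = anc i q₀), ∫⁻ η in {η | R i (anc i q₀) η ω ∉ Rch l (io i) q},
          w q (R i (anc i q₀) η ω) ∂P ≤ ∑ _q ∈ L.filter (fun q => anc i q = anc i q₀), e := by
          refine Finset.sum_le_sum fun q hq => ?_
          obtain ⟨hq1, hq2⟩ := Finset.mem_filter.1 hq
          have mX : MeasurableSet {η | R i (anc i q₀) η ω ∉ Rch l (io i) q} :=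
            ((h.meas_R hi _ ω) (measurableSet_Rch (fun v => h.ml v q hq1) (io i))).compl
          calc _ ≤ ∫⁻ _η in {η | R i (anc i q₀) η ω ∉ Rch l (io i) q}, e ∂P := setLIntegral_mono' mX fun η hη => h1 q hq1 hq2 η hη
            _ ≤ ∫⁻ _η, e ∂P := setLIntegral_le_lintegral _ _
            _ = e := by simp
      _ = (L.filter (fun q => anc i q = anc i q₀)).card * e := by rw [Finset.sum_const, nsmul_eq_mul]
      _ ≤ L.card * e := by
          gcongr
          exact Finset.filter_subset _ _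
  · right
    have mS : Measurable fun η => ∑ q ∈ L.filter (fun q => anc i q = anc i q₀), w q (R i (anc i q₀) η ω) :=
      Finset.measurable_sum _ fun q hq => (h.mw q (Finset.mem_filter.1 hq).1).comp (h.meas_R hi _ ω)
    have mA : MeasurableSet {η | η ∈ GF L k io mi anc R S l i (anc i q₀) ω ∧
        a ≤ ∑ q ∈ L.filter (fun q => anc i q = anc i q₀), w q (R i (anc i q₀) η ω)} :=
      (h.measurableSet_GF hi _ ω).inter (measurableSet_le measurable_const mS)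
    calc a * p ≤ a * P {η | η ∈ GF L k io mi anc R S l i (anc i q₀) ω ∧
          a ≤ ∑ q ∈ L.filter (fun q => anc i q = anc i q₀), w q (R i (anc i q₀) η ω)} := by gcongr
      _ = ∫⁻ _η in {η | η ∈ GF L k io mi anc R S l i (anc i q₀) ω ∧
          a ≤ ∑ q ∈ L.filter (fun q => anc i q = anc i q₀), w q (R i (anc i q₀) η ω)}, a ∂P := by
          rw [setLIntegral_const]
      _ ≤ ∫⁻ η in {η | η ∈ GF L k io mi anc R S l i (anc i q₀) ω ∧
          a ≤ ∑ q ∈ L.filter (fun q => anc i q = anc i q₀), w q (R i (anc i q₀) η ω)},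
            ∑ q ∈ L.filter (fun q => anc i q = anc i q₀), w q (R i (anc i q₀) η ω) ∂P :=
          setLIntegral_mono' mA fun η hη => hη.2
      _ ≤ _ := lintegral_mono_set fun η hη => hη.1

end

/-! ### Two independent copies -/

section

variable {Ω Λ β : Type*} [MeasurableSpace Ω] [DecidableEq β] {P : Measure Ω} {L : Finset Λ} {m M k : ℕ} {io mi : ℕ → ℕ}
  {anc : ℕ → Λ → β} {R : ℕ → β → Ω → Ω → Ω} {V S : ℕ → Λ → Set Ω} {l : ℕ → Λ → Ω → ℕ} {w : Λ → Ω → ℝ≥0∞} {a p e c : ℝ≥0∞}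
  {Ω' Λ' β' : Type*} [MeasurableSpace Ω'] [DecidableEq β'] {P' : Measure Ω'} {L' : Finset Λ'}
  {anc' : ℕ → Λ' → β'} {R' : ℕ → β' → Ω' → Ω' → Ω'} {V' S' : ℕ → Λ' → Set Ω'} {l' : ℕ → Λ' → Ω' → ℕ} {w' : Λ' → Ω' → ℝ≥0∞}
  {a' p' e' : ℝ≥0∞}

/-- the box of the pair -/
def anc2 (anc : ℕ → Λ → β) (anc' : ℕ → Λ' → β') (i : ℕ) (q : Λ × Λ') : β × β' := (anc i q.1, anc' i q.2)

/-- both balls are resampled -/
def R2 (R : ℕ → β → Ω → Ω → Ω) (R' : ℕ → β' → Ω' → Ω' → Ω') (i : ℕ) (Q : β × β') (η ω : Ω × Ω') : Ω × Ω' :=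
  (R i Q.1 η.1 ω.1, R' i Q.2 η.2 ω.2)

/-- both -/
def both2 (V : ℕ → Λ → Set Ω) (V' : ℕ → Λ' → Set Ω') (i : ℕ) (q : Λ × Λ') : Set (Ω × Ω') := {z | z.1 ∈ V i q.1 ∧ z.2 ∈ V' i q.2}

/-- the range of the pair -/
def l2 (l : ℕ → Λ → Ω → ℕ) (l' : ℕ → Λ' → Ω' → ℕ) (v : ℕ) (q : Λ × Λ') (z : Ω × Ω') : ℕ := max (l v q.1 z.1) (l' v q.2 z.2)

/-- the weight of the pair -/
def w2 (w : Λ → Ω → ℝ≥0∞) (w' : Λ' → Ω' → ℝ≥0∞) (q : Λ × Λ') (z : Ω × Ω') : ℝ≥0∞ := w q.1 z.1 * w' q.2 z.2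

theorem BoxR.prod [IsProbabilityMeasure P] [IsProbabilityMeasure P'] (h : BoxR P L m M io anc R V S l w)
    (h' : BoxR P' L' m M io anc' R' V' S' l' w') :
    BoxR (P.prod P') (L ×ˢ L') m M io (anc2 anc anc') (R2 R R') (both2 V V') (both2 S S') (l2 l l') (w2 w w') where
  mp := fun i hi Q => by
    have h1 : MeasurePreserving (fun q : (Ω × Ω') × (Ω × Ω') => ((q.1.1, q.2.1), (q.1.2, q.2.2)))
        ((P.prod P').prod (P.prod P')) ((P.prod P).prod (P'.prod P')) := Pool.Agent.W_7d29a1_C1.Sw9.mp_mid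
    exact ((h.mp i hi Q.1).prod (h'.mp i hi Q.2)).comp h1
  mV := fun i hi q hq => ((h.mV i hi q.1 (Finset.mem_product.1 hq).1).preimage measurable_fst).inter
    ((h'.mV i hi q.2 (Finset.mem_product.1 hq).2).preimage measurable_snd)
  mS := fun i hi q hq => ((h.mS i hi q.1 (Finset.mem_product.1 hq).1).preimage measurable_fst).inter
    ((h'.mS i hi q.2 (Finset.mem_product.1 hq).2).preimage measurable_snd)
  ml := fun v q hq => ((h.ml v q.1 (Finset.mem_product.1 hq).1).comp measurable_fst).max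
    ((h'.ml v q.2 (Finset.mem_product.1 hq).2).comp measurable_snd)
  mw := fun q hq => ((h.mw q.1 (Finset.mem_product.1 hq).1).comp measurable_fst).mul
    ((h'.mw q.2 (Finset.mem_product.1 hq).2).comp measurable_snd)
  w1 := fun z => by
    rw [Finset.sum_product]
    change ∑ q ∈ L, ∑ q' ∈ L', w q z.1 * w' q' z.2 ≤ 1
    rw [← Finset.sum_mul_sum]
    exact (mul_le_mul' (h.w1 z.1) (h'.w1 z.2)).trans (by rw [one_mul])
  bV := fun i hi j a b q hq η z => and_congr (h.bV i hi j a b q.1 (Finset.mem_product.1 hq).1 η.1 z.1)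
    (h'.bV i hi j a b q.2 (Finset.mem_product.1 hq).2 η.2 z.2)
  eV := fun i hi j a b q hq q' hq' hqq => by
    have e1 := h.eV i hi j a b q.1 (Finset.mem_product.1 hq).1 q'.1 (Finset.mem_product.1 hq').1 (congrArg Prod.fst hqq)
    have e2 := h'.eV i hi j a b q.2 (Finset.mem_product.1 hq).2 q'.2 (Finset.mem_product.1 hq').2 (congrArg Prod.snd hqq)
    unfold both2
    rw [e1, e2]
  bS := fun i hi j a b q hq η z => and_congr (h.bS i hi j a b q.1 (Finset.mem_product.1 hq).1 η.1 z.1)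
    (h'.bS i hi j a b q.2 (Finset.mem_product.1 hq).2 η.2 z.2)
  eS := fun i hi j a b q hq q' hq' hqq => by
    have e1 := h.eS i hi j a b q.1 (Finset.mem_product.1 hq).1 q'.1 (Finset.mem_product.1 hq').1 (congrArg Prod.fst hqq)
    have e2 := h'.eS i hi j a b q.2 (Finset.mem_product.1 hq).2 q'.2 (Finset.mem_product.1 hq').2 (congrArg Prod.snd hqq)
    unfold both2
    rw [e1, e2]
  bl := fun i hi v hv q hq η z => by
    have e1 := h.bl i hi v hv q.1 (Finset.mem_product.1 hq).1 η.1 z.1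
    have e2 := h'.bl i hi v hv q.2 (Finset.mem_product.1 hq).2 η.2 z.2
    unfold l2 R2 anc2
    rw [e1, e2]
  el := fun i hi v hv q hq q' hq' hqq => by
    have e1 := h.el i hi v hv q.1 (Finset.mem_product.1 hq).1 q'.1 (Finset.mem_product.1 hq').1 (congrArg Prod.fst hqq)
    have e2 := h'.el i hi v hv q.2 (Finset.mem_product.1 hq).2 q'.2 (Finset.mem_product.1 hq').2 (congrArg Prod.snd hqq)
    funext z
    unfold l2
    rw [e1, e2]

/-- **`hit` OF THE PAIR** from FreshP of the two copies. -/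
theorem hit2 [IsProbabilityMeasure P] [IsProbabilityMeasure P'] (h : BoxR P L m M io anc R V S l w)
    (h' : BoxR P' L' m M io anc' R' V' S' l' w') (hf : Fresh P L m k io mi anc R V S l w a p e)
    (hf' : Fresh P' L' m k io mi anc' R' V' S' l' w' a' p' e') {i : ℕ} (hi : i < m) {q₀ : Λ × Λ'} (hq₀ : q₀ ∈ L ×ˢ L')
    {z : Ω × Ω'} (hz : z ∈ both2 V V' i q₀) :
    (∑ q ∈ (L ×ˢ L').filter (fun q => anc2 anc anc' i q = anc2 anc anc' i q₀),
        ∫⁻ η in {η | R2 R R' i (anc2 anc anc' i q₀) η z ∉ Rch (l2 l l') (io i) q},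
        w2 w w' q (R2 R R' i (anc2 anc anc' i q₀) η z) ∂(P.prod P') ≤ L.card * e + L'.card * e') ∨
      (a * p) * (a' * p') ≤ ∫⁻ η in GF (L ×ˢ L') k io mi (anc2 anc anc') (R2 R R') (both2 S S') (l2 l l') i
          (anc2 anc anc' i q₀) z,
        ∑ q ∈ (L ×ˢ L').filter (fun q => anc2 anc anc' i q = anc2 anc anc' i q₀),
          w2 w w' q (R2 R R' i (anc2 anc anc' i q₀) η z) ∂(P.prod P') := by
  classical
  obtain ⟨hq1, hq2⟩ := Finset.mem_product.1 hq₀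
  obtain ⟨hz1, hz2⟩ := hz
  set A := L.filter (fun q => anc i q = anc i q₀.1) with hA
  set A' := L'.filter (fun q => anc' i q = anc' i q₀.2) with hA'
  have eF : (L ×ˢ L').filter (fun q => anc2 anc anc' i q = anc2 anc anc' i q₀) = A ×ˢ A' := by
    ext q
    simp only [hA, hA', Finset.mem_filter, Finset.mem_product, anc2, Prod.mk.injEq]
    tauto
  rw [eF]
  have mR := h.meas_R hi (anc i q₀.1) z.1
  have mR' := h'.meas_R hi (anc' i q₀.2) z.2
  have mA : ∀ q ∈ A, Measurable fun η => w q (R i (anc i q₀.1) η z.1) := fun q hq => (h.mw q (Finset.mem_filter.1 hq).1).comp mR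
  have mA' : ∀ q ∈ A', Measurable fun η => w' q (R' i (anc' i q₀.2) η z.2) := fun q hq =>
    (h'.mw q (Finset.mem_filter.1 hq).1).comp mR'
  have mN : ∀ q ∈ A, MeasurableSet {η | R i (anc i q₀.1) η z.1 ∉ Rch l (io i) q} := fun q hq =>
    (mR (measurableSet_Rch (fun v => h.ml v q (Finset.mem_filter.1 hq).1) (io i))).compl
  have mN' : ∀ q ∈ A', MeasurableSet {η | R' i (anc' i q₀.2) η z.2 ∉ Rch l' (io i) q} := fun q hq =>
    (mR' (measurableSet_Rch (fun v => h'.ml v q (Finset.mem_filter.1 hq).1) (io i))).compl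
  -- one term
  have term : ∀ q ∈ A ×ˢ A', ∫⁻ η in {η | R2 R R' i (anc2 anc anc' i q₀) η z ∉ Rch (l2 l l') (io i) q},
        w2 w w' q (R2 R R' i (anc2 anc anc' i q₀) η z) ∂(P.prod P') ≤
      (∫⁻ η in {η | R i (anc i q₀.1) η z.1 ∉ Rch l (io i) q.1}, w q.1 (R i (anc i q₀.1) η z.1) ∂P) *
        (∫⁻ η in {η | R' i (anc' i q₀.2) η z.2 ∉ Rch l' (io i) q.2}, w' q.2 (R' i (anc' i q₀.2) η z.2) ∂P') := by
    intro q hq
    obtain ⟨c1, c2⟩ := Finset.mem_product.1 hq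
    rw [← lintegral_prod_mul (mA q.1 c1).aemeasurable (mA' q.2 c2).aemeasurable, Measure.prod_restrict]
    refine lintegral_mono_set ?_
    intro η hη
    refine Set.mem_prod.2 ⟨fun hh => hη ?_, fun hh => hη ?_⟩
    · obtain ⟨v, hv, hv2⟩ := hh
      exact ⟨v, hv, hv2.trans_le (Nat.add_le_add_left (le_max_left _ _) v)⟩
    · obtain ⟨v, hv, hv2⟩ := hh
      exact ⟨v, hv, hv2.trans_le (Nat.add_le_add_left (le_max_right _ _) v)⟩
  have one1 : ∑ q ∈ A, ∫⁻ η in {η | R i (anc i q₀.1) η z.1 ∉ Rch l (io i) q}, w q (R i (anc i q₀.1) η z.1) ∂P ≤ 1 := by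
    calc _ ≤ ∑ q ∈ A, ∫⁻ η, w q (R i (anc i q₀.1) η z.1) ∂P := Finset.sum_le_sum fun q _ => setLIntegral_le_lintegral _ _
      _ = ∫⁻ η, ∑ q ∈ A, w q (R i (anc i q₀.1) η z.1) ∂P := (lintegral_finsetSum' _ fun q hq => (mA q hq).aemeasurable).symm
      _ ≤ ∫⁻ _η, 1 ∂P := lintegral_mono fun η => (Finset.sum_le_sum_of_subset (Finset.filter_subset _ _)).trans (h.w1 _)
      _ = 1 := by simp
  have one2 : ∑ q ∈ A', ∫⁻ η in {η | R' i (anc' i q₀.2) η z.2 ∉ Rch l' (io i) q}, w' q (R' i (anc' i q₀.2) η z.2) ∂P' ≤ 1 := by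
    calc _ ≤ ∑ q ∈ A', ∫⁻ η, w' q (R' i (anc' i q₀.2) η z.2) ∂P' := Finset.sum_le_sum fun q _ => setLIntegral_le_lintegral _ _
      _ = ∫⁻ η, ∑ q ∈ A', w' q (R' i (anc' i q₀.2) η z.2) ∂P' :=
          (lintegral_finsetSum' _ fun q hq => (mA' q hq).aemeasurable).symm
      _ ≤ ∫⁻ _η, 1 ∂P' := lintegral_mono fun η => (Finset.sum_le_sum_of_subset (Finset.filter_subset _ _)).trans (h'.w1 _)
      _ = 1 := by simp
  have upper : ∑ q ∈ A ×ˢ A', ∫⁻ η in {η | R2 R R' i (anc2 anc anc' i q₀) η z ∉ Rch (l2 l l') (io i) q},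
        w2 w w' q (R2 R R' i (anc2 anc anc' i q₀) η z) ∂(P.prod P') ≤
      (∑ q ∈ A, ∫⁻ η in {η | R i (anc i q₀.1) η z.1 ∉ Rch l (io i) q}, w q (R i (anc i q₀.1) η z.1) ∂P) *
        (∑ q ∈ A', ∫⁻ η in {η | R' i (anc' i q₀.2) η z.2 ∉ Rch l' (io i) q}, w' q (R' i (anc' i q₀.2) η z.2) ∂P') := by
    rw [Finset.sum_mul_sum, ← Finset.sum_product']
    exact Finset.sum_le_sum term
  rcases hf.hit h hi hq1 hz1 with f1 | f1
  · left
    refine upper.trans ((mul_le_mul' f1 one2).trans ?_)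
    rw [mul_one]
    exact le_self_add
  rcases hf'.hit h' hi hq2 hz2 with f2 | f2
  · left
    refine upper.trans ((mul_le_mul' one1 f2).trans ?_)
    rw [one_mul]
    exact le_add_self
  right
  refine (mul_le_mul' f1 f2).trans ?_
  have mSA : AEMeasurable (fun η => ∑ q ∈ A, w q (R i (anc i q₀.1) η z.1))
      (P.restrict (GF L k io mi anc R S l i (anc i q₀.1) z.1)) := (Finset.measurable_sum _ mA).aemeasurable
  have mSA' : AEMeasurable (fun η => ∑ q ∈ A', w' q (R' i (anc' i q₀.2) η z.2))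
      (P'.restrict (GF L' k io mi anc' R' S' l' i (anc' i q₀.2) z.2)) := (Finset.measurable_sum _ mA').aemeasurable
  have last : ∀ η : Ω × Ω', (∑ q ∈ A, w q (R i (anc i q₀.1) η.1 z.1)) * ∑ q ∈ A', w' q (R' i (anc' i q₀.2) η.2 z.2) =
      ∑ q ∈ A ×ˢ A', w2 w w' q (R2 R R' i (anc2 anc anc' i q₀) η z) := fun η => by
    rw [Finset.sum_mul_sum, ← Finset.sum_product']
    rfl
  rw [← lintegral_prod_mul mSA mSA', Measure.prod_restrict]
  simp only [last]
  refine lintegral_mono_set ?_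
  · intro η hη
    obtain ⟨g1, g2⟩ := Set.mem_prod.1 hη
    intro q hq hqQ
    obtain ⟨c1, c2⟩ := Finset.mem_product.1 hq
    have b1 := g1 q.1 c1 (congrArg Prod.fst hqQ)
    have b2 := g2 q.2 c2 (congrArg Prod.snd hqQ)
    refine ⟨⟨b1.1, b2.1⟩, fun v hv => ?_, fun v hv => ?_⟩
    · have d1 := b1.2.1 v hv
      have d2 := b2.2.1 v hv
      show v + max (l v q.1 (R i (anc i q₀.1) η.1 z.1)) (l' v q.2 (R' i (anc' i q₀.2) η.2 z.2)) ≤ io i + k
      omega
    · have d1 := b1.2.2 v hv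
      have d2 := b2.2.2 v hv
      show v + max (l v q.1 (R i (anc i q₀.1) η.1 z.1)) (l' v q.2 (R' i (anc' i q₀.2) η.2 z.2)) ≤ mi i
      omega

/-- **THE HYPOTHESIS `hch` OF helper17's `n2T17`**, from FreshP of the two copies. -/
theorem hch60 [IsProbabilityMeasure P] [IsProbabilityMeasure P'] {w : Λ → Ω → ℝ} {w' : Λ' → Ω' → ℝ}
    (h : BoxR P L m M io anc R V S l fun q ω => ENNReal.ofReal (w q ω))
    (h' : BoxR P' L' m M io anc' R' V' S' l' fun q ω => ENNReal.ofReal (w' q ω)) {a a' p p' e e' c : ℝ}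
    (hf : Fresh P L m k io mi anc R V S l (fun q ω => ENNReal.ofReal (w q ω)) (ENNReal.ofReal a) (ENNReal.ofReal p)
      (ENNReal.ofReal e))
    (hf' : Fresh P' L' m k io mi anc' R' V' S' l' (fun q ω => ENNReal.ofReal (w' q ω)) (ENNReal.ofReal a')
      (ENNReal.ofReal p') (ENNReal.ofReal e'))
    (h1 : ∀ i j, i + M ≤ j → j < m → io i ≤ mi j) (h2 : ∀ i j, i ≤ j → j < m → io i + (j - i) ≤ io j)
    (ha : 0 ≤ a) (ha' : 0 ≤ a') (hp : 0 ≤ p) (he : 0 ≤ e) (he' : 0 ≤ e') (hc : 0 ≤ c) (hc1 : c ≤ 1)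
    (cp : c * (1 + c) ^ k ≤ (a * p) * (a' * p')) :
    ∑ q ∈ L, ∑ q' ∈ L', ∫⁻ z, (ENNReal.ofReal (w q z.1) * ENNReal.ofReal (w' q' z.2)) *
      GO M m (fun i => both2 V V' i (q, q')) (fun i => both2 S S' i (q, q')) (fun i => Rch (l2 l l') (mi i) (q, q'))
        (fun i => Rch (l2 l l') (io i) (q, q')) (ENNReal.ofReal c) 0 z ∂(P.prod P') ≤
      ENNReal.ofReal (1 + m * (L.card * L'.card * ((1 + c) ^ m * (L.card * e + L'.card * e')))) := by
  have hc0 : (0 : ℝ) ≤ 1 + c := by linarith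
  have e1 : (1 : ℝ≥0∞) + ENNReal.ofReal c = ENNReal.ofReal (1 + c) := by
    rw [ENNReal.ofReal_add zero_le_one hc, ENNReal.ofReal_one]
  have cp' : ENNReal.ofReal c * (1 + ENNReal.ofReal c) ^ k ≤
      (ENNReal.ofReal a * ENNReal.ofReal p) * (ENNReal.ofReal a' * ENNReal.ofReal p') := by
    rw [e1, ← ENNReal.ofReal_pow hc0, ← ENNReal.ofReal_mul hc, ← ENNReal.ofReal_mul ha, ← ENNReal.ofReal_mul ha',
      ← ENNReal.ofReal_mul (mul_nonneg ha hp)]
    exact ENNReal.ofReal_le_ofReal cp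
  have key := (h.prod h').chainR (c := ENNReal.ofReal c) (k := k) (mi := mi) ENNReal.ofReal_ne_top h1 h2
    (fun i hi q₀ hq₀ z hz => hit2 h h' hf hf' hi hq₀ hz) cp' (by
      rw [← ENNReal.ofReal_one]
      exact ENNReal.ofReal_le_ofReal hc1)
  rw [Finset.sum_product] at key
  refine key.trans (le_of_eq ?_)
  have n1 : ∀ n : ℕ, (n : ℝ≥0∞) = ENNReal.ofReal n := fun n => (ENNReal.ofReal_natCast n).symm
  have i0 : 0 ≤ (1 + c) ^ m := by positivity
  have i1 : 0 ≤ (L.card : ℝ) * e := by positivity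
  have i1' : 0 ≤ (L'.card : ℝ) * e' := by positivity
  have i2 : 0 ≤ (L.card : ℝ) * L'.card := by positivity
  have i3 : 0 ≤ (m : ℝ) * (L.card * L'.card * ((1 + c) ^ m * (L.card * e + L'.card * e'))) := by positivity
  rw [Finset.card_product, e1, Nat.cast_mul, n1 m, n1 L.card, n1 L'.card, ← ENNReal.ofReal_pow hc0,
    ← ENNReal.ofReal_mul (p := (L.card : ℝ)) (q := e) (Nat.cast_nonneg _),
    ← ENNReal.ofReal_mul (p := (L'.card : ℝ)) (q := e') (Nat.cast_nonneg _), ← ENNReal.ofReal_add i1 i1',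
    ← ENNReal.ofReal_mul (p := (1 + c) ^ m) i0, ← ENNReal.ofReal_mul (p := (L.card : ℝ)) (q := (L'.card : ℝ)) (Nat.cast_nonneg _),
    ← ENNReal.ofReal_mul (p := (L.card : ℝ) * L'.card) i2, ← ENNReal.ofReal_mul (p := (m : ℝ)) (Nat.cast_nonneg _),
    ← ENNReal.ofReal_one, ← ENNReal.ofReal_add zero_le_one i3]

end

end

end Pool.Agent.W_7d29a1_C1.H60
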