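import Pool.Agent.W_7d29a1_C1.BoxT58
import Pool.Agent.W_7d29a1_C1.BoxI60

/-!
MP_7d29a1_pr, [C1] SHELL, THE FRESH BALL: THE PRODUCT OF THE EVENTS OF ITS SLABS. (helper58)

`prodR58`: events of disjoint regions, each of probability `≥ q j`: all of them together `≥ ∏ q j`. `prodG58`: one more event `G` (levels
`≤ U1`, chosen after the product) with `P(Gᶜ) ≤ (∏ q j) / 2`: together `≥ (∏ q j) / 2`. `rowsb58`: slabs of rows one after the other, seen
from their base points. **`freP58`** = `Fresh` of BoxI60 from the events (which may depend on the outside `ω`) and one inclusion.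
-/

set_option autoImplicit false

namespace Pool.Agent.W_7d29a1_C1.BP58

open MeasureTheory ProbabilityTheory Filter Topology
open Pool.Agent.W_7d29a1_F Pool.Agent.W_7d29a1_h4g Pool.Agent.W_7d29a1_H Pool.Agent.W_7d29a1_HS
open Pool.Agent.W_7d29a1_C1
open Pool.Agent.W_7d29a1_C1.S71
open Pool.Agent.W_7d29a1_C1.H60
open scoped ENNReal

noncomputable section

variable {μ : Measure ℝ} {κ : Type*}

/-- **Events of disjoint regions.** -/
theorem prodR58 [IsProbabilityMeasure μ] (F : Finset κ) {A : κ → Set Pt} {E : κ → Set Env} (mE : ∀ j ∈ F, MeasurableSet (E j))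
    (hE : ∀ j ∈ F, On20 (A j) (E j)) (hd : ∀ i ∈ F, ∀ j ∈ F, i ≠ j → Disjoint (A i) (A j)) {q : κ → ℝ} (hq0 : ∀ j ∈ F, 0 ≤ q j)
    (hq : ∀ j ∈ F, q j ≤ (law μ).real (E j)) : ∏ j ∈ F, q j ≤ (law μ).real (⋂ j ∈ F, E j) := by
  classical
  have hp := isProb58 (μ := μ)
  induction F using Finset.induction_on with
  | empty =>
    rw [Finset.prod_empty]
    have e : (⋂ j ∈ (∅ : Finset κ), E j) = Set.univ := by simp
    rw [e]
    exact probReal_univ.ge
  | insert i F hi ih =>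
    have ih' := ih (fun j hj => mE j (Finset.mem_insert_of_mem hj)) (fun j hj => hE j (Finset.mem_insert_of_mem hj))
      (fun j hj k hk hjk => hd j (Finset.mem_insert_of_mem hj) k (Finset.mem_insert_of_mem hk) hjk)
      (fun j hj => hq0 j (Finset.mem_insert_of_mem hj)) (fun j hj => hq j (Finset.mem_insert_of_mem hj))
    have hii : i ∈ insert i F := Finset.mem_insert_self i F
    rw [Finset.prod_insert hi, Finset.set_biInter_insert]
    have h1 := real_indep58 (μ := μ) (S := A i) (E := E i) (F := ⋂ j ∈ F, E j) (mE i hii)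
      (Finset.measurableSet_biInter F fun j hj => mE j (Finset.mem_insert_of_mem hj))
      (fun η η' hh => hE i hii η η' fun p hp => hh p fun h => h hp)
      (fun η η' hh => by
        simp only [Set.mem_iInter]
        refine forall₂_congr fun j hj => hE j (Finset.mem_insert_of_mem hj) η η' fun p hp => hh p fun h => ?_
        exact Set.disjoint_left.1 (hd i hii j (Finset.mem_insert_of_mem hj) fun h' => hi (h' ▸ hj)) h hp)
    rw [h1]
    exact mul_le_mul (hq i hii) ih' (Finset.prod_nonneg fun j hj => hq0 j (Finset.mem_insert_of_mem hj)) measureReal_nonneg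

/-- One more event, chosen after the product. -/
theorem prodG58 [IsProbabilityMeasure μ] (F : Finset κ) {A : κ → Set Pt} {E : κ → Set Env} (mE : ∀ j ∈ F, MeasurableSet (E j))
    (hE : ∀ j ∈ F, On20 (A j) (E j)) (hd : ∀ i ∈ F, ∀ j ∈ F, i ≠ j → Disjoint (A i) (A j)) {q : κ → ℝ} (hq0 : ∀ j ∈ F, 0 ≤ q j)
    (hq : ∀ j ∈ F, q j ≤ (law μ).real (E j)) {G : Set Env} (hG : (law μ).real Gᶜ ≤ (∏ j ∈ F, q j) / 2) :
    (∏ j ∈ F, q j) / 2 ≤ (law μ).real ((⋂ j ∈ F, E j) ∩ G) := by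
  have hp := isProb58 (μ := μ)
  have h1 := prodR58 F mE hE hd hq0 hq
  have h2 : (law μ).real (⋂ j ∈ F, E j) ≤ (law μ).real ((⋂ j ∈ F, E j) ∩ G) + (law μ).real Gᶜ := by
    refine (measureReal_mono fun η hη => ?_).trans (measureReal_union_le _ _)
    by_cases hx : η ∈ G
    · exact Or.inl ⟨hη, hx⟩
    · exact Or.inr hx
  linarith

/-- The rows of a slab seen from its base point. -/
theorem on_slab58 (b : Pt) {n : ℕ} {E : Set Env} (h : On20 (rows 0 (0 + n)) E) : On20 (rows b.1 (b.1 + n)) (at20 b E) := on_at20' b h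

/-- Slabs one after the other. -/
theorem disj_rows58 {r : ℕ → ℤ} (hr : Monotone r) {i j : ℕ} (hij : i ≠ j) :
    Disjoint (rows (r i) (r (i + 1))) (rows (r j) (r (j + 1))) := by
  rw [Set.disjoint_left]
  rintro p ⟨h1, h2⟩ ⟨h3, h4⟩
  rcases lt_or_gt_of_ne hij with h | h
  · have := hr (show i + 1 ≤ j from h)
    omega
  · have := hr (show j + 1 ≤ i from h)
    omega

/-- **SLABS OF ROWS ONE AFTER THE OTHER**, `m` slabs, slab `j` = rows `(r j, r (j + 1)]`, one more event `G`. -/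
theorem slabs58 [IsProbabilityMeasure μ] {r : ℕ → ℤ} (hr : Monotone r) (m : ℕ) {E : ℕ → Set Env} (mE : ∀ j < m, MeasurableSet (E j))
    (hE : ∀ j < m, On20 (rows (r j) (r (j + 1))) (E j)) {q : ℕ → ℝ} (hq0 : ∀ j < m, 0 ≤ q j) (hq : ∀ j < m, q j ≤ (law μ).real (E j))
    {G : Set Env} (hG : (law μ).real Gᶜ ≤ (∏ j ∈ Finset.range m, q j) / 2) :
    (∏ j ∈ Finset.range m, q j) / 2 ≤ (law μ).real ({η | ∀ j < m, η ∈ E j} ∩ G) := by
  have h1 := prodG58 (μ := μ) (Finset.range m) (A := fun j => rows (r j) (r (j + 1))) (E := E)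
    (fun j hj => mE j (Finset.mem_range.1 hj)) (fun j hj => hE j (Finset.mem_range.1 hj))
    (fun i _ j _ hij => disj_rows58 hr hij) (fun j hj => hq0 j (Finset.mem_range.1 hj)) (fun j hj => hq j (Finset.mem_range.1 hj)) hG
  have e : (⋂ j ∈ Finset.range m, E j) = {η | ∀ j < m, η ∈ E j} := by
    ext η
    simp only [Set.mem_iInter, Finset.mem_range]
    exact Iff.rfl
  rwa [e] at h1

/-! ### `Fresh` -/

variable {Λ β : Type*} [DecidableEq β]

/-- The events of one ball, given the outside `ω`: regions, events, probabilities, one more event. -/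
structure Bal58 (μ : Measure ℝ) (F : Finset κ) (q : κ → ℝ) (A : κ → Set Pt) (E : κ → Set Env) (G : Set Env) : Prop where
  mE : ∀ j ∈ F, MeasurableSet (E j)
  hE : ∀ j ∈ F, On20 (A j) (E j)
  hd : ∀ i ∈ F, ∀ j ∈ F, i ≠ j → Disjoint (A i) (A j)
  hq : ∀ j ∈ F, q j ≤ (law μ).real (E j)
  hG : (law μ).real Gᶜ ≤ (∏ j ∈ F, q j) / 2

/-- **`Fresh` OF BoxI60 FROM THE SLABS.** The events may depend on the outside. -/
theorem freP58 [IsProbabilityMeasure μ] {L : Finset Λ} {m k : ℕ} {io mi : ℕ → ℕ} {anc : ℕ → Λ → β} {R : ℕ → β → Env → Env → Env}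
    {V S : ℕ → Λ → Set Env} {l : ℕ → Λ → Env → ℕ} {w : Λ → Env → ℝ≥0∞} {a e : ℝ≥0∞} (F : Finset κ) {q : κ → ℝ}
    (hq0 : ∀ j ∈ F, 0 ≤ q j)
    (H : ∀ i < m, ∀ q₀ ∈ L, ∀ ω ∈ V i q₀,
      (∀ b ∈ L, anc i b = anc i q₀ → ∀ η, R i (anc i q₀) η ω ∉ Rch l (io i) b → w b (R i (anc i q₀) η ω) ≤ e) ∨
      ∃ (A : κ → Set Pt) (E : κ → Set Env) (G : Set Env), Bal58 μ F q A E G ∧
        ∀ η, (∀ j ∈ F, η ∈ E j) → η ∈ G → η ∈ GF L k io mi anc R S l i (anc i q₀) ω ∧
          a ≤ ∑ b ∈ L.filter (fun b => anc i b = anc i q₀), w b (R i (anc i q₀) η ω)) :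
    Fresh (law μ) L m k io mi anc R V S l w a (ENNReal.ofReal ((∏ j ∈ F, q j) / 2)) e := by
  have hp := isProb58 (μ := μ)
  intro i hi q₀ hq₀ ω hω
  rcases H i hi q₀ hq₀ ω hω with h1 | ⟨A, E, G, h, hin⟩
  · exact Or.inl h1
  · refine Or.inr ?_
    have h2 := prodG58 (μ := μ) F h.mE h.hE h.hd hq0 h.hq h.hG
    refine (ENNReal.ofReal_le_ofReal h2).trans ?_
    rw [ofReal_measureReal]
    refine measure_mono fun η hη => ?_
    have h3 : ∀ j ∈ F, η ∈ E j := fun j hj => Set.mem_iInter₂.1 hη.1 j hj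
    exact hin η h3 hη.2

end

end Pool.Agent.W_7d29a1_C1.BP58
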