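import Pool.Agent.W_7d29a1_C1.LvF60
import Pool.Agent.W_7d29a1_C1.FreP58

/-!
MP_7d29a1_pr, [C1] SHELL, THE FRESH BALL: THE RANGE `k` OF THE OUTER SLABS AND `Fresh` OVER THE TOWER. (helper47)

`HK47 i io k Q` : the slabs `i - 1 ≤ v ≤ io` of the leaves of the box `Q` of level `i` reach at most `k` scales beyond `io`. `hk47` : for
every `p` there is `k`, uniform in everything else, with `P(HK47ᶜ) ≤ p`. **`fresh47`** : `Fresh` of BoxI60 for the tower from: events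
of disjoint regions (they may depend on the outside) of probability `≥ q j`, and one implication: block event, levels `NR60` of the inside
(helper60), weight of the box.
-/

set_option autoImplicit false
set_option linter.unusedSectionVars false

namespace Pool.Agent.W_7d29a1_C1.Fr47

open MeasureTheory ProbabilityTheory Filter Topology
open Pool.Agent.W_7d29a1_F Pool.Agent.W_7d29a1_C1.S71 Pool.Agent.W_7d29a1_C1.Sw9
open Pool.Agent.W_7d29a1_C1.T10 Pool.Agent.W_7d29a1_C1.H60 Pool.Agent.W_7d29a1_C1.BP58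
open Pool.Agent.W_7d29a1_C1 (On20)
open scoped ENNReal

noncomputable section

variable {μ : Measure ℝ} [IsProbabilityMeasure μ] {G : Gd} {L : ℕ} {A : ℕ → Set Pt} {Lv : ℕ → ℕ × ℤ → Env → ℕ}

/-- The slabs `i - 1 ≤ v ≤ io` of the leaves of the box `Q` of level `i` reach at most `k` scales beyond `io`. -/
def HK47 (G : Gd) (L : ℕ) (Lv : ℕ → ℕ × ℤ → Env → ℕ) (i io k : ℕ) (Q : ℕ × ℤ) : Set Env :=
  {η | ∀ c, G.z i c = G.z i Q → ∀ v, i - 1 ≤ v → v ≤ io → v + lvL G Lv L v c η ≤ io + k}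

/-- Only the ball is read. -/
theorem HK47_gl (hG : G.Ok L) (hA : G.Nest L A) (hL : Gd.Rd A Lv) {i m₂ k : ℕ} (h2 : 1 ≤ m₂) (hi : i + m₂ ≤ L) (Q : ℕ × ℤ)
    {B : Set Pt} (hB : At (G.x (i + m₂) Q) (A (i + m₂)) ⊆ B) (η ω : Env) :
    gl B η ω ∈ HK47 G L Lv i (i + m₂ - 1) k Q ↔ η ∈ HK47 G L Lv i (i + m₂ - 1) k Q := by
  have key : ∀ c, G.z i c = G.z i Q → ∀ v, v ≤ i + m₂ - 1 → lvL G Lv L v c (gl B η ω) = lvL G Lv L v c η := by
    intro c hc v hv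
    have hvL : v < L := by omega
    rw [lvL_lt hvL]
    refine hG.lv_read hL hvL c _ _ fun p hp => gl_of_mem (hB ?_) η ω
    rw [Set.mem_compl_iff, not_not] at hp
    have h3 := hG.Sl_sub hA (show v + 1 ≤ i + m₂ by omega) hi c hp
    rwa [hG.x_nested (Nat.le_add_right i m₂) hi hc] at h3
  show (∀ c, G.z i c = G.z i Q → ∀ v, i - 1 ≤ v → v ≤ i + m₂ - 1 → v + lvL G Lv L v c (gl B η ω) ≤ i + m₂ - 1 + k) ↔
    ∀ c, G.z i c = G.z i Q → ∀ v, i - 1 ≤ v → v ≤ i + m₂ - 1 → v + lvL G Lv L v c η ≤ i + m₂ - 1 + k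
  exact forall_congr' fun c => forall_congr' fun hc => forall_congr' fun v => forall_congr' fun _ => forall_congr' fun hv => by
    rw [key c hc v hv]

/-- **THE RANGE `k`**, uniform in the scale, the tower and the place. -/
theorem hk47 {A' a₁ g₁ κ χ U : ℝ} (hA' : 0 < A') (ha₁ : 0 < a₁) (hg₁ : 0 < g₁) (hκ : 1 < κ) (hχ : 0 < χ) (hU : 0 < U) (Np m₂ : ℕ)
    {p : ℝ} (hp : 0 < p) : ∃ k : ℕ, ∀ (G : Gd) (L Lm i : ℕ) (EL : ℕ → ℕ × ℤ → ℕ → Set Env), G.Ok L → 1 ≤ m₂ → i + m₂ ≤ L →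
      (∀ v o l, MeasurableSet (EL v o l)) → (G.subs (i - 1) i).card ≤ Np →
      (∀ v < L, ∀ c l, (law μ).real (EL v (G.dg v c) l)ᶜ ≤ A' * Real.exp (-(a₁ * (U * κ ^ (χ * (l : ℝ))) ^ g₁))) → ∀ Q : ℕ × ℤ,
      (law μ).real (HK47 G L (LvE Lm EL) i (i + m₂ - 1) k Q)ᶜ ≤ p := by
  have hκ0 : 0 < κ := by linarith
  -- the tail tends to zero
  have hlim : Tendsto (fun l : ℕ => A' * Real.exp (-(a₁ * (U * κ ^ (χ * (l : ℝ))) ^ g₁))) atTop (𝓝 0) := by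
    have e1 : Tendsto (fun l : ℕ => κ ^ (χ * (l : ℝ))) atTop atTop := by
      have e2 : (fun l : ℕ => κ ^ (χ * (l : ℝ))) = fun l : ℕ => (κ ^ χ) ^ l := by
        funext l
        rw [Real.rpow_mul hκ0.le, Real.rpow_natCast]
      rw [e2]
      exact tendsto_pow_atTop_atTop_of_one_lt (Real.one_lt_rpow hκ hχ)
    have e3 : Tendsto (fun l : ℕ => a₁ * (U * κ ^ (χ * (l : ℝ))) ^ g₁) atTop atTop :=
      ((tendsto_rpow_atTop hg₁).comp (e1.const_mul_atTop hU)).const_mul_atTop ha₁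
    have e4 := (Real.tendsto_exp_neg_atTop_nhds_zero.comp e3).const_mul A'
    rwa [mul_zero] at e4
  have mono : ∀ j l : ℕ, j ≤ l → A' * Real.exp (-(a₁ * (U * κ ^ (χ * (l : ℝ))) ^ g₁)) ≤
      A' * Real.exp (-(a₁ * (U * κ ^ (χ * (j : ℝ))) ^ g₁)) := by
    intro j l hjl
    have h1 : κ ^ (χ * (j : ℝ)) ≤ κ ^ (χ * (l : ℝ)) :=
      Real.rpow_le_rpow_of_exponent_le hκ.le (mul_le_mul_of_nonneg_left (by exact_mod_cast hjl) hχ.le)
    have h2 : (U * κ ^ (χ * (j : ℝ))) ^ g₁ ≤ (U * κ ^ (χ * (l : ℝ))) ^ g₁ :=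
      Real.rpow_le_rpow (by positivity) (mul_le_mul_of_nonneg_left h1 hU.le) hg₁.le
    have h3 := mul_le_mul_of_nonneg_left h2 ha₁.le
    exact mul_le_mul_of_nonneg_left (Real.exp_le_exp.2 (by linarith)) hA'.le
  have hden : (0 : ℝ) < (m₂ + 1 : ℕ) * (Np + 1 : ℕ) := by positivity
  obtain ⟨k, hk⟩ := ((tendsto_order.1 hlim).2 (p / ((m₂ + 1 : ℕ) * (Np + 1 : ℕ))) (by positivity)).exists
  refine ⟨k, fun G L Lm i EL hG h2 hiL mE hN hP Q => ?_⟩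
  classical
  -- the finitely many level events
  obtain ⟨io, hio⟩ : ∃ io, io = i + m₂ - 1 := ⟨_, rfl⟩
  rw [← hio]
  have hsub : (HK47 G L (LvE Lm EL) i io k Q)ᶜ ⊆ (⋃ o ∈ G.subs (i - 1) i, (ELc G EL (G.z i Q + o) (i - 1) (io + k - (i - 1)))ᶜ) ∪
      ⋃ v ∈ Finset.Ico i (i + m₂), (ELc G EL Q v (io + k - v))ᶜ := by
    intro η hη
    have h1 : ¬ ∀ c, G.z i c = G.z i Q → ∀ v, i - 1 ≤ v → v ≤ io → v + lvL G (LvE Lm EL) L v c η ≤ io + k := hη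
    push Not at h1
    obtain ⟨c, hc, v, hv, hv2, hlt⟩ := h1
    have hvL : v < L := by omega
    rcases Nat.lt_or_ge v i with hvi | hvi
    · have hv' : v = i - 1 := by omega
      subst hv'
      refine Or.inl (Set.mem_biUnion (Finset.mem_coe.2 (hG.mem_subs (by omega) (by omega) c)) ?_)
      rw [← ELc_base hG (by omega) (by omega) hvL hc]
      intro h3
      rw [lvL_eq hvL] at hlt
      have := rng_le_of (Lm := Lm) h3
      omega
    · refine Or.inr (Set.mem_biUnion (Finset.mem_coe.2 (Finset.mem_Ico.2 ⟨hvi, by omega⟩)) ?_)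
      intro h3
      rw [lvL_lt hvL, hG.lv_congr hvi hvL hc, ← lvL_lt (G := G) (Lv := LvE Lm EL) hvL, lvL_eq hvL] at hlt
      have := rng_le_of (Lm := Lm) h3
      omega
  have hmeas : ∀ c v l, v < L → k ≤ l → (law μ).real (ELc G EL c v l)ᶜ ≤ p / ((m₂ + 1 : ℕ) * (Np + 1 : ℕ)) := by
    intro c v l hv hl
    have e1 : (law μ).real (ELc G EL c v l)ᶜ = (law μ).real (EL v (G.dg v c) l)ᶜ := by
      unfold Measure.real
      rw [law_ELc mE]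
    rw [e1]
    exact (hP v hv c l).trans ((mono k l hl).trans hk.le)
  obtain ⟨δ, hδ⟩ : ∃ δ : ℝ, δ = p / ((m₂ + 1 : ℕ) * (Np + 1 : ℕ)) := ⟨_, rfl⟩
  have hδ0 : 0 ≤ δ := by rw [hδ]; positivity
  rw [← hδ] at hmeas
  have s1 : (law μ).real (⋃ o ∈ G.subs (i - 1) i, (ELc G EL (G.z i Q + o) (i - 1) (io + k - (i - 1)))ᶜ) ≤ (Np : ℝ) * δ := by
    refine (measureReal_biUnion_finset_le _ _).trans ?_
    calc ∑ o ∈ G.subs (i - 1) i, (law μ).real (ELc G EL (G.z i Q + o) (i - 1) (io + k - (i - 1)))ᶜ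
        ≤ ∑ _o ∈ G.subs (i - 1) i, δ := Finset.sum_le_sum fun o _ => hmeas _ _ _ (by omega) (by omega)
      _ = ((G.subs (i - 1) i).card : ℝ) * δ := by rw [Finset.sum_const, nsmul_eq_mul]
      _ ≤ _ := mul_le_mul_of_nonneg_right (by exact_mod_cast hN) hδ0
  have s2 : (law μ).real (⋃ v ∈ Finset.Ico i (i + m₂), (ELc G EL Q v (io + k - v))ᶜ) ≤ (m₂ : ℝ) * δ := by
    refine (measureReal_biUnion_finset_le _ _).trans ?_
    calc ∑ v ∈ Finset.Ico i (i + m₂), (law μ).real (ELc G EL Q v (io + k - v))ᶜ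
        ≤ ∑ _v ∈ Finset.Ico i (i + m₂), δ := Finset.sum_le_sum fun v hv => by
          have hv' := Finset.mem_Ico.1 hv
          exact hmeas _ _ _ (by omega) (by omega)
      _ = (m₂ : ℝ) * δ := by rw [Finset.sum_const, nsmul_eq_mul, Nat.card_Ico, Nat.add_sub_cancel_left]
  calc (law μ).real (HK47 G L (LvE Lm EL) i io k Q)ᶜ ≤ (Np : ℝ) * δ + (m₂ : ℝ) * δ :=
        (measureReal_mono hsub (measure_ne_top _ _)).trans ((measureReal_union_le _ _).trans (add_le_add s1 s2))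
    _ ≤ ((m₂ + 1 : ℕ) * (Np + 1 : ℕ) : ℝ) * δ := by
        push_cast
        have h4 : (0 : ℝ) ≤ (m₂ : ℝ) * Np := by positivity
        have h5 := mul_nonneg h4 hδ0
        nlinarith
    _ = p := by
        rw [hδ]
        field_simp

/-- **`Fresh` OVER THE TOWER.** For every usable box there are events of disjoint regions, which may depend on the outside `ω`, of
probability `≥ q j`, which force: block event, levels of the inside, weight of the box. The range `k` is the one of `hk47` for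
`p = (∏ q j) / 2`. -/
theorem fresh47 {κ' : Type*} (hG : G.Ok L) (hA : G.Nest L A) (hL : Gd.Rd A Lv) {m m₂ k : ℕ} (h2 : 1 ≤ m₂)
    (hm : ∀ i < m, i + m₂ ≤ L) {T : Finset (ℕ × ℤ)} {V S : ℕ → ℕ × ℤ → Set Env} {w : ℕ × ℤ → Env → ℝ≥0∞} {a e : ℝ≥0∞}
    (F : Finset κ') {q : κ' → ℝ} (hq0 : ∀ j ∈ F, 0 ≤ q j)
    (hk : ∀ i < m, ∀ Q, (law μ).real (HK47 G L Lv i (i + m₂ - 1) k Q)ᶜ ≤ (∏ j ∈ F, q j) / 2)
    (H : ∀ i < m, ∀ q₀ ∈ T, ∀ ω ∈ V i q₀, ∃ (A' : κ' → Set Pt) (E : κ' → Set Env), (∀ j ∈ F, MeasurableSet (E j)) ∧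
      (∀ j ∈ F, On20 (A' j) (E j)) ∧ (∀ j ∈ F, ∀ j' ∈ F, j ≠ j' → Disjoint (A' j) (A' j')) ∧
      (∀ j ∈ F, q j ≤ (law μ).real (E j)) ∧
      ∀ η, (∀ j ∈ F, η ∈ E j) → (∀ b ∈ T, G.z i b = G.z i q₀ → gl (At (G.x (i + m₂) q₀) (A (i + m₂))) η ω ∈ S i b) ∧
        gl (At (G.x (i + m₂) q₀) (A (i + m₂))) η ω ∈ NR60 G L Lv i (i - 2) q₀ ∧
        a ≤ ∑ b ∈ T.filter (fun b => G.z i b = G.z i q₀), w b (gl (At (G.x (i + m₂) q₀) (A (i + m₂))) η ω)) :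
    Fresh (law μ) T m k (fun i => i + m₂ - 1) (fun i => i - 2) G.z (fun i Q => gl (Bl G A m₂ i Q)) V S (lvL G Lv L) w a
      (ENNReal.ofReal ((∏ j ∈ F, q j) / 2)) e := by
  refine freP58 F hq0 fun i hi q₀ hq₀ ω hω => Or.inr ?_
  obtain ⟨A', E, mE, hE, hd, hq, hin⟩ := H i hi q₀ hq₀ ω hω
  have hiL := hm i hi
  have eB : Bl G A m₂ i (G.z i q₀) = At (G.x (i + m₂) q₀) (A (i + m₂)) := Bl_z hG hiL q₀
  refine ⟨A', E, HK47 G L Lv i (i + m₂ - 1) k q₀, ⟨mE, hE, hd, hq, hk i hi q₀⟩, fun η h1 h3 => ?_⟩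
  obtain ⟨hS, hN, hw⟩ := hin η h1
  have hK : gl (At (G.x (i + m₂) q₀) (A (i + m₂))) η ω ∈ HK47 G L Lv i (i + m₂ - 1) k q₀ :=
    (HK47_gl hG hA hL h2 hiL q₀ (Set.Subset.refl _) η ω).2 h3
  constructor
  · intro b hb hbz
    show gl (Bl G A m₂ i (G.z i q₀)) η ω ∈ S i b ∧ (∀ v ≤ i + m₂ - 1, v + lvL G Lv L v b (gl (Bl G A m₂ i (G.z i q₀)) η ω) ≤ i + m₂ - 1 + k) ∧
      ∀ v ≤ i - 2, v + lvL G Lv L v b (gl (Bl G A m₂ i (G.z i q₀)) η ω) ≤ i - 2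
    rw [eB]
    refine ⟨hS b hb hbz, fun v hv => ?_, fun v hv => hN b hbz v hv⟩
    show v + lvL G Lv L v b (gl (At (G.x (i + m₂) q₀) (A (i + m₂))) η ω) ≤ i + m₂ - 1 + k
    rcases Nat.lt_or_ge v (i - 1) with h5 | h5
    · have h6 := hN b hbz v (by omega)
      omega
    · exact hK b hbz v h5 hv
  · simp only [eB]
    exact hw

end

end Pool.Agent.W_7d29a1_C1.Fr47
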