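import Pool.Agent.W_7d29a1_C1.N2T60

/-!
MP_7d29a1_pr, attractor route [C1]: THE LEVEL THRESHOLD IS POLYNOMIAL IN THE SPACING `M` OF THE BLOCKS. (helper77)

`rsum60` gives `∃ U₀` for every exponent `b`; the number `m₁` of the scales between the block and the lanes is chosen with
`U₀ (m₂ + g) E (T_t) ≪ E (T_(t + m₁))`, `m₂ = m₀ + m₁`, so `U₀` must be a polynomial of `b`. `tsum77`: `U₀ = C (1 + b) ^ (1 / g)`,
`C` before `b`. `mom77`, `rsum77`, `rsumL77`: the same for the ranges; `exp77`: `b ≤ C D`.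
-/

set_option autoImplicit false
set_option linter.unusedSectionVars false

namespace Pool.Agent.W_7d29a1_C1.H77

open MeasureTheory ProbabilityTheory Filter Topology
open Pool.Agent.W_7d29a1_F Pool.Agent.W_7d29a1_C1.S71 Pool.Agent.W_7d29a1_C1.Sw9
open Pool.Agent.W_7d29a1_C1.H60
open Pool.Agent.W_7d29a1_C1.T10 (Gd pt)
open scoped ENNReal

noncomputable section

/-- The sum over the depths, explicit threshold. -/
theorem tsum77 {A a g κ χ ε : ℝ} (hA : 0 < A) (ha : 0 < a) (hg : 0 < g) (hκ : 1 < κ) (hχ : 0 < χ) (hε : 0 < ε) :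
    ∃ C : ℝ, 1 ≤ C ∧ ∀ b : ℝ, 0 ≤ b → ∀ U : ℝ, C * (1 + b) ^ (1 / g) ≤ U → ∀ J : ℕ,
      ∑ j ∈ Finset.range J, κ ^ b * κ ^ (b * (j : ℝ)) * (A * Real.exp (-(a * (U * κ ^ (χ * (j : ℝ))) ^ g))) ≤ ε := by
  have hκ0 : 0 < κ := by linarith
  have hlk : 0 < Real.log κ := Real.log_pos hκ
  have hl2 : 0 < Real.log 2 := Real.log_pos (by norm_num)
  set Y : ℝ := Real.log κ + |Real.log (A / ε)| + Real.log 2 with hY
  have hY0 : 0 < Y := by positivity
  set mn : ℝ := min 1 (χ * g * Real.log κ) with hmn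
  have hmn0 : 0 < mn := lt_min one_pos (by positivity)
  set C : ℝ := max 1 ((Y / (a * mn)) ^ (1 / g)) with hC
  have hC1 : 1 ≤ C := le_max_left _ _
  have hCg : Y / (a * mn) ≤ C ^ g := by
    have h0 : 0 ≤ Y / (a * mn) := by positivity
    calc Y / (a * mn) = ((Y / (a * mn)) ^ (1 / g)) ^ g := by
          rw [← Real.rpow_mul h0, one_div_mul_cancel hg.ne', Real.rpow_one]
      _ ≤ C ^ g := Real.rpow_le_rpow (by positivity) (le_max_right _ _) hg.le
  refine ⟨C, hC1, fun b hb U hU J => ?_⟩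
  have hC0 : 0 < C := by linarith
  have hU0 : 0 < U := lt_of_lt_of_le (by positivity) hU
  have hUg : Y / (a * mn) * (1 + b) ≤ U ^ g := by
    calc Y / (a * mn) * (1 + b) ≤ C ^ g * (1 + b) := mul_le_mul_of_nonneg_right hCg (by positivity)
      _ = C ^ g * ((1 + b) ^ (1 / g)) ^ g := by
          rw [← Real.rpow_mul (by positivity : (0 : ℝ) ≤ 1 + b), one_div_mul_cancel hg.ne', Real.rpow_one]
      _ = (C * (1 + b) ^ (1 / g)) ^ g := by rw [Real.mul_rpow hC0.le (by positivity)]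
      _ ≤ U ^ g := Real.rpow_le_rpow (by positivity) hU hg.le
  have term : ∀ j : ℕ, κ ^ b * κ ^ (b * (j : ℝ)) * (A * Real.exp (-(a * (U * κ ^ (χ * (j : ℝ))) ^ g))) ≤ ε / 2 * (1 / 2) ^ j := by
    intro j
    have hj0 : (0 : ℝ) ≤ j := Nat.cast_nonneg j
    have e1 : (U * κ ^ (χ * (j : ℝ))) ^ g = U ^ g * Real.exp (χ * j * g * Real.log κ) := by
      rw [Real.mul_rpow hU0.le (by positivity), ← Real.rpow_mul hκ0.le, Real.rpow_def_of_pos hκ0 (χ * (j : ℝ) * g)]
      congr 2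
      ring
    have e2 : mn * (1 + (j : ℝ)) ≤ Real.exp (χ * j * g * Real.log κ) := by
      have h1 := Real.add_one_le_exp (χ * j * g * Real.log κ)
      have h2 : mn ≤ 1 := min_le_left _ _
      have h3 : mn ≤ χ * g * Real.log κ := min_le_right _ _
      have h4 := mul_le_mul_of_nonneg_right h3 hj0
      nlinarith
    have e3 : Y * ((1 + b) * (1 + (j : ℝ))) ≤ a * (U * κ ^ (χ * (j : ℝ))) ^ g := by
      rw [e1]
      have h1 : Y / (a * mn) * (1 + b) * (mn * (1 + (j : ℝ))) ≤ U ^ g * Real.exp (χ * j * g * Real.log κ) :=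
        mul_le_mul hUg e2 (by positivity) (by positivity)
      calc Y * ((1 + b) * (1 + (j : ℝ))) = a * (Y / (a * mn) * (1 + b) * (mn * (1 + (j : ℝ)))) := by
            field_simp
        _ ≤ _ := mul_le_mul_of_nonneg_left h1 ha.le
    have e4 : b * Real.log κ + b * j * Real.log κ + Real.log (A / ε) + (1 + (j : ℝ)) * Real.log 2 ≤ Y * ((1 + b) * (1 + (j : ℝ))) := by
      have h1 : b * Real.log κ + b * j * Real.log κ ≤ Real.log κ * ((1 + b) * (1 + (j : ℝ))) := by nlinarith [mul_nonneg hlk.le hj0]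
      have h2 : Real.log (A / ε) ≤ |Real.log (A / ε)| * ((1 + b) * (1 + (j : ℝ))) := by
        have h3 : (1 : ℝ) ≤ (1 + b) * (1 + (j : ℝ)) := by nlinarith [mul_nonneg hb hj0]
        calc Real.log (A / ε) ≤ |Real.log (A / ε)| := le_abs_self _
          _ = |Real.log (A / ε)| * 1 := (mul_one _).symm
          _ ≤ _ := mul_le_mul_of_nonneg_left h3 (abs_nonneg _)
      have h3 : (1 + (j : ℝ)) * Real.log 2 ≤ Real.log 2 * ((1 + b) * (1 + (j : ℝ))) := by
        have : (1 + (j : ℝ)) ≤ (1 + b) * (1 + (j : ℝ)) := by nlinarith [mul_nonneg hb hj0]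
        nlinarith
      rw [hY]
      nlinarith
    have e5 : κ ^ b * κ ^ (b * (j : ℝ)) * (A * Real.exp (-(a * (U * κ ^ (χ * (j : ℝ))) ^ g))) =
        ε * Real.exp (b * Real.log κ + b * j * Real.log κ + Real.log (A / ε) - a * (U * κ ^ (χ * (j : ℝ))) ^ g) := by
      have f1 : κ ^ b = Real.exp (b * Real.log κ) := by
        rw [Real.rpow_def_of_pos hκ0]
        congr 1
        ring
      have f2 : κ ^ (b * (j : ℝ)) = Real.exp (b * j * Real.log κ) := by
        rw [Real.rpow_def_of_pos hκ0]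
        congr 1
        ring
      have f3 : A = ε * Real.exp (Real.log (A / ε)) := by
        rw [Real.exp_log (by positivity)]
        field_simp
      rw [f1, f2, Real.exp_sub, Real.exp_add, Real.exp_add, Real.exp_neg]
      nth_rw 1 [f3]
      field_simp
    rw [e5]
    have e6 : Real.exp (b * Real.log κ + b * j * Real.log κ + Real.log (A / ε) - a * (U * κ ^ (χ * (j : ℝ))) ^ g) ≤
        Real.exp (-((1 + (j : ℝ)) * Real.log 2)) := Real.exp_le_exp.2 (by linarith)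
    have e7 : Real.exp (-((1 + (j : ℝ)) * Real.log 2)) = 1 / 2 * (1 / 2) ^ j := by
      rw [show (1 / 2 : ℝ) * (1 / 2) ^ j = (1 / 2) ^ (j + 1) by rw [pow_succ]; ring, one_div, inv_pow, Real.exp_neg]
      congr 1
      rw [show (1 + (j : ℝ)) * Real.log 2 = ((j + 1 : ℕ) : ℝ) * Real.log 2 by push_cast; ring, Real.exp_nat_mul,
        Real.exp_log (by norm_num)]
    calc _ ≤ ε * (1 / 2 * (1 / 2) ^ j) := by
          rw [← e7]
          exact mul_le_mul_of_nonneg_left e6 hε.le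
      _ = _ := by ring
  calc _ ≤ ∑ j ∈ Finset.range J, ε / 2 * (1 / 2) ^ j := Finset.sum_le_sum fun j _ => term j
    _ = ε / 2 * ∑ j ∈ Finset.range J, (1 / 2 : ℝ) ^ j := by rw [Finset.mul_sum]
    _ ≤ ε / 2 * 2 := by
        refine mul_le_mul_of_nonneg_left ?_ (by positivity)
        have h1 : ∑ j ∈ Finset.range J, (1 / 2 : ℝ) ^ j = 2 * (1 - (1 / 2) ^ J) := by
          rw [geom_sum_eq (by norm_num)]
          ring
        rw [h1]
        have : (0 : ℝ) < (1 / 2) ^ J := by positivity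
        linarith
    _ = ε := by ring

/-- The exponential moment of the range, explicit threshold. -/
theorem mom77 {A a g κ χ ε : ℝ} (hA : 0 < A) (ha : 0 < a) (hg : 0 < g) (hκ : 1 < κ) (hχ : 0 < χ) (hε : 0 < ε) :
    ∃ C : ℝ, 1 ≤ C ∧ ∀ b : ℝ, 0 ≤ b → ∀ U : ℝ, C * (1 + b) ^ (1 / g) ≤ U → ∀ {Ω : Type} [MeasurableSpace Ω] (P : Measure Ω)
      [IsProbabilityMeasure P] (Lm : ℕ) (E : ℕ → Set Ω), (∀ l, MeasurableSet (E l)) →
      (∀ l, P.real (E l)ᶜ ≤ A * Real.exp (-(a * (U * κ ^ (χ * (l : ℝ))) ^ g))) →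
      ∫⁻ ω, (ENNReal.ofReal (κ ^ b)) ^ rng Lm E ω ∂P ≤ ENNReal.ofReal (1 + ε) := by
  have hκ0 : 0 < κ := by linarith
  obtain ⟨C, hC, H⟩ := tsum77 hA ha hg hκ hχ hε
  refine ⟨C, hC, fun b hb U hU Ω _ P _ Lm E mE hP => (mom60 (P := P) mE _).trans ?_⟩
  rw [ENNReal.ofReal_add zero_le_one hε.le, ENNReal.ofReal_one]
  refine add_le_add le_rfl ?_
  calc ∑ l ∈ Finset.range Lm, (ENNReal.ofReal (κ ^ b)) ^ (l + 1) * P (E l)ᶜ
      ≤ ∑ l ∈ Finset.range Lm, ENNReal.ofReal (κ ^ b * κ ^ (b * (l : ℝ)) * (A * Real.exp (-(a * (U * κ ^ (χ * (l : ℝ))) ^ g)))) := by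
        refine Finset.sum_le_sum fun l _ => ?_
        have e1 : (ENNReal.ofReal (κ ^ b)) ^ (l + 1) = ENNReal.ofReal (κ ^ b * κ ^ (b * (l : ℝ))) := by
          rw [← ENNReal.ofReal_pow (Real.rpow_nonneg hκ0.le _), pow_succ', Real.rpow_mul_natCast hκ0.le]
        rw [e1, ENNReal.ofReal_mul (p := κ ^ b * κ ^ (b * (l : ℝ))) (by positivity)]
        refine mul_le_mul_right ?_ _
        rw [← ofReal_measureReal (measure_ne_top _ _)]
        exact ENNReal.ofReal_le_ofReal (hP l)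
    _ = ENNReal.ofReal (∑ l ∈ Finset.range Lm, κ ^ b * κ ^ (b * (l : ℝ)) *
        (A * Real.exp (-(a * (U * κ ^ (χ * (l : ℝ))) ^ g)))) := by
        rw [ENNReal.ofReal_sum_of_nonneg fun l _ => by positivity]
    _ ≤ _ := ENNReal.ofReal_le_ofReal (H b hb U hU Lm)

variable {μ : Measure ℝ} [IsProbabilityMeasure μ]

/-- **THE SUM OF THE RANGES OF DISJOINT SLABS**, explicit threshold. -/
theorem rsum77 {A a g κ χ ε : ℝ} (hA : 0 < A) (ha : 0 < a) (hg : 0 < g) (hκ : 1 < κ) (hχ : 0 < χ) (hε : 0 < ε) :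
    ∃ C : ℝ, 1 ≤ C ∧ ∀ b : ℝ, 0 ≤ b → ∀ U : ℝ, C * (1 + b) ^ (1 / g) ≤ U → ∀ (L Lm : ℕ) (B : ℕ → Set Pt) (E : ℕ → ℕ → Set Env),
      (∀ i < L, ∀ j < L, i < j → Disjoint (B i) (B j)) → (∀ v < L, ∀ l, MeasurableSet (E v l)) → (∀ v < L, ∀ l, Off (B v)ᶜ (E v l)) →
      (∀ v < L, ∀ l, (law μ).real (E v l)ᶜ ≤ A * Real.exp (-(a * (U * κ ^ (χ * (l : ℝ))) ^ g))) → ∀ r : ℕ,
      law μ {η | r ≤ ∑ v ∈ Finset.range L, rng Lm (E v) η} ≤ ENNReal.ofReal ((1 + ε) ^ L / (κ ^ b) ^ r) := by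
  have hκ0 : 0 < κ := by linarith
  obtain ⟨C, hC, H⟩ := mom77 hA ha hg hκ hχ hε
  refine ⟨C, hC, fun b hb U hU L Lm B E hB mE oE hP r => ?_⟩
  set N : ℕ → Env → ℕ := fun v => if v < L then rng Lm (E v) else fun _ => 0 with hN
  have eN : ∀ v < L, N v = rng Lm (E v) := fun v hv => by simp only [hN, if_pos hv]
  have mN : ∀ v, Measurable (N v) := by
    intro v
    by_cases hv : v < L
    · rw [eN v hv]
      exact measurable_rng Lm (mE v hv)
    · simp only [hN, if_neg hv]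
      exact measurable_const
  have hz1 : (1 : ℝ) ≤ κ ^ b := Real.one_le_rpow hκ.le hb
  have hz : (1 : ℝ≥0∞) ≤ ENNReal.ofReal (κ ^ b) := by
    rw [← ENNReal.ofReal_one]
    exact ENNReal.ofReal_le_ofReal hz1
  have key := Pool.Agent.W_7d29a1_C1.S71.sum_le (μ := μ) (A := B) (N := N) mN (z := ENNReal.ofReal (κ ^ b)) (M := ENNReal.ofReal (1 + ε)) hz
    ENNReal.ofReal_ne_top (Finset.range L)
    (fun i hi j hj hij => by
      have hi' := Finset.mem_range.1 hi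
      have hj' := Finset.mem_range.1 hj
      rw [eN i hi']
      exact (OffF_rng (oE i hi')).mono fun p hp hp' => (Set.disjoint_left.1 (hB i hi' j hj' hij)) hp' hp)
    (fun i hi η => by
      have hi' := Finset.mem_range.1 hi
      rw [eN i hi']
      have e1 : ∀ η', rng Lm (E i) (gl (B i) η' η) = rng Lm (E i) η' := fun η' =>
        OffF_rng (oE i hi') _ _ fun p hp => gl_of_mem (not_not.1 hp) η' η
      simp only [e1]
      exact H b hb U hU (law μ) Lm (E i) (mE i hi') (hP i hi')) r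
  rw [Finset.card_range] at key
  refine le_trans (le_of_eq ?_) (key.trans (le_of_eq ?_))
  · congr 1
    ext η
    simp only [Set.mem_ofPred_eq]
    rw [Finset.sum_congr rfl fun v hv => congrFun (eN v (Finset.mem_range.1 hv)) η]
  · rw [← ENNReal.ofReal_pow (by linarith), ← ENNReal.ofReal_pow (by positivity), ENNReal.ofReal_div_of_pos (by positivity)]

/-- **THE SUM OF THE RANGES OF THE FIRST `Lb` SLABS**, explicit threshold. -/
theorem rsumL77 {A' a g κ χ ε : ℝ} (hA' : 0 < A') (ha : 0 < a) (hg : 0 < g) (hκ : 1 < κ) (hχ : 0 < χ) (hε : 0 < ε) :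
    ∃ C : ℝ, 1 ≤ C ∧ ∀ b : ℝ, 0 ≤ b → ∀ U : ℝ, C * (1 + b) ^ (1 / g) ≤ U →
      ∀ (G : Gd) (L Lb Lm : ℕ) (A : ℕ → Set Pt) (EL : ℕ → ℕ × ℤ → ℕ → Set Env), Lb ≤ L → G.Ok L →
      G.Nest L A → (∀ v o l, MeasurableSet (EL v o l)) → (∀ v o l, Off (A (v + 1) \ T10.At (pt o) (A v))ᶜ (EL v o l)) →
      (∀ v < L, ∀ c l, (law μ).real (EL v (G.dg v c) l)ᶜ ≤ A' * Real.exp (-(a * (U * κ ^ (χ * (l : ℝ))) ^ g))) → ∀ (c : ℕ × ℤ) (r : ℕ),
      law μ {η | r ≤ ∑ v ∈ Finset.range Lb, lvL G (LvE Lm EL) L v c η} ≤ ENNReal.ofReal ((1 + ε) ^ Lb / (κ ^ b) ^ r) := by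
  obtain ⟨C, hC, H⟩ := rsum77 (μ := μ) hA' ha hg hκ hχ hε
  refine ⟨C, hC, fun b hb U hU G L Lb Lm A EL hLb hG hA mE oE hP c r => ?_⟩
  have h1 := H b hb U hU Lb Lm (fun v => G.Sl A v c) (fun v l => ELc G EL c v l)
    (fun i hi j hj hij => hG.Sl_pair hA hij (hj.le.trans hLb) c)
    (fun v hv l => (mE v _ l).preimage (measurable_sh _))
    (fun v hv l => by
      have h2 := hG.lv_read (Lv := fun v o η => η ∈ EL v o l) (fun v o => Off.toF (oE v o l)) (hv.trans_le hLb) c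
      intro η η' he
      exact iff_of_eq (h2 η η' he))
    (fun v hv l => by
      refine le_trans (le_of_eq ?_) (hP v (hv.trans_le hLb) c l)
      unfold Measure.real
      congr 1
      exact (mp_sh (μ := μ) (G.x (v + 1) c)).measure_preimage (mE v _ l).compl.nullMeasurableSet) r
  refine le_trans (le_of_eq ?_) h1
  congr 1
  ext η
  simp only [Set.mem_ofPred_eq]
  rw [Finset.sum_congr rfl fun v hv => congrFun (lvL_eq ((Finset.mem_range.1 hv).trans_le hLb) c) η]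

/-- The exponent `b` is at most linear in the spacing `D`. -/
theorem exp77 {κ A κ' : ℝ} (hκ : 1 < κ) (hA : 0 ≤ A) (hκ' : 0 < κ') :
    ∃ Cb : ℝ, 0 ≤ Cb ∧ ∀ {D : ℕ}, 0 < D → ∃ b : ℝ, 0 ≤ b ∧ b ≤ Cb * D ∧ ∀ n m L : ℕ, 1 ≤ n → κ' * Real.log n ≤ m → D ≤ m →
      L ≤ 2 * m → ((1 : ℝ) + 1) ^ L / (κ ^ b) ^ (m / D) ≤ (n : ℝ) ^ (-A) := by
  have hlk : 0 < Real.log κ := Real.log_pos hκ
  have hκ0 : 0 < κ := by linarith
  have hl2 := Real.log_pos (show (1 : ℝ) < 2 by norm_num)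
  refine ⟨2 * (2 * Real.log 2 + A / κ') / Real.log κ, by positivity, fun {D} hD => ?_⟩
  have hD0 : (0 : ℝ) < D := by exact_mod_cast hD
  set x : ℝ := 2 * D * (2 * Real.log 2 + A / κ') with hx
  have hx0 : 0 ≤ x := by positivity
  refine ⟨x / Real.log κ, by positivity, le_of_eq (by rw [hx]; ring), fun n m L hn hm hDm hL => ?_⟩
  have hn0 : (0 : ℝ) < n := by exact_mod_cast hn
  have e1 : κ ^ (x / Real.log κ) = Real.exp x := by
    rw [Real.rpow_def_of_pos hκ0]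
    congr 1
    field_simp
  rw [e1, ← Real.exp_nat_mul]
  have e2 : ((1 : ℝ) + 1) ^ L = Real.exp (L * Real.log 2) := by
    rw [Real.exp_nat_mul, Real.exp_log (by norm_num)]
    norm_num
  have e3 : (n : ℝ) ^ (-A) = Real.exp (-(A * Real.log n)) := by
    rw [Real.rpow_def_of_pos hn0]
    congr 1
    ring
  rw [e2, e3, ← Real.exp_sub]
  refine Real.exp_le_exp.2 ?_
  have h1 : (m : ℝ) ≤ 2 * D * ((m / D : ℕ) : ℝ) := by
    have h2 : m < D * (m / D) + D := by
      have := Nat.div_add_mod m D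
      have := Nat.mod_lt m hD
      omega
    have h3 : 1 ≤ m / D := (Nat.one_le_div_iff hD).2 hDm
    have h4 : m ≤ 2 * D * (m / D) := by nlinarith
    exact_mod_cast h4
  have h2 : A * Real.log n ≤ A / κ' * m := by
    calc A * Real.log n = A / κ' * (κ' * Real.log n) := by field_simp
      _ ≤ _ := mul_le_mul_of_nonneg_left hm (by positivity)
  have h3 : (L : ℝ) * Real.log 2 ≤ 2 * m * Real.log 2 := by
    refine mul_le_mul_of_nonneg_right ?_ hl2.le
    exact_mod_cast hL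
  have h4 : m * (2 * Real.log 2 + A / κ') ≤ ((m / D : ℕ) : ℝ) * x := by
    rw [hx]
    have : 0 ≤ 2 * Real.log 2 + A / κ' := by positivity
    nlinarith [mul_le_mul_of_nonneg_right h1 this]
  nlinarith

end

end Pool.Agent.W_7d29a1_C1.H77
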