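import Pool.Agent.W_7d29a1_C1.NuJ77
import Pool.Agent.W_7d29a1_C1.Rng77

/-!
MP_7d29a1_pr, attractor route [C1], junction SEP + TAME => few scales are not usable, with the contacts of small weight left out, and the
tail of the ranges in the form of the frame. (helper77)

`nuk77`: `nu77` where the deterministic part is only asked for the contacts with `ε₀ ≤ w k ω` (arms of the past: helper31, helper91).
`tau77`: the sum of the ranges of the first slabs, threshold `C₀ (m₂ + g) ^ pw`.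
-/

set_option autoImplicit false
set_option linter.unusedSectionVars false

namespace Pool.Agent.W_7d29a1_C1.H77

open MeasureTheory Finset
open Pool.Agent.W_7d29a1_C1.Lec17 (Nar)
open scoped ENNReal

section

variable {Ω ι X : Type*} [MeasurableSpace Ω] {P : Measure Ω} {T : Finset ι} {w : ι → Ω → ℝ}

/-- **JUNCTION**, contacts of small weight left out: everything deterministic only for `ω ∉ Bd` with `ε₀ ≤ w k ω`. -/
theorem nuk77 [IsProbabilityMeasure P] [Fintype X] (mw : ∀ k ∈ T, Measurable (w k))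
    (w1 : ∀ ω, ∑ k ∈ T, ENNReal.ofReal (w k ω) ≤ 1)
    {x : ι → X} (hx : Set.InjOn x T) {W : X → Ω → ℝ≥0∞} (hW : ∀ k ∈ T, ∀ ω, ENNReal.ofReal (w k ω) ≤ W (x k) ω)
    {V : ι → ℕ → Set Ω} {m ms l₀ lm q A b b' : ℕ} {a : ℕ → ℕ} (ha : Monotone a) (h1 : ∀ l, l₀ ≤ l → 2 * a l + 1 ≤ l)
    (hl : 3 ≤ l₀) (hms : ms + 2 * a lm ≤ m) {C R : ι → Ω → Finset ℕ} {cv : X → Ω → ℕ} {pt : X → Ω → ℝ≥0∞} {θb : ℝ≥0∞}
    {Bd : Set Ω} {ε₀ : ℝ} (hε₀ : 0 ≤ ε₀) (hq : 2 * A + 2 * b + b' ≤ q)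
    (hC : ∀ k ∈ T, ∀ ω ∉ Bd, ε₀ ≤ w k ω → (C k ω).card ≤ cv (x k) ω + b)
    (hR : ∀ k ∈ T, ∀ ω ∉ Bd, ε₀ ≤ w k ω → (R k ω).card ≤ b')
    (hp : ∀ k ∈ T, ∀ ω ∉ Bd, ε₀ ≤ w k ω → θb ≤ pt (x k) ω)
    (hdet : ∀ k ∈ T, ∀ ω ∉ Bd, ε₀ ≤ w k ω → ∀ t < ms, Usable (C k ω) m l₀ lm a t → t ∉ R k ω → ω ∈ V k t)
    {ν₁ ν₂ : ℝ} (hν₁ : 0 ≤ ν₁) (hν₂ : 0 ≤ ν₂)
    (hsep : ∑ y, ∫⁻ ω in {ω | A ≤ cv y ω ∧ θb ≤ pt y ω}, W y ω ∂P ≤ ENNReal.ofReal ν₁) (hbd : P Bd ≤ ENNReal.ofReal ν₂) :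
    ∑ k ∈ T, ∫⁻ ω in Nar (V k) ms q, ENNReal.ofReal (w k ω) ∂P ≤ ENNReal.ofReal (ν₁ + ν₂ + T.card * ε₀) := by
  classical
  set S : ι → Set Ω := fun k => {ω | w k ω < ε₀} with hS
  have hN : ∀ k ∈ T, Nar (V k) ms q \ S k ⊆ {ω | A ≤ cv (x k) ω ∧ θb ≤ pt (x k) ω} ∪ Bd := by
    intro k hk ω hω
    by_cases hb : ω ∈ Bd
    · exact Or.inr hb
    · have hw : ε₀ ≤ w k ω := not_lt.1 hω.2
      refine Or.inl ⟨?_, hp k hk ω hb hw⟩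
      have h2 := nar77 ha h1 hl hms (hdet k hk ω hb hw) hω.1
      have h3 := hC k hk ω hb hw
      have h4 := hR k hk ω hb hw
      omega
  have e1 : ∀ k ∈ T, ∫⁻ ω in Nar (V k) ms q, ENNReal.ofReal (w k ω) ∂P ≤
      (∫⁻ ω in Nar (V k) ms q \ S k, ENNReal.ofReal (w k ω) ∂P) + ENNReal.ofReal ε₀ := by
    intro k hk
    have e2 : ∫⁻ ω in S k, ENNReal.ofReal (w k ω) ∂P ≤ ENNReal.ofReal ε₀ := by
      have mS : MeasurableSet (S k) := measurableSet_lt (mw k hk) measurable_const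
      calc ∫⁻ ω in S k, ENNReal.ofReal (w k ω) ∂P ≤ ∫⁻ _ω in S k, ENNReal.ofReal ε₀ ∂P :=
            setLIntegral_mono measurable_const fun ω hω => ENNReal.ofReal_le_ofReal (le_of_lt hω)
        _ = ENNReal.ofReal ε₀ * P (S k) := by simp
        _ ≤ ENNReal.ofReal ε₀ * 1 := mul_le_mul' le_rfl prob_le_one
        _ = _ := mul_one _
    calc ∫⁻ ω in Nar (V k) ms q, ENNReal.ofReal (w k ω) ∂P
        ≤ ∫⁻ ω in (Nar (V k) ms q \ S k) ∪ S k, ENNReal.ofReal (w k ω) ∂P :=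
          lintegral_mono_set fun ω hω => by
            by_cases h : ω ∈ S k
            · exact Or.inr h
            · exact Or.inl ⟨hω, h⟩
      _ ≤ _ := (lintegral_union_le _ _ _).trans (add_le_add le_rfl e2)
  refine (sum_le_sum e1).trans ?_
  rw [sum_add_distrib, sum_const, nsmul_eq_mul, ENNReal.ofReal_add (by positivity) (by positivity), ENNReal.ofReal_add hν₁ hν₂,
    ENNReal.ofReal_mul (by positivity), ENNReal.ofReal_natCast]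
  refine add_le_add ?_ le_rfl
  exact (nu_le77 mw w1 hx hW (A := fun y => {ω | A ≤ cv y ω ∧ θb ≤ pt y ω}) (Bd := Bd) hN).trans (add_le_add hsep hbd)

end

open Pool.Agent.W_7d29a1_F Pool.Agent.W_7d29a1_C1.S71 Pool.Agent.W_7d29a1_C1.Sw9
open Pool.Agent.W_7d29a1_C1.H60
open Pool.Agent.W_7d29a1_C1.T10 (Gd pt)

noncomputable section

variable {μ : Measure ℝ} [IsProbabilityMeasure μ]

/-- **THE TAIL OF THE RANGES IN THE FRAME**: `C₀`, `pw` before `m₂`, `g`; every threshold `U ≥ C₀ (m₂ + g) ^ pw`. -/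
theorem tau77 {A' a₁ g₁ K χ : ℝ} (hA' : 0 < A') (ha : 0 < a₁) (hg₁ : 0 < g₁) (hK : 1 < K) (hχ : 0 < χ) {κ D : ℝ}
    (hκ : 0 < κ) (hD : 0 ≤ D) :
    ∃ C₀ : ℝ, 1 ≤ C₀ ∧ ∃ pw : ℕ, ∀ {m₂ g : ℕ}, 1 ≤ m₂ + g → ∀ U : ℝ, C₀ * ((m₂ + g : ℕ) : ℝ) ^ pw ≤ U →
      ∀ (n m L Lm : ℕ), 1 ≤ n → κ * Real.log n ≤ m → 16 * (m₂ + g) ≤ m → m₂ ≤ m → m + m₂ ≤ L →
      ∀ (G : Gd) (A : ℕ → Set Pt) (EL : ℕ → ℕ × ℤ → ℕ → Set Env), G.Ok L → G.Nest L A →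
      (∀ v o l, MeasurableSet (EL v o l)) → (∀ v o l, Off (A (v + 1) \ T10.At (pt o) (A v))ᶜ (EL v o l)) →
      (∀ v < L, ∀ c l, (law μ).real (EL v (G.dg v c) l)ᶜ ≤ A' * Real.exp (-(a₁ * (U * K ^ (χ * (l : ℝ))) ^ g₁))) →
      ∀ (c : ℕ × ℤ) (r : ℕ), m / (16 * (m₂ + g)) ≤ r →
      law μ {ω | r ≤ ∑ v ∈ Finset.range (m + m₂), lvL G (LvE Lm EL) L v c ω} ≤ ENNReal.ofReal ((n : ℝ) ^ (-D)) := by
  obtain ⟨Cb, hCb, H77⟩ := exp77 (κ := K) (A := D) (κ' := κ) hK hD hκ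
  obtain ⟨C, hC, HR77⟩ := rsumL77 (μ := μ) hA' ha hg₁ hK hχ one_pos
  have hg0 : 0 ≤ 1 / g₁ := by positivity
  obtain ⟨pw, hpw⟩ := exists_nat_ge (1 / g₁)
  have hCb1 : 1 ≤ 1 + 16 * Cb := by linarith
  refine ⟨C * (1 + 16 * Cb) ^ (1 / g₁), ?_, pw, ?_⟩
  · have h1 : 1 ≤ (1 + 16 * Cb) ^ (1 / g₁) := Real.one_le_rpow hCb1 hg0
    nlinarith
  intro m₂ g hM U hU0 n m L Lm hn hm hmM hmm hmL G A EL hG hA mE oE hP c r hr
  have hD' : 0 < 16 * (m₂ + g) := by omega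
  obtain ⟨b, hb, hbD, H60⟩ := H77 hD'
  have hU : C * (1 + b) ^ (1 / g₁) ≤ U := by
    refine le_trans ?_ hU0
    have hx1 : (1 : ℝ) ≤ ((m₂ + g : ℕ) : ℝ) := by exact_mod_cast hM
    have e1 : 1 + b ≤ (1 + 16 * Cb) * ((m₂ + g : ℕ) : ℝ) := by
      have e2 : b ≤ Cb * (16 * ((m₂ + g : ℕ) : ℝ)) := by
        refine hbD.trans (le_of_eq ?_)
        push_cast
        ring
      nlinarith
    have e3 : (1 + b) ^ (1 / g₁) ≤ (1 + 16 * Cb) ^ (1 / g₁) * ((m₂ + g : ℕ) : ℝ) ^ pw := by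
      calc (1 + b) ^ (1 / g₁) ≤ ((1 + 16 * Cb) * ((m₂ + g : ℕ) : ℝ)) ^ (1 / g₁) := Real.rpow_le_rpow (by linarith) e1 hg0
        _ = (1 + 16 * Cb) ^ (1 / g₁) * ((m₂ + g : ℕ) : ℝ) ^ (1 / g₁) := Real.mul_rpow (by linarith) (by linarith)
        _ ≤ _ := by
            refine mul_le_mul_of_nonneg_left ?_ (by positivity)
            rw [← Real.rpow_natCast]
            exact Real.rpow_le_rpow_of_exponent_le hx1 hpw
    calc C * (1 + b) ^ (1 / g₁) ≤ C * ((1 + 16 * Cb) ^ (1 / g₁) * ((m₂ + g : ℕ) : ℝ) ^ pw) :=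
          mul_le_mul_of_nonneg_left e3 (by linarith)
      _ = _ := by ring
  have hK1 : (1 : ℝ) ≤ K ^ b := Real.one_le_rpow hK.le hb
  refine (HR77 b hb U hU G L (m + m₂) Lm A EL hmL hG hA mE oE hP c r).trans (ENNReal.ofReal_le_ofReal ?_)
  refine le_trans ?_ (H60 n m (m + m₂) hn hm hmM (by omega))
  have e2 : (K ^ b) ^ (m / (16 * (m₂ + g))) ≤ (K ^ b) ^ r := pow_le_pow_right₀ hK1 hr
  have e3 : 0 < (K ^ b) ^ (m / (16 * (m₂ + g))) := by positivity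
  exact div_le_div_of_nonneg_left (by positivity) e3 e2

end

end Pool.Agent.W_7d29a1_C1.H77
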