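import Pool.Agent.W_7d29a1_C1.PosT98
import Pool.Agent.W_7d29a1_C1.InvP9

/-!
MP_7d29a1_pr, attractor route [C1], SHELL: THE JUNCTION OF THE EXCHANGE, THE INNER HALF OF THE SUCCESS WITH THE PLACE (helper98; helper47,
helper60). As `PosT98`, with `SI : ℕ → ℕ × ℤ → Set Env` read at the place `G.rel j c` of the contact in its box; `SI j (rel j c)` is a
function of the box `j - g` (`eI`).
-/

set_option autoImplicit false

namespace Pool.Agent.W_7d29a1_C1.P98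

open MeasureTheory ProbabilityTheory
open Pool.Agent.W_7d29a1_F Pool.Agent.W_7d29a1_C1.S71 Pool.Agent.W_7d29a1_C1.Sw9
open Pool.Agent.W_7d29a1_C1.T10 (Gd pt)
open Pool.Agent.W_7d29a1_C1.H60 (lvL lvL_lt lvL_ge measurable_lvL SH Rch Part PDi Ag)
open Pool.Agent.W_7d29a1_C1.H77 (AO AO_inv AO_disj AO_sub measurableSet_AO)
open Pool.Agent.W_7d29a1_C1.Pd9 (swc swc_swc VV SSp YY rg InvP pdg9 GdP)
open Pool.Agent.W_7d29a1_C1.T98 (mYY Sc pm_mem_Sc)

noncomputable section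

/-- **The block event** with the place. -/
def SHP (G : Gd) (So SI : ℕ → ℕ × ℤ → Set Env) (j : ℕ) (c : ℕ × ℤ) : Set Env := So j c ∩ sh (G.x j c) ⁻¹' SI j (G.rel j c)

/-- **ONE COPY.** `T` = the contacts, `V j c` = the scale `j` is usable, `So j c`, `SI j (rel j c)` = the two halves of the block event. -/
structure Half (G : Gd) (A : ℕ → Set Pt) (m g : ℕ) (T : Finset (ℕ × ℤ)) (V So SI : ℕ → ℕ × ℤ → Set Env) : Prop where
  mV : ∀ j < m, ∀ c ∈ T, MeasurableSet (V j c)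
  mSo : ∀ j < m, ∀ c ∈ T, MeasurableSet (So j c)
  oV : ∀ j < m, ∀ c ∈ T, Off (T10.At (G.x j c) (A j)) (V j c)
  eV : ∀ j < m, ∀ c ∈ T, ∀ d ∈ T, G.z j c = G.z j d → V j c = V j d
  oSo : ∀ j < m, ∀ c ∈ T, Off (T10.At (G.x j c) (A j)) (So j c)
  eSo : ∀ j < m, ∀ c ∈ T, ∀ d ∈ T, G.z j c = G.z j d → So j c = So j d
  oI : ∀ j < m, g ≤ j → ∀ c ∈ T, Off (T10.At (G.x (j - g) c) (A (j - g))) (sh (G.x j c) ⁻¹' SI j (G.rel j c))
  eI : ∀ j < m, g ≤ j → ∀ c ∈ T, ∀ d ∈ T, G.z (j - g) c = G.z (j - g) d → SI j (G.rel j c) = SI j (G.rel j d)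

variable {G : Gd} {L : ℕ} {A : ℕ → Set Pt} {m g : ℕ} {T : Finset (ℕ × ℤ)} {V So SI : ℕ → ℕ × ℤ → Set Env}

theorem Half.mS (h : Half G A m g T V So SI) (mI : ∀ j < m, ∀ y, MeasurableSet (SI j y)) : ∀ j < m, ∀ c ∈ T,
    MeasurableSet (SHP G So SI j c) := fun j hj c hc => (h.mSo j hj c hc).inter ((mI j hj _).preimage (measurable_sh _))

theorem Half.oS (h : Half G A m g T V So SI) (hG : G.Ok L) (hA : G.Nest L A) (hm : ∀ j < m, j ≤ L) : ∀ j < m, g ≤ j → ∀ c ∈ T,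
    Off (T10.At (G.x (j - g) c) (A (j - g))) (SHP G So SI j c) := fun j hj hg c hc => by
  refine Off.inter ((h.oSo j hj c hc).mono ?_) (h.oI j hj hg c hc)
  exact hG.nest_le hA (Nat.sub_le j g) (hm j hj) c

theorem Half.eS (h : Half G A m g T V So SI) (hG : G.Ok L) (hm : ∀ j < m, j ≤ L) : ∀ j < m, g ≤ j → ∀ c ∈ T, ∀ d ∈ T,
    G.z (j - g) c = G.z (j - g) d → SHP G So SI j c = SHP G So SI j d := fun j hj hg c hc d hd hcd => by
  have hz := hG.z_nested (Nat.sub_le j g) (hm j hj) hcd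
  unfold SHP
  rw [h.eSo j hj c hc d hd hz, Gd.x_congr hz, h.eI j hj hg c hc d hd hcd]

/-- More scales between two block events. -/
theorem Half.le (h : Half G A m g T V So SI) (hG : G.Ok L) (hA : G.Nest L A) (hm : ∀ j < m, j ≤ L) {g' : ℕ} (hg : g ≤ g') :
    Half G A m g' T V So SI :=
  { h with
    oI := fun j hj hj2 c hc => (h.oI j hj (hg.trans hj2) c hc).mono
      (hG.nest_le hA (Nat.sub_le_sub_left hg j) ((Nat.sub_le j g).trans (hm j hj)) c)
    eI := fun j hj hj2 c hc d hd hcd => h.eI j hj (hg.trans hj2) c hc d hd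
      (hG.z_nested (Nat.sub_le_sub_left hg j) ((Nat.sub_le j g).trans (hm j hj)) hcd) }

/-! ### The sets of pairs of environments -/

section sets

variable {Lv : ℕ → ℕ × ℤ → Env → ℕ} {M : ℕ} {mi : ℕ → ℕ} {T' : Finset (ℕ × ℤ)} {V' So' : ℕ → ℕ × ℤ → Set Env}

/-- **The pairs which are exchanged at the scale `t`**: the outermost chosen normal success. -/
def Ut (G : Gd) (L : ℕ) (Lv : ℕ → ℕ × ℤ → Env → ℕ) (M m : ℕ) (mi : ℕ → ℕ) (V So V' So' SI : ℕ → ℕ × ℤ → Set Env)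
    (t : ℕ) (p : (ℕ × ℤ) × (ℕ × ℤ)) : Set (Env × Env) :=
  AO M m (VV V V' p) (SSp G.x G.x So So' (fun u c => SI u (G.rel u c)) (fun u c => SI u (G.rel u c)) p) (YY (lvL G Lv L) (lvL G Lv L) (H60.Yr mi) p) t

/-- **The success of one copy.** -/
def Su (G : Gd) (L : ℕ) (Lv : ℕ → ℕ × ℤ → Env → ℕ) (mi : ℕ → ℕ) (V So SI : ℕ → ℕ × ℤ → Set Env)
    (l : ℕ) (c : ℕ × ℤ) : Set Env :=
  {η | η ∈ V l c ∧ η ∈ So l c ∧ sh (G.x l c) η ∈ SI l (G.rel l c) ∧ η ∉ Rch (lvL G Lv L) (mi l) c}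

theorem mUt (h : Half G A m g T V So SI) (h' : Half G A m g T' V' So' SI) (mI : ∀ j < m, ∀ y, MeasurableSet (SI j y))
    (mL : ∀ v o, Measurable (Lv v o)) (t : ℕ) {p : (ℕ × ℤ) × (ℕ × ℤ)} (hp : p ∈ T ×ˢ T') :
    MeasurableSet (Ut G L Lv M m mi V So V' So' SI t p) := by
  obtain ⟨h1, h2⟩ := Finset.mem_product.1 hp
  refine measurableSet_AO (fun u hu => ?_) (fun u hu => ?_) (fun u _ => mYY mL p u) t
  · exact ((h.mV u hu _ h1).preimage measurable_fst).inter ((h'.mV u hu _ h2).preimage measurable_snd)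
  · have f1 : Measurable (Prod.fst : Env × Env → Env) := measurable_fst
    have f2 : Measurable (Prod.snd : Env × Env → Env) := measurable_snd
    have a1 := (h.mSo u hu _ h1).preimage f1
    have a2 := (h'.mSo u hu _ h2).preimage f2
    have a3 := (mI u hu (G.rel u p.1)).preimage ((measurable_sh (G.x u p.1)).comp f1)
    have a4 := (mI u hu (G.rel u p.2)).preimage ((measurable_sh (G.x u p.2)).comp f2)
    exact (a1.inter a2).inter (a3.inter a4)

theorem sub_Su {t : ℕ} {p : (ℕ × ℤ) × (ℕ × ℤ)} {z : Env × Env} (hz : z ∈ Ut G L Lv M m mi V So V' So' SI t p) :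
    z.1 ∈ Su G L Lv mi V So SI t p.1 ∧ z.2 ∈ Su G L Lv mi V' So' SI t p.2 := by
  have h1 := AO_sub t hz
  have h2 : z ∈ VV V V' p t := h1.1
  have h3 : z ∈ SSp G.x G.x So So' (fun u c => SI u (G.rel u c)) (fun u c => SI u (G.rel u c)) p t := h1.2.1
  have h4 : z ∉ YY (lvL G Lv L) (lvL G Lv L) (H60.Yr mi) p t := h1.2.2
  refine ⟨⟨h2.1, h3.1.1, h3.2.1, ?_⟩, h2.2, h3.1.2, h3.2.2, ?_⟩
  · rintro ⟨v, hv, hv2⟩
    exact h4 ⟨v, hv, lt_of_lt_of_le hv2 (Nat.add_le_add_left (le_max_left _ _) v)⟩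
  · rintro ⟨v, hv, hv2⟩
    exact h4 ⟨v, hv, lt_of_lt_of_le hv2 (Nat.add_le_add_left (le_max_right _ _) v)⟩

/-- **InvP for the tower.** -/
theorem invP98 (hG : G.Ok L) (hA : G.Nest L A) (hL : Gd.Rd A Lv) (hm : ∀ j < m, j ≤ L) (hgM : g ≤ M)
    (iI : ∀ j < m, ∀ y, Off (A j)ᶜ (SI j y)) (h : Half G A m g T V So SI) (h' : Half G A m g T' V' So' SI) {t : ℕ} (ht : t < m)
    {p : (ℕ × ℤ) × (ℕ × ℤ)} (hp : p ∈ T ×ˢ T') (hq : G.pm t p ∈ T ×ˢ T') :
    InvP m M t A (fun u c => if u < m then G.x u c else 0) (fun u c => if u < m then G.x u c else 0) V So V' So'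
      (fun u c => SI u (G.rel u c)) (fun u c => SI u (G.rel u c))
      (lvL G Lv L) (lvL G Lv L) p.1 (G.pm t p).1 p.2 (G.pm t p).2 (fun v => Gd.Lt A Lv t v) (fun v c => G.ps t v c)
      (fun v c => G.ps t v c) := by
  obtain ⟨p1, p2⟩ := Finset.mem_product.1 hp
  obtain ⟨q1, q2⟩ := Finset.mem_product.1 hq
  have htL := hm t ht
  have z1 : ∀ u, t ≤ u → u ≤ L → G.z u (G.pm t p).1 = G.z u p.1 ∧ G.z u (G.pm t p).2 = G.z u p.2 :=
    fun u a b => hG.pm_z a b p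
  have lO : ∀ (c : ℕ × ℤ) (v : ℕ), t ≤ v → OffF (T10.At (G.x t c) (A t)) (lvL G Lv L v c) := by
    intro c v hv
    by_cases hvL : v < L
    · rw [lvL_lt hvL]
      exact hG.lv_out hA hL hv hvL c
    · rw [lvL_ge hvL]
      exact fun _ _ _ => rfl
  have lin : ∀ (c : ℕ × ℤ) (v : ℕ), v < t → ∀ η, lvL G Lv L v c η = Gd.Lt A Lv t v (G.ps t v c) (sh (G.x t c) η) := by
    intro c v hv η
    rw [lvL_lt (hv.trans_le htL)]
    exact hG.lv_in hA hL hv htL c η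
  refine
    { xd := fun u hu => ?_
      xd' := fun u hu => ?_
      vO := fun u hu hum => ?_
      vO' := fun u hu hum => ?_
      vE := fun u hu hum => h.eV u hum _ q1 _ p1 (z1 u hu (hm u hum)).1
      vE' := fun u hu hum => h'.eV u hum _ q2 _ p2 (z1 u hu (hm u hum)).2
      sO := fun u hu hum => ?_
      sO' := fun u hu hum => ?_
      sE := fun u hu hum => h.eSo u hum _ q1 _ p1 (z1 u (by omega) (hm u hum)).1
      sE' := fun u hu hum => h'.eSo u hum _ q2 _ p2 (z1 u (by omega) (hm u hum)).2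
      iI := iI t ht _
      iI' := iI t ht _
      iE := by
        show SI t (G.rel t (G.pm t p).1) = SI t (G.rel t p.2)
        rw [(hG.pm_rel le_rfl htL p).1]
      iE' := by
        show SI t (G.rel t (G.pm t p).2) = SI t (G.rel t p.1)
        rw [(hG.pm_rel le_rfl htL p).2]
      iF := fun u hu hum => h.eI u hum (by omega) _ q1 _ p1
        (z1 (u - g) (by omega) ((Nat.sub_le _ _).trans (hm u hum))).1
      iF' := fun u hu hum => h'.eI u hum (by omega) _ q2 _ p2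
        (z1 (u - g) (by omega) ((Nat.sub_le _ _).trans (hm u hum))).2
      iO := fun u hu htu hum => ?_
      iO' := fun u hu htu hum => ?_
      lO := fun v hv => ?_
      lO' := fun v hv => ?_
      lE := fun v hv => ?_
      lE' := fun v hv => ?_
      LI := fun v _ y => Gd.Lt_read t v y
      l1 := fun v hv η => ?_
      l2 := fun v hv η => ?_
      l3 := fun v hv η => ?_
      l4 := fun v hv η => ?_
      pd := fun v hv => (hG.ps_pm hv htL p).1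
      pd' := fun v hv => (hG.ps_pm hv htL p).2 }
  · show (if u < m then G.x u (G.pm t p).1 else 0) = if u < m then G.x u p.1 else 0
    split_ifs with hum
    · exact Gd.x_congr (z1 u hu (hm u hum)).1
    · rfl
  · show (if u < m then G.x u (G.pm t p).2 else 0) = if u < m then G.x u p.2 else 0
    split_ifs with hum
    · exact Gd.x_congr (z1 u hu (hm u hum)).2
    · rfl
  · rw [if_pos ht]
    exact (h.oV u hum _ p1).mono (hG.nest_le hA hu (hm u hum) _)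
  · rw [if_pos ht]
    exact (h'.oV u hum _ p2).mono (hG.nest_le hA hu (hm u hum) _)
  · rw [if_pos ht]
    exact (h.oSo u hum _ p1).mono (hG.nest_le hA (by omega) (hm u hum) _)
  · rw [if_pos ht]
    exact (h'.oSo u hum _ p2).mono (hG.nest_le hA (by omega) (hm u hum) _)
  · show Off (Pd9.At (if t < m then G.x t p.1 else 0) (A t)) (sh (if u < m then G.x u p.1 else 0) ⁻¹' SI u (G.rel u p.1))
    rw [if_pos ht, if_pos hum]
    exact (h.oI u hum (by omega) _ p1).mono (hG.nest_le hA (by omega) ((Nat.sub_le _ _).trans (hm u hum)) _)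
  · show Off (Pd9.At (if t < m then G.x t p.2 else 0) (A t)) (sh (if u < m then G.x u p.2 else 0) ⁻¹' SI u (G.rel u p.2))
    rw [if_pos ht, if_pos hum]
    exact (h'.oI u hum (by omega) _ p2).mono (hG.nest_le hA (by omega) ((Nat.sub_le _ _).trans (hm u hum)) _)
  · rw [if_pos ht]
    exact lO _ v hv
  · rw [if_pos ht]
    exact lO _ v hv
  · by_cases hvL : v < L
    · rw [lvL_lt hvL, lvL_lt hvL]
      exact (hG.lv_pm hv hvL p).1
    · rw [lvL_ge hvL, lvL_ge hvL]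
  · by_cases hvL : v < L
    · rw [lvL_lt hvL, lvL_lt hvL]
      exact (hG.lv_pm hv hvL p).2
    · rw [lvL_ge hvL, lvL_ge hvL]
  · rw [if_pos ht]
    exact lin _ v hv η
  · rw [if_pos ht]
    exact lin _ v hv η
  · rw [if_pos ht]
    exact lin _ v hv η
  · rw [if_pos ht]
    exact lin _ v hv η

/-- **THE EXCHANGE PRESERVES THE SETS.** -/
theorem iUP98 (hG : G.Ok L) (hA : G.Nest L A) (hL : Gd.Rd A Lv) (hm : ∀ j < m, j ≤ L) (hM : 0 < M) (hgM : g ≤ M)
    (iI : ∀ j < m, ∀ y, Off (A j)ᶜ (SI j y)) (h : Half G A m g T V So SI) (h' : Half G A m g T' V' So' SI) {t : ℕ} (ht : t < m)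
    {p : (ℕ × ℤ) × (ℕ × ℤ)} (hp : p ∈ T ×ˢ T') (hq : G.pm t p ∈ T ×ˢ T') (z : Env × Env) :
    z ∈ Ut G L Lv M m mi V So V' So' SI t p ↔
      swc (A t) (G.x t p.1) (G.x t p.2) z ∈ Ut G L Lv M m mi V So V' So' SI t (G.pm t p) := by
  set xm : ℕ → ℕ × ℤ → Pt := fun u c => if u < m then G.x u c else 0 with hxm
  have exm : ∀ u < m, ∀ c, xm u c = G.x u c := fun u hu c => by rw [hxm]; exact if_pos hu
  have key := (invP98 (M := M) hG hA hL hm hgM iI h h' ht hp hq).ao9 hM ht (H60.Yr mi) z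
  have cg : ∀ (q : (ℕ × ℤ) × (ℕ × ℤ)) (y : Env × Env),
      y ∈ AO M m (VV V V' q) (SSp G.x G.x So So' (fun u c => SI u (G.rel u c)) (fun u c => SI u (G.rel u c)) q)
        (YY (lvL G Lv L) (lvL G Lv L) (H60.Yr mi) q) t ↔
      y ∈ AO M m (VV V V' q) (SSp xm xm So So' (fun u c => SI u (G.rel u c)) (fun u c => SI u (G.rel u c)) q)
        (YY (lvL G Lv L) (lvL G Lv L) (H60.Yr mi) q) t := by
    intro q y
    have e : ∀ u < m, (y ∈ SSp G.x G.x So So' (fun u c => SI u (G.rel u c)) (fun u c => SI u (G.rel u c)) q u ↔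
        y ∈ SSp xm xm So So' (fun u c => SI u (G.rel u c)) (fun u c => SI u (G.rel u c)) q u) := by
      intro u hu
      show ((y.1 ∈ So u q.1 ∧ y.2 ∈ So' u q.2) ∧ (sh (G.x u q.1) y.1 ∈ SI u (G.rel u q.1) ∧
          sh (G.x u q.2) y.2 ∈ SI u (G.rel u q.2))) ↔
        ((y.1 ∈ So u q.1 ∧ y.2 ∈ So' u q.2) ∧ (sh (xm u q.1) y.1 ∈ SI u (G.rel u q.1) ∧
          sh (xm u q.2) y.2 ∈ SI u (G.rel u q.2)))
      rw [exm u hu, exm u hu]
    exact AO_inv (fun _ _ _ => Iff.rfl) (e t ht) (fun j _ hj => e j hj) fun _ _ _ => Iff.rfl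
  unfold Ut
  rw [cg, cg]
  rw [if_pos ht, if_pos ht] at key
  exact key

end sets

/-! ### The junction -/

section junction

variable {μ : Measure ℝ} [IsProbabilityMeasure μ] {Lv : ℕ → ℕ × ℤ → Env → ℕ} {M : ℕ} {mi : ℕ → ℕ} {T' : Finset (ℕ × ℤ)}
  {V' So' : ℕ → ℕ × ℤ → Set Env}

/-- **THE JUNCTION**: `Part` and `PDi` for two copies over the tower. `v l c = G.rel l c` is the position of the contact in its box,
`F l v`, `Fw l v` are functions of the region `A l`, the same for both copies. -/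
theorem junP98 (hG : G.Ok L) (hA : G.Nest L A) (hL : Gd.Rd A Lv) (mL : ∀ v o, Measurable (Lv v o)) (hm : ∀ j < m, j ≤ L)
    (hM : 0 < M) (hgM : g ≤ M) (mI : ∀ j < m, ∀ y, MeasurableSet (SI j y)) (iI : ∀ j < m, ∀ y, Off (A j)ᶜ (SI j y))
    (h : Half G A m g T V So SI) (h' : Half G A m g T' V' So' SI)
    (hpm : ∀ l < m, ∀ p ∈ T ×ˢ T', G.pm l p ∈ T ×ˢ T') {Bd Bd' : Set Env} (mB : MeasurableSet Bd) (mB' : MeasurableSet Bd')
    {B : Env → ℝ} {C w ws C' w' ws' : ℕ × ℤ → Env → ℝ} {F Fw : ℕ → ℕ × ℤ → Env → ℝ} {o t th : ℝ}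
    (hF : ∀ l < m, ∀ y, OffF (A l)ᶜ (F l y)) (hFw : ∀ l < m, ∀ y, OffF (A l)ᶜ (Fw l y))
    (c1 : ∀ l < m, ∀ c ∈ T, ∀ η ∈ Su G L Lv mi V So SI l c, η ∉ Bd →
      |C c η - F l (G.rel l c) (sh (G.x l c) η)| ≤ t + th * ws c η)
    (w1 : ∀ l < m, ∀ c ∈ T, ∀ η ∈ Su G L Lv mi V So SI l c, η ∉ Bd →
      |w c η - Fw l (G.rel l c) (sh (G.x l c) η)| ≤ t + th * w c η)
    (c2 : ∀ l < m, ∀ c ∈ T', ∀ η ∈ Su G L Lv mi V' So' SI l c, η ∉ Bd' →
      |C' c η - F l (G.rel l c) (sh (G.x l c) η)| ≤ t + th * ws' c η)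
    (w2 : ∀ l < m, ∀ c ∈ T', ∀ η ∈ Su G L Lv mi V' So' SI l c, η ∉ Bd' →
      |w' c η - Fw l (G.rel l c) (sh (G.x l c) η)| ≤ t + th * w' c η)
    (hB : ∀ l < m, ∀ c ∈ T, ∀ d ∈ T, G.x l c = G.x l d → ∀ η ∈ Su G L Lv mi V So SI l c, ∀ η' ∈ Su G L Lv mi V So SI l d,
      η ∉ Bd → η' ∉ Bd → (∀ q, q ∉ A l → sh (G.x l c) η q = sh (G.x l c) η' q) → |B η - B η'| ≤ o) :
    Part ((law μ).prod (law μ)) (T ×ˢ T') m (fun l p => G.pm l p) (fun l p => swc (A l) (G.x l p.1) (G.x l p.2))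
        (Ut G L Lv M m mi V So V' So' SI) ∧
      PDi (law μ) B T T' C w ws C' w' ws' m (fun l p => G.pm l p) (fun l p => swc (A l) (G.x l p.1) (G.x l p.2))
        (Ag (fun l p => swc (A l) (G.x l p.1) (G.x l p.2)) (Ut G L Lv M m mi V So V' So' SI) (GdP Bd Bd')) o (2 * t) th :=
  pdg9 (μ := μ) (x := G.x) (x' := G.x) (v := fun l c => G.rel l c) (v' := fun l c => G.rel l c) mB mB'
    (fun l _ _ hp => mUt h h' mI mL l hp)
    (fun _ _ l _ l' _ hll => AO_disj _ _ _ hll)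
    (fun l hl p hp _ => hpm l hl p hp)
    (fun l hl p _ _ => hG.pm_pm (hm l hl) p)
    (fun l hl p _ _ => hG.x_pm le_rfl (hm l hl) p)
    (fun l hl p _ _ => hG.pm_rel le_rfl (hm l hl) p)
    (fun l hl p hp _ z => iUP98 hG hA hL hm hM hgM iI h h' hl hp (hpm l hl p hp) z)
    (fun l _ p _ z hz => sub_Su hz)
    hF hFw c1 w1 c2 w2 hB

end junction

end

end Pool.Agent.W_7d29a1_C1.P98
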