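import Pool.Agent.W_7d29a1_C1.Slab20

/-!
MP_7d29a1_pr, [C1] SHELL: THE SLAB EVENT AT ANY PLACE AND UNDER RESAMPLING. (helper20)

`at20 b E` = the event `E` seen from the site `b`; `Rw20 r T` = the sites of the rows `r < . ≤ r + T`; an event of a set `A` of sites has the
same probability when any set `B ⊇ A` is resampled, whatever the frozen rest (`real_gl20`); several slabs (and other events) on disjoint
sets of sites: the constants multiply (`prod20`), also with everything else frozen (`prod_gl20`).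
-/

set_option autoImplicit false

namespace Pool.Agent.W_7d29a1_C1

open MeasureTheory ProbabilityTheory Filter Topology
open Pool.Agent.W_7d29a1_F Pool.Agent.W_7d29a1_h4g Pool.Agent.W_7d29a1_H Pool.Agent.W_7d29a1_HS
open Pool.Agent.W_7d29a1_C1.S71 (Off gl)

noncomputable section

variable {μ : Measure ℝ} {s c C : ℝ} {n₀ : ℕ}

/-- The event `E` seen from the site `b`. -/
def at20 (b : Pt) (E : Set Env) : Set Env := {η | sh b η ∈ E}

/-- `E` is an event of the sites of `A`. -/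
def On20 (A : Set Pt) (E : Set Env) : Prop := ∀ η η' : Env, (∀ p ∈ A, η p = η' p) → (η ∈ E ↔ η' ∈ E)

theorem On20.mono {A A' : Set Pt} {E : Set Env} (h : On20 A E) (hA : A ⊆ A') : On20 A' E :=
  fun η η' hh => h η η' fun p hp => hh p (hA hp)

theorem On20.inter {A : Set Pt} {E F : Set Env} (h : On20 A E) (h' : On20 A F) : On20 A (E ∩ F) :=
  fun η η' hh => and_congr (h η η' hh) (h' η η' hh)

theorem On20.union {A : Set Pt} {E F : Set Env} (h : On20 A E) (h' : On20 A F) : On20 A (E ∪ F) :=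
  fun η η' hh => or_congr (h η η' hh) (h' η η' hh)

theorem On20.compl {A : Set Pt} {E : Set Env} (h : On20 A E) : On20 A Eᶜ :=
  fun η η' hh => not_congr (h η η' hh)

theorem On20.iUnion {κ : Sort*} {A : Set Pt} {E : κ → Set Env} (h : ∀ i, On20 A (E i)) : On20 A (⋃ i, E i) :=
  fun η η' hh => by
    rw [Set.mem_iUnion, Set.mem_iUnion]
    exact exists_congr fun i => h i η η' hh

theorem On20.iInter {κ : Sort*} {A : Set Pt} {E : κ → Set Env} (h : ∀ i, On20 A (E i)) : On20 A (⋂ i, E i) :=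
  fun η η' hh => by
    rw [Set.mem_iInter, Set.mem_iInter]
    exact forall_congr' fun i => h i η η' hh

theorem On20.off {A B : Set Pt} {E : Set Env} (h : On20 A E) (hd : Disjoint A B) : Off B E :=
  fun η η' hh => h η η' fun p hp => hh p fun hB => Set.disjoint_left.1 hd hp hB

theorem meas_at20 (b : Pt) {E : Set Env} (hE : MeasurableSet E) : MeasurableSet (at20 b E) := by
  have : Measurable (sh b) := measurable_pi_iff.2 fun p => measurable_pi_apply (p + b)
  exact this hE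

theorem real_at20 [IsProbabilityMeasure μ] (b : Pt) {E : Set Env} (hE : MeasurableSet E) :
    (law μ).real (at20 b E) = (law μ).real E := real_sh b hE

theorem on_at20 (b : Pt) {E : Set Env} {r : ℤ} {T : ℕ} (h : On20 (rows r (r + T)) E) :
    On20 (rows (b.1 + r) (b.1 + r + T)) (at20 b E) := by
  intro η η' hh
  refine h (sh b η) (sh b η') fun p hp => ?_
  show η (p + b) = η' (p + b)
  refine hh (p + b) ⟨?_, ?_⟩
  · have : r < p.1 := hp.1
    show b.1 + r < p.1 + b.1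
    omega
  · have : p.1 ≤ r + T := hp.2
    show p.1 + b.1 ≤ b.1 + r + T
    omega

theorem on_at20' (b : Pt) {E : Set Env} {T : ℕ} (h : On20 (rows 0 (0 + T)) E) :
    On20 (rows b.1 (b.1 + T)) (at20 b E) := by
  have h1 := on_at20 b h
  rwa [add_zero] at h1

/-! ### The slab event -/

theorem meas_SLAB20 {ι : Type} [Countable ι] (a e : ι → ℤ) (T : ℕ) (ω δ L G U : ℝ) :
    MeasurableSet (SLAB20 μ s a e T ω δ L G U) := by
  have e1 : SLAB20 μ s a e T ω δ L G U = (⋂ j, {η | Real.exp L ≤ W μ s η ((0 : ℤ), a j) T (e j - a j)}) ∩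
      ((⋂ (x : ℤ) (y : ℤ) (_ : |(x : ℝ)| ≤ ω) (_ : ∀ j, ¬ (|(x : ℝ) - a j| ≤ δ ∧ |(y : ℝ) - e j| ≤ δ)),
        {η | W μ s η ((0 : ℤ), x) T (y - x) ≤ Real.exp (-G)}) ∩
      ⋂ (x : ℤ) (_ : |(x : ℝ)| ≤ ω), {η | V μ s η ((0 : ℤ), x) T ≤ U}) := by
    ext η
    simp only [SLAB20, Set.mem_ofPred_eq, Set.mem_inter_iff, Set.mem_iInter]
  rw [e1]
  refine (MeasurableSet.iInter fun j => measurableSet_le measurable_const (measurable_W _ _ _)).inter
    ((MeasurableSet.iInter fun x => MeasurableSet.iInter fun y => MeasurableSet.iInter fun _ => MeasurableSet.iInter fun _ =>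
      measurableSet_le (measurable_W _ _ _) measurable_const).inter
    (MeasurableSet.iInter fun x => MeasurableSet.iInter fun _ => measurableSet_le (measurable_V _ _) measurable_const))

theorem on_SLAB20 {ι : Type} (a e : ι → ℤ) (T : ℕ) (ω δ L G U : ℝ) :
    On20 (rows 0 (0 + T)) (SLAB20 μ s a e T ω δ L G U) := by
  intro η η' hh
  have hW : ∀ (x y : ℤ), W μ s η ((0 : ℤ), x) T y = W μ s η' ((0 : ℤ), x) T y := fun x y =>
    W_dep_rows (μ := μ) (s := s) ((0 : ℤ), x) T y fun p hp => hh p hp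
  have hV : ∀ x : ℤ, V μ s η ((0 : ℤ), x) T = V μ s η' ((0 : ℤ), x) T := fun x =>
    V_dep_rows (μ := μ) (s := s) ((0 : ℤ), x) T fun p hp => hh p hp
  unfold SLAB20
  simp only [Set.mem_ofPred_eq, hW, hV]

/-- The slab event at the base `b`. -/
theorem mem_at_SLAB20 {ι : Type} (a e : ι → ℤ) (T : ℕ) (ω δ L G U : ℝ) (b : Pt) (η : Env) :
    η ∈ at20 b (SLAB20 μ s a e T ω δ L G U) ↔ (∀ j, Real.exp L ≤ W μ s η (b.1, a j + b.2) T (e j - a j)) ∧
      (∀ (x y : ℤ), |(x : ℝ)| ≤ ω → (∀ j, ¬ (|(x : ℝ) - a j| ≤ δ ∧ |(y : ℝ) - e j| ≤ δ)) →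
        W μ s η (b.1, x + b.2) T (y - x) ≤ Real.exp (-G)) ∧
      ∀ x : ℤ, |(x : ℝ)| ≤ ω → V μ s η (b.1, x + b.2) T ≤ U := by
  have e1 : ∀ x : ℤ, (((0 : ℤ), x) : Pt) + b = (b.1, x + b.2) := fun x => by
    refine Prod.ext ?_ rfl
    show (0 : ℤ) + b.1 = b.1
    ring
  unfold at20 SLAB20
  simp only [Set.mem_ofPred_eq, W_sh, V_sh, e1]

/-! ### Resampling -/

/-- **An event of the sites of `A` under the resampling of `B ⊇ A`.** -/
theorem mem_gl20 {A B : Set Pt} (hAB : A ⊆ B) {E : Set Env} (h : On20 A E) (η ω : Env) : gl B η ω ∈ E ↔ η ∈ E :=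
  h _ _ fun p hp => S71.gl_of_mem (hAB hp) η ω

theorem real_gl20 {A B : Set Pt} (hAB : A ⊆ B) {E : Set Env} (h : On20 A E) (ω : Env) :
    (law μ).real {η | gl B η ω ∈ E} = (law μ).real E := by
  congr 1
  ext η
  exact mem_gl20 hAB h η ω

theorem meas_gl20 {A B : Set Pt} (hAB : A ⊆ B) {E : Set Env} (h : On20 A E) (hE : MeasurableSet E) :
    MeasurableSet {q : Env × Env | gl B q.1 q.2 ∈ E} := by
  have e1 : {q : Env × Env | gl B q.1 q.2 ∈ E} = Prod.fst ⁻¹' E := by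
    ext q
    exact mem_gl20 hAB h q.1 q.2
  rw [e1]
  exact measurable_fst hE

/-- **Finitely many events on disjoint sets of sites.** -/
theorem prod20 [IsProbabilityMeasure μ] {κ : Type*} (I : Finset κ) (E : κ → Set Env) (A : κ → Set Pt) (p : κ → ℝ)
    (hp : ∀ i ∈ I, 0 ≤ p i) (hm : ∀ i ∈ I, MeasurableSet (E i)) (hon : ∀ i ∈ I, On20 (A i) (E i))
    (hd : ∀ i ∈ I, ∀ j ∈ I, i ≠ j → Disjoint (A i) (A j)) (hP : ∀ i ∈ I, p i ≤ (law μ).real (E i)) :
    ∏ i ∈ I, p i ≤ (law μ).real {η | ∀ i ∈ I, η ∈ E i} := by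
  rw [indep_events (μ := μ) I E A hm hon hd]
  exact Finset.prod_le_prod hp hP

theorem on_prod20 {κ : Type*} (I : Finset κ) (E : κ → Set Env) (A : κ → Set Pt) (B : Set Pt) (hA : ∀ i ∈ I, A i ⊆ B)
    (hon : ∀ i ∈ I, On20 (A i) (E i)) : On20 B {η | ∀ i ∈ I, η ∈ E i} :=
  fun η η' hh => forall₂_congr fun i hi => (hon i hi).mono (hA i hi) η η' hh

/-- **The same with everything outside of `B` frozen.** -/
theorem prod_gl20 [IsProbabilityMeasure μ] {κ : Type*} (I : Finset κ) (E : κ → Set Env) (A : κ → Set Pt) (B : Set Pt)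
    (hA : ∀ i ∈ I, A i ⊆ B) (p : κ → ℝ)
    (hp : ∀ i ∈ I, 0 ≤ p i) (hm : ∀ i ∈ I, MeasurableSet (E i)) (hon : ∀ i ∈ I, On20 (A i) (E i))
    (hd : ∀ i ∈ I, ∀ j ∈ I, i ≠ j → Disjoint (A i) (A j)) (hP : ∀ i ∈ I, p i ≤ (law μ).real (E i)) (ω : Env) :
    ∏ i ∈ I, p i ≤ (law μ).real {η | ∀ i ∈ I, gl B η ω ∈ E i} := by
  have e1 : {η : Env | ∀ i ∈ I, gl B η ω ∈ E i} = {η | ∀ i ∈ I, η ∈ E i} := by
    ext η
    exact forall₂_congr fun i hi => mem_gl20 (hA i hi) (hon i hi) η ω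
  rw [e1]
  exact prod20 I E A p hp hm hon hd hP

/-- The slab event with the rows of a larger set resampled, everything else frozen. -/
theorem slab_gl20 [IsProbabilityMeasure μ] {ι : Type} [Countable ι] (a e : ι → ℤ) (T : ℕ) (ω δ L G U : ℝ) (b : Pt) {B : Set Pt}
    (hB : rows b.1 (b.1 + T) ⊆ B) (f : Env) :
    (law μ).real {η | gl B η f ∈ at20 b (SLAB20 μ s a e T ω δ L G U)} = (law μ).real (SLAB20 μ s a e T ω δ L G U) := by
  rw [real_gl20 hB (on_at20' b (on_SLAB20 a e T ω δ L G U)) f]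
  exact real_at20 b (meas_SLAB20 a e T ω δ L G U)

/-- **Pay once for a success of positive conditional probability.** If for every frozen rest `f` and every content `η` in `N` the weight is
at most `X f`, and at least `Y f` on the set `S f` of contents, `law (S f) ≥ c₁`, `X ≤ C' Y + ε`, then the integral over `N` is at most
`C'/c₁` times the integral over `S f`, up to `ε`. -/
theorem pay20 [IsProbabilityMeasure μ] {w : Env → ENNReal} {N S : Set Env} (hS : MeasurableSet S) {c₁ X Y C' ε : ENNReal}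
    (hc : c₁ ≤ (law μ) S) (hX : ∀ η ∈ N, w η ≤ X) (hY : ∀ η ∈ S, Y ≤ w η) (hXY : X ≤ C' * Y + ε) (hN : MeasurableSet N) :
    c₁ * ∫⁻ η in N, w η ∂(law μ) ≤ C' * ∫⁻ η in S, w η ∂(law μ) + c₁ * ε := by
  have h1 : ∫⁻ η in N, w η ∂(law μ) ≤ X := by
    calc ∫⁻ η in N, w η ∂(law μ) ≤ ∫⁻ _ in N, X ∂(law μ) := setLIntegral_mono' hN hX
      _ = X * (law μ) N := by rw [setLIntegral_const]
      _ ≤ X * 1 := by gcongr; exact prob_le_one
      _ = X := mul_one X
  have h2 : Y * c₁ ≤ ∫⁻ η in S, w η ∂(law μ) := by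
    calc Y * c₁ ≤ Y * (law μ) S := by gcongr
      _ = ∫⁻ _ in S, Y ∂(law μ) := by rw [setLIntegral_const]
      _ ≤ _ := setLIntegral_mono' hS hY
  calc c₁ * ∫⁻ η in N, w η ∂(law μ) ≤ c₁ * (C' * Y + ε) := by gcongr; exact h1.trans hXY
    _ = C' * (Y * c₁) + c₁ * ε := by ring
    _ ≤ _ := by gcongr

end

end Pool.Agent.W_7d29a1_C1
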