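import Pool.Agent.W_7d29a1_C1.GeoU10
import Pool.Agent.W_7d29a1_C1.SlabS20
import Pool.Agent.W_7d29a1_C1.PosP98

/-!
MP_7d29a1_pr, attractor route, the shell (helper10): which sites the sets of one context read. Rows: `AT T v = rows (-T v) (T v)`. Sets of
the base of the box (`V`, `So`) read rows outside; the inner half `SI j y` has a part of the box and a part of the place `G.z (j - 1) y` of
the box of level `j - 1`. All blindness fields of `HalfP` / `CpyP` / `SdOk8` from the rows which the parts read.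
-/

set_option autoImplicit false

namespace Pool.Agent.W_7d29a1_C1.T10

open MeasureTheory
open Pool.Agent.W_7d29a1_F
open Pool.Agent.W_7d29a1_C1.S71 Pool.Agent.W_7d29a1_C1.Sw9 Pool.Agent.W_7d29a1_C1.H60
open Pool.Agent.W_7d29a1_C1 (On20)

noncomputable section

/-! ### Sites which are read -/

/-- The rows outside `(lo, hi]`. -/
def rout (lo hi : ℤ) : Set Pt := {p | p.1 ≤ lo ∨ hi < p.1}

theorem mem_rows10 {lo hi : ℤ} {p : Pt} : p ∈ rows lo hi ↔ lo < p.1 ∧ p.1 ≤ hi := Iff.rfl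

theorem mem_rout {lo hi : ℤ} {p : Pt} : p ∈ rout lo hi ↔ p.1 ≤ lo ∨ hi < p.1 := Iff.rfl

theorem rout_disj {lo hi lo' hi' : ℤ} (h1 : lo ≤ lo') (h2 : hi' ≤ hi) : Disjoint (rout lo hi) (rows lo' hi') :=
  Set.disjoint_left.2 fun p hp hp2 => by
    have h3 := mem_rout.1 hp
    have h4 := mem_rows10.1 hp2
    omega

theorem rows_disj10 {lo hi lo' hi' : ℤ} (h : hi ≤ lo' ∨ hi' ≤ lo) : Disjoint (rows lo hi) (rows lo' hi') :=
  Set.disjoint_left.2 fun p hp hp2 => by
    have h3 := mem_rows10.1 hp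
    have h4 := mem_rows10.1 hp2
    omega

theorem rows_mono10 {lo hi lo' hi' : ℤ} (h1 : lo' ≤ lo) (h2 : hi ≤ hi') : rows lo hi ⊆ rows lo' hi' := fun p hp => by
  have h3 := mem_rows10.1 hp
  exact mem_rows10.2 ⟨by omega, by omega⟩

theorem AT_rows (T : ℕ → ℕ) (v : ℕ) : AT T v = rows (-(T v : ℤ)) (T v) := by
  ext q
  rw [mem_AT]
  exact Iff.rfl

theorem At_rows (p : Pt) (lo hi : ℤ) : At p (rows lo hi) = rows (p.1 + lo) (p.1 + hi) := by
  ext q
  show (lo < (q - p).1 ∧ (q - p).1 ≤ hi) ↔ (p.1 + lo < q.1 ∧ q.1 ≤ p.1 + hi)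
  have e : (q - p).1 = q.1 - p.1 := rfl
  rw [e]
  omega

theorem At_rout (p : Pt) (lo hi : ℤ) : At p (rout lo hi) = rout (p.1 + lo) (p.1 + hi) := by
  ext q
  show ((q - p).1 ≤ lo ∨ hi < (q - p).1) ↔ (q.1 ≤ p.1 + lo ∨ p.1 + hi < q.1)
  have e : (q - p).1 = q.1 - p.1 := rfl
  rw [e]
  omega

theorem At_AT (p : Pt) (T : ℕ → ℕ) (v : ℕ) : At p (AT T v) = rows (p.1 - T v) (p.1 + T v) := by
  rw [AT_rows, At_rows]
  rfl

theorem off_of_on {B Q : Set Pt} {E : Set Env} (h : On20 B E) (hd : Disjoint B Q) : Off Q E := fun η η' he =>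
  h η η' fun p hp => he p (Set.disjoint_left.1 hd hp)

theorem on_of_off {B : Set Pt} {E : Set Env} (h : Off Bᶜ E) : On20 B E := fun η η' he =>
  h η η' fun p hp => he p (by rwa [Set.mem_compl_iff, not_not] at hp)

theorem off_compl {B B' : Set Pt} {E : Set Env} (h : On20 B E) (hB : B ⊆ B') : Off B'ᶜ E := fun η η' he =>
  h η η' fun p hp => he p fun hc => hc (hB hp)

theorem on_sh {B : Set Pt} {E : Set Env} (h : On20 B E) (a : Pt) : On20 (At a B) (sh a ⁻¹' E) := fun _ _ he =>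
  h _ _ fun p hp => he (p + a) (mem_At_add.2 hp)

theorem off_sh {Q : Set Pt} {E : Set Env} (h : Off Q E) (a : Pt) : Off (At a Q) (sh a ⁻¹' E) := fun _ _ he =>
  h _ _ fun p hp => he (p + a) fun h2 => hp (mem_At_add.1 h2)

theorem off_inter {Q : Set Pt} {E F : Set Env} (h : Off Q E) (h' : Off Q F) : Off Q (E ∩ F) := fun η η' he =>
  and_congr (h η η' he) (h' η η' he)

theorem on_inter {Q : Set Pt} {E F : Set Env} (h : On20 Q E) (h' : On20 Q F) : On20 Q (E ∩ F) := fun η η' he =>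
  and_congr (h η η' he) (h' η η' he)

theorem off_mono {Q Q' : Set Pt} {E : Set Env} (h : Off Q E) (hQ : Q' ⊆ Q) : Off Q' E := fun η η' he =>
  h η η' fun p hp => he p fun h2 => hp (hQ h2)

theorem At_add (a b : Pt) (A : Set Pt) : At (a + b) A = At a (At b A) := by
  ext q
  show q - (a + b) ∈ A ↔ q - a - b ∈ A
  rw [sub_sub]

/-! ### Sets which are functions of the base of the box -/

section base

variable {G : Gd} {L : ℕ} {T : ℕ → ℕ}

/-- **The field `oSo` (`t = j`) or `oV` (`t = j + m₂`)** for a set which is a function of the base of the box of level `j` and reads rows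
outside of `(z_t - T_t, z_t + T_t]`. -/
theorem off_base {j t : ℕ} (hG : G.Ok L) (hjt : j ≤ t) (ht : t ≤ L) {E : ℕ × ℤ → Set Env}
    (h : ∀ z : ℕ × ℤ, On20 (rout (((G.z t z).1 : ℤ) - T t) (((G.z t z).1 : ℤ) + T t)) (E z)) (c : ℕ × ℤ) :
    Off (At (G.x t c) (AT T t)) (E (G.z j c)) := by
  have h1 := h (G.z j c)
  rw [hG.z_z hjt ht] at h1
  rw [At_AT]
  exact off_of_on h1 (rout_disj le_rfl le_rfl)

/-- The same for a set of the environment seen from the base point of the box of level `j`. -/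
theorem off_base_sh {j : ℕ} {E : Set Env} (h : On20 (rout (-(T j : ℤ)) (T j)) E) (c : ℕ × ℤ) :
    Off (At (G.x j c) (AT T j)) (sh (G.x j c) ⁻¹' E) := by
  have h1 := on_sh h (G.x j c)
  rw [At_rout] at h1
  rw [At_AT]
  exact off_of_on h1 (rout_disj (by omega) le_rfl)

/-- The place of the box of level `i` in the box of level `j`. -/
theorem place_eq {i j : ℕ} (hG : G.Ok L) (hij : i ≤ j) (hj : j ≤ L) {c d : ℕ × ℤ} (h : G.z i c = G.z i d) :
    G.z i (G.rel j c) = G.z i (G.rel j d) := by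
  have h1 := hG.z_le hij hj c
  have h2 := hG.z_le hij hj d
  rw [hG.z_nested hij hj h, h, h2] at h1
  exact (add_left_cancel h1).symm

end base

/-! ### The inner half -/

/-- The inner half of the block event of level `j` at the position `y`: a part of the box, a part of the place of the box `j - 1`. -/
def SI10 (G : Gd) (Sb : ℕ → Set Env) (Sp : ℕ → ℕ × ℤ → Set Env) (j : ℕ) (y : ℕ × ℤ) : Set Env := Sb j ∩ Sp j (G.z (j - 1) y)

/-- The rows which the part of the box may read: outside of the regions `A (j - 1)` of all the places. -/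
def RB (G : Gd) (T : ℕ → ℕ) (j : ℕ) : Set Pt :=
  rows (-(T j : ℤ)) (-(T (j - 1) : ℤ)) ∪ rows (((G.H j : ℤ) - G.H (j - 1)) + T (j - 1)) (T j)

/-- The rows which the part of the place `o` may read. -/
def RP (T : ℕ → ℕ) (j : ℕ) (o : ℕ × ℤ) : Set Pt := AT T j \ At (pt o) (AT T (j - 1))

section inner

variable {G : Gd} {L : ℕ} {T : ℕ → ℕ} {Sb : ℕ → Set Env} {Sp : ℕ → ℕ × ℤ → Set Env}

theorem SI10_meas (mb : ∀ j, MeasurableSet (Sb j)) (mp : ∀ j o, MeasurableSet (Sp j o)) (j : ℕ) (y : ℕ × ℤ) :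
    MeasurableSet (SI10 G Sb Sp j y) := (mb j).inter (mp j _)

/-- The part of the box does not read the region of any place. -/
theorem RB_disj (hG : G.Ok L) {j : ℕ} (h1 : 1 ≤ j) (hj : j ≤ L) (c : ℕ × ℤ) :
    Disjoint (RB G T j) (At (pt (G.z (j - 1) (G.rel j c))) (AT T (j - 1))) := by
  have h2 := hG.row_place (show j - 1 ≤ j by omega) hj c
  have h3 : (((G.z (j - 1) (G.rel j c)).1 : ℕ) : ℤ) + G.H (j - 1) ≤ G.H j := by exact_mod_cast h2
  have h4 : (0 : ℤ) ≤ (((G.z (j - 1) (G.rel j c)).1 : ℕ) : ℤ) := by positivity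
  rw [At_AT]
  have e : (pt (G.z (j - 1) (G.rel j c))).1 = (((G.z (j - 1) (G.rel j c)).1 : ℕ) : ℤ) := rfl
  rw [e, RB, Set.disjoint_union_left]
  exact ⟨rows_disj10 (Or.inl (by omega)), rows_disj10 (Or.inr (by omega))⟩

/-- The part of the box reads the region `A j` only. -/
theorem RB_sub (hT : ∀ v, T v ≤ T (v + 1)) (hH : ∀ j, G.H (j - 1) ≤ G.H j) {j : ℕ} (h1 : 1 ≤ j) : RB G T j ⊆ AT T j := by
  have h2 : T (j - 1) ≤ T j := by
    have := hT (j - 1)
    rwa [Nat.sub_add_cancel h1] at this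
  have h3 : (T (j - 1) : ℤ) ≤ T j := by exact_mod_cast h2
  have h4 : (G.H (j - 1) : ℤ) ≤ G.H j := by exact_mod_cast hH j
  rw [AT_rows, RB, Set.union_subset_iff]
  exact ⟨rows_mono10 le_rfl (by omega), rows_mono10 (by omega) le_rfl⟩

/-- **The field `iI` / `iSI`**: the inner half reads the region `A j` only. -/
theorem SI10_in {j : ℕ} (hb : On20 (AT T j) (Sb j)) (hp : ∀ o, On20 (RP T j o) (Sp j o)) (y : ℕ × ℤ) :
    Off (AT T j)ᶜ (SI10 G Sb Sp j y) :=
  off_inter (off_compl hb (Set.Subset.refl _)) (off_compl (hp _) Set.sdiff_subset)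

/-- **The field `oI`** (any gap `1 ≤ g ≤ j`): the inner half of the site `c` does not read the region of its box of level `j - g`. -/
theorem SI10_off (hG : G.Ok L) (hN : G.Nest L (AT T)) {g j : ℕ} (hg : 1 ≤ g) (hgj : g ≤ j) (hj : j ≤ L) (hb : On20 (RB G T j) (Sb j))
    (hp : ∀ o, On20 (RP T j o) (Sp j o)) (c : ℕ × ℤ) :
    Off (At (G.x (j - g) c) (AT T (j - g))) (sh (G.x j c) ⁻¹' SI10 G Sb Sp j (G.rel j c)) := by
  have h1 : 1 ≤ j := by omega
  refine off_mono ?_ (hG.nest_le hN (show j - g ≤ j - 1 by omega) (by omega) c)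
  have e : At (G.x (j - 1) c) (AT T (j - 1)) = At (G.x j c) (At (pt (G.z (j - 1) (G.rel j c))) (AT T (j - 1))) := by
    rw [hG.x_le (show j - 1 ≤ j by omega) hj c, At_add]
  rw [e]
  refine off_sh (off_inter (off_of_on hb (RB_disj hG h1 hj c)) (off_of_on (hp _) ?_)) (G.x j c)
  exact Set.disjoint_left.2 fun p hp1 hp2 => hp1.2 hp2

/-- **The field `eI`.** -/
theorem SI10_eq (hG : G.Ok L) {j : ℕ} (hj : j ≤ L) {c d : ℕ × ℤ} (h : G.z (j - 1) c = G.z (j - 1) d) :
    SI10 G Sb Sp j (G.rel j c) = SI10 G Sb Sp j (G.rel j d) := by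
  unfold SI10
  rw [place_eq hG (show j - 1 ≤ j by omega) hj h]

/-- The whole event, for the membership. -/
theorem mem_SI10 (j : ℕ) (c : ℕ × ℤ) (η : Env) :
    sh (G.x j c) η ∈ SI10 G Sb Sp j (G.rel j c) ↔
      sh (G.x j c) η ∈ Sb j ∧ sh (G.x j c) η ∈ Sp j (G.z (j - 1) (G.rel j c)) := Iff.rfl

end inner

/-! ### The structure `Half` of `PosP98` -/

section halfs

variable {G : Gd} {L : ℕ} {T : ℕ → ℕ} {m m₂ g : ℕ} {S : Finset (ℕ × ℤ)} {V So : ℕ → ℕ × ℤ → Set Env} {Sb : ℕ → Set Env}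
  {Sp : ℕ → ℕ × ℤ → Set Env}

/-- **The field `oV` of `CpyP` / `Cp8`**: the usable scales do not read the ball. -/
theorem oV10 (hG : G.Ok L) (hm2 : ∀ j < m, j + m₂ ≤ L)
    (rV : ∀ j < m, ∀ z : ℕ × ℤ, On20 (rout (((G.z (j + m₂) z).1 : ℤ) - T (j + m₂)) (((G.z (j + m₂) z).1 : ℤ) + T (j + m₂))) (V j z)) :
    ∀ j < m, ∀ c : ℕ × ℤ, Off (At (G.x (j + m₂) c) (AT T (j + m₂))) (V j (G.z j c)) := fun j hj c =>
  off_base hG (Nat.le_add_right j m₂) (hm2 j hj) (rV j hj) c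

/-- **ONE COPY** from the rows which the sets read: `V j z`, `So j z` with `z` the base of the box of level `j`. -/
theorem half10 (hG : G.Ok L) (hN : G.Nest L (AT T)) (hg : 1 ≤ g) (hm2 : ∀ j < m, j + m₂ ≤ L)
    (mV : ∀ j < m, ∀ z, MeasurableSet (V j z)) (mSo : ∀ j < m, ∀ z, MeasurableSet (So j z))
    (rV : ∀ j < m, ∀ z : ℕ × ℤ, On20 (rout (((G.z (j + m₂) z).1 : ℤ) - T (j + m₂)) (((G.z (j + m₂) z).1 : ℤ) + T (j + m₂))) (V j z))
    (rSo : ∀ j < m, ∀ z : ℕ × ℤ, On20 (rout (((G.z j z).1 : ℤ) - T j) (((G.z j z).1 : ℤ) + T j)) (So j z))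
    (rb : ∀ j < m, On20 (RB G T j) (Sb j)) (rp : ∀ j < m, ∀ o, On20 (RP T j o) (Sp j o)) :
    P98.Half G (AT T) m g S (fun j c => V j (G.z j c)) (fun j c => So j (G.z j c)) (SI10 G Sb Sp) where
  mV j hj c _ := mV j hj _
  mSo j hj c _ := mSo j hj _
  oV j hj c _ := off_mono (oV10 hG hm2 rV j hj c) (hG.nest_le hN (Nat.le_add_right j m₂) (hm2 j hj) c)
  eV j _ c _ d _ hcd := by rw [hcd]
  oSo j hj c _ := off_base hG le_rfl (by have := hm2 j hj; omega) (rSo j hj) c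
  eSo j _ c _ d _ hcd := by rw [hcd]
  oI j hj hgj c _ := SI10_off hG hN hg hgj (by have := hm2 j hj; omega) (rb j hj) (rp j hj) c
  eI j hj hgj c _ d _ hcd := SI10_eq hG (by have := hm2 j hj; omega) (hG.z_nested (by omega) (by have := hm2 j hj; omega) hcd)

end halfs

end

end Pool.Agent.W_7d29a1_C1.T10
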