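import Pool.Agent.W_7d29a1_C1.ShlA8
import Pool.Agent.W_7d29a1_C1.GeoW10
import Pool.Agent.W_7d29a1_C1.SetB10
import Pool.Agent.W_7d29a1_C1.FreK47
import Pool.Agent.W_7d29a1_C1.NuK77

/-!
MP_7d29a1_pr, attractor route (helper8): THE SHELL OVER THE GRID OF helper10. `shlG_red8 : ShlR8 ⇒ ShlG8` : grid (`geoW10`), numbers
(`gridN8`), ranges of the slabs (`EL60`, `tau77`, `hk47`), blindness (`half10`), `Fresh` (`fresh47`) are done here; `ShlR8` = what is left,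
with the order of the constants.
-/

set_option autoImplicit false

namespace Pool.Agent.W_7d29a1_C1.H8

open MeasureTheory ProbabilityTheory Filter Topology
open Pool.Agent.W_7d29a1_F Pool.Agent.W_7d29a1_h4g Pool.Agent.W_7d29a1_H Pool.Agent.W_7d29a1_HS
open Pool.Agent.W_7d29a1_C1 (On20)
open Pool.Agent.W_7d29a1_C1.T10 (Gd pt Tg Hg Tg_pos Tg_mono Hg_mono GW geoW10 rout RB RP SI10 half10 RB_sub SI10_in oV10)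
open Pool.Agent.W_7d29a1_C1.S71 Pool.Agent.W_7d29a1_C1.Sw9
open Pool.Agent.W_7d29a1_C1.H60 Pool.Agent.W_7d29a1_C1.Lec17
open Pool.Agent.W_7d29a1_C1.P98 (Half Ut Su SHP junP98)
open scoped ENNReal

noncomputable section

variable {μ : Measure ℝ} [IsProbabilityMeasure μ]

/-- The heights of the level events. -/
def yl8 (U K χ : ℝ) (l : ℕ) : ℝ := U * K ^ (χ * (l : ℝ))

/-- The tails of the level events. -/
def Tl8 (μ : Measure ℝ) (s c θ Kw : ℝ) (P : ℕ) (A' a₁ g₁ : ℝ) (n₁ : ℕ) : Prop :=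
  ∀ (T : ℕ → ℕ) (y : ℕ → ℝ) (v : ℕ) (o : ℕ × ℤ) (l : ℕ), n₁ ≤ T (v + 1) → 0 ≤ y l →
    (law μ).real (EL60 μ s c θ Kw P T y v o l)ᶜ ≤ A' * Real.exp (-(a₁ * y l ^ g₁))

/-- **The data of the scale `n`** over a grid `G` : `L = m8 + m₂` levels, sites = boxes of level `m8`, `m = m8 / Z` scales. -/
def D8 (μ : Measure ℝ) (s c θ Kw : ℝ) (P : ℕ) (U χ e e₀ : ℝ) (K Q Z m₂ n : ℕ) (G : Gd) (Sb : ℕ → Set Env) (Sp : ℕ → ℕ × ℤ → Set Env)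
    (vI PI : ℕ → ℕ × ℤ → Env → ℝ) : Sd8 :=
  sd8 e₀ K Q n (m8 K e n + m₂) (m8 K e n) (m8 K e n / Z) G (SI10 G Sb Sp) (m8 K e n + m₂)
    (EL60 μ s c θ Kw P (Tg (h8 Q e₀ n) K) (yl8 U K χ)) vI PI

/-- **THE COMMON PART**: the two parts of the inner half of the success, the functions of the inside. -/
structure Cm8 (G : Gd) (T : ℕ → ℕ) (m : ℕ) (Sb : ℕ → Set Env) (Sp : ℕ → ℕ × ℤ → Set Env) (vI PI : ℕ → ℕ × ℤ → Env → ℝ) : Prop where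
  mSb : ∀ j < m, MeasurableSet (Sb j)
  mSp : ∀ j < m, ∀ o, MeasurableSet (Sp j o)
  rSb : ∀ j < m, On20 (RB G T j) (Sb j)
  rSp : ∀ j < m, ∀ o, On20 (RP T j o) (Sp j o)
  ov : ∀ l < m, ∀ y, OffF (AT T l)ᶜ (vI l y)
  oP : ∀ l < m, ∀ y, OffF (AT T l)ᶜ (PI l y)

/-- **ONE CONTEXT.** `V j z`, `So j z` with `z` the base of the box of level `j`. -/
structure Cc8 (μ : Measure ℝ) [IsProbabilityMeasure μ] (s : ℝ) (D : Sd8) (T : ℕ → ℕ) (Sb : ℕ → Set Env) (Sp : ℕ → ℕ × ℤ → Set Env)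
    (n m₂ g NF : ℕ) (q : ℕ → ℝ) (e a s' : ℝ) (Γ : Cx) (Ψ Sg : Env → ℝ) (V So : ℕ → ℕ × ℤ → Set Env) (bO : ℕ → ℕ × ℤ → Env → ℝ)
    (Bd : Set Env) : Prop where
  mV : ∀ j < D.m, ∀ z, MeasurableSet (V j z)
  mSo : ∀ j < D.m, ∀ z, MeasurableSet (So j z)
  rV : ∀ j < D.m, ∀ z : ℕ × ℤ,
    On20 (rout (((D.G.z (j + m₂) z).1 : ℤ) - T (j + m₂)) (((D.G.z (j + m₂) z).1 : ℤ) + T (j + m₂))) (V j z)
  rSo : ∀ j < D.m, ∀ z : ℕ × ℤ, On20 (rout (((D.G.z j z).1 : ℤ) - T j) (((D.G.z j z).1 : ℤ) + T j)) (So j z)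
  /-- **the fresh ball**: `NF` events of disjoint regions which may depend on the outside `ω` -/
  fr : ∀ i < D.m, ∀ q₀ ∈ D.S n e Γ, ∀ ω ∈ V i (D.G.z i q₀), ∃ (A' : ℕ → Set Pt) (E : ℕ → Set Env),
    (∀ j < NF, MeasurableSet (E j)) ∧ (∀ j < NF, On20 (A' j) (E j)) ∧ (∀ j < NF, ∀ j' < NF, j ≠ j' → Disjoint (A' j) (A' j')) ∧
    (∀ j < NF, q j ≤ (law μ).real (E j)) ∧ ∀ η, (∀ j < NF, η ∈ E j) → ∀ ζ, ζ = gl (T10.At (D.G.x (i + m₂) q₀) (AT T (i + m₂))) η ω →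
      ζ ∈ So i (D.G.z i q₀) ∧ sh (D.G.x i q₀) ζ ∈ Sb i ∧
      (∀ b ∈ D.S n e Γ, D.G.z i b = D.G.z i q₀ → sh (D.G.x i q₀) ζ ∈ Sp i (D.G.z (i - 1) (D.G.rel i b))) ∧
      ζ ∈ NR60 D.G D.L D.Lv i (i - 2) q₀ ∧
      a ≤ ∑ b ∈ (D.S n e Γ).filter (fun b => D.G.z i b = D.G.z i q₀), Γ.w b ζ
  /-- **few scales are not usable** -/
  nu : ∑ c ∈ D.S n e Γ, ∫⁻ ω in Nar (fun t => V t (D.G.z t c)) D.m (D.m / 8 + 1), ENNReal.ofReal (Γ.w c ω) ∂(law μ) ≤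
    ENNReal.ofReal ((n : ℝ) ^ (-s'))
  mB : MeasurableSet Bd
  /-- **bad environments** -/
  bd : (law μ).real Bd ≤ (n : ℝ) ^ (-(40 : ℝ))
  /-- **success: weight and total functional are those of the inside** -/
  close : ∀ l < D.m, ∀ c ∈ D.S n e Γ, ∀ η, η ∈ V l (D.G.z l c) → η ∈ So l (D.G.z l c) → sh (D.G.x l c) η ∈ Sb l →
    sh (D.G.x l c) η ∈ Sp l (D.G.z (l - 1) (D.G.rel l c)) → η ∉ Rch (lvL D.G D.Lv D.L) (l - 2) c → η ∉ Bd →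
    |Γ.w c η - D.vI l (D.G.rel l c) (sh (D.G.x l c) η)| ≤ (n : ℝ) ^ (-(40 : ℝ)) + (n : ℝ) ^ (-s') * Γ.w c η ∧
    |Ψ η - D.PI l (D.G.rel l c) (sh (D.G.x l c) η)| ≤ (n : ℝ) ^ (-(40 : ℝ)) + (n : ℝ) ^ (-s') * (1 + Sg η)
  obO : ∀ l < D.m, ∀ c ∈ D.S n e Γ, OffF (T10.At (D.G.x l c) (AT T l)) (bO l (D.G.z l c))
  /-- **success: the balance point is seen from outside** -/
  bal : ∀ l < D.m, ∀ c ∈ D.S n e Γ, ∀ η, η ∈ V l (D.G.z l c) → η ∈ So l (D.G.z l c) → sh (D.G.x l c) η ∈ Sb l →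
    sh (D.G.x l c) η ∈ Sp l (D.G.z (l - 1) (D.G.rel l c)) → η ∉ Rch (lvL D.G D.Lv D.L) (l - 2) c → η ∉ Bd →
    |Γ.B η - bO l (D.G.z l c) η| ≤ (n : ℝ) ^ (-s') * EE μ s n

/-- **WHAT IS LEFT OF THE SHELL**, with the order of the constants: `R` (boxes), `K` (ratio) | `B`, `C₀` of the grid | `θ`, `Kw` (pieces
and window of the level events) | their tails `P, A', a₁, g₁` | `χ`, `e₀` (exponent of the base height), `Z` (fraction of the scales) | `C'`, `pw` of `tau77` | `m₂`, `g`, `U`,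
the `NF` events of the fresh ball and their probabilities, weight `a`, exponent `s'` | `c`, `δ`, `κ` of the contexts | the period `Q`. -/
def ShlR8 (μ : Measure ℝ) [IsProbabilityMeasure μ] (s c : ℝ) (Ψ Sg : Cx → Env → ℝ) : Prop :=
  ∀ e : ℝ, 0 < e → e ≤ 1 / 32 → ∃ (R : ℝ) (K : ℕ), 1 ≤ R ∧ 2 ≤ K ∧ ∀ (B : ℕ) (C₀ : ℝ), 2 ≤ B → 1 ≤ C₀ →
    ∃ θ Kw : ℝ, 0 < θ ∧ θ ≤ 1 ∧ 0 < Kw ∧ ∀ (P : ℕ) (A' a₁ g₁ : ℝ) (n₁ : ℕ), 0 < A' → 0 < a₁ → 0 < g₁ → g₁ ≤ 1 → 1 ≤ n₁ →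
      Tl8 μ s c θ Kw P A' a₁ g₁ n₁ → ∃ (χ e₀ : ℝ) (Z : ℕ), 0 < χ ∧ 0 < e₀ ∧ e₀ ≤ e ∧ 1 ≤ Z ∧
      ∀ (C' : ℝ) (pw : ℕ), 1 ≤ C' →
      ∃ (m₂ g : ℕ) (U : ℝ) (NF : ℕ) (q : ℕ → ℝ) (a s' : ℝ), 1 ≤ m₂ ∧ 1 ≤ g ∧ C' * ((m₂ + g : ℕ) : ℝ) ^ pw ≤ U ∧
        (∀ j < NF, 0 < q j) ∧ 0 < a ∧ 0 < s' ∧
        ∀ c₂ : ℝ, 0 < c₂ → c₂ ≤ s' → ∀ δ : ℝ, 0 < δ → δ ≤ c₂ / 16 → ∃ κ₀ : ℝ, 0 < κ₀ ∧ ∀ κ : ℝ, 0 < κ → κ ≤ κ₀ →
          ∃ Q : ℕ, 1 ≤ Q ∧ ∀ᶠ n : ℕ in atTop, ∀ G : Gd, GW μ s R B C₀ (h8 Q e₀ n) K (m8 K e n + m₂) G →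
            ∃ (Sb : ℕ → Set Env) (Sp : ℕ → ℕ × ℤ → Set Env) (vI PI : ℕ → ℕ × ℤ → Env → ℝ),
              Cm8 G (Tg (h8 Q e₀ n) K) (m8 K e n / Z) Sb Sp vI PI ∧ ∀ Γ : Cx, Adm μ s c₂ δ κ n Γ →
                ∃ (V So : ℕ → ℕ × ℤ → Set Env) (bO : ℕ → ℕ × ℤ → Env → ℝ) (Bd : Set Env),
                  Cc8 μ s (D8 μ s c θ Kw P U χ e e₀ K Q Z m₂ n G Sb Sp vI PI) (Tg (h8 Q e₀ n) K) Sb Sp n m₂ g NF q e a s' Γ (Ψ Γ) (Sg Γ)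
                    V So bO Bd

/-- One context. -/
theorem Cc8.cp {s c θ Kw : ℝ} {P : ℕ} {U χ e e₀ : ℝ} {K Q Z m₂ n : ℕ} {G : Gd} {Sb : ℕ → Set Env} {Sp : ℕ → ℕ × ℤ → Set Env}
    {vI PI : ℕ → ℕ × ℤ → Env → ℝ} {g k NF : ℕ} {q : ℕ → ℝ} {a s' κ' : ℝ} {Γ : Cx} {Ψ Sg : Env → ℝ} {V So : ℕ → ℕ × ℤ → Set Env}
    {bO : ℕ → ℕ × ℤ → Env → ℝ} {Bd : Set Env}
    (h : Cc8 μ s (D8 μ s c θ Kw P U χ e e₀ K Q Z m₂ n G Sb Sp vI PI) (Tg (h8 Q e₀ n) K) Sb Sp n m₂ g NF q e a s' Γ Ψ Sg V So bO Bd)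
    (hm : Cm8 G (Tg (h8 Q e₀ n) K) (m8 K e n / Z) Sb Sp vI PI)
    (hD : SdOk8 μ s n m₂ κ' (D8 μ s c θ Kw P U χ e e₀ K Q Z m₂ n G Sb Sp vI PI)) (hΓ : Γ.Ok) (h2 : 1 ≤ m₂) (hg : 1 ≤ g)
    (hq : ∀ j < NF, 0 < q j)
    (hk : ∀ i < m8 K e n / Z, ∀ Q', (law μ).real (Fr47.HK47 G (m8 K e n + m₂) (D8 μ s c θ Kw P U χ e e₀ K Q Z m₂ n G Sb Sp vI PI).Lv i
      (i + m₂ - 1) k Q')ᶜ ≤ (∏ j ∈ Finset.range NF, q j) / 2)
    (ht : ∀ c' : ℕ × ℤ, law μ {ω | m8 K e n / Z / (16 * (m₂ + g)) ≤ ∑ v ∈ Finset.range (m8 K e n / Z + m₂),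
      lvL G (D8 μ s c θ Kw P U χ e e₀ K Q Z m₂ n G Sb Sp vI PI).Lv (m8 K e n + m₂) v c' ω} ≤ ENNReal.ofReal ((n : ℝ) ^ (-(34 : ℝ)))) :
    Cp8 μ s (D8 μ s c θ Kw P U χ e e₀ K Q Z m₂ n G Sb Sp vI PI) n m₂ g k e a ((∏ j ∈ Finset.range NF, q j) / 2) s' Γ Ψ Sg
      (fun j c => V j (G.z j c)) (fun j c => So j (G.z j c)) bO Bd := by
  obtain ⟨D, hDe⟩ : ∃ D : Sd8, D = D8 μ s c θ Kw P U χ e e₀ K Q Z m₂ n G Sb Sp vI PI := ⟨_, rfl⟩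
  have eG : D.G = G := by rw [hDe]; rfl
  have eL : D.L = m8 K e n + m₂ := by rw [hDe]; rfl
  have em : D.m = m8 K e n / Z := by rw [hDe]; rfl
  have eA : D.A = AT (Tg (h8 Q e₀ n) K) := by rw [hDe]; rfl
  have eS : D.SI = SI10 G Sb Sp := by rw [hDe]; rfl
  rw [← hDe] at h hD hk ht ⊢
  rw [← em] at hm hk ht
  rw [← eL] at hk ht
  obtain ⟨T, hT⟩ : ∃ T : ℕ → ℕ, T = Tg (h8 Q e₀ n) K := ⟨_, rfl⟩
  rw [← hT] at h hm eA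
  subst eG
  have ok := hD.ok
  have nest := hD.nest
  have rd := hD.rd
  have hmm : ∀ i < D.m, i + m₂ ≤ D.L := fun i hi => by have := hD.mL; omega
  rw [eA] at nest rd
  have hH := half10 (S := D.S n e Γ) ok nest hg hmm h.mV h.mSo h.rV h.rSo hm.rSb hm.rSp
  have su : ∀ {l : ℕ} {c' : ℕ × ℤ} {η : Env}, η ∈ Su D.G D.L D.Lv (fun i => i - 2) (fun j c => V j (D.G.z j c))
      (fun j c => So j (D.G.z j c)) D.SI l c' → η ∈ V l (D.G.z l c') ∧ η ∈ So l (D.G.z l c') ∧ sh (D.G.x l c') η ∈ Sb l ∧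
        sh (D.G.x l c') η ∈ Sp l (D.G.z (l - 1) (D.G.rel l c')) ∧ η ∉ Rch (lvL D.G D.Lv D.L) (l - 2) c' := by
    intro l c' η hη
    obtain ⟨h1, h2', h3, h4⟩ := hη
    rw [eS] at h3
    exact ⟨h1, h2', h3.1, h3.2, h4⟩
  refine
    { half := ?_
      oV := fun j hj c' _ => ?_
      fresh := ?_
      tau := fun c' _ => ht c'
      nu := h.nu
      mB := h.mB
      bd := h.bd
      close := fun l hl c' hc' η hη hb => ?_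
      obO := fun l hl c' hc' => ?_
      bal := fun l hl c' hc' η hη hb => ?_ }
  · rw [eA, eS]
    exact hH
  · rw [eA]
    exact oV10 ok hmm h.rV j hj c'
  · rw [eS, eA]
    refine Fr47.fresh47 ok nest rd h2 hmm (Finset.range NF) (fun j hj => (hq j (Finset.mem_range.1 hj)).le) hk fun i hi q₀ hq₀ ω hω => ?_
    obtain ⟨A', E, mE, oE, dE, pE, hE⟩ := h.fr i hi q₀ hq₀ ω hω
    refine ⟨A', E, fun j hj => mE j (Finset.mem_range.1 hj), fun j hj => oE j (Finset.mem_range.1 hj),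
      fun j hj j' hj' => dE j (Finset.mem_range.1 hj) j' (Finset.mem_range.1 hj'), fun j hj => pE j (Finset.mem_range.1 hj),
      fun η hη => ?_⟩
    obtain ⟨a1, a2, a3, a4, a5⟩ := hE η (fun j hj => hη j (Finset.mem_range.2 hj)) _ rfl
    refine ⟨fun b hb hbz => ?_, a4, ?_⟩
    · refine ⟨?_, ?_, ?_⟩
      · show _ ∈ So i (D.G.z i b)
        rw [hbz]
        exact a1
      · show sh (D.G.x i b) _ ∈ Sb i
        rw [Gd.x_congr hbz]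
        exact a2
      · show sh (D.G.x i b) _ ∈ Sp i (D.G.z (i - 1) (D.G.rel i b))
        rw [Gd.x_congr hbz]
        exact a3 b hb hbz
    · rw [← ENNReal.ofReal_sum_of_nonneg fun b _ => Cx.w_nonneg hΓ b _]
      exact ENNReal.ofReal_le_ofReal a5
  · obtain ⟨b1, b2, b3, b4, b5⟩ := su hη
    exact h.close l hl c' hc' η b1 b2 b3 b4 b5 hb
  · rw [eA]
    exact h.obO l hl c' hc'
  · obtain ⟨b1, b2, b3, b4, b5⟩ := su hη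
    exact h.bal l hl c' hc' η b1 b2 b3 b4 b5 hb

/-- **THE REDUCTION.** -/
theorem shlG_red8 {s c C : ℝ} {n₀ : ℕ} (hI : In μ s c C n₀) {Ψ Sg : Cx → Env → ℝ} (H : ShlR8 μ s c Ψ Sg) : ShlG8 μ s Ψ Sg := by
  intro e he he1
  obtain ⟨R, K, hR, hK, H⟩ := H e he he1
  obtain ⟨B, C₀, n₁, hB, hC, hn₁, HG⟩ := geoW10 hI hR hK
  obtain ⟨θ, Kw, hθ, hθ1, hKw, H⟩ := H B C₀ hB hC
  obtain ⟨P, A', a₁, g₁, hA', ha₁, hg₁, hg₁1, n₂, hn₂, HE⟩ := EL60_prob hI hKw hθ hθ1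
  obtain ⟨χ, e₀, Z, hχ, he₀, hee, hZ, H⟩ := H P A' a₁ g₁ n₂ hA' ha₁ hg₁ hg₁1 hn₂ HE
  have hK0 : 0 < K := by omega
  have hKR : (2 : ℝ) ≤ K := by exact_mod_cast hK
  have hK1 : (1 : ℝ) < K := by linarith
  have hlK : 0 < Real.log K := Real.log_pos hK1
  have hZR : (1 : ℝ) ≤ Z := by exact_mod_cast hZ
  obtain ⟨κ', hκ'⟩ : ∃ κ' : ℝ, κ' = e / (16 * Z * Real.log K) := ⟨_, rfl⟩
  have hκ0 : 0 < κ' := by
    rw [hκ']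
    positivity
  obtain ⟨C', hC', pw, HT⟩ := H77.tau77 (μ := μ) (κ := κ') (D := 34) hA' ha₁ hg₁ hK1 hχ hκ0 (by norm_num)
  obtain ⟨m₂, g, U, NF, q, a, s', h2, hg, hU, hq, ha, hs', H⟩ := H C' pw hC'
  have hM : (1 : ℝ) ≤ ((m₂ + g : ℕ) : ℝ) := by exact_mod_cast (by omega : 1 ≤ m₂ + g)
  have hU0 : 0 < U := by
    have h1 : (1 : ℝ) ≤ ((m₂ + g : ℕ) : ℝ) ^ pw := one_le_pow₀ hM
    nlinarith
  have hp : 0 < (∏ j ∈ Finset.range NF, q j) / 2 :=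
    half_pos (Finset.prod_pos fun j hj => hq j (Finset.mem_range.1 hj))
  obtain ⟨k, hk⟩ := Fr47.hk47 (μ := μ) (κ := (K : ℝ)) (U := U) hA' ha₁ hg₁ hK1 hχ hU0 ⌈C₀ * (K : ℝ) ^ 2⌉₊ m₂ hp
  refine ⟨m₂, g, k, κ', a, (∏ j ∈ Finset.range NF, q j) / 2, s', h2, hg, hκ0, ha, hp, hs', fun c₂ hc₂ hc₂s δ hδ hδc => ?_⟩
  obtain ⟨κ₀, hκ₀, H⟩ := H c₂ hc₂ hc₂s δ hδ hδc
  refine ⟨κ₀, hκ₀, fun κ hκ hκκ => ?_⟩
  obtain ⟨Q, hQ, H⟩ := H κ hκ hκκ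
  have ev : ∀ {y : ℝ}, 0 < y → ∀ M : ℝ, ∀ᶠ n : ℕ in atTop, M ≤ (n : ℝ) ^ y := fun hy M =>
    ((tendsto_rpow_atTop hy).comp tendsto_natCast_atTop_atTop).eventually_ge_atTop M
  have hlog : Tendsto (fun n : ℕ => κ' * Real.log n) atTop atTop :=
    (Real.tendsto_log_atTop.comp tendsto_natCast_atTop_atTop).const_mul_atTop hκ0
  filter_upwards [H, gridN8 (x := m₂) he he1 he₀ hee hK hQ, Vn8 hI he he1 he₀ hee hK hQ (show 1 ≤ B by omega), frac8 he hK hZ,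
    ev (show (0 : ℝ) < e₀ / 4 by linarith) (max n₁ n₂ : ℕ), eventually_ge_atTop 1,
    hlog.eventually_ge_atTop ((16 * (m₂ + g) + m₂ : ℕ) : ℝ)] with n H hg8 hV8 hf8 hh hn1 hl
  have hh' : max n₁ n₂ ≤ h8 Q e₀ n := by exact_mod_cast hh.trans hg8.h1
  obtain ⟨G, hG⟩ := HG (h8 Q e₀ n) (m8 K e n + m₂) ((le_max_left _ _).trans hh')
  obtain ⟨Sb, Sp, vI, PI, hm, H⟩ := H G hG
  rw [← hκ'] at hf8
  have hmm : 16 * (m₂ + g) + m₂ ≤ m8 K e n / Z := by exact_mod_cast hl.trans hf8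
  have hmd : m8 K e n / Z ≤ m8 K e n := Nat.div_le_self _ _
  -- the level events
  have hT : ∀ v, n₂ ≤ Tg (h8 Q e₀ n) K (v + 1) := fun v => by
    rw [Tg_pos (by omega), mul_comm 2 (h8 Q e₀ n), mul_assoc]
    have hP : 0 < K ^ (v + 1) := Nat.pow_pos hK0
    exact ((le_max_right _ _).trans hh').trans (Nat.le_mul_of_pos_right _ (Nat.mul_pos two_pos hP))
  have hTm : ∀ v, Tg (h8 Q e₀ n) K v ≤ Tg (h8 Q e₀ n) K (v + 1) := fun v => Tg_mono (by omega) (Nat.le_succ v)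
  have mE : ∀ v o l, MeasurableSet (EL60 μ s c θ Kw P (Tg (h8 Q e₀ n) K) (yl8 U K χ) v o l) := fun v o l =>
    measurableSet_EL60 v o l
  have oE : ∀ v o l, Off (AT (Tg (h8 Q e₀ n) K) (v + 1) \ T10.At (pt o) (AT (Tg (h8 Q e₀ n) K) v))ᶜ
      (EL60 μ s c θ Kw P (Tg (h8 Q e₀ n) K) (yl8 U K χ) v o l) := fun v o l => EL60_off hTm v o l
  have hE : ∀ v < m8 K e n + m₂, ∀ (c' : ℕ × ℤ) (l : ℕ), (law μ).real (EL60 μ s c θ Kw P (Tg (h8 Q e₀ n) K) (yl8 U K χ) v (G.dg v c') l)ᶜ ≤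
      A' * Real.exp (-(a₁ * (U * (K : ℝ) ^ (χ * (l : ℝ))) ^ g₁)) := fun v _ c' l => by
    have h0 : 0 ≤ yl8 U K χ l := by
      unfold yl8
      positivity
    exact HE _ _ v _ l (hT v) h0
  have hV : G.V (m8 K e n) ≤ n := by
    have h1 := hG.V (m8 K e n) hg8.m0 (Nat.le_add_right _ _)
    have h3 := hV8 (m8 K e n) hg8.m0 le_rfl
    have h4 : (G.V (m8 K e n) : ℝ) ≤ n := by
      have h5 : (0 : ℝ) ≤ (m8 K e n : ℝ) + 2 := by positivity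
      linarith
    exact_mod_cast h4
  have iSI : ∀ u < m8 K e n / Z, ∀ y, Off (AT (Tg (h8 Q e₀ n) K) u)ᶜ (SI10 G Sb Sp u y) := by
    intro u hu y
    refine SI10_in ?_ (hm.rSp u hu) y
    refine (hm.rSb u hu).mono ?_
    rcases Nat.eq_zero_or_pos u with h0 | h0
    · subst h0
      intro p hp
      exfalso
      have e0 : Tg (h8 Q e₀ n) K 0 = 0 := T10.Tg_zero _ _
      rcases hp with hp | hp
      · have h3 := T10.mem_rows10.1 hp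
        rw [Nat.zero_sub, e0] at h3
        push_cast at h3
        omega
      · have h3 := T10.mem_rows10.1 hp
        rw [Nat.zero_sub, e0] at h3
        push_cast at h3
        omega
    · refine RB_sub hTm (fun j => ?_) h0
      rw [hG.H, hG.H]
      exact Hg_mono (by omega) (Nat.sub_le j 1)
  have hD : SdOk8 μ s n m₂ κ' (D8 μ s c θ Kw P U χ e e₀ K Q Z m₂ n G Sb Sp vI PI) :=
    sdok8 hg8 hK hmd le_rfl (Nat.le_add_right _ _) (Nat.add_le_add_right hmd _) le_rfl hf8 hG.ok hG.nest hG.H hV hG.err' mE oE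
      (fun u hu y => (hm.mSb u hu).inter (hm.mSp u hu _)) iSI hm.ov hm.oP
  refine ⟨D8 μ s c θ Kw P U χ e e₀ K Q Z m₂ n G Sb Sp vI PI, hD, fun Γ hA => ?_⟩
  obtain ⟨V, So, bO, Bd, hC⟩ := H Γ hA
  refine ⟨fun j c => V j (G.z j c), fun j c => So j (G.z j c), bO, Bd, hC.cp hm hD hA.ok h2 hg hq (fun i hi Q' => ?_) fun c' => ?_⟩
  · refine hk G _ _ i _ hG.ok h2 (by omega) mE ?_ hE Q'
    have h1 := hG.card (i - 1) i (Nat.sub_le _ _) (by omega)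
    have h3 : (K : ℝ) ^ (2 * (i - (i - 1))) ≤ (K : ℝ) ^ 2 := pow_le_pow_right₀ hK1.le (by omega)
    have h4 : ((G.subs (i - 1) i).card : ℝ) ≤ (⌈C₀ * (K : ℝ) ^ 2⌉₊ : ℝ) :=
      (h1.trans (mul_le_mul_of_nonneg_left h3 (by linarith))).trans (Nat.le_ceil _)
    exact_mod_cast h4
  · exact HT (by omega) U hU n (m8 K e n / Z) (m8 K e n + m₂) _ hn1 hf8 (by omega) (by omega) (by omega) G _ _ hG.ok hG.nest mE oE hE c' _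
      le_rfl

end

end Pool.Agent.W_7d29a1_C1.H8
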