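import Pool.Agent.W_7d29a1_C1.Sets47
import Pool.Agent.W_7d29a1_C1.ShlB8

/-!
MP_7d29a1_pr, [C1] SHELL: THE BASE SETS OF THE SUCCESS. (helper47)

`Bas47` : for every level `j` (`j₀ ≤ j < m`) three sets at coordinates relative to the base point of the box: `SA j` (lanes of the buffer,
rows `(-T_j, rA j]`), `SB j` (end of the buffer, rows `(rA j, rB j]`), `SX j` (exit, rows `(rE j, T_j]`), with probabilities and with facts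
`FA j z ζ`, `FB j z ζ`, `FX j z ζ` at every place `z`. `Sb47` = the set `Sb` of `Cm8`.
-/

set_option autoImplicit false

namespace Pool.Agent.W_7d29a1_C1.Fr47

open MeasureTheory Finset
open Pool.Agent.W_7d29a1_F Pool.Agent.W_7d29a1_h4g Pool.Agent.W_7d29a1_H Pool.Agent.W_7d29a1_HS
open Pool.Agent.W_7d29a1_C1 (On20)
open Pool.Agent.W_7d29a1_C1.S71 Pool.Agent.W_7d29a1_C1.Sw9 Pool.Agent.W_7d29a1_C1.T10
open Pool.Agent.W_7d29a1_C1.H60 (AT)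

noncomputable section

/-- **THE BASE SETS.** -/
structure Bas47 (μ : Measure ℝ) [IsProbabilityMeasure μ] (T : ℕ → ℕ) (j₀ m : ℕ) (rA rB rE : ℕ → ℤ) (pA εB pX : ℝ)
    (FA FB FX : ℕ → Pt → Env → Prop) (SA SB SX : ℕ → Set Env) : Prop where
  mA : ∀ j, MeasurableSet (SA j)
  mB : ∀ j, MeasurableSet (SB j)
  mX : ∀ j, MeasurableSet (SX j)
  oA : ∀ j, j₀ ≤ j → j < m → On20 (rows (-(T j : ℤ)) (rA j)) (SA j)
  oB : ∀ j, j₀ ≤ j → j < m → On20 (rows (rA j) (rB j)) (SB j)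
  oX : ∀ j, j₀ ≤ j → j < m → On20 (rows (rE j) (T j)) (SX j)
  pA : ∀ j, j₀ ≤ j → j < m → pA ≤ (law μ).real (SA j)
  pB : ∀ j, j₀ ≤ j → j < m → (law μ).real (SB j)ᶜ ≤ εB
  pX : ∀ j, j₀ ≤ j → j < m → pX ≤ (law μ).real (SX j)
  fA : ∀ j, j₀ ≤ j → j < m → ∀ (z : Pt) (ζ : Env), sh z ζ ∈ SA j → FA j z ζ
  fB : ∀ j, j₀ ≤ j → j < m → ∀ (z : Pt) (ζ : Env), sh z ζ ∈ SA j → sh z ζ ∈ SB j → FB j z ζ
  fX : ∀ j, j₀ ≤ j → j < m → ∀ (z : Pt) (ζ : Env), sh z ζ ∈ SX j → FX j z ζ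

/-- The set `Sb` : nothing below the level `j₀`. -/
def Sb47 (j₀ : ℕ) (SA SB SX : ℕ → Set Env) (j : ℕ) : Set Env := {_η | j₀ ≤ j} ∩ (SA j ∩ (SB j ∩ SX j))

variable {μ : Measure ℝ} [IsProbabilityMeasure μ] {T : ℕ → ℕ} {j₀ m : ℕ} {rA rB rE : ℕ → ℤ} {pA εB pX : ℝ}
  {FA FB FX : ℕ → Pt → Env → Prop} {SA SB SX : ℕ → Set Env}

theorem Bas47.mSb (h : Bas47 μ T j₀ m rA rB rE pA εB pX FA FB FX SA SB SX) (j : ℕ) : MeasurableSet (Sb47 j₀ SA SB SX j) :=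
  (MeasurableSet.const _).inter ((h.mA j).inter ((h.mB j).inter (h.mX j)))

/-- **`rSb` of `Cm8`.** -/
theorem Bas47.rSb (h : Bas47 μ T j₀ m rA rB rE pA εB pX FA FB FX SA SB SX) {G : Gd}
    (hA : ∀ j, j₀ ≤ j → j < m → rA j ≤ -(T (j - 1) : ℤ)) (hB : ∀ j, j₀ ≤ j → j < m → -(T j : ℤ) ≤ rA j ∧ rB j ≤ -(T (j - 1) : ℤ))
    (hE : ∀ j, j₀ ≤ j → j < m → ((G.H j : ℤ) - G.H (j - 1)) + T (j - 1) ≤ rE j) {j : ℕ} (hj : j < m) :
    On20 (RB G T j) (Sb47 j₀ SA SB SX j) := by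
  by_cases h0 : j₀ ≤ j
  swap
  · intro η η' _
    exact ⟨fun h1 => absurd h1.1 h0, fun h1 => absurd h1.1 h0⟩
  have sub : ∀ {lo hi : ℤ}, (-(T j : ℤ) ≤ lo ∧ hi ≤ -(T (j - 1) : ℤ)) ∨ ((((G.H j : ℤ) - G.H (j - 1)) + T (j - 1) ≤ lo) ∧ hi ≤ T j) →
      rows lo hi ⊆ RB G T j := fun hh p hp => by
    rcases hh with h1 | h1
    · exact Or.inl (rows_mono10 h1.1 h1.2 hp)
    · exact Or.inr (rows_mono10 h1.1 h1.2 hp)
  refine on_inter (fun η η' _ => Iff.rfl) (on_inter ?_ (on_inter ?_ ?_))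
  · exact (h.oA j h0 hj).mono (sub (Or.inl ⟨le_rfl, hA j h0 hj⟩))
  · exact (h.oB j h0 hj).mono (sub (Or.inl ⟨(hB j h0 hj).1, (hB j h0 hj).2⟩))
  · exact (h.oX j h0 hj).mono (sub (Or.inr ⟨hE j h0 hj, le_rfl⟩))

/-! ### The same sets at a place -/

theorem law_sh47 (z : Pt) {S : Set Env} (hS : MeasurableSet S) : (law μ).real (sh z ⁻¹' S) = (law μ).real S := by
  unfold Measure.real
  rw [(mp_sh (μ := μ) z).measure_preimage hS.nullMeasurableSet]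

theorem on_sh47 {S : Set Env} {a b : ℤ} (h : On20 (rows a b) S) (z : Pt) : On20 (rows (z.1 + a) (z.1 + b)) (sh z ⁻¹' S) := by
  have h1 := on_sh h z
  rwa [At_rows] at h1

end

end Pool.Agent.W_7d29a1_C1.Fr47
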