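import Pool.Agent.W_7d29a1_C1.ShX24

/-!
MP_7d29a1_pr, [C1] SHELL (helper24): THE EXIT SETS OF THE BASE `Bas47`. Relative coordinates (base of level `j` = `(0, 0)`), rows
`(5 (T j / 8), T j]`, the exit of `freX24` at the column of the line.
-/

set_option autoImplicit false

namespace Pool.Agent.W_7d29a1_C1.P24

open MeasureTheory ProbabilityTheory Filter Topology Finset
open Pool.Agent.W_7d29a1_F Pool.Agent.W_7d29a1_h4g Pool.Agent.W_7d29a1_H Pool.Agent.W_7d29a1_HS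
open Pool.Agent.W_7d29a1_C1
open Pool.Agent.W_7d29a1_C1.CR76 Pool.Agent.W_7d29a1_C1.Basin76

noncomputable section

variable {μ : Measure ℝ} {s c C : ℝ} {n₀ : ℕ}

/-- The row of the exit. -/
def rE24 (T : ℕ) : ℕ := 5 * (T / 8)

/-- The column of the line of `z` in the row of the exit, and at the middle of the exit. -/
def cE24 (μ : Measure ℝ) (s : ℝ) (T : ℕ) : ℤ := ⌊sl μ s * rE24 T⌋
def cM24 (μ : Measure ℝ) (s : ℝ) (T : ℕ) : ℤ := ⌊sl μ s * (rE24 T + 6 * (T / 32) : ℕ)⌋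

/-- The facts of the exit of the box `T`, `κ` = the point of the line in the row of the base point. -/
def FXz24 (μ : Measure ℝ) (s c c' : ℝ) (P : ℕ) (d U β q G K R u : ℝ) (T : ℕ) (κ : Pt) (ζ : Env) : Prop :=
  ∀ e' : ℕ, (e' : ℤ) = κ.1 + rE24 T → FX24 μ s c ζ e' (κ.2 + cE24 μ s T) (κ.2 + cM24 μ s T) (6 * (T / 32)) (T / 32) T P d U β q G K
    (Real.exp (-((6 * (T / 32) : ℕ) : ℝ) ^ c')) R u

theorem cM24_near [IsProbabilityMeasure μ] (T : ℕ) :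
    |(cM24 μ s T : ℝ) - (cE24 μ s T + sl μ s * (6 * (T / 32) : ℕ))| ≤ 1 := by
  unfold cM24 cE24
  have f1 := Int.floor_le (sl μ s * (rE24 T : ℕ))
  have f2 := Int.lt_floor_add_one (sl μ s * (rE24 T : ℕ))
  have f3 := Int.floor_le (sl μ s * (rE24 T + 6 * (T / 32) : ℕ))
  have f4 := Int.lt_floor_add_one (sl μ s * (rE24 T + 6 * (T / 32) : ℕ))
  have e1 : sl μ s * ((rE24 T + 6 * (T / 32) : ℕ) : ℝ) = sl μ s * (rE24 T : ℕ) + sl μ s * ((6 * (T / 32) : ℕ) : ℝ) := by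
    rw [← mul_add, ← Nat.cast_add]
  rw [e1] at f3 f4 ⊢
  rw [abs_le]
  constructor <;> linarith

/-- **THE EXIT SETS.** `v j` = the column of the line in the row of the base point, relative to the base point. -/
theorem basX24 [IsProbabilityMeasure μ] (h : In μ s c C n₀) : ∃ c' : ℝ, 0 < c' ∧ ∀ β ρ₀ R u : ℝ, 0 < β → 0 < ρ₀ → 0 ≤ R → 0 < u →
    ∃ (P : ℕ) (d U q : ℝ), 0 < d ∧ d ≤ ρ₀ ∧ d ≤ 1 ∧ 0 ≤ U ∧ 0 ≤ q ∧ ∀ G K : ℝ, 0 ≤ G → 0 ≤ K →
    ∃ (p : ℝ) (Q n₁ : ℕ), 0 < p ∧ 1 ≤ Q ∧ 1 ≤ n₁ ∧ ∀ (T : ℕ → ℕ) (v : ℕ → ℤ) (j₀ m : ℕ), (∀ j, j₀ ≤ j → j < m → 32 * Q ∣ T j) →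
      (∀ j, j₀ ≤ j → j < m → n₁ ≤ T j) → ∃ SX : ℕ → Set Env, (∀ j, MeasurableSet (SX j)) ∧
      (∀ j, j₀ ≤ j → j < m → On20 (rows (rE24 (T j)) (T j)) (SX j)) ∧ (∀ j, j₀ ≤ j → j < m → p ≤ (law μ).real (SX j)) ∧
      ∀ j, j₀ ≤ j → j < m → ∀ (z : Pt) (ζ : Env), sh z ζ ∈ SX j → FXz24 μ s c c' P d U β q G K R u (T j) (z.1, z.2 + v j) ζ := by
  obtain ⟨c', hc', H⟩ := freX24 h
  refine ⟨c', hc', fun β ρ₀ R u hβ hρ₀ hR hu => ?_⟩
  obtain ⟨P, d, U, q, hd, hdρ, hd1, hU, hq, H⟩ := H β ρ₀ R u hβ hρ₀ hR hu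
  refine ⟨P, d, U, q, hd, hdρ, hd1, hU, hq, fun G K hG hK => ?_⟩
  obtain ⟨p, Q, n₁, hp, hQ, hn₁, H⟩ := H G K hG hK
  obtain ⟨nw, hnw⟩ := eventually_atTop.1 ((wd_tendsto h).eventually_ge_atTop 1)
  refine ⟨p, Q, 32 * Q * (n₁ + nw), hp, hQ, ?_, fun T v j₀ m hdv hlg => ?_⟩
  · exact Nat.mul_pos (by omega) (by omega)
  -- one level
  have one : ∀ j, j₀ ≤ j → j < m → ∃ Λ : Set Env, MeasurableSet Λ ∧ On20 (rows (rE24 (T j)) (T j)) Λ ∧ p ≤ (law μ).real Λ ∧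
      ∀ (z : Pt) (ζ : Env), sh z ζ ∈ Λ → FXz24 μ s c c' P d U β q G K R u (T j) (z.1, z.2 + v j) ζ := by
    intro j h1 h2
    obtain ⟨t, ht⟩ := hdv j h1 h2
    have hlt := hlg j h1 h2
    have htn : n₁ + nw ≤ t := by
      have hpos : 0 < 32 * Q := by omega
      have g1 : 32 * Q * (n₁ + nw) ≤ 32 * Q * t := by rw [← ht]; exact hlt
      exact Nat.le_of_mul_le_mul_left g1 hpos
    have hT32 : T j = 32 * (Q * t) := by rw [ht]; ring
    have e32 : T j / 32 = Q * t := by rw [hT32]; exact Nat.mul_div_cancel_left _ (by norm_num)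
    have e8 : T j / 8 = 4 * (Q * t) := by rw [hT32]; omega
    have eE : rE24 (T j) = 20 * (Q * t) := by unfold rE24; rw [e8]; ring
    have htQ : t ≤ Q * t := Nat.le_mul_of_pos_left t (by omega)
    obtain ⟨Λ, m1, o1, p1, F⟩ := H t (by omega) (T j / 32) (6 * (T j / 32)) (T j) e32 rfl (by rw [e32]; exact hT32) (rE24 (T j))
      (v j + cE24 μ s (T j)) (v j + cM24 μ s (T j)) (by
        have g1 := (cM24_near (μ := μ) (s := s) (T j)).trans (hnw _ (show nw ≤ 6 * (T j / 32) by rw [e32]; omega))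
        have e1 : ((v j + cM24 μ s (T j) : ℤ) : ℝ) - (((v j + cE24 μ s (T j) : ℤ) : ℝ) + sl μ s * (6 * (T j / 32) : ℕ)) =
            (cM24 μ s (T j) : ℝ) - (cE24 μ s (T j) + sl μ s * (6 * (T j / 32) : ℕ)) := by
          push_cast
          ring
        rw [e1]
        exact g1)
    refine ⟨Λ, m1, ?_, p1, fun z ζ hζ e' he' => ?_⟩
    · have e1 : (rE24 (T j) : ℤ) + (6 * (T j / 32) : ℕ) + (6 * (T j / 32) : ℕ) = (T j : ℤ) := by
        have : rE24 (T j) + 6 * (T j / 32) + 6 * (T j / 32) = T j := by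
          rw [eE, e32]
          omega
        exact_mod_cast this
      rw [e1] at o1
      exact o1
    · have g := F z ζ hζ e' (by rw [he']; ring)
      have e1 : ∀ x : ℤ, v j + x + z.2 = z.2 + v j + x := fun x => by ring
      rw [e1, e1] at g
      exact g
  refine ⟨fun j => if hj : j₀ ≤ j ∧ j < m then (one j hj.1 hj.2).choose else Set.univ, fun j => ?_, fun j h1 h2 => ?_, fun j h1 h2 => ?_,
    fun j h1 h2 z ζ hζ => ?_⟩
  · by_cases hj : j₀ ≤ j ∧ j < m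
    · simp only [hj, and_self, dif_pos]
      exact (one j hj.1 hj.2).choose_spec.1
    · simp only [hj, dif_neg, not_false_iff]
      exact MeasurableSet.univ
  · have hj : j₀ ≤ j ∧ j < m := ⟨h1, h2⟩
    simp only [hj, and_self, dif_pos]
    exact (one j h1 h2).choose_spec.2.1
  · have hj : j₀ ≤ j ∧ j < m := ⟨h1, h2⟩
    simp only [hj, and_self, dif_pos]
    exact (one j h1 h2).choose_spec.2.2.1
  · have hj : j₀ ≤ j ∧ j < m := ⟨h1, h2⟩
    simp only [hj, and_self, dif_pos] at hζ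
    exact (one j h1 h2).choose_spec.2.2.2 z ζ hζ

end

end Pool.Agent.W_7d29a1_C1.P24
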