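import Pool.Agent.W_7d29a1_C1.CR76
import Pool.Agent.W_7d29a1_F.CoreD1

/-!
MP_7d29a1_pr, attractor route (board 72282, 73402): CLASSES OF STARTS FROM CROSS RATIOS. (helper76)

* `TP_kW` : the point to point weights `W` of a slab are a kernel in the sense of `CR76`; `kW_comp` : composition;
* `cond_le` : two starts with corner cross ratio `≤ c` have the same conditional means of everything behind
  the slab, up to the factor `c` (every order of the starts);
* `minor_eq`, `minor_class` : the minor (pairs without meeting, LGV) relative to the product of the two masses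
  is `1 - 1 / CR`; moving the two starts inside their classes changes it by the factor `2 - c` only;
* `prod_CR`, `card_break` : the cross ratios of the gaps of a mesh multiply up, so the number of gaps with
  cross ratio `> 1 + e` is at most `log CR / log (1 + e)`;
* `odds_class` : the odds of a cut are constant on a class up to the factor `c`.
-/

set_option autoImplicit false

namespace Pool.Agent.W_7d29a1_C1.Basin76

open Finset Pool.Agent.W_7d29a1_F Pool.Agent.W_7d29a1_C1.Gini76 Pool.Agent.W_7d29a1_C1.CR76 MeasureTheory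

noncomputable section

/-! ### the slab kernels of the polymer -/

section model

variable {μ : Measure ℝ} {s : ℝ}

/-- The weight from the site `x` of the row `r` to the site `z` of the row `r + n`. -/
def kW (μ : Measure ℝ) (s : ℝ) (η : Env) (r : ℤ) (n : ℕ) (x z : ℤ) : ℝ := W μ s η (r, x) n (z - x)

theorem kW_nonneg (η : Env) (r : ℤ) (n : ℕ) (x z : ℤ) : 0 ≤ kW μ s η r n x z := W_nonneg η _ n _

theorem kW_pos (η : Env) (r : ℤ) {n : ℕ} {x z : ℤ} (h0 : x ≤ z) (h1 : z ≤ x + n) : 0 < kW μ s η r n x z :=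
  W_pos η _ (by omega) (by omega)

theorem kW_zero (η : Env) (r : ℤ) {n : ℕ} {x z : ℤ} (h : ¬ (x ≤ z ∧ z ≤ x + n)) : kW μ s η r n x z = 0 :=
  W_eq_zero η _ (by omega)

theorem TP_kW (η : Env) (r : ℤ) (n : ℕ) (a b : ℤ) :
    TP (kW μ s η r n) {x | a ≤ x ∧ x ≤ b} {z | b ≤ z ∧ z ≤ a + n} where
  pos := fun x hx z hz => kW_pos η r (hx.2.trans hz.1) (hz.2.trans (by have := hx.1; omega))
  tp := fun x _ x' _ hxx z _ z' _ hzz => by
    simp only [kW]
    exact W_tp2 η r x x' n z z' hxx hzz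

/-- The minors are nonnegative without any window. -/
theorem kW_minor (η : Env) (r : ℤ) (n : ℕ) {x x' z z' : ℤ} (hx : x ≤ x') (hz : z ≤ z') :
    kW μ s η r n x z' * kW μ s η r n x' z ≤ kW μ s η r n x z * kW μ s η r n x' z' :=
  W_tp2 η r x x' n z z' hx hz

theorem kW_comp (η : Env) (r : ℤ) (m n : ℕ) (x z : ℤ) :
    kW μ s η r (m + n) x z = comp (Icc x (x + m)) (kW μ s η r m) (kW μ s η (r + m) n) x z := by
  simp only [kW, comp]
  rw [W_add]
  refine sum_nbij' (fun k => x + k) (fun y => y - x) ?_ ?_ ?_ ?_ ?_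
  · intro k hk
    rw [mem_Icc] at hk ⊢
    constructor <;> omega
  · intro y hy
    rw [mem_Icc] at hy ⊢
    constructor <;> omega
  · intro k _; ring
  · intro y _; ring
  · intro k _
    have e1 : x + k - x = k := by ring
    have e2 : z - (x + k) = z - x - k := by ring
    simp only [e1, e2]

/-- The same over any window which contains the reachable sites. -/
theorem kW_comp' (η : Env) (r : ℤ) (m n : ℕ) (x z : ℤ) (S : Finset ℤ) (hS : Icc x (x + m) ⊆ S) :
    kW μ s η r (m + n) x z = comp S (kW μ s η r m) (kW μ s η (r + m) n) x z := by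
  rw [kW_comp]
  refine sum_subset hS fun y _ hy => ?_
  rw [mem_Icc] at hy
  rw [kW_zero (μ := μ) (s := s) η r hy, zero_mul]

end model

/-! ### classes -/

variable {ι κ : Type*} [LinearOrder ι] [LinearOrder κ] {I : ι → κ → ℝ} {Y : Set ι} {X : Set κ}

/-- **The conditional means behind the slab are the same for two starts of a class.** -/
theorem cond_le (h : TP I Y X) (S : Finset κ) (hS : ∀ x ∈ S, x ∈ X) {y y' : ι} {xa xb : κ}
    (hy : y ∈ Y) (hy' : y' ∈ Y) (hxa : xa ∈ X) (hxb : xb ∈ X) (h2 : y ≤ y') (hab : xa ≤ xb)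
    (hw : ∀ x ∈ S, xa ≤ x ∧ x ≤ xb) (F G : κ → ℝ) (hF : ∀ x ∈ S, 0 ≤ F x) (hG : ∀ x ∈ S, 0 ≤ G x)
    {c : ℝ} (hc : CR I y y' xa xb ≤ c) :
    pull S I F y * pull S I G y' ≤ c * (pull S I F y' * pull S I G y) := by
  set t : ℝ := I y' xa / I y xa with ht
  have pt : 0 < t := div_pos (h.pos y' hy' xa hxa) (h.pos y hy xa hxa)
  have c0 : 0 ≤ c := le_trans (zero_le_one.trans (h.one_le_CR hy hy' hxa hxb h2 hab)) hc
  have lo : t * pull S I F y ≤ pull S I F y' := by
    unfold pull
    rw [mul_sum]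
    refine sum_le_sum fun x hx => ?_
    have := (h.row_le hy hy' hxa (hS x hx) hxb h2 (hw x hx).1 (hw x hx).2).1
    nlinarith [mul_le_mul_of_nonneg_right this (hF x hx)]
  have hi : pull S I G y' ≤ c * t * pull S I G y := by
    unfold pull
    rw [mul_sum]
    refine sum_le_sum fun x hx => ?_
    have h3 := (h.row_le hy hy' hxa (hS x hx) hxb h2 (hw x hx).1 (hw x hx).2).2
    have h4 : CR I y y' xa xb * t * I y x ≤ c * t * I y x := by
      have p3 := (h.pos y hy x (hS x hx)).le
      gcongr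
    nlinarith [mul_le_mul_of_nonneg_right (h3.trans h4) (hG x hx)]
  have nF : 0 ≤ pull S I F y := sum_nonneg fun x hx => mul_nonneg (h.pos y hy x (hS x hx)).le (hF x hx)
  have nG : 0 ≤ pull S I G y := sum_nonneg fun x hx => mul_nonneg (h.pos y hy x (hS x hx)).le (hG x hx)
  calc pull S I F y * pull S I G y' ≤ pull S I F y * (c * t * pull S I G y) :=
        mul_le_mul_of_nonneg_left hi nF
    _ = c * ((t * pull S I F y) * pull S I G y) := by ring
    _ ≤ c * (pull S I F y' * pull S I G y) :=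
        mul_le_mul_of_nonneg_left (mul_le_mul_of_nonneg_right lo nG) c0

/-- The same with the two starts exchanged. -/
theorem cond_le' (h : TP I Y X) (S : Finset κ) (hS : ∀ x ∈ S, x ∈ X) {y y' : ι} {xa xb : κ}
    (hy : y ∈ Y) (hy' : y' ∈ Y) (hxa : xa ∈ X) (hxb : xb ∈ X) (h2 : y ≤ y') (hab : xa ≤ xb)
    (hw : ∀ x ∈ S, xa ≤ x ∧ x ≤ xb) (F G : κ → ℝ) (hF : ∀ x ∈ S, 0 ≤ F x) (hG : ∀ x ∈ S, 0 ≤ G x)
    {c : ℝ} (hc : CR I y y' xa xb ≤ c) :
    pull S I F y' * pull S I G y ≤ c * (pull S I F y * pull S I G y') := by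
  have := cond_le h S hS hy hy' hxa hxb h2 hab hw G F hG hF hc
  nlinarith

/-- The minor (pairs without meeting). -/
theorem minor_eq (h : TP I Y X) {y y' : ι} {x x' : κ} (hy : y ∈ Y) (hy' : y' ∈ Y) (hx : x ∈ X)
    (hx' : x' ∈ X) : NIk I y y' x x' = (1 - 1 / CR I y y' x x') * (I y x * I y' x') := by
  have := (h.pos y hy x hx).ne'
  have := (h.pos y hy x' hx').ne'
  have := (h.pos y' hy' x hx).ne'
  have := (h.pos y' hy' x' hx').ne'
  unfold NIk CR
  field_simp

theorem mn_mem {a b : ι} (ha : a ∈ Y) (hb : b ∈ Y) : min a b ∈ Y := by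
  rcases min_choice a b with h | h <;> rw [h] <;> assumption

theorem mx_mem {a b : ι} (ha : a ∈ Y) (hb : b ∈ Y) : max a b ∈ Y := by
  rcases max_choice a b with h | h <;> rw [h] <;> assumption

/-- The cross ratio of the moved starts. -/
theorem CR_move (h : TP I Y X) {a b a' b' : ι} {x x' : κ} (ha : a ∈ Y) (hb : b ∈ Y) (ha' : a' ∈ Y)
    (hb' : b' ∈ Y) (hx : x ∈ X) (hx' : x' ∈ X) (hxx : x ≤ x') {c : ℝ}
    (h1 : CR I (min a a') (max a a') x x' ≤ c) (h2 : CR I (min b b') (max b b') x x' ≤ c) :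
    CR I a b x x' ≤ c * c * CR I a' b' x x' := by
  have pa := h.one_le_CR (mn_mem ha ha') (mx_mem ha ha') hx hx' min_le_max hxx
  have key : ∀ u ∈ Y, ∀ v ∈ Y, 0 < CR I u v x x' := fun u hu v hv =>
    div_pos (mul_pos (h.pos u hu x hx) (h.pos v hv x' hx')) (mul_pos (h.pos u hu x' hx') (h.pos v hv x hx))
  have inv : ∀ u ∈ Y, ∀ v ∈ Y, CR I u v x x' * CR I v u x x' = 1 := fun u hu v hv => by
    have := (h.pos u hu x hx).ne'
    have := (h.pos v hv x' hx').ne'
    have := (h.pos u hu x' hx').ne'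
    have := (h.pos v hv x hx).ne'
    unfold CR
    field_simp
  have c1 : 1 ≤ c := pa.trans h1
  have small : ∀ u ∈ Y, ∀ v ∈ Y, CR I (min u v) (max u v) x x' ≤ c → CR I u v x x' ≤ c := by
    intro u hu v hv huv
    rcases le_total u v with hle | hle
    · rwa [min_eq_left hle, max_eq_right hle] at huv
    · have e := inv u hu v hv
      have q := h.one_le_CR hv hu hx hx' hle hxx
      have q' := key u hu v hv
      nlinarith
  have s1 : CR I a a' x x' ≤ c := small a ha a' ha' h1
  have s2 : CR I b' b x x' ≤ c := small b' hb' b hb (by rwa [min_comm, max_comm])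
  rw [CR_mul_y h ha ha' hb hx hx', CR_mul_y h ha' hb' hb hx hx']
  have k1 := key a' ha' b' hb'
  have k2 := key b' hb' b hb
  have k3 := key a ha a' ha'
  calc CR I a a' x x' * (CR I a' b' x x' * CR I b' b x x')
      ≤ c * (CR I a' b' x x' * c) := by gcongr
    _ = c * c * CR I a' b' x x' := by ring

/-- **The minors over the classes** : if the relative minor is at least `1/2` at `(a, b)`, then after moving the
starts inside their classes the relative minor loses the factor `2 - c²` only. -/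
theorem minor_class (h : TP I Y X) {a b a' b' : ι} {x x' : κ} (ha : a ∈ Y) (hb : b ∈ Y) (ha' : a' ∈ Y)
    (hb' : b' ∈ Y) (hx : x ∈ X) (hx' : x' ∈ X) (hxx : x ≤ x') {c : ℝ}
    (h1 : CR I (min a a') (max a a') x x' ≤ c) (h2 : CR I (min b b') (max b b') x x' ≤ c)
    (h3 : 2 ≤ CR I a b x x') :
    (2 - c * c) * NIk I a b x x' * (I a' x * I b' x') ≤ NIk I a' b' x x' * (I a x * I b x') := by
  have hm := CR_move h ha hb ha' hb' hx hx' hxx h1 h2
  have k : 0 < CR I a' b' x x' :=
    div_pos (mul_pos (h.pos a' ha' x hx) (h.pos b' hb' x' hx')) (mul_pos (h.pos a' ha' x' hx') (h.pos b' hb' x hx))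
  have k0 : 0 < CR I a b x x' := by linarith
  have c1 : 1 ≤ c := (h.one_le_CR (mn_mem ha ha') (mx_mem ha ha') hx hx' min_le_max hxx).trans h1
  rw [minor_eq h ha hb hx hx', minor_eq h ha' hb' hx hx']
  have p1 := mul_pos (h.pos a ha x hx) (h.pos b hb x' hx')
  have p2 := mul_pos (h.pos a' ha' x hx) (h.pos b' hb' x' hx')
  have q : (2 - c * c) * (1 - 1 / CR I a b x x') ≤ 1 - 1 / CR I a' b' x x' := by
    have e1 : 1 / CR I a' b' x x' ≤ c * c / CR I a b x x' := by
      rw [div_le_div_iff₀ k k0]; linarith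
    have e2 : 1 / CR I a b x x' ≤ 1 / 2 := one_div_le_one_div_of_le (by norm_num) h3
    have e3 : 0 ≤ 1 / CR I a b x x' := by positivity
    have e4 : c * c / CR I a b x x' = c * c * (1 / CR I a b x x') := by ring
    rw [e4] at e1
    nlinarith [mul_nonneg (by nlinarith : (0:ℝ) ≤ c * c - 1) (by linarith : (0:ℝ) ≤ 1 - 2 * (1 / CR I a b x x'))]
  calc (2 - c * c) * ((1 - 1 / CR I a b x x') * (I a x * I b x')) * (I a' x * I b' x')
      = ((2 - c * c) * (1 - 1 / CR I a b x x')) * ((I a x * I b x') * (I a' x * I b' x')) := by ring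
    _ ≤ (1 - 1 / CR I a' b' x x') * ((I a x * I b x') * (I a' x * I b' x')) := by gcongr
    _ = (1 - 1 / CR I a' b' x x') * (I a' x * I b' x') * (I a x * I b x') := by ring

/-! ### break gaps of a mesh -/

theorem prod_CR (h : TP I Y X) {x x' : κ} (hx : x ∈ X) (hx' : x' ∈ X) (y : ℕ → ι) (hy : ∀ j, y j ∈ Y) :
    ∀ G : ℕ, ∏ j ∈ range G, CR I (y j) (y (j + 1)) x x' = CR I (y 0) (y G) x x'
  | 0 => by
    have := (h.pos _ (hy 0) x hx).ne'
    have := (h.pos _ (hy 0) x' hx').ne'
    rw [range_zero, prod_empty]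
    unfold CR
    field_simp
  | G + 1 => by
    rw [prod_range_succ, prod_CR h hx hx' y hy G, CR_mul_y h (hy 0) (hy G) (hy (G + 1)) hx hx']

/-- The number of break gaps. -/
theorem card_break (h : TP I Y X) {x x' : κ} (hx : x ∈ X) (hx' : x' ∈ X) (hxx : x ≤ x') (y : ℕ → ι)
    (hy : ∀ j, y j ∈ Y) (hm : Monotone y) (G : ℕ) {e : ℝ} (he : 0 < e) :
    (((range G).filter fun j => 1 + e < CR I (y j) (y (j + 1)) x x').card : ℝ) * Real.log (1 + e) ≤
      Real.log (CR I (y 0) (y G) x x') := by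
  have one : ∀ j, 1 ≤ CR I (y j) (y (j + 1)) x x' := fun j =>
    h.one_le_CR (hy j) (hy (j + 1)) hx hx' (hm (Nat.le_succ j)) hxx
  rw [← prod_CR h hx hx' y hy G, Real.log_prod (fun j _ => (zero_lt_one.trans_le (one j)).ne')]
  calc (((range G).filter fun j => 1 + e < CR I (y j) (y (j + 1)) x x').card : ℝ) * Real.log (1 + e)
      = ∑ j ∈ (range G).filter (fun j => 1 + e < CR I (y j) (y (j + 1)) x x'), Real.log (1 + e) := by
        rw [sum_const, nsmul_eq_mul]
    _ ≤ ∑ j ∈ (range G).filter (fun j => 1 + e < CR I (y j) (y (j + 1)) x x'),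
          Real.log (CR I (y j) (y (j + 1)) x x') := by
        refine sum_le_sum fun j hj => ?_
        have := (mem_filter.1 hj).2
        exact Real.log_le_log (by linarith) this.le
    _ ≤ ∑ j ∈ range G, Real.log (CR I (y j) (y (j + 1)) x x') :=
        sum_le_sum_of_subset_of_nonneg (filter_subset _ _) fun j _ _ => Real.log_nonneg (one j)

/-- **The odds of a cut are constant on a class.** -/
theorem odds_class (h : TP I Y X) (A B : Finset κ) (hA : ∀ x ∈ A, x ∈ X) (hB : ∀ x ∈ B, x ∈ X)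
    {y y' : ι} {xa xb : κ} (hy : y ∈ Y) (hy' : y' ∈ Y) (hxa : xa ∈ X) (hxb : xb ∈ X) (h2 : y ≤ y')
    (hab : xa ≤ xb) (hwA : ∀ x ∈ A, xa ≤ x ∧ x ≤ xb) (hwB : ∀ x ∈ B, xa ≤ x ∧ x ≤ xb)
    (f : κ → ℝ) (hfA : ∀ x ∈ A, 0 ≤ f x) (hfB : ∀ x ∈ B, 0 ≤ f x) {c : ℝ}
    (hc : CR I y y' xa xb ≤ c) :
    pull A I f y * pull B I f y' ≤ c * (pull A I f y' * pull B I f y) := by
  set t : ℝ := I y' xa / I y xa with ht
  have pt : 0 < t := div_pos (h.pos y' hy' xa hxa) (h.pos y hy xa hxa)
  have c0 : 0 ≤ c := le_trans (zero_le_one.trans (h.one_le_CR hy hy' hxa hxb h2 hab)) hc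
  have lo : t * pull A I f y ≤ pull A I f y' := by
    unfold pull
    rw [mul_sum]
    refine sum_le_sum fun x hx => ?_
    have := (h.row_le hy hy' hxa (hA x hx) hxb h2 (hwA x hx).1 (hwA x hx).2).1
    nlinarith [mul_le_mul_of_nonneg_right this (hfA x hx)]
  have hi : pull B I f y' ≤ c * t * pull B I f y := by
    unfold pull
    rw [mul_sum]
    refine sum_le_sum fun x hx => ?_
    have h3 := (h.row_le hy hy' hxa (hB x hx) hxb h2 (hwB x hx).1 (hwB x hx).2).2
    have h4 : CR I y y' xa xb * t * I y x ≤ c * t * I y x := by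
      have p3 := (h.pos y hy x (hB x hx)).le
      gcongr
    nlinarith [mul_le_mul_of_nonneg_right (h3.trans h4) (hfB x hx)]
  have nF : 0 ≤ pull A I f y := sum_nonneg fun x hx => mul_nonneg (h.pos y hy x (hA x hx)).le (hfA x hx)
  have nG : 0 ≤ pull B I f y := sum_nonneg fun x hx => mul_nonneg (h.pos y hy x (hB x hx)).le (hfB x hx)
  calc pull A I f y * pull B I f y' ≤ pull A I f y * (c * t * pull B I f y) :=
        mul_le_mul_of_nonneg_left hi nF
    _ = c * ((t * pull A I f y) * pull B I f y) := by ring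
    _ ≤ c * (pull A I f y' * pull B I f y) :=
        mul_le_mul_of_nonneg_left (mul_le_mul_of_nonneg_right lo nG) c0

end

end Pool.Agent.W_7d29a1_C1.Basin76
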