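import Pool.Agent.W_7d29a1_C1.Fkg31

/-!
MP_7d29a1_pr, [C1] slab lemma, tuned form (F5): THE INTERFACE OF THE BLOCK EVENT (good blocks of a lane). (helper12)

A block has `m` rows, the lane goes from `0` to `(m, y)`, `|y - sl m| ≤ wd m`; units `E = EE m`, `w = wd m`. The type `τ` is
`false` (low) or `true` (up). The file `Blk12` proves `Blk μ s` from `In` and the lucky tubes.
-/

set_option autoImplicit false

namespace Pool.Agent.W_7d29a1_C1.B12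

open MeasureTheory ProbabilityTheory Filter Topology
open Pool.Agent.W_7d29a1_F Pool.Agent.W_7d29a1_h4g Pool.Agent.W_7d29a1_H Pool.Agent.W_7d29a1_HS
open Pool.Agent.W_7d29a1_C1.F31 (DecO)

noncomputable section

/-- The level of the type. -/
def lv (τ : Bool) (x y : ℝ) : ℝ := if τ then y else x

/-- **The block events** `Bk τ y` at the scale `m`. `k₁`, `k₃`: lower bounds of the kernel of the two types; `KL`, `KU`: upper
bounds of all the free energies of starts of the collar (half width `A w`); `k₀` (`k₀ + g ≤ k₁`, the gap `g` is given): upper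
bound at the starts at distance at least `ρ` from the lane; `c₄`: cost of the four legs between the standard points `0`, `± ρ`; `Rp w`: half width of the
protected strip; `S w`: separation of the lanes; `p`: probability of the blocks of at most two lanes. -/
structure BlkD (μ : Measure ℝ) (s : ℝ) (m : ℕ) (k₀ k₁ k₃ KL KU c₄ A Rp S p : ℝ) (ρ : ℤ) (Bk : Bool → ℤ → Set Env) :
    Prop where
  /-- The standard points are in the collar. -/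
  rho : 1 ≤ ρ ∧ (ρ : ℝ) ≤ Rp * wd μ s m
  meas : ∀ τ y, MeasurableSet (Bk τ y)
  /-- The block event reads the rows `(0, m]`. -/
  row : ∀ τ y, ∀ η η' : Env, (∀ q ∈ rows 0 m, η q = η' q) → (η ∈ Bk τ y ↔ η' ∈ Bk τ y)
  /-- The block event is decreasing off the protected strip. -/
  dec : ∀ τ y, DecO (St μ s (Rp * wd μ s m) 0 ∩ rows 0 m) (Bk τ y)
  low : ∀ τ y, ∀ η ∈ Bk τ y, Real.exp (lv τ k₁ k₃ * EE μ s m) ≤ W μ s η 0 m y
  sup : ∀ τ y, ∀ η ∈ Bk τ y, ∀ z : ℤ, |(z : ℝ)| ≤ A * wd μ s m → V μ s η ((0 : ℤ), z) m ≤ lv τ KL KU * EE μ s m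
  off : ∀ τ y, ∀ η ∈ Bk τ y, ∀ z : ℤ, (ρ : ℝ) ≤ |(z : ℝ)| → |(z : ℝ)| ≤ A * wd μ s m →
    V μ s η ((0 : ℤ), z) m ≤ k₀ * EE μ s m
  qp : ∀ τ y, ∀ η ∈ Bk τ y, ∀ g : ℤ, g = ρ ∨ g = -ρ → Real.exp (-(c₄ * EE μ s m)) ≤ W μ s η ((0 : ℤ), g) m (y - g)
  pq : ∀ τ y, ∀ η ∈ Bk τ y, ∀ g : ℤ, g = ρ ∨ g = -ρ → Real.exp (-(c₄ * EE μ s m)) ≤ W μ s η 0 m (y + g)
  /-- The blocks of at most two lanes in the same rows. -/
  prob : ∀ (ι : Type) [Fintype ι], Fintype.card ι ≤ 2 → ∀ (t₀ : ℤ) (a y : ι → ℤ) (τ : ι → Bool),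
    (∀ i, |(y i : ℝ) - sl μ s * m| ≤ wd μ s m) → (∀ i i', i ≠ i' → S * wd μ s m ≤ |(a i : ℝ) - a i'|) →
      p ≤ (law μ).real (⋂ i, {η | sh (t₀, a i) η ∈ Bk (τ i) (y i)})

/-- **What `Blk12` proves.** All constants are functions of the constants of `In` and of the gap `g` only. -/
def Blk (μ : Measure ℝ) (s : ℝ) : Prop :=
  ∀ g : ℝ, 1 ≤ g → ∃ k₀ k₁ k₃ KL KU c₄ A Rp S p : ℝ, 0 ≤ k₀ ∧ k₀ + g ≤ k₁ ∧ k₁ ≤ KL ∧ KL + 1 ≤ k₃ ∧ k₃ ≤ KU ∧ 0 ≤ c₄ ∧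
    1 ≤ Rp ∧ Rp + 8 ≤ A ∧ A ≤ S ∧ 0 < p ∧
    ∃ n₁ : ℕ, ∀ m : ℕ, n₁ ≤ m → ∃ (ρ : ℤ) (Bk : Bool → ℤ → Set Env), BlkD μ s m k₀ k₁ k₃ KL KU c₄ A Rp S p ρ Bk

end

end Pool.Agent.W_7d29a1_C1.B12
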