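import Pool.Agent.W_7d29a1_HX.X50_Unl
import Pool.Agent.W_7d29a1_HL.Cor
import Pool.Agent.W_7d29a1_HS.TubeS
import Pool.Agent.W_7d29a1_HS.Lane

/-!
MP_7d29a1_pr, [C1] slab lemma, tuned form (F5): the confined lower bound between standard points. For a displacement of at most
`C₃` widths the polymer confined to the strip of half width `(C₃ + 1)` widths costs at most `A` units, except with probability
`q`; the strip does not depend on `q` (only `A` does). (helper12)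
-/

set_option autoImplicit false

namespace Pool.Agent.W_7d29a1_C1.H12

open MeasureTheory ProbabilityTheory Filter Topology
open Pool.Agent.W_7d29a1_F Pool.Agent.W_7d29a1_h4g Pool.Agent.W_7d29a1_H Pool.Agent.W_7d29a1_HS
open Pool.Agent.W_7d29a1_HX.X50 (tt zz tt_zero tt_top tt_spec tt_mono ll_spec zz_zero zz_top zz_spec yy_spec)

noncomputable section

variable {μ : Measure ℝ} {s c C : ℝ} {n₀ : ℕ}

/-- The chain of confined pieces. -/
theorem chain12 (S : Set Pt) (η : Env) (a : Pt) {y : ℤ} {m B : ℕ} (hm : 1 ≤ m) (h0 : 0 ≤ y) (h1 : y ≤ m) {e : ℝ} (he : 0 ≤ e)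
    (k : ℕ) (hp : ∀ i < k, e ≤ WR μ s S η (a.1 + (tt m B i : ℤ), a.2 + zz y m (tt m B i)) (tt m B (i + 1) - tt m B i)
      (zz y m (tt m B (i + 1)) - zz y m (tt m B i))) :
    e ^ k ≤ WR μ s S η a (tt m B k) (zz y m (tt m B k)) := by
  induction k with
  | zero =>
    rw [tt_zero, zz_zero, pow_zero]
    refine le_of_eq ?_
    unfold WR Zr
    simp
  | succ k ih =>
    have ih' := ih fun i hi => hp i (by omega)
    have hmo := tt_mono (m := m) (B := B) (i := k)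
    have h2 := hp k (by omega)
    obtain ⟨l, hl⟩ : ∃ l, tt m B (k + 1) = tt m B k + l := ⟨_, (Nat.add_sub_cancel' hmo).symm⟩
    have hz0 : 0 ≤ zz y m (tt m B k) ∧ zz y m (tt m B k) ≤ tt m B k := by
      have := yy_spec hm h0 h1 0 (tt m B k)
      rw [zz_zero, Nat.zero_add, sub_zero] at this
      exact ⟨this.1, this.2.1⟩
    rw [hl, Nat.add_sub_cancel_left] at h2
    rw [hl, pow_succ]
    have h3 := WR_mul_le (μ := μ) (s := s) S η a (tt m B k) l (k := zz y m (tt m B k))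
      (zz y m (tt m B k + l) - zz y m (tt m B k)) hz0.1 hz0.2
    have e1 : zz y m (tt m B k) + (zz y m (tt m B k + l) - zz y m (tt m B k)) = zz y m (tt m B k + l) := by ring
    rw [e1] at h3
    refine le_trans ?_ h3
    exact mul_le_mul ih' h2 he (WR_nonneg _ _ _ _ _)

variable [IsProbabilityMeasure μ]

/-- The confined pieces, seen from any site. -/
theorem tubeS_sh (h : In μ s c C n₀) : ∃ R C' : ℝ, 0 < R ∧ 0 < C' ∧ ∃ n₁ : ℕ, ∀ n, n₁ ≤ n → ∀ (m : ℕ) (y : ℤ), m ≤ n →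
    0 ≤ y → y ≤ m → |(y : ℝ) - sl μ s * m| ≤ c * vA 1 μ s n * m + 1 → ∀ (a : Pt) (x : ℝ), 0 < x →
      (law μ).real {η | WR μ s (St μ s (R * wd μ s n) a) η a m y < Real.exp (-(x * EE μ s n))} ≤ C' / x := by
  obtain ⟨R, C', hR, hC', n₁, ht⟩ := tubeS h
  refine ⟨R, C', hR, hC', n₁, fun n hn m y hmn hy0 hy1 hy a x hx => ?_⟩
  obtain ⟨hpos, hint⟩ := ht n hn m y hmn hy0 hy1 hy
  have hE := EE_pos (μ := μ) (s := s) n
  obtain ⟨f, hf⟩ : ∃ f : Env → ℝ, f = fun η => max (-Real.log (WR μ s (St μ s (R * wd μ s n) 0) η 0 m y)) 0 := ⟨_, rfl⟩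
  have hfm : Measurable f := by
    rw [hf]
    exact (Real.measurable_log.comp (measurable_WR _ _ _ _)).neg.max measurable_const
  have hset : MeasurableSet {η : Env | x * EE μ s n < f η} := measurableSet_lt measurable_const hfm
  -- the site `a`
  have e1 : {η : Env | WR μ s (St μ s (R * wd μ s n) a) η a m y < Real.exp (-(x * EE μ s n))} ⊆
      {η | sh a η ∈ {η : Env | x * EE μ s n < f η}} := by
    intro η hη
    rw [Set.mem_ofPred_eq] at hη ⊢
    have h1 : WR μ s (St μ s (R * wd μ s n) a) η a m y = WR μ s (St μ s (R * wd μ s n) 0) (sh a η) 0 m y := by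
      have h2 := WR_sh (μ := μ) (s := s) (St μ s (R * wd μ s n) a) η 0 a m y
      rw [zero_add] at h2
      rw [← h2]
      congr 1
      ext p
      show |((p.2 + a.2 - a.2 : ℤ) : ℝ) - sl μ s * ((p.1 + a.1 - a.1 : ℤ) : ℝ)| ≤ R * wd μ s n ↔
        |((p.2 - 0 : ℤ) : ℝ) - sl μ s * ((p.1 - 0 : ℤ) : ℝ)| ≤ R * wd μ s n
      simp
    rw [h1] at hη
    show x * EE μ s n < f (sh a η)
    rw [hf]
    have h3 := Real.log_lt_log (hpos (sh a η)) hη
    rw [Real.log_exp] at h3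
    exact lt_of_lt_of_le (by linarith) (le_max_left _ _)
  refine (measureReal_mono e1 (measure_ne_top _ _)).trans ?_
  rw [real_sh (μ := μ) a hset]
  have hf0 : ∀ η, 0 ≤ f η := fun η => by rw [hf]; exact le_max_right _ _
  have hfi : Integrable f (law μ) := by
    have hpath : Pool.Agent.W_7d29a1_g.HasPath (St μ s (R * wd μ s n) 0) 0 m y := by
      refine Pool.Agent.W_7d29a1_h57g.hasPath_of_pos (η := fun _ => 0) m y ?_
      have h1 := hpos fun _ => 0
      unfold WR at h1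
      exact (mul_pos_iff_of_pos_left (Real.exp_pos _)).1 h1
    rw [hf]
    exact (hpath.sub.neg.max (Sub.const 0)).integrable h.em
  have h2 := mul_meas_ge_le_integral_of_nonneg (μ := law μ) (f := f) (ae_of_all _ hf0) hfi (x * EE μ s n)
  have h3 : (law μ).real {η | x * EE μ s n < f η} ≤ (law μ).real {η | x * EE μ s n ≤ f η} :=
    measureReal_mono (fun η (hη : x * EE μ s n < f η) => hη.le) (measure_ne_top _ _)
  have h4 : ∫ η, f η ∂(law μ) ≤ C' * EE μ s n := by rw [hf]; exact hint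
  rw [le_div_iff₀ hx]
  have h5 : x * EE μ s n * (law μ).real {η | x * EE μ s n ≤ f η} ≤ C' * EE μ s n := h2.trans h4
  have h6 : (law μ).real {η | x * EE μ s n ≤ f η} * x ≤ C' := by
    have h7 : (law μ).real {η | x * EE μ s n ≤ f η} * x * EE μ s n ≤ C' * EE μ s n := by linarith
    exact le_of_mul_le_mul_right h7 hE
  exact (mul_le_mul_of_nonneg_right h3 hx.le).trans h6

/-- **THE CONFINED LOWER BOUND.** -/
theorem leg12 (h : In μ s c C n₀) {C₃ q : ℝ} (hC₃ : 0 ≤ C₃) (hq : 0 < q) : ∃ A : ℝ, 0 ≤ A ∧ ∃ n₁ : ℕ, ∀ m : ℕ, n₁ ≤ m →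
    ∀ (a : Pt) (y : ℤ), |(y : ℝ) - sl μ s * m| ≤ C₃ * wd μ s m →
      (law μ).real {η | WR μ s (St μ s ((C₃ + 1) * wd μ s m) a) η a m y < Real.exp (-(A * EE μ s m))} ≤ q := by
  have hc0 := h.c0
  have hsl0 := h.sl_pos
  have hsl1 := h.sl_lt
  obtain ⟨R, C', hR, hC', n1, ht⟩ := tubeS_sh h
  obtain ⟨g, B, n2, hg, -, hB, hn2, hvA⟩ := Pool.Agent.W_7d29a1_HL.vA_pow h
  obtain ⟨α, n3, hα, -, hn3, hEp⟩ := Pool.Agent.W_7d29a1_HL.EE_pow h
  -- the number of pieces
  have htend : ∀ e : ℝ, 0 < e → Tendsto (fun N : ℕ => (2 / (N : ℝ)) ^ e) atTop (𝓝 0) := by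
    intro e he
    have h1 : Tendsto (fun N : ℕ => 2 / (N : ℝ)) atTop (𝓝 0) := tendsto_const_div_atTop_nhds_zero_nat 2
    have h2 := h1.rpow_const (p := e) (Or.inr he.le)
    rwa [Real.zero_rpow he.ne'] at h2
  have hev1 : ∀ᶠ N : ℕ in atTop, C₃ * B * (2 / (N : ℝ)) ^ g < c := by
    have := (htend g hg).const_mul (C₃ * B)
    rw [mul_zero] at this
    exact this.eventually_lt_const hc0
  have hev2 : ∀ᶠ N : ℕ in atTop, 8 * R * (2 / (N : ℝ)) ^ α < 1 := by
    have := (htend α hα).const_mul (8 * R)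
    rw [mul_zero] at this
    exact this.eventually_lt_const one_pos
  obtain ⟨N, hN1, hN2, hN3⟩ : ∃ N : ℕ, C₃ * B * (2 / (N : ℝ)) ^ g < c ∧ 8 * R * (2 / (N : ℝ)) ^ α < 1 ∧ 2 ≤ N :=
    (hev1.and (hev2.and (eventually_ge_atTop 2))).exists
  have hNR : (2 : ℝ) ≤ N := by exact_mod_cast hN3
  have hN0 : (0 : ℝ) < N := by linarith
  obtain ⟨x, hx⟩ : ∃ x : ℝ, x = N * C' / q := ⟨_, rfl⟩
  have hx0 : 0 < x := by rw [hx]; positivity
  -- the inner points
  obtain ⟨n4, hn4⟩ := ((tendsto_atTop.1 (wd_tendsto h) 2).and ((eventually_ge_atTop 1))).exists_forall_of_atTop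
  have hvt : Tendsto (fun m : ℕ => C₃ * vA 1 μ s m) atTop (𝓝 0) := by
    have := h.tv.const_mul C₃
    rwa [mul_zero] at this
  obtain ⟨n5, hn5⟩ := ((hvt.eventually_lt_const hsl0).and (hvt.eventually_lt_const (by linarith : (0 : ℝ) < 1 - sl μ s))).exists_forall_of_atTop
  obtain ⟨n6, hn6⟩ : ∃ n6 : ℕ, n6 = n1 + n2 + n3 + 1 := ⟨_, rfl⟩
  refine ⟨N * x, by positivity, N * n6 + n4 + n5, fun m hm a y hy => ?_⟩
  have hmn4 : n4 ≤ m := by omega
  have hmn5 : n5 ≤ m := by omega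
  have hNn6 : N * n6 ≤ m := by omega
  obtain ⟨hw2, hm1⟩ := hn4 m hmn4
  obtain ⟨hv1, hv2⟩ := hn5 m hmn5
  have hmR : (0 : ℝ) < m := by exact_mod_cast hm1
  have hNm : N ≤ m := by
    have : N * 1 ≤ N * n6 := Nat.mul_le_mul_left _ (by omega)
    omega
  have hE := EE_pos (μ := μ) (s := s) m
  have hwd : wd μ s m = m * vA 1 μ s m := rfl
  have hvm := h.vA_nonneg m
  -- `0 ≤ y ≤ m`
  have hyab := abs_le.1 hy
  have hy0 : 0 ≤ y := by
    have : (0 : ℝ) ≤ y := by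
      rw [hwd] at hyab
      nlinarith [hyab.1]
    exact_mod_cast this
  have hy1 : y ≤ m := by
    have : (y : ℝ) ≤ m := by
      rw [hwd] at hyab
      nlinarith [hyab.2]
    exact_mod_cast this
  -- the scale of the pieces
  obtain ⟨n', hn'⟩ : ∃ n' : ℕ, n' = m / N + 1 := ⟨_, rfl⟩
  have hdiv : n6 ≤ m / N := (Nat.le_div_iff_mul_le (by omega)).2 (by rw [mul_comm]; exact hNn6)
  have hn'1 : n1 ≤ n' := by omega
  have hn'2 : n2 ≤ n' := by omega
  have hn'3 : n3 ≤ n' := by omega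
  have hn'm : n' ≤ m := by
    have h2 : m / N < m := Nat.div_lt_self hm1 (by omega)
    omega
  have hn'0 : (0 : ℝ) < n' := by
    have : 0 < n' := by omega
    exact_mod_cast this
  have hratio : (n' : ℝ) / m ≤ 2 / N := by
    rw [div_le_div_iff₀ hmR hN0]
    have h1 : ((m / N : ℕ) : ℝ) * N ≤ m := by exact_mod_cast Nat.div_mul_le_self m N
    have h2 : (N : ℝ) ≤ m := by exact_mod_cast hNm
    rw [hn']
    push_cast
    linarith
  have hinv : ∀ e : ℝ, ((m : ℝ) / n') ^ e * ((n' : ℝ) / m) ^ e = 1 := by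
    intro e
    rw [← Real.mul_rpow (by positivity) (by positivity)]
    have : (m : ℝ) / n' * (n' / m) = 1 := by field_simp
    rw [this, Real.one_rpow]
  have hvn' := h.vA_nonneg n'
  have hEn' := EE_pos (μ := μ) (s := s) n'
  have hslope : C₃ * vA 1 μ s m ≤ c * vA 1 μ s n' := by
    have h1 := hvA n' m hn'2 hn'm
    have h2 : 0 ≤ ((n' : ℝ) / m) ^ g := by positivity
    have h3 : vA 1 μ s m ≤ B * ((n' : ℝ) / m) ^ g * vA 1 μ s n' := by
      calc vA 1 μ s m = vA 1 μ s m * (((m : ℝ) / n') ^ g * ((n' : ℝ) / m) ^ g) := by rw [hinv, mul_one]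
        _ = vA 1 μ s m * ((m : ℝ) / n') ^ g * ((n' : ℝ) / m) ^ g := by ring
        _ ≤ B * vA 1 μ s n' * ((n' : ℝ) / m) ^ g := mul_le_mul_of_nonneg_right h1 h2
        _ = _ := by ring
    have h4 : ((n' : ℝ) / m) ^ g ≤ (2 / (N : ℝ)) ^ g := Real.rpow_le_rpow (by positivity) hratio hg.le
    have hB0 : 0 ≤ B := by linarith
    calc C₃ * vA 1 μ s m ≤ C₃ * (B * ((n' : ℝ) / m) ^ g * vA 1 μ s n') := mul_le_mul_of_nonneg_left h3 hC₃
      _ ≤ C₃ * (B * (2 / (N : ℝ)) ^ g * vA 1 μ s n') := by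
          refine mul_le_mul_of_nonneg_left ?_ hC₃
          exact mul_le_mul_of_nonneg_right (mul_le_mul_of_nonneg_left h4 hB0) hvn'
      _ = (C₃ * B * (2 / (N : ℝ)) ^ g) * vA 1 μ s n' := by ring
      _ ≤ c * vA 1 μ s n' := mul_le_mul_of_nonneg_right hN1.le hvn'
  have hwn' : R * wd μ s n' ≤ wd μ s m / 2 := by
    have h1 := hEp n' m hn'3 hn'm
    have h2 : 0 ≤ ((n' : ℝ) / m) ^ α := by positivity
    have h3 : EE μ s n' ≤ 2 * ((n' : ℝ) / m) ^ α * EE μ s m := by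
      calc EE μ s n' = ((m : ℝ) / n') ^ α * ((n' : ℝ) / m) ^ α * EE μ s n' := by rw [hinv, one_mul]
        _ = ((m : ℝ) / n') ^ α * EE μ s n' * ((n' : ℝ) / m) ^ α := by ring
        _ ≤ 2 * EE μ s m * ((n' : ℝ) / m) ^ α := mul_le_mul_of_nonneg_right h1 h2
        _ = _ := by ring
    have h4 : ((n' : ℝ) / m) ^ α ≤ (2 / (N : ℝ)) ^ α := Real.rpow_le_rpow (by positivity) hratio hα.le
    have h5 : EE μ s n' ≤ 2 * (2 / (N : ℝ)) ^ α * EE μ s m :=
      h3.trans (mul_le_mul_of_nonneg_right (mul_le_mul_of_nonneg_left h4 two_pos.le) hE.le)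
    have h6 := wd_growth_one h (m := n') (n := m) (by omega) hn'm
    have hwm : 0 ≤ wd μ s m := h.wd_nonneg m
    have h7 : 2 * EE μ s n' * wd μ s m ≤ 2 * (2 * (2 / (N : ℝ)) ^ α * EE μ s m) * wd μ s m :=
      mul_le_mul_of_nonneg_right (mul_le_mul_of_nonneg_left h5 two_pos.le) hwm
    have h8 : wd μ s n' ≤ 4 * (2 / (N : ℝ)) ^ α * wd μ s m := by
      have h9 : wd μ s n' * EE μ s m ≤ (4 * (2 / (N : ℝ)) ^ α * wd μ s m) * EE μ s m := by
        refine h6.trans (h7.trans (le_of_eq ?_))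
        ring
      exact le_of_mul_le_mul_right h9 hE
    have h10 := mul_le_mul_of_nonneg_left h8 hR.le
    have h11 : R * (4 * (2 / (N : ℝ)) ^ α * wd μ s m) = (8 * R * (2 / (N : ℝ)) ^ α) * (wd μ s m / 2) := by ring
    rw [h11] at h10
    refine h10.trans ?_
    have := mul_le_mul_of_nonneg_right hN2.le (show 0 ≤ wd μ s m / 2 by linarith)
    linarith
  -- the pieces
  obtain ⟨S, hS⟩ : ∃ S : Set Pt, S = St μ s ((C₃ + 1) * wd μ s m) a := ⟨_, rfl⟩
  rw [← hS]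
  have hpiece : ∀ i, 0 ≤ zz y m (tt m N (i + 1)) - zz y m (tt m N i) ∧
      zz y m (tt m N (i + 1)) - zz y m (tt m N i) ≤ ((tt m N (i + 1) - tt m N i : ℕ) : ℤ) ∧
      |((zz y m (tt m N (i + 1)) - zz y m (tt m N i) : ℤ) : ℝ) - (y : ℝ) / m * ((tt m N (i + 1) - tt m N i : ℕ) : ℝ)| ≤ 1 := by
    intro i
    have hmo := tt_mono (m := m) (B := N) (i := i)
    have := yy_spec hm1 hy0 hy1 (tt m N i) (tt m N (i + 1) - tt m N i)
    rw [Nat.add_sub_cancel' hmo] at this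
    exact this
  have hym : |(y : ℝ) / m - sl μ s| ≤ C₃ * vA 1 μ s m := by
    have e1 : (y : ℝ) / m - sl μ s = ((y : ℝ) - sl μ s * m) / m := by field_simp
    rw [e1, abs_div, abs_of_pos hmR, div_le_iff₀ hmR]
    refine hy.trans (le_of_eq ?_)
    rw [hwd]
    ring
  have hl : ∀ i, tt m N (i + 1) - tt m N i ≤ n' := by
    intro i
    obtain ⟨-, h2, -⟩ := ll_spec (m := m) (B := N) (by omega) hNm i
    have h3 : m < (m / N + 1) * N := Nat.lt_mul_of_div_lt (Nat.lt_succ_self _) (by omega)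
    rw [hn']
    by_contra hcon
    have h4 : m / N + 2 ≤ tt m N (i + 1) - tt m N i := by omega
    have h5 : (m / N + 2) * N ≤ (tt m N (i + 1) - tt m N i) * N := Nat.mul_le_mul_right _ h4
    have h6 : (m / N + 2) * N = (m / N + 1) * N + N := by ring
    omega
  have hprob : ∀ i ∈ Finset.range N, (law μ).real {η | WR μ s (St μ s (R * wd μ s n') (a.1 + (tt m N i : ℤ), a.2 + zz y m (tt m N i))) η
      (a.1 + (tt m N i : ℤ), a.2 + zz y m (tt m N i)) (tt m N (i + 1) - tt m N i)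
      (zz y m (tt m N (i + 1)) - zz y m (tt m N i)) < Real.exp (-(x * EE μ s n'))} ≤ C' / x := by
    intro i _
    obtain ⟨p1, p2, p3⟩ := hpiece i
    refine ht n' hn'1 _ _ (hl i) p1 p2 ?_ _ x hx0
    obtain ⟨l, hll⟩ : ∃ l : ℕ, l = tt m N (i + 1) - tt m N i := ⟨_, rfl⟩
    obtain ⟨k, hk⟩ : ∃ k : ℤ, k = zz y m (tt m N (i + 1)) - zz y m (tt m N i) := ⟨_, rfl⟩
    rw [← hll, ← hk] at p3
    rw [← hll, ← hk]
    have hl0 : (0 : ℝ) ≤ l := Nat.cast_nonneg l
    have h1 : |((y : ℝ) / m - sl μ s) * l| ≤ c * vA 1 μ s n' * l := by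
      rw [abs_mul, abs_of_nonneg hl0]
      exact mul_le_mul_of_nonneg_right (hym.trans hslope) hl0
    have e1 : (k : ℝ) - sl μ s * l = ((k : ℝ) - (y : ℝ) / m * l) + ((y : ℝ) / m - sl μ s) * l := by ring
    rw [e1]
    exact (abs_add_le _ _).trans (by linarith)
  -- all the pieces are good
  have hsub : {η | WR μ s S η a m y < Real.exp (-(N * x * EE μ s m))} ⊆ ⋃ i ∈ Finset.range N,
      {η | WR μ s (St μ s (R * wd μ s n') (a.1 + (tt m N i : ℤ), a.2 + zz y m (tt m N i))) η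
      (a.1 + (tt m N i : ℤ), a.2 + zz y m (tt m N i)) (tt m N (i + 1) - tt m N i)
      (zz y m (tt m N (i + 1)) - zz y m (tt m N i)) < Real.exp (-(x * EE μ s n'))} := by
    intro η hη
    by_contra hcon
    simp only [Set.mem_iUnion, not_exists] at hcon
    have h1 := chain12 (μ := μ) (s := s) S η a (B := N) hm1 hy0 hy1 (Real.exp_pos (-(x * EE μ s m))).le N (fun i hi => ?_)
    · rw [tt_top (by omega), zz_top y hm1, ← Real.exp_nat_mul] at h1
      rw [Set.mem_ofPred_eq] at hη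
      have h2 : (N : ℝ) * -(x * EE μ s m) = -(N * x * EE μ s m) := by ring
      rw [h2] at h1
      exact absurd hη (not_lt.2 h1)
    · have h2 := hcon i (Finset.mem_range.2 hi)
      rw [Set.mem_ofPred_eq, not_lt] at h2
      have h3 : Real.exp (-(x * EE μ s m)) ≤ Real.exp (-(x * EE μ s n')) :=
        Real.exp_le_exp.2 (neg_le_neg (mul_le_mul_of_nonneg_left (EE_mono hn'm) hx0.le))
      refine h3.trans (h2.trans ?_)
      refine WR_mono_on η _ _ _ fun p hp _ _ => ?_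
      rw [hS]
      obtain ⟨t, ht'⟩ : ∃ t : ℕ, t = tt m N i := ⟨_, rfl⟩
      rw [← ht'] at hp
      have htm : t ≤ m := by
        have h4 := (tt_spec (m := m) (B := N) (by omega) i).1
        rw [← ht'] at h4
        have h5 : i * m ≤ N * m := Nat.mul_le_mul_right _ hi.le
        have h6 : t * N ≤ m * N := by
          rw [mul_comm m N]
          exact h4.trans h5
        exact Nat.le_of_mul_le_mul_right h6 (by omega)
      have hp' : |((p.2 - (a.2 + zz y m t) : ℤ) : ℝ) - sl μ s * ((p.1 - (a.1 + (t : ℤ)) : ℤ) : ℝ)| ≤ R * wd μ s n' := hp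
      have hz := (yy_spec hm1 hy0 hy1 0 t).2.2
      rw [zz_zero, Nat.zero_add, sub_zero] at hz
      have htR : (t : ℝ) ≤ m := by exact_mod_cast htm
      have ht0 : (0 : ℝ) ≤ t := Nat.cast_nonneg t
      have h7 : |((y : ℝ) / m - sl μ s) * t| ≤ C₃ * wd μ s m := by
        rw [abs_mul, abs_of_nonneg ht0, hwd]
        calc |(y : ℝ) / m - sl μ s| * t ≤ C₃ * vA 1 μ s m * t := mul_le_mul_of_nonneg_right hym ht0
          _ ≤ C₃ * vA 1 μ s m * m := mul_le_mul_of_nonneg_left htR (mul_nonneg hC₃ hvm)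
          _ = _ := by ring
      show |((p.2 - a.2 : ℤ) : ℝ) - sl μ s * ((p.1 - a.1 : ℤ) : ℝ)| ≤ (C₃ + 1) * wd μ s m
      have e1 : ((p.2 - a.2 : ℤ) : ℝ) - sl μ s * ((p.1 - a.1 : ℤ) : ℝ) =
          (((p.2 - (a.2 + zz y m t) : ℤ) : ℝ) - sl μ s * ((p.1 - (a.1 + (t : ℤ)) : ℤ) : ℝ)) +
          (((zz y m t : ℤ) : ℝ) - (y : ℝ) / m * t) + ((y : ℝ) / m - sl μ s) * t := by
        push_cast
        ring
      rw [e1]
      refine (abs_add_le _ _).trans ?_
      have h8 := abs_add_le (((p.2 - (a.2 + zz y m t) : ℤ) : ℝ) - sl μ s * ((p.1 - (a.1 + (t : ℤ)) : ℤ) : ℝ))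
        (((zz y m t : ℤ) : ℝ) - (y : ℝ) / m * t)
      linarith
  refine (measureReal_mono hsub (measure_ne_top _ _)).trans ((measureReal_biUnion_finset_le _ _).trans ?_)
  refine (Finset.sum_le_sum hprob).trans (le_of_eq ?_)
  rw [Finset.sum_const, Finset.card_range, nsmul_eq_mul, hx]
  field_simp

end

end Pool.Agent.W_7d29a1_C1.H12
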