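import Pool.Agent.W_7d29a1_C1.Lane71
/-!
MP_7d29a1_pr, [C1] attractor route, every tilt: `chainV` (blocks of unequal durations, confined, the lucks multiply) and `tubeG` (THE LUCKY
TUBE of half width `d` widths around the straight line, every duration). (helper71)
-/

set_option autoImplicit false

namespace Pool.Agent.W_7d29a1_C1.T71

open MeasureTheory ProbabilityTheory Filter Topology Finset
open Pool.Agent.W_7d29a1_F Pool.Agent.W_7d29a1_h4g Pool.Agent.W_7d29a1_H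
open Pool.Agent.W_7d29a1_HS (In wd St cf md tubeIn_of wd_tendsto)
open Pool.Agent.W_7d29a1_HZ (wd' EE')

noncomputable section

variable {μ : Measure ℝ} {s : ℝ} [IsProbabilityMeasure μ] {c C : ℝ} {n₀ : ℕ}

/-- Blocks one after the other (rows `t i`, heights `b i`): the lucks multiply. -/
theorem chainV {s : ℝ} (S : Set Pt) (a : Pt) (t : ℕ → ℕ) (b : ℕ → ℤ) (t0 : t 0 = 0) (ht : ∀ i, t i ≤ t (i + 1)) (h0 : b 0 = 0)
    (hb : ∀ i, 0 ≤ b i ∧ b i ≤ (t i : ℤ)) {p : ℝ} (x : ℕ → ℝ)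
    (hp : 0 ≤ p) : ∀ q : ℕ, (∀ i < q, p ≤ (law μ).real {η | Real.exp (x i) ≤
        WR μ s S η (a.1 + (t i : ℤ), a.2 + b i) (t (i + 1) - t i) (b (i + 1) - b i)}) →
      p ^ q ≤ (law μ).real {η | Real.exp (∑ i ∈ Finset.range q, x i) ≤ WR μ s S η a (t q) (b q)} := by
  intro q
  induction q with
  | zero =>
    intro _
    have h1 : {η : Env | Real.exp (∑ i ∈ Finset.range 0, x i) ≤ WR μ s S η a (t 0) (b 0)} = Set.univ := by
      ext η
      simp only [Set.mem_ofPred_eq, Set.mem_univ, iff_true]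
      rw [h0, t0]
      have h2 : WR μ s S η a 0 0 = 1 := by
        unfold WR
        have h3 : Zr S η a 0 0 = 1 := by
          show (if (0 : ℤ) = 0 then (1 : ℝ) else 0) = 1
          simp
        rw [h3]
        simp
      rw [h2]
      simp
    rw [h1, probReal_univ, pow_zero]
  | succ q ih =>
    intro hq
    have ih' := ih fun i hi => hq i (by omega)
    have hq' := hq q (by omega)
    have htq := ht q
    obtain ⟨τ, hτ⟩ : ∃ τ : ℕ, τ = t (q + 1) - t q := ⟨_, rfl⟩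
    have hτ' : t (q + 1) = t q + τ := by omega
    rw [← hτ] at hq'
    obtain ⟨A, hA⟩ : ∃ A : Set Env, A = {η | Real.exp (∑ i ∈ Finset.range q, x i) ≤ WR μ s S η a (t q) (b q)} := ⟨_, rfl⟩
    obtain ⟨B, hB⟩ : ∃ B : Set Env, B = {η | Real.exp (x q) ≤ WR μ s S η (a.1 + (t q : ℤ), a.2 + b q) τ (b (q + 1) - b q)} := ⟨_, rfl⟩
    rw [← hA] at ih'
    rw [← hB] at hq'
    have hAm : MeasurableSet A := by
      rw [hA]
      exact measurableSet_le measurable_const (measurable_WR _ _ _ _)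
    have hBm : MeasurableSet B := by
      rw [hB]
      exact measurableSet_le measurable_const (measurable_WR _ _ _ _)
    have dA : ∀ η η' : Env, (∀ p ∈ rows a.1 (a.1 + (t q : ℤ)), η p = η' p) → (η ∈ A ↔ η' ∈ A) := by
      intro η η' hh
      have h1 := WR_dep (μ := μ) (s := s) S a (t q) (b q) (fun p hp => hh p ⟨hp.1.1, hp.1.2.1⟩)
      dsimp only at h1
      rw [hA]
      simp only [Set.mem_ofPred_eq]
      rw [h1]
    have dB : ∀ η η' : Env, (∀ p ∈ rows (a.1 + (t q : ℤ)) (a.1 + (t q : ℤ) + τ), η p = η' p) → (η ∈ B ↔ η' ∈ B) := by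
      intro η η' hh
      have h1 := WR_dep (μ := μ) (s := s) S (a.1 + (t q : ℤ), a.2 + b q) τ (b (q + 1) - b q)
        (fun p hp => hh p ⟨hp.1.1, hp.1.2.1⟩)
      dsimp only at h1
      rw [hB]
      simp only [Set.mem_ofPred_eq]
      rw [h1]
    have hd : Disjoint (rows a.1 (a.1 + (t q : ℤ))) (rows (a.1 + (t q : ℤ)) (a.1 + (t q : ℤ) + τ)) := by
      rw [Set.disjoint_left]
      intro z h1 h2
      have h3 := h1.2
      have h4 := h2.1
      omega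
    have hAB := Pool.Agent.W_7d29a1_HL.real_inter_indep (μ := μ) hAm hBm dA dB hd
    have hsub : A ∩ B ⊆ {η | Real.exp (∑ i ∈ Finset.range (q + 1), x i) ≤ WR μ s S η a (t (q + 1)) (b (q + 1))} := by
      rintro η ⟨h1, h2⟩
      rw [hA] at h1
      rw [hB] at h2
      have h1' : Real.exp (∑ i ∈ Finset.range q, x i) ≤ WR μ s S η a (t q) (b q) := h1
      have h2' : Real.exp (x q) ≤ WR μ s S η (a.1 + (t q : ℤ), a.2 + b q) τ (b (q + 1) - b q) := h2
      show Real.exp (∑ i ∈ Finset.range (q + 1), x i) ≤ WR μ s S η a (t (q + 1)) (b (q + 1))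
      have h3 := Pool.Agent.W_7d29a1_HS.WR_mul_le (μ := μ) (s := s) S η a (t q) τ (b (q + 1) - b q) (hb q).1 (hb q).2
      have e2 : b q + (b (q + 1) - b q) = b (q + 1) := by ring
      rw [e2] at h3
      rw [hτ', Finset.sum_range_succ, Real.exp_add]
      exact (mul_le_mul h1' h2' (Real.exp_nonneg _) (WR_nonneg _ _ _ _ _)).trans h3
    calc p ^ (q + 1) = p ^ q * p := pow_succ _ _
      _ ≤ (law μ).real A * (law μ).real B := mul_le_mul ih' hq' hp measureReal_nonneg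
      _ = (law μ).real (A ∩ B) := hAB.symm
      _ ≤ _ := measureReal_mono hsub (measure_ne_top _ _)

/-- THE LUCKY TUBE, every duration. -/
theorem tubeG (h : In μ s c C n₀) {d : ℝ} (hd : 0 < d) (K₁ K : ℝ) : ∃ p : ℝ, 0 < p ∧ ∃ n₁ : ℕ, ∀ N : ℕ, n₁ ≤ N → ∀ (a : Pt) (k : ℤ),
    |(k : ℝ) - sl μ s * N| ≤ K₁ * wd μ s N →
      p ≤ (law μ).real {η | Real.exp (K * EE μ s N) ≤ WR μ s (Tb a N k (d * wd μ s N)) η a N k} := by
  obtain ⟨α, Kw, hα, hα1, hKw, hw⟩ := Pool.Agent.W_7d29a1_HZ.wd'_pow h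
  obtain ⟨α₂, Ke, hα₂, hα₂1, hKe, hE⟩ := Pool.Agent.W_7d29a1_HZ.EE'_pow h
  obtain ⟨n₅, hn₅⟩ := Pool.Agent.W_7d29a1_HZ.wd'_eq h
  have hKw0 : 0 < Kw := lt_of_lt_of_le one_pos hKw
  have hKe0 : 0 < Ke := lt_of_lt_of_le one_pos hKe
  obtain ⟨K₂, hK₂⟩ : ∃ K₂ : ℝ, K₂ = max K₁ 0 := ⟨_, rfl⟩
  have hK₂0 : 0 ≤ K₂ := by rw [hK₂]; exact le_max_right _ _
  have hK₂1 : K₁ ≤ K₂ := by rw [hK₂]; exact le_max_left _ _
  obtain ⟨K₀, hK₀⟩ : ∃ K₀ : ℝ, K₀ = max K 0 := ⟨_, rfl⟩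
  have hK₀0 : 0 ≤ K₀ := by rw [hK₀]; exact le_max_right _ _
  have hK₀1 : K ≤ K₀ := by rw [hK₀]; exact le_max_left _ _
  obtain ⟨R, hR, hl⟩ := lane h 2 (by norm_num)
  -- the number of blocks
  obtain ⟨q, hq1, hq2⟩ : ∃ q : ℕ, 1 ≤ q ∧ (R + 2) * Kw ^ 2 * 2 / d + 4 * K₂ * Kw ^ 2 ≤ (q : ℝ) ^ α := by
    have h1 : Tendsto (fun j : ℕ => (j : ℝ) ^ α) atTop atTop := (tendsto_rpow_atTop hα).comp tendsto_natCast_atTop_atTop
    obtain ⟨Q, h2⟩ := ((h1.eventually_ge_atTop ((R + 2) * Kw ^ 2 * 2 / d + 4 * K₂ * Kw ^ 2)).and (eventually_ge_atTop 1)).exists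
    exact ⟨Q, h2.2, h2.1⟩
  have hqR : (1 : ℝ) ≤ q := by exact_mod_cast hq1
  obtain ⟨Kb, hKb⟩ : ∃ Kb : ℝ, Kb = K₀ * (Ke * Real.sqrt (2 * q)) * Ke := ⟨_, rfl⟩
  have hKb0 : 0 ≤ Kb := by rw [hKb]; positivity
  obtain ⟨p, hp, n₁, hl⟩ := hl Kb
  obtain ⟨n₂, hn₂⟩ := in_cone h K₂ hK₂0
  refine ⟨p ^ q, by positivity, q * (n₁ + n₂ + n₅ + 2), fun N hN a k hk => ?_⟩
  have hq0 : 0 < q := hq1
  obtain ⟨n, hn⟩ : ∃ n : ℕ, n = N / q := ⟨_, rfl⟩
  have hnN' : n₁ + n₂ + n₅ + 2 ≤ n := by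
    rw [hn]
    exact (Nat.le_div_iff_mul_le hq0).2 (by rw [mul_comm]; exact hN)
  have hn1 : 1 ≤ n := by omega
  have hnN : n ≤ N := by rw [hn]; exact Nat.div_le_self _ _
  have hN1 : 1 ≤ N := hn1.trans hnN
  obtain ⟨g1, g2, -⟩ := hn₅ N (by omega)
  rw [← g1] at hk ⊢
  rw [← g2]
  have hnR : (0 : ℝ) < n := by exact_mod_cast hn1
  have hNR : (0 : ℝ) < N := by exact_mod_cast hN1
  have hk' : |(k : ℝ) - sl μ s * N| ≤ K₂ * wd' μ s N :=
    hk.trans (mul_le_mul_of_nonneg_right hK₂1 (zero_le_one.trans (wd'_ge μ s N)))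
  have hqn : q * n ≤ N := by rw [hn]; exact Nat.mul_div_le _ _
  have hN2 : N ≤ 2 * q * n := by
    have h1 : N < q * (n + 1) := by rw [hn]; exact Nat.lt_mul_div_succ N hq0
    have h2 : q * (n + 1) ≤ 2 * q * n := by
      have : q * (n + 1) = q * n + q := by ring
      have h3 : q ≤ q * n := Nat.le_mul_of_pos_right _ hn1
      have h4 : 2 * q * n = q * n + q * n := by ring
      omega
    omega
  -- the rows
  obtain ⟨t, ht⟩ : ∃ t : ℕ → ℕ, t = fun i => i * N / q := ⟨_, rfl⟩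
  have t0 : t 0 = 0 := by rw [ht]; simp
  have tq : t q = N := by rw [ht]; exact Nat.mul_div_cancel_left N hq0
  have tm : ∀ i, t i ≤ t (i + 1) := fun i => by
    rw [ht]
    exact Nat.div_le_div_right (Nat.mul_le_mul_right _ (Nat.le_succ i))
  have tmm : ∀ i j, i ≤ j → t i ≤ t j := fun i j hij => by
    rw [ht]
    exact Nat.div_le_div_right (Nat.mul_le_mul_right _ hij)
  have td : ∀ i, n ≤ t (i + 1) - t i ∧ t (i + 1) - t i ≤ 2 * n := by
    intro i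
    have h1 : t i = i * N / q := by rw [ht]
    have h2 : t (i + 1) = (i * N + N) / q := by rw [ht]; simp only []; rw [Nat.succ_mul]
    have h3 : i * N / q + N / q ≤ (i * N + N) / q := Nat.div_add_div_le_add_div
    have h4 : (i * N + N) / q ≤ i * N / q + N / q + 1 := by
      rw [Nat.add_div hq0]
      split_ifs <;> omega
    rw [← hn] at h3 h4
    omega
  -- the powers
  obtain ⟨w1, w2, w3⟩ := hw n N hn1 hnN
  obtain ⟨e1, e2, e3⟩ := hE n N hn1 hnN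
  have hwn1 := wd'_ge μ s n
  have hwn0 : 0 ≤ wd' μ s n := zero_le_one.trans hwn1
  have hEn0 : 0 ≤ EE' μ s n := zero_le_one.trans (EE'_ge μ s n)
  have hEN0 : 0 ≤ EE' μ s N := zero_le_one.trans (EE'_ge μ s N)
  have hr1 : (q : ℝ) ≤ (N : ℝ) / n := by
    rw [le_div_iff₀ hnR]
    exact_mod_cast hqn
  have hr2 : (N : ℝ) / n ≤ 2 * q := by
    rw [div_le_iff₀ hnR]
    exact_mod_cast hN2
  -- the cone
  obtain ⟨hk0, hkN⟩ := hn₂ N (by omega) k hk'
  obtain ⟨v, hv⟩ : ∃ v : ℝ, v = (k : ℝ) / (N : ℝ) := ⟨_, rfl⟩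
  have hv0 : 0 ≤ v := by
    rw [hv]
    have : (0 : ℝ) ≤ k := by exact_mod_cast hk0
    positivity
  have hv1 : v ≤ 1 := by
    rw [hv, div_le_one hNR]
    exact_mod_cast hkN
  have hvN : v * N = k := by rw [hv]; field_simp
  -- the slope
  have hsl : Kw * (|v - sl μ s| * (2 * n)) ≤ wd' μ s n := by
    have h1 : |v - sl μ s| * N = |(k : ℝ) - sl μ s * N| := by
      have h2 : (k : ℝ) - sl μ s * N = (v - sl μ s) * N := by rw [← hvN]; ring
      rw [h2, abs_mul, abs_of_pos hNR]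
    have hd0 : 0 ≤ |v - sl μ s| := abs_nonneg _
    have h2 : q * (|v - sl μ s| * n) ≤ K₂ * wd' μ s N := by
      calc q * (|v - sl μ s| * n) = |v - sl μ s| * (q * n) := by ring
        _ ≤ |v - sl μ s| * N := by
            refine mul_le_mul_of_nonneg_left ?_ hd0
            exact_mod_cast hqn
        _ = |(k : ℝ) - sl μ s * N| := h1
        _ ≤ _ := hk'
    have h3 : ((N : ℝ) / n) ^ (1 - α) ≤ 2 * (q : ℝ) ^ (1 - α) := by
      calc ((N : ℝ) / n) ^ (1 - α) ≤ (2 * (q : ℝ)) ^ (1 - α) := Real.rpow_le_rpow (by positivity) hr2 (by linarith)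
        _ = (2 : ℝ) ^ (1 - α) * (q : ℝ) ^ (1 - α) := Real.mul_rpow (by norm_num) (by linarith)
        _ ≤ (2 : ℝ) ^ (1 : ℝ) * (q : ℝ) ^ (1 - α) := by
            refine mul_le_mul_of_nonneg_right ?_ (by positivity)
            exact Real.rpow_le_rpow_of_exponent_le (by norm_num) (by linarith)
        _ = _ := by rw [Real.rpow_one]
    have h4 : (q : ℝ) ^ (1 - α) * (q : ℝ) ^ α = q := by
      rw [← Real.rpow_add (by linarith)]
      simp
    have h5 : 4 * K₂ * Kw ^ 2 ≤ (q : ℝ) ^ α := by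
      have : 0 ≤ (R + 2) * Kw ^ 2 * 2 / d := by positivity
      linarith
    have h6 : 0 ≤ (q : ℝ) ^ (1 - α) := by positivity
    have h8 : wd' μ s N ≤ Kw * (2 * (q : ℝ) ^ (1 - α)) * wd' μ s n := w3.trans (by gcongr)
    have h7 : q * (Kw * (|v - sl μ s| * (2 * n))) ≤ q * wd' μ s n := by
      calc q * (Kw * (|v - sl μ s| * (2 * n))) = 2 * Kw * (q * (|v - sl μ s| * n)) := by ring
        _ ≤ 2 * Kw * (K₂ * wd' μ s N) := by gcongr
        _ ≤ 2 * Kw * (K₂ * (Kw * (2 * (q : ℝ) ^ (1 - α)) * wd' μ s n)) := by gcongr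
        _ = (q : ℝ) ^ (1 - α) * (4 * K₂ * Kw ^ 2) * wd' μ s n := by ring
        _ ≤ (q : ℝ) ^ (1 - α) * (q : ℝ) ^ α * wd' μ s n := by gcongr
        _ = q * wd' μ s n := by rw [h4]
    exact le_of_mul_le_mul_left h7 (by linarith)
  -- the width
  have hwid : (R * (2 * Kw) + 2) * wd' μ s n ≤ d * wd' μ s N := by
    have h1 : (R + 2) * Kw ^ 2 * 2 / d ≤ (q : ℝ) ^ α := by
      have : 0 ≤ 4 * K₂ * Kw ^ 2 := by positivity
      linarith
    rw [div_le_iff₀ hd] at h1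
    have h2 : (q : ℝ) ^ α ≤ ((N : ℝ) / n) ^ α := Real.rpow_le_rpow (by linarith) hr1 hα.le
    have h3 : ((N : ℝ) / n) ^ α * wd' μ s n ≤ Kw * wd' μ s N := by
      have h3 := mul_le_mul_of_nonneg_left w2 hKw0.le
      calc _ = Kw * (Kw⁻¹ * ((N : ℝ) / n) ^ α * wd' μ s n) := by field_simp
        _ ≤ _ := h3
    have h5 : R * (2 * Kw) + 2 ≤ (R + 2) * Kw * 2 := by
      have h6 : (R + 2) * Kw * 2 = R * (2 * Kw) + 4 * Kw := by ring
      linarith
    have h4 : Kw * ((R * (2 * Kw) + 2) * wd' μ s n) ≤ Kw * (d * wd' μ s N) := by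
      calc Kw * ((R * (2 * Kw) + 2) * wd' μ s n) ≤ Kw * (((R + 2) * Kw * 2) * wd' μ s n) := by gcongr
        _ = (R + 2) * Kw ^ 2 * 2 * wd' μ s n := by ring
        _ ≤ ((q : ℝ) ^ α * d) * wd' μ s n := by gcongr
        _ ≤ (((N : ℝ) / n) ^ α * d) * wd' μ s n := by gcongr
        _ = d * (((N : ℝ) / n) ^ α * wd' μ s n) := by ring
        _ ≤ d * (Kw * wd' μ s N) := by gcongr
        _ = _ := by ring
    exact le_of_mul_le_mul_left h4 hKw0
  -- the energy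
  have hen : Ke * (K * EE' μ s N) ≤ Kb * EE' μ s n := by
    have h0 : Real.sqrt ((N : ℝ) / n) ≤ Real.sqrt (2 * q) := Real.sqrt_le_sqrt hr2
    have h1 : K * EE' μ s N ≤ K₀ * (Ke * Real.sqrt ((N : ℝ) / n) * EE' μ s n) :=
        (mul_le_mul_of_nonneg_right hK₀1 hEN0).trans (mul_le_mul_of_nonneg_left e3 hK₀0)
    calc Ke * (K * EE' μ s N) ≤ Ke * (K₀ * (Ke * Real.sqrt ((N : ℝ) / n) * EE' μ s n)) := by gcongr
      _ ≤ Ke * (K₀ * (Ke * Real.sqrt (2 * q) * EE' μ s n)) := by gcongr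
      _ = Kb * EE' μ s n := by rw [hKb]; ring
  -- the heights
  obtain ⟨b, hb⟩ : ∃ b : ℕ → ℤ, b = fun i => ⌊v * (t i : ℝ)⌋ := ⟨_, rfl⟩
  have b0 : b 0 = 0 := by rw [hb]; simp [t0]
  have bq : b q = k := by
    rw [hb]
    simp only []
    rw [tq, hvN]
    exact Int.floor_intCast k
  have hbb : ∀ i, 0 ≤ b i ∧ b i ≤ (t i : ℤ) := by
    intro i
    rw [hb]
    have hl0 : (0 : ℝ) ≤ (t i : ℝ) := Nat.cast_nonneg _
    refine ⟨Int.floor_nonneg.2 (mul_nonneg hv0 hl0), ?_⟩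
    have h1 : v * (t i : ℝ) ≤ (t i : ℝ) := mul_le_of_le_one_left hl0 hv1
    have h2 := Int.floor_le_floor h1
    rwa [Int.floor_natCast] at h2
  have hmain := chainV (μ := μ) (s := s) (Tb a N k (d * wd' μ s N)) a t b t0 tm b0 hbb (p := p)
    (fun i => Kb * EE μ s (t (i + 1) - t i)) hp.le q (fun l hlq => by
      obtain ⟨d1, d2⟩ := td l
      obtain ⟨τ, hτ⟩ : ∃ τ : ℕ, τ = t (l + 1) - t l := ⟨_, rfl⟩
      rw [← hτ] at d1 d2 ⊢
      have hτt : t (l + 1) = t l + τ := by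
        have := tm l
        omega
      have hτ1 : 1 ≤ τ := hn1.trans d1
      obtain ⟨f1, f2, -⟩ := hn₅ τ (by omega)
      obtain ⟨u1, -, u3⟩ := hw n τ hn1 d1
      have hr3 : (τ : ℝ) / n ≤ 2 := by
        rw [div_le_iff₀ hnR]
        exact_mod_cast d2
      have hr4 : (1 : ℝ) ≤ (τ : ℝ) / n := by
        rw [le_div_iff₀ hnR, one_mul]
        exact_mod_cast d1
      have hwτ : wd' μ s τ ≤ 2 * Kw * wd' μ s n := by
        have h1 : ((τ : ℝ) / n) ^ (1 - α) ≤ 2 := by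
          calc ((τ : ℝ) / n) ^ (1 - α) ≤ ((τ : ℝ) / n) ^ (1 : ℝ) := Real.rpow_le_rpow_of_exponent_le hr4 (by linarith)
            _ = (τ : ℝ) / n := Real.rpow_one _
            _ ≤ 2 := hr3
        calc wd' μ s τ ≤ Kw * ((τ : ℝ) / n) ^ (1 - α) * wd' μ s n := u3
          _ ≤ Kw * 2 * wd' μ s n := by gcongr
          _ = _ := by ring
      obtain ⟨β, hβ⟩ : ∃ β : ℤ, β = b l := ⟨_, rfl⟩
      obtain ⟨β', hβ'⟩ : ∃ β' : ℤ, β' = b (l + 1) := ⟨_, rfl⟩
      have hβ1 : (β : ℝ) ≤ v * (t l : ℝ) := by rw [hβ, hb]; exact Int.floor_le _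
      have hβ2 : v * (t l : ℝ) < β + 1 := by rw [hβ, hb]; exact Int.lt_floor_add_one _
      have hβ3 : (β' : ℝ) ≤ v * (t (l + 1) : ℝ) := by rw [hβ', hb]; exact Int.floor_le _
      have hβ4 : v * (t (l + 1) : ℝ) < β' + 1 := by rw [hβ', hb]; exact Int.lt_floor_add_one _
      rw [hτt] at hβ3 hβ4
      push_cast at hβ3 hβ4
      rw [← hβ, ← hβ']
      have hτR : (0 : ℝ) < τ := by exact_mod_cast hτ1
      have hτR2 : (τ : ℝ) ≤ 2 * n := by exact_mod_cast d2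
      have hslτ : Kw * (|v - sl μ s| * τ) ≤ wd' μ s n :=
        (mul_le_mul_of_nonneg_left (mul_le_mul_of_nonneg_left hτR2 (abs_nonneg _)) hKw0.le).trans hsl
      have hslτ' : |v - sl μ s| * τ ≤ wd' μ s τ := le_of_mul_le_mul_left (hslτ.trans u1) hKw0
      have hslτ'' : |v - sl μ s| * τ ≤ wd' μ s n := by
        refine le_trans ?_ hslτ
        have h1 : 0 ≤ |v - sl μ s| * τ := by positivity
        exact le_mul_of_one_le_left h1 hKw
      have hstep : |((β' - β : ℤ) : ℝ) - sl μ s * τ| ≤ 1 + |v - sl μ s| * τ := by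
        have e4 : ((β' - β : ℤ) : ℝ) - sl μ s * τ = ((β' : ℝ) - β - v * τ) + (v - sl μ s) * τ := by
          push_cast
          ring
        rw [e4]
        refine (abs_add_le _ _).trans (add_le_add ?_ (le_of_eq ?_))
        · rw [abs_le]
          constructor <;> linarith
        · rw [abs_mul, abs_of_pos hτR]
      have h2 := hl τ (by omega) (a.1 + (t l : ℤ), a.2 + β) (β' - β) (by
        rw [← f1]
        have := wd'_ge μ s τ
        linarith)
      refine h2.trans (measureReal_mono (fun η hη => ?_) (measure_ne_top _ _))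
      have h3 : Real.exp (Kb * EE μ s τ) ≤ WR μ s (St μ s (R * wd μ s τ) (a.1 + (t l : ℤ), a.2 + β)) η
        (a.1 + (t l : ℤ), a.2 + β) τ (β' - β) := hη
      refine h3.trans (Pool.Agent.W_7d29a1_HS.WR_mono_on η _ _ _ fun P hP hP1 hP2 => ?_)
      have h4 : |((P.2 - (a.2 + β) : ℤ) : ℝ) - sl μ s * ((P.1 - (a.1 + (t l : ℤ)) : ℤ) : ℝ)| ≤ R * wd μ s τ := hP
      have h5 : a.1 + (t l : ℤ) < P.1 := hP1
      have h6 : P.1 ≤ a.1 + (t l : ℤ) + (τ : ℤ) := hP2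
      have h7 : t (l + 1) ≤ N := by
        rw [← tq]
        exact tmm _ _ hlq
      refine ⟨by omega, by omega, ?_⟩
      rw [← hv]
      obtain ⟨u, hu⟩ : ∃ u : ℝ, u = ((P.1 - (a.1 + (t l : ℤ)) : ℤ) : ℝ) := ⟨_, rfl⟩
      have hu0 : 0 ≤ u := by
        rw [hu]
        have : 0 ≤ P.1 - (a.1 + (t l : ℤ)) := by omega
        exact_mod_cast this
      have hu1 : u ≤ τ := by
        rw [hu]
        have h8 : P.1 - (a.1 + (t l : ℤ)) ≤ (τ : ℤ) := by omega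
        exact_mod_cast h8
      have e5 : ((P.2 - a.2 : ℤ) : ℝ) - v * ((P.1 - a.1 : ℤ) : ℝ) =
          (((P.2 - (a.2 + β) : ℤ) : ℝ) - sl μ s * u) + ((β : ℝ) - v * (t l : ℝ)) + (sl μ s - v) * u := by
        rw [hu]
        push_cast
        ring
      rw [← hu] at h4
      rw [e5]
      refine (abs_add_le _ _).trans ?_
      have h9 : |(((P.2 - (a.2 + β) : ℤ) : ℝ) - sl μ s * u) + ((β : ℝ) - v * (t l : ℝ))| ≤ R * wd μ s τ + 1 := by
        refine (abs_add_le _ _).trans (add_le_add h4 ?_)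
        rw [abs_le]
        constructor <;> linarith
      have h10 : |(sl μ s - v) * u| ≤ wd' μ s n := by
        rw [abs_mul, abs_sub_comm, abs_of_nonneg hu0]
        exact (mul_le_mul_of_nonneg_left hu1 (abs_nonneg _)).trans hslτ''
      have h11 : R * wd μ s τ ≤ R * (2 * Kw * wd' μ s n) := by
        rw [← f1]
        exact mul_le_mul_of_nonneg_left hwτ (by linarith)
      have h12 : (R * (2 * Kw) + 2) * wd' μ s n = R * (2 * Kw * wd' μ s n) + wd' μ s n + wd' μ s n := by ring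
      linarith)
  rw [tq, bq] at hmain
  refine hmain.trans (measureReal_mono (fun η hη => ?_) (measure_ne_top _ _))
  rw [Set.mem_ofPred_eq] at hη ⊢
  refine le_trans (Real.exp_le_exp.2 ?_) hη
  have h1 : Kb * EE μ s (t (0 + 1) - t 0) ≤ ∑ i ∈ Finset.range q, Kb * EE μ s (t (i + 1) - t i) :=
    Finset.single_le_sum (f := fun i => Kb * EE μ s (t (i + 1) - t i))
      (fun i _ => mul_nonneg hKb0 (zero_le_one.trans (one_le_EE _))) (Finset.mem_range.2 hq0)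
  refine le_trans ?_ h1
  obtain ⟨d1, d2⟩ := td 0
  obtain ⟨τ, hτ⟩ : ∃ τ : ℕ, τ = t (0 + 1) - t 0 := ⟨_, rfl⟩
  rw [← hτ] at d1 d2 ⊢
  obtain ⟨f1, f2, -⟩ := hn₅ τ (by omega)
  rw [← f2]
  have h2 : EE' μ s n ≤ Ke * EE' μ s τ := (hE n τ hn1 d1).1
  have h3 : Ke * (K * EE' μ s N) ≤ Ke * (Kb * EE' μ s τ) := by
    refine hen.trans ?_
    calc Kb * EE' μ s n ≤ Kb * (Ke * EE' μ s τ) := mul_le_mul_of_nonneg_left h2 hKb0
      _ = _ := by ring
  exact le_of_mul_le_mul_left h3 hKe0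

end

end Pool.Agent.W_7d29a1_C1.T71
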