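import Pool.Agent.W_7d29a1_C1.BlkB12
import Pool.Agent.W_7d29a1_C1.BlkI12
import Pool.Agent.W_7d29a1_C1.Leg12
import Pool.Agent.W_7d29a1_C1.TubeG71

/-!
MP_7d29a1_pr, [C1] slab lemma, tuned form (F5): **THE BLOCK EVENT** (good blocks of one or two lanes). (helper12)
-/

set_option autoImplicit false

namespace Pool.Agent.W_7d29a1_C1.B12

open MeasureTheory ProbabilityTheory Filter Topology
open Pool.Agent.W_7d29a1_F Pool.Agent.W_7d29a1_h4g Pool.Agent.W_7d29a1_H Pool.Agent.W_7d29a1_HS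
open Pool.Agent.W_7d29a1_HL (WR_mono')
open Pool.Agent.W_7d29a1_C1.F31 (DecO FinO)
open Pool.Agent.W_7d29a1_C1.H75 (hc hc_nonneg hc_wd)

noncomputable section

variable {μ : Measure ℝ} {s : ℝ} {m : ℕ}

/-- The core of a block: the lucky lane, the levels near the lane and off the lane. -/
def Co (μ : Measure ℝ) (s c : ℝ) (m : ℕ) (y : ℤ) (ρ ρ' ω α U xA xB : ℝ) : Set Env :=
  BA μ s m y ρ xA ∩ BB μ s m ρ' ω xB ∩ BC μ s m ρ ω α (hc μ s c m) (U * EE μ s m)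

theorem meas_Co {c : ℝ} {y : ℤ} {ρ ρ' ω α U xA xB : ℝ} : MeasurableSet (Co μ s c m y ρ ρ' ω α U xA xB) :=
  (meas_BA.inter meas_BB).inter meas_BC

theorem St_mono {r r' : ℝ} (h : r ≤ r') (a : Pt) : St μ s r a ⊆ St μ s r' a := fun _ hq => le_trans hq h

theorem on_Co [IsProbabilityMeasure μ] {c : ℝ} {y : ℤ} {ρ ρ' ω α U xA xB : ℝ} (hρω : ρ ≤ ω) :
    On (St μ s ω 0 ∩ rows 0 m) (Co μ s c m y ρ ρ' ω α U xA xB) :=
  ((on_BA.mono (Set.inter_subset_inter_left _ (St_mono hρω 0))).inter on_BB).inter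
    (on_BC.mono (Set.inter_subset_inter_left _ Set.sdiff_subset))

/-- Disjoint strips: the cores of several lanes are independent. -/
theorem lanes [IsProbabilityMeasure μ] {ω : ℝ} {ι : Type} [Fintype ι] {E : ι → Set Env} (mE : ∀ i, MeasurableSet (E i))
    (oE : ∀ i, On (St μ s ω 0 ∩ rows 0 m) (E i)) {p : ℝ} (hp : 0 ≤ p) (hE : ∀ i, p ≤ (law μ).real (E i)) (t₀ : ℤ) (a : ι → ℤ)
    (hsep : ∀ i i', i ≠ i' → 2 * ω < |(a i : ℝ) - a i'|) :
    p ^ Fintype.card ι ≤ (law μ).real (⋂ i, {η | sh (t₀, a i) η ∈ E i}) := by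
  classical
  have h1 := indep_events (μ := μ) (Finset.univ : Finset ι) (fun i => {η | sh (t₀, a i) η ∈ E i})
    (fun i => {q : Pt | q - (t₀, a i) ∈ St μ s ω 0}) (fun i _ => (mp_sh (μ := μ) (t₀, a i)).measurable (mE i))
    (fun i _ η η' hh => by
      refine oE i _ _ fun q hq => ?_
      show η (q + (t₀, a i)) = η' (q + (t₀, a i))
      refine hh _ ?_
      show q + (t₀, a i) - (t₀, a i) ∈ St μ s ω 0
      rw [add_sub_cancel_right]
      exact hq.1) (fun i _ j _ hij => by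
      rw [Set.disjoint_left]
      intro q hq1 hq2
      have h2 : |(((q - (t₀, a i)).2 - (0 : Pt).2 : ℤ) : ℝ) - sl μ s * (((q - (t₀, a i)).1 - (0 : Pt).1 : ℤ) : ℝ)| ≤ ω := hq1
      have h3 : |(((q - (t₀, a j)).2 - (0 : Pt).2 : ℤ) : ℝ) - sl μ s * (((q - (t₀, a j)).1 - (0 : Pt).1 : ℤ) : ℝ)| ≤ ω := hq2
      have e1 : ∀ b : ℤ, (((q - (t₀, b)).2 - (0 : Pt).2 : ℤ) : ℝ) = (q.2 : ℝ) - b := fun b => by
        show (((q.2 - b) - 0 : ℤ) : ℝ) = _
        push_cast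
        ring
      have e2 : ∀ b : ℤ, (((q - (t₀, b)).1 - (0 : Pt).1 : ℤ) : ℝ) = (q.1 : ℝ) - t₀ := fun b => by
        show (((q.1 - t₀) - 0 : ℤ) : ℝ) = _
        push_cast
        ring
      rw [e1, e2] at h2 h3
      have h4 := hsep i j hij
      have h5 : |(a i : ℝ) - a j| ≤ 2 * ω := by
        rw [abs_le] at h2 h3 ⊢
        constructor <;> linarith [h2.1, h2.2, h3.1, h3.2]
      linarith)
  have e3 : {η : Env | ∀ i ∈ (Finset.univ : Finset ι), η ∈ {η | sh (t₀, a i) η ∈ E i}} = ⋂ i, {η | sh (t₀, a i) η ∈ E i} := by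
    ext η
    simp only [Set.mem_iInter, Finset.mem_univ, true_implies]
    exact Iff.rfl
  rw [e3] at h1
  rw [h1]
  have h2 : ∀ i ∈ (Finset.univ : Finset ι), p ≤ (law μ).real {η | sh (t₀, a i) η ∈ E i} := fun i _ => by
    rw [real_sh (μ := μ) (t₀, a i) (mE i)]
    exact hE i
  have h3 := Finset.prod_le_prod (s := (Finset.univ : Finset ι)) (f := fun _ => p) (fun _ _ => hp) h2
  rw [Finset.prod_const, Finset.card_univ] at h3
  exact h3

/-- The legs. -/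
theorem BD_prob [IsProbabilityMeasure μ] {y ρ₂ : ℤ} {C₃ q x ω₂ : ℝ}
    (hleg : ∀ (a : Pt) (y : ℤ), |(y : ℝ) - sl μ s * m| ≤ C₃ * wd μ s m →
      (law μ).real {η | WR μ s (St μ s ((C₃ + 1) * wd μ s m) a) η a m y < Real.exp (-x)} ≤ q)
    (hy : |(y : ℝ) - sl μ s * m| + |(ρ₂ : ℝ)| ≤ C₃ * wd μ s m) (hω : (C₃ + 1) * wd μ s m + |(ρ₂ : ℝ)| ≤ ω₂) :
    (law μ).real (BD μ s m y ρ₂ ω₂ x)ᶜ ≤ 4 * q := by
  have hg : ∀ g : ℤ, (g = ρ₂ ∨ g = -ρ₂) → |(g : ℝ)| = |(ρ₂ : ℝ)| := by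
    rintro g (rfl | rfl)
    · rfl
    · push_cast
      rw [abs_neg]
  -- one start, one displacement
  have h1 : ∀ g : ℤ, (g = ρ₂ ∨ g = -ρ₂) →
      (law μ).real {η | WR μ s (St μ s ω₂ 0) η ((0 : ℤ), g) m (y - g) < Real.exp (-x)} ≤ q := by
    intro g hg'
    refine (measureReal_mono (fun η hη => ?_) (measure_ne_top _ _)).trans (hleg ((0 : ℤ), g) (y - g) ?_)
    · rw [Set.mem_ofPred_eq] at hη ⊢
      refine lt_of_le_of_lt (WR_mono' ?_ η _ m _) hη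
      intro p hp
      have hp' : |((p.2 - g : ℤ) : ℝ) - sl μ s * ((p.1 - 0 : ℤ) : ℝ)| ≤ (C₃ + 1) * wd μ s m := hp
      show |((p.2 - 0 : ℤ) : ℝ) - sl μ s * ((p.1 - 0 : ℤ) : ℝ)| ≤ ω₂
      have h2 := hg g hg'
      have e1 : ((p.2 - 0 : ℤ) : ℝ) - sl μ s * ((p.1 - 0 : ℤ) : ℝ) =
          (((p.2 - g : ℤ) : ℝ) - sl μ s * ((p.1 - 0 : ℤ) : ℝ)) + g := by push_cast; ring
      rw [e1]
      refine (abs_add_le _ _).trans ?_
      rw [h2]
      linarith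
    · have h2 := hg g hg'
      have e1 : ((y - g : ℤ) : ℝ) - sl μ s * m = ((y : ℝ) - sl μ s * m) - g := by push_cast; ring
      rw [e1]
      refine (abs_sub _ _).trans ?_
      rw [h2]
      exact hy
  have h2 : ∀ g : ℤ, (g = ρ₂ ∨ g = -ρ₂) →
      (law μ).real {η | WR μ s (St μ s ω₂ 0) η 0 m (y + g) < Real.exp (-x)} ≤ q := by
    intro g hg'
    refine (measureReal_mono (fun η hη => ?_) (measure_ne_top _ _)).trans (hleg 0 (y + g) ?_)
    · rw [Set.mem_ofPred_eq] at hη ⊢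
      refine lt_of_le_of_lt (WR_mono' (St_mono ?_ 0) η _ m _) hη
      have := abs_nonneg (ρ₂ : ℝ)
      linarith
    · have h2 := hg g hg'
      have e1 : ((y + g : ℤ) : ℝ) - sl μ s * m = ((y : ℝ) - sl μ s * m) + g := by push_cast; ring
      rw [e1]
      refine (abs_add_le _ _).trans ?_
      rw [h2]
      exact hy
  have hsub : (BD μ s m y ρ₂ ω₂ x)ᶜ ⊆
      ({η | WR μ s (St μ s ω₂ 0) η ((0 : ℤ), ρ₂) m (y - ρ₂) < Real.exp (-x)} ∪
        {η | WR μ s (St μ s ω₂ 0) η ((0 : ℤ), -ρ₂) m (y - -ρ₂) < Real.exp (-x)}) ∪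
      ({η | WR μ s (St μ s ω₂ 0) η 0 m (y + ρ₂) < Real.exp (-x)} ∪
        {η | WR μ s (St μ s ω₂ 0) η 0 m (y + -ρ₂) < Real.exp (-x)}) := by
    intro η hη
    by_contra hcon
    simp only [Set.mem_union, Set.mem_ofPred_eq, not_or, not_lt] at hcon
    refine hη ?_
    rintro g (rfl | rfl)
    · exact ⟨hcon.1.1, hcon.2.1⟩
    · exact ⟨hcon.1.2, hcon.2.2⟩
  have h3 := measureReal_mono (μ := law μ) hsub (measure_ne_top _ _)
  have h4 := measureReal_union_le (μ := law μ)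
      ({η | WR μ s (St μ s ω₂ 0) η ((0 : ℤ), ρ₂) m (y - ρ₂) < Real.exp (-x)} ∪
        {η | WR μ s (St μ s ω₂ 0) η ((0 : ℤ), -ρ₂) m (y - -ρ₂) < Real.exp (-x)})
      ({η | WR μ s (St μ s ω₂ 0) η 0 m (y + ρ₂) < Real.exp (-x)} ∪
        {η | WR μ s (St μ s ω₂ 0) η 0 m (y + -ρ₂) < Real.exp (-x)})
  have h5 := measureReal_union_le (μ := law μ)
      {η | WR μ s (St μ s ω₂ 0) η ((0 : ℤ), ρ₂) m (y - ρ₂) < Real.exp (-x)}
      {η | WR μ s (St μ s ω₂ 0) η ((0 : ℤ), -ρ₂) m (y - -ρ₂) < Real.exp (-x)}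
  have h6 := measureReal_union_le (μ := law μ)
      {η | WR μ s (St μ s ω₂ 0) η 0 m (y + ρ₂) < Real.exp (-x)}
      {η | WR μ s (St μ s ω₂ 0) η 0 m (y + -ρ₂) < Real.exp (-x)}
  have a1 := h1 ρ₂ (Or.inl rfl)
  have a2 := h1 (-ρ₂) (Or.inr rfl)
  have a3 := h2 ρ₂ (Or.inl rfl)
  have a4 := h2 (-ρ₂) (Or.inr rfl)
  linarith

theorem lev12 {C : ℝ} (hC : 1 ≤ C) {e : ℝ} (he : 0 < e) : ∃ x : ℝ, 0 ≤ x ∧ 30 * C * Real.exp (-(x / C)) ≤ e := by
  have hC0 : 0 < C := by linarith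
  obtain ⟨r, hr⟩ : ∃ r : ℝ, r = 30 * C / e := ⟨_, rfl⟩
  have hr0 : 0 < r := by rw [hr]; positivity
  refine ⟨C * max (Real.log r) 0, by positivity, ?_⟩
  rw [mul_div_cancel_left₀ _ hC0.ne']
  have h1 : Real.exp (-(max (Real.log r) 0)) ≤ 1 / r := by
    rw [one_div, ← Real.exp_log hr0, ← Real.exp_neg, Real.exp_log hr0]
    exact Real.exp_le_exp.2 (neg_le_neg (le_max_left _ _))
  refine (mul_le_mul_of_nonneg_left h1 (by positivity)).trans (le_of_eq ?_)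
  rw [hr]
  field_simp

/-- The lucky tube is in the strip. -/
theorem tb_sub {y : ℤ} {w : ℝ} (hm1 : 1 ≤ m) (hw0 : 0 ≤ w) (hy : |(y : ℝ) - sl μ s * m| ≤ w) :
    T71.Tb 0 m y (1 * w) ⊆ St μ s (2 * w) 0 := by
  intro q hq
  obtain ⟨hq1, hq2, hq3⟩ := hq
  have hq1' : (0 : ℝ) < q.1 := by
    have : (0 : ℤ) < q.1 := hq1
    exact_mod_cast this
  have hq2' : (q.1 : ℝ) ≤ m := by
    have h2 : q.1 ≤ (0 : ℤ) + m := hq2
    rw [zero_add] at h2
    exact_mod_cast h2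
  have hq3' : |(q.2 : ℝ) - (y : ℝ) / m * q.1| ≤ w := by
    have h2 : |((q.2 - 0 : ℤ) : ℝ) - (y : ℝ) / (m : ℝ) * ((q.1 - 0 : ℤ) : ℝ)| ≤ 1 * w := hq3
    rw [sub_zero, sub_zero, one_mul] at h2
    exact h2
  show |((q.2 - 0 : ℤ) : ℝ) - sl μ s * ((q.1 - 0 : ℤ) : ℝ)| ≤ 2 * w
  rw [sub_zero, sub_zero]
  have hm' : (0 : ℝ) < m := by exact_mod_cast hm1
  have h4 : |((y : ℝ) / m - sl μ s) * q.1| ≤ w := by
    have e1 : ((y : ℝ) / m - sl μ s) * q.1 = ((y : ℝ) - sl μ s * m) * (q.1 / m) := by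
      field_simp
    rw [e1, abs_mul, abs_of_nonneg (div_nonneg hq1'.le hm'.le)]
    have h5 : (q.1 : ℝ) / m ≤ 1 := by rw [div_le_one hm']; exact hq2'
    calc |(y : ℝ) - sl μ s * m| * ((q.1 : ℝ) / m) ≤ w * 1 :=
          mul_le_mul hy h5 (div_nonneg hq1'.le hm'.le) hw0
      _ = w := mul_one w
  have e2 : (q.2 : ℝ) - sl μ s * q.1 = ((q.2 : ℝ) - (y : ℝ) / m * q.1) + ((y : ℝ) / m - sl μ s) * q.1 := by ring
  rw [e2]
  refine (abs_add_le _ _).trans ?_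
  linarith

/-- The core of one type. -/
theorem core_type [IsProbabilityMeasure μ] {c C : ℝ} {n₀ : ℕ} (h : In μ s c C n₀) (hm : n₀ ≤ m) (hm1 : 1 ≤ m) (A : ℕ)
    {U k p x ω : ℝ} {y : ℤ} (_hp : 0 < p) (hU : 12 * C * Real.exp (-(U / C)) ≤ 1 / 2)
    (hx : 30 * C * Real.exp (-(x / C)) ≤ p / 2) (hw1 : 1 ≤ wd μ s m) (hy : |(y : ℝ) - sl μ s * m| ≤ wd μ s m)
    (hk : p ≤ (law μ).real {η | Real.exp (k * EE μ s m) ≤ WR μ s (T71.Tb 0 m y (1 * wd μ s m)) η 0 m y}) :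
    p / 2 * (1 / 2 : ℝ) ^ (2 * A + 1) ≤ (law μ).real (Co μ s c m y (2 * wd μ s m) (2 * wd μ s m + 2) ω (A * wd μ s m) U
      (k * EE μ s m) (x * EE μ s m)) := by
  have hC0 : 0 < C := lt_of_lt_of_le one_pos h.C1
  have hE := EE_pos (μ := μ) (s := s) m
  have hw0 : 0 < wd μ s m := by linarith
  refine core_prob (μ := μ) (s := s) (m := m) (y := y) (ρ := 2 * wd μ s m) (ρ' := 2 * wd μ s m + 2) (ω := ω) h hm hm1 A (U := U)
    (pA := p) (xA := k * EE μ s m) (xB := x * EE μ s m) (by linarith) hU ?_ ?_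
  · refine hk.trans (measureReal_mono (fun η hη => ?_) (measure_ne_top _ _))
    exact le_trans hη (WR_mono' (tb_sub hm1 hw0.le hy) η _ m y)
  · have e1 : x * EE μ s m / (C * EE μ s m) = x / C := by field_simp
    rw [e1]
    have h2 : 2 * (2 * wd μ s m + 2) / wd μ s m ≤ 8 := by
      rw [div_le_iff₀ hw0]
      linarith
    have h3 : 0 < C * Real.exp (-(x / C)) := by positivity
    have h4 := mul_le_mul_of_nonneg_right (show 2 * (2 * wd μ s m + 2) / wd μ s m + 2 ≤ 10 by linarith) h3.le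
    linarith

/-- **THE BLOCK EVENT.** -/
theorem blk12 [IsProbabilityMeasure μ] {c C : ℝ} {n₀ : ℕ} (h : In μ s c C n₀) : Blk μ s := by
  intro g hg
  have hC1 := h.C1
  have hC0 : 0 < C := by linarith
  have hc0 := h.c0
  -- the universal level off the lane
  obtain ⟨U, hU0, hU⟩ := lev12 hC1 (e := 1 / 2) (by norm_num)
  have hU' : 12 * C * Real.exp (-(U / C)) ≤ 1 / 2 := by
    have : 0 < C * Real.exp (-(U / C)) := by positivity
    linarith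
  obtain ⟨C', hC'⟩ : ∃ C' : ℝ, C' = 2 * C + 4 := ⟨_, rfl⟩
  obtain ⟨k₀, hk₀⟩ : ∃ k₀ : ℝ, k₀ = U + C' := ⟨_, rfl⟩
  obtain ⟨k₁, hk₁⟩ : ∃ k₁ : ℝ, k₁ = k₀ + g := ⟨_, rfl⟩
  -- low type
  obtain ⟨p₁, hp₁, n1, ht1⟩ := T71.tubeG h one_pos 1 k₁
  obtain ⟨xL, hxL0, hxL⟩ := lev12 hC1 (e := p₁ / 2) (by positivity)
  obtain ⟨KL, hKL⟩ : ∃ KL : ℝ, KL = max (U + xL + C') k₁ := ⟨_, rfl⟩
  -- up type
  obtain ⟨k₃, hk₃⟩ : ∃ k₃ : ℝ, k₃ = KL + 1 := ⟨_, rfl⟩
  obtain ⟨p₃, hp₃, n2, ht3⟩ := T71.tubeG h one_pos 1 k₃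
  obtain ⟨xU, hxU0, hxU⟩ := lev12 hC1 (e := p₃ / 2) (by positivity)
  obtain ⟨KU, hKU⟩ : ∃ KU : ℝ, KU = max (U + xU + C') k₃ := ⟨_, rfl⟩
  -- widths
  obtain ⟨R₂, hR₂⟩ : ∃ R₂ : ℝ, R₂ = 4 + (xL + xU) / c := ⟨_, rfl⟩
  have hR₂4 : 4 ≤ R₂ := by
    rw [hR₂]
    have : 0 ≤ (xL + xU) / c := by positivity
    linarith
  have hcR : c * (R₂ - 4) = xL + xU := by
    rw [hR₂]
    field_simp
    ring
  obtain ⟨Rp, hRp⟩ : ∃ Rp : ℝ, Rp = 2 * R₂ + 4 := ⟨_, rfl⟩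
  obtain ⟨A, hA⟩ : ∃ A : ℕ, A = ⌈Rp⌉₊ + 8 := ⟨_, rfl⟩
  have hRA : Rp + 8 ≤ A := by
    rw [hA]
    push_cast
    linarith [Nat.le_ceil Rp]
  -- probabilities
  obtain ⟨r, hr⟩ : ∃ r : ℝ, r = (1 / 2 : ℝ) ^ (2 * A + 1) := ⟨_, rfl⟩
  have hr0 : 0 < r := by rw [hr]; positivity
  obtain ⟨pm, hpm⟩ : ∃ pm : ℝ, pm = min (min (p₁ / 2 * r) (p₃ / 2 * r)) 1 := ⟨_, rfl⟩
  have hpm0 : 0 < pm := by rw [hpm]; positivity
  have hpm1 : pm ≤ 1 := by rw [hpm]; exact min_le_right _ _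
  have hpmL : pm ≤ p₁ / 2 * r := by rw [hpm]; exact (min_le_left _ _).trans (min_le_left _ _)
  have hpmU : pm ≤ p₃ / 2 * r := by rw [hpm]; exact (min_le_left _ _).trans (min_le_right _ _)
  obtain ⟨pt, hpt⟩ : ∃ pt : ℝ, pt = pm ^ 2 := ⟨_, rfl⟩
  have hpt0 : 0 < pt := by rw [hpt]; positivity
  obtain ⟨K₃, U', hK₃, -, n3, hUE⟩ := upexit20 h (K := A) (G := 0) (eps := pt / 16) (Nat.cast_nonneg _) le_rfl (by positivity)
  obtain ⟨c₄, hc₄, n4, hleg⟩ := H12.leg12 h (C₃ := R₂ + 2) (q := pt / 64) (by linarith) (by positivity)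
  obtain ⟨n5, hn5⟩ := eventually_atTop.1 ((wd_tendsto h).eventually_ge_atTop 1)
  refine ⟨k₀, k₁, k₃, KL, KU, c₄, A, Rp, 2 * K₃ + 1, pt / 2, by rw [hk₀]; linarith, by rw [hk₁], by rw [hKL]; exact le_max_right _ _,
    by rw [hk₃], by rw [hKU]; exact le_max_right _ _, hc₄, by linarith, hRA, by linarith, by positivity,
    max (max (max n1 n2) (max n3 n4)) (max n5 (max n₀ 1)), fun m hm => ?_⟩
  simp only [max_le_iff] at hm
  obtain ⟨⟨⟨hmn1, hmn2⟩, hmn3, hmn4⟩, hmn5, hmn0, hm1⟩ := hm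
  obtain ⟨w, hw⟩ : ∃ w : ℝ, w = wd μ s m := ⟨_, rfl⟩
  obtain ⟨E, hE⟩ : ∃ E : ℝ, E = EE μ s m := ⟨_, rfl⟩
  have hw1 : 1 ≤ w := by rw [hw]; exact hn5 m hmn5
  have hw0 : 0 < w := by linarith
  have hE1 : 1 ≤ E := by rw [hE]; exact one_le_EE m
  have hE0 : 0 < E := by linarith
  have hsl0 := h.sl_pos
  have hsl1 := h.sl_lt
  have hlog : 2 * Real.log (m + 2) ≤ C' * E := by
    have hm' : (1 : ℝ) ≤ m := by exact_mod_cast hm1
    have h1 : Real.log (m + 2) ≤ Real.log (3 * m) := Real.log_le_log (by linarith) (by linarith)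
    rw [Real.log_mul (by norm_num) (by linarith)] at h1
    have h2 := h.lg m hm1
    rw [← hE] at h2
    have h3 : Real.log 3 ≤ 2 := by
      have := Real.log_le_sub_one_of_pos (show (0 : ℝ) < 3 by norm_num)
      linarith
    rw [hC']
    linarith
  obtain ⟨ρ₂, hρ₂⟩ : ∃ ρ₂ : ℤ, ρ₂ = ⌈R₂ * w⌉ := ⟨_, rfl⟩
  have hρlo : R₂ * w ≤ ρ₂ := by rw [hρ₂]; exact Int.le_ceil _
  have hρhi : (ρ₂ : ℝ) ≤ R₂ * w + 1 := by rw [hρ₂]; exact (Int.ceil_lt_add_one _).le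
  have hRw : 4 * 1 ≤ R₂ * w := mul_le_mul hR₂4 hw1 zero_le_one (by linarith)
  have hρ0 : (4 : ℝ) ≤ ρ₂ := by linarith
  have hρabs : |(ρ₂ : ℝ)| = ρ₂ := abs_of_nonneg (by linarith)
  obtain ⟨hcE, hhcE⟩ : ∃ hcE : ℝ, hcE = hc μ s c m := ⟨_, rfl⟩
  have hh0 : 0 ≤ hcE := by rw [hhcE]; exact hc_nonneg h m
  have hhw : hcE * w = c * E := by rw [hhcE, hw, hE]; exact hc_wd h hm1
  -- the events
  obtain ⟨Core, hCore⟩ : ∃ Core : Bool → ℤ → Set Env, Core = fun τ y => Co μ s c m y (2 * w) (2 * w + 2) (K₃ * w) (A * w) U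
      (lv τ k₁ k₃ * E) (lv τ xL xU * E) := ⟨_, rfl⟩
  obtain ⟨Ex, hEx⟩ : ∃ Ex : Set Env, Ex = {η | EXIT20 μ s (A * w) (K₃ * w) m 0 η} := ⟨_, rfl⟩
  obtain ⟨Lg, hLg⟩ : ∃ Lg : ℤ → Set Env, Lg = fun y => BD μ s m y ρ₂ (Rp * w) (c₄ * E) := ⟨_, rfl⟩
  have hK₃0 : 2 ≤ K₃ := by
    have : (8 : ℝ) ≤ A := by
      have : 0 ≤ Rp := by linarith
      linarith
    linarith
  have mCore : ∀ τ y, MeasurableSet (Core τ y) := fun τ y => by rw [hCore]; exact meas_Co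
  have oCore : ∀ τ y, On (St μ s (K₃ * w) 0 ∩ rows 0 m) (Core τ y) := fun τ y => by
    rw [hCore]
    exact on_Co (mul_le_mul_of_nonneg_right hK₃0 hw0.le)
  have mEx : MeasurableSet Ex := by rw [hEx]; exact meas_EXIT20 _ _ _ _
  have mLg : ∀ y, MeasurableSet (Lg y) := fun y => by rw [hLg]; exact meas_BD
  -- one core
  have pCore : ∀ (τ : Bool) (y : ℤ), |(y : ℝ) - sl μ s * m| ≤ w → pm ≤ (law μ).real (Core τ y) := by
    intro τ y hy
    rw [hCore]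
    rcases τ with _ | _
    · refine hpmL.trans ?_
      have h1 := core_type (μ := μ) (s := s) (ω := K₃ * w) (y := y) h hmn0 hm1 A hp₁ hU' hxL (by rw [← hw]; exact hw1)
        (by rw [← hw]; exact hy) (ht1 m hmn1 0 y (by rw [one_mul, ← hw]; exact hy))
      rw [← hw, ← hE, ← hr] at h1
      exact h1
    · refine hpmU.trans ?_
      have h1 := core_type (μ := μ) (s := s) (ω := K₃ * w) (y := y) h hmn0 hm1 A hp₃ hU' hxU (by rw [← hw]; exact hw1)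
        (by rw [← hw]; exact hy) (ht3 m hmn2 0 y (by rw [one_mul, ← hw]; exact hy))
      rw [← hw, ← hE, ← hr] at h1
      exact h1
  have pEx : (law μ).real Exᶜ ≤ pt / 16 := by
    refine le_trans (measureReal_mono ?_ (measure_ne_top _ _)) (hUE m hmn3)
    refine Set.compl_subset_compl.2 fun η hη => ?_
    rw [hEx]
    have h1 := hη.2
    rw [zero_mul, ← hw] at h1
    exact h1
  have pLg : ∀ y : ℤ, |(y : ℝ) - sl μ s * m| ≤ w → (law μ).real (Lg y)ᶜ ≤ pt / 16 := by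
    intro y hy
    rw [hLg]
    have h1 := BD_prob (μ := μ) (s := s) (m := m) (y := y) (ρ₂ := ρ₂) (C₃ := R₂ + 2) (q := pt / 64) (x := c₄ * E) (ω₂ := Rp * w)
      (fun a y' hy' => by
        have := hleg m hmn4 a y' hy'
        rw [← hE] at this
        exact this) (by rw [hρabs, ← hw]; linarith) (by rw [hρabs, ← hw, hRp]; linarith)
    linarith
  refine ⟨ρ₂, fun τ y => Core τ y ∩ (Ex ∩ Lg y), ?_⟩
  have e_rows : ∀ {D : Set Pt}, D ∩ rows 0 m ⊆ rows 0 m := fun {D} => Set.inter_subset_right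
  constructor
  · -- rho
    refine ⟨?_, ?_⟩
    · have : (1 : ℝ) ≤ ρ₂ := by linarith
      exact_mod_cast this
    · rw [← hw, hRp]
      linarith
  · -- meas
    exact fun τ y => (mCore τ y).inter (mEx.inter (mLg y))
  · -- row
    intro τ y
    have h1 : On (rows 0 m) (Core τ y ∩ (Ex ∩ Lg y)) := by
      refine ((oCore τ y).mono e_rows).inter (On.inter ?_ ?_)
      · rw [hEx]
        exact on_EXIT
      · rw [hLg]
        exact on_BD.mono e_rows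
    exact h1
  · -- dec
    intro τ y
    rw [← hw]
    refine DecO.inter ?_ (DecO.inter ?_ ?_)
    · rw [hCore]
      refine DecO.inter (DecO.inter ?_ (DecO.of_dec dec_BB _)) (DecO.of_dec dec_BC _)
      exact on_BA.decO (Set.inter_subset_inter_left _ (St_mono (by rw [hRp]; linarith) 0))
    · rw [hEx]
      exact DecO.of_dec (dec_EXIT20 _ _ _ _) _
    · rw [hLg]
      exact on_BD.decO subset_rfl
  · -- low
    intro τ y η hη
    rw [← hE]
    obtain ⟨h1, -⟩ := hη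
    rw [hCore] at h1
    exact le_trans h1.1.1 (WR_le_W _ _ _ _ _)
  · -- sup
    intro τ y η hη z hz
    obtain ⟨h1, h2, -⟩ := hη
    rw [hCore] at h1
    rw [hEx] at h2
    rw [← hw] at hz
    have hx0 : 0 ≤ lv τ xL xU := by
      unfold lv
      split_ifs <;> assumption
    have h3 := vmid (μ := μ) (s := s) (m := m) (ρ := 2 * w) (ω := K₃ * w) (α := A * w) (h := hc μ s c m)
      (xB := lv τ xL xU * E) (xC := U * EE μ s m) (D := 0) (M := lv τ xL xU * E) hsl0.le hsl1.le (hc_nonneg h m)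
      (by rw [← hE]; positivity) h1.1.2 h1.2 h2 hz (Or.inl rfl) (by positivity) (by rw [mul_zero, sub_zero])
    rw [← hE] at h3 ⊢
    have h4 : U + lv τ xL xU + C' ≤ lv τ KL KU := by
      unfold lv
      split_ifs
      · rw [hKU]; exact le_max_left _ _
      · rw [hKL]; exact le_max_left _ _
    have h5 := mul_le_mul_of_nonneg_right h4 hE0.le
    linarith
  · -- off
    intro τ y η hη z hz1 hz2
    obtain ⟨h1, h2, -⟩ := hη
    rw [hCore] at h1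
    rw [hEx] at h2
    rw [← hw] at hz2
    have hxle : lv τ xL xU ≤ xL + xU := by
      unfold lv
      split_ifs <;> linarith
    have h3 := vmid (μ := μ) (s := s) (m := m) (ρ := 2 * w) (ω := K₃ * w) (α := A * w) (h := hc μ s c m)
      (xB := lv τ xL xU * E) (xC := U * EE μ s m) (D := (R₂ - 4) * w) (M := 0) hsl0.le hsl1.le (hc_nonneg h m)
      (by rw [← hE]; positivity) h1.1.2 h1.2 h2 hz2 (Or.inr (by linarith)) le_rfl (by
        rw [← hhcE]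
        have h4 : hcE * ((R₂ - 4) * w) = (xL + xU) * E := by
          calc hcE * ((R₂ - 4) * w) = (R₂ - 4) * (hcE * w) := by ring
            _ = (R₂ - 4) * (c * E) := by rw [hhw]
            _ = c * (R₂ - 4) * E := by ring
            _ = _ := by rw [hcR]
        rw [h4]
        have := mul_le_mul_of_nonneg_right hxle hE0.le
        linarith)
    rw [← hE] at h3 ⊢
    rw [hk₀]
    linarith
  · -- qp
    intro τ y η hη g' hg'
    obtain ⟨-, -, h1⟩ := hη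
    rw [hLg] at h1
    rw [← hE]
    exact le_trans (h1 g' hg').1 (WR_le_W _ _ _ _ _)
  · -- pq
    intro τ y η hη g' hg'
    obtain ⟨-, -, h1⟩ := hη
    rw [hLg] at h1
    rw [← hE]
    exact le_trans (h1 g' hg').2 (WR_le_W _ _ _ _ _)
  · -- prob
    intro ι _ hcard t₀ a y τ hy hsep
    rw [← hw] at hy hsep
    have h1 := lanes (μ := μ) (s := s) (m := m) (ω := K₃ * w) (E := fun i => Core (τ i) (y i)) (fun i => mCore _ _)
      (fun i => oCore _ _) hpm0.le (fun i => pCore (τ i) (y i) (hy i)) t₀ a (fun i i' hi => by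
        have h3 := hsep i i' hi
        linarith)
    have h2 : pt ≤ pm ^ Fintype.card ι := by
      rw [hpt]
      exact pow_le_pow_of_le_one hpm0.le hpm1 hcard
    have hsub : (⋂ i, {η | sh (t₀, a i) η ∈ Core (τ i) (y i)}) ⊆
        (⋂ i, {η | sh (t₀, a i) η ∈ Core (τ i) (y i) ∩ (Ex ∩ Lg (y i))}) ∪
          ⋃ i ∈ (Finset.univ : Finset ι), ({η | sh (t₀, a i) η ∈ Exᶜ} ∪ {η | sh (t₀, a i) η ∈ (Lg (y i))ᶜ}) := by
      intro η hη
      by_cases hall : ∀ i, sh (t₀, a i) η ∈ Ex ∩ Lg (y i)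
      · left
        rw [Set.mem_iInter] at hη ⊢
        exact fun i => ⟨hη i, hall i⟩
      · right
        push Not at hall
        obtain ⟨i, hi⟩ := hall
        refine Set.mem_biUnion (Finset.mem_coe.2 (Finset.mem_univ i)) ?_
        by_cases h3 : sh (t₀, a i) η ∈ Ex
        · exact Or.inr fun h4 => hi ⟨h3, h4⟩
        · exact Or.inl h3
    have h3 := measureReal_mono (μ := law μ) hsub (measure_ne_top _ _)
    have h4 := measureReal_union_le (μ := law μ) (⋂ i, {η | sh (t₀, a i) η ∈ Core (τ i) (y i) ∩ (Ex ∩ Lg (y i))})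
      (⋃ i ∈ (Finset.univ : Finset ι), ({η | sh (t₀, a i) η ∈ Exᶜ} ∪ {η | sh (t₀, a i) η ∈ (Lg (y i))ᶜ}))
    have h5 : (law μ).real (⋃ i ∈ (Finset.univ : Finset ι),
        ({η | sh (t₀, a i) η ∈ Exᶜ} ∪ {η | sh (t₀, a i) η ∈ (Lg (y i))ᶜ})) ≤ 2 * (pt / 8) := by
      refine (measureReal_biUnion_finset_le _ _).trans ?_
      have h6 : ∀ i ∈ (Finset.univ : Finset ι), (law μ).real ({η | sh (t₀, a i) η ∈ Exᶜ} ∪ {η | sh (t₀, a i) η ∈ (Lg (y i))ᶜ}) ≤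
          pt / 8 := by
        intro i _
        refine (measureReal_union_le _ _).trans ?_
        rw [real_sh (μ := μ) (t₀, a i) mEx.compl, real_sh (μ := μ) (t₀, a i) (mLg (y i)).compl]
        have h7 := pLg (y i) (hy i)
        linarith
      refine (Finset.sum_le_card_nsmul _ _ _ h6).trans ?_
      rw [nsmul_eq_mul, Finset.card_univ]
      refine mul_le_mul_of_nonneg_right ?_ (by positivity)
      exact_mod_cast hcard
    linarith

end

end Pool.Agent.W_7d29a1_C1.B12
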