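import Pool.Agent.W_7d29a1_C1.FunM20

/-!
MP_7d29a1_pr, [C1] slab lemma, tuned form (F5), block event, part A: the decomposition at the first entrance into the inner strip,
and the upper bound of the free energies of the collar. (helper12)
-/

set_option autoImplicit false

namespace Pool.Agent.W_7d29a1_C1.B12

open MeasureTheory ProbabilityTheory Filter Topology
open Pool.Agent.W_7d29a1_F Pool.Agent.W_7d29a1_h4g Pool.Agent.W_7d29a1_H Pool.Agent.W_7d29a1_HS
open Pool.Agent.W_7d29a1_HL (cS WR_off WR_last_off WR_add' WR_mono' WR_congr')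
open Pool.Agent.W_7d29a1_HR (cS_add_le cS_le_V)

noncomputable section

variable {μ : Measure ℝ} {s : ℝ}

/-- One of the two next sites is in `S` and not in `R`. -/
def Nr (S R : Set Pt) (t u : ℤ) : Prop := ((t + 1, u) : Pt) ∈ S \ R ∨ ((t + 1, u + 1) : Pt) ∈ S \ R

theorem WR_one_eq {S R : Set Pt} (η : Env) (a : Pt) (y : ℤ) (h : ((a.1 + 1, a.2 + y) : Pt) ∈ S ↔ ((a.1 + 1, a.2 + y) : Pt) ∈ R) :
    WR μ s S η a 1 y = WR μ s R η a 1 y := by
  unfold WR
  congr 1
  have e1 : ((a.1 + (((0 : ℕ) : ℤ) + 1), a.2 + y) : Pt) = (a.1 + 1, a.2 + y) := by simp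
  show S.indicator (fun p => Real.exp (η p)) (a.1 + (((0 : ℕ) : ℤ) + 1), a.2 + y) * (Zr S η a 0 y + Zr S η a 0 (y - 1)) =
    R.indicator (fun p => Real.exp (η p)) (a.1 + (((0 : ℕ) : ℤ) + 1), a.2 + y) * (Zr R η a 0 y + Zr R η a 0 (y - 1))
  rw [e1]
  have e2 : ∀ k : ℤ, Zr S η a 0 k = Zr R η a 0 k := fun k => rfl
  rw [e2, e2]
  congr 1
  by_cases h1 : ((a.1 + 1, a.2 + y) : Pt) ∈ S
  · rw [Set.indicator_of_mem h1, Set.indicator_of_mem (h.1 h1)]
  · rw [Set.indicator_of_notMem h1, Set.indicator_of_notMem fun h2 => h1 (h.2 h2)]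

theorem cS_nonneg (S : Set Pt) (η : Env) (a : Pt) (n : ℕ) : 0 ≤ cS μ s S η a n :=
  Finset.sum_nonneg fun _ _ => WR_nonneg _ _ _ _ _

variable [IsProbabilityMeasure μ]

theorem first_step {S R : Set Pt} (η : Env) (t u : ℤ) (n : ℕ) (h : ¬ Nr S R t u) :
    cS μ s S η (t, u) (1 + n) ≤ ∑ u' ∈ Finset.Icc u (u + 1), WR μ s R η (t, u) 1 (u' - u) * cS μ s S η (t + 1, u') n := by
  have h1 := cS_add_le (μ := μ) (s := s) S η t u 1 n
  refine h1.trans (Finset.sum_le_sum fun u' hu' => ?_)
  refine mul_le_mul_of_nonneg_right ?_ (cS_nonneg _ _ _ _)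
  rw [Finset.mem_Icc] at hu'
  have e1 : (((t, u) : Pt).1 + 1, ((t, u) : Pt).2 + (u' - u)) = ((t + 1, u') : Pt) := by
    ext
    · rfl
    · show u + (u' - u) = u'
      ring
  have hu : u' = u ∨ u' = u + 1 := by
    have h2 := hu'.1
    have h3 : u' ≤ u + 1 := by
      have := hu'.2
      push_cast at this
      exact this
    omega
  have hin : ((t + 1, u') : Pt) ∉ S \ R := by
    rcases hu with rfl | rfl
    · exact fun h2 => h (Or.inl h2)
    · exact fun h2 => h (Or.inr h2)
  by_cases hS : ((t + 1, u') : Pt) ∈ S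
  · have hR : ((t + 1, u') : Pt) ∈ R := by
      by_contra hR
      exact hin ⟨hS, hR⟩
    refine le_of_eq (WR_one_eq η (t, u) (u' - u) ?_)
    rw [e1]
    exact ⟨fun _ => hR, fun _ => hS⟩
  · have h2 : WR μ s S η (t, u) 1 (u' - u) = 0 := by
      refine WR_last_off η (t, u) le_rfl ?_
      have e2 : ((((t, u) : Pt).1 + ((1 : ℕ) : ℤ), ((t, u) : Pt).2 + (u' - u)) : Pt) = (t + 1, u') := by
        rw [← e1]
        simp
      rw [e2]
      exact hS
    rw [h2]
    exact WR_nonneg _ _ _ _ _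

open Classical in
/-- **DECOMPOSITION AT THE FIRST ENTRANCE** of `S \ R`: the paths in `S` stay in `R`, or they are next to `S \ R` at some row. -/
theorem first_ent {S R : Set Pt} (η : Env) (t x : ℤ) (m : ℕ) :
    cS μ s S η (t, x) m ≤ cS μ s R η (t, x) m + ∑ j ∈ Finset.range m,
      ∑ u ∈ (Finset.Icc x (x + m)).filter (fun u => Nr S R (t + j) u),
        WR μ s R η (t, x) j (u - x) * cS μ s S η (t + j, u) (m - j) := by
  obtain ⟨I, hI⟩ : ∃ I : Finset ℤ, I = Finset.Icc x (x + m) := ⟨_, rfl⟩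
  have key : ∀ k : ℕ, k ≤ m → cS μ s S η (t, x) m ≤ ∑ u ∈ I, WR μ s R η (t, x) k (u - x) * cS μ s S η (t + k, u) (m - k) +
      ∑ j ∈ Finset.range k, ∑ u ∈ I.filter (fun u => Nr S R (t + j) u),
        WR μ s R η (t, x) j (u - x) * cS μ s S η (t + j, u) (m - j) := by
    intro k
    induction k with
    | zero =>
      intro _
      rw [Finset.sum_range_zero, add_zero, Finset.sum_eq_single_of_mem x]
      · have e1 : WR μ s R η (t, x) 0 (x - x) = 1 := by
          unfold WR Zr
          simp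
        rw [e1, one_mul]
        simp
      · rw [hI, Finset.mem_Icc]
        constructor
        · exact le_rfl
        · have : (0 : ℤ) ≤ (m : ℤ) := Int.natCast_nonneg _
          linarith
      · intro u _ hu
        have e1 : WR μ s R η (t, x) 0 (u - x) = 0 := WR_off _ _ _ (by
          rintro ⟨h1, h2⟩
          simp only [Nat.cast_zero] at h2
          omega)
        rw [e1, zero_mul]
    | succ k ih =>
      intro hk
      have ih' := ih (by omega)
      rw [Finset.sum_range_succ]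
      have hsplit : ∑ u ∈ I, WR μ s R η (t, x) k (u - x) * cS μ s S η (t + k, u) (m - k) =
          ∑ u ∈ I.filter (fun u => Nr S R (t + k) u), WR μ s R η (t, x) k (u - x) * cS μ s S η (t + k, u) (m - k) +
          ∑ u ∈ I.filter (fun u => ¬ Nr S R (t + k) u), WR μ s R η (t, x) k (u - x) * cS μ s S η (t + k, u) (m - k) :=
        (Finset.sum_filter_add_sum_filter_not _ _ _).symm
      have hstep : ∑ u ∈ I.filter (fun u => ¬ Nr S R (t + k) u),
          WR μ s R η (t, x) k (u - x) * cS μ s S η (t + k, u) (m - k) ≤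
          ∑ u' ∈ I, WR μ s R η (t, x) (k + 1) (u' - x) * cS μ s S η (t + (k + 1 : ℕ), u') (m - (k + 1)) := by
        have e1 : ∀ u' ∈ I, WR μ s R η (t, x) (k + 1) (u' - x) * cS μ s S η (t + (k + 1 : ℕ), u') (m - (k + 1)) =
            ∑ u ∈ I, WR μ s R η (t, x) k (u - x) * (WR μ s R η (t + k, u) 1 (u' - u) *
              cS μ s S η (t + k + 1, u') (m - (k + 1))) := by
          intro u' _
          rw [WR_add' (μ := μ) (s := s) R η t x k 1 u' (A := x) (B := x + m) le_rfl (by
            have : (k : ℤ) ≤ m := by exact_mod_cast (by omega : k ≤ m)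
            linarith), ← hI, Finset.sum_mul]
          have e2 : ((t + ((k + 1 : ℕ) : ℤ), u') : Pt) = (t + k + 1, u') := by
            ext
            · show t + ((k + 1 : ℕ) : ℤ) = t + k + 1
              push_cast
              ring
            · rfl
          rw [e2]
          exact Finset.sum_congr rfl fun u _ => by ring
        rw [Finset.sum_congr rfl e1, Finset.sum_comm]
        refine le_trans (Finset.sum_le_sum (f := fun u => WR μ s R η (t, x) k (u - x) * cS μ s S η (t + k, u) (m - k))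
          (g := fun u => ∑ u' ∈ I, WR μ s R η (t, x) k (u - x) * (WR μ s R η (t + k, u) 1 (u' - u) *
              cS μ s S η (t + k + 1, u') (m - (k + 1)))) fun u hu => ?_) ?_
        · rw [Finset.mem_filter] at hu
          rw [← Finset.mul_sum]
          rcases eq_or_lt_of_le (WR_nonneg (μ := μ) (s := s) R η (t, x) k (u - x)) with h0 | h0
          · rw [← h0, zero_mul, zero_mul]
          · refine mul_le_mul_of_nonneg_left ?_ h0.le
            have hux : 0 ≤ u - x ∧ u - x ≤ (k : ℤ) := by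
              by_contra hcon
              rw [WR_off _ _ _ hcon] at h0
              exact lt_irrefl _ h0
            have e3 : m - k = 1 + (m - (k + 1)) := by omega
            rw [e3]
            refine (first_step (μ := μ) (s := s) η (t + k) u (m - (k + 1)) hu.2).trans ?_
            refine Finset.sum_le_sum_of_subset_of_nonneg ?_ fun u' _ _ => mul_nonneg (WR_nonneg _ _ _ _ _) (cS_nonneg _ _ _ _)
            rw [hI]
            refine Finset.Icc_subset_Icc (by linarith [hux.1]) ?_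
            have : ((k + 1 : ℕ) : ℤ) ≤ (m : ℤ) := by exact_mod_cast hk
            push_cast at this
            linarith [hux.2]
        · refine Finset.sum_le_sum_of_subset_of_nonneg (Finset.filter_subset _ _) fun u _ _ =>
            Finset.sum_nonneg fun u' _ => mul_nonneg (WR_nonneg _ _ _ _ _) (mul_nonneg (WR_nonneg _ _ _ _ _) (cS_nonneg _ _ _ _))
      rw [hsplit] at ih'
      linarith
  have h1 := key m le_rfl
  rw [hI] at h1
  refine h1.trans (add_le_add (le_of_eq ?_) le_rfl)
  have e1 : ∀ u ∈ Finset.Icc x (x + m), WR μ s R η (t, x) m (u - x) * cS μ s S η (t + m, u) (m - m) =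
      WR μ s R η (t, x) m (u - x) := by
    intro u _
    have e2 : cS μ s S η (t + m, u) (m - m) = 1 := by
      rw [Nat.sub_self]
      unfold cS WR Zr
      simp
    rw [e2, mul_one]
  rw [Finset.sum_congr rfl e1]
  unfold cS
  refine Finset.sum_bij' (fun u _ => u - x) (fun y _ => y + x) ?_ ?_ ?_ ?_ ?_
  · intro u hu
    rw [Finset.mem_Icc] at hu ⊢
    omega
  · intro y hy
    rw [Finset.mem_Icc] at hy ⊢
    omega
  · intro u _
    ring
  · intro y _
    ring
  · intro u _
    rfl

/-! ### The events of a block -/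

/-- The inner kernel is lucky. -/
def BA (μ : Measure ℝ) (s : ℝ) (m : ℕ) (y : ℤ) (ρ x : ℝ) : Set Env :=
  {η | Real.exp x ≤ WR μ s (St μ s ρ 0) η 0 m y}

/-- The starts of the strip of half width `ρ'` are not lucky (in the strip of half width `ω`). -/
def BB (μ : Measure ℝ) (s : ℝ) (m : ℕ) (ρ' ω x : ℝ) : Set Env :=
  {η | ∀ (t l : ℕ) (z : ℤ), t + l ≤ m → |(z : ℝ) - sl μ s * t| ≤ ρ' → cS μ s (St μ s ω 0) η ((t : ℤ), z) l ≤ Real.exp x}

/-- The paths between the strips of half widths `ρ` and `ω` which start at distance at most `α`. -/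
def BC (μ : Measure ℝ) (s : ℝ) (m : ℕ) (ρ ω α h x : ℝ) : Set Env :=
  {η | ∀ (z : ℤ) (j : ℕ) (u : ℤ), |(z : ℝ)| ≤ α → j ≤ m →
    WR μ s (St μ s ω 0 \ St μ s ρ 0) η ((0 : ℤ), z) j u ≤ Real.exp (x - h * |(u : ℝ) - sl μ s * j|)}

/-- **UPPER BOUND OF THE FREE ENERGIES OF THE COLLAR.** -/
theorem vmid {m : ℕ} {ρ ω α h xB xC D M : ℝ} {η : Env} (hv0 : 0 ≤ sl μ s) (hv1 : sl μ s ≤ 1) (hh : 0 ≤ h)
    (hxC : 0 ≤ xC) (hB : η ∈ BB μ s m (ρ + 2) ω xB) (hC : η ∈ BC μ s m ρ ω α h xC) (hE : EXIT20 μ s α ω m 0 η) {z : ℤ}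
    (hz : |(z : ℝ)| ≤ α) (hD : D = 0 ∨ D ≤ |(z : ℝ)| - ρ - 2) (hM : 0 ≤ M) (hBM : xB - h * D ≤ M) :
    V μ s η ((0 : ℤ), z) m ≤ xC + M + 2 * Real.log (m + 2) := by
  classical
  have hm0 : (0 : ℝ) ≤ m := Nat.cast_nonneg m
  have h1 := hE z hz
  rw [neg_zero, Real.exp_zero] at h1
  have h2 := first_ent (μ := μ) (s := s) (S := St μ s ω 0) (R := St μ s ω 0 \ St μ s ρ 0) η 0 z m
  have hexp1 : (1 : ℝ) ≤ Real.exp (xC + M) := Real.one_le_exp (by linarith)
  have h3 : cS μ s (St μ s ω 0 \ St μ s ρ 0) η ((0 : ℤ), z) m ≤ (m + 1) * Real.exp (xC + M) := by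
    unfold cS
    have h4 : ∀ y ∈ Finset.Icc (0 : ℤ) m, WR μ s (St μ s ω 0 \ St μ s ρ 0) η ((0 : ℤ), z) m y ≤ Real.exp (xC + M) := by
      intro y _
      refine (hC z m y hz le_rfl).trans (Real.exp_le_exp.2 ?_)
      have : 0 ≤ h * |(y : ℝ) - sl μ s * m| := mul_nonneg hh (abs_nonneg _)
      linarith
    refine (Finset.sum_le_card_nsmul _ _ _ h4).trans (le_of_eq ?_)
    rw [Int.card_Icc, nsmul_eq_mul]
    have e1 : ((m : ℤ) + 1 - 0).toNat = m + 1 := by omega
    rw [e1]
    push_cast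
    ring
  have h5 : ∑ j ∈ Finset.range m, ∑ u ∈ (Finset.Icc z (z + m)).filter
        (fun u => Nr (St μ s ω 0) (St μ s ω 0 \ St μ s ρ 0) (0 + j) u),
        WR μ s (St μ s ω 0 \ St μ s ρ 0) η ((0 : ℤ), z) j (u - z) * cS μ s (St μ s ω 0) η (0 + j, u) (m - j) ≤
      m * ((m + 1) * Real.exp (xC + M)) := by
    have h6 : ∀ j ∈ Finset.range m, ∑ u ∈ (Finset.Icc z (z + m)).filter
        (fun u => Nr (St μ s ω 0) (St μ s ω 0 \ St μ s ρ 0) (0 + j) u),
        WR μ s (St μ s ω 0 \ St μ s ρ 0) η ((0 : ℤ), z) j (u - z) * cS μ s (St μ s ω 0) η (0 + j, u) (m - j) ≤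
        (m + 1) * Real.exp (xC + M) := by
      intro j hj
      have hjm : j < m := Finset.mem_range.1 hj
      have h7 : ∀ u ∈ (Finset.Icc z (z + m)).filter (fun u => Nr (St μ s ω 0) (St μ s ω 0 \ St μ s ρ 0) (0 + j) u),
          WR μ s (St μ s ω 0 \ St μ s ρ 0) η ((0 : ℤ), z) j (u - z) * cS μ s (St μ s ω 0) η (0 + j, u) (m - j) ≤
          Real.exp (xC + M) := by
        intro u hu
        obtain ⟨_, hu2⟩ := Finset.mem_filter.1 hu
        -- `u` is near the inner strip
        have hnear : |(u : ℝ) - sl μ s * j| ≤ ρ + 2 := by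
          have key : ∀ e : ℤ, (e = 0 ∨ e = 1) → (((0 : ℤ) + j + 1, u + e) : Pt) ∈ St μ s ρ 0 → |(u : ℝ) - sl μ s * j| ≤ ρ + 2 := by
            intro e he hp
            have hp' : |(((u + e) - 0 : ℤ) : ℝ) - sl μ s * ((((0 : ℤ) + j + 1) - 0 : ℤ) : ℝ)| ≤ ρ := hp
            have e1 : (((u + e) - 0 : ℤ) : ℝ) = (u : ℝ) + e := by push_cast; ring
            have e2 : ((((0 : ℤ) + j + 1) - 0 : ℤ) : ℝ) = (j : ℝ) + 1 := by push_cast; ring
            rw [e1, e2] at hp'
            have he' : (e : ℝ) = 0 ∨ (e : ℝ) = 1 := by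
              rcases he with rfl | rfl
              · left; simp
              · right; simp
            rw [abs_le] at hp' ⊢
            rcases he' with he' | he' <;> rw [he'] at hp' <;> constructor <;> nlinarith [hp'.1, hp'.2]
          rcases hu2 with h8 | h8
          · have h9 : (((0 : ℤ) + j + 1, u) : Pt) ∈ St μ s ρ 0 := by
              by_contra h9
              exact h8.2 ⟨h8.1, h9⟩
            have h10 := key 0 (Or.inl rfl)
            rw [add_zero] at h10
            exact h10 h9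
          · have h9 : (((0 : ℤ) + j + 1, u + 1) : Pt) ∈ St μ s ρ 0 := by
              by_contra h9
              exact h8.2 ⟨h8.1, h9⟩
            exact key 1 (Or.inr rfl) h9
        have h8 := hC z j (u - z) hz hjm.le
        have h9 := hB j (m - j) u (by omega) hnear
        have e3 : (((0 : ℤ) + j, u) : Pt) = ((j : ℤ), u) := by rw [zero_add]
        rw [e3]
        refine (mul_le_mul h8 h9 (cS_nonneg _ _ _ _) (Real.exp_nonneg _)).trans ?_
        rw [← Real.exp_add]
        refine Real.exp_le_exp.2 ?_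
        have h10 : h * D ≤ h * |((u - z : ℤ) : ℝ) - sl μ s * j| := by
          refine mul_le_mul_of_nonneg_left ?_ hh
          rcases hD with h11 | h11
          · rw [h11]
            exact abs_nonneg _
          · refine h11.trans ?_
            have h12 : |(z : ℝ)| ≤ |((u - z : ℤ) : ℝ) - sl μ s * j| + |(u : ℝ) - sl μ s * j| := by
              have h13 := abs_sub ((u : ℝ) - sl μ s * j) (((u - z : ℤ) : ℝ) - sl μ s * j)
              have e4 : (u : ℝ) - sl μ s * j - (((u - z : ℤ) : ℝ) - sl μ s * j) = z := by push_cast; ring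
              rw [e4] at h13
              linarith
            linarith
        linarith
      refine (Finset.sum_le_card_nsmul _ _ _ h7).trans ?_
      rw [nsmul_eq_mul]
      refine mul_le_mul_of_nonneg_right ?_ (Real.exp_nonneg _)
      have h8 := Finset.card_filter_le (Finset.Icc z (z + m)) (fun u => Nr (St μ s ω 0) (St μ s ω 0 \ St μ s ρ 0) (0 + j) u)
      rw [Int.card_Icc] at h8
      have e1 : (z + (m : ℤ) + 1 - z).toNat = m + 1 := by omega
      rw [e1] at h8
      exact_mod_cast h8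
    refine (Finset.sum_le_card_nsmul _ _ _ h6).trans (le_of_eq ?_)
    rw [Finset.card_range, nsmul_eq_mul]
  have h6 : Real.exp (V μ s η ((0 : ℤ), z) m) ≤ (m + 2) ^ 2 * Real.exp (xC + M) := by
    have h7 : Real.exp (V μ s η ((0 : ℤ), z) m) ≤ cS μ s (St μ s ω 0) η ((0 : ℤ), z) m + 1 := by linarith
    nlinarith [h7, h2, h3, h5, hexp1]
  have h7 : (m + 2 : ℝ) ^ 2 * Real.exp (xC + M) = Real.exp (xC + M + 2 * Real.log (m + 2)) := by
    rw [Real.exp_add (xC + M), mul_comm]
    congr 1
    rw [two_mul, Real.exp_add, Real.exp_log (by linarith)]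
    ring
  rw [h7] at h6
  exact Real.exp_le_exp.1 h6

end

end Pool.Agent.W_7d29a1_C1.B12
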