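import Pool.Agent.W_7d29a1_HL.Hsl
import Pool.Agent.W_7d29a1_HR.Low2
import Pool.Agent.W_7d29a1_h95g.TubeDet

/-!
MP_7d29a1_pr, [C1], slab lemma, F2 (helper75): UP, EXIT, JUMP from `In.luck` alone, constants only, all starts of a window.

`Wi μ s h n x₀ D b`: all tilted lucks `T` (tilt `h`) of the starts `(t, x)`, `|x - sl t - x₀| ≤ D`, and lengths `j`, `t + j ≤ 4 n`, are
at most `b`. `Jm` = the three events for the tilts `0`, `hc`, `- hc`, `hc = c EE n / wd n` (`jm_prob`: the probability of the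
complement is at most `3 (2 D / wd n + 2) C exp (- b / (C EE n))`). Decreasing events of finitely many sites of the rows `(0, 4 n]`.

ON `Jm` (deterministic), for the starts `a = (t, x)` of the window and the lengths `j`:
* `jm_V` (UP): `V a j ≤ b`;
* `jm_W`, `jm_far` (EXIT, JUMP): `W a j y ≤ exp (b - hc |y - sl j|)`, and the mass of the displacements at distance at least `ρ` from
  `sl j` is at most `2 exp (b - hc ρ)`;
* `jm_leave`: the mass of the paths which leave the strip of half width `ρ` around the line of slope `sl` through `a` is at most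
  `2 j exp (2 b - hc (ρ - 2))` (if the exit lines are in the window).

`Js`: the same in `L` blocks of `n` rows one after the other (all starts in the rows `[0, L n)`, lengths at most `3 n`).
`jump_num`: `hc ρ ≥ Y EE m` for `ρ = δ wd m` if `m / n` is large.
-/

set_option autoImplicit false

namespace Pool.Agent.W_7d29a1_C1.H75

open MeasureTheory ProbabilityTheory Filter Topology
open Pool.Agent.W_7d29a1_F Pool.Agent.W_7d29a1_h4g Pool.Agent.W_7d29a1_H Pool.Agent.W_7d29a1_HS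
open Pool.Agent.W_7d29a1_HR (Dec Fin' V_mono_env)
open Pool.Agent.W_7d29a1_h95g
open Pool.Agent.W_7d29a1_L (Mh T kap Bx mem_Bx exp_T le_Mh Sub_Mh Sub_T T_sh)

noncomputable section

/-- All tilted lucks (tilt `h`) of the window `|x - sl t - x₀| ≤ D`, `t + j ≤ 4 n`, are at most `b`. -/
def Wi (μ : Measure ℝ) (s h : ℝ) (n : ℕ) (x₀ D b : ℝ) : Set Env :=
  {η | ∀ (t : ℕ) (x : ℤ) (j : ℕ), t + j ≤ 4 * n → |(x : ℝ) - sl μ s * t - x₀| ≤ D → T μ s (sl μ s) h η ((t : ℤ), x) j ≤ b}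

/-- The tilt of the scale `n`. -/
def hc (μ : Measure ℝ) (s c : ℝ) (n : ℕ) : ℝ := c * EE μ s n / wd μ s n

/-- UP, EXIT, JUMP at the scale `n`: the tilts `0`, `hc`, `- hc`. -/
def Jm (μ : Measure ℝ) (s c : ℝ) (n : ℕ) (x₀ D b : ℝ) : Set Env :=
  Wi μ s 0 n x₀ D b ∩ (Wi μ s (hc μ s c n) n x₀ D b ∩ Wi μ s (-hc μ s c n) n x₀ D b)

/-- `L` blocks of `n` rows. -/
def Js (μ : Measure ℝ) (s c : ℝ) (n L : ℕ) (x₀ D b : ℝ) : Set Env :=
  {η | ∀ i < L, sh ((((i * n : ℕ) : ℤ)), 0) η ∈ Jm μ s c n (x₀ + sl μ s * (i * n : ℕ)) D b}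

/-! ### Structure of the events -/

section Structure

variable {μ : Measure ℝ} {s c h : ℝ} {n : ℕ} {x₀ D b : ℝ}

theorem T_zero_tilt (η : Env) (a : Pt) (m : ℕ) (v : ℝ) : T μ s v 0 η a m = V μ s η a m := by
  unfold T kap
  simp

theorem T_mono_env {η η' : Env} (hh : ∀ p, η p ≤ η' p) (a : Pt) (m : ℕ) (v : ℝ) : T μ s v h η a m ≤ T μ s v h η' a m := by
  unfold T
  linarith [V_mono_env (μ := μ) (s := s + h) hh a m]

theorem wi_dec : Dec (Wi μ s h n x₀ D b) := fun _ _ hh hη t x j h1 h2 => (T_mono_env hh _ _ _).trans (hη t x j h1 h2)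

theorem wi_mono {D' b' : ℝ} (hD : D' ≤ D) (hb : b ≤ b') : Wi μ s h n x₀ D b ⊆ Wi μ s h n x₀ D' b' :=
  fun _ hη t x j h1 h2 => (hη t x j h1 (h2.trans hD)).trans hb

/-- The event looks only at the starts of a finite set of positions. -/
theorem wi_iff (η : Env) : η ∈ Wi μ s h n x₀ D b ↔ ∀ t ∈ Finset.range (4 * n + 1), ∀ j ∈ Finset.range (4 * n + 1),
    t + j ≤ 4 * n → ∀ x ∈ Finset.Icc ⌊sl μ s * t + x₀ - D⌋ ⌈sl μ s * t + x₀ + D⌉, |(x : ℝ) - sl μ s * t - x₀| ≤ D →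
      T μ s (sl μ s) h η ((t : ℤ), x) j ≤ b := by
  constructor
  · intro hη t _ j _ h1 x _ h2
    exact hη t x j h1 h2
  · intro hη t x j h1 h2
    have h3 := abs_le.1 h2
    refine hη t (Finset.mem_range.2 (by omega)) j (Finset.mem_range.2 (by omega)) h1 x (Finset.mem_Icc.2 ⟨?_, ?_⟩) h2
    · have h4 : ((⌊sl μ s * t + x₀ - D⌋ : ℤ) : ℝ) ≤ x := (Int.floor_le _).trans (by linarith [h3.1])
      exact_mod_cast h4
    · have h4 : (x : ℝ) ≤ ((⌈sl μ s * t + x₀ + D⌉ : ℤ) : ℝ) := le_trans (by linarith [h3.2]) (Int.le_ceil _)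
      exact_mod_cast h4

theorem wi_meas [IsProbabilityMeasure μ] : MeasurableSet (Wi μ s h n x₀ D b) := by
  have e : Wi μ s h n x₀ D b = ⋂ t ∈ Finset.range (4 * n + 1), ⋂ j ∈ Finset.range (4 * n + 1),
      ⋂ x ∈ Finset.Icc ⌊sl μ s * t + x₀ - D⌋ ⌈sl μ s * t + x₀ + D⌉,
      {η : Env | t + j ≤ 4 * n → |(x : ℝ) - sl μ s * t - x₀| ≤ D → T μ s (sl μ s) h η ((t : ℤ), x) j ≤ b} := by
    ext η
    rw [wi_iff]
    simp only [Set.mem_iInter]
    constructor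
    · intro H t ht j hj x hx h1 h2
      exact H t ht j hj h1 x hx h2
    · intro H t ht j hj h1 x hx h2
      exact H t ht j hj x hx h1 h2
  rw [e]
  refine Finset.measurableSet_biInter _ fun t _ => Finset.measurableSet_biInter _ fun j _ =>
    Finset.measurableSet_biInter _ fun x _ => ?_
  by_cases h1 : t + j ≤ 4 * n ∧ |(x : ℝ) - sl μ s * t - x₀| ≤ D
  · have e2 : {η : Env | t + j ≤ 4 * n → |(x : ℝ) - sl μ s * t - x₀| ≤ D → T μ s (sl μ s) h η ((t : ℤ), x) j ≤ b} =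
        {η : Env | T μ s (sl μ s) h η ((t : ℤ), x) j ≤ b} := by
      ext η
      exact ⟨fun H => H h1.1 h1.2, fun H _ _ => H⟩
    rw [e2]
    exact measurableSet_le (Sub_T _ _).1 measurable_const
  · have e2 : {η : Env | t + j ≤ 4 * n → |(x : ℝ) - sl μ s * t - x₀| ≤ D → T μ s (sl μ s) h η ((t : ℤ), x) j ≤ b} =
        Set.univ := by
      ext η
      simp only [Set.mem_univ, iff_true]
      exact fun h2 h3 => absurd ⟨h2, h3⟩ h1
    rw [e2]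
    exact MeasurableSet.univ

/-- The finite set of sites on which the event depends. -/
def WiD (μ : Measure ℝ) (s : ℝ) (n : ℕ) (x₀ D : ℝ) : Finset Pt :=
  (Finset.range (4 * n + 1)).biUnion fun t => Finset.Icc ((t : ℤ) + 1) (4 * n) ×ˢ
    Finset.Icc ⌊sl μ s * t + x₀ - D⌋ (⌈sl μ s * t + x₀ + D⌉ + 4 * n)

theorem wi_dep {η η' : Env} (hh : ∀ p ∈ WiD μ s n x₀ D, η p = η' p) : η ∈ Wi μ s h n x₀ D b ↔ η' ∈ Wi μ s h n x₀ D b := by
  have key : ∀ t ∈ Finset.range (4 * n + 1), ∀ j ∈ Finset.range (4 * n + 1),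
    t + j ≤ 4 * n → ∀ x ∈ Finset.Icc ⌊sl μ s * t + x₀ - D⌋ ⌈sl μ s * t + x₀ + D⌉,
      T μ s (sl μ s) h η ((t : ℤ), x) j = T μ s (sl μ s) h η' ((t : ℤ), x) j := by
    intro t ht j _ h1 x hx
    unfold T
    congr 1
    refine V_dep (μ := μ) (s := s + h) ((t : ℤ), x) j fun p hp => hh p ?_
    obtain ⟨k1, k2, k3, k4⟩ := hp
    simp only at k1 k2 k3 k4
    rw [Finset.mem_Icc] at hx
    refine Finset.mem_biUnion.2 ⟨t, ht, Finset.mem_product.2 ⟨Finset.mem_Icc.2 ⟨by omega, by omega⟩,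
      Finset.mem_Icc.2 ⟨by omega, by omega⟩⟩⟩
  rw [wi_iff, wi_iff]
  constructor
  · intro H t ht j hj h1 x hx h2
    rw [← key t ht j hj h1 x hx]
    exact H t ht j hj h1 x hx h2
  · intro H t ht j hj h1 x hx h2
    rw [key t ht j hj h1 x hx]
    exact H t ht j hj h1 x hx h2

theorem wi_fin : Fin' (Wi μ s h n x₀ D b) := ⟨WiD μ s n x₀ D, fun _ _ hh => wi_dep hh⟩

theorem mem_WiD_row {p : Pt} (hp : p ∈ WiD μ s n x₀ D) : p ∈ rows 0 (4 * n) := by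
  obtain ⟨t, _, h1⟩ := Finset.mem_biUnion.1 hp
  obtain ⟨h2, _⟩ := Finset.mem_product.1 h1
  rw [Finset.mem_Icc] at h2
  exact ⟨by omega, by omega⟩

/-- The event depends on the rows `(0, 4 n]`. -/
theorem wi_rows {η η' : Env} (hh : ∀ p ∈ rows 0 (4 * (n : ℤ)), η p = η' p) :
    η ∈ Wi μ s h n x₀ D b ↔ η' ∈ Wi μ s h n x₀ D b := wi_dep fun p hp => hh p (mem_WiD_row hp)

theorem jm_dec : Dec (Jm μ s c n x₀ D b) := Dec.inter wi_dec (Dec.inter wi_dec wi_dec)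

theorem jm_meas [IsProbabilityMeasure μ] : MeasurableSet (Jm μ s c n x₀ D b) := wi_meas.inter (wi_meas.inter wi_meas)

theorem jm_dep {η η' : Env} (hh : ∀ p ∈ WiD μ s n x₀ D, η p = η' p) : η ∈ Jm μ s c n x₀ D b ↔ η' ∈ Jm μ s c n x₀ D b :=
  and_congr (wi_dep hh) (and_congr (wi_dep hh) (wi_dep hh))

theorem jm_fin : Fin' (Jm μ s c n x₀ D b) := ⟨WiD μ s n x₀ D, fun _ _ hh => jm_dep hh⟩

theorem jm_rows {η η' : Env} (hh : ∀ p ∈ rows 0 (4 * (n : ℤ)), η p = η' p) :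
    η ∈ Jm μ s c n x₀ D b ↔ η' ∈ Jm μ s c n x₀ D b := jm_dep fun p hp => hh p (mem_WiD_row hp)

theorem jm_mono {D' b' : ℝ} (hD : D' ≤ D) (hb : b ≤ b') : Jm μ s c n x₀ D b ⊆ Jm μ s c n x₀ D' b' :=
  fun _ hη => ⟨wi_mono hD hb hη.1, wi_mono hD hb hη.2.1, wi_mono hD hb hη.2.2⟩

theorem js_dec {L : ℕ} : Dec (Js μ s c n L x₀ D b) := fun _ _ hh hη i hi => jm_dec _ _ (fun p => hh (p + _)) (hη i hi)

theorem js_meas [IsProbabilityMeasure μ] {L : ℕ} : MeasurableSet (Js μ s c n L x₀ D b) := by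
  have e : Js μ s c n L x₀ D b = ⋂ i ∈ Finset.range L,
      (sh ((((i * n : ℕ) : ℤ)), 0)) ⁻¹' (Jm μ s c n (x₀ + sl μ s * (i * n : ℕ)) D b) := by
    ext η
    simp only [Set.mem_iInter, Finset.mem_range]
    exact Iff.rfl
  rw [e]
  exact Finset.measurableSet_biInter _ fun i _ => (mp_sh (μ := μ) _).measurable jm_meas

theorem js_fin {L : ℕ} : Fin' (Js μ s c n L x₀ D b) := by
  classical
  refine ⟨(Finset.range L).biUnion fun i => (WiD μ s n (x₀ + sl μ s * (i * n : ℕ)) D).image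
    fun p => p + ((((i * n : ℕ) : ℤ)), 0), fun η η' hh => ?_⟩
  have key : ∀ i < L, (sh ((((i * n : ℕ) : ℤ)), 0) η ∈ Jm μ s c n (x₀ + sl μ s * (i * n : ℕ)) D b ↔
      sh ((((i * n : ℕ) : ℤ)), 0) η' ∈ Jm μ s c n (x₀ + sl μ s * (i * n : ℕ)) D b) := by
    intro i hi
    refine jm_dep fun p hp => hh _ ?_
    exact Finset.mem_biUnion.2 ⟨i, Finset.mem_range.2 hi, Finset.mem_image_of_mem _ hp⟩
  exact forall₂_congr key

end Structure

/-! ### Probabilities -/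

section Prob

variable {μ : Measure ℝ} [IsProbabilityMeasure μ] {s c C : ℝ} {n₀ : ℕ}

theorem markov_Mh (h : In μ s c C n₀) {n : ℕ} (hn : n₀ ≤ n) {t z b : ℝ} (ht : |t| * wd μ s n ≤ c * EE μ s n) :
    (law μ).real {η | b < Mh μ s (sl μ s) t (wd μ s n) z (4 * n) η} ≤ C * Real.exp (-(b / (C * EE μ s n))) := by
  have hE : 0 < EE μ s n := lt_of_lt_of_le one_pos (one_le_EE n)
  have hC : 0 < C := lt_of_lt_of_le one_pos h.C1
  have hCE : 0 < C * EE μ s n := mul_pos hC hE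
  have hint : Integrable (fun η : Env => Real.exp (Mh μ s (sl μ s) t (wd μ s n) z (4 * n) η / (C * EE μ s n))) (law μ) := by
    have h1 := ((Sub_Mh (μ := μ) (s := s) (v := sl μ s) (h := t) (w := wd μ s n) (z := z) (n := 4 * n)).const_mul
      (C * EE μ s n)⁻¹).exp_int h.em
    refine h1.congr (Eventually.of_forall fun η => ?_)
    show Real.exp ((C * EE μ s n)⁻¹ * Mh μ s (sl μ s) t (wd μ s n) z (4 * n) η) =
      Real.exp (Mh μ s (sl μ s) t (wd μ s n) z (4 * n) η / (C * EE μ s n))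
    congr 1
    ring
  have h1 := mul_meas_ge_le_integral_of_nonneg (μ := law μ)
    (Eventually.of_forall fun η => (Real.exp_pos (Mh μ s (sl μ s) t (wd μ s n) z (4 * n) η / (C * EE μ s n))).le) hint
    (Real.exp (b / (C * EE μ s n)))
  have h2 : (law μ).real {η | b < Mh μ s (sl μ s) t (wd μ s n) z (4 * n) η} ≤
      (law μ).real {η | Real.exp (b / (C * EE μ s n)) ≤
        Real.exp (Mh μ s (sl μ s) t (wd μ s n) z (4 * n) η / (C * EE μ s n))} := by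
    refine measureReal_mono (fun η hη => ?_)
    have hη' : b < Mh μ s (sl μ s) t (wd μ s n) z (4 * n) η := hη
    show Real.exp (b / (C * EE μ s n)) ≤ Real.exp (Mh μ s (sl μ s) t (wd μ s n) z (4 * n) η / (C * EE μ s n))
    exact Real.exp_le_exp.2 (div_le_div_of_nonneg_right hη'.le hCE.le)
  have h3 : Real.exp (b / (C * EE μ s n)) * (law μ).real {η | b < Mh μ s (sl μ s) t (wd μ s n) z (4 * n) η} ≤ C :=
    (mul_le_mul_of_nonneg_left h2 (Real.exp_nonneg _)).trans (h1.trans (h.luck n hn t z ht))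
  rw [Real.exp_neg, ← div_eq_mul_inv, le_div_iff₀ (Real.exp_pos _), mul_comm]
  exact h3

/-- One tilt. -/
theorem wi_prob (h : In μ s c C n₀) {n : ℕ} (hn : n₀ ≤ n) (hn1 : 1 ≤ n) {t : ℝ} (ht : |t| * wd μ s n ≤ c * EE μ s n)
    {D : ℝ} (hD : 0 ≤ D) (x₀ b : ℝ) :
    (law μ).real (Wi μ s t n x₀ D b)ᶜ ≤ (2 * D / wd μ s n + 2) * (C * Real.exp (-(b / (C * EE μ s n)))) := by
  have hw := h.wd_pos hn1
  have hC : 0 < C := lt_of_lt_of_le one_pos h.C1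
  obtain ⟨w, hwe⟩ : ∃ w : ℝ, w = wd μ s n := ⟨_, rfl⟩
  rw [← hwe] at hw ⊢
  obtain ⟨N, hN⟩ : ∃ N : ℕ, N = ⌈2 * D / w⌉₊ + 1 := ⟨_, rfl⟩
  have hr0 : 0 ≤ 2 * D / w := by positivity
  have hNle : (N : ℝ) ≤ 2 * D / w + 2 := by
    rw [hN]
    push_cast
    linarith [Nat.ceil_lt_add_one hr0]
  have hsub : (Wi μ s t n x₀ D b)ᶜ ⊆ ⋃ i ∈ Finset.range N,
      {η | b < Mh μ s (sl μ s) t (wd μ s n) (x₀ - D - w + (i : ℕ) * w) (4 * n) η} := by
    intro η hη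
    simp only [Wi, Set.mem_compl_iff, Set.mem_ofPred_eq, not_forall, not_le] at hη
    obtain ⟨r, x, j, h1, h2, h3⟩ := hη
    have h4 := abs_le.1 h2
    obtain ⟨q, hq⟩ : ∃ q : ℝ, q = ((x : ℝ) - sl μ s * r - x₀ + D) / w := ⟨_, rfl⟩
    have hqw : q * w = (x : ℝ) - sl μ s * r - x₀ + D := by rw [hq, div_mul_cancel₀ _ hw.ne']
    have hq0 : 0 ≤ q := by
      rw [hq]
      exact div_nonneg (by linarith [h4.1]) hw.le
    have hq1 : q ≤ 2 * D / w := by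
      rw [hq]
      exact div_le_div_of_nonneg_right (by linarith [h4.2]) hw.le
    have hi : ⌈q⌉₊ < N := by
      rw [hN]
      exact Nat.lt_succ_of_le (Nat.ceil_le_ceil hq1)
    have hu : q ≤ (⌈q⌉₊ : ℝ) := Nat.le_ceil q
    have hl : (⌈q⌉₊ : ℝ) < q + 1 := Nat.ceil_lt_add_one hq0
    refine Set.mem_biUnion (Finset.mem_coe.2 (Finset.mem_range.2 hi)) ?_
    refine lt_of_lt_of_le h3 (le_Mh (μ := μ) (s := s) (v := sl μ s) (h := t) (w := wd μ s n) η (q := ((r, x), j))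
      ((mem_Bx h.sl_pos.le h.sl_lt.le).2 ⟨h1, ?_, ?_⟩))
    · dsimp only
      have := mul_lt_mul_of_pos_right hl hw
      nlinarith
    · dsimp only
      rw [← hwe]
      have := mul_le_mul_of_nonneg_right hu hw.le
      nlinarith
  have h1 : (law μ).real (Wi μ s t n x₀ D b)ᶜ ≤ ∑ i ∈ Finset.range N,
      (law μ).real {η | b < Mh μ s (sl μ s) t (wd μ s n) (x₀ - D - w + (i : ℕ) * w) (4 * n) η} :=
    (measureReal_mono hsub (measure_ne_top _ _)).trans (measureReal_biUnion_finset_le _ _)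
  refine h1.trans ((Finset.sum_le_sum fun i _ => markov_Mh h hn ht).trans ?_)
  rw [Finset.sum_const, Finset.card_range, nsmul_eq_mul]
  exact mul_le_mul_of_nonneg_right hNle (by positivity)

theorem hc_nonneg (h : In μ s c C n₀) (n : ℕ) : 0 ≤ hc μ s c n := by
  have := h.c0
  have := h.wd_nonneg n
  have := (EE_pos (μ := μ) (s := s) n)
  unfold hc
  positivity

theorem hc_wd (h : In μ s c C n₀) {n : ℕ} (hn1 : 1 ≤ n) : hc μ s c n * wd μ s n = c * EE μ s n := by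
  unfold hc
  exact div_mul_cancel₀ _ (h.wd_pos hn1).ne'

/-- THE PROBABILITY OF `Jm`. -/
theorem jm_prob (h : In μ s c C n₀) {n : ℕ} (hn : n₀ ≤ n) (hn1 : 1 ≤ n) {D : ℝ} (hD : 0 ≤ D) (x₀ b : ℝ) :
    (law μ).real (Jm μ s c n x₀ D b)ᶜ ≤ 3 * ((2 * D / wd μ s n + 2) * (C * Real.exp (-(b / (C * EE μ s n))))) := by
  have hE := EE_pos (μ := μ) (s := s) n
  have hc0 := h.c0
  have hh := hc_nonneg h n
  have e1 := wi_prob h hn hn1 (t := 0) (by rw [abs_zero, zero_mul]; positivity) hD x₀ b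
  have e2 := wi_prob h hn hn1 (t := hc μ s c n) (by rw [abs_of_nonneg hh, hc_wd h hn1]) hD x₀ b
  have e3 := wi_prob h hn hn1 (t := -hc μ s c n) (by rw [abs_neg, abs_of_nonneg hh, hc_wd h hn1]) hD x₀ b
  have hs : (Jm μ s c n x₀ D b)ᶜ = (Wi μ s 0 n x₀ D b)ᶜ ∪ ((Wi μ s (hc μ s c n) n x₀ D b)ᶜ ∪
      (Wi μ s (-hc μ s c n) n x₀ D b)ᶜ) := by
    unfold Jm
    rw [Set.compl_inter, Set.compl_inter]
  rw [hs]
  have h1 := measureReal_union_le (μ := law μ) (Wi μ s 0 n x₀ D b)ᶜ ((Wi μ s (hc μ s c n) n x₀ D b)ᶜ ∪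
      (Wi μ s (-hc μ s c n) n x₀ D b)ᶜ)
  have h2 := measureReal_union_le (μ := law μ) (Wi μ s (hc μ s c n) n x₀ D b)ᶜ (Wi μ s (-hc μ s c n) n x₀ D b)ᶜ
  linarith

/-- The same seen from any site. -/
theorem jm_prob_sh (h : In μ s c C n₀) {n : ℕ} (hn : n₀ ≤ n) (hn1 : 1 ≤ n) {D : ℝ} (hD : 0 ≤ D) (x₀ b : ℝ) (a : Pt) :
    (law μ).real {η | sh a η ∉ Jm μ s c n x₀ D b} ≤
      3 * ((2 * D / wd μ s n + 2) * (C * Real.exp (-(b / (C * EE μ s n))))) := by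
  have h1 : (law μ).real {η | sh a η ∉ Jm μ s c n x₀ D b} = (law μ).real (Jm μ s c n x₀ D b)ᶜ := by
    have h2 := (mp_sh (μ := μ) a).measure_preimage (jm_meas (μ := μ) (s := s) (c := c) (n := n) (x₀ := x₀) (D := D) (b := b)).compl.nullMeasurableSet
    show ((law μ) ((sh a) ⁻¹' (Jm μ s c n x₀ D b)ᶜ)).toReal = ((law μ) (Jm μ s c n x₀ D b)ᶜ).toReal
    rw [h2]
  rw [h1]
  exact jm_prob h hn hn1 hD x₀ b

/-- THE PROBABILITY OF `Js`. -/
theorem js_prob (h : In μ s c C n₀) {n : ℕ} (hn : n₀ ≤ n) (hn1 : 1 ≤ n) (L : ℕ) {D : ℝ} (hD : 0 ≤ D) (x₀ b : ℝ) :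
    (law μ).real (Js μ s c n L x₀ D b)ᶜ ≤ L * (3 * ((2 * D / wd μ s n + 2) * (C * Real.exp (-(b / (C * EE μ s n)))))) := by
  have hsub : (Js μ s c n L x₀ D b)ᶜ ⊆ ⋃ i ∈ Finset.range L,
      {η | sh ((((i * n : ℕ) : ℤ)), 0) η ∉ Jm μ s c n (x₀ + sl μ s * (i * n : ℕ)) D b} := by
    intro η hη
    simp only [Js, Set.mem_compl_iff, Set.mem_ofPred_eq, not_forall] at hη
    obtain ⟨i, hi, h1⟩ := hη
    exact Set.mem_biUnion (Finset.mem_coe.2 (Finset.mem_range.2 hi)) h1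
  refine (measureReal_mono hsub (measure_ne_top _ _)).trans ((measureReal_biUnion_finset_le _ _).trans
    ((Finset.sum_le_sum fun i _ => jm_prob_sh h hn hn1 hD _ b _).trans ?_))
  rw [Finset.sum_const, Finset.card_range, nsmul_eq_mul]

end Prob

/-! ### Deterministic consequences -/

section Det

variable {μ : Measure ℝ} {s c : ℝ}

/-- One tilt against the displacement. -/
theorem W_le_tilt {v h : ℝ} (η : Env) (a : Pt) (n : ℕ) (y : ℤ) :
    W μ s η a n y ≤ Real.exp (T μ s v h η a n - h * ((y : ℝ) - v * n)) := by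
  by_cases hy : 0 ≤ y ∧ y ≤ n
  · have h1 := exp_T (μ := μ) (s := s) (v := v) (h := h) η a n
    have h2 : W μ s η a n y * Real.exp (h * ((y : ℝ) - v * n)) ≤ Real.exp (T μ s v h η a n) := by
      rw [h1]
      exact Finset.single_le_sum (f := fun y : ℤ => W μ s η a n y * Real.exp (h * ((y : ℝ) - v * n)))
        (fun y _ => mul_nonneg (W_nonneg _ _ _ _) (Real.exp_nonneg _)) (Finset.mem_Icc.2 hy)
    rw [Real.exp_sub, le_div_iff₀ (Real.exp_pos _)]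
    exact h2
  · rw [W_eq_zero η a hy]
    exact (Real.exp_pos _).le

/-- The mass of any set of displacements against a tilt. -/
theorem WS_le_tilt {v h : ℝ} (η : Env) (a : Pt) (n : ℕ) (A : Finset ℤ) {q : ℝ}
    (hA : ∀ y ∈ A, q ≤ h * ((y : ℝ) - v * n)) : WS μ s η a n A ≤ Real.exp (T μ s v h η a n - q) := by
  have h1 : WS μ s η a n A ≤ ∑ y ∈ A, Real.exp (-q) * (W μ s η a n y * Real.exp (h * ((y : ℝ) - v * n))) := by
    unfold WS
    refine Finset.sum_le_sum fun y hy => ?_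
    have h2 : (1 : ℝ) ≤ Real.exp (-q) * Real.exp (h * ((y : ℝ) - v * n)) := by
      rw [← Real.exp_add]
      exact Real.one_le_exp (by linarith [hA y hy])
    have h3 := mul_le_mul_of_nonneg_left h2 (W_nonneg (μ := μ) (s := s) η a n y)
    linarith [h3]
  have h2 : ∑ y ∈ A, (W μ s η a n y * Real.exp (h * ((y : ℝ) - v * n))) ≤ Real.exp (T μ s v h η a n) := by
    classical
    rw [exp_T]
    have h3 : ∑ y ∈ A, (W μ s η a n y * Real.exp (h * ((y : ℝ) - v * n))) =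
        ∑ y ∈ A.filter (fun y => y ∈ Finset.Icc (0 : ℤ) n), (W μ s η a n y * Real.exp (h * ((y : ℝ) - v * n))) := by
      rw [Finset.sum_filter]
      refine Finset.sum_congr rfl fun y _ => ?_
      split_ifs with hy
      · rfl
      · rw [Finset.mem_Icc] at hy
        rw [W_eq_zero η a hy, zero_mul]
    rw [h3]
    refine Finset.sum_le_sum_of_subset_of_nonneg (fun y hy => (Finset.mem_filter.1 hy).2) fun y _ _ =>
      mul_nonneg (W_nonneg _ _ _ _) (Real.exp_nonneg _)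
  rw [← Finset.mul_sum] at h1
  rw [sub_eq_add_neg, Real.exp_add, mul_comm]
  exact h1.trans (mul_le_mul_of_nonneg_left h2 (Real.exp_nonneg _))

/-- The exits through one line. -/
private lemma line_le (l : ℤ → ℤ) (η : Env) (n : ℕ) {B : ℝ}
    (hB : ∀ k : ℕ, k < n → W μ s η 0 (k + 1) (l ((k + 1 : ℕ) : ℤ)) *
      Real.exp (V μ s η (((k + 1 : ℕ) : ℤ), l ((k + 1 : ℕ) : ℤ)) (n - (k + 1))) ≤ B) :
    ∑ y ∈ Finset.Icc (0 : ℤ) n, ∑ k ∈ Finset.range n, W μ s η 0 (k + 1) (l ((k + 1 : ℕ) : ℤ)) *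
      W μ s η (((k + 1 : ℕ) : ℤ), l ((k + 1 : ℕ) : ℤ)) (n - (k + 1)) (y - l ((k + 1 : ℕ) : ℤ)) ≤ n * B := by
  rw [Finset.sum_comm]
  have h1 : ∀ k ∈ Finset.range n, ∑ y ∈ Finset.Icc (0 : ℤ) n, W μ s η 0 (k + 1) (l ((k + 1 : ℕ) : ℤ)) *
      W μ s η (((k + 1 : ℕ) : ℤ), l ((k + 1 : ℕ) : ℤ)) (n - (k + 1)) (y - l ((k + 1 : ℕ) : ℤ)) ≤ B := by
    intro k hk
    rw [Finset.mem_range] at hk
    rw [← Finset.mul_sum]
    refine le_trans (mul_le_mul_of_nonneg_left ?_ (W_nonneg _ _ _ _)) (hB k hk)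
    have h2 := WS_le_exp_V (μ := μ) (s := s) η (((k + 1 : ℕ) : ℤ), l ((k + 1 : ℕ) : ℤ)) (n - (k + 1))
      ((Finset.Icc (0 : ℤ) n).map (Equiv.subRight (l ((k + 1 : ℕ) : ℤ))).toEmbedding)
    unfold WS at h2
    rw [Finset.sum_map] at h2
    simpa using h2
  calc ∑ k ∈ Finset.range n, _ ≤ ∑ k ∈ Finset.range n, B := Finset.sum_le_sum h1
    _ = n * B := by rw [Finset.sum_const, Finset.card_range, nsmul_eq_mul]

/-- The paths from `0` which leave the strip. -/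
theorem leave_zero [IsProbabilityMeasure μ] {v h b ρ : ℝ} {K n : ℕ} (hv0 : 0 ≤ v) (hv1 : v ≤ 1)
    (hh : 0 ≤ h) (hK : 1 ≤ K) (hρ : (K : ℝ) ≤ ρ) (η : Env)
    (l1 : ∀ k : ℕ, k < n → T μ s v h η 0 (k + 1) ≤ b)
    (l2 : ∀ k : ℕ, k < n → T μ s v (-h) η 0 (k + 1) ≤ b)
    (l3 : ∀ (k : ℕ) (x : ℤ), k < n → |(x : ℝ) - v * ((k + 1 : ℕ) : ℝ)| ≤ K + 1 →
      V μ s η (((k + 1 : ℕ) : ℤ), x) (n - (k + 1)) ≤ b) :
    Real.exp (V μ s η 0 n) - ∑ y ∈ Finset.Icc (0 : ℤ) n, WR μ s (tb v (0 : Pt) ρ) η 0 n y ≤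
      2 * n * Real.exp (2 * b - h * (K - 1)) := by
  obtain ⟨lp, hlp⟩ : ∃ lp : ℤ → ℤ, lp = fun t : ℤ => ⌊v * (t : ℝ)⌋ + (K : ℤ) := ⟨_, rfl⟩
  obtain ⟨lm, hlm⟩ : ∃ lm : ℤ → ℤ, lm = fun t : ℤ => ⌊v * (t : ℝ)⌋ - (K : ℤ) := ⟨_, rfl⟩
  have hfm : ∀ t : ℤ, ⌊v * (t : ℝ)⌋ ≤ ⌊v * ((t + 1 : ℤ) : ℝ)⌋ ∧ ⌊v * ((t + 1 : ℤ) : ℝ)⌋ ≤ ⌊v * (t : ℝ)⌋ + 1 := by
    intro t
    constructor
    · refine Int.floor_le_floor ?_
      push_cast
      linarith
    · rw [← Int.floor_add_one]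
      refine Int.floor_le_floor ?_
      push_cast
      linarith
  have hp : IsLine lp := ⟨fun t => by rw [hlp]; dsimp only; linarith [(hfm t).1],
    fun t => by rw [hlp]; dsimp only; linarith [(hfm t).2]⟩
  have hm : IsLine lm := ⟨fun t => by rw [hlm]; dsimp only; linarith [(hfm t).1],
    fun t => by rw [hlm]; dsimp only; linarith [(hfm t).2]⟩
  have hf0 : ⌊v * ((0 : ℤ) : ℝ)⌋ = 0 := by simp
  have hp0 : 0 < lp 0 := by rw [hlp]; dsimp only; rw [hf0]; omega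
  have hm0 : lm 0 < 0 := by rw [hlm]; dsimp only; rw [hf0]; omega
  have hfl : ∀ t : ℤ, v * (t : ℝ) - 1 ≤ ((⌊v * (t : ℝ)⌋ : ℤ) : ℝ) ∧ ((⌊v * (t : ℝ)⌋ : ℤ) : ℝ) ≤ v * (t : ℝ) :=
    fun t => ⟨(Int.sub_one_lt_floor _).le, Int.floor_le _⟩
  have hpR : ∀ t : ℤ, v * (t : ℝ) + (K - 1) ≤ (lp t : ℝ) ∧ (lp t : ℝ) ≤ v * (t : ℝ) + K := by
    intro t
    have := hfl t
    rw [hlp]
    push_cast
    constructor <;> linarith
  have hmR : ∀ t : ℤ, v * (t : ℝ) - (K + 1) ≤ (lm t : ℝ) ∧ (lm t : ℝ) ≤ v * (t : ℝ) - K := by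
    intro t
    have := hfl t
    rw [hlm]
    push_cast
    constructor <;> linarith
  have hsub : Tb lm lp ⊆ tb v (0 : Pt) ρ := by
    rintro ⟨t, x⟩ hx
    obtain ⟨h1, h2⟩ := hx
    have e1 : lp t = ⌊v * (t : ℝ)⌋ + (K : ℤ) := by rw [hlp]
    have e2 : lm t = ⌊v * (t : ℝ)⌋ - (K : ℤ) := by rw [hlm]
    change lm t < x at h1
    change x < lp t at h2
    rw [e2] at h1
    rw [e1] at h2
    have h3 : x ≤ ⌊v * (t : ℝ)⌋ + (K : ℤ) := h2.le
    have h4 : ⌊v * (t : ℝ)⌋ - (K : ℤ) + 1 ≤ x := h1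
    have h3' : (x : ℝ) ≤ (⌊v * (t : ℝ)⌋ : ℝ) + K := by exact_mod_cast h3
    have h4' : (⌊v * (t : ℝ)⌋ : ℝ) - K + 1 ≤ (x : ℝ) := by exact_mod_cast h4
    have h5 := hfl t
    show |(((x : ℤ) - (0 : Pt).2 : ℤ) : ℝ) - v * (((t : ℤ) - (0 : Pt).1 : ℤ) : ℝ)| ≤ ρ
    rw [Prod.fst_zero, Prod.snd_zero, sub_zero, sub_zero, abs_le]
    constructor <;> linarith
  have q1 := line_le (μ := μ) (s := s) lp η n (B := Real.exp (2 * b - h * (K - 1))) (fun k hk => by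
    have hx := hpR ((k + 1 : ℕ) : ℤ)
    have hcast : ((((k + 1 : ℕ) : ℤ)) : ℝ) = ((k + 1 : ℕ) : ℝ) := by push_cast; ring
    rw [hcast] at hx
    have h1 := W_le_tilt (μ := μ) (s := s) (v := v) (h := h) η 0 (k + 1) (lp ((k + 1 : ℕ) : ℤ))
    have h2 : Real.exp (T μ s v h η 0 (k + 1) - h * ((lp ((k + 1 : ℕ) : ℤ) : ℝ) - v * ((k + 1 : ℕ) : ℝ))) ≤
        Real.exp (b - h * (K - 1)) := by
      refine Real.exp_le_exp.2 ?_
      have h3 : h * (K - 1) ≤ h * ((lp ((k + 1 : ℕ) : ℤ) : ℝ) - v * ((k + 1 : ℕ) : ℝ)) :=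
        mul_le_mul_of_nonneg_left (by linarith [hx.1]) hh
      linarith [l1 k hk]
    have h3 := Real.exp_le_exp.2 (l3 k (lp ((k + 1 : ℕ) : ℤ)) hk (by
      rw [abs_le]
      constructor <;> linarith [hx.1, hx.2]))
    calc _ ≤ Real.exp (b - h * (K - 1)) * Real.exp b :=
          mul_le_mul (h1.trans h2) h3 (Real.exp_nonneg _) (Real.exp_nonneg _)
      _ = Real.exp (2 * b - h * (K - 1)) := by rw [← Real.exp_add]; congr 1; ring)
  have q2 := line_le (μ := μ) (s := s) lm η n (B := Real.exp (2 * b - h * (K - 1))) (fun k hk => by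
    have hx := hmR ((k + 1 : ℕ) : ℤ)
    have hcast : ((((k + 1 : ℕ) : ℤ)) : ℝ) = ((k + 1 : ℕ) : ℝ) := by push_cast; ring
    rw [hcast] at hx
    have h1 := W_le_tilt (μ := μ) (s := s) (v := v) (h := -h) η 0 (k + 1) (lm ((k + 1 : ℕ) : ℤ))
    have h2 : Real.exp (T μ s v (-h) η 0 (k + 1) - -h * ((lm ((k + 1 : ℕ) : ℤ) : ℝ) - v * ((k + 1 : ℕ) : ℝ))) ≤
        Real.exp (b - h * (K - 1)) := by
      refine Real.exp_le_exp.2 ?_
      have h3 : h * (K - 1) ≤ h * (v * ((k + 1 : ℕ) : ℝ) - (lm ((k + 1 : ℕ) : ℤ) : ℝ)) :=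
        mul_le_mul_of_nonneg_left (by linarith [hx.2]) hh
      have h4 : - -h * ((lm ((k + 1 : ℕ) : ℤ) : ℝ) - v * ((k + 1 : ℕ) : ℝ)) =
          -(h * (v * ((k + 1 : ℕ) : ℝ) - (lm ((k + 1 : ℕ) : ℤ) : ℝ))) := by ring
      have h5 := l2 k hk
      linarith
    have h3 := Real.exp_le_exp.2 (l3 k (lm ((k + 1 : ℕ) : ℤ)) hk (by
      rw [abs_le]
      constructor <;> linarith [hx.1, hx.2]))
    calc _ ≤ Real.exp (b - h * (K - 1)) * Real.exp b :=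
          mul_le_mul (h1.trans h2) h3 (Real.exp_nonneg _) (Real.exp_nonneg _)
      _ = Real.exp (2 * b - h * (K - 1)) := by rw [← Real.exp_add]; congr 1; ring)
  have hsum : Real.exp (V μ s η 0 n) ≤ ∑ y ∈ Finset.Icc (0 : ℤ) n, (WR μ s (Tb lm lp) η 0 n y +
      (∑ k ∈ Finset.range n, W μ s η 0 (k + 1) (lp ((k + 1 : ℕ) : ℤ)) *
        W μ s η (((k + 1 : ℕ) : ℤ), lp ((k + 1 : ℕ) : ℤ)) (n - (k + 1)) (y - lp ((k + 1 : ℕ) : ℤ))) +
      ∑ k ∈ Finset.range n, W μ s η 0 (k + 1) (lm ((k + 1 : ℕ) : ℤ)) *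
        W μ s η (((k + 1 : ℕ) : ℤ), lm ((k + 1 : ℕ) : ℤ)) (n - (k + 1)) (y - lm ((k + 1 : ℕ) : ℤ))) := by
    rw [exp_V]
    unfold WS
    exact Finset.sum_le_sum fun y _ => tube_split (μ := μ) (s := s) hm hp hm0 hp0 η n y
  rw [Finset.sum_add_distrib, Finset.sum_add_distrib] at hsum
  have hreg : ∑ y ∈ Finset.Icc (0 : ℤ) n, WR μ s (Tb lm lp) η 0 n y ≤ ∑ y ∈ Finset.Icc (0 : ℤ) n,
      WR μ s (tb v (0 : Pt) ρ) η 0 n y := by
    refine Finset.sum_le_sum fun y _ => ?_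
    rw [WR_def', WR_def']
    exact mul_le_mul_of_nonneg_left (Zr_mono hsub η 0 n y) (Real.exp_nonneg _)
  linarith

theorem tb_sh (v : ℝ) (a : Pt) (ρ : ℝ) : {p : Pt | p + a ∈ tb v a ρ} = tb v (0 : Pt) ρ := by
  ext p
  show |(((p + a).2 - a.2 : ℤ) : ℝ) - v * (((p + a).1 - a.1 : ℤ) : ℝ)| ≤ ρ ↔
    |((p.2 - (0 : Pt).2 : ℤ) : ℝ) - v * ((p.1 - (0 : Pt).1 : ℤ) : ℝ)| ≤ ρ
  rw [Prod.snd_add, Prod.fst_add, Prod.fst_zero, Prod.snd_zero, add_sub_cancel_right, add_sub_cancel_right, sub_zero, sub_zero]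

variable {n : ℕ} {x₀ D b : ℝ} {η : Env}

/-- UP. -/
theorem jm_V (hη : η ∈ Jm μ s c n x₀ D b) {t : ℕ} {x : ℤ} {j : ℕ} (h1 : t + j ≤ 4 * n)
    (h2 : |(x : ℝ) - sl μ s * t - x₀| ≤ D) : V μ s η ((t : ℤ), x) j ≤ b := by
  have := hη.1 t x j h1 h2
  rwa [T_zero_tilt] at this

/-- The mass of the displacements which are far. -/
theorem jm_far (hh : 0 ≤ hc μ s c n) (hη : η ∈ Jm μ s c n x₀ D b) {t : ℕ} {x : ℤ} {j : ℕ} (h1 : t + j ≤ 4 * n)
    (h2 : |(x : ℝ) - sl μ s * t - x₀| ≤ D) {ρ : ℝ} (A : Finset ℤ) (hA : ∀ y ∈ A, ρ ≤ |(y : ℝ) - sl μ s * j|) :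
    WS μ s η ((t : ℤ), x) j A ≤ 2 * Real.exp (b - hc μ s c n * ρ) := by
  classical
  have hs : WS μ s η ((t : ℤ), x) j A ≤ WS μ s η ((t : ℤ), x) j (A.filter fun y => ρ ≤ (y : ℝ) - sl μ s * j) +
      WS μ s η ((t : ℤ), x) j (A.filter fun y => ¬ ρ ≤ (y : ℝ) - sl μ s * j) := by
    unfold WS
    rw [Finset.sum_filter_add_sum_filter_not]
  have e1 := WS_le_tilt (μ := μ) (s := s) (v := sl μ s) (h := hc μ s c n) η ((t : ℤ), x) j
    (A.filter fun y => ρ ≤ (y : ℝ) - sl μ s * j) (q := hc μ s c n * ρ)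
    (fun y hy => mul_le_mul_of_nonneg_left (Finset.mem_filter.1 hy).2 hh)
  have e2 := WS_le_tilt (μ := μ) (s := s) (v := sl μ s) (h := -hc μ s c n) η ((t : ℤ), x) j
    (A.filter fun y => ¬ ρ ≤ (y : ℝ) - sl μ s * j) (q := hc μ s c n * ρ) (fun y hy => by
      obtain ⟨k1, k2⟩ := Finset.mem_filter.1 hy
      have k3 : ρ ≤ -((y : ℝ) - sl μ s * j) := by
        rcases le_abs.1 (hA y k1) with k4 | k4
        · exact absurd k4 k2
        · exact k4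
      have k5 := mul_le_mul_of_nonneg_left k3 hh
      linarith)
  have e3 : Real.exp (T μ s (sl μ s) (hc μ s c n) η ((t : ℤ), x) j - hc μ s c n * ρ) ≤ Real.exp (b - hc μ s c n * ρ) :=
    Real.exp_le_exp.2 (by linarith [hη.2.1 t x j h1 h2])
  have e4 : Real.exp (T μ s (sl μ s) (-hc μ s c n) η ((t : ℤ), x) j - hc μ s c n * ρ) ≤ Real.exp (b - hc μ s c n * ρ) :=
    Real.exp_le_exp.2 (by linarith [hη.2.2 t x j h1 h2])
  linarith

/-- One displacement. -/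
theorem jm_W (hη : η ∈ Jm μ s c n x₀ D b) {t : ℕ} {x : ℤ} {j : ℕ} (h1 : t + j ≤ 4 * n)
    (h2 : |(x : ℝ) - sl μ s * t - x₀| ≤ D) (y : ℤ) :
    W μ s η ((t : ℤ), x) j y ≤ Real.exp (b - hc μ s c n * |(y : ℝ) - sl μ s * j|) := by
  rcases abs_cases ((y : ℝ) - sl μ s * j) with ⟨h3, _⟩ | ⟨h3, _⟩
  · rw [h3]
    exact (W_le_tilt (h := hc μ s c n) (v := sl μ s) _ _ _ _).trans
      (Real.exp_le_exp.2 (by linarith [hη.2.1 t x j h1 h2]))
  · rw [h3]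
    exact (W_le_tilt (h := -hc μ s c n) (v := sl μ s) _ _ _ _).trans
      (Real.exp_le_exp.2 (by linarith [hη.2.2 t x j h1 h2]))

/-- THE PATHS WHICH LEAVE THE STRIP of half width `ρ` around the line through the start. -/
theorem jm_leave [IsProbabilityMeasure μ] (hv0 : 0 ≤ sl μ s) (hv1 : sl μ s ≤ 1) (hh : 0 ≤ hc μ s c n)
    (hη : η ∈ Jm μ s c n x₀ D b) {t : ℕ} {x : ℤ} {j : ℕ} (h1 : t + j ≤ 4 * n) {ρ : ℝ} (hρ : 1 ≤ ρ)
    (h2 : |(x : ℝ) - sl μ s * t - x₀| + ρ + 1 ≤ D) :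
    Real.exp (V μ s η ((t : ℤ), x) j) - ∑ y ∈ Finset.Icc (0 : ℤ) j, WR μ s (tb (sl μ s) ((t : ℤ), x) ρ) η ((t : ℤ), x) j y ≤
      2 * j * Real.exp (2 * b - hc μ s c n * (ρ - 2)) := by
  obtain ⟨K, hK⟩ : ∃ K : ℕ, K = ⌊ρ⌋₊ := ⟨_, rfl⟩
  have hρ0 : 0 ≤ ρ := by linarith
  have hK1 : 1 ≤ K := by rw [hK]; exact Nat.le_floor (by exact_mod_cast hρ)
  have hKρ : (K : ℝ) ≤ ρ := by rw [hK]; exact Nat.floor_le hρ0
  have hKρ' : ρ - 1 < K := by rw [hK]; exact Nat.sub_one_lt_floor ρ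
  have ha : |(x : ℝ) - sl μ s * t - x₀| ≤ D := by linarith
  have e := leave_zero (μ := μ) (s := s) (v := sl μ s) (h := hc μ s c n) (b := b) (ρ := ρ) (K := K) (n := j) hv0 hv1 hh
    hK1 hKρ (sh ((t : ℤ), x) η)
    (fun k hk => by
      rw [T_sh, zero_add]
      exact hη.2.1 t x (k + 1) (by omega) ha)
    (fun k hk => by
      rw [T_sh, zero_add]
      exact hη.2.2 t x (k + 1) (by omega) ha)
    (fun k y hk hy => by
      rw [V_sh]
      have e1 : ((((k + 1 : ℕ) : ℤ), y) : Pt) + ((t : ℤ), x) = (((k + 1 + t : ℕ) : ℤ), y + x) := by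
        rw [Prod.mk_add_mk]
        push_cast
        rfl
      rw [e1]
      refine jm_V hη (by omega) ?_
      have h3 := abs_le.1 hy
      have h4 : |(x : ℝ) - sl μ s * t - x₀| ≤ D - ρ - 1 := by linarith
      have h5 := abs_le.1 h4
      push_cast at h3 ⊢
      rw [abs_le]
      constructor <;> nlinarith [h3.1, h3.2, h5.1, h5.2])
  rw [V_sh, zero_add] at e
  have e2 : ∀ y : ℤ, WR μ s (tb (sl μ s) (0 : Pt) ρ) (sh ((t : ℤ), x) η) 0 j y =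
      WR μ s (tb (sl μ s) ((t : ℤ), x) ρ) η ((t : ℤ), x) j y := by
    intro y
    rw [← tb_sh (sl μ s) ((t : ℤ), x) ρ, WR_sh, zero_add]
  simp only [e2] at e
  refine e.trans ?_
  refine mul_le_mul_of_nonneg_left (Real.exp_le_exp.2 ?_) (by positivity)
  have h6 : hc μ s c n * (ρ - 2) ≤ hc μ s c n * ((K : ℝ) - 1) := mul_le_mul_of_nonneg_left (by linarith) hh
  linarith

end Det

end

end Pool.Agent.W_7d29a1_C1.H75
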