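import Pool.Agent.W_7d29a1_HS.Reg

/-!
MP_7d29a1_pr, C1: the growth of the width against the growth of the unit (helper67). `wd n / wd m` is larger than `EE n / EE m` by a
power of `n / m`; choice of the number `N` of the sub blocks.
-/

set_option autoImplicit false

namespace Pool.Agent.W_7d29a1_C1

open MeasureTheory ProbabilityTheory Filter Topology
open Pool.Agent.W_7d29a1_F Pool.Agent.W_7d29a1_h4g Pool.Agent.W_7d29a1_H Pool.Agent.W_7d29a1_HS

noncomputable section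

variable {μ : Measure ℝ} [IsProbabilityMeasure μ] {s c C : ℝ} {n₀ : ℕ}

/-- The width grows faster than the unit, by a power of the ratio. -/
theorem wd_gain (h : In μ s c C n₀) : ∃ (K a : ℝ) (n₁ : ℕ), 0 < K ∧ 0 < a ∧ 1 ≤ n₁ ∧ ∀ m n : ℕ, n₁ ≤ m → m ≤ n →
    ((n : ℝ) / m) ^ a * (EE μ s n * wd μ s m) ≤ K * (EE μ s m * wd μ s n) := by
  obtain ⟨K, a, n₁, hK, ha, hn1, hv⟩ := vA_pow h
  obtain ⟨b, K2, hb, hK2, hJ⟩ := J_reg h
  obtain ⟨p, A, n₂, hp, hA, hn2, hJw⟩ := J_wd h one_pos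
  obtain ⟨n₃, hn₃⟩ := eventually_atTop.1 (h.tv.eventually_le_const hb)
  refine ⟨max (A / (p * b) * K ^ b) (2 * K ^ b), a * b, max n₁ (max n₂ n₃), by positivity, by positivity,
    hn1.trans (le_max_left _ _), fun m n hm hmn => ?_⟩
  have hm1 : n₁ ≤ m := (le_max_left _ _).trans hm
  have hm2 : n₂ ≤ m := (le_max_left _ _).trans ((le_max_right _ _).trans hm)
  have hm3 : n₃ ≤ m := (le_max_right _ _).trans ((le_max_right _ _).trans hm)
  have h1m : 1 ≤ m := hn1.trans hm1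
  have h1n : 1 ≤ n := h1m.trans hmn
  have hmR : (0 : ℝ) < m := by exact_mod_cast h1m
  have hnR : (0 : ℝ) < n := by exact_mod_cast h1n
  have hvm := h.vA_pos h1m
  have hvn := h.vA_pos h1n
  have hEm := EE_pos (μ := μ) (s := s) m
  have hEn := EE_pos (μ := μ) (s := s) n
  obtain ⟨q, hq⟩ : ∃ q : ℝ, q = (n : ℝ) / m := ⟨_, rfl⟩
  have hq0 : 0 < q := by rw [hq]; positivity
  have hmn' : ((m : ℝ) / n) = q⁻¹ := by rw [hq, inv_div]
  rw [← hq]
  obtain ⟨R, hR⟩ : ∃ R : ℝ, R = vA 1 μ s m / vA 1 μ s n := ⟨_, rfl⟩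
  have hR0 : 0 < R := by rw [hR]; positivity
  have hRv : R * vA 1 μ s n = vA 1 μ s m := by rw [hR]; field_simp
  -- `q ^ a ≤ K R`
  have hqR : q ^ a ≤ K * R := by
    have h1 := hv m n hm1 hmn
    rw [hmn', Real.inv_rpow hq0.le, ← hRv] at h1
    have hqa : 0 < q ^ a := by positivity
    have h2 : vA 1 μ s n * q ^ a ≤ K * R * vA 1 μ s n := by
      calc vA 1 μ s n * q ^ a ≤ K * (q ^ a)⁻¹ * (R * vA 1 μ s n) * q ^ a := mul_le_mul_of_nonneg_right h1 hqa.le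
        _ = K * R * vA 1 μ s n := by field_simp
    rw [mul_comm] at h2
    exact le_of_mul_le_mul_right h2 hvn
  have hqab : q ^ (a * b) ≤ K ^ b * R ^ b := by
    rw [Real.rpow_mul hq0.le, ← Real.mul_rpow hK.le hR0.le]
    exact Real.rpow_le_rpow (by positivity) hqR hb.le
  rcases le_total 1 R with hR1 | hR1
  · -- the power of the rate function
    have h1 := (hJ (vA 1 μ s n) R hR1 (by rw [hRv, abs_of_pos hvm]; exact hn₃ m hm3)).1
    rw [hRv] at h1
    have h2 := (hJw n (hm2.trans hmn) (vA 1 μ s n) (by rw [abs_of_pos hvn, one_mul])).1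
    have h3 := (hJw m hm2 (vA 1 μ s m) (by rw [abs_of_pos hvm, one_mul])).2
    have h4 : p * b * R ^ (1 + b) * (EE μ s n / n) ≤ A * (EE μ s m / m) := by
      have h5 : p * (EE μ s n / n) ≤ J μ s (vA 1 μ s n) := by
        rw [← mul_div_assoc, div_le_iff₀ hnR]
        linarith
      have h6 : J μ s (vA 1 μ s m) ≤ A * (EE μ s m / m) := by
        rw [← mul_div_assoc, le_div_iff₀ hmR]
        linarith
      have h7 : 0 ≤ b * R ^ (1 + b) := by positivity
      calc p * b * R ^ (1 + b) * (EE μ s n / n) = b * R ^ (1 + b) * (p * (EE μ s n / n)) := by ring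
        _ ≤ b * R ^ (1 + b) * J μ s (vA 1 μ s n) := mul_le_mul_of_nonneg_left h5 h7
        _ ≤ J μ s (vA 1 μ s m) := h1
        _ ≤ _ := h6
    have h8 : R ^ b * (EE μ s n * wd μ s m) ≤ A / (p * b) * (EE μ s m * wd μ s n) := by
      have e1 : R ^ (1 + b) = R * R ^ b := by rw [Real.rpow_add hR0, Real.rpow_one]
      rw [e1] at h4
      have e2 : R ^ b * (EE μ s n * wd μ s m) = (n * m * vA 1 μ s n / (p * b)) * (p * b * (R * R ^ b) * (EE μ s n / n)) := by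
        unfold wd
        rw [← hRv]
        field_simp
      have e3 : A / (p * b) * (EE μ s m * wd μ s n) = (n * m * vA 1 μ s n / (p * b)) * (A * (EE μ s m / m)) := by
        unfold wd
        field_simp
      rw [e2, e3]
      exact mul_le_mul_of_nonneg_left h4 (by positivity)
    have hw0 : 0 ≤ EE μ s n * wd μ s m := mul_nonneg hEn.le (h.wd_nonneg m)
    have hw1 : 0 ≤ EE μ s m * wd μ s n := mul_nonneg hEm.le (h.wd_nonneg n)
    calc q ^ (a * b) * (EE μ s n * wd μ s m) ≤ K ^ b * R ^ b * (EE μ s n * wd μ s m) :=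
          mul_le_mul_of_nonneg_right hqab hw0
      _ = K ^ b * (R ^ b * (EE μ s n * wd μ s m)) := by ring
      _ ≤ K ^ b * (A / (p * b) * (EE μ s m * wd μ s n)) := mul_le_mul_of_nonneg_left h8 (by positivity)
      _ = A / (p * b) * K ^ b * (EE μ s m * wd μ s n) := by ring
      _ ≤ _ := mul_le_mul_of_nonneg_right (le_max_left _ _) hw1
  · have h1 : q ^ (a * b) ≤ K ^ b := by
      refine hqab.trans ?_
      have h2 : R ^ b ≤ 1 := Real.rpow_le_one hR0.le hR1 hb.le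
      have h3 : 0 ≤ K ^ b := by positivity
      nlinarith
    have h2 := wd_growth_one h h1m hmn
    have hw0 : 0 ≤ EE μ s n * wd μ s m := mul_nonneg hEn.le (h.wd_nonneg m)
    have hw1 : 0 ≤ EE μ s m * wd μ s n := mul_nonneg hEm.le (h.wd_nonneg n)
    calc q ^ (a * b) * (EE μ s n * wd μ s m) ≤ K ^ b * (EE μ s n * wd μ s m) := mul_le_mul_of_nonneg_right h1 hw0
      _ ≤ K ^ b * (2 * (EE μ s m * wd μ s n)) := by
          refine mul_le_mul_of_nonneg_left ?_ (by positivity)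
          linarith
      _ = 2 * K ^ b * (EE μ s m * wd μ s n) := by ring
      _ ≤ _ := mul_le_mul_of_nonneg_right (le_max_right _ _) hw1

/-- The same with quotients: `wd n / wd m` is at least `(n / m) ^ a` times `EE n / EE m`, up to a constant. -/
theorem wd_gain_div (h : In μ s c C n₀) : ∃ (k a : ℝ) (n₁ : ℕ), 0 < k ∧ 0 < a ∧ 1 ≤ n₁ ∧ ∀ m n : ℕ, n₁ ≤ m → m ≤ n →
    k * ((n : ℝ) / m) ^ a * (EE μ s n / EE μ s m) ≤ wd μ s n / wd μ s m := by
  obtain ⟨K, a, n₁, hK, ha, hn1, hv⟩ := wd_gain h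
  refine ⟨K⁻¹, a, n₁, by positivity, ha, hn1, fun m n hm hmn => ?_⟩
  have h1 := hv m n hm hmn
  have hwm := h.wd_pos (hn1.trans hm)
  have hEm := EE_pos (μ := μ) (s := s) m
  rw [le_div_iff₀ hwm]
  have e1 : K⁻¹ * ((n : ℝ) / m) ^ a * (EE μ s n / EE μ s m) * wd μ s m =
      (K * EE μ s m)⁻¹ * (((n : ℝ) / m) ^ a * (EE μ s n * wd μ s m)) := by
    field_simp
  rw [e1]
  refine (mul_le_mul_of_nonneg_left h1 (by positivity)).trans (le_of_eq ?_)
  field_simp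

/-- Powers of a large number. -/
private theorem pow_big {k a : ℝ} (hk : 0 < k) (ha : 0 < a) (Y : ℝ) : ∃ N₀ : ℕ, 1 ≤ N₀ ∧ ∀ N : ℕ, N₀ ≤ N → Y ≤ k * (N : ℝ) ^ a := by
  have h1 : Tendsto (fun N : ℕ => k * (N : ℝ) ^ a) atTop atTop :=
    ((tendsto_rpow_atTop ha).comp tendsto_natCast_atTop_atTop).const_mul_atTop hk
  obtain ⟨N₀, hN⟩ := eventually_atTop.1 (h1.eventually_ge_atTop Y)
  exact ⟨max N₀ 1, le_max_right _ _, fun N h => hN N ((le_max_left _ _).trans h)⟩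

private theorem ratio_mul {N n : ℕ} (hn : 1 ≤ n) : (((N * n : ℕ) : ℝ) / n) = N := by
  have : (0 : ℝ) < n := by exact_mod_cast hn
  push_cast
  field_simp

/-- **The choice of the sub blocks** (F2 (c)): the cost of leaving a strip of half width `del wd (N n)` in `n` rows is larger than
`Y EE (N n)`, for `N` large, uniformly in `n`. -/
theorem jump_num (h : In μ s c C n₀) (Y : ℝ) {del : ℝ} (hd : 0 < del) : ∃ N₀ n₁ : ℕ, 1 ≤ N₀ ∧ 1 ≤ n₁ ∧ ∀ N n : ℕ, N₀ ≤ N → n₁ ≤ n →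
    Y * EE μ s (N * n) ≤ del * (wd μ s (N * n) / wd μ s n) * EE μ s n := by
  obtain ⟨k, a, n₁, hk, ha, hn1, hg⟩ := wd_gain_div h
  obtain ⟨N₀, hN0, hN⟩ := pow_big (mul_pos hd hk) ha Y
  refine ⟨N₀, n₁, hN0, hn1, fun N n hNN hn => ?_⟩
  have h1n : 1 ≤ n := hn1.trans hn
  have h1N : 1 ≤ N := hN0.trans hNN
  have h1 := hg n (N * n) hn (Nat.le_mul_of_pos_left n h1N)
  rw [ratio_mul h1n] at h1
  have hE := EE_pos (μ := μ) (s := s) n
  have hE2 := EE_pos (μ := μ) (s := s) (N * n)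
  have h2 := hN N hNN
  calc Y * EE μ s (N * n) ≤ del * k * (N : ℝ) ^ a * EE μ s (N * n) := mul_le_mul_of_nonneg_right h2 hE2.le
    _ = del * (k * (N : ℝ) ^ a * (EE μ s (N * n) / EE μ s n)) * EE μ s n := by field_simp
    _ ≤ _ := mul_le_mul_of_nonneg_right (mul_le_mul_of_nonneg_left h1 hd.le) hE.le

/-- The ratio of the widths is between two powers of `N`, uniformly in `n`. -/
theorem wd_pow_two (h : In μ s c C n₀) : ∃ (k K a b : ℝ) (n₁ : ℕ), 0 < k ∧ 0 < K ∧ 0 < a ∧ 0 < b ∧ b < 1 ∧ 1 ≤ n₁ ∧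
    ∀ N n : ℕ, 1 ≤ N → n₁ ≤ n → k * (N : ℝ) ^ a * wd μ s n ≤ wd μ s (N * n) ∧ wd μ s (N * n) ≤ K * (N : ℝ) ^ b * wd μ s n := by
  obtain ⟨a, k, ha, hk, n₁, hn1, h1⟩ := wd_ratio h
  obtain ⟨K, b, n₂, hK, hb, hn2, h2⟩ := wd_pow h
  refine ⟨k, K, a, 1 - min b (1 / 2), max n₁ n₂, hk, hK, ha, ?_, ?_, hn1.trans (le_max_left _ _), fun N n hN hn => ?_⟩
  · have := min_le_right b (1 / 2 : ℝ)
    linarith
  · have : 0 < min b (1 / 2 : ℝ) := by positivity
    linarith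
  have h1n : 1 ≤ n := hn1.trans ((le_max_left _ _).trans hn)
  have hNn : n ≤ N * n := Nat.le_mul_of_pos_left n hN
  have h3 := h1 n (N * n) ((le_max_left _ _).trans hn) hNn
  have h4 := h2 n (N * n) ((le_max_right _ _).trans hn) hNn
  rw [ratio_mul h1n] at h3 h4
  refine ⟨h3, h4.trans ?_⟩
  refine mul_le_mul_of_nonneg_right (mul_le_mul_of_nonneg_left ?_ hK.le) (h.wd_nonneg n)
  refine Real.rpow_le_rpow_of_exponent_le (by exact_mod_cast hN) ?_
  have := min_le_left b (1 / 2 : ℝ)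
  linarith

/-- A power times a stretched exponential. -/
private theorem pow_exp_small {k a B : ℝ} (hk : 0 < k) (ha : 0 < a) {e : ℝ} (he : 0 < e) : ∃ N₀ : ℕ, 1 ≤ N₀ ∧ ∀ N : ℕ, N₀ ≤ N →
    (N : ℝ) ^ B * Real.exp (-(k * (N : ℝ) ^ a)) ≤ e := by
  have h1 : Tendsto (fun x : ℝ => x ^ (B / a) * Real.exp (-k * x)) atTop (𝓝 0) := tendsto_rpow_mul_exp_neg_mul_atTop_nhds_zero _ _ hk
  have h2 : Tendsto (fun N : ℕ => (N : ℝ) ^ a) atTop atTop := (tendsto_rpow_atTop ha).comp tendsto_natCast_atTop_atTop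
  obtain ⟨N₀, hN⟩ := eventually_atTop.1 ((h1.comp h2).eventually_le_const he)
  refine ⟨max N₀ 1, le_max_right _ _, fun N h => ?_⟩
  have h3 := hN N ((le_max_left _ _).trans h)
  have hN0 : (0 : ℝ) ≤ N := Nat.cast_nonneg N
  simp only [Function.comp] at h3
  rw [← Real.rpow_mul hN0, mul_div_cancel₀ _ ha.ne'] at h3
  rwa [neg_mul] at h3

/-- **The probability of a bad sub block**: a polynomial number of boxes against the stretched exponential in the ratio of the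
widths. -/
theorem jump_prob (h : In μ s c C n₀) (A B : ℝ) {q e : ℝ} (hq : 0 < q) (he : 0 < e) : ∃ N₀ n₁ : ℕ, 1 ≤ N₀ ∧ 1 ≤ n₁ ∧
    ∀ N n : ℕ, N₀ ≤ N → n₁ ≤ n → A * (N : ℝ) ^ B * Real.exp (-(q * (wd μ s (N * n) / wd μ s n))) ≤ e := by
  obtain ⟨k, K, a, b, n₁, hk, hK, ha, hb, hb1, hn1, hw⟩ := wd_pow_two h
  obtain ⟨N₀, hN0, hN⟩ := pow_exp_small (B := B) (mul_pos hq hk) ha (div_pos he (show 0 < |A| + 1 by positivity))
  refine ⟨N₀, n₁, hN0, hn1, fun N n hNN hn => ?_⟩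
  have h1 := (hw N n (hN0.trans hNN) hn).1
  have hwn := h.wd_pos (hn1.trans hn)
  have h2 : k * (N : ℝ) ^ a ≤ wd μ s (N * n) / wd μ s n := by rwa [le_div_iff₀ hwn]
  have h3 := hN N hNN
  have hA : A ≤ |A| + 1 := (le_abs_self A).trans (by linarith)
  have h4 : Real.exp (-(q * (wd μ s (N * n) / wd μ s n))) ≤ Real.exp (-(q * k * (N : ℝ) ^ a)) := by
    rw [Real.exp_le_exp]
    have := mul_le_mul_of_nonneg_left h2 hq.le
    linarith
  have h5 : (0 : ℝ) ≤ (N : ℝ) ^ B := Real.rpow_nonneg (Nat.cast_nonneg N) _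
  calc A * (N : ℝ) ^ B * Real.exp (-(q * (wd μ s (N * n) / wd μ s n)))
      ≤ (|A| + 1) * (N : ℝ) ^ B * Real.exp (-(q * k * (N : ℝ) ^ a)) :=
        mul_le_mul (mul_le_mul_of_nonneg_right hA h5) h4 (Real.exp_pos _).le (by positivity)
    _ = (|A| + 1) * ((N : ℝ) ^ B * Real.exp (-(q * k * (N : ℝ) ^ a))) := by ring
    _ ≤ (|A| + 1) * (e / (|A| + 1)) := mul_le_mul_of_nonneg_left h3 (by positivity)
    _ = e := by field_simp

end

end Pool.Agent.W_7d29a1_C1
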