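import Pool.Agent.W_7d29a1_C1.FunA20
import Pool.Agent.W_7d29a1_C1.Jmp75
import Pool.Agent.W_7d29a1_C1.JmpN67

/-!
MP_7d29a1_pr, [C1] SLAB LEMMA, assembly: `upexit20`, `jumpP20` (probabilities of the decreasing events of `Fun20`), and
`fun20`: for every event `A` which is decreasing off the protected strips, `P (A ∩ FUN20) ≥ c₁ > 0` with `c₁` a function
of `P (A)` and of the constants only. (helper20)
-/

set_option autoImplicit false

namespace Pool.Agent.W_7d29a1_C1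

open MeasureTheory ProbabilityTheory Filter Topology
open Pool.Agent.W_7d29a1_F Pool.Agent.W_7d29a1_h4g Pool.Agent.W_7d29a1_H Pool.Agent.W_7d29a1_HS
open Pool.Agent.W_7d29a1_HL (cS measurable_cS cS_dep)
open Pool.Agent.W_7d29a1_HR (Dec Fin' exit_sum_mono cS_mono_env V_mono_env)
open Pool.Agent.W_7d29a1_C1.F31 (DecO FinO)
open Pool.Agent.W_7d29a1_C1.S71 (Off)
open Pool.Agent.W_7d29a1_C1.H75 (Jm Js hc)

noncomputable section

/-- The constants of `upexit20`. -/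
theorem num20 {C c K G eps : ℝ} (hC : 1 ≤ C) (hc : 0 < c) (heps : 0 < eps) (hK : 0 ≤ K) (hG : 0 ≤ G) :
    ∃ K₃ U : ℝ, K + 1 ≤ K₃ ∧ 0 ≤ U ∧ 3 * (2 * K₃ + 2) * C * Real.exp (-(U / C)) ≤ eps ∧ 2 * U + G ≤ c * (K₃ - K) := by
  have hC0 : 0 < C := by linarith
  obtain ⟨a, ha⟩ : ∃ a : ℝ, a = 24 * C ^ 2 / (eps * c) := ⟨_, rfl⟩
  have ha0 : 0 < a := by rw [ha]; positivity
  obtain ⟨K₃, hK₃⟩ : ∃ K₃ : ℝ, K₃ = 2 * K + 2 + (2 / c) * (2 * C * |Real.log a| + G) := ⟨_, rfl⟩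
  have hr0 : 0 ≤ 2 * C * |Real.log a| + G := by positivity
  have hK3 : 2 * K + 2 ≤ K₃ := by
    rw [hK₃]
    have : 0 ≤ (2 / c) * (2 * C * |Real.log a| + G) := by positivity
    linarith
  have hcK : c * K₃ = c * (2 * K + 2) + 2 * (2 * C * |Real.log a| + G) := by
    rw [hK₃]
    field_simp
  obtain ⟨y, hy⟩ : ∃ y : ℝ, y = 6 * (K₃ + 1) * C / eps := ⟨_, rfl⟩
  have hy0 : 0 < y := by
    rw [hy]
    have : 0 < K₃ + 1 := by linarith
    positivity
  have hlog : Real.log y ≤ y / a + Real.log a := by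
    have h1 := Real.add_one_le_exp (Real.log (y / a))
    rw [Real.exp_log (by positivity), Real.log_div hy0.ne' ha0.ne'] at h1
    linarith
  have hya : 2 * C * (y / a) = c / 2 * (K₃ + 1) := by
    rw [hy, ha]
    field_simp
    ring
  refine ⟨K₃, C * max (Real.log y) 0, by linarith, by positivity, ?_, ?_⟩
  · have h1 : Real.exp (-(C * max (Real.log y) 0 / C)) ≤ 1 / y := by
      rw [mul_div_cancel_left₀ _ hC0.ne', one_div, ← Real.exp_log hy0, ← Real.exp_neg]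
      refine Real.exp_le_exp.2 (neg_le_neg ?_)
      rw [Real.exp_log hy0]
      exact le_max_left _ _
    have h2 : 0 ≤ 3 * (2 * K₃ + 2) * C := by
      have : 0 ≤ 2 * K₃ + 2 := by linarith
      positivity
    refine (mul_le_mul_of_nonneg_left h1 h2).trans (le_of_eq ?_)
    rw [hy]
    have : K₃ + 1 ≠ 0 := by linarith
    field_simp
    ring
  · have h1 : 2 * (C * max (Real.log y) 0) ≤ c / 2 * (K₃ + 1) + 2 * C * |Real.log a| := by
      rcases le_total (Real.log y) 0 with h | h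
      · rw [max_eq_right h]
        have h4 : 0 ≤ c / 2 * (K₃ + 1) := by
          have : 0 ≤ K₃ + 1 := by linarith
          positivity
        have h5 : 0 ≤ 2 * C * |Real.log a| := by positivity
        linarith only [h4, h5]
      · rw [max_eq_left h]
        have h2 : 2 * C * Real.log y ≤ 2 * C * (y / a + Real.log a) := mul_le_mul_of_nonneg_left hlog (by positivity)
        have h3 : 2 * C * Real.log a ≤ 2 * C * |Real.log a| := mul_le_mul_of_nonneg_left (le_abs_self _) (by positivity)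
        linarith only [h2, hya, h3]
    linarith only [h1, hcK, hc]


variable {μ : Measure ℝ} [IsProbabilityMeasure μ] {s c C : ℝ} {n₀ : ℕ}

/-- **UP and EXIT.** -/
theorem upexit20 (h : In μ s c C n₀) {K G eps : ℝ} (hK : 0 ≤ K) (hG : 0 ≤ G) (heps : 0 < eps) :
    ∃ K₃ U : ℝ, K + 1 ≤ K₃ ∧ 0 ≤ U ∧ ∃ n₁ : ℕ, ∀ T : ℕ, n₁ ≤ T →
      (law μ).real {η | UP20 μ s (K₃ * wd μ s T) T (U * EE μ s T) η ∧
        EXIT20 μ s (K * wd μ s T) (K₃ * wd μ s T) T (G * EE μ s T) η}ᶜ ≤ eps := by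
  have hC1 := h.C1
  have hC0 : 0 < C := by linarith
  have hc0 := h.c0
  have hc1 := h.c1
  obtain ⟨K₃, U, hK3, hU, hP, hgap⟩ := num20 hC1 hc0 heps hK (G := G + 2 * C + 1) (by linarith)
  obtain ⟨n₂, hn₂⟩ := eventually_atTop.1 ((wd_tendsto h).eventually_ge_atTop 4)
  refine ⟨K₃, U, hK3, hU, max (max n₀ 2) n₂, fun T hT => ?_⟩
  have hT0 : n₀ ≤ T := (le_max_left _ _).trans ((le_max_left _ _).trans hT)
  have hT2 : 2 ≤ T := (le_max_right _ _).trans ((le_max_left _ _).trans hT)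
  have hw4 := hn₂ T ((le_max_right _ _).trans hT)
  have hw0 : 0 < wd μ s T := by linarith
  have hE1 : 1 ≤ EE μ s T := one_le_EE T
  have hE0 : 0 < EE μ s T := by linarith
  obtain ⟨D, hD⟩ : ∃ D : ℝ, D = K₃ * wd μ s T := ⟨_, rfl⟩
  have hD0 : 0 ≤ D := by
    rw [hD]
    have : 0 ≤ K₃ := by linarith
    positivity
  have h1 := H75.jm_prob h hT0 (by omega) hD0 0 (U * EE μ s T)
  have e1 : 3 * ((2 * D / wd μ s T + 2) * (C * Real.exp (-(U * EE μ s T / (C * EE μ s T))))) =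
      3 * (2 * K₃ + 2) * C * Real.exp (-(U / C)) := by
    rw [hD]
    have e2 : U * EE μ s T / (C * EE μ s T) = U / C := by field_simp
    have e3 : 2 * (K₃ * wd μ s T) / wd μ s T = 2 * K₃ := by field_simp
    rw [e2, e3]
    ring
  rw [e1] at h1
  refine (measureReal_mono (Set.compl_subset_compl.2 fun η hη => ?_) (measure_ne_top _ _)).trans (h1.trans hP)
  have hh := H75.hc_nonneg h T
  have hs0 := h.sl_pos
  have hs1 := h.sl_lt
  refine ⟨fun t l x h2 h3 => ?_, fun x hx => ?_⟩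
  · exact H75.jm_V hη (by omega) (by
      rw [sub_zero, hD]
      exact h3)
  · obtain ⟨ρ, hρ⟩ : ∃ ρ : ℝ, ρ = (K₃ - K) * wd μ s T - 1 := ⟨_, rfl⟩
    have hKK : wd μ s T ≤ (K₃ - K) * wd μ s T := by
      exact le_mul_of_one_le_left hw0.le (by linarith only [hK3])
    have hρ1 : 1 ≤ ρ := by rw [hρ]; linarith
    have h2 := H75.jm_leave (μ := μ) (s := s) hs0.le hs1.le hh hη (t := 0) (x := x) (j := T) (by omega) (ρ := ρ) hρ1 (by
      rw [hD, hρ]
      simp only [Nat.cast_zero, mul_zero, sub_zero]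
      linarith only [hx])
    have e2 : (((0 : ℕ) : ℤ), x) = ((0 : ℤ), x) := by simp
    rw [e2] at h2
    -- the strip around the start is in the window
    have h3 : ∑ y ∈ Finset.Icc (0 : ℤ) T, WR μ s (tb (sl μ s) ((0 : ℤ), x) ρ) η ((0 : ℤ), x) T y ≤
        cS μ s (St μ s (K₃ * wd μ s T) 0) η ((0 : ℤ), x) T := by
      refine Finset.sum_le_sum fun y _ => Pool.Agent.W_7d29a1_HL.WR_mono' ?_ η _ T y
      intro p hp
      have hp' : |((p.2 - x : ℤ) : ℝ) - sl μ s * ((p.1 - 0 : ℤ) : ℝ)| ≤ ρ := hp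
      show |((p.2 - 0 : ℤ) : ℝ) - sl μ s * ((p.1 - 0 : ℤ) : ℝ)| ≤ K₃ * wd μ s T
      push_cast at hp' ⊢
      rw [abs_le] at hp' hx ⊢
      rw [hρ] at hp'
      constructor <;> linarith only [hp'.1, hp'.2, hx.1, hx.2]
    have h4 : 2 * (T : ℝ) * Real.exp (2 * (U * EE μ s T) - hc μ s c T * (ρ - 2)) ≤ Real.exp (-(G * EE μ s T)) := by
      have h5 : 2 * (T : ℝ) ≤ Real.exp (2 * C * EE μ s T) := by
        have hT' : (2 : ℝ) ≤ T := by exact_mod_cast hT2
        have h6 : Real.log (2 * T) ≤ 2 * C * EE μ s T := by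
          rw [Real.log_mul (by norm_num) (by linarith)]
          have h7 := h.lg T (by omega)
          have h8 : Real.log 2 ≤ Real.log T := Real.log_le_log (by norm_num) hT'
          linarith
        calc 2 * (T : ℝ) = Real.exp (Real.log (2 * T)) := (Real.exp_log (by linarith)).symm
          _ ≤ _ := Real.exp_le_exp.2 h6
      have h6 : hc μ s c T * (ρ - 2) = c * (K₃ - K) * EE μ s T - 3 * hc μ s c T := by
        have h7 := H75.hc_wd h (n := T) (by omega)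
        rw [hρ]
        linear_combination (K₃ - K) * h7
      have h7 : 3 * hc μ s c T ≤ EE μ s T := by
        unfold hc
        rw [mul_div_assoc', div_le_iff₀ hw0]
        have k1 := mul_le_mul_of_nonneg_right hc1 hE0.le
        have k2 := mul_le_mul_of_nonneg_right hw4 hE0.le
        linarith only [k1, k2, hE0]
      rw [h6]
      refine (mul_le_mul_of_nonneg_right h5 (Real.exp_nonneg _)).trans ?_
      rw [← Real.exp_add]
      refine Real.exp_le_exp.2 ?_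
      have h8 := mul_le_mul_of_nonneg_right hgap hE0.le
      linarith only [h7, h8]
    linarith

/-- **JUMP.** -/
theorem jumpP20 (h : In μ s c C n₀) {K₃ ε e : ℝ} (hK : 0 ≤ K₃) (hε : 0 < ε) (he : 0 < e) (Y : ℝ) :
    ∃ N₀ n₁ : ℕ, 1 ≤ N₀ ∧ ∀ N n : ℕ, N₀ ≤ N → n₁ ≤ n →
      (law μ).real {η | JUMP20 μ s (K₃ * wd μ s (N * n)) (ε * wd μ s (N * n)) n N (Y * EE μ s (N * n)) η}ᶜ ≤ e := by
  have hC1 := h.C1
  have hC0 : 0 < C := by linarith
  have hc0 := h.c0
  have hc1 := h.c1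
  obtain ⟨q, hq⟩ : ∃ q : ℝ, q = c * ε / (8 * C) := ⟨_, rfl⟩
  have hq0 : 0 < q := by rw [hq]; positivity
  obtain ⟨N₁, n₂, hN₁, hn₂, hnum⟩ := jump_num h (|Y| + 2 * C + 1) (del := c * ε / 2) (by positivity)
  obtain ⟨N₂, n₃, hN₂, hn₃, hpr⟩ := jump_prob h (3 * C * (2 * (K₃ + ε) * (2 / q) + 3)) 1 (half_pos hq0) he
  obtain ⟨n₄, hn₄⟩ := eventually_atTop.1 ((wd_tendsto h).eventually_ge_atTop (max 4 (2 / ε)))
  refine ⟨max N₁ N₂, max (max n₀ 2) (max n₄ (max n₂ n₃)), hN₁.trans (le_max_left _ _), fun N n hN hn => ?_⟩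
  have hNN1 : N₁ ≤ N := (le_max_left _ _).trans hN
  have hNN2 : N₂ ≤ N := (le_max_right _ _).trans hN
  have hN1 : 1 ≤ N := hN₁.trans hNN1
  have hnn0 : n₀ ≤ n := (le_max_left _ _).trans ((le_max_left _ _).trans hn)
  have hn2 : 2 ≤ n := (le_max_right _ _).trans ((le_max_left _ _).trans hn)
  have hnn4 : n₄ ≤ n := (le_max_left _ _).trans ((le_max_right _ _).trans hn)
  have hnn2 : n₂ ≤ n := (le_max_left _ _).trans ((le_max_right _ _).trans ((le_max_right _ _).trans hn))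
  have hnn3 : n₃ ≤ n := (le_max_right _ _).trans ((le_max_right _ _).trans ((le_max_right _ _).trans hn))
  have hTn : n ≤ N * n := Nat.le_mul_of_pos_left n hN1
  have hwn := hn₄ n hnn4
  have hwT := hn₄ (N * n) (hnn4.trans hTn)
  have hwn4 : 4 ≤ wd μ s n := (le_max_left _ _).trans hwn
  have hwT4 : 4 ≤ wd μ s (N * n) := (le_max_left _ _).trans hwT
  have hwTe : 2 / ε ≤ wd μ s (N * n) := (le_max_right _ _).trans hwT
  obtain ⟨w, hw⟩ : ∃ w : ℝ, w = wd μ s n := ⟨_, rfl⟩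
  obtain ⟨w', hw'⟩ : ∃ w' : ℝ, w' = wd μ s (N * n) := ⟨_, rfl⟩
  obtain ⟨E, hE⟩ : ∃ E : ℝ, E = EE μ s n := ⟨_, rfl⟩
  obtain ⟨E', hE'⟩ : ∃ E' : ℝ, E' = EE μ s (N * n) := ⟨_, rfl⟩
  have hE1 : 1 ≤ E := by rw [hE]; exact one_le_EE n
  have hEE : E ≤ E' := by rw [hE, hE']; exact EE_mono hTn
  have h1 := hnum N n hNN1 hnn2
  have h2 := hpr N n hNN2 hnn3
  rw [← hw, ← hw', ← hE, ← hE'] at h1
  rw [← hw, ← hw'] at h2
  rw [← hw] at hwn4
  rw [← hw'] at hwT4 hwTe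
  have hw0 : 0 < w := by linarith
  have hw'0 : 0 < w' := by linarith
  obtain ⟨X, hX⟩ : ∃ X : ℝ, X = w' / w := ⟨_, rfl⟩
  rw [← hX] at h1 h2
  have hX0 : 0 < X := by rw [hX]; positivity
  obtain ⟨D, hD⟩ : ∃ D : ℝ, D = K₃ * w' + ε * w' + 1 := ⟨_, rfl⟩
  have hD0 : 0 ≤ D := by rw [hD]; positivity
  obtain ⟨b, hb⟩ : ∃ b : ℝ, b = c * ε / 8 * X * E := ⟨_, rfl⟩
  have h3 := H75.js_prob h hnn0 (by omega) N hD0 0 b
  rw [← hE, ← hw] at h3
  have e1 : b / (C * E) = q * X := by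
    rw [hb, hq]
    field_simp
  rw [e1] at h3
  -- the probability
  have h4 : (N : ℝ) * (3 * ((2 * D / w + 2) * (C * Real.exp (-(q * X))))) ≤ e := by
    refine le_trans ?_ h2
    have hN0 : (0 : ℝ) ≤ N := Nat.cast_nonneg N
    rw [Real.rpow_one]
    have e2 : 2 * D / w + 2 ≤ 2 * (K₃ + ε) * X + 3 := by
      have e3 : 2 * D / w = 2 * (K₃ + ε) * X + 2 / w := by
        rw [hD, hX]
        field_simp
      have e4 : 2 / w ≤ 1 := by
        rw [div_le_one hw0]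
        linarith
      linarith
    have e5 : Real.exp (-(q * X)) = Real.exp (-(q / 2 * X)) * Real.exp (-(q / 2 * X)) := by
      rw [← Real.exp_add]
      congr 1
      ring
    have e6 : X * Real.exp (-(q / 2 * X)) ≤ 2 / q := by
      have e7 := Real.add_one_le_exp (q / 2 * X)
      rw [Real.exp_neg, ← div_eq_mul_inv, div_le_div_iff₀ (Real.exp_pos _) hq0]
      linarith only [e7]
    have e8 : Real.exp (-(q / 2 * X)) ≤ 1 := by
      rw [Real.exp_le_one_iff]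
      have : 0 ≤ q / 2 * X := by positivity
      linarith
    have e9 : (2 * (K₃ + ε) * X + 3) * Real.exp (-(q / 2 * X)) ≤ 2 * (K₃ + ε) * (2 / q) + 3 := by
      have : 0 ≤ 2 * (K₃ + ε) := by positivity
      have e10 := mul_le_mul_of_nonneg_left e6 this
      linarith only [e10, e8]
    have f1 : (2 * D / w + 2) * (C * Real.exp (-(q * X))) ≤
        C * (2 * (K₃ + ε) * (2 / q) + 3) * Real.exp (-(q / 2 * X)) := by
      have f2 : 0 ≤ C * Real.exp (-(q * X)) := by positivity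
      refine (mul_le_mul_of_nonneg_right e2 f2).trans ?_
      rw [e5]
      have f3 : 0 ≤ C * Real.exp (-(q / 2 * X)) := by positivity
      have f4 := mul_le_mul_of_nonneg_right e9 f3
      linarith
    have f2 := mul_le_mul_of_nonneg_left f1 (show (0 : ℝ) ≤ N * 3 by positivity)
    linarith
  refine (measureReal_mono (Set.compl_subset_compl.2 fun η hη => ?_) (measure_ne_top _ _)).trans (h3.trans h4)
  -- the deterministic part
  have hs0 := h.sl_pos
  have hs1 := h.sl_lt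
  have hh := H75.hc_nonneg h n
  intro i z hi hz
  rw [← hw'] at hz ⊢
  rw [← hE']
  have h5 := hη i hi
  have hεw : 1 ≤ ε * w' := by
    rw [div_le_iff₀ hε] at hwTe
    linarith
  have h6 := H75.jm_leave (μ := μ) (s := s) hs0.le hs1.le hh h5 (t := 0) (x := z) (j := n) (by omega) (ρ := ε * w')
    (by linarith) (by
      rw [hD]
      simp only [Nat.cast_zero, mul_zero, sub_zero, zero_add]
      linarith)
  -- the shift
  have e2 : (((0 : ℕ) : ℤ), z) + ((((i * n : ℕ) : ℤ)), (0 : ℤ)) = (((i * n : ℕ) : ℤ), z) := by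
    ext
    · show ((0 : ℕ) : ℤ) + ((i * n : ℕ) : ℤ) = ((i * n : ℕ) : ℤ)
      simp
    · show z + 0 = z
      ring
  have e3 : V μ s (sh ((((i * n : ℕ) : ℤ)), 0) η) (((0 : ℕ) : ℤ), z) n = V μ s η (((i * n : ℕ) : ℤ), z) n := by
    rw [V_sh, e2]
  have e4 : ∀ y : ℤ, WR μ s (tb (sl μ s) (((0 : ℕ) : ℤ), z) (ε * w')) (sh ((((i * n : ℕ) : ℤ)), 0) η) (((0 : ℕ) : ℤ), z) n y =
      WR μ s (St μ s (ε * w') (((i * n : ℕ) : ℤ), z)) η (((i * n : ℕ) : ℤ), z) n y := by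
    intro y
    have f1 := WR_sh (μ := μ) (s := s) (St μ s (ε * w') (((i * n : ℕ) : ℤ), z)) η (((0 : ℕ) : ℤ), z) ((((i * n : ℕ) : ℤ)), 0) n y
    rw [e2] at f1
    rw [← f1]
    congr 1
    ext p
    show |((p.2 - z : ℤ) : ℝ) - sl μ s * ((p.1 - ((0 : ℕ) : ℤ) : ℤ) : ℝ)| ≤ ε * w' ↔
      |(((p.2 + 0) - z : ℤ) : ℝ) - sl μ s * (((p.1 + ((i * n : ℕ) : ℤ)) - ((i * n : ℕ) : ℤ) : ℤ) : ℝ)| ≤ ε * w'
    have g1 : (((p.2 + 0) - z : ℤ) : ℝ) = ((p.2 - z : ℤ) : ℝ) := by push_cast; ring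
    have g2 : (((p.1 + ((i * n : ℕ) : ℤ)) - ((i * n : ℕ) : ℤ) : ℤ) : ℝ) = ((p.1 - ((0 : ℕ) : ℤ) : ℤ) : ℝ) := by
      push_cast; ring
    rw [g1, g2]
  rw [e3] at h6
  simp only [e4] at h6
  refine h6.trans ?_
  have h7 : 2 * (n : ℝ) ≤ Real.exp (2 * C * E) := by
    have hn' : (2 : ℝ) ≤ n := by exact_mod_cast hn2
    have h8 : Real.log (2 * n) ≤ 2 * C * E := by
      rw [Real.log_mul (by norm_num) (by linarith)]
      have h9 := h.lg n (by omega)
      rw [← hE] at h9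
      have h10 : Real.log 2 ≤ Real.log n := Real.log_le_log (by norm_num) hn'
      linarith
    calc 2 * (n : ℝ) = Real.exp (Real.log (2 * n)) := (Real.exp_log (by linarith)).symm
      _ ≤ _ := Real.exp_le_exp.2 h8
  have h8 : hc μ s c n = c * E / w := by
    unfold hc
    rw [← hE, ← hw]
  have h9 : hc μ s c n * (ε * w' - 2) = c * ε * X * E - 2 * (c * E / w) := by
    rw [h8, hX]
    field_simp
  have h10 : 2 * (c * E / w) ≤ E := by
    rw [mul_div_assoc', div_le_iff₀ hw0]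
    have hE0 : 0 ≤ E := by linarith only [hE1]
    have k1 := mul_le_mul_of_nonneg_right hc1 hE0
    have k2 := mul_le_mul_of_nonneg_right hwn4 hE0
    linarith only [k1, k2, hE0]
  rw [h9]
  refine (mul_le_mul_of_nonneg_right h7 (Real.exp_nonneg _)).trans ?_
  rw [← Real.exp_add]
  refine Real.exp_le_exp.2 ?_
  rw [hb]
  have h11 : Y * E' ≤ |Y| * E' := mul_le_mul_of_nonneg_right (le_abs_self _) (by linarith)
  have h12 : 0 ≤ c * ε * X * E := by positivity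
  have h13 : 2 * C * E ≤ 2 * C * E' := mul_le_mul_of_nonneg_left hEE (by positivity)
  linarith only [h1, h10, h11, h12, h13, hEE]

/-- **THE SLAB LEMMA.** Constants: `K` = window of the starts, `ε` = jumps (and collars), `G` = suppression, `p` = probability of the
lane event `A`. Then `K₃`, `U`, `Y` (window, upper bound, depth of the walls), then `N ≥ N₀` sub blocks, then `c₁`. -/
theorem fun20 (h : In μ s c C n₀) {K ε G p D : ℝ} (hK : 0 ≤ K) (hε : 0 < ε) (hG : 0 ≤ G) (hp : 0 < p) (hD : 0 ≤ D) :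
    ∃ K₃ U Y : ℝ, K + 1 ≤ K₃ ∧ 0 ≤ U ∧ 0 ≤ Y ∧ ∃ N₀ : ℕ, 1 ≤ N₀ ∧ ∀ N : ℕ, N₀ ≤ N → ∃ c₁ : ℝ, 0 < c₁ ∧ ∃ n₁ : ℕ, 1 ≤ n₁ ∧
      ∀ n : ℕ, n₁ ≤ n →
        -- the error is small
        er20 N (U * EE μ s (N * n)) (Y * EE μ s (N * n)) ((G + 1) * EE μ s (N * n)) ≤ Real.exp (-(G * EE μ s (N * n))) ∧
        ∀ (ι : Type) (L : ι → ℝ → ℝ) (r : ℝ), Drift20 (sl μ s) (N * n) (D * wd μ s (N * n)) L →
          ∀ A : Set Env, MeasurableSet A → DecO (PS20 L r) A → p ≤ (law μ).real A →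
            c₁ ≤ (law μ).real (A ∩ FUN20 μ s K K₃ ε U Y (G + 1) n N L r) ∧
            -- the sub block drift of the lanes
            ∀ (j : ι) (i : ℕ), i < N → |la20 L n j (i + 1) - la20 L n j i - sl μ s * n| ≤ ε * wd μ s (N * n) := by
  obtain ⟨K₃, U, hK3, hU, n₁, hUE⟩ := upexit20 h hK (G := G + 1) (by linarith) (eps := p / 4) (by positivity)
  obtain ⟨Y, hY⟩ : ∃ Y : ℝ, Y = 2 * U + G + 2 := ⟨_, rfl⟩
  have hY0 : 0 ≤ Y := by rw [hY]; linarith
  have hK30 : 0 ≤ K₃ := by linarith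
  obtain ⟨N₁, n₂, hN₁, hJ⟩ := jumpP20 h hK30 hε (e := p / 4) (by positivity) Y
  obtain ⟨N₂, hN₂⟩ := exists_nat_ge (D / ε)
  refine ⟨K₃, U, Y, hK3, hU, hY0, max N₁ N₂, hN₁.trans (le_max_left _ _), fun N hN => ?_⟩
  have hNN1 : N₁ ≤ N := (le_max_left _ _).trans hN
  have hN1 : 1 ≤ N := hN₁.trans hNN1
  have hNr : (0 : ℝ) < N := by exact_mod_cast hN1
  obtain ⟨q, hq, n₃, hWp⟩ := wallP20 h hK30 hε.le hN1 Y
  obtain ⟨n₄, hn₄⟩ := eventually_atTop.1 (h.tE.eventually_ge_atTop (2 * (N : ℝ) + 1))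
  refine ⟨p / 2 * q, by positivity, max (max n₁ n₂) (max n₃ (max n₄ 1)),
    (le_max_right _ _).trans ((le_max_right _ _).trans (le_max_right _ _)), fun n hn => ?_⟩
  have hnn1 : n₁ ≤ n := (le_max_left _ _).trans ((le_max_left _ _).trans hn)
  have hnn2 : n₂ ≤ n := (le_max_right _ _).trans ((le_max_left _ _).trans hn)
  have hnn3 : n₃ ≤ n := (le_max_left _ _).trans ((le_max_right _ _).trans hn)
  have hnn4 : n₄ ≤ n := (le_max_left _ _).trans ((le_max_right _ _).trans ((le_max_right _ _).trans hn))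
  have hn1 : 1 ≤ n := (le_max_right _ _).trans ((le_max_right _ _).trans ((le_max_right _ _).trans hn))
  have hTn : n ≤ N * n := Nat.le_mul_of_pos_left n hN1
  have hE4 := hn₄ (N * n) (hnn4.trans hTn)
  obtain ⟨E, hE⟩ : ∃ E : ℝ, E = EE μ s (N * n) := ⟨_, rfl⟩
  rw [← hE] at hE4
  have hE1 : 1 ≤ E := by rw [hE]; exact one_le_EE _
  have hw0 : 0 ≤ wd μ s (N * n) := h.wd_nonneg _
  constructor
  · rw [← hE]
    unfold er20
    have e1 : Real.exp (U * E) * (2 * Real.exp (-(Y * E))) * Real.exp (U * E) = 2 * Real.exp (-((G + 2) * E)) := by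
      have : Real.exp (-((G + 2) * E)) = Real.exp (U * E) * Real.exp (-(Y * E)) * Real.exp (U * E) := by
        rw [← Real.exp_add, ← Real.exp_add]
        congr 1
        rw [hY]
        ring
      rw [this]
      ring
    rw [e1]
    have e2 : Real.exp (-((G + 2) * E)) ≤ Real.exp (-((G + 1) * E)) := Real.exp_le_exp.2 (by linarith only [hE1])
    have e3 : Real.exp (-(G * E)) = Real.exp E * Real.exp (-((G + 1) * E)) := by
      rw [← Real.exp_add]
      congr 1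
      ring
    have e4 : 2 * (N : ℝ) + 1 ≤ Real.exp E := hE4.trans (by linarith [Real.add_one_le_exp E])
    have e5 := Real.exp_pos (-((G + 1) * E))
    rw [e3]
    have e6 : (N : ℝ) * (2 * Real.exp (-((G + 2) * E))) ≤ N * (2 * Real.exp (-((G + 1) * E))) :=
      mul_le_mul_of_nonneg_left (by linarith) hNr.le
    have e7 := mul_le_mul_of_nonneg_right e4 e5.le
    linarith only [e6, e7]
  intro ι L r hL A mA hA hpA
  have hDN : D * wd μ s (N * n) ≤ N * (ε * wd μ s (N * n)) := by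
    have h1 : D ≤ N * ε := by
      rw [div_le_iff₀ hε] at hN₂
      have h2 : (N₂ : ℝ) ≤ N := by exact_mod_cast (le_max_right _ _).trans hN
      exact hN₂.trans (mul_le_mul_of_nonneg_right h2 hε.le)
    have h2 := mul_le_mul_of_nonneg_right h1 hw0
    linarith only [h2]
  refine ⟨?_, fun j i hi => drift_la20 hn1 hN1 hL hDN j i hi⟩
  -- the decreasing events
  obtain ⟨B, hB⟩ : ∃ B : Set Env, B = {η | UP20 μ s (K₃ * wd μ s (N * n)) (N * n) (U * EE μ s (N * n)) η ∧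
      EXIT20 μ s (K * wd μ s (N * n)) (K₃ * wd μ s (N * n)) (N * n) ((G + 1) * EE μ s (N * n)) η} := ⟨_, rfl⟩
  obtain ⟨J, hJd⟩ : ∃ J : Set Env, J = {η | JUMP20 μ s (K₃ * wd μ s (N * n)) (ε * wd μ s (N * n)) n N
      (Y * EE μ s (N * n)) η} := ⟨_, rfl⟩
  obtain ⟨Wl, hWl⟩ : ∃ Wl : Set Env, Wl = {η | WALL20 μ s (K₃ * wd μ s (N * n)) (ε * wd μ s (N * n))
      (r + 2 * (ε * wd μ s (N * n))) n N (Y * EE μ s (N * n)) (la20 L n) η} := ⟨_, rfl⟩
  have mB : MeasurableSet B := by rw [hB]; exact (meas_UP20 _ _ _).inter (meas_EXIT20 _ _ _ _)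
  have dB : Dec B := by
    rw [hB]
    intro η η' hh h1
    exact ⟨dec_UP20 _ _ _ _ _ hh h1.1, dec_EXIT20 _ _ _ _ _ _ hh h1.2⟩
  have mJ : MeasurableSet J := by rw [hJd]; exact meas_JUMP20 _ _ _ _ _
  have dJ : Dec J := by rw [hJd]; exact dec_JUMP20 _ _ _ _ _
  have mW : MeasurableSet Wl := by rw [hWl]; exact meas_WALL20 _ _ _ _ _ _ _
  have dW : Dec Wl := by rw [hWl]; exact dec_WALL20 _ _ _ _ _ _ _
  have fW : Fin' Wl := by rw [hWl]; exact fin_WALL20 _ _ _ _ _ _ _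
  have oW : Off (PS20 L r) Wl := by
    rw [hWl]
    exact wall_sites20 _ _ _ _ _ _ _ _ fun i z hi hz ha => away20 hn1 hN1 (by positivity) hL hDN i z hi hz ha
  have pB : (law μ).real Bᶜ ≤ p / 4 := by rw [hB]; exact hUE (N * n) (hnn1.trans hTn)
  have pJ : (law μ).real Jᶜ ≤ p / 4 := by rw [hJd]; exact hJ N n hNN1 hnn2
  have pW : q ≤ (law μ).real Wl := by rw [hWl]; exact hWp n hnn3 ι _ _
  have h1 : p / 2 ≤ (law μ).real (A ∩ (B ∩ J)) := by
    have h2 : (law μ).real A ≤ (law μ).real (A ∩ (B ∩ J)) + ((law μ).real Bᶜ + (law μ).real Jᶜ) := by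
      have h3 : A ⊆ (A ∩ (B ∩ J)) ∪ (Bᶜ ∪ Jᶜ) := by
        intro η hη
        by_cases hb : η ∈ B
        · by_cases hj : η ∈ J
          · exact Or.inl ⟨hη, hb, hj⟩
          · exact Or.inr (Or.inr hj)
        · exact Or.inr (Or.inl hb)
      refine (measureReal_mono h3 (measure_ne_top _ _)).trans ((measureReal_union_le _ _).trans ?_)
      exact add_le_add le_rfl (measureReal_union_le _ _)
    linarith
  have h2 := F31.fkg (μ := μ) (S := PS20 L r) (mA.inter (mB.inter mJ)) mW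
    (hA.inter ((DecO.of_dec dB _).inter (DecO.of_dec dJ _))) (DecO.of_dec dW _) (FinO.of_fin fW oW)
  have h3 : p / 2 * q ≤ (law μ).real (A ∩ (B ∩ J) ∩ Wl) :=
    (mul_le_mul h1 pW hq.le measureReal_nonneg).trans h2
  refine h3.trans (measureReal_mono (fun η hη => ?_) (measure_ne_top _ _))
  obtain ⟨⟨k1, k2, k3⟩, k4⟩ := hη
  rw [hB] at k2
  rw [hJd] at k3
  rw [hWl] at k4
  exact ⟨k1, k2.1, k2.2, k3, k4⟩

end

end Pool.Agent.W_7d29a1_C1
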