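import Pool.Agent.W_7d29a1_C1.BlkA12
import Pool.Agent.W_7d29a1_C1.FunB20

/-!
MP_7d29a1_pr, [C1] slab lemma, tuned form (F5), block event, part B: measurability, dependence and monotonicity of the events,
probabilities of the decreasing ones. (helper12)
-/

set_option autoImplicit false

namespace Pool.Agent.W_7d29a1_C1.B12

open MeasureTheory ProbabilityTheory Filter Topology
open Pool.Agent.W_7d29a1_F Pool.Agent.W_7d29a1_h4g Pool.Agent.W_7d29a1_H Pool.Agent.W_7d29a1_HS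
open Pool.Agent.W_7d29a1_HL (cS WR_off WR_last_off WR_add' WR_mono' WR_congr' cS_dep measurable_cS measurable_WR')
open Pool.Agent.W_7d29a1_HR (Dec Fin' cS_add_le cS_le_V cS_mono_env)
open Pool.Agent.W_7d29a1_h48 (WR_mono_env)
open Pool.Agent.W_7d29a1_C1.F31 (DecO FinO)
open Pool.Agent.W_7d29a1_C1.S71 (Off)
open Pool.Agent.W_7d29a1_C1.Wall66 (Gd harris_fin)
open Pool.Agent.W_7d29a1_C1.H75 (Jm hc jm_V jm_W jm_prob jm_meas jm_dec jm_fin hc_nonneg hc_wd)

noncomputable section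

/-- The event reads the sites of `D` only. -/
def On (D : Set Pt) (A : Set Env) : Prop := ∀ η η' : Env, (∀ q ∈ D, η q = η' q) → (η ∈ A ↔ η' ∈ A)

theorem On.mono {D D' : Set Pt} {A : Set Env} (h : On D A) (hD : D ⊆ D') : On D' A := fun η η' hh =>
  h η η' fun q hq => hh q (hD hq)

theorem On.inter {D : Set Pt} {A B : Set Env} (hA : On D A) (hB : On D B) : On D (A ∩ B) := fun η η' hh =>
  and_congr (hA η η' hh) (hB η η' hh)

theorem On.off {D : Set Pt} {A : Set Env} (h : On D A) : Off Dᶜ A := fun η η' hh =>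
  h η η' fun q hq => hh q (Set.notMem_compl_iff.2 hq)

theorem On.decO {D S : Set Pt} {A : Set Env} (h : On D A) (hD : D ⊆ S) : DecO S A :=
  DecO.of_off (h.mono hD).off

variable {μ : Measure ℝ} {s : ℝ} {m : ℕ} {ρ ρ' ω α hh x : ℝ} {y : ℤ}

/-! ### Structure -/

theorem meas_BA : MeasurableSet (BA μ s m y ρ x) := measurableSet_le measurable_const (measurable_WR' _ _ _ _)

theorem on_BA : On (St μ s ρ 0 ∩ rows 0 m) (BA μ s m y ρ x) := by
  intro η η' h
  have h1 : WR μ s (St μ s ρ 0) η 0 m y = WR μ s (St μ s ρ 0) η' 0 m y :=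
    WR_dep (μ := μ) (s := s) _ _ _ _ fun q hq => h q ⟨hq.2, hq.1.1, by
      have h2 := hq.1.2.1
      have e1 : ((0 : Pt).1 + (m : ℤ)) = (m : ℤ) := by simp
      rw [e1] at h2
      exact h2⟩
  unfold BA
  rw [Set.mem_ofPred_eq, Set.mem_ofPred_eq, h1]

theorem meas_BB : MeasurableSet (BB μ s m ρ' ω x) := by
  have e : BB μ s m ρ' ω x = ⋂ (t : ℕ) (l : ℕ) (z : ℤ) (_ : t + l ≤ m) (_ : |(z : ℝ) - sl μ s * t| ≤ ρ'),
      {η | cS μ s (St μ s ω 0) η ((t : ℤ), z) l ≤ Real.exp x} := by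
    ext η
    simp only [Set.mem_iInter]
    exact Iff.rfl
  rw [e]
  exact MeasurableSet.iInter fun t => MeasurableSet.iInter fun l => MeasurableSet.iInter fun z =>
    MeasurableSet.iInter fun _ => MeasurableSet.iInter fun _ => measurableSet_le (measurable_cS _ _ _) measurable_const

theorem dec_BB : Dec (BB μ s m ρ' ω x) := fun _ _ h hη t l z h1 h2 => (cS_mono_env _ h _ _).trans (hη t l z h1 h2)

theorem on_BB [IsProbabilityMeasure μ] : On (St μ s ω 0 ∩ rows 0 m) (BB μ s m ρ' ω x) := by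
  have key : ∀ η η' : Env, (∀ q ∈ St μ s ω 0 ∩ rows 0 m, η q = η' q) → η ∈ BB μ s m ρ' ω x → η' ∈ BB μ s m ρ' ω x := by
    intro η η' h h1 t l z h2 h3
    have h4 : cS μ s (St μ s ω 0) η ((t : ℤ), z) l = cS μ s (St μ s ω 0) η' ((t : ℤ), z) l :=
      cS_dep (μ := μ) (s := s) _ _ _ fun q hq => h q ⟨hq.1, by
        have h5 := hq.2.1
        have h6 := hq.2.2
        simp only at h5 h6
        constructor
        · omega
        · have : ((t + l : ℕ) : ℤ) ≤ (m : ℤ) := by exact_mod_cast h2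
          push_cast at this
          omega⟩
    rw [← h4]
    exact h1 t l z h2 h3
  intro η η' h
  exact ⟨key η η' h, key η' η fun q hq => (h q hq).symm⟩

theorem meas_BC : MeasurableSet (BC μ s m ρ ω α hh x) := by
  have e : BC μ s m ρ ω α hh x = ⋂ (z : ℤ) (j : ℕ) (u : ℤ) (_ : |(z : ℝ)| ≤ α) (_ : j ≤ m),
      {η | WR μ s (St μ s ω 0 \ St μ s ρ 0) η ((0 : ℤ), z) j u ≤ Real.exp (x - hh * |(u : ℝ) - sl μ s * j|)} := by
    ext η
    simp only [Set.mem_iInter]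
    exact Iff.rfl
  rw [e]
  exact MeasurableSet.iInter fun z => MeasurableSet.iInter fun j => MeasurableSet.iInter fun u =>
    MeasurableSet.iInter fun _ => MeasurableSet.iInter fun _ => measurableSet_le (measurable_WR' _ _ _ _) measurable_const

theorem dec_BC [IsProbabilityMeasure μ] : Dec (BC μ s m ρ ω α hh x) := fun _ _ h hη z j u h1 h2 =>
  (WR_mono_env _ h _ _ _).trans (hη z j u h1 h2)

theorem BC_of [IsProbabilityMeasure μ] {η η' : Env} (h : ∀ z : ℤ, |(z : ℝ)| ≤ α → ∀ j ≤ m, ∀ u : ℤ, 0 ≤ u → u ≤ (j : ℤ) →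
    WR μ s (St μ s ω 0 \ St μ s ρ 0) η ((0 : ℤ), z) j u = WR μ s (St μ s ω 0 \ St μ s ρ 0) η' ((0 : ℤ), z) j u)
    (h1 : η ∈ BC μ s m ρ ω α hh x) : η' ∈ BC μ s m ρ ω α hh x := by
  intro z j u hz hj
  by_cases hu : 0 ≤ u ∧ u ≤ (j : ℤ)
  · rw [← h z hz j hj u hu.1 hu.2]
    exact h1 z j u hz hj
  · rw [WR_off _ _ _ hu]
    exact Real.exp_nonneg _

theorem on_BC [IsProbabilityMeasure μ] : On ((St μ s ω 0 \ St μ s ρ 0) ∩ rows 0 m) (BC μ s m ρ ω α hh x) := by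
  have key : ∀ η η' : Env, (∀ q ∈ (St μ s ω 0 \ St μ s ρ 0) ∩ rows 0 m, η q = η' q) → η ∈ BC μ s m ρ ω α hh x →
      η' ∈ BC μ s m ρ ω α hh x := by
    intro η η' h h1
    refine BC_of (fun z _ j hj u _ _ => ?_) h1
    refine WR_dep (μ := μ) (s := s) _ _ _ _ fun q hq => h q ⟨hq.2, ?_⟩
    have h5 := hq.1.1
    have h6 := hq.1.2.1
    simp only at h5 h6
    constructor
    · exact h5
    · have : (j : ℤ) ≤ (m : ℤ) := by exact_mod_cast hj
      omega
  intro η η' h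
  exact ⟨key η η' h, key η' η fun q hq => (h q hq).symm⟩

theorem off_BC [IsProbabilityMeasure μ] : Off (St μ s ρ 0) (BC μ s m ρ ω α hh x) := fun η η' h =>
  on_BC η η' fun q hq => h q hq.1.2

theorem fin_BC [IsProbabilityMeasure μ] : Fin' (BC μ s m ρ ω α hh x) := by
  classical
  refine ⟨Finset.Icc (0 : ℤ) m ×ˢ Finset.Icc (-⌈|α|⌉) (⌈|α|⌉ + m), fun η η' h => ?_⟩
  have key : ∀ η η' : Env, (∀ q ∈ Finset.Icc (0 : ℤ) m ×ˢ Finset.Icc (-⌈|α|⌉) (⌈|α|⌉ + m), η q = η' q) →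
      η ∈ BC μ s m ρ ω α hh x → η' ∈ BC μ s m ρ ω α hh x := by
    intro η η' h h1
    refine BC_of (fun z hz j hj u hu0 huj => ?_) h1
    refine WR_dep (μ := μ) (s := s) _ _ _ _ fun q hq => h q ?_
    obtain ⟨⟨k1, k2, k3, k4, k5, k6⟩, -⟩ := hq
    simp only at k1 k2 k3 k4 k5 k6
    have hz' : |(z : ℝ)| ≤ (⌈|α|⌉ : ℝ) := hz.trans ((le_abs_self α).trans (Int.le_ceil _))
    rw [abs_le] at hz'
    have hz0 : -⌈|α|⌉ ≤ z := by exact_mod_cast hz'.1
    have hz1 : z ≤ ⌈|α|⌉ := by exact_mod_cast hz'.2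
    have hjm : (j : ℤ) ≤ (m : ℤ) := by exact_mod_cast hj
    rw [Finset.mem_product, Finset.mem_Icc, Finset.mem_Icc]
    refine ⟨⟨?_, ?_⟩, ?_, ?_⟩ <;> omega
  exact ⟨key η η' h, key η' η fun q hq => (h q hq).symm⟩

theorem on_EXIT [IsProbabilityMeasure μ] : On (rows 0 m) {η | EXIT20 μ s α ω m x η} := by
  have key : ∀ η η' : Env, (∀ q ∈ rows 0 m, η q = η' q) → EXIT20 μ s α ω m x η → EXIT20 μ s α ω m x η' := by
    intro η η' h h1 z hz
    have h2 : V μ s η ((0 : ℤ), z) m = V μ s η' ((0 : ℤ), z) m :=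
      V_dep (μ := μ) (s := s) _ _ fun q hq => h q ⟨hq.1, by
        have := hq.2.1
        simp only at this
        rw [zero_add] at this
        exact this⟩
    have h3 : cS μ s (St μ s ω 0) η ((0 : ℤ), z) m = cS μ s (St μ s ω 0) η' ((0 : ℤ), z) m :=
      cS_dep (μ := μ) (s := s) _ _ _ fun q hq => h q ⟨hq.2.1, by
        have := hq.2.2
        simp only at this
        rw [zero_add] at this
        exact this⟩
    rw [← h2, ← h3]
    exact h1 z hz
  intro η η' h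
  exact ⟨key η η' h, key η' η fun q hq => (h q hq).symm⟩

/-- The four legs between the standard points `0`, `± ρ₂`. -/
def BD (μ : Measure ℝ) (s : ℝ) (m : ℕ) (y ρ₂ : ℤ) (ω₂ x : ℝ) : Set Env :=
  {η | ∀ g : ℤ, g = ρ₂ ∨ g = -ρ₂ → Real.exp (-x) ≤ WR μ s (St μ s ω₂ 0) η ((0 : ℤ), g) m (y - g) ∧
    Real.exp (-x) ≤ WR μ s (St μ s ω₂ 0) η 0 m (y + g)}

theorem meas_BD {ρ₂ : ℤ} : MeasurableSet (BD μ s m y ρ₂ ω x) := by
  have e : BD μ s m y ρ₂ ω x = ⋂ (g : ℤ) (_ : g = ρ₂ ∨ g = -ρ₂),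
      ({η | Real.exp (-x) ≤ WR μ s (St μ s ω 0) η ((0 : ℤ), g) m (y - g)} ∩
        {η | Real.exp (-x) ≤ WR μ s (St μ s ω 0) η 0 m (y + g)}) := by
    ext η
    simp only [Set.mem_iInter]
    exact Iff.rfl
  rw [e]
  exact MeasurableSet.iInter fun g => MeasurableSet.iInter fun _ =>
    (measurableSet_le measurable_const (measurable_WR' _ _ _ _)).inter (measurableSet_le measurable_const (measurable_WR' _ _ _ _))

theorem on_BD {ρ₂ : ℤ} : On (St μ s ω 0 ∩ rows 0 m) (BD μ s m y ρ₂ ω x) := by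
  have key : ∀ η η' : Env, (∀ q ∈ St μ s ω 0 ∩ rows 0 m, η q = η' q) → η ∈ BD μ s m y ρ₂ ω x → η' ∈ BD μ s m y ρ₂ ω x := by
    intro η η' h h1 g hg
    have h2 : WR μ s (St μ s ω 0) η ((0 : ℤ), g) m (y - g) = WR μ s (St μ s ω 0) η' ((0 : ℤ), g) m (y - g) :=
      WR_dep (μ := μ) (s := s) _ _ _ _ fun q hq => h q ⟨hq.2, hq.1.1, by
        have := hq.1.2.1
        simp only at this
        rw [zero_add] at this
        exact this⟩
    have h3 : WR μ s (St μ s ω 0) η 0 m (y + g) = WR μ s (St μ s ω 0) η' 0 m (y + g) :=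
      WR_dep (μ := μ) (s := s) _ _ _ _ fun q hq => h q ⟨hq.2, hq.1.1, by
        have h4 := hq.1.2.1
        have e1 : ((0 : Pt).1 + (m : ℤ)) = (m : ℤ) := by simp
        rw [e1] at h4
        exact h4⟩
    rw [← h2, ← h3]
    exact h1 g hg
  intro η η' h
  exact ⟨key η η' h, key η' η fun q hq => (h q hq).symm⟩

/-! ### Probabilities -/

variable [IsProbabilityMeasure μ] {c C : ℝ} {n₀ : ℕ}

theorem BB_prob (h : In μ s c C n₀) (hm : n₀ ≤ m) (hm1 : 1 ≤ m) (hρ' : 0 ≤ ρ') :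
    (law μ).real (BB μ s m ρ' ω x)ᶜ ≤ 3 * ((2 * ρ' / wd μ s m + 2) * (C * Real.exp (-(x / (C * EE μ s m))))) := by
  refine (measureReal_mono (Set.compl_subset_compl.2 fun η hη => ?_) (measure_ne_top _ _)).trans
    (jm_prob h hm hm1 hρ' 0 x)
  intro t l z h1 h2
  exact (cS_le_V _ _ _ _).trans (Real.exp_le_exp.2 (jm_V hη (by omega) (by rw [sub_zero]; exact h2)))

/-- The decreasing event off the inner strip: the level `U` does not depend on the width `A` of the collar. -/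
theorem BC_prob (h : In μ s c C n₀) (hm : n₀ ≤ m) (hm1 : 1 ≤ m) (A : ℕ) {U : ℝ}
    (hU : 12 * C * Real.exp (-(U / C)) ≤ 1 / 2) :
    (1 / 2 : ℝ) ^ (2 * A + 1) ≤ (law μ).real (BC μ s m ρ ω (A * wd μ s m) (hc μ s c m) (U * EE μ s m)) := by
  have hw := h.wd_pos hm1
  have hE := EE_pos (μ := μ) (s := s) m
  have hC : 0 < C := lt_of_lt_of_le one_pos h.C1
  have h1 := harris_fin (μ := μ) (Finset.Icc (-(A : ℤ)) A)
    (A := fun k : ℤ => Jm μ s c m (k * wd μ s m) (wd μ s m) (U * EE μ s m)) (p := 1 / 2) (by norm_num)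
    (fun k _ => ⟨jm_meas, jm_dec, jm_fin⟩) (fun k _ => by
      have h2 := jm_prob h hm hm1 hw.le (k * wd μ s m) (U * EE μ s m)
      have e1 : 3 * ((2 * wd μ s m / wd μ s m + 2) * (C * Real.exp (-(U * EE μ s m / (C * EE μ s m))))) =
          12 * C * Real.exp (-(U / C)) := by
        have e2 : U * EE μ s m / (C * EE μ s m) = U / C := by field_simp
        have e3 : 2 * wd μ s m / wd μ s m = 2 := by field_simp
        rw [e2, e3]
        ring
      rw [e1] at h2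
      have h3 := measureReal_compl (μ := law μ) (jm_meas (μ := μ) (s := s) (c := c) (n := m) (x₀ := k * wd μ s m)
        (D := wd μ s m) (b := U * EE μ s m))
      rw [probReal_univ] at h3
      linarith)
  have e1 : (Finset.Icc (-(A : ℤ)) A).card = 2 * A + 1 := by
    rw [Int.card_Icc]
    omega
  rw [e1] at h1
  refine h1.trans (measureReal_mono (fun η hη => ?_) (measure_ne_top _ _))
  intro z j u hz hj
  have hk : ⌊(z : ℝ) / wd μ s m⌋ ∈ Finset.Icc (-(A : ℤ)) A := by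
    rw [abs_le] at hz
    rw [Finset.mem_Icc]
    constructor
    · rw [Int.le_floor, le_div_iff₀ hw]
      push_cast
      linarith [hz.1]
    · have h2 : (z : ℝ) / wd μ s m ≤ A := by
        rw [div_le_iff₀ hw]
        exact hz.2
      have h3 : ((⌊(z : ℝ) / wd μ s m⌋ : ℤ) : ℝ) ≤ ((A : ℤ) : ℝ) := (Int.floor_le _).trans (by push_cast; exact h2)
      exact_mod_cast h3
  have h2 : η ∈ Jm μ s c m (⌊(z : ℝ) / wd μ s m⌋ * wd μ s m) (wd μ s m) (U * EE μ s m) := Set.mem_iInter₂.1 hη _ hk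
  have h3 := jm_W h2 (t := 0) (x := z) (j := j) (by omega) (by
    have h4 := Int.floor_le ((z : ℝ) / wd μ s m)
    have h5 := Int.lt_floor_add_one ((z : ℝ) / wd μ s m)
    rw [le_div_iff₀ hw] at h4
    rw [div_lt_iff₀ hw] at h5
    simp only [Nat.cast_zero, mul_zero, sub_zero]
    rw [abs_le]
    constructor <;> nlinarith) u
  refine (WR_le_W _ _ _ _ _).trans ?_
  have e2 : (((0 : ℕ) : ℤ), z) = ((0 : ℤ), z) := by simp
  rw [e2] at h3
  exact h3

/-- **THE CORE OF A BLOCK.** -/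
theorem core_prob (h : In μ s c C n₀) (hm : n₀ ≤ m) (hm1 : 1 ≤ m) (A : ℕ) {U pA xA xB : ℝ} (hρ' : 0 ≤ ρ')
    (hU : 12 * C * Real.exp (-(U / C)) ≤ 1 / 2)
    (hpA : pA ≤ (law μ).real (BA μ s m y ρ xA))
    (hpB : 3 * ((2 * ρ' / wd μ s m + 2) * (C * Real.exp (-(xB / (C * EE μ s m))))) ≤ pA / 2) :
    pA / 2 * (1 / 2 : ℝ) ^ (2 * A + 1) ≤ (law μ).real (BA μ s m y ρ xA ∩ BB μ s m ρ' ω xB ∩
      BC μ s m ρ ω (A * wd μ s m) (hc μ s c m) (U * EE μ s m)) := by
  refine F31.slab_half (μ := μ) (S := St μ s ρ 0) meas_BA meas_BB meas_BC ?_ dec_BB dec_BC fin_BC off_BC (by positivity) hpA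
    ((BB_prob h hm hm1 hρ').trans hpB) (BC_prob h hm hm1 A hU)
  exact ((on_BA (μ := μ) (s := s) (m := m) (y := y) (ρ := ρ) (x := xA)).mono Set.inter_subset_left).off

end

end Pool.Agent.W_7d29a1_C1.B12
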