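import Pool.Agent.W_7d29a1_C1.FarW89

/-!
MP_7d29a1_pr, the attractor route: MOVE THE BASE OF A FAR LEVEL. (helper6)

`rebase16`: `Far16` at the base `b` gives `Far16` (half widths smaller by two) at the base `b + (0, y)`, `|y| ≤ X wd n`, with the level
`q gr P (1 + X)`. `line16`: a base on any line at the distance `X wd n`. `gr_pow6`: `gr P (2 + R ^ l) ≤ C th ^ l`.
-/

set_option autoImplicit false

namespace Pool.Agent.W_7d29a1_C1.RB6

open MeasureTheory ProbabilityTheory Filter Topology Finset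
open Pool.Agent.W_7d29a1_F Pool.Agent.W_7d29a1_h4g Pool.Agent.W_7d29a1_H Pool.Agent.W_7d29a1_HS
open Pool.Agent.W_7d29a1_C1.H75 Pool.Agent.W_7d29a1_C1.U16 Pool.Agent.W_7d29a1_C1.FarK89

noncomputable section

variable {μ : Measure ℝ} {s c θ : ℝ}

/-- A far level is at most the product of the far level and of the growth. -/
theorem fq_gr (P : ℕ) (m : ℤ) {m' : ℤ} {X : ℝ} (hX : 0 ≤ X) (h : |(m' : ℝ)| ≤ |(m : ℝ)| + X + 1) :
    fq16 P m' ≤ fq16 P m * gr P (1 + X) := by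
  have h1 := gr_mul P (X := |(m : ℝ)|) (Y := 1 + X) (Z := |(m' : ℝ)|) (abs_nonneg _) (by linarith) (abs_nonneg _)
    (by nlinarith [abs_nonneg (m : ℝ)])
  exact h1

/-- **MOVE THE BASE.** -/
theorem rebase16 {K K' q X : ℝ} {n N P : ℕ} {b : Pt} {y : ℤ} {η : Env} (hq : 0 ≤ q) (hw : 1 ≤ wd μ s n) (hK : K' + 2 ≤ K)
    (hX : 0 ≤ X) (hy : |(y : ℝ)| ≤ X * wd μ s n) (hη : η ∈ Far16 μ s c θ K n N P b q) :
    η ∈ Far16 μ s c θ K' n N P (b.1, b.2 + y) (q * gr P (1 + X)) := by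
  intro m
  have hw0 : 0 < wd μ s n := by linarith
  set w := wd μ s n with hwdef
  set m' : ℤ := m + ⌊(y : ℝ) / w⌋ with hm'
  have f1 := Int.floor_le ((y : ℝ) / w)
  have f2 := Int.lt_floor_add_one ((y : ℝ) / w)
  have g1 : (⌊(y : ℝ) / w⌋ : ℝ) * w ≤ y := by rwa [← le_div_iff₀ hw0]
  have g2 : (y : ℝ) < ((⌊(y : ℝ) / w⌋ : ℝ) + 1) * w := by rwa [← div_lt_iff₀ hw0]
  have g3 : |(⌊(y : ℝ) / w⌋ : ℝ)| ≤ X + 1 := by
    have a1 := abs_le.1 hy
    rw [abs_le]
    constructor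
    · have : -X ≤ (y : ℝ) / w := by rw [le_div_iff₀ hw0]; linarith
      linarith
    · have : (y : ℝ) / w ≤ X := by rw [div_le_iff₀ hw0]; linarith
      linarith
  have hlev : q * fq16 P m' ≤ q * gr P (1 + X) * fq16 P m := by
    have h1 := fq_gr P m (m' := m') hX (by
      rw [hm']
      push_cast
      have := abs_add_le (m : ℝ) (⌊(y : ℝ) / w⌋ : ℝ)
      linarith)
    have h2 := mul_le_mul_of_nonneg_left h1 hq
    linarith
  refine LevS_mono hlev (LevS_anti (fun p hp => ?_) (hη m'))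
  obtain ⟨p1, p2, p3⟩ := hp
  refine ⟨p1, p2, ?_⟩
  have e1 := Int.floor_le ((m : ℝ) * w)
  have e2 := Int.lt_floor_add_one ((m : ℝ) * w)
  have e3 := Int.floor_le ((m' : ℝ) * w)
  have e4 := Int.lt_floor_add_one ((m' : ℝ) * w)
  have e5 : (m' : ℝ) * w = m * w + (⌊(y : ℝ) / w⌋ : ℝ) * w := by rw [hm']; push_cast; ring
  unfold ft16 at p3 ⊢
  dsimp only at p1 p2 p3 ⊢
  rw [abs_le] at p3 ⊢
  push_cast at p3 ⊢
  have hKw : K' * w + 2 * w ≤ K * w := by nlinarith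
  constructor <;> nlinarith

/-- **A BASE ON THE LINE.** -/
theorem line16 {K K' q X : ℝ} {n N P : ℕ} {b κ : Pt} {η : Env} (hq : 0 ≤ q) (hw : 1 ≤ wd μ s n) (hK : K' + 2 ≤ K)
    (hX : 0 ≤ X) (hb : |lat16 μ s κ b| ≤ X * wd μ s n) (hη : η ∈ Far16 μ s c θ K n N P b q) :
    ∃ bs : Pt, bs.1 = b.1 ∧ 0 ≤ lat16 μ s κ bs ∧ lat16 μ s κ bs < 1 ∧ η ∈ Far16 μ s c θ K' n N P bs (q * gr P (2 + X)) := by
  have f1 := Int.floor_le (lat16 μ s κ b)
  have f2 := Int.lt_floor_add_one (lat16 μ s κ b)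
  have e : lat16 μ s κ (b.1, b.2 + -⌊lat16 μ s κ b⌋) = lat16 μ s κ b - ⌊lat16 μ s κ b⌋ := by
    unfold lat16
    push_cast
    ring
  refine ⟨(b.1, b.2 + -⌊lat16 μ s κ b⌋), rfl, by rw [e]; linarith, by rw [e]; linarith, ?_⟩
  have h1 := rebase16 (K' := K') (X := 1 + X) (y := -⌊lat16 μ s κ b⌋) hq hw hK (by linarith) (by
    push_cast
    rw [abs_neg]
    have a1 := abs_le.1 hb
    rw [abs_le]
    constructor <;> nlinarith) hη
  rwa [show 1 + (1 + X) = 2 + X by ring] at h1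

/-- Polynomials against exponentials. -/
theorem poly_pow6 {A B th : ℝ} (hA : 0 ≤ A) (hB : 0 ≤ B) (hth : 1 < th) (P : ℕ) :
    ∃ C : ℝ, 1 ≤ C ∧ ∀ l : ℕ, (A + B * l) ^ P ≤ C * th ^ l := by
  rcases Nat.eq_zero_or_pos P with hP | hP
  · refine ⟨1, le_rfl, fun l => ?_⟩
    rw [hP, pow_zero, one_mul]
    exact one_le_pow₀ hth.le
  · have hPr : (0 : ℝ) < P := by exact_mod_cast hP
    obtain ⟨e, he⟩ : ∃ e : ℝ, e = th ^ ((1 : ℝ) / P) - 1 := ⟨_, rfl⟩
    have he0 : 0 < e := by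
      have := Real.one_lt_rpow hth (show 0 < (1 : ℝ) / P by positivity)
      rw [he]; linarith
    have heP : (1 + e) ^ P = th := by
      rw [he, add_sub_cancel, ← Real.rpow_natCast, ← Real.rpow_mul (by linarith), one_div, inv_mul_cancel₀ hPr.ne', Real.rpow_one]
    refine ⟨max 1 ((A + B / e) ^ P), le_max_left _ _, fun l => ?_⟩
    have h1 : 1 + (l : ℝ) * e ≤ (1 + e) ^ l := one_add_mul_le_pow (by linarith) l
    have hAB : 0 ≤ A + B / e := by positivity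
    have h2 : A + B * l ≤ (A + B / e) * (1 + e) ^ l := by
      have h3 : A + B * l ≤ (A + B / e) * (1 + l * e) := by
        have e1 : (A + B / e) * (1 + l * e) = A + B * l + (A * (l * e) + B / e) := by field_simp; ring
        rw [e1]
        have : 0 ≤ A * (l * e) + B / e := by positivity
        linarith
      exact h3.trans (mul_le_mul_of_nonneg_left h1 hAB)
    have h0 : 0 ≤ A + B * l := by positivity
    calc (A + B * l) ^ P ≤ ((A + B / e) * (1 + e) ^ l) ^ P := pow_le_pow_left₀ h0 h2 P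
      _ = (A + B / e) ^ P * th ^ l := by rw [mul_pow, ← pow_mul, mul_comm l P, pow_mul, heP]
      _ ≤ max 1 ((A + B / e) ^ P) * th ^ l := mul_le_mul_of_nonneg_right (le_max_right _ _) (by positivity)

/-- **The growth at the distance `R ^ l`.** -/
theorem gr_pow6 {R th : ℝ} (hR : 1 ≤ R) (hth : 1 < th) (P : ℕ) : ∃ C : ℝ, 1 ≤ C ∧ ∀ l : ℕ, gr P (2 + R ^ l) ≤ C * th ^ l := by
  obtain ⟨C, hC, H⟩ := poly_pow6 (A := 1 + Real.log 4) (B := Real.log R)
    (by have := Real.log_nonneg (show (1 : ℝ) ≤ 4 by norm_num); linarith) (Real.log_nonneg hR) hth P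
  refine ⟨C, hC, fun l => le_trans ?_ (H l)⟩
  have hRl : 1 ≤ R ^ l := one_le_pow₀ hR
  unfold gr
  have h1 : Real.log (1 + (2 + R ^ l)) ≤ Real.log 4 + Real.log R * l := by
    have h2 : Real.log (1 + (2 + R ^ l)) ≤ Real.log (4 * R ^ l) := Real.log_le_log (by positivity) (by linarith)
    rw [Real.log_mul (by norm_num) (by positivity), Real.log_pow] at h2
    linarith
  have h3 : 0 ≤ Real.log (1 + (2 + R ^ l)) := Real.log_nonneg (by linarith)
  exact pow_le_pow_left₀ (by linarith) (by linarith) P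

end

end Pool.Agent.W_7d29a1_C1.RB6
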