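import Pool.Agent.W_7d29a1_C1.TamP16
import Pool.Agent.W_7d29a1_C1.FarW89

/-!
MP_7d29a1_pr, [C1] attractor route, TAME FOR THE MODEL K91P. (helper16)

`bh16 μ s h η p M N a x`: the backward mass `bw (wt η) p a (N - a) x` without the weight of its own site, divided by the factor of the rows.
`sys_model16`: with the kernels `nk` of `FarW89` it is a system of `TamP16`. `nk_low16`: the lower level between two places of the rows of one
`Far16` event. `tame_model16`: TAME from the arms of one place and the levels `Far16` of the rows `(a, c]` and `(b, d]`, `a < b < c < d`.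
-/

set_option autoImplicit false

namespace Pool.Agent.W_7d29a1_C1.U16

open MeasureTheory ProbabilityTheory Filter Topology Finset
open Pool.Agent.W_7d29a1_F Pool.Agent.W_7d29a1_h4g Pool.Agent.W_7d29a1_H Pool.Agent.W_7d29a1_HS
open Pool.Agent.W_7d29a1_C1.K91 (wt wt_pos)
open Pool.Agent.W_7d29a1_C1.K91P (bw bw_pos)
open Pool.Agent.W_7d29a1_C1.H75
open Pool.Agent.W_7d29a1_C1.FarK89 Pool.Agent.W_7d29a1_C1.FarW89

noncomputable section

variable {μ : Measure ℝ} {s : ℝ} [IsProbabilityMeasure μ] {c C : ℝ} {n₀ : ℕ}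

/-- The normalised backward mass. -/
def bh16 (μ : Measure ℝ) (s h : ℝ) (η : Env) (p : ℕ → ℝ) (M N a : ℕ) (x : ℤ) : ℝ :=
  Real.exp (-(((N - a : ℕ) : ℝ) * lam μ s + h * sl μ s * bl M a (N - a))) * (bw (wt η) p a (N - a) x / wt η a x)

omit [IsProbabilityMeasure μ] in
theorem bw_bh16 {h : ℝ} {η : Env} {p : ℕ → ℝ} {M N a : ℕ} (x : ℤ) : bw (wt η) p a (N - a) x =
    Real.exp (((N - a : ℕ) : ℝ) * lam μ s + h * sl μ s * bl M a (N - a)) * (wt η a x * bh16 μ s h η p M N a x) := by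
  have h1 := wt_pos η a x
  unfold bh16
  rw [Real.exp_neg]
  field_simp

omit [IsProbabilityMeasure μ] in
/-- **The model is a system of `TamP16`.** -/
theorem sys_model16 {h : ℝ} {η : Env} {p : ℕ → ℝ} {M N : ℕ} (hp : ∀ k, 0 < p k) :
    Sys16 (fun a b x z => nk μ s h η p M a (b - a) x z) (bh16 μ s h η p M N) N := by
  refine ⟨fun a b x z => nk_nonneg hp _ _ _ _, fun a x _ => ?_, fun a b x z _ hz => nk_eq_zero _ _ hz, fun a x => ?_,
    fun a b x hab hbN => ?_, fun a b c' x z hab hbc => ?_⟩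
  · have h1 := wt_pos η a x
    have h2 := bw_pos (w := wt η) (wt_pos η) hp (N - a) a x
    unfold bh16
    positivity
  · show nk μ s h η p M a (a - a) x x = 1
    rw [Nat.sub_self, nk_zero, if_pos rfl]
  · have e1 : N - a = (b - a) + (N - b) := by omega
    have h1 := bw_ker (w := wt η) (p := p) a (b - a) (N - b) x
    have e2 : a + (b - a) = b := by omega
    rw [e2, ← e1] at h1
    have hx := wt_pos η a x
    have e3 : bh16 μ s h η p M N a x = Real.exp (-(((N - a : ℕ) : ℝ) * lam μ s + h * sl μ s * bl M a (N - a))) *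
        ((∑ z ∈ Icc x (x + ((b - a : ℕ) : ℤ)), ker (wt η) p a (b - a) x z * bw (wt η) p b (N - b) z) / wt η a x) := by
      unfold bh16
      rw [h1]
    rw [e3, sum_div, mul_sum]
    refine sum_congr rfl fun z _ => ?_
    have hz := wt_pos η b z
    rw [ker_nk (μ := μ) (s := s) (h := h) (M := M) a (b - a) x z, bw_bh16 (μ := μ) (s := s) (h := h) (M := M) (N := N) (a := b) z, e2]
    have e4 : Real.exp (-(((N - a : ℕ) : ℝ) * lam μ s + h * sl μ s * bl M a (N - a))) *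
        (Real.exp (((b - a : ℕ) : ℝ) * lam μ s + h * sl μ s * bl M a (b - a)) *
        Real.exp (((N - b : ℕ) : ℝ) * lam μ s + h * sl μ s * bl M b (N - b))) = 1 := by
      rw [← Real.exp_add, ← Real.exp_add, ← Real.exp_zero]
      congr 1
      have e5 : bl M a (N - a) = bl M a (b - a) + bl M b (N - b) := by
        have := bl_add M a (b - a) (N - b)
        rwa [e2, ← e1] at this
      rw [e5, e1]
      push_cast
      ring
    calc _ = (Real.exp (-(((N - a : ℕ) : ℝ) * lam μ s + h * sl μ s * bl M a (N - a))) *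
        (Real.exp (((b - a : ℕ) : ℝ) * lam μ s + h * sl μ s * bl M a (b - a)) *
        Real.exp (((N - b : ℕ) : ℝ) * lam μ s + h * sl μ s * bl M b (N - b)))) *
        (nk μ s h η p M a (b - a) x z * bh16 μ s h η p M N b z) := by
          field_simp
      _ = _ := by rw [e4, one_mul]
  · show nk μ s h η p M a (c' - a) x z = ∑ y ∈ Icc x (x + ((b - a : ℕ) : ℤ)), nk μ s h η p M a (b - a) x y * nk μ s h η p M b (c' - b) y z
    have e1 : c' - a = (b - a) + (c' - b) := by omega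
    have e2 : a + (b - a) = b := by omega
    rw [e1, nk_add, e2]
    have f1 : ∀ y, ¬ (x ≤ y ∧ y ≤ x + ((b - a : ℕ) : ℤ)) → nk μ s h η p M a (b - a) x y * nk μ s h η p M b (c' - b) y z = 0 := by
      intro y hy
      rw [nk_eq_zero _ _ hy, zero_mul]
    have f2 : ∀ y, ¬ (z - ((c' - b : ℕ) : ℤ) ≤ y ∧ y ≤ z) → nk μ s h η p M a (b - a) x y * nk μ s h η p M b (c' - b) y z = 0 := by
      intro y hy
      rw [nk_eq_zero (μ := μ) (s := s) (h := h) (η := η) (p := p) (M := M) b (c' - b) (fun h => hy ⟨by omega, h.1⟩), mul_zero]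
    rw [sum_subset (subset_union_left : _ ⊆ Icc (z - ((c' - b : ℕ) : ℤ)) z ∪ Icc x (x + ((b - a : ℕ) : ℤ))) fun y _ hy =>
      f2 y fun h => hy (mem_Icc.2 h)]
    exact (sum_subset subset_union_right fun y _ hy => f1 y fun h => hy (mem_Icc.2 h)).symm

/-- The lower level between two places of the rows of one event. -/
theorem nk_low16 (h0 : In μ s c C n₀) (P : ℕ) {K θ : ℝ} (hK : 3 ≤ K) (hθ : 0 < θ) : ∃ C₇ : ℝ, 0 < C₇ ∧ ∃ n₁ : ℕ, 1 ≤ n₁ ∧
    ∀ {q h R : ℝ} {n N₁ M : ℕ} {b κ : Pt} {η : Env} {p : ℕ → ℝ}, n₁ ≤ n → N₁ ≤ n → 0 ≤ q → η ∈ Far16 μ s c θ K n N₁ P b q →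
      |h| * wd μ s n ≤ c / 4 * EE μ s n → (∀ k, k < M → p k = Real.exp (s + h)) → (∀ k, M ≤ k → p k = Real.exp s) →
      0 ≤ R → 2 * R ≤ K - 2 → |lat16 μ s κ b| ≤ wd μ s n →
      ∀ (i j : ℕ) (x y : ℤ), b.1 ≤ i → i ≤ j → (j : ℤ) ≤ b.1 + N₁ → θ * n ≤ ((j - i : ℕ) : ℝ) →
      |lat16 μ s κ ((i : ℤ), x)| ≤ R * wd μ s n → |lat16 μ s κ ((j : ℤ), y)| ≤ R * wd μ s n →
      Real.exp (-(C₇ * (1 + q) ^ 2 * fq16 (2 * P) (R + 2) * EE μ s n)) ≤ nk μ s h η p M i (j - i) x y := by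
  obtain ⟨C₅, hC₅, n₁, H⟩ := comp_low h0 P hK hθ
  obtain ⟨n₂, hn₂⟩ := eventually_atTop.1 ((wd_tendsto h0).eventually_ge_atTop 1)
  refine ⟨C₅, hC₅, max 1 (max n₁ n₂), le_max_left _ _, ?_⟩
  intro q h R n N₁ M b κ η p hn hN hq hη hh hp hp' hR hRK hbκ i j x y h1 h2 h3 h4 h5 h6
  have hw : 1 ≤ wd μ s n := hn₂ n (((le_max_right _ _).trans (le_max_right _ _)).trans hn)
  have hw0 : 0 < wd μ s n := by linarith
  have hE := EE_pos (μ := μ) (s := s) n
  have e0 : bl M i (j - i) + (j - i - bl M i (j - i)) = j - i := Nat.add_sub_cancel' (bl_le M i (j - i))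
  rw [nk_K1 hp hp' i (j - i) x y]
  have e1 : ((y - x : ℤ) : ℝ) - sl μ s * ((bl M i (j - i) + (j - i - bl M i (j - i)) : ℕ) : ℝ) =
      lat16 μ s κ ((j : ℤ), y) - lat16 μ s κ ((i : ℤ), x) := by
    rw [e0]
    unfold lat16
    push_cast [Nat.cast_sub h2]
    ring
  have g1 := H (q := q) (h := h) (n := n) (N := N₁) (b := b) (η := η) (((le_max_left _ _).trans (le_max_right _ _)).trans hn) hN hq hη hh
    ((i : ℤ), x) (bl M i (j - i)) (j - i - bl M i (j - i)) (y - x) h1 (by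
      show (i : ℤ) + (bl M i (j - i) : ℕ) + (j - i - bl M i (j - i) : ℕ) ≤ b.1 + N₁
      omega) (by rw [e0]; exact h4) (by
      rw [e1]
      refine (abs_sub _ _).trans ?_
      nlinarith)
  refine le_trans (Real.exp_le_exp.2 ?_) g1
  have g2 : fq16 (2 * P) (|lat16 μ s b ((i : ℤ), x)| / wd μ s n + 1) ≤ fq16 (2 * P) (R + 2) := by
    refine fq16_mono ?_
    have k1 : lat16 μ s b ((i : ℤ), x) = lat16 μ s κ ((i : ℤ), x) - lat16 μ s κ b := lat_base κ b _
    have k2 : |lat16 μ s b ((i : ℤ), x)| ≤ (R + 1) * wd μ s n := by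
      rw [k1]
      refine (abs_sub _ _).trans ?_
      linarith
    have k3 : |lat16 μ s b ((i : ℤ), x)| / wd μ s n ≤ R + 1 := by rwa [div_le_iff₀ hw0]
    have k4 : 0 ≤ |lat16 μ s b ((i : ℤ), x)| / wd μ s n + 1 := by positivity
    have k5 : 0 ≤ R + 2 := by linarith
    rw [abs_of_nonneg k4, abs_of_nonneg k5]
    linarith
  have g3 : 0 ≤ C₅ * (1 + q) ^ 2 := by positivity
  have g4 := mul_le_mul_of_nonneg_right (mul_le_mul_of_nonneg_left g2 g3) hE.le
  linarith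

/-- **TAME OF THE MODEL.** `a = r_(u-2)`, `b = r_(u-1)`, `c' = r_u`, `d = r_(u+1)`. -/
theorem tame_model16 (h0 : In μ s c C n₀) (P : ℕ) {K θ : ℝ} (hK : 3 ≤ K) (hθ : 0 < θ) : ∃ n₁ : ℕ, 1 ≤ n₁ ∧
    ∀ q R : ℝ, 0 ≤ q → 0 ≤ R → 2 * R ≤ K - 2 → ∃ Q' : ℝ, 0 < Q' ∧
    ∀ {h : ℝ} {n N₁ N₂ M N : ℕ} {b₁ b₂ κ : Pt} {η : Env} {p : ℕ → ℝ}, n₁ ≤ n → N₁ ≤ n → N₂ ≤ n →
      |h| * wd μ s n ≤ c / 8 * EE μ s n → (∀ k, k < M → p k = Real.exp (s + h)) → (∀ k, M ≤ k → p k = Real.exp s) →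
      η ∈ Far16 μ s c θ K n N₁ P b₁ q → η ∈ Far16 μ s c θ K n N₂ P b₂ q → |lat16 μ s κ b₁| ≤ wd μ s n → |lat16 μ s κ b₂| ≤ wd μ s n →
      ∀ {a b c' d : ℕ}, b₁.1 ≤ a → a ≤ b → b ≤ c' → (c' : ℤ) ≤ b₁.1 + N₁ → b₂.1 ≤ b → c' ≤ d → (d : ℤ) ≤ b₂.1 + N₂ → d ≤ N →
      θ * n ≤ ((b - a : ℕ) : ℝ) → θ * n ≤ ((d - c' : ℕ) : ℝ) → ∀ {x : ℤ}, |lat16 μ s κ ((a : ℤ), x)| ≤ R * wd μ s n →
      PM16 (fun a b x z => nk μ s h η p M a (b - a) x z) (bh16 μ s h η p M N) a d x (fun z => ¬ |lat16 μ s κ ((d : ℤ), z)| ≤ R * wd μ s n) ≤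
        1 / 2 * bh16 μ s h η p M N a x →
      ∀ (k k' : ℕ) (y y' : ℤ), b ≤ k → k ≤ c' → b ≤ k' → k' ≤ c' → |lat16 μ s κ ((k : ℤ), y)| ≤ R * wd μ s n →
        |lat16 μ s κ ((k' : ℤ), y')| ≤ R * wd μ s n →
        bh16 μ s h η p M N k' y' ≤ Real.exp (Q' * EE μ s n) * bh16 μ s h η p M N k y := by
  obtain ⟨C₇, hC₇, n₁, hn₁, H1⟩ := nk_low16 h0 P hK hθ
  obtain ⟨C₅, hC₅, n₂, hn₂, H2⟩ := far_up h0 P
  obtain ⟨n₃, hn₃⟩ := eventually_atTop.1 ((wd_tendsto h0).eventually_ge_atTop 1)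
  refine ⟨max n₁ (max n₂ n₃), hn₁.trans (le_max_left _ _), fun q R hq hR hRK => ?_⟩
  obtain ⟨Q, hQ⟩ : ∃ Q : ℝ, Q = 2 * ((1 + q) ^ 2 * gr (2 * P) 2) := ⟨_, rfl⟩
  obtain ⟨A, hA⟩ : ∃ A : ℝ, A = LQ (2 * P) (c / 8) (C₅ * Q) * gr (2 * P) R + Q := ⟨_, rfl⟩
  obtain ⟨L, hL⟩ : ∃ L : ℝ, L = C₇ * (1 + q) ^ 2 * fq16 (2 * P) (R + 2) := ⟨_, rfl⟩
  have hgr2 := gr_nonneg (2 * P) (show (0 : ℝ) ≤ 2 by norm_num)
  have hQ0 : 0 ≤ Q := by rw [hQ]; positivity
  have hA0 : 0 ≤ A := by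
    rw [hA]
    have g1 := LQ_nonneg (2 * P) (c₁ := c / 8) (show 0 ≤ C₅ * Q by positivity)
    have g2 := gr_nonneg (2 * P) hR
    positivity
  have hL0 : 0 ≤ L := by
    rw [hL]
    have := fq16_one (2 * P) (R + 2)
    positivity
  refine ⟨1 + L + A + L, by positivity, ?_⟩
  intro h n N₁ N₂ M N b₁ b₂ κ η p hn hN₁ hN₂ hh hp hp' hη₁ hη₂ hκ₁ hκ₂ a b c' d hba hab hbc hcb hb₂ hcd hdb hdN hθ₁ hθ₂ x hx harm
    k k' y y' hk1 hk2 hk1' hk2' hy hy'
  have hn1 : n₁ ≤ n := (le_max_left _ _).trans hn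
  have hn2 : n₂ ≤ n := ((le_max_left _ _).trans (le_max_right _ _)).trans hn
  have hw : 1 ≤ wd μ s n := hn₃ n (((le_max_right _ _).trans (le_max_right _ _)).trans hn)
  have hw0 : 0 < wd μ s n := by linarith
  have hE := EE_pos (μ := μ) (s := s) n
  have hE1 := one_le_EE (μ := μ) (s := s) n
  have hc0 := h0.c0
  have hh4 : |h| * wd μ s n ≤ c / 4 * EE μ s n := by nlinarith
  have hpp : ∀ k, 0 < p k := fun k => by
    rcases lt_or_ge k M with h1 | h1
    · rw [hp k h1]; exact Real.exp_pos _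
    · rw [hp' k h1]; exact Real.exp_pos _
  have S := sys_model16 (μ := μ) (s := s) (h := h) (η := η) (p := p) (M := M) (N := N) hpp
  -- the upper level
  have hup : ∀ z : ℤ, nk μ s h η p M a (d - a) x z ≤ Real.exp (A * EE μ s n) := by
    intro z
    have hS : Slabs μ s c θ K h P η κ (fun u => if u = 0 then a else if u = 1 then c' else d) (fun _ => n)
        (fun u => if u = 0 then N₁ else N₂) (fun _ => q) (fun u => if u = 0 then b₁ else b₂) 0 2 n n₂ Q := by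
      refine ⟨fun _ _ _ => hq, hK, hn2, fun _ _ _ => hn2, fun _ _ _ => le_rfl, fun u _ _ => ?_, fun u _ hu => ?_, fun u _ hu => ?_,
        fun u _ hu => ?_, fun u _ _ => ?_, fun u _ _ => ?_, ?_, hh⟩
      · split_ifs <;> assumption
      · interval_cases u <;> simp <;> omega
      · interval_cases u <;> simp <;> omega
      · interval_cases u <;> simp <;> omega
      · split_ifs <;> assumption
      · split_ifs <;> assumption
      · rw [mul_div_assoc, div_self hw0.ne', mul_one, sum_const, Nat.card_Ico, nsmul_eq_mul, hQ]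
        push_cast
        refine le_of_eq ?_
        ring
    have g1 := H2 (by norm_num) hp hp' hS x z
    simp only [if_true] at g1
    refine g1.trans (Real.exp_le_exp.2 ?_)
    have e2 : lt μ s κ (fun u => if u = 0 then a else if u = 1 then c' else d) 0 x = lat16 μ s κ ((a : ℤ), x) := by
      unfold lt
      simp
    rw [e2]
    have g2 : gr (2 * P) (|lat16 μ s κ ((a : ℤ), x)| / wd μ s n) ≤ gr (2 * P) R := gr_mono _ (by positivity) (by rwa [div_le_iff₀ hw0])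
    have g3 := LQ_nonneg (2 * P) (c₁ := c / 8) (show 0 ≤ C₅ * Q by positivity)
    have g4 := mul_le_mul_of_nonneg_right (mul_le_mul_of_nonneg_left g2 g3) hE.le
    have g5 := hc_nonneg h0 n
    have g6 : 0 ≤ hc μ s c n / 8 * |((z - x : ℤ) : ℝ) - sl μ s * (((if (2 : ℕ) = 0 then a else if (2 : ℕ) = 1 then c' else d) - a : ℕ) : ℝ)| := by
      positivity
    rw [hA]
    nlinarith
  have hd : a ≤ d := hab.trans (hbc.trans hcd)
  have key := tame16 S (a := a) (b := k) (b' := k') (e := d) (hab.trans hk1) (hab.trans hk1') (hk2.trans hcd) (hk2'.trans hcd) hdN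
    (x := x) (y := y) (y' := y') (Z := fun z => |lat16 μ s κ ((d : ℤ), z)| ≤ R * wd μ s n) (A1 := L * EE μ s n) (A2 := A * EE μ s n)
    (A3 := L * EE μ s n) harm (by
      have g1 : θ * n ≤ ((k' - a : ℕ) : ℝ) := hθ₁.trans (by exact_mod_cast (by omega : b - a ≤ k' - a))
      have g2 := H1 (q := q) (h := h) (R := R) hn1 hN₁ hq hη₁ hh4 hp hp' hR hRK hκ₁ a k' x y' hba (hab.trans hk1')
        (by omega) g1 hx hy'
      rw [hL]
      exact g2)
    (fun z _ _ _ => hup z)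
    (fun z _ _ hz => by
      have g1 : θ * n ≤ ((d - k : ℕ) : ℝ) := hθ₂.trans (by exact_mod_cast (by omega : d - c' ≤ d - k))
      have g2 := H1 (q := q) (h := h) (R := R) hn1 hN₂ hq hη₂ hh4 hp hp' hR hRK hκ₂ k d y z (by omega) (hk2.trans hcd)
        hdb g1 hy hz
      rw [hL]
      exact g2)
  refine key.trans ?_
  have hB := S.b0 k y (hk2.trans (hcd.trans hdN))
  refine mul_le_mul_of_nonneg_right ?_ hB.le
  have g1 : (2 : ℝ) ≤ Real.exp 1 := by
    have := Real.add_one_le_exp (1 : ℝ)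
    linarith
  calc 2 * Real.exp (L * EE μ s n + A * EE μ s n + L * EE μ s n) ≤ Real.exp 1 * Real.exp (L * EE μ s n + A * EE μ s n + L * EE μ s n) :=
        mul_le_mul_of_nonneg_right g1 (Real.exp_pos _).le
    _ = Real.exp (1 + (L * EE μ s n + A * EE μ s n + L * EE μ s n)) := by rw [← Real.exp_add]
    _ ≤ _ := Real.exp_le_exp.2 (by nlinarith)

end

end Pool.Agent.W_7d29a1_C1.U16
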