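import Pool.Agent.W_7d29a1_C1.TopF63
import Pool.Agent.W_7d29a1_C1.RB6
import Pool.Agent.W_7d29a1_C1.TamK16

/-!
MP_7d29a1_pr, the attractor route [C1], TAME: NUMBERS OF A PIECE OF LAYERS. (helper63)

All the prices are powers of `Tt / T`: `gr_pow63`, `ee63`, `wd63`. **`cost63`**: the cost of the slabs of a piece with labels `lab i ≤ t`, at
most `c₀` layers per label. The ratio `K₀` of the scales comes before `P`.
-/

set_option autoImplicit false

namespace Pool.Agent.W_7d29a1_C1.LyN63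

open MeasureTheory ProbabilityTheory Finset Filter
open Pool.Agent.W_7d29a1_F Pool.Agent.W_7d29a1_h4g Pool.Agent.W_7d29a1_H Pool.Agent.W_7d29a1_HS
open Pool.Agent.W_7d29a1_C1.H75 Pool.Agent.W_7d29a1_C1.U16 Pool.Agent.W_7d29a1_C1.FarK89

noncomputable section

/-- The growth against a power. -/
theorem gr_pow63 (P : ℕ) {ε A : ℝ} (D : ℕ) (hε : 0 < ε) (hA : 0 ≤ A) :
    ∃ C : ℝ, 1 ≤ C ∧ ∀ x : ℝ, 1 ≤ x → gr P (A * x ^ D) ≤ C * x ^ ε := by
  rcases Nat.eq_zero_or_pos P with hP | hP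
  · subst hP
    refine ⟨1, le_rfl, fun x hx => ?_⟩
    unfold gr
    rw [pow_zero, one_mul]
    exact Real.one_le_rpow hx hε.le
  · have hPr : (0 : ℝ) < P := by exact_mod_cast hP
    obtain ⟨δ, hδ⟩ : ∃ δ : ℝ, δ = ε / P := ⟨_, rfl⟩
    have hδ0 : 0 < δ := by rw [hδ]; positivity
    have hL : 0 ≤ Real.log (1 + A) := Real.log_nonneg (by linarith)
    obtain ⟨B, hB⟩ : ∃ B : ℝ, B = 1 + Real.log (1 + A) + D / δ := ⟨_, rfl⟩
    have hB1 : 1 ≤ B := by
      rw [hB]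
      have : 0 ≤ (D : ℝ) / δ := by positivity
      linarith
    refine ⟨B ^ P, one_le_pow₀ hB1, fun x hx => ?_⟩
    have hx0 : 0 < x := by linarith
    have hxD : 1 ≤ x ^ D := one_le_pow₀ hx
    have hxδ : 1 ≤ x ^ δ := Real.one_le_rpow hx hδ0.le
    have h1 : Real.log (1 + A * x ^ D) ≤ Real.log (1 + A) + D * Real.log x := by
      rw [← Real.log_pow, ← Real.log_mul (by linarith) (by positivity)]
      exact Real.log_le_log (by positivity) (by nlinarith)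
    have h2 := Real.log_le_rpow_div hx0.le hδ0
    have h3 : (D : ℝ) * Real.log x ≤ D / δ * x ^ δ := by
      have := mul_le_mul_of_nonneg_left h2 (Nat.cast_nonneg (α := ℝ) D)
      calc (D : ℝ) * Real.log x ≤ D * (x ^ δ / δ) := this
        _ = _ := by ring
    have h4 : 1 + Real.log (1 + A * x ^ D) ≤ B * x ^ δ := by
      rw [hB]
      nlinarith
    have hAx : 0 ≤ A * x ^ D := by positivity
    have h0 : 0 ≤ Real.log (1 + A * x ^ D) := Real.log_nonneg (by linarith)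
    have e1 : (x ^ δ) ^ P = x ^ ε := by
      rw [← Real.rpow_natCast, ← Real.rpow_mul hx0.le, hδ, div_mul_cancel₀ _ hPr.ne']
    unfold gr
    calc (1 + Real.log (1 + A * x ^ D)) ^ P ≤ (B * x ^ δ) ^ P := pow_le_pow_left₀ (by linarith) h4 P
      _ = B ^ P * x ^ ε := by rw [mul_pow, e1]

variable {μ : Measure ℝ} [IsProbabilityMeasure μ] {s c C : ℝ} {n₀ : ℕ}

/-- The units of two heights. -/
theorem ee63 (h : In μ s c C n₀) : ∃ (a : ℝ) (n₁ : ℕ), 0 < a ∧ a ≤ 1 ∧ 1 ≤ n₁ ∧ ∀ m n : ℕ, n₁ ≤ m → m ≤ n →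
    EE μ s m ≤ 2 * ((n : ℝ) / m) ^ (-a) * EE μ s n := by
  obtain ⟨a, n₁, ha, ha1, hn1, H⟩ := Pool.Agent.W_7d29a1_HL.EE_pow h
  refine ⟨a, n₁, ha, ha1, hn1, fun m n hm hmn => ?_⟩
  have hm0 : (0 : ℝ) < m := by exact_mod_cast hn1.trans hm
  have hn0 : (0 : ℝ) < n := by exact_mod_cast (hn1.trans hm).trans hmn
  have h1 := H m n hm hmn
  have h2 : 0 < ((n : ℝ) / m) ^ a := Real.rpow_pos_of_pos (by positivity) a
  rw [Real.rpow_neg (by positivity)]
  calc EE μ s m = (((n : ℝ) / m) ^ a * EE μ s m) / ((n : ℝ) / m) ^ a := by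
        field_simp
    _ ≤ (2 * EE μ s n) / ((n : ℝ) / m) ^ a := div_le_div_of_nonneg_right h1 h2.le
    _ = _ := by ring

/-- The widths of two heights. -/
theorem wd63 (h : In μ s c C n₀) {m n : ℕ} (hm : 1 ≤ m) (hmn : m ≤ n) : wd μ s n ≤ 2 * ((n : ℝ) / m) * wd μ s m := by
  have hm0 : (0 : ℝ) < m := by exact_mod_cast hm
  have h1 := wd_lower_one h hm hmn
  have h2 : wd μ s n = (m * wd μ s n) / m := by field_simp
  rw [h2]
  calc (m * wd μ s n) / m ≤ (2 * (n * wd μ s m)) / m := div_le_div_of_nonneg_right h1 hm0.le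
    _ = _ := by ring

/-- **THE COST OF A PIECE.** -/
theorem cost63 (h : In μ s c C n₀) : ∃ (a : ℝ) (K₀ n₁ : ℕ), 0 < a ∧ a ≤ 1 ∧ 2 ≤ K₀ ∧ 1 ≤ n₁ ∧ ∀ P : ℕ, ∃ D : ℝ, 1 ≤ D ∧
    ∀ {q₀ : ℝ} {H lab : ℕ → ℕ} {q : ℕ → ℝ} {i₀ i₁ t Tt c₀ : ℕ}, 0 ≤ q₀ → (∀ v, v ≤ t → n₁ ≤ H v) → (∀ v, v < t → K₀ * H v ≤ H (v + 1)) →
      H t ≤ Tt → (∀ i, i₀ ≤ i → i < i₁ → lab i ≤ t) → (∀ v, ((Ico i₀ i₁).filter fun i => lab i = v).card ≤ c₀) →
      (∀ i, i₀ ≤ i → i < i₁ → 0 ≤ q i ∧ q i ≤ q₀ * ((Tt : ℝ) / H (lab i)) ^ (a / 8)) →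
      ∑ i ∈ Ico i₀ i₁, (1 + q i) ^ 2 * gr (2 * P) (2 * wd μ s Tt / wd μ s (H (lab i))) * EE μ s (H (lab i)) ≤
        D * c₀ * (1 + q₀) ^ 2 * EE μ s Tt := by
  obtain ⟨a, n₂, ha, ha1, hn2, hE⟩ := ee63 h
  obtain ⟨n₃, hn₃⟩ := eventually_atTop.1 ((wd_tendsto h).eventually_ge_atTop 1)
  obtain ⟨K₀, hK₀⟩ := exists_nat_ge ((2 : ℝ) ^ (2 / a))
  refine ⟨a, max 2 K₀, max n₂ n₃, ha, ha1, le_max_left _ _, hn2.trans (le_max_left _ _), fun P => ?_⟩
  obtain ⟨Cg, hCg, hgr⟩ := gr_pow63 (2 * P) (ε := a / 4) (A := 4) 1 (by positivity) (by norm_num)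
  refine ⟨4 * Cg, by linarith, ?_⟩
  intro q₀ H lab q i₀ i₁ t Tt c₀ hq₀ hH hHK hHt hlab hcnt hq
  have hEt := EE_pos (μ := μ) (s := s) Tt
  obtain ⟨Kr, hKr⟩ : ∃ Kr : ℝ, Kr = ((max 2 K₀ : ℕ) : ℝ) := ⟨_, rfl⟩
  have hKr1 : 1 ≤ Kr := by
    rw [hKr]
    exact_mod_cast (show 1 ≤ 2 by norm_num).trans (le_max_left 2 K₀)
  have hKr2 : (2 : ℝ) ≤ Kr ^ (a / 2) := by
    have h1 : (2 : ℝ) ^ (2 / a) ≤ Kr := hK₀.trans (by rw [hKr]; exact_mod_cast le_max_right 2 K₀)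
    have h2 := Real.rpow_le_rpow (by positivity) h1 (show 0 ≤ a / 2 by positivity)
    rw [← Real.rpow_mul (by norm_num)] at h2
    have e : 2 / a * (a / 2) = 1 := by field_simp
    rwa [e, Real.rpow_one] at h2
  -- the heights
  have hgrow : ∀ j v, v + j = t → Kr ^ j * H v ≤ H t := by
    intro j
    induction j with
    | zero =>
      intro v hv
      rw [add_zero] at hv
      rw [hv, pow_zero, one_mul]
    | succ j ih =>
      intro v hv
      have h1 := ih (v + 1) (by omega)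
      have h2 := hHK v (by omega)
      have h3 : Kr * (H v : ℝ) ≤ H (v + 1) := by
        rw [hKr]
        exact_mod_cast h2
      calc Kr ^ (j + 1) * (H v : ℝ) = Kr ^ j * (Kr * H v) := by ring
        _ ≤ Kr ^ j * H (v + 1) := mul_le_mul_of_nonneg_left h3 (by positivity)
        _ ≤ H t := h1
  -- one term
  have term : ∀ i ∈ Ico i₀ i₁, (1 + q i) ^ 2 * gr (2 * P) (2 * wd μ s Tt / wd μ s (H (lab i))) * EE μ s (H (lab i)) ≤
      2 * Cg * (1 + q₀) ^ 2 * EE μ s Tt * (1 / 2) ^ (t - lab i) := by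
    intro i hi
    rw [mem_Ico] at hi
    have hl := hlab i hi.1 hi.2
    obtain ⟨hq0, hqi⟩ := hq i hi.1 hi.2
    have hHi := hH _ hl
    have hHi1 : 1 ≤ H (lab i) := (hn2.trans (le_max_left _ _)).trans hHi
    have hHi0 : (0 : ℝ) < H (lab i) := by exact_mod_cast hHi1
    have g1 := hgrow (t - lab i) (lab i) (by omega)
    have hHt' : (H t : ℝ) ≤ Tt := by exact_mod_cast hHt
    have hx : Kr ^ (t - lab i) ≤ (Tt : ℝ) / H (lab i) := by
      rw [le_div_iff₀ hHi0]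
      linarith
    have hx1 : 1 ≤ (Tt : ℝ) / H (lab i) := (one_le_pow₀ hKr1).trans hx
    obtain ⟨x, hxd⟩ : ∃ x : ℝ, x = (Tt : ℝ) / H (lab i) := ⟨_, rfl⟩
    rw [← hxd] at hx hx1 hqi
    have hx0 : 0 < x := by linarith
    have hHT : H (lab i) ≤ Tt := by
      have : (H (lab i) : ℝ) ≤ Tt := by
        have h2 : x * H (lab i) = Tt := by rw [hxd]; field_simp
        nlinarith
      exact_mod_cast this
    have hwi : 1 ≤ wd μ s (H (lab i)) := hn₃ _ ((le_max_right _ _).trans hHi)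
    have hwt : 0 ≤ wd μ s Tt := h.wd_nonneg _
    have g2 : 2 * wd μ s Tt / wd μ s (H (lab i)) ≤ 4 * x ^ 1 := by
      rw [div_le_iff₀ (by linarith), pow_one, hxd]
      have := wd63 h hHi1 hHT
      linarith
    have g3 : gr (2 * P) (2 * wd μ s Tt / wd μ s (H (lab i))) ≤ Cg * x ^ (a / 4) :=
      (gr_mono _ (by positivity) g2).trans (hgr x hx1)
    have g4 := hE (H (lab i)) Tt ((le_max_left _ _).trans hHi) hHT
    rw [← hxd] at g4
    have g5 : (1 + q i) ^ 2 ≤ (1 + q₀) ^ 2 * x ^ (a / 4) := by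
      have h1 : 1 ≤ x ^ (a / 8) := Real.one_le_rpow hx1 (by positivity)
      have h2 : 1 + q i ≤ (1 + q₀) * x ^ (a / 8) := by nlinarith
      calc (1 + q i) ^ 2 ≤ ((1 + q₀) * x ^ (a / 8)) ^ 2 := pow_le_pow_left₀ (by linarith) h2 2
        _ = (1 + q₀) ^ 2 * x ^ (a / 4) := by
          rw [mul_pow, ← Real.rpow_natCast (x ^ (a / 8)), ← Real.rpow_mul hx0.le]
          congr 2
          push_cast
          ring
    have hEi := EE_pos (μ := μ) (s := s) (H (lab i))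
    have g6 : 0 ≤ gr (2 * P) (2 * wd μ s Tt / wd μ s (H (lab i))) := gr_nonneg _ (by positivity)
    have g7 : x ^ (a / 4) * x ^ (a / 4) * x ^ (-a) = x ^ (-(a / 2)) := by
      rw [← Real.rpow_add hx0, ← Real.rpow_add hx0]
      congr 1
      ring
    have g8 : x ^ (-(a / 2)) ≤ (1 / 2) ^ (t - lab i) := by
      have h1 : (2 : ℝ) ^ (t - lab i) ≤ x ^ (a / 2) := by
        calc (2 : ℝ) ^ (t - lab i) ≤ (Kr ^ (a / 2)) ^ (t - lab i) := pow_le_pow_left₀ (by norm_num) hKr2 _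
          _ = (Kr ^ (t - lab i)) ^ (a / 2) := by
            rw [← Real.rpow_natCast, ← Real.rpow_natCast, ← Real.rpow_mul (by linarith), ← Real.rpow_mul (by linarith), mul_comm]
          _ ≤ x ^ (a / 2) := Real.rpow_le_rpow (by positivity) hx (by positivity)
      rw [Real.rpow_neg hx0.le, one_div, inv_pow]
      exact inv_anti₀ (by positivity) h1
    have hq00 : 0 ≤ (1 + q₀) ^ 2 := by positivity
    have hxa : 0 ≤ x ^ (a / 4) := by positivity
    have hxb : 0 ≤ x ^ (-a) := by positivity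
    calc _ ≤ ((1 + q₀) ^ 2 * x ^ (a / 4)) * (Cg * x ^ (a / 4)) * (2 * x ^ (-a) * EE μ s Tt) :=
          mul_le_mul (mul_le_mul g5 g3 g6 (by positivity)) g4 hEi.le (by positivity)
      _ = 2 * Cg * (1 + q₀) ^ 2 * EE μ s Tt * (x ^ (a / 4) * x ^ (a / 4) * x ^ (-a)) := by ring
      _ ≤ 2 * Cg * (1 + q₀) ^ 2 * EE μ s Tt * (1 / 2) ^ (t - lab i) := by
        rw [g7]
        exact mul_le_mul_of_nonneg_left g8 (by positivity)
  refine (sum_le_sum term).trans ?_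
  rw [← mul_sum]
  have hsum : ∑ i ∈ Ico i₀ i₁, ((1 : ℝ) / 2) ^ (t - lab i) ≤ 2 * c₀ := by
    have h1 : ∀ i ∈ Ico i₀ i₁, lab i ∈ range (t + 1) := fun i hi => by
      rw [mem_Ico] at hi
      have := hlab i hi.1 hi.2
      rw [mem_range]
      omega
    rw [← sum_fiberwise_of_maps_to h1]
    have h2 : ∀ v ∈ range (t + 1), ∑ i ∈ (Ico i₀ i₁).filter (fun i => lab i = v), ((1 : ℝ) / 2) ^ (t - lab i) ≤ c₀ * (1 / 2) ^ (t - v) := by
      intro v _
      have h3 : ∀ i ∈ (Ico i₀ i₁).filter (fun i => lab i = v), ((1 : ℝ) / 2) ^ (t - lab i) = (1 / 2) ^ (t - v) := fun i hi => by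
        rw [(mem_filter.1 hi).2]
      rw [sum_congr rfl h3, sum_const, nsmul_eq_mul]
      refine mul_le_mul_of_nonneg_right ?_ (by positivity)
      exact_mod_cast hcnt v
    refine (sum_le_sum h2).trans ?_
    rw [← mul_sum]
    have h4 : ∑ v ∈ range (t + 1), ((1 : ℝ) / 2) ^ (t - v) ≤ 2 := by
      rw [← sum_range_reflect]
      have h5 : ∀ j ∈ range (t + 1), ((1 : ℝ) / 2) ^ (t - (t + 1 - 1 - j)) = (1 / 2) ^ j := fun j hj => by
        rw [mem_range] at hj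
        congr 1
        omega
      rw [sum_congr rfl h5]
      have h3 := (summable_geometric_two).sum_le_tsum (range (t + 1)) (fun i _ => by positivity)
      rwa [tsum_geometric_two] at h3
    have h6 := mul_le_mul_of_nonneg_left h4 (Nat.cast_nonneg (α := ℝ) c₀)
    linarith
  have h7 : 0 ≤ 2 * Cg * (1 + q₀) ^ 2 * EE μ s Tt := by
    have : 0 ≤ Cg := by linarith
    positivity
  refine (mul_le_mul_of_nonneg_left hsum h7).trans (le_of_eq ?_)
  ring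

end

end Pool.Agent.W_7d29a1_C1.LyN63
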