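import Pool.Agent.W_7d29a1_C1.LayC4
import Pool.Agent.W_7d29a1_C1.LayN63
import Pool.Agent.W_7d29a1_C1.FarW89

/-!
MP_7d29a1_pr, the attractor route [C1], TAME: THE BLOCK BELOW THE TOWER AS SLABS. (helper61)

`gr_split61` : the growth at a distance `A R ^ l X`. `qmono61` : the widths are monotone up to the constant 4. `cnt61` : at most six layers of
`OwnL` have a given label. **`blk61`** : the layers of the positions `iC + (v1 - v0)`, .., `iT - 1` of `OwnL` (the block `Bl` between the last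
clean cut and the first cut of the tower) are `Slabs` on the line of `ρ`, of cost `C3 ((1 + q₀) (Th x) ^ (v1 + 3 - u)) ^ 2`, any `x > 1`.
-/

set_option autoImplicit false
set_option linter.unusedSectionVars false
set_option linter.unusedVariables false

namespace Pool.Agent.W_7d29a1_C1.BlkD61

open MeasureTheory ProbabilityTheory Finset Filter
open Pool.Agent.W_7d29a1_F Pool.Agent.W_7d29a1_h4g Pool.Agent.W_7d29a1_H Pool.Agent.W_7d29a1_HS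
open Pool.Agent.W_7d29a1_C1.H75 Pool.Agent.W_7d29a1_C1.U16 Pool.Agent.W_7d29a1_C1.H40 Pool.Agent.W_7d29a1_C1.S71
open Pool.Agent.W_7d29a1_C1.FarK89 Pool.Agent.W_7d29a1_C1.FarW89 Pool.Agent.W_7d29a1_C1.Dep6 Pool.Agent.W_7d29a1_C1.RB6
open Pool.Agent.W_7d29a1_C1.LyN63 Pool.Agent.W_7d29a1_C1.LayC4

noncomputable section

/-! ### Numbers -/

/-- The growth at the distance `A R ^ l X`. -/
theorem gr_split61 {R x ε A : ℝ} (hR : 1 ≤ R) (hx : 1 < x) (hε : 0 < ε) (hA : 0 ≤ A) (P : ℕ) :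
    ∃ C : ℝ, 1 ≤ C ∧ ∀ (l : ℕ) (X : ℝ), 1 ≤ X → gr P (2 + A * R ^ l * X) ≤ C * x ^ l * X ^ ε := by
  have hlR := Real.log_nonneg hR
  have hlA : 0 ≤ Real.log (3 + A) := Real.log_nonneg (by linarith)
  obtain ⟨C₁, hC₁, H1⟩ := poly_pow6 (A := 1 + Real.log (3 + A)) (B := Real.log R) (by linarith) hlR hx P
  obtain ⟨C₂, hC₂, H2⟩ := gr_pow63 P (ε := ε) (A := 1) 1 hε (by norm_num)
  refine ⟨C₁ * C₂, one_le_mul_of_one_le_of_one_le hC₁ hC₂, fun l X hX => ?_⟩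
  have hX0 : 0 < X := by linarith
  have hRl : 1 ≤ R ^ l := one_le_pow₀ hR
  have hRl0 : 0 < R ^ l := by linarith
  have h1 := H1 l
  have h2 := H2 X hX
  unfold gr at h2 ⊢
  rw [one_mul, pow_one] at h2
  have hRX : 1 ≤ R ^ l * X := one_le_mul_of_one_le_of_one_le hRl hX
  have e1 : 1 + (2 + A * R ^ l * X) ≤ (3 + A) * (R ^ l * X) := by nlinarith
  have e2 : Real.log (1 + (2 + A * R ^ l * X)) ≤ Real.log (3 + A) + (Real.log R * l + Real.log X) := by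
    have h3 := Real.log_le_log (show 0 < 1 + (2 + A * R ^ l * X) by positivity) e1
    rw [Real.log_mul (by positivity) (by positivity), Real.log_mul hRl0.ne' hX0.ne', Real.log_pow] at h3
    linarith
  have e3 : Real.log X ≤ Real.log (1 + X) := Real.log_le_log hX0 (by linarith)
  have e4 : 0 ≤ Real.log X := Real.log_nonneg hX
  have e5 : 0 ≤ Real.log (1 + (2 + A * R ^ l * X)) := Real.log_nonneg (by
    have : 0 ≤ A * R ^ l * X := by positivity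
    linarith)
  have e6 : 0 ≤ Real.log R * l := by positivity
  have e7 : 1 + Real.log (1 + (2 + A * R ^ l * X)) ≤ (1 + Real.log (3 + A) + Real.log R * l) * (1 + Real.log (1 + X)) := by
    nlinarith [mul_nonneg (show 0 ≤ Real.log (3 + A) + Real.log R * l by positivity) (show 0 ≤ Real.log (1 + X) by linarith)]
  calc (1 + Real.log (1 + (2 + A * R ^ l * X))) ^ P ≤
        ((1 + Real.log (3 + A) + Real.log R * l) * (1 + Real.log (1 + X))) ^ P := pow_le_pow_left₀ (by linarith) e7 P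
    _ = (1 + Real.log (3 + A) + Real.log R * l) ^ P * (1 + Real.log (1 + X)) ^ P := mul_pow _ _ _
    _ ≤ (C₁ * x ^ l) * (C₂ * X ^ ε) := mul_le_mul h1 h2 (pow_nonneg (by linarith) _) (by positivity)
    _ = _ := by ring

variable {μ : Measure ℝ} [IsProbabilityMeasure μ] {s c C : ℝ} {n₀ : ℕ}

/-- The widths are monotone up to a constant. -/
theorem qmono61 (h0 : In μ s c C n₀) : ∃ n₁ : ℕ, 1 ≤ n₁ ∧ ∀ m n : ℕ, n₁ ≤ m → m ≤ n → wd μ s m ≤ 4 * wd μ s n := by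
  obtain ⟨a, n₁, ha, -, hn1, H⟩ := ee63 h0
  refine ⟨n₁, hn1, fun m n hm hmn => ?_⟩
  have hm1 : 1 ≤ m := hn1.trans hm
  have hm0 : (0 : ℝ) < m := by exact_mod_cast hm1
  have h1 := wd_growth_one h0 hm1 hmn
  have h2 := H m n hm hmn
  have hE := EE_pos (μ := μ) (s := s) n
  have h3 : ((n : ℝ) / m) ^ (-a) ≤ 1 := by
    refine Real.rpow_le_one_of_one_le_of_nonpos ?_ (by linarith)
    rw [le_div_iff₀ hm0, one_mul]
    exact_mod_cast hmn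
  have h4 : EE μ s m ≤ 2 * EE μ s n := by
    refine h2.trans ?_
    have := mul_le_mul_of_nonneg_right h3 hE.le
    linarith
  have hw := h0.wd_nonneg n
  have h5 : wd μ s m * EE μ s n ≤ 4 * wd μ s n * EE μ s n := by
    have h6 := mul_le_mul_of_nonneg_right h4 hw
    linarith
  exact le_of_mul_le_mul_right h5 hE

section Abs

variable {σ Λ : Type*} {G : Geo σ Λ} {lat : σ → ℝ} {latC : Cut Λ → ℝ} {w : ℕ → ℝ} {C0 : ℝ} {C2 D : ℕ} {Z : List (Cut Λ)} {ρ : σ} {u : ℕ}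
  {cs : ℕ → Cut Λ} {v0 v1 v2 iL iC iT : ℕ}

/-- At most six layers of a given label. -/
theorem cnt61 (h : OwnL G lat latC w C0 C2 D Z ρ u cs v0 v1 v2 iL iC iT) {a b : ℕ} (hb : b < Z.length) (v : ℕ) :
    ((Ico a b).filter fun i => lb6 (cs i) (cs (i + 1)) = v).card ≤ 6 := by
  classical
  have h1 := h.cnt v
  have hsub : ((Ico a b).filter fun i => lb6 (cs i) (cs (i + 1)) = v) ⊆
      ((range Z.length).filter fun i => (cs i).sc = v) ∪ (((range Z.length).filter fun i => (cs i).sc = v).image fun i => i - 1) := by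
    intro i hi
    rw [mem_filter, mem_Ico] at hi
    obtain ⟨⟨k1, k2⟩, k3⟩ := hi
    have k4 : max (cs i).sc (cs (i + 1)).sc = v := k3
    rw [mem_union]
    rcases max_choice (cs i).sc (cs (i + 1)).sc with k5 | k5
    · left
      rw [mem_filter, mem_range]
      exact ⟨by omega, by rw [← k5, k4]⟩
    · right
      rw [mem_image]
      exact ⟨i + 1, by rw [mem_filter, mem_range]; exact ⟨by omega, by rw [← k5, k4]⟩, by omega⟩
  refine (card_le_card hsub).trans ((card_union_le _ _).trans ?_)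
  have h2 := card_image_le (s := (range Z.length).filter fun i => (cs i).sc = v) (f := fun i => i - 1)
  omega

/-- The labels and the lateral positions of the layers of the block. -/
theorem pos61 (h : OwnL G lat latC w C0 C2 D Z ρ u cs v0 v1 v2 iL iC iT) (hC0 : 0 ≤ C0) {B : ℝ} (hB1 : w v1 ≤ B)
    (hB2 : w (v1 + D * (v1 - u)) ≤ B) (hB0 : 0 ≤ B) {i : ℕ} (h1 : iC + (v1 - v0) ≤ i) (h2 : i < iT) :
    i + 1 < Z.length ∧ lb6 (cs i) (cs (i + 1)) ≤ v1 + 3 ∧ |latC (cs i) - lat ρ| ≤ (1 + C0) * B := by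
  have a1 := h.iCT
  have a2 := h.len
  have a3 := h.v0u
  have a4 := h.uv1
  have hsc : (cs i).sc ≤ v1 + 2 := by
    rcases Nat.lt_or_ge (iC + (v1 - v0)) i with h3 | h3
    · exact (h.bl i h3 h2).1
    · rw [show i = iC + (v1 - v0) by omega, h.clsc v1 (by omega) le_rfl]
      omega
  have hsc' : (cs (i + 1)).sc ≤ v1 + 3 := by
    rcases Nat.lt_or_ge (i + 1) iT with h3 | h3
    · exact (h.bl (i + 1) (by omega) h3).1.trans (by omega)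
    · have h4 := h.twsc (v1 + 3) le_rfl h.v1m
      rw [Nat.sub_self, add_zero, show iT = i + 1 by omega] at h4
      omega
  refine ⟨by omega, ?_, ?_⟩
  · show max (cs i).sc (cs (i + 1)).sc ≤ v1 + 3
    omega
  · rcases Nat.lt_or_ge (iC + (v1 - v0)) i with h3 | h3
    · refine (h.bl i h3 h2).2.trans ?_
      have := mul_le_mul_of_nonneg_left hB2 hC0
      nlinarith
    · have h4 := h.clat v1 (by omega) le_rfl
      rw [show i = iC + (v1 - v0) by omega]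
      refine h4.trans ?_
      have h5 := mul_le_mul_of_nonneg_left hB1 hC0
      have h6 := mul_nonneg hC0 hB0
      split_ifs <;> nlinarith

end Abs

/-- **THE BLOCK AS SLABS**, any number of levels above `G.m`. -/
theorem blkG61 (h0 : In μ s c C n₀) : ∃ (a0 : ℝ) (K0 m1 : ℕ), 0 < a0 ∧ 2 ≤ K0 ∧ 1 ≤ m1 ∧ ∀ (P D Kn : ℕ) {x : ℝ}, 1 < x →
    ∀ C0 : ℝ, 0 ≤ C0 → ∃ C3 : ℝ, 1 ≤ C3 ∧
    ∀ {σ Λ : Type*} {G : Geo σ Λ} {lat : σ → ℝ} {latC : Cut Λ → ℝ} {w : ℕ → ℝ} {C2 : ℕ} {Z : List (Cut Λ)} {ρ : σ} {u : ℕ}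
      {cs : ℕ → Cut Λ} {v0 v1 v2 iL iC iT : ℕ} {θ K K' A a g A' a' g' q₀ Th : ℝ} {F F' : Cut Λ → Cut Λ → ℝ → Set Env}
      {E : Cut Λ → Cut Λ → Set Env} {E3 : Cut Λ → Cut Λ → Cut Λ → Set Env} {X : Cut Λ → Cut Λ → Cut Λ → Env → ℕ} {Cn : ℕ}
      {Sw : Finset ℤ} {D' : ℕ} {scN : Cut Λ → Cut Λ → Cut Λ → ℕ} {η : Env} {Hf : Cut Λ → Cut Λ → ℕ} {col : Cut Λ → ℤ},
    G.K = Kn → K0 ≤ Kn → m1 ≤ G.T 0 → OwnL G lat latC w C0 C2 D Z ρ u cs v0 v1 v2 iL iC iT → LvF μ A a g F → LvF μ A' a' g' F' →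
    0 ≤ q₀ → 1 ≤ Th → Th ≤ (Kn : ℝ) ^ a0 → Ok6 Sw (dLI6 F F' E q₀ Th D') (dNI6 X Cn F E3 q₀ Th D') lb6 scN Z u η → G.m < D' →
    (∀ x y q, F x y q ⊆ lvS μ s c θ K P Hf col x y q) → (∀ x y, Hf x y = 8 * G.K ^ 2 * G.T (lb6 x y)) → K' + 2 ≤ K → 3 ≤ K' →
    θ * (32 * G.K ^ 2) ≤ 1 → 0 ≤ θ → (∀ v, w v ≤ wd μ s (8 * G.K ^ 2 * G.T (v + 1))) →
    (∀ a, |(col a : ℝ) - sl μ s * (a.row : ℝ) - latC a| ≤ 1) →
    ∀ {n₁ Tt : ℕ} {κ : Pt} {hh : ℝ}, lat ρ = (κ.2 : ℝ) - sl μ s * (κ.1 : ℝ) → 0 ≤ G.row ρ → n₁ ≤ 8 * G.K ^ 2 * G.T 0 →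
    8 * G.K ^ 2 * G.T (v1 + 3) ≤ Tt → |hh| * wd μ s Tt ≤ c / 8 * EE μ s Tt →
    ∃ (q : ℕ → ℝ) (bs : ℕ → Pt),
      (∀ i, iC + (v1 - v0) ≤ i → i < iT → 0 ≤ lat16 μ s κ (bs i) ∧ lat16 μ s κ (bs i) < 1 ∧ (bs i).1 = (cs i).row) ∧
      Slabs μ s c θ K' hh P η κ (fun i => (cs i).row.toNat) (fun i => 8 * G.K ^ 2 * G.T (lb6 (cs i) (cs (i + 1))))
        (fun i => nR (cs i) (cs (i + 1))) q bs (iC + (v1 - v0)) iT Tt n₁ (C3 * ((1 + q₀) * (Th * x) ^ (v1 + 3 - u)) ^ 2) ∧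
      ∀ i, iC + (v1 - v0) ≤ i → i < iT → θ * ((8 * G.K ^ 2 * G.T (lb6 (cs i) (cs (i + 1))) : ℕ) : ℝ) ≤
        (((cs (i + 1)).row.toNat - (cs i).row.toNat : ℕ) : ℝ) := by
  obtain ⟨a₁, K₁, m₂, ha, ha1, hK1, hm2, HC⟩ := cost63 h0
  obtain ⟨m₃, hm3, Hq⟩ := qmono61 h0
  obtain ⟨m₄, hm₄⟩ := eventually_atTop.1 ((wd_tendsto h0).eventually_ge_atTop 1)
  refine ⟨a₁ / 16, K₁, max m₂ (max m₃ m₄), by positivity, hK1, hm2.trans (le_max_left _ _), fun P D Kn x hx C0 hC0 => ?_⟩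
  obtain ⟨C₂, hC₂, HC2⟩ := HC P
  have hKn1 : (1 : ℝ) ≤ max 1 (Kn : ℝ) := le_max_left _ _
  obtain ⟨C₁, hC₁, Hg⟩ := gr_split61 (R := (max 1 (Kn : ℝ)) ^ D) (x := x) (ε := a₁ / 16) (A := 9 + 8 * C0) (one_le_pow₀ hKn1) hx
    (by positivity) (by linarith) P
  refine ⟨6 * C₂ * C₁ ^ 2, ?_, ?_⟩
  · have := one_le_mul_of_one_le_of_one_le hC₂ (one_le_pow₀ hC₁ (n := 2))
    nlinarith
  intro σ Λ G lat latC w C2 Z ρ u cs v0 v1 v2 iL iC iT θ K K' A a g A' a' g' q₀ Th F F' E E3 X Cn Sw D' scN η Hf col hKn hKK hm h hF hF'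
    hq hTh hThK ho hmD hFS hHf hK hK3 hθ hθ0 hww hcol n₁ Tt κ hh hκ hrow hn₁ hTt hforce
  have a1 := h.iCT
  have a2 := h.len
  have a3 := h.v0u
  have a4 := h.uv1
  have a5 := h.v1m
  have hK8 := G.hK
  obtain ⟨Kr, hKr⟩ : ∃ Kr : ℝ, Kr = (Kn : ℝ) := ⟨_, rfl⟩
  have hKr2 : 2 ≤ Kr := by
    rw [hKr]
    exact_mod_cast hK1.trans hKK
  have hmax : max 1 (Kn : ℝ) = Kr := by rw [← hKr]; exact max_eq_right (by linarith)
  rw [hmax] at Hg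
  rw [← hKr] at hThK
  -- the heights
  obtain ⟨H, hH⟩ : ∃ H : ℕ → ℕ, H = fun v => 8 * G.K ^ 2 * G.T v := ⟨_, rfl⟩
  have hH' : ∀ v, 8 * G.K ^ 2 * G.T v = H v := fun v => by rw [hH]
  have hHK : ∀ v, H (v + 1) = Kn * H v := fun v => by
    rw [hH, ← hKn]
    show 8 * G.K ^ 2 * (G.T0 * G.K ^ (v + 1)) = G.K * (8 * G.K ^ 2 * (G.T0 * G.K ^ v))
    rw [pow_succ G.K v]
    ring
  have hHp : ∀ v j : ℕ, H (v + j) = Kn ^ j * H v := by
    intro v j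
    induction j with
    | zero => rw [add_zero, pow_zero, one_mul]
    | succ j ih => rw [show v + (j + 1) = v + j + 1 by ring, hHK, ih, pow_succ]; ring
  have hHmono : ∀ {v v' : ℕ}, v ≤ v' → H v ≤ H v' := fun {v v'} hv => by
    rw [hH]
    exact Nat.mul_le_mul_left _ (Tk_mono G.hK hv)
  have hH0 : G.T 0 ≤ H 0 := by
    rw [hH]
    exact Nat.le_mul_of_pos_left _ (by positivity)
  have hHm : ∀ v, max m₂ (max m₃ m₄) ≤ H v := fun v => hm.trans (hH0.trans (hHmono (Nat.zero_le _)))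
  have hHm2 : ∀ v, m₂ ≤ H v := fun v => (le_max_left _ _).trans (hHm v)
  have hHm3 : ∀ v, m₃ ≤ H v := fun v => ((le_max_left _ _).trans (le_max_right _ _)).trans (hHm v)
  have hHm4 : ∀ v, m₄ ≤ H v := fun v => ((le_max_right _ _).trans (le_max_right _ _)).trans (hHm v)
  have hHr0 : ∀ v, (0 : ℝ) < H v := fun v => by exact_mod_cast hm2.trans (hHm2 v)
  simp only [hH'] at hHf hww hn₁ hTt ⊢
  -- the far distance of the block
  obtain ⟨l, hl⟩ : ∃ l : ℕ, l = v1 - u := ⟨_, rfl⟩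
  obtain ⟨Tf, hTf⟩ : ∃ Tf : ℕ, Tf = Kn ^ (D * l) * Tt := ⟨_, rfl⟩
  have hKn0 : 1 ≤ Kn ^ (D * l) := Nat.one_le_pow _ _ (by omega)
  have hTTf : Tt ≤ Tf := by
    rw [hTf]
    exact Nat.le_mul_of_pos_left _ hKn0
  have hHTt : ∀ {v}, v ≤ v1 + 3 → H v ≤ Tt := fun {v} hv => (hHmono hv).trans hTt
  have hB1 : w v1 ≤ 4 * wd μ s Tf := (hww v1).trans (Hq _ _ (hHm3 _) ((hHTt (by omega)).trans hTTf))
  have hB2 : w (v1 + D * (v1 - u)) ≤ 4 * wd μ s Tf := by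
    refine (hww _).trans (Hq _ _ (hHm3 _) ?_)
    rw [show v1 + D * (v1 - u) + 1 = v1 + 1 + D * l by rw [hl]; ring, hHp, hTf]
    exact Nat.mul_le_mul_left _ (hHTt (by omega))
  have hB0 : 0 ≤ 4 * wd μ s Tf := by
    have := h0.wd_nonneg Tf
    linarith
  -- the labels
  obtain ⟨lab, hlab⟩ : ∃ lab : ℕ → ℕ, lab = fun i => lb6 (cs i) (cs (i + 1)) := ⟨_, rfl⟩
  have hlab' : ∀ i, lb6 (cs i) (cs (i + 1)) = lab i := fun i => by rw [hlab]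
  obtain ⟨M, hM⟩ : ∃ M : ℕ, M = v1 + 3 - u := ⟨_, rfl⟩
  obtain ⟨X', hX'⟩ : ∃ X' : ℕ → ℝ, X' = fun i => (Tt : ℝ) / H (lab i) := ⟨_, rfl⟩
  obtain ⟨Y, hY⟩ : ∃ Y : ℕ → ℝ, Y = fun i => (9 + 8 * C0) * (Kr ^ D) ^ l * X' i := ⟨_, rfl⟩
  obtain ⟨q, hqd⟩ : ∃ q : ℕ → ℝ, q = fun i => q₀ * Th ^ ds4 u (lab i) * gr P (2 + Y i) := ⟨_, rfl⟩
  have hX1 : ∀ i, lab i ≤ v1 + 3 → 1 ≤ X' i := fun i hi => by
    rw [hX']
    show 1 ≤ (Tt : ℝ) / H (lab i)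
    rw [le_div_iff₀ (hHr0 _), one_mul]
    exact_mod_cast hHTt hi
  -- one layer
  have lay : ∀ i, iC + (v1 - v0) ≤ i → i < iT → i + 1 < Z.length ∧ lab i ≤ v1 + 3 ∧ Gp G (cs i) (cs (i + 1)) ∧
      hg6 Hf (cs i) (cs (i + 1)) = H (lab i) ∧ |latC (cs i) - lat ρ| ≤ (1 + C0) * (4 * wd μ s Tf) := by
    intro i h1 h2
    obtain ⟨k1, k2, k3⟩ := pos61 h hC0 hB1 hB2 hB0 h1 h2
    have k4 := h.gap i k1
    refine ⟨k1, by rw [← hlab']; exact k2, k4, ?_, k3⟩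
    rw [hg_eq4 k4 (by rw [hHf, ← hH']; exact Nat.mul_le_mul_right _ (Nat.mul_le_mul_right _ (by norm_num))), hHf, hlab']
  have hrow : ∀ i, iC + (v1 - v0) ≤ i → i < Z.length → 0 ≤ (cs i).row := by
    intro i h1 h2
    have k1 := (h.clrb v1 (by omega) le_rfl).1
    have k2 := h.row_mono h1 h2
    have k3 : (0 : ℤ) ≤ G.T v1 := Int.natCast_nonneg _
    linarith
  -- the bases
  have key : ∀ i, iC + (v1 - v0) ≤ i ∧ i < iT → ∃ bs : Pt, bs.1 = (cs i).row ∧ 0 ≤ lat16 μ s κ bs ∧ lat16 μ s κ bs < 1 ∧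
      η ∈ Far16 μ s c θ K' (H (lab i)) (nR (cs i) (cs (i + 1))) P bs (q i) := by
    rintro i ⟨h1, h2⟩
    obtain ⟨k1, k2, k3, k4, k5⟩ := lay i h1 h2
    have hx1 := hX1 i k2
    have hw1 : 1 ≤ wd μ s (H (lab i)) := hm₄ _ (hHm4 _)
    have e1 := lat_ctr4 hκ (hcol (cs i)) k5
    have e2 := wd63 h0 (hm2.trans (hHm2 (lab i))) ((hHTt k2).trans hTTf)
    have e3 : ((Tf : ℕ) : ℝ) / H (lab i) = (Kr ^ D) ^ l * X' i := by
      rw [hTf, hX', hKr]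
      push_cast
      rw [← pow_mul]
      ring
    rw [e3] at e2
    have hRl : 1 ≤ (Kr ^ D) ^ l := one_le_pow₀ (one_le_pow₀ (by linarith))
    have e4 : 1 ≤ (Kr ^ D) ^ l * X' i * wd μ s (H (lab i)) :=
      one_le_mul_of_one_le_of_one_le (one_le_mul_of_one_le_of_one_le hRl hx1) hw1
    have e5 : |lat16 μ s κ ((cs i).row, col (cs i))| ≤ Y i * wd μ s (hg6 Hf (cs i) (cs (i + 1))) := by
      rw [k4, hY]
      show _ ≤ (9 + 8 * C0) * (Kr ^ D) ^ l * X' i * wd μ s (H (lab i))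
      have e6 := mul_le_mul_of_nonneg_left e2 (show 0 ≤ (1 + C0) * 4 by linarith)
      nlinarith
    have hY0 : 0 ≤ Y i := by
      rw [hY]
      show 0 ≤ (9 + 8 * C0) * (Kr ^ D) ^ l * X' i
      have : 0 ≤ X' i := by linarith
      positivity
    obtain ⟨bs, b1, b2, b3, b4⟩ := far_pos4 (K' := K') (l := ds4 u (lab i)) h hF hF' hq hTh ho hFS k1 (by rw [hlab']; exact ds4_le _ _)
      (by rw [hlab']; exact ds4_le' _ _) ((ds4_lt (m := G.m) (by omega) (by omega)).trans_le hmD) hK (by rw [k4]; exact hw1) hY0 e5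
    rw [k4] at b4
    refine ⟨bs, b1, b2, b3, ?_⟩
    rw [hqd]
    exact b4
  choose! bs hbs using key
  have hg0 : ∀ i, lab i ≤ v1 + 3 → 0 ≤ gr P (2 + Y i) := fun i hi => gr_nonneg _ (by
    have := hX1 i hi
    have h2 : 0 ≤ (9 + 8 * C0) * (Kr ^ D) ^ l * X' i := by
      have : 0 ≤ X' i := by linarith
      positivity
    rw [hY]
    show 0 ≤ 2 + (9 + 8 * C0) * (Kr ^ D) ^ l * X' i
    linarith)
  have hThx : 1 ≤ (Th * x) ^ M := one_le_pow₀ (by nlinarith)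
  have hq' : ∀ i, iC + (v1 - v0) ≤ i → i < iT → 0 ≤ q i ∧ q i ≤ q₀ * (C₁ * (Th * x) ^ M) * ((Tt : ℝ) / H (lab i)) ^ (a₁ / 8) := by
    intro i h1 h2
    obtain ⟨k1, k2, k3, k4, k5⟩ := lay i h1 h2
    have hx1 := hX1 i k2
    have hx0 : 0 < X' i := by linarith
    have hg := hg0 i k2
    have g1 : gr P (2 + Y i) ≤ C₁ * x ^ M * X' i ^ (a₁ / 16) := by
      have g2 := Hg l (X' i) hx1
      rw [hY]
      refine g2.trans (mul_le_mul_of_nonneg_right (mul_le_mul_of_nonneg_left (pow_le_pow_right₀ hx.le (by omega)) (by linarith))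
        (by positivity))
    have g3 : Th ^ ds4 u (lab i) ≤ Th ^ M * X' i ^ (a₁ / 16) := by
      have hXa : 1 ≤ X' i ^ (a₁ / 16) := Real.one_le_rpow hx1 (by positivity)
      have hTM : 1 ≤ Th ^ M := one_le_pow₀ hTh
      rcases le_or_gt u (lab i) with h3 | h3
      · have g4 : Th ^ ds4 u (lab i) ≤ Th ^ M := pow_le_pow_right₀ hTh (by unfold ds4; omega)
        exact g4.trans (le_mul_of_one_le_right (by linarith) hXa)
      · have g4 : Th ^ ds4 u (lab i) ≤ Th ^ (v1 + 3 - lab i) := pow_le_pow_right₀ hTh (by unfold ds4; omega)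
        have g5 : Th ^ (v1 + 3 - lab i) ≤ X' i ^ (a₁ / 16) := by
          calc Th ^ (v1 + 3 - lab i) ≤ (Kr ^ (a₁ / 16)) ^ (v1 + 3 - lab i) := pow_le_pow_left₀ (by linarith) hThK _
            _ = (Kr ^ (v1 + 3 - lab i)) ^ (a₁ / 16) := by
              rw [← Real.rpow_natCast, ← Real.rpow_natCast, ← Real.rpow_mul (by linarith), ← Real.rpow_mul (by linarith), mul_comm]
            _ ≤ _ := by
              refine Real.rpow_le_rpow (by positivity) ?_ (by positivity)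
              rw [hX']
              show _ ≤ (Tt : ℝ) / H (lab i)
              rw [le_div_iff₀ (hHr0 _)]
              have g6 := hHp (lab i) (v1 + 3 - lab i)
              rw [show lab i + (v1 + 3 - lab i) = v1 + 3 by omega] at g6
              have g7 : (Kn ^ (v1 + 3 - lab i) * H (lab i) : ℕ) ≤ Tt := by rw [← g6]; exact hTt
              rw [hKr]
              exact_mod_cast g7
        exact (g4.trans g5).trans (le_mul_of_one_le_left (by positivity) hTM)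
    refine ⟨by rw [hqd]; exact mul_nonneg (by positivity) hg, ?_⟩
    have g8 : X' i ^ (a₁ / 16) * X' i ^ (a₁ / 16) = X' i ^ (a₁ / 8) := by
      rw [← Real.rpow_add hx0]
      congr 1
      ring
    have g9 : ((Tt : ℝ) / H (lab i)) ^ (a₁ / 8) = X' i ^ (a₁ / 8) := by rw [hX']
    rw [g9, hqd]
    show q₀ * Th ^ ds4 u (lab i) * gr P (2 + Y i) ≤ _
    calc q₀ * Th ^ ds4 u (lab i) * gr P (2 + Y i) ≤ q₀ * (Th ^ M * X' i ^ (a₁ / 16)) * (C₁ * x ^ M * X' i ^ (a₁ / 16)) :=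
          mul_le_mul (mul_le_mul_of_nonneg_left g3 hq) g1 hg (by positivity)
      _ = q₀ * (C₁ * (Th * x) ^ M) * (X' i ^ (a₁ / 16) * X' i ^ (a₁ / 16)) := by rw [mul_pow]; ring
      _ = _ := by rw [g8]
  simp only [hlab', ← hM]
  refine ⟨q, bs, fun i h1 h2 => ⟨(hbs i ⟨h1, h2⟩).2.1, (hbs i ⟨h1, h2⟩).2.2.1, (hbs i ⟨h1, h2⟩).1⟩, ?_, fun i h1 h2 => ?_⟩
  · refine ⟨fun i h1 h2 => (hq' i h1 h2).1, hK3, hn₁.trans (hHTt (Nat.zero_le _)), fun i h1 h2 => hn₁.trans (hHmono (Nat.zero_le _)),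
      fun i h1 h2 => hHTt (lay i h1 h2).2.1, fun i h1 h2 => ?_, fun i h1 h2 => Int.toNat_le_toNat (lay i h1 h2).2.2.1.le,
      fun i h1 h2 => ?_, fun i h1 h2 => ?_, fun i h1 h2 => ?_, fun i h1 h2 => (hbs i ⟨h1, h2⟩).2.2.2, ?_, hforce⟩
    · obtain ⟨k1, k2, k3, k4, k5⟩ := lay i h1 h2
      show nR _ _ ≤ _
      rw [← k4]
      exact le_max_right _ _
    · show (bs i).1 ≤ (((cs i).row.toNat : ℕ) : ℤ)
      rw [(hbs i ⟨h1, h2⟩).1]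
      exact Int.self_le_toNat _
    · obtain ⟨k1, k2, k3, k4, k5⟩ := lay i h1 h2
      show (((cs (i + 1)).row.toNat : ℕ) : ℤ) ≤ (bs i).1 + (nR (cs i) (cs (i + 1)) : ℤ)
      rw [(hbs i ⟨h1, h2⟩).1, nR_eq4 k3.le, Int.toNat_of_nonneg (hrow _ (by omega) k1)]
      linarith
    · obtain ⟨-, e1, e2, -⟩ := hbs i ⟨h1, h2⟩
      show |lat16 μ s κ (bs i)| ≤ wd μ s (H (lab i))
      rw [abs_of_nonneg e1]
      exact e2.le.trans (hm₄ _ (hHm4 _))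
    · have key := HC2 (q₀ := q₀ * (C₁ * (Th * x) ^ M)) (H := H) (lab := lab) (q := q) (i₀ := iC + (v1 - v0)) (i₁ := iT) (t := v1 + 3)
        (Tt := Tt) (c₀ := 6) (by positivity) (fun v _ => hHm2 v) (fun v _ => by rw [hHK]; exact Nat.mul_le_mul_right _ hKK) hTt
        (fun i h1 h2 => (lay i h1 h2).2.1) (fun v => by
          have := cnt61 h (a := iC + (v1 - v0)) (b := iT) (by omega) v
          rw [hlab]
          exact this) hq'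
      refine key.trans (mul_le_mul_of_nonneg_right ?_ (EE_pos (μ := μ) (s := s) Tt).le)
      have g1 : (1 + q₀ * (C₁ * (Th * x) ^ M)) ^ 2 ≤ C₁ ^ 2 * ((1 + q₀) * (Th * x) ^ M) ^ 2 := by
        rw [← mul_pow]
        refine pow_le_pow_left₀ (by positivity) ?_ 2
        have := one_le_mul_of_one_le_of_one_le hC₁ hThx
        nlinarith
      have g2 : 0 ≤ C₂ * ((6 : ℕ) : ℝ) := by positivity
      calc C₂ * ((6 : ℕ) : ℝ) * (1 + q₀ * (C₁ * (Th * x) ^ M)) ^ 2 ≤ C₂ * ((6 : ℕ) : ℝ) * (C₁ ^ 2 * ((1 + q₀) * (Th * x) ^ M) ^ 2) :=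
            mul_le_mul_of_nonneg_left g1 g2
        _ = _ := by push_cast; ring
  · obtain ⟨k1, k2, k3, k4, k5⟩ := lay i h1 h2
    have e0 := hrow i h1 (by omega)
    have e2 := hrow (i + 1) (by omega) k1
    have e1 := k3.le
    have g1 := k3.1
    have e : max (cs i).sc (cs (i + 1)).sc = lab i := hlab' i
    rw [e] at g1
    have g2 : (((cs (i + 1)).row.toNat - (cs i).row.toNat : ℕ) : ℤ) = (cs (i + 1)).row - (cs i).row := by
      have r1 := Int.toNat_of_nonneg e0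
      have r2 := Int.toNat_of_nonneg e2
      omega
    have g3 : ((G.T (lab i) : ℕ) : ℝ) ≤ 4 * (((cs (i + 1)).row.toNat - (cs i).row.toNat : ℕ) : ℝ) := by
      have g4 : ((G.T (lab i) : ℕ) : ℤ) ≤ 4 * (((cs (i + 1)).row.toNat - (cs i).row.toNat : ℕ) : ℤ) := by rw [g2]; exact g1
      exact_mod_cast g4
    have hT0 : (0 : ℝ) ≤ G.T (lab i) := Nat.cast_nonneg _
    rw [← hH']
    push_cast
    calc θ * (8 * (G.K : ℝ) ^ 2 * (G.T (lab i) : ℝ)) = θ * (32 * (G.K : ℝ) ^ 2) * ((G.T (lab i) : ℝ) / 4) := by ring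
      _ ≤ 1 * ((G.T (lab i) : ℝ) / 4) := mul_le_mul_of_nonneg_right hθ (by linarith)
      _ ≤ _ := by linarith

/-- **THE BLOCK AS SLABS.** -/
theorem blk61 (h0 : In μ s c C n₀) : ∃ (a0 : ℝ) (K0 m1 : ℕ), 0 < a0 ∧ 2 ≤ K0 ∧ 1 ≤ m1 ∧ ∀ (P D Kn : ℕ) {x : ℝ}, 1 < x →
    ∀ C0 : ℝ, 0 ≤ C0 → ∃ C3 : ℝ, 1 ≤ C3 ∧
    ∀ {σ Λ : Type*} {G : Geo σ Λ} {lat : σ → ℝ} {latC : Cut Λ → ℝ} {w : ℕ → ℝ} {C2 : ℕ} {Z : List (Cut Λ)} {ρ : σ} {u : ℕ}
      {cs : ℕ → Cut Λ} {v0 v1 v2 iL iC iT : ℕ} {θ K K' A a g A' a' g' q₀ Th : ℝ} {F F' : Cut Λ → Cut Λ → ℝ → Set Env}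
      {E : Cut Λ → Cut Λ → Set Env} {E3 : Cut Λ → Cut Λ → Cut Λ → Set Env} {X : Cut Λ → Cut Λ → Cut Λ → Env → ℕ} {Cn : ℕ}
      {Sw : Finset ℤ} {scN : Cut Λ → Cut Λ → Cut Λ → ℕ} {η : Env} {Hf : Cut Λ → Cut Λ → ℕ} {col : Cut Λ → ℤ},
    G.K = Kn → K0 ≤ Kn → m1 ≤ G.T 0 → OwnL G lat latC w C0 C2 D Z ρ u cs v0 v1 v2 iL iC iT → LvF μ A a g F → LvF μ A' a' g' F' →
    0 ≤ q₀ → 1 ≤ Th → Th ≤ (Kn : ℝ) ^ a0 → Ok6 Sw (dLI6 F F' E q₀ Th (G.m + 1)) (dNI6 X Cn F E3 q₀ Th (G.m + 1)) lb6 scN Z u η →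
    (∀ x y q, F x y q ⊆ lvS μ s c θ K P Hf col x y q) → (∀ x y, Hf x y = 8 * G.K ^ 2 * G.T (lb6 x y)) → K' + 2 ≤ K → 3 ≤ K' →
    θ * (32 * G.K ^ 2) ≤ 1 → 0 ≤ θ → (∀ v, w v ≤ wd μ s (8 * G.K ^ 2 * G.T (v + 1))) →
    (∀ a, |(col a : ℝ) - sl μ s * (a.row : ℝ) - latC a| ≤ 1) →
    ∀ {n₁ Tt : ℕ} {κ : Pt} {hh : ℝ}, lat ρ = (κ.2 : ℝ) - sl μ s * (κ.1 : ℝ) → 0 ≤ G.row ρ → n₁ ≤ 8 * G.K ^ 2 * G.T 0 →
    8 * G.K ^ 2 * G.T (v1 + 3) ≤ Tt → |hh| * wd μ s Tt ≤ c / 8 * EE μ s Tt →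
    ∃ (q : ℕ → ℝ) (bs : ℕ → Pt),
      (∀ i, iC + (v1 - v0) ≤ i → i < iT → 0 ≤ lat16 μ s κ (bs i) ∧ lat16 μ s κ (bs i) < 1 ∧ (bs i).1 = (cs i).row) ∧
      Slabs μ s c θ K' hh P η κ (fun i => (cs i).row.toNat) (fun i => 8 * G.K ^ 2 * G.T (lb6 (cs i) (cs (i + 1))))
        (fun i => nR (cs i) (cs (i + 1))) q bs (iC + (v1 - v0)) iT Tt n₁ (C3 * ((1 + q₀) * (Th * x) ^ (v1 + 3 - u)) ^ 2) ∧
      ∀ i, iC + (v1 - v0) ≤ i → i < iT → θ * ((8 * G.K ^ 2 * G.T (lb6 (cs i) (cs (i + 1))) : ℕ) : ℝ) ≤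
        (((cs (i + 1)).row.toNat - (cs i).row.toNat : ℕ) : ℝ) := by
  obtain ⟨a0, K0, m1, h1, h2, h3, H⟩ := blkG61 h0
  refine ⟨a0, K0, m1, h1, h2, h3, fun P D Kn x hx C0 hC0 => ?_⟩
  obtain ⟨C3, h4, H⟩ := H P D Kn hx C0 hC0
  refine ⟨C3, h4, ?_⟩
  intro σ Λ G lat latC w C2 Z ρ u cs v0 v1 v2 iL iC iT θ K K' A a g A' a' g' q₀ Th F F' E E3 X Cn Sw scN η Hf col hKn hKK hm h hF hF'
    hq hTh hThK ho
  exact H hKn hKK hm h hF hF' hq hTh hThK ho (Nat.lt_succ_self _)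

end

end Pool.Agent.W_7d29a1_C1.BlkD61
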