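import Pool.Agent.W_7d29a1_C1.CmpM71

/-!
MP_7d29a1_pr, attractor route, [C1] SEP, leaf S7: `Luck` and `Stay` of CmpM71 from local data, over K91P. (helper71)

Windows `α i ≤ y ≤ β i` of the rows, `α` non decreasing, `β` with increments `≤ 1` (so the single sites `α i`, `β i` are crossed by every
route which comes in, and `α i - 1`, `β i + 1` by every route which leaves).
* `bw_exit` : first exit of a set of sites; `stay_of` : the routes of the contact stay in the windows;
* `into_of` : the routes from outside of the window into the mouth against the OLD total, from the boundary sites only;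
* `luck_of` : all data of `Luck`.
-/

set_option autoImplicit false

namespace Pool.Agent.W_7d29a1_C1.Cmp71

open Finset
open Pool.Agent.W_7d29a1_C1.K91 (Grp Box wt wt_pos)
open Pool.Agent.W_7d29a1_C1.K91P (fw bw bw_succ bw_zero fw_succ fw_zero bw_pos fw_nonneg fw_lo fw_hi fw_congr bw_congr dp dp_nonneg)
open Pool.Agent.W_7d29a1_C1.U16 (ker ker_zero ker_succ ker_nonneg ker_eq_zero ker_congr bw_ker)
open Pool.Agent.W_7d29a1_C1.Sp22 (Ms Zt Zt_row Zt_pos pc pc_nonneg kw kw_nn kw_le bf bf_zero bf_succ bf_ker bf_mono bf_nonneg ker_back fw_nn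
  fw_mono)
open Pool.Agent.W_7d29a1_C1.R26P (kf TP_kf)
open Pool.Agent.W_7d29a1_C1.CR76

noncomputable section

variable {w w' : ℕ → ℤ → ℝ} {p : ℕ → ℝ} {lo hi : ℤ} {N : ℕ}

theorem ker_nn (hw : ∀ k y, 0 ≤ w k y) (hp : ∀ k, 0 < p k) (i n : ℕ) (x y : ℤ) : 0 ≤ ker w p i n x y :=
  fw_nn (fun k y => hw (i + k) y) (fun k => hp (i + k)) (fun y => by unfold U16.dlt; split_ifs <;> norm_num) n y

theorem ker_mono (hw : ∀ k y, 0 ≤ w k y) (hww : ∀ k y, w k y ≤ w' k y) (hp : ∀ k, 0 < p k) (i n : ℕ) (x y : ℤ) :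
    ker w p i n x y ≤ ker w' p i n x y :=
  fw_mono (fun k y => hw (i + k) y) (fun k y => hww (i + k) y) (fun k => hp (i + k))
    (fun y => by unfold U16.dlt; split_ifs <;> norm_num) n y

open Classical in
/-- **First exit of the complement of `B`**: every terminal weight `f`. -/
theorem bf_exit (B : Set (ℕ × ℤ)) (f : ℤ → ℝ) : ∀ (n k : ℕ) (q : ℤ), bf w p f k n q = bf (kw B w) p f k n q +
    ∑ i ∈ range n, ∑ y ∈ Icc q (q + i), (if (k + i, y) ∈ B then ker (kw B w) p k i q y * bf w p f (k + i) (n - i) y else 0)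
  | 0, k, q => by simp [bf_zero]
  | n + 1, k, q => by
    have i1 := bf_exit B f n (k + 1) q
    have i2 := bf_exit B f n (k + 1) (q + 1)
    rw [sum_range_succ']
    have e0 : ∑ y ∈ Icc q (q + ((0 : ℕ) : ℤ)), (if (k + 0, y) ∈ B then ker (kw B w) p k 0 q y * bf w p f (k + 0) (n + 1 - 0) y else 0) =
        if (k, q) ∈ B then bf w p f k (n + 1) q else 0 := by
      have : Icc q (q + ((0 : ℕ) : ℤ)) = {q} := by simp
      rw [this, sum_singleton, ker_zero, if_pos rfl, one_mul]
      rfl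
    rw [e0]
    by_cases hB : (k, q) ∈ B
    · have hk0 : kw B w k q = 0 := by unfold kw; rw [if_pos hB]
      have e1 : bf (kw B w) p f k (n + 1) q = 0 := by rw [bf_succ, hk0, zero_mul]
      have e2 : ∀ i ∈ range n, ∑ y ∈ Icc q (q + ((i + 1 : ℕ) : ℤ)),
          (if (k + (i + 1), y) ∈ B then ker (kw B w) p k (i + 1) q y * bf w p f (k + (i + 1)) (n + 1 - (i + 1)) y else 0) = 0 := by
        intro i _
        refine sum_eq_zero fun y _ => ?_
        rw [ker_back, hk0, zero_mul, zero_mul, ite_self]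
      rw [e1, sum_eq_zero e2, if_pos hB]
      ring
    · have hk1 : kw B w k q = w k q := by unfold kw; rw [if_neg hB]
      rw [if_neg hB, add_zero, bf_succ, bf_succ, hk1, i1, i2]
      have e2 : ∑ i ∈ range n, ∑ y ∈ Icc q (q + ((i + 1 : ℕ) : ℤ)),
          (if (k + (i + 1), y) ∈ B then ker (kw B w) p k (i + 1) q y * bf w p f (k + (i + 1)) (n + 1 - (i + 1)) y else 0) =
          w k q * (∑ i ∈ range n, ∑ y ∈ Icc q (q + (i : ℤ)),
              (if (k + 1 + i, y) ∈ B then ker (kw B w) p (k + 1) i q y * bf w p f (k + 1 + i) (n - i) y else 0) +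
            p k * ∑ i ∈ range n, ∑ y ∈ Icc (q + 1) (q + 1 + (i : ℤ)),
              (if (k + 1 + i, y) ∈ B then ker (kw B w) p (k + 1) i (q + 1) y * bf w p f (k + 1 + i) (n - i) y else 0)) := by
        rw [mul_sum, ← sum_add_distrib, mul_sum]
        refine sum_congr rfl fun i _ => ?_
        have h1 : ∑ y ∈ Icc q (q + (i : ℤ)),
            (if (k + 1 + i, y) ∈ B then ker (kw B w) p (k + 1) i q y * bf w p f (k + 1 + i) (n - i) y else 0) =
            ∑ y ∈ Icc q (q + ((i + 1 : ℕ) : ℤ)),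
            (if (k + 1 + i, y) ∈ B then ker (kw B w) p (k + 1) i q y * bf w p f (k + 1 + i) (n - i) y else 0) := by
          refine sum_subset (Icc_subset_Icc le_rfl (by push_cast; omega)) fun y hy hy' => ?_
          rw [mem_Icc] at hy hy'
          rw [ker_eq_zero (k + 1) i q y (fun h => hy' h), zero_mul, ite_self]
        have h2 : ∑ y ∈ Icc (q + 1) (q + 1 + (i : ℤ)),
            (if (k + 1 + i, y) ∈ B then ker (kw B w) p (k + 1) i (q + 1) y * bf w p f (k + 1 + i) (n - i) y else 0) =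
            ∑ y ∈ Icc q (q + ((i + 1 : ℕ) : ℤ)),
            (if (k + 1 + i, y) ∈ B then ker (kw B w) p (k + 1) i (q + 1) y * bf w p f (k + 1 + i) (n - i) y else 0) := by
          refine sum_subset (Icc_subset_Icc (by omega) (by push_cast; omega)) fun y hy hy' => ?_
          rw [mem_Icc] at hy hy'
          rw [ker_eq_zero (k + 1) i (q + 1) y (fun h => hy' h), zero_mul, ite_self]
        rw [h1, h2, mul_sum, ← sum_add_distrib, mul_sum]
        refine sum_congr rfl fun y _ => ?_
        have e3 : k + (i + 1) = k + 1 + i := by ring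
        have e4 : n + 1 - (i + 1) = n - i := by omega
        rw [e3, e4, ker_back, hk1]
        split_ifs <;> ring
      rw [e2]
      ring

open Classical in
theorem bw_exit (B : Set (ℕ × ℤ)) {k e : ℕ} (hk : k ≤ e) (he : e ≤ N) (q : ℤ) : bw w p k (N - k) q =
    bf (kw B w) p (bw w p e (N - e)) k (e - k) q +
    ∑ i ∈ range (e - k), ∑ y ∈ Icc q (q + i), (if (k + i, y) ∈ B then ker (kw B w) p k i q y * bw w p (k + i) (N - (k + i)) y else 0) := by
  have e1 : ∀ (i : ℕ), i ≤ e - k → ∀ y, bf w p (bw w p e (N - e)) (k + i) (e - k - i) y = bw w p (k + i) (N - (k + i)) y := by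
    intro i hi' y
    have h1 := Sp22.bf_bw (w := w) (p := p) (N - e) (e - k - i) (k + i) y
    have h2 : k + i + (e - k - i) = e := by omega
    have h3 : e - k - i + (N - e) = N - (k + i) := by omega
    rw [h2, h3] at h1
    exact h1
  have h1 := bf_exit (w := w) (p := p) B (bw w p e (N - e)) (e - k) k q
  have h2 := e1 0 (Nat.zero_le _) q
  rw [Nat.add_zero, Nat.sub_zero] at h2
  rw [← h2, h1]
  refine congrArg _ (sum_congr rfl fun i hi' => sum_congr rfl fun y _ => ?_)
  rw [e1 i (mem_range.1 hi').le y]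

/-! ### The windows -/

/-- The boundaries of the windows. -/
structure Bd (α β : ℕ → ℤ) : Prop where
  a0 : ∀ i, α i ≤ α (i + 1)
  a1 : ∀ i, α (i + 1) ≤ α i + 1
  b0 : ∀ i, β i ≤ β (i + 1)
  b1 : ∀ i, β (i + 1) ≤ β i + 1

/-- Outside of the windows. -/
def Out (α β : ℕ → ℤ) : Set (ℕ × ℤ) := {x | x.2 < α x.1 ∨ β x.1 < x.2}

variable {α β : ℕ → ℤ}

/-- The killed kernel arrives in the windows or at the first sites outside. -/
theorem ker_out_zero (hb : Bd α β) (k : ℕ) {q : ℤ} (hq : α k ≤ q ∧ q ≤ β k) : ∀ (n : ℕ) (y : ℤ),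
    ¬ (α (k + n) - 1 ≤ y ∧ y ≤ β (k + n) + 1) → ker (kw (Out α β) w) p k n q y = 0
  | 0, y, h => by
    rw [ker_zero, if_neg]
    rintro rfl
    rw [Nat.add_zero] at h
    exact h ⟨by omega, by omega⟩
  | n + 1, y, h => by
    have a0 := hb.a0 (k + n)
    have a1 := hb.a1 (k + n)
    have b0 := hb.b0 (k + n)
    have b1 := hb.b1 (k + n)
    have e : k + (n + 1) = k + n + 1 := rfl
    rw [e] at h
    have h1 : ∀ z, kw (Out α β) w (k + n) z * ker (kw (Out α β) w) p k n q z ≠ 0 → α (k + n) ≤ z ∧ z ≤ β (k + n) := by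
      intro z hz
      by_contra hc
      refine hz ?_
      have : ((k + n, z) : ℕ × ℤ) ∈ Out α β := by
        by_cases h2 : z < α (k + n)
        · exact Or.inl h2
        · exact Or.inr (by show β (k + n) < z; omega)
      have h3 : kw (Out α β) w (k + n) z = 0 := by unfold kw; rw [if_pos this]
      rw [h3, zero_mul]
    rw [ker_succ]
    have g1 : kw (Out α β) w (k + n) y * ker (kw (Out α β) w) p k n q y = 0 := by
      by_contra hc
      have := h1 y hc
      exact h ⟨by omega, by omega⟩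
    have g2 : kw (Out α β) w (k + n) (y - 1) * ker (kw (Out α β) w) p k n q (y - 1) = 0 := by
      by_contra hc
      have := h1 (y - 1) hc
      exact h ⟨by omega, by omega⟩
    rw [g1, g2]
    ring

open Classical in
/-- **The routes which leave the windows**, from the sites just outside. -/
theorem exit_le (hw : ∀ k y, 0 < w k y) (hp : ∀ k, 0 < p k) (hb : Bd α β) {k e : ℕ} (hk : k ≤ e) (he : e ≤ N) {q : ℤ}
    (hq : α k ≤ q ∧ q ≤ β k) {ε : ℝ} (hε : 0 ≤ ε)
    (h : ∀ i, k < i → i < e → ∀ y, (y = α i - 1 ∨ y = β i + 1) →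
      ker w p k (i - k) q y * bw w p i (N - i) y ≤ ε * bw w p k (N - k) q) :
    bw w p k (N - k) q ≤ bf (kw (Out α β) w) p (bw w p e (N - e)) k (e - k) q + 2 * (e - k : ℕ) * ε * bw w p k (N - k) q := by
  have hb0 : 0 ≤ ε * bw w p k (N - k) q := mul_nonneg hε (bw_pos hw hp _ _ _).le
  have h1 := bw_exit (w := w) (p := p) (Out α β) hk he q
  have h2 : ∑ i ∈ range (e - k), ∑ y ∈ Icc q (q + i),
      (if (k + i, y) ∈ Out α β then ker (kw (Out α β) w) p k i q y * bw w p (k + i) (N - (k + i)) y else 0) ≤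
      ∑ _i ∈ range (e - k), 2 * (ε * bw w p k (N - k) q) := by
    refine sum_le_sum fun i hi' => ?_
    have hie := mem_range.1 hi'
    have h3 : ∑ y ∈ Icc q (q + (i : ℤ)),
        (if (k + i, y) ∈ Out α β then ker (kw (Out α β) w) p k i q y * bw w p (k + i) (N - (k + i)) y else 0) ≤
        ∑ y ∈ ({α (k + i) - 1, β (k + i) + 1} : Finset ℤ), ε * bw w p k (N - k) q := by
      have h4 : ∑ y ∈ Icc q (q + (i : ℤ)),
          (if (k + i, y) ∈ Out α β then ker (kw (Out α β) w) p k i q y * bw w p (k + i) (N - (k + i)) y else 0) =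
          ∑ y ∈ (Icc q (q + (i : ℤ))).filter (fun y => y ∈ ({α (k + i) - 1, β (k + i) + 1} : Finset ℤ)),
          (if (k + i, y) ∈ Out α β then ker (kw (Out α β) w) p k i q y * bw w p (k + i) (N - (k + i)) y else 0) := by
        rw [sum_filter]
        refine sum_congr rfl fun y _ => ?_
        by_cases h5 : y ∈ ({α (k + i) - 1, β (k + i) + 1} : Finset ℤ)
        · rw [if_pos h5]
        · rw [if_neg h5]
          by_cases h6 : (k + i, y) ∈ Out α β
          · rw [if_pos h6, ker_out_zero hb k hq i y ?_, zero_mul]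
            rintro ⟨h7, h8⟩
            rw [mem_insert, mem_singleton] at h5
            rcases h6 with h6 | h6
            · exact h5 (Or.inl (by have : y < α (k + i) := h6; omega))
            · exact h5 (Or.inr (by have : β (k + i) < y := h6; omega))
          · rw [if_neg h6]
      rw [h4]
      refine (sum_le_sum fun y hy => ?_).trans (sum_le_sum_of_subset_of_nonneg (fun y hy => (mem_filter.1 hy).2) fun y _ _ => hb0)
      have hy' := (mem_filter.1 hy).2
      rw [mem_insert, mem_singleton] at hy'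
      split_ifs with h6
      · have hi0 : 0 < i := by
          rcases Nat.eq_zero_or_pos i with h0 | h0
          · exfalso
            subst h0
            have hyq := mem_Icc.1 (mem_filter.1 hy).1
            rw [Nat.add_zero] at h6
            rcases h6 with h6 | h6
            · have : y < α k := h6
              push_cast at hyq
              omega
            · have : β k < y := h6
              push_cast at hyq
              omega
          · exact h0
        have h9 := h (k + i) (by omega) (by omega) y hy'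
        rw [Nat.add_sub_cancel_left] at h9
        refine le_trans (mul_le_mul_of_nonneg_right ?_ (bw_pos hw hp _ _ _).le) h9
        exact ker_mono (kw_nn (fun k y => (hw k y).le) _) (kw_le (fun k y => (hw k y).le) _) hp k i q y
      · exact hb0
    refine h3.trans ?_
    rw [sum_const, nsmul_eq_mul]
    refine mul_le_mul_of_nonneg_right ?_ hb0
    exact_mod_cast card_le_two
  rw [sum_const, card_range, nsmul_eq_mul] at h2
  calc bw w p k (N - k) q = _ := h1
    _ ≤ bf (kw (Out α β) w) p (bw w p e (N - e)) k (e - k) q + (e - k : ℕ) * (2 * (ε * bw w p k (N - k) q)) :=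
        add_le_add le_rfl h2
    _ = _ := by ring

/-- The routes in the windows pass the two windows. -/
theorem stay_in (hw : ∀ k y, 0 < w k y) (hp : ∀ k, 0 < p k) {k a n₁ : ℕ} (hk : k + 1 ≤ a) (q : ℤ) (f : ℤ → ℝ)
    (hf : ∀ y, 0 ≤ f y) :
    bf (kw (Out α β) w) p f (k + 1) (a + n₁ + 1 - (k + 1)) q ≤
      ∑ y ∈ Icc (α a) (β a), ker w p (k + 1) (a - (k + 1)) q y *
        ∑ v ∈ Icc (α (a + n₁)) (β (a + n₁)), ker w p a n₁ y v * bf w p f (a + n₁) 1 v := by
  have hw0 : ∀ k y, 0 ≤ w k y := fun k y => (hw k y).le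
  have hk0 := kw_nn hw0 (Out α β)
  have hkl := kw_le hw0 (Out α β)
  -- composition of the backward masses
  have comp : ∀ (f : ℤ → ℝ) (m n i : ℕ) (x : ℤ), bf (kw (Out α β) w) p f i (n + m) x =
      bf (kw (Out α β) w) p (fun y => bf (kw (Out α β) w) p f (i + n) m y) i n x := by
    intro f m n
    induction n with
    | zero => intro i x; rw [bf_zero, Nat.zero_add, Nat.add_zero]
    | succ n ih =>
      intro i x
      have e : n + 1 + m = n + m + 1 := by ring
      have e' : i + (n + 1) = i + 1 + n := by ring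
      rw [e, bf_succ, bf_succ, ih (i + 1) x, ih (i + 1) (x + 1), e']
  -- zero outside of the window of the row
  have zero : ∀ (f : ℤ → ℝ) (i m : ℕ) (y : ℤ), ¬ (α i ≤ y ∧ y ≤ β i) → bf (kw (Out α β) w) p f i (m + 1) y = 0 := by
    intro f i m y hy
    have : ((i, y) : ℕ × ℤ) ∈ Out α β := by
      by_cases h2 : y < α i
      · exact Or.inl h2
      · exact Or.inr (by show β i < y; omega)
    rw [bf_succ]
    have h3 : kw (Out α β) w i y = 0 := by unfold kw; rw [if_pos this]
    rw [h3, zero_mul]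
  have zle : ∀ (g g' : ℤ → ℝ) (i m : ℕ) (x A B : ℤ), (∀ y, ¬ (A ≤ y ∧ y ≤ B) → g y = 0) → (∀ y, 0 ≤ g y) →
      (∀ y, g y ≤ g' y) → bf (kw (Out α β) w) p g i m x ≤ ∑ y ∈ Icc A B, ker w p i m x y * g' y := by
    intro g g' i m x A B hz hg hgg
    rw [bf_ker]
    have h1 : ∑ y ∈ Icc x (x + (m : ℤ)), ker (kw (Out α β) w) p i m x y * g y ≤
        ∑ y ∈ (Icc x (x + (m : ℤ))).filter (fun y => y ∈ Icc A B), ker w p i m x y * g' y := by
      rw [sum_filter]
      refine sum_le_sum fun y _ => ?_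
      by_cases hy : y ∈ Icc A B
      · rw [if_pos hy]
        exact mul_le_mul (ker_mono hk0 hkl hp i m x y) (hgg y) (hg y) (ker_nn hw0 hp i m x y)
      · rw [if_neg hy, hz y (fun h => hy (mem_Icc.2 h)), mul_zero]
    refine h1.trans (sum_le_sum_of_subset_of_nonneg (fun y hy => (mem_filter.1 hy).2) fun y _ _ => ?_)
    exact mul_nonneg (ker_nn hw0 hp i m x y) ((hg y).trans (hgg y))
  have e1 : a + n₁ + 1 - (k + 1) = (a - (k + 1)) + (n₁ + 1) := by omega
  have e2 : k + 1 + (a - (k + 1)) = a := by omega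
  rw [e1, comp, e2]
  refine zle _ _ (k + 1) (a - (k + 1)) q _ _ (fun y hy => zero f a n₁ y hy) (fun y => bf_nonneg hk0 hp hf _ _ _) fun y => ?_
  rw [comp f 1 n₁ a y]
  refine zle _ _ a n₁ y _ _ (fun v hv => zero f (a + n₁) 0 v hv) (fun v => bf_nonneg hk0 hp hf _ _ _) fun v => ?_
  rw [bf_succ, bf_succ]
  refine mul_le_mul (hkl _ _) (le_of_eq ?_) ?_ (hw0 _ _)
  · simp only [bf_zero]
  · simp only [bf_zero]
    have := hf v
    have := hf (v + 1)
    have := hp (a + n₁)
    positivity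

/-- **`Stay`** from the sites just outside of the windows. -/
theorem stay_of (hw : ∀ k y, 0 < w k y) (hp : ∀ k, 0 < p k) (hb : Bd α β) {k a n₁ : ℕ} (hk : k < a) (hN : a + n₁ < N) {q : ℤ}
    (hq : α (k + 1) ≤ q ∧ q ≤ β (k + 1)) {ε : ℝ} (hε : 0 ≤ ε)
    (h : ∀ i, k + 1 < i → i ≤ a + n₁ → ∀ y, (y = α i - 1 ∨ y = β i + 1) →
      ker w p (k + 1) (i - (k + 1)) q y * bw w p i (N - i) y ≤ ε * bw w p (k + 1) (N - (k + 1)) q)
    (hs : 2 * (a + n₁ - k : ℕ) * ε ≤ 1 / 2) :
    Stay w p N a n₁ (Icc (α a) (β a)) (Icc (α (a + n₁)) (β (a + n₁))) 2 k q := by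
  have hF := (bw_pos hw hp (N - (k + 1)) (k + 1) q).le
  have h1 := exit_le hw hp hb (k := k + 1) (e := a + n₁ + 1) (N := N) (by omega) (by omega) hq hε
    (fun i h2 h3 y hy => h i h2 (by omega) y hy)
  have h2 := stay_in (α := α) (β := β) hw hp (k := k) (a := a) (n₁ := n₁) hk q (bw w p (a + n₁ + 1) (N - (a + n₁ + 1)))
    (fun y => (bw_pos hw hp _ _ _).le)
  have e1 : ∀ v, bf w p (bw w p (a + n₁ + 1) (N - (a + n₁ + 1))) (a + n₁) 1 v = bw w p (a + n₁) (N - (a + n₁)) v := by
    intro v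
    have h3 := Sp22.bf_bw (w := w) (p := p) (N - (a + n₁ + 1)) 1 (a + n₁) v
    have h4 : 1 + (N - (a + n₁ + 1)) = N - (a + n₁) := by omega
    rw [h4] at h3
    exact h3
  simp only [e1] at h2
  have e3 : a + n₁ + 1 - (k + 1) = a + n₁ - k := by omega
  rw [e3] at h1 h2
  have h5 : 2 * (a + n₁ - k : ℕ) * ε * bw w p (k + 1) (N - (k + 1)) q ≤ 1 / 2 * bw w p (k + 1) (N - (k + 1)) q :=
    mul_le_mul_of_nonneg_right hs hF
  unfold Stay
  linarith

/-! ### Routes into the mouth -/

/-- The boundary sites of the windows. -/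
def Bnd (α β : ℕ → ℤ) : Set (ℕ × ℤ) := {x | x.2 = α x.1 ∨ x.2 = β x.1}

/-- Nobody crosses the boundary sites from outside when they are killed. -/
theorem ker_bnd_zero (hb : Bd α β) (k : ℕ) {y : ℤ} (hy : y < α k ∨ β k < y) : ∀ (n : ℕ) (x : ℤ),
    α (k + n) < x → x < β (k + n) → ker (kw (Bnd α β) w) p k n y x = 0 := by
  -- stronger: alive only outside or on the boundary
  have key : ∀ (n : ℕ) (x : ℤ), (y < α k → α (k + n) < x → ker (kw (Bnd α β) w) p k n y x = 0) ∧
      (β k < y → x < β (k + n) → ker (kw (Bnd α β) w) p k n y x = 0) := by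
    intro n
    induction n with
    | zero =>
      intro x
      refine ⟨fun h1 h2 => ?_, fun h1 h2 => ?_⟩ <;>
      · rw [ker_zero, if_neg]
        rintro rfl
        rw [Nat.add_zero] at h2
        omega
    | succ n ih =>
      intro x
      have a0 := hb.a0 (k + n)
      have b1 := hb.b1 (k + n)
      have kz : ∀ z, (z = α (k + n) ∨ z = β (k + n)) → kw (Bnd α β) w (k + n) z = 0 := fun z hz => by
        unfold kw
        rw [if_pos (show ((k + n, z) : ℕ × ℤ) ∈ Bnd α β from hz)]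
      refine ⟨fun h1 h2 => ?_, fun h1 h2 => ?_⟩
      · have h2' : α (k + n + 1) < x := h2
        rw [ker_succ, (ih x).1 h1 (by omega)]
        rcases eq_or_lt_of_le (show α (k + n) ≤ x - 1 by omega) with h3 | h3
        · rw [kz (x - 1) (Or.inl h3.symm)]
          ring
        · rw [(ih (x - 1)).1 h1 h3]
          ring
      · have h2' : x < β (k + n + 1) := h2
        rw [ker_succ, (ih (x - 1)).2 h1 (by omega)]
        rcases eq_or_lt_of_le (show x ≤ β (k + n) by omega) with h3 | h3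
        · rw [kz x (Or.inr h3)]
          ring
        · rw [(ih x).2 h1 h3]
          ring
  intro n x h1 h2
  rcases hy with hy | hy
  · exact (key n x).1 hy h1
  · exact (key n x).2 hy h2

open Classical in
/-- **The routes from outside into the mouth** against the OLD total: from the boundary sites to all sites outside. `g` = any terminal
weight at the row `a + n`, which is zero off the open window. -/
theorem into_of (hw : ∀ k y, 0 < w k y) (hp : ∀ k, 0 < p k) (hb : Bd α β) {a n : ℕ} (hN : a + n ≤ N) {g : ℤ → ℝ}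
    (hg : ∀ v, ¬ (α (a + n) < v ∧ v < β (a + n)) → g v = 0) {st : ℝ}
    (h : ∀ i, i < n → ∀ x, (x = α (a + i) ∨ x = β (a + i)) →
      bf w p g (a + i) (n - i) x ≤ st * bw w p (a + i) (N - (a + i)) x)
    {y : ℤ} (hy : y < α a ∨ β a < y) (hst : 0 ≤ st) :
    bf w p g a n y ≤ st * bw w p a (N - a) y := by
  have hw0 : ∀ k y, 0 ≤ w k y := fun k y => (hw k y).le
  have hk0 := kw_nn hw0 (Bnd α β)
  have h1 := bf_exit (w := w) (p := p) (Bnd α β) g n a y
  have h2 : bf (kw (Bnd α β) w) p g a n y = 0 := by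
    rw [bf_ker]
    refine sum_eq_zero fun v _ => ?_
    by_cases hv : α (a + n) < v ∧ v < β (a + n)
    · rw [ker_bnd_zero hb a hy n v hv.1 hv.2, zero_mul]
    · rw [hg v hv, mul_zero]
  have h3 := bw_exit (w := w) (p := p) (Bnd α β) (k := a) (e := a + n) (N := N) (Nat.le_add_right _ _) hN y
  rw [Nat.add_sub_cancel_left] at h3
  have h4 : 0 ≤ bf (kw (Bnd α β) w) p (bw w p (a + n) (N - (a + n))) a n y := bf_nonneg hk0 hp (fun y => (bw_pos hw hp _ _ _).le) _ _ _
  rw [h1, h2, zero_add, h3, mul_add, mul_sum]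
  refine le_trans ?_ (le_add_of_nonneg_left (mul_nonneg hst h4))
  refine sum_le_sum fun i hi' => ?_
  rw [mul_sum]
  refine sum_le_sum fun x _ => ?_
  split_ifs with h5
  · have h6 := h i (mem_range.1 hi') x h5
    have h7 := mul_le_mul_of_nonneg_left h6 (ker_nn hk0 hp a i y x)
    calc _ ≤ _ := h7
      _ = _ := by ring
  · rw [mul_zero]

/-! ### Assembly -/

variable {a n₁ n₂ : ℕ} {Wm Ex : Finset ℤ} {e Y₁ st lam : ℝ}

/-- **`Luck` FROM LOCAL DATA.** `leak` = the leak lemma at the first row of the tube only (Box69); `into` = the boundary sites of the windows of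
the pinch; `gain` = one point of the mouth, one point of the exit cell (`gain_of`). -/
theorem luck_of (hw : ∀ k y, 0 < w k y) (hw' : ∀ k y, 0 < w' k y) (hp : ∀ k, 0 < p k) (hb : Bd α β) (hN : a + n₁ + n₂ ≤ N)
    (eqb : ∀ i, i < a + n₁ → w i = w' i) (eqt : ∀ i, a + n₁ + n₂ ≤ i → w i = w' i) (h0 : lo ≤ α a) (h1 : β a ≤ hi - n₁)
    (hy : α a ≤ β a) (hz : α (a + n₁) ≤ β (a + n₁)) (hyz : β a ≤ α (a + n₁)) (hzy : β (a + n₁) ≤ α a + n₁)
    (hWm : ∀ v ∈ Wm, α (a + n₁) < v ∧ v < β (a + n₁)) (he : 0 ≤ e) (hY₁ : 0 ≤ Y₁) (hst : 0 ≤ st) (hlam : 0 < lam)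
    (cr : CR (kf w p a n₁) (α a) (β a) (α (a + n₁)) (β (a + n₁)) ≤ 1 + e)
    (leak : ∀ v, bw w' p (a + n₁) (N - (a + n₁)) v ≤
      (if v ∈ Wm then tub w w' p N (a + n₁) n₂ Ex v else 0) + Y₁ * bw w p (a + n₁) (N - (a + n₁)) v)
    (into : ∀ i, i < n₁ → ∀ x, (x = α (a + i) ∨ x = β (a + i)) →
      ∑ v ∈ Wm, ker w p (a + i) (n₁ - i) x v * tub w w' p N (a + n₁) n₂ Ex v ≤ st * bw w p (a + i) (N - (a + i)) x)
    (gain : ∀ y ∈ Icc (α a) (β a), lam * ∑ v ∈ Icc (α (a + n₁)) (β (a + n₁)), ker w p a n₁ y v * bw w p (a + n₁) (N - (a + n₁)) v ≤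
      ∑ v ∈ Wm, ker w p a n₁ y v * tub w w' p N (a + n₁) n₂ Ex v) :
    Luck w w' p N a n₁ n₂ lo hi (Icc (α a) (β a)) (Icc (α (a + n₁)) (β (a + n₁))) Wm Ex (α a) (β a) (α (a + n₁)) (β (a + n₁))
      e (Y₁ + st) lam := by
  classical
  -- the terminal weight of the mouth
  set g : ℤ → ℝ := fun v => if v ∈ Wm then tub w w' p N (a + n₁) n₂ Ex v else 0 with hg
  have bfg : ∀ (i n : ℕ) (x : ℤ), bf w p g i n x = ∑ v ∈ Wm, ker w p i n x v * tub w w' p N (a + n₁) n₂ Ex v := by
    intro i n x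
    rw [bf_ker, hg]
    have h3 : ∀ v ∈ Icc x (x + (n : ℤ)), ker w p i n x v * (if v ∈ Wm then tub w w' p N (a + n₁) n₂ Ex v else 0) =
        if v ∈ Wm then ker w p i n x v * tub w w' p N (a + n₁) n₂ Ex v else 0 := fun v _ => by split_ifs <;> ring
    rw [sum_congr rfl h3, ← sum_filter]
    have h4 : ∑ v ∈ Wm, ker w p i n x v * tub w w' p N (a + n₁) n₂ Ex v =
        ∑ v ∈ Wm.filter (fun v => v ∈ Icc x (x + (n : ℤ))), ker w p i n x v * tub w w' p N (a + n₁) n₂ Ex v := by
      rw [sum_filter]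
      refine sum_congr rfl fun v _ => ?_
      by_cases hv : v ∈ Icc x (x + (n : ℤ))
      · rw [if_pos hv]
      · rw [if_neg hv, ker_eq_zero i n x v (fun h2 => hv (mem_Icc.2 h2)), zero_mul]
    rw [h4]
    refine sum_congr ?_ fun _ _ => rfl
    ext v
    rw [mem_filter, mem_filter, and_comm]
  have hM0 : ∀ i y, 0 ≤ bw w p i (N - i) y := fun i y => (bw_pos hw hp _ _ _).le
  refine ⟨hw, hw', hp, hN, eqb, eqt, fun y hy' => ?_, fun y hy' => mem_Icc.1 hy', fun v hv => mem_Icc.1 hv, fun v hv => ?_, hy, hz, hyz,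
    hzy, he, by positivity, hlam, cr, fun y _ => ?_, gain⟩
  · rw [mem_Icc] at hy' ⊢
    have : (0 : ℤ) ≤ n₁ := by positivity
    omega
  · have := hWm v hv
    exact mem_Icc.2 ⟨this.1.le, this.2.le⟩
  · -- rows before the tube
    have e1 : ∀ u, bw u p a (N - a) y = ∑ v ∈ Icc y (y + (n₁ : ℤ)), ker u p a n₁ y v * bw u p (a + n₁) (N - (a + n₁)) v := by
      intro u
      have h3 : N - a = n₁ + (N - (a + n₁)) := by omega
      rw [h3, bw_ker]
    have e2 : ∀ v, ker w' p a n₁ y v = ker w p a n₁ y v := fun v =>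
      ker_congr a n₁ y v fun i _ hi' => ⟨(eqb i (by omega)).symm, rfl⟩
    have h5 : bw w' p a (N - a) y ≤ bf w p g a n₁ y + Y₁ * bw w p a (N - a) y := by
      rw [e1 w', e1 w, bf_ker, mul_sum, ← sum_add_distrib]
      refine sum_le_sum fun v _ => ?_
      rw [e2]
      calc ker w p a n₁ y v * bw w' p (a + n₁) (N - (a + n₁)) v
          ≤ ker w p a n₁ y v * ((if v ∈ Wm then tub w w' p N (a + n₁) n₂ Ex v else 0) + Y₁ * bw w p (a + n₁) (N - (a + n₁)) v) :=
            mul_le_mul_of_nonneg_left (leak v) (ker_nonneg hw hp _ _ _ _)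
        _ = _ := by rw [hg]; ring
    by_cases hyw : y ∈ Icc (α a) (β a)
    · rw [if_pos hyw]
      rw [bfg] at h5
      have := mul_nonneg hst (hM0 a y)
      nlinarith
    · rw [if_neg hyw, zero_add, add_mul]
      rw [mem_Icc] at hyw
      have h6 := into_of hw hp hb (a := a) (n := n₁) (N := N) (by omega) (g := g) (fun v hv => by
        rw [hg]
        exact if_neg fun h7 => hv (hWm v h7)) (st := st) (fun i hi' x hx => by rw [bfg]; exact into i hi' x hx) (y := y)
        (by
          by_cases h7 : y < α a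
          · exact Or.inl h7
          · exact Or.inr (by omega)) hst
      linarith

end

end Pool.Agent.W_7d29a1_C1.Cmp71
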