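import Pool.Agent.W_7d29a1_C1.KerP16
import Pool.Agent.W_7d29a1_C1.LuckM71

/-!
MP_7d29a1_pr, [C1] attractor route: THE BRIDGE OF KILLED KERNELS, WITH THE SWITCH ROW. (helper32)

`D` = set of sites of the model, `R` = set of points, `(k, y) ∈ D ↔ (k, y) ∈ R` on the rows used; `kw Dᶜ (wt η)` = weights killed off
`D` (SpOne22). Own weight of the first and of the last site included.
* `kil_in` : `p = exp (s + h)` on the rows `[i, i + n)`; the last site in `D` too;
* `kil_end` : the last site free (exit kernels), `Re R e` = `R` and the row `e`;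
* `kil_up`, `kil_lo` : `m` rows with the force `h`, then `n'` rows without, the kernel killed off `D` against `WR` of `Re R`, factor
  `exp (± |h| K)`, `K` = lateral distance of the start and the sites of `D` in the switch row `i + m`;
* `wr_le_ker` : the full kernel from below by `WR μ s R`, `R` within `K` in the switch row;
* `ker_kil_le` : killed at most full.
-/

set_option autoImplicit false

namespace Pool.Agent.W_7d29a1_C1.Br32

open MeasureTheory Finset
open Pool.Agent.W_7d29a1_F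
open Pool.Agent.W_7d29a1_C1.K91 (wt wt_pos)
open Pool.Agent.W_7d29a1_C1.U16 (ker ker_zero ker_succ ker_nonneg ker_eq_zero ker_congr)
open Pool.Agent.W_7d29a1_C1.Sp22 (kw kw_nn kw_le bf bf_ker)
open Pool.Agent.W_7d29a1_C1.Cmp71 (ker_nn ker_mono)

noncomputable section

variable {μ : Measure ℝ} {s h : ℝ} {D : Set (ℕ × ℤ)} {R : Set Pt} {p : ℕ → ℝ}

/-- `R` and the whole row `e`. -/
def Re (R : Set Pt) (e : ℕ) : Set Pt := {q | q ∈ R ∨ q.1 = (e : ℤ)}

theorem WR_nil (R : Set Pt) (η : Env) (a : Pt) (y : ℤ) : WR μ s R η a 0 y = if y = 0 then 1 else 0 := by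
  unfold WR
  show Real.exp (s * y - ((0 : ℕ) : ℝ) * lam μ s) * (if y = 0 then 1 else 0) = _
  split_ifs with h1
  · subst h1
    simp
  · simp

theorem WR_lst (S : Set Pt) (η : Env) (q : Pt) (n : ℕ) (y : ℤ) : WR μ s S η q (n + 1) y =
    S.indicator (fun p => Real.exp (-lam μ s) * Real.exp (η p)) (q.1 + (n + 1), q.2 + y) *
      (WR μ s S η q n y + Real.exp s * WR μ s S η q n (y - 1)) := by
  unfold WR
  have e1 : Zr S η q (n + 1) y = S.indicator (fun p => Real.exp (η p)) (q.1 + (n + 1), q.2 + y) *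
      (Zr S η q n y + Zr S η q n (y - 1)) := rfl
  have e2 : Real.exp (s * y - ((n + 1 : ℕ) : ℝ) * lam μ s) = Real.exp (-lam μ s) * Real.exp (s * y - n * lam μ s) := by
    rw [← Real.exp_add]
    congr 1
    push_cast
    ring
  have e3 : Real.exp s * Real.exp (s * ((y - 1 : ℤ) : ℝ) - n * lam μ s) = Real.exp (s * y - n * lam μ s) := by
    rw [← Real.exp_add]
    congr 1
    push_cast
    ring
  rw [e1, e2, ← mul_assoc (Real.exp s), e3]
  by_cases h : ((q.1 + (n + 1), q.2 + y) : Pt) ∈ S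
  · rw [Set.indicator_of_mem h, Set.indicator_of_mem h]
    ring
  · rw [Set.indicator_of_notMem h, Set.indicator_of_notMem h]
    ring

/-- One row of the killed weights. -/
theorem kw_row (η : Env) {k : ℕ} (hk : 1 ≤ k) {y : ℤ} (hR : (k, y) ∈ D ↔ (((k : ℤ), y) : Pt) ∈ R) :
    kw Dᶜ (wt η) k y = Real.exp (lam μ s) * R.indicator (fun p => Real.exp (-lam μ s) * Real.exp (η p)) ((k : ℤ), y) := by
  have e1 : Real.exp (lam μ s) * Real.exp (-lam μ s) = 1 := by
    rw [← Real.exp_add]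
    simp
  unfold kw
  by_cases h1 : (k, y) ∈ D
  · rw [if_neg (fun h2 => h2 h1), Set.indicator_of_mem (hR.1 h1), ← mul_assoc, e1, one_mul]
    unfold wt
    rw [if_neg (by omega)]
  · rw [if_pos (show (k, y) ∈ Dᶜ from h1), Set.indicator_of_notMem (fun h2 => h1 (hR.2 h2)), mul_zero]

/-- **Constant force, last site inside.** -/
theorem kil_in (η : Env) (i : ℕ) (x : ℤ) : ∀ (n : ℕ), (∀ k, i < k → k ≤ i + n → ∀ y, ((k, y) ∈ D ↔ (((k : ℤ), y) : Pt) ∈ R)) →
    (∀ k, i ≤ k → k < i + n → p k = Real.exp (s + h)) → ∀ y : ℤ,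
    ker (kw Dᶜ (wt η)) p i n x y * kw Dᶜ (wt η) (i + n) y =
      kw Dᶜ (wt η) i x * (Real.exp (n * lam μ s + h * ((y - x : ℤ) : ℝ)) * WR μ s R η ((i : ℤ), x) n (y - x))
  | 0, _, _, y => by
    rw [ker_zero, WR_nil]
    by_cases h1 : y = x
    · subst h1
      simp
    · rw [if_neg h1, if_neg (by omega)]
      ring
  | n + 1, hR, hp, y => by
    have i1 := kil_in η i x n (fun k h1 h2 => hR k h1 (by omega)) (fun k hk hk' => hp k hk (by omega)) y
    have i2 := kil_in η i x n (fun k h1 h2 => hR k h1 (by omega)) (fun k hk hk' => hp k hk (by omega)) (y - 1)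
    have hpn := hp (i + n) (by omega) (by omega)
    have hW := WR_lst (μ := μ) (s := s) R η ((i : ℤ), x) n (y - x)
    have e0 : kw Dᶜ (wt η) (i + (n + 1)) y = Real.exp (lam μ s) * R.indicator (fun p => Real.exp (-lam μ s) * Real.exp (η p))
        ((((i : ℤ), x) : Pt).1 + (n + 1), (((i : ℤ), x) : Pt).2 + (y - x)) := by
      rw [kw_row (μ := μ) (s := s) (R := R) η (by omega) (hR (i + (n + 1)) (by omega) le_rfl y)]
      congr 3
      show y = x + (y - x)
      ring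
    have e1 : Real.exp (((n + 1 : ℕ) : ℝ) * lam μ s + h * ((y - x : ℤ) : ℝ)) = Real.exp (n * lam μ s + h * ((y - x : ℤ) : ℝ)) * Real.exp (lam μ s) := by
      rw [← Real.exp_add]
      congr 1
      push_cast
      ring
    have e2 : y - 1 - x = y - x - 1 := by ring
    have e3 : Real.exp (s + h) * Real.exp (n * lam μ s + h * ((y - 1 - x : ℤ) : ℝ)) = Real.exp (n * lam μ s + h * ((y - x : ℤ) : ℝ)) * Real.exp s := by
      rw [← Real.exp_add, ← Real.exp_add]
      congr 1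
      push_cast
      ring
    rw [ker_succ, hpn, hW, e1, e0]
    obtain ⟨I, hI⟩ : ∃ I : ℝ, I = R.indicator (fun p => Real.exp (-lam μ s) * Real.exp (η p))
        ((((i : ℤ), x) : Pt).1 + (n + 1), (((i : ℤ), x) : Pt).2 + (y - x)) := ⟨_, rfl⟩
    rw [← hI]
    calc (kw Dᶜ (wt η) (i + n) y * ker (kw Dᶜ (wt η)) p i n x y +
          Real.exp (s + h) * (kw Dᶜ (wt η) (i + n) (y - 1) * ker (kw Dᶜ (wt η)) p i n x (y - 1))) * (Real.exp (lam μ s) * I)
        = (Real.exp (lam μ s) * I) * (ker (kw Dᶜ (wt η)) p i n x y * kw Dᶜ (wt η) (i + n) y +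
            Real.exp (s + h) * (ker (kw Dᶜ (wt η)) p i n x (y - 1) * kw Dᶜ (wt η) (i + n) (y - 1))) := by ring
      _ = (Real.exp (lam μ s) * I) * (kw Dᶜ (wt η) i x * (Real.exp (n * lam μ s + h * ((y - x : ℤ) : ℝ)) * WR μ s R η ((i : ℤ), x) n (y - x)) +
            kw Dᶜ (wt η) i x * ((Real.exp (s + h) * Real.exp (n * lam μ s + h * ((y - 1 - x : ℤ) : ℝ))) *
              WR μ s R η ((i : ℤ), x) n (y - x - 1))) := by
          rw [i1, i2, e2]
          ring
      _ = _ := by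
          rw [e3]
          ring

theorem kw_of {η : Env} {k : ℕ} {y : ℤ} (h : (k, y) ∈ D) : kw Dᶜ (wt η) k y = wt η k y := by
  unfold kw
  exact if_neg fun h2 => h2 h

theorem kw_off {η : Env} {k : ℕ} {y : ℤ} (h : (k, y) ∉ D) : kw Dᶜ (wt η) k y = 0 := by
  unfold kw
  exact if_pos h

theorem kwn (η : Env) (k : ℕ) (y : ℤ) : 0 ≤ kw Dᶜ (wt η) k y := kw_nn (fun k y => (wt_pos η k y).le) _ _ _

/-- `D` and the whole row `e`. -/
def De (D : Set (ℕ × ℤ)) (e : ℕ) : Set (ℕ × ℤ) := {c | c ∈ D ∨ c.1 = e}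

theorem De_Re {e k : ℕ} {y : ℤ} (h : k ≠ e → ((k, y) ∈ D ↔ (((k : ℤ), y) : Pt) ∈ R)) : (k, y) ∈ De D e ↔ (((k : ℤ), y) : Pt) ∈ Re R e := by
  by_cases hk : k = e
  · exact ⟨fun _ => Or.inr (by show (k : ℤ) = e; exact_mod_cast hk), fun _ => Or.inr hk⟩
  · constructor
    · rintro (h1 | h1)
      · exact Or.inl ((h hk).1 h1)
      · exact absurd h1 hk
    · rintro (h1 | h1)
      · exact Or.inl ((h hk).2 h1)
      · exact absurd (by exact_mod_cast (show ((k : ℤ)) = (e : ℤ) from h1)) hk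

/-- The rows before `e` do not change. -/
theorem ker_De (η : Env) (i n : ℕ) (x y : ℤ) : ker (kw (De D (i + n))ᶜ (wt η)) p i n x y = ker (kw Dᶜ (wt η)) p i n x y := by
  refine ker_congr i n x y fun k h1 h2 => ⟨?_, rfl⟩
  funext z
  by_cases h3 : (k, z) ∈ D
  · rw [kw_of h3, kw_of (Or.inl h3)]
  · rw [kw_off h3, kw_off]
    rintro (h4 | h4)
    · exact h3 h4
    · exact absurd (show k = i + n from h4) (by omega)

/-- **Constant force, last site free.** -/
theorem kil_end (η : Env) (i n : ℕ) (x y : ℤ) (hx : (i, x) ∈ D) (hR : ∀ k, i < k → k < i + n → ∀ y, ((k, y) ∈ D ↔ (((k : ℤ), y) : Pt) ∈ R))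
    (hp : ∀ k, i ≤ k → k < i + n → p k = Real.exp (s + h)) :
    ker (kw Dᶜ (wt η)) p i n x y * wt η (i + n) y =
      wt η i x * (Real.exp (n * lam μ s + h * ((y - x : ℤ) : ℝ)) * WR μ s (Re R (i + n)) η ((i : ℤ), x) n (y - x)) := by
  have h1 := kil_in (μ := μ) (s := s) (h := h) (D := De D (i + n)) (R := Re R (i + n)) (p := p) η i x n
    (fun k h1 h2 z => De_Re fun h3 => hR k h1 (by omega) z) hp y
  rw [ker_De, kw_of (show ((i + n, y) : ℕ × ℤ) ∈ De D (i + n) from Or.inr rfl), kw_of (show ((i, x) : ℕ × ℤ) ∈ De D (i + n) from Or.inl hx)] at h1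
  exact h1

/-! ### The switch row -/

theorem A_step (η : Env) (i n : ℕ) (x y : ℤ) : ker (kw Dᶜ (wt η)) p i (n + 1) x y * kw Dᶜ (wt η) (i + (n + 1)) y =
    kw Dᶜ (wt η) (i + (n + 1)) y * (ker (kw Dᶜ (wt η)) p i n x y * kw Dᶜ (wt η) (i + n) y +
      p (i + n) * (ker (kw Dᶜ (wt η)) p i n x (y - 1) * kw Dᶜ (wt η) (i + n) (y - 1))) := by
  rw [ker_succ]
  ring

theorem B_step (η : Env) (i n : ℕ) (x y : ℤ) (hR : (i + (n + 1), y) ∈ D ↔ ((((i + (n + 1) : ℕ) : ℤ), y) : Pt) ∈ R) :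
    Real.exp (((n + 1 : ℕ) : ℝ) * lam μ s) * WR μ s R η ((i : ℤ), x) (n + 1) (y - x) =
      kw Dᶜ (wt η) (i + (n + 1)) y * (Real.exp (n * lam μ s) * WR μ s R η ((i : ℤ), x) n (y - x) +
        Real.exp s * (Real.exp (n * lam μ s) * WR μ s R η ((i : ℤ), x) n (y - 1 - x))) := by
  have e0 : kw Dᶜ (wt η) (i + (n + 1)) y = Real.exp (lam μ s) * R.indicator (fun p => Real.exp (-lam μ s) * Real.exp (η p))
      ((((i : ℤ), x) : Pt).1 + (n + 1), (((i : ℤ), x) : Pt).2 + (y - x)) := by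
    rw [kw_row (μ := μ) (s := s) (R := R) η (by omega) hR]
    congr 3
    show y = x + (y - x)
    ring
  have e1 : Real.exp (((n + 1 : ℕ) : ℝ) * lam μ s) = Real.exp (n * lam μ s) * Real.exp (lam μ s) := by
    rw [← Real.exp_add]
    congr 1
    push_cast
    ring
  have e2 : y - 1 - x = y - x - 1 := by ring
  rw [WR_lst, e0, e1, e2]
  ring

/-- The bounds in the switch row. -/
theorem sw_exp {h v K a m : ℝ} (hK : |a - v * m| ≤ K) : Real.exp (h * a) ≤ Real.exp (|h| * K) * Real.exp (h * v * m) ∧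
    Real.exp (-(|h| * K)) * Real.exp (h * v * m) ≤ Real.exp (h * a) := by
  have h1 : |h * (a - v * m)| ≤ |h| * K := by
    rw [abs_mul]
    exact mul_le_mul_of_nonneg_left hK (abs_nonneg h)
  obtain ⟨h2, h3⟩ := abs_le.1 h1
  rw [← Real.exp_add, ← Real.exp_add]
  exact ⟨Real.exp_le_exp.2 (by nlinarith), Real.exp_le_exp.2 (by nlinarith)⟩

section Switch

variable {v K : ℝ}

theorem sw_up (η : Env) (i m : ℕ) (x : ℤ) (hp : ∀ k, i ≤ k → k < i + m → p k = Real.exp (s + h))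
    (hK : ∀ z, (i + m, z) ∈ D → |((z - x : ℤ) : ℝ) - v * m| ≤ K) : ∀ (n : ℕ),
    (∀ k, i < k → k ≤ i + (m + n) → ∀ y, ((k, y) ∈ D ↔ (((k : ℤ), y) : Pt) ∈ R)) →
    (∀ k, i + m ≤ k → k < i + (m + n) → p k = Real.exp s) → ∀ y : ℤ,
    ker (kw Dᶜ (wt η)) p i (m + n) x y * kw Dᶜ (wt η) (i + (m + n)) y ≤ Real.exp (|h| * K) * (kw Dᶜ (wt η) i x * Real.exp (h * v * m)) *
      (Real.exp (((m + n : ℕ) : ℝ) * lam μ s) * WR μ s R η ((i : ℤ), x) (m + n) (y - x))
  | 0, hR, _, y => by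
    rw [Nat.add_zero]
    have hn : 0 ≤ WR μ s R η ((i : ℤ), x) m (y - x) := WR_nonneg _ _ _ _ _
    have hw := kwn (D := D) η i x
    by_cases hD : (i + m, y) ∈ D
    · rw [kil_in (μ := μ) (s := s) (h := h) (R := R) η i x m (fun k h1 h2 => hR k h1 (by omega)) hp y]
      have h1 := (sw_exp (h := h) (hK y hD)).1
      rw [Real.exp_add]
      calc kw Dᶜ (wt η) i x * (Real.exp (m * lam μ s) * Real.exp (h * ((y - x : ℤ) : ℝ)) * WR μ s R η ((i : ℤ), x) m (y - x))
          = kw Dᶜ (wt η) i x * Real.exp (m * lam μ s) * WR μ s R η ((i : ℤ), x) m (y - x) * Real.exp (h * ((y - x : ℤ) : ℝ)) := by ring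
        _ ≤ kw Dᶜ (wt η) i x * Real.exp (m * lam μ s) * WR μ s R η ((i : ℤ), x) m (y - x) * (Real.exp (|h| * K) * Real.exp (h * v * m)) :=
            mul_le_mul_of_nonneg_left h1 (by positivity)
        _ = _ := by ring
    · rw [kw_off hD, mul_zero]
      positivity
  | n + 1, hR, hp', y => by
    have i1 := sw_up η i m x hp hK n (fun k h1 h2 => hR k h1 (by omega)) (fun k h1 h2 => hp' k h1 (by omega)) y
    have i2 := sw_up η i m x hp hK n (fun k h1 h2 => hR k h1 (by omega)) (fun k h1 h2 => hp' k h1 (by omega)) (y - 1)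
    have e1 : m + (n + 1) = m + n + 1 := by ring
    rw [e1, A_step, hp' (i + (m + n)) (by omega) (by omega), B_step η i (m + n) x y (hR (i + (m + n + 1)) (by omega) (by omega) y)]
    calc kw Dᶜ (wt η) (i + (m + n + 1)) y * (ker (kw Dᶜ (wt η)) p i (m + n) x y * kw Dᶜ (wt η) (i + (m + n)) y +
          Real.exp s * (ker (kw Dᶜ (wt η)) p i (m + n) x (y - 1) * kw Dᶜ (wt η) (i + (m + n)) (y - 1)))
        ≤ kw Dᶜ (wt η) (i + (m + n + 1)) y * (Real.exp (|h| * K) * (kw Dᶜ (wt η) i x * Real.exp (h * v * m)) *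
            (Real.exp (((m + n : ℕ) : ℝ) * lam μ s) * WR μ s R η ((i : ℤ), x) (m + n) (y - x)) +
          Real.exp s * (Real.exp (|h| * K) * (kw Dᶜ (wt η) i x * Real.exp (h * v * m)) *
            (Real.exp (((m + n : ℕ) : ℝ) * lam μ s) * WR μ s R η ((i : ℤ), x) (m + n) (y - 1 - x)))) :=
          mul_le_mul_of_nonneg_left (add_le_add i1 (mul_le_mul_of_nonneg_left i2 (Real.exp_pos _).le)) (kwn η _ _)
      _ = _ := by ring

theorem sw_lo (η : Env) (i m : ℕ) (x : ℤ) (hp : ∀ k, i ≤ k → k < i + m → p k = Real.exp (s + h))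
    (hK : ∀ z, (i + m, z) ∈ D → |((z - x : ℤ) : ℝ) - v * m| ≤ K) : ∀ (n : ℕ),
    (∀ k, i < k → k ≤ i + (m + n) → ∀ y, ((k, y) ∈ D ↔ (((k : ℤ), y) : Pt) ∈ R)) →
    (∀ k, i + m ≤ k → k < i + (m + n) → p k = Real.exp s) → (m = 0 → (i, x) ∈ D) → ∀ y : ℤ,
    Real.exp (-(|h| * K)) * (kw Dᶜ (wt η) i x * Real.exp (h * v * m)) *
      (Real.exp (((m + n : ℕ) : ℝ) * lam μ s) * WR μ s R η ((i : ℤ), x) (m + n) (y - x)) ≤
      ker (kw Dᶜ (wt η)) p i (m + n) x y * kw Dᶜ (wt η) (i + (m + n)) y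
  | 0, hR, _, hm, y => by
    rw [Nat.add_zero]
    have hn : 0 ≤ WR μ s R η ((i : ℤ), x) m (y - x) := WR_nonneg _ _ _ _ _
    have hw := kwn (D := D) η i x
    rw [kil_in (μ := μ) (s := s) (h := h) (R := R) η i x m (fun k h1 h2 => hR k h1 (by omega)) hp y]
    by_cases hD : (i + m, y) ∈ D
    · have h1 := (sw_exp (h := h) (hK y hD)).2
      rw [Real.exp_add]
      calc Real.exp (-(|h| * K)) * (kw Dᶜ (wt η) i x * Real.exp (h * v * m)) * (Real.exp (m * lam μ s) * WR μ s R η ((i : ℤ), x) m (y - x))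
          = kw Dᶜ (wt η) i x * Real.exp (m * lam μ s) * WR μ s R η ((i : ℤ), x) m (y - x) * (Real.exp (-(|h| * K)) * Real.exp (h * v * m)) := by
            ring
        _ ≤ kw Dᶜ (wt η) i x * Real.exp (m * lam μ s) * WR μ s R η ((i : ℤ), x) m (y - x) * Real.exp (h * ((y - x : ℤ) : ℝ)) :=
            mul_le_mul_of_nonneg_left h1 (by positivity)
        _ = _ := by ring
    · -- the weight is zero
      have h0 : WR μ s R η ((i : ℤ), x) m (y - x) = 0 := by
        rcases Nat.eq_zero_or_pos m with h1 | h1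
        · subst h1
          rw [WR_nil, if_neg]
          intro h2
          have h3 : y = x := by omega
          subst h3
          exact hD (by simpa using hm rfl)
        · obtain ⟨k, rfl⟩ : ∃ k, m = k + 1 := ⟨m - 1, by omega⟩
          rw [WR_lst, Set.indicator_of_notMem, zero_mul]
          intro h2
          refine hD ((hR (i + (k + 1)) (by omega) (by omega) y).2 ?_)
          have e3 : ((((i + (k + 1) : ℕ) : ℤ), y) : Pt) = ((((i : ℤ), x) : Pt).1 + (k + 1), (((i : ℤ), x) : Pt).2 + (y - x)) := by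
            ext
            · show (((i + (k + 1) : ℕ) : ℤ)) = (i : ℤ) + (k + 1)
              push_cast
              ring
            · show y = x + (y - x)
              ring
          rw [e3]
          exact h2
      rw [h0]
      simp
  | n + 1, hR, hp', hm, y => by
    have i1 := sw_lo η i m x hp hK n (fun k h1 h2 => hR k h1 (by omega)) (fun k h1 h2 => hp' k h1 (by omega)) hm y
    have i2 := sw_lo η i m x hp hK n (fun k h1 h2 => hR k h1 (by omega)) (fun k h1 h2 => hp' k h1 (by omega)) hm (y - 1)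
    have e1 : m + (n + 1) = m + n + 1 := by ring
    rw [e1, A_step, hp' (i + (m + n)) (by omega) (by omega), B_step η i (m + n) x y (hR (i + (m + n + 1)) (by omega) (by omega) y)]
    calc Real.exp (-(|h| * K)) * (kw Dᶜ (wt η) i x * Real.exp (h * v * m)) * (kw Dᶜ (wt η) (i + (m + n + 1)) y *
          (Real.exp (((m + n : ℕ) : ℝ) * lam μ s) * WR μ s R η ((i : ℤ), x) (m + n) (y - x) +
            Real.exp s * (Real.exp (((m + n : ℕ) : ℝ) * lam μ s) * WR μ s R η ((i : ℤ), x) (m + n) (y - 1 - x))))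
        = kw Dᶜ (wt η) (i + (m + n + 1)) y * (Real.exp (-(|h| * K)) * (kw Dᶜ (wt η) i x * Real.exp (h * v * m)) *
            (Real.exp (((m + n : ℕ) : ℝ) * lam μ s) * WR μ s R η ((i : ℤ), x) (m + n) (y - x)) +
          Real.exp s * (Real.exp (-(|h| * K)) * (kw Dᶜ (wt η) i x * Real.exp (h * v * m)) *
            (Real.exp (((m + n : ℕ) : ℝ) * lam μ s) * WR μ s R η ((i : ℤ), x) (m + n) (y - 1 - x)))) := by ring
      _ ≤ kw Dᶜ (wt η) (i + (m + n + 1)) y * (ker (kw Dᶜ (wt η)) p i (m + n) x y * kw Dᶜ (wt η) (i + (m + n)) y +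
          Real.exp s * (ker (kw Dᶜ (wt η)) p i (m + n) x (y - 1) * kw Dᶜ (wt η) (i + (m + n)) (y - 1))) :=
          mul_le_mul_of_nonneg_left (add_le_add i1 (mul_le_mul_of_nonneg_left i2 (Real.exp_pos _).le)) (kwn η _ _)

end Switch

/-! ### The kernels with a free last site -/

section Free

variable {v K : ℝ} {i m n : ℕ} {x y : ℤ}

/-- **Killed kernel, upper.** -/
theorem kil_up (η : Env) (hx : (i, x) ∈ D) (hR : ∀ k, i < k → k < i + (m + n) → ∀ z, ((k, z) ∈ D ↔ (((k : ℤ), z) : Pt) ∈ R))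
    (hp : ∀ k, i ≤ k → k < i + m → p k = Real.exp (s + h)) (hp' : ∀ k, i + m ≤ k → k < i + (m + n) → p k = Real.exp s)
    (hK : 0 < n → ∀ z, (i + m, z) ∈ D → |((z - x : ℤ) : ℝ) - v * m| ≤ K) (hy : n = 0 → |((y - x : ℤ) : ℝ) - v * m| ≤ K) :
    ker (kw Dᶜ (wt η)) p i (m + n) x y * wt η (i + (m + n)) y ≤
      wt η i x * (Real.exp (((m + n : ℕ) : ℝ) * lam μ s + h * v * m + |h| * K) * WR μ s (Re R (i + (m + n))) η ((i : ℤ), x) (m + n) (y - x)) := by
  have hwi := wt_pos η i x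
  have hn : 0 ≤ WR μ s (Re R (i + (m + n))) η ((i : ℤ), x) (m + n) (y - x) := WR_nonneg _ _ _ _ _
  rcases Nat.eq_zero_or_pos n with h0 | h0
  · subst h0
    rw [Nat.add_zero] at hR hn ⊢
    rw [kil_end (μ := μ) (s := s) (h := h) (R := R) η i m x y hx hR hp]
    have h1 := (sw_exp (h := h) (hy rfl)).1
    refine mul_le_mul_of_nonneg_left (mul_le_mul_of_nonneg_right ?_ hn) hwi.le
    rw [Real.exp_add, Real.exp_add, Real.exp_add]
    calc Real.exp (m * lam μ s) * Real.exp (h * ((y - x : ℤ) : ℝ)) ≤ Real.exp (m * lam μ s) * (Real.exp (|h| * K) * Real.exp (h * v * m)) :=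
          mul_le_mul_of_nonneg_left h1 (Real.exp_pos _).le
      _ = _ := by ring
  · have h1 := sw_up (μ := μ) (s := s) (h := h) (D := De D (i + (m + n))) (R := Re R (i + (m + n))) (p := p) (v := v) (K := K) η i m x hp
      (fun z hz => hK h0 z (by
        rcases hz with h2 | h2
        · exact h2
        · exact absurd (show i + m = i + (m + n) from h2) (by omega))) n
      (fun k h1 h2 z => De_Re fun h3 => hR k h1 (by omega) z) hp' y
    rw [ker_De, kw_of (show ((i + (m + n), y) : ℕ × ℤ) ∈ De D (i + (m + n)) from Or.inr rfl),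
      kw_of (show ((i, x) : ℕ × ℤ) ∈ De D (i + (m + n)) from Or.inl hx)] at h1
    refine h1.trans (le_of_eq ?_)
    rw [Real.exp_add, Real.exp_add]
    ring

/-- **Killed kernel, lower.** -/
theorem kil_lo (η : Env) (hx : (i, x) ∈ D) (hR : ∀ k, i < k → k < i + (m + n) → ∀ z, ((k, z) ∈ D ↔ (((k : ℤ), z) : Pt) ∈ R))
    (hp : ∀ k, i ≤ k → k < i + m → p k = Real.exp (s + h)) (hp' : ∀ k, i + m ≤ k → k < i + (m + n) → p k = Real.exp s)
    (hK : 0 < n → ∀ z, (i + m, z) ∈ D → |((z - x : ℤ) : ℝ) - v * m| ≤ K) (hy : n = 0 → |((y - x : ℤ) : ℝ) - v * m| ≤ K) :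
    wt η i x * (Real.exp (((m + n : ℕ) : ℝ) * lam μ s + h * v * m - |h| * K) * WR μ s (Re R (i + (m + n))) η ((i : ℤ), x) (m + n) (y - x)) ≤
      ker (kw Dᶜ (wt η)) p i (m + n) x y * wt η (i + (m + n)) y := by
  have hwi := wt_pos η i x
  have hn : 0 ≤ WR μ s (Re R (i + (m + n))) η ((i : ℤ), x) (m + n) (y - x) := WR_nonneg _ _ _ _ _
  rcases Nat.eq_zero_or_pos n with h0 | h0
  · subst h0
    rw [Nat.add_zero] at hR hn ⊢
    rw [kil_end (μ := μ) (s := s) (h := h) (R := R) η i m x y hx hR hp]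
    have h1 := (sw_exp (h := h) (hy rfl)).2
    refine mul_le_mul_of_nonneg_left (mul_le_mul_of_nonneg_right ?_ hn) hwi.le
    rw [sub_eq_add_neg, Real.exp_add, Real.exp_add, Real.exp_add]
    calc Real.exp (m * lam μ s) * Real.exp (h * v * m) * Real.exp (-(|h| * K)) =
          Real.exp (m * lam μ s) * (Real.exp (-(|h| * K)) * Real.exp (h * v * m)) := by ring
      _ ≤ _ := mul_le_mul_of_nonneg_left h1 (Real.exp_pos _).le
  · have h1 := sw_lo (μ := μ) (s := s) (h := h) (D := De D (i + (m + n))) (R := Re R (i + (m + n))) (p := p) (v := v) (K := K) η i m x hp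
      (fun z hz => hK h0 z (by
        rcases hz with h2 | h2
        · exact h2
        · exact absurd (show i + m = i + (m + n) from h2) (by omega))) n
      (fun k h1 h2 z => De_Re fun h3 => hR k h1 (by omega) z) hp' (fun _ => Or.inl hx) y
    rw [ker_De, kw_of (show ((i + (m + n), y) : ℕ × ℤ) ∈ De D (i + (m + n)) from Or.inr rfl),
      kw_of (show ((i, x) : ℕ × ℤ) ∈ De D (i + (m + n)) from Or.inl hx)] at h1
    refine le_trans (le_of_eq ?_) h1
    rw [sub_eq_add_neg, Real.exp_add, Real.exp_add]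
    ring

theorem ker_kil_le (hp : ∀ k, 0 < p k) (η : Env) (i n : ℕ) (x y : ℤ) : ker (kw Dᶜ (wt η)) p i n x y ≤ ker (wt η) p i n x y :=
  ker_mono (fun k y => kwn η k y) (fun _ _ => kw_le (fun k y => (wt_pos η k y).le) _ _ _) hp _ _ _ _

/-- **The full kernel from below** by the paths in `R` (the first site is free). -/
theorem wr_le_ker (hp0 : ∀ k, 0 < p k) (η : Env) (hK0 : 0 ≤ K)
    (hp : ∀ k, i ≤ k → k < i + m → p k = Real.exp (s + h)) (hp' : ∀ k, i + m ≤ k → k < i + (m + n) → p k = Real.exp s)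
    (hK : 0 < m → ∀ z, ((((i + m : ℕ) : ℤ), z) : Pt) ∈ R → |((z - x : ℤ) : ℝ) - v * m| ≤ K) :
    wt η i x * (Real.exp (((m + n : ℕ) : ℝ) * lam μ s + h * v * m - |h| * K) * WR μ s R η ((i : ℤ), x) (m + n) (y - x)) ≤
      ker (wt η) p i (m + n) x y * wt η (i + (m + n)) y := by
  obtain ⟨D, hD⟩ : ∃ D : Set (ℕ × ℤ), D = {c | (c.1 = i ∧ c.2 = x) ∨ (i < c.1 ∧ (((c.1 : ℤ), c.2) : Pt) ∈ R)} := ⟨_, rfl⟩
  have hx : (i, x) ∈ D := by
    rw [hD]
    exact Or.inl ⟨rfl, rfl⟩
  have hRD : ∀ k, i < k → ∀ z, ((k, z) ∈ D ↔ (((k : ℤ), z) : Pt) ∈ R) := by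
    intro k hk z
    rw [hD]
    constructor
    · rintro (h1 | h1)
      · exact absurd h1.1 (show k ≠ i by omega)
      · exact h1.2
    · exact fun h1 => Or.inr ⟨hk, h1⟩
  have h1 := sw_lo (μ := μ) (s := s) (h := h) (D := D) (R := R) (p := p) (v := v) (K := K) η i m x hp (fun z hz => by
    rcases Nat.eq_zero_or_pos m with h0 | h0
    · subst h0
      rw [hD] at hz
      rcases hz with h2 | h2
      · have h3 : z = x := h2.2
        subst h3
        simpa using hK0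
      · exact absurd (show i < i + 0 from h2.1) (by omega)
    · exact hK h0 z ((hRD (i + m) (by omega) z).1 hz)) n (fun k h1 _ z => hRD k h1 z) hp' (fun _ => hx) y
  rw [kw_of hx] at h1
  have h2 : ker (kw Dᶜ (wt η)) p i (m + n) x y * kw Dᶜ (wt η) (i + (m + n)) y ≤ ker (wt η) p i (m + n) x y * wt η (i + (m + n)) y :=
    mul_le_mul (ker_kil_le hp0 η _ _ _ _) (kw_le (fun k y => (wt_pos η k y).le) _ _ _) (kwn η _ _)
      (ker_nonneg (wt_pos η) hp0 _ _ _ _)
  refine le_trans (le_of_eq ?_) (h1.trans h2)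
  rw [sub_eq_add_neg, Real.exp_add, Real.exp_add]
  ring

end Free

end

end Pool.Agent.W_7d29a1_C1.Br32
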