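import Pool.Agent.W_7d29a1_C1.RatB22
import Pool.Agent.W_7d29a1_C1.KerP16
import Pool.Agent.W_7d29a1_C1.FarW89

/-!
MP_7d29a1_pr, [C1] attractor route, SEP: THE UPPER KERNELS `KiB` OF A BLOCK FROM THE TOTALS OF THE NORMALISED WEIGHTS. (helper22)

`Gau μ s Γ γ` : the gauge `γ` of the normalised kernel (rows `≤ N`; `Ou37.gam` is one). `tw μ s τ ω P n` = the total of `W` from `P` after
`n` rows with the weight `exp (τ (y - sl n))`.

* `UpS μ s t₀ V σ ℓ a e` : totals with the tilts `± t₀` at most `exp (V + σ |ℓ k x|)` from all sites `(k, x)`, rows `[a, e]`;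
* `kill_sum` : sums of the kernel killed off `D`, ends at the lateral distance `≥ ρ` from the start: `≤ 4 exp (2 (V + σ |ℓ|) - τ ρ)`, for
  `|h| + σ + τ ≤ t₀` (the switch row may be anywhere);
* **`kiB_of`** : `UpS` gives `KiB`.
-/

set_option autoImplicit false

namespace Pool.Agent.W_7d29a1_C1.RB22

open Finset MeasureTheory
open Pool.Agent.W_7d29a1_F hiding Bw G
open Pool.Agent.W_7d29a1_h4g Pool.Agent.W_7d29a1_HS
open Pool.Agent.W_7d29a1_H hiding ex gg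
open Pool.Agent.W_7d29a1_C1.K91 (wt wt_pos measurable_wt)
open Pool.Agent.W_7d29a1_C1.K91P (fw bw bw_succ bw_zero bw_pos bw_congr)
open Pool.Agent.W_7d29a1_C1.U16 (ker ker_zero ker_succ ker_nonneg ker_eq_zero ker_congr ker_W ker_add)
open Pool.Agent.W_7d29a1_C1.Sp22 (kw kw_nn kw_le bf bf_zero bf_succ bf_ker bf_mono bf_nonneg bf_bw bf_congr bf_smul)
open Pool.Agent.W_7d29a1_C1.H60
open Pool.Agent.W_7d29a1_C1.G37 (Gm)
open Pool.Agent.W_7d29a1_C1.Sy78 (sp lat_win lat_succ)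
open Pool.Agent.W_7d29a1_C1.O22 (Bw)
open Pool.Agent.W_7d29a1_C1.Rt22
open Pool.Agent.W_7d29a1_C1.FarW89 (bl bl_add)

noncomputable section

variable {μ : Measure ℝ} {s : ℝ} {Γ : Cx} {ω : Env} {γ : ℕ → ℤ → ℝ}

/-! ### The gauge -/

/-- The gauge of the normalised kernel. -/
structure Gau (μ : Measure ℝ) (s : ℝ) (Γ : Cx) (γ : ℕ → ℤ → ℝ) : Prop where
  pos : ∀ k y, 0 < γ k y
  step : ∀ (k m : ℕ) (x z : ℤ), k + m ≤ Γ.N → γ (k + m) z = γ k x * Real.exp (-(m * lam μ s + Γ.h * sl μ s * bl Γ.M k m))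

theorem p_lt (hs : Γ.s = s) {k : ℕ} (hk : k < Γ.M) : Γ.p k = Real.exp (s + Γ.h) := by
  unfold Cx.p
  rw [if_pos hk, hs]

theorem p_ge (hs : Γ.s = s) {k : ℕ} (hk : Γ.M ≤ k) : Γ.p k = Real.exp (s + 0) := by
  unfold Cx.p
  rw [if_neg (not_lt.2 hk), add_zero, hs]

/-- The kernel of rows below the switch row. -/
theorem ker_lo (hs : Γ.s = s) (g : Gau μ s Γ γ) {k m : ℕ} (hN : k + m ≤ Γ.N) (hm : m = 0 ∨ k + m ≤ Γ.M) (x z : ℤ) :
    ker (wt ω) Γ.p k m x z * gg γ ω (k + m) z =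
    gg γ ω k x * (Real.exp (Γ.h * (((z - x : ℤ) : ℝ) - sl μ s * m)) * W μ s ω ((k : ℤ), x) m (z - x)) := by
  have hW := ker_W (μ := μ) (s := s) (h := Γ.h) ω (p := Γ.p) k x m z (fun j h1 h2 => p_lt hs (by omega))
  have e1 : γ (k + m) z = γ k x * Real.exp (-(m * lam μ s + Γ.h * sl μ s * m)) := by
    rw [g.step k m x z hN]
    have h1 : bl Γ.M k m = m := by unfold bl; omega
    rw [h1]
  have e2 : Real.exp (m * lam μ s + Γ.h * ((z - x : ℤ) : ℝ)) * Real.exp (-(m * lam μ s + Γ.h * sl μ s * m)) =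
      Real.exp (Γ.h * (((z - x : ℤ) : ℝ) - sl μ s * m)) := by
    rw [← Real.exp_add]
    congr 1
    ring
  unfold gg
  calc ker (wt ω) Γ.p k m x z * (wt ω (k + m) z * γ (k + m) z) = ker (wt ω) Γ.p k m x z * wt ω (k + m) z * γ (k + m) z := by
        ring
    _ = wt ω k x * γ k x * ((Real.exp (m * lam μ s + Γ.h * ((z - x : ℤ) : ℝ)) *
          Real.exp (-(m * lam μ s + Γ.h * sl μ s * m))) * W μ s ω ((k : ℤ), x) m (z - x)) := by
        rw [hW, e1]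
        ring
    _ = _ := by rw [e2]

/-- The kernel of rows from the switch row on. -/
theorem ker_hi (hs : Γ.s = s) (g : Gau μ s Γ γ) {k n : ℕ} (hN : k + n ≤ Γ.N) (hn : n = 0 ∨ Γ.M ≤ k) (z y : ℤ) :
    ker (wt ω) Γ.p k n z y * gg γ ω (k + n) y = gg γ ω k z * W μ s ω ((k : ℤ), z) n (y - z) := by
  have hW := ker_W (μ := μ) (s := s) (h := 0) ω (p := Γ.p) k z n y (fun j h1 h2 => p_ge hs (by omega))
  have e1 : γ (k + n) y = γ k z * Real.exp (-(n * lam μ s)) := by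
    rw [g.step k n z y hN]
    have h1 : bl Γ.M k n = 0 := by unfold bl; omega
    rw [h1]
    congr 2
    push_cast
    ring
  have e2 : Real.exp (n * lam μ s + 0 * ((y - z : ℤ) : ℝ)) * Real.exp (-(n * lam μ s)) = 1 := by
    rw [← Real.exp_add]
    simp
  unfold gg
  calc ker (wt ω) Γ.p k n z y * (wt ω (k + n) y * γ (k + n) y) = ker (wt ω) Γ.p k n z y * wt ω (k + n) y * γ (k + n) y := by
        ring
    _ = wt ω k z * γ k z * ((Real.exp (n * lam μ s + 0 * ((y - z : ℤ) : ℝ)) * Real.exp (-(n * lam μ s))) *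
          W μ s ω ((k : ℤ), z) n (y - z)) := by
        rw [hW, e1]
        ring
    _ = _ := by rw [e2, one_mul]

/-! ### Totals -/

/-- The total with the tilt `τ`. -/
def tw (μ : Measure ℝ) (s τ : ℝ) (ω : Env) (P : Pt) (n : ℕ) : ℝ :=
  ∑ y ∈ Icc (0 : ℤ) n, Real.exp (τ * ((y : ℝ) - sl μ s * n)) * W μ s ω P n y

theorem sum_sup {f : ℤ → ℝ} (hf : ∀ y, 0 ≤ f y) {S : Finset ℤ} (A : Finset ℤ) (h : ∀ y, y ∉ S → f y = 0) : ∑ y ∈ A, f y ≤ ∑ y ∈ S, f y := by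
  classical
  have h1 : ∑ y ∈ A, f y = ∑ y ∈ A.filter (fun y => y ∈ S), f y := by
    rw [sum_filter]
    refine sum_congr rfl fun y _ => ?_
    by_cases hy : y ∈ S
    · rw [if_pos hy]
    · rw [if_neg hy, h y hy]
  rw [h1]
  exact sum_le_sum_of_subset_of_nonneg (fun y hy => (mem_filter.1 hy).2) fun y _ _ => hf y

/-- The totals bound the sums with `exp (t |.|)`. -/
theorem ab_tw {s t t₀ : ℝ} (_ht : 0 ≤ t) (htt : t ≤ t₀) (P : Pt) (n : ℕ) (x : ℤ) (Y : Finset ℤ) :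
    ∑ y ∈ Y, Real.exp (t * |((y - x : ℤ) : ℝ) - sl μ s * n|) * W μ s ω P n (y - x) ≤ tw μ s t₀ ω P n + tw μ s (-t₀) ω P n := by
  classical
  obtain ⟨f, hf⟩ : ∃ f : ℤ → ℝ, f = fun d : ℤ => Real.exp (t * |(d : ℝ) - sl μ s * n|) * W μ s ω P n d := ⟨_, rfl⟩
  have h1 : ∑ y ∈ Y, Real.exp (t * |((y - x : ℤ) : ℝ) - sl μ s * n|) * W μ s ω P n (y - x) = ∑ d ∈ Y.image (fun y => y - x), f d := by
    rw [sum_image fun a _ b _ hab => by simpa using hab, hf]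
  rw [h1]
  refine (sum_sup (fun d => by rw [hf]; exact mul_nonneg (Real.exp_pos _).le (W_nonneg _ _ _ _)) (S := Icc (0 : ℤ) n) _ fun d hd => ?_).trans ?_
  · rw [hf]
    simp only
    rw [W_eq_zero _ _ (fun h => hd (mem_Icc.2 h)), mul_zero]
  · unfold tw
    rw [← sum_add_distrib]
    refine sum_le_sum fun d _ => ?_
    rw [hf, ← add_mul]
    refine mul_le_mul_of_nonneg_right ?_ (W_nonneg _ _ _ _)
    show Real.exp (t * |(d : ℝ) - sl μ s * n|) ≤ _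
    obtain ⟨D, hD⟩ : ∃ D : ℝ, D = (d : ℝ) - sl μ s * n := ⟨_, rfl⟩
    rw [← hD]
    have h2 : t * |D| ≤ t₀ * |D| := mul_le_mul_of_nonneg_right htt (abs_nonneg D)
    rcases abs_cases D with ⟨h3, _⟩ | ⟨h3, _⟩
    · rw [h3] at h2 ⊢
      have := Real.exp_le_exp.2 h2
      have := Real.exp_pos (-t₀ * D)
      linarith
    · rw [h3] at h2 ⊢
      have h4 := Real.exp_le_exp.2 h2
      rw [show t₀ * -D = -t₀ * D by ring] at h4
      have := Real.exp_pos (t₀ * D)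
      linarith

/-- **Upper totals with a slope**, rows `[a, e]`. -/
def UpS (μ : Measure ℝ) (s t₀ V σ : ℝ) (ℓ : ℕ → ℤ → ℝ) (a e : ℕ) : Set Env :=
  {ω | ∀ (k : ℕ) (x : ℤ) (n : ℕ), a ≤ k → k + n ≤ e → tw μ s t₀ ω ((k : ℤ), x) n ≤ Real.exp (V + σ * |ℓ k x|) ∧
    tw μ s (-t₀) ω ((k : ℤ), x) n ≤ Real.exp (V + σ * |ℓ k x|)}

theorem UpS_mono {t₀ V V' σ σ' : ℝ} {ℓ : ℕ → ℤ → ℝ} {a e a' e' : ℕ} (hV : V ≤ V') (hσ : σ ≤ σ') (ha : a ≤ a') (he : e' ≤ e) :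
    UpS μ s t₀ V σ ℓ a e ⊆ UpS μ s t₀ V' σ' ℓ a' e' := fun ω h k x n h1 h2 => by
  have h3 : Real.exp (V + σ * |ℓ k x|) ≤ Real.exp (V' + σ' * |ℓ k x|) :=
    Real.exp_le_exp.2 (add_le_add hV (mul_le_mul_of_nonneg_right hσ (abs_nonneg _)))
  exact ⟨(h k x n (ha.trans h1) (h2.trans he)).1.trans h3, (h k x n (ha.trans h1) (h2.trans he)).2.trans h3⟩

/-- Another reference line. -/
theorem UpS_ref {t₀ V σ δ : ℝ} {ℓ ℓ' : ℕ → ℤ → ℝ} {a e : ℕ} (hσ : 0 ≤ σ) (h : ∀ k x, |ℓ k x| ≤ |ℓ' k x| + δ) :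
    UpS μ s t₀ V σ ℓ a e ⊆ UpS μ s t₀ (V + σ * δ) σ ℓ' a e := fun ω hω k x n h1 h2 => by
  have h3 : Real.exp (V + σ * |ℓ k x|) ≤ Real.exp (V + σ * δ + σ * |ℓ' k x|) :=
    Real.exp_le_exp.2 (by have := mul_le_mul_of_nonneg_left (h k x) hσ; linarith)
  exact ⟨(hω k x n h1 h2).1.trans h3, (hω k x n h1 h2).2.trans h3⟩

variable {D : Set (ℕ × ℤ)} {a e : ℕ} {t₀ V τ ρ σ : ℝ} {ℓ : ℕ → ℤ → ℝ}

theorem UpS_ab {t : ℝ} (U : ω ∈ UpS μ s t₀ V σ ℓ a e) (ht : 0 ≤ t) (htt : t ≤ t₀) {k : ℕ} {x : ℤ} (ha : a ≤ k) {n : ℕ}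
    (hn : k + n ≤ e) (Y : Finset ℤ) :
    ∑ y ∈ Y, Real.exp (t * |((y - x : ℤ) : ℝ) - sl μ s * n|) * W μ s ω ((k : ℤ), x) n (y - x) ≤ 2 * Real.exp (V + σ * |ℓ k x|) := by
  refine (ab_tw ht htt _ n x Y).trans ?_
  have h1 := U k x n ha hn
  linarith [h1.1, h1.2]

/-- **SUMS OF THE KILLED KERNEL**, ends at the lateral distance `≥ ρ` from the start. -/
theorem kill_sum (hs : Γ.s = s) (g : Gau μ s Γ γ) (U : ω ∈ UpS μ s t₀ V σ ℓ a e)
    (hℓ : ∀ (k m : ℕ) (x z : ℤ), ℓ (k + m) z = ℓ k x + (((z - x : ℤ) : ℝ) - sl μ s * m)) (hσ : 0 ≤ σ) (hτ : 0 ≤ τ)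
    (ht : |Γ.h| + σ + τ ≤ t₀) {k n : ℕ} {x : ℤ} (ha : a ≤ k) (he : k + n ≤ e) (hN : k + n ≤ Γ.N) (Y : Finset ℤ)
    (hY : ∀ y ∈ Y, ρ ≤ |((y - x : ℤ) : ℝ) - sl μ s * n|) :
    ∑ y ∈ Y, ker (kw Dᶜ (wt ω)) Γ.p k n x y * gg γ ω (k + n) y ≤
      4 * Real.exp (2 * (V + σ * |ℓ k x|) - τ * ρ) * gg γ ω k x := by
  classical
  obtain ⟨m, n', hmn, hm, hn'⟩ : ∃ m n' : ℕ, n = m + n' ∧ (m = 0 ∨ k + m ≤ Γ.M) ∧ (n' = 0 ∨ Γ.M ≤ k + m) := by
    refine ⟨min n (Γ.M - k), n - min n (Γ.M - k), by omega, by omega, by omega⟩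
  subst hmn
  have hkn := kw_nn (w := wt ω) (fun k y => (wt_pos ω k y).le) Dᶜ
  have hkl := kw_le (w := wt ω) (fun k y => (wt_pos ω k y).le) Dᶜ
  have hgk := gg_pos g.pos ω k x
  obtain ⟨V', hV'⟩ : ∃ V' : ℝ, V' = V + σ * |ℓ k x| := ⟨_, rfl⟩
  -- the two factors
  obtain ⟨f₁, hf₁⟩ : ∃ f₁ : ℤ → ℝ, f₁ = fun z : ℤ => Real.exp ((|Γ.h| + σ + τ) * |((z - x : ℤ) : ℝ) - sl μ s * m|) *
    W μ s ω ((k : ℤ), x) m (z - x) := ⟨_, rfl⟩
  obtain ⟨f₂, hf₂⟩ : ∃ f₂ : ℤ → ℤ → ℝ, f₂ = fun z y : ℤ => Real.exp (-(σ * |((z - x : ℤ) : ℝ) - sl μ s * m|)) *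
    (Real.exp (τ * |((y - z : ℤ) : ℝ) - sl μ s * n'|) * W μ s ω (((k + m : ℕ) : ℤ), z) n' (y - z)) := ⟨_, rfl⟩
  have h1n : ∀ z, 0 ≤ f₁ z := fun z => by rw [hf₁]; exact mul_nonneg (Real.exp_pos _).le (W_nonneg _ _ _ _)
  have h2n : ∀ z y, 0 ≤ f₂ z y := fun z y => by
    rw [hf₂]
    exact mul_nonneg (Real.exp_pos _).le (mul_nonneg (Real.exp_pos _).le (W_nonneg _ _ _ _))
  obtain ⟨T, hT⟩ : ∃ T : ℤ → ℤ → ℝ, T = fun z y : ℤ => gg γ ω k x * (Real.exp (-(τ * ρ)) * (f₁ z * f₂ z y)) := ⟨_, rfl⟩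
  have hTn : ∀ z y, 0 ≤ T z y := fun z y => by
    rw [hT]
    have := h1n z
    have := h2n z y
    positivity
  -- one end
  have one : ∀ y ∈ Y, ker (kw Dᶜ (wt ω)) Γ.p k (m + n') x y * gg γ ω (k + (m + n')) y ≤ ∑ z ∈ Icc x (x + (m : ℤ)), T z y := by
    intro y hy
    rw [ker_add, sum_mul]
    refine le_trans (sum_le_sum fun z _ => ?_) (sum_sup (fun z => hTn z y) (S := Icc x (x + (m : ℤ))) _ fun z hz => ?_)
    · show ker (kw Dᶜ (wt ω)) Γ.p k m x z * ker (kw Dᶜ (wt ω)) Γ.p (k + m) n' z y * gg γ ω (k + (m + n')) y ≤ T z y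
      have e1 : T z y = gg γ ω k x * (Real.exp (-(τ * ρ)) * (f₁ z * f₂ z y)) := by rw [hT]
      rw [e1]
      have g1 := Cmp71.ker_mono hkn hkl Γ.p_pos k m x z
      have g2 := Cmp71.ker_mono hkn hkl Γ.p_pos (k + m) n' z y
      have n1 := Cmp71.ker_nn hkn Γ.p_pos k m x z
      have n2 := Cmp71.ker_nn hkn Γ.p_pos (k + m) n' z y
      have hgy := gg_pos g.pos ω (k + (m + n')) y
      have s1 := ker_lo (ω := ω) hs g (show k + m ≤ Γ.N by omega) hm x z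
      have s2 := ker_hi (ω := ω) hs g (show k + m + n' ≤ Γ.N by omega) hn' z y
      rw [add_assoc] at s2
      calc ker (kw Dᶜ (wt ω)) Γ.p k m x z * ker (kw Dᶜ (wt ω)) Γ.p (k + m) n' z y * gg γ ω (k + (m + n')) y
          ≤ ker (wt ω) Γ.p k m x z * ker (wt ω) Γ.p (k + m) n' z y * gg γ ω (k + (m + n')) y :=
            mul_le_mul_of_nonneg_right (mul_le_mul g1 g2 n2 (n1.trans g1)) hgy.le
        _ = ker (wt ω) Γ.p k m x z * (ker (wt ω) Γ.p (k + m) n' z y * gg γ ω (k + (m + n')) y) := by ring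
        _ = ker (wt ω) Γ.p k m x z * gg γ ω (k + m) z * W μ s ω (((k + m : ℕ) : ℤ), z) n' (y - z) := by rw [s2]; ring
        _ = gg γ ω k x * ((Real.exp (Γ.h * (((z - x : ℤ) : ℝ) - sl μ s * m)) * W μ s ω ((k : ℤ), x) m (z - x)) *
              W μ s ω (((k + m : ℕ) : ℤ), z) n' (y - z)) := by rw [s1]; ring
        _ ≤ gg γ ω k x * (Real.exp (-(τ * ρ)) * (f₁ z * f₂ z y)) := by
            refine mul_le_mul_of_nonneg_left ?_ hgk.le
            rw [hf₁, hf₂]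
            simp only
            obtain ⟨Δ, hΔ⟩ : ∃ Δ : ℝ, Δ = ((z - x : ℤ) : ℝ) - sl μ s * m := ⟨_, rfl⟩
            obtain ⟨Δ', hΔ'⟩ : ∃ Δ' : ℝ, Δ' = ((y - z : ℤ) : ℝ) - sl μ s * n' := ⟨_, rfl⟩
            rw [← hΔ, ← hΔ']
            have hsum : Δ + Δ' = ((y - x : ℤ) : ℝ) - sl μ s * ((m + n' : ℕ) : ℝ) := by
              rw [hΔ, hΔ']
              push_cast
              ring
            have hρ : ρ ≤ |Δ| + |Δ'| := by
              have h3 := hY y hy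
              rw [← hsum] at h3
              exact h3.trans (abs_add_le _ _)
            have hh : Γ.h * Δ ≤ |Γ.h| * |Δ| := (le_abs_self _).trans (le_of_eq (abs_mul _ _))
            have hw1 := W_nonneg (μ := μ) (s := s) ω ((k : ℤ), x) m (z - x)
            have hw2 := W_nonneg (μ := μ) (s := s) ω (((k + m : ℕ) : ℤ), z) n' (y - z)
            have key : Real.exp (Γ.h * Δ) ≤ Real.exp (-(τ * ρ)) * (Real.exp ((|Γ.h| + σ + τ) * |Δ|) *
                (Real.exp (-(σ * |Δ|)) * Real.exp (τ * |Δ'|))) := by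
              rw [← Real.exp_add, ← Real.exp_add, ← Real.exp_add]
              refine Real.exp_le_exp.2 ?_
              have := mul_le_mul_of_nonneg_left hρ hτ
              nlinarith
            calc Real.exp (Γ.h * Δ) * W μ s ω ((k : ℤ), x) m (z - x) * W μ s ω (((k + m : ℕ) : ℤ), z) n' (y - z)
                = Real.exp (Γ.h * Δ) * (W μ s ω ((k : ℤ), x) m (z - x) * W μ s ω (((k + m : ℕ) : ℤ), z) n' (y - z)) := by ring
              _ ≤ (Real.exp (-(τ * ρ)) * (Real.exp ((|Γ.h| + σ + τ) * |Δ|) * (Real.exp (-(σ * |Δ|)) * Real.exp (τ * |Δ'|)))) *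
                    (W μ s ω ((k : ℤ), x) m (z - x) * W μ s ω (((k + m : ℕ) : ℤ), z) n' (y - z)) :=
                  mul_le_mul_of_nonneg_right key (mul_nonneg hw1 hw2)
              _ = _ := by ring
    · rw [hT]
      simp only
      have h3 : f₁ z = 0 := by
        rw [hf₁]
        simp only
        rw [W_eq_zero _ _ (fun h => hz (mem_Icc.2 (by omega))), mul_zero]
      rw [h3]
      ring
  -- the sum over the ends of the second factor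
  have sec : ∀ z, ∑ y ∈ Y, T z y ≤ gg γ ω k x * (Real.exp (-(τ * ρ)) * (f₁ z * (2 * Real.exp V'))) := by
    intro z
    have e1 : ∑ y ∈ Y, T z y = gg γ ω k x * (Real.exp (-(τ * ρ)) * (f₁ z * ∑ y ∈ Y, f₂ z y)) := by
      rw [mul_sum, mul_sum, mul_sum, hT]
    rw [e1]
    refine mul_le_mul_of_nonneg_left (mul_le_mul_of_nonneg_left (mul_le_mul_of_nonneg_left ?_ (h1n z)) (Real.exp_pos _).le) hgk.le
    obtain ⟨Δ, hΔ⟩ : ∃ Δ : ℝ, Δ = ((z - x : ℤ) : ℝ) - sl μ s * m := ⟨_, rfl⟩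
    have e3 : ∑ y ∈ Y, f₂ z y = Real.exp (-(σ * |Δ|)) * ∑ y ∈ Y, Real.exp (τ * |((y - z : ℤ) : ℝ) - sl μ s * n'|) *
        W μ s ω (((k + m : ℕ) : ℤ), z) n' (y - z) := by
      rw [mul_sum, hf₂, hΔ]
    rw [e3]
    have hab := UpS_ab (t := τ) U hτ (by have := abs_nonneg Γ.h; linarith) (k := k + m) (x := z) (by omega) (n := n') (by omega) Y
    refine (mul_le_mul_of_nonneg_left hab (Real.exp_pos _).le).trans ?_
    have hl : |ℓ (k + m) z| ≤ |ℓ k x| + |Δ| := by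
      rw [hℓ k m x z, ← hΔ]
      exact abs_add_le _ _
    calc Real.exp (-(σ * |Δ|)) * (2 * Real.exp (V + σ * |ℓ (k + m) z|)) =
          2 * Real.exp (-(σ * |Δ|) + (V + σ * |ℓ (k + m) z|)) := by rw [Real.exp_add (-(σ * |Δ|))]; ring
      _ ≤ 2 * Real.exp V' := by
          refine mul_le_mul_of_nonneg_left (Real.exp_le_exp.2 ?_) (by norm_num)
          have := mul_le_mul_of_nonneg_left hl hσ
          rw [hV']
          linarith
  calc ∑ y ∈ Y, ker (kw Dᶜ (wt ω)) Γ.p k (m + n') x y * gg γ ω (k + (m + n')) y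
      ≤ ∑ y ∈ Y, ∑ z ∈ Icc x (x + (m : ℤ)), T z y := sum_le_sum one
    _ = ∑ z ∈ Icc x (x + (m : ℤ)), ∑ y ∈ Y, T z y := sum_comm
    _ ≤ ∑ z ∈ Icc x (x + (m : ℤ)), gg γ ω k x * (Real.exp (-(τ * ρ)) * (f₁ z * (2 * Real.exp V'))) := sum_le_sum fun z _ => sec z
    _ = gg γ ω k x * (Real.exp (-(τ * ρ)) * ((∑ z ∈ Icc x (x + (m : ℤ)), f₁ z) * (2 * Real.exp V'))) := by
        rw [sum_mul, mul_sum, mul_sum]
    _ ≤ gg γ ω k x * (Real.exp (-(τ * ρ)) * ((2 * Real.exp V') * (2 * Real.exp V'))) := by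
        refine mul_le_mul_of_nonneg_left (mul_le_mul_of_nonneg_left (mul_le_mul_of_nonneg_right ?_ (by positivity)) (Real.exp_pos _).le) hgk.le
        rw [hf₁, hV']
        exact UpS_ab (t := |Γ.h| + σ + τ) U (by positivity) ht ha (n := m) (by omega) _
    _ = 4 * Real.exp (2 * (V + σ * |ℓ k x|) - τ * ρ) * gg γ ω k x := by
        rw [← hV', show 2 * V' - τ * ρ = -(τ * ρ) + (V' + V') by ring, Real.exp_add, Real.exp_add V' V']
        ring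

/-! ### The upper kernels of a block -/

variable {G : Gm} {u : ℕ} {κ : ℤ × ℤ} {b : ℝ}

/-- The price of one step. -/
def c0s (μ : Measure ℝ) (s : ℝ) (Γ : Cx) : ℝ := (1 + Real.exp (|s| + |Γ.h|)) * Real.exp (|lam μ s| + |Γ.h| * |sl μ s|)

theorem c0s_pos : 0 < c0s μ s Γ := by
  unfold c0s
  positivity

/-- **`KiB` FROM THE TOTALS.** -/
theorem kiB_of (hs : Γ.s = s) (hv : G.v = sl μ s) (g : Gau μ s Γ γ) (hv0 : 0 ≤ G.v) (hv1 : G.v ≤ 1) (hb : G.kw * G.w u + 2 ≤ b * G.w u)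
    (he : e ≤ Γ.N) (hσ : 0 ≤ σ) (hτ : 0 ≤ τ) (ht : |Γ.h| + σ + τ ≤ t₀)
    (U : ω ∈ UpS μ s t₀ V σ (fun k x => G.lat (k, x) - G.ctr u κ) a (e - 1)) :
    ω ∈ KiB Γ G γ b (c0s μ s Γ * (4 * Real.exp (2 * (V + σ * (G.kw * G.w u + 2)))))
      ((((e - a : ℕ) : ℝ) * (((e - a : ℕ) : ℝ) + 1)) *
        (4 * Real.exp (2 * (V + σ * (G.kw * G.w u + 2)) - τ * (b * G.w u - G.kw * G.w u - 2)))) u κ a e := by
  classical
  have hreg := reg_B (G := G) (κ := κ) hv0 hv1 hb a e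
  have hℓ : ∀ (k m : ℕ) (x z : ℤ), (fun k x => G.lat (k, x) - G.ctr u κ) (k + m) z =
      (fun k x => G.lat (k, x) - G.ctr u κ) k x + (((z - x : ℤ) : ℝ) - sl μ s * m) := by
    intro k m x z
    simp only
    unfold Gm.lat
    rw [hv]
    push_cast
    ring
  obtain ⟨V', hV'⟩ : ∃ V' : ℝ, V' = V + σ * (G.kw * G.w u + 2) := ⟨_, rfl⟩
  rw [← hV']
  have hkn := kw_nn (w := wt ω) (fun k y => (wt_pos ω k y).le) (sp G u κ b)ᶜ
  have hkl := kw_le (w := wt ω) (fun k y => (wt_pos ω k y).le) (sp G u κ b)ᶜ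
  -- from a rim site
  have main : ∀ c ∈ Rim (Bk G u κ a e) a, ∀ n, c.1 + n ≤ e - 1 → ∀ (Y : Finset ℤ) (ρ : ℝ),
      (∀ y ∈ Y, ρ ≤ |((y - c.2 : ℤ) : ℝ) - sl μ s * n|) →
      ∑ y ∈ Y, ker (kw (sp G u κ b)ᶜ (wt ω)) Γ.p c.1 n c.2 y * gg γ ω (c.1 + n) y ≤ 4 * Real.exp (2 * V' - τ * ρ) * gg γ ω c.1 c.2 := by
    intro c hc n hn Y ρ hY
    have hr := rim_row hc
    have hl := rim_lat hv0 hv1 hc
    have key := kill_sum (D := sp G u κ b) hs g U hℓ hσ hτ ht (k := c.1) (n := n) (x := c.2) hr.1 hn (by omega) Y hY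
    refine key.trans (mul_le_mul_of_nonneg_right (mul_le_mul_of_nonneg_left (Real.exp_le_exp.2 ?_) (by norm_num)) (gg_pos g.pos ω _ _).le)
    have h2 : σ * |G.lat (c.1, c.2) - G.ctr u κ| ≤ σ * (G.kw * G.w u + 2) := mul_le_mul_of_nonneg_left hl hσ
    rw [hV']
    linarith
  refine ⟨fun c hc => ?_, fun c hc => ?_⟩
  · -- the mass
    have hr := rim_row hc
    obtain ⟨n, hn⟩ : ∃ n, e - c.1 = n + 1 := ⟨e - c.1 - 1, by omega⟩
    have he1 : c.1 + n = e - 1 := by omega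
    have he2 : e = c.1 + n + 1 := by omega
    unfold krm
    rw [hn, bf_ker, gB_lt (by omega)]
    obtain ⟨r1, hr1⟩ : ∃ r1 : ℝ, r1 = Real.exp (|lam μ s| + |Γ.h| * |sl μ s|) := ⟨_, rfl⟩
    obtain ⟨p1, hp1⟩ : ∃ p1 : ℝ, p1 = Real.exp (|s| + |Γ.h|) := ⟨_, rfl⟩
    have hp1' : Γ.p (c.1 + n) ≤ p1 := by
      rw [hp1]
      rcases lt_or_ge (c.1 + n) Γ.M with h1 | h1
      · rw [p_lt hs h1]
        exact Real.exp_le_exp.2 (add_le_add (le_abs_self _) (le_abs_self _))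
      · rw [p_ge hs h1]
        exact Real.exp_le_exp.2 (by have := le_abs_self s; have := abs_nonneg Γ.h; linarith)
    have hγe : ∀ y z : ℤ, γ e y ≤ r1 * γ (c.1 + n) z := by
      intro y z
      have h1 := g.step (c.1 + n) 1 z y (by omega)
      rw [← he2] at h1
      rw [h1, hr1, mul_comm]
      refine mul_le_mul_of_nonneg_right (Real.exp_le_exp.2 ?_) (g.pos _ _).le
      have h2 : (bl Γ.M (c.1 + n) 1 : ℝ) ≤ 1 := by
        have : bl Γ.M (c.1 + n) 1 ≤ 1 := by unfold bl; omega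
        exact_mod_cast this
      have h3 : (0 : ℝ) ≤ (bl Γ.M (c.1 + n) 1 : ℝ) := Nat.cast_nonneg _
      have h4 : |Γ.h * sl μ s * (bl Γ.M (c.1 + n) 1 : ℝ)| ≤ |Γ.h| * |sl μ s| := by
        rw [abs_mul, abs_mul, abs_of_nonneg h3]
        exact mul_le_of_le_one_right (by positivity) h2
      have h5 := neg_abs_le (Γ.h * sl μ s * (bl Γ.M (c.1 + n) 1 : ℝ))
      have h6 := neg_abs_le (lam μ s)
      push_cast
      linarith
    have term : ∀ y, ker (kw (sp G u κ b)ᶜ (wt ω)) Γ.p c.1 (n + 1) c.2 y * gB γ e ω e y ≤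
        r1 * (ker (kw (sp G u κ b)ᶜ (wt ω)) Γ.p c.1 n c.2 y * gg γ ω (c.1 + n) y) +
        r1 * p1 * (ker (kw (sp G u κ b)ᶜ (wt ω)) Γ.p c.1 n c.2 (y - 1) * gg γ ω (c.1 + n) (y - 1)) := by
      intro y
      rw [gB_end, ker_succ, add_mul]
      have k1 := Cmp71.ker_nn hkn Γ.p_pos c.1 n c.2 y
      have k2 := Cmp71.ker_nn hkn Γ.p_pos c.1 n c.2 (y - 1)
      have hγp := (g.pos e y).le
      refine add_le_add ?_ ?_
      · calc kw (sp G u κ b)ᶜ (wt ω) (c.1 + n) y * ker (kw (sp G u κ b)ᶜ (wt ω)) Γ.p c.1 n c.2 y * γ e y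
            ≤ wt ω (c.1 + n) y * ker (kw (sp G u κ b)ᶜ (wt ω)) Γ.p c.1 n c.2 y * (r1 * γ (c.1 + n) y) :=
              mul_le_mul (mul_le_mul_of_nonneg_right (hkl _ _) k1) (hγe y y) hγp (mul_nonneg (wt_pos ω _ _).le k1)
          _ = _ := by unfold gg; ring
      · have hpp := (Γ.p_pos (c.1 + n)).le
        have q1 : Γ.p (c.1 + n) * (kw (sp G u κ b)ᶜ (wt ω) (c.1 + n) (y - 1) * ker (kw (sp G u κ b)ᶜ (wt ω)) Γ.p c.1 n c.2 (y - 1)) ≤
            p1 * (wt ω (c.1 + n) (y - 1) * ker (kw (sp G u κ b)ᶜ (wt ω)) Γ.p c.1 n c.2 (y - 1)) :=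
          mul_le_mul hp1' (mul_le_mul_of_nonneg_right (hkl _ _) k2) (mul_nonneg (hkn _ _) k2) (hpp.trans hp1')
        calc Γ.p (c.1 + n) * (kw (sp G u κ b)ᶜ (wt ω) (c.1 + n) (y - 1) * ker (kw (sp G u κ b)ᶜ (wt ω)) Γ.p c.1 n c.2 (y - 1)) * γ e y
            ≤ p1 * (wt ω (c.1 + n) (y - 1) * ker (kw (sp G u κ b)ᶜ (wt ω)) Γ.p c.1 n c.2 (y - 1)) * (r1 * γ (c.1 + n) (y - 1)) :=
              mul_le_mul q1 (hγe y (y - 1)) hγp (mul_nonneg (hpp.trans hp1') (mul_nonneg (wt_pos ω _ _).le k2))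
          _ = _ := by unfold gg; ring
    have m1 := main c hc n (by omega) (Icc c.2 (c.2 + ((n + 1 : ℕ) : ℤ))) 0 (fun y _ => abs_nonneg _)
    have m2 := main c hc n (by omega) ((Icc c.2 (c.2 + ((n + 1 : ℕ) : ℤ))).image fun y => y - 1) 0 (fun y _ => abs_nonneg _)
    rw [sum_image fun a _ b _ hab => by simpa using hab] at m2
    simp only [mul_zero, sub_zero] at m1 m2
    have hr1p : 0 ≤ r1 := by rw [hr1]; exact (Real.exp_pos _).le
    have hp1p : 0 ≤ p1 := by rw [hp1]; exact (Real.exp_pos _).le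
    calc ∑ y ∈ Icc c.2 (c.2 + ((n + 1 : ℕ) : ℤ)), ker (kw (sp G u κ b)ᶜ (wt ω)) Γ.p c.1 (n + 1) c.2 y * gB γ e ω e y
        ≤ ∑ y ∈ Icc c.2 (c.2 + ((n + 1 : ℕ) : ℤ)), (r1 * (ker (kw (sp G u κ b)ᶜ (wt ω)) Γ.p c.1 n c.2 y * gg γ ω (c.1 + n) y) +
            r1 * p1 * (ker (kw (sp G u κ b)ᶜ (wt ω)) Γ.p c.1 n c.2 (y - 1) * gg γ ω (c.1 + n) (y - 1))) := sum_le_sum fun y _ => term y
      _ = r1 * (∑ y ∈ Icc c.2 (c.2 + ((n + 1 : ℕ) : ℤ)), ker (kw (sp G u κ b)ᶜ (wt ω)) Γ.p c.1 n c.2 y * gg γ ω (c.1 + n) y) +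
            r1 * p1 * ∑ y ∈ Icc c.2 (c.2 + ((n + 1 : ℕ) : ℤ)), ker (kw (sp G u κ b)ᶜ (wt ω)) Γ.p c.1 n c.2 (y - 1) * gg γ ω (c.1 + n) (y - 1) := by
          rw [sum_add_distrib, mul_sum, mul_sum]
      _ ≤ r1 * (4 * Real.exp (2 * V') * gg γ ω c.1 c.2) + r1 * p1 * (4 * Real.exp (2 * V') * gg γ ω c.1 c.2) :=
          add_le_add (mul_le_mul_of_nonneg_left m1 hr1p) (mul_le_mul_of_nonneg_left m2 (mul_nonneg hr1p hp1p))
      _ = c0s μ s Γ * (4 * Real.exp (2 * V')) * (wt ω c.1 c.2 * γ c.1 c.2) := by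
          unfold c0s gg
          rw [← hr1, ← hp1]
          ring
  · -- the exits
    have hr := rim_row hc
    have hl := rim_lat hv0 hv1 hc
    obtain ⟨B, hB⟩ : ∃ B : ℝ, B = 4 * Real.exp (2 * V' - τ * (b * G.w u - G.kw * G.w u - 2)) * gg γ ω c.1 c.2 := ⟨_, rfl⟩
    have hB0 : 0 ≤ B := by
      rw [hB]
      have := gg_pos g.pos ω c.1 c.2
      positivity
    have key := exm_le (w := wt ω) (p := Γ.p) (g := gB γ e ω) (e := e) hreg.next hreg.sub (hreg.rim hc) hB0 (fun i y hi hy hyD => by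
      have h1 : gB γ e ω (c.1 + i) y = gg γ ω (c.1 + i) y := gB_lt (by omega) y
      rw [h1]
      have h2 := main c hc i (by omega) {y} (b * G.w u - G.kw * G.w u - 2) (fun z hz => by
        rw [mem_singleton] at hz
        rw [hz]
        have h3 : b * G.w u < |G.lat (c.1 + i, y) - G.ctr u κ| := not_le.1 hyD
        have h4 : G.lat (c.1 + i, y) - G.ctr u κ = (G.lat c - G.ctr u κ) + (((y - c.2 : ℤ) : ℝ) - sl μ s * i) := hℓ c.1 i c.2 y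
        rw [h4] at h3
        have h5 := abs_add_le (G.lat c - G.ctr u κ) (((y - c.2 : ℤ) : ℝ) - sl μ s * i)
        linarith)
      rw [sum_singleton] at h2
      rw [hB]
      exact h2)
    refine key.trans ?_
    have hea : ((e - c.1 : ℕ) : ℝ) ≤ ((e - a : ℕ) : ℝ) := by
      have : e - c.1 ≤ e - a := by omega
      exact_mod_cast this
    have h0 : (0 : ℝ) ≤ ((e - c.1 : ℕ) : ℝ) := Nat.cast_nonneg _
    rw [gB_lt (show c.1 < e by omega)]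
    calc ((e - c.1 : ℕ) : ℝ) * (((e - c.1 : ℕ) : ℝ) + 1) * B ≤ ((e - a : ℕ) : ℝ) * (((e - a : ℕ) : ℝ) + 1) * B := by
          refine mul_le_mul_of_nonneg_right ?_ hB0
          exact mul_le_mul hea (by linarith) (by linarith) (h0.trans hea)
      _ = _ := by rw [hB]; unfold gg; ring

end

end Pool.Agent.W_7d29a1_C1.RB22
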