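import Pool.Agent.W_7d29a1_C1.LoP18
import Pool.Agent.W_7d29a1_C1.BrR22
import Pool.Agent.W_7d29a1_C1.BrK32

/-!
MP_7d29a1_pr, [C1] SEP, THE LOWER KERNELS FROM THE RIM AT THE WINDOW `(u, κ)`. (helper18)

Block of the rows `(a, e)` inside the window, base `bp18 a` = the site of the row `a` on the slope line through the centre.
`rim18` : the rim of the block is contained in `Rm18`. `lob18` : `LoE18` at the base `bp18` gives helper22's `LoB`, any gauge `Gau`, the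
switch row anywhere.
-/

set_option autoImplicit false

namespace Pool.Agent.W_7d29a1_C1.GL18

open MeasureTheory ProbabilityTheory Filter Topology
open Pool.Agent.W_7d29a1_F Pool.Agent.W_7d29a1_h4g Pool.Agent.W_7d29a1_H Pool.Agent.W_7d29a1_HS
open Pool.Agent.W_7d29a1_HL (cS)
open Pool.Agent.W_7d29a1_C1.U16 (lat16)
open Pool.Agent.W_7d29a1_C1.G37 (Gm)
open Pool.Agent.W_7d29a1_C1.O22 (Bw)
open Pool.Agent.W_7d29a1_C1.H60 (Cx)
open Pool.Agent.W_7d29a1_C1.K91 (wt wt_pos)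
open Pool.Agent.W_7d29a1_C1.U16 (ker ker_succ ker_nonneg)
open Pool.Agent.W_7d29a1_C1.FarW89 (bl bl_add)
open Pool.Agent.W_7d29a1_C1.Rt22 (Rim)
open Pool.Agent.W_7d29a1_C1.RB22 (Bk LoB gB Gau p_lt p_ge rim_row gB_lt)

noncomputable section

variable {μ : Measure ℝ} {s c : ℝ} {G : Gm} {u : ℕ} {κ : ℤ × ℤ}

/-- The base of a block. -/
def bp18 (G : Gm) (u : ℕ) (κ : ℤ × ℤ) (a : ℕ) : Pt := ((a : ℤ), ⌊G.ctr u κ + G.v * (a : ℝ)⌋)

/-- The lateral coordinate of the block. -/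
theorem lat_bp (hs : G.v = sl μ s) (a : ℕ) (k : ℕ) (y : ℤ) : |lat16 μ s (bp18 G u κ a) (((k : ℤ), y) : Pt) - (G.lat (k, y) - G.ctr u κ)| ≤ 1 := by
  have f1 := Int.floor_le (G.ctr u κ + G.v * (a : ℝ))
  have f2 := Int.lt_floor_add_one (G.ctr u κ + G.v * (a : ℝ))
  unfold lat16 bp18 Gm.lat
  rw [← hs]
  push_cast
  rw [abs_le]
  constructor <;> linarith

/-- The lateral coordinate of the window. -/
theorem lat_base (k : ℕ) (y : ℤ) :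
    |((y : ℝ) - ((G.base u κ).2 : ℝ)) - G.v * ((k : ℝ) - ((G.base u κ).1 : ℝ)) - (G.lat (k, y) - G.ctr u κ)| ≤ 1 := by
  have e1 : ((G.base u κ).1 : ℝ) = (G.rcc u κ : ℝ) + (G.T (u - 1) : ℝ) := by
    show ((G.rcc u κ + G.T (u - 1) : ℤ) : ℝ) = _
    push_cast
    ring
  have f1 := Int.floor_le (G.ctr u κ + G.v * ((G.rcc u κ : ℝ) + (G.T (u - 1) : ℝ)))
  have f2 := Int.lt_floor_add_one (G.ctr u κ + G.v * ((G.rcc u κ : ℝ) + (G.T (u - 1) : ℝ)))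
  have e2 : ((G.base u κ).2 : ℝ) = (⌊G.ctr u κ + G.v * ((G.rcc u κ : ℝ) + (G.T (u - 1) : ℝ))⌋ : ℝ) := rfl
  rw [e1, e2]
  unfold Gm.lat
  rw [abs_le]
  constructor <;> linarith

/-- The finer form: both roundings are of the same sign. -/
theorem lat_two (hs : G.v = sl μ s) (a : ℕ) (k : ℕ) (y : ℤ) : |lat16 μ s (bp18 G u κ a) (((k : ℤ), y) : Pt) -
    (((y : ℝ) - ((G.base u κ).2 : ℝ)) - G.v * ((k : ℝ) - ((G.base u κ).1 : ℝ)))| ≤ 1 := by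
  have e1 : ((G.base u κ).1 : ℝ) = (G.rcc u κ : ℝ) + (G.T (u - 1) : ℝ) := by
    show ((G.rcc u κ + G.T (u - 1) : ℤ) : ℝ) = _
    push_cast
    ring
  have f1 := Int.floor_le (G.ctr u κ + G.v * ((G.rcc u κ : ℝ) + (G.T (u - 1) : ℝ)))
  have f2 := Int.lt_floor_add_one (G.ctr u κ + G.v * ((G.rcc u κ : ℝ) + (G.T (u - 1) : ℝ)))
  have g1 := Int.floor_le (G.ctr u κ + G.v * (a : ℝ))
  have g2 := Int.lt_floor_add_one (G.ctr u κ + G.v * (a : ℝ))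
  have e2 : ((G.base u κ).2 : ℝ) = (⌊G.ctr u κ + G.v * ((G.rcc u κ : ℝ) + (G.T (u - 1) : ℝ))⌋ : ℝ) := rfl
  rw [e1, e2]
  unfold lat16 bp18
  rw [← hs]
  push_cast
  rw [abs_le]
  constructor <;> linarith

/-- **THE RIM OF A BLOCK** of the window. -/
theorem rim18 (hv0 : 0 ≤ G.v) (hv1 : G.v ≤ 1) (hs : G.v = sl μ s) (h0 : 0 ≤ G.rcc u κ) {a e : ℕ} (ha : G.ra u κ ≤ a + 1)
    (he : e ≤ G.re u κ) {k : ℕ} {x : ℤ} (h1 : a ≤ k) (h2 : k + 1 < e) (h3 : k = a ∨ (k, x) ∉ Bw G u κ)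
    (h4 : (k + 1, x) ∈ Bw G u κ ∨ (k + 1, x + 1) ∈ Bw G u κ) :
    (((k : ℤ), x) : Pt) ∈ Rm18 μ s (G.kw * G.w u) (bp18 G u κ a) (e - 1 - a) := by
  have hra := G.ra_cast h0
  have hre := G.re_cast h0
  have hlat := lat_two (μ := μ) (s := s) (G := G) (u := u) (κ := κ) hs a k x
  have key : ∀ z : ℤ, z = x ∨ z = x + 1 → (k + 1, z) ∈ Bw G u κ →
      |((x : ℝ) - ((G.base u κ).2 : ℝ)) - G.v * ((k : ℝ) - ((G.base u κ).1 : ℝ))| ≤ G.kw * G.w u + 1 := by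
    intro z hz hB
    obtain ⟨-, -, h5⟩ := hB
    simp only at h5
    push_cast at h5
    rw [abs_le] at h5 ⊢
    rcases hz with rfl | rfl
    · constructor <;> linarith [h5.1, h5.2]
    · push_cast at h5
      constructor <;> linarith [h5.1, h5.2]
  have hup : |((x : ℝ) - ((G.base u κ).2 : ℝ)) - G.v * ((k : ℝ) - ((G.base u κ).1 : ℝ))| ≤ G.kw * G.w u + 1 := by
    rcases h4 with h | h
    · exact key x (Or.inl rfl) h
    · exact key (x + 1) (Or.inr rfl) h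
  refine ⟨?_, ?_, ?_, ?_⟩
  · show (a : ℤ) ≤ (k : ℤ)
    exact_mod_cast h1
  · show (k : ℤ) < (a : ℤ) + ((e - 1 - a : ℕ) : ℤ)
    omega
  · rw [abs_le] at hup hlat ⊢
    constructor <;> linarith [hup.1, hup.2, hlat.1, hlat.2]
  · rcases h3 with h3 | h3
    · left
      show (k : ℤ) = (a : ℤ)
      rw [h3]
    · by_cases hka : k = a
      · left
        show (k : ℤ) = (a : ℤ)
        rw [hka]
      · right
        have h5 : G.kw * G.w u < |((x : ℝ) - ((G.base u κ).2 : ℝ)) - G.v * ((k : ℝ) - ((G.base u κ).1 : ℝ))| := by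
          by_contra hcon
          rw [not_lt] at hcon
          refine h3 ⟨?_, ?_, ?_⟩
          · show G.rcc u κ + G.T (u - 1) < (k : ℤ)
            omega
          · show (k : ℤ) ≤ G.rcc u κ + G.T u
            omega
          · exact_mod_cast hcon
        have h6 : |((x : ℝ) - ((G.base u κ).2 : ℝ)) - G.v * ((k : ℝ) - ((G.base u κ).1 : ℝ))| ≤
            |lat16 μ s (bp18 G u κ a) (((k : ℤ), x) : Pt)| + |lat16 μ s (bp18 G u κ a) (((k : ℤ), x) : Pt) -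
              (((x : ℝ) - ((G.base u κ).2 : ℝ)) - G.v * ((k : ℝ) - ((G.base u κ).1 : ℝ)))| := by
          have := abs_sub_abs_le_abs_sub (((x : ℝ) - ((G.base u κ).2 : ℝ)) - G.v * ((k : ℝ) - ((G.base u κ).1 : ℝ)))
            (lat16 μ s (bp18 G u κ a) (((k : ℤ), x) : Pt))
          rw [abs_sub_comm (((x : ℝ) - ((G.base u κ).2 : ℝ)) - G.v * ((k : ℝ) - ((G.base u κ).1 : ℝ)))] at this
          linarith
        linarith

/-- **`LoB` FROM `LoE18`.** -/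
theorem lob18 {Γ : Cx} {γ : ℕ → ℤ → ℝ} (hs : Γ.s = s) (hv : G.v = sl μ s) (g : Gau μ s Γ γ) (hv0 : 0 ≤ G.v) (hv1 : G.v ≤ 1)
    (h0 : 0 ≤ G.rcc u κ) {a e : ℕ} (ha : G.ra u κ ≤ a + 1) (he : e ≤ G.re u κ) (heN : e ≤ Γ.N) {b ρ Q U : ℝ} {n : ℕ} {A : Set Pt}
    (hρ0 : 0 ≤ ρ) (hρ : ρ + 1 ≤ b * G.w u) (hkw : 0 ≤ G.kw * G.w u) {ω : Env}
    (hω : ω ∈ LoE18 μ s (G.kw * G.w u) ρ n (e - 1 - a) (bp18 G u κ a) A Q)
    (hU : Q * EE μ s n + |Γ.h| * (ρ + G.kw * G.w u + 3) + |lam μ s| + |Γ.h * sl μ s| ≤ U) :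
    ω ∈ LoB Γ G γ b U u κ a e := by
  classical
  intro cc hc
  obtain ⟨k, x⟩ := cc
  obtain ⟨hk1, hk2⟩ := rim_row hc
  dsimp only at hk1 hk2
  have hp0 : ∀ k, 0 < Γ.p k := fun k => by
    unfold Cx.p
    split_ifs
    · exact Real.exp_pos _
    · exact Real.exp_pos _
  -- the rim
  have h3 : k = a ∨ (k, x) ∉ Bw G u κ := by
    by_cases hka : k = a
    · exact Or.inl hka
    · right
      intro hcon
      exact hc.2.1 ⟨hcon, by show a < k; omega, by show k < e; omega⟩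
  have h4 : (k + 1, x) ∈ Bw G u κ ∨ (k + 1, x + 1) ∈ Bw G u κ := hc.2.2.imp (fun h => h.1) fun h => h.1
  have hrim := rim18 (μ := μ) (s := s) hv0 hv1 hv h0 ha he hk1 hk2 h3 h4
  obtain ⟨hR1, hR2, hR3, -⟩ := hrim
  have hlow := hω _ (rim18 (μ := μ) (s := s) hv0 hv1 hv h0 ha he hk1 hk2 h3 h4)
  obtain ⟨l, hl⟩ : ∃ l : ℕ, l = e - 1 - k := ⟨_, rfl⟩
  have hl1 : 1 ≤ l := by omega
  have e1 : ((bp18 G u κ a).1 + ((e - 1 - a : ℕ) : ℤ) - ((((k : ℤ), x) : Pt)).1).toNat = l := by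
    show ((a : ℤ) + ((e - 1 - a : ℕ) : ℤ) - (k : ℤ)).toNat = l
    omega
  rw [e1] at hlow
  obtain ⟨R, hR⟩ : ∃ R : Set Pt, R = SA μ s ρ (bp18 G u κ a) A := ⟨_, rfl⟩
  rw [← hR] at hlow
  obtain ⟨m, n', hmn, hmM, hM⟩ : ∃ m n' : ℕ, l = m + n' ∧ (m = 0 ∨ k + m ≤ Γ.M) ∧ (n' = 0 ∨ Γ.M ≤ k + m) := by
    refine ⟨min l (Γ.M - k), l - min l (Γ.M - k), by omega, ?_, ?_⟩ <;> omega
  have hbl : bl Γ.M k l = m := by
    unfold bl
    omega
  -- one end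
  have one : ∀ y : ℤ, wt ω k x * (Real.exp ((l : ℝ) * lam μ s + Γ.h * sl μ s * m - |Γ.h| * (ρ + G.kw * G.w u + 3)) *
      WR μ s R ω ((k : ℤ), x) l y) ≤ ker (wt ω) Γ.p k (l + 1) x (x + y) := by
    intro y
    have h5 := Pool.Agent.W_7d29a1_C1.Br32.wr_le_ker (μ := μ) (s := s) (h := Γ.h) (R := R) (p := Γ.p) (i := k) (x := x) (m := m) (n := n')
      (K := ρ + G.kw * G.w u + 3) (v := sl μ s) (y := x + y) hp0 ω (by linarith)
      (fun j g1 g2 => p_lt hs (by omega)) (fun j g1 g2 => by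
        have := p_ge hs (k := j) (show Γ.M ≤ j by omega)
        rwa [add_zero] at this)
      (fun _ z hz => by
        rw [hR] at hz
        have h6 : |lat16 μ s (bp18 G u κ a) ((((k + m : ℕ) : ℤ), z) : Pt)| ≤ ρ := hz.1
        have e2 : ((z - x : ℤ) : ℝ) - sl μ s * m = lat16 μ s (bp18 G u κ a) ((((k + m : ℕ) : ℤ), z) : Pt) -
            lat16 μ s (bp18 G u κ a) (((k : ℤ), x) : Pt) := by
          unfold lat16
          push_cast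
          ring
        rw [e2]
        rw [abs_le] at h6 hR3 ⊢
        constructor <;> linarith [h6.1, h6.2, hR3.1, hR3.2])
    rw [← hmn] at h5
    have e3 : x + y - x = y := by ring
    rw [e3] at h5
    refine h5.trans ?_
    rw [ker_succ]
    have h7 : 0 ≤ Γ.p (k + l) * (wt ω (k + l) (x + y - 1) * ker (wt ω) Γ.p k l x (x + y - 1)) :=
      mul_nonneg (hp0 _).le (mul_nonneg (wt_pos ω _ _).le (ker_nonneg (wt_pos ω) hp0 _ _ _ _))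
    rw [mul_comm (ker (wt ω) Γ.p k l x (x + y))]
    linarith
  -- the ends
  obtain ⟨Y, hY⟩ : ∃ Y : Finset ℤ, Y = (Finset.Icc (0 : ℤ) l).filter fun y => ((((k : ℤ) + (l : ℤ)), x + y) : Pt) ∈ R := ⟨_, rfl⟩
  have hcS : cS μ s R ω ((k : ℤ), x) l = ∑ y ∈ Y, WR μ s R ω ((k : ℤ), x) l y := by
    unfold cS
    rw [hY, Finset.sum_filter]
    refine Finset.sum_congr rfl fun y _ => ?_
    split_ifs with h8
    · rfl
    · exact WR_out18 R ω _ hl1 h8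
  refine ⟨Y.image (fun y => x + y), ?_, ?_⟩
  · intro v hv'
    obtain ⟨y, hy, rfl⟩ := Finset.mem_image.1 hv'
    rw [hY, Finset.mem_filter] at hy
    have h9 := hy.2
    rw [hR] at h9
    have h10 : |lat16 μ s (bp18 G u κ a) (((k : ℤ) + (l : ℤ), x + y) : Pt)| ≤ ρ := h9.1
    have e4 : ((k : ℤ) + (l : ℤ)) = ((e - 1 : ℕ) : ℤ) := by omega
    rw [e4] at h10
    have h11 := lat_bp (μ := μ) (s := s) (G := G) (u := u) (κ := κ) hv a (e - 1) (x + y)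
    have e5 : G.lat (e, x + y) = G.lat (e - 1, x + y) - G.v := by
      unfold Gm.lat
      have : ((e - 1 : ℕ) : ℝ) = (e : ℝ) - 1 := by
        rw [Nat.cast_sub (by omega)]
        simp
      simp only [this]
      ring
    rw [e5]
    rw [abs_le] at h10 h11 ⊢
    constructor <;> linarith [h10.1, h10.2, h11.1, h11.2]
  · rw [Finset.sum_image (fun y _ y' _ hyy => add_left_cancel hyy)]
    have e6 : e - k = l + 1 := by omega
    dsimp only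
    rw [e6, gB_lt (show k < e by omega)]
    -- the gauge
    have hst : ∀ z : ℤ, γ e z = γ k x * Real.exp (-(((l + 1 : ℕ) : ℝ) * lam μ s + Γ.h * sl μ s * bl Γ.M k (l + 1))) := by
      intro z
      have h12 := g.step k (l + 1) x z (by omega)
      have e7 : k + (l + 1) = e := by omega
      rwa [e7] at h12
    have hbl2 : (bl Γ.M k (l + 1) : ℝ) - m ≤ 1 ∧ 0 ≤ (bl Γ.M k (l + 1) : ℝ) - m := by
      have h13 : bl Γ.M k (l + 1) ≤ m + 1 ∧ m ≤ bl Γ.M k (l + 1) := by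
        rw [← hbl]
        unfold bl
        omega
      constructor
      · have : (bl Γ.M k (l + 1) : ℝ) ≤ m + 1 := by exact_mod_cast h13.1
        linarith
      · have : (m : ℝ) ≤ bl Γ.M k (l + 1) := by exact_mod_cast h13.2
        linarith
    have hx := g.pos k x
    have key : Real.exp (-U) * (wt ω k x * γ k x) ≤ ∑ y ∈ Y, (wt ω k x * (Real.exp ((l : ℝ) * lam μ s + Γ.h * sl μ s * m -
        |Γ.h| * (ρ + G.kw * G.w u + 3)) * WR μ s R ω ((k : ℤ), x) l y)) * (γ k x *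
        Real.exp (-(((l + 1 : ℕ) : ℝ) * lam μ s + Γ.h * sl μ s * bl Γ.M k (l + 1)))) := by
      have e8 : ∑ y ∈ Y, (wt ω k x * (Real.exp ((l : ℝ) * lam μ s + Γ.h * sl μ s * m -
          |Γ.h| * (ρ + G.kw * G.w u + 3)) * WR μ s R ω ((k : ℤ), x) l y)) * (γ k x *
          Real.exp (-(((l + 1 : ℕ) : ℝ) * lam μ s + Γ.h * sl μ s * bl Γ.M k (l + 1)))) =
          (wt ω k x * γ k x) * (Real.exp ((l : ℝ) * lam μ s + Γ.h * sl μ s * m - |Γ.h| * (ρ + G.kw * G.w u + 3) +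
            -(((l + 1 : ℕ) : ℝ) * lam μ s + Γ.h * sl μ s * bl Γ.M k (l + 1))) * ∑ y ∈ Y, WR μ s R ω ((k : ℤ), x) l y) := by
        rw [Real.exp_add, Finset.mul_sum, Finset.mul_sum]
        refine Finset.sum_congr rfl fun y _ => ?_
        ring
      rw [e8, ← hcS, mul_comm (Real.exp (-U))]
      refine mul_le_mul_of_nonneg_left ?_ (mul_pos (wt_pos ω k x) hx).le
      refine le_trans ?_ (mul_le_mul_of_nonneg_left hlow (Real.exp_pos _).le)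
      rw [← Real.exp_add]
      refine Real.exp_le_exp.2 ?_
      have h14 := le_abs_self (lam μ s)
      have h15 := le_abs_self (Γ.h * sl μ s)
      have h16 := neg_abs_le (Γ.h * sl μ s)
      have h17 : Γ.h * sl μ s * ((bl Γ.M k (l + 1) : ℝ) - m) ≤ |Γ.h * sl μ s| := by
        have h18 := mul_le_mul_of_nonneg_right h15 hbl2.2
        have h19 := mul_le_mul_of_nonneg_left hbl2.1 (abs_nonneg (Γ.h * sl μ s))
        linarith
      push_cast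
      nlinarith
    refine key.trans (Finset.sum_le_sum fun y _ => ?_)
    rw [hst (x + y)]
    exact mul_le_mul_of_nonneg_right (one y) (mul_pos hx (Real.exp_pos _)).le

/-! ### The set at the window -/

/-- **THE LOWER KERNELS OF THE BLOCK `(a, e)` OFF `A`.** -/
def Lw18 (μ : Measure ℝ) (s : ℝ) (G : Gm) (u : ℕ) (κ : ℤ × ℤ) (a e : ℕ) (ρ : ℝ) (A : Set Pt) (Q : ℝ) : Set Env :=
  LoE18 μ s (G.kw * G.w u) (ρ * G.w u) (G.T u) (e - 1 - a) (bp18 G u κ a) A Q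

theorem lw18_off (a e : ℕ) (ρ : ℝ) (A : Set Pt) (Q : ℝ) : Pool.Agent.W_7d29a1_C1.S71.Off A (Lw18 μ s G u κ a e ρ A Q) :=
  loe18_off _ _ _ _ _ _ _

theorem lw18_meas (a e : ℕ) (ρ : ℝ) (A : Set Pt) (Q : ℝ) : MeasurableSet (Lw18 μ s G u κ a e ρ A Q) :=
  loe18_meas _ _ _ _ _ _ _

/-- It reads the rows `a < row < e`. -/
theorem lw18_rows {a e : ℕ} {ρ : ℝ} {A : Set Pt} {Q : ℝ} {η η' : Env}
    (h : ∀ p : Pt, (a : ℤ) < p.1 → p.1 < (e : ℤ) → η p = η' p) : η ∈ Lw18 μ s G u κ a e ρ A Q ↔ η' ∈ Lw18 μ s G u κ a e ρ A Q := by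
  refine loe18_rows fun p hp => h p hp.1 ?_
  have h1 : (a : ℤ) < p.1 := hp.1
  have h2 : p.1 ≤ (a : ℤ) + ((e - 1 - a : ℕ) : ℤ) := hp.2
  omega

theorem lw18_off_rows (a e : ℕ) (ρ : ℝ) (A : Set Pt) (Q : ℝ) :
    Pool.Agent.W_7d29a1_C1.S71.Off {p : Pt | ¬ ((a : ℤ) < p.1 ∧ p.1 < (e : ℤ))} (Lw18 μ s G u κ a e ρ A Q) := by
  intro η η' h
  exact lw18_rows fun p h1 h2 => h p fun h3 => h3 ⟨h1, h2⟩

theorem lw18_mono [IsProbabilityMeasure μ] {a e : ℕ} {ρ : ℝ} {A : Set Pt} {Q Q' : ℝ} (hQ : Q ≤ Q') :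
    Lw18 μ s G u κ a e ρ A Q ⊆ Lw18 μ s G u κ a e ρ A Q' := by
  intro η hη p hp
  refine le_trans (Real.exp_le_exp.2 ?_) (hη p hp)
  have := EE_pos (μ := μ) (s := s) (G.T u)
  nlinarith

/-- Fewer sites to avoid. -/
theorem lw18_anti {a e : ℕ} {ρ : ℝ} {A A' : Set Pt} {Q : ℝ} (hA : A' ⊆ A) :
    Lw18 μ s G u κ a e ρ A Q ⊆ Lw18 μ s G u κ a e ρ A' Q := by
  intro η hη p hp
  exact (hη p hp).trans (cS_mono18 fun q hq _ _ => ⟨hq.1, fun h1 => hq.2 (hA h1)⟩)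

theorem lw18_lob {Γ : Cx} {γ : ℕ → ℤ → ℝ} (hs : Γ.s = s) (hv : G.v = sl μ s) (g : Gau μ s Γ γ) (hv0 : 0 ≤ G.v) (hv1 : G.v ≤ 1)
    (h0 : 0 ≤ G.rcc u κ) {a e : ℕ} (ha : G.ra u κ ≤ a + 1) (he : e ≤ G.re u κ) (heN : e ≤ Γ.N) {b ρ Q U : ℝ} {A : Set Pt}
    (hρ0 : 0 ≤ ρ) (hρ : ρ * G.w u + 1 ≤ b * G.w u)
    (hU : Q * EE μ s (G.T u) + |Γ.h| * (ρ * G.w u + G.kw * G.w u + 3) + |lam μ s| + |Γ.h * sl μ s| ≤ U) :
    Lw18 μ s G u κ a e ρ A Q ⊆ LoB Γ G γ b U u κ a e := fun _ hω =>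
  lob18 hs hv g hv0 hv1 h0 ha he heN (mul_nonneg hρ0 (G.w_pos u).le) hρ (mul_nonneg G.kw_nonneg (G.w_pos u).le) hω hU

/-- **THE PROBABILITY** at all windows. -/
theorem lw18_prob [IsProbabilityMeasure μ] {C : ℝ} {n₀ : ℕ} (h : In μ s c C n₀) {ε : ℝ} (hε : 0 < ε) : ∃ κ' : ℝ, 0 ≤ κ' ∧
    ∀ (k θ : ℝ), 0 ≤ k → 0 < θ → θ ≤ 1 → ∃ R Q : ℝ, 0 ≤ R ∧ 0 ≤ Q ∧ ∃ n₁ : ℕ, ∀ (G : Gm) (u : ℕ) (κ : ℤ × ℤ) (a e T : ℕ) (ρ : ℝ)
      (A : Set Pt), G.w u = wd μ s (G.T u) → n₁ ≤ G.T u → G.kw ≤ k → R ≤ ρ → e ≤ a + 1 + G.T u → a + 1 + T < e → θ * G.T u ≤ T →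
        (∀ p ∈ A, (a : ℤ) + T < p.1 ∧ |lat16 μ s (bp18 G u κ a) p| ≤ G.kw * G.w u - κ' * G.w u) →
          (law μ).real (Lw18 μ s G u κ a e ρ A Q)ᶜ ≤ ε := by
  obtain ⟨κ', hκ', hp⟩ := loe18_prob h hε
  refine ⟨κ', hκ', fun k θ hk hθ hθ1 => ?_⟩
  obtain ⟨R, Q, hR, hQ, n₁, hn⟩ := hp k θ hk hθ hθ1
  refine ⟨R, Q, hR, hQ, n₁, fun G u κ a e T ρ A hw hT hkw hρ he hTe hθT hA => ?_⟩
  have hw0 := G.w_pos u
  refine hn (G.T u) hT (e - 1 - a) T (by omega) (by omega) hθT (G.kw * G.w u) (ρ * G.w u) (mul_nonneg G.kw_nonneg hw0.le) ?_ ?_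
    (bp18 G u κ a) A ?_
  · rw [← hw]
    exact mul_le_mul_of_nonneg_right hkw hw0.le
  · rw [← hw]
    exact mul_le_mul_of_nonneg_right hρ hw0.le
  · intro p hp'
    refine ⟨(hA p hp').1, ?_⟩
    rw [← hw]
    exact (hA p hp').2

end

end Pool.Agent.W_7d29a1_C1.GL18
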