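import Pool.Agent.W_7d29a1_C1.FunA20

/-!
MP_7d29a1_pr, [C1], resampled WINDOWS: definitions. (helper69)

The slab has `T = N n` rows `(0, T]`; the resampled window is `Bx69 ω T = rows (0, T] × |x - sl t| ≤ ω` (other base points through `sh`).
`MF69 R η a n F` = mass of the paths with `n` steps from `a` in `R`, with the future profile `F` at the last row.
`PW69 R h T m D b` = pointwise bounds (and total mass) of the kernels in `R`, from all the starts of the window `D`, at most `m` steps.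
-/

set_option autoImplicit false

namespace Pool.Agent.W_7d29a1_C1

open MeasureTheory ProbabilityTheory Filter Topology
open Pool.Agent.W_7d29a1_F Pool.Agent.W_7d29a1_h4g Pool.Agent.W_7d29a1_H Pool.Agent.W_7d29a1_HS
open Pool.Agent.W_7d29a1_HL (cS)

noncomputable section

/-- The window of the rows `(0, T]`. -/
def Bx69 (μ : Measure ℝ) (s ω : ℝ) (T : ℕ) : Set Pt := {p | 0 < p.1 ∧ p.1 ≤ T ∧ |(p.2 : ℝ) - sl μ s * p.1| ≤ ω}

/-- The window of all the rows. -/
def Wx69 (μ : Measure ℝ) (s ω : ℝ) : Set Pt := {p | |(p.2 : ℝ) - sl μ s * p.1| ≤ ω}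

/-- The mass of the paths in `R` with `n` steps from `a`, with the future profile `F`. -/
def MF69 (μ : Measure ℝ) (s : ℝ) (R : Set Pt) (η : Env) (a : Pt) (n : ℕ) (F : ℤ → ℝ) : ℝ :=
  ∑ y ∈ Finset.Icc (0 : ℤ) n, WR μ s R η a n y * F (a.2 + y)

/-- Pointwise bounds of the kernels in `R`: starts `(t, x)` of the window `D`, at most `m` steps, inside of the rows `(0, T]`. -/
def PW69 (μ : Measure ℝ) (s : ℝ) (R : Set Pt) (h : ℝ) (T m : ℕ) (D b : ℝ) : Set Env :=
  {η | ∀ (t j : ℕ) (x : ℤ), t + j ≤ T → j ≤ m → |(x : ℝ) - sl μ s * t| ≤ D →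
    cS μ s R η ((t : ℤ), x) j ≤ Real.exp b ∧
      ∀ y : ℤ, WR μ s R η ((t : ℤ), x) j y ≤ Real.exp (b - h * |(y : ℝ) - sl μ s * j|)}

/-- The collars of the lanes `L`: rows `[0, T)`, distance at most `α`. -/
def Co69 {ι : Type*} (L : ι → ℝ → ℝ) (T : ℕ) (α : ℝ) : Set Pt := {p | 0 ≤ p.1 ∧ p.1 < T ∧ ∃ j, |(p.2 : ℝ) - L j p.1| ≤ α}

end

end Pool.Agent.W_7d29a1_C1
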