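import Pool.Agent.W_7d29a1_C1.GeoN37
import Pool.Agent.W_7d29a1_C1.KerP16
import Pool.Agent.W_7d29a1_C1.BoxD69

/-!
MP_7d29a1_pr, the attractor route, separation by moving the contact: THE RESAMPLED WINDOW AND THE MODEL K91P: natural rows of the
window, weights, masses and kernels which do not see the window, the window as a translate of `Bx69`. (helper37)
-/

set_option autoImplicit false

namespace Pool.Agent.W_7d29a1_C1.G37

open MeasureTheory Finset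
open Pool.Agent.W_7d29a1_F Pool.Agent.W_7d29a1_h4g Pool.Agent.W_7d29a1_H Pool.Agent.W_7d29a1_HS
open Pool.Agent.W_7d29a1_C1.S71 Pool.Agent.W_7d29a1_C1.H40
open Pool.Agent.W_7d29a1_C1.K91 (wt wt_pos)
open Pool.Agent.W_7d29a1_C1.K91P (fw bw fw_zero fw_succ bw_zero bw_succ)
open Pool.Agent.W_7d29a1_C1.U16 (ker ker_congr)

noncomputable section

namespace Gm

variable (G : Gm)

/-! ### Natural rows -/

/-- The first resampled row. -/
def ra (u : ℕ) (κ : ℤ × ℤ) : ℕ := (G.rcc u κ).toNat + G.T (u - 1) + 1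

/-- The first row beyond the window. -/
def re (u : ℕ) (κ : ℤ × ℤ) : ℕ := (G.rcc u κ).toNat + G.T u + 1

theorem rcc_pos (u : ℕ) (c : ℕ × ℤ) : 0 < G.rcc u (G.loc u c) :=
  lt_of_le_of_lt (Int.natCast_nonneg _) (G.lt_rcc u c)

theorem rcc_nonneg {u : ℕ} {κ : ℤ × ℤ} (h : ∃ c, G.loc u c = κ) : 0 ≤ G.rcc u κ := by
  obtain ⟨c, rfl⟩ := h
  exact (G.rcc_pos u c).le

theorem ra_cast {u : ℕ} {κ : ℤ × ℤ} (h : 0 ≤ G.rcc u κ) : (G.ra u κ : ℤ) = G.rcc u κ + G.T (u - 1) + 1 := by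
  unfold ra
  push_cast
  rw [Int.toNat_of_nonneg h]

theorem re_cast {u : ℕ} {κ : ℤ × ℤ} (h : 0 ≤ G.rcc u κ) : (G.re u κ : ℤ) = G.rcc u κ + G.T u + 1 := by
  unfold re
  push_cast
  rw [Int.toNat_of_nonneg h]

theorem ra_le_re (u : ℕ) (κ : ℤ × ℤ) : G.ra u κ ≤ G.re u κ := by
  have := G.T_mono (show u - 1 ≤ u by omega)
  unfold ra re
  omega

/-- The number of resampled rows. -/
theorem re_sub_ra (u : ℕ) (κ : ℤ × ℤ) : G.re u κ - G.ra u κ = G.T u - G.T (u - 1) := by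
  unfold ra re
  omega

/-- The contact is below the window. -/
theorem row_lt_ra (u : ℕ) (c : ℕ × ℤ) : c.1 + 2 < G.ra u (G.loc u c) := by
  have h1 := G.lt_rcc u c
  have h2 := G.T_pos (u - 1)
  unfold ra
  omega

/-- The windows of one centre are ordered. -/
theorem re_le_ra {u v : ℕ} (huv : u < v) {κ κ' : ℤ × ℤ} (h : G.rcc u κ ≤ G.rcc v κ') : G.re u κ ≤ G.ra v κ' := by
  have h1 := G.T_mono (show u ≤ v - 1 by omega)
  unfold ra re
  omega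

theorem re_le_ra_same {u v : ℕ} (huv : u < v) (c : ℕ × ℤ) : G.re u (G.loc u c) ≤ G.ra v (G.loc v c) :=
  G.re_le_ra huv (G.rcc_mono huv.le c)

/-! ### Weights -/

variable {G}

theorem wt_gl_of_not_mem {A : Set Pt} {η ω : Env} {k : ℕ} {y : ℤ} (h : (((k : ℤ), y) : Pt) ∉ A) :
    wt (gl A η ω) k y = wt ω k y := by
  unfold wt
  split_ifs
  · rfl
  · rw [gl_of_not_mem h]

theorem wt_gl_of_mem {A : Set Pt} {η ω : Env} {k : ℕ} {y : ℤ} (h : (((k : ℤ), y) : Pt) ∈ A) :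
    wt (gl A η ω) k y = wt η k y := by
  unfold wt
  split_ifs
  · rfl
  · rw [gl_of_mem h]

/-- The rows before the window. -/
theorem wt_R_lt {u : ℕ} {κ : ℤ × ℤ} (h0 : 0 ≤ G.rcc u κ) {k : ℕ} (hk : k < G.ra u κ) (η ω : Env) :
    wt (G.R u κ η ω) k = wt ω k := by
  funext y
  refine wt_gl_of_not_mem fun h => ?_
  have h1 := h.1
  have h2 := G.ra_cast h0
  have h3 : (k : ℤ) < G.ra u κ := by exact_mod_cast hk
  have h4 : G.rcc u κ + G.T (u - 1) < (k : ℤ) := h1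
  omega

/-- The rows beyond the window. -/
theorem wt_R_ge {u : ℕ} {κ : ℤ × ℤ} (h0 : 0 ≤ G.rcc u κ) {k : ℕ} (hk : G.re u κ ≤ k) (η ω : Env) :
    wt (G.R u κ η ω) k = wt ω k := by
  funext y
  refine wt_gl_of_not_mem fun h => ?_
  have h2 := G.re_cast h0
  have h3 : (G.re u κ : ℤ) ≤ k := by exact_mod_cast hk
  have h4 : (k : ℤ) ≤ G.rcc u κ + G.T u := h.2.1
  omega

variable {p : ℕ → ℝ}

theorem fw_R {u : ℕ} {κ : ℤ × ℤ} (h0 : 0 ≤ G.rcc u κ) (l : ℤ → ℝ) {k : ℕ} (hk : k ≤ G.ra u κ) (η ω : Env) (y : ℤ) :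
    fw (wt (G.R u κ η ω)) p l k y = fw (wt ω) p l k y :=
  K91P.fw_congr k (fun i hi z => congrFun (wt_R_lt h0 (by omega) η ω) z) y

theorem bw_R {u : ℕ} {κ : ℤ × ℤ} (h0 : 0 ≤ G.rcc u κ) {k j : ℕ} (hk : G.re u κ ≤ k) (η ω : Env) (y : ℤ) :
    bw (wt (G.R u κ η ω)) p k j y = bw (wt ω) p k j y :=
  K91P.bw_congr j k (fun i hi z => congrFun (wt_R_ge h0 (by omega) η ω) z) y

theorem ker_R_lt {u : ℕ} {κ : ℤ × ℤ} (h0 : 0 ≤ G.rcc u κ) {i n : ℕ} (hk : i + n ≤ G.ra u κ) (η ω : Env) (x y : ℤ) :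
    ker (wt (G.R u κ η ω)) p i n x y = ker (wt ω) p i n x y :=
  ker_congr i n x y fun _ _ h2 => ⟨wt_R_lt h0 (by omega) η ω, rfl⟩

theorem ker_R_ge {u : ℕ} {κ : ℤ × ℤ} (h0 : 0 ≤ G.rcc u κ) {i n : ℕ} (hk : G.re u κ ≤ i) (η ω : Env) (x y : ℤ) :
    ker (wt (G.R u κ η ω)) p i n x y = ker (wt ω) p i n x y :=
  ker_congr i n x y fun _ h1 _ => ⟨wt_R_ge h0 (by omega) η ω, rfl⟩

variable (G)

/-! ### The window as a translate of `Bx69` -/

theorem T_sub_cast (u : ℕ) : ((G.T u - G.T (u - 1) : ℕ) : ℤ) = (G.T u : ℤ) - G.T (u - 1) :=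
  Nat.cast_sub (G.T_mono (by omega))

/-- **The window is a translate of `Bx69`.** -/
theorem mem_win_iff {μ : Measure ℝ} {s : ℝ} (hv : G.v = sl μ s) (u : ℕ) (κ : ℤ × ℤ) (p : Pt) :
    p ∈ G.win u κ ↔ (p.1 - (G.base u κ).1, p.2 - (G.base u κ).2) ∈ Bx69 μ s (G.kw * G.w u) (G.T u - G.T (u - 1)) := by
  have e := G.T_sub_cast u
  have hb : (G.base u κ).1 = G.rcc u κ + G.T (u - 1) := rfl
  unfold win Bx69
  simp only [Set.mem_setOf_eq]
  rw [e, hb, hv]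
  push_cast
  constructor
  · rintro ⟨h1, h2, h3⟩
    exact ⟨by linarith, by linarith, h3⟩
  · rintro ⟨h1, h2, h3⟩
    exact ⟨by linarith, by linarith, h3⟩

end Gm

end

end Pool.Agent.W_7d29a1_C1.G37
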