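import Pool.Agent.W_7d29a1_C1.GeoT37
import Pool.Agent.W_7d29a1_C1.GeoE37

/-!
MP_7d29a1_pr, the attractor route, separation by moving the contact: POSITIONS: the centres of a move are never later than the old
centre, the windows and the far rows of an admissible centre stay below the row `N`, the cut rows of a window. (helper37)
-/

set_option autoImplicit false

namespace Pool.Agent.W_7d29a1_C1.G37

open MeasureTheory Finset
open Pool.Agent.W_7d29a1_F Pool.Agent.W_7d29a1_C1.S71 Pool.Agent.W_7d29a1_C1.H40 Pool.Agent.W_7d29a1_C1.H49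

noncomputable section

namespace Gm

variable {G : Gm}

/-- The target of a move is not later than the old centre (any `i ≤ M`). -/
theorem relj.row_le {s i j : ℕ} {x ρ ρ' : ℕ × ℤ} (h : G.relj i j x ρ) (hs : s < i) (hn : G.Nb s (G.loc s ρ) ρ') :
    ρ'.1 ≤ x.1 := by
  have h1 := h.2.2.1
  have h2 := (abs_le.1 (G.nb_near (y := ρ) rfl hn).1).2
  have h3 := G.T_lt8 hs
  have h4 := G.T_pos' s
  have h5 : (ρ'.1 : ℤ) ≤ x.1 := by linarith
  exact_mod_cast h5

theorem relj.row_le0 {i j : ℕ} {x ρ : ℕ × ℤ} (h : G.relj i j x ρ) : ρ.1 < x.1 := by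
  have h1 := h.2.2.1
  have h2 := G.T_pos' i
  have h5 : (ρ.1 : ℤ) < x.1 := by linarith
  exact_mod_cast h5

variable (G)

/-- Row sets which are closed under moves. -/
theorem Wr_move {F : Finset (ℕ × ℤ)} {mt N s i j : ℕ} {x ρ ρ' : {c // c ∈ F}} (hx : x ∈ G.Wr F mt N)
    (h : G.relj i j x.1 ρ.1) (hs : s < i) (hn : ρ' ∈ G.nb F s (G.cel F s ρ)) : ρ ∈ G.Wr F mt N ∧ ρ' ∈ G.Wr F mt N := by
  have h1 := h.row_le hs ((G.mem_nb).1 hn)
  have h2 := h.row_le0
  have h3 : x.1.1 + 2 * G.T mt ≤ N := hx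
  constructor
  · show ρ.1.1 + 2 * G.T mt ≤ N
    omega
  · show ρ'.1.1 + 2 * G.T mt ≤ N
    omega

/-- The window ends at most `2 T u` rows above the centre. -/
theorem re_le (u : ℕ) (c : ℕ × ℤ) : G.re u (G.loc u c) ≤ c.1 + 2 * G.T u + 1 := by
  have h1 := G.rcc_eq u (G.loc u c)
  have h2 := G.lo_le u c
  have h3 := (G.rcc_pos u c).le
  have h4 := G.re_cast h3
  have h5 := G.T_mono' (show u - 2 ≤ u by omega)
  have h6 : (G.re u (G.loc u c) : ℤ) ≤ ((c.1 + 2 * G.T u + 1 : ℕ) : ℤ) := by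
    rw [h4]
    push_cast
    linarith
  exact_mod_cast h6

/-- The windows of an admissible centre. -/
theorem re_le_of_Wr {mt N u : ℕ} (hu : u ≤ mt) {c : ℕ × ℤ} (h : c.1 + 2 * G.T mt ≤ N) : G.re u (G.loc u c) ≤ N + 1 := by
  have h1 := G.re_le u c
  have h2 := G.T_mono hu
  omega

/-- The windows below the top tower scale. -/
theorem re_lt_of_Wr {mt N u : ℕ} (hu : u < mt) {c : ℕ × ℤ} (h : c.1 + 2 * G.T mt ≤ N) : G.re u (G.loc u c) < N := by
  have h1 := G.re_le u c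
  have h2 := G.T_succ u
  have h3 := G.T_mono (show u + 1 ≤ mt by omega)
  have h4 := G.T_pos u
  omega

/-- The far rows of an admissible centre. -/
theorem fr_le_of_Wr {mt N t τ : ℕ} (ht : t ≤ mt) (hτ : τ < t) {c : ℕ × ℤ} (h : c.1 + 2 * G.T mt ≤ N) {r : ℤ}
    (hr : r ∈ G.fr t τ c) : 0 < r ∧ r ≤ (N : ℤ) := by
  unfold fr at hr
  rw [mem_filter, mem_Icc] at hr
  obtain ⟨⟨h1, h2⟩, -⟩ := hr
  have h3 := G.T_lt8 (show t - 1 < t by omega)
  have h4 := G.T_mono' (show τ ≤ t - 1 by omega)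
  have h5 := G.T_mono' ht
  have h6 := G.T_pos' t
  have h7 : (c.1 : ℤ) + 2 * G.T mt ≤ N := by exact_mod_cast h
  constructor <;> linarith

/-- The far rows are before the first resampled row of the windows of the scales `≥ t + 2`. -/
theorem fr_lt_ra {t τ u : ℕ} (hτ : τ < t) (hu : t + 2 ≤ u) {c : ℕ × ℤ} {r : ℤ} (hr : r ∈ G.fr t τ c) :
    r < G.ra u (G.loc u c) := by
  unfold fr at hr
  rw [mem_filter, mem_Icc] at hr
  obtain ⟨⟨h1, h2⟩, -⟩ := hr
  have h3 := G.T_lt8 (show t - 1 < t by omega)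
  have h4 := G.T_mono' (show τ ≤ t - 1 by omega)
  have h5 := G.T_lt8 (show t < u - 1 by omega)
  have h6 := G.T_pos' t
  have h7 := G.lt_rcc u c
  have h8 := G.ra_cast (G.rcc_pos u c).le
  rw [h8]
  linarith

/-- The row `q / 8` of the window, `q ≤ 8`. -/
def rq (u : ℕ) (κ : ℤ × ℤ) (q : ℕ) : ℕ := G.ra u κ + q * (G.re u κ - G.ra u κ) / 8

theorem rq_zero (u : ℕ) (κ : ℤ × ℤ) : G.rq u κ 0 = G.ra u κ := by
  unfold rq
  simp

theorem rq_eight (u : ℕ) (κ : ℤ × ℤ) : G.rq u κ 8 = G.re u κ := by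
  have := G.ra_le_re u κ
  unfold rq
  rw [Nat.mul_div_cancel_left _ (by norm_num)]
  omega

theorem rq_mono (u : ℕ) (κ : ℤ × ℤ) {q q' : ℕ} (h : q ≤ q') : G.rq u κ q ≤ G.rq u κ q' := by
  unfold rq
  exact Nat.add_le_add_left (Nat.div_le_div_right (Nat.mul_le_mul_right _ h)) _

end Gm

end

end Pool.Agent.W_7d29a1_C1.G37
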