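import Pool.Agent.W_7d29a1_C1.LatS74
import Pool.Agent.W_7d29a1_C1.GeoE37
import Pool.Agent.W_7d29a1_C1.GeoP37

/-!
Both halves (MP_7d29a1_pr), [C1] attractor route, SEP: THE FAR MASS OF THE PATHS WHICH AVOID THE BALL. (helper25)

`Av t τ x` : the ball (rows `2 T (t-1)`, columns `w (t-1)`, a little smaller at the later stages `τ`) around the contact `x`;
`fa t k τ x` : the probability to be far in a coarse row above, without having visited the ball. The windows of all smaller scales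
of `x` lie in the ball, so the numerators do not see them (`osc_fa`). `fa_mono`, `mvfaJ`, `meas_fa` : fields of `MoveQ`;
`fa_le53` : it is at most the full far mass `SD53.fa`; `far_total` : the full far mass is at most `fa` + the routes through the ball.
-/

set_option autoImplicit false

namespace Pool.Agent.W_7d29a1_C1.FA25

open Finset MeasureTheory
open Pool.Agent.W_7d29a1_F
open Pool.Agent.W_7d29a1_C1.S71 (gl)
open Pool.Agent.W_7d29a1_C1.K91 (Box wt wt_pos measurable_wt)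
open Pool.Agent.W_7d29a1_C1.K91P (fw bw fw_nonneg bw_pos)
open Pool.Agent.W_7d29a1_C1.Sp22 (bf Ms Ps Zt kw kw_nn kw_le kw_eq fw_nn fw_mono kill_le')
open Pool.Agent.W_7d29a1_C1.H60
open Pool.Agent.W_7d29a1_C1.G37 (Gm)
open Pool.Agent.W_7d29a1_C1.H49 (Par ex)
open Pool.Agent.W_7d29a1_C1.SD53
open Pool.Agent.W_7d29a1_C1.E53
open scoped ENNReal

noncomputable section

/-! ### The ball -/

section Ball

variable (G : Gm)

/-- Twice the lateral move. -/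
def la : ℝ := 2 * (G.kn + 2 * G.kb)

/-- The radius in rows. -/
def rr (t τ : ℕ) : ℤ := 2 * (G.T (t - 1) : ℤ) - 4 * (G.T (τ + 1 - G.m2) : ℤ)

/-- The radius in columns. -/
def lr (t τ : ℕ) : ℝ := G.w (t - 1) - la G * G.w (τ + 1 - G.m2)

/-- **The ball.** -/
def Av (t τ : ℕ) (x : ℕ × ℤ) : Set (ℕ × ℤ) :=
  {c | |(c.1 : ℤ) - x.1| ≤ rr G t τ ∧ |G.lat c - G.lat x| ≤ lr G t τ}

variable {G}

theorem la_nonneg : 0 ≤ la G := by
  have := G.kn_nonneg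
  have := G.kb_ge
  unfold la
  linarith

theorem Av_anti {t τ τ' : ℕ} (h : τ ≤ τ') (x : ℕ × ℤ) : Av G t τ' x ⊆ Av G t τ x := by
  intro c hc
  have h1 := G.T_mono' (show τ + 1 - G.m2 ≤ τ' + 1 - G.m2 by omega)
  have h2 := G.w_mono (show τ + 1 - G.m2 ≤ τ' + 1 - G.m2 by omega)
  refine ⟨hc.1.trans ?_, hc.2.trans ?_⟩
  · unfold rr
    linarith
  · unfold lr
    have := mul_le_mul_of_nonneg_left h2 (la_nonneg (G := G))
    linarith

/-- The move. -/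
theorem Av_move {s i j : ℕ} {x ρ ρ' : ℕ × ℤ} (h : G.relj i j x ρ) (hj : j < G.M) (hs : s < i)
    (hn : G.Nb s (G.loc s ρ) ρ') {t t' : ℕ} (ht : t ≤ i) : Av G t' (j + G.m2) ρ' ⊆ Av G t' (t - 1) x := by
  have hij := h.1
  have hi : i < G.M := by omega
  obtain ⟨m1, m2⟩ := h.move_row hi hs hn
  have m3 := h.move_lat hj hs hn
  have hm := G.m2_ge
  have e1 : j + G.m2 + 1 - G.m2 = j + 1 := by omega
  have t1 := G.T_mono' (show i + 1 ≤ j + 1 by omega)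
  have t2 : 4 * (G.T (t - 1 + 1 - G.m2) : ℤ) ≤ G.T (j + 1) := by
    have h1 := G.T_lt8 (show j < j + 1 by omega)
    have h2 := G.T_mono' (show t - 1 + 1 - G.m2 ≤ j by omega)
    have h3 := G.T_pos' j
    linarith
  have w1 : 2 * G.w (t - 1 + 1 - G.m2) ≤ G.w (j + 1) :=
    (mul_le_mul_of_nonneg_left (G.w_mono (show t - 1 + 1 - G.m2 ≤ j by omega)) (by norm_num)).trans (G.w_two j)
  intro c hc
  obtain ⟨c1, c2⟩ := hc
  unfold rr at c1
  unfold lr at c2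
  rw [e1] at c1 c2
  constructor
  · unfold rr
    have h1 : |(c.1 : ℤ) - x.1| ≤ |(c.1 : ℤ) - ρ'.1| + |(ρ'.1 : ℤ) - x.1| := abs_sub_le _ _ _
    have h2 : |(ρ'.1 : ℤ) - x.1| ≤ 3 * G.T (i + 1) := by
      rw [abs_le]
      constructor <;> linarith [G.T_pos' (i + 1)]
    linarith
  · unfold lr
    have h1 : |G.lat c - G.lat x| ≤ |G.lat c - G.lat ρ'| + |G.lat ρ' - G.lat x| := abs_sub_le _ _ _
    rw [abs_sub_comm (G.lat ρ') (G.lat x)] at h1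
    have h2 := mul_le_mul_of_nonneg_left w1 (la_nonneg (G := G))
    have h3 : la G * G.w (j + 1) = 2 * ((G.kn + 2 * G.kb) * G.w (j + 1)) := by unfold la; ring
    have h4 : la G * (2 * G.w (t - 1 + 1 - G.m2)) = 2 * (la G * G.w (t - 1 + 1 - G.m2)) := by ring
    rw [h4] at h2
    linarith

theorem w_pow (u n : ℕ) : 2 ^ n * G.w u ≤ G.w (u + n) := by
  induction n with
  | zero => simp
  | succ n ih =>
    have h1 := G.w_two (u + n)
    calc 2 ^ (n + 1) * G.w u = 2 * (2 ^ n * G.w u) := by ring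
      _ ≤ 2 * G.w (u + n) := by linarith
      _ ≤ _ := h1

/-- **The windows of smaller scales lie in the ball**: any centre `y` near the cell. -/
theorem win_sub_Av (hm2 : la G + G.kw + G.kb + 2 ≤ 2 ^ (G.m2 - 1)) {u j t' : ℕ} (hu : u < j + 1) (ht : j + G.m2 < t')
    {κ : ℤ × ℤ} {y : ℕ × ℤ} (h1 : |(y.1 : ℤ) - G.rcc u κ| ≤ G.T u) (h2 : |G.lat y - G.ctr u κ| ≤ G.kb * G.w u)
    {k : ℕ} {z : ℤ} (hz : (((k : ℤ), z) : Pt) ∈ G.win u κ) : ((k, z) : ℕ × ℤ) ∈ Av G t' (j + G.m2) y := by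
  have hm := G.m2_ge
  have e1 : j + G.m2 + 1 - G.m2 = j + 1 := by omega
  obtain ⟨z1, z2, z3⟩ := hz
  have z1' : G.rcc u κ + G.T (u - 1) < (k : ℤ) := z1
  have z2' : (k : ℤ) ≤ G.rcc u κ + G.T u := z2
  have t1 := G.T_mono' (show u ≤ j + 1 by omega)
  have t2 := G.T_pos' (u - 1)
  have t3 := G.T_lt8 (show j + 1 < t' - 1 by omega)
  have t4 := G.T_pos' u
  have g1 := G.g_le u
  have g2 : (1 : ℝ) ≤ G.g u := by exact_mod_cast G.g_pos u
  constructor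
  · show |((k : ℕ) : ℤ) - y.1| ≤ rr G t' (j + G.m2)
    unfold rr
    rw [e1]
    have a1 : |((k : ℕ) : ℤ) - y.1| ≤ |((k : ℕ) : ℤ) - G.rcc u κ| + |G.rcc u κ - (y.1 : ℤ)| := abs_sub_le _ _ _
    have a2 : |((k : ℕ) : ℤ) - G.rcc u κ| ≤ G.T u := by
      rw [abs_le]
      constructor <;> linarith
    rw [abs_sub_comm (G.rcc u κ) (y.1 : ℤ)] at a1
    linarith
  · show |G.lat (k, z) - G.lat y| ≤ lr G t' (j + G.m2)
    unfold lr
    rw [e1]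
    have hb1 : ((G.base u κ).1 : ℝ) = (G.rcc u κ : ℝ) + (G.T (u - 1) : ℝ) := by
      show (((G.rcc u κ + (G.T (u - 1) : ℤ) : ℤ)) : ℝ) = _
      push_cast
      rfl
    have f1 := Int.floor_le (G.ctr u κ + G.v * ((G.rcc u κ : ℝ) + (G.T (u - 1) : ℝ)))
    have f2 := Int.lt_floor_add_one (G.ctr u κ + G.v * ((G.rcc u κ : ℝ) + (G.T (u - 1) : ℝ)))
    have hb2 : ((G.base u κ).2 : ℝ) = (⌊G.ctr u κ + G.v * ((G.rcc u κ : ℝ) + (G.T (u - 1) : ℝ))⌋ : ℝ) := rfl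
    have z3' : |((z : ℝ) - ((G.base u κ).2 : ℝ)) - G.v * (((k : ℤ) : ℝ) - ((G.base u κ).1 : ℝ))| ≤ G.kw * G.w u := z3
    have e2 : G.lat (k, z) = (z : ℝ) - G.v * (k : ℝ) := rfl
    have c1 : |G.lat (k, z) - G.ctr u κ| ≤ G.kw * G.w u + 1 := by
      rw [abs_le] at z3' ⊢
      rw [hb1, hb2, Int.cast_natCast] at z3'
      rw [e2]
      obtain ⟨q1, q2⟩ := z3'
      constructor <;> nlinarith
    have c2 : |G.lat (k, z) - G.lat y| ≤ |G.lat (k, z) - G.ctr u κ| + |G.ctr u κ - G.lat y| := abs_sub_le _ _ _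
    rw [abs_sub_comm (G.ctr u κ) (G.lat y)] at c2
    have d1 : G.w u ≤ G.w (j + 1) := G.w_mono (by omega)
    have d2 : 2 ^ (G.m2 - 1) * G.w (j + 1) ≤ G.w (t' - 1) := by
      refine (w_pow (G := G) (j + 1) (G.m2 - 1)).trans (G.w_mono (by omega))
    have d3 := mul_le_mul_of_nonneg_right hm2 (G.w_pos (j + 1)).le
    have d4 := mul_le_mul_of_nonneg_left d1 G.kw_nonneg
    have d5 : G.kb * G.w u ≤ G.kb * G.w (j + 1) := mul_le_mul_of_nonneg_left d1 (by linarith [G.kb_ge])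
    have d6 : (la G + G.kw + G.kb + 2) * G.w (j + 1) =
        la G * G.w (j + 1) + G.kw * G.w (j + 1) + G.kb * G.w (j + 1) + 2 * G.w (j + 1) := by ring
    linarith [G.w_pos (j + 1)]

/-- The rows of the far events are above the ball. -/
theorem Av_lt_fr {t τ : ℕ} (ht : 1 ≤ t) {x c : ℕ × ℤ} (hc : c ∈ Av G t τ x) {r : ℤ} {τ' : ℕ} (hr : r ∈ G.fr t τ' x) : (c.1 : ℤ) < r := by
  unfold Gm.fr at hr
  rw [mem_filter, mem_Icc] at hr
  have h1 := (abs_le.1 hc.1).2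
  unfold rr at h1
  have h2 := G.T_lt8 (show t - 1 < t by omega)
  have h3 := G.T_pos' (t - 1)
  have h4 := G.T_pos' (τ + 1 - G.m2)
  linarith [hr.1.1]

end Ball

/-! ### The far mass -/

variable (Γ : Cx) (G : Gm)

/-- The mass of the group `m` through the set `A` of the row `k`, on the paths which avoid `B`. -/
def PK (m : ℤ → ℝ) (B : Set (ℕ × ℤ)) (k : ℕ) (A : Finset ℤ) (ω : Env) : ℝ :=
  ∑ y ∈ A, fw (kw B (wt ω)) Γ.p m k y * bw (wt ω) Γ.p k (Γ.N - k) y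

/-- The probability. -/
def PA (m : ℤ → ℝ) (B : Set (ℕ × ℤ)) (k : ℕ) (A : Set ℤ) (ω : Env) : ℝ := PK Γ m B k (bx Γ A) ω / ZG Γ m ω

/-- **The far mass.** -/
def fa (t k τ : ℕ) (x : XX Γ) (ω : Env) : ℝ≥0∞ :=
  ∑ r ∈ (G.fr t τ x.1).filter (fun r => r ≤ (Γ.N : ℤ)),
    (ENNReal.ofReal (PA Γ Cx.l (Av G t τ x.1) r.toNat (G.fs k τ x.1 r) ω) +
      ENNReal.ofReal (PA Γ Γ.r (Av G t τ x.1) r.toNat (G.fs k τ x.1 r) ω))

variable {Γ G}

theorem wt0 (ω : Env) : ∀ k y, 0 ≤ wt ω k y := fun k y => (wt_pos ω k y).le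

theorem kw_anti {B B' : Set (ℕ × ℤ)} (h : B ⊆ B') (ω : Env) (k : ℕ) (y : ℤ) : kw B' (wt ω) k y ≤ kw B (wt ω) k y := by
  unfold kw
  by_cases h1 : (k, y) ∈ B
  · rw [if_pos h1, if_pos (h h1)]
  · rw [if_neg h1]
    split_ifs
    · exact wt0 ω k y
    · exact le_rfl

theorem PK_nonneg {m : ℤ → ℝ} (hm : ∀ y, 0 ≤ m y) (B : Set (ℕ × ℤ)) (k : ℕ) (A : Finset ℤ) (ω : Env) : 0 ≤ PK Γ m B k A ω :=
  sum_nonneg fun y _ => mul_nonneg (fw_nn (kw_nn (wt0 ω) B) Γ.p_pos hm k y) (bw_pos (wt_pos ω) Γ.p_pos _ _ _).le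

theorem PK_mono {m : ℤ → ℝ} (hm : ∀ y, 0 ≤ m y) {B B' : Set (ℕ × ℤ)} (hB : B ⊆ B') (k : ℕ) {A A' : Finset ℤ} (hA : A ⊆ A')
    (ω : Env) : PK Γ m B' k A ω ≤ PK Γ m B k A' ω := by
  refine le_trans (sum_le_sum fun y _ => ?_) (sum_le_sum_of_subset_of_nonneg hA fun y _ _ =>
    mul_nonneg (fw_nn (kw_nn (wt0 ω) B) Γ.p_pos hm k y) (bw_pos (wt_pos ω) Γ.p_pos _ _ _).le)
  exact mul_le_mul_of_nonneg_right (fw_mono (kw_nn (wt0 ω) B') (kw_anti hB ω) Γ.p_pos hm k y)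
    (bw_pos (wt_pos ω) Γ.p_pos _ _ _).le

theorem PK_le {m : ℤ → ℝ} (hm : ∀ y, 0 ≤ m y) (B : Set (ℕ × ℤ)) (k : ℕ) (A : Finset ℤ) (ω : Env) : PK Γ m B k A ω ≤ PG Γ m k A ω :=
  sum_le_sum fun y _ => mul_le_mul_of_nonneg_right (fw_mono (kw_nn (wt0 ω) B) (kw_le (wt0 ω) B) Γ.p_pos hm k y)
    (bw_pos (wt_pos ω) Γ.p_pos _ _ _).le

theorem PA_nonneg {m : ℤ → ℝ} (hm : ∀ y, 0 ≤ m y) (B : Set (ℕ × ℤ)) (k : ℕ) (A : Set ℤ) (ω : Env) : 0 ≤ PA Γ m B k A ω :=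
  div_nonneg (PK_nonneg hm _ _ _ _) (ZG_nonneg hm ω)

theorem PA_mono {m : ℤ → ℝ} (hm : ∀ y, 0 ≤ m y) {B B' : Set (ℕ × ℤ)} (hB : B ⊆ B') (k : ℕ) {A A' : Set ℤ} (hA : A ⊆ A')
    (ω : Env) : PA Γ m B' k A ω ≤ PA Γ m B k A' ω :=
  div_le_div_of_nonneg_right (PK_mono hm hB k (bx_mono hA) ω) (ZG_nonneg hm ω)

theorem PA_le {m : ℤ → ℝ} (hm : ∀ y, 0 ≤ m y) (B : Set (ℕ × ℤ)) (k : ℕ) (A : Set ℤ) (ω : Env) : PA Γ m B k A ω ≤ PX Γ m k A ω :=
  div_le_div_of_nonneg_right (PK_le hm B k _ ω) (ZG_nonneg hm ω)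

theorem fa_le53 (h : Γ.Ok) (t k τ : ℕ) (x : XX Γ) (ω : Env) : fa Γ G t k τ x ω ≤ SD53.fa Γ G t k τ x ω := by
  unfold fa SD53.fa
  exact sum_le_sum fun r _ => add_le_add (ENNReal.ofReal_le_ofReal (PA_le Cx.l_nonneg _ _ _ ω))
    (ENNReal.ofReal_le_ofReal (PA_le (Cx.r_nonneg h) _ _ _ ω))

/-! ### Measurability -/

theorem meas_kw (B : Set (ℕ × ℤ)) (k : ℕ) (y : ℤ) : Measurable fun ω => kw B (wt ω) k y := by
  unfold kw
  by_cases h : (k, y) ∈ B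
  · simp only [h, if_true]
    exact measurable_const
  · simp only [h, if_false]
    exact measurable_wt k y

theorem meas_PK (m : ℤ → ℝ) (B : Set (ℕ × ℤ)) (k : ℕ) (A : Finset ℤ) : Measurable (PK Γ m B k A) :=
  Finset.measurable_fun_sum _ fun y _ =>
    (pm_fw (W := fun ω => kw B (wt ω)) (p := Γ.p) (l := fun _ => m) (meas_kw B) (fun _ => measurable_const) k y).mul
      (pm_bw (W := wt) (p := Γ.p) measurable_wt _ _ _)

theorem meas_PA (m : ℤ → ℝ) (B : Set (ℕ × ℤ)) (k : ℕ) (A : Set ℤ) : Measurable (PA Γ m B k A) :=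
  (meas_PK m B k _).div (meas_ZG m)

theorem meas_fa (t k τ : ℕ) (x : XX Γ) : Measurable (fa Γ G t k τ x) :=
  Finset.measurable_fun_sum _ fun _ _ => ((meas_PA _ _ _ _).ennreal_ofReal).add ((meas_PA _ _ _ _).ennreal_ofReal)

/-! ### The fields -/

theorem fa_mono (h : Γ.Ok) (t k : ℕ) {τ τ' : ℕ} (hτ : τ ≤ τ') (x : XX Γ) (ω : Env) : fa Γ G t k τ x ω ≤ fa Γ G t k τ' x ω := by
  unfold fa
  refine (sum_le_sum fun r _ => add_le_add
    (ENNReal.ofReal_le_ofReal (PA_mono Cx.l_nonneg (Av_anti hτ x.1) _ (G.fs_mono hτ x.1 r) ω))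
    (ENNReal.ofReal_le_ofReal (PA_mono (Cx.r_nonneg h) (Av_anti hτ x.1) _ (G.fs_mono hτ x.1 r) ω))).trans ?_
  exact sum_le_sum_of_subset (filter_subset_filter _ (G.fr_mono hτ x.1))

/-- **`mvfa`.** -/
theorem mvfaJ (h : Γ.Ok) {t s i j t' k : ℕ} (ht : t ≤ i) (hj : j < G.M) (hs : s < i) {x ρ ρ' : XX Γ} (hr : G.relj i j x.1 ρ.1)
    (hn : G.Nb s (G.loc s ρ.1) ρ'.1) (ω : Env) : fa Γ G t' k (t - 1) x ω ≤ fa Γ G t' k (j + G.m2) ρ' ω := by
  have hi : i < G.M := by have := hr.1; omega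
  have hA := Av_move hr hj hs hn (t := t) (t' := t') ht
  unfold fa
  refine (sum_le_sum fun r _ => add_le_add
    (ENNReal.ofReal_le_ofReal (PA_mono Cx.l_nonneg hA _ (hr.fs_sub (k := k) ht hj hs hn r) ω))
    (ENNReal.ofReal_le_ofReal (PA_mono (Cx.r_nonneg h) hA _ (hr.fs_sub (k := k) ht hj hs hn r) ω))).trans ?_
  exact sum_le_sum_of_subset (filter_subset_filter _ (hr.fr_sub ht hi hs hn))

/-! ### Oscillation -/

/-- Two environments which are equal off the ball: the numerators are equal. -/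
theorem PK_eq {ω ω' : Env} {B : Set (ℕ × ℤ)} (hB : ∀ k y, (k, y) ∉ B → wt ω k y = wt ω' k y) {k : ℕ}
    (hk : ∀ c ∈ B, c.1 < k) (m : ℤ → ℝ) (A : Finset ℤ) : PK Γ m B k A ω = PK Γ m B k A ω' := by
  unfold PK
  rw [kw_eq hB]
  refine sum_congr rfl fun y _ => ?_
  congr 1
  exact K91P.bw_congr _ _ (fun i hi z => hB i z fun h => absurd (hk _ h) (not_lt.2 hi)) y

/-- **The oscillation of the far mass**: environments equal off the ball, the totals move by at most `e^β`. -/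
theorem osc_fa (h : Γ.Ok) {t k τ : ℕ} (ht : 1 ≤ t) {x : XX Γ} {ω ω' : Env}
    (hB : ∀ k y, (k, y) ∉ Av G t τ x.1 → wt ω k y = wt ω' k y) {β : ℝ}
    (hl : ZG Γ Cx.l ω' ≤ Real.exp β * ZG Γ Cx.l ω) (hr : ZG Γ Γ.r ω' ≤ Real.exp β * ZG Γ Γ.r ω) :
    fa Γ G t k τ x ω ≤ ex β * fa Γ G t k τ x ω' := by
  unfold fa
  rw [mul_sum]
  refine sum_le_sum fun r hrr => ?_
  obtain ⟨hr1, hr2⟩ := mem_filter.1 hrr
  have hr0 : (0 : ℤ) ≤ r := by
    unfold Gm.fr at hr1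
    rw [mem_filter, mem_Icc] at hr1
    have h1 := G.T_pos' t
    have h2 : (0 : ℤ) ≤ (x.1.1 : ℤ) := by positivity
    linarith [hr1.1.1]
  have hk : ∀ c ∈ Av G t τ x.1, c.1 < r.toNat := by
    intro c hc
    have h1 := Av_lt_fr ht hc hr1
    omega
  have key : ∀ m : ℤ → ℝ, (∀ y, 0 ≤ m y) → 0 < ZG Γ m ω → 0 < ZG Γ m ω' → ZG Γ m ω' ≤ Real.exp β * ZG Γ m ω →
      ENNReal.ofReal (PA Γ m (Av G t τ x.1) r.toNat (G.fs k τ x.1 r) ω) ≤
        ex β * ENNReal.ofReal (PA Γ m (Av G t τ x.1) r.toNat (G.fs k τ x.1 r) ω') := by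
    intro m hm h1 h2 h3
    unfold ex
    rw [← ENNReal.ofReal_mul (Real.exp_pos β).le]
    refine ENNReal.ofReal_le_ofReal ?_
    unfold PA
    rw [PK_eq hB hk m]
    have h4 := PK_nonneg (Γ := Γ) hm (Av G t τ x.1) r.toNat (bx Γ (G.fs k τ x.1 r)) ω'
    rw [← mul_div_assoc, div_le_div_iff₀ h1 h2]
    calc _ ≤ PK Γ m (Av G t τ x.1) r.toNat (bx Γ (G.fs k τ x.1 r)) ω' * (Real.exp β * ZG Γ m ω) :=
          mul_le_mul_of_nonneg_left h3 h4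
      _ = _ := by ring
  rw [mul_add]
  exact add_le_add (key _ Cx.l_nonneg (ZG_l_pos h ω) (ZG_l_pos h ω') hl)
    (key _ (Cx.r_nonneg h) (ZG_r_pos h ω) (ZG_r_pos h ω') hr)

/-! ### The full far mass -/

/-- **The full far mass**: the far mass off the ball and the routes through the ball. -/
theorem far_total {m : ℤ → ℝ} (hm : Ms m 0 Γ.hi Γ.N) {B : Set (ℕ × ℤ)} {e : ℕ} (he : e ≤ Γ.N) {A : Finset ℤ} (hA : A ⊆ Icc 0 Γ.hi) {st : ℝ}
    (hs0 : 0 ≤ st) {ω : Env} (hst : ∀ i x, i < e → (i, x) ∈ B →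
      bf (wt ω) Γ.p (fun y => if y ∈ A then bw (wt ω) Γ.p e (Γ.N - e) y else 0) i (e - i) x ≤ st * bw (wt ω) Γ.p i (Γ.N - i) x) :
    PG Γ m e A ω ≤ PK Γ m B e A ω + st * ZG Γ m ω := by
  classical
  have h1 := kill_le' (wt_pos ω) Γ.p_pos hm (B := B) he hs0 hst
  have e1 : ∀ φ : ℤ → ℝ, ∑ y ∈ Icc (0 : ℤ) Γ.hi, φ y * (if y ∈ A then bw (wt ω) Γ.p e (Γ.N - e) y else 0) =
      ∑ y ∈ A, φ y * bw (wt ω) Γ.p e (Γ.N - e) y := by
    intro φ
    simp only [mul_ite, mul_zero]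
    rw [← sum_filter]
    refine sum_congr ?_ fun _ _ => rfl
    ext y
    rw [mem_filter]
    exact ⟨fun h => h.2, fun h => ⟨hA h, h⟩⟩
  rw [e1, e1] at h1
  exact h1

end

end Pool.Agent.W_7d29a1_C1.FA25
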