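import Pool.Agent.W_7d29a1_C1.ChnP40

/-!
MP_7d29a1_pr, the attractor route: THE CHAIN POTENTIAL, TWO INDEX FORM (distance scale `i` in rows, `j ≥ i` laterally). (helper40)

A step from `(x, τ)`: own slabs `(p, u)`, `a ≤ u < s`, then `(q, u)`, `s ≤ u < i`, then `(p, u)`, `i + m3 ≤ u < j`, where
`τ ≤ a ≤ s < i ≤ j`, `a + λ ≤ i`. `stay`: `p = q = x`, `j = i`; `move`: `p` is an earlier centre (`Mv i j x p`), `q` a drifted one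
(`Dr s p q`), the chain goes on from `q`; `visit`: the same, but the chain goes on from `x`. The next step starts at a scale `≥ j + g`.
-/

set_option autoImplicit false

namespace Pool.Agent.W_7d29a1_C1.H40

open MeasureTheory Finset
open scoped ENNReal Classical

noncomputable section

/-- A step, two index form. -/
structure SJ (σ : Type*) where
  k : Kd
  a : ℕ
  s : ℕ
  i : ℕ
  j : ℕ
  p : σ
  q : σ

/-- The relations of the centres, two index form. -/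
structure RJ (σ : Type*) where
  m : ℕ
  lam : ℕ
  g : ℕ
  m3 : ℕ
  W : Set σ
  Mv : ℕ → ℕ → σ → σ → Prop
  Dr : ℕ → σ → σ → Prop

namespace RJ

variable {σ Ω : Type*} (R : RJ σ)

/-- A legal step. -/
def Ok (x : σ) (τ : ℕ) (c : SJ σ) : Prop :=
  τ ≤ c.a ∧ c.a ≤ c.s ∧ c.s < c.i ∧ c.i ≤ c.j ∧ c.a + R.lam ≤ c.i ∧ c.j ≤ R.m ∧ c.p ∈ R.W ∧ c.q ∈ R.W ∧
    (c.k = Kd.stay → c.p = x ∧ c.q = x ∧ c.j = c.i) ∧ (c.k ≠ Kd.stay → R.Mv c.i c.j x c.p ∧ R.Dr c.s c.p c.q)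

/-- The next centre. -/
def nxc (x : σ) (c : SJ σ) : σ := if c.k = Kd.move then c.q else x

/-- Chains from `(x, τ)`. -/
def IsC : σ → ℕ → List (SJ σ) → Prop
  | _, _, [] => True
  | x, τ, c :: l => R.Ok x τ c ∧ IsC (nxc x c) (c.j + R.g) l

/-- The depth of a step. -/
def dst (dep : ℕ → σ → Ω → ℕ) (c : SJ σ) (ω : Ω) : ℕ :=
  ∑ u ∈ Ico c.a c.s, dep u c.p ω + ∑ u ∈ Ico c.s c.i, dep u c.q ω + ∑ u ∈ Ico (c.i + R.m3) c.j, dep u c.p ω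

/-- The depth of a chain. -/
def nm (dep : ℕ → σ → Ω → ℕ) (l : List (SJ σ)) (ω : Ω) : ℕ := (l.map fun c => R.dst dep c ω).sum

/-- **The potential.** -/
def Pot (dep : ℕ → σ → Ω → ℕ) (y : ℝ≥0∞) (x : σ) (τ : ℕ) (ω : Ω) : ℝ≥0∞ :=
  ⨅ l : {l : List (SJ σ) // R.IsC x τ l}, y ^ R.nm dep l.1 ω

variable {R}

theorem nm_cons (dep : ℕ → σ → Ω → ℕ) (c : SJ σ) (l : List (SJ σ)) (ω : Ω) :
    R.nm dep (c :: l) ω = R.dst dep c ω + R.nm dep l ω := by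
  simp [nm]

theorem IsC.mono {x : σ} {τ τ' : ℕ} (h : τ ≤ τ') {l : List (SJ σ)} (hl : R.IsC x τ' l) : R.IsC x τ l := by
  cases l with
  | nil => exact trivial
  | cons c l => exact ⟨⟨h.trans hl.1.1, hl.1.2⟩, hl.2⟩

theorem Pot_le_one (dep : ℕ → σ → Ω → ℕ) (y : ℝ≥0∞) (x : σ) (τ : ℕ) (ω : Ω) : R.Pot dep y x τ ω ≤ 1 := by
  refine (iInf_le _ (⟨[], trivial⟩ : {l : List (SJ σ) // R.IsC x τ l})).trans ?_
  show y ^ (0 : ℕ) ≤ 1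
  rw [pow_zero]

theorem Pot_mono (dep : ℕ → σ → Ω → ℕ) (y : ℝ≥0∞) (x : σ) {τ τ' : ℕ} (h : τ ≤ τ') (ω : Ω) :
    R.Pot dep y x τ ω ≤ R.Pot dep y x τ' ω :=
  le_iInf fun l => iInf_le (fun l : {l : List (SJ σ) // R.IsC x τ l} => y ^ R.nm dep l.1 ω) ⟨l.1, l.2.mono h⟩

theorem measurable_nm [MeasurableSpace Ω] {dep : ℕ → σ → Ω → ℕ} (hm : ∀ u ρ, Measurable (dep u ρ)) (l : List (SJ σ)) :
    Measurable (R.nm dep l) := by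
  induction l with
  | nil => exact measurable_const
  | cons c l ih =>
    have e : R.nm dep (c :: l) = fun ω => R.dst dep c ω + R.nm dep l ω := funext fun ω => nm_cons dep c l ω
    rw [e]
    exact (((Finset.measurable_sum _ fun u _ => hm u _).add (Finset.measurable_sum _ fun u _ => hm u _)).add
      (Finset.measurable_sum _ fun u _ => hm u _)).add ih

instance [Countable σ] : Countable (SJ σ) := by
  let f : SJ σ → (Bool × Bool) × (ℕ × ℕ × ℕ × ℕ) × σ × σ := fun c =>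
    ((decide (c.k = Kd.stay), decide (c.k = Kd.move)), (c.a, c.s, c.i, c.j), c.p, c.q)
  have hf : Function.Injective f := by
    rintro ⟨k, a, s, i, j, p, q⟩ ⟨k', a', s', i', j', p', q'⟩ h
    simp only [f, Prod.mk.injEq] at h
    obtain ⟨⟨h1, h2⟩, ⟨rfl, rfl, rfl, rfl⟩, rfl, rfl⟩ := h
    have : k = k' := by cases k <;> cases k' <;> simp_all
    rw [this]
  exact hf.countable

theorem measurable_Pot [MeasurableSpace Ω] [Countable σ] {dep : ℕ → σ → Ω → ℕ} (hm : ∀ u ρ, Measurable (dep u ρ)) (y : ℝ≥0∞)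
    (x : σ) (τ : ℕ) : Measurable (R.Pot dep y x τ) := by
  have hc : Countable {l : List (SJ σ) // R.IsC x τ l} := inferInstance
  exact Measurable.iInf fun l => (measurable_from_top (f := fun n : ℕ => y ^ n)).comp (measurable_nm hm l.1)

/-- `(ρ, u)` is an own slab of the step `c`. -/
def Own (m3 : ℕ) (c : SJ σ) (u : ℕ) (ρ : σ) : Prop :=
  (ρ = c.p ∧ c.a ≤ u ∧ u < c.s) ∨ (ρ = c.q ∧ c.s ≤ u ∧ u < c.i) ∨ (ρ = c.p ∧ c.i + m3 ≤ u ∧ u < c.j)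

/-- The own slabs which a chain from `(x, τ)` can use. -/
def Rc (R : RJ σ) (x : σ) (τ u : ℕ) (ρ : σ) : Prop := ∃ l c, R.IsC x τ l ∧ c ∈ l ∧ Own R.m3 c u ρ

theorem IsC.mem {x : σ} {τ : ℕ} {l : List (SJ σ)} (h : R.IsC x τ l) {c : SJ σ} (hc : c ∈ l) :
    ∃ y τ', τ ≤ τ' ∧ R.Ok y τ' c := by
  induction l generalizing x τ with
  | nil => exact absurd hc (by simp)
  | cons d l ih =>
    rcases List.mem_cons.1 hc with rfl | hc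
    · exact ⟨x, τ, le_rfl, h.1⟩
    · obtain ⟨y, τ', h1, h2⟩ := ih h.2 hc
      obtain ⟨g1, g2, g3, g4, -⟩ := h.1
      exact ⟨y, τ', by omega, h2⟩

theorem Rc.spec {x : σ} {τ u : ℕ} {ρ : σ} (h : R.Rc x τ u ρ) : ρ ∈ R.W ∧ τ ≤ u ∧ u < R.m := by
  obtain ⟨l, c, h1, h2, h3⟩ := h
  obtain ⟨y, τ', h4, h5, h6, h7, h8, h9, h10, h11, h12, -, -⟩ := h1.mem h2
  rcases h3 with ⟨rfl, h13, h14⟩ | ⟨rfl, h13, h14⟩ | ⟨rfl, h13, h14⟩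
  · exact ⟨h11, by omega, by omega⟩
  · exact ⟨h12, by omega, by omega⟩
  · exact ⟨h11, by omega, by omega⟩

/-- **Comparison**: fewer abnormal own slabs, larger potential. -/
theorem Pot_le_Pot {dep dep' : ℕ → σ → Ω → ℕ} {y : ℝ≥0∞} (hy : y ≤ 1) {x : σ} {τ : ℕ} {ω ω' : Ω}
    (h : ∀ u ρ, R.Rc x τ u ρ → dep' u ρ ω' ≤ dep u ρ ω) : R.Pot dep y x τ ω ≤ R.Pot dep' y x τ ω' := by
  refine le_iInf fun l => (iInf_le _ l).trans ?_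
  obtain ⟨l, hl⟩ := l
  refine pow_le_pow_right_of_le_one' hy ?_
  refine List.sum_le_sum fun c hc => ?_
  refine Nat.add_le_add (Nat.add_le_add (sum_le_sum fun u hu => ?_) (sum_le_sum fun u hu => ?_)) (sum_le_sum fun u hu => ?_)
  · rw [mem_Ico] at hu
    exact h u _ ⟨l, c, hl, hc, Or.inl ⟨rfl, hu.1, hu.2⟩⟩
  · rw [mem_Ico] at hu
    exact h u _ ⟨l, c, hl, hc, Or.inr (Or.inl ⟨rfl, hu.1, hu.2⟩)⟩
  · rw [mem_Ico] at hu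
    exact h u _ ⟨l, c, hl, hc, Or.inr (Or.inr ⟨rfl, hu.1, hu.2⟩)⟩

/-- **One step.** -/
theorem Pot_step {dep : ℕ → σ → Ω → ℕ} {y : ℝ≥0∞} (hy : y ≠ ∞) {x : σ} {τ τ' : ℕ} {c : SJ σ} (h : R.Ok x τ c)
    (hτ : c.j + R.g ≤ τ') (ω : Ω) : R.Pot dep y x τ ω ≤ y ^ R.dst dep c ω * R.Pot dep y (nxc x c) τ' ω := by
  unfold Pot
  have : Nonempty {l : List (SJ σ) // R.IsC (nxc x c) τ' l} := ⟨⟨[], trivial⟩⟩
  rw [ENNReal.mul_iInf fun h => absurd h (ENNReal.pow_ne_top hy)]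
  refine le_iInf fun l => ?_
  obtain ⟨l, hl⟩ := l
  refine (iInf_le _ (⟨c :: l, h, hl.mono hτ⟩ : {l : List (SJ σ) // R.IsC x τ l})).trans ?_
  show y ^ R.nm dep (c :: l) ω ≤ _
  rw [nm_cons, pow_add]

/-- If no chain from `(x, τ)` is deeper than `r`, the potential is at least `y ^ r`. -/
theorem le_Pot {dep : ℕ → σ → Ω → ℕ} {y : ℝ≥0∞} (hy : y ≤ 1) {x : σ} {τ r : ℕ} {ω : Ω}
    (h : ∀ l, R.IsC x τ l → R.nm dep l ω ≤ r) : y ^ r ≤ R.Pot dep y x τ ω :=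
  le_iInf fun l => pow_le_pow_right_of_le_one' hy (h l.1 l.2)

/-! ### The fields -/

/-- **`pot_late`.** -/
theorem pot_late {T T' : ℕ → σ → Set Ω} {y : ℝ≥0∞} (hy : y ≤ 1) {x : σ} (hx : x ∈ R.W) {τ a i τ' : ℕ} (h1 : τ ≤ a)
    (h2 : a + R.lam ≤ i) (h3 : a < i) (h4 : i ≤ R.m) (hτ : i + R.g ≤ τ') {S : Finset ℕ} (hS : S ⊆ Ico a i)
    (hT : ∀ u ∈ S, T u x ⊆ T' u x) (ω : Ω) :
    R.Pot (Rl.dpT T) y x τ ω ≤ (∏ u ∈ S, (if ω ∈ T' u x then 1 else y)) * R.Pot (Rl.dpT T) y x τ' ω := by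
  have hy' : y ≠ ∞ := (hy.trans_lt ENNReal.one_lt_top).ne
  refine (Pot_step (R := R) (c := ⟨Kd.stay, a, a, i, i, x, x⟩) hy' ⟨h1, le_rfl, h3, le_rfl, h2, h4, hx, hx,
    fun _ => ⟨rfl, rfl, rfl⟩, fun h => absurd rfl h⟩ hτ ω).trans ?_
  have e : nxc x (⟨Kd.stay, a, a, i, i, x, x⟩ : SJ σ) = x := if_neg (by simp)
  rw [e]
  refine mul_le_mul' ?_ le_rfl
  have e2 : R.dst (Rl.dpT T) (⟨Kd.stay, a, a, i, i, x, x⟩ : SJ σ) ω = ∑ u ∈ Ico a i, Rl.dpT T u x ω := by simp [dst]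
  rw [e2]
  exact Rl.pow_sum_le hy hS hT

/-- **`pot_none`.** -/
theorem pot_none {T : ℕ → σ → Set Ω} {y : ℝ≥0∞} (hy : y ≤ 1) {x ρ : σ} (hρ : ρ ∈ R.W) {τ a i j τ' : ℕ} (h1 : τ ≤ a)
    (h2 : a + R.lam ≤ i) (h3 : a < i) (hij : i ≤ j) (h4 : j ≤ R.m) (hτ : j + R.g ≤ τ') (hmv : R.Mv i j x ρ) (hdr : R.Dr a ρ ρ)
    {ω : Ω} (hab : ∀ u ∈ Ico a i, ω ∉ T u ρ) (hab' : ∀ u ∈ Ico (i + R.m3) j, ω ∉ T u ρ) :
    R.Pot (Rl.dpT T) y x τ ω ≤ y ^ ((i - a) + (j - (i + R.m3))) * R.Pot (Rl.dpT T) y x τ' ω := by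
  have hy' : y ≠ ∞ := (hy.trans_lt ENNReal.one_lt_top).ne
  refine (Pot_step (R := R) (c := ⟨Kd.visit, a, a, i, j, ρ, ρ⟩) hy' ⟨h1, le_rfl, h3, hij, h2, h4, hρ, hρ,
    fun h => absurd h (by simp), fun _ => ⟨hmv, hdr⟩⟩ hτ ω).trans ?_
  have e : nxc x (⟨Kd.visit, a, a, i, j, ρ, ρ⟩ : SJ σ) = x := if_neg (by simp)
  rw [e]
  refine mul_le_mul' (le_of_eq ?_) le_rfl
  have e2 : R.dst (Rl.dpT T) (⟨Kd.visit, a, a, i, j, ρ, ρ⟩ : SJ σ) ω =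
      ∑ u ∈ Ico a i, Rl.dpT T u ρ ω + ∑ u ∈ Ico (i + R.m3) j, Rl.dpT T u ρ ω := by simp [dst]
  rw [e2, Rl.sum_dpT hab, Rl.sum_dpT hab']

/-- **`pot_early`.** -/
theorem pot_early {T T' : ℕ → σ → Set Ω} {y : ℝ≥0∞} (hy : y ≤ 1) {x ρ ρ' : σ} (hρ : ρ ∈ R.W) (hρ' : ρ' ∈ R.W)
    {τ a s i j τ' : ℕ} (h1 : τ ≤ a) (h2 : a + R.lam ≤ i) (has : a ≤ s) (h3 : s < i) (hij : i ≤ j) (h4 : j ≤ R.m)
    (hτ : j + R.g ≤ τ') (hmv : R.Mv i j x ρ) (hdr : R.Dr s ρ ρ') {S : Finset ℕ} (hS : S ⊆ Ico s i)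
    (hT : ∀ u ∈ S, T u ρ' ⊆ T' u ρ') {ω : Ω} (hab : ∀ u ∈ Ico a s, ω ∉ T u ρ) (hab' : ∀ u ∈ Ico (i + R.m3) j, ω ∉ T u ρ) :
    R.Pot (Rl.dpT T) y x τ ω ≤ y ^ ((s - a) + (j - (i + R.m3))) *
      ((∏ u ∈ S, (if ω ∈ T' u ρ' then 1 else y)) * R.Pot (Rl.dpT T) y ρ' τ' ω) := by
  have hy' : y ≠ ∞ := (hy.trans_lt ENNReal.one_lt_top).ne
  refine (Pot_step (R := R) (c := ⟨Kd.move, a, s, i, j, ρ, ρ'⟩) hy' ⟨h1, has, h3, hij, h2, h4, hρ, hρ',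
    fun h => absurd h (by simp), fun _ => ⟨hmv, hdr⟩⟩ hτ ω).trans ?_
  have e : nxc x (⟨Kd.move, a, s, i, j, ρ, ρ'⟩ : SJ σ) = ρ' := if_pos rfl
  rw [e, ← mul_assoc]
  refine mul_le_mul' ?_ le_rfl
  have e2 : R.dst (Rl.dpT T) (⟨Kd.move, a, s, i, j, ρ, ρ'⟩ : SJ σ) ω =
      ∑ u ∈ Ico a s, Rl.dpT T u ρ ω + ∑ u ∈ Ico s i, Rl.dpT T u ρ' ω + ∑ u ∈ Ico (i + R.m3) j, Rl.dpT T u ρ ω := rfl
  rw [e2, Rl.sum_dpT hab, Rl.sum_dpT hab', show s - a + ∑ u ∈ Ico s i, Rl.dpT T u ρ' ω + (j - (i + R.m3)) =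
    (s - a + (j - (i + R.m3))) + ∑ u ∈ Ico s i, Rl.dpT T u ρ' ω by ring, pow_add]
  exact mul_le_mul' le_rfl (Rl.pow_sum_le hy hS hT)

/-- The loss of the first `m3` scales: `θ ^ (2 m3)` if `y = θ⁻²`. -/
theorem y_pow_le {θ y : ℝ≥0∞} (hθ : 1 ≤ θ) (hθt : θ ≠ ∞) (hy : y = (θ ^ 2)⁻¹) {i j m3 a q0 : ℕ} (hij : i ≤ j) (hq : 2 * m3 ≤ q0) :
    y ^ (a + (j - (i + m3))) ≤ θ ^ q0 * y ^ (a + (j - i)) := by
  have h0 : θ ≠ 0 := (zero_lt_one.trans_le hθ).ne'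
  have hy1 : y ≤ 1 := by
    rw [hy]
    exact ENNReal.inv_le_one.2 (one_le_pow₀ hθ)
  have e : θ ^ 2 * y = 1 := by rw [hy]; exact ENNReal.mul_inv_cancel (pow_ne_zero _ h0) (ENNReal.pow_ne_top hθt)
  have h1 : y ^ (a + (j - (i + m3))) = (θ ^ 2 * y) ^ m3 * y ^ (a + (j - (i + m3))) := by rw [e, one_pow, one_mul]
  rw [h1, mul_pow, ← pow_mul, mul_assoc, ← pow_add]
  refine mul_le_mul' (pow_le_pow_right₀ hθ hq) (pow_le_pow_right_of_le_one' hy1 (by omega))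

end RJ

end

end Pool.Agent.W_7d29a1_C1.H40
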