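import Pool.Agent.W_7d29a1_C1.GeoJ37
import Pool.Agent.W_7d29a1_C1.ChnJ40

/-!
MP_7d29a1_pr, the attractor route, separation by moving the contact: THE LOCAL COUNTS OF THE CHAINS with two indices. (helper37)
-/

set_option autoImplicit false

namespace Pool.Agent.W_7d29a1_C1.G37

open MeasureTheory Finset
open Pool.Agent.W_7d29a1_F Pool.Agent.W_7d29a1_C1.S71 Pool.Agent.W_7d29a1_C1.H40 Pool.Agent.W_7d29a1_C1.H49

noncomputable section

namespace Gm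

variable (G : Gm) {F : Finset (ℕ × ℤ)}

/-- `y` is close to `p` at the scales `< j`. -/
theorem close_lt {j : ℕ} (hj : j ≤ G.M) {y p : {c // c ∈ F}}
    (h : p = y ∨ (∃ s < j, y ∈ G.nb F s (G.cel F s p)) ∨ ∃ i' j', j' < j ∧ G.relj i' j' y.1 p.1) :
    |(p.1.1 : ℤ) - y.1.1| ≤ 2 * G.T j ∧ |G.lat p.1 - G.lat y.1| ≤ (G.kn + G.kb + 1) * G.w j := by
  have hkn := G.kn_nonneg
  have hkb := G.kb_ge
  have hwj := G.w_pos j
  have hTj := G.T_pos' j
  rcases h with rfl | ⟨s, hs, h⟩ | ⟨i', j', hj', h⟩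
  · rw [sub_self, sub_self, abs_zero, abs_zero]
    exact ⟨by linarith, by positivity⟩
  · obtain ⟨h1, h2⟩ := G.nb_near (y := p.1) rfl ((G.mem_nb).1 h)
    rw [abs_sub_comm, abs_sub_comm (G.lat p.1)]
    have h3 := G.T_mono' hs.le
    have h4 := G.w_mono hs.le
    refine ⟨h1.trans (by linarith), h2.trans ?_⟩
    calc (G.kb + 1) * G.w s ≤ (G.kb + 1) * G.w j := mul_le_mul_of_nonneg_left h4 (by linarith)
      _ ≤ _ := mul_le_mul_of_nonneg_right (by linarith) hwj.le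
  · obtain ⟨h1, -, h3, h4, h5, -⟩ := h
    have h6 := h4 (by omega)
    have h7 : |G.lat y.1 - G.lat p.1| ≤ G.kn * G.w (j' + 1) := h5 (by omega)
    have h8 := G.T_mono' (show i' + 1 ≤ j by omega)
    have h9 := G.w_mono (show j' + 1 ≤ j by omega)
    have h10 := G.T_pos' i'
    refine ⟨?_, ?_⟩
    · rw [abs_le]
      constructor <;> linarith
    · rw [abs_sub_comm]
      refine h7.trans ?_
      calc G.kn * G.w (j' + 1) ≤ G.kn * G.w j := mul_le_mul_of_nonneg_left h9 hkn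
        _ ≤ _ := mul_le_mul_of_nonneg_right (by linarith) hwj.le

/-- **`nr`** (two indices): `p` is at the lower end of a step of the centre `y`, `p'` is the next place, at the scale `j ≤ M`. -/
theorem nr_count {j : ℕ} (hj : j ≤ G.M) (κ : ℤ × ℤ) : ∃ A : Finset (ℤ × ℤ), A.card ≤ G.An ∧
    ∀ y p p' : {c // c ∈ F}, G.loc j p'.1 = κ →
      (p = y ∨ (∃ s < j, y ∈ G.nb F s (G.cel F s p)) ∨ ∃ i' j', j' < j ∧ G.relj i' j' y.1 p.1) →
      (p' = y ∨ (j < G.M ∧ ∃ i, G.relj i j y.1 p'.1)) → G.loc j p.1 ∈ A := by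
  have hkn := G.kn_nonneg
  have hkb := G.kb_ge
  have hw := G.w_mono (show j ≤ j + 1 by omega)
  have hw0 := G.w_pos (j + 1)
  have hT := G.T_lt8 (show j < j + 1 by omega)
  refine ⟨bx κ (4 * G.K ^ 3 + 1) (G.Bn + 1), (card_bx _ _ _).le, fun y p p' hκ h h' => ?_⟩
  obtain ⟨h1, h2⟩ := G.close_lt hj h
  have h3 : |(y.1.1 : ℤ) - p'.1.1| ≤ 2 * G.T (j + 1) ∧ |G.lat y.1 - G.lat p'.1| ≤ G.kn * G.w (j + 1) := by
    rcases h' with rfl | ⟨hjM, i, h4, -, h5, h6, h7, -⟩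
    · rw [sub_self, sub_self, abs_zero, abs_zero]
      exact ⟨by linarith [G.T_pos' (j + 1)], by positivity⟩
    · have h8 := h6 (by omega)
      have h9 := G.T_mono' (show i + 1 ≤ j + 1 by omega)
      have h10 := G.T_pos' i
      refine ⟨?_, h7 hjM⟩
      rw [abs_le]
      constructor <;> linarith
  rw [← hκ]
  refine G.near_count ?_ ?_
  · have e : (p.1.1 : ℤ) - p'.1.1 = ((p.1.1 : ℤ) - y.1.1) + ((y.1.1 : ℤ) - p'.1.1) := by ring
    rw [e]
    refine (abs_add_le _ _).trans ?_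
    linarith [h3.1, G.T_pos' j]
  · have e : G.lat p.1 - G.lat p'.1 = (G.lat p.1 - G.lat y.1) + (G.lat y.1 - G.lat p'.1) := by ring
    rw [e]
    refine (abs_add_le _ _).trans ?_
    have h4 : (G.kn + G.kb + 1) * G.w j ≤ (G.kn + G.kb + 1) * G.w (j + 1) := mul_le_mul_of_nonneg_left hw (by linarith)
    nlinarith [h3.2]

/-- **`top`**: the cells of the scale `mt`. -/
theorem top_count (F : Finset (ℕ × ℤ)) (mt : ℕ) : ∃ A : Finset (ℤ × ℤ), A.card ≤ (F.image (G.loc mt)).card ∧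
    ∀ x : {c // c ∈ F}, G.loc mt x.1 ∈ A :=
  ⟨F.image (G.loc mt), le_rfl, fun x => mem_image_of_mem _ x.2⟩

/-! ### The data of the chains, two indices -/

/-- The geometry of the towers: top tower scale `mt`, admissible centres `W`. -/
def geoJ (F : Finset (ℕ × ℤ)) (mt : ℕ) (W : Set {c // c ∈ F}) : Geo {c // c ∈ F} (ℤ × ℤ) where
  T0 := G.T0
  K := G.K
  m := mt
  hT := G.hT
  hK := G.hK
  row x := (x.1.1 : ℤ)
  loc u x := G.loc u x.1
  nest u v h x y e := G.loc_nest h e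
  near i x ρ := G.near i x.1 ρ.1
  W := W

/-- The relations of the chains, two indices. -/
def rjG (F : Finset (ℕ × ℤ)) (la m3 : ℕ) (W : Set {c // c ∈ F}) : RJ {c // c ∈ F} where
  m := G.M
  lam := la
  g := G.m2
  m3 := m3
  W := W
  Mv i j x p := G.relj i j x.1 p.1
  Dr s p q := q ∈ G.nb F s (G.cel F s p)

/-- The admissible centres: the towers stay below the row `N`. -/
def Wr (F : Finset (ℕ × ℤ)) (mt N : ℕ) : Set {c // c ∈ F} := {x | x.1.1 + 2 * G.T mt ≤ N}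

theorem locRowJ (F : Finset (ℕ × ℤ)) (mt : ℕ) (W : Set {c // c ∈ F}) : Geo.LocRow (G.geoJ F mt W) := by
  intro u x y h
  have h1 : (x.1.1 : ℤ) / (G.T (u - 2) : ℤ) = (y.1.1 : ℤ) / (G.T (u - 2) : ℤ) := congrArg Prod.fst h
  show nxt (G.T (u - 2)) (x.1.1 : ℤ) = nxt (G.T (u - 2)) (y.1.1 : ℤ)
  unfold nxt
  rw [h1]

/-- `mv`: rows and columns of a move with `j < M`. -/
theorem mvJ {i j : ℕ} {x p : {c // c ∈ F}} (h : G.relj i j x.1 p.1) (hj : j < G.M) :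
    (G.T i : ℤ) ≤ (x.1.1 : ℤ) - p.1.1 ∧ (x.1.1 : ℤ) - p.1.1 ≤ 2 * G.T (i + 1) ∧
      |G.lat x.1 - G.lat p.1| ≤ G.kn * G.w (j + 1) :=
  ⟨h.2.2.1, h.2.2.2.1 (lt_of_le_of_lt h.1 hj), h.2.2.2.2.1 hj⟩

/-- `mv`: the lower bound of the rows, always. -/
theorem mvJ_low {i j : ℕ} {x p : {c // c ∈ F}} (h : G.relj i j x.1 p.1) : (G.T i : ℤ) ≤ (x.1.1 : ℤ) - p.1.1 := h.2.2.1

/-- `dr`: rows and columns of a drift. -/
theorem drJ {s : ℕ} {p q : {c // c ∈ F}} (h : q ∈ G.nb F s (G.cel F s p)) :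
    nxt (G.T (s - 2)) (p.1.1 : ℤ) ≤ nxt (G.T (s - 2)) (q.1.1 : ℤ) ∧ (q.1.1 : ℤ) ≤ p.1.1 + 2 * G.T s ∧
      |G.lat p.1 - G.lat q.1| ≤ (G.kb + 1) * G.w s := by
  have h1 := (G.mem_nb).1 h
  obtain ⟨h2, h3⟩ := G.dr_rows (p := p.1) h1
  refine ⟨h2, h3, ?_⟩
  rw [abs_sub_comm]
  exact (G.nb_near rfl h1).2

end Gm

end

end Pool.Agent.W_7d29a1_C1.G37
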