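import Pool.Agent.W_7d29a1_C1.Geo37

/-!
MP_7d29a1_pr, the attractor route, separation by moving the contact: THE GEOMETRY ON A FINITE SET OF SITES: the types of `MoveD`
(`X = {c // c ∈ F}`, `K u = {κ // κ ∈ F.image (loc u)}`), the parameters `Par`, the multiplicity of the target sites, the input
`hrel` of `Rel49`, the data `Geo`, `Rl`, `GR` of `ChnH40` and the counts of its codes. (helper37)
-/

set_option autoImplicit false

namespace Pool.Agent.W_7d29a1_C1.G37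

open MeasureTheory Finset
open Pool.Agent.W_7d29a1_F Pool.Agent.W_7d29a1_C1.S71 Pool.Agent.W_7d29a1_C1.H40 Pool.Agent.W_7d29a1_C1.H49
open scoped ENNReal

noncomputable section

namespace Gm

variable (G : Gm) (F : Finset (ℕ × ℤ))

/-- The cells. -/
def Kc (u : ℕ) : Type := {κ : ℤ × ℤ // κ ∈ F.image (G.loc u)}

instance (u : ℕ) : Fintype (G.Kc F u) := inferInstanceAs (Fintype {κ : ℤ × ℤ // κ ∈ F.image (G.loc u)})

/-- The cell of a site. -/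
def cel (u : ℕ) (x : {c // c ∈ F}) : G.Kc F u := ⟨G.loc u x.1, mem_image_of_mem _ x.2⟩

open Classical in
/-- The target sites. -/
def nb (s : ℕ) (κ : G.Kc F s) : Finset {c // c ∈ F} := univ.filter fun x => G.Nb s κ.1 x.1

/-- The first row of a cell. -/
def low (s : ℕ) (κ : G.Kc F s) : ℤ := G.lo s κ.1

/-- The resampling. -/
def Rs (s : ℕ) (κ : G.Kc F s) (η ω : Env) : Env := G.R s κ.1 η ω

/-- The parameters of `MoveD`. -/
def par (th : ℕ → ℕ → ℝ) (sl : ℕ → ℝ) (be : ℕ → ℕ → ℝ) (b : ℕ → ℝ) (st : ℕ → ℕ → ℕ) (κ3 θ : ℝ≥0∞) :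
    Par {c // c ∈ F} where
  row x := (x.1.1 : ℤ)
  dk := G.dk
  dl := G.dl
  th := th
  sl := sl
  be := be
  b := b
  st := st
  rel i x ρ := G.rel i x.1 ρ.1
  κ3 := κ3
  θ := θ
  M := G.M
  m0 := G.m0
  m2 := G.m2

variable {F}

theorem mem_nb {s : ℕ} {κ : G.Kc F s} {x : {c // c ∈ F}} : x ∈ G.nb F s κ ↔ G.Nb s κ.1 x.1 := by
  classical
  unfold nb
  rw [mem_filter]
  exact ⟨fun h => h.2, fun h => ⟨mem_univ _, h⟩⟩

theorem cel_val (u : ℕ) (x : {c // c ∈ F}) : (G.cel F u x).1 = G.loc u x.1 := rfl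

theorem exists_cel {u : ℕ} (κ : G.Kc F u) : ∃ x, G.cel F u x = κ := by
  obtain ⟨κ, h⟩ := κ
  obtain ⟨c, hc, rfl⟩ := mem_image.1 h
  exact ⟨⟨c, hc⟩, rfl⟩

/-! ### Boxes of cells -/

/-- The cells near a cell. -/
def bx (κ : ℤ × ℤ) (A B : ℕ) : Finset (ℤ × ℤ) := Icc (κ.1 - A) (κ.1 + A) ×ˢ Icc (κ.2 - B) (κ.2 + B)

theorem card_bx (κ : ℤ × ℤ) (A B : ℕ) : (bx κ A B).card = (2 * A + 1) * (2 * B + 1) := by
  unfold bx
  rw [card_product, Int.card_Icc, Int.card_Icc]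
  congr 1 <;> omega

theorem ediv_near {a b D : ℤ} (hD : 0 < D) {A : ℕ} (h : |a - b| ≤ D * A) : |a / D - b / D| ≤ A + 1 := by
  rw [abs_le] at h ⊢
  have h1 := Int.emod_nonneg a hD.ne'
  have h2 := Int.emod_lt_of_pos a hD
  have h3 := Int.mul_ediv_add_emod a D
  have h4 := Int.emod_nonneg b hD.ne'
  have h5 := Int.emod_lt_of_pos b hD
  have h6 := Int.mul_ediv_add_emod b D
  constructor
  · by_contra h7
    have h8 : a / D - b / D + (A + 1) + 1 ≤ 0 := by omega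
    nlinarith
  · by_contra h7
    have h8 : 0 ≤ a / D - b / D - (A + 1) - 1 := by omega
    nlinarith

theorem floor_near {a b g : ℝ} (hg : 0 < g) {B : ℕ} (h : |a - b| ≤ g * B) : |⌊a / g⌋ - ⌊b / g⌋| ≤ (B : ℤ) + 1 := by
  have h0 : |a / g - b / g| ≤ B := by
    rw [← sub_div, abs_div, abs_of_pos hg, div_le_iff₀ hg, mul_comm]
    exact h
  rw [abs_le] at h0 ⊢
  have h1 := Int.floor_le (a / g)
  have h2 := Int.lt_floor_add_one (a / g)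
  have h3 := Int.floor_le (b / g)
  have h4 := Int.lt_floor_add_one (b / g)
  constructor
  · by_contra h7
    have h8 : ⌊a / g⌋ - ⌊b / g⌋ + ((B : ℤ) + 1) + 1 ≤ 0 := by omega
    have h9 : (⌊a / g⌋ : ℝ) - ⌊b / g⌋ + ((B : ℝ) + 1) + 1 ≤ 0 := by exact_mod_cast h8
    linarith
  · by_contra h7
    have h8 : 0 ≤ ⌊a / g⌋ - ⌊b / g⌋ - ((B : ℤ) + 1) - 1 := by omega
    have h9 : (0 : ℝ) ≤ (⌊a / g⌋ : ℝ) - ⌊b / g⌋ - ((B : ℝ) + 1) - 1 := by exact_mod_cast h8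
    linarith

/-- Near sites have near cells. -/
theorem loc_near {u : ℕ} {c c' : ℕ × ℤ} {A B : ℕ} (h1 : |(c.1 : ℤ) - c'.1| ≤ (G.T (u - 2) : ℤ) * A)
    (h2 : |G.lat c - G.lat c'| ≤ (G.g u : ℝ) * B) : G.loc u c ∈ bx (G.loc u c') (A + 1) (B + 1) := by
  have h3 := ediv_near (by have := G.T_pos' (u - 2); omega) h1
  have h4 := floor_near (G.g_pos' u) h2
  rw [abs_le] at h3 h4
  unfold bx
  rw [mem_product, mem_Icc, mem_Icc]
  show (((c'.1 : ℤ) / (G.T (u - 2) : ℤ) - ((A + 1 : ℕ) : ℤ) ≤ (c.1 : ℤ) / (G.T (u - 2) : ℤ) ∧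
    (c.1 : ℤ) / (G.T (u - 2) : ℤ) ≤ (c'.1 : ℤ) / (G.T (u - 2) : ℤ) + ((A + 1 : ℕ) : ℤ)) ∧
    (⌊G.lat c' / (G.g u : ℝ)⌋ - ((B + 1 : ℕ) : ℤ) ≤ ⌊G.lat c / (G.g u : ℝ)⌋ ∧
      ⌊G.lat c / (G.g u : ℝ)⌋ ≤ ⌊G.lat c' / (G.g u : ℝ)⌋ + ((B + 1 : ℕ) : ℤ)))
  push_cast
  refine ⟨⟨?_, ?_⟩, ?_, ?_⟩ <;> linarith [h3.1, h3.2, h4.1, h4.2]

/-- Sites of one cell are near. -/
theorem cell_rows {u : ℕ} {c c' : ℕ × ℤ} (h : G.loc u c = G.loc u c') : |(c.1 : ℤ) - c'.1| ≤ G.T (u - 2) := by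
  have h1 := G.lo_le u c
  have h2 := G.lt_rcc u c
  have h3 := G.lo_le u c'
  have h4 := G.lt_rcc u c'
  rw [h] at h1 h2
  have h5 := G.rcc_eq u (G.loc u c')
  rw [abs_le]
  constructor <;> linarith

theorem cell_lat {u : ℕ} {c c' : ℕ × ℤ} (h : G.loc u c = G.loc u c') : |G.lat c - G.lat c'| ≤ G.g u := by
  have h1 := G.lat_ctr u c
  have h2 := G.lat_ctr u c'
  rw [h] at h1
  rw [abs_le] at h1 h2 ⊢
  constructor <;> linarith [h1.1, h1.2, h2.1, h2.2]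

theorem T_le_sq (u : ℕ) : G.T u ≤ G.K ^ 2 * G.T (u - 2) := by
  have hK := G.hK
  rcases u with _ | _ | u
  · exact Nat.le_mul_of_pos_left _ (Nat.pow_pos (by omega))
  · show Tk G.T0 G.K 1 ≤ G.K ^ 2 * Tk G.T0 G.K 0
    unfold Tk
    have : G.K ≤ G.K ^ 2 := Nat.le_self_pow (by omega) _
    calc G.T0 * G.K ^ 1 = G.K * (G.T0 * G.K ^ 0) := by ring
      _ ≤ _ := Nat.mul_le_mul_right _ this
  · show Tk G.T0 G.K (u + 1 + 1) ≤ G.K ^ 2 * Tk G.T0 G.K u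
    unfold Tk
    exact le_of_eq (by ring)

theorem T_succ_eq (u : ℕ) : G.T (u + 1) = G.K * G.T u := by
  show Tk G.T0 G.K (u + 1) = G.K * Tk G.T0 G.K u
  unfold Tk
  ring

theorem w_le' (u : ℕ) : G.w u ≤ G.Cg * G.g u := G.w_le u

/-- The number for the lateral counts. -/
def Bn : ℕ := (2 * ⌈G.kn⌉₊ + 2 * ⌈G.kb⌉₊ + 2) * G.Cw * G.Cg

theorem Cw_pos : 1 ≤ G.Cw := by
  rcases Nat.eq_zero_or_pos G.Cw with h | h
  · exfalso
    have h1 := G.w_up 0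
    have h2 := G.w_pos 1
    rw [h] at h1
    push_cast at h1
    linarith
  · exact h

/-- Lateral distances. -/
theorem lat_le {i : ℕ} {r : ℝ} (h : r ≤ (2 * G.kn + 2 * G.kb + 2) * G.w (i + 1)) : r ≤ (G.g i : ℝ) * G.Bn := by
  have h1 : G.w (i + 1) ≤ G.Cw * (G.Cg * G.g i) :=
    (G.w_up i).trans (mul_le_mul_of_nonneg_left (G.w_le i) (Nat.cast_nonneg _))
  have h2 : G.kn ≤ ⌈G.kn⌉₊ := Nat.le_ceil _
  have h3 : G.kb ≤ ⌈G.kb⌉₊ := Nat.le_ceil _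
  have h4 := G.kn_nonneg
  have h5 := G.kb_ge
  have h6 := G.w_pos (i + 1)
  refine h.trans ?_
  calc (2 * G.kn + 2 * G.kb + 2) * G.w (i + 1)
      ≤ (2 * ⌈G.kn⌉₊ + 2 * ⌈G.kb⌉₊ + 2 : ℝ) * (G.Cw * (G.Cg * G.g i)) :=
        mul_le_mul (by linarith) h1 h6.le (by positivity)
    _ = (G.g i : ℝ) * G.Bn := by
        unfold Bn
        push_cast
        ring

theorem lat_le0 {i : ℕ} {r : ℝ} (h : r ≤ (2 * G.kn + 2 * G.kb + 2) * G.w i) : r ≤ (G.g i : ℝ) * G.Bn := by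
  refine G.lat_le (h.trans (mul_le_mul_of_nonneg_left (G.w_mono (Nat.le_succ i)) ?_))
  have := G.kn_nonneg
  have := G.kb_ge
  linarith

/-- **The bound of all the local counts.** -/
def An : ℕ := (2 * (4 * G.K ^ 3 + 1) + 1) * (2 * (G.Bn + 1) + 1)

/-- The target sites and their cells. -/
theorem nb_near {s : ℕ} {κ : ℤ × ℤ} {c y : ℕ × ℤ} (hy : G.loc s y = κ) (h : G.Nb s κ c) :
    |(c.1 : ℤ) - y.1| ≤ 2 * G.T s ∧ |G.lat c - G.lat y| ≤ (G.kb + 1) * G.w s := by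
  subst hy
  have h1 := G.lo_le s y
  have h2 := G.lt_rcc s y
  have h3 := h.1
  have h4 := h.2.1
  have h5 := G.rcc_eq s (G.loc s y)
  have h6 := G.T_mono' (show s - 2 ≤ s by omega)
  have h7 := G.lat_ctr s y
  have h8 := h.2.2
  have h9 := G.g_le s
  have h10 := G.w_pos s
  constructor
  · rw [abs_le]
    constructor <;> linarith
  · rw [abs_le] at h7 h8 ⊢
    constructor <;> linarith [h7.1, h7.2, h8.1, h8.2]

/-- **`mult`.** -/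
theorem mult (s : ℕ) (x : {c // c ∈ F}) (A : Finset (G.Kc F s)) (hA : ∀ κ ∈ A, x ∈ G.nb F s κ) : A.card ≤ G.An := by
  classical
  have hsub : A.image (fun κ => κ.1) ⊆ bx (G.loc s x.1) (4 * G.K ^ 3 + 1) (G.Bn + 1) := by
    intro κ hκ
    obtain ⟨κ, h1, rfl⟩ := mem_image.1 hκ
    obtain ⟨y, rfl⟩ := G.exists_cel κ
    have h2 := (G.mem_nb).1 (hA _ h1)
    obtain ⟨h3, h4⟩ := G.nb_near (y := y.1) rfl h2
    have hK := G.hK
    refine G.loc_near (A := 4 * G.K ^ 3) (B := G.Bn) ?_ (G.lat_le0 ?_)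
    · rw [abs_sub_comm]
      refine h3.trans ?_
      have h5 : (G.T s : ℤ) ≤ (G.K : ℤ) ^ 2 * G.T (s - 2) := by exact_mod_cast G.T_le_sq s
      have h6 : (G.K : ℤ) ^ 2 ≤ (G.K : ℤ) ^ 3 := pow_le_pow_right₀ (by exact_mod_cast (by omega)) (by norm_num)
      have h7 := G.T_pos' (s - 2)
      push_cast
      nlinarith
    · rw [abs_sub_comm]
      refine h4.trans (mul_le_mul_of_nonneg_right ?_ (G.w_pos s).le)
      have := G.kn_nonneg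
      have := G.kb_ge
      linarith
  calc A.card = (A.image fun κ => κ.1).card := (card_image_of_injective _ Subtype.val_injective).symm
    _ ≤ _ := card_le_card hsub
    _ = _ := card_bx _ _ _

/-! ### The fields -/

section Fields

variable (th : ℕ → ℕ → ℝ) (sl : ℕ → ℝ) (be : ℕ → ℕ → ℝ) (b : ℕ → ℝ) (st : ℕ → ℕ → ℕ) (κ3 θ : ℝ≥0∞)

theorem hlow (s : ℕ) (ρ : {c // c ∈ F}) : G.low F s (G.cel F s ρ) ≤ (ρ.1.1 : ℤ) := G.lo_le s ρ.1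

/-- **`hrel` of `Rel49`.** -/
theorem hrel {t i : ℕ} (ht : t ≤ i) (hi : i ≤ G.M) {x ρ : ℕ × ℤ} (h : (ρ.1 : ℤ) < (x.1 : ℤ) - G.dk i (t - 1))
    (hn : ¬ G.rel i x ρ) : i < G.M ∧ ((ρ.1 : ℤ) < (x.1 : ℤ) - G.dk (i + 1) (t - 1) ∨ ¬ G.near i x ρ) := by
  have h1 := G.T_mono' (show t - 1 ≤ i by omega)
  have h2 : (G.T i : ℤ) ≤ (x.1 : ℤ) - (ρ.1 : ℤ) := by
    unfold dk at h
    linarith
  have h3 : ¬ (i < G.M → (x.1 : ℤ) - (ρ.1 : ℤ) ≤ 2 * (G.T (i + 1) : ℤ) ∧ G.near i x ρ) := fun h4 => hn ⟨h2, h4⟩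
  rw [Classical.not_imp] at h3
  obtain ⟨h4, h5⟩ := h3
  refine ⟨h4, ?_⟩
  by_cases h6 : (x.1 : ℤ) - (ρ.1 : ℤ) ≤ 2 * (G.T (i + 1) : ℤ)
  · exact Or.inr fun h7 => h5 ⟨h6, h7⟩
  · left
    have h7 := G.T_pos' (t - 1)
    unfold dk
    linarith

end Fields

/-! ### The chains -/

/-- The geometry of `Chn40`. -/
def geo (F : Finset (ℕ × ℤ)) : Geo {c // c ∈ F} (ℤ × ℤ) where
  T0 := G.T0
  K := G.K
  m := G.M
  hT := G.hT
  hK := G.hK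
  row x := (x.1.1 : ℤ)
  loc u x := G.loc u x.1
  nest u v h x y e := G.loc_nest h e
  near i x ρ := G.near i x.1 ρ.1
  W := Set.univ

/-- The relations of `ChnP40`. -/
def rl (F : Finset (ℕ × ℤ)) (la : ℕ) : Rl {c // c ∈ F} where
  m := G.M
  lam := la
  g := G.m2
  W := Set.univ
  Mv i x p := G.rel i x.1 p.1
  Dr s p q := q ∈ G.nb F s (G.cel F s p)

theorem geo_T (F : Finset (ℕ × ℤ)) (u : ℕ) : (G.geo F).T u = G.T u := rfl

theorem locRow (F : Finset (ℕ × ℤ)) : Geo.LocRow (G.geo F) := by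
  intro u x y h
  have h1 : (x.1.1 : ℤ) / (G.T (u - 2) : ℤ) = (y.1.1 : ℤ) / (G.T (u - 2) : ℤ) := congrArg Prod.fst h
  show nxt (G.T (u - 2)) (x.1.1 : ℤ) = nxt (G.T (u - 2)) (y.1.1 : ℤ)
  unfold nxt
  rw [h1]

theorem dr_rows {s : ℕ} {p q : ℕ × ℤ} (h : G.Nb s (G.loc s p) q) :
    nxt (G.T (s - 2)) (p.1 : ℤ) ≤ nxt (G.T (s - 2)) (q.1 : ℤ) ∧ (q.1 : ℤ) ≤ p.1 + 2 * G.T s := by
  constructor
  · exact G.rcc_nb le_rfl h
  · have h1 := (abs_le.1 (G.nb_near rfl h).1).2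
    linarith

end Gm

end

end Pool.Agent.W_7d29a1_C1.G37
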