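import Pool.Agent.W_7d29a1_C1.SepDef53
import Pool.Agent.W_7d29a1_C1.GeoE37

/-!
Both halves (MP_7d29a1_pr), attractor route [C1], SEP (move the contact): THE OSCILLATION OF THE OUTER MASSES (`oscT`, `oscS` of
`MoveC`, parts `em`, `fa`). (helper22)

`Pr Γ a e B d ω ω'` : two environments which are equal off the sites `B` of the rows `a ≤ i < e`, with backward masses of the row `a`
comparable up to `exp d` in both directions (the line (bw) of helper53).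
* `Pr.w_le`, `Pr.em` : the weight of a contact of the rows `< a`, the earlier contacts (factor `exp (4 d)`);
* `Pr.PX_up`, `Pr.PX_lo` : single path probabilities of a set of sites of a row `≤ a` (factor `exp (2 d)`);
* `Pr.PX_far`, `Pr.fa` : the same for a row `≥ e`, if the paths from `B` are steep (`Ste`): factor `exp d` and an additive error;
* `Pr.osc` : `Osc` of HitM49 for the masses of SepDef53, `pot` as a hypothesis;
* `pr_R` : the pair `(ω, R u κ η ω)` of the geometry, in both orders.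
-/

set_option autoImplicit false

namespace Pool.Agent.W_7d29a1_C1.O22

open Finset MeasureTheory
open Pool.Agent.W_7d29a1_F Pool.Agent.W_7d29a1_h4g Pool.Agent.W_7d29a1_HS
open Pool.Agent.W_7d29a1_H hiding ex
open Pool.Agent.W_7d29a1_C1.K91 (Grp Box wt wt_pos measurable_wt)
open Pool.Agent.W_7d29a1_C1.K91P
open Pool.Agent.W_7d29a1_C1.U16 (ker ker_nonneg ker_eq_zero)
open Pool.Agent.W_7d29a1_C1.Sp22 (Ms Ps Zt bf Spl)
open Pool.Agent.W_7d29a1_C1.H60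
open Pool.Agent.W_7d29a1_C1.G37 (Gm)
open Pool.Agent.W_7d29a1_C1.H49 (Par lm ex ex_mono ex_add ex_mul_neg ex_pos ex_ne_top ex_ne_zero Osc)
open Pool.Agent.W_7d29a1_C1.E53
open Pool.Agent.W_7d29a1_C1.SD53
open scoped ENNReal

noncomputable section

/-! ### Steepness -/

/-- **Steepness behind `B`**: from every site of `B` below the row `r` one is in `F` at the row `r` with probability at most `s`. -/
def Ste (Γ : Cx) (B : Set (ℕ × ℤ)) (r : ℕ) (F : Finset ℤ) (s : ℝ) (ω : Env) : Prop :=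
  ∀ i x, i < r → (i, x) ∈ B → ∑ z ∈ F, ker (wt ω) Γ.p i (r - i) x z * bw (wt ω) Γ.p r (Γ.N - r) z ≤ s * bw (wt ω) Γ.p i (Γ.N - i) x

variable {Γ : Cx}

theorem Ste.mono {B B' : Set (ℕ × ℤ)} {r : ℕ} {F F' : Finset ℤ} {s s' : ℝ} {ω : Env} (h : Ste Γ B r F s ω) (hB : B' ⊆ B) (hF : F' ⊆ F)
    (hs : s ≤ s') : Ste Γ B' r F' s' ω := by
  intro i x hi hx
  refine (sum_le_sum_of_subset_of_nonneg hF fun z _ _ => ?_).trans ((h i x hi (hB hx)).trans ?_)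
  · exact mul_nonneg (ker_nonneg (wt_pos ω) Γ.p_pos _ _ _ _) (bw_pos (wt_pos ω) Γ.p_pos _ _ _).le
  · exact mul_le_mul_of_nonneg_right hs (bw_pos (wt_pos ω) Γ.p_pos _ _ _).le

theorem Ste.bf {B : Set (ℕ × ℤ)} {r : ℕ} {F : Finset ℤ} {s : ℝ} {ω : Env} (h : Ste Γ B r F s ω) :
    ∀ i x, i < r → (i, x) ∈ B →
      Sp22.bf (wt ω) Γ.p (fun y => if y ∈ F then bw (wt ω) Γ.p r (Γ.N - r) y else 0) i (r - i) x ≤
        s * bw (wt ω) Γ.p i (Γ.N - i) x := by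
  intro i x hi hx
  refine le_trans ?_ (h i x hi hx)
  rw [Sp22.bf_ker]
  have e : ∀ y ∈ Icc x (x + ((r - i : ℕ) : ℤ)), ker (wt ω) Γ.p i (r - i) x y * (if y ∈ F then bw (wt ω) Γ.p r (Γ.N - r) y else 0) =
      if y ∈ F then ker (wt ω) Γ.p i (r - i) x y * bw (wt ω) Γ.p r (Γ.N - r) y else 0 := by
    intro y _
    split_ifs <;> ring
  rw [sum_congr rfl e, ← sum_filter]
  refine sum_le_sum_of_subset_of_nonneg (fun y hy => (mem_filter.1 hy).2) fun z _ _ => ?_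
  exact mul_nonneg (ker_nonneg (wt_pos ω) Γ.p_pos _ _ _ _) (bw_pos (wt_pos ω) Γ.p_pos _ _ _).le

theorem exists_pos_l : ∃ y, 0 < Cx.l y := ⟨0, by unfold Cx.l; rw [if_pos rfl]; norm_num⟩

theorem exists_pos_r (hΓ : Γ.Ok) : ∃ y, 0 < Γ.r y := by
  by_contra hc
  have h1 := ZG_r_pos hΓ 0
  have h2 : ZG Γ Γ.r 0 ≤ 0 := by
    unfold ZG Sp22.Zt
    refine sum_nonpos fun y _ => ?_
    have h3 : Γ.r y ≤ 0 := not_lt.1 fun h => hc ⟨y, h⟩
    exact mul_nonpos_of_nonpos_of_nonneg h3 (bw_pos (wt_pos 0) Γ.p_pos _ _ _).le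
  exact absurd h1 (not_lt.2 h2)

/-- The final profile of the sites `F` of the row `r`. -/
def Fut (Γ : Cx) (r : ℕ) (F : Finset ℤ) (ω : Env) (y : ℤ) : ℝ := if y ∈ F then bw (wt ω) Γ.p r (Γ.N - r) y else 0

theorem Fut_nonneg (r : ℕ) (F : Finset ℤ) (ω : Env) (y : ℤ) : 0 ≤ Fut Γ r F ω y := by
  unfold Fut
  split_ifs
  · exact (bw_pos (wt_pos ω) Γ.p_pos _ _ _).le
  · exact le_rfl

/-- **The alternative** of helper37 (83217) for the far set `F` of the row `r`, window `B`, first row `a`: (A) the paths from the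
window are steep, or (B) the masses with the final profile of `F` are comparable at the row `a`. -/
def Alt (Γ : Cx) (a : ℕ) (B : Set (ℕ × ℤ)) (r : ℕ) (F : Finset ℤ) (s d₂ : ℝ) (ω ω' : Env) : Prop :=
  Ste Γ B r F s ω ∨ ∀ y, bf (wt ω) Γ.p (Fut Γ r F ω) a (r - a) y ≤ Real.exp d₂ * bf (wt ω') Γ.p (Fut Γ r F ω) a (r - a) y

/-! ### Pairs -/

/-- **The pair** of two environments, equal off the window `B` of the rows `a ≤ i < e`, with comparable backward masses. -/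
structure Pr (Γ : Cx) (a e : ℕ) (B : Set (ℕ × ℤ)) (d : ℝ) (ω ω' : Env) : Prop where
  ha : a ≤ Γ.N
  lt : ∀ i, i < a → wt ω i = wt ω' i
  ge : ∀ i, e ≤ i → wt ω i = wt ω' i
  off : ∀ k y, (k, y) ∉ B → wt ω k y = wt ω' k y
  up : ∀ x, bw (wt ω') Γ.p a (Γ.N - a) x ≤ Real.exp d * bw (wt ω) Γ.p a (Γ.N - a) x
  dn : ∀ x, bw (wt ω) Γ.p a (Γ.N - a) x ≤ Real.exp d * bw (wt ω') Γ.p a (Γ.N - a) x

namespace Pr

variable {a e : ℕ} {B : Set (ℕ × ℤ)} {d : ℝ} {ω ω' : Env}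

theorem symm (h : Pr Γ a e B d ω ω') : Pr Γ a e B d ω' ω :=
  ⟨h.ha, fun i hi => (h.lt i hi).symm, fun i hi => (h.ge i hi).symm, fun k y hk => (h.off k y hk).symm, h.dn, h.up⟩

theorem spl (h : Pr Γ a e B d ω ω') : Spl (wt ω) (wt ω') Γ.p Γ.N a (Real.exp d) (Real.exp d) where
  hw := wt_pos ω
  hw' := wt_pos ω'
  hp := Γ.p_pos
  ha := h.ha
  eq := h.lt
  C0 := Real.exp_pos d
  D0 := Real.exp_pos d
  up := h.up
  dn := h.dn

theorem d0 (h : Pr Γ a e B d ω ω') : 0 ≤ d := by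
  have h1 := h.up 0
  have h2 := h.dn 0
  have h3 := bw_pos (wt_pos ω) Γ.p_pos (Γ.N - a) a 0
  have h4 : bw (wt ω) Γ.p a (Γ.N - a) 0 ≤ Real.exp d * (Real.exp d * bw (wt ω) Γ.p a (Γ.N - a) 0) :=
    h2.trans (mul_le_mul_of_nonneg_left h1 (Real.exp_pos d).le)
  rw [← mul_assoc, ← Real.exp_add] at h4
  have h5 : 1 ≤ Real.exp (d + d) := by
    by_contra h6
    rw [not_le] at h6
    have := mul_lt_mul_of_pos_right h6 h3
    linarith
  have h6 : Real.exp 0 ≤ Real.exp (d + d) := by rwa [Real.exp_zero]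
  have h7 := Real.exp_le_exp.1 h6
  linarith

/-- All rows `≤ a`. -/
theorem row (h : Pr Γ a e B d ω ω') {k : ℕ} (hk : k ≤ a) (x : ℤ) :
    bw (wt ω') Γ.p k (Γ.N - k) x ≤ Real.exp d * bw (wt ω) Γ.p k (Γ.N - k) x := h.spl.row hk x

/-- The totals. -/
theorem ZG (h : Pr Γ a e B d ω ω') {m : ℤ → ℝ} (hm : Ms m 0 Γ.hi Γ.N) : E53.ZG Γ m ω' ≤ Real.exp d * E53.ZG Γ m ω := h.spl.Zt hm

/-- The mass through a set of sites of a row `≤ a`. -/
theorem PG (h : Pr Γ a e B d ω ω') {m : ℤ → ℝ} (hm : Ms m 0 Γ.hi Γ.N) {k : ℕ} (hk : k ≤ a) (A : Finset ℤ) :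
    E53.PG Γ m k A ω' ≤ Real.exp d * E53.PG Γ m k A ω := h.spl.Ps hm hk A

/-- **The weight of a contact** of the rows `< a`. -/
theorem w_le (h : Pr Γ a e B d ω ω') (hΓ : Γ.Ok) {c : ℕ × ℤ} (hc : c.1 < a) : Γ.w c ω' ≤ Real.exp (4 * d) * Γ.w c ω := by
  have h1 := h.spl.pc (Cx.box1 hΓ) exists_pos_l (exists_pos_r hΓ) hc c.2
  unfold Sp22.pc at h1
  rw [Zt_l53 hΓ, Zt_r53, Zt_l53 hΓ, Zt_r53] at h1
  have e1 : (Real.exp d * Real.exp d) ^ 2 = Real.exp (4 * d) := by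
    rw [← Real.exp_add, ← Real.exp_nat_mul]
    congr 1
    push_cast
    ring
  rw [e1] at h1
  exact h1

theorem w_le' (h : Pr Γ a e B d ω ω') (hΓ : Γ.Ok) {x : XX Γ} (hx : x.1.1 < a) : w Γ x ω' ≤ ex (4 * d) * w Γ x ω := by
  unfold SD53.w ex
  rw [← ENNReal.ofReal_mul (Real.exp_pos _).le]
  exact ENNReal.ofReal_le_ofReal (h.w_le hΓ hx)

/-- **THE EARLIER CONTACTS.** -/
theorem em (h : Pr Γ a e B d ω ω') (hΓ : Γ.Ok) {x : XX Γ} {D : ℤ} (hD : (x.1.1 : ℤ) - D ≤ a) :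
    H49.em (SD53.row Γ) (w Γ) D x ω' ≤ ex (4 * d) * H49.em (SD53.row Γ) (w Γ) D x ω := by
  rw [em_eq hΓ, em_eq hΓ]
  unfold ex
  rw [← ENNReal.ofReal_mul (Real.exp_pos _).le, mul_sum]
  refine ENNReal.ofReal_le_ofReal (sum_le_sum fun c hc => h.w_le hΓ ?_)
  have h1 := (Cx.mem_rows.1 hc).1.2
  have h2 := lt_min_iff.1 h1
  omega

/-- Single path probabilities of a row `≤ a`. -/
theorem PX_up (h : Pr Γ a e B d ω ω') {m : ℤ → ℝ} (hm : Ms m 0 Γ.hi Γ.N) (hp : ∃ y, 0 < m y) {k : ℕ} (hk : k ≤ a) (A : Set ℤ) :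
    PX Γ m k A ω' ≤ Real.exp (2 * d) * PX Γ m k A ω := by
  have h1 := h.spl.P1 hm hp hk (bx Γ A)
  rw [← Real.exp_add] at h1
  have e1 : d + d = 2 * d := by ring
  rw [e1] at h1
  exact h1

/-- **FAR PROBABILITIES, MASSES.** `F` at the row `r ≥ e`; the paths from `B` are steep in `ω`. -/
theorem PG_far (h : Pr Γ a e B d ω ω') {m : ℤ → ℝ} (hm : Ms m 0 Γ.hi Γ.N) {r : ℕ} (her : e ≤ r) (hr : r ≤ Γ.N) {F : Finset ℤ} {s : ℝ}
    (hs : 0 ≤ s) (hst : Ste Γ B r F s ω) : E53.PG Γ m r F ω ≤ E53.PG Γ m r F ω' + s * E53.ZG Γ m ω :=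
  Sp22.far_mass (wt_pos ω') (wt_pos ω) Γ.p_pos hm hr (fun k y hk => (h.off k y hk).symm) (fun k hk => (h.ge k (her.trans hk)).symm) hs
    hst.bf

/-- **FAR PROBABILITIES**, `F` at the row `r ≥ e`; the paths from `B` are steep in the OLD environment `ω`: from below. -/
theorem PX_far (h : Pr Γ a e B d ω ω') {m : ℤ → ℝ} (hm : Ms m 0 Γ.hi Γ.N) (hp : ∃ y, 0 < m y) {r : ℕ} (her : e ≤ r) (hr : r ≤ Γ.N)
    {A : Set ℤ} {s : ℝ} (hs : 0 ≤ s) (hst : Ste Γ B r (bx Γ A) s ω) : PX Γ m r A ω ≤ Real.exp d * PX Γ m r A ω' + s := by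
  have h1 := Sp22.far_low (wt_pos ω) (wt_pos ω') Γ.p_pos hm hp hr h.off (fun k hk => h.ge k (her.trans hk)) hs hst.bf
    (Real.exp_pos d) (h.ZG hm)
  rw [div_le_iff₀ (Real.exp_pos d)] at h1
  have h2 : PX Γ m r A ω - s ≤ PX Γ m r A ω' * Real.exp d := h1
  linarith

/-- The final profile is common. -/
theorem fut (h : Pr Γ a e B d ω ω') {r : ℕ} (her : e ≤ r) (F : Finset ℤ) : Fut Γ r F ω' = Fut Γ r F ω := by
  funext y
  unfold Fut
  rw [bw_congr (w := wt ω') (w' := wt ω) (Γ.N - r) r (fun i hi z => by rw [h.ge i (her.trans hi)]) y]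

/-- The mass of a far set by the masses of the row `a` with the final profile. -/
theorem _root_.Pool.Agent.W_7d29a1_C1.O22.PG_bf {m : ℤ → ℝ} (hm : Ms m 0 Γ.hi Γ.N) {a r : ℕ} (har : a ≤ r) (hr : r ≤ Γ.N) (F : Finset ℤ)
    (ω : Env) : E53.PG Γ m r F ω = ∑ y ∈ Icc 0 Γ.hi, fw (wt ω) Γ.p m a y * bf (wt ω) Γ.p (Fut Γ r F ω) a (r - a) y := by
  have h1 : E53.PG Γ m r F ω = ∑ y ∈ Icc 0 Γ.hi, fw (wt ω) Γ.p m r y * Fut Γ r F ω y := Sp22.Ps_fin hm hr F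
  have h2 := Sp22.sum_fw_har hm (Sp22.har_bf (wt ω) Γ.p (Fut Γ r F ω) r) hr (le_refl r)
  have h3 := Sp22.sum_fw_har hm (Sp22.har_bf (wt ω) Γ.p (Fut Γ r F ω) r) hr har
  simp only [Nat.sub_self, Sp22.bf_zero] at h2
  rw [h1, h2, ← h3]

/-- **FAR PROBABILITIES**, case (B). -/
theorem PX_bf (h : Pr Γ a e B d ω ω') {m : ℤ → ℝ} (hm : Ms m 0 Γ.hi Γ.N) (hp : ∃ y, 0 < m y) {r : ℕ} (her : e ≤ r) (hae : a ≤ e)
    (hr : r ≤ Γ.N) {A : Set ℤ} {d₂ : ℝ}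
    (hB : ∀ y, bf (wt ω) Γ.p (Fut Γ r (bx Γ A) ω) a (r - a) y ≤ Real.exp d₂ * bf (wt ω') Γ.p (Fut Γ r (bx Γ A) ω) a (r - a) y) :
    PX Γ m r A ω ≤ Real.exp (d + d₂) * PX Γ m r A ω' := by
  have z : 0 < E53.ZG Γ m ω := Sp22.Zt_pos (wt_pos ω) Γ.p_pos hm hp
  have z' : 0 < E53.ZG Γ m ω' := Sp22.Zt_pos (wt_pos ω') Γ.p_pos hm hp
  have h1 : E53.PG Γ m r (bx Γ A) ω ≤ Real.exp d₂ * E53.PG Γ m r (bx Γ A) ω' := by
    rw [PG_bf hm (hae.trans her) hr, PG_bf hm (hae.trans her) hr, h.fut her, mul_sum]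
    refine sum_le_sum fun y _ => ?_
    rw [h.spl.fw m le_rfl]
    calc fw (wt ω) Γ.p m a y * bf (wt ω) Γ.p (Fut Γ r (bx Γ A) ω) a (r - a) y
        ≤ fw (wt ω) Γ.p m a y * (Real.exp d₂ * bf (wt ω') Γ.p (Fut Γ r (bx Γ A) ω) a (r - a) y) :=
          mul_le_mul_of_nonneg_left (hB y) (fw_nonneg (wt_pos ω) Γ.p_pos hm.nn _ _)
      _ = _ := by ring
  have h2 : E53.ZG Γ m ω' ≤ Real.exp d * E53.ZG Γ m ω := h.ZG hm
  have h3 : 0 ≤ E53.PG Γ m r (bx Γ A) ω' := PG_nonneg hm.nn _ _ _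
  show E53.PG Γ m r (bx Γ A) ω / E53.ZG Γ m ω ≤ Real.exp (d + d₂) * (E53.PG Γ m r (bx Γ A) ω' / E53.ZG Γ m ω')
  rw [Real.exp_add, div_le_iff₀ z]
  have e1 : Real.exp d * Real.exp d₂ * (E53.PG Γ m r (bx Γ A) ω' / E53.ZG Γ m ω') * E53.ZG Γ m ω =
      Real.exp d₂ * E53.PG Γ m r (bx Γ A) ω' * (Real.exp d * E53.ZG Γ m ω / E53.ZG Γ m ω') := by ring
  rw [e1]
  have h4 : 1 ≤ Real.exp d * E53.ZG Γ m ω / E53.ZG Γ m ω' := by
    rw [le_div_iff₀ z', one_mul]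
    exact h2
  calc E53.PG Γ m r (bx Γ A) ω ≤ Real.exp d₂ * E53.PG Γ m r (bx Γ A) ω' * 1 := by rw [mul_one]; exact h1
    _ ≤ _ := mul_le_mul_of_nonneg_left h4 (mul_nonneg (Real.exp_pos _).le h3)

/-- One row, one group. -/
theorem PX_alt (h : Pr Γ a e B d ω ω') {m : ℤ → ℝ} (hm : Ms m 0 Γ.hi Γ.N) (hp : ∃ y, 0 < m y) {r : ℕ} (her : e ≤ r) (hae : a ≤ e)
    (hr : r ≤ Γ.N) {A : Set ℤ} {s d₂ : ℝ} (hs : 0 ≤ s) (hd₂ : 0 ≤ d₂) (hA : Alt Γ a B r (bx Γ A) s d₂ ω ω') :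
    PX Γ m r A ω ≤ Real.exp (d + d₂) * PX Γ m r A ω' + s := by
  have h0 := PX_nonneg (Γ := Γ) hm.nn r A ω'
  rcases hA with h1 | h1
  · refine (h.PX_far hm hp her hr hs h1).trans (add_le_add (mul_le_mul_of_nonneg_right (Real.exp_le_exp.2 (by linarith)) h0) le_rfl)
  · exact (h.PX_bf hm hp her hae hr h1).trans (le_add_of_nonneg_right hs)

/-- **THE FAR MASS**: at most four coarse rows, two groups. -/
theorem fa (h : Pr Γ a e B d ω ω') (hΓ : Γ.Ok) (hae : a ≤ e) {G : Gm} {t k τ : ℕ} (hτ : τ < t) {x : XX Γ}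
    (he : (e : ℤ) ≤ x.1.1 + G.T t) {s d₂ : ℝ} (hs : 0 ≤ s) (hd₂ : 0 ≤ d₂)
    (hst : ∀ r ∈ G.fr t τ x.1, r ≤ (Γ.N : ℤ) → Alt Γ a B r.toNat (bx Γ (G.fs k τ x.1 r)) s d₂ ω ω') :
    SD53.fa Γ G t k τ x ω ≤ ex (d + d₂) * SD53.fa Γ G t k τ x ω' + ENNReal.ofReal (8 * s) := by
  classical
  set Fr := (G.fr t τ x.1).filter (fun r => r ≤ (Γ.N : ℤ)) with hFr
  have h3 : Fr.card ≤ 4 := (card_le_card (filter_subset _ _)).trans (G.card_fr hτ x.1)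
  have key : ∀ r ∈ Fr, ENNReal.ofReal (PX Γ Cx.l r.toNat (G.fs k τ x.1 r) ω) + ENNReal.ofReal (PX Γ Γ.r r.toNat (G.fs k τ x.1 r) ω) ≤
      ex (d + d₂) * (ENNReal.ofReal (PX Γ Cx.l r.toNat (G.fs k τ x.1 r) ω') + ENNReal.ofReal (PX Γ Γ.r r.toNat (G.fs k τ x.1 r) ω')) +
        ENNReal.ofReal (2 * s) := by
    intro r hr
    obtain ⟨a1, a2⟩ := mem_filter.1 hr
    have a3 : (x.1.1 : ℤ) + G.T t ≤ r := by
      have := a1
      unfold Gm.fr at this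
      rw [mem_filter, mem_Icc] at this
      exact this.1.1
    have a4 : e ≤ r.toNat := by omega
    have a5 : r.toNat ≤ Γ.N := by omega
    have one : ∀ {m : ℤ → ℝ}, Ms m 0 Γ.hi Γ.N → (∃ y, 0 < m y) → ENNReal.ofReal (PX Γ m r.toNat (G.fs k τ x.1 r) ω) ≤
        ex (d + d₂) * ENNReal.ofReal (PX Γ m r.toNat (G.fs k τ x.1 r) ω') + ENNReal.ofReal s := by
      intro m hm hp
      unfold ex
      rw [← ENNReal.ofReal_mul (Real.exp_pos _).le, ← ENNReal.ofReal_add (mul_nonneg (Real.exp_pos _).le (PX_nonneg hm.nn _ _ _)) hs]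
      exact ENNReal.ofReal_le_ofReal (h.PX_alt hm hp a4 hae a5 hs hd₂ (hst r a1 a2))
    have o1 := one (ms_l hΓ) exists_pos_l
    have o2 := one (ms_r hΓ) (exists_pos_r hΓ)
    refine (add_le_add o1 o2).trans (le_of_eq ?_)
    rw [two_mul, ENNReal.ofReal_add hs hs]
    ring
  unfold SD53.fa
  rw [← hFr]
  refine (sum_le_sum key).trans ?_
  rw [sum_add_distrib, ← mul_sum]
  refine add_le_add le_rfl ?_
  rw [sum_const, nsmul_eq_mul]
  have h4 : (Fr.card : ℝ≥0∞) ≤ ENNReal.ofReal 4 := by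
    have e : ENNReal.ofReal 4 = ((4 : ℕ) : ℝ≥0∞) := by simp
    rw [e]
    exact_mod_cast h3
  calc _ ≤ ENNReal.ofReal 4 * ENNReal.ofReal (2 * s) := mul_le_mul' h4 le_rfl
    _ = ENNReal.ofReal (8 * s) := by
      rw [← ENNReal.ofReal_mul (by norm_num)]
      congr 1
      ring

/-- The threshold form: an additive error of half the threshold costs `log 2`. -/
theorem _root_.Pool.Agent.W_7d29a1_C1.O22.thr {A A' : ℝ≥0∞} {q d s β : ℝ} (h : A ≤ ex d * A' + ENNReal.ofReal (8 * s))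
    (hs : 16 * s ≤ Real.exp (-q)) (hβ : d + Real.log 2 ≤ β) (hA : ex (-q) ≤ A) : ex (-(q + β)) ≤ A' := by
  by_contra hc
  rw [not_le] at hc
  have h1 : ex d * A' < ex d * ex (-(q + β)) := (ENNReal.mul_lt_mul_iff_right (ex_ne_zero d) (ex_ne_top d)).2 hc
  have h2 : ex (-q) < ex d * ex (-(q + β)) + ENNReal.ofReal (8 * s) :=
    lt_of_le_of_lt (hA.trans h) (ENNReal.add_lt_add_right ENNReal.ofReal_ne_top h1)
  rw [← ex_add] at h2
  rcases le_total s 0 with h0 | h0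
  · rw [ENNReal.ofReal_of_nonpos (by linarith), add_zero] at h2
    have h3 : ex (d + -(q + β)) ≤ ex (-q) := ex_mono (by have := Real.log_pos (show (1 : ℝ) < 2 by norm_num); linarith)
    exact absurd h2 (not_lt.2 h3)
  · unfold ex at h2
    rw [← ENNReal.ofReal_add (Real.exp_pos _).le (by linarith)] at h2
    have h3 : Real.exp (-q) < Real.exp (d + -(q + β)) + 8 * s := (ENNReal.ofReal_lt_ofReal_iff_of_nonneg (Real.exp_pos _).le).1 h2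
    have h4 : Real.exp (d + -(q + β)) ≤ Real.exp (-q) / 2 := by
      have h5 : d + -(q + β) ≤ -q - Real.log 2 := by linarith
      calc Real.exp (d + -(q + β)) ≤ Real.exp (-q - Real.log 2) := Real.exp_le_exp.2 h5
        _ = Real.exp (-q) / 2 := by rw [Real.exp_sub, Real.exp_log (by norm_num)]
    linarith

/-- **`Osc`**: stage `j`, contact `y`. -/
theorem osc (h : Pr Γ a e B d ω ω') (hΓ : Γ.Ok) (hae : a ≤ e) {G : Gm} {p : Par (XX Γ)} {pot : ℕ → ℝ → XX Γ → Env → ℝ≥0∞} {j : ℕ}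
    {y : XX Γ} {β d₂ : ℝ} (hrow : p.row = SD53.row Γ) (hd₂ : 0 ≤ d₂) (hβ : 4 * d + Real.log 2 ≤ β) (hβ₂ : d + d₂ + Real.log 2 ≤ β)
    (hearly : ∀ k, j + p.m0 < k → k ≤ p.M → (y.1.1 : ℤ) - p.dk k j ≤ a)
    (hlate : ∀ t', j < t' → (e : ℤ) ≤ y.1.1 + G.T t')
    {s : ℕ → ℕ → ℝ} (hs : ∀ t' k, 0 ≤ s t' k)
    (hs' : ∀ t' k, j < t' → t' + p.m0 ≤ k → k ≤ p.M → 16 * s t' k ≤ Real.exp (-(p.th t' k + p.sl j)))
    (hst : ∀ t' k, j < t' → t' + p.m0 ≤ k → k ≤ p.M → ∀ r ∈ G.fr t' j y.1, r ≤ (Γ.N : ℤ) →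
      Alt Γ a B r.toNat (bx Γ (G.fs k j y.1 r)) (s t' k) d₂ ω ω')
    (hpot : ∀ σ, σ + β ≤ p.sl j → pot j σ y ω ≤ pot j (σ + β) y ω') : Osc p (w Γ) (SD53.fa Γ G) pot j y β ω ω' := by
  have hd := h.d0
  have hl2 := Real.log_pos (show (1 : ℝ) < 2 by norm_num)
  refine ⟨fun t' k σ h1 h2 h3 h4 h5 => ?_, fun t' k σ h1 h2 h3 h4 h5 => ?_, hpot⟩
  · rw [hrow] at h5 ⊢
    have h6 := h.symm.em hΓ (x := y) (hearly k (by omega) h3)
    have h7 : ex (-(p.th t' k + σ)) ≤ ex (4 * d) * H49.em (SD53.row Γ) (w Γ) (p.dk k j) y ω' + ENNReal.ofReal (8 * 0) := by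
      refine (h5.trans h6).trans le_self_add
    have h8 := thr (β := β) h7 (by rw [mul_zero]; exact (Real.exp_pos _).le) hβ le_rfl
    have e1 : -(p.th t' k + σ + β) = -(p.th t' k + (σ + β)) := by ring
    rw [e1] at h8
    exact h8
  · have h6 := h.fa hΓ hae (G := G) (k := k) (x := y) h1 (hlate t' h1) (hs t' k) hd₂ (hst t' k h1 h2 h3)
    have h7 : 16 * s t' k ≤ Real.exp (-(p.th t' k + σ)) :=
      (hs' t' k h1 h2 h3).trans (Real.exp_le_exp.2 (by linarith))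
    have h8 := thr (β := β) h6 h7 hβ₂ h5
    have e1 : -(p.th t' k + σ + β) = -(p.th t' k + (σ + β)) := by ring
    rw [e1] at h8
    exact h8

end Pr

/-! ### The geometry -/

/-- The sites of the window. -/
def Bw (G : Gm) (u : ℕ) (κ : ℤ × ℤ) : Set (ℕ × ℤ) := {c | (((c.1 : ℤ), c.2) : Pt) ∈ G.win u κ}

variable {G : Gm} {u : ℕ} {κ : ℤ × ℤ} {d : ℝ} {ω η : Env}

/-- **The pair `(ω, R u κ η ω)`**, row `ra - 1` (the last row before the window: no site of the window is used). -/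
theorem pr_R (h0 : 0 ≤ G.rcc u κ) (hN : G.ra u κ - 1 ≤ Γ.N)
    (up : ∀ x, bw (wt (G.R u κ η ω)) Γ.p (G.ra u κ - 1) (Γ.N - (G.ra u κ - 1)) x ≤
      Real.exp d * bw (wt ω) Γ.p (G.ra u κ - 1) (Γ.N - (G.ra u κ - 1)) x)
    (dn : ∀ x, bw (wt ω) Γ.p (G.ra u κ - 1) (Γ.N - (G.ra u κ - 1)) x ≤
      Real.exp d * bw (wt (G.R u κ η ω)) Γ.p (G.ra u κ - 1) (Γ.N - (G.ra u κ - 1)) x) :
    Pr Γ (G.ra u κ - 1) (G.re u κ) (Bw G u κ) d ω (G.R u κ η ω) where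
  ha := hN
  lt := fun _ hi => (G37.Gm.wt_R_lt h0 (by omega) η ω).symm
  ge := fun _ hi => (G37.Gm.wt_R_ge h0 hi η ω).symm
  off := fun _ _ hk => (G37.Gm.wt_gl_of_not_mem (A := G.win u κ) (η := η) (ω := ω) hk).symm
  up := up
  dn := dn

/-- Rows: the early contacts of the stage `j ≥ u` are below the window, the far rows of the scales `> j` are beyond it. -/
theorem rows_R (h0 : 0 ≤ G.rcc u κ) {j : ℕ} (huj : u ≤ j) {y : ℤ} (hy : G.lo u κ ≤ y) (hy' : y < G.rcc u κ + G.T u) :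
    (∀ k, j < k → y - G.dk k j ≤ ((G.ra u κ - 1 : ℕ) : ℤ)) ∧ ∀ t', j < t' → (G.re u κ : ℤ) ≤ y + G.T t' := by
  have h1 := G.ra_cast h0
  have h2 := G.re_cast h0
  have h3 := G.rcc_eq u κ
  have h4 := G.T_pos' (u - 1)
  have h5 := G.T_mono' (show u - 2 ≤ u by omega)
  have h6 := G.T_pos' u
  have h7 := G.T_mono' huj
  constructor
  · intro k hk
    have h8 := G.T_lt8 hk
    unfold Gm.dk
    have h9 : (1 : ℤ) ≤ G.ra u κ := by linarith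
    have h10 : ((G.ra u κ - 1 : ℕ) : ℤ) = (G.ra u κ : ℤ) - 1 := by omega
    rw [h10]
    linarith
  · intro t' ht'
    have h8 := G.T_lt8 ht'
    linarith

end

end Pool.Agent.W_7d29a1_C1.O22
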