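import Mathlib

/-!
Both halves (MP_7d29a1_pr), attractor route, MOVE THE CONTACT: the price of a late alternative. (helper87; after
helper28 75715, helper9 75849)

`R u η ω` = the environment `ω` with the slab `u` taken from `η`; `T u` = the slab is typical, `L u` = lucky.
`E u` = `the two environments differ only in the slabs < u, inside typical or lucky`. `H` = the event that there is a late
alternative (a near tie); it does not exclude luck, but a typical and a lucky content of the same slab, everything outside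
of it being equal and everything inside of it arbitrary (inside typical or lucky), are never both in `H` (`excl`).
`HitF.late`: then every typical slab costs a factor `1 + c`. The slabs are integrated from inside to outside; the set of
the environments which hit after the slabs `< u` have been refilled is taken up to null sets (`ext`), so it is measurable.
`avg`: the weight `average over the lucky contents of the slab s of w`, which does not see the slab `s`.
-/

set_option autoImplicit false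

namespace Pool.Agent.W_7d29a1_C1.Lt87

open MeasureTheory Finset
open scoped ENNReal

variable {Ω : Type*} [MeasurableSpace Ω] {P : Measure Ω}

/-- One slab. -/
structure Slab (P : Measure Ω) (R : Ω → Ω → Ω) (T L : Set Ω) : Prop where
  mp : MeasurePreserving (fun z : Ω × Ω => R z.1 z.2) (P.prod P) P
  rr : ∀ η η' ω, R η (R η' ω) = R η ω
  mT : MeasurableSet T
  mL : MeasurableSet L
  disj : Disjoint T L

open Classical in
/-- A slab which is not typical counts `(1 + c)⁻¹`. -/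
noncomputable def fac (T : Set Ω) (c : ℝ≥0∞) (ω : Ω) : ℝ≥0∞ := if ω ∈ T then 1 else (1 + c)⁻¹

omit [MeasurableSpace Ω] in
theorem fac_congr {T : Set Ω} (c : ℝ≥0∞) {ω ω' : Ω} (h1 : ω ∈ T ↔ ω' ∈ T) : fac T c ω = fac T c ω' := by
  classical
  unfold fac
  by_cases h3 : ω ∈ T
  · rw [if_pos h3, if_pos (h1.1 h3)]
  · rw [if_neg h3, if_neg fun h => h3 (h1.2 h)]

theorem measurable_fac {T : Set Ω} (hT : MeasurableSet T) (c : ℝ≥0∞) : Measurable (fac T c) := by
  classical
  unfold fac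
  exact Measurable.ite hT measurable_const measurable_const

/-- Transport to a new content. -/
theorem Slab.transport [SFinite P] {R : Ω → Ω → Ω} {T L : Set Ω} (h : Slab P R T L) {B : Set Ω}
    (mB : MeasurableSet B) {g : Ω → ℝ≥0∞} (mg : Measurable g) :
    ∫⁻ ω, ∫⁻ η, B.indicator g (R η ω) ∂P ∂P = ∫⁻ ω in B, g ω ∂P := by
  rw [← lintegral_indicator mB, ← h.mp.lintegral_comp (mg.indicator mB)]
  exact (lintegral_prod_symm' (fun z : Ω × Ω => B.indicator g (R z.1 z.2))
    ((mg.indicator mB).comp h.mp.measurable)).symm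

/-- One slab, window form: `f` before, `g` after the slab has been freed. -/
theorem Slab.step [SFinite P] {R : Ω → Ω → Ω} {T L : Set Ω} (h : Slab P R T L) {c : ℝ≥0∞} (hc : c ≠ ⊤)
    {w f g : Ω → ℝ≥0∞} (mw : Measurable w) (mf : Measurable f) (mg : Measurable g)
    (cmp : ∀ ω ∈ T, c * w ω ≤ ∫⁻ η, L.indicator w (R η ω) ∂P)
    (hfg : ∀ ω, f ω ≤ g ω) (hfg' : ∀ ω ∈ T, ∀ η, R η ω ∈ L → f ω + f (R η ω) ≤ g (R η ω)) :
    (1 + c) * ∫⁻ ω, w ω * (f ω * fac T c ω) ∂P ≤ ∫⁻ ω, w ω * g ω ∂P := by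
  classical
  have hone : (1 + c) * (1 + c)⁻¹ = 1 :=
    ENNReal.mul_inv_cancel (by positivity) (by finiteness)
  have mwf : Measurable fun ω => w ω * f ω := mw.mul mf
  have mwg : Measurable fun ω => w ω * g ω := mw.mul mg
  have e0 : ∀ φ : Ω → ℝ≥0∞, ∫⁻ ω, φ ω ∂P =
      (∫⁻ ω in T, φ ω ∂P) + ((∫⁻ ω in L, φ ω ∂P) + ∫⁻ ω in Tᶜ \ L, φ ω ∂P) := by
    intro φ
    rw [← lintegral_add_compl φ h.mT, ← lintegral_inter_add_sdiff φ Tᶜ h.mL]
    congr 3
    refine congrArg _ ?_
    ext ω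
    exact ⟨fun h1 => h1.2, fun h1 => ⟨fun h2 => (Set.disjoint_left.1 h.disj) h2 h1, h1⟩⟩
  have m1 : Measurable fun ω => w ω * (f ω * fac T c ω) := mw.mul (mf.mul (measurable_fac h.mT c))
  have e1 : ∫⁻ ω in T, w ω * (f ω * fac T c ω) ∂P = ∫⁻ ω in T, w ω * f ω ∂P :=
    setLIntegral_congr_fun h.mT fun ω hω => by simp [fac, hω]
  have eo : ∀ A : Set Ω, MeasurableSet A → (∀ ω ∈ A, ω ∉ T) →
      (1 + c) * ∫⁻ ω in A, w ω * (f ω * fac T c ω) ∂P = ∫⁻ ω in A, w ω * f ω ∂P := by
    intro A mA hA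
    rw [← lintegral_const_mul _ m1]
    refine setLIntegral_congr_fun mA fun ω hω => ?_
    have h5 : fac T c ω = (1 + c)⁻¹ := by simp [fac, hA ω hω]
    calc (1 + c) * (w ω * (f ω * fac T c ω)) = ((1 + c) * (1 + c)⁻¹) * (w ω * f ω) := by rw [h5]; ring
      _ = _ := by rw [hone, one_mul]
  have e2 := eo L h.mL fun ω hω h2 => (Set.disjoint_left.1 h.disj) h2 hω
  have e3 := eo (Tᶜ \ L) (h.mT.compl.diff h.mL) fun ω hω => hω.1
  have e4 : c * (∫⁻ ω in T, w ω * f ω ∂P) + (∫⁻ ω in L, w ω * f ω ∂P) ≤ ∫⁻ ω in L, w ω * g ω ∂P := by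
    rw [← h.transport h.mL mwg, ← h.transport h.mL mwf, ← lintegral_const_mul _ mwf, ← lintegral_indicator h.mT,
      ← lintegral_add_left ((mwf.const_mul c).indicator h.mT)]
    refine lintegral_mono fun ω => ?_
    have hmR : Measurable fun η => R η ω := h.mp.measurable.comp (measurable_id.prodMk measurable_const)
    have hm2 : Measurable fun η => L.indicator w (R η ω) := (mw.indicator h.mL).comp hmR
    by_cases hω : ω ∈ T
    · rw [Set.indicator_of_mem hω]
      calc c * (w ω * f ω) + ∫⁻ η, L.indicator (fun ω => w ω * f ω) (R η ω) ∂P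
          = f ω * (c * w ω) + ∫⁻ η, L.indicator (fun ω => w ω * f ω) (R η ω) ∂P := by ring_nf
        _ ≤ f ω * (∫⁻ η, L.indicator w (R η ω) ∂P) +
            ∫⁻ η, L.indicator (fun ω => w ω * f ω) (R η ω) ∂P := by gcongr; exact cmp ω hω
        _ = ∫⁻ η, (f ω * L.indicator w (R η ω) + L.indicator (fun ω => w ω * f ω) (R η ω)) ∂P := by
          rw [lintegral_add_left (hm2.const_mul _), lintegral_const_mul _ hm2]
        _ ≤ _ := by
          refine lintegral_mono fun η => ?_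
          by_cases hη : R η ω ∈ L
          · rw [Set.indicator_of_mem hη, Set.indicator_of_mem hη, Set.indicator_of_mem hη]
            calc f ω * w (R η ω) + w (R η ω) * f (R η ω) = w (R η ω) * (f ω + f (R η ω)) := by ring
              _ ≤ _ := by gcongr; exact hfg' ω hω η hη
          · rw [Set.indicator_of_notMem hη, Set.indicator_of_notMem hη, mul_zero, zero_add]
            exact zero_le
    · rw [Set.indicator_of_notMem hω, zero_add]
      refine lintegral_mono fun η => ?_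
      by_cases hη : R η ω ∈ L
      · rw [Set.indicator_of_mem hη, Set.indicator_of_mem hη]
        gcongr
        exact hfg _
      · rw [Set.indicator_of_notMem hη]
        exact zero_le
  rw [e0 fun ω => w ω * (f ω * fac T c ω), e0 fun ω => w ω * g ω, mul_add, mul_add, e1, e2, e3, add_mul, one_mul]
  calc (∫⁻ ω in T, w ω * f ω ∂P) + c * (∫⁻ ω in T, w ω * f ω ∂P) +
        ((∫⁻ ω in L, w ω * f ω ∂P) + ∫⁻ ω in Tᶜ \ L, w ω * f ω ∂P)
      = (∫⁻ ω in T, w ω * f ω ∂P) + ((c * (∫⁻ ω in T, w ω * f ω ∂P) + ∫⁻ ω in L, w ω * f ω ∂P) +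
          ∫⁻ ω in Tᶜ \ L, w ω * f ω ∂P) := by ring
    _ ≤ (∫⁻ ω in T, w ω * g ω ∂P) + ((∫⁻ ω in L, w ω * g ω ∂P) + ∫⁻ ω in Tᶜ \ L, w ω * g ω ∂P) := by
        gcongr <;> exact hfg _

/-- The environments which are in `B` after one slab has been refilled (with positive probability). -/
def ext (P : Measure Ω) (R : Ω → Ω → Ω) (N B : Set Ω) : Set Ω :=
  {ω | ω ∈ N ∧ P {η | R η ω ∈ N ∩ B} ≠ 0} ∪ (B \ N)

/-- The exceptional set. -/
def exc (P : Measure Ω) (R : Ω → Ω → Ω) (N B : Set Ω) : Set Ω := {ω | ω ∈ N ∩ B ∧ P {η | R η ω ∈ N ∩ B} = 0}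

section
variable [SFinite P] {R : Ω → Ω → Ω} {N B : Set Ω}

theorem measurable_pf (mp : MeasurePreserving (fun z : Ω × Ω => R z.1 z.2) (P.prod P) P) {B : Set Ω}
    (mB : MeasurableSet B) : Measurable fun ω => P {η | R η ω ∈ B} := by
  have h1 : MeasurableSet {z : Ω × Ω | R z.2 z.1 ∈ B} :=
    (mp.measurable.comp measurable_swap) mB
  exact measurable_measure_prodMk_left h1

theorem measurableSet_ext (mp : MeasurePreserving (fun z : Ω × Ω => R z.1 z.2) (P.prod P) P)
    (mN : MeasurableSet N) (mB : MeasurableSet B) : MeasurableSet (ext P R N B) := by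
  refine MeasurableSet.union (mN.inter ?_) (mB.diff mN)
  exact ((measurable_pf mp (mN.inter mB)) (measurableSet_singleton 0)).compl

theorem measurableSet_exc (mp : MeasurePreserving (fun z : Ω × Ω => R z.1 z.2) (P.prod P) P)
    (mN : MeasurableSet N) (mB : MeasurableSet B) : MeasurableSet (exc P R N B) :=
  (mN.inter mB).inter ((measurable_pf mp (mN.inter mB)) (measurableSet_singleton 0))

theorem exc_null (mp : MeasurePreserving (fun z : Ω × Ω => R z.1 z.2) (P.prod P) P)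
    (rr : ∀ η η' ω, R η (R η' ω) = R η ω) (mN : MeasurableSet N) (mB : MeasurableSet B) : P (exc P R N B) = 0 := by
  have mZ := measurableSet_exc mp mN mB
  have e1 : P (exc P R N B) = ∫⁻ ω, P {η | R η ω ∈ exc P R N B} ∂P := by
    rw [← mp.measure_preimage mZ.nullMeasurableSet]
    exact Measure.prod_apply_symm (mp.measurable mZ)
  rw [e1]
  refine (lintegral_eq_zero_iff (measurable_pf mp mZ)).2 (Filter.Eventually.of_forall fun ω => ?_)
  show P {η | R η ω ∈ exc P R N B} = 0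
  by_cases h : ∃ η₀, R η₀ ω ∈ exc P R N B
  · obtain ⟨η₀, hη₀⟩ := h
    have h2 : P {η | R η ω ∈ N ∩ B} = 0 := by
      have h3 := hη₀.2
      simp only [rr] at h3
      exact h3
    exact measure_mono_null (fun η hη => hη.1) h2
  · have : {η | R η ω ∈ exc P R N B} = ∅ := by
      ext η
      simp only [Set.mem_ofPred_eq, Set.mem_empty_iff_false, iff_false]
      exact fun h2 => h ⟨η, h2⟩
    rw [this]
    exact measure_empty

omit [SFinite P] in
theorem sub_ext {ω : Ω} (h : ω ∈ B \ exc P R N B) : ω ∈ ext P R N B := by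
  by_cases hN : ω ∈ N
  · exact Or.inl ⟨hN, fun h1 => h.2 ⟨⟨hN, h.1⟩, h1⟩⟩
  · exact Or.inr ⟨h.1, hN⟩

omit [SFinite P] in
theorem ext_step (rr : ∀ η η' ω, R η (R η' ω) = R η ω) {ω η : Ω} (h : ω ∈ B \ exc P R N B) (hN : ω ∈ N)
    (hN' : R η ω ∈ N) : R η ω ∈ ext P R N B := by
  refine Or.inl ⟨hN', ?_⟩
  simp only [rr]
  exact fun h1 => h.2 ⟨⟨hN, h.1⟩, h1⟩

omit [SFinite P] in
theorem ext_hit {ω : Ω} (h : ω ∈ ext P R N B) : ω ∈ B ∨ (ω ∈ N ∧ ∃ η, R η ω ∈ N ∩ B) := by
  rcases h with h | h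
  · right
    refine ⟨h.1, ?_⟩
    by_contra h1
    refine h.2 ?_
    have : {η | R η ω ∈ N ∩ B} = ∅ := by
      ext η
      simp only [Set.mem_ofPred_eq, Set.mem_empty_iff_false, iff_false]
      exact fun h2 => h1 ⟨η, h2⟩
    rw [this]
    exact measure_empty
  · exact Or.inl h.1

end

/-- The data. `E u` = the two environments differ only in the slabs `< u`, inside typical or lucky. -/
structure HitF (P : Measure Ω) (R : ℕ → Ω → Ω → Ω) (S : Finset ℕ) (T L : ℕ → Set Ω) (E : ℕ → Ω → Ω → Prop)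
    (H : Set Ω) : Prop where
  slab : ∀ u ∈ S, Slab P (R u) (T u) (L u)
  mH : MeasurableSet H
  eqv : ∀ u, Equivalence (E u)
  emono : ∀ u v, u ≤ v → ∀ ω ω', E u ω ω' → E v ω ω'
  estep : ∀ u ∈ S, ∀ ω ∈ T u ∪ L u, ∀ η, R u η ω ∈ T u ∪ L u → E (u + 1) ω (R u η ω)
  eT : ∀ u ∈ S, ∀ ω ω', E u ω ω' → ω ∈ T u → ω' ∈ T u
  eL : ∀ u ∈ S, ∀ ω ω', E u ω ω' → ω ∈ L u → ω' ∈ L u
  excl : ∀ u ∈ S, ∀ ω ω', E (u + 1) ω ω' → ω ∈ T u → ω ∈ H → ω' ∈ L u → ω' ∈ H → False

/-- **THE PRICE OF A LATE ALTERNATIVE.** -/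
theorem HitF.late [SFinite P] {R : ℕ → Ω → Ω → Ω} {S : Finset ℕ} {T L : ℕ → Set Ω} {E : ℕ → Ω → Ω → Prop}
    {H : Set Ω} (d : HitF P R S T L E H) {c : ℝ≥0∞} (hc : c ≠ ⊤) {G : Ω → ℝ≥0∞} (mG : Measurable G)
    (cmp : ∀ u ∈ S, ∀ ω ∈ T u, c * G ω ≤ ∫⁻ η, (L u).indicator G (R u η ω) ∂P)
    {h : Finset ℕ → Ω → ℝ≥0∞} (mh : ∀ A, Measurable (h A)) (mono : ∀ u ∈ S, ∀ A ω, h A ω ≤ h (insert u A) ω)
    (inv : ∀ u ∈ S, ∀ A, ∀ ω ∈ T u, ∀ η, R u η ω ∈ L u → h A ω ≤ h (insert u A) (R u η ω)) (A : Finset ℕ) :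
    (1 + c) ^ S.card * ∫⁻ ω, G ω * (h A ω * H.indicator 1 ω * ∏ u ∈ S, fac (T u) c ω) ∂P ≤
      ∫⁻ ω, G ω * h (A ∪ S) ω ∂P := by
  classical
  -- general statement: the hit set after some slabs have been refilled
  suffices key : ∀ (k : ℕ) (S' : Finset ℕ), S'.card = k → S' ⊆ S → ∀ (B : Set Ω), MeasurableSet B → ∀ A : Finset ℕ,
      (∀ u ∈ S', ∀ ω ∈ B, ∃ ω' ∈ H, E u ω ω') →
      (1 + c) ^ k * ∫⁻ ω, G ω * (h A ω * B.indicator 1 ω * ∏ u ∈ S', fac (T u) c ω) ∂P ≤
        ∫⁻ ω, G ω * h (A ∪ S') ω ∂P by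
    exact key S.card S rfl subset_rfl H d.mH A fun u _ ω hω => ⟨ω, hω, (d.eqv u).refl ω⟩
  intro k
  induction k with
  | zero =>
    intro S' hcard hsub B mB A hB
    have e : S' = ∅ := card_eq_zero.1 hcard
    subst e
    rw [pow_zero, one_mul, union_empty]
    refine lintegral_mono fun ω => ?_
    rw [prod_empty, mul_one]
    gcongr
    calc h A ω * B.indicator 1 ω ≤ h A ω * 1 := by
          gcongr
          exact Set.indicator_le_self' (fun _ _ => zero_le) ω
      _ = _ := mul_one _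
  | succ k ih =>
    intro S' hcard hsub B mB A hB
    have hne : S'.Nonempty := card_pos.1 (by omega)
    set u := S'.min' hne with hu
    have huS' : u ∈ S' := min'_mem _ _
    have huS : u ∈ S := hsub huS'
    set S'' := S'.erase u with hS''
    have hins : insert u S'' = S' := insert_erase huS'
    have hnot : u ∉ S'' := notMem_erase _ _
    have hlt : ∀ v ∈ S'', u < v := fun v hv => by
      rw [hS'', mem_erase] at hv
      exact lt_of_le_of_ne (min'_le _ _ hv.2) (Ne.symm hv.1)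
    have hcard' : S''.card = k := by
      rw [hS'', card_erase_of_mem huS', hcard]; rfl
    have hsl := d.slab u huS
    set N : Set Ω := T u ∪ L u with hN
    have mN : MeasurableSet N := hsl.mT.union hsl.mL
    set B' : Set Ω := ext P (R u) N B with hB'
    have mB' : MeasurableSet B' := measurableSet_ext hsl.mp mN mB
    set Z : Set Ω := exc P (R u) N B with hZ
    have mZ : MeasurableSet Z := measurableSet_exc hsl.mp mN mB
    have hZ0 : P Z = 0 := exc_null hsl.mp hsl.rr mN mB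
    -- the hit set is still reached
    have hBB : ∀ v ∈ S'', ∀ ω ∈ B', ∃ ω' ∈ H, E v ω ω' := by
      intro v hv ω hω
      have hv' := hlt v hv
      rcases ext_hit hω with h1 | ⟨h1, η, h2⟩
      · obtain ⟨ω', h3, h4⟩ := hB u huS' ω h1
        exact ⟨ω', h3, d.emono u v hv'.le _ _ h4⟩
      · obtain ⟨ω', h3, h4⟩ := hB u huS' _ h2.2
        refine ⟨ω', h3, (d.eqv v).trans (d.emono (u + 1) v hv' _ _ (d.estep u huS ω h1 η h2.1))
          (d.emono u v hv'.le _ _ h4)⟩
    -- a typical and a lucky content do not both hit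
    have hex : ∀ ω ∈ T u, ω ∈ B → ∀ η, R u η ω ∈ L u → R u η ω ∈ B → False := by
      intro ω h1 h2 η h3 h4
      obtain ⟨ω₁, h5, h6⟩ := hB u huS' ω h2
      obtain ⟨ω₂, h7, h8⟩ := hB u huS' _ h4
      have h9 : E (u + 1) ω₁ ω₂ := by
        have a1 := d.emono u (u + 1) (by omega) _ _ ((d.eqv u).symm h6)
        have a2 := d.estep u huS ω (Or.inl h1) η (Or.inr h3)
        have a3 := d.emono u (u + 1) (by omega) _ _ h8
        exact (d.eqv (u + 1)).trans a1 ((d.eqv (u + 1)).trans a2 a3)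
      exact d.excl u huS ω₁ ω₂ h9 (d.eT u huS _ _ h6 h1) h5 (d.eL u huS _ _ h8 h3) h7
    have mprod : Measurable fun ω => ∏ v ∈ S'', fac (T v) c ω :=
      Finset.measurable_prod _ fun v hv =>
        measurable_fac (d.slab v (hsub (hins ▸ mem_insert_of_mem hv))).mT c
    have m1 : ∀ D : Set Ω, MeasurableSet D → Measurable (D.indicator (1 : Ω → ℝ≥0∞)) := fun D mD =>
      measurable_one.indicator mD
    -- one slab
    have h2 := hsl.step hc (w := G)
      (f := fun ω => h A ω * (B \ Z).indicator 1 ω * ∏ v ∈ S'', fac (T v) c ω)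
      (g := fun ω => h (insert u A) ω * B'.indicator 1 ω * ∏ v ∈ S'', fac (T v) c ω) mG
      (((mh A).mul (m1 _ (mB.diff mZ))).mul mprod) (((mh _).mul (m1 _ mB')).mul mprod) (cmp u huS)
      (fun ω => by
        gcongr
        · exact mono u huS A ω
        · exact fun x hx => sub_ext hx)
      (fun ω hω η hη => by
        have h3 : ∏ v ∈ S'', fac (T v) c ω = ∏ v ∈ S'', fac (T v) c (R u η ω) := by
          refine prod_congr rfl fun v hv => ?_
          have hvS : v ∈ S := hsub (hins ▸ mem_insert_of_mem hv)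
          have h4 : E v ω (R u η ω) :=
            d.emono (u + 1) v (hlt v hv) _ _ (d.estep u huS ω (Or.inl hω) η (Or.inr hη))
          exact fac_congr c ⟨d.eT v hvS _ _ h4, d.eT v hvS _ _ ((d.eqv v).symm h4)⟩
        by_cases h5 : ω ∈ B \ Z
        · have h6 : R u η ω ∉ B \ Z := fun h7 => hex ω hω h5.1 η hη h7.1
          have h8 : R u η ω ∈ B' := ext_step hsl.rr h5 (Or.inl hω) (Or.inr hη)
          rw [Set.indicator_of_mem h5, Set.indicator_of_notMem h6, Set.indicator_of_mem h8, h3]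
          simp only [Pi.one_apply, mul_one, mul_zero, zero_mul, add_zero]
          gcongr
          exact inv u huS A ω hω η hη
        · rw [Set.indicator_of_notMem h5]
          simp only [mul_zero, zero_mul, zero_add]
          gcongr
          · exact mono u huS A _
          · exact fun x hx => sub_ext hx)
    have h1 := ih S'' hcard' (fun v hv => hsub (hins ▸ mem_insert_of_mem hv)) B' mB' (insert u A) hBB
    have e : insert u A ∪ S'' = A ∪ S' := by
      rw [← hins]
      ext v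
      simp only [mem_union, mem_insert]
      tauto
    rw [e] at h1
    have e2 : ∫⁻ ω, G ω * (h A ω * B.indicator 1 ω * ∏ v ∈ S', fac (T v) c ω) ∂P =
        ∫⁻ ω, G ω * ((h A ω * (B \ Z).indicator 1 ω * ∏ v ∈ S'', fac (T v) c ω) * fac (T u) c ω) ∂P := by
      refine lintegral_congr_ae ?_
      have hZ1 : ∀ᵐ ω ∂P, ω ∉ Z := measure_eq_zero_iff_ae_notMem.1 hZ0
      filter_upwards [hZ1] with ω hω
      have h3 : (B \ Z).indicator (1 : Ω → ℝ≥0∞) ω = B.indicator 1 ω := by
        by_cases h4 : ω ∈ B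
        · rw [Set.indicator_of_mem h4, Set.indicator_of_mem (show ω ∈ B \ Z from ⟨h4, hω⟩)]
        · rw [Set.indicator_of_notMem h4, Set.indicator_of_notMem (fun h5 : ω ∈ B \ Z => h4 h5.1)]
      rw [h3, ← hins, prod_insert hnot]
      ring
    calc (1 + c) ^ (k + 1) * ∫⁻ ω, G ω * (h A ω * B.indicator 1 ω * ∏ v ∈ S', fac (T v) c ω) ∂P
        = (1 + c) ^ k * ((1 + c) *
            ∫⁻ ω, G ω * ((h A ω * (B \ Z).indicator 1 ω * ∏ v ∈ S'', fac (T v) c ω) * fac (T u) c ω) ∂P) := by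
          rw [e2, pow_succ, mul_assoc]
      _ ≤ (1 + c) ^ k * ∫⁻ ω, G ω * (h (insert u A) ω * B'.indicator 1 ω * ∏ v ∈ S'', fac (T v) c ω) ∂P := by
          gcongr
      _ ≤ _ := h1

/-- The average of `w` over the lucky contents of one slab, at the environments where the slab is in `N`. -/
noncomputable def avgL (P : Measure Ω) (R : Ω → Ω → Ω) (N L : Set Ω) (w : Ω → ℝ≥0∞) : Ω → ℝ≥0∞ :=
  N.indicator fun ω => ∫⁻ η, L.indicator w (R η ω) ∂P

theorem measurable_avgL [SFinite P] {R : Ω → Ω → Ω} {N L : Set Ω} {w : Ω → ℝ≥0∞}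
    (mp : MeasurePreserving (fun z : Ω × Ω => R z.1 z.2) (P.prod P) P) (mN : MeasurableSet N) (mL : MeasurableSet L)
    (mw : Measurable w) : Measurable (avgL P R N L w) := by
  refine Measurable.indicator ?_ mN
  have h1 : Measurable fun z : Ω × Ω => L.indicator w (R z.2 z.1) :=
    (mw.indicator mL).comp (mp.measurable.comp measurable_swap)
  exact h1.lintegral_prod_right'

/-- From `F ≤ C w (new)` for all lucky contents to `p F ≤ C avgL`. -/
theorem le_avgL [SFinite P] {R : Ω → Ω → Ω} {N L : Set Ω} {w : Ω → ℝ≥0∞}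
    (mp : MeasurePreserving (fun z : Ω × Ω => R z.1 z.2) (P.prod P) P) (mL : MeasurableSet L) (mw : Measurable w)
    {ω : Ω} (hN : ω ∈ N) {p C F : ℝ≥0∞} (hp : p ≤ P {η | R η ω ∈ L}) (hF : ∀ η, R η ω ∈ L → F ≤ C * w (R η ω)) :
    p * F ≤ C * avgL P R N L w ω := by
  have hm1 : Measurable fun η => R η ω := mp.measurable.comp (measurable_id.prodMk measurable_const)
  have hm2 : MeasurableSet {η | R η ω ∈ L} := hm1 mL
  have hm3 : Measurable fun η => L.indicator w (R η ω) := (mw.indicator mL).comp hm1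
  unfold avgL
  rw [Set.indicator_of_mem hN, ← lintegral_const_mul _ hm3]
  calc p * F ≤ P {η | R η ω ∈ L} * F := by gcongr
    _ = ∫⁻ η in {η | R η ω ∈ L}, F ∂P := by rw [setLIntegral_const, mul_comm]
    _ ≤ ∫⁻ η in {η | R η ω ∈ L}, C * L.indicator w (R η ω) ∂P := by
        refine setLIntegral_mono' hm2 fun η hη => ?_
        rw [Set.indicator_of_mem (show R η ω ∈ L from hη)]
        exact hF η hη
    _ ≤ _ := setLIntegral_le_lintegral _ _

/-- Back to `w`. -/
theorem avgL_le [SFinite P] {R : Ω → Ω → Ω} {T L : Set Ω} (hs : Slab P R T L) {N : Set Ω} {w h h' : Ω → ℝ≥0∞}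
    (mw : Measurable w) (mh' : Measurable h')
    (hh : ∀ ω ∈ N, ∀ η, R η ω ∈ L → h ω ≤ h' (R η ω)) :
    ∫⁻ ω, avgL P R N L w ω * h ω ∂P ≤ ∫⁻ ω in L, w ω * h' ω ∂P := by
  have mwh : Measurable fun ω => w ω * h' ω := mw.mul mh'
  rw [← hs.transport hs.mL mwh]
  refine lintegral_mono fun ω => ?_
  unfold avgL
  have hm1 : Measurable fun η => R η ω := hs.mp.measurable.comp (measurable_id.prodMk measurable_const)
  have hm3 : Measurable fun η => L.indicator w (R η ω) := (mw.indicator hs.mL).comp hm1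
  by_cases hω : ω ∈ N
  · rw [Set.indicator_of_mem hω, ← lintegral_mul_const _ hm3]
    refine lintegral_mono fun η => ?_
    by_cases hη : R η ω ∈ L
    · rw [Set.indicator_of_mem hη, Set.indicator_of_mem hη]
      gcongr
      exact hh ω hω η hη
    · rw [Set.indicator_of_notMem hη, zero_mul]
      exact zero_le
  · rw [Set.indicator_of_notMem hω, zero_mul]
    exact zero_le

/-- Luck at another slab `u` has for the average the same price as for `w`. -/
theorem avgL_cmp [SFinite P] {Rs Ru : Ω → Ω → Ω} {Ts Ls Tu Lu : Set Ω} (hs : Slab P Rs Ts Ls) (hu : Slab P Ru Tu Lu)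
    {c : ℝ≥0∞} {w : Ω → ℝ≥0∞} (mw : Measurable w) (comm : ∀ η η' ω, Rs η (Ru η' ω) = Ru η' (Rs η ω))
    (cmp : ∀ ω ∈ Tu, c * w ω ≤ ∫⁻ η, Lu.indicator w (Ru η ω) ∂P)
    (sT : ∀ ω ∈ Ts ∪ Ls, ∀ η, Rs η ω ∈ Ts ∪ Ls → (ω ∈ Tu ↔ Rs η ω ∈ Tu))
    (sL : ∀ ω ∈ Ts ∪ Ls, ∀ η, Rs η ω ∈ Ts ∪ Ls → (ω ∈ Lu ↔ Rs η ω ∈ Lu))
    (uL : ∀ ω ∈ Tu ∪ Lu, ∀ η, Ru η ω ∈ Tu ∪ Lu → (ω ∈ Ls ↔ Ru η ω ∈ Ls))
    (sq : ∀ ω, ω ∈ Tu ∪ Lu → ω ∈ Ts ∪ Ls → ∀ η' η, Rs η' ω ∈ Ts ∪ Ls → Ru η (Rs η' ω) ∈ Tu ∪ Lu →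
      Ru η ω ∈ Ts ∪ Ls) :
    ∀ ω ∈ Tu, c * avgL P Rs (Ts ∪ Ls) Ls w ω ≤ ∫⁻ η, Lu.indicator (avgL P Rs (Ts ∪ Ls) Ls w) (Ru η ω) ∂P := by
  intro ω hω
  by_cases hN : ω ∈ Ts ∪ Ls
  · have hms : Measurable fun η => Rs η ω := hs.mp.measurable.comp (measurable_id.prodMk measurable_const)
    have e1 : avgL P Rs (Ts ∪ Ls) Ls w ω = ∫⁻ η, Ls.indicator w (Rs η ω) ∂P := by
      unfold avgL; rw [Set.indicator_of_mem hN]
    have mj : Measurable fun z : Ω × Ω => Ru z.2 (Rs z.1 ω) :=
      hu.mp.measurable.comp (measurable_snd.prodMk (hms.comp measurable_fst))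
    have mLs : MeasurableSet {z : Ω × Ω | Rs z.1 ω ∈ Ls} := (hms.comp measurable_fst) hs.mL
    have hm3 : Measurable fun η => Ls.indicator w (Rs η ω) := (mw.indicator hs.mL).comp hms
    rw [e1, ← lintegral_const_mul _ hm3]
    calc ∫⁻ η', c * Ls.indicator w (Rs η' ω) ∂P
        ≤ ∫⁻ η', ∫⁻ η, ({z : Ω × Ω | Rs z.1 ω ∈ Ls}.indicator
            (fun z : Ω × Ω => Lu.indicator w (Ru z.2 (Rs z.1 ω))) (η', η)) ∂P ∂P := by
          refine lintegral_mono fun η' => ?_
          by_cases h1 : Rs η' ω ∈ Ls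
          · have h2 : Rs η' ω ∈ Tu := (sT ω hN η' (Or.inr h1)).1 hω
            rw [Set.indicator_of_mem h1]
            refine (cmp _ h2).trans (lintegral_mono fun η => ?_)
            rw [Set.indicator_of_mem (show (η', η) ∈ {z : Ω × Ω | Rs z.1 ω ∈ Ls} from h1)]
          · rw [Set.indicator_of_notMem h1, mul_zero]
            exact zero_le
      _ = ∫⁻ η, ∫⁻ η', ({z : Ω × Ω | Rs z.1 ω ∈ Ls}.indicator
            (fun z : Ω × Ω => Lu.indicator w (Ru z.2 (Rs z.1 ω))) (η', η)) ∂P ∂P := by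
          refine lintegral_lintegral_swap (Measurable.aemeasurable ?_)
          exact ((mw.indicator hu.mL).comp mj).indicator mLs
      _ ≤ _ := by
          refine lintegral_mono fun η => ?_
          by_cases h3 : ∃ η₀, Rs η₀ ω ∈ Ls ∧ Ru η (Rs η₀ ω) ∈ Lu
          · obtain ⟨η₀, h4, h5⟩ := h3
            have h6 : Ru η ω ∈ Ts ∪ Ls := sq ω (Or.inl hω) hN η₀ η (Or.inr h4) (Or.inr h5)
            have h7 : Rs η₀ ω ∈ Tu := (sT ω hN η₀ (Or.inr h4)).1 hω
            have h8 : Ru η (Rs η₀ ω) ∈ Ls := (uL _ (Or.inl h7) η (Or.inr h5)).1 h4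
            have h9 : Ru η ω ∈ Lu := by
              refine (sL _ h6 η₀ ?_).2 ?_
              · rw [comm]; exact Or.inr h8
              · rw [comm]; exact h5
            rw [Set.indicator_of_mem h9]
            unfold avgL
            rw [Set.indicator_of_mem h6]
            refine lintegral_mono fun η' => ?_
            by_cases h10 : Rs η' ω ∈ Ls
            · rw [Set.indicator_of_mem (show (η', η) ∈ {z : Ω × Ω | Rs z.1 ω ∈ Ls} from h10)]
              by_cases h11 : Ru η (Rs η' ω) ∈ Lu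
              · rw [Set.indicator_of_mem h11]
                have h12 : Rs η' ω ∈ Tu := (sT ω hN η' (Or.inr h10)).1 hω
                have h13 : Ru η (Rs η' ω) ∈ Ls := (uL _ (Or.inl h12) η (Or.inr h11)).1 h10
                rw [comm, Set.indicator_of_mem h13]
              · rw [Set.indicator_of_notMem h11]
                exact zero_le
            · rw [Set.indicator_of_notMem (fun h11 : (η', η) ∈ {z : Ω × Ω | Rs z.1 ω ∈ Ls} => h10 h11)]
              exact zero_le
          · have h4 : ∀ η', ({z : Ω × Ω | Rs z.1 ω ∈ Ls}.indicator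
                (fun z : Ω × Ω => Lu.indicator w (Ru z.2 (Rs z.1 ω))) (η', η)) = 0 := by
              intro η'
              by_cases h5 : Rs η' ω ∈ Ls
              · rw [Set.indicator_of_mem (show (η', η) ∈ {z : Ω × Ω | Rs z.1 ω ∈ Ls} from h5)]
                exact Set.indicator_of_notMem (fun h6 => h3 ⟨η', h5, h6⟩) _
              · exact Set.indicator_of_notMem (fun h6 : (η', η) ∈ {z : Ω × Ω | Rs z.1 ω ∈ Ls} => h5 h6) _
            simp only [h4, lintegral_zero]
            exact zero_le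
  · have e1 : avgL P Rs (Ts ∪ Ls) Ls w ω = 0 := by
      unfold avgL; rw [Set.indicator_of_notMem hN]
    rw [e1, mul_zero]
    exact zero_le

end Pool.Agent.W_7d29a1_C1.Lt87
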