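import Pool.Agent.W_7d29a1_C1.SkelF49
import Pool.Agent.W_7d29a1_C1.Late87

/-!
Both halves (MP_7d29a1_pr), attractor route: MOVE THE CONTACT, the fields `hzF`, `hzE` of `MoveD` (price of an alternative)
in directed form: `Reach` = outermost window first, every window at most once, so `T`, `L` may contain a tame condition on
the rows beyond the window; the window of the move is the innermost window of `Reach`. (helper49, after helper87 Late87)
-/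

set_option autoImplicit false

namespace Pool.Agent.W_7d29a1_C1.Lt87

open MeasureTheory Finset
open scoped ENNReal

variable {Ω : Type*} [MeasurableSpace Ω] {P : Measure Ω}

/-- From `ω` one changes windows `< u` of `S`, from outside to inside; at each change the window `v` is in `N v` before
and after (the windows outside of it being final). -/
inductive Reach {Ω : Type*} (R : ℕ → Ω → Ω → Ω) (N : ℕ → Set Ω) (S : Finset ℕ) : ℕ → Ω → Ω → Prop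
  | refl {u : ℕ} {ω : Ω} : Reach R N S u ω ω
  | step {u v : ℕ} {ω ω' : Ω} (η : Ω) : v < u → v ∈ S → ω ∈ N v → R v η ω ∈ N v → Reach R N S v (R v η ω) ω' →
      Reach R N S u ω ω'

theorem Reach.mono {Ω : Type*} {R : ℕ → Ω → Ω → Ω} {N : ℕ → Set Ω} {S : Finset ℕ} {u v : ℕ} {ω ω' : Ω}
    (h : Reach R N S u ω ω') (huv : u ≤ v) : Reach R N S v ω ω' := by
  cases h with
  | refl => exact Reach.refl
  | step η h1 h2 h3 h4 h5 => exact Reach.step η (h1.trans_le huv) h2 h3 h4 h5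

/-- The data: `S` = the paid windows, `S'` = the windows which may be changed by `Reach`, `H` = the hit event. `T`, `L` may
read the rows beyond the window. -/
structure HitG (P : Measure Ω) (R : ℕ → Ω → Ω → Ω) (T L : ℕ → Set Ω) (S S' : Finset ℕ) (H : Set Ω) : Prop where
  sub : S ⊆ S'
  slab : ∀ u ∈ S', Slab P (R u) (T u) (L u)
  stepT : ∀ u ∈ S', ∀ v ∈ S, u < v → ∀ ω ∈ T u ∪ L u, ∀ η, R u η ω ∈ T u ∪ L u → (ω ∈ T v ↔ R u η ω ∈ T v)
  excl : ∀ u ∈ S, ∀ ω ∈ T u, ∀ η, R u η ω ∈ L u → ∀ ω₁ ∈ H, Reach R (fun v => T v ∪ L v) S' u ω ω₁ →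
    ∀ ω₂ ∈ H, Reach R (fun v => T v ∪ L v) S' u (R u η ω) ω₂ → False

/-- **THE PRICE OF AN ALTERNATIVE**, directed form. -/
theorem HitG.late [SFinite P] {R : ℕ → Ω → Ω → Ω} {S S' : Finset ℕ} {T L : ℕ → Set Ω} {H : Set Ω}
    (d : HitG P R T L S S' H) {c : ℝ≥0∞} (hc : c ≠ ⊤) {G : Ω → ℝ≥0∞} (mG : Measurable G)
    (cmp : ∀ u ∈ S, ∀ ω ∈ T u, c * G ω ≤ ∫⁻ η, (L u).indicator G (R u η ω) ∂P)
    {h : Finset ℕ → Ω → ℝ≥0∞} (mh : ∀ A, Measurable (h A)) (mono : ∀ u ∈ S, ∀ A ω, h A ω ≤ h (insert u A) ω)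
    {A₀ : Finset ℕ} (inv : ∀ u ∈ S, ∀ A, u ∉ A → insert u A ⊆ A₀ ∪ S → ∀ ω ∈ T u, ∀ η, R u η ω ∈ L u →
      h A ω ≤ h (insert u A) (R u η ω)) {B₀ : Set Ω} (mB₀ : MeasurableSet B₀)
    (hB₀ : ∀ u ∈ S, ∀ ω ∈ B₀, ∃ ω' ∈ H, Reach R (fun v => T v ∪ L v) S' u ω ω') (hAS : Disjoint A₀ S) :
    (1 + c) ^ S.card * ∫⁻ ω, G ω * (h A₀ ω * B₀.indicator 1 ω * ∏ u ∈ S, fac (T u) c ω) ∂P ≤
      ∫⁻ ω, G ω * h (A₀ ∪ S) ω ∂P := by
  classical
  -- general statement: the hit set after some slabs have been refilled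
  suffices key : ∀ (k : ℕ) (S₁ : Finset ℕ), S₁.card = k → S₁ ⊆ S → ∀ (B : Set Ω), MeasurableSet B → ∀ A : Finset ℕ,
      Disjoint A S₁ → A ∪ S₁ ⊆ A₀ ∪ S →
      (∀ u ∈ S₁, ∀ ω ∈ B, ∃ ω' ∈ H, Reach R (fun v => T v ∪ L v) S' u ω ω') →
      (1 + c) ^ k * ∫⁻ ω, G ω * (h A ω * B.indicator 1 ω * ∏ u ∈ S₁, fac (T u) c ω) ∂P ≤
        ∫⁻ ω, G ω * h (A ∪ S₁) ω ∂P by
    exact key S.card S rfl subset_rfl B₀ mB₀ A₀ hAS subset_rfl hB₀
  intro k
  induction k with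
  | zero =>
    intro S₁ hcard hsub B mB A hdis hAu hB
    have e : S₁ = ∅ := card_eq_zero.1 hcard
    subst e
    rw [pow_zero, one_mul, union_empty]
    refine lintegral_mono fun ω => ?_
    rw [prod_empty, mul_one]
    gcongr
    calc h A ω * B.indicator 1 ω ≤ h A ω * 1 := by
          gcongr
          exact Set.indicator_le_self' (fun _ _ => zero_le) ω
      _ = _ := mul_one _
  | succ k ih =>
    intro S₁ hcard hsub B mB A hdis hAu hB
    have hne : S₁.Nonempty := card_pos.1 (by omega)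
    set u := S₁.min' hne with hu
    have huS₁ : u ∈ S₁ := min'_mem _ _
    have huS : u ∈ S := hsub huS₁
    have huA : u ∉ A := fun h => disjoint_left.1 hdis h huS₁
    have hAu' : insert u A ⊆ A₀ ∪ S := insert_subset (hAu (mem_union_right _ huS₁)) (subset_union_left.trans hAu)
    set S₂ := S₁.erase u with hS₂
    have hins : insert u S₂ = S₁ := insert_erase huS₁
    have hnot : u ∉ S₂ := notMem_erase _ _
    have hlt : ∀ v ∈ S₂, u < v := fun v hv => by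
      rw [hS₂, mem_erase] at hv
      exact lt_of_le_of_ne (min'_le _ _ hv.2) (Ne.symm hv.1)
    have hcard' : S₂.card = k := by
      rw [hS₂, card_erase_of_mem huS₁, hcard]; rfl
    have hsl := d.slab u (d.sub huS)
    set N : Set Ω := T u ∪ L u with hN
    have mN : MeasurableSet N := hsl.mT.union hsl.mL
    set B' : Set Ω := ext P (R u) N B with hB'
    have mB' : MeasurableSet B' := measurableSet_ext hsl.mp mN mB
    set Z : Set Ω := exc P (R u) N B with hZ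
    have mZ : MeasurableSet Z := measurableSet_exc hsl.mp mN mB
    have hZ0 : P Z = 0 := exc_null hsl.mp hsl.rr mN mB
    -- the hit set is still reached
    have hBB : ∀ v ∈ S₂, ∀ ω ∈ B', ∃ ω' ∈ H, Reach R (fun v => T v ∪ L v) S' v ω ω' := by
      intro v hv ω hω
      have hv' := hlt v hv
      rcases ext_hit hω with h1 | ⟨h1, η, h2⟩
      · obtain ⟨ω', h3, h4⟩ := hB u huS₁ ω h1
        exact ⟨ω', h3, h4.mono hv'.le⟩
      · obtain ⟨ω', h3, h4⟩ := hB u huS₁ _ h2.2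
        exact ⟨ω', h3, Reach.step η hv' (d.sub huS) h1 h2.1 h4⟩
    -- a typical and a lucky content do not both hit
    have hex : ∀ ω ∈ T u, ω ∈ B → ∀ η, R u η ω ∈ L u → R u η ω ∈ B → False := by
      intro ω h1 h2 η h3 h4
      obtain ⟨ω₁, h5, h6⟩ := hB u huS₁ ω h2
      obtain ⟨ω₂, h7, h8⟩ := hB u huS₁ _ h4
      exact d.excl u huS ω h1 η h3 ω₁ h5 h6 ω₂ h7 h8
    have mprod : Measurable fun ω => ∏ v ∈ S₂, fac (T v) c ω :=
      Finset.measurable_prod _ fun v hv =>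
        measurable_fac (d.slab v (d.sub (hsub (hins ▸ mem_insert_of_mem hv)))).mT c
    have m1 : ∀ D : Set Ω, MeasurableSet D → Measurable (D.indicator (1 : Ω → ℝ≥0∞)) := fun D mD =>
      measurable_one.indicator mD
    -- one slab
    have h2 := hsl.step hc (w := G)
      (f := fun ω => h A ω * (B \ Z).indicator 1 ω * ∏ v ∈ S₂, fac (T v) c ω)
      (g := fun ω => h (insert u A) ω * B'.indicator 1 ω * ∏ v ∈ S₂, fac (T v) c ω) mG
      (((mh A).mul (m1 _ (mB.diff mZ))).mul mprod) (((mh _).mul (m1 _ mB')).mul mprod) (cmp u huS)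
      (fun ω => by
        gcongr
        · exact mono u huS A ω
        · exact fun x hx => sub_ext hx)
      (fun ω hω η hη => by
        have h3 : ∏ v ∈ S₂, fac (T v) c ω = ∏ v ∈ S₂, fac (T v) c (R u η ω) := by
          refine prod_congr rfl fun v hv => ?_
          have hvS : v ∈ S := hsub (hins ▸ mem_insert_of_mem hv)
          exact fac_congr c (d.stepT u (d.sub huS) v hvS (hlt v hv) ω (Or.inl hω) η (Or.inr hη))
        by_cases h5 : ω ∈ B \ Z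
        · have h6 : R u η ω ∉ B \ Z := fun h7 => hex ω hω h5.1 η hη h7.1
          have h8 : R u η ω ∈ B' := ext_step hsl.rr h5 (Or.inl hω) (Or.inr hη)
          rw [Set.indicator_of_mem h5, Set.indicator_of_notMem h6, Set.indicator_of_mem h8, h3]
          simp only [Pi.one_apply, mul_one, mul_zero, zero_mul, add_zero]
          gcongr
          exact inv u huS A huA hAu' ω hω η hη
        · rw [Set.indicator_of_notMem h5]
          simp only [mul_zero, zero_mul, zero_add]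
          gcongr
          · exact mono u huS A _
          · exact fun x hx => sub_ext hx)
    have hdis' : Disjoint (insert u A) S₂ := by
      rw [disjoint_insert_left]
      exact ⟨hnot, disjoint_of_subset_right (erase_subset _ _) hdis⟩
    have hAu2 : insert u A ∪ S₂ ⊆ A₀ ∪ S := by
      refine subset_trans ?_ hAu
      intro v hv
      rw [mem_union, mem_insert] at hv
      rw [mem_union]
      rcases hv with (h1 | h1) | h1
      · exact Or.inr (h1 ▸ huS₁)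
      · exact Or.inl h1
      · exact Or.inr (hins ▸ mem_insert_of_mem h1)
    have h1 := ih S₂ hcard' (fun v hv => hsub (hins ▸ mem_insert_of_mem hv)) B' mB' (insert u A) hdis' hAu2 hBB
    have e : insert u A ∪ S₂ = A ∪ S₁ := by
      rw [← hins]
      ext v
      simp only [mem_union, mem_insert]
      tauto
    rw [e] at h1
    have e2 : ∫⁻ ω, G ω * (h A ω * B.indicator 1 ω * ∏ v ∈ S₁, fac (T v) c ω) ∂P =
        ∫⁻ ω, G ω * ((h A ω * (B \ Z).indicator 1 ω * ∏ v ∈ S₂, fac (T v) c ω) * fac (T u) c ω) ∂P := by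
      refine lintegral_congr_ae ?_
      have hZ1 : ∀ᵐ ω ∂P, ω ∉ Z := measure_eq_zero_iff_ae_notMem.1 hZ0
      filter_upwards [hZ1] with ω hω
      have h3 : (B \ Z).indicator (1 : Ω → ℝ≥0∞) ω = B.indicator 1 ω := by
        by_cases h4 : ω ∈ B
        · rw [Set.indicator_of_mem h4, Set.indicator_of_mem (show ω ∈ B \ Z from ⟨h4, hω⟩)]
        · rw [Set.indicator_of_notMem h4, Set.indicator_of_notMem (fun h5 : ω ∈ B \ Z => h4 h5.1)]
      rw [h3, ← hins, prod_insert hnot]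
      ring
    calc (1 + c) ^ (k + 1) * ∫⁻ ω, G ω * (h A ω * B.indicator 1 ω * ∏ v ∈ S₁, fac (T v) c ω) ∂P
        = (1 + c) ^ k * ((1 + c) *
            ∫⁻ ω, G ω * ((h A ω * (B \ Z).indicator 1 ω * ∏ v ∈ S₂, fac (T v) c ω) * fac (T u) c ω) ∂P) := by
          rw [e2, pow_succ, mul_assoc]
      _ ≤ (1 + c) ^ k * ∫⁻ ω, G ω * (h (insert u A) ω * B'.indicator 1 ω * ∏ v ∈ S₂, fac (T v) c ω) ∂P := by
          gcongr
      _ ≤ _ := h1

end Pool.Agent.W_7d29a1_C1.Lt87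

namespace Pool.Agent.W_7d29a1_C1.H49

open MeasureTheory Finset
open scoped ENNReal

section Hit

variable {Ω X : Type*} [MeasurableSpace Ω] [Fintype X] {P : Measure Ω} {p : Par X} {w : X → Ω → ℝ≥0∞}
  {fa : ℕ → ℕ → ℕ → X → Ω → ℝ≥0∞} {pot : ℕ → ℝ → X → Ω → ℝ≥0∞}

/-- The stage `j` outer event at `y` passes from `ω` with slack `σ` to `ω'` with slack `σ + β` (while `σ + β ≤ sl j`). -/
structure Osc (p : Par X) (w : X → Ω → ℝ≥0∞) (fa : ℕ → ℕ → ℕ → X → Ω → ℝ≥0∞) (pot : ℕ → ℝ → X → Ω → ℝ≥0∞)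
    (j : ℕ) (y : X) (β : ℝ) (ω ω' : Ω) : Prop where
  em : ∀ t' k σ, j < t' → t' + p.m0 ≤ k → k ≤ p.M → σ + β ≤ p.sl j → ex (-(p.th t' k + σ)) ≤ em p.row w (p.dk k j) y ω →
    ex (-(p.th t' k + (σ + β))) ≤ em p.row w (p.dk k j) y ω'
  fa : ∀ t' k σ, j < t' → t' + p.m0 ≤ k → k ≤ p.M → σ + β ≤ p.sl j → ex (-(p.th t' k + σ)) ≤ fa t' k j y ω →
    ex (-(p.th t' k + (σ + β))) ≤ fa t' k j y ω'
  pot : ∀ σ, σ + β ≤ p.sl j → pot j σ y ω ≤ pot j (σ + β) y ω'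

omit [MeasurableSpace Ω] in
/-- `Osc` from multiplicative bounds. -/
theorem Osc.of_mul {j : ℕ} {y : X} {β : ℝ} {ω ω' : Ω}
    (hem : ∀ k, j + p.m0 < k → k ≤ p.M → H49.em p.row w (p.dk k j) y ω ≤ ex β * H49.em p.row w (p.dk k j) y ω')
    (hfa : ∀ t' k, j < t' → t' + p.m0 ≤ k → k ≤ p.M → fa t' k j y ω ≤ ex β * fa t' k j y ω')
    (hpot : ∀ σ, pot j σ y ω ≤ pot j (σ + β) y ω') : Osc p w fa pot j y β ω ω' := by
  have h3 : ∀ {t' k : ℕ} {σ : ℝ} {a a' : ℝ≥0∞}, a ≤ ex β * a' → ex (-(p.th t' k + σ)) ≤ a →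
      ex (-(p.th t' k + (σ + β))) ≤ a' := by
    intro t' k σ a a' h4 h5
    calc ex (-(p.th t' k + (σ + β))) ≤ ex (-β + -(p.th t' k + σ)) := ex_mono (by linarith)
      _ = ex (-β) * ex (-(p.th t' k + σ)) := ex_add _ _
      _ ≤ ex (-β) * (ex β * a') := mul_le_mul' le_rfl (h5.trans h4)
      _ = (ex β * ex (-β)) * a' := by ring
      _ = a' := by rw [ex_mul_neg, one_mul]
  exact ⟨fun t' k σ h1 h2 h5 _ h6 => h3 (hem k (by omega) h5) h6,
    fun t' k σ h1 h2 h5 _ h6 => h3 (hfa t' k h1 h2 h5) h6, fun σ _ => hpot σ⟩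

theorem inv_pow_mul_le {c A B : ℝ≥0∞} (hc : c ≠ ⊤) {n : ℕ} (h : (1 + c) ^ n * A ≤ B) : A ≤ (1 + c)⁻¹ ^ n * B := by
  have h0 : 1 + c ≠ 0 := by
    have : (1 : ℝ≥0∞) ≤ 1 + c := le_self_add
    exact (zero_lt_one.trans_le this).ne'
  have h1 : 1 + c ≠ ⊤ := by finiteness
  have hone : (1 + c)⁻¹ * (1 + c) = 1 := ENNReal.inv_mul_cancel h0 h1
  calc A = ((1 + c)⁻¹ * (1 + c)) ^ n * A := by rw [hone, one_pow, one_mul]
    _ = (1 + c)⁻¹ ^ n * ((1 + c) ^ n * A) := by rw [mul_pow, mul_assoc]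
    _ ≤ _ := mul_le_mul' le_rfl h

omit [MeasurableSpace Ω] in
theorem hM_insert (hθ : 1 ≤ p.θ) {t i u : ℕ} {y : X} {A : Finset ℕ} (hu : u ∉ A)
    (hsl : p.sl (t - 1) + ∑ v ∈ insert u A, p.b v ≤ p.sl (i + p.m2)) {ω ω' : Ω}
    (h : Osc p w fa pot (i + p.m2) y (p.b u) ω ω') :
    hM p w fa pot t i y A ω ≤ hM p w fa pot t i y (insert u A) ω' := by
  classical
  unfold hM
  have e : p.sl (t - 1) + ∑ v ∈ insert u A, p.b v = (p.sl (t - 1) + ∑ v ∈ A, p.b v) + p.b u := by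
    rw [sum_insert hu]; ring
  rw [e] at hsl ⊢
  refine mul_le_mul' (pow_le_pow_right₀ hθ ?_) (h.pot _ hsl)
  unfold cnt
  refine card_le_card fun t' ht' => ?_
  rw [mem_filter, mem_Ioc] at ht' ⊢
  obtain ⟨h1, k, hk, h2⟩ := ht'
  rw [mem_Icc] at hk
  refine ⟨h1, k, mem_Icc.2 hk, ?_⟩
  rcases h2 with h2 | h2
  · exact Or.inl (h.em t' k _ h1.1 hk.1 hk.2 hsl h2)
  · exact Or.inr (h.fa t' k _ h1.1 hk.1 hk.2 hsl h2)

/-- The slack of a subset. -/
theorem sl_sub {Y : Type*} {p : Par Y} (b_nonneg : ∀ v, 0 ≤ p.b v) {t i : ℕ} {A B : Finset ℕ} (h : A ⊆ B)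
    (slack : p.sl (t - 1) + ∑ v ∈ B, p.b v ≤ p.sl (i + p.m2)) :
    p.sl (t - 1) + ∑ v ∈ A, p.b v ≤ p.sl (i + p.m2) := by
  have := sum_le_sum_of_subset_of_nonneg h fun v _ _ => b_nonneg v
  linarith

omit [MeasurableSpace Ω] in
/-- `hM` after all slabs of `A` is at most the weight of the stage `i + m2`. -/
theorem hM_le_gM (hθ : 1 ≤ p.θ) (dk_anti : ∀ k τ τ', τ ≤ τ' → p.dk k τ' ≤ p.dk k τ)
    (fa_mono : ∀ t k τ τ' x ω, τ ≤ τ' → fa t k τ x ω ≤ fa t k τ' x ω)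
    (pot_mono : ∀ τ τ' σ σ' x ω, τ ≤ τ' → σ ≤ σ' → pot τ σ x ω ≤ pot τ' σ' x ω) {t i : ℕ} {y : X} {A : Finset ℕ}
    (slack : p.sl (t - 1) + ∑ v ∈ A, p.b v ≤ p.sl (i + p.m2)) (ω : Ω) :
    hM p w fa pot t i y A ω ≤ gM p w fa pot (i + p.m2) y ω := by
  unfold hM gM
  exact mul_le_mul' (pow_le_pow_right₀ hθ (cnt_mono dk_anti fa_mono le_rfl slack y ω))
    (pot_mono _ _ _ _ _ _ le_rfl slack)

/-- THE CONTACT STAYS: `hzF`. -/
theorem hzF_of [SFinite P] {c : ℝ≥0∞} (hc : c ≠ ⊤) (mw : ∀ x, Measurable (w x))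
    (mfa : ∀ t k τ x, Measurable (fa t k τ x)) (mpot : ∀ τ σ x, Measurable (pot τ σ x)) (hθ : 1 ≤ p.θ)
    (dk_anti : ∀ k τ τ', τ ≤ τ' → p.dk k τ' ≤ p.dk k τ)
    (fa_mono : ∀ t k τ τ' x ω, τ ≤ τ' → fa t k τ x ω ≤ fa t k τ' x ω)
    (pot_mono : ∀ τ τ' σ σ' x ω, τ ≤ τ' → σ ≤ σ' → pot τ σ x ω ≤ pot τ' σ' x ω) (b_nonneg : ∀ v, 0 ≤ p.b v)
    {t i : ℕ} {x : X} {R : ℕ → Ω → Ω → Ω} {S : Finset ℕ} {T L : ℕ → Set Ω} {H : Set Ω}
    (hit : Lt87.HitG P R T L S S H) (mH : MeasurableSet H)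
    (cmp : ∀ u ∈ S, ∀ ω ∈ T u, c * w x ω ≤ ∫⁻ η, (L u).indicator (w x) (R u η ω) ∂P)
    (osc : ∀ u ∈ S, ∀ ω ∈ T u, ∀ η, R u η ω ∈ L u → Osc p w fa pot (i + p.m2) x (p.b u) ω (R u η ω))
    (slack : p.sl (t - 1) + ∑ v ∈ S, p.b v ≤ p.sl (i + p.m2)) :
    ∫⁻ ω, w x ω * (hM p w fa pot t i x ∅ ω * H.indicator 1 ω * ∏ u ∈ S, fac (T u) c ω) ∂P ≤
      (1 + c)⁻¹ ^ S.card * ∫⁻ ω, w x ω * gM p w fa pot (i + p.m2) x ω ∂P := by
  classical
  refine inv_pow_mul_le hc ?_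
  have key := hit.late hc (mw x) cmp (h := fun A ω => hM p w fa pot t i x A ω)
    (fun A => mhM mw mfa mpot t i x _)
    (fun u _ A ω => hM_mono hθ dk_anti fa_mono pot_mono b_nonneg t i x (subset_insert u A) ω)
    (A₀ := ∅) (fun u hu A hA hA' ω hω η hη => hM_insert hθ hA
      (sl_sub b_nonneg (by rwa [empty_union] at hA') slack) (osc u hu ω hω η hη)) mH
    (fun u _ ω hω => ⟨ω, hω, Lt87.Reach.refl⟩) (disjoint_empty_left _)
  refine key.trans (lintegral_mono fun ω => mul_le_mul' le_rfl ?_)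
  rw [empty_union]
  exact hM_le_gM hθ dk_anti fa_mono pot_mono slack ω

/-- AFTER A MOVE: `hzE`. The window `s` (of the move) is the innermost one. -/
theorem hzE_of [SFinite P] {c : ℝ≥0∞} (hc : c ≠ ⊤) (mw : ∀ x, Measurable (w x))
    (mfa : ∀ t k τ x, Measurable (fa t k τ x)) (mpot : ∀ τ σ x, Measurable (pot τ σ x)) (hθ : 1 ≤ p.θ)
    (dk_anti : ∀ k τ τ', τ ≤ τ' → p.dk k τ' ≤ p.dk k τ)
    (fa_mono : ∀ t k τ τ' x ω, τ ≤ τ' → fa t k τ x ω ≤ fa t k τ' x ω)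
    (pot_mono : ∀ τ τ' σ σ' x ω, τ ≤ τ' → σ ≤ σ' → pot τ σ x ω ≤ pot τ' σ' x ω) (b_nonneg : ∀ v, 0 ≤ p.b v)
    {t i s : ℕ} {ρ : X} {R : ℕ → Ω → Ω → Ω} {S : Finset ℕ} {T L : ℕ → Set Ω} {H : Set Ω}
    (hit : Lt87.HitG P R T L S (insert s S) H) (mH : MeasurableSet H) (hsS : ∀ u ∈ S, s < u)
    (cmp : ∀ u ∈ S, ∀ ω ∈ T u, c * w ρ ω ≤ ∫⁻ η, (L u).indicator (w ρ) (R u η ω) ∂P)
    (osc : ∀ u ∈ S, ∀ ω ∈ T u, ∀ η, R u η ω ∈ L u → Osc p w fa pot (i + p.m2) ρ (p.b u) ω (R u η ω))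
    (oscs : ∀ ω ∈ T s ∪ L s, ∀ η, R s η ω ∈ L s → Osc p w fa pot (i + p.m2) ρ (p.b s) ω (R s η ω))
    (slack : p.sl (t - 1) + ∑ v ∈ insert s S, p.b v ≤ p.sl (i + p.m2)) :
    ∫⁻ ω in T s ∪ L s, (hM p w fa pot t i ρ ∅ ω * H.indicator 1 ω * ∏ u ∈ S, fac (T u) c ω) *
      ∫⁻ η, (L s).indicator (w ρ) (R s η ω) ∂P ∂P ≤
        (1 + c)⁻¹ ^ S.card * ∫⁻ ω, w ρ ω * gM p w fa pot (i + p.m2) ρ ω ∂P := by
  classical
  have hs := hit.slab s (mem_insert_self _ _)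
  have mN : MeasurableSet (T s ∪ L s) := hs.mT.union hs.mL
  have hsS' : s ∉ S := fun h => lt_irrefl _ (hsS s h)
  set B₁ : Set Ω := Lt87.ext P (R s) (T s ∪ L s) H with hB₁
  have mB₁ : MeasurableSet B₁ := Lt87.measurableSet_ext hs.mp mN mH
  set Z : Set Ω := Lt87.exc P (R s) (T s ∪ L s) H with hZ
  have hZ0 : P Z = 0 := Lt87.exc_null hs.mp hs.rr mN mH
  set h₁ : Ω → ℝ≥0∞ := fun ω => hM p w fa pot t i ρ {s} ω * B₁.indicator 1 ω * ∏ u ∈ S, fac (T u) c ω with hh₁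
  have mh₁ : Measurable h₁ :=
    ((mhM mw mfa mpot t i ρ {s}).mul (measurable_one.indicator mB₁)).mul
      (Finset.measurable_fun_prod _ fun u hu => measurable_fac (hit.slab u (mem_insert_of_mem hu)).mT c)
  have m1 : Measurable fun ω => w ρ ω * h₁ ω := (mw ρ).mul mh₁
  -- pointwise
  have hpt : ∀ ω ∉ Z, ω ∈ T s ∪ L s →
      (hM p w fa pot t i ρ ∅ ω * H.indicator 1 ω * ∏ u ∈ S, fac (T u) c ω) *
        ∫⁻ η, (L s).indicator (w ρ) (R s η ω) ∂P ≤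
      ∫⁻ η, (L s).indicator (fun ω => w ρ ω * h₁ ω) (R s η ω) ∂P := by
    intro ω hωZ hω
    have hm1 : Measurable fun η => R s η ω := hs.mp.measurable.comp (measurable_id.prodMk measurable_const)
    have hm3 : Measurable fun η => (L s).indicator (w ρ) (R s η ω) := ((mw ρ).indicator hs.mL).comp hm1
    rw [← lintegral_const_mul _ hm3]
    refine lintegral_mono fun η => ?_
    by_cases hη : R s η ω ∈ L s
    · rw [Set.indicator_of_mem hη, Set.indicator_of_mem hη, mul_comm]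
      refine mul_le_mul' le_rfl ?_
      by_cases hH : ω ∈ H
      · have h2 : R s η ω ∈ B₁ := Lt87.ext_step hs.rr ⟨hH, hωZ⟩ hω (Or.inr hη)
        rw [Set.indicator_of_mem hH, hh₁]
        simp only
        rw [Set.indicator_of_mem h2]
        refine mul_le_mul' (mul_le_mul' ?_ le_rfl) (le_of_eq ?_)
        · have := hM_insert (p := p) (t := t) hθ (notMem_empty s)
            (sl_sub b_nonneg (insert_subset_insert s (empty_subset S)) slack) (oscs ω hω η hη)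
          rwa [insert_empty_eq] at this
        · refine prod_congr rfl fun v hv => ?_
          exact fac_congr c (hit.stepT s (mem_insert_self _ _) v hv (hsS v hv) ω hω η (Or.inr hη))
      · rw [Set.indicator_of_notMem hH, mul_zero, zero_mul]; exact zero_le
    · rw [Set.indicator_of_notMem hη, mul_zero]; exact zero_le
  refine inv_pow_mul_le hc ?_
  have e1 : ∫⁻ ω in T s ∪ L s, (hM p w fa pot t i ρ ∅ ω * H.indicator 1 ω * ∏ u ∈ S, fac (T u) c ω) *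
      ∫⁻ η, (L s).indicator (w ρ) (R s η ω) ∂P ∂P ≤ ∫⁻ ω, w ρ ω * h₁ ω ∂P := by
    calc _ ≤ ∫⁻ ω in T s ∪ L s, ∫⁻ η, (L s).indicator (fun ω => w ρ ω * h₁ ω) (R s η ω) ∂P ∂P := by
          refine setLIntegral_mono_ae' mN ?_
          have hZ1 : ∀ᵐ ω ∂P, ω ∉ Z := measure_eq_zero_iff_ae_notMem.1 hZ0
          filter_upwards [hZ1] with ω hω hωN
          exact hpt ω hω hωN
      _ ≤ ∫⁻ ω, ∫⁻ η, (L s).indicator (fun ω => w ρ ω * h₁ ω) (R s η ω) ∂P ∂P := setLIntegral_le_lintegral _ _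
      _ = ∫⁻ ω in L s, w ρ ω * h₁ ω ∂P := hs.transport hs.mL m1
      _ ≤ _ := setLIntegral_le_lintegral _ _
  have key := hit.late hc (mw ρ) cmp (h := fun A ω => hM p w fa pot t i ρ A ω)
    (fun A => mhM mw mfa mpot t i ρ _)
    (fun u _ A ω => hM_mono hθ dk_anti fa_mono pot_mono b_nonneg t i ρ (subset_insert u A) ω)
    (A₀ := {s}) (fun u hu A hA hA' ω hω η hη => hM_insert hθ hA
      (sl_sub b_nonneg (by rwa [← insert_eq] at hA') slack) (osc u hu ω hω η hη)) mB₁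
    (fun u hu ω hω => by
      rcases Lt87.ext_hit hω with h1 | ⟨h1, η, h2⟩
      · exact ⟨ω, h1, Lt87.Reach.refl⟩
      · exact ⟨_, h2.2, Lt87.Reach.step η (hsS u hu) (mem_insert_self _ _) h1 h2.1 Lt87.Reach.refl⟩)
    (disjoint_singleton_left.2 hsS')
  refine (mul_le_mul' le_rfl e1).trans (key.trans (lintegral_mono fun ω => mul_le_mul' le_rfl ?_))
  rw [← insert_eq]
  exact hM_le_gM hθ dk_anti fa_mono pot_mono slack ω

/-- THE HIT DATA: what `hzF`, `hzE` of `MoveD` need. `T`, `L` may read the rows beyond their window. -/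
structure HitD (P : Measure Ω) (p : Par X) (w : X → Ω → ℝ≥0∞) (fa : ℕ → ℕ → ℕ → X → Ω → ℝ≥0∞)
    (pot : ℕ → ℝ → X → Ω → ℝ≥0∞) {K : ℕ → Type*} (cel : ∀ u, X → K u) (R : ∀ u, K u → Ω → Ω → Ω)
    (T L : ∀ u, K u → Set Ω) (nb : ∀ s, K s → Finset X) (S : ℕ → ℕ → Finset ℕ) (τ0 : ℕ) (c : ℝ≥0∞) : Prop where
  c_top : c ≠ ⊤
  b_nonneg : ∀ v, 0 ≤ p.b v
  slab : ∀ u κ, Lt87.Slab P (R u κ) (T u κ) (L u κ)
  S_sub : ∀ s i, S s i ⊆ Ioo s i
  slack : ∀ t i, p.rg τ0 t i → p.sl (t - 1) + ∑ v ∈ Ico (p.st t i) i, p.b v ≤ p.sl (i + p.m2)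
  cmp : ∀ t i, p.rg τ0 t i → ∀ u ∈ Ico (p.st t i) i, ∀ y, ∀ ω ∈ T u (cel u y),
    c * w y ω ≤ ∫⁻ η, (L u (cel u y)).indicator (w y) (R u (cel u y) η ω) ∂P
  stepT : ∀ t i, p.rg τ0 t i → ∀ s ∈ Ico (p.st t i) i, ∀ y, ∀ u ∈ S s i, ∀ v ∈ S s i, u < v →
    ∀ ω ∈ T u (cel u y) ∪ L u (cel u y), ∀ η, R u (cel u y) η ω ∈ T u (cel u y) ∪ L u (cel u y) →
      (ω ∈ T v (cel v y) ↔ R u (cel u y) η ω ∈ T v (cel v y))
  stepS : ∀ t i, p.rg τ0 t i → ∀ s ∈ Ico (p.st t i) i, ∀ κ, ∀ ρ ∈ nb s κ, ∀ v ∈ S s i,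
    ∀ ω ∈ T s κ ∪ L s κ, ∀ η, R s κ η ω ∈ T s κ ∪ L s κ → (ω ∈ T v (cel v ρ) ↔ R s κ η ω ∈ T v (cel v ρ))
  exclF : ∀ t i, p.rg τ0 t i → ∀ x, ∀ u ∈ S (p.st t i) i, ∀ ω ∈ T u (cel u x), ∀ η, R u (cel u x) η ω ∈ L u (cel u x) →
    ∀ ω₁ ∈ Hf p w fa t i x, Lt87.Reach (fun v => R v (cel v x)) (fun v => T v (cel v x) ∪ L v (cel v x))
      (S (p.st t i) i) u ω ω₁ →
    ∀ ω₂ ∈ Hf p w fa t i x, Lt87.Reach (fun v => R v (cel v x)) (fun v => T v (cel v x) ∪ L v (cel v x))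
      (S (p.st t i) i) u (R u (cel u x) η ω) ω₂ → False
  exclE : ∀ t i, p.rg τ0 t i → ∀ s ∈ Ico (p.st t i) i, ∀ κ, ∀ ρ ∈ nb s κ, ∀ u ∈ S s i,
    ∀ ω ∈ T u (cel u ρ), ∀ η, R u (cel u ρ) η ω ∈ L u (cel u ρ) →
    ∀ ω₁ ∈ Hs p w cel t i s κ, Lt87.Reach (Function.update (fun v => R v (cel v ρ)) s (R s κ))
      (Function.update (fun v => T v (cel v ρ) ∪ L v (cel v ρ)) s (T s κ ∪ L s κ)) (insert s (S s i)) u ω ω₁ →
    ∀ ω₂ ∈ Hs p w cel t i s κ, Lt87.Reach (Function.update (fun v => R v (cel v ρ)) s (R s κ))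
      (Function.update (fun v => T v (cel v ρ) ∪ L v (cel v ρ)) s (T s κ ∪ L s κ)) (insert s (S s i)) u
        (R u (cel u ρ) η ω) ω₂ → False
  oscT : ∀ t i, p.rg τ0 t i → ∀ u ∈ Ico (p.st t i) i, ∀ y, ∀ ω ∈ T u (cel u y), ∀ η,
    R u (cel u y) η ω ∈ L u (cel u y) → Osc p w fa pot (i + p.m2) y (p.b u) ω (R u (cel u y) η ω)
  oscS : ∀ t i, p.rg τ0 t i → ∀ s ∈ Ico (p.st t i) i, ∀ κ, ∀ ρ ∈ nb s κ, ∀ ω ∈ T s κ ∪ L s κ, ∀ η,
    R s κ η ω ∈ L s κ → Osc p w fa pot (i + p.m2) ρ (p.b s) ω (R s κ η ω)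

namespace HitD

variable {K : ℕ → Type*} {cel : ∀ u, X → K u} {R : ∀ u, K u → Ω → Ω → Ω} {T L : ∀ u, K u → Set Ω}
  {nb : ∀ s, K s → Finset X} {S : ℕ → ℕ → Finset ℕ} {τ0 : ℕ} {c : ℝ≥0∞}

/-- The field `hzF` of `MoveD`, `Cz = 1`. -/
theorem hzF [SFinite P] (d : HitD P p w fa pot cel R T L nb S τ0 c) (mw : ∀ x, Measurable (w x))
    (mfa : ∀ t k τ x, Measurable (fa t k τ x)) (mpot : ∀ τ σ x, Measurable (pot τ σ x)) (hθ : 1 ≤ p.θ)
    (dk_anti : ∀ k τ τ', τ ≤ τ' → p.dk k τ' ≤ p.dk k τ)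
    (fa_mono : ∀ t k τ τ' x ω, τ ≤ τ' → fa t k τ x ω ≤ fa t k τ' x ω)
    (pot_mono : ∀ τ τ' σ σ' x ω, τ ≤ τ' → σ ≤ σ' → pot τ σ x ω ≤ pot τ' σ' x ω)
    (st_lt : ∀ t i, p.rg τ0 t i → p.st t i < i) :
    ∀ t i, p.rg τ0 t i → ∀ x, ∫⁻ ω, w x ω * (hM p w fa pot t i x ∅ ω * (Hf p w fa t i x).indicator 1 ω *
      ∏ u ∈ S (p.st t i) i, fac (T u (cel u x)) c ω) ∂P ≤
        1 * (1 + c)⁻¹ ^ (S (p.st t i) i).card * ∫⁻ ω, w x ω * gM p w fa pot (i + p.m2) x ω ∂P := by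
  intro t i h x
  have hsub : ∀ u ∈ S (p.st t i) i, u ∈ Ico (p.st t i) i := fun u hu => by
    have := mem_Ioo.1 (d.S_sub _ _ hu)
    rw [mem_Ico]; omega
  have mH : MeasurableSet (Hf p w fa t i x) :=
    (measurableSet_le measurable_const (mfa _ _ _ x)).inter (measurableSet_le measurable_const (mw x))
  have hit : Lt87.HitG P (fun u => R u (cel u x)) (fun u => T u (cel u x)) (fun u => L u (cel u x))
      (S (p.st t i) i) (S (p.st t i) i) (Hf p w fa t i x) :=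
    ⟨subset_rfl, fun u _ => d.slab u _,
      fun u hu v hv huv ω hω η hη => d.stepT t i h (p.st t i) (mem_Ico.2 ⟨le_rfl, st_lt t i h⟩) x u hu v hv huv
        ω hω η hη, fun u hu ω hω η hη ω₁ h1 h2 ω₂ h3 h4 => d.exclF t i h x u hu ω hω η hη ω₁ h1 h2 ω₂ h3 h4⟩
  rw [one_mul]
  refine hzF_of d.c_top mw mfa mpot hθ dk_anti fa_mono pot_mono d.b_nonneg hit mH
    (fun u hu ω hω => d.cmp t i h u (hsub u hu) x ω hω)
    (fun u hu ω hω η hη => d.oscT t i h u (hsub u hu) x ω hω η hη) ?_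
  have h1 := sum_le_sum_of_subset_of_nonneg (f := p.b) (fun u hu => hsub u hu) fun v _ _ => d.b_nonneg v
  linarith [d.slack t i h]

/-- The field `hzE` of `MoveD`, `Cz = 1`. -/
theorem hzE [SFinite P] (d : HitD P p w fa pot cel R T L nb S τ0 c) (mw : ∀ x, Measurable (w x))
    (mfa : ∀ t k τ x, Measurable (fa t k τ x)) (mpot : ∀ τ σ x, Measurable (pot τ σ x)) (hθ : 1 ≤ p.θ)
    (dk_anti : ∀ k τ τ', τ ≤ τ' → p.dk k τ' ≤ p.dk k τ)
    (fa_mono : ∀ t k τ τ' x ω, τ ≤ τ' → fa t k τ x ω ≤ fa t k τ' x ω)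
    (pot_mono : ∀ τ τ' σ σ' x ω, τ ≤ τ' → σ ≤ σ' → pot τ σ x ω ≤ pot τ' σ' x ω) :
    ∀ t i, p.rg τ0 t i → ∀ s ∈ Ico (p.st t i) i, ∀ κ : K s, ∀ ρ ∈ nb s κ,
      ∫⁻ ω in T s κ ∪ L s κ, (hM p w fa pot t i ρ ∅ ω * (Hs p w cel t i s κ).indicator 1 ω *
        ∏ u ∈ S s i, fac (T u (cel u ρ)) c ω) * ∫⁻ η, (L s κ).indicator (w ρ) (R s κ η ω) ∂P ∂P ≤
          1 * (1 + c)⁻¹ ^ (S s i).card * ∫⁻ ω, w ρ ω * gM p w fa pot (i + p.m2) ρ ω ∂P := by
  intro t i h s hs κ ρ hρ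
  have hs' := mem_Ico.1 hs
  have hsub : ∀ u ∈ S s i, s < u ∧ u ∈ Ico (p.st t i) i := fun u hu => by
    have := mem_Ioo.1 (d.S_sub _ _ hu)
    rw [mem_Ico]; omega
  have hne : ∀ u ∈ S s i, u ≠ s := fun u hu => (hsub u hu).1.ne'
  set R' : ℕ → Ω → Ω → Ω := Function.update (fun v => R v (cel v ρ)) s (R s κ) with hR'
  set T' : ℕ → Set Ω := Function.update (fun v => T v (cel v ρ)) s (T s κ) with hT'
  set L' : ℕ → Set Ω := Function.update (fun v => L v (cel v ρ)) s (L s κ) with hL'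
  have eR : ∀ u ∈ S s i, R' u = R u (cel u ρ) := fun u hu => Function.update_of_ne (hne u hu) _ _
  have eT : ∀ u ∈ S s i, T' u = T u (cel u ρ) := fun u hu => Function.update_of_ne (hne u hu) _ _
  have eL : ∀ u ∈ S s i, L' u = L u (cel u ρ) := fun u hu => Function.update_of_ne (hne u hu) _ _
  have eRs : R' s = R s κ := Function.update_self _ _ _
  have eTs : T' s = T s κ := Function.update_self _ _ _
  have eLs : L' s = L s κ := Function.update_self _ _ _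
  have eN : (fun v => T' v ∪ L' v) =
      Function.update (fun v => T v (cel v ρ) ∪ L v (cel v ρ)) s (T s κ ∪ L s κ) := by
    funext v
    by_cases hv : v = s
    · subst hv
      rw [Function.update_self, eTs, eLs]
    · rw [Function.update_of_ne hv, hT', hL', Function.update_of_ne hv, Function.update_of_ne hv]
  have mH : MeasurableSet (Hs p w cel t i s κ) := by
    have e : Hs p w cel t i s κ = ⋃ ρ : X, {ω | cel s ρ = κ ∧ ex (-p.be t i) ≤ w ρ ω ∧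
        p.κ3 ≤ lm p.row w (p.dl i) ρ ω} := by
      ext ω; simp [Hs]
    rw [e]
    refine MeasurableSet.iUnion fun ρ => ?_
    by_cases h : cel s ρ = κ
    · simp only [h, true_and]
      exact (measurableSet_le measurable_const (mw ρ)).inter
        (measurableSet_le measurable_const (measurable_lm mw _ _))
    · simp [h]
  have hit : Lt87.HitG P R' T' L' (S s i) (insert s (S s i)) (Hs p w cel t i s κ) := by
    refine ⟨subset_insert _ _, fun u hu => ?_, fun u hu v hv huv ω hω η hη => ?_,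
      fun u hu ω hω η hη ω₁ h1 h2 ω₂ h3 h4 => ?_⟩
    · rcases mem_insert.1 hu with h1 | h1
      · rw [h1, eRs, eTs, eLs]; exact d.slab s κ
      · rw [eR u h1, eT u h1, eL u h1]; exact d.slab u _
    · rw [eT v hv]
      rcases mem_insert.1 hu with h1 | h1
      · subst h1
        rw [eTs, eLs] at hω hη
        rw [eRs] at hη ⊢
        exact d.stepS t i h u hs κ ρ hρ v hv ω hω η hη
      · rw [eT u h1, eL u h1] at hω hη
        rw [eR u h1] at hη ⊢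
        exact d.stepT t i h s hs ρ u h1 v hv huv ω hω η hη
    · rw [eN] at h2 h4
      rw [eT u hu] at hω
      rw [eR u hu] at hη h4
      rw [eL u hu] at hη
      exact d.exclE t i h s hs κ ρ hρ u hu ω hω η hη ω₁ h1 h2 ω₂ h3 h4
  have key := hzE_of (p := p) (pot := pot) (fa := fa) (t := t) (i := i) (ρ := ρ) d.c_top mw mfa mpot hθ dk_anti fa_mono
    pot_mono d.b_nonneg hit mH (fun u hu => (hsub u hu).1)
    (fun u hu ω hω => by
      rw [eT u hu] at hω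
      rw [eL u hu, eR u hu]
      exact d.cmp t i h u (hsub u hu).2 ρ ω hω)
    (fun u hu ω hω η hη => by
      rw [eT u hu] at hω
      rw [eR u hu, eL u hu] at hη
      rw [eR u hu]
      exact d.oscT t i h u (hsub u hu).2 ρ ω hω η hη)
    (fun ω hω η hη => by
      rw [eTs, eLs] at hω
      rw [eRs, eLs] at hη
      rw [eRs]
      exact d.oscS t i h s hs κ ρ hρ ω hω η hη)
    (by
      have h1 := sum_le_sum_of_subset_of_nonneg (f := p.b) (s := insert s (S s i)) (t := Ico (p.st t i) i)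
        (fun u hu => by
          rcases mem_insert.1 hu with h2 | h2
          · rw [h2]; exact hs
          · exact (hsub u h2).2) fun v _ _ => d.b_nonneg v
      linarith [d.slack t i h])
  rw [eTs, eLs, eRs] at key
  rw [one_mul]
  refine le_trans (le_of_eq ?_) key
  refine lintegral_congr fun ω => ?_
  have e5 : ∏ u ∈ S s i, fac (T' u) c ω = ∏ u ∈ S s i, fac (T u (cel u ρ)) c ω :=
    prod_congr rfl fun u hu => by rw [eT u hu]
  rw [e5]

end HitD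

end Hit

end Pool.Agent.W_7d29a1_C1.H49
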