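import Pool.Agent.W_7d29a1_C1.Excl53B
import Pool.Agent.W_7d29a1_C1.HitM49

/-!
Both halves (MP_7d29a1_pr), attractor route [C1], SEP (move the contact), S9: THE EXCLUSIONS `exclF`, `exclE` OF `HitD`.
(helper53)

`ω` (slab `u` typical), `R u η ω` (slab `u` lucky), `ω₁` reached from `ω`, `ω₂` reached from `R u η ω` by changes of the
windows `v < u`, from outside to inside (`Lt87.Reach`). Every change of a window `v` is priced: `Z` and the mass through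
the mouth of the slab `u` by the factor `exp (d v)`, the probabilities to miss the mouth or the exit cell by `exp (d v)` and
an additive error `st v` (`Stp`). If a part `π` of `ω₁` enters the mouth, then `ω₂` misses the mouth or the exit cell with
probability at most `exp D (Y exp (2 D) / (g π) + St)` (`off53`). Hence the far mass (`far53C`) and the later contacts
(`late53C`) of `ω₂`.
-/

set_option autoImplicit false

namespace Pool.Agent.W_7d29a1_C1.E53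

open Finset MeasureTheory
open Pool.Agent.W_7d29a1_F Pool.Agent.W_7d29a1_h4g Pool.Agent.W_7d29a1_H Pool.Agent.W_7d29a1_HS
open Pool.Agent.W_7d29a1_C1.K91 (Grp Box wt wt_pos)
open Pool.Agent.W_7d29a1_C1.K91P
open Pool.Agent.W_7d29a1_C1.R26P
open Pool.Agent.W_7d29a1_C1.U16 (ker)
open Pool.Agent.W_7d29a1_C1.Sp22 (Ms Ps Zt)
open Pool.Agent.W_7d29a1_C1.H60
open Pool.Agent.W_7d29a1_C1.Lt87 (Reach)

/-! ### Prices along `Reach` -/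

section chain

variable {Ω : Type*} {R : ℕ → Ω → Ω → Ω} {N : ℕ → Set Ω} {S : Finset ℕ} {d st : ℕ → ℝ}

/-- The sum over the windows `v < u`. -/
def pr (S : Finset ℕ) (d : ℕ → ℝ) (u : ℕ) : ℝ := ∑ v ∈ S.filter fun v => v < u, d v

theorem pr_nonneg (hd : ∀ v, 0 ≤ d v) (u : ℕ) : 0 ≤ pr S d u := sum_nonneg fun v _ => hd v

theorem pr_step (hd : ∀ v, 0 ≤ d v) {u v : ℕ} (hv : v ∈ S) (hvu : v < u) : pr S d v + d v ≤ pr S d u := by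
  unfold pr
  have h1 : v ∉ S.filter fun w => w < v := fun h => lt_irrefl _ (mem_filter.1 h).2
  have h2 : insert v (S.filter fun w => w < v) ⊆ S.filter fun w => w < u := by
    intro w hw
    rcases mem_insert.1 hw with h | h
    · exact mem_filter.2 ⟨h ▸ hv, h ▸ hvu⟩
    · exact mem_filter.2 ⟨(mem_filter.1 h).1, (mem_filter.1 h).2.trans hvu⟩
  have h3 := sum_le_sum_of_subset_of_nonneg (f := d) h2 fun w _ _ => hd w
  rw [sum_insert h1] at h3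
  linarith

/-- A function which grows by `exp (d v)` and `st v`. -/
theorem reach_up (hd : ∀ v, 0 ≤ d v) (hs : ∀ v, 0 ≤ st v) {F : Ω → ℝ} (hF : ∀ ω, 0 ≤ F ω) {u : ℕ} {ω ω' : Ω}
    (r : Reach R N S u ω ω')
    (h : ∀ v ∈ S, v < u → ∀ ω ∈ N v, ∀ η, R v η ω ∈ N v → F (R v η ω) ≤ Real.exp (d v) * F ω + st v) :
    F ω' ≤ Real.exp (pr S d u) * (F ω + pr S st u) := by
  induction r with
  | @refl u ω =>
    have h1 : 1 ≤ Real.exp (pr S d u) := Real.one_le_exp (pr_nonneg hd u)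
    have h2 := pr_nonneg (S := S) hs u
    have h3 := hF ω
    nlinarith
  | @step u v ω ω' η hvu hvS hω hRω _ ih =>
    have h1 := ih fun w hw hwv => h w hw (hwv.trans hvu)
    have h2 := h v hvS hvu ω hω η hRω
    have h3 : 1 ≤ Real.exp (d v) := Real.one_le_exp (hd v)
    have h4 := pr_nonneg (S := S) hs v
    have h5 := pr_nonneg (S := S) hs u
    have h6 := pr_step (S := S) hs hvS hvu
    have h7 : Real.exp (pr S d v) * Real.exp (d v) ≤ Real.exp (pr S d u) := by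
      rw [← Real.exp_add]
      exact Real.exp_le_exp.2 (pr_step hd hvS hvu)
    have e0 := Real.exp_pos (pr S d v)
    calc F ω' ≤ Real.exp (pr S d v) * (F (R v η ω) + pr S st v) := h1
      _ ≤ Real.exp (pr S d v) * (Real.exp (d v) * (F ω + pr S st u)) := by
        refine mul_le_mul_of_nonneg_left ?_ e0.le
        have h8 : st v + pr S st v ≤ Real.exp (d v) * pr S st u := by nlinarith
        nlinarith
      _ = Real.exp (pr S d v) * Real.exp (d v) * (F ω + pr S st u) := by ring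
      _ ≤ _ := mul_le_mul_of_nonneg_right h7 (add_nonneg (hF ω) h5)

/-- A function which does not decrease by more than `exp (- d v)`. -/
theorem reach_dn (hd : ∀ v, 0 ≤ d v) {F : Ω → ℝ} (hF : ∀ ω, 0 ≤ F ω) {u : ℕ} {ω ω' : Ω}
    (r : Reach R N S u ω ω')
    (h : ∀ v ∈ S, v < u → ∀ ω ∈ N v, ∀ η, R v η ω ∈ N v → F ω ≤ Real.exp (d v) * F (R v η ω)) :
    F ω ≤ Real.exp (pr S d u) * F ω' := by
  induction r with
  | @refl u ω =>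
    have h1 : 1 ≤ Real.exp (pr S d u) := Real.one_le_exp (pr_nonneg hd u)
    have h3 := hF ω
    nlinarith
  | @step u v ω ω' η hvu hvS hω hRω _ ih =>
    have h1 := ih fun w hw hwv => h w hw (hwv.trans hvu)
    have h2 := h v hvS hvu ω hω η hRω
    have h7 : Real.exp (d v) * Real.exp (pr S d v) ≤ Real.exp (pr S d u) := by
      rw [← Real.exp_add]
      exact Real.exp_le_exp.2 (by linarith [pr_step hd hvS hvu])
    calc F ω ≤ Real.exp (d v) * F (R v η ω) := h2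
      _ ≤ Real.exp (d v) * (Real.exp (pr S d v) * F ω') := mul_le_mul_of_nonneg_left h1 (Real.exp_pos _).le
      _ = Real.exp (d v) * Real.exp (pr S d v) * F ω' := by ring
      _ ≤ _ := mul_le_mul_of_nonneg_right h7 (hF ω')

/-- An invariant of the changes. -/
theorem reach_inv {α : Type*} {F : Ω → α} {u : ℕ} {ω ω' : Ω} (r : Reach R N S u ω ω')
    (h : ∀ v ∈ S, v < u → ∀ ω ∈ N v, ∀ η, R v η ω ∈ N v → F (R v η ω) = F ω) : F ω' = F ω := by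
  induction r with
  | refl => rfl
  | @step u v ω ω' η hvu hvS hω hRω _ ih =>
    exact (ih fun w hw hwv => h w hw (hwv.trans hvu)).trans (h v hvS hvu ω hω η hRω)

/-- **The exclusion, abstract form.** `Z` total, `E` mass through the mouth, `O` mass which misses. -/
theorem off_abs (hd : ∀ v, 0 ≤ d v) (hs : ∀ v, 0 ≤ st v) {Z E O : Ω → ℝ} (hZ : ∀ ω, 0 < Z ω) (hE : ∀ ω, 0 ≤ E ω)
    (hO : ∀ ω, 0 ≤ O ω) {u : ℕ} {ω ω' ω₁ ω₂ : Ω} (r₁ : Reach R N S u ω ω₁) (r₂ : Reach R N S u ω' ω₂)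
    (zt : ∀ v ∈ S, v < u → ∀ ω ∈ N v, ∀ η, R v η ω ∈ N v → Z ω ≤ Real.exp (d v) * Z (R v η ω))
    (en : ∀ v ∈ S, v < u → ∀ ω ∈ N v, ∀ η, R v η ω ∈ N v → E (R v η ω) ≤ Real.exp (d v) * E ω)
    (off : ∀ v ∈ S, v < u → ∀ ω ∈ N v, ∀ η, R v η ω ∈ N v →
      O (R v η ω) / Z (R v η ω) ≤ Real.exp (d v) * (O ω / Z ω) + st v)
    {g Y π κ : ℝ} (hg : 0 < g) (hY : 0 ≤ Y) (hπ : 0 < π) (big : g * E ω ≤ Z ω') (leak : O ω' ≤ Y * Z ω)
    (hen : π * Z ω₁ ≤ E ω₁)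
    (hκ : Real.exp (pr S d u) * (Y * Real.exp (2 * pr S d u) / (g * π) + pr S st u) ≤ κ) :
    O ω₂ ≤ κ * Z ω₂ := by
  set D := pr S d u with hD
  have h1 : Z ω ≤ Real.exp D * Z ω₁ := reach_dn hd (fun ω => (hZ ω).le) r₁ zt
  have h2 : E ω₁ ≤ Real.exp D * E ω := by
    have := reach_up (st := fun _ => 0) hd (fun _ => le_rfl) hE r₁ fun v hv hvu ω hω η hη => by
      rw [add_zero]; exact en v hv hvu ω hω η hη
    have e : pr S (fun _ => (0 : ℝ)) u = 0 := by unfold pr; simp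
    rw [e, add_zero] at this
    exact this
  have hgp : 0 < g * π := mul_pos hg hπ
  have h3 : Z ω * (g * π) ≤ Real.exp (2 * D) * Z ω' := by
    have e2 : Real.exp (2 * D) = Real.exp D * Real.exp D := by rw [← Real.exp_add]; ring_nf
    have a1 : π * Z ω ≤ Real.exp D * (Real.exp D * E ω) := by
      calc π * Z ω ≤ π * (Real.exp D * Z ω₁) := mul_le_mul_of_nonneg_left h1 hπ.le
        _ = Real.exp D * (π * Z ω₁) := by ring
        _ ≤ Real.exp D * (Real.exp D * E ω) := mul_le_mul_of_nonneg_left (hen.trans h2) (Real.exp_pos _).le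
    calc Z ω * (g * π) = g * (π * Z ω) := by ring
      _ ≤ g * (Real.exp D * (Real.exp D * E ω)) := mul_le_mul_of_nonneg_left a1 hg.le
      _ = Real.exp (2 * D) * (g * E ω) := by rw [e2]; ring
      _ ≤ Real.exp (2 * D) * Z ω' := mul_le_mul_of_nonneg_left big (Real.exp_pos _).le
  have h4 : O ω' / Z ω' ≤ Y * Real.exp (2 * D) / (g * π) := by
    rw [div_le_div_iff₀ (hZ ω') hgp]
    calc O ω' * (g * π) ≤ Y * Z ω * (g * π) := mul_le_mul_of_nonneg_right leak hgp.le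
      _ = Y * (Z ω * (g * π)) := by ring
      _ ≤ Y * (Real.exp (2 * D) * Z ω') := mul_le_mul_of_nonneg_left h3 hY
      _ = _ := by ring
  have h5 : O ω₂ / Z ω₂ ≤ Real.exp D * (O ω' / Z ω' + pr S st u) :=
    reach_up (F := fun ω => O ω / Z ω) hd hs (fun ω => div_nonneg (hO ω) (hZ ω).le) r₂ off
  have h6 : O ω₂ / Z ω₂ ≤ κ := by
    refine h5.trans (le_trans ?_ hκ)
    exact mul_le_mul_of_nonneg_left (by linarith) (Real.exp_pos _).le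
  rwa [div_le_iff₀ (hZ ω₂)] at h6

end chain

/-! ### Contexts -/

section ctx

variable {Γ : Cx} {R : ℕ → Env → Env → Env} {N : ℕ → Set Env} {S : Finset ℕ} {d st : ℕ → ℝ} {m : ℤ → ℝ}

/-- The totals of one group. -/
noncomputable def ZG (Γ : Cx) (m : ℤ → ℝ) (ω : Env) : ℝ := Zt (wt ω) Γ.p m 0 Γ.hi Γ.N

/-- The mass of one group through the sites `A` of the row `k`. -/
noncomputable def PG (Γ : Cx) (m : ℤ → ℝ) (k : ℕ) (A : Finset ℤ) (ω : Env) : ℝ := Ps (wt ω) Γ.p m Γ.N k A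

/-- **The prices of the windows `v < u`** for one group: mouth `Wi` at the row `a`, exit cell `Ce` at the row `b`. -/
structure Stp (Γ : Cx) (R : ℕ → Env → Env → Env) (N : ℕ → Set Env) (S : Finset ℕ) (d st : ℕ → ℝ) (m : ℤ → ℝ) (u a b : ℕ)
    (Wi Ce : Finset ℤ) : Prop where
  zt : ∀ v ∈ S, v < u → ∀ ω ∈ N v, ∀ η, R v η ω ∈ N v → ZG Γ m ω ≤ Real.exp (d v) * ZG Γ m (R v η ω)
  en : ∀ v ∈ S, v < u → ∀ ω ∈ N v, ∀ η, R v η ω ∈ N v → PG Γ m a Wi (R v η ω) ≤ Real.exp (d v) * PG Γ m a Wi ω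
  offa : ∀ v ∈ S, v < u → ∀ ω ∈ N v, ∀ η, R v η ω ∈ N v →
    PG Γ m a (Icc 0 Γ.hi \ Wi) (R v η ω) / ZG Γ m (R v η ω) ≤
      Real.exp (d v) * (PG Γ m a (Icc 0 Γ.hi \ Wi) ω / ZG Γ m ω) + st v
  offc : ∀ v ∈ S, v < u → ∀ ω ∈ N v, ∀ η, R v η ω ∈ N v →
    PG Γ m b (Icc 0 Γ.hi \ Ce) (R v η ω) / ZG Γ m (R v η ω) ≤
      Real.exp (d v) * (PG Γ m b (Icc 0 Γ.hi \ Ce) ω / ZG Γ m ω) + st v

/-- **The lucky slab** for one group: `ω` typical, `ω'` lucky. -/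
structure Lky (Γ : Cx) (m : ℤ → ℝ) (a b : ℕ) (Wi Ce : Finset ℤ) (g Y : ℝ) (ω ω' : Env) : Prop where
  big : g * PG Γ m a Wi ω ≤ ZG Γ m ω'
  leaka : PG Γ m a (Icc 0 Γ.hi \ Wi) ω' ≤ Y * ZG Γ m ω
  leakc : PG Γ m b (Icc 0 Γ.hi \ Ce) ω' ≤ Y * ZG Γ m ω

theorem ZG_l (h : Γ.Ok) (ω : Env) : ZG Γ Cx.l ω = Γ.ZM ω := Zt_l53 h ω

theorem ZG_r (Γ : Cx) (ω : Env) : ZG Γ Γ.r ω = Γ.ZR ω := rfl

theorem PG_nonneg (hm : ∀ y, 0 ≤ m y) (k : ℕ) (A : Finset ℤ) (ω : Env) : 0 ≤ PG Γ m k A ω :=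
  Sp22.Ps_nonneg (wt_pos ω) Γ.p_pos hm _ _ _

/-- **One group.** -/
theorem off53 (hd : ∀ v, 0 ≤ d v) (hs : ∀ v, 0 ≤ st v) (hm : ∀ y, 0 ≤ m y) (hZ : ∀ ω, 0 < ZG Γ m ω) {u a b : ℕ}
    {Wi Ce : Finset ℤ} (h : Stp Γ R N S d st m u a b Wi Ce) {g Y π κ : ℝ} (hg : 0 < g) (hY : 0 ≤ Y) (hπ : 0 < π)
    {ω ω' ω₁ ω₂ : Env} (hl : Lky Γ m a b Wi Ce g Y ω ω') (r₁ : Reach R N S u ω ω₁) (r₂ : Reach R N S u ω' ω₂)
    (hen : π * ZG Γ m ω₁ ≤ PG Γ m a Wi ω₁)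
    (hκ : Real.exp (pr S d u) * (Y * Real.exp (2 * pr S d u) / (g * π) + pr S st u) ≤ κ) :
    PG Γ m a (Icc 0 Γ.hi \ Wi) ω₂ ≤ κ * ZG Γ m ω₂ ∧ PG Γ m b (Icc 0 Γ.hi \ Ce) ω₂ ≤ κ * ZG Γ m ω₂ :=
  ⟨off_abs hd hs hZ (PG_nonneg hm _ _) (PG_nonneg hm _ _) r₁ r₂ h.zt h.en h.offa hg hY hπ hl.big hl.leaka hen hκ,
    off_abs hd hs hZ (PG_nonneg hm _ _) (PG_nonneg hm _ _) r₁ r₂ h.zt h.en h.offc hg hY hπ hl.big hl.leakc hen hκ⟩

/-- **FAR** (`exclF`): the far mass of `ω₂`, far set `Fa` at the row `e`, mouth at the row `a = e + j`. -/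
theorem far53C (hd : ∀ v, 0 ≤ d v) (hs : ∀ v, 0 ≤ st v) (hm : Ms m 0 Γ.hi Γ.N) (hZ : ∀ ω, 0 < ZG Γ m ω) {u a b e j : ℕ}
    (ha : a = e + j) (haN : a ≤ Γ.N) {Wi Ce Fa : Finset ℤ} (hFa : Fa ⊆ Icc 0 Γ.hi) (hWi : Wi ⊆ Icc 0 Γ.hi)
    (h : Stp Γ R N S d st m u a b Wi Ce) {g Y π κ s₀ : ℝ} (hg : 0 < g) (hY : 0 ≤ Y) (hπ : 0 < π) (hs₀ : 0 ≤ s₀)
    {ω ω' ω₁ ω₂ : Env} (hl : Lky Γ m a b Wi Ce g Y ω ω') (r₁ : Reach R N S u ω ω₁) (r₂ : Reach R N S u ω' ω₂)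
    (hen : π * ZG Γ m ω₁ ≤ PG Γ m a Wi ω₁)
    (hκ : Real.exp (pr S d u) * (Y * Real.exp (2 * pr S d u) / (g * π) + pr S st u) ≤ κ)
    (hst : ∀ z ∈ Wi, ∑ y ∈ Fa, fw (wt ω₂) Γ.p m e y * ker (wt ω₂) Γ.p e j y z ≤ s₀ * fw (wt ω₂) Γ.p m a z) :
    PG Γ m e Fa ω₂ ≤ (s₀ + κ) * ZG Γ m ω₂ := by
  have h1 := (off53 hd hs hm.nn hZ h hg hY hπ hl r₁ r₂ hen hκ).1
  subst ha
  have h2 := far53 (wt_pos ω₂) Γ.p_pos (One.mk hm.nn hm.lo0 hm.hi0) haN hFa hWi hs₀ hst (ta := κ)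
    (by rw [mA_zt hm (Nat.zero_le _)]; exact h1)
  rw [mA_zt hm (Nat.zero_le _)] at h2
  exact h2

/-- **LATER CONTACTS** (`exclE`): rows `k ≥ a + n`. -/
theorem late53C (hΓ : Γ.Ok) (hd : ∀ v, 0 ≤ d v) (hs : ∀ v, 0 ≤ st v) {u a n : ℕ} (haN : a + n ≤ Γ.N) {Wi Ce : Finset ℤ}
    (hWi : Wi ⊆ Icc 0 Γ.hi) (hCe : Ce ⊆ Icc 0 Γ.hi) (hL : Stp Γ R N S d st Cx.l u a (a + n) Wi Ce)
    (hR : Stp Γ R N S d st Γ.r u a (a + n) Wi Ce) {g Y π κ δ : ℝ} (hg : 0 < g) (hY : 0 ≤ Y) (hπ : 0 < π)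
    {ω ω' ω₁ ω₂ : Env} (hl : Lky Γ Cx.l a (a + n) Wi Ce g Y ω ω') (hr : Lky Γ Γ.r a (a + n) Wi Ce g Y ω ω')
    (r₁ : Reach R N S u ω ω₁) (r₂ : Reach R N S u ω' ω₂)
    (heL : π * ZG Γ Cx.l ω₁ ≤ PG Γ Cx.l a Wi ω₁) (heR : π * ZG Γ Γ.r ω₁ ≤ PG Γ Γ.r a Wi ω₁)
    (hκ : Real.exp (pr S d u) * (Y * Real.exp (2 * pr S d u) / (g * π) + pr S st u) ≤ κ)
    (hinv : ∀ v ∈ S, v < u → ∀ ω ∈ N v, ∀ η, R v η ω ∈ N v → ∀ y z, ker (wt (R v η ω)) Γ.p a n y z = ker (wt ω) Γ.p a n y z)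
    (hδ : 0 ≤ δ)
    (hcr : ∀ z ∈ Wi, ∀ z' ∈ Wi, z < z' → ∀ x ∈ Ce, ∀ y ∈ Ce, x < y →
      ker (wt ω') Γ.p a n z x * ker (wt ω') Γ.p a n z' y - ker (wt ω') Γ.p a n z y * ker (wt ω') Γ.p a n z' x ≤
        δ * (ker (wt ω') Γ.p a n z x * ker (wt ω') Γ.p a n z' y))
    {k : ℕ} (hk : a + n ≤ k) : ∑ c ∈ Γ.rows k Γ.N, Γ.w c ω₂ ≤ δ + 4 * κ := by
  have hZl : ∀ ω, 0 < ZG Γ Cx.l ω := fun ω => by rw [ZG_l hΓ]; exact Γ.ZM_pos ω
  have hZr : ∀ ω, 0 < ZG Γ Γ.r ω := fun ω => by rw [ZG_r]; exact Cx.ZR_pos hΓ ω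
  have ml : Ms Cx.l 0 Γ.hi Γ.N := Ms.left (Cx.box1 hΓ)
  have mr : Ms Γ.r 0 Γ.hi Γ.N := Ms.right (Cx.box1 hΓ)
  have o1 := off53 hd hs ml.nn hZl hL hg hY hπ hl r₁ r₂ heL hκ
  have o2 := off53 hd hs mr.nn hZr hR hg hY hπ hr r₁ r₂ heR hκ
  have eK : (fun y z => ker (wt ω₂) Γ.p a n y z) = fun y z => ker (wt ω') Γ.p a n y z :=
    reach_inv (F := fun ω => fun y z => ker (wt ω) Γ.p a n y z) r₂ fun v hv hvu ω hω η hη => by
      funext y z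
      exact hinv v hv hvu ω hω η hη y z
  have eK' : ∀ y z, ker (wt ω₂) Γ.p a n y z = ker (wt ω') Γ.p a n y z := fun y z => congrFun (congrFun eK y) z
  have hκ0 : 0 ≤ κ := by
    have := PG_nonneg (Γ := Γ) ml.nn a (Icc 0 Γ.hi \ Wi) ω₂
    exact nonneg_of_mul_nonneg_left (this.trans o1.1) (hZl ω₂)
  rcases le_total k Γ.N with hkN | hkN
  · have h1 := unmet53 (wt_pos ω₂) Γ.p_pos (Cx.box1 hΓ) haN hWi hCe (oL := κ) (oR := κ) (cL := κ) (cR := κ) hδ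
      (fun z hz z' hz' hzz x hx y hy hxy => by
        have e1 := eK' z x
        have e2 := eK' z' y
        have e3 := eK' z y
        have e4 := eK' z' x
        show ker (wt ω₂) Γ.p a n z x * ker (wt ω₂) Γ.p a n z' y - ker (wt ω₂) Γ.p a n z y * ker (wt ω₂) Γ.p a n z' x ≤
          δ * (ker (wt ω₂) Γ.p a n z x * ker (wt ω₂) Γ.p a n z' y)
        rw [e1, e2, e3, e4]
        exact hcr z hz z' hz' hzz x hx y hy hxy)
      (by rw [mA_zt ml (Nat.zero_le _)]; exact o1.1) (by rw [mA_zt mr (Nat.zero_le _)]; exact o2.1)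
      (by rw [mA_zt ml (Nat.zero_le _)]; exact o1.2) (by rw [mA_zt mr (Nat.zero_le _)]; exact o2.2)
    rw [mA_zt ml (Nat.zero_le _), mA_zt mr (Nat.zero_le _), Zt_l53 hΓ, Zt_r53] at h1
    have h2 : nm (wt ω₂) Γ.p Cx.l Γ.r 0 Γ.hi Γ.N k ≤ (δ + κ + κ + κ + κ) * (Γ.ZM ω₂ * Γ.ZR ω₂) :=
      (nm_anti (wt_pos ω₂) Γ.p_pos (Cx.box1 hΓ) hk hkN).trans h1
    have hZ : 0 < Γ.ZM ω₂ * Γ.ZR ω₂ := mul_pos (Γ.ZM_pos ω₂) (Cx.ZR_pos hΓ ω₂)
    have h3 : Γ.nmt k ω₂ ≤ δ + κ + κ + κ + κ := by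
      unfold Cx.nmt
      rw [div_le_iff₀ hZ]
      exact h2
    rw [Cx.sum_w hΓ ω₂ hkN le_rfl]
    have := Cx.nmt_nonneg hΓ Γ.N ω₂
    linarith
  · have e : Γ.rows k Γ.N = ∅ := by
      unfold Cx.rows
      rw [Ico_eq_empty_of_le hkN, empty_product]
    rw [e, sum_empty]
    linarith

end ctx

end Pool.Agent.W_7d29a1_C1.E53
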