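import Pool.Agent.W_7d29a1_C1.Geo37
import Pool.Agent.W_7d29a1_C1.Excl53C

/-!
Both halves (MP_7d29a1_pr), attractor route [C1], SEP (move the contact): THE DEFINITIONS over the geometry Geo37. (helper53)

`XX Γ`: the contacts of the context `Γ`; `w`: the law of the first meeting; `PX`: the probability that one group is in a set
of sites of a row; `fa t k τ x`: the far mass of the contact `x` (sum over the coarse rows and over the two groups).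
-/

set_option autoImplicit false

namespace Pool.Agent.W_7d29a1_C1.SD53

open Finset MeasureTheory
open Pool.Agent.W_7d29a1_F Pool.Agent.W_7d29a1_h4g Pool.Agent.W_7d29a1_H Pool.Agent.W_7d29a1_HS
open Pool.Agent.W_7d29a1_C1.K91 (Grp Box wt wt_pos measurable_wt)
open Pool.Agent.W_7d29a1_C1.K91P
open Pool.Agent.W_7d29a1_C1.Sp22 (Ms Ps Zt)
open Pool.Agent.W_7d29a1_C1.H60
open Pool.Agent.W_7d29a1_C1.G37 (Gm)
open Pool.Agent.W_7d29a1_C1.H49 (Par lm ex)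
open Pool.Agent.W_7d29a1_C1.E53
open scoped ENNReal

noncomputable section

/-- The contacts. -/
abbrev XX (Γ : Cx) : Type := {c : ℕ × ℤ // c ∈ Γ.rows 0 Γ.N}

variable (Γ : Cx) (G : Gm)

/-- **The weight**: the law of the first meeting. -/
def w (x : XX Γ) (ω : Env) : ℝ≥0∞ := ENNReal.ofReal (Γ.w x.1 ω)

/-- The row of a contact. -/
def row (x : XX Γ) : ℤ := (x.1.1 : ℤ)

open Classical in
/-- The sites of a set `A` in the box. -/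
def bx (A : Set ℤ) : Finset ℤ := (Icc 0 Γ.hi).filter fun y => y ∈ A

/-- **The probability** that the group `m` is in `A` at the row `k`. -/
def PX (m : ℤ → ℝ) (k : ℕ) (A : Set ℤ) (ω : Env) : ℝ := PG Γ m k (bx Γ A) ω / ZG Γ m ω

/-- **The far mass.** -/
def fa (t k τ : ℕ) (x : XX Γ) (ω : Env) : ℝ≥0∞ :=
  ∑ r ∈ (G.fr t τ x.1).filter (fun r => r ≤ (Γ.N : ℤ)),
    (ENNReal.ofReal (PX Γ Cx.l r.toNat (G.fs k τ x.1 r) ω) + ENNReal.ofReal (PX Γ Γ.r r.toNat (G.fs k τ x.1 r) ω))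

variable {Γ G}

theorem ms_l (h : Γ.Ok) : Ms Cx.l 0 Γ.hi Γ.N := Ms.left (Cx.box1 h)

theorem ms_r (h : Γ.Ok) : Ms Γ.r 0 Γ.hi Γ.N := Ms.right (Cx.box1 h)

theorem ZG_l_pos (h : Γ.Ok) (ω : Env) : 0 < ZG Γ Cx.l ω := by rw [ZG_l h]; exact Γ.ZM_pos ω

theorem ZG_r_pos (h : Γ.Ok) (ω : Env) : 0 < ZG Γ Γ.r ω := by rw [ZG_r]; exact Cx.ZR_pos h ω

/-! ### Measurability -/

theorem meas_w (x : XX Γ) : Measurable (w Γ x) := (Cx.meas_w Γ x.1).ennreal_ofReal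

theorem meas_PG (m : ℤ → ℝ) (k : ℕ) (A : Finset ℤ) : Measurable (PG Γ m k A) :=
  Finset.measurable_fun_sum _ fun y _ =>
    (pm_fw (W := wt) (p := Γ.p) (l := fun _ => m) measurable_wt (fun _ => measurable_const) k y).mul
      (pm_bw (W := wt) (p := Γ.p) measurable_wt _ _ _)

theorem meas_ZG (m : ℤ → ℝ) : Measurable (ZG Γ m) := by
  unfold ZG Sp22.Zt
  refine Finset.measurable_fun_sum _ fun y _ => ?_
  exact measurable_const.mul (pm_bw (W := wt) (p := Γ.p) measurable_wt _ _ _)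

theorem meas_PX (m : ℤ → ℝ) (k : ℕ) (A : Set ℤ) : Measurable (PX Γ m k A) := (meas_PG m k _).div (meas_ZG m)

theorem meas_fa (t k τ : ℕ) (x : XX Γ) : Measurable (fa Γ G t k τ x) :=
  Finset.measurable_fun_sum _ fun _ _ => ((meas_PX _ _ _).ennreal_ofReal).add ((meas_PX _ _ _).ennreal_ofReal)

/-! ### The law of the first meeting -/

theorem sum_w_coe (F : ℕ × ℤ → ℝ≥0∞) : ∑ x : XX Γ, F x.1 = ∑ c ∈ Γ.rows 0 Γ.N, F c :=
  Finset.sum_coe_sort (Γ.rows 0 Γ.N) F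

theorem sum_w_le (h : Γ.Ok) (ω : Env) : ∑ x : XX Γ, w Γ x ω ≤ 1 := by
  have e : ∑ x : XX Γ, w Γ x ω = ENNReal.ofReal (∑ c ∈ Γ.rows 0 Γ.N, Γ.w c ω) := by
    rw [ENNReal.ofReal_sum_of_nonneg fun c _ => Cx.w_nonneg h c ω]
    exact sum_w_coe fun c => ENNReal.ofReal (Γ.w c ω)
  rw [e]
  exact ENNReal.ofReal_le_one.2 (Cx.sum_w_le h ω 0 Γ.N le_rfl)

/-- The mass of the later contacts: `lm` of SkelM49. -/
theorem lm_eq (h : Γ.Ok) (D : ℕ) (x : XX Γ) (ω : Env) : lm (row Γ) (w Γ) (D : ℤ) x ω =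
    ENNReal.ofReal (∑ c ∈ Γ.rows (x.1.1 + D + 1) Γ.N, Γ.w c ω) := by
  classical
  rw [ENNReal.ofReal_sum_of_nonneg fun c _ => Cx.w_nonneg h c ω]
  unfold lm row w
  rw [sum_w_coe fun c => if (x.1.1 : ℤ) + D < (c.1 : ℤ) then ENNReal.ofReal (Γ.w c ω) else 0, ← sum_filter]
  refine sum_congr ?_ fun _ _ => rfl
  ext c
  rw [mem_filter, Cx.mem_rows, Cx.mem_rows]
  constructor
  · rintro ⟨⟨⟨_, h2⟩, h3⟩, h4⟩
    exact ⟨⟨by omega, h2⟩, h3⟩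
  · rintro ⟨⟨h1, h2⟩, h3⟩
    exact ⟨⟨⟨Nat.zero_le _, h2⟩, h3⟩, by omega⟩

/-- The mass of the earlier contacts: `em` of SkelM49. -/
theorem em_eq (h : Γ.Ok) (D : ℤ) (x : XX Γ) (ω : Env) : H49.em (row Γ) (w Γ) D x ω =
    ENNReal.ofReal (∑ c ∈ Γ.rows 0 (min ((x.1.1 : ℤ) - D).toNat Γ.N), Γ.w c ω) := by
  classical
  rw [ENNReal.ofReal_sum_of_nonneg fun c _ => Cx.w_nonneg h c ω]
  unfold H49.em row w
  rw [sum_w_coe fun c => if (c.1 : ℤ) < (x.1.1 : ℤ) - D then ENNReal.ofReal (Γ.w c ω) else 0, ← sum_filter]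
  refine sum_congr ?_ fun _ _ => rfl
  ext c
  rw [mem_filter, Cx.mem_rows, Cx.mem_rows]
  constructor
  · rintro ⟨⟨⟨_, h2⟩, h3⟩, h4⟩
    refine ⟨⟨Nat.zero_le _, lt_min ?_ h2⟩, h3⟩
    omega
  · rintro ⟨⟨_, h2⟩, h3⟩
    have h4 := lt_min_iff.1 h2
    refine ⟨⟨⟨Nat.zero_le _, h4.2⟩, h3⟩, ?_⟩
    omega

/-- The same by the share of the pairs which have not met. -/
theorem em_nmt (h : Γ.Ok) (D : ℤ) (x : XX Γ) (ω : Env) : H49.em (row Γ) (w Γ) D x ω =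
    ENNReal.ofReal (1 - Γ.nmt (min ((x.1.1 : ℤ) - D).toNat Γ.N) ω) := by
  rw [em_eq h, Cx.sum_w h ω (Nat.zero_le _) (min_le_right _ _), Cx.nmt_zero h]

/-- The later contacts, bound. -/
theorem lm_le (h : Γ.Ok) {D : ℕ} {x : XX Γ} {ω : Env} {k : ℕ} {κ : ℝ} (hk : k ≤ x.1.1 + D + 1)
    (h1 : ∑ c ∈ Γ.rows k Γ.N, Γ.w c ω ≤ κ) : lm (row Γ) (w Γ) (D : ℤ) x ω ≤ ENNReal.ofReal κ := by
  rw [lm_eq h]
  refine ENNReal.ofReal_le_ofReal (le_trans ?_ h1)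
  refine sum_le_sum_of_subset_of_nonneg ?_ fun c _ _ => Cx.w_nonneg h c ω
  intro c hc
  rw [Cx.mem_rows] at hc ⊢
  exact ⟨⟨by omega, hc.1.2⟩, hc.2⟩

/-! ### Single path probabilities -/

theorem bx_sub (A : Set ℤ) : bx Γ A ⊆ Icc 0 Γ.hi := by
  classical
  exact filter_subset _ _

theorem bx_mono {A B : Set ℤ} (h : A ⊆ B) : bx Γ A ⊆ bx Γ B := by
  classical
  intro y hy
  unfold bx at hy ⊢
  rw [mem_filter] at hy ⊢
  exact ⟨hy.1, h hy.2⟩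

theorem ZG_nonneg {m : ℤ → ℝ} (hm : ∀ y, 0 ≤ m y) (ω : Env) : 0 ≤ ZG Γ m ω := by
  unfold ZG Sp22.Zt
  exact sum_nonneg fun y _ => mul_nonneg (hm y) (bw_pos (wt_pos ω) Γ.p_pos _ _ _).le

theorem PX_nonneg {m : ℤ → ℝ} (hm : ∀ y, 0 ≤ m y) (k : ℕ) (A : Set ℤ) (ω : Env) : 0 ≤ PX Γ m k A ω :=
  div_nonneg (PG_nonneg hm _ _ _) (ZG_nonneg hm ω)

theorem PX_mono {m : ℤ → ℝ} (hm : ∀ y, 0 ≤ m y) (k : ℕ) {A B : Set ℤ} (h : A ⊆ B) (ω : Env) :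
    PX Γ m k A ω ≤ PX Γ m k B ω :=
  div_le_div_of_nonneg_right (sum_le_sum_of_subset_of_nonneg (bx_mono h) fun y _ _ =>
    mul_nonneg (fw_nonneg (wt_pos ω) Γ.p_pos hm k y) (bw_pos (wt_pos ω) Γ.p_pos _ _ _).le) (ZG_nonneg hm ω)

theorem PX_le_one {m : ℤ → ℝ} (hm : Ms m 0 Γ.hi Γ.N) {k : ℕ} (hk : k ≤ Γ.N) (A : Set ℤ) (ω : Env) : PX Γ m k A ω ≤ 1 :=
  div_le_one_of_le₀ (Sp22.Ps_le_Zt (wt_pos ω) Γ.p_pos hm hk _) (ZG_nonneg hm.nn ω)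

/-- A bound of the mass is a bound of the probability. -/
theorem PX_le {m : ℤ → ℝ} {ω : Env} (hZ : 0 < ZG Γ m ω) {k : ℕ} {A : Set ℤ} {κ : ℝ}
    (h : PG Γ m k (bx Γ A) ω ≤ κ * ZG Γ m ω) : PX Γ m k A ω ≤ κ := (div_le_iff₀ hZ).2 h

theorem fa_mono (h : Γ.Ok) (t k : ℕ) {τ τ' : ℕ} (hτ : τ ≤ τ') (x : XX Γ) (ω : Env) : fa Γ G t k τ x ω ≤ fa Γ G t k τ' x ω := by
  unfold fa
  refine (sum_le_sum fun r _ => add_le_add (ENNReal.ofReal_le_ofReal (PX_mono Cx.l_nonneg _ (G.fs_mono hτ x.1 r) ω))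
    (ENNReal.ofReal_le_ofReal (PX_mono (Cx.r_nonneg h) _ (G.fs_mono hτ x.1 r) ω))).trans ?_
  exact sum_le_sum_of_subset (filter_subset_filter _ (G.fr_mono hτ x.1))

/-- `mvfa`. -/
theorem mvfa (h : Γ.Ok) {t s i t' k : ℕ} (ht : t ≤ i) (hi : i < G.M) (hs : s < i) {x ρ ρ' : XX Γ} (hr : G.rel i x.1 ρ.1)
    (hn : G.Nb s (G.loc s ρ.1) ρ'.1) (ω : Env) : fa Γ G t' k (t - 1) x ω ≤ fa Γ G t' k (i + G.m2) ρ' ω := by
  unfold fa
  refine (sum_le_sum fun r _ => add_le_add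
    (ENNReal.ofReal_le_ofReal (PX_mono Cx.l_nonneg _ (G.fs_sub (k := k) ht hi hs hr hn r) ω))
    (ENNReal.ofReal_le_ofReal (PX_mono (Cx.r_nonneg h) _ (G.fs_sub (k := k) ht hi hs hr hn r) ω))).trans ?_
  exact sum_le_sum_of_subset (filter_subset_filter _ (G.fr_sub ht hi hs hr hn))

/-- **The far mass, bound**: every coarse row, both groups. -/
theorem fa_le (h : Γ.Ok) {t k τ : ℕ} (hτ : τ < t) {x : XX Γ} {ω : Env} {κ : ℝ} (hκ : 0 ≤ κ)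
    (h1 : ∀ r ∈ G.fr t τ x.1, r ≤ (Γ.N : ℤ) → PG Γ Cx.l r.toNat (bx Γ (G.fs k τ x.1 r)) ω ≤ κ * ZG Γ Cx.l ω ∧
      PG Γ Γ.r r.toNat (bx Γ (G.fs k τ x.1 r)) ω ≤ κ * ZG Γ Γ.r ω) : fa Γ G t k τ x ω ≤ ENNReal.ofReal (8 * κ) := by
  unfold fa
  have h2 : ∀ r ∈ (G.fr t τ x.1).filter (fun r => r ≤ (Γ.N : ℤ)),
      ENNReal.ofReal (PX Γ Cx.l r.toNat (G.fs k τ x.1 r) ω) + ENNReal.ofReal (PX Γ Γ.r r.toNat (G.fs k τ x.1 r) ω) ≤
        ENNReal.ofReal (2 * κ) := by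
    intro r hr
    obtain ⟨a1, a2⟩ := mem_filter.1 hr
    obtain ⟨b1, b2⟩ := h1 r a1 a2
    rw [two_mul, ENNReal.ofReal_add hκ hκ]
    exact add_le_add (ENNReal.ofReal_le_ofReal (PX_le (ZG_l_pos h ω) b1)) (ENNReal.ofReal_le_ofReal (PX_le (ZG_r_pos h ω) b2))
  refine (sum_le_card_nsmul _ _ _ h2).trans ?_
  have h3 : ((G.fr t τ x.1).filter (fun r => r ≤ (Γ.N : ℤ))).card ≤ 4 :=
    (card_le_card (filter_subset _ _)).trans (G.card_fr hτ x.1)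
  rw [nsmul_eq_mul]
  have h4 : (((G.fr t τ x.1).filter (fun r => r ≤ (Γ.N : ℤ))).card : ℝ≥0∞) ≤ ENNReal.ofReal 4 := by
    have e : ENNReal.ofReal 4 = ((4 : ℕ) : ℝ≥0∞) := by simp
    rw [e]
    exact_mod_cast h3
  calc _ ≤ ENNReal.ofReal 4 * ENNReal.ofReal (2 * κ) := mul_le_mul' h4 le_rfl
    _ = ENNReal.ofReal (8 * κ) := by
      rw [← ENNReal.ofReal_mul (by norm_num)]
      congr 1
      ring

end

end Pool.Agent.W_7d29a1_C1.SD53
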