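import Pool.Agent.W_7d29a1_C1.Stay78
import Pool.Agent.W_7d29a1_C1.GeoE37
import Pool.Agent.W_7d29a1_C1.SepDef53
import Pool.Agent.W_7d29a1_C1.Osc22

/-!
MP_7d29a1_pr, attractor route [C1], SEP, STAY (helper78): THE STAY EVENT OVER THE GEOMETRY AND `stepT`, `stepS`.

`Rg v κ a` : all sites of the rows `lo v κ - T (v - 2) ≤ k ≤ ra v κ` with `|lat - ctr| ≤ a w_v`. `St a b β v κ` : from EVERY site of
this box the route leaves the strip `|lat - ctr| ≤ b w_v` in the rows `≤ ra v κ` with probability at most `exp (-β)`.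

* `meas_St`, `St_mono` ;
* `RtO Γ B ω ω' k₀ d` : the backward masses of the sites OFF `B` of the rows `≥ k₀` move by `exp (±d)` (a lucky content has no lower
  bound at the sites of its window); `RtM` : at all sites; `RtM.off`, `RtO.of`;
* **`St_RO`** : the window `(u, κ')` inside the box is changed : `St β → St (β - (2 d + log (1 + T u)))` ; **`St_up`** : a window above
  the row of the stop: `St β → St (β - 2 d)`;
* **the slack form** (`MovS9`): `stS_mono`, **`stS_T`** (window `(u, loc u y)`), **`stS_S`** (window `(s, κ)`, neighbour), **`stS_up`**;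
* `StA` (threshold `be v - Σ_(u in A, u < v) D u`), `StT` (all scales), `StA_mono`, `StA_sub`, **`StA_stepT`**, **`StA_stepS`**;
* `St_bF` : one row, in the letters of `Lat74`.
-/

set_option autoImplicit false

namespace Pool.Agent.W_7d29a1_C1.Sy78

open Finset MeasureTheory
open Pool.Agent.W_7d29a1_F Pool.Agent.W_7d29a1_h4g Pool.Agent.W_7d29a1_H Pool.Agent.W_7d29a1_HS
open Pool.Agent.W_7d29a1_C1.K91 (wt wt_pos measurable_wt)
open Pool.Agent.W_7d29a1_C1.K91P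
open Pool.Agent.W_7d29a1_C1.H60
open Pool.Agent.W_7d29a1_C1.G37 (Gm)
open Pool.Agent.W_7d29a1_C1.Lt74 (bF)

noncomputable section

variable (Γ : Cx) (G : Gm)

/-- The strip of a cell. -/
def sp (v : ℕ) (κ : ℤ × ℤ) (b : ℝ) : Set (ℕ × ℤ) := {c | |G.lat c - G.ctr v κ| ≤ b * G.w v}

/-- The box of the starts (`T (v - 2)` rows more below: the contacts of a smaller cell with one contact in the cell). -/
def Rg (v : ℕ) (κ : ℤ × ℤ) (a : ℝ) : Set (ℕ × ℤ) :=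
  {c | G.lo v κ - (G.T (v - 2) : ℤ) ≤ (c.1 : ℤ) ∧ c.1 ≤ G.ra v κ ∧ |G.lat c - G.ctr v κ| ≤ a * G.w v}

/-- The first row of the box. -/
def rl (v : ℕ) (κ : ℤ × ℤ) : ℕ := (G.lo v κ - (G.T (v - 2) : ℤ)).toNat

/-- The row of the stop. -/
def sr (v : ℕ) (κ : ℤ × ℤ) : ℕ := min (G.ra v κ + 1) Γ.N

/-- **STAY.** -/
def St (a b β : ℝ) (v : ℕ) (κ : ℤ × ℤ) : Set Env :=
  {ω | ∀ (k : ℕ) (y : ℤ), (k, y) ∈ Rg G v κ a →
    lv (wt ω) Γ.p Γ.N (sp G v κ b) (sr Γ G v κ) k y ≤ Real.exp (-β) * bw (wt ω) Γ.p k (Γ.N - k) y}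

theorem sr_le (v : ℕ) (κ : ℤ × ℤ) : sr Γ G v κ ≤ Γ.N := min_le_right _ _

/-! ### Measurability, monotonicity -/

theorem meas_lv (S : Set (ℕ × ℤ)) (e : ℕ) (k : ℕ) (y : ℤ) : Measurable fun ω : Env => lv (wt ω) Γ.p Γ.N S e k y := by
  classical
  have key : ∀ (j k : ℕ) (y : ℤ), Measurable fun ω : Env => lf (wt ω) Γ.p Γ.N S k j y := by
    intro j
    induction j with
    | zero =>
      intro k y
      have e1 : (fun ω : Env => lf (wt ω) Γ.p Γ.N S k 0 y) = fun _ => (0 : ℝ) := by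
        funext ω
        cases k <;> rfl
      rw [e1]
      exact measurable_const
    | succ j ih =>
      intro k y
      by_cases hS : (k, y) ∈ S
      · have e1 : (fun ω : Env => lf (wt ω) Γ.p Γ.N S k (j + 1) y) = fun ω =>
            wt ω k y * (lf (wt ω) Γ.p Γ.N S (k + 1) j y + Γ.p k * lf (wt ω) Γ.p Γ.N S (k + 1) j (y + 1)) := by
          funext ω
          exact if_pos hS
        rw [e1]
        exact (measurable_wt k y).mul ((ih (k + 1) y).add (measurable_const.mul (ih (k + 1) (y + 1))))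
      · have e1 : (fun ω : Env => lf (wt ω) Γ.p Γ.N S k (j + 1) y) = fun ω => bw (wt ω) Γ.p k (Γ.N - k) y := by
          funext ω
          exact if_neg hS
        rw [e1]
        exact pm_bw measurable_wt _ _ _
  exact key (e - k) k y

theorem meas_St (a b β : ℝ) (v : ℕ) (κ : ℤ × ℤ) : MeasurableSet (St Γ G a b β v κ) := by
  have e : St Γ G a b β v κ = ⋂ k : ℕ, ⋂ y : ℤ, {ω | (k, y) ∈ Rg G v κ a →
      lv (wt ω) Γ.p Γ.N (sp G v κ b) (sr Γ G v κ) k y ≤ Real.exp (-β) * bw (wt ω) Γ.p k (Γ.N - k) y} := by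
    ext ω
    simp only [St, Set.mem_setOf_eq, Set.mem_iInter]
  rw [e]
  refine MeasurableSet.iInter fun k => MeasurableSet.iInter fun y => ?_
  by_cases h : (k, y) ∈ Rg G v κ a
  · simp only [h, true_imp_iff]
    exact measurableSet_le (meas_lv Γ _ _ k y) (measurable_const.mul (pm_bw measurable_wt _ _ _))
  · simp [h]

variable {Γ G}

theorem St_mono {a a' b β β' : ℝ} {v : ℕ} {κ : ℤ × ℤ} (ha : a' ≤ a) (hβ : β' ≤ β) : St Γ G a b β v κ ⊆ St Γ G a' b β' v κ := by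
  intro ω h k y hk
  obtain ⟨h1, h2, h3⟩ := hk
  have hw := G.w_pos v
  refine (h k y ⟨h1, h2, h3.trans (mul_le_mul_of_nonneg_right ha hw.le)⟩).trans ?_
  exact mul_le_mul_of_nonneg_right (Real.exp_le_exp.2 (by linarith)) (bw_pos (wt_pos ω) Γ.p_pos _ _ _).le

/-! ### Geometry -/

theorem lat_win {u : ℕ} {κ : ℤ × ℤ} {k : ℕ} {y : ℤ} (h : (((k : ℤ), y) : Pt) ∈ G.win u κ) :
    |G.lat (k, y) - G.ctr u κ| ≤ G.kw * G.w u + 1 := by
  obtain ⟨-, -, h3⟩ := h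
  have e1 : ((G.base u κ).1 : ℝ) = (G.rcc u κ : ℝ) + (G.T (u - 1) : ℝ) := by
    show ((G.rcc u κ + G.T (u - 1) : ℤ) : ℝ) = _
    push_cast
    ring
  have f1 := Int.floor_le (G.ctr u κ + G.v * ((G.rcc u κ : ℝ) + (G.T (u - 1) : ℝ)))
  have f2 := Int.lt_floor_add_one (G.ctr u κ + G.v * ((G.rcc u κ : ℝ) + (G.T (u - 1) : ℝ)))
  have e2 : ((G.base u κ).2 : ℝ) = (⌊G.ctr u κ + G.v * ((G.rcc u κ : ℝ) + (G.T (u - 1) : ℝ))⌋ : ℝ) := rfl
  rw [e1, e2] at h3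
  simp only at h3
  unfold Gm.lat
  simp only
  push_cast at h3 ⊢
  obtain ⟨h4, h5⟩ := abs_le.1 h3
  rw [abs_le]
  constructor <;> linarith

theorem lat_succ (hv0 : 0 ≤ G.v) (hv1 : G.v ≤ 1) (k : ℕ) (y : ℤ) {z : ℝ} {c : ℝ} (h : |G.lat (k, y) - z| ≤ c) :
    |G.lat (k + 1, y) - z| ≤ c + 1 ∧ |G.lat (k + 1, y + 1) - z| ≤ c + 1 := by
  unfold Gm.lat at h ⊢
  simp only at h ⊢
  push_cast
  obtain ⟨h4, h5⟩ := abs_le.1 h
  constructor
  · rw [abs_le]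
    constructor <;> linarith
  · rw [abs_le]
    constructor <;> linarith

/-- The contact is in its box. -/
theorem mem_Rg {a : ℝ} (ha : 1 / 2 ≤ a) (v : ℕ) (c : ℕ × ℤ) : c ∈ Rg G v (G.loc v c) a := by
  refine ⟨by have := G.lo_le v c; omega, by have := G.row_lt_ra v c; omega, ?_⟩
  have h1 := G.lat_ctr v c
  have h2 := G.g_le v
  have hw := G.w_pos v
  refine h1.trans ?_
  nlinarith

/-- The first site of the future of the contact. -/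
theorem mem_Rg_succ (hv0 : 0 ≤ G.v) (hv1 : G.v ≤ 1) {a : ℝ} {v : ℕ} (ha : G.w v / 2 + 1 ≤ a * G.w v) (c : ℕ × ℤ) :
    (c.1 + 1, c.2) ∈ Rg G v (G.loc v c) a := by
  have h1 := G.lat_ctr v c
  have h2 := G.g_le v
  have h3 := (lat_succ hv0 hv1 c.1 c.2 (z := G.ctr v (G.loc v c)) h1).1
  refine ⟨?_, ?_, ?_⟩
  · have := G.lo_le v c
    push_cast
    omega
  · have := G.row_lt_ra v c
    show c.1 + 1 ≤ _
    omega
  · refine h3.trans ?_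
    linarith

/-! ### Transport -/

/-- The backward masses of the rows `k₀ ≤ k ≤ N` move by at most `exp d`. -/
structure RtM (Γ : Cx) (ω ω' : Env) (k₀ : ℕ) (d : ℝ) : Prop where
  up : ∀ (k : ℕ) (y : ℤ), k₀ ≤ k → k ≤ Γ.N → bw (wt ω') Γ.p k (Γ.N - k) y ≤ Real.exp d * bw (wt ω) Γ.p k (Γ.N - k) y
  dn : ∀ (k : ℕ) (y : ℤ), k₀ ≤ k → k ≤ Γ.N → bw (wt ω) Γ.p k (Γ.N - k) y ≤ Real.exp d * bw (wt ω') Γ.p k (Γ.N - k) y

theorem RtM.symm {ω ω' : Env} {k₀ : ℕ} {d : ℝ} (h : RtM Γ ω ω' k₀ d) : RtM Γ ω' ω k₀ d := ⟨h.dn, h.up⟩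

theorem RtM.mono {ω ω' : Env} {k₀ k₁ : ℕ} {d d' : ℝ} (h : RtM Γ ω ω' k₀ d) (hk : k₀ ≤ k₁) (hd : d ≤ d') : RtM Γ ω ω' k₁ d' :=
  ⟨fun k y h1 h2 => (h.up k y (hk.trans h1) h2).trans
      (mul_le_mul_of_nonneg_right (Real.exp_le_exp.2 hd) (bw_pos (wt_pos ω) Γ.p_pos _ _ _).le),
    fun k y h1 h2 => (h.dn k y (hk.trans h1) h2).trans
      (mul_le_mul_of_nonneg_right (Real.exp_le_exp.2 hd) (bw_pos (wt_pos ω') Γ.p_pos _ _ _).le)⟩

theorem RtM.trans {ω ω' ω'' : Env} {k₀ : ℕ} {d d' : ℝ} (h : RtM Γ ω ω' k₀ d) (h' : RtM Γ ω' ω'' k₀ d') : RtM Γ ω ω'' k₀ (d + d') :=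
  ⟨fun k y h1 h2 => by
      rw [add_comm, Real.exp_add, mul_assoc]
      exact (h'.up k y h1 h2).trans (mul_le_mul_of_nonneg_left (h.up k y h1 h2) (Real.exp_pos _).le),
    fun k y h1 h2 => by
      rw [Real.exp_add, mul_assoc]
      exact (h.dn k y h1 h2).trans (mul_le_mul_of_nonneg_left (h'.dn k y h1 h2) (Real.exp_pos _).le)⟩

/-- **The backward masses of the sites OFF `B`** of the rows `k₀ ≤ k ≤ N` move by at most `exp d`. -/
structure RtO (Γ : Cx) (B : Set (ℕ × ℤ)) (ω ω' : Env) (k₀ : ℕ) (d : ℝ) : Prop where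
  up : ∀ (k : ℕ) (y : ℤ), k₀ ≤ k → k ≤ Γ.N → (k, y) ∉ B →
    bw (wt ω') Γ.p k (Γ.N - k) y ≤ Real.exp d * bw (wt ω) Γ.p k (Γ.N - k) y
  dn : ∀ (k : ℕ) (y : ℤ), k₀ ≤ k → k ≤ Γ.N → (k, y) ∉ B →
    bw (wt ω) Γ.p k (Γ.N - k) y ≤ Real.exp d * bw (wt ω') Γ.p k (Γ.N - k) y

theorem RtM.off {ω ω' : Env} {k₀ : ℕ} {d : ℝ} (h : RtM Γ ω ω' k₀ d) (B : Set (ℕ × ℤ)) : RtO Γ B ω ω' k₀ d :=
  ⟨fun k y h1 h2 _ => h.up k y h1 h2, fun k y h1 h2 _ => h.dn k y h1 h2⟩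

/-- From `Ro` of `Rat22`. -/
theorem RtO.of {B : Set (ℕ × ℤ)} {ω ω' : Env} {R d : ℝ}
    (up : ∀ k y, (k, y) ∉ B → bw (wt ω') Γ.p k (Γ.N - k) y ≤ R * bw (wt ω) Γ.p k (Γ.N - k) y)
    (dn : ∀ k y, (k, y) ∉ B → bw (wt ω) Γ.p k (Γ.N - k) y ≤ R * bw (wt ω') Γ.p k (Γ.N - k) y) (hR : R ≤ Real.exp d) (k₀ : ℕ) :
    RtO Γ B ω ω' k₀ d :=
  ⟨fun k y _ _ h => (up k y h).trans (mul_le_mul_of_nonneg_right hR (bw_pos (wt_pos ω) Γ.p_pos _ _ _).le),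
    fun k y _ _ h => (dn k y h).trans (mul_le_mul_of_nonneg_right hR (bw_pos (wt_pos ω') Γ.p_pos _ _ _).le)⟩

theorem RtO.symm {B : Set (ℕ × ℤ)} {ω ω' : Env} {k₀ : ℕ} {d : ℝ} (h : RtO Γ B ω ω' k₀ d) : RtO Γ B ω' ω k₀ d := ⟨h.dn, h.up⟩

theorem RtO.mono {B B' : Set (ℕ × ℤ)} {ω ω' : Env} {k₀ k₁ : ℕ} {d d' : ℝ} (h : RtO Γ B ω ω' k₀ d) (hB : B ⊆ B') (hk : k₀ ≤ k₁)
    (hd : d ≤ d') : RtO Γ B' ω ω' k₁ d' :=
  ⟨fun k y h1 h2 h3 => (h.up k y (hk.trans h1) h2 fun h4 => h3 (hB h4)).trans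
      (mul_le_mul_of_nonneg_right (Real.exp_le_exp.2 hd) (bw_pos (wt_pos ω) Γ.p_pos _ _ _).le),
    fun k y h1 h2 h3 => (h.dn k y (hk.trans h1) h2 fun h4 => h3 (hB h4)).trans
      (mul_le_mul_of_nonneg_right (Real.exp_le_exp.2 hd) (bw_pos (wt_pos ω') Γ.p_pos _ _ _).le)⟩

/-- The pair `(ω, R u κ η ω)` is an `Rt` of `Stay78`. -/
theorem rt_of {u : ℕ} {κ' : ℤ × ℤ} {η ω : Env} {k₀ : ℕ} {d : ℝ} (hd : 0 ≤ d)
    (hr : RtO Γ (O22.Bw G u κ') ω (G.R u κ' η ω) k₀ d) :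
    Rt (wt ω) (wt (G.R u κ' η ω)) Γ.p Γ.N k₀ (O22.Bw G u κ') (Real.exp d) := by
  refine ⟨wt_pos ω, wt_pos _, Γ.p_pos, Real.one_le_exp hd, fun k y _ h1 => ?_, fun k y h1 h3 => ?_, fun k y h1 h3 => ?_⟩
  · exact Gm.wt_gl_of_not_mem h1
  · rcases le_or_gt k Γ.N with h2 | h2
    · exact hr.up k y h1 h2 h3
    · rw [Nat.sub_eq_zero_of_le h2.le, bw_zero, bw_zero, mul_one]
      exact Real.one_le_exp hd
  · rcases le_or_gt k Γ.N with h2 | h2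
    · exact hr.dn k y h1 h2 h3
    · rw [Nat.sub_eq_zero_of_le h2.le, bw_zero, bw_zero, mul_one]
      exact Real.one_le_exp hd

/-- The price of one window. -/
def c78 (G : Gm) (d : ℝ) (u : ℕ) : ℝ := 2 * d + Real.log (1 + G.T u)

theorem c78_nonneg {d : ℝ} (hd : 0 ≤ d) (u : ℕ) : 0 ≤ c78 G d u := by
  unfold c78
  have : 0 ≤ Real.log (1 + G.T u) := Real.log_nonneg (by have : (0 : ℝ) ≤ G.T u := Nat.cast_nonneg _; linarith)
  linarith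

/-- **THE STAY PROBABILITY, ONE WINDOW CHANGED.** -/
theorem St_RO {a b β d : ℝ} {u v : ℕ} {κ κ' : ℤ × ℤ} (hv0 : 0 ≤ G.v) (hv1 : G.v ≤ 1) (hab : a ≤ b)
    (hg : |G.ctr u κ' - G.ctr v κ| + G.kw * G.w u + 2 ≤ a * G.w v) (hd : 0 ≤ d) {η ω : Env}
    (hr : RtO Γ (O22.Bw G u κ') ω (G.R u κ' η ω) (rl G v κ) d) (h : ω ∈ St Γ G a b β v κ) :
    G.R u κ' η ω ∈ St Γ G a b (β - c78 G d u) v κ := by
  intro k y hk
  obtain ⟨B, hB⟩ : ∃ B : Set (ℕ × ℤ), B = O22.Bw G u κ' := ⟨_, rfl⟩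
  have hBm : ∀ k y, (k, y) ∈ B ↔ (((k : ℤ), y) : Pt) ∈ G.win u κ' := fun k y => by rw [hB]; rfl
  have hw := G.w_pos v
  have R : Rt (wt ω) (wt (G.R u κ' η ω)) Γ.p Γ.N (rl G v κ) B (Real.exp d) := by
    rw [hB]
    exact rt_of hd hr
  -- sites of the window
  have hcol : ∀ k y, (k, y) ∈ B → |G.lat (k, y) - G.ctr v κ| ≤ |G.ctr u κ' - G.ctr v κ| + (G.kw * G.w u + 1) := by
    intro k y h1
    have h2 := lat_win ((hBm k y).1 h1)
    have e1 : G.lat (k, y) - G.ctr v κ = (G.ctr u κ' - G.ctr v κ) + (G.lat (k, y) - G.ctr u κ') := by ring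
    rw [e1]
    exact (abs_add_le _ _).trans (add_le_add le_rfl h2)
  have hBS : ∀ k y, rl G v κ ≤ k → k < sr Γ G v κ → (k, y) ∈ B → (k, y) ∈ sp G v κ b := by
    intro k y _ _ h1
    show |G.lat (k, y) - G.ctr v κ| ≤ b * G.w v
    have h2 := hcol k y h1
    have h3 := mul_le_mul_of_nonneg_right hab hw.le
    linarith
  have hRg : ∀ k y, rl G v κ ≤ k → k + 1 < sr Γ G v κ → (k, y) ∈ B → (k + 1, y) ∈ Rg G v κ a ∧ (k + 1, y + 1) ∈ Rg G v κ a := by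
    intro k y h0 h1 h2
    have h3 := hcol k y h2
    obtain ⟨h4, h5⟩ := lat_succ hv0 hv1 k y h3
    have h6 : k + 1 < G.ra v κ + 1 := lt_of_lt_of_le h1 (min_le_left _ _)
    have h7 : G.lo v κ - (G.T (v - 2) : ℤ) ≤ ((k + 1 : ℕ) : ℤ) := by
      have := Int.self_le_toNat (G.lo v κ - (G.T (v - 2) : ℤ))
      unfold rl at h0
      push_cast
      omega
    exact ⟨⟨h7, by show k + 1 ≤ _; omega, h4.trans (by linarith)⟩, ⟨h7, by show k + 1 ≤ _; omega, h5.trans (by linarith)⟩⟩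
  have hb : ∀ k y, rl G v κ ≤ k → (k, y) ∈ B →
      (G.rcc u κ' + G.T (u - 1) + 1).toNat ≤ k ∧ k < (G.rcc u κ' + G.T u + 1).toNat := by
    intro k y _ h1
    obtain ⟨h2, h3, -⟩ := (hBm k y).1 h1
    simp only at h2 h3
    constructor <;> omega
  have hk0 : rl G v κ ≤ k := by
    have := hk.1
    simp only at this
    unfold rl
    omega
  have key := lv_tr (S := sp G v κ b) R (sr_le Γ G v κ) (ε := Real.exp (-β)) (ε₀ := Real.exp (-β)) (Real.exp_pos _).le hb hBS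
    (fun k y h0 h1 h2 => ⟨h (k + 1) y (hRg k y h0 h1 h2).1, h (k + 1) (y + 1) (hRg k y h0 h1 h2).2⟩) hk0 (h k y hk) (Real.exp_pos _).le
  refine key.trans (mul_le_mul_of_nonneg_right ?_ (bw_pos (wt_pos _) Γ.p_pos _ _ _).le)
  have hn : (((G.rcc u κ' + G.T u + 1).toNat - (G.rcc u κ' + G.T (u - 1) + 1).toNat : ℕ) : ℝ) ≤ G.T u := by
    have : (G.rcc u κ' + G.T u + 1).toNat - (G.rcc u κ' + G.T (u - 1) + 1).toNat ≤ G.T u := by omega
    exact_mod_cast this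
  have hT : (0 : ℝ) ≤ G.T u := Nat.cast_nonneg _
  have e1 : Real.exp (-(β - c78 G d u)) = Real.exp d ^ 2 * ((1 + (G.T u : ℝ)) * Real.exp (-β)) := by
    unfold c78
    rw [show -(β - (2 * d + Real.log (1 + G.T u))) = d + d + Real.log (1 + G.T u) + -β by ring, Real.exp_add, Real.exp_add,
      Real.exp_add, Real.exp_log (by linarith)]
    ring
  rw [e1]
  refine mul_le_mul_of_nonneg_left ?_ (by positivity)
  have h1 := mul_le_mul_of_nonneg_right hn (Real.exp_pos (-β)).le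
  linarith

/-- `St_RO` for `RtM`. -/
theorem St_R {a b β d : ℝ} {u v : ℕ} {κ κ' : ℤ × ℤ} (hv0 : 0 ≤ G.v) (hv1 : G.v ≤ 1) (hab : a ≤ b)
    (hg : |G.ctr u κ' - G.ctr v κ| + G.kw * G.w u + 2 ≤ a * G.w v) (hd : 0 ≤ d) {η ω : Env}
    (hr : RtM Γ ω (G.R u κ' η ω) (rl G v κ) d) (h : ω ∈ St Γ G a b β v κ) :
    G.R u κ' η ω ∈ St Γ G a b (β - c78 G d u) v κ := St_RO hv0 hv1 hab hg hd (hr.off _) h

/-- **A WINDOW ABOVE THE ROW OF THE STOP IS CHANGED.** -/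
theorem St_up {a b β d : ℝ} {u v : ℕ} {κ κ' : ℤ × ℤ} (hup : ∀ k y, (k, y) ∈ O22.Bw G u κ' → sr Γ G v κ ≤ k) (hd : 0 ≤ d) {η ω : Env}
    (hr : RtO Γ (O22.Bw G u κ') ω (G.R u κ' η ω) (rl G v κ) d) (h : ω ∈ St Γ G a b β v κ) :
    G.R u κ' η ω ∈ St Γ G a b (β - 2 * d) v κ := by
  intro k y hk
  have hk0 : rl G v κ ≤ k := by
    have := hk.1
    simp only at this
    unfold rl
    omega
  have key := lv_tr (S := sp G v κ b) (rt_of hd hr) (sr_le Γ G v κ) (ε := 0) (ε₀ := Real.exp (-β)) le_rfl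
    (b₀ := (G.rcc u κ' + G.T (u - 1) + 1).toNat) (b₁ := (G.rcc u κ' + G.T u + 1).toNat)
    (fun k y _ h1 => by
      obtain ⟨h2, h3, -⟩ := h1
      simp only at h2 h3
      constructor <;> omega)
    (fun k y _ h1 h2 => absurd (hup k y h2) (not_le.2 h1))
    (fun k y _ h1 h2 => absurd (hup k y h2) (by omega)) hk0 (h k y hk) (Real.exp_pos _).le
  refine key.trans (le_of_eq ?_)
  rw [mul_zero, add_zero, show -(β - 2 * d) = d + d + -β by ring, Real.exp_add, Real.exp_add]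
  ring

/-- The rows of a window above the stop. -/
theorem up_of {u v : ℕ} {κ κ' : ℤ × ℤ} (h0 : (G.ra v κ : ℤ) ≤ G.rcc u κ' + G.T (u - 1)) :
    ∀ k y, (k, y) ∈ O22.Bw G u κ' → sr Γ G v κ ≤ k := by
  intro k y h
  obtain ⟨h2, -, -⟩ := h
  simp only at h2
  have h3 : sr Γ G v κ ≤ G.ra v κ + 1 := min_le_left _ _
  omega

/-! ### The slack form -/

theorem hg_loc {a : ℝ} {u v : ℕ} (y : ℕ × ℤ) (hg : (G.kw + 1) * G.w u + 2 ≤ (a - 1) * G.w v) :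
    |G.ctr u (G.loc u y) - G.ctr v (G.loc v y)| + G.kw * G.w u + 2 ≤ a * G.w v := by
  have h1 := G.lat_ctr u y
  have h2 := G.lat_ctr v y
  have h3 := G.g_le u
  have h4 := G.g_le v
  have hw := G.w_pos v
  have hw' := G.w_pos u
  have e1 : G.ctr u (G.loc u y) - G.ctr v (G.loc v y) = (G.lat y - G.ctr v (G.loc v y)) - (G.lat y - G.ctr u (G.loc u y)) := by ring
  rw [e1]
  have h5 := abs_sub (G.lat y - G.ctr v (G.loc v y)) (G.lat y - G.ctr u (G.loc u y))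
  linarith

theorem hg_nb {a : ℝ} {s v : ℕ} {κ : ℤ × ℤ} {ρ : ℕ × ℤ} (hρ : G.Nb s κ ρ) (hg : (G.kw + G.kb) * G.w s + 2 ≤ (a - 1) * G.w v) :
    |G.ctr s κ - G.ctr v (G.loc v ρ)| + G.kw * G.w s + 2 ≤ a * G.w v := by
  have h1 := hρ.2.2
  have h2 := G.lat_ctr v ρ
  have h4 := G.g_le v
  have hw := G.w_pos v
  have e1 : G.ctr s κ - G.ctr v (G.loc v ρ) = (G.lat ρ - G.ctr v (G.loc v ρ)) - (G.lat ρ - G.ctr s κ) := by ring
  rw [e1]
  have h5 := abs_sub (G.lat ρ - G.ctr v (G.loc v ρ)) (G.lat ρ - G.ctr s κ)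
  linarith

/-- `St` with the slack `sg`. -/
theorem stS_mono {a b : ℝ} {be : ℕ → ℝ} {sg sg' : ℝ} (h : sg ≤ sg') (v : ℕ) (κ : ℤ × ℤ) :
    St Γ G a b (be v - sg) v κ ⊆ St Γ G a b (be v - sg') v κ := St_mono le_rfl (by linarith)

/-- **(I)** the window `(u, loc u y)`, the cell of `y`. -/
theorem stS_T {a b : ℝ} {be : ℕ → ℝ} {u v : ℕ} (y : ℕ × ℤ) (hv0 : 0 ≤ G.v) (hv1 : G.v ≤ 1) (hab : a ≤ b)
    (hg : (G.kw + 1) * G.w u + 2 ≤ (a - 1) * G.w v) {d e : ℝ} (hd : 0 ≤ d) (he : c78 G d u ≤ e) {η ω : Env}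
    (hr : RtO Γ (O22.Bw G u (G.loc u y)) ω (G.R u (G.loc u y) η ω) (rl G v (G.loc v y)) d) (sg : ℝ)
    (h : ω ∈ St Γ G a b (be v - sg) v (G.loc v y)) : G.R u (G.loc u y) η ω ∈ St Γ G a b (be v - (sg + e)) v (G.loc v y) :=
  St_mono le_rfl (by linarith) (St_RO hv0 hv1 hab (hg_loc y hg) hd hr h)

/-- **(I)** the window `(s, κ)`, the cell of a neighbour `ρ`. -/
theorem stS_S {a b : ℝ} {be : ℕ → ℝ} {s v : ℕ} {κ : ℤ × ℤ} {ρ : ℕ × ℤ} (hρ : G.Nb s κ ρ) (hv0 : 0 ≤ G.v) (hv1 : G.v ≤ 1) (hab : a ≤ b)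
    (hg : (G.kw + G.kb) * G.w s + 2 ≤ (a - 1) * G.w v) {d e : ℝ} (hd : 0 ≤ d) (he : c78 G d s ≤ e) {η ω : Env}
    (hr : RtO Γ (O22.Bw G s κ) ω (G.R s κ η ω) (rl G v (G.loc v ρ)) d) (sg : ℝ)
    (h : ω ∈ St Γ G a b (be v - sg) v (G.loc v ρ)) : G.R s κ η ω ∈ St Γ G a b (be v - (sg + e)) v (G.loc v ρ) :=
  St_mono le_rfl (by linarith) (St_RO hv0 hv1 hab (hg_nb hρ hg) hd hr h)

/-- **(II)** a window above the row `ra v κ`. -/
theorem stS_up {a b : ℝ} {be : ℕ → ℝ} {u v : ℕ} {κ κ' : ℤ × ℤ} (h0 : (G.ra v κ : ℤ) ≤ G.rcc u κ' + G.T (u - 1)) {d e : ℝ} (hd : 0 ≤ d)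
    (he : 2 * d ≤ e) {η ω : Env} (hr : RtO Γ (O22.Bw G u κ') ω (G.R u κ' η ω) (rl G v κ) d) (sg : ℝ)
    (h : ω ∈ St Γ G a b (be v - sg) v κ) : G.R u κ' η ω ∈ St Γ G a b (be v - (sg + e)) v κ :=
  St_mono le_rfl (by linarith) (St_up (up_of h0) hd hr h)

/-! ### The thresholds -/

/-- The price of the scales already changed, `q` scales and more below `v`. -/
def pc78 (D : ℕ → ℝ) (q : ℕ) (A : Finset ℕ) (v : ℕ) : ℝ := ∑ u ∈ A with u + q ≤ v, D u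

theorem pc78_mono {D : ℕ → ℝ} (hD : ∀ u, 0 ≤ D u) (q : ℕ) {A B : Finset ℕ} (h : A ⊆ B) (v : ℕ) : pc78 D q A v ≤ pc78 D q B v :=
  sum_le_sum_of_subset_of_nonneg (filter_subset_filter _ h) fun u _ _ => hD u

theorem pc78_range {D : ℕ → ℝ} (hD : ∀ u, 0 ≤ D u) (q : ℕ) (A : Finset ℕ) (v : ℕ) : pc78 D q A v ≤ pc78 D q (range (v + 1)) v :=
  sum_le_sum_of_subset_of_nonneg (fun u hu => by
    have h := (mem_filter.1 hu).2
    exact mem_filter.2 ⟨mem_range.2 (by omega), h⟩) fun u _ _ => hD u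

theorem pc78_insert {D : ℕ → ℝ} {q : ℕ} {A : Finset ℕ} {u v : ℕ} (hu : u ∉ A) (huv : u + q ≤ v) :
    pc78 D q (insert u A) v = pc78 D q A v + D u := by
  unfold pc78
  rw [filter_insert, if_pos huv, sum_insert (fun h => hu (mem_filter.1 h).1), add_comm]

/-- The total price, geometric. -/
theorem pc78_geo {D : ℕ → ℝ} (hD : ∀ u, 0 ≤ D u) {q : ℕ} {v : ℕ} {X r : ℝ} (hX : 0 ≤ X) (hr0 : 0 ≤ r) (hr1 : r < 1)
    (h : ∀ u, u + q ≤ v → D u ≤ X * r ^ (v - u)) (A : Finset ℕ) : pc78 D q A v ≤ X * (r ^ q / (1 - r)) := by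
  refine (pc78_range hD q A v).trans ?_
  rcases lt_or_ge v q with hvq | hvq
  · have e1 : pc78 D q (range (v + 1)) v = 0 := sum_eq_zero fun u hu => by
      have := (mem_filter.1 hu).2
      omega
    rw [e1]
    have : 0 < 1 - r := by linarith
    positivity
  · have e1 : (range (v + 1)).filter (fun u => u + q ≤ v) = range (v - q + 1) := by
      ext u
      simp only [mem_filter, mem_range]
      omega
    unfold pc78
    rw [e1]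
    calc ∑ u ∈ range (v - q + 1), D u ≤ ∑ u ∈ range (v - q + 1), X * r ^ (v - u) := sum_le_sum fun u hu => h u (by
          have := mem_range.1 hu
          omega)
      _ = X * (r ^ q * ∑ j ∈ range (v - q + 1), r ^ j) := by
          rw [← mul_sum]
          congr 1
          rw [mul_sum, ← sum_range_reflect]
          refine sum_congr rfl fun j hj => ?_
          have := mem_range.1 hj
          rw [← pow_add]
          congr 1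
          omega
      _ ≤ X * (r ^ q * (1 / (1 - r))) := by
          refine mul_le_mul_of_nonneg_left (mul_le_mul_of_nonneg_left ?_ (pow_nonneg hr0 q)) hX
          rw [one_div, ← tsum_geometric_of_lt_one hr0 hr1]
          exact (summable_geometric_of_lt_one hr0 hr1).sum_le_tsum _ fun j _ => pow_nonneg hr0 j
      _ = _ := by ring

variable (Γ G)

/-- The event of `T A v κ`. -/
def StA (a b : ℝ) (be D : ℕ → ℝ) (q : ℕ) (A : Finset ℕ) (v : ℕ) (κ : ℤ × ℤ) : Set Env := St Γ G a b (be v - pc78 D q A v) v κ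

/-- The event of `Tt v κ`. -/
def StT (a b : ℝ) (be D : ℕ → ℝ) (q v : ℕ) (κ : ℤ × ℤ) : Set Env := St Γ G a b (be v - pc78 D q (range (v + 1)) v) v κ

theorem meas_StA (a b : ℝ) (be D : ℕ → ℝ) (q : ℕ) (A : Finset ℕ) (v : ℕ) (κ : ℤ × ℤ) : MeasurableSet (StA Γ G a b be D q A v κ) :=
  meas_St Γ G _ _ _ _ _

theorem meas_StT (a b : ℝ) (be D : ℕ → ℝ) (q v : ℕ) (κ : ℤ × ℤ) : MeasurableSet (StT Γ G a b be D q v κ) := meas_St Γ G _ _ _ _ _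

variable {Γ G} {a b : ℝ} {be D : ℕ → ℝ} {q : ℕ}

theorem StA_mono (hD : ∀ u, 0 ≤ D u) {A B : Finset ℕ} (h : A ⊆ B) (v : ℕ) (κ : ℤ × ℤ) :
    StA Γ G a b be D q A v κ ⊆ StA Γ G a b be D q B v κ := St_mono le_rfl (by linarith [pc78_mono hD q h v])

theorem StA_sub (hD : ∀ u, 0 ≤ D u) (A : Finset ℕ) (v : ℕ) (κ : ℤ × ℤ) : StA Γ G a b be D q A v κ ⊆ StT Γ G a b be D q v κ :=
  St_mono le_rfl (by linarith [pc78_range hD q A v])

/-- `StT` with a plain threshold. -/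
theorem StT_sub (hD : ∀ u, 0 ≤ D u) {v : ℕ} {X r β : ℝ} (hX : 0 ≤ X) (hr0 : 0 ≤ r) (hr1 : r < 1) (h : ∀ u, u + q ≤ v → D u ≤ X * r ^ (v - u))
    (hβ : β + X * (r ^ q / (1 - r)) ≤ be v) (κ : ℤ × ℤ) : StT Γ G a b be D q v κ ⊆ St Γ G a b β v κ :=
  St_mono le_rfl (by linarith [pc78_geo hD hX hr0 hr1 h (range (v + 1))])

/-- The general step: any window inside the box. -/
theorem StA_R {A : Finset ℕ} {u v : ℕ} (hu : u ∉ A) (huv : u + q ≤ v) {κ κ' : ℤ × ℤ} (hv0 : 0 ≤ G.v) (hv1 : G.v ≤ 1) (hab : a ≤ b)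
    (hg : |G.ctr u κ' - G.ctr v κ| + G.kw * G.w u + 2 ≤ a * G.w v) {d : ℝ} (hd : 0 ≤ d) (hD : c78 G d u ≤ D u) {η ω : Env}
    (hr : RtO Γ (O22.Bw G u κ') ω (G.R u κ' η ω) (rl G v κ) d) (h : ω ∈ StA Γ G a b be D q A v κ) :
    G.R u κ' η ω ∈ StA Γ G a b be D q (insert u A) v κ := by
  refine St_mono le_rfl ?_ (St_RO hv0 hv1 hab hg hd hr h)
  rw [pc78_insert hu huv]
  linarith

/-- **`stepT` of `MoveC`** (`q = 1`), of `MoveQ` (classes mod `q`). -/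
theorem StA_stepT {A : Finset ℕ} {u v : ℕ} (hu : u ∉ A) (huv : u + q ≤ v) (y : ℕ × ℤ) (hv0 : 0 ≤ G.v) (hv1 : G.v ≤ 1) (hab : a ≤ b)
    (hg : (G.kw + 1) * G.w u + 2 ≤ (a - 1) * G.w v) {d : ℝ} (hd : 0 ≤ d) (hD : c78 G d u ≤ D u) {η ω : Env}
    (hr : RtO Γ (O22.Bw G u (G.loc u y)) ω (G.R u (G.loc u y) η ω) (rl G v (G.loc v y)) d)
    (h : ω ∈ StA Γ G a b be D q A v (G.loc v y)) : G.R u (G.loc u y) η ω ∈ StA Γ G a b be D q (insert u A) v (G.loc v y) :=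
  StA_R hu huv hv0 hv1 hab (hg_loc y hg) hd hD hr h

/-- **`stepS`.** -/
theorem StA_stepS {s v : ℕ} (hsv : s + q ≤ v) {κ : ℤ × ℤ} {ρ : ℕ × ℤ} (hρ : G.Nb s κ ρ) (hv0 : 0 ≤ G.v) (hv1 : G.v ≤ 1) (hab : a ≤ b)
    (hg : (G.kw + G.kb) * G.w s + 2 ≤ (a - 1) * G.w v) {d : ℝ} (hd : 0 ≤ d) (hD : c78 G d s ≤ D s) {η ω : Env}
    (hr : RtO Γ (O22.Bw G s κ) ω (G.R s κ η ω) (rl G v (G.loc v ρ)) d) (h : ω ∈ StA Γ G a b be D q ∅ v (G.loc v ρ)) :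
    G.R s κ η ω ∈ StA Γ G a b be D q {s} v (G.loc v ρ) :=
  StA_R (Γ := Γ) (G := G) (a := a) (b := b) (be := be) (D := D) (q := q) (A := ∅) (u := s) (v := v) (κ := G.loc v ρ) (κ' := κ)
    (notMem_empty s) hsv hv0 hv1 hab (hg_nb hρ hg) hd hD hr h

/-! ### Use -/

/-- **One row.** From every site of the box: off the strip at the row `e`. -/
theorem St_bF {β : ℝ} {v : ℕ} {κ : ℤ × ℤ} {ω : Env} (h : ω ∈ St Γ G a b β v κ) {k e : ℕ} (hke : k ≤ e) (he : e ≤ G.ra v κ) (heN : e < Γ.N)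
    {y : ℤ} (hk : (k, y) ∈ Rg G v κ a) {F : Finset ℤ} (hF : ∀ z ∈ F, y ≤ z → z ≤ y + (e - k : ℕ) → b * G.w v < |G.lat (e, z) - G.ctr v κ|) :
    bF (wt ω) Γ.p Γ.N e F k y ≤ Real.exp (-β) * bw (wt ω) Γ.p k (Γ.N - k) y := by
  refine (bF_le_lv (wt_pos ω) Γ.p_pos (sr_le Γ G v κ) (lt_min (by omega) heN) hke fun z hz h1 h2 h3 => ?_).trans (h k y hk)
  have h4 : |G.lat (e, z) - G.ctr v κ| ≤ b * G.w v := h3
  exact absurd (hF z hz h1 h2) (not_lt.2 h4)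

end

end Pool.Agent.W_7d29a1_C1.Sy78
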