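import Pool.Agent.W_7d29a1_C1.SkelQ49
import Pool.Agent.W_7d29a1_C1.GeoF37
import Pool.Agent.W_7d29a1_C1.StayG78

/-!
Both halves (MP_7d29a1_pr), attractor route, SEP: THE TYPICAL EVENTS `T A u κ`, `Tt u κ` OF `MoveQ` FROM FOUR SETS WITH ONE SLACK.
(helper9; letters of helper25, helper91)

`TT sg u κ = Lv u κ ∩ Ou sg u κ ∩ St sg u κ ∩ Fw sg u κ`, `T A u κ = TT (sl (u - 1) + 2 Σ_{v ∈ A, v + q ≤ u} d v) u κ`,
`Tt u κ = TT (smax u) u κ`. Fields of `MoveQ`: `slab`, `Tsub`, `Tmono`, `stepT`, `stepS` from the step of each set.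
-/

set_option autoImplicit false

namespace Pool.Agent.W_7d29a1_C1.Ms9

open MeasureTheory Finset

/-! ### One slack -/

section gen

variable {Ω : Type*} {K : ℕ → Type*}

/-- The typical event with the slack `sg`. -/
def TT (Lv : ∀ u, K u → Set Ω) (Ou St Fw : ℝ → ∀ u, K u → Set Ω) (sg : ℝ) (u : ℕ) (κ : K u) : Set Ω :=
  Lv u κ ∩ (Ou sg u κ ∩ (St sg u κ ∩ Fw sg u κ))

/-- The slack after the scales of `A` are changed. -/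
noncomputable def sgA (sl d : ℕ → ℝ) (q : ℕ) (A : Finset ℕ) (u : ℕ) : ℝ := sl (u - 1) + 2 * ∑ v ∈ A with v + q ≤ u, d v

/-- `T A u κ`. -/
noncomputable def TA (Lv : ∀ u, K u → Set Ω) (Ou St Fw : ℝ → ∀ u, K u → Set Ω) (sl d : ℕ → ℝ) (q : ℕ) (A : Finset ℕ) (u : ℕ)
    (κ : K u) : Set Ω := TT Lv Ou St Fw (sgA sl d q A u) u κ

theorem sgA_empty (sl d : ℕ → ℝ) (q u : ℕ) : sgA sl d q ∅ u = sl (u - 1) := by
  unfold sgA
  simp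

theorem sgA_mono {sl d : ℕ → ℝ} (hd : ∀ u, 0 ≤ d u) (q : ℕ) {A B : Finset ℕ} (h : A ⊆ B) (u : ℕ) :
    sgA sl d q A u ≤ sgA sl d q B u := by
  unfold sgA
  have : ∑ v ∈ A with v + q ≤ u, d v ≤ ∑ v ∈ B with v + q ≤ u, d v :=
    sum_le_sum_of_subset_of_nonneg (filter_subset_filter _ h) fun v _ _ => hd v
  linarith

theorem sgA_le {sl d : ℕ → ℝ} (hd : ∀ u, 0 ≤ d u) (q : ℕ) (A : Finset ℕ) (u : ℕ) :
    sgA sl d q A u ≤ sl (u - 1) + 2 * ∑ v ∈ range (u + 1) with v + q ≤ u, d v := by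
  unfold sgA
  have : ∑ v ∈ A with v + q ≤ u, d v ≤ ∑ v ∈ range (u + 1) with v + q ≤ u, d v :=
    sum_le_sum_of_subset_of_nonneg (fun v hv => by
      have h := (mem_filter.1 hv).2
      exact mem_filter.2 ⟨mem_range.2 (by omega), h⟩) fun v _ _ => hd v
  linarith

theorem sgA_insert {sl d : ℕ → ℝ} {q : ℕ} {A : Finset ℕ} {u v : ℕ} (hu : u ∉ A) (huv : u + q ≤ v) :
    sgA sl d q (insert u A) v = sgA sl d q A v + 2 * d u := by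
  unfold sgA
  rw [filter_insert, if_pos huv, sum_insert fun h => hu (mem_filter.1 h).1]
  ring

theorem sgA_single {sl d : ℕ → ℝ} {q u v : ℕ} (huv : u + q ≤ v) : sgA sl d q {u} v = sgA sl d q ∅ v + 2 * d u := by
  have h := sgA_insert (sl := sl) (d := d) (q := q) (A := ∅) (notMem_empty u) huv
  exact h

variable {Lv : ∀ u, K u → Set Ω} {Ou St Fw : ℝ → ∀ u, K u → Set Ω}

/-- One set is monotone in the slack. -/
def MonS (F : ℝ → ∀ u, K u → Set Ω) : Prop := ∀ sg sg' : ℝ, sg ≤ sg' → ∀ u κ, F sg u κ ⊆ F sg' u κ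

theorem TT_mono (m1 : MonS Ou) (m2 : MonS St) (m3 : MonS Fw) : MonS (TT Lv Ou St Fw) := fun sg sg' h u κ _ hω =>
  ⟨hω.1, m1 sg sg' h u κ hω.2.1, m2 sg sg' h u κ hω.2.2.1, m3 sg sg' h u κ hω.2.2.2⟩

/-- The step of one set: the environment changes from `ω` to `ω'`, the slack grows by `e`. -/
def StepS (F : ℝ → ∀ u, K u → Set Ω) (e : ℝ) (v : ℕ) (κ : K v) (ω ω' : Ω) : Prop := ∀ sg : ℝ, ω ∈ F sg v κ → ω' ∈ F (sg + e) v κ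

theorem TT_step {e : ℝ} {v : ℕ} {κ : K v} {ω ω' : Ω} (h0 : ω ∈ Lv v κ → ω' ∈ Lv v κ) (h1 : StepS Ou e v κ ω ω')
    (h2 : StepS St e v κ ω ω') (h3 : StepS Fw e v κ ω ω') : StepS (TT Lv Ou St Fw) e v κ ω ω' := fun sg hω =>
  ⟨h0 hω.1, h1 sg hω.2.1, h2 sg hω.2.2.1, h3 sg hω.2.2.2⟩

theorem TA_mono {sl d : ℕ → ℝ} (hd : ∀ u, 0 ≤ d u) (m1 : MonS Ou) (m2 : MonS St) (m3 : MonS Fw) (q : ℕ) {A B : Finset ℕ}
    (h : A ⊆ B) (u : ℕ) (κ : K u) : TA Lv Ou St Fw sl d q A u κ ⊆ TA Lv Ou St Fw sl d q B u κ :=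
  TT_mono m1 m2 m3 _ _ (sgA_mono hd q h u) u κ

/-- **`Tsub`.** -/
theorem TA_sub {sl d smax : ℕ → ℝ} (hd : ∀ u, 0 ≤ d u) (m1 : MonS Ou) (m2 : MonS St) (m3 : MonS Fw) {q : ℕ}
    (hs : ∀ u, sl (u - 1) + 2 * ∑ v ∈ range (u + 1) with v + q ≤ u, d v ≤ smax u) (A : Finset ℕ) (u : ℕ) (κ : K u) :
    TA Lv Ou St Fw sl d q A u κ ⊆ TT Lv Ou St Fw (smax u) u κ :=
  TT_mono m1 m2 m3 _ _ ((sgA_le hd q A u).trans (hs u)) u κ

/-- **The step `insert u A`.** -/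
theorem TA_insert {sl d : ℕ → ℝ} {q : ℕ} {A : Finset ℕ} {u v : ℕ} (hu : u ∉ A) (huv : u + q ≤ v) {κ : K v} {ω ω' : Ω}
    (h : StepS (TT Lv Ou St Fw) (2 * d u) v κ ω ω') (hω : ω ∈ TA Lv Ou St Fw sl d q A v κ) :
    ω' ∈ TA Lv Ou St Fw sl d q (insert u A) v κ := by
  unfold TA at hω ⊢
  rw [sgA_insert hu huv]
  exact h _ hω

/-- **The step `{u}`.** -/
theorem TA_single {sl d : ℕ → ℝ} {q u v : ℕ} (huv : u + q ≤ v) {κ : K v} {ω ω' : Ω}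
    (h : StepS (TT Lv Ou St Fw) (2 * d u) v κ ω ω') (hω : ω ∈ TA Lv Ou St Fw sl d q ∅ v κ) :
    ω' ∈ TA Lv Ou St Fw sl d q {u} v κ := TA_insert (A := ∅) (notMem_empty u) huv h hω

/-- The geometric bound of the slack. -/
theorem sg_geo {sl d : ℕ → ℝ} (hd : ∀ u, 0 ≤ d u) {q u : ℕ} {X r : ℝ} (hX : 0 ≤ X) (hr0 : 0 ≤ r) (hr1 : r < 1)
    (h : ∀ v, v + q ≤ u → d v ≤ X * r ^ (u - v)) :
    sl (u - 1) + 2 * ∑ v ∈ range (u + 1) with v + q ≤ u, d v ≤ sl (u - 1) + 2 * (X * (r ^ q / (1 - r))) := by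
  have := Sy78.pc78_geo hd hX hr0 hr1 h (range (u + 1))
  unfold Sy78.pc78 at this
  linarith

section meas

variable [MeasurableSpace Ω]

/-- The sets are measurable. -/
structure Ms (Lv : ∀ u, K u → Set Ω) (Ou St Fw : ℝ → ∀ u, K u → Set Ω) : Prop where
  lv : ∀ u κ, MeasurableSet (Lv u κ)
  ou : ∀ sg u κ, MeasurableSet (Ou sg u κ)
  st : ∀ sg u κ, MeasurableSet (St sg u κ)
  fw : ∀ sg u κ, MeasurableSet (Fw sg u κ)

theorem Ms.tt (m : Ms Lv Ou St Fw) (sg : ℝ) (u : ℕ) (κ : K u) : MeasurableSet (TT Lv Ou St Fw sg u κ) :=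
  (m.lv u κ).inter ((m.ou sg u κ).inter ((m.st sg u κ).inter (m.fw sg u κ)))

/-- **`slab`.** -/
theorem Ms.slab (m : Ms Lv Ou St Fw) {P : Measure Ω} {R : ∀ u, K u → Ω → Ω → Ω} {L : ∀ u, K u → Set Ω}
    (mp : ∀ u κ, MeasurePreserving (fun z : Ω × Ω => R u κ z.1 z.2) (P.prod P) P)
    (rr : ∀ u κ η η' ω, R u κ η (R u κ η' ω) = R u κ η ω) (mL : ∀ u κ, MeasurableSet (L u κ))
    (dj : ∀ u κ, Disjoint (Lv u κ) (L u κ)) (sl d : ℕ → ℝ) (q : ℕ) (A : Finset ℕ) (u : ℕ) (κ : K u) :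
    Lt87.Slab P (R u κ) (TA Lv Ou St Fw sl d q A u κ) (L u κ) :=
  ⟨mp u κ, rr u κ, m.tt _ u κ, mL u κ, (dj u κ).mono_left fun _ h => h.1⟩

end meas

end gen

/-! ### Over the geometry -/

section geo

open Pool.Agent.W_7d29a1_F Pool.Agent.W_7d29a1_C1.G37

variable (G : Gm) {F : Finset (ℕ × ℤ)} {Lv : ∀ u, G.Kc F u → Set Env} {Ou St Fw : ℝ → ∀ u, G.Kc F u → Set Env}

/-- **`slab` of `MoveQ`.** -/
theorem slabG9 (m : Ms Lv Ou St Fw) {μ : Measure ℝ} [IsProbabilityMeasure μ] {L : ∀ u, G.Kc F u → Set Env}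
    (mL : ∀ u κ, MeasurableSet (L u κ)) (dj : ∀ u κ, Disjoint (Lv u κ) (L u κ)) (sl d : ℕ → ℝ) (q : ℕ) (A : Finset ℕ) (u : ℕ)
    (κ : G.Kc F u) : Lt87.Slab (law μ) (G.Rs F u κ) (TA Lv Ou St Fw sl d q A u κ) (L u κ) :=
  m.slab (P := law μ) (R := fun u κ => G.Rs F u κ) (fun u κ => G.mp_R u κ.1) (fun u κ η η' ω => G.R_R u κ.1 η η' ω) mL dj sl d q A u κ

/-- Two scales of one class. -/
theorem cls9 {q u v : ℕ} (h : u % q = v % q) (huv : u < v) : u + q ≤ v := by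
  have h1 : q ∣ v - u := (Nat.modEq_iff_dvd' huv.le).1 h
  have h2 := Nat.le_of_dvd (by omega) h1
  omega

/-- **`stepT` of `MoveQ`** from the step of the sets. -/
theorem stepT9 {L : ∀ u, G.Kc F u → Set Env} {sl d : ℕ → ℝ} {q : ℕ} {S : Finset ℕ} {y : {c // c ∈ F}}
    (h : ∀ A u, u ∈ S → ∀ v ∈ S, u + q ≤ v → ∀ ω ∈ TA Lv Ou St Fw sl d q A u (G.cel F u y), ∀ η,
      G.Rs F u (G.cel F u y) η ω ∈ L u (G.cel F u y) →
      StepS (TT Lv Ou St Fw) (2 * d u) v (G.cel F v y) ω (G.Rs F u (G.cel F u y) η ω)) :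
    ∀ A, ∀ u ∈ S, u ∉ A → ∀ v ∈ S, u < v → u % q = v % q → ∀ ω ∈ TA Lv Ou St Fw sl d q A u (G.cel F u y), ∀ η,
      G.Rs F u (G.cel F u y) η ω ∈ L u (G.cel F u y) → ω ∈ TA Lv Ou St Fw sl d q A v (G.cel F v y) →
      G.Rs F u (G.cel F u y) η ω ∈ TA Lv Ou St Fw sl d q (insert u A) v (G.cel F v y) := by
  intro A u hu huA v hv huv hc ω hω η hη hv'
  have huq := cls9 hc huv
  exact TA_insert huA huq (h A u hu v hv huq ω hω η hη) hv'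

/-- **`stepS` of `MoveQ`** from the step of the sets. -/
theorem stepS9 {L : ∀ u, G.Kc F u → Set Env} {sl d : ℕ → ℝ} {q s : ℕ} {S : Finset ℕ} (hS : ∀ v ∈ S, s + q ≤ v) {κ : G.Kc F s}
    {ρ : {c // c ∈ F}}
    (h : ∀ v ∈ S, ∀ ω ∈ TA Lv Ou St Fw sl d q ∅ s κ, ∀ η, G.Rs F s κ η ω ∈ L s κ →
      StepS (TT Lv Ou St Fw) (2 * d s) v (G.cel F v ρ) ω (G.Rs F s κ η ω)) :
    ∀ v ∈ S, ∀ ω ∈ TA Lv Ou St Fw sl d q ∅ s κ, ∀ η, G.Rs F s κ η ω ∈ L s κ → ω ∈ TA Lv Ou St Fw sl d q ∅ v (G.cel F v ρ) →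
      G.Rs F s κ η ω ∈ TA Lv Ou St Fw sl d q {s} v (G.cel F v ρ) := by
  intro v hv ω hω η hη hv'
  exact TA_single (hS v hv) (h v hv ω hω η hη) hv'

end geo

end Pool.Agent.W_7d29a1_C1.Ms9
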