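import Pool.Agent.W_7d29a1_C1.LuckM71

/-!
MP_7d29a1_pr, [C1] attractor route, SEP: THE BACKWARD MASSES OF TWO CONTENTS OF A WINDOW ARE COMPARABLE OFF THE WINDOW. (helper22)

Model K91P, any end profile `F ≥ 0` at the row `e` (`F = bw e` gives the backward masses), `M k y = bf w p F k (e - k) y`; any gauge
`g k y > 0` (the kernels of K91P are not normalised; with `g` = own weight times `exp (- k lam)` the statements are those of `W`).
Two environments `w`, `w'` which are equal off the window `B` (rows `a < k < e`) and in the rows `≥ e`. `D` = a strip around `B`,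
`Dp` = `D` and its successors, `Rim B a` = the sites off `B` of the rows `≥ a` which have a successor in `B` (the row `a` included),
`Us` = the exits `Dp \ D` and the sites of `Dp` in the row `e`. NO site of `B` is used (helper99: a lucky content has no lower bound there).

* `Kin w p g e D B a A X` : the kernel killed off `D` from a site of the rim: mass at the row `e` against `g` at most `A g`, mass of the
  first exits of `D` against `g` at most `X g`;
* `Sz w p g e F D Dp B a U Q F₀` : `M ≥ exp (- U) g F₀` on the rim, `M ≤ exp Q g F₀` on `Us`;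
* **`rat_off`** : `Kin` of the new content and `Sz` of the old one: `M' ≤ R M` at all sites OFF `B`, all rows, if
  `exp (Q + U) (A + R X) ≤ R` (`num_ok`: `X exp (Q + U) ≤ 1/2`, `R = max 1 (2 A exp (Q + U))`);
* `up_tr` : then the new content has the upper half of `Sz`; `lo_ker` : one kernel gives the lower half; `exm_le` : pointwise bounds;
* `Kin.congr`, `Sz.congr` : only the gauge off `B` is read;
* **`rt_off`** : both directions, backward masses (`Ro`).
-/

set_option autoImplicit false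

namespace Pool.Agent.W_7d29a1_C1.Rt22

open Finset
open Pool.Agent.W_7d29a1_C1.K91P (fw bw bw_succ bw_zero bw_pos bw_congr)
open Pool.Agent.W_7d29a1_C1.U16 (ker ker_zero ker_succ ker_nonneg ker_eq_zero)
open Pool.Agent.W_7d29a1_C1.Sp22 (kw kw_nn kw_le bf bf_zero bf_succ bf_ker bf_mono bf_nonneg bf_bw bf_congr bf_smul)
open Pool.Agent.W_7d29a1_C1.Cmp71 (bf_exit ker_nn ker_mono)

noncomputable section

variable {w w' : ℕ → ℤ → ℝ} {p : ℕ → ℝ} {g : ℕ → ℤ → ℝ} {F : ℤ → ℝ} {N e a : ℕ} {D Dp B : Set (ℕ × ℤ)}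

/-- The sites off `B` with a successor in `B`. -/
def Rim (B : Set (ℕ × ℤ)) (a : ℕ) : Set (ℕ × ℤ) := {c | a ≤ c.1 ∧ c ∉ B ∧ ((c.1 + 1, c.2) ∈ B ∨ (c.1 + 1, c.2 + 1) ∈ B)}

/-- The geometry of the strip. -/
structure Reg (D Dp B : Set (ℕ × ℤ)) (a e : ℕ) : Prop where
  BD : B ⊆ D
  rim : Rim B a ⊆ D
  sub : D ⊆ Dp
  next : ∀ k y, (k, y) ∈ D → (k + 1, y) ∈ Dp ∧ (k + 1, y + 1) ∈ Dp
  rows : ∀ k y, (k, y) ∈ B → a < k ∧ k < e

open Classical in
/-- The mass of the first exits of `D` before the row `e`, against the gauge. -/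
def exm (w : ℕ → ℤ → ℝ) (p : ℕ → ℝ) (g : ℕ → ℤ → ℝ) (D : Set (ℕ × ℤ)) (e : ℕ) (c : ℕ × ℤ) : ℝ :=
  ∑ i ∈ range (e - c.1), ∑ y ∈ Icc c.2 (c.2 + i), (if (c.1 + i, y) ∈ Dᶜ then ker (kw Dᶜ w) p c.1 i c.2 y * g (c.1 + i) y else 0)

/-- The mass at the row `e` of the kernel killed off `D`, against the gauge. -/
def krm (w : ℕ → ℤ → ℝ) (p : ℕ → ℝ) (g : ℕ → ℤ → ℝ) (D : Set (ℕ × ℤ)) (e : ℕ) (c : ℕ × ℤ) : ℝ :=
  bf (kw Dᶜ w) p (g e) c.1 (e - c.1) c.2

/-- **Upper kernels** of one content, from the rim. -/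
structure Kin (w : ℕ → ℤ → ℝ) (p : ℕ → ℝ) (g : ℕ → ℤ → ℝ) (e : ℕ) (D B : Set (ℕ × ℤ)) (a : ℕ) (A X : ℝ) : Prop where
  mass : ∀ c ∈ Rim B a, krm w p g D e c ≤ A * g c.1 c.2
  exit : ∀ c ∈ Rim B a, exm w p g D e c ≤ X * g c.1 c.2

/-- The exits and the row `e`. -/
def Us (D Dp : Set (ℕ × ℤ)) (a e : ℕ) : Set (ℕ × ℤ) := {c | c ∈ Dp ∧ ((a < c.1 ∧ c.1 < e ∧ c ∉ D) ∨ c.1 = e)}

/-- **Sizes** of the masses of one content: lower bound on the rim, upper bound on the exits and in the row `e`. -/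
structure Sz (w : ℕ → ℤ → ℝ) (p : ℕ → ℝ) (g : ℕ → ℤ → ℝ) (e : ℕ) (F : ℤ → ℝ) (D Dp B : Set (ℕ × ℤ)) (a : ℕ) (U Q F₀ : ℝ) :
    Prop where
  nn : 0 ≤ F₀
  lo : ∀ c ∈ Rim B a, F₀ * g c.1 c.2 ≤ Real.exp U * bf w p F c.1 (e - c.1) c.2
  up : ∀ c ∈ Us D Dp a e, bf w p F c.1 (e - c.1) c.2 ≤ Real.exp Q * F₀ * g c.1 c.2

/-! ### The decomposition at the first exit -/

theorem krm_nonneg (hw : ∀ k y, 0 < w k y) (hp : ∀ k, 0 < p k) (hg : ∀ k y, 0 ≤ g k y) (c : ℕ × ℤ) : 0 ≤ krm w p g D e c :=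
  bf_nonneg (kw_nn (fun k y => (hw k y).le) Dᶜ) hp (hg e) _ _ _

theorem exm_nonneg (hw : ∀ k y, 0 < w k y) (hp : ∀ k, 0 < p k) (hg : ∀ k y, 0 ≤ g k y) (c : ℕ × ℤ) : 0 ≤ exm w p g D e c := by
  unfold exm
  refine sum_nonneg fun i _ => sum_nonneg fun y _ => ?_
  split_ifs
  · exact mul_nonneg (ker_nn (kw_nn (fun k y => (hw k y).le) Dᶜ) hp _ _ _ _) (hg _ _)
  · exact le_rfl

theorem kw0 {k : ℕ} {y : ℤ} (h : (k, y) ∉ D) : kw Dᶜ w k y = 0 := by
  unfold kw
  exact if_pos h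

/-- The killed kernel lives on `Dp`. -/
theorem ker_off (next : ∀ k y, (k, y) ∈ D → (k + 1, y) ∈ Dp ∧ (k + 1, y + 1) ∈ Dp) {k : ℕ} {x : ℤ} (hx : (k, x) ∈ Dp) :
    ∀ (i : ℕ) (y : ℤ), (k + i, y) ∉ Dp → ker (kw Dᶜ w) p k i x y = 0
  | 0, y, h => by
    rw [ker_zero, if_neg]
    rintro rfl
    exact h hx
  | i + 1, y, h => by
    have h1 : (k + i, y) ∉ D := fun hD => h (next (k + i) y hD).1
    have h2 : (k + i, y - 1) ∉ D := fun hD => h (by
      have := (next (k + i) (y - 1) hD).2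
      rwa [sub_add_cancel] at this)
    rw [ker_succ, kw0 h1, kw0 h2, zero_mul, zero_mul, mul_zero, add_zero]

/-- The end profile is read on `Dp` only. -/
theorem kill_sup (hw : ∀ k y, 0 < w k y) (hp : ∀ k, 0 < p k) (next : ∀ k y, (k, y) ∈ D → (k + 1, y) ∈ Dp ∧ (k + 1, y + 1) ∈ Dp)
    {f f₀ : ℤ → ℝ} {c₀ : ℝ} : ∀ (n k : ℕ) (x : ℤ), (k, x) ∈ Dp → (∀ y, (k + n, y) ∈ Dp → f y ≤ c₀ * f₀ y) →
      bf (kw Dᶜ w) p f k n x ≤ c₀ * bf (kw Dᶜ w) p f₀ k n x
  | 0, k, x, hx, h => by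
    rw [bf_zero, bf_zero]
    exact h x hx
  | n + 1, k, x, hx, h => by
    rw [bf_succ, bf_succ]
    by_cases hD : (k, x) ∈ D
    · obtain ⟨n1, n2⟩ := next k x hD
      have h' : ∀ y, (k + 1 + n, y) ∈ Dp → f y ≤ c₀ * f₀ y := fun y hy => h y (by rwa [show k + (n + 1) = k + 1 + n by ring])
      have i1 := kill_sup hw hp next n (k + 1) x n1 h'
      have i2 := kill_sup hw hp next n (k + 1) (x + 1) n2 h'
      have h0 : 0 ≤ kw Dᶜ w k x := kw_nn (fun k y => (hw k y).le) _ _ _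
      calc kw Dᶜ w k x * (bf (kw Dᶜ w) p f (k + 1) n x + p k * bf (kw Dᶜ w) p f (k + 1) n (x + 1))
          ≤ kw Dᶜ w k x * (c₀ * bf (kw Dᶜ w) p f₀ (k + 1) n x + p k * (c₀ * bf (kw Dᶜ w) p f₀ (k + 1) n (x + 1))) :=
            mul_le_mul_of_nonneg_left (add_le_add i1 (mul_le_mul_of_nonneg_left i2 (hp k).le)) h0
        _ = _ := by ring
    · rw [kw0 hD, zero_mul, zero_mul, mul_zero]

/-- **At most the killed mass times the profile and the exits times the masses there.** -/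
theorem conf (hw : ∀ k y, 0 < w k y) (hp : ∀ k, 0 < p k) (next : ∀ k y, (k, y) ∈ D → (k + 1, y) ∈ Dp ∧ (k + 1, y + 1) ∈ Dp)
    (sub : D ⊆ Dp) {c : ℕ × ℤ} (hc : c ∈ D) (hce : c.1 ≤ e) {c₀ c₁ : ℝ} (h0 : ∀ y, (e, y) ∈ Dp → F y ≤ c₀ * g e y)
    (h1 : ∀ r y, c.1 < r → r < e → (r, y) ∈ Dp → (r, y) ∉ D → bf w p F r (e - r) y ≤ c₁ * g r y) :
    bf w p F c.1 (e - c.1) c.2 ≤ c₀ * krm w p g D e c + c₁ * exm w p g D e c := by
  classical
  obtain ⟨k, x⟩ := c
  simp only at hce h1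
  have hkn := kw_nn (w := w) (fun k y => (hw k y).le) Dᶜ
  have hxp : (k, x) ∈ Dp := sub hc
  show bf w p F k (e - k) x ≤ _
  rw [bf_exit Dᶜ F (e - k) k x]
  refine add_le_add ?_ ?_
  · exact kill_sup hw hp next (e - k) k x hxp (by rw [Nat.add_sub_cancel' hce]; exact h0)
  · unfold exm
    rw [mul_sum]
    refine sum_le_sum fun i hi => ?_
    rw [mul_sum]
    refine sum_le_sum fun y hy => ?_
    by_cases h2 : (k + i, y) ∈ Dᶜ
    · rw [if_pos h2, if_pos h2]
      rcases Nat.eq_zero_or_pos i with h3 | h3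
      · subst h3
        have h4 : y = x := by
          have := mem_Icc.1 hy
          simp at this
          omega
        subst h4
        exact absurd hc h2
      · by_cases h4 : (k + i, y) ∈ Dp
        · have h5 : i < e - k := mem_range.1 hi
          have h6 := h1 (k + i) y (by omega) (by omega) h4 h2
          rw [Nat.sub_sub]
          calc ker (kw Dᶜ w) p k i x y * bf w p F (k + i) (e - (k + i)) y ≤ ker (kw Dᶜ w) p k i x y * (c₁ * g (k + i) y) :=
                mul_le_mul_of_nonneg_left h6 (ker_nn hkn hp _ _ _ _)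
            _ = _ := by ring
        · rw [ker_off next hxp i y h4, zero_mul, zero_mul, mul_zero]
    · rw [if_neg h2, if_neg h2, mul_zero]

/-! ### The comparison -/

/-- One step. -/
theorem bf_step {k : ℕ} (h : k < e) (y : ℤ) :
    bf w p F k (e - k) y = w k y * (bf w p F (k + 1) (e - (k + 1)) y + p k * bf w p F (k + 1) (e - (k + 1)) (y + 1)) := by
  have e1 : e - k = e - (k + 1) + 1 := by omega
  rw [e1, bf_succ]

variable {A X U Q F₀ R : ℝ}

/-- The numbers of the comparison. -/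
theorem num_ok (hX : X * Real.exp (Q + U) ≤ 1 / 2) :
    1 ≤ max 1 (2 * A * Real.exp (Q + U)) ∧ Real.exp (Q + U) * (A + max 1 (2 * A * Real.exp (Q + U)) * X) ≤
      max 1 (2 * A * Real.exp (Q + U)) := by
  have h1 : (1 : ℝ) ≤ max 1 (2 * A * Real.exp (Q + U)) := le_max_left _ _
  have h2 : 2 * A * Real.exp (Q + U) ≤ max 1 (2 * A * Real.exp (Q + U)) := le_max_right _ _
  set R := max 1 (2 * A * Real.exp (Q + U)) with hR
  refine ⟨h1, ?_⟩
  have h4 : R * (X * Real.exp (Q + U)) ≤ R * (1 / 2) := mul_le_mul_of_nonneg_left hX (by linarith)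
  nlinarith

theorem Sz.mono (h : Sz w p g e F D Dp B a U Q F₀) (hg : ∀ k y, 0 < g k y) (hw : ∀ k y, 0 < w k y) (hp : ∀ k, 0 < p k)
    (hF : ∀ y, 0 ≤ F y) {U' Q' : ℝ} (hU : U ≤ U') (hQ : Q ≤ Q') : Sz w p g e F D Dp B a U' Q' F₀ :=
  ⟨h.nn, fun c hc => (h.lo c hc).trans (mul_le_mul_of_nonneg_right (Real.exp_le_exp.2 hU)
      (bf_nonneg (fun k y => (hw k y).le) hp hF _ _ _)),
    fun c hc => (h.up c hc).trans (mul_le_mul_of_nonneg_right (mul_le_mul_of_nonneg_right (Real.exp_le_exp.2 hQ) h.nn) (hg _ _).le)⟩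

/-- From the sizes of the old content and the kernels of the new one: one start. -/
theorem start (hw' : ∀ k y, 0 < w' k y) (hp : ∀ k, 0 < p k) (hg : ∀ k y, 0 < g k y) (G : Reg D Dp B a e)
    (S : Sz w p g e F D Dp B a U Q F₀) (hR : 0 ≤ R) {c : ℕ × ℤ} (hc : c ∈ Rim B a) (hce : c.1 ≤ e)
    (hM : ∀ r y, c.1 < r → r < e → (r, y) ∈ Dp → (r, y) ∉ D → bf w' p F r (e - r) y ≤ R * bf w p F r (e - r) y)
    (hA : krm w' p g D e c ≤ A * g c.1 c.2) (hX : exm w' p g D e c ≤ X * g c.1 c.2) :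
    bf w' p F c.1 (e - c.1) c.2 ≤ Real.exp (Q + U) * (A + R * X) * bf w p F c.1 (e - c.1) c.2 := by
  have hlo := S.lo c hc
  have hF : 0 ≤ Real.exp Q * F₀ := mul_nonneg (Real.exp_pos _).le S.nn
  have h1 := conf hw' hp G.next G.sub (G.rim hc) hce (F := F) (g := g) (c₀ := Real.exp Q * F₀) (c₁ := R * (Real.exp Q * F₀))
    (fun y hy => by
      have := S.up (e, y) ⟨hy, Or.inr rfl⟩
      simp only [Nat.sub_self, bf_zero] at this
      exact this)
    (fun r y h1 h2 h3 h4 => by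
      refine (hM r y h1 h2 h3 h4).trans ?_
      rw [mul_assoc]
      exact mul_le_mul_of_nonneg_left (S.up (r, y) ⟨h3, Or.inl ⟨lt_of_le_of_lt hc.1 h1, h2, h4⟩⟩) hR)
  have h2 : Real.exp Q * F₀ * krm w' p g D e c + R * (Real.exp Q * F₀) * exm w' p g D e c ≤
      Real.exp Q * (A + R * X) * (F₀ * g c.1 c.2) := by
    have a1 := mul_le_mul_of_nonneg_left hA hF
    have a2 := mul_le_mul_of_nonneg_left hX (mul_nonneg hR hF)
    calc _ ≤ Real.exp Q * F₀ * (A * g c.1 c.2) + R * (Real.exp Q * F₀) * (X * g c.1 c.2) := add_le_add a1 a2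
      _ = _ := by ring
  have h3 : 0 ≤ A + R * X :=
    add_nonneg (nonneg_of_mul_nonneg_left ((krm_nonneg hw' hp (fun k y => (hg k y).le) c).trans hA) (hg _ _))
      (mul_nonneg hR (nonneg_of_mul_nonneg_left ((exm_nonneg hw' hp (fun k y => (hg k y).le) c).trans hX) (hg _ _)))
  calc bf w' p F c.1 (e - c.1) c.2 ≤ Real.exp Q * (A + R * X) * (F₀ * g c.1 c.2) := h1.trans h2
    _ ≤ Real.exp Q * (A + R * X) * (Real.exp U * bf w p F c.1 (e - c.1) c.2) :=
        mul_le_mul_of_nonneg_left hlo (mul_nonneg (Real.exp_pos _).le h3)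
    _ = _ := by rw [Real.exp_add]; ring

/-- **Off the window** (rows `≥ a`). -/
theorem rat_out (hw : ∀ k y, 0 < w k y) (hw' : ∀ k y, 0 < w' k y) (hp : ∀ k, 0 < p k) (hg : ∀ k y, 0 < g k y) (hF : ∀ y, 0 ≤ F y)
    (G : Reg D Dp B a e) (heq : ∀ k y, k < e → (k, y) ∉ B → w k y = w' k y) (S : Sz w p g e F D Dp B a U Q F₀)
    (K : Kin w' p g e D B a A X) (h1R : 1 ≤ R) (num : Real.exp (Q + U) * (A + R * X) ≤ R) : ∀ (j k : ℕ), e ≤ k + j → k ≤ e →
      a ≤ k → ∀ y, (k, y) ∉ B → bf w' p F k (e - k) y ≤ R * bf w p F k (e - k) y := by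
  have hR : 0 ≤ R := by linarith
  have nn : ∀ k j y, 0 ≤ bf w p F k j y := fun k j y => bf_nonneg (fun k y => (hw k y).le) hp hF j k y
  have base : ∀ k, k = e → ∀ y, bf w' p F k (e - k) y ≤ R * bf w p F k (e - k) y := by
    rintro k rfl y
    rw [Nat.sub_self, bf_zero, bf_zero]
    have := mul_le_mul_of_nonneg_right h1R (hF y)
    linarith
  intro j
  induction j with
  | zero => intro k h1 h2 _ y _; exact base k (by omega) y
  | succ j ih =>
    intro k h1 h2 h3 y hy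
    rcases Nat.lt_or_ge k e with h4 | h4
    · by_cases hr : (k + 1, y) ∈ B ∨ (k + 1, y + 1) ∈ B
      · have hc : (k, y) ∈ Rim B a := ⟨h3, hy, hr⟩
        refine (start hw' hp hg G S hR (c := (k, y)) hc h2 (fun r z b1 b2 _ b4 => ?_) (K.mass _ hc)
          (K.exit _ hc)).trans (mul_le_mul_of_nonneg_right num (nn _ _ _))
        exact ih r (by simp only at b1; omega) b2.le (by simp only at b1; omega) z fun hB => b4 (G.BD hB)
      · rw [not_or] at hr
        have i1 := ih (k + 1) (by omega) (by omega) (by omega) y hr.1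
        have i2 := ih (k + 1) (by omega) (by omega) (by omega) (y + 1) hr.2
        rw [bf_step h4, bf_step h4, ← heq k y h4 hy]
        calc w k y * (bf w' p F (k + 1) (e - (k + 1)) y + p k * bf w' p F (k + 1) (e - (k + 1)) (y + 1))
            ≤ w k y * (R * bf w p F (k + 1) (e - (k + 1)) y + p k * (R * bf w p F (k + 1) (e - (k + 1)) (y + 1))) :=
              mul_le_mul_of_nonneg_left (add_le_add i1 (mul_le_mul_of_nonneg_left i2 (hp k).le)) (hw k y).le
          _ = _ := by ring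
    · exact base k (by omega) y

/-- A bound of the row `a` holds on all rows before. -/
theorem rat_low (hw : ∀ k y, 0 < w k y) (hp : ∀ k, 0 < p k) (G : Reg D Dp B a e) (hae : a ≤ e)
    (heq : ∀ k y, k < e → (k, y) ∉ B → w k y = w' k y) {E : ℝ}
    (h : ∀ y, bf w' p F a (e - a) y ≤ E * bf w p F a (e - a) y) : ∀ j k, a ≤ k + j → k ≤ a → ∀ y,
      bf w' p F k (e - k) y ≤ E * bf w p F k (e - k) y := by
  intro j
  induction j with
  | zero =>
    intro k h1 h2 y
    have : k = a := by omega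
    subst this
    exact h y
  | succ j ih =>
    intro k h1 h2 y
    rcases Nat.lt_or_ge k a with h4 | h4
    · have i1 := ih (k + 1) (by omega) (by omega) y
      have i2 := ih (k + 1) (by omega) (by omega) (y + 1)
      have h5 : k < e := by omega
      have h6 : (k, y) ∉ B := fun h => absurd (G.rows k y h).1 (by omega)
      rw [bf_step h5, bf_step h5, ← heq k y h5 h6]
      calc w k y * (bf w' p F (k + 1) (e - (k + 1)) y + p k * bf w' p F (k + 1) (e - (k + 1)) (y + 1))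
          ≤ w k y * (E * bf w p F (k + 1) (e - (k + 1)) y + p k * (E * bf w p F (k + 1) (e - (k + 1)) (y + 1))) :=
            mul_le_mul_of_nonneg_left (add_le_add i1 (mul_le_mul_of_nonneg_left i2 (hp k).le)) (hw k y).le
        _ = _ := by ring
    · have : k = a := by omega
      subst this
      exact h y

/-- **ALL SITES OFF `B`, all rows**: lower bound of the old content on the rim only. -/
theorem rat_off (hw : ∀ k y, 0 < w k y) (hw' : ∀ k y, 0 < w' k y) (hp : ∀ k, 0 < p k) (hg : ∀ k y, 0 < g k y) (hF : ∀ y, 0 ≤ F y)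
    (G : Reg D Dp B a e) (hae : a ≤ e) (heq : ∀ k y, k < e → (k, y) ∉ B → w k y = w' k y) (S : Sz w p g e F D Dp B a U Q F₀)
    (K : Kin w' p g e D B a A X) (h1R : 1 ≤ R) (num : Real.exp (Q + U) * (A + R * X) ≤ R)
    {k : ℕ} (hk : k ≤ e) {y : ℤ} (hy : (k, y) ∉ B) : bf w' p F k (e - k) y ≤ R * bf w p F k (e - k) y := by
  have out := rat_out hw hw' hp hg hF G heq S K h1R num
  rcases Nat.lt_or_ge k a with h | h
  · exact rat_low hw hp G hae heq (fun y => out (e - a) a (by omega) hae le_rfl y fun h => absurd (G.rows a y h).1 (lt_irrefl a))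
      (a - k) k (by omega) h.le y
  · exact out (e - k) k (by omega) hk h y hy

/-- **The upper half of the sizes passes to the new content.** -/
theorem up_tr (hw : ∀ k y, 0 < w k y) (hw' : ∀ k y, 0 < w' k y) (hp : ∀ k, 0 < p k) (hg : ∀ k y, 0 < g k y) (hF : ∀ y, 0 ≤ F y)
    (G : Reg D Dp B a e) (hae : a ≤ e) (heq : ∀ k y, k < e → (k, y) ∉ B → w k y = w' k y) (S : Sz w p g e F D Dp B a U Q F₀)
    (K : Kin w' p g e D B a A X) (h1R : 1 ≤ R) (num : Real.exp (Q + U) * (A + R * X) ≤ R) {U' Q' : ℝ}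
    (hQ : R * Real.exp Q ≤ Real.exp Q') (lo : ∀ c ∈ Rim B a, F₀ * g c.1 c.2 ≤ Real.exp U' * bf w' p F c.1 (e - c.1) c.2) :
    Sz w' p g e F D Dp B a U' Q' F₀ := by
  have hR : 0 ≤ R := by linarith
  refine ⟨S.nn, lo, fun c hc => ?_⟩
  have hcB : (c.1, c.2) ∉ B := by
    rintro hB
    rcases hc.2 with ⟨_, _, h⟩ | h
    · exact h (G.BD hB)
    · exact absurd (G.rows _ _ hB).2 (by omega)
  have hce : c.1 ≤ e := by
    rcases hc.2 with ⟨_, h, _⟩ | h
    · exact h.le
    · exact h.le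
  calc bf w' p F c.1 (e - c.1) c.2 ≤ R * bf w p F c.1 (e - c.1) c.2 := rat_off hw hw' hp hg hF G hae heq S K h1R num hce hcB
    _ ≤ R * (Real.exp Q * F₀ * g c.1 c.2) := mul_le_mul_of_nonneg_left (S.up c hc) hR
    _ = R * Real.exp Q * (F₀ * g c.1 c.2) := by ring
    _ ≤ Real.exp Q' * (F₀ * g c.1 c.2) := mul_le_mul_of_nonneg_right hQ (mul_nonneg S.nn (hg _ _).le)
    _ = _ := by ring

/-- One kernel gives the lower half: `F₀ = F y₀ / g e y₀`. -/
theorem lo_ker (hw : ∀ k y, 0 < w k y) (hp : ∀ k, 0 < p k) (hg : ∀ k y, 0 < g k y) (hF : ∀ y, 0 ≤ F y) {k : ℕ} {x y₀ : ℤ}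
    (h : Real.exp (-U) * g k x ≤ ker w p k (e - k) x y₀ * g e y₀) :
    F y₀ / g e y₀ * g k x ≤ Real.exp U * bf w p F k (e - k) x := by
  have h1 : ker w p k (e - k) x y₀ * F y₀ ≤ bf w p F k (e - k) x := by
    rw [bf_ker]
    by_cases hy : y₀ ∈ Icc x (x + ((e - k : ℕ) : ℤ))
    · exact single_le_sum (f := fun y => ker w p k (e - k) x y * F y) (fun y _ => mul_nonneg (ker_nonneg hw hp _ _ _ _) (hF y)) hy
    · rw [ker_eq_zero k (e - k) x y₀ (fun h => hy (mem_Icc.2 h)), zero_mul]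
      exact sum_nonneg fun y _ => mul_nonneg (ker_nonneg hw hp _ _ _ _) (hF y)
  have hge := hg e y₀
  have h2 : 0 ≤ F y₀ / g e y₀ := div_nonneg (hF y₀) hge.le
  calc F y₀ / g e y₀ * g k x = Real.exp U * (F y₀ / g e y₀ * (Real.exp (-U) * g k x)) := by
        have : Real.exp U * Real.exp (-U) = 1 := by rw [← Real.exp_add]; simp
        calc F y₀ / g e y₀ * g k x = (Real.exp U * Real.exp (-U)) * (F y₀ / g e y₀ * g k x) := by rw [this, one_mul]
          _ = _ := by ring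
    _ ≤ Real.exp U * (F y₀ / g e y₀ * (ker w p k (e - k) x y₀ * g e y₀)) :=
        mul_le_mul_of_nonneg_left (mul_le_mul_of_nonneg_left h h2) (Real.exp_pos _).le
    _ = Real.exp U * (ker w p k (e - k) x y₀ * F y₀) := by
        field_simp
    _ ≤ _ := mul_le_mul_of_nonneg_left h1 (Real.exp_pos _).le

/-! ### Kernels from pointwise bounds -/

open Classical in
/-- The exits, pointwise. -/
theorem exm_le (next : ∀ k y, (k, y) ∈ D → (k + 1, y) ∈ Dp ∧ (k + 1, y + 1) ∈ Dp)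
    (sub : D ⊆ Dp) {c : ℕ × ℤ} (hc : c ∈ D) {b : ℝ} (hb : 0 ≤ b)
    (h : ∀ i y, i < e - c.1 → (c.1 + i, y) ∈ Dp → (c.1 + i, y) ∉ D → ker (kw Dᶜ w) p c.1 i c.2 y * g (c.1 + i) y ≤ b) :
    exm w p g D e c ≤ ((e - c.1 : ℕ) : ℝ) * (((e - c.1 : ℕ) : ℝ) + 1) * b := by
  unfold exm
  have h1 : ∀ i ∈ range (e - c.1), ∑ y ∈ Icc c.2 (c.2 + i),
      (if (c.1 + i, y) ∈ Dᶜ then ker (kw Dᶜ w) p c.1 i c.2 y * g (c.1 + i) y else 0) ≤ (((e - c.1 : ℕ) : ℝ) + 1) * b := by
    intro i hi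
    have h2 : ∀ y ∈ Icc c.2 (c.2 + (i : ℤ)),
        (if (c.1 + i, y) ∈ Dᶜ then ker (kw Dᶜ w) p c.1 i c.2 y * g (c.1 + i) y else 0) ≤ b := by
      intro y _
      split_ifs with h3
      · by_cases h4 : (c.1 + i, y) ∈ Dp
        · exact h i y (mem_range.1 hi) h4 h3
        · rw [ker_off next (sub hc) i y h4, zero_mul]
          exact hb
      · exact hb
    refine (sum_le_card_nsmul _ _ _ h2).trans ?_
    rw [Int.card_Icc, nsmul_eq_mul]
    refine mul_le_mul_of_nonneg_right ?_ hb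
    have h5 : (c.2 + (i : ℤ) + 1 - c.2).toNat = i + 1 := by omega
    rw [h5]
    have h6 : i ≤ e - c.1 := (mem_range.1 hi).le
    push_cast
    have h7 : (i : ℝ) ≤ ((e - c.1 : ℕ) : ℝ) := by exact_mod_cast h6
    linarith
  refine (sum_le_card_nsmul _ _ _ h1).trans ?_
  rw [card_range, nsmul_eq_mul, mul_assoc]

/-! ### Backward masses, both directions -/

theorem bw_bf {k : ℕ} (hk : k ≤ e) (he : e ≤ N) (y : ℤ) : bf w p (bw w p e (N - e)) k (e - k) y = bw w p k (N - k) y := by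
  have h1 := bf_bw (w := w) (p := p) (N - e) (e - k) k y
  rw [Nat.add_sub_cancel' hk, show e - k + (N - e) = N - k by omega] at h1
  exact h1

/-- Backward masses off `B`, both directions, all rows `≤ N`. -/
structure Ro (w w' : ℕ → ℤ → ℝ) (p : ℕ → ℝ) (N : ℕ) (B : Set (ℕ × ℤ)) (R : ℝ) : Prop where
  up : ∀ k y, (k, y) ∉ B → bw w' p k (N - k) y ≤ R * bw w p k (N - k) y
  dn : ∀ k y, (k, y) ∉ B → bw w p k (N - k) y ≤ R * bw w' p k (N - k) y

theorem Ro.symm (h : Ro w w' p N B R) : Ro w' w p N B R := ⟨h.dn, h.up⟩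

/-- One direction, from the rows `≤ e` to all rows. -/
theorem bw_all (hw : ∀ k y, 0 < w k y) (hp : ∀ k, 0 < p k) (he : e ≤ N) (hge : ∀ k, e ≤ k → w k = w' k) (h1R : 1 ≤ R) {k : ℕ} {y : ℤ}
    (h : k ≤ e → bf w' p (bw w p e (N - e)) k (e - k) y ≤ R * bf w p (bw w p e (N - e)) k (e - k) y) :
    bw w' p k (N - k) y ≤ R * bw w p k (N - k) y := by
  have eF : bw w' p e (N - e) = bw w p e (N - e) := by
    funext y
    exact bw_congr (w := w') (w' := w) (N - e) e (fun i hi z => by rw [hge i hi]) y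
  rcases le_total k e with h2 | h2
  · have h1 := h h2
    rw [bw_bf h2 he] at h1
    rw [← eF, bw_bf h2 he] at h1
    exact h1
  · have e1 : bw w' p k (N - k) y = bw w p k (N - k) y :=
      bw_congr (w := w') (w' := w) (N - k) k (fun i hi z => by rw [hge i (h2.trans hi)]) y
    rw [e1]
    have := mul_le_mul_of_nonneg_right h1R (bw_pos hw hp (N - k) k y).le
    linarith

/-- **Both directions off `B`**: for BOTH contents upper kernels from the rim, lower bound on the rim, upper bound on `Us`. -/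
theorem rt_off (hw : ∀ k y, 0 < w k y) (hw' : ∀ k y, 0 < w' k y) (hp : ∀ k, 0 < p k) (hg : ∀ k y, 0 < g k y) (G : Reg D Dp B a e)
    (hae : a ≤ e) (he : e ≤ N) (heq : ∀ k y, (k, y) ∉ B → w k y = w' k y)
    (S : Sz w p g e (bw w p e (N - e)) D Dp B a U Q F₀) (S' : Sz w' p g e (bw w p e (N - e)) D Dp B a U Q F₀)
    (K : Kin w p g e D B a A X) (K' : Kin w' p g e D B a A X) (h1R : 1 ≤ R) (num : Real.exp (Q + U) * (A + R * X) ≤ R) :
    Ro w w' p N B R := by
  have hge : ∀ k, e ≤ k → w k = w' k := fun k hk => funext fun y => heq k y fun h => absurd (G.rows k y h).2 (by omega)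
  have hF : ∀ y, 0 ≤ bw w p e (N - e) y := fun y => (bw_pos hw hp _ _ _).le
  have eF : bw w' p e (N - e) = bw w p e (N - e) := by
    funext y
    exact bw_congr (w := w') (w' := w) (N - e) e (fun i hi z => by rw [hge i hi]) y
  refine ⟨fun k y hy => bw_all hw hp he hge h1R fun h => ?_, fun k y hy => bw_all hw' hp he (fun k hk => (hge k hk).symm) h1R fun h => ?_⟩
  · exact rat_off hw hw' hp hg hF G hae (fun k y _ hk => heq k y hk) S K' h1R num h hy
  · rw [eF]
    exact rat_off hw' hw hp hg hF G hae (fun k y _ hk => (heq k y hk).symm) S' K h1R num h hy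

/-! ### The gauge is read off `B` only -/

theorem Kin.congr (G : Reg D Dp B a e) {g' : ℕ → ℤ → ℝ} (h : ∀ k y, (k, y) ∉ B → g k y = g' k y) (K : Kin w p g e D B a A X) :
    Kin w p g' e D B a A X := by
  classical
  have e1 : g e = g' e := funext fun y => h e y fun hB => absurd (G.rows e y hB).2 (lt_irrefl e)
  have ec : ∀ c ∈ Rim B a, g c.1 c.2 = g' c.1 c.2 := fun c hc => h c.1 c.2 hc.2.1
  refine ⟨fun c hc => ?_, fun c hc => ?_⟩
  · have := K.mass c hc
    unfold krm at this ⊢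
    rwa [e1, ec c hc] at this
  · have h1 := K.exit c hc
    have h2 : exm w p g' D e c = exm w p g D e c := by
      unfold exm
      refine sum_congr rfl fun i _ => sum_congr rfl fun y _ => ?_
      by_cases h3 : (c.1 + i, y) ∈ Dᶜ
      · rw [if_pos h3, if_pos h3, h (c.1 + i) y fun hB => h3 (G.BD hB)]
      · rw [if_neg h3, if_neg h3]
    rw [h2, ← ec c hc]
    exact h1

theorem Sz.congr (G : Reg D Dp B a e) {g' : ℕ → ℤ → ℝ} (h : ∀ k y, (k, y) ∉ B → g k y = g' k y)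
    (S : Sz w p g e F D Dp B a U Q F₀) : Sz w p g' e F D Dp B a U Q F₀ := by
  refine ⟨S.nn, fun c hc => ?_, fun c hc => ?_⟩
  · rw [← h c.1 c.2 hc.2.1]
    exact S.lo c hc
  · have hcB : (c.1, c.2) ∉ B := by
      rintro hB
      rcases hc.2 with ⟨_, _, h⟩ | h
      · exact h (G.BD hB)
      · exact absurd (G.rows _ _ hB).2 (by omega)
    rw [← h c.1 c.2 hcB]
    exact S.up c hc

end

end Pool.Agent.W_7d29a1_C1.Rt22
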