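import Pool.Agent.W_7d29a1_C1.SepF98
import Pool.Agent.W_7d29a1_C1.GeoT37
import Pool.Agent.W_7d29a1_C1.Rat22
import Pool.Agent.W_7d29a1_C1.Osc22
import Pool.Agent.W_7d29a1_C1.FaAv25
import Pool.Agent.W_7d29a1_C1.MovS9

/-!
Both halves (MP_7d29a1_pr), [C1] attractor route, SEP: THE POSITION OF A CHANGED WINDOW AGAINST A SLAB (helper25)

`Pos G q u κ v κ'` : the three positions `mid`, `out`, `low` of the window `(u, κ)` against the slab `(v, κ')`, `u + q ≤ v`.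
`Stb` : the statement which every set of the typical event owes. `pos_nb` : the targets of a cell. `pos_Rc` : the own slabs of the
chains from a contact. `stp25` : the field `stp` of `In98`.
-/

set_option autoImplicit false

namespace Pool.Agent.W_7d29a1_C1.P25

open Finset MeasureTheory
open Pool.Agent.W_7d29a1_F
open Pool.Agent.W_7d29a1_C1.K91 (wt)
open Pool.Agent.W_7d29a1_C1.S71 (Off)
open Pool.Agent.W_7d29a1_C1.H60
open Pool.Agent.W_7d29a1_C1.H40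
open Pool.Agent.W_7d29a1_C1.G37 (Gm)
open Pool.Agent.W_7d29a1_C1.FA25 (la la_nonneg w_pow)
open Pool.Agent.W_7d29a1_C1.SF98
open scoped ENNReal

noncomputable section

/-- **THE POSITION** of the changed window `(u, κ)` against the slab `(v, κ')`. -/
inductive Pos (G : Gm) (q u : ℕ) (κ : ℤ × ℤ) (v : ℕ) (κ' : ℤ × ℤ) : Prop
  | mid (h : u + q ≤ v) (hr : G.re u κ < G.ra v κ') (hl : |G.ctr u κ - G.ctr v κ'| ≤ 2 * G.w v) : Pos G q u κ v κ'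
  | out (h : u + q ≤ v) (hr : G.re u κ < G.ra v κ') (hl : (2 * G.kn - 2) * G.w v ≤ |G.ctr u κ - G.ctr v κ'|) : Pos G q u κ v κ'
  | low (h : u + q ≤ v) (hr : G.re v κ' < G.ra u κ) : Pos G q u κ v κ'

/-- The ratio of one window: no site of the window is read. -/
abbrev RoW (Γ : Cx) (G : Gm) (u : ℕ) (κ : ℤ × ℤ) (d : ℝ) (ω ω' : Env) : Prop :=
  Rt22.Ro (wt ω) (wt ω') Γ.p Γ.N (O22.Bw G u κ) (Real.exp d)

/-- **WHAT EVERY SET OWES.** -/
structure Stb (Γ : Cx) (G : Gm) (mt q τ0 : ℕ) (dR d smax : ℕ → ℝ) (F : ℝ → ℕ → ℤ × ℤ → Set Env) : Prop where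
  meas : ∀ sg u κ, MeasurableSet (F sg u κ)
  mono : ∀ sg sg' u κ, sg ≤ sg' → F sg u κ ⊆ F sg' u κ
  tr : ∀ u κ v κ', τ0 < u → v < G.M → (∃ c ∈ FS Γ G mt, G.loc u c = κ) → (∃ c ∈ FS Γ G mt, G.loc v c = κ') →
    Pos G q u κ v κ' → ∀ ω η, RoW Γ G u κ (dR u) ω (G.R u κ η ω) → ∀ sg, sg + 2 * d u ≤ smax v →
      ω ∈ F sg v κ' → G.R u κ η ω ∈ F (sg + 2 * d u) v κ'

/-! ### The targets of a cell -/

section Geometry

variable {G : Gm}

/-- **The targets of a cell.** -/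
theorem pos_nb {q u v : ℕ} (hq : 2 ≤ q) (hkb : G.kb ≤ 2 ^ q) (huv : u + q ≤ v) {κ : ℤ × ℤ} (h0 : 0 ≤ G.rcc u κ) {ρ : ℕ × ℤ}
    (h : G.Nb u κ ρ) :
    Pos G q u κ v (G.loc v ρ) := by
  have h1 := h.2.2
  have h2 := G.lat_ctr v ρ
  have h3 := G.g_le v
  have h4 : 2 ^ q * G.w u ≤ G.w v := (w_pow (G := G) u q).trans (G.w_mono huv)
  have h5 := mul_le_mul_of_nonneg_right hkb (G.w_pos u).le
  refine Pos.mid huv ?_ ?_
  · have a1 := G.re_cast h0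
    have a2 := G.rcc_nb (show u ≤ v by omega) h
    have a3 := G.ra_cast (h0.trans a2)
    have a4 := G.T_lt8 (show u < v - 1 by omega)
    have a5 := G.T_pos' u
    have a6 : (G.re u κ : ℤ) < G.ra v (G.loc v ρ) := by linarith
    exact_mod_cast a6
  have h6 : |G.ctr u κ - G.ctr v (G.loc v ρ)| ≤ |G.ctr u κ - G.lat ρ| + |G.lat ρ - G.ctr v (G.loc v ρ)| := abs_sub_le _ _ _
  rw [abs_sub_comm (G.ctr u κ) (G.lat ρ)] at h6
  linarith [G.w_pos v]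

/-- Rows of a window with the target `y`. -/
theorem nb_rows {u : ℕ} {κ : ℤ × ℤ} (h0 : 0 ≤ G.rcc u κ) {y : ℕ × ℤ} (h : G.Nb u κ y) :
    (G.re u κ : ℤ) ≤ y.1 + G.T (u - 2) + G.T u + 1 ∧ (y.1 : ℤ) - G.T u + G.T (u - 1) + 1 < G.ra u κ := by
  have h1 := G.re_cast h0
  have h2 := G.ra_cast h0
  have h3 := G.rcc_eq u κ
  have h4 : G.lo u κ ≤ (y.1 : ℤ) := h.1
  have h5 := h.2.1
  constructor <;> linarith

/-- Rows of the window of a site. -/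
theorem ra_ge (v : ℕ) (c : ℕ × ℤ) : (c.1 : ℤ) + G.T (v - 1) + 2 ≤ G.ra v (G.loc v c) := by
  have h1 := G.ra_cast (G.rcc_pos v c).le
  have h2 := G.lt_rcc v c
  linarith

/-- The invariant of the chains: `x` is reached from `y` at the stage `τ`. -/
def Cl (G : Gm) (y : ℕ × ℤ) (τ : ℕ) (x : ℕ × ℤ) : Prop :=
  x.1 ≤ y.1 ∧ (y.1 : ℤ) - x.1 ≤ 4 * G.T (τ + 1 - G.m2) ∧ |G.lat y - G.lat x| ≤ la G * G.w (τ + 1 - G.m2)

theorem Cl.self (y : ℕ × ℤ) (τ : ℕ) : Cl G y τ y := by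
  have h1 := G.T_pos' (τ + 1 - G.m2)
  refine ⟨le_rfl, by linarith, ?_⟩
  rw [sub_self, abs_zero]
  exact mul_nonneg la_nonneg (G.w_pos _).le

theorem Cl.mono {y x : ℕ × ℤ} {τ τ' : ℕ} (h : Cl G y τ x) (hτ : τ ≤ τ') : Cl G y τ' x := by
  have h1 := G.T_mono' (show τ + 1 - G.m2 ≤ τ' + 1 - G.m2 by omega)
  have h2 := G.w_mono (show τ + 1 - G.m2 ≤ τ' + 1 - G.m2 by omega)
  exact ⟨h.1, h.2.1.trans (by linarith), h.2.2.trans (mul_le_mul_of_nonneg_left h2 la_nonneg)⟩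

/-- One move. -/
theorem Cl.move {y x p q' : ℕ × ℤ} {τ s i j : ℕ} (h : Cl G y τ x) (hτ : τ ≤ i) (hs : s < i) (hj : j < G.M) (hr : G.relj i j x p)
    (hn : G.Nb s (G.loc s p) q') : Cl G y (j + G.m2) q' := by
  have hij := hr.1
  have hm := G.m2_ge
  have e1 : j + G.m2 + 1 - G.m2 = j + 1 := by omega
  obtain ⟨a1, a2, a3⟩ := h
  obtain ⟨m1, m2⟩ := hr.move_row (by omega) hs hn
  have m3 := hr.move_lat hj hs hn
  have t1 := G.T_mono' (show i + 1 ≤ j + 1 by omega)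
  have t2 : 4 * (G.T (τ + 1 - G.m2) : ℤ) ≤ G.T (j + 1) := by
    have h1 := G.T_lt8 (show j < j + 1 by omega)
    have h2 := G.T_mono' (show τ + 1 - G.m2 ≤ j by omega)
    have h3 := G.T_pos' j
    linarith
  have w1 : 2 * G.w (τ + 1 - G.m2) ≤ G.w (j + 1) :=
    (mul_le_mul_of_nonneg_left (G.w_mono (show τ + 1 - G.m2 ≤ j by omega)) (by norm_num)).trans (G.w_two j)
  refine ⟨?_, ?_, ?_⟩
  · omega
  · rw [e1]
    linarith
  · rw [e1]
    have h1 : |G.lat y - G.lat q'| ≤ |G.lat y - G.lat x| + |G.lat x - G.lat q'| := abs_sub_le _ _ _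
    have h2 := mul_le_mul_of_nonneg_left w1 (la_nonneg (G := G))
    have h3 : la G * G.w (j + 1) = 2 * ((G.kn + 2 * G.kb) * G.w (j + 1)) := by unfold la; ring
    have h4 : la G * (2 * G.w (τ + 1 - G.m2)) = 2 * (la G * G.w (τ + 1 - G.m2)) := by ring
    rw [h4] at h2
    linarith

variable {F : Finset (ℕ × ℤ)} {la' m3 : ℕ} {W : Set {c // c ∈ F}}

/-- The next centre. -/
theorem cl_next {y x : {c // c ∈ F}} {τ : ℕ} {d : SJ {c // c ∈ F}} (h : (G.rjG F la' m3 W).Ok x τ d) (hx : Cl G y.1 τ x.1)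
    (hj : d.j < G.M) : Cl G y.1 (d.j + G.m2) (RJ.nxc x d).1 := by
  obtain ⟨g1, g2, g3, g4, g5, g6, g7, g8, g9, g10⟩ := h
  by_cases hk : d.k = Kd.move
  · have e : RJ.nxc x d = d.q := if_pos hk
    rw [e]
    obtain ⟨r1, r2⟩ := g10 (by rw [hk]; simp)
    exact hx.move (show τ ≤ d.i by omega) g3 hj r1 ((G.mem_nb).1 r2)
  · have e : RJ.nxc x d = x := if_neg hk
    rw [e]
    exact hx.mono (by omega)

/-- The centres of a chain. -/
theorem isC_cl {y x : {c // c ∈ F}} {τ : ℕ} {l : List (SJ {c // c ∈ F})} (h : (G.rjG F la' m3 W).IsC x τ l) (hx : Cl G y.1 τ x.1)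
    {c : SJ {c // c ∈ F}} (hc : c ∈ l) : ∃ z τ', τ ≤ τ' ∧ (G.rjG F la' m3 W).Ok z τ' c ∧ Cl G y.1 τ' z.1 := by
  induction l generalizing x τ with
  | nil => exact absurd hc (by simp)
  | cons d l ih =>
    rcases List.mem_cons.1 hc with rfl | hc
    · exact ⟨x, τ, le_rfl, h.1, hx⟩
    · obtain ⟨h1, h2⟩ := h
      have hg : (G.rjG F la' m3 W).g = G.m2 := rfl
      have hM : (G.rjG F la' m3 W).m = G.M := rfl
      have hm := G.m2_ge
      have hnext : d.j < G.M := by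
        cases l with
        | nil => exact absurd hc (by simp)
        | cons e l =>
          obtain ⟨k1, k2, k3, k4, -, k6, -⟩ := h2.1
          rw [hg] at k1
          rw [hM] at k6
          omega
      have key := cl_next h1 hx hnext
      rw [hg] at h2
      obtain ⟨z, τ', a1, a2, a3⟩ := ih h2 key hc
      obtain ⟨g1, g2, g3, g4, -⟩ := h1
      exact ⟨z, τ', by omega, a2, a3⟩

/-- **The own slabs of the chains from `(y, τ)`**: position of the window `(u, κ)` of which `y` is a target. -/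
theorem pos_Rc {q : ℕ} (hq : q ≤ G.m2 + 1) (hm3 : 3 ≤ m3) (hm2 : la G + G.kw + G.kb + 2 ≤ 2 ^ (G.m2 - 1)) {y ρ : {c // c ∈ F}}
    {τ v u : ℕ} (h : (G.rjG F la' m3 W).Rc y τ v ρ) (hu : u + G.m2 < τ) {κ : ℤ × ℤ} (h0 : 0 ≤ G.rcc u κ) (hy : G.Nb u κ y.1) :
    Pos G q u κ v (G.loc v ρ.1) := by
  obtain ⟨l, c, h1, h2, h3⟩ := h
  obtain ⟨x, τ', hτ, ⟨g1, g2, g3, g4, g5, g6, g7, g8, g9, g10⟩, a1, a2, a3⟩ := isC_cl h1 (Cl.self y.1 τ) h2
  have hm := G.m2_ge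
  have hM : (G.rjG F la' m3 W).m = G.M := rfl
  have hm3' : (G.rjG F la' m3 W).m3 = m3 := rfl
  rw [hM] at g6
  rw [hm3'] at h3
  obtain ⟨n1, n2⟩ := nb_rows h0 hy
  have n3 := G.T_mono' (show u - 2 ≤ u by omega)
  have n4 := G.T_pos' (u - 1)
  have n5 := G.T_pos' u
  have b1 := G.T_lt8 (show u < τ' - 2 by omega)
  have b2 := G.T_lt8 (show τ' - 2 < τ' - 1 by omega)
  have b3 := G.T_mono' (show τ' + 1 - G.m2 ≤ τ' - 2 by omega)
  have w0 := G.w_pos u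
  have w1 : la G * G.w (τ' + 1 - G.m2) + G.kb * G.w u ≤ G.w τ' := by
    have h4 : 2 ^ (G.m2 - 1) * G.w (τ' + 1 - G.m2) ≤ G.w τ' :=
      (w_pow (G := G) (τ' + 1 - G.m2) (G.m2 - 1)).trans (G.w_mono (by omega))
    have h5 := mul_le_mul_of_nonneg_right hm2 (G.w_pos (τ' + 1 - G.m2)).le
    have h6 : G.kb * G.w u ≤ G.kb * G.w (τ' + 1 - G.m2) :=
      mul_le_mul_of_nonneg_left (G.w_mono (by omega)) (by linarith [G.kb_ge])
    have h7 := mul_nonneg G.kw_nonneg (G.w_pos (τ' + 1 - G.m2)).le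
    have h8 : (la G + G.kw + G.kb + 2) * G.w (τ' + 1 - G.m2) =
      la G * G.w (τ' + 1 - G.m2) + G.kw * G.w (τ' + 1 - G.m2) + G.kb * G.w (τ' + 1 - G.m2) + 2 * G.w (τ' + 1 - G.m2) := by ring
    linarith [G.w_pos (τ' + 1 - G.m2)]
  have w2 : |G.ctr u κ - G.lat x.1| ≤ G.w τ' := by
    have h4 : |G.ctr u κ - G.lat x.1| ≤ |G.ctr u κ - G.lat y.1| + |G.lat y.1 - G.lat x.1| := abs_sub_le _ _ _
    rw [abs_sub_comm (G.ctr u κ) (G.lat y.1)] at h4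
    linarith [hy.2.2]
  -- the slab of the centre itself
  have mid : ∀ {v : ℕ}, τ' ≤ v → Pos G q u κ v (G.loc v x.1) := by
    intro v hv
    refine Pos.mid (by omega) ?_ ?_
    · have h4 := ra_ge (G := G) v x.1
      have h5 := G.T_mono' (show τ' - 1 ≤ v - 1 by omega)
      have h6 : (G.re u κ : ℤ) < G.ra v (G.loc v x.1) := by linarith
      exact_mod_cast h6
    · have h4 := G.lat_ctr v x.1
      have h5 := G.g_le v
      have h6 := G.w_mono hv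
      have h7 : |G.ctr u κ - G.ctr v (G.loc v x.1)| ≤ |G.ctr u κ - G.lat x.1| + |G.lat x.1 - G.ctr v (G.loc v x.1)| :=
        abs_sub_le _ _ _
      linarith
  by_cases hk : c.k = Kd.stay
  · obtain ⟨e1, e2, e3⟩ := g9 hk
    rcases h3 with ⟨rfl, h13, h14⟩ | ⟨rfl, h13, h14⟩ | ⟨rfl, h13, h14⟩
    · rw [e1]
      exact mid (by omega)
    · rw [e2]
      exact mid (by omega)
    · omega
  · obtain ⟨r1, r2⟩ := g10 hk
    have r1' : G.relj c.i c.j x.1 c.p.1 := r1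
    have r3 : (G.T c.i : ℤ) ≤ (x.1.1 : ℤ) - c.p.1.1 := r1'.2.2.1
    have r4 := G.drJ r2
    have t1 := G.T_lt8 (show u < c.i by omega)
    have a1' : (x.1.1 : ℤ) ≤ y.1.1 := by exact_mod_cast a1
    rcases h3 with ⟨rfl, h13, h14⟩ | ⟨rfl, h13, h14⟩ | ⟨rfl, h13, h14⟩
    · refine Pos.low (by omega) ?_
      have h4 : (G.re v (G.loc v c.p.1) : ℤ) ≤ c.p.1.1 + 2 * G.T v + 1 := by exact_mod_cast G.re_le v c.p.1
      have h5 := G.T_lt8 (show v < c.i by omega)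
      have h6 : (G.re v (G.loc v c.p.1) : ℤ) < G.ra u κ := by linarith [G.T_pos' v]
      exact_mod_cast h6
    · refine Pos.low (by omega) ?_
      have h4 : (G.re v (G.loc v c.q.1) : ℤ) ≤ c.q.1.1 + 2 * G.T v + 1 := by exact_mod_cast G.re_le v c.q.1
      have h5 := G.T_lt8 (show v < c.i by omega)
      have h7 := G.T_lt8 (show c.s < c.i by omega)
      have h8 := r4.2.1
      have h6 : (G.re v (G.loc v c.q.1) : ℤ) < G.ra u κ := by linarith [G.T_pos' v]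
      exact_mod_cast h6
    · have hiM : c.i < G.M := by omega
      have r5 := r1'.2.2.2.1 hiM
      refine Pos.out (by omega) ?_ ?_
      · have h4 := ra_ge (G := G) v c.p.1
        have h5 := G.T_mono' (show c.i + 2 ≤ v - 1 by omega)
        have h7 := G.T_lt8 (show c.i + 1 < c.i + 2 by omega)
        have h8 := G.T_mono' (show τ' - 1 ≤ c.i + 1 by omega)
        have h6 : (G.re u κ : ℤ) < G.ra v (G.loc v c.p.1) := by linarith [G.T_pos' (c.i + 1)]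
        exact_mod_cast h6
      · have h4 := r1'.far (show c.i ≤ v by omega) h14
        have h5 := G.lat_ctr v c.p.1
        have h6 := G.g_le v
        have h7 := G.w_mono (show τ' ≤ v by omega)
        have h8 := mul_le_mul_of_nonneg_left (G.w_two v) G.kn_nonneg
        have h9 : |G.lat x.1 - G.lat c.p.1| ≤
            |G.lat x.1 - G.ctr u κ| + |G.ctr u κ - G.ctr v (G.loc v c.p.1)| + |G.ctr v (G.loc v c.p.1) - G.lat c.p.1| :=
          (abs_sub_le _ (G.ctr v (G.loc v c.p.1)) _).trans (add_le_add (abs_sub_le _ _ _) le_rfl)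
        rw [abs_sub_comm (G.lat x.1) (G.ctr u κ), abs_sub_comm (G.ctr v (G.loc v c.p.1)) (G.lat c.p.1)] at h9
        have e : (2 * G.kn - 2) * G.w v = G.kn * (2 * G.w v) - 2 * G.w v := by ring
        rw [e]
        linarith [G.w_pos v]

end Geometry

/-! ### The four sets together -/

section Four

variable {Γ : Cx} {G : Gm} {mt q τ0 : ℕ} {dR d smax : ℕ → ℝ}

/-- The typical event. -/
abbrev TT25 (Lv : ℕ → ℤ × ℤ → Set Env) (Ou St Fw : ℝ → ℕ → ℤ × ℤ → Set Env) : ℝ → ℕ → ℤ × ℤ → Set Env :=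
  Ms9.TT (K := fun _ => ℤ × ℤ) Lv Ou St Fw

theorem Stb.inter {F F' : ℝ → ℕ → ℤ × ℤ → Set Env} (h : Stb Γ G mt q τ0 dR d smax F) (h' : Stb Γ G mt q τ0 dR d smax F') :
    Stb Γ G mt q τ0 dR d smax (fun sg u κ => F sg u κ ∩ F' sg u κ) where
  meas sg u κ := (h.meas sg u κ).inter (h'.meas sg u κ)
  mono sg sg' u κ hs := Set.inter_subset_inter (h.mono sg sg' u κ hs) (h'.mono sg sg' u κ hs)
  tr u κ v κ' h1 h2 h3 h4 h5 ω η h6 sg h7 h8 :=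
    ⟨h.tr u κ v κ' h1 h2 h3 h4 h5 ω η h6 sg h7 h8.1, h'.tr u κ v κ' h1 h2 h3 h4 h5 ω η h6 sg h7 h8.2⟩

theorem Stb.tt {Lv : ℕ → ℤ × ℤ → Set Env} {Ou St Fw : ℝ → ℕ → ℤ × ℤ → Set Env} (h0 : Stb Γ G mt q τ0 dR d smax fun _ => Lv)
    (h1 : Stb Γ G mt q τ0 dR d smax Ou) (h2 : Stb Γ G mt q τ0 dR d smax St) (h3 : Stb Γ G mt q τ0 dR d smax Fw) :
    Stb Γ G mt q τ0 dR d smax (TT25 Lv Ou St Fw) := h0.inter (h1.inter (h2.inter h3))

/-- Windows of the three positions are disjoint. -/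
theorem Pos.win_disj {u v : ℕ} {κ κ' : ℤ × ℤ} (h : Pos G q u κ v κ') (h0 : 0 ≤ G.rcc u κ) (h0' : 0 ≤ G.rcc v κ') :
    Disjoint (G.win u κ) (G.win v κ') := by
  have e1 := G.re_cast h0
  have e2 := G.ra_cast h0
  have e3 := G.re_cast h0'
  have e4 := G.ra_cast h0'
  rw [Set.disjoint_left]
  intro p h1 h2
  have h3 := G.win_rows h1
  have h4 := G.win_rows h2
  cases h with
  | mid _ hr _ =>
    have : (G.re u κ : ℤ) < G.ra v κ' := by exact_mod_cast hr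
    linarith [h3.2, h4.1]
  | out _ hr _ =>
    have : (G.re u κ : ℤ) < G.ra v κ' := by exact_mod_cast hr
    linarith [h3.2, h4.1]
  | low _ hr =>
    have : (G.re v κ' : ℤ) < G.ra u κ := by exact_mod_cast hr
    linarith [h3.1, h4.2]

/-- **An event of the content of the window.** -/
theorem Stb.off {Lv : ℕ → ℤ × ℤ → Set Env} (hm : ∀ u κ, MeasurableSet (Lv u κ)) (ho : ∀ v κ, Off (G.win v κ)ᶜ (Lv v κ)) :
    Stb Γ G mt q τ0 dR d smax fun _ => Lv where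
  meas _ u κ := hm u κ
  mono _ _ _ _ _ := le_rfl
  tr u κ v κ' _ _ h3 h4 h5 ω η _ _ _ h8 := by
    obtain ⟨c, -, hc⟩ := h3
    obtain ⟨c', -, hc'⟩ := h4
    have hd := h5.win_disj (G.rcc_nonneg ⟨c, hc⟩) (G.rcc_nonneg ⟨c', hc'⟩)
    have hsub : G.win u κ ⊆ (G.win v κ')ᶜ := fun p h1 h2 => Set.disjoint_left.1 hd h1 h2
    exact (((ho v κ').mono hsub).gl η ω).2 h8

/-- The rows `[ra - 1, re]` of the slab `(v, κ')` do not meet the changed window. -/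
theorem Pos.rows25 {u v : ℕ} {κ κ' : ℤ × ℤ} (h : Pos G q u κ v κ') (h0 : 0 ≤ G.rcc u κ) {p : Pt} (hp : p ∈ G.win u κ) :
    ¬ ((G.ra v κ' : ℤ) - 1 ≤ p.1 ∧ p.1 ≤ G.re v κ') := by
  have e1 := G.re_cast h0
  have e2 := G.ra_cast h0
  have h3 := G.win_rows hp
  rintro ⟨a1, a2⟩
  cases h with
  | mid _ hr _ =>
    have : (G.re u κ : ℤ) + 1 ≤ G.ra v κ' := by exact_mod_cast hr
    linarith [h3.2]
  | out _ hr _ =>
    have : (G.re u κ : ℤ) + 1 ≤ G.ra v κ' := by exact_mod_cast hr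
    linarith [h3.2]
  | low _ hr =>
    have : (G.re v κ' : ℤ) + 1 ≤ G.ra u κ := by exact_mod_cast hr
    linarith [h3.1]

/-- **An event of the rows `[ra - 1, re]`** (all columns). -/
theorem Stb.rows25 {Lv : ℕ → ℤ × ℤ → Set Env} (hm : ∀ u κ, MeasurableSet (Lv u κ))
    (ho : ∀ v κ, Off {p : Pt | ¬ ((G.ra v κ : ℤ) - 1 ≤ p.1 ∧ p.1 ≤ G.re v κ)} (Lv v κ)) :
    Stb Γ G mt q τ0 dR d smax fun _ => Lv where
  meas _ u κ := hm u κ
  mono _ _ _ _ _ := le_rfl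
  tr u κ v κ' _ _ h3 _ h5 ω η _ _ _ h8 := by
    obtain ⟨c, -, hc⟩ := h3
    exact (((ho v κ').mono fun p hp => h5.rows25 (G.rcc_nonneg ⟨c, hc⟩) hp).gl η ω).2 h8

/-! ### The ratio of one window and the field `stp` -/

/-- **THE RATIO OF ONE WINDOW**: old content typical, new content in `L`. -/
def RatW (Γ : Cx) (G : Gm) (mt τ0 : ℕ) (dR smax : ℕ → ℝ) (TT : ℝ → ℕ → ℤ × ℤ → Set Env) (L : ℕ → ℤ × ℤ → Set Env) : Prop :=
  ∀ u κ, τ0 < u → u < G.M → (∃ c ∈ FS Γ G mt, G.loc u c = κ) → ∀ ω ∈ Tx TT smax u κ, ∀ η, G.R u κ η ω ∈ L u κ →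
    RoW Γ G u κ (dR u) ω (G.R u κ η ω)

variable {TT : ℝ → ℕ → ℤ × ℤ → Set Env} {L : ℕ → ℤ × ℤ → Set Env} {sl : ℕ → ℝ}

theorem mem_loc {u : ℕ} (κ : KS Γ G mt u) : ∃ c ∈ FS Γ G mt, G.loc u c = κ.1 := mem_image.1 κ.2

/-- **`stp` of `In98`.** -/
theorem stp25 (S : Stb Γ G mt q τ0 dR d smax TT) (R : RatW Γ G mt τ0 dR smax TT L) (hq : 2 ≤ q) (hkb : G.kb ≤ 2 ^ q) :
    ∀ u v, τ0 < u → u + q ≤ v → v < G.M → ∀ (κ : KS Γ G mt u), ∀ ρ ∈ G.nb (FS Γ G mt) u κ, ∀ σ, sl (v - 1) ≤ σ →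
    σ + 2 * d u ≤ smax v → ∀ ω ∈ Tx TT smax u κ.1, ∀ η, G.R u κ.1 η ω ∈ L u κ.1 → ω ∈ TT σ v (G.loc v ρ.1) →
      G.R u κ.1 η ω ∈ TT (σ + 2 * d u) v (G.loc v ρ.1) := by
  intro u v h1 h2 h3 κ ρ hρ σ _ hσ ω hω η hη hv
  obtain ⟨c, -, hc⟩ := mem_loc κ
  exact S.tr u κ.1 v _ h1 h3 (mem_loc κ) ⟨ρ.1, ρ.2, rfl⟩ (pos_nb hq hkb h2 (G.rcc_nonneg ⟨c, hc⟩) ((G.mem_nb).1 hρ)) ω η
    (R u κ.1 h1 (by omega) (mem_loc κ) ω hω η hη) σ hσ hv

/-- **The own slabs of the chains**: what the potential asks. -/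
theorem slabs25 (S : Stb Γ G mt q τ0 dR d smax TT) (R : RatW Γ G mt τ0 dR smax TT L) (hq : q ≤ G.m2 + 1)
    (hm2 : la G + G.kw + G.kb + 2 ≤ 2 ^ (G.m2 - 1)) {la' m3 : ℕ} (hm3 : 3 ≤ m3) {W : Set (XS Γ G mt)} {u τ : ℕ} (hu0 : τ0 < u)
    (hu : u + G.m2 < τ) (hτ : τ ≤ G.M + G.m2) {κ : ℤ × ℤ} (hκ : ∃ c ∈ FS Γ G mt, G.loc u c = κ) {y : XS Γ G mt} (hy : G.Nb u κ y.1)
    {ω : Env} (hω : ω ∈ Tx TT smax u κ) {η : Env} (hη : G.R u κ η ω ∈ L u κ) {sg : ℝ} (hsg : ∀ v, τ ≤ v → sg + 2 * d u ≤ smax v) {v : ℕ}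
    {ρ : XS Γ G mt} (hR : (G.rjG (FS Γ G mt) la' m3 W).Rc y τ v ρ) (hv : ω ∈ TT sg v (G.loc v ρ.1)) :
    G.R u κ η ω ∈ TT (sg + 2 * d u) v (G.loc v ρ.1) := by
  obtain ⟨s1, s2, s3⟩ := hR.spec
  have hM : (G.rjG (FS Γ G mt) la' m3 W).m = G.M := rfl
  rw [hM] at s3
  have hκ' : ∃ c ∈ FS Γ G mt, G.loc u c = κ := hκ
  obtain ⟨c, -, hc⟩ := hκ
  exact S.tr u κ v _ hu0 s3 hκ' ⟨ρ.1, ρ.2, rfl⟩ (pos_Rc hq hm3 hm2 hR hu (G.rcc_nonneg ⟨c, hc⟩) hy) ω η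
    (R u κ hu0 (by omega) hκ' ω hω η hη) sg (hsg v s2) hv

end Four

end

end Pool.Agent.W_7d29a1_C1.P25
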