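import Pool.Agent.W_7d29a1_C1.Ou37
import Pool.Agent.W_7d29a1_C1.Pos25

/-!
MP_7d29a1_pr, [C1] attractor route, SEP: `Stb` OF THE SET `Ou` (tame and doubling). (helper37)

The normalised mass of a site does not read its own weight, hence for a window `(u, κ)` with `re u κ ≤ ra v κ'` the set `Ou` of the slab
`(v, κ')` (rows `[ra - 1, re]`) is exactly the same; for a window above it moves by `2 dR u`.
-/

set_option autoImplicit false

namespace Pool.Agent.W_7d29a1_C1.Ou37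

open Finset MeasureTheory
open Pool.Agent.W_7d29a1_F hiding Bw G
open Pool.Agent.W_7d29a1_h4g Pool.Agent.W_7d29a1_HS
open Pool.Agent.W_7d29a1_H hiding ex gg
open Pool.Agent.W_7d29a1_C1.K91 (wt wt_pos measurable_wt)
open Pool.Agent.W_7d29a1_C1.K91P (fw bw bw_pos bw_succ bw_zero)
open Pool.Agent.W_7d29a1_C1.U16 (bh16 bw_bh16)
open Pool.Agent.W_7d29a1_C1.FarW89 (bl)
open Pool.Agent.W_7d29a1_C1.H60
open Pool.Agent.W_7d29a1_C1.G37 (Gm)
open Pool.Agent.W_7d29a1_C1.O22 (Bw)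
open Pool.Agent.W_7d29a1_C1.Rt22
open Pool.Agent.W_7d29a1_C1.P25
open Pool.Agent.W_7d29a1_C1.SF98 (FS mem_FS)

noncomputable section

variable {μ : Measure ℝ} {s : ℝ} {Γ : Cx} {G : Gm}

/-- The normalised mass does not read the own weight. -/
theorem bn_succ {k : ℕ} (hk : k < Γ.N) (y : ℤ) (ω : Env) : bn μ s Γ k y ω =
    (bw (wt ω) Γ.p (k + 1) (Γ.N - (k + 1)) y + Γ.p k * bw (wt ω) Γ.p (k + 1) (Γ.N - (k + 1)) (y + 1)) / gam μ s Γ k y := by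
  rw [bn_eq]
  have e : Γ.N - k = Γ.N - (k + 1) + 1 := by omega
  rw [e, bw_succ]
  unfold gg
  exact mul_div_mul_left _ _ (wt_pos ω k y).ne'

/-- It reads the rows beyond only. -/
theorem bn_congr {k : ℕ} (hk : k < Γ.N) {ω ω' : Env} (h : ∀ i, k < i → wt ω' i = wt ω i) (y : ℤ) : bn μ s Γ k y ω' = bn μ s Γ k y ω := by
  have e : ∀ z, bw (wt ω') Γ.p (k + 1) (Γ.N - (k + 1)) z = bw (wt ω) Γ.p (k + 1) (Γ.N - (k + 1)) z := fun z =>
    K91P.bw_congr (w := wt ω') (w' := wt ω) (Γ.N - (k + 1)) (k + 1) (fun i hi z => by rw [h i (by omega)]) z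
  rw [bn_succ hk, bn_succ hk, e, e]

variable {E : ℕ → ℝ} {R Q' Q4 sgm sg : ℝ} {u : ℕ} {κ : ℤ × ℤ}

/-- **Congruence of `Ou`.** -/
theorem Ou_congr (hN : G.re u κ ≤ Γ.N) {ω ω' : Env} (h : ∀ i, G.ra u κ ≤ i → wt ω' i = wt ω i)
    (hω : ω ∈ Ou μ s Γ G E R Q' Q4 sgm sg u κ) : ω' ∈ Ou μ s Γ G E R Q' Q4 sgm sg u κ := by
  have hr := G.ra_le_re u κ
  have key : ∀ (k : ℕ) (y : ℤ), G.ra u κ ≤ k + 1 → k ≤ G.re u κ → bn μ s Γ k y ω' = bn μ s Γ k y ω := by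
    intro k y h1 h2
    rcases Nat.lt_or_ge k Γ.N with h3 | h3
    · exact bn_congr h3 (fun i hi => h i (by omega)) y
    · -- `k = re = N`: the row `re` is beyond the window
      have h4 : G.ra u κ ≤ k := by omega
      have e : bw (wt ω') Γ.p k (Γ.N - k) y = bw (wt ω) Γ.p k (Γ.N - k) y := by
        rw [Nat.sub_eq_zero_of_le h3, bw_zero, bw_zero]
      rw [bn_eq, bn_eq, e]
      unfold gg
      rw [h k h4]
  obtain ⟨h1, h2⟩ := hω
  refine ⟨fun c hc c' hc' => ?_, fun y y₀ h3 => ?_⟩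
  · rw [key c.1 c.2 hc.1 hc.2.1, key c'.1 c'.2 hc'.1 hc'.2.1]
    exact h1 c hc c' hc'
  · rw [key _ y (by omega) le_rfl, key _ y₀ (by omega) le_rfl]
    exact h2 y y₀ h3

/-- **A window below is changed (touching allowed): exact.** -/
theorem Ou_below' {v : ℕ} {κ' : ℤ × ℤ} (h0 : 0 ≤ G.rcc v κ') (hr : G.re v κ' ≤ G.ra u κ) (hN : G.re u κ ≤ Γ.N) {η ω : Env}
    (h : ω ∈ Ou μ s Γ G E R Q' Q4 sgm sg u κ) : G.R v κ' η ω ∈ Ou μ s Γ G E R Q' Q4 sgm sg u κ :=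
  Ou_congr hN (fun _ hi => Gm.wt_R_ge h0 (hr.trans hi) η ω) h

/-- The rows of a slab of a contact. -/
theorem re_le_N {mt v : ℕ} (hM : G.M ≤ mt) (hv : v < G.M) {κ' : ℤ × ℤ} (h : ∃ c ∈ FS Γ G mt, G.loc v c = κ') : G.re v κ' ≤ Γ.N := by
  obtain ⟨c, hc, rfl⟩ := h
  have h1 := (mem_FS.1 hc).2
  have h2 := G.re_lt_of_Wr (u := v) (mt := mt) (N := Γ.N) (by omega) h1
  omega

/-- **`Stb` OF `Ou`.** -/
theorem stb_Ou {mt q τ0 : ℕ} {dR d smax : ℕ → ℝ} (hM : G.M ≤ mt) (hd : ∀ u, dR u ≤ d u) (hd0 : ∀ u, 0 ≤ d u) :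
    Stb Γ G mt q τ0 dR d smax (fun sg u κ => Ou μ s Γ G E R Q' Q4 sgm sg u κ) where
  meas sg u κ := meas_Ou
  mono sg sg' u κ h := Ou_mono h
  tr u κ v κ' h1 h2 h3 h4 h5 ω η hR sg hsg hω := by
    obtain ⟨c, -, hc⟩ := h3
    have h0 : 0 ≤ G.rcc u κ := G.rcc_nonneg ⟨c, hc⟩
    have hN := re_le_N hM h2 h4
    have hdu := hd0 u
    cases h5 with
    | mid _ hr _ => exact Ou_mono (by linarith) (Ou_below' h0 (by omega) hN hω)
    | out _ hr _ => exact Ou_mono (by linarith) (Ou_below' h0 (by omega) hN hω)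
    | low _ hr =>
      refine Ou_mono (sg := sg + 2 * dR u) ?_ (Ou_above_ro h0 hr hR hω)
      have := hd u
      linarith

end

end Pool.Agent.W_7d29a1_C1.Ou37
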