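import Pool.Agent.W_7d29a1_C1.RatB22
import Pool.Agent.W_7d29a1_C1.Pos25
import Pool.Agent.W_7d29a1_C1.OuS37

/-!
MP_7d29a1_pr, [C1] attractor route, SEP: THE FIELD `ro` OF `In25` FROM THE EVENTS OF THE TWO BLOCKS. (helper22)

* `Ou_tm` : `Ou` of Ou37 gives `TmB` on the rows `[ra - 1, re]`;
* **`ratW22`** : `RatW`, with the first row `rl u κ` of the lane block; the old content in `LvR` (four events, part of `Lv`) and `TmB`, the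
  new content in `LR` (four events, part of `L`);
* `two_pair` : the same with the ratios of the two blocks.
-/

set_option autoImplicit false

namespace Pool.Agent.W_7d29a1_C1.RB22

open Finset MeasureTheory
open Pool.Agent.W_7d29a1_F hiding Bw G
open Pool.Agent.W_7d29a1_h4g Pool.Agent.W_7d29a1_HS
open Pool.Agent.W_7d29a1_H hiding ex
open Pool.Agent.W_7d29a1_C1.K91 (wt wt_pos measurable_wt)
open Pool.Agent.W_7d29a1_C1.K91P (fw bw bw_succ bw_zero bw_pos bw_congr)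
open Pool.Agent.W_7d29a1_C1.H60
open Pool.Agent.W_7d29a1_C1.G37 (Gm)
open Pool.Agent.W_7d29a1_C1.Sy78 (sp lat_win lat_succ)
open Pool.Agent.W_7d29a1_C1.O22 (Bw)
open Pool.Agent.W_7d29a1_C1.Rt22
open Pool.Agent.W_7d29a1_C1.SF98 (FS Tx)
open Pool.Agent.W_7d29a1_C1.P25 (RatW RoW)

noncomputable section

variable {μ : Measure ℝ} {s : ℝ} {Γ : Cx} {G : Gm} {γ : ℕ → ℤ → ℝ}

/-- **`TmB` from `Ou`.** -/
theorem Ou_tm {E : ℕ → ℝ} {R Q' Q4 sgm sg b : ℝ} {u : ℕ} {κ : ℤ × ℤ} (hb : b * G.w u + 1 ≤ R * G.w u) :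
    Ou37.Ou μ s Γ G E R Q' Q4 sgm sg u κ ⊆ TmB Γ G (Ou37.gam μ s Γ) b (Q' * E u + sg) u κ (G.ra u κ - 1) (G.re u κ) := by
  intro ω h c c' h1 h2 h3 h4 h5 h6
  have key := h.1 c ⟨by omega, h2, h5.trans hb⟩ c' ⟨by omega, h4, h6.trans hb⟩
  rw [Ou37.bn_eq, Ou37.bn_eq] at key
  exact key

variable (Γ) (G) (γ)

/-- The part of `Lv` which the ratio reads. -/
def LvR (b A X Uw : ℝ) (u : ℕ) (κ : ℤ × ℤ) (r : ℕ) : Set Env :=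
  (KiB Γ G γ b A X u κ (G.ra u κ - 1) r ∩ KiB Γ G γ b A X u κ (r - 1) (G.re u κ)) ∩ (StB G b Uw u κ r ∩ StB G b Uw u κ (G.re u κ))

/-- The part of `L` which the ratio reads. -/
def LR (b A X U₁ : ℝ) (u : ℕ) (κ : ℤ × ℤ) (r : ℕ) : Set Env :=
  (KiB Γ G γ b A X u κ (G.ra u κ - 1) r ∩ LoB Γ G γ b U₁ u κ (G.ra u κ - 1) r) ∩
    (KiB Γ G γ b A X u κ (r - 1) (G.re u κ) ∩ LoB Γ G γ b U₁ u κ (r - 1) (G.re u κ))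

variable {Γ} {G} {γ}

theorem meas_LvR (b A X Uw : ℝ) (u : ℕ) (κ : ℤ × ℤ) (r : ℕ) : MeasurableSet (LvR Γ G γ b A X Uw u κ r) :=
  ((meas_KiB _ _ _ _ _ _ _).inter (meas_KiB _ _ _ _ _ _ _)).inter ((meas_StB _ _ _ _ _).inter (meas_StB _ _ _ _ _))

theorem meas_LR (b A X U₁ : ℝ) (u : ℕ) (κ : ℤ × ℤ) (r : ℕ) : MeasurableSet (LR Γ G γ b A X U₁ u κ r) :=
  ((meas_KiB _ _ _ _ _ _ _).inter (meas_LoB _ _ _ _ _ _)).inter ((meas_KiB _ _ _ _ _ _ _).inter (meas_LoB _ _ _ _ _ _))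

variable {b A X Q Uw U₁ al q d : ℝ} {u r : ℕ} {κ : ℤ × ℤ} {ω η : Env}

/-- **One window, both blocks.** `spl r (R u κ η ω) ω` = new content below the row `r`, old content from it on. -/
theorem two_pair (hγ : ∀ k y, 0 < γ k y) (hv0 : 0 ≤ G.v) (hv1 : G.v ≤ 1) (h0 : 0 ≤ G.rcc u κ) (hb : G.kw * G.w u + 2 ≤ b * G.w u)
    (hb0 : 0 ≤ b * G.w u) (har : G.ra u κ ≤ r) (hre : r ≤ G.re u κ) (he : G.re u κ ≤ Γ.N) (hal : 0 ≤ al)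
    (hQ : 0 ≤ Q) (hUw : 0 ≤ Uw) (hq : Q + Uw ≤ q) (hU₁ : 0 ≤ U₁) (hA : A ≤ Real.exp al) (hX0 : 0 ≤ X)
    (hX : X * Real.exp (1 + al + 5 * q + U₁) ≤ 1 / 2) (hd : 2 + 2 * al + 5 * q + U₁ ≤ d)
    (hT : ω ∈ TmB Γ G γ b Q u κ (G.ra u κ - 1) (G.re u κ)) (hO : ω ∈ LvR Γ G γ b A X Uw u κ r)
    (hN : G.R u κ η ω ∈ LR Γ G γ b A X U₁ u κ r) :
    Ro (wt ω) (wt (spl r (G.R u κ η ω) ω)) Γ.p Γ.N (Bk G u κ (G.ra u κ - 1) r) (Real.exp d) ∧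
    Ro (wt (spl r (G.R u κ η ω) ω)) (wt (G.R u κ η ω)) Γ.p Γ.N (Bk G u κ (r - 1) (G.re u κ)) (Real.exp d) ∧
    Ro (wt ω) (wt (G.R u κ η ω)) Γ.p Γ.N (Bw G u κ) (Real.exp (2 * d)) := by
  have hra := ra_pos (G := G) u κ
  have key := ro_two (ω := ω) (ω' := G.R u κ η ω) hγ hv0 hv1 hb hb0 (a := G.ra u κ - 1) (r := r) (e := G.re u κ) (by omega) hre he
    (fun k y h => ?_) hal hQ hUw hq hU₁ hA hX0 hX hd
    ⟨hO.1.1, hO.1.2, hT, hO.2.1, hO.2.2, hN.1.1, hN.1.2, hN.2.1, hN.2.2⟩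
  · rwa [Bk_all h0] at key
  · rw [Bk_all h0] at h
    exact (G37.Gm.wt_gl_of_not_mem (A := G.win u κ) (η := η) (ω := ω) h).symm

/-- **THE FIELD `ro` OF `In25`.** -/
theorem ratW22 {mt τ0 : ℕ} {Lv : ℕ → ℤ × ℤ → Set Env} {Ou St Fw : ℝ → ℕ → ℤ × ℤ → Set Env} {L : ℕ → ℤ × ℤ → Set Env} {smax dR : ℕ → ℝ}
    {rl : ℕ → ℤ × ℤ → ℕ} {b A X Q Uw U₁ al q : ℕ → ℝ} (hγ : ∀ k y, 0 < γ k y) (hv0 : 0 ≤ G.v) (hv1 : G.v ≤ 1) (hM : G.M ≤ mt)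
    (hb : ∀ u, τ0 < u → G.kw * G.w u + 2 ≤ b u * G.w u) (hb0 : ∀ u, τ0 < u → 0 ≤ b u * G.w u)
    (har : ∀ u κ, τ0 < u → u < G.M → G.ra u κ ≤ rl u κ) (hre : ∀ u κ, τ0 < u → u < G.M → rl u κ ≤ G.re u κ)
    (hLv : ∀ u κ, τ0 < u → u < G.M → Lv u κ ⊆ LvR Γ G γ (b u) (A u) (X u) (Uw u) u κ (rl u κ))
    (hOu : ∀ u κ, τ0 < u → u < G.M → Ou (smax u) u κ ⊆ TmB Γ G γ (b u) (Q u) u κ (G.ra u κ - 1) (G.re u κ))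
    (hL : ∀ u κ, τ0 < u → u < G.M → L u κ ⊆ LR Γ G γ (b u) (A u) (X u) (U₁ u) u κ (rl u κ))
    (hal : ∀ u, 0 ≤ al u) (hQ : ∀ u, 0 ≤ Q u) (hUw : ∀ u, 0 ≤ Uw u) (hq : ∀ u, Q u + Uw u ≤ q u) (hU₁ : ∀ u, 0 ≤ U₁ u)
    (hA : ∀ u, A u ≤ Real.exp (al u)) (hX0 : ∀ u, 0 ≤ X u)
    (hX : ∀ u, τ0 < u → X u * Real.exp (1 + al u + 5 * q u + U₁ u) ≤ 1 / 2)
    (hd : ∀ u, τ0 < u → 2 * (2 + 2 * al u + 5 * q u + U₁ u) ≤ dR u) :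
    RatW Γ G mt τ0 dR smax (Ms9.TT Lv Ou St Fw) L := by
  intro u κ hu huM hκ ω hω η hη
  obtain ⟨c, hc, hcκ⟩ := hκ
  have h1 : ω ∈ Lv u κ ∩ (Ou (smax u) u κ ∩ (St (smax u) u κ ∩ Fw (smax u) u κ)) := hω
  have h0 : 0 ≤ G.rcc u κ := by
    rw [← hcκ]
    exact (G.rcc_pos u c).le
  have he : G.re u κ ≤ Γ.N := Ou37.re_le_N hM huM ⟨c, hc, hcκ⟩
  have hle : 2 * (2 + 2 * al u + 5 * q u + U₁ u) ≤ dR u := hd u hu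
  have key := (two_pair (d := 2 + 2 * al u + 5 * q u + U₁ u) hγ hv0 hv1 h0 (hb u hu) (hb0 u hu) (har u κ hu huM) (hre u κ hu huM) he
    (hal u) (hQ u) (hUw u) (hq u) (hU₁ u) (hA u) (hX0 u) (hX u hu) le_rfl (hOu u κ hu huM h1.2.1) (hLv u κ hu huM h1.1)
    (hL u κ hu huM hη)).2.2
  exact key.mono (wt_pos _) (wt_pos _) Γ.p_pos (Real.exp_le_exp.2 hle)

end

end Pool.Agent.W_7d29a1_C1.RB22
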