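import Pool.Agent.W_7d29a1_C1.Fun20
import Pool.Agent.W_7d29a1_C1.Jmp75

/-!
MP_7d29a1_pr, [C1], slab lemma, F2 (helper75): the LITERAL forms `UP20`, `EXIT20`, `JUMP20` of `C1/Fun20`.

Deterministic: `Jm ⊆ UP20`, `Jm ⊆ EXIT20`, `Js ⊆ JUMP20` (`jm_up20`, `jm_exit20`, `js_jump20`). Packaged (`up20_75`, `exit20_75`,
`jump20_75`): a decreasing measurable event of finitely many sites of probability at least `1 - ε`.
-/

set_option autoImplicit false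

namespace Pool.Agent.W_7d29a1_C1.H75

open MeasureTheory ProbabilityTheory Filter Topology
open Pool.Agent.W_7d29a1_F Pool.Agent.W_7d29a1_h4g Pool.Agent.W_7d29a1_H Pool.Agent.W_7d29a1_HS
open Pool.Agent.W_7d29a1_HR (Dec Fin' V_mono_env)
open Pool.Agent.W_7d29a1_HL (cS hsl WR_mono')

noncomputable section

/-! ### Inclusions -/

section Incl

variable {μ : Measure ℝ} {s c : ℝ} {n : ℕ} {D b : ℝ} {η : Env}

/-- UP. -/
theorem jm_up20 (hη : η ∈ Jm μ s c n 0 D b) {ω U : ℝ} {T : ℕ} (hT : T ≤ 4 * n) (hω : ω ≤ D) (hU : b ≤ U) :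
    UP20 μ s ω T U η := fun t l x h1 h2 => (jm_V hη (by omega) (by rw [sub_zero]; linarith)).trans hU

/-- EXIT. -/
theorem jm_exit20 [IsProbabilityMeasure μ] (hv0 : 0 ≤ sl μ s) (hv1 : sl μ s ≤ 1) (hh : 0 ≤ hc μ s c n)
    (hη : η ∈ Jm μ s c n 0 D b) {ω₀ ω Y : ℝ} {T : ℕ} (hT : T ≤ 4 * n) (hω : ω₀ + 1 ≤ ω) (hD : ω + 1 ≤ D)
    (hY : 2 * T * Real.exp (2 * b - hc μ s c n * (ω - ω₀ - 2)) ≤ Real.exp (-Y)) : EXIT20 μ s ω₀ ω T Y η := by
  intro x hx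
  have h1 := jm_leave (t := 0) (x := x) (j := T) (ρ := ω - ω₀) hv0 hv1 hh hη (by omega) (by linarith) (by
    rw [Nat.cast_zero, mul_zero, sub_zero, sub_zero]
    linarith)
  rw [Nat.cast_zero] at h1
  refine le_trans (sub_le_sub_left ?_ _) (h1.trans hY)
  unfold cS
  refine Finset.sum_le_sum fun y _ => WR_mono' ?_ _ _ _ _
  intro p hp
  have h2 : |((p.2 - x : ℤ) : ℝ) - sl μ s * ((p.1 - 0 : ℤ) : ℝ)| ≤ ω - ω₀ := hp
  show |((p.2 - (0 : Pt).2 : ℤ) : ℝ) - sl μ s * ((p.1 - (0 : Pt).1 : ℤ) : ℝ)| ≤ ω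
  rw [Prod.fst_zero, Prod.snd_zero]
  have h3 := abs_le.1 h2
  have h4 := abs_le.1 hx
  push_cast at h3 ⊢
  rw [abs_le]
  constructor <;> linarith [h3.1, h3.2, h4.1, h4.2]

theorem tb_sh' (v : ℝ) (a b : Pt) (ρ : ℝ) : {p : Pt | p + b ∈ tb v (a + b) ρ} = tb v a ρ := by
  ext p
  show |(((p + b).2 - (a + b).2 : ℤ) : ℝ) - v * (((p + b).1 - (a + b).1 : ℤ) : ℝ)| ≤ ρ ↔
    |((p.2 - a.2 : ℤ) : ℝ) - v * ((p.1 - a.1 : ℤ) : ℝ)| ≤ ρ
  rw [Prod.snd_add, Prod.fst_add, Prod.snd_add, Prod.fst_add, add_sub_add_right_eq_sub, add_sub_add_right_eq_sub]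

/-- JUMP. -/
theorem js_jump20 [IsProbabilityMeasure μ] (hv0 : 0 ≤ sl μ s) (hv1 : sl μ s ≤ 1) (hh : 0 ≤ hc μ s c n) {N : ℕ}
    (hη : η ∈ Js μ s c n N 0 D b) {ω ρ Y : ℝ} (hρ : 1 ≤ ρ) (hD : ω + ρ + 1 ≤ D)
    (hY : 2 * n * Real.exp (2 * b - hc μ s c n * (ρ - 2)) ≤ Real.exp (-Y)) : JUMP20 μ s ω ρ n N Y η := by
  intro i z hi hz
  have h1 := jm_leave (t := 0) (x := z) (j := n) (ρ := ρ) hv0 hv1 hh (hη i hi) (by omega) hρ (by
    rw [Nat.cast_zero, mul_zero, sub_zero, zero_add]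
    linarith)
  rw [Nat.cast_zero, V_sh] at h1
  have e1 : (((0 : ℤ), z) : Pt) + ((((i * n : ℕ) : ℤ)), 0) = ((((i * n : ℕ) : ℤ), z) : Pt) := by
    rw [Prod.mk_add_mk, zero_add, add_zero]
  have e2 : ∀ y : ℤ, WR μ s (tb (sl μ s) ((0 : ℤ), z) ρ) (sh ((((i * n : ℕ) : ℤ)), 0) η) ((0 : ℤ), z) n y =
      WR μ s (St μ s ρ (((i * n : ℕ) : ℤ), z)) η (((i * n : ℕ) : ℤ), z) n y := by
    intro y
    rw [← tb_sh' (sl μ s) ((0 : ℤ), z) ((((i * n : ℕ) : ℤ)), 0) ρ, WR_sh, e1]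
    rfl
  rw [e1] at h1
  simp only [e2] at h1
  exact h1.trans hY

theorem cS_mono_St [IsProbabilityMeasure μ] {ρ ρ' : ℝ} (hρ : ρ ≤ ρ') (a a' : Pt) (j : ℕ) : cS μ s (St μ s ρ a') η a j ≤ cS μ s (St μ s ρ' a') η a j := by
  unfold cS
  exact Finset.sum_le_sum fun y _ => WR_mono' (fun p (hp : |((p.2 - a'.2 : ℤ) : ℝ) - sl μ s * ((p.1 - a'.1 : ℤ) : ℝ)| ≤ ρ) =>
    hp.trans hρ) _ _ _ _

theorem exit20_mono [IsProbabilityMeasure μ] {ω₀ ω ω' Y : ℝ} {T : ℕ} (h : EXIT20 μ s ω₀ ω T Y η) (hω : ω ≤ ω') : EXIT20 μ s ω₀ ω' T Y η :=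
  fun x hx => le_trans (sub_le_sub_left (cS_mono_St hω _ _ _) _) (h x hx)

theorem jump20_mono [IsProbabilityMeasure μ] {ω ρ ρ' Y : ℝ} {N : ℕ} (h : JUMP20 μ s ω ρ n N Y η) (hρ : ρ ≤ ρ') : JUMP20 μ s ω ρ' n N Y η :=
  fun i z hi hz => le_trans (sub_le_sub_left (cS_mono_St hρ _ _ _) _) (h i z hi hz)

end Incl

/-! ### Probabilities -/

section Prob

variable {μ : Measure ℝ} [IsProbabilityMeasure μ] {s c C : ℝ} {n₀ : ℕ}

theorem ge_of_compl {E : Set Env} (hE : MeasurableSet E) {ε : ℝ} (h : (law μ).real Eᶜ ≤ ε) : 1 - ε ≤ (law μ).real E := by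
  rw [measureReal_compl hE, probReal_univ] at h
  linarith

omit [IsProbabilityMeasure μ] in
theorem two_mul_exp (h : In μ s c C n₀) {n : ℕ} (hn : 1 ≤ n) (q : ℝ) :
    2 * n * Real.exp q ≤ Real.exp (1 + C * EE μ s n + q) := by
  have hn0 : (0 : ℝ) < n := by exact_mod_cast hn
  have h1 : (0 : ℝ) < 2 * n := by linarith
  rw [← Real.exp_log h1, ← Real.exp_add]
  refine Real.exp_le_exp.2 ?_
  rw [Real.log_mul two_ne_zero hn0.ne']
  linarith [Real.log_two_lt_d9, h.lg n hn]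

/-- UP, packaged: for every window `K wd T` and every `ε` there is a level `U EE T`. -/
theorem up20_75 (h : In μ s c C n₀) {K ε : ℝ} (hK : 0 ≤ K) (hε : 0 < ε) : ∃ (U : ℝ) (n₁ : ℕ), 0 < U ∧ ∀ T : ℕ, n₁ ≤ T →
    ∃ E : Set Env, MeasurableSet E ∧ Dec E ∧ Fin' E ∧ 1 - ε ≤ (law μ).real E ∧
      ∀ η ∈ E, UP20 μ s (K * wd μ s T) T (U * EE μ s T) η := by
  have hC0 : 0 < C := lt_of_lt_of_le one_pos h.C1
  obtain ⟨b, hb0, hb⟩ : ∃ b : ℝ, 0 < b ∧ 3 * ((2 * K + 2) * (C * Real.exp (-(b / C)))) ≤ ε := by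
    have h1 : Tendsto (fun b : ℝ => (3 : ℝ) * ((2 * K + 2) * (C * Real.exp (-(b / C))))) atTop (𝓝 (3 * ((2 * K + 2) * (C * 0)))) := by
      refine Tendsto.const_mul _ (Tendsto.const_mul _ (Tendsto.const_mul _ ?_))
      exact Real.tendsto_exp_neg_atTop_nhds_zero.comp (tendsto_id.atTop_div_const hC0)
    rw [mul_zero, mul_zero, mul_zero] at h1
    obtain ⟨b, hb1, hb2⟩ := ((h1.eventually (gt_mem_nhds hε)).and (eventually_gt_atTop 0)).exists
    exact ⟨b, hb2, hb1.le⟩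
  refine ⟨b, n₀ + 1, hb0, fun T hT => ?_⟩
  have hw := h.wd_pos (show 1 ≤ T by omega)
  have hE := EE_pos (μ := μ) (s := s) T
  refine ⟨Jm μ s c T 0 (K * wd μ s T) (b * EE μ s T), jm_meas, jm_dec, jm_fin, ge_of_compl jm_meas ?_, fun η hη =>
    jm_up20 hη (by omega) le_rfl le_rfl⟩
  refine (jm_prob h (show n₀ ≤ T by omega) (by omega) (mul_nonneg hK hw.le) 0 (b * EE μ s T)).trans ?_
  rw [show 2 * (K * wd μ s T) / wd μ s T = 2 * K by field_simp, show b * EE μ s T / (C * EE μ s T) = b / C by field_simp]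
  exact hb

/-- EXIT, packaged: for every `K₀`, `Y`, `ε` there is a window `K₃ wd T`. -/
theorem exit20_75 (h : In μ s c C n₀) {K₀ ε : ℝ} (hK₀ : 0 ≤ K₀) (Y : ℝ) (hε : 0 < ε) : ∃ (K₃ : ℝ) (n₁ : ℕ), K₀ < K₃ ∧
    ∀ T : ℕ, n₁ ≤ T → ∃ E : Set Env, MeasurableSet E ∧ Dec E ∧ Fin' E ∧ 1 - ε ≤ (law μ).real E ∧
      ∀ η ∈ E, ∀ ω : ℝ, K₃ * wd μ s T ≤ ω → EXIT20 μ s (K₀ * wd μ s T) ω T (Y * EE μ s T) η := by
  have hC1 := h.C1
  have hC0 : 0 < C := lt_of_lt_of_le one_pos hC1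
  have hc0 := h.c0
  have hc1 := h.c1
  -- the window, `g = K₃ - K₀`
  obtain ⟨g, hg1, hg2, hg3⟩ : ∃ g : ℝ, 1 ≤ g ∧ 2 * (Y + C + 5) / c ≤ g ∧
      3 * ((2 * (K₀ + g + 1) + 2) * (C * Real.exp (-(c / (4 * C) * g)))) ≤ ε := by
    have e1 : Tendsto (fun g : ℝ => g ^ (1 : ℝ) * Real.exp (-(c / (4 * C)) * g)) atTop (𝓝 0) :=
      tendsto_rpow_mul_exp_neg_mul_atTop_nhds_zero 1 _ (by positivity)
    have e2 : Tendsto (fun g : ℝ => g ^ (0 : ℝ) * Real.exp (-(c / (4 * C)) * g)) atTop (𝓝 0) :=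
      tendsto_rpow_mul_exp_neg_mul_atTop_nhds_zero 0 _ (by positivity)
    have e3 : Tendsto (fun g : ℝ => 3 * C * (2 * (g ^ (1 : ℝ) * Real.exp (-(c / (4 * C)) * g)) +
        (2 * K₀ + 4) * (g ^ (0 : ℝ) * Real.exp (-(c / (4 * C)) * g)))) atTop (𝓝 (3 * C * (2 * 0 + (2 * K₀ + 4) * 0))) :=
      Tendsto.const_mul _ ((Tendsto.const_mul _ e1).add (Tendsto.const_mul _ e2))
    rw [mul_zero, mul_zero, add_zero, mul_zero] at e3
    obtain ⟨g, hg⟩ := ((e3.eventually (gt_mem_nhds hε)).and ((eventually_ge_atTop 1).and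
      (eventually_ge_atTop (2 * (Y + C + 5) / c)))).exists
    refine ⟨g, hg.2.1, hg.2.2, le_trans (le_of_eq ?_) hg.1.le⟩
    rw [Real.rpow_one, Real.rpow_zero, neg_mul]
    ring
  obtain ⟨n₂, hn₂⟩ := (tendsto_atTop.1 (wd_tendsto h) 1).exists_forall_of_atTop
  refine ⟨K₀ + g, n₀ + n₂ + 1, by linarith, fun T hT => ?_⟩
  have hw1 : 1 ≤ wd μ s T := hn₂ T (by omega)
  obtain ⟨w, hwe⟩ : ∃ w : ℝ, w = wd μ s T := ⟨_, rfl⟩
  obtain ⟨E₁, hE₁⟩ : ∃ E₁ : ℝ, E₁ = EE μ s T := ⟨_, rfl⟩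
  have hT1 : 1 ≤ T := by omega
  have hE := one_le_EE (μ := μ) (s := s) T
  have hhw := hc_wd h hT1
  have hh0 := hc_nonneg h T
  have hlg := h.lg T hT1
  have hb0 : (0 : ℝ) ≤ c / 4 * g * EE μ s T := by positivity
  refine ⟨Jm μ s c T 0 ((K₀ + g + 1) * wd μ s T) (c / 4 * g * EE μ s T), jm_meas, jm_dec, jm_fin, ge_of_compl jm_meas ?_,
    fun η hη ω hω => ?_⟩
  · have hw := h.wd_pos hT1
    refine (jm_prob h (show n₀ ≤ T by omega) (by omega) (by positivity) 0 _).trans ?_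
    rw [show 2 * ((K₀ + g + 1) * wd μ s T) / wd μ s T = 2 * (K₀ + g + 1) by field_simp,
      show c / 4 * g * EE μ s T / (C * EE μ s T) = c / (4 * C) * g by field_simp]
    exact hg3
  · -- first the window `K₃ wd T`
    have key : EXIT20 μ s (K₀ * wd μ s T) ((K₀ + g) * wd μ s T) T (Y * EE μ s T) η := by
      refine jm_exit20 h.sl_pos.le h.sl_lt.le hh0 hη (by omega) ?_ ?_ ?_
      · rw [← hwe] at hw1 ⊢
        nlinarith
      · rw [← hwe] at hw1 ⊢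
        nlinarith
      · refine (two_mul_exp h hT1 _).trans (Real.exp_le_exp.2 ?_)
        have k2 : hc μ s c T * ((K₀ + g) * wd μ s T - K₀ * wd μ s T - 2) = g * (c * EE μ s T) - 2 * hc μ s c T := by
          rw [← hhw]
          ring
        have k3 : 2 * hc μ s c T ≤ 2 * EE μ s T := by
          have : hc μ s c T * 1 ≤ hc μ s c T * wd μ s T := mul_le_mul_of_nonneg_left hw1 hh0
          rw [hhw] at this
          nlinarith
        have k4 : 2 * (Y + C + 5) ≤ g * c := by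
          rw [div_le_iff₀ hc0] at hg2
          exact hg2
        have k5 : 2 * (Y + C + 5) * EE μ s T ≤ g * c * EE μ s T := mul_le_mul_of_nonneg_right k4 (by linarith)
        rw [k2]
        nlinarith
    exact exit20_mono key hω

/-- JUMP, packaged: sub blocks of `n` rows, `T = N n` rows in all, `m ≥ T / b`: the cost of a jump of `R wd m` in one sub block is
`Y EE T`, for `N` large. -/
theorem jump20_75 (h : In μ s c C n₀) {b K R ε : ℝ} (hb : 1 ≤ b) (hK : 0 ≤ K) (hR : 0 < R) (Y : ℝ) (hε : 0 < ε) :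
    ∃ N₀ n₁ : ℕ, ∀ N n m : ℕ, N₀ ≤ N → n₁ ≤ n → m ≤ N * n → ((N * n : ℕ) : ℝ) ≤ b * m →
      ∃ E : Set Env, MeasurableSet E ∧ Dec E ∧ Fin' E ∧ 1 - ε ≤ (law μ).real E ∧
        ∀ η ∈ E, ∀ ρ : ℝ, R * wd μ s m ≤ ρ → JUMP20 μ s (K * wd μ s (N * n)) ρ n N (Y * EE μ s (N * n)) η := by
  have hC1 := h.C1
  have hC0 : 0 < C := lt_of_lt_of_le one_pos hC1
  have hc0 := h.c0
  have hc1 := h.c1
  have hb0 : 0 < b := by linarith
  obtain ⟨a, na, ha0, ha1, hna, hpow⟩ := Pool.Agent.W_7d29a1_HL.EE_pow h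
  obtain ⟨Y', hY'⟩ : ∃ Y' : ℝ, Y' = |Y| + C + 5 := ⟨_, rfl⟩
  have hY0 : 0 < Y' := by rw [hY']; linarith [abs_nonneg Y]
  obtain ⟨B, hB⟩ : ∃ B : ℝ, B = 4 * b * Y' / (c * R) := ⟨_, rfl⟩
  obtain ⟨J, nJ, hJ⟩ := hsl h B
  obtain ⟨n₂, hn₂⟩ := (tendsto_atTop.1 (wd_tendsto h) 1).exists_forall_of_atTop
  obtain ⟨κ, hκ⟩ : ∃ κ : ℝ, κ = c * R / (16 * C) := ⟨_, rfl⟩
  have hκ0 : 0 < κ := by rw [hκ]; positivity
  -- the number of sub blocks
  obtain ⟨N₁, hN₁⟩ : ∃ N₁ : ℕ, ∀ N : ℕ, N₁ ≤ N →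
      3 * C * (4 * K + 4 * R + 4) * ((N : ℝ) * N * Real.exp (-κ * ((N : ℝ) / b) ^ a)) ≤ ε := by
    have e1 : Tendsto (fun N : ℕ => ((N : ℝ) / b) ^ a) atTop atTop :=
      (tendsto_rpow_atTop ha0).comp (tendsto_natCast_atTop_atTop.atTop_div_const hb0)
    have e2 : Tendsto (fun N : ℕ => (((N : ℝ) / b) ^ a) ^ (2 / a) * Real.exp (-κ * ((N : ℝ) / b) ^ a)) atTop (𝓝 0) :=
      (tendsto_rpow_mul_exp_neg_mul_atTop_nhds_zero (2 / a) κ hκ0).comp e1
    have e3 : Tendsto (fun N : ℕ => 3 * C * (4 * K + 4 * R + 4) *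
        (b * b * ((((N : ℝ) / b) ^ a) ^ (2 / a) * Real.exp (-κ * ((N : ℝ) / b) ^ a)))) atTop
        (𝓝 (3 * C * (4 * K + 4 * R + 4) * (b * b * 0))) := Tendsto.const_mul _ (Tendsto.const_mul _ e2)
    rw [mul_zero, mul_zero] at e3
    obtain ⟨N₁, hN₁⟩ := (e3.eventually (gt_mem_nhds hε)).exists_forall_of_atTop
    refine ⟨N₁, fun N hN => le_trans (le_of_eq ?_) (hN₁ N hN).le⟩
    have e4 : (((N : ℝ) / b) ^ a) ^ (2 / a) = (N : ℝ) / b * ((N : ℝ) / b) := by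
      rw [← Real.rpow_mul (by positivity), mul_div_cancel₀ _ ha0.ne', Real.rpow_two, sq]
    rw [e4]
    field_simp
  refine ⟨N₁ + ⌈b * 2 ^ J⌉₊ + 1, na + nJ + n₂ + n₀ + 1, fun N n m hN hn hm hbm => ?_⟩
  have hn1 : 1 ≤ n := by omega
  have hn0 : (0 : ℝ) < n := by exact_mod_cast hn1
  have hN0 : (1 : ℝ) ≤ N := by exact_mod_cast (show 1 ≤ N by omega)
  have hNJ : b * 2 ^ J ≤ N := by
    have h1 : (⌈b * 2 ^ J⌉₊ : ℝ) ≤ N := by exact_mod_cast (show ⌈b * 2 ^ J⌉₊ ≤ N by omega)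
    exact (Nat.le_ceil _).trans h1
  have hcast : ((N * n : ℕ) : ℝ) = N * n := by push_cast; ring
  have h2 : 2 ^ J * n ≤ m := by
    have h1 : b * ((2 : ℝ) ^ J * n) ≤ b * m := by
      calc b * ((2 : ℝ) ^ J * n) = b * 2 ^ J * n := by ring
        _ ≤ N * n := mul_le_mul_of_nonneg_right hNJ hn0.le
        _ ≤ b * m := by rw [← hcast]; exact hbm
    have h2 : (2 : ℝ) ^ J * n ≤ m := le_of_mul_le_mul_left h1 hb0
    exact_mod_cast h2
  have hnm : n ≤ m := by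
    have : 1 * n ≤ 2 ^ J * n := Nat.mul_le_mul_right n Nat.one_le_two_pow
    omega
  have hm1 : 1 ≤ m := by omega
  have hm0 : (0 : ℝ) < m := by exact_mod_cast hm1
  have h3 := hJ m n (by omega) h2
  have hwn1 : 1 ≤ wd μ s n := hn₂ n (by omega)
  have hwn : 0 < wd μ s n := by linarith
  have hwm : 0 < wd μ s m := lt_of_lt_of_le one_pos (hn₂ m (by omega))
  have hwT : 0 < wd μ s (N * n) := lt_of_lt_of_le one_pos (hn₂ (N * n) (by omega))
  have hEn := EE_pos (μ := μ) (s := s) n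
  have hEm := EE_pos (μ := μ) (s := s) m
  have hET := EE_pos (μ := μ) (s := s) (N * n)
  have hEnT : EE μ s n ≤ EE μ s (N * n) := EE_mono (by omega)
  have hET1 := one_le_EE (μ := μ) (s := s) (N * n)
  have h4 : EE μ s (N * n) ≤ 2 * b * EE μ s m := by
    have h5 := scale_b h hm1 hm
    have h6 : ((N * n : ℕ) : ℝ) * EE μ s m ≤ b * m * EE μ s m := mul_le_mul_of_nonneg_right hbm hEm.le
    have h7 : (m : ℝ) * EE μ s (N * n) ≤ m * (2 * b * EE μ s m) := by linarith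
    exact le_of_mul_le_mul_left h7 hm0
  have hhn := hc_wd h hn1
  have hh0 := hc_nonneg h n
  -- the cost of the jump
  obtain ⟨G, hG⟩ : ∃ G : ℝ, G = hc μ s c n * (R * wd μ s m) := ⟨_, rfl⟩
  have hG0 : 0 ≤ G := by rw [hG]; positivity
  have hG1 : G * wd μ s n = c * R * (EE μ s n * wd μ s m) := by
    rw [hG, show hc μ s c n * (R * wd μ s m) * wd μ s n = hc μ s c n * wd μ s n * (R * wd μ s m) by ring, hhn]
    ring
  have hG2 : 2 * Y' * EE μ s (N * n) ≤ G := by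
    have h5 : (2 * Y' * EE μ s (N * n)) * wd μ s n ≤ G * wd μ s n := by
      rw [hG1]
      have h6 : c * R * (B * EE μ s m * wd μ s n) ≤ c * R * (EE μ s n * wd μ s m) := mul_le_mul_of_nonneg_left h3 (by positivity)
      have h7 : c * R * (B * EE μ s m * wd μ s n) = 2 * Y' * (2 * b * EE μ s m) * wd μ s n := by
        rw [hB]
        field_simp
        ring
      rw [h7] at h6
      refine le_trans (mul_le_mul_of_nonneg_right (mul_le_mul_of_nonneg_left h4 (by positivity)) hwn.le) h6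
    exact le_of_mul_le_mul_right h5 hwn
  -- the widths
  have hwT2 : wd μ s (N * n) ≤ 2 * N * wd μ s n := by
    have h5 := wd_lower_one h hn1 (show n ≤ N * n by omega)
    rw [hcast] at h5
    have h6 : (n : ℝ) * wd μ s (N * n) ≤ n * (2 * N * wd μ s n) := by linarith
    exact le_of_mul_le_mul_left h6 hn0
  have hwm2 : wd μ s m ≤ 2 * N * wd μ s n := by
    have h5 := wd_lower_one h hn1 hnm
    have h6 : (m : ℝ) ≤ N * n := by rw [← hcast]; exact_mod_cast hm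
    have h7 : 2 * ((m : ℝ) * wd μ s n) ≤ 2 * (N * n * wd μ s n) := by
      have := mul_le_mul_of_nonneg_right h6 hwn.le
      linarith
    have h8 : (n : ℝ) * wd μ s m ≤ n * (2 * N * wd μ s n) := by linarith
    exact le_of_mul_le_mul_left h8 hn0
  obtain ⟨D, hD⟩ : ∃ D : ℝ, D = K * wd μ s (N * n) + R * wd μ s m + 1 := ⟨_, rfl⟩
  have hD0 : 0 ≤ D := by rw [hD]; positivity
  have hD2 : 2 * D / wd μ s n + 2 ≤ (4 * K + 4 * R + 4) * N := by
    have h5 : 2 * D / wd μ s n ≤ 4 * K * N + 4 * R * N + 2 := by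
      rw [div_le_iff₀ hwn, hD]
      have h6 := mul_le_mul_of_nonneg_left hwT2 hK
      have h7 := mul_le_mul_of_nonneg_left hwm2 hR.le
      nlinarith
    nlinarith
  -- the ratio of the widths
  have hq : ((N : ℝ) / b) ^ a * EE μ s n * wd μ s n ≤ 4 * (EE μ s n * wd μ s m) := by
    have h5 := hpow n m (by omega) hnm
    have h6 := wd_growth_one h hn1 hnm
    have h7 : (N : ℝ) / b ≤ (m : ℝ) / n := by
      rw [div_le_div_iff₀ hb0 hn0, ← hcast, mul_comm (m : ℝ)]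
      exact hbm
    have h8 : ((N : ℝ) / b) ^ a ≤ ((m : ℝ) / n) ^ a := Real.rpow_le_rpow (by positivity) h7 ha0.le
    have h9 : ((N : ℝ) / b) ^ a * EE μ s n ≤ 2 * EE μ s m := (mul_le_mul_of_nonneg_right h8 hEn.le).trans h5
    have h10 : ((N : ℝ) / b) ^ a * EE μ s n * wd μ s n ≤ 2 * EE μ s m * wd μ s n := mul_le_mul_of_nonneg_right h9 hwn.le
    linarith
  have hlev : κ * ((N : ℝ) / b) ^ a ≤ 1 / 4 * G / (C * EE μ s n) := by
    rw [le_div_iff₀ (by positivity), hκ]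
    have h5 : (c * R / (16 * C) * ((N : ℝ) / b) ^ a * (C * EE μ s n)) * wd μ s n ≤ (1 / 4 * G) * wd μ s n := by
      have h6 : (c * R / (16 * C) * ((N : ℝ) / b) ^ a * (C * EE μ s n)) * wd μ s n =
          c * R / 16 * (((N : ℝ) / b) ^ a * EE μ s n * wd μ s n) := by
        field_simp
      rw [h6, mul_assoc (1 / 4) G, hG1]
      have h7 := mul_le_mul_of_nonneg_left hq (show 0 ≤ c * R / 16 by positivity)
      linarith
    exact le_of_mul_le_mul_right h5 hwn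
  refine ⟨Js μ s c n N 0 D (1 / 4 * G), js_meas, js_dec, js_fin, ge_of_compl js_meas ?_, fun η hη ρ hρ => ?_⟩
  · refine (js_prob h (by omega) hn1 N hD0 0 _).trans ?_
    refine le_trans ?_ (hN₁ N (by omega))
    have h5 : Real.exp (-(1 / 4 * G / (C * EE μ s n))) ≤ Real.exp (-κ * ((N : ℝ) / b) ^ a) :=
      Real.exp_le_exp.2 (by linarith)
    have h6 : (2 * D / wd μ s n + 2) * (C * Real.exp (-(1 / 4 * G / (C * EE μ s n)))) ≤
        ((4 * K + 4 * R + 4) * N) * (C * Real.exp (-κ * ((N : ℝ) / b) ^ a)) :=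
      mul_le_mul hD2 (mul_le_mul_of_nonneg_left h5 hC0.le) (by positivity) (by positivity)
    calc (N : ℝ) * (3 * ((2 * D / wd μ s n + 2) * (C * Real.exp (-(1 / 4 * G / (C * EE μ s n)))))) ≤
        N * (3 * (((4 * K + 4 * R + 4) * N) * (C * Real.exp (-κ * ((N : ℝ) / b) ^ a)))) :=
          mul_le_mul_of_nonneg_left (mul_le_mul_of_nonneg_left h6 (by norm_num)) (by linarith)
      _ = 3 * C * (4 * K + 4 * R + 4) * ((N : ℝ) * N * Real.exp (-κ * ((N : ℝ) / b) ^ a)) := by ring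
  · -- the jumps are at least 1 since the cost is large
    have hR1 : 1 ≤ R * wd μ s m := by
      by_contra hcon
      rw [not_le] at hcon
      have h5 : hc μ s c n * (R * wd μ s m) ≤ hc μ s c n * 1 := mul_le_mul_of_nonneg_left hcon.le hh0
      have h6 : hc μ s c n * 1 ≤ hc μ s c n * wd μ s n := mul_le_mul_of_nonneg_left hwn1 hh0
      rw [hhn] at h6
      rw [← hG] at h5
      have h7 : c * EE μ s n ≤ 1 * EE μ s (N * n) := mul_le_mul hc1 hEnT hEn.le zero_le_one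
      have h8 : 2 * Y' * EE μ s (N * n) ≤ EE μ s (N * n) := by linarith
      have h9 : 1 ≤ Y' := by rw [hY']; linarith [abs_nonneg Y]
      nlinarith
    have key : JUMP20 μ s (K * wd μ s (N * n)) (R * wd μ s m) n N (Y * EE μ s (N * n)) η := by
      refine js_jump20 h.sl_pos.le h.sl_lt.le hh0 hη hR1 (by rw [hD]) ?_
      refine (two_mul_exp h hn1 _).trans (Real.exp_le_exp.2 ?_)
      have k1 : hc μ s c n * (R * wd μ s m - 2) = G - 2 * hc μ s c n := by rw [hG]; ring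
      have k2 : 2 * hc μ s c n ≤ 2 * EE μ s (N * n) := by
        have h6 : hc μ s c n * 1 ≤ hc μ s c n * wd μ s n := mul_le_mul_of_nonneg_left hwn1 hh0
        rw [hhn] at h6
        have h7 : c * EE μ s n ≤ 1 * EE μ s (N * n) := mul_le_mul hc1 hEnT hEn.le zero_le_one
        linarith
      have k3 : C * EE μ s n ≤ C * EE μ s (N * n) := mul_le_mul_of_nonneg_left hEnT hC0.le
      have k4 : Y * EE μ s (N * n) ≤ |Y| * EE μ s (N * n) := mul_le_mul_of_nonneg_right (le_abs_self Y) hET.le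
      have k5 : Y' * EE μ s (N * n) = |Y| * EE μ s (N * n) + C * EE μ s (N * n) + 5 * EE μ s (N * n) := by
        rw [hY']
        ring
      rw [k1]
      linarith
    exact jump20_mono key hρ

end Prob

end

end Pool.Agent.W_7d29a1_C1.H75
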