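import Pool.Agent.W_7d29a1_C1.GateL18
import Pool.Agent.W_7d29a1_C1.JmpL75

/-!
MP_7d29a1_pr, [C1] SEP, THE GATE WITH THIN STRIPS: THE UPPER LEVELS (decreasing events). (helper18)

`T3 n' b p j`: the three lucks (tilts `0`, `± hc n'`) of the start `p`, length `j`, are at most `b` (`t3_V`, `t3_W`, `t3_far`).
`Up18 K U`: `T3 (2 n) (U EE n)` for all the starts of the window `|lat| ≤ K w`, rows `(a, a + 5 n]`. `Us18 U₁`: the same for the six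
starts of the sides, `U₁ = U₁ (ε)` only. `Jp18 Y`: inside a strip (`m` rows, `n = M m`) nothing goes from
`K₂ w ≤ |lat| ≤ (K₂ + 1) w` to `|lat| ≤ (K₂ - 1) w`: mass at most `exp (- Y EE n)`.
-/

set_option autoImplicit false

namespace Pool.Agent.W_7d29a1_C1.GL18

open MeasureTheory ProbabilityTheory Filter Topology
open Pool.Agent.W_7d29a1_F Pool.Agent.W_7d29a1_h4g Pool.Agent.W_7d29a1_H Pool.Agent.W_7d29a1_HS
open Pool.Agent.W_7d29a1_HR (Fin' V_mono_env)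
open Pool.Agent.W_7d29a1_L (T kap Sub_T T_sh)
open Pool.Agent.W_7d29a1_C1.U16 (lat16)
open Pool.Agent.W_7d29a1_C1.H75

noncomputable section

variable {μ : Measure ℝ} {s c : ℝ}

/-- The three lucks of one start. -/
def T3 (μ : Measure ℝ) (s c : ℝ) (n' : ℕ) (b : ℝ) (p : Pt) (j : ℕ) : Set Env :=
  {η | T μ s (sl μ s) 0 η p j ≤ b ∧ T μ s (sl μ s) (hc μ s c n') η p j ≤ b ∧ T μ s (sl μ s) (-hc μ s c n') η p j ≤ b}

theorem t3_dec {n' : ℕ} {b : ℝ} {p : Pt} {j : ℕ} : Pool.Agent.W_7d29a1_HR.Dec (T3 μ s c n' b p j) := fun _ _ hh hη =>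
  ⟨(T_mono_env hh _ _ _).trans hη.1, (T_mono_env hh _ _ _).trans hη.2.1, (T_mono_env hh _ _ _).trans hη.2.2⟩

theorem t3_mono {n' : ℕ} {b b' : ℝ} (hb : b ≤ b') {p : Pt} {j : ℕ} : T3 μ s c n' b p j ⊆ T3 μ s c n' b' p j := fun _ hη =>
  ⟨hη.1.trans hb, hη.2.1.trans hb, hη.2.2.trans hb⟩

theorem t3_meas [IsProbabilityMeasure μ] {n' : ℕ} {b : ℝ} {p : Pt} {j : ℕ} : MeasurableSet (T3 μ s c n' b p j) :=
  (measurableSet_le (Sub_T _ _).1 measurable_const).inter ((measurableSet_le (Sub_T _ _).1 measurable_const).inter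
    (measurableSet_le (Sub_T _ _).1 measurable_const))

theorem t3_rows {n' : ℕ} {b : ℝ} {p : Pt} {j : ℕ} {η η' : Env} (hh : ∀ q ∈ rows p.1 (p.1 + j), η q = η' q) :
    η ∈ T3 μ s c n' b p j ↔ η' ∈ T3 μ s c n' b p j := by
  have k2 : ∀ h : ℝ, T μ s (sl μ s) h η p j = T μ s (sl μ s) h η' p j := fun h =>
    U16.T_rows (μ := μ) (s := s) (v := sl μ s) (h := h) p j hh
  unfold T3
  simp only [Set.mem_ofPred_eq, k2]

theorem t3_V {n' : ℕ} {b : ℝ} {p : Pt} {j : ℕ} {η : Env} (hη : η ∈ T3 μ s c n' b p j) : V μ s η p j ≤ b := by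
  have := hη.1
  rwa [T_zero_tilt] at this

theorem t3_W {n' : ℕ} {b : ℝ} {p : Pt} {j : ℕ} {η : Env} (hη : η ∈ T3 μ s c n' b p j) (y : ℤ) :
    W μ s η p j y ≤ Real.exp (b - hc μ s c n' * |(y : ℝ) - sl μ s * j|) := by
  rcases abs_cases ((y : ℝ) - sl μ s * j) with ⟨h3, _⟩ | ⟨h3, _⟩
  · rw [h3]
    exact (W_le_tilt (h := hc μ s c n') (v := sl μ s) _ _ _ _).trans (Real.exp_le_exp.2 (by linarith [hη.2.1]))
  · rw [h3]
    exact (W_le_tilt (h := -hc μ s c n') (v := sl μ s) _ _ _ _).trans (Real.exp_le_exp.2 (by linarith [hη.2.2]))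

theorem t3_far {n' : ℕ} {b : ℝ} {p : Pt} {j : ℕ} {η : Env} (hh : 0 ≤ hc μ s c n') (hη : η ∈ T3 μ s c n' b p j) {ρ : ℝ}
    (A : Finset ℤ) (hA : ∀ y ∈ A, ρ ≤ |(y : ℝ) - sl μ s * j|) : WS μ s η p j A ≤ 2 * Real.exp (b - hc μ s c n' * ρ) := by
  classical
  have hs : WS μ s η p j A ≤ WS μ s η p j (A.filter fun y => ρ ≤ (y : ℝ) - sl μ s * j) +
      WS μ s η p j (A.filter fun y => ¬ ρ ≤ (y : ℝ) - sl μ s * j) := by
    unfold WS
    rw [Finset.sum_filter_add_sum_filter_not]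
  have e1 := WS_le_tilt (μ := μ) (s := s) (v := sl μ s) (h := hc μ s c n') η p j
    (A.filter fun y => ρ ≤ (y : ℝ) - sl μ s * j) (q := hc μ s c n' * ρ)
    (fun y hy => mul_le_mul_of_nonneg_left (Finset.mem_filter.1 hy).2 hh)
  have e2 := WS_le_tilt (μ := μ) (s := s) (v := sl μ s) (h := -hc μ s c n') η p j
    (A.filter fun y => ¬ ρ ≤ (y : ℝ) - sl μ s * j) (q := hc μ s c n' * ρ) (fun y hy => by
      obtain ⟨k1, k2⟩ := Finset.mem_filter.1 hy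
      have k3 : ρ ≤ -((y : ℝ) - sl μ s * j) := by
        rcases le_abs.1 (hA y k1) with k4 | k4
        · exact absurd k4 k2
        · exact k4
      have k5 := mul_le_mul_of_nonneg_left k3 hh
      linarith)
  have e3 : Real.exp (T μ s (sl μ s) (hc μ s c n') η p j - hc μ s c n' * ρ) ≤ Real.exp (b - hc μ s c n' * ρ) :=
    Real.exp_le_exp.2 (by linarith [hη.2.1])
  have e4 : Real.exp (T μ s (sl μ s) (-hc μ s c n') η p j - hc μ s c n' * ρ) ≤ Real.exp (b - hc μ s c n' * ρ) :=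
    Real.exp_le_exp.2 (by linarith [hη.2.2])
  linarith

/-- From `Jm` seen from the base `a`. -/
theorem jm_t3 [IsProbabilityMeasure μ] {n' : ℕ} {D b : ℝ} {a p : Pt} {j : ℕ} {η : Env} (hη : sh a η ∈ Jm μ s c n' 0 D b)
    (h1 : a.1 ≤ p.1) (h2 : p.1 + j ≤ a.1 + ((4 * n' : ℕ) : ℤ)) (h3 : |lat16 μ s a p| ≤ D) : η ∈ T3 μ s c n' b p j := by
  obtain ⟨t, ht⟩ : ∃ t : ℕ, (t : ℤ) = p.1 - a.1 := ⟨(p.1 - a.1).toNat, Int.toNat_of_nonneg (by omega)⟩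
  have k1 : t + j ≤ 4 * n' := by
    have : ((t + j : ℕ) : ℤ) ≤ ((4 * n' : ℕ) : ℤ) := by
      push_cast at h2 ⊢
      omega
    exact_mod_cast this
  have k2 : |(((p.2 - a.2 : ℤ)) : ℝ) - sl μ s * t - 0| ≤ D := by
    have e : (t : ℝ) = ((p.1 - a.1 : ℤ) : ℝ) := by
      rw [← ht]
      norm_cast
    rw [sub_zero, e]
    exact h3
  have e : (((t : ℤ), p.2 - a.2) : Pt) + a = p := by
    ext
    · show (t : ℤ) + a.1 = p.1
      omega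
    · show p.2 - a.2 + a.2 = p.2
      omega
  have key : ∀ h : ℝ, T μ s (sl μ s) h (sh a η) ((t : ℤ), p.2 - a.2) j = T μ s (sl μ s) h η p j := fun h => by
    rw [T_sh, e]
  have g1 := hη.1 t (p.2 - a.2) j k1 k2
  have g2 := hη.2.1 t (p.2 - a.2) j k1 k2
  have g3 := hη.2.2 t (p.2 - a.2) j k1 k2
  rw [key] at g1 g2 g3
  exact ⟨g1, g2, g3⟩

/-! ### The sets -/

/-- The window. -/
def Up18 (μ : Measure ℝ) (s c K : ℝ) (n : ℕ) (a : Pt) (U : ℝ) : Set Env :=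
  {η | ∀ (p : Pt) (j : ℕ), a.1 ≤ p.1 → p.1 + j ≤ a.1 + ((5 * n : ℕ) : ℤ) → |lat16 μ s a p| ≤ K * wd μ s n →
    η ∈ T3 μ s c (2 * n) (U * EE μ s n) p j}

/-- The six starts of the sides. -/
def Us18 (μ : Measure ℝ) (s c K₂ : ℝ) (n m : ℕ) (a : Pt) (U : ℝ) : Set Env :=
  {η | ∀ (σ : ℝ) (i : Fin 3), σ = 1 ∨ σ = -1 →
    η ∈ T3 μ s c (2 * n) (U * EE μ s n) (ft μ s a n (rw3 n m i) (σ * (K₂ - 2))) (5 * n - rw3 n m i)}

/-- No jump inside a strip. -/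
def Jp18 (μ : Measure ℝ) (s K₂ : ℝ) (n m : ℕ) (a : Pt) (Y : ℝ) : Set Env :=
  {η | ∀ (i : ℕ) (p : Pt) (j : ℕ) (A : Finset ℤ), i = 1 ∨ i = 3 → a.1 + ((i * n : ℕ) : ℤ) ≤ p.1 →
    p.1 + j ≤ a.1 + ((i * n : ℕ) : ℤ) + m → K₂ * wd μ s n ≤ |lat16 μ s a p| → |lat16 μ s a p| ≤ (K₂ + 1) * wd μ s n →
    (∀ y ∈ A, |lat16 μ s a (p.1 + (j : ℤ), p.2 + y)| ≤ (K₂ - 1) * wd μ s n) → WS μ s η p j A ≤ Real.exp (-(Y * EE μ s n))}

theorem up18_dec {K : ℝ} {n : ℕ} {a : Pt} {U : ℝ} : Pool.Agent.W_7d29a1_HR.Dec (Up18 μ s c K n a U) := fun _ _ hh hη p j h1 h2 h3 =>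
  t3_dec _ _ hh (hη p j h1 h2 h3)

theorem us18_dec {K₂ : ℝ} {n m : ℕ} {a : Pt} {U : ℝ} : Pool.Agent.W_7d29a1_HR.Dec (Us18 μ s c K₂ n m a U) := fun _ _ hh hη σ i hσ =>
  t3_dec _ _ hh (hη σ i hσ)

theorem jp18_dec {K₂ : ℝ} {n m : ℕ} {a : Pt} {Y : ℝ} : Pool.Agent.W_7d29a1_HR.Dec (Jp18 μ s K₂ n m a Y) := fun _ _ hh hη i p j A h1 h2 h3 h4 h5 h6 =>
  le_trans (Finset.sum_le_sum fun y _ => Pool.Agent.W_7d29a1_h48.W_mono_env hh p j y) (hη i p j A h1 h2 h3 h4 h5 h6)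

theorem up18_meas [IsProbabilityMeasure μ] (K : ℝ) (n : ℕ) (a : Pt) (U : ℝ) : MeasurableSet (Up18 μ s c K n a U) := by
  have e : Up18 μ s c K n a U = ⋂ (p : Pt) (j : ℕ) (_ : a.1 ≤ p.1) (_ : p.1 + j ≤ a.1 + ((5 * n : ℕ) : ℤ))
      (_ : |lat16 μ s a p| ≤ K * wd μ s n), T3 μ s c (2 * n) (U * EE μ s n) p j := by
    ext η
    simp only [Set.mem_iInter]
    exact Iff.rfl
  rw [e]
  exact MeasurableSet.iInter fun p => MeasurableSet.iInter fun j => MeasurableSet.iInter fun _ => MeasurableSet.iInter fun _ =>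
    MeasurableSet.iInter fun _ => t3_meas

theorem us18_meas [IsProbabilityMeasure μ] (K₂ : ℝ) (n m : ℕ) (a : Pt) (U : ℝ) : MeasurableSet (Us18 μ s c K₂ n m a U) := by
  have e : Us18 μ s c K₂ n m a U = ⋂ (i : Fin 3),
      (T3 μ s c (2 * n) (U * EE μ s n) (ft μ s a n (rw3 n m i) (1 * (K₂ - 2))) (5 * n - rw3 n m i) ∩
       T3 μ s c (2 * n) (U * EE μ s n) (ft μ s a n (rw3 n m i) (-1 * (K₂ - 2))) (5 * n - rw3 n m i)) := by
    ext η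
    simp only [Set.mem_iInter, Set.mem_inter_iff]
    constructor
    · intro h i
      exact ⟨h 1 i (Or.inl rfl), h (-1) i (Or.inr rfl)⟩
    · rintro h σ i (rfl | rfl)
      · exact (h i).1
      · exact (h i).2
  rw [e]
  exact MeasurableSet.iInter fun i => t3_meas.inter t3_meas

theorem jp18_meas (K₂ : ℝ) (n m : ℕ) (a : Pt) (Y : ℝ) : MeasurableSet (Jp18 μ s K₂ n m a Y) := by
  have e : Jp18 μ s K₂ n m a Y = ⋂ (i : ℕ) (p : Pt) (j : ℕ) (A : Finset ℤ) (_ : i = 1 ∨ i = 3) (_ : a.1 + ((i * n : ℕ) : ℤ) ≤ p.1)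
      (_ : p.1 + j ≤ a.1 + ((i * n : ℕ) : ℤ) + m) (_ : K₂ * wd μ s n ≤ |lat16 μ s a p|)
      (_ : |lat16 μ s a p| ≤ (K₂ + 1) * wd μ s n) (_ : ∀ y ∈ A, |lat16 μ s a (p.1 + (j : ℤ), p.2 + y)| ≤ (K₂ - 1) * wd μ s n),
      {η | WS μ s η p j A ≤ Real.exp (-(Y * EE μ s n))} := by
    ext η
    simp only [Set.mem_iInter]
    exact Iff.rfl
  rw [e]
  exact MeasurableSet.iInter fun i => MeasurableSet.iInter fun p => MeasurableSet.iInter fun j => MeasurableSet.iInter fun A =>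
    MeasurableSet.iInter fun _ => MeasurableSet.iInter fun _ => MeasurableSet.iInter fun _ => MeasurableSet.iInter fun _ =>
    MeasurableSet.iInter fun _ => MeasurableSet.iInter fun _ => measurableSet_le (measurable_WS _ _ _) measurable_const

/-- They read only the rows `(a.1, a.1 + 5 n]`. -/
theorem up18_rows {K : ℝ} {n : ℕ} {a : Pt} {U : ℝ} {η η' : Env} (h : ∀ p ∈ rows a.1 (a.1 + ((5 * n : ℕ) : ℤ)), η p = η' p) :
    η ∈ Up18 μ s c K n a U ↔ η' ∈ Up18 μ s c K n a U := by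
  have key : ∀ η η' : Env, (∀ p ∈ rows a.1 (a.1 + ((5 * n : ℕ) : ℤ)), η p = η' p) → η ∈ Up18 μ s c K n a U →
      η' ∈ Up18 μ s c K n a U := fun η η' h hη p j h1 h2 h3 =>
    (t3_rows fun q hq => h q ⟨lt_of_le_of_lt h1 hq.1, hq.2.trans h2⟩).1 (hη p j h1 h2 h3)
  exact ⟨key η η' h, key η' η fun p hp => (h p hp).symm⟩

theorem us18_rows {K₂ : ℝ} {n m : ℕ} (hm : 2 * m ≤ n) {a : Pt} {U : ℝ} {η η' : Env}
    (h : ∀ p ∈ rows a.1 (a.1 + ((5 * n : ℕ) : ℤ)), η p = η' p) : η ∈ Us18 μ s c K₂ n m a U ↔ η' ∈ Us18 μ s c K₂ n m a U := by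
  have key : ∀ η η' : Env, (∀ p ∈ rows a.1 (a.1 + ((5 * n : ℕ) : ℤ)), η p = η' p) → η ∈ Us18 μ s c K₂ n m a U →
      η' ∈ Us18 μ s c K₂ n m a U := fun η η' h hη σ i hσ =>
    (t3_rows fun q hq => h q ⟨by
      have h1 := hq.1
      unfold ft at h1
      dsimp only at h1
      have h2 : (0 : ℤ) ≤ ((rw3 n m i : ℕ) : ℤ) := Int.natCast_nonneg _
      linarith, by
      have h1 := hq.2
      unfold ft at h1
      dsimp only at h1
      have h2 := rw3_le hm i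
      push_cast [Nat.cast_sub h2] at h1 ⊢
      linarith⟩).1 (hη σ i hσ)
  exact ⟨key η η' h, key η' η fun p hp => (h p hp).symm⟩

theorem jp18_rows [IsProbabilityMeasure μ] {K₂ : ℝ} {n m : ℕ} (hm : 2 * m ≤ n) {a : Pt} {Y : ℝ} {η η' : Env}
    (h : ∀ p ∈ rows a.1 (a.1 + ((5 * n : ℕ) : ℤ)), η p = η' p) : η ∈ Jp18 μ s K₂ n m a Y ↔ η' ∈ Jp18 μ s K₂ n m a Y := by
  have key : ∀ η η' : Env, (∀ p ∈ rows a.1 (a.1 + ((5 * n : ℕ) : ℤ)), η p = η' p) → η ∈ Jp18 μ s K₂ n m a Y →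
      η' ∈ Jp18 μ s K₂ n m a Y := by
    intro η η' h hη i p j A h1 h2 h3 h4 h5 h6
    have e : WS μ s η' p j A = WS μ s η p j A := (WS_dep (μ := μ) (s := s) p j A fun q hq => (h q ⟨by
      have h7 := hq.1
      have h8 : (0 : ℤ) ≤ ((i * n : ℕ) : ℤ) := Int.natCast_nonneg _
      omega, by
      have h7 := hq.2
      rcases h1 with rfl | rfl <;> push_cast at h3 ⊢ <;> omega⟩).symm)
    rw [e]
    exact hη i p j A h1 h2 h3 h4 h5 h6
  exact ⟨key η η' h, key η' η fun p hp => (h p hp).symm⟩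

end

end Pool.Agent.W_7d29a1_C1.GL18
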