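import Pool.Agent.W_7d29a1_C1.KerB16
import Pool.Agent.W_7d29a1_C1.GateU18

/-!
MP_7d29a1_pr, [C1] SEP: THE UPPER KERNELS OF ALL THE STARTS OF A BLOCK, WITH A SLOPE. (helper52, for helper22)

`UpS μ s t₀ o N V σ`: for every start `p` and length `j` inside of the rows `[o.1, o.1 + N]` (any column) the three lucks (tilts `0`, `± t₀`)
are at most `V + σ |lat16 o p|`. It is decreasing, reads the rows `(o.1, o.1 + N]`, and:
* `upS_tw`, `upS_all` : `∑_y W p j y exp (t (y - sl j)) ≤ exp (V + σ |lat|)` for the three tilts, `≤ 2 exp (..)` for all `|t| ≤ t₀`;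
* `upS_V`, `upS_W`, `upS_far`;
* **`far_upS`** : `Far16 .. n N P o q ⊆ UpS (hc n) o N (C₁ (1 + q)² EE n) (σ EE n / wd n)`, any `σ > 0`, `C₁ = C₁ (P, σ)`;
* **`upS_prob`** : probability at least `1 - ε` for `V = V₁ EE n`, slope `σ EE n / wd n`, any `σ > 0`, `n ≥ n₁`, `N ≤ n`, any base.
-/

set_option autoImplicit false

namespace Pool.Agent.W_7d29a1_C1.Up52

open MeasureTheory ProbabilityTheory Filter Topology
open Pool.Agent.W_7d29a1_F Pool.Agent.W_7d29a1_h4g Pool.Agent.W_7d29a1_H Pool.Agent.W_7d29a1_HS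
open Pool.Agent.W_7d29a1_L (T kap Sub_T T_sh exp_T)
open Pool.Agent.W_7d29a1_C1.U16
open Pool.Agent.W_7d29a1_C1.H75
open Pool.Agent.W_7d29a1_C1.GL18 (T3 t3_dec t3_mono t3_meas t3_rows t3_V t3_W t3_far)

noncomputable section

variable {μ : Measure ℝ} {s : ℝ}

/-- **The upper kernels with a slope.** -/
def UpS (μ : Measure ℝ) (s t₀ : ℝ) (o : Pt) (N : ℕ) (V σ : ℝ) : Set Env :=
  {η | ∀ (p : Pt) (j : ℕ), o.1 ≤ p.1 → p.1 + j ≤ o.1 + N → T μ s (sl μ s) 0 η p j ≤ V + σ * |lat16 μ s o p| ∧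
    T μ s (sl μ s) t₀ η p j ≤ V + σ * |lat16 μ s o p| ∧ T μ s (sl μ s) (-t₀) η p j ≤ V + σ * |lat16 μ s o p|}

section Str

variable {t₀ V V' σ σ' : ℝ} {o : Pt} {N N' : ℕ} {η η' : Env}

theorem upS_dec (h : η ∈ UpS μ s t₀ o N V σ) (hh : ∀ q, η' q ≤ η q) : η' ∈ UpS μ s t₀ o N V σ := fun p j h1 h2 =>
  ⟨(T_mono_env hh _ _ _).trans (h p j h1 h2).1, (T_mono_env hh _ _ _).trans (h p j h1 h2).2.1,
    (T_mono_env hh _ _ _).trans (h p j h1 h2).2.2⟩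

theorem upS_mono (hV : V ≤ V') (hσ : σ ≤ σ') (hN : N' ≤ N) : UpS μ s t₀ o N V σ ⊆ UpS μ s t₀ o N' V' σ' := fun η hη p j h1 h2 => by
  have h3 := hη p j h1 (by omega)
  have h4 : V + σ * |lat16 μ s o p| ≤ V' + σ' * |lat16 μ s o p| := by
    have := mul_le_mul_of_nonneg_right hσ (abs_nonneg (lat16 μ s o p))
    linarith
  exact ⟨h3.1.trans h4, h3.2.1.trans h4, h3.2.2.trans h4⟩

/-- Another base, fewer rows. -/
theorem upS_base {b : Pt} (hσ : 0 ≤ σ) (h1 : b.1 ≤ o.1) (h2 : o.1 + N' ≤ b.1 + N) :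
    UpS μ s t₀ b N V σ ⊆ UpS μ s t₀ o N' (V + σ * |lat16 μ s b o|) σ := fun η hη p j h3 h4 => by
  have h5 := hη p j (h1.trans h3) (by omega)
  have e : lat16 μ s b p = lat16 μ s b o + lat16 μ s o p := by
    unfold lat16
    push_cast
    ring
  have h6 : V + σ * |lat16 μ s b p| ≤ V + σ * |lat16 μ s b o| + σ * |lat16 μ s o p| := by
    have := mul_le_mul_of_nonneg_left (abs_add_le (lat16 μ s b o) (lat16 μ s o p)) hσ
    rw [e]
    linarith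
  exact ⟨h5.1.trans h6, h5.2.1.trans h6, h5.2.2.trans h6⟩

/-- The event reads only the rows `(o.1, o.1 + N]`. -/
theorem upS_rows (hh : ∀ p ∈ rows o.1 (o.1 + N), η p = η' p) : η ∈ UpS μ s t₀ o N V σ ↔ η' ∈ UpS μ s t₀ o N V σ := by
  have key : ∀ (p : Pt) (j : ℕ) (t : ℝ), o.1 ≤ p.1 → p.1 + j ≤ o.1 + N → T μ s (sl μ s) t η p j = T μ s (sl μ s) t η' p j :=
    fun p j t h1 h2 => U16.T_rows (μ := μ) (s := s) (v := sl μ s) (h := t) p j fun q hq => hh q ⟨lt_of_le_of_lt h1 hq.1, hq.2.trans h2⟩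
  constructor
  · intro h p j h1 h2
    rw [← key p j 0 h1 h2, ← key p j t₀ h1 h2, ← key p j (-t₀) h1 h2]
    exact h p j h1 h2
  · intro h p j h1 h2
    rw [key p j 0 h1 h2, key p j t₀ h1 h2, key p j (-t₀) h1 h2]
    exact h p j h1 h2

theorem upS_meas [IsProbabilityMeasure μ] : MeasurableSet (UpS μ s t₀ o N V σ) := by
  have e : UpS μ s t₀ o N V σ = ⋂ p : Pt, ⋂ j : ℕ, {η : Env | o.1 ≤ p.1 → p.1 + j ≤ o.1 + N →
      T μ s (sl μ s) 0 η p j ≤ V + σ * |lat16 μ s o p| ∧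
      T μ s (sl μ s) t₀ η p j ≤ V + σ * |lat16 μ s o p| ∧ T μ s (sl μ s) (-t₀) η p j ≤ V + σ * |lat16 μ s o p|} := by
    ext η
    simp only [Set.mem_iInter]
    exact Iff.rfl
  rw [e]
  refine MeasurableSet.iInter fun p => MeasurableSet.iInter fun j => ?_
  by_cases h1 : o.1 ≤ p.1
  · by_cases h2 : p.1 + j ≤ o.1 + N
    · simp only [h1, h2, forall_true_left]
      exact (measurableSet_le (Sub_T _ _).1 measurable_const).inter ((measurableSet_le (Sub_T _ _).1 measurable_const).inter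
        (measurableSet_le (Sub_T _ _).1 measurable_const))
    · simp only [h2, false_imp_iff, implies_true, Set.ofPred_true, MeasurableSet.univ]
  · simp only [h1, false_imp_iff, Set.ofPred_true, MeasurableSet.univ]

/-- The tilted total mass. -/
theorem upS_tw (h : η ∈ UpS μ s t₀ o N V σ) {p : Pt} {j : ℕ} (h1 : o.1 ≤ p.1) (h2 : p.1 + j ≤ o.1 + N) :
    (∑ y ∈ Finset.Icc (0 : ℤ) j, W μ s η p j y ≤ Real.exp (V + σ * |lat16 μ s o p|)) ∧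
    (∑ y ∈ Finset.Icc (0 : ℤ) j, W μ s η p j y * Real.exp (t₀ * ((y : ℝ) - sl μ s * j)) ≤ Real.exp (V + σ * |lat16 μ s o p|)) ∧
    (∑ y ∈ Finset.Icc (0 : ℤ) j, W μ s η p j y * Real.exp (-t₀ * ((y : ℝ) - sl μ s * j)) ≤ Real.exp (V + σ * |lat16 μ s o p|)) := by
  obtain ⟨g1, g2, g3⟩ := h p j h1 h2
  refine ⟨?_, ?_, ?_⟩
  · have e := exp_T (μ := μ) (s := s) (v := sl μ s) (h := 0) η p j
    simp only [zero_mul, Real.exp_zero, mul_one] at e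
    rw [← e]
    exact Real.exp_le_exp.2 g1
  · rw [← exp_T]
    exact Real.exp_le_exp.2 g2
  · rw [← exp_T]
    exact Real.exp_le_exp.2 g3

/-- All the tilts `|t| ≤ t₀`. -/
theorem upS_all (h : η ∈ UpS μ s t₀ o N V σ) {p : Pt} {j : ℕ} (h1 : o.1 ≤ p.1) (h2 : p.1 + j ≤ o.1 + N) {t : ℝ} (ht : |t| ≤ t₀) :
    ∑ y ∈ Finset.Icc (0 : ℤ) j, W μ s η p j y * Real.exp (t * ((y : ℝ) - sl μ s * j)) ≤ 2 * Real.exp (V + σ * |lat16 μ s o p|) := by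
  obtain ⟨-, g2, g3⟩ := upS_tw h h1 h2
  have key : ∀ y : ℤ, W μ s η p j y * Real.exp (t * ((y : ℝ) - sl μ s * j)) ≤
      W μ s η p j y * Real.exp (t₀ * ((y : ℝ) - sl μ s * j)) + W μ s η p j y * Real.exp (-t₀ * ((y : ℝ) - sl μ s * j)) := fun y => by
    obtain ⟨x, hx⟩ : ∃ x : ℝ, x = (y : ℝ) - sl μ s * j := ⟨_, rfl⟩
    rw [← hx, ← mul_add]
    refine mul_le_mul_of_nonneg_left ?_ (W_nonneg _ _ _ _)
    have k1 : t * x ≤ t₀ * |x| := by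
      have a1 := mul_le_mul_of_nonneg_right ht (abs_nonneg x)
      have a2 := le_abs_self (t * x)
      rw [abs_mul] at a2
      linarith
    rcases abs_cases x with ⟨k2, -⟩ | ⟨k2, -⟩
    · rw [k2] at k1
      have := Real.exp_le_exp.2 k1
      have := Real.exp_pos (-t₀ * x)
      linarith
    · rw [k2] at k1
      have k3 : Real.exp (t * x) ≤ Real.exp (-t₀ * x) := Real.exp_le_exp.2 (by linarith)
      have := Real.exp_pos (t₀ * x)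
      linarith
  refine (Finset.sum_le_sum fun y _ => key y).trans ?_
  rw [Finset.sum_add_distrib]
  linarith

/-- The total mass. -/
theorem upS_V (h : η ∈ UpS μ s t₀ o N V σ) {p : Pt} {j : ℕ} (h1 : o.1 ≤ p.1) (h2 : p.1 + j ≤ o.1 + N) :
    Pool.Agent.W_7d29a1_F.V μ s η p j ≤ V + σ * |lat16 μ s o p| := by
  have := (h p j h1 h2).1
  rwa [T_zero_tilt] at this

/-- One displacement. -/
theorem upS_W (h : η ∈ UpS μ s t₀ o N V σ) {p : Pt} {j : ℕ} (h1 : o.1 ≤ p.1) (h2 : p.1 + j ≤ o.1 + N) (y : ℤ) :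
    W μ s η p j y ≤ Real.exp (V + σ * |lat16 μ s o p| - t₀ * |(y : ℝ) - sl μ s * j|) := by
  obtain ⟨-, g2, g3⟩ := h p j h1 h2
  rcases abs_cases ((y : ℝ) - sl μ s * j) with ⟨h3, _⟩ | ⟨h3, _⟩
  · rw [h3]
    exact (W_le_tilt (h := t₀) (v := sl μ s) _ _ _ _).trans (Real.exp_le_exp.2 (by linarith))
  · rw [h3]
    exact (W_le_tilt (h := -t₀) (v := sl μ s) _ _ _ _).trans (Real.exp_le_exp.2 (by linarith))

/-- Far displacements. -/
theorem upS_far (ht : 0 ≤ t₀) (h : η ∈ UpS μ s t₀ o N V σ) {p : Pt} {j : ℕ} (h1 : o.1 ≤ p.1) (h2 : p.1 + j ≤ o.1 + N) {ρ : ℝ}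
    (A : Finset ℤ) (hA : ∀ y ∈ A, ρ ≤ |(y : ℝ) - sl μ s * j|) :
    WS μ s η p j A ≤ 2 * Real.exp (V + σ * |lat16 μ s o p| - t₀ * ρ) := by
  classical
  obtain ⟨-, g2, g3⟩ := h p j h1 h2
  have hs : WS μ s η p j A ≤ WS μ s η p j (A.filter fun y => ρ ≤ (y : ℝ) - sl μ s * j) +
      WS μ s η p j (A.filter fun y => ¬ ρ ≤ (y : ℝ) - sl μ s * j) := by
    unfold WS
    rw [Finset.sum_filter_add_sum_filter_not]
  have e1 := WS_le_tilt (μ := μ) (s := s) (v := sl μ s) (h := t₀) η p j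
    (A.filter fun y => ρ ≤ (y : ℝ) - sl μ s * j) (q := t₀ * ρ)
    (fun y hy => mul_le_mul_of_nonneg_left (Finset.mem_filter.1 hy).2 ht)
  have e2 := WS_le_tilt (μ := μ) (s := s) (v := sl μ s) (h := -t₀) η p j
    (A.filter fun y => ¬ ρ ≤ (y : ℝ) - sl μ s * j) (q := t₀ * ρ) (fun y hy => by
      obtain ⟨k1, k2⟩ := Finset.mem_filter.1 hy
      have k3 : ρ ≤ -((y : ℝ) - sl μ s * j) := by
        rcases le_abs.1 (hA y k1) with k4 | k4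
        · exact absurd k4 k2
        · exact k4
      have k5 := mul_le_mul_of_nonneg_left k3 ht
      linarith)
  have e3 : Real.exp (T μ s (sl μ s) t₀ η p j - t₀ * ρ) ≤ Real.exp (V + σ * |lat16 μ s o p| - t₀ * ρ) :=
    Real.exp_le_exp.2 (by linarith)
  have e4 : Real.exp (T μ s (sl μ s) (-t₀) η p j - t₀ * ρ) ≤ Real.exp (V + σ * |lat16 μ s o p| - t₀ * ρ) :=
    Real.exp_le_exp.2 (by linarith)
  linarith

/-- The slab of a start as `T3`. -/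
theorem upS_T3 {c : ℝ} {n' : ℕ} (h : η ∈ UpS μ s (hc μ s c n') o N V σ) {p : Pt} {j : ℕ} (h1 : o.1 ≤ p.1) (h2 : p.1 + j ≤ o.1 + N) :
    η ∈ T3 μ s c n' (V + σ * |lat16 μ s o p|) p j := h p j h1 h2

end Str

/-! ### From the levels -/

variable [IsProbabilityMeasure μ] {c C : ℝ} {n₀ : ℕ}

/-- The three lucks at every place. -/
theorem far_T3 {θ K q : ℝ} {n N P : ℕ} {b : Pt} {η : Env} (hq : 0 ≤ q) (hw : 1 ≤ wd μ s n) (hη : η ∈ Far16 μ s c θ K n N P b q)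
    (hK : 3 ≤ K) {p : Pt} {j : ℕ} (h1 : b.1 ≤ p.1) (h2 : p.1 + j ≤ b.1 + N) :
    η ∈ T3 μ s c n (q * fq16 P (|lat16 μ s b p| / wd μ s n + 1) * EE μ s n) p j := by
  obtain ⟨m, hL, hp, hbox⟩ := far_lev hq hw hη hK h1 (by omega)
  have f1 := fq16_one P (|lat16 μ s b p| / wd μ s n + 1)
  have f2 := Int.floor_le (sl μ s * j)
  have f3 := Int.lt_floor_add_one (sl μ s * j)
  have hf : |((⌊sl μ s * (j : ℝ)⌋ : ℤ) : ℝ) - sl μ s * j| ≤ (K - 2) * wd μ s n := by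
    rw [abs_le]
    constructor <;> nlinarith
  exact ((LevS_iff (by positivity)).1 hL p j _ hp (hbox j _ h2 hf)).2

/-- **FROM THE LEVELS.** -/
theorem far_upS (P : ℕ) {σ : ℝ} (hσ : 0 < σ) : ∃ C₁ : ℝ, 0 < C₁ ∧ ∀ {θ K q : ℝ} {n N : ℕ} {b : Pt}, 0 ≤ q → 1 ≤ wd μ s n → 3 ≤ K →
    Far16 μ s c θ K n N P b q ⊆ UpS μ s (hc μ s c n) b N (C₁ * (1 + q) ^ 2 * EE μ s n) (σ * (EE μ s n / wd μ s n)) := by
  obtain ⟨C₀, hC₀, H⟩ := fq16_pay P hσ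
  have g1 := fq16_one P 1
  obtain ⟨g, hg⟩ : ∃ g : ℝ, g = fq16 P 1 := ⟨_, rfl⟩
  rw [← hg] at g1
  refine ⟨C₀ * g ^ 2, by positivity, fun {θ K q n N b} hq hw hK η hη p j h1 h2 => ?_⟩
  have hE := EE_pos (μ := μ) (s := s) n
  have hw0 : 0 < wd μ s n := by linarith
  obtain ⟨x, hx⟩ : ∃ x : ℝ, x = |lat16 μ s b p| / wd μ s n := ⟨_, rfl⟩
  have hx0 : 0 ≤ x := by rw [hx]; positivity
  have k1 : fq16 P (x + 1) ≤ fq16 P x * g := by
    rw [hg]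
    exact fq16_mul P hx0 zero_le_one
  have k2 := H (q * g) x (by positivity) hx0
  have k3 : q * fq16 P (x + 1) ≤ σ * x + C₀ * g ^ 2 * (1 + q) ^ 2 := by
    have a1 := mul_le_mul_of_nonneg_left k1 hq
    have a2 : (1 + q * g) ^ 2 ≤ (g * (1 + q)) ^ 2 := pow_le_pow_left₀ (by positivity) (by nlinarith) 2
    have a3 := mul_le_mul_of_nonneg_left a2 hC₀.le
    have e : C₀ * (g * (1 + q)) ^ 2 = C₀ * g ^ 2 * (1 + q) ^ 2 := by ring
    rw [e] at a3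
    nlinarith
  have k4 : q * fq16 P (|lat16 μ s b p| / wd μ s n + 1) * EE μ s n ≤
      C₀ * g ^ 2 * (1 + q) ^ 2 * EE μ s n + σ * (EE μ s n / wd μ s n) * |lat16 μ s b p| := by
    rw [← hx]
    have a1 := mul_le_mul_of_nonneg_right k3 hE.le
    have e : σ * (EE μ s n / wd μ s n) * |lat16 μ s b p| = σ * x * EE μ s n := by
      rw [hx]
      field_simp
    rw [e]
    linarith
  exact GL18.t3_mono k4 (far_T3 hq hw hη hK h1 h2)

/-- **THE PROBABILITY.** -/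
theorem upS_prob (h : In μ s c C n₀) {ε σ : ℝ} (hε : 0 < ε) (hσ : 0 < σ) : ∃ V₁ : ℝ, 0 < V₁ ∧ ∃ n₁ : ℕ, 1 ≤ n₁ ∧ ∀ n : ℕ, n₁ ≤ n →
    ∀ (N : ℕ), N ≤ n → ∀ o : Pt, (law μ).real (UpS μ s (hc μ s c n) o N (V₁ * EE μ s n) (σ * (EE μ s n / wd μ s n)))ᶜ ≤ ε := by
  obtain ⟨P, A, a, g, hA, ha, hg, hg1, n₁, hn1, H⟩ := far_prob h (K := 3) (θ := 1) (by norm_num) one_pos le_rfl
  obtain ⟨C₁, hC₁, HU⟩ := far_upS (μ := μ) (s := s) (c := c) P hσ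
  have ht : Tendsto (fun q : ℝ => A * Real.exp (-(a * q ^ g))) atTop (𝓝 0) := by
    have h1 : Tendsto (fun q : ℝ => a * q ^ g) atTop atTop := (tendsto_rpow_atTop hg).const_mul_atTop ha
    have h2 := (Real.tendsto_exp_neg_atTop_nhds_zero.comp h1).const_mul A
    simpa using h2
  obtain ⟨q, hq, hq0⟩ := ((ht.eventually_le_const hε).and (eventually_ge_atTop (0 : ℝ))).exists
  obtain ⟨n₂, hn₂⟩ := eventually_atTop.1 (h.tE.eventually_ge_atTop 1)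
  refine ⟨C₁ * (1 + q) ^ 2, by positivity, max n₁ n₂, hn1.trans (le_max_left _ _), fun n hn N hN o => ?_⟩
  have hw : 1 ≤ wd μ s n := by
    have k1 := wd_ge_one h (hn1.trans ((le_max_left _ _).trans hn))
    have k2 := hn₂ n ((le_max_right _ _).trans hn)
    linarith
  refine (measureReal_mono (Set.compl_subset_compl.2 (HU (θ := 1) (K := 3) hq0 hw le_rfl))).trans ?_
  exact (H n ((le_max_left _ _).trans hn) N hN o q hq0).trans hq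

/-! ### The letters of helper22 -/

/-- The tilted total mass of one start, in the form `∑ exp (τ (y - sl n)) W`. -/
def tw52 (μ : Measure ℝ) (s τ : ℝ) (ω : Env) (P : Pt) (n : ℕ) : ℝ :=
  ∑ y ∈ Finset.Icc (0 : ℤ) n, Real.exp (τ * ((y : ℝ) - sl μ s * n)) * W μ s ω P n y

omit [IsProbabilityMeasure μ] in
theorem tw52_eq (τ : ℝ) (ω : Env) (P : Pt) (n : ℕ) : tw52 μ s τ ω P n = Real.exp (T μ s (sl μ s) τ ω P n) := by
  rw [exp_T]
  exact Finset.sum_congr rfl fun y _ => mul_comm _ _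

/-- `UpS` of helper22: all the starts of the rows `[a, e]`, lengths inside, both tilts, a slope in the coordinate `l`. -/
def Up22 (μ : Measure ℝ) (s t₀ V σ : ℝ) (l : ℕ → ℤ → ℝ) (a e : ℕ) : Set Env :=
  {ω | ∀ (k : ℕ) (x : ℤ) (n : ℕ), a ≤ k → k + n ≤ e → tw52 μ s t₀ ω ((k : ℤ), x) n ≤ Real.exp (V + σ * |l k x|) ∧
    tw52 μ s (-t₀) ω ((k : ℤ), x) n ≤ Real.exp (V + σ * |l k x|)}

/-- The coordinate over the base `o`. -/
def lo52 (μ : Measure ℝ) (s : ℝ) (o : Pt) (k : ℕ) (x : ℤ) : ℝ := lat16 μ s o ((k : ℤ), x)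

omit [IsProbabilityMeasure μ] in
theorem upS_22 {t₀ V σ : ℝ} {o : Pt} {N a e : ℕ} (h1 : o.1 ≤ (a : ℤ)) (h2 : (e : ℤ) ≤ o.1 + N) :
    UpS μ s t₀ o N V σ ⊆ Up22 μ s t₀ V σ (lo52 μ s o) a e := fun η hη k x n h3 h4 => by
  obtain ⟨-, g2, g3⟩ := hη ((k : ℤ), x) n (show o.1 ≤ (k : ℤ) by omega) (show (k : ℤ) + n ≤ o.1 + N by omega)
  rw [tw52_eq, tw52_eq]
  exact ⟨Real.exp_le_exp.2 g2, Real.exp_le_exp.2 g3⟩

omit [IsProbabilityMeasure μ] in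
/-- Another coordinate, at distance `δ`. -/
theorem up22_l {t₀ V V' σ δ : ℝ} {l l' : ℕ → ℤ → ℝ} {a e a' e' : ℕ} (hσ : 0 ≤ σ) (ha : a ≤ a') (he : e' ≤ e)
    (hl : ∀ k x, a' ≤ k → k ≤ e' → |l k x| ≤ |l' k x| + δ) (hV : V + σ * δ ≤ V') :
    Up22 μ s t₀ V σ l a e ⊆ Up22 μ s t₀ V' σ l' a' e' := fun η hη k x n h3 h4 => by
  obtain ⟨g2, g3⟩ := hη k x n (by omega) (by omega)
  have h5 : V + σ * |l k x| ≤ V' + σ * |l' k x| := by
    have := mul_le_mul_of_nonneg_left (hl k x h3 (by omega)) hσ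
    linarith
  have h6 := Real.exp_le_exp.2 h5
  exact ⟨g2.trans h6, g3.trans h6⟩

/-- **(a) FROM THE LEVELS**, in helper22's letters: `V = C₁ (1 + q)² EE n`, slope `σ EE n / wd n`, `t₀ = hc n`. -/
theorem far_22 (P : ℕ) {σ : ℝ} (hσ : 0 < σ) : ∃ C₁ : ℝ, 0 < C₁ ∧ ∀ {θ K q : ℝ} {n N : ℕ} {o : Pt} {a e : ℕ}, 0 ≤ q → 1 ≤ wd μ s n →
    3 ≤ K → o.1 ≤ (a : ℤ) → (e : ℤ) ≤ o.1 + N → Far16 μ s c θ K n N P o q ⊆
      Up22 μ s (hc μ s c n) (C₁ * (1 + q) ^ 2 * EE μ s n) (σ * (EE μ s n / wd μ s n)) (lo52 μ s o) a e := by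
  obtain ⟨C₁, hC₁, H⟩ := far_upS (μ := μ) (s := s) (c := c) P hσ
  exact ⟨C₁, hC₁, fun {θ K q n N o a e} hq hw hK h1 h2 => (H hq hw hK).trans (upS_22 h1 h2)⟩

/-- **(b) THE PROBABILITY**, in helper22's letters: `V₁` before everything else. -/
theorem prob_22 (h : In μ s c C n₀) {ε σ : ℝ} (hε : 0 < ε) (hσ : 0 < σ) : ∃ V₁ : ℝ, 0 < V₁ ∧ ∃ n₁ : ℕ, 1 ≤ n₁ ∧ ∀ n : ℕ, n₁ ≤ n →
    ∀ (o : Pt) (a e : ℕ), o.1 ≤ (a : ℤ) → (e : ℤ) ≤ o.1 + n →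
      (law μ).real (Up22 μ s (hc μ s c n) (V₁ * EE μ s n) (σ * (EE μ s n / wd μ s n)) (lo52 μ s o) a e)ᶜ ≤ ε := by
  obtain ⟨V₁, hV₁, n₁, hn₁, H⟩ := upS_prob h hε hσ
  refine ⟨V₁, hV₁, n₁, hn₁, fun n hn o a e h1 h2 => (measureReal_mono (Set.compl_subset_compl.2 (upS_22 h1 h2))).trans ?_⟩
  exact H n hn n le_rfl o

end

end Pool.Agent.W_7d29a1_C1.Up52
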