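import Pool.Agent.W_7d29a1_C1.SepD98
import Pool.Agent.W_7d29a1_C1.RoB22
import Pool.Agent.W_7d29a1_C1.LoW18
import Pool.Agent.W_7d29a1_C1.UpS52

/-!
MP_7d29a1_pr, [C1] attractor route, SEP: THE CONCRETE WINDOW, with the events of the ratio (RatB22, LoW18, UpS52). (helper98; version 3 =
page 694 of helper25)

`Nr98` : the numbers. `Kg98` (rows `(ra - 1, rl98]`: upper kernels of all the starts with a slope `UpS98`, lower kernels which avoid the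
wall sites `LoE98`), `KT98` (rows `(b98, re)`: `UpT98`, `LoT98`), `KG98 = Kg98 ∩ KT98` (old and new content, it does not read the lane
block), `KL98` (rows `(rl98, re)`: killed upper kernels and lower kernels, of the NEW content, after the luck), `KE98` (rows `(rl98, re)`,
`UpF98`, `LoF98`: of the OLD content, before the luck), `XO98 = KE98 ∩ StB's` (of the OLD content). `LvA98`, `LuA98` : the typical and the
lucky set of the window; their membership in helper22's `LvR`, `LR`; `sLv`, `mL`, `dis`.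
`TP98` : the part of `LvA98` which the move of the walls may use (`DecO (Sg98)ᶜ`).
-/

set_option autoImplicit false

namespace Pool.Agent.W_7d29a1_C1.D98

open MeasureTheory ProbabilityTheory Finset
open Pool.Agent.W_7d29a1_F hiding Bw G
open Pool.Agent.W_7d29a1_h4g Pool.Agent.W_7d29a1_H Pool.Agent.W_7d29a1_HS
open Pool.Agent.W_7d29a1_C1
open Pool.Agent.W_7d29a1_C1.K91 (wt wt_pos)
open Pool.Agent.W_7d29a1_C1.S71 (Off gl gl_of_mem gl_of_not_mem)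
open Pool.Agent.W_7d29a1_C1.F31 (DecO)
open Pool.Agent.W_7d29a1_C1.H60
open Pool.Agent.W_7d29a1_C1.H75 (hc)
open Pool.Agent.W_7d29a1_C1.G37 (Gm)
open Pool.Agent.W_7d29a1_C1.BP58
open Pool.Agent.W_7d29a1_C1.GL18
open Pool.Agent.W_7d29a1_C1.P25 (offR offS)
open Pool.Agent.W_7d29a1_C1.RB22

noncomputable section

/-- **THE NUMBERS OF THE RATIO.** -/
structure Nr98 where
  /-- the strip of the window ratio (`bB` of the page), after the luck -/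
  b : ℕ → ℝ
  A : ℕ → ℝ
  X : ℕ → ℝ
  U1 : ℕ → ℝ
  Uw : ℕ → ℝ
  /-- the upper kernels of all the starts: level and slope (before the luck) -/
  Vs : ℕ → ℝ
  sV : ℕ → ℝ
  /-- strip and level of the lower kernels (before the luck) -/
  Re : ℝ
  Qe : ℝ

variable (μ : Measure ℝ) (s c : ℝ) (Γ : Cx) (G : Gm) (P : Nm98) (R : Nr98) (u : ℕ) (κ : ℤ × ℤ)

/-- The first row of the lane block. -/
def rf98 : ℕ := rl98 Γ G P u κ + 1

/-- **The lower kernels of the gate block**, off the wall sites. -/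
def LoE98 : Set Env := Lw18 μ s G u κ (G.ra u κ - 1) (rf98 Γ G P u κ) R.Re (Sg98 μ s Γ G P u κ) R.Qe

/-- **The upper kernels of all the starts of the gate block**, with a slope. -/
def UpS98 : Set Env := Up52.UpS μ s (hc μ s c (G.T u)) (pt98 G u κ (G.ra u κ - 1)) (rl98 Γ G P u κ - (G.ra u κ - 1)) (R.Vs u) (R.sV u)

/-- **The lower kernels of the rows beyond the lane block.** -/
def LoT98 : Set Env := Lw18 μ s G u κ (b98 Γ G P u κ) (G.re u κ) R.Re ∅ R.Qe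

/-- **The upper kernels of all the starts of the rows beyond the lane block**, with a slope. -/
def UpT98 : Set Env := Up52.UpS μ s (hc μ s c (G.T u)) (pt98 G u κ (b98 Γ G P u κ)) (G.re u κ - 1 - b98 Γ G P u κ) (R.Vs u) (R.sV u)

/-- **The events of the gate block.** -/
def Kg98 : Set Env := LoE98 μ s Γ G P R u κ ∩ UpS98 μ s c Γ G P R u κ

/-- **The events of the rows beyond the lane block.** -/
def KT98 : Set Env := LoT98 μ s Γ G P R u κ ∩ UpT98 μ s c Γ G P R u κ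

/-- **What is asked of the old and of the new content off the lane block.** -/
def KG98 : Set Env := Kg98 μ s c Γ G P R u κ ∩ KT98 μ s c Γ G P R u κ

/-- **The events of the lane block and beyond**, new content. -/
def KL98 : Set Env :=
  KiB Γ G (Ou37.gam μ s Γ) (R.b u) (R.A u) (R.X u) u κ (rl98 Γ G P u κ) (G.re u κ) ∩
    LoB Γ G (Ou37.gam μ s Γ) (R.b u) (R.U1 u) u κ (rl98 Γ G P u κ) (G.re u κ)

/-- **The lower kernels of the lane block and beyond**, old content. -/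
def LoF98 : Set Env := Lw18 μ s G u κ (rl98 Γ G P u κ) (G.re u κ) R.Re ∅ R.Qe

/-- **The upper kernels of all the starts of the lane block and beyond**, old content. -/
def UpF98 : Set Env := Up52.UpS μ s (hc μ s c (G.T u)) (pt98 G u κ (rl98 Γ G P u κ)) (G.re u κ - 1 - rl98 Γ G P u κ) (R.Vs u) (R.sV u)

/-- **The events of the lane block and beyond**, old content. -/
def KE98 : Set Env := LoF98 μ s Γ G P R u κ ∩ UpF98 μ s c Γ G P R u κ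

/-- **The further events of the old content.** -/
def XO98 : Set Env :=
  KE98 μ s c Γ G P R u κ ∩ (StB G (R.b u) (R.Uw u) u κ (rf98 Γ G P u κ) ∩
    (StB G (R.b u) (R.Uw u) u κ (b98 Γ G P u κ + 1) ∩ StB G (R.b u) (R.Uw u) u κ (G.re u κ)))

/-- **THE TYPICAL SET OF THE WINDOW** (`Lv` of `In25`). -/
def LvA98 : Set Env := Lv98 μ s c Γ G P (KG98 μ s c Γ G P R) (KL98 μ s Γ G P R) (XO98 μ s c Γ G P R) u κ

/-- **THE LUCKY SET OF THE WINDOW** (`L` of `In25`). -/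
def LuA98 : Set Env := L98 μ s c Γ G P (KG98 μ s c Γ G P R) (KL98 μ s Γ G P R) u κ

/-- **`TP98`**: `LvA98` without `Far98` (which reads the gate block) and without the unluck. -/
def TP98 : Set Env :=
  ({_ω : Env | NoSw98 Γ G u κ} ∩ (Gt98 μ s c Γ G P u κ ∩ KG98 μ s c Γ G P R u κ)) ∩
    (XO98 μ s c Γ G P R u κ ∩ (FarL98 μ s c Γ G P u κ ∩ Ty98 μ s c Γ G P (KL98 μ s Γ G P R) u κ))

variable {μ s c Γ G P R u κ}

theorem gam_pos98 (k : ℕ) (y : ℤ) : 0 < Ou37.gam μ s Γ k y := Ou37.gam_pos k y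

/-! ### Measurability -/

theorem meas_LoE98 : MeasurableSet (LoE98 μ s Γ G P R u κ) := lw18_meas _ _ _ _ _

theorem meas_LoT98 : MeasurableSet (LoT98 μ s Γ G P R u κ) := lw18_meas _ _ _ _ _

theorem meas_UpS98 [IsProbabilityMeasure μ] : MeasurableSet (UpS98 μ s c Γ G P R u κ) := Up52.upS_meas

theorem meas_UpT98 [IsProbabilityMeasure μ] : MeasurableSet (UpT98 μ s c Γ G P R u κ) := Up52.upS_meas

theorem meas_Kg98 [IsProbabilityMeasure μ] : MeasurableSet (Kg98 μ s c Γ G P R u κ) := meas_LoE98.inter meas_UpS98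

theorem meas_KT98 [IsProbabilityMeasure μ] : MeasurableSet (KT98 μ s c Γ G P R u κ) := meas_LoT98.inter meas_UpT98

theorem meas_KG98 [IsProbabilityMeasure μ] : MeasurableSet (KG98 μ s c Γ G P R u κ) := meas_Kg98.inter meas_KT98

theorem meas_KL98 : MeasurableSet (KL98 μ s Γ G P R u κ) := (meas_KiB _ _ _ _ _ _ _).inter (meas_LoB _ _ _ _ _ _)

theorem meas_LoF98 : MeasurableSet (LoF98 μ s Γ G P R u κ) := lw18_meas _ _ _ _ _

theorem meas_UpF98 [IsProbabilityMeasure μ] : MeasurableSet (UpF98 μ s c Γ G P R u κ) := Up52.upS_meas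

theorem meas_KE98 [IsProbabilityMeasure μ] : MeasurableSet (KE98 μ s c Γ G P R u κ) := meas_LoF98.inter meas_UpF98

theorem meas_XO98 [IsProbabilityMeasure μ] : MeasurableSet (XO98 μ s c Γ G P R u κ) :=
  meas_KE98.inter ((meas_StB _ _ _ _ _).inter ((meas_StB _ _ _ _ _).inter (meas_StB _ _ _ _ _)))

/-! ### The rows read -/

/-- From the sites of natural rows to the weights. -/
theorem wt_of98 {ω ω' : Env} {a e : ℤ} (h : ∀ p ∈ rows a e, ω p = ω' p) {k : ℕ} (h1 : a < (k : ℤ)) (h2 : (k : ℤ) ≤ e) (y : ℤ) :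
    wt ω k y = wt ω' k y := P25.wt_eq (h ((k : ℤ), y) ⟨h1, h2⟩)

theorem on_KiB98 (hv0 : 0 ≤ G.v) (hv1 : G.v ≤ 1) {b A X : ℝ} (hb : G.kw * G.w u + 2 ≤ b * G.w u) (a e : ℕ) :
    On20 (rows (a : ℤ) ((e : ℤ) - 1)) (KiB Γ G (Ou37.gam μ s Γ) b A X u κ a e) := fun ω ω' h =>
  ⟨kiB_congr gam_pos98 hv0 hv1 hb fun k y h1 h2 => wt_of98 h (by omega) (by omega) y,
   kiB_congr gam_pos98 hv0 hv1 hb fun k y h1 h2 => (wt_of98 h (by omega) (by omega) y).symm⟩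

theorem on_LoB98 {b U : ℝ} (a e : ℕ) : On20 (rows (a : ℤ) ((e : ℤ) - 1)) (LoB Γ G (Ou37.gam μ s Γ) b U u κ a e) := fun ω ω' h =>
  ⟨loB_congr gam_pos98 fun k y h1 h2 => wt_of98 h (by omega) (by omega) y,
   loB_congr gam_pos98 fun k y h1 h2 => (wt_of98 h (by omega) (by omega) y).symm⟩

theorem on_StB98 {b U : ℝ} (e : ℕ) : On20 (rows ((e : ℤ) - 1) (e : ℤ)) (StB G b U u κ e) := fun ω ω' h =>
  ⟨stB_congr fun y => wt_of98 h (by omega) le_rfl y, stB_congr fun y => (wt_of98 h (by omega) le_rfl y).symm⟩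

theorem on_Lw98 {ρ Q : ℝ} {A : Set Pt} (a e : ℕ) : On20 (rows (a : ℤ) ((e : ℤ) - 1)) (Lw18 μ s G u κ a e ρ A Q) := by
  intro ω ω' h
  refine lw18_rows fun p h1 h2 => h p ⟨h1, ?_⟩
  show p.1 ≤ (e : ℤ) - 1
  omega

theorem on_Up98 {t V σ : ℝ} (a n : ℕ) : On20 (rows (a : ℤ) ((a + n : ℕ) : ℤ)) (Up52.UpS μ s t (pt98 G u κ a) n V σ) := by
  intro ω ω' h
  refine Up52.upS_rows fun p hp => h p ⟨hp.1, ?_⟩
  have h2 : p.1 ≤ (a : ℤ) + (n : ℤ) := hp.2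
  show p.1 ≤ ((a + n : ℕ) : ℤ)
  push_cast
  exact h2

theorem ra_le_rl98 : G.ra u κ - 1 ≤ rl98 Γ G P u κ :=
  (le_ag98 (Γ := Γ) (G := G) (P := P) (u := u) (κ := κ)).trans ag_le_rl98

theorem ra_cast98 : ((G.ra u κ - 1 : ℕ) : ℤ) = (G.ra u κ : ℤ) - 1 := by
  have := ra_pos98 (G := G) (u := u) (κ := κ)
  omega

theorem on_LoE98 : On20 (rows ((G.ra u κ : ℤ) - 1) (rl98 Γ G P u κ : ℤ)) (LoE98 μ s Γ G P R u κ) := by
  refine (on_Lw98 _ _).mono fun p hp => ?_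
  have h1 : ((G.ra u κ - 1 : ℕ) : ℤ) < p.1 := hp.1
  have h2 : p.1 ≤ ((rf98 Γ G P u κ : ℕ) : ℤ) - 1 := hp.2
  rw [ra_cast98] at h1
  unfold rf98 at h2
  exact ⟨h1, by push_cast at h2; show p.1 ≤ ((rl98 Γ G P u κ : ℕ) : ℤ); omega⟩

theorem on_UpS98 : On20 (rows ((G.ra u κ : ℤ) - 1) (rl98 Γ G P u κ : ℤ)) (UpS98 μ s c Γ G P R u κ) := by
  refine (on_Up98 _ _).mono fun p hp => ?_
  have h1 : ((G.ra u κ - 1 : ℕ) : ℤ) < p.1 := hp.1
  have h2 : p.1 ≤ ((G.ra u κ - 1 + (rl98 Γ G P u κ - (G.ra u κ - 1)) : ℕ) : ℤ) := hp.2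
  have h3 := ra_le_rl98 (Γ := Γ) (G := G) (P := P) (u := u) (κ := κ)
  rw [ra_cast98] at h1
  rw [Nat.add_sub_cancel' h3] at h2
  exact ⟨h1, h2⟩

/-- **The gate events read the rows `[ra, rl98]`.** -/
theorem on_Kg98 : On20 (rows ((G.ra u κ : ℤ) - 1) (rl98 Γ G P u κ : ℤ)) (Kg98 μ s c Γ G P R u κ) := On20.inter on_LoE98 on_UpS98

theorem on_UpT98 (hF : Fit98 G P u) : On20 (rows ((b98 Γ G P u κ : ℕ) : ℤ) ((G.re u κ : ℤ) - 1)) (UpT98 μ s c Γ G P R u κ) := by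
  refine (on_Up98 _ _).mono fun p hp => ?_
  have h1 : ((b98 Γ G P u κ : ℕ) : ℤ) < p.1 := hp.1
  have h2 : p.1 ≤ ((b98 Γ G P u κ + (G.re u κ - 1 - b98 Γ G P u κ) : ℕ) : ℤ) := hp.2
  have h3 := b98_T (Γ := Γ) (κ := κ) hF
  rw [Nat.add_sub_cancel' (by omega : b98 Γ G P u κ ≤ G.re u κ - 1)] at h2
  refine ⟨h1, ?_⟩
  show p.1 ≤ (G.re u κ : ℤ) - 1
  omega

/-- **The events of the top read the rows `(b98, re)`.** -/
theorem on_KT98 (hF : Fit98 G P u) : On20 (rows ((b98 Γ G P u κ : ℕ) : ℤ) ((G.re u κ : ℤ) - 1)) (KT98 μ s c Γ G P R u κ) :=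
  On20.inter (on_Lw98 _ _) (on_UpT98 hF)

theorem on_KL98 (hv0 : 0 ≤ G.v) (hv1 : G.v ≤ 1) (hb : G.kw * G.w u + 2 ≤ R.b u * G.w u) :
    On20 (rows ((rl98 Γ G P u κ : ℕ) : ℤ) ((G.re u κ : ℤ) - 1)) (KL98 μ s Γ G P R u κ) :=
  On20.inter (on_KiB98 hv0 hv1 hb _ _) (on_LoB98 _ _)

theorem on_UpF98 (hF : Fit98 G P u) : On20 (rows ((rl98 Γ G P u κ : ℕ) : ℤ) ((G.re u κ : ℤ) - 1)) (UpF98 μ s c Γ G P R u κ) := by
  refine (on_Up98 _ _).mono fun p hp => ?_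
  have h1 : ((rl98 Γ G P u κ : ℕ) : ℤ) < p.1 := hp.1
  have h2 : p.1 ≤ ((rl98 Γ G P u κ + (G.re u κ - 1 - rl98 Γ G P u κ) : ℕ) : ℤ) := hp.2
  have h3 := b98_T (Γ := Γ) (κ := κ) hF
  have h4 := rl_le_b98 (Γ := Γ) (G := G) (P := P) (u := u) (κ := κ)
  rw [Nat.add_sub_cancel' (by omega : rl98 Γ G P u κ ≤ G.re u κ - 1)] at h2
  refine ⟨h1, ?_⟩
  show p.1 ≤ (G.re u κ : ℤ) - 1
  omega

/-- **The early events of the old content read the rows `(rl98, re)`.** -/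
theorem on_KE98 (hF : Fit98 G P u) : On20 (rows ((rl98 Γ G P u κ : ℕ) : ℤ) ((G.re u κ : ℤ) - 1)) (KE98 μ s c Γ G P R u κ) :=
  On20.inter (on_Lw98 _ _) (on_UpF98 hF)

theorem on_XO98 (hF : Fit98 G P u) :
    On20 (rows ((rl98 Γ G P u κ : ℕ) : ℤ) (G.re u κ : ℤ)) (XO98 μ s c Γ G P R u κ) := by
  have h1 := b98_T (Γ := Γ) (κ := κ) hF
  have h0 := rl_le_b98 (Γ := Γ) (G := G) (P := P) (u := u) (κ := κ)
  have key : ∀ e : ℕ, rl98 Γ G P u κ + 1 ≤ e → e ≤ G.re u κ →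
      On20 (rows ((rl98 Γ G P u κ : ℕ) : ℤ) (G.re u κ : ℤ)) (StB G (R.b u) (R.Uw u) u κ e) := fun e he1 he2 =>
    (on_StB98 e).mono fun p hp => by
      have h2 : (e : ℤ) - 1 < p.1 := hp.1
      have h3 : p.1 ≤ (e : ℤ) := hp.2
      constructor
      · show ((rl98 Γ G P u κ : ℕ) : ℤ) < p.1
        omega
      · show p.1 ≤ (G.re u κ : ℤ)
        omega
  refine On20.inter ((on_KE98 hF).mono fun p hp => ⟨hp.1, ?_⟩)
    (On20.inter (key _ le_rfl (by unfold rf98; omega)) (On20.inter (key _ (by omega) (by omega)) (key _ (by omega) le_rfl)))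
  have h2 : p.1 ≤ (G.re u κ : ℤ) - 1 := hp.2
  show p.1 ≤ (G.re u κ : ℤ)
  omega

/-- **The events `KG98` do not read the lane block.** -/
theorem off_KG98 (hF : Fit98 G P u) : Off (B98 Γ G P u κ) (KG98 μ s c Γ G P R u κ) := (off_B98 on_Kg98).inter (offT_B98 (on_KT98 hF) le_rfl)

theorem offS_KG98 (hF : Fit98 G P u) : Off (offS G u κ) (KG98 μ s c Γ G P R u κ) := by
  have h1 := b98_T (Γ := Γ) (κ := κ) hF
  have h0 := rl_le_b98 (Γ := Γ) (G := G) (P := P) (u := u) (κ := κ)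
  have h2 := rl_ra98 (Γ := Γ) (G := G) (P := P) (u := u) (κ := κ)
  exact (offS_of98 on_Kg98 le_rfl (by omega)).inter (offS_of98 (on_KT98 hF) (by omega) (by omega))

theorem offS_KL98 (hv0 : 0 ≤ G.v) (hv1 : G.v ≤ 1) (hb : G.kw * G.w u + 2 ≤ R.b u * G.w u) :
    Off (offS G u κ) (KL98 μ s Γ G P R u κ) := offS_of98 (on_KL98 hv0 hv1 hb) rl_ra98 (by omega)

theorem offS_XO98 (hF : Fit98 G P u) : Off (offS G u κ) (XO98 μ s c Γ G P R u κ) := offS_of98 (on_XO98 hF) rl_ra98 le_rfl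

/-- The events beyond the gate block do not read the wall sites. -/
theorem offSg_KL98 (hm : 2 * P.m u ≤ P.n u) (hv0 : 0 ≤ G.v) (hv1 : G.v ≤ 1) (hb : G.kw * G.w u + 2 ≤ R.b u * G.w u) :
    Off (Sg98 μ s Γ G P u κ) (KL98 μ s Γ G P R u κ) := offSg98 hm (on_KL98 hv0 hv1 hb) le_rfl

theorem offSg_KT98 (hF : Fit98 G P u) (hm : 2 * P.m u ≤ P.n u) : Off (Sg98 μ s Γ G P u κ) (KT98 μ s c Γ G P R u κ) :=
  offSg98 hm (on_KT98 hF) (by
    have h0 := rl_le_b98 (Γ := Γ) (G := G) (P := P) (u := u) (κ := κ)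
    omega)

theorem offSg_XO98 (hF : Fit98 G P u) (hm : 2 * P.m u ≤ P.n u) : Off (Sg98 μ s Γ G P u κ) (XO98 μ s c Γ G P R u κ) :=
  offSg98 hm (on_XO98 hF) le_rfl

theorem offSg_KE98 (hF : Fit98 G P u) (hm : 2 * P.m u ≤ P.n u) : Off (Sg98 μ s Γ G P u κ) (KE98 μ s c Γ G P R u κ) :=
  offSg98 hm (on_KE98 hF) le_rfl

/-- **The gate events are decreasing in the wall sites.** -/
theorem decO_Kg98 : DecO (Sg98 μ s Γ G P u κ)ᶜ (Kg98 μ s c Γ G P R u κ) :=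
  DecO.inter (decO_off98 (lw18_off _ _ _ _ _)) fun _ _ h1 _ h3 => Up52.upS_dec h3 h1

theorem decO_KG98 (hF : Fit98 G P u) (hm : 2 * P.m u ≤ P.n u) : DecO (Sg98 μ s Γ G P u κ)ᶜ (KG98 μ s c Γ G P R u κ) :=
  DecO.inter decO_Kg98 (decO_off98 (offSg_KT98 hF hm))

/-! ### The fields -/

/-- **`mL` OF `In25`.** -/
theorem meas_LuA98 [IsProbabilityMeasure μ] : MeasurableSet (LuA98 μ s c Γ G P R u κ) := meas_L98 meas_KG98 meas_KL98

theorem meas_LvA98 [IsProbabilityMeasure μ] : MeasurableSet (LvA98 μ s c Γ G P R u κ) := meas_Lv98 meas_KG98 meas_KL98 meas_XO98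

/-- **`dis` OF `In25`.** -/
theorem disA98 : Disjoint (LvA98 μ s c Γ G P R u κ) (LuA98 μ s c Γ G P R u κ) := dis98

/-- The conditions on the numbers which the rows need. -/
structure Ok98 (G : Gm) (P : Nm98) (R : Nr98) (τ0 : ℕ) : Prop where
  v0 : 0 ≤ G.v
  v1 : G.v ≤ 1
  fit : ∀ u, τ0 < u → Fit98 G P u
  n1 : ∀ u, τ0 < u → 1 ≤ P.n u
  m2 : ∀ u, τ0 < u → 2 * P.m u ≤ P.n u
  b_ge : ∀ u, τ0 < u → G.kw * G.w u + 2 ≤ R.b u * G.w u

/-- **THE TYPICAL SET READS THE ROWS `[ra, re]`.** -/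
theorem offS_LvA98 [IsProbabilityMeasure μ] {τ0 : ℕ} (H : Ok98 G P R τ0) (hu : τ0 < u) (h0 : 0 ≤ G.rcc u κ) :
    Off (offS G u κ) (LvA98 μ s c Γ G P R u κ) :=
  offS_Lv98 h0 (H.fit u hu) (H.n1 u hu) (H.m2 u hu) (offS_KG98 (H.fit u hu)) (offS_KL98 H.v0 H.v1 (H.b_ge u hu))
    (offS_XO98 (H.fit u hu))

/-- **`sLv` OF `In25`.** -/
theorem stb_LvA98 [IsProbabilityMeasure μ] {mt q τ0 : ℕ} {dR d smax : ℕ → ℝ} (H : Ok98 G P R τ0) :
    P25.Stb Γ G mt q τ0 dR d smax fun _ => LvA98 μ s c Γ G P R :=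
  stb_rows98 (fun _ _ => meas_LvA98) fun _ _ hv h0 => P25.offR_of_offS (offS_LvA98 H hv h0)

/-! ### Projections -/

theorem KG98.loE {ω : Env} (h : ω ∈ KG98 μ s c Γ G P R u κ) : ω ∈ LoE98 μ s Γ G P R u κ := h.1.1
theorem KG98.upS {ω : Env} (h : ω ∈ KG98 μ s c Γ G P R u κ) : ω ∈ UpS98 μ s c Γ G P R u κ := h.1.2
theorem KG98.loT {ω : Env} (h : ω ∈ KG98 μ s c Γ G P R u κ) : ω ∈ LoT98 μ s Γ G P R u κ := h.2.1
theorem KG98.upT {ω : Env} (h : ω ∈ KG98 μ s c Γ G P R u κ) : ω ∈ UpT98 μ s c Γ G P R u κ := h.2.2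
theorem XO98.loF {ω : Env} (h : ω ∈ XO98 μ s c Γ G P R u κ) : ω ∈ LoF98 μ s Γ G P R u κ := h.1.1
theorem XO98.upF {ω : Env} (h : ω ∈ XO98 μ s c Γ G P R u κ) : ω ∈ UpF98 μ s c Γ G P R u κ := h.1.2
theorem XO98.stf {ω : Env} (h : ω ∈ XO98 μ s c Γ G P R u κ) : ω ∈ StB G (R.b u) (R.Uw u) u κ (rf98 Γ G P u κ) := h.2.1
theorem XO98.stb {ω : Env} (h : ω ∈ XO98 μ s c Γ G P R u κ) : ω ∈ StB G (R.b u) (R.Uw u) u κ (b98 Γ G P u κ + 1) := h.2.2.1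
theorem XO98.stt {ω : Env} (h : ω ∈ XO98 μ s c Γ G P R u κ) : ω ∈ StB G (R.b u) (R.Uw u) u κ (G.re u κ) := h.2.2.2
theorem KL98.ki {ω : Env} (h : ω ∈ KL98 μ s Γ G P R u κ) :
    ω ∈ KiB Γ G (Ou37.gam μ s Γ) (R.b u) (R.A u) (R.X u) u κ (rl98 Γ G P u κ) (G.re u κ) := h.1
theorem KL98.lo {ω : Env} (h : ω ∈ KL98 μ s Γ G P R u κ) :
    ω ∈ LoB Γ G (Ou37.gam μ s Γ) (R.b u) (R.U1 u) u κ (rl98 Γ G P u κ) (G.re u κ) := h.2

theorem LvA98.nosw {ω : Env} (h : ω ∈ LvA98 μ s c Γ G P R u κ) : NoSw98 Γ G u κ := h.1.1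
theorem LuA98.nosw {ω : Env} (h : ω ∈ LuA98 μ s c Γ G P R u κ) : NoSw98 Γ G u κ := h.1.1

/-- **The typical set in the letters of the ratio**; `ki`, `kf` : `kiB_of`, at any strip. -/
theorem LvA_R98 {b A X Uw : ℝ}
    (ki : UpS98 μ s c Γ G P R u κ ⊆ KiB Γ G (Ou37.gam μ s Γ) b A X u κ (G.ra u κ - 1) (rf98 Γ G P u κ))
    (kf : UpF98 μ s c Γ G P R u κ ⊆ KiB Γ G (Ou37.gam μ s Γ) b A X u κ (rl98 Γ G P u κ) (G.re u κ))
    (st : ∀ e, StB G (R.b u) (R.Uw u) u κ e ⊆ StB G b Uw u κ e) :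
    LvA98 μ s c Γ G P R u κ ⊆ LvR Γ G (Ou37.gam μ s Γ) b A X Uw u κ (rf98 Γ G P u κ) := fun _ h =>
  ⟨⟨ki h.1.2.2.1.2, kf (XO98.upF h.2.1)⟩, st _ (XO98.stf h.2.1), st _ (XO98.stt h.2.1)⟩

/-- **The lucky set in the letters of the ratio**; `lo` : helper18's `lw18_lob`. -/
theorem LuA_R98 (ki : UpS98 μ s c Γ G P R u κ ⊆
    KiB Γ G (Ou37.gam μ s Γ) (R.b u) (R.A u) (R.X u) u κ (G.ra u κ - 1) (rf98 Γ G P u κ)) (lo : LoE98 μ s Γ G P R u κ ⊆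
    LoB Γ G (Ou37.gam μ s Γ) (R.b u) (R.U1 u) u κ (G.ra u κ - 1) (rf98 Γ G P u κ)) : LuA98 μ s c Γ G P R u κ ⊆
    LR Γ G (Ou37.gam μ s Γ) (R.b u) (R.A u) (R.X u) (R.U1 u) u κ (rf98 Γ G P u κ) := fun _ h =>
  ⟨⟨ki h.1.2.2.1.2, lo h.1.2.2.1.1⟩, h.2.2.1, h.2.2.2⟩

/-- **The typical content in the letters of the NEW content of the ratio** (early ratio), any strip. -/
theorem TP_L98 {b A X U₁ : ℝ}
    (ki : UpS98 μ s c Γ G P R u κ ⊆ KiB Γ G (Ou37.gam μ s Γ) b A X u κ (G.ra u κ - 1) (rf98 Γ G P u κ))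
    (lo : LoE98 μ s Γ G P R u κ ⊆ LoB Γ G (Ou37.gam μ s Γ) b U₁ u κ (G.ra u κ - 1) (rf98 Γ G P u κ))
    (kf : UpF98 μ s c Γ G P R u κ ⊆ KiB Γ G (Ou37.gam μ s Γ) b A X u κ (rl98 Γ G P u κ) (G.re u κ))
    (lf : LoF98 μ s Γ G P R u κ ⊆ LoB Γ G (Ou37.gam μ s Γ) b U₁ u κ (rl98 Γ G P u κ) (G.re u κ)) :
    TP98 μ s c Γ G P R u κ ⊆ LR Γ G (Ou37.gam μ s Γ) b A X U₁ u κ (rf98 Γ G P u κ) := fun _ h =>
  ⟨⟨ki h.1.2.2.1.2, lo h.1.2.2.1.1⟩, kf (XO98.upF h.2.1), lf (XO98.loF h.2.1)⟩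

/-! ### The part of the typical set which the move of the walls may use -/

theorem LvA_TP98 : LvA98 μ s c Γ G P R u κ ⊆ TP98 μ s c Γ G P R u κ := fun _ h => ⟨h.1, h.2.1, h.2.2.1.2, h.2.2.2.1⟩

theorem TP98.nosw {ω : Env} (h : ω ∈ TP98 μ s c Γ G P R u κ) : NoSw98 Γ G u κ := h.1.1
theorem TP98.gt {ω : Env} (h : ω ∈ TP98 μ s c Γ G P R u κ) : ω ∈ Gt98 μ s c Γ G P u κ := h.1.2.1
theorem TP98.kg {ω : Env} (h : ω ∈ TP98 μ s c Γ G P R u κ) : ω ∈ KG98 μ s c Γ G P R u κ := h.1.2.2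
theorem TP98.xo {ω : Env} (h : ω ∈ TP98 μ s c Γ G P R u κ) : ω ∈ XO98 μ s c Γ G P R u κ := h.2.1
theorem TP98.farL {ω : Env} (h : ω ∈ TP98 μ s c Γ G P R u κ) : ω ∈ FarL98 μ s c Γ G P u κ := h.2.2.1
theorem TP98.ty {ω : Env} (h : ω ∈ TP98 μ s c Γ G P R u κ) : ω ∈ Ty98 μ s c Γ G P (KL98 μ s Γ G P R) u κ := h.2.2.2

/-- **`mTF`.** -/
theorem meas_TP98 [IsProbabilityMeasure μ] : MeasurableSet (TP98 μ s c Γ G P R u κ) :=
  ((MeasurableSet.const _).inter (meas_Gt98.inter meas_KG98)).inter (meas_XO98.inter (meas_FarL98.inter (meas_Ty98 meas_KL98)))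

/-- **`dTF`.** -/
theorem dec_TP98 [IsProbabilityMeasure μ] {τ0 : ℕ} (H : Ok98 G P R τ0) (hu : τ0 < u) :
    DecO (Sg98 μ s Γ G P u κ)ᶜ (TP98 μ s c Γ G P R u κ) :=
  DecO.inter (DecO.inter (decO_off98 fun _ _ _ => Iff.rfl) (DecO.inter (dec_Gt98 (H.m2 u hu)) (decO_KG98 (H.fit u hu) (H.m2 u hu))))
    (DecO.inter (decO_off98 (offSg_XO98 (H.fit u hu) (H.m2 u hu)))
      (DecO.inter (decO_off98 (offSg_FarL98 (H.fit u hu) (H.m2 u hu)))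
        (decO_off98 (offSg_Ty98 (H.m2 u hu) (offSg_KL98 (H.m2 u hu) H.v0 H.v1 (H.b_ge u hu))))))

/-- **`toL`.** -/
theorem toL_TP98 [IsProbabilityMeasure μ] {τ0 : ℕ} (H : Ok98 G P R τ0) (hu : τ0 < u) {ω η : Env} (h : ω ∈ TP98 μ s c Γ G P R u κ)
    (hη : η ∈ Lc98 μ s c Γ G P (KL98 μ s Γ G P R) u κ ω) : gl (B98 Γ G P u κ) η ω ∈ LuA98 μ s c Γ G P R u κ :=
  toL98 (TP98.nosw h) (off_Gt98 (H.n1 u hu) (H.m2 u hu)) (off_KG98 (H.fit u hu)) (TP98.gt h) (TP98.kg h) hη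

/-- **`pLk`.** -/
theorem pLk_TP98 [IsProbabilityMeasure μ] {ω : Env} (h : ω ∈ TP98 μ s c Γ G P R u κ) :
    ENNReal.ofReal P.pL ≤ law μ (Lc98 μ s c Γ G P (KL98 μ s Γ G P R) u κ ω) := pLk98 (TP98.ty h)

end

end Pool.Agent.W_7d29a1_C1.D98
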