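import Pool.Agent.W_7d29a1_C1.BlkN73
import Pool.Agent.W_7d29a1_C1.SepE98

/-!
MP_7d29a1_pr, [C1] attractor route, SEP: THE EARLY BLOCKS OF THE WINDOW IN THE LETTERS OF SepE98. (helper73)

`ω` = old, `ω'` = new content, equal off the window. Strip `b` (`bA` of the page, before the luck; any `b ≥ b₀`).
* `guD73` : the ratio of the gate block, the pair `(ω, spl rf98 ω' ω)`;
* `tpD73` : the rows beyond the lanes, the pair `(spl (b98 + 1) ω' ω, ω')` as `Tp73` at the row `b98`;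
* `gfD73` : the field `gf` of the gate slab, from the lateral distance `b w` to the mouth: at most `exp (- z E)`.
-/

set_option autoImplicit false

namespace Pool.Agent.W_7d29a1_C1.B73

open Finset MeasureTheory Filter
open Pool.Agent.W_7d29a1_F hiding Bw G
open Pool.Agent.W_7d29a1_h4g Pool.Agent.W_7d29a1_HS
open Pool.Agent.W_7d29a1_H hiding ex gg
open Pool.Agent.W_7d29a1_C1.K91 (wt wt_pos)
open Pool.Agent.W_7d29a1_C1.H75 (hc)
open Pool.Agent.W_7d29a1_C1.H60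
open Pool.Agent.W_7d29a1_C1.G37 (Gm)
open Pool.Agent.W_7d29a1_C1.O22 (Bw)
open Pool.Agent.W_7d29a1_C1.E53
open Pool.Agent.W_7d29a1_C1.SD53
open Pool.Agent.W_7d29a1_C1.Rt22 (Ro bw_rows)
open Pool.Agent.W_7d29a1_C1.RB22
open Pool.Agent.W_7d29a1_C1.GL18 (Lw18 lw18_lob lw18_rows)
open Pool.Agent.W_7d29a1_C1.Ki52 (gau_gam kib_up blk_len lo_lat)
open Pool.Agent.W_7d29a1_C1.T73 (Tp73 tp73_ro)
open Pool.Agent.W_7d29a1_C1.G73 (gf_spl73)
open Pool.Agent.W_7d29a1_C1.D98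

noncomputable section

variable {μ : Measure ℝ} {s c C : ℝ} {n₀ : ℕ}

/-- **The window and the numbers.** -/
structure Fr73 (μ : Measure ℝ) (s c kw V₁ Re Qe Uw₀ : ℝ) (Γ : Cx) (G : Gm) (R : Nr98) (u : ℕ) (κ : ℤ × ℤ) : Prop where
  hs : Γ.s = s
  hv : G.v = sl μ s
  hw : G.w u = wd μ s (G.T u)
  hk : G.kw = kw
  hh : |Γ.h| * wd μ s (G.T u) ≤ c / 8 * EE μ s (G.T u)
  h0 : 0 ≤ G.rcc u κ
  hN : G.re u κ ≤ Γ.N
  V1 : R.Vs u ≤ V₁ * EE μ s (G.T u)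
  sV : R.sV u ≤ c / 16 * (EE μ s (G.T u) / wd μ s (G.T u))
  Re : R.Re = Re
  Qe : R.Qe = Qe
  Uw0 : 0 ≤ R.Uw u
  Uw1 : R.Uw u ≤ Uw₀ * EE μ s (G.T u)

variable {kw V₁ Re Qe Uw₀ sgm : ℝ} {Γ : Cx} {G : Gm} {P : Nm98} {R : Nr98} {u : ℕ} {κ : ℤ × ℤ} {ω ω' : Env}

theorem spl_lt73 {r : ℕ} {p : Pt} (h : p.1 < (r : ℤ)) : spl r ω' ω p = ω' p := by
  unfold spl
  rw [if_pos h]

theorem spl_ge73 {r : ℕ} {p : Pt} (h : (r : ℤ) ≤ p.1) : spl r ω' ω p = ω p := by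
  unfold spl
  rw [if_neg (not_lt.2 h)]

/-- The new content of the gate block, in the spliced environment. -/
theorem upS_spl73 {a r : ℕ} (hr : a ≤ r) {t₀ V σ : ℝ} {x : ℤ} (h : ω' ∈ Up52.UpS μ s t₀ ((a : ℤ), x) (r - a) V σ) :
    spl (r + 1) ω' ω ∈ Up52.UpS μ s t₀ ((a : ℤ), x) (r - a) V σ := by
  refine (Up52.upS_rows fun p hp => spl_lt73 ?_).2 h
  have h1 : p.1 ≤ (a : ℤ) + ((r - a : ℕ) : ℤ) := hp.2
  push_cast
  omega

/-- The old content beyond the row `b`, in the spliced environment. -/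
theorem upT_spl73 {a N : ℕ} {t₀ V σ : ℝ} {x : ℤ} (h : ω ∈ Up52.UpS μ s t₀ ((a : ℤ), x) N V σ) :
    spl (a + 1) ω' ω ∈ Up52.UpS μ s t₀ ((a : ℤ), x) N V σ := by
  refine (Up52.upS_rows fun p hp => spl_ge73 ?_).2 h
  have h1 : (a : ℤ) < p.1 := hp.1
  push_cast
  omega

variable [IsProbabilityMeasure μ]

/-- **THE GATE BLOCK AND THE ROWS BEYOND THE LANES**, strip `b ≥ b₀`, ratio `exp ((K₁ + 5 sgm b) E)`. -/
theorem earD73 (h : In μ s c C n₀) (hkw : 0 ≤ kw) (hV₁ : 0 ≤ V₁) (hRe : 0 ≤ Re) (hQe : 0 ≤ Qe) (hUw₀ : 0 ≤ Uw₀) (hsg0 : 0 ≤ sgm)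
    (hsg : 20 * sgm ≤ c) : ∃ K₁ b₀ : ℝ, 0 ≤ K₁ ∧ 1 ≤ b₀ ∧ ∃ n₁ : ℕ, 1 ≤ n₁ ∧
    ∀ {b : ℝ}, b₀ ≤ b → ∀ {Γ : Cx} {G : Gm} {P : Nm98} {R : Nr98} {u : ℕ} {κ : ℤ × ℤ} {Q : ℝ} {ω ω' : Env},
      Fr73 μ s c kw V₁ Re Qe Uw₀ Γ G R u κ → n₁ ≤ G.T u → b * G.w u ≤ R.b u * G.w u → 0 ≤ Q → Q ≤ (sgm * (b + 1) + 1) * EE μ s (G.T u) →
      ω ∈ TmB Γ G (Ou37.gam μ s Γ) b Q u κ (G.ra u κ - 1) (G.re u κ) → (∀ k y, (k, y) ∉ Bw G u κ → wt ω k y = wt ω' k y) →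
      (rf98 Γ G P u κ ≤ G.re u κ → ω ∈ UpS98 μ s c Γ G P R u κ → ω' ∈ UpS98 μ s c Γ G P R u κ → ω' ∈ LoE98 μ s Γ G P R u κ →
        ω ∈ StB G (R.b u) (R.Uw u) u κ (rf98 Γ G P u κ) →
        Ro (wt ω) (wt (spl (rf98 Γ G P u κ) ω' ω)) Γ.p Γ.N (Bk G u κ (G.ra u κ - 1) (rf98 Γ G P u κ))
          (Real.exp ((K₁ + 5 * sgm * b) * EE μ s (G.T u)))) ∧
      (b98 Γ G P u κ < G.re u κ → ω ∈ UpT98 μ s c Γ G P R u κ → ω' ∈ UpT98 μ s c Γ G P R u κ → ω' ∈ LoT98 μ s Γ G P R u κ →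
        ω ∈ StB G (R.b u) (R.Uw u) u κ (G.re u κ) →
        Tp73 Γ (b98 Γ G P u κ) (Real.exp ((K₁ + 5 * sgm * b) * EE μ s (G.T u))) (spl (b98 Γ G P u κ + 1) ω' ω) ω') := by
  obtain ⟨K₁, b₀, hK₁, hb₀, n₁, hn₁, H⟩ := blkN73 h hkw hV₁ hRe hQe hUw₀ hsg0 hsg
  obtain ⟨n₃, hn₃⟩ := eventually_atTop.1 (h.tE.eventually_ge_atTop 1)
  refine ⟨K₁, b₀, hK₁, hb₀, max n₁ n₃, hn₁.trans (le_max_left _ _),
    fun {b} hb {Γ G P R u κ Q ω ω'} F hT hbR hQ0 hQ hTm heq => ⟨fun hre hU hU' hL hS => ?_, fun hre hU hU' hL hS => ?_⟩⟩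
  · have hra := ra_pos98 (G := G) (u := u) (κ := κ)
    have hrl := ag_le_rl98 (Γ := Γ) (G := G) (P := P) (u := u) (κ := κ)
    rw [ag_eq98] at hrl
    have hrf : rf98 Γ G P u κ = rl98 Γ G P u κ + 1 := rfl
    refine H hb (κ := κ) (a := G.ra u κ - 1) (e := rf98 Γ G P u κ) (o := pt98 G u κ (G.ra u κ - 1))
      (N := rl98 Γ G P u κ - (G.ra u κ - 1)) (S := Sg98 μ s Γ G P u κ) F.hs F.hv F.hw F.hk F.hh ((le_max_left _ _).trans hT) F.h0 (by omega)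
      (by omega) hre F.hN rfl (le_refl _) ?_ F.V1 F.sV hU ?_ (tmB_sub le_rfl hre hTm) hQ0 hQ (stb_anti73 hbR hS) F.Uw0 F.Uw1 ?_
      fun k y hk => ?_
    · show ((rf98 Γ G P u κ - 1 : ℕ) : ℤ) ≤ ((G.ra u κ - 1 : ℕ) : ℤ) + ((rl98 Γ G P u κ - (G.ra u κ - 1) : ℕ) : ℤ)
      omega
    · exact upS_spl73 hrl hU'
    · have h1 : ω' ∈ Lw18 μ s G u κ (G.ra u κ - 1) (rf98 Γ G P u κ) R.Re (Sg98 μ s Γ G P u κ) R.Qe := hL
      rw [F.Re, F.Qe] at h1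
      exact (lw18_rows fun p _ h3 => spl_lt73 h3).2 h1
    · rcases lt_or_ge k (rf98 Γ G P u κ) with h1 | h1
      · rw [wt_spl_lt h1]
        refine heq k y fun h2 => hk ⟨h2, ?_, h1⟩
        have h3 := (bw_rows F.h0 (k := k) (y := y) h2).1
        show G.ra u κ - 1 < k
        omega
      · rw [wt_spl_ge h1]
  · have hra := ra_pos98 (G := G) (u := u) (κ := κ)
    have hrl := ag_le_rl98 (Γ := Γ) (G := G) (P := P) (u := u) (κ := κ)
    have hrb := rl_le_b98 (Γ := Γ) (G := G) (P := P) (u := u) (κ := κ)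
    rw [ag_eq98] at hrl
    have hE1 : 1 ≤ EE μ s (G.T u) := hn₃ _ ((le_max_right _ _).trans hT)
    have hR : Ro (wt (spl (b98 Γ G P u κ + 1) ω' ω)) (wt ω') Γ.p Γ.N (Bk G u κ (b98 Γ G P u κ) (G.re u κ))
        (Real.exp ((K₁ + 5 * sgm * b) * EE μ s (G.T u))) := by
      refine H hb (κ := κ) (a := b98 Γ G P u κ) (e := G.re u κ) (o := pt98 G u κ (b98 Γ G P u κ))
        (N := G.re u κ - 1 - b98 Γ G P u κ) (S := ∅) F.hs F.hv F.hw F.hk F.hh ((le_max_left _ _).trans hT) F.h0 (by omega)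
        hre le_rfl F.hN rfl (le_refl _) ?_ F.V1 F.sV (upT_spl73 hU) hU'
        (tmB_congr hre F.hN (fun k y h1 => (wt_spl_ge (by omega) y).symm) (tmB_sub (by omega) le_rfl hTm)) hQ0 hQ
        (stB_congr (fun y => (wt_spl_ge (by omega) y).symm) (stb_anti73 hbR hS)) F.Uw0 F.Uw1 ?_ fun k y hk => ?_
      · show ((G.re u κ - 1 : ℕ) : ℤ) ≤ ((b98 Γ G P u κ : ℕ) : ℤ) + ((G.re u κ - 1 - b98 Γ G P u κ : ℕ) : ℤ)
        omega
      · have h1 : ω' ∈ Lw18 μ s G u κ (b98 Γ G P u κ) (G.re u κ) R.Re ∅ R.Qe := hL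
        rwa [F.Re, F.Qe] at h1
      · rcases lt_or_ge k (b98 Γ G P u κ + 1) with h1 | h1
        · rw [wt_spl_lt h1]
        · rw [wt_spl_ge h1]
          refine heq k y fun h2 => hk ⟨h2, by show b98 Γ G P u κ < k; omega, ?_⟩
          exact (bw_rows F.h0 (k := k) (y := y) h2).2
    refine tp73_ro hR (Real.one_le_exp ?_) (hre.le.trans F.hN) (fun c hc => hc.2.1) fun k y hk => (wt_spl_lt (by omega) y).symm
    have h2 : 0 ≤ b := by linarith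
    positivity

/-- **THE FIELD `gf` WITH NUMBERS**: from the lateral distance more than `b w` to a mouth inside `km w`. -/
theorem gfD73 (h : In μ s c C n₀) (hkw : 0 ≤ kw) (hV₁ : 0 ≤ V₁) (hsg0 : 0 ≤ sgm) (hsg : 20 * sgm ≤ c) : ∃ n₁ : ℕ, 1 ≤ n₁ ∧
    ∀ {z km b : ℝ}, 0 ≤ z → 0 ≤ km → 4 / c * (2 * V₁ + 9 + sgm + c / 2 * km + z) ≤ b → kw + 2 ≤ b → km ≤ b →
    ∀ {Γ : Cx} {G : Gm} {P : Nm98} {R : Nr98} {u : ℕ} {κ : ℤ × ℤ} {Q : ℝ} {Mo : Set ℤ} {ω ω' : Env},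
      Fr73 μ s c kw V₁ Re Qe Uw₀ Γ G R u κ → 0 ≤ R.sV u → n₁ ≤ G.T u → Q ≤ (sgm * (b + 1) + 1) * EE μ s (G.T u) →
      ω ∈ TmB Γ G (Ou37.gam μ s Γ) b Q u κ (G.ra u κ - 1) (G.re u κ) → (∀ k y, (k, y) ∉ Bw G u κ → wt ω k y = wt ω' k y) →
      rf98 Γ G P u κ ≤ G.re u κ → ω' ∈ UpS98 μ s c Γ G P R u κ →
      (∀ v ∈ Mo, |G.lat (rl98 Γ G P u κ, v) - G.ctr u κ| ≤ km * G.w u) → ∀ {k : ℕ} {y : ℤ}, G.ra u κ - 1 ≤ k →
      k ≤ rl98 Γ G P u κ → b * G.w u < |G.lat (k, y) - G.ctr u κ| →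
        QA Γ (spl (rf98 Γ G P u κ) ω' ω) (rl98 Γ G P u κ) Mo k y ≤ Real.exp (-(z * EE μ s (G.T u))) * bW Γ ω k y := by
  obtain ⟨n₃, hn₃⟩ := eventually_atTop.1 (h.tE.eventually_ge_atTop 1)
  have hc0 := h.c0
  have hc1 := h.c1
  have hs0 := h.sl_pos
  have hs1 := h.sl_lt
  refine ⟨max n₃ 2, (by omega : 1 ≤ 2).trans (le_max_right _ _), fun {z km b} hz hkm hb hbk hkb {Γ G P R u κ Q Mo ω ω'} F hsV0 hT hQ hTm heq
    hre hU hMo {k y} hk1 hk2 hlat => ?_⟩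
  obtain ⟨E, hE⟩ : ∃ E, E = EE μ s (G.T u) := ⟨_, rfl⟩
  obtain ⟨w, hwe⟩ : ∃ w, w = wd μ s (G.T u) := ⟨_, rfl⟩
  have hE1 : 1 ≤ E := by rw [hE]; exact hn₃ _ ((le_max_left _ _).trans hT)
  have hT2 : 2 ≤ G.T u := (le_max_right _ _).trans hT
  have hw2 : 2 * E ≤ w := by rw [hE, hwe]; exact wd_ge_one h (by omega)
  have hw0 : 0 < w := by linarith
  have hwG : G.w u = w := by rw [F.hw, hwe]
  obtain ⟨r, hr⟩ : ∃ r, r = E / w := ⟨_, rfl⟩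
  have hrw : r * w = E := by rw [hr]; field_simp
  have hr0 : 0 < r := by rw [hr]; positivity
  have hr1 : r ≤ 1 / 2 := by
    rw [hr, div_le_div_iff₀ hw0 (by norm_num)]
    linarith
  have hh1 : |Γ.h| ≤ c / 8 * r := by
    have h2 : |Γ.h| * w ≤ c / 8 * r * w := by
      rw [mul_assoc, hrw, hE, hwe]
      exact F.hh
    exact le_of_mul_le_mul_right h2 hw0
  have ht0 : hc μ s c (G.T u) = c * r := by
    unfold hc
    rw [hr, hE, hwe]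
    ring
  have hra := ra_pos98 (G := G) (u := u) (κ := κ)
  have hrl := ag_le_rl98 (Γ := Γ) (G := G) (P := P) (u := u) (κ := κ)
  rw [ag_eq98] at hrl
  have hrf : rf98 Γ G P u κ = rl98 Γ G P u κ + 1 := rfl
  have hV := F.V1
  have hσ := F.sV
  rw [← hE, ← hwe, ← hr] at hσ
  rw [← hE] at hV hQ ⊢
  -- the totals in the lateral coordinate
  have U : ω' ∈ UpS μ s (hc μ s c (G.T u)) (V₁ * E + c / 16 * r) (c / 16 * r) (fun k x => G.lat (k, x) - G.ctr u κ) (G.ra u κ - 1)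
      (rl98 Γ G P u κ) := by
    have h1 : ω' ∈ Up52.UpS μ s (hc μ s c (G.T u)) (pt98 G u κ (G.ra u κ - 1)) (rl98 Γ G P u κ - (G.ra u κ - 1)) (R.Vs u) (R.sV u) := hU
    have h2 := Up52.upS_22 (a := G.ra u κ - 1) (e := rl98 Γ G P u κ) (show (pt98 G u κ (G.ra u κ - 1)).1 ≤ ((G.ra u κ - 1 : ℕ) : ℤ) from
      le_refl _) (show ((rl98 Γ G P u κ : ℕ) : ℤ) ≤ ((G.ra u κ - 1 : ℕ) : ℤ) + ((rl98 Γ G P u κ - (G.ra u κ - 1) : ℕ) : ℤ) by omega)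
      (Up52.upS_mono hV hσ le_rfl h1)
    have h3 := Up52.up22_l (μ := μ) (s := s) (t₀ := hc μ s c (G.T u)) (V := V₁ * E) (V' := V₁ * E + c / 16 * r) (σ := c / 16 * r) (δ := 1)
      (l' := fun k x => G.lat (k, x) - G.ctr u κ) (a := G.ra u κ - 1) (e := rl98 Γ G P u κ) (a' := G.ra u κ - 1) (e' := rl98 Γ G P u κ)
      (by positivity) le_rfl le_rfl (fun k x _ _ => lo_lat (o := pt98 G u κ (G.ra u κ - 1)) F.hv rfl k x) (by rw [mul_one]) h2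
    exact h3
  have hv0 : 0 ≤ G.v := by rw [F.hv]; exact hs0.le
  have hv1 : G.v ≤ 1 := by rw [F.hv]; exact hs1.le
  have hb0 : 0 ≤ b := by linarith
  rw [hrf]
  have key := gf_spl73 (Γ := Γ) (G := G) (γ := Ou37.gam μ s Γ) (ω := ω) (ω' := ω') (Mo := Mo) (A := b * w) (Km := km * w) (τ := c / 2 * r)
    (a₀ := G.ra u κ - 1) (a := rl98 Γ G P u κ) (e := G.re u κ) (b := b) (Q := Q) (u := u) (κ := κ) F.hs F.hv hv0 hv1 (gau_gam Γ) U
    (by positivity) (by positivity) (by rw [ht0]; linarith [mul_nonneg hc0.le hr0.le]) hTm (by omega) (by have := F.hN; omega) (fun k y hk => (heq k y hk).symm)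
    (fun v hv' => by have := hMo v hv'; rwa [hwG] at this) (mul_le_mul_of_nonneg_right hkb hw0.le)
    (by rw [F.hk, hwG]; linarith [mul_le_mul_of_nonneg_right hbk hw0.le]) (by rw [hwG]; linarith) hk1 hk2 (by rwa [hwG] at hlat)
  refine key.trans (mul_le_mul_of_nonneg_right ?_ (bW_pos _ _ _ _).le)
  have e1 : Q + 2 * (V₁ * E + c / 16 * r + c / 16 * r * (b * w)) - c / 2 * r * (b * w - 1 - km * w) =
      Q + 2 * (V₁ * E) + 5 * c / 8 * r + c / 8 * b * E - c / 2 * (b - km) * E := by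
    rw [← hrw]
    ring
  rw [e1]
  have h4 : (4 : ℝ) ≤ Real.exp (2 * E) := by
    have h5 := Real.add_one_le_exp (1 : ℝ)
    have h6 : Real.exp (2 : ℝ) = Real.exp 1 * Real.exp 1 := by rw [← Real.exp_add]; norm_num
    have h7 : Real.exp 2 ≤ Real.exp (2 * E) := Real.exp_le_exp.2 (by linarith)
    have h8 : (2 : ℝ) * 2 ≤ Real.exp 1 * Real.exp 1 := mul_le_mul (by linarith) (by linarith) (by norm_num) (by linarith)
    linarith
  calc 4 * Real.exp (Q + 2 * (V₁ * E) + 5 * c / 8 * r + c / 8 * b * E - c / 2 * (b - km) * E)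
      ≤ Real.exp (2 * E) * Real.exp (Q + 2 * (V₁ * E) + 5 * c / 8 * r + c / 8 * b * E - c / 2 * (b - km) * E) :=
        mul_le_mul_of_nonneg_right h4 (Real.exp_pos _).le
    _ = Real.exp (2 * E + (Q + 2 * (V₁ * E) + 5 * c / 8 * r + c / 8 * b * E - c / 2 * (b - km) * E)) := by rw [← Real.exp_add]
    _ ≤ _ := by
        refine Real.exp_le_exp.2 ?_
        have b3 : 2 * V₁ + 9 + sgm + c / 2 * km + z ≤ c / 4 * b := by
          have h1 := mul_le_mul_of_nonneg_left hb (show (0 : ℝ) ≤ c / 4 by positivity)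
          calc 2 * V₁ + 9 + sgm + c / 2 * km + z = c / 4 * (4 / c * (2 * V₁ + 9 + sgm + c / 2 * km + z)) := by field_simp
            _ ≤ _ := h1
        have h8 : sgm * b ≤ c / 20 * b := mul_le_mul_of_nonneg_right (by linarith) hb0
        have h9 : 5 * c / 8 * r ≤ E := by
          have h11 : 5 * c / 8 * r ≤ 1 * r := mul_le_mul_of_nonneg_right (by linarith) hr0.le
          linarith
        have h10 : (sgm * (b + 1) + 1) + 2 * V₁ + 1 + c / 8 * b - c / 2 * (b - km) + 2 + z ≤ 0 := by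
          have h12 : sgm * (b + 1) = sgm * b + sgm := by ring
          have h13 : c / 2 * (b - km) = c / 2 * b - c / 2 * km := by ring
          have h14 : 0 ≤ c * b := mul_nonneg hc0.le hb0
          have h15 : c / 20 * b = c * b / 20 := by ring
          have h16 : c / 8 * b = c * b / 8 := by ring
          have h17 : c / 2 * b = c * b / 2 := by ring
          have h18 : c / 4 * b = c * b / 4 := by ring
          rw [h12, h13, h16, h17]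
          rw [h15] at h8
          rw [h18] at b3
          linarith
        have h19 := mul_le_mul_of_nonneg_right h10 (show (0 : ℝ) ≤ E by linarith)
        have h20 : ((sgm * (b + 1) + 1) + 2 * V₁ + 1 + c / 8 * b - c / 2 * (b - km) + 2 + z) * E =
          (sgm * (b + 1) + 1) * E + 2 * (V₁ * E) + E + c / 8 * b * E - c / 2 * (b - km) * E + 2 * E + z * E := by ring
        rw [h20, zero_mul] at h19
        linarith

end

end Pool.Agent.W_7d29a1_C1.B73
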