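import Pool.Agent.W_7d29a1_C1.Excl53E

/-!
MP_7d29a1_pr, attractor route, [C1] SEP: THE LANE BLOCK WITH RANK ONE (helper76). Three slabs above the row `a`: lane A (up to the row
`a₁`), a typical slab (up to `b₁`), lane B (up to `b`). Environments: `ω` (old), `ωA` (lane A new), `ωM` (lane A and the middle slab new),
`ω'` (all three new); each differs from the one before in the rows of one slab only. `Luk` of Excl53E = the output of the window lemma.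

* `Blk76.luk`, `Blk76.pin` at the row `a`: gain, upper gain, leak `R1 YA`, `R1 = (GB + YB) RM`; the paths of `ω'` are in the exit cell `C1`
  of lane A at the row `a₁` and in the mouth `C2` of lane B at the row `b₁`, up to `R1 YA` old masses and the part `YB RM / (g1 gB)` of the
  new mass;
* `Gs76`, `Gs76.luk`, `Gs76.pin`: one more slab below (the gate block);
* `Pin76.met`: if the kernel of the middle slab is of rank one between the cells up to `δ`, then the unmet mass at the row `b₁` is small.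
-/


set_option autoImplicit false

namespace Pool.Agent.W_7d29a1_C1.Lb76

open Finset MeasureTheory
open Pool.Agent.W_7d29a1_F Pool.Agent.W_7d29a1_h4g Pool.Agent.W_7d29a1_H Pool.Agent.W_7d29a1_HS
open Pool.Agent.W_7d29a1_C1.K91 (Grp Box wt wt_pos)
open Pool.Agent.W_7d29a1_C1.K91P
open Pool.Agent.W_7d29a1_C1.U16 (ker ker_nonneg)
open Pool.Agent.W_7d29a1_C1.Sp22 (Ms Ps Zt)
open Pool.Agent.W_7d29a1_C1.H60
open Pool.Agent.W_7d29a1_C1.E53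
open Pool.Agent.W_7d29a1_C1.SD53

noncomputable section

variable {Γ : Cx} {ω ω' : Env}

theorem tf_add_compl (e : ℕ) (A : Set ℤ) (y : ℤ) : tf Γ ω e A y + tf Γ ω e Aᶜ y = bW Γ ω e y := by
  by_cases h : y ∈ A
  · rw [tf_mem h, tf_not (show ¬ y ∈ Aᶜ from fun h' => h' h), add_zero]
  · rw [tf_not h, tf_mem (show y ∈ Aᶜ from h), zero_add]

/-- A bound at the row `a` is a bound at all the rows below; the two environments agree there. -/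
theorem dn_le {a : ℕ} {F F' : ℕ → ℤ → ℝ} (hF : Hr Γ ω a F) (hF' : Hr Γ ω' a F') (low : ∀ k y, k < a → wt ω' k y = wt ω k y) {C : ℝ}
    (h : ∀ q, F' a q ≤ C * F a q) {k : ℕ} (hk : k ≤ a) (q : ℤ) : F' k q ≤ C * F k q :=
  hF'.le ((hF.smul C).congr low) h k hk q

variable {ω₀ ωA ωM : Env} {a e a₁ b₁ b : ℕ} {Mi Mo Ce C1 C2 CB MA MB NA : Set ℤ} {g G Y gA GA YA gB GB YB g1 RM : ℝ}

/-- The upper bound at all the sites. -/
theorem luk_all (h : Luk Γ a b Mi Mo Ce g G Y ω ω') (z : ℤ) : bW Γ ω' a z ≤ (G + Y) * bW Γ ω a z := by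
  have b0 := (bW_pos Γ ω a z).le
  by_cases hz : z ∈ Mo
  · have h1 := h.up z hz
    have h2 := mul_nonneg h.Y0 b0
    linarith
  · have h1 := h.off z hz
    have h2 := mul_nonneg h.G0 b0
    linarith

/-- To be in a set at the row `e ≥ a`, the environments agree from the row `e` on up to a factor. -/
theorem luk_thr (h : Luk Γ a b Mi Mo Ce g G Y ω ω') {z : ℤ} (hz : z ∈ Mi) : (g - Y) * bW Γ ω a z ≤ QA Γ ω' b Ce a z := by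
  have h1 := h.gain z hz
  have h2 := h.exit z
  have h3 := QA_compl (Γ := Γ) (ω := ω') h.hb Ce a h.ab z
  linarith

/-- `Luk` with the exit cell dropped. -/
theorem luk_univ (g0 : 0 < g) (G0 : 0 ≤ G) (Y0 : 0 ≤ Y) (ab : a ≤ b) (hb : b ≤ Γ.N) (low : ∀ k y, k < a → wt ω' k y = wt ω k y)
    (up : ∀ z ∈ Mo, bW Γ ω' a z ≤ G * bW Γ ω a z) (off : ∀ z, z ∉ Mo → bW Γ ω' a z ≤ Y * bW Γ ω a z)
    (gain : ∀ z ∈ Mi, g * bW Γ ω a z ≤ bW Γ ω' a z) : Luk Γ a b Mi Mo Set.univ g G Y ω ω' := by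
  refine ⟨g0, G0, Y0, ab, hb, low, up, off, gain, fun z => ?_⟩
  have e1 : ∀ k, k ≤ b → ∀ z, QA Γ ω' b Set.univᶜ k z = 0 := by
    refine down (fun z => ?_) fun k hk ih z => ?_
    · rw [QA_self, tf_not (show ¬ z ∈ (Set.univ : Set ℤ)ᶜ by simp)]
    · rw [QA_step _ hk, ih, ih, mul_zero, add_zero, mul_zero]
  rw [e1 a ab z]
  exact mul_nonneg Y0 (bW_pos _ _ _ _).le

/-! ### The block -/

/-- **The lane block.** -/
structure Blk76 (Γ : Cx) (ω ωA ωM ω' : Env) (a a₁ b₁ b : ℕ) (MA NA C1 MB C2 CB : Set ℤ) (gA GA YA gB GB YB g1 RM : ℝ) : Prop where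
  A : Luk Γ a a₁ MA NA C1 gA GA YA ω ωA
  B : Luk Γ b₁ b MB C2 CB gB GB YB ωM ω'
  hm : a₁ ≤ b₁
  eM : ∀ k y, k < a₁ → wt ωM k y = wt ωA k y
  R0 : 0 ≤ RM
  g10 : 0 < g1
  mm : ∀ y, bW Γ ωM a₁ y ≤ RM * bW Γ ωA a₁ y
  lo : ∀ y ∈ C1, g1 * bW Γ ωA a₁ y ≤ QA Γ ωM b₁ MB a₁ y

/-- **The paths of `ω'` are in `C1` at the row `a₁` and in `C2` at the row `b₁`**, up to `Y` old masses and the part `e` of the new mass. -/
structure Pin76 (Γ : Cx) (a a₁ b₁ : ℕ) (C1 C2 : Set ℤ) (Y e : ℝ) (ω ω' : Env) : Prop where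
  Y0 : 0 ≤ Y
  e0 : 0 ≤ e
  h1 : a ≤ a₁
  h2 : a₁ ≤ b₁
  hb : b₁ ≤ Γ.N
  eq : ∀ k y, k < a → wt ω' k y = wt ω k y
  ex1 : ∀ z, QA Γ ω' a₁ C1ᶜ a z ≤ Y * bW Γ ω a z + e * bW Γ ω' a z
  ex2 : ∀ z, QA Γ ω' b₁ C2ᶜ a z ≤ Y * bW Γ ω a z + e * bW Γ ω' a z

section blk

variable (h : Blk76 Γ ω ωA ωM ω' a a₁ b₁ b MA NA C1 MB C2 CB gA GA YA gB GB YB g1 RM)

include h

theorem Blk76.R1nn : 0 ≤ (GB + YB) * RM := mul_nonneg (add_nonneg h.B.G0 h.B.Y0) h.R0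

/-- `ω'` and `ωA` agree below the row `a₁`. -/
theorem Blk76.e1 (k : ℕ) (y : ℤ) (hk : k < a₁) : wt ω' k y = wt ωA k y := by
  have := h.hm
  rw [h.B.eq k y (by omega), h.eM k y hk]

theorem Blk76.low (k : ℕ) (y : ℤ) (hk : k < a) : wt ω' k y = wt ω k y := by
  have := h.A.ab
  rw [h.e1 k y (by omega), h.A.eq k y hk]

theorem Blk76.b1N : b₁ ≤ Γ.N := h.B.ab.trans h.B.hb

/-- Behind lane A: upper bound at all the sites. -/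
theorem Blk76.up1 (y : ℤ) : bW Γ ω' a₁ y ≤ (GB + YB) * RM * bW Γ ωA a₁ y := by
  have h1 := dn_le (hr_bW (ω := ωM) h.b1N) (hr_bW (ω := ω') h.b1N) h.B.eq (fun q => luk_all h.B q) h.hm y
  have h2 := mul_le_mul_of_nonneg_left (h.mm y) (add_nonneg h.B.G0 h.B.Y0)
  linarith

/-- Behind lane A: lower bound on the exit cell. -/
theorem Blk76.lo1 {y : ℤ} (hy : y ∈ C1) : g1 * gB * bW Γ ωA a₁ y ≤ bW Γ ω' a₁ y := by
  have h1 : ∀ q, gB * QA Γ ωM b₁ MB b₁ q ≤ bW Γ ω' b₁ q := by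
    intro q
    rw [QA_self]
    by_cases hq : q ∈ MB
    · rw [tf_mem hq]; exact h.B.gain q hq
    · rw [tf_not hq, mul_zero]; exact (bW_pos _ _ _ _).le
  have h2 := (((hr_QA (Γ := Γ) (ω := ωM) le_rfl MB).smul gB).congr h.B.eq).le (hr_bW (ω := ω') h.b1N) h1 a₁ h.hm y
  have h3 := mul_le_mul_of_nonneg_left (h.lo y hy) h.B.g0.le
  have h4 : gB * QA Γ ωM b₁ MB a₁ y ≤ bW Γ ω' a₁ y := h2
  linarith

/-- From the exit cell of lane A: to miss the mouth of lane B. -/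
theorem Blk76.miss2 {y : ℤ} (hy : y ∈ C1) : QA Γ ω' b₁ C2ᶜ a₁ y ≤ YB * RM / (g1 * gB) * bW Γ ω' a₁ y := by
  have hg : 0 < g1 * gB := mul_pos h.g10 h.B.g0
  have h1 := h.B.missa h.hm y
  have h2 := mul_le_mul_of_nonneg_left (h.mm y) h.B.Y0
  refine (h1.trans h2).trans ?_
  rw [div_mul_eq_mul_div, le_div_iff₀ hg]
  have h5 := mul_le_mul_of_nonneg_left (h.lo1 hy) (mul_nonneg h.B.Y0 h.R0)
  linarith

/-- To miss the exit cell of lane A. -/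
theorem Blk76.miss1 (z : ℤ) : QA Γ ω' a₁ C1ᶜ a z ≤ (GB + YB) * RM * YA * bW Γ ω a z := by
  have h1 : ∀ q, QA Γ ω' a₁ C1ᶜ a₁ q ≤ (GB + YB) * RM * QA Γ ωA a₁ C1ᶜ a₁ q := by
    intro q
    rw [QA_self, QA_self]
    by_cases hq : q ∈ C1
    · rw [tf_not (show ¬ q ∈ C1ᶜ from fun h' => h' hq), tf_not (show ¬ q ∈ C1ᶜ from fun h' => h' hq), mul_zero]
    · rw [tf_mem (show q ∈ C1ᶜ from hq), tf_mem (show q ∈ C1ᶜ from hq)]
      exact h.up1 q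
  have h3 := dn_le (hr_QA (ω := ωA) le_rfl C1ᶜ) (hr_QA (ω := ω') le_rfl C1ᶜ) h.e1 h1 h.A.ab z
  have h4 := mul_le_mul_of_nonneg_left (h.A.exit z) h.R1nn
  linarith

/-- At the row `a`: all in terms of `ωA`. -/
theorem Blk76.key (z : ℤ) : bW Γ ω' a z ≤ (GB + YB) * RM * bW Γ ωA a z :=
  dn_le (hr_bW (ω := ωA) h.A.hb) (hr_bW (ω := ω') h.A.hb) h.e1 (fun q => h.up1 q) h.A.ab z

/-- The gain. -/
theorem Blk76.gain {z : ℤ} (hz : z ∈ MA) : g1 * gB * (gA - YA) * bW Γ ω a z ≤ bW Γ ω' a z := by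
  have h1 : ∀ q, g1 * gB * QA Γ ωA a₁ C1 a₁ q ≤ bW Γ ω' a₁ q := by
    intro q
    rw [QA_self]
    by_cases hq : q ∈ C1
    · rw [tf_mem hq]; exact h.lo1 hq
    · rw [tf_not hq, mul_zero]; exact (bW_pos _ _ _ _).le
  have h2 : g1 * gB * QA Γ ωA a₁ C1 a z ≤ bW Γ ω' a z :=
    (((hr_QA (Γ := Γ) (ω := ωA) le_rfl C1).smul (g1 * gB)).congr h.e1).le (hr_bW (ω := ω') h.A.hb) h1 a h.A.ab z
  have h3 := mul_le_mul_of_nonneg_left (luk_thr h.A hz) (mul_pos h.g10 h.B.g0).le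
  linarith

/-- **THE BLOCK IS LUCKY** (exit cell = everything: the exits are in `Pin76`). -/
theorem Blk76.luk (hY : YA < gA) :
    Luk Γ a b₁ MA NA Set.univ (g1 * gB * (gA - YA)) ((GB + YB) * RM * GA) ((GB + YB) * RM * YA) ω ω' := by
  have hR := h.R1nn
  refine luk_univ (mul_pos (mul_pos h.g10 h.B.g0) (by linarith)) (mul_nonneg hR h.A.G0) (mul_nonneg hR h.A.Y0) (h.A.ab.trans h.hm)
    h.b1N h.low (fun z hz => ?_) (fun z hz => ?_) fun z hz => h.gain hz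
  · have h1 := mul_le_mul_of_nonneg_left (h.A.up z hz) hR
    have h2 := h.key z
    linarith
  · have h1 := mul_le_mul_of_nonneg_left (h.A.off z hz) hR
    have h2 := h.key z
    linarith

/-- **THE BLOCK PINCHES.** -/
theorem Blk76.pin : Pin76 Γ a a₁ b₁ C1 C2 ((GB + YB) * RM * YA) (YB * RM / (g1 * gB)) ω ω' := by
  have hg : 0 < g1 * gB := mul_pos h.g10 h.B.g0
  have he : 0 ≤ YB * RM / (g1 * gB) := div_nonneg (mul_nonneg h.B.Y0 h.R0) hg.le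
  refine ⟨mul_nonneg h.R1nn h.A.Y0, he, h.A.ab, h.hm, h.b1N, h.low, fun z => ?_, fun z => ?_⟩
  · have h1 := h.miss1 z
    have h2 := mul_nonneg he (bW_pos Γ ω' a z).le
    linarith
  · have h1 := QA_stay (Γ := Γ) (ω := ω') h.hm h.b1N he (A := C2ᶜ) (Z := C1) (fun q hq => h.miss2 hq) a h.A.ab z
    have h2 := h.miss1 z
    linarith

end blk

variable {Y ee : ℝ}

/-- From below. -/
theorem Pin76.dn1 (P : Pin76 Γ a a₁ b₁ C1 C2 Y ee ω ω') {k : ℕ} (hk : k ≤ a) (q : ℤ) :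
    QA Γ ω' a₁ C1ᶜ k q ≤ Y * bW Γ ω k q + ee * bW Γ ω' k q := by
  have haN : a ≤ Γ.N := P.h1.trans (P.h2.trans P.hb)
  exact (hr_QA P.h1 C1ᶜ).le (((hr_bW (Γ := Γ) (ω := ω) haN).congr P.eq).lin (hr_bW (Γ := Γ) (ω := ω') haN) Y ee) P.ex1 k hk q

theorem Pin76.dn2 (P : Pin76 Γ a a₁ b₁ C1 C2 Y ee ω ω') {k : ℕ} (hk : k ≤ a) (q : ℤ) :
    QA Γ ω' b₁ C2ᶜ k q ≤ Y * bW Γ ω k q + ee * bW Γ ω' k q := by
  have haN : a ≤ Γ.N := P.h1.trans (P.h2.trans P.hb)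
  exact (hr_QA (P.h1.trans P.h2) C2ᶜ).le (((hr_bW (Γ := Γ) (ω := ω) haN).congr P.eq).lin (hr_bW (Γ := Γ) (ω := ω') haN) Y ee)
    P.ex2 k hk q

/-- One group. -/
theorem PG_two {m : ℤ → ℝ} (hm : Ms m 0 Γ.hi Γ.N) {e : ℕ} (he : e ≤ Γ.N) {A : Set ℤ} {Y ee : ℝ}
    (h : ∀ q, QA Γ ω' e A 0 q ≤ Y * bW Γ ω 0 q + ee * bW Γ ω' 0 q) :
    PG Γ m e (bx Γ A) ω' ≤ Y * ZG Γ m ω + ee * ZG Γ m ω' := by
  rw [← PG_eq hm he A ω' (Nat.zero_le e), ← ZG_eq hm ω (Nat.zero_le _), ← ZG_eq hm ω' (Nat.zero_le _), mul_sum, mul_sum,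
    ← sum_add_distrib]
  refine sum_le_sum fun x _ => ?_
  have e1 : fw (wt ω') Γ.p m 0 x = fw (wt ω) Γ.p m 0 x := rfl
  rw [e1]
  calc fw (wt ω) Γ.p m 0 x * QA Γ ω' e A 0 x ≤ fw (wt ω) Γ.p m 0 x * (Y * bW Γ ω 0 x + ee * bW Γ ω' 0 x) :=
        mul_le_mul_of_nonneg_left (h x) (fw_nonneg (wt_pos ω) Γ.p_pos hm.nn _ _)
    _ = _ := by ring

theorem Pin76.grp (P : Pin76 Γ a a₁ b₁ C1 C2 Y ee ω ω') {m : ℤ → ℝ} (hm : Ms m 0 Γ.hi Γ.N) :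
    PG Γ m a₁ (bx Γ C1ᶜ) ω' ≤ Y * ZG Γ m ω + ee * ZG Γ m ω' ∧ PG Γ m b₁ (bx Γ C2ᶜ) ω' ≤ Y * ZG Γ m ω + ee * ZG Γ m ω' :=
  ⟨PG_two hm (P.h2.trans P.hb) fun q => P.dn1 (Nat.zero_le a) q, PG_two hm P.hb fun q => P.dn2 (Nat.zero_le a) q⟩

/-- The complement of a set of the box. -/
theorem bx_compl (Γ : Cx) (A : Set ℤ) : Icc 0 Γ.hi \ bx Γ A = bx Γ Aᶜ := by
  classical
  unfold bx
  ext y
  simp only [mem_sdiff, mem_filter, Set.mem_compl_iff]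
  tauto

/-- **THE UNMET MASS** from rank one between the cells: `κ` = the part of the new masses which misses a cell. -/
theorem unm76 (hΓ : Γ.Ok) {a₁ b₁ : ℕ} (h2 : a₁ ≤ b₁) (hb : b₁ ≤ Γ.N) {C1 C2 : Set ℤ} {δ κ : ℝ} (hδ : 0 ≤ δ) {ω₂ : Env}
    (hcr : ∀ z ∈ C1, ∀ z' ∈ C1, z < z' → ∀ x ∈ C2, ∀ y ∈ C2, x < y →
      ker (wt ω₂) Γ.p a₁ (b₁ - a₁) z x * ker (wt ω₂) Γ.p a₁ (b₁ - a₁) z' y -
        ker (wt ω₂) Γ.p a₁ (b₁ - a₁) z y * ker (wt ω₂) Γ.p a₁ (b₁ - a₁) z' x ≤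
        δ * (ker (wt ω₂) Γ.p a₁ (b₁ - a₁) z x * ker (wt ω₂) Γ.p a₁ (b₁ - a₁) z' y))
    (l1 : PG Γ Cx.l a₁ (bx Γ C1ᶜ) ω₂ ≤ κ * ZG Γ Cx.l ω₂) (r1 : PG Γ Γ.r a₁ (bx Γ C1ᶜ) ω₂ ≤ κ * ZG Γ Γ.r ω₂)
    (l2 : PG Γ Cx.l b₁ (bx Γ C2ᶜ) ω₂ ≤ κ * ZG Γ Cx.l ω₂) (r2 : PG Γ Γ.r b₁ (bx Γ C2ᶜ) ω₂ ≤ κ * ZG Γ Γ.r ω₂) :
    nm (wt ω₂) Γ.p Cx.l Γ.r 0 Γ.hi Γ.N b₁ ≤ (δ + 4 * κ) * (ZG Γ Cx.l ω₂ * ZG Γ Γ.r ω₂) := by
  have ml := ms_l hΓ
  have mr := ms_r hΓ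
  have eb : a₁ + (b₁ - a₁) = b₁ := by omega
  have h1 := unmet53 (wt_pos ω₂) Γ.p_pos (Cx.box1 hΓ) (a := a₁) (n := b₁ - a₁) (by rw [eb]; exact hb) (bx_sub (Γ := Γ) C1)
    (bx_sub (Γ := Γ) C2) (oL := κ) (oR := κ) (cL := κ) (cR := κ) hδ
    (fun z hz z' hz' hzz x hx y hy hxy => hcr z (mem_bx hz) z' (mem_bx hz') hzz x (mem_bx hx) y (mem_bx hy) hxy)
    (by rw [mA_zt ml (Nat.zero_le _), bx_compl]; exact l1) (by rw [mA_zt mr (Nat.zero_le _), bx_compl]; exact r1)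
    (by rw [mA_zt ml (Nat.zero_le _), bx_compl, eb]; exact l2) (by rw [mA_zt mr (Nat.zero_le _), bx_compl, eb]; exact r2)
  rw [mA_zt ml (Nat.zero_le _), mA_zt mr (Nat.zero_le _), eb] at h1
  refine h1.trans (le_of_eq ?_)
  unfold ZG
  ring

/-- **`met` OF M3A**: the unmet mass at the row `b₁` (and later) in the new environment. -/
theorem Pin76.met (hΓ : Γ.Ok) (P : Pin76 Γ a a₁ b₁ C1 C2 Y ee ω ω') {δ lam : ℝ} (hδ : 0 ≤ δ) (hlam : 0 < lam)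
    (hcr : ∀ z ∈ C1, ∀ z' ∈ C1, z < z' → ∀ x ∈ C2, ∀ y ∈ C2, x < y →
      ker (wt ω') Γ.p a₁ (b₁ - a₁) z x * ker (wt ω') Γ.p a₁ (b₁ - a₁) z' y -
        ker (wt ω') Γ.p a₁ (b₁ - a₁) z y * ker (wt ω') Γ.p a₁ (b₁ - a₁) z' x ≤
        δ * (ker (wt ω') Γ.p a₁ (b₁ - a₁) z x * ker (wt ω') Γ.p a₁ (b₁ - a₁) z' y))
    (tl : lam * ZG Γ Cx.l ω ≤ ZG Γ Cx.l ω') (tr : lam * ZG Γ Γ.r ω ≤ ZG Γ Γ.r ω') {e : ℕ} (hbe : b₁ ≤ e) (he : e ≤ Γ.N) :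
    nm (wt ω') Γ.p Cx.l Γ.r 0 Γ.hi Γ.N e ≤ (δ + 4 * (Y / lam + ee)) * (ZG Γ Cx.l ω' * ZG Γ Γ.r ω') := by
  have hk : ∀ m : ℤ → ℝ, lam * ZG Γ m ω ≤ ZG Γ m ω' → Y * ZG Γ m ω + ee * ZG Γ m ω' ≤ (Y / lam + ee) * ZG Γ m ω' := by
    intro m hm
    have h1 : Y * ZG Γ m ω ≤ Y / lam * ZG Γ m ω' := by
      rw [div_mul_eq_mul_div, le_div_iff₀ hlam]
      have := mul_le_mul_of_nonneg_left hm P.Y0
      linarith
    linarith
  have gl := P.grp (ms_l hΓ)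
  have gr := P.grp (ms_r hΓ)
  refine (nm_anti (wt_pos ω') Γ.p_pos (Cx.box1 hΓ) hbe he).trans ?_
  exact unm76 hΓ P.h2 P.hb hδ hcr (gl.1.trans (hk _ tl)) (gr.1.trans (hk _ tr)) (gl.2.trans (hk _ tl)) (gr.2.trans (hk _ tr))

/-! ### One slab below: the gate block -/

/-- **A slab below the block** (the gate block), rows up to `a`: `ω` old, `ω₀` = the new content in this slab, old above. From every site
of the row `a₀` at most `RG`; from the sites off `Mo₀` at most the part `sG` into the mouth; from the sites of `Mi₀` the part `g0` into the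
inner mouth. -/
structure Gs76 (Γ : Cx) (ω ω₀ : Env) (a₀ a : ℕ) (Mi₀ Mo₀ Mi Mo : Set ℤ) (g0 RG sG : ℝ) : Prop where
  ab : a₀ ≤ a
  R0 : 0 ≤ RG
  s0 : 0 ≤ sG
  pos : 0 < g0
  eq : ∀ k y, k < a₀ → wt ω₀ k y = wt ω k y
  gu : ∀ z, bW Γ ω₀ a₀ z ≤ RG * bW Γ ω a₀ z
  gf : ∀ z, z ∉ Mo₀ → QA Γ ω₀ a Mo a₀ z ≤ sG * bW Γ ω a₀ z
  gl : ∀ z ∈ Mi₀, g0 * bW Γ ω a₀ z ≤ QA Γ ω₀ a Mi a₀ z

variable {a₀ : ℕ} {Mi₀ Mo₀ : Set ℤ} {g0 RG sG : ℝ}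

/-- **LUCK, ONE SLAB DOWN.** -/
theorem Gs76.luk (S : Gs76 Γ ω ω₀ a₀ a Mi₀ Mo₀ Mi Mo g0 RG sG) (h : Luk Γ a b Mi Mo Ce g G Y ω₀ ω') :
    Luk Γ a₀ b Mi₀ Mo₀ Set.univ (g0 * g) ((G + Y) * RG) (G * sG + Y * RG) ω ω' := by
  have two := fun z => h.upp S.ab z
  have low : ∀ k y, k < a₀ → wt ω' k y = wt ω k y := fun k y hk => by
    have := S.ab
    rw [h.eq k y (by omega), S.eq k y hk]
  refine luk_univ (mul_pos S.pos h.g0) (mul_nonneg (add_nonneg h.G0 h.Y0) S.R0)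
    (add_nonneg (mul_nonneg h.G0 S.s0) (mul_nonneg h.Y0 S.R0)) (S.ab.trans h.ab) h.hb low (fun z _ => ?_) (fun z hz => ?_)
    fun z hz => ?_
  · have h1 := two z
    have h2 := QA_le_bW (Γ := Γ) (ω := ω₀) h.haN Mo a₀ S.ab z
    have h3 := S.gu z
    have h4 := mul_le_mul_of_nonneg_left (h2.trans h3) h.G0
    have h5 := mul_le_mul_of_nonneg_left h3 h.Y0
    linarith
  · have h1 := two z
    have h4 := mul_le_mul_of_nonneg_left (S.gf z hz) h.G0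
    have h5 := mul_le_mul_of_nonneg_left (S.gu z) h.Y0
    linarith
  · have h1 : ∀ q, g * QA Γ ω₀ a Mi a q ≤ bW Γ ω' a q := by
      intro q
      rw [QA_self]
      by_cases hq : q ∈ Mi
      · rw [tf_mem hq]; exact h.gain q hq
      · rw [tf_not hq, mul_zero]; exact (bW_pos _ _ _ _).le
    have h2 : g * QA Γ ω₀ a Mi a₀ z ≤ bW Γ ω' a₀ z :=
      (((hr_QA (Γ := Γ) (ω := ω₀) le_rfl Mi).smul g).congr h.eq).le (hr_bW (ω := ω') h.haN) h1 a₀ S.ab z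
    have h3 := mul_le_mul_of_nonneg_left (S.gl z hz) h.g0.le
    linarith

/-- **THE PINCH, ONE SLAB DOWN.** -/
theorem Gs76.pin (S : Gs76 Γ ω ω₀ a₀ a Mi₀ Mo₀ Mi Mo g0 RG sG) (P : Pin76 Γ a a₁ b₁ C1 C2 Y ee ω₀ ω') :
    Pin76 Γ a₀ a₁ b₁ C1 C2 (Y * RG) ee ω ω' := by
  have low : ∀ k y, k < a₀ → wt ω' k y = wt ω k y := fun k y hk => by
    have := S.ab
    rw [P.eq k y (by omega), S.eq k y hk]
  refine ⟨mul_nonneg P.Y0 S.R0, P.e0, S.ab.trans P.h1, P.h2, P.hb, low, fun z => ?_, fun z => ?_⟩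
  · have h1 := P.dn1 S.ab z
    have h2 := mul_le_mul_of_nonneg_left (S.gu z) P.Y0
    linarith
  · have h1 := P.dn2 S.ab z
    have h2 := mul_le_mul_of_nonneg_left (S.gu z) P.Y0
    linarith

end

end Pool.Agent.W_7d29a1_C1.Lb76
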