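import Pool.Agent.W_7d29a1_C1.BrR22
import Pool.Agent.W_7d29a1_C1.LucB76
import Pool.Agent.W_7d29a1_C1.UpS52

/-!
MP_7d29a1_pr, [C1] attractor route, SEP: THE GATE SLAB, FIELD `gf` OF `Gs76`. (helper73)

`ω` = old, `ω₀` = new content in the rows `≤ a` of the window, old above. From a site of the row `a₀` (the row before the window) at the
lateral distance more than `A` from the axis, the paths of `ω₀` to the mouth `Mo` (lateral distance at most `Km`) at the row `a` have at most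
the part `sG` of the old mass.

* `off_ind` : off a region the weights are equal: from the border of the region downwards;
* `bd73` : from the border: totals with tilts (`UpS`) of `ω₀` against the tame backward masses of `ω` (`TmB`);
* **`gf73`** : the two together; **`gf_spl73`** : for `ω₀ = spl (a + 1) ω' ω`, the totals asked of `ω'`.
-/

set_option autoImplicit false

namespace Pool.Agent.W_7d29a1_C1.G73

open Finset MeasureTheory
open Pool.Agent.W_7d29a1_F hiding Bw G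
open Pool.Agent.W_7d29a1_h4g Pool.Agent.W_7d29a1_HS
open Pool.Agent.W_7d29a1_H hiding ex gg
open Pool.Agent.W_7d29a1_C1.K91 (wt wt_pos measurable_wt)
open Pool.Agent.W_7d29a1_C1.K91P (bw bw_pos)
open Pool.Agent.W_7d29a1_C1.U16 (ker ker_nonneg ker_congr)
open Pool.Agent.W_7d29a1_C1.Sp22 (kw kw_nn kw_le bf bf_ker)
open Pool.Agent.W_7d29a1_C1.H60
open Pool.Agent.W_7d29a1_C1.G37 (Gm)
open Pool.Agent.W_7d29a1_C1.Sy78 (sp lat_win lat_succ)
open Pool.Agent.W_7d29a1_C1.O22 (Bw)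
open Pool.Agent.W_7d29a1_C1.E53
open Pool.Agent.W_7d29a1_C1.SD53
open Pool.Agent.W_7d29a1_C1.Rt22
open Pool.Agent.W_7d29a1_C1.RB22

noncomputable section

variable {Γ : Cx} {ω ω₀ ω' : Env} {a₀ a e : ℕ} {Mo : Set ℤ} {sG : ℝ}

/-- **Off a region**: the weights are equal there, the mouth is inside; a bound at the border of the region is a bound off it. -/
theorem off_ind {D : Set (ℕ × ℤ)} (haN : a ≤ Γ.N) (s0 : 0 ≤ sG)
    (hwt : ∀ k y, a₀ ≤ k → k < a → (k, y) ∉ D → wt ω₀ k y = wt ω k y) (hMo : ∀ v ∈ Mo, (a, v) ∈ D)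
    (bd : ∀ k y, a₀ ≤ k → k < a → ((k + 1, y) ∈ D → (k, y) ∉ D → QA Γ ω₀ a Mo (k + 1) y ≤ sG * bW Γ ω (k + 1) y) ∧
      ((k + 1, y + 1) ∈ D → (k, y) ∉ D → QA Γ ω₀ a Mo (k + 1) (y + 1) ≤ sG * bW Γ ω (k + 1) (y + 1))) :
    ∀ k, k ≤ a → a₀ ≤ k → ∀ y, (k, y) ∉ D → QA Γ ω₀ a Mo k y ≤ sG * bW Γ ω k y := by
  refine down (P := fun k => a₀ ≤ k → ∀ y, (k, y) ∉ D → QA Γ ω₀ a Mo k y ≤ sG * bW Γ ω k y) (fun _ y hy => ?_) fun k hk ih h0 y hy => ?_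
  · rw [QA_self, tf_not fun h => hy (hMo y h)]
    exact mul_nonneg s0 (bW_pos _ _ _ _).le
  · rw [QA_step Mo hk, bW_step (show k < Γ.N by omega), hwt k y h0 hk hy]
    have h1 : QA Γ ω₀ a Mo (k + 1) y ≤ sG * bW Γ ω (k + 1) y := by
      by_cases h : (k + 1, y) ∈ D
      · exact (bd k y h0 hk).1 h hy
      · exact ih (by omega) y h
    have h2 : QA Γ ω₀ a Mo (k + 1) (y + 1) ≤ sG * bW Γ ω (k + 1) (y + 1) := by
      by_cases h : (k + 1, y + 1) ∈ D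
      · exact (bd k y h0 hk).2 h hy
      · exact ih (by omega) (y + 1) h
    calc wt ω k y * (QA Γ ω₀ a Mo (k + 1) y + Γ.p k * QA Γ ω₀ a Mo (k + 1) (y + 1))
        ≤ wt ω k y * (sG * bW Γ ω (k + 1) y + Γ.p k * (sG * bW Γ ω (k + 1) (y + 1))) :=
          mul_le_mul_of_nonneg_left (add_le_add h1 (mul_le_mul_of_nonneg_left h2 (Γ.p_pos k).le)) (wt_pos ω k y).le
      _ = _ := by ring

variable {μ : Measure ℝ} {s : ℝ} {G : Gm} {γ : ℕ → ℤ → ℝ} {u : ℕ} {κ : ℤ × ℤ} {b Q t₀ V τ σ A Km : ℝ}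

theorem kw_univ (w : ℕ → ℤ → ℝ) : kw (Set.univ : Set (ℕ × ℤ))ᶜ w = w := by
  funext k y
  unfold kw
  rw [if_neg fun h => h (Set.mem_univ _)]

/-- **From the border**: the totals of the new content against the tame backward masses of the old one. -/
theorem bd73 (hs : Γ.s = s) (hv : G.v = sl μ s) (g : Gau μ s Γ γ)
    (U : ω₀ ∈ UpS μ s t₀ V σ (fun k x => G.lat (k, x) - G.ctr u κ) a₀ a) (hσ : 0 ≤ σ) (hτ : 0 ≤ τ) (ht : |Γ.h| + σ + τ ≤ t₀)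
    (hT : ω ∈ TmB Γ G γ b Q u κ a₀ e) (hae : a ≤ e) (haN : a < Γ.N) (hup : ∀ i y, a < i → wt ω₀ i y = wt ω i y)
    (hMo : ∀ v ∈ Mo, |G.lat (a, v) - G.ctr u κ| ≤ Km) (hKm : Km ≤ b * G.w u + 1) {k : ℕ} {y : ℤ} (h1 : a₀ ≤ k) (h2 : k ≤ a)
    (hA : |G.lat (k, y) - G.ctr u κ| ≤ A) (hAb : A ≤ b * G.w u + 1) (hA1 : A - 1 ≤ |G.lat (k, y) - G.ctr u κ|)
    (hw : wt ω₀ k y = wt ω k y) :
    QA Γ ω₀ a Mo k y ≤ 4 * Real.exp (Q + 2 * (V + σ * A) - τ * (A - 1 - Km)) * bW Γ ω k y := by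
  classical
  have hγ := g.pos
  have hlat : ∀ v : ℤ, G.lat (a, v) - G.lat (k, y) = ((v - y : ℤ) : ℝ) - sl μ s * ((a - k : ℕ) : ℝ) := by
    intro v
    have e1 : ((a - k : ℕ) : ℝ) = (a : ℝ) - k := by push_cast [Nat.cast_sub h2]; ring
    unfold Gm.lat
    rw [hv, e1]
    push_cast
    ring
  have hℓ : ∀ (k m : ℕ) (x z : ℤ), (fun k x => G.lat (k, x) - G.ctr u κ) (k + m) z =
      (fun k x => G.lat (k, x) - G.ctr u κ) k x + (((z - x : ℤ) : ℝ) - sl μ s * m) := by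
    intro k m x z
    simp only
    unfold Gm.lat
    rw [hv]
    push_cast
    ring
  obtain ⟨Y, hY⟩ : ∃ Y : Finset ℤ, Y = (Icc y (y + ((a - k : ℕ) : ℤ))).filter fun v => v ∈ Mo := ⟨_, rfl⟩
  have hYM : ∀ v ∈ Y, v ∈ Mo := fun v h => by
    rw [hY] at h
    exact (mem_filter.1 h).2
  have K0 : ∀ v, 0 ≤ ker (wt ω₀) Γ.p k (a - k) y v := fun v => ker_nonneg (wt_pos _) Γ.p_pos _ _ _ _
  have e1 : QA Γ ω₀ a Mo k y = ∑ v ∈ Y, ker (wt ω₀) Γ.p k (a - k) y v * bW Γ ω₀ a v := by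
    unfold QA
    rw [bf_ker, hY, sum_filter]
    refine sum_congr rfl fun v _ => ?_
    by_cases h : v ∈ Mo
    · rw [tf_mem h, if_pos h]
    · rw [tf_not h, if_neg h, mul_zero]
  have e2 : ∀ v, bW Γ ω₀ a v = bn Γ γ ω (a, v) * gg γ ω₀ a v := by
    intro v
    have h3 := bn_mul (Γ := Γ) hγ ω₀ (a, v)
    rw [bn_congr (ω := ω₀) (ω' := ω) haN (fun i y hi => hup i y hi) v] at h3
    exact h3
  have hbn := bn_pos (Γ := Γ) hγ ω (k, y)
  have t1 : ∀ v ∈ Y, bn Γ γ ω (a, v) ≤ Real.exp Q * bn Γ γ ω (k, y) := fun v hv' =>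
    hT (k, y) (a, v) h1 (h2.trans hae) (h1.trans h2) hae (hA.trans hAb) ((hMo v (hYM v hv')).trans hKm)
  have key := kill_sum (D := (Set.univ : Set (ℕ × ℤ))) (ρ := A - 1 - Km) hs g U hℓ hσ hτ ht (k := k) (n := a - k) (x := y) h1 (by omega)
    (by omega) Y fun v hv' => by
      rw [← hlat v]
      have h4 := hMo v (hYM v hv')
      have h5 : |G.lat (k, y) - G.ctr u κ| ≤ |G.lat (a, v) - G.ctr u κ| + |G.lat (a, v) - G.lat (k, y)| := by
        have h6 := abs_sub (G.lat (a, v) - G.ctr u κ) (G.lat (a, v) - G.lat (k, y))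
        have h7 : G.lat (a, v) - G.ctr u κ - (G.lat (a, v) - G.lat (k, y)) = G.lat (k, y) - G.ctr u κ := by ring
        rwa [h7] at h6
      linarith
  rw [kw_univ, show k + (a - k) = a by omega] at key
  rw [e1]
  have h8 : V + σ * |(fun k x => G.lat (k, x) - G.ctr u κ) k y| ≤ V + σ * A := by
    have := mul_le_mul_of_nonneg_left hA hσ
    simp only
    linarith
  have h9 : gg γ ω₀ k y = wt ω k y * γ k y := by
    unfold gg
    rw [hw]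
  have h10 : bn Γ γ ω (k, y) * (wt ω k y * γ k y) = bW Γ ω k y := (bn_mul (Γ := Γ) hγ ω (k, y)).symm
  have h11 : 0 < wt ω k y * γ k y := mul_pos (wt_pos ω k y) (hγ k y)
  calc ∑ v ∈ Y, ker (wt ω₀) Γ.p k (a - k) y v * bW Γ ω₀ a v
      ≤ ∑ v ∈ Y, Real.exp Q * bn Γ γ ω (k, y) * (ker (wt ω₀) Γ.p k (a - k) y v * gg γ ω₀ a v) := by
        refine sum_le_sum fun v hv' => ?_
        rw [e2 v]
        have h12 := mul_le_mul_of_nonneg_right (t1 v hv') (mul_nonneg (K0 v) (gg_pos hγ ω₀ a v).le)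
        linarith
    _ = Real.exp Q * bn Γ γ ω (k, y) * ∑ v ∈ Y, ker (wt ω₀) Γ.p k (a - k) y v * gg γ ω₀ a v := by rw [mul_sum]
    _ ≤ Real.exp Q * bn Γ γ ω (k, y) * (4 * Real.exp (2 * (V + σ * |(fun k x => G.lat (k, x) - G.ctr u κ) k y|) - τ * (A - 1 - Km)) *
          gg γ ω₀ k y) := mul_le_mul_of_nonneg_left key (mul_pos (Real.exp_pos _) hbn).le
    _ ≤ Real.exp Q * bn Γ γ ω (k, y) * (4 * Real.exp (2 * (V + σ * A) - τ * (A - 1 - Km)) * (wt ω k y * γ k y)) := by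
        rw [h9]
        refine mul_le_mul_of_nonneg_left (mul_le_mul_of_nonneg_right (mul_le_mul_of_nonneg_left (Real.exp_le_exp.2 ?_) (by norm_num))
          h11.le) (mul_pos (Real.exp_pos _) hbn).le
        linarith
    _ = 4 * (Real.exp Q * Real.exp (2 * (V + σ * A) - τ * (A - 1 - Km))) * (bn Γ γ ω (k, y) * (wt ω k y * γ k y)) := by ring
    _ = _ := by
        rw [h10, ← Real.exp_add]
        congr 3
        ring

/-- **THE FIELD `gf`**: `sG = 4 exp (Q + 2 (V + σ A) - τ (A - 1 - Km))`. -/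
theorem gf73 (hs : Γ.s = s) (hv : G.v = sl μ s) (hv0 : 0 ≤ G.v) (hv1 : G.v ≤ 1) (g : Gau μ s Γ γ)
    (U : ω₀ ∈ UpS μ s t₀ V σ (fun k x => G.lat (k, x) - G.ctr u κ) a₀ a) (hσ : 0 ≤ σ) (hτ : 0 ≤ τ) (ht : |Γ.h| + σ + τ ≤ t₀)
    (hT : ω ∈ TmB Γ G γ b Q u κ a₀ e) (hae : a ≤ e) (haN : a < Γ.N) (hup : ∀ i y, a < i → wt ω₀ i y = wt ω i y)
    (hoff : ∀ k y, k ≤ a → G.kw * G.w u + 1 < |G.lat (k, y) - G.ctr u κ| → wt ω₀ k y = wt ω k y)
    (hMo : ∀ v ∈ Mo, |G.lat (a, v) - G.ctr u κ| ≤ Km) (hKA : Km ≤ A) (hkA : G.kw * G.w u + 2 < A) (hAb : A ≤ b * G.w u + 1)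
    {k : ℕ} {y : ℤ} (h1 : a₀ ≤ k) (h2 : k ≤ a) (hz : A < |G.lat (k, y) - G.ctr u κ|) :
    QA Γ ω₀ a Mo k y ≤ 4 * Real.exp (Q + 2 * (V + σ * A) - τ * (A - 1 - Km)) * bW Γ ω k y := by
  obtain ⟨D, hD⟩ : ∃ D : Set (ℕ × ℤ), D = {c | |G.lat c - G.ctr u κ| ≤ A} := ⟨_, rfl⟩
  have hDm : ∀ k y, (k, y) ∈ D ↔ |G.lat (k, y) - G.ctr u κ| ≤ A := fun k y => by rw [hD]; exact Iff.rfl
  refine off_ind (D := D) haN.le (by positivity) (fun k y _ hk hy => hoff k y hk.le ?_) (fun v hv' => (hDm a v).2 ((hMo v hv').trans hKA))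
    (fun k y h3 h4 => ⟨fun h5 h6 => ?_, fun h5 h6 => ?_⟩) k h2 h1 y fun h => absurd ((hDm k y).1 h) (not_le.2 hz)
  · rw [hDm, not_le] at hy
    linarith
  · rw [hDm] at h5
    rw [hDm, not_le] at h6
    have h7 : A - 1 ≤ |G.lat (k + 1, y) - G.ctr u κ| := by
      have e1 : G.lat (k, y) - G.ctr u κ = (G.lat (k + 1, y) - G.ctr u κ) + G.v := by
        unfold Gm.lat
        push_cast
        ring
      have h8 := abs_add_le (G.lat (k + 1, y) - G.ctr u κ) G.v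
      rw [← e1, abs_of_nonneg hv0] at h8
      linarith
    exact bd73 hs hv g U hσ hτ ht hT hae haN hup hMo (hKA.trans hAb) (by omega) (by omega) h5 hAb h7
      (hoff _ _ (by omega) (by linarith))
  · rw [hDm] at h5
    rw [hDm, not_le] at h6
    have h7 : A - 1 ≤ |G.lat (k + 1, y + 1) - G.ctr u κ| := by
      have e1 : G.lat (k, y) - G.ctr u κ = (G.lat (k + 1, y + 1) - G.ctr u κ) + (G.v - 1) := by
        unfold Gm.lat
        push_cast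
        ring
      have h8 := abs_add_le (G.lat (k + 1, y + 1) - G.ctr u κ) (G.v - 1)
      have h9 : |G.v - 1| ≤ 1 := by
        rw [abs_le]
        constructor <;> linarith
      rw [← e1] at h8
      linarith
    exact bd73 hs hv g U hσ hτ ht hT hae haN hup hMo (hKA.trans hAb) (by omega) (by omega) h5 hAb h7
      (hoff _ _ (by omega) (by linarith))

/-! ### The spliced environment -/

/-- The totals of a block read the rows `(a₀, a]`. -/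
theorem upS_congr73 {ℓ : ℕ → ℤ → ℝ} (h : ∀ p : Pt, (a₀ : ℤ) < p.1 → p.1 ≤ (a : ℤ) → ω₀ p = ω' p)
    (U : ω' ∈ UpS μ s t₀ V σ ℓ a₀ a) : ω₀ ∈ UpS μ s t₀ V σ ℓ a₀ a := fun k x n h1 h2 => by
  have e : ∀ τ, tw μ s τ ω₀ ((k : ℤ), x) n = tw μ s τ ω' ((k : ℤ), x) n := fun τ => by
    have e1 := Up52.tw52_eq (μ := μ) (s := s) τ ω₀ ((k : ℤ), x) n
    have e2 := Up52.tw52_eq (μ := μ) (s := s) τ ω' ((k : ℤ), x) n
    have e3 : Pool.Agent.W_7d29a1_L.T μ s (sl μ s) τ ω₀ ((k : ℤ), x) n = Pool.Agent.W_7d29a1_L.T μ s (sl μ s) τ ω' ((k : ℤ), x) n :=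
      U16.T_rows (μ := μ) (s := s) (v := sl μ s) (h := τ) ((k : ℤ), x) n (show ∀ q ∈ rows (k : ℤ) ((k : ℤ) + n), ω₀ q = ω' q from
        fun q hq => h q (lt_of_le_of_lt (by exact_mod_cast h1) hq.1) (hq.2.trans (by exact_mod_cast h2)))
    calc tw μ s τ ω₀ ((k : ℤ), x) n = Real.exp (Pool.Agent.W_7d29a1_L.T μ s (sl μ s) τ ω₀ ((k : ℤ), x) n) := e1
      _ = Real.exp (Pool.Agent.W_7d29a1_L.T μ s (sl μ s) τ ω' ((k : ℤ), x) n) := by rw [e3]
      _ = _ := e2.symm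
  rw [e, e]
  exact U k x n h1 h2

/-- **`gf` FOR `ω₀ = spl (a + 1) ω' ω`**, `ω'` equal to `ω` off the window: the totals are asked of `ω'` (rows `[a₀, a]`). -/
theorem gf_spl73 (hs : Γ.s = s) (hv : G.v = sl μ s) (hv0 : 0 ≤ G.v) (hv1 : G.v ≤ 1) (g : Gau μ s Γ γ)
    (U : ω' ∈ UpS μ s t₀ V σ (fun k x => G.lat (k, x) - G.ctr u κ) a₀ a) (hσ : 0 ≤ σ) (hτ : 0 ≤ τ) (ht : |Γ.h| + σ + τ ≤ t₀)
    (hT : ω ∈ TmB Γ G γ b Q u κ a₀ e) (hae : a ≤ e) (haN : a < Γ.N)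
    (heq : ∀ k y, (k, y) ∉ Bw G u κ → wt ω' k y = wt ω k y)
    (hMo : ∀ v ∈ Mo, |G.lat (a, v) - G.ctr u κ| ≤ Km) (hKA : Km ≤ A) (hkA : G.kw * G.w u + 2 < A) (hAb : A ≤ b * G.w u + 1)
    {k : ℕ} {y : ℤ} (h1 : a₀ ≤ k) (h2 : k ≤ a) (hz : A < |G.lat (k, y) - G.ctr u κ|) :
    QA Γ (spl (a + 1) ω' ω) a Mo k y ≤ 4 * Real.exp (Q + 2 * (V + σ * A) - τ * (A - 1 - Km)) * bW Γ ω k y := by
  refine gf73 hs hv hv0 hv1 g (upS_congr73 (fun p _ h4 => ?_) U) hσ hτ ht hT hae haN (fun i y hi => wt_spl_ge (by omega) y)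
    (fun k y hk hl => ?_) hMo hKA hkA hAb h1 h2 hz
  · unfold spl
    rw [if_pos (by push_cast; omega)]
  · rw [wt_spl_lt (by omega)]
    exact heq k y fun h => absurd (lat_win (G := G) (u := u) (κ := κ) h) (not_le.2 hl)

end

end Pool.Agent.W_7d29a1_C1.G73
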