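import Pool.Agent.W_7d29a1_C1.RatH22

/-!
MP_7d29a1_pr, [C1] attractor route, SEP: THE RATIO OF THE BACKWARD MASSES OFF THE WINDOW, BY BLOCKS. (helper22)

A block = the rows strictly between `a` and `e`; `Bk a e` = the window sites there, strip `sp G u κ b`. Gauge `gB γ e` : own weight times
`γ` in the rows `< e`, `γ` alone in the row `e`: the events of a block read only the rows strictly inside the block.

* `KiB` (upper kernels from the rim; `kiB_dec` : decreasing, own weight of the start cancels), `LoB` (lower kernels from the rim; `loB_inc`),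
  `TmB` (tame backward masses; `tmB_congr` : reads the rows `> a`), `StB` (weights of the row `e`); measurability;
* **`ro_blk`** : one block; **`ro_two`** : two blocks, through the environment `spl rl ω' ω` (new below the row `rl`, old from it on).
-/

set_option autoImplicit false

namespace Pool.Agent.W_7d29a1_C1.RB22

open Finset MeasureTheory
open Pool.Agent.W_7d29a1_F hiding Bw G
open Pool.Agent.W_7d29a1_h4g Pool.Agent.W_7d29a1_HS
open Pool.Agent.W_7d29a1_H hiding ex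
open Pool.Agent.W_7d29a1_C1.K91 (wt wt_pos measurable_wt)
open Pool.Agent.W_7d29a1_C1.K91P (fw bw bw_succ bw_zero bw_pos bw_congr)
open Pool.Agent.W_7d29a1_C1.U16 (ker ker_zero ker_succ ker_nonneg ker_eq_zero ker_congr)
open Pool.Agent.W_7d29a1_C1.Sp22 (kw kw_nn kw_le bf bf_zero bf_succ bf_ker bf_mono bf_nonneg bf_bw bf_congr bf_smul ker_back)
open Pool.Agent.W_7d29a1_C1.H60
open Pool.Agent.W_7d29a1_C1.G37 (Gm)
open Pool.Agent.W_7d29a1_C1.Sy78 (sp lat_win lat_succ)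
open Pool.Agent.W_7d29a1_C1.O22 (Bw)
open Pool.Agent.W_7d29a1_C1.Rt22

noncomputable section

/-- The window sites strictly between the rows `a` and `e`. -/
def Bk (G : Gm) (u : ℕ) (κ : ℤ × ℤ) (a e : ℕ) : Set (ℕ × ℤ) := {c | c ∈ Bw G u κ ∧ a < c.1 ∧ c.1 < e}

/-- The gauge: own weight times `γ` below the row `e`, `γ` in the row `e`. -/
def gB (γ : ℕ → ℤ → ℝ) (e : ℕ) (ω : Env) (k : ℕ) (y : ℤ) : ℝ := if k < e then wt ω k y * γ k y else γ k y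

variable {Γ : Cx} {G : Gm} {γ : ℕ → ℤ → ℝ} {u : ℕ} {κ : ℤ × ℤ} {b A X U Q Uw : ℝ} {a e : ℕ} {ω ω' : Env}

theorem gB_pos (hγ : ∀ k y, 0 < γ k y) (e : ℕ) (ω : Env) (k : ℕ) (y : ℤ) : 0 < gB γ e ω k y := by
  unfold gB
  split_ifs
  · exact mul_pos (wt_pos ω k y) (hγ k y)
  · exact hγ k y

theorem gB_lt {k : ℕ} (h : k < e) (y : ℤ) : gB γ e ω k y = wt ω k y * γ k y := if_pos h

theorem gB_end (y : ℤ) : gB γ e ω e y = γ e y := if_neg (lt_irrefl e)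

theorem gB_congr {k : ℕ} {y : ℤ} (h : wt ω k y = wt ω' k y) : gB γ e ω k y = gB γ e ω' k y := by
  unfold gB
  rw [h]

/-- **`Reg`**. -/
theorem reg_B (hv0 : 0 ≤ G.v) (hv1 : G.v ≤ 1) (hb : G.kw * G.w u + 2 ≤ b * G.w u) (a e : ℕ) :
    Reg (sp G u κ b) (spp G u κ b) (Bk G u κ a e) a e where
  BD := by
    intro c hc
    have h1 := lat_win (G := G) (u := u) (κ := κ) (k := c.1) (y := c.2) hc.1
    show |G.lat c - G.ctr u κ| ≤ b * G.w u
    exact h1.trans (by linarith)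
  rim := by
    intro c hc
    show |G.lat c - G.ctr u κ| ≤ b * G.w u
    rcases hc.2.2 with h | h
    · have h1 := lat_win (G := G) (u := u) (κ := κ) (k := c.1 + 1) (y := c.2) h.1
      unfold Gm.lat at h1 ⊢
      simp only at h1 ⊢
      push_cast at h1
      obtain ⟨h4, h5⟩ := abs_le.1 h1
      rw [abs_le]
      constructor <;> linarith
    · have h1 := lat_win (G := G) (u := u) (κ := κ) (k := c.1 + 1) (y := c.2 + 1) h.1
      unfold Gm.lat at h1 ⊢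
      simp only at h1 ⊢
      push_cast at h1
      obtain ⟨h4, h5⟩ := abs_le.1 h1
      rw [abs_le]
      constructor <;> linarith
  sub := by
    intro c hc
    have h1 : |G.lat c - G.ctr u κ| ≤ b * G.w u := hc
    show |G.lat c - G.ctr u κ| ≤ b * G.w u + 1
    linarith
  next := fun k y h => lat_succ hv0 hv1 k y h
  rows := fun _ _ h => h.2

/-- The lateral place of the rim. -/
theorem rim_lat (hv0 : 0 ≤ G.v) (hv1 : G.v ≤ 1) {c : ℕ × ℤ} (hc : c ∈ Rim (Bk G u κ a e) a) :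
    |G.lat c - G.ctr u κ| ≤ G.kw * G.w u + 2 := by
  rcases hc.2.2 with h | h
  · have h1 := lat_win (G := G) (u := u) (κ := κ) (k := c.1 + 1) (y := c.2) h.1
    unfold Gm.lat at h1 ⊢
    simp only at h1 ⊢
    push_cast at h1
    obtain ⟨h4, h5⟩ := abs_le.1 h1
    rw [abs_le]
    constructor <;> linarith
  · have h1 := lat_win (G := G) (u := u) (κ := κ) (k := c.1 + 1) (y := c.2 + 1) h.1
    unfold Gm.lat at h1 ⊢
    simp only at h1 ⊢
    push_cast at h1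
    obtain ⟨h4, h5⟩ := abs_le.1 h1
    rw [abs_le]
    constructor <;> linarith

/-- The rows of the rim. -/
theorem rim_row {c : ℕ × ℤ} (hc : c ∈ Rim (Bk G u κ a e) a) : a ≤ c.1 ∧ c.1 + 1 < e := by
  refine ⟨hc.1, ?_⟩
  rcases hc.2.2 with h | h
  · exact h.2.2
  · exact h.2.2

/-! ### The events -/

variable (Γ) (G) (γ)

/-- **Upper kernels** of the block. -/
def KiB (b A X : ℝ) (u : ℕ) (κ : ℤ × ℤ) (a e : ℕ) : Set Env :=
  {ω | Kin (wt ω) Γ.p (gB γ e ω) e (sp G u κ b) (Bk G u κ a e) a A X}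

/-- **Lower kernels** of the block. -/
def LoB (b U : ℝ) (u : ℕ) (κ : ℤ × ℤ) (a e : ℕ) : Set Env :=
  {ω | ∀ c ∈ Rim (Bk G u κ a e) a, ∃ J : Finset ℤ, (∀ v ∈ J, |G.lat (e, v) - G.ctr u κ| ≤ b * G.w u + 1) ∧
    Real.exp (-U) * gB γ e ω c.1 c.2 ≤ ∑ v ∈ J, ker (wt ω) Γ.p c.1 (e - c.1) c.2 v * γ e v}

/-- The normalised backward mass. -/
def bn (ω : Env) (c : ℕ × ℤ) : ℝ := bw (wt ω) Γ.p c.1 (Γ.N - c.1) c.2 / (wt ω c.1 c.2 * γ c.1 c.2)

/-- **Tame backward masses**, rows `[a, e]`. -/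
def TmB (b Q : ℝ) (u : ℕ) (κ : ℤ × ℤ) (a e : ℕ) : Set Env :=
  {ω | ∀ c c' : ℕ × ℤ, a ≤ c.1 → c.1 ≤ e → a ≤ c'.1 → c'.1 ≤ e → |G.lat c - G.ctr u κ| ≤ b * G.w u + 1 →
    |G.lat c' - G.ctr u κ| ≤ b * G.w u + 1 → bn Γ γ ω c' ≤ Real.exp Q * bn Γ γ ω c}

/-- **Weights of the row `e`**. -/
def StB (b Uw : ℝ) (u : ℕ) (κ : ℤ × ℤ) (e : ℕ) : Set Env :=
  {ω | ∀ v : ℤ, |G.lat (e, v) - G.ctr u κ| ≤ b * G.w u + 1 → Real.exp (-Uw) ≤ wt ω e v ∧ wt ω e v ≤ Real.exp Uw}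

variable {Γ} {G} {γ}

theorem bn_pos (hγ : ∀ k y, 0 < γ k y) (ω : Env) (c : ℕ × ℤ) : 0 < bn Γ γ ω c :=
  div_pos (bw_pos (wt_pos ω) Γ.p_pos _ _ _) (mul_pos (wt_pos ω _ _) (hγ _ _))

theorem bn_mul (hγ : ∀ k y, 0 < γ k y) (ω : Env) (c : ℕ × ℤ) :
    bw (wt ω) Γ.p c.1 (Γ.N - c.1) c.2 = bn Γ γ ω c * (wt ω c.1 c.2 * γ c.1 c.2) := by
  have h1 := (mul_pos (wt_pos ω c.1 c.2) (hγ c.1 c.2)).ne'
  unfold bn
  rw [div_mul_cancel₀ _ h1]

/-- The reference site of the row `e`. -/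
def zr (G : Gm) (u : ℕ) (κ : ℤ × ℤ) (e : ℕ) : ℤ := ⌊G.ctr u κ + G.v * (e : ℝ)⌋

theorem zr_lat (hb0 : 0 ≤ b * G.w u) : |G.lat (e, zr G u κ e) - G.ctr u κ| ≤ b * G.w u + 1 := by
  unfold zr Gm.lat
  simp only
  have h1 := Int.floor_le (G.ctr u κ + G.v * (e : ℝ))
  have h2 := Int.lt_floor_add_one (G.ctr u κ + G.v * (e : ℝ))
  rw [abs_le]
  constructor <;> linarith

/-! ### Sizes -/

/-- The sizes from the tame backward masses and the weights of the row `e`. -/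
theorem sz_of (hγ : ∀ k y, 0 < γ k y) (hv0 : 0 ≤ G.v) (hv1 : G.v ≤ 1) (hb : G.kw * G.w u + 2 ≤ b * G.w u) (hb0 : 0 ≤ b * G.w u)
    (hae : a < e) (he : e ≤ Γ.N) (hUw : 0 ≤ Uw) (hT : ω ∈ TmB Γ G γ b Q u κ a e) (hS : ω ∈ StB G b Uw u κ e) :
    Sz (wt ω) Γ.p (gB γ e ω) e (bw (wt ω) Γ.p e (Γ.N - e)) (sp G u κ b) (spp G u κ b) (Bk G u κ a e) a (Q + Uw) (Q + Uw)
      (bn Γ γ ω (e, zr G u κ e)) := by
  have hz := zr_lat (G := G) (u := u) (κ := κ) (e := e) hb0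
  have hF := bn_pos (Γ := Γ) hγ ω (e, zr G u κ e)
  have hE : Real.exp Q ≤ Real.exp (Q + Uw) := Real.exp_le_exp.2 (by linarith)
  refine ⟨hF.le, fun c hc => ?_, fun c hc => ?_⟩
  · have hr := rim_row hc
    have hl : |G.lat c - G.ctr u κ| ≤ b * G.w u + 1 := (rim_lat hv0 hv1 hc).trans (by linarith)
    have h1 := hT c (e, zr G u κ e) hr.1 (by omega) hae.le le_rfl hl hz
    rw [bw_bf (by omega) he, bn_mul hγ, gB_lt (by omega)]
    have h2 := mul_pos (wt_pos ω c.1 c.2) (hγ c.1 c.2)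
    have h3 := bn_pos (Γ := Γ) hγ ω c
    calc bn Γ γ ω (e, zr G u κ e) * (wt ω c.1 c.2 * γ c.1 c.2) ≤ Real.exp Q * bn Γ γ ω c * (wt ω c.1 c.2 * γ c.1 c.2) :=
          mul_le_mul_of_nonneg_right h1 h2.le
      _ = Real.exp Q * (bn Γ γ ω c * (wt ω c.1 c.2 * γ c.1 c.2)) := by ring
      _ ≤ _ := mul_le_mul_of_nonneg_right hE (mul_pos h3 h2).le
  · have hlp : |G.lat c - G.ctr u κ| ≤ b * G.w u + 1 := hc.1
    have hca : a ≤ c.1 ∧ c.1 ≤ e := by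
      rcases hc.2 with ⟨h1, h2, _⟩ | h1
      · exact ⟨h1.le, h2.le⟩
      · exact ⟨by omega, h1.le⟩
    have h1 := hT (e, zr G u κ e) c hae.le le_rfl hca.1 hca.2 hz hlp
    have h2 := mul_pos (wt_pos ω c.1 c.2) (hγ c.1 c.2)
    rw [bw_bf hca.2 he, bn_mul hγ]
    have h4 : bn Γ γ ω c * (wt ω c.1 c.2 * γ c.1 c.2) ≤ Real.exp Q * bn Γ γ ω (e, zr G u κ e) * (wt ω c.1 c.2 * γ c.1 c.2) :=
      mul_le_mul_of_nonneg_right h1 h2.le
    refine h4.trans ?_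
    rcases lt_or_ge c.1 e with h5 | h5
    · rw [gB_lt h5]
      exact mul_le_mul_of_nonneg_right (mul_le_mul_of_nonneg_right hE hF.le) h2.le
    · have h6 : c.1 = e := le_antisymm hca.2 h5
      have h7 : wt ω c.1 c.2 ≤ Real.exp Uw := by
        have := (hS c.2 (by rw [← h6]; exact hlp)).2
        rwa [← h6] at this
      have h8 : gB γ e ω c.1 c.2 = γ c.1 c.2 := if_neg (by omega)
      rw [h8, Real.exp_add]
      have h9 := hγ c.1 c.2
      calc Real.exp Q * bn Γ γ ω (e, zr G u κ e) * (wt ω c.1 c.2 * γ c.1 c.2)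
          ≤ Real.exp Q * bn Γ γ ω (e, zr G u κ e) * (Real.exp Uw * γ c.1 c.2) :=
            mul_le_mul_of_nonneg_left (mul_le_mul_of_nonneg_right h7 h9.le) (by positivity)
        _ = _ := by ring

/-- The lower half of the row `e`. -/
theorem ft_of (hγ : ∀ k y, 0 < γ k y) (hb0 : 0 ≤ b * G.w u) (hae : a ≤ e) (hT : ω ∈ TmB Γ G γ b Q u κ a e)
    (hS : ω ∈ StB G b Uw u κ e) {v : ℤ} (hv : |G.lat (e, v) - G.ctr u κ| ≤ b * G.w u + 1) :
    bn Γ γ ω (e, zr G u κ e) * γ e v ≤ Real.exp (Q + Uw) * bw (wt ω) Γ.p e (Γ.N - e) v := by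
  have hz := zr_lat (G := G) (u := u) (κ := κ) (e := e) hb0
  have h1 := hT (e, v) (e, zr G u κ e) hae le_rfl hae le_rfl hv hz
  have h2 := hγ e v
  have h3 := bn_pos (Γ := Γ) hγ ω (e, v)
  have h4 := (hS v hv).1
  have h5 : bw (wt ω) Γ.p e (Γ.N - e) v = bn Γ γ ω (e, v) * (wt ω e v * γ e v) := bn_mul hγ ω (e, v)
  rw [h5, Real.exp_add]
  have h6 : 1 ≤ Real.exp Uw * wt ω e v := by
    have h7 : Real.exp Uw * Real.exp (-Uw) = 1 := by rw [← Real.exp_add]; simp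
    rw [← h7]
    exact mul_le_mul_of_nonneg_left h4 (Real.exp_pos _).le
  calc bn Γ γ ω (e, zr G u κ e) * γ e v ≤ Real.exp Q * bn Γ γ ω (e, v) * γ e v := mul_le_mul_of_nonneg_right h1 h2.le
    _ = Real.exp Q * bn Γ γ ω (e, v) * γ e v * 1 := (mul_one _).symm
    _ ≤ Real.exp Q * bn Γ γ ω (e, v) * γ e v * (Real.exp Uw * wt ω e v) := mul_le_mul_of_nonneg_left h6 (by positivity)
    _ = _ := by ring

/-! ### One block -/

/-- **THE RATIO OF ONE BLOCK.** -/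
theorem ro_blk (hγ : ∀ k y, 0 < γ k y) (hv0 : 0 ≤ G.v) (hv1 : G.v ≤ 1) (hb : G.kw * G.w u + 2 ≤ b * G.w u) (hb0 : 0 ≤ b * G.w u)
    (hae : a < e) (he : e ≤ Γ.N) (heq : ∀ k y, (k, y) ∉ Bk G u κ a e → wt ω k y = wt ω' k y) {al q U₁ d : ℝ} (hal : 0 ≤ al)
    (hQ : 0 ≤ Q) (hUw : 0 ≤ Uw) (hq : Q + Uw ≤ q) (hU₁ : 0 ≤ U₁) (hA : A ≤ Real.exp al) (hX0 : 0 ≤ X)
    (hX : X * Real.exp (1 + al + 5 * q + U₁) ≤ 1 / 2) (hd : 2 + 2 * al + 5 * q + U₁ ≤ d)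
    (hK : ω ∈ KiB Γ G γ b A X u κ a e) (hT : ω ∈ TmB Γ G γ b Q u κ a e) (hS : ω ∈ StB G b Uw u κ e)
    (hK' : ω' ∈ KiB Γ G γ b A X u κ a e) (hL : ω' ∈ LoB Γ G γ b U₁ u κ a e) :
    Ro (wt ω) (wt ω') Γ.p Γ.N (Bk G u κ a e) (Real.exp d) := by
  have e2 : (2 : ℝ) ≤ Real.exp 1 := by
    have := Real.add_one_le_exp (1 : ℝ)
    linarith
  have hq0 : 0 ≤ q := by linarith
  have hreg := reg_B (G := G) (κ := κ) hv0 hv1 hb a e
  have hwt : ∀ k y, (k, y) ∉ Bk G u κ a e → wt ω' k y = wt ω k y := fun k y h => (heq k y h).symm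
  have hgc : ∀ k y, (k, y) ∉ Bk G u κ a e → gB γ e ω' k y = gB γ e ω k y := fun k y h => gB_congr (hwt k y h)
  have hge : ∀ k, e ≤ k → wt ω k = wt ω' k := fun k hk => funext fun y => heq k y fun h => absurd h.2.2 (by omega)
  have eF : bw (wt ω') Γ.p e (Γ.N - e) = bw (wt ω) Γ.p e (Γ.N - e) := by
    funext y
    exact bw_congr (w := wt ω') (w' := wt ω) (Γ.N - e) e (fun i hi z => by rw [hge i hi]) y
  have hFn : ∀ y, 0 ≤ bw (wt ω) Γ.p e (Γ.N - e) y := fun y => (bw_pos (wt_pos ω) Γ.p_pos _ _ _).le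
  -- kernels
  have K : Kin (wt ω) Γ.p (gB γ e ω) e (sp G u κ b) (Bk G u κ a e) a (Real.exp al) X :=
    ⟨fun c hc => (hK.mass c hc).trans (mul_le_mul_of_nonneg_right hA (gB_pos hγ e ω _ _).le), hK.exit⟩
  have K1 := Kin.congr hreg hgc hK'
  have K' : Kin (wt ω') Γ.p (gB γ e ω) e (sp G u κ b) (Bk G u κ a e) a (Real.exp al) X :=
    ⟨fun c hc => (K1.mass c hc).trans (mul_le_mul_of_nonneg_right hA (gB_pos hγ e ω _ _).le), K1.exit⟩
  -- sizes of the old masses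
  have S := (sz_of hγ hv0 hv1 hb hb0 hae he hUw hT hS).mono (gB_pos hγ e ω) (wt_pos ω) Γ.p_pos hFn hq hq
  -- sizes of the new masses
  have n1 : X * Real.exp (q + q) ≤ 1 / 2 := (mul_le_mul_of_nonneg_left (Real.exp_le_exp.2 (by linarith)) hX0).trans hX
  have n2 := num_ok (A := Real.exp al) (X := X) (Q := q) (U := q) n1
  have n3 : max 1 (2 * Real.exp al * Real.exp (q + q)) ≤ Real.exp (1 + al + 2 * q) := by
    refine max_le (Real.one_le_exp (by linarith)) ?_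
    rw [show 1 + al + 2 * q = 1 + (al + (q + q)) by ring, Real.exp_add 1, Real.exp_add al, mul_assoc]
    exact mul_le_mul_of_nonneg_right e2 (by positivity)
  have S' : Sz (wt ω') Γ.p (gB γ e ω) e (bw (wt ω) Γ.p e (Γ.N - e)) (sp G u κ b) (spp G u κ b) (Bk G u κ a e) a (U₁ + q)
      (1 + al + 3 * q) (bn Γ γ ω (e, zr G u κ e)) := by
    refine up_tr (wt_pos ω) (wt_pos ω') Γ.p_pos (gB_pos hγ e ω) hFn hreg hae.le (fun k y _ h => heq k y h) S K' n2.1 n2.2 ?_ fun c hc => ?_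
    · calc max 1 (2 * Real.exp al * Real.exp (q + q)) * Real.exp q ≤ Real.exp (1 + al + 2 * q) * Real.exp q :=
            mul_le_mul_of_nonneg_right n3 (Real.exp_pos _).le
        _ = _ := by rw [← Real.exp_add]; congr 1; ring
    · obtain ⟨J, hJ, hk⟩ := hL c hc
      rw [hgc c.1 c.2 hc.2.1] at hk
      have hF0 := (bn_pos (Γ := Γ) hγ ω (e, zr G u κ e)).le
      have h2 : ∀ v ∈ J, ker (wt ω') Γ.p c.1 (e - c.1) c.2 v * (bn Γ γ ω (e, zr G u κ e) * γ e v) ≤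
          Real.exp q * (ker (wt ω') Γ.p c.1 (e - c.1) c.2 v * bw (wt ω) Γ.p e (Γ.N - e) v) := fun v hv => by
        rw [mul_left_comm (Real.exp q)]
        refine mul_le_mul_of_nonneg_left ((ft_of hγ hb0 hae.le hT hS (hJ v hv)).trans ?_) (ker_nonneg (wt_pos _) Γ.p_pos _ _ _ _)
        exact mul_le_mul_of_nonneg_right (Real.exp_le_exp.2 hq) (hFn v)
      calc bn Γ γ ω (e, zr G u κ e) * gB γ e ω c.1 c.2 = Real.exp U₁ * (bn Γ γ ω (e, zr G u κ e) * (Real.exp (-U₁) * gB γ e ω c.1 c.2)) := by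
            have h3 : Real.exp U₁ * Real.exp (-U₁) = 1 := by rw [← Real.exp_add]; simp
            calc _ = (Real.exp U₁ * Real.exp (-U₁)) * (bn Γ γ ω (e, zr G u κ e) * gB γ e ω c.1 c.2) := by rw [h3, one_mul]
              _ = _ := by ring
        _ ≤ Real.exp U₁ * (bn Γ γ ω (e, zr G u κ e) * ∑ v ∈ J, ker (wt ω') Γ.p c.1 (e - c.1) c.2 v * γ e v) :=
            mul_le_mul_of_nonneg_left (mul_le_mul_of_nonneg_left hk hF0) (Real.exp_pos _).le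
        _ = Real.exp U₁ * ∑ v ∈ J, ker (wt ω') Γ.p c.1 (e - c.1) c.2 v * (bn Γ γ ω (e, zr G u κ e) * γ e v) := by
            rw [mul_sum]
            congr 1
            exact sum_congr rfl fun v _ => by ring
        _ ≤ Real.exp U₁ * (Real.exp q * ∑ v ∈ J, ker (wt ω') Γ.p c.1 (e - c.1) c.2 v * bw (wt ω) Γ.p e (Γ.N - e) v) := by
            rw [mul_sum J _ (Real.exp q)]
            exact mul_le_mul_of_nonneg_left (sum_le_sum h2) (Real.exp_pos _).le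
        _ ≤ Real.exp U₁ * (Real.exp q * bf (wt ω') Γ.p (bw (wt ω) Γ.p e (Γ.N - e)) c.1 (e - c.1) c.2) :=
            mul_le_mul_of_nonneg_left (mul_le_mul_of_nonneg_left (lo_sum (wt_pos _) Γ.p_pos hFn _ _ _ J) (Real.exp_pos _).le)
              (Real.exp_pos _).le
        _ = Real.exp (U₁ + q) * bf (wt ω') Γ.p (bw (wt ω) Γ.p e (Γ.N - e)) c.1 (e - c.1) c.2 := by
            rw [Real.exp_add]; ring
  -- the ratio
  have S1 := S.mono (gB_pos hγ e ω) (wt_pos ω) Γ.p_pos hFn (show q ≤ U₁ + q by linarith) (show q ≤ 1 + al + 3 * q by linarith)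
  have m1 : X * Real.exp ((1 + al + 3 * q) + (U₁ + q)) ≤ 1 / 2 :=
    (mul_le_mul_of_nonneg_left (Real.exp_le_exp.2 (by linarith)) hX0).trans hX
  have m2 := num_ok (A := Real.exp al) (X := X) (Q := 1 + al + 3 * q) (U := U₁ + q) m1
  have m3 : max 1 (2 * Real.exp al * Real.exp ((1 + al + 3 * q) + (U₁ + q))) ≤ Real.exp d := by
    refine max_le (Real.one_le_exp (by linarith)) ?_
    have m4 : 2 * Real.exp al * Real.exp ((1 + al + 3 * q) + (U₁ + q)) ≤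
        Real.exp 1 * Real.exp al * Real.exp ((1 + al + 3 * q) + (U₁ + q)) :=
      mul_le_mul_of_nonneg_right (mul_le_mul_of_nonneg_right e2 (Real.exp_pos _).le) (Real.exp_pos _).le
    refine m4.trans ?_
    rw [← Real.exp_add, ← Real.exp_add]
    exact Real.exp_le_exp.2 (by linarith)
  have S'' : Sz (wt ω') Γ.p (gB γ e ω) e (bw (wt ω') Γ.p e (Γ.N - e)) (sp G u κ b) (spp G u κ b) (Bk G u κ a e) a (U₁ + q)
      (1 + al + 3 * q) (bn Γ γ ω (e, zr G u κ e)) := by rw [eF]; exact S'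
  refine (rt_off (wt_pos ω) (wt_pos ω') Γ.p_pos (gB_pos hγ e ω) hreg hae.le he heq S1 ?_ K K' m2.1 m2.2).mono (wt_pos _) (wt_pos _)
    Γ.p_pos m3
  rw [← eF]
  exact S''

/-! ### What the events read -/

/-- Smaller weights after the start: own weight of the start apart, smaller kernels. -/
theorem ker_own {w w' : ℕ → ℤ → ℝ} {p : ℕ → ℝ} (hw' : ∀ k y, 0 ≤ w' k y) (hw0 : ∀ k y, 0 ≤ w k y) (hp : ∀ k, 0 < p k) {k n : ℕ} (x y : ℤ)
    (h : ∀ i z, k < i → i < k + (n + 1) → w' i z ≤ w i z) : w k x * ker w' p k (n + 1) x y ≤ w' k x * ker w p k (n + 1) x y := by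
  have key : ∀ x, ker w' p (k + 1) n x y ≤ ker w p (k + 1) n x y := by
    intro x
    obtain ⟨w₁, hw₁⟩ : ∃ w₁ : ℕ → ℤ → ℝ, w₁ = fun i z => if k < i ∧ i < k + (n + 1) then w' i z else w i z := ⟨_, rfl⟩
    have e1 : ker w' p (k + 1) n x y = ker w₁ p (k + 1) n x y := ker_congr _ _ _ _ fun i h1 h2 => ⟨funext fun z => by
      rw [hw₁]
      simp only
      rw [if_pos ⟨by omega, by omega⟩], rfl⟩
    rw [e1]
    refine Cmp71.ker_mono (fun i z => ?_) (fun i z => ?_) hp _ _ _ _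
    · rw [hw₁]
      simp only
      split_ifs
      · exact hw' i z
      · exact hw0 i z
    · rw [hw₁]
      simp only
      split_ifs with h1
      · exact h i z h1.1 h1.2
      · exact le_rfl
  rw [ker_back, ker_back]
  have h1 := add_le_add (key x) (mul_le_mul_of_nonneg_left (key (x + 1)) (hp k).le)
  have h2 := mul_le_mul_of_nonneg_left h1 (mul_nonneg (hw0 k x) (hw' k x))
  calc w k x * (w' k x * (ker w' p (k + 1) n x y + p k * ker w' p (k + 1) n (x + 1) y))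
      = w k x * w' k x * (ker w' p (k + 1) n x y + p k * ker w' p (k + 1) n (x + 1) y) := by ring
    _ ≤ w k x * w' k x * (ker w p (k + 1) n x y + p k * ker w p (k + 1) n (x + 1) y) := h2
    _ = _ := by ring

/-- **`KiB` is decreasing and reads the rows strictly inside the block.** -/
theorem kiB_dec (hγ : ∀ k y, 0 < γ k y) (hv0 : 0 ≤ G.v) (hv1 : G.v ≤ 1) (hb : G.kw * G.w u + 2 ≤ b * G.w u)
    (h : ∀ k y, a < k → k < e → wt ω' k y ≤ wt ω k y) (hK : ω ∈ KiB Γ G γ b A X u κ a e) : ω' ∈ KiB Γ G γ b A X u κ a e := by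
  classical
  have hreg := reg_B (G := G) (κ := κ) hv0 hv1 hb a e
  have hn : ∀ ω : Env, ∀ k y, 0 ≤ kw (sp G u κ b)ᶜ (wt ω) k y := fun ω => kw_nn (fun k y => (wt_pos ω k y).le) _
  -- the killed kernels from a rim site
  have main : ∀ c ∈ Rim (Bk G u κ a e) a, ∀ n, c.1 + (n + 1) ≤ e → ∀ y,
      wt ω c.1 c.2 * ker (kw (sp G u κ b)ᶜ (wt ω')) Γ.p c.1 (n + 1) c.2 y ≤
        wt ω' c.1 c.2 * ker (kw (sp G u κ b)ᶜ (wt ω)) Γ.p c.1 (n + 1) c.2 y := by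
    intro c hc n hn' y
    have hcD : (c.1, c.2) ∈ sp G u κ b := hreg.rim hc
    have e1 : kw (sp G u κ b)ᶜ (wt ω) c.1 c.2 = wt ω c.1 c.2 := if_neg fun h => h hcD
    have e2 : kw (sp G u κ b)ᶜ (wt ω') c.1 c.2 = wt ω' c.1 c.2 := if_neg fun h => h hcD
    have key := ker_own (w := kw (sp G u κ b)ᶜ (wt ω)) (w' := kw (sp G u κ b)ᶜ (wt ω')) (hn ω') (hn ω) Γ.p_pos (k := c.1) (n := n) c.2 y
      fun i z h1 h2 => by
        unfold kw
        split_ifs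
        · exact le_rfl
        · exact h i z (lt_of_le_of_lt hc.1 h1) (by omega)
    rw [e1, e2] at key
    exact key
  refine ⟨fun c hc => ?_, fun c hc => ?_⟩
  · have hr := rim_row hc
    obtain ⟨n, hn'⟩ : ∃ n, e - c.1 = n + 1 := ⟨e - c.1 - 1, by omega⟩
    have h1 := hK.mass c hc
    have hwc := wt_pos ω c.1 c.2
    have hwc' := wt_pos ω' c.1 c.2
    unfold krm at h1 ⊢
    have eg : gB γ e ω' e = gB γ e ω e := funext fun y => by rw [gB_end, gB_end]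
    have eg2 : ∀ y, gB γ e ω e y = γ e y := fun y => gB_end y
    rw [eg, hn', bf_ker, gB_lt (by omega)]
    rw [hn', bf_ker, gB_lt (by omega)] at h1
    have h2 : wt ω c.1 c.2 * ∑ y ∈ Icc c.2 (c.2 + ((n + 1 : ℕ) : ℤ)), ker (kw (sp G u κ b)ᶜ (wt ω')) Γ.p c.1 (n + 1) c.2 y * gB γ e ω e y ≤
        wt ω' c.1 c.2 * ∑ y ∈ Icc c.2 (c.2 + ((n + 1 : ℕ) : ℤ)), ker (kw (sp G u κ b)ᶜ (wt ω)) Γ.p c.1 (n + 1) c.2 y * gB γ e ω e y := by
      rw [mul_sum, mul_sum]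
      refine sum_le_sum fun y _ => ?_
      rw [← mul_assoc, ← mul_assoc]
      exact mul_le_mul_of_nonneg_right (main c hc n (by omega) y) (by rw [eg2]; exact (hγ _ _).le)
    have h3 : wt ω c.1 c.2 * ∑ y ∈ Icc c.2 (c.2 + ((n + 1 : ℕ) : ℤ)), ker (kw (sp G u κ b)ᶜ (wt ω')) Γ.p c.1 (n + 1) c.2 y * gB γ e ω e y ≤
        wt ω c.1 c.2 * (A * (wt ω' c.1 c.2 * γ c.1 c.2)) := by
      refine h2.trans ((mul_le_mul_of_nonneg_left h1 hwc'.le).trans (le_of_eq ?_))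
      ring
    exact le_of_mul_le_mul_left h3 hwc
  · have hr := rim_row hc
    have h1 := hK.exit c hc
    have hwc := wt_pos ω c.1 c.2
    have hwc' := wt_pos ω' c.1 c.2
    have hcD : (c.1, c.2) ∈ sp G u κ b := hreg.rim hc
    unfold exm at h1 ⊢
    rw [gB_lt (by omega)] at h1 ⊢
    have h2 : wt ω c.1 c.2 * (∑ i ∈ range (e - c.1), ∑ y ∈ Icc c.2 (c.2 + (i : ℤ)),
          (if (c.1 + i, y) ∈ (sp G u κ b)ᶜ then ker (kw (sp G u κ b)ᶜ (wt ω')) Γ.p c.1 i c.2 y * gB γ e ω' (c.1 + i) y else 0)) ≤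
        wt ω' c.1 c.2 * (∑ i ∈ range (e - c.1), ∑ y ∈ Icc c.2 (c.2 + (i : ℤ)),
          (if (c.1 + i, y) ∈ (sp G u κ b)ᶜ then ker (kw (sp G u κ b)ᶜ (wt ω)) Γ.p c.1 i c.2 y * gB γ e ω (c.1 + i) y else 0)) := by
      rw [mul_sum, mul_sum]
      refine sum_le_sum fun i hi => ?_
      rw [mul_sum, mul_sum]
      refine sum_le_sum fun y hy => ?_
      have hi' := mem_range.1 hi
      by_cases h3 : (c.1 + i, y) ∈ (sp G u κ b)ᶜ
      · rw [if_pos h3, if_pos h3]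
        rcases Nat.eq_zero_or_pos i with h4 | h4
        · subst h4
          have h5 : y = c.2 := by
            have := mem_Icc.1 hy
            simp at this
            omega
          subst h5
          exact absurd hcD h3
        · obtain ⟨n, hn'⟩ : ∃ n, i = n + 1 := ⟨i - 1, by omega⟩
          subst hn'
          have g1 := main c hc n (by omega) y
          have g2 : gB γ e ω' (c.1 + (n + 1)) y ≤ gB γ e ω (c.1 + (n + 1)) y := by
            rw [gB_lt (by omega), gB_lt (by omega)]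
            exact mul_le_mul_of_nonneg_right (h _ y (by omega) (by omega)) (hγ _ _).le
          have g3 := gB_pos hγ e ω' (c.1 + (n + 1)) y
          have g4 : 0 ≤ ker (kw (sp G u κ b)ᶜ (wt ω)) Γ.p c.1 (n + 1) c.2 y := Cmp71.ker_nn (hn ω) Γ.p_pos _ _ _ _
          calc wt ω c.1 c.2 * (ker (kw (sp G u κ b)ᶜ (wt ω')) Γ.p c.1 (n + 1) c.2 y * gB γ e ω' (c.1 + (n + 1)) y)
              = wt ω c.1 c.2 * ker (kw (sp G u κ b)ᶜ (wt ω')) Γ.p c.1 (n + 1) c.2 y * gB γ e ω' (c.1 + (n + 1)) y := by ring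
            _ ≤ wt ω' c.1 c.2 * ker (kw (sp G u κ b)ᶜ (wt ω)) Γ.p c.1 (n + 1) c.2 y * gB γ e ω (c.1 + (n + 1)) y :=
                mul_le_mul g1 g2 g3.le (mul_nonneg hwc'.le g4)
            _ = _ := by ring
      · rw [if_neg h3, if_neg h3, mul_zero, mul_zero]
    have h3 : wt ω c.1 c.2 * (∑ i ∈ range (e - c.1), ∑ y ∈ Icc c.2 (c.2 + (i : ℤ)),
          (if (c.1 + i, y) ∈ (sp G u κ b)ᶜ then ker (kw (sp G u κ b)ᶜ (wt ω')) Γ.p c.1 i c.2 y * gB γ e ω' (c.1 + i) y else 0)) ≤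
        wt ω c.1 c.2 * (X * (wt ω' c.1 c.2 * γ c.1 c.2)) := by
      refine h2.trans ((mul_le_mul_of_nonneg_left h1 hwc'.le).trans (le_of_eq ?_))
      ring
    exact le_of_mul_le_mul_left h3 hwc

theorem kiB_congr (hγ : ∀ k y, 0 < γ k y) (hv0 : 0 ≤ G.v) (hv1 : G.v ≤ 1) (hb : G.kw * G.w u + 2 ≤ b * G.w u)
    (h : ∀ k y, a < k → k < e → wt ω k y = wt ω' k y) (hK : ω ∈ KiB Γ G γ b A X u κ a e) : ω' ∈ KiB Γ G γ b A X u κ a e :=
  kiB_dec hγ hv0 hv1 hb (fun k y h1 h2 => (h k y h1 h2).ge) hK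

/-- **`LoB` is increasing and reads the rows strictly inside the block.** -/
theorem loB_inc (hγ : ∀ k y, 0 < γ k y) (h : ∀ k y, a < k → k < e → wt ω k y ≤ wt ω' k y) (hL : ω ∈ LoB Γ G γ b U u κ a e) :
    ω' ∈ LoB Γ G γ b U u κ a e := by
  intro c hc
  obtain ⟨J, hJ, hk⟩ := hL c hc
  have hr := rim_row hc
  obtain ⟨n, hn'⟩ : ∃ n, e - c.1 = n + 1 := ⟨e - c.1 - 1, by omega⟩
  refine ⟨J, hJ, ?_⟩
  have hwc := wt_pos ω c.1 c.2
  have hwc' := wt_pos ω' c.1 c.2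
  rw [gB_lt (by omega), hn'] at hk ⊢
  have h1 : wt ω' c.1 c.2 * ∑ v ∈ J, ker (wt ω) Γ.p c.1 (n + 1) c.2 v * γ e v ≤
      wt ω c.1 c.2 * ∑ v ∈ J, ker (wt ω') Γ.p c.1 (n + 1) c.2 v * γ e v := by
    rw [mul_sum, mul_sum]
    refine sum_le_sum fun v _ => ?_
    rw [← mul_assoc, ← mul_assoc]
    refine mul_le_mul_of_nonneg_right (ker_own (fun k y => (wt_pos ω k y).le) (fun k y => (wt_pos ω' k y).le) Γ.p_pos c.2 v
      fun i z h1 h2 => h i z (lt_of_le_of_lt hc.1 h1) (by omega)) (hγ _ _).le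
  have h2 : wt ω c.1 c.2 * (Real.exp (-U) * (wt ω' c.1 c.2 * γ c.1 c.2)) ≤
      wt ω c.1 c.2 * ∑ v ∈ J, ker (wt ω') Γ.p c.1 (n + 1) c.2 v * γ e v := by
    refine le_trans (le_of_eq ?_) ((mul_le_mul_of_nonneg_left hk hwc'.le).trans h1)
    ring
  exact le_of_mul_le_mul_left h2 hwc

theorem loB_congr (hγ : ∀ k y, 0 < γ k y) (h : ∀ k y, a < k → k < e → wt ω k y = wt ω' k y) (hL : ω ∈ LoB Γ G γ b U u κ a e) :
    ω' ∈ LoB Γ G γ b U u κ a e := loB_inc hγ (fun k y h1 h2 => (h k y h1 h2).le) hL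

/-- The normalised backward mass reads the rows after its own one. -/
theorem bn_congr {k : ℕ} (hk : k < Γ.N) (h : ∀ i y, k < i → wt ω i y = wt ω' i y) (y : ℤ) : bn Γ γ ω (k, y) = bn Γ γ ω' (k, y) := by
  have e1 : Γ.N - k = (Γ.N - (k + 1)) + 1 := by omega
  have h1 : ∀ z, bw (wt ω) Γ.p (k + 1) (Γ.N - (k + 1)) z = bw (wt ω') Γ.p (k + 1) (Γ.N - (k + 1)) z := fun z =>
    bw_congr _ _ (fun i hi y => h i y (by omega)) z
  have hw := (wt_pos ω k y).ne'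
  have hw' := (wt_pos ω' k y).ne'
  unfold bn
  simp only
  rw [e1, bw_succ, bw_succ, h1, h1, mul_div_mul_left _ _ hw, mul_div_mul_left _ _ hw']

/-- **`TmB` reads the rows `> a`.** -/
theorem tmB_congr (hae : a < e) (he : e ≤ Γ.N) (h : ∀ k y, a < k → wt ω k y = wt ω' k y) (hT : ω ∈ TmB Γ G γ b Q u κ a e) :
    ω' ∈ TmB Γ G γ b Q u κ a e := by
  have key : ∀ c : ℕ × ℤ, a ≤ c.1 → c.1 ≤ e → bn Γ γ ω' c = bn Γ γ ω c := by
    intro c h1 h2
    rcases lt_or_ge c.1 Γ.N with h3 | h3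
    · exact (bn_congr (y := c.2) h3 fun i y hi => h i y (lt_of_le_of_lt h1 hi)).symm
    · have h4 : a < c.1 := by omega
      unfold bn
      rw [h c.1 c.2 h4, bw_congr (w := wt ω) (w' := wt ω') (Γ.N - c.1) c.1 (fun i hi y => h i y (by omega)) c.2]
  intro c c' h1 h2 h3 h4 h5 h6
  rw [key c h1 h2, key c' h3 h4]
  exact hT c c' h1 h2 h3 h4 h5 h6

theorem tmB_sub {a' e' : ℕ} (ha : a' ≤ a) (he : e ≤ e') : TmB Γ G γ b Q u κ a' e' ⊆ TmB Γ G γ b Q u κ a e :=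
  fun _ h c c' h1 h2 h3 h4 => h c c' (ha.trans h1) (h2.trans he) (ha.trans h3) (h4.trans he)

theorem stB_congr (h : ∀ y, wt ω e y = wt ω' e y) (hS : ω ∈ StB G b Uw u κ e) : ω' ∈ StB G b Uw u κ e := by
  intro v hv
  rw [← h v]
  exact hS v hv

/-! ### Two blocks -/

/-- New below the row `r`, old from it on. -/
def spl (r : ℕ) (ω' ω : Env) : Env := fun p => if p.1 < (r : ℤ) then ω' p else ω p

theorem wt_spl_lt {r k : ℕ} (h : k < r) (y : ℤ) : wt (spl r ω' ω) k y = wt ω' k y := by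
  unfold wt spl
  simp only
  rw [if_pos (show ((k : ℤ)) < (r : ℤ) by exact_mod_cast h)]

theorem wt_spl_ge {r k : ℕ} (h : r ≤ k) (y : ℤ) : wt (spl r ω' ω) k y = wt ω k y := by
  unfold wt spl
  simp only
  rw [if_neg (show ¬ ((k : ℤ)) < (r : ℤ) by push Not; exact_mod_cast h)]

/-- The inputs of the two blocks: rows `a < r < e`, gate block `(a, r)`, lane block `(r - 1, e)`. -/
structure Two (Γ : Cx) (G : Gm) (γ : ℕ → ℤ → ℝ) (b A X Q Uw U₁ : ℝ) (u : ℕ) (κ : ℤ × ℤ) (a r e : ℕ) (ω ω' : Env) : Prop where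
  k1 : ω ∈ KiB Γ G γ b A X u κ a r
  k2 : ω ∈ KiB Γ G γ b A X u κ (r - 1) e
  tm : ω ∈ TmB Γ G γ b Q u κ a e
  s1 : ω ∈ StB G b Uw u κ r
  s2 : ω ∈ StB G b Uw u κ e
  k1' : ω' ∈ KiB Γ G γ b A X u κ a r
  l1' : ω' ∈ LoB Γ G γ b U₁ u κ a r
  k2' : ω' ∈ KiB Γ G γ b A X u κ (r - 1) e
  l2' : ω' ∈ LoB Γ G γ b U₁ u κ (r - 1) e

variable {r : ℕ} {U₁ al q d : ℝ}

/-- **TWO BLOCKS**: the ratio of each block and of the window. -/
theorem ro_two (hγ : ∀ k y, 0 < γ k y) (hv0 : 0 ≤ G.v) (hv1 : G.v ≤ 1) (hb : G.kw * G.w u + 2 ≤ b * G.w u) (hb0 : 0 ≤ b * G.w u)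
    (har : a < r) (hre : r ≤ e) (he : e ≤ Γ.N) (heq : ∀ k y, (k, y) ∉ Bk G u κ a e → wt ω k y = wt ω' k y) (hal : 0 ≤ al)
    (hQ : 0 ≤ Q) (hUw : 0 ≤ Uw) (hq : Q + Uw ≤ q) (hU₁ : 0 ≤ U₁) (hA : A ≤ Real.exp al) (hX0 : 0 ≤ X)
    (hX : X * Real.exp (1 + al + 5 * q + U₁) ≤ 1 / 2) (hd : 2 + 2 * al + 5 * q + U₁ ≤ d)
    (H : Two Γ G γ b A X Q Uw U₁ u κ a r e ω ω') :
    Ro (wt ω) (wt (spl r ω' ω)) Γ.p Γ.N (Bk G u κ a r) (Real.exp d) ∧
    Ro (wt (spl r ω' ω)) (wt ω') Γ.p Γ.N (Bk G u κ (r - 1) e) (Real.exp d) ∧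
    Ro (wt ω) (wt ω') Γ.p Γ.N (Bk G u κ a e) (Real.exp (2 * d)) := by
  have r1 : Ro (wt ω) (wt (spl r ω' ω)) Γ.p Γ.N (Bk G u κ a r) (Real.exp d) := by
    refine ro_blk hγ hv0 hv1 hb hb0 har (hre.trans he) (fun k y h => ?_) hal hQ hUw hq hU₁ hA hX0 hX hd H.k1 (tmB_sub le_rfl hre H.tm) H.s1
      (kiB_congr hγ hv0 hv1 hb (fun k y _ h2 => (wt_spl_lt h2 y).symm) H.k1') (loB_congr hγ (fun k y _ h2 => (wt_spl_lt h2 y).symm) H.l1')
    rcases lt_or_ge k r with h1 | h1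
    · rw [wt_spl_lt h1]
      exact heq k y fun h2 => h ⟨h2.1, h2.2.1, h1⟩
    · rw [wt_spl_ge h1]
  have r2 : Ro (wt (spl r ω' ω)) (wt ω') Γ.p Γ.N (Bk G u κ (r - 1) e) (Real.exp d) := by
    rcases Nat.eq_or_lt_of_le hre with h0 | h0
    · -- empty second block
      have e1 : ∀ k y, wt (spl r ω' ω) k y = wt ω' k y := fun k y => by
        rcases lt_or_ge k r with h1 | h1
        · exact wt_spl_lt h1 y
        · rw [wt_spl_ge h1]
          exact heq k y fun h2 => by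
            have := h2.2.2
            omega
      have e2 : wt (spl r ω' ω) = wt ω' := funext fun k => funext fun y => e1 k y
      have hd1 : 1 ≤ Real.exp d := Real.one_le_exp (by linarith)
      rw [e2]
      exact ⟨fun k y _ => le_mul_of_one_le_left (bw_pos (wt_pos ω') Γ.p_pos _ _ _).le hd1,
        fun k y _ => le_mul_of_one_le_left (bw_pos (wt_pos ω') Γ.p_pos _ _ _).le hd1⟩
    · have har' : r - 1 < e := by omega
      refine ro_blk hγ hv0 hv1 hb hb0 har' he (fun k y h => ?_) hal hQ hUw hq hU₁ hA hX0 hX hd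
        (kiB_congr hγ hv0 hv1 hb (fun k y h1 _ => (wt_spl_ge (by omega) y).symm) H.k2)
        (tmB_congr har' he (fun k y h1 => (wt_spl_ge (by omega) y).symm) (tmB_sub (by omega) le_rfl H.tm))
        (stB_congr (fun y => (wt_spl_ge h0.le y).symm) H.s2) H.k2' H.l2'
      rcases lt_or_ge k r with h1 | h1
      · rw [wt_spl_lt h1]
      · rw [wt_spl_ge h1]
        exact heq k y fun h2 => h ⟨h2.1, by omega, h2.2.2⟩
  refine ⟨r1, r2, fun k y h => ?_, fun k y h => ?_⟩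
  · have h1 := r1.up k y fun h2 => h ⟨h2.1, h2.2.1, lt_of_lt_of_le h2.2.2 hre⟩
    have h2 := r2.up k y fun h2 => h ⟨h2.1, by have := h2.2.1; omega, h2.2.2⟩
    calc bw (wt ω') Γ.p k (Γ.N - k) y ≤ Real.exp d * bw (wt (spl r ω' ω)) Γ.p k (Γ.N - k) y := h2
      _ ≤ Real.exp d * (Real.exp d * bw (wt ω) Γ.p k (Γ.N - k) y) := mul_le_mul_of_nonneg_left h1 (Real.exp_pos _).le
      _ = _ := by rw [two_mul, Real.exp_add, mul_assoc]
  · have h1 := r1.dn k y fun h2 => h ⟨h2.1, h2.2.1, lt_of_lt_of_le h2.2.2 hre⟩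
    have h2 := r2.dn k y fun h2 => h ⟨h2.1, by have := h2.2.1; omega, h2.2.2⟩
    calc bw (wt ω) Γ.p k (Γ.N - k) y ≤ Real.exp d * bw (wt (spl r ω' ω)) Γ.p k (Γ.N - k) y := h1
      _ ≤ Real.exp d * (Real.exp d * bw (wt ω') Γ.p k (Γ.N - k) y) := mul_le_mul_of_nonneg_left h2 (Real.exp_pos _).le
      _ = _ := by rw [two_mul, Real.exp_add, mul_assoc]

/-- The window is one block. -/
theorem Bk_all (h0 : 0 ≤ G.rcc u κ) : Bk G u κ (G.ra u κ - 1) (G.re u κ) = Bw G u κ := by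
  ext c
  refine ⟨fun h => h.1, fun h => ⟨h, ?_, ?_⟩⟩
  · have h1 := (bw_rows h0 (k := c.1) (y := c.2) h).1
    have h2 := ra_pos (G := G) u κ
    omega
  · exact (bw_rows h0 (k := c.1) (y := c.2) h).2

/-! ### Measurability -/

theorem meas_gB (e : ℕ) (k : ℕ) (y : ℤ) : Measurable fun ω : Env => gB γ e ω k y := by
  unfold gB
  by_cases h : k < e
  · simp only [if_pos h]
    exact (measurable_wt k y).mul measurable_const
  · simp only [if_neg h]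
    exact measurable_const

theorem meas_KiB (b A X : ℝ) (u : ℕ) (κ : ℤ × ℤ) (a e : ℕ) : MeasurableSet (KiB Γ G γ b A X u κ a e) := by
  classical
  have e1 : KiB Γ G γ b A X u κ a e =
      {ω | ∀ c ∈ Rim (Bk G u κ a e) a, krm (wt ω) Γ.p (gB γ e ω) (sp G u κ b) e c ≤ A * gB γ e ω c.1 c.2} ∩
      {ω | ∀ c ∈ Rim (Bk G u κ a e) a, exm (wt ω) Γ.p (gB γ e ω) (sp G u κ b) e c ≤ X * gB γ e ω c.1 c.2} := by
    ext ω
    exact ⟨fun h => ⟨h.mass, h.exit⟩, fun h => ⟨h.1, h.2⟩⟩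
  rw [e1]
  refine (meas_all (f := fun c ω => krm (wt ω) Γ.p (gB γ e ω) (sp G u κ b) e c) (fun c => ?_) fun c => measurable_const.mul (meas_gB e _ _)).inter
    (meas_all (f := fun c ω => exm (wt ω) Γ.p (gB γ e ω) (sp G u κ b) e c) (fun c => ?_) fun c => measurable_const.mul (meas_gB e _ _))
  · exact meas_bfG (W := fun ω => kw (sp G u κ b)ᶜ (wt ω)) (f := fun ω => gB γ e ω e) (meas_kw _) (fun y => meas_gB e e y) _ _ _
  · unfold exm
    refine Finset.measurable_fun_sum _ fun i _ => Finset.measurable_fun_sum _ fun y _ => ?_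
    by_cases h : (c.1 + i, y) ∈ (sp G u κ b)ᶜ
    · simp only [if_pos h]
      exact (meas_kerG (W := fun ω => kw (sp G u κ b)ᶜ (wt ω)) (meas_kw _) _ _ _ _).mul (meas_gB e _ _)
    · simp only [if_neg h]
      exact measurable_const

theorem meas_LoB (b U : ℝ) (u : ℕ) (κ : ℤ × ℤ) (a e : ℕ) : MeasurableSet (LoB Γ G γ b U u κ a e) := by
  have e1 : LoB Γ G γ b U u κ a e = ⋂ c : ℕ × ℤ, {ω | c ∈ Rim (Bk G u κ a e) a → ∃ J : Finset ℤ,
      (∀ v ∈ J, |G.lat (e, v) - G.ctr u κ| ≤ b * G.w u + 1) ∧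
      Real.exp (-U) * gB γ e ω c.1 c.2 ≤ ∑ v ∈ J, ker (wt ω) Γ.p c.1 (e - c.1) c.2 v * γ e v} := by
    ext ω
    simp only [Set.mem_iInter]
    rfl
  rw [e1]
  refine MeasurableSet.iInter fun c => ?_
  by_cases h : c ∈ Rim (Bk G u κ a e) a
  · simp only [h, true_imp_iff]
    have e2 : {ω : Env | ∃ J : Finset ℤ, (∀ v ∈ J, |G.lat (e, v) - G.ctr u κ| ≤ b * G.w u + 1) ∧
        Real.exp (-U) * gB γ e ω c.1 c.2 ≤ ∑ v ∈ J, ker (wt ω) Γ.p c.1 (e - c.1) c.2 v * γ e v} =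
        ⋃ J : Finset ℤ, {ω : Env | (∀ v ∈ J, |G.lat (e, v) - G.ctr u κ| ≤ b * G.w u + 1) ∧
          Real.exp (-U) * gB γ e ω c.1 c.2 ≤ ∑ v ∈ J, ker (wt ω) Γ.p c.1 (e - c.1) c.2 v * γ e v} := by
      ext ω
      simp only [Set.mem_iUnion]
      rfl
    rw [e2]
    refine MeasurableSet.iUnion fun J => ?_
    by_cases hv : ∀ v ∈ J, |G.lat (e, v) - G.ctr u κ| ≤ b * G.w u + 1
    · have e3 : {ω : Env | (∀ v ∈ J, |G.lat (e, v) - G.ctr u κ| ≤ b * G.w u + 1) ∧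
          Real.exp (-U) * gB γ e ω c.1 c.2 ≤ ∑ v ∈ J, ker (wt ω) Γ.p c.1 (e - c.1) c.2 v * γ e v} =
          {ω : Env | Real.exp (-U) * gB γ e ω c.1 c.2 ≤ ∑ v ∈ J, ker (wt ω) Γ.p c.1 (e - c.1) c.2 v * γ e v} := by
        ext ω
        exact ⟨fun h => h.2, fun h => ⟨hv, h⟩⟩
      rw [e3]
      exact measurableSet_le (measurable_const.mul (meas_gB e _ _))
        (Finset.measurable_fun_sum _ fun v _ => (meas_kerG (W := wt) measurable_wt _ _ _ _).mul measurable_const)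
    · have e3 : {ω : Env | (∀ v ∈ J, |G.lat (e, v) - G.ctr u κ| ≤ b * G.w u + 1) ∧
          Real.exp (-U) * gB γ e ω c.1 c.2 ≤ ∑ v ∈ J, ker (wt ω) Γ.p c.1 (e - c.1) c.2 v * γ e v} = ∅ := by
        ext ω
        exact ⟨fun h => absurd h.1 hv, fun h => absurd h (Set.notMem_empty ω)⟩
      rw [e3]
      exact MeasurableSet.empty
  · simp [h]

theorem meas_bn (c : ℕ × ℤ) : Measurable fun ω : Env => bn Γ γ ω c :=
  (meas_bwk _ _ _).div ((measurable_wt _ _).mul measurable_const)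

theorem meas_TmB (b Q : ℝ) (u : ℕ) (κ : ℤ × ℤ) (a e : ℕ) : MeasurableSet (TmB Γ G γ b Q u κ a e) := by
  have e1 : TmB Γ G γ b Q u κ a e = ⋂ c : ℕ × ℤ, ⋂ c' : ℕ × ℤ, {ω | (a ≤ c.1 ∧ c.1 ≤ e ∧ a ≤ c'.1 ∧ c'.1 ≤ e ∧
      |G.lat c - G.ctr u κ| ≤ b * G.w u + 1 ∧ |G.lat c' - G.ctr u κ| ≤ b * G.w u + 1) → bn Γ γ ω c' ≤ Real.exp Q * bn Γ γ ω c} := by
    ext ω
    simp only [Set.mem_iInter]
    exact ⟨fun h c c' hh => h c c' hh.1 hh.2.1 hh.2.2.1 hh.2.2.2.1 hh.2.2.2.2.1 hh.2.2.2.2.2,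
      fun h c c' h1 h2 h3 h4 h5 h6 => h c c' ⟨h1, h2, h3, h4, h5, h6⟩⟩
  rw [e1]
  refine MeasurableSet.iInter fun c => MeasurableSet.iInter fun c' => ?_
  by_cases h : a ≤ c.1 ∧ c.1 ≤ e ∧ a ≤ c'.1 ∧ c'.1 ≤ e ∧
      |G.lat c - G.ctr u κ| ≤ b * G.w u + 1 ∧ |G.lat c' - G.ctr u κ| ≤ b * G.w u + 1
  · have e2 : {ω : Env | (a ≤ c.1 ∧ c.1 ≤ e ∧ a ≤ c'.1 ∧ c'.1 ≤ e ∧ |G.lat c - G.ctr u κ| ≤ b * G.w u + 1 ∧
        |G.lat c' - G.ctr u κ| ≤ b * G.w u + 1) → bn Γ γ ω c' ≤ Real.exp Q * bn Γ γ ω c} =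
        {ω : Env | bn Γ γ ω c' ≤ Real.exp Q * bn Γ γ ω c} := by
      ext ω
      exact ⟨fun hh => hh h, fun hh _ => hh⟩
    rw [e2]
    exact measurableSet_le (meas_bn c') (measurable_const.mul (meas_bn c))
  · have e2 : {ω : Env | (a ≤ c.1 ∧ c.1 ≤ e ∧ a ≤ c'.1 ∧ c'.1 ≤ e ∧ |G.lat c - G.ctr u κ| ≤ b * G.w u + 1 ∧
        |G.lat c' - G.ctr u κ| ≤ b * G.w u + 1) → bn Γ γ ω c' ≤ Real.exp Q * bn Γ γ ω c} = Set.univ := by
      ext ω
      exact ⟨fun _ => trivial, fun _ hh => absurd hh h⟩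
    rw [e2]
    exact MeasurableSet.univ

theorem meas_StB (b Uw : ℝ) (u : ℕ) (κ : ℤ × ℤ) (e : ℕ) : MeasurableSet (StB G b Uw u κ e) := by
  have e1 : StB G b Uw u κ e = ⋂ v : ℤ, {ω | |G.lat (e, v) - G.ctr u κ| ≤ b * G.w u + 1 →
      Real.exp (-Uw) ≤ wt ω e v ∧ wt ω e v ≤ Real.exp Uw} := by
    ext ω
    simp only [Set.mem_iInter]
    rfl
  rw [e1]
  refine MeasurableSet.iInter fun v => ?_
  by_cases h : |G.lat (e, v) - G.ctr u κ| ≤ b * G.w u + 1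
  · simp only [h, true_imp_iff]
    exact (measurableSet_le measurable_const (measurable_wt _ _)).inter (measurableSet_le (measurable_wt _ _) measurable_const)
  · simp [h]

end

end Pool.Agent.W_7d29a1_C1.RB22
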