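import Pool.Agent.W_7d29a1_C1.LucB76
import Pool.Agent.W_7d29a1_C1.RatB22

/-!
MP_7d29a1_pr, [C1] attractor route, SEP: THE WINDOW ROWS ABOVE THE LANE BLOCK. (helper73)

The lane block ends at the row `b`; the window has more rows, strictly between `b` and `e` (the top block). `Blk76` compares environments
with old futures above `b`. Here: `ω₃` = new rows `≤ b`, old rows `> b`; `ω'` = all new.
* `Tp73` : the two agree below the row `b`, two sided bound of the backward masses at the row `b`;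
* `tp73_ro` : from the ratio of one block; **`tp73_blk`** : from the events of the top block (old content in `KiB`, `TmB`, `StB`, new content
  in `KiB`, `LoB`), `ω₃ = spl (b + 1) ω' ω`;
* `luk_top73`, `pin_top73` : luck and pinch of the pair `(ω, ω₃)` pass to `(ω, ω')`.
-/

set_option autoImplicit false

namespace Pool.Agent.W_7d29a1_C1.T73

open Finset MeasureTheory
open Pool.Agent.W_7d29a1_F hiding Bw G
open Pool.Agent.W_7d29a1_h4g Pool.Agent.W_7d29a1_HS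
open Pool.Agent.W_7d29a1_H hiding ex
open Pool.Agent.W_7d29a1_C1.K91 (wt wt_pos measurable_wt)
open Pool.Agent.W_7d29a1_C1.K91P (bw bw_pos)
open Pool.Agent.W_7d29a1_C1.U16 (ker ker_nonneg ker_congr)
open Pool.Agent.W_7d29a1_C1.H60
open Pool.Agent.W_7d29a1_C1.G37 (Gm)
open Pool.Agent.W_7d29a1_C1.E53
open Pool.Agent.W_7d29a1_C1.SD53
open Pool.Agent.W_7d29a1_C1.Lb76
open Pool.Agent.W_7d29a1_C1.Rt22 (Ro)
open Pool.Agent.W_7d29a1_C1.RB22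

noncomputable section

variable {Γ : Cx} {ω ω₃ ω' : Env} {a b b₀ : ℕ} {D : ℝ}

/-- **The pair above the lane block**: equal below the row `b`, two sided bound at the row `b`. -/
structure Tp73 (Γ : Cx) (b : ℕ) (D : ℝ) (ω₃ ω' : Env) : Prop where
  D1 : 1 ≤ D
  bN : b ≤ Γ.N
  eq : ∀ k y, k < b → wt ω' k y = wt ω₃ k y
  up : ∀ y, bW Γ ω' b y ≤ D * bW Γ ω₃ b y
  dn : ∀ y, bW Γ ω₃ b y ≤ D * bW Γ ω' b y

/-- Equal environments. -/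
theorem Tp73.refl (hb : b ≤ Γ.N) (ω : Env) : Tp73 Γ b 1 ω ω :=
  ⟨le_rfl, hb, fun _ _ _ => rfl, fun _ => (one_mul _).ge, fun _ => (one_mul _).ge⟩

theorem Tp73.symm (h : Tp73 Γ b D ω₃ ω') : Tp73 Γ b D ω' ω₃ := ⟨h.D1, h.bN, fun k y hk => (h.eq k y hk).symm, h.dn, h.up⟩

theorem Tp73.D0 (h : Tp73 Γ b D ω₃ ω') : 0 < D := one_pos.trans_le h.D1

/-- At the rows `≤ b`. -/
theorem Tp73.upk (h : Tp73 Γ b D ω₃ ω') {k : ℕ} (hk : k ≤ b) (y : ℤ) : bW Γ ω' k y ≤ D * bW Γ ω₃ k y :=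
  dn_le (hr_bW (ω := ω₃) h.bN) (hr_bW (ω := ω') h.bN) h.eq h.up hk y

theorem Tp73.dnk (h : Tp73 Γ b D ω₃ ω') {k : ℕ} (hk : k ≤ b) (y : ℤ) : bW Γ ω₃ k y ≤ D * bW Γ ω' k y :=
  h.symm.upk hk y

/-- The masses in a set at a row `e ≤ b`, from all the rows below. -/
theorem Tp73.qa (h : Tp73 Γ b D ω₃ ω') {e : ℕ} (he : e ≤ b) (A : Set ℤ) {k : ℕ} (hk : k ≤ e) (y : ℤ) :
    QA Γ ω' e A k y ≤ D * QA Γ ω₃ e A k y := by
  refine dn_le (hr_QA (ω := ω₃) le_rfl A) (hr_QA (ω := ω') le_rfl A) (fun k y hk' => h.eq k y (lt_of_lt_of_le hk' he)) (fun q => ?_) hk y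
  rw [QA_self, QA_self]
  by_cases hq : q ∈ A
  · rw [tf_mem hq, tf_mem hq]
    exact h.upk he q
  · rw [tf_not hq, tf_not hq, mul_zero]

/-- The kernels of the rows `≤ b` are the same. -/
theorem Tp73.ker (h : Tp73 Γ b D ω₃ ω') {k n : ℕ} (hk : k + n ≤ b) (x y : ℤ) :
    U16.ker (wt ω') Γ.p k n x y = U16.ker (wt ω₃) Γ.p k n x y :=
  ker_congr _ _ _ _ fun i h1 h2 => ⟨funext fun z => h.eq i z (by omega), rfl⟩

/-- **LUCK, THE NEW TOP.** -/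
theorem luk_top73 {Mi Mo Ce : Set ℤ} {g G Y : ℝ} (h : Luk Γ a b₀ Mi Mo Ce g G Y ω ω₃) (T : Tp73 Γ b D ω₃ ω') (hb : b₀ ≤ b) :
    Luk Γ a b₀ Mi Mo Ce (g / D) (G * D) (Y * D) ω ω' := by
  have hab : a ≤ b := h.ab.trans hb
  have D0 := T.D0
  refine ⟨div_pos h.g0 D0, mul_nonneg h.G0 D0.le, mul_nonneg h.Y0 D0.le, h.ab, h.hb, fun k y hk => ?_, fun z hz => ?_, fun z hz => ?_,
    fun z hz => ?_, fun z => ?_⟩
  · rw [T.eq k y (by omega), h.eq k y hk]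
  · have h1 := T.upk hab z
    have h2 := mul_le_mul_of_nonneg_left (h.up z hz) D0.le
    linarith
  · have h1 := T.upk hab z
    have h2 := mul_le_mul_of_nonneg_left (h.off z hz) D0.le
    linarith
  · have h1 := T.dnk hab z
    have h2 := h.gain z hz
    rw [div_mul_eq_mul_div, div_le_iff₀ D0]
    linarith
  · have h1 := T.qa hb Ceᶜ h.ab z
    have h2 := mul_le_mul_of_nonneg_left (h.exit z) D0.le
    linarith

/-- **THE PINCH, THE NEW TOP.** -/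
theorem pin_top73 {a₁ b₁ : ℕ} {C1 C2 : Set ℤ} {Y ee : ℝ} (h : Pin76 Γ a a₁ b₁ C1 C2 Y ee ω ω₃) (T : Tp73 Γ b D ω₃ ω') (hb : b₁ ≤ b) :
    Pin76 Γ a a₁ b₁ C1 C2 (Y * D) (ee * D ^ 2) ω ω' := by
  have h1 := h.h1
  have h2 := h.h2
  have hab : a ≤ b := by omega
  have D0 := T.D0
  have key : ∀ e A, e ≤ b → a ≤ e → ∀ z, QA Γ ω₃ e A a z ≤ Y * bW Γ ω a z + ee * bW Γ ω₃ a z →
      QA Γ ω' e A a z ≤ Y * D * bW Γ ω a z + ee * D ^ 2 * bW Γ ω' a z := by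
    intro e A he hae z hz
    have k1 := T.qa he A hae z
    have k2 := mul_le_mul_of_nonneg_left hz D0.le
    have k3 := mul_le_mul_of_nonneg_left (T.dnk hab z) (mul_nonneg h.e0 D0.le)
    have k4 : ee * D * (D * bW Γ ω' a z) = ee * D ^ 2 * bW Γ ω' a z := by ring
    rw [k4] at k3
    linarith
  refine ⟨mul_nonneg h.Y0 D0.le, mul_nonneg h.e0 (sq_nonneg D), h.h1, h.h2, h.hb, fun k y hk => ?_, fun z => ?_, fun z => ?_⟩
  · rw [T.eq k y (by omega), h.eq k y hk]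
  · exact key a₁ _ (by omega) h1 z (h.ex1 z)
  · exact key b₁ _ hb (by omega) z (h.ex2 z)

/-- The cross ratio of the middle slab does not read the top. -/
theorem hcr_top73 {a₁ b₁ : ℕ} {C1 C2 : Set ℤ} {δ : ℝ} (T : Tp73 Γ b D ω₃ ω') (h2 : a₁ ≤ b₁) (hb : b₁ ≤ b)
    (hcr : ∀ z ∈ C1, ∀ z' ∈ C1, z < z' → ∀ x ∈ C2, ∀ y ∈ C2, x < y →
      U16.ker (wt ω₃) Γ.p a₁ (b₁ - a₁) z x * U16.ker (wt ω₃) Γ.p a₁ (b₁ - a₁) z' y -
        U16.ker (wt ω₃) Γ.p a₁ (b₁ - a₁) z y * U16.ker (wt ω₃) Γ.p a₁ (b₁ - a₁) z' x ≤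
        δ * (U16.ker (wt ω₃) Γ.p a₁ (b₁ - a₁) z x * U16.ker (wt ω₃) Γ.p a₁ (b₁ - a₁) z' y)) :
    ∀ z ∈ C1, ∀ z' ∈ C1, z < z' → ∀ x ∈ C2, ∀ y ∈ C2, x < y →
      U16.ker (wt ω') Γ.p a₁ (b₁ - a₁) z x * U16.ker (wt ω') Γ.p a₁ (b₁ - a₁) z' y -
        U16.ker (wt ω') Γ.p a₁ (b₁ - a₁) z y * U16.ker (wt ω') Γ.p a₁ (b₁ - a₁) z' x ≤
        δ * (U16.ker (wt ω') Γ.p a₁ (b₁ - a₁) z x * U16.ker (wt ω') Γ.p a₁ (b₁ - a₁) z' y) := by
  have e : ∀ x y, U16.ker (wt ω') Γ.p a₁ (b₁ - a₁) x y = U16.ker (wt ω₃) Γ.p a₁ (b₁ - a₁) x y := fun x y =>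
    T.ker (by omega) x y
  intro z hz z' hz' hzz x hx y hy hxy
  rw [e, e, e, e]
  exact hcr z hz z' hz' hzz x hx y hy hxy

/-! ### From the ratio of the top block -/

/-- From a ratio off a set of sites above the row `b`. -/
theorem tp73_ro {B : Set (ℕ × ℤ)} (hR : Ro (wt ω₃) (wt ω') Γ.p Γ.N B D) (D1 : 1 ≤ D) (hbN : b ≤ Γ.N)
    (hB : ∀ c ∈ B, b < c.1) (heq : ∀ k y, k < b → wt ω' k y = wt ω₃ k y) : Tp73 Γ b D ω₃ ω' :=
  ⟨D1, hbN, heq, fun y => hR.up b y fun h => absurd (hB _ h) (lt_irrefl b), fun y => hR.dn b y fun h => absurd (hB _ h) (lt_irrefl b)⟩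

variable {G : Gm} {γ : ℕ → ℤ → ℝ} {u : ℕ} {κ : ℤ × ℤ} {bb A X U₁ Q Uw al q d : ℝ} {e : ℕ}

/-- **THE TOP BLOCK**, rows strictly between `b` and `e`: the old content in `KiB`, `TmB`, `StB`, the new content in `KiB`, `LoB`. -/
theorem tp73_blk (hγ : ∀ k y, 0 < γ k y) (hv0 : 0 ≤ G.v) (hv1 : G.v ≤ 1) (hb : G.kw * G.w u + 2 ≤ bb * G.w u) (hb0 : 0 ≤ bb * G.w u)
    (hbe : b < e) (he : e ≤ Γ.N) (heq : ∀ k y, b < k → (k, y) ∉ Bk G u κ b e → wt ω k y = wt ω' k y) (hal : 0 ≤ al)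
    (hQ : 0 ≤ Q) (hUw : 0 ≤ Uw) (hq : Q + Uw ≤ q) (hU₁ : 0 ≤ U₁) (hA : A ≤ Real.exp al) (hX0 : 0 ≤ X)
    (hX : X * Real.exp (1 + al + 5 * q + U₁) ≤ 1 / 2) (hd : 2 + 2 * al + 5 * q + U₁ ≤ d)
    (hK : ω ∈ KiB Γ G γ bb A X u κ b e) (hT : ω ∈ TmB Γ G γ bb Q u κ b e) (hS : ω ∈ StB G bb Uw u κ e)
    (hK' : ω' ∈ KiB Γ G γ bb A X u κ b e) (hL : ω' ∈ LoB Γ G γ bb U₁ u κ b e) :
    Tp73 Γ b (Real.exp d) (spl (b + 1) ω' ω) ω' := by
  have hR : Ro (wt (spl (b + 1) ω' ω)) (wt ω') Γ.p Γ.N (Bk G u κ b e) (Real.exp d) := by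
    refine ro_blk hγ hv0 hv1 hb hb0 hbe he (fun k y h => ?_) hal hQ hUw hq hU₁ hA hX0 hX hd
      (kiB_congr hγ hv0 hv1 hb (fun k y h1 _ => (wt_spl_ge (by omega) y).symm) hK)
      (tmB_congr hbe he (fun k y h1 => (wt_spl_ge (by omega) y).symm) hT)
      (stB_congr (fun y => (wt_spl_ge (by omega) y).symm) hS) hK' hL
    rcases lt_or_ge k (b + 1) with h1 | h1
    · rw [wt_spl_lt h1]
    · rw [wt_spl_ge h1]
      exact heq k y (by omega) h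
  exact tp73_ro hR (Real.one_le_exp (by linarith)) (hbe.le.trans he) (fun c hc => hc.2.1) fun k y hk =>
    (wt_spl_lt (by omega) y).symm

/-- The pair `(ω'', ω₃)` of the lane block: equal off the rows `(a, b]`. -/
theorem spl_pair {k : ℕ} (hab : a ≤ b) (y : ℤ) (h : ¬ (a < k ∧ k ≤ b)) : wt (spl (b + 1) ω' ω) k y = wt (spl (a + 1) ω' ω) k y := by
  rcases lt_or_ge k (a + 1) with h1 | h1
  · rw [wt_spl_lt h1, wt_spl_lt (by omega)]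
  · rw [wt_spl_ge h1, wt_spl_ge (by omega)]

end

end Pool.Agent.W_7d29a1_C1.T73
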