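import Pool.Agent.W_7d29a1_C1.KiP52
import Pool.Agent.W_7d29a1_C1.LoW18
import Pool.Agent.W_7d29a1_C1.RoB22
import Pool.Agent.W_7d29a1_C1.Top73
import Pool.Agent.W_7d29a1_C1.GsF73

/-!
MP_7d29a1_pr, [C1] attractor route, SEP: THE RATIO OF ONE BLOCK WITH ALL NUMBERS, before the luck. (helper73)

* `blkN73` : a block of the rows strictly between `a` and `e` of the window. Both contents have the upper kernels of all the starts with a
  slope (`UpS` of helper52, level `V₁ E`, slope `(c / 16) E / w`), the new one the lower kernels `Lw18 .. Re .. Qe`, the old one the tame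
  backward masses (`TmB`, level `(sgm (b + 1) + 1) E`) and the weights of the row `e` (`StB`). Then the backward masses off the block
  have the ratio `exp ((K₁ + 5 sgm b) E)`, `E = EE (T u)`, for all `b ≥ b₀`; `K₁`, `b₀` depend on `kw, V₁, Re, Qe, Uw, sgm` only.
* `gu73` : the gate block; `tpN73` : the block beyond the lanes (`Tp73`).
-/

set_option autoImplicit false

namespace Pool.Agent.W_7d29a1_C1.B73

open Finset MeasureTheory Filter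
open Pool.Agent.W_7d29a1_F hiding Bw G
open Pool.Agent.W_7d29a1_h4g Pool.Agent.W_7d29a1_HS
open Pool.Agent.W_7d29a1_H hiding ex gg
open Pool.Agent.W_7d29a1_C1.K91 (wt wt_pos)
open Pool.Agent.W_7d29a1_C1.H75 (hc)
open Pool.Agent.W_7d29a1_C1.H60
open Pool.Agent.W_7d29a1_C1.G37 (Gm)
open Pool.Agent.W_7d29a1_C1.O22 (Bw)
open Pool.Agent.W_7d29a1_C1.E53
open Pool.Agent.W_7d29a1_C1.SD53
open Pool.Agent.W_7d29a1_C1.Rt22 (Ro)
open Pool.Agent.W_7d29a1_C1.RB22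
open Pool.Agent.W_7d29a1_C1.GL18 (Lw18 lw18_lob lw18_rows)
open Pool.Agent.W_7d29a1_C1.Ki52 (gau_gam kib_up blk_len)
open Pool.Agent.W_7d29a1_C1.T73 (Tp73 tp73_ro)

noncomputable section

/-- A narrower strip. -/
theorem stb_anti73 {G : Gm} {b b' Uw : ℝ} {u : ℕ} {κ : ℤ × ℤ} {e : ℕ} (h : b' * G.w u ≤ b * G.w u) :
    StB G b Uw u κ e ⊆ StB G b' Uw u κ e := fun _ hω v hv => hω v (hv.trans (by linarith))

theorem tmb_anti73 {Γ : Cx} {G : Gm} {γ : ℕ → ℤ → ℝ} {b b' Q : ℝ} {u : ℕ} {κ : ℤ × ℤ} {a e : ℕ} (h : b' * G.w u ≤ b * G.w u) :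
    TmB Γ G γ b Q u κ a e ⊆ TmB Γ G γ b' Q u κ a e := fun _ hω c c' h1 h2 h3 h4 h5 h6 =>
  hω c c' h1 h2 h3 h4 (h5.trans (by linarith)) (h6.trans (by linarith))

variable {μ : Measure ℝ} [IsProbabilityMeasure μ] {s c C : ℝ} {n₀ : ℕ}

/-- **THE RATIO OF ONE BLOCK, ALL NUMBERS.** -/
theorem blkN73 (h : In μ s c C n₀) {kw V₁ Re Qe Uw₀ sgm : ℝ} (hkw : 0 ≤ kw) (hV₁ : 0 ≤ V₁) (hRe : 0 ≤ Re) (hQe : 0 ≤ Qe)
    (hUw₀ : 0 ≤ Uw₀) (hsg0 : 0 ≤ sgm) (hsg : 20 * sgm ≤ c) : ∃ K₁ b₀ : ℝ, 0 ≤ K₁ ∧ 1 ≤ b₀ ∧ ∃ n₁ : ℕ, 1 ≤ n₁ ∧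
    ∀ {b : ℝ}, b₀ ≤ b → ∀ {Γ : Cx} {G : Gm} {u : ℕ} {κ : ℤ × ℤ} {a e : ℕ} {o : Pt} {N : ℕ} {V σ Q Uw : ℝ} {S : Set Pt}
      {ω ω' : Env}, Γ.s = s → G.v = sl μ s → G.w u = wd μ s (G.T u) → G.kw = kw →
      |Γ.h| * wd μ s (G.T u) ≤ c / 8 * EE μ s (G.T u) → n₁ ≤ G.T u → 0 ≤ G.rcc u κ → G.ra u κ ≤ a + 1 → a < e →
      e ≤ G.re u κ → G.re u κ ≤ Γ.N → o.2 = ⌊G.ctr u κ + G.v * (o.1 : ℝ)⌋ → o.1 ≤ (a : ℤ) → ((e - 1 : ℕ) : ℤ) ≤ o.1 + N →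
      V ≤ V₁ * EE μ s (G.T u) → σ ≤ c / 16 * (EE μ s (G.T u) / wd μ s (G.T u)) →
      ω ∈ Up52.UpS μ s (hc μ s c (G.T u)) o N V σ → ω' ∈ Up52.UpS μ s (hc μ s c (G.T u)) o N V σ →
      ω ∈ TmB Γ G (Ou37.gam μ s Γ) b Q u κ a e → 0 ≤ Q → Q ≤ (sgm * (b + 1) + 1) * EE μ s (G.T u) →
      ω ∈ StB G b Uw u κ e → 0 ≤ Uw → Uw ≤ Uw₀ * EE μ s (G.T u) → ω' ∈ Lw18 μ s G u κ a e Re S Qe →
      (∀ k y, (k, y) ∉ Bk G u κ a e → wt ω k y = wt ω' k y) →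
      Ro (wt ω) (wt ω') Γ.p Γ.N (Bk G u κ a e) (Real.exp ((K₁ + 5 * sgm * b) * EE μ s (G.T u))) := by
  obtain ⟨Ck, hCk, n₂, hn₂, HK⟩ := kib_up h hkw
  obtain ⟨n₃, hn₃⟩ := eventually_atTop.1 (h.tE.eventually_ge_atTop 1)
  have hc0 := h.c0
  have hc1 := h.c1
  have hs0 := h.sl_pos
  have hs1 := h.sl_lt
  obtain ⟨u1, hu1⟩ : ∃ u1 : ℝ, u1 = Qe + c / 8 * (Re + kw + 3) + (|lam μ s| + 1) := ⟨_, rfl⟩
  have hu10 : 0 ≤ u1 := by
    rw [hu1]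
    have := abs_nonneg (lam μ s)
    positivity
  obtain ⟨A₁, hA₁⟩ : ∃ A₁ : ℝ, A₁ = 2 * V₁ + Ck := ⟨_, rfl⟩
  have hA0 : 0 ≤ A₁ := by rw [hA₁]; positivity
  refine ⟨2 + 2 * A₁ + 5 * (sgm + 1 + Uw₀) + u1, max (kw + 1) (max (Re + 1) (4 / c * (2 * A₁ + 5 * (sgm + 1 + Uw₀) + u1 + 2))),
    by positivity, le_trans (by linarith) (le_max_left _ _), max n₂ (max n₃ 2), (by omega : 1 ≤ n₂).trans (le_max_left _ _),
    fun {b} hb {Γ G u κ a e o N V σ Q Uw S ω ω'} hs hv hw hkw' hh hT h0 hra hae hre hreN ho1 ho2 ho3 hV hσ hU hU' hTm hQ0 hQ hS hUw0 hUw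
      hL heq => ?_⟩
  obtain ⟨T, hTe⟩ : ∃ T, T = G.T u := ⟨_, rfl⟩
  obtain ⟨E, hE⟩ : ∃ E, E = EE μ s (G.T u) := ⟨_, rfl⟩
  obtain ⟨w, hwe⟩ : ∃ w, w = wd μ s (G.T u) := ⟨_, rfl⟩
  have hE1 : 1 ≤ E := by rw [hE]; exact hn₃ _ (((le_max_left _ _).trans (le_max_right _ _)).trans hT)
  have hT2 : 2 ≤ G.T u := ((le_max_right _ _).trans (le_max_right _ _)).trans hT
  have hw2 : 2 * E ≤ w := by rw [hE, hwe]; exact wd_ge_one h (by omega)
  have hw0 : 0 < w := by linarith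
  have b1 : kw + 1 ≤ b := (le_max_left _ _).trans hb
  have b2 : Re + 1 ≤ b := ((le_max_left _ _).trans (le_max_right _ _)).trans hb
  have b3 : 4 / c * (2 * A₁ + 5 * (sgm + 1 + Uw₀) + u1 + 2) ≤ b := ((le_max_right _ _).trans (le_max_right _ _)).trans hb
  have b3' : 2 * A₁ + 5 * (sgm + 1 + Uw₀) + u1 + 2 ≤ c / 4 * b := by
    have h1 := mul_le_mul_of_nonneg_left b3 (show (0 : ℝ) ≤ c / 4 by positivity)
    calc 2 * A₁ + 5 * (sgm + 1 + Uw₀) + u1 + 2 = c / 4 * (4 / c * (2 * A₁ + 5 * (sgm + 1 + Uw₀) + u1 + 2)) := by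
          field_simp
      _ ≤ _ := h1
  have hb0 : 0 ≤ b := by linarith
  have hv0 : 0 ≤ G.v := by rw [hv]; exact hs0.le
  have hv1 : G.v ≤ 1 := by rw [hv]; exact hs1.le
  have hwG : G.w u = w := by rw [hw, hwe]
  have hw2' : 2 ≤ w := by linarith
  have hbw1 : (kw + 1) * w ≤ b * w := mul_le_mul_of_nonneg_right b1 hw0.le
  have hbw2 : (Re + 1) * w ≤ b * w := mul_le_mul_of_nonneg_right b2 hw0.le
  have hbw : G.kw * G.w u + 2 ≤ b * G.w u := by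
    rw [hkw', hwG]
    linarith
  have hkw0 : G.kw = kw := hkw'
  -- upper kernels
  have kiB : ∀ η : Env, η ∈ Up52.UpS μ s (hc μ s c (G.T u)) o N V σ →
      η ∈ KiB Γ G (Ou37.gam μ s Γ) b (Real.exp (A₁ * E)) (Real.exp ((A₁ - c / 2 * b) * E)) u κ a e := by
    intro η hη
    have h1 := Up52.upS_22 (a := a) (e := e - 1) ho2 ho3 (Up52.upS_mono hV hσ le_rfl hη)
    have h2 := HK (V₁ := V₁) (b := b) (κ := κ) (a := a) (e := e) (o := o) (γ := Ou37.gam μ s Γ) hV₁ hs hv hw hkw' hh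
      ((le_max_left _ _).trans hT) b1 (gau_gam Γ) (hre.trans hreN) (blk_len (by omega) hre) ho1 h1
    rw [hA₁, hE]
    exact h2
  -- the force
  have hhw : |Γ.h| * w ≤ c / 8 * E := by rw [hE, hwe]; exact hh
  have hh1 : |Γ.h| ≤ 1 := by
    have h1 : |Γ.h| * w ≤ 1 * w := by
      have h2 : c / 8 * E ≤ 1 * E := mul_le_mul_of_nonneg_right (by linarith) (by linarith)
      linarith
    exact le_of_mul_le_mul_right h1 hw0
  -- lower kernels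
  have loB : ω' ∈ LoB Γ G (Ou37.gam μ s Γ) b (u1 * E) u κ a e := by
    refine lw18_lob hs hv (gau_gam Γ) hv0 hv1 h0 hra hre (hre.trans hreN) hRe ?_ ?_ hL
    · rw [hwG]
      linarith
    · rw [← hE, hwG, hkw', hu1]
      have h1 : |Γ.h| * (Re * w + kw * w + 3) ≤ c / 8 * (Re + kw + 3) * E := by
        have h2 : Re * w + kw * w + 3 ≤ (Re + kw + 3) * w := by
          have h2' : (Re + kw + 3) * w = Re * w + kw * w + 3 * w := by ring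
          linarith
        calc |Γ.h| * (Re * w + kw * w + 3) ≤ |Γ.h| * ((Re + kw + 3) * w) := mul_le_mul_of_nonneg_left h2 (abs_nonneg _)
          _ = (Re + kw + 3) * (|Γ.h| * w) := by ring
          _ ≤ (Re + kw + 3) * (c / 8 * E) := mul_le_mul_of_nonneg_left hhw (by positivity)
          _ = _ := by ring
      have h3 : |Γ.h * sl μ s| ≤ 1 := by
        rw [abs_mul, abs_of_pos hs0]
        exact mul_le_one₀ hh1 hs0.le hs1.le
      have h4 : |lam μ s| + |Γ.h * sl μ s| ≤ (|lam μ s| + 1) * E := by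
        have h5 : (|lam μ s| + 1) * 1 ≤ (|lam μ s| + 1) * E := mul_le_mul_of_nonneg_left hE1 (by positivity)
        linarith
      have h6 : (Qe + c / 8 * (Re + kw + 3) + (|lam μ s| + 1)) * E = Qe * E + c / 8 * (Re + kw + 3) * E + (|lam μ s| + 1) * E := by ring
      linarith
  have hQ' : Q ≤ (sgm * (b + 1) + 1) * E := by rw [hE]; exact hQ
  have hUw' : Uw ≤ Uw₀ * E := by rw [hE]; exact hUw
  have hE0 : 0 ≤ E := by linarith
  rw [← hE]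
  refine ro_blk (A := Real.exp (A₁ * E)) (X := Real.exp ((A₁ - c / 2 * b) * E)) (Q := Q) (Uw := Uw) (al := A₁ * E)
    (q := (sgm * (b + 1) + 1 + Uw₀) * E) (U₁ := u1 * E) (fun k y => Ou37.gam_pos k y) hv0 hv1 hbw (mul_nonneg hb0 (G.w_pos u).le) hae
    (hre.trans hreN) heq (mul_nonneg hA0 hE0) hQ0 hUw0 ?_ (mul_nonneg hu10 hE0) le_rfl (Real.exp_pos _).le ?_ ?_ (kiB ω hU) hTm hS
    (kiB ω' hU') loB
  · have h1 : (sgm * (b + 1) + 1 + Uw₀) * E = (sgm * (b + 1) + 1) * E + Uw₀ * E := by ring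
    linarith
  · rw [← Real.exp_add]
    have h1 : (A₁ - c / 2 * b) * E + (1 + A₁ * E + 5 * ((sgm * (b + 1) + 1 + Uw₀) * E) + u1 * E) ≤ -1 := by
      have h2 : 5 * sgm * b ≤ c / 4 * b := mul_le_mul_of_nonneg_right (by linarith) hb0
      have h3 : (A₁ - c / 2 * b) + A₁ + 5 * (sgm * (b + 1) + 1 + Uw₀) + u1 ≤ -2 := by
        have h4 : 5 * (sgm * (b + 1) + 1 + Uw₀) = 5 * sgm * b + 5 * (sgm + 1 + Uw₀) := by ring
        have h5 : c / 2 * b = c / 4 * b + c / 4 * b := by ring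
        linarith
      have h6 : (A₁ - c / 2 * b) * E + (1 + A₁ * E + 5 * ((sgm * (b + 1) + 1 + Uw₀) * E) + u1 * E) =
          1 + ((A₁ - c / 2 * b) + A₁ + 5 * (sgm * (b + 1) + 1 + Uw₀) + u1) * E := by ring
      have h7 := mul_le_mul_of_nonneg_right h3 hE0
      rw [h6]
      linarith
    calc Real.exp ((A₁ - c / 2 * b) * E + (1 + A₁ * E + 5 * ((sgm * (b + 1) + 1 + Uw₀) * E) + u1 * E)) ≤ Real.exp (-1) :=
          Real.exp_le_exp.2 h1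
      _ ≤ 1 / 2 := by
          have h4 := Real.add_one_le_exp (1 : ℝ)
          rw [Real.exp_neg, inv_eq_one_div, div_le_div_iff₀ (Real.exp_pos 1) (by norm_num)]
          linarith
  · have h5 : (2 + 2 * A₁ + 5 * (sgm + 1 + Uw₀) + u1 + 5 * sgm * b) * E =
        2 * E + 2 * (A₁ * E) + 5 * ((sgm * (b + 1) + 1 + Uw₀) * E) + u1 * E := by ring
    rw [h5]
    linarith

end

end Pool.Agent.W_7d29a1_C1.B73
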