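import Pool.Agent.W_7d29a1_C1.DD84
import Pool.Agent.W_7d29a1_C1.JmpN67

/-!
[C1] attractor route, DD84 (helper84), the numbers of the model. `unit_small`: the unit of a larger scale is small against its width, up to
a constant. `dd_model`: if the mass `F` of a place at the distance `≤ K₁ wd (T v)` is at most `exp (A EE (T v))` times the mass of the
central sites, for all scales `T 0 ≤ T v`, then `F` has (D2) at the scale `T 0` with ANY slope `κ EE (T 0) / wd (T 0)` and the constant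
`Q EE (T 0)`, `Q = Q (κ, A, K₁, b)`.
-/

set_option autoImplicit false

namespace Pool.Agent.W_7d29a1_C1.DD84

open MeasureTheory ProbabilityTheory Filter Topology
open Pool.Agent.W_7d29a1_F Pool.Agent.W_7d29a1_h4g Pool.Agent.W_7d29a1_H Pool.Agent.W_7d29a1_HS

noncomputable section

variable {μ : Measure ℝ} [IsProbabilityMeasure μ] {s c C : ℝ} {n₀ : ℕ}

/-- **The unit is small against the width.** -/
theorem unit_small (h : In μ s c C n₀) {κ : ℝ} (hκ : 0 < κ) : ∃ (Q : ℝ) (n₁ : ℕ), 1 ≤ Q ∧ 1 ≤ n₁ ∧ ∀ m n : ℕ, n₁ ≤ m → m ≤ n →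
    EE μ s n ≤ (κ * (wd μ s n / wd μ s m) + Q) * EE μ s m := by
  obtain ⟨K, a, n₁, hK, ha, hn1, hg⟩ := wd_gain h
  -- `K R ^ (- a) ≤ κ`
  obtain ⟨R, hR⟩ : ∃ R : ℝ, R = max 1 ((K / κ) ^ (1 / a)) := ⟨_, rfl⟩
  have hR1 : 1 ≤ R := by rw [hR]; exact le_max_left _ _
  have hRa : K / κ ≤ R ^ a := by
    have h1 : (K / κ) ^ (1 / a) ≤ R := by rw [hR]; exact le_max_right _ _
    have h2 := Real.rpow_le_rpow (by positivity) h1 ha.le
    rw [← Real.rpow_mul (by positivity), one_div, inv_mul_cancel₀ ha.ne', Real.rpow_one] at h2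
    exact h2
  refine ⟨2 * R, n₁, by linarith, hn1, fun m n g1 hmn => ?_⟩
  have g3 : 1 ≤ m := hn1.trans g1
  have hm0 : (0 : ℝ) < m := by exact_mod_cast g3
  have hwm := h.wd_pos g3
  have hwn := h.wd_pos (g3.trans hmn)
  have hEm := EE_pos (μ := μ) (s := s) m
  have hEn := EE_pos (μ := μ) (s := s) n
  rcases le_total R ((n : ℝ) / m) with h1 | h1
  · have h2 := hg m n g1 hmn
    have h3 : K / κ ≤ ((n : ℝ) / m) ^ a := hRa.trans (Real.rpow_le_rpow (by linarith) h1 ha.le)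
    have h4 : K / κ * (EE μ s n * wd μ s m) ≤ K * (EE μ s m * wd μ s n) :=
      (mul_le_mul_of_nonneg_right h3 (by positivity)).trans h2
    have h5 : EE μ s n * wd μ s m ≤ κ * (EE μ s m * wd μ s n) := by
      have h6 := mul_le_mul_of_nonneg_left h4 (show 0 ≤ κ / K by positivity)
      have e1 : κ / K * (K / κ * (EE μ s n * wd μ s m)) = EE μ s n * wd μ s m := by field_simp
      have e2 : κ / K * (K * (EE μ s m * wd μ s n)) = κ * (EE μ s m * wd μ s n) := by field_simp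
      rwa [e1, e2] at h6
    have h7 : EE μ s n ≤ κ * (wd μ s n / wd μ s m) * EE μ s m := by
      have e3 : κ * (wd μ s n / wd μ s m) * EE μ s m = κ * (EE μ s m * wd μ s n) / wd μ s m := by ring
      rw [e3, le_div_iff₀ hwm]
      exact h5
    have h8 : 0 ≤ 2 * R * EE μ s m := by positivity
    linarith [show (κ * (wd μ s n / wd μ s m) + 2 * R) * EE μ s m =
      κ * (wd μ s n / wd μ s m) * EE μ s m + 2 * R * EE μ s m by ring]
  · have h2 := scale_b h g3 hmn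
    have h4 : EE μ s n ≤ 2 * R * EE μ s m := by
      have h3 : (n : ℝ) ≤ R * m := by rwa [div_le_iff₀ hm0] at h1
      have h5 : (m : ℝ) * EE μ s n ≤ m * (2 * R * EE μ s m) := by
        refine h2.trans ?_
        have := mul_le_mul_of_nonneg_right h3 hEm.le
        linarith [show (m : ℝ) * (2 * R * EE μ s m) = 2 * (R * m * EE μ s m) by ring]
      exact le_of_mul_le_mul_left h5 hm0
    have h6 : 0 ≤ κ * (wd μ s n / wd μ s m) * EE μ s m := by positivity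
    linarith [show (κ * (wd μ s n / wd μ s m) + 2 * R) * EE μ s m =
      κ * (wd μ s n / wd μ s m) * EE μ s m + 2 * R * EE μ s m by ring]

/-- **(D2) with any slope** from the comparisons at all scales. `b` = the ratio of the scales. -/
theorem dd_model (h : In μ s c C n₀) {κ A K₁ : ℝ} (hκ : 0 < κ) (hA : 0 ≤ A) (hK₁ : 1 ≤ K₁) (b : ℕ) : ∃ (Q : ℝ) (n₁ : ℕ), 1 ≤ Q ∧ 1 ≤ n₁ ∧
    ∀ (T : ℕ → ℕ) (m : ℕ), n₁ ≤ T 0 → (∀ v, v < m → T v ≤ T (v + 1) ∧ T (v + 1) ≤ b * T v) → ∀ (F : ℤ → ℝ) (x₀ : ℝ), (∀ x, 0 ≤ F x) →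
    (∀ v, v ≤ m → ∀ x x' : ℤ, |(x : ℝ) - x₀| ≤ K₁ * wd μ s (T v) → |(x' : ℝ) - x₀| ≤ K₁ * wd μ s (T 0) →
      F x ≤ Real.exp (A * EE μ s (T v)) * F x') →
    (∀ x x' : ℤ, K₁ * wd μ s (T m) < |(x : ℝ) - x₀| → |(x' : ℝ) - x₀| ≤ K₁ * wd μ s (T 0) →
      F x ≤ Real.exp (A * EE μ s (T m) + κ / 2 * (EE μ s (T 0) / wd μ s (T 0)) * |(x : ℝ) - x₀|) * F x') →
    D2 F x₀ (K₁ * wd μ s (T 0)) (Q * EE μ s (T 0)) (κ * (EE μ s (T 0) / wd μ s (T 0))) := by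
  obtain ⟨Kw, aw, n₂, hKw, haw, hn2, hw⟩ := wd_pow h
  obtain ⟨B, hB⟩ : ∃ B : ℝ, B = max 1 (Kw * (b + 1)) := ⟨_, rfl⟩
  have hB1 : 1 ≤ B := by rw [hB]; exact le_max_left _ _
  have hB0 : 0 < B := by linarith
  obtain ⟨κ₁, hκ₁⟩ : ∃ κ₁ : ℝ, κ₁ = κ / (2 * B * (A + 1)) := ⟨_, rfl⟩
  have hκ₁0 : 0 < κ₁ := by rw [hκ₁]; positivity
  obtain ⟨Q₁, n₃, hQ₁, hn3, hu⟩ := unit_small h hκ₁0
  refine ⟨A * Q₁ + κ * K₁ / B + 1, max n₂ n₃, ?_, hn3.trans (le_max_right _ _), fun T m hT0 hT F x₀ hF hD htop => ?_⟩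
  · have h1 : 0 ≤ A * Q₁ := mul_nonneg hA (by linarith)
    have h2 : 0 ≤ κ * K₁ / B := by positivity
    linarith
  have g2 : n₂ ≤ T 0 := (le_max_left _ _).trans hT0
  have g3 : n₃ ≤ T 0 := (le_max_right _ _).trans hT0
  have g1 : 1 ≤ T 0 := hn3.trans g3
  have hmon : ∀ v, v ≤ m → T 0 ≤ T v := by
    intro v
    induction v with
    | zero => intro _; exact le_rfl
    | succ v ih => intro hv; exact (ih (by omega)).trans (hT v (by omega)).1
  obtain ⟨E₀, hE₀⟩ : ∃ E₀ : ℝ, E₀ = EE μ s (T 0) := ⟨_, rfl⟩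
  obtain ⟨w₀, hw₀⟩ : ∃ w₀ : ℝ, w₀ = wd μ s (T 0) := ⟨_, rfl⟩
  have hE0 : 0 < E₀ := by rw [hE₀]; exact EE_pos _
  have hw0 : 0 < w₀ := by rw [hw₀]; exact h.wd_pos g1
  have hK0 : 0 < K₁ := by linarith
  have hAQ : 0 ≤ A * Q₁ := mul_nonneg hA (by linarith)
  -- the growth of the constants
  have hgr : ∀ v, v ≤ m → A * EE μ s (T v) ≤ κ / (2 * B) * (E₀ / w₀) * (K₁ * wd μ s (T v)) + A * Q₁ * E₀ := by
    intro v hv
    have h1 := hu (T 0) (T v) g3 (hmon v hv)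
    rw [← hE₀, ← hw₀] at h1
    have hwv : 0 < wd μ s (T v) := h.wd_pos (g1.trans (hmon v hv))
    have h2 := mul_le_mul_of_nonneg_left h1 hA
    refine h2.trans ?_
    have h3 : A * κ₁ ≤ κ / (2 * B) * K₁ := by
      have e1 : A * κ₁ = κ / (2 * B) * (A / (A + 1)) := by
        rw [hκ₁]
        field_simp
      have h4 : A / (A + 1) ≤ 1 := by
        rw [div_le_one (by linarith)]
        linarith
      rw [e1]
      exact mul_le_mul_of_nonneg_left (h4.trans hK₁) (by positivity)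
    have h5 := mul_le_mul_of_nonneg_right h3 (show 0 ≤ wd μ s (T v) / w₀ * E₀ by positivity)
    have e2 : A * ((κ₁ * (wd μ s (T v) / w₀) + Q₁) * E₀) = A * κ₁ * (wd μ s (T v) / w₀ * E₀) + A * Q₁ * E₀ := by ring
    have e3 : κ / (2 * B) * (E₀ / w₀) * (K₁ * wd μ s (T v)) = κ / (2 * B) * K₁ * (wd μ s (T v) / w₀ * E₀) := by ring
    rw [e2, e3]
    linarith
  have key := dd_scales (F := F) hF (x₀ := x₀) (b := B) (κ := κ / B * (E₀ / w₀)) (q := (A * Q₁ + 1) * E₀) (r := fun v => K₁ * wd μ s (T v))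
    (e := fun v => A * EE μ s (T v)) (m := m) (by positivity) (by rw [← hw₀]; positivity) ?_ hB1 ?_ hD ?_
  · rw [← hw₀] at key
    have e1 : κ / B * (E₀ / w₀) * B = κ * (E₀ / w₀) := by field_simp
    have e2 : (A * Q₁ + 1) * E₀ + κ / B * (E₀ / w₀) * (K₁ * w₀) = (A * Q₁ + κ * K₁ / B + 1) * E₀ := by
      field_simp
      ring
    rw [e1, e2] at key
    rw [← hE₀, ← hw₀]
    exact key
  · intro v hv
    obtain ⟨h1, h2⟩ := hT v hv
    have hTv : 1 ≤ T v := g1.trans (hmon v hv.le)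
    have hTR : (0 : ℝ) < T v := by exact_mod_cast hTv
    have h3 := hw (T v) (T (v + 1)) (g2.trans (hmon v hv.le)) h1
    have h4 : ((T (v + 1) : ℝ) / T v) ^ (1 - aw) ≤ (b : ℝ) + 1 := by
      have h5 : (1 : ℝ) ≤ (T (v + 1) : ℝ) / T v := by
        rw [le_div_iff₀ hTR, one_mul]
        exact_mod_cast h1
      have h6 : (T (v + 1) : ℝ) / T v ≤ b := by
        rw [div_le_iff₀ hTR]
        exact_mod_cast h2
      calc ((T (v + 1) : ℝ) / T v) ^ (1 - aw) ≤ ((T (v + 1) : ℝ) / T v) ^ (1 : ℝ) :=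
            Real.rpow_le_rpow_of_exponent_le h5 (by linarith)
        _ = (T (v + 1) : ℝ) / T v := Real.rpow_one _
        _ ≤ (b : ℝ) + 1 := by linarith
    have hwv : 0 < wd μ s (T v) := h.wd_pos hTv
    have h7 : wd μ s (T (v + 1)) ≤ B * wd μ s (T v) := by
      refine h3.trans (mul_le_mul_of_nonneg_right ?_ hwv.le)
      refine (mul_le_mul_of_nonneg_left h4 hKw.le).trans ?_
      rw [hB]
      exact le_max_right _ _
    have h8 := mul_le_mul_of_nonneg_left h7 hK0.le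
    show K₁ * wd μ s (T (v + 1)) ≤ B * (K₁ * wd μ s (T v))
    linarith
  · intro v hv
    have h1 := hgr v hv
    show A * EE μ s (T v) ≤ κ / B * (E₀ / w₀) * (K₁ * wd μ s (T v)) + (A * Q₁ + 1) * E₀
    have hwv : 0 < wd μ s (T v) := h.wd_pos (g1.trans (hmon v hv))
    have h2 : κ / (2 * B) * (E₀ / w₀) * (K₁ * wd μ s (T v)) ≤ κ / B * (E₀ / w₀) * (K₁ * wd μ s (T v)) := by
      have h3 : κ / (2 * B) ≤ κ / B := div_le_div_of_nonneg_left hκ.le hB0 (by linarith)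
      gcongr
    linarith
  · intro x x' hx hx'
    refine (htop x x' hx hx').trans (mul_le_mul_of_nonneg_right (Real.exp_le_exp.2 ?_) (hF x'))
    have h1 := hgr m le_rfl
    rw [← hE₀, ← hw₀]
    have h2 : κ / (2 * B) * (E₀ / w₀) * (K₁ * wd μ s (T m)) ≤ κ / 2 * (E₀ / w₀) * |(x : ℝ) - x₀| := by
      have h3 : κ / (2 * B) ≤ κ / 2 := div_le_div_of_nonneg_left hκ.le (by norm_num) (by linarith)
      calc κ / (2 * B) * (E₀ / w₀) * (K₁ * wd μ s (T m)) ≤ κ / (2 * B) * (E₀ / w₀) * |(x : ℝ) - x₀| :=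
            mul_le_mul_of_nonneg_left hx.le (by positivity)
        _ ≤ κ / 2 * (E₀ / w₀) * |(x : ℝ) - x₀| :=
          mul_le_mul_of_nonneg_right (mul_le_mul_of_nonneg_right h3 (by positivity)) (abs_nonneg _)
    have e1 : κ / B * (E₀ / w₀) * B * |(x : ℝ) - x₀| = κ * (E₀ / w₀) * |(x : ℝ) - x₀| := by field_simp
    have e2 : κ * (E₀ / w₀) * |(x : ℝ) - x₀| = κ / 2 * (E₀ / w₀) * |(x : ℝ) - x₀| + κ / 2 * (E₀ / w₀) * |(x : ℝ) - x₀| := by ring
    have h4 : 0 ≤ κ / B * (E₀ / w₀) * (K₁ * w₀) := by positivity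
    linarith [e1, e2, h4, h1, h2, show 0 ≤ κ / B * (E₀ / w₀) * (K₁ * wd μ s (T 0)) by rw [← hw₀]; exact h4,
      show (A * Q₁ + 1) * E₀ = A * Q₁ * E₀ + E₀ by ring]

/-- **The unit is small against the width**, with a power of the ratio of the scales to spare. -/
theorem unit_small_pow (h : In μ s c C n₀) : ∃ g : ℝ, 0 < g ∧ ∀ κ : ℝ, 0 < κ → ∃ (Q : ℝ) (n₁ : ℕ), 1 ≤ Q ∧ 1 ≤ n₁ ∧
    ∀ m n : ℕ, n₁ ≤ m → m ≤ n → ((n : ℝ) / m) ^ g * EE μ s n ≤ (κ * (wd μ s n / wd μ s m) + Q) * EE μ s m := by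
  obtain ⟨K, a, n₁, hK, ha, hn1, hg⟩ := wd_gain h
  refine ⟨a / 2, by positivity, fun κ hκ => ?_⟩
  obtain ⟨R, hR⟩ : ∃ R : ℝ, R = max 1 ((K / κ) ^ (1 / (a / 2))) := ⟨_, rfl⟩
  have hR1 : 1 ≤ R := by rw [hR]; exact le_max_left _ _
  have hRa : K / κ ≤ R ^ (a / 2) := by
    have h1 : (K / κ) ^ (1 / (a / 2)) ≤ R := by rw [hR]; exact le_max_right _ _
    have h2 := Real.rpow_le_rpow (by positivity) h1 (show 0 ≤ a / 2 by positivity)
    rw [← Real.rpow_mul (by positivity), one_div, inv_mul_cancel₀ (by positivity), Real.rpow_one] at h2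
    exact h2
  have hRp : 1 ≤ R ^ (a / 2) := Real.one_le_rpow hR1 (by positivity)
  refine ⟨2 * R * R ^ (a / 2), n₁, by nlinarith, hn1, fun m n g1 hmn => ?_⟩
  have g3 : 1 ≤ m := hn1.trans g1
  have hm0 : (0 : ℝ) < m := by exact_mod_cast g3
  have hwm := h.wd_pos g3
  have hwn := h.wd_pos (g3.trans hmn)
  have hEm := EE_pos (μ := μ) (s := s) m
  have hEn := EE_pos (μ := μ) (s := s) n
  obtain ⟨x, hx⟩ : ∃ x : ℝ, x = (n : ℝ) / m := ⟨_, rfl⟩
  have hx1 : 1 ≤ x := by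
    rw [hx, le_div_iff₀ hm0, one_mul]
    exact_mod_cast hmn
  have hx0 : 0 < x := by linarith
  have hxx : x ^ a = x ^ (a / 2) * x ^ (a / 2) := by
    rw [← Real.rpow_add hx0]
    congr 1
    ring
  rw [← hx]
  have hxp : 0 < x ^ (a / 2) := by positivity
  rcases le_total R x with h1 | h1
  · have h2 := hg m n g1 hmn
    rw [← hx, hxx] at h2
    have h3 : K / κ ≤ x ^ (a / 2) := hRa.trans (Real.rpow_le_rpow (by linarith) h1 (by positivity))
    have h4 : K / κ * (x ^ (a / 2) * (EE μ s n * wd μ s m)) ≤ K * (EE μ s m * wd μ s n) := by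
      refine (mul_le_mul_of_nonneg_right h3 (by positivity)).trans ?_
      linarith [show x ^ (a / 2) * (x ^ (a / 2) * (EE μ s n * wd μ s m)) = x ^ (a / 2) * x ^ (a / 2) * (EE μ s n * wd μ s m) by ring]
    have h5 : x ^ (a / 2) * (EE μ s n * wd μ s m) ≤ κ * (EE μ s m * wd μ s n) := by
      have h6 := mul_le_mul_of_nonneg_left h4 (show 0 ≤ κ / K by positivity)
      have e1 : κ / K * (K / κ * (x ^ (a / 2) * (EE μ s n * wd μ s m))) = x ^ (a / 2) * (EE μ s n * wd μ s m) := by field_simp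
      have e2 : κ / K * (K * (EE μ s m * wd μ s n)) = κ * (EE μ s m * wd μ s n) := by field_simp
      rwa [e1, e2] at h6
    have h7 : x ^ (a / 2) * EE μ s n ≤ κ * (wd μ s n / wd μ s m) * EE μ s m := by
      have e3 : κ * (wd μ s n / wd μ s m) * EE μ s m = κ * (EE μ s m * wd μ s n) / wd μ s m := by ring
      rw [e3, le_div_iff₀ hwm]
      linarith
    have h8 : 0 ≤ 2 * R * R ^ (a / 2) * EE μ s m := by positivity
    linarith [show (κ * (wd μ s n / wd μ s m) + 2 * R * R ^ (a / 2)) * EE μ s m =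
      κ * (wd μ s n / wd μ s m) * EE μ s m + 2 * R * R ^ (a / 2) * EE μ s m by ring]
  · have h2 := scale_b h g3 hmn
    have h4 : EE μ s n ≤ 2 * R * EE μ s m := by
      have h3 : (n : ℝ) ≤ R * m := by rwa [hx, div_le_iff₀ hm0] at h1
      have h5 : (m : ℝ) * EE μ s n ≤ m * (2 * R * EE μ s m) := by
        refine h2.trans ?_
        have := mul_le_mul_of_nonneg_right h3 hEm.le
        linarith [show (m : ℝ) * (2 * R * EE μ s m) = 2 * (R * m * EE μ s m) by ring]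
      exact le_of_mul_le_mul_left h5 hm0
    have h5 : x ^ (a / 2) ≤ R ^ (a / 2) := Real.rpow_le_rpow hx0.le h1 (by positivity)
    have h7 : x ^ (a / 2) * EE μ s n ≤ R ^ (a / 2) * (2 * R * EE μ s m) := mul_le_mul h5 h4 hEn.le (by positivity)
    have h6 : 0 ≤ κ * (wd μ s n / wd μ s m) * EE μ s m := by positivity
    linarith [show (κ * (wd μ s n / wd μ s m) + 2 * R * R ^ (a / 2)) * EE μ s m =
      κ * (wd μ s n / wd μ s m) * EE μ s m + R ^ (a / 2) * (2 * R * EE μ s m) by ring]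

/-- **(D2) with any slope**, the constants of the scales may grow like `(T v / T 0) ^ g`. -/
theorem dd_model_pow (h : In μ s c C n₀) : ∃ g : ℝ, 0 < g ∧ ∀ κ A K₁ : ℝ, 0 < κ → 0 ≤ A → 1 ≤ K₁ → ∀ b : ℕ, ∃ (Q : ℝ) (n₁ : ℕ),
    1 ≤ Q ∧ 1 ≤ n₁ ∧ ∀ (T : ℕ → ℕ) (m : ℕ), n₁ ≤ T 0 → (∀ v, v < m → T v ≤ T (v + 1) ∧ T (v + 1) ≤ b * T v) →
    ∀ (F : ℤ → ℝ) (x₀ : ℝ), (∀ x, 0 ≤ F x) →
    (∀ v, v ≤ m → ∀ x x' : ℤ, |(x : ℝ) - x₀| ≤ K₁ * wd μ s (T v) → |(x' : ℝ) - x₀| ≤ K₁ * wd μ s (T 0) →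
      F x ≤ Real.exp (A * (((T v : ℝ) / T 0) ^ g * EE μ s (T v))) * F x') →
    (∀ x x' : ℤ, K₁ * wd μ s (T m) < |(x : ℝ) - x₀| → |(x' : ℝ) - x₀| ≤ K₁ * wd μ s (T 0) →
      F x ≤ Real.exp (A * (((T m : ℝ) / T 0) ^ g * EE μ s (T m)) + κ / 2 * (EE μ s (T 0) / wd μ s (T 0)) * |(x : ℝ) - x₀|) * F x') →
    D2 F x₀ (K₁ * wd μ s (T 0)) (Q * EE μ s (T 0)) (κ * (EE μ s (T 0) / wd μ s (T 0))) := by
  obtain ⟨g, hg0, hus⟩ := unit_small_pow h
  refine ⟨g, hg0, fun κ A K₁ hκ hA hK₁ b => ?_⟩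
  obtain ⟨Kw, aw, n₂, hKw, haw, hn2, hw⟩ := wd_pow h
  obtain ⟨B, hB⟩ : ∃ B : ℝ, B = max 1 (Kw * (b + 1)) := ⟨_, rfl⟩
  have hB1 : 1 ≤ B := by rw [hB]; exact le_max_left _ _
  have hB0 : 0 < B := by linarith
  obtain ⟨κ₁, hκ₁⟩ : ∃ κ₁ : ℝ, κ₁ = κ / (2 * B * (A + 1)) := ⟨_, rfl⟩
  have hκ₁0 : 0 < κ₁ := by rw [hκ₁]; positivity
  obtain ⟨Q₁, n₃, hQ₁, hn3, hu⟩ := hus κ₁ hκ₁0
  refine ⟨A * Q₁ + κ * K₁ / B + 1, max n₂ n₃, ?_, hn3.trans (le_max_right _ _), fun T m hT0 hT F x₀ hF hD htop => ?_⟩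
  · have h1 : 0 ≤ A * Q₁ := mul_nonneg hA (by linarith)
    have h2 : 0 ≤ κ * K₁ / B := by positivity
    linarith
  have g2 : n₂ ≤ T 0 := (le_max_left _ _).trans hT0
  have g3 : n₃ ≤ T 0 := (le_max_right _ _).trans hT0
  have g1 : 1 ≤ T 0 := hn3.trans g3
  have hmon : ∀ v, v ≤ m → T 0 ≤ T v := by
    intro v
    induction v with
    | zero => intro _; exact le_rfl
    | succ v ih => intro hv; exact (ih (by omega)).trans (hT v (by omega)).1
  obtain ⟨E₀, hE₀⟩ : ∃ E₀ : ℝ, E₀ = EE μ s (T 0) := ⟨_, rfl⟩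
  obtain ⟨w₀, hw₀⟩ : ∃ w₀ : ℝ, w₀ = wd μ s (T 0) := ⟨_, rfl⟩
  have hE0 : 0 < E₀ := by rw [hE₀]; exact EE_pos _
  have hw0 : 0 < w₀ := by rw [hw₀]; exact h.wd_pos g1
  have hK0 : 0 < K₁ := by linarith
  have hAQ : 0 ≤ A * Q₁ := mul_nonneg hA (by linarith)
  -- the growth of the constants
  have hgr : ∀ v, v ≤ m → A * (((T v : ℝ) / T 0) ^ g * EE μ s (T v)) ≤
      κ / (2 * B) * (E₀ / w₀) * (K₁ * wd μ s (T v)) + A * Q₁ * E₀ := by
    intro v hv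
    have h1 := hu (T 0) (T v) g3 (hmon v hv)
    rw [← hE₀, ← hw₀] at h1
    have hwv : 0 < wd μ s (T v) := h.wd_pos (g1.trans (hmon v hv))
    have h2 := mul_le_mul_of_nonneg_left h1 hA
    refine h2.trans ?_
    have h3 : A * κ₁ ≤ κ / (2 * B) * K₁ := by
      have e1 : A * κ₁ = κ / (2 * B) * (A / (A + 1)) := by
        rw [hκ₁]
        field_simp
      have h4 : A / (A + 1) ≤ 1 := by
        rw [div_le_one (by linarith)]
        linarith
      rw [e1]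
      exact mul_le_mul_of_nonneg_left (h4.trans hK₁) (by positivity)
    have h5 := mul_le_mul_of_nonneg_right h3 (show 0 ≤ wd μ s (T v) / w₀ * E₀ by positivity)
    have e2 : A * ((κ₁ * (wd μ s (T v) / w₀) + Q₁) * E₀) = A * κ₁ * (wd μ s (T v) / w₀ * E₀) + A * Q₁ * E₀ := by ring
    have e3 : κ / (2 * B) * (E₀ / w₀) * (K₁ * wd μ s (T v)) = κ / (2 * B) * K₁ * (wd μ s (T v) / w₀ * E₀) := by ring
    rw [e2, e3]
    linarith
  have key := dd_scales (F := F) hF (x₀ := x₀) (b := B) (κ := κ / B * (E₀ / w₀)) (q := (A * Q₁ + 1) * E₀) (r := fun v => K₁ * wd μ s (T v))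
    (e := fun v => A * (((T v : ℝ) / T 0) ^ g * EE μ s (T v))) (m := m) (by positivity) (by rw [← hw₀]; positivity) ?_ hB1 ?_ hD ?_
  · rw [← hw₀] at key
    have e1 : κ / B * (E₀ / w₀) * B = κ * (E₀ / w₀) := by field_simp
    have e2 : (A * Q₁ + 1) * E₀ + κ / B * (E₀ / w₀) * (K₁ * w₀) = (A * Q₁ + κ * K₁ / B + 1) * E₀ := by
      field_simp
      ring
    rw [e1, e2] at key
    rw [← hE₀, ← hw₀]
    exact key
  · intro v hv
    obtain ⟨h1, h2⟩ := hT v hv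
    have hTv : 1 ≤ T v := g1.trans (hmon v hv.le)
    have hTR : (0 : ℝ) < T v := by exact_mod_cast hTv
    have h3 := hw (T v) (T (v + 1)) (g2.trans (hmon v hv.le)) h1
    have h4 : ((T (v + 1) : ℝ) / T v) ^ (1 - aw) ≤ (b : ℝ) + 1 := by
      have h5 : (1 : ℝ) ≤ (T (v + 1) : ℝ) / T v := by
        rw [le_div_iff₀ hTR, one_mul]
        exact_mod_cast h1
      have h6 : (T (v + 1) : ℝ) / T v ≤ b := by
        rw [div_le_iff₀ hTR]
        exact_mod_cast h2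
      calc ((T (v + 1) : ℝ) / T v) ^ (1 - aw) ≤ ((T (v + 1) : ℝ) / T v) ^ (1 : ℝ) :=
            Real.rpow_le_rpow_of_exponent_le h5 (by linarith)
        _ = (T (v + 1) : ℝ) / T v := Real.rpow_one _
        _ ≤ (b : ℝ) + 1 := by linarith
    have hwv : 0 < wd μ s (T v) := h.wd_pos hTv
    have h7 : wd μ s (T (v + 1)) ≤ B * wd μ s (T v) := by
      refine h3.trans (mul_le_mul_of_nonneg_right ?_ hwv.le)
      refine (mul_le_mul_of_nonneg_left h4 hKw.le).trans ?_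
      rw [hB]
      exact le_max_right _ _
    have h8 := mul_le_mul_of_nonneg_left h7 hK0.le
    show K₁ * wd μ s (T (v + 1)) ≤ B * (K₁ * wd μ s (T v))
    linarith
  · intro v hv
    have h1 := hgr v hv
    show A * (((T v : ℝ) / T 0) ^ g * EE μ s (T v)) ≤ κ / B * (E₀ / w₀) * (K₁ * wd μ s (T v)) + (A * Q₁ + 1) * E₀
    have hwv : 0 < wd μ s (T v) := h.wd_pos (g1.trans (hmon v hv))
    have h2 : κ / (2 * B) * (E₀ / w₀) * (K₁ * wd μ s (T v)) ≤ κ / B * (E₀ / w₀) * (K₁ * wd μ s (T v)) := by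
      have h3 : κ / (2 * B) ≤ κ / B := div_le_div_of_nonneg_left hκ.le hB0 (by linarith)
      gcongr
    linarith
  · intro x x' hx hx'
    refine (htop x x' hx hx').trans (mul_le_mul_of_nonneg_right (Real.exp_le_exp.2 ?_) (hF x'))
    have h1 := hgr m le_rfl
    rw [← hE₀, ← hw₀]
    have h2 : κ / (2 * B) * (E₀ / w₀) * (K₁ * wd μ s (T m)) ≤ κ / 2 * (E₀ / w₀) * |(x : ℝ) - x₀| := by
      have h3 : κ / (2 * B) ≤ κ / 2 := div_le_div_of_nonneg_left hκ.le (by norm_num) (by linarith)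
      calc κ / (2 * B) * (E₀ / w₀) * (K₁ * wd μ s (T m)) ≤ κ / (2 * B) * (E₀ / w₀) * |(x : ℝ) - x₀| :=
            mul_le_mul_of_nonneg_left hx.le (by positivity)
        _ ≤ κ / 2 * (E₀ / w₀) * |(x : ℝ) - x₀| :=
          mul_le_mul_of_nonneg_right (mul_le_mul_of_nonneg_right h3 (by positivity)) (abs_nonneg _)
    have e1 : κ / B * (E₀ / w₀) * B * |(x : ℝ) - x₀| = κ * (E₀ / w₀) * |(x : ℝ) - x₀| := by field_simp
    have e2 : κ * (E₀ / w₀) * |(x : ℝ) - x₀| = κ / 2 * (E₀ / w₀) * |(x : ℝ) - x₀| + κ / 2 * (E₀ / w₀) * |(x : ℝ) - x₀| := by ring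
    have h4 : 0 ≤ κ / B * (E₀ / w₀) * (K₁ * w₀) := by positivity
    linarith [e1, e2, h4, h1, h2, show 0 ≤ κ / B * (E₀ / w₀) * (K₁ * wd μ s (T 0)) by rw [← hw₀]; exact h4,
      show (A * Q₁ + 1) * E₀ = A * Q₁ * E₀ + E₀ by ring]

end

end Pool.Agent.W_7d29a1_C1.DD84
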