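import Pool.Agent.W_7d29a1_C1.DDI84
import Pool.Agent.W_7d29a1_C1.DDM84
import Pool.Agent.W_7d29a1_HL.Cor

/-!
[C1] attractor route, DD84 (helper84): the numbers for `DDI84`.

* `gr_num`: one level of a lower scale against the unit of a larger scale: `gr P (wd n / wd m - 1) EE m ≤ D r ^ i EE n` for `2 ^ i m ≤ n`;
* `geo_sum`: the geometric sum;
* `gr_lin`: `gr P X ≤ δ X + Cδ`;
* `scale_num`: exact monotonicity of the width and of the slope for the ratio at least `K₀`.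
-/

set_option autoImplicit false

namespace Pool.Agent.W_7d29a1_C1.DD84

open MeasureTheory ProbabilityTheory Filter Topology
open Pool.Agent.W_7d29a1_F Pool.Agent.W_7d29a1_h4g Pool.Agent.W_7d29a1_H Pool.Agent.W_7d29a1_HS
open Pool.Agent.W_7d29a1_C1.FarK89

noncomputable section

theorem geo_sum {r : ℝ} (hr0 : 0 ≤ r) (hr1 : r < 1) (u i : ℕ) : ∑ v ∈ Finset.Ico u (u + i + 1), r ^ (u + i - v) ≤ 1 / (1 - r) := by
  have h1 : 0 < 1 - r := by linarith
  induction i with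
  | zero =>
    simp only [add_zero, Nat.Ico_succ_singleton, Finset.sum_singleton, Nat.sub_self, pow_zero]
    rw [le_div_iff₀ h1]
    linarith
  | succ i ih =>
    rw [Finset.sum_Ico_succ_top (by omega)]
    have h2 : ∑ v ∈ Finset.Ico u (u + (i + 1)), r ^ (u + (i + 1) - v) = r * ∑ v ∈ Finset.Ico u (u + i + 1), r ^ (u + i - v) := by
      rw [Finset.mul_sum]
      refine Finset.sum_congr rfl fun v hv => ?_
      rw [Finset.mem_Ico] at hv
      rw [show u + (i + 1) - v = (u + i - v) + 1 by omega, pow_succ]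
      ring
    rw [h2, Nat.sub_self, pow_zero]
    have h3 := mul_le_mul_of_nonneg_left ih hr0
    have e1 : r * (1 / (1 - r)) + 1 = 1 / (1 - r) := by
      field_simp
      ring
    linarith

theorem gr_lin (P : ℕ) {δ : ℝ} (hδ : 0 < δ) {X : ℝ} (hX : 0 ≤ X) : gr P X ≤ δ * X + (δ + CP P ^ 2 / δ) := by
  have hCP := CP_pos P
  have h1 : gr P X ≤ CP P * Real.sqrt (1 + X) := by
    unfold gr
    exact log_pow_le P (Y := 1 + X) (by linarith)
  obtain ⟨y, hy⟩ : ∃ y, y = Real.sqrt (1 + X) := ⟨_, rfl⟩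
  have hy2 : y ^ 2 = 1 + X := by rw [hy]; exact Real.sq_sqrt (by linarith)
  rw [← hy] at h1
  refine h1.trans ?_
  have h2 : 0 ≤ (δ * y - CP P) ^ 2 / δ := by positivity
  have h3 : (δ * y - CP P) ^ 2 / δ = δ * y ^ 2 - 2 * (CP P * y) + CP P ^ 2 / δ := by
    field_simp
    ring
  have hy0 : 0 ≤ y := by rw [hy]; exact Real.sqrt_nonneg _
  have h4 : 0 ≤ CP P * y := by positivity
  have h5 : δ * X + (δ + CP P ^ 2 / δ) = δ * y ^ 2 + CP P ^ 2 / δ := by rw [hy2]; ring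
  linarith

variable {μ : Measure ℝ} [IsProbabilityMeasure μ] {s c C : ℝ} {n₀ : ℕ}

/-- One level of the scale `m` against the unit of the scale `n ≥ 2 ^ i m`. -/
theorem gr_num (h : In μ s c C n₀) (P : ℕ) : ∃ (D r : ℝ) (n₁ : ℕ), 1 ≤ D ∧ 0 < r ∧ r < 1 ∧ 1 ≤ n₁ ∧ ∀ m n i : ℕ, n₁ ≤ m →
    2 ^ i * m ≤ n → wd μ s m ≤ wd μ s n → gr P (wd μ s n / wd μ s m - 1) * EE μ s m ≤ D * r ^ i * EE μ s n := by
  obtain ⟨a, n₂, ha, ha1, hn2, hE⟩ := Pool.Agent.W_7d29a1_HL.EE_pow h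
  obtain ⟨K, aw, n₃, hK, haw, hn3, hw⟩ := wd_pow h
  have hCP := CP_pos P
  obtain ⟨K', hK'⟩ : ∃ K', K' = max K 1 := ⟨_, rfl⟩
  have hK1 : 1 ≤ K' := by rw [hK']; exact le_max_right _ _
  have hKK : K ≤ K' := by rw [hK']; exact le_max_left _ _
  have hL0 : 0 ≤ Real.log K' := Real.log_nonneg hK1
  obtain ⟨D₀, hD₀⟩ : ∃ D₀ : ℝ, D₀ = 2 * ((1 + Real.log K') ^ P * ((1 / a) ^ P * CP P)) := ⟨_, rfl⟩
  have hD0 : 0 < D₀ := by rw [hD₀]; positivity
  refine ⟨max 1 D₀, (2 : ℝ) ^ (-(a / 2)), max n₂ n₃, le_max_left _ _, by positivity, ?_, hn2.trans (le_max_left _ _),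
    fun m n i hm hmn hww => ?_⟩
  · exact Real.rpow_lt_one_of_one_lt_of_neg (by norm_num) (by linarith)
  have g2 : n₂ ≤ m := (le_max_left _ _).trans hm
  have g3 : n₃ ≤ m := (le_max_right _ _).trans hm
  have hm1 : 1 ≤ m := hn2.trans g2
  have h2i : 1 ≤ 2 ^ i := Nat.one_le_two_pow
  have hmn' : m ≤ n := (Nat.le_mul_of_pos_left m h2i).trans hmn
  have hm0 : (0 : ℝ) < m := by exact_mod_cast hm1
  have hwm := h.wd_pos hm1
  have hwn := h.wd_pos (hm1.trans hmn')
  have hEm := EE_pos (μ := μ) (s := s) m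
  have hEn := EE_pos (μ := μ) (s := s) n
  obtain ⟨x, hx⟩ : ∃ x : ℝ, x = (n : ℝ) / m := ⟨_, rfl⟩
  have hxi : (2 : ℝ) ^ i ≤ x := by
    rw [hx, le_div_iff₀ hm0]
    exact_mod_cast hmn
  have hx1 : 1 ≤ x := (one_le_pow₀ (by norm_num : (1 : ℝ) ≤ 2)).trans hxi
  have hx0 : 0 < x := by linarith
  have hlx : 0 ≤ Real.log x := Real.log_nonneg hx1
  have e1 := hE m n g2 hmn'
  have e2 := hw m n g3 hmn'
  rw [← hx] at e1 e2
  -- the growth
  have h1 : gr P (wd μ s n / wd μ s m - 1) ≤ (1 + Real.log K') ^ P * ((1 / a) ^ P * CP P) * x ^ (a / 2) := by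
    have hy : wd μ s n / wd μ s m ≤ K' * x := by
      rw [div_le_iff₀ hwm]
      have h2 : x ^ (1 - aw) ≤ x := by
        calc x ^ (1 - aw) ≤ x ^ (1 : ℝ) := Real.rpow_le_rpow_of_exponent_le hx1 (by linarith)
          _ = x := Real.rpow_one _
      calc wd μ s n ≤ K * x ^ (1 - aw) * wd μ s m := e2
        _ ≤ K' * x * wd μ s m := mul_le_mul_of_nonneg_right (mul_le_mul hKK h2 (by positivity) (by linarith)) hwm.le
    have hy1 : 1 ≤ wd μ s n / wd μ s m := by rwa [one_le_div hwm]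
    have h3 : Real.log (1 + (wd μ s n / wd μ s m - 1)) ≤ Real.log K' + Real.log x := by
      rw [add_sub_cancel, ← Real.log_mul (by linarith) hx0.ne']
      exact Real.log_le_log (by linarith) hy
    have h4 : 0 ≤ Real.log (1 + (wd μ s n / wd μ s m - 1)) := by
      rw [add_sub_cancel]
      exact Real.log_nonneg hy1
    have h5 : gr P (wd μ s n / wd μ s m - 1) ≤ ((1 + Real.log K') * (1 / a * (1 + a * Real.log x))) ^ P := by
      unfold gr
      refine pow_le_pow_left₀ (by linarith) ?_ P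
      have h6 : 1 + Real.log x ≤ 1 / a * (1 + a * Real.log x) := by
        have h7 : 1 / a * (1 + a * Real.log x) = 1 / a + Real.log x := by
          field_simp
        have h8 : 1 ≤ 1 / a := by
          rw [le_div_iff₀ ha]
          linarith
        rw [h7]
        linarith
      have h9 : 1 + Real.log (1 + (wd μ s n / wd μ s m - 1)) ≤ (1 + Real.log K') * (1 + Real.log x) := by
        nlinarith [mul_nonneg hL0 hlx]
      exact h9.trans (mul_le_mul_of_nonneg_left h6 (by linarith))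
    refine h5.trans ?_
    rw [mul_pow, mul_pow]
    have h6 : (1 + a * Real.log x) ^ P ≤ CP P * x ^ (a / 2) := by
      have h7 := log_pow_le P (Y := x ^ a) (Real.one_le_rpow hx1 ha.le)
      rw [Real.log_rpow hx0] at h7
      have h8 : Real.sqrt (x ^ a) = x ^ (a / 2) := by
        rw [Real.sqrt_eq_rpow, ← Real.rpow_mul hx0.le]
        congr 1
        ring
      rwa [h8] at h7
    calc (1 + Real.log K') ^ P * ((1 / a) ^ P * (1 + a * Real.log x) ^ P) ≤
        (1 + Real.log K') ^ P * ((1 / a) ^ P * (CP P * x ^ (a / 2))) := by gcongr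
      _ = _ := by ring
  -- the unit
  have h2 : EE μ s m ≤ 2 * x ^ (-a) * EE μ s n := by
    have h3 : x ^ (-a) * (x ^ a * EE μ s m) ≤ x ^ (-a) * (2 * EE μ s n) := mul_le_mul_of_nonneg_left e1 (by positivity)
    rw [← mul_assoc, ← Real.rpow_add hx0, neg_add_cancel, Real.rpow_zero, one_mul] at h3
    linarith
  have h3 : x ^ (a / 2) * x ^ (-a) ≤ ((2 : ℝ) ^ (-(a / 2))) ^ i := by
    rw [← Real.rpow_add hx0, show a / 2 + -a = -(a / 2) by ring, ← Real.rpow_natCast, ← Real.rpow_mul (by norm_num),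
      mul_comm (-(a / 2)) (i : ℝ), Real.rpow_mul (by norm_num), Real.rpow_natCast]
    exact Real.rpow_le_rpow_of_nonpos (by positivity) hxi (by linarith)
  calc gr P (wd μ s n / wd μ s m - 1) * EE μ s m ≤
      ((1 + Real.log K') ^ P * ((1 / a) ^ P * CP P) * x ^ (a / 2)) * (2 * x ^ (-a) * EE μ s n) :=
        mul_le_mul h1 h2 hEm.le (by positivity)
    _ = D₀ * (x ^ (a / 2) * x ^ (-a)) * EE μ s n := by rw [hD₀]; ring
    _ ≤ max 1 D₀ * ((2 : ℝ) ^ (-(a / 2))) ^ i * EE μ s n := by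
      refine mul_le_mul_of_nonneg_right ?_ hEn.le
      exact mul_le_mul (le_max_right _ _) h3 (by positivity) (by positivity)

/-- The width and the slope are monotone for large ratios. -/
theorem scale_num (h : In μ s c C n₀) : ∃ K₀ n₁ : ℕ, 2 ≤ K₀ ∧ 1 ≤ n₁ ∧ ∀ m n : ℕ, n₁ ≤ m → K₀ * m ≤ n →
    wd μ s m ≤ wd μ s n ∧ EE μ s n / wd μ s n ≤ EE μ s m / wd μ s m := by
  obtain ⟨a, k, ha, hk, n₂, hn2, hr⟩ := wd_ratio h
  obtain ⟨K, b, n₃, hK, hb, hn3, hg⟩ := wd_gain h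
  obtain ⟨N₁, hN₁⟩ := exists_nat_ge ((1 / k) ^ (1 / a))
  obtain ⟨N₂, hN₂⟩ := exists_nat_ge (K ^ (1 / b))
  refine ⟨max 2 (max N₁ N₂), max n₂ n₃, le_max_left _ _, hn2.trans (le_max_left _ _), fun m n hm hmn => ?_⟩
  have g2 : n₂ ≤ m := (le_max_left _ _).trans hm
  have g3 : n₃ ≤ m := (le_max_right _ _).trans hm
  have hm1 : 1 ≤ m := hn2.trans g2
  have hm0 : (0 : ℝ) < m := by exact_mod_cast hm1
  have hK0 : 1 ≤ max 2 (max N₁ N₂) := le_trans (by norm_num) (le_max_left _ _)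
  have hmn' : m ≤ n := (Nat.le_mul_of_pos_left m hK0).trans hmn
  have hwm := h.wd_pos hm1
  have hwn := h.wd_pos (hm1.trans hmn')
  obtain ⟨x, hx⟩ : ∃ x : ℝ, x = (n : ℝ) / m := ⟨_, rfl⟩
  have hxK : ((max 2 (max N₁ N₂) : ℕ) : ℝ) ≤ x := by
    rw [hx, le_div_iff₀ hm0]
    exact_mod_cast hmn
  have hx1' : (N₁ : ℝ) ≤ x := le_trans (by exact_mod_cast (le_max_left _ _).trans (le_max_right _ _)) hxK
  have hx2' : (N₂ : ℝ) ≤ x := le_trans (by exact_mod_cast (le_max_right _ _).trans (le_max_right _ _)) hxK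
  have e1 := hr m n g2 hmn'
  have e2 := hg m n g3 hmn'
  rw [← hx] at e1 e2
  constructor
  · have h1 : 1 / k ≤ x ^ a := by
      have h2 := Real.rpow_le_rpow (by positivity) (hN₁.trans hx1') ha.le
      rw [← Real.rpow_mul (by positivity), one_div a, inv_mul_cancel₀ ha.ne', Real.rpow_one] at h2
      exact h2
    have h3 : 1 ≤ k * x ^ a := by
      have := mul_le_mul_of_nonneg_left h1 hk.le
      rwa [mul_one_div_cancel hk.ne'] at this
    calc wd μ s m = 1 * wd μ s m := (one_mul _).symm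
      _ ≤ k * x ^ a * wd μ s m := mul_le_mul_of_nonneg_right h3 hwm.le
      _ ≤ _ := e1
  · have h1 : K ≤ x ^ b := by
      have h2 := Real.rpow_le_rpow (by positivity) (hN₂.trans hx2') hb.le
      rw [← Real.rpow_mul hK.le, one_div b, inv_mul_cancel₀ hb.ne', Real.rpow_one] at h2
      exact h2
    have hEn := EE_pos (μ := μ) (s := s) n
    have h2 : K * (EE μ s n * wd μ s m) ≤ K * (EE μ s m * wd μ s n) :=
      (mul_le_mul_of_nonneg_right h1 (by positivity)).trans e2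
    rw [div_le_div_iff₀ hwn hwm]
    exact le_of_mul_le_mul_left h2 hK

end

end Pool.Agent.W_7d29a1_C1.DD84
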