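import Pool.Agent.W_7d29a1_C1.DD84

/-!
MP_7d29a1_pr, [C1] attractor route, TAME: THE COMPARISON OF THE PLACES AT ALL THE SCALES IS PUSHED DOWN THROUGH A BLOCK. (helper16)

`G` = the mass at the row above the block, `F x = Σ k x y G y` the mass at a row below it, `r v` = the half width of the window of the scale `v`,
`b ≤ v ≤ m`. If `G y ≤ exp (e v) G y₀` in the window of the scale `v` (all `v ≥ b`), with an envelope beyond the last one, and the kernel decays
linearly, then `F x ≤ exp (e' v) F x'` for `x` in the window of the scale `v` and `x'` in the inner window, `e' v = N + L v + a' + e (v + 1) + B`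
(`push16`, `v < m`); `push_far16`: any place, from one envelope (the last scale and beyond). No arms.
-/

set_option autoImplicit false

namespace Pool.Agent.W_7d29a1_C1.U16

open Finset

noncomputable section

section Push

variable {F G : ℤ → ℝ} {S : ℤ → Finset ℤ} {k : ℤ → ℤ → ℝ} {β β' : ℝ} {y₀ : ℤ} {r e L : ℕ → ℝ} {b m : ℕ}
  {lam a' N B et κ κ' Lt rl : ℝ}

/-- One place: a bound of every term. -/
theorem push_one16 (hF : ∀ x, F x = ∑ y ∈ S x, k x y * G y) (hk : ∀ x y, 0 ≤ k x y) (hG : ∀ y, 0 ≤ G y)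
    (hlow : ∀ x' : ℤ, |(x' : ℝ) - β| ≤ rl → y₀ ∈ S x' ∧ Real.exp (-a') ≤ k x' y₀) (hN : ∀ x, ((S x).card : ℝ) ≤ Real.exp N)
    {x : ℤ} {q : ℝ} (hq : ∀ y ∈ S x, k x y * G y ≤ Real.exp q * G y₀) {x' : ℤ} (hx' : |(x' : ℝ) - β| ≤ rl) :
    F x ≤ Real.exp (N + q + a') * F x' := by
  obtain ⟨h1, h2⟩ := hlow x' hx'
  have h3 : Real.exp (-a') * G y₀ ≤ F x' := by
    rw [hF x']
    exact (mul_le_mul_of_nonneg_right h2 (hG y₀)).trans
      (single_le_sum (f := fun y => k x' y * G y) (fun y _ => mul_nonneg (hk _ _) (hG _)) h1)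
  have h4 : F x ≤ Real.exp N * (Real.exp q * G y₀) := by
    rw [hF x]
    refine (sum_le_sum hq).trans ?_
    rw [sum_const, nsmul_eq_mul]
    exact mul_le_mul_of_nonneg_right (hN x) (mul_nonneg (Real.exp_pos _).le (hG y₀))
  calc F x ≤ Real.exp N * (Real.exp q * G y₀) := h4
    _ = Real.exp (N + q + a') * (Real.exp (-a') * G y₀) := by
        rw [Real.exp_add, Real.exp_add, Real.exp_neg]
        have := Real.exp_pos a'
        field_simp
    _ ≤ _ := mul_le_mul_of_nonneg_left h3 (Real.exp_pos _).le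

/-- The windows grow. -/
theorem push_r16 (hr : ∀ v, b ≤ v → v < m → 2 * r v ≤ r (v + 1)) (hr0 : 0 ≤ r b) : ∀ j, b + j ≤ m → 0 ≤ r (b + j) ∧ ∀ i, i ≤ j → r (b + i) ≤ r (b + j) := by
  intro j
  induction j with
  | zero =>
    intro _
    refine ⟨by simpa using hr0, fun i hi => ?_⟩
    have : i = 0 := by omega
    rw [this]
  | succ j ih =>
    intro hj
    obtain ⟨h1, h2⟩ := ih (by omega)
    have h3 := hr (b + j) (by omega) (by omega)
    have e : b + (j + 1) = b + j + 1 := by ring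
    rw [e]
    refine ⟨by linarith, fun i hi => ?_⟩
    rcases Nat.lt_or_ge i (j + 1) with h4 | h4
    · have := h2 i (by omega)
      linarith
    · have : i = j + 1 := by omega
      rw [this, e]

/-- **THE PUSH**: the scales `b ≤ v < m`. -/
theorem push16 (hF : ∀ x, F x = ∑ y ∈ S x, k x y * G y) (hk : ∀ x y, 0 ≤ k x y) (hG : ∀ y, 0 ≤ G y)
    (hlow : ∀ x' : ℤ, |(x' : ℝ) - β| ≤ rl → y₀ ∈ S x' ∧ Real.exp (-a') ≤ k x' y₀) (hN : ∀ x, ((S x).card : ℝ) ≤ Real.exp N)
    (hr : ∀ v, b ≤ v → v < m → 2 * r v ≤ r (v + 1)) (hr0 : 0 ≤ r b) (hlam : 0 ≤ lam) (hκ : κ ≤ lam / 4) (hB : 0 ≤ B)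
    (he : ∀ v, b ≤ v → v ≤ m → 0 ≤ e v) (hGe : ∀ v, b ≤ v → v ≤ m → ∀ y : ℤ, |(y : ℝ) - β'| ≤ r v → G y ≤ Real.exp (e v) * G y₀)
    (hGt : ∀ y : ℤ, r m < |(y : ℝ) - β'| → G y ≤ Real.exp (et + κ * |(y : ℝ) - β'|) * G y₀)
    (hnum : ∀ v, b ≤ v → v < m → e (v + 1) ≤ lam / 4 * r v + B) (het : et ≤ lam / 4 * r m + B)
    (hup : ∀ v, b ≤ v → v < m → ∀ x : ℤ, |(x : ℝ) - β| ≤ r v → ∀ y ∈ S x, k x y ≤ Real.exp (L v - lam * |((y : ℝ) - β') - ((x : ℝ) - β)|))
    {v : ℕ} (hbv : b ≤ v) (hvm : v < m) {x x' : ℤ} (hx : |(x : ℝ) - β| ≤ r v) (hx' : |(x' : ℝ) - β| ≤ rl) :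
    F x ≤ Real.exp (N + (L v + (e (v + 1) + B)) + a') * F x' := by
  refine push_one16 hF hk hG hlow hN (fun y hy => ?_) hx'
  have h1 := hup v hbv hvm x hx y hy
  have h2 := he (v + 1) (by omega) (by omega)
  obtain ⟨d, hd⟩ : ∃ d : ℝ, d = |((y : ℝ) - β') - ((x : ℝ) - β)| := ⟨_, rfl⟩
  obtain ⟨t, ht⟩ : ∃ t : ℝ, t = |(y : ℝ) - β'| := ⟨_, rfl⟩
  rw [← hd] at h1
  have hd0 : 0 ≤ d := by rw [hd]; exact abs_nonneg _
  have htd : t ≤ d + |(x : ℝ) - β| := by
    rw [hd, ht]
    have := abs_add_le (((y : ℝ) - β') - ((x : ℝ) - β)) ((x : ℝ) - β)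
    rwa [sub_add_cancel] at this
  have hr' := push_r16 hr hr0
  have hrv : ∀ w, v + 1 ≤ w → w ≤ m → 2 * r v ≤ r w := by
    intro w hw hwm
    have g1 := hr v hbv hvm
    have g2 := (hr' (w - b) (by omega)).2 (v + 1 - b) (by omega)
    rw [show b + (w - b) = w by omega, show b + (v + 1 - b) = v + 1 by omega] at g2
    linarith
  -- the bound of `G y`, in the form `exp (e (v+1) + B + lam d)`
  have key : G y ≤ Real.exp (e (v + 1) + B + lam * d) * G y₀ := by
    have mono : ∀ q : ℝ, q ≤ e (v + 1) + B + lam * d → G y ≤ Real.exp q * G y₀ → G y ≤ Real.exp (e (v + 1) + B + lam * d) * G y₀ :=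
      fun q hq h => h.trans (mul_le_mul_of_nonneg_right (Real.exp_le_exp.2 hq) (hG y₀))
    by_cases hc : t ≤ r (v + 1)
    · refine mono _ ?_ (hGe (v + 1) (by omega) (by omega) y (by rw [← ht]; exact hc))
      have : 0 ≤ lam * d := by positivity
      linarith
    · rw [not_le] at hc
      have h3 := hrv (v + 1) le_rfl (by omega)
      -- far from the window of `x`
      have h4 : t / 2 ≤ d := by linarith
      have h5 : lam / 2 * t ≤ lam * d := by nlinarith
      by_cases hcm : t ≤ r m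
      · -- the scale of `y`
        have hex : ∃ j, t ≤ r (v + 1 + j) := ⟨m - (v + 1), by rw [show v + 1 + (m - (v + 1)) = m by omega]; exact hcm⟩
        classical
        obtain ⟨j, hj, hjmin⟩ : ∃ j, t ≤ r (v + 1 + j) ∧ ∀ i, i < j → ¬ t ≤ r (v + 1 + i) :=
          ⟨Nat.find hex, Nat.find_spec hex, fun i hi => Nat.find_min hex hi⟩
        have hjm : v + 1 + j ≤ m := by
          by_contra hcon
          exact hjmin (m - (v + 1)) (by omega) (by rw [show v + 1 + (m - (v + 1)) = m by omega]; exact hcm)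
        have hj0 : 0 < j := by
          rcases Nat.eq_zero_or_pos j with h | h
          · exfalso
            rw [h, add_zero] at hj
            linarith
          · exact h
        have h6 := hjmin (j - 1) (by omega)
        rw [not_le] at h6
        have e1 : v + 1 + j = v + 1 + (j - 1) + 1 := by omega
        rw [e1] at hj
        have h7 := hGe (v + 1 + (j - 1) + 1) (by omega) (by omega) y (by rw [← ht]; exact hj)
        have h8 := hnum (v + 1 + (j - 1)) (by omega) (by omega)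
        refine mono _ ?_ h7
        have h9 : lam / 4 * r (v + 1 + (j - 1)) ≤ lam / 4 * t := mul_le_mul_of_nonneg_left h6.le (by linarith)
        have h10 : 0 ≤ t := by rw [ht]; exact abs_nonneg _
        have h11 : 0 ≤ lam * t := by positivity
        linarith
      · rw [not_le] at hcm
        refine mono _ ?_ (hGt y (by rw [← ht]; exact hcm))
        rw [← ht]
        have h9 : lam / 4 * r m ≤ lam / 4 * t := mul_le_mul_of_nonneg_left hcm.le (by linarith)
        have h10 : 0 ≤ t := by rw [ht]; exact abs_nonneg _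
        have h11 := mul_le_mul_of_nonneg_right hκ h10
        linarith
  calc k x y * G y ≤ Real.exp (L v - lam * d) * (Real.exp (e (v + 1) + B + lam * d) * G y₀) := mul_le_mul h1 key (hG y) (Real.exp_pos _).le
    _ = Real.exp (L v + (e (v + 1) + B)) * G y₀ := by
        rw [← mul_assoc, ← Real.exp_add]
        congr 2
        ring

/-- Every place, from one envelope of `G`. -/
theorem push_far16 (hF : ∀ x, F x = ∑ y ∈ S x, k x y * G y) (hk : ∀ x y, 0 ≤ k x y) (hG : ∀ y, 0 ≤ G y)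
    (hlow : ∀ x' : ℤ, |(x' : ℝ) - β| ≤ rl → y₀ ∈ S x' ∧ Real.exp (-a') ≤ k x' y₀) (hN : ∀ x, ((S x).card : ℝ) ≤ Real.exp N)
    (hκ0 : 0 ≤ κ) (hκ : κ ≤ lam) (hGt : ∀ y : ℤ, G y ≤ Real.exp (et + κ * |(y : ℝ) - β'|) * G y₀)
    {x x' : ℤ} (hup : ∀ y ∈ S x, k x y ≤ Real.exp (Lt + κ' * |(x : ℝ) - β| - lam * |((y : ℝ) - β') - ((x : ℝ) - β)|))
    (hx' : |(x' : ℝ) - β| ≤ rl) : F x ≤ Real.exp (N + (Lt + et + (κ + κ') * |(x : ℝ) - β|) + a') * F x' := by
  refine push_one16 hF hk hG hlow hN (fun y hy => ?_) hx'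
  have h1 := hup y hy
  have h2 := hGt y
  obtain ⟨d, hd⟩ : ∃ d : ℝ, d = |((y : ℝ) - β') - ((x : ℝ) - β)| := ⟨_, rfl⟩
  rw [← hd] at h1
  have hd0 : 0 ≤ d := by rw [hd]; exact abs_nonneg _
  have htd : |(y : ℝ) - β'| ≤ d + |(x : ℝ) - β| := by
    rw [hd]
    have := abs_add_le (((y : ℝ) - β') - ((x : ℝ) - β)) ((x : ℝ) - β)
    rwa [sub_add_cancel] at this
  calc k x y * G y ≤ Real.exp (Lt + κ' * |(x : ℝ) - β| - lam * d) * (Real.exp (et + κ * |(y : ℝ) - β'|) * G y₀) :=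
        mul_le_mul h1 h2 (hG y) (Real.exp_pos _).le
    _ = Real.exp (Lt + κ' * |(x : ℝ) - β| - lam * d + (et + κ * |(y : ℝ) - β'|)) * G y₀ := by
        rw [← mul_assoc, ← Real.exp_add]
    _ ≤ _ := by
        refine mul_le_mul_of_nonneg_right (Real.exp_le_exp.2 ?_) (hG y₀)
        have h3 := mul_le_mul_of_nonneg_left htd hκ0
        have h4 := mul_le_mul_of_nonneg_right hκ hd0
        linarith

end Push

end

end Pool.Agent.W_7d29a1_C1.U16
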