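import Pool.Agent.W_7d29a1_C1.TamK16

/-!
MP_7d29a1_pr, [C1] attractor route, TAME FOR CHAINS, THE TOP BOUNDARY OF THE MODEL ((P2), (P3) of helper40 78521, 79486). (helper16)

`top_model16`: slabs `a ≤ u < e` (from the start `x` of the row `r a` to the row `r e`) with the cost `Q₁`, slabs `e ≤ u < f` with the cost
`Q₂`, cost `Q₃` of the slabs `a ≤ u < f`, all in the unit of the scale `Tt`; the profile `bh16` at the row `r f` is regular with the constant `Q₄` and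
a small slope. Then the mass which is farther than `D wd Tt` from the line at the row `r e` is at most `exp (- G EE Tt)` of the whole,
`D = C₈ (1 + Q₁ + Q₂ + Q₃ + Q₄ + G) ^ 4`.
-/

set_option autoImplicit false

namespace Pool.Agent.W_7d29a1_C1.U16

open MeasureTheory ProbabilityTheory Filter Topology Finset
open Pool.Agent.W_7d29a1_F Pool.Agent.W_7d29a1_h4g Pool.Agent.W_7d29a1_H Pool.Agent.W_7d29a1_HS
open Pool.Agent.W_7d29a1_C1.K91 (wt wt_pos)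
open Pool.Agent.W_7d29a1_C1.K91P (bw bw_pos)
open Pool.Agent.W_7d29a1_C1.H75
open Pool.Agent.W_7d29a1_C1.FarK89 Pool.Agent.W_7d29a1_C1.FarW89

noncomputable section

/-- The level of a composition is polynomial. -/
theorem LQ_poly (P : ℕ) {c A : ℝ} (hc : 0 < c) (hA : 0 < A) : ∃ M : ℝ, 0 < M ∧ ∀ Q : ℝ, 0 ≤ Q → LQ P c (A * Q) ≤ M * (1 + Q) ^ 2 := by
  obtain ⟨k, hk⟩ : ∃ k : ℝ, k = 2 * (P + 1) * CP P * A / c := ⟨_, rfl⟩
  have hCP := CP_pos P
  have hk0 : 0 ≤ k := by rw [hk]; positivity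
  refine ⟨A * CP P * (1 + k) + 1, by positivity, fun Q hQ => ?_⟩
  have h1 : AQ P c (A * Q) = (k * Q) ^ 2 := by
    unfold AQ
    rw [hk]
    congr 1
    field_simp
  have h2 : gr P (AQ P c (A * Q)) ≤ CP P * (1 + k * Q) := by
    unfold gr
    have h3 : 0 ≤ AQ P c (A * Q) := AQ_nonneg _ _ _
    refine (log_pow_le P (show (1 : ℝ) ≤ 1 + AQ P c (A * Q) by linarith)).trans ?_
    refine mul_le_mul_of_nonneg_left ?_ hCP.le
    rw [h1]
    have h4 : 0 ≤ k * Q := by positivity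
    calc Real.sqrt (1 + (k * Q) ^ 2) ≤ Real.sqrt ((1 + k * Q) ^ 2) := Real.sqrt_le_sqrt (by nlinarith)
      _ = 1 + k * Q := Real.sqrt_sq (by linarith)
  unfold LQ
  have h5 : A * Q * gr P (AQ P c (A * Q)) ≤ A * Q * (CP P * (1 + k * Q)) := mul_le_mul_of_nonneg_left h2 (by positivity)
  refine h5.trans ?_
  have h6 : Q * (1 + k * Q) ≤ (1 + k) * (1 + Q) ^ 2 := by nlinarith [mul_nonneg hk0 hQ]
  have h7 : 0 ≤ A * CP P := by positivity
  nlinarith [mul_le_mul_of_nonneg_left h6 h7, sq_nonneg (1 + Q)]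

variable {μ : Measure ℝ} {s : ℝ} [IsProbabilityMeasure μ] {c C : ℝ} {n₀ : ℕ}

/-- **THE TOP BOUNDARY OF THE MODEL.** -/
theorem top_model16 (h0 : In μ s c C n₀) (P : ℕ) {K θ : ℝ} (hK : 4 ≤ K) (hθ : 0 < θ) : ∃ C₈ : ℝ, 0 < C₈ ∧ ∃ n₁ : ℕ, 1 ≤ n₁ ∧
    ∀ {Q₁ Q₂ Q₃ Q₄ G : ℝ}, 0 ≤ Q₁ → 0 ≤ Q₂ → 0 ≤ Q₃ → 0 ≤ Q₄ → 0 ≤ G →
    ∀ {h σ : ℝ} {η : Env} {p : ℕ → ℝ} {M N : ℕ} {κ : Pt} {r T Nr : ℕ → ℕ} {q : ℕ → ℝ} {bs : ℕ → Pt} {a e f Tt : ℕ},
      (∀ k, k < M → p k = Real.exp (s + h)) → (∀ k, M ≤ k → p k = Real.exp s) →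
      Slabs μ s c θ K h P η κ r T Nr q bs a e Tt n₁ Q₁ → Slabs μ s c θ K h P η κ r T Nr q bs e f Tt n₁ Q₂ →
      Slabs μ s c θ K h P η κ r T Nr q bs a f Tt n₁ Q₃ → a ≤ e → e < f →
      (∀ u, a ≤ u → u < f → θ * T u ≤ ((r (u + 1) - r u : ℕ) : ℝ)) → r f ≤ N → (N : ℝ) + 1 ≤ Real.exp (EE μ s Tt) →
      ∀ {x y₀ : ℤ}, |lt μ s κ r a x| ≤ (K - 2) / 2 * wd μ s (T a) - 1 → |lt μ s κ r a x| ≤ K * wd μ s Tt →
      |lt μ s κ r f y₀| ≤ (K - 2) / 2 * wd μ s (T (f - 1)) - 1 → 0 ≤ σ → σ ≤ c / 64 →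
      (∀ y : ℤ, bh16 μ s h η p M N (r f) y ≤ Real.exp ((Q₄ + σ * (|lt μ s κ r f y| / wd μ s Tt)) * EE μ s Tt) * bh16 μ s h η p M N (r f) y₀) →
      ∀ {D : ℝ}, C₈ * (1 + Q₁ + Q₂ + Q₃ + Q₄ + G) ^ 4 ≤ D →
      PM16 (fun a b x z => nk μ s h η p M a (b - a) x z) (bh16 μ s h η p M N) (r a) (r e) x (fun z => D * wd μ s Tt ≤ |lt μ s κ r e z|) ≤
        Real.exp (-(G * EE μ s Tt)) * bh16 μ s h η p M N (r a) x := by
  obtain ⟨C₅, hC₅, n₂, hn₂, H2⟩ := far_up h0 P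
  obtain ⟨C₆, hC₆, n₃, hn₃, H3⟩ := far_low89 h0 P hK hθ
  obtain ⟨C₀, hC₀, H4⟩ := top16 (2 * P)
  obtain ⟨n₄, hn₄⟩ := eventually_atTop.1 ((wd_tendsto h0).eventually_ge_atTop 1)
  have hc0 := h0.c0
  obtain ⟨M₁, hM₁, HL⟩ := LQ_poly (2 * P) (c := c / 8) (A := C₅) (by positivity) hC₅
  obtain ⟨gK, hgK⟩ : ∃ gK : ℝ, gK = gr (2 * P) K := ⟨_, rfl⟩
  have hgK1 : 1 ≤ gK := by rw [hgK]; exact gr_one_le _ (by linarith)
  obtain ⟨A₁, hA₁⟩ : ∃ A₁ : ℝ, A₁ = M₁ * gK + 1 + 1 + C₆ * gK + c / 8 * K + C₀ * (c / 8) * (1 + 8 * (M₁ + 1) / c) ^ 2 + 2 + 1 := ⟨_, rfl⟩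
  have hA₁0 : 0 < A₁ := by rw [hA₁]; positivity
  refine ⟨32 / c * A₁, by positivity, max n₂ (max n₃ (max n₄ 1)), (le_max_right _ _).trans ((le_max_right _ _).trans (le_max_right _ _)), ?_⟩
  intro Q₁ Q₂ Q₃ Q₄ G hQ₁ hQ₂ hQ₃ hQ₄ hG h σ η p M N κ r T Nr q bs a e f Tt hp hp' S1 S2 S3 hae hef hθr hrN hN x y₀ hx hx' hy₀ hσ0 hσ hD2 D hD
  have hpp : ∀ k, 0 < p k := fun k => by
    rcases lt_or_ge k M with h1 | h1
    · rw [hp k h1]; exact Real.exp_pos _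
    · rw [hp' k h1]; exact Real.exp_pos _
  have S := sys_model16 (μ := μ) (s := s) (h := h) (η := η) (p := p) (M := M) (N := N) hpp
  have mono : ∀ {i j : ℕ} {Q : ℝ} {m m' : ℕ}, m' ≤ m → Slabs μ s c θ K h P η κ r T Nr q bs i j Tt m Q →
      Slabs μ s c θ K h P η κ r T Nr q bs i j Tt m' Q := fun hm hS =>
    ⟨hS.q0, hS.K3, hm.trans hS.Tt1, fun u h1 h2 => hm.trans (hS.T1 u h1 h2), hS.TT, hS.NT, hS.rr, hS.b1, hS.b2, hS.b3, hS.far, hS.cost, hS.force⟩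
  have hTt := S3.Tt1
  have hw : 1 ≤ wd μ s Tt := hn₄ Tt (((le_max_left _ _).trans ((le_max_right _ _).trans (le_max_right _ _))).trans hTt)
  have hw0 : 0 < wd μ s Tt := by linarith
  have hE := EE_pos (μ := μ) (s := s) Tt
  have hE1 := one_le_EE (μ := μ) (s := s) Tt
  have S1' := mono (le_max_left n₂ _) S1
  have S2' := mono (le_max_left n₂ _) S2
  have S3' := mono ((le_max_left n₃ _).trans (le_max_right n₂ _)) S3
  -- the rows
  have hra : r a ≤ r e := by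
    have := r_mono (r := r) (a := a) (b := f) S3.rr (e - a) a le_rfl (by omega)
    rwa [Nat.add_sub_cancel' hae] at this
  have hrf : r e ≤ r f := by
    have := r_mono (r := r) (a := a) (b := f) S3.rr (f - e) e hae (by omega)
    rwa [Nat.add_sub_cancel' hef.le] at this
  -- the slope
  obtain ⟨lam, hlam⟩ : ∃ lam : ℝ, lam = hc μ s c Tt / 8 := ⟨_, rfl⟩
  have hcw : hc μ s c Tt * wd μ s Tt = c * EE μ s Tt := by
    unfold hc
    exact div_mul_cancel₀ _ hw0.ne'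
  have hlw : lam * wd μ s Tt = c / 8 * EE μ s Tt := by rw [hlam]; linarith
  have hl0 : 0 < lam := by
    rw [hlam]
    unfold hc
    positivity
  -- the level of the second kernel
  obtain ⟨L₂, hL₂⟩ : ∃ L₂ : ℝ, L₂ = LQ (2 * P) (c / 8) (C₅ * Q₂) + Q₂ := ⟨_, rfl⟩
  have hL₂0 : 0 ≤ L₂ := by
    rw [hL₂]
    have := LQ_nonneg (2 * P) (c₁ := c / 8) (show 0 ≤ C₅ * Q₂ by positivity)
    linarith
  obtain ⟨L₁, hL₁⟩ : ∃ L₁ : ℝ, L₁ = LQ (2 * P) (c / 8) (C₅ * Q₁) * gK + Q₁ := ⟨_, rfl⟩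
  have hLQ1 := LQ_nonneg (2 * P) (c₁ := c / 8) (show 0 ≤ C₅ * Q₁ by positivity)
  have key := H4 S (a := r a) (e := r e) (f := r f) (x := x) (l1 := lt μ s κ r e) (l2 := lt μ s κ r f) (a1 := L₁ * EE μ s Tt)
    (a2 := L₂ * EE μ s Tt) (a3 := C₆ * Q₃ * gK * EE μ s Tt) (b := Q₄ * EE μ s Tt) (lam := lam) (kap := σ * (EE μ s Tt / wd μ s Tt))
    (w := wd μ s Tt) (x0 := lt μ s κ r a x) (X0 := K * wd μ s Tt) (F0 := bh16 μ s h η p M N (r f) y₀) (R := D * wd μ s Tt)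
    (s := EE μ s Tt) (G := G * EE μ s Tt) hra hrf hrN hl0 (by positivity) (by
      have e1 : lam / 8 = c / 64 * (EE μ s Tt / wd μ s Tt) := by
        rw [hlam]
        unfold hc
        ring
      rw [e1]
      exact mul_le_mul_of_nonneg_right hσ (by positivity)) hw0 (by positivity) (S.b0 _ _ hrN).le hx'
    (fun z _ _ => by
      have g1 := H2 hae hp hp' S1' x z
      have e1 : ((z - x : ℤ) : ℝ) - sl μ s * ((r e - r a : ℕ) : ℝ) = lt μ s κ r e z - lt μ s κ r a x :=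
        (lt_sub κ r a e x z hra).symm
      rw [e1, ← hlam] at g1
      refine g1.trans (Real.exp_le_exp.2 ?_)
      have g2 : gr (2 * P) (|lt μ s κ r a x| / wd μ s Tt) ≤ gK := by
        rw [hgK]
        exact gr_mono _ (by positivity) (by rwa [div_le_iff₀ hw0])
      have g3 := mul_le_mul_of_nonneg_right (mul_le_mul_of_nonneg_left g2 hLQ1) hE.le
      rw [hL₁, add_mul, add_mul]
      linarith)
    (fun z _ _ y => by
      have g1 := H2 hef.le hp hp' S2' z y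
      have e1 : ((y - z : ℤ) : ℝ) - sl μ s * ((r f - r e : ℕ) : ℝ) = lt μ s κ r f y - lt μ s κ r e z :=
        (lt_sub κ r e f z y hrf).symm
      rw [e1, ← hlam] at g1
      refine g1.trans (Real.exp_le_exp.2 ?_)
      have g2 : 0 ≤ |lt μ s κ r e z| / wd μ s Tt := by positivity
      have g3 := gr_one_le (2 * P) g2
      rw [gr_fq (2 * P) g2, hL₂]
      have g4 := mul_le_mul_of_nonneg_left g3 (mul_nonneg hQ₂ hE.le)
      have e2 : (LQ (2 * P) (c / 8) (C₅ * Q₂) + Q₂) * EE μ s Tt * gr (2 * P) (|lt μ s κ r e z| / wd μ s Tt) =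
        LQ (2 * P) (c / 8) (C₅ * Q₂) * gr (2 * P) (|lt μ s κ r e z| / wd μ s Tt) * EE μ s Tt +
          Q₂ * EE μ s Tt * gr (2 * P) (|lt μ s κ r e z| / wd μ s Tt) := by ring
      rw [e2, add_mul]
      linarith)
    (fun y _ _ => by
      refine (hD2 y).trans (le_of_eq ?_)
      congr 2
      field_simp) (by
      have g1 := H3 (by omega) hp hp' S3' hθr 0 x y₀ (by rwa [sub_zero]) (by rwa [sub_zero])
      rw [abs_zero, zero_div, zero_add, ← hgK] at g1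
      have g2 := one_le16 S (hra.trans hrf) hrN x y₀
      exact (mul_le_mul_of_nonneg_right g1 (S.b0 _ _ hrN).le).trans g2) hN (by
      -- numbers
      obtain ⟨X, hX⟩ : ∃ X : ℝ, X = 1 + Q₁ + Q₂ + Q₃ + Q₄ + G := ⟨_, rfl⟩
      rw [← hX] at hD
      have hX1 : 1 ≤ X := by rw [hX]; linarith
      have hX4 : X ≤ X ^ 4 := by
        calc X = X ^ 1 := (pow_one X).symm
          _ ≤ X ^ 4 := pow_le_pow_right₀ hX1 (by norm_num)
      have hX2 : X ^ 2 ≤ X ^ 4 := pow_le_pow_right₀ hX1 (by norm_num)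
      have hX14 : 1 ≤ X ^ 4 := one_le_pow₀ hX1
      have l1 : LQ (2 * P) (c / 8) (C₅ * Q₁) ≤ M₁ * X ^ 4 := by
        refine (HL Q₁ hQ₁).trans (mul_le_mul_of_nonneg_left ?_ hM₁.le)
        refine le_trans ?_ hX2
        exact pow_le_pow_left₀ (by linarith) (by rw [hX]; linarith) 2
      have l2 : L₂ ≤ (M₁ + 1) * X ^ 2 := by
        rw [hL₂]
        have g1 := HL Q₂ hQ₂
        have g2 : (1 + Q₂) ^ 2 ≤ X ^ 2 := pow_le_pow_left₀ (by linarith) (by rw [hX]; linarith) 2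
        have g3 : Q₂ ≤ X ^ 2 := by
          have k1 : Q₂ ≤ X := by rw [hX]; linarith
          have k2 : X ≤ X ^ 2 := by
            calc X = X ^ 1 := (pow_one X).symm
              _ ≤ X ^ 2 := pow_le_pow_right₀ hX1 (by norm_num)
          exact k1.trans k2
        have g4 := mul_le_mul_of_nonneg_left g2 hM₁.le
        rw [add_mul, one_mul]
        linarith
      have l3 : (1 + L₂ * EE μ s Tt / (lam * wd μ s Tt)) ^ 2 ≤ (1 + 8 * (M₁ + 1) / c) ^ 2 * X ^ 4 := by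
        have g1 : L₂ * EE μ s Tt / (lam * wd μ s Tt) = 8 * L₂ / c := by
          rw [hlw]
          field_simp
        rw [g1]
        have g2 : 1 + 8 * L₂ / c ≤ (1 + 8 * (M₁ + 1) / c) * X ^ 2 := by
          have g3 : 8 * L₂ / c ≤ 8 * (M₁ + 1) / c * X ^ 2 := by
            rw [div_mul_eq_mul_div]
            exact div_le_div_of_nonneg_right (by linarith) hc0.le
          have g4 : (1 : ℝ) ≤ X ^ 2 := one_le_pow₀ hX1
          linarith
        calc (1 + 8 * L₂ / c) ^ 2 ≤ ((1 + 8 * (M₁ + 1) / c) * X ^ 2) ^ 2 := pow_le_pow_left₀ (by positivity) g2 2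
          _ = _ := by ring
      have l4 : C₀ * (lam * wd μ s Tt) * (1 + L₂ * EE μ s Tt / (lam * wd μ s Tt)) ^ 2 ≤
          C₀ * (c / 8) * (1 + 8 * (M₁ + 1) / c) ^ 2 * X ^ 4 * EE μ s Tt := by
        have g1 := mul_le_mul_of_nonneg_left l3 (show 0 ≤ C₀ * (lam * wd μ s Tt) by rw [hlw]; positivity)
        refine g1.trans (le_of_eq ?_)
        rw [hlw]
        ring
      have l5 : lam * (K * wd μ s Tt) = c / 8 * K * EE μ s Tt := by
        rw [← mul_assoc, mul_comm lam K, mul_assoc, hlw]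
        ring
      have l6 : lam / 4 * (D * wd μ s Tt) = c / 32 * D * EE μ s Tt := by
        have : lam / 4 * (D * wd μ s Tt) = D / 4 * (lam * wd μ s Tt) := by ring
        rw [this, hlw]
        ring
      have l7 : A₁ * X ^ 4 ≤ c / 32 * D := by
        have g1 := mul_le_mul_of_nonneg_left hD (show 0 ≤ c / 32 by positivity)
        have g2 : c / 32 * (32 / c * A₁ * X ^ 4) = A₁ * X ^ 4 := by field_simp
        linarith
      have l8 : LQ (2 * P) (c / 8) (C₅ * Q₁) * gK ≤ M₁ * gK * X ^ 4 := by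
        have := mul_le_mul_of_nonneg_right l1 (show 0 ≤ gK by linarith)
        linarith
      have l9 : C₆ * Q₃ * gK ≤ C₆ * gK * X ^ 4 := by
        have g1 : Q₃ ≤ X ^ 4 := le_trans (by rw [hX]; linarith) hX4
        have := mul_le_mul_of_nonneg_left g1 (show 0 ≤ C₆ * gK by positivity)
        linarith
      have l10 : Q₁ ≤ X ^ 4 := le_trans (by rw [hX]; linarith) hX4
      have l11 : Q₄ ≤ X ^ 4 := le_trans (by rw [hX]; linarith) hX4
      have l12 : G ≤ X ^ 4 := le_trans (by rw [hX]; linarith) hX4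
      have l13 : c / 8 * K ≤ c / 8 * K * X ^ 4 := le_mul_of_one_le_right (by positivity) hX14
      rw [l6, l5]
      have fin : (L₁ + Q₄ + C₆ * Q₃ * gK + c / 8 * K + C₀ * (c / 8) * (1 + 8 * (M₁ + 1) / c) ^ 2 * X ^ 4 + 2 + G) ≤ c / 32 * D := by
        refine le_trans ?_ l7
        rw [hL₁, hA₁]
        obtain ⟨Y, hY⟩ : ∃ Y : ℝ, Y = X ^ 4 := ⟨_, rfl⟩
        obtain ⟨Z, hZ⟩ : ∃ Z : ℝ, Z = C₀ * (c / 8) * (1 + 8 * (M₁ + 1) / c) ^ 2 := ⟨_, rfl⟩
        rw [← hY] at l8 l9 l10 l11 l12 l13 hX14 ⊢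
        rw [← hZ]
        have e : (M₁ * gK + 1 + 1 + C₆ * gK + c / 8 * K + Z + 2 + 1) * Y =
          M₁ * gK * Y + Y + Y + C₆ * gK * Y + c / 8 * K * Y + Z * Y + 2 * Y + Y := by ring
        rw [e]
        linarith
      have fin2 := mul_le_mul_of_nonneg_right fin hE.le
      obtain ⟨V, hV⟩ : ∃ V : ℝ, V = C₀ * (c / 8) * (1 + 8 * (M₁ + 1) / c) ^ 2 * X ^ 4 := ⟨_, rfl⟩
      rw [← hV] at fin2 l4
      have e : (L₁ + Q₄ + C₆ * Q₃ * gK + c / 8 * K + V + 2 + G) * EE μ s Tt = L₁ * EE μ s Tt + Q₄ * EE μ s Tt + C₆ * Q₃ * gK * EE μ s Tt +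
        c / 8 * K * EE μ s Tt + V * EE μ s Tt + 2 * EE μ s Tt + G * EE μ s Tt := by ring
      rw [e] at fin2
      linarith)
  exact key

end

end Pool.Agent.W_7d29a1_C1.U16
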