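import Pool.Agent.W_7d29a1_C1.TamK16
import Pool.Agent.W_7d29a1_C1.Push16
import Pool.Agent.W_7d29a1_C1.DDJ84
import Pool.Agent.W_7d29a1_C1.TamL16

/-!
MP_7d29a1_pr, [C1] attractor route, TAME: THE REGULARITY (D2) IN ONE UNIT, PUSHED DOWN THROUGH ANY ROWS, EXPLICIT CONSTANT. (helper16)

`pshQ16`: `FarW89.Slabs` from the row `r a` to the row `r f` with the cost `Q` in the unit `Tt`; at `r f`: `bh16 y ≤ exp ((Q4 + σ |y| / wd) EE) bh16 y₀`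
for all places `y`. Then `bh16 x ≤ exp ((C₉ (1 + Q + Q4) ^ 4 / δ + (σ + δ) |x| / wd) EE) bh16 x'` at the row `r a`, all places `x`, all `x'` of the
inner window. The constant is a polynomial of `Q`, `Q4`.
-/

set_option autoImplicit false

namespace Pool.Agent.W_7d29a1_C1.U16

open MeasureTheory ProbabilityTheory Filter Topology Finset
open Pool.Agent.W_7d29a1_F Pool.Agent.W_7d29a1_h4g Pool.Agent.W_7d29a1_H Pool.Agent.W_7d29a1_HS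
open Pool.Agent.W_7d29a1_C1.K91 (wt wt_pos)
open Pool.Agent.W_7d29a1_C1.K91P (bw bw_pos)
open Pool.Agent.W_7d29a1_C1.H75
open Pool.Agent.W_7d29a1_C1.FarK89 Pool.Agent.W_7d29a1_C1.FarW89 Pool.Agent.W_7d29a1_C1.DD84

noncomputable section

variable {μ : Measure ℝ} {s : ℝ} [IsProbabilityMeasure μ] {c C : ℝ} {n₀ : ℕ}

/-- The numbers. -/
theorem pshQ_num {M CPP C₆ gK Q Q4 δ Λ : ℝ} (hM : 0 < M) (hC₆ : 0 < C₆) (hgK : 1 ≤ gK) (hQ : 0 ≤ Q) (hQ4 : 0 ≤ Q4)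
    (hδ : 0 < δ) (hδ1 : δ ≤ 1) (hΛ0 : 0 ≤ Λ) (hΛ : Λ ≤ M * (1 + Q) ^ 2) :
    1 + (Λ * (δ / (Λ + 1) + CPP ^ 2 / (δ / (Λ + 1))) + Q + Q4) + C₆ * Q * gK ≤
      (4 + CPP ^ 2 * (1 + M) ^ 2 + C₆ * gK) * (1 + Q + Q4) ^ 4 / δ := by
  obtain ⟨u, hu⟩ : ∃ u : ℝ, u = 1 + Q + Q4 := ⟨_, rfl⟩
  rw [← hu]
  have hu1 : 1 ≤ u := by linarith
  have hu0 : 0 ≤ u := by linarith
  have h1u : u ≤ u ^ 4 := le_self_pow₀ hu1 (by norm_num)
  have h11 : 1 ≤ u ^ 4 := one_le_pow₀ hu1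
  have hΛ1 : Λ + 1 ≤ (1 + M) * u ^ 2 := by
    have h1 : (1 + Q) ^ 2 ≤ u ^ 2 := pow_le_pow_left₀ (by linarith) (by linarith) 2
    have h2 : 1 ≤ u ^ 2 := one_le_pow₀ hu1
    have h3 := mul_le_mul_of_nonneg_left h1 hM.le
    linarith
  have hΛ2 : (Λ + 1) ^ 2 ≤ (1 + M) ^ 2 * u ^ 4 := by
    have h1 := pow_le_pow_left₀ (by linarith) hΛ1 2
    have e : ((1 + M) * u ^ 2) ^ 2 = (1 + M) ^ 2 * u ^ 4 := by ring
    rwa [e] at h1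
  have e1 : Λ * (δ / (Λ + 1) + CPP ^ 2 / (δ / (Λ + 1))) = δ * (Λ / (Λ + 1)) + CPP ^ 2 * (Λ * (Λ + 1)) / δ := by
    have : Λ + 1 ≠ 0 := by positivity
    field_simp
  have h4 : Λ / (Λ + 1) ≤ 1 := by rw [div_le_one (by linarith)]; linarith
  have h5 : δ * (Λ / (Λ + 1)) ≤ 1 := by
    calc δ * (Λ / (Λ + 1)) ≤ 1 * 1 := mul_le_mul hδ1 h4 (by positivity) (by norm_num)
      _ = 1 := one_mul 1
  have h6 : CPP ^ 2 * (Λ * (Λ + 1)) / δ ≤ CPP ^ 2 * (1 + M) ^ 2 * u ^ 4 / δ := by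
    refine div_le_div_of_nonneg_right ?_ hδ.le
    rw [mul_assoc]
    refine mul_le_mul_of_nonneg_left ?_ (sq_nonneg _)
    refine le_trans ?_ hΛ2
    rw [sq]
    exact mul_le_mul_of_nonneg_right (by linarith) (by linarith)
  have hd : ∀ t : ℝ, 0 ≤ t → t ≤ t / δ := fun t ht => by
    rw [le_div_iff₀ hδ]
    exact mul_le_of_le_one_right ht hδ1
  have h7 : 4 * u ^ 4 ≤ 4 * u ^ 4 / δ := hd _ (by positivity)
  have h8 : C₆ * gK * u ^ 4 ≤ C₆ * gK * u ^ 4 / δ := hd _ (by positivity)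
  have h9 : C₆ * Q * gK ≤ C₆ * gK * u ^ 4 := by
    have h10 : Q ≤ u ^ 4 := by linarith
    have h12 : 0 ≤ C₆ * gK := by positivity
    have := mul_le_mul_of_nonneg_left h10 h12
    linarith [show C₆ * Q * gK = C₆ * gK * Q by ring]
  have e2 : (4 + CPP ^ 2 * (1 + M) ^ 2 + C₆ * gK) * u ^ 4 / δ = 4 * u ^ 4 / δ + CPP ^ 2 * (1 + M) ^ 2 * u ^ 4 / δ +
      C₆ * gK * u ^ 4 / δ := by ring
  rw [e1, e2]
  linarith

/-- **THE PUSH IN ONE UNIT.** -/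
theorem pshQ16 (h0 : In μ s c C n₀) (P : ℕ) {K θ : ℝ} (hK : 4 ≤ K) (hθ : 0 < θ) : ∃ C₉ : ℝ, 0 < C₉ ∧ ∃ n₁ : ℕ, 1 ≤ n₁ ∧
    ∀ {Q Q4 σ δ : ℝ}, 0 ≤ Q → 0 ≤ Q4 → 0 ≤ σ → σ ≤ c / 8 → 0 < δ → δ ≤ 1 →
    ∀ {h : ℝ} {η : Env} {p : ℕ → ℝ} {M N : ℕ} {κ : Pt} {r T Nr : ℕ → ℕ} {q : ℕ → ℝ} {bs : ℕ → Pt} {a f Tt : ℕ},
      (∀ k, k < M → p k = Real.exp (s + h)) → (∀ k, M ≤ k → p k = Real.exp s) →
      Slabs μ s c θ K h P η κ r T Nr q bs a f Tt n₁ Q → a < f → (∀ u, a ≤ u → u < f → θ * T u ≤ ((r (u + 1) - r u : ℕ) : ℝ)) →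
      r f ≤ N → (N : ℝ) + 1 ≤ Real.exp (EE μ s Tt) →
      ∀ {y₀ : ℤ}, |lt μ s κ r f y₀| ≤ (K - 2) / 2 * wd μ s (T (f - 1)) - 1 →
      (∀ y : ℤ, bh16 μ s h η p M N (r f) y ≤ Real.exp ((Q4 + σ * (|lt μ s κ r f y| / wd μ s Tt)) * EE μ s Tt) * bh16 μ s h η p M N (r f) y₀) →
      ∀ x x' : ℤ, |lt μ s κ r a x'| ≤ (K - 2) / 2 * wd μ s (T a) - 1 →
        bh16 μ s h η p M N (r a) x ≤ Real.exp ((C₉ * (1 + Q + Q4) ^ 4 / δ + (σ + δ) * (|lt μ s κ r a x| / wd μ s Tt)) * EE μ s Tt) *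
          bh16 μ s h η p M N (r a) x' := by
  obtain ⟨C₅, hC₅, n₂, hn₂, H2⟩ := far_up h0 P
  obtain ⟨C₆, hC₆, n₃, hn₃, H3⟩ := far_low89 h0 P hK hθ
  obtain ⟨Mq, hMq, HM⟩ := LQ_poly (2 * P) (c := c / 8) (A := C₅) (by have := h0.c0; positivity) hC₅
  have hc0 := h0.c0
  have hCP := CP_pos (2 * P)
  obtain ⟨gKK, hgKK⟩ : ∃ gKK : ℝ, gKK = gr (2 * P) K := ⟨_, rfl⟩
  have hgKK1 : 1 ≤ gKK := by rw [hgKK]; exact gr_one_le _ (by linarith)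
  refine ⟨4 + CP (2 * P) ^ 2 * (1 + Mq) ^ 2 + C₆ * gKK, by positivity, max n₂ n₃, hn₂.trans (le_max_left _ _), ?_⟩
  intro Q Q4 σ δ hQ hQ4 hσ0 hσ hδ hδ1 h η p M N κ r T Nr q bs a f Tt hp hp' hS haf hθr hrN hN y₀ hy₀ hG x x' hx'
  have hpp : ∀ k, 0 < p k := fun k => by
    rcases lt_or_ge k M with h1 | h1
    · rw [hp k h1]; exact Real.exp_pos _
    · rw [hp' k h1]; exact Real.exp_pos _
  have S := sys_model16 (μ := μ) (s := s) (h := h) (η := η) (p := p) (M := M) (N := N) hpp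
  have mono : ∀ {m' : ℕ}, m' ≤ max n₂ n₃ → Slabs μ s c θ K h P η κ r T Nr q bs a f Tt m' Q := fun hm =>
    ⟨hS.q0, hS.K3, hm.trans hS.Tt1, fun u h1 h2 => hm.trans (hS.T1 u h1 h2), hS.TT, hS.NT, hS.rr, hS.b1, hS.b2, hS.b3, hS.far, hS.cost, hS.force⟩
  have hT1 : 1 ≤ Tt := hn₂.trans ((le_max_left _ _).trans hS.Tt1)
  have hw0 : 0 < wd μ s Tt := h0.wd_pos hT1
  have hE := EE_pos (μ := μ) (s := s) Tt
  have hraf : r a ≤ r f := by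
    have := r_mono (r := r) (a := a) (b := f) hS.rr (f - a) a le_rfl (by omega)
    rwa [Nat.add_sub_cancel' haf.le] at this
  obtain ⟨ΛQ, hΛQ⟩ : ∃ ΛQ : ℝ, ΛQ = LQ (2 * P) (c / 8) (C₅ * Q) := ⟨_, rfl⟩
  have hΛ0 : 0 ≤ ΛQ := by rw [hΛQ]; exact LQ_nonneg _ (by positivity)
  have hΛM : ΛQ ≤ Mq * (1 + Q) ^ 2 := by rw [hΛQ]; exact HM Q hQ
  -- the frame
  obtain ⟨β, hβ⟩ : ∃ β : ℝ, β = (κ.2 : ℝ) + sl μ s * (((r a : ℤ) - κ.1 : ℤ) : ℝ) := ⟨_, rfl⟩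
  obtain ⟨β', hβ'⟩ : ∃ β' : ℝ, β' = (κ.2 : ℝ) + sl μ s * (((r f : ℤ) - κ.1 : ℤ) : ℝ) := ⟨_, rfl⟩
  have ea : ∀ x : ℤ, (x : ℝ) - β = lt μ s κ r a x := by
    intro x
    rw [hβ]
    unfold lt lat16
    push_cast
    ring
  have ef : ∀ y : ℤ, (y : ℝ) - β' = lt μ s κ r f y := by
    intro y
    rw [hβ']
    unfold lt lat16
    push_cast
    ring
  -- the slope
  obtain ⟨lam, hlam⟩ : ∃ lam : ℝ, lam = hc μ s c Tt / 8 := ⟨_, rfl⟩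
  have hlw : lam = c / 8 * (EE μ s Tt / wd μ s Tt) := by
    rw [hlam]
    unfold hc
    ring
  have hew : 0 ≤ EE μ s Tt / wd μ s Tt := by positivity
  -- the parts of the push
  have hF : ∀ x, bh16 μ s h η p M N (r a) x = ∑ y ∈ Icc x (x + ((r f - r a : ℕ) : ℤ)), nk μ s h η p M (r a) (r f - r a) x y *
      bh16 μ s h η p M N (r f) y := fun x => S.step (r a) (r f) x hraf hrN
  have hG0 : ∀ y, 0 ≤ bh16 μ s h η p M N (r f) y := fun y => (S.b0 _ _ hrN).le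
  have hlow : ∀ x' : ℤ, |(x' : ℝ) - β| ≤ (K - 2) / 2 * wd μ s (T a) - 1 → y₀ ∈ Icc x' (x' + ((r f - r a : ℕ) : ℤ)) ∧
      Real.exp (-(C₆ * Q * gKK * EE μ s Tt)) ≤ nk μ s h η p M (r a) (r f - r a) x' y₀ := by
    intro x' hx'
    rw [ea] at hx'
    have g1 := H3 haf hp hp' (mono (le_max_right _ _)) hθr 0 x' y₀ (by rwa [sub_zero]) (by rwa [sub_zero])
    rw [abs_zero, zero_div, zero_add, ← hgKK] at g1
    refine ⟨?_, g1⟩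
    by_contra hcon
    rw [mem_Icc] at hcon
    rw [nk_eq_zero _ _ hcon] at g1
    exact absurd g1 (not_le.2 (Real.exp_pos _))
  have hcard : ∀ x : ℤ, ((Icc x (x + ((r f - r a : ℕ) : ℤ))).card : ℝ) ≤ Real.exp (EE μ s Tt) := by
    intro x
    refine le_trans ?_ hN
    rw [Int.card_Icc]
    have : (x + ((r f - r a : ℕ) : ℤ) + 1 - x).toNat ≤ N + 1 := by omega
    exact_mod_cast this
  obtain ⟨δ', hδ'⟩ : ∃ δ' : ℝ, δ' = δ / (ΛQ + 1) := ⟨_, rfl⟩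
  have hδ'0 : 0 < δ' := by rw [hδ']; positivity
  obtain ⟨Cδ, hCδ⟩ : ∃ Cδ : ℝ, Cδ = δ' + CP (2 * P) ^ 2 / δ' := ⟨_, rfl⟩
  have key := push_far16 (F := bh16 μ s h η p M N (r a)) (G := bh16 μ s h η p M N (r f)) (S := fun x => Icc x (x + ((r f - r a : ℕ) : ℤ)))
    (k := fun x y => nk μ s h η p M (r a) (r f - r a) x y) (β := β) (β' := β') (y₀ := y₀) (lam := lam) (a' := C₆ * Q * gKK * EE μ s Tt)
    (N := EE μ s Tt) (et := Q4 * EE μ s Tt) (κ := σ * (EE μ s Tt / wd μ s Tt)) (κ' := δ * (EE μ s Tt / wd μ s Tt))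
    (Lt := ΛQ * Cδ * EE μ s Tt + Q * EE μ s Tt) (rl := (K - 2) / 2 * wd μ s (T a) - 1)
    hF (fun x y => nk_nonneg hpp _ _ _ _) hG0 hlow hcard (by positivity) (by
      rw [hlw]
      exact mul_le_mul_of_nonneg_right hσ hew) (fun y => by
      have e : Q4 * EE μ s Tt + σ * (EE μ s Tt / wd μ s Tt) * |(y : ℝ) - β'| = (Q4 + σ * (|lt μ s κ r f y| / wd μ s Tt)) * EE μ s Tt := by
        rw [ef]
        ring
      rw [e]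
      exact hG y) (x := x) (x' := x')
    (fun y _ => by
      have g1 := H2 haf.le hp hp' (mono (le_max_left _ _)) x y
      have e1 : ((y - x : ℤ) : ℝ) - sl μ s * ((r f - r a : ℕ) : ℝ) = lt μ s κ r f y - lt μ s κ r a x := (lt_sub κ r a f x y hraf).symm
      rw [e1, ← hlam, ← hΛQ, ← ea, ← ef] at g1
      refine g1.trans (Real.exp_le_exp.2 ?_)
      have g2 := gr_lin (2 * P) hδ'0 (show 0 ≤ |(x : ℝ) - β| / wd μ s Tt by positivity)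
      rw [← hCδ] at g2
      have g3 := mul_le_mul_of_nonneg_right (mul_le_mul_of_nonneg_left g2 hΛ0) hE.le
      have g4 : ΛQ * (δ' * (|(x : ℝ) - β| / wd μ s Tt) + Cδ) * EE μ s Tt = ΛQ * δ' * ((EE μ s Tt / wd μ s Tt) * |(x : ℝ) - β|) +
          ΛQ * Cδ * EE μ s Tt := by ring
      have g5 : ΛQ * δ' ≤ δ := by
        rw [hδ', mul_div_assoc', div_le_iff₀ (by positivity), mul_comm δ]
        exact mul_le_mul_of_nonneg_right (by linarith only) hδ.le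
      have g6 : 0 ≤ (EE μ s Tt / wd μ s Tt) * |(x : ℝ) - β| := mul_nonneg hew (abs_nonneg _)
      have g7 := mul_le_mul_of_nonneg_right g5 g6
      rw [add_mul]
      linarith only [g3, g4, g7]) (by rwa [ea])
  refine key.trans (mul_le_mul_of_nonneg_right (Real.exp_le_exp.2 ?_) (S.b0 _ _ (hraf.trans hrN)).le)
  have hnum := pshQ_num (M := Mq) (CPP := CP (2 * P)) (C₆ := C₆) (gK := gKK) (Q := Q) (Q4 := Q4) (δ := δ) (Λ := ΛQ) hMq hC₆ hgKK1 hQ hQ4 hδ hδ1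
    hΛ0 hΛM
  rw [← hδ', ← hCδ] at hnum
  have g8 := mul_le_mul_of_nonneg_right hnum hE.le
  rw [ea]
  have e3 : EE μ s Tt + (ΛQ * Cδ * EE μ s Tt + Q * EE μ s Tt + Q4 * EE μ s Tt +
      (σ * (EE μ s Tt / wd μ s Tt) + δ * (EE μ s Tt / wd μ s Tt)) * |lt μ s κ r a x|) + C₆ * Q * gKK * EE μ s Tt =
      (1 + (ΛQ * Cδ + Q + Q4) + C₆ * Q * gKK) * EE μ s Tt + (σ + δ) * (|lt μ s κ r a x| / wd μ s Tt) * EE μ s Tt := by ring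
  rw [e3]
  refine (add_le_add_left g8 _).trans (le_of_eq (by ring))

end

end Pool.Agent.W_7d29a1_C1.U16
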