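import Pool.Agent.W_7d29a1_C1.TamL16

/-!
MP_7d29a1_pr, [C1] attractor route, TAME OF ONE OWN SLAB in the model: arms (conclusion of norm94) + top boundary + `tame_model16`. (helper16)

Tower rows `r₀ + T i`, `T 0 = 0`, `i ≤ m`; ONE start `x` of the row `r₀`; the slab is the block of the rows `r₀ + T 1, .., r₀ + T 2`
(`j = 3` in `norm94`). `MM16` = the masses of the model in the form of `norm94`. `own16`: TAME from the conclusion of `norm94` at `j = 3` and the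
top boundary at the row `r₀ + T m`. `topx16`: the top boundary from `top_model16`.
-/

set_option autoImplicit false

namespace Pool.Agent.W_7d29a1_C1.U16

open MeasureTheory ProbabilityTheory Filter Topology Finset
open Pool.Agent.W_7d29a1_F Pool.Agent.W_7d29a1_h4g Pool.Agent.W_7d29a1_H Pool.Agent.W_7d29a1_HS
open Pool.Agent.W_7d29a1_C1.K91 (wt wt_pos)
open Pool.Agent.W_7d29a1_C1.K91P (bw bw_pos)
open Pool.Agent.W_7d29a1_C1.H75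
open Pool.Agent.W_7d29a1_C1.FarK89 Pool.Agent.W_7d29a1_C1.FarW89

noncomputable section

/-- The mass of the model from `(r₀, x)` through the places `Q` of the row `e`. -/
def PN16 (μ : Measure ℝ) (s h : ℝ) (η : Env) (p : ℕ → ℝ) (M N r₀ e : ℕ) (x : ℤ) (Q : ℤ → Prop) [DecidablePred Q] : ℝ :=
  PM16 (fun a b x z => nk μ s h η p M a (b - a) x z) (bh16 μ s h η p M N) r₀ e x Q

/-- The masses of the tower, frame through the start. -/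
def MM16 (μ : Measure ℝ) (s h : ℝ) (η : Env) (p : ℕ → ℝ) (M N r₀ : ℕ) (T : ℕ → ℕ) (x : ℤ) (ε : ℝ) (i : ℕ) (D : ℝ) : ℝ :=
  PN16 μ s h η p M N r₀ (r₀ + T i) x (fun z => D ≤ ε * ((z : ℝ) - x - sl μ s * T i))

theorem bh16_pos {μ : Measure ℝ} {s h : ℝ} {η : Env} {p : ℕ → ℝ} {M N : ℕ} (hp : ∀ k, 0 < p k) (a : ℕ) (x : ℤ) : 0 < bh16 μ s h η p M N a x := by
  have h1 := wt_pos η a x
  have h2 := bw_pos (w := wt η) (wt_pos η) hp (N - a) a x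
  unfold bh16
  positivity

theorem PN16_nonneg {μ : Measure ℝ} {s h : ℝ} {η : Env} {p : ℕ → ℝ} {M N : ℕ} (hp : ∀ k, 0 < p k) (r₀ e : ℕ) (x : ℤ) (Q : ℤ → Prop)
    [DecidablePred Q] : 0 ≤ PN16 μ s h η p M N r₀ e x Q := by
  unfold PN16 PM16
  exact sum_nonneg fun z _ => mul_nonneg (nk_nonneg hp _ _ _ _) (bh16_pos hp _ _).le

theorem PN16_le {μ : Measure ℝ} {s h : ℝ} {η : Env} {p : ℕ → ℝ} {M N : ℕ} (hp : ∀ k, 0 < p k) (r₀ e : ℕ) (x : ℤ) {Q Q' : ℤ → Prop}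
    [DecidablePred Q] [DecidablePred Q'] (hQ : ∀ z, Q z → Q' z) : PN16 μ s h η p M N r₀ e x Q ≤ PN16 μ s h η p M N r₀ e x Q' := by
  unfold PN16 PM16
  refine sum_le_sum_of_subset_of_nonneg (fun z hz => ?_) fun z _ _ => mul_nonneg (nk_nonneg hp _ _ _ _) (bh16_pos hp _ _).le
  obtain ⟨h1, h2⟩ := mem_filter.1 hz
  exact mem_filter.2 ⟨h1, hQ z h2⟩

theorem MM16_nonneg {μ : Measure ℝ} {s h : ℝ} {η : Env} {p : ℕ → ℝ} {M N : ℕ} (hp : ∀ k, 0 < p k) (r₀ : ℕ) (T : ℕ → ℕ) (x : ℤ) (ε : ℝ)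
    (i : ℕ) (D : ℝ) : 0 ≤ MM16 μ s h η p M N r₀ T x ε i D := PN16_nonneg hp _ _ _ _

theorem MM16_anti {μ : Measure ℝ} {s h : ℝ} {η : Env} {p : ℕ → ℝ} {M N : ℕ} (hp : ∀ k, 0 < p k) (r₀ : ℕ) (T : ℕ → ℕ) (x : ℤ) (ε : ℝ)
    (i : ℕ) : Antitone (MM16 μ s h η p M N r₀ T x ε i) := by
  intro D D' hD
  exact PN16_le hp _ _ _ fun z hz => hD.trans hz

theorem MM16_zero {μ : Measure ℝ} {s h : ℝ} {η : Env} {p : ℕ → ℝ} {M N : ℕ} (s0 : 0 ≤ sl μ s) (s1 : sl μ s ≤ 1) (r₀ : ℕ) (T : ℕ → ℕ)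
    (x : ℤ) {ε : ℝ} (hε : ε = 1 ∨ ε = -1) (i : ℕ) {D : ℝ} (hD : (T i : ℝ) < D) : MM16 μ s h η p M N r₀ T x ε i D = 0 := by
  unfold MM16 PN16
  refine PM16_zero x fun z hz1 hz2 => ?_
  rw [not_le]
  have e : r₀ + T i - r₀ = T i := by omega
  rw [e] at hz2
  have g1 : (0 : ℝ) ≤ (z : ℝ) - x := by
    have : (x : ℝ) ≤ z := by exact_mod_cast hz1
    linarith
  have g2 : (z : ℝ) - x ≤ T i := by
    have : (z : ℝ) ≤ x + T i := by exact_mod_cast hz2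
    linarith
  have g3 : (0 : ℝ) ≤ T i := Nat.cast_nonneg _
  rcases hε with h | h
  · rw [h]
    nlinarith
  · rw [h]
    nlinarith

/-- The two sides. -/
theorem MM16_two {μ : Measure ℝ} {s h : ℝ} {η : Env} {p : ℕ → ℝ} {M N : ℕ} (hp : ∀ k, 0 < p k) (r₀ : ℕ) (T : ℕ → ℕ) (x : ℤ) (i : ℕ) (D : ℝ)
    (Q : ℤ → Prop) [DecidablePred Q] (hQ : ∀ z, Q z → D ≤ |(z : ℝ) - x - sl μ s * T i|) :
    PN16 μ s h η p M N r₀ (r₀ + T i) x Q ≤ MM16 μ s h η p M N r₀ T x 1 i D + MM16 μ s h η p M N r₀ T x (-1) i D := by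
  unfold MM16 PN16 PM16
  have h0 : ∀ z, 0 ≤ nk μ s h η p M r₀ (r₀ + T i - r₀) x z * bh16 μ s h η p M N (r₀ + T i) z :=
    fun z => mul_nonneg (nk_nonneg hp _ _ _ _) (bh16_pos hp _ _).le
  rw [← sum_union_inter]
  refine le_trans (sum_le_sum_of_subset_of_nonneg (fun z hz => ?_) fun z _ _ => h0 z) (le_add_of_nonneg_right (sum_nonneg fun z _ => h0 z))
  obtain ⟨h1, h2⟩ := mem_filter.1 hz
  rw [mem_union, mem_filter, mem_filter]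
  rcases le_abs.1 (hQ z h2) with h3 | h3
  · left
    exact ⟨h1, by rwa [one_mul]⟩
  · right
    exact ⟨h1, by rwa [neg_one_mul]⟩

variable {μ : Measure ℝ} {s : ℝ} [IsProbabilityMeasure μ] {c C : ℝ} {n₀ : ℕ}

/-- **TAME OF THE OWN SLAB**, from the conclusion of `norm94` (`j = 3`) and the top boundary. -/
theorem own16 (h0 : In μ s c C n₀) (P : ℕ) {K θ : ℝ} (hK : 3 ≤ K) (hθ : 0 < θ) : ∃ n₁ : ℕ, 1 ≤ n₁ ∧
    ∀ q R : ℝ, 0 ≤ q → 0 ≤ R → 2 * R ≤ K - 2 → ∃ Q' : ℝ, 0 < Q' ∧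
    ∀ {h : ℝ} {n N₁ N₂ M N : ℕ} {b₁ b₂ κ : Pt} {η : Env} {p : ℕ → ℝ}, n₁ ≤ n → N₁ ≤ n → N₂ ≤ n →
      |h| * wd μ s n ≤ c / 8 * EE μ s n → (∀ k, k < M → p k = Real.exp (s + h)) → (∀ k, M ≤ k → p k = Real.exp s) →
      η ∈ Far16 μ s c θ K n N₁ P b₁ q → η ∈ Far16 μ s c θ K n N₂ P b₂ q → |lat16 μ s κ b₁| ≤ wd μ s n → |lat16 μ s κ b₂| ≤ wd μ s n →
      ∀ {r₀ m : ℕ} {T : ℕ → ℕ}, 3 ≤ m → T 1 ≤ T 2 → T 2 ≤ T 3 → b₁.1 ≤ r₀ → ((r₀ + T 2 : ℕ) : ℤ) ≤ b₁.1 + N₁ →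
      b₂.1 ≤ ((r₀ + T 1 : ℕ) : ℤ) → ((r₀ + T 3 : ℕ) : ℤ) ≤ b₂.1 + N₂ → r₀ + T 3 ≤ N →
      θ * n ≤ T 1 → θ * n ≤ ((T 3 - T 2 : ℕ) : ℝ) →
      ∀ {x : ℤ} {Rx Z e₁ : ℝ}, |lat16 μ s κ ((r₀ : ℤ), x)| ≤ Rx * wd μ s n → Rx ≤ R → Rx * wd μ s n + Z * wd μ s (T 3) ≤ R * wd μ s n →
      (∀ ε : ℝ, ε = 1 ∨ ε = -1 → MM16 μ s h η p M N r₀ T x ε 3 (Z * wd μ s (T 3)) ≤
        2 * T m * (e₁ * bh16 μ s h η p M N r₀ x + MM16 μ s h η p M N r₀ T x ε m (4 ^ (m - 3) * (Z * wd μ s (T m))))) →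
      16 * (T m * e₁) ≤ 1 →
      16 * (T m * PN16 μ s h η p M N r₀ (r₀ + T m) x (fun z => 4 ^ (m - 3) * (Z * wd μ s (T m)) ≤ |(z : ℝ) - x - sl μ s * T m|)) ≤
        bh16 μ s h η p M N r₀ x →
      ∀ (k k' : ℕ) (y y' : ℤ), r₀ + T 1 ≤ k → k ≤ r₀ + T 2 → r₀ + T 1 ≤ k' → k' ≤ r₀ + T 2 →
        |lat16 μ s κ ((k : ℤ), y)| ≤ R * wd μ s n → |lat16 μ s κ ((k' : ℤ), y')| ≤ R * wd μ s n →
        bh16 μ s h η p M N k' y' ≤ Real.exp (Q' * EE μ s n) * bh16 μ s h η p M N k y := by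
  obtain ⟨n₁, hn₁, H⟩ := tame_model16 h0 P hK hθ
  refine ⟨n₁, hn₁, fun q R hq hR hRK => ?_⟩
  obtain ⟨Q', hQ', H⟩ := H q R hq hR hRK
  refine ⟨Q', hQ', ?_⟩
  intro h n N₁ N₂ M N b₁ b₂ κ η p hn hN₁ hN₂ hh hp hp' hη₁ hη₂ hκ₁ hκ₂ r₀ m T hm h12 h23 hb1 hb2 hb3 hb4 hrN hθ1 hθ2 x Rx Z e₁ hx hRx hZ
    harm hnum htop
  have hpp : ∀ k, 0 < p k := fun k => by
    rcases lt_or_ge k M with h1 | h1
    · rw [hp k h1]; exact Real.exp_pos _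
    · rw [hp' k h1]; exact Real.exp_pos _
  have hB := bh16_pos (μ := μ) (s := s) (h := h) (η := η) (M := M) (N := N) hpp r₀ x
  have hwn : 0 ≤ wd μ s n := by
    by_contra hcon
    have h1 := abs_nonneg (lat16 μ s κ b₁)
    linarith
  refine H hn hN₁ hN₂ hh hp hp' hη₁ hη₂ hκ₁ hκ₂ (a := r₀) (b := r₀ + T 1) (c' := r₀ + T 2) (d := r₀ + T 3) hb1 (by omega) (by omega) hb2 hb3
    (by omega) hb4 hrN (by rw [show r₀ + T 1 - r₀ = T 1 by omega]; exact hθ1)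
    (by rw [show r₀ + T 3 - (r₀ + T 2) = T 3 - T 2 by omega]; exact hθ2) (x := x) (hx.trans (mul_le_mul_of_nonneg_right hRx hwn)) ?_
  -- the arms
  have h1 := MM16_two (μ := μ) (s := s) (h := h) (η := η) (p := p) (M := M) (N := N) hpp r₀ T x 3 (Z * wd μ s (T 3))
    (fun z => ¬ |lat16 μ s κ (((r₀ + T 3 : ℕ) : ℤ), z)| ≤ R * wd μ s n) (fun z hz => by
      rw [not_le] at hz
      have e : lat16 μ s κ (((r₀ + T 3 : ℕ) : ℤ), z) = lat16 μ s κ ((r₀ : ℤ), x) + ((z : ℝ) - x - sl μ s * T 3) := by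
        unfold lat16
        push_cast
        ring
      have h2 := abs_add_le (lat16 μ s κ ((r₀ : ℤ), x)) ((z : ℝ) - x - sl μ s * T 3)
      rw [← e] at h2
      linarith)
  have h2 := harm 1 (Or.inl rfl)
  have h3 := harm (-1) (Or.inr rfl)
  -- the top
  have h4 : ∀ ε : ℝ, ε = 1 ∨ ε = -1 → MM16 μ s h η p M N r₀ T x ε m (4 ^ (m - 3) * (Z * wd μ s (T m))) ≤
      PN16 μ s h η p M N r₀ (r₀ + T m) x (fun z => 4 ^ (m - 3) * (Z * wd μ s (T m)) ≤ |(z : ℝ) - x - sl μ s * T m|) := by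
    intro ε hε
    refine PN16_le hpp _ _ _ fun z hz => hz.trans ?_
    rcases hε with g3 | g3
    · rw [g3, one_mul]
      exact le_abs_self _
    · rw [g3, neg_one_mul]
      exact neg_le_abs _
  have h5 := h4 1 (Or.inl rfl)
  have h6 := h4 (-1) (Or.inr rfl)
  obtain ⟨Bx, hBx⟩ : ∃ Bx, Bx = bh16 μ s h η p M N r₀ x := ⟨_, rfl⟩
  obtain ⟨Pm, hPm⟩ : ∃ Pm, Pm = PN16 μ s h η p M N r₀ (r₀ + T m) x (fun z => 4 ^ (m - 3) * (Z * wd μ s (T m)) ≤ |(z : ℝ) - x - sl μ s * T m|) :=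
    ⟨_, rfl⟩
  rw [← hBx] at h2 h3 htop hB ⊢
  rw [← hPm] at h5 h6 htop
  have hT : (0 : ℝ) ≤ T m := Nat.cast_nonneg _
  have h7 : 2 * (T m : ℝ) * (e₁ * Bx + MM16 μ s h η p M N r₀ T x 1 m (4 ^ (m - 3) * (Z * wd μ s (T m)))) ≤ 2 * T m * (e₁ * Bx + Pm) :=
    mul_le_mul_of_nonneg_left (by linarith) (by positivity)
  have h8 : 2 * (T m : ℝ) * (e₁ * Bx + MM16 μ s h η p M N r₀ T x (-1) m (4 ^ (m - 3) * (Z * wd μ s (T m)))) ≤ 2 * T m * (e₁ * Bx + Pm) :=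
    mul_le_mul_of_nonneg_left (by linarith) (by positivity)
  have h9 : 16 * (T m * e₁) * Bx ≤ 1 * Bx := mul_le_mul_of_nonneg_right hnum hB.le
  have h10 : 2 * (T m : ℝ) * (e₁ * Bx + Pm) = 2 * (T m * e₁ * Bx) + 2 * (T m * Pm) := by ring
  have h11 : 16 * (T m * e₁) * Bx = 16 * (T m * e₁ * Bx) := by ring
  unfold PN16 at h1
  linarith

/-- **The top boundary in the frame of the start** from `top_model16`. -/
theorem topx16 (h0 : In μ s c C n₀) (P : ℕ) {K θ : ℝ} (hK : 4 ≤ K) (hθ : 0 < θ) : ∃ C₈ : ℝ, 0 < C₈ ∧ ∃ n₁ : ℕ, 1 ≤ n₁ ∧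
    ∀ {Q₁ Q₂ Q₃ Q₄ G : ℝ}, 0 ≤ Q₁ → 0 ≤ Q₂ → 0 ≤ Q₃ → 0 ≤ Q₄ → 0 ≤ G →
    ∀ {h σ : ℝ} {η : Env} {p : ℕ → ℝ} {M N : ℕ} {κ : Pt} {r T Nr : ℕ → ℕ} {q : ℕ → ℝ} {bs : ℕ → Pt} {a e f Tt : ℕ},
      (∀ k, k < M → p k = Real.exp (s + h)) → (∀ k, M ≤ k → p k = Real.exp s) →
      Slabs μ s c θ K h P η κ r T Nr q bs a e Tt n₁ Q₁ → Slabs μ s c θ K h P η κ r T Nr q bs e f Tt n₁ Q₂ →
      Slabs μ s c θ K h P η κ r T Nr q bs a f Tt n₁ Q₃ → a ≤ e → e < f →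
      (∀ u, a ≤ u → u < f → θ * T u ≤ ((r (u + 1) - r u : ℕ) : ℝ)) → r f ≤ N → (N : ℝ) + 1 ≤ Real.exp (EE μ s Tt) →
      ∀ {x y₀ : ℤ}, |lt μ s κ r a x| ≤ (K - 2) / 2 * wd μ s (T a) - 1 → |lt μ s κ r a x| ≤ K * wd μ s Tt →
      |lt μ s κ r f y₀| ≤ (K - 2) / 2 * wd μ s (T (f - 1)) - 1 → 0 ≤ σ → σ ≤ c / 64 →
      (∀ y : ℤ, bh16 μ s h η p M N (r f) y ≤ Real.exp ((Q₄ + σ * (|lt μ s κ r f y| / wd μ s Tt)) * EE μ s Tt) * bh16 μ s h η p M N (r f) y₀) →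
      ∀ {D t : ℝ}, C₈ * (1 + Q₁ + Q₂ + Q₃ + Q₄ + G) ^ 4 ≤ D → (D + K) * wd μ s Tt ≤ t → r a ≤ r e →
      PN16 μ s h η p M N (r a) (r e) x (fun z => t ≤ |(z : ℝ) - x - sl μ s * ((r e - r a : ℕ) : ℝ)|) ≤
        Real.exp (-(G * EE μ s Tt)) * bh16 μ s h η p M N (r a) x := by
  obtain ⟨C₈, hC₈, n₁, hn₁, H⟩ := top_model16 h0 P hK hθ
  refine ⟨C₈, hC₈, n₁, hn₁, ?_⟩
  intro Q₁ Q₂ Q₃ Q₄ G hQ₁ hQ₂ hQ₃ hQ₄ hG h σ η p M N κ r T Nr q bs a e f Tt hp hp' S1 S2 S3 hae hef hθr hrN hN x y₀ hx hx' hy₀ hσ0 hσ hD2 D t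
    hD ht hre
  have hpp : ∀ k, 0 < p k := fun k => by
    rcases lt_or_ge k M with h1 | h1
    · rw [hp k h1]; exact Real.exp_pos _
    · rw [hp' k h1]; exact Real.exp_pos _
  refine le_trans ?_ (H hQ₁ hQ₂ hQ₃ hQ₄ hG hp hp' S1 S2 S3 hae hef hθr hrN hN hx hx' hy₀ hσ0 hσ hD2 hD)
  show _ ≤ PN16 μ s h η p M N (r a) (r e) x (fun z => D * wd μ s Tt ≤ |lt μ s κ r e z|)
  refine PN16_le hpp _ _ _ fun z g2 => ?_
  have e1 := lt_sub (μ := μ) (s := s) κ r a e x z hre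
  have e2 : (z : ℝ) - x - sl μ s * ((r e - r a : ℕ) : ℝ) = lt μ s κ r e z - lt μ s κ r a x := by
    rw [e1]
    push_cast
    ring
  rw [e2] at g2
  have g3 := abs_sub (lt μ s κ r e z) (lt μ s κ r a x)
  linarith

end

end Pool.Agent.W_7d29a1_C1.U16
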