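import Pool.Agent.W_7d29a1_C1.BlkD61
import Pool.Agent.W_7d29a1_C1.PshQ16
import Pool.Agent.W_7d29a1_C1.TamO16

/-!
MP_7d29a1_pr, the attractor route [C1], TAME: THE PUSH OF D2 THROUGH THE BLOCK BELOW THE TOWER. (helper61)

`unit61` : the change of the unit. `wdm61` : the widths of two heights of ratio at least `K0` are monotone. **`blkP61`** : D2 at the row of the
first cut of the tower (unit `Hs (v1 + 4)`) gives D2 at the row of the last clean cut (unit `Hs v1`), `blk61` and `pshQ16`.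
-/

set_option autoImplicit false
set_option linter.unusedSectionVars false
set_option linter.unusedVariables false

namespace Pool.Agent.W_7d29a1_C1.BlkD61

open MeasureTheory ProbabilityTheory Finset Filter
open Pool.Agent.W_7d29a1_F Pool.Agent.W_7d29a1_h4g Pool.Agent.W_7d29a1_H Pool.Agent.W_7d29a1_HS
open Pool.Agent.W_7d29a1_C1.H75 Pool.Agent.W_7d29a1_C1.U16 Pool.Agent.W_7d29a1_C1.H40 Pool.Agent.W_7d29a1_C1.S71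
open Pool.Agent.W_7d29a1_C1.FarK89 Pool.Agent.W_7d29a1_C1.FarW89 Pool.Agent.W_7d29a1_C1.Dep6 Pool.Agent.W_7d29a1_C1.RB6
open Pool.Agent.W_7d29a1_C1.LyN63 Pool.Agent.W_7d29a1_C1.LayC4 Pool.Agent.W_7d29a1_C1.DD84

noncomputable section

variable {μ : Measure ℝ} [IsProbabilityMeasure μ] {s c C : ℝ} {n₀ : ℕ}

/-- The widths of two heights of a large ratio are monotone. -/
theorem wdm61 (h0 : In μ s c C n₀) : ∃ K0 n₁ : ℕ, 2 ≤ K0 ∧ 1 ≤ n₁ ∧ ∀ m n : ℕ, n₁ ≤ m → K0 * m ≤ n → wd μ s m ≤ wd μ s n := by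
  obtain ⟨a, n₁, ha, ha1, hn1, H⟩ := ee63 h0
  obtain ⟨K0, hK0⟩ := exists_nat_ge ((4 : ℝ) ^ (1 / a))
  refine ⟨max 2 K0, n₁, le_max_left _ _, hn1, fun m n hm hmn => ?_⟩
  have hm1 : 1 ≤ m := hn1.trans hm
  have hm0 : (0 : ℝ) < m := by exact_mod_cast hm1
  have hmn' : m ≤ n := (Nat.le_mul_of_pos_left m (by omega)).trans hmn
  have h1 := wd_growth_one h0 hm1 hmn'
  have h2 := H m n hm hmn'
  have hE := EE_pos (μ := μ) (s := s) n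
  have hw := h0.wd_nonneg n
  obtain ⟨x, hx⟩ : ∃ x : ℝ, x = (n : ℝ) / m := ⟨_, rfl⟩
  have hx4 : (4 : ℝ) ^ (1 / a) ≤ x := by
    rw [hx, le_div_iff₀ hm0]
    have h3 : ((max 2 K0 * m : ℕ) : ℝ) ≤ n := by exact_mod_cast hmn
    have h4 : (4 : ℝ) ^ (1 / a) ≤ ((max 2 K0 : ℕ) : ℝ) := hK0.trans (by exact_mod_cast le_max_right 2 K0)
    have h5 := mul_le_mul_of_nonneg_right h4 hm0.le
    push_cast at h3 h5 ⊢
    linarith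
  have hx0 : 0 < x := lt_of_lt_of_le (Real.rpow_pos_of_pos (by norm_num) _) hx4
  have h3 : x ^ (-a) ≤ 1 / 4 := by
    have h4 := Real.rpow_le_rpow (Real.rpow_nonneg (by norm_num) _) hx4 ha.le
    rw [← Real.rpow_mul (by norm_num), one_div, inv_mul_cancel₀ ha.ne', Real.rpow_one] at h4
    rw [Real.rpow_neg hx0.le, one_div]
    exact inv_anti₀ (by norm_num) h4
  rw [← hx] at h2
  have h4 : EE μ s m ≤ 1 / 2 * EE μ s n := by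
    refine h2.trans ?_
    have := mul_le_mul_of_nonneg_right h3 hE.le
    linarith
  have h5 : wd μ s m * EE μ s n ≤ wd μ s n * EE μ s n := by
    have h6 := mul_le_mul_of_nonneg_right h4 hw
    linarith
  exact le_of_mul_le_mul_right h5 hE

/-- **The change of the unit.** -/
theorem unit61 (h0 : In μ s c C n₀) {H Tt k : ℕ} (hH : 1 ≤ H) (hk : 1 ≤ k) (hHT : H ≤ Tt) (hT : Tt ≤ k * H) (hwH : 0 < wd μ s H)
    (hwT : 0 < wd μ s Tt) {Q σ t : ℝ} (hQ : 0 ≤ Q) (hσ : 0 ≤ σ) (ht : 0 ≤ t) :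
    (Q + σ * (t / wd μ s Tt)) * EE μ s Tt ≤ (k * Q + 2 * σ * (t / wd μ s H)) * EE μ s H := by
  have h1 : EE μ s Tt ≤ (k : ℝ) * EE μ s H := EE_le_mul h0.em s hk hT
  have h2 : EE μ s Tt / wd μ s Tt ≤ 2 * (EE μ s H / wd μ s H) := by
    rw [← mul_div_assoc, div_le_div_iff₀ hwT hwH]
    have := wd_growth_one h0 hH hHT
    linarith
  have h3 := mul_le_mul_of_nonneg_left h1 hQ
  have h4 := mul_le_mul_of_nonneg_left h2 (mul_nonneg hσ ht)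
  have e1 : (Q + σ * (t / wd μ s Tt)) * EE μ s Tt = Q * EE μ s Tt + σ * t * (EE μ s Tt / wd μ s Tt) := by ring
  have e2 : (k * Q + 2 * σ * (t / wd μ s H)) * EE μ s H = Q * (k * EE μ s H) + σ * t * (2 * (EE μ s H / wd μ s H)) := by ring
  rw [e1, e2]
  linarith

/-- **THE PUSH OF D2 THROUGH THE BLOCK**, any number of levels above `G.m`. -/
theorem blkPG61 (h0 : In μ s c C n₀) : ∃ (a0 : ℝ) (K0 : ℕ), 0 < a0 ∧ 2 ≤ K0 ∧ ∀ (P : ℕ) {K θ : ℝ}, 6 ≤ K → 0 < θ → ∃ m1 : ℕ, 1 ≤ m1 ∧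
    ∀ (D Kn : ℕ) {x : ℝ}, 1 < x → ∀ C0 : ℝ, 0 ≤ C0 → ∃ C4 : ℝ, 1 ≤ C4 ∧
    ∀ {ι Λ : Type*} {G : Geo ι Λ} {lat : ι → ℝ} {latC : Cut Λ → ℝ} {w : ℕ → ℝ} {C2 : ℕ} {Z : List (Cut Λ)} {ρ : ι} {u : ℕ}
      {cs : ℕ → Cut Λ} {v0 v1 v2 iL iC iT : ℕ} {A a g A' a' g' q₀ Th : ℝ} {F F' : Cut Λ → Cut Λ → ℝ → Set Env}
      {E : Cut Λ → Cut Λ → Set Env} {E3 : Cut Λ → Cut Λ → Cut Λ → Set Env} {X : Cut Λ → Cut Λ → Cut Λ → Env → ℕ} {Cn : ℕ}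
      {Sw : Finset ℤ} {D' : ℕ} {scN : Cut Λ → Cut Λ → Cut Λ → ℕ} {η : Env} {Hf : Cut Λ → Cut Λ → ℕ} {col : Cut Λ → ℤ},
    G.K = Kn → K0 ≤ Kn → m1 ≤ G.T 0 → OwnL G lat latC w C0 C2 D Z ρ u cs v0 v1 v2 iL iC iT → LvF μ A a g F → LvF μ A' a' g' F' →
    0 ≤ q₀ → 1 ≤ Th → Th ≤ (Kn : ℝ) ^ a0 → Ok6 Sw (dLI6 F F' E q₀ Th D') (dNI6 X Cn F E3 q₀ Th D') lb6 scN Z u η → G.m < D' →
    (∀ x y q, F x y q ⊆ lvS μ s c θ K P Hf col x y q) → (∀ x y, Hf x y = 8 * G.K ^ 2 * G.T (lb6 x y)) →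
    θ * (32 * G.K ^ 2) ≤ 1 → (∀ v, w v ≤ wd μ s (8 * G.K ^ 2 * G.T (v + 1))) →
    (∀ a, |(col a : ℝ) - sl μ s * (a.row : ℝ) - latC a| ≤ 1) →
    ∀ {κ : Pt} {h : ℝ} {p : ℕ → ℝ} {M N : ℕ}, lat ρ = (κ.2 : ℝ) - sl μ s * (κ.1 : ℝ) → 0 ≤ G.row ρ →
    (∀ k, k < M → p k = Real.exp (s + h)) → (∀ k, M ≤ k → p k = Real.exp s) →
    |h| * wd μ s (8 * G.K ^ 2 * G.T (v1 + 4)) ≤ c / 8 * EE μ s (8 * G.K ^ 2 * G.T (v1 + 4)) →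
    (cs iT).row.toNat ≤ N → (N : ℝ) + 1 ≤ Real.exp (EE μ s (8 * G.K ^ 2 * G.T (v1 + 4))) →
    ∀ {Qd σ δ : ℝ}, 0 ≤ Qd → 0 ≤ σ → σ ≤ c / 8 → 0 < δ → δ ≤ 1 →
    ∀ {y₀ : ℤ}, |lat16 μ s κ (((cs iT).row.toNat : ℤ), y₀)| ≤ (K - 4) / 2 * wd μ s (8 * G.K ^ 2 * G.T (v1 + 3)) - 1 →
    (∀ y : ℤ, bh16 μ s h η p M N (cs iT).row.toNat y ≤
      Real.exp ((Qd + σ * (|lat16 μ s κ (((cs iT).row.toNat : ℤ), y)| / wd μ s (8 * G.K ^ 2 * G.T (v1 + 4)))) *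
        EE μ s (8 * G.K ^ 2 * G.T (v1 + 4))) * bh16 μ s h η p M N (cs iT).row.toNat y₀) →
    ∀ x₁ x' : ℤ, |lat16 μ s κ (((cs (iC + (v1 - v0))).row.toNat : ℤ), x')| ≤ (K - 4) / 2 * wd μ s (8 * G.K ^ 2 * G.T v1) - 1 →
      bh16 μ s h η p M N (cs (iC + (v1 - v0))).row.toNat x₁ ≤
        Real.exp ((C4 * (1 + ((1 + q₀) * (Th * x) ^ (v1 + 3 - u)) ^ 2 + Qd) ^ 4 / δ +
          2 * (σ + δ) * (|lat16 μ s κ (((cs (iC + (v1 - v0))).row.toNat : ℤ), x₁)| / wd μ s (8 * G.K ^ 2 * G.T v1))) *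
            EE μ s (8 * G.K ^ 2 * G.T v1)) *
          bh16 μ s h η p M N (cs (iC + (v1 - v0))).row.toNat x' := by
  obtain ⟨a0, K₁, m₁, ha0, hK1, hm1, HB⟩ := blkG61 h0
  obtain ⟨K₂, m₂, hK2, hm2, HW⟩ := wdm61 h0
  obtain ⟨m₃, hm₃⟩ := eventually_atTop.1 ((wd_tendsto h0).eventually_ge_atTop 1)
  refine ⟨a0, max K₁ K₂, ha0, hK1.trans (le_max_left _ _), fun P K θ hK hθ => ?_⟩
  obtain ⟨C₉, hC₉, m₄, hm4, HP⟩ := pshQ16 h0 P (K := K - 2) (θ := θ) (by linarith) hθ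
  refine ⟨max (max m₁ m₂) (max m₃ m₄), hm1.trans ((le_max_left _ _).trans (le_max_left _ _)), fun D Kn x hx C0 hC0 => ?_⟩
  obtain ⟨C3, hC3, HB⟩ := HB P D Kn hx C0 hC0
  refine ⟨max 1 ((Kn : ℝ) ^ 4 * (C₉ * C3 ^ 4)), le_max_left _ _, ?_⟩
  intro ι Λ G lat latC w C2 Z ρ u cs v0 v1 v2 iL iC iT A a g A' a' g' q₀ Th F F' E E3 X Cn Sw D' scN η Hf col hKn hKK hm hO hF hF'
    hq hTh hThK ho hmD hFS hHf hθK hww hcol κ h p M N hκ hrow hp hp' hforce hrN hN Qd σ δ hQd hσ0 hσ hδ hδ1 y₀ hy₀ hG x₁ x' hx'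
  have a1 := hO.iCT
  have a2 := hO.len
  have a3 := hO.v0u
  have a4 := hO.uv1
  have a5 := hO.v1m
  have hmT : ∀ {m' : ℕ}, m' ≤ max (max m₁ m₂) (max m₃ m₄) → ∀ v, m' ≤ 8 * G.K ^ 2 * G.T v := fun {m'} h1 v => by
    have h2 : G.T 0 ≤ G.T v := Tk_mono G.hK (Nat.zero_le _)
    have h3 : G.T v ≤ 8 * G.K ^ 2 * G.T v := Nat.le_mul_of_pos_left _ (by have := G.hK; positivity)
    exact h1.trans (hm.trans (h2.trans h3))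
  have k1 : m₁ ≤ max (max m₁ m₂) (max m₃ m₄) := (le_max_left _ _).trans (le_max_left _ _)
  have k2 : m₂ ≤ max (max m₁ m₂) (max m₃ m₄) := (le_max_right _ _).trans (le_max_left _ _)
  have k3 : m₃ ≤ max (max m₁ m₂) (max m₃ m₄) := (le_max_left _ _).trans (le_max_right _ _)
  have k4 : m₄ ≤ max (max m₁ m₂) (max m₃ m₄) := (le_max_right _ _).trans (le_max_right _ _)
  have hKs : ∀ v j : ℕ, 8 * G.K ^ 2 * G.T (v + j) = Kn ^ j * (8 * G.K ^ 2 * G.T v) := by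
    intro v j
    rw [← hKn]
    show 8 * G.K ^ 2 * (G.T0 * G.K ^ (v + j)) = G.K ^ j * (8 * G.K ^ 2 * (G.T0 * G.K ^ v))
    rw [pow_add G.K v j]
    ring
  have hmono : ∀ {v v' : ℕ}, v ≤ v' → 8 * G.K ^ 2 * G.T v ≤ 8 * G.K ^ 2 * G.T v' := fun {v v'} hv =>
    Nat.mul_le_mul_left _ (Tk_mono G.hK hv)
  have hwm : ∀ {v v' : ℕ}, v ≤ v' → wd μ s (8 * G.K ^ 2 * G.T v) ≤ wd μ s (8 * G.K ^ 2 * G.T v') := fun {v v'} hv => by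
    rcases Nat.eq_or_lt_of_le hv with h1 | h1
    · rw [h1]
    · refine HW _ _ (hmT k2 v) (le_trans ?_ (hmono (show v + 1 ≤ v' from h1)))
      rw [hKs v 1, pow_one]
      exact Nat.mul_le_mul_right _ ((le_max_right _ _).trans hKK)
  have hw1 : ∀ v, 1 ≤ wd μ s (8 * G.K ^ 2 * G.T v) := fun v => hm₃ _ (hmT k3 v)
  obtain ⟨q, bs, -, hS, hlen⟩ := HB (K' := K - 2) hKn ((le_max_left _ _).trans hKK) (k1.trans hm) hO hF hF' hq hTh hThK ho hmD hFS hHf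
    (by linarith) (by linarith) hθK hθ.le hww hcol (n₁ := m₄) (Tt := 8 * G.K ^ 2 * G.T (v1 + 4)) (κ := κ) (hh := h) hκ hrow
    (hmT k4 0) (hmono (by omega)) hforce
  obtain ⟨S, hSd⟩ : ∃ S : ℝ, S = ((1 + q₀) * (Th * x) ^ (v1 + 3 - u)) ^ 2 := ⟨_, rfl⟩
  rw [← hSd] at hS ⊢
  have hS0 : 0 ≤ S := by rw [hSd]; positivity
  -- the labels of the first and of the last layer
  have hla : v1 ≤ lb6 (cs (iC + (v1 - v0))) (cs (iC + (v1 - v0) + 1)) := by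
    have := hO.clsc v1 (by omega) le_rfl
    show v1 ≤ max _ _
    rw [this]
    exact le_max_left _ _
  have hlb : lb6 (cs (iT - 1)) (cs (iT - 1 + 1)) = v1 + 3 := by
    have h1 := hO.twsc (v1 + 3) le_rfl a5
    rw [Nat.sub_self, add_zero] at h1
    have h2 : (cs (iT - 1)).sc ≤ v1 + 3 := by
      rcases Nat.lt_or_ge (iC + (v1 - v0)) (iT - 1) with h3 | h3
      · exact (hO.bl _ h3 (by omega)).1.trans (by omega)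
      · rw [show iT - 1 = iC + (v1 - v0) by omega, hO.clsc v1 (by omega) le_rfl]
        omega
    show max _ _ = _
    rw [show iT - 1 + 1 = iT by omega, h1]
    exact max_eq_right h2
  have key := HP (h := h) (Q := C3 * S) (Q4 := Qd) (σ := σ) (δ := δ) (by positivity) hQd hσ0 hσ hδ hδ1 hp hp' hS a1 hlen hrN hN (y₀ := y₀) (by
    show |lat16 μ s κ (((cs iT).row.toNat : ℤ), y₀)| ≤ (K - 2 - 2) / 2 * wd μ s (8 * G.K ^ 2 * G.T (lb6 (cs (iT - 1)) (cs (iT - 1 + 1)))) - 1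
    rw [hlb, show K - 2 - 2 = K - 4 by ring]
    exact hy₀) hG x₁ x' (by
    show |lat16 μ s κ (((cs (iC + (v1 - v0))).row.toNat : ℤ), x')| ≤ (K - 2 - 2) / 2 *
      wd μ s (8 * G.K ^ 2 * G.T (lb6 (cs (iC + (v1 - v0))) (cs (iC + (v1 - v0) + 1)))) - 1
    refine hx'.trans ?_
    have := mul_le_mul_of_nonneg_left (hwm hla) (show 0 ≤ (K - 4) / 2 by linarith)
    rw [show K - 2 - 2 = K - 4 by ring]
    linarith)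
  refine key.trans (mul_le_mul_of_nonneg_right (Real.exp_le_exp.2 ?_) ?_)
  · show (C₉ * (1 + C3 * S + Qd) ^ 4 / δ + (σ + δ) * (|lat16 μ s κ (((cs (iC + (v1 - v0))).row.toNat : ℤ), x₁)| /
      wd μ s (8 * G.K ^ 2 * G.T (v1 + 4)))) * EE μ s (8 * G.K ^ 2 * G.T (v1 + 4)) ≤ _
    have e1 : 0 ≤ C₉ * (1 + C3 * S + Qd) ^ 4 / δ := by positivity
    refine (unit61 h0 (H := 8 * G.K ^ 2 * G.T v1) (k := Kn ^ 4) (hm1.trans (hmT k1 v1)) (Nat.one_le_pow _ _ (by omega)) (hmono (by omega))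
      (le_of_eq (hKs v1 4)) (by linarith [hw1 v1]) (by linarith [hw1 (v1 + 4)]) e1 (by linarith) (abs_nonneg _)).trans ?_
    refine mul_le_mul_of_nonneg_right (add_le_add ?_ le_rfl) (EE_pos (μ := μ) (s := s) _).le
    have e2 : (1 + C3 * S + Qd) ^ 4 ≤ C3 ^ 4 * (1 + S + Qd) ^ 4 := by
      rw [← mul_pow]
      refine pow_le_pow_left₀ (by positivity) ?_ 4
      nlinarith
    have e3 : (Kn : ℝ) ^ 4 * (C₉ * C3 ^ 4) * ((1 + S + Qd) ^ 4 / δ) ≤ max 1 ((Kn : ℝ) ^ 4 * (C₉ * C3 ^ 4)) * ((1 + S + Qd) ^ 4 / δ) :=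
      mul_le_mul_of_nonneg_right (le_max_right _ _) (by positivity)
    have e4 : ((Kn ^ 4 : ℕ) : ℝ) * (C₉ * (1 + C3 * S + Qd) ^ 4 / δ) ≤ (Kn : ℝ) ^ 4 * (C₉ * C3 ^ 4) * ((1 + S + Qd) ^ 4 / δ) := by
      push_cast
      have e5 := mul_le_mul_of_nonneg_left e2 (show 0 ≤ (Kn : ℝ) ^ 4 * C₉ / δ by positivity)
      calc (Kn : ℝ) ^ 4 * (C₉ * (1 + C3 * S + Qd) ^ 4 / δ) = (Kn : ℝ) ^ 4 * C₉ / δ * (1 + C3 * S + Qd) ^ 4 := by ring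
        _ ≤ (Kn : ℝ) ^ 4 * C₉ / δ * (C3 ^ 4 * (1 + S + Qd) ^ 4) := e5
        _ = _ := by ring
    rw [mul_div_assoc (max 1 ((Kn : ℝ) ^ 4 * (C₉ * C3 ^ 4)))]
    exact e4.trans e3
  · have hpp : ∀ k, 0 < p k := fun k => by
      rcases lt_or_ge k M with h1 | h1
      · rw [hp k h1]; exact Real.exp_pos _
      · rw [hp' k h1]; exact Real.exp_pos _
    exact (bh16_pos hpp _ _).le

/-- **THE PUSH OF D2 THROUGH THE BLOCK.** -/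
theorem blkP61 (h0 : In μ s c C n₀) : ∃ (a0 : ℝ) (K0 : ℕ), 0 < a0 ∧ 2 ≤ K0 ∧ ∀ (P : ℕ) {K θ : ℝ}, 6 ≤ K → 0 < θ → ∃ m1 : ℕ, 1 ≤ m1 ∧
    ∀ (D Kn : ℕ) {x : ℝ}, 1 < x → ∀ C0 : ℝ, 0 ≤ C0 → ∃ C4 : ℝ, 1 ≤ C4 ∧
    ∀ {ι Λ : Type*} {G : Geo ι Λ} {lat : ι → ℝ} {latC : Cut Λ → ℝ} {w : ℕ → ℝ} {C2 : ℕ} {Z : List (Cut Λ)} {ρ : ι} {u : ℕ}
      {cs : ℕ → Cut Λ} {v0 v1 v2 iL iC iT : ℕ} {A a g A' a' g' q₀ Th : ℝ} {F F' : Cut Λ → Cut Λ → ℝ → Set Env}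
      {E : Cut Λ → Cut Λ → Set Env} {E3 : Cut Λ → Cut Λ → Cut Λ → Set Env} {X : Cut Λ → Cut Λ → Cut Λ → Env → ℕ} {Cn : ℕ}
      {Sw : Finset ℤ} {scN : Cut Λ → Cut Λ → Cut Λ → ℕ} {η : Env} {Hf : Cut Λ → Cut Λ → ℕ} {col : Cut Λ → ℤ},
    G.K = Kn → K0 ≤ Kn → m1 ≤ G.T 0 → OwnL G lat latC w C0 C2 D Z ρ u cs v0 v1 v2 iL iC iT → LvF μ A a g F → LvF μ A' a' g' F' →
    0 ≤ q₀ → 1 ≤ Th → Th ≤ (Kn : ℝ) ^ a0 → Ok6 Sw (dLI6 F F' E q₀ Th (G.m + 1)) (dNI6 X Cn F E3 q₀ Th (G.m + 1)) lb6 scN Z u η →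
    (∀ x y q, F x y q ⊆ lvS μ s c θ K P Hf col x y q) → (∀ x y, Hf x y = 8 * G.K ^ 2 * G.T (lb6 x y)) →
    θ * (32 * G.K ^ 2) ≤ 1 → (∀ v, w v ≤ wd μ s (8 * G.K ^ 2 * G.T (v + 1))) →
    (∀ a, |(col a : ℝ) - sl μ s * (a.row : ℝ) - latC a| ≤ 1) →
    ∀ {κ : Pt} {h : ℝ} {p : ℕ → ℝ} {M N : ℕ}, lat ρ = (κ.2 : ℝ) - sl μ s * (κ.1 : ℝ) → 0 ≤ G.row ρ →
    (∀ k, k < M → p k = Real.exp (s + h)) → (∀ k, M ≤ k → p k = Real.exp s) →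
    |h| * wd μ s (8 * G.K ^ 2 * G.T (v1 + 4)) ≤ c / 8 * EE μ s (8 * G.K ^ 2 * G.T (v1 + 4)) →
    (cs iT).row.toNat ≤ N → (N : ℝ) + 1 ≤ Real.exp (EE μ s (8 * G.K ^ 2 * G.T (v1 + 4))) →
    ∀ {Qd σ δ : ℝ}, 0 ≤ Qd → 0 ≤ σ → σ ≤ c / 8 → 0 < δ → δ ≤ 1 →
    ∀ {y₀ : ℤ}, |lat16 μ s κ (((cs iT).row.toNat : ℤ), y₀)| ≤ (K - 4) / 2 * wd μ s (8 * G.K ^ 2 * G.T (v1 + 3)) - 1 →
    (∀ y : ℤ, bh16 μ s h η p M N (cs iT).row.toNat y ≤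
      Real.exp ((Qd + σ * (|lat16 μ s κ (((cs iT).row.toNat : ℤ), y)| / wd μ s (8 * G.K ^ 2 * G.T (v1 + 4)))) *
        EE μ s (8 * G.K ^ 2 * G.T (v1 + 4))) * bh16 μ s h η p M N (cs iT).row.toNat y₀) →
    ∀ x₁ x' : ℤ, |lat16 μ s κ (((cs (iC + (v1 - v0))).row.toNat : ℤ), x')| ≤ (K - 4) / 2 * wd μ s (8 * G.K ^ 2 * G.T v1) - 1 →
      bh16 μ s h η p M N (cs (iC + (v1 - v0))).row.toNat x₁ ≤
        Real.exp ((C4 * (1 + ((1 + q₀) * (Th * x) ^ (v1 + 3 - u)) ^ 2 + Qd) ^ 4 / δ +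
          2 * (σ + δ) * (|lat16 μ s κ (((cs (iC + (v1 - v0))).row.toNat : ℤ), x₁)| / wd μ s (8 * G.K ^ 2 * G.T v1))) *
            EE μ s (8 * G.K ^ 2 * G.T v1)) *
          bh16 μ s h η p M N (cs (iC + (v1 - v0))).row.toNat x' := by
  obtain ⟨a0, K0, h1, h2, H⟩ := blkPG61 h0
  refine ⟨a0, K0, h1, h2, fun P K θ hK hθ => ?_⟩
  obtain ⟨m1, h3, H⟩ := H P hK hθ
  refine ⟨m1, h3, fun D Kn x hx C0 hC0 => ?_⟩
  obtain ⟨C4, h4, H⟩ := H D Kn hx C0 hC0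
  refine ⟨C4, h4, ?_⟩
  intro ι Λ G lat latC w C2 Z ρ u cs v0 v1 v2 iL iC iT A a g A' a' g' q₀ Th F F' E E3 X Cn Sw scN η Hf col hKn hKK hm hO hF hF'
    hq hTh hThK ho
  exact H hKn hKK hm hO hF hF' hq hTh hThK ho (Nat.lt_succ_self _)

end

end Pool.Agent.W_7d29a1_C1.BlkD61
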