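import Mathlib

/-!
Both halves (MP_7d29a1_pr), attractor route [C1]. (helper76)

Exact finite algebra of the weight of a contact seen through one slab.
`m, r` = arrival masses of the left / right group on a row, `Z` = future partition function, TP :
`m y' * r y ≤ m y * r y'` for `y < y'` (LGV). `P2 S f` = sum over ordered pairs `y < y'` of `S`.

* `gini_le`, `gini_sqrt` : if `a m ≤ r ≤ b m` on the window, then the weight of the pairs that have not met
  is at most `(√b - √a)/(√b + √a)` (`= tanh (g/4)`, `b/a = e^g`) : the extremal property of the Gini difference.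
* `nomeet_le` : the same with sources outside the window.
* `binet`, `nomeet_mono`, `weight_le` : Cauchy - Binet through a slab `I`, hence
  `W(slab) ≤ sup ω * P(no meeting before the slab)` for EVERY slab `I ≥ 0`.
* `two_lane` : lower bound for two lanes with balanced masses.
* `slab_compare` : both together, `W(any slab) ≤ C * W(two lane slab)`.
* `exit_markov` : the exit gate by Markov's inequality.
-/

set_option autoImplicit false
set_option linter.unusedSectionVars false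

namespace Pool.Agent.W_7d29a1_C1.Gini76

open Finset

variable {ι κ : Type*} [LinearOrder ι] [LinearOrder κ]

/-- sum over the ordered pairs `y < y'` of `S` -/
noncomputable def P2 (S : Finset ι) (f : ι → ι → ℝ) : ℝ :=
  ∑ y ∈ S, ∑ y' ∈ S, if y < y' then f y y' else 0

/-- the determinant `m(y) r(y') - m(y') r(y)` -/
def NI (m r : ι → ℝ) (y y' : ι) : ℝ := m y * r y' - m y' * r y

theorem P2_mono {S : Finset ι} {f g : ι → ι → ℝ} (h : ∀ y ∈ S, ∀ y' ∈ S, y < y' → f y y' ≤ g y y') :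
    P2 S f ≤ P2 S g := by
  unfold P2
  refine sum_le_sum fun y hy => sum_le_sum fun y' hy' => ?_
  split_ifs with hlt
  · exact h y hy y' hy' hlt
  · exact le_rfl

theorem P2_nonneg {S : Finset ι} {f : ι → ι → ℝ} (h : ∀ y ∈ S, ∀ y' ∈ S, y < y' → 0 ≤ f y y') :
    0 ≤ P2 S f := by
  unfold P2
  refine sum_nonneg fun y hy => sum_nonneg fun y' hy' => ?_
  split_ifs with hlt
  · exact h y hy y' hy' hlt
  · exact le_rfl

theorem P2_mul (S : Finset ι) (c : ℝ) (f : ι → ι → ℝ) : P2 S (fun y y' => c * f y y') = c * P2 S f := by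
  unfold P2
  rw [mul_sum]
  refine sum_congr rfl fun y _ => ?_
  rw [mul_sum]
  refine sum_congr rfl fun y' _ => ?_
  split_ifs <;> simp

theorem P2_add (S : Finset ι) (f g : ι → ι → ℝ) :
    P2 S (fun y y' => f y y' + g y y') = P2 S f + P2 S g := by
  unfold P2
  rw [← sum_add_distrib]
  refine sum_congr rfl fun y _ => ?_
  rw [← sum_add_distrib]
  refine sum_congr rfl fun y' _ => ?_
  split_ifs <;> simp

theorem P2_congr {S : Finset ι} {f g : ι → ι → ℝ} (h : ∀ y ∈ S, ∀ y' ∈ S, y < y' → f y y' = g y y') :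
    P2 S f = P2 S g :=
  le_antisymm (P2_mono fun y hy y' hy' hlt => (h y hy y' hy' hlt).le)
    (P2_mono fun y hy y' hy' hlt => (h y hy y' hy' hlt).ge)

/-- symmetrisation -/
theorem P2_symm_le (S : Finset ι) (u v : ι → ℝ) (hu : ∀ y ∈ S, 0 ≤ u y) (hv : ∀ y ∈ S, 0 ≤ v y) :
    P2 S (fun y y' => u y * v y' + u y' * v y) ≤ (∑ y ∈ S, u y) * ∑ y ∈ S, v y := by
  have h1 : P2 S (fun y y' => u y' * v y) = ∑ y ∈ S, ∑ y' ∈ S, if y' < y then u y * v y' else 0 := by
    unfold P2
    rw [sum_comm]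
  rw [P2_add, h1, sum_mul_sum]
  unfold P2
  rw [← sum_add_distrib]
  refine sum_le_sum fun y hy => ?_
  rw [← sum_add_distrib]
  refine sum_le_sum fun y' hy' => ?_
  have h0 : 0 ≤ u y * v y' := mul_nonneg (hu y hy) (hv y' hy')
  split_ifs with h2 h3
  · exact absurd h3 (not_lt.2 h2.le)
  · simp
  · simp
  · simpa using h0

/-- **Extremal Gini difference, algebraic form.** -/
theorem gini_le (S : Finset ι) (α β : ι → ℝ) (a b : ℝ)
    (ha : ∀ y ∈ S, a * α y ≤ β y) (hb : ∀ y ∈ S, β y ≤ b * α y) :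
    (b - a) * P2 S (NI α β) ≤
      ((∑ y ∈ S, β y) - a * ∑ y ∈ S, α y) * (b * (∑ y ∈ S, α y) - ∑ y ∈ S, β y) := by
  set u : ι → ℝ := fun y => β y - a * α y with hu
  set v : ι → ℝ := fun y => b * α y - β y with hv
  have hu0 : ∀ y ∈ S, 0 ≤ u y := fun y hy => by simp only [hu]; linarith [ha y hy]
  have hv0 : ∀ y ∈ S, 0 ≤ v y := fun y hy => by simp only [hv]; linarith [hb y hy]
  have hU : (∑ y ∈ S, β y) - a * ∑ y ∈ S, α y = ∑ y ∈ S, u y := by
    simp only [hu]; rw [sum_sub_distrib, mul_sum]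
  have hV : b * (∑ y ∈ S, α y) - ∑ y ∈ S, β y = ∑ y ∈ S, v y := by
    simp only [hv]; rw [sum_sub_distrib, mul_sum]
  rw [hU, hV, ← P2_mul]
  refine le_trans (P2_mono fun y hy y' hy' _ => ?_) (P2_symm_le S u v hu0 hv0)
  have e : (b - a) * NI α β y y' = v y * u y' - v y' * u y := by
    simp only [NI, hu, hv]; ring
  rw [e]
  nlinarith [mul_nonneg (hv0 y' hy') (hu0 y hy)]

/-- **`P(no meeting) ≤ tanh (g/4)`.** -/
theorem gini_sqrt (S : Finset ι) (α β : ι → ℝ) (a b : ℝ) (h0 : 0 ≤ a) (hab : a < b)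
    (hα : ∀ y ∈ S, 0 ≤ α y)
    (ha : ∀ y ∈ S, a * α y ≤ β y) (hb : ∀ y ∈ S, β y ≤ b * α y) :
    P2 S (NI α β) ≤ (√b - √a) / (√b + √a) * ((∑ y ∈ S, α y) * ∑ y ∈ S, β y) := by
  have hb0 : 0 < b := lt_of_le_of_lt h0 hab
  have sb : 0 < √b := Real.sqrt_pos.2 hb0
  have sa : 0 ≤ √a := Real.sqrt_nonneg a
  have hs : √a < √b := Real.sqrt_lt_sqrt h0 hab
  have ea : √a * √a = a := Real.mul_self_sqrt h0
  have eb : √b * √b = b := Real.mul_self_sqrt hb0.le
  set A := ∑ y ∈ S, α y with hA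
  set B := ∑ y ∈ S, β y with hB
  have hA0 : 0 ≤ A := sum_nonneg hα
  have hBA : a * A ≤ B := by rw [hA, hB, mul_sum]; exact sum_le_sum ha
  have hB0 : 0 ≤ B := le_trans (mul_nonneg h0 hA0) hBA
  have key := gini_le S α β a b ha hb
  rw [← hA, ← hB] at key
  have k2 : (B - a * A) * (b * A - B) ≤ (√b - √a) ^ 2 * (A * B) := by
    have e1 : (√b - √a) ^ 2 * (A * B) - (B - (√a * √a) * A) * ((√b * √b) * A - B) =
        (B - √a * √b * A) ^ 2 := by ring
    rw [ea, eb] at e1
    linarith [sq_nonneg (B - √a * √b * A)]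
  have k3 : (b - a) = (√b - √a) * (√b + √a) := by nlinarith [ea, eb]
  have hpos : 0 < √b - √a := by linarith
  have hpos' : 0 < √b + √a := by linarith
  rw [div_mul_eq_mul_div, le_div_iff₀ hpos']
  have k4 : (√b - √a) * (P2 S (NI α β) * (√b + √a)) ≤ (√b - √a) * ((√b - √a) * (A * B)) := by
    calc (√b - √a) * (P2 S (NI α β) * (√b + √a)) = (b - a) * P2 S (NI α β) := by rw [k3]; ring
      _ ≤ (B - a * A) * (b * A - B) := key
      _ ≤ (√b - √a) ^ 2 * (A * B) := k2
      _ = (√b - √a) * ((√b - √a) * (A * B)) := by ring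
  exact le_of_mul_le_mul_left k4 hpos

/-- The same, sources outside the window `J` included. -/
theorem nomeet_le (S J : Finset ι) (hJ : J ⊆ S) (m r Z : ι → ℝ) (a b : ℝ) (h0 : 0 ≤ a) (hab : a < b)
    (hm : ∀ y ∈ S, 0 ≤ m y) (hr : ∀ y ∈ S, 0 ≤ r y) (hZ : ∀ y ∈ S, 0 ≤ Z y)
    (ha : ∀ y ∈ J, a * m y ≤ r y) (hb : ∀ y ∈ J, r y ≤ b * m y) :
    P2 S (fun y y' => NI m r y y' * (Z y * Z y')) ≤
      (√b - √a) / (√b + √a) * ((∑ y ∈ S, m y * Z y) * ∑ y ∈ S, r y * Z y) +
        (∑ y ∈ S \ J, m y * Z y) * (∑ y ∈ S, r y * Z y) +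
        (∑ y ∈ S, m y * Z y) * (∑ y ∈ S \ J, r y * Z y) := by
  have hb0 : 0 < b := lt_of_le_of_lt h0 hab
  have hmJ : ∀ y ∈ J, 0 ≤ m y * Z y := fun y hy => mul_nonneg (hm y (hJ hy)) (hZ y (hJ hy))
  have hrJ : ∀ y ∈ J, 0 ≤ r y * Z y := fun y hy => mul_nonneg (hr y (hJ hy)) (hZ y (hJ hy))
  -- the window
  have g1 := gini_sqrt J (fun y => m y * Z y) (fun y => r y * Z y) a b h0 hab hmJ
    (fun y hy => by nlinarith [mul_le_mul_of_nonneg_right (ha y hy) (hZ y (hJ hy))])
    (fun y hy => by nlinarith [mul_le_mul_of_nonneg_right (hb y hy) (hZ y (hJ hy))])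
  have sAJ : (∑ y ∈ J, m y * Z y) ≤ ∑ y ∈ S, m y * Z y :=
    sum_le_sum_of_subset_of_nonneg hJ fun y hy _ => mul_nonneg (hm y hy) (hZ y hy)
  have sBJ : (∑ y ∈ J, r y * Z y) ≤ ∑ y ∈ S, r y * Z y :=
    sum_le_sum_of_subset_of_nonneg hJ fun y hy _ => mul_nonneg (hr y hy) (hZ y hy)
  have hθ : 0 ≤ (√b - √a) / (√b + √a) := by
    have := Real.sqrt_le_sqrt hab.le
    have sb : 0 < √b := Real.sqrt_pos.2 hb0
    exact div_nonneg (by linarith) (by linarith [Real.sqrt_nonneg a])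
  have g2 : P2 J (fun y y' => NI m r y y' * (Z y * Z y')) ≤
      (√b - √a) / (√b + √a) * ((∑ y ∈ S, m y * Z y) * ∑ y ∈ S, r y * Z y) := by
    have e : P2 J (fun y y' => NI m r y y' * (Z y * Z y')) =
        P2 J (NI (fun y => m y * Z y) (fun y => r y * Z y)) :=
      P2_congr fun y _ y' _ _ => by simp only [NI]; ring
    rw [e]
    refine g1.trans (mul_le_mul_of_nonneg_left ?_ hθ)
    exact mul_le_mul sAJ sBJ (sum_nonneg hrJ) (sum_nonneg fun y hy => mul_nonneg (hm y hy) (hZ y hy))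
  -- split
  have hsplit : P2 S (fun y y' => NI m r y y' * (Z y * Z y')) ≤
      P2 J (fun y y' => NI m r y y' * (Z y * Z y')) +
        (∑ y ∈ S \ J, ∑ y' ∈ S, (m y * Z y) * (r y' * Z y')) +
        (∑ y ∈ S, ∑ y' ∈ S \ J, (m y * Z y) * (r y' * Z y')) := by
    have hpos : ∀ y ∈ S, ∀ y' ∈ S, 0 ≤ (m y * Z y) * (r y' * Z y') := fun y hy y' hy' =>
      mul_nonneg (mul_nonneg (hm y hy) (hZ y hy)) (mul_nonneg (hr y' hy') (hZ y' hy'))
    have hle : ∀ y ∈ S, ∀ y' ∈ S, NI m r y y' * (Z y * Z y') ≤ (m y * Z y) * (r y' * Z y') := by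
      intro y hy y' hy'
      simp only [NI]
      nlinarith [mul_nonneg (mul_nonneg (hm y' hy') (hZ y' hy')) (mul_nonneg (hr y hy) (hZ y hy))]
    have eS : P2 S (fun y y' => NI m r y y' * (Z y * Z y')) =
        (∑ y ∈ S \ J, ∑ y' ∈ S, if y < y' then NI m r y y' * (Z y * Z y') else 0) +
        ∑ y ∈ J, ∑ y' ∈ S, if y < y' then NI m r y y' * (Z y * Z y') else 0 := by
      unfold P2
      rw [sum_sdiff hJ]
    have eJ : (∑ y ∈ J, ∑ y' ∈ S, if y < y' then NI m r y y' * (Z y * Z y') else 0) =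
        (∑ y ∈ J, ∑ y' ∈ S \ J, if y < y' then NI m r y y' * (Z y * Z y') else 0) +
        P2 J (fun y y' => NI m r y y' * (Z y * Z y')) := by
      unfold P2
      rw [← sum_add_distrib]
      refine sum_congr rfl fun y _ => ?_
      rw [sum_sdiff hJ]
    have b1 : (∑ y ∈ S \ J, ∑ y' ∈ S, if y < y' then NI m r y y' * (Z y * Z y') else 0) ≤
        ∑ y ∈ S \ J, ∑ y' ∈ S, (m y * Z y) * (r y' * Z y') := by
      refine sum_le_sum fun y hy => sum_le_sum fun y' hy' => ?_
      have hy1 := (mem_sdiff.1 hy).1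
      split_ifs
      · exact hle y hy1 y' hy'
      · exact hpos y hy1 y' hy'
    have b2 : (∑ y ∈ J, ∑ y' ∈ S \ J, if y < y' then NI m r y y' * (Z y * Z y') else 0) ≤
        ∑ y ∈ S, ∑ y' ∈ S \ J, (m y * Z y) * (r y' * Z y') := by
      refine le_trans (b := ∑ y ∈ J, ∑ y' ∈ S \ J, (m y * Z y) * (r y' * Z y')) ?_ ?_
      · refine sum_le_sum fun y hy => sum_le_sum fun y' hy' => ?_
        have hy1 := (mem_sdiff.1 hy').1
        split_ifs
        · exact hle y (hJ hy) y' hy1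
        · exact hpos y (hJ hy) y' hy1
      · refine sum_le_sum_of_subset_of_nonneg hJ fun y hy _ => ?_
        exact sum_nonneg fun y' hy' => hpos y hy y' (mem_sdiff.1 hy').1
    linarith
  have e1 : (∑ y ∈ S \ J, ∑ y' ∈ S, (m y * Z y) * (r y' * Z y')) =
      (∑ y ∈ S \ J, m y * Z y) * (∑ y ∈ S, r y * Z y) := by rw [sum_mul_sum]
  have e2 : (∑ y ∈ S, ∑ y' ∈ S \ J, (m y * Z y) * (r y' * Z y')) =
      (∑ y ∈ S, m y * Z y) * (∑ y ∈ S \ J, r y * Z y) := by rw [sum_mul_sum]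
  rw [e1, e2] at hsplit
  linarith

/-- masses transported through a slab -/
noncomputable def push (S : Finset ι) (I : ι → κ → ℝ) (m : ι → ℝ) (x : κ) : ℝ := ∑ y ∈ S, m y * I y x

/-- future partition function pulled back through a slab -/
noncomputable def pull (S' : Finset κ) (I : ι → κ → ℝ) (Z : κ → ℝ) (y : ι) : ℝ := ∑ x ∈ S', I y x * Z x

/-- the two path determinant of the slab -/
def NIk (I : ι → κ → ℝ) (y y' : ι) (x x' : κ) : ℝ := I y x * I y' x' - I y x' * I y' x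

/-- **Cauchy - Binet.** -/
theorem binet (S : Finset ι) (I : ι → κ → ℝ) (m r : ι → ℝ) (x x' : κ) :
    NI (push S I m) (push S I r) x x' = P2 S (fun y y' => NI m r y y' * NIk I y y' x x') := by
  have e : NI (push S I m) (push S I r) x x' =
      ∑ y ∈ S, ∑ y' ∈ S, m y * r y' * NIk I y y' x x' := by
    simp only [NI, push, NIk]
    rw [sum_mul_sum, sum_mul_sum, ← sum_sub_distrib]
    refine sum_congr rfl fun y _ => ?_
    rw [← sum_sub_distrib]
    refine sum_congr rfl fun y' _ => ?_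
    ring
  rw [e]
  have h3 : ∀ y y' : ι, m y * r y' * NIk I y y' x x' =
      (if y < y' then m y * r y' * NIk I y y' x x' else 0) +
        (if y' < y then m y * r y' * NIk I y y' x x' else 0) := by
    intro y y'
    rcases lt_trichotomy y y' with h | h | h
    · simp [h, not_lt.2 h.le]
    · subst h; simp [NIk]; right; ring
    · simp [h, not_lt.2 h.le]
  calc ∑ y ∈ S, ∑ y' ∈ S, m y * r y' * NIk I y y' x x'
      = ∑ y ∈ S, ∑ y' ∈ S, ((if y < y' then m y * r y' * NIk I y y' x x' else 0) +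
        (if y' < y then m y * r y' * NIk I y y' x x' else 0)) :=
        sum_congr rfl fun y _ => sum_congr rfl fun y' _ => h3 y y'
    _ = (∑ y ∈ S, ∑ y' ∈ S, if y < y' then m y * r y' * NIk I y y' x x' else 0) +
        ∑ y ∈ S, ∑ y' ∈ S, (if y' < y then m y * r y' * NIk I y y' x x' else 0) := by
        rw [← sum_add_distrib]
        exact sum_congr rfl fun y _ => sum_add_distrib
    _ = (∑ y ∈ S, ∑ y' ∈ S, if y < y' then m y * r y' * NIk I y y' x x' else 0) +
        ∑ y ∈ S, ∑ y' ∈ S, (if y < y' then m y' * r y * NIk I y' y x x' else 0) := by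
        rw [sum_comm (f := fun y y' => if y' < y then m y * r y' * NIk I y y' x x' else 0)]
    _ = P2 S (fun y y' => NI m r y y' * NIk I y y' x x') := by
        unfold P2
        rw [← sum_add_distrib]
        refine sum_congr rfl fun y _ => ?_
        rw [← sum_add_distrib]
        refine sum_congr rfl fun y' _ => ?_
        split_ifs
        · simp only [NI, NIk]; ring
        · simp

theorem push_nonneg {S : Finset ι} {I : ι → κ → ℝ} {m : ι → ℝ} (hm : ∀ y ∈ S, 0 ≤ m y)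
    (hI : ∀ y ∈ S, ∀ x, 0 ≤ I y x) (x : κ) : 0 ≤ push S I m x :=
  sum_nonneg fun y hy => mul_nonneg (hm y hy) (hI y hy x)

/-- total mass is transported -/
theorem push_pull (S : Finset ι) (S' : Finset κ) (I : ι → κ → ℝ) (m : ι → ℝ) (Z : κ → ℝ) :
    (∑ x ∈ S', push S I m x * Z x) = ∑ y ∈ S, m y * pull S' I Z y := by
  simp only [push, pull, mul_sum, sum_mul]
  rw [sum_comm]
  exact sum_congr rfl fun y _ => sum_congr rfl fun x _ => by ring

/-- **The slab cannot increase the weight beyond `sup ω` times the weight of no meeting before it.** -/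
theorem weight_le (S : Finset ι) (S' : Finset κ) (I : ι → κ → ℝ) (m r : ι → ℝ) (Z : κ → ℝ)
    (ω : κ → κ → ℝ) (c : ℝ) (hc : 0 ≤ c)
    (htp : ∀ y ∈ S, ∀ y' ∈ S, y < y' → 0 ≤ NI m r y y')
    (hI : ∀ y ∈ S, ∀ x ∈ S', 0 ≤ I y x) (hZ : ∀ x ∈ S', 0 ≤ Z x)
    (hlgv : ∀ y ∈ S, ∀ y' ∈ S, y < y' → ∀ x ∈ S', ∀ x' ∈ S', x < x' → 0 ≤ NIk I y y' x x')
    (hω : ∀ x ∈ S', ∀ x' ∈ S', x < x' → ω x x' ≤ c) :
    P2 S' (fun x x' => NI (push S I m) (push S I r) x x' * (Z x * Z x') * ω x x') ≤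
      c * P2 S (fun y y' => NI m r y y' * (pull S' I Z y * pull S' I Z y')) := by
  have h1 : P2 S' (fun x x' => NI (push S I m) (push S I r) x x' * (Z x * Z x') * ω x x') ≤
      P2 S' (fun x x' => c * (NI (push S I m) (push S I r) x x' * (Z x * Z x'))) := by
    refine P2_mono fun x hx x' hx' hlt => ?_
    have h2 : 0 ≤ NI (push S I m) (push S I r) x x' := by
      rw [binet]
      exact P2_nonneg fun y hy y' hy' h => mul_nonneg (htp y hy y' hy' h) (hlgv y hy y' hy' h x hx x' hx' hlt)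
    have h3 : 0 ≤ NI (push S I m) (push S I r) x x' * (Z x * Z x') :=
      mul_nonneg h2 (mul_nonneg (hZ x hx) (hZ x' hx'))
    nlinarith [mul_le_mul_of_nonneg_left (hω x hx x' hx' hlt) h3]
  refine h1.trans ?_
  rw [P2_mul]
  refine mul_le_mul_of_nonneg_left ?_ hc
  -- expand by Cauchy - Binet and bound the inner sum
  have e : P2 S' (fun x x' => NI (push S I m) (push S I r) x x' * (Z x * Z x')) =
      P2 S (fun y y' => NI m r y y' * P2 S' (fun x x' => NIk I y y' x x' * (Z x * Z x'))) := by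
    have l : ∀ x x' : κ, NI (push S I m) (push S I r) x x' * (Z x * Z x') =
        ∑ y ∈ S, ∑ y' ∈ S, if y < y' then NI m r y y' * (NIk I y y' x x' * (Z x * Z x')) else 0 := by
      intro x x'
      rw [binet]
      unfold P2
      rw [sum_mul]
      refine sum_congr rfl fun y _ => ?_
      rw [sum_mul]
      refine sum_congr rfl fun y' _ => ?_
      split_ifs <;> ring
    calc P2 S' (fun x x' => NI (push S I m) (push S I r) x x' * (Z x * Z x'))
        = ∑ x ∈ S', ∑ x' ∈ S', ∑ y ∈ S, ∑ y' ∈ S,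
            (if y < y' then NI m r y y' * (if x < x' then NIk I y y' x x' * (Z x * Z x') else 0) else 0) := by
          unfold P2
          refine sum_congr rfl fun x _ => sum_congr rfl fun x' _ => ?_
          by_cases h : x < x'
          · simp only [h, if_true]; exact l x x'
          · simp [h]
      _ = ∑ y ∈ S, ∑ y' ∈ S, ∑ x ∈ S', ∑ x' ∈ S',
            (if y < y' then NI m r y y' * (if x < x' then NIk I y y' x x' * (Z x * Z x') else 0) else 0) := by
          calc _ = ∑ x ∈ S', ∑ y ∈ S, ∑ x' ∈ S', ∑ y' ∈ S,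
            (if y < y' then NI m r y y' * (if x < x' then NIk I y y' x x' * (Z x * Z x') else 0) else 0) :=
                sum_congr rfl fun x _ => sum_comm
            _ = ∑ y ∈ S, ∑ x ∈ S', ∑ x' ∈ S', ∑ y' ∈ S,
            (if y < y' then NI m r y y' * (if x < x' then NIk I y y' x x' * (Z x * Z x') else 0) else 0) :=
                sum_comm
            _ = ∑ y ∈ S, ∑ x ∈ S', ∑ y' ∈ S, ∑ x' ∈ S',
            (if y < y' then NI m r y y' * (if x < x' then NIk I y y' x x' * (Z x * Z x') else 0) else 0) :=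
                sum_congr rfl fun y _ => sum_congr rfl fun x _ => sum_comm
            _ = _ := sum_congr rfl fun y _ => sum_comm
      _ = P2 S (fun y y' => NI m r y y' * P2 S' (fun x x' => NIk I y y' x x' * (Z x * Z x'))) := by
          unfold P2
          refine sum_congr rfl fun y _ => sum_congr rfl fun y' _ => ?_
          by_cases h : y < y'
          · simp only [h, if_true, mul_sum]
          · simp [h]
  rw [e]
  refine P2_mono fun y hy y' hy' hlt => mul_le_mul_of_nonneg_left ?_ (htp y hy y' hy' hlt)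
  calc P2 S' (fun x x' => NIk I y y' x x' * (Z x * Z x'))
      ≤ ∑ x ∈ S', ∑ x' ∈ S', (I y x * Z x) * (I y' x' * Z x') := by
        unfold P2
        refine sum_le_sum fun x hx => sum_le_sum fun x' hx' => ?_
        have p1 : 0 ≤ (I y x * Z x) * (I y' x' * Z x') :=
          mul_nonneg (mul_nonneg (hI y hy x hx) (hZ x hx)) (mul_nonneg (hI y' hy' x' hx') (hZ x' hx'))
        have p2 : 0 ≤ (I y x' * Z x') * (I y' x * Z x) :=
          mul_nonneg (mul_nonneg (hI y hy x' hx') (hZ x' hx')) (mul_nonneg (hI y' hy' x hx) (hZ x hx))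
        split_ifs
        · simp only [NIk]; nlinarith
        · exact p1
    _ = pull S' I Z y * pull S' I Z y' := by simp only [pull]; rw [sum_mul_sum]

/-- **Two balanced lanes.** `p1, p2` (`s1, s2`) = masses of the left (right) group at the lanes 1, 2,
`k1, k2` = partition functions from the lanes on. -/
theorem two_lane (p1 p2 s1 s2 k1 k2 C : ℝ) (hp1 : 0 < p1) (hp2 : 0 ≤ p2) (hs1 : 0 ≤ s1) (hs2 : 0 < s2)
    (hk1 : 0 < k1) (hk2 : 0 < k2) (hC : 0 ≤ C)
    (hni : 0 ≤ p1 * s2 - p2 * s1)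
    (hM : p2 * k2 ≤ C * (p1 * k1)) (hR : s1 * k1 ≤ C * (s2 * k2)) :
    (1 - p2 * s1 / (p1 * s2)) / (1 + C) ^ 2 ≤
      (p1 * s2 - p2 * s1) * (k1 * k2) / ((p1 * k1 + p2 * k2) * (s1 * k1 + s2 * k2)) := by
  have h1 : 0 < p1 * k1 := mul_pos hp1 hk1
  have h2 : 0 < s2 * k2 := mul_pos hs2 hk2
  have hC1 : 0 < (1 + C) ^ 2 := by positivity
  have hd1 : 0 < p1 * k1 + p2 * k2 := by nlinarith [mul_nonneg hp2 hk2.le]
  have hd2 : 0 < s1 * k1 + s2 * k2 := by nlinarith [mul_nonneg hs1 hk1.le]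
  have e : (1 - p2 * s1 / (p1 * s2)) / (1 + C) ^ 2 =
      (p1 * s2 - p2 * s1) * (k1 * k2) / (((1 + C) * (p1 * k1)) * ((1 + C) * (s2 * k2))) := by
    field_simp
  rw [e]
  refine div_le_div_of_nonneg_left (mul_nonneg hni (mul_pos hk1 hk2).le) (mul_pos hd1 hd2) ?_
  exact mul_le_mul (by nlinarith) (by nlinarith) hd2.le (by positivity)

/-- `1 - t ≥ (1 - √t)/(1 + √t)` : the two lane value against the extremal Gini value -/
theorem one_sub_ge (t : ℝ) (h0 : 0 ≤ t) (h1 : t ≤ 1) : (1 - √t) / (1 + √t) ≤ 1 - t := by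
  have s0 : 0 ≤ √t := Real.sqrt_nonneg t
  have s1 : √t ≤ 1 := by simpa using Real.sqrt_le_sqrt h1
  have e : √t * √t = t := Real.mul_self_sqrt h0
  rw [div_le_iff₀ (by linarith)]
  nlinarith [mul_nonneg s0 (sub_nonneg.2 s1), mul_nonneg s0 s0]

/-- the Gini constant in terms of `t = a/b` -/
theorem gini_const (a b : ℝ) (h0 : 0 ≤ a) (hb : 0 < b) :
    (√b - √a) / (√b + √a) = (1 - √(a / b)) / (1 + √(a / b)) := by
  have sb : 0 < √b := Real.sqrt_pos.2 hb
  rw [Real.sqrt_div h0]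
  have : √b + √a ≠ 0 := by linarith [Real.sqrt_nonneg a] |> fun h : 0 < √b + √a => h.ne'
  field_simp

/-- **Comparison of an arbitrary slab with a two lane slab.** `W` = weight of an arbitrary slab, `V` = weight of
the two lane slab, `w` = inner weight seen through the lanes, `out` = mass outside the window. -/
theorem slab_compare (W V c w t t' C C' out : ℝ) (ht' : 0 ≤ t') (ht1 : t' ≤ 1) (htt : t ≤ t')
    (hc : 0 ≤ c) (hC : 0 ≤ C) (hC' : 0 ≤ C') (hcw : c ≤ C' * w)
    (hW : W ≤ c * ((1 - √t') / (1 + √t') + out))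
    (hV : w * ((1 - t) / (1 + C) ^ 2) ≤ V) :
    W ≤ C' * (1 + C) ^ 2 * V + c * out := by
  have h1 : (1 - √t') / (1 + √t') ≤ 1 - t := (one_sub_ge t' ht' ht1).trans (by linarith)
  have hC1 : 0 < (1 + C) ^ 2 := by positivity
  have h2 : w * (1 - t) ≤ (1 + C) ^ 2 * V := by
    have := mul_le_mul_of_nonneg_left hV hC1.le
    have e : (1 + C) ^ 2 * (w * ((1 - t) / (1 + C) ^ 2)) = w * (1 - t) := by field_simp
    linarith
  have ht2 : 0 ≤ 1 - t := by linarith
  calc W ≤ c * ((1 - √t') / (1 + √t') + out) := hW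
    _ ≤ c * (1 - t) + c * out := by nlinarith
    _ ≤ C' * w * (1 - t) + c * out := by nlinarith [mul_le_mul_of_nonneg_right hcw ht2]
    _ ≤ C' * (1 + C) ^ 2 * V + c * out := by nlinarith [mul_le_mul_of_nonneg_left h2 hC']

/-- **The exit gate by Markov.** If `q` is a probability on the exit points and `1/P_i = E_q [1/P_i(x)]`,
`i = 1, 2`, then some exit point (of `q` mass `> 0`, in any set `G` of `q` mass `> 2/3`) has
`P_1(x) P_2(x) ≥ P_1 P_2 / 9`. Here `u_i x = 1/P_i(x)`, `U_i = E_q u_i`. -/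
theorem exit_markov (S G : Finset κ) (hG : G ⊆ S) (q u1 u2 : κ → ℝ) (U1 U2 : ℝ)
    (hq : ∀ x ∈ S, 0 ≤ q x) (hu1 : ∀ x ∈ S, 0 ≤ u1 x) (hu2 : ∀ x ∈ S, 0 ≤ u2 x)
    (hU1 : ∑ x ∈ S, q x * u1 x = U1) (hU2 : ∑ x ∈ S, q x * u2 x = U2)
    (h1 : 0 < U1) (h2 : 0 < U2) (hGq : 2 / 3 < ∑ x ∈ G, q x) :
    ∃ x ∈ G, 0 < q x ∧ u1 x ≤ 3 * U1 ∧ u2 x ≤ 3 * U2 := by
  classical
  by_contra hne
  push Not at hne
  have key : ∀ x ∈ G, q x ≤ q x * u1 x / (3 * U1) + q x * u2 x / (3 * U2) := by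
    intro x hx
    have hx' := hG hx
    have a1 : 0 ≤ q x * u1 x / (3 * U1) := div_nonneg (mul_nonneg (hq x hx') (hu1 x hx')) (by linarith)
    have a2 : 0 ≤ q x * u2 x / (3 * U2) := div_nonneg (mul_nonneg (hq x hx') (hu2 x hx')) (by linarith)
    rcases (hq x hx').eq_or_lt with h0 | h0
    · rw [← h0]; simp
    · by_cases hb1 : u1 x ≤ 3 * U1
      · have hb2 := hne x hx h0 hb1
        have : q x ≤ q x * u2 x / (3 * U2) := by
          rw [le_div_iff₀ (by linarith)]; nlinarith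
        linarith
      · push Not at hb1
        have : q x ≤ q x * u1 x / (3 * U1) := by
          rw [le_div_iff₀ (by linarith)]; nlinarith
        linarith
  have hs := sum_le_sum key
  rw [sum_add_distrib, ← sum_div, ← sum_div] at hs
  have g1 : ∑ x ∈ G, q x * u1 x ≤ U1 := by
    rw [← hU1]
    exact sum_le_sum_of_subset_of_nonneg hG fun x hx _ => mul_nonneg (hq x hx) (hu1 x hx)
  have g2 : ∑ x ∈ G, q x * u2 x ≤ U2 := by
    rw [← hU2]
    exact sum_le_sum_of_subset_of_nonneg hG fun x hx _ => mul_nonneg (hq x hx) (hu2 x hx)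
  have b1 : (∑ x ∈ G, q x * u1 x) / (3 * U1) ≤ 1 / 3 := by
    rw [div_le_iff₀ (by linarith)]; linarith
  have b2 : (∑ x ∈ G, q x * u2 x) / (3 * U2) ≤ 1 / 3 := by
    rw [div_le_iff₀ (by linarith)]; linarith
  linarith

end Pool.Agent.W_7d29a1_C1.Gini76
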