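import Pool.Agent.W_7d29a1_C1.PairP91
import Pool.Agent.W_7d29a1_C1.Gini76

/-!
MP_7d29a1_pr, attractor route: the bridge from `few covered scales` to the long windows of the shell, deterministic part. (helper31)

(a) `cross`: the probability that the two replicas have met before the row `k` is at least `exp (- g / 2)` minus the probabilities that
they are outside of the window at the row `k`; `g` = the logarithm of the cross ratio of the two arrival profiles between the two ends of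
the window (Gini).
-/

set_option autoImplicit false

namespace Pool.Agent.W_7d29a1_C1.U31

open Finset
open Pool.Agent.W_7d29a1_C1.K91 (Grp Box cut cut_pos sum_shift ps2 ps2_congr ps2_add ps2_mul)
open Pool.Agent.W_7d29a1_C1.K91P
open Pool.Agent.W_7d29a1_C1.Gini76

noncomputable section

variable {w : ℕ → ℤ → ℝ} {p : ℕ → ℝ} {l r : ℤ → ℝ} {X lo hi : ℤ} {N : ℕ}

/-- The mass of one group is transported, row by row. -/
theorem sum_fw_bw {m : ℤ → ℝ} (hlo : ∀ y, y < lo → m y = 0) (hhi : ∀ y, hi - N < y → m y = 0) (hb : lo + N ≤ hi) :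
    ∀ k, k ≤ N → ∑ y ∈ Icc lo hi, fw w p m k y * bw w p k (N - k) y = ∑ y ∈ Icc lo hi, m y * bw w p 0 N y
  | 0, _ => rfl
  | k + 1, hk => by
    have hkN : ((k : ℕ) : ℤ) < N := by exact_mod_cast hk
    rw [← sum_fw_bw hlo hhi hb k (by omega)]
    have e0 : ∀ y ∈ Icc lo hi, fw w p m (k + 1) y * bw w p (k + 1) (N - (k + 1)) y =
        w k y * fw w p m k y * bw w p (k + 1) (N - (k + 1)) y +
        (fun z => p k * (w k z * fw w p m k z) * bw w p (k + 1) (N - (k + 1)) (z + 1)) (y - 1) := by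
      intro y _
      show _ = _ + p k * (w k (y - 1) * fw w p m k (y - 1)) * bw w p (k + 1) (N - (k + 1)) (y - 1 + 1)
      rw [fw_succ, sub_add_cancel]
      ring
    have e1 : ∑ y ∈ Icc lo hi, (fun z => p k * (w k z * fw w p m k z) * bw w p (k + 1) (N - (k + 1)) (z + 1)) (y - 1) =
        ∑ y ∈ Icc lo hi, (fun z => p k * (w k z * fw w p m k z) * bw w p (k + 1) (N - (k + 1)) (z + 1)) y := by
      refine sum_shift (f := fun z => p k * (w k z * fw w p m k z) * bw w p (k + 1) (N - (k + 1)) (z + 1)) (by omega) ?_ ?_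
      · show p k * (w k (lo - 1) * fw w p m k (lo - 1)) * _ = 0
        rw [fw_lo hlo k (lo - 1) (by omega)]
        ring
      · show p k * (w k hi * fw w p m k hi) * _ = 0
        rw [fw_hi (B := hi - N) (fun z hz => hhi z hz) k hi (by omega)]
        ring
    rw [sum_congr rfl e0, sum_add_distrib, e1, ← sum_add_distrib]
    refine sum_congr rfl fun y _ => ?_
    rw [bw_eq (show k < N by omega)]
    unfold GG
    ring

/-- The mass of the paths of one group which are in the set `J` at the row `k`. -/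
def ms (w : ℕ → ℤ → ℝ) (p : ℕ → ℝ) (N : ℕ) (m : ℤ → ℝ) (k : ℕ) (J : Finset ℤ) : ℝ :=
  ∑ y ∈ J, fw w p m k y * bw w p k (N - k) y

theorem ms_nonneg (hw : ∀ k y, 0 < w k y) (hp : ∀ k, 0 < p k) {m : ℤ → ℝ} (hm : ∀ y, 0 ≤ m y) (k : ℕ) (J : Finset ℤ) :
    0 ≤ ms w p N m k J :=
  sum_nonneg fun y _ => mul_nonneg (fw_nonneg hw hp hm k y) (bw_pos hw hp _ _ _).le

theorem nm_eq (k : ℕ) : nm w p l r lo hi N k =
    P2 (Icc lo hi) (fun y y' => NI (fw w p l k) (fw w p r k) y y' * (bw w p k (N - k) y * bw w p k (N - k) y')) := by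
  unfold nm ps2 P2
  refine sum_congr rfl fun x _ => sum_congr rfl fun y _ => ?_
  show dp w p l r k x y * (if x < y then _ else 0) = _
  split_ifs
  · rfl
  · ring

/-- **The window of the level is long if the replicas have hardly met.** `Q` = mass of the pairs which have met before the row `k`. -/
theorem cross (hw : ∀ k y, 0 < w k y) (hp : ∀ k, 0 < p k) (h : Box l r X lo hi N) {k : ℕ} (hk : k ≤ N) {y₁ y₂ : ℤ}
    (hy1 : lo ≤ y₁) (hy : y₁ ≤ y₂) (hy2 : y₂ ≤ hi) (hl1 : 0 < fw w p l k y₁) (hl2 : 0 < fw w p l k y₂)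
    (hr1 : 0 < fw w p r k y₁) (hr2 : 0 < fw w p r k y₂) :
    √(fw w p r k y₁ * fw w p l k y₂ / (fw w p l k y₁ * fw w p r k y₂)) *
        ((∑ x ∈ Icc lo hi, l x * bw w p 0 N x) * ∑ y ∈ Icc lo hi, r y * bw w p 0 N y) ≤
      ∑ i ∈ range k, mt w p l r lo hi N i +
        ms w p N l k (Icc lo hi \ Icc y₁ y₂) * (∑ y ∈ Icc lo hi, r y * bw w p 0 N y) +
        (∑ x ∈ Icc lo hi, l x * bw w p 0 N x) * ms w p N r k (Icc lo hi \ Icc y₁ y₂) := by
  set m := fw w p l k with hm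
  set q := fw w p r k with hq
  set Z := bw w p k (N - k) with hZ
  have hG := h.g
  have hm0 : ∀ y, 0 ≤ m y := fun y => fw_nonneg hw hp hG.l0 k y
  have hq0 : ∀ y, 0 ≤ q y := fun y => fw_nonneg hw hp hG.r0 k y
  have hZ0 : ∀ y, 0 < Z y := fun y => bw_pos hw hp _ _ _
  have hb : lo + N ≤ hi := by have := h.X0; have := h.X1; omega
  have eM : ∑ y ∈ Icc lo hi, m y * Z y = ∑ x ∈ Icc lo hi, l x * bw w p 0 N x :=
    sum_fw_bw (fun y hy => (h.lo0 y hy).1) (fun y hy => (h.hi0 y hy).1) hb k hk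
  have eR : ∑ y ∈ Icc lo hi, q y * Z y = ∑ x ∈ Icc lo hi, r x * bw w p 0 N x :=
    sum_fw_bw (fun y hy => (h.lo0 y hy).2) (fun y hy => (h.hi0 y hy).2) hb k hk
  have eT := nm_total (w := w) (p := p) h k hk
  rw [nm_eq] at eT
  set A := ∑ x ∈ Icc lo hi, l x * bw w p 0 N x with hA
  set B := ∑ x ∈ Icc lo hi, r x * bw w p 0 N x with hB
  have hA0 : 0 ≤ A := by rw [← eM]; exact sum_nonneg fun y _ => mul_nonneg (hm0 y) (hZ0 y).le
  have hB0 : 0 ≤ B := by rw [← eR]; exact sum_nonneg fun y _ => mul_nonneg (hq0 y) (hZ0 y).le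
  -- the ratio is monotone
  set a := q y₁ / m y₁ with ha
  set b := q y₂ / m y₂ with hbdef
  have ha0 : 0 < a := div_pos hr1 hl1
  have hb0 : 0 < b := div_pos hr2 hl2
  have hdp : ∀ x y, x ≤ y → 0 ≤ m x * q y - m y * q x := fun x y hxy => dp_nonneg hw hp hG k x y hxy
  have hlow : ∀ y ∈ Icc y₁ y₂, a * m y ≤ q y := by
    intro y hy
    have h1 := hdp y₁ y (mem_Icc.1 hy).1
    rw [ha, div_mul_eq_mul_div, div_le_iff₀ hl1]
    linarith
  have hupp : ∀ y ∈ Icc y₁ y₂, q y ≤ b * m y := by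
    intro y hy
    have h1 := hdp y y₂ (mem_Icc.1 hy).2
    rw [hbdef, div_mul_eq_mul_div, le_div_iff₀ hl2]
    linarith
  have hab : a ≤ b := by
    have h1 := hupp y₁ (mem_Icc.2 ⟨le_rfl, hy⟩)
    rw [ha, div_le_iff₀ hl1]
    exact h1
  have et : q y₁ * m y₂ / (m y₁ * q y₂) = a / b := by
    rw [ha, hbdef]
    field_simp
  rw [et]
  have hJ : Icc y₁ y₂ ⊆ Icc lo hi := Icc_subset_Icc hy1 hy2
  have hoM : 0 ≤ ms w p N l k (Icc lo hi \ Icc y₁ y₂) := ms_nonneg hw hp hG.l0 k _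
  have hoR : 0 ≤ ms w p N r k (Icc lo hi \ Icc y₁ y₂) := ms_nonneg hw hp hG.r0 k _
  -- it is enough to treat `a < b'`
  have key : ∀ b' : ℝ, a < b' → b ≤ b' → √(a / b') * (A * B) ≤ ∑ i ∈ range k, mt w p l r lo hi N i +
      ms w p N l k (Icc lo hi \ Icc y₁ y₂) * B + A * ms w p N r k (Icc lo hi \ Icc y₁ y₂) := by
    intro b' h1 h2
    have h3 := nomeet_le (Icc lo hi) (Icc y₁ y₂) hJ m q Z a b' ha0.le h1 (fun y _ => hm0 y) (fun y _ => hq0 y)
      (fun y _ => (hZ0 y).le) hlow (fun y hy => (hupp y hy).trans (mul_le_mul_of_nonneg_right h2 (hm0 y)))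
    rw [eM, eR, gini_const a b' ha0.le (ha0.trans h1)] at h3
    have hb'0 : 0 < b' := ha0.trans h1
    set t := √(a / b') with ht
    have ht0 : 0 ≤ t := Real.sqrt_nonneg _
    have ht1 : t ≤ 1 := by
      rw [ht]
      refine Real.sqrt_le_one.2 ?_
      rw [div_le_one hb'0]
      exact h1.le
    have h4 : (1 - t) / (1 + t) ≤ 1 - t := by
      rw [div_le_iff₀ (by linarith)]
      nlinarith
    have h5 : (1 - t) / (1 + t) * (A * B) ≤ (1 - t) * (A * B) := mul_le_mul_of_nonneg_right h4 (mul_nonneg hA0 hB0)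
    have e1 : ms w p N l k (Icc lo hi \ Icc y₁ y₂) = ∑ y ∈ Icc lo hi \ Icc y₁ y₂, m y * Z y := rfl
    have e2 : ms w p N r k (Icc lo hi \ Icc y₁ y₂) = ∑ y ∈ Icc lo hi \ Icc y₁ y₂, q y * Z y := rfl
    rw [e1, e2]
    nlinarith [h3, h5, eT]
  rcases hab.lt_or_eq with h1 | h1
  · exact key b h1 le_rfl
  · -- the degenerate case by continuity
    have hc : Filter.Tendsto (fun b' : ℝ => √(a / b') * (A * B)) (nhdsWithin b (Set.Ioi b)) (nhds (√(a / b) * (A * B))) := by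
      have hc1 : ContinuousAt (fun b' : ℝ => √(a / b') * (A * B)) b := by
        have : b ≠ 0 := hb0.ne'
        fun_prop (disch := assumption)
      exact hc1.tendsto.mono_left nhdsWithin_le_nhds
    refine le_of_tendsto hc ?_
    filter_upwards [self_mem_nhdsWithin] with b' hb'
    exact key b' (by rw [h1]; exact hb') (le_of_lt hb')

/-- The form with probabilities: `P_met`, `o_l`, `o_r` at most `e^(-κ)` each gives `g ≥ 2 κ - 3`. -/
theorem cross_log (hw : ∀ k y, 0 < w k y) (hp : ∀ k, 0 < p k) (h : Box l r X lo hi N) {k : ℕ} (hk : k ≤ N) {y₁ y₂ : ℤ}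
    (hy1 : lo ≤ y₁) (hy : y₁ ≤ y₂) (hy2 : y₂ ≤ hi) (hl1 : 0 < fw w p l k y₁) (hl2 : 0 < fw w p l k y₂)
    (hr1 : 0 < fw w p r k y₁) (hr2 : 0 < fw w p r k y₂) {κ : ℝ}
    (hmet : ∑ i ∈ range k, mt w p l r lo hi N i ≤ Real.exp (-κ) *
      ((∑ x ∈ Icc lo hi, l x * bw w p 0 N x) * ∑ y ∈ Icc lo hi, r y * bw w p 0 N y))
    (hol : ms w p N l k (Icc lo hi \ Icc y₁ y₂) ≤ Real.exp (-κ) * ∑ x ∈ Icc lo hi, l x * bw w p 0 N x)
    (hor : ms w p N r k (Icc lo hi \ Icc y₁ y₂) ≤ Real.exp (-κ) * ∑ y ∈ Icc lo hi, r y * bw w p 0 N y) :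
    2 * κ - 3 ≤ Real.log (fw w p l k y₁) + Real.log (fw w p r k y₂) - Real.log (fw w p l k y₂) - Real.log (fw w p r k y₁) := by
  have hG := h.g
  have hb : lo + N ≤ hi := by have := h.X0; have := h.X1; omega
  have h1 := cross hw hp h hk hy1 hy hy2 hl1 hl2 hr1 hr2
  have eM : ∑ y ∈ Icc lo hi, fw w p l k y * bw w p k (N - k) y = ∑ x ∈ Icc lo hi, l x * bw w p 0 N x :=
    sum_fw_bw (fun y hy => (h.lo0 y hy).1) (fun y hy => (h.hi0 y hy).1) hb k hk
  have eR : ∑ y ∈ Icc lo hi, fw w p r k y * bw w p k (N - k) y = ∑ x ∈ Icc lo hi, r x * bw w p 0 N x :=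
    sum_fw_bw (fun y hy => (h.lo0 y hy).2) (fun y hy => (h.hi0 y hy).2) hb k hk
  set A := ∑ x ∈ Icc lo hi, l x * bw w p 0 N x with hA
  set B := ∑ x ∈ Icc lo hi, r x * bw w p 0 N x with hB
  have hAp : 0 < A := by
    rw [← eM]
    exact sum_pos' (fun y _ => mul_nonneg (fw_nonneg hw hp hG.l0 k y) (bw_pos hw hp _ _ _).le)
      ⟨y₁, mem_Icc.2 ⟨hy1, hy.trans hy2⟩, mul_pos hl1 (bw_pos hw hp _ _ _)⟩
  have hBp : 0 < B := by
    rw [← eR]
    exact sum_pos' (fun y _ => mul_nonneg (fw_nonneg hw hp hG.r0 k y) (bw_pos hw hp _ _ _).le)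
      ⟨y₁, mem_Icc.2 ⟨hy1, hy.trans hy2⟩, mul_pos hr1 (bw_pos hw hp _ _ _)⟩
  have h2 : √(fw w p r k y₁ * fw w p l k y₂ / (fw w p l k y₁ * fw w p r k y₂)) ≤ 3 * Real.exp (-κ) := by
    have h3 : ms w p N l k (Icc lo hi \ Icc y₁ y₂) * B ≤ Real.exp (-κ) * A * B := mul_le_mul_of_nonneg_right hol hBp.le
    have h4 : A * ms w p N r k (Icc lo hi \ Icc y₁ y₂) ≤ A * (Real.exp (-κ) * B) := mul_le_mul_of_nonneg_left hor hAp.le
    have h5 : √(fw w p r k y₁ * fw w p l k y₂ / (fw w p l k y₁ * fw w p r k y₂)) * (A * B) ≤ 3 * Real.exp (-κ) * (A * B) := by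
      linarith
    exact le_of_mul_le_mul_right h5 (mul_pos hAp hBp)
  have hx : 0 < fw w p r k y₁ * fw w p l k y₂ / (fw w p l k y₁ * fw w p r k y₂) :=
    div_pos (mul_pos hr1 hl2) (mul_pos hl1 hr2)
  have h3 := Real.log_le_log (Real.sqrt_pos.2 hx) h2
  rw [Real.log_sqrt hx.le, Real.log_mul (by norm_num) (Real.exp_pos _).ne', Real.log_exp,
    Real.log_div (mul_pos hr1 hl2).ne' (mul_pos hl1 hr2).ne', Real.log_mul hr1.ne' hl2.ne', Real.log_mul hl1.ne' hr2.ne'] at h3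
  have h4 : Real.log 3 ≤ 1.5 := by
    have h5 : Real.log 3 ≤ Real.log (Real.exp 1.5) := by
      refine Real.log_le_log (by norm_num) ?_
      have h6 := Real.add_one_le_exp (0.5 : ℝ)
      have h7 : Real.exp 1.5 = Real.exp 0.5 ^ 3 := by
        rw [← Real.exp_nat_mul]
        norm_num
      rw [h7]
      have h8 : (1.5 : ℝ) ^ 3 ≤ Real.exp 0.5 ^ 3 := pow_le_pow_left₀ (by norm_num) (by linarith) 3
      norm_num at h8 ⊢
      linarith
    rwa [Real.log_exp] at h5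
  linarith

end

end Pool.Agent.W_7d29a1_C1.U31
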