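import Pool.Agent.W_7d29a1_C1.KerP16
import Pool.Agent.W_7d29a1_C1.PairP91
import Pool.Agent.W_7d29a1_C1.Unc31

/-!
MP_7d29a1_pr, [C1], SHELL with BOX WEIGHTS (board 76698 (3), 78292): THE DETERMINISTIC CORE OF THE COMPARISON. (helper47)

`mq w p Q i n x x' y y'`: the mass of the pairs of paths `x → y`, `x' → y'` over the rows `i, .., i + n - 1` which have not met before and
whose FIRST MEETING is one of the contacts of `Q` (it reads only these rows).

* `mq_nonneg`, `mq_le` : `0 ≤ mq ≤ ker x y * ker x' y'`; `mq_congr`;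
* `sum_cq` : the mass of the contacts of `Q` = `ps2` of the determinants at the row `i` against `mq` and the backward masses at `i + n`;
* `inG_of_old` : if the natural weight of `Q` is at least `1 - ε` and the two paths pass `x, y` resp. `x', y'` with probability at least
  `κ` then `mq ≥ (1 - ε / κ ^ 2) ker x y ker x' y'`;
* `new_of_inG`, `new_of_inG'` : in every environment with the same rows `[i, i + n)` the weight of `Q` is at least
  `(1 - ε') (P_M (β₁ → δ) P_R (β₂ → δ) - P_M (β₂ → δ) P_R (β₁ → δ)) ≥ (1 - ε') (1 - 2 z)`.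
-/

set_option autoImplicit false

namespace Pool.Agent.W_7d29a1_C1.Bx47

open Finset
open Pool.Agent.W_7d29a1_C1.K91 (Grp Box ps2 ps2_congr ps2_add ps2_mul)
open Pool.Agent.W_7d29a1_C1.K91P
open Pool.Agent.W_7d29a1_C1.U31 (sum_fw_bw)
open Pool.Agent.W_7d29a1_C1.U16 (ker ker_zero ker_succ ker_nonneg ker_eq_zero ker_congr fw_ker bw_ker ker_add)

noncomputable section

variable {w : ℕ → ℤ → ℝ} {p : ℕ → ℝ} {l r : ℤ → ℝ} {X lo hi : ℤ} {N : ℕ}

/-- The first step of the kernel. -/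
theorem ker_left (i : ℕ) : ∀ (n : ℕ) (x y : ℤ),
    ker w p i (n + 1) x y = w i x * (ker w p (i + 1) n x y + p i * ker w p (i + 1) n (x + 1) y)
  | 0, x, y => by
    rw [ker_succ, ker_zero, ker_zero, ker_zero, ker_zero, Nat.add_zero]
    by_cases h1 : y = x
    · rw [if_pos h1, if_neg (show ¬ y - 1 = x by omega), if_neg (show ¬ y = x + 1 by omega), h1]
      ring
    · by_cases h2 : y - 1 = x
      · rw [if_neg h1, if_pos h2, if_pos (show y = x + 1 by omega), h2]
        ring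
      · rw [if_neg h1, if_neg h2, if_neg (show ¬ y = x + 1 by omega)]
        ring
  | n + 1, x, y => by
    have e : i + 1 + n = i + (n + 1) := by ring
    rw [ker_succ i (n + 1), ker_left i n x y, ker_left i n x (y - 1), ker_succ (i + 1) n x y, ker_succ (i + 1) n (x + 1) y, e]
    ring

/-- The mass of the pairs `x → y`, `x' → y'` whose first meeting is a contact of `Q`. -/
def mq (w : ℕ → ℤ → ℝ) (p : ℕ → ℝ) (Q : Finset (ℕ × ℤ)) : ℕ → ℕ → ℤ → ℤ → ℤ → ℤ → ℝ
  | _, 0, _, _, _, _ => 0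
  | i, n + 1, x, x', y, y' => if x < x' then w i x * w i x' * (mq w p Q (i + 1) n x x' y y' +
      p i * mq w p Q (i + 1) n (x + 1) x' y y' + p i * mq w p Q (i + 1) n x (x' + 1) y y' +
      p i ^ 2 * mq w p Q (i + 1) n (x + 1) (x' + 1) y y' +
      if x + 1 = x' ∧ (i, x') ∈ Q then p i * (ker w p (i + 1) n x' y * ker w p (i + 1) n x' y') else 0) else 0

theorem mq_zero (Q : Finset (ℕ × ℤ)) (i : ℕ) (x x' y y' : ℤ) : mq w p Q i 0 x x' y y' = 0 := by
  cases i <;> rfl

theorem mq_succ (Q : Finset (ℕ × ℤ)) (i n : ℕ) (x x' y y' : ℤ) : mq w p Q i (n + 1) x x' y y' =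
    if x < x' then w i x * w i x' * (mq w p Q (i + 1) n x x' y y' +
      p i * mq w p Q (i + 1) n (x + 1) x' y y' + p i * mq w p Q (i + 1) n x (x' + 1) y y' +
      p i ^ 2 * mq w p Q (i + 1) n (x + 1) (x' + 1) y y' +
      if x + 1 = x' ∧ (i, x') ∈ Q then p i * (ker w p (i + 1) n x' y * ker w p (i + 1) n x' y') else 0) else 0 := by
  cases i <;> rfl

theorem mq_not (Q : Finset (ℕ × ℤ)) (i n : ℕ) {x x' : ℤ} (h : ¬ x < x') (y y' : ℤ) : mq w p Q i n x x' y y' = 0 := by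
  cases n with
  | zero => exact mq_zero Q i x x' y y'
  | succ n => rw [mq_succ, if_neg h]

theorem mq_nonneg (hw : ∀ k y, 0 < w k y) (hp : ∀ k, 0 < p k) (Q : Finset (ℕ × ℤ)) : ∀ (n i : ℕ) (x x' y y' : ℤ),
    0 ≤ mq w p Q i n x x' y y'
  | 0, i, x, x', y, y' => (mq_zero Q i x x' y y').ge
  | n + 1, i, x, x', y, y' => by
    rw [mq_succ]
    have a1 := mq_nonneg hw hp Q n (i + 1) x x' y y'
    have a2 := mq_nonneg hw hp Q n (i + 1) (x + 1) x' y y'
    have a3 := mq_nonneg hw hp Q n (i + 1) x (x' + 1) y y'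
    have a4 := mq_nonneg hw hp Q n (i + 1) (x + 1) (x' + 1) y y'
    have b1 := hw i x
    have b2 := hw i x'
    have hpk := hp i
    have c1 := ker_nonneg (w := w) (p := p) hw hp (i + 1) n x' y
    have c2 := ker_nonneg (w := w) (p := p) hw hp (i + 1) n x' y'
    split_ifs
    · positivity
    · positivity
    · exact le_rfl

theorem mq_le (hw : ∀ k y, 0 < w k y) (hp : ∀ k, 0 < p k) (Q : Finset (ℕ × ℤ)) : ∀ (n i : ℕ) (x x' y y' : ℤ),
    mq w p Q i n x x' y y' ≤ ker w p i n x y * ker w p i n x' y'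
  | 0, i, x, x', y, y' => by
    rw [mq_zero]
    exact mul_nonneg (ker_nonneg hw hp i 0 x y) (ker_nonneg hw hp i 0 x' y')
  | n + 1, i, x, x', y, y' => by
    have k1 := ker_nonneg (w := w) (p := p) hw hp (i + 1) n x y
    have k2 := ker_nonneg (w := w) (p := p) hw hp (i + 1) n (x + 1) y
    have k3 := ker_nonneg (w := w) (p := p) hw hp (i + 1) n x' y'
    have k4 := ker_nonneg (w := w) (p := p) hw hp (i + 1) n (x' + 1) y'
    have b1 := hw i x
    have b2 := hw i x'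
    have hpk := hp i
    rw [mq_succ, ker_left, ker_left]
    by_cases hxy : x < x'
    · rw [if_pos hxy]
      have a1 := mq_le hw hp Q n (i + 1) x x' y y'
      have a3 := mq_le hw hp Q n (i + 1) x (x' + 1) y y'
      have a4 := mq_le hw hp Q n (i + 1) (x + 1) (x' + 1) y y'
      have key : p i * mq w p Q (i + 1) n (x + 1) x' y y' +
          (if x + 1 = x' ∧ (i, x') ∈ Q then p i * (ker w p (i + 1) n x' y * ker w p (i + 1) n x' y') else 0) ≤
          p i * (ker w p (i + 1) n (x + 1) y * ker w p (i + 1) n x' y') := by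
        by_cases h1 : x + 1 = x'
        · rw [mq_not Q (i + 1) n (show ¬ x + 1 < x' by omega), mul_zero, zero_add]
          have h0 : 0 ≤ p i * (ker w p (i + 1) n (x + 1) y * ker w p (i + 1) n x' y') := by positivity
          split_ifs
          · rw [h1]
          · exact h0
        · rw [if_neg (fun h => h1 h.1), add_zero]
          exact mul_le_mul_of_nonneg_left (mq_le hw hp Q n (i + 1) (x + 1) x' y y') hpk.le
      have c3 := mul_le_mul_of_nonneg_left a3 hpk.le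
      have c4 := mul_le_mul_of_nonneg_left a4 (sq_nonneg (p i))
      calc _ ≤ w i x * w i x' * (ker w p (i + 1) n x y * ker w p (i + 1) n x' y' +
            p i * (ker w p (i + 1) n (x + 1) y * ker w p (i + 1) n x' y') +
            p i * (ker w p (i + 1) n x y * ker w p (i + 1) n (x' + 1) y') +
            p i ^ 2 * (ker w p (i + 1) n (x + 1) y * ker w p (i + 1) n (x' + 1) y')) :=
          mul_le_mul_of_nonneg_left (by linarith) (by positivity)
        _ = _ := by ring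
    · rw [if_neg hxy]
      positivity

/-- The mass reads only its rows. -/
theorem mq_congr {w' : ℕ → ℤ → ℝ} {p' : ℕ → ℝ} (Q : Finset (ℕ × ℤ)) : ∀ (n i : ℕ) (x x' y y' : ℤ),
    (∀ k, i ≤ k → k < i + n → w k = w' k ∧ p k = p' k) → mq w p Q i n x x' y y' = mq w' p' Q i n x x' y y'
  | 0, i, x, x', y, y', _ => by rw [mq_zero, mq_zero]
  | n + 1, i, x, x', y, y', h => by
    obtain ⟨h1, h2⟩ := h i le_rfl (by omega)
    have h3 : ∀ k, i + 1 ≤ k → k < i + 1 + n → w k = w' k ∧ p k = p' k := fun k hk hk' => h k (by omega) (by omega)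
    rw [mq_succ, mq_succ, mq_congr Q n (i + 1) x x' y y' h3, mq_congr Q n (i + 1) (x + 1) x' y y' h3,
      mq_congr Q n (i + 1) x (x' + 1) y y' h3, mq_congr Q n (i + 1) (x + 1) (x' + 1) y y' h3, h1, h2,
      ker_congr (i + 1) n x' y h3, ker_congr (i + 1) n x' y' h3]

/-- The mass of one contact (the natural weight without the partition functions). -/
def cq (w : ℕ → ℤ → ℝ) (p : ℕ → ℝ) (l r : ℤ → ℝ) (N k : ℕ) (q : ℤ) : ℝ :=
  dp w p l r k (q - 1) q * (p k * (w k (q - 1) * w k q) * bw w p (k + 1) (N - (k + 1)) q ^ 2)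

theorem cq_nonneg (hw : ∀ k y, 0 < w k y) (hp : ∀ k, 0 < p k) (h : Grp l r X) (k : ℕ) (q : ℤ) : 0 ≤ cq w p l r N k q := by
  unfold cq
  have h1 := dp_nonneg hw hp h k (q - 1) q (by omega)
  have h2 := bw_pos hw hp (N - (k + 1)) (k + 1) q
  have b1 := hw k (q - 1)
  have b2 := hw k q
  have hpk := hp k
  positivity

/-- `mq` against the backward masses at the row `K`. -/
def HH (w : ℕ → ℤ → ℝ) (p : ℕ → ℝ) (Q : Finset (ℕ × ℤ)) (lo hi : ℤ) (N K i n : ℕ) (x x' : ℤ) : ℝ :=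
  ∑ y ∈ Icc lo hi, ∑ y' ∈ Icc lo hi, mq w p Q i n x x' y y' * (bw w p K (N - K) y * bw w p K (N - K) y')

theorem HH_not (Q : Finset (ℕ × ℤ)) (K i n : ℕ) {x x' : ℤ} (h : ¬ x < x') : HH w p Q lo hi N K i n x x' = 0 := by
  unfold HH
  refine sum_eq_zero fun y _ => sum_eq_zero fun y' _ => ?_
  rw [mq_not Q i n h, zero_mul]

theorem HH_nonneg (hw : ∀ k y, 0 < w k y) (hp : ∀ k, 0 < p k) (Q : Finset (ℕ × ℤ)) (K i n : ℕ) (x x' : ℤ) :
    0 ≤ HH w p Q lo hi N K i n x x' :=
  sum_nonneg fun y _ => sum_nonneg fun y' _ =>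
    mul_nonneg (mq_nonneg hw hp Q n i x x' y y') (mul_nonneg (bw_pos hw hp _ _ _).le (bw_pos hw hp _ _ _).le)

/-- The backward mass from the part of the row `K` in the box. -/
theorem sum_ker_le (hw : ∀ k y, 0 < w k y) (hp : ∀ k, 0 < p k) {K i n : ℕ} (hK : i + n = K) (hKN : K ≤ N) (x : ℤ) :
    ∑ y ∈ Icc lo hi, ker w p i n x y * bw w p K (N - K) y ≤ bw w p i (N - i) x := by
  have e : N - i = n + (N - K) := by omega
  rw [e, bw_ker, hK]
  calc ∑ y ∈ Icc lo hi, ker w p i n x y * bw w p K (N - K) y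
      = ∑ y ∈ (Icc lo hi).filter (fun y => y ∈ Icc x (x + n)), ker w p i n x y * bw w p K (N - K) y := by
        rw [sum_filter]
        refine sum_congr rfl fun y _ => ?_
        split_ifs with h
        · rfl
        · rw [ker_eq_zero i n x y (fun h1 => h (mem_Icc.2 h1)), zero_mul]
    _ ≤ ∑ y ∈ Icc x (x + n), ker w p i n x y * bw w p K (N - K) y :=
        sum_le_sum_of_subset_of_nonneg (fun y hy => (mem_filter.1 hy).2) fun y _ _ =>
          mul_nonneg (ker_nonneg hw hp i n x y) (bw_pos hw hp _ _ _).le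

theorem sum_ker_eq {K i n : ℕ} (hK : i + n = K) (hKN : K ≤ N) {x : ℤ} (h1 : lo ≤ x) (h2 : x + n ≤ hi) :
    ∑ y ∈ Icc lo hi, ker w p i n x y * bw w p K (N - K) y = bw w p i (N - i) x := by
  have e : N - i = n + (N - K) := by omega
  rw [e, bw_ker, hK]
  symm
  refine sum_subset (fun y hy => ?_) fun y _ hy' => ?_
  · rw [mem_Icc] at hy ⊢
    omega
  · rw [ker_eq_zero i n x y (fun h => hy' (mem_Icc.2 h)), zero_mul]

/-- One step of `HH`. -/
theorem HH_succ (Q : Finset (ℕ × ℤ)) (K i n : ℕ) (x x' : ℤ) : HH w p Q lo hi N K i (n + 1) x x' =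
    if x < x' then w i x * w i x' * (HH w p Q lo hi N K (i + 1) n x x' + p i * HH w p Q lo hi N K (i + 1) n (x + 1) x' +
      p i * HH w p Q lo hi N K (i + 1) n x (x' + 1) + p i ^ 2 * HH w p Q lo hi N K (i + 1) n (x + 1) (x' + 1) +
      if x + 1 = x' ∧ (i, x') ∈ Q then p i * (∑ y ∈ Icc lo hi, ker w p (i + 1) n x' y * bw w p K (N - K) y) ^ 2 else 0) else 0 := by
  by_cases h : x < x'
  · rw [if_pos h]
    have e1 : (if x + 1 = x' ∧ (i, x') ∈ Q then p i * (∑ y ∈ Icc lo hi, ker w p (i + 1) n x' y * bw w p K (N - K) y) ^ 2 else 0) =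
        ∑ y ∈ Icc lo hi, ∑ y' ∈ Icc lo hi, (if x + 1 = x' ∧ (i, x') ∈ Q then
          p i * (ker w p (i + 1) n x' y * ker w p (i + 1) n x' y') else 0) * (bw w p K (N - K) y * bw w p K (N - K) y') := by
      split_ifs
      · rw [sq, sum_mul_sum, mul_sum]
        refine sum_congr rfl fun y _ => ?_
        rw [mul_sum]
        exact sum_congr rfl fun y' _ => by ring
      · simp
    rw [e1]
    unfold HH
    simp only [mul_sum, ← sum_add_distrib]
    refine sum_congr rfl fun y _ => sum_congr rfl fun y' _ => ?_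
    rw [mq_succ, if_pos h]
    ring
  · rw [if_neg h, HH_not Q K i (n + 1) h]

/-- **The mass of the contacts of `Q`, read at the row `i`.** -/
theorem sum_cq (h : Box l r X lo hi N) (Q : Finset (ℕ × ℤ)) {K : ℕ} (hKN : K ≤ N) : ∀ (n i : ℕ), i + n = K →
    ps2 lo hi (fun x x' => dp w p l r i x x' * HH w p Q lo hi N K i n x x') =
      ∑ k ∈ Ico i K, ∑ q ∈ Icc lo hi, if (k, q) ∈ Q then cq w p l r N k q else 0
  | 0, i, hi0 => by
    have e : Ico i K = ∅ := by
      rw [← hi0]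
      simp
    rw [e, sum_empty]
    unfold ps2 HH
    refine sum_eq_zero fun x _ => sum_eq_zero fun x' _ => ?_
    have : ∑ y ∈ Icc lo hi, ∑ y' ∈ Icc lo hi, mq w p Q i 0 x x' y y' * (bw w p K (N - K) y * bw w p K (N - K) y') = 0 :=
      sum_eq_zero fun y _ => sum_eq_zero fun y' _ => by rw [mq_zero, zero_mul]
    show _ * _ = _
    rw [this, mul_zero]
  | n + 1, i, hi0 => by
    have hN : (0 : ℤ) ≤ N := by positivity
    have hX0 := h.X0
    have hX1 := h.X1
    have ih := sum_cq h Q hKN n (i + 1) (by omega)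
    have hik : i < K := by omega
    have st := sum_dp_pb_step (w := w) (p := p) h (fun x y => HH w p Q lo hi N K (i + 1) n x y) (show i < N by omega) 0
    have e0 : ∀ x y : ℤ, pb w p (fun x y => HH w p Q lo hi N K (i + 1) n x y) (i + 1) 0 x y =
        HH w p Q lo hi N K (i + 1) n x y := by
      intro x y
      rw [pb_zero]
      split_ifs with h1
      · rfl
      · rw [HH_not Q K (i + 1) n h1]
    have e1 : ps2 lo hi (fun x y => dp w p l r (i + 1) x y *
        pb w p (fun x y => HH w p Q lo hi N K (i + 1) n x y) (i + 1) 0 x y) =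
        ps2 lo hi (fun x x' => dp w p l r (i + 1) x x' * HH w p Q lo hi N K (i + 1) n x x') :=
      ps2_congr fun x _ y _ => by rw [e0]
    rw [e1, ih] at st
    have e2 : ∑ q ∈ Icc lo hi, (if (i, q) ∈ Q then cq w p l r N i q else 0) = ps2 lo hi (fun x x' =>
        if x = x' - 1 then (if (i, x') ∈ Q then cq w p l r N i x' else 0) else 0) := by
      unfold ps2
      rw [sum_comm]
      refine sum_congr rfl fun y hy => ?_
      rw [sum_ite_eq' (Icc lo hi) (y - 1)]
      by_cases h3 : y - 1 ∈ Icc lo hi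
      · rw [if_pos h3]
      · rw [if_neg h3]
        rw [mem_Icc] at h3 hy
        unfold cq
        rw [dp_zero_left h i (show y - 1 < lo by omega), zero_mul, ite_self]
    rw [Finset.sum_eq_sum_Ico_succ_bot hik, e2, ← st, ← ps2_add]
    refine ps2_congr fun x hx x' hx' => ?_
    show dp w p l r i x x' * HH w p Q lo hi N K i (n + 1) x x' =
      (if x = x' - 1 then (if (i, x') ∈ Q then cq w p l r N i x' else 0) else 0) +
        dp w p l r i x x' * pb w p (fun x y => HH w p Q lo hi N K (i + 1) n x y) i (0 + 1) x x'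
    rw [HH_succ, pb_succ, e0, e0, e0, e0]
    by_cases hxx : x < x'
    · rw [if_pos hxx, if_pos hxx]
      by_cases h1 : x = x' - 1
      · rw [if_pos h1]
        by_cases h2 : (i, x') ∈ Q
        · rw [if_pos h2, if_pos ⟨by omega, h2⟩]
          by_cases h3 : x' ≤ hi - N + i
          · rw [mem_Icc] at hx hx'
            rw [sum_ker_eq (w := w) (p := p) (N := N) (lo := lo) (hi := hi) (show i + 1 + n = K by omega) hKN hx'.1
              (by omega)]
            unfold cq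
            rw [h1]
            ring
          · unfold cq
            rw [dp_zero_right h (show hi - N + i < x' by omega), dp_zero_right h (show hi - N + i < x' by omega)]
            ring
        · rw [if_neg h2, if_neg (fun h4 => h2 h4.2)]
          ring
      · rw [if_neg h1, if_neg (fun h4 => h1 (by omega))]
        ring
    · rw [if_neg hxx, if_neg hxx, if_neg (by omega)]
      ring

/-- The same for a `Q` in the rows `[i, K)`. -/
theorem sum_cq' (h : Box l r X lo hi N) {Q : Finset (ℕ × ℤ)} {K i n : ℕ} (hK : i + n = K) (hKN : K ≤ N)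
    (hQ : Q ⊆ Ico i K ×ˢ Icc lo hi) : ∑ c ∈ Q, cq w p l r N c.1 c.2 =
      ps2 lo hi (fun x x' => dp w p l r i x x' * HH w p Q lo hi N K i n x x') := by
  rw [sum_cq h Q hKN n i hK, ← sum_product']
  have e : ∑ x ∈ Ico i K ×ˢ Icc lo hi, (if (x.1, x.2) ∈ Q then cq w p l r N x.1 x.2 else 0) =
      ∑ x ∈ (Ico i K ×ˢ Icc lo hi).filter (fun x => x ∈ Q), cq w p l r N x.1 x.2 := by
    rw [sum_filter]
  rw [e]
  refine sum_congr ?_ fun _ _ => rfl
  ext c
  rw [mem_filter]
  exact ⟨fun h1 => ⟨hQ h1, h1⟩, fun h1 => h1.2⟩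

/-- Summation over a part of the box. -/
theorem ps2_sub {A B : Finset ℤ} (hA : A ⊆ Icc lo hi) (hB : B ⊆ Icc lo hi) {f : ℤ → ℤ → ℝ}
    (hf : ∀ x ∈ Icc lo hi, ∀ y ∈ Icc lo hi, 0 ≤ f x y) : ∑ x ∈ A, ∑ y ∈ B, f x y ≤ ps2 lo hi f := by
  unfold ps2
  calc ∑ x ∈ A, ∑ y ∈ B, f x y ≤ ∑ x ∈ A, ∑ y ∈ Icc lo hi, f x y :=
        sum_le_sum fun x hx => sum_le_sum_of_subset_of_nonneg hB fun y hy _ => hf x (hA hx) y hy
    _ ≤ _ := sum_le_sum_of_subset_of_nonneg hA fun x hx _ => sum_nonneg fun y hy => hf x hx y hy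

/-- The mass of the left / right path through `x` and `y`. -/
def thr (w : ℕ → ℤ → ℝ) (p : ℕ → ℝ) (m : ℤ → ℝ) (N K i n : ℕ) (x y : ℤ) : ℝ :=
  fw w p m i x * (ker w p i n x y * bw w p K (N - K) y)

theorem thr_nonneg (hw : ∀ k y, 0 < w k y) (hp : ∀ k, 0 < p k) {m : ℤ → ℝ} (hm : ∀ y, 0 ≤ m y) (K i n : ℕ) (x y : ℤ) :
    0 ≤ thr w p m N K i n x y :=
  mul_nonneg (fw_nonneg hw hp hm i x) (mul_nonneg (ker_nonneg hw hp i n x y) (bw_pos hw hp _ _ _).le)

/-- **FROM THE OLD WEIGHT TO THE INSIDE.** -/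
theorem inG_of_old (hw : ∀ k y, 0 < w k y) (hp : ∀ k, 0 < p k) (h : Box l r X lo hi N) {Q : Finset (ℕ × ℤ)} {K i n : ℕ}
    (hK : i + n = K) (hKN : K ≤ N) (hQ : Q ⊆ Ico i K ×ˢ Icc lo hi) {ε κ ZM ZR : ℝ} (hκ : 0 < κ)
    (hZM : ZM = ∑ y ∈ Icc lo hi, l y * bw w p 0 N y) (hZR : ZR = ∑ y ∈ Icc lo hi, r y * bw w p 0 N y)
    (hM : 0 < ZM) (hR : 0 < ZR) (hε : (1 - ε) * (ZM * ZR) ≤ ∑ c ∈ Q, cq w p l r N c.1 c.2)
    {x x' y y' : ℤ} (hx : x ∈ Icc lo hi) (hx' : x' ∈ Icc lo hi) (hy : y ∈ Icc lo hi) (hy' : y' ∈ Icc lo hi)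
    (h1 : κ * ZM ≤ thr w p l N K i n x y) (h2 : κ * ZR ≤ thr w p r N K i n x' y') :
    (1 - ε / κ ^ 2) * (ker w p i n x y * ker w p i n x' y') ≤ mq w p Q i n x x' y y' := by
  have hlo : lo + N ≤ hi := by
    have := h.X0
    have := h.X1
    omega
  have hN : (0 : ℤ) ≤ N := by positivity
  have zM : ∑ a ∈ Icc lo hi, fw w p l i a * bw w p i (N - i) a = ZM := by
    rw [hZM, sum_fw_bw (fun y hy => (h.lo0 y hy).1) (fun y hy => (h.hi0 y hy).1) hlo i (by omega)]
  have zR : ∑ a ∈ Icc lo hi, fw w p r i a * bw w p i (N - i) a = ZR := by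
    rw [hZR, sum_fw_bw (fun y hy => (h.lo0 y hy).2) (fun y hy => (h.hi0 y hy).2) hlo i (by omega)]
  set H := HH w p Q lo hi N K i n with hH
  set b := bw w p i (N - i) with hb
  set A := fw w p l i with hA
  set B := fw w p r i with hB
  have A0 : ∀ a, 0 ≤ A a := fw_nonneg hw hp h.g.l0 i
  have B0 : ∀ a, 0 ≤ B a := fw_nonneg hw hp h.g.r0 i
  have G0 : ∀ a, 0 < bw w p K (N - K) a := bw_pos hw hp _ _
  have Hb : ∀ a a', H a a' ≤ b a * b a' := by
    intro a a'
    refine le_trans ?_ (mul_le_mul (sum_ker_le (lo := lo) (hi := hi) hw hp hK hKN a)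
      (sum_ker_le (lo := lo) (hi := hi) hw hp hK hKN a')
      (sum_nonneg fun z _ => mul_nonneg (ker_nonneg hw hp i n a' z) (G0 z).le) (bw_pos hw hp _ _ _).le)
    rw [sum_mul_sum]
    refine sum_le_sum fun z _ => sum_le_sum fun z' _ => ?_
    calc _ ≤ (ker w p i n a z * ker w p i n a' z') * (bw w p K (N - K) z * bw w p K (N - K) z') :=
          mul_le_mul_of_nonneg_right (mq_le hw hp Q n i a a' z z') (mul_nonneg (G0 z).le (G0 z').le)
      _ = _ := by ring
  -- the deficit of one quadruple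
  have Hd : (ker w p i n x y * ker w p i n x' y' - mq w p Q i n x x' y y') * (bw w p K (N - K) y * bw w p K (N - K) y') ≤
      b x * b x' - H x x' := by
    have e1 : (∑ z ∈ Icc lo hi, ker w p i n x z * bw w p K (N - K) z) * (∑ z ∈ Icc lo hi, ker w p i n x' z * bw w p K (N - K) z) -
        H x x' = ps2 lo hi (fun z z' => (ker w p i n x z * ker w p i n x' z' - mq w p Q i n x x' z z') *
          (bw w p K (N - K) z * bw w p K (N - K) z')) := by
      rw [hH, sum_mul_sum]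
      unfold HH ps2
      rw [← sum_sub_distrib]
      refine sum_congr rfl fun z _ => ?_
      rw [← sum_sub_distrib]
      exact sum_congr rfl fun z' _ => by ring
    have e2 : (∑ z ∈ Icc lo hi, ker w p i n x z * bw w p K (N - K) z) * (∑ z ∈ Icc lo hi, ker w p i n x' z * bw w p K (N - K) z) ≤
        b x * b x' := mul_le_mul (sum_ker_le hw hp hK hKN x) (sum_ker_le hw hp hK hKN x')
      (sum_nonneg fun z _ => mul_nonneg (ker_nonneg hw hp i n x' z) (G0 z).le) (bw_pos hw hp _ _ _).le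
    have e3 := ps2_sub (lo := lo) (hi := hi) (A := {y}) (B := {y'}) (singleton_subset_iff.2 hy) (singleton_subset_iff.2 hy')
      (f := fun z z' => (ker w p i n x z * ker w p i n x' z' - mq w p Q i n x x' z z') *
          (bw w p K (N - K) z * bw w p K (N - K) z'))
      (fun z _ z' _ => mul_nonneg (sub_nonneg.2 (mq_le hw hp Q n i x x' z z')) (mul_nonneg (G0 z).le (G0 z').le))
    rw [sum_singleton, sum_singleton] at e3
    linarith
  -- the total deficit
  have T : A x * B x' * (b x * b x' - H x x') ≤ ε * (ZM * ZR) := by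
    have e1 : ZM * ZR = ps2 lo hi (fun a a' => A a * B a' * (b a * b a')) := by
      rw [← zM, ← zR, sum_mul_sum]
      exact sum_congr rfl fun a _ => sum_congr rfl fun a' _ => by ring
    have e2 : ∑ c ∈ Q, cq w p l r N c.1 c.2 ≤ ps2 lo hi (fun a a' => A a * B a' * H a a') := by
      rw [sum_cq' h hK hKN hQ]
      refine sum_le_sum fun a _ => sum_le_sum fun a' _ => mul_le_mul_of_nonneg_right ?_ (HH_nonneg hw hp Q K i n a a')
      unfold dp
      have := mul_nonneg (A0 a') (B0 a)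
      linarith
    have e3 : ps2 lo hi (fun a a' => A a * B a' * (b a * b a')) - ps2 lo hi (fun a a' => A a * B a' * H a a') =
        ps2 lo hi (fun a a' => A a * B a' * (b a * b a' - H a a')) := by
      unfold ps2
      rw [← sum_sub_distrib]
      refine sum_congr rfl fun a _ => ?_
      rw [← sum_sub_distrib]
      exact sum_congr rfl fun a' _ => by ring
    have e4 := ps2_sub (lo := lo) (hi := hi) (A := {x}) (B := {x'}) (singleton_subset_iff.2 hx) (singleton_subset_iff.2 hx')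
      (f := fun a a' => A a * B a' * (b a * b a' - H a a'))
      (fun a _ a' _ => mul_nonneg (mul_nonneg (A0 a) (B0 a')) (sub_nonneg.2 (Hb a a')))
    rw [sum_singleton, sum_singleton] at e4
    rw [e1] at hε ⊢
    linarith
  have hε0 : 0 ≤ ε := by
    have h3 : 0 ≤ A x * B x' * (b x * b x' - H x x') := mul_nonneg (mul_nonneg (A0 x) (B0 x')) (sub_nonneg.2 (Hb x x'))
    have h4 : 0 < ZM * ZR := mul_pos hM hR
    by_contra h5
    have := mul_neg_of_neg_of_pos (not_le.1 h5) h4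
    linarith
  set t := ker w p i n x y * ker w p i n x' y' - mq w p Q i n x x' y y' with ht
  have t0 : 0 ≤ t := sub_nonneg.2 (mq_le hw hp Q n i x x' y y')
  have U : A x * B x' * (t * (bw w p K (N - K) y * bw w p K (N - K) y')) ≤ ε * (ZM * ZR) :=
    (mul_le_mul_of_nonneg_left Hd (mul_nonneg (A0 x) (B0 x'))).trans T
  have V : κ ^ 2 * (ZM * ZR) ≤ A x * B x' * (ker w p i n x y * ker w p i n x' y' * (bw w p K (N - K) y * bw w p K (N - K) y')) := by
    have := mul_le_mul h1 h2 (mul_nonneg hκ.le hR.le) (thr_nonneg hw hp h.g.l0 K i n x y)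
    calc κ ^ 2 * (ZM * ZR) = κ * ZM * (κ * ZR) := by ring
      _ ≤ _ := this
      _ = _ := by unfold thr; ring
  -- comparison
  have W1 : A x * B x' * (bw w p K (N - K) y * bw w p K (N - K) y') * t ≤
      A x * B x' * (bw w p K (N - K) y * bw w p K (N - K) y') * (ε / κ ^ 2 * (ker w p i n x y * ker w p i n x' y')) := by
    calc A x * B x' * (bw w p K (N - K) y * bw w p K (N - K) y') * t
        = A x * B x' * (t * (bw w p K (N - K) y * bw w p K (N - K) y')) := by ring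
      _ ≤ ε * (ZM * ZR) := U
      _ = ε / κ ^ 2 * (κ ^ 2 * (ZM * ZR)) := by field_simp
      _ ≤ ε / κ ^ 2 * (A x * B x' * (ker w p i n x y * ker w p i n x' y' * (bw w p K (N - K) y * bw w p K (N - K) y'))) :=
          mul_le_mul_of_nonneg_left V (by positivity)
      _ = _ := by ring
  have F : 0 < A x * B x' * (bw w p K (N - K) y * bw w p K (N - K) y') := by
    have h3 : 0 < κ ^ 2 * (ZM * ZR) := by positivity
    have h4 := lt_of_lt_of_le h3 V
    have h5 : A x * B x' * (ker w p i n x y * ker w p i n x' y' * (bw w p K (N - K) y * bw w p K (N - K) y')) =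
        (ker w p i n x y * ker w p i n x' y') * (A x * B x' * (bw w p K (N - K) y * bw w p K (N - K) y')) := by ring
    rw [h5] at h4
    exact (pos_iff_pos_of_mul_pos h4).1 (lt_of_le_of_ne (mul_nonneg (ker_nonneg hw hp i n x y) (ker_nonneg hw hp i n x' y'))
      fun h6 => by rw [← h6, zero_mul] at h4; exact lt_irrefl _ h4)
  have := le_of_mul_le_mul_left W1 F
  rw [ht] at this
  linarith

/-- The mass of the paths from `β` to `δ`. -/
def thrS (w : ℕ → ℤ → ℝ) (p : ℕ → ℝ) (m : ℤ → ℝ) (N K i n : ℕ) (β δ : Finset ℤ) : ℝ :=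
  ∑ x ∈ β, ∑ y ∈ δ, thr w p m N K i n x y

/-- **FROM THE INSIDE TO THE NEW WEIGHT.** `w` is the new environment; `hin` reads only the rows `[i, i + n)` (`mq_congr`, `ker_congr`). -/
theorem new_of_inG (hw : ∀ k y, 0 < w k y) (hp : ∀ k, 0 < p k) (h : Box l r X lo hi N) {Q : Finset (ℕ × ℤ)} {K i n : ℕ}
    (hK : i + n = K) (hKN : K ≤ N) (hQ : Q ⊆ Ico i K ×ˢ Icc lo hi) {β₁ β₂ δ : Finset ℤ} (b1 : β₁ ⊆ Icc lo hi)
    (b2 : β₂ ⊆ Icc lo hi) (hδ : δ ⊆ Icc lo hi) (hlt : ∀ x ∈ β₁, ∀ x' ∈ β₂, x < x') {ε' : ℝ}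
    (hin : ∀ x ∈ β₁, ∀ x' ∈ β₂, ∀ y ∈ δ, ∀ y' ∈ δ,
      (1 - ε') * (ker w p i n x y * ker w p i n x' y') ≤ mq w p Q i n x x' y y') :
    (1 - ε') * (thrS w p l N K i n β₁ δ * thrS w p r N K i n β₂ δ - thrS w p l N K i n β₂ δ * thrS w p r N K i n β₁ δ) ≤
      ∑ c ∈ Q, cq w p l r N c.1 c.2 := by
  have G0 : ∀ a, 0 < bw w p K (N - K) a := bw_pos hw hp _ _
  rw [sum_cq' h hK hKN hQ]
  have e1 : ∑ x ∈ β₁, ∑ x' ∈ β₂, dp w p l r i x x' * HH w p Q lo hi N K i n x x' ≤
      ps2 lo hi (fun x x' => dp w p l r i x x' * HH w p Q lo hi N K i n x x') := by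
    refine ps2_sub b1 b2 fun x _ x' _ => ?_
    by_cases hx : x < x'
    · exact mul_nonneg (dp_nonneg hw hp h.g i x x' hx.le) (HH_nonneg hw hp Q K i n x x')
    · show 0 ≤ dp w p l r i x x' * HH w p Q lo hi N K i n x x'
      rw [HH_not Q K i n hx, mul_zero]
  refine le_trans ?_ e1
  have e2 : ∀ x ∈ β₁, ∀ x' ∈ β₂, (1 - ε') * ((∑ y ∈ δ, ker w p i n x y * bw w p K (N - K) y) *
      ∑ y ∈ δ, ker w p i n x' y * bw w p K (N - K) y) ≤ HH w p Q lo hi N K i n x x' := by
    intro x hx x' hx'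
    refine le_trans ?_ (ps2_sub (f := fun y y' => mq w p Q i n x x' y y' * (bw w p K (N - K) y * bw w p K (N - K) y')) hδ hδ
      fun y _ y' _ => mul_nonneg (mq_nonneg hw hp Q n i x x' y y') (mul_nonneg (G0 y).le (G0 y').le))
    rw [sum_mul_sum, mul_sum]
    refine sum_le_sum fun y hy => ?_
    rw [mul_sum]
    refine sum_le_sum fun y' hy' => ?_
    calc (1 - ε') * (ker w p i n x y * bw w p K (N - K) y * (ker w p i n x' y' * bw w p K (N - K) y'))
        = ((1 - ε') * (ker w p i n x y * ker w p i n x' y')) * (bw w p K (N - K) y * bw w p K (N - K) y') := by ring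
      _ ≤ _ := mul_le_mul_of_nonneg_right (hin x hx x' hx' y hy y' hy') (mul_nonneg (G0 y).le (G0 y').le)
  have e3 : ∀ m : ℤ → ℝ, ∀ β : Finset ℤ, thrS w p m N K i n β δ =
      ∑ x ∈ β, fw w p m i x * ∑ y ∈ δ, ker w p i n x y * bw w p K (N - K) y := fun m β => by
    unfold thrS thr
    exact sum_congr rfl fun x _ => by rw [mul_sum]
  have e4 : (1 - ε') * (thrS w p l N K i n β₁ δ * thrS w p r N K i n β₂ δ - thrS w p l N K i n β₂ δ * thrS w p r N K i n β₁ δ) =
      ∑ x ∈ β₁, ∑ x' ∈ β₂, dp w p l r i x x' * ((1 - ε') * ((∑ y ∈ δ, ker w p i n x y * bw w p K (N - K) y) *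
      ∑ y ∈ δ, ker w p i n x' y * bw w p K (N - K) y)) := by
    rw [e3, e3, e3, e3, sum_mul_sum]
    have e5 : (∑ x ∈ β₂, fw w p l i x * ∑ y ∈ δ, ker w p i n x y * bw w p K (N - K) y) *
        (∑ x ∈ β₁, fw w p r i x * ∑ y ∈ δ, ker w p i n x y * bw w p K (N - K) y) =
        ∑ x ∈ β₁, ∑ x' ∈ β₂, (fw w p l i x' * ∑ y ∈ δ, ker w p i n x' y * bw w p K (N - K) y) *
          (fw w p r i x * ∑ y ∈ δ, ker w p i n x y * bw w p K (N - K) y) := by
      rw [sum_mul_sum, sum_comm]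
    rw [e5, ← sum_sub_distrib, mul_sum]
    refine sum_congr rfl fun x _ => ?_
    rw [← sum_sub_distrib, mul_sum]
    refine sum_congr rfl fun x' _ => ?_
    unfold dp
    ring
  rw [e4]
  exact sum_le_sum fun x hx => sum_le_sum fun x' hx' =>
    mul_le_mul_of_nonneg_left (e2 x hx x' hx') (dp_nonneg hw hp h.g i x x' (hlt x hx x' hx').le)

/-- The masses of two disjoint sets of sites. -/
theorem thrS_add (hw : ∀ k y, 0 < w k y) (hp : ∀ k, 0 < p k) (h : Box l r X lo hi N) {m : ℤ → ℝ} (hm : ∀ y, 0 ≤ m y)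
    (m1 : ∀ y, y < lo → m y = 0) (m2 : ∀ y, hi - N < y → m y = 0) {K i n : ℕ}
    (hK : i + n = K) (hKN : K ≤ N) {β₁ β₂ δ : Finset ℤ} (b1 : β₁ ⊆ Icc lo hi)
    (b2 : β₂ ⊆ Icc lo hi) (hδ : δ ⊆ Icc lo hi) (hd : Disjoint β₁ β₂) :
    thrS w p m N K i n β₁ δ + thrS w p m N K i n β₂ δ ≤ ∑ y ∈ Icc lo hi, m y * bw w p 0 N y := by
  have hlo : lo + N ≤ hi := by
    have := h.X0
    have := h.X1
    omega
  have e1 := sum_fw_bw (w := w) (p := p) (m := m) m1 m2 hlo i (by omega)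
  have hN : (0 : ℤ) ≤ N := by positivity
  unfold thrS
  rw [← e1, ← sum_union hd]
  calc ∑ x ∈ β₁ ∪ β₂, ∑ y ∈ δ, thr w p m N K i n x y
      ≤ ∑ x ∈ Icc lo hi, ∑ y ∈ δ, thr w p m N K i n x y :=
        sum_le_sum_of_subset_of_nonneg (union_subset b1 b2) fun x _ _ => sum_nonneg fun y _ => thr_nonneg hw hp hm K i n x y
    _ ≤ _ := sum_le_sum fun x _ => ?_
  have e2 : ∑ y ∈ δ, thr w p m N K i n x y = fw w p m i x * ∑ y ∈ δ, ker w p i n x y * bw w p K (N - K) y := by
    rw [mul_sum]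
    rfl
  rw [e2]
  refine mul_le_mul_of_nonneg_left ?_ (fw_nonneg hw hp hm i x)
  refine le_trans ?_ (sum_ker_le (lo := lo) (hi := hi) hw hp hK hKN x)
  exact sum_le_sum_of_subset_of_nonneg hδ fun y _ _ => mul_nonneg (ker_nonneg hw hp i n x y) (bw_pos hw hp _ _ _).le

/-- **The new weight**: if the left path goes through `β₁ → δ` and the right path through `β₂ → δ` up to `z` then the weight of `Q` is at
least `(1 - ε') (1 - 2 z)`. -/
theorem new_of_inG' (hw : ∀ k y, 0 < w k y) (hp : ∀ k, 0 < p k) (h : Box l r X lo hi N) {Q : Finset (ℕ × ℤ)} {K i n : ℕ}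
    (hK : i + n = K) (hKN : K ≤ N) (hQ : Q ⊆ Ico i K ×ˢ Icc lo hi) {β₁ β₂ δ : Finset ℤ} (b1 : β₁ ⊆ Icc lo hi)
    (b2 : β₂ ⊆ Icc lo hi) (hδ : δ ⊆ Icc lo hi) (hlt : ∀ x ∈ β₁, ∀ x' ∈ β₂, x < x') {ε' z ZM ZR : ℝ} (hε' : ε' ≤ 1) (hz : z ≤ 1)
    (hZM : ZM = ∑ y ∈ Icc lo hi, l y * bw w p 0 N y) (hZR : ZR = ∑ y ∈ Icc lo hi, r y * bw w p 0 N y)
    (hin : ∀ x ∈ β₁, ∀ x' ∈ β₂, ∀ y ∈ δ, ∀ y' ∈ δ,
      (1 - ε') * (ker w p i n x y * ker w p i n x' y') ≤ mq w p Q i n x x' y y')
    (h1 : (1 - z) * ZM ≤ thrS w p l N K i n β₁ δ) (h2 : (1 - z) * ZR ≤ thrS w p r N K i n β₂ δ) :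
    (1 - ε') * (1 - 2 * z) * (ZM * ZR) ≤ ∑ c ∈ Q, cq w p l r N c.1 c.2 := by
  have key := new_of_inG hw hp h hK hKN hQ b1 b2 hδ hlt hin
  have hd : Disjoint β₁ β₂ := disjoint_left.2 fun x hx hx' => absurd (hlt x hx x hx') (lt_irrefl x)
  have a1 := thrS_add hw hp h h.g.l0 (fun y hy => (h.lo0 y hy).1) (fun y hy => (h.hi0 y hy).1) hK hKN b1 b2 hδ hd
  have a2 := thrS_add hw hp h h.g.r0 (fun y hy => (h.lo0 y hy).2) (fun y hy => (h.hi0 y hy).2) hK hKN b1 b2 hδ hd
  rw [← hZM] at a1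
  rw [← hZR] at a2
  have p1 : 0 ≤ thrS w p l N K i n β₂ δ := sum_nonneg fun x _ => sum_nonneg fun y _ => thr_nonneg hw hp h.g.l0 K i n x y
  have p2 : 0 ≤ thrS w p r N K i n β₁ δ := sum_nonneg fun x _ => sum_nonneg fun y _ => thr_nonneg hw hp h.g.r0 K i n x y
  have z1 : 0 ≤ ZM := by
    rw [hZM]
    exact sum_nonneg fun y _ => mul_nonneg (h.g.l0 y) (bw_pos hw hp _ _ _).le
  have z2 : 0 ≤ ZR := by
    rw [hZR]
    exact sum_nonneg fun y _ => mul_nonneg (h.g.r0 y) (bw_pos hw hp _ _ _).le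
  have d1 : (1 - z) * ZM * ((1 - z) * ZR) ≤ thrS w p l N K i n β₁ δ * thrS w p r N K i n β₂ δ :=
    mul_le_mul h1 h2 (mul_nonneg (by linarith) z2) (le_trans (mul_nonneg (by linarith) z1) h1)
  have d2 : thrS w p l N K i n β₂ δ * thrS w p r N K i n β₁ δ ≤ z * ZM * (z * ZR) :=
    mul_le_mul (by linarith) (by linarith) p2 (le_trans p1 (by linarith))
  refine le_trans ?_ key
  rw [mul_assoc]
  refine mul_le_mul_of_nonneg_left ?_ (by linarith)
  nlinarith

end

end Pool.Agent.W_7d29a1_C1.Bx47
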