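import Pool.Agent.W_7d29a1_C1.BoxD69

/-!
MP_7d29a1_pr, [C1], resampled WINDOWS, part A: algebra. (helper69)

`MF69 R η a n F` = mass of the paths in `R` with `n` steps from `a`, with the future profile `F` at the last row.
* `exit69`, `exit_full69`: decomposition at the first exit of `Ω` (equality);
* `touch69`: the kernel in `R` against the kernel in `Ω`, union bound over the sites off `Ω`;
* `close69`: THE CLOSURE. If outside of the window (set `Out`) the masses of two environments satisfy the same recursion except at the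
  active sites, and at the active sites the mass confined to `Ω` is at most `R₀ / 2` old masses and the exits of `Ω` (which are in `Out`)
  carry at most half an old mass, then `M' ≤ R₀ M` at every site of `Out`;
* `row69`: the same for any other start.
-/

set_option autoImplicit false

namespace Pool.Agent.W_7d29a1_C1

open MeasureTheory ProbabilityTheory Filter Topology
open Pool.Agent.W_7d29a1_F Pool.Agent.W_7d29a1_h4g Pool.Agent.W_7d29a1_H Pool.Agent.W_7d29a1_HS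
open Pool.Agent.W_7d29a1_HL (WR_off WR_last_off WR_add' WR_mono' WR_zero' cS)

noncomputable section

variable {μ : Measure ℝ} {s : ℝ}

theorem WR_steps0 (R : Set Pt) (η : Env) (a : Pt) (y : ℤ) : WR μ s R η a 0 y = if y = 0 then 1 else 0 := by
  unfold WR Zr
  split_ifs with h
  · subst h
    simp
  · simp

theorem MF69_zero (R : Set Pt) (η : Env) (a : Pt) (F : ℤ → ℝ) : MF69 μ s R η a 0 F = F a.2 := by
  unfold MF69
  have e : Finset.Icc (0 : ℤ) ((0 : ℕ) : ℤ) = {0} := by simp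
  rw [e, Finset.sum_singleton, WR_steps0, if_pos rfl, one_mul, add_zero]

theorem MF69_eq [IsProbabilityMeasure μ] (R : Set Pt) (η : Env) (t x : ℤ) (n : ℕ) (F : ℤ → ℝ) {A B : ℤ} (hA : A ≤ x) (hB : x + n ≤ B) :
    MF69 μ s R η (t, x) n F = ∑ y ∈ Finset.Icc A B, WR μ s R η (t, x) n (y - x) * F y := by
  have h1 : ∑ y ∈ Finset.Icc A B, WR μ s R η (t, x) n (y - x) * F y =
      ∑ y ∈ Finset.Icc x (x + n), WR μ s R η (t, x) n (y - x) * F y := by
    symm
    refine Finset.sum_subset (Finset.Icc_subset_Icc hA hB) fun u _ hu => ?_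
    rw [WR_off R η (t, x) (n := n) (y := u - x), zero_mul]
    intro h
    apply hu
    rw [Finset.mem_Icc]
    omega
  rw [h1]
  have h2 : Finset.Icc x (x + n) = (Finset.Icc (0 : ℤ) n).map (addRightEmbedding x) := by
    rw [Finset.map_add_right_Icc, zero_add, add_comm]
  rw [h2, Finset.sum_map]
  refine Finset.sum_congr rfl fun k _ => ?_
  simp only [addRightEmbedding_apply, add_sub_cancel_right]
  rw [add_comm k x]

theorem MF69_nonneg [IsProbabilityMeasure μ] (R : Set Pt) (η : Env) (a : Pt) (n : ℕ) {F : ℤ → ℝ} (hF : ∀ y, 0 ≤ F y) :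
    0 ≤ MF69 μ s R η a n F :=
  Finset.sum_nonneg fun _ _ => mul_nonneg (WR_nonneg _ _ _ _ _) (hF _)

theorem MF69_mono [IsProbabilityMeasure μ] {R R' : Set Pt} (h : R ⊆ R') (η : Env) (a : Pt) (n : ℕ) {F : ℤ → ℝ} (hF : ∀ y, 0 ≤ F y) :
    MF69 μ s R η a n F ≤ MF69 μ s R' η a n F :=
  Finset.sum_le_sum fun _ _ => mul_le_mul_of_nonneg_right (WR_mono' h _ _ _ _) (hF _)

/-- Chapman - Kolmogorov. -/
theorem MF69_add [IsProbabilityMeasure μ] (R : Set Pt) (η : Env) (t x : ℤ) (m n : ℕ) (F : ℤ → ℝ) {A B : ℤ} (hA : A ≤ x)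
    (hB : x + m ≤ B) : MF69 μ s R η (t, x) (m + n) F =
      ∑ u ∈ Finset.Icc A B, WR μ s R η (t, x) m (u - x) * MF69 μ s R η (t + m, u) n F := by
  rw [MF69_eq R η t x (m + n) F (A := A) (B := B + n) hA (by push_cast; omega)]
  have h1 : ∀ y ∈ Finset.Icc A (B + n), WR μ s R η (t, x) (m + n) (y - x) * F y =
      ∑ u ∈ Finset.Icc A B, WR μ s R η (t, x) m (u - x) * (WR μ s R η (t + m, u) n (y - u) * F y) := by
    intro y _
    rw [WR_add' R η t x m n y hA hB, Finset.sum_mul]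
    exact Finset.sum_congr rfl fun u _ => by ring
  rw [Finset.sum_congr rfl h1, Finset.sum_comm]
  refine Finset.sum_congr rfl fun u hu => ?_
  rw [Finset.mem_Icc] at hu
  rw [← Finset.mul_sum, MF69_eq R η (t + m) u n F (A := A) (B := B + n) hu.1 (by omega)]

/-- One step with the end in `R`. -/
theorem WR_one69 [IsProbabilityMeasure μ] (R : Set Pt) (η : Env) (a : Pt) (y : ℤ) (h : ((a.1 + 1, a.2 + y) : Pt) ∈ R) :
    WR μ s R η a 1 y = W μ s η a 1 y := by
  unfold W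
  rw [WR_zero', WR_zero']
  congr 1
  have e : ∀ S : Set Pt, Zr S η a 1 y = S.indicator (fun p => Real.exp (η p)) (a.1 + (((0 : ℕ) : ℤ) + 1), a.2 + y) *
      (Zr S η a 0 y + Zr S η a 0 (y - 1)) := fun S => rfl
  have h' : ((a.1 + (((0 : ℕ) : ℤ) + 1), a.2 + y) : Pt) ∈ R := by simpa using h
  rw [e R, e Set.univ, Set.indicator_of_mem h', Set.indicator_univ]
  rfl

/-- One step reads the end only. -/
theorem W_one_congr69 [IsProbabilityMeasure μ] {η η' : Env} (a : Pt) (y : ℤ) (h : η ((a.1 + 1, a.2 + y) : Pt) = η' ((a.1 + 1, a.2 + y) : Pt)) :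
    W μ s η a 1 y = W μ s η' a 1 y := by
  unfold W
  rw [WR_zero', WR_zero']
  congr 1
  have e : ∀ ξ : Env, Zr Set.univ ξ a 1 y = Set.univ.indicator (fun p => Real.exp (ξ p)) (a.1 + (((0 : ℕ) : ℤ) + 1), a.2 + y) *
      (Zr Set.univ ξ a 0 y + Zr Set.univ ξ a 0 (y - 1)) := fun ξ => rfl
  have e2 : ((a.1 + (((0 : ℕ) : ℤ) + 1), a.2 + y) : Pt) = (a.1 + 1, a.2 + y) := by simp
  rw [e η, e η', Set.indicator_univ, Set.indicator_univ, e2, h]
  rfl

/-- `k` steps in `Ω`, then one step in `R` to the column `u`. -/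
def X69 (μ : Measure ℝ) (s : ℝ) (Ω R : Set Pt) (η : Env) (t x : ℤ) (k : ℕ) (u : ℤ) : ℝ :=
  ∑ v ∈ Finset.Icc x (x + k), WR μ s Ω η (t, x) k (v - x) * WR μ s R η (t + k, v) 1 (u - v)

theorem X69_nonneg [IsProbabilityMeasure μ] (Ω R : Set Pt) (η : Env) (t x : ℤ) (k : ℕ) (u : ℤ) : 0 ≤ X69 μ s Ω R η t x k u :=
  Finset.sum_nonneg fun _ _ => mul_nonneg (WR_nonneg _ _ _ _ _) (WR_nonneg _ _ _ _ _)

theorem X69_le [IsProbabilityMeasure μ] {Ω R R' : Set Pt} (hΩ : Ω ⊆ R') (η : Env) (t x : ℤ) (k : ℕ) (u : ℤ)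
    (hu : ((t + (k + 1 : ℕ), u) : Pt) ∈ R') : X69 μ s Ω R η t x k u ≤ WR μ s R' η (t, x) (k + 1) (u - x) := by
  rw [WR_add' R' η t x k 1 u (A := x) (B := x + k) le_rfl le_rfl]
  refine Finset.sum_le_sum fun v _ => mul_le_mul (WR_mono' hΩ η _ _ _) ?_ (WR_nonneg _ _ _ _ _) (WR_nonneg _ _ _ _ _)
  rw [WR_one69 R' η (t + k, v) (u - v) (by
    have e : ((((t + k, v) : Pt).1 + 1, ((t + k, v) : Pt).2 + (u - v)) : Pt) = (t + (k + 1 : ℕ), u) := by
      ext
      · show t + (k : ℤ) + 1 = t + ((k + 1 : ℕ) : ℤ)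
        push_cast
        ring
      · show v + (u - v) = u
        ring
    rw [e]
    exact hu)]
  exact WR_le_W _ _ _ _ _

theorem X69_eq [IsProbabilityMeasure μ] {Ω R : Set Pt} (hΩ : Ω ⊆ R) (η : Env) (t x : ℤ) (k : ℕ) (u : ℤ)
    (hu : ((t + (k + 1 : ℕ), u) : Pt) ∈ Ω) : X69 μ s Ω R η t x k u = WR μ s Ω η (t, x) (k + 1) (u - x) := by
  rw [WR_add' Ω η t x k 1 u (A := x) (B := x + k) le_rfl le_rfl]
  refine Finset.sum_congr rfl fun v _ => ?_
  have e : ((((t + k, v) : Pt).1 + 1, ((t + k, v) : Pt).2 + (u - v)) : Pt) = (t + (k + 1 : ℕ), u) := by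
    ext
    · show t + (k : ℤ) + 1 = t + ((k + 1 : ℕ) : ℤ)
      push_cast
      ring
    · show v + (u - v) = u
      ring
  rw [WR_one69 Ω η (t + k, v) (u - v) (by rw [e]; exact hu), WR_one69 R η (t + k, v) (u - v) (by rw [e]; exact hΩ hu)]

/-- **First exit of `Ω`**, up to the row `t + j`. -/
theorem exit69 [IsProbabilityMeasure μ] {Ω R : Set Pt} (hΩ : Ω ⊆ R) (η : Env) (t x : ℤ) (n : ℕ) (F : ℤ → ℝ) (j : ℕ) (hj : j ≤ n) :
    MF69 μ s R η (t, x) n F =
      ∑ u ∈ Finset.Icc x (x + j), WR μ s Ω η (t, x) j (u - x) * MF69 μ s R η (t + j, u) (n - j) F +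
      ∑ k ∈ Finset.range j, ∑ u ∈ Finset.Icc x (x + (k + 1 : ℕ)),
        (open Classical in if ((t + (k + 1 : ℕ), u) : Pt) ∈ Ω then 0 else
          X69 μ s Ω R η t x k u * MF69 μ s R η (t + (k + 1 : ℕ), u) (n - (k + 1)) F) := by
  classical
  induction j with
  | zero =>
    have e : Finset.Icc x (x + ((0 : ℕ) : ℤ)) = {x} := by simp
    rw [e, Finset.sum_singleton, Finset.range_zero, Finset.sum_empty, WR_steps0, sub_self, if_pos rfl, one_mul, add_zero]
    have e2 : t + ((0 : ℕ) : ℤ) = t := by simp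
    rw [e2, Nat.sub_zero]
  | succ j ih =>
    rw [ih (by omega), Finset.sum_range_succ, ← add_assoc, add_right_comm]
    congr 1
    have en : n - j = 1 + (n - (j + 1)) := by omega
    have e1 : ∀ u ∈ Finset.Icc x (x + (j : ℤ)), WR μ s Ω η (t, x) j (u - x) * MF69 μ s R η (t + j, u) (n - j) F =
        ∑ u' ∈ Finset.Icc x (x + (j + 1 : ℕ)), WR μ s Ω η (t, x) j (u - x) * WR μ s R η (t + j, u) 1 (u' - u) *
          MF69 μ s R η (t + (j + 1 : ℕ), u') (n - (j + 1)) F := by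
      intro u hu
      rw [Finset.mem_Icc] at hu
      rw [en, MF69_add R η (t + j) u 1 (n - (j + 1)) F (A := x) (B := x + (j + 1 : ℕ)) hu.1 (by push_cast; omega), Finset.mul_sum]
      refine Finset.sum_congr rfl fun u' _ => ?_
      have e3 : t + (j : ℤ) + ((1 : ℕ) : ℤ) = t + ((j + 1 : ℕ) : ℤ) := by push_cast; ring
      rw [e3]
      ring
    rw [Finset.sum_congr rfl e1, Finset.sum_comm, ← Finset.sum_add_distrib]
    refine Finset.sum_congr rfl fun u' hu' => ?_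
    have e4 : ∑ u ∈ Finset.Icc x (x + (j : ℤ)), WR μ s Ω η (t, x) j (u - x) * WR μ s R η (t + j, u) 1 (u' - u) *
          MF69 μ s R η (t + (j + 1 : ℕ), u') (n - (j + 1)) F =
        X69 μ s Ω R η t x j u' * MF69 μ s R η (t + (j + 1 : ℕ), u') (n - (j + 1)) F := by
      rw [← Finset.sum_mul]
      rfl
    rw [e4]
    by_cases hm : ((t + (j + 1 : ℕ), u') : Pt) ∈ Ω
    · rw [if_pos hm, add_zero, X69_eq hΩ η t x j u' hm]
    · rw [if_neg hm, WR_last_off η (t, x) (n := j + 1) (by omega) (y := u' - x) (by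
        have e5 : ((((t, x) : Pt).1 + ((j + 1 : ℕ) : ℤ), ((t, x) : Pt).2 + (u' - x)) : Pt) = (t + (j + 1 : ℕ), u') := by
          ext
          · rfl
          · show x + (u' - x) = u'
            ring
        rw [e5]
        exact hm), zero_mul, zero_add]

open Classical in
/-- The masses of the first exits of `Ω` (from paths in `R`), weighted by `G` (steps, column). -/
def Ex69 (μ : Measure ℝ) (s : ℝ) (Ω R : Set Pt) (η : Env) (t x : ℤ) (n : ℕ) (G : ℕ → ℤ → ℝ) : ℝ :=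
  ∑ k ∈ Finset.range n, ∑ u ∈ Finset.Icc x (x + (k + 1 : ℕ)),
    if ((t + (k + 1 : ℕ), u) : Pt) ∈ Ω then 0 else X69 μ s Ω R η t x k u * G (k + 1) u

theorem Ex69_mono [IsProbabilityMeasure μ] {Ω R : Set Pt} {η : Env} {t x : ℤ} {n : ℕ} {G G' : ℕ → ℤ → ℝ}
    (h : ∀ (k : ℕ) (u : ℤ), 1 ≤ k → k ≤ n → ((t + k, u) : Pt) ∉ Ω → G k u ≤ G' k u) :
    Ex69 μ s Ω R η t x n G ≤ Ex69 μ s Ω R η t x n G' := by
  classical
  refine Finset.sum_le_sum fun k hk => Finset.sum_le_sum fun u _ => ?_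
  rw [Finset.mem_range] at hk
  split_ifs with hm
  · exact le_rfl
  · exact mul_le_mul_of_nonneg_left (h (k + 1) u (by omega) (by omega) hm) (X69_nonneg _ _ _ _ _ _ _)

theorem Ex69_smul {Ω R : Set Pt} {η : Env} {t x : ℤ} {n : ℕ} {G : ℕ → ℤ → ℝ} (c : ℝ) :
    Ex69 μ s Ω R η t x n (fun k u => c * G k u) = c * Ex69 μ s Ω R η t x n G := by
  classical
  unfold Ex69
  rw [Finset.mul_sum]
  refine Finset.sum_congr rfl fun k _ => ?_
  rw [Finset.mul_sum]
  refine Finset.sum_congr rfl fun u _ => ?_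
  split_ifs
  · rw [mul_zero]
  · ring

theorem Ex69_nonneg [IsProbabilityMeasure μ] {Ω R : Set Pt} {η : Env} {t x : ℤ} {n : ℕ} {G : ℕ → ℤ → ℝ} (hG : ∀ k u, 0 ≤ G k u) :
    0 ≤ Ex69 μ s Ω R η t x n G := by
  classical
  refine Finset.sum_nonneg fun k _ => Finset.sum_nonneg fun u _ => ?_
  split_ifs
  · exact le_rfl
  · exact mul_nonneg (X69_nonneg _ _ _ _ _ _ _) (hG _ _)

/-- The exits, with a bound of the kernels of a larger region `R'` which contains the exits. -/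
theorem Ex69_le [IsProbabilityMeasure μ] {Ω R R' : Set Pt} (hΩ : Ω ⊆ R') {η : Env} {t x : ℤ} {n : ℕ} {G : ℕ → ℤ → ℝ} {g : ℝ}
    (hR' : ∀ (k : ℕ) (u : ℤ), 1 ≤ k → k ≤ n → ((t + k, u) : Pt) ∉ Ω → X69 μ s Ω R η t x (k - 1) u ≠ 0 → ((t + k, u) : Pt) ∈ R')
    (hg : 0 ≤ g) (hG : ∀ (k : ℕ) (u : ℤ), 1 ≤ k → k ≤ n → ((t + k, u) : Pt) ∉ Ω → ((t + k, u) : Pt) ∈ R' → G k u ≤ g) :
    Ex69 μ s Ω R η t x n G ≤ g * ∑ k ∈ Finset.range n, ∑ u ∈ Finset.Icc x (x + (k + 1 : ℕ)),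
      (open Classical in if ((t + (k + 1 : ℕ), u) : Pt) ∈ Ω then 0 else WR μ s R' η (t, x) (k + 1) (u - x)) := by
  classical
  rw [Finset.mul_sum]
  refine Finset.sum_le_sum fun k hk => ?_
  rw [Finset.mul_sum]
  refine Finset.sum_le_sum fun u _ => ?_
  rw [Finset.mem_range] at hk
  split_ifs with hm
  · rw [mul_zero]
  · rcases eq_or_ne (X69 μ s Ω R η t x k u) 0 with h0 | h0
    · rw [h0, zero_mul]
      exact mul_nonneg hg (WR_nonneg _ _ _ _ _)
    · have h1 := hR' (k + 1) u (by omega) (by omega) hm (by simpa using h0)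
      calc X69 μ s Ω R η t x k u * G (k + 1) u ≤ X69 μ s Ω R η t x k u * g :=
            mul_le_mul_of_nonneg_left (hG (k + 1) u (by omega) (by omega) hm h1) (X69_nonneg _ _ _ _ _ _ _)
        _ ≤ WR μ s R' η (t, x) (k + 1) (u - x) * g := mul_le_mul_of_nonneg_right (X69_le hΩ η t x k u h1) hg
        _ = _ := mul_comm _ _

/-- **First exit of `Ω`**, whole length. -/
theorem exit_full69 [IsProbabilityMeasure μ] {Ω R : Set Pt} (hΩ : Ω ⊆ R) (η : Env) (t x : ℤ) (n : ℕ) (F : ℤ → ℝ) :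
    MF69 μ s R η (t, x) n F = MF69 μ s Ω η (t, x) n F +
      Ex69 μ s Ω R η t x n (fun k u => MF69 μ s R η (t + k, u) (n - k) F) := by
  rw [exit69 hΩ η t x n F n le_rfl]
  congr 1
  rw [MF69_eq Ω η t x n F (A := x) (B := x + n) le_rfl le_rfl]
  refine Finset.sum_congr rfl fun u _ => ?_
  rw [Nat.sub_self, MF69_zero]

/-- **Union bound over the sites off `Ω`.** -/
theorem touch69 [IsProbabilityMeasure μ] {Ω R : Set Pt} (hΩ : Ω ⊆ R) (η : Env) (t x : ℤ) (n : ℕ) (y : ℤ) :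
    WR μ s R η (t, x) n (y - x) ≤ WR μ s Ω η (t, x) n (y - x) + ∑ k ∈ Finset.range n, ∑ u ∈ Finset.Icc x (x + (k + 1 : ℕ)),
      (open Classical in if ((t + (k + 1 : ℕ), u) : Pt) ∈ Ω then 0 else
        WR μ s R η (t, x) (k + 1) (u - x) * WR μ s R η (t + (k + 1 : ℕ), u) (n - (k + 1)) (y - u)) := by
  classical
  have hF : ∀ (Q : Set Pt) (t' x' : ℤ) (m : ℕ), MF69 μ s Q η (t', x') m (fun z => if z = y then 1 else 0) = WR μ s Q η (t', x') m (y - x') := by
    intro Q t' x' m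
    rw [MF69_eq Q η t' x' m _ (A := min x' y) (B := max (x' + m) y) (min_le_left _ _) (le_max_left _ _),
      Finset.sum_eq_single_of_mem y (Finset.mem_Icc.2 ⟨min_le_right _ _, le_max_right _ _⟩)]
    · rw [if_pos rfl, mul_one]
    · intro z _ hz
      rw [if_neg hz, mul_zero]
  have h1 := exit_full69 (μ := μ) (s := s) hΩ η t x n (fun z => if z = y then 1 else 0)
  rw [hF, hF] at h1
  rw [h1]
  refine add_le_add le_rfl (Finset.sum_le_sum fun k hk => Finset.sum_le_sum fun u _ => ?_)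
  rw [Finset.mem_range] at hk
  split_ifs with hm
  · exact le_rfl
  · dsimp only
    rw [hF]
    refine mul_le_mul_of_nonneg_right ?_ (WR_nonneg _ _ _ _ _)
    by_cases hR : ((t + (k + 1 : ℕ), u) : Pt) ∈ R
    · exact X69_le hΩ η t x k u hR
    · have h0 : X69 μ s Ω R η t x k u = 0 := by
        refine Finset.sum_eq_zero fun v _ => ?_
        rw [WR_last_off η (t + k, v) (n := 1) le_rfl (y := u - v) (by
          have e5 : ((((t + k, v) : Pt).1 + ((1 : ℕ) : ℤ), ((t + k, v) : Pt).2 + (u - v)) : Pt) = (t + (k + 1 : ℕ), u) := by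
            ext
            · show t + (k : ℤ) + ((1 : ℕ) : ℤ) = t + ((k + 1 : ℕ) : ℤ)
              push_cast
              ring
            · show v + (u - v) = u
              ring
          rw [e5]
          exact hR), mul_zero]
      rw [h0]
      exact WR_nonneg _ _ _ _ _

/-- **THE CLOSURE.** -/
theorem close69 [IsProbabilityMeasure μ] {η η' : Env} {F : ℤ → ℝ} (hF : ∀ y, 0 ≤ F y) {Out Act Ω : Set Pt} {T : ℕ} {R₀ : ℝ} (hR : 1 ≤ R₀)
    (h1 : ∀ (t : ℕ) (x : ℤ), t < T → (((t : ℤ), x) : Pt) ∈ Out → (((t : ℤ), x) : Pt) ∉ Act → ∀ δ : ℤ, (δ = 0 ∨ δ = 1) →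
      (((t : ℤ) + 1, x + δ) : Pt) ∈ Out ∧ η (((t : ℤ) + 1, x + δ) : Pt) = η' (((t : ℤ) + 1, x + δ) : Pt))
    (h2 : ∀ (t : ℕ) (x : ℤ), t < T → (((t : ℤ), x) : Pt) ∈ Out → (((t : ℤ), x) : Pt) ∈ Act →
      MF69 μ s Ω η' ((t : ℤ), x) (T - t) F ≤ R₀ / 2 * MF69 μ s Set.univ η ((t : ℤ), x) (T - t) F ∧
      Ex69 μ s Ω Set.univ η' t x (T - t) (fun k u => MF69 μ s Set.univ η ((t : ℤ) + k, u) (T - t - k) F) ≤
        1 / 2 * MF69 μ s Set.univ η ((t : ℤ), x) (T - t) F)
    (h3 : ∀ (t : ℕ) (x : ℤ), t ≤ T → (((t : ℤ), x) : Pt) ∉ Ω → (((t : ℤ), x) : Pt) ∈ Out) :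
    ∀ (n t : ℕ) (x : ℤ), t + n = T → (((t : ℤ), x) : Pt) ∈ Out →
      MF69 μ s Set.univ η' ((t : ℤ), x) n F ≤ R₀ * MF69 μ s Set.univ η ((t : ℤ), x) n F := by
  intro n
  induction n using Nat.strong_induction_on with
  | _ n ih =>
    intro t x htn hx
    have hR0 : 0 ≤ R₀ := by linarith
    rcases Nat.eq_zero_or_pos n with h0 | h0
    · subst h0
      rw [MF69_zero, MF69_zero]
      have := hF x
      show F x ≤ R₀ * F x
      nlinarith
    · by_cases hA : (((t : ℤ), x) : Pt) ∈ Act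
      · obtain ⟨a1, a2⟩ := h2 t x (by omega) hx hA
        have en : T - t = n := by omega
        rw [en] at a1 a2
        rw [exit_full69 (μ := μ) (s := s) (Set.subset_univ Ω) η' t x n F]
        have h4 : Ex69 μ s Ω Set.univ η' t x n (fun k u => MF69 μ s Set.univ η' ((t : ℤ) + k, u) (n - k) F) ≤
            Ex69 μ s Ω Set.univ η' t x n (fun k u => R₀ * MF69 μ s Set.univ η ((t : ℤ) + k, u) (n - k) F) := by
          refine Ex69_mono fun k u hk hk' hm => ?_
          have e : (((t : ℤ) + (k : ℤ), u) : Pt) = (((t + k : ℕ) : ℤ), u) := by push_cast; rfl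
          rw [e] at hm ⊢
          exact ih (n - k) (by omega) (t + k) u (by omega) (h3 (t + k) u (by omega) hm)
        rw [Ex69_smul] at h4
        have h5 := mul_le_mul_of_nonneg_left a2 hR0
        linarith
      · have en : n = 1 + (n - 1) := by omega
        rw [en, MF69_add Set.univ η' t x 1 (n - 1) F (A := x) (B := x + 1) le_rfl (by push_cast; omega),
          MF69_add Set.univ η t x 1 (n - 1) F (A := x) (B := x + 1) le_rfl (by push_cast; omega), Finset.mul_sum]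
        refine Finset.sum_le_sum fun u hu => ?_
        rw [Finset.mem_Icc] at hu
        obtain ⟨b1, b2⟩ := h1 t x (by omega) hx hA (u - x) (by omega)
        have e1 : (((t : ℤ) + 1, x + (u - x)) : Pt) = ((t : ℤ) + 1, u) := by
          ext
          · rfl
          · show x + (u - x) = u
            ring
        have e2 : WR μ s Set.univ η' ((t : ℤ), x) 1 (u - x) = WR μ s Set.univ η ((t : ℤ), x) 1 (u - x) :=
          (W_one_congr69 (μ := μ) (s := s) ((t : ℤ), x) (u - x) b2).symm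
        rw [e1] at b1
        have e3 : (((t : ℤ) + ((1 : ℕ) : ℤ), u) : Pt) = (((t + 1 : ℕ) : ℤ), u) := by push_cast; rfl
        have e4 : (((t : ℤ) + 1, u) : Pt) = (((t + 1 : ℕ) : ℤ), u) := by push_cast; rfl
        rw [e4] at b1
        have h5 := ih (n - 1) (by omega) (t + 1) u (by omega) b1
        rw [e2, e3]
        have h6 := mul_le_mul_of_nonneg_left h5 (WR_nonneg (μ := μ) (s := s) Set.univ η ((t : ℤ), x) 1 (u - x))
        linarith

/-- Any other start: the exits of `Ω` are in `Out`. -/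
theorem row69 [IsProbabilityMeasure μ] {η η' : Env} {F : ℤ → ℝ} {Out Ω : Set Pt} {T : ℕ} {R₀ : ℝ} (hR : 0 ≤ R₀)
    (hout : ∀ (n t : ℕ) (x : ℤ), t + n = T → (((t : ℤ), x) : Pt) ∈ Out →
      MF69 μ s Set.univ η' ((t : ℤ), x) n F ≤ R₀ * MF69 μ s Set.univ η ((t : ℤ), x) n F)
    (h3 : ∀ (t : ℕ) (x : ℤ), t ≤ T → (((t : ℤ), x) : Pt) ∉ Ω → (((t : ℤ), x) : Pt) ∈ Out) {t : ℕ} (ht : t ≤ T) {x : ℤ}
    (h2 : Ex69 μ s Ω Set.univ η' t x (T - t) (fun k u => MF69 μ s Set.univ η ((t : ℤ) + k, u) (T - t - k) F) ≤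
        1 / 2 * MF69 μ s Set.univ η ((t : ℤ), x) (T - t) F) :
    MF69 μ s Set.univ η' ((t : ℤ), x) (T - t) F ≤
      MF69 μ s Ω η' ((t : ℤ), x) (T - t) F + R₀ / 2 * MF69 μ s Set.univ η ((t : ℤ), x) (T - t) F := by
  rw [exit_full69 (μ := μ) (s := s) (Set.subset_univ Ω) η' t x (T - t) F]
  have h4 : Ex69 μ s Ω Set.univ η' t x (T - t) (fun k u => MF69 μ s Set.univ η' ((t : ℤ) + k, u) (T - t - k) F) ≤
      Ex69 μ s Ω Set.univ η' t x (T - t) (fun k u => R₀ * MF69 μ s Set.univ η ((t : ℤ) + k, u) (T - t - k) F) := by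
    refine Ex69_mono fun k u hk hk' hm => ?_
    have e : (((t : ℤ) + (k : ℤ), u) : Pt) = (((t + k : ℕ) : ℤ), u) := by push_cast; rfl
    rw [e] at hm ⊢
    exact hout (T - t - k) (t + k) u (by omega) (h3 (t + k) u (by omega) hm)
  rw [Ex69_smul] at h4
  have h5 := mul_le_mul_of_nonneg_left h2 hR
  linarith

end

end Pool.Agent.W_7d29a1_C1
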