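import Pool.Agent.W_7d29a1_C1.KQ35

/-!
MP_7d29a1_pr, [C1], THE FIRST MEETING IN THE BOX, the five functions at the corners (helper35). `FF`: exit to the right and to the left in
`T` rows, the two paths across the line `md` in `n0` rows, the pair without a common site; `FF_meas`, `FF_nn`, `FF_le1`, `FF_rows`;
`corner_ge`: the inequality of `mq_ge` for all starts and ends between the corners; `good_of`: Markov for a finite family.
-/

set_option autoImplicit false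

namespace Pool.Agent.W_7d29a1_C1.KM35

open Finset MeasureTheory Filter Topology
open Pool.Agent.W_7d29a1_F Pool.Agent.W_7d29a1_h4g Pool.Agent.W_7d29a1_H Pool.Agent.W_7d29a1_HS
open Pool.Agent.W_7d29a1_X (pos pth pth_nonneg pos_nonneg pos_le pos_zero)
open Pool.Agent.W_7d29a1_C1.K91 (wt wt_pos)
open Pool.Agent.W_7d29a1_C1.U16 (ker ker_nonneg)
open Pool.Agent.W_7d29a1_C1.Bx47 (mq)
open Pool.Agent.W_7d29a1_C1.Arr89 (Zt Gg)
open Pool.Agent.W_7d29a1_C1.Exit35 (Stay)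
open Pool.Agent.W_7d29a1_C1.Meet35 (int_01)
open Pool.Agent.W_7d29a1_C1.EpK35 (ep_K)
open Pool.Agent.W_7d29a1_C1.MeetG35 (exG exG_nonneg exG_le_one measurable_exG measurable_Gg Gg_nonneg Gg_sum_le)
open Pool.Agent.W_7d29a1_C1.MeetP35 (PBr gB gB_nonneg PBr_nonneg PBr_le_one measurable_PBr measurable_gB PBr_mono meet_c exit_br int_exG)

noncomputable section

variable {μ : Measure ℝ} {s : ℝ}

theorem eG_le_one (η : Env) (T m : ℕ) (x y : ℤ) (Q : Finset ℕ → Prop) : eG μ s η T m x y Q ≤ 1 := by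
  classical
  refine le_trans ?_ (Gg_sum_le (μ := μ) (s := s) (η := η) (g := gB μ s η T m y) T x)
  unfold eG
  refine sum_le_sum fun S _ => ?_
  split_ifs
  · exact le_rfl
  · exact Gg_nonneg (gB_nonneg η T m y) _ _ _

theorem measurable_eG (T m : ℕ) (x y : ℤ) (Q : Finset ℕ → Prop) : Measurable fun η : Env => eG μ s η T m x y Q := by
  classical
  unfold eG
  refine Finset.measurable_sum _ fun S _ => ?_
  by_cases h : Q S
  · simp only [if_pos h]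
    exact measurable_Gg (g := fun η => gB μ s η T m y) (fun z => measurable_gB T m y z) T x S
  · simp only [if_neg h]
    exact measurable_const

/-- The one sided exits are exits from the strip. -/
theorem eG_le_exG {ρ : ℝ} (hρ : 0 ≤ ρ) (η : Env) (T m : ℕ) (x y : ℤ) {Q : Finset ℕ → Prop}
    (hQ : ∀ S ⊆ range T, Q S → ∃ k ≤ T, ρ < |((pos S k : ℤ) : ℝ) - sl μ s * k|) :
    eG μ s η T m x y Q ≤ exG μ s ρ η (gB μ s η T m y) T x := by
  classical
  unfold eG exG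
  refine sum_le_sum fun S hS => ?_
  by_cases h1 : Q S
  · obtain ⟨k, hk, h2⟩ := hQ S (mem_powerset.1 hS) h1
    have h3 : ¬ Stay (St μ s ρ 0) T S := by
      intro h4
      rcases k with _ | k
      · rw [pos_zero] at h2
        simp at h2
        linarith
      · have h5 := h4 k (by omega)
        have h6 : |(((pos S (k + 1)) - 0 : ℤ) : ℝ) - sl μ s * (((k : ℤ) + 1 - 0 : ℤ) : ℝ)| ≤ ρ := h5
        rw [sub_zero, sub_zero] at h6
        push_cast at h6 h2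
        linarith
    rw [if_pos h1, if_pos h3]
  · rw [if_neg h1]
    split_ifs
    · exact le_rfl
    · exact Gg_nonneg (gB_nonneg η T m y) _ _ _

variable [IsProbabilityMeasure μ] {c C : ℝ} {n₀ : ℕ}

/-- Markov for several functions of the environment seen from the row `i`. -/
theorem good_of {ι : Type*} [Fintype ι] (i : ℤ) {F : ι → Env → ℝ} (hF : ∀ j, Measurable (F j)) (h0 : ∀ j η, 0 ≤ F j η)
    (h1 : ∀ j η, F j η ≤ 1) {a m : ℝ} (ha : 0 < a) (hm0 : 0 ≤ m) (hm : ∀ j, ∫ η, F j η ∂(law μ) ≤ m) :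
    MeasurableSet {η | ∀ j, F j (sh (i, 0) η) ≤ a} ∧
      law μ {η | ∀ j, F j (sh (i, 0) η) ≤ a}ᶜ ≤ ENNReal.ofReal (Fintype.card ι * (m / a)) := by
  have hs := (mp_sh (μ := μ) (i, 0)).measurable
  have hc : {η : Env | ∀ j, F j (sh (i, 0) η) ≤ a}ᶜ = ⋃ j, {η | a < F j (sh (i, 0) η)} := by
    ext η
    rw [Set.mem_compl_iff, Set.mem_ofPred_eq, Set.mem_iUnion, not_forall]
    exact exists_congr fun j => not_le
  have hmeas : ∀ j, MeasurableSet {η : Env | a < F j (sh (i, 0) η)} := fun j =>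
    measurableSet_lt measurable_const ((hF j).comp hs)
  have hbd : ∀ j, law μ {η : Env | a < F j (sh (i, 0) η)} ≤ ENNReal.ofReal (m / a) := by
    intro j
    have e1 : law μ {η : Env | a < F j (sh (i, 0) η)} = law μ {η : Env | a < F j η} :=
      (mp_sh (μ := μ) (i, 0)).measure_preimage (measurableSet_lt measurable_const (hF j)).nullMeasurableSet
    rw [e1]
    have e2 := mul_meas_ge_le_integral_of_nonneg (μ := law μ) (f := F j) (ae_of_all _ fun η => h0 j η) (int_01 (hF j) (h0 j) (h1 j)) a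
    have e3 : (law μ).real {η : Env | a ≤ F j η} ≤ m / a := by
      rw [le_div_iff₀ ha, mul_comm]
      exact e2.trans (hm j)
    have e4 : law μ {η : Env | a < F j η} ≤ law μ {η : Env | a ≤ F j η} := measure_mono fun η (hη : a < F j η) => hη.le
    refine e4.trans ?_
    rw [← ofReal_measureReal (measure_ne_top _ _)]
    exact ENNReal.ofReal_le_ofReal e3
  refine ⟨?_, ?_⟩
  · have h2 : MeasurableSet {η : Env | ∀ j, F j (sh (i, 0) η) ≤ a}ᶜ := by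
      rw [hc]
      exact MeasurableSet.iUnion hmeas
    exact h2.of_compl
  · rw [hc]
    refine (measure_iUnion_fintype_le _ _).trans ((Finset.sum_le_sum fun j _ => hbd j).trans ?_)
    rw [Finset.sum_const, nsmul_eq_mul, Finset.card_univ, ENNReal.ofReal_mul (Nat.cast_nonneg _), ENNReal.ofReal_natCast]


/-! ### The five functions -/

omit [IsProbabilityMeasure μ]

/-- The five functions at the corners. -/
def FF (μ : Measure ℝ) (s : ℝ) (n T n0 : ℕ) (lo hi md : ℕ → ℝ) (xl xr xl' xr' yl yr : ℤ) : Fin 5 → Env → ℝ := ![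
  fun ζ => eG μ s ζ T (n - T) xr yr fun S => ∃ k ≤ T, hi k < ((xr + pos S k : ℤ) : ℝ),
  fun ζ => eG μ s ζ T (n - T) xl yl fun S => ∃ k ≤ T, ((xl + pos S k : ℤ) : ℝ) < lo k,
  fun ζ => eG μ s ζ n0 (n - n0) xr yr fun S => ∃ k ≤ n0, md k - 1 < ((xr + pos S k : ℤ) : ℝ),
  fun ζ => eG μ s ζ n0 (n - n0) xl' yl fun S => ∃ k ≤ n0, ((xl' + pos S k : ℤ) : ℝ) < md k,
  fun ζ => PBr μ s ζ T (n - T) xl yl xr' yr]

variable {n T n0 : ℕ} {lo hi md : ℕ → ℝ} {xl xr xl' xr' yl yr : ℤ}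

theorem five {P : Fin 5 → Prop} (p0 : P 0) (p1 : P 1) (p2 : P 2) (p3 : P 3) (p4 : P 4) : ∀ j, P j := by
  intro j
  fin_cases j
  · exact p0
  · exact p1
  · exact p2
  · exact p3
  · exact p4

theorem FF0 : FF μ s n T n0 lo hi md xl xr xl' xr' yl yr 0 =
    fun ζ => eG μ s ζ T (n - T) xr yr fun S => ∃ k ≤ T, hi k < ((xr + pos S k : ℤ) : ℝ) := rfl

theorem FF1 : FF μ s n T n0 lo hi md xl xr xl' xr' yl yr 1 =
    fun ζ => eG μ s ζ T (n - T) xl yl fun S => ∃ k ≤ T, ((xl + pos S k : ℤ) : ℝ) < lo k := rfl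

theorem FF2 : FF μ s n T n0 lo hi md xl xr xl' xr' yl yr 2 =
    fun ζ => eG μ s ζ n0 (n - n0) xr yr fun S => ∃ k ≤ n0, md k - 1 < ((xr + pos S k : ℤ) : ℝ) := rfl

theorem FF3 : FF μ s n T n0 lo hi md xl xr xl' xr' yl yr 3 =
    fun ζ => eG μ s ζ n0 (n - n0) xl' yl fun S => ∃ k ≤ n0, ((xl' + pos S k : ℤ) : ℝ) < md k := rfl

theorem FF4 : FF μ s n T n0 lo hi md xl xr xl' xr' yl yr 4 = fun ζ => PBr μ s ζ T (n - T) xl yl xr' yr := rfl

theorem FF_meas (j : Fin 5) : Measurable (FF μ s n T n0 lo hi md xl xr xl' xr' yl yr j) := by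
  revert j
  refine five ?_ ?_ ?_ ?_ ?_
  · rw [FF0]; exact measurable_eG _ _ _ _ _
  · rw [FF1]; exact measurable_eG _ _ _ _ _
  · rw [FF2]; exact measurable_eG _ _ _ _ _
  · rw [FF3]; exact measurable_eG _ _ _ _ _
  · rw [FF4]; exact measurable_PBr _ _ _ _ _ _

theorem FF_nn (j : Fin 5) (η : Env) : 0 ≤ FF μ s n T n0 lo hi md xl xr xl' xr' yl yr j η := by
  revert j
  refine five ?_ ?_ ?_ ?_ ?_
  · rw [FF0]; exact eG_nonneg _ _ _ _ _ _
  · rw [FF1]; exact eG_nonneg _ _ _ _ _ _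
  · rw [FF2]; exact eG_nonneg _ _ _ _ _ _
  · rw [FF3]; exact eG_nonneg _ _ _ _ _ _
  · rw [FF4]; exact PBr_nonneg _ _ _ _ _ _ _

theorem FF_le1 (j : Fin 5) (η : Env) : FF μ s n T n0 lo hi md xl xr xl' xr' yl yr j η ≤ 1 := by
  revert j
  refine five ?_ ?_ ?_ ?_ ?_
  · rw [FF0]; exact eG_le_one _ _ _ _ _ _
  · rw [FF1]; exact eG_le_one _ _ _ _ _ _
  · rw [FF2]; exact eG_le_one _ _ _ _ _ _
  · rw [FF3]; exact eG_le_one _ _ _ _ _ _
  · rw [FF4]; exact PBr_le_one _ _ _ _ _ _ _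

theorem FF_rows (hT : T < n) (hn0 : n0 ≤ T) {η η' : Env} (hη : ∀ q : Pt, 0 < q.1 → q.1 < (n : ℤ) → η q = η' q) (j : Fin 5) :
    FF μ s n T n0 lo hi md xl xr xl' xr' yl yr j η = FF μ s n T n0 lo hi md xl xr xl' xr' yl yr j η' := by
  have eT : T + (n - T) = n := by omega
  have e0 : n0 + (n - n0) = n := by omega
  have h1 : ∀ q : Pt, 0 < q.1 → q.1 < ((T + (n - T) : ℕ) : ℤ) → η q = η' q := by
    rw [eT]
    exact hη
  have h2 : ∀ q : Pt, 0 < q.1 → q.1 < ((n0 + (n - n0) : ℕ) : ℤ) → η q = η' q := by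
    rw [e0]
    exact hη
  have m1 : 1 ≤ n - T := by omega
  have m2 : 1 ≤ n - n0 := by omega
  revert j
  refine five ?_ ?_ ?_ ?_ ?_
  · rw [FF0]; exact eG_rows m1 _ _ h1 _
  · rw [FF1]; exact eG_rows m1 _ _ h1 _
  · rw [FF2]; exact eG_rows m2 _ _ h2 _
  · rw [FF3]; exact eG_rows m2 _ _ h2 _
  · rw [FF4]; exact PBr_rows m1 _ _ _ _ h1

/-- The cone. -/
def Cn (n : ℕ) (u v : ℤ) : Prop := 0 ≤ v - u ∧ v - u ≤ (n : ℤ)

/-- **THE INEQUALITY FROM THE CORNERS.** -/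
theorem corner_ge (η : Env) {p : ℕ → ℝ} (hp0 : ∀ k, 0 < p k) {i : ℕ} {h' e' : ℝ} (hn0 : n0 ≤ T) (hT : T ≤ n)
    (hp : ∀ k, i ≤ k → k < i + n → p k = Real.exp (s + h')) {Q : Finset (ℕ × ℤ)} {x x' y y' : ℤ}
    (hQ : ∀ k, i + n0 ≤ k → k < i + T → ∀ q : ℤ, lo (k + 1 - i) ≤ q → (q : ℝ) ≤ hi (k + 1 - i) → (k, q) ∈ Q)
    (hF : ∀ j, FF μ s n T n0 lo hi md xl xr xl' xr' yl yr j (sh ((i : ℤ), 0) η) ≤ e' / 5)
    (hx : x < x') (l1 : xl ≤ x) (l2 : x ≤ xr) (l3 : xl' ≤ x') (l4 : x' ≤ xr') (l5 : yl ≤ y) (l6 : y ≤ yr) (l5' : yl ≤ y') (l6' : y' ≤ yr)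
    (c1 : Cn n x y) (c2 : Cn n x' y') (c3 : Cn n xr yr) (c4 : Cn n xl yl) (c5 : Cn n xl' yl) (c6 : Cn n xr' yr) :
    (1 - e') * (ker (wt η) p i n x y * ker (wt η) p i n x' y') ≤ mq (wt η) p Q i n x x' y y' := by
  have eT : T + (n - T) = n := by omega
  have e0 : n0 + (n - n0) = n := by omega
  have g0 := hF 0
  have g1 := hF 1
  have g2 := hF 2
  have g3 := hF 3
  have g4 := hF 4
  have F0 : FF μ s n T n0 lo hi md xl xr xl' xr' yl yr 0 (sh ((i : ℤ), 0) η) =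
    eG μ s (sh ((i : ℤ), 0) η) T (n - T) xr yr fun S => ∃ k ≤ T, hi k < ((xr + pos S k : ℤ) : ℝ) := rfl
  have F1 : FF μ s n T n0 lo hi md xl xr xl' xr' yl yr 1 (sh ((i : ℤ), 0) η) =
    eG μ s (sh ((i : ℤ), 0) η) T (n - T) xl yl fun S => ∃ k ≤ T, ((xl + pos S k : ℤ) : ℝ) < lo k := rfl
  have F2 : FF μ s n T n0 lo hi md xl xr xl' xr' yl yr 2 (sh ((i : ℤ), 0) η) =
    eG μ s (sh ((i : ℤ), 0) η) n0 (n - n0) xr yr fun S => ∃ k ≤ n0, md k - 1 < ((xr + pos S k : ℤ) : ℝ) := rfl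
  have F3 : FF μ s n T n0 lo hi md xl xr xl' xr' yl yr 3 (sh ((i : ℤ), 0) η) =
    eG μ s (sh ((i : ℤ), 0) η) n0 (n - n0) xl' yl fun S => ∃ k ≤ n0, ((xl' + pos S k : ℤ) : ℝ) < md k := rfl
  have F4 : FF μ s n T n0 lo hi md xl xr xl' xr' yl yr 4 (sh ((i : ℤ), 0) η) =
    PBr μ s (sh ((i : ℤ), 0) η) T (n - T) xl yl xr' yr := rfl
  rw [F0] at g0
  rw [F1] at g1
  rw [F2] at g2
  rw [F3] at g3
  rw [F4] at g4
  have key := mq_ge (μ := μ) (s := s) (h := h') η (p := p) hp0 (i := i) (n := n) (T := T) (n0 := n0) hn0 hT hp (Q := Q) (lo := lo)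
    (hi := hi) (md := md) (x := x) (x' := x') (y := y) (y' := y') hx hQ c1.1 c1.2 c2.1 c2.2
  refine le_trans (mul_le_mul_of_nonneg_right ?_ (mul_nonneg (ker_nonneg (wt_pos η) hp0 i n x y) (ker_nonneg (wt_pos η) hp0 i n x' y'))) key
  have r0 := eG_right (μ := μ) (s := s) (sh ((i : ℤ), 0) η) T (n - T) l2 l6 c1.1 (by rw [eT]; exact c1.2) c3.1 (by rw [eT]; exact c3.2) hi
  have r1 := eG_left (μ := μ) (s := s) (sh ((i : ℤ), 0) η) T (n - T) l1 l5 c1.1 (by rw [eT]; exact c1.2) c4.1 (by rw [eT]; exact c4.2) lo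
  have r2 := eG_right (μ := μ) (s := s) (sh ((i : ℤ), 0) η) n0 (n - n0) l2 l6 c1.1 (by rw [e0]; exact c1.2) c3.1 (by rw [e0]; exact c3.2)
    fun k => md k - 1
  have r3 := eG_left (μ := μ) (s := s) (sh ((i : ℤ), 0) η) n0 (n - n0) l3 l5' c2.1 (by rw [e0]; exact c2.2) c5.1 (by rw [e0]; exact c5.2) md
  have r4 := PBr_mono (μ := μ) (s := s) (sh ((i : ℤ), 0) η) T (n - T) hx.le l1 l5 l4 l6' c1.1 (by rw [eT]; exact c1.2) c2.1
    (by rw [eT]; exact c2.2) c4.1 (by rw [eT]; exact c4.2) c6.1 (by rw [eT]; exact c6.2)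
  linarith

end

end Pool.Agent.W_7d29a1_C1.KM35
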