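import Pool.Agent.W_7d29a1_C1.Box69

/-!
MP_7d29a1_pr, [C1], resampled WINDOWS, part B: NOBODY WHO COMES FROM OUTSIDE REACHES A STRIP. (helper69)

`R` = window of half width `ω`; walls (`WALL20`, `JUMP20`) on the window `ωW`; the strips `S` are within `κ`. A start at distance more than
`ωW` from the centre reaches a site of `S` with mass at most `rimE69` (`rim69`): the positions at the rows `i n` leave the outer zone
either by a jump or into the ring `(ωW - ρ, ωW]`, from where the next sub block costs `exp (- Y)`.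
`rim_touch69`: the kernel in `R` from such a start is the kernel which avoids `S` up to `T ^ 2` times that.
-/

set_option autoImplicit false

namespace Pool.Agent.W_7d29a1_C1

open MeasureTheory ProbabilityTheory Filter Topology
open Pool.Agent.W_7d29a1_F Pool.Agent.W_7d29a1_h4g Pool.Agent.W_7d29a1_H Pool.Agent.W_7d29a1_HS
open Pool.Agent.W_7d29a1_HL (WR_off WR_last_off WR_add' WR_mono' WR_zero' cS)

noncomputable section

variable {μ : Measure ℝ} {s : ℝ} {ι : Type*}

/-! ### An abstract chain -/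

/-- Positions outside of the zones `U i` cost `ε` in total, step by step. -/
theorem zone69 {I : Finset ℤ} {a b : ℕ → ℤ → ℝ} {c : ℕ → ℤ → ℤ → ℝ} {U : ℕ → ℤ → Prop} [∀ i z, Decidable (U i z)] {ε : ℝ} {i₀ : ℕ}
    (ha : ∀ i z, 0 ≤ a i z) (hb : ∀ i z, 0 ≤ b i z) (hc : ∀ i z z', 0 ≤ c i z z') :
    ∀ m : ℕ, (∀ i, i₀ ≤ i → i < i₀ + m → ∀ z ∈ I, a i z * b i z ≤ a i z * ∑ z' ∈ I, c i z z' * b (i + 1) z') →
      (∀ i, i₀ ≤ i → i < i₀ + m → ∀ z' ∈ I, ∑ z ∈ I, a i z * c i z z' ≤ a (i + 1) z') →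
      (∀ i, i₀ ≤ i → i < i₀ + m → ∑ z ∈ I.filter (U i), a i z * ∑ z' ∈ I.filter (fun z' => ¬ U (i + 1) z'), c i z z' * b (i + 1) z' ≤ ε) →
      ∑ z ∈ I.filter (U i₀), a i₀ z * b i₀ z ≤ ∑ z ∈ I.filter (U (i₀ + m)), a (i₀ + m) z * b (i₀ + m) z + m * ε := by
  intro m
  induction m with
  | zero =>
    intro _ _ _
    simp
  | succ m ih =>
    intro h1 h2 h3
    have h4 := ih (fun i hi hi' => h1 i hi (by omega)) (fun i hi hi' => h2 i hi (by omega)) (fun i hi hi' => h3 i hi (by omega))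
    refine h4.trans ?_
    obtain ⟨k, hk⟩ : ∃ k, k = i₀ + m := ⟨_, rfl⟩
    rw [← hk]
    have ek : i₀ + (m + 1) = k + 1 := by omega
    rw [ek]
    have h5 : ∑ z ∈ I.filter (U k), a k z * b k z ≤ ∑ z ∈ I.filter (U k), a k z * ∑ z' ∈ I, c k z z' * b (k + 1) z' :=
      Finset.sum_le_sum fun z hz => h1 k (by omega) (by omega) z (Finset.mem_filter.1 hz).1
    have h6 : ∀ z, ∑ z' ∈ I, c k z z' * b (k + 1) z' = ∑ z' ∈ I.filter (U (k + 1)), c k z z' * b (k + 1) z' +
        ∑ z' ∈ I.filter (fun z' => ¬ U (k + 1) z'), c k z z' * b (k + 1) z' := fun z =>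
      (Finset.sum_filter_add_sum_filter_not I (U (k + 1)) _).symm
    have h7 : ∑ z ∈ I.filter (U k), a k z * ∑ z' ∈ I, c k z z' * b (k + 1) z' =
        ∑ z' ∈ I.filter (U (k + 1)), (∑ z ∈ I.filter (U k), a k z * c k z z') * b (k + 1) z' +
        ∑ z ∈ I.filter (U k), a k z * ∑ z' ∈ I.filter (fun z' => ¬ U (k + 1) z'), c k z z' * b (k + 1) z' := by
      rw [Finset.sum_congr rfl fun z _ => by rw [h6 z, mul_add], Finset.sum_add_distrib]
      congr 1
      have h8 : ∀ z ∈ I.filter (U k), a k z * ∑ z' ∈ I.filter (U (k + 1)), c k z z' * b (k + 1) z' =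
          ∑ z' ∈ I.filter (U (k + 1)), a k z * c k z z' * b (k + 1) z' := by
        intro z _
        rw [Finset.mul_sum]
        exact Finset.sum_congr rfl fun z' _ => by ring
      rw [Finset.sum_congr rfl h8, Finset.sum_comm]
      exact Finset.sum_congr rfl fun z' _ => by rw [Finset.sum_mul]
    have h9 : ∑ z' ∈ I.filter (U (k + 1)), (∑ z ∈ I.filter (U k), a k z * c k z z') * b (k + 1) z' ≤
        ∑ z' ∈ I.filter (U (k + 1)), a (k + 1) z' * b (k + 1) z' := by
      refine Finset.sum_le_sum fun z' hz' => mul_le_mul_of_nonneg_right ?_ (hb _ _)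
      refine le_trans ?_ (h2 k (by omega) (by omega) z' (Finset.mem_filter.1 hz').1)
      exact Finset.sum_le_sum_of_subset_of_nonneg (Finset.filter_subset _ _) fun z _ _ => mul_nonneg (ha _ _) (hc _ _ _)
    have h10 := h3 k (by omega) (by omega)
    push_cast
    linarith

/-! ### Kernels of a window -/

/-- The distance from the centre line. -/
def lat69 (μ : Measure ℝ) (s : ℝ) (t : ℕ) (x : ℤ) : ℝ := |(x : ℝ) - sl μ s * t|

theorem mem_St69 {ω : ℝ} {t : ℕ} {x : ℤ} : (((t : ℤ), x) : Pt) ∈ St μ s ω 0 ↔ lat69 μ s t x ≤ ω := by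
  have e1 : ((((t : ℤ), x) : Pt).2 - (0 : Pt).2 : ℤ) = x := by simp
  have e2 : ((((t : ℤ), x) : Pt).1 - (0 : Pt).1 : ℤ) = (t : ℤ) := by simp
  constructor
  · intro h
    have h' : |(((((t : ℤ), x) : Pt).2 - (0 : Pt).2 : ℤ) : ℝ) - sl μ s * (((((t : ℤ), x) : Pt).1 - (0 : Pt).1 : ℤ) : ℝ)| ≤ ω := h
    rw [e1, e2] at h'
    simpa [lat69] using h'
  · intro h
    show |(((((t : ℤ), x) : Pt).2 - (0 : Pt).2 : ℤ) : ℝ) - sl μ s * (((((t : ℤ), x) : Pt).1 - (0 : Pt).1 : ℤ) : ℝ)| ≤ ω
    rw [e1, e2]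
    simpa [lat69] using h

theorem lat_disp69 (t j : ℕ) (x y : ℤ) : |lat69 μ s t x - lat69 μ s (t + j) y| ≤ |((y - x : ℤ) : ℝ) - sl μ s * j| := by
  unfold lat69
  have h := abs_abs_sub_abs_le_abs_sub ((x : ℝ) - sl μ s * t) ((y : ℝ) - sl μ s * ((t + j : ℕ) : ℝ))
  refine h.trans (le_of_eq ?_)
  rw [abs_sub_comm]
  congr 1
  push_cast
  ring

/-- The rows of a kernel in the window. -/
theorem cSrow69 [IsProbabilityMeasure μ] (R : Set Pt) (η : Env) (t x : ℤ) (j : ℕ) (I : Finset ℤ) :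
    ∑ y ∈ I, WR μ s R η (t, x) j (y - x) ≤ cS μ s R η (t, x) j := by
  have h1 : ∑ y ∈ I, WR μ s R η (t, x) j (y - x) ≤ ∑ y ∈ Finset.Icc x (x + j), WR μ s R η (t, x) j (y - x) := by
    calc ∑ y ∈ I, WR μ s R η (t, x) j (y - x) = ∑ y ∈ I.filter (fun y => y ∈ Finset.Icc x (x + j)), WR μ s R η (t, x) j (y - x) := by
          rw [Finset.sum_filter]
          refine Finset.sum_congr rfl fun y _ => ?_
          split_ifs with h
          · rfl
          · refine WR_off R η (t, x) fun h' => h ?_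
            rw [Finset.mem_Icc]
            omega
      _ ≤ _ := Finset.sum_le_sum_of_subset_of_nonneg (fun y hy => (Finset.mem_filter.1 hy).2) fun y _ _ => WR_nonneg _ _ _ _ _
  refine h1.trans (le_of_eq ?_)
  have h2 := MF69_eq (μ := μ) (s := s) R η t x j (fun _ => 1) (A := x) (B := x + j) le_rfl le_rfl
  have h3 : MF69 μ s R η (t, x) j (fun _ => 1) = cS μ s R η (t, x) j := by
    unfold MF69 cS
    exact Finset.sum_congr rfl fun y _ => mul_one _
  rw [← h3, h2]
  exact Finset.sum_congr rfl fun y _ => (mul_one _).symm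

section Rim

variable [IsProbabilityMeasure μ] {η : Env} {n N : ℕ} {ω ωW ρ α κ Y b₁ : ℝ} {l : ι → ℕ → ℝ}

/-- The data of the walls. -/
structure Wal69 (μ : Measure ℝ) (s : ℝ) (η : Env) (n N : ℕ) (ω ωW ρ α κ Y b₁ : ℝ) (l : ι → ℕ → ℝ) : Prop where
  n1 : 1 ≤ n
  b0 : 0 ≤ b₁
  wW : ωW ≤ ω
  kr : κ + 2 * ρ ≤ ωW
  r0 : 0 ≤ ρ
  /-- upper bounds, all starts of the window -/
  mass : ∀ (t j : ℕ) (x : ℤ), t + j ≤ N * n → lat69 μ s t x ≤ ω → cS μ s Set.univ η ((t : ℤ), x) j ≤ Real.exp b₁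
  /-- jumps -/
  jmp : ∀ (t j : ℕ) (x : ℤ), t + j ≤ N * n → j ≤ 2 * n → lat69 μ s t x ≤ ω → ∀ y : ℤ, ρ ≤ |(y : ℝ) - sl μ s * j| →
    W μ s η ((t : ℤ), x) j y ≤ Real.exp (-Y)
  jump : JUMP20 μ s ωW ρ n N Y η
  wall : WALL20 μ s ωW ρ α n N Y l η
  /-- the lanes are within `κ` with room `α` -/
  lane : ∀ (j : ι) (i : ℕ), i ≤ N → |l j i - sl μ s * (i * n : ℕ)| + α < ωW - ρ

theorem Wal69.pt (h : Wal69 μ s η n N ω ωW ρ α κ Y b₁ l) (R : Set Pt) {t j : ℕ} {x : ℤ} (htj : t + j ≤ N * n)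
    (hx : lat69 μ s t x ≤ ω) (y : ℤ) : WR μ s R η ((t : ℤ), x) j y ≤ Real.exp b₁ := by
  by_cases hy : 0 ≤ y ∧ y ≤ (j : ℤ)
  · refine le_trans ?_ (h.mass t j x htj hx)
    refine (WR_le_W _ _ _ _ _).trans ?_
    exact Finset.single_le_sum (f := fun y => WR μ s Set.univ η ((t : ℤ), x) j y) (fun y _ => WR_nonneg _ _ _ _ _) (Finset.mem_Icc.2 hy)
  · rw [WR_off _ _ _ hy]
    exact (Real.exp_pos _).le

theorem Wal69.row (h : Wal69 μ s η n N ω ωW ρ α κ Y b₁ l) (R : Set Pt) {t j : ℕ} {x : ℤ} (htj : t + j ≤ N * n)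
    (hx : lat69 μ s t x ≤ ω) (I : Finset ℤ) : ∑ y ∈ I, WR μ s R η ((t : ℤ), x) j (y - x) ≤ Real.exp b₁ := by
  refine (cSrow69 R η (t : ℤ) x j I).trans (le_trans ?_ (h.mass t j x htj hx))
  exact Finset.sum_le_sum fun y _ => WR_mono' (Set.subset_univ _) _ _ _ _

/-- In the window. -/
theorem WR_win69 {t : ℕ} {x : ℤ} {j : ℕ} (hj : 1 ≤ j) {z : ℤ}
    (h : WR μ s (St μ s ω 0) η ((t : ℤ), x) j (z - x) ≠ 0) : lat69 μ s (t + j) z ≤ ω := by
  have := WR_win_ne (μ := μ) (s := s) (ω := ω) (η := η) (t := t) (x := x) (z := z) (l := j) hj h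
  exact this

/-- A start of the ring. -/
theorem Wal69.ring (h : Wal69 μ s η n N ω ωW ρ α κ Y b₁ l) {i m : ℕ} (him : i * n + m ≤ N * n) {z q : ℤ}
    (hz : ωW - ρ < lat69 μ s (i * n) z) (hz' : lat69 μ s (i * n) z ≤ ωW) (hq : lat69 μ s (i * n + m) q ≤ κ) :
    WR μ s (St μ s ω 0) η (((i * n : ℕ) : ℤ), z) m (q - z) ≤ 2 * Real.exp (b₁ - Y) := by
  have hn := h.n1
  have hb := h.b0
  have hdisp : ρ ≤ |((q - z : ℤ) : ℝ) - sl μ s * m| := by
    have h1 := lat_disp69 (μ := μ) (s := s) (i * n) m z q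
    have h2 := le_abs_self (lat69 μ s (i * n) z - lat69 μ s (i * n + m) q)
    have h3 := h.kr
    linarith
  have hY : Real.exp (-Y) ≤ 2 * Real.exp (b₁ - Y) := by
    have h1 : Real.exp (-Y) ≤ Real.exp (b₁ - Y) := Real.exp_le_exp.2 (by linarith)
    have h2 := Real.exp_pos (b₁ - Y)
    linarith
  rcases Nat.lt_or_ge m n with hm | hm
  · refine (WR_le_W _ _ _ _ _).trans ((h.jmp (i * n) m z him (by omega) (hz'.trans h.wW) (q - z) ?_).trans hY)
    simpa using hdisp
  · -- a full sub block away from the lanes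
    obtain ⟨m', rfl⟩ : ∃ m', m = n + m' := ⟨m - n, by omega⟩
    have hi : i < N := by
      by_contra hcon
      have h1 : N * n ≤ i * n := Nat.mul_le_mul_right n (by omega)
      omega
    have hfar : ∀ j, α < |(z : ℝ) - l j i| := by
      intro j
      have h1 := h.lane j i (by omega)
      have h2 : lat69 μ s (i * n) z ≤ |(z : ℝ) - l j i| + |l j i - sl μ s * (i * n : ℕ)| := by
        unfold lat69
        exact abs_sub_le _ _ _
      linarith
    have hbad := bad_step20 (μ := μ) (s := s) hn h.jump h.wall hi (z := z) hz' (St μ s ω 0) (Finset.Icc z (z + n))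
    have hgd : ∀ z', ¬ gd20 (sl μ s) ρ α n l i z z' := by
      rintro z' ⟨⟨j, hj⟩, -⟩
      have := hfar j
      linarith
    simp only [hgd, if_false, sub_zero] at hbad
    rw [WR_add' (μ := μ) (s := s) (St μ s ω 0) η ((i * n : ℕ) : ℤ) z n m' q (A := z) (B := z + n) le_rfl le_rfl]
    calc ∑ u ∈ Finset.Icc z (z + n), WR μ s (St μ s ω 0) η (((i * n : ℕ) : ℤ), z) n (u - z) *
          WR μ s (St μ s ω 0) η (((i * n : ℕ) : ℤ) + (n : ℤ), u) m' (q - u)
        ≤ ∑ u ∈ Finset.Icc z (z + n), WR μ s (St μ s ω 0) η (((i * n : ℕ) : ℤ), z) n (u - z) * Real.exp b₁ := by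
          refine Finset.sum_le_sum fun u _ => ?_
          rcases eq_or_ne (WR μ s (St μ s ω 0) η (((i * n : ℕ) : ℤ), z) n (u - z)) 0 with h0 | h0
          · rw [h0, zero_mul, zero_mul]
          · refine mul_le_mul_of_nonneg_left ?_ (WR_nonneg _ _ _ _ _)
            have h1 := WR_win69 (μ := μ) (s := s) hn h0
            have e2 : ((((i * n : ℕ) : ℤ) + (n : ℤ), u) : Pt) = (((i * n + n : ℕ) : ℤ), u) := by push_cast; rfl
            rw [e2]
            exact h.pt _ (by omega) h1 _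
      _ = (∑ u ∈ Finset.Icc z (z + n), WR μ s (St μ s ω 0) η (((i * n : ℕ) : ℤ), z) n (u - z)) * Real.exp b₁ := by
          rw [Finset.sum_mul]
      _ ≤ (2 * Real.exp (-Y)) * Real.exp b₁ := mul_le_mul_of_nonneg_right hbad (Real.exp_pos _).le
      _ = _ := by
          rw [mul_assoc, ← Real.exp_add]
          congr 2
          ring

/-- The bound of `rim69`. -/
def rimE69 (N T : ℕ) (b₁ Y : ℝ) : ℝ := (N + 2) * ((T + 3) * Real.exp (3 * b₁ - Y))

theorem rimE69_ge {N T : ℕ} (hb : 0 ≤ b₁) : Real.exp (b₁ - Y) ≤ rimE69 N T b₁ Y := by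
  have h1 : Real.exp (b₁ - Y) ≤ Real.exp (3 * b₁ - Y) := Real.exp_le_exp.2 (by linarith)
  have h2 := Real.exp_pos (3 * b₁ - Y)
  have h3 : (0 : ℝ) ≤ N := Nat.cast_nonneg N
  have h4 : (0 : ℝ) ≤ T := Nat.cast_nonneg T
  unfold rimE69
  have h5 : Real.exp (3 * b₁ - Y) ≤ (T + 3) * Real.exp (3 * b₁ - Y) := by nlinarith
  nlinarith

/-- **Nobody who comes from outside reaches a strip.** -/
theorem Wal69.rim (h : Wal69 μ s η n N ω ωW ρ α κ Y b₁ l) {t k : ℕ} (htk : t + k ≤ N * n) {x q : ℤ}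
    (hx : ωW < lat69 μ s t x) (hx' : lat69 μ s t x ≤ ω) (hq : lat69 μ s (t + k) q ≤ κ) :
    WR μ s (St μ s ω 0) η ((t : ℤ), x) k (q - x) ≤ rimE69 N (N * n) b₁ Y := by
  classical
  have hn := h.n1
  have hb := h.b0
  have hr := h.r0
  have hkr := h.kr
  obtain ⟨T, hT⟩ : ∃ T : ℕ, T = N * n := ⟨_, rfl⟩
  rw [← hT] at htk ⊢
  obtain ⟨R, hR⟩ : ∃ R : Set Pt, R = St μ s ω 0 := ⟨_, rfl⟩
  rw [← hR]
  have hT0 : (0 : ℝ) ≤ T := Nat.cast_nonneg T
  have hN0 : (0 : ℝ) ≤ N := Nat.cast_nonneg N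
  obtain ⟨e, he⟩ : ∃ e : ℝ, e = Real.exp (3 * b₁ - Y) := ⟨_, rfl⟩
  have he0 : 0 < e := by rw [he]; exact Real.exp_pos _
  have hE : rimE69 N T b₁ Y = (N + 2) * ((T + 3) * e) := by unfold rimE69; rw [he]
  have e1 : Real.exp (-Y) ≤ e := by rw [he]; exact Real.exp_le_exp.2 (by linarith)
  have e2 : Real.exp b₁ * Real.exp (-Y) ≤ e := by
    rw [← Real.exp_add, he]
    exact Real.exp_le_exp.2 (by linarith)
  -- a jump from one row to another
  have hjump : ∀ (t' j : ℕ) (u v : ℤ), t' + j ≤ T → j ≤ 2 * n → lat69 μ s t' u ≤ ω → ρ ≤ |lat69 μ s t' u - lat69 μ s (t' + j) v| →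
      WR μ s R η ((t' : ℤ), u) j (v - u) ≤ Real.exp (-Y) := by
    intro t' j u v h1 h2 h3 h4
    refine (WR_le_W _ _ _ _ _).trans (h.jmp t' j u (by rw [← hT]; exact h1) h2 h3 (v - u) ?_)
    exact h4.trans (lat_disp69 t' j u v)
  have hpt : ∀ (t' j : ℕ) (u v : ℤ), t' + j ≤ T → lat69 μ s t' u ≤ ω → WR μ s R η ((t' : ℤ), u) j (v - u) ≤ Real.exp b₁ :=
    fun t' j u v h1 h2 => h.pt R (by rw [← hT]; exact h1) h2 _
  have hrow : ∀ (t' j : ℕ) (u : ℤ) (J : Finset ℤ), t' + j ≤ T → lat69 μ s t' u ≤ ω →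
      ∑ v ∈ J, WR μ s R η ((t' : ℤ), u) j (v - u) ≤ Real.exp b₁ :=
    fun t' j u J h1 h2 => h.row R (by rw [← hT]; exact h1) h2 J
  have hring : ∀ (i m : ℕ) (z : ℤ), i * n + m ≤ T → ωW - ρ < lat69 μ s (i * n) z → lat69 μ s (i * n) z ≤ ωW →
      i * n + m = t + k → WR μ s R η (((i * n : ℕ) : ℤ), z) m (q - z) ≤ 2 * Real.exp (b₁ - Y) := by
    intro i m z h1 h2 h3 h4
    rw [hR]
    refine h.ring (by rw [← hT]; exact h1) h2 h3 ?_
    rw [h4]
    exact hq
  by_cases hA : ∃ i : ℕ, t ≤ i * n ∧ i * n ≤ t + k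
  · -- the first row `i₀ n` after the start
    obtain ⟨i₀, hi0, hi0k, hmin⟩ : ∃ i₀ : ℕ, t ≤ i₀ * n ∧ i₀ * n ≤ t + k ∧ i₀ * n < t + n := by
      classical
      obtain ⟨i, hi⟩ := hA
      have hex : ∃ i : ℕ, t ≤ i * n := ⟨i, hi.1⟩
      refine ⟨Nat.find hex, Nat.find_spec hex, ?_, ?_⟩
      · have : Nat.find hex ≤ i := Nat.find_min' hex hi.1
        exact (Nat.mul_le_mul_right n this).trans hi.2
      · rcases Nat.eq_zero_or_pos (Nat.find hex) with h0 | h0
        · rw [h0]
          omega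
        · have h1 := Nat.find_min hex (m := Nat.find hex - 1) (by omega)
          have h2 : (Nat.find hex - 1) * n < t := by omega
          have h3 : Nat.find hex * n = (Nat.find hex - 1) * n + n := by
            obtain ⟨m, hm⟩ : ∃ m, Nat.find hex = m + 1 := ⟨Nat.find hex - 1, by omega⟩
            rw [hm]
            simp only [Nat.add_sub_cancel]
            ring
          omega
    obtain ⟨i₁, hi1, hi1k⟩ : ∃ i₁ : ℕ, i₁ * n ≤ t + k ∧ t + k < i₁ * n + n := by
      refine ⟨(t + k) / n, Nat.div_mul_le_self _ _, ?_⟩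
      have := Nat.lt_div_mul_add (a := t + k) (b := n) (by omega)
      omega
    have hi01 : i₀ ≤ i₁ := by
      by_contra hcon
      have h1 : (i₁ + 1) * n ≤ i₀ * n := Nat.mul_le_mul_right n (by omega)
      have h2 : (i₁ + 1) * n = i₁ * n + n := by ring
      omega
    have hi1N : i₁ ≤ N := by
      by_contra hcon
      have h1 : (N + 1) * n ≤ i₁ * n := Nat.mul_le_mul_right n (by omega)
      have h2 : (N + 1) * n = N * n + n := by ring
      omega
    obtain ⟨I, hI⟩ : ∃ I : Finset ℤ, I = Finset.Icc x (x + T) := ⟨_, rfl⟩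
    have hIc : (I.card : ℝ) = T + 1 := by
      rw [hI, Int.card_Icc]
      have : (x + (T : ℤ) + 1 - x).toNat = T + 1 := by omega
      rw [this]
      push_cast
      ring
    obtain ⟨a, ha⟩ : ∃ a : ℕ → ℤ → ℝ, a = fun i z => WR μ s R η ((t : ℤ), x) (i * n - t) (z - x) := ⟨_, rfl⟩
    obtain ⟨b, hbd⟩ : ∃ b : ℕ → ℤ → ℝ, b = fun i z => WR μ s R η (((i * n : ℕ) : ℤ), z) (t + k - i * n) (q - z) := ⟨_, rfl⟩
    obtain ⟨c, hc⟩ : ∃ c : ℕ → ℤ → ℤ → ℝ, c = fun i z z' => WR μ s R η (((i * n : ℕ) : ℤ), z) n (z' - z) := ⟨_, rfl⟩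
    obtain ⟨U, hU⟩ : ∃ U : ℕ → ℤ → Prop, U = fun i z => ωW < lat69 μ s (i * n) z := ⟨_, rfl⟩
    have ha0 : ∀ i z, 0 ≤ a i z := fun i z => by rw [ha]; exact WR_nonneg _ _ _ _ _
    have hb0 : ∀ i z, 0 ≤ b i z := fun i z => by rw [hbd]; exact WR_nonneg _ _ _ _ _
    have hc0 : ∀ i z z', 0 ≤ c i z z' := fun i z z' => by rw [hc]; exact WR_nonneg _ _ _ _ _
    -- a site with positive mass is in the window and reachable
    have hapos : ∀ i, i₀ ≤ i → ∀ z, a i z ≠ 0 → lat69 μ s (i * n) z ≤ ω ∧ x ≤ z ∧ z ≤ x + ((i * n - t : ℕ) : ℤ) := by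
      intro i hi z hz
      have hti : t ≤ i * n := hi0.trans (Nat.mul_le_mul_right n hi)
      rw [ha] at hz
      have h1 : 0 ≤ z - x ∧ z - x ≤ ((i * n - t : ℕ) : ℤ) := by
        by_contra hcon
        exact hz (WR_off _ _ _ hcon)
      refine ⟨?_, by omega, by omega⟩
      rcases Nat.eq_zero_or_pos (i * n - t) with h0 | h0
      · have h2 : i * n = t := by omega
        rw [h2]
        have h3 : z = x := by
          rw [h0] at h1
          push_cast at h1
          omega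
        rw [h3]
        exact hx'
      · have h2 := WR_win69 (μ := μ) (s := s) (ω := ω) (η := η) (t := t) (x := x) (j := i * n - t) (z := z) h0 (by rw [← hR]; exact hz)
        have h3 : t + (i * n - t) = i * n := by omega
        rw [h3] at h2
        exact h2
    have haI : ∀ i, i₀ ≤ i → i ≤ i₁ → ∀ J : Finset ℤ, ∑ z ∈ J, a i z ≤ Real.exp b₁ := by
      intro i hi hi' J
      have hti : t ≤ i * n := hi0.trans (Nat.mul_le_mul_right n hi)
      have hik : i * n ≤ t + k := (Nat.mul_le_mul_right n hi').trans hi1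
      rw [ha]
      exact hrow t (i * n - t) x J (by omega) hx'
    obtain ⟨ε, hε⟩ : ∃ ε : ℝ, ε = (T + 3) * e := ⟨_, rfl⟩
    -- one step out of the outer zone
    have hterm : ∀ i, i₀ ≤ i → i < i₁ → ∀ z, U i z → a i z ≠ 0 → ∀ z', ¬ U (i + 1) z' →
        c i z z' * b (i + 1) z' ≤ c i z z' * (2 * Real.exp (b₁ - Y)) + Real.exp (-Y) * Real.exp b₁ := by
      intro i hi hi' z hz hz0 z' hz'
      have hik : (i + 1) * n ≤ t + k := (Nat.mul_le_mul_right n hi').trans hi1
      have e3 : (i + 1) * n = i * n + n := by ring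
      rw [hU] at hz hz'
      dsimp only at hz hz'
      rw [not_lt] at hz'
      have p1 : 0 < Real.exp (-Y) * Real.exp b₁ := by positivity
      have p2 : 0 < 2 * Real.exp (b₁ - Y) := by positivity
      rcases lt_or_ge (ωW - ρ) (lat69 μ s ((i + 1) * n) z') with h1 | h1
      · have h2 : b (i + 1) z' ≤ 2 * Real.exp (b₁ - Y) := by
          rw [hbd]
          exact hring (i + 1) (t + k - (i + 1) * n) z' (by omega) h1 hz' (by omega)
        have h3 := mul_le_mul_of_nonneg_left h2 (hc0 i z z')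
        linarith
      · have h2 : c i z z' ≤ Real.exp (-Y) := by
          rw [hc]
          refine hjump (i * n) n z z' (by omega) (by omega) (hapos i hi z hz0).1 ?_
          rw [← e3]
          refine le_trans ?_ (le_abs_self _)
          linarith
        have h3 : b (i + 1) z' ≤ Real.exp b₁ := by
          rw [hbd]
          exact hpt ((i + 1) * n) (t + k - (i + 1) * n) z' q (by omega) (hz'.trans h.wW)
        have h4 := mul_le_mul h2 h3 (hb0 _ _) (Real.exp_pos _).le
        have h5 := mul_nonneg (hc0 i z z') p2.le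
        linarith
    have key := zone69 (I := I) (a := a) (b := b) (c := c) (U := U) (ε := ε) (i₀ := i₀) ha0 hb0 hc0 (i₁ - i₀)
      (by
        intro i hi hi' z hz
        have hik : (i + 1) * n ≤ t + k := (Nat.mul_le_mul_right n (by omega)).trans hi1
        have e3 : (i + 1) * n = i * n + n := by ring
        rcases eq_or_ne (a i z) 0 with h0 | h0
        · rw [h0, zero_mul, zero_mul]
        · refine mul_le_mul_of_nonneg_left (le_of_eq ?_) (ha0 i z)
          obtain ⟨-, hz1, hz2⟩ := hapos i hi z h0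
          have e4 : t + k - i * n = n + (t + k - (i + 1) * n) := by omega
          rw [hbd, hc]
          dsimp only
          rw [e4, WR_add' (μ := μ) (s := s) R η ((i * n : ℕ) : ℤ) z n (t + k - (i + 1) * n) q (A := x) (B := x + T) hz1 (by omega), ← hI]
          refine Finset.sum_congr rfl fun u _ => ?_
          have e5 : ((((i * n : ℕ) : ℤ) + (n : ℤ), u) : Pt) = ((((i + 1) * n : ℕ) : ℤ), u) := by rw [e3]; push_cast; rfl
          rw [e5])
      (by
        intro i hi hi' z' _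
        have hti : t ≤ i * n := hi0.trans (Nat.mul_le_mul_right n hi)
        have hik : (i + 1) * n ≤ t + k := (Nat.mul_le_mul_right n (by omega)).trans hi1
        have e3 : (i + 1) * n = i * n + n := by ring
        have e4 : (i + 1) * n - t = (i * n - t) + n := by omega
        refine le_of_eq ?_
        rw [ha, hc]
        dsimp only
        rw [e4, WR_add' (μ := μ) (s := s) R η (t : ℤ) x (i * n - t) n z' (A := x) (B := x + T) le_rfl (by omega), ← hI]
        refine Finset.sum_congr rfl fun u _ => ?_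
        have e5 : (((t : ℤ) + ((i * n - t : ℕ) : ℤ), u) : Pt) = (((i * n : ℕ) : ℤ), u) := by
          ext
          · show (t : ℤ) + ((i * n - t : ℕ) : ℤ) = ((i * n : ℕ) : ℤ)
            omega
          · rfl
        rw [e5])
      (by
        intro i hi hi'
        have hik : (i + 1) * n ≤ t + k := (Nat.mul_le_mul_right n (by omega)).trans hi1
        have e3 : (i + 1) * n = i * n + n := by ring
        have hz : ∀ z ∈ I.filter (U i), a i z * ∑ z' ∈ I.filter (fun z' => ¬ U (i + 1) z'), c i z z' * b (i + 1) z' ≤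
            a i z * (Real.exp b₁ * (2 * Real.exp (b₁ - Y)) + (T + 1) * (Real.exp (-Y) * Real.exp b₁)) := by
          intro z hz
          rcases eq_or_ne (a i z) 0 with h0 | h0
          · rw [h0, zero_mul, zero_mul]
          · refine mul_le_mul_of_nonneg_left ?_ (ha0 i z)
            have h1 : ∑ z' ∈ I.filter (fun z' => ¬ U (i + 1) z'), c i z z' * b (i + 1) z' ≤
                ∑ z' ∈ I.filter (fun z' => ¬ U (i + 1) z'), (c i z z' * (2 * Real.exp (b₁ - Y)) + Real.exp (-Y) * Real.exp b₁) :=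
              Finset.sum_le_sum fun z' hz' => hterm i hi (by omega) z (Finset.mem_filter.1 hz).2 h0 z' (Finset.mem_filter.1 hz').2
            refine h1.trans ?_
            rw [Finset.sum_add_distrib, ← Finset.sum_mul, Finset.sum_const, nsmul_eq_mul]
            refine add_le_add ?_ ?_
            · refine mul_le_mul_of_nonneg_right ?_ (by positivity)
              rw [hc]
              exact hrow (i * n) n z _ (by omega) (hapos i hi z h0).1
            · refine mul_le_mul_of_nonneg_right ?_ (by positivity)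
              rw [← hIc]
              exact_mod_cast Finset.card_filter_le _ _
        refine (Finset.sum_le_sum hz).trans ?_
        rw [← Finset.sum_mul]
        refine (mul_le_mul_of_nonneg_right (haI i hi (by omega) _) (by positivity)).trans ?_
        have h2 : Real.exp b₁ * (Real.exp b₁ * (2 * Real.exp (b₁ - Y))) = 2 * e := by
          rw [he]
          have : 3 * b₁ - Y = b₁ + (b₁ + (b₁ - Y)) := by ring
          rw [this, Real.exp_add, Real.exp_add]
          ring
        have h3 : Real.exp b₁ * (Real.exp (-Y) * Real.exp b₁) ≤ e := by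
          rw [← Real.exp_add, ← Real.exp_add, he]
          exact Real.exp_le_exp.2 (by linarith)
        rw [hε, mul_add, h2]
        have h4 : Real.exp b₁ * ((T + 1) * (Real.exp (-Y) * Real.exp b₁)) ≤ (T + 1) * e := by
          calc _ = (T + 1) * (Real.exp b₁ * (Real.exp (-Y) * Real.exp b₁)) := by ring
            _ ≤ _ := mul_le_mul_of_nonneg_left h3 (by linarith)
        linarith)
    have ei : i₀ + (i₁ - i₀) = i₁ := by omega
    rw [ei] at key
    -- the end
    have hend : ∑ z ∈ I.filter (U i₁), a i₁ z * b i₁ z ≤ ε := by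
      have h1 : ∀ z ∈ I.filter (U i₁), a i₁ z * b i₁ z ≤ a i₁ z * Real.exp (-Y) := by
        intro z hz
        rcases eq_or_ne (a i₁ z) 0 with h0 | h0
        · rw [h0, zero_mul, zero_mul]
        · refine mul_le_mul_of_nonneg_left ?_ (ha0 _ _)
          have hz2 : ωW < lat69 μ s (i₁ * n) z := by
            have hz3 := (Finset.mem_filter.1 hz).2
            rw [hU] at hz3
            exact hz3
          rw [hbd]
          refine hjump (i₁ * n) (t + k - i₁ * n) z q (by omega) (by omega) (hapos i₁ hi01 z h0).1 ?_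
          have e6 : i₁ * n + (t + k - i₁ * n) = t + k := by omega
          rw [e6]
          refine le_trans ?_ (le_abs_self _)
          linarith
      refine (Finset.sum_le_sum h1).trans ?_
      rw [← Finset.sum_mul]
      refine (mul_le_mul_of_nonneg_right (haI i₁ hi01 le_rfl _) (Real.exp_pos _).le).trans (e2.trans ?_)
      rw [hε]
      nlinarith
    -- the first rows
    have hstart : ∑ z ∈ I.filter (fun z => ¬ U i₀ z), a i₀ z * b i₀ z ≤ ε := by
      have h1 : ∀ z ∈ I.filter (fun z => ¬ U i₀ z), a i₀ z * b i₀ z ≤ a i₀ z * (2 * Real.exp (b₁ - Y)) + Real.exp (-Y) * Real.exp b₁ := by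
        intro z hz
        have p1 : 0 < Real.exp (-Y) * Real.exp b₁ := by positivity
        have p2 : 0 < 2 * Real.exp (b₁ - Y) := by positivity
        have hz2 := (Finset.mem_filter.1 hz).2
        rw [hU] at hz2
        dsimp only at hz2
        rw [not_lt] at hz2
        rcases lt_or_ge (ωW - ρ) (lat69 μ s (i₀ * n) z) with h3 | h3
        · have h4 : b i₀ z ≤ 2 * Real.exp (b₁ - Y) := by
            rw [hbd]
            exact hring i₀ (t + k - i₀ * n) z (by omega) h3 hz2 (by omega)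
          have h5 := mul_le_mul_of_nonneg_left h4 (ha0 i₀ z)
          linarith
        · have h4 : a i₀ z ≤ Real.exp (-Y) := by
            rw [ha]
            refine hjump t (i₀ * n - t) x z (by omega) (by omega) hx' ?_
            have e6 : t + (i₀ * n - t) = i₀ * n := by omega
            rw [e6]
            refine le_trans ?_ (le_abs_self _)
            linarith
          have h5 : b i₀ z ≤ Real.exp b₁ := by
            rw [hbd]
            exact hpt (i₀ * n) (t + k - i₀ * n) z q (by omega) (hz2.trans h.wW)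
          have h6 := mul_le_mul h4 h5 (hb0 _ _) (Real.exp_pos _).le
          have h7 := mul_nonneg (ha0 i₀ z) p2.le
          linarith
      refine (Finset.sum_le_sum h1).trans ?_
      rw [Finset.sum_add_distrib, ← Finset.sum_mul, Finset.sum_const, nsmul_eq_mul]
      have h2 : (∑ z ∈ I.filter (fun z => ¬ U i₀ z), a i₀ z) * (2 * Real.exp (b₁ - Y)) ≤ 2 * e := by
        refine (mul_le_mul_of_nonneg_right (haI i₀ le_rfl hi01 _) (by positivity)).trans ?_
        have : Real.exp b₁ * (2 * Real.exp (b₁ - Y)) = 2 * (Real.exp b₁ * Real.exp (b₁ - Y)) := by ring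
        rw [this, ← Real.exp_add, he]
        have : Real.exp (b₁ + (b₁ - Y)) ≤ Real.exp (3 * b₁ - Y) := Real.exp_le_exp.2 (by linarith)
        linarith
      have h3 : ((I.filter (fun z => ¬ U i₀ z)).card : ℝ) * (Real.exp (-Y) * Real.exp b₁) ≤ (T + 1) * e := by
        refine mul_le_mul ?_ ?_ (by positivity) (by linarith)
        · rw [← hIc]
          exact_mod_cast Finset.card_filter_le _ _
        · rw [mul_comm]
          exact e2
      rw [hε]
      linarith
    have hall : WR μ s R η ((t : ℤ), x) k (q - x) = ∑ z ∈ I, a i₀ z * b i₀ z := by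
      have e4 : k = (i₀ * n - t) + (t + k - i₀ * n) := by omega
      rw [ha, hbd]
      conv_lhs => rw [e4]
      rw [WR_add' (μ := μ) (s := s) R η (t : ℤ) x (i₀ * n - t) (t + k - i₀ * n) q (A := x) (B := x + T) le_rfl (by omega), ← hI]
      refine Finset.sum_congr rfl fun u _ => ?_
      have e5 : (((t : ℤ) + ((i₀ * n - t : ℕ) : ℤ), u) : Pt) = (((i₀ * n : ℕ) : ℤ), u) := by
        ext
        · show (t : ℤ) + ((i₀ * n - t : ℕ) : ℤ) = ((i₀ * n : ℕ) : ℤ)
          omega
        · rfl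
      rw [e5]
    rw [hall, ← Finset.sum_filter_add_sum_filter_not I (U i₀), hE, ← hε]
    have hm : ((i₁ - i₀ : ℕ) : ℝ) ≤ N := by exact_mod_cast (by omega : i₁ - i₀ ≤ N)
    have hε0 : 0 ≤ ε := by rw [hε]; positivity
    have h9 := mul_le_mul_of_nonneg_right hm hε0
    linarith
  · -- less than one sub block
    push Not at hA
    have hk : k < n := by
      have h1 : (t + k) / n * n ≤ t + k := Nat.div_mul_le_self _ _
      have h2 := Nat.lt_div_mul_add (a := t + k) (b := n) (by omega)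
      by_contra hcon
      have h3 := hA ((t + k) / n)
      omega
    refine (hjump t k x q htk (by omega) hx' ?_).trans ?_
    · refine le_trans ?_ (le_abs_self _)
      linarith
    · rw [hE]
      refine e1.trans ?_
      have h1 : e ≤ (T + 3) * e := by nlinarith
      nlinarith

/-- **Such a start: kernel against kernel off the strips.** -/
theorem Wal69.touch (h : Wal69 μ s η n N ω ωW ρ α κ Y b₁ l) {S : Set Pt} (hS : ∀ (t : ℕ) (x : ℤ), (((t : ℤ), x) : Pt) ∈ S → lat69 μ s t x ≤ κ)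
    {t k : ℕ} (htk : t + k ≤ N * n) {x : ℤ} (hx : ωW < lat69 μ s t x) (hx' : lat69 μ s t x ≤ ω) (y : ℤ) :
    WR μ s (St μ s ω 0) η ((t : ℤ), x) k (y - x) ≤ WR μ s (St μ s ω 0 ∩ Sᶜ) η ((t : ℤ), x) k (y - x) +
      (N * n : ℕ) * ((N * n : ℕ) + 1) * (rimE69 N (N * n) b₁ Y * Real.exp b₁) := by
  classical
  obtain ⟨T, hT⟩ : ∃ T : ℕ, T = N * n := ⟨_, rfl⟩
  have hE0 : 0 ≤ rimE69 N (N * n) b₁ Y := (Real.exp_pos _).le.trans (rimE69_ge h.b0)
  obtain ⟨Ω, hΩ⟩ : ∃ Ω : Set Pt, Ω = St μ s ω 0 ∩ Sᶜ := ⟨_, rfl⟩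
  rw [← hΩ]
  refine (touch69 (μ := μ) (s := s) (Ω := Ω) (R := St μ s ω 0) (by rw [hΩ]; exact Set.inter_subset_left) η (t : ℤ) x k y).trans ?_
  refine add_le_add le_rfl ?_
  have h1 : ∀ j ∈ Finset.range k, ∑ u ∈ Finset.Icc x (x + (j + 1 : ℕ)), (if (((t : ℤ) + (j + 1 : ℕ), u) : Pt) ∈ Ω then 0 else
      WR μ s (St μ s ω 0) η ((t : ℤ), x) (j + 1) (u - x) * WR μ s (St μ s ω 0) η ((t : ℤ) + (j + 1 : ℕ), u) (k - (j + 1)) (y - u)) ≤
      ((N * n : ℕ) + 1) * (rimE69 N (N * n) b₁ Y * Real.exp b₁) := by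
    intro j hj
    rw [Finset.mem_range] at hj
    have h2 : ∀ u ∈ Finset.Icc x (x + (j + 1 : ℕ)), (if (((t : ℤ) + (j + 1 : ℕ), u) : Pt) ∈ Ω then 0 else
        WR μ s (St μ s ω 0) η ((t : ℤ), x) (j + 1) (u - x) * WR μ s (St μ s ω 0) η ((t : ℤ) + (j + 1 : ℕ), u) (k - (j + 1)) (y - u)) ≤
        rimE69 N (N * n) b₁ Y * Real.exp b₁ := by
      intro u _
      have e1 : (((t : ℤ) + ((j + 1 : ℕ) : ℤ), u) : Pt) = (((t + (j + 1) : ℕ) : ℤ), u) := by push_cast; rfl
      rw [e1]
      split_ifs with hm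
      · positivity
      · rcases eq_or_ne (WR μ s (St μ s ω 0) η ((t : ℤ), x) (j + 1) (u - x)) 0 with h0 | h0
        · rw [h0, zero_mul]
          positivity
        · have h3 := WR_win69 (μ := μ) (s := s) (ω := ω) (η := η) (t := t) (x := x) (j := j + 1) (z := u) (by omega) h0
          have h4 : (((t + (j + 1) : ℕ) : ℤ), u) ∈ S := by
            by_contra hcon
            refine hm ?_
            rw [hΩ]
            exact ⟨mem_St69.2 h3, hcon⟩
          refine mul_le_mul (h.rim (by omega) hx hx' (hS _ _ h4)) (h.pt _ (by omega) h3 _) (WR_nonneg _ _ _ _ _) hE0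
    refine (Finset.sum_le_sum h2).trans ?_
    rw [Finset.sum_const, nsmul_eq_mul]
    refine mul_le_mul_of_nonneg_right ?_ (by positivity)
    rw [Int.card_Icc]
    have h3 : (x + ((j + 1 : ℕ) : ℤ) + 1 - x).toNat ≤ N * n + 1 := by omega
    exact_mod_cast h3
  refine (Finset.sum_le_sum h1).trans ?_
  rw [Finset.sum_const, nsmul_eq_mul, Finset.card_range, ← mul_assoc]
  refine mul_le_mul_of_nonneg_right ?_ (by positivity)
  refine mul_le_mul_of_nonneg_right ?_ (by positivity)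
  exact_mod_cast (by omega : k ≤ N * n)

end Rim

end

end Pool.Agent.W_7d29a1_C1
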