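import Pool.Agent.W_7d29a1_C1.BoxA69

/-!
MP_7d29a1_pr, [C1], resampled WINDOWS, part C: THE ENTRANCE ROW. (helper69)

Walls on the window `ωW` only (`Wal69`), the paths may use the larger window `ω`. A start of the row `0` at distance at most `ωW` goes to
`y` with mass at most `N exp (2 b₁) 2 exp (- Y)` unless `x` is in the mouth and `y` in the exit cell of the same lane (`chain69`,
`small69`); this is `chain20` with the walls on a smaller window than the paths.
-/

set_option autoImplicit false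

namespace Pool.Agent.W_7d29a1_C1

open MeasureTheory ProbabilityTheory Filter Topology
open Pool.Agent.W_7d29a1_F Pool.Agent.W_7d29a1_h4g Pool.Agent.W_7d29a1_H Pool.Agent.W_7d29a1_HS
open Pool.Agent.W_7d29a1_HL (WR_off WR_last_off WR_add' WR_mono' WR_zero' cS)

noncomputable section

variable {μ : Measure ℝ} {s : ℝ} {ι : Type*}

/-- DECOMPOSITION AT THE FIRST BAD STEP. -/
theorem chain69 [IsProbabilityMeasure μ] {η : Env} {n N : ℕ} {ω ωW ρ α κ Y b₁ τ : ℝ} {l : ι → ℕ → ℝ}
    (h : Wal69 μ s η n N ω ωW ρ α κ Y b₁ l)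
    (hs : ∀ j, ∀ i < N, |l j (i + 1) - l j i - sl μ s * n| ≤ τ)
    (hsep : ∀ j j', j ≠ j' → ∀ i ≤ N, 2 * α + ρ + τ < |l j i - l j' i|)
    (hl : ∀ (j : ι) (i : ℕ), i ≤ N → |l j i - sl μ s * (i * n : ℕ)| + (α + ρ + τ) ≤ ωW)
    {x : ℤ} (hx : lat69 μ s 0 x ≤ ωW) {T' : ℕ} (hT' : T' ≤ N * n) (y : ℤ) (i : ℕ) (hi : i * n ≤ T') :
    WR μ s (St μ s ω 0) η ((0 : ℤ), x) T' (y - x) ≤
      ∑ z ∈ Finset.Icc x (x + (N * n : ℕ)), gk20 μ s (St μ s ω 0) ρ α n l η (Finset.Icc x (x + (N * n : ℕ))) x i z *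
        WR μ s (St μ s ω 0) η (((i * n : ℕ) : ℤ), z) (T' - i * n) (y - z) +
      i * (Real.exp b₁ * (2 * Real.exp (-Y)) * Real.exp b₁) := by
  classical
  have hn := h.n1
  obtain ⟨Ω, hΩ⟩ : ∃ Ω : Set Pt, Ω = St μ s ω 0 := ⟨_, rfl⟩
  obtain ⟨I, hI⟩ : ∃ I : Finset ℤ, I = Finset.Icc x (x + (N * n : ℕ)) := ⟨_, rfl⟩
  have h00 : ((0 : ℤ), x) = ((((0 : ℕ) : ℤ), x) : Pt) := by simp
  induction i with
  | zero =>
    rw [← hΩ, ← hI]
    have h1 : ∑ z ∈ I, gk20 μ s Ω ρ α n l η I x 0 z * WR μ s Ω η (((0 * n : ℕ) : ℤ), z) (T' - 0 * n) (y - z) =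
        WR μ s Ω η ((0 : ℤ), x) T' (y - x) := by
      rw [Finset.sum_eq_single_of_mem x]
      · unfold gk20
        simp
      · rw [hI, Finset.mem_Icc]
        constructor
        · exact le_rfl
        · have : (0 : ℤ) ≤ ((N * n : ℕ) : ℤ) := Int.natCast_nonneg _
          linarith
      · intro b _ hb
        unfold gk20
        rw [if_neg hb, zero_mul]
    rw [h1]
    simp
  | succ i ih =>
    have e3 : (i + 1) * n = i * n + n := by ring
    have ih' := ih (by omega)
    rw [← hΩ, ← hI] at ih' ⊢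
    have hiN : i < N := by
      by_contra hcon
      have h1 : N * n ≤ i * n := Nat.mul_le_mul_right n (by omega)
      omega
    have hin : i * n + n ≤ N * n := by omega
    have eN : T' - i * n = n + (T' - (i + 1) * n) := by omega
    obtain ⟨g, hg⟩ : ∃ g : ℤ → ℝ, g = gk20 μ s Ω ρ α n l η I x i := ⟨_, rfl⟩
    obtain ⟨K, hK⟩ : ∃ K : ℤ → ℤ → ℝ, K = fun z z' => WR μ s Ω η (((i * n : ℕ) : ℤ), z) n (z' - z) := ⟨_, rfl⟩
    obtain ⟨R, hR⟩ : ∃ R : ℤ → ℝ, R = fun z' => WR μ s Ω η ((((i + 1) * n : ℕ) : ℤ), z') (T' - (i + 1) * n) (y - z') :=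
      ⟨_, rfl⟩
    obtain ⟨G, hG⟩ : ∃ G : ℤ → ℤ → ℝ, G = fun z z' => if gd20 (sl μ s) ρ α n l i z z' then K z z' else 0 := ⟨_, rfl⟩
    have hg0 : ∀ z, 0 ≤ g z := fun z => by rw [hg]; exact gk20_nonneg _ _ _ _ _ _ _ _ _ _
    have hgle : ∀ z, g z ≤ WR μ s Ω η ((0 : ℤ), x) (i * n) (z - x) := fun z => by
      rw [hg, hI]
      exact gk20_le Ω ρ α n N l η x i (by omega) z
    have hK0 : ∀ z z', 0 ≤ K z z' := fun z z' => by rw [hK]; exact WR_nonneg _ _ _ _ _
    have hR0 : ∀ z, 0 ≤ R z := fun z => by rw [hR]; exact WR_nonneg _ _ _ _ _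
    -- Chapman - Kolmogorov for the rest
    have hCK : ∀ z ∈ I, g z * WR μ s Ω η (((i * n : ℕ) : ℤ), z) (T' - i * n) (y - z) ≤ g z * ∑ z' ∈ I, K z z' * R z' := by
      intro z _
      rcases eq_or_lt_of_le (hg0 z) with h0 | h0
      · rw [← h0, zero_mul, zero_mul]
      · refine mul_le_mul_of_nonneg_left ?_ (hg0 z)
        have hzx : 0 ≤ z - x ∧ z - x ≤ ((i * n : ℕ) : ℤ) := by
          by_contra hcon
          have h1 := hgle z
          rw [WR_off _ _ _ hcon] at h1
          linarith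
        rw [eN, WR_add' (μ := μ) (s := s) Ω η ((i * n : ℕ) : ℤ) z n (T' - (i + 1) * n) y (A := x)
          (B := x + (N * n : ℕ)) (by linarith [hzx.1]) (by
            have : ((i * n : ℕ) : ℤ) + n ≤ ((N * n : ℕ) : ℤ) := by exact_mod_cast hin
            linarith [hzx.2]), ← hI]
        refine le_of_eq (Finset.sum_congr rfl fun u _ => ?_)
        have e2 : ((((i * n : ℕ) : ℤ) + (n : ℤ), u) : Pt) = ((((i + 1) * n : ℕ) : ℤ), u) := by
          rw [e3]
          push_cast
          rfl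
        rw [e2, hK, hR]
    have h1 : ∑ z ∈ I, g z * WR μ s Ω η (((i * n : ℕ) : ℤ), z) (T' - i * n) (y - z) ≤
        ∑ z ∈ I, g z * ∑ z' ∈ I, K z z' * R z' := Finset.sum_le_sum hCK
    -- good part
    have h2 : ∑ z ∈ I, g z * ∑ z' ∈ I, K z z' * R z' =
        ∑ z' ∈ I, (∑ z ∈ I, g z * G z z') * R z' + ∑ z ∈ I, g z * ∑ z' ∈ I, (K z z' - G z z') * R z' := by
      have h3 : ∀ z ∈ I, g z * ∑ z' ∈ I, K z z' * R z' =
          g z * ∑ z' ∈ I, G z z' * R z' + g z * ∑ z' ∈ I, (K z z' - G z z') * R z' := by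
        intro z _
        rw [← mul_add, ← Finset.sum_add_distrib]
        congr 1
        exact Finset.sum_congr rfl fun z' _ => by ring
      rw [Finset.sum_congr rfl h3, Finset.sum_add_distrib]
      congr 1
      have h4 : ∀ z ∈ I, g z * ∑ z' ∈ I, G z z' * R z' = ∑ z' ∈ I, g z * G z z' * R z' := by
        intro z _
        rw [Finset.mul_sum]
        exact Finset.sum_congr rfl fun z' _ => by ring
      rw [Finset.sum_congr rfl h4, Finset.sum_comm]
      exact Finset.sum_congr rfl fun z' _ => by rw [Finset.sum_mul]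
    -- bad part
    have hKG : ∀ z z', 0 ≤ K z z' - G z z' := by
      intro z z'
      rw [hG]
      dsimp only
      split_ifs
      · rw [sub_self]
      · rw [sub_zero]
        exact hK0 z z'
    have hbad : ∀ z ∈ I, g z * ∑ z' ∈ I, (K z z' - G z z') * R z' ≤
        WR μ s Ω η ((0 : ℤ), x) (i * n) (z - x) * (2 * Real.exp (-Y) * Real.exp b₁) := by
      intro z _
      have hS0 : 0 ≤ ∑ z' ∈ I, (K z z' - G z z') * R z' :=
        Finset.sum_nonneg fun z' _ => mul_nonneg (hKG z z') (hR0 z')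
      rcases eq_or_lt_of_le (hg0 z) with h0 | h0
      · rw [← h0, zero_mul]
        exact mul_nonneg (WR_nonneg _ _ _ _ _) (by positivity)
      · -- `z` is in the window of the walls
        have hwin : |(z : ℝ) - sl μ s * (i * n : ℕ)| ≤ ωW := by
          rcases Nat.eq_zero_or_pos i with hi0 | hi0
          · subst hi0
            have hzx : z = x := by
              by_contra hne
              rw [hg] at h0
              unfold gk20 at h0
              rw [if_neg hne] at h0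
              exact lt_irrefl _ h0
            rw [hzx]
            simpa [lat69] using hx
          · rw [hg] at h0
            obtain ⟨j, -, hj⟩ := gk20_supp (μ := μ) (s := s) Ω n η I x hs hsep i (by omega) hi0 z h0.ne'
            have h5 := hl j i (by omega)
            have h6 : |(z : ℝ) - sl μ s * (i * n : ℕ)| ≤ |(z : ℝ) - l j i| + |l j i - sl μ s * (i * n : ℕ)| := abs_sub_le _ _ _
            linarith
        refine mul_le_mul (hgle z) ?_ hS0 (WR_nonneg _ _ _ _ _)
        have h6 : ∀ z' ∈ I, (K z z' - G z z') * R z' ≤ (K z z' - G z z') * Real.exp b₁ := by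
          intro z' _
          rcases eq_or_lt_of_le (hKG z z') with h7 | h7
          · rw [← h7, zero_mul, zero_mul]
          · refine mul_le_mul_of_nonneg_left ?_ (hKG z z')
            have h8 : WR μ s (St μ s ω 0) η (((i * n : ℕ) : ℤ), z) n (z' - z) ≠ 0 := by
              intro h9
              have h10 : K z z' = 0 := by
                rw [hK, hΩ]
                exact h9
              have h11 : G z z' = 0 := by
                rw [hG]
                dsimp only
                rw [h10]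
                split_ifs <;> rfl
              rw [h10, h11, sub_self] at h7
              exact lt_irrefl _ h7
            have h12 := WR_win69 (μ := μ) (s := s) (ω := ω) (η := η) (t := i * n) (x := z) (z := z') (j := n) hn h8
            rw [← e3] at h12
            rw [hR]
            exact h.pt Ω (by omega) h12 _
        refine (Finset.sum_le_sum h6).trans ?_
        rw [← Finset.sum_mul]
        refine mul_le_mul_of_nonneg_right ?_ (Real.exp_nonneg _)
        have h7 := bad_step20 (μ := μ) (s := s) hn h.jump h.wall hiN hwin Ω I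
        refine le_trans (le_of_eq ?_) h7
        refine Finset.sum_congr rfl fun z' _ => ?_
        rw [hG, hK]
    have hbad2 : ∑ z ∈ I, g z * ∑ z' ∈ I, (K z z' - G z z') * R z' ≤ Real.exp b₁ * (2 * Real.exp (-Y)) * Real.exp b₁ := by
      refine (Finset.sum_le_sum hbad).trans ?_
      rw [← Finset.sum_mul]
      have h5 : ∑ z ∈ I, WR μ s Ω η ((0 : ℤ), x) (i * n) (z - x) ≤ Real.exp b₁ := by
        rw [h00]
        exact h.row Ω (t := 0) (by omega) (hx.trans h.wW) I
      have h6 : 0 ≤ 2 * Real.exp (-Y) * Real.exp b₁ := by positivity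
      calc _ ≤ Real.exp b₁ * (2 * Real.exp (-Y) * Real.exp b₁) := mul_le_mul_of_nonneg_right h5 h6
        _ = _ := by ring
    have hgood : ∑ z' ∈ I, (∑ z ∈ I, g z * G z z') * R z' =
        ∑ z ∈ I, gk20 μ s Ω ρ α n l η I x (i + 1) z *
          WR μ s Ω η ((((i + 1) * n : ℕ) : ℤ), z) (T' - (i + 1) * n) (y - z) := by
      refine Finset.sum_congr rfl fun z' _ => ?_
      rw [hR]
      dsimp only
      congr 1
      rw [gk20, hG, hg, hK]
    rw [← hg] at ih'
    have hc : ((i + 1 : ℕ) : ℝ) = (i : ℝ) + 1 := by push_cast; ring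
    rw [← hgood, hc]
    rw [h2] at h1
    nlinarith [h1, hbad2, ih']

/-- **THE KERNEL OF THE ENTRANCE ROW IS SMALL** unless the start and the end are near the two ends of the same lane. -/
theorem small69 [IsProbabilityMeasure μ] {η : Env} {n N : ℕ} {ω ωW ρ α κ Y b₁ τ : ℝ} {l : ι → ℕ → ℝ}
    (h : Wal69 μ s η n N ω ωW ρ α κ Y b₁ l) (hN : 1 ≤ N)
    (hs : ∀ j, ∀ i < N, |l j (i + 1) - l j i - sl μ s * n| ≤ τ)
    (hsep : ∀ j j', j ≠ j' → ∀ i ≤ N, 2 * α + ρ + τ < |l j i - l j' i|)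
    (hl : ∀ (j : ι) (i : ℕ), i ≤ N → |l j i - sl μ s * (i * n : ℕ)| + (α + ρ + τ) ≤ ωW)
    {x : ℤ} (hx : lat69 μ s 0 x ≤ ωW) (y : ℤ) (h1 : ∀ j, ¬ (|(x : ℝ) - l j 0| ≤ α ∧ |(y : ℝ) - l j N| ≤ α + ρ + τ)) :
    WR μ s (St μ s ω 0) η ((0 : ℤ), x) (N * n) (y - x) ≤ N * (Real.exp b₁ * (2 * Real.exp (-Y)) * Real.exp b₁) := by
  have k2 := chain69 h hs hsep hl hx (le_refl (N * n)) y N le_rfl
  have k3 : ∑ z ∈ Finset.Icc x (x + (N * n : ℕ)),
      gk20 μ s (St μ s ω 0) ρ α n l η (Finset.Icc x (x + (N * n : ℕ))) x N z *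
        WR μ s (St μ s ω 0) η (((N * n : ℕ) : ℤ), z) (N * n - N * n) (y - z) = 0 := by
    refine Finset.sum_eq_zero fun z _ => ?_
    by_cases hz : z = y
    · have h0 : gk20 μ s (St μ s ω 0) ρ α n l η (Finset.Icc x (x + (N * n : ℕ))) x N z = 0 := by
        by_contra hne
        obtain ⟨j, h⟩ := gk20_supp (μ := μ) (s := s) (St μ s ω 0) n η _ x hs hsep N le_rfl hN z hne
        rw [hz] at h
        exact h1 j h
      rw [h0, zero_mul]
    · have h0 : WR μ s (St μ s ω 0) η (((N * n : ℕ) : ℤ), z) (N * n - N * n) (y - z) = 0 := by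
        rw [Nat.sub_self]
        refine WR_off _ _ _ ?_
        rintro ⟨q1, q2⟩
        simp only [Nat.cast_zero] at q2
        omega
      rw [h0, mul_zero]
  rw [k3, zero_add] at k2
  exact k2

/-- **FROM THE ENTRANCE ROW NOBODY LEAVES THE WINDOW** of the walls by more than one jump. -/
theorem leave69 [IsProbabilityMeasure μ] {η : Env} {n N : ℕ} {ω ωW ρ α κ Y b₁ τ : ℝ} {l : ι → ℕ → ℝ}
    (h : Wal69 μ s η n N ω ωW ρ α κ Y b₁ l)
    (hs : ∀ j, ∀ i < N, |l j (i + 1) - l j i - sl μ s * n| ≤ τ)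
    (hsep : ∀ j j', j ≠ j' → ∀ i ≤ N, 2 * α + ρ + τ < |l j i - l j' i|)
    (hl : ∀ (j : ι) (i : ℕ), i ≤ N → |l j i - sl μ s * (i * n : ℕ)| + (α + ρ + τ) ≤ ωW)
    {x : ℤ} (hx : lat69 μ s 0 x ≤ ωW) {T' : ℕ} (hT' : T' ≤ N * n) {u : ℤ} (hu : ωW + ρ ≤ lat69 μ s T' u) :
    WR μ s (St μ s ω 0) η ((0 : ℤ), x) T' (u - x) ≤ (N + 1) * (Real.exp b₁ * (2 * Real.exp (-Y)) * Real.exp b₁) := by
  have hn := h.n1
  have hb := h.b0
  obtain ⟨i, hi⟩ : ∃ i : ℕ, i = T' / n := ⟨_, rfl⟩
  have hi1 : i * n ≤ T' := by rw [hi]; exact Nat.div_mul_le_self _ _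
  have hi2 : T' < i * n + n := by
    rw [hi]
    have := Nat.lt_div_mul_add (a := T') (b := n) (by omega)
    omega
  have hiN : i ≤ N := by
    by_contra hcon
    have h1 : (N + 1) * n ≤ i * n := Nat.mul_le_mul_right n (by omega)
    have h2 : (N + 1) * n = N * n + n := by ring
    omega
  have k2 := chain69 h hs hsep hl hx hT' u i hi1
  have h00 : ((0 : ℤ), x) = ((((0 : ℕ) : ℤ), x) : Pt) := by simp
  have k3 : ∑ z ∈ Finset.Icc x (x + (N * n : ℕ)),
      gk20 μ s (St μ s ω 0) ρ α n l η (Finset.Icc x (x + (N * n : ℕ))) x i z *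
        WR μ s (St μ s ω 0) η (((i * n : ℕ) : ℤ), z) (T' - i * n) (u - z) ≤ Real.exp b₁ * Real.exp (-Y) := by
    have h1 : ∀ z ∈ Finset.Icc x (x + (N * n : ℕ)),
        gk20 μ s (St μ s ω 0) ρ α n l η (Finset.Icc x (x + (N * n : ℕ))) x i z *
        WR μ s (St μ s ω 0) η (((i * n : ℕ) : ℤ), z) (T' - i * n) (u - z) ≤
        WR μ s (St μ s ω 0) η ((0 : ℤ), x) (i * n) (z - x) * Real.exp (-Y) := by
      intro z _
      have g0 := gk20_nonneg (μ := μ) (s := s) (St μ s ω 0) ρ α n l η (Finset.Icc x (x + (N * n : ℕ))) x i z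
      have gle := gk20_le (μ := μ) (s := s) (St μ s ω 0) ρ α n N l η x i hiN z
      rcases eq_or_lt_of_le g0 with h0 | h0
      · rw [← h0, zero_mul]
        exact mul_nonneg (WR_nonneg _ _ _ _ _) (Real.exp_pos _).le
      · refine mul_le_mul gle ?_ (WR_nonneg _ _ _ _ _) (WR_nonneg _ _ _ _ _)
        have hwin : lat69 μ s (i * n) z ≤ ωW := by
          rcases Nat.eq_zero_or_pos i with hi0 | hi0
          · rw [hi0] at h0 ⊢
            have hzx : z = x := by
              by_contra hne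
              unfold gk20 at h0
              rw [if_neg hne] at h0
              exact lt_irrefl _ h0
            rw [hzx, zero_mul]
            exact hx
          · obtain ⟨j, -, hj⟩ := gk20_supp (μ := μ) (s := s) (St μ s ω 0) n η _ x hs hsep i hiN hi0 z h0.ne'
            have h5 := hl j i hiN
            have h6 : |(z : ℝ) - sl μ s * (i * n : ℕ)| ≤ |(z : ℝ) - l j i| + |l j i - sl μ s * (i * n : ℕ)| := abs_sub_le _ _ _
            unfold lat69
            linarith
        refine (WR_le_W _ _ _ _ _).trans (h.jmp (i * n) (T' - i * n) z (by omega) (by omega) (hwin.trans h.wW) (u - z) ?_)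
        have h7 := lat_disp69 (μ := μ) (s := s) (i * n) (T' - i * n) z u
        have e6 : i * n + (T' - i * n) = T' := by omega
        rw [e6, abs_sub_comm] at h7
        have h8 := le_abs_self (lat69 μ s T' u - lat69 μ s (i * n) z)
        linarith
    refine (Finset.sum_le_sum h1).trans ?_
    rw [← Finset.sum_mul]
    refine mul_le_mul_of_nonneg_right ?_ (Real.exp_pos _).le
    rw [h00]
    exact h.row _ (t := 0) (by omega) (hx.trans h.wW) _
  have k4 : (i : ℝ) * (Real.exp b₁ * (2 * Real.exp (-Y)) * Real.exp b₁) ≤ N * (Real.exp b₁ * (2 * Real.exp (-Y)) * Real.exp b₁) :=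
    mul_le_mul_of_nonneg_right (by exact_mod_cast hiN) (by positivity)
  have k5 : Real.exp b₁ * Real.exp (-Y) ≤ Real.exp b₁ * (2 * Real.exp (-Y)) * Real.exp b₁ := by
    have h1 : 1 ≤ Real.exp b₁ := Real.one_le_exp hb
    have h2 : 0 < Real.exp b₁ * Real.exp (-Y) := by positivity
    nlinarith
  linarith

end

end Pool.Agent.W_7d29a1_C1
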