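import Mathlib

/-!
MP_7d29a1_pr, attractor route [C1], SHELL: THE CHAIN WITH BOXES. (helper28)

Leaves `q` (small tiles, or pairs of tiles) with weights `V q`; `anc i q` = the box of level `i` which contains `q`.
`R i Q η ω` = everything within the outer row of the shell `i` of the box `Q` (block AND inside) is taken from `η`.
`D i q` = outer window, the same for all the leaves of a box and blind to `η`; `J i q` = normal success, `X i q` = abnormal (both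
may see the tower of the leaf); `T i q ω` = good fillings for the leaf `q` (they are successes `J i q`).

* `gg` : the product of the outer factors (`GF`), for a typical filling `η` (not in `X i q`, not in `J i q`) against a good
  filling `η'` of ANY leaf of the same box, loses at most `(1+c)^k` (a success may spoil `k` blocks). `GF_cmp` gives it from set
  inclusions; `Out77.GO_spoil` gives it for greedy sets;
* `cmp` : `c (1+c)^k ∑_q ∫_(not X i q, not J i q) V q ≤ ∑_q ∫_(T i q ω) V q + e` for `ω ∈ D i`, SUM over the leaves of the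
  box, AVERAGED over block and inside.

`cmp_of_hit` : if `∑_q V q ≤ C₀` then `cmp` holds with `e = 0` as soon as `c (1+c)^k C₀ ≤ p ≤ ∑_q ∫_(T i q ω) V q`.
`hit_of_event`, `hit_pair` : the right side from a good event of probability `p`.
`none`, `rest_on` : no success is rare, summed over the leaves. `beta_pair` : the form of `grd17` (Lec17).
-/

set_option autoImplicit false
set_option linter.unusedSectionVars false

namespace Pool.Agent.W_7d29a1_C1.Box28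

open MeasureTheory
open scoped ENNReal

variable {Ω Λ β : Type*} [MeasurableSpace Ω] [DecidableEq β] {P : Measure Ω}

open Classical in
/-- The factor of one level of one leaf. -/
noncomputable def fb (D J X : ℕ → Λ → Set Ω) (c : ℝ≥0∞) (q : Λ) (i : ℕ) (ω : Ω) : ℝ≥0∞ :=
  (if ω ∈ J i q then 0 else 1) * ((if ω ∈ D i q then 1 + c else 1) * (if ω ∈ X i q then (1 + c)⁻¹ else 1))

/-- the product of the factors of the levels `i, .., m-1` of the leaf `q` -/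
noncomputable def GF (D J X : ℕ → Λ → Set Ω) (c : ℝ≥0∞) (m i : ℕ) (q : Λ) (ω : Ω) : ℝ≥0∞ :=
  ∏ j ∈ Finset.Ico i m, fb D J X c q j ω

/-- The data of the chain with boxes. -/
structure BoxData (P : Measure Ω) (L : Finset Λ) (m k : ℕ) (anc : ℕ → Λ → β) (R : ℕ → β → Ω → Ω → Ω)
    (D J X : ℕ → Λ → Set Ω) (T : ℕ → Λ → Ω → Set Ω) (V : Λ → Ω → ℝ≥0∞) (c e : ℝ≥0∞) : Prop where
  hc : c ≠ ∞
  mp : ∀ i < m, ∀ q ∈ L, MeasurePreserving (fun w : Ω × Ω => R i (anc i q) w.1 w.2) (P.prod P) P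
  mD : ∀ i < m, ∀ q ∈ L, MeasurableSet (D i q)
  mJ : ∀ i < m, ∀ q ∈ L, MeasurableSet (J i q)
  mX : ∀ i < m, ∀ q ∈ L, MeasurableSet (X i q)
  mV : ∀ q ∈ L, Measurable (V q)
  mT : ∀ i < m, ∀ q ∈ L, ∀ ω, MeasurableSet (T i q ω)
  dD : ∀ i < m, ∀ q ∈ L, ∀ q' ∈ L, anc i q = anc i q' → ∀ ω ∈ D i q, ω ∈ D i q'
  bD : ∀ i < m, ∀ q ∈ L, ∀ η ω, R i (anc i q) η ω ∈ D i q → ω ∈ D i q
  tJ : ∀ i < m, ∀ q ∈ L, ∀ ω ∈ D i q, ∀ η ∈ T i q ω, R i (anc i q) η ω ∈ J i q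
  gg : ∀ i < m, ∀ q ∈ L, ∀ q' ∈ L, anc i q = anc i q' → ∀ ω ∈ D i q, ∀ η, R i (anc i q) η ω ∉ X i q →
    R i (anc i q) η ω ∉ J i q → ∀ η' ∈ T i q' ω,
    GF D J X c m (i + 1) q (R i (anc i q) η ω) ≤ (1 + c) ^ k * GF D J X c m (i + 1) q' (R i (anc i q) η' ω)
  cmp : ∀ i < m, ∀ q₀ ∈ L, ∀ ω ∈ D i q₀,
    c * (1 + c) ^ k * ∑ q ∈ L.filter (fun q => anc i q = anc i q₀),
      ∫⁻ η in {η | R i (anc i q₀) η ω ∉ X i q ∧ R i (anc i q₀) η ω ∉ J i q}, V q (R i (anc i q₀) η ω) ∂P ≤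
      ∑ q ∈ L.filter (fun q => anc i q = anc i q₀), ∫⁻ η in T i q ω, V q (R i (anc i q₀) η ω) ∂P + e

theorem meas_fb {D J X : ℕ → Λ → Set Ω} {c : ℝ≥0∞} {q : Λ} {i : ℕ}
    (hD : MeasurableSet (D i q)) (hJ : MeasurableSet (J i q)) (hX : MeasurableSet (X i q)) :
    Measurable (fb D J X c q i) := by
  classical
  unfold fb
  refine Measurable.mul (Measurable.ite hJ measurable_const measurable_const) ?_
  exact Measurable.mul (Measurable.ite hD measurable_const measurable_const)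
    (Measurable.ite hX measurable_const measurable_const)

theorem fb_le {D J X : ℕ → Λ → Set Ω} {c : ℝ≥0∞} {q : Λ} (i : ℕ) (ω : Ω) :
    fb D J X c q i ω ≤ 1 + c := by
  classical
  unfold fb
  have h1 : (if ω ∈ J i q then (0 : ℝ≥0∞) else 1) ≤ 1 := by split_ifs <;> simp
  have h2 : (if ω ∈ D i q then 1 + c else 1) ≤ 1 + c := by split_ifs <;> simp
  have h3 : (if ω ∈ X i q then (1 + c)⁻¹ else 1) ≤ 1 := by
    split_ifs
    · exact ENNReal.inv_le_one.2 le_self_add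
    · exact le_rfl
  calc _ ≤ 1 * ((1 + c) * 1) := by gcongr
    _ = 1 + c := by rw [one_mul, mul_one]

theorem fb_le_one {D J X : ℕ → Λ → Set Ω} {c : ℝ≥0∞} {q : Λ} {i : ℕ} {ω : Ω}
    (h : ω ∈ X i q ∨ ω ∈ J i q ∨ ω ∉ D i q) : fb D J X c q i ω ≤ 1 := by
  classical
  unfold fb
  by_cases hJ : ω ∈ J i q
  · rw [if_pos hJ, zero_mul]
    exact zero_le_one
  rw [if_neg hJ, one_mul]
  by_cases hX : ω ∈ X i q
  · rw [if_pos hX]
    split_ifs
    · exact ENNReal.mul_inv_le_one _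
    · rw [one_mul]
      exact ENNReal.inv_le_one.2 le_self_add
  · have hD : ω ∉ D i q := (h.resolve_left hX).resolve_left hJ
    rw [if_neg hD, if_neg hX, one_mul]

theorem GF_le {D J X : ℕ → Λ → Set Ω} (c : ℝ≥0∞) (m i : ℕ) (q : Λ) (ω : Ω) :
    GF D J X c m i q ω ≤ (1 + c) ^ m := by
  unfold GF
  calc ∏ j ∈ Finset.Ico i m, fb D J X c q j ω ≤ ∏ _j ∈ Finset.Ico i m, (1 + c) :=
        Finset.prod_le_prod' fun j _ => fb_le j ω
    _ = (1 + c) ^ (m - i) := by rw [Finset.prod_const, Nat.card_Ico]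
    _ ≤ (1 + c) ^ m := pow_le_pow_right₀ le_self_add (Nat.sub_le m i)

open Classical in
/-- No success, and the number of wide windows exceeds the number of abnormal blocks by `r`. -/
def BadB (D J X : ℕ → Λ → Set Ω) (m r : ℕ) (q : Λ) : Set Ω :=
  {ω | (∀ i < m, ω ∉ J i q) ∧ ((Finset.range m).filter fun i => ω ∈ X i q).card + r ≤
    ((Finset.range m).filter fun i => ω ∈ D i q).card}

theorem GF_ge {D J X : ℕ → Λ → Set Ω} {m r : ℕ} {c : ℝ≥0∞} (hc : c ≠ ∞) {q : Λ} {ω : Ω}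
    (hω : ω ∈ BadB D J X m r q) : (1 + c) ^ r ≤ GF D J X c m 0 q ω := by
  classical
  obtain ⟨h1, h2⟩ := hω
  have hg0 : (1 + c) ≠ 0 := by simp
  have hg1 : (1 + c) ≠ ∞ := ENNReal.add_ne_top.2 ⟨ENNReal.one_ne_top, hc⟩
  have e1 : GF D J X c m 0 q ω = (1 + c) ^ ((Finset.range m).filter fun i => ω ∈ D i q).card *
      ((1 + c)⁻¹) ^ ((Finset.range m).filter fun i => ω ∈ X i q).card := by
    unfold GF
    rw [← Finset.range_eq_Ico]
    have : ∀ j ∈ Finset.range m, fb D J X c q j ω =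
        (if ω ∈ D j q then 1 + c else 1) * (if ω ∈ X j q then (1 + c)⁻¹ else 1) := by
      intro j hj
      unfold fb
      rw [if_neg (h1 j (Finset.mem_range.1 hj)), one_mul]
    rw [Finset.prod_congr rfl this, Finset.prod_mul_distrib, Finset.prod_ite, Finset.prod_ite]
    simp only [Finset.prod_const, one_pow, mul_one]
  rw [e1]
  calc (1 + c) ^ r = (1 + c) ^ (((Finset.range m).filter fun i => ω ∈ X i q).card + r) *
        ((1 + c)⁻¹) ^ ((Finset.range m).filter fun i => ω ∈ X i q).card := by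
        rw [pow_add, mul_comm ((1 + c) ^ _) ((1 + c) ^ r), mul_assoc, ← mul_pow, ENNReal.mul_inv_cancel hg0 hg1,
          one_pow, mul_one]
    _ ≤ _ := by
        refine mul_le_mul_left (pow_le_pow_right₀ le_self_add ?_) _
        convert h2 using 2

theorem card_meas {m : ℕ} (Y : ℕ → Set Ω) [∀ i ω, Decidable (ω ∈ Y i)] (hY : ∀ i < m, MeasurableSet (Y i)) :
    Measurable fun ω => ((Finset.range m).filter fun i => ω ∈ Y i).card := by
  have e : (fun ω => ((Finset.range m).filter fun i => ω ∈ Y i).card) =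
      fun ω => ∑ i ∈ Finset.range m, (if ω ∈ Y i then 1 else 0) := by
    funext ω
    rw [Finset.card_filter]
  rw [e]
  exact Finset.measurable_sum _ fun i hi =>
    Measurable.ite (hY i (Finset.mem_range.1 hi)) measurable_const measurable_const

theorem measurableSet_BadB {D J X : ℕ → Λ → Set Ω} {m r : ℕ} {q : Λ}
    (hD : ∀ i < m, MeasurableSet (D i q)) (hJ : ∀ i < m, MeasurableSet (J i q))
    (hX : ∀ i < m, MeasurableSet (X i q)) : MeasurableSet (BadB D J X m r q) := by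
  classical
  have m1 : MeasurableSet {ω | ∀ i < m, ω ∉ J i q} := by
    have : {ω | ∀ i < m, ω ∉ J i q} = ⋂ i ∈ Finset.range m, (J i q)ᶜ := by
      ext ω
      simp only [Set.mem_ofPred_eq, Set.mem_iInter, Finset.mem_range, Set.mem_compl_iff]
    rw [this]
    exact Finset.measurableSet_biInter _ fun i hi => (hJ i (Finset.mem_range.1 hi)).compl
  have m2 : MeasurableSet {ω | ((Finset.range m).filter fun i => ω ∈ X i q).card + r ≤
      ((Finset.range m).filter fun i => ω ∈ D i q).card} :=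
    measurableSet_le ((card_meas (fun i => X i q) hX).add measurable_const) (card_meas (fun i => D i q) hD)
  have : BadB D J X m r q = {ω | ∀ i < m, ω ∉ J i q} ∩ {ω | ((Finset.range m).filter fun i => ω ∈ X i q).card + r ≤
      ((Finset.range m).filter fun i => ω ∈ D i q).card} := by
    ext ω
    unfold BadB
    simp only [Set.mem_ofPred_eq, Set.mem_inter_iff]
  rw [this]
  exact m1.inter m2

/-- **The outer factors from inclusions**: `z` = typical filling (leaf `q`), `z'` = good filling (leaf `q'`); further outside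
the windows are the same, a success seen with `z'` is seen with `z`, and an abnormality seen with `z'` at a distance `> k` is
seen with `z`. -/
theorem GF_cmp {D J X : ℕ → Λ → Set Ω} {c : ℝ≥0∞} {m i k : ℕ} {q q' : Λ} {z z' : Ω} (hc : c ≠ ∞)
    (hD : ∀ j, i < j → j < m → (z ∈ D j q ↔ z' ∈ D j q')) (hJ : ∀ j, i < j → j < m → z' ∈ J j q' → z ∈ J j q)
    (hX : ∀ j, i + k < j → j < m → z' ∈ X j q' → z ∈ X j q) :
    GF D J X c m (i + 1) q z ≤ (1 + c) ^ k * GF D J X c m (i + 1) q' z' := by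
  classical
  have e0 : (1 + c) * (1 + c)⁻¹ = 1 :=
    ENNReal.mul_inv_cancel (by simp) (ENNReal.add_ne_top.2 ⟨ENNReal.one_ne_top, hc⟩)
  have step : ∀ j ∈ Finset.Ico (i + 1) m, fb D J X c q j z ≤ (if j ≤ i + k then 1 + c else 1) * fb D J X c q' j z' := by
    intro j hj
    obtain ⟨hj1, hj2⟩ := Finset.mem_Ico.1 hj
    have hij : i < j := hj1
    have a1 := hD j hij hj2
    have a2 := hJ j hij hj2
    have b1 : (if z ∈ J j q then (0 : ℝ≥0∞) else 1) ≤ (if z' ∈ J j q' then (0 : ℝ≥0∞) else 1) := by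
      by_cases hJ' : z' ∈ J j q'
      · rw [if_pos hJ', if_pos (a2 hJ')]
      · rw [if_neg hJ']; split_ifs <;> simp
    have b2 : (if z ∈ D j q then 1 + c else 1) = (if z' ∈ D j q' then 1 + c else 1) := by simp only [a1]
    have i1 : (1 + c)⁻¹ ≤ 1 := ENNReal.inv_le_one.2 le_self_add
    have b3 : (if z ∈ X j q then (1 + c)⁻¹ else 1) ≤
        (if j ≤ i + k then 1 + c else 1) * (if z' ∈ X j q' then (1 + c)⁻¹ else 1) := by
      by_cases hjk : j ≤ i + k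
      · rw [if_pos hjk]
        have l1 : (if z ∈ X j q then (1 + c)⁻¹ else 1) ≤ (1 : ℝ≥0∞) := by
          split_ifs
          · exact i1
          · exact le_rfl
        refine l1.trans ?_
        split_ifs
        · rw [e0]
        · rw [mul_one]; exact le_self_add
      · rw [if_neg hjk, one_mul]
        have a3 := hX j (not_le.1 hjk) hj2
        by_cases hX' : z' ∈ X j q'
        · rw [if_pos hX', if_pos (a3 hX')]
        · rw [if_neg hX']
          split_ifs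
          · exact i1
          · exact le_rfl
    unfold fb
    rw [b2]
    calc _ ≤ (if z' ∈ J j q' then (0 : ℝ≥0∞) else 1) * ((if z' ∈ D j q' then 1 + c else 1) *
            ((if j ≤ i + k then 1 + c else 1) * (if z' ∈ X j q' then (1 + c)⁻¹ else 1))) := by
          gcongr
      _ = _ := by ring
  have cnt : ∏ j ∈ Finset.Ico (i + 1) m, (if j ≤ i + k then 1 + c else 1) ≤ (1 + c) ^ k := by
    rw [Finset.prod_ite, Finset.prod_const, Finset.prod_const_one, mul_one]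
    refine pow_le_pow_right₀ le_self_add ?_
    calc ((Finset.Ico (i + 1) m).filter fun j => j ≤ i + k).card ≤ (Finset.Ico (i + 1) (i + 1 + k)).card := by
          refine Finset.card_le_card fun j hj => ?_
          obtain ⟨hj1, hj2⟩ := Finset.mem_filter.1 hj
          obtain ⟨hj3, _⟩ := Finset.mem_Ico.1 hj1
          exact Finset.mem_Ico.2 ⟨hj3, by omega⟩
      _ = k := by rw [Nat.card_Ico]; omega
  unfold GF
  calc ∏ j ∈ Finset.Ico (i + 1) m, fb D J X c q j z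
      ≤ ∏ j ∈ Finset.Ico (i + 1) m, ((if j ≤ i + k then 1 + c else 1) * fb D J X c q' j z') :=
        Finset.prod_le_prod' step
    _ = (∏ j ∈ Finset.Ico (i + 1) m, (if j ≤ i + k then 1 + c else 1)) *
        ∏ j ∈ Finset.Ico (i + 1) m, fb D J X c q' j z' := Finset.prod_mul_distrib
    _ ≤ _ := by gcongr

namespace BoxData

variable {L : Finset Λ} {m k : ℕ} {anc : ℕ → Λ → β} {R : ℕ → β → Ω → Ω → Ω} {D J X : ℕ → Λ → Set Ω}
  {T : ℕ → Λ → Ω → Set Ω} {V : Λ → Ω → ℝ≥0∞} {c e : ℝ≥0∞}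

theorem meas_GF (h : BoxData P L m k anc R D J X T V c e) (i : ℕ) {q : Λ} (hq : q ∈ L) :
    Measurable (GF D J X c m i q) := by
  unfold GF
  refine Finset.measurable_prod _ fun j hj => ?_
  have hj' := (Finset.mem_Ico.1 hj).2
  exact meas_fb (h.mD j hj' q hq) (h.mJ j hj' q hq) (h.mX j hj' q hq)

/-- **One box.** -/
theorem box [IsProbabilityMeasure P] (h : BoxData P L m k anc R D J X T V c e) {i : ℕ} (hi : i < m) {q₀ : Λ}
    (hq₀ : q₀ ∈ L) :
    ∑ q ∈ L.filter (fun q => anc i q = anc i q₀), ∫⁻ ω, V q ω * GF D J X c m i q ω ∂P ≤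
      ∑ q ∈ L.filter (fun q => anc i q = anc i q₀), ∫⁻ ω, V q ω * GF D J X c m (i + 1) q ω ∂P + (1 + c) ^ m * e := by
  classical
  have hmp := h.mp i hi q₀ hq₀
  have hcmp0 := h.cmp i hi q₀ hq₀
  set Q := anc i q₀ with hQ
  set LQ := L.filter (fun q => anc i q = Q) with hLQ
  have hmem : ∀ q ∈ LQ, q ∈ L ∧ anc i q = Q := fun q hq => Finset.mem_filter.1 hq
  have hmR : Measurable (fun w : Ω × Ω => R i Q w.1 w.2) := hmp.measurable
  have conv : ∀ F : Ω → ℝ≥0∞, Measurable F → ∫⁻ ω, F ω ∂P = ∫⁻ ω, ∫⁻ η, F (R i Q η ω) ∂P ∂P := by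
    intro F hF
    rw [← hmp.lintegral_comp hF]
    exact lintegral_prod_symm' (fun w : Ω × Ω => F (R i Q w.1 w.2)) (hF.comp hmR)
  have hRω : ∀ ω, Measurable fun η => R i Q η ω := fun ω => hmR.comp (measurable_id.prodMk measurable_const)
  have mG : ∀ q ∈ LQ, Measurable (GF D J X c m (i + 1) q) := fun q hq => h.meas_GF (i + 1) (hmem q hq).1
  have mG0 : ∀ q ∈ LQ, Measurable (GF D J X c m i q) := fun q hq => h.meas_GF i (hmem q hq).1
  have mV0 : ∀ q ∈ LQ, Measurable (V q) := fun q hq => h.mV q (hmem q hq).1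
  have eG : ∀ q ω, GF D J X c m i q ω = fb D J X c q i ω * GF D J X c m (i + 1) q ω := by
    intro q ω
    unfold GF
    rw [Finset.prod_eq_prod_Ico_succ_bot hi]
  have c1 : ∑ q ∈ LQ, ∫⁻ ω, V q ω * GF D J X c m i q ω ∂P =
      ∫⁻ ω, ∑ q ∈ LQ, ∫⁻ η, V q (R i Q η ω) * GF D J X c m i q (R i Q η ω) ∂P ∂P := by
    rw [lintegral_finsetSum _ fun q hq => ?_]
    · exact Finset.sum_congr rfl fun q hq => conv _ ((mV0 q hq).mul (mG0 q hq))
    · exact (((mV0 q hq).mul (mG0 q hq)).comp (hmR.comp measurable_swap)).lintegral_prod_right'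
  have c2 : ∑ q ∈ LQ, ∫⁻ ω, V q ω * GF D J X c m (i + 1) q ω ∂P =
      ∫⁻ ω, ∑ q ∈ LQ, ∫⁻ η, V q (R i Q η ω) * GF D J X c m (i + 1) q (R i Q η ω) ∂P ∂P := by
    rw [lintegral_finsetSum _ fun q hq => ?_]
    · exact Finset.sum_congr rfl fun q hq => conv _ ((mV0 q hq).mul (mG q hq))
    · exact (((mV0 q hq).mul (mG q hq)).comp (hmR.comp measurable_swap)).lintegral_prod_right'
  rw [c1, c2]
  have key : ∀ ω, ∑ q ∈ LQ, ∫⁻ η, V q (R i Q η ω) * GF D J X c m i q (R i Q η ω) ∂P ≤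
      ∑ q ∈ LQ, ∫⁻ η, V q (R i Q η ω) * GF D J X c m (i + 1) q (R i Q η ω) ∂P + (1 + c) ^ m * e := by
    intro ω
    have mV : ∀ q ∈ LQ, Measurable fun η => V q (R i Q η ω) := fun q hq => (mV0 q hq).comp (hRω ω)
    have mGη : ∀ q ∈ LQ, Measurable fun η => GF D J X c m (i + 1) q (R i Q η ω) := fun q hq => (mG q hq).comp (hRω ω)
    by_cases hD : ω ∈ D i q₀
    · have hDq : ∀ q ∈ LQ, ω ∈ D i q := fun q hq =>
        h.dD i hi q₀ hq₀ q (hmem q hq).1 ((hmem q hq).2.symm) ω hD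
      -- the sets
      have mJ : ∀ q ∈ LQ, MeasurableSet {η | R i Q η ω ∈ J i q} := fun q hq => (hRω ω) (h.mJ i hi q (hmem q hq).1)
      have mN : ∀ q ∈ LQ, MeasurableSet {η | R i Q η ω ∉ X i q ∧ R i Q η ω ∉ J i q} := fun q hq =>
        ((hRω ω) (h.mX i hi q (hmem q hq).1)).compl.inter (mJ q hq).compl
      -- the common value for the typical fillings
      set a : ℝ≥0∞ := ⨆ q ∈ LQ, ⨆ η ∈ {η | R i Q η ω ∉ X i q ∧ R i Q η ω ∉ J i q}, GF D J X c m (i + 1) q (R i Q η ω) with ha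
      have ha1 : a ≤ (1 + c) ^ m := iSup₂_le fun q _ => iSup₂_le fun η _ => GF_le c m (i + 1) q _
      have ha2 : ∀ q ∈ LQ, ∀ η ∈ {η | R i Q η ω ∉ X i q ∧ R i Q η ω ∉ J i q},
          GF D J X c m (i + 1) q (R i Q η ω) ≤ a := fun q hq η hη =>
        le_iSup₂_of_le q hq (le_iSup₂_of_le η hη le_rfl)
      have ha3 : ∀ q' ∈ LQ, ∀ η' ∈ T i q' ω, a ≤ (1 + c) ^ k * GF D J X c m (i + 1) q' (R i Q η' ω) := by
        intro q' hq' η' hη'
        refine iSup₂_le fun q hq => iSup₂_le fun η hη => ?_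
        obtain ⟨hqL, hqQ⟩ := hmem q hq
        obtain ⟨hqL', hqQ'⟩ := hmem q' hq'
        have := h.gg i hi q hqL q' hqL' (hqQ.trans hqQ'.symm) ω (hDq q hq) η
          (by rw [hqQ]; exact hη.1) (by rw [hqQ]; exact hη.2) η' hη'
        rw [hqQ] at this
        exact this
      -- left side, leaf by leaf
      have l1 : ∀ q ∈ LQ, ∫⁻ η, V q (R i Q η ω) * GF D J X c m i q (R i Q η ω) ∂P ≤
          ∫⁻ η in {η | R i Q η ω ∈ J i q}ᶜ, V q (R i Q η ω) * GF D J X c m (i + 1) q (R i Q η ω) ∂P +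
            c * (a * ∫⁻ η in {η | R i Q η ω ∉ X i q ∧ R i Q η ω ∉ J i q}, V q (R i Q η ω) ∂P) := by
        intro q hq
        have p1 : ∀ η, V q (R i Q η ω) * GF D J X c m i q (R i Q η ω) ≤
            ({η | R i Q η ω ∈ J i q}ᶜ).indicator (fun η => V q (R i Q η ω) * GF D J X c m (i + 1) q (R i Q η ω)) η +
              {η | R i Q η ω ∉ X i q ∧ R i Q η ω ∉ J i q}.indicator (fun η => c * (a * V q (R i Q η ω))) η := by
          intro η
          rw [eG]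
          by_cases hJ : R i Q η ω ∈ J i q
          · have : fb D J X c q i (R i Q η ω) = 0 := by
              unfold fb
              rw [if_pos hJ, zero_mul]
            rw [this, zero_mul, mul_zero]
            exact bot_le
          · have hJ' : η ∈ ({η | R i Q η ω ∈ J i q}ᶜ : Set Ω) := hJ
            rw [Set.indicator_of_mem hJ']
            by_cases hX : R i Q η ω ∈ X i q
            · refine le_add_right ?_
              refine mul_le_mul_right ?_ _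
              calc fb D J X c q i (R i Q η ω) * GF D J X c m (i + 1) q (R i Q η ω)
                  ≤ 1 * GF D J X c m (i + 1) q (R i Q η ω) := mul_le_mul_left (fb_le_one (Or.inl hX)) _
                _ = _ := one_mul _
            · have hN : η ∈ {η | R i Q η ω ∉ X i q ∧ R i Q η ω ∉ J i q} := ⟨hX, hJ⟩
              rw [Set.indicator_of_mem hN]
              have g1 := ha2 q hq η hN
              calc V q (R i Q η ω) * (fb D J X c q i (R i Q η ω) * GF D J X c m (i + 1) q (R i Q η ω))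
                  ≤ V q (R i Q η ω) * ((1 + c) * GF D J X c m (i + 1) q (R i Q η ω)) := by
                    gcongr
                    exact fb_le i _
                _ = V q (R i Q η ω) * GF D J X c m (i + 1) q (R i Q η ω) +
                    c * (GF D J X c m (i + 1) q (R i Q η ω) * V q (R i Q η ω)) := by ring
                _ ≤ _ := by gcongr
        calc ∫⁻ η, V q (R i Q η ω) * GF D J X c m i q (R i Q η ω) ∂P
            ≤ ∫⁻ η, (({η | R i Q η ω ∈ J i q}ᶜ).indicator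
                (fun η => V q (R i Q η ω) * GF D J X c m (i + 1) q (R i Q η ω)) η +
              {η | R i Q η ω ∉ X i q ∧ R i Q η ω ∉ J i q}.indicator (fun η => c * (a * V q (R i Q η ω))) η) ∂P :=
              lintegral_mono p1
          _ = _ := by
              have mF : Measurable fun η => V q (R i Q η ω) * GF D J X c m (i + 1) q (R i Q η ω) :=
                (mV q hq).mul (mGη q hq)
              have mA : Measurable fun η => a * V q (R i Q η ω) := (mV q hq).const_mul a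
              rw [lintegral_add_left (mF.indicator (mJ q hq).compl), lintegral_indicator (mJ q hq).compl,
                lintegral_indicator (mN q hq), lintegral_const_mul _ mA, lintegral_const_mul _ (mV q hq)]
      -- right side, leaf by leaf
      have r1 : ∀ q ∈ LQ, ∫⁻ η in {η | R i Q η ω ∈ J i q}ᶜ, V q (R i Q η ω) * GF D J X c m (i + 1) q (R i Q η ω) ∂P +
          ∫⁻ η in T i q ω, V q (R i Q η ω) * GF D J X c m (i + 1) q (R i Q η ω) ∂P ≤
          ∫⁻ η, V q (R i Q η ω) * GF D J X c m (i + 1) q (R i Q η ω) ∂P := by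
        intro q hq
        obtain ⟨hqL, hqQ⟩ := hmem q hq
        have hsub : T i q ω ⊆ {η | R i Q η ω ∈ J i q} := by
          intro η hη
          have := h.tJ i hi q hqL ω (hDq q hq) η hη
          rw [hqQ] at this
          exact this
        calc _ ≤ ∫⁻ η in {η | R i Q η ω ∈ J i q}ᶜ, V q (R i Q η ω) * GF D J X c m (i + 1) q (R i Q η ω) ∂P +
              ∫⁻ η in {η | R i Q η ω ∈ J i q}, V q (R i Q η ω) * GF D J X c m (i + 1) q (R i Q η ω) ∂P :=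
              add_le_add le_rfl (lintegral_mono_set hsub)
          _ = _ := by
              rw [add_comm]
              exact lintegral_add_compl _ (mJ q hq)
      have hcmp := hcmp0 ω hD
      -- the gain is paid
      have pay : c * (a * ∑ q ∈ LQ, ∫⁻ η in {η | R i Q η ω ∉ X i q ∧ R i Q η ω ∉ J i q}, V q (R i Q η ω) ∂P) ≤
          ∑ q ∈ LQ, ∫⁻ η in T i q ω, V q (R i Q η ω) * GF D J X c m (i + 1) q (R i Q η ω) ∂P + (1 + c) ^ m * e := by
        have hk0 : (1 + c) ^ k ≠ 0 := by positivity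
        have hk1 : (1 + c) ^ k ≠ ∞ := ENNReal.pow_ne_top (ENNReal.add_ne_top.2 ⟨ENNReal.one_ne_top, h.hc⟩)
        set b : ℝ≥0∞ := ((1 + c) ^ k)⁻¹ * a with hb
        have hab : a = (1 + c) ^ k * b := by
          rw [hb, ← mul_assoc, ENNReal.mul_inv_cancel hk0 hk1, one_mul]
        have hbG : ∀ q' ∈ LQ, ∀ η' ∈ T i q' ω, b ≤ GF D J X c m (i + 1) q' (R i Q η' ω) := by
          intro q' hq' η' hη'
          have := ha3 q' hq' η' hη'
          rw [hb]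
          calc ((1 + c) ^ k)⁻¹ * a ≤ ((1 + c) ^ k)⁻¹ * ((1 + c) ^ k * GF D J X c m (i + 1) q' (R i Q η' ω)) := by gcongr
            _ = _ := by rw [← mul_assoc, ENNReal.inv_mul_cancel hk0 hk1, one_mul]
        have hb1 : b ≤ (1 + c) ^ m := by
          rw [hb]
          calc ((1 + c) ^ k)⁻¹ * a ≤ 1 * a := by
                gcongr
                exact ENNReal.inv_le_one.2 (one_le_pow₀ le_self_add)
            _ = a := one_mul a
            _ ≤ _ := ha1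
        calc c * (a * ∑ q ∈ LQ, ∫⁻ η in {η | R i Q η ω ∉ X i q ∧ R i Q η ω ∉ J i q}, V q (R i Q η ω) ∂P)
            = b * (c * (1 + c) ^ k *
                ∑ q ∈ LQ, ∫⁻ η in {η | R i Q η ω ∉ X i q ∧ R i Q η ω ∉ J i q}, V q (R i Q η ω) ∂P) := by
              rw [hab]; ring
          _ ≤ b * (∑ q ∈ LQ, ∫⁻ η in T i q ω, V q (R i Q η ω) ∂P + e) := by gcongr
          _ = ∑ q ∈ LQ, b * ∫⁻ η in T i q ω, V q (R i Q η ω) ∂P + b * e := by rw [mul_add, Finset.mul_sum]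
          _ ≤ _ := by
              refine add_le_add (Finset.sum_le_sum fun q hq => ?_) (by gcongr)
              rw [← lintegral_const_mul _ (mV q hq)]
              refine setLIntegral_mono' (h.mT i hi q (hmem q hq).1 ω) fun η hη => ?_
              rw [mul_comm]
              gcongr
              exact hbG q hq η hη
      calc ∑ q ∈ LQ, ∫⁻ η, V q (R i Q η ω) * GF D J X c m i q (R i Q η ω) ∂P
          ≤ ∑ q ∈ LQ, (∫⁻ η in {η | R i Q η ω ∈ J i q}ᶜ, V q (R i Q η ω) * GF D J X c m (i + 1) q (R i Q η ω) ∂P +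
            c * (a * ∫⁻ η in {η | R i Q η ω ∉ X i q ∧ R i Q η ω ∉ J i q}, V q (R i Q η ω) ∂P)) := Finset.sum_le_sum l1
        _ = ∑ q ∈ LQ, ∫⁻ η in {η | R i Q η ω ∈ J i q}ᶜ, V q (R i Q η ω) * GF D J X c m (i + 1) q (R i Q η ω) ∂P +
            c * (a * ∑ q ∈ LQ, ∫⁻ η in {η | R i Q η ω ∉ X i q ∧ R i Q η ω ∉ J i q}, V q (R i Q η ω) ∂P) := by
            rw [Finset.sum_add_distrib, ← Finset.mul_sum, ← Finset.mul_sum]
        _ ≤ ∑ q ∈ LQ, ∫⁻ η in {η | R i Q η ω ∈ J i q}ᶜ, V q (R i Q η ω) * GF D J X c m (i + 1) q (R i Q η ω) ∂P +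
            (∑ q ∈ LQ, ∫⁻ η in T i q ω, V q (R i Q η ω) * GF D J X c m (i + 1) q (R i Q η ω) ∂P + (1 + c) ^ m * e) := by
            gcongr
        _ = ∑ q ∈ LQ, (∫⁻ η in {η | R i Q η ω ∈ J i q}ᶜ, V q (R i Q η ω) * GF D J X c m (i + 1) q (R i Q η ω) ∂P +
            ∫⁻ η in T i q ω, V q (R i Q η ω) * GF D J X c m (i + 1) q (R i Q η ω) ∂P) + (1 + c) ^ m * e := by
            rw [Finset.sum_add_distrib, add_assoc]
        _ ≤ _ := add_le_add (Finset.sum_le_sum r1) le_rfl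
    · refine le_add_right (Finset.sum_le_sum fun q hq => lintegral_mono fun η => ?_)
      obtain ⟨hqL, hqQ⟩ := hmem q hq
      have hDn : R i Q η ω ∉ D i q := by
        intro hh
        have h1 := h.bD i hi q hqL η ω (by rw [hqQ]; exact hh)
        exact hD (h.dD i hi q hqL q₀ hq₀ hqQ ω h1)
      rw [eG]
      refine mul_le_mul_right ?_ _
      calc fb D J X c q i (R i Q η ω) * GF D J X c m (i + 1) q (R i Q η ω)
          ≤ 1 * GF D J X c m (i + 1) q (R i Q η ω) := mul_le_mul_left (fb_le_one (Or.inr (Or.inr hDn))) _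
        _ = _ := one_mul _
  calc ∫⁻ ω, ∑ q ∈ LQ, ∫⁻ η, V q (R i Q η ω) * GF D J X c m i q (R i Q η ω) ∂P ∂P
      ≤ ∫⁻ ω, (∑ q ∈ LQ, ∫⁻ η, V q (R i Q η ω) * GF D J X c m (i + 1) q (R i Q η ω) ∂P + (1 + c) ^ m * e) ∂P :=
        lintegral_mono key
    _ = _ := by
      rw [lintegral_add_right _ measurable_const, lintegral_const, measure_univ, mul_one]

/-- **One level.** -/
theorem one [IsProbabilityMeasure P] (h : BoxData P L m k anc R D J X T V c e) {i : ℕ} (hi : i < m) :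
    ∑ q ∈ L, ∫⁻ ω, V q ω * GF D J X c m i q ω ∂P ≤
      ∑ q ∈ L, ∫⁻ ω, V q ω * GF D J X c m (i + 1) q ω ∂P + L.card * ((1 + c) ^ m * e) := by
  classical
  have g : ∀ F : Λ → ℝ≥0∞, ∑ q ∈ L, F q = ∑ Q ∈ L.image (anc i), ∑ q ∈ L.filter (fun q => anc i q = Q), F q :=
    fun F => (Finset.sum_fiberwise_of_maps_to (fun q hq => Finset.mem_image_of_mem _ hq) F).symm
  rw [g, g]
  calc ∑ Q ∈ L.image (anc i), ∑ q ∈ L.filter (fun q => anc i q = Q), ∫⁻ ω, V q ω * GF D J X c m i q ω ∂P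
      ≤ ∑ Q ∈ L.image (anc i), (∑ q ∈ L.filter (fun q => anc i q = Q), ∫⁻ ω, V q ω * GF D J X c m (i + 1) q ω ∂P +
        (1 + c) ^ m * e) := Finset.sum_le_sum fun Q hQ => by
          obtain ⟨q₀, hq₀, rfl⟩ := Finset.mem_image.1 hQ
          exact h.box hi hq₀
    _ = _ + (L.image (anc i)).card * ((1 + c) ^ m * e) := by
        rw [Finset.sum_add_distrib, Finset.sum_const, nsmul_eq_mul]
    _ ≤ _ := by
        gcongr
        exact Finset.card_image_le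

/-- The whole chain. -/
theorem chain [IsProbabilityMeasure P] (h : BoxData P L m k anc R D J X T V c e) :
    ∑ q ∈ L, ∫⁻ ω, V q ω * GF D J X c m 0 q ω ∂P ≤ ∑ q ∈ L, ∫⁻ ω, V q ω ∂P + m * (L.card * ((1 + c) ^ m * e)) := by
  have key : ∀ j, j ≤ m → ∑ q ∈ L, ∫⁻ ω, V q ω * GF D J X c m (m - j) q ω ∂P ≤
      ∑ q ∈ L, ∫⁻ ω, V q ω ∂P + j * (L.card * ((1 + c) ^ m * e)) := by
    intro j
    induction j with
    | zero =>
      intro _
      have e0 : ∀ q ω, GF D J X c m (m - 0) q ω = 1 := by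
        intro q ω
        unfold GF
        rw [Nat.sub_zero, Finset.Ico_self, Finset.prod_empty]
      simp only [e0, mul_one, Nat.cast_zero, zero_mul, add_zero, le_refl]
    | succ j ih =>
      intro hj
      have h1 := h.one (i := m - (j + 1)) (by omega)
      have e1 : m - (j + 1) + 1 = m - j := by omega
      rw [e1] at h1
      calc _ ≤ _ := h1
        _ ≤ (∑ q ∈ L, ∫⁻ ω, V q ω ∂P + j * (L.card * ((1 + c) ^ m * e))) + L.card * ((1 + c) ^ m * e) := by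
            gcongr; exact ih (by omega)
        _ = _ := by push_cast; ring
  have := key m le_rfl
  rwa [Nat.sub_self] at this

/-- **NO SUCCESS IS RARE, SUMMED OVER THE LEAVES.** -/
theorem none [IsProbabilityMeasure P] (h : BoxData P L m k anc R D J X T V c e) (r : ℕ) :
    (1 + c) ^ r * ∑ q ∈ L, ∫⁻ ω in BadB D J X m r q, V q ω ∂P ≤
      ∑ q ∈ L, ∫⁻ ω, V q ω ∂P + m * (L.card * ((1 + c) ^ m * e)) := by
  refine le_trans ?_ h.chain
  rw [Finset.mul_sum]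
  refine Finset.sum_le_sum fun q hq => ?_
  have mB : MeasurableSet (BadB D J X m r q) :=
    measurableSet_BadB (fun i hi => h.mD i hi q hq) (fun i hi => h.mJ i hi q hq) (fun i hi => h.mX i hi q hq)
  calc (1 + c) ^ r * ∫⁻ ω in BadB D J X m r q, V q ω ∂P
      = ∫⁻ ω in BadB D J X m r q, (1 + c) ^ r * V q ω ∂P := by
        rw [lintegral_const_mul _ (h.mV q hq)]
    _ ≤ ∫⁻ ω in BadB D J X m r q, V q ω * GF D J X c m 0 q ω ∂P := by
        refine setLIntegral_mono' mB fun ω hω => ?_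
        rw [mul_comm]
        exact mul_le_mul_right (GF_ge h.hc hω) _
    _ ≤ _ := setLIntegral_le_lintegral _ _

/-- The remainder on arbitrary sets `U q` (for instance `the class is s`), summed over the leaves. -/
theorem rest_on [IsProbabilityMeasure P] (h : BoxData P L m k anc R D J X T V c e) (r : ℕ) (U : Λ → Set Ω) :
    ∑ q ∈ L, ∫⁻ ω in {ω | ω ∈ U q ∧ ∀ i < m, ω ∉ J i q}, V q ω ∂P ≤
      ((1 + c) ^ r)⁻¹ * (∑ q ∈ L, ∫⁻ ω, V q ω ∂P + m * (L.card * ((1 + c) ^ m * e))) +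
        ∑ q ∈ L, ∫⁻ ω in {ω | ω ∈ U q ∧ ω ∉ BadB D J X m r q ∧ ∀ i < m, ω ∉ J i q}, V q ω ∂P := by
  have hg0 : (1 + c) ^ r ≠ 0 := by positivity
  have hg1 : (1 + c) ^ r ≠ ∞ := ENNReal.pow_ne_top (ENNReal.add_ne_top.2 ⟨ENNReal.one_ne_top, h.hc⟩)
  have h1 : ∀ q ∈ L, ∫⁻ ω in {ω | ω ∈ U q ∧ ∀ i < m, ω ∉ J i q}, V q ω ∂P ≤
      ∫⁻ ω in BadB D J X m r q, V q ω ∂P +
      ∫⁻ ω in {ω | ω ∈ U q ∧ ω ∉ BadB D J X m r q ∧ ∀ i < m, ω ∉ J i q}, V q ω ∂P := by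
    intro q _
    refine (lintegral_mono_set (t := BadB D J X m r q ∪
      {ω | ω ∈ U q ∧ ω ∉ BadB D J X m r q ∧ ∀ i < m, ω ∉ J i q}) ?_).trans (lintegral_union_le _ _ _)
    intro ω hω
    by_cases hb : ω ∈ BadB D J X m r q
    · exact Or.inl hb
    · exact Or.inr ⟨hω.1, hb, hω.2⟩
  refine (Finset.sum_le_sum h1).trans ?_
  rw [Finset.sum_add_distrib]
  refine add_le_add ?_ le_rfl
  calc ∑ q ∈ L, ∫⁻ ω in BadB D J X m r q, V q ω ∂P
      = ((1 + c) ^ r)⁻¹ * ((1 + c) ^ r * ∑ q ∈ L, ∫⁻ ω in BadB D J X m r q, V q ω ∂P) := by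
        rw [← mul_assoc, ENNReal.inv_mul_cancel hg0 hg1, one_mul]
    _ ≤ _ := by
        gcongr
        exact h.none r

end BoxData

/-! ### the comparison from a lower bound -/

/-- **The left side of `cmp` is trivial.** -/
theorem cmp_of_hit [IsProbabilityMeasure P] {L : Finset Λ} {k : ℕ} {anc : ℕ → Λ → β} {R : ℕ → β → Ω → Ω → Ω}
    {J X : ℕ → Λ → Set Ω} {T : ℕ → Λ → Ω → Set Ω} {V : Λ → Ω → ℝ≥0∞} {c C₀ p : ℝ≥0∞} (mV : ∀ q ∈ L, Measurable (V q))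
    (sV : ∀ ω, ∑ q ∈ L, V q ω ≤ C₀) {i : ℕ} {Q : β} (mR : ∀ ω, Measurable fun η => R i Q η ω) (hc : c * (1 + c) ^ k * C₀ ≤ p)
    {ω : Ω} (hit : p ≤ ∑ q ∈ L.filter (fun q => anc i q = Q), ∫⁻ η in T i q ω, V q (R i Q η ω) ∂P) :
    c * (1 + c) ^ k * ∑ q ∈ L.filter (fun q => anc i q = Q),
      ∫⁻ η in {η | R i Q η ω ∉ X i q ∧ R i Q η ω ∉ J i q}, V q (R i Q η ω) ∂P ≤
      ∑ q ∈ L.filter (fun q => anc i q = Q), ∫⁻ η in T i q ω, V q (R i Q η ω) ∂P := by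
  refine le_trans ?_ hit
  refine le_trans ?_ hc
  gcongr
  calc ∑ q ∈ L.filter (fun q => anc i q = Q), ∫⁻ η in {η | R i Q η ω ∉ X i q ∧ R i Q η ω ∉ J i q}, V q (R i Q η ω) ∂P
      ≤ ∑ q ∈ L.filter (fun q => anc i q = Q), ∫⁻ η, V q (R i Q η ω) ∂P :=
        Finset.sum_le_sum fun q _ => setLIntegral_le_lintegral _ _
    _ ≤ ∑ q ∈ L, ∫⁻ η, V q (R i Q η ω) ∂P := Finset.sum_le_sum_of_subset (Finset.filter_subset _ _)
    _ = ∫⁻ η, ∑ q ∈ L, V q (R i Q η ω) ∂P := (lintegral_finsetSum _ fun q hq => (mV q hq).comp (mR ω)).symm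
    _ ≤ ∫⁻ _η, C₀ ∂P := lintegral_mono fun η => sV _
    _ = C₀ := by rw [lintegral_const, measure_univ, mul_one]

/-- **From a good event**: with probability at least `p` the fresh filling is good for leaves which carry weight at least `a`. -/
theorem hit_of_event {L : Finset Λ} {anc : ℕ → Λ → β} {R : ℕ → β → Ω → Ω → Ω}
    {T : ℕ → Λ → Ω → Set Ω} {V : Λ → Ω → ℝ≥0∞} (mV : ∀ q ∈ L, Measurable (V q)) {i : ℕ} {Q : β} {ω : Ω}
    (mR : Measurable fun η => R i Q η ω) (mT : ∀ q ∈ L, MeasurableSet (T i q ω)) {E : Set Ω} {a p : ℝ≥0∞} (hp : p ≤ P E)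
    (hE : ∀ η ∈ E, a ≤ ∑ q ∈ L.filter (fun q => anc i q = Q), (T i q ω).indicator (fun η => V q (R i Q η ω)) η) :
    a * p ≤ ∑ q ∈ L.filter (fun q => anc i q = Q), ∫⁻ η in T i q ω, V q (R i Q η ω) ∂P := by
  classical
  have hm : ∀ q ∈ L.filter (fun q => anc i q = Q), Measurable ((T i q ω).indicator fun η => V q (R i Q η ω)) :=
    fun q hq => ((mV q (Finset.mem_filter.1 hq).1).comp mR).indicator (mT q (Finset.mem_filter.1 hq).1)
  calc a * p ≤ a * P E := by gcongr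
    _ = ∫⁻ _η in E, a ∂P := by rw [setLIntegral_const]
    _ ≤ ∫⁻ η in E, ∑ q ∈ L.filter (fun q => anc i q = Q), (T i q ω).indicator (fun η => V q (R i Q η ω)) η ∂P :=
        setLIntegral_mono (Finset.measurable_sum _ hm) hE
    _ ≤ ∫⁻ η, ∑ q ∈ L.filter (fun q => anc i q = Q), (T i q ω).indicator (fun η => V q (R i Q η ω)) η ∂P :=
        setLIntegral_le_lintegral _ _
    _ = ∑ q ∈ L.filter (fun q => anc i q = Q), ∫⁻ η, (T i q ω).indicator (fun η => V q (R i Q η ω)) η ∂P :=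
        lintegral_finsetSum _ hm
    _ = _ := Finset.sum_congr rfl fun q hq => lintegral_indicator (mT q (Finset.mem_filter.1 hq).1) _

/-! ### pairs: two copies -/

section pair

variable {Ω₁ Ω₂ Λ₁ Λ₂ β₁ β₂ : Type*} [MeasurableSpace Ω₁] [MeasurableSpace Ω₂] [DecidableEq β₁] [DecidableEq β₂]

/-- The leaves of a pair of boxes. -/
theorem filter_pair (L₁ : Finset Λ₁) (L₂ : Finset Λ₂) (A₁ : Λ₁ → β₁) (A₂ : Λ₂ → β₂) (Q : β₁ × β₂) :
    (L₁ ×ˢ L₂).filter (fun p => (A₁ p.1, A₂ p.2) = Q) =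
      (L₁.filter fun b => A₁ b = Q.1) ×ˢ (L₂.filter fun b => A₂ b = Q.2) := by
  ext p
  simp only [Finset.mem_filter, Finset.mem_product, Prod.ext_iff]
  tauto

/-- On the event: the product of the good weights of the two copies. -/
theorem le_sum_pair {L₁ : Finset Λ₁} {L₂ : Finset Λ₂} {f : Λ₁ → ℝ≥0∞} {g : Λ₂ → ℝ≥0∞} {G₁ : Set Λ₁} {G₂ : Set Λ₂}
    {F : Λ₁ × Λ₂ → ℝ≥0∞} (h : ∀ b ∈ L₁, ∀ b' ∈ L₂, b ∈ G₁ → b' ∈ G₂ → f b * g b' ≤ F (b, b')) {a a' : ℝ≥0∞}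
    (ha : a ≤ ∑ b ∈ L₁, G₁.indicator f b) (ha' : a' ≤ ∑ b' ∈ L₂, G₂.indicator g b') :
    a * a' ≤ ∑ p ∈ L₁ ×ˢ L₂, F p := by
  classical
  calc a * a' ≤ (∑ b ∈ L₁, G₁.indicator f b) * ∑ b' ∈ L₂, G₂.indicator g b' := by gcongr
    _ = ∑ b ∈ L₁, ∑ b' ∈ L₂, G₁.indicator f b * G₂.indicator g b' := by rw [Finset.sum_mul_sum]
    _ ≤ ∑ b ∈ L₁, ∑ b' ∈ L₂, F (b, b') := by
        refine Finset.sum_le_sum fun b hb => Finset.sum_le_sum fun b' hb' => ?_
        by_cases h1 : b ∈ G₁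
        · by_cases h2 : b' ∈ G₂
          · rw [Set.indicator_of_mem h1, Set.indicator_of_mem h2]
            exact h b hb b' hb' h1 h2
          · rw [Set.indicator_of_notMem h2, mul_zero]
            exact bot_le
        · rw [Set.indicator_of_notMem h1, zero_mul]
          exact bot_le
    _ = _ := (Finset.sum_product _ _ _).symm

/-- **The right side of `cmp` for pairs from ONE event of the fresh pair of balls** (`FreshP`): on `E`, for all leaves `b ∈ G₁ η`,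
`b' ∈ G₂ η` of the two boxes the filling is good for `(b, b')`, and these leaves carry weight at least `a`, `a'`. -/
theorem hit_pair {P : Measure (Ω₁ × Ω₂)} {L₁ : Finset Λ₁} {L₂ : Finset Λ₂} {A₁ : ℕ → Λ₁ → β₁}
    {A₂ : ℕ → Λ₂ → β₂} {R : ℕ → β₁ × β₂ → Ω₁ × Ω₂ → Ω₁ × Ω₂ → Ω₁ × Ω₂} {T : ℕ → Λ₁ × Λ₂ → Ω₁ × Ω₂ → Set (Ω₁ × Ω₂)}
    {f : Λ₁ → Ω₁ → ℝ≥0∞} {g : Λ₂ → Ω₂ → ℝ≥0∞} (mf : ∀ b ∈ L₁, Measurable (f b)) (mg : ∀ b ∈ L₂, Measurable (g b))
    {i : ℕ} {Q : β₁ × β₂} {z : Ω₁ × Ω₂} (mR : Measurable fun η => R i Q η z)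
    (mT : ∀ p ∈ L₁ ×ˢ L₂, MeasurableSet (T i p z)) {E : Set (Ω₁ × Ω₂)} {a a' p : ℝ≥0∞} (hp : p ≤ P E)
    (G₁ : Ω₁ × Ω₂ → Set Λ₁) (G₂ : Ω₁ × Ω₂ → Set Λ₂)
    (hT : ∀ η ∈ E, ∀ b ∈ L₁, ∀ b' ∈ L₂, A₁ i b = Q.1 → A₂ i b' = Q.2 → b ∈ G₁ η → b' ∈ G₂ η → η ∈ T i (b, b') z)
    (ha : ∀ η ∈ E, a ≤ ∑ b ∈ L₁.filter (fun b => A₁ i b = Q.1), (G₁ η).indicator (fun b => f b (R i Q η z).1) b)
    (ha' : ∀ η ∈ E, a' ≤ ∑ b ∈ L₂.filter (fun b => A₂ i b = Q.2), (G₂ η).indicator (fun b => g b (R i Q η z).2) b) :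
    a * a' * p ≤ ∑ q ∈ (L₁ ×ˢ L₂).filter (fun q => (A₁ i q.1, A₂ i q.2) = Q),
      ∫⁻ η in T i q z, f q.1 (R i Q η z).1 * g q.2 (R i Q η z).2 ∂P := by
  have mV : ∀ q ∈ L₁ ×ˢ L₂, Measurable fun z : Ω₁ × Ω₂ => f q.1 z.1 * g q.2 z.2 := fun q hq =>
    ((mf q.1 (Finset.mem_product.1 hq).1).comp measurable_fst).mul ((mg q.2 (Finset.mem_product.1 hq).2).comp measurable_snd)
  refine hit_of_event (anc := fun i q => (A₁ i q.1, A₂ i q.2)) (V := fun q z => f q.1 z.1 * g q.2 z.2) mV mR mT hp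
    fun η hη => ?_
  rw [filter_pair]
  refine le_sum_pair (f := fun b => f b (R i Q η z).1) (g := fun b => g b (R i Q η z).2) (G₁ := G₁ η) (G₂ := G₂ η) ?_
    (ha η hη) (ha' η hη)
  intro b hb b' hb' h1 h2
  obtain ⟨b1, b2⟩ := Finset.mem_filter.1 hb
  obtain ⟨b3, b4⟩ := Finset.mem_filter.1 hb'
  rw [Set.indicator_of_mem (hT η hη b b1 b' b3 b2 b4 h1 h2)]

/-- The total weight of the pairs. -/
theorem sumV_pair {L₁ : Finset Λ₁} {L₂ : Finset Λ₂} {f : Λ₁ → Ω₁ → ℝ≥0∞} {g : Λ₂ → Ω₂ → ℝ≥0∞} {C C' : ℝ≥0∞}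
    (sf : ∀ ω, ∑ b ∈ L₁, f b ω ≤ C) (sg : ∀ ω, ∑ b ∈ L₂, g b ω ≤ C') (z : Ω₁ × Ω₂) :
    ∑ q ∈ L₁ ×ˢ L₂, f q.1 z.1 * g q.2 z.2 ≤ C * C' := by
  calc ∑ q ∈ L₁ ×ˢ L₂, f q.1 z.1 * g q.2 z.2 = ∑ b ∈ L₁, ∑ b' ∈ L₂, f b z.1 * g b' z.2 := Finset.sum_product _ _ _
    _ = (∑ b ∈ L₁, f b z.1) * ∑ b' ∈ L₂, g b' z.2 := (Finset.sum_mul_sum _ _ _ _).symm
    _ ≤ _ := mul_le_mul' (sf _) (sg _)

/-- **`cmp` for pairs**, `e = 0`. -/
theorem cmp_pair {P : Measure (Ω₁ × Ω₂)} [IsProbabilityMeasure P] {L₁ : Finset Λ₁} {L₂ : Finset Λ₂} {k : ℕ}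
    {A₁ : ℕ → Λ₁ → β₁} {A₂ : ℕ → Λ₂ → β₂} {R : ℕ → β₁ × β₂ → Ω₁ × Ω₂ → Ω₁ × Ω₂ → Ω₁ × Ω₂}
    {J X : ℕ → Λ₁ × Λ₂ → Set (Ω₁ × Ω₂)} {T : ℕ → Λ₁ × Λ₂ → Ω₁ × Ω₂ → Set (Ω₁ × Ω₂)}
    {f : Λ₁ → Ω₁ → ℝ≥0∞} {g : Λ₂ → Ω₂ → ℝ≥0∞} (mf : ∀ b ∈ L₁, Measurable (f b)) (mg : ∀ b ∈ L₂, Measurable (g b))
    (sf : ∀ ω, ∑ b ∈ L₁, f b ω ≤ 1) (sg : ∀ ω, ∑ b ∈ L₂, g b ω ≤ 1)
    {i : ℕ} {Q : β₁ × β₂} {z : Ω₁ × Ω₂} (mR : ∀ z, Measurable fun η => R i Q η z)
    (mT : ∀ p ∈ L₁ ×ˢ L₂, MeasurableSet (T i p z)) {E : Set (Ω₁ × Ω₂)} {a a' p c : ℝ≥0∞} (hp : p ≤ P E)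
    (hc : c * (1 + c) ^ k ≤ a * a' * p) (G₁ : Ω₁ × Ω₂ → Set Λ₁) (G₂ : Ω₁ × Ω₂ → Set Λ₂)
    (hT : ∀ η ∈ E, ∀ b ∈ L₁, ∀ b' ∈ L₂, A₁ i b = Q.1 → A₂ i b' = Q.2 → b ∈ G₁ η → b' ∈ G₂ η → η ∈ T i (b, b') z)
    (ha : ∀ η ∈ E, a ≤ ∑ b ∈ L₁.filter (fun b => A₁ i b = Q.1), (G₁ η).indicator (fun b => f b (R i Q η z).1) b)
    (ha' : ∀ η ∈ E, a' ≤ ∑ b ∈ L₂.filter (fun b => A₂ i b = Q.2), (G₂ η).indicator (fun b => g b (R i Q η z).2) b) :
    c * (1 + c) ^ k * ∑ q ∈ (L₁ ×ˢ L₂).filter (fun q => (A₁ i q.1, A₂ i q.2) = Q),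
      ∫⁻ η in {η | R i Q η z ∉ X i q ∧ R i Q η z ∉ J i q}, f q.1 (R i Q η z).1 * g q.2 (R i Q η z).2 ∂P ≤
      ∑ q ∈ (L₁ ×ˢ L₂).filter (fun q => (A₁ i q.1, A₂ i q.2) = Q),
        ∫⁻ η in T i q z, f q.1 (R i Q η z).1 * g q.2 (R i Q η z).2 ∂P := by
  have mV : ∀ q ∈ L₁ ×ˢ L₂, Measurable fun z : Ω₁ × Ω₂ => f q.1 z.1 * g q.2 z.2 := fun q hq =>
    ((mf q.1 (Finset.mem_product.1 hq).1).comp measurable_fst).mul ((mg q.2 (Finset.mem_product.1 hq).2).comp measurable_snd)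
  refine cmp_of_hit (anc := fun i (q : Λ₁ × Λ₂) => (A₁ i q.1, A₂ i q.2)) (V := fun q z => f q.1 z.1 * g q.2 z.2)
    (C₀ := 1) (p := a * a' * p) mV (fun ω => ?_) mR (by rwa [mul_one]) (hit_pair mf mg (mR z) mT hp G₁ G₂ hT ha ha')
  have := sumV_pair sf sg ω
  rwa [mul_one] at this

open Classical in
/-- **No joint success, all the pairs** (the hypothesis `hβ` of `Lec17.grd17`; the set is `Lec17.Bd`, unfolded). -/
theorem beta_pair {P : Measure Ω₁} {P' : Measure Ω₂} [IsProbabilityMeasure P] [IsProbabilityMeasure P'] {L₁ : Finset Λ₁}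
    {L₂ : Finset Λ₂} {m k : ℕ} {anc : ℕ → Λ₁ × Λ₂ → β₁ × β₂} {R : ℕ → β₁ × β₂ → Ω₁ × Ω₂ → Ω₁ × Ω₂ → Ω₁ × Ω₂}
    {D J X : ℕ → Λ₁ × Λ₂ → Set (Ω₁ × Ω₂)} {T : ℕ → Λ₁ × Λ₂ → Ω₁ × Ω₂ → Set (Ω₁ × Ω₂)} {f : Λ₁ → Ω₁ → ℝ≥0∞}
    {g : Λ₂ → Ω₂ → ℝ≥0∞} {c e : ℝ≥0∞}
    (h : BoxData (P.prod P') (L₁ ×ˢ L₂) m k anc R D J X T (fun q z => f q.1 z.1 * g q.2 z.2) c e)
    (sf : ∀ ω, ∑ b ∈ L₁, f b ω ≤ 1) (sg : ∀ ω, ∑ b ∈ L₂, g b ω ≤ 1) (r : ℕ) :
    ∑ b ∈ L₁, ∑ b' ∈ L₂, ∫⁻ z in {z | (∀ i < m, z ∉ J i (b, b')) ∧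
      ((Finset.range m).filter fun i => z ∈ X i (b, b')).card + r ≤ ((Finset.range m).filter fun i => z ∈ D i (b, b')).card},
      f b z.1 * g b' z.2 ∂(P.prod P') ≤
      ((1 + c) ^ r)⁻¹ * (1 + m * ((L₁.card * L₂.card : ℕ) * ((1 + c) ^ m * e))) := by
  have hg0 : (1 + c) ^ r ≠ 0 := by positivity
  have hg1 : (1 + c) ^ r ≠ ∞ := ENNReal.pow_ne_top (ENNReal.add_ne_top.2 ⟨ENNReal.one_ne_top, h.hc⟩)
  have h1 := h.none r
  have h2 : ∑ q ∈ L₁ ×ˢ L₂, ∫⁻ z, f q.1 z.1 * g q.2 z.2 ∂(P.prod P') ≤ 1 := by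
    rw [← lintegral_finsetSum _ fun q hq => h.mV q hq]
    calc ∫⁻ z, ∑ q ∈ L₁ ×ˢ L₂, f q.1 z.1 * g q.2 z.2 ∂(P.prod P') ≤ ∫⁻ _z, 1 * 1 ∂(P.prod P') :=
          lintegral_mono fun z => sumV_pair sf sg z
      _ = 1 := by rw [lintegral_const, measure_univ, mul_one, mul_one]
  rw [← Finset.sum_product' (f := fun b b' => ∫⁻ z in {z | (∀ i < m, z ∉ J i (b, b')) ∧
      ((Finset.range m).filter fun i => z ∈ X i (b, b')).card + r ≤ ((Finset.range m).filter fun i => z ∈ D i (b, b')).card},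
      f b z.1 * g b' z.2 ∂(P.prod P'))]
  calc _ = ((1 + c) ^ r)⁻¹ * ((1 + c) ^ r * ∑ q ∈ L₁ ×ˢ L₂, ∫⁻ z in BadB D J X m r q, f q.1 z.1 * g q.2 z.2 ∂(P.prod P')) := by
        rw [← mul_assoc, ENNReal.inv_mul_cancel hg0 hg1, one_mul]
        rfl
    _ ≤ ((1 + c) ^ r)⁻¹ * (∑ q ∈ L₁ ×ˢ L₂, ∫⁻ z, f q.1 z.1 * g q.2 z.2 ∂(P.prod P') +
        m * ((L₁ ×ˢ L₂).card * ((1 + c) ^ m * e))) := by gcongr
    _ ≤ _ := by
        rw [Finset.card_product]
        gcongr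

end pair

end Pool.Agent.W_7d29a1_C1.Box28
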