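import Pool.Agent.W_7d29a1_C1.BoxB69

/-!
MP_7d29a1_pr, [C1], resampled WINDOWS, part D: THE WINDOW LEMMA. (helper69)

`η` old, `η'` new, equal off the window `rows (0, T] × lat ≤ ωB`; `F ≥ 0` any future profile of the row `T`; `M`, `M'` the masses.
* `Tame69 η F T ω Q t x` : `M q ≤ exp Q * M (t, x)` for the later sites `q` of the window `ω`;
* `Kb69 η' T ω t x A B` : the kernels of `η'` from `(t, x)` in the window `ω + 1`: row mass at most `A`, at distance more than `ω` at most `B`;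
* `out69` : with `Tame69` and `Kb69` at the starts of the rim `(ωB, ωB + 1]`: `M' ≤ R₀ M` at every site with `lat > ωB`,
  `R₀ = 2 exp Q * A`. No walls, no lane: also the lemma for the exchange of the roles of `η` and `η'`.
* `box69` : with walls and the strips `S` (lanes `l`): the same, and at the row `0`, for every `x`,
  `M' (0, x) ≤ ∑ (y in the exit cell of the lane, if x is in its mouth) W' (x → y) F y + R₀ M (0, x)`, `R₀ = 4 exp (b₀ + Q)`, where
  `b₀` bounds the kernels which AVOID the strips.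
-/

set_option autoImplicit false

namespace Pool.Agent.W_7d29a1_C1

open MeasureTheory ProbabilityTheory Filter Topology
open Pool.Agent.W_7d29a1_F Pool.Agent.W_7d29a1_h4g Pool.Agent.W_7d29a1_H Pool.Agent.W_7d29a1_HS
open Pool.Agent.W_7d29a1_HL (WR_off WR_last_off WR_add' WR_mono' WR_zero' cS)

noncomputable section

variable {μ : Measure ℝ} {s : ℝ} {ι : Type*}

/-- The old masses are tame seen from `(t, x)`. -/
def Tame69 (μ : Measure ℝ) (s : ℝ) (η : Env) (F : ℤ → ℝ) (T : ℕ) (ω Q : ℝ) (t : ℕ) (x : ℤ) : Prop :=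
  ∀ (k : ℕ) (u : ℤ), 1 ≤ k → t + k ≤ T → lat69 μ s (t + k) u ≤ ω →
    MF69 μ s Set.univ η (((t + k : ℕ) : ℤ), u) (T - (t + k)) F ≤ Real.exp Q * MF69 μ s Set.univ η ((t : ℤ), x) (T - t) F

/-- The kernels of the new environment from `(t, x)` in the window `ω + 1`. -/
def Kb69 (μ : Measure ℝ) (s : ℝ) (η' : Env) (T : ℕ) (ω A B : ℝ) (t : ℕ) (x : ℤ) : Prop :=
  cS μ s (St μ s (ω + 1) 0) η' ((t : ℤ), x) (T - t) ≤ A ∧
    ∀ (k : ℕ) (u : ℤ), t + k ≤ T → ω < lat69 μ s (t + k) u → WR μ s (St μ s (ω + 1) 0) η' ((t : ℤ), x) k (u - x) ≤ B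

theorem lat_step69 (hv0 : 0 ≤ sl μ s) (hv1 : sl μ s ≤ 1) (t : ℕ) (x δ : ℤ) (hδ : δ = 0 ∨ δ = 1) :
    |lat69 μ s t x - lat69 μ s (t + 1) (x + δ)| ≤ 1 := by
  have h := lat_disp69 (μ := μ) (s := s) t 1 x (x + δ)
  refine h.trans ?_
  rw [abs_le]
  rcases hδ with rfl | rfl
  · push_cast
    constructor <;> linarith
  · push_cast
    constructor <;> linarith

/-- The confined mass. -/
theorem conf69 [IsProbabilityMeasure μ] {η η' : Env} {F : ℤ → ℝ} (hF : ∀ y, 0 ≤ F y) {T : ℕ} {ω Q A : ℝ} {t : ℕ} (ht : t < T) {x : ℤ}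
    (hT : Tame69 μ s η F T (ω + 1) Q t x) (hA : cS μ s (St μ s (ω + 1) 0) η' ((t : ℤ), x) (T - t) ≤ A) :
    MF69 μ s (St μ s ω 0) η' ((t : ℤ), x) (T - t) F ≤ Real.exp Q * A * MF69 μ s Set.univ η ((t : ℤ), x) (T - t) F := by
  have hM : 0 ≤ MF69 μ s Set.univ η ((t : ℤ), x) (T - t) F := MF69_nonneg _ _ _ _ hF
  have h1 : ∀ y ∈ Finset.Icc (0 : ℤ) ((T - t : ℕ) : ℤ), WR μ s (St μ s ω 0) η' ((t : ℤ), x) (T - t) y * F (x + y) ≤
      WR μ s (St μ s (ω + 1) 0) η' ((t : ℤ), x) (T - t) y * (Real.exp Q * MF69 μ s Set.univ η ((t : ℤ), x) (T - t) F) := by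
    intro y _
    rcases eq_or_ne (WR μ s (St μ s ω 0) η' ((t : ℤ), x) (T - t) y) 0 with h0 | h0
    · rw [h0, zero_mul]
      exact mul_nonneg (WR_nonneg _ _ _ _ _) (mul_nonneg (Real.exp_pos _).le hM)
    · have e1 : y = (x + y) - x := by ring
      have h2 : lat69 μ s (t + (T - t)) (x + y) ≤ ω := by
        refine WR_win69 (μ := μ) (s := s) (η := η') (t := t) (x := x) (j := T - t) (z := x + y) (by omega) ?_
        rw [← e1]
        exact h0
      have h3 := hT (T - t) (x + y) (by omega) (by omega) (by linarith)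
      have e2 : T - (t + (T - t)) = 0 := by omega
      rw [e2, MF69_zero] at h3
      refine mul_le_mul (WR_mono' ?_ _ _ _ _) h3 (hF _) (WR_nonneg _ _ _ _ _)
      intro p hp
      have hp' : |((p.2 - (0 : Pt).2 : ℤ) : ℝ) - sl μ s * ((p.1 - (0 : Pt).1 : ℤ) : ℝ)| ≤ ω := hp
      show |((p.2 - (0 : Pt).2 : ℤ) : ℝ) - sl μ s * ((p.1 - (0 : Pt).1 : ℤ) : ℝ)| ≤ ω + 1
      linarith
  refine (Finset.sum_le_sum h1).trans ?_
  rw [← Finset.sum_mul]
  have h2 : (∑ y ∈ Finset.Icc (0 : ℤ) ((T - t : ℕ) : ℤ), WR μ s (St μ s (ω + 1) 0) η' ((t : ℤ), x) (T - t) y) ≤ A := hA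
  calc _ ≤ A * (Real.exp Q * MF69 μ s Set.univ η ((t : ℤ), x) (T - t) F) :=
        mul_le_mul_of_nonneg_right h2 (mul_nonneg (Real.exp_pos _).le hM)
    _ = _ := by ring

/-- The exits. -/
theorem exits69 [IsProbabilityMeasure μ] (hv0 : 0 ≤ sl μ s) (hv1 : sl μ s ≤ 1) {η η' : Env} {F : ℤ → ℝ} (hF : ∀ y, 0 ≤ F y) {T : ℕ}
    {ω Q B : ℝ} (hB : 0 ≤ B) {t : ℕ} {x : ℤ} (hx : lat69 μ s t x ≤ ω) (hT : Tame69 μ s η F T (ω + 1) Q t x)
    (hK : ∀ (k : ℕ) (u : ℤ), t + k ≤ T → ω < lat69 μ s (t + k) u → WR μ s (St μ s (ω + 1) 0) η' ((t : ℤ), x) k (u - x) ≤ B) :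
    Ex69 μ s (St μ s ω 0) Set.univ η' t x (T - t) (fun k u => MF69 μ s Set.univ η ((t : ℤ) + k, u) (T - t - k) F) ≤
      Real.exp Q * (T * (T + 1) * B) * MF69 μ s Set.univ η ((t : ℤ), x) (T - t) F := by
  classical
  have hM : 0 ≤ MF69 μ s Set.univ η ((t : ℤ), x) (T - t) F := MF69_nonneg _ _ _ _ hF
  have hsub : St μ s ω 0 ⊆ St μ s (ω + 1) 0 := by
    intro p hp
    have hp' : |((p.2 - (0 : Pt).2 : ℤ) : ℝ) - sl μ s * ((p.1 - (0 : Pt).1 : ℤ) : ℝ)| ≤ ω := hp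
    show |((p.2 - (0 : Pt).2 : ℤ) : ℝ) - sl μ s * ((p.1 - (0 : Pt).1 : ℤ) : ℝ)| ≤ ω + 1
    linarith
  -- the exit sites are in the larger window
  have hsite : ∀ (k : ℕ) (u : ℤ), 1 ≤ k → k ≤ T - t → (((t : ℤ) + k, u) : Pt) ∉ St μ s ω 0 →
      X69 μ s (St μ s ω 0) Set.univ η' t x (k - 1) u ≠ 0 → (((t : ℤ) + k, u) : Pt) ∈ St μ s (ω + 1) 0 := by
    intro k u hk _ _ hX
    obtain ⟨v, -, hv⟩ := Finset.exists_ne_zero_of_sum_ne_zero hX
    have hv1' := left_ne_zero_of_mul hv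
    have hv2 := right_ne_zero_of_mul hv
    have hlv : lat69 μ s (t + (k - 1)) v ≤ ω := by
      rcases Nat.eq_zero_or_pos (k - 1) with h0 | h0
      · rw [h0] at hv1' ⊢
        rw [WR_steps0] at hv1'
        have : v = x := by
          by_contra hne
          exact hv1' (if_neg (by omega))
        rw [this, add_zero]
        exact hx
      · exact WR_win69 (μ := μ) (s := s) (η := η') (t := t) (x := x) (j := k - 1) (z := v) h0 hv1'
    have hδ : u - v = 0 ∨ u - v = 1 := by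
      by_contra hcon
      exact hv2 (WR_off _ _ _ (by
        intro h
        push_cast at h
        omega))
    have h4 := lat_step69 (μ := μ) (s := s) hv0 hv1 (t + (k - 1)) v (u - v) hδ
    have e1 : t + (k - 1) + 1 = t + k := by omega
    have e2 : v + (u - v) = u := by ring
    rw [e1, e2] at h4
    have e3 : (((t : ℤ) + (k : ℤ), u) : Pt) = (((t + k : ℕ) : ℤ), u) := by push_cast; rfl
    rw [e3, mem_St69]
    have h5 := neg_abs_le (lat69 μ s (t + (k - 1)) v - lat69 μ s (t + k) u)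
    linarith
  have h1 := Ex69_le (μ := μ) (s := s) (Ω := St μ s ω 0) (R := Set.univ) (R' := St μ s (ω + 1) 0) hsub (η := η') (t := (t : ℤ)) (x := x)
    (n := T - t) (G := fun k u => MF69 μ s Set.univ η ((t : ℤ) + k, u) (T - t - k) F)
    (g := Real.exp Q * MF69 μ s Set.univ η ((t : ℤ), x) (T - t) F) hsite (mul_nonneg (Real.exp_pos _).le hM) (by
      intro k u hk hk' _ hm
      have e3 : (((t : ℤ) + (k : ℤ), u) : Pt) = (((t + k : ℕ) : ℤ), u) := by push_cast; rfl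
      rw [e3, mem_St69] at hm
      have h2 := hT k u hk (by omega) hm
      have e4 : T - t - k = T - (t + k) := by omega
      rw [e3, e4]
      exact h2)
  refine h1.trans ?_
  have h2 : ∑ k ∈ Finset.range (T - t), ∑ u ∈ Finset.Icc x (x + (k + 1 : ℕ)),
      (open Classical in if (((t : ℤ) + (k + 1 : ℕ), u) : Pt) ∈ St μ s ω 0 then 0 else
        WR μ s (St μ s (ω + 1) 0) η' ((t : ℤ), x) (k + 1) (u - x)) ≤ T * (T + 1) * B := by
    have h3 : ∀ k ∈ Finset.range (T - t), ∑ u ∈ Finset.Icc x (x + (k + 1 : ℕ)),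
        (open Classical in if (((t : ℤ) + (k + 1 : ℕ), u) : Pt) ∈ St μ s ω 0 then 0 else
          WR μ s (St μ s (ω + 1) 0) η' ((t : ℤ), x) (k + 1) (u - x)) ≤ (T + 1) * B := by
      intro k hk
      rw [Finset.mem_range] at hk
      have h4 : ∀ u ∈ Finset.Icc x (x + (k + 1 : ℕ)), (open Classical in if (((t : ℤ) + (k + 1 : ℕ), u) : Pt) ∈ St μ s ω 0 then 0 else
          WR μ s (St μ s (ω + 1) 0) η' ((t : ℤ), x) (k + 1) (u - x)) ≤ B := by
        intro u _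
        have e3 : (((t : ℤ) + ((k + 1 : ℕ) : ℤ), u) : Pt) = (((t + (k + 1) : ℕ) : ℤ), u) := by push_cast; rfl
        rw [e3]
        split_ifs with hm
        · exact hB
        · rw [mem_St69, not_le] at hm
          exact hK (k + 1) u (by omega) hm
      refine (Finset.sum_le_sum h4).trans ?_
      rw [Finset.sum_const, nsmul_eq_mul]
      refine mul_le_mul_of_nonneg_right ?_ hB
      rw [Int.card_Icc]
      have h5 : (x + ((k + 1 : ℕ) : ℤ) + 1 - x).toNat ≤ T + 1 := by omega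
      exact_mod_cast h5
    refine (Finset.sum_le_sum h3).trans ?_
    rw [Finset.sum_const, nsmul_eq_mul, Finset.card_range, ← mul_assoc]
    refine mul_le_mul_of_nonneg_right ?_ hB
    refine mul_le_mul_of_nonneg_right ?_ (by positivity)
    exact_mod_cast Nat.sub_le T t
  calc _ ≤ Real.exp Q * MF69 μ s Set.univ η ((t : ℤ), x) (T - t) F * (T * (T + 1) * B) :=
        mul_le_mul_of_nonneg_left h2 (mul_nonneg (Real.exp_pos _).le hM)
    _ = _ := by ring

/-- **OUTSIDE OF THE WINDOW**: `M' ≤ R₀ M`. -/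
theorem out69 [IsProbabilityMeasure μ] (hv0 : 0 ≤ sl μ s) (hv1 : sl μ s ≤ 1) {η η' : Env} {F : ℤ → ℝ} (hF : ∀ y, 0 ≤ F y) {T : ℕ}
    {ωB ω Q A B : ℝ} (hω : ωB + 1 ≤ ω) (hB : 0 ≤ B) (hA : 1 ≤ 2 * (Real.exp Q * A)) (hsm : Real.exp Q * (T * (T + 1) * B) ≤ 1 / 2)
    (heq : ∀ (t : ℕ) (x : ℤ), ωB < lat69 μ s t x → η (((t : ℤ), x) : Pt) = η' (((t : ℤ), x) : Pt))
    (hT : ∀ (t : ℕ) (x : ℤ), t < T → ωB < lat69 μ s t x → lat69 μ s t x ≤ ωB + 1 → Tame69 μ s η F T (ω + 1) Q t x)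
    (hK : ∀ (t : ℕ) (x : ℤ), t < T → ωB < lat69 μ s t x → lat69 μ s t x ≤ ωB + 1 → Kb69 μ s η' T ω A B t x) :
    ∀ (n t : ℕ) (x : ℤ), t + n = T → ωB < lat69 μ s t x →
      MF69 μ s Set.univ η' ((t : ℤ), x) n F ≤ 2 * (Real.exp Q * A) * MF69 μ s Set.univ η ((t : ℤ), x) n F := by
  obtain ⟨Out, hOut⟩ : ∃ Out : Set Pt, Out = (St μ s ωB 0)ᶜ := ⟨_, rfl⟩
  obtain ⟨Act, hAct⟩ : ∃ Act : Set Pt, Act = St μ s (ωB + 1) 0 := ⟨_, rfl⟩
  have mOut : ∀ (t : ℕ) (x : ℤ), (((t : ℤ), x) : Pt) ∈ Out ↔ ωB < lat69 μ s t x := by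
    intro t x
    rw [hOut, Set.mem_compl_iff, mem_St69, not_le]
  have mAct : ∀ (t : ℕ) (x : ℤ), (((t : ℤ), x) : Pt) ∈ Act ↔ lat69 μ s t x ≤ ωB + 1 := by
    intro t x
    rw [hAct, mem_St69]
  have key := close69 (μ := μ) (s := s) (η := η) (η' := η') hF (Out := Out) (Act := Act) (Ω := St μ s ω 0) (T := T)
    (R₀ := 2 * (Real.exp Q * A)) hA
    (by
      intro t x _ hx hx' δ hδ
      rw [mOut] at hx
      rw [mAct, not_le] at hx'
      have h1 := lat_step69 (μ := μ) (s := s) hv0 hv1 t x δ hδ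
      have h2 := le_abs_self (lat69 μ s t x - lat69 μ s (t + 1) (x + δ))
      have h3 : ωB < lat69 μ s (t + 1) (x + δ) := by linarith
      have e1 : (((t : ℤ) + 1, x + δ) : Pt) = (((t + 1 : ℕ) : ℤ), x + δ) := by push_cast; rfl
      rw [e1]
      exact ⟨(mOut _ _).2 h3, heq _ _ h3⟩)
    (by
      intro t x ht hx hx'
      rw [mOut] at hx
      rw [mAct] at hx'
      have hT' := hT t x ht hx hx'
      obtain ⟨k1, k2⟩ := hK t x ht hx hx'
      have hM : 0 ≤ MF69 μ s Set.univ η ((t : ℤ), x) (T - t) F := MF69_nonneg _ _ _ _ hF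
      refine ⟨?_, ?_⟩
      · have h1 := conf69 (μ := μ) (s := s) hF ht hT' k1
        have e1 : 2 * (Real.exp Q * A) / 2 = Real.exp Q * A := by ring
        rw [e1]
        exact h1
      · refine (exits69 (μ := μ) (s := s) hv0 hv1 hF hB (by linarith) hT' k2).trans ?_
        exact mul_le_mul_of_nonneg_right hsm hM)
    (by
      intro t x _ hx
      rw [mem_St69, not_le] at hx
      exact (mOut _ _).2 (by linarith))
  intro n t x htn hx
  exact key n t x htn ((mOut _ _).2 hx)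

/-- The exit cell of the lane of the mouth. -/
def Pr69 (α β : ℝ) (N : ℕ) (l : ι → ℕ → ℝ) (x y : ℤ) : Prop := ∃ j, |(x : ℝ) - l j 0| ≤ α ∧ |(y : ℝ) - l j N| ≤ β

/-- The constant of the touches. -/
def tc69 (N T : ℕ) (b₁ Y : ℝ) : ℝ := T * (T + 1) * (rimE69 N T b₁ Y * Real.exp b₁)

/-- **THE WINDOW LEMMA.** -/
theorem box69 [IsProbabilityMeasure μ] (hv0 : 0 ≤ sl μ s) (hv1 : sl μ s ≤ 1) {η η' : Env} {F : ℤ → ℝ} (hF : ∀ y, 0 ≤ F y) {n N : ℕ}
    (hN : 1 ≤ N) {ωB ω ωW ρ α κ Y b₀ b₁ τ Q h : ℝ} {l : ι → ℕ → ℝ} {S : Set Pt}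
    (hW : Wal69 μ s η' n N (ω + 1) ωW ρ α κ Y b₁ l) (hωB : ωW ≤ ωB) (hω : ωB + 1 ≤ ω) (hωρ : ωW + ρ ≤ ω) (h0 : 0 ≤ h)
    (hb0 : 0 ≤ b₀) (hQ : 0 ≤ Q)
    (hs : ∀ j, ∀ i < N, |l j (i + 1) - l j i - sl μ s * n| ≤ τ)
    (hsep : ∀ j j', j ≠ j' → ∀ i ≤ N, 2 * α + ρ + τ < |l j i - l j' i|)
    (hl : ∀ (j : ι) (i : ℕ), i ≤ N → |l j i - sl μ s * (i * n : ℕ)| + (α + ρ + τ) ≤ ωW)
    (hS : ∀ (t : ℕ) (x : ℤ), (((t : ℤ), x) : Pt) ∈ S → lat69 μ s t x ≤ κ)
    (hP : η' ∈ PW69 μ s Sᶜ h (N * n) (N * n) (ωB + 1) b₀)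
    (heq : ∀ (t : ℕ) (x : ℤ), ωB < lat69 μ s t x → η (((t : ℤ), x) : Pt) = η' (((t : ℤ), x) : Pt))
    (hT : ∀ (t : ℕ) (x : ℤ), t < N * n → (t = 0 ∨ ωB < lat69 μ s t x) → lat69 μ s t x ≤ ωB + 1 → Tame69 μ s η F (N * n) (ω + 1) Q t x)
    -- numbers
    (n1 : ((N * n : ℕ) + 1 : ℝ) ^ 2 * Real.exp (Q + b₀ - h * (ω - ωB - 1)) ≤ 1 / 4)
    (n2 : ((N * n : ℕ) + 1 : ℝ) ^ 2 * (Real.exp Q * tc69 N (N * n) b₁ Y) ≤ 1 / 4)
    (n3 : ((N * n : ℕ) + 1 : ℝ) ^ 2 * (Real.exp Q * ((N + 1) * (Real.exp b₁ * (2 * Real.exp (-Y)) * Real.exp b₁))) ≤ 1 / 4) :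
    (∀ (m t : ℕ) (x : ℤ), t + m = N * n → ωB < lat69 μ s t x →
      MF69 μ s Set.univ η' ((t : ℤ), x) m F ≤ 4 * Real.exp (b₀ + Q) * MF69 μ s Set.univ η ((t : ℤ), x) m F) ∧
    ∀ x : ℤ, MF69 μ s Set.univ η' ((0 : ℤ), x) (N * n) F ≤
      ∑ y ∈ Finset.Icc (0 : ℤ) ((N * n : ℕ) : ℤ), (open Classical in if Pr69 α (α + ρ + τ) N l x (x + y) then
        W μ s η' ((0 : ℤ), x) (N * n) y * F (x + y) else 0) +
      4 * Real.exp (b₀ + Q) * MF69 μ s Set.univ η ((0 : ℤ), x) (N * n) F := by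
  classical
  obtain ⟨T, hTd⟩ : ∃ T : ℕ, T = N * n := ⟨_, rfl⟩
  rw [← hTd] at hP hT n1 n2 n3 ⊢
  have hn := hW.n1
  have hb1 := hW.b0
  have hr0 := hW.r0
  have hT0 : (0 : ℝ) ≤ T := Nat.cast_nonneg T
  have hN0 : (0 : ℝ) ≤ N := Nat.cast_nonneg N
  have hTpos : 0 < T := by rw [hTd]; positivity
  have hE0 : 0 ≤ rimE69 N T b₁ Y := (Real.exp_pos _).le.trans (rimE69_ge hb1)
  have htc0 : 0 ≤ tc69 N T b₁ Y := by unfold tc69; positivity
  -- kernels from the starts beyond the walls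
  have hKb : ∀ (t : ℕ) (x : ℤ), t < T → ωW < lat69 μ s t x → lat69 μ s t x ≤ ωB + 1 →
      Kb69 μ s η' T ω (Real.exp b₀ + (T + 1) * tc69 N T b₁ Y) (Real.exp (b₀ - h * (ω - ωB - 1)) + tc69 N T b₁ Y) t x := by
    intro t x ht hx hx'
    have htouch : ∀ (k : ℕ) (u : ℤ), t + k ≤ T → WR μ s (St μ s (ω + 1) 0) η' ((t : ℤ), x) k (u - x) ≤
        WR μ s Sᶜ η' ((t : ℤ), x) k (u - x) + tc69 N T b₁ Y := by
      intro k u hk
      have h1 := hW.touch hS (t := t) (k := k) (by rw [← hTd]; exact hk) hx (by linarith) u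
      rw [← hTd] at h1
      refine h1.trans (add_le_add (WR_mono' Set.inter_subset_right _ _ _ _) (le_of_eq ?_))
      unfold tc69
      ring
    refine ⟨?_, ?_⟩
    · have h1 : cS μ s (St μ s (ω + 1) 0) η' ((t : ℤ), x) (T - t) ≤
          ∑ y ∈ Finset.Icc (0 : ℤ) ((T - t : ℕ) : ℤ), (WR μ s Sᶜ η' ((t : ℤ), x) (T - t) y + tc69 N T b₁ Y) := by
        refine Finset.sum_le_sum fun y _ => ?_
        have h2 := htouch (T - t) (x + y) (by omega)
        have e1 : x + y - x = y := by ring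
        rw [e1] at h2
        exact h2
      refine h1.trans ?_
      rw [Finset.sum_add_distrib, Finset.sum_const, nsmul_eq_mul]
      refine add_le_add (hP t (T - t) x (by omega) (by omega) hx').1 ?_
      refine mul_le_mul_of_nonneg_right ?_ htc0
      rw [Int.card_Icc]
      have h5 : (((T - t : ℕ) : ℤ) + 1 - 0).toNat ≤ T + 1 := by omega
      exact_mod_cast h5
    · intro k u hk hu
      refine (htouch k u hk).trans (add_le_add ?_ le_rfl)
      refine ((hP t k x hk (by omega) hx').2 (u - x)).trans (Real.exp_le_exp.2 ?_)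
      have h1 := lat_disp69 (μ := μ) (s := s) t k x u
      have h2 := neg_abs_le (lat69 μ s t x - lat69 μ s (t + k) u)
      have h3 : ω - ωB - 1 ≤ |((u - x : ℤ) : ℝ) - sl μ s * k| := by linarith
      have h4 := mul_le_mul_of_nonneg_left h3 h0
      linarith
  -- the numbers
  have hQ1 : 1 ≤ Real.exp Q := Real.one_le_exp hQ
  have hb01 : 1 ≤ Real.exp b₀ := Real.one_le_exp hb0
  have hA1 : Real.exp Q * (Real.exp b₀ + (T + 1) * tc69 N T b₁ Y) ≤ 2 * Real.exp (b₀ + Q) := by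
    have h1 : Real.exp Q * ((T + 1) * tc69 N T b₁ Y) ≤ 1 / 4 := by
      refine le_trans ?_ n2
      have h2 : ((T : ℝ) + 1) ≤ ((T : ℝ) + 1) ^ 2 := by nlinarith
      calc _ = (T + 1) * (Real.exp Q * tc69 N T b₁ Y) := by ring
        _ ≤ _ := mul_le_mul_of_nonneg_right h2 (by positivity)
    have h2 : Real.exp (b₀ + Q) = Real.exp Q * Real.exp b₀ := by rw [← Real.exp_add]; ring_nf
    rw [mul_add, h2]
    have h3 : 1 ≤ Real.exp Q * Real.exp b₀ := by nlinarith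
    linarith
  have hB1 : Real.exp Q * (T * (T + 1) * (Real.exp (b₀ - h * (ω - ωB - 1)) + tc69 N T b₁ Y)) ≤ 1 / 2 := by
    have h1 : (T : ℝ) * (T + 1) ≤ ((T : ℝ) + 1) ^ 2 := by nlinarith
    have h2 : Real.exp Q * Real.exp (b₀ - h * (ω - ωB - 1)) = Real.exp (Q + b₀ - h * (ω - ωB - 1)) := by
      rw [← Real.exp_add]
      ring_nf
    have h3 : Real.exp Q * (T * (T + 1) * (Real.exp (b₀ - h * (ω - ωB - 1)) + tc69 N T b₁ Y)) =
        T * (T + 1) * Real.exp (Q + b₀ - h * (ω - ωB - 1)) + T * (T + 1) * (Real.exp Q * tc69 N T b₁ Y) := by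
      rw [← h2]
      ring
    rw [h3]
    have h4 := mul_le_mul_of_nonneg_right h1 (Real.exp_pos (Q + b₀ - h * (ω - ωB - 1))).le
    have h5 := mul_le_mul_of_nonneg_right h1 (by positivity : 0 ≤ Real.exp Q * tc69 N T b₁ Y)
    linarith
  have hBn : 0 ≤ Real.exp (b₀ - h * (ω - ωB - 1)) + tc69 N T b₁ Y := by positivity
  have hAge : 1 ≤ 2 * (Real.exp Q * (Real.exp b₀ + (T + 1) * tc69 N T b₁ Y)) := by
    have h1 : 0 ≤ (T + 1) * tc69 N T b₁ Y := by positivity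
    nlinarith
  have hout0 := out69 (μ := μ) (s := s) hv0 hv1 (η := η) (η' := η') hF (T := T) (ωB := ωB) (ω := ω) (Q := Q)
    (A := Real.exp b₀ + (T + 1) * tc69 N T b₁ Y) (B := Real.exp (b₀ - h * (ω - ωB - 1)) + tc69 N T b₁ Y) hω hBn hAge hB1 heq
    (fun t x ht hx hx' => hT t x ht (Or.inr hx) hx') (fun t x ht hx hx' => hKb t x ht (by linarith) hx')
  have hout : ∀ (m t : ℕ) (x : ℤ), t + m = T → ωB < lat69 μ s t x →
      MF69 μ s Set.univ η' ((t : ℤ), x) m F ≤ 4 * Real.exp (b₀ + Q) * MF69 μ s Set.univ η ((t : ℤ), x) m F := by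
    intro m t x hm hx
    refine (hout0 m t x hm hx).trans (mul_le_mul_of_nonneg_right ?_ (MF69_nonneg _ _ _ _ hF))
    linarith
  refine ⟨hout, fun x => ?_⟩
  have hM : 0 ≤ MF69 μ s Set.univ η ((0 : ℤ), x) T F := MF69_nonneg _ _ _ _ hF
  have hpair0 : 0 ≤ ∑ y ∈ Finset.Icc (0 : ℤ) ((T : ℕ) : ℤ), (if Pr69 α (α + ρ + τ) N l x (x + y) then
        W μ s η' ((0 : ℤ), x) T y * F (x + y) else 0) := by
    refine Finset.sum_nonneg fun y _ => ?_
    split_ifs
    · exact mul_nonneg (W_nonneg _ _ _ _) (hF _)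
    · exact le_rfl
  have h00 : ((0 : ℤ), x) = ((((0 : ℕ) : ℤ), x) : Pt) := by simp
  have hR0 : 0 ≤ 4 * Real.exp (b₀ + Q) := by positivity
  have houtset : ∀ (n' t : ℕ) (x : ℤ), t + n' = T → (((t : ℤ), x) : Pt) ∈ (St μ s ωB 0)ᶜ →
      MF69 μ s Set.univ η' ((t : ℤ), x) n' F ≤ 4 * Real.exp (b₀ + Q) * MF69 μ s Set.univ η ((t : ℤ), x) n' F := by
    intro n' t x' h1 h2
    rw [Set.mem_compl_iff, mem_St69, not_le] at h2
    exact hout n' t x' h1 h2
  have hexit : ∀ (t : ℕ) (x : ℤ), t ≤ T → (((t : ℤ), x) : Pt) ∉ St μ s ω 0 → (((t : ℤ), x) : Pt) ∈ (St μ s ωB 0)ᶜ := by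
    intro t x' _ h2
    rw [mem_St69, not_le] at h2
    rw [Set.mem_compl_iff, mem_St69, not_le]
    linarith
  rcases lt_or_ge ωB (lat69 μ s 0 x) with h1 | h1
  · -- far start
    have h2 := hout T 0 x (by omega) h1
    rw [← h00] at h2
    linarith
  · rcases lt_or_ge ωW (lat69 μ s 0 x) with h2 | h2
    · -- between the walls and the rim
      have hT' := hT 0 x hTpos (Or.inl rfl) (by linarith)
      obtain ⟨k1, k2⟩ := hKb 0 x hTpos h2 (by linarith)
      have k3 := exits69 (μ := μ) (s := s) hv0 hv1 hF hBn (by linarith) hT' k2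
      have k4 := k3.trans (mul_le_mul_of_nonneg_right hB1 (MF69_nonneg _ _ _ _ hF))
      have k5 := row69 (μ := μ) (s := s) hR0 houtset hexit (t := 0) (Nat.zero_le T) (x := x) k4
      have k6 := conf69 (μ := μ) (s := s) hF hTpos hT' k1
      rw [Nat.sub_zero, ← h00] at k5 k6
      have k7 := k6.trans (mul_le_mul_of_nonneg_right hA1 hM)
      linarith
    · -- inside of the walls
      have hT' := hT 0 x hTpos (Or.inl rfl) (by linarith)
      obtain ⟨sm, hsm⟩ : ∃ sm : ℝ, sm = (N + 1) * (Real.exp b₁ * (2 * Real.exp (-Y)) * Real.exp b₁) := ⟨_, rfl⟩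
      have hsm0 : 0 ≤ sm := by rw [hsm]; positivity
      rw [← hsm] at n3
      have k2 : ∀ (k : ℕ) (u : ℤ), 0 + k ≤ T → ω < lat69 μ s (0 + k) u →
          WR μ s (St μ s (ω + 1) 0) η' (((0 : ℕ) : ℤ), x) k (u - x) ≤ sm := by
        intro k u hk hu
        rw [zero_add] at hu hk
        have h3 := leave69 hW hs hsep hl h2 (T' := k) (by rw [← hTd]; exact hk) (u := u) (by linarith)
        rw [h00] at h3
        rw [hsm]
        exact h3
      have k3 := exits69 (μ := μ) (s := s) hv0 hv1 hF hsm0 (by linarith) hT' k2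
      have k4 : Real.exp Q * (T * (T + 1) * sm) ≤ 1 / 2 := by
        have h3 : (T : ℝ) * (T + 1) ≤ ((T : ℝ) + 1) ^ 2 := by nlinarith
        have h4 := mul_le_mul_of_nonneg_right h3 (by positivity : 0 ≤ Real.exp Q * sm)
        have h5 : Real.exp Q * (T * (T + 1) * sm) = T * (T + 1) * (Real.exp Q * sm) := by ring
        rw [h5]
        linarith
      have k5 := k3.trans (mul_le_mul_of_nonneg_right k4 (MF69_nonneg _ _ _ _ hF))
      have k6 := row69 (μ := μ) (s := s) hR0 houtset hexit (t := 0) (Nat.zero_le T) (x := x) k5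
      rw [Nat.sub_zero, ← h00] at k6
      -- the confined part
      have k7 : MF69 μ s (St μ s ω 0) η' ((0 : ℤ), x) T F ≤ ∑ y ∈ Finset.Icc (0 : ℤ) ((T : ℕ) : ℤ),
          ((if Pr69 α (α + ρ + τ) N l x (x + y) then W μ s η' ((0 : ℤ), x) T y * F (x + y) else 0) +
            sm * (Real.exp Q * MF69 μ s Set.univ η ((0 : ℤ), x) T F)) := by
        refine Finset.sum_le_sum fun y _ => ?_
        have hpos : 0 ≤ sm * (Real.exp Q * MF69 μ s Set.univ η ((0 : ℤ), x) T F) := by positivity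
        split_ifs with hpr
        · have h3 := mul_le_mul_of_nonneg_right (WR_le_W (μ := μ) (s := s) (St μ s ω 0) η' ((0 : ℤ), x) T y) (hF (x + y))
          have h4 : WR μ s (St μ s ω 0) η' ((0 : ℤ), x) T y * F (((0 : ℤ), x).2 + y) ≤ W μ s η' ((0 : ℤ), x) T y * F (x + y) := h3
          linarith
        · rw [zero_add]
          rcases eq_or_ne (WR μ s (St μ s ω 0) η' ((0 : ℤ), x) T y) 0 with h0' | h0'
          · rw [h0', zero_mul]
            exact hpos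
          · have e1 : y = (x + y) - x := by ring
            have h3 : lat69 μ s (0 + T) (x + y) ≤ ω := by
              refine WR_win69 (μ := μ) (s := s) (η := η') (t := 0) (x := x) (j := T) (z := x + y) hTpos ?_
              rw [← e1, ← h00]
              exact h0'
            have h4 := hT' T (x + y) hTpos (by omega) (by linarith)
            have e2 : T - (0 + T) = 0 := by omega
            rw [e2, MF69_zero, Nat.sub_zero, ← h00] at h4
            have h5 : WR μ s (St μ s ω 0) η' ((0 : ℤ), x) T y ≤ sm := by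
              have h6 := small69 hW hN hs hsep hl h2 (x + y) (fun j hj => hpr ⟨j, hj⟩)
              rw [← hTd, add_sub_cancel_left] at h6
              refine (WR_mono' ?_ _ _ _ _).trans (h6.trans ?_)
              · intro p hp
                have hp' : |((p.2 - (0 : Pt).2 : ℤ) : ℝ) - sl μ s * ((p.1 - (0 : Pt).1 : ℤ) : ℝ)| ≤ ω := hp
                show |((p.2 - (0 : Pt).2 : ℤ) : ℝ) - sl μ s * ((p.1 - (0 : Pt).1 : ℤ) : ℝ)| ≤ ω + 1
                linarith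
              · rw [hsm]
                refine mul_le_mul_of_nonneg_right (by linarith) (by positivity)
            exact mul_le_mul h5 h4 (hF _) hsm0
      have k8 : ∑ _y ∈ Finset.Icc (0 : ℤ) ((T : ℕ) : ℤ), sm * (Real.exp Q * MF69 μ s Set.univ η ((0 : ℤ), x) T F) ≤
          1 / 4 * MF69 μ s Set.univ η ((0 : ℤ), x) T F := by
        rw [Finset.sum_const, nsmul_eq_mul, Int.card_Icc]
        have e3 : (((T : ℤ) + 1 - 0).toNat : ℝ) = T + 1 := by
          have : ((T : ℤ) + 1 - 0).toNat = T + 1 := by omega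
          rw [this]
          push_cast
          ring
        rw [e3]
        have h3 : ((T : ℝ) + 1) ≤ ((T : ℝ) + 1) ^ 2 := by nlinarith
        have h4 : ((T : ℝ) + 1) * (Real.exp Q * sm) ≤ 1 / 4 :=
          (mul_le_mul_of_nonneg_right h3 (by positivity)).trans n3
        calc _ = ((T : ℝ) + 1) * (Real.exp Q * sm) * MF69 μ s Set.univ η ((0 : ℤ), x) T F := by ring
          _ ≤ _ := mul_le_mul_of_nonneg_right h4 hM
      rw [Finset.sum_add_distrib] at k7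
      have k9 : 1 ≤ Real.exp (b₀ + Q) := Real.one_le_exp (by linarith)
      have k10 := mul_le_mul_of_nonneg_right k9 hM
      linarith

end

end Pool.Agent.W_7d29a1_C1
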