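import Pool.Agent.W_7d29a1_C1.BoxC69

/-!
MP_7d29a1_pr, [C1], resampled WINDOWS: from the kernel events `PW69` to the data `Wal69` of the walls. (helper69)

* `leave_PW69` : the mass which leaves the strip of half width `ρ` around a start, in `k` steps, is at most `k (k + 1) exp (2 b - h ρ)`;
* `jump_PW69` : `JUMP20`; `wal_PW69` : `Wal69`;
* `PW69.rows` : only the sites of the rows `(0, T]` of the region matter.
-/

set_option autoImplicit false

namespace Pool.Agent.W_7d29a1_C1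

open MeasureTheory ProbabilityTheory Filter Topology
open Pool.Agent.W_7d29a1_F Pool.Agent.W_7d29a1_h4g Pool.Agent.W_7d29a1_H Pool.Agent.W_7d29a1_HS
open Pool.Agent.W_7d29a1_HL (WR_off WR_last_off WR_add' WR_mono' WR_zero' WR_congr' cS)

noncomputable section

variable {μ : Measure ℝ} {s : ℝ} {ι : Type*}

/-- The total mass is `exp V`. -/
theorem MF69_one (η : Env) (a : Pt) (n : ℕ) : MF69 μ s Set.univ η a n (fun _ => 1) = Real.exp (V μ s η a n) := by
  rw [exp_V]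
  unfold MF69 WS
  exact Finset.sum_congr rfl fun y _ => mul_one _

theorem cS_univ69 (η : Env) (a : Pt) (n : ℕ) : cS μ s Set.univ η a n = Real.exp (V μ s η a n) := by
  rw [exp_V]
  rfl

theorem MF69_cS (R : Set Pt) (η : Env) (a : Pt) (n : ℕ) : MF69 μ s R η a n (fun _ => 1) = cS μ s R η a n := by
  unfold MF69 cS
  exact Finset.sum_congr rfl fun y _ => mul_one _

/-- **Leaving the strip around the start.** -/
theorem leave_PW69 [IsProbabilityMeasure μ] (hv0 : 0 ≤ sl μ s) (hv1 : sl μ s ≤ 1) {h : ℝ} (h0 : 0 ≤ h) {T m : ℕ} {D b ρ : ℝ} {η : Env}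
    (hη : η ∈ PW69 μ s Set.univ h T m D b) (hρ : 0 ≤ ρ) {t k : ℕ} {x : ℤ} (htk : t + k ≤ T) (hkm : k ≤ m)
    (hx : |(x : ℝ) - sl μ s * t| + ρ + 1 ≤ D) :
    Real.exp (V μ s η ((t : ℤ), x) k) - cS μ s (St μ s ρ ((t : ℤ), x)) η ((t : ℤ), x) k ≤ k * (k + 1) * Real.exp (2 * b - h * ρ) := by
  classical
  obtain ⟨Ω, hΩ⟩ : ∃ Ω : Set Pt, Ω = St μ s ρ ((t : ℤ), x) := ⟨_, rfl⟩
  have mΩ : ∀ (j : ℕ) (u : ℤ), (((t : ℤ) + (j : ℤ), u) : Pt) ∈ Ω ↔ |((u - x : ℤ) : ℝ) - sl μ s * j| ≤ ρ := by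
    intro j u
    rw [hΩ]
    show |((u - x : ℤ) : ℝ) - sl μ s * (((t : ℤ) + (j : ℤ) - (t : ℤ) : ℤ) : ℝ)| ≤ ρ ↔ _
    have e1 : (((t : ℤ) + (j : ℤ) - (t : ℤ) : ℤ) : ℝ) = (j : ℝ) := by push_cast; ring
    rw [e1]
  have mΩ1 : ∀ (j : ℕ) (u : ℤ), (((t : ℤ) + (j : ℤ), u) : Pt) ∈ St μ s (ρ + 1) ((t : ℤ), x) ↔
      |((u - x : ℤ) : ℝ) - sl μ s * j| ≤ ρ + 1 := by
    intro j u
    show |((u - x : ℤ) : ℝ) - sl μ s * (((t : ℤ) + (j : ℤ) - (t : ℤ) : ℤ) : ℝ)| ≤ ρ + 1 ↔ _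
    have e1 : (((t : ℤ) + (j : ℤ) - (t : ℤ) : ℤ) : ℝ) = (j : ℝ) := by push_cast; ring
    rw [e1]
  have hsub : Ω ⊆ St μ s (ρ + 1) ((t : ℤ), x) := by
    rw [hΩ]
    intro p hp
    have hp' : |((p.2 - x : ℤ) : ℝ) - sl μ s * ((p.1 - (t : ℤ) : ℤ) : ℝ)| ≤ ρ := hp
    show |((p.2 - x : ℤ) : ℝ) - sl μ s * ((p.1 - (t : ℤ) : ℤ) : ℝ)| ≤ ρ + 1
    linarith
  rw [← MF69_one, ← MF69_cS, ← hΩ, exit_full69 (μ := μ) (s := s) (Set.subset_univ Ω) η t x k (fun _ => 1), add_sub_cancel_left]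
  have h1 := Ex69_le (μ := μ) (s := s) (Ω := Ω) (R := Set.univ) (R' := St μ s (ρ + 1) ((t : ℤ), x)) hsub (η := η) (t := (t : ℤ)) (x := x)
    (n := k) (G := fun j u => MF69 μ s Set.univ η ((t : ℤ) + j, u) (k - j) (fun _ => 1)) (g := Real.exp b)
    (by
      intro j u hj hjk _ hX
      obtain ⟨v, -, hv⟩ := Finset.exists_ne_zero_of_sum_ne_zero hX
      have hv1' := left_ne_zero_of_mul hv
      have hv2 := right_ne_zero_of_mul hv
      have hδ : u - v = 0 ∨ u - v = 1 := by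
        by_contra hcon
        exact hv2 (WR_off _ _ _ (by
          intro h
          push_cast at h
          omega))
      have hlv : |((v - x : ℤ) : ℝ) - sl μ s * ((j - 1 : ℕ) : ℝ)| ≤ ρ := by
        rcases Nat.eq_zero_or_pos (j - 1) with h0' | h0'
        · rw [h0'] at hv1' ⊢
          rw [WR_steps0] at hv1'
          have : v = x := by
            by_contra hne
            exact hv1' (if_neg (by omega))
          rw [this]
          simpa using hρ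
        · by_contra hcon
          refine hv1' (WR_last_off (μ := μ) (s := s) η ((t : ℤ), x) h0' ?_)
          have e1 : ((((t : ℤ), x) : Pt).1 + ((j - 1 : ℕ) : ℤ), (((t : ℤ), x) : Pt).2 + (v - x)) = (((t : ℤ) + ((j - 1 : ℕ) : ℤ), v) : Pt) := by
            ext
            · rfl
            · show x + (v - x) = v
              ring
          rw [e1, mΩ]
          exact hcon
      rw [mΩ1]
      have ej : (j : ℝ) = ((j - 1 : ℕ) : ℝ) + 1 := by
        have : j = (j - 1) + 1 := by omega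
        exact_mod_cast this
      have eu : ((u - x : ℤ) : ℝ) - sl μ s * j = (((v - x : ℤ) : ℝ) - sl μ s * ((j - 1 : ℕ) : ℝ)) + (((u - v : ℤ) : ℝ) - sl μ s) := by
        rw [ej]
        push_cast
        ring
      rw [eu]
      refine (abs_add_le _ _).trans (add_le_add hlv ?_)
      rw [abs_le]
      rcases hδ with h2 | h2
      · rw [h2]; push_cast; constructor <;> linarith
      · rw [h2]; push_cast; constructor <;> linarith)
    (Real.exp_pos _).le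
    (by
      intro j u hj hjk _ hm
      rw [mΩ1] at hm
      have e1 : (((t : ℤ) + (j : ℤ), u) : Pt) = (((t + j : ℕ) : ℤ), u) := by push_cast; rfl
      have hlat : |(u : ℝ) - sl μ s * ((t + j : ℕ) : ℝ)| ≤ D := by
        have e2 : (u : ℝ) - sl μ s * ((t + j : ℕ) : ℝ) = ((x : ℝ) - sl μ s * t) + (((u - x : ℤ) : ℝ) - sl μ s * j) := by
          push_cast
          ring
        rw [e2]
        refine (abs_add_le _ _).trans ?_
        linarith
      show MF69 μ s Set.univ η (((t : ℤ) + (j : ℤ), u) : Pt) (k - j) (fun _ => 1) ≤ Real.exp b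
      rw [e1, MF69_cS]
      exact (hη (t + j) (k - j) u (by omega) (by omega) hlat).1)
  refine h1.trans ?_
  have hxD : |(x : ℝ) - sl μ s * t| ≤ D := by linarith
  have h2 : ∑ j ∈ Finset.range k, ∑ u ∈ Finset.Icc x (x + (j + 1 : ℕ)),
      (open Classical in if (((t : ℤ) + (j + 1 : ℕ), u) : Pt) ∈ Ω then 0 else
        WR μ s (St μ s (ρ + 1) ((t : ℤ), x)) η ((t : ℤ), x) (j + 1) (u - x)) ≤ k * ((k + 1) * Real.exp (b - h * ρ)) := by
    have h3 : ∀ j ∈ Finset.range k, ∑ u ∈ Finset.Icc x (x + (j + 1 : ℕ)),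
        (open Classical in if (((t : ℤ) + (j + 1 : ℕ), u) : Pt) ∈ Ω then 0 else
          WR μ s (St μ s (ρ + 1) ((t : ℤ), x)) η ((t : ℤ), x) (j + 1) (u - x)) ≤ (k + 1) * Real.exp (b - h * ρ) := by
      intro j hj
      rw [Finset.mem_range] at hj
      have h4 : ∀ u ∈ Finset.Icc x (x + (j + 1 : ℕ)), (open Classical in if (((t : ℤ) + (j + 1 : ℕ), u) : Pt) ∈ Ω then 0 else
          WR μ s (St μ s (ρ + 1) ((t : ℤ), x)) η ((t : ℤ), x) (j + 1) (u - x)) ≤ Real.exp (b - h * ρ) := by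
        intro u _
        split_ifs with hm
        · exact (Real.exp_pos _).le
        · rw [mΩ, not_le] at hm
          refine (WR_le_W _ _ _ _ _).trans (((hη t (j + 1) x (by omega) (by omega) hxD).2 (u - x)).trans (Real.exp_le_exp.2 ?_))
          have h5 := mul_le_mul_of_nonneg_left hm.le h0
          linarith
      refine (Finset.sum_le_sum h4).trans ?_
      rw [Finset.sum_const, nsmul_eq_mul]
      refine mul_le_mul_of_nonneg_right ?_ (Real.exp_pos _).le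
      rw [Int.card_Icc]
      have h5 : (x + ((j + 1 : ℕ) : ℤ) + 1 - x).toNat ≤ k + 1 := by omega
      exact_mod_cast h5
    refine (Finset.sum_le_sum h3).trans ?_
    rw [Finset.sum_const, nsmul_eq_mul, Finset.card_range]
  refine (mul_le_mul_of_nonneg_left h2 (Real.exp_pos b).le).trans (le_of_eq ?_)
  have e1 : Real.exp (2 * b - h * ρ) = Real.exp b * Real.exp (b - h * ρ) := by
    rw [← Real.exp_add]
    congr 1
    ring
  rw [e1]
  ring

/-- **JUMP.** -/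
theorem jump_PW69 [IsProbabilityMeasure μ] (hv0 : 0 ≤ sl μ s) (hv1 : sl μ s ≤ 1) {h : ℝ} (h0 : 0 ≤ h) {n N m : ℕ} {D b ρ ωW Y : ℝ} {η : Env}
    (hη : η ∈ PW69 μ s Set.univ h (N * n) m D b) (hρ : 0 ≤ ρ) (hnm : n ≤ m) (hD : ωW + ρ + 1 ≤ D)
    (hY : (n : ℝ) * (n + 1) * Real.exp (2 * b - h * ρ) ≤ Real.exp (-Y)) : JUMP20 μ s ωW ρ n N Y η := by
  intro i z hi hz
  have h1 : i * n + n ≤ N * n := by
    have := Nat.mul_le_mul_right n (show i + 1 ≤ N from hi)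
    linarith
  exact (leave_PW69 hv0 hv1 h0 hη hρ h1 hnm (by linarith)).trans hY

/-- **The data of the walls.** -/
theorem wal_PW69 [IsProbabilityMeasure μ] (hv0 : 0 ≤ sl μ s) (hv1 : sl μ s ≤ 1) {h h' : ℝ} (h0 : 0 ≤ h') {n N : ℕ}
    {D ω ωW ρ α κ b₁ b₂ Y : ℝ} {l : ι → ℕ → ℝ} {η : Env} (hn : 1 ≤ n)
    (h1 : η ∈ PW69 μ s Set.univ h (N * n) (N * n) D b₁) (h2 : η ∈ PW69 μ s Set.univ h' (N * n) (2 * n) D b₂) (hb : 0 ≤ b₁)
    (hρ : 0 ≤ ρ) (hκ : κ + 2 * ρ ≤ ωW) (hωW : ωW ≤ ω) (hωρ : ωW + ρ + 1 ≤ D) (hωD : ω ≤ D)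
    (hlane : ∀ (j : ι) (i : ℕ), i ≤ N → |l j i - sl μ s * (i * n : ℕ)| + α < ωW - ρ)
    (hW : WALL20 μ s ωW ρ α n N Y l η) (y1 : b₂ - h' * ρ ≤ -Y) (y2 : (n : ℝ) * (n + 1) * Real.exp (2 * b₂ - h' * ρ) ≤ Real.exp (-Y)) :
    Wal69 μ s η n N ω ωW ρ α κ Y b₁ l :=
  ⟨hn, hb, hωW, hκ, hρ, fun t j x htj hx => (h1 t j x htj (by omega) (le_trans hx hωD)).1,
    fun t j x htj hj hx y hy => ((h2 t j x htj hj (le_trans hx hωD)).2 y).trans (Real.exp_le_exp.2 (by
      have := mul_le_mul_of_nonneg_left hy h0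
      linarith)),
    jump_PW69 hv0 hv1 h0 h2 hρ (by omega) hωρ y2, hW, hlane⟩

/-- Only the rows `(0, T]` matter. -/
theorem PW69_rows [IsProbabilityMeasure μ] {R R' : Set Pt} {h : ℝ} {T m : ℕ} {D b : ℝ} (hR : ∀ p : Pt, 0 < p.1 → p.1 ≤ T → (p ∈ R ↔ p ∈ R')) :
    PW69 μ s R h T m D b = PW69 μ s R' h T m D b := by
  have key : ∀ (η : Env) (t j : ℕ) (x y : ℤ), t + j ≤ T → WR μ s R η ((t : ℤ), x) j y = WR μ s R' η ((t : ℤ), x) j y := by
    intro η t j x y htj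
    refine WR_congr' (μ := μ) (s := s) η ((t : ℤ), x) j y fun p hp hp' => hR p ?_ ?_
    · have h1 : (t : ℤ) < p.1 := hp
      omega
    · have h1 : p.1 ≤ (t : ℤ) + j := hp'
      have h2 : ((t + j : ℕ) : ℤ) ≤ T := by exact_mod_cast htj
      push_cast at h2
      omega
  ext η
  have hc : ∀ (t j : ℕ) (x : ℤ), t + j ≤ T → cS μ s R η ((t : ℤ), x) j = cS μ s R' η ((t : ℤ), x) j := fun t j x htj =>
    Finset.sum_congr rfl fun y _ => key η t j x y htj
  constructor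
  · intro hη t j x h1 h2 h3
    rw [← hc t j x h1]
    refine ⟨(hη t j x h1 h2 h3).1, fun y => ?_⟩
    rw [← key η t j x y h1]
    exact (hη t j x h1 h2 h3).2 y
  · intro hη t j x h1 h2 h3
    rw [hc t j x h1]
    refine ⟨(hη t j x h1 h2 h3).1, fun y => ?_⟩
    rw [key η t j x y h1]
    exact (hη t j x h1 h2 h3).2 y

end

end Pool.Agent.W_7d29a1_C1
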