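import Pool.Agent.W_7d29a1_C1.Out77

/-!
Both halves (MP_7d29a1_pr), attractor route: THE CHAIN WITH BOXES, GREEDY BLOCKS, A SUCCESS MAY SPOIL `k` BLOCKS. (helper77,
after helper28's BoxC28)

Leaves `q ∈ L` with weights `W q ≥ 0`, `∑ W q ≤ C₀`. `anc t q` = the box of level `t` of the leaf. For every leaf: `V q t` usable,
`S q t` block event, `Y q t` inside abnormal, `X q t` = something of the ball reaches its outer end. `R t Q η ω` = the ball of the
box `Q` of level `t` is taken from `η`. Step `t` is done only where `t` is chosen (`GD`); the ball is resampled as a whole: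

* `bY`, `bX` : an old filling off `X` and a success filling `F`: the success is more abnormal for the chosen scales further
  outside, `X` at most `k` times;
* `cmp` : a fresh ball is in `F` and has total weight of the box, on the average, at least `b`;
* `num` : `c (1 + c)^k C₀ ≤ b`.

Then `∑ ∫ W q GO ≤ ∑ ∫ W q` and `(1 + c)^r ∑_q ∫_(no chosen normal success, #(GD ∩ X) + r ≤ #GD) W q ≤ C₀`. No error term.
-/

set_option autoImplicit false

namespace Pool.Agent.W_7d29a1_C1.H77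

open MeasureTheory
open scoped ENNReal

variable {Z Λ β : Type*} [MeasurableSpace Z] [DecidableEq β] {P : Measure Z}

/-- The data of the chain. -/
structure BoxG (P : Measure Z) (L : Finset Λ) (M m k : ℕ) (anc : ℕ → Λ → β) (R : ℕ → β → Z → Z → Z)
    (V S Y X : Λ → ℕ → Set Z) (F : ℕ → β → Set Z) (W : Λ → Z → ℝ≥0∞) (c C₀ b : ℝ≥0∞) : Prop where
  mp : ∀ t < m, ∀ Q, MeasurePreserving (fun w : Z × Z => R t Q w.1 w.2) (P.prod P) P
  mV : ∀ q ∈ L, ∀ t < m, MeasurableSet (V q t)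
  mS : ∀ q ∈ L, ∀ t < m, MeasurableSet (S q t)
  mY : ∀ q ∈ L, ∀ t < m, MeasurableSet (Y q t)
  mX : ∀ q ∈ L, ∀ t < m, MeasurableSet (X q t)
  mF : ∀ t < m, ∀ Q, MeasurableSet (F t Q)
  mW : ∀ q ∈ L, Measurable (W q)
  sW : ∀ z, ∑ q ∈ L, W q z ≤ C₀
  /-- the events `V`, `S` of level `u ≥ t` belong to the box of level `t` -/
  eqV : ∀ t < m, ∀ q ∈ L, ∀ q' ∈ L, anc t q = anc t q' → ∀ u, t ≤ u → u < m → V q u = V q' u
  eqS : ∀ t < m, ∀ q ∈ L, ∀ q' ∈ L, anc t q = anc t q' → ∀ u, t ≤ u → u < m → S q u = S q' u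
  bV : ∀ t < m, ∀ q ∈ L, ∀ u, t ≤ u → u < m → ∀ η ω, R t (anc t q) η ω ∈ V q u ↔ ω ∈ V q u
  bS : ∀ t < m, ∀ q ∈ L, ∀ u, t + M ≤ u → u < m → ∀ η ω, R t (anc t q) η ω ∈ S q u ↔ ω ∈ S q u
  bY : ∀ t < m, ∀ q ∈ L, ∀ q' ∈ L, anc t q = anc t q' → ∀ η η' ω, ω ∈ GD M m (V q) t → R t (anc t q) η ω ∉ X q t →
    R t (anc t q) η' ω ∈ F t (anc t q) → ∀ u, t + M ≤ u → u < m → R t (anc t q) η ω ∈ Y q u → R t (anc t q) η' ω ∈ Y q' u
  bX : ∀ t < m, ∀ q ∈ L, ∀ q' ∈ L, anc t q = anc t q' → ∀ η η' ω, ω ∈ GD M m (V q) t → R t (anc t q) η ω ∉ X q t →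
    R t (anc t q) η' ω ∈ F t (anc t q) → ∃ T : Finset ℕ, T.card ≤ k ∧ ∀ u, t + M ≤ u → u < m →
      R t (anc t q) η' ω ∈ X q' u → R t (anc t q) η ω ∉ X q u → u ∈ T
  /-- the success filling -/
  suc : ∀ t < m, ∀ q ∈ L, ∀ η ω, R t (anc t q) η ω ∈ F t (anc t q) → R t (anc t q) η ω ∈ S q t ∧ R t (anc t q) η ω ∉ Y q t
  cmp : ∀ t < m, ∀ q0 ∈ L, ∀ ω ∈ GD M m (V q0) t, b ≤ ∫⁻ η in {η | R t (anc t q0) η ω ∈ F t (anc t q0)},
    ∑ q ∈ L.filter (fun q => anc t q = anc t q0), W q (R t (anc t q0) η ω) ∂P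
  num : c * (1 + c) ^ k * C₀ ≤ b
  ct : c ≠ ∞

theorem measurable_fo {M m : ℕ} {V S Y X : ℕ → Set Z} (hV : ∀ t < m, MeasurableSet (V t))
    (hS : ∀ t < m, MeasurableSet (S t)) (hY : ∀ t < m, MeasurableSet (Y t)) (hX : ∀ t < m, MeasurableSet (X t)) (c : ℝ≥0∞)
    {t : ℕ} (ht : t < m) : Measurable (fo M m V S Y X c t) := by
  classical
  have g := measurableSet_GD (M := M) hV t
  unfold fo
  refine Measurable.mul (Measurable.ite (measurableSet_JO hV hS hY t) measurable_const measurable_const) ?_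
  exact Measurable.mul (Measurable.ite g measurable_const measurable_const)
    (Measurable.ite (g.inter (hX t ht)) measurable_const measurable_const)

theorem measurable_GO {M m : ℕ} {V S Y X : ℕ → Set Z} (hV : ∀ t < m, MeasurableSet (V t))
    (hS : ∀ t < m, MeasurableSet (S t)) (hY : ∀ t < m, MeasurableSet (Y t)) (hX : ∀ t < m, MeasurableSet (X t)) (c : ℝ≥0∞)
    (t : ℕ) : Measurable (GO M m V S Y X c t) := by
  unfold GO
  exact Finset.measurable_prod _ fun j hj => measurable_fo hV hS hY hX c (Finset.mem_Ico.1 hj).2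

omit [MeasurableSpace Z] in
theorem fo_not {M m : ℕ} {V S Y X : ℕ → Set Z} {c : ℝ≥0∞} {t : ℕ} {z : Z} (h : z ∉ GD M m V t) :
    fo M m V S Y X c t z = 1 := by
  classical
  unfold fo
  rw [if_neg (fun hh => h hh.1), if_neg h, if_neg (fun hh => h hh.1), mul_one, mul_one]

omit [MeasurableSpace Z] in
theorem fo_X {M m : ℕ} {V S Y X : ℕ → Set Z} {c : ℝ≥0∞} {t : ℕ} {z : Z} (h : z ∈ X t) : fo M m V S Y X c t z ≤ 1 := by
  classical
  by_cases hg : z ∈ GD M m V t
  · unfold fo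
    rw [if_pos hg, if_pos (show z ∈ GD M m V t ∩ X t from ⟨hg, h⟩)]
    have h0 : (if z ∈ JO M m V S Y t then (0 : ℝ≥0∞) else 1) ≤ 1 := by split_ifs <;> simp
    calc _ ≤ 1 * ((1 + c) * (1 + c)⁻¹) := mul_le_mul_left h0 _
      _ ≤ 1 := by
          rw [one_mul]
          exact ENNReal.mul_inv_le_one _
  · rw [fo_not hg]

omit [MeasurableSpace Z] in
theorem fo_le {M m : ℕ} {V S Y X : ℕ → Set Z} {c : ℝ≥0∞} {t : ℕ} {z : Z} : fo M m V S Y X c t z ≤ 1 + c := by
  classical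
  unfold fo
  calc _ ≤ 1 * ((1 + c) * 1) := by
        gcongr
        · split_ifs <;> simp
        · split_ifs <;> simp
        · split_ifs
          · exact ENNReal.inv_le_one.2 le_self_add
          · exact le_rfl
    _ = 1 + c := by rw [one_mul, mul_one]

omit [MeasurableSpace Z] in
theorem fo_J {M m : ℕ} {V S Y X : ℕ → Set Z} {c : ℝ≥0∞} {t : ℕ} {z : Z} (h : z ∈ JO M m V S Y t) :
    fo M m V S Y X c t z = 0 := by
  classical
  unfold fo
  rw [if_pos h, zero_mul]

namespace BoxG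

variable {L : Finset Λ} {M m k : ℕ} {anc : ℕ → Λ → β} {R : ℕ → β → Z → Z → Z} {V S Y X : Λ → ℕ → Set Z}
  {F : ℕ → β → Set Z} {W : Λ → Z → ℝ≥0∞} {c C₀ b : ℝ≥0∞}

omit [DecidableEq β] in
theorem spoil [DecidableEq β] (h : BoxG P L M m k anc R V S Y X F W c C₀ b) {t : ℕ} (ht : t < m) {q q' : Λ} (hq : q ∈ L)
    (hq' : q' ∈ L) (hqq : anc t q = anc t q') {η η' ω : Z} (hg : ω ∈ GD M m (V q) t) (h1 : R t (anc t q) η ω ∉ X q t)
    (h2 : R t (anc t q) η' ω ∈ F t (anc t q)) :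
    GO M m (V q) (S q) (Y q) (X q) c (t + 1) (R t (anc t q) η ω) ≤
      (1 + c) ^ k * GO M m (V q') (S q') (Y q') (X q') c (t + 1) (R t (anc t q) η' ω) := by
  classical
  have eV : ∀ u, t ≤ u → u < m → (R t (anc t q) η ω ∈ V q u ↔ R t (anc t q) η' ω ∈ V q' u) := by
    intro u hu hum
    rw [h.bV t ht q hq u hu hum η ω]
    have := h.bV t ht q' hq' u hu hum η' ω
    rw [← hqq] at this
    rw [this, h.eqV t ht q hq q' hq' hqq u hu hum]
  have hz : R t (anc t q) η ω ∈ GD M m (V q) t :=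
    (GD_congr (V := V q) (z := R t (anc t q) η ω) (z' := ω) fun u hu hum => h.bV t ht q hq u hu hum η ω).2 hg
  obtain ⟨T, hT, hT'⟩ := h.bX t ht q hq q' hq' hqq η η' ω hg h1 h2
  refine GO_spoil h.ct hz eV ?_ (fun u hu hum hy => h.bY t ht q hq q' hq' hqq η η' ω hg h1 h2 u hu hum hy) ?_
  · intro u hu hum
    rw [h.bS t ht q hq u hu hum η ω]
    have := h.bS t ht q' hq' u hu hum η' ω
    rw [← hqq] at this
    rw [this, h.eqS t ht q hq q' hq' hqq u (by omega) hum]
  · refine (Finset.card_le_card fun u hu => ?_).trans hT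
    obtain ⟨hu1, ⟨hu2, hu3⟩, hu4⟩ := Finset.mem_filter.1 hu
    obtain ⟨hu5, hu6⟩ := Finset.mem_Ico.1 hu1
    have eG : R t (anc t q) η ω ∈ GD M m (V q) u ↔ R t (anc t q) η' ω ∈ GD M m (V q') u := by
      unfold GD
      exact grd_congr fun v hv hvm => eV v (by omega) hvm
    have hz' : R t (anc t q) η' ω ∈ GD M m (V q') t := by
      have : R t (anc t q) η ω ∈ GD M m (V q) t ↔ R t (anc t q) η' ω ∈ GD M m (V q') t := by
        unfold GD
        exact grd_congr fun v hv hvm => eV v hv hvm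
      exact this.1 hz
    have huM : t + M ≤ u := by
      by_contra hcc
      exact GD_sep hz' (by omega) (by omega) hu2
    exact hT' u huM hu6 hu3 fun hx => hu4 ⟨eG.2 hu2, hx⟩

/-- **One box.** -/
theorem box [IsProbabilityMeasure P] (h : BoxG P L M m k anc R V S Y X F W c C₀ b) {t : ℕ} (ht : t < m) {q0 : Λ}
    (hq0 : q0 ∈ L) :
    ∑ q ∈ L.filter (fun q => anc t q = anc t q0), ∫⁻ ω, W q ω * GO M m (V q) (S q) (Y q) (X q) c t ω ∂P ≤
      ∑ q ∈ L.filter (fun q => anc t q = anc t q0), ∫⁻ ω, W q ω * GO M m (V q) (S q) (Y q) (X q) c (t + 1) ω ∂P := by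
  classical
  set Q := anc t q0 with hQ
  set LQ := L.filter (fun q => anc t q = Q) with hLQ
  have hmem : ∀ q ∈ LQ, q ∈ L ∧ anc t q = Q := fun q hq => Finset.mem_filter.1 hq
  have hmp := h.mp t ht Q
  have hmR : Measurable (fun w : Z × Z => R t Q w.1 w.2) := hmp.measurable
  have conv : ∀ f : Z → ℝ≥0∞, Measurable f → ∫⁻ ω, f ω ∂P = ∫⁻ ω, ∫⁻ η, f (R t Q η ω) ∂P ∂P := by
    intro f hf
    rw [← hmp.lintegral_comp hf]
    exact lintegral_prod_symm' (fun w : Z × Z => f (R t Q w.1 w.2)) (hf.comp hmR)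
  have hRω : ∀ ω, Measurable fun η => R t Q η ω := fun ω => hmR.comp (measurable_id.prodMk measurable_const)
  have mG : ∀ q ∈ L, ∀ i, Measurable (GO M m (V q) (S q) (Y q) (X q) c i) := fun q hq i =>
    measurable_GO (h.mV q hq) (h.mS q hq) (h.mY q hq) (h.mX q hq) c i
  have eG : ∀ q ω, GO M m (V q) (S q) (Y q) (X q) c t ω =
      fo M m (V q) (S q) (Y q) (X q) c t ω * GO M m (V q) (S q) (Y q) (X q) c (t + 1) ω := by
    intro q ω
    unfold GO
    rw [Finset.prod_eq_prod_Ico_succ_bot ht]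
  have cc : ∀ i, ∑ q ∈ LQ, ∫⁻ ω, W q ω * GO M m (V q) (S q) (Y q) (X q) c i ω ∂P =
      ∫⁻ ω, ∑ q ∈ LQ, ∫⁻ η, W q (R t Q η ω) * GO M m (V q) (S q) (Y q) (X q) c i (R t Q η ω) ∂P ∂P := by
    intro i
    rw [lintegral_finsetSum _ fun q hq => ?_]
    · exact Finset.sum_congr rfl fun q hq => conv _ ((h.mW q (hmem q hq).1).mul (mG q (hmem q hq).1 i))
    · exact (((h.mW q (hmem q hq).1).mul (mG q (hmem q hq).1 i)).comp (hmR.comp measurable_swap)).lintegral_prod_right'
  rw [cc, cc]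
  refine lintegral_mono fun ω => ?_
  have mW' : ∀ q ∈ LQ, Measurable fun η => W q (R t Q η ω) := fun q hq => (h.mW q (hmem q hq).1).comp (hRω ω)
  have mG' : ∀ q ∈ LQ, ∀ i, Measurable fun η => GO M m (V q) (S q) (Y q) (X q) c i (R t Q η ω) := fun q hq i =>
    (mG q (hmem q hq).1 i).comp (hRω ω)
  -- all the leaves of the box have the same usable scales
  have hVq : ∀ q ∈ LQ, ∀ z z' : Z, (∀ u, t ≤ u → u < m → (z ∈ V q0 u ↔ z' ∈ V q0 u)) →
      (z ∈ GD M m (V q) t ↔ z' ∈ GD M m (V q0) t) := by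
    intro q hq z z' hz
    unfold GD
    refine grd_congr fun u hu hum => ?_
    rw [← h.eqV t ht q0 hq0 q (hmem q hq).1 ((hmem q hq).2.symm ▸ rfl) u hu hum]
    exact hz u hu hum
  have hgd : ∀ q ∈ LQ, ∀ η, R t Q η ω ∈ GD M m (V q) t ↔ ω ∈ GD M m (V q0) t := fun q hq η =>
    hVq q hq _ _ fun u hu hum => h.bV t ht q0 hq0 u hu hum η ω
  by_cases hg : ω ∈ GD M m (V q0) t
  · -- the scale is chosen
    have hgq : ∀ q ∈ LQ, ω ∈ GD M m (V q) t := fun q hq => (hVq q hq ω ω fun _ _ _ => Iff.rfl).2 hg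
    have mF : MeasurableSet {η | R t Q η ω ∈ F t Q} := (hRω ω) (h.mF t ht Q)
    have mXq : ∀ q ∈ LQ, MeasurableSet {η | R t Q η ω ∉ X q t} := fun q hq =>
      (hRω ω) (h.mX q (hmem q hq).1 t ht).compl
    -- the supremum over the old normal fillings
    set A : ℝ≥0∞ := ⨆ q ∈ LQ, ⨆ η ∈ {η | R t Q η ω ∉ X q t}, GO M m (V q) (S q) (Y q) (X q) c (t + 1) (R t Q η ω) with hA
    have hA1 : ∀ q ∈ LQ, ∀ η, R t Q η ω ∉ X q t → GO M m (V q) (S q) (Y q) (X q) c (t + 1) (R t Q η ω) ≤ A := by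
      intro q hq η hη
      rw [hA]
      exact le_iSup₂_of_le q hq (le_iSup₂_of_le η hη le_rfl)
    have hA2 : ∀ q' ∈ LQ, ∀ η', R t Q η' ω ∈ F t Q →
        A ≤ (1 + c) ^ k * GO M m (V q') (S q') (Y q') (X q') c (t + 1) (R t Q η' ω) := by
      intro q' hq' η' hη'
      rw [hA]
      refine iSup₂_le fun q hq => iSup₂_le fun η hη => ?_
      have hη1 : R t Q η ω ∉ X q t := hη
      obtain ⟨a1, a2⟩ := hmem q hq
      obtain ⟨a3, a4⟩ := hmem q' hq'
      have := h.spoil ht a1 a3 (a2.trans a4.symm) (η := η) (η' := η') (ω := ω) (hgq q hq) (by rw [a2]; exact hη1)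
        (by rw [a2]; exact hη')
      rwa [a2] at this
    -- pointwise bound of the old side
    have p1 : ∀ q ∈ LQ, ∀ η, W q (R t Q η ω) * GO M m (V q) (S q) (Y q) (X q) c t (R t Q η ω) ≤
        {η | R t Q η ω ∈ F t Q}ᶜ.indicator
          (fun η => W q (R t Q η ω) * GO M m (V q) (S q) (Y q) (X q) c (t + 1) (R t Q η ω)) η + c * A * W q (R t Q η ω) := by
      intro q hq η
      obtain ⟨a1, a2⟩ := hmem q hq
      rw [eG]
      by_cases hF : R t Q η ω ∈ F t Q
      · have hs := h.suc t ht q a1 η ω (by rw [a2]; exact hF)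
        rw [a2] at hs
        have hJ : R t Q η ω ∈ JO M m (V q) (S q) (Y q) t := ⟨(hgd q hq η).2 hg, hs.1, hs.2⟩
        rw [fo_J hJ, zero_mul, mul_zero]
        exact zero_le
      · rw [Set.indicator_of_mem (show η ∈ {η | R t Q η ω ∈ F t Q}ᶜ from hF)]
        by_cases hX : R t Q η ω ∈ X q t
        · refine le_add_right ?_
          refine mul_le_mul_right ?_ _
          calc _ ≤ 1 * GO M m (V q) (S q) (Y q) (X q) c (t + 1) (R t Q η ω) := mul_le_mul_left (fo_X hX) _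
            _ = _ := one_mul _
        · calc W q (R t Q η ω) * (fo M m (V q) (S q) (Y q) (X q) c t (R t Q η ω) *
                GO M m (V q) (S q) (Y q) (X q) c (t + 1) (R t Q η ω))
              ≤ W q (R t Q η ω) * ((1 + c) * GO M m (V q) (S q) (Y q) (X q) c (t + 1) (R t Q η ω)) := by
                gcongr
                exact fo_le
            _ = W q (R t Q η ω) * GO M m (V q) (S q) (Y q) (X q) c (t + 1) (R t Q η ω) +
                c * GO M m (V q) (S q) (Y q) (X q) c (t + 1) (R t Q η ω) * W q (R t Q η ω) := by ring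
            _ ≤ _ := by
                gcongr
                exact hA1 q hq η hX
    -- the gain
    have hg1 : (1 + c) ^ k ≠ ∞ := ENNReal.pow_ne_top (ENNReal.add_ne_top.2 ⟨ENNReal.one_ne_top, h.ct⟩)
    have hg0 : (1 + c) ^ k ≠ 0 := by positivity
    have p2 : c * A * C₀ ≤ ∑ q ∈ LQ, ∫⁻ η in {η | R t Q η ω ∈ F t Q},
        W q (R t Q η ω) * GO M m (V q) (S q) (Y q) (X q) c (t + 1) (R t Q η ω) ∂P := by
      have e1 : ((1 + c) ^ k)⁻¹ * A * b ≤ ∑ q ∈ LQ, ∫⁻ η in {η | R t Q η ω ∈ F t Q},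
          W q (R t Q η ω) * GO M m (V q) (S q) (Y q) (X q) c (t + 1) (R t Q η ω) ∂P := by
        calc ((1 + c) ^ k)⁻¹ * A * b
            ≤ ((1 + c) ^ k)⁻¹ * A * ∫⁻ η in {η | R t Q η ω ∈ F t Q}, ∑ q ∈ LQ, W q (R t Q η ω) ∂P := by
              gcongr
              exact h.cmp t ht q0 hq0 ω hg
          _ = ∑ q ∈ LQ, ∫⁻ η in {η | R t Q η ω ∈ F t Q}, (((1 + c) ^ k)⁻¹ * A) * W q (R t Q η ω) ∂P := by
              rw [lintegral_finsetSum _ fun q hq => mW' q hq, Finset.mul_sum]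
              refine Finset.sum_congr rfl fun q hq => ?_
              rw [lintegral_const_mul _ (mW' q hq)]
          _ ≤ _ := by
              refine Finset.sum_le_sum fun q hq => setLIntegral_mono' mF fun η hη => ?_
              rw [mul_comm]
              refine mul_le_mul_right ?_ _
              calc ((1 + c) ^ k)⁻¹ * A ≤ ((1 + c) ^ k)⁻¹ * ((1 + c) ^ k *
                    GO M m (V q) (S q) (Y q) (X q) c (t + 1) (R t Q η ω)) := by
                    gcongr
                    exact hA2 q hq η hη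
                _ = _ := by rw [← mul_assoc, ENNReal.inv_mul_cancel hg0 hg1, one_mul]
      refine le_trans ?_ e1
      calc c * A * C₀ = ((1 + c) ^ k)⁻¹ * A * (c * (1 + c) ^ k * C₀) := by
            calc c * A * C₀ = (((1 + c) ^ k)⁻¹ * (1 + c) ^ k) * (c * A * C₀) := by
                  rw [ENNReal.inv_mul_cancel hg0 hg1, one_mul]
              _ = _ := by ring
        _ ≤ _ := by
            gcongr
            exact h.num
    have p3 : ∑ q ∈ LQ, ∫⁻ η, W q (R t Q η ω) ∂P ≤ C₀ := by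
      rw [← lintegral_finsetSum _ fun q hq => mW' q hq]
      calc ∫⁻ η, ∑ q ∈ LQ, W q (R t Q η ω) ∂P ≤ ∫⁻ _η, C₀ ∂P := lintegral_mono fun η =>
            (Finset.sum_le_sum_of_subset (Finset.filter_subset _ _)).trans (h.sW _)
        _ = C₀ := by rw [lintegral_const, measure_univ, mul_one]
    calc ∑ q ∈ LQ, ∫⁻ η, W q (R t Q η ω) * GO M m (V q) (S q) (Y q) (X q) c t (R t Q η ω) ∂P
        ≤ ∑ q ∈ LQ, ((∫⁻ η in {η | R t Q η ω ∈ F t Q}ᶜ,
            W q (R t Q η ω) * GO M m (V q) (S q) (Y q) (X q) c (t + 1) (R t Q η ω) ∂P) +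
            c * A * ∫⁻ η, W q (R t Q η ω) ∂P) := by
          refine Finset.sum_le_sum fun q hq => (lintegral_mono fun η => p1 q hq η).trans ?_
          rw [lintegral_add_right _ ((mW' q hq).const_mul _), lintegral_const_mul _ (mW' q hq),
            lintegral_indicator mF.compl]
      _ = ∑ q ∈ LQ, (∫⁻ η in {η | R t Q η ω ∈ F t Q}ᶜ,
            W q (R t Q η ω) * GO M m (V q) (S q) (Y q) (X q) c (t + 1) (R t Q η ω) ∂P) +
            c * A * ∑ q ∈ LQ, ∫⁻ η, W q (R t Q η ω) ∂P := by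
          rw [Finset.sum_add_distrib, ← Finset.mul_sum]
      _ ≤ ∑ q ∈ LQ, (∫⁻ η in {η | R t Q η ω ∈ F t Q}ᶜ,
            W q (R t Q η ω) * GO M m (V q) (S q) (Y q) (X q) c (t + 1) (R t Q η ω) ∂P) +
            ∑ q ∈ LQ, ∫⁻ η in {η | R t Q η ω ∈ F t Q},
              W q (R t Q η ω) * GO M m (V q) (S q) (Y q) (X q) c (t + 1) (R t Q η ω) ∂P := by
          refine add_le_add le_rfl (le_trans ?_ p2)
          gcongr
      _ = _ := by
          rw [← Finset.sum_add_distrib]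
          refine Finset.sum_congr rfl fun q hq => ?_
          rw [add_comm]
          exact lintegral_add_compl _ mF
  · -- not chosen: the factor is one
    refine Finset.sum_le_sum fun q hq => lintegral_mono fun η => ?_
    show W q (R t Q η ω) * _ ≤ _
    rw [eG, fo_not fun hh => hg ((hgd q hq η).1 hh), one_mul]

/-- **One level.** -/
theorem one [IsProbabilityMeasure P] (h : BoxG P L M m k anc R V S Y X F W c C₀ b) {t : ℕ} (ht : t < m) :
    ∑ q ∈ L, ∫⁻ ω, W q ω * GO M m (V q) (S q) (Y q) (X q) c t ω ∂P ≤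
      ∑ q ∈ L, ∫⁻ ω, W q ω * GO M m (V q) (S q) (Y q) (X q) c (t + 1) ω ∂P := by
  classical
  have g : ∀ f : Λ → ℝ≥0∞, ∑ q ∈ L, f q = ∑ Q ∈ L.image (anc t), ∑ q ∈ L.filter (fun q => anc t q = Q), f q :=
    fun f => (Finset.sum_fiberwise_of_maps_to (fun q hq => Finset.mem_image_of_mem _ hq) f).symm
  rw [g, g]
  refine Finset.sum_le_sum fun Q hQ => ?_
  obtain ⟨q0, hq0, rfl⟩ := Finset.mem_image.1 hQ
  exact h.box ht hq0

/-- The whole chain. -/
theorem chain [IsProbabilityMeasure P] (h : BoxG P L M m k anc R V S Y X F W c C₀ b) :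
    ∑ q ∈ L, ∫⁻ ω, W q ω * GO M m (V q) (S q) (Y q) (X q) c 0 ω ∂P ≤ C₀ := by
  have key : ∀ i, i ≤ m → ∑ q ∈ L, ∫⁻ ω, W q ω * GO M m (V q) (S q) (Y q) (X q) c (m - i) ω ∂P ≤ C₀ := by
    intro i
    induction i with
    | zero =>
      intro _
      have e0 : ∀ q ω, GO M m (V q) (S q) (Y q) (X q) c (m - 0) ω = 1 := by
        intro q ω
        unfold GO
        rw [Nat.sub_zero, Finset.Ico_self, Finset.prod_empty]
      simp only [e0, mul_one]
      rw [← lintegral_finsetSum _ fun q hq => h.mW q hq]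
      calc ∫⁻ ω, ∑ q ∈ L, W q ω ∂P ≤ ∫⁻ _ω, C₀ ∂P := lintegral_mono fun ω => h.sW ω
        _ = C₀ := by rw [lintegral_const, measure_univ, mul_one]
    | succ i ih =>
      intro hi
      have h1 := h.one (t := m - (i + 1)) (by omega)
      have e1 : m - (i + 1) + 1 = m - i := by omega
      rw [e1] at h1
      exact h1.trans (ih (by omega))
  have := key m le_rfl
  rwa [Nat.sub_self] at this

end BoxG

open Classical in
/-- No chosen normal success, and the chosen scales exceed those in `X` by `r`. -/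
def BdO {Z : Type*} (M m : ℕ) (V S Y X : ℕ → Set Z) (r : ℕ) : Set Z :=
  {z | (∀ t < m, z ∉ JO M m V S Y t) ∧
    ((Finset.range m).filter fun t => z ∈ GD M m V t ∩ X t).card + r ≤ ((Finset.range m).filter fun t => z ∈ GD M m V t).card}

omit [MeasurableSpace Z] in
theorem GO_ge {M m : ℕ} {V S Y X : ℕ → Set Z} {r : ℕ} {c : ℝ≥0∞} (hc : c ≠ ∞) {z : Z} (hz : z ∈ BdO M m V S Y X r) :
    (1 + c) ^ r ≤ GO M m V S Y X c 0 z := by
  classical
  obtain ⟨h1, h2⟩ := hz
  have hg0 : (1 + c) ≠ 0 := by simp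
  have hg1 : (1 + c) ≠ ∞ := ENNReal.add_ne_top.2 ⟨ENNReal.one_ne_top, hc⟩
  have e1 : GO M m V S Y X c 0 z = (1 + c) ^ ((Finset.range m).filter fun t => z ∈ GD M m V t).card *
      ((1 + c)⁻¹) ^ ((Finset.range m).filter fun t => z ∈ GD M m V t ∩ X t).card := by
    unfold GO
    rw [← Finset.range_eq_Ico]
    have : ∀ j ∈ Finset.range m, fo M m V S Y X c j z =
        (if z ∈ GD M m V j then 1 + c else 1) * (if z ∈ GD M m V j ∩ X j then (1 + c)⁻¹ else 1) := by
      intro j hj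
      unfold fo
      rw [if_neg (h1 j (Finset.mem_range.1 hj)), one_mul]
    rw [Finset.prod_congr rfl this, Finset.prod_mul_distrib, Finset.prod_ite, Finset.prod_ite]
    simp only [Finset.prod_const, one_pow, mul_one]
  rw [e1]
  calc (1 + c) ^ r = (1 + c) ^ (((Finset.range m).filter fun t => z ∈ GD M m V t ∩ X t).card + r) *
        ((1 + c)⁻¹) ^ ((Finset.range m).filter fun t => z ∈ GD M m V t ∩ X t).card := by
        rw [pow_add, mul_comm ((1 + c) ^ _) ((1 + c) ^ r), mul_assoc, ← mul_pow, ENNReal.mul_inv_cancel hg0 hg1,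
          one_pow, mul_one]
    _ ≤ _ := by
        refine mul_le_mul_left (pow_le_pow_right₀ le_self_add ?_) _
        convert h2 using 2

theorem measurableSet_BdO {M m : ℕ} {V S Y X : ℕ → Set Z} (hV : ∀ t < m, MeasurableSet (V t))
    (hS : ∀ t < m, MeasurableSet (S t)) (hY : ∀ t < m, MeasurableSet (Y t)) (hX : ∀ t < m, MeasurableSet (X t)) (r : ℕ) :
    MeasurableSet (BdO M m V S Y X r) := by
  classical
  have card : ∀ T : ℕ → Set Z, (∀ t < m, MeasurableSet (T t)) →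
      Measurable fun z => ((Finset.range m).filter fun t => z ∈ T t).card := by
    intro T hT
    have e : (fun z => ((Finset.range m).filter fun t => z ∈ T t).card) =
        fun z => ∑ t ∈ Finset.range m, (if z ∈ T t then 1 else 0) := by
      funext z
      rw [Finset.card_filter]
    rw [e]
    exact Finset.measurable_sum _ fun t ht =>
      Measurable.ite (hT t (Finset.mem_range.1 ht)) measurable_const measurable_const
  have m1 : MeasurableSet {z | ∀ t < m, z ∉ JO M m V S Y t} := by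
    have : {z | ∀ t < m, z ∉ JO M m V S Y t} = ⋂ t ∈ Finset.range m, (JO M m V S Y t)ᶜ := by
      ext z
      simp only [Set.mem_ofPred_eq, Set.mem_iInter, Finset.mem_range, Set.mem_compl_iff]
    rw [this]
    exact Finset.measurableSet_biInter _ fun t _ => (measurableSet_JO hV hS hY t).compl
  have c1 : Measurable fun z => ((Finset.range m).filter fun t => z ∈ GD M m V t ∩ X t).card + r := by
    have := (card (fun t => GD M m V t ∩ X t) fun t ht => (measurableSet_GD hV t).inter (hX t ht)).add_const r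
    convert this using 3
    congr
  have m2 : MeasurableSet {z | ((Finset.range m).filter fun t => z ∈ GD M m V t ∩ X t).card + r ≤
      ((Finset.range m).filter fun t => z ∈ GD M m V t).card} :=
    measurableSet_le c1 (card (fun t => GD M m V t) fun t _ => measurableSet_GD hV t)
  have : BdO M m V S Y X r = {z | ∀ t < m, z ∉ JO M m V S Y t} ∩
      {z | ((Finset.range m).filter fun t => z ∈ GD M m V t ∩ X t).card + r ≤
        ((Finset.range m).filter fun t => z ∈ GD M m V t).card} := by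
    ext z
    unfold BdO
    simp only [Set.mem_ofPred_eq, Set.mem_inter_iff]
  rw [this]
  exact m1.inter m2

/-- **NO CHOSEN NORMAL SUCCESS IS RARE, SUMMED OVER THE LEAVES.** -/
theorem BoxG.none [IsProbabilityMeasure P] {L : Finset Λ} {M m k : ℕ} {anc : ℕ → Λ → β} {R : ℕ → β → Z → Z → Z}
    {V S Y X : Λ → ℕ → Set Z} {F : ℕ → β → Set Z} {W : Λ → Z → ℝ≥0∞} {c C₀ b : ℝ≥0∞}
    (h : BoxG P L M m k anc R V S Y X F W c C₀ b) (r : ℕ) :
    ∑ q ∈ L, ∫⁻ ω in BdO M m (V q) (S q) (Y q) (X q) r, W q ω ∂P ≤ ((1 + c) ^ r)⁻¹ * C₀ := by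
  have hg0 : (1 + c) ^ r ≠ 0 := by positivity
  have hg1 : (1 + c) ^ r ≠ ∞ := ENNReal.pow_ne_top (ENNReal.add_ne_top.2 ⟨ENNReal.one_ne_top, h.ct⟩)
  have h1 : (1 + c) ^ r * ∑ q ∈ L, ∫⁻ ω in BdO M m (V q) (S q) (Y q) (X q) r, W q ω ∂P ≤ C₀ := by
    refine le_trans ?_ h.chain
    rw [Finset.mul_sum]
    refine Finset.sum_le_sum fun q hq => ?_
    have mB := measurableSet_BdO (M := M) (h.mV q hq) (h.mS q hq) (h.mY q hq) (h.mX q hq) r
    calc (1 + c) ^ r * ∫⁻ ω in BdO M m (V q) (S q) (Y q) (X q) r, W q ω ∂P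
        = ∫⁻ ω in BdO M m (V q) (S q) (Y q) (X q) r, (1 + c) ^ r * W q ω ∂P := by
          rw [lintegral_const_mul _ (h.mW q hq)]
      _ ≤ ∫⁻ ω in BdO M m (V q) (S q) (Y q) (X q) r, W q ω * GO M m (V q) (S q) (Y q) (X q) c 0 ω ∂P := by
          refine setLIntegral_mono' mB fun ω hω => ?_
          rw [mul_comm]
          exact mul_le_mul_right (GO_ge h.ct hω) _
      _ ≤ _ := setLIntegral_le_lintegral _ _
  calc ∑ q ∈ L, ∫⁻ ω in BdO M m (V q) (S q) (Y q) (X q) r, W q ω ∂P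
      = ((1 + c) ^ r)⁻¹ * ((1 + c) ^ r * ∑ q ∈ L, ∫⁻ ω in BdO M m (V q) (S q) (Y q) (X q) r, W q ω ∂P) := by
        rw [← mul_assoc, ENNReal.inv_mul_cancel hg0 hg1, one_mul]
    _ ≤ _ := by gcongr

end Pool.Agent.W_7d29a1_C1.H77
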