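import Pool.Agent.W_7d29a1_C1.LecN17

/-!
Both halves (MP_7d29a1_pr), attractor route: the pairs without joint success, WITHOUT CLASSES (helper17).

The blocks of one pair are the elements of a set `DD i` (`M`-separated, chosen from the usable scales `V i` of both copies, so that
`#V ≤ M #DD`). `grd17`: the sum over all the pairs of the weight of `no success`, from any bound `β` of the bad pairs (no success and
`#X + r ≤ #DD`), the goodness of the levels and the weight of `many unusable scales` of one copy. `grdR17`: real weights.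
-/

set_option autoImplicit false

namespace Pool.Agent.W_7d29a1_C1.Lec17

open MeasureTheory Filter Topology
open Pool.Agent.W_7d29a1_C1.H54 Pool.Agent.W_7d29a1_C1.H77
open scoped ENNReal Classical

noncomputable section

section grd

variable {Ω Ω' : Type*} {M m r q b : ℕ}

/-- Few chosen blocks of the pair: many unusable scales of one of the copies. -/
theorem few_or {DD : ℕ → Set (Ω × Ω')} {V : ℕ → Set Ω} {V' : ℕ → Set Ω'} {n : ℕ} {z : Ω × Ω'}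
    (hM : ((Finset.range m).filter fun i => z.1 ∈ V i ∧ z.2 ∈ V' i).card ≤
      M * ((Finset.range m).filter fun i => z ∈ DD i).card)
    (h : ((Finset.range m).filter fun i => z ∈ DD i).card < n) (hq : M * n + 2 * q ≤ m + 1) (hM0 : 0 < M) :
    z.1 ∈ Nar V m q ∨ z.2 ∈ Nar V' m q := by
  by_contra hc
  rw [not_or] at hc
  have c1 : ((Finset.range m).filter fun i => z.1 ∉ V i).card < q := not_le.1 hc.1
  have c2 : ((Finset.range m).filter fun i => z.2 ∉ V' i).card < q := not_le.1 hc.2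
  have e2 : m ≤ ((Finset.range m).filter fun i => z.1 ∈ V i ∧ z.2 ∈ V' i).card +
      (((Finset.range m).filter fun i => z.1 ∉ V i).card + ((Finset.range m).filter fun i => z.2 ∉ V' i).card) := by
    calc m = (Finset.range m).card := (Finset.card_range m).symm
      _ ≤ (((Finset.range m).filter fun i => z.1 ∈ V i ∧ z.2 ∈ V' i) ∪ (((Finset.range m).filter fun i => z.1 ∉ V i) ∪
          ((Finset.range m).filter fun i => z.2 ∉ V' i))).card := by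
          refine Finset.card_le_card fun i hi => ?_
          by_cases a : z.1 ∈ V i
          · by_cases b : z.2 ∈ V' i
            · exact Finset.mem_union_left _ (Finset.mem_filter.2 ⟨hi, a, b⟩)
            · exact Finset.mem_union_right _ (Finset.mem_union_right _ (Finset.mem_filter.2 ⟨hi, b⟩))
          · exact Finset.mem_union_right _ (Finset.mem_union_left _ (Finset.mem_filter.2 ⟨hi, a⟩))
      _ ≤ _ := (Finset.card_union_le _ _).trans (Nat.add_le_add_left (Finset.card_union_le _ _) _)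
  have e3 : M * ((Finset.range m).filter fun i => z ∈ DD i).card + M ≤ M * n := by
    calc _ = M * (((Finset.range m).filter fun i => z ∈ DD i).card + 1) := by ring
      _ ≤ M * n := Nat.mul_le_mul_left _ h
  omega

variable [MeasurableSpace Ω] [MeasurableSpace Ω'] {P : Measure Ω} {P' : Measure Ω'}
  {ι ι' : Type*} {I : Finset ι} {I' : Finset ι'} {f : ι → Ω → ℝ≥0∞} {g : ι' → Ω' → ℝ≥0∞}
  {τ ν β : ℝ≥0∞}

omit [MeasurableSpace Ω] [MeasurableSpace Ω'] in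
theorem sub_grd {J DD XX : ℕ → Set (Ω × Ω')} {V : ℕ → Set Ω} {V' : ℕ → Set Ω'} (hM0 : 0 < M)
    (hM : ∀ z : Ω × Ω', ((Finset.range m).filter fun i => z.1 ∈ V i ∧ z.2 ∈ V' i).card ≤
      M * ((Finset.range m).filter fun i => z ∈ DD i).card) {G : Set (Ω × Ω')}
    (hG : ∀ z ∈ G, ((Finset.range m).filter fun i => z ∈ XX i).card ≤ b) (hq : M * (b + r) + 2 * q ≤ m + 1) :
    {z | ∀ i < m, z ∉ J i} ⊆ Bd J DD XX m r ∪ (Gᶜ ∪ ((Nar V m q ×ˢ Set.univ) ∪ (Set.univ ×ˢ Nar V' m q))) := by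
  intro z hz
  by_cases hb : z ∈ Bd J DD XX m r
  · exact Or.inl hb
  right
  by_cases hg : z ∈ G
  · right
    have h3 : ((Finset.range m).filter fun i => z ∈ DD i).card < b + r := by
      by_contra hc
      refine hb ⟨hz, ?_⟩
      have := hG z hg
      omega
    rcases few_or (hM z) h3 hq hM0 with h4 | h4
    · exact Or.inl ⟨h4, trivial⟩
    · exact Or.inr ⟨trivial, h4⟩
  · exact Or.inl hg

/-- **ALL THE PAIRS, no classes.** -/
theorem grd17 [IsProbabilityMeasure P] [IsProbabilityMeasure P'] (mf : ∀ k ∈ I, Measurable (f k))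
    (mg : ∀ k ∈ I', Measurable (g k)) (f1 : ∀ ω, ∑ k ∈ I, f k ω ≤ 1) (g1 : ∀ ω, ∑ k ∈ I', g k ω ≤ 1)
    {J DD XX : ι → ι' → ℕ → Set (Ω × Ω')}
    (hβ : ∑ k ∈ I, ∑ k' ∈ I', ∫⁻ z in Bd (J k k') (DD k k') (XX k k') m r, f k z.1 * g k' z.2 ∂(P.prod P') ≤ β)
    {V : ι → ℕ → Set Ω} {V' : ι' → ℕ → Set Ω'} (hM0 : 0 < M)
    (hM : ∀ k ∈ I, ∀ k' ∈ I', ∀ z : Ω × Ω', ((Finset.range m).filter fun i => z.1 ∈ V k i ∧ z.2 ∈ V' k' i).card ≤
      M * ((Finset.range m).filter fun i => z ∈ DD k k' i).card)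
    {G : ι → ι' → Set (Ω × Ω')}
    (hG : ∀ k ∈ I, ∀ k' ∈ I', ∀ z ∈ G k k', ((Finset.range m).filter fun i => z ∈ XX k k' i).card ≤ b)
    (hq : M * (b + r) + 2 * q ≤ m + 1) (hτ : ∀ k ∈ I, ∀ k' ∈ I', (P.prod P') (G k k')ᶜ ≤ τ)
    (hν : ∑ k ∈ I, ∫⁻ ω in Nar (V k) m q, f k ω ∂P ≤ ν) (hν' : ∑ k ∈ I', ∫⁻ ω in Nar (V' k) m q, g k ω ∂P' ≤ ν) :
    ∑ k ∈ I, ∑ k' ∈ I', ∫⁻ z in {z | ∀ i < m, z ∉ J k k' i}, f k z.1 * g k' z.2 ∂(P.prod P') ≤
      β + (I.card * I'.card * τ + 2 * ν) := by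
  have fk : ∀ k ∈ I, ∀ ω, f k ω ≤ 1 := fun k hk ω =>
    (Finset.single_le_sum (f := fun k => f k ω) (fun _ _ => zero_le) hk).trans (f1 ω)
  have gk : ∀ k ∈ I', ∀ ω, g k ω ≤ 1 := fun k hk ω =>
    (Finset.single_le_sum (f := fun k => g k ω) (fun _ _ => zero_le) hk).trans (g1 ω)
  have F1 : ∑ k ∈ I, ∫⁻ ω, f k ω ∂P ≤ 1 := by
    rw [← lintegral_finsetSum' _ fun k hk => (mf k hk).aemeasurable]
    calc ∫⁻ ω, ∑ k ∈ I, f k ω ∂P ≤ ∫⁻ _ω, 1 ∂P := lintegral_mono f1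
      _ = 1 := by simp
  have G1 : ∑ k ∈ I', ∫⁻ ω, g k ω ∂P' ≤ 1 := by
    rw [← lintegral_finsetSum' _ fun k hk => (mg k hk).aemeasurable]
    calc ∫⁻ ω, ∑ k ∈ I', g k ω ∂P' ≤ ∫⁻ _ω, 1 ∂P' := lintegral_mono g1
      _ = 1 := by simp
  have pr : ∀ k ∈ I, ∀ k' ∈ I', ∀ (A : Set Ω) (A' : Set Ω'), ∫⁻ z in A ×ˢ A', f k z.1 * g k' z.2 ∂(P.prod P') =
      (∫⁻ ω in A, f k ω ∂P) * ∫⁻ ω in A', g k' ω ∂P' := by
    intro k hk k' hk' A A'
    rw [← Measure.prod_restrict]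
    exact lintegral_prod_mul (mf k hk).aemeasurable (mg k' hk').aemeasurable
  calc _ ≤ ∑ k ∈ I, ∑ k' ∈ I', (∫⁻ z in Bd (J k k') (DD k k') (XX k k') m r, f k z.1 * g k' z.2 ∂(P.prod P') +
        (τ + ((∫⁻ ω in Nar (V k) m q, f k ω ∂P) * (∫⁻ ω, g k' ω ∂P') +
          (∫⁻ ω, f k ω ∂P) * ∫⁻ ω in Nar (V' k') m q, g k' ω ∂P'))) := by
        refine Finset.sum_le_sum fun k hk => Finset.sum_le_sum fun k' hk' => ?_
        refine (lintegral_mono_set (sub_grd (J := J k k') hM0 (hM k hk k' hk') (hG k hk k' hk') hq)).trans ?_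
        refine (lintegral_union_le _ _ _).trans (add_le_add le_rfl ?_)
        refine (lintegral_union_le _ _ _).trans (add_le_add ?_ ?_)
        · calc ∫⁻ z in (G k k')ᶜ, f k z.1 * g k' z.2 ∂(P.prod P') ≤ ∫⁻ _z in (G k k')ᶜ, 1 ∂(P.prod P') :=
                lintegral_mono fun z => mul_le_one' (fk k hk _) (gk k' hk' _)
            _ = (P.prod P') (G k k')ᶜ := by simp
            _ ≤ τ := hτ k hk k' hk'
        · refine (lintegral_union_le _ _ _).trans (le_of_eq ?_)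
          rw [pr k hk k' hk', pr k hk k' hk', Measure.restrict_univ, Measure.restrict_univ]
    _ = ∑ k ∈ I, ∑ k' ∈ I', ∫⁻ z in Bd (J k k') (DD k k') (XX k k') m r, f k z.1 * g k' z.2 ∂(P.prod P') +
        (I.card * I'.card * τ + ((∑ k ∈ I, ∫⁻ ω in Nar (V k) m q, f k ω ∂P) *
          (∑ k' ∈ I', ∫⁻ ω, g k' ω ∂P') + (∑ k ∈ I, ∫⁻ ω, f k ω ∂P) * ∑ k' ∈ I', ∫⁻ ω in Nar (V' k') m q, g k' ω ∂P')) := by
        have e2 : ∑ k ∈ I, ∑ k' ∈ I', τ = I.card * I'.card * τ := by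
          simp only [Finset.sum_const, nsmul_eq_mul]
          ring
        simp only [Finset.sum_add_distrib, ← Finset.mul_sum, ← Finset.sum_mul] at e2 ⊢
        rw [e2]
    _ ≤ β + (I.card * I'.card * τ + (ν * 1 + 1 * ν)) := by gcongr
    _ = _ := by ring

end grd

section grdR

variable {Ω : Type*} [MeasurableSpace Ω] {P : Measure Ω} {ι ι' : Type*} {T : Finset ι} {T' : Finset ι'}
  {w : ι → Ω → ℝ} {w' : ι' → Ω → ℝ} {M m r q b : ℕ} {τ ν β : ℝ}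

/-- **ALL THE PAIRS, no classes, real weights.** The set is `no success`. -/
theorem grdR17 [IsProbabilityMeasure P] (mw : ∀ k ∈ T, Measurable (w k)) (mw' : ∀ k ∈ T', Measurable (w' k))
    (w0 : ∀ k ∈ T, ∀ ω, 0 ≤ w k ω) (w0' : ∀ k ∈ T', ∀ ω, 0 ≤ w' k ω) (w1 : ∀ ω, ∑ k ∈ T, w k ω ≤ 1)
    (w1' : ∀ ω, ∑ k ∈ T', w' k ω ≤ 1) {J DD XX : ι → ι' → ℕ → Set (Ω × Ω)}
    (hβ : ∑ k ∈ T, ∑ k' ∈ T', ∫⁻ z in Bd (J k k') (DD k k') (XX k k') m r,
      ENNReal.ofReal (w k z.1) * ENNReal.ofReal (w' k' z.2) ∂(P.prod P) ≤ ENNReal.ofReal β)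
    {V : ι → ℕ → Set Ω} {V' : ι' → ℕ → Set Ω} (hM0 : 0 < M)
    (hM : ∀ k ∈ T, ∀ k' ∈ T', ∀ z : Ω × Ω, ((Finset.range m).filter fun i => z.1 ∈ V k i ∧ z.2 ∈ V' k' i).card ≤
      M * ((Finset.range m).filter fun i => z ∈ DD k k' i).card)
    {G : ι → ι' → Set (Ω × Ω)}
    (hG : ∀ k ∈ T, ∀ k' ∈ T', ∀ z ∈ G k k', ((Finset.range m).filter fun i => z ∈ XX k k' i).card ≤ b)
    (hq : M * (b + r) + 2 * q ≤ m + 1) (hβ0 : 0 ≤ β) (hτ0 : 0 ≤ τ) (hν0 : 0 ≤ ν)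
    (hτ : ∀ k ∈ T, ∀ k' ∈ T', (P.prod P) (G k k')ᶜ ≤ ENNReal.ofReal τ)
    (hν : ∑ k ∈ T, ∫⁻ ω in Nar (V k) m q, ENNReal.ofReal (w k ω) ∂P ≤ ENNReal.ofReal ν)
    (hν' : ∑ k ∈ T', ∫⁻ ω in Nar (V' k) m q, ENNReal.ofReal (w' k ω) ∂P ≤ ENNReal.ofReal ν)
    {U : ι → ι' → Set (Ω × Ω)} (hU : ∀ k ∈ T, ∀ k' ∈ T', U k k' ⊆ {z | ∀ i < m, z ∉ J k k' i}) :
    ∑ k ∈ T, ∑ k' ∈ T', ∫ z in U k k', w k z.1 * w' k' z.2 ∂(P.prod P) ≤ β + (T.card * T'.card * τ + 2 * ν) := by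
  have F1 := sumof17 w0 w1
  have G1 := sumof17 w0' w1'
  have key := grd17 (β := ENNReal.ofReal β) (τ := ENNReal.ofReal τ) (ν := ENNReal.ofReal ν) (J := J)
    (f := fun k ω => ENNReal.ofReal (w k ω)) (g := fun k ω => ENNReal.ofReal (w' k ω)) (q := q) (b := b) (r := r)
    (fun k hk => (mw k hk).ennreal_ofReal) (fun k hk => (mw' k hk).ennreal_ofReal) F1 G1 hβ hM0 hM hG hq hτ hν hν'
  have e0 : ENNReal.ofReal β + (T.card * T'.card * ENNReal.ofReal τ + 2 * ENNReal.ofReal ν) =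
      ENNReal.ofReal (β + (T.card * T'.card * τ + 2 * ν)) := by
    rw [ENNReal.ofReal_add (by positivity) (by positivity), ENNReal.ofReal_add (by positivity) (by positivity),
      ENNReal.ofReal_mul (by positivity), ENNReal.ofReal_mul (by positivity), ENNReal.ofReal_mul (by positivity)]
    simp only [ENNReal.ofReal_natCast, ENNReal.ofReal_ofNat]
  rw [e0] at key
  have fin : ∀ k ∈ T, ∀ k' ∈ T', ∀ A : Set (Ω × Ω),
      ∫⁻ z in A, ENNReal.ofReal (w k z.1) * ENNReal.ofReal (w' k' z.2) ∂(P.prod P) ≠ ∞ := by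
    intro k hk k' hk' A
    have h1 : ∀ ω, ENNReal.ofReal (w k ω) ≤ 1 := fun ω =>
      (Finset.single_le_sum (f := fun k => ENNReal.ofReal (w k ω)) (fun _ _ => zero_le) hk).trans (F1 ω)
    have h2 : ∀ ω, ENNReal.ofReal (w' k' ω) ≤ 1 := fun ω =>
      (Finset.single_le_sum (f := fun k => ENNReal.ofReal (w' k ω)) (fun _ _ => zero_le) hk').trans (G1 ω)
    refine ne_top_of_le_ne_top ENNReal.one_ne_top ?_
    calc _ ≤ ∫⁻ z, ENNReal.ofReal (w k z.1) * ENNReal.ofReal (w' k' z.2) ∂(P.prod P) := setLIntegral_le_lintegral _ _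
      _ ≤ ∫⁻ _z, 1 ∂(P.prod P) := lintegral_mono fun z => mul_le_one' (h1 _) (h2 _)
      _ = 1 := by simp
  have e1 : ∑ k ∈ T, ∑ k' ∈ T', ∫ z in U k k', w k z.1 * w' k' z.2 ∂(P.prod P) =
      (∑ k ∈ T, ∑ k' ∈ T', ∫⁻ z in U k k', ENNReal.ofReal (w k z.1) * ENNReal.ofReal (w' k' z.2) ∂(P.prod P)).toReal := by
    rw [ENNReal.toReal_sum fun k hk => ENNReal.sum_ne_top.2 fun k' hk' => fin k hk k' hk' _]
    refine Finset.sum_congr rfl fun k hk => ?_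
    rw [ENNReal.toReal_sum fun k' hk' => fin k hk k' hk' _]
    refine Finset.sum_congr rfl fun k' hk' => ?_
    rw [toReal17 (mw k hk) (mw' k' hk') (w0 k hk) (w0' k' hk')]
  rw [e1]
  refine ENNReal.toReal_le_of_le_ofReal (by positivity) (le_trans ?_ key)
  exact Finset.sum_le_sum fun k hk => Finset.sum_le_sum fun k' hk' => lintegral_mono_set (hU k hk k' hk')

end grdR

/-- **THE EXPONENT, no classes.** -/
theorem numG17 {B s A : ℝ} (hA : 2 * B + 1 ≤ A) {c₀ : ℝ} (h1 : c₀ < s) (h2 : c₀ < 1) :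
    ∀ᶠ n : ℕ in atTop, ∀ (p p' : ℕ) (β τ ν : ℝ), (p : ℝ) ≤ (n : ℝ) ^ B → (p' : ℝ) ≤ (n : ℝ) ^ B → 0 ≤ τ →
      τ ≤ (n : ℝ) ^ (-A) → β ≤ (n : ℝ) ^ (-s) → ν ≤ (n : ℝ) ^ (-s) →
      β + (p * p' * τ + 2 * ν) ≤ (n : ℝ) ^ (-c₀) := by
  filter_upwards [numB17 hA 1 h1 h2] with n hn p p' β τ ν hp hp' hτ hτ' hβ hν
  have := hn p p' β τ ν hp hp' hτ hτ' hβ hν
  simpa using this

end

end Pool.Agent.W_7d29a1_C1.Lec17
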