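import Pool.Agent.W_7d29a1_C1.Grd77
import Pool.Agent.W_7d29a1_C1.LecG17

/-!
Both halves (MP_7d29a1_pr), attractor route: THE CHAIN WITH BOXES, A SUCCESS MAY SPOIL THE NEXT `k` BLOCKS (helper60, after helper28's
`BoxC28` and helper77's 79047).

Leaves `q` with weights `V q`, `∑ V q ≤ 1`; `anc i q` = the box of level `i`; `R i Q η ω` = the whole ball of the box `Q` is taken from
`η`. `D i q` = chosen (does not see the ball, the same for all the leaves of the box), `J i q ⊆ D i q` = success, `X i q` = the levels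
spoil the gain. `Gd i Q ω` = the good fillings.

`BoxJ.none` : `(1 + c) ^ r ∑_q ∫_(no success, #X + r ≤ #D) V q ≤ 1 + error`.
-/

set_option autoImplicit false
set_option linter.unusedSectionVars false

namespace Pool.Agent.W_7d29a1_C1.H60

open MeasureTheory
open Pool.Agent.W_7d29a1_C1.H77 Pool.Agent.W_7d29a1_C1.Lec17
open scoped ENNReal

noncomputable section

variable {Ω Λ β : Type*} [MeasurableSpace Ω] [DecidableEq β] {P : Measure Ω}

open Classical in
/-- The factor of one level. -/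
def FF (D J X : ℕ → Λ → Set Ω) (c : ℝ≥0∞) (i : ℕ) (q : Λ) (ω : Ω) : ℝ≥0∞ :=
  if ω ∈ J i q then 0 else if ω ∈ D i q ∧ ω ∉ X i q then 1 + c else 1

/-- The factors of the levels `i, .., m-1`. -/
def GJ (D J X : ℕ → Λ → Set Ω) (c : ℝ≥0∞) (m i : ℕ) (q : Λ) (ω : Ω) : ℝ≥0∞ := ∏ j ∈ Finset.Ico i m, FF D J X c j q ω

variable {D J X : ℕ → Λ → Set Ω} {c : ℝ≥0∞} {m : ℕ}

theorem FF_le (i : ℕ) (q : Λ) (ω : Ω) : FF D J X c i q ω ≤ 1 + c := by
  unfold FF
  split_ifs
  · exact zero_le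
  · exact le_rfl
  · exact le_self_add

theorem GJ_le (i : ℕ) (q : Λ) (ω : Ω) : GJ D J X c m i q ω ≤ (1 + c) ^ m := by
  unfold GJ
  calc _ ≤ ∏ _j ∈ Finset.Ico i m, (1 + c) := Finset.prod_le_prod' fun j _ => FF_le j q ω
    _ = (1 + c) ^ (m - i) := by rw [Finset.prod_const, Nat.card_Ico]
    _ ≤ (1 + c) ^ m := pow_le_pow_right₀ le_self_add (Nat.sub_le _ _)

theorem GJ_succ {i : ℕ} (hi : i < m) (q : Λ) (ω : Ω) : GJ D J X c m i q ω = FF D J X c i q ω * GJ D J X c m (i + 1) q ω := by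
  unfold GJ
  rw [Finset.prod_eq_prod_Ico_succ_bot hi]

theorem meas_FF {i : ℕ} {q : Λ} (hD : MeasurableSet (D i q)) (hJ : MeasurableSet (J i q)) (hX : MeasurableSet (X i q)) :
    Measurable (FF D J X c i q) := by
  classical
  unfold FF
  exact Measurable.ite hJ measurable_const (Measurable.ite (hD.inter hX.compl) measurable_const measurable_const)

/-- The data of the chain. -/
structure BoxJ (P : Measure Ω) (L : Finset Λ) (m k : ℕ) (anc : ℕ → Λ → β) (R : ℕ → β → Ω → Ω → Ω)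
    (D J X : ℕ → Λ → Set Ω) (Gd : ℕ → β → Ω → Set Ω) (V : Λ → Ω → ℝ≥0∞) (c p e : ℝ≥0∞) : Prop where
  mp : ∀ i < m, ∀ Q, MeasurePreserving (fun w : Ω × Ω => R i Q w.1 w.2) (P.prod P) P
  mD : ∀ i < m, ∀ q ∈ L, MeasurableSet (D i q)
  mJ : ∀ i < m, ∀ q ∈ L, MeasurableSet (J i q)
  mX : ∀ i < m, ∀ q ∈ L, MeasurableSet (X i q)
  mV : ∀ q ∈ L, Measurable (V q)
  mG : ∀ i < m, ∀ Q ω, MeasurableSet (Gd i Q ω)
  V1 : ∀ ω, ∑ q ∈ L, V q ω ≤ 1
  JD : ∀ i < m, ∀ q ∈ L, J i q ⊆ D i q
  eD : ∀ i < m, ∀ q ∈ L, ∀ q' ∈ L, anc i q = anc i q' → D i q = D i q'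
  bD : ∀ i < m, ∀ q ∈ L, ∀ η ω, R i (anc i q) η ω ∈ D i q ↔ ω ∈ D i q
  gj : ∀ i < m, ∀ q ∈ L, ∀ ω ∈ D i q, ∀ η ∈ Gd i (anc i q) ω, R i (anc i q) η ω ∈ J i q
  gg : ∀ i < m, ∀ q ∈ L, ∀ q' ∈ L, anc i q = anc i q' → ∀ ω ∈ D i q, ∀ η η', R i (anc i q) η ω ∉ X i q →
    η' ∈ Gd i (anc i q) ω → GJ D J X c m (i + 1) q (R i (anc i q) η ω) ≤ (1 + c) ^ k * GJ D J X c m (i + 1) q' (R i (anc i q) η' ω)
  hit : ∀ i < m, ∀ Q ω, (∃ q ∈ L, anc i q = Q ∧ ω ∈ D i q) →
    (∑ q ∈ L.filter (fun q => anc i q = Q), ∫⁻ η in {η | R i Q η ω ∉ X i q}, V q (R i Q η ω) ∂P ≤ e) ∨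
      p ≤ ∫⁻ η in Gd i Q ω, ∑ q ∈ L.filter (fun q => anc i q = Q), V q (R i Q η ω) ∂P
  cp : c * (1 + c) ^ k ≤ p
  c1 : c ≤ 1

namespace BoxJ

variable {L : Finset Λ} {k : ℕ} {anc : ℕ → Λ → β} {R : ℕ → β → Ω → Ω → Ω} {Gd : ℕ → β → Ω → Set Ω} {V : Λ → Ω → ℝ≥0∞} {p e : ℝ≥0∞}

theorem meas_GJ (h : BoxJ P L m k anc R D J X Gd V c p e) (i : ℕ) {q : Λ} (hq : q ∈ L) : Measurable (GJ D J X c m i q) := by
  unfold GJ
  refine Finset.measurable_prod _ fun j hj => ?_
  have hj' := (Finset.mem_Ico.1 hj).2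
  exact meas_FF (h.mD j hj' q hq) (h.mJ j hj' q hq) (h.mX j hj' q hq)

/-- **One box.** -/
theorem box [IsProbabilityMeasure P] (h : BoxJ P L m k anc R D J X Gd V c p e) {i : ℕ} (hi : i < m) (Q : β) :
    ∑ q ∈ L.filter (fun q => anc i q = Q), ∫⁻ ω, V q ω * GJ D J X c m i q ω ∂P ≤
      ∑ q ∈ L.filter (fun q => anc i q = Q), ∫⁻ ω, V q ω * GJ D J X c m (i + 1) q ω ∂P + (1 + c) ^ m * e := by
  classical
  set LQ := L.filter (fun q => anc i q = Q) with hLQ
  have hmem : ∀ q ∈ LQ, q ∈ L ∧ anc i q = Q := fun q hq => Finset.mem_filter.1 hq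
  have hmp := h.mp i hi Q
  have hmR : Measurable (fun w : Ω × Ω => R i Q w.1 w.2) := hmp.measurable
  have conv : ∀ F : Ω → ℝ≥0∞, Measurable F → ∫⁻ ω, F ω ∂P = ∫⁻ ω, ∫⁻ η, F (R i Q η ω) ∂P ∂P := by
    intro F hF
    rw [← hmp.lintegral_comp hF]
    exact lintegral_prod_symm' (fun w : Ω × Ω => F (R i Q w.1 w.2)) (hF.comp hmR)
  have hRω : ∀ ω, Measurable fun η => R i Q η ω := fun ω => hmR.comp (measurable_id.prodMk measurable_const)
  have mG : ∀ q ∈ LQ, Measurable (GJ D J X c m (i + 1) q) := fun q hq => h.meas_GJ (i + 1) (hmem q hq).1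
  have mG0 : ∀ q ∈ LQ, Measurable (GJ D J X c m i q) := fun q hq => h.meas_GJ i (hmem q hq).1
  have mVq : ∀ q ∈ LQ, Measurable (V q) := fun q hq => h.mV q (hmem q hq).1
  have c1 : ∑ q ∈ LQ, ∫⁻ ω, V q ω * GJ D J X c m i q ω ∂P =
      ∫⁻ ω, ∑ q ∈ LQ, ∫⁻ η, V q (R i Q η ω) * GJ D J X c m i q (R i Q η ω) ∂P ∂P := by
    have m1 : ∀ q ∈ LQ, AEMeasurable (fun ω => ∫⁻ η, V q (R i Q η ω) * GJ D J X c m i q (R i Q η ω) ∂P) P := fun q hq =>
      ((((mVq q hq).mul (mG0 q hq)).comp (hmR.comp measurable_swap)).lintegral_prod_right').aemeasurable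
    rw [lintegral_finsetSum' _ m1]
    exact Finset.sum_congr rfl fun q hq => conv (fun ω => V q ω * GJ D J X c m i q ω) ((mVq q hq).mul (mG0 q hq))
  have c2 : ∑ q ∈ LQ, ∫⁻ ω, V q ω * GJ D J X c m (i + 1) q ω ∂P =
      ∫⁻ ω, ∑ q ∈ LQ, ∫⁻ η, V q (R i Q η ω) * GJ D J X c m (i + 1) q (R i Q η ω) ∂P ∂P := by
    have m1 : ∀ q ∈ LQ, AEMeasurable (fun ω => ∫⁻ η, V q (R i Q η ω) * GJ D J X c m (i + 1) q (R i Q η ω) ∂P) P := fun q hq =>
      ((((mVq q hq).mul (mG q hq)).comp (hmR.comp measurable_swap)).lintegral_prod_right').aemeasurable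
    rw [lintegral_finsetSum' _ m1]
    exact Finset.sum_congr rfl fun q hq => conv (fun ω => V q ω * GJ D J X c m (i + 1) q ω) ((mVq q hq).mul (mG q hq))
  rw [c1, c2]
  have key : ∀ ω, ∑ q ∈ LQ, ∫⁻ η, V q (R i Q η ω) * GJ D J X c m i q (R i Q η ω) ∂P ≤
      ∑ q ∈ LQ, ∫⁻ η, V q (R i Q η ω) * GJ D J X c m (i + 1) q (R i Q η ω) ∂P + (1 + c) ^ m * e := by
    intro ω
    have mVR : ∀ q ∈ LQ, Measurable fun η => V q (R i Q η ω) := fun q hq => (mVq q hq).comp (hRω ω)
    by_cases hD : ∃ q ∈ L, anc i q = Q ∧ ω ∈ D i q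
    · obtain ⟨q0, hq0, hq0Q, hω0⟩ := hD
      have hDq : ∀ q ∈ LQ, ω ∈ D i q := fun q hq => by
        rw [h.eD i hi q (hmem q hq).1 q0 hq0 ((hmem q hq).2.trans hq0Q.symm)]
        exact hω0
      have hDη : ∀ q ∈ LQ, ∀ η, R i Q η ω ∈ D i q := fun q hq η => by
        have := (h.bD i hi q (hmem q hq).1 η ω).2 (hDq q hq)
        rwa [(hmem q hq).2] at this
      -- the three pieces
      have mJ : ∀ q ∈ LQ, MeasurableSet {η | R i Q η ω ∈ J i q} := fun q hq => (hRω ω) (h.mJ i hi q (hmem q hq).1)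
      have mX : ∀ q ∈ LQ, MeasurableSet {η | R i Q η ω ∉ X i q} := fun q hq => (hRω ω) (h.mX i hi q (hmem q hq).1).compl
      set N : Λ → Set Ω := fun q => {η | R i Q η ω ∉ X i q} \ {η | R i Q η ω ∈ J i q} with hN
      have mN : ∀ q ∈ LQ, MeasurableSet (N q) := fun q hq => (mX q hq).diff (mJ q hq)
      set g : Λ → Ω → ℝ≥0∞ := fun q η => V q (R i Q η ω) * GJ D J X c m (i + 1) q (R i Q η ω) with hg
      have mg : ∀ q ∈ LQ, Measurable (g q) := fun q hq => ((mVq q hq).comp (hRω ω)).mul ((mG q hq).comp (hRω ω))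
      -- pointwise
      have pt : ∀ q ∈ LQ, ∀ η, V q (R i Q η ω) * GJ D J X c m i q (R i Q η ω) + ({η | R i Q η ω ∈ J i q}.indicator (g q) η) ≤
          g q η + c * ((N q).indicator (g q) η) := by
        intro q hq η
        rw [GJ_succ hi]
        by_cases hj : R i Q η ω ∈ J i q
        · have e1 : FF D J X c i q (R i Q η ω) = 0 := by
            unfold FF
            rw [if_pos hj]
          rw [e1, zero_mul, mul_zero, zero_add, Set.indicator_of_mem (show η ∈ {η | R i Q η ω ∈ J i q} from hj)]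
          exact le_self_add
        · rw [Set.indicator_of_notMem (show η ∉ {η | R i Q η ω ∈ J i q} from hj), add_zero]
          by_cases hx : R i Q η ω ∈ X i q
          · have e1 : FF D J X c i q (R i Q η ω) = 1 := by
              unfold FF
              rw [if_neg hj, if_neg fun hh => hh.2 hx]
            rw [e1, one_mul]
            exact le_self_add
          · have e1 : FF D J X c i q (R i Q η ω) = 1 + c := by
              unfold FF
              rw [if_neg hj, if_pos ⟨hDη q hq η, hx⟩]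
            have hη : η ∈ N q := ⟨hx, hj⟩
            rw [e1, Set.indicator_of_mem hη]
            refine le_of_eq ?_
            simp only [hg]
            ring
      have sum1 : ∑ q ∈ LQ, ∫⁻ η, V q (R i Q η ω) * GJ D J X c m i q (R i Q η ω) ∂P +
          ∑ q ∈ LQ, ∫⁻ η in {η | R i Q η ω ∈ J i q}, g q η ∂P ≤
          ∑ q ∈ LQ, ∫⁻ η, g q η ∂P + c * ∑ q ∈ LQ, ∫⁻ η in N q, g q η ∂P := by
        rw [← Finset.sum_add_distrib, Finset.mul_sum, ← Finset.sum_add_distrib]
        refine Finset.sum_le_sum fun q hq => ?_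
        rw [← lintegral_indicator (mJ q hq), ← lintegral_indicator (mN q hq),
          ← lintegral_const_mul _ ((mg q hq).indicator (mN q hq)), ← lintegral_add_right _ ((mg q hq).indicator (mJ q hq)),
          ← lintegral_add_left (mg q hq)]
        exact lintegral_mono (pt q hq)
      -- the comparison
      have cmp : c * ∑ q ∈ LQ, ∫⁻ η in N q, g q η ∂P ≤ ∑ q ∈ LQ, ∫⁻ η in {η | R i Q η ω ∈ J i q}, g q η ∂P + (1 + c) ^ m * e := by
        rcases h.hit i hi Q ω ⟨q0, hq0, hq0Q, hω0⟩ with hirr | hp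
        · refine le_add_left ?_
          calc c * ∑ q ∈ LQ, ∫⁻ η in N q, g q η ∂P ≤ 1 * ∑ q ∈ LQ, ∫⁻ η in {η | R i Q η ω ∉ X i q}, (1 + c) ^ m * V q (R i Q η ω) ∂P := by
                refine mul_le_mul' h.c1 (Finset.sum_le_sum fun q hq => ?_)
                refine (lintegral_mono_set (Set.sdiff_subset)).trans (lintegral_mono fun η => ?_)
                rw [mul_comm ((1 + c) ^ m)]
                exact mul_le_mul_right (GJ_le (i + 1) q (R i Q η ω)) _
            _ = (1 + c) ^ m * ∑ q ∈ LQ, ∫⁻ η in {η | R i Q η ω ∉ X i q}, V q (R i Q η ω) ∂P := by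
                rw [one_mul, Finset.mul_sum]
                exact Finset.sum_congr rfl fun q hq => lintegral_const_mul ((1 + c) ^ m) (mVR q hq)
            _ ≤ _ := mul_le_mul_right hirr _
        · refine le_add_right ?_
          set a : ℝ≥0∞ := ⨆ q ∈ LQ, ⨆ η ∈ N q, GJ D J X c m (i + 1) q (R i Q η ω) with ha
          have ha1 : ∀ q ∈ LQ, ∀ η ∈ N q, GJ D J X c m (i + 1) q (R i Q η ω) ≤ a := fun q hq η hη =>
            le_iSup₂_of_le q hq (le_iSup₂_of_le η hη le_rfl)
          have ha2 : ∀ q' ∈ LQ, ∀ η' ∈ Gd i Q ω, a ≤ (1 + c) ^ k * GJ D J X c m (i + 1) q' (R i Q η' ω) := by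
            intro q' hq' η' hη'
            refine iSup₂_le fun q hq => iSup₂_le fun η hη => ?_
            have h1 := h.gg i hi q (hmem q hq).1 q' (hmem q' hq').1 ((hmem q hq).2.trans (hmem q' hq').2.symm) ω (hDq q hq) η η'
            rw [(hmem q hq).2] at h1
            exact h1 hη.1 hη'
          have l1 : ∑ q ∈ LQ, ∫⁻ η in N q, g q η ∂P ≤ a := by
            calc ∑ q ∈ LQ, ∫⁻ η in N q, g q η ∂P ≤ ∑ q ∈ LQ, ∫⁻ η, a * V q (R i Q η ω) ∂P := by
                  refine Finset.sum_le_sum fun q hq => ?_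
                  refine (setLIntegral_mono' (mN q hq) fun η hη => ?_).trans (setLIntegral_le_lintegral _ _)
                  simp only [hg]
                  rw [mul_comm]
                  exact mul_le_mul_left (ha1 q hq η hη) _
              _ = a * ∫⁻ η, ∑ q ∈ LQ, V q (R i Q η ω) ∂P := by
                  rw [lintegral_finsetSum' _ fun q hq => (mVR q hq).aemeasurable, Finset.mul_sum]
                  exact Finset.sum_congr rfl fun q hq => lintegral_const_mul _ (mVR q hq)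
              _ ≤ a * ∫⁻ _η, 1 ∂P := by
                  refine mul_le_mul_right (lintegral_mono fun η => ?_) _
                  exact (Finset.sum_le_sum_of_subset (Finset.filter_subset _ _)).trans (h.V1 _)
              _ = a := by simp
          have l2 : p * a ≤ (1 + c) ^ k * ∑ q ∈ LQ, ∫⁻ η in {η | R i Q η ω ∈ J i q}, g q η ∂P := by
            calc p * a ≤ (∫⁻ η in Gd i Q ω, ∑ q ∈ LQ, V q (R i Q η ω) ∂P) * a := by gcongr
              _ = ∑ q ∈ LQ, ∫⁻ η in Gd i Q ω, a * V q (R i Q η ω) ∂P := by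
                  rw [lintegral_finsetSum' _ fun q hq => (mVR q hq).aemeasurable, Finset.sum_mul]
                  refine Finset.sum_congr rfl fun q hq => ?_
                  rw [lintegral_const_mul _ (mVR q hq), mul_comm]
              _ ≤ ∑ q ∈ LQ, ∫⁻ η in {η | R i Q η ω ∈ J i q}, (1 + c) ^ k * g q η ∂P := by
                  refine Finset.sum_le_sum fun q hq => ?_
                  have hsub : Gd i Q ω ⊆ {η | R i Q η ω ∈ J i q} := fun η hη => by
                    have h1 := h.gj i hi q (hmem q hq).1 ω (hDq q hq) η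
                    rw [(hmem q hq).2] at h1
                    exact h1 hη
                  refine (setLIntegral_mono' (h.mG i hi Q ω) fun η hη => ?_).trans (lintegral_mono_set hsub)
                  simp only [hg]
                  calc a * V q (R i Q η ω) ≤ ((1 + c) ^ k * GJ D J X c m (i + 1) q (R i Q η ω)) * V q (R i Q η ω) :=
                        mul_le_mul_left (ha2 q hq η hη) _
                    _ = _ := by ring
              _ = _ := by
                  rw [Finset.mul_sum]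
                  exact Finset.sum_congr rfl fun q hq => lintegral_const_mul _ (mg q hq)
          have hk0 : (1 + c) ^ k ≠ 0 := by positivity
          have hk1 : (1 + c) ^ k ≠ ∞ := ENNReal.pow_ne_top (ENNReal.add_ne_top.2 ⟨ENNReal.one_ne_top,
            ne_top_of_le_ne_top ENNReal.one_ne_top h.c1⟩)
          have l3 : (1 + c) ^ k * (c * ∑ q ∈ LQ, ∫⁻ η in N q, g q η ∂P) ≤
              (1 + c) ^ k * ∑ q ∈ LQ, ∫⁻ η in {η | R i Q η ω ∈ J i q}, g q η ∂P := by
            calc (1 + c) ^ k * (c * ∑ q ∈ LQ, ∫⁻ η in N q, g q η ∂P) ≤ (1 + c) ^ k * (c * a) := by gcongr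
              _ = (c * (1 + c) ^ k) * a := by ring
              _ ≤ p * a := by
                  gcongr
                  exact h.cp
              _ ≤ _ := l2
          exact (ENNReal.mul_le_mul_iff_right hk0 hk1).1 l3
      have fin : ∑ q ∈ LQ, ∫⁻ η in {η | R i Q η ω ∈ J i q}, g q η ∂P ≠ ∞ := by
        refine ENNReal.sum_ne_top.2 fun q hq => ?_
        refine ne_top_of_le_ne_top (b := (1 + c) ^ m) (ENNReal.pow_ne_top (ENNReal.add_ne_top.2 ⟨ENNReal.one_ne_top,
          ne_top_of_le_ne_top ENNReal.one_ne_top h.c1⟩)) ?_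
        calc ∫⁻ η in {η | R i Q η ω ∈ J i q}, g q η ∂P ≤ ∫⁻ _η, (1 + c) ^ m ∂P := by
              refine (setLIntegral_le_lintegral _ _).trans (lintegral_mono fun η => ?_)
              simp only [hg]
              calc V q (R i Q η ω) * GJ D J X c m (i + 1) q (R i Q η ω) ≤ 1 * (1 + c) ^ m := by
                    refine mul_le_mul' ?_ (GJ_le (i + 1) q (R i Q η ω))
                    exact (Finset.single_le_sum (f := fun q => V q (R i Q η ω)) (fun _ _ => zero_le) (hmem q hq).1).trans (h.V1 _)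
                _ = _ := one_mul _
          _ = (1 + c) ^ m := by simp
      refine (ENNReal.add_le_add_iff_right fin).1 (sum1.trans ?_)
      calc ∑ q ∈ LQ, ∫⁻ η, g q η ∂P + c * ∑ q ∈ LQ, ∫⁻ η in N q, g q η ∂P
          ≤ ∑ q ∈ LQ, ∫⁻ η, g q η ∂P + (∑ q ∈ LQ, ∫⁻ η in {η | R i Q η ω ∈ J i q}, g q η ∂P + (1 + c) ^ m * e) := by gcongr
        _ = _ := by ring
    · refine le_add_right (Finset.sum_le_sum fun q hq => lintegral_mono fun η => ?_)
      have hDn : R i Q η ω ∉ D i q := by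
        intro hh
        refine hD ⟨q, (hmem q hq).1, (hmem q hq).2, ?_⟩
        have := (h.bD i hi q (hmem q hq).1 η ω).1
        rw [(hmem q hq).2] at this
        exact this hh
      have hJn : R i Q η ω ∉ J i q := fun hh => hDn (h.JD i hi q (hmem q hq).1 hh)
      rw [GJ_succ hi]
      have e1 : FF D J X c i q (R i Q η ω) = 1 := by
        unfold FF
        rw [if_neg hJn, if_neg fun hh => hDn hh.1]
      rw [e1, one_mul]
  calc ∫⁻ ω, ∑ q ∈ LQ, ∫⁻ η, V q (R i Q η ω) * GJ D J X c m i q (R i Q η ω) ∂P ∂P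
      ≤ ∫⁻ ω, (∑ q ∈ LQ, ∫⁻ η, V q (R i Q η ω) * GJ D J X c m (i + 1) q (R i Q η ω) ∂P + (1 + c) ^ m * e) ∂P :=
        lintegral_mono key
    _ = _ := by
      rw [lintegral_add_right _ measurable_const, lintegral_const, measure_univ, mul_one]

/-- **One level.** -/
theorem one [IsProbabilityMeasure P] (h : BoxJ P L m k anc R D J X Gd V c p e) {i : ℕ} (hi : i < m) :
    ∑ q ∈ L, ∫⁻ ω, V q ω * GJ D J X c m i q ω ∂P ≤
      ∑ q ∈ L, ∫⁻ ω, V q ω * GJ D J X c m (i + 1) q ω ∂P + L.card * ((1 + c) ^ m * e) := by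
  classical
  have g : ∀ F : Λ → ℝ≥0∞, ∑ q ∈ L, F q = ∑ Q ∈ L.image (anc i), ∑ q ∈ L.filter (fun q => anc i q = Q), F q :=
    fun F => (Finset.sum_fiberwise_of_maps_to (fun q hq => Finset.mem_image_of_mem (anc i) hq) F).symm
  rw [g, g]
  calc ∑ Q ∈ L.image (anc i), ∑ q ∈ L.filter (fun q => anc i q = Q), ∫⁻ ω, V q ω * GJ D J X c m i q ω ∂P
      ≤ ∑ Q ∈ L.image (anc i), (∑ q ∈ L.filter (fun q => anc i q = Q), ∫⁻ ω, V q ω * GJ D J X c m (i + 1) q ω ∂P +
        (1 + c) ^ m * e) := Finset.sum_le_sum fun Q _ => by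
          have := h.box hi Q
          convert this using 3
    _ = _ + (L.image (anc i)).card * ((1 + c) ^ m * e) := by
        rw [Finset.sum_add_distrib, Finset.sum_const, nsmul_eq_mul]
    _ ≤ _ := by
        gcongr
        exact Finset.card_image_le

/-- The whole chain. -/
theorem chain [IsProbabilityMeasure P] (h : BoxJ P L m k anc R D J X Gd V c p e) :
    ∑ q ∈ L, ∫⁻ ω, V q ω * GJ D J X c m 0 q ω ∂P ≤ 1 + m * (L.card * ((1 + c) ^ m * e)) := by
  have key : ∀ l, l ≤ m → ∑ q ∈ L, ∫⁻ ω, V q ω * GJ D J X c m (m - l) q ω ∂P ≤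
      ∑ q ∈ L, ∫⁻ ω, V q ω ∂P + l * (L.card * ((1 + c) ^ m * e)) := by
    intro l
    induction l with
    | zero =>
      intro _
      have e0 : ∀ q ω, GJ D J X c m (m - 0) q ω = 1 := by
        intro q ω
        unfold GJ
        rw [Nat.sub_zero, Finset.Ico_self, Finset.prod_empty]
      simp only [e0, mul_one, Nat.cast_zero, zero_mul, add_zero, le_refl]
    | succ l ih =>
      intro hl
      have h1 := h.one (i := m - (l + 1)) (by omega)
      have e1 : m - (l + 1) + 1 = m - l := by omega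
      rw [e1] at h1
      calc _ ≤ _ := h1
        _ ≤ (∑ q ∈ L, ∫⁻ ω, V q ω ∂P + l * (L.card * ((1 + c) ^ m * e))) + L.card * ((1 + c) ^ m * e) := by
            gcongr; exact ih (by omega)
        _ = _ := by push_cast; ring
  have h1 := key m le_rfl
  rw [Nat.sub_self] at h1
  refine h1.trans (add_le_add ?_ le_rfl)
  rw [← lintegral_finsetSum' _ fun q hq => (h.mV q hq).aemeasurable]
  calc ∫⁻ ω, ∑ q ∈ L, V q ω ∂P ≤ ∫⁻ _ω, 1 ∂P := lintegral_mono h.V1
    _ = 1 := by simp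

theorem GJ_ge {r : ℕ} {q : Λ} {ω : Ω} (hω : ω ∈ Bd (fun i => J i q) (fun i => D i q) (fun i => X i q) m r) :
    (1 + c) ^ r ≤ GJ D J X c m 0 q ω := by
  classical
  obtain ⟨h1, h2⟩ := hω
  have e1 : ∀ i ∈ Finset.Ico 0 m, FF D J X c i q ω = if ω ∈ D i q ∧ ω ∉ X i q then 1 + c else 1 := by
    intro i hi
    unfold FF
    rw [if_neg (h1 i (Finset.mem_Ico.1 hi).2)]
  unfold GJ
  rw [Finset.prod_congr rfl e1, Finset.prod_ite, Finset.prod_const_one, mul_one, Finset.prod_const]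
  refine pow_le_pow_right₀ le_self_add ?_
  have h3 : ((Finset.range m).filter fun i => ω ∈ D i q).card ≤
      ((Finset.Ico 0 m).filter fun i => ω ∈ D i q ∧ ω ∉ X i q).card + ((Finset.range m).filter fun i => ω ∈ X i q).card := by
    refine le_trans (Finset.card_le_card ?_) (Finset.card_union_le _ _)
    intro i hi
    obtain ⟨a, b⟩ := Finset.mem_filter.1 hi
    rw [Finset.mem_union, Finset.mem_filter, Finset.mem_filter, Finset.mem_Ico]
    have := Finset.mem_range.1 a
    by_cases hx : ω ∈ X i q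
    · exact Or.inr ⟨a, hx⟩
    · exact Or.inl ⟨⟨Nat.zero_le _, this⟩, b, hx⟩
  have h2' : ((Finset.range m).filter fun i => ω ∈ X i q).card + r ≤ ((Finset.range m).filter fun i => ω ∈ D i q).card := by
    convert h2 using 3
  omega

/-- **NO SUCCESS IS RARE, SUMMED OVER THE LEAVES** (the field `hβ` of helper17's `grd17`). -/
theorem none [IsProbabilityMeasure P] (h : BoxJ P L m k anc R D J X Gd V c p e) (r : ℕ) :
    ∑ q ∈ L, ∫⁻ ω in Bd (fun i => J i q) (fun i => D i q) (fun i => X i q) m r, V q ω ∂P ≤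
      ((1 + c) ^ r)⁻¹ * (1 + m * (L.card * ((1 + c) ^ m * e))) := by
  classical
  have hg0 : (1 + c) ^ r ≠ 0 := by positivity
  have hg1 : (1 + c) ^ r ≠ ∞ := ENNReal.pow_ne_top (ENNReal.add_ne_top.2 ⟨ENNReal.one_ne_top,
    ne_top_of_le_ne_top ENNReal.one_ne_top h.c1⟩)
  have key : (1 + c) ^ r * ∑ q ∈ L, ∫⁻ ω in Bd (fun i => J i q) (fun i => D i q) (fun i => X i q) m r, V q ω ∂P ≤
      1 + m * (L.card * ((1 + c) ^ m * e)) := by
    refine le_trans ?_ h.chain
    rw [Finset.mul_sum]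
    refine Finset.sum_le_sum fun q hq => ?_
    have mB : MeasurableSet (Bd (fun i => J i q) (fun i => D i q) (fun i => X i q) m r) := by
      have m1 : Measurable fun ω => ((Finset.range m).filter fun i => ω ∈ X i q).card :=
        measurable_count fun i hi => h.mX i hi q hq
      have m2 : Measurable fun ω => ((Finset.range m).filter fun i => ω ∈ D i q).card :=
        measurable_count fun i hi => h.mD i hi q hq
      have m3 : MeasurableSet {ω | ((Finset.range m).filter fun i => ω ∈ X i q).card + r ≤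
          ((Finset.range m).filter fun i => ω ∈ D i q).card} := measurableSet_le (m1.add_const r) m2
      have m4 : MeasurableSet {ω | ∀ i < m, ω ∉ J i q} := by
        have e : {ω | ∀ i < m, ω ∉ J i q} = ⋂ i ∈ Finset.range m, (J i q)ᶜ := by
          ext ω
          simp
        rw [e]
        exact Finset.measurableSet_biInter _ fun i hi => (h.mJ i (Finset.mem_range.1 hi) q hq).compl
      have e : Bd (fun i => J i q) (fun i => D i q) (fun i => X i q) m r = {ω | ∀ i < m, ω ∉ J i q} ∩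
          {ω | ((Finset.range m).filter fun i => ω ∈ X i q).card + r ≤ ((Finset.range m).filter fun i => ω ∈ D i q).card} := rfl
      rw [e]
      exact m4.inter m3
    calc (1 + c) ^ r * ∫⁻ ω in Bd (fun i => J i q) (fun i => D i q) (fun i => X i q) m r, V q ω ∂P
        = ∫⁻ ω in Bd (fun i => J i q) (fun i => D i q) (fun i => X i q) m r, (1 + c) ^ r * V q ω ∂P := by
          rw [lintegral_const_mul _ (h.mV q hq)]
      _ ≤ ∫⁻ ω in Bd (fun i => J i q) (fun i => D i q) (fun i => X i q) m r, V q ω * GJ D J X c m 0 q ω ∂P := by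
          refine setLIntegral_mono' mB fun ω hω => ?_
          rw [mul_comm]
          exact mul_le_mul_right (GJ_ge hω) _
      _ ≤ _ := setLIntegral_le_lintegral _ _
  calc _ = ((1 + c) ^ r)⁻¹ * ((1 + c) ^ r * ∑ q ∈ L, ∫⁻ ω in Bd (fun i => J i q) (fun i => D i q) (fun i => X i q) m r, V q ω ∂P) := by
        rw [← mul_assoc, ENNReal.inv_mul_cancel hg0 hg1, one_mul]
    _ ≤ _ := by gcongr

end BoxJ

end

end Pool.Agent.W_7d29a1_C1.H60
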