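import Pool.Agent.W_7d29a1_C1.BoxE69

/-!
MP_7d29a1_pr, [C1], resampled WINDOWS: a slab WITHOUT lanes and walls. (helper69)

`open69`: the new content has only upper bounds `PW69` of the kernels from the starts of the window; `M' ≤ 2 exp (b₀ + Q) M` at every
site off the window and at every site of the row `0`.
-/

set_option autoImplicit false

namespace Pool.Agent.W_7d29a1_C1

open MeasureTheory ProbabilityTheory Filter Topology
open Pool.Agent.W_7d29a1_F Pool.Agent.W_7d29a1_h4g Pool.Agent.W_7d29a1_H Pool.Agent.W_7d29a1_HS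
open Pool.Agent.W_7d29a1_HL (WR_off WR_last_off WR_add' WR_mono' WR_zero' WR_congr' cS)

noncomputable section

variable {μ : Measure ℝ} {s : ℝ}

/-- The kernels in the window from the upper bounds of all the kernels. -/
theorem kb_PW69 [IsProbabilityMeasure μ] {h : ℝ} (h0 : 0 ≤ h) {η : Env} {T : ℕ} {D ω b : ℝ} (hη : η ∈ PW69 μ s Set.univ h T T D b)
    {t : ℕ} {x : ℤ} (ht : t ≤ T) (hx : lat69 μ s t x ≤ D) : Kb69 μ s η T ω (Real.exp b) (Real.exp (b - h * (ω - D))) t x := by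
  refine ⟨?_, fun k u hk hu => ?_⟩
  · refine le_trans ?_ (hη t (T - t) x (by omega) (by omega) hx).1
    exact Finset.sum_le_sum fun y _ => WR_mono' (Set.subset_univ _) _ _ _ _
  · refine (WR_mono' (Set.subset_univ _) _ _ _ _).trans (((hη t k x hk (by omega) hx).2 (u - x)).trans (Real.exp_le_exp.2 ?_))
    have h1 := lat_disp69 (μ := μ) (s := s) t k x u
    have h2 := neg_abs_le (lat69 μ s t x - lat69 μ s (t + k) u)
    have h3 : ω - D ≤ |((u - x : ℤ) : ℝ) - sl μ s * k| := by linarith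
    have h4 := mul_le_mul_of_nonneg_left h3 h0
    linarith

/-- **A SLAB WITHOUT LANES.** -/
theorem open69 [IsProbabilityMeasure μ] (hv0 : 0 ≤ sl μ s) (hv1 : sl μ s ≤ 1) {η η' : Env} {F : ℤ → ℝ} (hF : ∀ y, 0 ≤ F y) {T : ℕ}
    (hT1 : 1 ≤ T) {ωB ω b₀ Q h : ℝ} (hω : ωB + 1 ≤ ω) (h0 : 0 ≤ h) (hb0 : 0 ≤ b₀) (hQ : 0 ≤ Q)
    (hP : η' ∈ PW69 μ s Set.univ h T T (ωB + 1) b₀)
    (heq : ∀ (t : ℕ) (x : ℤ), ωB < lat69 μ s t x → η (((t : ℤ), x) : Pt) = η' (((t : ℤ), x) : Pt))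
    (hT : ∀ (t : ℕ) (x : ℤ), t < T → (t = 0 ∨ ωB < lat69 μ s t x) → lat69 μ s t x ≤ ωB + 1 → Tame69 μ s η F T (ω + 1) Q t x)
    (n1 : ((T : ℝ) + 1) ^ 2 * Real.exp (Q + b₀ - h * (ω - ωB - 1)) ≤ 1 / 2) :
    (∀ (m t : ℕ) (x : ℤ), t + m = T → ωB < lat69 μ s t x →
      MF69 μ s Set.univ η' ((t : ℤ), x) m F ≤ 2 * Real.exp (b₀ + Q) * MF69 μ s Set.univ η ((t : ℤ), x) m F) ∧
    ∀ x : ℤ, MF69 μ s Set.univ η' ((0 : ℤ), x) T F ≤ 2 * Real.exp (b₀ + Q) * MF69 μ s Set.univ η ((0 : ℤ), x) T F := by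
  have hTr : (1 : ℝ) ≤ T := by exact_mod_cast hT1
  have hK : ∀ (t : ℕ) (x : ℤ), t < T → lat69 μ s t x ≤ ωB + 1 →
      Kb69 μ s η' T ω (Real.exp b₀) (Real.exp (b₀ - h * (ω - ωB - 1))) t x := by
    intro t x ht hx
    have e1 : ω - ωB - 1 = ω - (ωB + 1) := by ring
    rw [e1]
    exact kb_PW69 h0 hP ht.le hx
  have hB0 : 0 ≤ Real.exp (b₀ - h * (ω - ωB - 1)) := (Real.exp_pos _).le
  have e2 : Real.exp Q * Real.exp b₀ = Real.exp (b₀ + Q) := by rw [← Real.exp_add]; ring_nf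
  have hA : 1 ≤ 2 * (Real.exp Q * Real.exp b₀) := by
    rw [e2]
    have := Real.one_le_exp (show 0 ≤ b₀ + Q by linarith)
    linarith
  have hsm : Real.exp Q * (T * (T + 1) * Real.exp (b₀ - h * (ω - ωB - 1))) ≤ 1 / 2 := by
    refine le_trans ?_ n1
    have h1 : (T : ℝ) * (T + 1) ≤ ((T : ℝ) + 1) ^ 2 := by nlinarith
    have h2 : Real.exp (Q + b₀ - h * (ω - ωB - 1)) = Real.exp Q * Real.exp (b₀ - h * (ω - ωB - 1)) := by
      rw [← Real.exp_add]
      congr 1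
      ring
    rw [h2]
    calc Real.exp Q * (T * (T + 1) * Real.exp (b₀ - h * (ω - ωB - 1))) =
          (T : ℝ) * (T + 1) * (Real.exp Q * Real.exp (b₀ - h * (ω - ωB - 1))) := by ring
      _ ≤ _ := mul_le_mul_of_nonneg_right h1 (by positivity)
  have hout0 := out69 (μ := μ) (s := s) hv0 hv1 (η := η) (η' := η') hF (T := T) (ωB := ωB) (ω := ω) (Q := Q)
    (A := Real.exp b₀) (B := Real.exp (b₀ - h * (ω - ωB - 1))) hω hB0 hA hsm heq
    (fun t x ht hx hx' => hT t x ht (Or.inr hx) hx') (fun t x ht hx hx' => hK t x ht hx')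
  rw [e2] at hout0
  refine ⟨hout0, fun x => ?_⟩
  have h00 : ((0 : ℤ), x) = ((((0 : ℕ) : ℤ), x) : Pt) := by simp
  rcases lt_or_ge ωB (lat69 μ s 0 x) with h1 | h1
  · have h2 := hout0 T 0 x (by omega) h1
    rwa [← h00] at h2
  · have hT' := hT 0 x (by omega) (Or.inl rfl) (by linarith)
    obtain ⟨k1, k2⟩ := hK 0 x (by omega) (by linarith)
    have k3 := exits69 (μ := μ) (s := s) hv0 hv1 hF hB0 (by linarith) hT' k2
    have k4 := k3.trans (mul_le_mul_of_nonneg_right hsm (MF69_nonneg _ _ _ _ hF))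
    have hR0 : 0 ≤ 2 * Real.exp (b₀ + Q) := by positivity
    have k5 := row69 (μ := μ) (s := s) (Out := (St μ s ωB 0)ᶜ) hR0 (by
        intro n' t x' g1 g2
        rw [Set.mem_compl_iff, mem_St69, not_le] at g2
        exact hout0 n' t x' g1 g2)
      (by
        intro t x' _ g2
        rw [mem_St69, not_le] at g2
        rw [Set.mem_compl_iff, mem_St69, not_le]
        linarith) (t := 0) (Nat.zero_le T) (x := x) k4
    have k6 := conf69 (μ := μ) (s := s) hF (by omega : 0 < T) hT' k1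
    rw [Nat.sub_zero, ← h00] at k5 k6
    rw [e2] at k6
    have e3 : 2 * Real.exp (b₀ + Q) / 2 = Real.exp (b₀ + Q) := by ring
    rw [e3] at k5
    linarith

end

end Pool.Agent.W_7d29a1_C1
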