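import Pool.Agent.W_7d29a1_C1.TubG87

/-!
MP_7d29a1_pr, [C1] attractor route, (Y): THE TUBE FROM FIVE RESAMPLED SLABS, own weights excluded. (helper87)

`Mx w p N i x` = mass from `(i, x)` to the free end WITHOUT the weight of `(i, x)`; `kx w p a n x y` = kernel from `(a, x)` to
`(a + n, y)` without the weight of the start, with the weight of the end (`kx_W`: = `W μ s η (a, x) n (y - x)` up to the factor of the
rows). The environment is changed in the rows `(r1, r2]` (as in Box69), site ratios at most `exp L`. `TubeX.tube`: the fields in this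
convention give the structure `Tube` of Tub87; `three87`: item (3) of `YTub99` with numbers.
-/

set_option autoImplicit false

namespace Pool.Agent.W_7d29a1_C1.Tb87

open Finset
open Pool.Agent.W_7d29a1_F Pool.Agent.W_7d29a1_h4g Pool.Agent.W_7d29a1_H Pool.Agent.W_7d29a1_HS
open Pool.Agent.W_7d29a1_C1.K91 (Box Grp wt wt_pos)
open Pool.Agent.W_7d29a1_C1.K91P
open Pool.Agent.W_7d29a1_C1.U16 (ker ker_zero ker_succ ker_nonneg ker_eq_zero fw_ker bw_ker ker_W)
open Pool.Agent.W_7d29a1_C1.Cnt58 (Gr Zt Tb off Hv Good grl grr)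
open Pool.Agent.W_7d29a1_C1.H60
open Pool.Agent.W_7d29a1_C1.H60.Cx (l)

noncomputable section

/-- The mass from `(i, x)` to the free end (row `N`), the weight of `(i, x)` excluded. -/
def Mx (w : ℕ → ℤ → ℝ) (p : ℕ → ℝ) (N i : ℕ) (x : ℤ) : ℝ := Mo w p N (i + 1) x + p i * Mo w p N (i + 1) (x + 1)

/-- The kernel, the weight of the start excluded, the weight of the end included. -/
def kx (w : ℕ → ℤ → ℝ) (p : ℕ → ℝ) (a n : ℕ) (x y : ℤ) : ℝ := ker w p a n x y * w (a + n) y / w a x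

section Det

variable {w w' : ℕ → ℤ → ℝ} {p : ℕ → ℝ} {N : ℕ}

theorem Mo_Mx {i : ℕ} (hi : i < N) (x : ℤ) : Mo w p N i x = w i x * Mx w p N i x := by
  unfold Mx Mo
  have e : N - i = (N - (i + 1)) + 1 := by omega
  rw [e, bw_succ]

theorem Mx_pos (hw : ∀ k y, 0 < w k y) (hp : ∀ k, 0 < p k) (i : ℕ) (x : ℤ) : 0 < Mx w p N i x :=
  add_pos (Mo_pos hw hp _ _) (mul_pos (hp _) (Mo_pos hw hp _ _))

theorem kx_nonneg (hw : ∀ k y, 0 < w k y) (hp : ∀ k, 0 < p k) (a n : ℕ) (x y : ℤ) : 0 ≤ kx w p a n x y :=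
  div_nonneg (mul_nonneg (ker_nonneg hw hp _ _ _ _) (hw _ _).le) (hw _ _).le

theorem ker_kx (hw : ∀ k y, 0 < w k y) (a n : ℕ) (x y : ℤ) : ker w p a n x y * w (a + n) y = w a x * kx w p a n x y := by
  unfold kx
  rw [mul_div_cancel₀ _ (hw a x).ne']

/-- The bridge to `W μ s`, rows with the step weight `exp (s + h)`. -/
theorem kx_W {μ : MeasureTheory.Measure ℝ} {s h : ℝ} (η : Env) {p : ℕ → ℝ} (i : ℕ) (x : ℤ) (n : ℕ) (y : ℤ)
    (hp : ∀ k, i ≤ k → k < i + n → p k = Real.exp (s + h)) :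
    kx (wt η) p i n x y = Real.exp (n * lam μ s + h * ((y - x : ℤ) : ℝ)) * W μ s η ((i : ℤ), x) n (y - x) := by
  unfold kx
  rw [ker_W (μ := μ) (s := s) (h := h) η i x n y hp, mul_div_assoc, mul_comm, div_mul_cancel₀ _ (wt_pos η i x).ne']

theorem ker_Mo_kx (hw : ∀ k y, 0 < w k y) {a n : ℕ} (hN : a + n < N) (x y : ℤ) :
    ker w p a n x y * Mo w p N (a + n) y = w a x * (kx w p a n x y * Mx w p N (a + n) y) := by
  rw [Mo_Mx hN, ← mul_assoc, ker_kx hw, mul_assoc]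

/-- Composition, own weights excluded. -/
theorem Mx_kx (hw : ∀ k y, 0 < w k y) {a n : ℕ} (hN : a + n < N) (x : ℤ) :
    Mx w p N a x = ∑ y ∈ Icc x (x + n), kx w p a n x y * Mx w p N (a + n) y := by
  have h1 := Mo_ker (w := w) (p := p) (N := N) (i := a) (n := n) hN.le x
  rw [Mo_Mx (show a < N by omega), sum_congr rfl fun y _ => ker_Mo_kx (p := p) hw hN x y, ← mul_sum] at h1
  exact mul_left_cancel₀ (hw a x).ne' h1

/-- The arm in the two conventions. -/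
theorem arm_kx (hw : ∀ k y, 0 < w k y) {i n : ℕ} (hN : i + n < N) (In : Finset ℤ) (q : ℤ) :
    vf w p (fun x => if x ∈ In then Mo w p N (i + n) x else 0) i n q =
      w i q * ∑ x ∈ (Icc q (q + n)).filter (· ∈ In), kx w p i n q x * Mx w p N (i + n) x := by
  rw [vf_ker, mul_sum, sum_filter]
  refine sum_congr rfl fun x _ => ?_
  split_ifs
  · exact ker_Mo_kx hw hN q x
  · rw [mul_zero]

end Det

/-- The leak of one resampled slab, own weights excluded: kernels of `w'`, masses of `w`. -/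
def LeakX (w w' : ℕ → ℤ → ℝ) (p : ℕ → ℝ) (N a n : ℕ) (R : ℝ) : Prop :=
  ∀ x : ℤ, ∑ y ∈ Icc x (x + n), kx w' p a n x y * Mx w p N (a + n) y ≤ R * Mx w p N a x

/-- The leak of one resampled lane slab off the pairs mouth - exit. -/
def LeakLX (w w' : ℕ → ℤ → ℝ) (p : ℕ → ℝ) (N a n : ℕ) (mo ex : Finset ℤ) (R : ℝ) : Prop :=
  ∀ x : ℤ, ∑ y ∈ (Icc x (x + n)).filter (fun y => ¬ (x ∈ mo ∧ y ∈ ex)), kx w' p a n x y * Mx w p N (a + n) y ≤ R * Mx w p N a x

/-- **THE TUBE, own weights excluded**: rows changed `(r1, r1 + nA + n1 + nM + n2 + nB]`. -/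
structure TubeX (w w' : ℕ → ℤ → ℝ) (p : ℕ → ℝ) (N r1 nA n1 nM n2 nB : ℕ) (In mo be be' ex : Finset ℤ) (ρ q Λ L : ℝ) : Prop where
  hN : r1 + nA + n1 + nM + n2 + nB < N
  eqw : ∀ i, ¬ (r1 < i ∧ i ≤ r1 + nA + n1 + nM + n2 + nB) → ∀ y, w' i y = w i y
  rat : ∀ i y, w' i y ≤ Real.exp L * w i y
  rat' : ∀ i y, w i y ≤ Real.exp L * w' i y
  L0 : 0 ≤ L
  ρ0 : 0 ≤ ρ
  q0 : 0 ≤ q
  lA : LeakX w w' p N r1 nA (Real.exp ρ)
  l1 : LeakLX w w' p N (r1 + nA) n1 mo be (Real.exp ρ)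
  lM : LeakX w w' p N (r1 + nA + n1) nM (Real.exp ρ)
  l2 : LeakLX w w' p N (r1 + nA + n1 + nM) n2 be' ex (Real.exp ρ)
  lB : LeakX w w' p N (r1 + nA + n1 + nM + n2) nB (Real.exp ρ)
  kA : ∀ x ∈ In, ∀ m ∈ mo, Mx w p N r1 x ≤ Real.exp q * (kx w' p r1 nA x m * Mx w p N (r1 + nA) m)
  k1 : ∃ m ∈ mo, ∃ e ∈ be, Real.exp Λ * Mx w p N (r1 + nA) m ≤ kx w' p (r1 + nA) n1 m e * Mx w p N (r1 + nA + n1) e
  kM : ∀ x ∈ be, ∀ y ∈ be', Mx w p N (r1 + nA + n1) x ≤
    Real.exp q * (kx w' p (r1 + nA + n1) nM x y * Mx w p N (r1 + nA + n1 + nM) y)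
  k2 : ∃ m ∈ be', ∃ e, Real.exp Λ * Mx w p N (r1 + nA + n1 + nM) m ≤
      kx w' p (r1 + nA + n1 + nM) n2 m e * Mx w p N (r1 + nA + n1 + nM + n2) e ∧
      ∃ z, Mx w p N (r1 + nA + n1 + nM + n2) e ≤
        Real.exp q * (kx w' p (r1 + nA + n1 + nM + n2) nB e z * Mx w p N (r1 + nA + n1 + nM + n2 + nB) z)

section Conv

variable {w w' : ℕ → ℤ → ℝ} {p : ℕ → ℝ} {N : ℕ} {L : ℝ}

/-- One term of a slab. -/
theorem term_le (hw : ∀ k y, 0 < w k y) (hw' : ∀ k y, 0 < w' k y) (hp : ∀ k, 0 < p k)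
    (rat : ∀ i y, w' i y ≤ Real.exp L * w i y) (rat' : ∀ i y, w i y ≤ Real.exp L * w' i y) {a n : ℕ} (hN : a + n < N) (x y : ℤ) :
    ker w' p a n x y * Mo w p N (a + n) y ≤ Real.exp (2 * L) * (w a x * (kx w' p a n x y * Mx w p N (a + n) y)) := by
  have h1 : 0 ≤ ker w' p a n x y := ker_nonneg hw' hp _ _ _ _
  have h2 : 0 < Mx w p N (a + n) y := Mx_pos hw hp _ _
  have h3 : 0 ≤ kx w' p a n x y := kx_nonneg hw' hp _ _ _ _
  have e2 : Real.exp (2 * L) = Real.exp L * Real.exp L := by rw [← Real.exp_add]; congr 1; ring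
  rw [Mo_Mx hN]
  calc ker w' p a n x y * (w (a + n) y * Mx w p N (a + n) y)
      ≤ ker w' p a n x y * ((Real.exp L * w' (a + n) y) * Mx w p N (a + n) y) :=
        mul_le_mul_of_nonneg_left (mul_le_mul_of_nonneg_right (rat' _ _) h2.le) h1
    _ = Real.exp L * ((ker w' p a n x y * w' (a + n) y) * Mx w p N (a + n) y) := by ring
    _ = Real.exp L * (w' a x * (kx w' p a n x y * Mx w p N (a + n) y)) := by rw [ker_kx hw']; ring
    _ ≤ Real.exp L * ((Real.exp L * w a x) * (kx w' p a n x y * Mx w p N (a + n) y)) :=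
        mul_le_mul_of_nonneg_left (mul_le_mul_of_nonneg_right (rat a x) (mul_nonneg h3 h2.le)) (Real.exp_pos _).le
    _ = _ := by rw [e2]; ring

theorem term_ge (hw : ∀ k y, 0 < w k y) (hw' : ∀ k y, 0 < w' k y) (hp : ∀ k, 0 < p k)
    (rat : ∀ i y, w' i y ≤ Real.exp L * w i y) (rat' : ∀ i y, w i y ≤ Real.exp L * w' i y) {a n : ℕ} (hN : a + n < N) (x y : ℤ) :
    w a x * (kx w' p a n x y * Mx w p N (a + n) y) ≤ Real.exp (2 * L) * (ker w' p a n x y * Mo w p N (a + n) y) := by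
  have h1 : 0 ≤ ker w' p a n x y := ker_nonneg hw' hp _ _ _ _
  have h2 : 0 < Mx w p N (a + n) y := Mx_pos hw hp _ _
  have h3 : 0 ≤ kx w' p a n x y := kx_nonneg hw' hp _ _ _ _
  have e2 : Real.exp (2 * L) = Real.exp L * Real.exp L := by rw [← Real.exp_add]; congr 1; ring
  rw [Mo_Mx hN]
  calc w a x * (kx w' p a n x y * Mx w p N (a + n) y)
      ≤ (Real.exp L * w' a x) * (kx w' p a n x y * Mx w p N (a + n) y) := mul_le_mul_of_nonneg_right (rat' a x) (mul_nonneg h3 h2.le)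
    _ = Real.exp L * ((w' a x * kx w' p a n x y) * Mx w p N (a + n) y) := by ring
    _ = Real.exp L * (ker w' p a n x y * w' (a + n) y * Mx w p N (a + n) y) := by rw [ker_kx hw']
    _ = Real.exp L * (ker w' p a n x y * (w' (a + n) y * Mx w p N (a + n) y)) := by ring
    _ ≤ Real.exp L * (ker w' p a n x y * ((Real.exp L * w (a + n) y) * Mx w p N (a + n) y)) :=
        mul_le_mul_of_nonneg_left (mul_le_mul_of_nonneg_left (mul_le_mul_of_nonneg_right (rat _ _) h2.le) h1) (Real.exp_pos _).le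
    _ = _ := by rw [e2]; ring

theorem leak_X (hw : ∀ k y, 0 < w k y) (hw' : ∀ k y, 0 < w' k y) (hp : ∀ k, 0 < p k)
    (rat : ∀ i y, w' i y ≤ Real.exp L * w i y) (rat' : ∀ i y, w i y ≤ Real.exp L * w' i y) {a n : ℕ} (hN : a + n < N) {R R' : ℝ}
    (hR : R' * Real.exp (2 * L) = R) (h : LeakX w w' p N a n R') : Leak w w' p N a n R := by
  rw [leak_iff]
  intro x
  have h1 := h x
  calc ∑ y ∈ Icc x (x + n), ker w' p a n x y * Mo w p N (a + n) y
      ≤ ∑ y ∈ Icc x (x + n), Real.exp (2 * L) * (w a x * (kx w' p a n x y * Mx w p N (a + n) y)) :=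
        sum_le_sum fun y _ => term_le hw hw' hp rat rat' hN x y
    _ = Real.exp (2 * L) * w a x * ∑ y ∈ Icc x (x + n), kx w' p a n x y * Mx w p N (a + n) y := by
        rw [mul_sum]
        exact sum_congr rfl fun y _ => by ring
    _ ≤ Real.exp (2 * L) * w a x * (R' * Mx w p N a x) := mul_le_mul_of_nonneg_left h1 (mul_pos (Real.exp_pos _) (hw _ _)).le
    _ = R * Mo w p N a x := by
        rw [Mo_Mx (show a < N by omega), ← hR]
        ring

theorem leakL_X (hw : ∀ k y, 0 < w k y) (hw' : ∀ k y, 0 < w' k y) (hp : ∀ k, 0 < p k)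
    (rat : ∀ i y, w' i y ≤ Real.exp L * w i y) (rat' : ∀ i y, w i y ≤ Real.exp L * w' i y) {a n : ℕ} (hN : a + n < N) {R R' : ℝ}
    (hR : R' * Real.exp (2 * L) = R) {mo ex : Finset ℤ} (h : LeakLX w w' p N a n mo ex R') : LeakL w w' p N a n mo ex R := by
  rw [leakL_iff]
  intro x
  have h1 := h x
  calc ∑ y ∈ (Icc x (x + n)).filter (fun y => ¬ (x ∈ mo ∧ y ∈ ex)), ker w' p a n x y * Mo w p N (a + n) y
      ≤ ∑ y ∈ (Icc x (x + n)).filter (fun y => ¬ (x ∈ mo ∧ y ∈ ex)),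
          Real.exp (2 * L) * (w a x * (kx w' p a n x y * Mx w p N (a + n) y)) :=
        sum_le_sum fun y _ => term_le hw hw' hp rat rat' hN x y
    _ = Real.exp (2 * L) * w a x * ∑ y ∈ (Icc x (x + n)).filter (fun y => ¬ (x ∈ mo ∧ y ∈ ex)),
          kx w' p a n x y * Mx w p N (a + n) y := by
        rw [mul_sum]
        exact sum_congr rfl fun y _ => by ring
    _ ≤ Real.exp (2 * L) * w a x * (R' * Mx w p N a x) := mul_le_mul_of_nonneg_left h1 (mul_pos (Real.exp_pos _) (hw _ _)).le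
    _ = R * Mo w p N a x := by
        rw [Mo_Mx (show a < N by omega), ← hR]
        ring

theorem lev_X (hw : ∀ k y, 0 < w k y) (hw' : ∀ k y, 0 < w' k y) (hp : ∀ k, 0 < p k)
    (rat : ∀ i y, w' i y ≤ Real.exp L * w i y) (rat' : ∀ i y, w i y ≤ Real.exp L * w' i y) {a n : ℕ} (hN : a + n < N) {q : ℝ} {x y : ℤ}
    (h : Mx w p N a x ≤ Real.exp q * (kx w' p a n x y * Mx w p N (a + n) y)) :
    Mo w p N a x ≤ Real.exp (q + 2 * L) * (ker w' p a n x y * Mo w p N (a + n) y) := by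
  rw [Mo_Mx (show a < N by omega)]
  calc w a x * Mx w p N a x ≤ w a x * (Real.exp q * (kx w' p a n x y * Mx w p N (a + n) y)) := mul_le_mul_of_nonneg_left h (hw _ _).le
    _ = Real.exp q * (w a x * (kx w' p a n x y * Mx w p N (a + n) y)) := by ring
    _ ≤ Real.exp q * (Real.exp (2 * L) * (ker w' p a n x y * Mo w p N (a + n) y)) :=
        mul_le_mul_of_nonneg_left (term_ge hw hw' hp rat rat' hN x y) (Real.exp_pos _).le
    _ = _ := by rw [Real.exp_add]; ring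

theorem luck_X (hw : ∀ k y, 0 < w k y) (hw' : ∀ k y, 0 < w' k y) (hp : ∀ k, 0 < p k)
    (rat : ∀ i y, w' i y ≤ Real.exp L * w i y) (rat' : ∀ i y, w i y ≤ Real.exp L * w' i y) {a n : ℕ} (hN : a + n < N) {Λ : ℝ} {x y : ℤ}
    (h : Real.exp Λ * Mx w p N a x ≤ kx w' p a n x y * Mx w p N (a + n) y) :
    Real.exp (Λ - 2 * L) * Mo w p N a x ≤ ker w' p a n x y * Mo w p N (a + n) y := by
  rw [Mo_Mx (show a < N by omega)]
  have h1 := term_ge hw hw' hp rat rat' hN x y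
  have h2 : Real.exp (2 * L) * (Real.exp (Λ - 2 * L) * (w a x * Mx w p N a x)) ≤
      Real.exp (2 * L) * (ker w' p a n x y * Mo w p N (a + n) y) := by
    refine le_trans ?_ h1
    have e : Real.exp (2 * L) * (Real.exp (Λ - 2 * L) * (w a x * Mx w p N a x)) = w a x * (Real.exp Λ * Mx w p N a x) := by
      rw [← mul_assoc, ← Real.exp_add]
      have : 2 * L + (Λ - 2 * L) = Λ := by ring
      rw [this]
      ring
    rw [e]
    exact mul_le_mul_of_nonneg_left h (hw _ _).le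
  exact le_of_mul_le_mul_left h2 (Real.exp_pos _)

/-- **`Tube.of`**: the five slabs in the convention of Box69 give the tube of Tub87. -/
theorem TubeX.tube {r1 nA n1 nM n2 nB : ℕ} {In mo be be' ex : Finset ℤ} {ρ q Λ : ℝ}
    (T : TubeX w w' p N r1 nA n1 nM n2 nB In mo be be' ex ρ q Λ L) (hw : ∀ k y, 0 < w k y) (hw' : ∀ k y, 0 < w' k y) (hp : ∀ k, 0 < p k)
    (hΛ : 3 * ρ + 2 * q + 12 * L ≤ Λ) :
    Tube w w' p N r1 nA n1 nM n2 (nB + 1) In mo be be' ex (Real.exp (ρ + 2 * L)) (Real.exp (q + 2 * L)) (Real.exp (Λ - 2 * L)) := by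
  have hN := T.hN
  have eR : Real.exp ρ * Real.exp (2 * L) = Real.exp (ρ + 2 * L) := (Real.exp_add _ _).symm
  have hL := T.L0
  have hρ := T.ρ0
  have hq := T.q0
  refine ⟨by omega, fun i hi y => T.eqw i (by omega) y, fun i hi y => T.eqw i (by omega) y, Real.one_le_exp (by linarith),
    Real.one_le_exp (by linarith), ?_, leak_X hw hw' hp T.rat T.rat' (by omega) eR T.lA,
    leakL_X hw hw' hp T.rat T.rat' (by omega) eR T.l1, leak_X hw hw' hp T.rat T.rat' (by omega) eR T.lM,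
    leakL_X hw hw' hp T.rat T.rat' (by omega) eR T.l2, ?_, fun x hx m hm => lev_X hw hw' hp T.rat T.rat' (by omega) (T.kA x hx m hm),
    ?_, fun x hx y hy => lev_X hw hw' hp T.rat T.rat' (by omega) (T.kM x hx y hy), ?_⟩
  · rw [← Real.exp_nat_mul, ← Real.exp_nat_mul, ← Real.exp_add]
    refine Real.exp_le_exp.2 ?_
    push_cast
    linarith
  · -- the last slab, one more row (unchanged)
    intro x
    obtain ⟨b3, hb3⟩ : ∃ b3, b3 = r1 + nA + n1 + nM + n2 := ⟨_, rfl⟩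
    rw [← hb3]
    have lB := T.lB
    have eqw := T.eqw
    rw [← hb3] at lB eqw hN
    have h1 := lB x
    have e1 : vf w' p (Mo w p N (b3 + (nB + 1))) b3 (nB + 1) x = w' b3 x * ∑ y ∈ Icc x (x + nB), kx w' p b3 nB x y * Mx w p N (b3 + nB) y := by
      rw [vf_last, vf_ker, mul_sum]
      refine sum_congr rfl fun y _ => ?_
      have e2 : Mo w p N (b3 + (nB + 1)) y + p (b3 + nB) * Mo w p N (b3 + (nB + 1)) (y + 1) = Mx w p N (b3 + nB) y := rfl
      rw [e2, ← mul_assoc, ker_kx hw']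
      ring
    rw [e1]
    calc w' b3 x * ∑ y ∈ Icc x (x + nB), kx w' p b3 nB x y * Mx w p N (b3 + nB) y
        ≤ (Real.exp L * w b3 x) * (Real.exp ρ * Mx w p N b3 x) :=
          mul_le_mul (T.rat b3 x) h1 (sum_nonneg fun y _ => mul_nonneg (kx_nonneg hw' hp _ _ _ _) (Mx_pos hw hp _ _).le)
            (mul_pos (Real.exp_pos _) (hw _ _)).le
      _ = Real.exp (ρ + L) * Mo w p N b3 x := by
          rw [Mo_Mx (show b3 < N by omega), Real.exp_add]
          ring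
      _ ≤ _ := mul_le_mul_of_nonneg_right (Real.exp_le_exp.2 (by linarith)) (Mo_pos hw hp _ _).le
  · obtain ⟨m, hm, e, he, h1⟩ := T.k1
    exact ⟨m, hm, e, he, luck_X hw hw' hp T.rat T.rat' (by omega) h1⟩
  · obtain ⟨m, hm, e, h1, z, h2⟩ := T.k2
    refine ⟨m, hm, e, luck_X hw hw' hp T.rat T.rat' (by omega) h1, ?_⟩
    obtain ⟨b3, hb3⟩ : ∃ b3, b3 = r1 + nA + n1 + nM + n2 := ⟨_, rfl⟩
    rw [← hb3] at h2 ⊢
    have eqw := T.eqw
    rw [← hb3] at eqw hN
    -- the masses of `w'` behind the last slab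
    have e1 : Mx w' p N (b3 + nB) z = Mx w p N (b3 + nB) z := by
      unfold Mx
      rw [Mo_eq (w := w) (w' := w') (p := p) (N := N) (r2 := b3 + nB + 1) (fun i hi y => eqw i (by omega) y) le_rfl,
        Mo_eq (w := w) (w' := w') (p := p) (N := N) (r2 := b3 + nB + 1) (fun i hi y => eqw i (by omega) y) le_rfl]
    have e2 : kx w' p b3 nB e z * Mx w' p N (b3 + nB) z ≤ Mx w' p N b3 e := by
      by_cases h3 : e ≤ z ∧ z ≤ e + nB
      · rw [Mx_kx (w := w') hw' (show b3 + nB < N by omega)]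
        exact single_le_sum (f := fun y => kx w' p b3 nB e y * Mx w' p N (b3 + nB) y)
          (fun y _ => mul_nonneg (kx_nonneg hw' hp _ _ _ _) (Mx_pos hw' hp _ _).le) (mem_Icc.2 h3)
      · have e3 : kx w' p b3 nB e z = 0 := by
          unfold kx
          rw [ker_eq_zero b3 nB e z h3, zero_mul, zero_div]
        rw [e3, zero_mul]
        exact (Mx_pos hw' hp _ _).le
    rw [Mo_Mx (show b3 < N by omega), Mo_Mx (w := w') (show b3 < N by omega)]
    have p1 : 0 < Mx w' p N b3 e := Mx_pos hw' hp _ _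
    calc w b3 e * Mx w p N b3 e ≤ (Real.exp L * w' b3 e) * (Real.exp q * Mx w' p N b3 e) := by
          refine mul_le_mul (T.rat' _ _) (h2.trans ?_) (Mx_pos hw hp _ _).le (mul_pos (Real.exp_pos _) (hw' _ _)).le
          rw [← e1]
          exact mul_le_mul_of_nonneg_left e2 (Real.exp_pos _).le
      _ = Real.exp (q + L) * (w' b3 e * Mx w' p N b3 e) := by rw [Real.exp_add]; ring
      _ ≤ _ := mul_le_mul_of_nonneg_right (Real.exp_le_exp.2 (by linarith)) (mul_pos (hw' _ _) p1).le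

end Conv

/-! ### Item (3) with numbers -/

variable {Γ : Cx} {η η' : Env} {r1 nA n1 nM n2 nB : ℕ} {In mo be be' ex : Finset ℤ} {ρ q Λ L : ℝ}

/-- The arm, own weights excluded. -/
def ArmX (Γ : Cx) (η : Env) (c : ℕ × ℤ) (r1 : ℕ) (In : Finset ℤ) : Prop :=
  Mx (wt η) Γ.p Γ.N (c.1 + 1) c.2 ≤ 2 * ∑ x ∈ (Icc c.2 (c.2 + (r1 - (c.1 + 1) : ℕ))).filter (· ∈ In),
    kx (wt η) Γ.p (c.1 + 1) (r1 - (c.1 + 1)) c.2 x * Mx (wt η) Γ.p Γ.N r1 x

theorem ArmX.arm {c : ℕ × ℤ} (hc : c.1 + 1 ≤ r1) (hr : r1 < Γ.N) (h : ArmX Γ η c r1 In) : Arm Γ η c r1 In := by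
  unfold Arm
  unfold ArmX at h
  have e : c.1 + 1 + (r1 - (c.1 + 1)) = r1 := by omega
  have h1 := arm_kx (w := wt η) (p := Γ.p) (N := Γ.N) (i := c.1 + 1) (n := r1 - (c.1 + 1)) (wt_pos η) (by omega) In c.2
  rw [e] at h1
  rw [h1, Mo_Mx (show c.1 + 1 < Γ.N by omega)]
  have h2 := mul_le_mul_of_nonneg_left h (wt_pos η (c.1 + 1) c.2).le
  calc _ ≤ _ := h2
    _ = _ := by ring

/-- **ITEM (3) OF `YTub99`** from the five slabs. -/
theorem three87 (h : Γ.Ok) (T : TubeX (wt η) (wt η') Γ.p Γ.N r1 nA n1 nM n2 nB In mo be be' ex ρ q Λ L) {c : ℕ × ℤ}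
    (hc : c ∈ Γ.rows 0 Γ.N) (hr : c.1 + 1 ≤ r1) (harm : ArmX Γ η c r1 In) {a b : ℝ} (ha : 0 ≤ a) (hw : Real.exp (-a) ≤ Γ.w c η)
    (hb : a + 2 * q + 2 * ρ + 8 * L + 4 ≤ b) (hΛ : a + 2 * b + 2 * q + 3 * ρ + 12 * L + 2 ≤ Λ) {cc : ℝ}
    (hv : Hv (wt η') Γ.p cc ⟨r1 + nA + n1, nM, be, be'⟩) :
    Good (wt η') Γ.p l Γ.r 0 Γ.hi Γ.N cc (Real.exp (-(2 * b))) ⟨r1 + nA + n1, nM, be, be'⟩ ∧ Real.exp (-b) ≤ Γ.w c η' := by
  have hL := T.L0
  have hρ := T.ρ0
  have hq := T.q0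
  have hN := T.hN
  have hT := T.tube (wt_pos η) (wt_pos η') Γ.p_pos (by linarith)
  have hA := harm.arm hr (by omega)
  have e2 : (2 : ℝ) < Real.exp 1 := by
    have := Real.exp_one_gt_d9
    linarith
  constructor
  · refine good87 h hT hc hr hA ha hw ?_ hv
    have h3 : (3 : ℝ) ≤ Real.exp 2 := by
      have : Real.exp 2 = Real.exp 1 * Real.exp 1 := by rw [← Real.exp_add]; norm_num
      rw [this]
      nlinarith
    calc 3 * Real.exp (q + 2 * L) ^ 2 * Real.exp (ρ + 2 * L) ^ 3 * Real.exp (a + 2 * b)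
        ≤ Real.exp 2 * Real.exp (q + 2 * L) ^ 2 * Real.exp (ρ + 2 * L) ^ 3 * Real.exp (a + 2 * b) := by
          gcongr
      _ = Real.exp (2 + 2 * (q + 2 * L) + 3 * (ρ + 2 * L) + (a + 2 * b)) := by
          rw [← Real.exp_nat_mul, ← Real.exp_nat_mul, ← Real.exp_add, ← Real.exp_add, ← Real.exp_add]
          push_cast
          rfl
      _ ≤ _ := Real.exp_le_exp.2 (by linarith)
  · refine weightG87 h hT hr hA hw ?_
    have h3 : (36 : ℝ) ≤ Real.exp 4 := by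
      have h4 : Real.exp 4 = (Real.exp 1 * Real.exp 1) * (Real.exp 1 * Real.exp 1) := by
        rw [← Real.exp_add, ← Real.exp_add]
        norm_num
      have h5 : (2.7 : ℝ) < Real.exp 1 := by
        have := Real.exp_one_gt_d9
        linarith
      rw [h4]
      have h6 : (7 : ℝ) ≤ Real.exp 1 * Real.exp 1 := by nlinarith
      nlinarith
    calc 36 * Real.exp (q + 2 * L) ^ 2 * Real.exp (ρ + 2 * L) ^ 2 * Real.exp a
        ≤ Real.exp 4 * Real.exp (q + 2 * L) ^ 2 * Real.exp (ρ + 2 * L) ^ 2 * Real.exp a := by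
          gcongr
      _ = Real.exp (4 + 2 * (q + 2 * L) + 2 * (ρ + 2 * L) + a) := by
          rw [← Real.exp_nat_mul, ← Real.exp_nat_mul, ← Real.exp_add, ← Real.exp_add, ← Real.exp_add]
          push_cast
          rfl
      _ ≤ _ := Real.exp_le_exp.2 (by linarith)

end

end Pool.Agent.W_7d29a1_C1.Tb87
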