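import Pool.Agent.W_7d29a1_C1.BoxN69
import Pool.Agent.W_7d29a1_C1.BoxO69
import Pool.Agent.W_7d29a1_C1.TubO87

/-!
MP_7d29a1_pr, [C1], resampled WINDOWS: THE BRIDGE TO THE MODEL K91P. (helper69)

Base site `(r, col)`; the slab is the rows `(r, r + T]`, `p = exp (s + g)` on the rows `[r, r + T)`. `Mx`, `kx` of TubO87 (own weight
excluded). `G ≥ 0` = ANY final profile of the row `r + T`; `VX69 w p i n G x` = mass from `(i, x)` over `n` rows with the profile `G`.
* `MF_kx` : `MF69` of the shifted environment with the profile `FX69 g G` is `VX69`, up to the factor `exp (g x - m lam)`;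
* `TameV69` : tame in the letters of the model, `TameV69.tame`;
* `LeakV69` : the conclusion in the letters of the model, `Leak69.lv`; `LeakV69.out`, `.row` (own weights excluded);
* `LeakV69.lx` : `LeakLX` of TubO87; `LeakV69.bw_out`, `LeakV69.bw_row` : the same for `bw`, own weights included.
-/

set_option autoImplicit false

namespace Pool.Agent.W_7d29a1_C1

open MeasureTheory ProbabilityTheory Filter Topology
open Pool.Agent.W_7d29a1_F Pool.Agent.W_7d29a1_h4g Pool.Agent.W_7d29a1_H Pool.Agent.W_7d29a1_HS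
open Pool.Agent.W_7d29a1_HL (cS)
open Pool.Agent.W_7d29a1_C1.K91 (wt wt_pos)
open Pool.Agent.W_7d29a1_C1.K91P (bw bw_pos)
open Pool.Agent.W_7d29a1_C1.U16 (ker ker_nonneg ker_eq_zero)
open Pool.Agent.W_7d29a1_C1.Tb87 (Mx kx Mo Mo_pos Mo_eq Mo_Mx Mx_pos kx_nonneg kx_W Mx_kx ker_Mo_kx LeakX LeakLX)

noncomputable section

variable {μ : Measure ℝ} {s : ℝ} {ι : Type}

/-- The future profile of the row `r + T`, in the columns around `col`, for the step weights `exp (s + g)`. -/
def FX69 (g : ℝ) (G : ℤ → ℝ) (col : ℤ) (y : ℤ) : ℝ := Real.exp (g * y) * G (y + col)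

theorem FX69_nonneg {g : ℝ} {G : ℤ → ℝ} {col : ℤ} (hG : ∀ y, 0 ≤ G y) (y : ℤ) : 0 ≤ FX69 g G col y :=
  mul_nonneg (Real.exp_pos _).le (hG _)

/-- The mass from `(i, x)` over `n` rows with the final profile `G`, own weight excluded. -/
def VX69 (w : ℕ → ℤ → ℝ) (p : ℕ → ℝ) (i n : ℕ) (G : ℤ → ℝ) (x : ℤ) : ℝ := ∑ y ∈ Finset.Icc x (x + n), kx w p i n x y * G y

theorem VX69_nonneg {w : ℕ → ℤ → ℝ} {p : ℕ → ℝ} (hw : ∀ k y, 0 < w k y) (hp : ∀ k, 0 < p k) (i n : ℕ) {G : ℤ → ℝ}
    (hG : ∀ y, 0 ≤ G y) (x : ℤ) : 0 ≤ VX69 w p i n G x :=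
  Finset.sum_nonneg fun _ _ => mul_nonneg (kx_nonneg hw hp _ _ _ _) (hG _)

/-- The old masses. -/
theorem VX_Mx {w : ℕ → ℤ → ℝ} {p : ℕ → ℝ} (hw : ∀ k y, 0 < w k y) {N i n : ℕ} (hN : i + n < N) (x : ℤ) :
    VX69 w p i n (Mx w p N (i + n)) x = Mx w p N i x := (Mx_kx hw hN x).symm

section Bridge

variable {η η' : Env} {p : ℕ → ℝ} {g : ℝ} {r T : ℕ} {col : ℤ} {G : ℤ → ℝ}

/-- **THE BRIDGE.** -/
theorem MF_kx {t m : ℕ} (htm : t + m = T) (hp : ∀ k, r ≤ k → k < r + T → p k = Real.exp (s + g)) (G : ℤ → ℝ) (x : ℤ) :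
    MF69 μ s Set.univ (sh ((r : ℤ), col) η) ((t : ℤ), x) m (FX69 g G col) =
      Real.exp (g * x - m * lam μ s) * VX69 (wt η) p (r + t) m G (x + col) := by
  have e0 : (((t : ℤ), x) : Pt) + ((r : ℤ), col) = (((r + t : ℕ) : ℤ), x + col) := by
    ext
    · show (t : ℤ) + r = ((r + t : ℕ) : ℤ)
      push_cast
      ring
    · rfl
  unfold MF69 VX69
  rw [Finset.mul_sum]
  refine Finset.sum_bij (fun y _ => x + col + y) (fun y hy => ?_) (fun a _ b _ hab => by simpa using hab) (fun y hy => ?_) (fun y hy => ?_)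
  · rw [Finset.mem_Icc] at hy ⊢
    omega
  · rw [Finset.mem_Icc] at hy
    exact ⟨y - (x + col), Finset.mem_Icc.2 ⟨by omega, by omega⟩, by ring⟩
  · rw [kx_W (μ := μ) (s := s) (h := g) η (r + t) (x + col) m (x + col + y) (fun k h1 h2 => hp k (by omega) (by omega))]
    have e1 : x + col + y - (x + col) = y := by ring
    have e2 : WR μ s Set.univ (sh ((r : ℤ), col) η) ((t : ℤ), x) m y = W μ s η (((r + t : ℕ) : ℤ), x + col) m y := by
      have := W_sh (μ := μ) (s := s) η ((t : ℤ), x) ((r : ℤ), col) m y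
      rw [e0] at this
      exact this
    rw [e1, e2]
    unfold FX69
    have e3 : (((t : ℤ), x) : Pt).2 + y + col = x + col + y := by
      show x + y + col = x + col + y
      ring
    rw [e3]
    have e4 : Real.exp (g * (((((t : ℤ), x) : Pt).2 + y : ℤ) : ℝ)) =
        Real.exp (g * x - m * lam μ s) * Real.exp (m * lam μ s + g * y) := by
      rw [← Real.exp_add]
      congr 1
      show g * ((x + y : ℤ) : ℝ) = _
      push_cast
      ring
    rw [e4]
    ring

/-- Tame in the letters of the model, profile `G`: seen from the site `(r + t, col + x)`. -/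
def TameV69 (μ : Measure ℝ) (s g : ℝ) (w : ℕ → ℤ → ℝ) (p : ℕ → ℝ) (G : ℤ → ℝ) (r : ℕ) (col : ℤ) (T : ℕ) (ω Q : ℝ) (t : ℕ) (x : ℤ) : Prop :=
  ∀ (k : ℕ) (u : ℤ), 1 ≤ k → t + k ≤ T → lat69 μ s (t + k) u ≤ ω →
    Real.exp (k * lam μ s + g * sl μ s * k) * VX69 w p (r + (t + k)) (T - (t + k)) G (u + col) ≤
      Real.exp Q * VX69 w p (r + t) (T - t) G (x + col)

/-- The tilt costs at most `|g| (ω + D)`. -/
theorem TameV69.tame {ω Q Q' D : ℝ} {t : ℕ} {x : ℤ} (h : TameV69 μ s g (wt η) p G r col T ω Q t x) (ht : t ≤ T) (hG : ∀ y, 0 ≤ G y)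
    (hpp : ∀ k, 0 < p k) (hp : ∀ k, r ≤ k → k < r + T → p k = Real.exp (s + g)) (hx : lat69 μ s t x ≤ D) (hQ : Q + |g| * (ω + D) ≤ Q') :
    Tame69 μ s (sh ((r : ℤ), col) η) (FX69 g G col) T ω Q' t x := by
  intro k u hk htk hu
  have h1 := h k u hk htk hu
  rw [MF_kx (μ := μ) (s := s) (η := η) (p := p) (t := t + k) (m := T - (t + k)) (by omega) hp,
    MF_kx (μ := μ) (s := s) (η := η) (p := p) (t := t) (m := T - t) (by omega) hp]
  have hM : 0 ≤ VX69 (wt η) p (r + t) (T - t) G (x + col) := VX69_nonneg (wt_pos η) hpp _ _ hG _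
  have e1 : (((T - (t + k) : ℕ) : ℝ)) = T - t - k := by
    rw [Nat.cast_sub htk]
    push_cast
    ring
  have e2 : (((T - t : ℕ) : ℝ)) = T - t := Nat.cast_sub ht
  rw [e1, e2]
  obtain ⟨A, hA⟩ : ∃ A : ℝ, A = g * (((u : ℝ) - sl μ s * ((t + k : ℕ) : ℝ)) - ((x : ℝ) - sl μ s * t)) := ⟨_, rfl⟩
  have hA' : A ≤ |g| * (ω + D) := by
    rw [hA]
    refine (le_abs_self _).trans ?_
    rw [abs_mul]
    refine mul_le_mul_of_nonneg_left ?_ (abs_nonneg _)
    refine (abs_sub _ _).trans ?_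
    have h2 : |(u : ℝ) - sl μ s * ((t + k : ℕ) : ℝ)| ≤ ω := hu
    have h3 : |(x : ℝ) - sl μ s * t| ≤ D := hx
    linarith
  have e3 : g * (u : ℝ) - (T - t - k) * lam μ s = (k * lam μ s + g * sl μ s * k) + (A + (g * x - (T - t) * lam μ s)) := by
    rw [hA]
    push_cast
    ring
  rw [e3, Real.exp_add (k * lam μ s + g * sl μ s * k), Real.exp_add A]
  have h4 : Real.exp A * Real.exp Q ≤ Real.exp Q' := by
    rw [← Real.exp_add]
    exact Real.exp_le_exp.2 (by linarith)
  have h5 : 0 ≤ Real.exp (g * x - (T - t) * lam μ s) := (Real.exp_pos _).le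
  calc Real.exp (k * lam μ s + g * sl μ s * k) * (Real.exp A * Real.exp (g * x - (T - t) * lam μ s)) *
        VX69 (wt η) p (r + (t + k)) (T - (t + k)) G (u + col)
      = Real.exp A * Real.exp (g * x - (T - t) * lam μ s) *
          (Real.exp (k * lam μ s + g * sl μ s * k) * VX69 (wt η) p (r + (t + k)) (T - (t + k)) G (u + col)) := by ring
    _ ≤ Real.exp A * Real.exp (g * x - (T - t) * lam μ s) * (Real.exp Q * VX69 (wt η) p (r + t) (T - t) G (x + col)) :=
        mul_le_mul_of_nonneg_left h1 (mul_nonneg (Real.exp_pos _).le h5)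
    _ = (Real.exp A * Real.exp Q) * (Real.exp (g * x - (T - t) * lam μ s) * VX69 (wt η) p (r + t) (T - t) G (x + col)) := by ring
    _ ≤ Real.exp Q' * (Real.exp (g * x - (T - t) * lam μ s) * VX69 (wt η) p (r + t) (T - t) G (x + col)) :=
        mul_le_mul_of_nonneg_right h4 (mul_nonneg h5 hM)

/-- The conclusion in the letters of the model: old `w`, new `w'`, profile `G` of the row `r + T`. -/
structure LeakV69 (μ : Measure ℝ) (s : ℝ) (w w' : ℕ → ℤ → ℝ) (p : ℕ → ℝ) (G : ℤ → ℝ) (r T : ℕ) (col : ℤ) (ωB R₀ : ℝ) (mo ex : Finset ℤ) :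
    Prop where
  out : ∀ (t m : ℕ) (x : ℤ), t + m = T → ωB < lat69 μ s t x → VX69 w' p (r + t) m G (x + col) ≤ R₀ * VX69 w p (r + t) m G (x + col)
  row : ∀ x : ℤ, ∑ y ∈ (Finset.Icc x (x + T)).filter (fun y => ¬ (x ∈ mo ∧ y ∈ ex)), kx w' p r T x y * G y ≤ R₀ * VX69 w p r T G x

/-- **The window lemma in the letters of the model**, for all cells which contain the mouths and the exit cells. -/
theorem Leak69.lv {ωB r' R₀ : ℝ} {a e : ι → ℤ} (h : Leak69 μ s (sh ((r : ℤ), col) η) (sh ((r : ℤ), col) η') (FX69 g G col) T ωB r' R₀ a e)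
    (hG : ∀ y, 0 ≤ G y) (hpp : ∀ k, 0 < p k) (hp : ∀ k, r ≤ k → k < r + T → p k = Real.exp (s + g)) {mo ex : Finset ℤ}
    (hmo : ∀ x y : ℤ, Mo69 a e r' x y → x + col ∈ mo ∧ y + col ∈ ex) : LeakV69 μ s (wt η) (wt η') p G r T col ωB R₀ mo ex := by
  classical
  refine ⟨fun t m x htm hx => ?_, fun x => ?_⟩
  · have h1 := h.out m t x htm hx
    rw [MF_kx (μ := μ) (s := s) (η := η') htm hp, MF_kx (μ := μ) (s := s) (η := η) htm hp] at h1
    refine le_of_mul_le_mul_left (a := Real.exp (g * x - m * lam μ s)) ?_ (Real.exp_pos _)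
    calc _ ≤ _ := h1
      _ = _ := by ring
  obtain ⟨x', rfl⟩ : ∃ x' : ℤ, x = x' + col := ⟨x - col, by ring⟩
  have h1 := h.row x'
  have h00 : ((0 : ℤ), x') = ((((0 : ℕ) : ℤ), x') : Pt) := by simp
  rw [h00, MF_kx (μ := μ) (s := s) (η := η') (t := 0) (m := T) (zero_add T) hp, MF_kx (μ := μ) (s := s) (η := η) (t := 0) (m := T) (zero_add T) hp,
    add_zero] at h1
  obtain ⟨ρ, hρ⟩ : ∃ ρ : ℝ, ρ = Real.exp (g * x' - T * lam μ s) := ⟨_, rfl⟩
  have hρ0 : 0 < ρ := by rw [hρ]; exact Real.exp_pos _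
  -- the pairs, in the letters of the model
  have h2 : ∑ y ∈ Finset.Icc (0 : ℤ) (T : ℤ), (if Mo69 a e r' x' (x' + y) then
      W μ s (sh ((r : ℤ), col) η') (((0 : ℕ) : ℤ), x') T y * FX69 g G col (x' + y) else 0) ≤
      ρ * ∑ y ∈ (Finset.Icc (x' + col) (x' + col + T)).filter (fun y => x' + col ∈ mo ∧ y ∈ ex),
        kx (wt η') p r T (x' + col) y * G y := by
    have h3 : ∑ y ∈ Finset.Icc (0 : ℤ) (T : ℤ), (if Mo69 a e r' x' (x' + y) then
        W μ s (sh ((r : ℤ), col) η') (((0 : ℕ) : ℤ), x') T y * FX69 g G col (x' + y) else 0) =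
        ∑ y ∈ Finset.Icc (x' + col) (x' + col + T),
          (if Mo69 a e r' x' (y - col) then ρ * (kx (wt η') p r T (x' + col) y * G y) else 0) := by
      refine Finset.sum_bij (fun y _ => x' + col + y) (fun y hy => ?_) (fun a _ b _ hab => by simpa using hab) (fun y hy => ?_) (fun y hy => ?_)
      · rw [Finset.mem_Icc] at hy ⊢
        omega
      · rw [Finset.mem_Icc] at hy
        exact ⟨y - (x' + col), Finset.mem_Icc.2 ⟨by omega, by omega⟩, by ring⟩
      · have e1 : x' + col + y - col = x' + y := by ring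
        have e2 : x' + col + y - (x' + col) = y := by ring
        rw [e1]
        by_cases hm : Mo69 a e r' x' (x' + y)
        · rw [if_pos hm, if_pos hm, kx_W (μ := μ) (s := s) (h := g) η' r (x' + col) T (x' + col + y) hp, e2]
          have e4 := W_sh (μ := μ) (s := s) η' ((((0 : ℕ) : ℤ), x') : Pt) ((r : ℤ), col) T y
          have e5 : ((((0 : ℕ) : ℤ), x') : Pt) + ((r : ℤ), col) = ((r : ℤ), x' + col) := by
            ext
            · show ((0 : ℕ) : ℤ) + (r : ℤ) = (r : ℤ)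
              simp
            · rfl
          rw [e5] at e4
          rw [e4]
          unfold FX69
          have e6 : x' + y + col = x' + col + y := by ring
          have e7 : Real.exp (g * ((x' + y : ℤ) : ℝ)) = ρ * Real.exp (-(T * lam μ s)) * Real.exp (T * lam μ s + g * (y : ℝ)) * Real.exp (T * lam μ s) *
              Real.exp (-(T * lam μ s)) * Real.exp (T * lam μ s) := by
            rw [hρ, ← Real.exp_add, ← Real.exp_add, ← Real.exp_add, ← Real.exp_add, ← Real.exp_add]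
            congr 1
            push_cast
            ring
          rw [e6, e7]
          have e8 : Real.exp (-(T * lam μ s)) * Real.exp (T * lam μ s) = 1 := by rw [← Real.exp_add]; simp
          linear_combination (ρ * Real.exp (T * lam μ s + g * (y : ℝ)) * W μ s η' ((r : ℤ), x' + col) T y * G (x' + col + y)) *
            (Real.exp (-(T * lam μ s)) * Real.exp (T * lam μ s) + 1) * e8
        · rw [if_neg hm, if_neg hm]
    rw [h3, Finset.mul_sum, Finset.sum_filter]
    refine Finset.sum_le_sum fun y _ => ?_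
    have h4 : 0 ≤ kx (wt η') p r T (x' + col) y * G y := mul_nonneg (kx_nonneg (wt_pos η') hpp _ _ _ _) (hG _)
    by_cases hm : Mo69 a e r' x' (y - col)
    · have h5 := hmo x' (y - col) hm
      rw [sub_add_cancel] at h5
      rw [if_pos hm, if_pos h5]
    · rw [if_neg hm]
      split_ifs
      · exact mul_nonneg hρ0.le h4
      · exact le_rfl
  rw [← hρ] at h1
  have h4 : VX69 (wt η') p r T G (x' + col) =
      ∑ y ∈ (Finset.Icc (x' + col) (x' + col + T)).filter (fun y => x' + col ∈ mo ∧ y ∈ ex), kx (wt η') p r T (x' + col) y * G y +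
      ∑ y ∈ (Finset.Icc (x' + col) (x' + col + T)).filter (fun y => ¬ (x' + col ∈ mo ∧ y ∈ ex)), kx (wt η') p r T (x' + col) y * G y := by
    unfold VX69
    exact (Finset.sum_filter_add_sum_filter_not _ _ _).symm
  rw [h4] at h1
  have h5 : ρ * ∑ y ∈ (Finset.Icc (x' + col) (x' + col + T)).filter (fun y => ¬ (x' + col ∈ mo ∧ y ∈ ex)),
        kx (wt η') p r T (x' + col) y * G y ≤ ρ * (R₀ * VX69 (wt η) p r T G (x' + col)) := by
    linarith
  exact le_of_mul_le_mul_left h5 hρ0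

end Bridge

/-! ### Consequences in the letters of TubO87, CmpG20 -/

section Use

variable {w w' : ℕ → ℤ → ℝ} {p : ℕ → ℝ} {N r T : ℕ} {col : ℤ} {ωB R₀ : ℝ} {mo ex : Finset ℤ}

/-- `LeakLX`. -/
theorem LeakV69.lx (h : LeakV69 μ s w w' p (Mx w p N (r + T)) r T col ωB R₀ mo ex) (hw : ∀ k y, 0 < w k y) (hN : r + T < N) :
    LeakLX w w' p N r T mo ex R₀ := by
  intro x
  have h1 := h.row x
  rwa [VX_Mx hw hN] at h1

/-- **`bw` off the window**, every row of the slab. The environment is not changed at the site and beyond the row `r + T`. -/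
theorem LeakV69.bw_out (h : LeakV69 μ s w w' p (Mx w p N (r + T)) r T col ωB R₀ mo ex) (hw : ∀ k y, 0 < w k y) (hw' : ∀ k y, 0 < w' k y)
    (hN : r + T < N) (hfut : ∀ i, r + T < i → ∀ y, w' i y = w i y) {t : ℕ} (ht : t ≤ T) {x : ℤ} (hx : ωB < lat69 μ s t x)
    (hsite : w' (r + t) (x + col) = w (r + t) (x + col)) :
    bw w' p (r + t) (N - (r + t)) (x + col) ≤ R₀ * bw w p (r + t) (N - (r + t)) (x + col) := by
  have h1 := h.out t (T - t) x (by omega) hx
  have e1 : r + t + (T - t) = r + T := by omega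
  have e2 : VX69 w p (r + t) (T - t) (Mx w p N (r + T)) (x + col) = Mx w p N (r + t) (x + col) := by
    have := VX_Mx (w := w) (p := p) hw (N := N) (i := r + t) (n := T - t) (by omega) (x + col)
    rwa [e1] at this
  have e3 : Mx w p N (r + T) = Mx w' p N (r + T) := by
    funext y
    unfold Tb87.Mx
    rw [Mo_eq (w := w) (w' := w') (p := p) (N := N) (r2 := r + T + 1) (fun i hi y => hfut i (by omega) y) le_rfl,
      Mo_eq (w := w) (w' := w') (p := p) (N := N) (r2 := r + T + 1) (fun i hi y => hfut i (by omega) y) le_rfl]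
  have e4 : VX69 w' p (r + t) (T - t) (Mx w' p N (r + T)) (x + col) = Mx w' p N (r + t) (x + col) := by
    have := VX_Mx (w := w') (p := p) hw' (N := N) (i := r + t) (n := T - t) (by omega) (x + col)
    rwa [e1] at this
  rw [e2, e3, e4] at h1
  have k1 : bw w' p (r + t) (N - (r + t)) (x + col) = Mo w' p N (r + t) (x + col) := rfl
  have k2 : bw w p (r + t) (N - (r + t)) (x + col) = Mo w p N (r + t) (x + col) := rfl
  rw [k1, k2, Mo_Mx (show r + t < N by omega), Mo_Mx (show r + t < N by omega), hsite]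
  calc w (r + t) (x + col) * Mx w' p N (r + t) (x + col) ≤ w (r + t) (x + col) * (R₀ * Mx w p N (r + t) (x + col)) :=
        mul_le_mul_of_nonneg_left h1 (hw _ _).le
    _ = _ := by ring

/-- **`bw` at the row `r`** (rows `(r, r + T]` changed): the leak of CmpG20. -/
theorem LeakV69.bw_row (h : LeakV69 μ s w w' p (Mx w p N (r + T)) r T col ωB R₀ mo ex) (hw : ∀ k y, 0 < w k y) (hw' : ∀ k y, 0 < w' k y)
    (hp : ∀ k, 0 < p k) (hN : r + T < N) (hfut : ∀ i, r + T < i → ∀ y, w' i y = w i y) {x : ℤ} (hsite : w' r x = w r x) :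
    bw w' p r (N - r) x ≤ (if x ∈ mo then ∑ y ∈ ex, ker w' p r T x y * bw w' p (r + T) (N - (r + T)) y else 0) +
      R₀ * bw w p r (N - r) x := by
  classical
  have h1 := h.row x
  rw [VX_Mx hw hN] at h1
  have e3 : Mx w p N (r + T) = Mx w' p N (r + T) := by
    funext y
    unfold Tb87.Mx
    rw [Mo_eq (w := w) (w' := w') (p := p) (N := N) (r2 := r + T + 1) (fun i hi y => hfut i (by omega) y) le_rfl,
      Mo_eq (w := w) (w' := w') (p := p) (N := N) (r2 := r + T + 1) (fun i hi y => hfut i (by omega) y) le_rfl]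
  rw [e3] at h1
  have k1 : bw w' p r (N - r) x = Mo w' p N r x := rfl
  have k2 : bw w p r (N - r) x = Mo w p N r x := rfl
  have k3 : ∀ y, bw w' p (r + T) (N - (r + T)) y = Mo w' p N (r + T) y := fun y => rfl
  have h2 : Mx w' p N r x = ∑ y ∈ (Finset.Icc x (x + T)).filter (fun y => x ∈ mo ∧ y ∈ ex), kx w' p r T x y * Mx w' p N (r + T) y +
      ∑ y ∈ (Finset.Icc x (x + T)).filter (fun y => ¬ (x ∈ mo ∧ y ∈ ex)), kx w' p r T x y * Mx w' p N (r + T) y := by
    rw [Finset.sum_filter_add_sum_filter_not]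
    exact Mx_kx hw' hN x
  have h3 : w' r x * ∑ y ∈ (Finset.Icc x (x + T)).filter (fun y => x ∈ mo ∧ y ∈ ex), kx w' p r T x y * Mx w' p N (r + T) y ≤
      if x ∈ mo then ∑ y ∈ ex, ker w' p r T x y * bw w' p (r + T) (N - (r + T)) y else 0 := by
    by_cases hx : x ∈ mo
    · rw [if_pos hx, Finset.mul_sum]
      calc _ = ∑ y ∈ (Finset.Icc x (x + T)).filter (fun y => x ∈ mo ∧ y ∈ ex), ker w' p r T x y * Mo w' p N (r + T) y :=
            Finset.sum_congr rfl fun y _ => (ker_Mo_kx hw' hN x y).symm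
        _ ≤ _ := by
            refine Finset.sum_le_sum_of_subset_of_nonneg (fun y hy => (Finset.mem_filter.1 hy).2.2) fun y _ _ => ?_
            exact mul_nonneg (ker_nonneg hw' hp _ _ _ _) (Mo_pos hw' hp _ _).le
    · rw [if_neg hx]
      refine le_of_eq ?_
      rw [Finset.sum_eq_zero, mul_zero]
      intro y hy
      exact absurd (Finset.mem_filter.1 hy).2.1 hx
  rw [k1, k2, Mo_Mx (show r < N by omega), Mo_Mx (show r < N by omega) x, h2, mul_add]
  refine add_le_add h3 ?_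
  rw [hsite]
  calc _ ≤ w r x * (R₀ * Mx w p N r x) := mul_le_mul_of_nonneg_left h1 (hw _ _).le
    _ = _ := by ring

end Use

end

end Pool.Agent.W_7d29a1_C1
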