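import Pool.Agent.W_7d29a1_C1.ExitB35
import Pool.Agent.W_7d29a1_C1.JmpN67

/-!
[C1] THE EXIT OF A LONG BRIDGE IN ITS FIRST ROWS (helper56, for BoxM35 of helper35). Bridge from the origin to `(n, y)`,
`|y - sl n| ≤ K wd n`; the mean quenched probability to leave the strip of half width `d₀ wd n` in the rows `0, ..., m` is at most `e`
for `m ≤ θ n`, `θ = θ (K, e, d₀)`. The cost of the exit in `m` rows is of the order `d₀ (wd n / wd m) EE m`, which is larger than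
`EE n` by a power of `n / m` (`wd_gain` of helper67).
-/

set_option autoImplicit false

namespace Pool.Agent.W_7d29a1_C1.H56

open MeasureTheory ProbabilityTheory Filter Topology Finset
open Pool.Agent.W_7d29a1_F Pool.Agent.W_7d29a1_h4g Pool.Agent.W_7d29a1_H Pool.Agent.W_7d29a1_HS
open Pool.Agent.W_7d29a1_X (pos pth GS pth_nonneg Mt Mt_one pos_nonneg pos_le sum_pth pos_inter)
open Pool.Agent.W_7d29a1_C1.Arr89
open Pool.Agent.W_7d29a1_C1.Exit35
open Pool.Agent.W_7d29a1_C1.Meet35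
open Pool.Agent.W_7d29a1_C1.MeetG35
open Pool.Agent.W_7d29a1_C1.MeetL35
open Pool.Agent.W_7d29a1_C1.MeetP35
open Pool.Agent.W_7d29a1_C1.EpK35

noncomputable section

variable {μ : Measure ℝ} {s : ℝ}

theorem mem_St56 (ρ : ℝ) (k : ℕ) (x : ℤ) : ((((k : ℤ) + 1, x) : Pt) ∈ St μ s ρ 0) ↔ |(x : ℝ) - sl μ s * ((k : ℝ) + 1)| ≤ ρ := by
  unfold St tb
  rw [Set.mem_ofPred_eq]
  have e1 : (((((k : ℤ) + 1, x) : Pt).2 - (0 : Pt).2 : ℤ) : ℝ) = (x : ℝ) := by
    show ((x - 0 : ℤ) : ℝ) = x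
    rw [sub_zero]
  have e2 : (((((k : ℤ) + 1, x) : Pt).1 - (0 : Pt).1 : ℤ) : ℝ) = (k : ℝ) + 1 := by
    show (((k : ℤ) + 1 - 0 : ℤ) : ℝ) = _
    rw [sub_zero]
    push_cast
    ring
  rw [e1, e2]

open Classical in
/-- The exit of the bridge in the first rows, through the masses of the paths which leave the strip there. -/
theorem exG_le_mo (ρ : ℝ) (η : Env) (T₁ T₂ : ℕ) (y : ℤ) :
    exG μ s ρ η (gB μ s η T₁ T₂ y) T₁ 0 * W μ s η 0 (T₁ + T₂) y ≤
      ∑ S ∈ (range T₁).powerset, if ¬ Stay (St μ s ρ 0) T₁ S then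
        pth μ s η T₁ S * Real.exp (V μ s η ((T₁ : ℤ), pos S T₁) T₂) else 0 := by
  have e1 : Zt μ s η (gB μ s η T₁ T₂ y) T₁ 0 0 = W μ s η 0 (T₁ + T₂) y := by
    rw [Zt_gB η T₁ T₂ y T₁ 0 (by omega), sub_zero]
    rfl
  have hs0 : sh (0, (0 : ℤ)) η = η := by
    funext p
    show η (p + (0, 0)) = η p
    congr 1
    exact add_zero p
  unfold exG
  rw [sum_mul]
  refine sum_le_sum fun S _ => ?_
  by_cases h4 : ¬ Stay (St μ s ρ 0) T₁ S
  · rw [if_pos h4, if_pos h4]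
    unfold Gg
    rw [e1, hs0, zero_add]
    have hp := pth_nonneg (μ := μ) (s := s) η T₁ S
    have hg := gB_le (μ := μ) (s := s) η T₁ T₂ y (pos S T₁)
    have hg0 := gB_nonneg (μ := μ) (s := s) η T₁ T₂ y (pos S T₁)
    have hW := W_nonneg (μ := μ) (s := s) η 0 (T₁ + T₂) y
    rcases hW.eq_or_lt with hW0 | hW0
    · rw [← hW0, mul_zero]
      positivity
    · rw [div_mul_cancel₀ _ hW0.ne']
      exact mul_le_mul_of_nonneg_left hg hp
  · rw [if_neg h4, if_neg h4, zero_mul]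

open Classical in
/-- **THE SPLIT**: the paths which leave the strip of half width `ρ` in the first `T₁` rows: those which are at the row `T₁` in the window
of half width `ρ'` (the future is at most `exp b`), and those which leave the strip of half width `ρ'`. -/
theorem mo_split (ρ ρ' b : ℝ) (η : Env) {T₁ : ℕ} (T₂ : ℕ) (hT : 1 ≤ T₁)
    (hb : ∀ x : ℤ, |(x : ℝ) - sl μ s * T₁| ≤ ρ' → V μ s η ((T₁ : ℤ), x) T₂ ≤ b) :
    (∑ S ∈ (range T₁).powerset, if ¬ Stay (St μ s ρ 0) T₁ S then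
      pth μ s η T₁ S * Real.exp (V μ s η ((T₁ : ℤ), pos S T₁) T₂) else 0) ≤
      (Real.exp (V μ s η 0 T₁) - cf μ s ρ η 0 T₁) * Real.exp b +
        (Real.exp (V μ s η 0 (T₁ + T₂)) - cf μ s ρ' η 0 (T₁ + T₂)) := by
  have h1 : (Real.exp (V μ s η 0 T₁) - cf μ s ρ η 0 T₁) * Real.exp b =
      ∑ S ∈ (range T₁).powerset, if ¬ Stay (St μ s ρ 0) T₁ S then pth μ s η T₁ S * Real.exp b else 0 := by
    rw [cf_path, ← sum_pth_all, ← sum_sub_distrib, sum_mul]
    refine sum_congr rfl fun S _ => ?_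
    by_cases h4 : Stay (St μ s ρ 0) T₁ S
    · rw [if_pos h4, if_neg (not_not.2 h4), sub_self, zero_mul]
    · rw [if_neg h4, if_pos h4, sub_zero]
  rw [h1]
  refine le_trans ?_ (add_le_add le_rfl (mass_out ρ' η T₁ T₂))
  rw [← sum_add_distrib]
  refine sum_le_sum fun S _ => ?_
  have hp := pth_nonneg (μ := μ) (s := s) η T₁ S
  by_cases h4 : Stay (St μ s ρ 0) T₁ S
  · rw [if_neg (not_not.2 h4), if_neg (not_not.2 h4), zero_add]
    split_ifs
    · exact le_rfl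
    · positivity
  · rw [if_pos h4, if_pos h4]
    by_cases h5 : |((pos S T₁ : ℤ) : ℝ) - sl μ s * T₁| ≤ ρ'
    · have h6 := hb _ h5
      have h7 : pth μ s η T₁ S * Real.exp (V μ s η ((T₁ : ℤ), pos S T₁) T₂) ≤ pth μ s η T₁ S * Real.exp b :=
        mul_le_mul_of_nonneg_left (Real.exp_le_exp.2 h6) hp
      have h8 : 0 ≤ (if ¬ Stay (St μ s ρ' 0) T₁ S then
          pth μ s η T₁ S * Real.exp (V μ s η ((T₁ : ℤ), pos S T₁) T₂) else 0) := by
        split_ifs
        · exact le_rfl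
        · positivity
      linarith
    · have h6 : ¬ Stay (St μ s ρ' 0) T₁ S := by
        intro h7
        have h8 := h7 (T₁ - 1) (by omega)
        rw [mem_St56] at h8
        have h9 : T₁ - 1 + 1 = T₁ := by omega
        have h10 : (((T₁ - 1 : ℕ) : ℝ) + 1) = (T₁ : ℝ) := by
          have : (((T₁ - 1 + 1 : ℕ)) : ℝ) = (T₁ : ℝ) := by rw [h9]
          rw [← this]
          push_cast
          ring
        rw [h9, h10] at h8
        exact h5 h8
      rw [if_pos h6]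
      have h7 : 0 ≤ pth μ s η T₁ S * Real.exp b := by positivity
      linarith

variable [IsProbabilityMeasure μ] {c C : ℝ} {n₀ : ℕ}

/-- The strip is wider than the number of rows: no exit. -/
theorem exG_zero (h : In μ s c C n₀) {ρ : ℝ} {T : ℕ} (hρ : (T : ℝ) ≤ ρ) (η : Env) (g : ℤ → ℝ) : exG μ s ρ η g T 0 = 0 := by
  unfold exG
  refine sum_eq_zero fun S _ => if_neg ?_
  rw [not_not]
  intro k hk
  rw [mem_St56]
  have h1 := pos_nonneg S (k + 1)
  have h2 := pos_le S (k + 1)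
  have h1' : (0 : ℝ) ≤ ((pos S (k + 1) : ℤ) : ℝ) := by exact_mod_cast h1
  have h2' : ((pos S (k + 1) : ℤ) : ℝ) ≤ (k : ℝ) + 1 := by exact_mod_cast h2
  have hs0 := h.sl_pos
  have hs1 := h.sl_lt
  have hkT : (k : ℝ) + 1 ≤ T := by exact_mod_cast hk
  have hk0 : (0 : ℝ) ≤ (k : ℝ) + 1 := by positivity
  have h3 : sl μ s * ((k : ℝ) + 1) ≤ 1 * ((k : ℝ) + 1) := mul_le_mul_of_nonneg_right hs1.le hk0
  have h4 : 0 ≤ sl μ s * ((k : ℝ) + 1) := mul_nonneg hs0.le hk0
  rw [abs_le]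
  constructor <;> linarith

omit [IsProbabilityMeasure μ] in
/-- The bound at one environment. -/
theorem point56 {η : Env} {n m : ℕ} {y : ℤ} {c C u u' v L R K' ρ : ℝ} (hm1 : 1 ≤ m) (hmn' : m ≤ n) (hy0 : 0 ≤ y) (hyT : y ≤ n)
    (hEn : 0 ≤ EE μ s n)
    (q1 : Real.exp (V μ s η 0 m) - cf μ s ρ η 0 m < Real.exp (-(c / 64 * R * EE μ s m)) * Real.exp (V μ s η 0 m))
    (q2 : Real.exp (V μ s η 0 n) - cf μ s (K' * wd μ s n) η 0 n < Real.exp (-(c / 64 * K' * EE μ s n)) * Real.exp (V μ s η 0 n))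
    (q3 : V μ s η 0 n ≤ u * (C * EE μ s n)) (q4 : V μ s η 0 m ≤ u * (C * EE μ s n))
    (q5 : ∀ x : ℤ, |(x : ℝ) - sl μ s * m| ≤ K' * wd μ s n → V μ s η ((m : ℤ), x) (n - m) ≤ v * (C * EE μ s n))
    (q6 : max (X μ s η 0 n y) 0 < u' * EE μ s n) (hLE : L ≤ L * EE μ s n)
    (h8 : (u * C + v * C + u' + L) * EE μ s n ≤ c / 64 * R * EE μ s m) (h9' : u * C + u' + L ≤ c / 64 * K') :
    exG μ s ρ η (gB μ s η m (n - m) y) m 0 ≤ 2 * Real.exp (-L) := by
  have hg0 : ∀ z, 0 ≤ gB μ s η m (n - m) y z := fun z => gB_nonneg η m (n - m) y z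
  have h3 := exG_le_mo (μ := μ) (s := s) ρ η m (n - m) y
  have h4 := mo_split (μ := μ) (s := s) ρ (K' * wd μ s n) (v * (C * EE μ s n)) η (n - m) hm1 q5
  have hmm : m + (n - m) = n := by omega
  rw [hmm] at h3 h4
  have hWp : 0 < W μ s η 0 n y := W_pos η 0 hy0 hyT
  have h5 : Real.exp (-(u' * EE μ s n)) ≤ W μ s η 0 n y := by
    rw [← Real.le_log_iff_exp_le hWp]
    have h5 : X μ s η 0 n y < u' * EE μ s n := lt_of_le_of_lt (le_max_left _ _) q6
    unfold X at h5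
    linarith
  have h6 : exG μ s ρ η (gB μ s η m (n - m) y) m 0 * Real.exp (-(u' * EE μ s n)) ≤
      Real.exp (-(c / 64 * R * EE μ s m)) * Real.exp (V μ s η 0 m) * Real.exp (v * (C * EE μ s n)) +
      Real.exp (-(c / 64 * K' * EE μ s n)) * Real.exp (V μ s η 0 n) := by
    refine (mul_le_mul_of_nonneg_left h5 (exG_nonneg hg0 _ _ _)).trans (h3.trans (h4.trans ?_))
    exact add_le_add (mul_le_mul_of_nonneg_right q1.le (Real.exp_pos _).le) q2.le
  have h7 : Real.exp (-(c / 64 * R * EE μ s m)) * Real.exp (V μ s η 0 m) * Real.exp (v * (C * EE μ s n)) ≤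
      Real.exp (-L) * Real.exp (-(u' * EE μ s n)) := by
    rw [← Real.exp_add, ← Real.exp_add, ← Real.exp_add]
    refine Real.exp_le_exp.2 ?_
    have h9 : (u * C + v * C + u' + L) * EE μ s n = u * (C * EE μ s n) + v * (C * EE μ s n) + u' * EE μ s n +
        L * EE μ s n := by ring
    rw [h9] at h8
    linarith
  have h8' : Real.exp (-(c / 64 * K' * EE μ s n)) * Real.exp (V μ s η 0 n) ≤
      Real.exp (-L) * Real.exp (-(u' * EE μ s n)) := by
    rw [← Real.exp_add, ← Real.exp_add]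
    refine Real.exp_le_exp.2 ?_
    have h10 := mul_le_mul_of_nonneg_right h9' hEn
    have h11 : (u * C + u' + L) * EE μ s n = u * (C * EE μ s n) + u' * EE μ s n + L * EE μ s n := by ring
    rw [h11] at h10
    linarith
  have h9 : exG μ s ρ η (gB μ s η m (n - m) y) m 0 * Real.exp (-(u' * EE μ s n)) ≤
      (2 * Real.exp (-L)) * Real.exp (-(u' * EE μ s n)) := by linarith
  exact le_of_mul_le_mul_right h9 (Real.exp_pos _)

/-- Six bad events. -/
theorem six56 {f : Env → ℝ} {a b : ℝ} (hf : Measurable f) (f0 : ∀ η, 0 ≤ f η) (f1 : ∀ η, f η ≤ 1) (ha : 0 ≤ a)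
    {B1 B2 B3 B4 B5 B6 : Set Env} (m1 : MeasurableSet B1) (m2 : MeasurableSet B2) (m3 : MeasurableSet B3) (m4 : MeasurableSet B4)
    (m5 : MeasurableSet B5) (m6 : MeasurableSet B6) (hpt : ∀ η, η ∉ B1 → η ∉ B2 → η ∉ B3 → η ∉ B4 → η ∉ B5 → η ∉ B6 → f η ≤ a)
    (p1 : (law μ).real B1 ≤ b) (p2 : (law μ).real B2 ≤ b) (p3 : (law μ).real B3 ≤ b) (p4 : (law μ).real B4 ≤ b)
    (p5 : (law μ).real B5 ≤ b) (p6 : (law μ).real B6 ≤ b) : ∫ η, f η ∂(law μ) ≤ a + 6 * b := by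
  have hmB : MeasurableSet (B1 ∪ (B2 ∪ (B3 ∪ (B4 ∪ (B5 ∪ B6))))) := m1.union (m2.union (m3.union (m4.union (m5.union m6))))
  have h1 : ∀ η, f η ≤ a + (B1 ∪ (B2 ∪ (B3 ∪ (B4 ∪ (B5 ∪ B6))))).indicator (fun _ => (1 : ℝ)) η := by
    intro η
    by_cases q : η ∈ B1 ∪ (B2 ∪ (B3 ∪ (B4 ∪ (B5 ∪ B6))))
    · rw [Set.indicator_of_mem q]
      have := f1 η
      linarith
    · rw [Set.indicator_of_notMem q, add_zero]
      simp only [Set.mem_union, not_or] at q
      exact hpt η q.1 q.2.1 q.2.2.1 q.2.2.2.1 q.2.2.2.2.1 q.2.2.2.2.2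
  have h2 := integral_mono (int_01 hf f0 f1) ((integrable_const (μ := law μ) a).add ((integrable_const (1 : ℝ)).indicator hmB)) h1
  have h3 : ∫ η, ((fun _ : Env => a) + (B1 ∪ (B2 ∪ (B3 ∪ (B4 ∪ (B5 ∪ B6))))).indicator (fun _ => (1 : ℝ))) η ∂(law μ) =
      a + (law μ).real (B1 ∪ (B2 ∪ (B3 ∪ (B4 ∪ (B5 ∪ B6))))) := by
    show ∫ η, (a + (B1 ∪ (B2 ∪ (B3 ∪ (B4 ∪ (B5 ∪ B6))))).indicator (fun _ => (1 : ℝ)) η) ∂(law μ) = _
    rw [integral_add (integrable_const _) ((integrable_const (1 : ℝ)).indicator hmB), integral_indicator_const _ hmB]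
    simp
  rw [h3] at h2
  have h4 := measureReal_union_le (μ := law μ) B1 (B2 ∪ (B3 ∪ (B4 ∪ (B5 ∪ B6))))
  have h5 := measureReal_union_le (μ := law μ) B2 (B3 ∪ (B4 ∪ (B5 ∪ B6)))
  have h6 := measureReal_union_le (μ := law μ) B3 (B4 ∪ (B5 ∪ B6))
  have h7 := measureReal_union_le (μ := law μ) B4 (B5 ∪ B6)
  have h8 := measureReal_union_le (μ := law μ) B5 B6
  linarith

/-- **THE EXIT OF A LONG BRIDGE IN ITS FIRST ROWS.** -/
theorem exitS56 (h : In μ s c C n₀) {K e d₀ : ℝ} (hK : 0 ≤ K) (he : 0 < e) (hd : 0 < d₀) : ∃ θ : ℝ, 0 < θ ∧ θ ≤ 1 ∧ ∃ n₁ : ℕ,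
    ∀ n m : ℕ, n₁ ≤ n → (m : ℝ) ≤ θ * n → ∀ y : ℤ, |(y : ℝ) - sl μ s * n| ≤ K * wd μ s n →
    ∫ η, exG μ s (d₀ * wd μ s n) η (gB μ s η m (n - m) y) m 0 ∂(law μ) ≤ e := by
  have hc0 := h.c0
  have hC0 : 0 < C := lt_of_lt_of_le one_pos h.C1
  obtain ⟨D, hD, n1, hep⟩ := ep_K h hK
  obtain ⟨R0, hR01, hR0c, n2, hn2, hex⟩ := exit_main h
  obtain ⟨Kg, a, n3, hKg, ha, hn3, hgain⟩ := wd_gain h
  -- the constants
  obtain ⟨u, hu0, hu1⟩ : ∃ u : ℝ, 0 < u ∧ C * Real.exp (-u) ≤ e / 8 := by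
    have h1 : Tendsto (fun x : ℝ => C * Real.exp (-x)) atTop (𝓝 0) := by
      have := Real.tendsto_exp_neg_atTop_nhds_zero.const_mul C
      rw [mul_zero] at this
      exact this
    obtain ⟨u, h2, h3⟩ := ((h1.eventually_le_const (show (0 : ℝ) < e / 8 by positivity)).and (eventually_gt_atTop 0)).exists
    exact ⟨u, h3, h2⟩
  obtain ⟨u', hu'⟩ : ∃ u' : ℝ, u' = 8 * D / e := ⟨_, rfl⟩
  have hu'0 : 0 < u' := by rw [hu']; positivity
  obtain ⟨L, hL0, hL⟩ : ∃ L : ℝ, 0 < L ∧ Real.exp (-L) ≤ e / 16 := by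
    obtain ⟨L, h2, h3⟩ := ((Real.tendsto_exp_neg_atTop_nhds_zero.eventually_le_const (show (0 : ℝ) < e / 16 by positivity)).and
      (eventually_gt_atTop 0)).exists
    exact ⟨L, h3, h2⟩
  have t2 : Tendsto (fun R : ℝ => 4 * (C * Real.exp (-(c * R / (16 * C))))) atTop (𝓝 0) := by
    have h2 : Tendsto (fun R : ℝ => c * R / (16 * C)) atTop atTop := by
      have h3 : (fun R : ℝ => c * R / (16 * C)) = fun R : ℝ => (c / (16 * C)) * R := by
        funext R
        ring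
      rw [h3]
      exact tendsto_id.const_mul_atTop (by positivity)
    have h4 := (Real.tendsto_exp_neg_atTop_nhds_zero.comp h2).const_mul (4 * C)
    rw [mul_zero] at h4
    refine h4.congr fun R => ?_
    show 4 * C * Real.exp (-(c * R / (16 * C))) = _
    ring
  obtain ⟨r2, h2⟩ := eventually_atTop.1 (t2.eventually_le_const (show (0 : ℝ) < e / 16 by positivity))
  obtain ⟨Rm, hRm⟩ : ∃ Rm : ℝ, Rm = max (max R0 r2) (256 / (c * e)) := ⟨_, rfl⟩
  have hRm1 : R0 ≤ Rm := by rw [hRm]; exact (le_max_left _ _).trans (le_max_left _ _)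
  have hRm2 : r2 ≤ Rm := by rw [hRm]; exact (le_max_right _ _).trans (le_max_left _ _)
  have hRm3 : 256 / (c * e) ≤ Rm := by rw [hRm]; exact le_max_right _ _
  have hRm0 : 1 ≤ Rm := hR01.trans hRm1
  -- the exit at the scale `m`
  have hexit : ∀ m : ℕ, n2 ≤ m → ∀ R : ℝ, Rm ≤ R →
      (law μ).real {η | Real.exp (-(c / 64 * R * EE μ s m)) * Real.exp (V μ s η 0 m) ≤
        Real.exp (V μ s η 0 m) - cf μ s (R * wd μ s m) η 0 m} ≤ e / 8 := by
    intro m hm R hR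
    have hR0 : 0 < R := by linarith
    have h3 := hex m hm R (hRm1.trans hR)
    have h4 := h2 R (hRm2.trans hR)
    have h5 := neg35 (μ := μ) (s := s) h.em m ({0} : Finset ℕ) (fun _ => (0 : Pt)) (u := c * R / 16) (by positivity)
    have h6 : (law μ).real {η | V μ s η 0 m ≤ -(c * R / 16 * EE μ s m)} ≤
        (law μ).real {η | c * R / 16 * EE μ s m ≤ ∑ i ∈ ({0} : Finset ℕ), max (-V μ s η 0 m) 0} := by
      refine measureReal_mono (fun η hη => ?_) (measure_ne_top _ _)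
      rw [Set.mem_ofPred_eq] at hη ⊢
      rw [sum_singleton]
      refine le_trans ?_ (le_max_left _ _)
      linarith
    have h7 : ((({0} : Finset ℕ).card : ℕ) : ℝ) / (c * R / 16) ≤ e / 16 := by
      rw [card_singleton, Nat.cast_one, div_le_iff₀ (by positivity)]
      have h8 : 256 / (c * e) ≤ R := hRm3.trans hR
      rw [div_le_iff₀ (by positivity)] at h8
      have h9 : e / 16 * (c * R / 16) = R * (c * e) / 256 := by ring
      rw [h9]
      linarith
    linarith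
  obtain ⟨K', hK'⟩ : ∃ K' : ℝ, K' = max Rm (64 / c * (u * C + u' + L)) := ⟨_, rfl⟩
  have hK'1 : Rm ≤ K' := by rw [hK']; exact le_max_left _ _
  have hK'2 : 64 / c * (u * C + u' + L) ≤ K' := by rw [hK']; exact le_max_right _ _
  have hK'0 : 0 < K' := by linarith
  obtain ⟨Ks, hKs⟩ := exists_nat_ge (2 * K')
  obtain ⟨v, hv0, hv1⟩ : ∃ v : ℝ, 0 < v ∧ ((Ks : ℝ) + 1) * (C * Real.exp (-v)) ≤ e / 8 := by
    have h1 : Tendsto (fun x : ℝ => (((Ks : ℝ) + 1) * C) * Real.exp (-x)) atTop (𝓝 0) := by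
      have := Real.tendsto_exp_neg_atTop_nhds_zero.const_mul (((Ks : ℝ) + 1) * C)
      rw [mul_zero] at this
      exact this
    obtain ⟨u, h2, h3⟩ := ((h1.eventually_le_const (show (0 : ℝ) < e / 8 by positivity)).and (eventually_gt_atTop 0)).exists
    exact ⟨u, h3, by linarith⟩
  obtain ⟨M, hM⟩ : ∃ M : ℝ, M = 64 / c * (u * C + v * C + u' + L) := ⟨_, rfl⟩
  have hM0 : 0 < M := by rw [hM]; positivity
  obtain ⟨Y, hY⟩ : ∃ Y : ℝ, Y = max M Rm * Kg / d₀ + 1 := ⟨_, rfl⟩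
  have hMR : 0 < max M Rm := lt_max_of_lt_left hM0
  have hY1 : 1 ≤ Y := by
    rw [hY]
    have : 0 ≤ max M Rm * Kg / d₀ := by positivity
    linarith
  have hY0 : 0 < Y := by linarith
  have hYd : max M Rm * Kg ≤ Y * d₀ := by
    rw [hY, add_mul, div_mul_cancel₀ _ hd.ne']
    linarith
  obtain ⟨q, hq⟩ : ∃ q : ℝ, q = Y ^ (1 / a) := ⟨_, rfl⟩
  have hq1 : 1 ≤ q := by
    rw [hq]
    exact Real.one_le_rpow hY1 (by positivity)
  have hq0 : 0 < q := by linarith
  have hqa : q ^ a = Y := by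
    rw [hq, ← Real.rpow_mul hY0.le, one_div_mul_cancel ha.ne', Real.rpow_one]
  -- the large times
  obtain ⟨m₁, hm₁⟩ : ∃ m₁ : ℕ, m₁ = max (max n2 n3) 1 := ⟨_, rfl⟩
  have hwdt : Tendsto (fun n : ℕ => d₀ * wd μ s n) atTop atTop := (wd_tendsto h).const_mul_atTop hd
  obtain ⟨n4, hn4⟩ := eventually_atTop.1 (hwdt.eventually_ge_atTop (m₁ : ℝ))
  refine ⟨1 / q, by positivity, by rw [div_le_one hq0]; exact hq1, max (max n1 m₁) (max n₀ n4), fun n m hn hmn y hy => ?_⟩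
  have hnn1 : n1 ≤ n := (le_max_left _ _).trans ((le_max_left _ _).trans hn)
  have hnm1 : m₁ ≤ n := (le_max_right _ _).trans ((le_max_left _ _).trans hn)
  have hnn0 : n₀ ≤ n := (le_max_left _ _).trans ((le_max_right _ _).trans hn)
  have hnn4 : n4 ≤ n := (le_max_right _ _).trans ((le_max_right _ _).trans hn)
  have hm₁2 : n2 ≤ m₁ := by rw [hm₁]; exact (le_max_left _ _).trans (le_max_left _ _)
  have hm₁3 : n3 ≤ m₁ := by rw [hm₁]; exact (le_max_right _ _).trans (le_max_left _ _)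
  have hm₁1 : 1 ≤ m₁ := by rw [hm₁]; exact le_max_right _ _
  have hn1 : 1 ≤ n := hm₁1.trans hnm1
  have hnR : (0 : ℝ) < n := by exact_mod_cast hn1
  -- the short times
  rcases Nat.lt_or_ge m m₁ with hsm | hsm
  · have h3 : (m : ℝ) ≤ d₀ * wd μ s n := by
      have h4 := hn4 n hnn4
      have h5 : (m : ℝ) ≤ m₁ := by exact_mod_cast hsm.le
      linarith
    have h4 : ∀ η : Env, exG μ s (d₀ * wd μ s n) η (gB μ s η m (n - m) y) m 0 = 0 := fun η => exG_zero h h3 η _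
    simp only [h4, integral_zero]
    exact he.le
  have hm1 : 1 ≤ m := hm₁1.trans hsm
  have hmR : (0 : ℝ) < m := by exact_mod_cast hm1
  have hmn' : m ≤ n := by
    have h3 : (m : ℝ) ≤ n := by
      refine hmn.trans ?_
      rw [one_div_mul_eq_div, div_le_iff₀ hq0]
      nlinarith
    exact_mod_cast h3
  have hwm := h.wd_pos hm1
  have hwn := h.wd_pos hn1
  have hEm := EE_pos (μ := μ) (s := s) m
  have hEn := EE_pos (μ := μ) (s := s) n
  have hE1 := one_le_EE (μ := μ) (s := s) n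
  have hEE : EE μ s m ≤ EE μ s n := EE_mono hmn'
  -- the ratio
  obtain ⟨R, hR⟩ : ∃ R : ℝ, R = d₀ * wd μ s n / wd μ s m := ⟨_, rfl⟩
  have hRw : R * wd μ s m = d₀ * wd μ s n := by
    rw [hR]
    field_simp
  have hR0' : 0 < R := by rw [hR]; positivity
  have hRE : max M Rm * EE μ s n ≤ R * EE μ s m := by
    have h3 := hgain m n (hm₁3.trans hsm) hmn'
    have h4 : Y ≤ ((n : ℝ) / m) ^ a := by
      rw [← hqa]
      refine Real.rpow_le_rpow hq0.le ?_ ha.le
      rw [le_div_iff₀ hmR]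
      rw [one_div_mul_eq_div, le_div_iff₀ hq0] at hmn
      linarith
    have h5 : Y * (EE μ s n * wd μ s m) ≤ Kg * (EE μ s m * wd μ s n) :=
      (mul_le_mul_of_nonneg_right h4 (by positivity)).trans h3
    have h6 : max M Rm * Kg * (EE μ s n * wd μ s m) ≤ Y * d₀ * (EE μ s n * wd μ s m) :=
      mul_le_mul_of_nonneg_right hYd (by positivity)
    have h7 : Kg * wd μ s m * (max M Rm * EE μ s n) ≤ Kg * wd μ s m * (R * EE μ s m) := by
      calc Kg * wd μ s m * (max M Rm * EE μ s n) = max M Rm * Kg * (EE μ s n * wd μ s m) := by ring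
        _ ≤ Y * d₀ * (EE μ s n * wd μ s m) := h6
        _ = d₀ * (Y * (EE μ s n * wd μ s m)) := by ring
        _ ≤ d₀ * (Kg * (EE μ s m * wd μ s n)) := mul_le_mul_of_nonneg_left h5 hd.le
        _ = Kg * (d₀ * wd μ s n) * EE μ s m := by ring
        _ = Kg * wd μ s m * (R * EE μ s m) := by rw [← hRw]; ring
    exact le_of_mul_le_mul_left h7 (by positivity)
  have hRM : M * EE μ s n ≤ R * EE μ s m := (mul_le_mul_of_nonneg_right (le_max_left _ _) hEn.le).trans hRE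
  have hRRm : Rm ≤ R := by
    have h3 : Rm * EE μ s m ≤ R * EE μ s m :=
      (mul_le_mul_of_nonneg_left hEE (by linarith)).trans ((mul_le_mul_of_nonneg_right (le_max_right _ _) hEn.le).trans hRE)
    exact le_of_mul_le_mul_right h3 hEm
  obtain ⟨hy0, hyT, hepy⟩ := hep n hnn1 y hy
  -- the bad events
  obtain ⟨B1, hB1⟩ : ∃ B1 : Set Env, B1 = {η | Real.exp (-(c / 64 * R * EE μ s m)) * Real.exp (V μ s η 0 m) ≤
        Real.exp (V μ s η 0 m) - cf μ s (R * wd μ s m) η 0 m} := ⟨_, rfl⟩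
  obtain ⟨B2, hB2⟩ : ∃ B2 : Set Env, B2 = {η | Real.exp (-(c / 64 * K' * EE μ s n)) * Real.exp (V μ s η 0 n) ≤
        Real.exp (V μ s η 0 n) - cf μ s (K' * wd μ s n) η 0 n} := ⟨_, rfl⟩
  obtain ⟨B3, hB3⟩ : ∃ B3 : Set Env, B3 = {η | u * (C * EE μ s n) < V μ s η 0 n} := ⟨_, rfl⟩
  obtain ⟨B4, hB4⟩ : ∃ B4 : Set Env, B4 = {η | u * (C * EE μ s n) < V μ s η 0 m} := ⟨_, rfl⟩
  obtain ⟨B5, hB5⟩ : ∃ B5 : Set Env, B5 = {η | ∃ x : ℤ, |(x : ℝ) - sl μ s * m| ≤ K' * wd μ s n ∧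
        v * (C * EE μ s n) < V μ s η ((m : ℤ), x) (n - m)} := ⟨_, rfl⟩
  obtain ⟨B6, hB6⟩ : ∃ B6 : Set Env, B6 = {η | u' * EE μ s n ≤ max (X μ s η 0 n y) 0} := ⟨_, rfl⟩
  have hmV : Measurable fun η : Env => V μ s η 0 n := measurable_V 0 n
  have hmVm : Measurable fun η : Env => V μ s η 0 m := measurable_V 0 m
  have hmX : Measurable fun η : Env => X μ s η 0 n y := X_meas s 0 n y
  have mB1 : MeasurableSet B1 := by
    rw [hB1]
    exact measurableSet_le ((Real.measurable_exp.comp hmVm).const_mul _)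
      ((Real.measurable_exp.comp hmVm).sub (measurable_cf35 _ _))
  have mB2 : MeasurableSet B2 := by
    rw [hB2]
    exact measurableSet_le ((Real.measurable_exp.comp hmV).const_mul _)
      ((Real.measurable_exp.comp hmV).sub (measurable_cf35 _ _))
  have mB3 : MeasurableSet B3 := by
    rw [hB3]
    exact measurableSet_lt measurable_const hmV
  have mB4 : MeasurableSet B4 := by
    rw [hB4]
    exact measurableSet_lt measurable_const hmVm
  have mB5 : MeasurableSet B5 := by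
    have h3 : B5 = ⋃ x : ℤ, {η | |(x : ℝ) - sl μ s * m| ≤ K' * wd μ s n ∧
        v * (C * EE μ s n) < V μ s η ((m : ℤ), x) (n - m)} := by
      rw [hB5]
      ext η
      rw [Set.mem_iUnion]
      rfl
    rw [h3]
    refine MeasurableSet.iUnion fun x => ?_
    exact (MeasurableSet.const _).inter (measurableSet_lt measurable_const (measurable_V _ _))
  have mB6 : MeasurableSet B6 := by
    rw [hB6]
    exact measurableSet_le measurable_const (hmX.max measurable_const)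
  have p1 : (law μ).real B1 ≤ e / 8 := by
    rw [hB1]
    exact hexit m (hm₁2.trans hsm) R hRRm
  have p2 : (law μ).real B2 ≤ e / 8 := by
    rw [hB2]
    exact hexit n (hm₁2.trans hnm1) K' hK'1
  have hluck0 : ∀ l : ℕ, l ≤ 4 * n → (law μ).real {η | u * (C * EE μ s n) < V μ s η 0 l} ≤ e / 8 := by
    intro l hl
    have h3 := sup_luck h hnn0 hn1 0 l hl 0 0 u
    have h4 : (law μ).real {η | u * (C * EE μ s n) < V μ s η 0 l} ≤
        (law μ).real {η | ∃ x : ℤ, (0 : ℝ) ≤ x ∧ (x : ℝ) ≤ 0 + ((0 : ℕ) : ℝ) * wd μ s n ∧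
        u * (C * EE μ s n) < V μ s η (0, x) l} := by
      refine measureReal_mono (fun η hη => ?_) (measure_ne_top _ _)
      rw [Set.mem_ofPred_eq] at hη ⊢
      refine ⟨0, by simp, by simp, ?_⟩
      exact hη
    push_cast at h3
    push_cast at h4
    linarith
  have p3 : (law μ).real B3 ≤ e / 8 := by
    rw [hB3]
    exact hluck0 n (by omega)
  have p4 : (law μ).real B4 ≤ e / 8 := by
    rw [hB4]
    exact hluck0 m (by omega)
  have p5 : (law μ).real B5 ≤ e / 8 := by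
    have h6 := sup_luck h hnn0 hn1 Ks (n - m) (by omega) (m : ℤ) (sl μ s * m - K' * wd μ s n) v
    refine le_trans (measureReal_mono (fun η hη => ?_) (measure_ne_top _ _)) (h6.trans hv1)
    rw [hB5] at hη
    obtain ⟨x, hx1, hx2⟩ := hη
    rw [abs_le] at hx1
    refine ⟨x, by linarith [hx1.1], ?_, hx2⟩
    have h7 : 2 * K' * wd μ s n ≤ Ks * wd μ s n := mul_le_mul_of_nonneg_right hKs hwn.le
    linarith [hx1.2]
  have p6 : (law μ).real B6 ≤ e / 8 := by
    have h3 := mul_meas_ge_le_integral_of_nonneg (μ := law μ) (f := fun η : Env => max (X μ s η 0 n y) 0)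
      (ae_of_all _ fun η => le_max_right _ _) (Xp_int h.em s 0 hy0 hyT) (u' * EE μ s n)
    have h4 : u' * EE μ s n * (law μ).real B6 ≤ D * EE μ s n := by
      rw [hB6]
      exact h3.trans hepy
    have h5 : u' * EE μ s n * (law μ).real B6 ≤ u' * EE μ s n * (e / 8) := by
      refine h4.trans (le_of_eq ?_)
      rw [hu']
      field_simp
    exact le_of_mul_le_mul_left h5 (by positivity)
  -- pointwise
  have hLE : L ≤ L * EE μ s n := by
    have := mul_le_mul_of_nonneg_left hE1 hL0.le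
    linarith
  have hM8 : (u * C + v * C + u' + L) * EE μ s n ≤ c / 64 * R * EE μ s m := by
    have h9 := mul_le_mul_of_nonneg_left hRM (show 0 ≤ c / 64 by positivity)
    have h10 : c / 64 * (M * EE μ s n) = (u * C + v * C + u' + L) * EE μ s n := by
      rw [hM]
      field_simp
    rw [h10] at h9
    linarith
  have hK8 : u * C + u' + L ≤ c / 64 * K' := by
    have h10 := mul_le_mul_of_nonneg_left hK'2 (show 0 ≤ c / 64 by positivity)
    have h11 : c / 64 * (64 / c * (u * C + u' + L)) = u * C + u' + L := by field_simp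
    rw [h11] at h10
    exact h10
  have hg0 : ∀ η : Env, ∀ z, 0 ≤ gB μ s η m (n - m) y z := fun η z => gB_nonneg η m (n - m) y z
  have hmex := measurable_exG (μ := μ) (s := s) (g := fun η => gB μ s η m (n - m) y) (fun z => measurable_gB m (n - m) y z)
    (d₀ * wd μ s n) m 0
  have h3 := six56 (μ := μ) hmex (fun η => exG_nonneg (hg0 η) _ _ _) (fun η => exG_le_one (hg0 η) _ _ _)
    (a := e / 8) (b := e / 8) (by positivity) mB1 mB2 mB3 mB4 mB5 mB6 (fun η q1 q2 q3 q4 q5 q6 => by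
      rw [hB1, Set.mem_ofPred_eq, not_le, hRw] at q1
      rw [hB2, Set.mem_ofPred_eq, not_le] at q2
      rw [hB3, Set.mem_ofPred_eq, not_lt] at q3
      rw [hB4, Set.mem_ofPred_eq, not_lt] at q4
      rw [hB5, Set.mem_ofPred_eq, not_exists] at q5
      rw [hB6, Set.mem_ofPred_eq, not_le] at q6
      have h10 := point56 (μ := μ) (s := s) hm1 hmn' hy0 hyT hEn.le q1 q2 q3 q4 (fun x hx => by
          by_contra h5
          exact q5 x ⟨hx, not_le.1 h5⟩) q6 hLE hM8 hK8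
      linarith) p1 p2 p3 p4 p5 p6
  linarith

end

end Pool.Agent.W_7d29a1_C1.H56
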