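import Pool.Agent.W_7d29a1_C1.BoxA35
import Pool.Agent.W_7d29a1_C1.ExitS56

/-!
MP_7d29a1_pr, [C1], **THE FIRST MEETING OF TWO NEAR PATHS IS IN THE BOX** (helper35; the inside (InG) of `Box47`, `S83` for fresh typical
rows). `box_m`: rows `i, ..., i + n - 1`, left starts `xc - d w ≤ x ≤ xc - g w`, right starts `xc + g w ≤ x' ≤ xc + d w`, common ends
`|y - yc|, |y' - yc| ≤ d w`, `w = wd T`; off an event of probability at most `e` which reads only the rows `i + 1, ..., i + n - 1` the first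
meeting of the paths `x → y`, `x' → y'` is a contact of `Q` up to a part `e'` of their mass, `Q` = the rows `[i + n0, i + T)` and the
columns `|q - line| ≤ R w`, `n0 ≤ θ T`.
-/

set_option autoImplicit false

namespace Pool.Agent.W_7d29a1_C1.KM35

open Finset MeasureTheory Filter Topology
open Pool.Agent.W_7d29a1_F Pool.Agent.W_7d29a1_h4g Pool.Agent.W_7d29a1_H Pool.Agent.W_7d29a1_HS
open Pool.Agent.W_7d29a1_X (pos pth pth_nonneg pos_nonneg pos_le pos_zero)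
open Pool.Agent.W_7d29a1_C1.K91 (wt wt_pos)
open Pool.Agent.W_7d29a1_C1.U16 (ker ker_nonneg)
open Pool.Agent.W_7d29a1_C1.Bx47 (mq)
open Pool.Agent.W_7d29a1_C1.Meet35 (int_01)
open Pool.Agent.W_7d29a1_C1.EpK35 (ep_K)
open Pool.Agent.W_7d29a1_C1.MeetG35 (exG exG_nonneg exG_le_one measurable_exG)
open Pool.Agent.W_7d29a1_C1.MeetP35 (PBr gB gB_nonneg measurable_gB meet_c exit_br int_exG)

noncomputable section

variable {μ : Measure ℝ} {s : ℝ} [IsProbabilityMeasure μ] {c C : ℝ} {n₀ : ℕ}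

/-- The means of the five functions from the means of the exits. -/
theorem mean5 {n T n0 : ℕ} {xl xr xl' xr' yl yr : ℤ} {xc w R₁ g ρ m : ℝ} {lo hi md : ℕ → ℝ} (hRw : 0 ≤ R₁ * w) (hρ : 0 ≤ ρ)
    (hlo : ∀ k : ℕ, lo k = xc + sl μ s * k - (R₁ + 1) * w) (hhi : ∀ k : ℕ, hi k = xc + sl μ s * k + (R₁ + 1) * w)
    (hmd : ∀ k : ℕ, md k = xc + sl μ s * k) (c1 : xc - w ≤ xl) (c2 : (xr : ℝ) ≤ xc - g * w) (c3 : xc + g * w ≤ xl') (hw : 0 < w)
    (hg : 0 < g * w) (hρg : ρ ≤ g * w - 1)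
    (m1 : ∫ η, exG μ s (R₁ * w) η (gB μ s η T (n - T) yr) T xr ∂(law μ) ≤ m)
    (m2 : ∫ η, exG μ s (R₁ * w) η (gB μ s η T (n - T) yl) T xl ∂(law μ) ≤ m)
    (m3 : ∫ η, exG μ s ρ η (gB μ s η n0 (n - n0) yr) n0 xr ∂(law μ) ≤ m)
    (m4 : ∫ η, exG μ s ρ η (gB μ s η n0 (n - n0) yl) n0 xl' ∂(law μ) ≤ m)
    (m5 : ∫ η, PBr μ s η T (n - T) xl yl xr' yr ∂(law μ) ≤ m) (j : Fin 5) :
    ∫ η, FF μ s n T n0 lo hi md xl xr xl' xr' yl yr j η ∂(law μ) ≤ m := by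
  have mexG : ∀ (ρ : ℝ) (T₁ T₂ : ℕ) (u v : ℤ), Integrable (fun η : Env => exG μ s ρ η (gB μ s η T₁ T₂ v) T₁ u) (law μ) := by
    intro ρ T₁ T₂ u v
    exact int_01 (measurable_exG (μ := μ) (s := s) (g := fun η => gB μ s η T₁ T₂ v) (fun z => measurable_gB T₁ T₂ v z) ρ T₁ u)
      (fun η => exG_nonneg (gB_nonneg η T₁ T₂ v) _ _ _) (fun η => exG_le_one (gB_nonneg η T₁ T₂ v) _ _ _)
  have iF : ∀ j, Integrable (FF μ s n T n0 lo hi md xl xr xl' xr' yl yr j) (law μ) := fun j => int_01 (FF_meas j) (FF_nn j) (FF_le1 j)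
  revert j
  refine five ?_ ?_ ?_ ?_ m5
  · refine (integral_mono (iF 0) (mexG (R₁ * w) T (n - T) xr yr) fun η => ?_).trans m1
    refine eG_le_exG hRw η T (n - T) xr yr fun S _ ⟨k, hk, h2⟩ => ⟨k, hk, ?_⟩
    rw [hhi] at h2
    push_cast at h2
    refine lt_of_lt_of_le ?_ (le_abs_self _)
    linarith
  · refine (integral_mono (iF 1) (mexG (R₁ * w) T (n - T) xl yl) fun η => ?_).trans m2
    refine eG_le_exG hRw η T (n - T) xl yl fun S _ ⟨k, hk, h2⟩ => ⟨k, hk, ?_⟩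
    rw [hlo] at h2
    push_cast at h2
    refine lt_of_lt_of_le ?_ (neg_le_abs _)
    linarith
  · refine (integral_mono (iF 2) (mexG ρ n0 (n - n0) xr yr) fun η => ?_).trans m3
    refine eG_le_exG hρ η n0 (n - n0) xr yr fun S _ ⟨k, hk, h2⟩ => ⟨k, hk, ?_⟩
    rw [hmd] at h2
    push_cast at h2
    refine lt_of_lt_of_le ?_ (le_abs_self _)
    linarith
  · refine (integral_mono (iF 3) (mexG ρ n0 (n - n0) xl' yl) fun η => ?_).trans m4
    refine eG_le_exG hρ η n0 (n - n0) xl' yl fun S _ ⟨k, hk, h2⟩ => ⟨k, hk, ?_⟩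
    rw [hmd] at h2
    push_cast at h2
    refine lt_of_lt_of_le ?_ (neg_le_abs _)
    linarith

/-- **THE FIRST MEETING IS IN THE BOX.** -/
theorem box_m (h : In μ s c C n₀) {K B e e' : ℝ} (hK : 0 ≤ K) (hB : 1 ≤ B) (he : 0 < e) (he' : 0 < e') :
    ∃ d : ℝ, 0 < d ∧ d ≤ 1 ∧ ∃ R : ℝ, 1 ≤ R ∧ ∀ g : ℝ, 0 < g → g < d → ∃ θ : ℝ, 0 < θ ∧ θ ≤ 1 ∧ ∃ n₁ : ℕ,
    ∀ i n T n0 : ℕ, n₁ ≤ T → n0 ≤ T → T < n → (n : ℝ) ≤ B * T → (n0 : ℝ) ≤ θ * T →
    ∀ xc yc : ℝ, |yc - xc - sl μ s * n| ≤ K * wd μ s T →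
    ∃ G : Set Env, MeasurableSet G ∧ law μ Gᶜ ≤ ENNReal.ofReal e ∧
    (∀ η η' : Env, (∀ q : Pt, (i : ℤ) < q.1 → q.1 < (i : ℤ) + n → η q = η' q) → η ∈ G → η' ∈ G) ∧
    ∀ η ∈ G, ∀ (h' : ℝ) (p : ℕ → ℝ), (∀ k, 0 < p k) → (∀ k, i ≤ k → k < i + n → p k = Real.exp (s + h')) →
    ∀ Q : Finset (ℕ × ℤ), (∀ (k : ℕ) (q : ℤ), i + n0 ≤ k → k < i + T → |(q : ℝ) - xc - sl μ s * ((k : ℝ) - i)| ≤ R * wd μ s T → (k, q) ∈ Q) →
    ∀ x x' y y' : ℤ, xc - d * wd μ s T ≤ x → (x : ℝ) ≤ xc - g * wd μ s T → xc + g * wd μ s T ≤ x' → (x' : ℝ) ≤ xc + d * wd μ s T →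
    |(y : ℝ) - yc| ≤ d * wd μ s T → |(y' : ℝ) - yc| ≤ d * wd μ s T →
    (1 - e') * (ker (wt η) p i n x y * ker (wt η) p i n x' y') ≤ mq (wt η) p Q i n x x' y y' := by
  obtain ⟨m, hm⟩ : ∃ m : ℝ, m = e * e' / 25 := ⟨_, rfl⟩
  have hm0 : 0 < m := by rw [hm]; positivity
  obtain ⟨dm, hdm, n1, hmeet⟩ := meet_c h (show 0 ≤ K + 2 by linarith) (show 0 ≤ B by linarith) hm0
  obtain ⟨R₁, hR₁, n2, hexit⟩ := exit_br h (show 0 ≤ K + 2 by linarith) (show 0 ≤ B by linarith) hm0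
  obtain ⟨D, hD, n3, hep⟩ := ep_K h (show 0 ≤ 2 * (K + 2) by linarith)
  obtain ⟨d, hd⟩ : ∃ d : ℝ, d = min (dm / 2) 1 := ⟨_, rfl⟩
  have hd0 : 0 < d := by rw [hd]; exact lt_min (by positivity) one_pos
  have hd1 : d ≤ 1 := by rw [hd]; exact min_le_right _ _
  have hdd : d ≤ dm / 2 := by rw [hd]; exact min_le_left _ _
  have hsl0 := h.sl_pos
  have hsl1 := h.sl_lt
  refine ⟨d, hd0, hd1, R₁ + 2, by linarith, fun g hg hgd => ?_⟩
  obtain ⟨θ, hθ, hθ1, n4, hshort⟩ := Pool.Agent.W_7d29a1_C1.H56.exitS56 h (K := 2 * (K + 2)) (e := m) (d₀ := g / (4 * B)) (by linarith) hm0 (by positivity)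
  obtain ⟨n5, hn5⟩ := eventually_atTop.1 ((wd_tendsto h).eventually_ge_atTop (max (1 / (d - g)) (2 / g)))
  refine ⟨θ, hθ, hθ1, max (max (max n1 n2) (max n3 n4)) (max n5 1), fun i n T n0 hT hn0 hTn hnB hn0θ xc yc hyc => ?_⟩
  have k1 : n1 ≤ T := ((le_max_left _ _).trans ((le_max_left _ _).trans (le_max_left _ _))).trans hT
  have k2 : n2 ≤ T := ((le_max_right _ _).trans ((le_max_left _ _).trans (le_max_left _ _))).trans hT
  have k3 : n3 ≤ T := ((le_max_left _ _).trans ((le_max_right _ _).trans (le_max_left _ _))).trans hT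
  have k4 : n4 ≤ T := ((le_max_right _ _).trans ((le_max_right _ _).trans (le_max_left _ _))).trans hT
  have k5 : n5 ≤ T := ((le_max_left _ _).trans (le_max_right _ _)).trans hT
  have k6 : 1 ≤ T := ((le_max_right _ _).trans (le_max_right _ _)).trans hT
  have hTn' : T ≤ n := hTn.le
  have hw := h.wd_pos k6
  have hwn := wd_le_two h k6 hTn'
  have hTR : (0 : ℝ) < T := by exact_mod_cast k6
  have hwn2 : wd μ s n ≤ 2 * B * wd μ s T := by
    have h1 := wd_lower_one h k6 hTn'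
    have h2 : (T : ℝ) * wd μ s n ≤ T * (2 * B * wd μ s T) := by
      calc (T : ℝ) * wd μ s n ≤ 2 * (n * wd μ s T) := h1
        _ ≤ 2 * ((B * T) * wd μ s T) := by
            have := mul_le_mul_of_nonneg_right hnB hw.le
            linarith
        _ = T * (2 * B * wd μ s T) := by ring
    exact le_of_mul_le_mul_left h2 hTR
  obtain ⟨w, hwd⟩ : ∃ w : ℝ, w = wd μ s T := ⟨_, rfl⟩
  rw [← hwd] at hw hwn hwn2 hyc ⊢
  have hw1 : 1 / (d - g) ≤ w := by rw [hwd]; exact (le_max_left _ _).trans (hn5 T k5)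
  have hw2 : 2 / g ≤ w := by rw [hwd]; exact (le_max_right _ _).trans (hn5 T k5)
  have hw3 : 1 ≤ (d - g) * w := by
    rw [div_le_iff₀ (by linarith)] at hw1
    linarith
  have hw4 : 2 ≤ g * w := by
    rw [div_le_iff₀ hg] at hw2
    linarith
  have hgw : 0 < g * w := by positivity
  have hdw : d * w ≤ w := by
    have := mul_le_mul_of_nonneg_right hd1 hw.le
    linarith
  have hgdw : g * w ≤ d * w := mul_le_mul_of_nonneg_right hgd.le hw.le
  have hww2 : 2 ≤ w := by linarith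
  -- the corners
  obtain ⟨xl, hxl⟩ : ∃ z : ℤ, z = ⌈xc - d * w⌉ := ⟨_, rfl⟩
  obtain ⟨xr, hxr⟩ : ∃ z : ℤ, z = ⌊xc - g * w⌋ := ⟨_, rfl⟩
  obtain ⟨xl', hxl'⟩ : ∃ z : ℤ, z = ⌈xc + g * w⌉ := ⟨_, rfl⟩
  obtain ⟨xr', hxr'⟩ : ∃ z : ℤ, z = ⌊xc + d * w⌋ := ⟨_, rfl⟩
  obtain ⟨yl, hyl⟩ : ∃ z : ℤ, z = ⌈yc - d * w⌉ := ⟨_, rfl⟩
  obtain ⟨yr, hyr⟩ : ∃ z : ℤ, z = ⌊yc + d * w⌋ := ⟨_, rfl⟩
  have cl1 : xc - d * w ≤ xl := by rw [hxl]; exact Int.le_ceil _
  have cl2 : (xl : ℝ) < xc - d * w + 1 := by rw [hxl]; exact Int.ceil_lt_add_one _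
  have cr1 : (xr : ℝ) ≤ xc - g * w := by rw [hxr]; exact Int.floor_le _
  have cr2 : xc - g * w - 1 < xr := by rw [hxr]; exact Int.sub_one_lt_floor _
  have cl1' : xc + g * w ≤ xl' := by rw [hxl']; exact Int.le_ceil _
  have cl2' : (xl' : ℝ) < xc + g * w + 1 := by rw [hxl']; exact Int.ceil_lt_add_one _
  have cr1' : (xr' : ℝ) ≤ xc + d * w := by rw [hxr']; exact Int.floor_le _
  have cr2' : xc + d * w - 1 < xr' := by rw [hxr']; exact Int.sub_one_lt_floor _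
  have dl1 : yc - d * w ≤ yl := by rw [hyl]; exact Int.le_ceil _
  have dl2 : (yl : ℝ) < yc - d * w + 1 := by rw [hyl]; exact Int.ceil_lt_add_one _
  have dr1 : (yr : ℝ) ≤ yc + d * w := by rw [hyr]; exact Int.floor_le _
  have dr2 : yc + d * w - 1 < yr := by rw [hyr]; exact Int.sub_one_lt_floor _
  have hyc' := abs_le.1 hyc
  -- displacements
  have hdis : ∀ u v : ℤ, |(u : ℝ) - xc| ≤ w → |(v : ℝ) - yc| ≤ w → |((v - u : ℤ) : ℝ) - sl μ s * n| ≤ (K + 2) * w := by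
    intro u v hu hv
    rw [abs_le] at hu hv ⊢
    push_cast
    constructor <;> linarith [hu.1, hu.2, hv.1, hv.2, hyc'.1, hyc'.2]
  have hcone : ∀ u v : ℤ, |(u : ℝ) - xc| ≤ w → |(v : ℝ) - yc| ≤ w → Cn n u v := by
    intro u v hu hv
    have h1 := hdis u v hu hv
    obtain ⟨q1, q2, -⟩ := hep n (k3.trans hTn') (v - u) (h1.trans (by
      have := mul_le_mul_of_nonneg_left hwn (show 0 ≤ K + 2 by linarith)
      linarith))
    exact ⟨q1, q2⟩
  have b1 : |(xl : ℝ) - xc| ≤ w := by rw [abs_le]; constructor <;> linarith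
  have b2 : |(xr : ℝ) - xc| ≤ w := by rw [abs_le]; constructor <;> linarith
  have b3 : |(xl' : ℝ) - xc| ≤ w := by rw [abs_le]; constructor <;> linarith
  have b4 : |(xr' : ℝ) - xc| ≤ w := by rw [abs_le]; constructor <;> linarith
  have b5 : |(yl : ℝ) - yc| ≤ w := by rw [abs_le]; constructor <;> linarith
  have b6 : |(yr : ℝ) - yc| ≤ w := by rw [abs_le]; constructor <;> linarith
  have eT : T + (n - T) = n := by omega
  have hTB : ((n - T : ℕ) : ℝ) ≤ B * T := by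
    have h1 : ((n - T : ℕ) : ℝ) ≤ n := by exact_mod_cast Nat.sub_le _ _
    linarith
  -- the means
  obtain ⟨lo, hlo⟩ : ∃ f : ℕ → ℝ, ∀ k, f k = xc + sl μ s * k - (R₁ + 1) * w := ⟨_, fun _ => rfl⟩
  obtain ⟨hi, hhi⟩ : ∃ f : ℕ → ℝ, ∀ k, f k = xc + sl μ s * k + (R₁ + 1) * w := ⟨_, fun _ => rfl⟩
  obtain ⟨md, hmd⟩ : ∃ f : ℕ → ℝ, ∀ k, f k = xc + sl μ s * k := ⟨_, fun _ => rfl⟩
  have hmexit : ∀ u v : ℤ, |(u : ℝ) - xc| ≤ w → |(v : ℝ) - yc| ≤ w →
      ∫ η, exG μ s (R₁ * w) η (gB μ s η T (n - T) v) T u ∂(law μ) ≤ m := by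
    intro u v hu hv
    rw [int_exG, hwd]
    refine hexit R₁ le_rfl T (n - T) k2 hTB (v - u) ?_
    rw [eT, ← hwd]
    exact hdis u v hu hv
  have hmshort : ∀ u v : ℤ, |(u : ℝ) - xc| ≤ w → |(v : ℝ) - yc| ≤ w →
      ∫ η, exG μ s (g / (4 * B) * wd μ s n) η (gB μ s η n0 (n - n0) v) n0 u ∂(law μ) ≤ m := by
    intro u v hu hv
    rw [int_exG]
    refine hshort n n0 (k4.trans hTn') ?_ (v - u) ((hdis u v hu hv).trans ?_)
    · refine hn0θ.trans (mul_le_mul_of_nonneg_left ?_ hθ.le)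
      exact_mod_cast hTn'
    · have := mul_le_mul_of_nonneg_left hwn (show 0 ≤ K + 2 by linarith)
      linarith
  have hg4 : g / (4 * B) * wd μ s n ≤ g * w - 1 := by
    have h1 : g / (4 * B) * wd μ s n ≤ g / (4 * B) * (2 * B * w) := mul_le_mul_of_nonneg_left hwn2 (by positivity)
    have h2 : g / (4 * B) * (2 * B * w) = g * w / 2 := by
      have : B ≠ 0 := by linarith
      field_simp
      ring
    rw [h2] at h1
    linarith
  have hg4' : 0 ≤ g / (4 * B) * wd μ s n := mul_nonneg (by positivity) (h.wd_nonneg n)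
  have hpair : ∫ η, PBr μ s η T (n - T) xl yl xr' yr ∂(law μ) ≤ m := by
    have hlr : 0 ≤ ((xr' - xl : ℤ) : ℝ) ∧ ((xr' - xl : ℤ) : ℝ) ≤ 2 * (d * w) := by
      push_cast
      constructor <;> linarith
    have hlr' : 0 ≤ ((yr - yl : ℤ) : ℝ) ∧ ((yr - yl : ℤ) : ℝ) ≤ 2 * (d * w) := by
      push_cast
      constructor <;> linarith
    have hdmw : 2 * (d * w) ≤ dm * w := by
      have := mul_le_mul_of_nonneg_right hdd hw.le
      linarith
    refine hmeet T (n - T) k1 hTB xl yl xr' yr ?_ ?_ ?_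
    · rw [abs_of_nonneg hlr.1, ← hwd]
      exact hlr.2.trans hdmw
    · rw [abs_of_nonneg hlr'.1, ← hwd]
      exact hlr'.2.trans hdmw
    · rw [eT, ← hwd]
      exact hdis xl yl b1 b5
  have mean := fun j => mean5 (μ := μ) (s := s) (n := n) (T := T) (n0 := n0) (xr' := xr') (j := j) (show 0 ≤ R₁ * w by positivity) hg4'
    hlo hhi hmd (show xc - w ≤ xl by linarith) cr1 cl1' hw hgw hg4 (hmexit xr yr b2 b6) (hmexit xl yl b1 b5) (hmshort xr yr b2 b6)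
    (hmshort xl' yl b3 b5) hpair
  obtain ⟨hG1, hG2⟩ := good_of (μ := μ) (i : ℤ) (fun j => FF_meas j) (fun j => FF_nn j) (fun j => FF_le1 j)
    (show 0 < e' / 5 by positivity) hm0.le mean
  refine ⟨_, hG1, hG2.trans (ENNReal.ofReal_le_ofReal (le_of_eq ?_)), ?_, ?_⟩
  · rw [Fintype.card_fin, hm]
    push_cast
    field_simp
    ring
  · -- the rows
    intro η η' hη hG j
    have hj := hG j
    rwa [FF_rows (μ := μ) (s := s) hTn hn0 (fun q hq1 hq2 => ?_) j] at hj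
    show η (q + ((i : ℤ), 0)) = η' (q + ((i : ℤ), 0))
    refine hη _ ?_ ?_
    · show (i : ℤ) < q.1 + i
      omega
    · show q.1 + i < (i : ℤ) + n
      omega
  · -- the inequality
    intro η hG h' p hp0 hp Q hQ x x' y y' x1 x2 x3 x4 y1 y2
    rw [abs_le] at y1 y2
    have bx : |(x : ℝ) - xc| ≤ w := by rw [abs_le]; constructor <;> linarith
    have bx' : |(x' : ℝ) - xc| ≤ w := by rw [abs_le]; constructor <;> linarith
    have by1 : |(y : ℝ) - yc| ≤ w := abs_le.2 ⟨by linarith [y1.1], y1.2.trans hdw⟩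
    have by2 : |(y' : ℝ) - yc| ≤ w := abs_le.2 ⟨by linarith [y2.1], y2.2.trans hdw⟩
    have hxx : x < x' := by
      have : (x : ℝ) < x' := by linarith
      exact_mod_cast this
    refine corner_ge (μ := μ) (s := s) η hp0 (i := i) hn0 hTn' hp (lo := lo) (hi := hi) (md := md) (xl := xl) (xr := xr) (xl' := xl')
      (xr' := xr') (yl := yl) (yr := yr) ?_ hG hxx (by rw [hxl]; exact Int.ceil_le.2 x1) (by rw [hxr]; exact Int.le_floor.2 x2)
      (by rw [hxl']; exact Int.ceil_le.2 x3) (by rw [hxr']; exact Int.le_floor.2 x4)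
      (by rw [hyl]; exact Int.ceil_le.2 (by linarith [y1.1])) (by rw [hyr]; exact Int.le_floor.2 (by linarith [y1.2]))
      (by rw [hyl]; exact Int.ceil_le.2 (by linarith [y2.1])) (by rw [hyr]; exact Int.le_floor.2 (by linarith [y2.2]))
      (hcone x y bx by1) (hcone x' y' bx' by2) (hcone xr yr b2 b6) (hcone xl yl b1 b5) (hcone xl' yl b3 b5) (hcone xr' yr b4 b6)
    intro k h1 h2 q h3 h4
    refine hQ k q h1 h2 ?_
    rw [hlo] at h3
    rw [hhi] at h4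
    have e1 : ((k + 1 - i : ℕ) : ℝ) = (k : ℝ) - i + 1 := by
      rw [Nat.cast_sub (by omega)]
      push_cast
      ring
    have e5 : sl μ s * ((k : ℝ) - i + 1) = sl μ s * ((k : ℝ) - i) + sl μ s := by ring
    have e6 : (R₁ + 2) * w = (R₁ + 1) * w + w := by ring
    rw [e1, e5] at h3 h4
    rw [abs_le, e6]
    constructor <;> linarith

end

end Pool.Agent.W_7d29a1_C1.KM35
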