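import Pool.Agent.W_7d29a1_C1.BoxI60
import Pool.Agent.W_7d29a1_C1.InvB9

/-!
Both halves (MP_7d29a1_pr), attractor route: THE CHAIN OF THE BOXES IN THE MODEL (helper60).

`BoxR.model` : one copy in the model, the ball `B i Q` of sites is resampled; what is needed are only the `Off` statements.
`SS_both`, `VV_both`, `YY_Rch` : the events of the chain are those of the exchange (helper9's InvB9).
-/

set_option autoImplicit false
set_option linter.unusedSectionVars false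

namespace Pool.Agent.W_7d29a1_C1.H60

open MeasureTheory ProbabilityTheory
open Pool.Agent.W_7d29a1_F Pool.Agent.W_7d29a1_C1.S71 Pool.Agent.W_7d29a1_C1.Sw9 Pool.Agent.W_7d29a1_C1.Pd9
open Pool.Agent.W_7d29a1_C1.H77 Pool.Agent.W_7d29a1_C1.Lec17
open scoped ENNReal

noncomputable section

variable {μ : Measure ℝ} [IsProbabilityMeasure μ] {Λ β : Type*} [DecidableEq β] {L : Finset Λ} {m M k : ℕ} {io mi : ℕ → ℕ}
  {anc : ℕ → Λ → β} {B : ℕ → β → Set Pt} {V S : ℕ → Λ → Set Env} {l : ℕ → Λ → Env → ℕ} {w : Λ → Env → ℝ≥0∞}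

/-- **ONE COPY IN THE MODEL.** -/
theorem BoxR.model (mV : ∀ i < m, ∀ q ∈ L, MeasurableSet (V i q)) (mS : ∀ i < m, ∀ q ∈ L, MeasurableSet (S i q))
    (ml : ∀ v, ∀ q ∈ L, Measurable (l v q)) (mw : ∀ q ∈ L, Measurable (w q)) (w1 : ∀ ω, ∑ q ∈ L, w q ω ≤ 1)
    (oV : ∀ i < m, ∀ j, i ≤ j → j < m → ∀ q ∈ L, Off (B i (anc i q)) (V j q))
    (eV : ∀ i < m, ∀ j, i ≤ j → j < m → ∀ q ∈ L, ∀ q' ∈ L, anc i q = anc i q' → V j q = V j q')
    (oS : ∀ i < m, ∀ j, i + M ≤ j → j < m → ∀ q ∈ L, Off (B i (anc i q)) (S j q))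
    (eS : ∀ i < m, ∀ j, i + M ≤ j → j < m → ∀ q ∈ L, ∀ q' ∈ L, anc i q = anc i q' → S j q = S j q')
    (ol : ∀ i < m, ∀ v, io i < v → ∀ q ∈ L, OffF (B i (anc i q)) (l v q))
    (el : ∀ i < m, ∀ v, io i < v → ∀ q ∈ L, ∀ q' ∈ L, anc i q = anc i q' → l v q = l v q') :
    BoxR (law μ) L m M io anc (fun i Q => gl (B i Q)) V S l w where
  mp := fun _ _ _ => mp_gl _
  mV := mV
  mS := mS
  ml := ml
  mw := mw
  w1 := w1
  bV := fun i hi j a b q hq η ω => oV i hi j a b q hq _ _ fun _ hp => gl_of_not_mem hp η ω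
  eV := eV
  bS := fun i hi j a b q hq η ω => oS i hi j a b q hq _ _ fun _ hp => gl_of_not_mem hp η ω
  eS := eS
  bl := fun i hi v hv q hq η ω => (ol i hi v hv q hq).gl η ω
  el := el

/-! ### The events of the exchange -/

section

variable {ι ι' : Type*} {x : ℕ → ι → Pt} {x' : ℕ → ι' → Pt} {So : ℕ → ι → Set Env} {So' : ℕ → ι' → Set Env} {SI : ℕ → Set Env}

theorem VV_both (V : ℕ → ι → Set Env) (V' : ℕ → ι' → Set Env) (p : ι × ι') : VV V V' p = fun i => both2 V V' i p := rfl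

/-- The block event of one copy: outer half and inner half. -/
def SH (x : ℕ → ι → Pt) (So : ℕ → ι → Set Env) (SI : ℕ → Set Env) (i : ℕ) (q : ι) : Set Env := So i q ∩ sh (x i q) ⁻¹' SI i

theorem SS_both (p : ι × ι') : SS x x' So So' SI p = fun i => both2 (SH x So SI) (SH x' So' SI) i p := by
  funext i
  ext z
  show ((z.1 ∈ So i p.1 ∧ z.2 ∈ So' i p.2) ∧ (sh (x i p.1) z.1 ∈ SI i ∧ sh (x' i p.2) z.2 ∈ SI i)) ↔
    ((z.1 ∈ So i p.1 ∧ sh (x i p.1) z.1 ∈ SI i) ∧ (z.2 ∈ So' i p.2 ∧ sh (x' i p.2) z.2 ∈ SI i))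
  tauto

/-- The predicate of the ranges: some slab `v ≤ mi u` reaches beyond `mi u`. -/
def Yr (mi : ℕ → ℕ) (u : ℕ) (f : ℕ → ℕ) : Prop := ∃ v ≤ mi u, mi u < v + f v

theorem YY_Rch (lv : ℕ → ι → Env → ℕ) (lv' : ℕ → ι' → Env → ℕ) (p : ι × ι') :
    YY lv lv' (Yr mi) p = fun i => Rch (l2 lv lv') (mi i) p := rfl

end

end

end Pool.Agent.W_7d29a1_C1.H60
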