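import Pool.Agent.W_7d29a1_C1.Fkg31

/-!
MP_7d29a1_pr, [C1], resampled WINDOWS: THE PROBABILITY OF THE LUCKY CONTENT GIVEN THE OUTSIDE, abstract part. (helper58)

`cP B E ω` = the probability of `E` when the sites of `B` are fresh and the rest is `ω`. `cP_markov`: `P(a < cP B E) ≤ P(E) / a`.
`Typ58 B H0 H1 pL` = the outsides for which `H0` fails with probability `≤ 1/4` and `H1` with probability `≤ pL/4`; `typ58`: the
others have probability `≤ 4 P(H0ᶜ) + (4/pL) P(H1ᶜ)`. **`lucky58`**: `LN` reads the sites `S` (strips) of `B` only, `H0` does not read `S`,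
`H1` is decreasing off `S`, the wall `WL` is decreasing, reads finitely many sites of `B` off `S`: for a typical outside all happen together
with probability `≥ (pL/2) P(WL)`. `lucky58'`: one more event `F` which fails (given the outside) with small probability.
-/

set_option autoImplicit false

namespace Pool.Agent.W_7d29a1_C1.BP58

open MeasureTheory ProbabilityTheory Filter Topology
open Pool.Agent.W_7d29a1_F Pool.Agent.W_7d29a1_h4g Pool.Agent.W_7d29a1_H Pool.Agent.W_7d29a1_HS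
open Pool.Agent.W_7d29a1_HR (Dec Fin')
open Pool.Agent.W_7d29a1_C1.S71
open Pool.Agent.W_7d29a1_C1.F31
open scoped ENNReal

noncomputable section

variable {μ : Measure ℝ} {B S : Set Pt}

/-- The probability of `E` when the sites of `B` are fresh and the rest is `ω`. -/
def cP (μ : Measure ℝ) (B : Set Pt) (E : Set Env) (ω : Env) : ℝ := (law μ).real {ξ | gl B ξ ω ∈ E}

theorem isProb58 [IsProbabilityMeasure μ] : IsProbabilityMeasure (law μ) := by
  unfold law
  infer_instance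

theorem meas_sec {E : Set Env} (hE : MeasurableSet E) (ω : Env) : MeasurableSet {ξ | gl B ξ ω ∈ E} :=
  measurable_gl_left B ω hE

theorem cP_nonneg (E : Set Env) (ω : Env) : 0 ≤ cP μ B E ω := measureReal_nonneg

theorem cP_le_one [IsProbabilityMeasure μ] (E : Set Env) (ω : Env) : cP μ B E ω ≤ 1 := by
  have := isProb58 (μ := μ)
  exact measureReal_le_one

theorem cP_mono [IsProbabilityMeasure μ] {E F : Set Env} (h : E ⊆ F) (ω : Env) : cP μ B E ω ≤ cP μ B F ω := by
  have := isProb58 (μ := μ)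
  exact measureReal_mono fun ξ hξ => h hξ

theorem cP_union [IsProbabilityMeasure μ] (E F : Set Env) (ω : Env) : cP μ B (E ∪ F) ω ≤ cP μ B E ω + cP μ B F ω := by
  have := isProb58 (μ := μ)
  exact measureReal_union_le _ _

theorem measurable_cP [IsProbabilityMeasure μ] {E : Set Env} (hE : MeasurableSet E) : Measurable (cP μ B E) := by
  have := isProb58 (μ := μ)
  have h1 : Measurable fun ω : Env => law μ ((fun ξ : Env => (ξ, ω)) ⁻¹' ((fun q : Env × Env => gl B q.1 q.2) ⁻¹' E)) :=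
    measurable_measure_prodMk_right (measurable_gl B hE)
  exact h1.ennreal_toReal

/-- The mean of the conditional probability. -/
theorem int_cP [IsProbabilityMeasure μ] {E : Set Env} (hE : MeasurableSet E) : ∫ ω, cP μ B E ω ∂(law μ) = (law μ).real E := by
  have := isProb58 (μ := μ)
  have h1 : ∫⁻ ω, law μ {ξ | gl B ξ ω ∈ E} ∂(law μ) = law μ E := by
    rw [← lintegral_indicator_one hE, lintegral_gl (μ := μ) B (measurable_one.indicator hE)]
    refine lintegral_congr fun ω => ?_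
    rw [← lintegral_indicator_one (meas_sec (B := B) hE ω)]
    rfl
  have h2 : Measurable fun ω : Env => law μ {ξ | gl B ξ ω ∈ E} := measurable_measure_prodMk_right (measurable_gl B hE)
  have h3 := integral_toReal (μ := law μ) h2.aemeasurable (Eventually.of_forall fun ω => measure_lt_top _ _)
  rw [h1] at h3
  exact h3

theorem integrable_cP [IsProbabilityMeasure μ] {E : Set Env} (hE : MeasurableSet E) : Integrable (cP μ B E) (law μ) := by
  have := isProb58 (μ := μ)
  refine Integrable.of_bound (measurable_cP hE).aestronglyMeasurable 1 (Eventually.of_forall fun ω => ?_)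
  rw [Real.norm_eq_abs, abs_of_nonneg (cP_nonneg E ω)]
  exact cP_le_one E ω

/-- Markov. -/
theorem cP_markov [IsProbabilityMeasure μ] {E : Set Env} (hE : MeasurableSet E) {a : ℝ} (ha : 0 < a) :
    (law μ).real {ω | a < cP μ B E ω} ≤ (law μ).real E / a := by
  have := isProb58 (μ := μ)
  rw [le_div_iff₀ ha, mul_comm, ← int_cP (B := B) hE]
  have h1 : (law μ).real {ω | a < cP μ B E ω} ≤ (law μ).real {ω | a ≤ cP μ B E ω} :=
    measureReal_mono fun ω (hω : a < cP μ B E ω) => show a ≤ cP μ B E ω from hω.le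
  have h2 := mul_meas_ge_le_integral_of_nonneg (μ := law μ) (Eventually.of_forall fun ω => cP_nonneg (μ := μ) (B := B) E ω)
    (integrable_cP hE) a
  exact (mul_le_mul_of_nonneg_left h1 ha.le).trans h2

/-! ### Typical outsides -/

/-- The outsides for which `H0` fails with probability at most `1/4` and `H1` with probability at most `pL/4`. -/
def Typ58 (μ : Measure ℝ) (B : Set Pt) (H0 H1 : Set Env) (pL : ℝ) : Set Env :=
  {ω | cP μ B H0ᶜ ω ≤ 1 / 4 ∧ cP μ B H1ᶜ ω ≤ pL / 4}

theorem meas_Typ58 [IsProbabilityMeasure μ] {H0 H1 : Set Env} (m0 : MeasurableSet H0) (m1 : MeasurableSet H1) (pL : ℝ) :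
    MeasurableSet (Typ58 μ B H0 H1 pL) :=
  (measurableSet_le (measurable_cP m0.compl) measurable_const).inter (measurableSet_le (measurable_cP m1.compl) measurable_const)

/-- The conditional probability does not read the sites of `B`. -/
theorem cP_off (E : Set Env) {ω ω' : Env} (h : ∀ p, p ∉ B → ω p = ω' p) : cP μ B E ω = cP μ B E ω' := by
  unfold cP
  congr 1
  ext ξ
  have e : gl B ξ ω = gl B ξ ω' := by
    funext p
    by_cases hp : p ∈ B
    · rw [gl_of_mem hp, gl_of_mem hp]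
    · rw [gl_of_not_mem hp, gl_of_not_mem hp, h p hp]
  show gl B ξ ω ∈ E ↔ gl B ξ ω' ∈ E
  rw [e]

theorem off_Typ58 (H0 H1 : Set Env) (pL : ℝ) : Off B (Typ58 μ B H0 H1 pL) := fun ω ω' h => by
  show (cP μ B H0ᶜ ω ≤ 1 / 4 ∧ cP μ B H1ᶜ ω ≤ pL / 4) ↔ (cP μ B H0ᶜ ω' ≤ 1 / 4 ∧ cP μ B H1ᶜ ω' ≤ pL / 4)
  rw [cP_off H0ᶜ h, cP_off H1ᶜ h]

/-- Typical outsides are typical. -/
theorem typ58 [IsProbabilityMeasure μ] {H0 H1 : Set Env} (m0 : MeasurableSet H0) (m1 : MeasurableSet H1) {pL : ℝ} (hp : 0 < pL) :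
    (law μ).real (Typ58 μ B H0 H1 pL)ᶜ ≤ 4 * (law μ).real H0ᶜ + 4 / pL * (law μ).real H1ᶜ := by
  have := isProb58 (μ := μ)
  have e : (Typ58 μ B H0 H1 pL)ᶜ ⊆ {ω | 1 / 4 < cP μ B H0ᶜ ω} ∪ {ω | pL / 4 < cP μ B H1ᶜ ω} := by
    intro ω hω
    by_contra h
    rw [Set.mem_union, not_or] at h
    exact hω ⟨not_lt.1 h.1, not_lt.1 h.2⟩
  have h1 := cP_markov (μ := μ) (B := B) m0.compl (show (0 : ℝ) < 1 / 4 by norm_num)
  have h2 := cP_markov (μ := μ) (B := B) m1.compl (show (0 : ℝ) < pL / 4 by positivity)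
  calc (law μ).real (Typ58 μ B H0 H1 pL)ᶜ ≤ _ := measureReal_mono e
    _ ≤ _ := measureReal_union_le _ _
    _ ≤ (law μ).real H0ᶜ / (1 / 4) + (law μ).real H1ᶜ / (pL / 4) := add_le_add h1 h2
    _ = _ := by
      have := hp.ne'
      field_simp

/-! ### The lucky content -/

/-- Sections of events which read `B` only. -/
theorem gl_iff {B : Set Pt} {E : Set Env} (h : Off Bᶜ E) (ξ ω : Env) : gl B ξ ω ∈ E ↔ ξ ∈ E :=
  h _ _ fun _ hp => gl_of_mem (Set.notMem_compl_iff.1 hp) ξ ω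

theorem dec_sec {E : Set Env} (hE : Dec E) (ω : Env) : Dec {ξ | gl B ξ ω ∈ E} := fun ξ ξ' h h1 =>
  hE _ _ (fun p => by
    by_cases hp : p ∈ B
    · rw [gl_of_mem hp, gl_of_mem hp]
      exact h p
    · rw [gl_of_not_mem hp, gl_of_not_mem hp]) h1

theorem decO_sec {E : Set Env} (hE : DecO S E) (ω : Env) : DecO S {ξ | gl B ξ ω ∈ E} := fun ξ ξ' h h0 h1 =>
  hE _ _ (fun p => by
    by_cases hp : p ∈ B
    · rw [gl_of_mem hp, gl_of_mem hp]
      exact h p
    · rw [gl_of_not_mem hp, gl_of_not_mem hp]) (fun p hpS => by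
    by_cases hp : p ∈ B
    · rw [gl_of_mem hp, gl_of_mem hp]
      exact h0 p hpS
    · rw [gl_of_not_mem hp, gl_of_not_mem hp]) h1

theorem off_sec {E : Set Env} (hE : Off S E) (ω : Env) : Off S {ξ | gl B ξ ω ∈ E} := fun ξ ξ' h =>
  hE _ _ fun p hpS => by
    by_cases hp : p ∈ B
    · rw [gl_of_mem hp, gl_of_mem hp]
      exact h p hpS
    · rw [gl_of_not_mem hp, gl_of_not_mem hp]

/-- Two events, one reads the sites of `S` only, the other does not read them. -/
theorem real_indep58 [IsProbabilityMeasure μ] {E F : Set Env} (mE : MeasurableSet E) (mF : MeasurableSet F) (hE : Off Sᶜ E)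
    (hF : Off S F) : (law μ).real (E ∩ F) = (law μ).real E * (law μ).real F := by
  have := isProb58 (μ := μ)
  have h1 : law μ (E ∩ F) = law μ E * law μ F := by
    rw [← lintegral_indicator_one (mE.inter mF), lintegral_gl (μ := μ) S (measurable_one.indicator (mE.inter mF))]
    have e : ∀ η η' : Env, (E ∩ F).indicator (1 : Env → ℝ≥0∞) (gl S η' η) = F.indicator (fun _ => E.indicator (1 : Env → ℝ≥0∞) η') η := by
      intro η η'
      have a1 : gl S η' η ∈ E ↔ η' ∈ E := gl_iff hE η' η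
      have a2 : gl S η' η ∈ F ↔ η ∈ F := hF.gl η' η
      by_cases b1 : η' ∈ E
      · by_cases b2 : η ∈ F
        · rw [Set.indicator_of_mem (show gl S η' η ∈ E ∩ F from ⟨a1.2 b1, a2.2 b2⟩), Set.indicator_of_mem b2,
            Set.indicator_of_mem b1]
          rfl
        · rw [Set.indicator_of_notMem fun h => b2 (a2.1 h.2), Set.indicator_of_notMem b2]
      · rw [Set.indicator_of_notMem fun h => b1 (a1.1 h.1)]
        by_cases b2 : η ∈ F
        · rw [Set.indicator_of_mem b2, Set.indicator_of_notMem b1]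
        · rw [Set.indicator_of_notMem b2]
    have e2 : ∀ η : Env, ∫⁻ η', (E ∩ F).indicator (1 : Env → ℝ≥0∞) (gl S η' η) ∂(law μ) = F.indicator (fun _ => law μ E) η := by
      intro η
      rw [lintegral_congr fun η' => e η η']
      by_cases b2 : η ∈ F
      · simp only [Set.indicator_of_mem b2]
        exact lintegral_indicator_one mE
      · simp only [Set.indicator_of_notMem b2]
        exact lintegral_zero
    rw [lintegral_congr e2, lintegral_indicator mF, setLIntegral_const]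
  unfold Measure.real
  rw [h1, ENNReal.toReal_mul]

/-- **The lucky content, given a typical outside.** -/
theorem lucky58 [IsProbabilityMeasure μ] {LN H0 H1 WL : Set Env} (mL : MeasurableSet LN) (m0 : MeasurableSet H0)
    (m1 : MeasurableSet H1) (mW : MeasurableSet WL) (hLS : Off Sᶜ LN) (hLB : Off Bᶜ LN) (h0S : Off S H0) (h0 : Dec H0)
    (h1 : DecO S H1) (hWB : Off Bᶜ WL) (hWS : Off S WL) (hWf : Fin' WL) (hW : Dec WL) {pL : ℝ} (hpL : pL ≤ (law μ).real LN)
    {ω : Env} (hω : ω ∈ Typ58 μ B H0 H1 pL) :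
    pL / 2 * (law μ).real WL ≤ cP μ B (LN ∩ H0 ∩ H1 ∩ WL) ω := by
  have := isProb58 (μ := μ)
  by_cases hp0 : pL ≤ 0
  · have a1 : pL / 2 * (law μ).real WL ≤ 0 := mul_nonpos_of_nonpos_of_nonneg (by linarith) measureReal_nonneg
    exact a1.trans (cP_nonneg _ _)
  push Not at hp0
  set A : Set Env := {ξ | gl B ξ ω ∈ LN ∩ H0 ∩ H1} with hA
  set C : Set Env := {ξ | gl B ξ ω ∈ WL} with hC
  have eC : C = WL := by
    ext ξ
    exact gl_iff hWB ξ ω
  have mA : MeasurableSet A := meas_sec ((mL.inter m0).inter m1) ω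
  have mC : MeasurableSet C := meas_sec mW ω
  have dA : DecO S A := decO_sec ((DecO.inter (DecO.of_off hLS) (DecO.of_dec h0 S)).inter h1) ω
  have dC : DecO S C := by
    rw [eC]
    exact DecO.of_dec hW S
  have fC : FinO S C := by
    rw [eC]
    exact FinO.of_fin hWf hWS
  have k1 := fkg (μ := μ) mA mC dA dC fC
  -- the lanes and `H0`
  have k2 : (law μ).real ({ξ | gl B ξ ω ∈ LN} ∩ {ξ | gl B ξ ω ∈ H0}) = (law μ).real LN * cP μ B H0 ω := by
    have e1 : {ξ | gl B ξ ω ∈ LN} = LN := by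
      ext ξ
      exact gl_iff hLB ξ ω
    rw [e1]
    exact real_indep58 mL (meas_sec m0 ω) hLS (off_sec h0S ω)
  have k3 : cP μ B H0 ω = 1 - cP μ B H0ᶜ ω := by
    have e1 : {ξ | gl B ξ ω ∈ H0ᶜ} = {ξ | gl B ξ ω ∈ H0}ᶜ := rfl
    unfold cP
    rw [e1, probReal_compl_eq_one_sub (meas_sec m0 ω)]
    ring
  have k4 : (law μ).real ({ξ | gl B ξ ω ∈ LN} ∩ {ξ | gl B ξ ω ∈ H0}) ≤ (law μ).real A + cP μ B H1ᶜ ω := by
    have e1 : {ξ | gl B ξ ω ∈ LN} ∩ {ξ | gl B ξ ω ∈ H0} ⊆ A ∪ {ξ | gl B ξ ω ∈ H1ᶜ} := by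
      intro ξ hξ
      by_cases hx : gl B ξ ω ∈ H1
      · exact Or.inl ⟨⟨hξ.1, hξ.2⟩, hx⟩
      · exact Or.inr hx
    exact (measureReal_mono e1).trans (measureReal_union_le _ _)
  have k5 : pL * (3 / 4) ≤ (law μ).real LN * cP μ B H0 ω := by
    have a1 := hω.1
    rw [k3]
    exact mul_le_mul hpL (by linarith) (by norm_num) measureReal_nonneg
  have k6 : pL / 2 ≤ (law μ).real A := by
    have a2 := hω.2
    rw [k2] at k4
    linarith
  have k7 : pL / 2 * (law μ).real WL ≤ (law μ).real A * (law μ).real C := by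
    rw [eC]
    exact mul_le_mul_of_nonneg_right k6 measureReal_nonneg
  have k8 : A ∩ C ⊆ {ξ | gl B ξ ω ∈ LN ∩ H0 ∩ H1 ∩ WL} := fun ξ hξ => ⟨hξ.1, hξ.2⟩
  exact k7.trans (k1.trans (measureReal_mono k8))

/-- One more event which fails, given the outside, with small probability. -/
theorem lucky58' [IsProbabilityMeasure μ] {LN H0 H1 WL F : Set Env} (mL : MeasurableSet LN) (m0 : MeasurableSet H0)
    (m1 : MeasurableSet H1) (mW : MeasurableSet WL) (hLS : Off Sᶜ LN) (hLB : Off Bᶜ LN) (h0S : Off S H0) (h0 : Dec H0)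
    (h1 : DecO S H1) (hWB : Off Bᶜ WL) (hWS : Off S WL) (hWf : Fin' WL) (hW : Dec WL) {pL : ℝ} (hpL : pL ≤ (law μ).real LN)
    {ω : Env} (hω : ω ∈ Typ58 μ B H0 H1 pL) (hF : cP μ B Fᶜ ω ≤ pL / 4 * (law μ).real WL) :
    pL / 4 * (law μ).real WL ≤ cP μ B (LN ∩ H0 ∩ H1 ∩ WL ∩ F) ω := by
  have := isProb58 (μ := μ)
  have a1 := lucky58 (μ := μ) (B := B) (S := S) mL m0 m1 mW hLS hLB h0S h0 h1 hWB hWS hWf hW hpL hω
  have a2 : cP μ B (LN ∩ H0 ∩ H1 ∩ WL) ω ≤ cP μ B (LN ∩ H0 ∩ H1 ∩ WL ∩ F) ω + cP μ B Fᶜ ω := by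
    refine (cP_mono (fun η hη => ?_) ω).trans (cP_union _ _ ω)
    by_cases hx : η ∈ F
    · exact Or.inl ⟨hη, hx⟩
    · exact Or.inr hx
  linarith

end

end Pool.Agent.W_7d29a1_C1.BP58
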