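import Pool.Agent.W_7d29a1_F.CoreB3

/-!
MP_7d29a1_pr, the attractor route: SEQUENTIAL BAD SCALES. (helper71)

The bad event of the scale `i` may depend on the sites of `A i` and on everything which is revealed before (it must not depend on
the sites of `A j`, `j > i`); for EVERY frozen configuration off `A i` the bad resamplings of `A i` have probability at most `ε`.
Then the probability that at least `r` of the `m` scales are bad is at most `2 ^ m * ε ^ r`.
The order of the scales is free: from the outside to the inside or from the inside to the outside.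
-/

set_option autoImplicit false

namespace Pool.Agent.W_7d29a1_C1.S71

open MeasureTheory ProbabilityTheory Finset
open Pool.Agent.W_7d29a1_F
open scoped ENNReal Classical

noncomputable section

variable {μ : Measure ℝ} [IsProbabilityMeasure μ]

/-- The environment `η'` on the sites of `A`, `η` elsewhere. -/
def gl (A : Set Pt) (η' η : Env) : Env := fun p => if p ∈ A then η' p else η p

/-- The event does not read the sites of `A`. -/
def Off (A : Set Pt) (E : Set Env) : Prop := ∀ η η' : Env, (∀ p, p ∉ A → η p = η' p) → (η ∈ E ↔ η' ∈ E)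

theorem gl_of_mem {A : Set Pt} {p : Pt} (hp : p ∈ A) (η' η : Env) : gl A η' η p = η' p := by
  unfold gl
  rw [if_pos hp]

theorem gl_of_not_mem {A : Set Pt} {p : Pt} (hp : p ∉ A) (η' η : Env) : gl A η' η p = η p := by
  unfold gl
  rw [if_neg hp]

theorem Off.gl {A : Set Pt} {E : Set Env} (h : Off A E) (η' η : Env) : gl A η' η ∈ E ↔ η ∈ E :=
  h _ _ fun _ hp => gl_of_not_mem hp η' η

theorem Off.mono {A A' : Set Pt} {E : Set Env} (h : Off A E) (hA : A' ⊆ A) : Off A' E :=
  fun η η' he => h η η' fun p hp => he p fun h1 => hp (hA h1)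

theorem Off.inter {A : Set Pt} {E F : Set Env} (h : Off A E) (h' : Off A F) : Off A (E ∩ F) :=
  fun η η' he => and_congr (h η η' he) (h' η η' he)

theorem Off.union {A : Set Pt} {E F : Set Env} (h : Off A E) (h' : Off A F) : Off A (E ∪ F) :=
  fun η η' he => or_congr (h η η' he) (h' η η' he)

theorem Off.compl {A : Set Pt} {E : Set Env} (h : Off A E) : Off A Eᶜ :=
  fun η η' he => not_congr (h η η' he)

theorem Off.univ (A : Set Pt) : Off A Set.univ := fun _ _ _ => Iff.rfl

theorem measurable_gl (A : Set Pt) : Measurable fun q : Env × Env => gl A q.1 q.2 := CoreB3_meas A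

theorem mp_gl (A : Set Pt) : MeasurePreserving (fun q : Env × Env => gl A q.1 q.2) ((law μ).prod (law μ)) (law μ) :=
  mp_glue A

theorem measurable_gl_left (A : Set Pt) (η : Env) : Measurable fun η' : Env => gl A η' η :=
  (measurable_gl A).comp measurable_prodMk_right

/-- **Fubini for the sites of `A`**: the integral of a nonnegative function. -/
theorem lintegral_gl (A : Set Pt) {f : Env → ℝ≥0∞} (hf : Measurable f) :
    ∫⁻ η, f η ∂(law μ) = ∫⁻ η, ∫⁻ η', f (gl A η' η) ∂(law μ) ∂(law μ) := by
  have : IsProbabilityMeasure (law μ) := by unfold law; infer_instance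
  rw [← (mp_gl (μ := μ) A).lintegral_comp hf]
  exact lintegral_prod_symm' _ (hf.comp (measurable_gl A))

/-- **One scale.** -/
theorem one_le (A : Set Pt) {E B : Set Env} (hE : MeasurableSet E) (hB : MeasurableSet B) (hoff : Off A E) {ε : ℝ≥0∞}
    (h : ∀ η, η ∈ E → law μ {η' | gl A η' η ∈ B} ≤ ε) : law μ (E ∩ B) ≤ ε * law μ E := by
  have : IsProbabilityMeasure (law μ) := by unfold law; infer_instance
  rw [← lintegral_indicator_one (hE.inter hB),
    lintegral_gl (μ := μ) A (measurable_one.indicator (hE.inter hB)), ← lintegral_indicator_one hE,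
    ← lintegral_const_mul _ (measurable_one.indicator hE)]
  refine lintegral_mono fun η => ?_
  by_cases h1 : η ∈ E
  · rw [Set.indicator_of_mem h1, Pi.one_apply, mul_one]
    refine le_trans ?_ (h η h1)
    have hm : MeasurableSet {η' : Env | gl A η' η ∈ B} := (measurable_gl_left A η) hB
    rw [← lintegral_indicator_one hm]
    refine lintegral_mono fun η' => ?_
    by_cases h2 : gl A η' η ∈ B
    · rw [Set.indicator_of_mem (s := {η' | gl A η' η ∈ B}) h2]
      exact Set.indicator_le_self _ _ _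
    · rw [Set.indicator_of_notMem fun h3 => h2 h3.2]
      exact zero_le
  · rw [Set.indicator_of_notMem h1, mul_zero]
    refine le_of_eq ?_
    rw [lintegral_eq_zero_iff]
    · refine Filter.Eventually.of_forall fun η' => ?_
      exact Set.indicator_of_notMem (fun h3 => h1 ((hoff.gl η' η).1 h3.1)) _
    · exact (measurable_one.indicator (hE.inter hB)).comp (measurable_gl_left A η)

/-- **The product bound.** The event `B i` must not read the sites of `A j` for `j > i`. -/
theorem prod_le {A : ℕ → Set Pt} {B : ℕ → Set Env} (hB : ∀ i, MeasurableSet (B i)) {ε : ℝ≥0∞} (S : Finset ℕ)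
    (hoff : ∀ i ∈ S, ∀ j ∈ S, i < j → Off (A j) (B i)) (h : ∀ i ∈ S, ∀ η, law μ {η' | gl (A i) η' η ∈ B i} ≤ ε) :
    law μ (⋂ i ∈ S, B i) ≤ ε ^ S.card := by
  have : IsProbabilityMeasure (law μ) := by unfold law; infer_instance
  induction S using Finset.induction_on_max with
  | empty => simp
  | insert a S ha ih =>
    have hnot : a ∉ S := fun h1 => lt_irrefl _ (ha a h1)
    have ih' := ih (fun i hi j hj => hoff i (mem_insert_of_mem hi) j (mem_insert_of_mem hj))
      fun i hi => h i (mem_insert_of_mem hi)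
    have hset : (⋂ i ∈ insert a S, B i) = (⋂ i ∈ S, B i) ∩ B a := by
      ext η
      simp only [Set.mem_iInter, Set.mem_inter_iff, mem_insert]
      exact ⟨fun h1 => ⟨fun i hi => h1 i (Or.inr hi), h1 a (Or.inl rfl)⟩,
        fun h1 i hi => hi.elim (fun e => e ▸ h1.2) fun e => h1.1 i e⟩
    have hO : Off (A a) (⋂ i ∈ S, B i) := by
      intro η η' he
      simp only [Set.mem_iInter]
      exact forall_congr' fun i => forall_congr' fun hi =>
        hoff i (mem_insert_of_mem hi) a (mem_insert_self _ _) (ha i hi) η η' he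
    rw [hset, card_insert_of_notMem hnot, pow_succ, mul_comm]
    refine (one_le (A a) (Finset.measurableSet_biInter _ fun i _ => hB i) (hB a) hO fun η _ =>
      h a (mem_insert_self _ _) η).trans ?_
    exact mul_le_mul_right ih' ε

/-- The number of the bad scales. -/
def cnt (B : ℕ → Set Env) (T : Finset ℕ) (η : Env) : ℕ := (T.filter fun i => η ∈ B i).card

theorem cnt_subset (B : ℕ → Set Env) (T : Finset ℕ) (r : ℕ) :
    {η : Env | r ≤ cnt B T η} ⊆ ⋃ S ∈ T.powersetCard r, ⋂ i ∈ S, B i := by
  intro η hη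
  obtain ⟨S, hS, hc⟩ := Finset.exists_subset_card_eq (s := T.filter fun i => η ∈ B i) (n := r) hη
  simp only [Set.mem_iUnion]
  refine ⟨S, mem_powersetCard.2 ⟨hS.trans (filter_subset _ _), hc⟩, ?_⟩
  simp only [Set.mem_iInter]
  exact fun i hi => (mem_filter.1 (hS hi)).2

/-- **At least `r` of the scales of `T` are bad**: probability at most `2 ^ |T| ε ^ r`. -/
theorem cnt_le {A : ℕ → Set Pt} {B : ℕ → Set Env} (hB : ∀ i, MeasurableSet (B i)) {ε : ℝ≥0∞} (T : Finset ℕ) (r : ℕ)
    (hoff : ∀ i ∈ T, ∀ j ∈ T, i < j → Off (A j) (B i)) (h : ∀ i ∈ T, ∀ η, law μ {η' | gl (A i) η' η ∈ B i} ≤ ε) :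
    law μ {η | r ≤ cnt B T η} ≤ 2 ^ T.card * ε ^ r := by
  have : IsProbabilityMeasure (law μ) := by unfold law; infer_instance
  calc law μ {η | r ≤ cnt B T η} ≤ law μ (⋃ S ∈ T.powersetCard r, ⋂ i ∈ S, B i) := measure_mono (cnt_subset B T r)
    _ ≤ ∑ S ∈ T.powersetCard r, law μ (⋂ i ∈ S, B i) := measure_biUnion_finset_le _ _
    _ ≤ ∑ _S ∈ T.powersetCard r, ε ^ r := by
      refine sum_le_sum fun S hS => ?_
      obtain ⟨h1, h2⟩ := mem_powersetCard.1 hS
      have h3 := prod_le (μ := μ) hB S (fun i hi j hj => hoff i (h1 hi) j (h1 hj)) fun i hi => h i (h1 hi)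
      rwa [h2] at h3
    _ = (T.card.choose r : ℝ≥0∞) * ε ^ r := by rw [sum_const, card_powersetCard, nsmul_eq_mul]
    _ ≤ 2 ^ T.card * ε ^ r := by
      refine mul_le_mul_left ?_ _
      exact_mod_cast Nat.choose_le_two_pow T.card r

/-- The same with a union over a finite family of sites. -/
theorem cnt_union {ι : Type*} (F : Finset ι) {A : ι → ℕ → Set Pt} {B : ι → ℕ → Set Env}
    (hB : ∀ c i, MeasurableSet (B c i)) {ε : ℝ≥0∞} (T : Finset ℕ) (r : ℕ)
    (hoff : ∀ c ∈ F, ∀ i ∈ T, ∀ j ∈ T, i < j → Off (A c j) (B c i))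
    (h : ∀ c ∈ F, ∀ i ∈ T, ∀ η, law μ {η' | gl (A c i) η' η ∈ B c i} ≤ ε) :
    law μ {η | ∃ c ∈ F, r ≤ cnt (B c) T η} ≤ F.card * (2 ^ T.card * ε ^ r) := by
  have : IsProbabilityMeasure (law μ) := by unfold law; infer_instance
  have hset : {η : Env | ∃ c ∈ F, r ≤ cnt (B c) T η} = ⋃ c ∈ F, {η | r ≤ cnt (B c) T η} := by
    ext η
    simp
  rw [hset]
  calc law μ (⋃ c ∈ F, {η | r ≤ cnt (B c) T η}) ≤ ∑ c ∈ F, law μ {η | r ≤ cnt (B c) T η} := measure_biUnion_finset_le _ _
    _ ≤ ∑ _c ∈ F, 2 ^ T.card * ε ^ r :=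
      sum_le_sum fun c hc => cnt_le (fun i => hB c i) T r (hoff c hc) (h c hc)
    _ = F.card * (2 ^ T.card * ε ^ r) := by rw [sum_const, nsmul_eq_mul]

end

end Pool.Agent.W_7d29a1_C1.S71
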