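import Pool.Agent.W_7d29a1_HR.Low
import Pool.Agent.W_7d29a1_C1.Seq71

/-!
MP_7d29a1_pr, attractor route, slab lemma (helper20, F4): the conditional FKG inequality. The sites of a set `S` (the strips of the
lanes) are frozen; `A` is decreasing in the sites off `S` (and anything in the sites of `S`), `C` is decreasing and depends on finitely
many sites off `S`. Then `P(A) P(C) ≤ P(A ∩ C)`. (helper31)
-/

set_option autoImplicit false

namespace Pool.Agent.W_7d29a1_C1.F31

open MeasureTheory ProbabilityTheory Filter Topology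
open Pool.Agent.W_7d29a1_F Pool.Agent.W_7d29a1_h4g Pool.Agent.W_7d29a1_H Pool.Agent.W_7d29a1_HS
open Pool.Agent.W_7d29a1_HR (Dec Fin')
open Pool.Agent.W_7d29a1_h48 (MonoOn harrisB harris)
open Pool.Agent.W_7d29a1_C1.S71 (Off)

noncomputable section

variable {μ : Measure ℝ} {S : Set Pt}

/-- The event is decreasing in the sites off `S` (no condition on the sites of `S`). -/
def DecO (S : Set Pt) (A : Set Env) : Prop :=
  ∀ η η' : Env, (∀ p, η p ≤ η' p) → (∀ p ∈ S, η p = η' p) → η' ∈ A → η ∈ A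

/-- The event is increasing in the sites off `S` (no condition on the sites of `S`). -/
def IncO (S : Set Pt) (A : Set Env) : Prop :=
  ∀ η η' : Env, (∀ p, η p ≤ η' p) → (∀ p ∈ S, η p = η' p) → η ∈ A → η' ∈ A

/-- The event depends on finitely many sites off `S`. -/
def FinO (S : Set Pt) (C : Set Env) : Prop :=
  ∃ D : Finset Pt, (∀ p ∈ D, p ∉ S) ∧ ∀ η η' : Env, (∀ p ∈ D, η p = η' p) → (η ∈ C ↔ η' ∈ C)

theorem DecO.of_dec {A : Set Env} (h : Dec A) (S : Set Pt) : DecO S A := fun η η' h1 _ h3 => h η η' h1 h3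

/-- An event which depends on the sites of `S` only. -/
theorem DecO.of_off {A : Set Env} (h : Off Sᶜ A) : DecO S A := fun η η' _ h2 h3 =>
  (h η η' fun p hp => h2 p (Set.notMem_compl_iff.1 hp)).2 h3

theorem IncO.of_off {A : Set Env} (h : Off Sᶜ A) : IncO S A := fun η η' _ h2 h3 =>
  (h η η' fun p hp => h2 p (Set.notMem_compl_iff.1 hp)).1 h3

theorem DecO.inter {A B : Set Env} (hA : DecO S A) (hB : DecO S B) : DecO S (A ∩ B) := fun η η' h1 h2 h3 =>
  ⟨hA η η' h1 h2 h3.1, hB η η' h1 h2 h3.2⟩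

theorem IncO.inter {A B : Set Env} (hA : IncO S A) (hB : IncO S B) : IncO S (A ∩ B) := fun η η' h1 h2 h3 =>
  ⟨hA η η' h1 h2 h3.1, hB η η' h1 h2 h3.2⟩

theorem DecO.union {A B : Set Env} (hA : DecO S A) (hB : DecO S B) : DecO S (A ∪ B) := fun η η' h1 h2 h3 =>
  h3.elim (fun h => Or.inl (hA η η' h1 h2 h)) fun h => Or.inr (hB η η' h1 h2 h)

theorem DecO.biInter {κ : Type*} {A : κ → Set Env} (I : Set κ) (hA : ∀ i ∈ I, DecO S (A i)) : DecO S (⋂ i ∈ I, A i) :=
  fun η η' h1 h2 h3 => by
    simp only [Set.mem_iInter] at h3 ⊢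
    exact fun i hi => hA i hi η η' h1 h2 (h3 i hi)

theorem DecO.compl {A : Set Env} (hA : IncO S A) : DecO S Aᶜ := fun η η' h1 h2 h3 h4 => h3 (hA η η' h1 h2 h4)

theorem IncO.compl {A : Set Env} (hA : DecO S A) : IncO S Aᶜ := fun η η' h1 h2 h3 h4 => h3 (hA η η' h1 h2 h4)

theorem DecO.mono {S' : Set Pt} {A : Set Env} (h : DecO S A) (hS : S ⊆ S') : DecO S' A := fun η η' h1 h2 h3 =>
  h η η' h1 (fun p hp => h2 p (hS hp)) h3

/-- A finitely determined event which does not see the sites of `S`. -/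
theorem FinO.of_fin {C : Set Env} (hC : Fin' C) (hoff : Off S C) : FinO S C := by
  classical
  obtain ⟨D, hD⟩ := hC
  refine ⟨D.filter fun p => p ∉ S, fun p hp => (Finset.mem_filter.1 hp).2, fun η η' h => ?_⟩
  have h1 := hD η (fun p => if p ∈ S then η p else η' p) fun p hp => by
    by_cases hpS : p ∈ S
    · simp [hpS]
    · simp only [hpS, if_false]
      exact h p (Finset.mem_filter.2 ⟨hp, hpS⟩)
  have h2 := hoff (fun p => if p ∈ S then η p else η' p) η' fun p hp => by simp [hp]
  exact h1.trans h2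

theorem FinO.inter {A B : Set Env} (hA : FinO S A) (hB : FinO S B) : FinO S (A ∩ B) := by
  classical
  obtain ⟨D, h1, h2⟩ := hA
  obtain ⟨D', h3, h4⟩ := hB
  refine ⟨D ∪ D', fun p hp => (Finset.mem_union.1 hp).elim (h1 p) (h3 p), fun η η' h => ?_⟩
  have e1 := h2 η η' fun p hp => h p (Finset.mem_union_left _ hp)
  have e2 := h4 η η' fun p hp => h p (Finset.mem_union_right _ hp)
  exact and_congr e1 e2

theorem monoOn_fun {F : Env → ℝ} {D : Finset Pt} (hD : ∀ p ∈ D, p ∉ S)
    (hF : ∀ η η' : Env, (∀ p, η p ≤ η' p) → (∀ p ∈ S, η p = η' p) → F η' ≤ F η) :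
    MonoOn (D : Set Pt) fun η => -F η := by
  intro g g' h1 h2
  have h3 := hF g g' h1 fun p hp => h2 p fun hpD => hD p (by exact_mod_cast hpD) hp
  linarith

/-- **Conditional FKG, functions**: `F` integrable and nonincreasing in the sites off `S`, `C` decreasing off `S`. -/
theorem fkg_fun [IsProbabilityMeasure μ] {F : Env → ℝ} {C : Set Env} (mF : Measurable F) (iF : Integrable F (law μ))
    (mC : MeasurableSet C)
    (hF : ∀ η η' : Env, (∀ p, η p ≤ η' p) → (∀ p ∈ S, η p = η' p) → F η' ≤ F η) (hC : DecO S C) (fC : FinO S C) :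
    (∫ η, F η ∂(law μ)) * (law μ).real C ≤ ∫ η in C, F η ∂(law μ) := by
  obtain ⟨D, hD, hD'⟩ := fC
  have hCm : MonoOn (D : Set Pt) (C.indicator fun _ => (-1 : ℝ)) := by
    intro g g' h1 h2
    by_cases hg' : g' ∈ C
    · have hg : g ∈ C := hC g g' h1 (fun p hp => h2 p fun hpD => hD p (by exact_mod_cast hpD) hp) hg'
      rw [Set.indicator_of_mem hg', Set.indicator_of_mem hg]
    · rw [Set.indicator_of_notMem hg']
      exact Set.indicator_nonpos (fun _ _ => by norm_num) g
  have hCb : ∀ g : Env, |C.indicator (fun _ => (-1 : ℝ)) g| ≤ 1 := by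
    intro g
    by_cases hg : g ∈ C
    · rw [Set.indicator_of_mem hg]
      norm_num
    · rw [Set.indicator_of_notMem hg]
      norm_num
  have h1 := harris (ι := Pt) (μ := μ) D (F := fun η => -F η) (G := C.indicator fun _ => (-1 : ℝ)) mF.neg iF.neg
    (measurable_const.indicator mC) hCb (monoOn_fun hD hF) hCm (by
      intro η η' hh
      have h2 := hD' η η' fun p hp => hh p (by exact_mod_cast hp)
      by_cases hη : η ∈ C
      · rw [Set.indicator_of_mem hη, Set.indicator_of_mem (h2.1 hη)]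
      · rw [Set.indicator_of_notMem hη, Set.indicator_of_notMem fun h3 => hη (h2.2 h3)])
  have h2 : ∫ g, C.indicator (fun _ => (-1 : ℝ)) g ∂(law μ) = -(law μ).real C := by
    rw [integral_indicator mC]
    simp [Measure.real]
  have h3 : ∀ g, -F g * C.indicator (fun _ => (-1 : ℝ)) g = C.indicator F g := by
    intro g
    by_cases hg : g ∈ C
    · rw [Set.indicator_of_mem hg, Set.indicator_of_mem hg]
      ring
    · rw [Set.indicator_of_notMem hg, Set.indicator_of_notMem hg]
      ring
  have h4 : (∫ g, -F g ∂(law μ)) * (∫ g, C.indicator (fun _ => (-1 : ℝ)) g ∂(law μ)) ≤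
      ∫ g, -F g * C.indicator (fun _ => (-1 : ℝ)) g ∂(law μ) := h1
  simp only [h3] at h4
  rw [integral_neg, h2, integral_indicator mC] at h4
  linarith

/-- **Conditional FKG**: `A` decreasing off `S`, `C` decreasing off `S` and depending on finitely many sites off `S`. -/
theorem fkg [IsProbabilityMeasure μ] {A C : Set Env} (mA : MeasurableSet A) (mC : MeasurableSet C) (hA : DecO S A)
    (hC : DecO S C) (fC : FinO S C) : (law μ).real A * (law μ).real C ≤ (law μ).real (A ∩ C) := by
  have h1 := fkg_fun (μ := μ) (S := S) (F := A.indicator fun _ => (1 : ℝ)) (C := C) (measurable_const.indicator mA)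
    ((integrable_const (1 : ℝ)).indicator mA) mC (fun η η' h2 h3 => by
      by_cases hη' : η' ∈ A
      · rw [Set.indicator_of_mem hη', Set.indicator_of_mem (hA η η' h2 h3 hη')]
      · rw [Set.indicator_of_notMem hη']
        exact Set.indicator_nonneg (fun _ _ => zero_le_one) η) hC fC
  have h2 : ∫ g, A.indicator (fun _ => (1 : ℝ)) g ∂(law μ) = (law μ).real A := by
    rw [integral_indicator mA]
    simp [Measure.real]
  have h3 : ∫ g in C, A.indicator (fun _ => (1 : ℝ)) g ∂(law μ) = (law μ).real (A ∩ C) := by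
    rw [integral_indicator mA]
    simp [Measure.real, Measure.restrict_apply mA]
  rw [h2, h3] at h1
  exact h1

/-- The mixed form: `A` increasing off `S`. -/
theorem fkg_inc [IsProbabilityMeasure μ] {A C : Set Env} (mA : MeasurableSet A) (mC : MeasurableSet C) (hA : IncO S A)
    (hC : DecO S C) (fC : FinO S C) : (law μ).real (A ∩ C) ≤ (law μ).real A * (law μ).real C := by
  have h1 := fkg (μ := μ) mA.compl mC (DecO.compl hA) hC fC
  have h2 : (law μ).real Aᶜ = 1 - (law μ).real A := by
    rw [measureReal_compl mA, probReal_univ]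
  have h3 : (law μ).real (Aᶜ ∩ C) = (law μ).real C - (law μ).real (A ∩ C) := by
    have h4 := measureReal_inter_add_sdiff (μ := law μ) (s := C) mA
    have e1 : C ∩ A = A ∩ C := Set.inter_comm _ _
    have e2 : C \ A = Aᶜ ∩ C := by
      rw [Set.sdiff_eq, Set.inter_comm]
    rw [e1, e2] at h4
    linarith
  rw [h2, h3] at h1
  nlinarith

/-- Finitely many decreasing events off `S`. -/
theorem fkg_fam [IsProbabilityMeasure μ] {κ : Type*} [DecidableEq κ] {A : Set Env} {C : κ → Set Env} (mA : MeasurableSet A)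
    (hA : DecO S A) (I : Finset κ) (mC : ∀ i ∈ I, MeasurableSet (C i)) (hC : ∀ i ∈ I, DecO S (C i)) (fC : ∀ i ∈ I, FinO S (C i)) :
    (law μ).real A * ∏ i ∈ I, (law μ).real (C i) ≤ (law μ).real (A ∩ ⋂ i ∈ I, C i) := by
  induction I using Finset.induction_on with
  | empty => simp
  | insert i I hi ih =>
    have h1 := ih (fun j hj => mC j (Finset.mem_insert_of_mem hj)) (fun j hj => hC j (Finset.mem_insert_of_mem hj))
      fun j hj => fC j (Finset.mem_insert_of_mem hj)
    have m1 : MeasurableSet (A ∩ ⋂ j ∈ I, C j) :=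
      mA.inter (Finset.measurableSet_biInter _ fun j hj => mC j (Finset.mem_insert_of_mem hj))
    have d1 : DecO S (A ∩ ⋂ j ∈ I, C j) := hA.inter (by
      have h2 := DecO.biInter (S := S) (A := C) (I : Set κ) fun j hj =>
        hC j (Finset.mem_insert_of_mem (by exact_mod_cast hj))
      simpa using h2)
    have h2 := fkg (μ := μ) m1 (mC i (Finset.mem_insert_self i I)) d1 (hC i (Finset.mem_insert_self i I))
      (fC i (Finset.mem_insert_self i I))
    have e : (A ∩ ⋂ j ∈ I, C j) ∩ C i = A ∩ ⋂ j ∈ insert i I, C j := by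
      rw [Finset.set_biInter_insert, Set.inter_assoc, Set.inter_comm (⋂ j ∈ I, C j) (C i)]
    rw [e] at h2
    rw [Finset.prod_insert hi]
    calc (law μ).real A * ((law μ).real (C i) * ∏ j ∈ I, (law μ).real (C j))
        = (law μ).real A * (∏ j ∈ I, (law μ).real (C j)) * (law μ).real (C i) := by ring
      _ ≤ (law μ).real (A ∩ ⋂ j ∈ I, C j) * (law μ).real (C i) := mul_le_mul_of_nonneg_right h1 measureReal_nonneg
      _ ≤ _ := h2

/-- The same with a common lower bound of the probabilities. -/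
theorem fkg_pow [IsProbabilityMeasure μ] {κ : Type*} [DecidableEq κ] {A : Set Env} {C : κ → Set Env} (mA : MeasurableSet A)
    (hA : DecO S A) (I : Finset κ) (mC : ∀ i ∈ I, MeasurableSet (C i)) (hC : ∀ i ∈ I, DecO S (C i)) (fC : ∀ i ∈ I, FinO S (C i))
    {p : ℝ} (hp : 0 ≤ p) (hpC : ∀ i ∈ I, p ≤ (law μ).real (C i)) :
    (law μ).real A * p ^ I.card ≤ (law μ).real (A ∩ ⋂ i ∈ I, C i) := by
  refine le_trans (mul_le_mul_of_nonneg_left ?_ measureReal_nonneg) (fkg_fam (μ := μ) mA hA I mC hC fC)
  rw [← Finset.prod_const]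
  exact Finset.prod_le_prod (fun _ _ => hp) hpC

/-- **The form of the slab lemma**: `A` (the lane) depends on the sites of `S` only, `B` (no excess, no jump) is decreasing, `C` (the
walls) is decreasing, finitely determined and does not see `S`. -/
theorem slab [IsProbabilityMeasure μ] {A B C : Set Env} (mA : MeasurableSet A) (mB : MeasurableSet B) (mC : MeasurableSet C)
    (hA : Off Sᶜ A) (hB : Dec B) (hC : Dec C) (fC : Fin' C) (oC : Off S C) :
    (law μ).real (A ∩ B) * (law μ).real C ≤ (law μ).real (A ∩ B ∩ C) :=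
  fkg (μ := μ) (mA.inter mB) mC ((DecO.of_off hA).inter (DecO.of_dec hB S)) (DecO.of_dec hC S) (FinO.of_fin fC oC)

/-- The same, with the numbers: `P(A) ≥ p`, `P(not B) ≤ p / 2`, `P(C) ≥ q`. -/
theorem slab_half [IsProbabilityMeasure μ] {A B C : Set Env} (mA : MeasurableSet A) (mB : MeasurableSet B)
    (mC : MeasurableSet C) (hA : Off Sᶜ A) (hB : Dec B) (hC : Dec C) (fC : Fin' C) (oC : Off S C) {p q : ℝ} (hq : 0 ≤ q)
    (h1 : p ≤ (law μ).real A) (h2 : (law μ).real Bᶜ ≤ p / 2) (h3 : q ≤ (law μ).real C) :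
    p / 2 * q ≤ (law μ).real (A ∩ B ∩ C) := by
  have h4 := slab (μ := μ) mA mB mC hA hB hC fC oC
  have h5 : p / 2 ≤ (law μ).real (A ∩ B) := by
    have h6 : (law μ).real A ≤ (law μ).real (A ∩ B) + (law μ).real Bᶜ := by
      refine (measureReal_mono (fun η hη => ?_) (measure_ne_top _ _)).trans (measureReal_union_le _ _)
      by_cases hb : η ∈ B
      · exact Or.inl ⟨hη, hb⟩
      · exact Or.inr hb
    linarith
  exact (mul_le_mul h5 h3 hq measureReal_nonneg).trans h4

end

end Pool.Agent.W_7d29a1_C1.F31
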