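import Pool.Agent.W_7d29a1_C1.BoxD69
import Pool.Agent.W_7d29a1_C1.Jmp75
import Pool.Agent.W_7d29a1_C1.Fkg31

/-!
MP_7d29a1_pr, [C1], resampled WINDOWS: THE LINES (H0), (H1), (H2) OF `box69`. (helper58)

The events `PW69 μ s R h T m D b` are measurable, decreasing, read only the sites of `R` in the rows `(0, T]`
(`dep_PW69`; `off_PW69` if `R` avoids the strips). `jm_sub_PW69`, `js_sub_PW69`: they contain `Jm`, `Js` for every `R`;
`pw69_prob`, `pw69_prob_blocks`: the probability of the complement.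
-/

set_option autoImplicit false

namespace Pool.Agent.W_7d29a1_C1.BP58

open MeasureTheory ProbabilityTheory Filter Topology
open Pool.Agent.W_7d29a1_F Pool.Agent.W_7d29a1_h4g Pool.Agent.W_7d29a1_H Pool.Agent.W_7d29a1_HS
open Pool.Agent.W_7d29a1_HL (cS measurable_cS cS_dep)
open Pool.Agent.W_7d29a1_HR (Dec Fin' cS_mono_env cS_le_V)
open Pool.Agent.W_7d29a1_h48 (WR_mono_env)
open Pool.Agent.W_7d29a1_C1
open Pool.Agent.W_7d29a1_C1.S71 (Off)
open Pool.Agent.W_7d29a1_C1.H75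

noncomputable section

variable {μ : Measure ℝ} {s c : ℝ} {R S : Set Pt} {h D b : ℝ} {T m : ℕ}

theorem meas_PW69 : MeasurableSet (PW69 μ s R h T m D b) := by
  have e : PW69 μ s R h T m D b = ⋂ (t : ℕ) (j : ℕ) (x : ℤ) (_ : t + j ≤ T) (_ : j ≤ m) (_ : |(x : ℝ) - sl μ s * t| ≤ D),
      ({η | cS μ s R η ((t : ℤ), x) j ≤ Real.exp b} ∩
        ⋂ (y : ℤ), {η | WR μ s R η ((t : ℤ), x) j y ≤ Real.exp (b - h * |(y : ℝ) - sl μ s * j|)}) := by
    ext η
    simp only [Set.mem_iInter, Set.mem_inter_iff]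
    exact Iff.rfl
  rw [e]
  refine MeasurableSet.iInter fun t => MeasurableSet.iInter fun j => MeasurableSet.iInter fun x => MeasurableSet.iInter fun _ =>
    MeasurableSet.iInter fun _ => MeasurableSet.iInter fun _ => MeasurableSet.inter ?_ (MeasurableSet.iInter fun y => ?_)
  · exact measurableSet_le (measurable_cS _ _ _) measurable_const
  · exact measurableSet_le (measurable_WR _ _ _ _) measurable_const

theorem dec_PW69 : Dec (PW69 μ s R h T m D b) := fun _ _ hh hη t j x h1 h2 h3 =>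
  ⟨(cS_mono_env R hh _ _).trans (hη t j x h1 h2 h3).1, fun y => (WR_mono_env R hh _ _ _).trans ((hη t j x h1 h2 h3).2 y)⟩

/-- Only the sites of `R` in the rows `(0, T]` matter. -/
theorem dep_PW69 {η η' : Env} (hh : ∀ p ∈ R, 0 < p.1 → p.1 ≤ T → η p = η' p) :
    η ∈ PW69 μ s R h T m D b ↔ η' ∈ PW69 μ s R h T m D b := by
  have key : ∀ (t j : ℕ) (x : ℤ), t + j ≤ T → cS μ s R η ((t : ℤ), x) j = cS μ s R η' ((t : ℤ), x) j ∧
      ∀ y : ℤ, WR μ s R η ((t : ℤ), x) j y = WR μ s R η' ((t : ℤ), x) j y := by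
    intro t j x h1
    have hrow : ∀ p : Pt, p ∈ R → (t : ℤ) < p.1 → p.1 ≤ (t : ℤ) + j → η p = η' p := fun p hp k1 k2 =>
      hh p hp (by omega) (by omega)
    exact ⟨cS_dep (μ := μ) (s := s) R ((t : ℤ), x) j fun p hp => hrow p hp.1 hp.2.1 hp.2.2, fun y =>
      WR_dep (μ := μ) (s := s) R ((t : ℤ), x) j y fun p hp => hrow p hp.2 hp.1.1 hp.1.2.1⟩
  constructor
  · intro H t j x h1 h2 h3
    obtain ⟨k1, k2⟩ := key t j x h1
    rw [← k1]
    refine ⟨(H t j x h1 h2 h3).1, fun y => ?_⟩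
    rw [← k2 y]
    exact (H t j x h1 h2 h3).2 y
  · intro H t j x h1 h2 h3
    obtain ⟨k1, k2⟩ := key t j x h1
    rw [k1]
    refine ⟨(H t j x h1 h2 h3).1, fun y => ?_⟩
    rw [k2 y]
    exact (H t j x h1 h2 h3).2 y

/-- The paths avoid `S`: the event does not read `S`. -/
theorem off_PW69 (hR : Disjoint R S) : Off S (PW69 μ s R h T m D b) := fun _ _ hh =>
  dep_PW69 fun p hp _ _ => hh p fun hpS => Set.disjoint_left.1 hR hp hpS

theorem PW69_mono [IsProbabilityMeasure μ] {R' : Set Pt} {h' D' b' : ℝ} {m' : ℕ} (hR : R' ⊆ R) (hh : h' ≤ h) (hm : m' ≤ m) (hD : D' ≤ D) (hb : b ≤ b') :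
    PW69 μ s R h T m D b ⊆ PW69 μ s R' h' T m' D' b' := fun η hη t j x h1 h2 h3 => by
  obtain ⟨k1, k2⟩ := hη t j x h1 (h2.trans hm) (h3.trans hD)
  constructor
  · refine le_trans (Finset.sum_le_sum fun y _ => ?_) (k1.trans (Real.exp_le_exp.2 hb))
    exact Pool.Agent.W_7d29a1_HL.WR_mono' hR η _ _ _
  · intro y
    refine (Pool.Agent.W_7d29a1_HL.WR_mono' hR η _ _ _).trans ((k2 y).trans (Real.exp_le_exp.2 ?_))
    have := mul_le_mul_of_nonneg_right hh (abs_nonneg ((y : ℝ) - sl μ s * j))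
    linarith

/-! ### Probability -/

theorem jm_sub_PW69 {n : ℕ} (hT : T ≤ 4 * n) : Jm μ s c n 0 D b ⊆ PW69 μ s R (hc μ s c n) T m D b :=
  fun η hη t j x h1 _ h3 => by
    have h4 : |(x : ℝ) - sl μ s * t - 0| ≤ D := by rwa [sub_zero]
    exact ⟨(cS_le_V R η _ _).trans (Real.exp_le_exp.2 (jm_V hη (by omega) h4)),
      fun y => (WR_le_W R η _ _ _).trans (jm_W hη (by omega) h4 y)⟩

theorem js_sub_PW69 {n N : ℕ} (hn : 1 ≤ n) (hN : 1 ≤ N) : Js μ s c n N 0 D b ⊆ PW69 μ s R (hc μ s c n) (N * n) (2 * n) D b :=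
  fun η hη t j x h1 h2 h3 => by
    obtain ⟨i, hi, t', ht, ht'⟩ : ∃ i, i < N ∧ ∃ t', t = i * n + t' ∧ t' + j ≤ 4 * n := by
      by_cases ht : t < N * n
      · refine ⟨t / n, Nat.div_lt_of_lt_mul (by rwa [mul_comm] at ht), t % n, ?_, ?_⟩
        · rw [mul_comm]
          exact (Nat.div_add_mod t n).symm
        · have := Nat.mod_lt t (show 0 < n by omega)
          omega
      · obtain ⟨N', rfl⟩ : ∃ N', N = N' + 1 := ⟨N - 1, by omega⟩
        have e : (N' + 1) * n = N' * n + n := by ring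
        exact ⟨N', by omega, n, by omega, by omega⟩
    have h4 : |(x : ℝ) - sl μ s * t' - (0 + sl μ s * (i * n : ℕ))| ≤ D := by
      have e : (x : ℝ) - sl μ s * t' - (0 + sl μ s * (i * n : ℕ)) = (x : ℝ) - sl μ s * t := by
        rw [ht]
        push_cast
        ring
      rwa [e]
    have e1 : (((t' : ℤ), x) : Pt) + ((((i * n : ℕ) : ℤ)), 0) = ((t : ℤ), x) := by
      rw [Prod.mk_add_mk, add_zero, ht]
      push_cast
      rw [add_comm]
    have a1 := jm_V (hη i hi) (t := t') (x := x) (j := j) ht' h4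
    rw [V_sh, e1] at a1
    refine ⟨(cS_le_V R η _ _).trans (Real.exp_le_exp.2 a1), fun y => ?_⟩
    have a2 := jm_W (hη i hi) (t := t') (x := x) (j := j) ht' h4 y
    rw [W_sh, e1] at a2
    exact (WR_le_W R η _ _ _).trans a2

variable {C : ℝ} {n₀ : ℕ}

/-- (H0), (H1): the scale of the slab. -/
theorem pw69_prob [IsProbabilityMeasure μ] (hIn : In μ s c C n₀) {n : ℕ} (hn : n₀ ≤ n) (hn1 : 1 ≤ n) (hT : T ≤ 4 * n) (hD : 0 ≤ D) (b : ℝ) :
    (law μ).real (PW69 μ s R (hc μ s c n) T m D b)ᶜ ≤ 3 * ((2 * D / wd μ s n + 2) * (C * Real.exp (-(b / (C * EE μ s n))))) := by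
  have : IsProbabilityMeasure (law μ) := by unfold law; infer_instance
  exact (measureReal_mono (Set.compl_subset_compl.2 (jm_sub_PW69 hT))).trans (jm_prob hIn hn hn1 hD 0 b)

/-- (H2): the scale of the sub blocks. -/
theorem pw69_prob_blocks [IsProbabilityMeasure μ] (hIn : In μ s c C n₀) {n N : ℕ} (hn : n₀ ≤ n) (hn1 : 1 ≤ n) (hN : 1 ≤ N) (hD : 0 ≤ D) (b : ℝ) :
    (law μ).real (PW69 μ s R (hc μ s c n) (N * n) (2 * n) D b)ᶜ ≤
      N * (3 * ((2 * D / wd μ s n + 2) * (C * Real.exp (-(b / (C * EE μ s n)))))) := by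
  have : IsProbabilityMeasure (law μ) := by unfold law; infer_instance
  exact (measureReal_mono (Set.compl_subset_compl.2 (js_sub_PW69 hn1 hN))).trans (js_prob hIn hn hn1 N hD 0 b)

end

end Pool.Agent.W_7d29a1_C1.BP58
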