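import Pool.Agent.W_7d29a1_C1.WallC66

/-!
MP_7d29a1_pr, TRACK C1: THE WALL. All paths confined to a region of the width of the scale `n` which last at least `θ n` rows or
which move off the slope by at least `θ wd n` are unlucky, `exp (- A EE n)` for any `A`, with positive probability. (helper66)
-/

set_option autoImplicit false

namespace Pool.Agent.W_7d29a1_C1.Wall66

open MeasureTheory ProbabilityTheory Filter Topology
open Pool.Agent.W_7d29a1_F Pool.Agent.W_7d29a1_h4g Pool.Agent.W_7d29a1_H Pool.Agent.W_7d29a1_HS Pool.Agent.W_7d29a1_HL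
open Pool.Agent.W_7d29a1_HR (Dec Fin' Dn)
open Pool.Agent.W_7d29a1_HX.XG (XC XC_use XC_prob cross cross_neg)

noncomputable section

variable {μ : Measure ℝ} [IsProbabilityMeasure μ] {s c C : ℝ} {n₀ : ℕ}

/-- The upper bound of all weights of the box, with probability at least `1 / 2`. -/
theorem up_prob (h : In μ s c C n₀) {R : ℝ} (hR : 0 ≤ R) {K : ℕ} (hK : 1 ≤ K) :
    ∃ (B₀ : ℝ) (n₁ : ℕ), 0 ≤ B₀ ∧ ∀ n : ℕ, n₁ ≤ n → ∀ a : Pt, ∃ E : Set Env, Gd E ∧ 1 / 2 ≤ (law μ).real E ∧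
      ∀ η ∈ E, ∀ (q : Pt) (j : ℕ) (y : ℤ), a.1 ≤ q.1 → q.1 + j ≤ a.1 + K * n →
        |((q.2 : ℝ) - a.2) - sl μ s * ((q.1 : ℝ) - a.1)| ≤ R * wd μ s n + 1 → W μ s η q j y ≤ Real.exp (B₀ * EE μ s n) := by
  have hC0 : 0 < C := lt_of_lt_of_le one_pos h.C1
  obtain ⟨K₁, hK₁⟩ : ∃ K₁ : ℕ, K₁ = ⌈2 * R + 1⌉₊ := ⟨_, rfl⟩
  have hK₁r : 2 * R + 1 ≤ K₁ := hK₁ ▸ Nat.le_ceil _
  -- the level of the luck
  obtain ⟨b, hb0, hb⟩ : ∃ b : ℝ, 0 < b ∧ (2 * K₁ + 1) * (C * Real.exp (-(b / C))) ≤ 1 / 2 := by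
    have h1 : Tendsto (fun b : ℝ => (2 * K₁ + 1 : ℝ) * (C * Real.exp (-(b / C)))) atTop (𝓝 ((2 * K₁ + 1) * (C * 0))) := by
      refine Tendsto.const_mul _ (Tendsto.const_mul _ ?_)
      exact Real.tendsto_exp_neg_atTop_nhds_zero.comp (tendsto_id.atTop_div_const hC0)
    rw [mul_zero, mul_zero] at h1
    obtain ⟨b, hb1, hb2⟩ := ((h1.eventually (gt_mem_nhds (show (0 : ℝ) < 1 / 2 by norm_num))).and (eventually_gt_atTop 0)).exists
    exact ⟨b, hb2, hb1.le⟩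
  obtain ⟨nw, hnw⟩ := (tendsto_atTop.1 (wd_tendsto h) 1).exists_forall_of_atTop
  refine ⟨b * (2 * K), n₀ + nw + 1, by positivity, fun n hn a => ?_⟩
  have hnK : n ≤ K * n := Nat.le_mul_of_pos_left n (by omega)
  have hw1 : 1 ≤ wd μ s (K * n) := hnw _ (by omega)
  refine ⟨XC μ s 0 (K * n) K₁ (b * EE μ s (K * n)) a, XC_gd _ _ _ _ _, ?_, ?_⟩
  · have hE := EE_pos (μ := μ) (s := s) (K * n)
    have h1 := XC_prob h (d := K * n) (by omega) (t := 0) (by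
      rw [abs_zero, zero_mul]
      have := h.c0
      positivity) K₁ (b * EE μ s (K * n)) a
    rw [show b * EE μ s (K * n) / (C * EE μ s (K * n)) = b / C by field_simp] at h1
    have h2 := measureReal_compl (μ := law μ) (XC_gd (μ := μ) (s := s) 0 (K * n) K₁ (b * EE μ s (K * n)) a).m
    rw [h2, probReal_univ] at h1
    linarith
  · intro η hη q j y hq hj hnear
    have h1 : |((q.2 : ℝ) - a.2) - sl μ s * ((q.1 : ℝ) - a.1)| ≤ K₁ * wd μ s (K * n) := by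
      refine hnear.trans ?_
      have h2 := wd_le_two h (show 1 ≤ n by omega) hnK
      have h3 : R * wd μ s n ≤ R * (2 * wd μ s (K * n)) := mul_le_mul_of_nonneg_left h2 hR
      have h4 : (2 * R + 1) * wd μ s (K * n) ≤ K₁ * wd μ s (K * n) := mul_le_mul_of_nonneg_right hK₁r (by linarith)
      linarith
    have h2 := XC_use h hη (by linarith) hq (by push_cast at hj ⊢; nlinarith [show (0 : ℤ) ≤ K * n by positivity]) h1 y
    rw [zero_mul, sub_zero] at h2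
    refine h2.trans (Real.exp_le_exp.2 ?_)
    have h3 := scale_b h (show 1 ≤ n by omega) hnK
    have hn0 : (0 : ℝ) < n := by exact_mod_cast (show 0 < n by omega)
    have h4 : EE μ s (K * n) ≤ 2 * K * EE μ s n := by
      push_cast at h3
      have h5 : n * EE μ s (K * n) ≤ n * (2 * K * EE μ s n) := by linarith
      exact le_of_mul_le_mul_left h5 hn0
    calc b * EE μ s (K * n) ≤ b * (2 * K * EE μ s n) := mul_le_mul_of_nonneg_left h4 hb0.le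
      _ = b * (2 * K) * EE μ s n := by ring

/-- **THE WALL.** -/
theorem wall (h : In μ s c C n₀) {R : ℝ} (hR : 0 ≤ R) {K : ℕ} (hK : 1 ≤ K) : ∃ B : ℝ, 0 ≤ B ∧ ∀ A θ : ℝ, 0 < θ →
    ∃ p : ℝ, 0 < p ∧ ∃ n₁ : ℕ, ∀ n : ℕ, n₁ ≤ n → ∀ (a : Pt) (S : Set Pt) (τ : ℕ), S ⊆ tb (sl μ s) a (R * wd μ s n) →
      θ * n ≤ τ → p ≤ (law μ).real (WA μ s S a (K * n) τ (θ * wd μ s n) (A * EE μ s n) (B * EE μ s n)) := by
  have hC1 := h.C1
  have hC0 : 0 < C := lt_of_lt_of_le one_pos hC1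
  have hKr : (1 : ℝ) ≤ K := by exact_mod_cast hK
  obtain ⟨B₀, nu, hB₀, hup⟩ := up_prob h hR hK
  refine ⟨B₀ + 2 * C, by positivity, fun A θ hθ => ?_⟩
  -- the fast crossings
  obtain ⟨b₁, J₁, m₁, hcr⟩ := cross h (hsl h) (A + 2 * C) 1 hθ (show (0 : ℝ) < 1 / 2 by norm_num)
  obtain ⟨b₂, J₂, m₂, hcl⟩ := cross_neg h (hsl h) (A + 2 * C) 1 hθ (show (0 : ℝ) < 1 / 2 by norm_num)
  obtain ⟨J₃, hJ₃⟩ := pow_unbounded_of_one_lt (2 / θ) (one_lt_two (α := ℝ))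
  obtain ⟨J, hJd⟩ : ∃ J : ℕ, J = J₁ + J₂ + J₃ := ⟨_, rfl⟩
  have hJ1 : 1 ≤ 2 ^ J := Nat.one_le_two_pow
  -- the blocks
  obtain ⟨Y, hY⟩ : ∃ Y : ℝ, Y = A + 2 * (B₀ + 2 * C) := ⟨_, rfl⟩
  obtain ⟨p₃, hp₃, m₃, hbl⟩ := rows_unlucky h hR Y (M₀ := 2 ^ (J + 1)) Nat.one_le_two_pow
  obtain ⟨nw, hnw⟩ := (tendsto_atTop.1 (wd_tendsto h) 2).exists_forall_of_atTop
  obtain ⟨N₀, hN₀⟩ : ∃ N₀ : ℕ, N₀ = K * 2 ^ (J + 1) + 1 := ⟨_, rfl⟩
  obtain ⟨G, hG⟩ : ∃ G : ℕ, G = ⌈2 * R * 2 ^ (J + 2) + 3⌉₊ := ⟨_, rfl⟩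
  have hGr : 2 * R * 2 ^ (J + 2) + 3 ≤ G := hG ▸ Nat.le_ceil _
  obtain ⟨I, hI⟩ : ∃ I : Finset (ℕ × ℕ), I = Finset.range N₀ ×ˢ Finset.range (2 * G + 1) := ⟨_, rfl⟩
  refine ⟨(1 / 2) * (p₃ ^ (Finset.range N₀).card * ((1 / 2) ^ I.card * (1 / 2) ^ I.card)), by positivity,
    2 ^ J * (m₁ + m₂ + nw + 2) + m₃ + nu + K + 2, fun n hn a S τ hS hτ => ?_⟩
  have hE := EE_pos (μ := μ) (s := s) n
  -- the small scale
  obtain ⟨d, hd⟩ : ∃ d : ℕ, d = n / 2 ^ J := ⟨_, rfl⟩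
  have hd1 : 2 ^ J * d ≤ n := by
    rw [hd]
    exact Nat.mul_div_le n (2 ^ J)
  have hd2 : n < 2 ^ J * (d + 1) := by
    rw [hd]
    exact Nat.lt_mul_div_succ n (by omega)
  have hdl : m₁ + m₂ + nw + 2 ≤ d := by
    rw [hd]
    refine (Nat.le_div_iff_mul_le (by omega)).2 ?_
    rw [mul_comm]
    omega
  have hdn : d ≤ n := by
    have : 1 * d ≤ 2 ^ J * d := Nat.mul_le_mul_right d hJ1
    omega
  have hnd : n ≤ 2 ^ (J + 1) * d := by
    have h1 : 2 ^ J * (d + 1) ≤ 2 ^ J * (2 * d) := Nat.mul_le_mul_left _ (by omega)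
    have h2 : 2 ^ J * (2 * d) = 2 ^ (J + 1) * d := by rw [pow_succ]; ring
    omega
  have hN : K * n < N₀ * d := by
    have h1 : K * n ≤ K * (2 ^ (J + 1) * d) := Nat.mul_le_mul_left K hnd
    have h2 : N₀ * d = K * (2 ^ (J + 1) * d) + d := by rw [hN₀]; ring
    omega
  have hdτ : 2 * d ≤ τ := by
    have h1 : (2 : ℝ) * d ≤ θ * n := by
      have h2 : (2 : ℝ) ^ J₃ * d ≤ n := by
        have h3 : 2 ^ J₃ * d ≤ 2 ^ J * d := Nat.mul_le_mul_right d (Nat.pow_le_pow_right (by norm_num) (by omega))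
        exact_mod_cast h3.trans hd1
      have h4 : 2 / θ * d ≤ n := (mul_le_mul_of_nonneg_right hJ₃.le (Nat.cast_nonneg d)).trans h2
      rw [div_mul_eq_mul_div, div_le_iff₀ hθ] at h4
      linarith
    have h5 : (2 * d : ℝ) ≤ τ := h1.trans hτ
    exact_mod_cast h5
  have hwd2 : 2 ≤ wd μ s d := hnw d (by omega)
  have hwn : wd μ s n ≤ 2 ^ (J + 2) * wd μ s d := by
    have k1 : vA 1 μ s n ≤ 2 * vA 1 μ s d := vA_le_two h (show 1 ≤ d by omega) hdn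
    have k2 : (n : ℝ) ≤ 2 ^ (J + 1) * d := by exact_mod_cast hnd
    have k3 := h.vA_nonneg d
    unfold wd
    calc n * vA 1 μ s n ≤ (2 ^ (J + 1) * d) * (2 * vA 1 μ s d) := mul_le_mul k2 k1 (h.vA_nonneg n) (by positivity)
      _ = 2 ^ (J + 2) * (d * vA 1 μ s d) := by ring
  obtain ⟨w₁, hw₁⟩ : ∃ w₁ : ℤ, w₁ = ⌊wd μ s d⌋ := ⟨_, rfl⟩
  have hw1 : (w₁ : ℝ) ≤ wd μ s d := hw₁ ▸ Int.floor_le _
  have hw2 : wd μ s d < w₁ + 1 := hw₁ ▸ Int.lt_floor_add_one _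
  have hw3 : wd μ s d / 2 ≤ w₁ := by linarith
  have hwpos : 0 < w₁ := by
    have : (0 : ℝ) < w₁ := by linarith
    exact_mod_cast this
  have hGw : R * wd μ s n + 2 ≤ (G - 1) * w₁ := by
    have h1 : (2 * R * 2 ^ (J + 2) + 2) * (wd μ s d / 2) ≤ (G - 1) * w₁ :=
      mul_le_mul (by linarith) hw3 (by linarith) (by
        have : (0 : ℝ) ≤ 2 * R * 2 ^ (J + 2) := by positivity
        linarith)
    have h2 : R * wd μ s n ≤ R * (2 ^ (J + 2) * wd μ s d) := mul_le_mul_of_nonneg_left hwn hR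
    nlinarith
  have hlg : Real.log (K * n + 1) ≤ 2 * C * EE μ s n := by
    have hn1 : 1 ≤ n := by omega
    have h1 := h.lg n hn1
    have hn0 : (0 : ℝ) < n := by exact_mod_cast (show 0 < n by omega)
    have h2 : (K * n + 1 : ℝ) ≤ n * n := by
      have h3 : K * n + 1 ≤ n * n := by
        have h4 : (K + 1) * n ≤ n * n := Nat.mul_le_mul_right n (by omega)
        have h5 : (K + 1) * n = K * n + n := by ring
        omega
      exact_mod_cast h3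
    have h3 : Real.log (K * n + 1) ≤ Real.log (n * n) := Real.log_le_log (by positivity) h2
    rw [Real.log_mul hn0.ne' hn0.ne'] at h3
    linarith
  -- the events
  obtain ⟨E₀, gE₀, pE₀, hE₀⟩ := hup n (by omega) a
  obtain ⟨cb, hcb⟩ : ∃ cb : ℕ × ℕ → Pt, ∀ x, cb x = (a.1 + (x.1 : ℤ) * d, a.2 + ⌊sl μ s * ((x.1 : ℝ) * d)⌋ + ((x.2 : ℤ) - G) * w₁) :=
    ⟨fun x => (a.1 + (x.1 : ℤ) * d, a.2 + ⌊sl μ s * ((x.1 : ℝ) * d)⌋ + ((x.2 : ℤ) - G) * w₁), fun _ => rfl⟩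
  obtain ⟨E₁, hE₁⟩ : ∃ E₁ : Set Env, E₁ = ⋂ x ∈ I, XC μ s (c * EE μ s d / wd μ s d) d 1 (b₁ * EE μ s d) (cb x) := ⟨_, rfl⟩
  obtain ⟨E₂, hE₂⟩ : ∃ E₂ : Set Env, E₂ = ⋂ x ∈ I, XC μ s (-(c * EE μ s d / wd μ s d)) d 1 (b₂ * EE μ s d) (cb x) := ⟨_, rfl⟩
  obtain ⟨E₃, hE₃⟩ : ∃ E₃ : Set Env, E₃ = ⋂ i ∈ Finset.range N₀,
      {η | sh (a.1 + (i : ℤ) * d, a.2 + ⌊sl μ s * ((i : ℝ) * d)⌋) η ∈ Dn μ s (R * wd μ s n + 2) d (Y * EE μ s n)} := ⟨_, rfl⟩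
  have hp1 : 2 ^ J₁ * d ≤ n := le_trans (Nat.mul_le_mul_right d (Nat.pow_le_pow_right (by norm_num) (by omega))) hd1
  have hp2 : 2 ^ J₂ * d ≤ n := le_trans (Nat.mul_le_mul_right d (Nat.pow_le_pow_right (by norm_num) (by omega))) hd1
  obtain ⟨-, hcr'⟩ := hcr n d (by omega) hp1
  obtain ⟨-, hcl'⟩ := hcl n d (by omega) hp2
  have half : ∀ E : Set Env, MeasurableSet E → (law μ).real Eᶜ ≤ 1 / 2 → 1 / 2 ≤ (law μ).real E := by
    intro E mE h1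
    rw [measureReal_compl mE, probReal_univ] at h1
    linarith
  have gE₁ : Gd E₁ := hE₁ ▸ Gd.biInter I fun x _ => XC_gd _ _ _ _ _
  have gE₂ : Gd E₂ := hE₂ ▸ Gd.biInter I fun x _ => XC_gd _ _ _ _ _
  have gE₃ : Gd E₃ := hE₃ ▸ Gd.biInter _ fun i _ => (Dn_gd _ _ _).sh _
  have pE₁ : (1 / 2 : ℝ) ^ I.card ≤ (law μ).real E₁ := by
    rw [hE₁]
    exact harris_fin I (by norm_num) (fun x _ => XC_gd _ _ _ _ _) fun x _ =>
      half _ (XC_gd _ _ _ _ _).m (hcr' (cb x)).1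
  have pE₂ : (1 / 2 : ℝ) ^ I.card ≤ (law μ).real E₂ := by
    rw [hE₂]
    exact harris_fin I (by norm_num) (fun x _ => XC_gd _ _ _ _ _) fun x _ =>
      half _ (XC_gd _ _ _ _ _).m (hcl' (cb x)).1
  have pE₃ : p₃ ^ (Finset.range N₀).card ≤ (law μ).real E₃ := by
    rw [hE₃]
    refine harris_fin _ hp₃.le (fun i _ => (Dn_gd _ _ _).sh _) fun i _ => ?_
    rw [real_sh _ (Dn_gd _ _ _).m]
    exact hbl n d (by omega) hdn hnd
  have hP : (1 / 2) * (p₃ ^ (Finset.range N₀).card * ((1 / 2) ^ I.card * (1 / 2) ^ I.card)) ≤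
      (law μ).real (E₀ ∩ (E₃ ∩ (E₁ ∩ E₂))) := by
    refine le_trans ?_ (harris_two gE₀ (gE₃.inter (gE₁.inter gE₂)))
    refine mul_le_mul pE₀ (le_trans ?_ (harris_two gE₃ (gE₁.inter gE₂))) (by positivity) measureReal_nonneg
    refine mul_le_mul pE₃ (le_trans ?_ (harris_two gE₁ gE₂)) (by positivity) measureReal_nonneg
    exact mul_le_mul pE₁ pE₂ (by positivity) measureReal_nonneg
  refine hP.trans (measureReal_mono (fun η hη => ?_) (measure_ne_top _ _))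
  obtain ⟨q0, q3, q1, q2⟩ := hη
  have F : Fr μ s a n K d N₀ G 0 w₁ R B₀ Y (A + 2 * C) θ η := by
    refine ⟨hE₀ η q0, fun i hi => ?_, fun i hi g hg q j y h1 h2 h3 h4 => ?_⟩
    · rw [hE₃] at q3
      exact Set.mem_iInter₂.1 q3 i hi
    · have hx : ((i, g) : ℕ × ℕ) ∈ I := by rw [hI]; exact Finset.mem_product.2 ⟨hi, hg⟩
      rw [hE₁] at q1
      rw [hE₂] at q2
      have r1 := Set.mem_iInter₂.1 q1 (i, g) hx
      have r2 := Set.mem_iInter₂.1 q2 (i, g) hx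
      have e1 : (cb (i, g)).1 = a.1 + i * d := by rw [hcb]
      have e2 : (cb (i, g)).2 = a.2 + ⌊sl μ s * ((i : ℝ) * d)⌋ + ((g : ℤ) - G) * w₁ := by rw [hcb]
      have h3' : |((q.2 : ℝ) - (cb (i, g)).2) - sl μ s * ((q.1 : ℝ) - (cb (i, g)).1)| ≤ (1 : ℕ) * wd μ s d := by
        rw [e1, e2, Nat.cast_one, one_mul]
        exact h3
      rcases le_total 0 ((y : ℝ) - sl μ s * j) with h5 | h5
      · rw [abs_of_nonneg h5] at h4
        exact (hcr' (cb (i, g))).2 η r1 q j y (by rw [e1]; exact h1) (by rw [e1]; exact h2) h3' h4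
      · rw [abs_of_nonpos h5, neg_sub] at h4
        exact (hcl' (cb (i, g))).2 η r2 q j y (by rw [e1]; exact h1) (by rw [e1]; exact h2) h3' h4
  have hwnp : 0 < wd μ s n := h.wd_pos (by omega)
  intro q j hq hj
  have hj' : q.1 + j ≤ a.1 + K * n := by
    push_cast at hj
    exact hj
  have slow : 2 * d ≤ j → cS μ s S η q j ≤ Real.exp (-(A * EE μ s n)) := by
    intro h2
    refine (F.slow h hS hB₀ hlg hC0.le (by omega) hN q j hq hj' h2).trans (Real.exp_le_exp.2 (le_of_eq ?_))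
    rw [hY]
    ring
  refine ⟨F.mass h hS hB₀ hlg hC0.le q j hq hj', fun ht => slow (by omega), fun A' hA' => ?_⟩
  rcases le_total j (2 * d) with h2 | h2
  · refine (F.far h hS (by positivity) hlg (by omega) hN hwpos hw1 hGw q j hq hj' h2 A' hA').trans
      (Real.exp_le_exp.2 (le_of_eq ?_))
    ring
  · refine le_trans ?_ (slow h2)
    have h3 : ∑ y ∈ A', WR μ s S η q j y = ∑ y ∈ A'.filter (fun y : ℤ => 0 ≤ y ∧ y ≤ j), WR μ s S η q j y := by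
      rw [Finset.sum_filter]
      refine Finset.sum_congr rfl fun y _ => ?_
      split_ifs with h4
      · rfl
      · exact WR_off S η q h4
    rw [h3]
    refine Finset.sum_le_sum_of_subset_of_nonneg (fun y hy => ?_) fun y _ _ => WR_nonneg _ _ _ _ _
    rw [Finset.mem_filter] at hy
    exact Finset.mem_Icc.2 hy.2

end

end Pool.Agent.W_7d29a1_C1.Wall66
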