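import Pool.Agent.W_7d29a1_C1.Fun20
import Pool.Agent.W_7d29a1_C1.Fkg31
import Pool.Agent.W_7d29a1_C1.Wall66

/-!
MP_7d29a1_pr, [C1] SLAB LEMMA, part F0: measurability, monotonicity, rows and sites of the events of `Fun20`. (helper20)

* all four events are measurable and decreasing;
* `JUMP20`, `WALL20` are conjunctions of events of the sub blocks (`jump_row20`, `wall_row20`);
* `WALL20` depends on finitely many sites, all of them off the protected strips (`wall_off20`).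
-/

set_option autoImplicit false

namespace Pool.Agent.W_7d29a1_C1

open MeasureTheory ProbabilityTheory Filter Topology
open Pool.Agent.W_7d29a1_F Pool.Agent.W_7d29a1_h4g Pool.Agent.W_7d29a1_H Pool.Agent.W_7d29a1_HS
open Pool.Agent.W_7d29a1_HL (cS measurable_cS cS_dep)
open Pool.Agent.W_7d29a1_HR (Dec Fin' exit_sum_mono cS_mono_env V_mono_env)

noncomputable section

variable {μ : Measure ℝ} {s : ℝ} {ι : Type*}

theorem meas_UP20 (ω : ℝ) (T : ℕ) (U : ℝ) : MeasurableSet {η | UP20 μ s ω T U η} := by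
  have e : {η | UP20 μ s ω T U η} = ⋂ (t : ℕ) (l : ℕ) (x : ℤ) (_ : t + l ≤ T) (_ : |(x : ℝ) - sl μ s * t| ≤ ω),
      {η | V μ s η ((t : ℤ), x) l ≤ U} := by
    ext η
    simp only [Set.mem_iInter]
    exact Iff.rfl
  rw [e]
  exact MeasurableSet.iInter fun t => MeasurableSet.iInter fun l => MeasurableSet.iInter fun x =>
    MeasurableSet.iInter fun _ => MeasurableSet.iInter fun _ => measurableSet_le (measurable_V _ _) measurable_const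

theorem dec_UP20 (ω : ℝ) (T : ℕ) (U : ℝ) : Dec {η | UP20 μ s ω T U η} := fun _ _ h hη t l x h1 h2 =>
  (V_mono_env h _ _).trans (hη t l x h1 h2)

theorem meas_EXIT20 (ω₀ ω : ℝ) (T : ℕ) (Y : ℝ) : MeasurableSet {η | EXIT20 μ s ω₀ ω T Y η} := by
  have e : {η | EXIT20 μ s ω₀ ω T Y η} = ⋂ (x : ℤ) (_ : |(x : ℝ)| ≤ ω₀),
      {η | Real.exp (V μ s η ((0 : ℤ), x) T) - cS μ s (St μ s ω 0) η ((0 : ℤ), x) T ≤ Real.exp (-Y)} := by
    ext η
    simp only [Set.mem_iInter]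
    exact Iff.rfl
  rw [e]
  exact MeasurableSet.iInter fun x => MeasurableSet.iInter fun _ =>
    measurableSet_le ((Real.measurable_exp.comp (measurable_V _ _)).sub (measurable_cS _ _ _)) measurable_const

theorem dec_EXIT20 (ω₀ ω : ℝ) (T : ℕ) (Y : ℝ) : Dec {η | EXIT20 μ s ω₀ ω T Y η} := fun _ _ h hη x h1 =>
  (exit_sum_mono _ h _ _).trans (hη x h1)

/-- One sub block of `JUMP20`. -/
def JR20 (μ : Measure ℝ) (s ω ρ : ℝ) (n : ℕ) (Y : ℝ) (i : ℕ) : Set Env :=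
  {η | ∀ z : ℤ, |(z : ℝ) - sl μ s * (i * n : ℕ)| ≤ ω → Real.exp (V μ s η (((i * n : ℕ) : ℤ), z) n) -
      cS μ s (St μ s ρ (((i * n : ℕ) : ℤ), z)) η (((i * n : ℕ) : ℤ), z) n ≤ Real.exp (-Y)}

theorem jump_row20 (ω ρ : ℝ) (n N : ℕ) (Y : ℝ) :
    {η | JUMP20 μ s ω ρ n N Y η} = ⋂ i ∈ Finset.range N, JR20 μ s ω ρ n Y i := by
  ext η
  simp only [Set.mem_iInter, Finset.mem_range]
  exact ⟨fun h i hi z hz => h i z hi hz, fun h i z hi hz => h i hi z hz⟩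

theorem meas_JR20 (ω ρ : ℝ) (n : ℕ) (Y : ℝ) (i : ℕ) : MeasurableSet (JR20 μ s ω ρ n Y i) := by
  have e : JR20 μ s ω ρ n Y i = ⋂ (z : ℤ) (_ : |(z : ℝ) - sl μ s * (i * n : ℕ)| ≤ ω),
      {η | Real.exp (V μ s η (((i * n : ℕ) : ℤ), z) n) -
        cS μ s (St μ s ρ (((i * n : ℕ) : ℤ), z)) η (((i * n : ℕ) : ℤ), z) n ≤ Real.exp (-Y)} := by
    ext η
    simp only [Set.mem_iInter]
    exact Iff.rfl
  rw [e]
  exact MeasurableSet.iInter fun x => MeasurableSet.iInter fun _ =>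
    measurableSet_le ((Real.measurable_exp.comp (measurable_V _ _)).sub (measurable_cS _ _ _)) measurable_const

theorem dec_JR20 (ω ρ : ℝ) (n : ℕ) (Y : ℝ) (i : ℕ) : Dec (JR20 μ s ω ρ n Y i) := fun _ _ h hη z hz =>
  (exit_sum_mono _ h _ _).trans (hη z hz)

/-- The sub block `i` of `JUMP20` reads its rows only. -/
theorem dep_JR20 [IsProbabilityMeasure μ] (ω ρ : ℝ) (n : ℕ) (Y : ℝ) (i : ℕ) : ∀ η η' : Env,
    (∀ p ∈ rows (i * n : ℕ) ((i * n : ℕ) + n), η p = η' p) → (η ∈ JR20 μ s ω ρ n Y i ↔ η' ∈ JR20 μ s ω ρ n Y i) := by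
  intro η η' hh
  have h1 : ∀ z : ℤ, V μ s η (((i * n : ℕ) : ℤ), z) n = V μ s η' (((i * n : ℕ) : ℤ), z) n := fun z =>
    V_dep (μ := μ) (s := s) _ _ fun p hp => hh p ⟨hp.1, hp.2.1⟩
  have h2 : ∀ z : ℤ, cS μ s (St μ s ρ (((i * n : ℕ) : ℤ), z)) η (((i * n : ℕ) : ℤ), z) n =
      cS μ s (St μ s ρ (((i * n : ℕ) : ℤ), z)) η' (((i * n : ℕ) : ℤ), z) n := fun z =>
    cS_dep _ _ _ fun p hp => hh p ⟨hp.2.1, hp.2.2⟩
  unfold JR20
  rw [Set.mem_ofPred_eq, Set.mem_ofPred_eq]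
  simp only [h1, h2]

theorem meas_JUMP20 (ω ρ : ℝ) (n N : ℕ) (Y : ℝ) : MeasurableSet {η | JUMP20 μ s ω ρ n N Y η} := by
  rw [jump_row20]
  exact Finset.measurableSet_biInter _ fun i _ => meas_JR20 _ _ _ _ _

theorem dec_JUMP20 (ω ρ : ℝ) (n N : ℕ) (Y : ℝ) : Dec {η | JUMP20 μ s ω ρ n N Y η} := fun _ _ h hη i z hi hz =>
  (exit_sum_mono _ h _ _).trans (hη i z hi hz)

/-- One sub block of `WALL20`. -/
def WL20 (μ : Measure ℝ) (s ω ρ α : ℝ) (n : ℕ) (Y : ℝ) (l : ι → ℕ → ℝ) (i : ℕ) : Set Env :=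
  {η | ∀ z : ℤ, |(z : ℝ) - sl μ s * (i * n : ℕ)| ≤ ω → (∀ j, α < |(z : ℝ) - l j i|) →
    cS μ s (St μ s ρ (((i * n : ℕ) : ℤ), z)) η (((i * n : ℕ) : ℤ), z) n ≤ Real.exp (-Y)}

theorem wall_row20 (ω ρ α : ℝ) (n N : ℕ) (Y : ℝ) (l : ι → ℕ → ℝ) :
    {η | WALL20 μ s ω ρ α n N Y l η} = ⋂ i ∈ Finset.range N, WL20 μ s ω ρ α n Y l i := by
  ext η
  simp only [Set.mem_iInter, Finset.mem_range]
  exact ⟨fun h i hi z hz hl => h i z hi hz hl, fun h i z hi hz hl => h i hi z hz hl⟩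

theorem meas_WL20 (ω ρ α : ℝ) (n : ℕ) (Y : ℝ) (l : ι → ℕ → ℝ) (i : ℕ) : MeasurableSet (WL20 μ s ω ρ α n Y l i) := by
  have e : WL20 μ s ω ρ α n Y l i = ⋂ (z : ℤ) (_ : |(z : ℝ) - sl μ s * (i * n : ℕ)| ≤ ω)
      (_ : ∀ j, α < |(z : ℝ) - l j i|),
      {η | cS μ s (St μ s ρ (((i * n : ℕ) : ℤ), z)) η (((i * n : ℕ) : ℤ), z) n ≤ Real.exp (-Y)} := by
    ext η
    simp only [Set.mem_iInter]
    exact Iff.rfl
  rw [e]
  exact MeasurableSet.iInter fun x => MeasurableSet.iInter fun _ => MeasurableSet.iInter fun _ =>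
    measurableSet_le (measurable_cS _ _ _) measurable_const

theorem dec_WL20 (ω ρ α : ℝ) (n : ℕ) (Y : ℝ) (l : ι → ℕ → ℝ) (i : ℕ) : Dec (WL20 μ s ω ρ α n Y l i) :=
  fun _ _ h hη z hz hl => (cS_mono_env _ h _ _).trans (hη z hz hl)

/-- The sub block `i` of `WALL20` reads its rows only. -/
theorem dep_WL20 [IsProbabilityMeasure μ] (ω ρ α : ℝ) (n : ℕ) (Y : ℝ) (l : ι → ℕ → ℝ) (i : ℕ) : ∀ η η' : Env,
    (∀ p ∈ rows (i * n : ℕ) ((i * n : ℕ) + n), η p = η' p) → (η ∈ WL20 μ s ω ρ α n Y l i ↔ η' ∈ WL20 μ s ω ρ α n Y l i) := by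
  intro η η' hh
  have h2 : ∀ z : ℤ, cS μ s (St μ s ρ (((i * n : ℕ) : ℤ), z)) η (((i * n : ℕ) : ℤ), z) n =
      cS μ s (St μ s ρ (((i * n : ℕ) : ℤ), z)) η' (((i * n : ℕ) : ℤ), z) n := fun z =>
    cS_dep _ _ _ fun p hp => hh p ⟨hp.2.1, hp.2.2⟩
  unfold WL20
  rw [Set.mem_ofPred_eq, Set.mem_ofPred_eq]
  simp only [h2]

theorem meas_WALL20 (ω ρ α : ℝ) (n N : ℕ) (Y : ℝ) (l : ι → ℕ → ℝ) : MeasurableSet {η | WALL20 μ s ω ρ α n N Y l η} := by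
  rw [wall_row20]
  exact Finset.measurableSet_biInter _ fun i _ => meas_WL20 _ _ _ _ _ _ _

theorem dec_WALL20 (ω ρ α : ℝ) (n N : ℕ) (Y : ℝ) (l : ι → ℕ → ℝ) : Dec {η | WALL20 μ s ω ρ α n N Y l η} :=
  fun _ _ h hη i z hi hz hl => (cS_mono_env _ h _ _).trans (hη i z hi hz hl)

/-- The sites read by the walls. -/
theorem wall_sites20 [IsProbabilityMeasure μ] (ω ρ α : ℝ) (n N : ℕ) (Y : ℝ) (l : ι → ℕ → ℝ) (S : Set Pt)
    (hS : ∀ (i : ℕ) (z : ℤ), i < N → |(z : ℝ) - sl μ s * (i * n : ℕ)| ≤ ω → (∀ j, α < |(z : ℝ) - l j i|) →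
      ∀ p ∈ St μ s ρ (((i * n : ℕ) : ℤ), z) ∩ rows (i * n : ℕ) ((i * n : ℕ) + n), p ∉ S) :
    Pool.Agent.W_7d29a1_C1.S71.Off S {η | WALL20 μ s ω ρ α n N Y l η} := by
  have key : ∀ η η' : Env, (∀ p, p ∉ S → η p = η' p) → WALL20 μ s ω ρ α n N Y l η → WALL20 μ s ω ρ α n N Y l η' := by
    intro η η' hh h1 i z hi hz hl
    have h2 : cS μ s (St μ s ρ (((i * n : ℕ) : ℤ), z)) η (((i * n : ℕ) : ℤ), z) n =
        cS μ s (St μ s ρ (((i * n : ℕ) : ℤ), z)) η' (((i * n : ℕ) : ℤ), z) n :=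
      cS_dep _ _ _ fun p hp => hh p (hS i z hi hz hl p ⟨hp.1, hp.2.1, hp.2.2⟩)
    rw [← h2]
    exact h1 i z hi hz hl
  intro η η' hh
  exact ⟨key η η' hh, key η' η fun p hp => (hh p hp).symm⟩

/-- The walls depend on finitely many sites. -/
theorem fin_WALL20 [IsProbabilityMeasure μ] (ω ρ α : ℝ) (n N : ℕ) (Y : ℝ) (l : ι → ℕ → ℝ) :
    Fin' {η | WALL20 μ s ω ρ α n N Y l η} := by
  classical
  obtain ⟨B, hB⟩ : ∃ B : ℝ, B = |ω| + |sl μ s| * ((N * n : ℕ) : ℝ) + n := ⟨_, rfl⟩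
  refine ⟨Finset.Icc (0 : ℤ) ((N * n : ℕ) : ℤ) ×ˢ Finset.Icc (-⌈B⌉) ⌈B⌉, fun η η' hh => ?_⟩
  have key : ∀ η η' : Env, (∀ p ∈ Finset.Icc (0 : ℤ) ((N * n : ℕ) : ℤ) ×ˢ Finset.Icc (-⌈B⌉) ⌈B⌉, η p = η' p) →
      WALL20 μ s ω ρ α n N Y l η → WALL20 μ s ω ρ α n N Y l η' := by
    intro η η' hh h1 i z hi hz hl
    have h2 : cS μ s (St μ s ρ (((i * n : ℕ) : ℤ), z)) η (((i * n : ℕ) : ℤ), z) n =
        cS μ s (St μ s ρ (((i * n : ℕ) : ℤ), z)) η' (((i * n : ℕ) : ℤ), z) n := by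
      unfold cS
      refine Finset.sum_congr rfl fun k _ => WR_dep (μ := μ) (s := s) _ _ n k fun p hp => hh p ?_
      obtain ⟨⟨k1, k2, k3, k4, k5, k6⟩, -⟩ := hp
      simp only at k1 k2 k3 k4
      have hin : i * n + n ≤ N * n := by
        have : (i + 1) * n ≤ N * n := Nat.mul_le_mul_right n hi
        linarith
      have hin' : ((i * n : ℕ) : ℤ) + n ≤ ((N * n : ℕ) : ℤ) := by exact_mod_cast hin
      have hinr : ((i * n : ℕ) : ℝ) ≤ ((N * n : ℕ) : ℝ) := by exact_mod_cast (by omega : i * n ≤ N * n)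
      have hz' : |(z : ℝ)| ≤ B - n := by
        have h3 : |sl μ s * ((i * n : ℕ) : ℝ)| ≤ |sl μ s| * ((N * n : ℕ) : ℝ) := by
          rw [abs_mul]
          refine mul_le_mul_of_nonneg_left ?_ (abs_nonneg _)
          rw [abs_of_nonneg (Nat.cast_nonneg _)]
          exact hinr
        have h4 : |(z : ℝ)| ≤ |(z : ℝ) - sl μ s * (i * n : ℕ)| + |sl μ s * ((i * n : ℕ) : ℝ)| := by
          have := abs_add_le ((z : ℝ) - sl μ s * (i * n : ℕ)) (sl μ s * ((i * n : ℕ) : ℝ))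
          rwa [sub_add_cancel] at this
        have h5 : |(z : ℝ) - sl μ s * (i * n : ℕ)| ≤ |ω| := hz.trans (le_abs_self _)
        rw [hB]
        linarith
      rw [abs_le] at hz'
      rw [Finset.mem_product, Finset.mem_Icc, Finset.mem_Icc]
      have hc := Int.le_ceil B
      have hz0 : -⌈B⌉ ≤ z := by
        have h6 : (-(⌈B⌉ : ℤ) : ℝ) ≤ (z : ℝ) := by
          have : (0 : ℝ) ≤ n := Nat.cast_nonneg n
          linarith [hz'.1]
        exact_mod_cast h6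
      have hz1 : z + n ≤ ⌈B⌉ := by
        have h6 : ((z + n : ℤ) : ℝ) ≤ ((⌈B⌉ : ℤ) : ℝ) := by
          push_cast
          linarith [hz'.2]
        exact_mod_cast h6
      have hi0 : (0 : ℤ) ≤ ((i * n : ℕ) : ℤ) := Int.natCast_nonneg _
      refine ⟨⟨?_, ?_⟩, ?_, ?_⟩ <;> omega
    rw [← h2]
    exact h1 i z hi hz hl
  exact ⟨key η η' hh, key η' η fun p hp => (hh p hp).symm⟩

end

end Pool.Agent.W_7d29a1_C1
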