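import Pool.Agent.W_7d29a1_C1.Slab20
import Pool.Agent.W_7d29a1_C1.FunM20
import Pool.Agent.W_7d29a1_C1.JmpN67
import Pool.Agent.W_7d29a1_C1.BoxP58
import Pool.Agent.W_7d29a1_C1.BoxQ58

/-!
MP_7d29a1_pr, [C1], resampled WINDOWS: THE PROBABILITY LINE OF ONE SLAB, with the four hypotheses (H0) - (H3) of `box69`. (helper58)

Order of the constants: `ε` (failure of typicality), `Kb` (half width of the window in units of `wd T`) | `U0` | luck `L`, outer window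
`Kp` | `pL` | `U1` | `ρ₀`, `Y`, `Z` | `N` | `pW` | `n`. With `T = N n`: the outsides which are not typical have probability `≤ ε`, and for
a typical outside the lucky content (all lanes with luck `L EE T`, (H0) with `U0`, (H1) with `U1`, (H2) with `b2 = hc n ρ / 4`, the walls) has
conditional probability `≥ pL pW / 2`.
-/

set_option autoImplicit false

namespace Pool.Agent.W_7d29a1_C1.BP58

open MeasureTheory ProbabilityTheory Filter Topology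
open Pool.Agent.W_7d29a1_F Pool.Agent.W_7d29a1_h4g Pool.Agent.W_7d29a1_H Pool.Agent.W_7d29a1_HS
open Pool.Agent.W_7d29a1_HL (cS measurable_cS cS_dep)
open Pool.Agent.W_7d29a1_HR (Dec Fin')
open Pool.Agent.W_7d29a1_C1
open Pool.Agent.W_7d29a1_C1.S71 (Off)
open Pool.Agent.W_7d29a1_C1.F31 (DecO FinO)
open Pool.Agent.W_7d29a1_C1.H75

noncomputable section

variable {μ : Measure ℝ} {s c C : ℝ} {n₀ : ℕ} {ι : Type}

/-! ### The pieces -/

/-- The strips of the lanes. -/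
def S58 (μ : Measure ℝ) (s : ℝ) (a e : ι → ℤ) (T : ℕ) (δ : ℝ) : Set Pt := PS20 (sl20 a e T) (δ / 32 * wd μ s T)

/-- (H0). -/
def H058 (μ : Measure ℝ) (s c : ℝ) (a e : ι → ℤ) (T : ℕ) (δ Kb U : ℝ) : Set Env :=
  PW69 μ s (S58 μ s a e T δ)ᶜ (hc μ s c T) T T (Kb * wd μ s T + 1) (U * EE μ s T)

/-- (H1) and (H2). -/
def H158 (μ : Measure ℝ) (s c : ℝ) (N n : ℕ) (Kp U ρ : ℝ) : Set Env :=
  PW69 μ s Set.univ (hc μ s c (N * n)) (N * n) (N * n) (Kp * wd μ s (N * n)) (U * EE μ s (N * n)) ∩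
    PW69 μ s Set.univ (hc μ s c n) (N * n) (2 * n) (Kp * wd μ s (N * n)) (hc μ s c n * ρ / 4)

/-- All lanes are lucky. -/
def LN58 (μ : Measure ℝ) (s : ℝ) (a e : ι → ℤ) (T : ℕ) (δ L : ℝ) : Set Env :=
  ⋂ j, LN20 μ s a e T (δ / 32 * wd μ s T) (L * EE μ s T) j

/-- (H3): the walls. -/
def WL58 (μ : Measure ℝ) (s : ℝ) (a e : ι → ℤ) (N n : ℕ) (δ Kb ρ Y : ℝ) : Set Env :=
  {η | WALL20 μ s (Kb * wd μ s (N * n) - ρ) ρ (δ / 32 * wd μ s (N * n) + 2 * ρ) n N (Y * EE μ s (N * n)) (la20 (sl20 a e (N * n)) n) η}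

/-- The window. -/
def B58 (μ : Measure ℝ) (s : ℝ) (T : ℕ) (Kb : ℝ) : Set Pt := Bx69 μ s (Kb * wd μ s T) T

/-- A straight lane stays in the window of its end points. -/
theorem near_sl20 {a e : ι → ℤ} {T : ℕ} (hT : 1 ≤ T) {v K : ℝ} (ha : ∀ j, |(a j : ℝ)| ≤ K) (he : ∀ j, |(e j : ℝ) - v * T| ≤ K) (j : ι)
    {t : ℝ} (h0 : 0 ≤ t) (h1 : t ≤ T) : |sl20 a e T j t - v * t| ≤ K := by
  have hT' : (0 : ℝ) < T := by exact_mod_cast hT
  obtain ⟨θ, hθ⟩ : ∃ θ : ℝ, θ = t / T := ⟨_, rfl⟩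
  have hθ0 : 0 ≤ θ := by rw [hθ]; exact div_nonneg h0 hT'.le
  have hθ1 : θ ≤ 1 := by rw [hθ, div_le_one hT']; exact h1
  have ht : t = θ * T := by rw [hθ]; field_simp
  have e1 : sl20 a e T j t - v * t = (1 - θ) * (a j : ℝ) + θ * ((e j : ℝ) - v * T) := by
    unfold sl20
    rw [← hθ]
    have : v * t = v * (θ * T) := by rw [← ht]
    rw [this]
    ring
  rw [e1]
  have h3 := abs_le.1 (ha j)
  have h4 := abs_le.1 (he j)
  rw [abs_le]
  constructor <;> nlinarith [h3.1, h3.2, h4.1, h4.2]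

theorem meas_LN58 [Countable ι] (a e : ι → ℤ) (T : ℕ) (δ L : ℝ) : MeasurableSet (LN58 μ s a e T δ L) :=
  MeasurableSet.iInter fun j => meas_LN20 (μ := μ) (s := s) a e T _ _ j

theorem off_LN58_S (a e : ι → ℤ) (T : ℕ) (δ L : ℝ) : Off (S58 μ s a e T δ)ᶜ (LN58 μ s a e T δ L) := fun η η' hh => by
  unfold LN58
  simp only [Set.mem_iInter]
  exact forall_congr' fun j => dep_LN20 (μ := μ) (s := s) a e T _ _ j η η' fun q hq =>
    hh q (Set.notMem_compl_iff.2 (Tb_sub20 j hq))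

theorem off_LN58_B {a e : ι → ℤ} {T : ℕ} (hT : 1 ≤ T) {δ L Kb K : ℝ} (ha : ∀ j, |(a j : ℝ)| ≤ K * wd μ s T)
    (he : ∀ j, |(e j : ℝ) - sl μ s * T| ≤ K * wd μ s T) (hK : K * wd μ s T + δ / 32 * wd μ s T ≤ Kb * wd μ s T) :
    Off (B58 μ s T Kb)ᶜ (LN58 μ s a e T δ L) := fun η η' hh => by
  unfold LN58
  simp only [Set.mem_iInter]
  refine forall_congr' fun j => dep_LN20 (μ := μ) (s := s) a e T _ _ j η η' fun q hq => hh q (Set.notMem_compl_iff.2 ?_)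
  obtain ⟨h1, h2, h3⟩ := hq
  have h1' : (0 : ℤ) < q.1 := h1
  have h2' : q.1 ≤ (T : ℤ) := by
    have : q.1 ≤ (0 : ℤ) + T := h2
    rwa [zero_add] at this
  refine ⟨h1', h2', ?_⟩
  have t0 : (0 : ℝ) ≤ (q.1 : ℝ) := by exact_mod_cast h1'.le
  have t1 : (q.1 : ℝ) ≤ T := by exact_mod_cast h2'
  have k1 := near_sl20 hT ha he j t0 t1
  have k2 : |(q.2 : ℝ) - sl20 a e T j q.1| ≤ δ / 32 * wd μ s T := by
    have e1 : (q.2 : ℝ) - sl20 a e T j q.1 =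
        ((q.2 - a j : ℤ) : ℝ) - ((e j - a j : ℤ) : ℝ) / (T : ℝ) * ((q.1 - 0 : ℤ) : ℝ) := by
      unfold sl20
      push_cast
      ring
    rw [e1]
    exact h3
  have k3 := abs_sub_abs_le_abs_sub (q.2 : ℝ) (sl20 a e T j q.1)
  rw [abs_le] at k1 k2 ⊢
  constructor <;> linarith [k1.1, k1.2, k2.1, k2.2]

theorem off_WL58_B [IsProbabilityMeasure μ] (a e : ι → ℤ) (N n : ℕ) (δ Kb ρ Y : ℝ) :
    Off (B58 μ s (N * n) Kb)ᶜ (WL58 μ s a e N n δ Kb ρ Y) := by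
  refine wall_sites20 (μ := μ) (s := s) _ _ _ n N _ _ _ fun i z hi hz _ p hp => Set.notMem_compl_iff.2 ?_
  obtain ⟨h1, h2, h3⟩ := hp
  have h2' : ((i * n : ℕ) : ℤ) < p.1 := h2
  have h3' : p.1 ≤ ((i * n : ℕ) : ℤ) + n := h3
  have h4 : ((i * n : ℕ) : ℤ) + n ≤ ((N * n : ℕ) : ℤ) := by
    have : i * n + n ≤ N * n := by
      have := Nat.mul_le_mul_right n (show i + 1 ≤ N from hi)
      linarith
    exact_mod_cast this
  refine ⟨lt_of_le_of_lt (Int.natCast_nonneg _) h2', h3'.trans h4, ?_⟩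
  have h5 : |((p.2 - z : ℤ) : ℝ) - sl μ s * ((p.1 - ((i * n : ℕ) : ℤ) : ℤ) : ℝ)| ≤ ρ := h1
  have e1 : (p.2 : ℝ) - sl μ s * p.1 = (((p.2 - z : ℤ) : ℝ) - sl μ s * ((p.1 - ((i * n : ℕ) : ℤ) : ℤ) : ℝ)) +
      ((z : ℝ) - sl μ s * (i * n : ℕ)) := by
    push_cast
    ring
  rw [e1]
  rw [abs_le] at h5 hz ⊢
  constructor <;> linarith [h5.1, h5.2, hz.1, hz.2]

theorem off_WL58_S [IsProbabilityMeasure μ] {a e : ι → ℤ} {N n : ℕ} (hn : 1 ≤ n) (hN : 1 ≤ N) {δ Kb ρ Y K : ℝ}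
    (ha : ∀ j, |(a j : ℝ)| ≤ K) (he : ∀ j, |(e j : ℝ) - sl μ s * (N * n : ℕ)| ≤ K) (hK : 0 ≤ K) (hρ : 2 * K ≤ N * ρ) :
    Off (S58 μ s a e (N * n) δ) (WL58 μ s a e N n δ Kb ρ Y) := by
  have hT : 1 ≤ N * n := Nat.one_le_iff_ne_zero.2 (Nat.mul_ne_zero (by omega) (by omega))
  have hdr := drift_sl20 (v := sl μ s) hT ha he
  exact wall_sites20 (μ := μ) (s := s) _ _ _ n N _ _ _ fun i z hi hz hl =>
    away20 (μ := μ) (s := s) hn hN (show 0 ≤ 2 * K by linarith) hdr hρ i z hi hz hl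

/-! ### Numbers -/

theorem small_exp58 {A C ε : ℝ} (hA : 0 ≤ A) (hC : 0 < C) (hε : 0 < ε) : ∃ U : ℝ, 0 < U ∧ A * Real.exp (-(U / C)) ≤ ε := by
  refine ⟨C * (A / ε + 1), by positivity, ?_⟩
  have e1 : C * (A / ε + 1) / C = A / ε + 1 := by field_simp
  rw [e1, Real.exp_neg, ← div_eq_mul_inv, div_le_iff₀ (Real.exp_pos _)]
  have h1 := Real.add_one_le_exp (A / ε + 1)
  have h2 : A = ε * (A / ε) := by field_simp
  have h3 : ε * (A / ε) ≤ ε * Real.exp (A / ε + 1) := mul_le_mul_of_nonneg_left (by linarith) hε.le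
  linarith

/-- (H0), (H1): probability. -/
theorem h0_num58 [IsProbabilityMeasure μ] (h : In μ s c C n₀) {D ε : ℝ} (hD : 0 ≤ D) (hε : 0 < ε) : ∃ U : ℝ, 0 < U ∧ ∃ n₁ : ℕ,
    ∀ T : ℕ, n₁ ≤ T → ∀ (R : Set Pt) (D' : ℝ), 0 ≤ D' → D' ≤ D * wd μ s T + 1 →
      (law μ).real (PW69 μ s R (hc μ s c T) T T D' (U * EE μ s T))ᶜ ≤ ε := by
  have hC1 := h.C1
  have hC0 : 0 < C := by linarith
  obtain ⟨U, hU, hUe⟩ := small_exp58 (A := 3 * (2 * D + 4) * C) (C := C) (by positivity) hC0 hε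
  obtain ⟨n₂, hn₂⟩ := eventually_atTop.1 ((wd_tendsto h).eventually_ge_atTop 1)
  refine ⟨U, hU, max (max n₀ 1) n₂, fun T hT R D' hD0 hD' => ?_⟩
  have hT0 : n₀ ≤ T := (le_max_left _ _).trans ((le_max_left _ _).trans hT)
  have hT1 : 1 ≤ T := (le_max_right _ _).trans ((le_max_left _ _).trans hT)
  have hw := hn₂ T ((le_max_right _ _).trans hT)
  have hw0 : 0 < wd μ s T := by linarith
  have hE := EE_pos (μ := μ) (s := s) T
  have h1 := pw69_prob (μ := μ) (s := s) (R := R) (m := T) (T := T) h hT0 hT1 (by omega) hD0 (U * EE μ s T)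
  have e1 : U * EE μ s T / (C * EE μ s T) = U / C := by field_simp
  rw [e1] at h1
  refine h1.trans (le_trans ?_ hUe)
  have h2 : 2 * D' / wd μ s T + 2 ≤ 2 * D + 4 := by
    have : 2 * D' / wd μ s T ≤ 2 * D + 2 := by
      rw [div_le_iff₀ hw0]
      nlinarith
    linarith
  have h3 : 0 ≤ C * Real.exp (-(U / C)) := by positivity
  have h4 := mul_le_mul_of_nonneg_right h2 h3
  linarith

/-- (H2): probability and number. -/
theorem h2_num58 [IsProbabilityMeasure μ] (h : In μ s c C n₀) {K ρ₀ e : ℝ} (hK : 0 ≤ K) (hρ : 0 < ρ₀) (he : 0 < e) (Z : ℝ) :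
    ∃ N₀ n₁ : ℕ, 1 ≤ N₀ ∧ ∀ N n : ℕ, N₀ ≤ N → n₁ ≤ n →
      Z * EE μ s (N * n) ≤ hc μ s c n * (ρ₀ * wd μ s (N * n)) / 4 ∧ ∀ R : Set Pt,
        (law μ).real (PW69 μ s R (hc μ s c n) (N * n) (2 * n) (K * wd μ s (N * n)) (hc μ s c n * (ρ₀ * wd μ s (N * n)) / 4))ᶜ ≤ e := by
  have hC1 := h.C1
  have hC0 : 0 < C := by linarith
  have hc0 := h.c0
  obtain ⟨q, hq⟩ : ∃ q : ℝ, q = c * ρ₀ / (4 * C) := ⟨_, rfl⟩
  have hq0 : 0 < q := by rw [hq]; positivity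
  obtain ⟨N₁, n₂, hN₁, hn₂, hnum⟩ := jump_num h Z (del := c * ρ₀ / 4) (by positivity)
  obtain ⟨N₂, n₃, hN₂, hn₃, hpr⟩ := jump_prob h (3 * C * (2 * K * (2 / q) + 2)) 1 (half_pos hq0) he
  obtain ⟨n₄, hn₄⟩ := eventually_atTop.1 ((wd_tendsto h).eventually_ge_atTop 1)
  refine ⟨max N₁ N₂, max (max n₀ 1) (max n₄ (max n₂ n₃)), hN₁.trans (le_max_left _ _), fun N n hN hn => ?_⟩
  have hNN1 : N₁ ≤ N := (le_max_left _ _).trans hN
  have hNN2 : N₂ ≤ N := (le_max_right _ _).trans hN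
  have hN1 : 1 ≤ N := hN₁.trans hNN1
  have hnn0 : n₀ ≤ n := (le_max_left _ _).trans ((le_max_left _ _).trans hn)
  have hn1 : 1 ≤ n := (le_max_right _ _).trans ((le_max_left _ _).trans hn)
  have hnn4 : n₄ ≤ n := (le_max_left _ _).trans ((le_max_right _ _).trans hn)
  have hnn2 : n₂ ≤ n := (le_max_left _ _).trans ((le_max_right _ _).trans ((le_max_right _ _).trans hn))
  have hnn3 : n₃ ≤ n := (le_max_right _ _).trans ((le_max_right _ _).trans ((le_max_right _ _).trans hn))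
  have hTn : n ≤ N * n := Nat.le_mul_of_pos_left n hN1
  have hwn := hn₄ n hnn4
  have hwT := hn₄ (N * n) (hnn4.trans hTn)
  obtain ⟨w, hw⟩ : ∃ w : ℝ, w = wd μ s n := ⟨_, rfl⟩
  obtain ⟨w', hw'⟩ : ∃ w' : ℝ, w' = wd μ s (N * n) := ⟨_, rfl⟩
  obtain ⟨E, hE⟩ : ∃ E : ℝ, E = EE μ s n := ⟨_, rfl⟩
  have hE1 : 1 ≤ E := by rw [hE]; exact one_le_EE n
  have h1 := hnum N n hNN1 hnn2
  have h2 := hpr N n hNN2 hnn3
  rw [← hw, ← hw', ← hE] at h1
  rw [← hw, ← hw'] at h2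
  rw [← hw] at hwn
  rw [← hw'] at hwT
  have hw0 : 0 < w := by linarith
  have hw'0 : 0 < w' := by linarith
  obtain ⟨X, hX⟩ : ∃ X : ℝ, X = w' / w := ⟨_, rfl⟩
  rw [← hX] at h1 h2
  have hX0 : 0 < X := by rw [hX]; positivity
  have eb : hc μ s c n * (ρ₀ * w') / 4 = c * ρ₀ / 4 * X * E := by
    unfold hc
    rw [← hw, ← hE, hX]
    field_simp
  rw [← hw', eb]
  refine ⟨h1, fun R => ?_⟩
  have h3 := pw69_prob_blocks (μ := μ) (s := s) (R := R) (D := K * w') h hnn0 hn1 hN1 (by positivity) (c * ρ₀ / 4 * X * E)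
  rw [← hE, ← hw] at h3
  have e1 : c * ρ₀ / 4 * X * E / (C * E) = q * X := by
    rw [hq]
    field_simp
  rw [e1] at h3
  refine h3.trans (le_trans ?_ h2)
  rw [Real.rpow_one]
  have e2 : 2 * (K * w') / w + 2 = 2 * K * X + 2 := by
    rw [hX]
    field_simp
  rw [e2]
  have e5 : Real.exp (-(q * X)) = Real.exp (-(q / 2 * X)) * Real.exp (-(q / 2 * X)) := by
    rw [← Real.exp_add]
    congr 1
    ring
  have e6 : X * Real.exp (-(q / 2 * X)) ≤ 2 / q := by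
    have e7 := Real.add_one_le_exp (q / 2 * X)
    rw [Real.exp_neg, ← div_eq_mul_inv, div_le_div_iff₀ (Real.exp_pos _) hq0]
    nlinarith
  have e8 : Real.exp (-(q / 2 * X)) ≤ 1 := by
    rw [Real.exp_le_one_iff]
    have : 0 ≤ q / 2 * X := by positivity
    linarith
  have e9 : (2 * K * X + 2) * Real.exp (-(q / 2 * X)) ≤ 2 * K * (2 / q) + 2 := by
    have : 0 ≤ 2 * K := by positivity
    nlinarith [mul_le_mul_of_nonneg_left e6 this]
  have f1 : (2 * K * X + 2) * (C * Real.exp (-(q * X))) ≤ C * (2 * K * (2 / q) + 2) * Real.exp (-(q / 2 * X)) := by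
    rw [e5]
    have f3 : 0 ≤ C * Real.exp (-(q / 2 * X)) := by positivity
    have f4 := mul_le_mul_of_nonneg_right e9 f3
    linarith
  have f2 := mul_le_mul_of_nonneg_left f1 (show (0 : ℝ) ≤ N * 3 by positivity)
  linarith

/-- **THE PROBABILITY LINE OF ONE SLAB.** -/
theorem boxS58 [IsProbabilityMeasure μ] (h : In μ s c C n₀) (hTube : TubeG20 μ s) {K δ ε Kb : ℝ} (hK : 0 ≤ K) (hδ : 0 < δ)
    (hε : 0 < ε) (hKb : K + δ / 32 ≤ Kb) (m : ℕ) :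
    ∃ U0 : ℝ, 0 < U0 ∧ ∀ L Kp : ℝ, 0 ≤ Kp → ∃ pL : ℝ, 0 < pL ∧ ∃ U1 : ℝ, 0 < U1 ∧ ∀ ρ₀ Y Z : ℝ, 0 < ρ₀ → ρ₀ ≤ Kb →
      ∃ N₀ : ℕ, 1 ≤ N₀ ∧ ∀ N : ℕ, N₀ ≤ N → ∃ pW : ℝ, 0 < pW ∧ ∃ n₁ : ℕ, 1 ≤ n₁ ∧ ∀ n : ℕ, n₁ ≤ n →
        Z * EE μ s (N * n) ≤ hc μ s c n * (ρ₀ * wd μ s (N * n)) / 4 ∧
        ∀ (ι : Type) [Fintype ι], Fintype.card ι ≤ m → ∀ a e : ι → ℤ, (∀ j, |(a j : ℝ)| ≤ K * wd μ s (N * n)) →
          (∀ j, |(e j : ℝ) - sl μ s * (N * n : ℕ)| ≤ K * wd μ s (N * n)) →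
          (∀ j j', j ≠ j' → ((a j : ℝ) + δ * wd μ s (N * n) ≤ a j' ∧ (e j : ℝ) + δ * wd μ s (N * n) ≤ e j') ∨
            ((a j' : ℝ) + δ * wd μ s (N * n) ≤ a j ∧ (e j' : ℝ) + δ * wd μ s (N * n) ≤ e j)) →
          (law μ).real (Typ58 μ (B58 μ s (N * n) Kb) (H058 μ s c a e (N * n) δ Kb U0)
            (H158 μ s c N n Kp U1 (ρ₀ * wd μ s (N * n))) pL)ᶜ ≤ ε ∧
          ∀ ω ∈ Typ58 μ (B58 μ s (N * n) Kb) (H058 μ s c a e (N * n) δ Kb U0) (H158 μ s c N n Kp U1 (ρ₀ * wd μ s (N * n))) pL,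
            pL / 2 * pW ≤ cP μ (B58 μ s (N * n) Kb) (LN58 μ s a e (N * n) δ L ∩ H058 μ s c a e (N * n) δ Kb U0 ∩
              H158 μ s c N n Kp U1 (ρ₀ * wd μ s (N * n)) ∩ WL58 μ s a e N n δ Kb (ρ₀ * wd μ s (N * n)) Y) ω := by
  have hKb0 : 0 ≤ Kb := by linarith
  obtain ⟨U0, hU0, nA, hA⟩ := h0_num58 (μ := μ) (s := s) h (D := Kb) hKb0 (show 0 < ε / 8 by positivity)
  refine ⟨U0, hU0, fun L Kp hKp => ?_⟩
  obtain ⟨p₀, hp₀, nT, hlane⟩ := hTube (δ / 32) (by positivity) (2 * K) L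
  obtain ⟨pL, hpL⟩ : ∃ pL : ℝ, pL = min p₀ 1 ^ m := ⟨_, rfl⟩
  have hpL0 : 0 < pL := by rw [hpL]; positivity
  obtain ⟨U1, hU1, nB, hB⟩ := h0_num58 (μ := μ) (s := s) h (D := Kp) hKp (show 0 < ε * pL / 16 by positivity)
  refine ⟨pL, hpL0, U1, hU1, fun ρ₀ Y Z hρ hρb => ?_⟩
  obtain ⟨N₁, nC, hN₁, hC2⟩ := h2_num58 (μ := μ) (s := s) h hKp hρ (show 0 < ε * pL / 16 by positivity) Z
  refine ⟨max N₁ ⌈2 * K / ρ₀⌉₊, hN₁.trans (le_max_left _ _), fun N hN => ?_⟩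
  have hN1 : 1 ≤ N := hN₁.trans ((le_max_left _ _).trans hN)
  obtain ⟨pW, hpW, nD, hW⟩ := wallP20 (μ := μ) (s := s) h (K₃ := Kb - ρ₀) (by linarith) hρ.le hN1 Y
  obtain ⟨nE, hnE⟩ := eventually_atTop.1 ((wd_tendsto h).eventually_ge_atTop 1)
  refine ⟨pW, hpW, max 1 (max (max nA nB) (max (max nC nD) (max nE nT))), le_max_left _ _, fun n hn => ?_⟩
  have hn1 : 1 ≤ n := (le_max_left _ _).trans hn
  have hn' := (le_max_right _ _).trans hn
  have hnA : nA ≤ n := (le_max_left _ _).trans ((le_max_left _ _).trans hn')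
  have hnB : nB ≤ n := (le_max_right _ _).trans ((le_max_left _ _).trans hn')
  have hn'' := (le_max_right _ _).trans hn'
  have hnC : nC ≤ n := (le_max_left _ _).trans ((le_max_left _ _).trans hn'')
  have hnD : nD ≤ n := (le_max_right _ _).trans ((le_max_left _ _).trans hn'')
  have hnE' : nE ≤ n := (le_max_left _ _).trans ((le_max_right _ _).trans hn'')
  have hnT : nT ≤ n := (le_max_right _ _).trans ((le_max_right _ _).trans hn'')
  have hTn : n ≤ N * n := Nat.le_mul_of_pos_left n hN1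
  have hT1 : 1 ≤ N * n := hn1.trans hTn
  have hw1 := hnE (N * n) (hnE'.trans hTn)
  have hw0 : 0 < wd μ s (N * n) := by linarith
  obtain ⟨hZ, hC3⟩ := hC2 N n ((le_max_left _ _).trans hN) hnC
  refine ⟨hZ, fun ι _ hcard a e ha he hsep => ?_⟩
  have hδw : 0 < δ * wd μ s (N * n) := by positivity
  -- the events are measurable
  have mL : MeasurableSet (LN58 μ s a e (N * n) δ L) := meas_LN58 a e _ _ _
  have m0 : MeasurableSet (H058 μ s c a e (N * n) δ Kb U0) := meas_PW69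
  have m1 : MeasurableSet (H158 μ s c N n Kp U1 (ρ₀ * wd μ s (N * n))) := meas_PW69.inter meas_PW69
  have mW : MeasurableSet (WL58 μ s a e N n δ Kb (ρ₀ * wd μ s (N * n)) Y) := meas_WALL20 _ _ _ _ _ _ _
  constructor
  · -- typical
    have t1 := typ58 (μ := μ) (B := B58 μ s (N * n) Kb) m0 m1 hpL0
    have t2 : (law μ).real (H058 μ s c a e (N * n) δ Kb U0)ᶜ ≤ ε / 8 :=
      hA (N * n) (hnA.trans hTn) _ (Kb * wd μ s (N * n) + 1) (by positivity) le_rfl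
    have t3 : (law μ).real (H158 μ s c N n Kp U1 (ρ₀ * wd μ s (N * n)))ᶜ ≤ ε * pL / 8 := by
      have u1 := hB (N * n) (hnB.trans hTn) Set.univ (Kp * wd μ s (N * n)) (by positivity) (by linarith)
      have u2 := hC3 Set.univ
      have u3 : (H158 μ s c N n Kp U1 (ρ₀ * wd μ s (N * n)))ᶜ =
          (PW69 μ s Set.univ (hc μ s c (N * n)) (N * n) (N * n) (Kp * wd μ s (N * n)) (U1 * EE μ s (N * n)))ᶜ ∪
          (PW69 μ s Set.univ (hc μ s c n) (N * n) (2 * n) (Kp * wd μ s (N * n)) (hc μ s c n * (ρ₀ * wd μ s (N * n)) / 4))ᶜ := by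
        unfold H158
        rw [Set.compl_inter]
      rw [u3]
      refine (measureReal_union_le _ _).trans ?_
      linarith
    have t4 : 4 / pL * (law μ).real (H158 μ s c N n Kp U1 (ρ₀ * wd μ s (N * n)))ᶜ ≤ 4 / pL * (ε * pL / 8) :=
      mul_le_mul_of_nonneg_left t3 (by positivity)
    have t5 : 4 / pL * (ε * pL / 8) = ε / 2 := by field_simp; ring
    linarith
  · intro ω hω
    have hP : ∀ j, min p₀ 1 ≤ (law μ).real (LN20 μ s a e (N * n) (δ / 32 * wd μ s (N * n)) (L * EE μ s (N * n)) j) := by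
      intro j
      refine (min_le_left _ _).trans (hlane (N * n) (hnT.trans hTn) ((0 : ℤ), a j) (e j - a j) ?_)
      have h3 := abs_le.1 (ha j)
      have h4 := abs_le.1 (he j)
      rw [abs_le]
      push_cast at h4 ⊢
      constructor <;> linarith [h3.1, h3.2, h4.1, h4.2]
    have hp1 : pL ≤ (law μ).real (LN58 μ s a e (N * n) δ L) := by
      have u1 := lanes_prob20 (μ := μ) (s := s) hT1 (le_min hp₀.le zero_le_one) (d := δ * wd μ s (N * n)) (by linarith) hsep hP Finset.univ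
      have u2 : (⋂ j ∈ (Finset.univ : Finset ι), LN20 μ s a e (N * n) (δ / 32 * wd μ s (N * n)) (L * EE μ s (N * n)) j) =
          LN58 μ s a e (N * n) δ L := by
        unfold LN58
        simp
      rw [u2] at u1
      refine le_trans ?_ u1
      rw [hpL]
      exact pow_le_pow_of_le_one (le_min hp₀.le zero_le_one) (min_le_right _ _) (by rw [Finset.card_univ]; exact hcard)
    have hpW' : pW ≤ (law μ).real (WL58 μ s a e N n δ Kb (ρ₀ * wd μ s (N * n)) Y) := by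
      have u1 := hW n hnD ι (δ / 32 * wd μ s (N * n) + 2 * (ρ₀ * wd μ s (N * n))) (la20 (sl20 a e (N * n)) n)
      rw [sub_mul] at u1
      exact u1
    have u3 := lucky58 (μ := μ) (B := B58 μ s (N * n) Kb) (S := S58 μ s a e (N * n) δ) mL m0 m1 mW
      (off_LN58_S a e _ _ _)
      (off_LN58_B hT1 ha he (by nlinarith))
      (off_PW69 (Set.disjoint_compl_left_iff_subset.2 subset_rfl)) dec_PW69
      (DecO.of_dec (Dec.inter dec_PW69 dec_PW69) _)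
      (off_WL58_B a e N n δ Kb _ Y)
      (off_WL58_S hn1 hN1 ha he (by positivity) (by
        have v1 : 2 * K / ρ₀ ≤ N := (Nat.le_ceil _).trans (by exact_mod_cast (le_max_right _ _).trans hN)
        rw [div_le_iff₀ hρ] at v1
        nlinarith))
      (fin_WALL20 _ _ _ _ _ _ _) (dec_WALL20 _ _ _ _ _ _ _) hp1 hω
    refine le_trans ?_ u3
    exact mul_le_mul_of_nonneg_left hpW' (by positivity)

end

end Pool.Agent.W_7d29a1_C1.BP58
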