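import Pool.Agent.W_7d29a1_C1.BoxE69
import Pool.Agent.W_7d29a1_C1.BoxS58

/-!
MP_7d29a1_pr, [C1], resampled WINDOWS: THE NUMBERS OF THE WINDOW LEMMA, with the events of helper58's `boxS58`. (helper69)

Order of the constants: `U0` (level of the kernels which avoid the lanes), `q` (tame) | outer window `Kp` | luck `L` | `pL`, `U1` | `Y`, `N`
| `n`. Units: `wd T`, `EE T`, `T = N n`; window of half width `Kb wd T`.
* `boxM69` : deterministic: the content is in (H0), (H1), (H2), walls, the old masses are tame of the level `q + (c / 2) Kp`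
  on the outer window (seen from the starts of the row `0` and of the rim) ==> `M' ≤ R₀ M` off the window and
  `M' ≤ (mouth → exit cell) + R₀ M` at the row `0`, `R₀ = 4 exp ((U0 + q + (c / 2) Kp) EE T)`;
The probability line is helper58's `boxS58`.
-/

set_option autoImplicit false

namespace Pool.Agent.W_7d29a1_C1

open MeasureTheory ProbabilityTheory Filter Topology
open Pool.Agent.W_7d29a1_F Pool.Agent.W_7d29a1_h4g Pool.Agent.W_7d29a1_H Pool.Agent.W_7d29a1_HS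
open Pool.Agent.W_7d29a1_HL (cS)
open Pool.Agent.W_7d29a1_C1.H75
open Pool.Agent.W_7d29a1_C1.BP58

noncomputable section

variable {μ : Measure ℝ} {s c C : ℝ} {n₀ : ℕ} {ι : Type}

theorem lg69 [IsProbabilityMeasure μ] (h : In μ s c C n₀) {T : ℕ} (hT : 1 ≤ T) : (T : ℝ) + 1 ≤ Real.exp ((C + 1) * EE μ s T) := by
  have hE := one_le_EE (μ := μ) (s := s) T
  have hT' : (1 : ℝ) ≤ T := by exact_mod_cast hT
  have h1 := h.lg T hT
  have h2 : Real.log ((T : ℝ) + 1) ≤ 1 + Real.log T := by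
    have h3 : Real.log ((T : ℝ) + 1) ≤ Real.log (2 * T) := Real.log_le_log (by linarith) (by linarith)
    rw [Real.log_mul (by norm_num) (by linarith)] at h3
    have h4 : Real.log 2 ≤ 1 := by
      have := Real.log_le_sub_one_of_pos (show (0 : ℝ) < 2 by norm_num)
      linarith
    linarith
  calc (T : ℝ) + 1 = Real.exp (Real.log ((T : ℝ) + 1)) := (Real.exp_log (by linarith)).symm
    _ ≤ _ := Real.exp_le_exp.2 (by linarith)

theorem exp_neg_two69 : Real.exp (-2) ≤ 1 / 4 := by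
  have h1 : (4 : ℝ) ≤ Real.exp 2 := by
    have h2 : Real.exp 2 = Real.exp 1 * Real.exp 1 := by rw [← Real.exp_add]; norm_num
    have h3 : (2 : ℝ) ≤ Real.exp 1 := by
      have := Real.add_one_le_exp (1 : ℝ)
      linarith
    rw [h2]
    nlinarith
  rw [Real.exp_neg, ← one_div]
  exact one_div_le_one_div_of_le (by norm_num) h1

/-- The mouth of a lane and its exit cell, in sites. -/
def Mo69 (a e : ι → ℤ) (r : ℝ) (x y : ℤ) : Prop := ∃ j, |(x : ℝ) - a j| ≤ r ∧ |(y : ℝ) - e j| ≤ r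

/-- The conclusion of the window lemma. -/
structure Leak69 (μ : Measure ℝ) (s : ℝ) (η η' : Env) (F : ℤ → ℝ) (T : ℕ) (ωB r R₀ : ℝ) (a e : ι → ℤ) : Prop where
  out : ∀ (m t : ℕ) (x : ℤ), t + m = T → ωB < lat69 μ s t x →
    MF69 μ s Set.univ η' ((t : ℤ), x) m F ≤ R₀ * MF69 μ s Set.univ η ((t : ℤ), x) m F
  row : ∀ x : ℤ, MF69 μ s Set.univ η' ((0 : ℤ), x) T F ≤ ∑ y ∈ Finset.Icc (0 : ℤ) (T : ℤ),
    (open Classical in if Mo69 a e r x (x + y) then W μ s η' ((0 : ℤ), x) T y * F (x + y) else 0) +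
      R₀ * MF69 μ s Set.univ η ((0 : ℤ), x) T F

/-- **THE WINDOW LEMMA WITH THE EVENTS AND THE NUMBERS**, deterministic part. Walls up to `Kb wd T`; `ωB` = any half width off which the
environments are equal, `Kb wd T ≤ ωB ≤ Kh wd T`; (H0) for the starts up to `Kh wd T + 1`. -/
theorem boxM69 [IsProbabilityMeasure μ] (h : In μ s c C n₀) {K δ Kb Kh U0 q : ℝ} (hK : 0 ≤ K) (hδ : 0 < δ) (hKb : K + δ ≤ Kb)
    (hKh : Kb ≤ Kh) (hU0 : 0 ≤ U0) (hq : 0 ≤ q) (K₀ : ℝ) :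
    ∃ Kp : ℝ, K₀ ≤ Kp ∧ Kh + 3 ≤ Kp ∧ ∀ U1 : ℝ, 0 ≤ U1 → ∃ Y Z : ℝ, 0 < Y ∧ 0 < Z ∧ ∃ N₀ n₁ : ℕ, 1 ≤ N₀ ∧ 1 ≤ n₁ ∧
      ∀ N n : ℕ, N₀ ≤ N → n₁ ≤ n → Z * EE μ s (N * n) ≤ hc μ s c n * (δ / 32 * wd μ s (N * n)) / 4 →
      ∀ (ι : Type) (a e : ι → ℤ), (∀ j, |(a j : ℝ)| ≤ K * wd μ s (N * n)) →
        (∀ j, |(e j : ℝ) - sl μ s * (N * n : ℕ)| ≤ K * wd μ s (N * n)) →
        (∀ j j', j ≠ j' → ((a j : ℝ) + δ * wd μ s (N * n) ≤ a j' ∧ (e j : ℝ) + δ * wd μ s (N * n) ≤ e j') ∨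
          ((a j' : ℝ) + δ * wd μ s (N * n) ≤ a j ∧ (e j' : ℝ) + δ * wd μ s (N * n) ≤ e j)) →
        ∀ η' : Env, η' ∈ H058 μ s c a e (N * n) δ Kh U0 → η' ∈ H158 μ s c N n Kp U1 (δ / 32 * wd μ s (N * n)) →
          η' ∈ WL58 μ s a e N n δ Kb (δ / 32 * wd μ s (N * n)) Y →
        ∀ ωB : ℝ, Kb * wd μ s (N * n) ≤ ωB → ωB ≤ Kh * wd μ s (N * n) → ∀ (η : Env) (F : ℤ → ℝ), (∀ y, 0 ≤ F y) →
          (∀ (t : ℕ) (x : ℤ), ωB < lat69 μ s t x → η (((t : ℤ), x) : Pt) = η' (((t : ℤ), x) : Pt)) →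
          (∀ (t : ℕ) (x : ℤ), t < N * n → (t = 0 ∨ ωB < lat69 μ s t x) → lat69 μ s t x ≤ ωB + 1 →
            Tame69 μ s η F (N * n) (Kp * wd μ s (N * n)) ((q + c / 2 * Kp) * EE μ s (N * n)) t x) →
          Leak69 μ s η η' F (N * n) ωB (δ / 4 * wd μ s (N * n))
            (4 * Real.exp ((U0 + q + c / 2 * Kp) * EE μ s (N * n))) a e := by
  have hc0 := h.c0
  have hC1 := h.C1
  have hv0 := h.sl_pos.le
  have hv1 := h.sl_lt.le
  obtain ⟨A, hA⟩ : ∃ A : ℝ, A = 2 * (C + 1) + q + U0 + c * (Kh + 2) + 2 := ⟨_, rfl⟩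
  have hKb0 : 0 ≤ Kb := by linarith
  have hKh0 : 0 ≤ Kh := by linarith
  have hA0 : 0 ≤ A := by rw [hA]; positivity
  obtain ⟨Kp, hKp⟩ : ∃ Kp : ℝ, Kp = max K₀ (2 / c * A + (Kh + 3)) := ⟨_, rfl⟩
  have hKp1 : 2 / c * A + (Kh + 3) ≤ Kp := by rw [hKp]; exact le_max_right _ _
  have hKpA : A ≤ c / 2 * Kp := by
    have h1 : 2 / c * A ≤ Kp := by linarith
    have h2 := mul_le_mul_of_nonneg_left h1 (show 0 ≤ c / 2 by positivity)
    have h3 : c / 2 * (2 / c * A) = A := by field_simp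
    linarith
  have hKp3 : Kh + 3 ≤ Kp := by
    have : 0 ≤ 2 / c * A := by positivity
    linarith
  have hKp0 : 0 ≤ Kp := by linarith
  refine ⟨Kp, by rw [hKp]; exact le_max_left _ _, hKp3, fun U1 hU1 => ?_⟩
  obtain ⟨Y, hY⟩ : ∃ Y : ℝ, Y = q + c / 2 * Kp + 4 * U1 + 6 * (C + 1) + 4 := ⟨_, rfl⟩
  have hY0 : 0 < Y := by rw [hY]; positivity
  obtain ⟨n₂, hn₂⟩ := eventually_atTop.1 ((wd_tendsto h).eventually_ge_atTop 1)
  refine ⟨Y, Y + 2 * (C + 1), hY0, by positivity, ⌈2 * K / (δ / 32)⌉₊ + 1, max 1 n₂, by omega, le_max_left _ _, ?_⟩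
  intro N n hN hn hZ ι a e ha he hsep η' h0' h1' hW' ωB hωB hωB' η F hF heq hT
  have hN1 : 1 ≤ N := by omega
  have hn1 : 1 ≤ n := (le_max_left _ _).trans hn
  have hTn : n ≤ N * n := Nat.le_mul_of_pos_left n hN1
  have hNT : N ≤ N * n := Nat.le_mul_of_pos_right N hn1
  have hT1 : 1 ≤ N * n := hn1.trans hTn
  obtain ⟨T, hTd⟩ : ∃ T : ℕ, T = N * n := ⟨_, rfl⟩
  obtain ⟨w, hw⟩ : ∃ w : ℝ, w = wd μ s T := ⟨_, rfl⟩
  obtain ⟨E, hE⟩ : ∃ E : ℝ, E = EE μ s T := ⟨_, rfl⟩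
  have hw1 : 1 ≤ w := by rw [hw, hTd]; exact hn₂ (N * n) (((le_max_right _ _).trans hn).trans hTn)
  have hw0 : 0 < w := by linarith
  have hE1 : 1 ≤ E := by rw [hE]; exact one_le_EE T
  have hP := lg69 h hT1
  rw [← hTd, ← hE] at hP
  obtain ⟨P, hPd⟩ : ∃ P : ℝ, P = (T : ℝ) + 1 := ⟨_, rfl⟩
  rw [← hPd] at hP
  have hTr : (1 : ℝ) ≤ T := by
    rw [hTd]
    exact_mod_cast hT1
  have hP2 : 2 ≤ P := by rw [hPd]; linarith
  -- the radius
  obtain ⟨ρ, hρ⟩ : ∃ ρ : ℝ, ρ = δ / 32 * w := ⟨_, rfl⟩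
  have hρ0 : 0 < ρ := by rw [hρ]; positivity
  have hρNK : 2 * (K * w) ≤ N * ρ := by
    have v1 : 2 * K / (δ / 32) ≤ N := (Nat.le_ceil _).trans (by exact_mod_cast (by omega : ⌈2 * K / (δ / 32)⌉₊ ≤ N))
    rw [div_le_iff₀ (by positivity)] at v1
    have v2 := mul_le_mul_of_nonneg_right v1 hw0.le
    rw [hρ]
    linarith
  -- rewrite
  have hAa : ∀ j, |(a j : ℝ)| ≤ K * w := by rw [hw, hTd]; exact ha
  have hEe : ∀ j, |(e j : ℝ) - sl μ s * (T : ℕ)| ≤ K * w := by rw [hw, hTd]; exact he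
  have hT1' : 1 ≤ T := by rw [hTd]; exact hT1
  have hnear : ∀ (j : ι) (t : ℝ), 0 ≤ t → t ≤ T → |sl20 a e T j t - sl μ s * t| ≤ K * w := fun j t t0 t1 =>
    near_sl20 hT1' hAa hEe j t0 t1
  have hsep' : ∀ j j', j ≠ j' → ((a j : ℝ) + δ * w ≤ a j' ∧ (e j : ℝ) + δ * w ≤ e j') ∨
      ((a j' : ℝ) + δ * w ≤ a j ∧ (e j' : ℝ) + δ * w ≤ e j) := by rw [hw, hTd]; exact hsep
  obtain ⟨l, hl⟩ : ∃ l : ι → ℕ → ℝ, l = la20 (sl20 a e T) n := ⟨_, rfl⟩
  have hin : ∀ i : ℕ, i ≤ N → ((i * n : ℕ) : ℝ) ≤ T := by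
    intro i hi
    rw [hTd]
    exact_mod_cast Nat.mul_le_mul_right n hi
  have hlane : ∀ (j : ι) (i : ℕ), i ≤ N → |l j i - sl μ s * (i * n : ℕ)| ≤ K * w := by
    intro j i hi
    rw [hl]
    exact hnear j _ (by positivity) (hin i hi)
  have hδw : δ * w = 32 * ρ := by rw [hρ]; ring
  have hKbw : K * w + 32 * ρ ≤ Kb * w := by
    have := mul_le_mul_of_nonneg_right hKb hw0.le
    linarith
  have hKpw : Kh * w + 3 * w ≤ Kp * w := by
    have := mul_le_mul_of_nonneg_right hKp3 hw0.le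
    linarith
  have hKhw : Kb * w ≤ Kh * w := mul_le_mul_of_nonneg_right hKh hw0.le
  have hBw : Kb * w ≤ ωB := by rw [hw, hTd]; exact hωB
  have hBw' : ωB ≤ Kh * w := by rw [hw, hTd]; exact hωB'
  have hCE : 0 ≤ (C + 1) * E := by positivity
  -- the walls
  obtain ⟨b4, hb4⟩ : ∃ b4 : ℝ, b4 = hc μ s c n * ρ / 4 := ⟨_, rfl⟩
  have hb4' : (Y + 2 * (C + 1)) * E ≤ b4 := by
    rw [hb4, hρ, hw, hE, hTd]
    exact hZ
  have hcn := hc_nonneg h n
  have hPn : (n : ℝ) * (n + 1) ≤ Real.exp (2 * ((C + 1) * E)) := by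
    have h1 : (n : ℝ) ≤ T := by rw [hTd]; exact_mod_cast hTn
    have h2 : (n : ℝ) * (n + 1) ≤ P * P := by
      rw [hPd]
      have : (0 : ℝ) ≤ n := Nat.cast_nonneg n
      exact mul_le_mul (by linarith) (by linarith) (by linarith) (by linarith)
    have h3 : P * P ≤ Real.exp ((C + 1) * E) * Real.exp ((C + 1) * E) := mul_le_mul hP hP (by linarith) (Real.exp_pos _).le
    have h4 : Real.exp (2 * ((C + 1) * E)) = Real.exp ((C + 1) * E) * Real.exp ((C + 1) * E) := by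
      rw [← Real.exp_add]
      congr 1
      ring
    rw [h4]
    exact h2.trans h3
  have hh1 : η' ∈ PW69 μ s Set.univ (hc μ s c T) (N * n) (N * n) (Kp * w) (U1 * E) := by
    have := h1'.1
    rw [← hTd, ← hw, ← hE] at this
    rwa [← hTd]
  have hh2 : η' ∈ PW69 μ s Set.univ (hc μ s c n) (N * n) (2 * n) (Kp * w) b4 := by
    have := h1'.2
    rw [← hTd, ← hw, ← hρ, ← hb4] at this
    rwa [← hTd]
  have hWL : WALL20 μ s (Kb * w - ρ) ρ (ρ + 2 * ρ) n N (Y * E) l η' := by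
    have h1 : WALL20 μ s (Kb * wd μ s (N * n) - δ / 32 * wd μ s (N * n)) (δ / 32 * wd μ s (N * n))
      (δ / 32 * wd μ s (N * n) + 2 * (δ / 32 * wd μ s (N * n))) n N (Y * EE μ s (N * n)) (la20 (sl20 a e (N * n)) n) η' := hW'
    rw [← hTd, ← hw, ← hE, ← hρ] at h1
    rw [hl]
    exact h1
  have hYE : 0 < Y * E := by positivity
  have hWal : Wal69 μ s η' n N (Kp * w - 1 + 1) (Kb * w - ρ) ρ (ρ + 2 * ρ) (K * w + ρ) (Y * E) (U1 * E) l := by
    rw [sub_add_cancel]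
    refine wal_PW69 hv0 hv1 hcn hn1 hh1 hh2 (by positivity) hρ0.le (by linarith) ?_ ?_ le_rfl ?_ hWL ?_ ?_
    · linarith
    · linarith
    · intro j i hi
      have := hlane j i hi
      linarith
    · have e1 : hc μ s c n * ρ = 4 * b4 := by rw [hb4]; ring
      rw [e1]
      linarith
    · have e1 : hc μ s c n * ρ = 4 * b4 := by rw [hb4]; ring
      rw [e1]
      refine (mul_le_mul_of_nonneg_right hPn (Real.exp_pos _).le).trans ?_
      rw [← Real.exp_add]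
      refine Real.exp_le_exp.2 ?_
      linarith
  -- the strips
  obtain ⟨S, hS⟩ : ∃ S : Set Pt, S = S58 μ s a e T δ ∩ {p | 0 < p.1 ∧ p.1 ≤ T} := ⟨_, rfl⟩
  have hSlat : ∀ (t : ℕ) (x : ℤ), (((t : ℤ), x) : Pt) ∈ S → lat69 μ s t x ≤ K * w + ρ := by
    intro t x hx
    rw [hS] at hx
    obtain ⟨⟨j, hj⟩, h2, h3⟩ := hx
    have h2' : (0 : ℤ) < (t : ℤ) := h2
    have h3' : (t : ℤ) ≤ T := h3
    have hj' : |(x : ℝ) - sl20 a e T j ((t : ℤ) : ℝ)| ≤ δ / 32 * wd μ s T := hj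
    have t0 : (0 : ℝ) ≤ ((t : ℤ) : ℝ) := by exact_mod_cast h2'.le
    have t1 : ((t : ℤ) : ℝ) ≤ T := by exact_mod_cast h3'
    have h4 := hnear j _ t0 t1
    rw [← hw, ← hρ] at hj'
    unfold lat69
    have e1 : (x : ℝ) - sl μ s * t = ((x : ℝ) - sl20 a e T j ((t : ℤ) : ℝ)) + (sl20 a e T j ((t : ℤ) : ℝ) - sl μ s * ((t : ℤ) : ℝ)) := by
      push_cast
      ring
    rw [e1]
    refine (abs_add_le _ _).trans ?_
    linarith
  have hPW : η' ∈ PW69 μ s Sᶜ (hc μ s c T) (N * n) (N * n) (Kh * w + 1) (U0 * E) := by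
    have h1 : η' ∈ PW69 μ s (S58 μ s a e (N * n) δ)ᶜ (hc μ s c (N * n)) (N * n) (N * n) (Kh * wd μ s (N * n) + 1) (U0 * EE μ s (N * n)) := h0'
    rw [← hTd, ← hw, ← hE, PW69_rows (R' := Sᶜ)] at h1
    · rwa [← hTd]
    · intro p hp hp'
      rw [hS, Set.mem_compl_iff, Set.mem_compl_iff, Set.mem_inter_iff]
      constructor
      · intro h2 h3
        exact h2 h3.1
      · intro h2 h3
        exact h2 ⟨h3, hp, hp'⟩
  -- the numbers
  have hhw : hc μ s c T * w = c * E := by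
    unfold hc
    rw [← hw, ← hE]
    field_simp
  have hcT : 0 ≤ hc μ s c T := hc_nonneg h T
  have hcT1 : hc μ s c T ≤ c * E := by
    rw [← hhw]
    exact le_mul_of_one_le_right hcT hw1
  have hP6 : ∀ k : ℕ, P ^ k ≤ Real.exp (k * ((C + 1) * E)) := by
    intro k
    rw [Real.exp_nat_mul]
    exact pow_le_pow_left₀ (by linarith) hP k
  have h42 : (4 : ℝ) ≤ Real.exp (2 * E) := by
    have h2 := exp_neg_two69
    rw [Real.exp_neg, ← one_div, one_div_le_one_div (Real.exp_pos _) (by norm_num)] at h2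
    exact h2.trans (Real.exp_le_exp.2 (by linarith))
  have hfin : ∀ x : ℝ, x ≤ -2 * E → Real.exp x ≤ 1 / 4 := fun x hx =>
    (Real.exp_le_exp.2 (show x ≤ -2 by linarith)).trans exp_neg_two69
  have hTn' : ((N * n : ℕ) : ℝ) = (T : ℝ) := by rw [hTd]
  have hNr : (N : ℝ) ≤ T := by rw [hTd]; exact_mod_cast hNT
  have hN0 : (0 : ℝ) ≤ N := Nat.cast_nonneg N
  obtain ⟨Q, hQ⟩ : ∃ Q : ℝ, Q = (q + c / 2 * Kp) * E := ⟨_, rfl⟩
  have hQ0 : 0 ≤ Q := by rw [hQ]; positivity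
  have n1 : ((N * n : ℕ) + 1 : ℝ) ^ 2 * Real.exp (Q + U0 * E - hc μ s c T * (Kp * w - 1 - ωB - 1)) ≤ 1 / 4 := by
    rw [hTn', ← hPd]
    refine (mul_le_mul_of_nonneg_right (hP6 2) (Real.exp_pos _).le).trans ?_
    rw [← Real.exp_add]
    refine hfin _ ?_
    have h0 : hc μ s c T * (Kp * w - 1 - Kh * w - 1) ≤ hc μ s c T * (Kp * w - 1 - ωB - 1) :=
      mul_le_mul_of_nonneg_left (by linarith) hcT
    refine le_trans (b := ((2 : ℕ) : ℝ) * ((C + 1) * E) + (Q + U0 * E - hc μ s c T * (Kp * w - 1 - Kh * w - 1))) (by linarith) ?_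
    have h1 : hc μ s c T * (Kp * w - 1 - Kh * w - 1) = (Kp - Kh) * (c * E) - 2 * hc μ s c T := by
      rw [← hhw]
      ring
    have h2 := mul_le_mul_of_nonneg_right hKpA (show (0 : ℝ) ≤ E by linarith)
    rw [hA] at h2
    rw [h1, hQ]
    push_cast
    linarith
  have hYE' : Y * E = Q + 4 * (U1 * E) + 6 * ((C + 1) * E) + 4 * E := by rw [hY, hQ]; ring
  have n2 : ((N * n : ℕ) + 1 : ℝ) ^ 2 * (Real.exp Q * tc69 N (N * n) (U1 * E) (Y * E)) ≤ 1 / 4 := by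
    unfold tc69 rimE69
    rw [hTn', ← hPd]
    have e1 : P ^ 2 * (Real.exp Q * ((T : ℝ) * P * (((N : ℝ) + 2) * (((T : ℝ) + 3) * Real.exp (3 * (U1 * E) - Y * E)) * Real.exp (U1 * E)))) =
        (T : ℝ) * ((N : ℝ) + 2) * ((T : ℝ) + 3) * P ^ 3 * Real.exp (Q + 4 * (U1 * E) - Y * E) := by
      have : Real.exp (Q + 4 * (U1 * E) - Y * E) = Real.exp Q * Real.exp (3 * (U1 * E) - Y * E) * Real.exp (U1 * E) := by
        rw [← Real.exp_add, ← Real.exp_add]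
        congr 1
        ring
      rw [this]
      ring
    rw [e1]
    have e2 : (T : ℝ) * ((N : ℝ) + 2) * ((T : ℝ) + 3) ≤ P * (2 * P) * (2 * P) := by
      have f1 : (T : ℝ) ≤ P := by rw [hPd]; linarith
      have f2 : (N : ℝ) + 2 ≤ 2 * P := by rw [hPd]; linarith
      have f3 : (T : ℝ) + 3 ≤ 2 * P := by rw [hPd]; linarith
      have f4 : 0 ≤ P := by linarith
      exact mul_le_mul (mul_le_mul f1 f2 (by linarith) f4) f3 (by linarith) (mul_nonneg f4 (by linarith))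
    have e3 : (T : ℝ) * ((N : ℝ) + 2) * ((T : ℝ) + 3) * P ^ 3 ≤ 4 * P ^ 6 := by
      have := mul_le_mul_of_nonneg_right e2 (show 0 ≤ P ^ 3 by positivity)
      calc _ ≤ P * (2 * P) * (2 * P) * P ^ 3 := this
        _ = _ := by ring
    have e4 : 4 * P ^ 6 ≤ Real.exp (2 * E) * Real.exp ((6 : ℕ) * ((C + 1) * E)) :=
      mul_le_mul h42 (hP6 6) (by positivity) (Real.exp_pos _).le
    refine (mul_le_mul_of_nonneg_right (e3.trans e4) (Real.exp_pos _).le).trans ?_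
    rw [← Real.exp_add, ← Real.exp_add]
    refine hfin _ ?_
    rw [hYE']
    push_cast
    linarith
  have n3 : ((N * n : ℕ) + 1 : ℝ) ^ 2 * (Real.exp Q * ((N + 1) * (Real.exp (U1 * E) * (2 * Real.exp (-(Y * E))) * Real.exp (U1 * E)))) ≤ 1 / 4 := by
    rw [hTn', ← hPd]
    have e1 : P ^ 2 * (Real.exp Q * (((N : ℝ) + 1) * (Real.exp (U1 * E) * (2 * Real.exp (-(Y * E))) * Real.exp (U1 * E)))) =
        2 * ((N : ℝ) + 1) * P ^ 2 * Real.exp (Q + 2 * (U1 * E) - Y * E) := by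
      have : Real.exp (Q + 2 * (U1 * E) - Y * E) = Real.exp Q * Real.exp (U1 * E) * Real.exp (-(Y * E)) * Real.exp (U1 * E) := by
        rw [← Real.exp_add, ← Real.exp_add, ← Real.exp_add]
        congr 1
        ring
      rw [this]
      ring
    rw [e1]
    have e2 : 2 * ((N : ℝ) + 1) * P ^ 2 ≤ 4 * P ^ 3 := by
      have h1 : (N : ℝ) + 1 ≤ P := by rw [hPd]; linarith
      have h2 := mul_le_mul_of_nonneg_right h1 (show 0 ≤ P ^ 2 by positivity)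
      have h3 : P * P ^ 2 = P ^ 3 := by ring
      have h4 : 0 < P ^ 3 := pow_pos (by linarith) 3
      rw [h3] at h2
      linarith
    have e4 : 4 * P ^ 3 ≤ Real.exp (2 * E) * Real.exp ((3 : ℕ) * ((C + 1) * E)) :=
      mul_le_mul h42 (hP6 3) (by positivity) (Real.exp_pos _).le
    refine (mul_le_mul_of_nonneg_right (e2.trans e4) (Real.exp_pos _).le).trans ?_
    rw [← Real.exp_add, ← Real.exp_add]
    refine hfin _ ?_
    have h5 : 0 ≤ U1 * E := by positivity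
    rw [hYE']
    push_cast
    linarith
  -- the drift and the distances
  have hdr : ∀ j, ∀ i < N, |l j (i + 1) - l j i - sl μ s * n| ≤ ρ := by
    intro j i hi
    have h1 := drift_sl20 (v := sl μ s) hT1' hAa hEe j ((i * n : ℕ) : ℝ) (((i + 1) * n : ℕ) : ℝ) (by positivity)
      (by exact_mod_cast Nat.mul_le_mul_right n (Nat.le_succ i)) (hin (i + 1) hi)
    have e1 : ((((i + 1) * n : ℕ) : ℝ) - ((i * n : ℕ) : ℝ)) = n := by push_cast; ring
    rw [e1] at h1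
    rw [hl]
    refine h1.trans ?_
    have hTpos : (0 : ℝ) < T := by linarith
    have hTN : (T : ℝ) = N * n := by rw [hTd]; push_cast; rfl
    have hnr : (0 : ℝ) < n := by exact_mod_cast hn1
    have hNr' : (0 : ℝ) < N := by exact_mod_cast hN1
    have e2 : (n : ℝ) / T = 1 / N := by rw [hTN]; field_simp
    rw [e2, mul_one_div, div_le_iff₀ hNr']
    linarith
  have hsp : ∀ j j', j ≠ j' → ∀ i ≤ N, 2 * (ρ + 2 * ρ) + ρ + ρ < |l j i - l j' i| := by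
    intro j j' hj i hi
    rw [hl]
    refine lt_of_lt_of_le ?_ (sep_sl20 hT1' hsep' hj (t := ((i * n : ℕ) : ℝ)) (by positivity) (hin i hi))
    rw [hδw]
    linarith
  obtain ⟨g1, g2⟩ := box69 (μ := μ) (s := s) hv0 hv1 (η := η) (η' := η') hF (n := n) (N := N) hN1 (ωB := ωB) (ω := Kp * w - 1)
    (ωW := Kb * w - ρ) (ρ := ρ) (α := ρ + 2 * ρ) (κ := K * w + ρ) (Y := Y * E) (b₀ := U0 * E) (b₁ := U1 * E) (τ := ρ) (Q := Q)
    (h := hc μ s c T) (l := l) (S := S) hWal (by linarith) (by linarith) (by linarith) hcT (by positivity) hQ0 hdr hsp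
    (by
      intro j i hi
      have := hlane j i hi
      linarith)
    hSlat (PW69_mono subset_rfl le_rfl le_rfl (by linarith) le_rfl hPW) heq
    (by
      intro t x ht h3 h4
      have h5 := hT t x ht h3 h4
      rw [← hTd, ← hw, ← hE, ← hQ] at h5
      rw [← hTd, sub_add_cancel]
      exact h5) n1 n2 n3
  have hR : U0 * E + Q = (U0 + q + c / 2 * Kp) * E := by rw [hQ]; ring
  rw [hR] at g1 g2
  rw [← hTd] at g1 g2
  rw [← hTd, ← hw, ← hE]
  refine ⟨g1, fun x => (g2 x).trans ?_⟩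
  refine add_le_add (Finset.sum_le_sum fun y _ => ?_) le_rfl
  by_cases hp : Pr69 (ρ + 2 * ρ) (ρ + 2 * ρ + ρ + ρ) N l x (x + y)
  · rw [if_pos hp, if_pos]
    obtain ⟨j, hj1, hj2⟩ := hp
    have e1 : l j 0 = a j := by
      rw [hl]
      unfold la20 sl20
      simp
    have e2 : l j N = e j := by
      rw [hl]
      unfold la20 sl20
      have hTpos : (T : ℝ) ≠ 0 := by linarith
      rw [← hTd, div_self hTpos]
      ring
    rw [e1] at hj1
    rw [e2] at hj2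
    have e3 : δ / 4 * w = 8 * ρ := by rw [hρ]; ring
    rw [e3]
    exact ⟨j, hj1.trans (by linarith), hj2.trans (by linarith)⟩
  · rw [if_neg hp]
    split_ifs
    · exact mul_nonneg (W_nonneg _ _ _ _) (hF _)
    · exact le_rfl

end

end Pool.Agent.W_7d29a1_C1
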