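import Pool.Agent.W_7d29a1_C1.BoxS58

/-!
MP_7d29a1_pr, [C1]: `boxS58` FOR EVERY WINDOW WHICH CONTAINS `B58`. (helper58)

The window of the slab may be larger than `B58` (shifted by less than one site, or longer): `Typ58`, `cP` with any `B ⊇ B58 μ s (N * n) Kb`.
-/

set_option autoImplicit false

namespace Pool.Agent.W_7d29a1_C1.BP58

open MeasureTheory ProbabilityTheory Filter Topology
open Pool.Agent.W_7d29a1_F Pool.Agent.W_7d29a1_h4g Pool.Agent.W_7d29a1_H Pool.Agent.W_7d29a1_HS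
open Pool.Agent.W_7d29a1_HL (cS measurable_cS cS_dep)
open Pool.Agent.W_7d29a1_HR (Dec Fin')
open Pool.Agent.W_7d29a1_C1
open Pool.Agent.W_7d29a1_C1.S71 (Off)
open Pool.Agent.W_7d29a1_C1.F31 (DecO FinO)
open Pool.Agent.W_7d29a1_C1.H75

noncomputable section

variable {μ : Measure ℝ} {s c C : ℝ} {n₀ : ℕ} {ι : Type}

/-- **THE PROBABILITY LINE OF ONE SLAB, any window `B ⊇ B58`.** -/
theorem boxSB58 [IsProbabilityMeasure μ] (h : In μ s c C n₀) (hTube : TubeG20 μ s) {K δ ε Kb : ℝ} (hK : 0 ≤ K) (hδ : 0 < δ)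
    (hε : 0 < ε) (hKb : K + δ / 32 ≤ Kb) (m : ℕ) :
    ∃ U0 : ℝ, 0 < U0 ∧ ∀ L Kp : ℝ, 0 ≤ Kp → ∃ pL : ℝ, 0 < pL ∧ ∃ U1 : ℝ, 0 < U1 ∧ ∀ ρ₀ Y Z : ℝ, 0 < ρ₀ → ρ₀ ≤ Kb →
      ∃ N₀ : ℕ, 1 ≤ N₀ ∧ ∀ N : ℕ, N₀ ≤ N → ∃ pW : ℝ, 0 < pW ∧ ∃ n₁ : ℕ, 1 ≤ n₁ ∧ ∀ n : ℕ, n₁ ≤ n →
        Z * EE μ s (N * n) ≤ hc μ s c n * (ρ₀ * wd μ s (N * n)) / 4 ∧
        ∀ B : Set Pt, B58 μ s (N * n) Kb ⊆ B → ∀ (ι : Type) [Fintype ι], Fintype.card ι ≤ m → ∀ a e : ι → ℤ, (∀ j, |(a j : ℝ)| ≤ K * wd μ s (N * n)) →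
          (∀ j, |(e j : ℝ) - sl μ s * (N * n : ℕ)| ≤ K * wd μ s (N * n)) →
          (∀ j j', j ≠ j' → ((a j : ℝ) + δ * wd μ s (N * n) ≤ a j' ∧ (e j : ℝ) + δ * wd μ s (N * n) ≤ e j') ∨
            ((a j' : ℝ) + δ * wd μ s (N * n) ≤ a j ∧ (e j' : ℝ) + δ * wd μ s (N * n) ≤ e j)) →
          (law μ).real (Typ58 μ B (H058 μ s c a e (N * n) δ Kb U0)
            (H158 μ s c N n Kp U1 (ρ₀ * wd μ s (N * n))) pL)ᶜ ≤ ε ∧
          ∀ ω ∈ Typ58 μ B (H058 μ s c a e (N * n) δ Kb U0) (H158 μ s c N n Kp U1 (ρ₀ * wd μ s (N * n))) pL,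
            pL / 2 * pW ≤ cP μ B (LN58 μ s a e (N * n) δ L ∩ H058 μ s c a e (N * n) δ Kb U0 ∩
              H158 μ s c N n Kp U1 (ρ₀ * wd μ s (N * n)) ∩ WL58 μ s a e N n δ Kb (ρ₀ * wd μ s (N * n)) Y) ω := by
  have hKb0 : 0 ≤ Kb := by linarith
  obtain ⟨U0, hU0, nA, hA⟩ := h0_num58 (μ := μ) (s := s) h (D := Kb) hKb0 (show 0 < ε / 8 by positivity)
  refine ⟨U0, hU0, fun L Kp hKp => ?_⟩
  obtain ⟨p₀, hp₀, nT, hlane⟩ := hTube (δ / 32) (by positivity) (2 * K) L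
  obtain ⟨pL, hpL⟩ : ∃ pL : ℝ, pL = min p₀ 1 ^ m := ⟨_, rfl⟩
  have hpL0 : 0 < pL := by rw [hpL]; positivity
  obtain ⟨U1, hU1, nB, hB⟩ := h0_num58 (μ := μ) (s := s) h (D := Kp) hKp (show 0 < ε * pL / 16 by positivity)
  refine ⟨pL, hpL0, U1, hU1, fun ρ₀ Y Z hρ hρb => ?_⟩
  obtain ⟨N₁, nC, hN₁, hC2⟩ := h2_num58 (μ := μ) (s := s) h hKp hρ (show 0 < ε * pL / 16 by positivity) Z
  refine ⟨max N₁ ⌈2 * K / ρ₀⌉₊, hN₁.trans (le_max_left _ _), fun N hN => ?_⟩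
  have hN1 : 1 ≤ N := hN₁.trans ((le_max_left _ _).trans hN)
  obtain ⟨pW, hpW, nD, hW⟩ := wallP20 (μ := μ) (s := s) h (K₃ := Kb - ρ₀) (by linarith) hρ.le hN1 Y
  obtain ⟨nE, hnE⟩ := eventually_atTop.1 ((wd_tendsto h).eventually_ge_atTop 1)
  refine ⟨pW, hpW, max 1 (max (max nA nB) (max (max nC nD) (max nE nT))), le_max_left _ _, fun n hn => ?_⟩
  have hn1 : 1 ≤ n := (le_max_left _ _).trans hn
  have hn' := (le_max_right _ _).trans hn
  have hnA : nA ≤ n := (le_max_left _ _).trans ((le_max_left _ _).trans hn')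
  have hnB : nB ≤ n := (le_max_right _ _).trans ((le_max_left _ _).trans hn')
  have hn'' := (le_max_right _ _).trans hn'
  have hnC : nC ≤ n := (le_max_left _ _).trans ((le_max_left _ _).trans hn'')
  have hnD : nD ≤ n := (le_max_right _ _).trans ((le_max_left _ _).trans hn'')
  have hnE' : nE ≤ n := (le_max_left _ _).trans ((le_max_right _ _).trans hn'')
  have hnT : nT ≤ n := (le_max_right _ _).trans ((le_max_right _ _).trans hn'')
  have hTn : n ≤ N * n := Nat.le_mul_of_pos_left n hN1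
  have hT1 : 1 ≤ N * n := hn1.trans hTn
  have hw1 := hnE (N * n) (hnE'.trans hTn)
  have hw0 : 0 < wd μ s (N * n) := by linarith
  obtain ⟨hZ, hC3⟩ := hC2 N n ((le_max_left _ _).trans hN) hnC
  refine ⟨hZ, fun B hBB ι _ hcard a e ha he hsep => ?_⟩
  have hOff : ∀ {E : Set Env}, Off (B58 μ s (N * n) Kb)ᶜ E → Off Bᶜ E := fun hE η η' hh =>
    hE η η' fun p hp => hh p fun h => hp fun h' => h (hBB h')
  have hδw : 0 < δ * wd μ s (N * n) := by positivity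
  -- the events are measurable
  have mL : MeasurableSet (LN58 μ s a e (N * n) δ L) := meas_LN58 a e _ _ _
  have m0 : MeasurableSet (H058 μ s c a e (N * n) δ Kb U0) := meas_PW69
  have m1 : MeasurableSet (H158 μ s c N n Kp U1 (ρ₀ * wd μ s (N * n))) := meas_PW69.inter meas_PW69
  have mW : MeasurableSet (WL58 μ s a e N n δ Kb (ρ₀ * wd μ s (N * n)) Y) := meas_WALL20 _ _ _ _ _ _ _
  constructor
  · -- typical
    have t1 := typ58 (μ := μ) (B := B) m0 m1 hpL0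
    have t2 : (law μ).real (H058 μ s c a e (N * n) δ Kb U0)ᶜ ≤ ε / 8 :=
      hA (N * n) (hnA.trans hTn) _ (Kb * wd μ s (N * n) + 1) (by positivity) le_rfl
    have t3 : (law μ).real (H158 μ s c N n Kp U1 (ρ₀ * wd μ s (N * n)))ᶜ ≤ ε * pL / 8 := by
      have u1 := hB (N * n) (hnB.trans hTn) Set.univ (Kp * wd μ s (N * n)) (by positivity) (by linarith)
      have u2 := hC3 Set.univ
      have u3 : (H158 μ s c N n Kp U1 (ρ₀ * wd μ s (N * n)))ᶜ =
          (PW69 μ s Set.univ (hc μ s c (N * n)) (N * n) (N * n) (Kp * wd μ s (N * n)) (U1 * EE μ s (N * n)))ᶜ ∪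
          (PW69 μ s Set.univ (hc μ s c n) (N * n) (2 * n) (Kp * wd μ s (N * n)) (hc μ s c n * (ρ₀ * wd μ s (N * n)) / 4))ᶜ := by
        unfold H158
        rw [Set.compl_inter]
      rw [u3]
      refine (measureReal_union_le _ _).trans ?_
      linarith
    have t4 : 4 / pL * (law μ).real (H158 μ s c N n Kp U1 (ρ₀ * wd μ s (N * n)))ᶜ ≤ 4 / pL * (ε * pL / 8) :=
      mul_le_mul_of_nonneg_left t3 (by positivity)
    have t5 : 4 / pL * (ε * pL / 8) = ε / 2 := by field_simp; ring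
    linarith
  · intro ω hω
    have hP : ∀ j, min p₀ 1 ≤ (law μ).real (LN20 μ s a e (N * n) (δ / 32 * wd μ s (N * n)) (L * EE μ s (N * n)) j) := by
      intro j
      refine (min_le_left _ _).trans (hlane (N * n) (hnT.trans hTn) ((0 : ℤ), a j) (e j - a j) ?_)
      have h3 := abs_le.1 (ha j)
      have h4 := abs_le.1 (he j)
      rw [abs_le]
      push_cast at h4 ⊢
      constructor <;> linarith [h3.1, h3.2, h4.1, h4.2]
    have hp1 : pL ≤ (law μ).real (LN58 μ s a e (N * n) δ L) := by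
      have u1 := lanes_prob20 (μ := μ) (s := s) hT1 (le_min hp₀.le zero_le_one) (d := δ * wd μ s (N * n)) (by linarith) hsep hP Finset.univ
      have u2 : (⋂ j ∈ (Finset.univ : Finset ι), LN20 μ s a e (N * n) (δ / 32 * wd μ s (N * n)) (L * EE μ s (N * n)) j) =
          LN58 μ s a e (N * n) δ L := by
        unfold LN58
        simp
      rw [u2] at u1
      refine le_trans ?_ u1
      rw [hpL]
      exact pow_le_pow_of_le_one (le_min hp₀.le zero_le_one) (min_le_right _ _) (by rw [Finset.card_univ]; exact hcard)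
    have hpW' : pW ≤ (law μ).real (WL58 μ s a e N n δ Kb (ρ₀ * wd μ s (N * n)) Y) := by
      have u1 := hW n hnD ι (δ / 32 * wd μ s (N * n) + 2 * (ρ₀ * wd μ s (N * n))) (la20 (sl20 a e (N * n)) n)
      rw [sub_mul] at u1
      exact u1
    have u3 := lucky58 (μ := μ) (B := B) (S := S58 μ s a e (N * n) δ) mL m0 m1 mW
      (off_LN58_S a e _ _ _)
      (hOff (off_LN58_B hT1 ha he (by nlinarith)))
      (off_PW69 (Set.disjoint_compl_left_iff_subset.2 subset_rfl)) dec_PW69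
      (DecO.of_dec (Dec.inter dec_PW69 dec_PW69) _)
      (hOff (off_WL58_B a e N n δ Kb _ Y))
      (off_WL58_S hn1 hN1 ha he (by positivity) (by
        have v1 : 2 * K / ρ₀ ≤ N := (Nat.le_ceil _).trans (by exact_mod_cast (le_max_right _ _).trans hN)
        rw [div_le_iff₀ hρ] at v1
        nlinarith))
      (fin_WALL20 _ _ _ _ _ _ _) (dec_WALL20 _ _ _ _ _ _ _) hp1 hω
    refine le_trans ?_ u3
    exact mul_le_mul_of_nonneg_left hpW' (by positivity)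

end

end Pool.Agent.W_7d29a1_C1.BP58
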