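import Pool.Agent.W_7d29a1_C1.SlabS20
import Pool.Agent.W_7d29a1_C1.BoxP58

/-!
MP_7d29a1_pr, [C1], resampled WINDOWS: SEVERAL SLABS. (helper58)

`cP μ B E ω` (BoxP58) = the probability of `E` when the sites of `B` are fresh and the rest is `ω`.
`cP_restrict`: only the part of `B` which `E` reads matters. `cP_at`: other base points. **`cP_slabs`**: events `at20 (b i) (E i)` in
disjoint regions `b i + A i`, window `B` which is `b i + Bw i` in the region `i`: the conditional probability of all of them together is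
the product of the `cP μ (Bw i) (E i) (sh (b i) ω)`. `typ_slabs`: all outsides typical.
-/

set_option autoImplicit false

namespace Pool.Agent.W_7d29a1_C1.BP58

open MeasureTheory ProbabilityTheory Filter Topology
open Pool.Agent.W_7d29a1_F Pool.Agent.W_7d29a1_h4g Pool.Agent.W_7d29a1_H Pool.Agent.W_7d29a1_HS
open Pool.Agent.W_7d29a1_C1
open Pool.Agent.W_7d29a1_C1.S71

noncomputable section

variable {μ : Measure ℝ} {B B' A : Set Pt}

/-- The translate of a set of sites. -/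
def tr58 (b : Pt) (A : Set Pt) : Set Pt := {p | p - b ∈ A}

theorem mem_tr58 {b p : Pt} : p ∈ tr58 b A ↔ p - b ∈ A := Iff.rfl

theorem add_mem_tr58 {b p : Pt} : p + b ∈ tr58 b A ↔ p ∈ A := by
  rw [mem_tr58, add_sub_cancel_right]

theorem on_tr58 (b : Pt) {E : Set Env} (h : On20 A E) : On20 (tr58 b A) (at20 b E) := fun η η' hh =>
  h (sh b η) (sh b η') fun p hp => hh (p + b) (add_mem_tr58.2 hp)

/-- Only the part of the window which the event reads matters. -/
theorem cP_restrict {E : Set Env} (hE : On20 A E) (h : ∀ p ∈ A, p ∈ B ↔ p ∈ B') (ω : Env) : cP μ B E ω = cP μ B' E ω := by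
  unfold cP
  congr 1
  ext ξ
  refine hE _ _ fun p hp => ?_
  by_cases hB : p ∈ B
  · rw [gl_of_mem hB, gl_of_mem ((h p hp).1 hB)]
  · rw [gl_of_not_mem hB, gl_of_not_mem fun h' => hB ((h p hp).2 h')]

/-- The outside matters only on the sites which the event reads. -/
theorem cP_congr {E : Set Env} (hE : On20 A E) {ω ω' : Env} (h : ∀ p ∈ A, p ∉ B → ω p = ω' p) : cP μ B E ω = cP μ B E ω' := by
  unfold cP
  congr 1
  ext ξ
  refine hE _ _ fun p hp => ?_
  by_cases hB : p ∈ B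
  · rw [gl_of_mem hB, gl_of_mem hB]
  · rw [gl_of_not_mem hB, gl_of_not_mem hB, h p hp hB]

/-- Other base points. -/
theorem cP_at [IsProbabilityMeasure μ] (b : Pt) {E : Set Env} (hE : MeasurableSet E) (ω : Env) :
    cP μ (tr58 b B) (at20 b E) ω = cP μ B E (sh b ω) := by
  unfold cP
  have e1 : {ξ | gl (tr58 b B) ξ ω ∈ at20 b E} = at20 b {ξ | gl B ξ (sh b ω) ∈ E} := by
    ext ξ
    show sh b (gl (tr58 b B) ξ ω) ∈ E ↔ gl B (sh b ξ) (sh b ω) ∈ E
    have e2 : sh b (gl (tr58 b B) ξ ω) = gl B (sh b ξ) (sh b ω) := by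
      funext p
      show gl (tr58 b B) ξ ω (p + b) = _
      by_cases hp : p ∈ B
      · rw [gl_of_mem (add_mem_tr58.2 hp), gl_of_mem hp]
        rfl
      · rw [gl_of_not_mem (fun h => hp (add_mem_tr58.1 h)), gl_of_not_mem hp]
        rfl
    rw [e2]
  rw [e1, real_at20 b (meas_sec hE _)]

/-- The sections of events in disjoint regions are independent. -/
theorem cP_inter [IsProbabilityMeasure μ] {A' : Set Pt} {E F : Set Env} (mE : MeasurableSet E) (mF : MeasurableSet F) (hE : On20 A E)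
    (hF : On20 A' F) (hd : Disjoint A A') (ω : Env) : cP μ B (E ∩ F) ω = cP μ B E ω * cP μ B F ω := by
  have e1 : {ξ | gl B ξ ω ∈ E ∩ F} = {ξ | gl B ξ ω ∈ E} ∩ {ξ | gl B ξ ω ∈ F} := rfl
  unfold cP
  rw [e1]
  refine real_indep58 (S := A) (meas_sec mE ω) (meas_sec mF ω) ?_ ?_
  · refine off_sec (B := B) (S := Aᶜ) (fun η η' h => ?_) ω
    exact hE η η' fun p hp => h p (fun h' => h' hp)
  · refine off_sec (B := B) (S := A) (fun η η' h => ?_) ω
    exact hF η η' fun p hp => h p (fun h' => Set.disjoint_left.1 hd h' hp)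

variable {κ : Type*}

/-- **SEVERAL SLABS**: the product formula. -/
theorem cP_slabs [IsProbabilityMeasure μ] (F : Finset κ) {b : κ → Pt} {A Bw : κ → Set Pt} {E : κ → Set Env}
    (mE : ∀ i ∈ F, MeasurableSet (E i)) (hE : ∀ i ∈ F, On20 (A i) (E i))
    (hd : ∀ i ∈ F, ∀ j ∈ F, i ≠ j → Disjoint (tr58 (b i) (A i)) (tr58 (b j) (A j)))
    (hB : ∀ i ∈ F, ∀ p ∈ A i, p + b i ∈ B ↔ p ∈ Bw i) (ω : Env) :
    cP μ B (⋂ i ∈ F, at20 (b i) (E i)) ω = ∏ i ∈ F, cP μ (Bw i) (E i) (sh (b i) ω) := by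
  classical
  have hp := isProb58 (μ := μ)
  induction F using Finset.induction_on with
  | empty =>
    rw [Finset.prod_empty]
    unfold cP
    have e : {ξ : Env | gl B ξ ω ∈ ⋂ i ∈ (∅ : Finset κ), at20 (b i) (E i)} = Set.univ := by
      ext ξ
      simp
    rw [e]
    exact probReal_univ
  | insert i F hi ih =>
    have ih' := ih (fun j hj => mE j (Finset.mem_insert_of_mem hj)) (fun j hj => hE j (Finset.mem_insert_of_mem hj))
      (fun j hj k hk hjk => hd j (Finset.mem_insert_of_mem hj) k (Finset.mem_insert_of_mem hk) hjk)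
      (fun j hj => hB j (Finset.mem_insert_of_mem hj))
    have hii : i ∈ insert i F := Finset.mem_insert_self i F
    rw [Finset.prod_insert hi, Finset.set_biInter_insert]
    rw [cP_inter (μ := μ) (B := B) (A := tr58 (b i) (A i)) (A' := ⋃ j ∈ F, tr58 (b j) (A j)) (meas_at20 (b i) (mE i hii))
      (Finset.measurableSet_biInter F fun j hj => meas_at20 (b j) (mE j (Finset.mem_insert_of_mem hj)))
      (on_tr58 (b i) (hE i hii)) ?_ ?_ ω, ih']
    · congr 1
      rw [cP_restrict (μ := μ) (B' := tr58 (b i) (Bw i)) (on_tr58 (b i) (hE i hii)) (fun p hp1 => ?_) ω,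
        cP_at (b i) (mE i hii)]
      have h1 := hB i hii (p - b i) hp1
      rw [sub_add_cancel] at h1
      exact h1
    · intro η η' hh
      simp only [Set.mem_iInter]
      refine forall₂_congr fun j hj => on_tr58 (b j) (hE j (Finset.mem_insert_of_mem hj)) η η' fun p hp1 => hh p ?_
      exact Set.mem_iUnion₂.2 ⟨j, hj, hp1⟩
    · rw [Set.disjoint_iUnion₂_right]
      exact fun j hj => hd i hii j (Finset.mem_insert_of_mem hj) fun h => hi (h ▸ hj)

/-- The lower bound. -/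
theorem le_cP_slabs [IsProbabilityMeasure μ] (F : Finset κ) {b : κ → Pt} {A Bw : κ → Set Pt} {E : κ → Set Env}
    (mE : ∀ i ∈ F, MeasurableSet (E i)) (hE : ∀ i ∈ F, On20 (A i) (E i))
    (hd : ∀ i ∈ F, ∀ j ∈ F, i ≠ j → Disjoint (tr58 (b i) (A i)) (tr58 (b j) (A j)))
    (hB : ∀ i ∈ F, ∀ p ∈ A i, p + b i ∈ B ↔ p ∈ Bw i) {ω : Env} {q : κ → ℝ} (hq0 : ∀ i ∈ F, 0 ≤ q i)
    (hq : ∀ i ∈ F, q i ≤ cP μ (Bw i) (E i) (sh (b i) ω)) : ∏ i ∈ F, q i ≤ cP μ B (⋂ i ∈ F, at20 (b i) (E i)) ω := by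
  rw [cP_slabs F mE hE hd hB ω]
  exact Finset.prod_le_prod hq0 hq

/-- All outsides are typical. -/
theorem typ_slabs [IsProbabilityMeasure μ] (F : Finset κ) {b : κ → Pt} {G : κ → Set Env} (mG : ∀ i ∈ F, MeasurableSet (G i)) {ε : κ → ℝ}
    (hG : ∀ i ∈ F, (law μ).real (G i)ᶜ ≤ ε i) : (law μ).real (⋂ i ∈ F, at20 (b i) (G i))ᶜ ≤ ∑ i ∈ F, ε i := by
  have hp := isProb58 (μ := μ)
  have e : (⋂ i ∈ F, at20 (b i) (G i))ᶜ = ⋃ i ∈ F, at20 (b i) (G i)ᶜ := by
    rw [Set.compl_iInter₂]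
    rfl
  rw [e]
  refine (measureReal_biUnion_finset_le _ _).trans (Finset.sum_le_sum fun i hi => ?_)
  rw [real_at20 (b i) (mG i hi).compl]
  exact hG i hi

end

end Pool.Agent.W_7d29a1_C1.BP58
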