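import Pool.Agent.W_7d29a1_C1.BoxK69

/-!
MP_7d29a1_pr, [C1], resampled WINDOWS: THE WINDOW LEMMA OVER THE MODEL K91P, numbers done. (helper69)

Slab: rows `(r, r + T]`, `T = N n`, base site `(r, col)`, `p = exp (s + g)` on the rows `[r, r + T)`, `|g| wd T ≤ (c / 8) EE T`.
* `boxX69` : LANE SLAB. `openX69` : SLAB WITHOUT LANES (any typical content). Both for any final profile `G ≥ 0` of the row `r + T`.
-/

set_option autoImplicit false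

namespace Pool.Agent.W_7d29a1_C1

open MeasureTheory ProbabilityTheory Filter Topology
open Pool.Agent.W_7d29a1_F Pool.Agent.W_7d29a1_h4g Pool.Agent.W_7d29a1_H Pool.Agent.W_7d29a1_HS
open Pool.Agent.W_7d29a1_C1.K91 (wt wt_pos)
open Pool.Agent.W_7d29a1_C1.H75
open Pool.Agent.W_7d29a1_C1.BP58

noncomputable section

variable {μ : Measure ℝ} {s c C : ℝ} {n₀ : ℕ}

/-- The tilt is absorbed in the slope. -/
theorem tilt69 {g w E Kp Kh q ωB : ℝ} (hw : 1 ≤ w) (hKp : 0 ≤ Kp) (hKh : 0 ≤ Kh) (hc : 0 ≤ c) (hE : 0 ≤ E) (hg : |g| * w ≤ c / 8 * E)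
    (hB : ωB ≤ Kh * w) : (q + c / 4 * Kp) * E + |g| * (Kp * w + (ωB + 1)) ≤ (q + c / 8 * (Kh + 1) + c / 2 * Kp) * E := by
  have h0 := abs_nonneg g
  have h1 : |g| * (Kp * w + (ωB + 1)) ≤ (Kp + Kh + 1) * (|g| * w) := by
    have h2 : |g| * (Kp * w + (ωB + 1)) ≤ |g| * (Kp * w + (Kh * w + w)) := mul_le_mul_of_nonneg_left (by linarith) h0
    linarith
  have h3 : (Kp + Kh + 1) * (|g| * w) ≤ (Kp + Kh + 1) * (c / 8 * E) := mul_le_mul_of_nonneg_left hg (by linarith)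
  have h4 : 0 ≤ c * Kp * E := by positivity
  linarith

/-- **THE WINDOW LEMMA OVER THE MODEL.** Walls up to `Kb wd T`; the environments are equal off `ωB`, `Kb wd T ≤ ωB ≤ Kh wd T`. -/
theorem boxX69 [IsProbabilityMeasure μ] (h : In μ s c C n₀) {K δ Kb Kh U0 q : ℝ} (hK : 0 ≤ K) (hδ : 0 < δ) (hKb : K + δ ≤ Kb)
    (hKh : Kb ≤ Kh) (hU0 : 0 ≤ U0) (hq : 0 ≤ q) (K₀ : ℝ) :
    ∃ Kp : ℝ, K₀ ≤ Kp ∧ Kh + 3 ≤ Kp ∧ ∀ U1 : ℝ, 0 ≤ U1 → ∃ Y Z : ℝ, 0 < Y ∧ 0 < Z ∧ ∃ N₀ n₁ : ℕ, 1 ≤ N₀ ∧ 1 ≤ n₁ ∧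
      ∀ N n : ℕ, N₀ ≤ N → n₁ ≤ n → Z * EE μ s (N * n) ≤ hc μ s c n * (δ / 32 * wd μ s (N * n)) / 4 →
      ∀ (ι : Type) (a e : ι → ℤ), (∀ j, |(a j : ℝ)| ≤ K * wd μ s (N * n)) →
        (∀ j, |(e j : ℝ) - sl μ s * (N * n : ℕ)| ≤ K * wd μ s (N * n)) →
        (∀ j j', j ≠ j' → ((a j : ℝ) + δ * wd μ s (N * n) ≤ a j' ∧ (e j : ℝ) + δ * wd μ s (N * n) ≤ e j') ∨
          ((a j' : ℝ) + δ * wd μ s (N * n) ≤ a j ∧ (e j' : ℝ) + δ * wd μ s (N * n) ≤ e j)) →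
        ∀ (r : ℕ) (col : ℤ) (p : ℕ → ℝ) (g : ℝ), (∀ k, 0 < p k) → (∀ k, r ≤ k → k < r + N * n → p k = Real.exp (s + g)) →
          |g| * wd μ s (N * n) ≤ c / 8 * EE μ s (N * n) →
        ∀ η η' : Env, sh ((r : ℤ), col) η' ∈ H058 μ s c a e (N * n) δ Kh U0 →
          sh ((r : ℤ), col) η' ∈ H158 μ s c N n Kp U1 (δ / 32 * wd μ s (N * n)) →
          sh ((r : ℤ), col) η' ∈ WL58 μ s a e N n δ Kb (δ / 32 * wd μ s (N * n)) Y →
        ∀ ωB : ℝ, Kb * wd μ s (N * n) ≤ ωB → ωB ≤ Kh * wd μ s (N * n) →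
          (∀ (t : ℕ) (x : ℤ), ωB < lat69 μ s t x → η (((r + t : ℕ) : ℤ), x + col) = η' (((r + t : ℕ) : ℤ), x + col)) →
        ∀ G : ℤ → ℝ, (∀ y, 0 ≤ G y) →
          (∀ (t : ℕ) (x : ℤ), t < N * n → (t = 0 ∨ ωB < lat69 μ s t x) → lat69 μ s t x ≤ ωB + 1 →
            TameV69 μ s g (wt η) p G r col (N * n) (Kp * wd μ s (N * n)) ((q + c / 4 * Kp) * EE μ s (N * n)) t x) →
        ∀ mo ex : Finset ℤ, (∀ x y : ℤ, Mo69 a e (δ / 4 * wd μ s (N * n)) x y → x + col ∈ mo ∧ y + col ∈ ex) →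
          LeakV69 μ s (wt η) (wt η') p G r (N * n) col ωB
            (4 * Real.exp ((U0 + (q + c / 8 * (Kh + 1)) + c / 2 * Kp) * EE μ s (N * n))) mo ex := by
  have hc0 := h.c0
  have hKb0 : 0 ≤ Kb := by linarith
  have hKh0 : 0 ≤ Kh := by linarith
  obtain ⟨Kp, hKp0, hKp1, H⟩ := boxM69 h hK hδ hKb hKh hU0 (show 0 ≤ q + c / 8 * (Kh + 1) by positivity) K₀
  obtain ⟨n₂, hn₂⟩ := eventually_atTop.1 ((wd_tendsto h).eventually_ge_atTop 1)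
  refine ⟨Kp, hKp0, hKp1, fun U1 hU1 => ?_⟩
  obtain ⟨Y, Z, hY, hZ, N₀, n₁, hN₀, hn₁, H⟩ := H U1 hU1
  refine ⟨Y, Z, hY, hZ, N₀, max n₁ n₂, hN₀, hn₁.trans (le_max_left _ _), ?_⟩
  intro N n hN hn hZ' ι a e ha he hsep r col p g hpp hp hg η η' h0' h1' hW' ωB hωB hωB' heq G hG hT mo ex hmo
  have hN1 : 1 ≤ N := hN₀.trans hN
  have hTn : n ≤ N * n := Nat.le_mul_of_pos_left n hN1
  have hw1 : 1 ≤ wd μ s (N * n) := hn₂ _ (((le_max_right _ _).trans hn).trans hTn)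
  have hE1 := one_le_EE (μ := μ) (s := s) (N * n)
  have h1 := H N n hN ((le_max_left _ _).trans hn) hZ' ι a e ha he hsep (sh ((r : ℤ), col) η') h0' h1' hW'
    ωB hωB hωB' (sh ((r : ℤ), col) η) (FX69 g G col) (FX69_nonneg hG)
    (by
      intro t x hx
      have e0 : (((t : ℤ), x) : Pt) + ((r : ℤ), col) = (((r + t : ℕ) : ℤ), x + col) := by
        ext
        · show (t : ℤ) + r = ((r + t : ℕ) : ℤ)
          push_cast
          ring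
        · rfl
      show η ((((t : ℤ), x) : Pt) + ((r : ℤ), col)) = η' ((((t : ℤ), x) : Pt) + ((r : ℤ), col))
      rw [e0]
      exact heq t x hx)
    (by
      intro t x ht h3 h4
      refine (hT t x ht h3 h4).tame ht.le hG hpp hp h4 ?_
      exact tilt69 hw1 (by linarith) hKh0 hc0.le (by linarith) hg hωB')
  exact h1.lv hG hpp hp hmo

/-- **A SLAB WITHOUT LANES OVER THE MODEL.** -/
theorem openX69 [IsProbabilityMeasure μ] (h : In μ s c C n₀) {Kh U0 q : ℝ} (hKh : 0 ≤ Kh) (hU0 : 0 ≤ U0) (hq : 0 ≤ q) (K₀ : ℝ) :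
    ∃ Kp : ℝ, K₀ ≤ Kp ∧ Kh + 3 ≤ Kp ∧ ∃ n₁ : ℕ, 1 ≤ n₁ ∧ ∀ T : ℕ, n₁ ≤ T →
        ∀ (r : ℕ) (col : ℤ) (p : ℕ → ℝ) (g : ℝ), (∀ k, 0 < p k) → (∀ k, r ≤ k → k < r + T → p k = Real.exp (s + g)) →
          |g| * wd μ s T ≤ c / 8 * EE μ s T →
        ∀ η η' : Env, sh ((r : ℤ), col) η' ∈ PW69 μ s Set.univ (hc μ s c T) T T (Kh * wd μ s T + 1) (U0 * EE μ s T) →
        ∀ ωB : ℝ, 0 ≤ ωB → ωB ≤ Kh * wd μ s T →
          (∀ (t : ℕ) (x : ℤ), ωB < lat69 μ s t x → η (((r + t : ℕ) : ℤ), x + col) = η' (((r + t : ℕ) : ℤ), x + col)) →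
        ∀ G : ℤ → ℝ, (∀ y, 0 ≤ G y) →
          (∀ (t : ℕ) (x : ℤ), t < T → (t = 0 ∨ ωB < lat69 μ s t x) → lat69 μ s t x ≤ ωB + 1 →
            TameV69 μ s g (wt η) p G r col T (Kp * wd μ s T) ((q + c / 4 * Kp) * EE μ s T) t x) →
          LeakV69 μ s (wt η) (wt η') p G r T col ωB
            (2 * Real.exp ((U0 + (q + c / 8 * (Kh + 1)) + c / 2 * Kp) * EE μ s T)) ∅ ∅ := by
  have hc0 := h.c0
  have hC1 := h.C1
  have hv0 := h.sl_pos.le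
  have hv1 := h.sl_lt.le
  obtain ⟨q', hq'⟩ : ∃ q' : ℝ, q' = q + c / 8 * (Kh + 1) := ⟨_, rfl⟩
  have hq0 : 0 ≤ q' := by rw [hq']; positivity
  obtain ⟨A, hA⟩ : ∃ A : ℝ, A = 2 * (C + 1) + q' + U0 + c * (Kh + 2) + 2 := ⟨_, rfl⟩
  have hA0 : 0 ≤ A := by rw [hA]; positivity
  obtain ⟨Kp, hKp⟩ : ∃ Kp : ℝ, Kp = max K₀ (2 / c * A + (Kh + 3)) := ⟨_, rfl⟩
  have hKp1 : 2 / c * A + (Kh + 3) ≤ Kp := by rw [hKp]; exact le_max_right _ _
  have hKpA : A ≤ c / 2 * Kp := by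
    have h1 : 2 / c * A ≤ Kp := by linarith
    have h2 := mul_le_mul_of_nonneg_left h1 (show 0 ≤ c / 2 by positivity)
    have h3 : c / 2 * (2 / c * A) = A := by field_simp
    linarith
  have hKp3 : Kh + 3 ≤ Kp := by
    have : 0 ≤ 2 / c * A := by positivity
    linarith
  obtain ⟨n₂, hn₂⟩ := eventually_atTop.1 ((wd_tendsto h).eventually_ge_atTop 1)
  refine ⟨Kp, by rw [hKp]; exact le_max_left _ _, hKp3, max 1 n₂, le_max_left _ _, ?_⟩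
  intro T hT r col p g hpp hp hg η η' hP ωB hωB hωB' heq G hG hTm
  have hT1 : 1 ≤ T := (le_max_left _ _).trans hT
  obtain ⟨w, hw⟩ : ∃ w : ℝ, w = wd μ s T := ⟨_, rfl⟩
  obtain ⟨E, hE⟩ : ∃ E : ℝ, E = EE μ s T := ⟨_, rfl⟩
  have hw1 : 1 ≤ w := by rw [hw]; exact hn₂ T ((le_max_right _ _).trans hT)
  have hE1 : 1 ≤ E := by rw [hE]; exact one_le_EE T
  have hlg := lg69 h hT1
  rw [← hE] at hlg
  have hhw : hc μ s c T * w = c * E := by
    unfold hc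
    rw [← hw, ← hE]
    field_simp
  have hcT : 0 ≤ hc μ s c T := hc_nonneg h T
  have hcT1 : hc μ s c T ≤ c * E := by
    rw [← hhw]
    exact le_mul_of_one_le_right hcT hw1
  rw [← hw, ← hE] at hP hg
  rw [← hw] at hωB'
  rw [← hw, ← hE] at hTm
  rw [← hE, ← hq']
  have hKpw : Kh * w + 3 * w ≤ Kp * w := by
    have := mul_le_mul_of_nonneg_right hKp3 (show 0 ≤ w by linarith)
    linarith
  have hnum : ((T : ℝ) + 1) ^ 2 * Real.exp ((q' + c / 2 * Kp) * E + U0 * E - hc μ s c T * (Kp * w - 1 - ωB - 1)) ≤ 1 / 2 := by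
    have h1 : ((T : ℝ) + 1) ^ 2 ≤ Real.exp (2 * ((C + 1) * E)) := by
      have h2 : Real.exp (2 * ((C + 1) * E)) = Real.exp ((C + 1) * E) ^ 2 := by
        rw [← Real.exp_nat_mul]
        norm_num
      rw [h2]
      exact pow_le_pow_left₀ (by positivity) hlg 2
    refine (mul_le_mul_of_nonneg_right h1 (Real.exp_pos _).le).trans ?_
    rw [← Real.exp_add]
    have h0 : hc μ s c T * (Kp * w - 1 - Kh * w - 1) ≤ hc μ s c T * (Kp * w - 1 - ωB - 1) :=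
      mul_le_mul_of_nonneg_left (by linarith) hcT
    have h2 : hc μ s c T * (Kp * w - 1 - Kh * w - 1) = (Kp - Kh) * (c * E) - 2 * hc μ s c T := by
      rw [← hhw]
      ring
    have h3 := mul_le_mul_of_nonneg_right hKpA (show (0 : ℝ) ≤ E by linarith)
    rw [hA] at h3
    refine (Real.exp_le_exp.2 (show _ ≤ (-2 : ℝ) from ?_)).trans (exp_neg_two69.trans (by norm_num))
    rw [h2] at h0
    linarith
  obtain ⟨o1, o2⟩ := open69 (μ := μ) (s := s) hv0 hv1 (η := sh ((r : ℤ), col) η) (η' := sh ((r : ℤ), col) η') (F := FX69 g G col)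
    (FX69_nonneg hG) hT1 (ωB := ωB) (ω := Kp * w - 1) (b₀ := U0 * E) (Q := (q' + c / 2 * Kp) * E) (h := hc μ s c T)
    (by linarith) hcT (by positivity) (by
      have : 0 ≤ Kp := by linarith
      positivity) (PW69_mono subset_rfl le_rfl le_rfl (by linarith) le_rfl hP)
    (by
      intro t x hx
      have e0 : (((t : ℤ), x) : Pt) + ((r : ℤ), col) = (((r + t : ℕ) : ℤ), x + col) := by
        ext
        · show (t : ℤ) + r = ((r + t : ℕ) : ℤ)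
          push_cast
          ring
        · rfl
      show η ((((t : ℤ), x) : Pt) + ((r : ℤ), col)) = η' ((((t : ℤ), x) : Pt) + ((r : ℤ), col))
      rw [e0]
      exact heq t x hx)
    (by
      intro t x ht h3 h4
      rw [sub_add_cancel]
      refine (hTm t x ht h3 h4).tame ht.le hG hpp hp h4 ?_
      rw [hq']
      exact tilt69 hw1 (by linarith) hKh hc0.le (by linarith) hg hωB') hnum
  have hR : U0 * E + (q' + c / 2 * Kp) * E = (U0 + q' + c / 2 * Kp) * E := by ring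
  rw [hR] at o1 o2
  have hL : Leak69 μ s (sh ((r : ℤ), col) η) (sh ((r : ℤ), col) η') (FX69 g G col) T ωB 0
      (2 * Real.exp ((U0 + q' + c / 2 * Kp) * E)) (fun j : Empty => (0 : ℤ)) (fun j : Empty => (0 : ℤ)) := by
    refine ⟨o1, fun x => (o2 x).trans ?_⟩
    refine le_add_of_nonneg_left (Finset.sum_nonneg fun y _ => ?_)
    split_ifs
    · exact mul_nonneg (W_nonneg _ _ _ _) (FX69_nonneg hG _)
    · exact le_rfl
  exact hL.lv hG hpp hp (mo := ∅) (ex := ∅) fun x y hxy => by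
    obtain ⟨j, -⟩ := hxy
    exact j.elim

end

end Pool.Agent.W_7d29a1_C1
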