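import Pool.Agent.W_7d29a1_C1.HybB8
import Pool.Agent.W_7d29a1_L.LsA1

/-!
MP_7d29a1_pr, attractor route (helper8): the composite future. The tilt `h` acts on `M` rows, then the path goes on for `L` rows without
the tilt, free end. Definitions and identities.
-/

set_option autoImplicit false

namespace Pool.Agent.W_7d29a1_C1.H8

open MeasureTheory ProbabilityTheory Set Finset
open Pool.Agent.W_7d29a1_F
open Pool.Agent.W_7d29a1_L (T kap exp_T exp_T_add T_sh T_zero)
open Pool.Agent.W_7d29a1_h47 (EM)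
open scoped ENNReal NNReal

noncomputable section

/-- The logarithm of the mass from `a`: `M` rows with the additional force `h` (relative to the direction `σ`), then `L` rows with the
tilt `s` only. -/
def TL8 (μ : Measure ℝ) (s σ h : ℝ) (M L : ℕ) (η : Env) (a : Pt) : ℝ :=
  Real.log (∑ y ∈ Finset.Icc (0 : ℤ) M, (W μ s η a M y * Real.exp (h * ((y : ℝ) - σ * M))) *
    Real.exp (V μ s η (a.1 + M, a.2 + y) L))

/-- The profile of the hybrids. -/
def RL8 (μ : Measure ℝ) (s σ h : ℝ) (M L j : ℕ) (η : Env) : ℝ := Real.exp (TL8 μ s σ h M L η ((0 : ℤ), ((j : ℕ) : ℤ)))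

/-- A future: a stationary function of the environment after its start. -/
structure Fu (μ : Measure ℝ) (F : Env → Pt → ℝ) : Prop where
  meas : ∀ a, Measurable fun η => F η a
  int : ∀ a, Integrable (fun η => F η a) (law μ)
  sh : ∀ η a c, F (sh c η) a = F η (a + c)
  dep : ∀ a η η', (∀ p : Pt, a.1 < p.1 → η p = η' p) → F η a = F η' a

/-- The logarithm of the mass of the paths which are in the window `y₀, …, y₀ + k` at the time `n`, with the future `F`. -/
def WF8 (μ : Measure ℝ) (s σ h : ℝ) (F : Env → Pt → ℝ) (n : ℕ) (y₀ : ℤ) (k : ℕ) (η : Env) : ℝ :=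
  Real.log (∑ j ∈ Finset.range (k + 1), (W μ s η 0 n (y₀ + ((j : ℕ) : ℤ)) *
    Real.exp (h * (((y₀ + ((j : ℕ) : ℤ) : ℤ) : ℝ) - σ * n))) * Real.exp (F η ((n : ℤ), y₀ + ((j : ℕ) : ℤ))))

section

variable {μ : Measure ℝ} {s σ h : ℝ}

theorem TL8_pos (η : Env) (a : Pt) (M L : ℕ) : 0 < ∑ y ∈ Finset.Icc (0 : ℤ) M, (W μ s η a M y * Real.exp (h * ((y : ℝ) - σ * M))) *
    Real.exp (V μ s η (a.1 + M, a.2 + y) L) := by
  refine Finset.sum_pos (fun y hy => ?_) ⟨0, Finset.mem_Icc.2 ⟨le_rfl, by positivity⟩⟩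
  rw [Finset.mem_Icc] at hy
  exact mul_pos (mul_pos (W_pos η a hy.1 hy.2) (Real.exp_pos _)) (Real.exp_pos _)

theorem exp_TL8 (η : Env) (a : Pt) (M L : ℕ) : Real.exp (TL8 μ s σ h M L η a) =
    ∑ y ∈ Finset.Icc (0 : ℤ) M, (W μ s η a M y * Real.exp (h * ((y : ℝ) - σ * M))) * Real.exp (V μ s η (a.1 + M, a.2 + y) L) := by
  unfold TL8
  exact Real.exp_log (TL8_pos η a M L)

theorem TL8_zero (η : Env) (a : Pt) (L : ℕ) : TL8 μ s σ h 0 L η a = V μ s η a L := by
  have h1 := exp_V_add (μ := μ) (s := s) η a 0 L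
  have h2 : Finset.Icc (0 : ℤ) ((0 : ℕ) : ℤ) = {0} := by
    ext y
    rw [Finset.mem_Icc, Finset.mem_singleton]
    constructor <;> intro h <;> [exact le_antisymm (by simpa using h.2) h.1; simp [h]]
  unfold TL8
  rw [h2, Finset.sum_singleton]
  rw [h2, Finset.sum_singleton, Nat.zero_add] at h1
  have h3 : h * (((0 : ℤ) : ℝ) - σ * ((0 : ℕ) : ℝ)) = 0 := by simp
  rw [h3, Real.exp_zero, mul_one, ← h1, Real.log_exp]

theorem TL8_h0 (η : Env) (a : Pt) (M L : ℕ) : TL8 μ s σ 0 M L η a = V μ s η a (M + L) := by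
  unfold TL8
  simp only [zero_mul, Real.exp_zero, mul_one]
  rw [← exp_V_add, Real.log_exp]

/-- `n` rows, then the composite future. -/
theorem exp_TL8_add (η : Env) (a : Pt) (n M L : ℕ) : Real.exp (TL8 μ s σ h (n + M) L η a) = ∑ k ∈ Finset.Icc (0 : ℤ) n,
    (W μ s η a n k * Real.exp (h * ((k : ℝ) - σ * n))) * Real.exp (TL8 μ s σ h M L η (a.1 + n, a.2 + k)) := by
  rw [exp_TL8]
  obtain ⟨f, hf⟩ : ∃ f : ℤ → ℝ, f = fun z : ℤ => Real.exp (h * ((z : ℝ) - σ * ((n + M : ℕ) : ℝ))) *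
    Real.exp (V μ s η (a.1 + ((n + M : ℕ) : ℤ), a.2 + z) L) := ⟨_, rfl⟩
  have e1 : ∀ z : ℤ, (W μ s η a (n + M) z * Real.exp (h * ((z : ℝ) - σ * ((n + M : ℕ) : ℝ)))) *
      Real.exp (V μ s η (a.1 + ((n + M : ℕ) : ℤ), a.2 + z) L) =
      ∑ k ∈ Finset.Icc (0 : ℤ) n, W μ s η a n k * (W μ s η (a.1 + n, a.2 + k) M (z - k) * f z) := by
    intro z
    rw [W_add, hf]
    simp only [Finset.sum_mul]
    exact Finset.sum_congr rfl fun k _ => by ring
  simp only [e1]
  rw [Finset.sum_comm]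
  refine Finset.sum_congr rfl fun k hk => ?_
  rw [Finset.mem_Icc] at hk
  rw [← Finset.mul_sum, mul_assoc]
  congr 1
  rw [exp_TL8, Finset.mul_sum]
  have h2 : ∑ z ∈ Finset.Icc (0 : ℤ) ((n + M : ℕ) : ℤ), W μ s η (a.1 + n, a.2 + k) M (z - k) * f z =
      ∑ z ∈ Finset.Icc k (k + M), W μ s η (a.1 + n, a.2 + k) M (z - k) * f z := by
    symm
    refine Finset.sum_subset ?_ ?_
    · intro z hz
      rw [Finset.mem_Icc] at hz ⊢
      push_cast
      omega
    · intro z _ hz
      rw [W_eq_zero, zero_mul]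
      rintro ⟨h3, h4⟩
      apply hz
      rw [Finset.mem_Icc]
      omega
  rw [h2]
  refine Finset.sum_nbij' (fun z => z - k) (fun y => y + k) ?_ ?_ ?_ ?_ ?_
  · intro z hz
    rw [Finset.mem_Icc] at hz ⊢
    omega
  · intro y hy
    rw [Finset.mem_Icc] at hy ⊢
    omega
  · intro z _
    show z - k + k = z
    omega
  · intro y _
    show y + k - k = y
    omega
  · intro z _
    rw [hf]
    show W μ s η (a.1 + n, a.2 + k) M (z - k) * (Real.exp (h * ((z : ℝ) - σ * ((n + M : ℕ) : ℝ))) *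
      Real.exp (V μ s η (a.1 + ((n + M : ℕ) : ℤ), a.2 + z) L)) = Real.exp (h * ((k : ℝ) - σ * n)) *
      ((W μ s η (a.1 + n, a.2 + k) M (z - k) * Real.exp (h * (((z - k : ℤ) : ℝ) - σ * M))) *
      Real.exp (V μ s η (a.1 + n + M, a.2 + k + (z - k)) L))
    have e2 : Real.exp (h * ((z : ℝ) - σ * ((n + M : ℕ) : ℝ))) =
        Real.exp (h * ((k : ℝ) - σ * n)) * Real.exp (h * (((z - k : ℤ) : ℝ) - σ * M)) := by
      rw [← Real.exp_add]
      congr 1
      push_cast
      ring
    have e3 : ((a.1 + ((n + M : ℕ) : ℤ), a.2 + z) : Pt) = (a.1 + n + M, a.2 + k + (z - k)) := by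
      ext
      · show a.1 + ((n + M : ℕ) : ℤ) = a.1 + n + M
        push_cast
        ring
      · show a.2 + z = a.2 + k + (z - k)
        ring
    rw [e2, e3]
    ring

theorem TL8_sh (η : Env) (a c : Pt) (M L : ℕ) : TL8 μ s σ h M L (sh c η) a = TL8 μ s σ h M L η (a + c) := by
  unfold TL8
  congr 1
  refine Finset.sum_congr rfl fun y _ => ?_
  rw [W_sh, V_sh]
  have e : ((a.1 + M, a.2 + y) : Pt) + c = ((a + c).1 + M, (a + c).2 + y) := by
    ext
    · show a.1 + M + c.1 = a.1 + c.1 + M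
      ring
    · show a.2 + y + c.2 = a.2 + c.2 + y
      ring
  rw [e]

theorem TL8_dep (a : Pt) (M L : ℕ) (η η' : Env) (hh : ∀ p : Pt, a.1 < p.1 → η p = η' p) :
    TL8 μ s σ h M L η a = TL8 μ s σ h M L η' a := by
  unfold TL8
  congr 1
  refine Finset.sum_congr rfl fun y _ => ?_
  have h1 : W μ s η a M y = W μ s η' a M y := W_dep_rows (μ := μ) (s := s) a M y fun p hp => hh p hp.1
  have h2 : V μ s η (a.1 + M, a.2 + y) L = V μ s η' (a.1 + M, a.2 + y) L :=
    V_dep_rows (μ := μ) (s := s) (a.1 + M, a.2 + y) L fun p hp => hh p (by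
      have h3 : (a.1 + M : ℤ) < p.1 := hp.1
      have h4 : (0 : ℤ) ≤ M := by positivity
      linarith)
  rw [h1, h2]

variable [IsProbabilityMeasure μ]

theorem pl_sum8 {ι : Type*} {A : Finset ι} {f : ι → Env → ℝ} (hA : A.Nonempty) (hf : ∀ i ∈ A, Pl (law μ) (f i)) :
    Pl (law μ) fun η => ∑ i ∈ A, f i η := by
  classical
  induction hA using Finset.Nonempty.cons_induction with
  | singleton i =>
    have := hf i (Finset.mem_singleton_self i)
    simpa using this
  | cons i A hi _ ih =>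
    have h1 := hf i (Finset.mem_cons_self i A)
    have h2 := ih fun j hj => hf j (Finset.mem_cons_of_mem hj)
    have h3 := h1.add h2
    refine ⟨?_, ?_, ?_⟩
    · simpa only [Finset.sum_cons] using h3.meas
    · intro η
      rw [Finset.sum_cons]
      exact h3.pos η
    · simpa only [Finset.sum_cons] using h3.int

omit [IsProbabilityMeasure μ] in
theorem pl_mul8 {f g : Env → ℝ} (hf : Pl (law μ) f) (hg : Pl (law μ) g) : Pl (law μ) fun η => f η * g η where
  meas := hf.meas.mul hg.meas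
  pos := fun η => mul_pos (hf.pos η) (hg.pos η)
  int := by
    refine (hf.int.add hg.int).congr (ae_of_all _ fun η => ?_)
    simp only [Pi.add_apply]
    rw [Real.log_mul (hf.pos η).ne' (hg.pos η).ne']

theorem pl_W8 (hμ : EM μ) (a : Pt) {n : ℕ} {y : ℤ} (h0 : 0 ≤ y) (h1 : y ≤ n) : Pl (law μ) fun η => W μ s η a n y where
  meas := measurable_W a n y
  pos := fun η => W_pos η a h0 h1
  int := by
    have h2 : Integrable (fun η => X μ s η a n y) (law μ) := (Sub_X a h0 h1).integrable hμ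
    refine h2.neg.congr (ae_of_all _ fun η => ?_)
    simp [X]

omit [IsProbabilityMeasure μ] in
theorem pl_exp8 {f : Env → ℝ} (hm : Measurable f) (hi : Integrable f (law μ)) : Pl (law μ) fun η => Real.exp (f η) where
  meas := Real.measurable_exp.comp hm
  pos := fun η => Real.exp_pos _
  int := by simpa only [Real.log_exp] using hi

theorem pl_TL8 (hμ : EM μ) (a : Pt) (M L : ℕ) : Pl (law μ) fun η => Real.exp (TL8 μ s σ h M L η a) := by
  simp only [exp_TL8]
  refine pl_sum8 ⟨0, Finset.mem_Icc.2 ⟨le_rfl, by positivity⟩⟩ fun y hy => ?_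
  rw [Finset.mem_Icc] at hy
  have h1 := (pl_W8 (s := s) hμ a hy.1 hy.2).const_mul (Real.exp_pos (h * ((y : ℝ) - σ * M)))
  have h2 : Pl (law μ) fun η => W μ s η a M y * Real.exp (h * ((y : ℝ) - σ * M)) := by
    have e : (fun η => W μ s η a M y * Real.exp (h * ((y : ℝ) - σ * M))) = fun η => Real.exp (h * ((y : ℝ) - σ * M)) * W μ s η a M y := by
      funext η
      ring
    rw [e]
    exact h1
  exact pl_mul8 h2 (pl_exp8 (measurable_V _ _) ((Sub_V _ L).integrable hμ))

/-- The composite future is a future. -/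
theorem fu_TL8 (hμ : EM μ) (M L : ℕ) : Fu μ (TL8 μ s σ h M L) where
  meas := fun a => by
    have := Real.measurable_log.comp (pl_TL8 (s := s) (σ := σ) (h := h) hμ a M L).meas
    simpa only [Function.comp_def, Real.log_exp] using this
  int := fun a => by
    have := (pl_TL8 (s := s) (σ := σ) (h := h) hμ a M L).int
    simpa only [Real.log_exp] using this
  sh := fun η a c => TL8_sh η a c M L
  dep := fun a η η' hh => TL8_dep a M L η η' hh

end

end

end Pool.Agent.W_7d29a1_C1.H8
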