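import Pool.Agent.W_7d29a1_C1.HybD8
import Pool.Agent.W_7d29a1_C1.TL8

/-!
MP_7d29a1_pr, attractor route, the hybrids (helper8). Part F: the polymer with an arbitrary stationary future. The free energy of the
paths which are in the window `y₀, …, y₀ + k` at the time `n`, and which go on with the future `F`, against the masses of the window seen
through the Gaussian walk.
-/

set_option autoImplicit false

namespace Pool.Agent.W_7d29a1_C1.H8

open MeasureTheory ProbabilityTheory Set Finset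
open Pool.Agent.W_7d29a1_F
open Pool.Agent.W_7d29a1_L (T kap exp_T exp_T_add T_sh T_zero)
open Pool.Agent.W_7d29a1_h47 (EM)
open scoped ENNReal NNReal

noncomputable section

/-- The profile of a future. -/
def Pf8 (F : Env → Pt → ℝ) (j : ℕ) (η : Env) : ℝ := Real.exp (F η ((0 : ℤ), ((j : ℕ) : ℤ)))

/-- The masses of the window. -/
def qw (μ : Measure ℝ) (s σ h : ℝ) (n : ℕ) (y₀ : ℤ) (η : Env) (j : ℕ) : ℝ :=
  W μ s η 0 n (y₀ + ((j : ℕ) : ℤ)) * Real.exp (h * (((y₀ + ((j : ℕ) : ℤ) : ℤ) : ℝ) - σ * n))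

/-- The rows up to `n`. -/
def Pb (n : ℕ) : Set Pt := {p | p.1 ≤ n}

/-- The past `η` and the future `η'`. -/
def gb (n : ℕ) (η η' : Env) : Env := haveI := Classical.decPred (· ∈ Pb n); fun p => if p ∈ Pb n then η p else η' p

/-- The mean over the future only. -/
def innF (μ : Measure ℝ) (s σ h : ℝ) (F : Env → Pt → ℝ) (n : ℕ) (y₀ : ℤ) (k : ℕ) (η : Env) : ℝ :=
  ∫ η', Real.log (∑ j ∈ range (k + 1), qw μ s σ h n y₀ η j * Pf8 F j η') ∂(law μ)

variable {μ : Measure ℝ} {s σ h : ℝ} {F : Env → Pt → ℝ}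

theorem qw_pos {n : ℕ} {y₀ : ℤ} {k : ℕ} (h0 : 0 ≤ y₀) (h1 : y₀ + k ≤ n) (η : Env) {j : ℕ} (hj : j < k + 1) :
    0 < qw μ s σ h n y₀ η j := mul_pos (W_pos η 0 (by omega) (by omega)) (Real.exp_pos _)

theorem W_gb (n : ℕ) (y : ℤ) (η η' : Env) : W μ s (gb n η η') 0 n y = W μ s η 0 n y := by
  refine W_dep_rows (μ := μ) (s := s) 0 n y fun p hp => ?_
  have hp2 := hp.2
  unfold gb
  rw [if_pos (show p ∈ Pb n by
    show p.1 ≤ n
    simpa using hp2)]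

theorem F_gb (hF : Fu μ F) (n : ℕ) (y : ℤ) (η η' : Env) : F (gb n η η') ((n : ℤ), y) = F η' ((n : ℤ), y) := by
  refine hF.dep _ _ _ fun p hp => ?_
  unfold gb
  rw [if_neg (show p ∉ Pb n from fun hc => by
    have hc' : p.1 ≤ n := hc
    have hp1' : (n : ℤ) < p.1 := hp
    omega)]

theorem WF8_gb (hF : Fu μ F) (n : ℕ) (y₀ : ℤ) (k : ℕ) (η η' : Env) : WF8 μ s σ h F n y₀ k (gb n η η') =
    Real.log (∑ j ∈ range (k + 1), qw μ s σ h n y₀ η j * Real.exp (F η' ((n : ℤ), y₀ + ((j : ℕ) : ℤ)))) := by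
  unfold WF8 qw
  simp only [W_gb, F_gb hF]

variable [IsProbabilityMeasure μ]

omit [IsProbabilityMeasure μ] in
theorem pl_Pf8 (hF : Fu μ F) (j : ℕ) : Pl (law μ) (Pf8 F j) := pl_exp8 (hF.meas _) (hF.int _)

theorem stat_Pf8 (hF : Fu μ F) : Stat (law μ) (fun j => Pf8 F j) (sh ((0 : ℤ), (1 : ℤ))) where
  mp := mp_sh _
  eq := fun j η => by
    unfold Pf8
    rw [hF.sh]
    have e1 : ((0 : ℤ), ((j + 1 : ℕ) : ℤ)) = ((0 : ℤ), ((j : ℕ) : ℤ)) + ((0 : ℤ), (1 : ℤ)) := by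
      ext <;> simp
    rw [e1]

theorem int_sh8' (a : Pt) {f : Env → ℝ} (hf : Measurable f) : ∫ η, f (sh a η) ∂(law μ) = ∫ η, f η ∂(law μ) := by
  have h := mp_sh (μ := μ) a
  rw [← integral_map h.measurable.aemeasurable hf.aestronglyMeasurable, h.map_eq]

theorem F_mean (hF : Fu μ F) (a : Pt) : ∫ η, F η a ∂(law μ) = ∫ η, F η 0 ∂(law μ) := by
  have h1 := int_sh8' (μ := μ) a (f := fun η => F η 0) (hF.meas _)
  simp only [hF.sh, zero_add] at h1
  exact h1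

theorem pl_qw (hμ : EM μ) {n : ℕ} {y₀ : ℤ} {k : ℕ} (h0 : 0 ≤ y₀) (h1 : y₀ + k ≤ n) {j : ℕ} (hj : j < k + 1) :
    Pl (law μ) fun η => qw μ s σ h n y₀ η j := by
  have h2 := (pl_W8 (s := s) hμ 0 (y := y₀ + ((j : ℕ) : ℤ)) (n := n) (by omega) (by omega)).const_mul
    (Real.exp_pos (h * (((y₀ + ((j : ℕ) : ℤ) : ℤ) : ℝ) - σ * n)))
  have e : (fun η => qw μ s σ h n y₀ η j) = fun η =>
      Real.exp (h * (((y₀ + ((j : ℕ) : ℤ) : ℤ) : ℝ) - σ * n)) * W μ s η 0 n (y₀ + ((j : ℕ) : ℤ)) := by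
    funext η
    unfold qw
    ring
  rw [e]
  exact h2

theorem pl_WF8 (hμ : EM μ) (hF : Fu μ F) {n : ℕ} {y₀ : ℤ} {k : ℕ} (h0 : 0 ≤ y₀) (h1 : y₀ + k ≤ n) :
    Measurable (WF8 μ s σ h F n y₀ k) ∧ Integrable (WF8 μ s σ h F n y₀ k) (law μ) := by
  have hk := pl_sum8 (μ := μ) (A := range (k + 1)) (f := fun j η => qw μ s σ h n y₀ η j * Real.exp (F η ((n : ℤ), y₀ + ((j : ℕ) : ℤ))))
    ⟨0, Finset.mem_range.2 (by omega)⟩ fun j hj =>
      pl_mul8 (pl_qw (s := s) (σ := σ) (h := h) hμ h0 h1 (Finset.mem_range.1 hj)) (pl_exp8 (hF.meas _) (hF.int _))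
  exact ⟨Real.measurable_log.comp hk.meas, hk.int⟩

theorem innF_eq (hF : Fu μ F) {n : ℕ} {y₀ : ℤ} {k : ℕ} (η : Env) :
    ∫ η', WF8 μ s σ h F n y₀ k (gb n η η') ∂(law μ) = innF μ s σ h F n y₀ k η := by
  unfold innF
  simp only [WF8_gb hF]
  have hf : Measurable fun η' : Env => Real.log (∑ j ∈ range (k + 1), qw μ s σ h n y₀ η j * Pf8 F j η') :=
    Real.measurable_log.comp (Finset.measurable_sum _ fun j _ => (pl_Pf8 hF j).meas.const_mul _)
  have h1 := int_sh8' (μ := μ) ((n : ℤ), y₀) hf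
  rw [← h1]
  refine integral_congr_ae (ae_of_all _ fun η' => ?_)
  unfold Pf8
  simp only [hF.sh]
  congr 1
  refine Finset.sum_congr rfl fun j _ => ?_
  congr 3
  exact Prod.ext (by simp) (by simp; ring)

theorem int_innF (hμ : EM μ) (hF : Fu μ F) {n : ℕ} {y₀ : ℤ} {k : ℕ} (h0 : 0 ≤ y₀) (h1 : y₀ + k ≤ n) :
    Integrable (innF μ s σ h F n y₀ k) (law μ) ∧
      ∫ η, innF μ s σ h F n y₀ k η ∂(law μ) = ∫ η, WF8 μ s σ h F n y₀ k η ∂(law μ) := by
  obtain ⟨m1, i1⟩ := pl_WF8 (s := s) (σ := σ) (h := h) hμ hF h0 h1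
  have := Classical.decPred (· ∈ Pb n)
  obtain ⟨g1, g2, -⟩ := integral_glue (μ := μ) (Pb n) m1 i1
  have e : ∀ η, ∫ η', WF8 μ s σ h F n y₀ k (fun p => if p ∈ Pb n then η p else η' p) ∂(law μ) = innF μ s σ h F n y₀ k η := by
    intro η
    rw [← innF_eq hF]
    refine integral_congr_ae (ae_of_all _ fun η' => ?_)
    unfold gb
    congr!
  simp only [e] at g1 g2
  exact ⟨g2, g1.symm⟩

omit [IsProbabilityMeasure μ] in
theorem LG_qw (n : ℕ) (y₀ : ℤ) {k : ℕ} (h0 : 0 ≤ y₀) (h1 : y₀ + k ≤ n) (η : Env) (ξ : Fin k → ℝ) :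
    LG k 0 (fun i : Fin (k + 1) => qw μ s σ h n y₀ η i) ξ =
      LG k h (fun i : Fin (k + 1) => W μ s η 0 n (y₀ + ((i : ℕ) : ℤ))) ξ + h * ((y₀ : ℝ) - σ * n) := by
  unfold LG
  have e : ∑ i : Fin (k + 1), qw μ s σ h n y₀ η i * Real.exp (0 * ((i : ℕ) : ℝ) + wk k ξ i) =
      Real.exp (h * ((y₀ : ℝ) - σ * n)) *
        ∑ i : Fin (k + 1), W μ s η 0 n (y₀ + ((i : ℕ) : ℤ)) * Real.exp (h * ((i : ℕ) : ℝ) + wk k ξ i) := by
    rw [Finset.mul_sum]
    refine Finset.sum_congr rfl fun i _ => ?_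
    unfold qw
    have e1 : Real.exp (h * (((y₀ + ((i : ℕ) : ℤ) : ℤ) : ℝ) - σ * n)) * Real.exp (0 * ((i : ℕ) : ℝ) + wk k ξ i) =
        Real.exp (h * ((y₀ : ℝ) - σ * n)) * Real.exp (h * ((i : ℕ) : ℝ) + wk k ξ i) := by
      rw [← Real.exp_add, ← Real.exp_add]
      congr 1
      push_cast
      ring
    calc _ = W μ s η 0 n (y₀ + ((i : ℕ) : ℤ)) * (Real.exp (h * (((y₀ + ((i : ℕ) : ℤ) : ℤ) : ℝ) - σ * n)) *
          Real.exp (0 * ((i : ℕ) : ℝ) + wk k ξ i)) := by ring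
      _ = _ := by rw [e1]; ring
  have hpos : 0 < ∑ i : Fin (k + 1), W μ s η 0 n (y₀ + ((i : ℕ) : ℤ)) * Real.exp (h * ((i : ℕ) : ℝ) + wk k ξ i) :=
    Finset.sum_pos (fun i _ => mul_pos (W_pos η 0 (by omega) (by have := i.2; omega)) (Real.exp_pos _)) Finset.univ_nonempty
  rw [e, Real.log_mul (Real.exp_pos _).ne' hpos.ne', Real.log_exp]
  ring

theorem prod_LGF (hμ : EM μ) (v : ℝ≥0) {n : ℕ} {y₀ : ℤ} {k : ℕ} (h0 : 0 ≤ y₀) (h1 : y₀ + k ≤ n) :
    Integrable (fun z : (Fin k → ℝ) × Env => LG k h (fun i : Fin (k + 1) => W μ s z.2 0 n (y₀ + ((i : ℕ) : ℤ))) z.1)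
      ((gpi (Fin k) v).prod (law μ)) := by
  have hP : ∀ i : Fin (k + 1), Pl (law μ) fun η => W μ s η 0 n (y₀ + ((i : ℕ) : ℤ)) := fun i =>
    pl_W8 hμ 0 (by omega) (by have := i.2; omega)
  have hm := measurable_LG (m := k) (P := fun η (i : Fin (k + 1)) => W μ s η 0 n (y₀ + ((i : ℕ) : ℤ))) (fun i => (hP i).meas) h
  have hk := (pl_sum8 (μ := μ) (A := (Finset.univ : Finset (Fin (k + 1))))
    (f := fun i η => W μ s η 0 n (y₀ + ((i : ℕ) : ℤ)) * Real.exp (h * ((i : ℕ) : ℝ))) Finset.univ_nonempty fun i _ => by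
      have h2 := (hP i).const_mul (Real.exp_pos (h * ((i : ℕ) : ℝ)))
      have e : (fun η => W μ s η 0 n (y₀ + ((i : ℕ) : ℤ)) * Real.exp (h * ((i : ℕ) : ℝ))) = fun η =>
          Real.exp (h * ((i : ℕ) : ℝ)) * W μ s η 0 n (y₀ + ((i : ℕ) : ℤ)) := by
        funext η
        ring
      rw [e]
      exact h2).int
  have e0 : ∀ η, LG k h (fun i : Fin (k + 1) => W μ s η 0 n (y₀ + ((i : ℕ) : ℤ))) 0 =
      Real.log (∑ i : Fin (k + 1), W μ s η 0 n (y₀ + ((i : ℕ) : ℤ)) * Real.exp (h * ((i : ℕ) : ℝ))) := by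
    intro η
    unfold LG
    congr 1
    refine Finset.sum_congr rfl fun i _ => ?_
    congr 2
    have : wk k (0 : Fin k → ℝ) i = 0 := by
      unfold wk
      simp
    rw [this, add_zero]
  have i1 : Integrable (fun z : (Fin k → ℝ) × Env => |LG k h (fun i : Fin (k + 1) => W μ s z.2 0 n (y₀ + ((i : ℕ) : ℤ))) 0|)
      ((gpi (Fin k) v).prod (law μ)) := by
    have : Integrable (fun η => |LG k h (fun i : Fin (k + 1) => W μ s η 0 n (y₀ + ((i : ℕ) : ℤ))) 0|) (law μ) := by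
      simp only [e0]
      exact hk.abs
    exact this.comp_snd (gpi (Fin k) v)
  have i2 : Integrable (fun z : (Fin k → ℝ) × Env => ∑ i, |z.1 i|) ((gpi (Fin k) v).prod (law μ)) := by
    have : Integrable (fun ξ : Fin k → ℝ => ∑ i, |ξ i|) (gpi (Fin k) v) :=
      integrable_finsetSum _ fun i _ => gpi_eval k v i
    exact this.comp_fst (law μ)
  refine (i1.add i2).mono' hm.aestronglyMeasurable (ae_of_all _ fun z => ?_)
  rw [Real.norm_eq_abs]
  have h2 := LG_abs k h (p := fun i : Fin (k + 1) => W μ s z.2 0 n (y₀ + ((i : ℕ) : ℤ))) (fun i => ((hP i).pos z.2).le)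
    (Finset.sum_pos (fun i _ => (hP i).pos z.2) Finset.univ_nonempty) z.1 0
  have h3 := abs_sub_abs_le_abs_sub (LG k h (fun i : Fin (k + 1) => W μ s z.2 0 n (y₀ + ((i : ℕ) : ℤ))) z.1)
    (LG k h (fun i : Fin (k + 1) => W μ s z.2 0 n (y₀ + ((i : ℕ) : ℤ))) 0)
  simp only [Pi.zero_apply, sub_zero] at h2
  simp only [Pi.add_apply]
  linarith

/-- **THE HYBRIDS FOR THE POLYMER**, window form, any stationary future. -/
theorem hybF8 (hμ : EM μ) (hF : Fu μ F) {τ : ℝ} (hτ : 0 < τ) (v : ℝ≥0) {n : ℕ} {y₀ : ℤ} {k d : ℕ} {e₁ e₂ : ℝ} (he₂ : 0 ≤ e₂)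
    (h0 : 0 ≤ y₀) (h1 : y₀ + k ≤ n)
    (hLM : ∀ (k' : ℕ) (q : ℕ → ℝ), 1 ≤ k' → k' ≤ k → (∀ j, j < k' → 0 < q j) →
      LMs (law μ) (tri τ) v (fun j => Pf8 F j) k' q (e₁ + e₂ * NG (law μ) (fun j => Pf8 F j) k' q d)) :
    |(∫ η, WF8 μ s σ h F n y₀ k η ∂(law μ)) - (∫ η, F η 0 ∂(law μ)) - h * ((y₀ : ℝ) - σ * n) -
      Psi (law μ) k v (fun η i => W μ s η 0 n (y₀ + ((i : ℕ) : ℤ))) h| ≤
      4 * τ + k * (e₁ + gerr v (1 / τ ^ 2)) + e₂ * (d * (1 + ((∫ η, WF8 μ s σ h F n y₀ k η ∂(law μ)) -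
        (h * (((y₀ + k : ℤ) : ℝ) - σ * n) - ∫ η, X μ s η 0 n (y₀ + k) ∂(law μ)) - ∫ η, F η 0 ∂(law μ)))) := by
  obtain ⟨i1, e1⟩ := int_innF (s := s) (σ := σ) (h := h) hμ hF h0 h1
  have hXi : Integrable (fun η => X μ s η 0 n (y₀ + k)) (law μ) := (Sub_X 0 (by omega) h1).integrable hμ
  obtain ⟨G, hG⟩ : ∃ G : Env → ℝ, G = fun η => ∫ ξ, LG k h (fun i : Fin (k + 1) => W μ s η 0 n (y₀ + ((i : ℕ) : ℤ))) ξ ∂(gpi (Fin k) v) :=
    ⟨_, rfl⟩
  have hprod := prod_LGF (s := s) (h := h) hμ v h0 h1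
  have iG : Integrable G (law μ) := by
    rw [hG]
    exact hprod.integral_prod_right
  have eG : ∫ η, G η ∂(law μ) = Psi (law μ) k v (fun η i => W μ s η 0 n (y₀ + ((i : ℕ) : ℤ))) h := by
    rw [hG]
    unfold Psi
    exact (integral_integral_swap hprod).symm
  obtain ⟨ET, hET⟩ : ∃ ET : ℝ, ET = ∫ η, F η 0 ∂(law μ) := ⟨_, rfl⟩
  have hR0 : ∀ j : ℕ, ∫ η, Real.log (Pf8 F j η) ∂(law μ) = ET := by
    intro j
    unfold Pf8
    simp only [Real.log_exp]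
    rw [F_mean hF, hET]
  have key : ∀ η, |innF μ s σ h F n y₀ k η - ET - h * ((y₀ : ℝ) - σ * n) - G η| ≤
      4 * τ + k * (e₁ + gerr v (1 / τ ^ 2)) + e₂ * (d * (1 + (innF μ s σ h F n y₀ k η -
        (h * (((y₀ + k : ℤ) : ℝ) - σ * n) - X μ s η 0 n (y₀ + k)) - ET))) := by
    intro η
    have hp : ∀ j, j < k + 1 → 0 < qw μ s σ h n y₀ η j := fun j hj => qw_pos h0 h1 η hj
    have h2 := hyb8N hτ v (stat_Pf8 hF) (fun j => pl_Pf8 hF j) (k := k)
      (p := qw μ s σ h n y₀ η) (d := d) (e₁ := e₁) (e₂ := e₂) he₂ hp (fun z hz => by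
        refine hLM (k - z) (dr (z + 1) (qw μ s σ h n y₀ η)) (by omega) (by omega) fun j hj => ?_
        exact hp _ (by omega))
    have e2 : ∫ ξ, LG k 0 (fun i : Fin (k + 1) => qw μ s σ h n y₀ η i) ξ ∂(gpi (Fin k) v) = G η + h * ((y₀ : ℝ) - σ * n) := by
      rw [hG]
      have e3 : ∀ ξ, LG k 0 (fun i : Fin (k + 1) => qw μ s σ h n y₀ η i) ξ =
          LG k h (fun i : Fin (k + 1) => W μ s η 0 n (y₀ + ((i : ℕ) : ℤ))) ξ + h * ((y₀ : ℝ) - σ * n) := fun ξ =>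
        LG_qw n y₀ h0 h1 η ξ
      simp only [e3]
      have i4 : Integrable (fun ξ => LG k h (fun i : Fin (k + 1) => W μ s η 0 n (y₀ + ((i : ℕ) : ℤ))) ξ) (gpi (Fin k) v) := by
        have i5 := integrable_LG k v (p := fun i : Fin (k + 1) => qw μ s σ h n y₀ η i) (fun i => (hp i i.2).le)
          (Finset.sum_pos (fun i _ => hp i i.2) Finset.univ_nonempty)
        have i6 := i5.sub (integrable_const (h * ((y₀ : ℝ) - σ * n)))
        refine i6.congr (ae_of_all _ fun ξ => ?_)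
        simp only [Pi.sub_apply, e3]
        ring
      rw [integral_add i4 (integrable_const _)]
      simp
    have e4 : ∫ η', Real.log (qw μ s σ h n y₀ η k * Pf8 F k η') ∂(law μ) =
        (h * (((y₀ + k : ℤ) : ℝ) - σ * n) - X μ s η 0 n (y₀ + k)) + ET := by
      have e5 : ∀ η', Real.log (qw μ s σ h n y₀ η k * Pf8 F k η') =
          Real.log (qw μ s σ h n y₀ η k) + Real.log (Pf8 F k η') := fun η' =>
        Real.log_mul (hp k (by omega)).ne' ((pl_Pf8 hF k).pos η').ne'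
      simp only [e5]
      rw [integral_add (integrable_const _) (pl_Pf8 hF k).int, hR0]
      have e6 : Real.log (qw μ s σ h n y₀ η k) = h * (((y₀ + k : ℤ) : ℝ) - σ * n) - X μ s η 0 n (y₀ + k) := by
        unfold qw X
        rw [Real.log_mul (W_pos η 0 (by omega) (by omega)).ne' (Real.exp_pos _).ne', Real.log_exp]
        ring
      rw [e6]
      simp
    rw [hR0, e2, e4] at h2
    have e7 : innF μ s σ h F n y₀ k η = ∫ η', Real.log (∑ j ∈ range (k + 1), qw μ s σ h n y₀ η j * Pf8 F j η') ∂(law μ) := rfl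
    rw [e7]
    refine le_trans (le_of_eq ?_) (h2.trans (le_of_eq ?_))
    · congr 1
      ring
    · ring
  rw [← e1, ← eG, ← hET]
  have j1 : Integrable (fun η => innF μ s σ h F n y₀ k η - ET - h * ((y₀ : ℝ) - σ * n) - G η) (law μ) :=
    ((i1.sub (integrable_const _)).sub (integrable_const _)).sub iG
  have j2 : Integrable (fun η => 4 * τ + k * (e₁ + gerr v (1 / τ ^ 2)) + e₂ * (d * (1 + (innF μ s σ h F n y₀ k η -
        (h * (((y₀ + k : ℤ) : ℝ) - σ * n) - X μ s η 0 n (y₀ + k)) - ET)))) (law μ) := by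
    refine (integrable_const _).add (((((integrable_const _).add ((i1.sub ((integrable_const _).sub hXi)).sub (integrable_const _))).const_mul _)).const_mul _)
  have h3 : |∫ η, (innF μ s σ h F n y₀ k η - ET - h * ((y₀ : ℝ) - σ * n) - G η) ∂(law μ)| ≤
      ∫ η, (4 * τ + k * (e₁ + gerr v (1 / τ ^ 2)) + e₂ * (d * (1 + (innF μ s σ h F n y₀ k η -
        (h * (((y₀ + k : ℤ) : ℝ) - σ * n) - X μ s η 0 n (y₀ + k)) - ET)))) ∂(law μ) :=
    abs_integral_le_integral_abs.trans (integral_mono j1.abs j2 key)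
  have e8 : ∫ η, (innF μ s σ h F n y₀ k η - ET - h * ((y₀ : ℝ) - σ * n) - G η) ∂(law μ) =
      (∫ η, innF μ s σ h F n y₀ k η ∂(law μ)) - ET - h * ((y₀ : ℝ) - σ * n) - ∫ η, G η ∂(law μ) := by
    have k1 : Integrable (fun η => innF μ s σ h F n y₀ k η - ET) (law μ) := i1.sub (integrable_const _)
    have k2 : Integrable (fun η => innF μ s σ h F n y₀ k η - ET - h * ((y₀ : ℝ) - σ * n)) (law μ) := k1.sub (integrable_const _)
    rw [integral_sub k2 iG, integral_sub k1 (integrable_const _), integral_sub i1 (integrable_const _)]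
    simp
  have e9 : ∫ η, (4 * τ + k * (e₁ + gerr v (1 / τ ^ 2)) + e₂ * (d * (1 + (innF μ s σ h F n y₀ k η -
        (h * (((y₀ + k : ℤ) : ℝ) - σ * n) - X μ s η 0 n (y₀ + k)) - ET)))) ∂(law μ) =
      4 * τ + k * (e₁ + gerr v (1 / τ ^ 2)) + e₂ * (d * (1 + ((∫ η, innF μ s σ h F n y₀ k η ∂(law μ)) -
        (h * (((y₀ + k : ℤ) : ℝ) - σ * n) - ∫ η, X μ s η 0 n (y₀ + k) ∂(law μ)) - ET))) := by
    have k0 : Integrable (fun η => h * (((y₀ + k : ℤ) : ℝ) - σ * n) - X μ s η 0 n (y₀ + k)) (law μ) := (integrable_const _).sub hXi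
    have k1 : Integrable (fun η => innF μ s σ h F n y₀ k η - (h * (((y₀ + k : ℤ) : ℝ) - σ * n) - X μ s η 0 n (y₀ + k))) (law μ) := i1.sub k0
    have k2 : Integrable (fun η => innF μ s σ h F n y₀ k η - (h * (((y₀ + k : ℤ) : ℝ) - σ * n) - X μ s η 0 n (y₀ + k)) - ET) (law μ) :=
      k1.sub (integrable_const _)
    have k3 : Integrable (fun η => 1 + (innF μ s σ h F n y₀ k η - (h * (((y₀ + k : ℤ) : ℝ) - σ * n) - X μ s η 0 n (y₀ + k)) - ET)) (law μ) :=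
      (integrable_const _).add k2
    rw [integral_add (integrable_const _) ((k3.const_mul _).const_mul _), integral_const_mul, integral_const_mul,
      integral_add (integrable_const _) k2, integral_sub k1 (integrable_const _), integral_sub i1 k0,
      integral_sub (integrable_const _) hXi]
    simp
  rw [e8, e9] at h3
  exact h3

end

end Pool.Agent.W_7d29a1_C1.H8
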