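import Pool.Agent.W_7d29a1_C1.ContrP91
import Pool.Agent.W_7d29a1_C1.Lev91

/-!
MP_7d29a1_pr, the attractor route: THE LEVEL IS THE EXACT COORDINATE, with a weight `p k` of the step `1` which depends on the row.
The statements of Lev91 for the objects of K91P. (helper91)
-/

set_option autoImplicit false

namespace Pool.Agent.W_7d29a1_C1.K91P

open Finset
open Pool.Agent.W_7d29a1_C1.K91 (Grp Box cut cut_pos sum_shift zs zs_mix dl jn jn_nonneg jn_le shw jn_smul zs_smul cut_smul div_smul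
  lev lev' hasDerivAt_lev exp_lev lev_inj lev_range int_lev)

noncomputable section


variable {w : ℕ → ℤ → ℝ} {p : ℕ → ℝ}

theorem fw_lin (f1 f2 : ℤ → ℝ) (a b : ℝ) : ∀ (k : ℕ) (y : ℤ),
    fw w p (fun y => a * f1 y + b * f2 y) k y = a * fw w p f1 k y + b * fw w p f2 k y
  | 0, _ => rfl
  | k + 1, y => by
    rw [fw_succ, fw_succ, fw_succ, fw_lin f1 f2 a b k y, fw_lin f1 f2 a b k (y - 1)]
    ring

theorem fw_smul (f1 : ℤ → ℝ) (a : ℝ) (k : ℕ) (y : ℤ) : fw w p (fun y => a * f1 y) k y = a * fw w p f1 k y := by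
  have h := fw_lin (w := w) (p := p) f1 f1 a 0 k y
  simp only [zero_mul, add_zero] at h
  exact h

/-- The step weights from the row `i1` on. -/
def shp (p : ℕ → ℝ) (i1 k : ℕ) : ℝ := p (i1 + k)

theorem fw_comp (l : ℤ → ℝ) (i1 : ℕ) : ∀ (k : ℕ) (y : ℤ), fw w p l (i1 + k) y = fw (shw w i1) (shp p i1) (fw w p l i1) k y
  | 0, _ => rfl
  | k + 1, y => by
    have e : i1 + (k + 1) = (i1 + k) + 1 := by ring
    rw [e, fw_succ, fw_succ, fw_comp l i1 k y, fw_comp l i1 k (y - 1)]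
    rfl

theorem bw_comp (i1 : ℕ) : ∀ (j k : ℕ) (y : ℤ), bw w p (i1 + k) j y = bw (shw w i1) (shp p i1) k j y
  | 0, k, y => by rw [bw_zero, bw_zero]
  | j + 1, k, y => by
    rw [bw_succ, bw_succ, add_assoc, bw_comp i1 j (k + 1) y, bw_comp i1 j (k + 1) (y + 1)]
    rfl

theorem mm_comp (l r : ℤ → ℝ) (i1 k : ℕ) (y : ℤ) :
    mm w p l r (i1 + k) y = mm (shw w i1) (shp p i1) (fw w p l i1) (fw w p r i1) k y := by
  unfold mm
  rw [fw_comp, fw_comp]

/-- The determinant of the two groups at the neighbours of the cut. -/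
def dt (w : ℕ → ℤ → ℝ) (p : ℕ → ℝ) (l r : ℤ → ℝ) (k : ℕ) (q : ℤ) : ℝ :=
  fw w p l k (q - 1) * fw w p r k q - fw w p l k q * fw w p r k (q - 1)

theorem dt_comp (l r : ℤ → ℝ) (i1 k : ℕ) (q : ℤ) :
    dt w p l r (i1 + k) q = dt (shw w i1) (shp p i1) (fw w p l i1) (fw w p r i1) k q := by
  unfold dt
  rw [fw_comp, fw_comp, fw_comp, fw_comp]

/-- The determinant is multiplicative. -/
theorem dt_lin (f1 f2 : ℤ → ℝ) (A1 A2 B1 B2 : ℝ) (k : ℕ) (q : ℤ) :
    dt w p (fun y => A1 * f1 y + A2 * f2 y) (fun y => B1 * f1 y + B2 * f2 y) k q =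
      (A1 * B2 - A2 * B1) * dt w p f1 f2 k q := by
  unfold dt
  rw [fw_lin, fw_lin, fw_lin, fw_lin]
  ring

/-! ### The functionals of the total mass -/

/-- The gain as a functional of the total mass. -/
def gM (w : ℕ → ℤ → ℝ) (p : ℕ → ℝ) (m : ℤ → ℝ) (lo hi : ℤ) (N k : ℕ) (q : ℤ) : ℝ :=
  jn (m (q - 1) / (m (q - 1) + m q))
    (zs (Icc lo hi) m (w k) (GG w p N k) q + m q * (w k (q - 1) - w k q) * GG w p N k (q - 1))
    (zs (Icc lo hi) m (w k) (GG w p N k) q + m (q - 1) * (w k q - w k (q - 1)) * GG w p N k (q - 1))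

/-- The loss as a functional of the total mass. -/
def lM (w : ℕ → ℤ → ℝ) (p : ℕ → ℝ) (m : ℤ → ℝ) (lo hi : ℤ) (N k : ℕ) (q : ℤ) : ℝ :=
  jn (p k * (w k (q - 1) * m (q - 1)) / (w k q * m q + p k * (w k (q - 1) * m (q - 1))))
    (cut (Icc lo hi) (fun y => w k y * m y + p k * (w k (y - 1) * m (y - 1))) (bw w p (k + 1) (N - (k + 1))) (q + 1))
    (cut (Icc lo hi) (fun y => w k y * m y + p k * (w k (y - 1) * m (y - 1))) (bw w p (k + 1) (N - (k + 1))) q)

theorem jg_gM (l r : ℤ → ℝ) (lo hi : ℤ) (N k : ℕ) (q : ℤ) : jg w p l r lo hi N k q = gM w p (mm w p l r k) lo hi N k q := rfl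

theorem JG_lM (l r : ℤ → ℝ) (lo hi : ℤ) (N k : ℕ) (q : ℤ) : JG w p l r lo hi N k q = lM w p (mm w p l r k) lo hi N k q := by
  have e : (fun y => w k y * mm w p l r k y + p k * (w k (y - 1) * mm w p l r k (y - 1))) = mm w p l r (k + 1) :=
    funext fun y => (mm_succ k y).symm
  unfold JG lM th TT
  rw [e]
  have e2 : w k q * mm w p l r k q + p k * (w k (q - 1) * mm w p l r k (q - 1)) = mm w p l r (k + 1) q := (mm_succ k q).symm
  rw [e2]
  rfl

theorem gM_smul {c : ℝ} (hc : 0 < c) {m : ℤ → ℝ} {lo hi : ℤ} {N k : ℕ} {q : ℤ} (hm : ∀ y, 0 ≤ m y)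
    (h1 : 0 < zs (Icc lo hi) m (w k) (GG w p N k) q + m q * (w k (q - 1) - w k q) * GG w p N k (q - 1))
    (h2 : 0 < zs (Icc lo hi) m (w k) (GG w p N k) q + m (q - 1) * (w k q - w k (q - 1)) * GG w p N k (q - 1)) :
    gM w p (fun y => c * m y) lo hi N k q = gM w p m lo hi N k q := by
  unfold gM
  rw [zs_smul]
  have e1 : c * m (q - 1) / (c * m (q - 1) + c * m q) = m (q - 1) / (m (q - 1) + m q) := by
    rw [← mul_add, div_smul hc]
  have e2 : c * zs (Icc lo hi) m (w k) (GG w p N k) q + c * m q * (w k (q - 1) - w k q) * GG w p N k (q - 1) =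
      c * (zs (Icc lo hi) m (w k) (GG w p N k) q + m q * (w k (q - 1) - w k q) * GG w p N k (q - 1)) := by ring
  have e3 : c * zs (Icc lo hi) m (w k) (GG w p N k) q + c * m (q - 1) * (w k q - w k (q - 1)) * GG w p N k (q - 1) =
      c * (zs (Icc lo hi) m (w k) (GG w p N k) q + m (q - 1) * (w k q - w k (q - 1)) * GG w p N k (q - 1)) := by ring
  rw [e1, e2, e3]
  have h3 := hm q
  have h4 := hm (q - 1)
  exact jn_smul hc (by positivity) (div_le_one_of_le₀ (by linarith) (by positivity)) h1 h2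

theorem lM_smul (hw : ∀ k y, 0 < w k y) (hp : ∀ k, 0 < p k) {c : ℝ} (hc : 0 < c) {m : ℤ → ℝ} {lo hi : ℤ} {N k : ℕ} {q : ℤ}
    (hm : ∀ y, 0 ≤ m y)
    (h1 : 0 < cut (Icc lo hi) (fun y => w k y * m y + p k * (w k (y - 1) * m (y - 1))) (bw w p (k + 1) (N - (k + 1))) (q + 1))
    (h2 : 0 < cut (Icc lo hi) (fun y => w k y * m y + p k * (w k (y - 1) * m (y - 1))) (bw w p (k + 1) (N - (k + 1))) q) :
    lM w p (fun y => c * m y) lo hi N k q = lM w p m lo hi N k q := by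
  unfold lM
  have e0 : (fun y => w k y * (c * m y) + p k * (w k (y - 1) * (c * m (y - 1)))) =
      fun y => c * (w k y * m y + p k * (w k (y - 1) * m (y - 1))) := funext fun y => by ring
  have e1 : p k * (w k (q - 1) * (c * m (q - 1))) / (w k q * (c * m q) + p k * (w k (q - 1) * (c * m (q - 1)))) =
      p k * (w k (q - 1) * m (q - 1)) / (w k q * m q + p k * (w k (q - 1) * m (q - 1))) := by
    have a1 : p k * (w k (q - 1) * (c * m (q - 1))) = c * (p k * (w k (q - 1) * m (q - 1))) := by ring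
    have a2 : w k q * (c * m q) + p k * (w k (q - 1) * (c * m (q - 1))) =
        c * (w k q * m q + p k * (w k (q - 1) * m (q - 1))) := by ring
    rw [a2, a1, div_smul hc]
  rw [e0, cut_smul, cut_smul, e1]
  have h3 := hm q
  have h4 := hm (q - 1)
  have h5 := hw k q
  have h6 := hw k (q - 1)
  have h7 : 0 ≤ w k q * m q := by positivity
  exact jn_smul hc (by have hpk := hp k; positivity) (div_le_one_of_le₀ (by linarith) (by have hpk := hp k; positivity)) h1 h2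

/-! ### The level -/

variable {l r f1 f2 : ℤ → ℝ} {A1 A2 B1 B2 : ℝ} {i1 : ℕ}

/-- The total mass inside. -/
theorem mm_lev (hl : ∀ y, fw w p l i1 y = A1 * f1 y + A2 * f2 y) (hr : ∀ y, fw w p r i1 y = B1 * f1 y + B2 * f2 y)
    {a : ℝ} (h1 : 0 < A1 + Real.exp (-a) * B1) (h2 : 0 < A2 + Real.exp (-a) * B2) (j : ℕ) (y : ℤ) :
    mm w p l (fun z => Real.exp (-a) * r z) (i1 + j) y =
      (A1 + Real.exp (-a) * B1) *
        mm (shw w i1) (shp p i1) f1 (fun z => Real.exp (-(lev A1 A2 B1 B2 a)) * f2 z) j y := by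
  have e1 : fw w p l i1 = fun y => A1 * f1 y + A2 * f2 y := funext hl
  have e2 : fw w p r i1 = fun y => B1 * f1 y + B2 * f2 y := funext hr
  unfold mm
  rw [fw_smul, fw_smul, fw_comp, fw_comp, e1, e2, fw_lin, fw_lin, exp_lev h1 h2]
  field_simp
  ring

theorem dt_smul (l r : ℤ → ℝ) (c : ℝ) (k : ℕ) (q : ℤ) : dt w p l (fun z => c * r z) k q = c * dt w p l r k q := by
  unfold dt
  rw [fw_smul, fw_smul]
  ring

theorem rho_eq (l r : ℤ → ℝ) (X : ℤ) {k : ℕ} {q : ℤ} (h1 : mm w p l r k (q - 1) ≠ 0) (h2 : mm w p l r k q ≠ 0) :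
    rho w p l r X k q = dt w p l r k q / (mm w p l r k (q - 1) * mm w p l r k q) := by
  have h3 : fw w p l k (q - 1) + fw w p r k (q - 1) ≠ 0 := h1
  have h4 : fw w p l k q + fw w p r k q ≠ 0 := h2
  unfold rho Fk
  rw [if_neg h3, if_neg h4]
  unfold dt mm
  rw [div_sub_div _ _ h3 h4]
  congr 1
  ring

/-- **The law of the interface, `rho da = rho' da'`**. -/
theorem rho_lev (hl : ∀ y, fw w p l i1 y = A1 * f1 y + A2 * f2 y) (hr : ∀ y, fw w p r i1 y = B1 * f1 y + B2 * f2 y)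
    {a : ℝ} (h1 : 0 < A1 + Real.exp (-a) * B1) (h2 : 0 < A2 + Real.exp (-a) * B2) (X X' : ℤ) (j : ℕ) (q : ℤ)
    (m1 : mm (shw w i1) (shp p i1) f1 (fun z => Real.exp (-(lev A1 A2 B1 B2 a)) * f2 z) j (q - 1) ≠ 0)
    (m2 : mm (shw w i1) (shp p i1) f1 (fun z => Real.exp (-(lev A1 A2 B1 B2 a)) * f2 z) j q ≠ 0) :
    rho w p l (fun z => Real.exp (-a) * r z) X (i1 + j) q =
      lev' A1 A2 B1 B2 a * rho (shw w i1) (shp p i1) f1 (fun z => Real.exp (-(lev A1 A2 B1 B2 a)) * f2 z) X' j q := by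
  have e1 : fw w p l i1 = fun y => A1 * f1 y + A2 * f2 y := funext hl
  have e2 : fw w p r i1 = fun y => B1 * f1 y + B2 * f2 y := funext hr
  have g1 := mm_lev hl hr h1 h2 j (q - 1)
  have g2 := mm_lev hl hr h1 h2 j q
  rw [rho_eq l _ X (by rw [g1]; exact mul_ne_zero h1.ne' m1) (by rw [g2]; exact mul_ne_zero h1.ne' m2),
    rho_eq f1 _ X' m1 m2, g1, g2, dt_smul, dt_smul, dt_comp, e1, e2, dt_lin, exp_lev h1 h2]
  unfold lev'
  rw [exp_lev h1 h2] at m1 m2
  field_simp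

/-- The gain inside. -/
theorem jg_lev (hw : ∀ k y, 0 < w k y) (hp : ∀ k, 0 < p k) (hl : ∀ y, fw w p l i1 y = A1 * f1 y + A2 * f2 y)
    (hr : ∀ y, fw w p r i1 y = B1 * f1 y + B2 * f2 y) {X lo hi : ℤ} {N j : ℕ} {a : ℝ}
    (hB : Box l (fun z => Real.exp (-a) * r z) X lo hi N)
    (h1 : 0 < A1 + Real.exp (-a) * B1) (h2 : 0 < A2 + Real.exp (-a) * B2) {q : ℤ}
    (hk : i1 + j < N) (hq : q ∈ Icc X (X + N)) :
    jg w p l (fun z => Real.exp (-a) * r z) lo hi N (i1 + j) q =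
      gM w p (mm (shw w i1) (shp p i1) f1 (fun z => Real.exp (-(lev A1 A2 B1 B2 a)) * f2 z) j) lo hi N (i1 + j) q := by
  have hc : 0 < (A1 + Real.exp (-a) * B1)⁻¹ := inv_pos.2 h1
  have e : mm (shw w i1) (shp p i1) f1 (fun z => Real.exp (-(lev A1 A2 B1 B2 a)) * f2 z) j =
      fun y => (A1 + Real.exp (-a) * B1)⁻¹ * mm w p l (fun z => Real.exp (-a) * r z) (i1 + j) y := by
    funext y
    rw [mm_lev hl hr h1 h2 j y, inv_mul_cancel_left₀ h1.ne']
  rw [e, jg_gM]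
  exact (gM_smul hc (mm_nonneg hw hp hB.g (i1 + j)) (Y1_pos hw hp hB hk hq) (Y2_pos hw hp hB hk hq)).symm

/-- The loss inside. -/
theorem JG_lev (hw : ∀ k y, 0 < w k y) (hp : ∀ k, 0 < p k) (hl : ∀ y, fw w p l i1 y = A1 * f1 y + A2 * f2 y)
    (hr : ∀ y, fw w p r i1 y = B1 * f1 y + B2 * f2 y) {X lo hi : ℤ} {N j : ℕ} {a : ℝ}
    (hB : Box l (fun z => Real.exp (-a) * r z) X lo hi N)
    (h1 : 0 < A1 + Real.exp (-a) * B1) (h2 : 0 < A2 + Real.exp (-a) * B2) {q : ℤ} :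
    JG w p l (fun z => Real.exp (-a) * r z) lo hi N (i1 + j) q =
      lM w p (mm (shw w i1) (shp p i1) f1 (fun z => Real.exp (-(lev A1 A2 B1 B2 a)) * f2 z) j) lo hi N (i1 + j) q := by
  have hc : 0 < (A1 + Real.exp (-a) * B1)⁻¹ := inv_pos.2 h1
  have e : mm (shw w i1) (shp p i1) f1 (fun z => Real.exp (-(lev A1 A2 B1 B2 a)) * f2 z) j =
      fun y => (A1 + Real.exp (-a) * B1)⁻¹ * mm w p l (fun z => Real.exp (-a) * r z) (i1 + j) y := by
    funext y
    rw [mm_lev hl hr h1 h2 j y, inv_mul_cancel_left₀ h1.ne']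
  have e0 : (fun y => w (i1 + j) y * mm w p l (fun z => Real.exp (-a) * r z) (i1 + j) y +
      p (i1 + j) * (w (i1 + j) (y - 1) * mm w p l (fun z => Real.exp (-a) * r z) (i1 + j) (y - 1))) =
      mm w p l (fun z => Real.exp (-a) * r z) (i1 + j + 1) := funext fun y => (mm_succ (i1 + j) y).symm
  rw [e, JG_lM]
  refine (lM_smul hw hp hc (mm_nonneg hw hp hB.g (i1 + j)) ?_ ?_).symm
  · rw [e0]
    exact TT_pos hw hp hB (i1 + j + 1) (q + 1)
  · rw [e0]
    exact TT_pos hw hp hB (i1 + j + 1) q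

/-! ### The window -/

end

end Pool.Agent.W_7d29a1_C1.K91P
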