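import Pool.Agent.W_7d29a1_C1.ContrEP91
import Pool.Agent.W_7d29a1_C1.LevP91
import Pool.Agent.W_7d29a1_C1.HybF8

/-!
MP_7d29a1_pr, attractor route (helper8): the bridge from the comparison of the gap `1` and the gap `0` (`LMs`) for the composite future
to the exact contraction identity `contr91P` (helper91).
-/

set_option autoImplicit false

namespace Pool.Agent.W_7d29a1_C1.H8

open MeasureTheory ProbabilityTheory Set Finset
open Pool.Agent.W_7d29a1_F
open Pool.Agent.W_7d29a1_h47 (EM)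
open Pool.Agent.W_7d29a1_C1.K91 (Grp Box wt wt_pos measurable_wt rowD mp_rowD wt_rowD Mb int_Mb wt_Mb past abs_log_mix)
open Pool.Agent.W_7d29a1_C1.K91P
open scoped ENNReal NNReal

noncomputable section

/-- The step weights: the force `h` acts on the rows `< M`. -/
def ps8 (s h : ℝ) (M i : ℕ) : ℝ := if i < M then Real.exp (s + h) else Real.exp s

theorem ps8_pos (s h : ℝ) (M i : ℕ) : 0 < ps8 s h M i := by
  unfold ps8
  split_ifs <;> exact Real.exp_pos _

/-! ### The profile is the backward mass -/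

variable {μ : Measure ℝ} {s σ h : ℝ}

theorem W_one0 (η : Env) (a : Pt) : W μ s η a 1 0 = Real.exp (-lam μ s) * Real.exp (η (a.1 + 1, a.2)) := by
  unfold W WR Zr Zr
  simp

theorem W_one1 (η : Env) (a : Pt) : W μ s η a 1 1 = Real.exp (s - lam μ s) * Real.exp (η (a.1 + 1, a.2 + 1)) := by
  unfold W WR Zr Zr
  simp

theorem Icc01 : Finset.Icc (0 : ℤ) ((1 : ℕ) : ℤ) = {0, 1} := by
  ext y
  simp only [Finset.mem_Icc, Finset.mem_insert, Finset.mem_singleton]
  push_cast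
  omega

theorem exp_V_one (η : Env) (i j : ℕ) (y : ℤ) : Real.exp (lam μ s) * Real.exp (V μ s η ((i : ℤ), y) (j + 1)) =
    wt η (i + 1) y * Real.exp (V μ s η (((i + 1 : ℕ) : ℤ), y) j) +
      Real.exp s * (wt η (i + 1) (y + 1) * Real.exp (V μ s η (((i + 1 : ℕ) : ℤ), y + 1) j)) := by
  have h1 := exp_V_add (μ := μ) (s := s) η ((i : ℤ), y) 1 j
  rw [show 1 + j = j + 1 by ring, Icc01, Finset.sum_pair (by norm_num), W_one0, W_one1] at h1
  rw [h1]
  have e1 : wt η (i + 1) y = Real.exp (η ((i : ℤ) + 1, y)) := by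
    unfold wt
    rw [if_neg (by omega)]
    push_cast
    rfl
  have e2 : wt η (i + 1) (y + 1) = Real.exp (η ((i : ℤ) + 1, y + 1)) := by
    unfold wt
    rw [if_neg (by omega)]
    push_cast
    rfl
  have e3 : Real.exp (lam μ s) * Real.exp (-lam μ s) = 1 := by rw [← Real.exp_add]; simp
  have e4 : Real.exp (lam μ s) * Real.exp (s - lam μ s) = Real.exp s := by rw [← Real.exp_add]; ring_nf
  rw [e1, e2]
  simp only [Nat.cast_one, add_zero]
  push_cast
  rw [mul_add]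
  have f1 : Real.exp (lam μ s) * (Real.exp (-lam μ s) * Real.exp (η ((i : ℤ) + 1, y)) * Real.exp (V μ s η ((i : ℤ) + 1, y) j)) =
      (Real.exp (lam μ s) * Real.exp (-lam μ s)) * (Real.exp (η ((i : ℤ) + 1, y)) * Real.exp (V μ s η ((i : ℤ) + 1, y) j)) := by ring
  have f2 : Real.exp (lam μ s) * (Real.exp (s - lam μ s) * Real.exp (η ((i : ℤ) + 1, y + 1)) * Real.exp (V μ s η ((i : ℤ) + 1, y + 1) j)) =
      (Real.exp (lam μ s) * Real.exp (s - lam μ s)) * (Real.exp (η ((i : ℤ) + 1, y + 1)) * Real.exp (V μ s η ((i : ℤ) + 1, y + 1) j)) := by ring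
  rw [f1, f2, e3, e4, one_mul]

/-- Rows without the force. -/
theorem bw_V8 (η : Env) {M : ℕ} : ∀ (j i : ℕ), M ≤ i → ∀ y : ℤ, bw (wt η) (ps8 s h M) i (j + 1) y =
    wt η i y * ((1 + ps8 s h M (i + j)) * Real.exp (j * lam μ s) * Real.exp (V μ s η ((i : ℤ), y) j))
  | 0, i, _, y => by
    rw [bw_succ, bw_zero, bw_zero, V_zero]
    simp
  | j + 1, i, hi, y => by
    have i1 := bw_V8 η (M := M) j (i + 1) (by omega) y
    have i2 := bw_V8 η (M := M) j (i + 1) (by omega) (y + 1)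
    have hp : ps8 s h M i = Real.exp s := by
      unfold ps8
      rw [if_neg (by omega)]
    have h1 := exp_V_one (μ := μ) (s := s) η i j y
    rw [bw_succ, i1, i2, hp, show i + 1 + j = i + (j + 1) by ring]
    have e1 : Real.exp (((j + 1 : ℕ) : ℝ) * lam μ s) = Real.exp (j * lam μ s) * Real.exp (lam μ s) := by
      rw [← Real.exp_add]
      congr 1
      push_cast
      ring
    rw [e1]
    calc wt η i y * (wt η (i + 1) y * ((1 + ps8 s h M (i + (j + 1))) * Real.exp (j * lam μ s) *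
          Real.exp (V μ s η (((i + 1 : ℕ) : ℤ), y) j)) + Real.exp s * (wt η (i + 1) (y + 1) *
          ((1 + ps8 s h M (i + (j + 1))) * Real.exp (j * lam μ s) * Real.exp (V μ s η (((i + 1 : ℕ) : ℤ), y + 1) j))))
        = wt η i y * ((1 + ps8 s h M (i + (j + 1))) * Real.exp (j * lam μ s) *
          (wt η (i + 1) y * Real.exp (V μ s η (((i + 1 : ℕ) : ℤ), y) j) +
            Real.exp s * (wt η (i + 1) (y + 1) * Real.exp (V μ s η (((i + 1 : ℕ) : ℤ), y + 1) j)))) := by ring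
      _ = _ := by
        rw [← h1]
        ring

theorem exp_TL_one (η : Env) (i m L : ℕ) (y : ℤ) :
    Real.exp (lam μ s + h * σ) * Real.exp (TL8 μ s σ h (m + 1) L η ((i : ℤ), y)) =
    wt η (i + 1) y * Real.exp (TL8 μ s σ h m L η (((i + 1 : ℕ) : ℤ), y)) +
      Real.exp (s + h) * (wt η (i + 1) (y + 1) * Real.exp (TL8 μ s σ h m L η (((i + 1 : ℕ) : ℤ), y + 1))) := by
  have h1 := exp_TL8_add (μ := μ) (s := s) (σ := σ) (h := h) η ((i : ℤ), y) 1 m L
  rw [show 1 + m = m + 1 by ring, Icc01, Finset.sum_pair (by norm_num), W_one0, W_one1] at h1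
  rw [h1]
  have e1 : wt η (i + 1) y = Real.exp (η ((i : ℤ) + 1, y)) := by
    unfold wt
    rw [if_neg (by omega)]
    push_cast
    rfl
  have e2 : wt η (i + 1) (y + 1) = Real.exp (η ((i : ℤ) + 1, y + 1)) := by
    unfold wt
    rw [if_neg (by omega)]
    push_cast
    rfl
  have e3 : Real.exp (lam μ s + h * σ) * (Real.exp (-lam μ s) * Real.exp (h * (((0 : ℤ) : ℝ) - σ * ((1 : ℕ) : ℝ)))) = 1 := by
    rw [← Real.exp_add, ← Real.exp_add]
    push_cast
    ring_nf
    simp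
  have e4 : Real.exp (lam μ s + h * σ) * (Real.exp (s - lam μ s) * Real.exp (h * (((1 : ℤ) : ℝ) - σ * ((1 : ℕ) : ℝ)))) = Real.exp (s + h) := by
    rw [← Real.exp_add, ← Real.exp_add]
    push_cast
    ring_nf
  rw [e1, e2]
  have e5 : (((i : ℤ), y).1 + ((1 : ℕ) : ℤ), ((i : ℤ), y).2 + 0) = ((((i + 1 : ℕ) : ℤ), y) : Pt) := by
    ext <;> simp
  have e6 : (((i : ℤ), y).1 + ((1 : ℕ) : ℤ), ((i : ℤ), y).2 + 1) = ((((i + 1 : ℕ) : ℤ), y + 1) : Pt) := by
    ext <;> simp
  rw [e5, e6]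
  show Real.exp (lam μ s + h * σ) * (Real.exp (-lam μ s) * Real.exp (η ((i : ℤ) + 1, y)) * Real.exp (h * (((0 : ℤ) : ℝ) - σ * ((1 : ℕ) : ℝ))) *
      Real.exp (TL8 μ s σ h m L η (((i + 1 : ℕ) : ℤ), y)) + Real.exp (s - lam μ s) * Real.exp (η ((i : ℤ) + 1, y + 1)) *
      Real.exp (h * (((1 : ℤ) : ℝ) - σ * ((1 : ℕ) : ℝ))) * Real.exp (TL8 μ s σ h m L η (((i + 1 : ℕ) : ℤ), y + 1))) = _
  linear_combination (Real.exp (η ((i : ℤ) + 1, y)) * Real.exp (TL8 μ s σ h m L η (((i + 1 : ℕ) : ℤ), y))) * e3 +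
    (Real.exp (η ((i : ℤ) + 1, y + 1)) * Real.exp (TL8 μ s σ h m L η (((i + 1 : ℕ) : ℤ), y + 1))) * e4

/-- The rows with the force. -/
theorem bw_TL8 (η : Env) {M L : ℕ} : ∀ (m i : ℕ), i + m = M → ∀ y : ℤ, bw (wt η) (ps8 s h M) i (m + L + 1) y =
    wt η i y * ((1 + ps8 s h M (M + L)) * Real.exp ((m + L) * lam μ s + h * σ * m) * Real.exp (TL8 μ s σ h m L η ((i : ℤ), y)))
  | 0, i, hi, y => by
    rw [Nat.zero_add, bw_V8 (μ := μ) η L i (by omega) y, TL8_zero]
    rw [show i + L = M + L by omega]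
    simp
  | m + 1, i, hi, y => by
    have i1 := bw_TL8 η (M := M) (L := L) m (i + 1) (by omega) y
    have i2 := bw_TL8 η (M := M) (L := L) m (i + 1) (by omega) (y + 1)
    have hp : ps8 s h M i = Real.exp (s + h) := by
      unfold ps8
      rw [if_pos (by omega)]
    have h1 := exp_TL_one (μ := μ) (s := s) (σ := σ) (h := h) η i m L y
    rw [show m + 1 + L + 1 = (m + L + 1) + 1 by ring, bw_succ, i1, i2, hp]
    have e1 : Real.exp ((((m + 1 : ℕ) : ℝ) + L) * lam μ s + h * σ * ((m + 1 : ℕ) : ℝ)) =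
        Real.exp ((m + L) * lam μ s + h * σ * m) * Real.exp (lam μ s + h * σ) := by
      rw [← Real.exp_add]
      congr 1
      push_cast
      ring
    rw [e1]
    calc wt η i y * (wt η (i + 1) y * ((1 + ps8 s h M (M + L)) * Real.exp ((m + L) * lam μ s + h * σ * m) *
          Real.exp (TL8 μ s σ h m L η (((i + 1 : ℕ) : ℤ), y))) + Real.exp (s + h) * (wt η (i + 1) (y + 1) *
          ((1 + ps8 s h M (M + L)) * Real.exp ((m + L) * lam μ s + h * σ * m) * Real.exp (TL8 μ s σ h m L η (((i + 1 : ℕ) : ℤ), y + 1)))))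
        = wt η i y * ((1 + ps8 s h M (M + L)) * Real.exp ((m + L) * lam μ s + h * σ * m) *
          (wt η (i + 1) y * Real.exp (TL8 μ s σ h m L η (((i + 1 : ℕ) : ℤ), y)) +
            Real.exp (s + h) * (wt η (i + 1) (y + 1) * Real.exp (TL8 μ s σ h m L η (((i + 1 : ℕ) : ℤ), y + 1))))) := by ring
      _ = _ := by
        rw [← h1]
        ring

/-- The factor. -/
def cc8 (μ : Measure ℝ) (s σ h : ℝ) (M L : ℕ) : ℝ := (1 + ps8 s h M (M + L)) * Real.exp ((M + L) * lam μ s + h * σ * M)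

theorem cc8_pos (M L : ℕ) : 0 < cc8 μ s σ h M L := by
  unfold cc8
  have := ps8_pos s h M (M + L)
  positivity

/-- **The profile is the backward mass.** -/
theorem bw_RL8 (η : Env) (M L : ℕ) (y : ℤ) : bw (wt η) (ps8 s h M) 0 (M + L + 1) y =
    cc8 μ s σ h M L * Real.exp (TL8 μ s σ h M L η ((0 : ℤ), y)) := by
  have h1 := bw_TL8 (μ := μ) (s := s) (σ := σ) (h := h) η (M := M) (L := L) M 0 (by omega) y
  rw [h1]
  unfold cc8 wt
  simp

/-! ### The two groups -/

/-- The left site. -/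
def l8 (y : ℤ) : ℝ := if y = 0 then 1 else 0

/-- The right group: the mass `q j` at the site `j + 1`. -/
def r8 (k : ℕ) (q : ℕ → ℝ) (y : ℤ) : ℝ := if 1 ≤ y ∧ y ≤ k then q (y - 1).toNat else 0

/-- The right group at the level `a` of the left site. -/
def ra8 (k : ℕ) (q : ℕ → ℝ) (a : ℝ) (y : ℤ) : ℝ := Real.exp (-a) * r8 k q y

theorem sum_l8 {lo hi : ℤ} (h0 : lo ≤ 0) (h1 : 0 ≤ hi) (f : ℤ → ℝ) : ∑ y ∈ Finset.Icc lo hi, l8 y * f y = f 0 := by
  rw [Finset.sum_eq_single 0]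
  · unfold l8
    simp
  · intro y _ hy
    unfold l8
    rw [if_neg hy, zero_mul]
  · intro hc
    exact absurd (Finset.mem_Icc.2 ⟨h0, h1⟩) hc

theorem sum_r8 {lo hi : ℤ} {k : ℕ} (h0 : lo ≤ 1) (h1 : k ≤ hi) (q : ℕ → ℝ) (f : ℤ → ℝ) :
    ∑ y ∈ Finset.Icc lo hi, r8 k q y * f y = ∑ j ∈ range k, q j * f (j + 1) := by
  have e1 : ∑ y ∈ Finset.Icc lo hi, r8 k q y * f y = ∑ y ∈ Finset.Icc (1 : ℤ) k, r8 k q y * f y := by
    symm
    refine Finset.sum_subset (fun y hy => ?_) fun y _ hy => ?_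
    · rw [Finset.mem_Icc] at hy ⊢
      omega
    · unfold r8
      rw [if_neg (by rw [Finset.mem_Icc] at hy; exact hy), zero_mul]
  rw [e1]
  refine Finset.sum_nbij' (fun y => (y - 1).toNat) (fun j => (j : ℤ) + 1) ?_ ?_ ?_ ?_ ?_
  · intro y hy
    rw [Finset.mem_Icc] at hy
    rw [Finset.mem_range]
    omega
  · intro j hj
    rw [Finset.mem_range] at hj
    rw [Finset.mem_Icc]
    omega
  · intro y hy
    rw [Finset.mem_Icc] at hy
    show (((y - 1).toNat : ℕ) : ℤ) + 1 = y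
    omega
  · intro j _
    show ((j : ℤ) + 1 - 1).toNat = j
    omega
  · intro y hy
    rw [Finset.mem_Icc] at hy
    unfold r8
    rw [if_pos hy]
    have e2 : (((y - 1).toNat : ℕ) : ℤ) + 1 = y := by omega
    rw [e2]

theorem r8_nonneg {k : ℕ} {q : ℕ → ℝ} (hq : ∀ j, j < k → 0 < q j) (y : ℤ) : 0 ≤ r8 k q y := by
  unfold r8
  split_ifs with h
  · exact (hq _ (by omega)).le
  · exact le_rfl

theorem box8 {k N : ℕ} {q : ℕ → ℝ} (hk : 1 ≤ k) (hq : ∀ j, j < k → 0 < q j) {lo hi : ℤ} (hlo : lo ≤ 0) (hhi : (k : ℤ) + N ≤ hi) (a : ℝ) :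
    Box l8 (ra8 k q a) 1 lo hi N where
  g :=
    { l0 := fun y => by
        unfold l8
        split_ifs <;> norm_num
      r0 := fun y => mul_nonneg (Real.exp_pos _).le (r8_nonneg hq y)
      lX := fun y hy => by
        unfold l8
        rw [if_neg (by omega)]
      rX := fun y hy => by
        unfold ra8 r8
        rw [if_neg (by omega), mul_zero] }
  lo0 := fun y hy => by
    unfold l8 ra8 r8
    rw [if_neg (by omega), if_neg (by omega), mul_zero]
    exact ⟨rfl, rfl⟩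
  hi0 := fun y hy => by
    unfold l8 ra8 r8
    rw [if_neg (by omega), if_neg (by omega), mul_zero]
    exact ⟨rfl, rfl⟩
  X0 := by omega
  X1 := by omega
  ps := ⟨0, by
    unfold l8 ra8 r8
    rw [if_pos rfl, if_neg (by omega), mul_zero]
    norm_num⟩

variable [IsProbabilityMeasure μ]

omit [IsProbabilityMeasure μ] in
theorem em_int8 (hμ : EM μ) : Integrable (fun x : ℝ => x) μ := by
  have h1 := hμ 1
  refine h1.mono' measurable_id.aestronglyMeasurable (ae_of_all _ fun x => ?_)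
  rw [Real.norm_eq_abs, one_mul]
  have := Real.add_one_le_exp |x|
  linarith

/-- The two systems in terms of the backward masses. -/
theorem lg_sub8 (hμ : EM μ) (M L : ℕ) {k : ℕ} {q : ℕ → ℝ} (hk : 1 ≤ k) (hq : ∀ j, j < k → 0 < q j) {lo hi : ℤ} (hlo : lo ≤ 0)
    (hhi : (k : ℤ) + (M + L + 1 : ℕ) ≤ hi) (a : ℝ) :
    Lg (law μ) (RL8 μ s σ h M L 0) (C1 (fun j => RL8 μ s σ h M L j) k q) a -
      Lg (law μ) (RL8 μ s σ h M L 0) (C0 (fun j => RL8 μ s σ h M L j) k q) a =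
    (∫ η, Real.log (∑ y ∈ Finset.Icc lo hi, (l8 y + ra8 k q a y) * bw (wt η) (ps8 s h M) 0 (M + L + 1) y) ∂(law μ)) -
      ∫ η, Real.log (∑ y ∈ Finset.Icc lo hi, (l8 y * bw (wt η) (ps8 s h M) 0 (M + L + 1) y +
        ra8 k q a y * bw (wt η) (ps8 s h M) 0 (M + L + 1) (y - 1))) ∂(law μ) := by
  obtain ⟨c, hc⟩ : ∃ c : ℝ, c = cc8 μ s σ h M L := ⟨_, rfl⟩
  have hc0 : 0 < c := by rw [hc]; exact cc8_pos M L
  have hR : ∀ j, Pl (law μ) (RL8 μ s σ h M L j) := fun j => pl_TL8 hμ _ M L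
  obtain ⟨k', rfl⟩ : ∃ k', k = k' + 1 := ⟨k - 1, by omega⟩
  have hp0 := pl_C0 (R := fun j => RL8 μ s σ h M L j) hR hq
  have hp1 := pl_C1 (R := fun j => RL8 μ s σ h M L j) hR hq
  have hbw : ∀ (η : Env) (j : ℕ), bw (wt η) (ps8 s h M) 0 (M + L + 1) (j : ℤ) = c * RL8 μ s σ h M L j η := fun η j => by
    rw [hc, bw_RL8 (μ := μ) (σ := σ)]
    rfl
  have e1 : ∀ η : Env, ∑ y ∈ Finset.Icc lo hi, (l8 y + ra8 (k' + 1) q a y) * bw (wt η) (ps8 s h M) 0 (M + L + 1) y =
      c * Real.exp (-a) * (Real.exp a * RL8 μ s σ h M L 0 η + C1 (fun j => RL8 μ s σ h M L j) (k' + 1) q η) := by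
    intro η
    have e2 : ∀ y, (l8 y + ra8 (k' + 1) q a y) * bw (wt η) (ps8 s h M) 0 (M + L + 1) y =
        l8 y * bw (wt η) (ps8 s h M) 0 (M + L + 1) y + Real.exp (-a) * (r8 (k' + 1) q y * bw (wt η) (ps8 s h M) 0 (M + L + 1) y) := by
      intro y
      unfold ra8
      ring
    simp only [e2]
    rw [Finset.sum_add_distrib, ← Finset.mul_sum, sum_l8 hlo (by push_cast at hhi; omega), sum_r8 (by omega) (by push_cast at hhi ⊢; omega)]
    have e3 : ∀ j : ℕ, bw (wt η) (ps8 s h M) 0 (M + L + 1) ((j : ℤ) + 1) = c * RL8 μ s σ h M L (j + 1) η := fun j => by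
      have := hbw η (j + 1)
      push_cast at this
      exact this
    have e4 := hbw η 0
    rw [Nat.cast_zero] at e4
    rw [e4]
    simp only [e3]
    unfold C1
    have e5 : ∑ j ∈ range (k' + 1), q j * (c * RL8 μ s σ h M L (j + 1) η) = c * ∑ j ∈ range (k' + 1), q j * RL8 μ s σ h M L (j + 1) η := by
      rw [Finset.mul_sum]
      exact Finset.sum_congr rfl fun j _ => by ring
    rw [e5]
    have e6 : Real.exp (-a) * Real.exp a = 1 := by rw [← Real.exp_add]; simp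
    linear_combination (- c * RL8 μ s σ h M L 0 η) * e6
  have e1' : ∀ η : Env, ∑ y ∈ Finset.Icc lo hi, (l8 y * bw (wt η) (ps8 s h M) 0 (M + L + 1) y +
        ra8 (k' + 1) q a y * bw (wt η) (ps8 s h M) 0 (M + L + 1) (y - 1)) =
      c * Real.exp (-a) * (Real.exp a * RL8 μ s σ h M L 0 η + C0 (fun j => RL8 μ s σ h M L j) (k' + 1) q η) := by
    intro η
    have e2 : ∀ y, l8 y * bw (wt η) (ps8 s h M) 0 (M + L + 1) y + ra8 (k' + 1) q a y * bw (wt η) (ps8 s h M) 0 (M + L + 1) (y - 1) =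
        l8 y * bw (wt η) (ps8 s h M) 0 (M + L + 1) y + Real.exp (-a) * (r8 (k' + 1) q y * (fun z : ℤ => bw (wt η) (ps8 s h M) 0 (M + L + 1) (z - 1)) y) := by
      intro y
      unfold ra8
      ring
    simp only [e2]
    rw [Finset.sum_add_distrib, ← Finset.mul_sum, sum_l8 hlo (by push_cast at hhi; omega),
      sum_r8 (by omega) (by push_cast at hhi ⊢; omega) q (fun z : ℤ => bw (wt η) (ps8 s h M) 0 (M + L + 1) (z - 1))]
    have e3 : ∀ j : ℕ, bw (wt η) (ps8 s h M) 0 (M + L + 1) ((j : ℤ) + 1 - 1) = c * RL8 μ s σ h M L j η := fun j => by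
      rw [add_sub_cancel_right]
      exact hbw η j
    have e4 := hbw η 0
    rw [Nat.cast_zero] at e4
    rw [e4]
    simp only [e3]
    unfold C0
    have e5 : ∑ j ∈ range (k' + 1), q j * (c * RL8 μ s σ h M L j η) = c * ∑ j ∈ range (k' + 1), q j * RL8 μ s σ h M L j η := by
      rw [Finset.mul_sum]
      exact Finset.sum_congr rfl fun j _ => by ring
    rw [e5]
    have e6 : Real.exp (-a) * Real.exp a = 1 := by rw [← Real.exp_add]; simp
    linear_combination (- c * RL8 μ s σ h M L 0 η) * e6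
  have f0 : ∀ {B : Env → ℝ}, Pl (law μ) B → ∫ η, Real.log (c * Real.exp (-a) * (Real.exp a * RL8 μ s σ h M L 0 η + B η)) ∂(law μ) =
      Real.log (c * Real.exp (-a)) + Lg (law μ) (RL8 μ s σ h M L 0) B a := by
    intro B hB
    have hAB := ((hR 0).const_mul (Real.exp_pos a)).add hB
    unfold Lg
    have e7 : ∀ η : Env, Real.log (c * Real.exp (-a) * (Real.exp a * RL8 μ s σ h M L 0 η + B η)) =
        Real.log (c * Real.exp (-a)) + Real.log (Real.exp a * RL8 μ s σ h M L 0 η + B η) := fun η =>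
      Real.log_mul (by have := Real.exp_pos (-a); positivity) (hAB.pos η).ne'
    simp only [e7]
    rw [integral_add (integrable_const _) hAB.int]
    simp
  simp only [e1, e1']
  rw [f0 hp0, f0 hp1]
  ring

end

end Pool.Agent.W_7d29a1_C1.H8
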