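import Pool.Agent.W_7d29a1_C1.HybF8
import Pool.Agent.W_7d29a1_HS.Defs

/-!
MP_7d29a1_pr, attractor route (helper8): the statements of the composite horizon. The tilt `h` acts on `M` rows, then the path goes on
for `L` rows (`N ^ 3 ≤ L ≤ 2 N ^ 3`) without it.
-/

set_option autoImplicit false

namespace Pool.Agent.W_7d29a1_C1.H8

open MeasureTheory Filter Topology
open Pool.Agent.W_7d29a1_F Pool.Agent.W_7d29a1_h4g Pool.Agent.W_7d29a1_H Pool.Agent.W_7d29a1_HS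
open scoped ENNReal NNReal

noncomputable section

/-- The mean free energy of the composite path. -/
def FL8 (μ : Measure ℝ) (s : ℝ) (M L : ℕ) (h : ℝ) : ℝ := ∫ η, TL8 μ s (sl μ s) h M L η 0 ∂(law μ)

/-- **The loss of memory at one site.** For the scale `n`, the variance `v`, all horizons, all forces `h`, all masses `q` of the window:
the systems with the gap `1` and with the gap `0` between the left site and the right group differ, against the triangular weight of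
width `τ = n ^ (- c) EE n` in the level, by `v / 2` times the mean weight of the balance point. The error is `n ^ (- c) / EE n` plus
`n ^ (3 e + δ + c) / EE n` times the mean share of the sites nearer than `n ^ e` in the right group. Only `δ ≤ c / 16` is asked. -/
def LML8 (μ : Measure ℝ) (s : ℝ) : Prop :=
  ∀ e : ℝ, 0 < e → ∃ c : ℝ, 0 < c ∧ c ≤ e ∧ ∀ δ : ℝ, 0 < δ → δ ≤ c / 16 → ∃ κ : ℝ, 0 < κ ∧ κ ≤ δ ∧ ∀ᶠ n : ℕ in atTop, ∃ v : ℝ≥0,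
    (n : ℝ) ^ (-δ) ≤ (v : ℝ) ∧ (v : ℝ) ≤ (n : ℝ) ^ δ ∧
    ∀ N : ℕ, n ≤ N → (N : ℝ) ≤ (n : ℝ) ^ (1 + c) → ∀ L : ℕ, N ^ 3 ≤ L → L ≤ 2 * N ^ 3 → ∀ M : ℕ, M ≤ N →
      ∀ h : ℝ, |h| * EE μ s n ≤ (n : ℝ) ^ (-(2 * δ)) → |h| * EE μ s N ≤ (N : ℝ) ^ κ →
        ∀ (k : ℕ) (q : ℕ → ℝ), 1 ≤ k → (k : ℝ) ≤ (n : ℝ) ^ δ * wd μ s n → (∀ j, j < k → 0 < q j) →
          LMs (law μ) (tri ((n : ℝ) ^ (-c) * EE μ s n)) v (fun j => RL8 μ s (sl μ s) h M L j) k q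
            ((n : ℝ) ^ (-c) / EE μ s n + (n : ℝ) ^ (3 * e + δ + c) / EE μ s n *
              NG (law μ) (fun j => RL8 μ s (sl μ s) h M L j) k q ⌈(n : ℝ) ^ e⌉₊)

/-- **The window.** The composite paths are in a window of `m` sites at the time `n`, and the mass of the last site of the window is not
too small. -/
def WNL8 (μ : Measure ℝ) (s : ℝ) : Prop :=
  ∀ c : ℝ, 0 < c → ∀ δ : ℝ, 0 < δ → ∃ κ : ℝ, 0 < κ ∧ κ ≤ δ ∧ ∀ᶠ n : ℕ in atTop, ∃ (y₀ : ℤ) (m : ℕ),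
    0 ≤ y₀ ∧ 1 ≤ m ∧ y₀ + m ≤ n ∧ (m : ℝ) ≤ (n : ℝ) ^ δ * wd μ s n ∧
    ∀ N : ℕ, n ≤ N → (N : ℝ) ≤ (n : ℝ) ^ (1 + c) → ∀ L : ℕ, N ^ 3 ≤ L → L ≤ 2 * N ^ 3 → ∀ M : ℕ, M ≤ N →
      ∀ h : ℝ, |h| * EE μ s n ≤ (n : ℝ) ^ (-(2 * δ)) → |h| * EE μ s N ≤ (N : ℝ) ^ κ →
        FL8 μ s (n + M) L h - ∫ η, WF8 μ s (sl μ s) h (TL8 μ s (sl μ s) h M L) n y₀ m η ∂(law μ) ≤ 1 ∧
        (∫ η, WF8 μ s (sl μ s) h (TL8 μ s (sl μ s) h M L) n y₀ m η ∂(law μ)) -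
          (h * (((y₀ + m : ℤ) : ℝ) - sl μ s * n) - ∫ η, X μ s η 0 n (y₀ + m) ∂(law μ)) -
          FL8 μ s M L h ≤ (n : ℝ) ^ (c + δ) * EE μ s n

/-- **The increments of the mean free energies**, composite horizon. There is a window of `m` sites at the time `n` and a Gaussian walk
of variance `v` per step such that for `n ≤ N ≤ n ^ (1 + c)`, `N ^ 3 ≤ L ≤ 2 N ^ 3` and all `M ≤ N` the increment from `M` to `n + M` rows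
is, as a function of the force `h`, an affine function plus the free energy of the masses of the window seen through the walk, up to
`n ^ (- c) EE n`; for the forces `|h| EE n ≤ n ^ (- 2 δ)`, `|h| EE N ≤ N ^ κ`. -/
def LMG8 (μ : Measure ℝ) (s : ℝ) : Prop :=
  ∃ c : ℝ, 0 < c ∧ ∀ δ : ℝ, 0 < δ → ∃ κ : ℝ, 0 < κ ∧ κ ≤ δ ∧ ∀ᶠ n : ℕ in atTop, ∃ (y₀ : ℤ) (m : ℕ) (v : ℝ≥0),
    0 ≤ y₀ ∧ 1 ≤ m ∧ y₀ + m ≤ n ∧ (m : ℝ) ≤ (n : ℝ) ^ δ * wd μ s n ∧ (n : ℝ) ^ (-δ) ≤ (v : ℝ) ∧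
    ∀ N : ℕ, n ≤ N → (N : ℝ) ≤ (n : ℝ) ^ (1 + c) → ∀ L : ℕ, N ^ 3 ≤ L → L ≤ 2 * N ^ 3 → ∀ M : ℕ, M ≤ N → ∃ K₀ K₁ : ℝ,
      ∀ h : ℝ, |h| * EE μ s n ≤ (n : ℝ) ^ (-(2 * δ)) → |h| * EE μ s N ≤ (N : ℝ) ^ κ →
        |FL8 μ s (n + M) L h - FL8 μ s M L h - K₀ - K₁ * h -
          Psi (law μ) m v (fun η k => W μ s η 0 n (y₀ + ((k : ℕ) : ℤ))) h| ≤ (n : ℝ) ^ (-c) * EE μ s n

end

end Pool.Agent.W_7d29a1_C1.H8
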