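import Pool.Agent.W_7d29a1_C1.Brg8
import Pool.Agent.W_7d29a1_C1.LML8

/-!
MP_7d29a1_pr, attractor route (helper8): the bridge from `LMs` to the exact contraction identity, the level integral.
-/

set_option autoImplicit false

namespace Pool.Agent.W_7d29a1_C1.H8

open MeasureTheory ProbabilityTheory Set Finset
open Pool.Agent.W_7d29a1_F
open Pool.Agent.W_7d29a1_h47 (EM)
open Pool.Agent.W_7d29a1_C1.K91 (Grp Box wt wt_pos measurable_wt rowD mp_rowD wt_rowD Mb int_Mb wt_Mb past abs_log_mix cut zs jn del_dw)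
open Pool.Agent.W_7d29a1_C1.K91P
open scoped ENNReal NNReal

noncomputable section

/-! ### Joint measurability in the level and the environment -/

section meas

variable {T : Type*} [MeasurableSpace T] {e : T → Env} {p : ℕ → ℝ} {l r : T → ℤ → ℝ} {X lo hi : ℤ} {N : ℕ}

theorem mz_wt (he : Measurable e) (k : ℕ) (y : ℤ) : Measurable fun t => wt (e t) k y := (measurable_wt k y).comp he

theorem mz_fw (he : Measurable e) (hl : ∀ y, Measurable fun t => l t y) : ∀ (k : ℕ) (y : ℤ), Measurable fun t => fw (wt (e t)) p (l t) k y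
  | 0, y => hl y
  | k + 1, y => by
    have h1 := mz_fw he hl k y
    have h2 := mz_fw he hl k (y - 1)
    simp only [fw_succ]
    exact ((mz_wt he k y).mul h1).add (measurable_const.mul ((mz_wt he k (y - 1)).mul h2))

theorem mz_bw (he : Measurable e) (j k : ℕ) (y : ℤ) : Measurable fun t => bw (wt (e t)) p k j y := (meas_bw j k y).comp he

theorem mz_mm (he : Measurable e) (hl : ∀ y, Measurable fun t => l t y) (hr : ∀ y, Measurable fun t => r t y) (k : ℕ) (y : ℤ) :
    Measurable fun t => mm (wt (e t)) p (l t) (r t) k y := (mz_fw he hl k y).add (mz_fw he hr k y)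

theorem mz_Fk (he : Measurable e) (hl : ∀ y, Measurable fun t => l t y) (hr : ∀ y, Measurable fun t => r t y) (k : ℕ) (y : ℤ) :
    Measurable fun t => Fk (wt (e t)) p (l t) (r t) X k y := by
  have h1 := mz_fw (p := p) he hl k y
  have h2 := mz_fw (p := p) he hr k y
  unfold Fk
  refine Measurable.ite (measurableSet_eq_fun (h1.add h2) measurable_const) measurable_const (h1.div (h1.add h2))

theorem mz_rho (he : Measurable e) (hl : ∀ y, Measurable fun t => l t y) (hr : ∀ y, Measurable fun t => r t y) (k : ℕ) (q : ℤ) :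
    Measurable fun t => rho (wt (e t)) p (l t) (r t) X k q := (mz_Fk he hl hr k (q - 1)).sub (mz_Fk he hl hr k q)

theorem mz_th (he : Measurable e) (hl : ∀ y, Measurable fun t => l t y) (hr : ∀ y, Measurable fun t => r t y) (k : ℕ) (q : ℤ) :
    Measurable fun t => th (wt (e t)) p (l t) (r t) k q :=
  (measurable_const.mul ((mz_wt he k (q - 1)).mul ((mz_fw he hl k (q - 1)).add (mz_fw he hr k (q - 1))))).div
    ((mz_fw he hl (k + 1) q).add (mz_fw he hr (k + 1) q))

theorem mz_vv (he : Measurable e) (hl : ∀ y, Measurable fun t => l t y) (hr : ∀ y, Measurable fun t => r t y) (k : ℕ) (q : ℤ) :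
    Measurable fun t => vv (wt (e t)) p (l t) (r t) k q :=
  (mz_mm he hl hr k (q - 1)).div ((mz_mm he hl hr k (q - 1)).add (mz_mm he hl hr k q))

theorem mz_TT (he : Measurable e) (hl : ∀ y, Measurable fun t => l t y) (hr : ∀ y, Measurable fun t => r t y) (k : ℕ) (q : ℤ) :
    Measurable fun t => TT (wt (e t)) p (l t) (r t) lo hi N k q := by
  unfold TT cut
  refine Finset.measurable_sum _ fun y _ => (mz_mm he hl hr k y).mul ?_
  split_ifs
  · exact mz_bw he (N - k) k y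
  · exact mz_bw he (N - k) k (y - 1)

theorem mz_GG (he : Measurable e) (k : ℕ) (y : ℤ) : Measurable fun t => GG (wt (e t)) p N k y := (meas_GG k y).comp he

theorem mz_ZZ (he : Measurable e) (hl : ∀ y, Measurable fun t => l t y) (hr : ∀ y, Measurable fun t => r t y) (k : ℕ) (q : ℤ) :
    Measurable fun t => ZZ (wt (e t)) p (l t) (r t) lo hi N k q := by
  unfold ZZ zs
  refine Finset.measurable_sum _ fun y _ => ((mz_mm he hl hr k y).mul (mz_wt he k y)).mul ?_
  split_ifs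
  · exact mz_GG he k y
  · exact mz_GG he k (y - 1)

theorem mz_Y1 (he : Measurable e) (hl : ∀ y, Measurable fun t => l t y) (hr : ∀ y, Measurable fun t => r t y) (k : ℕ) (q : ℤ) :
    Measurable fun t => Y1 (wt (e t)) p (l t) (r t) lo hi N k q :=
  (mz_ZZ he hl hr k q).add (((mz_mm he hl hr k q).mul ((mz_wt he k (q - 1)).sub (mz_wt he k q))).mul (mz_GG he k (q - 1)))

theorem mz_Y2 (he : Measurable e) (hl : ∀ y, Measurable fun t => l t y) (hr : ∀ y, Measurable fun t => r t y) (k : ℕ) (q : ℤ) :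
    Measurable fun t => Y2 (wt (e t)) p (l t) (r t) lo hi N k q :=
  (mz_ZZ he hl hr k q).add (((mz_mm he hl hr k (q - 1)).mul ((mz_wt he k q).sub (mz_wt he k (q - 1)))).mul (mz_GG he k (q - 1)))

theorem mz_jn {t a b : T → ℝ} (ht : Measurable t) (ha : Measurable a) (hb : Measurable b) : Measurable fun x => jn (t x) (a x) (b x) := by
  unfold jn
  exact ((Real.measurable_log.comp ((ht.mul ha).add ((measurable_const.sub ht).mul hb))).sub (ht.mul (Real.measurable_log.comp ha))).sub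
    ((measurable_const.sub ht).mul (Real.measurable_log.comp hb))

theorem mz_jg (he : Measurable e) (hl : ∀ y, Measurable fun t => l t y) (hr : ∀ y, Measurable fun t => r t y) (k : ℕ) (q : ℤ) :
    Measurable fun t => jg (wt (e t)) p (l t) (r t) lo hi N k q :=
  mz_jn (mz_vv he hl hr k q) (mz_Y1 he hl hr k q) (mz_Y2 he hl hr k q)

theorem mz_JG (he : Measurable e) (hl : ∀ y, Measurable fun t => l t y) (hr : ∀ y, Measurable fun t => r t y) (k : ℕ) (q : ℤ) :
    Measurable fun t => JG (wt (e t)) p (l t) (r t) lo hi N k q :=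
  mz_jn (mz_th he hl hr k q) (mz_TT he hl hr (k + 1) (q + 1)) (mz_TT he hl hr (k + 1) q)

end meas

/-- **The contact functional at the level `a`**: the law of the interface times gain minus loss. -/
def ctl8 (p : ℕ → ℝ) (k : ℕ) (q : ℕ → ℝ) (lo hi : ℤ) (N i : ℕ) (x : ℤ) (a : ℝ) (η : Env) : ℝ :=
  rho (wt η) p l8 (ra8 k q a) 1 i x * (jg (wt η) p l8 (ra8 k q a) lo hi N i x - JG (wt η) p l8 (ra8 k q a) lo hi N i x)

theorem meas_ctl8 (p : ℕ → ℝ) (k : ℕ) (q : ℕ → ℝ) (lo hi : ℤ) (N i : ℕ) (x : ℤ) :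
    Measurable fun z : ℝ × Env => ctl8 p k q lo hi N i x z.1 z.2 := by
  have hl : ∀ y, Measurable fun _ : ℝ × Env => l8 y := fun y => measurable_const
  have hr : ∀ y, Measurable fun z : ℝ × Env => ra8 k q z.1 y := fun y => by
    unfold ra8
    exact (Real.measurable_exp.comp measurable_fst.neg).mul_const _
  unfold ctl8
  exact (mz_rho (l := fun _ : ℝ × Env => l8) (r := fun z => ra8 k q z.1) measurable_snd hl hr i x).mul
    ((mz_jg (l := fun _ : ℝ × Env => l8) (r := fun z => ra8 k q z.1) measurable_snd hl hr i x).sub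
      (mz_JG (l := fun _ : ℝ × Env => l8) (r := fun z => ra8 k q z.1) measurable_snd hl hr i x))

/-- The constant of the bound. -/
def kc8 (N : ℕ) (P S a : ℝ) : ℝ := N * Real.log (1 + P) + Real.log (1 + Real.exp (-a) * S)

theorem ctl8_le {p : ℕ → ℝ} (hp : ∀ i, 0 < p i) {k N : ℕ} {q : ℕ → ℝ} (hk : 1 ≤ k) (hq : ∀ j, j < k → 0 < q j) {lo hi : ℤ} (hlo : lo ≤ 0)
    (hhi : (k : ℤ) + N ≤ hi) {P : ℝ} (hP0 : 0 ≤ P) (hP : ∀ i, i < N → p i ≤ P) {i : ℕ} (hi1 : i < N) {x : ℤ}
    (hx : x ∈ Finset.Icc (1 : ℤ) (1 + N)) (a : ℝ) (η : Env) :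
    |ctl8 p k q lo hi N i x a η| ≤ 6 * (N * Mb lo hi N η) + N * Mb lo hi N (rowD i x η) + N * Mb lo hi N (rowD i (x - 1) η) +
      8 * kc8 N P (∑ j ∈ range k, q j) a := by
  have hB := box8 (N := N) hk hq hlo hhi a
  obtain ⟨S, hS⟩ : ∃ S : ℝ, S = ∑ j ∈ range k, q j := ⟨_, rfl⟩
  have hS0 : 0 ≤ S := hS ▸ Finset.sum_nonneg fun j hj => (hq j (Finset.mem_range.1 hj)).le
  have s1 : ∑ y ∈ Finset.Icc lo hi, (l8 y + ra8 k q a y) = 1 + Real.exp (-a) * S := by
    have h1 := sum_l8 (lo := lo) (hi := hi) hlo (by omega) fun _ => 1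
    have h2 := sum_r8 (lo := lo) (hi := hi) (k := k) (by omega) (by omega) q fun _ => 1
    simp only [mul_one] at h1 h2
    rw [Finset.sum_add_distrib, h1]
    unfold ra8
    rw [← Finset.mul_sum, h2, hS]
  have s2 : l8 0 + ra8 k q a 0 = 1 := by
    unfold l8 ra8 r8
    rw [if_pos rfl, if_neg (by omega), mul_zero, add_zero]
  have key : ∀ (η' : Env) (j : ℕ), j ≤ N → ∀ z, |Real.log (TT (wt η') p l8 (ra8 k q a) lo hi N j z)| ≤ N * Mb lo hi N η' + kc8 N P S a := by
    intro η' j hj z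
    have h1 := abs_log_TT (wt_pos η') hp hB hP0 hP (fun i' y h1 h2 h3 => wt_Mb lo hi N η' i' y h1 h2 h3) (y0 := 0)
      (by rw [s2]; norm_num) hj z
    rw [s1, s2] at h1
    have h2 : 0 ≤ Real.log (1 + Real.exp (-a) * S) := Real.log_nonneg (by
      have := Real.exp_pos (-a)
      nlinarith [mul_nonneg this.le hS0])
    rw [abs_of_nonneg h2] at h1
    unfold kc8
    simpa using h1
  have r0 := Fk_anti (wt_pos η) hp hB.g i x
  have r1 := rho_le_one (wt_pos η) hp hB.g i x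
  have k1 := key η (i + 1) hi1 (x + 1)
  have k2 := key η (i + 1) hi1 x
  have kY1 : |Real.log (Y1 (wt η) p l8 (ra8 k q a) lo hi N i x)| ≤ N * Mb lo hi N (rowD i x η) + kc8 N P S a := by
    rw [← Y1_eq hB (wt_rowD η i x) hi1 hx]
    exact key _ i hi1.le x
  have kY2 : |Real.log (Y2 (wt η) p l8 (ra8 k q a) lo hi N i x)| ≤ N * Mb lo hi N (rowD i (x - 1) η) + kc8 N P S a := by
    rw [← Y2_eq hB (wt_rowD η i (x - 1)) hi1 hx]
    exact key _ i hi1.le x
  have v0 := vv_mem (wt_pos η) hp hB.g i x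
  have t0 := th_mem (wt_pos η) hp hB.g i x
  have kZ : |Real.log (ZZ (wt η) p l8 (ra8 k q a) lo hi N i x)| ≤ 2 * (N * Mb lo hi N η + kc8 N P S a) := by
    rw [ZZ_eq (wt_pos η) hp hB hi1 hx]
    have h1 := abs_log_mix t0.1 t0.2 (TT_pos (wt_pos η) hp hB (i + 1) (x + 1)) (TT_pos (wt_pos η) hp hB (i + 1) x)
    linarith
  have mulle : ∀ {t u : ℝ}, 0 ≤ t → t ≤ 1 → |t * u| ≤ |u| := fun {t u} h0 h1 => by
    rw [abs_mul, abs_of_nonneg h0]
    calc t * |u| ≤ 1 * |u| := mul_le_mul_of_nonneg_right h1 (abs_nonneg u)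
      _ = |u| := one_mul _
  have b1 : |jg (wt η) p l8 (ra8 k q a) lo hi N i x| ≤ 2 * (N * Mb lo hi N η + kc8 N P S a) +
      (N * Mb lo hi N (rowD i x η) + kc8 N P S a) + (N * Mb lo hi N (rowD i (x - 1) η) + kc8 N P S a) := by
    rw [jg_eq η hp hB i x]
    refine (abs_sub _ _).trans (add_le_add ((abs_sub _ _).trans (add_le_add kZ ?_)) ?_)
    · exact (mulle v0.1 v0.2).trans kY1
    · exact (mulle (by linarith [v0.2]) (by linarith [v0.1])).trans kY2
  have b2 : |JG (wt η) p l8 (ra8 k q a) lo hi N i x| ≤ 4 * (N * Mb lo hi N η + kc8 N P S a) := by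
    rw [JG_eq η hp hB hi1 hx]
    have h1 : |th (wt η) p l8 (ra8 k q a) i x * Real.log (TT (wt η) p l8 (ra8 k q a) lo hi N (i + 1) (x + 1))| ≤
        N * Mb lo hi N η + kc8 N P S a := (mulle t0.1 t0.2).trans k1
    have h2 : |(1 - th (wt η) p l8 (ra8 k q a) i x) * Real.log (TT (wt η) p l8 (ra8 k q a) lo hi N (i + 1) x)| ≤
        N * Mb lo hi N η + kc8 N P S a := (mulle (by linarith [t0.2]) (by linarith [t0.1])).trans k2
    refine ((abs_sub _ _).trans (add_le_add ((abs_sub _ _).trans (add_le_add kZ h1)) h2)).trans ?_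
    linarith
  unfold ctl8
  refine (mulle r0 r1).trans ((abs_sub _ _).trans ((add_le_add b1 b2).trans ?_))
  rw [← hS]
  linarith

variable {μ : Measure ℝ} [IsProbabilityMeasure μ] {s σ h : ℝ}

theorem continuous_kc8 (N : ℕ) (P : ℝ) {S : ℝ} (hS : 0 ≤ S) : Continuous (kc8 N P S) := by
  unfold kc8
  refine continuous_const.add (Continuous.log ?_ fun a => ?_)
  · exact continuous_const.add ((Real.continuous_exp.comp continuous_neg).mul continuous_const)
  · have := mul_nonneg (Real.exp_pos (-a)).le hS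
    linarith

/-- The product of the weight of the level and of the contact functional is integrable. -/
theorem int_ctl8 (hi0 : Integrable (fun x : ℝ => x) μ) {g : ℝ → ℝ} (hg : Continuous g) (hgc : HasCompactSupport g) {p : ℕ → ℝ}
    (hp : ∀ i, 0 < p i) {k N : ℕ} {q : ℕ → ℝ} (hk : 1 ≤ k) (hq : ∀ j, j < k → 0 < q j) {lo hi : ℤ} (hlo : lo ≤ 0)
    (hhi : (k : ℤ) + N ≤ hi) {i : ℕ} (hi1 : i < N) {x : ℤ} (hx : x ∈ Finset.Icc (1 : ℤ) (1 + N)) :
    Integrable (fun z : ℝ × Env => g z.1 * ctl8 p k q lo hi N i x z.1 z.2) (volume.prod (law μ)) := by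
  obtain ⟨P, hPd⟩ : ∃ P : ℝ, P = ∑ i ∈ range N, p i := ⟨_, rfl⟩
  have hP0 : 0 ≤ P := hPd ▸ Finset.sum_nonneg fun i _ => (hp i).le
  have hP : ∀ i, i < N → p i ≤ P := fun i hi => hPd ▸ Finset.single_le_sum (f := p) (fun i _ => (hp i).le) (Finset.mem_range.2 hi)
  obtain ⟨S, hS⟩ : ∃ S : ℝ, S = ∑ j ∈ range k, q j := ⟨_, rfl⟩
  have hS0 : 0 ≤ S := hS ▸ Finset.sum_nonneg fun j hj => (hq j (Finset.mem_range.1 hj)).le
  have iM := int_Mb (μ := μ) hi0 lo hi N
  have iR : ∀ y : ℤ, Integrable (fun η => Mb lo hi N (rowD i y η)) (law μ) := fun y => (mp_rowD (μ := μ) (i : ℤ) y).integrable_comp_of_integrable iM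
  have iA : Integrable (fun η => 6 * (N * Mb lo hi N η) + N * Mb lo hi N (rowD i x η) + N * Mb lo hi N (rowD i (x - 1) η)) (law μ) :=
    (((iM.const_mul (N : ℝ)).const_mul 6).add ((iR x).const_mul (N : ℝ))).add ((iR (x - 1)).const_mul (N : ℝ))
  have ig : Integrable (fun a => |g a|) := (hg.integrable_of_hasCompactSupport hgc).abs
  have igk : Integrable (fun a => g a * kc8 N P S a) :=
    (hg.mul (continuous_kc8 N P hS0)).integrable_of_hasCompactSupport hgc.mul_right
  have i1 := ig.mul_prod iA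
  have i2 : Integrable (fun z : ℝ × Env => |g z.1 * kc8 N P S z.1|) (volume.prod (law μ)) := igk.abs.comp_fst (law μ)
  refine (i1.add (i2.const_mul 8)).mono' ((hg.measurable.comp measurable_fst).mul (meas_ctl8 p k q lo hi N i x)).aestronglyMeasurable
    (ae_of_all _ fun z => ?_)
  rw [Real.norm_eq_abs, abs_mul]
  have h1 := ctl8_le hp hk hq hlo hhi hP0 hP hi1 hx z.1 z.2
  rw [← hS] at h1
  have h2 := mul_le_mul_of_nonneg_left h1 (abs_nonneg (g z.1))
  have h3 : 0 ≤ kc8 N P S z.1 := by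
    unfold kc8
    have h4 : 0 ≤ Real.log (1 + P) := Real.log_nonneg (by linarith)
    have h5 : 0 ≤ Real.log (1 + Real.exp (-z.1) * S) := Real.log_nonneg (by
      have := mul_nonneg (Real.exp_pos (-z.1)).le hS0
      linarith)
    positivity
  simp only [Pi.add_apply]
  rw [abs_mul, abs_of_nonneg h3]
  refine h2.trans (le_of_eq ?_)
  ring

/-- **THE BRIDGE**: the comparison of the gap `1` and the gap `0`, weighted in the level, is the sum over the contacts. -/
theorem brg8 (hμ : EM μ) {g : ℝ → ℝ} (hg : Continuous g) (hgc : HasCompactSupport g) (M L : ℕ) {k : ℕ} {q : ℕ → ℝ} (hk : 1 ≤ k)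
    (hq : ∀ j, j < k → 0 < q j) {lo hi : ℤ} (hlo : lo ≤ 0) (hhi : (k : ℤ) + (M + L + 1 : ℕ) ≤ hi) :
    ∫ a : ℝ, g a * (Lg (law μ) (RL8 μ s σ h M L 0) (C1 (fun j => RL8 μ s σ h M L j) k q) a -
      Lg (law μ) (RL8 μ s σ h M L 0) (C0 (fun j => RL8 μ s σ h M L j) k q) a) =
    ∑ i ∈ range (M + L + 1), ∑ x ∈ Finset.Icc (1 : ℤ) (1 + (M + L + 1 : ℕ)),
      ∫ η, (∫ a : ℝ, g a * ctl8 (ps8 s h M) k q lo hi (M + L + 1) i x a η) ∂(law μ) := by
  have hi0 := em_int8 hμ
  have hp := ps8_pos s h M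
  obtain ⟨N, hN⟩ : ∃ N : ℕ, N = M + L + 1 := ⟨_, rfl⟩
  have hhi' : (k : ℤ) + N ≤ hi := by rw [hN]; exact hhi
  have e1 : ∀ a, Lg (law μ) (RL8 μ s σ h M L 0) (C1 (fun j => RL8 μ s σ h M L j) k q) a -
      Lg (law μ) (RL8 μ s σ h M L 0) (C0 (fun j => RL8 μ s σ h M L j) k q) a =
      ∑ i ∈ range N, ∑ x ∈ Finset.Icc (1 : ℤ) (1 + N), ∫ η, ctl8 (ps8 s h M) k q lo hi N i x a η ∂(law μ) := by
    intro a
    have hB := box8 (lo := lo) (hi := hi) (N := N) hk hq hlo hhi' a
    rw [lg_sub8 hμ M L hk hq hlo hhi a, ← hN, contr91P hi0 hp hB]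
    refine Finset.sum_congr rfl fun i hi' => ?_
    have hi1 := Finset.mem_range.1 hi'
    rw [integral_finsetSum _ fun x hx => ?_]
    · rfl
    · have h1 := (int_jg hi0 hp hB hi1 hx).sub (int_JG hi0 hp hB hi1 hx)
      refine h1.congr (ae_of_all _ fun η => ?_)
      simp only [Pi.sub_apply]
      ring
  simp only [e1]
  rw [← hN]
  have hint : ∀ i ∈ range N, ∀ x ∈ Finset.Icc (1 : ℤ) (1 + N),
      Integrable (fun z : ℝ × Env => g z.1 * ctl8 (ps8 s h M) k q lo hi N i x z.1 z.2) (volume.prod (law μ)) := fun i hi' x hx =>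
    int_ctl8 hi0 hg hgc hp hk hq hlo hhi' (Finset.mem_range.1 hi') hx
  have e2 : ∀ a, g a * ∑ i ∈ range N, ∑ x ∈ Finset.Icc (1 : ℤ) (1 + N), ∫ η, ctl8 (ps8 s h M) k q lo hi N i x a η ∂(law μ) =
      ∑ i ∈ range N, ∑ x ∈ Finset.Icc (1 : ℤ) (1 + N), ∫ η, g a * ctl8 (ps8 s h M) k q lo hi N i x a η ∂(law μ) := by
    intro a
    rw [Finset.mul_sum]
    refine Finset.sum_congr rfl fun i _ => ?_
    rw [Finset.mul_sum]
    exact Finset.sum_congr rfl fun x _ => (integral_const_mul _ _).symm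
  simp only [e2]
  rw [integral_finsetSum _ fun i hi' => integrable_finsetSum _ fun x hx => (hint i hi' x hx).integral_prod_left]
  refine Finset.sum_congr rfl fun i hi' => ?_
  rw [integral_finsetSum _ fun x hx => (hint i hi' x hx).integral_prod_left]
  refine Finset.sum_congr rfl fun x hx => ?_
  exact integral_integral_swap (f := fun (a : ℝ) (η : Env) => g a * ctl8 (ps8 s h M) k q lo hi N i x a η) (hint i hi' x hx)

end

end Pool.Agent.W_7d29a1_C1.H8
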