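import Pool.Agent.W_7d29a1_C1.LevF16
import Pool.Agent.W_7d29a1_C1.Rank26D
import Pool.Agent.W_7d29a1_C1.Basin76
import Pool.Agent.W_7d29a1_HS.Tg

/-!
MP_7d29a1_pr, [C1] THE BUFFER, base file (helper26): events of sets of sites (`OnR26` = `On20` of helper20, literally), the level at every
place (`UE26` = `FU24` of helper24, literally), and copies of small lemmas of helper20 (SlabS20) and helper24 (PinA24, PinB24, PinC24), so
that the import graph stays short.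
-/

set_option autoImplicit false

namespace Pool.Agent.W_7d29a1_C1.B26

open MeasureTheory ProbabilityTheory Filter Topology Finset
open Pool.Agent.W_7d29a1_F Pool.Agent.W_7d29a1_h4g Pool.Agent.W_7d29a1_H Pool.Agent.W_7d29a1_HS
open Pool.Agent.W_7d29a1_HL (real_inter_indep)
open Pool.Agent.W_7d29a1_C1
open Pool.Agent.W_7d29a1_C1.CR76 Pool.Agent.W_7d29a1_C1.Basin76
open Pool.Agent.W_7d29a1_C1.R26 (RK26)
open Pool.Agent.W_7d29a1_C1.H75 (hc)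
open Pool.Agent.W_7d29a1_C1.U16 (fq16 fq16_one fq16_mono lat16 Far16 far_W)

noncomputable section

variable {μ : Measure ℝ} {s c C : ℝ} {n₀ : ℕ}

/-- `E` is an event of the sites of `A`. -/
def OnR26 (A : Set Pt) (E : Set Env) : Prop := ∀ η η' : Env, (∀ p ∈ A, η p = η' p) → (η ∈ E ↔ η' ∈ E)

theorem OnR26.mono {A A' : Set Pt} {E : Set Env} (h : OnR26 A E) (hA : A ⊆ A') : OnR26 A' E :=
  fun η η' hh => h η η' fun p hp => hh p (hA hp)

theorem OnR26.inter {A : Set Pt} {E F : Set Env} (h : OnR26 A E) (h' : OnR26 A F) : OnR26 A (E ∩ F) :=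
  fun η η' hh => and_congr (h η η' hh) (h' η η' hh)

/-- The event `E` seen from the site `b`. -/
def atR26 (b : Pt) (E : Set Env) : Set Env := {η | sh b η ∈ E}

theorem meas_atR26 (b : Pt) {E : Set Env} (hE : MeasurableSet E) : MeasurableSet (atR26 b E) := by
  have : Measurable (sh b) := measurable_pi_iff.2 fun p => measurable_pi_apply (p + b)
  exact this hE

theorem real_atR26 [IsProbabilityMeasure μ] (b : Pt) {E : Set Env} (hE : MeasurableSet E) :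
    (law μ).real (atR26 b E) = (law μ).real E := real_sh b hE

theorem on_atR26 (b : Pt) {E : Set Env} {T : ℕ} (h : OnR26 (rows 0 (0 + T)) E) : OnR26 (rows b.1 (b.1 + T)) (atR26 b E) := by
  intro η η' hh
  refine h (sh b η) (sh b η') fun p hp => ?_
  show η (p + b) = η' (p + b)
  refine hh (p + b) ⟨?_, ?_⟩
  · have : 0 < p.1 := hp.1
    show b.1 < p.1 + b.1
    omega
  · have : p.1 ≤ 0 + T := hp.2
    show p.1 + b.1 ≤ b.1 + T
    omega

/-- The level of the kernels of the rows `b.1 .. b.1 + N`, at every place. -/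
def UE26 (μ : Measure ℝ) (s c : ℝ) (n N P : ℕ) (b : Pt) (q : ℝ) : Set Env :=
  {η | ∀ (p : Pt) (j : ℕ), b.1 ≤ p.1 → p.1 + j ≤ b.1 + N → ∀ y : ℤ,
    W μ s η p j y ≤ Real.exp (q * fq16 P (|lat16 μ s b p| / wd μ s n + 1) * EE μ s n - hc μ s c n * |(y : ℝ) - sl μ s * j|)}

theorem far_sub26 [IsProbabilityMeasure μ] {θ K q : ℝ} {n N P : ℕ} {b : Pt} (hq : 0 ≤ q) (hw : 1 ≤ wd μ s n) (hK : 3 ≤ K) :
    Far16 μ s c θ K n N P b q ⊆ UE26 μ s c n N P b q := fun _ hη _ _ h1 h2 y => far_W hq hw hη hK h1 h2 y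

/-! ### The factor of the level -/

theorem log_nn26 {x : ℝ} (hx : 0 ≤ x) : 0 ≤ Real.log (1 + x) := Real.log_nonneg (by linarith)

/-- Additivity. -/
theorem fq26_add (P : ℕ) {u v : ℝ} (hu : 0 ≤ u) (hv : 0 ≤ v) : fq16 P (u + v) ≤ 2 ^ P * (fq16 P u + Real.log (1 + v) ^ P) := by
  unfold fq16
  rw [abs_of_nonneg hu, abs_of_nonneg (add_nonneg hu hv)]
  have h2 := log_nn26 hu
  have h3 := log_nn26 hv
  have h1 : Real.log (1 + (u + v)) ≤ Real.log (1 + u) + Real.log (1 + v) := by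
    rw [← Real.log_mul (by positivity) (by positivity)]
    exact Real.log_le_log (by linarith) (by nlinarith)
  have h4 : 0 ≤ Real.log (1 + (u + v)) := log_nn26 (add_nonneg hu hv)
  have h5 : 1 + Real.log (1 + (u + v)) ≤ 2 * max (1 + Real.log (1 + u)) (Real.log (1 + v)) := by
    have g1 := le_max_left (1 + Real.log (1 + u)) (Real.log (1 + v))
    have g2 := le_max_right (1 + Real.log (1 + u)) (Real.log (1 + v))
    linarith
  refine (pow_le_pow_left₀ (by linarith) h5 P).trans ?_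
  rw [mul_pow]
  refine mul_le_mul_of_nonneg_left ?_ (by positivity)
  rcases le_total (1 + Real.log (1 + u)) (Real.log (1 + v)) with h6 | h6
  · rw [max_eq_right h6]
    have : 0 ≤ (1 + Real.log (1 + u)) ^ P := by positivity
    linarith
  · rw [max_eq_left h6]
    have : 0 ≤ Real.log (1 + v) ^ P := by positivity
    linarith

/-- A power of the logarithm is small. -/
theorem log_small26 (P : ℕ) {ε : ℝ} (hε : 0 < ε) : ∃ M : ℝ, 0 ≤ M ∧ ∀ v : ℝ, 0 ≤ v → Real.log (1 + v) ^ P ≤ ε * v + M := by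
  have h1 := (Real.isLittleO_pow_log_id_atTop (n := P)).def hε
  obtain ⟨X, hX⟩ := eventually_atTop.1 h1
  obtain ⟨Y, hY⟩ : ∃ Y : ℝ, Y = max X 1 := ⟨_, rfl⟩
  have hY1 : 1 ≤ Y := by rw [hY]; exact le_max_right _ _
  have hYX : X ≤ Y := by rw [hY]; exact le_max_left _ _
  have hYl : 0 ≤ Real.log Y := Real.log_nonneg hY1
  refine ⟨ε + Real.log Y ^ P, by positivity, fun v hv => ?_⟩
  have hv1 : 0 ≤ Real.log (1 + v) := log_nn26 hv
  rcases le_total Y (1 + v) with h2 | h2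
  · have h3 := hX (1 + v) (hYX.trans h2)
    rw [Real.norm_eq_abs, Real.norm_eq_abs, abs_of_nonneg (pow_nonneg hv1 P)] at h3
    have h4 : |id (1 + v)| = 1 + v := abs_of_nonneg (by simp only [id]; linarith)
    rw [h4] at h3
    have : 0 ≤ Real.log Y ^ P := by positivity
    nlinarith
  · have h3 : Real.log (1 + v) ≤ Real.log Y := Real.log_le_log (by linarith) h2
    have h4 := pow_le_pow_left₀ hv1 h3 P
    have h5 : 0 ≤ ε * v := by positivity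
    linarith

theorem fq_small26 (P : ℕ) {ε : ℝ} (hε : 0 < ε) : ∃ M : ℝ, 0 ≤ M ∧ ∀ v : ℝ, 0 ≤ v → fq16 P v ≤ ε * v + M := by
  obtain ⟨M, hM, hM'⟩ := log_small26 P (ε := ε / 2 ^ P) (by positivity)
  refine ⟨2 ^ P * (1 + M), by positivity, fun v hv => ?_⟩
  have h1 := fq26_add P (le_refl (0 : ℝ)) hv
  have h2 : fq16 P 0 = 1 := by
    unfold fq16
    simp
  rw [zero_add, h2] at h1
  have h3 := hM' v hv
  have h4 : (2 : ℝ) ^ P * Real.log (1 + v) ^ P ≤ 2 ^ P * (ε / 2 ^ P * v + M) := mul_le_mul_of_nonneg_left h3 (by positivity)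
  have h5 : (2 : ℝ) ^ P * (ε / 2 ^ P * v + M) = ε * v + 2 ^ P * M := by field_simp
  have h6 : fq16 P v ≤ 2 ^ P * 1 + 2 ^ P * Real.log (1 + v) ^ P := by linarith
  nlinarith

/-! ### Kernels -/

theorem kW_step26 (η : Env) (r : ℤ) (T m : ℕ) (x z : ℤ) (S : Finset ℤ) (hS : Icc x (x + T) ⊆ S) (g : ℤ → ℝ)
    (hg : ∀ y ∈ Icc x (x + T), kW μ s η (r + T) m y z = g y) :
    kW μ s η r (T + m) x z = ∑ y ∈ S, kW μ s η r T x y * g y := by
  rw [kW_comp' η r T m x z S hS]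
  unfold comp
  refine sum_congr rfl fun y _ => ?_
  by_cases hy : y ∈ Icc x (x + T)
  · rw [hg y hy]
  · rw [mem_Icc] at hy
    rw [kW_zero (μ := μ) (s := s) η r hy, zero_mul, zero_mul]

/-! ### Cells -/

/-- A cell. -/
def Ce26 (a : ℤ) (ρ : ℝ) : Finset ℤ := Icc (a - ⌊ρ⌋) (a + ⌊ρ⌋)

theorem mem_Ce26 {a y : ℤ} {ρ : ℝ} : y ∈ Ce26 a ρ ↔ |(y : ℝ) - a| ≤ ρ := by
  unfold Ce26
  rw [mem_Icc]
  constructor
  · rintro ⟨h1, h2⟩
    have h3 : (⌊ρ⌋ : ℝ) ≤ ρ := Int.floor_le ρ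
    have h4 : ((a - ⌊ρ⌋ : ℤ) : ℝ) ≤ y := by exact_mod_cast h1
    have h5 : (y : ℝ) ≤ ((a + ⌊ρ⌋ : ℤ) : ℝ) := by exact_mod_cast h2
    push_cast at h4 h5
    rw [abs_le]
    constructor <;> linarith
  · intro h
    have h1 : |y - a| ≤ ⌊ρ⌋ := by
      rw [Int.le_floor]
      push_cast
      exact h
    rw [abs_le] at h1
    constructor <;> omega

theorem rank_cells26 {η : Env} {r : ℤ} {T : ℕ} {a v : ℤ} {ρ ε : ℝ} (hε : 0 ≤ ε) (h1 : a + ⌊ρ⌋ ≤ v - ⌊ρ⌋) (h2 : v + ⌊ρ⌋ ≤ a - ⌊ρ⌋ + T)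
    (hη : η ∈ RK26 μ s r T (a - ⌊ρ⌋) (a + ⌊ρ⌋) (v - ⌊ρ⌋) (v + ⌊ρ⌋) ε) :
    ∀ y ∈ Ce26 a ρ, ∀ y' ∈ Ce26 a ρ, ∀ u ∈ Ce26 v ρ, ∀ u' ∈ Ce26 v ρ,
      kW μ s η r T y u * kW μ s η r T y' u' ≤ (1 + ε) * (kW μ s η r T y u' * kW μ s η r T y' u) := by
  have key : ∀ y ∈ Ce26 a ρ, ∀ y' ∈ Ce26 a ρ, ∀ u ∈ Ce26 v ρ, ∀ u' ∈ Ce26 v ρ, y ≤ y' → u ≤ u' →
      kW μ s η r T y u * kW μ s η r T y' u' ≤ (1 + ε) * (kW μ s η r T y u' * kW μ s η r T y' u) := by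
    intro y hy y' hy' u hu u' hu' hyy huu
    unfold Ce26 at hy hy' hu hu'
    rw [mem_Icc] at hy hy' hu hu'
    have hT := TP_kW (μ := μ) (s := s) η r T (a - ⌊ρ⌋) (a + ⌊ρ⌋)
    have m1 : ∀ t : ℤ, a - ⌊ρ⌋ ≤ t → t ≤ a + ⌊ρ⌋ → t ∈ {x : ℤ | a - ⌊ρ⌋ ≤ x ∧ x ≤ a + ⌊ρ⌋} := fun t g1 g2 => ⟨g1, g2⟩
    have m2 : ∀ t : ℤ, v - ⌊ρ⌋ ≤ t → t ≤ v + ⌊ρ⌋ → t ∈ {z : ℤ | a + ⌊ρ⌋ ≤ z ∧ z ≤ a - ⌊ρ⌋ + T} := fun t g1 g2 =>
      ⟨h1.trans g1, g2.trans h2⟩
    have h3 : CR (kW μ s η r T) y y' u u' ≤ CR (kW μ s η r T) (a - ⌊ρ⌋) (a + ⌊ρ⌋) (v - ⌊ρ⌋) (v + ⌊ρ⌋) :=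
      hT.CR_mono (m1 _ le_rfl (by omega)) (m1 _ hy.1 hy.2) (m1 _ hy'.1 hy'.2) (m1 _ (by omega) le_rfl)
        (m2 _ le_rfl (by omega)) (m2 _ hu.1 hu.2) (m2 _ hu'.1 hu'.2) (m2 _ (by omega) le_rfl)
        hy.1 hyy hy'.2 hu.1 huu hu'.2
    have h4 : CR (kW μ s η r T) y y' u u' ≤ 1 + ε := h3.trans hη
    have p1 : 0 < kW μ s η r T y u' := kW_pos η r (by omega) (by omega)
    have p2 : 0 < kW μ s η r T y' u := kW_pos η r (by omega) (by omega)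
    unfold CR at h4
    rwa [div_le_iff₀ (mul_pos p1 p2)] at h4
  have nn : ∀ y u : ℤ, 0 ≤ kW μ s η r T y u := fun y u => kW_nonneg η r T y u
  intro y hy y' hy' u hu u' hu'
  have up : ∀ t : ℝ, 0 ≤ t → t ≤ (1 + ε) * t := fun t ht => by nlinarith
  rcases le_total y y' with h3 | h3
  · rcases le_total u u' with h4 | h4
    · exact key y hy y' hy' u hu u' hu' h3 h4
    · have h5 := kW_minor (μ := μ) (s := s) η r T h3 h4
      exact h5.trans (up _ (mul_nonneg (nn _ _) (nn _ _)))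
  · rcases le_total u u' with h4 | h4
    · have h5 := kW_minor (μ := μ) (s := s) η r T h3 h4
      have h6 : kW μ s η r T y u * kW μ s η r T y' u' ≤ kW μ s η r T y u' * kW μ s η r T y' u := by linarith
      exact h6.trans (up _ (mul_nonneg (nn _ _) (nn _ _)))
    · have h5 := key y' hy' y hy u' hu' u hu h3 h4
      linarith

/-! ### Two blocks of rows -/

theorem indep26 [IsProbabilityMeasure μ] {r m h : ℤ} {E F : Set Env} {p₁ p₂ : ℝ} (h1 : r ≤ m) (h2 : m ≤ h) (hE : OnR26 (rows r m) E)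
    (hF : OnR26 (rows m h) F) (mE : MeasurableSet E) (mF : MeasurableSet F) (k1 : 0 ≤ p₁) (k2 : 0 ≤ p₂)
    (pE : p₁ ≤ (law μ).real E) (pF : p₂ ≤ (law μ).real F) :
    OnR26 (rows r h) (E ∩ F) ∧ MeasurableSet (E ∩ F) ∧ p₁ * p₂ ≤ (law μ).real (E ∩ F) := by
  have g1 : rows r m ⊆ rows r h := fun p hp => ⟨hp.1, hp.2.trans h2⟩
  have g2 : rows m h ⊆ rows r h := fun p hp => ⟨lt_of_le_of_lt h1 hp.1, hp.2⟩
  refine ⟨(hE.mono g1).inter (hF.mono g2), mE.inter mF, ?_⟩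
  rw [real_inter_indep (μ := μ) mE mF hE hF (by
    rw [Set.disjoint_left]
    intro p hp hp'
    exact absurd hp.2 (not_le.2 hp'.1))]
  exact mul_le_mul pE pF k2 (k1.trans pE)

end

end Pool.Agent.W_7d29a1_C1.B26
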