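import Pool.Agent.W_7d29a1_C1.BufD26

/-!
MP_7d29a1_pr, [C1] THE BUFFER BEHIND THE TWO LANES, the output (`BufO26`): rank one from each cell to the whole window, lower and upper
bounds relative to the strength `A` of the lanes, exits on both sides of the window with the weights `exp (be |L3 x| E)`, separation
at the column `s0`. `out26`: from the data of the two lanes. (helper26)
-/

set_option autoImplicit false

namespace Pool.Agent.W_7d29a1_C1.B26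

open Finset
open Pool.Agent.W_7d29a1_C1.CR76 (CR)

noncomputable section

variable {M F B : ℤ → ℤ → ℝ} {L0 L1 L2 L3 : ℤ → ℝ} {A C D C' D' : Set ℤ} {c d : ℤ}
  {lam lam' K0 K3 K E qM hM QF kF hF G dd W W' QB kB hB qB b rho be L : ℝ}

/-- **The output of the buffer.** Cells `[a1, b1]`, `[a2, b2]`, window `[xa, xb]`, column `s0`, strength `A`, errors `δ`, `exp (-(g E))`,
losses `ell` (at the end of the own lane, `|L3 x - lam| ≤ Kc`, and for the upper bound) and `ell0` (in the window). -/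
structure BufO26 (Kr : ℤ → ℤ → ℝ) (L3 : ℤ → ℝ) (E lam1 lam2 : ℝ) (a1 b1 a2 b2 xa xb s0 : ℤ) (A δ ell ell0 Kc be g : ℝ) : Prop where
  cr1 : CR Kr a1 b1 xa xb ≤ 1 + δ
  cr2 : CR Kr a2 b2 xa xb ≤ 1 + δ
  lowc1 : ∀ y : ℤ, a1 ≤ y → y ≤ b1 → ∀ x : ℤ, |L3 x - lam1| ≤ Kc → Real.exp (-(ell * E)) * A ≤ Kr y x
  lowc2 : ∀ y : ℤ, a2 ≤ y → y ≤ b2 → ∀ x : ℤ, |L3 x - lam2| ≤ Kc → Real.exp (-(ell * E)) * A ≤ Kr y x
  loww : ∀ y : ℤ, (a1 ≤ y ∧ y ≤ b1) ∨ (a2 ≤ y ∧ y ≤ b2) → ∀ x : ℤ, xa ≤ x → x ≤ xb → Real.exp (-(ell0 * E)) * A ≤ Kr y x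
  up : ∀ y : ℤ, (a1 ≤ y ∧ y ≤ b1) ∨ (a2 ≤ y ∧ y ≤ b2) → ∀ x : ℤ, Kr y x ≤ Real.exp (ell * E) * A
  exl : ∀ y : ℤ, (a1 ≤ y ∧ y ≤ b1) ∨ (a2 ≤ y ∧ y ≤ b2) → ∀ X : Finset ℤ, (∀ x ∈ X, x < xa) →
    ∑ x ∈ X, Kr y x * Real.exp (be * |L3 x| * E) ≤ Real.exp (-(g * E)) * A
  exr : ∀ y : ℤ, (a1 ≤ y ∧ y ≤ b1) ∨ (a2 ≤ y ∧ y ≤ b2) → ∀ X : Finset ℤ, (∀ x ∈ X, xb < x) →
    ∑ x ∈ X, Kr y x * Real.exp (be * |L3 x| * E) ≤ Real.exp (-(g * E)) * A
  sep1 : ∀ y : ℤ, a1 ≤ y → y ≤ b1 → ∀ X : Finset ℤ, (∀ x ∈ X, s0 < x) →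
    ∑ x ∈ X, Kr y x * Real.exp (be * |L3 x| * E) ≤ Real.exp (-(g * E)) * A
  sep2 : ∀ y : ℤ, a2 ≤ y → y ≤ b2 → ∀ X : Finset ℤ, (∀ x ∈ X, x ≤ s0) →
    ∑ x ∈ X, Kr y x * Real.exp (be * |L3 x| * E) ≤ Real.exp (-(g * E)) * A

/-- The same output for another kernel which agrees with the first one on the cells. -/
theorem BufO26.congr {Kr Kr' : ℤ → ℤ → ℝ} {L3 : ℤ → ℝ} {E lam1 lam2 : ℝ} {a1 b1 a2 b2 xa xb s0 : ℤ} {A δ ell ell0 Kc be g : ℝ}
    (H : BufO26 Kr L3 E lam1 lam2 a1 b1 a2 b2 xa xb s0 A δ ell ell0 Kc be g) (h1 : a1 ≤ b1) (h2 : a2 ≤ b2)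
    (he : ∀ y : ℤ, (a1 ≤ y ∧ y ≤ b1) ∨ (a2 ≤ y ∧ y ≤ b2) → ∀ x : ℤ, Kr' y x = Kr y x) :
    BufO26 Kr' L3 E lam1 lam2 a1 b1 a2 b2 xa xb s0 A δ ell ell0 Kc be g := by
  have m1 : (a1 ≤ a1 ∧ a1 ≤ b1) ∨ (a2 ≤ a1 ∧ a1 ≤ b2) := Or.inl ⟨le_rfl, h1⟩
  have m2 : (a1 ≤ b1 ∧ b1 ≤ b1) ∨ (a2 ≤ b1 ∧ b1 ≤ b2) := Or.inl ⟨h1, le_rfl⟩
  have m3 : (a1 ≤ a2 ∧ a2 ≤ b1) ∨ (a2 ≤ a2 ∧ a2 ≤ b2) := Or.inr ⟨le_rfl, h2⟩
  have m4 : (a1 ≤ b2 ∧ b2 ≤ b1) ∨ (a2 ≤ b2 ∧ b2 ≤ b2) := Or.inr ⟨h2, le_rfl⟩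
  refine ⟨?_, ?_, fun y hy hy' x hx => ?_, fun y hy hy' x hx => ?_, fun y hy x hx hx' => ?_, fun y hy x => ?_, fun y hy X hX => ?_,
    fun y hy X hX => ?_, fun y hy hy' X hX => ?_, fun y hy hy' X hX => ?_⟩
  · have h3 := H.cr1
    unfold CR at h3 ⊢
    rw [he _ m1, he _ m2, he _ m1, he _ m2]
    exact h3
  · have h3 := H.cr2
    unfold CR at h3 ⊢
    rw [he _ m3, he _ m4, he _ m3, he _ m4]
    exact h3
  · rw [he y (Or.inl ⟨hy, hy'⟩) x]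
    exact H.lowc1 y hy hy' x hx
  · rw [he y (Or.inr ⟨hy, hy'⟩) x]
    exact H.lowc2 y hy hy' x hx
  · rw [he y hy x]
    exact H.loww y hy x hx hx'
  · rw [he y hy x]
    exact H.up y hy x
  · refine le_trans (le_of_eq ?_) (H.exl y hy X hX)
    exact sum_congr rfl fun x _ => by rw [he y hy x]
  · refine le_trans (le_of_eq ?_) (H.exr y hy X hX)
    exact sum_congr rfl fun x _ => by rw [he y hy x]
  · refine le_trans (le_of_eq ?_) (H.sep1 y hy hy' X hX)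
    exact sum_congr rfl fun x _ => by rw [he y (Or.inl ⟨hy, hy'⟩) x]
  · refine le_trans (le_of_eq ?_) (H.sep2 y hy hy' X hX)
    exact sum_congr rfl fun x _ => by rw [he y (Or.inr ⟨hy, hy'⟩) x]

section nb

variable (h : BH26 M F B L0 L1 L2 L3 A C D C' D' c d lam lam' K0 K3 K E qM hM QF kF hF G dd W W' QB kB hB qB b rho be L)
include h

theorem Nle26 {a : ℤ} (ha : a ∈ A) : Nn M c W a ≤ Real.exp (qM * E) * W := by
  obtain ⟨-, -, -, -, -, q6, -⟩ := h.q0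
  unfold Nn
  refine mul_le_mul_of_nonneg_right ?_ h.Wpos.le
  refine (h.Mup a ha c).trans (Real.exp_le_exp.2 ?_)
  refine mul_le_mul_of_nonneg_right ?_ h.E0.le
  have := mul_nonneg q6 (abs_nonneg (L1 c - L0 a))
  linarith

theorem Nge26 {a : ℤ} (ha : a ∈ A) : Real.exp (-(qM * E)) * W ≤ Nn M c W a := by
  unfold Nn
  exact mul_le_mul_of_nonneg_right (h.Mlo a ha) h.Wpos.le

theorem nK26 {S1 S2 : Finset ℤ} (a x : ℤ) : 0 ≤ K3k M F B S1 S2 a x := by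
  unfold K3k
  exact sum_nonneg fun u _ => sum_nonneg fun v _ => mul_nonneg (mul_nonneg (h.nM _ _) (h.nF _ _)) (h.nB _ _)

end nb

section wx

variable {S1 S2 : Finset ℤ}
  (h : BH26 M F B L0 L1 L2 L3 A C D C' D' c d lam lam' K0 K3 K E qM hM QF kF hF G dd W W' QB kB hB qB b rho be L)
  {g : ℝ} (hg : Gp26 lam lam' K0 K3 qM hM QF kF G dd QB kB hB qB rho be g)
include h hg

/-- The upper bound, relative to the lane. -/
theorem up26 (hg0 : 0 ≤ g) {R : ℝ} (hR : (S1.card * S2.card : ℝ) ≤ R) {a : ℤ} (ha : a ∈ A) (x : ℤ) :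
    K3k M F B S1 S2 a x ≤ R * (2 * Real.exp ((3 * qM + dd + qB + hB * rho) * E)) * W := by
  obtain ⟨q1, q2, q3, q4, q5, q6, q7, q8, q9, q10, q11, q12, q13⟩ := h.q0
  have hE := h.E0
  have hW := h.Wpos
  have hr := h.rho0
  have h1 := env26 (S1 := S1) (S2 := S2) h hg ha x
  have hN := (h.Npos ha).le
  have h2 : Real.exp ((2 * qM + dd + qB + hB * rho - hB * |L3 x - lam|) * E) ≤ Real.exp ((2 * qM + dd + qB + hB * rho) * E) := by
    refine Real.exp_le_exp.2 (mul_le_mul_of_nonneg_right ?_ hE.le)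
    have := mul_nonneg q8 (abs_nonneg (L3 x - lam))
    linarith
  have h3 : Real.exp ((-g - be * |L3 x|) * E) ≤ Real.exp ((2 * qM + dd + qB + hB * rho) * E) := by
    refine Real.exp_le_exp.2 (mul_le_mul_of_nonneg_right ?_ hE.le)
    have g1 := mul_nonneg q11 (abs_nonneg (L3 x))
    have g2 := mul_nonneg q8 hr
    linarith
  have hR0 : 0 ≤ R := le_trans (by positivity) hR
  calc K3k M F B S1 S2 a x ≤ _ := h1
    _ ≤ R * ((2 * Real.exp ((2 * qM + dd + qB + hB * rho) * E)) * Nn M c W a) := by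
        refine mul_le_mul hR (mul_le_mul_of_nonneg_right (by linarith) hN) ?_ hR0
        positivity
    _ ≤ R * ((2 * Real.exp ((2 * qM + dd + qB + hB * rho) * E)) * (Real.exp (qM * E) * W)) :=
        mul_le_mul_of_nonneg_left (mul_le_mul_of_nonneg_left (Nle26 h ha) (by positivity)) hR0
    _ = R * (2 * (Real.exp ((2 * qM + dd + qB + hB * rho) * E) * Real.exp (qM * E))) * W := by ring
    _ = _ := by
        rw [← Real.exp_add]
        congr 4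
        ring

/-- **Weighted sums over a set of ends which is far from the lane.** -/
theorem wex26 {g' R : ℝ} (hgg : g' ≤ g) {a : ℤ} (ha : a ∈ A) {X : Finset ℤ} (hR : (X.card : ℝ) * (S1.card * S2.card : ℝ) ≤ R)
    (hX : ∀ x ∈ X, 2 * qM + dd + qB + hB * rho + be * |L3 x| + g' ≤ hB * |L3 x - lam|) :
    ∑ x ∈ X, K3k M F B S1 S2 a x * Real.exp (be * |L3 x| * E) ≤ R * (2 * Real.exp ((qM - g') * E)) * W := by
  have hE := h.E0
  have hN := (h.Npos ha).le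
  have hW := h.Wpos
  have key : ∀ x ∈ X, K3k M F B S1 S2 a x * Real.exp (be * |L3 x| * E) ≤
      (S1.card * S2.card : ℝ) * (2 * Real.exp (-(g' * E))) * Nn M c W a := by
    intro x hx
    have h1 := mul_le_mul_of_nonneg_right (env26 (S1 := S1) (S2 := S2) h hg ha x) (Real.exp_pos (be * |L3 x| * E)).le
    have h2 : Real.exp ((2 * qM + dd + qB + hB * rho - hB * |L3 x - lam|) * E) * Real.exp (be * |L3 x| * E) ≤
        Real.exp (-(g' * E)) := by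
      rw [← Real.exp_add, ← add_mul]
      refine Real.exp_le_exp.2 ?_
      rw [← neg_mul]
      refine mul_le_mul_of_nonneg_right ?_ hE.le
      linarith [hX x hx]
    have h3 : Real.exp ((-g - be * |L3 x|) * E) * Real.exp (be * |L3 x| * E) ≤ Real.exp (-(g' * E)) := by
      rw [← Real.exp_add, ← add_mul]
      refine Real.exp_le_exp.2 ?_
      rw [← neg_mul]
      refine mul_le_mul_of_nonneg_right ?_ hE.le
      linarith
    refine h1.trans ?_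
    calc (S1.card * S2.card : ℝ) * ((Real.exp ((2 * qM + dd + qB + hB * rho - hB * |L3 x - lam|) * E) +
          Real.exp ((-g - be * |L3 x|) * E)) * Nn M c W a) * Real.exp (be * |L3 x| * E)
        = (S1.card * S2.card : ℝ) * (Real.exp ((2 * qM + dd + qB + hB * rho - hB * |L3 x - lam|) * E) * Real.exp (be * |L3 x| * E) +
          Real.exp ((-g - be * |L3 x|) * E) * Real.exp (be * |L3 x| * E)) * Nn M c W a := by ring
      _ ≤ _ := by
        refine mul_le_mul_of_nonneg_right (mul_le_mul_of_nonneg_left ?_ (by positivity)) hN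
        linarith
  have hR0 : 0 ≤ R := le_trans (by positivity) hR
  calc ∑ x ∈ X, K3k M F B S1 S2 a x * Real.exp (be * |L3 x| * E) ≤
      ∑ _x ∈ X, (S1.card * S2.card : ℝ) * (2 * Real.exp (-(g' * E))) * Nn M c W a := sum_le_sum key
    _ = ((X.card : ℝ) * (S1.card * S2.card : ℝ)) * ((2 * Real.exp (-(g' * E))) * Nn M c W a) := by
        rw [sum_const, nsmul_eq_mul]
        ring
    _ ≤ R * ((2 * Real.exp (-(g' * E))) * (Real.exp (qM * E) * W)) := by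
        refine mul_le_mul hR (mul_le_mul_of_nonneg_left (Nle26 h ha) (by positivity)) (by positivity) hR0
    _ = R * (2 * (Real.exp (-(g' * E)) * Real.exp (qM * E))) * W := by ring
    _ = _ := by
        rw [← Real.exp_add]
        congr 4
        ring

end wx

/-- The lower bound through the lane, in general form. -/
theorem low26g {S1 S2 : Finset ℤ}
    (h : BH26 M F B L0 L1 L2 L3 A C D C' D' c d lam lam' K0 K3 K E qM hM QF kF hF G dd W W' QB kB hB qB b rho be L)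
    (hc : c ∈ S1) (hd : d ∈ S2) (a x : ℤ) : Nn M c W a * B d x ≤ K3k M F B S1 S2 a x := by
  have nn : ∀ u v, 0 ≤ M a u * F u v * B v x := fun u v => mul_nonneg (mul_nonneg (h.nM _ _) (h.nF _ _)) (h.nB _ _)
  have h1 := single_le_sum (f := fun u => ∑ v ∈ S2, M a u * F u v * B v x) (fun u _ => sum_nonneg fun v _ => nn u v) hc
  have h2 := single_le_sum (f := fun v => M a c * F c v * B v x) (fun v _ => nn c v) hd
  refine le_trans ?_ (h2.trans h1)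
  unfold Nn
  exact mul_le_mul_of_nonneg_right (mul_le_mul_of_nonneg_left h.WF (h.nM a c)) (h.nB d x)

/-- **The envelope of the whole kernel**, from every start. -/
theorem all26 {S1 S2 : Finset ℤ} {E QM kM hM QF kF hF QB kB hB h1 R Q1 : ℝ} (hE : 0 ≤ E) (nM : ∀ a u, 0 ≤ M a u) (nF : ∀ u v, 0 ≤ F u v)
    (nB : ∀ v x, 0 ≤ B v x) (Mup : ∀ a u, M a u ≤ Real.exp ((QM + kM * |L0 a| - hM * |L1 u - L0 a|) * E))
    (Fup : ∀ u v, F u v ≤ Real.exp ((QF + kF * |L1 u| - hF * |L2 v - L1 u|) * E))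
    (Bup : ∀ v x, B v x ≤ Real.exp ((QB + kB * |L2 v| - hB * |L3 x - L2 v|) * E)) (kF0 : 0 ≤ kF) (kB0 : 0 ≤ kB) (h10 : 0 ≤ h1)
    (e1 : h1 + kF + kB ≤ hM) (e2 : h1 + kB ≤ hF) (e3 : h1 ≤ hB) (hR1 : (S1.card * S2.card : ℝ) ≤ R) (hR : R ≤ Real.exp E)
    (hQ : QM + QF + QB + 1 ≤ Q1) (a x : ℤ) :
    K3k M F B S1 S2 a x ≤ Real.exp ((Q1 + (kM + kF + kB) * |L0 a| - h1 * |L3 x - L0 a|) * E) := by
  have key : ∀ u v, M a u * F u v * B v x ≤ Real.exp ((QM + QF + QB + (kM + kF + kB) * |L0 a| - h1 * |L3 x - L0 a|) * E) := by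
    intro u v
    refine (prod3 (nM a u) (nF u v) (nB v x) (Mup a u) (Fup u v) (Bup v x)).trans (Real.exp_le_exp.2 ?_)
    rw [← add_mul, ← add_mul]
    refine mul_le_mul_of_nonneg_right ?_ hE
    have t1 : |L3 x - L0 a| ≤ |L3 x - L2 v| + |L2 v - L1 u| + |L1 u - L0 a| := by
      have g : L3 x - L0 a = (L3 x - L2 v) + (L2 v - L1 u) + (L1 u - L0 a) := by ring
      calc |L3 x - L0 a| = |(L3 x - L2 v) + (L2 v - L1 u) + (L1 u - L0 a)| := by rw [← g]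
        _ ≤ |(L3 x - L2 v) + (L2 v - L1 u)| + |L1 u - L0 a| := abs_add_le _ _
        _ ≤ _ := by linarith [abs_add_le (L3 x - L2 v) (L2 v - L1 u)]
    have t2 : |L2 v| ≤ |L2 v - L1 u| + |L1 u - L0 a| + |L0 a| := by
      have g : L2 v = (L2 v - L1 u) + (L1 u - L0 a) + L0 a := by ring
      calc |L2 v| = |(L2 v - L1 u) + (L1 u - L0 a) + L0 a| := by rw [← g]
        _ ≤ |(L2 v - L1 u) + (L1 u - L0 a)| + |L0 a| := abs_add_le _ _
        _ ≤ _ := by linarith [abs_add_le (L2 v - L1 u) (L1 u - L0 a)]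
    have t3 : |L1 u| ≤ |L1 u - L0 a| + |L0 a| := by
      have := abs_add_le (L1 u - L0 a) (L0 a)
      rwa [sub_add_cancel] at this
    have y1 := abs_nonneg (L1 u - L0 a)
    have y2 := abs_nonneg (L2 v - L1 u)
    have y3 := abs_nonneg (L3 x - L2 v)
    have z1 := mul_le_mul_of_nonneg_left t1 h10
    have z2 := mul_le_mul_of_nonneg_left t2 kB0
    have z3 := mul_le_mul_of_nonneg_left t3 kF0
    have w1 := mul_le_mul_of_nonneg_right e1 y1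
    have w2 := mul_le_mul_of_nonneg_right e2 y2
    have w3 := mul_le_mul_of_nonneg_right e3 y3
    linarith
  have hR0 : 0 ≤ R := le_trans (by positivity) hR1
  unfold K3k
  calc ∑ u ∈ S1, ∑ v ∈ S2, M a u * F u v * B v x ≤ ∑ _u ∈ S1, ∑ _v ∈ S2,
        Real.exp ((QM + QF + QB + (kM + kF + kB) * |L0 a| - h1 * |L3 x - L0 a|) * E) := sum_le_sum fun u _ => sum_le_sum fun v _ => key u v
    _ = (S1.card * S2.card : ℝ) * Real.exp ((QM + QF + QB + (kM + kF + kB) * |L0 a| - h1 * |L3 x - L0 a|) * E) := by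
        rw [sum_const, sum_const, nsmul_eq_mul, nsmul_eq_mul]
        ring
    _ ≤ Real.exp E * Real.exp ((QM + QF + QB + (kM + kF + kB) * |L0 a| - h1 * |L3 x - L0 a|) * E) :=
        mul_le_mul_of_nonneg_right (hR1.trans hR) (Real.exp_pos _).le
    _ = Real.exp ((QM + QF + QB + 1 + (kM + kF + kB) * |L0 a| - h1 * |L3 x - L0 a|) * E) := by
        rw [← Real.exp_add]
        congr 1
        ring
    _ ≤ _ := by
        refine Real.exp_le_exp.2 (mul_le_mul_of_nonneg_right ?_ hE)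
        linarith

/-- The numbers of the output. -/
structure On26 (K0 E qM dd qB hB rho be b b' Kx sg R g0 g' ell ell0 g : ℝ) : Prop where
  g'0 : g' ≤ g0
  g00 : 0 ≤ g0
  ex : 2 * qM + dd + qB + hB * rho + hB * K0 + g' ≤ (hB - be) * Kx
  sp : 2 * qM + dd + qB + hB * rho + be * K0 + g' ≤ (hB - be) * sg
  RE : 2 * R ≤ Real.exp E
  el1 : 3 * qM + 2 * dd + qB + hB * rho + 1 ≤ ell
  el2 : b' + qM + dd ≤ ell
  el0 : b + qM + dd ≤ ell0
  gg : g + qM + dd + 1 ≤ g'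

/-- One lane. -/
theorem one26 {S1 S2 S3 : Finset ℤ}
    (h : BH26 M F B L0 L1 L2 L3 A C D C' D' c d lam lam' K0 K3 K E qM hM QF kF hF G dd W W' QB kB hB qB b rho be L)
    {b' Kx sg R g0 g' ell ell0 g W1 : ℝ} (hn : On26 K0 E qM dd qB hB rho be b b' Kx sg R g0 g' ell ell0 g)
    (hg : Gp26 lam lam' K0 K3 qM hM QF kF G dd QB kB hB qB rho be g0) (hc : c ∈ S1) (hd : d ∈ S2)
    (hW1 : W ≤ Real.exp (dd * E) * W1) (hW2 : W1 ≤ Real.exp (dd * E) * W)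
    (hS3 : ∀ y ∈ A, ∀ x : ℤ, x ∉ S3 → K3k M F B S1 S2 y x = 0)
    (hR1 : (S1.card * S2.card : ℝ) ≤ R) (hR2 : (S3.card : ℝ) * (S1.card * S2.card : ℝ) ≤ R) {Kc : ℝ}
    (hb : ∀ x : ℤ, |L3 x - lam| ≤ Kc → Real.exp (-(b' * E)) ≤ B d x) {y : ℤ} (hy : y ∈ A) :
    (∀ x : ℤ, |L3 x - lam| ≤ Kc → Real.exp (-(ell * E)) * W1 ≤ K3k M F B S1 S2 y x) ∧
    (∀ x : ℤ, |L3 x| ≤ K → Real.exp (-(ell0 * E)) * W1 ≤ K3k M F B S1 S2 y x) ∧
    (∀ x : ℤ, K3k M F B S1 S2 y x ≤ Real.exp (ell * E) * W1) ∧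
    (∀ X : Finset ℤ, (∀ x ∈ X, Kx ≤ |L3 x|) →
      ∑ x ∈ X, K3k M F B S1 S2 y x * Real.exp (be * |L3 x| * E) ≤ Real.exp (-(g * E)) * W1) ∧
    ∀ X : Finset ℤ, (∀ x ∈ X, sg ≤ |L3 x - lam|) →
      ∑ x ∈ X, K3k M F B S1 S2 y x * Real.exp (be * |L3 x| * E) ≤ Real.exp (-(g * E)) * W1 := by
  classical
  obtain ⟨q1, q2, q3, q4, q5, q6, q7, q8, q9, q10, q11, q12, q13⟩ := h.q0
  have hE := h.E0
  have hW := h.Wpos
  have hW10 : 0 < W1 := by
    have := lt_of_lt_of_le hW hW1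
    by_contra hcon
    exact absurd this (not_lt.2 (mul_nonpos_of_nonneg_of_nonpos (Real.exp_pos _).le (not_lt.1 hcon)))
  have hlam : |lam| ≤ K0 := by linarith [h.lK, h.rho0]
  have hNN := Nge26 h hy
  have hN1 : Real.exp (-((qM + dd) * E)) * W1 ≤ Nn M c W y := by
    refine le_trans ?_ hNN
    have g1 := mul_le_mul_of_nonneg_left hW2 (Real.exp_pos (-((qM + dd) * E))).le
    refine g1.trans (le_of_eq ?_)
    rw [← mul_assoc, ← Real.exp_add]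
    congr 2
    ring
  have low : ∀ (t e : ℝ) (x : ℤ), t + qM + dd ≤ e → Real.exp (-(t * E)) ≤ B d x → Real.exp (-(e * E)) * W1 ≤ K3k M F B S1 S2 y x := by
    intro t e x hte hx
    have g1 := mul_le_mul hN1 hx (Real.exp_pos _).le (h.Npos hy).le
    refine le_trans ?_ (g1.trans (low26g h hc hd y x))
    rw [mul_assoc, mul_comm W1, ← mul_assoc, ← Real.exp_add]
    refine mul_le_mul_of_nonneg_right (Real.exp_le_exp.2 ?_) hW10.le
    have := mul_le_mul_of_nonneg_right hte hE.le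
    linarith
  have fin : ∀ X : Finset ℤ, (∀ x ∈ X, 2 * qM + dd + qB + hB * rho + be * |L3 x| + g' ≤ hB * |L3 x - lam|) →
      ∑ x ∈ X, K3k M F B S1 S2 y x * Real.exp (be * |L3 x| * E) ≤ Real.exp (-(g * E)) * W1 := by
    intro X hX
    have e1 : ∑ x ∈ X, K3k M F B S1 S2 y x * Real.exp (be * |L3 x| * E) =
        ∑ x ∈ X.filter (fun x => x ∈ S3), K3k M F B S1 S2 y x * Real.exp (be * |L3 x| * E) := by
      symm
      refine sum_subset (filter_subset _ _) fun x hx hx' => ?_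
      have hx3 : x ∉ S3 := fun hcon => hx' (mem_filter.2 ⟨hx, hcon⟩)
      rw [hS3 y hy x hx3, zero_mul]
    have hcd : (((X.filter (fun x => x ∈ S3)).card : ℕ) : ℝ) ≤ S3.card := by
      exact_mod_cast card_le_card fun x hx => (mem_filter.1 hx).2
    rw [e1]
    refine (wex26 h hg hn.g'0 hy (X := X.filter (fun x => x ∈ S3)) (R := R)
      ((mul_le_mul_of_nonneg_right hcd (by positivity)).trans hR2) fun x hx => hX x (mem_filter.1 hx).1).trans ?_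
    have hR0 : 0 ≤ R := le_trans (by positivity) hR1
    calc R * (2 * Real.exp ((qM - g') * E)) * W = (2 * R) * Real.exp ((qM - g') * E) * W := by ring
      _ ≤ Real.exp E * Real.exp ((qM - g') * E) * (Real.exp (dd * E) * W1) :=
          mul_le_mul (mul_le_mul_of_nonneg_right hn.RE (Real.exp_pos _).le) hW1 hW.le (by positivity)
      _ = Real.exp (E + (qM - g') * E + dd * E) * W1 := by
          rw [Real.exp_add, Real.exp_add]
          ring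
      _ ≤ _ := by
          refine mul_le_mul_of_nonneg_right (Real.exp_le_exp.2 ?_) hW10.le
          have := mul_le_mul_of_nonneg_right hn.gg hE.le
          linarith
  refine ⟨fun x hx => low b' ell x hn.el2 (hb x hx), fun x hx => low b ell0 x hn.el0 (h.Blo x hx), fun x => ?_, fun X hX => fin X ?_,
    fun X hX => fin X ?_⟩
  · refine (up26 h hg hn.g00 hR1 hy x).trans ?_
    calc R * (2 * Real.exp ((3 * qM + dd + qB + hB * rho) * E)) * W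
        = (2 * R) * Real.exp ((3 * qM + dd + qB + hB * rho) * E) * W := by ring
      _ ≤ Real.exp E * Real.exp ((3 * qM + dd + qB + hB * rho) * E) * (Real.exp (dd * E) * W1) :=
          mul_le_mul (mul_le_mul_of_nonneg_right hn.RE (Real.exp_pos _).le) hW1 hW.le (by positivity)
      _ = Real.exp (E + (3 * qM + dd + qB + hB * rho) * E + dd * E) * W1 := by
          rw [Real.exp_add, Real.exp_add]
          ring
      _ ≤ _ := by
          refine mul_le_mul_of_nonneg_right (Real.exp_le_exp.2 ?_) hW10.le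
          have := mul_le_mul_of_nonneg_right hn.el1 hE.le
          linarith
  · intro x hx
    have g1 := hX x hx
    have g2 := abs_sub_abs_le_abs_sub (L3 x) lam
    have g3 : hB * (|L3 x| - K0) ≤ hB * |L3 x - lam| := mul_le_mul_of_nonneg_left (by linarith) q8
    have g4 : (hB - be) * Kx ≤ (hB - be) * |L3 x| := mul_le_mul_of_nonneg_left g1 (by linarith [h.n3])
    linarith [hn.ex]
  · intro x hx
    have g1 := hX x hx
    have g2 : |L3 x| ≤ |L3 x - lam| + K0 := by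
      have := abs_add_le (L3 x - lam) lam
      rw [sub_add_cancel] at this
      linarith
    have g3 : be * |L3 x| ≤ be * (|L3 x - lam| + K0) := mul_le_mul_of_nonneg_left g2 q11
    have g4 : (hB - be) * sg ≤ (hB - be) * |L3 x - lam| := mul_le_mul_of_nonneg_left g1 (by linarith [h.n3])
    linarith [hn.sp]

/-- **THE OUTPUT OF THE BUFFER.** -/
theorem out26 {A1 A2 C1 C2 D1 D2 : Set ℤ} {c1 c2 d1 d2 : ℤ} {lam1 lam2 W1 W2 : ℝ} {S1 S2 S3 : Finset ℤ} {a1 b1 a2 b2 xa xb s0 : ℤ}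
    (h1 : BH26 M F B L0 L1 L2 L3 A1 C1 D1 C2 D2 c1 d1 lam1 lam2 K0 K3 K E qM hM QF kF hF G dd W1 W2 QB kB hB qB b rho be L)
    (h2 : BH26 M F B L0 L1 L2 L3 A2 C2 D2 C1 D1 c2 d2 lam2 lam1 K0 K3 K E qM hM QF kF hF G dd W2 W1 QB kB hB qB b rho be L)
    {b' Kx sg R g0 g' ell ell0 g : ℝ} (hn : On26 K0 E qM dd qB hB rho be b b' Kx sg R g0 g' ell ell0 g)
    (hg1 : Gp26 lam1 lam2 K0 K3 qM hM QF kF G dd QB kB hB qB rho be g0)
    (hg2 : Gp26 lam2 lam1 K0 K3 qM hM QF kF G dd QB kB hB qB rho be g0) (hc1 : c1 ∈ S1) (hd1 : d1 ∈ S2) (hc2 : c2 ∈ S1) (hd2 : d2 ∈ S2)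
    (hy1 : ∀ y : ℤ, a1 ≤ y → y ≤ b1 → y ∈ A1) (hy2 : ∀ y : ℤ, a2 ≤ y → y ≤ b2 → y ∈ A2) (ha1 : a1 ≤ b1) (ha2 : a2 ≤ b2)
    (hxx : xa ≤ xb) (hwin : ∀ x : ℤ, xa ≤ x → x ≤ xb → |L3 x| ≤ K) (hxa : ∀ x : ℤ, x < xa → Kx ≤ |L3 x|)
    (hxb : ∀ x : ℤ, xb < x → Kx ≤ |L3 x|) (hs1 : ∀ x : ℤ, s0 < x → sg ≤ |L3 x - lam1|) (hs2 : ∀ x : ℤ, x ≤ s0 → sg ≤ |L3 x - lam2|)
    (hS1 : ∀ y ∈ A1, ∀ x : ℤ, x ∉ S3 → K3k M F B S1 S2 y x = 0) (hS2 : ∀ y ∈ A2, ∀ x : ℤ, x ∉ S3 → K3k M F B S1 S2 y x = 0)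
    (hR1 : (S1.card * S2.card : ℝ) ≤ R) (hR2 : (S3.card : ℝ) * (S1.card * S2.card : ℝ) ≤ R) {Kc : ℝ}
    (hb1 : ∀ x : ℤ, |L3 x - lam1| ≤ Kc → Real.exp (-(b' * E)) ≤ B d1 x)
    (hb2 : ∀ x : ℤ, |L3 x - lam2| ≤ Kc → Real.exp (-(b' * E)) ≤ B d2 x)
    {ε τ δ : ℝ} (hε : 0 ≤ ε) (hτ : 0 ≤ τ)
    (hr1 : ∀ a ∈ A1, ∀ a' ∈ A1, ∀ u ∈ C1, ∀ u' ∈ C1, M a u * M a' u' ≤ (1 + ε) * (M a u' * M a' u))
    (hr2 : ∀ a ∈ A2, ∀ a' ∈ A2, ∀ u ∈ C2, ∀ u' ∈ C2, M a u * M a' u' ≤ (1 + ε) * (M a u' * M a' u))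
    (ht : (S1.card * S2.card : ℝ) * Real.exp ((b - g0) * E) ≤ τ) (hδ : (1 + τ) ^ 2 * (1 + ε) ≤ 1 + δ) :
    BufO26 (K3k M F B S1 S2) L3 E lam1 lam2 a1 b1 a2 b2 xa xb s0 W1 δ ell ell0 Kc be g := by
  have hE := h1.E0
  have hW1 := h1.Wpos
  have q5 : 0 ≤ dd := h1.q0.2.2.2.2.1
  have hW11 : W1 ≤ Real.exp (dd * E) * W1 := by
    have : (1 : ℝ) ≤ Real.exp (dd * E) := Real.one_le_exp (mul_nonneg q5 hE.le)
    nlinarith
  have r1 : ∀ y : ℤ, a1 ≤ y → y ≤ b1 → _ := fun y g1 g2 =>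
    one26 (W1 := W1) h1 hn hg1 hc1 hd1 hW11 hW11 hS1 hR1 hR2 hb1 (hy1 y g1 g2)
  have r2 : ∀ y : ℤ, a2 ≤ y → y ≤ b2 → _ := fun y g1 g2 =>
    one26 (W1 := W1) h2 hn hg2 hc2 hd2 h1.WW h2.WW hS2 hR1 hR2 hb2 (hy2 y g1 g2)
  refine ⟨?_, ?_, fun y g1 g2 => (r1 y g1 g2).1, fun y g1 g2 => (r2 y g1 g2).1, fun y hy x g1 g2 => ?_, fun y hy => ?_,
    fun y hy X hX => ?_, fun y hy X hX => ?_, fun y g1 g2 X hX => ?_, fun y g1 g2 X hX => ?_⟩
  · exact (cr26 h1 hg1 hc1 hd1 hε hτ hr1 ht (hy1 _ le_rfl ha1) (hy1 _ ha1 le_rfl) (hwin _ le_rfl hxx) (hwin _ hxx le_rfl)).trans hδ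
  · exact (cr26 h2 hg2 hc2 hd2 hε hτ hr2 ht (hy2 _ le_rfl ha2) (hy2 _ ha2 le_rfl) (hwin _ le_rfl hxx) (hwin _ hxx le_rfl)).trans hδ
  · rcases hy with hy | hy
    · exact (r1 y hy.1 hy.2).2.1 x (hwin x g1 g2)
    · exact (r2 y hy.1 hy.2).2.1 x (hwin x g1 g2)
  · rcases hy with hy | hy
    · exact (r1 y hy.1 hy.2).2.2.1
    · exact (r2 y hy.1 hy.2).2.2.1
  · rcases hy with hy | hy
    · exact (r1 y hy.1 hy.2).2.2.2.1 X fun x hx => hxa x (hX x hx)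
    · exact (r2 y hy.1 hy.2).2.2.2.1 X fun x hx => hxa x (hX x hx)
  · rcases hy with hy | hy
    · exact (r1 y hy.1 hy.2).2.2.2.1 X fun x hx => hxb x (hX x hx)
    · exact (r2 y hy.1 hy.2).2.2.2.1 X fun x hx => hxb x (hX x hx)
  · exact (r1 y g1 g2).2.2.2.2 X fun x hx => hs1 x (hX x hx)
  · exact (r2 y g1 g2).2.2.2.2 X fun x hx => hs2 x (hX x hx)

end

end Pool.Agent.W_7d29a1_C1.B26
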