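import Pool.Agent.W_7d29a1_C1.CR76

/-!
Both halves (MP_7d29a1_pr), attractor route [C1]: RANK ONE FROM NON MEETING, exact finite algebra. (helper26)

`u1, u2` = weights of the sites `z` of the middle row from the starts `1 < 2`, `v1, v2` = weights from `z` to the ends
`1' < 2'`, `Kij = ∑ z, ui z * vj z`. LGV : `0 ≤ NI u1 u2 z z'`, `0 ≤ NI v1 v2 z z'` for `z < z'`.

* `CR_le_of_NM`, `rank_one_NM` : `P(no meeting) ≤ δ` at the corners of the two cells gives cross ratio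
  `≤ 1 / (1 - δ)` and the kernel `= A y * D x * (1 + O(δ))` on the whole cells.
* `push_rank`, `pull_rank` : the same for forward masses and for backward masses with every terminal profile.
* `two_lane_masses` : masses of two cells are `A1 f1 + A2 f2` up to the cross ratios, whatever the rest.
* `overlap` : two monotone laws which fail to meet with probability `≤ θ < 1 - 4 ε` and are concentrated
  on intervals of radius `ρ` have centres at distance `≤ 2 ρ`.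
* `two_slab` : **constant level meeting + localisation + merging of near points = tiny non meeting** :
  quenched non meeting `≤ θ` (same end / same start) and mid laws in intervals of radius `ρ` up to `ε`, and
  non meeting `≤ ε` of points at distance `≤ 6 ρ` in the second slab, imply
  `K11 K22 - K12 K21 ≤ 3 ε K11 K22`.
-/

set_option autoImplicit false
set_option linter.unusedSectionVars false

namespace Pool.Agent.W_7d29a1_C1.R26

open Finset Pool.Agent.W_7d29a1_C1.Gini76 Pool.Agent.W_7d29a1_C1.CR76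

variable {ι κ τ : Type*} [LinearOrder ι] [LinearOrder κ] [LinearOrder τ]

/-! ### Cross ratio and non meeting -/

/-- cross ratio from non meeting -/
theorem CR_le_of_NM {I : ι → κ → ℝ} {y y' : ι} {x x' : κ} (p3 : 0 < I y x') (p4 : 0 < I y' x) {δ : ℝ}
    (hδ : δ < 1)
    (h : NIk I y y' x x' ≤ δ * (I y x * I y' x')) : CR I y y' x x' ≤ 1 / (1 - δ) := by
  have hd : 0 < 1 - δ := by linarith
  unfold CR
  rw [div_le_div_iff₀ (mul_pos p3 p4) hd]
  unfold NIk at h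
  nlinarith

/-- non meeting from the cross ratio -/
theorem NM_le_of_CR {I : ι → κ → ℝ} {y y' : ι} {x x' : κ} (p3 : 0 < I y x') (p4 : 0 < I y' x) {c : ℝ}
    (h : CR I y y' x x' ≤ 1 + c) :
    NIk I y y' x x' ≤ c * (I y x * I y' x') + c * (I y x' * I y' x - I y x * I y' x') := by
  unfold CR at h
  rw [div_le_iff₀ (mul_pos p3 p4)] at h
  unfold NIk
  nlinarith

theorem one_div_le {δ : ℝ} (h0 : 0 ≤ δ) (h1 : δ ≤ 1 / 2) : 1 / (1 - δ) ≤ 1 + 2 * δ := by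
  have hd : 0 < 1 - δ := by linarith
  rw [div_le_iff₀ hd]
  nlinarith

variable {I : ι → κ → ℝ} {Y : Set ι} {X : Set κ}

/-- **Rank one from non meeting of the corners.** -/
theorem rank_one_NM (h : TP I Y X) {ya y yb : ι} {xa x xb : κ} (hya : ya ∈ Y) (hy : y ∈ Y) (hyb : yb ∈ Y)
    (hxa : xa ∈ X) (hx : x ∈ X) (hxb : xb ∈ X) (h1 : ya ≤ y) (h2 : y ≤ yb) (h4 : xa ≤ x) (h5 : x ≤ xb)
    {δ : ℝ} (h0 : 0 ≤ δ) (hδ : δ ≤ 1 / 2) (hN : NIk I ya yb xa xb ≤ δ * (I ya xa * I yb xb)) :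
    I y xa * I ya x / I ya xa ≤ I y x ∧ I y x ≤ (1 + 2 * δ) * (I y xa * I ya x / I ya xa) := by
  have r := h.rank_one hya hy hyb hxa hx hxb h1 h2 h4 h5
  have c := CR_le_of_NM (h.pos ya hya xb hxb) (h.pos yb hyb xa hxa) (by linarith) hN
  have p0 := h.pos ya hya xa hxa
  have p1 := h.pos y hy xa hxa
  have p2 := h.pos ya hya x hx
  have q : 0 ≤ I y xa * I ya x / I ya xa := by positivity
  exact ⟨r.1, r.2.trans (mul_le_mul_of_nonneg_right (c.trans (one_div_le h0 hδ)) q)⟩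

/-! ### Masses -/

/-- **Forward masses of one cell** are proportional to one profile. -/
theorem push_rank (h : TP I Y X) (S : Finset ι) {ya yb : ι} (hS : ∀ y ∈ S, y ∈ Y ∧ ya ≤ y ∧ y ≤ yb)
    (l : ι → ℝ) (hl : ∀ y ∈ S, 0 ≤ l y) {xa x xb : κ} (hya : ya ∈ Y) (hyb : yb ∈ Y) (hxa : xa ∈ X)
    (hx : x ∈ X) (hxb : xb ∈ X) (h4 : xa ≤ x) (h5 : x ≤ xb) :
    (∑ y ∈ S, l y * (I y xa / I ya xa)) * I ya x ≤ push S I l x ∧
      push S I l x ≤ CR I ya yb xa xb * ((∑ y ∈ S, l y * (I y xa / I ya xa)) * I ya x) := by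
  unfold push
  constructor
  · rw [sum_mul]
    refine sum_le_sum fun y hy => ?_
    obtain ⟨a, b, c⟩ := hS y hy
    have r := (h.rank_one hya a hyb hxa hx hxb b c h4 h5).1
    calc l y * (I y xa / I ya xa) * I ya x = l y * (I y xa * I ya x / I ya xa) := by ring
      _ ≤ l y * I y x := mul_le_mul_of_nonneg_left r (hl y hy)
  · rw [sum_mul, mul_sum]
    refine sum_le_sum fun y hy => ?_
    obtain ⟨a, b, c⟩ := hS y hy
    have r := (h.rank_one hya a hyb hxa hx hxb b c h4 h5).2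
    calc l y * I y x ≤ l y * (CR I ya yb xa xb * (I y xa * I ya x / I ya xa)) :=
          mul_le_mul_of_nonneg_left r (hl y hy)
      _ = CR I ya yb xa xb * (l y * (I y xa / I ya xa) * I ya x) := by ring

/-- **Backward masses with every terminal profile** are proportional to one entrance profile. -/
theorem pull_rank (h : TP I Y X) (S : Finset κ) {xa xb : κ} (hS : ∀ x ∈ S, x ∈ X ∧ xa ≤ x ∧ x ≤ xb)
    (f : κ → ℝ) (hf : ∀ x ∈ S, 0 ≤ f x) {ya y yb : ι} (hya : ya ∈ Y) (hy : y ∈ Y) (hyb : yb ∈ Y)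
    (hxa : xa ∈ X) (hxb : xb ∈ X) (h1 : ya ≤ y) (h2 : y ≤ yb) :
    (∑ x ∈ S, (I ya x / I ya xa) * f x) * I y xa ≤ pull S I f y ∧
      pull S I f y ≤ CR I ya yb xa xb * ((∑ x ∈ S, (I ya x / I ya xa) * f x) * I y xa) := by
  unfold pull
  constructor
  · rw [sum_mul]
    refine sum_le_sum fun x hx => ?_
    obtain ⟨a, b, c⟩ := hS x hx
    have r := (h.rank_one hya hy hyb hxa a hxb h1 h2 b c).1
    calc I ya x / I ya xa * f x * I y xa = (I y xa * I ya x / I ya xa) * f x := by ring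
      _ ≤ I y x * f x := mul_le_mul_of_nonneg_right r (hf x hx)
  · rw [sum_mul, mul_sum]
    refine sum_le_sum fun x hx => ?_
    obtain ⟨a, b, c⟩ := hS x hx
    have r := (h.rank_one hya hy hyb hxa a hxb h1 h2 b c).2
    calc I y x * f x ≤ CR I ya yb xa xb * (I y xa * I ya x / I ya xa) * f x :=
          mul_le_mul_of_nonneg_right r (hf x hx)
      _ = CR I ya yb xa xb * (I ya x / I ya xa * f x * I y xa) := by ring

/-- **Masses of two cells are `A1 f1 + A2 f2`** up to the cross ratios; `R` = the other starts. -/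
theorem two_lane_masses (h : TP I Y X) (S1 S2 R : Finset ι) (hd : Disjoint S1 S2) (hd' : Disjoint (S1 ∪ S2) R)
    {a1 b1 a2 b2 : ι} (hS1 : ∀ y ∈ S1, y ∈ Y ∧ a1 ≤ y ∧ y ≤ b1) (hS2 : ∀ y ∈ S2, y ∈ Y ∧ a2 ≤ y ∧ y ≤ b2)
    (l : ι → ℝ) (hl : ∀ y ∈ S1 ∪ S2 ∪ R, 0 ≤ l y) {xa x xb : κ} (ha1 : a1 ∈ Y) (hb1 : b1 ∈ Y)
    (ha2 : a2 ∈ Y) (hb2 : b2 ∈ Y) (hxa : xa ∈ X) (hx : x ∈ X) (hxb : xb ∈ X) (h4 : xa ≤ x) (h5 : x ≤ xb)
    {δ : ℝ} (c1 : CR I a1 b1 xa xb ≤ 1 + δ) (c2 : CR I a2 b2 xa xb ≤ 1 + δ) :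
    (∑ y ∈ S1, l y * (I y xa / I a1 xa)) * I a1 x + (∑ y ∈ S2, l y * (I y xa / I a2 xa)) * I a2 x +
        push R I l x ≤ push (S1 ∪ S2 ∪ R) I l x ∧
      push (S1 ∪ S2 ∪ R) I l x ≤ (1 + δ) * ((∑ y ∈ S1, l y * (I y xa / I a1 xa)) * I a1 x +
        (∑ y ∈ S2, l y * (I y xa / I a2 xa)) * I a2 x) + push R I l x := by
  have r1 := push_rank h S1 hS1 l (fun y hy => hl y (by simp [hy])) ha1 hb1 hxa hx hxb h4 h5
  have r2 := push_rank h S2 hS2 l (fun y hy => hl y (by simp [hy])) ha2 hb2 hxa hx hxb h4 h5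
  have e : push (S1 ∪ S2 ∪ R) I l x = push S1 I l x + push S2 I l x + push R I l x := by
    unfold push
    rw [sum_union hd', sum_union hd]
  have n1 : 0 ≤ (∑ y ∈ S1, l y * (I y xa / I a1 xa)) * I a1 x := by
    refine mul_nonneg (sum_nonneg fun y hy => mul_nonneg (hl y (by simp [hy])) ?_) (h.pos a1 ha1 x hx).le
    exact div_nonneg (h.pos y (hS1 y hy).1 xa hxa).le (h.pos a1 ha1 xa hxa).le
  have n2 : 0 ≤ (∑ y ∈ S2, l y * (I y xa / I a2 xa)) * I a2 x := by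
    refine mul_nonneg (sum_nonneg fun y hy => mul_nonneg (hl y (by simp [hy])) ?_) (h.pos a2 ha2 x hx).le
    exact div_nonneg (h.pos y (hS2 y hy).1 xa hxa).le (h.pos a2 ha2 xa hxa).le
  have m1 := mul_le_mul_of_nonneg_right c1 n1
  have m2 := mul_le_mul_of_nonneg_right c2 n2
  rw [e]
  constructor
  · linarith [r1.1, r2.1]
  · linarith [r1.2, r2.2]

/-! ### Sums over pairs -/

theorem P2_ge_box {S A B : Finset κ} (hA : A ⊆ S) (hB : B ⊆ S) (hAB : ∀ z ∈ A, ∀ z' ∈ B, z < z')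
    {h : κ → κ → ℝ} (h0 : ∀ z ∈ S, ∀ z' ∈ S, z < z' → 0 ≤ h z z') :
    ∑ z ∈ A, ∑ z' ∈ B, h z z' ≤ P2 S h := by
  unfold P2
  refine (sum_le_sum fun z hz => ?_).trans
    (sum_le_sum_of_subset_of_nonneg hA fun z hz _ => sum_nonneg fun z' hz' => ?_)
  · refine (sum_le_sum fun z' hz' => ?_).trans (sum_le_sum_of_subset_of_nonneg hB fun z' hz' _ => ?_)
    · rw [if_pos (hAB z hz z' hz')]
    · split_ifs with hlt
      exacts [h0 z (hA hz) z' hz' hlt, le_rfl]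
  · split_ifs with hlt
    exacts [h0 z hz z' hz' hlt, le_rfl]

theorem P2_prod_le (S : Finset κ) (a b : κ → ℝ) (ha : ∀ z ∈ S, 0 ≤ a z) (hb : ∀ z ∈ S, 0 ≤ b z) :
    P2 S (fun z z' => a z * b z') ≤ (∑ z ∈ S, a z) * ∑ z ∈ S, b z := by
  unfold P2
  rw [sum_mul_sum]
  refine sum_le_sum fun z hz => sum_le_sum fun z' hz' => ?_
  split_ifs
  · exact le_rfl
  · exact mul_nonneg (ha z hz) (hb z' hz')

theorem P2_sub (S : Finset κ) (f g : κ → κ → ℝ) :
    P2 S (fun z z' => f z z' - g z z') = P2 S f - P2 S g := by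
  have h := P2_add S (fun z z' => f z z' - g z z') g
  have e : (fun z z' => f z z' - g z z' + g z z') = f := by
    funext z z'
    ring
  rw [e] at h
  linarith

/-- Separated windows, the first on the left : the non meeting weight is at least `2 f(A) g(B) - F G`. -/
theorem sep_ge {S A B : Finset κ} (hA : A ⊆ S) (hB : B ⊆ S) (hAB : ∀ z ∈ A, ∀ z' ∈ B, z < z')
    (f g : κ → ℝ) (hf : ∀ z ∈ S, 0 ≤ f z) (hg : ∀ z ∈ S, 0 ≤ g z) :
    2 * ((∑ z ∈ A, f z) * ∑ z ∈ B, g z) - (∑ z ∈ S, f z) * (∑ z ∈ S, g z) ≤ P2 S (NI f g) := by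
  have h1 := P2_symm_le S f g hf hg
  rw [P2_add] at h1
  have h2 := P2_ge_box hA hB hAB (h := fun z z' => f z * g z')
    (fun z hz z' hz' _ => mul_nonneg (hf z hz) (hg z' hz'))
  rw [← sum_mul_sum] at h2
  have e : P2 S (NI f g) = P2 S (fun z z' => f z * g z') - P2 S (fun z z' => f z' * g z) := by
    rw [← P2_sub]
    rfl
  rw [e]
  linarith

/-- Separated windows, the first on the right. -/
theorem sep_le {S A B : Finset κ} (hA : A ⊆ S) (hB : B ⊆ S) (hAB : ∀ z ∈ B, ∀ z' ∈ A, z < z')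
    (f g : κ → ℝ) (hf : ∀ z ∈ S, 0 ≤ f z) (hg : ∀ z ∈ S, 0 ≤ g z) :
    P2 S (NI f g) ≤ (∑ z ∈ S, f z) * (∑ z ∈ S, g z) - 2 * ((∑ z ∈ A, f z) * ∑ z ∈ B, g z) := by
  have h := sep_ge hB hA hAB g f hg hf
  have e : P2 S (NI g f) = - P2 S (NI f g) := by
    have : P2 S (NI g f) = P2 S (fun z z' => (-1) * NI f g z z') :=
      P2_congr fun z _ z' _ _ => by simp only [NI]; ring
    rw [this, P2_mul]
    ring
  rw [e] at h
  nlinarith

/-! ### Overlap -/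

/-- concentration of the masses `f` on the interval of radius `ρ` round `c`, up to `ε` -/
def Conc (S : Finset ℤ) (f : ℤ → ℝ) (c ρ ε : ℝ) : Prop :=
  (1 - ε) * (∑ z ∈ S, f z) ≤ ∑ z ∈ S.filter (fun z : ℤ => |(z : ℝ) - c| ≤ ρ), f z

/-- the mass outside the interval -/
theorem Conc.out {S : Finset ℤ} {f : ℤ → ℝ} {c ρ ε : ℝ} (h : Conc S f c ρ ε) :
    ∑ z ∈ S.filter (fun z : ℤ => ¬ |(z : ℝ) - c| ≤ ρ), f z ≤ ε * ∑ z ∈ S, f z := by
  unfold Conc at h
  have := sum_filter_add_sum_filter_not S (fun z : ℤ => |(z : ℝ) - c| ≤ ρ) f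
  linarith

/-- **Overlap** : two monotone laws which meet with probability `> 4 ε` have near centres. -/
theorem overlap (S : Finset ℤ) (f g : ℤ → ℝ) (hf : ∀ z ∈ S, 0 ≤ f z) (hg : ∀ z ∈ S, 0 ≤ g z)
    (hF : 0 < ∑ z ∈ S, f z) (hG : 0 < ∑ z ∈ S, g z)
    (hm : ∀ z ∈ S, ∀ z' ∈ S, z < z' → 0 ≤ NI f g z z') {c c' ρ ε θ : ℝ} (h1 : θ + 4 * ε < 1)
    (hθ : 0 ≤ θ)
    (hN : P2 S (NI f g) ≤ θ * ((∑ z ∈ S, f z) * ∑ z ∈ S, g z)) (hc : Conc S f c ρ ε) (hc' : Conc S g c' ρ ε) :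
    |c - c'| ≤ 2 * ρ := by
  by_contra hlt
  push Not at hlt
  have hε : ε < 1 / 4 := by linarith
  set A := S.filter (fun z : ℤ => |(z : ℝ) - c| ≤ ρ) with hA
  set B := S.filter (fun z : ℤ => |(z : ℝ) - c'| ≤ ρ) with hB
  have sA : A ⊆ S := filter_subset _ _
  have sB : B ⊆ S := filter_subset _ _
  have hcA : (1 - ε) * (∑ z ∈ S, f z) ≤ ∑ z ∈ A, f z := hc
  have hcB : (1 - ε) * (∑ z ∈ S, g z) ≤ ∑ z ∈ B, g z := hc'
  have hFG : 0 < (∑ z ∈ S, f z) * ∑ z ∈ S, g z := mul_pos hF hG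
  have hAB : (1 - 2 * ε) * ((∑ z ∈ S, f z) * ∑ z ∈ S, g z) ≤ (∑ z ∈ A, f z) * ∑ z ∈ B, g z := by
    calc (1 - 2 * ε) * ((∑ z ∈ S, f z) * ∑ z ∈ S, g z)
        ≤ ((1 - ε) * (∑ z ∈ S, f z)) * ((1 - ε) * (∑ z ∈ S, g z)) := by
          have : 0 ≤ ε ^ 2 * ((∑ z ∈ S, f z) * ∑ z ∈ S, g z) := by positivity
          nlinarith
      _ ≤ (∑ z ∈ A, f z) * ∑ z ∈ B, g z := by
          refine mul_le_mul hcA hcB ?_ ?_
          · exact mul_nonneg (by linarith) hG.le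
          · exact sum_nonneg fun z hz => hf z (sA hz)
  rcases lt_or_ge c c' with hcc | hcc
  · have hsep : ∀ z ∈ A, ∀ z' ∈ B, z < z' := by
      intro z hz z' hz'
      have a1 := (mem_filter.1 hz).2
      have a2 := (mem_filter.1 hz').2
      rw [abs_le] at a1 a2
      have a3 : |c - c'| = c' - c := by rw [abs_sub_comm, abs_of_pos (by linarith)]
      rw [a3] at hlt
      have : (z : ℝ) < (z' : ℝ) := by linarith [a1.2, a2.1]
      exact_mod_cast this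
    have := sep_ge sA sB hsep f g hf hg
    nlinarith
  · have hsep : ∀ z ∈ B, ∀ z' ∈ A, z < z' := by
      intro z hz z' hz'
      have a1 := (mem_filter.1 hz).2
      have a2 := (mem_filter.1 hz').2
      rw [abs_le] at a1 a2
      have a3 : |c - c'| = c - c' := abs_of_nonneg (by linarith)
      rw [a3] at hlt
      have : (z : ℝ) < (z' : ℝ) := by linarith [a1.2, a2.1]
      exact_mod_cast this
    have h2 := sep_le sA sB hsep f g hf hg
    have h3 := P2_nonneg hm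
    nlinarith

/-! ### Two slabs -/

/-- Cauchy - Binet for two start vectors and two end vectors. -/
theorem det_eq (S : Finset κ) (u1 u2 v1 v2 : κ → ℝ) :
    (∑ z ∈ S, u1 z * v1 z) * (∑ z ∈ S, u2 z * v2 z) - (∑ z ∈ S, u1 z * v2 z) * (∑ z ∈ S, u2 z * v1 z) =
      P2 S (fun z z' => NI u1 u2 z z' * NI v1 v2 z z') := by
  have h := binet S (fun (z : κ) (b : Bool) => cond b (v2 z) (v1 z)) u1 u2 false true
  simp only [NI, push, NIk, cond_true, cond_false] at h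
  simp only [NI]
  rw [h]
  exact P2_congr fun z _ z' _ _ => by ring

/-- **Upper bound by the mid laws** : windows `A` of the pair `(1,1')`, `B` of the pair `(2,2')`. -/
theorem det_le (S : Finset κ) (A B : κ → Prop) [DecidablePred A] [DecidablePred B] (u1 u2 v1 v2 : κ → ℝ)
    (hu1 : ∀ z ∈ S, 0 ≤ u1 z) (hu2 : ∀ z ∈ S, 0 ≤ u2 z) (hv1 : ∀ z ∈ S, 0 ≤ v1 z) (hv2 : ∀ z ∈ S, 0 ≤ v2 z)
    (hv : ∀ z ∈ S, ∀ z' ∈ S, z < z' → 0 ≤ NI v1 v2 z z') {ε ε1 ε2 : ℝ} (h0 : 0 ≤ ε)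
    (hA : ∑ z ∈ S.filter (fun z => ¬ A z), u1 z * v1 z ≤ ε1 * ∑ z ∈ S, u1 z * v1 z)
    (hB : ∑ z ∈ S.filter (fun z => ¬ B z), u2 z * v2 z ≤ ε2 * ∑ z ∈ S, u2 z * v2 z)
    (hd : ∀ z ∈ S, ∀ z' ∈ S, z < z' → A z → B z' → NI v1 v2 z z' ≤ ε * (v1 z * v2 z')) :
    P2 S (fun z z' => NI u1 u2 z z' * NI v1 v2 z z') ≤
      (ε + ε1 + ε2) * ((∑ z ∈ S, u1 z * v1 z) * ∑ z ∈ S, u2 z * v2 z) := by
  have key : P2 S (fun z z' => NI u1 u2 z z' * NI v1 v2 z z') ≤
      P2 S (fun z z' => (ε * ((u1 z * v1 z) * (u2 z' * v2 z')) +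
        (if ¬ A z then u1 z * v1 z else 0) * (u2 z' * v2 z')) +
        (u1 z * v1 z) * (if ¬ B z' then u2 z' * v2 z' else 0)) := by
    refine P2_mono fun z hz z' hz' hlt => ?_
    have a1 := hu1 z hz
    have a2 := hu2 z hz
    have a3 := hu1 z' hz'
    have a4 := hu2 z' hz'
    have b1 := hv1 z hz
    have b2 := hv2 z hz
    have b3 := hv1 z' hz'
    have b4 := hv2 z' hz'
    have c0 := hv z hz z' hz' hlt
    have s1 : NI u1 u2 z z' * NI v1 v2 z z' ≤ (u1 z * u2 z') * NI v1 v2 z z' := by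
      refine mul_le_mul_of_nonneg_right ?_ c0
      unfold NI
      nlinarith [mul_nonneg a3 a2]
    have s2 : NI v1 v2 z z' ≤ v1 z * v2 z' := by
      unfold NI
      nlinarith [mul_nonneg b3 b2]
    have p : 0 ≤ (u1 z * v1 z) * (u2 z' * v2 z') := by positivity
    refine s1.trans ?_
    by_cases hAz : A z
    · by_cases hBz : B z'
      · rw [if_neg (not_not.2 hAz), if_neg (not_not.2 hBz)]
        have s3 := mul_le_mul_of_nonneg_left (hd z hz z' hz' hlt hAz hBz) (mul_nonneg a1 a4)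
        nlinarith
      · rw [if_neg (not_not.2 hAz), if_pos hBz]
        have s3 := mul_le_mul_of_nonneg_left s2 (mul_nonneg a1 a4)
        nlinarith [mul_nonneg h0 p]
    · rw [if_pos hAz]
      have s3 := mul_le_mul_of_nonneg_left s2 (mul_nonneg a1 a4)
      have s4 : 0 ≤ (u1 z * v1 z) * (if ¬ B z' then u2 z' * v2 z' else 0) := by
        split_ifs <;> positivity
      nlinarith [mul_nonneg h0 p]
  refine key.trans ?_
  rw [P2_add, P2_add, P2_mul]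
  have t1 := P2_prod_le S (fun z => u1 z * v1 z) (fun z => u2 z * v2 z)
    (fun z hz => mul_nonneg (hu1 z hz) (hv1 z hz)) (fun z hz => mul_nonneg (hu2 z hz) (hv2 z hz))
  have t2 := P2_prod_le S (fun z => if ¬ A z then u1 z * v1 z else 0) (fun z => u2 z * v2 z)
    (fun z hz => by
      have := mul_nonneg (hu1 z hz) (hv1 z hz)
      split_ifs <;> simp [this]) (fun z hz => mul_nonneg (hu2 z hz) (hv2 z hz))
  have t3 := P2_prod_le S (fun z => u1 z * v1 z) (fun z => if ¬ B z then u2 z * v2 z else 0)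
    (fun z hz => mul_nonneg (hu1 z hz) (hv1 z hz)) (fun z hz => by
      have := mul_nonneg (hu2 z hz) (hv2 z hz)
      split_ifs <;> simp [this])
  rw [← sum_filter] at t2 t3
  have K1 : 0 ≤ ∑ z ∈ S, u1 z * v1 z := sum_nonneg fun z hz => mul_nonneg (hu1 z hz) (hv1 z hz)
  have K2 : 0 ≤ ∑ z ∈ S, u2 z * v2 z := sum_nonneg fun z hz => mul_nonneg (hu2 z hz) (hv2 z hz)
  have m1 := mul_le_mul_of_nonneg_left t1 h0
  have m2 := mul_le_mul_of_nonneg_right hA K2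
  have m3 := mul_le_mul_of_nonneg_left hB K1
  nlinarith

/-- **TWO SLABS** : constant level meeting, localisation and merging of near points give tiny non meeting. -/
theorem two_slab (S : Finset ℤ) (u1 u2 v1 v2 : ℤ → ℝ)
    (hu1 : ∀ z ∈ S, 0 ≤ u1 z) (hu2 : ∀ z ∈ S, 0 ≤ u2 z) (hv1 : ∀ z ∈ S, 0 ≤ v1 z) (hv2 : ∀ z ∈ S, 0 ≤ v2 z)
    (hu : ∀ z ∈ S, ∀ z' ∈ S, z < z' → 0 ≤ NI u1 u2 z z') (hv : ∀ z ∈ S, ∀ z' ∈ S, z < z' → 0 ≤ NI v1 v2 z z')
    (p11 : 0 < ∑ z ∈ S, u1 z * v1 z) (p21 : 0 < ∑ z ∈ S, u2 z * v1 z) (p22 : 0 < ∑ z ∈ S, u2 z * v2 z)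
    {c11 c21 c22 ρ ε θ : ℝ} (h0 : 0 ≤ ε) (hθ : 0 ≤ θ) (h1 : θ + 4 * ε < 1)
    (ha : P2 S (NI (fun z => u1 z * v1 z) (fun z => u2 z * v1 z)) ≤
      θ * ((∑ z ∈ S, u1 z * v1 z) * ∑ z ∈ S, u2 z * v1 z))
    (hb : P2 S (NI (fun z => u2 z * v1 z) (fun z => u2 z * v2 z)) ≤
      θ * ((∑ z ∈ S, u2 z * v1 z) * ∑ z ∈ S, u2 z * v2 z))
    (l11 : Conc S (fun z => u1 z * v1 z) c11 ρ ε) (l21 : Conc S (fun z => u2 z * v1 z) c21 ρ ε)
    (l22 : Conc S (fun z => u2 z * v2 z) c22 ρ ε)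
    (hd : ∀ z ∈ S, ∀ z' ∈ S, z < z' → |(z : ℝ) - c11| ≤ ρ → ((z' : ℝ) - z) ≤ 6 * ρ →
      NI v1 v2 z z' ≤ ε * (v1 z * v2 z')) :
    (∑ z ∈ S, u1 z * v1 z) * (∑ z ∈ S, u2 z * v2 z) - (∑ z ∈ S, u1 z * v2 z) * (∑ z ∈ S, u2 z * v1 z) ≤
      3 * ε * ((∑ z ∈ S, u1 z * v1 z) * ∑ z ∈ S, u2 z * v2 z) := by
  have d1 : |c11 - c21| ≤ 2 * ρ := overlap S _ _ (fun z hz => mul_nonneg (hu1 z hz) (hv1 z hz))
    (fun z hz => mul_nonneg (hu2 z hz) (hv1 z hz)) p11 p21 (fun z hz z' hz' hlt => by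
      have e : NI (fun z => u1 z * v1 z) (fun z => u2 z * v1 z) z z' = (v1 z * v1 z') * NI u1 u2 z z' := by
        simp only [NI]; ring
      rw [e]
      exact mul_nonneg (mul_nonneg (hv1 z hz) (hv1 z' hz')) (hu z hz z' hz' hlt)) h1 hθ ha l11 l21
  have d2 : |c21 - c22| ≤ 2 * ρ := overlap S _ _ (fun z hz => mul_nonneg (hu2 z hz) (hv1 z hz))
    (fun z hz => mul_nonneg (hu2 z hz) (hv2 z hz)) p21 p22 (fun z hz z' hz' hlt => by
      have e : NI (fun z => u2 z * v1 z) (fun z => u2 z * v2 z) z z' = (u2 z * u2 z') * NI v1 v2 z z' := by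
        simp only [NI]; ring
      rw [e]
      exact mul_nonneg (mul_nonneg (hu2 z hz) (hu2 z' hz')) (hv z hz z' hz' hlt)) h1 hθ hb l21 l22
  rw [det_eq]
  have key := det_le S (fun z : ℤ => |(z : ℝ) - c11| ≤ ρ) (fun z : ℤ => |(z : ℝ) - c22| ≤ ρ) u1 u2 v1 v2
    hu1 hu2 hv1 hv2 hv h0 (ε1 := ε) (ε2 := ε) l11.out l22.out (fun z hz z' hz' hlt a b => by
      refine hd z hz z' hz' hlt a ?_
      rw [abs_le] at a b d1 d2
      linarith [a.1, b.2, d1.1, d2.1])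
  calc P2 S (fun z z' => NI u1 u2 z z' * NI v1 v2 z z')
      ≤ (ε + ε + ε) * ((∑ z ∈ S, u1 z * v1 z) * ∑ z ∈ S, u2 z * v2 z) := key
    _ = 3 * ε * ((∑ z ∈ S, u1 z * v1 z) * ∑ z ∈ S, u2 z * v2 z) := by ring

/-- **Composition never destroys meeting** : if all pairs of the middle row which carry mass meet in the second slab
up to `p`, then so does every pair of starts. -/
theorem comp_NM (S : Finset κ) (J : κ → τ → ℝ) (K : ι → κ → ℝ) {y y' : ι} {z z' : τ} {p : ℝ}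
    (hK : ∀ x ∈ S, 0 ≤ K y x) (hK' : ∀ x ∈ S, 0 ≤ K y' x) (hJ : ∀ x ∈ S, 0 ≤ J x z) (hJ' : ∀ x ∈ S, 0 ≤ J x z')
    (hn : ∀ x ∈ S, ∀ x' ∈ S, x < x' → 0 ≤ NIk J x x' z z') (hp : 0 ≤ p)
    (h : ∀ x ∈ S, ∀ x' ∈ S, x < x' → NIk J x x' z z' ≤ p * (J x z * J x' z')) :
    NIk (comp S K J) y y' z z' ≤ p * (comp S K J y z * comp S K J y' z') := by
  have e : NIk (comp S K J) y y' z z' =
      P2 S (fun x x' => NI (K y) (K y') x x' * NI (fun x => J x z) (fun x => J x z') x x') := by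
    rw [← det_eq]
    rfl
  rw [e]
  have key := det_le S (fun _ => True) (fun _ => True) (K y) (K y') (fun x => J x z) (fun x => J x z') hK hK' hJ hJ'
    (fun x hx x' hx' hlt => by
      have := hn x hx x' hx' hlt
      unfold NIk at this
      unfold NI
      linarith) (ε := p) (ε1 := 0) (ε2 := 0) hp (by simp) (by simp) (fun x hx x' hx' hlt _ _ => by
      have := h x hx x' hx' hlt
      unfold NIk at this
      unfold NI
      linarith)
  simpa [comp] using key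

end Pool.Agent.W_7d29a1_C1.R26
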