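import Pool.Agent.W_7d29a1_C1.Pair91
import Pool.Agent.W_7d29a1_C1.Rank26
import Pool.Agent.W_7d29a1_C1.Basin76

/-!
Both halves (MP_7d29a1_pr), attractor route [C1]: THE KERNEL OF THE ROWS AND RANK ONE FOR THE MASSES OF K91. (helper26)

`kf w p r n y x` = weight of the paths from the site `y` of the row `r` to the site `x` of the row `r + n` (weights of the
departure sites, as in `K91.fw`, `K91.bw`).

* `TP_kf`, `kf_minor` (LGV), `kf_comp` (composition), `fw_kf` (`fw` is a push), `bw_kf` (`bw` is a pull);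
* `lanes` : **entrance** : forward masses behind a slab = `A1 f1 + A2 f2` on the inner window, up to the factor
  `1 + δ`, plus the (nonnegative) masses of the starts outside the two cells;
* `exit_cell` : **exit** : backward masses in front of a slab = `C * h` on the window of starts, up to `1 + δ`, plus the
  (nonnegative) part which leaves the cell;
* `kf_kW`, `CR_kf` : the bridge to the weights `W` of the polymer : same cross ratios;
* `two_slab_comp`, `two_slab_kW` : tiny cross ratio from constant level meeting, localisation, merging of near points (`Rank26`).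
-/

set_option autoImplicit false
set_option linter.unusedSectionVars false

namespace Pool.Agent.W_7d29a1_C1.R26

open Finset Pool.Agent.W_7d29a1_C1.Gini76 Pool.Agent.W_7d29a1_C1.CR76 Pool.Agent.W_7d29a1_C1.K91
  Pool.Agent.W_7d29a1_C1.Basin76

noncomputable section

variable {w : ℕ → ℤ → ℝ} {p : ℝ}

/-- one start -/
def sg (y z : ℤ) : ℝ := if z = y then 1 else 0

theorem sg_nonneg (y z : ℤ) : 0 ≤ sg y z := by
  unfold sg
  split_ifs <;> norm_num

/-- The kernel of the rows `r, ..., r + n - 1`. -/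
def kf (w : ℕ → ℤ → ℝ) (p : ℝ) (r n : ℕ) (y x : ℤ) : ℝ := fw (shw w r) p (sg y) n x

theorem kf_zero_row (r : ℕ) (y x : ℤ) : kf w p r 0 y x = sg y x := rfl

theorem kf_succ (r n : ℕ) (y x : ℤ) :
    kf w p r (n + 1) y x = w (r + n) x * kf w p r n y x + p * (w (r + n) (x - 1) * kf w p r n y (x - 1)) := rfl

theorem shw_pos (hw : ∀ k y, 0 < w k y) (r : ℕ) : ∀ k y, 0 < shw w r k y := fun k y => hw (r + k) y

theorem kf_nonneg (hw : ∀ k y, 0 < w k y) (hp : 0 < p) (r n : ℕ) (y x : ℤ) : 0 ≤ kf w p r n y x :=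
  fw_nonneg (shw_pos hw r) hp (sg_nonneg y) n x

theorem kf_pos (hw : ∀ k y, 0 < w k y) (hp : 0 < p) (r : ℕ) : ∀ (n : ℕ) {y x : ℤ}, y ≤ x → x ≤ y + n → 0 < kf w p r n y x
  | 0, y, x, h0, h1 => by
    rw [kf_zero_row]
    unfold sg
    rw [if_pos (by push_cast at h1; omega)]
    exact one_pos
  | n + 1, y, x, h0, h1 => by
    rw [kf_succ]
    push_cast at h1
    have b1 := hw (r + n) x
    have b2 := hw (r + n) (x - 1)
    rcases eq_or_lt_of_le h1 with h2 | h2
    · have a1 := kf_nonneg hw hp r n y x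
      have a2 := kf_pos hw hp r n (y := y) (x := x - 1) (by omega) (by omega)
      positivity
    · have a1 := kf_pos hw hp r n (y := y) (x := x) h0 (by omega)
      have a2 := kf_nonneg hw hp r n y (x - 1)
      positivity

theorem kf_zero (r n : ℕ) {y x : ℤ} (h : ¬ (y ≤ x ∧ x ≤ y + n)) : kf w p r n y x = 0 := by
  by_cases h1 : y ≤ x
  · exact fw_hi (B := y) (fun z hz => by unfold sg; rw [if_neg (by omega)]) n x (by omega)
  · exact fw_lo (A := y) (fun z hz => by unfold sg; rw [if_neg (by omega)]) n x (by omega)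

/-- **LGV** for the kernel, no window. -/
theorem kf_minor (hw : ∀ k y, 0 < w k y) (hp : 0 < p) (r n : ℕ) {y y' x x' : ℤ} (hy : y ≤ y') (hx : x ≤ x') :
    kf w p r n y x' * kf w p r n y' x ≤ kf w p r n y x * kf w p r n y' x' := by
  rcases eq_or_lt_of_le hy with h | h
  · rw [h, mul_comm]
  · have hg : Grp (sg y) (sg y') y' := ⟨sg_nonneg y, sg_nonneg y', fun z hz => by
      unfold sg; rw [if_neg (by omega)], fun z hz => by unfold sg; rw [if_neg (by omega)]⟩
    have := dp_nonneg (shw_pos hw r) hp hg n x x' hx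
    unfold dp at this
    unfold kf
    linarith

theorem TP_kf (hw : ∀ k y, 0 < w k y) (hp : 0 < p) (r n : ℕ) (a b : ℤ) :
    TP (kf w p r n) {y | a ≤ y ∧ y ≤ b} {z | b ≤ z ∧ z ≤ a + n} where
  pos := fun y hy z hz => kf_pos hw hp r n (hy.2.trans hz.1) (hz.2.trans (by have := hy.1; omega))
  tp := fun _ _ _ _ hyy _ _ _ _ hzz => kf_minor hw hp r n hyy hzz

/-! ### Masses -/

theorem fw_push_aux (r : ℕ) {l : ℤ → ℝ} {S : Finset ℤ} (hl : ∀ y, y ∉ S → l y = 0) : ∀ (n : ℕ) (x : ℤ),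
    fw (shw w r) p l n x = push S (kf w p r n) l x
  | 0, x => by
    unfold push
    simp only [kf_zero_row, sg]
    rw [fw_zero]
    by_cases hx : x ∈ S
    · rw [sum_eq_single_of_mem x hx fun y _ hy => by rw [if_neg (Ne.symm hy), mul_zero], if_pos rfl, mul_one]
    · rw [hl x hx, sum_eq_zero]
      intro y hy
      rw [if_neg (fun h : x = y => hx (by rw [h]; exact hy)), mul_zero]
  | n + 1, x => by
    rw [fw_succ, fw_push_aux r hl n x, fw_push_aux r hl n (x - 1)]
    unfold push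
    simp only [kf_succ]
    rw [mul_sum, mul_sum, mul_sum, ← sum_add_distrib]
    refine sum_congr rfl fun y _ => ?_
    show w (r + n) x * (l y * kf w p r n y x) + p * (w (r + n) (x - 1) * (l y * kf w p r n y (x - 1))) = _
    ring

/-- **Forward masses are a push.** -/
theorem fw_kf (r n : ℕ) {l : ℤ → ℝ} {S : Finset ℤ} (hl : ∀ y, y ∉ S → fw w p l r y = 0) (x : ℤ) :
    fw w p l (r + n) x = push S (kf w p r n) (fw w p l r) x := by
  rw [fw_comp]
  exact fw_push_aux r hl n x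

/-- **Composition.** -/
theorem kf_comp (r m n : ℕ) (y x : ℤ) {S : Finset ℤ} (hS : Icc y (y + m) ⊆ S) :
    kf w p r (m + n) y x = comp S (kf w p r m) (kf w p (r + m) n) y x := by
  unfold kf
  rw [fw_comp]
  have e : shw (shw w r) m = shw w (r + m) := by
    funext k z
    unfold shw
    rw [add_assoc]
  rw [e]
  refine (fw_push_aux (r + m) (l := fw (shw w r) p (sg y) m) (S := S) (fun z hz => ?_) n x).trans rfl
  refine kf_zero (w := w) (p := p) r m fun h => hz (hS (mem_Icc.2 h))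

/-- **Backward masses are a pull.** -/
theorem bw_kf (r : ℕ) {lo hi : ℤ} : ∀ (m n : ℕ) (y : ℤ), lo ≤ y → y + m ≤ hi →
    bw w p r (m + n) y = pull (Icc lo hi) (kf w p r m) (bw w p (r + m) n) y
  | 0, n, y, h0, h1 => by
    unfold pull
    simp only [kf_zero_row, sg, Nat.zero_add, Nat.add_zero]
    rw [sum_eq_single_of_mem y (mem_Icc.2 ⟨h0, by simpa using h1⟩) fun x _ hx => by rw [if_neg hx, zero_mul],
      if_pos rfl, one_mul]
  | m + 1, n, y, h0, h1 => by
    push_cast at h1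
    have e : m + 1 + n = m + (n + 1) := by ring
    rw [e, bw_kf r (lo := lo) (hi := hi) m (n + 1) y h0 (by omega)]
    unfold pull
    have e1 : ∀ x ∈ Icc lo hi, kf w p r (m + 1) y x * bw w p (r + (m + 1)) n x =
        w (r + m) x * kf w p r m y x * bw w p (r + m + 1) n x +
          (fun z => p * (w (r + m) z * kf w p r m y z) * bw w p (r + m + 1) n (z + 1)) (x - 1) := by
      intro x _
      show _ = _ + p * (w (r + m) (x - 1) * kf w p r m y (x - 1)) * bw w p (r + m + 1) n (x - 1 + 1)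
      rw [kf_succ, sub_add_cancel]
      have : r + (m + 1) = r + m + 1 := by ring
      rw [this]
      ring
    have e2 : ∑ x ∈ Icc lo hi, (fun z => p * (w (r + m) z * kf w p r m y z) * bw w p (r + m + 1) n (z + 1)) (x - 1) =
        ∑ x ∈ Icc lo hi, (fun z => p * (w (r + m) z * kf w p r m y z) * bw w p (r + m + 1) n (z + 1)) x := by
      refine sum_shift (f := fun z => p * (w (r + m) z * kf w p r m y z) * bw w p (r + m + 1) n (z + 1)) (by omega) ?_ ?_
      · show p * (w (r + m) (lo - 1) * kf w p r m y (lo - 1)) * _ = 0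
        rw [kf_zero (w := w) (p := p) r m (y := y) (x := lo - 1) (by omega)]
        ring
      · show p * (w (r + m) hi * kf w p r m y hi) * _ = 0
        rw [kf_zero (w := w) (p := p) r m (y := y) (x := hi) (by omega)]
        ring
    rw [sum_congr rfl e1, sum_add_distrib, e2, ← sum_add_distrib]
    refine sum_congr rfl fun x _ => ?_
    rw [bw_succ]
    ring

/-! ### Entrance and exit -/

/-- The total mass of a cell seen from its left corner. -/
def am (w : ℕ → ℤ → ℝ) (p : ℝ) (r n : ℕ) (a b xa : ℤ) (L : ℤ → ℝ) : ℝ :=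
  ∑ y ∈ Icc a b, L y * (kf w p r n y xa / kf w p r n a xa)

theorem am_nonneg (hw : ∀ k y, 0 < w k y) (hp : 0 < p) (r n : ℕ) (a b xa : ℤ) {L : ℤ → ℝ} (hL : ∀ y, 0 ≤ L y) :
    0 ≤ am w p r n a b xa L :=
  sum_nonneg fun y _ => mul_nonneg (hL y) (div_nonneg (kf_nonneg hw hp _ _ _ _) (kf_nonneg hw hp _ _ _ _))

/-- **Entrance.** Forward masses behind a slab with two rank one cells, on the inner window `[xa, xb]`. -/
theorem lanes (hw : ∀ k y, 0 < w k y) (hp : 0 < p) (r n : ℕ) {l : ℤ → ℝ} (hl0 : ∀ y, 0 ≤ l y) {lo hi : ℤ}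
    (hl : ∀ y, y ∉ Icc lo hi → fw w p l r y = 0) {a1 b1 a2 b2 xa x xb : ℤ} (h1 : a1 ≤ b1) (h2 : b1 < a2)
    (h3 : a2 ≤ b2) (h4 : b2 ≤ xa) (h5 : xa ≤ x) (h6 : x ≤ xb) (h7 : xb ≤ a1 + n) (hlo : lo ≤ a1) (hhi : b2 ≤ hi)
    {δ : ℝ} (c1 : CR (kf w p r n) a1 b1 xa xb ≤ 1 + δ) (c2 : CR (kf w p r n) a2 b2 xa xb ≤ 1 + δ) :
    am w p r n a1 b1 xa (fw w p l r) * kf w p r n a1 x + am w p r n a2 b2 xa (fw w p l r) * kf w p r n a2 x +
        push (Icc lo hi \ (Icc a1 b1 ∪ Icc a2 b2)) (kf w p r n) (fw w p l r) x ≤ fw w p l (r + n) x ∧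
      fw w p l (r + n) x ≤ (1 + δ) * (am w p r n a1 b1 xa (fw w p l r) * kf w p r n a1 x +
        am w p r n a2 b2 xa (fw w p l r) * kf w p r n a2 x) +
        push (Icc lo hi \ (Icc a1 b1 ∪ Icc a2 b2)) (kf w p r n) (fw w p l r) x := by
  have hU : Icc a1 b1 ∪ Icc a2 b2 ⊆ Icc lo hi := by
    intro y hy
    simp only [mem_union, mem_Icc] at hy ⊢
    omega
  have e : Icc a1 b1 ∪ Icc a2 b2 ∪ (Icc lo hi \ (Icc a1 b1 ∪ Icc a2 b2)) = Icc lo hi := union_sdiff_of_subset hU
  rw [fw_kf r n hl x]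
  have key := two_lane_masses (TP_kf hw hp r n a1 b2) (Icc a1 b1) (Icc a2 b2)
    (Icc lo hi \ (Icc a1 b1 ∪ Icc a2 b2)) (disjoint_left.2 fun y hy hy' => by
      rw [mem_Icc] at hy hy'; omega) disjoint_sdiff (a1 := a1) (b1 := b1) (a2 := a2) (b2 := b2)
    (fun y hy => by
      rw [mem_Icc] at hy
      exact ⟨⟨hy.1, by omega⟩, hy.1, hy.2⟩)
    (fun y hy => by
      rw [mem_Icc] at hy
      exact ⟨⟨by omega, hy.2⟩, hy.1, hy.2⟩) (fw w p l r) (fun y _ => fw_nonneg hw hp hl0 r y)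
    (xa := xa) (x := x) (xb := xb) ⟨le_rfl, by omega⟩ ⟨by omega, by omega⟩ ⟨by omega, by omega⟩ ⟨by omega, by omega⟩
    ⟨h4, by omega⟩ ⟨by omega, by omega⟩ ⟨by omega, h7⟩ h5 h6 c1 c2
  rw [e] at key
  exact key

/-- **Exit.** Backward masses in front of a slab with a rank one cell of ends `[xa, xb]`, on the window `[ya, yb]`. -/
theorem exit_cell (hw : ∀ k y, 0 < w k y) (hp : 0 < p) (r n m : ℕ) {lo hi ya y yb xa xb : ℤ} (h1 : ya ≤ y)
    (h2 : y ≤ yb) (h3 : yb ≤ xa) (h4 : xa ≤ xb) (h5 : xb ≤ ya + n) (hlo : lo ≤ ya) (hhi : yb + n ≤ hi)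
    {δ : ℝ} (c : CR (kf w p r n) ya yb xa xb ≤ 1 + δ) :
    (∑ x ∈ Icc xa xb, kf w p r n ya x / kf w p r n ya xa * bw w p (r + n) m x) * kf w p r n y xa +
        pull (Icc lo hi \ Icc xa xb) (kf w p r n) (bw w p (r + n) m) y ≤ bw w p r (n + m) y ∧
      bw w p r (n + m) y ≤
        (1 + δ) * ((∑ x ∈ Icc xa xb, kf w p r n ya x / kf w p r n ya xa * bw w p (r + n) m x) * kf w p r n y xa) +
        pull (Icc lo hi \ Icc xa xb) (kf w p r n) (bw w p (r + n) m) y := by
  have hU : Icc xa xb ⊆ Icc lo hi := by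
    intro z hz
    simp only [mem_Icc] at hz ⊢
    omega
  have e : pull (Icc lo hi) (kf w p r n) (bw w p (r + n) m) y =
      pull (Icc xa xb) (kf w p r n) (bw w p (r + n) m) y +
        pull (Icc lo hi \ Icc xa xb) (kf w p r n) (bw w p (r + n) m) y := by
    unfold pull
    rw [← sum_sdiff hU, add_comm]
  rw [bw_kf r (lo := lo) (hi := hi) n m y (hlo.trans h1) (by omega), e]
  have key := pull_rank (TP_kf hw hp r n ya yb) (Icc xa xb) (xa := xa) (xb := xb) (fun x hx => by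
      rw [mem_Icc] at hx
      exact ⟨⟨by omega, by omega⟩, hx.1, hx.2⟩) (bw w p (r + n) m) (fun x _ => (bw_pos hw hp m (r + n) x).le)
    (ya := ya) (y := y) (yb := yb) ⟨le_rfl, by omega⟩ ⟨h1, h2⟩ ⟨by omega, le_rfl⟩ ⟨h3, by omega⟩ ⟨by omega, h5⟩ h1 h2
  have n0 : 0 ≤ (∑ x ∈ Icc xa xb, kf w p r n ya x / kf w p r n ya xa * bw w p (r + n) m x) * kf w p r n y xa :=
    mul_nonneg (sum_nonneg fun x _ => mul_nonneg (div_nonneg (kf_nonneg hw hp _ _ _ _) (kf_nonneg hw hp _ _ _ _))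
      (bw_pos hw hp m (r + n) x).le) (kf_nonneg hw hp _ _ _ _)
  have m1 := mul_le_mul_of_nonneg_right c n0
  constructor
  · linarith [key.1]
  · linarith [key.2]

/-! ### Bridge to the polymer weights -/

section bridge

open Pool.Agent.W_7d29a1_F MeasureTheory

variable {μ : Measure ℝ} {s : ℝ}

theorem kW_succ (η : Env) (r : ℤ) (n : ℕ) (y x : ℤ) :
    kW μ s η r (n + 1) y x = Real.exp (η (r + (n + 1), x)) * Real.exp (-lam μ s) *
      (kW μ s η r n y x + Real.exp s * kW μ s η r n y (x - 1)) := by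
  unfold kW W WR
  have e0 : Zr Set.univ η (r, y) (n + 1) (x - y) =
      Real.exp (η (r + (n + 1), x)) * (Zr Set.univ η (r, y) n (x - y) + Zr Set.univ η (r, y) n (x - y - 1)) := by
    show (Set.univ : Set Pt).indicator (fun q => Real.exp (η q)) (r + (n + 1), y + (x - y)) * _ = _
    rw [Set.indicator_of_mem (Set.mem_univ _)]
    have : y + (x - y) = x := by ring
    rw [this]
  have e3 : x - 1 - y = x - y - 1 := by ring
  rw [e0, e3]
  have e1 : Real.exp (s * ((x - y : ℤ) : ℝ) - ((n + 1 : ℕ) : ℝ) * lam μ s) =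
      Real.exp (-lam μ s) * Real.exp (s * ((x - y : ℤ) : ℝ) - n * lam μ s) := by
    rw [← Real.exp_add]
    congr 1
    push_cast
    ring
  have e2 : Real.exp (s * ((x - y : ℤ) : ℝ) - n * lam μ s) =
      Real.exp s * Real.exp (s * ((x - y - 1 : ℤ) : ℝ) - n * lam μ s) := by
    rw [← Real.exp_add]
    congr 1
    push_cast
    ring
  rw [e1, ← mul_assoc (Real.exp s), ← e2]
  ring

/-- **The bridge.** -/
theorem kf_kW (η : Env) (r : ℕ) : ∀ (n : ℕ), (∀ k < n, ∀ z, w (r + k) z = Real.exp (η (((r + k : ℕ) : ℤ), z))) → ∀ y x : ℤ,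
    Real.exp (η (((r + n : ℕ) : ℤ), x)) * Real.exp (-(n * lam μ s)) * kf w (Real.exp s) r n y x =
      Real.exp (η ((r : ℤ), y)) * kW μ s η r n y x
  | 0, _, y, x => by
    rw [kf_zero_row]
    unfold sg kW W WR
    show _ = _ * (_ * if x - y = 0 then 1 else 0)
    by_cases h : x = y
    · subst h
      simp
    · rw [if_neg h, if_neg (by omega)]
      simp
  | n + 1, hw, y, x => by
    have i1 := kf_kW η r n (fun k hk => hw k (by omega)) y x
    have i2 := kf_kW η r n (fun k hk => hw k (by omega)) y (x - 1)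
    rw [kf_succ, kW_succ, hw n (by omega) x, hw n (by omega) (x - 1)]
    have e1 : Real.exp (-(((n + 1 : ℕ) : ℝ) * lam μ s)) = Real.exp (-lam μ s) * Real.exp (-(n * lam μ s)) := by
      rw [← Real.exp_add]
      congr 1
      push_cast
      ring
    have e2 : (((r + (n + 1) : ℕ) : ℤ), x) = (((r : ℤ) + ((n : ℤ) + 1)), x) := by push_cast; rfl
    rw [e1, e2]
    calc Real.exp (η ((r : ℤ) + ((n : ℤ) + 1), x)) * (Real.exp (-lam μ s) * Real.exp (-(n * lam μ s))) *
          (Real.exp (η (((r + n : ℕ) : ℤ), x)) * kf w (Real.exp s) r n y x +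
            Real.exp s * (Real.exp (η (((r + n : ℕ) : ℤ), x - 1)) * kf w (Real.exp s) r n y (x - 1)))
        = Real.exp (η ((r : ℤ) + ((n : ℤ) + 1), x)) * Real.exp (-lam μ s) *
          ((Real.exp (η (((r + n : ℕ) : ℤ), x)) * Real.exp (-(n * lam μ s)) * kf w (Real.exp s) r n y x) +
            Real.exp s * (Real.exp (η (((r + n : ℕ) : ℤ), x - 1)) * Real.exp (-(n * lam μ s)) *
              kf w (Real.exp s) r n y (x - 1))) := by ring
      _ = _ := by
        rw [i1, i2]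
        ring

/-- Cross ratios do not see factors of the starts and of the ends. -/
theorem CR_diag {I J : ℤ → ℤ → ℝ} {y y' x x' : ℤ} {A D : ℤ → ℝ} (hA : 0 < A y) (hA' : 0 < A y') (hD : 0 < D x)
    (hD' : 0 < D x') (e : ∀ u v, D v * I u v = A u * J u v) : CR I y y' x x' = CR J y y' x x' := by
  have h : ∀ u v, 0 < D v → I u v = A u * J u v / D v := fun u v hv => by
    rw [eq_div_iff hv.ne', ← e u v, mul_comm]
  unfold CR
  rw [h y x hD, h y' x' hD', h y x' hD', h y' x hD]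
  have e1 : A y * J y x / D x * (A y' * J y' x' / D x') = (A y * A y' / (D x * D x')) * (J y x * J y' x') := by
    field_simp
  have e2 : A y * J y x' / D x' * (A y' * J y' x / D x) = (A y * A y' / (D x * D x')) * (J y x' * J y' x) := by
    field_simp
  rw [e1, e2, mul_div_mul_left]
  positivity

/-- **Same cross ratios.** -/
theorem CR_kf (η : Env) (r n : ℕ) (hw : ∀ k < n, ∀ z, w (r + k) z = Real.exp (η (((r + k : ℕ) : ℤ), z))) (y y' x x' : ℤ) :
    CR (kf w (Real.exp s) r n) y y' x x' = CR (kW μ s η r n) y y' x x' := by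
  refine CR_diag (A := fun u => Real.exp (η ((r : ℤ), u)))
    (D := fun v => Real.exp (η (((r + n : ℕ) : ℤ), v)) * Real.exp (-(n * lam μ s))) (Real.exp_pos _) (Real.exp_pos _)
    (mul_pos (Real.exp_pos _) (Real.exp_pos _)) (mul_pos (Real.exp_pos _) (Real.exp_pos _)) fun u v => ?_
  exact kf_kW η r n hw u v

end bridge

/-! ### Two slabs for kernels -/

/-- the law of the middle site, not normalised -/
def ml (I J : ℤ → ℤ → ℝ) (y x z : ℤ) : ℝ := I y z * J z x

/-- **TWO SLABS, kernel form.** `ha` : the polymers `y → xa`, `y' → xa` do not meet in the first slab with quenched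
probability `≤ θ`; `hb` : the polymers `y' → xa`, `y' → xb` do not meet in the second slab with probability `≤ θ`;
`l11, l21, l22` : localisation of three middle laws; `hd` : near points of the middle row meet in the second slab. -/
theorem two_slab_comp (S : Finset ℤ) (I J : ℤ → ℤ → ℝ) {y y' xa xb : ℤ}
    (hI : ∀ z ∈ S, 0 ≤ I y z) (hI' : ∀ z ∈ S, 0 ≤ I y' z) (hJ : ∀ z ∈ S, 0 ≤ J z xa) (hJ' : ∀ z ∈ S, 0 ≤ J z xb)
    (tI : ∀ z ∈ S, ∀ z' ∈ S, z < z' → 0 ≤ NIk I y y' z z') (tJ : ∀ z ∈ S, ∀ z' ∈ S, z < z' → 0 ≤ NIk J z z' xa xb)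
    (p11 : 0 < comp S I J y xa) (p21 : 0 < comp S I J y' xa) (p22 : 0 < comp S I J y' xb)
    {c11 c21 c22 ρ ε θ : ℝ} (h0 : 0 ≤ ε) (hθ : 0 ≤ θ) (h1 : θ + 4 * ε < 1)
    (ha : P2 S (NI (ml I J y xa) (ml I J y' xa)) ≤ θ * (comp S I J y xa * comp S I J y' xa))
    (hb : P2 S (NI (ml I J y' xa) (ml I J y' xb)) ≤ θ * (comp S I J y' xa * comp S I J y' xb))
    (l11 : Conc S (ml I J y xa) c11 ρ ε) (l21 : Conc S (ml I J y' xa) c21 ρ ε) (l22 : Conc S (ml I J y' xb) c22 ρ ε)
    (hd : ∀ z ∈ S, ∀ z' ∈ S, z < z' → |(z : ℝ) - c11| ≤ ρ → ((z' : ℝ) - z) ≤ 6 * ρ →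
      NIk J z z' xa xb ≤ ε * (J z xa * J z' xb)) :
    NIk (comp S I J) y y' xa xb ≤ 3 * ε * (comp S I J y xa * comp S I J y' xb) :=
  two_slab S (I y) (I y') (fun z => J z xa) (fun z => J z xb) hI hI' hJ hJ' (fun z hz z' hz' hlt => by
    have := tI z hz z' hz' hlt
    unfold NIk at this
    unfold NI
    linarith) (fun z hz z' hz' hlt => by
    have := tJ z hz z' hz' hlt
    unfold NIk at this
    unfold NI
    linarith) p11 p21 p22 h0 hθ h1 ha hb l11 l21 l22 (fun z hz z' hz' hlt h2 h3 => by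
    have := hd z hz z' hz' hlt h2 h3
    unfold NIk at this
    unfold NI
    linarith)

/-- The same for the slab kernels of the polymer, as a cross ratio. -/
theorem two_slab_kW {μ : MeasureTheory.Measure ℝ} {s : ℝ} (η : Pool.Agent.W_7d29a1_F.Env) (r : ℤ) (m n : ℕ)
    (S : Finset ℤ) {y y' xa xb : ℤ} (hy : y ≤ y') (hx : xa ≤ xb) (hS : Icc y (y' + m) ⊆ S) (h3 : y' ≤ xa)
    (h4 : xb ≤ y + (m + n : ℕ))
    {c11 c21 c22 ρ ε θ : ℝ} (h0 : 0 ≤ ε) (hθ : 0 ≤ θ) (h1 : θ + 4 * ε < 1) (he : ε < 1 / 6)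
    (ha : P2 S (NI (ml (kW μ s η r m) (kW μ s η (r + m) n) y xa) (ml (kW μ s η r m) (kW μ s η (r + m) n) y' xa)) ≤
      θ * (kW μ s η r (m + n) y xa * kW μ s η r (m + n) y' xa))
    (hb : P2 S (NI (ml (kW μ s η r m) (kW μ s η (r + m) n) y' xa) (ml (kW μ s η r m) (kW μ s η (r + m) n) y' xb)) ≤
      θ * (kW μ s η r (m + n) y' xa * kW μ s η r (m + n) y' xb))
    (l11 : Conc S (ml (kW μ s η r m) (kW μ s η (r + m) n) y xa) c11 ρ ε)
    (l21 : Conc S (ml (kW μ s η r m) (kW μ s η (r + m) n) y' xa) c21 ρ ε)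
    (l22 : Conc S (ml (kW μ s η r m) (kW μ s η (r + m) n) y' xb) c22 ρ ε)
    (hd : ∀ z ∈ S, ∀ z' ∈ S, z < z' → |(z : ℝ) - c11| ≤ ρ → ((z' : ℝ) - z) ≤ 6 * ρ →
      NIk (kW μ s η (r + m) n) z z' xa xb ≤ ε * (kW μ s η (r + m) n z xa * kW μ s η (r + m) n z' xb)) :
    CR (kW μ s η r (m + n)) y y' xa xb ≤ 1 + 6 * ε := by
  have e : ∀ u v, u = y ∨ u = y' → kW μ s η r (m + n) u v = comp S (kW μ s η r m) (kW μ s η (r + m) n) u v := by
    intro u v hu
    refine kW_comp' η r m n u v S (subset_trans (Icc_subset_Icc ?_ ?_) hS)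
    · rcases hu with h | h <;> omega
    · rcases hu with h | h <;> omega
  have n1 : ∀ u v, 0 ≤ kW μ s η r m u v := fun u v => kW_nonneg η r m u v
  have n2 : ∀ u v, 0 ≤ kW μ s η (r + m) n u v := fun u v => kW_nonneg η (r + m) n u v
  have q11 : 0 < kW μ s η r (m + n) y xa := kW_pos η r (by omega) (by omega)
  have q21 : 0 < kW μ s η r (m + n) y' xa := kW_pos η r (by omega) (by omega)
  have q12 : 0 < kW μ s η r (m + n) y xb := kW_pos η r (by omega) (by omega)
  have q22 : 0 < kW μ s η r (m + n) y' xb := kW_pos η r (by omega) (by omega)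
  have key := two_slab_comp S (kW μ s η r m) (kW μ s η (r + m) n) (y := y) (y' := y') (xa := xa) (xb := xb)
    (fun z _ => n1 _ _) (fun z _ => n1 _ _) (fun z _ => n2 _ _) (fun z _ => n2 _ _)
    (fun z _ z' _ hlt => by
      have := kW_minor (μ := μ) (s := s) η r m hy hlt.le
      unfold NIk
      linarith) (fun z _ z' _ hlt => by
      have := kW_minor (μ := μ) (s := s) η (r + m) n hlt.le hx
      unfold NIk
      linarith) (by rw [← e y xa (Or.inl rfl)]; exact q11) (by rw [← e y' xa (Or.inr rfl)]; exact q21)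
    (by rw [← e y' xb (Or.inr rfl)]; exact q22) h0 hθ h1
    (by rw [← e y xa (Or.inl rfl), ← e y' xa (Or.inr rfl)]; exact ha)
    (by rw [← e y' xa (Or.inr rfl), ← e y' xb (Or.inr rfl)]; exact hb) l11 l21 l22 hd
  have key2 : NIk (kW μ s η r (m + n)) y y' xa xb ≤
      3 * ε * (kW μ s η r (m + n) y xa * kW μ s η r (m + n) y' xb) := by
    unfold NIk at key ⊢
    rw [e y xa (Or.inl rfl), e y' xb (Or.inr rfl), e y xb (Or.inl rfl), e y' xa (Or.inr rfl)]
    exact key
  have := CR_le_of_NM q12 q21 (by linarith) key2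
  refine this.trans ((one_div_le (by linarith) (by linarith)).trans (le_of_eq (by ring)))

end

end Pool.Agent.W_7d29a1_C1.R26
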