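import Pool.Agent.W_7d29a1_C1.KrnC21
import Pool.Agent.W_7d29a1_C1.BufF26
import Pool.Agent.W_7d29a1_C1.Rank26B

/-!
Both halves (MP_7d29a1_pr), attractor route [C1]: THE FIRST BUFFER IN THE LETTERS OF `ShDef21`, deterministic. (helper21)

`Fac` : a kernel is `α y * β x` times another one, with factors controlled by lateral coordinates. `BufIn.of26`, `Krn.of26` : from
`BufO26` (helper26) and its envelope.
-/

set_option autoImplicit false
set_option linter.unusedSectionVars false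

namespace Pool.Agent.W_7d29a1_C1.Sh21

open Finset Pool.Agent.W_7d29a1_C1.Gini76 Pool.Agent.W_7d29a1_C1.CR76 Pool.Agent.W_7d29a1_C1.K91P
  Pool.Agent.W_7d29a1_C1.Basin76 Pool.Agent.W_7d29a1_C1.R26P Pool.Agent.W_7d29a1_C1.F74 Pool.Agent.W_7d29a1_C1.P21
open Pool.Agent.W_7d29a1_C1.B26

noncomputable section

/-- `K = α β Kr`, factors with lateral slopes `ka`, `kb` in the unit `E`. -/
structure Fac (lo h : ℤ) (n : ℕ) (K Kr : ℤ → ℤ → ℝ) (α β : ℤ → ℝ) (La Lb : ℤ → ℝ) (E a0 b0 ca ka cb kb : ℝ) : Prop where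
  eq : ∀ y x, K y x = α y * β x * Kr y x
  Kr0 : ∀ y x, 0 ≤ Kr y x
  α0 : ∀ y, 0 < α y
  β0 : ∀ x, 0 < β x
  a0p : 0 < a0
  b0p : 0 < b0
  E0 : 0 ≤ E
  ka0 : 0 ≤ ka
  kb0 : 0 ≤ kb
  aup : ∀ y ∈ Icc lo h, α y ≤ a0 * Real.exp ((ca + ka * |La y|) * E)
  alw : ∀ y ∈ Icc lo h, a0 ≤ α y * Real.exp ((ca + ka * |La y|) * E)
  bup : ∀ x ∈ Icc lo (h + n), β x ≤ b0 * Real.exp ((cb + kb * |Lb x|) * E)
  blw : ∀ x ∈ Icc lo (h + n), b0 ≤ β x * Real.exp ((cb + kb * |Lb x|) * E)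

variable {lo h : ℤ} {n : ℕ} {K Kr : ℤ → ℤ → ℝ} {α β : ℤ → ℝ} {La Lb : ℤ → ℝ} {E a0 b0 ca ka cb kb : ℝ} {p1 ph : ℤ → ℝ}
  {cp kp B A ρ0 Q1 k1 h1 kph R : ℝ} {T d : Finset ℤ} {y : ℤ}

/-- A sum with a slope, one start. -/
theorem Fac.sum_up (F : Fac lo h n K Kr α β La Lb E a0 b0 ca ka cb kb) (hy : y ∈ Icc lo h) (hT : T ⊆ Icc lo (h + n))
    (hp1 : ∀ x ∈ T, p1 x ≤ Real.exp ((cp + kp * |Lb x|) * E)) (hρ : |La y| ≤ R)
    (hB : ∑ x ∈ T, Kr y x * Real.exp ((kb + kp) * |Lb x| * E) ≤ B) (hp0 : ∀ x ∈ T, 0 ≤ p1 x) :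
    ∑ x ∈ T, K y x * p1 x ≤ a0 * b0 * (Real.exp ((ca + ka * R + cb + cp) * E) * B) := by
  have E0 := F.E0
  have a0p := F.a0p
  have b0p := F.b0p
  have s1 : ∑ x ∈ T, K y x * p1 x ≤ a0 * Real.exp ((ca + ka * |La y|) * E) * (b0 * Real.exp ((cb + cp) * E)) *
      ∑ x ∈ T, Kr y x * Real.exp ((kb + kp) * |Lb x| * E) := by
    rw [mul_sum]
    refine sum_le_sum fun x hx => ?_
    rw [F.eq]
    have e1 : Real.exp ((cb + cp) * E) * Real.exp ((kb + kp) * |Lb x| * E) =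
        Real.exp ((cb + kb * |Lb x|) * E) * Real.exp ((cp + kp * |Lb x|) * E) := by
      rw [← Real.exp_add, ← Real.exp_add]
      congr 1
      ring
    have m1 : β x * p1 x ≤ b0 * Real.exp ((cb + kb * |Lb x|) * E) * Real.exp ((cp + kp * |Lb x|) * E) :=
      mul_le_mul (F.bup x (hT hx)) (hp1 x hx) (hp0 x hx) (by positivity)
    have m2 : α y * (β x * p1 x) ≤ a0 * Real.exp ((ca + ka * |La y|) * E) *
        (b0 * Real.exp ((cb + kb * |Lb x|) * E) * Real.exp ((cp + kp * |Lb x|) * E)) :=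
      mul_le_mul (F.aup y hy) m1 (mul_nonneg (F.β0 x).le (hp0 x hx)) (by positivity)
    have m3 := mul_le_mul_of_nonneg_left m2 (F.Kr0 y x)
    calc α y * β x * Kr y x * p1 x = Kr y x * (α y * (β x * p1 x)) := by ring
      _ ≤ _ := m3
      _ = a0 * Real.exp ((ca + ka * |La y|) * E) * b0 * Kr y x *
          (Real.exp ((cb + kb * |Lb x|) * E) * Real.exp ((cp + kp * |Lb x|) * E)) := by ring
      _ = _ := by
        rw [← e1]
        ring
  refine s1.trans ?_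
  have B0 : 0 ≤ B := (sum_nonneg fun x _ => mul_nonneg (F.Kr0 y x) (Real.exp_pos _).le).trans hB
  have k1 : Real.exp ((ca + ka * |La y|) * E) * Real.exp ((cb + cp) * E) ≤ Real.exp ((ca + ka * R + cb + cp) * E) := by
    rw [← Real.exp_add]
    refine Real.exp_le_exp.2 ?_
    have := mul_le_mul_of_nonneg_right (mul_le_mul_of_nonneg_left hρ F.ka0) E0
    linarith
  calc a0 * Real.exp ((ca + ka * |La y|) * E) * (b0 * Real.exp ((cb + cp) * E)) *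
        ∑ x ∈ T, Kr y x * Real.exp ((kb + kp) * |Lb x| * E)
      ≤ a0 * Real.exp ((ca + ka * |La y|) * E) * (b0 * Real.exp ((cb + cp) * E)) * B :=
        mul_le_mul_of_nonneg_left hB (by positivity)
    _ = a0 * b0 * (Real.exp ((ca + ka * |La y|) * E) * Real.exp ((cb + cp) * E) * B) := by ring
    _ ≤ _ := mul_le_mul_of_nonneg_left (mul_le_mul_of_nonneg_right k1 B0) (by positivity)

/-- One term from below. -/
theorem Fac.one_lw (F : Fac lo h n K Kr α β La Lb E a0 b0 ca ka cb kb) (hy : y ∈ Icc lo h) {x : ℤ} (hx : x ∈ Icc lo (h + n))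
    (hρ : |La y| ≤ R) {X l : ℝ} (hX : |Lb x| ≤ X) (hB : Real.exp (-(l * E)) * A ≤ Kr y x) (hA : 0 ≤ A) :
    a0 * b0 * A ≤ Real.exp ((ca + ka * R + cb + kb * X + l) * E) * K y x := by
  have E0 := F.E0
  have a0p := F.a0p
  have b0p := F.b0p
  have α0 := F.α0 y
  have β0 := F.β0 x
  rw [F.eq]
  have m1 : a0 ≤ α y * Real.exp ((ca + ka * R) * E) := by
    refine (F.alw y hy).trans (mul_le_mul_of_nonneg_left (Real.exp_le_exp.2 ?_) α0.le)
    exact mul_le_mul_of_nonneg_right (by linarith [mul_le_mul_of_nonneg_left hρ F.ka0]) E0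
  have m2 : b0 ≤ β x * Real.exp ((cb + kb * X) * E) := by
    refine (F.blw x hx).trans (mul_le_mul_of_nonneg_left (Real.exp_le_exp.2 ?_) β0.le)
    exact mul_le_mul_of_nonneg_right (by linarith [mul_le_mul_of_nonneg_left hX F.kb0]) E0
  have m3 : A ≤ Real.exp (l * E) * Kr y x := by
    have := mul_le_mul_of_nonneg_left hB (Real.exp_pos (l * E)).le
    rwa [← mul_assoc, ← Real.exp_add, add_neg_cancel, Real.exp_zero, one_mul] at this
  have m4 := mul_le_mul (mul_le_mul m1 m2 b0p.le (by positivity)) m3 hA (by positivity)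
  refine m4.trans (le_of_eq ?_)
  have e1 : Real.exp ((ca + ka * R + cb + kb * X + l) * E) = Real.exp ((ca + ka * R) * E) * Real.exp ((cb + kb * X) * E) *
      Real.exp (l * E) := by
    rw [← Real.exp_add, ← Real.exp_add]
    congr 1
    ring
  rw [e1]
  ring

/-- One term from above. -/
theorem Fac.one_up (F : Fac lo h n K Kr α β La Lb E a0 b0 ca ka cb kb) (hy : y ∈ Icc lo h) {x : ℤ} (hx : x ∈ Icc lo (h + n))
    (hρ : |La y| ≤ R) {X l : ℝ} (hX : |Lb x| ≤ X) (hB : Kr y x ≤ Real.exp (l * E) * A) (hA : 0 ≤ A) :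
    K y x ≤ Real.exp ((ca + ka * R + cb + kb * X + l) * E) * (a0 * b0 * A) := by
  have E0 := F.E0
  have a0p := F.a0p
  have b0p := F.b0p
  have α0 := F.α0 y
  have β0 := F.β0 x
  rw [F.eq]
  have m1 : α y ≤ a0 * Real.exp ((ca + ka * R) * E) := by
    refine (F.aup y hy).trans (mul_le_mul_of_nonneg_left (Real.exp_le_exp.2 ?_) a0p.le)
    exact mul_le_mul_of_nonneg_right (by linarith [mul_le_mul_of_nonneg_left hρ F.ka0]) E0
  have m2 : β x ≤ b0 * Real.exp ((cb + kb * X) * E) := by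
    refine (F.bup x hx).trans (mul_le_mul_of_nonneg_left (Real.exp_le_exp.2 ?_) b0p.le)
    exact mul_le_mul_of_nonneg_right (by linarith [mul_le_mul_of_nonneg_left hX F.kb0]) E0
  have m4 := mul_le_mul (mul_le_mul m1 m2 β0.le (by positivity)) hB (F.Kr0 y x) (by positivity)
  refine m4.trans (le_of_eq ?_)
  have e1 : Real.exp ((ca + ka * R + cb + kb * X + l) * E) = Real.exp ((ca + ka * R) * E) * Real.exp ((cb + kb * X) * E) *
      Real.exp (l * E) := by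
    rw [← Real.exp_add, ← Real.exp_add]
    congr 1
    ring
  rw [e1]
  ring

/-- The same cross ratios. -/
theorem Fac.cr (F : Fac lo h n K Kr α β La Lb E a0 b0 ca ka cb kb) (y y' x x' : ℤ) : CR K y y' x x' = CR Kr y y' x x' := by
  refine Pool.Agent.W_7d29a1_C1.R26.CR_diag (A := α) (D := fun v => (β v)⁻¹) (F.α0 _) (F.α0 _) (inv_pos.2 (F.β0 _)) (inv_pos.2 (F.β0 _)) fun u v => ?_
  rw [F.eq]
  have := (F.β0 v).ne'
  field_simp

/-- **The kernel against slopes, from an envelope.** -/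
theorem Fac.krn (F : Fac lo h n K Kr α β La Lb E a0 b0 ca ka cb kb) (hA : 1 ≤ A)
    (all : ∀ y ∈ Icc lo h, ∀ x ∈ Icc lo (h + n), Kr y x ≤ Real.exp ((Q1 + k1 * |La y| - h1 * |Lb x - La y|) * E) * A)
    (hz : ∀ y x : ℤ, ¬ (y ≤ x ∧ x ≤ y + n) → Kr y x = 0) (hn : (n : ℝ) + 1 ≤ Real.exp E)
    (hp1 : ∀ x ∈ Icc lo (h + n), p1 x ≤ Real.exp ((cp + kp * |Lb x|) * E)) (hp0 : ∀ x ∈ Icc lo (h + n), 0 ≤ p1 x)
    (hkp0 : 0 ≤ kb + kp) (hkp : kb + kp ≤ h1) (hk : ka + k1 + kb + kp ≤ kph) {L : ℝ}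
    (hph : ∀ y ∈ Icc lo h, Real.exp (kph * (|La y| - ρ0) * E) ≤ ph y) (hL : Real.exp ((ca + cb + cp + Q1 + 1 + kph * ρ0) * E) ≤ L)
    {c d : Finset ℤ} (lw : ∀ y ∈ c, a0 * b0 * A ≤ L * ∑ x ∈ d, K y x) :
    Krn (Icc lo h) (Icc lo (h + n)) c d K ph p1 L (a0 * b0 * A) := by
  refine ⟨fun y hy => ?_, lw⟩
  have E0 := F.E0
  have a0p := F.a0p
  have b0p := F.b0p
  have hy' := mem_Icc.1 hy
  have la0 := abs_nonneg (La y)
  -- only the sites reached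
  have e0 : ∑ x ∈ Icc lo (h + n), K y x * p1 x = ∑ x ∈ Icc y (y + n), K y x * p1 x := by
    symm
    refine sum_subset (Icc_subset_Icc hy'.1 (by omega)) fun x _ hx => ?_
    rw [F.eq, hz y x (by rw [mem_Icc] at hx; exact hx), mul_zero, zero_mul]
  have sub : Icc y (y + n) ⊆ Icc lo (h + n) := Icc_subset_Icc hy'.1 (by omega)
  rw [e0]
  have hB : ∑ x ∈ Icc y (y + n), Kr y x * Real.exp ((kb + kp) * |Lb x| * E) ≤
      Real.exp ((Q1 + 1 + (k1 + kb + kp) * |La y|) * E) * A := by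
    have t : ∀ x ∈ Icc y (y + n), Kr y x * Real.exp ((kb + kp) * |Lb x| * E) ≤
        Real.exp ((Q1 + (k1 + kb + kp) * |La y|) * E) * A := by
      intro x hx
      have a1 := mul_le_mul_of_nonneg_right (all y hy x (sub hx)) (Real.exp_pos ((kb + kp) * |Lb x| * E)).le
      refine a1.trans ?_
      have e1 : Real.exp ((Q1 + k1 * |La y| - h1 * |Lb x - La y|) * E) * A * Real.exp ((kb + kp) * |Lb x| * E) =
          Real.exp ((Q1 + k1 * |La y| - h1 * |Lb x - La y|) * E + (kb + kp) * |Lb x| * E) * A := by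
        rw [Real.exp_add]
        ring
      rw [e1]
      refine mul_le_mul_of_nonneg_right (Real.exp_le_exp.2 ?_) (by linarith)
      rw [← add_mul]
      refine mul_le_mul_of_nonneg_right ?_ E0
      have tri : |Lb x| ≤ |La y| + |Lb x - La y| := by
        have := abs_add_le (La y) (Lb x - La y)
        rwa [add_sub_cancel] at this
      have m1 := mul_le_mul_of_nonneg_left tri hkp0
      have m2 := mul_le_mul_of_nonneg_right hkp (abs_nonneg (Lb x - La y))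
      linarith
    refine (sum_le_sum t).trans ?_
    rw [sum_const, nsmul_eq_mul]
    have c1 : ((Icc y (y + (n : ℤ))).card : ℝ) ≤ Real.exp E := by
      rw [Int.card_Icc]
      have : (y + (n : ℤ) + 1 - y).toNat = n + 1 := by omega
      rw [this]
      push_cast
      exact hn
    refine (mul_le_mul_of_nonneg_right c1 (by positivity)).trans (le_of_eq ?_)
    rw [← mul_assoc, ← Real.exp_add]
    congr 2
    ring
  refine (F.sum_up hy sub (fun x hx => hp1 x (sub hx)) le_rfl hB (fun x hx => hp0 x (sub hx))).trans ?_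
  have e2 : a0 * b0 * (Real.exp ((ca + ka * |La y| + cb + cp) * E) * (Real.exp ((Q1 + 1 + (k1 + kb + kp) * |La y|) * E) * A)) =
      Real.exp ((ca + ka * |La y| + cb + cp) * E + (Q1 + 1 + (k1 + kb + kp) * |La y|) * E) * (a0 * b0 * A) := by
    rw [Real.exp_add]
    ring
  rw [e2]
  refine mul_le_mul_of_nonneg_right ?_ (by positivity)
  have e3 : Real.exp ((ca + cb + cp + Q1 + 1 + kph * ρ0) * E) * Real.exp (kph * (|La y| - ρ0) * E) =
      Real.exp ((ca + cb + cp + Q1 + 1 + kph * |La y|) * E) := by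
    rw [← Real.exp_add]
    congr 1
    ring
  refine le_trans ?_ (mul_le_mul hL (hph y hy) (Real.exp_pos _).le (le_trans (Real.exp_pos _).le hL))
  rw [e3]
  refine Real.exp_le_exp.2 ?_
  rw [← add_mul]
  refine mul_le_mul_of_nonneg_right ?_ E0
  have := mul_le_mul_of_nonneg_right hk la0
  linarith

/-- **A small part of the kernel.** -/
theorem Fac.ex (F : Fac lo h n K Kr α β La Lb E a0 b0 ca ka cb kb) (hy : y ∈ Icc lo h) (hT : T ⊆ Icc lo (h + n))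
    (hp1 : ∀ x ∈ Icc lo (h + n), p1 x ≤ Real.exp ((cp + kp * |Lb x|) * E)) (hp0 : ∀ x ∈ Icc lo (h + n), 0 ≤ p1 x) (hρ : |La y| ≤ R)
    {be g e : ℝ} (hbe : kb + kp ≤ be) (hB : ∑ x ∈ T, Kr y x * Real.exp (be * |Lb x| * E) ≤ Real.exp (-(g * E)) * A) (hA : 0 ≤ A)
    (he : Real.exp (-((g - (ca + ka * R + cb + cp)) * E)) ≤ e) : ∑ x ∈ T, K y x * p1 x ≤ e * (a0 * b0 * A) := by
  have E0 := F.E0
  have a0p := F.a0p
  have b0p := F.b0p
  have hB' : ∑ x ∈ T, Kr y x * Real.exp ((kb + kp) * |Lb x| * E) ≤ Real.exp (-(g * E)) * A := by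
    refine (sum_le_sum fun x _ => mul_le_mul_of_nonneg_left (Real.exp_le_exp.2 ?_) (F.Kr0 y x)).trans hB
    exact mul_le_mul_of_nonneg_right (mul_le_mul_of_nonneg_right hbe (abs_nonneg _)) E0
  refine (F.sum_up hy hT (fun x hx => hp1 x (hT hx)) hρ hB' (fun x hx => hp0 x (hT hx))).trans ?_
  have e1 : a0 * b0 * (Real.exp ((ca + ka * R + cb + cp) * E) * (Real.exp (-(g * E)) * A)) =
      Real.exp (-((g - (ca + ka * R + cb + cp)) * E)) * (a0 * b0 * A) := by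
    have : Real.exp (-((g - (ca + ka * R + cb + cp)) * E)) = Real.exp ((ca + ka * R + cb + cp) * E) * Real.exp (-(g * E)) := by
      rw [← Real.exp_add]
      congr 1
      ring
    rw [this]
    ring
  rw [e1]
  exact mul_le_mul_of_nonneg_right he (by positivity)

section buf

variable {w : ℕ → ℤ → ℝ} {p : ℕ → ℝ} {c0 n1 : ℕ} {a1 b1 a2 b2 xa xb s : ℤ} {lam1 lam2 δ ell ell0 Kc be g X L0 e L : ℝ}

theorem cl2_or {y : ℤ} (hy : y ∈ cl2 a1 b1 a2 b2) : (a1 ≤ y ∧ y ≤ b1) ∨ (a2 ≤ y ∧ y ≤ b2) := by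
  unfold cl2 at hy
  rw [mem_union, mem_Icc, mem_Icc] at hy
  exact hy

theorem Geo21.sub (G : Geo21 lo h n1 a1 b1 a2 b2 xa xb) : cl2 a1 b1 a2 b2 ⊆ Icc lo h := by
  intro z hz
  have g1 := G.h1
  have g2 := G.h2
  have g3 := G.h3
  have g7 := G.h7
  have g8 := G.h8
  have := cl2_or hz
  rw [mem_Icc]
  omega

/-- **The exits of the first buffer for every start in the cells.** -/
theorem exits26 (F : Fac lo h n1 (kf w p c0 n1) Kr α β La Lb E a0 b0 ca ka cb kb)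
    (H : BufO26 Kr Lb E lam1 lam2 a1 b1 a2 b2 xa xb s A δ ell ell0 Kc be g) (hA : 0 ≤ A) (G : Geo21 lo h n1 a1 b1 a2 b2 xa xb)
    (hc : ∀ y ∈ cl2 a1 b1 a2 b2, |La y| ≤ ρ0)
    (hp1 : ∀ x ∈ Icc lo (h + n1), p1 x ≤ Real.exp ((cp + kp * |Lb x|) * E)) (hp0 : ∀ x ∈ Icc lo (h + n1), 0 ≤ p1 x)
    (hbe : kb + kp ≤ be) (he : Real.exp (-((g - (ca + ka * ρ0 + cb + cp)) * E)) ≤ e) {y : ℤ} (hy : y ∈ cl2 a1 b1 a2 b2) :
    (∑ x ∈ (Icc lo (h + n1)).filter (· < xa), kf w p c0 n1 y x * p1 x ≤ e * (a0 * b0 * A)) ∧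
      ∑ x ∈ (Icc lo (h + n1)).filter (xb < ·), kf w p c0 n1 y x * p1 x ≤ e * (a0 * b0 * A) :=
  ⟨F.ex (G.sub hy) (filter_subset _ _) hp1 hp0 (hc y hy) hbe (H.exl y (cl2_or hy) _ fun x hx => (mem_filter.1 hx).2) hA he,
    F.ex (G.sub hy) (filter_subset _ _) hp1 hp0 (hc y hy) hbe (H.exr y (cl2_or hy) _ fun x hx => (mem_filter.1 hx).2) hA he⟩

/-- **`BufIn` from `BufO26`.** -/
theorem BufIn.of26 (F : Fac lo h n1 (kf w p c0 n1) Kr α β La Lb E a0 b0 ca ka cb kb)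
    (H : BufO26 Kr Lb E lam1 lam2 a1 b1 a2 b2 xa xb s A δ ell ell0 Kc be g) (hA : 0 ≤ A) (G : Geo21 lo h n1 a1 b1 a2 b2 xa xb)
    (hc : ∀ y ∈ cl2 a1 b1 a2 b2, |La y| ≤ ρ0)
    (hp1 : ∀ x ∈ Icc lo (h + n1), p1 x ≤ Real.exp ((cp + kp * |Lb x|) * E)) (hp0 : ∀ x ∈ Icc lo (h + n1), 0 ≤ p1 x)
    (hbe : kb + kp ≤ be) (hX : |Lb xa| ≤ X) (hl : ell ≤ ell0) (hL : Real.exp ((ca + ka * ρ0 + cb + kb * X + ell0) * E) ≤ L0)
    (he : Real.exp (-((g - (ca + ka * ρ0 + cb + cp)) * E)) ≤ e) :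
    BufIn w p lo h c0 n1 a1 b1 a2 b2 xa xb s p1 δ e (a0 * b0 * A) (L0 ^ 2) ∧
      SepC w p lo h c0 n1 a1 a2 s p1 e (a0 * b0 * A) := by
  have g1 := G.h1
  have g2 := G.h2
  have g3 := G.h3
  have g4 := G.h4
  have g5 := G.h5
  have g6 := G.h6
  have g7 := G.h7
  have g8 := G.h8
  have E0 := F.E0
  have a0p := F.a0p
  have b0p := F.b0p
  have m1 : a1 ∈ cl2 a1 b1 a2 b2 := by
    unfold cl2
    simp only [mem_union, mem_Icc]
    omega
  have m2 : a2 ∈ cl2 a1 b1 a2 b2 := by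
    unfold cl2
    simp only [mem_union, mem_Icc]
    omega
  have m4 : b2 ∈ cl2 a1 b1 a2 b2 := by
    unfold cl2
    simp only [mem_union, mem_Icc]
    omega
  have hxa : xa ∈ Icc lo (h + n1) := mem_Icc.2 ⟨by omega, by omega⟩
  have k0 : ∀ y, 0 ≤ kf w p c0 n1 y xa := fun y => by
    rw [F.eq]
    exact mul_nonneg (mul_nonneg (F.α0 y).le (F.β0 xa).le) (F.Kr0 y xa)
  have L00 : 0 ≤ L0 := (Real.exp_pos _).le.trans hL
  have lw : ∀ y ∈ cl2 a1 b1 a2 b2, a0 * b0 * A ≤ L0 * kf w p c0 n1 y xa := fun y hy => by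
    refine (F.one_lw (G.sub hy) hxa (hc y hy) hX (H.loww y (cl2_or hy) xa le_rfl g5) hA).trans ?_
    exact mul_le_mul_of_nonneg_right hL (k0 y)
  have up : ∀ y ∈ cl2 a1 b1 a2 b2, kf w p c0 n1 y xa ≤ L0 * (a0 * b0 * A) := fun y hy => by
    refine (F.one_up (G.sub hy) hxa (hc y hy) hX (H.up y (cl2_or hy) xa) hA).trans ?_
    refine mul_le_mul_of_nonneg_right (le_trans (Real.exp_le_exp.2 ?_) hL) (by positivity)
    exact mul_le_mul_of_nonneg_right (by linarith) E0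
  have rt : ∀ y ∈ cl2 a1 b1 a2 b2, ∀ y' ∈ cl2 a1 b1 a2 b2, kf w p c0 n1 y xa ≤ L0 ^ 2 * kf w p c0 n1 y' xa := fun y hy y' hy' => by
    have := mul_le_mul_of_nonneg_left (lw y' hy') L00
    rw [pow_two, mul_assoc]
    exact (up y hy).trans this
  have c1 : ∀ y ∈ Icc a1 b1, y ∈ cl2 a1 b1 a2 b2 := fun y hy => by
    unfold cl2
    exact mem_union_left _ hy
  have c2 : ∀ y ∈ Icc a2 b2, y ∈ cl2 a1 b1 a2 b2 := fun y hy => by
    unfold cl2
    exact mem_union_right _ hy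
  refine ⟨⟨?_, ?_, fun y hy => ⟨rt _ m1 _ (c1 y hy), rt _ (c1 y hy) _ m1⟩, fun y hy => ⟨rt _ m2 _ (c2 y hy), rt _ (c2 y hy) _ m2⟩, ?_, ?_⟩,
    ⟨?_, ?_⟩⟩
  · rw [F.cr]
    exact H.cr1
  · rw [F.cr]
    exact H.cr2
  · exact (exits26 F H hA G hc hp1 hp0 hbe he m1).1
  · exact (exits26 F H hA G hc hp1 hp0 hbe he m4).2
  · exact F.ex (G.sub m1) (filter_subset _ _) hp1 hp0 (hc _ m1) hbe (H.sep1 a1 le_rfl g1 _ fun x hx => (mem_filter.1 hx).2) hA he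
  · exact F.ex (G.sub m2) (filter_subset _ _) hp1 hp0 (hc _ m2) hbe
      (H.sep2 a2 le_rfl g3 _ fun x hx => by have := (mem_filter.1 hx).2; omega) hA he

/-- **The kernel of the first buffer against slopes.** `x1`, `x2` : ends of the two lanes. -/
theorem krn26 (F : Fac lo h n1 (kf w p c0 n1) Kr α β La Lb E a0 b0 ca ka cb kb)
    (H : BufO26 Kr Lb E lam1 lam2 a1 b1 a2 b2 xa xb s A δ ell ell0 Kc be g) (hA : 1 ≤ A) (G : Geo21 lo h n1 a1 b1 a2 b2 xa xb)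
    (hc : ∀ y ∈ cl2 a1 b1 a2 b2, |La y| ≤ ρ0)
    (all : ∀ y ∈ Icc lo h, ∀ x ∈ Icc lo (h + n1), Kr y x ≤ Real.exp ((Q1 + k1 * |La y| - h1 * |Lb x - La y|) * E) * A)
    (hz : ∀ y x : ℤ, ¬ (y ≤ x ∧ x ≤ y + n1) → Kr y x = 0) (hn : (n1 : ℝ) + 1 ≤ Real.exp E)
    (hp1 : ∀ x ∈ Icc lo (h + n1), p1 x ≤ Real.exp ((cp + kp * |Lb x|) * E)) (hp0 : ∀ x ∈ Icc lo (h + n1), 0 ≤ p1 x)
    (hkp0 : 0 ≤ kb + kp) (hkp : kb + kp ≤ h1) (hk : ka + k1 + kb + kp ≤ kph)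
    (hph : ∀ y ∈ Icc lo h, Real.exp (kph * (|La y| - ρ0) * E) ≤ ph y) (hL : Real.exp ((ca + cb + cp + Q1 + 1 + kph * ρ0) * E) ≤ L)
    {x1 x2 : ℤ} (hx1 : x1 ∈ Icc lo (h + n1)) (hx2 : x2 ∈ Icc lo (h + n1)) (l1 : |Lb x1 - lam1| ≤ Kc) (l2 : |Lb x2 - lam2| ≤ Kc)
    (X1 : |Lb x1| ≤ X) (X2 : |Lb x2| ≤ X) (hL' : Real.exp ((ca + ka * ρ0 + cb + kb * X + ell) * E) ≤ L) :
    Krn (Icc lo h) (Icc lo (h + n1)) (cl2 a1 b1 a2 b2) {x1, x2} (kf w p c0 n1) ph p1 L (a0 * b0 * A) := by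
  have k0 : ∀ y x, 0 ≤ kf w p c0 n1 y x := fun y x => by
    rw [F.eq]
    exact mul_nonneg (mul_nonneg (F.α0 y).le (F.β0 x).le) (F.Kr0 y x)
  have L0 : 0 ≤ L := (Real.exp_pos _).le.trans hL
  refine F.krn hA all hz hn hp1 hp0 hkp0 hkp hk hph hL fun y hy => ?_
  have key : ∀ x ∈ Icc lo (h + (n1 : ℤ)), x ∈ ({x1, x2} : Finset ℤ) → |Lb x| ≤ X → Real.exp (-(ell * E)) * A ≤ Kr y x →
      a0 * b0 * A ≤ L * ∑ x ∈ ({x1, x2} : Finset ℤ), kf w p c0 n1 y x := by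
    intro x hx hm hX hlow
    refine (F.one_lw (G.sub hy) hx (hc y hy) hX hlow (by linarith)).trans ?_
    refine mul_le_mul hL' ?_ (k0 y x) L0
    exact single_le_sum (f := fun x => kf w p c0 n1 y x) (fun z _ => k0 y z) hm
  rcases cl2_or hy with h1' | h2'
  · exact key x1 hx1 (by simp) X1 (H.lowc1 y h1'.1 h1'.2 x1 l1)
  · exact key x2 hx2 (by simp) X2 (H.lowc2 y h2'.1 h2'.2 x2 l2)

/-- The total mass from a cell. -/
theorem tot26 (F : Fac lo h n1 (kf w p c0 n1) Kr α β La Lb E a0 b0 ca ka cb kb) (hA : 1 ≤ A)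
    (G : Geo21 lo h n1 a1 b1 a2 b2 xa xb) (hc : ∀ y ∈ cl2 a1 b1 a2 b2, |La y| ≤ ρ0)
    (all : ∀ y ∈ Icc lo h, ∀ x ∈ Icc lo (h + n1), Kr y x ≤ Real.exp ((Q1 + k1 * |La y| - h1 * |Lb x - La y|) * E) * A)
    (hz : ∀ y x : ℤ, ¬ (y ≤ x ∧ x ≤ y + n1) → Kr y x = 0) (hn : (n1 : ℝ) + 1 ≤ Real.exp E) (hk1 : 0 ≤ k1) (hkb : kb ≤ h1)
    (hL : Real.exp ((ca + cb + Q1 + 1 + (ka + k1 + kb) * ρ0) * E) ≤ L) {y : ℤ} (hy : y ∈ cl2 a1 b1 a2 b2) :
    ∑ x ∈ Icc lo (h + n1), kf w p c0 n1 y x ≤ L * (a0 * b0 * A) := by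
  have E0 := F.E0
  have a0p := F.a0p
  have b0p := F.b0p
  have K := F.krn (c := ∅) (d := ∅) (p1 := fun _ => 1) (ph := fun y => Real.exp ((ka + k1 + kb) * (|La y| - ρ0) * E)) (ρ0 := ρ0)
    (cp := 0) (kp := 0) (kph := ka + k1 + kb) (L := L) hA all hz hn (fun x _ => by simp) (fun _ _ => zero_le_one)
    (by linarith [F.kb0]) (by linarith) (by linarith) (fun y _ => le_rfl) (by rwa [add_zero]) (fun y hy => absurd hy (notMem_empty y))
  have u := K.up y (G.sub hy)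
  simp only [mul_one] at u
  refine u.trans (mul_le_mul_of_nonneg_right ?_ (by positivity))
  refine mul_le_of_le_one_right ((Real.exp_pos _).le.trans hL) ?_
  rw [Real.exp_le_one_iff]
  have h1' := hc y hy
  have h2' : (ka + k1 + kb) * (|La y| - ρ0) ≤ 0 := mul_nonpos_of_nonneg_of_nonpos (by linarith [F.ka0, F.kb0]) (by linarith)
  exact mul_nonpos_of_nonpos_of_nonneg h2' E0

end buf

end

end Pool.Agent.W_7d29a1_C1.Sh21
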