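import Pool.Agent.W_7d29a1_C1.CR76

/-!
MP_7d29a1_pr, [C1] THE BUFFER BEHIND THE TWO LANES (BufIn), deterministic part. (helper26)

Three kernels `M` (typical, rank one on the cells), `F` (two balanced lanes), `B` (typical), lateral coordinates `L0 .. L3` of the four
rows in widths, energies in the unit `E`. `BH26` : the data of one lane (start cell `A`, cells `C`, `D` of the lane, `C'`, `D'` of the
other lane). `off26` : the paths which do not go through `C` are negligible at every end of the window; `cr26` : the kernel is of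
rank one from the cell `A` to the whole window, also under the other lane; `env26`, `low26` : envelope and lower bound.
-/

set_option autoImplicit false

namespace Pool.Agent.W_7d29a1_C1.B26

open Finset
open Pool.Agent.W_7d29a1_C1.CR76 (CR)

noncomputable section

/-- The data of one lane. -/
structure BH26 (M F B : ℤ → ℤ → ℝ) (L0 L1 L2 L3 : ℤ → ℝ) (A C D C' D' : Set ℤ) (c d : ℤ)
    (lam lam' K0 K3 K E qM hM QF kF hF G dd W W' QB kB hB qB b rho be L : ℝ) : Prop where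
  E0 : 0 < E
  nM : ∀ a u, 0 ≤ M a u
  nF : ∀ u v, 0 ≤ F u v
  nB : ∀ v x, 0 ≤ B v x
  cC : c ∈ C
  dD : d ∈ D
  -- the cells
  rho0 : 0 ≤ rho
  A1 : ∀ a ∈ A, |L0 a - lam| ≤ rho
  C1 : ∀ u ∈ C, |L1 u - lam| ≤ rho
  D1 : ∀ v ∈ D, |L2 v - lam| ≤ rho
  C2 : ∀ u ∈ C', |L1 u - lam'| ≤ rho
  D2 : ∀ v ∈ D', |L2 v - lam'| ≤ rho
  lK : |lam| + rho ≤ K0
  lK' : |lam'| + rho ≤ K0
  -- the first kernel
  Mup : ∀ a ∈ A, ∀ u, M a u ≤ Real.exp ((qM - hM * |L1 u - L0 a|) * E)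
  Mlo : ∀ a ∈ A, Real.exp (-(qM * E)) ≤ M a c
  -- the lanes
  W0 : Real.exp (L * E) ≤ W
  WF : W ≤ F c d
  WW : W' ≤ Real.exp (dd * E) * W
  Fc : ∀ u ∈ C, ∀ v ∈ D, F u v ≤ Real.exp (dd * E) * W
  Fc' : ∀ u ∈ C', ∀ v ∈ D', F u v ≤ Real.exp (dd * E) * W'
  Fo : ∀ u v, |L1 u| ≤ K3 → ¬ (u ∈ C ∧ v ∈ D) → ¬ (u ∈ C' ∧ v ∈ D') → F u v ≤ Real.exp (-(G * E))
  Fup : ∀ u v, F u v ≤ Real.exp ((QF + kF * |L1 u| - hF * |L2 v - L1 u|) * E)
  -- the last kernel
  Bup : ∀ v x, B v x ≤ Real.exp ((QB + kB * |L2 v| - hB * |L3 x - L2 v|) * E)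
  Bnr : ∀ v, v ∈ D ∨ v ∈ D' → ∀ x, B v x ≤ Real.exp ((qB - hB * |L3 x - L2 v|) * E)
  Blo : ∀ x, |L3 x| ≤ K → Real.exp (-(b * E)) ≤ B d x
  -- numbers
  L0' : 0 ≤ L
  q0 : 0 ≤ qM ∧ 0 ≤ qB ∧ 0 ≤ QB ∧ 0 ≤ QF ∧ 0 ≤ dd ∧ 0 ≤ hM ∧ 0 ≤ hF ∧ 0 ≤ hB ∧ 0 ≤ kF ∧ 0 ≤ kB ∧ 0 ≤ be ∧ 0 ≤ K0 ∧ 0 ≤ K3
  n1 : 2 * (kF + kB + be) ≤ hM
  n2 : 2 * (kB + be) ≤ hF
  n3 : be ≤ hB

variable {M F B : ℤ → ℤ → ℝ} {L0 L1 L2 L3 : ℤ → ℝ} {A C D C' D' : Set ℤ} {c d : ℤ}
  {lam lam' K0 K3 K E qM hM QF kF hF G dd W W' QB kB hB qB b rho be L : ℝ}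

/-- The normalization of the start `a`. -/
def Nn (M : ℤ → ℤ → ℝ) (c : ℤ) (W : ℝ) (a : ℤ) : ℝ := M a c * W

theorem BH26.Wpos (h : BH26 M F B L0 L1 L2 L3 A C D C' D' c d lam lam' K0 K3 K E qM hM QF kF hF G dd W W' QB kB hB qB b rho be L) :
    0 < W := lt_of_lt_of_le (Real.exp_pos _) h.W0

theorem BH26.Npos (h : BH26 M F B L0 L1 L2 L3 A C D C' D' c d lam lam' K0 K3 K E qM hM QF kF hF G dd W W' QB kB hB qB b rho be L)
    {a : ℤ} (ha : a ∈ A) : 0 < Nn M c W a := mul_pos (lt_of_lt_of_le (Real.exp_pos _) (h.Mlo a ha)) h.Wpos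

/-- The normalization is at least `exp ((L - qM) E)`. -/
theorem BH26.Nge (h : BH26 M F B L0 L1 L2 L3 A C D C' D' c d lam lam' K0 K3 K E qM hM QF kF hF G dd W W' QB kB hB qB b rho be L)
    {a : ℤ} (ha : a ∈ A) : Real.exp ((L - qM) * E) ≤ Nn M c W a := by
  have h1 := mul_le_mul (h.Mlo a ha) h.W0 (Real.exp_pos _).le (h.nM a c)
  rw [← Real.exp_add] at h1
  refine le_trans (Real.exp_le_exp.2 (by linarith)) h1

/-- From an absolute bound to a bound relative to the normalization. -/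
theorem BH26.rel (h : BH26 M F B L0 L1 L2 L3 A C D C' D' c d lam lam' K0 K3 K E qM hM QF kF hF G dd W W' QB kB hB qB b rho be L)
    {a : ℤ} (ha : a ∈ A) {x y : ℝ} (hx : x ≤ Real.exp (y * E)) : x ≤ Real.exp ((y + qM) * E) * Nn M c W a := by
  have h1 := h.Nge ha
  have h2 : Real.exp (y * E) ≤ Real.exp ((y + qM) * E) * Real.exp ((L - qM) * E) := by
    rw [← Real.exp_add]
    refine Real.exp_le_exp.2 ?_
    have := mul_nonneg h.L0' h.E0.le
    nlinarith
  exact hx.trans (h2.trans (mul_le_mul_of_nonneg_left h1 (Real.exp_pos _).le))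

/-- The product of three exponential bounds. -/
theorem prod3 {x y z a b c : ℝ} (_hx : 0 ≤ x) (hy : 0 ≤ y) (hz : 0 ≤ z) (h1 : x ≤ Real.exp a) (h2 : y ≤ Real.exp b) (h3 : z ≤ Real.exp c) :
    x * y * z ≤ Real.exp (a + b + c) := by
  rw [Real.exp_add, Real.exp_add]
  exact mul_le_mul (mul_le_mul h1 h2 hy (Real.exp_pos _).le) h3 hz (by positivity)

/-- The triangle inequality of the four rows. -/
theorem tri4 (x0 x1 x2 x3 : ℝ) : |x3| ≤ |x3 - x2| + |x2 - x1| + |x1 - x0| + |x0| := by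
  have e : x3 = (x3 - x2) + (x2 - x1) + (x1 - x0) + x0 := by ring
  calc |x3| = |(x3 - x2) + (x2 - x1) + (x1 - x0) + x0| := by rw [← e]
    _ ≤ |(x3 - x2) + (x2 - x1) + (x1 - x0)| + |x0| := abs_add_le _ _
    _ ≤ |(x3 - x2) + (x2 - x1)| + |x1 - x0| + |x0| := by linarith [abs_add_le ((x3 - x2) + (x2 - x1)) (x1 - x0)]
    _ ≤ _ := by linarith [abs_add_le (x3 - x2) (x2 - x1)]

section own

variable (h : BH26 M F B L0 L1 L2 L3 A C D C' D' c d lam lam' K0 K3 K E qM hM QF kF hF G dd W W' QB kB hB qB b rho be L)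
include h

/-- Paths in the own lane. -/
theorem route_a {a : ℤ} (ha : a ∈ A) {u v : ℤ} (hu : u ∈ C) (hv : v ∈ D) (x : ℤ) :
    M a u * F u v * B v x ≤ Real.exp ((2 * qM + dd + qB + hB * rho - hB * |L3 x - lam|) * E) * Nn M c W a := by
  obtain ⟨q1, q2, q3, q4, q5, q6, q7, q8, q9, q10, q11, q12, q13⟩ := h.q0
  have hE := h.E0
  have hW := h.Wpos
  have m1 := h.Mup a ha u
  have m2 := h.Mlo a ha
  have f1 := h.Fc u hu v hv
  have b1 := h.Bnr v (Or.inl hv) x
  have m3 : M a u ≤ Real.exp (2 * qM * E) * M a c := by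
    have g1 : M a u ≤ Real.exp (qM * E) := m1.trans (Real.exp_le_exp.2 (by
      have := mul_nonneg q6 (abs_nonneg (L1 u - L0 a))
      nlinarith))
    have g2 : Real.exp (qM * E) = Real.exp (2 * qM * E) * Real.exp (-(qM * E)) := by
      rw [← Real.exp_add]
      congr 1
      ring
    rw [g2] at g1
    exact g1.trans (mul_le_mul_of_nonneg_left m2 (Real.exp_pos _).le)
  have b2 : B v x ≤ Real.exp ((qB + hB * rho - hB * |L3 x - lam|) * E) := by
    refine b1.trans (Real.exp_le_exp.2 ?_)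
    refine mul_le_mul_of_nonneg_right ?_ hE.le
    have g1 := h.D1 v hv
    have g2 : |L3 x - lam| ≤ |L3 x - L2 v| + |L2 v - lam| := abs_sub_le _ _ _
    have g3 : hB * |L3 x - lam| ≤ hB * (|L3 x - L2 v| + rho) := mul_le_mul_of_nonneg_left (by linarith) q8
    linarith
  have hmc := h.nM a c
  calc M a u * F u v * B v x ≤ (Real.exp (2 * qM * E) * M a c) * (Real.exp (dd * E) * W) *
        Real.exp ((qB + hB * rho - hB * |L3 x - lam|) * E) :=
        mul_le_mul (mul_le_mul m3 f1 (h.nF u v) (by positivity)) b2 (h.nB v x) (by positivity)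
    _ = (Real.exp (2 * qM * E) * Real.exp (dd * E) * Real.exp ((qB + hB * rho - hB * |L3 x - lam|) * E)) * Nn M c W a := by
        unfold Nn
        ring
    _ = _ := by
        rw [← Real.exp_add, ← Real.exp_add]
        congr 2
        ring

/-- Paths in the other lane. -/
theorem route_b {a : ℤ} (ha : a ∈ A) {u v : ℤ} (hu : u ∈ C') (hv : v ∈ D') (x : ℤ) :
    M a u * F u v * B v x ≤
      Real.exp ((2 * qM + 2 * dd + qB + hB * rho + be * K0 - hM * (|lam' - lam| - 2 * rho) - be * |L3 x|) * E) * Nn M c W a := by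
  obtain ⟨q1, q2, q3, q4, q5, q6, q7, q8, q9, q10, q11, q12, q13⟩ := h.q0
  have hE := h.E0
  have hW := h.Wpos
  have m1 := h.Mup a ha u
  have m2 := h.Mlo a ha
  have f1 := h.Fc' u hu v hv
  have hv0 : |L2 v| ≤ K0 := by
    have g1 := h.D2 v hv
    have g2 := h.lK'
    have g3 := abs_sub_abs_le_abs_sub (L2 v) lam'
    linarith
  have b1 := h.Bnr v (Or.inr hv) x
  have m3 : M a u ≤ Real.exp ((2 * qM - hM * (|lam' - lam| - 2 * rho)) * E) * M a c := by
    have g1 : M a u ≤ Real.exp ((qM - hM * (|lam' - lam| - 2 * rho)) * E) := m1.trans (Real.exp_le_exp.2 (by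
      refine mul_le_mul_of_nonneg_right ?_ hE.le
      have e1 := h.A1 a ha
      have e2 := h.C2 u hu
      have e3 : |lam' - lam| ≤ |L1 u - lam'| + |L1 u - L0 a| + |L0 a - lam| := by
        have e4 : lam' - lam = -(L1 u - lam') + (L1 u - L0 a) + (L0 a - lam) := by ring
        rw [e4]
        refine (abs_add_le _ _).trans ?_
        have := abs_add_le (-(L1 u - lam')) (L1 u - L0 a)
        rw [abs_neg] at this
        linarith
      have := mul_le_mul_of_nonneg_left (show |lam' - lam| - 2 * rho ≤ |L1 u - L0 a| by linarith) q6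
      linarith))
    have g2 : Real.exp ((qM - hM * (|lam' - lam| - 2 * rho)) * E) =
        Real.exp ((2 * qM - hM * (|lam' - lam| - 2 * rho)) * E) * Real.exp (-(qM * E)) := by
      rw [← Real.exp_add]
      congr 1
      ring
    rw [g2] at g1
    exact g1.trans (mul_le_mul_of_nonneg_left m2 (Real.exp_pos _).le)
  have f2 : F u v ≤ Real.exp (2 * dd * E) * W := by
    refine f1.trans ?_
    have g1 := mul_le_mul_of_nonneg_left h.WW (Real.exp_pos (dd * E)).le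
    refine g1.trans (le_of_eq ?_)
    rw [← mul_assoc, ← Real.exp_add]
    congr 2
    ring
  have b2 : B v x ≤ Real.exp ((qB + hB * rho + be * K0 - be * |L3 x|) * E) := by
    refine b1.trans (Real.exp_le_exp.2 ?_)
    refine mul_le_mul_of_nonneg_right ?_ hE.le
    have g2 : |L3 x| ≤ |L3 x - L2 v| + |L2 v| := by
      have := abs_add_le (L3 x - L2 v) (L2 v)
      rwa [sub_add_cancel] at this
    have g3 : be * |L3 x| ≤ be * (|L3 x - L2 v| + K0) := mul_le_mul_of_nonneg_left (by linarith) q11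
    have g4 : be * |L3 x - L2 v| ≤ hB * |L3 x - L2 v| := mul_le_mul_of_nonneg_right h.n3 (abs_nonneg _)
    have g5 := mul_nonneg q8 h.rho0
    linarith
  have hmc := h.nM a c
  calc M a u * F u v * B v x ≤ (Real.exp ((2 * qM - hM * (|lam' - lam| - 2 * rho)) * E) * M a c) * (Real.exp (2 * dd * E) * W) *
        Real.exp ((qB + hB * rho + be * K0 - be * |L3 x|) * E) :=
        mul_le_mul (mul_le_mul m3 f2 (h.nF u v) (by positivity)) b2 (h.nB v x) (by positivity)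
    _ = (Real.exp ((2 * qM - hM * (|lam' - lam| - 2 * rho)) * E) * Real.exp (2 * dd * E) *
          Real.exp ((qB + hB * rho + be * K0 - be * |L3 x|) * E)) * Nn M c W a := by
        unfold Nn
        ring
    _ = _ := by
        rw [← Real.exp_add, ← Real.exp_add]
        congr 2
        ring

/-- Paths off the lanes, from the window. -/
theorem route_c {a : ℤ} (ha : a ∈ A) {u v : ℤ} (hw : |L1 u| ≤ K3) (h1 : ¬ (u ∈ C ∧ v ∈ D)) (h2 : ¬ (u ∈ C' ∧ v ∈ D')) (x : ℤ) :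
    M a u * F u v * B v x ≤
      Real.exp ((2 * qM + QF / 2 + QB + (kF + kB + be) * K0 - G / 2 - be * |L3 x|) * E) * Nn M c W a := by
  obtain ⟨q1, q2, q3, q4, q5, q6, q7, q8, q9, q10, q11, q12, q13⟩ := h.q0
  have hE := h.E0
  have m1 := h.Mup a ha u
  have b1 := h.Bup v x
  have f1 := h.Fo u v hw h1 h2
  have f2 := h.Fup u v
  have f3 : F u v ≤ Real.exp ((-(G / 2) + (QF + kF * |L1 u| - hF * |L2 v - L1 u|) / 2) * E) := by
    have g1 : F u v * F u v ≤ Real.exp (-(G * E)) * Real.exp ((QF + kF * |L1 u| - hF * |L2 v - L1 u|) * E) :=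
      mul_le_mul f1 f2 (h.nF u v) (Real.exp_pos _).le
    have g2 : Real.exp (-(G * E)) * Real.exp ((QF + kF * |L1 u| - hF * |L2 v - L1 u|) * E) =
        Real.exp ((-(G / 2) + (QF + kF * |L1 u| - hF * |L2 v - L1 u|) / 2) * E) *
          Real.exp ((-(G / 2) + (QF + kF * |L1 u| - hF * |L2 v - L1 u|) / 2) * E) := by
      rw [← Real.exp_add, ← Real.exp_add]
      congr 1
      ring
    rw [g2] at g1
    by_contra hcon
    exact absurd g1 (not_le.2 (mul_self_lt_mul_self (Real.exp_pos _).le (not_le.1 hcon)))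
  have p := prod3 (h.nM a u) (h.nF u v) (h.nB v x) m1 f3 b1
  have key : (qM - hM * |L1 u - L0 a|) * E + (-(G / 2) + (QF + kF * |L1 u| - hF * |L2 v - L1 u|) / 2) * E +
      (QB + kB * |L2 v| - hB * |L3 x - L2 v|) * E ≤ (qM + QF / 2 + QB + (kF + kB + be) * K0 - G / 2 - be * |L3 x|) * E := by
    rw [← add_mul, ← add_mul]
    refine mul_le_mul_of_nonneg_right ?_ hE.le
    have t1 := tri4 (L0 a) (L1 u) (L2 v) (L3 x)
    have t2 : |L2 v| ≤ |L2 v - L1 u| + |L1 u - L0 a| + |L0 a| := by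
      have e : L2 v = (L2 v - L1 u) + (L1 u - L0 a) + L0 a := by ring
      calc |L2 v| = |(L2 v - L1 u) + (L1 u - L0 a) + L0 a| := by rw [← e]
        _ ≤ |(L2 v - L1 u) + (L1 u - L0 a)| + |L0 a| := abs_add_le _ _
        _ ≤ _ := by linarith [abs_add_le (L2 v - L1 u) (L1 u - L0 a)]
    have t3 : |L1 u| ≤ |L1 u - L0 a| + |L0 a| := by
      have := abs_add_le (L1 u - L0 a) (L0 a)
      rwa [sub_add_cancel] at this
    have t0 : |L0 a| ≤ K0 := by
      have g1 := h.A1 a ha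
      have g2 := h.lK
      have g3 := abs_sub_abs_le_abs_sub (L0 a) lam
      linarith
    obtain ⟨x1, hx1⟩ : ∃ x1 : ℝ, x1 = |L1 u - L0 a| := ⟨_, rfl⟩
    obtain ⟨x2, hx2⟩ : ∃ x2 : ℝ, x2 = |L2 v - L1 u| := ⟨_, rfl⟩
    obtain ⟨x3, hx3⟩ : ∃ x3 : ℝ, x3 = |L3 x - L2 v| := ⟨_, rfl⟩
    have y1 : 0 ≤ x1 := by rw [hx1]; exact abs_nonneg _
    have y2 : 0 ≤ x2 := by rw [hx2]; exact abs_nonneg _
    have y3 : 0 ≤ x3 := by rw [hx3]; exact abs_nonneg _
    rw [← hx1, ← hx2, ← hx3] at t1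
    rw [← hx1, ← hx2] at t2
    rw [← hx1] at t3
    rw [← hx1, ← hx2, ← hx3]
    have z1 : be * |L3 x| ≤ be * (x3 + x2 + x1 + K0) := mul_le_mul_of_nonneg_left (by linarith) q11
    have z2 : kB * |L2 v| ≤ kB * (x2 + x1 + K0) := mul_le_mul_of_nonneg_left (by linarith) q10
    have z3 : kF * |L1 u| ≤ kF * (x1 + K0) := mul_le_mul_of_nonneg_left (by linarith) q9
    have w1 := mul_le_mul_of_nonneg_right h.n1 y1
    have w2 := mul_le_mul_of_nonneg_right h.n2 y2
    have w3 := mul_le_mul_of_nonneg_right h.n3 y3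
    have v1 := mul_nonneg q9 y1
    have v2 := mul_nonneg q10 y1
    have v3 := mul_nonneg q11 y1
    have v4 := mul_nonneg q9 q12
    nlinarith
  refine (h.rel ha (p.trans (Real.exp_le_exp.2 key))).trans (le_of_eq ?_)
  congr 2
  ring

/-- Paths which leave the window. -/
theorem route_d {a : ℤ} (ha : a ∈ A) {u : ℤ} (v : ℤ) (hw : K3 < |L1 u|) (x : ℤ) :
    M a u * F u v * B v x ≤
      Real.exp ((2 * qM + QF + QB + (kF + kB + be) * K0 - hM / 2 * (K3 - K0) - be * |L3 x|) * E) * Nn M c W a := by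
  obtain ⟨q1, q2, q3, q4, q5, q6, q7, q8, q9, q10, q11, q12, q13⟩ := h.q0
  have hE := h.E0
  have m1 := h.Mup a ha u
  have b1 := h.Bup v x
  have f2 := h.Fup u v
  have p := prod3 (h.nM a u) (h.nF u v) (h.nB v x) m1 f2 b1
  have key : (qM - hM * |L1 u - L0 a|) * E + (QF + kF * |L1 u| - hF * |L2 v - L1 u|) * E +
      (QB + kB * |L2 v| - hB * |L3 x - L2 v|) * E ≤ (qM + QF + QB + (kF + kB + be) * K0 - hM / 2 * (K3 - K0) - be * |L3 x|) * E := by
    rw [← add_mul, ← add_mul]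
    refine mul_le_mul_of_nonneg_right ?_ hE.le
    have t1 := tri4 (L0 a) (L1 u) (L2 v) (L3 x)
    have t2 : |L2 v| ≤ |L2 v - L1 u| + |L1 u - L0 a| + |L0 a| := by
      have e : L2 v = (L2 v - L1 u) + (L1 u - L0 a) + L0 a := by ring
      calc |L2 v| = |(L2 v - L1 u) + (L1 u - L0 a) + L0 a| := by rw [← e]
        _ ≤ |(L2 v - L1 u) + (L1 u - L0 a)| + |L0 a| := abs_add_le _ _
        _ ≤ _ := by linarith [abs_add_le (L2 v - L1 u) (L1 u - L0 a)]
    have t3 : |L1 u| ≤ |L1 u - L0 a| + |L0 a| := by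
      have := abs_add_le (L1 u - L0 a) (L0 a)
      rwa [sub_add_cancel] at this
    have t0 : |L0 a| ≤ K0 := by
      have g1 := h.A1 a ha
      have g2 := h.lK
      have g3 := abs_sub_abs_le_abs_sub (L0 a) lam
      linarith
    obtain ⟨x1, hx1⟩ : ∃ x1 : ℝ, x1 = |L1 u - L0 a| := ⟨_, rfl⟩
    obtain ⟨x2, hx2⟩ : ∃ x2 : ℝ, x2 = |L2 v - L1 u| := ⟨_, rfl⟩
    obtain ⟨x3, hx3⟩ : ∃ x3 : ℝ, x3 = |L3 x - L2 v| := ⟨_, rfl⟩
    have y1 : 0 ≤ x1 := by rw [hx1]; exact abs_nonneg _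
    have y2 : 0 ≤ x2 := by rw [hx2]; exact abs_nonneg _
    have y3 : 0 ≤ x3 := by rw [hx3]; exact abs_nonneg _
    rw [← hx1, ← hx2, ← hx3] at t1
    rw [← hx1, ← hx2] at t2
    rw [← hx1] at t3
    rw [← hx1, ← hx2, ← hx3]
    have hx1' : K3 - K0 ≤ x1 := by linarith
    have z1 : be * |L3 x| ≤ be * (x3 + x2 + x1 + K0) := mul_le_mul_of_nonneg_left (by linarith) q11
    have z2 : kB * |L2 v| ≤ kB * (x2 + x1 + K0) := mul_le_mul_of_nonneg_left (by linarith) q10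
    have z3 : kF * |L1 u| ≤ kF * (x1 + K0) := mul_le_mul_of_nonneg_left (by linarith) q9
    have w1 := mul_le_mul_of_nonneg_right h.n1 y1
    have w2 := mul_le_mul_of_nonneg_right h.n2 y2
    have w3 := mul_le_mul_of_nonneg_right h.n3 y3
    have w4 := mul_le_mul_of_nonneg_left hx1' (show 0 ≤ hM / 2 by linarith)
    have v1 := mul_nonneg q9 y1
    have v2 := mul_nonneg q10 y2
    have v3 := mul_nonneg q11 y2
    nlinarith
  refine (h.rel ha (p.trans (Real.exp_le_exp.2 key))).trans (le_of_eq ?_)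
  congr 2
  ring

end own

/-- The exponent `g` of everything which is not in the own lane. -/
structure Gp26 (lam lam' K0 K3 qM hM QF kF G dd QB kB hB qB rho be g : ℝ) : Prop where
  g1 : g + (2 * qM + 2 * dd + qB + hB * rho + be * K0) ≤ hM * (|lam' - lam| - 2 * rho)
  g2 : g + (2 * qM + QF / 2 + QB + (kF + kB + be) * K0) ≤ G / 2
  g3 : g + (2 * qM + QF + QB + (kF + kB + be) * K0) ≤ hM / 2 * (K3 - K0)

section own2

variable (h : BH26 M F B L0 L1 L2 L3 A C D C' D' c d lam lam' K0 K3 K E qM hM QF kF hF G dd W W' QB kB hB qB b rho be L)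
  {g : ℝ} (hg : Gp26 lam lam' K0 K3 qM hM QF kF G dd QB kB hB qB rho be g)
include h hg

/-- **Every route which is not in the own lane is small.** -/
theorem route_off {a : ℤ} (ha : a ∈ A) {u v : ℤ} (h1 : ¬ (u ∈ C ∧ v ∈ D)) (x : ℤ) :
    M a u * F u v * B v x ≤ Real.exp ((-g - be * |L3 x|) * E) * Nn M c W a := by
  have hN := (h.Npos ha).le
  have hE := h.E0
  by_cases h2 : u ∈ C' ∧ v ∈ D'
  · refine (route_b h ha h2.1 h2.2 x).trans (mul_le_mul_of_nonneg_right (Real.exp_le_exp.2 ?_) hN)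
    refine mul_le_mul_of_nonneg_right ?_ hE.le
    linarith [hg.g1]
  by_cases h3 : |L1 u| ≤ K3
  · refine (route_c h ha h3 h1 h2 x).trans (mul_le_mul_of_nonneg_right (Real.exp_le_exp.2 ?_) hN)
    refine mul_le_mul_of_nonneg_right ?_ hE.le
    linarith [hg.g2]
  · refine (route_d h ha v (not_le.1 h3) x).trans (mul_le_mul_of_nonneg_right (Real.exp_le_exp.2 ?_) hN)
    refine mul_le_mul_of_nonneg_right ?_ hE.le
    linarith [hg.g3]

end own2

/-! ### The composed kernel -/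

/-- The composition of the three kernels over the finite sets `S1`, `S2`. -/
def K3k (M F B : ℤ → ℤ → ℝ) (S1 S2 : Finset ℤ) (a x : ℤ) : ℝ := ∑ u ∈ S1, ∑ v ∈ S2, M a u * F u v * B v x

section own3

variable {S1 S2 : Finset ℤ}
  (h : BH26 M F B L0 L1 L2 L3 A C D C' D' c d lam lam' K0 K3 K E qM hM QF kF hF G dd W W' QB kB hB qB b rho be L)
include h

/-- **Lower bound.** -/
theorem low26 (hc : c ∈ S1) (hd : d ∈ S2) {a : ℤ} (ha : a ∈ A) {x : ℤ} (hx : |L3 x| ≤ K) :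
    Real.exp (-(b * E)) * Nn M c W a ≤ K3k M F B S1 S2 a x := by
  have nn : ∀ u v, 0 ≤ M a u * F u v * B v x := fun u v => mul_nonneg (mul_nonneg (h.nM _ _) (h.nF _ _)) (h.nB _ _)
  have h1 := single_le_sum (f := fun u => ∑ v ∈ S2, M a u * F u v * B v x) (fun u _ => sum_nonneg fun v _ => nn u v) hc
  have h2 := single_le_sum (f := fun v => M a c * F c v * B v x) (fun v _ => nn c v) hd
  refine le_trans ?_ (h2.trans h1)
  unfold Nn
  have h3 := mul_le_mul_of_nonneg_left h.WF (h.nM a c)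
  have h4 := mul_le_mul h3 (h.Blo x hx) (Real.exp_pos _).le (mul_nonneg (h.nM _ _) (h.nF _ _))
  linarith

end own3

section own4

variable {S1 S2 : Finset ℤ}
  (h : BH26 M F B L0 L1 L2 L3 A C D C' D' c d lam lam' K0 K3 K E qM hM QF kF hF G dd W W' QB kB hB qB b rho be L)
  {g : ℝ} (hg : Gp26 lam lam' K0 K3 qM hM QF kF G dd QB kB hB qB rho be g)
include h hg

/-- **Envelope.** -/
theorem env26 {a : ℤ} (ha : a ∈ A) (x : ℤ) :
    K3k M F B S1 S2 a x ≤ (S1.card * S2.card : ℝ) * ((Real.exp ((2 * qM + dd + qB + hB * rho - hB * |L3 x - lam|) * E) +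
      Real.exp ((-g - be * |L3 x|) * E)) * Nn M c W a) := by
  classical
  have hN := (h.Npos ha).le
  have key : ∀ u v, M a u * F u v * B v x ≤ (Real.exp ((2 * qM + dd + qB + hB * rho - hB * |L3 x - lam|) * E) +
      Real.exp ((-g - be * |L3 x|) * E)) * Nn M c W a := by
    intro u v
    rw [add_mul]
    by_cases h1 : u ∈ C ∧ v ∈ D
    · have h2 := route_a h ha h1.1 h1.2 x
      have h3 := mul_nonneg (Real.exp_pos ((-g - be * |L3 x|) * E)).le hN
      linarith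
    · have h2 := route_off h hg ha h1 x
      have h3 := mul_nonneg (Real.exp_pos ((2 * qM + dd + qB + hB * rho - hB * |L3 x - lam|) * E)).le hN
      linarith
  unfold K3k
  calc ∑ u ∈ S1, ∑ v ∈ S2, M a u * F u v * B v x ≤ ∑ _u ∈ S1, ∑ _v ∈ S2, (Real.exp ((2 * qM + dd + qB + hB * rho - hB * |L3 x - lam|) * E) +
      Real.exp ((-g - be * |L3 x|) * E)) * Nn M c W a := sum_le_sum fun u _ => sum_le_sum fun v _ => key u v
    _ = _ := by
      rw [sum_const, sum_const, nsmul_eq_mul, nsmul_eq_mul]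
      ring

open Classical in
/-- The paths which do not go through the cell `C`. -/
theorem off26 {a : ℤ} (ha : a ∈ A) (x : ℤ) :
    ∑ u ∈ S1.filter (fun u => u ∉ C), ∑ v ∈ S2, M a u * F u v * B v x ≤
      (S1.card * S2.card : ℝ) * (Real.exp (-(g * E)) * Nn M c W a) := by
  have hN := (h.Npos ha).le
  have hE := h.E0
  have q11 := h.q0.2.2.2.2.2.2.2.2.2.2.1
  calc ∑ u ∈ S1.filter (fun u => u ∉ C), ∑ v ∈ S2, M a u * F u v * B v x
      ≤ ∑ _u ∈ S1.filter (fun u => u ∉ C), ∑ _v ∈ S2, Real.exp (-(g * E)) * Nn M c W a := by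
        refine sum_le_sum fun u hu => sum_le_sum fun v _ => ?_
        rw [mem_filter] at hu
        refine (route_off h hg ha (fun h1 => hu.2 h1.1) x).trans (mul_le_mul_of_nonneg_right (Real.exp_le_exp.2 ?_) hN)
        have := mul_nonneg (mul_nonneg q11 (abs_nonneg (L3 x))) hE.le
        linarith
    _ = ((S1.filter (fun u => u ∉ C)).card * S2.card : ℝ) * (Real.exp (-(g * E)) * Nn M c W a) := by
        rw [sum_const, sum_const, nsmul_eq_mul, nsmul_eq_mul]
        ring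
    _ ≤ _ := by
        refine mul_le_mul_of_nonneg_right ?_ (mul_nonneg (Real.exp_pos _).le hN)
        refine mul_le_mul_of_nonneg_right ?_ (Nat.cast_nonneg _)
        exact_mod_cast card_filter_le _ _

/-- **RANK ONE FROM THE CELL TO THE WHOLE WINDOW.** -/
theorem cr26 (hc : c ∈ S1) (hd : d ∈ S2) {ε τ : ℝ} (hε : 0 ≤ ε) (hτ : 0 ≤ τ)
    (hr : ∀ a ∈ A, ∀ a' ∈ A, ∀ u ∈ C, ∀ u' ∈ C, M a u * M a' u' ≤ (1 + ε) * (M a u' * M a' u))
    (ht : (S1.card * S2.card : ℝ) * Real.exp ((b - g) * E) ≤ τ) {a a' x x' : ℤ} (ha : a ∈ A) (ha' : a' ∈ A)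
    (hx : |L3 x| ≤ K) (hx' : |L3 x'| ≤ K) :
    CR (K3k M F B S1 S2) a a' x x' ≤ (1 + τ) ^ 2 * (1 + ε) := by
  classical
  obtain ⟨Q, hQ⟩ : ∃ Q : ℤ → ℤ → ℝ, Q = fun u x => ∑ v ∈ S2, F u v * B v x := ⟨_, rfl⟩
  have hQ0 : ∀ u x, 0 ≤ Q u x := fun u x => by rw [hQ]; exact sum_nonneg fun v _ => mul_nonneg (h.nF _ _) (h.nB _ _)
  have hKQ : ∀ a x, K3k M F B S1 S2 a x = ∑ u ∈ S1, M a u * Q u x := by
    intro a x
    unfold K3k
    rw [hQ]
    refine sum_congr rfl fun u _ => ?_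
    rw [mul_sum]
    exact sum_congr rfl fun v _ => by ring
  obtain ⟨Mn, hMn⟩ : ∃ Mn : ℤ → ℤ → ℝ, Mn = fun a x => ∑ u ∈ S1.filter (fun u => u ∈ C), M a u * Q u x := ⟨_, rfl⟩
  have hM0 : ∀ a x, 0 ≤ Mn a x := fun a x => by rw [hMn]; exact sum_nonneg fun u _ => mul_nonneg (h.nM _ _) (hQ0 _ _)
  have hMK : ∀ a x, Mn a x ≤ K3k M F B S1 S2 a x := fun a x => by
    rw [hKQ, hMn]
    exact sum_le_sum_of_subset_of_nonneg (filter_subset _ _) fun u _ _ => mul_nonneg (h.nM _ _) (hQ0 _ _)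
  -- the main part carries everything
  have up : ∀ a ∈ A, ∀ x, |L3 x| ≤ K → K3k M F B S1 S2 a x ≤ (1 + τ) * Mn a x := by
    intro a ha x hx
    have hN := (h.Npos ha).le
    have e1 : K3k M F B S1 S2 a x = Mn a x + ∑ u ∈ S1.filter (fun u => u ∉ C), ∑ v ∈ S2, M a u * F u v * B v x := by
      rw [hKQ, hMn, ← sum_filter_add_sum_filter_not S1 (fun u => u ∈ C)]
      congr 1
      refine sum_congr rfl fun u _ => ?_
      rw [hQ, mul_sum]
      exact sum_congr rfl fun v _ => by ring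
    have e2 := off26 (S1 := S1) (S2 := S2) h hg ha x
    have e3 : Real.exp (-(b * E)) * Nn M c W a ≤ Mn a x := by
      have h1 := single_le_sum (f := fun u => M a u * Q u x) (s := S1.filter (fun u => u ∈ C))
        (fun u _ => mul_nonneg (h.nM _ _) (hQ0 _ _)) (mem_filter.2 ⟨hc, h.cC⟩)
      have h2 : F c d * B d x ≤ Q c x := by
        rw [hQ]
        exact single_le_sum (f := fun v => F c v * B v x) (fun v _ => mul_nonneg (h.nF _ _) (h.nB _ _)) hd
      have h3 := mul_le_mul h.WF (h.Blo x hx) (Real.exp_pos _).le (h.nF _ _)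
      have h4 := mul_le_mul_of_nonneg_left (h3.trans h2) (h.nM a c)
      rw [hMn]
      refine le_trans ?_ h1
      unfold Nn
      linarith
    have e4 : (S1.card * S2.card : ℝ) * (Real.exp (-(g * E)) * Nn M c W a) ≤ τ * Mn a x := by
      have h1 : Real.exp (-(g * E)) = Real.exp ((b - g) * E) * Real.exp (-(b * E)) := by
        rw [← Real.exp_add]
        congr 1
        ring
      rw [h1]
      calc (S1.card * S2.card : ℝ) * (Real.exp ((b - g) * E) * Real.exp (-(b * E)) * Nn M c W a)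
          = ((S1.card * S2.card : ℝ) * Real.exp ((b - g) * E)) * (Real.exp (-(b * E)) * Nn M c W a) := by ring
        _ ≤ τ * (Real.exp (-(b * E)) * Nn M c W a) :=
            mul_le_mul_of_nonneg_right ht (mul_nonneg (Real.exp_pos _).le hN)
        _ ≤ τ * Mn a x := mul_le_mul_of_nonneg_left e3 hτ
    rw [e1]
    linarith
  have pos : ∀ a ∈ A, ∀ x, |L3 x| ≤ K → 0 < K3k M F B S1 S2 a x := fun a ha x hx =>
    lt_of_lt_of_le (mul_pos (Real.exp_pos _) (h.Npos ha)) (low26 h hc hd ha hx)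
  -- the main part is of rank one
  have rk : Mn a x * Mn a' x' ≤ (1 + ε) * (Mn a x' * Mn a' x) := by
    rw [hMn]
    show (∑ u ∈ S1.filter (fun u => u ∈ C), M a u * Q u x) * (∑ u ∈ S1.filter (fun u => u ∈ C), M a' u * Q u x') ≤
      (1 + ε) * ((∑ u ∈ S1.filter (fun u => u ∈ C), M a u * Q u x') * ∑ u ∈ S1.filter (fun u => u ∈ C), M a' u * Q u x)
    rw [sum_mul_sum, sum_mul_sum]
    have e1 : ∑ u ∈ S1.filter (fun u => u ∈ C), ∑ v ∈ S1.filter (fun u => u ∈ C), M a u * Q u x' * (M a' v * Q v x) =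
        ∑ u ∈ S1.filter (fun u => u ∈ C), ∑ v ∈ S1.filter (fun u => u ∈ C), M a v * Q v x' * (M a' u * Q u x) := sum_comm
    rw [e1, mul_sum]
    refine sum_le_sum fun u hu => ?_
    rw [mul_sum]
    refine sum_le_sum fun v hv => ?_
    rw [mem_filter] at hu hv
    have h5 := hr a ha a' ha' u hu.2 v hv.2
    have h6 := mul_nonneg (hQ0 u x) (hQ0 v x')
    have h7 := mul_le_mul_of_nonneg_right h5 h6
    calc M a u * Q u x * (M a' v * Q v x') = M a u * M a' v * (Q u x * Q v x') := by ring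
      _ ≤ (1 + ε) * (M a v * M a' u) * (Q u x * Q v x') := h7
      _ = _ := by ring
  have p1 := pos a ha x' hx'
  have p2 := pos a' ha' x hx
  have k1 := up a ha x hx
  have k2 := up a' ha' x' hx'
  unfold CR
  rw [div_le_iff₀ (mul_pos p1 p2)]
  have g1 : K3k M F B S1 S2 a x * K3k M F B S1 S2 a' x' ≤ (1 + τ) * Mn a x * ((1 + τ) * Mn a' x') :=
    mul_le_mul k1 k2 ((hM0 _ _).trans (hMK _ _)) (mul_nonneg (by linarith) (hM0 _ _))
  have g2 : Mn a x' * Mn a' x ≤ K3k M F B S1 S2 a x' * K3k M F B S1 S2 a' x := mul_le_mul (hMK _ _) (hMK _ _) (hM0 _ _) p1.le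
  calc K3k M F B S1 S2 a x * K3k M F B S1 S2 a' x' ≤ (1 + τ) * Mn a x * ((1 + τ) * Mn a' x') := g1
    _ = (1 + τ) ^ 2 * (Mn a x * Mn a' x') := by ring
    _ ≤ (1 + τ) ^ 2 * ((1 + ε) * (Mn a x' * Mn a' x)) := mul_le_mul_of_nonneg_left rk (by positivity)
    _ ≤ (1 + τ) ^ 2 * ((1 + ε) * (K3k M F B S1 S2 a x' * K3k M F B S1 S2 a' x)) :=
        mul_le_mul_of_nonneg_left (mul_le_mul_of_nonneg_left g2 (by linarith)) (by positivity)
    _ = _ := by ring

end own4

end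

end Pool.Agent.W_7d29a1_C1.B26
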