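import Pool.Agent.W_7d29a1_C1.BufJ26

/-!
MP_7d29a1_pr, [C1] **THE BUFFER BEHIND THE TWO LANES** (`BufIn`) (helper26). `buf26`.
-/

set_option autoImplicit false

namespace Pool.Agent.W_7d29a1_C1.B26

open MeasureTheory ProbabilityTheory Filter Topology Finset
open Pool.Agent.W_7d29a1_F Pool.Agent.W_7d29a1_h4g Pool.Agent.W_7d29a1_H Pool.Agent.W_7d29a1_HS
open Pool.Agent.W_7d29a1_C1
open Pool.Agent.W_7d29a1_C1.CR76 Pool.Agent.W_7d29a1_C1.Basin76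
open Pool.Agent.W_7d29a1_C1.R26 (RK26 RK26_dep measurableSet_RK26)
open Pool.Agent.W_7d29a1_C1.H75 (hc)
open Pool.Agent.W_7d29a1_C1.U16 (fq16 fq16_one fq16_mono lat16 Far16 far_low far_prob Far16_meas Far16_rows)

noncomputable section

variable {μ : Measure ℝ} {s c C : ℝ} {n₀ : ℕ}

/-- **THE BUFFER BEHIND THE TWO LANES.** -/
theorem buf26 [IsProbabilityMeasure μ] (h : In μ s c C n₀) (hR : RkP26 μ s) (hT : TslP26 μ s c) :
    ∃ ell : ℝ, 0 ≤ ell ∧ ∀ K0 del dd be g L Kw : ℝ, 0 ≤ K0 → 0 < del → 0 < dd → 0 ≤ be → be ≤ c / 8 → 0 ≤ g → 0 ≤ L → 0 ≤ Kw →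
    ∃ th K Kx ellw Kc Q1 c' p : ℝ, 0 < th ∧ 0 ≤ Kx ∧ Kx + 1 ≤ K ∧ Kw ≤ K ∧ 0 < Kc ∧ 0 < c' ∧ 0 < p ∧
    ∃ RM RF RB k₁ : ℕ, 1 ≤ RM ∧ RM ≤ RF ∧ 1 ≤ RB ∧ RB ≤ RF ∧ 1 ≤ k₁ ∧
    ∀ k : ℕ, k₁ ≤ k → ∀ u : Bool → ℤ, (∀ i, |(u i : ℝ)| ≤ K0 * wd μ s (RF * k)) →
      (u false : ℝ) + del * wd μ s (RF * k) ≤ u true →
      ∃ S : Set Env, MeasurableSet S ∧ OnR26 (rows 0 ((RM * k + (RF * k + RB * k) : ℕ) : ℤ)) S ∧ p ≤ (law μ).real S ∧
      ∀ η ∈ S, ∃ A : ℝ, Real.exp (L * EE μ s (RF * k)) ≤ A ∧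
        BufP26 μ s c η (RM * k) (RF * k) (RB * k) u th K Kx del A (Real.exp (-((RF * k : ℕ) : ℝ) ^ c')) (ell + 2 * dd) ellw Kc be g
          Q1 := by
  have hc0 := h.c0
  have hc1 := h.c1
  obtain ⟨P, A0, a0, gg, hA0, ha0, hgg, hgg1, nf, hnf, hfar⟩ := far_prob h (K := 3) (θ := 1) (by norm_num) one_pos le_rfl
  obtain ⟨q, hq0, hqp⟩ := level26 hA0 ha0 hgg (show (0 : ℝ) < 1 / 16 by norm_num)
  obtain ⟨nl, hlow⟩ := far_low h (K := 3) (θ := 1) le_rfl one_pos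
  obtain ⟨b₀, κ₀, hb₀, hκ₀, hEp⟩ := EE_pow h
  obtain ⟨qs, hqs⟩ : ∃ x : ℝ, x = q * fq16 P 2 := ⟨_, rfl⟩
  have hqs0 : 0 ≤ qs := by
    rw [hqs]
    exact mul_nonneg hq0 (by linarith [fq16_one P 2])
  obtain ⟨PT, hPT⟩ := hT
  refine ⟨4 * qs + 2, by linarith, fun K0 del dd be g L Kw hK0 hdel hdd hbe hbe8 hg hL hKw => ?_⟩
  -- the constants before the window
  obtain ⟨g', hg'⟩ : ∃ x : ℝ, x = g + qs + dd + 1 := ⟨_, rfl⟩
  have hg'0 : 0 ≤ g' := by rw [hg']; linarith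
  obtain ⟨X2, hX2⟩ : ∃ x : ℝ, x = 3 * qs + dd + 1 + be * (K0 + 1) + g' := ⟨_, rfl⟩
  have hX20 : 0 ≤ X2 := by
    rw [hX2]
    have := mul_nonneg hbe (show 0 ≤ K0 + 1 by linarith)
    linarith
  obtain ⟨hB, hhB⟩ : ∃ x : ℝ, x = 2 * be + 1 + 8 * X2 / del := ⟨_, rfl⟩
  have hXd : 0 ≤ 8 * X2 / del := by positivity
  have hB1 : 1 ≤ hB := by rw [hhB]; linarith
  have hB0 : 0 < hB := by linarith
  obtain ⟨j2, n2, hj2, hn2, hsc2⟩ := sc26 h (M := hB / c) (by positivity)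
  have hj2R : (1 : ℝ) ≤ j2 := by exact_mod_cast hj2
  obtain ⟨Kx, hKx⟩ : ∃ x : ℝ, x = 2 * (3 * qs + dd + 1 + hB * (K0 + 1) + g') / hB := ⟨_, rfl⟩
  have hKx0 : 0 ≤ Kx := by rw [hKx]; positivity
  obtain ⟨K, hK⟩ : ∃ x : ℝ, x = max Kw (Kx + 1) := ⟨_, rfl⟩
  have hKK1 : Kw ≤ K := by rw [hK]; exact le_max_left _ _
  have hKK2 : Kx + 1 ≤ K := by rw [hK]; exact le_max_right _ _
  have hKn : 0 ≤ K := by linarith
  obtain ⟨Kb, hKb⟩ : ∃ x : ℝ, x = (K + K0 + 1) * (2 * j2) + 3 := ⟨_, rfl⟩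
  have hKb3 : 3 ≤ Kb := by
    rw [hKb]
    have : 0 ≤ (K + K0 + 1) * (2 * j2) := by positivity
    linarith
  obtain ⟨Pw, Aw, aw, gw, hAw, haw, hgw, hgw1, nw, hnw, hfarw⟩ := far_prob h (K := Kb) (θ := 1) (by linarith) one_pos le_rfl
  obtain ⟨qw, hqw0, hqwp⟩ := level26 hAw haw hgw (show (0 : ℝ) < 1 / 16 by norm_num)
  obtain ⟨nlw, hloww⟩ := far_low h (K := Kb) (θ := 1) hKb3 one_pos
  obtain ⟨b, hb⟩ : ∃ x : ℝ, x = qw * fq16 Pw (K0 * (2 * j2) + 2) := ⟨_, rfl⟩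
  have hb0 : 0 ≤ b := by
    rw [hb]
    exact mul_nonneg hqw0 (by linarith [fq16_one Pw (K0 * (2 * j2) + 2)])
  obtain ⟨g0, hg0⟩ : ∃ x : ℝ, x = b + g' + 2 := ⟨_, rfl⟩
  obtain ⟨X1, hX1⟩ : ∃ x : ℝ, x = g0 + 3 * qs + 2 * dd + 1 + be * (K0 + 1) := ⟨_, rfl⟩
  have hX10 : 0 ≤ X1 := by
    rw [hX1, hg0]
    have := mul_nonneg hbe (show 0 ≤ K0 + 1 by linarith)
    linarith
  obtain ⟨hM, hhM⟩ : ∃ x : ℝ, x = c + 2 * X1 / del := ⟨_, rfl⟩
  have hXd1 : 0 ≤ 2 * X1 / del := by positivity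
  have hMc : c ≤ hM := by rw [hhM]; linarith
  have hM0 : 0 < hM := by linarith
  obtain ⟨j1, n1, hj1, hn1, hsc1⟩ := sc26 h (M := hM / c) (by positivity)
  have hj1R : (1 : ℝ) ≤ j1 := by exact_mod_cast hj1
  obtain ⟨dR, cR, hdR, hcR, nR, hRk⟩ := hR (1 / 16) 1 (by norm_num) zero_le_one
  obtain ⟨c', hc', nT, htol⟩ := tol26 j1 hj1 hb₀ hκ₀ hcR
  obtain ⟨th, hth⟩ : ∃ x : ℝ, x = min (min (dR / (4 * j1)) (1 / (4 * j1))) (min (min (del / 8) (1 / (2 * hB))) (min (1 / 2) (1 / (4 * j2)))) :=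
    ⟨_, rfl⟩
  have hth0 : 0 < th := by rw [hth]; positivity
  have t1 : th ≤ dR / (4 * j1) := by rw [hth]; exact (min_le_left _ _).trans (min_le_left _ _)
  have t2 : th ≤ 1 / (4 * j1) := by rw [hth]; exact (min_le_left _ _).trans (min_le_right _ _)
  have t3 : th ≤ del / 8 := by rw [hth]; exact (min_le_right _ _).trans ((min_le_left _ _).trans (min_le_left _ _))
  have t4 : th ≤ 1 / (2 * hB) := by rw [hth]; exact (min_le_right _ _).trans ((min_le_left _ _).trans (min_le_right _ _))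
  have t5 : th ≤ 1 / 2 := by rw [hth]; exact (min_le_right _ _).trans ((min_le_right _ _).trans (min_le_left _ _))
  have t6 : th ≤ 1 / (4 * j2) := by rw [hth]; exact (min_le_right _ _).trans ((min_le_right _ _).trans (min_le_right _ _))
  obtain ⟨κ, qF, hκ, hqF, hTK⟩ := hPT (K0 + 1) del dd th L (by linarith) hdel hdd hth0
  obtain ⟨MF, hMF, hMF'⟩ := fq_small26 PT (ε := c / (16 * (qF + 1))) (by positivity)
  obtain ⟨MB, hMB, hMB'⟩ := fq_small26 P (ε := c / (16 * (q + 1) * (2 * j2))) (by positivity)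
  obtain ⟨MM, hMM, hMM'⟩ := fq_small26 P (ε := c / (16 * (q + 1) * (2 * j1))) (by positivity)
  obtain ⟨QF, hQF⟩ : ∃ x : ℝ, x = c / 8 + qF * MF := ⟨_, rfl⟩
  obtain ⟨QB, hQB⟩ : ∃ x : ℝ, x = c / 8 + q * MB := ⟨_, rfl⟩
  obtain ⟨QM, hQM⟩ : ∃ x : ℝ, x = c / 8 + q * MM := ⟨_, rfl⟩
  have hQF0 : 0 ≤ QF := by rw [hQF]; positivity
  have hQB0 : 0 ≤ QB := by rw [hQB]; positivity
  have hQM0 : 0 ≤ QM := by rw [hQM]; positivity
  have kF : ∀ t : ℝ, 0 ≤ t → qF * fq16 PT (t + 2) ≤ QF + c / 16 * t := by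
    intro t ht
    have g1 := mul_le_mul_of_nonneg_left (hMF' (t + 2) (by linarith)) hqF
    have g2 : qF * (c / (16 * (qF + 1))) ≤ c / 16 := by
      rw [mul_div_assoc', div_le_div_iff₀ (by positivity) (by norm_num)]
      linarith
    have g3 := mul_le_mul_of_nonneg_right g2 (show 0 ≤ t + 2 by linarith)
    rw [hQF]
    linarith
  have kG : ∀ (M J : ℝ), 1 ≤ J → (∀ v : ℝ, 0 ≤ v → fq16 P v ≤ c / (16 * (q + 1) * J) * v + M) → ∀ t : ℝ, 0 ≤ t →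
      q * fq16 P (t * J + 2) ≤ c / 8 + q * M + c / 16 * t := by
    intro M J hJ hM' t ht
    have hJ0 : 0 < J := by linarith
    have htJ : 0 ≤ t * J := by positivity
    have g1 := mul_le_mul_of_nonneg_left (hM' (t * J + 2) (by linarith)) hq0
    have g2 : q * (c / (16 * (q + 1) * J)) * J ≤ c / 16 := by
      rw [mul_div_assoc', div_mul_eq_mul_div, div_le_div_iff₀ (by positivity) (by norm_num)]
      have : 0 ≤ c * J := by positivity
      linarith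
    have g3 := mul_le_mul_of_nonneg_right g2 ht
    have g4 : q * (c / (16 * (q + 1) * J)) ≤ q * (c / (16 * (q + 1) * J)) * J := by
      refine le_mul_of_one_le_right ?_ hJ
      positivity
    linarith
  have kB := kG MB (2 * j2) (by linarith) hMB'
  have kM := kG MM (2 * j1) (by linarith) hMM'
  rw [← hQB] at kB
  rw [← hQM] at kM
  obtain ⟨K3, hK3⟩ : ∃ x : ℝ, x = (K0 + 1) + 2 * (g0 + (2 * qs + QF + QB + (c / 16 + c / 16 + be) * (K0 + 1))) / hM := ⟨_, rfl⟩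
  obtain ⟨G, hG⟩ : ∃ x : ℝ, x = 2 * (g0 + (2 * qs + QF / 2 + QB + (c / 16 + c / 16 + be) * (K0 + 1))) := ⟨_, rfl⟩
  have hg00 : 0 ≤ g0 := by rw [hg0]; linarith
  have hG0 : 0 ≤ G := by rw [hG]; positivity
  have hK3K : K0 + 1 ≤ K3 := by
    rw [hK3]
    have : 0 ≤ 2 * (g0 + (2 * qs + QF + QB + (c / 16 + c / 16 + be) * (K0 + 1))) / hM := by positivity
    linarith
  obtain ⟨c₁, Q, n3, hc₁, hQ, hn3, hsl⟩ := hTK (K3 + 1) (by linarith) G hG0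
  obtain ⟨N1, hN1⟩ := th26 h hth0 (K0 + 1)
  obtain ⟨Q1, hQ1⟩ : ∃ x : ℝ, x = QM + QF + QB + 1 + c / 16 * (K0 + 1) := ⟨_, rfl⟩
  refine ⟨th, K, Kx, b + qs + dd, 1 / (4 * j2), Q1, c', 1 / 2 * (c₁ * (1 / 2)), hth0, hKx0, hKK2, hKK1, by positivity, hc',
    by positivity, Q * j2, Q * (j1 * j2), Q * j1,
    nf + nl + nw + nlw + n1 + n2 + nR + nT + n3 + N1 + 1, ?_, ?_, ?_, ?_, by omega, fun k hk u hu hsep => ?_⟩
  · exact Nat.mul_pos hQ hj2
  · exact Nat.mul_le_mul_left Q (Nat.le_mul_of_pos_left j2 hj1)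
  · exact Nat.mul_pos hQ hj1
  · exact Nat.mul_le_mul_left Q (Nat.le_mul_of_pos_right j1 hj2)
  -- the scales
  obtain ⟨nM, hnM⟩ : ∃ x : ℕ, x = Q * j2 * k := ⟨_, rfl⟩
  obtain ⟨nB, hnB⟩ : ∃ x : ℕ, x = Q * j1 * k := ⟨_, rfl⟩
  obtain ⟨T, hTT⟩ : ∃ x : ℕ, x = Q * (j1 * j2) * k := ⟨_, rfl⟩
  have eT1 : T = j1 * nM := by rw [hTT, hnM]; ring
  have eT2 : T = j2 * nB := by rw [hTT, hnB]; ring
  have eT3 : T = Q * (j1 * j2 * k) := by rw [hTT]; ring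
  have hkM : k ≤ nM := by rw [hnM]; exact Nat.le_mul_of_pos_left k (Nat.mul_pos hQ hj2)
  have hkB : k ≤ nB := by rw [hnB]; exact Nat.le_mul_of_pos_left k (Nat.mul_pos hQ hj1)
  have hMT : nM ≤ T := by rw [eT1]; exact Nat.le_mul_of_pos_left nM hj1
  have hBT : nB ≤ T := by rw [eT2]; exact Nat.le_mul_of_pos_left nB hj2
  have hks : k ≤ j1 * j2 * k := Nat.le_mul_of_pos_left k (Nat.mul_pos hj1 hj2)
  obtain ⟨r, hr1, hr2, hlan⟩ := hsl (j1 * j2 * k) (by omega)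
  rw [← eT3] at hr1 hr2 hlan
  rw [← hTT] at hu hsep
  rw [← hnM, ← hTT, ← hnB]
  clear hsl hTK hPT
  -- the numbers of the scale
  have thM := hN1 nM (by omega)
  have thB := hN1 nB (by omega)
  have thT := hN1 T (by omega)
  have hwM2 := thM.w2
  have hwB2 := thB.w2
  have hwT2 := thT.w2
  have hwM0 : 0 < wd μ s nM := by linarith
  have hwB0 : 0 < wd μ s nB := by linarith
  have hwT0 : 0 < wd μ s T := by linarith
  have hET := EE_pos (μ := μ) (s := s) T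
  obtain ⟨-, s1E, -, s1w, s1h⟩ := hsc1 j1 nM le_rfl (by omega)
  obtain ⟨-, s2E, -, s2w, s2h⟩ := hsc2 j2 nB le_rfl (by omega)
  rw [← eT1] at s1E s1w s1h
  rw [← eT2] at s2E s2w s2h
  have sM : hM * (wd μ s nM * EE μ s T) ≤ c * (EE μ s nM * wd μ s T) := by
    have e : hM * (wd μ s nM * EE μ s T) = c * (hM / c * (EE μ s T * wd μ s nM)) := by field_simp
    rw [e]
    exact mul_le_mul_of_nonneg_left s1h hc0.le
  have sB : hB * (wd μ s nB * EE μ s T) ≤ c * (EE μ s nB * wd μ s T) := by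
    have e : hB * (wd μ s nB * EE μ s T) = c * (hB / c * (EE μ s T * wd μ s nB)) := by field_simp
    rw [e]
    exact mul_le_mul_of_nonneg_left s2h hc0.le
  have hj10 : (0 : ℝ) < j1 := by linarith
  have hj20 : (0 : ℝ) < j2 := by linarith
  have tM2 : th * wd μ s T ≤ wd μ s nM / 2 := by
    have g1 := mul_le_mul_of_nonneg_left s1w hth0.le
    have g2 : th * (2 * j1) ≤ 1 / 2 := by
      rw [le_div_iff₀ (by positivity)] at t2
      linarith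
    have g3 := mul_le_mul_of_nonneg_right g2 hwM0.le
    linarith
  have tB2 : th * wd μ s T ≤ wd μ s nB / 2 := by
    have g1 := mul_le_mul_of_nonneg_left s2w hth0.le
    have g2 : th * (2 * j2) ≤ 1 / 2 := by
      rw [le_div_iff₀ (by positivity)] at t6
      linarith
    have g3 := mul_le_mul_of_nonneg_right g2 hwB0.le
    linarith
  have hr0 : 0 ≤ r := le_trans (by positivity) hr1
  have NN : BNum26 μ s c nM T nB P PT (2 * j2) q qF qs r ((K3 + 1) * wd μ s T) th L dd K0 (K0 + 1) K3 QF (c / 16) QB (c / 16) hM hB be :=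
    ⟨by linarith, by linarith, by linarith, thT.thw, hr0, hr2, by linarith, by linarith, s2w, by linarith, s1E, s2E, sM, sB,
      by linarith, by linarith, hq0, hqF, by rw [hqs], kF, kB, hL, hdd.le, hQF0, hQB0, by linarith, by linarith, hbe, hK0,
      by linarith, hM0.le, hB0.le, by linarith, by linarith, by linarith⟩
  -- the events
  have hF3 : ∀ (m : ℕ) (a z : ℤ), nf ≤ m → EvB26 μ a (a + m) (Far16 μ s c 1 3 m m P (a, z) q) (1 / 16) := fun m a z hm =>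
    ⟨Far16_meas _ _ _ _ _ _ _, fun η η' hh => Far16_rows hh, (hfar m hm m le_rfl (a, z) q hq0).trans hqp⟩
  have hFw : ∀ (m : ℕ) (a z : ℤ), nw ≤ m → EvB26 μ a (a + m) (Far16 μ s c 1 Kb m m Pw (a, z) qw) (1 / 16) := fun m a z hm =>
    ⟨Far16_meas _ _ _ _ _ _ _, fun η η' hh => Far16_rows hh, (hfarw m hm m le_rfl (a, z) qw hqw0).trans hqwp⟩
  have hfl0 : (0 : ℤ) ≤ ⌊th * wd μ s T⌋ := Int.floor_nonneg.2 (by positivity)
  have hflr : ((⌊th * wd μ s T⌋ : ℤ) : ℝ) ≤ th * wd μ s T := Int.floor_le _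
  have hcell : ∀ a : ℤ, (((a + ⌊th * wd μ s T⌋) - (a - ⌊th * wd μ s T⌋) : ℤ) : ℝ) ≤ dR * wd μ s nM := by
    intro a
    push_cast
    have g1 := mul_le_mul_of_nonneg_left s1w hth0.le
    have g2 : th * (4 * j1) ≤ dR := by
      rw [le_div_iff₀ (by positivity)] at t1
      linarith
    have g3 := mul_le_mul_of_nonneg_right g2 hwM0.le
    linarith
  have hRK : ∀ i : Bool, u i + ⌊th * wd μ s T⌋ ≤ cp26 (sl μ s) (u i) nM - ⌊th * wd μ s T⌋ ∧
      cp26 (sl μ s) (u i) nM + ⌊th * wd μ s T⌋ ≤ u i - ⌊th * wd μ s T⌋ + nM ∧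
      EvB26 μ 0 (0 + nM) (RK26 μ s 0 nM (u i - ⌊th * wd μ s T⌋) (u i + ⌊th * wd μ s T⌋) (cp26 (sl μ s) (u i) nM - ⌊th * wd μ s T⌋)
        (cp26 (sl μ s) (u i) nM + ⌊th * wd μ s T⌋) (Real.exp (-(nM : ℝ) ^ cR))) (1 / 16) := by
    intro i
    obtain ⟨g1, g2, g3⟩ := hRk nM (by omega) 0 (u i - ⌊th * wd μ s T⌋) (u i + ⌊th * wd μ s T⌋)
      (cp26 (sl μ s) (u i) nM - ⌊th * wd μ s T⌋) (cp26 (sl μ s) (u i) nM + ⌊th * wd μ s T⌋) (by omega) (by omega) (hcell _) (hcell _) (by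
        have e : cp26 (sl μ s) (u i) nM - ⌊th * wd μ s T⌋ - (u i - ⌊th * wd μ s T⌋) = cp26 (sl μ s) (u i) nM - u i := by ring
        rw [e]
        push_cast
        have := cp26_near (sl μ s) (u i) nM
        linarith)
    refine ⟨g1, g2, measurableSet_RK26 _ _ _ _ _ _ _, fun η η' hh => RK26_dep (fun p h1 h2 => hh p ⟨h1, by linarith⟩) _ _ _ _ _, ?_⟩
    exact ENNReal.toReal_le_of_le_ofReal (by norm_num) g3
  obtain ⟨S, hS1, hS2, hS3, hS4⟩ := evt26 (μ := μ) (s := s) (c := c) (nM := nM) (T := T) (nB := nB) (u := u) (r := r) (Kb := Kb) (b := b)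
    (th := th) (K0 := K0) (K3 := K3) (L := L) (G := G) (dd := dd) (K := K) (hlow nM (by omega)) (hlow nB (by omega)) (hloww nB (by omega))
    (fun z => hF3 nM 0 z (by omega)) (fun z => hF3 nB _ z (by omega)) (fun z => hFw nB _ z (by omega)) hRK hlan hc₁ hq0 hqw0 hqs.ge hwM2
    hwB2 hwT2 tM2 s1E s2E hr2 s2w hj2R hKn hK0 (by rw [hKb]; linarith) hb.ge (Real.exp_pos _).le hu hsep
  refine ⟨S, hS1, hS2, hS3, fun η hη => ?_⟩
  have HH := hS4 η hη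
  refine ⟨kW μ s η nM T (cp26 (sl μ s) (u false) nM) (cp26 (sl μ s) (u false) (nM + T)), HH.f1 false, ?_⟩
  have hth2 : hB * (2 * th) ≤ 1 := by
    rw [le_div_iff₀ (by positivity)] at t4
    linarith
  refine fin26 (g0 := g0) (g' := g') h HH NN hu thT hMT hBT s1w kM hQM0 hMc (by linarith) hsep hQ1.ge ?_ ?_ ?_ ?_ ?_
    (Real.exp_pos _).le ?_ hKx0
  · have g1 : hM * (del / 2) ≤ hM * (del - 2 * (2 * th)) := mul_le_mul_of_nonneg_left (by linarith) hM0.le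
    have g2 : X1 ≤ hM * (del / 2) := by
      rw [hhM]
      have e1 : (c + 2 * X1 / del) * (del / 2) = c * del / 2 + X1 := by field_simp
      rw [e1]
      have : 0 ≤ c * del / 2 := by positivity
      linarith
    rw [hX1] at g2
    linarith
  · rw [hG]
    linarith
  · rw [hK3]
    have e1 : hM / 2 * (K0 + 1 + 2 * (g0 + (2 * qs + QF + QB + (c / 16 + c / 16 + be) * (K0 + 1))) / hM - (K0 + 1)) =
      g0 + (2 * qs + QF + QB + (c / 16 + c / 16 + be) * (K0 + 1)) := by field_simp; ring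
    rw [e1]
  · refine ⟨by rw [hg0]; linarith, hg00, ?_, ?_, thT.RE, by linarith, by linarith, le_rfl, by rw [hg']⟩
    · have g1 : hB / 2 * Kx ≤ (hB - be) * Kx := mul_le_mul_of_nonneg_right (by rw [hhB]; linarith) hKx0
      have g2 : hB / 2 * Kx = 3 * qs + dd + 1 + hB * (K0 + 1) + g' := by
        rw [hKx]
        field_simp
      linarith
    · have g1 : hB / 2 * (del / 4) ≤ (hB - be) * (del / 4) := mul_le_mul_of_nonneg_right (by rw [hhB]; linarith) (by positivity)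
      have g2 : X2 ≤ hB / 2 * (del / 4) := by
        rw [hhB]
        have e1 : (2 * be + 1 + 8 * X2 / del) / 2 * (del / 4) = (2 * be + 1) * del / 8 + X2 := by field_simp; norm_num
        rw [e1]
        have : 0 ≤ (2 * be + 1) * del / 8 := by positivity
        linarith
      rw [hX2] at g2
      linarith
  · rw [hg0]
    linarith
  · have hT0 : T ≤ j1 * nM := le_of_eq eT1
    exact htol T (by omega) nM hT0 (EE μ s T) (hEp T thT.one)

end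

end Pool.Agent.W_7d29a1_C1.B26
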