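import Pool.Agent.W_7d29a1_C1.TunN20
import Pool.Agent.W_7d29a1_HS.Reg

/-!
MP_7d29a1_pr, [C1] THE BUFFER, numbers: the slope `EE / wd` of the scale `m` is much larger than the slope of the scale `b m`.
(helper26)
-/

set_option autoImplicit false

namespace Pool.Agent.W_7d29a1_C1.B26

open MeasureTheory ProbabilityTheory Filter Topology
open Pool.Agent.W_7d29a1_F Pool.Agent.W_7d29a1_h4g Pool.Agent.W_7d29a1_H Pool.Agent.W_7d29a1_HS
open Pool.Agent.W_7d29a1_C1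

noncomputable section

variable {μ : Measure ℝ} [IsProbabilityMeasure μ] {s c C : ℝ} {n₀ : ℕ}

/-- **The slopes.** -/
theorem hcg26 (h : In μ s c C n₀) (M : ℝ) : ∃ b₀ n₁ : ℕ, 1 ≤ b₀ ∧ 1 ≤ n₁ ∧ ∀ b m : ℕ, b₀ ≤ b → n₁ ≤ m →
    M * (EE μ s (b * m) * wd μ s m) ≤ EE μ s m * wd μ s (b * m) := by
  obtain ⟨a, K, ha, hK, hJ⟩ := J_reg h
  obtain ⟨β, n₂, hβ, hβ1, hn₂, hv⟩ := vr_vl h
  obtain ⟨x, hx⟩ : ∃ x : ℝ, x = (|M| / (a * β)) ^ (1 / a) := ⟨_, rfl⟩
  have hx0 : 0 ≤ x := by rw [hx]; positivity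
  have hxa : x ^ a = |M| / (a * β) := by
    rw [hx, ← Real.rpow_mul (by positivity), one_div, inv_mul_cancel₀ ha.ne', Real.rpow_one]
  obtain ⟨b₀, n₁, hb0, hn1, hsc⟩ := scal20 h (M := (x + 1) / β) (by positivity)
  obtain ⟨n₃, hn₃⟩ := eventually_atTop.1 (h.tv.eventually_le_const ha)
  refine ⟨b₀, max n₁ (max n₂ n₃), hb0, hn1.trans (le_max_left _ _), fun b m hb hm => ?_⟩
  have m1 : n₁ ≤ m := (le_max_left _ _).trans hm
  have m2 : n₂ ≤ m := (le_max_left _ _).trans ((le_max_right _ _).trans hm)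
  have m3 : n₃ ≤ m := (le_max_right _ _).trans ((le_max_right _ _).trans hm)
  have hm1 : 1 ≤ m := hn1.trans m1
  have hb1 : 1 ≤ b := hb0.trans hb
  have hbm : m ≤ b * m := Nat.le_mul_of_pos_left m hb1
  have hbm1 : 1 ≤ b * m := hm1.trans hbm
  have hm0 : (0 : ℝ) < m := by exact_mod_cast hm1
  have hbm0 : (0 : ℝ) < ((b * m : ℕ) : ℝ) := by exact_mod_cast hbm1
  obtain ⟨-, -, h3, h4⟩ := hsc b m hb m1
  have hEm := EE_pos (μ := μ) (s := s) m
  have hEb := EE_pos (μ := μ) (s := s) (b * m)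
  have p1 := h.vr_pos hm1
  have p2 := h.vr_pos hbm1
  have v1 := hv m m2
  have v2 := hv (b * m) (m2.trans hbm)
  have j1 := h.J_vr m
  have j2 := h.J_vr (b * m)
  have k1 := h.vr_le m
  have k2 := h.vr_le (b * m)
  -- the ratio of the cones
  have r1 : (x + 1) * vA 1 μ s (b * m) ≤ β * vA 1 μ s m := by
    unfold wd at h3
    have e1 : (x + 1) / β * (((b * m : ℕ) : ℝ) * vA 1 μ s (b * m)) = (((b : ℝ) * m) / β) * ((x + 1) * vA 1 μ s (b * m)) := by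
      push_cast
      ring
    have e2 : (b : ℝ) * (m * vA 1 μ s m) = (((b : ℝ) * m) / β) * (β * vA 1 μ s m) := by field_simp
    rw [e1, e2] at h3
    have hb0' : (0 : ℝ) < b := by exact_mod_cast hb1
    exact le_of_mul_le_mul_left h3 (by positivity)
  obtain ⟨R, hR⟩ : ∃ R : ℝ, R = vr 1 μ s m / vr 1 μ s (b * m) := ⟨_, rfl⟩
  have hRx : x + 1 ≤ R := by
    rw [hR, le_div_iff₀ p2]
    have := mul_le_mul_of_nonneg_left k2 (show 0 ≤ x + 1 by linarith)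
    linarith [v1.1]
  have hR1 : 1 ≤ R := by linarith
  have hR0 : 0 < R := by linarith
  have eR : R * vr 1 μ s (b * m) = vr 1 μ s m := by rw [hR]; field_simp
  have h5 := (hJ (vr 1 μ s (b * m)) R hR1 (by
    rw [eR, abs_of_pos p1]
    exact k1.trans (hn₃ m m3))).1
  rw [eR, j1, j2] at h5
  have h6 : R * (|M| / (a * β)) ≤ R ^ (1 + a) := by
    rw [Real.rpow_add hR0, Real.rpow_one, ← hxa]
    exact mul_le_mul_of_nonneg_left (Real.rpow_le_rpow hx0 (by linarith) ha.le) hR0.le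
  have h7 : a * (R * (|M| / (a * β))) * (EE μ s (b * m) / ((b * m : ℕ) : ℝ)) ≤ EE μ s m / m := by
    refine le_trans (mul_le_mul_of_nonneg_right (mul_le_mul_of_nonneg_left h6 ha.le) (by positivity)) h5
  have h8 : |M| / β * vr 1 μ s m * (EE μ s (b * m) / ((b * m : ℕ) : ℝ)) ≤ EE μ s m / m * vA 1 μ s (b * m) := by
    have e1 : |M| / β * vr 1 μ s m * (EE μ s (b * m) / ((b * m : ℕ) : ℝ)) =
        a * (R * (|M| / (a * β))) * (EE μ s (b * m) / ((b * m : ℕ) : ℝ)) * vr 1 μ s (b * m) := by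
      rw [← eR]
      field_simp
    rw [e1]
    exact (mul_le_mul_of_nonneg_right h7 p2.le).trans (mul_le_mul_of_nonneg_left k2 (by positivity))
  have h9 : |M| * vA 1 μ s m * (EE μ s (b * m) / ((b * m : ℕ) : ℝ)) ≤ EE μ s m / m * vA 1 μ s (b * m) := by
    refine le_trans (mul_le_mul_of_nonneg_right ?_ (by positivity)) h8
    have g1 := mul_le_mul_of_nonneg_left v1.1 (show 0 ≤ |M| / β by positivity)
    have e1 : |M| / β * (β * vA 1 μ s m) = |M| * vA 1 μ s m := by field_simp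
    rwa [e1] at g1
  have hv0 := h.vA_nonneg m
  have h10 : |M| * (EE μ s (b * m) * wd μ s m) ≤ EE μ s m * wd μ s (b * m) := by
    unfold wd
    have g1 := mul_le_mul_of_nonneg_left h9 (show 0 ≤ (m : ℝ) * ((b * m : ℕ) : ℝ) by positivity)
    have e1 : (m : ℝ) * ((b * m : ℕ) : ℝ) * (|M| * vA 1 μ s m * (EE μ s (b * m) / ((b * m : ℕ) : ℝ))) =
        |M| * (EE μ s (b * m) * (m * vA 1 μ s m)) := by field_simp
    have e2 : (m : ℝ) * ((b * m : ℕ) : ℝ) * (EE μ s m / m * vA 1 μ s (b * m)) =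
        EE μ s m * (((b * m : ℕ) : ℝ) * vA 1 μ s (b * m)) := by field_simp
    rwa [e1, e2] at g1
  have hwm := h.wd_nonneg m
  exact (mul_le_mul_of_nonneg_right (le_abs_self M) (by positivity)).trans h10

/-- **The two scales `m` and `b m`**: units, widths, slopes. -/
structure Sc26 (μ : Measure ℝ) (s : ℝ) (M : ℝ) (b m : ℕ) : Prop where
  E1 : M * EE μ s m ≤ EE μ s (b * m)
  E2 : EE μ s m ≤ EE μ s (b * m)
  w1 : M * wd μ s m ≤ wd μ s (b * m)
  w2 : wd μ s (b * m) ≤ 2 * b * wd μ s m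
  hs : M * (EE μ s (b * m) * wd μ s m) ≤ EE μ s m * wd μ s (b * m)

theorem sc26 (h : In μ s c C n₀) {M : ℝ} (hM : 0 ≤ M) : ∃ b₀ n₁ : ℕ, 1 ≤ b₀ ∧ 1 ≤ n₁ ∧ ∀ b m : ℕ, b₀ ≤ b → n₁ ≤ m → Sc26 μ s M b m := by
  obtain ⟨b₁, n₁, hb1, hn1, h1⟩ := hcg26 h M
  obtain ⟨b₂, n₂, hb2, hn2, h2⟩ := scal20 h hM
  refine ⟨max b₁ b₂, max n₁ n₂, hb1.trans (le_max_left _ _), hn1.trans (le_max_left _ _), fun b m hb hm => ?_⟩
  have k1 := h1 b m ((le_max_left _ _).trans hb) ((le_max_left _ _).trans hm)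
  obtain ⟨k2, k3, -, -⟩ := h2 b m ((le_max_right _ _).trans hb) ((le_max_right _ _).trans hm)
  have hm1 : 1 ≤ m := hn1.trans ((le_max_left _ _).trans hm)
  have hb1' : 1 ≤ b := hb1.trans ((le_max_left _ _).trans hb)
  have hbm : m ≤ b * m := Nat.le_mul_of_pos_left m hb1'
  refine ⟨k3, EE_mono hbm, k2, ?_, k1⟩
  have h3 := wd_lower_one h hm1 hbm
  have hm0 : (0 : ℝ) < m := by exact_mod_cast hm1
  have e1 : 2 * ((((b * m : ℕ) : ℝ)) * wd μ s m) = m * (2 * b * wd μ s m) := by push_cast; ring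
  rw [e1] at h3
  exact le_of_mul_le_mul_left h3 hm0

end

end Pool.Agent.W_7d29a1_C1.B26
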