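import Pool.Agent.W_7d29a1_C1.BufF26
import Pool.Agent.W_7d29a1_C1.BufN26
import Pool.Agent.W_7d29a1_C1.BufB26

/-!
MP_7d29a1_pr, [C1] THE BUFFER BEHIND THE TWO LANES, the kernels of the model (helper26). `BFct26`: the facts of the three blocks of rows
(`nM` typical rows, rank one on the two cells; `T` rows, two balanced lanes; `nB` typical rows); `bh26`: they give the data `BH26` of
each lane; `kW_three`: the kernel of the block is the composition.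
-/

set_option autoImplicit false

namespace Pool.Agent.W_7d29a1_C1.B26

open MeasureTheory ProbabilityTheory Filter Topology Finset
open Pool.Agent.W_7d29a1_F Pool.Agent.W_7d29a1_h4g Pool.Agent.W_7d29a1_H Pool.Agent.W_7d29a1_HS
open Pool.Agent.W_7d29a1_C1
open Pool.Agent.W_7d29a1_C1.CR76 Pool.Agent.W_7d29a1_C1.Basin76
open Pool.Agent.W_7d29a1_C1.H75 (hc)
open Pool.Agent.W_7d29a1_C1.U16 (fq16 fq16_one fq16_mono lat16)

noncomputable section

variable {μ : Measure ℝ} {s c C : ℝ} {n₀ : ℕ}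

/-- The lateral coordinate at the row `t`. -/
def lt26 (v w : ℝ) (t : ℕ) (x : ℤ) : ℝ := ((x : ℝ) - v * t) / w

theorem lt26_sub (v w : ℝ) (t n : ℕ) (x y : ℤ) : lt26 v w (t + n) y - lt26 v w t x = ((y : ℝ) - x - v * n) / w := by
  unfold lt26
  rw [← sub_div]
  congr 1
  push_cast
  ring

/-- The point of the line of `u` at the row `t`. -/
def cp26 (v : ℝ) (u : ℤ) (t : ℕ) : ℤ := u + ⌊v * t⌋

theorem cp26_near (v : ℝ) (u : ℤ) (t : ℕ) : |(cp26 v u t : ℝ) - u - v * t| ≤ 1 := by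
  unfold cp26
  have f1 := Int.floor_le (v * t)
  have f2 := Int.lt_floor_add_one (v * t)
  push_cast
  rw [abs_le]
  constructor <;> linarith

/-- **Composition of three blocks.** -/
theorem kW_three (η : Env) (r : ℤ) (n1 n2 n3 : ℕ) (x z : ℤ) (S : Finset ℤ) (hS : Icc x (x + (n1 + n2 : ℕ)) ⊆ S) :
    kW μ s η r (n1 + (n2 + n3)) x z = K3k (kW μ s η r n1) (kW μ s η (r + n1) n2) (kW μ s η (r + n1 + n2) n3) S S x z := by
  have sub1 : Icc x (x + (n1 : ℕ)) ⊆ S := subset_trans (Icc_subset_Icc le_rfl (by push_cast; omega)) hS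
  have h1 := kW_step26 (μ := μ) (s := s) η r n1 (n2 + n3) x z S sub1
    (fun y => ∑ v ∈ S, kW μ s η (r + n1) n2 y v * kW μ s η (r + n1 + n2) n3 v z) fun y hy => by
    rw [mem_Icc] at hy
    refine kW_step26 (μ := μ) (s := s) η (r + n1) n2 n3 y z S (subset_trans (Icc_subset_Icc hy.1 ?_) hS) _ fun v _ => rfl
    push_cast
    linarith [hy.2]
  rw [h1]
  unfold K3k
  refine sum_congr rfl fun y _ => ?_
  rw [mul_sum]
  exact sum_congr rfl fun v _ => by ring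

/-! ### Envelopes -/

theorem fq_le26 {P : ℕ} {x y : ℝ} (hx : 0 ≤ x) (hxy : x ≤ y) : fq16 P x ≤ fq16 P y :=
  fq16_mono (by rw [abs_of_nonneg hx, abs_of_nonneg (hx.trans hxy)]; exact hxy)

/-- The envelope of a block in the unit `E`, `w`. -/
theorem up_unit26 [IsProbabilityMeasure μ] {m N P n : ℕ} {r z : ℤ} {q h w E Y : ℝ} {η : Env} (hη : η ∈ UE26 μ s c m N P (r, z) q) (hn : n ≤ N)
    (hq : 0 ≤ q) (hw : 0 < w) (hwm : 0 < wd μ s m) (hE : EE μ s m ≤ E) (hh : h * (wd μ s m * E) ≤ c * (EE μ s m * w)) (x y : ℤ)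
    (hY : |(x : ℝ) - z| / wd μ s m + 1 ≤ Y) :
    kW μ s η r n x y ≤ Real.exp ((q * fq16 P Y - h * |((y : ℝ) - x - sl μ s * n) / w|) * E) := by
  have h1 := hη (r, x) n le_rfl (by show r + (n : ℤ) ≤ r + (N : ℤ); omega) (y - x)
  refine h1.trans (Real.exp_le_exp.2 ?_)
  have e1 : lat16 μ s (r, z) (r, x) = (x : ℝ) - z := by
    unfold lat16
    push_cast
    ring
  rw [e1]
  have hEm := EE_pos (μ := μ) (s := s) m
  have hE0 : 0 < E := lt_of_lt_of_le hEm hE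
  have t0 : 0 ≤ |(x : ℝ) - z| / wd μ s m + 1 := by positivity
  have f1 := fq16_one P (|(x : ℝ) - z| / wd μ s m + 1)
  have f2 := fq_le26 (P := P) t0 hY
  have g1 : q * fq16 P (|(x : ℝ) - z| / wd μ s m + 1) * EE μ s m ≤ q * fq16 P Y * E := by
    refine mul_le_mul (mul_le_mul_of_nonneg_left f2 hq) hE hEm.le ?_
    exact mul_nonneg hq (by linarith)
  have g2 : h * |((y : ℝ) - x - sl μ s * n) / w| * E ≤ hc μ s c m * |((y - x : ℤ) : ℝ) - sl μ s * n| := by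
    rw [abs_div, abs_of_pos hw]
    unfold hc
    push_cast
    have a0 := abs_nonneg ((y : ℝ) - x - sl μ s * n)
    rw [mul_div_assoc', div_mul_eq_mul_div, div_mul_eq_mul_div, div_le_div_iff₀ hw hwm]
    have := mul_le_mul_of_nonneg_left hh a0
    linarith
  rw [sub_mul]
  linarith

/-! ### The facts of the three blocks -/

/-- The facts of the three blocks of rows `0 .. nM`, `nM .. nM + T`, `nM + T .. nM + T + nB`; the two lanes are indexed by `Bool`, start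
points `u`. -/
structure BFct26 (μ : Measure ℝ) (s c : ℝ) (η : Env) (nM T nB : ℕ) (u : Bool → ℤ) (P PF : ℕ) (q qF qs ρ ωF th L G dd K b Kc ε : ℝ) :
    Prop where
  m0 : η ∈ UE26 μ s c nM nM P (0, 0) q
  m1 : ∀ i, η ∈ UE26 μ s c nM nM P (0, u i) q
  m2 : ∀ i (a : ℤ), |(a : ℝ) - u i| ≤ th * wd μ s T → Real.exp (-(qs * EE μ s T)) ≤ kW μ s η 0 nM a (cp26 (sl μ s) (u i) nM)
  m3 : ∀ i (a a' y y' : ℤ), |(a : ℝ) - u i| ≤ th * wd μ s T → |(a' : ℝ) - u i| ≤ th * wd μ s T →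
    |(y : ℝ) - cp26 (sl μ s) (u i) nM| ≤ ρ → |(y' : ℝ) - cp26 (sl μ s) (u i) nM| ≤ ρ →
    kW μ s η 0 nM a y * kW μ s η 0 nM a' y' ≤ (1 + ε) * (kW μ s η 0 nM a y' * kW μ s η 0 nM a' y)
  f1 : ∀ i, Real.exp (L * EE μ s T) ≤ kW μ s η nM T (cp26 (sl μ s) (u i) nM) (cp26 (sl μ s) (u i) (nM + T))
  f2 : ∀ x y : ℤ, |(x : ℝ) - cp26 (sl μ s) 0 nM| ≤ ωF →
    (∀ i, ¬ (|(x : ℝ) - cp26 (sl μ s) (u i) nM| ≤ ρ ∧ |(y : ℝ) - cp26 (sl μ s) (u i) (nM + T)| ≤ ρ)) →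
    kW μ s η nM T x y ≤ Real.exp (-(G * EE μ s T))
  f3 : ∀ i (x y : ℤ), |(x : ℝ) - cp26 (sl μ s) (u i) nM| ≤ ρ → |(y : ℝ) - cp26 (sl μ s) (u i) (nM + T)| ≤ ρ →
    kW μ s η nM T x y ≤ Real.exp (dd * EE μ s T) * kW μ s η nM T (cp26 (sl μ s) (u i) nM) (cp26 (sl μ s) (u i) (nM + T))
  f4 : |Real.log (kW μ s η nM T (cp26 (sl μ s) (u true) nM) (cp26 (sl μ s) (u true) (nM + T))) -
    Real.log (kW μ s η nM T (cp26 (sl μ s) (u false) nM) (cp26 (sl μ s) (u false) (nM + T)))| ≤ dd * EE μ s T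
  f5 : η ∈ UE26 μ s c T T PF (nM, cp26 (sl μ s) 0 nM) qF
  b0 : η ∈ UE26 μ s c nB nB P ((nM : ℤ) + T, cp26 (sl μ s) 0 (nM + T)) q
  b1 : ∀ i, η ∈ UE26 μ s c nB nB P ((nM : ℤ) + T, cp26 (sl μ s) (u i) (nM + T)) q
  b2 : ∀ i (x : ℤ), |lt26 (sl μ s) (wd μ s T) (nM + T + nB) x| ≤ K →
    Real.exp (-(b * EE μ s T)) ≤ kW μ s η ((nM : ℤ) + T) nB (cp26 (sl μ s) (u i) (nM + T)) x
  b3 : ∀ i (x : ℤ), |lt26 (sl μ s) (wd μ s T) (nM + T + nB) x - u i / wd μ s T| ≤ Kc →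
    Real.exp (-(qs * EE μ s T)) ≤ kW μ s η ((nM : ℤ) + T) nB (cp26 (sl μ s) (u i) (nM + T)) x

/-- The numbers. -/
structure BNum26 (μ : Measure ℝ) (s c : ℝ) (nM T nB : ℕ) (P PF : ℕ) (J q qF qs ρ ωF th L dd K0 K0' K3 QF kF QB kB hM hB be : ℝ) : Prop where
  w1 : 1 ≤ wd μ s T
  wM1 : 1 ≤ wd μ s nM
  wB1 : 1 ≤ wd μ s nB
  th1 : 1 ≤ th * wd μ s T
  ρ0 : 0 ≤ ρ
  ρ1 : ρ ≤ th * wd μ s T
  tM : th * wd μ s T ≤ wd μ s nM
  tB : th * wd μ s T ≤ wd μ s nB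
  wJ : wd μ s T ≤ J * wd μ s nB
  J0 : 0 ≤ J
  EM : EE μ s nM ≤ EE μ s T
  EB : EE μ s nB ≤ EE μ s T
  sM : hM * (wd μ s nM * EE μ s T) ≤ c * (EE μ s nM * wd μ s T)
  sB : hB * (wd μ s nB * EE μ s T) ≤ c * (EE μ s nB * wd μ s T)
  KK : K0 + 2 * th ≤ K0'
  K3ω : K3 * wd μ s T + 1 ≤ ωF
  q0 : 0 ≤ q
  qF0 : 0 ≤ qF
  qsq : q * fq16 P 2 ≤ qs
  QFk : ∀ t : ℝ, 0 ≤ t → qF * fq16 PF (t + 2) ≤ QF + kF * t
  QBk : ∀ t : ℝ, 0 ≤ t → q * fq16 P (t * J + 2) ≤ QB + kB * t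
  L0 : 0 ≤ L
  dd0 : 0 ≤ dd
  QF0 : 0 ≤ QF
  QB0 : 0 ≤ QB
  kF0 : 0 ≤ kF
  kB0 : 0 ≤ kB
  be0 : 0 ≤ be
  K00 : 0 ≤ K0
  K30 : 0 ≤ K3
  hM0 : 0 ≤ hM
  hB0 : 0 ≤ hB
  n1 : 2 * (kF + kB + be) ≤ hM
  n2 : 2 * (kB + be) ≤ c
  n3 : be ≤ hB

/-- The other lane. -/
theorem other26 {W : Bool → ℝ} {t : ℝ} (h : |W true - W false| ≤ t) (i : Bool) : W (!i) ≤ t + W i := by
  rw [abs_le] at h
  cases i
  · show W true ≤ t + W false
    linarith [h.2]
  · show W false ≤ t + W true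
    linarith [h.1]

/-- **The data of each lane.** -/
theorem bh26 [IsProbabilityMeasure μ] (h : In μ s c C n₀) {η : Env} {nM T nB : ℕ} {u : Bool → ℤ} {P PF : ℕ}
    {J q qF qs ρ ωF th L G dd K b Kc ε K0 K0' K3 QF kF QB kB hM hB be : ℝ}
    (H : BFct26 μ s c η nM T nB u P PF q qF qs ρ ωF th L G dd K b Kc ε)
    (N : BNum26 μ s c nM T nB P PF J q qF qs ρ ωF th L dd K0 K0' K3 QF kF QB kB hM hB be) (hu : ∀ i, |(u i : ℝ)| ≤ K0 * wd μ s T)
    (i : Bool) :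
    BH26 (kW μ s η 0 nM) (kW μ s η nM T) (kW μ s η ((nM : ℤ) + T) nB) (lt26 (sl μ s) (wd μ s T) 0) (lt26 (sl μ s) (wd μ s T) nM)
      (lt26 (sl μ s) (wd μ s T) (nM + T)) (lt26 (sl μ s) (wd μ s T) (nM + T + nB)) {a | |(a : ℝ) - u i| ≤ th * wd μ s T}
      {y | |(y : ℝ) - cp26 (sl μ s) (u i) nM| ≤ ρ} {y | |(y : ℝ) - cp26 (sl μ s) (u i) (nM + T)| ≤ ρ}
      {y | |(y : ℝ) - cp26 (sl μ s) (u (!i)) nM| ≤ ρ} {y | |(y : ℝ) - cp26 (sl μ s) (u (!i)) (nM + T)| ≤ ρ}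
      (cp26 (sl μ s) (u i) nM) (cp26 (sl μ s) (u i) (nM + T)) (u i / wd μ s T) (u (!i) / wd μ s T) K0' K3 K (EE μ s T) qs hM QF kF c G dd
      (kW μ s η nM T (cp26 (sl μ s) (u i) nM) (cp26 (sl μ s) (u i) (nM + T)))
      (kW μ s η nM T (cp26 (sl μ s) (u (!i)) nM) (cp26 (sl μ s) (u (!i)) (nM + T))) QB kB hB qs b (2 * th) be L := by
  have hw1 := N.w1
  have hw : 0 < wd μ s T := by linarith
  have hE := EE_pos (μ := μ) (s := s) T
  have hρ0 := N.ρ0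
  have hth : 0 < th := by
    by_contra hcon
    have := mul_nonpos_of_nonpos_of_nonneg (not_lt.1 hcon) hw.le
    linarith [N.th1]
  have hqs : 0 ≤ qs := by
    have f := fq16_one P 2
    exact (mul_nonneg N.q0 (by linarith)).trans N.qsq
  have hF0 : ∀ j : Bool, 0 < kW μ s η nM T (cp26 (sl μ s) (u j) nM) (cp26 (sl μ s) (u j) (nM + T)) := fun j =>
    lt_of_lt_of_le (Real.exp_pos _) (H.f1 j)
  have mem0 : ∀ x : ℤ, |(x : ℝ) - x| ≤ ρ := fun x => by rw [sub_self, abs_zero]; exact hρ0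
  -- the cells in the coordinates
  have cell : ∀ (j : Bool) (t : ℕ) (y : ℤ), |(y : ℝ) - cp26 (sl μ s) (u j) t| ≤ ρ →
      |lt26 (sl μ s) (wd μ s T) t y - u j / wd μ s T| ≤ 2 * th := by
    intro j t y hy
    unfold lt26
    rw [← sub_div, abs_div, abs_of_pos hw, div_le_iff₀ hw]
    have h1 := cp26_near (sl μ s) (u j) t
    have e : (y : ℝ) - sl μ s * t - u j = ((y : ℝ) - cp26 (sl μ s) (u j) t) + ((cp26 (sl μ s) (u j) t : ℝ) - u j - sl μ s * t) := by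
      ring
    rw [e]
    refine (abs_add_le _ _).trans ?_
    linarith [N.ρ1, N.th1]
  have lam : ∀ j : Bool, |(u j : ℝ) / wd μ s T| + 2 * th ≤ K0' := by
    intro j
    have h1 := hu j
    rw [abs_div, abs_of_pos hw]
    have h2 : |(u j : ℝ)| / wd μ s T ≤ K0 := by rw [div_le_iff₀ hw]; exact h1
    linarith [N.KK]
  have hK0' : 0 ≤ K0' := by
    have := lam i
    have := abs_nonneg ((u i : ℝ) / wd μ s T)
    linarith
  refine ⟨hE, fun a y => kW_nonneg η 0 nM a y, fun a y => kW_nonneg η nM T a y, fun a y => kW_nonneg η _ nB a y, mem0 _, mem0 _,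
    by linarith, fun a ha => ?_, fun y hy => cell i nM y hy, fun y hy => cell i (nM + T) y hy, fun y hy => cell (!i) nM y hy,
    fun y hy => cell (!i) (nM + T) y hy, lam i, lam (!i), fun a ha y => ?_, fun a ha => H.m2 i a ha, H.f1 i, le_rfl, ?_,
    fun y hy z hz => H.f3 i y z hy hz, fun y hy z hz => H.f3 (!i) y z hy hz, fun x y hx h1 h2 => ?_, fun x y => ?_, fun v x => ?_,
    fun v hv x => ?_, fun x hx => H.b2 i x hx, N.L0, ⟨hqs, hqs, N.QB0, N.QF0, N.dd0, N.hM0, h.c0.le, N.hB0, N.kF0, N.kB0, N.be0, hK0',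
    N.K30⟩, N.n1, N.n2, N.n3⟩
  · -- A1
    have ha' : |(a : ℝ) - u i| ≤ th * wd μ s T := ha
    unfold lt26
    rw [Nat.cast_zero, mul_zero, sub_zero, ← sub_div, abs_div, abs_of_pos hw, div_le_iff₀ hw]
    linarith [N.th1]
  · -- Mup
    have ha' : |(a : ℝ) - u i| ≤ th * wd μ s T := ha
    have h1 := up_unit26 (H.m1 i) le_rfl N.q0 hw (by linarith [N.wM1]) N.EM N.sM a y (Y := 2) (by
      have : |(a : ℝ) - u i| / wd μ s nM ≤ 1 := by
        rw [div_le_one (by linarith [N.wM1])]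
        exact ha'.trans N.tM
      linarith)
    have e1 := lt26_sub (sl μ s) (wd μ s T) 0 nM a y
    rw [zero_add] at e1
    rw [← e1] at h1
    refine h1.trans (Real.exp_le_exp.2 (mul_le_mul_of_nonneg_right ?_ hE.le))
    linarith [N.qsq]
  · -- WW
    have h1 := other26 (W := fun j => Real.log (kW μ s η nM T (cp26 (sl μ s) (u j) nM) (cp26 (sl μ s) (u j) (nM + T)))) H.f4 i
    have h2 := Real.exp_le_exp.2 h1
    rw [Real.exp_add, Real.exp_log (hF0 _), Real.exp_log (hF0 _)] at h2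
    exact h2
  · -- Fo
    refine H.f2 x y ?_ fun j => ?_
    · unfold lt26 at hx
      rw [abs_div, abs_of_pos hw, div_le_iff₀ hw] at hx
      have h3 := cp26_near (sl μ s) 0 nM
      have e : (x : ℝ) - cp26 (sl μ s) 0 nM = ((x : ℝ) - sl μ s * nM) - ((cp26 (sl μ s) 0 nM : ℝ) - (0 : ℤ) - sl μ s * nM) := by
        push_cast
        ring
      rw [e]
      refine (abs_sub _ _).trans ?_
      linarith [N.K3ω]
    · rcases Bool.eq_or_eq_not j i with hj | hj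
      · rw [hj]
        exact h1
      · rw [hj]
        exact h2
  · -- Fup
    have h3 := cp26_near (sl μ s) 0 nM
    have h1 := up_unit26 H.f5 le_rfl N.qF0 hw hw le_rfl (h := c) (le_of_eq (by ring)) x y
      (Y := |lt26 (sl μ s) (wd μ s T) nM x| + 2) (by
      have e : (x : ℝ) - cp26 (sl μ s) 0 nM = ((x : ℝ) - sl μ s * nM) - ((cp26 (sl μ s) 0 nM : ℝ) - (0 : ℤ) - sl μ s * nM) := by
        push_cast
        ring
      have h4 : |(x : ℝ) - cp26 (sl μ s) 0 nM| ≤ |(x : ℝ) - sl μ s * nM| + 1 := by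
        rw [e]
        exact (abs_sub _ _).trans (by linarith)
      have h5 : |(x : ℝ) - cp26 (sl μ s) 0 nM| / wd μ s T ≤ |lt26 (sl μ s) (wd μ s T) nM x| + 1 := by
        unfold lt26
        rw [abs_div, abs_of_pos hw, div_le_iff₀ hw]
        have e2 : (|(x : ℝ) - sl μ s * nM| / wd μ s T + 1) * wd μ s T = |(x : ℝ) - sl μ s * nM| + wd μ s T := by field_simp
        rw [e2]
        linarith
      linarith)
    rw [← lt26_sub (sl μ s) (wd μ s T) nM T x y] at h1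
    refine h1.trans (Real.exp_le_exp.2 (mul_le_mul_of_nonneg_right ?_ hE.le))
    linarith [N.QFk _ (abs_nonneg (lt26 (sl μ s) (wd μ s T) nM x))]
  · -- Bup
    have h3 := cp26_near (sl μ s) 0 (nM + T)
    have hwB : 0 < wd μ s nB := by linarith [N.wB1]
    have h1 := up_unit26 H.b0 le_rfl N.q0 hw hwB N.EB N.sB v x
      (Y := |lt26 (sl μ s) (wd μ s T) (nM + T) v| * J + 2) (by
      have e : (v : ℝ) - cp26 (sl μ s) 0 (nM + T) = ((v : ℝ) - sl μ s * (nM + T : ℕ)) -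
          ((cp26 (sl μ s) 0 (nM + T) : ℝ) - (0 : ℤ) - sl μ s * (nM + T : ℕ)) := by
        push_cast
        ring
      have h4 : |(v : ℝ) - cp26 (sl μ s) 0 (nM + T)| ≤ |(v : ℝ) - sl μ s * (nM + T : ℕ)| + 1 := by
        rw [e]
        exact (abs_sub _ _).trans (by linarith)
      have h5 : |(v : ℝ) - cp26 (sl μ s) 0 (nM + T)| / wd μ s nB ≤ |lt26 (sl μ s) (wd μ s T) (nM + T) v| * J + 1 := by
        rw [div_le_iff₀ hwB]
        have h6 : |(v : ℝ) - sl μ s * (nM + T : ℕ)| = |lt26 (sl μ s) (wd μ s T) (nM + T) v| * wd μ s T := by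
          unfold lt26
          rw [abs_div, abs_of_pos hw]
          field_simp
        have h7 := mul_le_mul_of_nonneg_left N.wJ (abs_nonneg (lt26 (sl μ s) (wd μ s T) (nM + T) v))
        rw [h6] at h4
        have h8 := N.wB1
        nlinarith
      linarith)
    rw [← lt26_sub (sl μ s) (wd μ s T) (nM + T) nB v x] at h1
    refine h1.trans (Real.exp_le_exp.2 (mul_le_mul_of_nonneg_right ?_ hE.le))
    linarith [N.QBk _ (abs_nonneg (lt26 (sl μ s) (wd μ s T) (nM + T) v))]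
  · -- Bnr
    have hwB : 0 < wd μ s nB := by linarith [N.wB1]
    obtain ⟨j, hj⟩ : ∃ j : Bool, |(v : ℝ) - cp26 (sl μ s) (u j) (nM + T)| ≤ ρ := by
      rcases hv with hv | hv
      · exact ⟨i, hv⟩
      · exact ⟨!i, hv⟩
    have h1 := up_unit26 (H.b1 j) le_rfl N.q0 hw hwB N.EB N.sB v x (Y := 2) (by
      have : |(v : ℝ) - cp26 (sl μ s) (u j) (nM + T)| / wd μ s nB ≤ 1 := by
        rw [div_le_one hwB]
        exact hj.trans (N.ρ1.trans N.tB)
      linarith)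
    rw [← lt26_sub (sl μ s) (wd μ s T) (nM + T) nB v x] at h1
    refine h1.trans (Real.exp_le_exp.2 (mul_le_mul_of_nonneg_right ?_ hE.le))
    linarith [N.qsq]

end

end Pool.Agent.W_7d29a1_C1.B26
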