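import Pool.Agent.W_7d29a1_C1.BufG26

/-!
MP_7d29a1_pr, [C1] THE BUFFER BEHIND THE TWO LANES: from the facts of the three blocks of rows to the output, deterministic, kernels of
the model (helper26).
-/

set_option autoImplicit false

namespace Pool.Agent.W_7d29a1_C1.B26

open MeasureTheory ProbabilityTheory Filter Topology Finset
open Pool.Agent.W_7d29a1_F Pool.Agent.W_7d29a1_h4g Pool.Agent.W_7d29a1_H Pool.Agent.W_7d29a1_HS
open Pool.Agent.W_7d29a1_C1
open Pool.Agent.W_7d29a1_C1.CR76 Pool.Agent.W_7d29a1_C1.Basin76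
open Pool.Agent.W_7d29a1_C1.H75 (hc)
open Pool.Agent.W_7d29a1_C1.U16 (fq16 fq16_one fq16_mono lat16)

noncomputable section

variable {μ : Measure ℝ} {s c C : ℝ} {n₀ : ℕ}

theorem lt26_mono {v w : ℝ} (hw : 0 < w) (t : ℕ) {x y : ℤ} (hxy : x ≤ y) : lt26 v w t x ≤ lt26 v w t y := by
  unfold lt26
  have : (x : ℝ) ≤ y := by exact_mod_cast hxy
  exact div_le_div_of_nonneg_right (by linarith) hw.le

/-- **The output of the buffer, for the kernels of the model.** -/
theorem det26 [IsProbabilityMeasure μ] (h : In μ s c C n₀) {η : Env} {nM T nB : ℕ} {u : Bool → ℤ} {P PF : ℕ}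
    {J q qF qs ρ ωF th L G dd K b Kc ε K0 K0' K3 QF kF QB kB hM hB be : ℝ}
    (H : BFct26 μ s c η nM T nB u P PF q qF qs ρ ωF th L G dd K b Kc ε)
    (N : BNum26 μ s c nM T nB P PF J q qF qs ρ ωF th L dd K0 K0' K3 QF kF QB kB hM hB be) (hu : ∀ i, |(u i : ℝ)| ≤ K0 * wd μ s T)
    {del g0 g' Kx ell ell0 g R δ : ℝ} (hdel : (u false : ℝ) + del * wd μ s T ≤ u true) (hT1 : 1 ≤ T) (hX : K0' * wd μ s T ≤ T)
    (hnM : nM ≤ T) (hnB : nB ≤ T) (hR : (6 * (T : ℝ)) ^ 3 ≤ R)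
    (hg1 : g0 + (2 * qs + 2 * dd + qs + hB * (2 * th) + be * K0') ≤ hM * (del - 2 * (2 * th)))
    (hg2 : g0 + (2 * qs + QF / 2 + QB + (kF + kB + be) * K0') ≤ G / 2)
    (hg3 : g0 + (2 * qs + QF + QB + (kF + kB + be) * K0') ≤ hM / 2 * (K3 - K0'))
    (hn : On26 K0' (EE μ s T) qs dd qs hB (2 * th) be b qs Kx (del / 4) R g0 g' ell ell0 g) (hbg : b + 2 ≤ g0) (hε : 0 ≤ ε)
    (hδ : (1 + Real.exp (-EE μ s T)) ^ 2 * (1 + ε) ≤ 1 + δ) {a1 b1 a2 b2 xa xb s0 : ℤ} (ha1 : a1 ≤ b1) (ha2 : a2 ≤ b2)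
    (hc1 : ∀ y : ℤ, a1 ≤ y → y ≤ b1 → |(y : ℝ) - u false| ≤ th * wd μ s T)
    (hc2 : ∀ y : ℤ, a2 ≤ y → y ≤ b2 → |(y : ℝ) - u true| ≤ th * wd μ s T) (hKx : 0 ≤ Kx)
    (hxa1 : -K ≤ lt26 (sl μ s) (wd μ s T) (nM + T + nB) xa) (hxa2 : lt26 (sl μ s) (wd μ s T) (nM + T + nB) xa ≤ -Kx)
    (hxb1 : lt26 (sl μ s) (wd μ s T) (nM + T + nB) xb ≤ K) (hxb2 : Kx ≤ lt26 (sl μ s) (wd μ s T) (nM + T + nB) xb) (hxx : xa ≤ xb)
    (hs1 : u false / wd μ s T + del / 4 ≤ lt26 (sl μ s) (wd μ s T) (nM + T + nB) s0)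
    (hs2 : lt26 (sl μ s) (wd μ s T) (nM + T + nB) s0 + del / 4 ≤ u true / wd μ s T) :
    BufO26 (kW μ s η 0 (nM + (T + nB))) (lt26 (sl μ s) (wd μ s T) (nM + T + nB)) (EE μ s T) (u false / wd μ s T) (u true / wd μ s T)
      a1 b1 a2 b2 xa xb s0 (kW μ s η nM T (cp26 (sl μ s) (u false) nM) (cp26 (sl μ s) (u false) (nM + T))) δ ell ell0 Kc be g := by
  have hw : 0 < wd μ s T := by linarith [N.w1]
  have hE := EE_pos (μ := μ) (s := s) T
  have hTr : (1 : ℝ) ≤ T := by exact_mod_cast hT1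
  obtain ⟨S, hS⟩ : ∃ S : Finset ℤ, S = Icc (-(T : ℤ)) (T + (nM + T : ℕ)) := ⟨_, rfl⟩
  obtain ⟨S3, hS3⟩ : ∃ S : Finset ℤ, S = Icc (-(T : ℤ)) (T + (nM + (T + nB) : ℕ)) := ⟨_, rfl⟩
  have cS : (S.card : ℝ) ≤ 6 * T := by
    rw [hS, Int.card_Icc]
    have e : ((T : ℤ) + (nM + T : ℕ) + 1 - -(T : ℤ)).toNat = 2 * T + (nM + T) + 1 := by
      push_cast
      omega
    rw [e]
    have : 2 * T + (nM + T) + 1 ≤ 6 * T := by omega
    exact_mod_cast this
  have cS3 : (S3.card : ℝ) ≤ 6 * T := by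
    rw [hS3, Int.card_Icc]
    have e : ((T : ℤ) + (nM + (T + nB) : ℕ) + 1 - -(T : ℤ)).toNat = 2 * T + (nM + (T + nB)) + 1 := by
      push_cast
      omega
    rw [e]
    have : 2 * T + (nM + (T + nB)) + 1 ≤ 6 * T := by omega
    exact_mod_cast this
  have hR2 : (S.card * S.card : ℝ) ≤ (6 * (T : ℝ)) ^ 2 := by
    rw [pow_two]
    exact mul_le_mul cS cS (Nat.cast_nonneg _) (by positivity)
  have hR3 : (S3.card : ℝ) * (S.card * S.card : ℝ) ≤ R := by
    refine le_trans ?_ hR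
    have e : (6 * (T : ℝ)) ^ 3 = (6 * T) * (6 * (T : ℝ)) ^ 2 := by ring
    rw [e]
    exact mul_le_mul cS3 hR2 (by positivity) (by positivity)
  have hR1 : (S.card * S.card : ℝ) ≤ R := by
    refine hR2.trans (le_trans ?_ hR)
    exact pow_le_pow_right₀ (by linarith) (by norm_num)
  -- the cells are in `[-T, T]`
  have hcell : ∀ (j : Bool) (y : ℤ), |(y : ℝ) - u j| ≤ th * wd μ s T → -(T : ℤ) ≤ y ∧ y ≤ T := by
    intro j y hy
    have h1 := hu j
    have h2 := mul_le_mul_of_nonneg_right N.KK hw.le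
    have hth : 0 ≤ th * wd μ s T := by linarith [N.th1]
    rw [abs_le] at hy h1
    have h3 : -(T : ℝ) ≤ y := by nlinarith
    have h4 : (y : ℝ) ≤ T := by nlinarith
    exact ⟨by exact_mod_cast h3, by exact_mod_cast h4⟩
  have comp : ∀ (j : Bool) (y : ℤ), |(y : ℝ) - u j| ≤ th * wd μ s T → ∀ x : ℤ,
      kW μ s η 0 (nM + (T + nB)) y x = K3k (kW μ s η 0 nM) (kW μ s η nM T) (kW μ s η ((nM : ℤ) + T) nB) S S y x := by
    intro j y hy x
    obtain ⟨h1, h2⟩ := hcell j y hy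
    have h3 := kW_three (μ := μ) (s := s) η 0 nM T nB y x S (by
      rw [hS]
      exact Icc_subset_Icc h1 (by linarith))
    rw [zero_add] at h3
    exact h3
  have supp : ∀ (j : Bool) (y : ℤ), |(y : ℝ) - u j| ≤ th * wd μ s T → ∀ x : ℤ, x ∉ S3 →
      K3k (kW μ s η 0 nM) (kW μ s η nM T) (kW μ s η ((nM : ℤ) + T) nB) S S y x = 0 := by
    intro j y hy x hx
    obtain ⟨h1, h2⟩ := hcell j y hy
    rw [← comp j y hy x]
    refine kW_zero (μ := μ) (s := s) η 0 fun hcon => hx ?_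
    rw [hS3, mem_Icc]
    exact ⟨by linarith [hcon.1], by linarith [hcon.2]⟩
  -- the points of the lanes are in `S`
  have hpt : ∀ (j : Bool), cp26 (sl μ s) (u j) nM ∈ S ∧ cp26 (sl μ s) (u j) (nM + T) ∈ S := by
    intro j
    have h1 := hcell j (u j) (by rw [sub_self, abs_zero]; linarith [N.th1])
    have s0 := h.sl_pos
    have s1 := h.sl_lt
    have fl : ∀ t : ℕ, 0 ≤ ⌊sl μ s * t⌋ ∧ ⌊sl μ s * t⌋ ≤ t := by
      intro t
      refine ⟨Int.floor_nonneg.2 (by positivity), ?_⟩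
      have h2 : ⌊sl μ s * t⌋ ≤ ⌊((t : ℤ) : ℝ)⌋ := by
        refine Int.floor_le_floor ?_
        have ht : (0 : ℝ) ≤ t := Nat.cast_nonneg t
        push_cast
        nlinarith
      rwa [Int.floor_intCast] at h2
    obtain ⟨f1, f2⟩ := fl nM
    obtain ⟨f3, f4⟩ := fl (nM + T)
    unfold cp26
    rw [hS, mem_Icc, mem_Icc]
    push_cast at f1 f2 f3 f4 ⊢
    exact ⟨⟨by linarith, by linarith⟩, ⟨by linarith, by linarith⟩⟩
  have D1 := bh26 h H N hu false
  have D2 := bh26 h H N hu true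
  simp only [Bool.not_false, Bool.not_true] at D1 D2
  have hlam : del ≤ (u true : ℝ) / wd μ s T - u false / wd μ s T := by
    rw [← sub_div, le_div_iff₀ hw]
    linarith
  have hdd := N.dd0
  have gp : ∀ l l' : ℝ, del ≤ |l' - l| → Gp26 l l' K0' K3 qs hM QF kF G dd QB kB hB qs (2 * th) be g0 := by
    intro l l' hl
    refine ⟨hg1.trans (mul_le_mul_of_nonneg_left (by linarith) N.hM0), hg2, hg3⟩
  have gp1 := gp (u false / wd μ s T) (u true / wd μ s T) (hlam.trans (le_abs_self _))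
  have gp2 := gp (u true / wd μ s T) (u false / wd μ s T) (by
    rw [abs_sub_comm]
    exact hlam.trans (le_abs_self _))
  have out := out26 (S1 := S) (S2 := S) (S3 := S3) (a1 := a1) (b1 := b1) (a2 := a2) (b2 := b2) (xa := xa) (xb := xb) (s0 := s0)
    D1 D2 hn gp1 gp2 (hpt false).1 (hpt false).2 (hpt true).1 (hpt true).2 (fun y g1 g2 => hc1 y g1 g2) (fun y g1 g2 => hc2 y g1 g2)
    ha1 ha2 hxx (fun x g1 g2 => by
      rw [abs_le]
      exact ⟨hxa1.trans (lt26_mono hw _ g1), (lt26_mono hw _ g2).trans hxb1⟩)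
    (fun x g1 => by
      have := (lt26_mono (v := sl μ s) hw (nM + T + nB) g1.le).trans hxa2
      rw [abs_of_nonpos (by linarith)]
      linarith)
    (fun x g1 => by
      have := hxb2.trans (lt26_mono (v := sl μ s) hw (nM + T + nB) g1.le)
      exact this.trans (le_abs_self _))
    (fun x g1 => by
      have := hs1.trans (lt26_mono (v := sl μ s) hw (nM + T + nB) g1.le)
      refine le_trans ?_ (le_abs_self _)
      linarith)
    (fun x g1 => by
      have := lt26_mono (v := sl μ s) hw (nM + T + nB) g1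
      rw [abs_sub_comm]
      refine le_trans ?_ (le_abs_self _)
      linarith)
    (fun y hy x hx => supp false y hy x hx) (fun y hy x hx => supp true y hy x hx) hR1 hR3 (fun x hx => H.b3 false x hx)
    (fun x hx => H.b3 true x hx) hε (Real.exp_pos (-EE μ s T)).le
    (fun a ha a' ha' y hy y' hy' => H.m3 false a a' y y' ha ha' hy hy') (fun a ha a' ha' y hy y' hy' => H.m3 true a a' y y' ha ha' hy hy')
    (by
      have g1 : R ≤ Real.exp (EE μ s T) := by
        have := hn.RE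
        have : 0 ≤ R := le_trans (by positivity) hR1
        linarith
      calc (S.card * S.card : ℝ) * Real.exp ((b - g0) * EE μ s T) ≤ Real.exp (EE μ s T) * Real.exp ((b - g0) * EE μ s T) :=
            mul_le_mul_of_nonneg_right (hR1.trans g1) (Real.exp_pos _).le
        _ = Real.exp ((1 + b - g0) * EE μ s T) := by
            rw [← Real.exp_add]
            congr 1
            ring
        _ ≤ _ := by
            refine Real.exp_le_exp.2 ?_
            have := mul_le_mul_of_nonneg_right hbg hE.le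
            linarith) hδ
  exact out.congr ha1 ha2 fun y hy x => by
    rcases hy with hy | hy
    · exact comp false y (hc1 y hy.1 hy.2) x
    · exact comp true y (hc2 y hy.1 hy.2) x

end

end Pool.Agent.W_7d29a1_C1.B26
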