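import Pool.Agent.W_7d29a1_C1.BufH26

/-!
MP_7d29a1_pr, [C1] THE BUFFER BEHIND THE TWO LANES, probability (helper26). Inputs as Props (to keep the import graph short): `RkP26` =
`R26.rank_one26`, `TslP26` = `tslabV20` of helper20 for two balanced lanes. Fed in `BufZ26`.
-/

set_option autoImplicit false

namespace Pool.Agent.W_7d29a1_C1.B26

open MeasureTheory ProbabilityTheory Filter Topology Finset
open Pool.Agent.W_7d29a1_F Pool.Agent.W_7d29a1_h4g Pool.Agent.W_7d29a1_H Pool.Agent.W_7d29a1_HS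
open Pool.Agent.W_7d29a1_C1
open Pool.Agent.W_7d29a1_C1.CR76 Pool.Agent.W_7d29a1_C1.Basin76
open Pool.Agent.W_7d29a1_C1.R26 (RK26 RK26_dep measurableSet_RK26)
open Pool.Agent.W_7d29a1_C1.H75 (hc)
open Pool.Agent.W_7d29a1_C1.U16 (fq16 fq16_one fq16_mono lat16 Far16 far_low far_prob Far16_meas Far16_rows)

noncomputable section

variable {μ : Measure ℝ} {s c C : ℝ} {n₀ : ℕ}

/-- The tolerance of rank one. -/
theorem tol26 {b₀ κ₀ c₁ : ℝ} (J : ℕ) (hJ : 1 ≤ J) (hb : 0 < b₀) (hκ : 0 < κ₀) (hc : 0 < c₁) : ∃ c' : ℝ, 0 < c' ∧ ∃ n₁ : ℕ, ∀ n : ℕ, n₁ ≤ n →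
    ∀ T : ℕ, n ≤ J * T →
    ∀ E : ℝ, κ₀ * (n : ℝ) ^ b₀ ≤ E → (1 + Real.exp (-E)) ^ 2 * (1 + Real.exp (-(T : ℝ) ^ c₁)) ≤ 1 + Real.exp (-(n : ℝ) ^ c') := by
  obtain ⟨c', hc'⟩ : ∃ c' : ℝ, c' = min b₀ c₁ / 2 := ⟨_, rfl⟩
  have hc0 : 0 < c' := by rw [hc']; positivity
  have hcb : 0 < b₀ - c' := by
    have := min_le_left b₀ c₁
    have := lt_min hb hc
    rw [hc']
    linarith
  have hJ0 : (0 : ℝ) < J := by exact_mod_cast hJ
  have hcc : 0 < c₁ - c' := by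
    have := min_le_right b₀ c₁
    have := lt_min hb hc
    rw [hc']
    linarith
  obtain ⟨n1, h1⟩ := eventually_atTop.1 (((tendsto_rpow_atTop hcb).comp tendsto_natCast_atTop_atTop).eventually_ge_atTop (2 / κ₀))
  obtain ⟨n2, h2⟩ := eventually_atTop.1 (((tendsto_rpow_atTop hcc).comp tendsto_natCast_atTop_atTop).eventually_ge_atTop (2 * (J : ℝ) ^ c₁))
  obtain ⟨n3, h3⟩ := eventually_atTop.1 (((tendsto_rpow_atTop hc0).comp tendsto_natCast_atTop_atTop).eventually_ge_atTop 3)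
  refine ⟨c', hc0, max (max n1 n2) (max n3 1), fun n hn T hT E hE => ?_⟩
  have k1 : n1 ≤ n := ((le_max_left _ _).trans (le_max_left _ _)).trans hn
  have k2 : n2 ≤ n := ((le_max_right _ _).trans (le_max_left _ _)).trans hn
  have k3 : n3 ≤ n := ((le_max_left _ _).trans (le_max_right _ _)).trans hn
  have k4 : 1 ≤ n := ((le_max_right _ _).trans (le_max_right _ _)).trans hn
  have hnR : (0 : ℝ) < n := by exact_mod_cast k4
  have g1 : 2 / κ₀ ≤ (n : ℝ) ^ (b₀ - c') := h1 n k1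
  have g2 : 2 * (J : ℝ) ^ c₁ ≤ (n : ℝ) ^ (c₁ - c') := h2 n k2
  have g3 : (3 : ℝ) ≤ (n : ℝ) ^ c' := h3 n k3
  have g4 : (n : ℝ) ^ c' + 3 ≤ E := by
    refine le_trans ?_ hE
    have e1 : (n : ℝ) ^ b₀ = (n : ℝ) ^ c' * (n : ℝ) ^ (b₀ - c') := by
      rw [← Real.rpow_add hnR]
      congr 1
      ring
    rw [e1]
    rw [div_le_iff₀ hκ] at g1
    nlinarith
  have g5 : (n : ℝ) ^ c' + 3 ≤ (T : ℝ) ^ c₁ := by
    have e1 : (n : ℝ) ^ c₁ = (n : ℝ) ^ c' * (n : ℝ) ^ (c₁ - c') := by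
      rw [← Real.rpow_add hnR]
      congr 1
      ring
    have e2 : (n : ℝ) ^ c₁ ≤ (J : ℝ) ^ c₁ * (T : ℝ) ^ c₁ := by
      rw [← Real.mul_rpow (Nat.cast_nonneg J) (Nat.cast_nonneg T)]
      exact Real.rpow_le_rpow hnR.le (by exact_mod_cast hT) hc.le
    have e3 : 0 < (J : ℝ) ^ c₁ := by positivity
    have e4 : (n : ℝ) ^ c' * (2 * (J : ℝ) ^ c₁) ≤ (J : ℝ) ^ c₁ * (T : ℝ) ^ c₁ := by
      rw [e1] at e2
      refine le_trans (mul_le_mul_of_nonneg_left g2 (by positivity)) e2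
    have e5 : (J : ℝ) ^ c₁ * (2 * (n : ℝ) ^ c') ≤ (J : ℝ) ^ c₁ * (T : ℝ) ^ c₁ := by linarith
    have e6 := le_of_mul_le_mul_left e5 e3
    linarith
  obtain ⟨x, hx⟩ : ∃ x : ℝ, x = Real.exp (-((n : ℝ) ^ c' + 3)) := ⟨_, rfl⟩
  have x0 : 0 < x := by rw [hx]; exact Real.exp_pos _
  have x1 : x ≤ 1 := by rw [hx]; exact Real.exp_le_one_iff.2 (by linarith)
  have p1 : Real.exp (-E) ≤ x := by rw [hx]; exact Real.exp_le_exp.2 (by linarith)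
  have p2 : Real.exp (-(T : ℝ) ^ c₁) ≤ x := by rw [hx]; exact Real.exp_le_exp.2 (by linarith)
  have p3 : 7 * x ≤ Real.exp (-(n : ℝ) ^ c') := by
    have e1 : x = Real.exp (-(n : ℝ) ^ c') * Real.exp (-3) := by
      rw [hx, ← Real.exp_add]
      congr 1
      ring
    have e2 : Real.exp (-3 : ℝ) ≤ 1 / 7 := by
      have h5 : (7 : ℝ) ≤ Real.exp 3 := by
        have h6 := Real.quadratic_le_exp_of_nonneg (show (0 : ℝ) ≤ 3 by norm_num)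
        linarith
      rw [Real.exp_neg, one_div]
      exact inv_anti₀ (by norm_num) h5
    have e3 := Real.exp_pos (-(n : ℝ) ^ c')
    nlinarith
  have p4 : (1 + Real.exp (-E)) ^ 2 ≤ (1 + x) ^ 2 := pow_le_pow_left₀ (by positivity) (by linarith) 2
  have p5 : (1 + Real.exp (-E)) ^ 2 * (1 + Real.exp (-(T : ℝ) ^ c₁)) ≤ (1 + x) ^ 2 * (1 + x) :=
    mul_le_mul p4 (by linarith) (by positivity) (by positivity)
  refine p5.trans ?_
  nlinarith [mul_nonneg x0.le x0.le, mul_nonneg (mul_nonneg x0.le x0.le) x0.le]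

/-- A level with small probability of the complement. -/
theorem level26 {A a g p : ℝ} (hA : 0 < A) (ha : 0 < a) (hg : 0 < g) (hp : 0 < p) : ∃ q : ℝ, 0 ≤ q ∧ A * Real.exp (-(a * q ^ g)) ≤ p := by
  obtain ⟨x, hx⟩ : ∃ x : ℝ, x = max 0 (Real.log (A / p) / a) := ⟨_, rfl⟩
  have hx0 : 0 ≤ x := by rw [hx]; exact le_max_left _ _
  refine ⟨x ^ (1 / g), Real.rpow_nonneg hx0 _, ?_⟩
  have e1 : (x ^ (1 / g)) ^ g = x := by
    rw [← Real.rpow_mul hx0]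
    have : 1 / g * g = 1 := by field_simp
    rw [this, Real.rpow_one]
  rw [e1]
  have h1 : Real.log (A / p) / a ≤ x := by rw [hx]; exact le_max_right _ _
  rw [div_le_iff₀ ha] at h1
  have h2 : Real.exp (-(a * x)) ≤ Real.exp (-Real.log (A / p)) := Real.exp_le_exp.2 (by linarith)
  rw [Real.exp_neg (Real.log _), Real.exp_log (by positivity)] at h2
  calc A * Real.exp (-(a * x)) ≤ A * (A / p)⁻¹ := mul_le_mul_of_nonneg_left h2 hA.le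
    _ = p := by field_simp

/-! ### The inputs -/

/-- Rank one, cell to cell (`R26.rank_one26`). -/
def RkP26 (μ : Measure ℝ) (s : ℝ) : Prop := ∀ e K : ℝ, 0 < e → 0 ≤ K →
  ∃ d c' : ℝ, 0 < d ∧ 0 < c' ∧ ∃ n₁ : ℕ, ∀ n : ℕ, n₁ ≤ n → ∀ (r : ℤ) (x x' y y' : ℤ), x ≤ x' → y ≤ y' →
    ((x' - x : ℤ) : ℝ) ≤ d * wd μ s n → ((y' - y : ℤ) : ℝ) ≤ d * wd μ s n →
    |((y - x : ℤ) : ℝ) - sl μ s * n| ≤ K * wd μ s n →
    x' ≤ y ∧ y' ≤ x + n ∧ law μ (RK26 μ s r n x x' y y' (Real.exp (-(n : ℝ) ^ c')))ᶜ ≤ ENNReal.ofReal e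

/-- The literal content of the two lanes at the base `b`: lanes `b.2 + a j → b.2 + e j`. -/
structure TslC26 (μ : Measure ℝ) (s c : ℝ) (η : Env) (b : Pt) (T P : ℕ) (a e : Bool → ℤ) (ω r L G d q : ℝ) : Prop where
  low : ∀ j, Real.exp L ≤ kW μ s η b.1 T (b.2 + a j) (b.2 + e j)
  off : ∀ x y : ℤ, |(x : ℝ) - b.2| ≤ ω → (∀ j, ¬ (|(x : ℝ) - (b.2 + a j : ℤ)| ≤ r ∧ |(y : ℝ) - (b.2 + e j : ℤ)| ≤ r)) →
    kW μ s η b.1 T x y ≤ Real.exp (-G)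
  cel : ∀ j (x y : ℤ), |(x : ℝ) - (b.2 + a j : ℤ)| ≤ r → |(y : ℝ) - (b.2 + e j : ℤ)| ≤ r →
    kW μ s η b.1 T x y ≤ Real.exp d * kW μ s η b.1 T (b.2 + a j) (b.2 + e j)
  dif : |Real.log (kW μ s η b.1 T (b.2 + a true) (b.2 + e true)) - Real.log (kW μ s η b.1 T (b.2 + a false) (b.2 + e false))| ≤ d
  lev : η ∈ UE26 μ s c T T P b q

/-- Two balanced lanes with the level before the window and the depth (`tslabV20` of helper20). -/
def TslP26 (μ : Measure ℝ) (s c : ℝ) : Prop := ∃ P : ℕ, ∀ K₁ δ d δ' L : ℝ, 0 ≤ K₁ → 0 < δ → 0 < d → 0 < δ' →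
  ∃ κ q : ℝ, 0 < κ ∧ 0 ≤ q ∧ ∀ K : ℝ, K₁ ≤ K → ∀ G : ℝ, 0 ≤ G → ∃ (c₁ : ℝ) (Q n₁ : ℕ), 0 < c₁ ∧ 1 ≤ Q ∧ 1 ≤ n₁ ∧ ∀ n : ℕ, n₁ ≤ n →
    ∃ r : ℝ, κ * wd μ s (Q * n) ≤ r ∧ r ≤ δ' * wd μ s (Q * n) ∧ ∀ a e : Bool → ℤ, (∀ j, |(a j : ℝ)| ≤ K₁ * wd μ s (Q * n)) →
      (∀ j, |(e j : ℝ) - sl μ s * (Q * n : ℕ)| ≤ K₁ * wd μ s (Q * n)) → (a false : ℝ) + δ * wd μ s (Q * n) ≤ a true →
      (e false : ℝ) + δ * wd μ s (Q * n) ≤ e true → ∃ S : Set Env, MeasurableSet S ∧ OnR26 (rows 0 (0 + (Q * n : ℕ))) S ∧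
      c₁ ≤ (law μ).real S ∧ ∀ (b : Pt) (η : Env), η ∈ atR26 b S → TslC26 μ s c η b (Q * n) P a e (K * wd μ s (Q * n)) r
        (L * EE μ s (Q * n)) (G * EE μ s (Q * n)) (d * EE μ s (Q * n)) q

/-! ### Events of blocks of rows -/

/-- A measurable event of the rows `lo .. hi` of failure probability at most `t`. -/
def EvB26 (μ : Measure ℝ) (lo hi : ℤ) (E : Set Env) (t : ℝ) : Prop :=
  MeasurableSet E ∧ OnR26 (rows lo hi) E ∧ (law μ).real Eᶜ ≤ t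

theorem EvB26.inter [IsProbabilityMeasure μ] {lo hi : ℤ} {E F : Set Env} {a b : ℝ} (h1 : EvB26 μ lo hi E a) (h2 : EvB26 μ lo hi F b) :
    EvB26 μ lo hi (E ∩ F) (a + b) := by
  refine ⟨h1.1.inter h2.1, h1.2.1.inter h2.2.1, ?_⟩
  rw [Set.compl_inter]
  exact (measureReal_union_le _ _).trans (add_le_add h1.2.2 h2.2.2)

theorem EvB26.real [IsProbabilityMeasure μ] {lo hi : ℤ} {E : Set Env} {t : ℝ} (h : EvB26 μ lo hi E t) : 1 - t ≤ (law μ).real E := by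
  have h1 := probReal_add_probReal_compl (μ := law μ) h.1
  linarith [h.2.2]

/-! ### Lower bounds -/

/-- The lower bound of a typical block in the unit `E`. -/
theorem low_unit26 [IsProbabilityMeasure μ] {m P : ℕ} {r z : ℤ} {q Kb E Y : ℝ} {η : Env}
    (hl : ∀ (N P : ℕ) (b : Pt) (q : ℝ) (η : Env), 0 ≤ q → η ∈ Far16 μ s c 1 Kb m N P b q → ∀ (p : Pt) (j : ℕ) (y : ℤ), b.1 ≤ p.1 →
      p.1 + j ≤ b.1 + N → 1 * m ≤ (j : ℝ) → |(y : ℝ) - sl μ s * j| ≤ (Kb - 2) * wd μ s m →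
      Real.exp (-(q * fq16 P (|lat16 μ s b p| / wd μ s m + 1) * EE μ s m)) ≤ W μ s η p j y)
    (hη : η ∈ Far16 μ s c 1 Kb m m P (r, z) q) (hq : 0 ≤ q) (hwm : 0 < wd μ s m) (hE : EE μ s m ≤ E) (x y : ℤ)
    (hd : |(y : ℝ) - x - sl μ s * m| ≤ (Kb - 2) * wd μ s m) (hY : |(x : ℝ) - z| / wd μ s m + 1 ≤ Y) :
    Real.exp (-(q * fq16 P Y * E)) ≤ kW μ s η r m x y := by
  have h1 := hl m P (r, z) q η hq hη (r, x) m (y - x) le_rfl le_rfl (by rw [one_mul]) (by push_cast; exact hd)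
  refine le_trans (Real.exp_le_exp.2 ?_) h1
  have e1 : lat16 μ s (r, z) (r, x) = (x : ℝ) - z := by
    unfold lat16
    push_cast
    ring
  rw [e1]
  have hEm := EE_pos (μ := μ) (s := s) m
  have t0 : 0 ≤ |(x : ℝ) - z| / wd μ s m + 1 := by positivity
  have f1 := fq16_one P (|(x : ℝ) - z| / wd μ s m + 1)
  have f2 := fq_le26 (P := P) t0 hY
  have g1 : q * fq16 P (|(x : ℝ) - z| / wd μ s m + 1) * EE μ s m ≤ q * fq16 P Y * E := by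
    refine mul_le_mul (mul_le_mul_of_nonneg_left f2 hq) hE hEm.le ?_
    exact mul_nonneg hq (by linarith)
  linarith

/-- The line points of two starts. -/
theorem cp26_add (v : ℝ) (u : ℤ) (t : ℕ) : cp26 v 0 t + u = cp26 v u t := by
  unfold cp26
  ring

theorem cp26_zero (v : ℝ) (u : ℤ) : cp26 v u 0 = u := by
  unfold cp26
  simp

/-- The facts of the first block, from the events. -/
theorem fM26 [IsProbabilityMeasure μ] {m T P : ℕ} {q qs th ρ ε : ℝ} {u : Bool → ℤ} {η : Env}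
    (hl : ∀ (N P : ℕ) (b : Pt) (q : ℝ) (η : Env), 0 ≤ q → η ∈ Far16 μ s c 1 3 m N P b q → ∀ (p : Pt) (j : ℕ) (y : ℤ), b.1 ≤ p.1 →
      p.1 + j ≤ b.1 + N → 1 * m ≤ (j : ℝ) → |(y : ℝ) - sl μ s * j| ≤ (3 - 2) * wd μ s m →
      Real.exp (-(q * fq16 P (|lat16 μ s b p| / wd μ s m + 1) * EE μ s m)) ≤ W μ s η p j y)
    (hq : 0 ≤ q) (hqs : q * fq16 P 2 ≤ qs) (hw2 : 2 ≤ wd μ s m) (htw : th * wd μ s T ≤ wd μ s m / 2) (hE : EE μ s m ≤ EE μ s T)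
    (hρ : ρ ≤ th * wd μ s T) (hε : 0 ≤ ε) (i : Bool) (h1 : η ∈ Far16 μ s c 1 3 m m P (0, u i) q)
    (c1 : u i + ⌊th * wd μ s T⌋ ≤ cp26 (sl μ s) (u i) m - ⌊th * wd μ s T⌋)
    (c2 : cp26 (sl μ s) (u i) m + ⌊th * wd μ s T⌋ ≤ u i - ⌊th * wd μ s T⌋ + m)
    (h2 : η ∈ RK26 μ s 0 m (u i - ⌊th * wd μ s T⌋) (u i + ⌊th * wd μ s T⌋) (cp26 (sl μ s) (u i) m - ⌊th * wd μ s T⌋)
      (cp26 (sl μ s) (u i) m + ⌊th * wd μ s T⌋) ε) :
    (∀ a : ℤ, |(a : ℝ) - u i| ≤ th * wd μ s T → Real.exp (-(qs * EE μ s T)) ≤ kW μ s η 0 m a (cp26 (sl μ s) (u i) m)) ∧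
    ∀ a a' y y' : ℤ, |(a : ℝ) - u i| ≤ th * wd μ s T → |(a' : ℝ) - u i| ≤ th * wd μ s T →
      |(y : ℝ) - cp26 (sl μ s) (u i) m| ≤ ρ → |(y' : ℝ) - cp26 (sl μ s) (u i) m| ≤ ρ →
      kW μ s η 0 m a y * kW μ s η 0 m a' y' ≤ (1 + ε) * (kW μ s η 0 m a y' * kW μ s η 0 m a' y) := by
  have hwm : 0 < wd μ s m := by linarith
  have hET := EE_pos (μ := μ) (s := s) T
  constructor
  · intro a ha
    have h3 := low_unit26 hl h1 hq hwm hE a (cp26 (sl μ s) (u i) m) (Y := 2) (by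
      have h4 := cp26_near (sl μ s) (u i) m
      have e : (cp26 (sl μ s) (u i) m : ℝ) - a - sl μ s * m = ((cp26 (sl μ s) (u i) m : ℝ) - u i - sl μ s * m) - ((a : ℝ) - u i) := by
        ring
      rw [e]
      refine (abs_sub _ _).trans ?_
      linarith) (by
      have : |(a : ℝ) - u i| / wd μ s m ≤ 1 := by
        rw [div_le_one hwm]
        linarith
      linarith)
    refine le_trans (Real.exp_le_exp.2 ?_) h3
    have := mul_le_mul_of_nonneg_right hqs hET.le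
    linarith
  · intro a a' y y' ha ha' hy hy'
    exact rank_cells26 (μ := μ) (s := s) hε c1 c2 h2 a (mem_Ce26.2 ha) a' (mem_Ce26.2 ha') y (mem_Ce26.2 (hy.trans hρ)) y'
      (mem_Ce26.2 (hy'.trans hρ))

/-- The facts of the last block, from the events. -/
theorem fB26 [IsProbabilityMeasure μ] {m m1 T P Pw : ℕ} {q qs qw b Kb K Kc K0 J : ℝ} {u : Bool → ℤ} {η : Env}
    (hl : ∀ (N P : ℕ) (b : Pt) (q : ℝ) (η : Env), 0 ≤ q → η ∈ Far16 μ s c 1 3 m N P b q → ∀ (p : Pt) (j : ℕ) (y : ℤ), b.1 ≤ p.1 →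
      p.1 + j ≤ b.1 + N → 1 * m ≤ (j : ℝ) → |(y : ℝ) - sl μ s * j| ≤ (3 - 2) * wd μ s m →
      Real.exp (-(q * fq16 P (|lat16 μ s b p| / wd μ s m + 1) * EE μ s m)) ≤ W μ s η p j y)
    (hlw : ∀ (N P : ℕ) (b : Pt) (q : ℝ) (η : Env), 0 ≤ q → η ∈ Far16 μ s c 1 Kb m N P b q → ∀ (p : Pt) (j : ℕ) (y : ℤ), b.1 ≤ p.1 →
      p.1 + j ≤ b.1 + N → 1 * m ≤ (j : ℝ) → |(y : ℝ) - sl μ s * j| ≤ (Kb - 2) * wd μ s m →
      Real.exp (-(q * fq16 P (|lat16 μ s b p| / wd μ s m + 1) * EE μ s m)) ≤ W μ s η p j y)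
    (hq : 0 ≤ q) (hqw : 0 ≤ qw) (hqs : q * fq16 P 2 ≤ qs) (hw1 : 1 ≤ wd μ s T) (hw2 : 2 ≤ wd μ s m) (hwJ : wd μ s T ≤ J * wd μ s m)
    (hK : 0 ≤ K) (hK0 : 0 ≤ K0)
    (hE : EE μ s m ≤ EE μ s T) (hKc : Kc * J ≤ 1 / 2) (hKc0 : 0 ≤ Kc) (hKb : (K + K0 + 1) * J + 2 ≤ Kb) (hb : qw * fq16 Pw (K0 * J + 2) ≤ b)
    (i : Bool) (hu : |(u i : ℝ)| ≤ K0 * wd μ s T) (h1 : η ∈ Far16 μ s c 1 3 m m P (((m1 + T : ℕ) : ℤ), cp26 (sl μ s) (u i) (m1 + T)) q)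
    (h2 : η ∈ Far16 μ s c 1 Kb m m Pw (((m1 + T : ℕ) : ℤ), cp26 (sl μ s) 0 (m1 + T)) qw) :
    (∀ x : ℤ, |lt26 (sl μ s) (wd μ s T) (m1 + T + m) x| ≤ K →
      Real.exp (-(b * EE μ s T)) ≤ kW μ s η ((m1 + T : ℕ) : ℤ) m (cp26 (sl μ s) (u i) (m1 + T)) x) ∧
    ∀ x : ℤ, |lt26 (sl μ s) (wd μ s T) (m1 + T + m) x - u i / wd μ s T| ≤ Kc →
      Real.exp (-(qs * EE μ s T)) ≤ kW μ s η ((m1 + T : ℕ) : ℤ) m (cp26 (sl μ s) (u i) (m1 + T)) x := by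
  have hwm : 0 < wd μ s m := by linarith
  have hw : 0 < wd μ s T := by linarith
  have hET := EE_pos (μ := μ) (s := s) T
  have h4 := cp26_near (sl μ s) (u i) (m1 + T)
  constructor
  · intro x hx
    have hx' : |(x : ℝ) - sl μ s * (m1 + T + m : ℕ)| ≤ K * wd μ s T := by
      unfold lt26 at hx
      rw [abs_div, abs_of_pos hw, div_le_iff₀ hw] at hx
      exact hx
    have h3 := low_unit26 hlw h2 hqw hwm hE (cp26 (sl μ s) (u i) (m1 + T)) x (Y := K0 * J + 2) (by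
      have e : (x : ℝ) - cp26 (sl μ s) (u i) (m1 + T) - sl μ s * m = ((x : ℝ) - sl μ s * (m1 + T + m : ℕ)) -
          ((cp26 (sl μ s) (u i) (m1 + T) : ℝ) - u i - sl μ s * (m1 + T : ℕ)) - u i := by
        push_cast
        ring
      rw [e]
      refine (abs_sub _ _).trans ?_
      have h5 := abs_sub ((x : ℝ) - sl μ s * (m1 + T + m : ℕ)) ((cp26 (sl μ s) (u i) (m1 + T) : ℝ) - u i - sl μ s * (m1 + T : ℕ))
      have h6 := mul_le_mul_of_nonneg_left hwJ (show 0 ≤ K + K0 + 1 by linarith)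
      have h7 := mul_le_mul_of_nonneg_right hKb hwm.le
      nlinarith) (by
      have e : (cp26 (sl μ s) (u i) (m1 + T) : ℝ) - cp26 (sl μ s) 0 (m1 + T) = u i := by
        rw [← cp26_add (sl μ s) (u i) (m1 + T)]
        push_cast
        ring
      rw [e]
      have h5 : |(u i : ℝ)| / wd μ s m ≤ K0 * J := by
        rw [div_le_iff₀ hwm]
        have := mul_le_mul_of_nonneg_left hwJ hK0
        linarith
      linarith)
    refine le_trans (Real.exp_le_exp.2 ?_) h3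
    have := mul_le_mul_of_nonneg_right hb hET.le
    linarith
  · intro x hx
    have hx' : |(x : ℝ) - sl μ s * (m1 + T + m : ℕ) - u i| ≤ Kc * wd μ s T := by
      unfold lt26 at hx
      rw [← sub_div, abs_div, abs_of_pos hw, div_le_iff₀ hw] at hx
      exact hx
    have h3 := low_unit26 hl h1 hq hwm hE (cp26 (sl μ s) (u i) (m1 + T)) x (Y := 2) (by
      have e : (x : ℝ) - cp26 (sl μ s) (u i) (m1 + T) - sl μ s * m = ((x : ℝ) - sl μ s * (m1 + T + m : ℕ) - u i) -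
          ((cp26 (sl μ s) (u i) (m1 + T) : ℝ) - u i - sl μ s * (m1 + T : ℕ)) := by
        push_cast
        ring
      rw [e]
      refine (abs_sub _ _).trans ?_
      have h6 := mul_le_mul_of_nonneg_left hwJ hKc0
      have h7 := mul_le_mul_of_nonneg_right hKc hwm.le
      nlinarith) (by
      rw [sub_self, abs_zero, zero_div]
      norm_num)
    refine le_trans (Real.exp_le_exp.2 ?_) h3
    have := mul_le_mul_of_nonneg_right hqs hET.le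
    linarith

end

end Pool.Agent.W_7d29a1_C1.B26
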