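import Pool.Agent.W_7d29a1_C1.BufI26

/-!
MP_7d29a1_pr, [C1] THE BUFFER BEHIND THE TWO LANES (helper26): `evt26` the event of the three blocks of rows, `fin26` from the facts to the output.
-/

set_option autoImplicit false

namespace Pool.Agent.W_7d29a1_C1.B26

open MeasureTheory ProbabilityTheory Filter Topology Finset
open Pool.Agent.W_7d29a1_F Pool.Agent.W_7d29a1_h4g Pool.Agent.W_7d29a1_H Pool.Agent.W_7d29a1_HS
open Pool.Agent.W_7d29a1_C1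
open Pool.Agent.W_7d29a1_C1.CR76 Pool.Agent.W_7d29a1_C1.Basin76
open Pool.Agent.W_7d29a1_C1.R26 (RK26 RK26_dep measurableSet_RK26)
open Pool.Agent.W_7d29a1_C1.H75 (hc)
open Pool.Agent.W_7d29a1_C1.U16 (fq16 fq16_one fq16_mono lat16 Far16 far_low far_prob Far16_meas Far16_rows)

noncomputable section

variable {μ : Measure ℝ} {s c C : ℝ} {n₀ : ℕ}

/-- The output with all its quantifiers: what the event of the buffer gives, for the starts `u`, the strength `A`. -/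
structure BufP26 (μ : Measure ℝ) (s c : ℝ) (η : Env) (nM T nB : ℕ) (u : Bool → ℤ) (th K Kx del A δ ell ellw Kc be g Q1 : ℝ) : Prop where
  upA : A ≤ Real.exp (Q1 * EE μ s T)
  env : ∀ y x : ℤ, kW μ s η 0 (nM + (T + nB)) y x ≤
    Real.exp ((Q1 + 3 * (c / 16) * |lt26 (sl μ s) (wd μ s T) 0 y| -
      c / 2 * |lt26 (sl μ s) (wd μ s T) (nM + T + nB) x - lt26 (sl μ s) (wd μ s T) 0 y|) * EE μ s T)
  out : ∀ a1 b1 a2 b2 xa xb s0 : ℤ, a1 ≤ b1 → a2 ≤ b2 → (∀ y : ℤ, a1 ≤ y → y ≤ b1 → |(y : ℝ) - u false| ≤ th * wd μ s T) →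
    (∀ y : ℤ, a2 ≤ y → y ≤ b2 → |(y : ℝ) - u true| ≤ th * wd μ s T) → -K ≤ lt26 (sl μ s) (wd μ s T) (nM + T + nB) xa →
    lt26 (sl μ s) (wd μ s T) (nM + T + nB) xa ≤ -Kx → lt26 (sl μ s) (wd μ s T) (nM + T + nB) xb ≤ K →
    Kx ≤ lt26 (sl μ s) (wd μ s T) (nM + T + nB) xb → xa ≤ xb →
    u false / wd μ s T + del / 4 ≤ lt26 (sl μ s) (wd μ s T) (nM + T + nB) s0 →
    lt26 (sl μ s) (wd μ s T) (nM + T + nB) s0 + del / 4 ≤ u true / wd μ s T →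
    BufO26 (kW μ s η 0 (nM + (T + nB))) (lt26 (sl μ s) (wd μ s T) (nM + T + nB)) (EE μ s T) (u false / wd μ s T) (u true / wd μ s T)
      a1 b1 a2 b2 xa xb s0 A δ ell ellw Kc be g

/-- The thresholds of the scale. -/
structure Th26 (μ : Measure ℝ) (s : ℝ) (m : ℕ) (th KK : ℝ) : Prop where
  one : 1 ≤ m
  w2 : 2 ≤ wd μ s m
  thw : 1 ≤ th * wd μ s m
  KT : KK * wd μ s m ≤ m
  RE : 2 * (6 * (m : ℝ)) ^ 3 ≤ Real.exp (EE μ s m)

theorem th26 [IsProbabilityMeasure μ] (h : In μ s c C n₀) {th : ℝ} (hth : 0 < th) (KK : ℝ) : ∃ N : ℕ, ∀ m : ℕ, N ≤ m → Th26 μ s m th KK := by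
  obtain ⟨n1, h1⟩ := eventually_atTop.1 ((wd_tendsto h).eventually_ge_atTop 2)
  obtain ⟨n2, h2⟩ := eventually_atTop.1 ((wd_tendsto h).eventually_ge_atTop (1 / th))
  obtain ⟨n3, h3⟩ := eventually_atTop.1 (h.tv.eventually_le_const (show (0 : ℝ) < 1 / (|KK| + 1) by positivity))
  obtain ⟨n4, h4⟩ := lgo h (δ := 1 / 6) (by norm_num)
  obtain ⟨n5, h5⟩ := eventually_atTop.1 (h.tE.eventually_ge_atTop (2 * Real.log 432))
  refine ⟨max (max n1 n2) (max (max n3 n4) (max n5 1)), fun m hm => ?_⟩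
  have k1 : n1 ≤ m := ((le_max_left _ _).trans (le_max_left _ _)).trans hm
  have k2 : n2 ≤ m := ((le_max_right _ _).trans (le_max_left _ _)).trans hm
  have k3 : n3 ≤ m := ((le_max_left _ _).trans ((le_max_left _ _).trans (le_max_right _ _))).trans hm
  have k4 : n4 ≤ m := ((le_max_right _ _).trans ((le_max_left _ _).trans (le_max_right _ _))).trans hm
  have k5 : n5 ≤ m := ((le_max_left _ _).trans ((le_max_right _ _).trans (le_max_right _ _))).trans hm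
  have k6 : 1 ≤ m := ((le_max_right _ _).trans ((le_max_right _ _).trans (le_max_right _ _))).trans hm
  have hm0 : (0 : ℝ) < m := by exact_mod_cast k6
  refine ⟨k6, h1 m k1, ?_, ?_, ?_⟩
  · have g := h2 m k2
    rw [div_le_iff₀ hth] at g
    linarith
  · have g := h3 m k3
    have g0 := h.vA_nonneg m
    have e1 : KK * wd μ s m = m * (KK * vA 1 μ s m) := by
      unfold wd
      ring
    rw [e1]
    rw [le_div_iff₀ (by positivity)] at g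
    have g2 : KK * vA 1 μ s m ≤ 1 := by
      have := mul_le_mul_of_nonneg_right (le_abs_self KK) g0
      nlinarith
    have := mul_le_mul_of_nonneg_left g2 hm0.le
    linarith
  · have g1 := h4 m k4
    have g2 := h5 m k5
    have e1 : 2 * (6 * (m : ℝ)) ^ 3 = 432 * m ^ 3 := by ring
    rw [e1]
    have e2 : Real.log (432 * (m : ℝ) ^ 3) ≤ EE μ s m := by
      rw [Real.log_mul (by norm_num) (by positivity), Real.log_pow]
      push_cast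
      linarith
    have := Real.exp_le_exp.2 e2
    rwa [Real.exp_log (by positivity)] at this

/-- The envelope of the whole kernel. -/
theorem env_all26 [IsProbabilityMeasure μ] {η : Env} {nM T nB P : ℕ} {q J QM QF QB hM hB Q1 : ℝ} (h0 : η ∈ UE26 μ s c nM nM P (0, 0) q)
    (hq : 0 ≤ q) (hw : 1 ≤ wd μ s T) (hwM : 1 ≤ wd μ s nM) (hwJ : wd μ s T ≤ J * wd μ s nM) (hE : EE μ s nM ≤ EE μ s T)
    (hh : hM * (wd μ s nM * EE μ s T) ≤ c * (EE μ s nM * wd μ s T)) (hc : 0 < c) (hcM : c ≤ hM) (hcB : c / 2 ≤ hB)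
    (hQ : ∀ t : ℝ, 0 ≤ t → q * fq16 P (t * J + 2) ≤ QM + c / 16 * t)
    (Fup : ∀ x y : ℤ, kW μ s η nM T x y ≤ Real.exp ((QF + c / 16 * |lt26 (sl μ s) (wd μ s T) nM x| -
      c * |lt26 (sl μ s) (wd μ s T) (nM + T) y - lt26 (sl μ s) (wd μ s T) nM x|) * EE μ s T))
    (Bup : ∀ v x : ℤ, kW μ s η ((nM : ℤ) + T) nB v x ≤ Real.exp ((QB + c / 16 * |lt26 (sl μ s) (wd μ s T) (nM + T) v| -
      hB * |lt26 (sl μ s) (wd μ s T) (nM + T + nB) x - lt26 (sl μ s) (wd μ s T) (nM + T) v|) * EE μ s T))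
    (hT1 : 1 ≤ T) (hnM : nM ≤ T) (hRE : (6 * (T : ℝ)) ^ 3 ≤ Real.exp (EE μ s T)) (hQ1 : QM + QF + QB + 1 ≤ Q1) (y x : ℤ) :
    kW μ s η 0 (nM + (T + nB)) y x ≤ Real.exp ((Q1 + 3 * (c / 16) * |lt26 (sl μ s) (wd μ s T) 0 y| -
      c / 2 * |lt26 (sl μ s) (wd μ s T) (nM + T + nB) x - lt26 (sl μ s) (wd μ s T) 0 y|) * EE μ s T) := by
  have hw0 : 0 < wd μ s T := by linarith
  have hwM0 : 0 < wd μ s nM := by linarith
  have hE0 := EE_pos (μ := μ) (s := s) T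
  have hTr : (1 : ℝ) ≤ T := by exact_mod_cast hT1
  have Mup : ∀ a z : ℤ, kW μ s η 0 nM a z ≤ Real.exp ((QM + c / 16 * |lt26 (sl μ s) (wd μ s T) 0 a| -
      hM * |lt26 (sl μ s) (wd μ s T) nM z - lt26 (sl μ s) (wd μ s T) 0 a|) * EE μ s T) := by
    intro a z
    have h1 := up_unit26 h0 le_rfl hq hw0 hwM0 hE hh a z (Y := |lt26 (sl μ s) (wd μ s T) 0 a| * J + 2) (by
      have e1 : |(a : ℝ)| = |lt26 (sl μ s) (wd μ s T) 0 a| * wd μ s T := by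
        unfold lt26
        rw [Nat.cast_zero, mul_zero, sub_zero, abs_div, abs_of_pos hw0]
        field_simp
      have h2 : |(a : ℝ) - (0 : ℤ)| / wd μ s nM ≤ |lt26 (sl μ s) (wd μ s T) 0 a| * J := by
        rw [Int.cast_zero, sub_zero, div_le_iff₀ hwM0, e1]
        have := mul_le_mul_of_nonneg_left hwJ (abs_nonneg (lt26 (sl μ s) (wd μ s T) 0 a))
        linarith
      linarith)
    have e1 := lt26_sub (sl μ s) (wd μ s T) 0 nM a z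
    rw [zero_add] at e1
    rw [← e1] at h1
    refine h1.trans (Real.exp_le_exp.2 (mul_le_mul_of_nonneg_right ?_ hE0.le))
    linarith [hQ _ (abs_nonneg (lt26 (sl μ s) (wd μ s T) 0 a))]
  obtain ⟨S, hS⟩ : ∃ S : Finset ℤ, S = Icc y (y + (nM + T : ℕ)) := ⟨_, rfl⟩
  have cS : (S.card : ℝ) ≤ 6 * T := by
    rw [hS, Int.card_Icc]
    have e : (y + (nM + T : ℕ) + 1 - y).toNat = nM + T + 1 := by
      push_cast
      omega
    rw [e]
    have : nM + T + 1 ≤ 6 * T := by omega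
    exact_mod_cast this
  have hR2 : (S.card * S.card : ℝ) ≤ (6 * (T : ℝ)) ^ 3 := by
    calc (S.card * S.card : ℝ) ≤ (6 * T) * (6 * T) := mul_le_mul cS cS (Nat.cast_nonneg _) (by positivity)
      _ = (6 * (T : ℝ)) ^ 2 := by ring
      _ ≤ _ := pow_le_pow_right₀ (by linarith) (by norm_num)
  have h3 := kW_three (μ := μ) (s := s) η 0 nM T nB y x S (by rw [hS])
  rw [zero_add] at h3
  rw [h3]
  refine (all26 (h1 := c / 2) (Q1 := Q1) hE0.le (fun a z => kW_nonneg η 0 nM a z) (fun a z => kW_nonneg η nM T a z)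
    (fun a z => kW_nonneg η _ nB a z) Mup Fup Bup (by linarith) (by linarith) (by linarith) (by linarith) (by linarith) hcB
    hR2 hRE hQ1 y x).trans (le_of_eq ?_)
  congr 1
  ring

/-- **From the facts to the output.** -/
theorem fin26 [IsProbabilityMeasure μ] (h : In μ s c C n₀) {η : Env} {nM T nB : ℕ} {u : Bool → ℤ} {P PF : ℕ}
    {J J1 q qF qs ρ ωF th L G dd K b Kc ε K0 K3 QM QF QB hM hB be : ℝ}
    (HH : BFct26 μ s c η nM T nB u P PF q qF qs ρ ωF th L G dd K b Kc ε)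
    (NN : BNum26 μ s c nM T nB P PF J q qF qs ρ ωF th L dd K0 (K0 + 1) K3 QF (c / 16) QB (c / 16) hM hB be)
    (hu : ∀ i, |(u i : ℝ)| ≤ K0 * wd μ s T) (thT : Th26 μ s T th (K0 + 1)) (hMT : nM ≤ T) (hBT : nB ≤ T)
    (s1w : wd μ s T ≤ J1 * wd μ s nM) (kM : ∀ t : ℝ, 0 ≤ t → q * fq16 P (t * J1 + 2) ≤ QM + c / 16 * t) (hQM0 : 0 ≤ QM)
    (hMc : c ≤ hM) (hcB : c / 2 ≤ hB)
    {del g0 g' Kx ell ellw g δ Q1 : ℝ} (hdel : (u false : ℝ) + del * wd μ s T ≤ u true)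
    (hQ1 : QM + QF + QB + 1 + c / 16 * (K0 + 1) ≤ Q1)
    (hg1 : g0 + (2 * qs + 2 * dd + qs + hB * (2 * th) + be * (K0 + 1)) ≤ hM * (del - 2 * (2 * th)))
    (hg2 : g0 + (2 * qs + QF / 2 + QB + (c / 16 + c / 16 + be) * (K0 + 1)) ≤ G / 2)
    (hg3 : g0 + (2 * qs + QF + QB + (c / 16 + c / 16 + be) * (K0 + 1)) ≤ hM / 2 * (K3 - (K0 + 1)))
    (hn : On26 (K0 + 1) (EE μ s T) qs dd qs hB (2 * th) be b qs Kx (del / 4) ((6 * (T : ℝ)) ^ 3) g0 g' ell ellw g) (hbg : b + 2 ≤ g0)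
    (hε : 0 ≤ ε) (hδ : (1 + Real.exp (-EE μ s T)) ^ 2 * (1 + ε) ≤ 1 + δ) (hKx0 : 0 ≤ Kx) :
    BufP26 μ s c η nM T nB u th K Kx del (kW μ s η nM T (cp26 (sl μ s) (u false) nM) (cp26 (sl μ s) (u false) (nM + T))) δ ell ellw Kc
      be g Q1 := by
  have hc0 := h.c0
  have hwT2 := thT.w2
  have hET := EE_pos (μ := μ) (s := s) T
  have hRE := thT.RE
  have hRpos : 0 ≤ (6 * (T : ℝ)) ^ 3 := by positivity
  have DD := bh26 h HH NN hu false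
  have hK0 := NN.K00
  have hcK : 0 ≤ c / 16 * (K0 + 1) := by positivity
  have hQF0 := NN.QF0
  have hQB0 := NN.QB0
  refine ⟨?_, ?_, ?_⟩
  · -- upper bound of the lane
    refine (DD.Fup _ _).trans (Real.exp_le_exp.2 (mul_le_mul_of_nonneg_right ?_ hET.le))
    have g1 := DD.C1 _ DD.cC
    have g2 := DD.lK
    have g3 := abs_sub_abs_le_abs_sub (lt26 (sl μ s) (wd μ s T) nM (cp26 (sl μ s) (u false) nM)) (u false / wd μ s T)
    have g4 : |lt26 (sl μ s) (wd μ s T) nM (cp26 (sl μ s) (u false) nM)| ≤ K0 + 1 := by linarith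
    have g5 := mul_le_mul_of_nonneg_left g4 (show 0 ≤ c / 16 by linarith)
    have g6 := mul_nonneg hc0.le (abs_nonneg (lt26 (sl μ s) (wd μ s T) (nM + T) (cp26 (sl μ s) (u false) (nM + T)) -
      lt26 (sl μ s) (wd μ s T) nM (cp26 (sl μ s) (u false) nM)))
    linarith
  · exact env_all26 HH.m0 NN.q0 (by linarith) NN.wM1 s1w NN.EM NN.sM hc0 hMc hcB kM DD.Fup DD.Bup thT.one hMT (by linarith)
      (by linarith)
  · intro α1 β1 α2 β2 xa xb s0 h1 h2 h3 h4 h5 h6 h7 h8 h9 h10 h11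
    exact det26 h HH NN hu hdel thT.one thT.KT hMT hBT (R := (6 * (T : ℝ)) ^ 3) le_rfl (g0 := g0) (g' := g') (Kx := Kx) hg1 hg2 hg3 hn hbg
      hε hδ h1 h2 h3 h4 hKx0 h5 h6 h7 h8 h9 h10 h11

/-- **The event of the three blocks.** -/
theorem evt26 [IsProbabilityMeasure μ] {nM T nB P PT Pw : ℕ} {u : Bool → ℤ}
    {q qs qw qF r K0 K3 th L G dd K b Kb j2 c₁ del ε : ℝ}
    (hlM : ∀ (N P : ℕ) (b : Pt) (q : ℝ) (η : Env), 0 ≤ q → η ∈ Far16 μ s c 1 3 nM N P b q → ∀ (p : Pt) (j : ℕ) (y : ℤ), b.1 ≤ p.1 →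
      p.1 + j ≤ b.1 + N → 1 * nM ≤ (j : ℝ) → |(y : ℝ) - sl μ s * j| ≤ (3 - 2) * wd μ s nM →
      Real.exp (-(q * fq16 P (|lat16 μ s b p| / wd μ s nM + 1) * EE μ s nM)) ≤ W μ s η p j y)
    (hlB : ∀ (N P : ℕ) (b : Pt) (q : ℝ) (η : Env), 0 ≤ q → η ∈ Far16 μ s c 1 3 nB N P b q → ∀ (p : Pt) (j : ℕ) (y : ℤ), b.1 ≤ p.1 →
      p.1 + j ≤ b.1 + N → 1 * nB ≤ (j : ℝ) → |(y : ℝ) - sl μ s * j| ≤ (3 - 2) * wd μ s nB →
      Real.exp (-(q * fq16 P (|lat16 μ s b p| / wd μ s nB + 1) * EE μ s nB)) ≤ W μ s η p j y)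
    (hlBw : ∀ (N P : ℕ) (b : Pt) (q : ℝ) (η : Env), 0 ≤ q → η ∈ Far16 μ s c 1 Kb nB N P b q → ∀ (p : Pt) (j : ℕ) (y : ℤ), b.1 ≤ p.1 →
      p.1 + j ≤ b.1 + N → 1 * nB ≤ (j : ℝ) → |(y : ℝ) - sl μ s * j| ≤ (Kb - 2) * wd μ s nB →
      Real.exp (-(q * fq16 P (|lat16 μ s b p| / wd μ s nB + 1) * EE μ s nB)) ≤ W μ s η p j y)
    (hFM : ∀ z : ℤ, EvB26 μ 0 (0 + nM) (Far16 μ s c 1 3 nM nM P (0, z) q) (1 / 16))
    (hFB : ∀ z : ℤ, EvB26 μ ((nM : ℤ) + T) ((nM : ℤ) + T + nB) (Far16 μ s c 1 3 nB nB P ((nM : ℤ) + T, z) q) (1 / 16))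
    (hFw : ∀ z : ℤ, EvB26 μ ((nM : ℤ) + T) ((nM : ℤ) + T + nB) (Far16 μ s c 1 Kb nB nB Pw ((nM : ℤ) + T, z) qw) (1 / 16))
    (hRK : ∀ i : Bool, u i + ⌊th * wd μ s T⌋ ≤ cp26 (sl μ s) (u i) nM - ⌊th * wd μ s T⌋ ∧
      cp26 (sl μ s) (u i) nM + ⌊th * wd μ s T⌋ ≤ u i - ⌊th * wd μ s T⌋ + nM ∧
      EvB26 μ 0 (0 + nM) (RK26 μ s 0 nM (u i - ⌊th * wd μ s T⌋) (u i + ⌊th * wd μ s T⌋) (cp26 (sl μ s) (u i) nM - ⌊th * wd μ s T⌋)
        (cp26 (sl μ s) (u i) nM + ⌊th * wd μ s T⌋) ε) (1 / 16))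
    (hlan : ∀ a e : Bool → ℤ, (∀ j, |(a j : ℝ)| ≤ (K0 + 1) * wd μ s T) → (∀ j, |(e j : ℝ) - sl μ s * T| ≤ (K0 + 1) * wd μ s T) →
      (a false : ℝ) + del * wd μ s T ≤ a true → (e false : ℝ) + del * wd μ s T ≤ e true → ∃ S : Set Env, MeasurableSet S ∧
      OnR26 (rows 0 (0 + (T : ℤ))) S ∧ c₁ ≤ (law μ).real S ∧ ∀ (b : Pt) (η : Env), η ∈ atR26 b S →
        TslC26 μ s c η b T PT a e ((K3 + 1) * wd μ s T) r (L * EE μ s T) (G * EE μ s T) (dd * EE μ s T) qF)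
    (hc₁ : 0 < c₁) (hq0 : 0 ≤ q) (hqw0 : 0 ≤ qw) (hqs : q * fq16 P 2 ≤ qs) (hwM2 : 2 ≤ wd μ s nM) (hwB2 : 2 ≤ wd μ s nB)
    (hwT2 : 2 ≤ wd μ s T) (tM2 : th * wd μ s T ≤ wd μ s nM / 2) (s1E : EE μ s nM ≤ EE μ s T) (s2E : EE μ s nB ≤ EE μ s T)
    (hr2 : r ≤ th * wd μ s T) (s2w : wd μ s T ≤ 2 * j2 * wd μ s nB) (hj2R : 1 ≤ j2) (hKn : 0 ≤ K) (hK0 : 0 ≤ K0)
    (hKb : (K + K0 + 1) * (2 * j2) + 2 ≤ Kb) (hb : qw * fq16 Pw (K0 * (2 * j2) + 2) ≤ b) (hε : 0 ≤ ε)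
    (hu : ∀ i, |(u i : ℝ)| ≤ K0 * wd μ s T) (hsep : (u false : ℝ) + del * wd μ s T ≤ u true) :
    ∃ S : Set Env, MeasurableSet S ∧ OnR26 (rows 0 ((nM + (T + nB) : ℕ) : ℤ)) S ∧ 1 / 2 * (c₁ * (1 / 2)) ≤ (law μ).real S ∧
      ∀ η ∈ S, BFct26 μ s c η nM T nB u P PT q qF qs r ((K3 + 1) * wd μ s T) th L G dd K b (1 / (4 * j2)) ε := by
  have hwT0 : 0 < wd μ s T := by linarith
  obtain ⟨EM, hEM⟩ : ∃ E : Set Env, E = Far16 μ s c 1 3 nM nM P (0, 0) q ∩ (Far16 μ s c 1 3 nM nM P (0, u false) q ∩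
      (Far16 μ s c 1 3 nM nM P (0, u true) q ∩
      (RK26 μ s 0 nM (u false - ⌊th * wd μ s T⌋) (u false + ⌊th * wd μ s T⌋) (cp26 (sl μ s) (u false) nM - ⌊th * wd μ s T⌋)
        (cp26 (sl μ s) (u false) nM + ⌊th * wd μ s T⌋) ε ∩
      RK26 μ s 0 nM (u true - ⌊th * wd μ s T⌋) (u true + ⌊th * wd μ s T⌋) (cp26 (sl μ s) (u true) nM - ⌊th * wd μ s T⌋)
        (cp26 (sl μ s) (u true) nM + ⌊th * wd μ s T⌋) ε))) := ⟨_, rfl⟩
  have vM : EvB26 μ 0 (0 + nM) EM (1 / 16 + (1 / 16 + (1 / 16 + (1 / 16 + 1 / 16)))) := by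
    rw [hEM]
    exact (hFM 0).inter ((hFM (u false)).inter ((hFM (u true)).inter
      ((hRK false).2.2.inter (hRK true).2.2)))
  obtain ⟨EB, hEB⟩ : ∃ E : Set Env, E = Far16 μ s c 1 3 nB nB P ((nM : ℤ) + T, cp26 (sl μ s) 0 (nM + T)) q ∩
      (Far16 μ s c 1 3 nB nB P ((nM : ℤ) + T, cp26 (sl μ s) (u false) (nM + T)) q ∩
      (Far16 μ s c 1 3 nB nB P ((nM : ℤ) + T, cp26 (sl μ s) (u true) (nM + T)) q ∩
      Far16 μ s c 1 Kb nB nB Pw ((nM : ℤ) + T, cp26 (sl μ s) 0 (nM + T)) qw)) := ⟨_, rfl⟩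
  have vB : EvB26 μ ((nM : ℤ) + T) ((nM : ℤ) + T + nB) EB (1 / 16 + (1 / 16 + (1 / 16 + 1 / 16))) := by
    rw [hEB]
    exact (hFB _).inter ((hFB _).inter ((hFB _).inter (hFw _)))
  obtain ⟨e, he⟩ : ∃ e : Bool → ℤ, e = fun i => u i + (⌊sl μ s * (nM + T : ℕ)⌋ - ⌊sl μ s * nM⌋) := ⟨_, rfl⟩
  have hD : |((⌊sl μ s * (nM + T : ℕ)⌋ - ⌊sl μ s * nM⌋ : ℤ) : ℝ) - sl μ s * T| ≤ 1 := by
    have f1 := Int.floor_le (sl μ s * (nM + T : ℕ))
    have f2 := Int.lt_floor_add_one (sl μ s * (nM + T : ℕ))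
    have f3 := Int.floor_le (sl μ s * nM)
    have f4 := Int.lt_floor_add_one (sl μ s * nM)
    push_cast at f1 f2 ⊢
    rw [abs_le]
    constructor <;> linarith
  obtain ⟨SF, mF, oF, pF, hSF⟩ := hlan u e (fun i => (hu i).trans (mul_le_mul_of_nonneg_right (by linarith) hwT0.le)) (fun i => by
      rw [he]
      have e1 : ((u i + (⌊sl μ s * (nM + T : ℕ)⌋ - ⌊sl μ s * nM⌋) : ℤ) : ℝ) - sl μ s * T =
        u i + (((⌊sl μ s * (nM + T : ℕ)⌋ - ⌊sl μ s * nM⌋ : ℤ) : ℝ) - sl μ s * T) := by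
        push_cast
        ring
      show |((u i + (⌊sl μ s * (nM + T : ℕ)⌋ - ⌊sl μ s * nM⌋) : ℤ) : ℝ) - sl μ s * T| ≤ (K0 + 1) * wd μ s T
      rw [e1]
      refine (abs_add_le _ _).trans ?_
      linarith [hu i]) hsep (by
      rw [he]
      push_cast
      linarith)
  obtain ⟨bF, hbF⟩ : ∃ b : Pt, b = ((nM : ℤ), cp26 (sl μ s) 0 nM) := ⟨_, rfl⟩
  have mF' := meas_atR26 bF mF
  have oF' := on_atR26 bF oF
  have pF' : c₁ ≤ (law μ).real (atR26 bF SF) := by rw [real_atR26 (μ := μ) bF mF]; exact pF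
  have hbF1 : bF.1 = nM := by rw [hbF]
  rw [hbF1] at oF'
  have pM := vM.real
  have pB := vB.real
  obtain ⟨w1o, w1m, w1p⟩ := indep26 (μ := μ) (by omega) (by omega) oF' vB.2.1 mF' vB.1 hc₁.le (show (0 : ℝ) ≤ 1 / 2 by norm_num) pF'
    (by linarith)
  have vM2 := vM.2.1
  rw [zero_add] at vM2
  obtain ⟨w2o, w2m, w2p⟩ := indep26 (μ := μ) (by omega) (by omega) vM2 w1o vM.1 w1m (show (0 : ℝ) ≤ 1 / 2 by norm_num) (by positivity)
    (by linarith) w1p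
  refine ⟨EM ∩ (atR26 bF SF ∩ EB), w2m, ?_, w2p, fun η hη => ?_⟩
  · have e1 : ((nM + (T + nB) : ℕ) : ℤ) = (nM : ℤ) + T + nB := by push_cast; ring
    rw [e1]
    exact w2o
  obtain ⟨ηM, ηF, ηB⟩ := hη
  rw [hEM] at ηM
  rw [hEB] at ηB
  obtain ⟨a1, a2, a3, a4, a5⟩ := ηM
  obtain ⟨b1, b2, b3, b4⟩ := ηB
  have cF := hSF bF η ηF
  rw [hbF] at cF
  have aa : ∀ i : Bool, η ∈ Far16 μ s c 1 3 nM nM P (0, u i) q := fun i => by
    cases i
    · exact a2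
    · exact a3
  have rr : ∀ i : Bool, η ∈ RK26 μ s 0 nM (u i - ⌊th * wd μ s T⌋) (u i + ⌊th * wd μ s T⌋) (cp26 (sl μ s) (u i) nM - ⌊th * wd μ s T⌋)
      (cp26 (sl μ s) (u i) nM + ⌊th * wd μ s T⌋) ε := fun i => by
    cases i
    · exact a4
    · exact a5
  have bb : ∀ i : Bool, η ∈ Far16 μ s c 1 3 nB nB P ((nM : ℤ) + T, cp26 (sl μ s) (u i) (nM + T)) q := fun i => by
    cases i
    · exact b2
    · exact b3
  have fM := fun i : Bool => fM26 (T := T) (qs := qs) (th := th) (ρ := r) hlM hq0 hqs hwM2 tM2 s1E hr2 hε i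
    (aa i) (hRK i).1 (hRK i).2.1 (rr i)
  have fB := fun i : Bool => fB26 (m := nB) (m1 := nM) (T := T) (K := K) (Kc := 1 / (4 * j2)) (K0 := K0) (J := 2 * j2) (b := b)
    (qs := qs) (qw := qw) hlB hlBw hq0 hqw0 hqs (by linarith) hwB2 s2w hKn hK0 s2E (by
      have : 1 / (4 * j2) * (2 * j2) = 1 / 2 := by field_simp; norm_num
      linarith) (by positivity) hKb hb i (hu i) (by
      have e1 : (((nM + T : ℕ)) : ℤ) = (nM : ℤ) + T := by push_cast; ring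
      rw [e1]
      exact bb i) (by
      have e1 : (((nM + T : ℕ)) : ℤ) = (nM : ℤ) + T := by push_cast; ring
      rw [e1]
      exact b4)
  have ec : ∀ i : Bool, cp26 (sl μ s) 0 nM + u i = cp26 (sl μ s) (u i) nM := fun i => cp26_add _ _ _
  have ed : ∀ i : Bool, cp26 (sl μ s) 0 nM + e i = cp26 (sl μ s) (u i) (nM + T) := fun i => by
    rw [he]
    unfold cp26
    ring
  have subF : ∀ {m : ℕ} {a z : ℤ}, 1 ≤ wd μ s m → η ∈ Far16 μ s c 1 3 m m P (a, z) q → η ∈ UE26 μ s c m m P (a, z) q := fun hm hη =>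
    far_sub26 (θ := 1) (K := 3) hq0 hm le_rfl hη
  refine ⟨subF (by linarith) a1, fun i => subF (by linarith) (aa i), fun i => (fM i).1, fun i => (fM i).2, fun i => ?_,
      fun x y hx hxy => ?_, fun i x y hx hy => ?_, ?_, cF.lev, subF (by linarith) b1, fun i => subF (by linarith) (bb i), fun i x hx => ?_,
      fun i x hx => ?_⟩
  · have g := cF.low i
    simp only [ec, ed] at g
    exact g
  · have g := cF.off x y hx fun j hj => hxy j (by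
      simp only [ec, ed] at hj
      exact hj)
    exact g
  · have g := cF.cel i x y (by simp only [ec]; exact hx) (by simp only [ed]; exact hy)
    simp only [ec, ed] at g
    exact g
  · have g := cF.dif
    simp only [ec, ed] at g
    exact g
  · have g := (fB i).1 x hx
    have e1 : (((nM + T : ℕ)) : ℤ) = (nM : ℤ) + T := by push_cast; ring
    rw [e1] at g
    exact g
  · have g := (fB i).2 x hx
    have e1 : (((nM + T : ℕ)) : ℤ) = (nM : ℤ) + T := by push_cast; ring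
    rw [e1] at g
    exact g

end

end Pool.Agent.W_7d29a1_C1.B26
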