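import Pool.Agent.W_7d29a1_C1.MeetT35
import Pool.Agent.W_7d29a1_C1.Quen24A
import Pool.Agent.W_7d29a1_C0.Rev39

/-!
[C1] MEET_d, PAIRS OF PINNED POLYMERS (helper35). The corners of a cell: `PQ` of helper24 (`Quen24A`) for the pairs `(0, x) → (n, y)`,
`(0, x') → (n, y')` with `|x' - x| ≤ d wd n`, `|y' - y| ≤ d wd n`: no common site in the rows `[0, a]` (`meetE`), no common site in the rows
`[b, n]` (`meetS`, by the reversal of time `Rev39`), mean quenched probability at most `e`. Forms in law: `meetE_law`, `meetS_law`.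
-/

set_option autoImplicit false

namespace Pool.Agent.W_7d29a1_C1.MeetU35

open MeasureTheory ProbabilityTheory Filter Topology Finset
open Pool.Agent.W_7d29a1_F Pool.Agent.W_7d29a1_h4g Pool.Agent.W_7d29a1_H Pool.Agent.W_7d29a1_HS
open Pool.Agent.W_7d29a1_X (pos pth Mt Mt_add pos_nonneg pos_le pos_inter)
open Pool.Agent.W_7d29a1_HZ (gp)
open Pool.Agent.W_7d29a1_g (rv)
open Pool.Agent.W_7d29a1_C0.Rev39
open Pool.Agent.W_7d29a1_C1.Arr89
open Pool.Agent.W_7d29a1_C1.Meet35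
open Pool.Agent.W_7d29a1_C1.MeetG35
open Pool.Agent.W_7d29a1_C1.MeetP35
open Pool.Agent.W_7d29a1_C1.Q24 (Gw NMt PQ)

noncomputable section

variable {μ : Measure ℝ} {s : ℝ}

/-! ### The first rows of a pinned polymer -/

/-- The law of the first `T₁` steps. -/
theorem marg (η : Env) (T₁ T₂ : ℕ) (x y : ℤ) (F : Finset ℕ → ℝ) :
    ∑ S ∈ (range (T₁ + T₂)).powerset, Gw μ s η (T₁ + T₂) x y S * F (S ∩ range T₁) =
      ∑ A ∈ (range T₁).powerset, Gg μ s η (gB μ s η T₁ T₂ y) T₁ x A * F A := by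
  have e0 : W μ s (sh (0, x) η) 0 (T₁ + T₂) (y - x) = Zt μ s η (gB μ s η T₁ T₂ y) T₁ 0 x := by
    rw [Zt_gB η T₁ T₂ y T₁ 0 (by omega), W_sh]
    congr 1
    refine Prod.ext ?_ ?_
    · show (0 : ℤ) + 0 = ((0 : ℕ) : ℤ)
      rfl
    · show (0 : ℤ) + x = x
      ring
  have h1 : ∑ S ∈ (range (T₁ + T₂)).powerset, Gw μ s η (T₁ + T₂) x y S * F (S ∩ range T₁) =
      Mt μ s (sh (0, x) η) (T₁ + T₂) (fun S => F (S ∩ range T₁)) (y - x) / W μ s (sh (0, x) η) 0 (T₁ + T₂) (y - x) := by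
    unfold Mt
    rw [sum_div]
    refine sum_congr rfl fun S _ => ?_
    unfold Pool.Agent.W_7d29a1_C1.Q24.Gw gp
    by_cases h : pos S (T₁ + T₂) = y - x
    · rw [if_pos h, if_pos h]
      ring
    · rw [if_neg h, if_neg h]
      ring
  rw [h1, Mt_add, e0, sum_div]
  unfold Mt
  simp only [sum_mul, sum_div]
  rw [sum_comm]
  refine sum_congr rfl fun A _ => ?_
  have h2 : ∀ z ∈ Icc (0 : ℤ) T₁, (if pos A T₁ = z then pth μ s (sh (0, x) η) T₁ A * F A else 0) *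
      W μ s (sh (0, x) η) ((T₁ : ℤ), z) T₂ (y - x - z) / Zt μ s η (gB μ s η T₁ T₂ y) T₁ 0 x =
      if pos A T₁ = z then Gg μ s η (gB μ s η T₁ T₂ y) T₁ x A * F A else 0 := by
    intro z _
    by_cases h3 : pos A T₁ = z
    · rw [if_pos h3, if_pos h3, W_sh]
      have e1 : ((((T₁ : ℤ), z) : Pt) + (0, x)) = ((T₁ : ℤ), x + pos A T₁) := by
        refine Prod.ext ?_ ?_
        · show (T₁ : ℤ) + 0 = T₁
          ring
        · show z + x = x + pos A T₁
          rw [h3]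
          ring
      rw [e1]
      unfold Gg gB
      have e2 : y - x - z = y - (x + pos A T₁) := by
        rw [h3]
        ring
      rw [e2]
      ring
    · rw [if_neg h3, if_neg h3, zero_mul, zero_div]
  rw [sum_congr rfl h2, sum_ite_eq, if_pos]
  rw [mem_Icc]
  exact ⟨pos_nonneg _ _, pos_le _ _⟩

theorem NMt_inter (T₁ : ℕ) (x x' : ℤ) (S S' : Finset ℕ) : NMt x x' 0 T₁ S S' ↔ NI T₁ x x' (S ∩ range T₁) (S' ∩ range T₁) := by
  unfold NMt NI
  have e : ∀ (S : Finset ℕ) (k : ℕ), k ≤ T₁ → ps (S ∩ range T₁) k = pos S k := fun S k hk => pos_inter S hk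
  constructor
  · intro h k hk
    rw [e S k hk, e S' k hk]
    exact h k (Nat.zero_le _) hk
  · intro h k _ hk
    rw [← e S k hk, ← e S' k hk]
    exact h k hk

/-- **The pair of pinned polymers is the pair of bridges.** -/
theorem PQ_eq (η : Env) (T₁ T₂ : ℕ) (x y x' y' : ℤ) :
    PQ μ s η (T₁ + T₂) x y x' y' (NMt x x' 0 T₁) = PBr μ s η T₁ T₂ x y x' y' := by
  classical
  unfold PQ
  have h1 : ∀ S ∈ (range (T₁ + T₂)).powerset, ∑ S' ∈ (range (T₁ + T₂)).powerset, Gw μ s η (T₁ + T₂) x y S * Gw μ s η (T₁ + T₂) x' y' S' *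
      (if NMt x x' 0 T₁ S S' then 1 else 0) = Gw μ s η (T₁ + T₂) x y S * ∑ A' ∈ (range T₁).powerset,
      Gg μ s η (gB μ s η T₁ T₂ y') T₁ x' A' * (if NI T₁ x x' (S ∩ range T₁) A' then 1 else 0) := by
    intro S _
    rw [← marg η T₁ T₂ x' y' fun A' => if NI T₁ x x' (S ∩ range T₁) A' then (1 : ℝ) else 0, mul_sum]
    refine sum_congr rfl fun S' _ => ?_
    simp only [NMt_inter]
    ring
  rw [sum_congr rfl h1]
  rw [marg η T₁ T₂ x y fun A => ∑ A' ∈ (range T₁).powerset,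
      Gg μ s η (gB μ s η T₁ T₂ y') T₁ x' A' * (if NI T₁ x x' A A' then (1 : ℝ) else 0)]
  unfold PBr PP
  rw [sum_filter, sum_product]
  refine sum_congr rfl fun A _ => ?_
  rw [mul_sum]
  refine sum_congr rfl fun A' _ => ?_
  by_cases h : NI T₁ x x' A A'
  · rw [if_pos h, if_pos h]
    ring
  · rw [if_neg h, if_neg h]
    ring

/-! ### The reversal of time -/

theorem rv_sh (η : Env) (n : ℕ) (x y : ℤ) : sh (0, -y) (rv ((n : ℤ), 0) η) = rv ((n : ℤ), y - x) (sh (0, x) η) := by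
  funext p
  show η (((n : ℤ), 0) - (p + (0, -y))) = η (((n : ℤ), y - x) - p + (0, x))
  congr 1
  refine Prod.ext ?_ ?_
  · show (n : ℤ) - (p.1 + 0) = (n : ℤ) - p.1 + 0
    ring
  · show 0 - (p.2 + -y) = y - x - p.2 + x
    ring

theorem Gw_rv (η : Env) (n : ℕ) (x y : ℤ) (S : Finset ℕ) :
    Gw μ s (rv ((n : ℤ), 0) η) n (-y) (-x) (rvS n S) = Gw μ s η n x y S := by
  unfold Pool.Agent.W_7d29a1_C1.Q24.Gw
  rw [show -x - -y = y - x by ring, rv_sh η n x y, gp_rv]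

/-- **The rows `[b, n]` are the rows `[0, n - b]` of the reversed pair.** -/
theorem PQ_rv (η : Env) {n b : ℕ} (hb : b ≤ n) (x y x' y' : ℤ) :
    PQ μ s η n x y x' y' (NMt x x' b n) = PQ μ s (rv ((n : ℤ), 0) η) n (-y) (-x) (-y') (-x') (NMt (-y) (-y') 0 (n - b)) := by
  classical
  unfold PQ
  rw [← sum_rvS n fun S => ∑ S' ∈ (range n).powerset, Gw μ s (rv ((n : ℤ), 0) η) n (-y) (-x) S *
    Gw μ s (rv ((n : ℤ), 0) η) n (-y') (-x') S' * (if NMt (-y) (-y') 0 (n - b) S S' then 1 else 0)]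
  refine sum_congr rfl fun S _ => ?_
  rw [← sum_rvS n fun S' => Gw μ s (rv ((n : ℤ), 0) η) n (-y) (-x) (rvS n S) *
    Gw μ s (rv ((n : ℤ), 0) η) n (-y') (-x') S' * (if NMt (-y) (-y') 0 (n - b) (rvS n S) S' then 1 else 0)]
  refine sum_congr rfl fun S' _ => ?_
  rw [Gw_rv, Gw_rv]
  by_cases h : x + pos S n = y
  · by_cases h' : x' + pos S' n = y'
    · congr 1
      have h2 : NMt x x' b n S S' ↔ NMt (-y) (-y') 0 (n - b) (rvS n S) (rvS n S') := by
        unfold NMt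
        constructor
        · intro h3 i _ hi h4
          rw [pos_rvS S (show i ≤ n by omega), pos_rvS S' (show i ≤ n by omega)] at h4
          exact h3 (n - i) (by omega) (by omega) (by omega)
        · intro h3 i hi1 hi2 h4
          refine h3 (n - i) (Nat.zero_le _) (by omega) ?_
          rw [pos_rvS S (show n - i ≤ n by omega), pos_rvS S' (show n - i ≤ n by omega)]
          have e : n - (n - i) = i := by omega
          rw [e]
          omega
      by_cases h3 : NMt x x' b n S S'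
      · rw [if_pos h3, if_pos (h2.1 h3)]
      · rw [if_neg h3, if_neg fun h4 => h3 (h2.2 h4)]
    · rw [Pool.Agent.W_7d29a1_C1.Q24.Gw_of_ne h', mul_zero, zero_mul, zero_mul]
  · rw [Pool.Agent.W_7d29a1_C1.Q24.Gw_of_ne h, zero_mul, zero_mul, zero_mul]

/-! ### The pairs meet -/

variable [IsProbabilityMeasure μ] {c C : ℝ} {n₀ : ℕ}

/-- **THE PAIRS MEET IN THE FIRST ROWS**: near starts, near ends. -/
theorem meetE (h : In μ s c C n₀) {K B e : ℝ} (hK : 0 ≤ K) (he : 0 < e) : ∃ d : ℝ, 0 < d ∧ ∃ n₁ : ℕ,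
    ∀ n a : ℕ, n₁ ≤ n → a ≤ n → (n : ℝ) ≤ B * a → ∀ x y x' y' : ℤ, |((x' - x : ℤ) : ℝ)| ≤ d * wd μ s n →
    |((y' - y : ℤ) : ℝ)| ≤ d * wd μ s n → |((y - x : ℤ) : ℝ) - sl μ s * n| ≤ K * wd μ s n →
    ∫ η, PQ μ s η n x y x' y' (NMt x x' 0 a) ∂(law μ) ≤ e := by
  obtain ⟨B', hB'⟩ : ∃ B' : ℝ, B' = max B 1 := ⟨_, rfl⟩
  have hB1 : 1 ≤ B' := by rw [hB']; exact le_max_right _ _
  have hBB : B ≤ B' := by rw [hB']; exact le_max_left _ _
  have hB0 : 0 < B' := by linarith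
  obtain ⟨d₀, hd₀, n1, hm⟩ := meet_c h (show 0 ≤ K * (2 * B') by positivity) hB0.le he
  refine ⟨d₀ / (2 * B'), by positivity, ⌈B' * (n1 + 1)⌉₊, fun n a hn ha hna x y x' y' hx hy hyx => ?_⟩
  have haR : (0 : ℝ) ≤ a := Nat.cast_nonneg a
  have hna' : (n : ℝ) ≤ B' * a := hna.trans (mul_le_mul_of_nonneg_right hBB haR)
  have hn2 : B' * (n1 + 1) ≤ n := Nat.ceil_le.1 hn
  have ha1 : n1 + 1 ≤ a := by
    have h1 : B' * ((n1 : ℝ) + 1) ≤ B' * a := hn2.trans hna'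
    have h2 := le_of_mul_le_mul_left h1 hB0
    exact_mod_cast h2
  have ha0 : 1 ≤ a := by omega
  have haR0 : (0 : ℝ) < a := by exact_mod_cast ha0
  have hwa := h.wd_pos ha0
  have hwn : wd μ s n ≤ 2 * B' * wd μ s a := by
    have h1 := wd_lower_one h ha0 ha
    have h2 : (a : ℝ) * wd μ s n ≤ a * (2 * B' * wd μ s a) := by
      calc (a : ℝ) * wd μ s n ≤ 2 * (n * wd μ s a) := h1
        _ ≤ 2 * ((B' * a) * wd μ s a) := by
            have := mul_le_mul_of_nonneg_right hna' hwa.le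
            linarith
        _ = a * (2 * B' * wd μ s a) := by ring
    exact le_of_mul_le_mul_left h2 haR0
  have hdw : d₀ / (2 * B') * wd μ s n ≤ d₀ * wd μ s a := by
    rw [div_mul_eq_mul_div, div_le_iff₀ (by positivity)]
    have := mul_le_mul_of_nonneg_left hwn hd₀.le
    linarith
  obtain ⟨T₂, hT₂⟩ : ∃ T₂ : ℕ, n = a + T₂ := ⟨n - a, by omega⟩
  subst hT₂
  have h1 := hm a T₂ (by omega) (by push_cast at hna'; linarith) x y x' y' (hx.trans hdw) (hy.trans hdw) (hyx.trans (by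
    have := mul_le_mul_of_nonneg_left hwn hK
    linarith))
  simp_rw [PQ_eq]
  exact h1

/-- **THE PAIRS MEET IN THE LAST ROWS**: near starts, near ends. -/
theorem meetS (h : In μ s c C n₀) {K B e : ℝ} (hK : 0 ≤ K) (he : 0 < e) : ∃ d : ℝ, 0 < d ∧ ∃ n₁ : ℕ,
    ∀ n b : ℕ, n₁ ≤ n → b ≤ n → (n : ℝ) ≤ B * ((n - b : ℕ) : ℝ) → ∀ x y x' y' : ℤ, |((x' - x : ℤ) : ℝ)| ≤ d * wd μ s n →
    |((y' - y : ℤ) : ℝ)| ≤ d * wd μ s n → |((y - x : ℤ) : ℝ) - sl μ s * n| ≤ K * wd μ s n →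
    ∫ η, PQ μ s η n x y x' y' (NMt x x' b n) ∂(law μ) ≤ e := by
  obtain ⟨d, hd, n1, hm⟩ := meetE (B := B) h hK he
  refine ⟨d, hd, n1, fun n b hn hb hnb x y x' y' hx hy hyx => ?_⟩
  have h1 := hm n (n - b) hn (Nat.sub_le _ _) hnb (-y) (-x) (-y') (-x') (by
    rw [show -y' - -y = -(y' - y) by ring, Int.cast_neg, abs_neg]
    exact hy) (by
    rw [show -x' - -x = -(x' - x) by ring, Int.cast_neg, abs_neg]
    exact hx) (by
    rw [show -x - -y = y - x by ring]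
    exact hyx)
  simp_rw [PQ_rv _ hb]
  have h2 := (mp_rv (μ := μ) ((n : ℤ), 0)).integral_comp (rvE ((n : ℤ), 0)).measurableEmbedding
    (fun η => PQ μ s η n (-y) (-x) (-y') (-x') (NMt (-y) (-y') 0 (n - b)))
  rw [h2]
  exact h1

end

end Pool.Agent.W_7d29a1_C1.MeetU35
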