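import Pool.Agent.W_7d29a1_C1.Quen24A
import Pool.Agent.W_7d29a1_C0.Pair86
import Pool.Agent.W_7d29a1_LB.Free82
import Pool.Agent.W_7d29a1_HZ.NS
import Pool.Agent.W_7d29a1_HZ.PB

/-!
[C1] MEET_d, LEAF M7 (helper24; row 683 (7b) of helper48). THE QUENCHED ZERO ONE LAW OF MEETING.
`ctr24`: one polymer with pinned ends is, off an event of probability `n ^ (-c')`, within `n ^ (-e) wd' n` of ONE path in all rows, up to the
quenched probability `exp (- n ^ c')`. `fr24`: two pinned polymers do not stay close without a common site (fresh tube). `quen24`: corners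
`x < x'`, `y < y'`: if the same end pair meets in `[0, a]` and the same start pair in `[b, n]` with quenched probability `3 / 4`, then the pair
`x -> y`, `x' -> y'` meets in `[a, b]` up to the quenched probability `exp (- n ^ c')`.
-/

set_option autoImplicit false

namespace Pool.Agent.W_7d29a1_C1.Q24

open MeasureTheory ProbabilityTheory Filter Finset
open Pool.Agent.W_7d29a1_F Pool.Agent.W_7d29a1_X Pool.Agent.W_7d29a1_H
open Pool.Agent.W_7d29a1_HS (In wd)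
open Pool.Agent.W_7d29a1_HZ (gp P1 P2 Ms OffRows wd' EE' NSp)
open Pool.Agent.W_7d29a1_C0.P86 (NoMeet)
open Pool.Agent.W_7d29a1_Z82 (rsh Gp Gp_nonneg measurable_Gp close)
open scoped ENNReal

noncomputable section

variable {μ : Measure ℝ} {s : ℝ}

/-! ### Sums over one and two paths, start at the origin -/

open Classical in
/-- The quenched probability of an event of one polymer from the origin to `(n, z)`. -/
def P0 (μ : Measure ℝ) (s : ℝ) (η : Env) (n : ℕ) (z : ℤ) (A : Finset ℕ → Prop) : ℝ :=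
  ∑ S ∈ (range n).powerset, gp μ s η n z S * (if A S then 1 else 0)

open Classical in
/-- The quenched probability of an event of two polymers from the origin to `(n, z)`. -/
def P00 (μ : Measure ℝ) (s : ℝ) (η : Env) (n : ℕ) (z : ℤ) (A : Finset ℕ → Finset ℕ → Prop) : ℝ :=
  ∑ S ∈ (range n).powerset, ∑ S' ∈ (range n).powerset, gp μ s η n z S * gp μ s η n z S' * (if A S S' then 1 else 0)

theorem PO_eq (η : Env) (n : ℕ) (x y : ℤ) (A : Finset ℕ → Prop) : PO μ s η n x y A = P0 μ s (sh (0, x) η) n (y - x) A := rfl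

theorem P0_or (η : Env) (n : ℕ) (z : ℤ) (A B : Finset ℕ → Prop) :
    P0 μ s η n z (fun S => A S ∨ B S) ≤ P0 μ s η n z A + P0 μ s η n z B := by
  classical
  unfold P0
  rw [← sum_add_distrib]
  refine sum_le_sum fun S _ => ?_
  rw [← mul_add]
  refine mul_le_mul_of_nonneg_left ?_ (Pool.Agent.W_7d29a1_HZ.gp_nonneg _ _ _ _)
  by_cases hA : A S
  · rw [if_pos (Or.inl hA), if_pos hA]
    linarith [ind_nonneg (A := B S)]
  · by_cases hB : B S
    · rw [if_pos (Or.inr hB), if_pos hB]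
      linarith [ind_nonneg (A := A S)]
    · rw [if_neg (by tauto), if_neg hA, if_neg hB]
      norm_num

theorem P0_mono {η : Env} {n : ℕ} {z : ℤ} {A B : Finset ℕ → Prop} (h : ∀ S, S ⊆ range n → pos S n = z → A S → B S) :
    P0 μ s η n z A ≤ P0 μ s η n z B := by
  classical
  unfold P0
  refine sum_le_sum fun S hS => ?_
  by_cases hy : pos S n = z
  · refine mul_le_mul_of_nonneg_left ?_ (Pool.Agent.W_7d29a1_HZ.gp_nonneg _ _ _ _)
    by_cases hA : A S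
    · rw [if_pos hA, if_pos (h S (mem_powerset.1 hS) hy hA)]
    · rw [if_neg hA]
      exact ind_nonneg
  · have e : gp μ s η n z S = 0 := by
      unfold gp
      rw [if_neg hy]
    rw [e, zero_mul, zero_mul]

theorem P0_compl (η : Env) {n : ℕ} {z : ℤ} (h0 : 0 ≤ z) (h1 : z ≤ n) (A : Finset ℕ → Prop) :
    P0 μ s η n z A + P0 μ s η n z (fun S => ¬ A S) = 1 := by
  classical
  rw [← Pool.Agent.W_7d29a1_HZ.gp_sum (μ := μ) (s := s) η h0 h1]
  unfold P0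
  rw [← sum_add_distrib]
  refine sum_congr rfl fun S _ => ?_
  by_cases hA : A S
  · rw [if_pos hA, if_neg (not_not.2 hA)]
    ring
  · rw [if_neg hA, if_pos hA]
    ring

/-- **Existence of the centre**: a good path which most of the paths meet. -/
theorem exists_center (η : Env) {n : ℕ} {z : ℤ} (h0 : 0 ≤ z) (h1 : z ≤ n) (Fl T : Finset ℕ → Prop) (M : Finset ℕ → Finset ℕ → Prop)
    {e₁ : ℝ} (hT : P0 μ s η n z T ≤ 1 / 4) (hF : P0 μ s η n z (fun S => ¬ Fl S) ≤ 1 / 4)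
    (hM : P00 μ s η n z (fun S S' => M S S' ∧ ¬ T S') ≤ e₁) :
    ∃ S₀, S₀ ⊆ range n ∧ pos S₀ n = z ∧ Fl S₀ ∧ P0 μ s η n z (fun S => M S S₀) ≤ 2 * e₁ := by
  classical
  by_contra hcon
  push Not at hcon
  have hg : ∀ S, 0 ≤ gp μ s η n z S := fun S => Pool.Agent.W_7d29a1_HZ.gp_nonneg _ _ _ _
  obtain ⟨G, hG⟩ : ∃ G : Finset ℕ → Prop, G = fun S => Fl S ∧ ¬ T S := ⟨_, rfl⟩
  obtain ⟨R, hR⟩ : ∃ R : Finset ℕ → Finset ℕ → Prop, R = fun S S' => M S S' ∧ ¬ T S' := ⟨_, rfl⟩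
  have hGd : ∀ S, G S → Fl S ∧ ¬ T S := fun S hS => by rwa [hG] at hS
  have hRd : ∀ S S', M S S' → G S' → R S S' := fun S S' hS hS' => by
    rw [hR]
    exact ⟨hS, (hGd S' hS').2⟩
  rw [← hR] at hM
  have k1 : P0 μ s η n z (fun S => ¬ G S) ≤ 1 / 2 := by
    have g1 : P0 μ s η n z (fun S => ¬ G S) ≤ P0 μ s η n z (fun S => T S ∨ ¬ Fl S) := P0_mono fun S _ _ h => by
      rw [hG] at h
      by_cases hT' : T S
      · exact Or.inl hT'
      · exact Or.inr fun hF' => h ⟨hF', hT'⟩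
    have g2 := P0_or (μ := μ) (s := s) η n z T (fun S => ¬ Fl S)
    linarith
  have k2 : 1 / 2 ≤ P0 μ s η n z G := by
    have := P0_compl (μ := μ) (s := s) η h0 h1 G
    linarith
  have k3 : ∑ S' ∈ (range n).powerset, gp μ s η n z S' * (if G S' then 1 else 0) * P0 μ s η n z (fun S => M S S') ≤ e₁ := by
    refine le_trans ?_ hM
    unfold P00 P0
    rw [sum_comm]
    refine sum_le_sum fun S' _ => ?_
    rw [mul_sum]
    refine sum_le_sum fun S _ => ?_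
    by_cases c1 : G S'
    · rw [if_pos c1, mul_one]
      by_cases c2 : M S S'
      · rw [if_pos c2, if_pos (hRd S S' c2 c1)]
        linarith [mul_comm (gp μ s η n z S) (gp μ s η n z S')]
      · rw [if_neg c2, mul_zero, mul_zero]
        exact mul_nonneg (mul_nonneg (hg _) (hg _)) ind_nonneg
    · rw [if_neg c1, mul_zero, zero_mul]
      exact mul_nonneg (mul_nonneg (hg _) (hg _)) ind_nonneg
  obtain ⟨S₁, hS₁, hp⟩ : ∃ S₁ ∈ (range n).powerset, 0 < gp μ s η n z S₁ * (if G S₁ then (1 : ℝ) else 0) := by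
    by_contra hno
    push Not at hno
    have : P0 μ s η n z G ≤ 0 := sum_nonpos hno
    linarith
  have key : ∀ S' ∈ (range n).powerset, gp μ s η n z S' * (if G S' then (1 : ℝ) else 0) * (2 * e₁) ≤
      gp μ s η n z S' * (if G S' then 1 else 0) * P0 μ s η n z (fun S => M S S') := by
    intro S' hS'
    by_cases hz : pos S' n = z
    · by_cases c1 : G S'
      · exact mul_le_mul_of_nonneg_left (hcon S' (mem_powerset.1 hS') hz (hGd _ c1).1).le (mul_nonneg (hg _) ind_nonneg)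
      · rw [if_neg c1, mul_zero, zero_mul, zero_mul]
    · have e : gp μ s η n z S' = 0 := by
        unfold gp
        rw [if_neg hz]
      rw [e, zero_mul, zero_mul, zero_mul]
  have key1 : gp μ s η n z S₁ * (if G S₁ then (1 : ℝ) else 0) * (2 * e₁) <
      gp μ s η n z S₁ * (if G S₁ then 1 else 0) * P0 μ s η n z (fun S => M S S₁) := by
    have c1 : G S₁ := by
      by_contra c1
      rw [if_neg c1, mul_zero] at hp
      exact lt_irrefl _ hp
    have hz : pos S₁ n = z := by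
      by_contra hz
      have e : gp μ s η n z S₁ = 0 := by
        unfold gp
        rw [if_neg hz]
      rw [e, zero_mul] at hp
      exact lt_irrefl _ hp
    exact mul_lt_mul_of_pos_left (hcon S₁ (mem_powerset.1 hS₁) hz (hGd _ c1).1) hp
  have k4 := sum_lt_sum key ⟨S₁, hS₁, key1⟩
  have k5 : ∑ S' ∈ (range n).powerset, gp μ s η n z S' * (if G S' then (1 : ℝ) else 0) * (2 * e₁) =
      P0 μ s η n z G * (2 * e₁) := by
    rw [← sum_mul]
    rfl
  have e0 : 0 ≤ e₁ := by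
    refine le_trans ?_ hM
    exact sum_nonneg fun S _ => sum_nonneg fun S' _ => mul_nonneg (mul_nonneg (hg _) (hg _)) ind_nonneg
  rw [k5] at k4
  nlinarith

/-! ### The windows -/

/-- Two flat paths with the same ends which meet in every window are close. -/
theorem close_of_meet {n t : ℕ} (ht : 1 ≤ t) {ε D : ℝ} {z : ℤ} {S S₀ : Finset ℕ} (hS : pos S n = z) (hS₀ : pos S₀ n = z)
    (hF : NSp μ s n n ε S) (hF₀ : NSp μ s n n ε S₀) (hD0 : 0 ≤ D)
    (hD : ∀ m : ℕ, 1 ≤ m → m ≤ 3 * t → m ≤ n → 2 * ((n : ℝ) ^ ε * wd' μ s m) ≤ D)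
    (hM : ∀ k : ℕ, k * t + 2 * t ≤ n → ¬ NoMeet (k * t) (k * t + t / 4) S S₀) : Nr (pos S₀) D 0 n (pos S) := by
  intro i _ hi
  obtain ⟨j, hj1, hj2, hj3, hj4⟩ : ∃ j : ℕ, j ≤ n ∧ pos S j = pos S₀ j ∧ i ≤ j + 3 * t ∧ j ≤ i + 3 * t := by
    have h1 : i / t * t ≤ i := Nat.div_mul_le_self i t
    have h2 : i < i / t * t + t := by
      have := Nat.lt_div_mul_add (show 0 < t by omega) (a := i)
      exact this
    by_cases hk : i / t * t + 2 * t ≤ n
    · have h3 := hM (i / t) hk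
      unfold NoMeet at h3
      push Not at h3
      obtain ⟨j, g1, g2, g3⟩ := h3
      exact ⟨j, by omega, g3, by omega, by omega⟩
    · exact ⟨n, le_rfl, by rw [hS, hS₀], by omega, by omega⟩
  rcases lt_trichotomy i j with h | h | h
  · have e : i + (j - i) = j := by omega
    have g1 := hF i (j - i) (by omega) (by omega)
    have g2 := hF₀ i (j - i) (by omega) (by omega)
    have g3 := hD (j - i) (by omega) (by omega) (by omega)
    rw [e, abs_le] at g1 g2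
    rw [← hj2] at g2
    rw [abs_le]
    push_cast at g1 g2 ⊢
    constructor <;> linarith [g1.1, g1.2, g2.1, g2.2]
  · rw [h, hj2, sub_self]
    simpa using hD0
  · have e : j + (i - j) = i := by omega
    have g1 := hF j (i - j) (by omega) (by omega)
    have g2 := hF₀ j (i - j) (by omega) (by omega)
    have g3 := hD (i - j) (by omega) (by omega) (by omega)
    rw [e, abs_le] at g1 g2
    rw [← hj2] at g2
    rw [abs_le]
    push_cast at g1 g2 ⊢
    constructor <;> linarith [g1.1, g1.2, g2.1, g2.2]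

/-! ### Annealed and quenched -/

theorem P0_nonneg (η : Env) (n : ℕ) (z : ℤ) (A : Finset ℕ → Prop) : 0 ≤ P0 μ s η n z A := by
  classical
  exact sum_nonneg fun S _ => mul_nonneg (Pool.Agent.W_7d29a1_HZ.gp_nonneg _ _ _ _) ind_nonneg

theorem P1_P0 [IsProbabilityMeasure μ] {n : ℕ} {z : ℤ} {A : Env → Finset ℕ → Prop} (hA : Ms A) :
    P1 μ s n z A = ∫⁻ η, ENNReal.ofReal (P0 μ s η n z (A η)) ∂law μ := by
  classical
  rw [Pool.Agent.W_7d29a1_HZ.P1_eq]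
  have h1 : ∀ η, ENNReal.ofReal (P0 μ s η n z (A η)) = ∑ S ∈ (range n).powerset,
      ({η | A η S} : Set Env).indicator (fun η => ENNReal.ofReal (gp μ s η n z S)) η := by
    intro η
    unfold P0
    rw [ENNReal.ofReal_sum_of_nonneg fun S _ => mul_nonneg (Pool.Agent.W_7d29a1_HZ.gp_nonneg _ _ _ _) ind_nonneg]
    refine sum_congr rfl fun S _ => ?_
    by_cases hc : A η S
    · rw [if_pos hc, mul_one, Set.indicator_of_mem (show η ∈ {η | A η S} from hc)]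
    · rw [if_neg hc, mul_zero, ENNReal.ofReal_zero, Set.indicator_of_notMem (show η ∉ {η | A η S} from hc)]
  rw [lintegral_congr h1, lintegral_finsetSum _ fun S _ => ((Pool.Agent.W_7d29a1_HZ.measurable_gp n z S).ennreal_ofReal).indicator (hA S)]
  exact sum_congr rfl fun S _ => (lintegral_indicator (hA S) _).symm

theorem shr_zero' (η : Env) : Pool.Agent.W_7d29a1_HZ.shr 0 (fun _ => 0) η = η := Pool.Agent.W_7d29a1_C0.P86.shr_zero 0 η

theorem P2_P00 [IsProbabilityMeasure μ] {n : ℕ} {z : ℤ} {A : Env → Finset ℕ → Finset ℕ → Prop}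
    (hA : ∀ S S', MeasurableSet {η | A η S S'}) :
    P2 μ s n z (fun _ => 0) A = ∫⁻ η, ENNReal.ofReal (P00 μ s η n z (A η)) ∂law μ := by
  classical
  rw [Pool.Agent.W_7d29a1_HZ.P2_eq]
  have h1 : ∀ η, ENNReal.ofReal (P00 μ s η n z (A η)) = ∑ S ∈ (range n).powerset, ∑ S' ∈ (range n).powerset,
      ({η | A η S S'} : Set Env).indicator (fun η => ENNReal.ofReal (gp μ s η n z S * gp μ s η n z S')) η := by
    intro η
    unfold P00
    have hnn : ∀ S S' : Finset ℕ, 0 ≤ gp μ s η n z S * gp μ s η n z S' * (if A η S S' then (1 : ℝ) else 0) := fun S S' =>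
      mul_nonneg (mul_nonneg (Pool.Agent.W_7d29a1_HZ.gp_nonneg _ _ _ _) (Pool.Agent.W_7d29a1_HZ.gp_nonneg _ _ _ _)) ind_nonneg
    rw [ENNReal.ofReal_sum_of_nonneg fun S _ => sum_nonneg fun S' _ => hnn S S']
    refine sum_congr rfl fun S _ => ?_
    rw [ENNReal.ofReal_sum_of_nonneg fun S' _ => hnn S S']
    refine sum_congr rfl fun S' _ => ?_
    by_cases hc : A η S S'
    · rw [if_pos hc, mul_one, Set.indicator_of_mem (show η ∈ {η | A η S S'} from hc)]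
    · rw [if_neg hc, mul_zero, ENNReal.ofReal_zero, Set.indicator_of_notMem (show η ∉ {η | A η S S'} from hc)]
  have hm : ∀ S S' : Finset ℕ, Measurable fun η : Env => ENNReal.ofReal (gp μ s η n z S * gp μ s η n z S') := fun S S' =>
    ((Pool.Agent.W_7d29a1_HZ.measurable_gp n z S).mul (Pool.Agent.W_7d29a1_HZ.measurable_gp n z S')).ennreal_ofReal
  rw [lintegral_congr h1, lintegral_finsetSum _ fun S _ => Finset.measurable_sum _ fun S' _ => (hm S S').indicator (hA S S')]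
  refine sum_congr rfl fun S _ => ?_
  rw [lintegral_finsetSum _ fun S' _ => (hm S S').indicator (hA S S')]
  refine sum_congr rfl fun S' _ => ?_
  rw [lintegral_indicator (hA S S')]
  refine lintegral_congr fun η => ?_
  rw [shr_zero']

theorem markov {Q : Env → ℝ} (hm : Measurable Q) {a m : ℝ} (ha : 0 < a)
    (hI : ∫⁻ η, ENNReal.ofReal (Q η) ∂(law μ) ≤ ENNReal.ofReal m) : law μ {η | a < Q η} ≤ ENNReal.ofReal (m / a) := by
  have h1 := mul_meas_ge_le_lintegral₀ (μ := law μ) hm.ennreal_ofReal.aemeasurable (ENNReal.ofReal a)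
  have h2 : law μ {η | a < Q η} ≤ law μ {η | ENNReal.ofReal a ≤ ENNReal.ofReal (Q η)} :=
    measure_mono fun η hη => ENNReal.ofReal_le_ofReal (le_of_lt hη)
  have h4 : ENNReal.ofReal a ≠ 0 := by
    rw [ne_eq, ENNReal.ofReal_eq_zero, not_le]
    exact ha
  rw [ENNReal.ofReal_div_of_pos ha]
  refine h2.trans ?_
  rw [ENNReal.le_div_iff_mul_le (Or.inl h4) (Or.inl ENNReal.ofReal_ne_top), mul_comm]
  exact h1.trans hI

theorem measurable_P0 (n : ℕ) (z : ℤ) {A : Env → Finset ℕ → Prop} (hA : Ms A) : Measurable fun η : Env => P0 μ s η n z (A η) := by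
  classical
  unfold P0
  exact Finset.measurable_sum _ fun S _ => (Pool.Agent.W_7d29a1_HZ.measurable_gp n z S).mul
    (Measurable.ite (hA S) measurable_const measurable_const)

theorem measurable_P00 (n : ℕ) (z : ℤ) {A : Env → Finset ℕ → Finset ℕ → Prop} (hA : ∀ S S', MeasurableSet {η | A η S S'}) :
    Measurable fun η : Env => P00 μ s η n z (A η) := by
  classical
  unfold P00
  exact Finset.measurable_sum _ fun S _ => Finset.measurable_sum _ fun S' _ =>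
    ((Pool.Agent.W_7d29a1_HZ.measurable_gp n z S).mul (Pool.Agent.W_7d29a1_HZ.measurable_gp n z S')).mul
      (Measurable.ite (hA S S') measurable_const measurable_const)

/-! ### One polymer -/

theorem evp {e : ℝ} (he : 0 < e) (B : ℝ) : ∀ᶠ n : ℕ in atTop, B ≤ (n : ℝ) ^ e :=
  ((tendsto_rpow_atTop he).comp tendsto_natCast_atTop_atTop).eventually_ge_atTop B

theorem evx {e : ℝ} (he : 0 < e) (B k : ℝ) : ∀ᶠ n : ℕ in atTop, B * (n : ℝ) ^ k ≤ Real.exp ((n : ℝ) ^ e) := by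
  have t1 := tendsto_natCast_atTop_atTop (R := ℝ)
  have h1 : Tendsto (fun n : ℕ => Real.exp ((n : ℝ) ^ e) / ((n : ℝ) ^ e) ^ (k / e)) atTop atTop :=
    (tendsto_exp_div_rpow_atTop (k / e)).comp ((tendsto_rpow_atTop he).comp t1)
  filter_upwards [h1.eventually_ge_atTop B, eventually_ge_atTop 1] with n hn hn1
  have hn0 : (0 : ℝ) < n := by exact_mod_cast hn1
  have e1 : ((n : ℝ) ^ e) ^ (k / e) = (n : ℝ) ^ k := by
    rw [← Real.rpow_mul hn0.le]
    congr 1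
    field_simp
  rw [e1, le_div_iff₀ (Real.rpow_pos_of_pos hn0 _)] at hn
  exact hn

theorem rp_le {n : ℝ} (hn : 1 ≤ n) {a b : ℝ} (h : a ≤ b) : n ^ a ≤ n ^ b := Real.rpow_le_rpow_of_exponent_le hn h

/-- The numbers of `ctr24`: the three bounds of Markov. -/
theorem num24 {κ c₁ c₂ c' KE : ℝ} (hκ : 0 < κ) (hκ1 : κ ≤ 1 / 8) (hc' : 0 < c') (h1 : c' ≤ κ) (h2 : 2 * c' ≤ c₁) (h3 : 2 * c' ≤ c₂)
    (hKE : 1 ≤ KE) : ∃ n₁ : ℕ, ∀ n : ℕ, n₁ ≤ n → ∀ B E : ℝ, 0 ≤ B → B ≤ 3 * (n : ℝ) ^ κ → (n : ℝ) ^ (7 * κ) ≤ 2 * KE * E → 0 < E →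
    B * ((n : ℝ) ^ κ * E⁻¹ + Real.exp (-(n : ℝ) ^ c₁)) / (1 / 4) + B * Real.exp (-(n : ℝ) ^ c₁) / (Real.exp (-(n : ℝ) ^ c') / 4) +
      Real.exp (-(n : ℝ) ^ c₂) / (Real.exp (-(n : ℝ) ^ c') / 4) ≤ (n : ℝ) ^ (-c') := by
  have hev := (evp hκ (96 * KE)).and ((evp hc' 2).and ((evx hc' 48 1).and (eventually_ge_atTop 1)))
  obtain ⟨n₁, hn₁⟩ := eventually_atTop.1 hev
  refine ⟨n₁, fun n hn B E hB0 hB hE hE0 => ?_⟩
  obtain ⟨g1, g2, g3, g4⟩ := hn₁ n hn
  have hn1 : (1 : ℝ) ≤ n := by exact_mod_cast g4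
  have hn0 : (0 : ℝ) < n := by linarith
  obtain ⟨v, hv⟩ : ∃ v : ℝ, v = (n : ℝ) ^ κ := ⟨_, rfl⟩
  obtain ⟨u, hu⟩ : ∃ u : ℝ, u = (n : ℝ) ^ c' := ⟨_, rfl⟩
  have hv0 : 0 < v := by rw [hv]; positivity
  have hu0 : 0 < u := by rw [hu]; positivity
  have huv : u ≤ v := by rw [hu, hv]; exact rp_le hn1 h1
  have hv7 : (n : ℝ) ^ (7 * κ) = v ^ 7 := by
    rw [hv, ← Real.rpow_natCast, ← Real.rpow_mul hn0.le]
    congr 1
    push_cast
    ring
  have hun : (n : ℝ) ^ (-c') = u⁻¹ := by rw [hu, Real.rpow_neg hn0.le]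
  have hvn : v ≤ n := by
    rw [hv]
    calc (n : ℝ) ^ κ ≤ (n : ℝ) ^ (1 : ℝ) := rp_le hn1 (by linarith)
      _ = n := Real.rpow_one _
  have g3' : 48 * (n : ℝ) ≤ Real.exp u := by
    rw [Real.rpow_one] at g3
    rw [hu]
    exact g3
  rw [hv7] at hE
  rw [← hv] at g1 hB ⊢
  rw [← hu] at g2 ⊢
  rw [hun]
  -- the exponentials
  have hu2 : ∀ c₃ : ℝ, 2 * c' ≤ c₃ → Real.exp (-(n : ℝ) ^ c₃) ≤ Real.exp (-u) * Real.exp (-u) := by
    intro c₃ hc₃
    rw [← Real.exp_add]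
    refine Real.exp_le_exp.2 ?_
    have e1 : u * u ≤ (n : ℝ) ^ c₃ := by
      rw [hu, ← Real.rpow_add hn0]
      exact rp_le hn1 (by linarith)
    nlinarith
  obtain ⟨p, hp⟩ : ∃ p : ℝ, p = Real.exp (-u) := ⟨_, rfl⟩
  have hp0 : 0 < p := by rw [hp]; exact Real.exp_pos _
  have hpn : 48 * n * p ≤ 1 := by
    rw [hp, Real.exp_neg, ← div_eq_mul_inv, div_le_one (Real.exp_pos _)]
    exact g3'
  have hE1 := hu2 c₁ h2
  have hE2 := hu2 c₂ h3
  rw [← hp] at hE1 hE2 ⊢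
  have hp1 : p ≤ 1 := by
    rw [hp]
    exact Real.exp_le_one_iff.2 (by linarith)
  have hX0 := Real.exp_pos (-(n : ℝ) ^ c₁)
  have hY0 := Real.exp_pos (-(n : ℝ) ^ c₂)
  -- the first term
  have t1 : B * (v * E⁻¹) ≤ 1 / (16 * u) := by
    have e1 : B * (v * E⁻¹) ≤ 3 * v * (v * E⁻¹) := mul_le_mul_of_nonneg_right hB (by positivity)
    have e2 : 3 * v * (v * E⁻¹) = 3 * v ^ 2 / E := by
      field_simp
    have e3 : 3 * v ^ 2 / E ≤ 6 * KE / v ^ 5 := by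
      rw [div_le_div_iff₀ hE0 (by positivity)]
      nlinarith [sq_nonneg v, pow_pos hv0 7]
    have e4 : 6 * KE / v ^ 5 ≤ 1 / (16 * u) := by
      rw [div_le_div_iff₀ (by positivity) (by positivity)]
      have f1 : 96 * KE * u ≤ v * v := mul_le_mul g1 huv hu0.le hv0.le
      have hv1 : 1 ≤ v := by linarith
      have f2 : v * v ≤ v ^ 5 := by
        have : v * v = v ^ 2 := by ring
        rw [this]
        exact pow_le_pow_right₀ hv1 (by norm_num)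
      linarith
    linarith
  have t2 : B * Real.exp (-(n : ℝ) ^ c₁) ≤ p / (16 * u) := by
    have e1 : B * Real.exp (-(n : ℝ) ^ c₁) ≤ 3 * v * (p * p) := mul_le_mul hB hE1 hX0.le (by positivity)
    have e2 : 3 * v * p ≤ 1 / (16 * u) := by
      rw [le_div_iff₀ (by positivity)]
      have : v * u ≤ n := by
        have hh : v * u ≤ v * v := mul_le_mul_of_nonneg_left huv hv0.le
        have : v * v ≤ n := by
          rw [hv, ← Real.rpow_add hn0]
          calc (n : ℝ) ^ (κ + κ) ≤ (n : ℝ) ^ (1 : ℝ) := rp_le hn1 (by linarith)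
            _ = n := Real.rpow_one _
        linarith
      calc 3 * v * p * (16 * u) = 48 * (v * u) * p := by ring
        _ ≤ 48 * n * p := by gcongr
        _ ≤ 1 := hpn
    calc B * Real.exp (-(n : ℝ) ^ c₁) ≤ 3 * v * (p * p) := e1
      _ = (3 * v * p) * p := by ring
      _ ≤ 1 / (16 * u) * p := mul_le_mul_of_nonneg_right e2 hp0.le
      _ = p / (16 * u) := by ring
  have t3 : Real.exp (-(n : ℝ) ^ c₂) ≤ p / (16 * u) := by
    have e2 : p ≤ 1 / (16 * u) := by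
      rw [le_div_iff₀ (by positivity)]
      have : u ≤ n := huv.trans hvn
      calc p * (16 * u) = 16 * u * p := by ring
        _ ≤ 48 * n * p := by gcongr; norm_num
        _ ≤ 1 := hpn
    calc Real.exp (-(n : ℝ) ^ c₂) ≤ p * p := hE2
      _ ≤ 1 / (16 * u) * p := mul_le_mul_of_nonneg_right e2 hp0.le
      _ = p / (16 * u) := by ring
  have s1 : B * (v * E⁻¹ + Real.exp (-(n : ℝ) ^ c₁)) / (1 / 4) ≤ 1 / (2 * u) := by
    have e1 : B * (v * E⁻¹ + Real.exp (-(n : ℝ) ^ c₁)) ≤ 1 / (16 * u) + 1 / (16 * u) := by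
      rw [mul_add]
      have : p / (16 * u) ≤ 1 / (16 * u) := div_le_div_of_nonneg_right hp1 (by positivity)
      linarith
    calc B * (v * E⁻¹ + Real.exp (-(n : ℝ) ^ c₁)) / (1 / 4) ≤ (1 / (16 * u) + 1 / (16 * u)) / (1 / 4) :=
          div_le_div_of_nonneg_right e1 (by norm_num)
      _ = 1 / (2 * u) := by
        field_simp
        norm_num
  have s2 : B * Real.exp (-(n : ℝ) ^ c₁) / (p / 4) ≤ 1 / (4 * u) := by
    rw [div_le_iff₀ (by positivity)]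
    refine t2.trans (le_of_eq ?_)
    field_simp
    norm_num
  have s3 : Real.exp (-(n : ℝ) ^ c₂) / (p / 4) ≤ 1 / (4 * u) := by
    rw [div_le_iff₀ (by positivity)]
    refine t3.trans (le_of_eq ?_)
    field_simp
    norm_num
  have s4 : 1 / (2 * u) + 1 / (4 * u) + 1 / (4 * u) = u⁻¹ := by
    field_simp
    norm_num
  linarith

variable [IsProbabilityMeasure μ] {c C : ℝ} {n₀ : ℕ}

/-- **THE CENTRE OF ONE POLYMER.** -/
theorem ctr24 (h : In μ s c C n₀) : ∃ e : ℝ, 0 < e ∧ e ≤ 1 ∧ ∃ δ c' : ℝ, 0 < δ ∧ 0 < c' ∧ ∃ n₁ : ℕ, ∀ n : ℕ, n₁ ≤ n →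
    ∀ z : ℤ, 0 ≤ z → z ≤ n → |(z : ℝ) - sl μ s * n| ≤ (n : ℝ) ^ δ * wd' μ s n →
    law μ {η | ¬ ∃ Z : ℕ → ℤ, P0 μ s η n z (fun S => ¬ Nr Z ((n : ℝ) ^ (-e) * wd' μ s n) 0 n (pos S)) ≤ Real.exp (-(n : ℝ) ^ c')} ≤
      ENNReal.ofReal ((n : ℝ) ^ (-c')) := by
  classical
  obtain ⟨aw, Kw, haw, haw1, hKw, hwd⟩ := Pool.Agent.W_7d29a1_HZ.wd'_pow h
  obtain ⟨aE, KE, haE, haE1, hKE, hEE⟩ := Pool.Agent.W_7d29a1_HZ.EE'_pow h
  obtain ⟨κ, hκ⟩ : ∃ κ : ℝ, κ = aE / 8 := ⟨_, rfl⟩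
  have hκ0 : 0 < κ := by rw [hκ]; positivity
  have hκ1 : κ ≤ 1 / 8 := by rw [hκ]; linarith
  obtain ⟨ε, hε⟩ : ∃ ε : ℝ, ε = aw * κ / 4 := ⟨_, rfl⟩
  have hε0 : 0 < ε := by rw [hε]; positivity
  obtain ⟨δ₁, c₁, hδ₁, hc₁, L₁, hP⟩ := Pool.Agent.W_7d29a1_C0.P86.pair_prod h κ (1 / 2) hκ0 (by norm_num)
  obtain ⟨δ₂, c₂, hδ₂, hc₂, L₂, hN⟩ := Pool.Agent.W_7d29a1_HZ.ns h ε hε0
  obtain ⟨c', hc'⟩ : ∃ c' : ℝ, c' = min κ (min c₁ c₂) / 2 := ⟨_, rfl⟩
  have hm0 : 0 < min κ (min c₁ c₂) := lt_min hκ0 (lt_min hc₁ hc₂)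
  have hc'0 : 0 < c' := by rw [hc']; positivity
  have hcκ : c' ≤ κ := by
    have : min κ (min c₁ c₂) ≤ κ := min_le_left _ _
    rw [hc']
    linarith
  have hcc1 : 2 * c' ≤ c₁ := by
    have : min κ (min c₁ c₂) ≤ c₁ := (min_le_right _ _).trans (min_le_left _ _)
    rw [hc']
    linarith
  have hcc2 : 2 * c' ≤ c₂ := by
    have : min κ (min c₁ c₂) ≤ c₂ := (min_le_right _ _).trans (min_le_right _ _)
    rw [hc']
    linarith
  obtain ⟨L₃, hnum⟩ := num24 (κ := κ) (c₁ := c₁) (c₂ := c₂) (c' := c') (KE := KE) hκ0 hκ1 hc'0 hcκ hcc1 hcc2 hKE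
  have hev := (evp (show 0 < 1 - κ by linarith) 2).and ((evp (show 0 < 1 / 2 - κ by linarith) 2).and
    ((evp (show 0 < aw * κ / 4 by positivity) (6 * Kw)).and ((evp hκ0 2).and (eventually_ge_atTop (max (max L₁ L₂) (max L₃ 1))))))
  obtain ⟨L₄, hL₄⟩ := eventually_atTop.1 hev
  refine ⟨aw * κ / 2, by positivity, by nlinarith, min δ₁ δ₂, c', lt_min hδ₁ hδ₂, hc'0, L₄, fun n hn z hz0 hzn hzc => ?_⟩
  obtain ⟨g1, g2, g3, g4, g5⟩ := hL₄ n hn
  have hn1 : L₁ ≤ n := (le_max_left _ _).trans ((le_max_left _ _).trans g5)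
  have hn2 : L₂ ≤ n := (le_max_right _ _).trans ((le_max_left _ _).trans g5)
  have hn3 : L₃ ≤ n := (le_max_left _ _).trans ((le_max_right _ _).trans g5)
  have hn4 : 1 ≤ n := (le_max_right _ _).trans ((le_max_right _ _).trans g5)
  have hnR : (1 : ℝ) ≤ n := by exact_mod_cast hn4
  have hnR0 : (0 : ℝ) < n := by linarith
  have hwd0 : ∀ m, 0 < wd' μ s m := fun m => lt_of_lt_of_le zero_lt_one (le_max_left _ _)
  have hEE1 : ∀ m, 1 ≤ EE' μ s m := fun m => le_max_left _ _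
  have hcone : ∀ δ', min δ₁ δ₂ ≤ δ' → |(z : ℝ) - sl μ s * n| ≤ (n : ℝ) ^ δ' * wd' μ s n := fun δ' hδ' =>
    hzc.trans (mul_le_mul_of_nonneg_right (rp_le hnR hδ') (hwd0 n).le)
  -- the windows
  obtain ⟨t, ht⟩ : ∃ t : ℕ, t = ⌊(n : ℝ) ^ (1 - κ)⌋₊ := ⟨_, rfl⟩
  have ht1 : (t : ℝ) ≤ (n : ℝ) ^ (1 - κ) := by rw [ht]; exact Nat.floor_le (by positivity)
  have ht2 : (n : ℝ) ^ (1 - κ) ≤ 2 * t := by
    have h1 := Nat.lt_floor_add_one ((n : ℝ) ^ (1 - κ))
    rw [← ht] at h1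
    have h2 : (1 : ℝ) ≤ t := by
      have h3 : (1 : ℝ) < t + 1 := by linarith
      have h4 : 0 < t := by
        by_contra h5
        have h6 : t = 0 := by omega
        rw [h6] at h3
        norm_num at h3
      exact_mod_cast h4
    linarith
  have ht0 : (0 : ℝ) < t := by
    have : (0 : ℝ) < (n : ℝ) ^ (1 - κ) := by positivity
    linarith
  have ht3 : 1 ≤ t := by exact_mod_cast (Nat.cast_pos.1 ht0)
  have hthalf : (n : ℝ) ^ (1 / 2 : ℝ) ≤ t := by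
    have e1 : (n : ℝ) ^ (1 - κ) = (n : ℝ) ^ (1 / 2 : ℝ) * (n : ℝ) ^ (1 / 2 - κ) := by
      rw [← Real.rpow_add hnR0]
      congr 1
      ring
    have e2 : (0 : ℝ) < (n : ℝ) ^ (1 / 2 : ℝ) := by positivity
    nlinarith
  have hNT : ∀ k : ℕ, ∃ NT : Env → Finset ℕ → Prop, k * t + 2 * t ≤ n → Ms NT ∧
      P2 μ s n z (fun _ => 0) (fun η S S' => (NoMeet (k * t) (k * t + t / 4) S S' ∨ NoMeet (k * t + t - t / 4) (k * t + t) S S') ∧
        ¬ NT η S') ≤ ENNReal.ofReal (Real.exp (-(n : ℝ) ^ c₁)) ∧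
      P1 μ s n z NT ≤ ENNReal.ofReal ((n : ℝ) ^ κ * (EE' μ s t)⁻¹) + ENNReal.ofReal (Real.exp (-(n : ℝ) ^ c₁)) := by
    intro k
    by_cases hk : k * t + 2 * t ≤ n
    · obtain ⟨NT, q1, q2, q3⟩ := hP n hn1 n t (by omega) le_rfl hthalf (k * t) hk z hz0 hzn (hcone _ (min_le_left _ _))
      refine ⟨NT, fun _ => ⟨q1, q2, ?_⟩⟩
      have q4 := q3 (fun _ _ => True) (fun S => by simp) (fun _ _ _ _ => Iff.rfl)
      have q5 : P1 μ s n z NT ≤ P1 μ s n z (fun η S => True ∧ NT η S) :=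
        Pool.Agent.W_7d29a1_HZ.P1_mono fun η S _ hS => ⟨trivial, hS⟩
      refine q5.trans (q4.trans (add_le_add ?_ le_rfl))
      calc _ ≤ ENNReal.ofReal ((n : ℝ) ^ κ * (EE' μ s t)⁻¹) * 1 := mul_le_mul' le_rfl (Pool.Agent.W_7d29a1_HZ.P1_le_one hz0 hzn _)
        _ = _ := mul_one _
    · exact ⟨fun _ _ => False, fun h => absurd h hk⟩
  choose NT hNT using hNT
  obtain ⟨K, hK⟩ : ∃ K : Finset ℕ, K = (range (n / t + 1)).filter fun k => k * t + 2 * t ≤ n := ⟨_, rfl⟩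
  have hKm : ∀ k, k ∈ K ↔ k * t + 2 * t ≤ n := by
    intro k
    rw [hK, mem_filter, mem_range]
    refine ⟨fun hk => hk.2, fun hk => ⟨?_, hk⟩⟩
    have : k ≤ n / t := (Nat.le_div_iff_mul_le (by omega)).2 (by omega)
    omega
  have hKc : (K.card : ℝ) ≤ 3 * (n : ℝ) ^ κ := by
    have h1 : K.card ≤ n / t + 1 := by
      rw [hK]
      refine (card_filter_le _ _).trans ?_
      rw [card_range]
    have h2 : ((n / t : ℕ) : ℝ) ≤ (n : ℝ) / t := Nat.cast_div_le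
    have h3 : (n : ℝ) / t ≤ 2 * (n : ℝ) ^ κ := by
      rw [div_le_iff₀ ht0]
      have e1 : (n : ℝ) = (n : ℝ) ^ κ * (n : ℝ) ^ (1 - κ) := by
        rw [← Real.rpow_add hnR0]
        have : κ + (1 - κ) = 1 := by ring
        rw [this, Real.rpow_one]
      calc (n : ℝ) = (n : ℝ) ^ κ * (n : ℝ) ^ (1 - κ) := e1
        _ ≤ (n : ℝ) ^ κ * (2 * t) := mul_le_mul_of_nonneg_left ht2 (by positivity)
        _ = 2 * (n : ℝ) ^ κ * t := by ring
    have h4 : (K.card : ℝ) ≤ ((n / t + 1 : ℕ) : ℝ) := by exact_mod_cast h1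
    push_cast at h4
    linarith
  obtain ⟨T, hT⟩ : ∃ T : Env → Finset ℕ → Prop, T = fun η S => ∃ k ∈ K, NT k η S := ⟨_, rfl⟩
  obtain ⟨M, hM⟩ : ∃ M : Finset ℕ → Finset ℕ → Prop, M = fun S S' => ∃ k ∈ K, NoMeet (k * t) (k * t + t / 4) S S' := ⟨_, rfl⟩
  have hTm : Ms T := by
    intro S
    have e1 : {η : Env | T η S} = ⋃ k ∈ K, {η | NT k η S} := by
      ext η
      rw [hT]
      simp only [Set.mem_ofPred_eq, Set.mem_iUnion, exists_prop]
    rw [e1]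
    exact Finset.measurableSet_biUnion _ fun k hk => (hNT k ((hKm k).1 hk)).1 S
  have hMT : ∀ S S', MeasurableSet {η : Env | M S S' ∧ ¬ T η S'} := by
    intro S S'
    by_cases hc : M S S'
    · have e1 : {η : Env | M S S' ∧ ¬ T η S'} = {η | T η S'}ᶜ := by
        ext η
        simp [hc]
      rw [e1]
      exact (hTm S').compl
    · have e1 : {η : Env | M S S' ∧ ¬ T η S'} = ∅ := by
        ext η
        simp [hc]
      rw [e1]
      exact MeasurableSet.empty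
  have hb0 : 0 ≤ (K.card : ℝ) := Nat.cast_nonneg _
  have hEt0 : 0 < EE' μ s t := lt_of_lt_of_le zero_lt_one (hEE1 t)
  -- the means
  have m1 : P1 μ s n z T ≤ ENNReal.ofReal (K.card * ((n : ℝ) ^ κ * (EE' μ s t)⁻¹ + Real.exp (-(n : ℝ) ^ c₁))) := by
    rw [hT]
    refine (Pool.Agent.W_7d29a1_HZ.P1_exists K NT).trans ((sum_le_card_nsmul K _ _ fun k hk => (hNT k ((hKm k).1 hk)).2.2).trans ?_)
    rw [nsmul_eq_mul, ← ENNReal.ofReal_add (by positivity) (Real.exp_pos _).le, ← ENNReal.ofReal_natCast, ← ENNReal.ofReal_mul hb0]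
  have m2 : P2 μ s n z (fun _ => 0) (fun η S S' => M S S' ∧ ¬ T η S') ≤ ENNReal.ofReal (K.card * Real.exp (-(n : ℝ) ^ c₁)) := by
    have h1 : P2 μ s n z (fun _ => 0) (fun η S S' => M S S' ∧ ¬ T η S') ≤ P2 μ s n z (fun _ => 0) (fun η S S' => ∃ k ∈ K,
        ((NoMeet (k * t) (k * t + t / 4) S S' ∨ NoMeet (k * t + t - t / 4) (k * t + t) S S') ∧ ¬ NT k η S')) := by
      refine Pool.Agent.W_7d29a1_HZ.P2_mono fun η S _ S' _ _ _ hev => ?_
      rw [hM, hT] at hev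
      obtain ⟨⟨k, hk, hk2⟩, hT2⟩ := hev
      exact ⟨k, hk, Or.inl hk2, fun h3 => hT2 ⟨k, hk, h3⟩⟩
    refine h1.trans ((Pool.Agent.W_7d29a1_HZ.Z74.P2_ex_le K _ fun k hk => (hNT k ((hKm k).1 hk)).2.1).trans ?_)
    rw [← ENNReal.ofReal_natCast, ← ENNReal.ofReal_mul hb0]
  have m3 := hN n hn2 n (by omega) le_rfl z hz0 hzn (hcone _ (min_le_right _ _))
  have hNSm : Ms (fun (_ : Env) S => ¬ NSp μ s n n ε S) := fun S => MeasurableSet.const _
  -- Markov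
  rw [P1_P0 hTm] at m1
  rw [P2_P00 hMT] at m2
  rw [P1_P0 hNSm] at m3
  have hp0 : 0 < Real.exp (-(n : ℝ) ^ c') := Real.exp_pos _
  have M1 := markov (measurable_P0 (μ := μ) (s := s) n z hTm) (show (0 : ℝ) < 1 / 4 by norm_num) m1
  have M2 := markov (measurable_P00 (μ := μ) (s := s) n z hMT) (show 0 < Real.exp (-(n : ℝ) ^ c') / 4 by positivity) m2
  have M3 := markov (measurable_P0 (μ := μ) (s := s) n z hNSm) (show 0 < Real.exp (-(n : ℝ) ^ c') / 4 by positivity) m3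
  -- the energy of the window
  have hE7 : (n : ℝ) ^ (7 * κ) ≤ 2 * KE * EE' μ s t := by
    have h1 := (hEE 1 t le_rfl ht3).2.1
    have h2 : KE⁻¹ * (t : ℝ) ^ aE ≤ EE' μ s t := by
      refine le_trans ?_ h1
      have e1 : ((t : ℝ) / ((1 : ℕ) : ℝ)) = t := by push_cast; exact div_one _
      rw [e1]
      exact le_mul_of_one_le_right (by positivity) (hEE1 1)
    have h3 : (n : ℝ) ^ (7 * κ) ≤ 2 * (t : ℝ) ^ aE := by
      have e1 : (n : ℝ) ^ (7 * κ) ≤ ((n : ℝ) ^ (1 - κ)) ^ aE := by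
        rw [← Real.rpow_mul hnR0.le]
        refine rp_le hnR ?_
        have : aE = 8 * κ := by rw [hκ]; ring
        rw [this]
        nlinarith
      have e2 : ((n : ℝ) ^ (1 - κ)) ^ aE ≤ (2 * (t : ℝ)) ^ aE := Real.rpow_le_rpow (by positivity) ht2 haE.le
      have e3 : (2 * (t : ℝ)) ^ aE ≤ 2 * (t : ℝ) ^ aE := by
        rw [Real.mul_rpow (by norm_num) ht0.le]
        refine mul_le_mul_of_nonneg_right ?_ (by positivity)
        calc (2 : ℝ) ^ aE ≤ (2 : ℝ) ^ (1 : ℝ) := Real.rpow_le_rpow_of_exponent_le (by norm_num) haE1.le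
          _ = 2 := Real.rpow_one _
      exact e1.trans (e2.trans e3)
    have h4 : (t : ℝ) ^ aE ≤ KE * EE' μ s t := by
      have h5 := mul_le_mul_of_nonneg_left h2 (show 0 ≤ KE by linarith)
      rwa [← mul_assoc, mul_inv_cancel₀ (show KE ≠ 0 by linarith), one_mul] at h5
    nlinarith
  have hfin := hnum n hn3 K.card (EE' μ s t) hb0 hKc hE7 hEt0
  -- the bad set
  have hsub : {η : Env | ¬ ∃ Z : ℕ → ℤ, P0 μ s η n z (fun S => ¬ Nr Z ((n : ℝ) ^ (-(aw * κ / 2)) * wd' μ s n) 0 n (pos S)) ≤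
      Real.exp (-(n : ℝ) ^ c')} ⊆ ({η | (1 / 4 : ℝ) < P0 μ s η n z (T η)} ∪
      {η | Real.exp (-(n : ℝ) ^ c') / 4 < P00 μ s η n z (fun S S' => M S S' ∧ ¬ T η S')}) ∪
      {η | Real.exp (-(n : ℝ) ^ c') / 4 < P0 μ s η n z (fun S => ¬ NSp μ s n n ε S)} := by
    intro η hη
    by_contra hcon
    rw [Set.mem_union, Set.mem_union, not_or, not_or] at hcon
    obtain ⟨⟨b1, b2⟩, b3⟩ := hcon
    have b1' : P0 μ s η n z (T η) ≤ 1 / 4 := not_lt.1 b1
    have b2' : P00 μ s η n z (fun S S' => M S S' ∧ ¬ T η S') ≤ Real.exp (-(n : ℝ) ^ c') / 4 := not_lt.1 b2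
    have b3' : P0 μ s η n z (fun S => ¬ NSp μ s n n ε S) ≤ Real.exp (-(n : ℝ) ^ c') / 4 := not_lt.1 b3
    have hp1 : Real.exp (-(n : ℝ) ^ c') ≤ 1 := Real.exp_le_one_iff.2 (neg_nonpos.2 (by positivity))
    obtain ⟨S₀, -, hS₀z, hS₀F, hS₀M⟩ := exists_center η hz0 hzn (NSp μ s n n ε) (T η) M b1' (by linarith) b2'
    refine hη ⟨pos S₀, ?_⟩
    have k1 : P0 μ s η n z (fun S => ¬ Nr (pos S₀) ((n : ℝ) ^ (-(aw * κ / 2)) * wd' μ s n) 0 n (pos S)) ≤
        P0 μ s η n z (fun S => (¬ NSp μ s n n ε S) ∨ M S S₀) := by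
      refine P0_mono fun S hS hSz hnr => ?_
      by_contra hcon
      rw [not_or, not_not] at hcon
      obtain ⟨d1, d2⟩ := hcon
      refine hnr (close_of_meet ht3 hSz hS₀z d1 hS₀F (mul_nonneg (by positivity) (hwd0 n).le) (fun m hm1 hm3 hmn => ?_) fun k hk hno => ?_)
      · -- the width
        have w1 := (hwd m n hm1 hmn).2.1
        have hm0 : (0 : ℝ) < m := by exact_mod_cast hm1
        have w2 : (n : ℝ) ^ (aw * κ) / 3 ≤ ((n : ℝ) / m) ^ aw := by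
          have e1 : (n : ℝ) ^ κ / 3 ≤ (n : ℝ) / m := by
            rw [div_le_div_iff₀ (by norm_num) hm0]
            have f1 : (m : ℝ) ≤ 3 * t := by exact_mod_cast hm3
            have f2 : (n : ℝ) ^ κ * (n : ℝ) ^ (1 - κ) = n := by
              rw [← Real.rpow_add hnR0]
              have : κ + (1 - κ) = 1 := by ring
              rw [this, Real.rpow_one]
            calc (n : ℝ) ^ κ * m ≤ (n : ℝ) ^ κ * (3 * (n : ℝ) ^ (1 - κ)) :=
                  mul_le_mul_of_nonneg_left (by linarith) (by positivity)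
              _ = n * 3 := by rw [← mul_assoc, mul_comm ((n : ℝ) ^ κ) 3, mul_assoc, f2, mul_comm]
          have e2 : ((n : ℝ) ^ κ / 3) ^ aw ≤ ((n : ℝ) / m) ^ aw := Real.rpow_le_rpow (by positivity) e1 haw.le
          refine le_trans ?_ e2
          rw [Real.div_rpow (by positivity) (by norm_num), ← Real.rpow_mul hnR0.le, mul_comm κ aw]
          refine div_le_div_of_nonneg_left (by positivity) (by positivity) ?_
          calc (3 : ℝ) ^ aw ≤ (3 : ℝ) ^ (1 : ℝ) := Real.rpow_le_rpow_of_exponent_le (by norm_num) haw1.le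
            _ = 3 := Real.rpow_one _
        have w3 : (n : ℝ) ^ (aw * κ) * wd' μ s m ≤ 3 * Kw * wd' μ s n := by
          have e1 : Kw⁻¹ * ((n : ℝ) ^ (aw * κ) / 3) * wd' μ s m ≤ wd' μ s n :=
            le_trans (mul_le_mul_of_nonneg_right (mul_le_mul_of_nonneg_left w2 (by positivity)) (hwd0 m).le) w1
          have e2 : Kw * (Kw⁻¹ * ((n : ℝ) ^ (aw * κ) / 3) * wd' μ s m) ≤ Kw * wd' μ s n :=
            mul_le_mul_of_nonneg_left e1 (by linarith)
          have e3 : Kw * (Kw⁻¹ * ((n : ℝ) ^ (aw * κ) / 3) * wd' μ s m) = (n : ℝ) ^ (aw * κ) * wd' μ s m / 3 := by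
            field_simp
          rw [e3] at e2
          linarith
        have w4 : (n : ℝ) ^ (aw * κ) = (n : ℝ) ^ ε * (n : ℝ) ^ (aw * κ / 4) * (n : ℝ) ^ (aw * κ / 2) := by
          rw [← Real.rpow_add hnR0, ← Real.rpow_add hnR0]
          congr 1
          rw [hε]
          ring
        have w5 : 0 < (n : ℝ) ^ (aw * κ / 2) := by positivity
        rw [Real.rpow_neg hnR0.le, ← div_eq_inv_mul, le_div_iff₀ w5]
        have w6 : 6 * Kw * ((n : ℝ) ^ ε * (n : ℝ) ^ (aw * κ / 2) * wd' μ s m) ≤ 3 * Kw * wd' μ s n := by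
          calc 6 * Kw * ((n : ℝ) ^ ε * (n : ℝ) ^ (aw * κ / 2) * wd' μ s m) ≤
                (n : ℝ) ^ (aw * κ / 4) * ((n : ℝ) ^ ε * (n : ℝ) ^ (aw * κ / 2) * wd' μ s m) :=
                mul_le_mul_of_nonneg_right g3 (mul_nonneg (by positivity) (hwd0 m).le)
            _ = (n : ℝ) ^ (aw * κ) * wd' μ s m := by rw [w4]; ring
            _ ≤ _ := w3
        have hKw0 : 0 < 3 * Kw := by linarith
        have w7 : 3 * Kw * (2 * ((n : ℝ) ^ ε * wd' μ s m) * (n : ℝ) ^ (aw * κ / 2)) ≤ 3 * Kw * wd' μ s n := by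
          refine le_trans (le_of_eq ?_) w6
          ring
        exact le_of_mul_le_mul_left w7 hKw0
      · refine d2 ?_
        rw [hM]
        exact ⟨k, (hKm k).2 hk, hno⟩
    have k2 := P0_or (μ := μ) (s := s) η n z (fun S => ¬ NSp μ s n n ε S) (fun S => M S S₀)
    linarith
  refine (measure_mono hsub).trans ((measure_union_le _ _).trans ((add_le_add (measure_union_le _ _) le_rfl).trans ?_))
  refine (add_le_add (add_le_add M1 M2) M3).trans ?_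
  have z1 : 0 ≤ (K.card : ℝ) * ((n : ℝ) ^ κ * (EE' μ s t)⁻¹ + Real.exp (-(n : ℝ) ^ c₁)) / (1 / 4) :=
    div_nonneg (mul_nonneg hb0 (add_nonneg (mul_nonneg (Real.rpow_nonneg hnR0.le _) (inv_nonneg.2 hEt0.le)) (Real.exp_pos _).le))
      (by norm_num)
  have z2 : 0 ≤ (K.card : ℝ) * Real.exp (-(n : ℝ) ^ c₁) / (Real.exp (-(n : ℝ) ^ c') / 4) :=
    div_nonneg (mul_nonneg hb0 (Real.exp_pos _).le) (by linarith)
  have z3 : 0 ≤ Real.exp (-(n : ℝ) ^ c₂) / (Real.exp (-(n : ℝ) ^ c') / 4) := div_nonneg (Real.exp_pos _).le (by linarith)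
  rw [← ENNReal.ofReal_add z1 z2, ← ENNReal.ofReal_add (add_nonneg z1 z2) z3]
  exact ENNReal.ofReal_le_ofReal hfin

/-! ### The fresh tube -/

omit [IsProbabilityMeasure μ] in
theorem gp_Gp (η : Env) (n : ℕ) (z : ℤ) (S : Finset ℕ) : gp μ s η n z S = Gp μ η n z S := by
  unfold gp Gp
  by_cases hz : pos S n = z
  · subst hz
    rw [if_pos rfl, if_pos rfl]
    unfold pth W WR
    rw [mul_div_mul_left _ _ (Real.exp_pos _).ne', mul_div_mul_left _ _ (Real.exp_pos _).ne']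
  · rw [if_neg hz, if_neg hz, zero_div]

theorem pos_inc (S : Finset ℕ) (t d : ℕ) : 0 ≤ pos S (t + d) - pos S t ∧ pos S (t + d) - pos S t ≤ d := by
  have h0 : (S ∩ range t).card ≤ (S ∩ range (t + d)).card :=
    card_le_card (inter_subset_inter_left (range_subset_range.2 (by omega)))
  have h1 : (S ∩ range (t + d)) ⊆ (S ∩ range t) ∪ Ico t (t + d) := by
    intro i hi
    rw [mem_inter, mem_range] at hi
    rw [mem_union, mem_inter, mem_range, mem_Ico]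
    by_cases h : i < t
    · exact Or.inl ⟨hi.1, h⟩
    · exact Or.inr ⟨by omega, hi.2⟩
  have h2 := (card_le_card h1).trans (card_union_le _ _)
  rw [Nat.card_Ico] at h2
  unfold pos
  omega

/-- The measure of a preimage, without measurability. -/
theorem pre_le (a : Pt) (B : Set Env) : law μ {η | sh a η ∈ B} ≤ law μ B := by
  have h := mp_sh (μ := μ) a
  calc law μ {η | sh a η ∈ B} ≤ law μ (sh a ⁻¹' (toMeasurable (law μ) B)) :=
        measure_mono fun η hη => subset_toMeasurable _ _ hη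
    _ = law μ (toMeasurable (law μ) B) := h.measure_preimage (measurableSet_toMeasurable _ _).nullMeasurableSet
    _ = law μ B := measure_toMeasurable _

theorem fr24 (h : In μ s c C n₀) {e : ℝ} (he : 0 < e) (he1 : e ≤ 1) : ∃ ε₁ c₂ : ℝ, 0 < ε₁ ∧ 0 < c₂ ∧ ∃ n₁ : ℕ, ∀ n : ℕ, n₁ ≤ n →
    ∀ a b : ℕ, a ≤ b → b ≤ n → n ≤ 16 * (b - a) → ∀ x x' y y' : ℤ,
    law μ {η | Real.exp (-(n : ℝ) ^ c₂) < PQ μ s η n x y x' y' (fun S S' => Cls x x' (6 * ((n : ℝ) ^ (-e) * wd' μ s n)) a b S S' ∧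
      NMt x x' a b S S' ∧ NSp μ s n n ε₁ S')} ≤ ENNReal.ofReal (Real.exp (-(n : ℝ) ^ c₂)) := by
  classical
  obtain ⟨aw, Kw, haw, haw1, hKw, hwd⟩ := Pool.Agent.W_7d29a1_HZ.wd'_pow h
  obtain ⟨N₁, hN₁⟩ := Pool.Agent.W_7d29a1_HZ.wd'_eq h
  obtain ⟨ε₂, c₂, hε₂, hc₂, L₀, hL₀, hf⟩ := Pool.Agent.W_7d29a1_HZ.Z82.fresh_exp h (ε := e / 2) (by positivity) (by linarith)
  have hev := (evp (show 0 < e / 2 by positivity) (96 * Kw)).and ((evp (show 0 < ε₂ / 2 by positivity) Kw).and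
    ((evx hc₂ 4 2).and ((evp (show 0 < 1 - e / 2 by linarith) 16).and ((evp (show 0 < c₂ / 2 by positivity) 2).and
      (eventually_ge_atTop (max (16 * N₁ + 16) ⌈L₀⌉₊))))))
  obtain ⟨N₂, hN₂⟩ := eventually_atTop.1 hev
  refine ⟨ε₂ / 2, c₂ / 2, by positivity, by positivity, N₂, fun n hn a b hab hbn hnab x x' y y' => ?_⟩
  obtain ⟨g1, g2, g3, g4, g5, g6⟩ := hN₂ n hn
  have hnL : 16 * N₁ + 16 ≤ n := (le_max_left _ _).trans g6
  have hnL0 : L₀ ≤ n := (Nat.le_ceil _).trans (by exact_mod_cast (le_max_right _ _).trans g6)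
  have hnR : (1 : ℝ) ≤ n := by exact_mod_cast (show 1 ≤ n by omega)
  have hnR0 : (0 : ℝ) < n := by linarith
  have hwd0 : ∀ m, 0 < wd' μ s m := fun m => lt_of_lt_of_le zero_lt_one (le_max_left _ _)
  obtain ⟨m, hm⟩ : ∃ m : ℕ, m = b - a := ⟨_, rfl⟩
  have hnm : n ≤ 16 * m := by omega
  have hm1 : 1 ≤ m := by omega
  have hmn : m ≤ n := by omega
  have hmR : (n : ℝ) ≤ 16 * m := by exact_mod_cast hnm
  have hm0 : (0 : ℝ) < m := by exact_mod_cast hm1
  have hmN : N₁ ≤ m := by omega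
  have hwm : wd' μ s m = wd μ s m := (hN₁ m hmN).1
  have hLm : (n : ℝ) ^ (e / 2) ≤ m := by
    have e1 : (n : ℝ) ^ (e / 2) * (n : ℝ) ^ (1 - e / 2) = n := by
      rw [← Real.rpow_add hnR0]
      have : e / 2 + (1 - e / 2) = 1 := by ring
      rw [this, Real.rpow_one]
    have e2 : (0 : ℝ) < (n : ℝ) ^ (e / 2) := by positivity
    nlinarith
  obtain ⟨n', hn'm, hmn', hF⟩ := hf n hnL0 m hLm
  have hn'1 : 1 ≤ n' := by omega
  have hn'n : n' ≤ n := by omega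
  -- the widths
  have w1 : wd' μ s n ≤ 16 * Kw * wd' μ s m := by
    have e1 := (hwd m n hm1 hmn).2.2
    have e2 : ((n : ℝ) / m) ^ (1 - aw) ≤ 16 := by
      have f1 : (n : ℝ) / m ≤ 16 := by rw [div_le_iff₀ hm0]; linarith
      calc ((n : ℝ) / m) ^ (1 - aw) ≤ (16 : ℝ) ^ (1 - aw) := Real.rpow_le_rpow (by positivity) f1 (by linarith)
        _ ≤ (16 : ℝ) ^ (1 : ℝ) := Real.rpow_le_rpow_of_exponent_le (by norm_num) (by linarith)
        _ = 16 := Real.rpow_one _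
    calc wd' μ s n ≤ Kw * ((n : ℝ) / m) ^ (1 - aw) * wd' μ s m := e1
      _ ≤ Kw * 16 * wd' μ s m := mul_le_mul_of_nonneg_right (mul_le_mul_of_nonneg_left e2 (by linarith)) (hwd0 m).le
      _ = 16 * Kw * wd' μ s m := by ring
  have w2 : wd' μ s n' ≤ Kw * wd' μ s m := (hwd n' m hn'1 hn'm).1
  obtain ⟨ρ, hρ⟩ : ∃ ρ : ℕ, ρ = ⌊6 * ((n : ℝ) ^ (-e) * wd' μ s n)⌋₊ := ⟨_, rfl⟩
  have hr0 : 0 ≤ 6 * ((n : ℝ) ^ (-e) * wd' μ s n) := mul_nonneg (by norm_num) (mul_nonneg (by positivity) (hwd0 n).le)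
  have hρ1 : (ρ : ℝ) ≤ (n : ℝ) ^ (-(e / 2)) * wd μ s m := by
    have e1 : (ρ : ℝ) ≤ 6 * ((n : ℝ) ^ (-e) * wd' μ s n) := by rw [hρ]; exact Nat.floor_le hr0
    refine e1.trans ?_
    rw [← hwm]
    have e2 : (n : ℝ) ^ (-(e / 2)) = (n : ℝ) ^ (-e) * (n : ℝ) ^ (e / 2) := by
      rw [← Real.rpow_add hnR0]
      congr 1
      ring
    rw [e2]
    have e3 : 0 ≤ (n : ℝ) ^ (-e) := by positivity
    calc 6 * ((n : ℝ) ^ (-e) * wd' μ s n) = (n : ℝ) ^ (-e) * (6 * wd' μ s n) := by ring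
      _ ≤ (n : ℝ) ^ (-e) * ((n : ℝ) ^ (e / 2) * wd' μ s m) := by
        refine mul_le_mul_of_nonneg_left ?_ e3
        have := mul_le_mul_of_nonneg_right g1 (hwd0 m).le
        linarith
      _ = (n : ℝ) ^ (-e) * (n : ℝ) ^ (e / 2) * wd' μ s m := by ring
  -- the list
  obtain ⟨Q, hQ⟩ : ∃ Q : Finset (ℤ × ℤ), Q = (Icc (0 : ℤ) n) ×ˢ ((Icc (0 : ℤ) n').filter fun z : ℤ =>
    |(z : ℝ) - sl μ s * n'| ≤ (n : ℝ) ^ ε₂ * wd μ s m) := ⟨_, rfl⟩
  have hQc : (Q.card : ℝ) ≤ Real.exp ((n : ℝ) ^ c₂) := by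
    have h1 : Q.card ≤ (n + 1) * (n + 1) := by
      rw [hQ, card_product]
      refine Nat.mul_le_mul ?_ ((card_filter_le _ _).trans ?_)
      · rw [Int.card_Icc]
        omega
      · rw [Int.card_Icc]
        omega
    have h2 : (Q.card : ℝ) ≤ ((n : ℝ) + 1) * (n + 1) := by exact_mod_cast h1
    have h3 : ((n : ℝ) + 1) * (n + 1) ≤ 4 * (n : ℝ) ^ (2 : ℝ) := by
      rw [Real.rpow_two]
      nlinarith
    linarith
  have hQp : ∀ p ∈ Q, 0 ≤ p.2 ∧ p.2 ≤ n' ∧ |(p.2 : ℝ) - sl μ s * n'| ≤ (n : ℝ) ^ ε₂ * wd μ s m := by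
    intro p hp
    rw [hQ, mem_product, mem_filter, mem_Icc, mem_Icc] at hp
    exact ⟨hp.2.1.1, hp.2.1.2, hp.2.2⟩
  have hI := hF ρ hρ1 a (n - a - n') n (fun _ => -(x' - x)) (y - x) (y' - x') Q hQc hQp
  have ean : a + n' + (n - a - n') = n := by omega
  rw [ean] at hI
  -- the quenched probability
  obtain ⟨A, hA⟩ : ∃ A : Finset ℕ → Finset ℕ → Prop, A = fun S S' => Cls x x' (6 * ((n : ℝ) ^ (-e) * wd' μ s n)) a b S S' ∧
      NMt x x' a b S S' ∧ NSp μ s n n (ε₂ / 2) S' := ⟨_, rfl⟩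
  obtain ⟨F, hFd⟩ : ∃ F : Env → ℝ, F = fun η => ∑ S₁ ∈ (range n).powerset, Gp μ η n (y - x) S₁ *
      ∑ S₂ ∈ (range n).powerset, Gp μ (rsh (fun _ => -(x' - x)) η) n (y' - x') S₂ *
        (if close (fun _ => -(x' - x)) ρ a n' Q S₁ S₂ then 1 else 0) := ⟨_, rfl⟩
  have hAc : ∀ S S' : Finset ℕ, A S S' → close (fun _ => -(x' - x)) ρ a n' Q S S' := by
    intro S S' hAS
    rw [hA] at hAS
    obtain ⟨d1, d2, d3⟩ := hAS
    refine ⟨fun i hi => ?_, fun i hi => ?_, ?_⟩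
    · have k1 := d1 (a + i) (by omega) (by omega)
      have k2 : |x' + pos S' (a + i) - (x + pos S (a + i))| ≤ (ρ : ℤ) := by
        have k3 : ((|x + pos S (a + i) - (x' + pos S' (a + i))| : ℤ) : ℝ) ≤ 6 * ((n : ℝ) ^ (-e) * wd' μ s n) := by
          rw [Int.cast_abs]
          exact k1
        have k4 : ((|x + pos S (a + i) - (x' + pos S' (a + i))|.toNat : ℕ) : ℝ) ≤ 6 * ((n : ℝ) ^ (-e) * wd' μ s n) := by
          have : (((|x + pos S (a + i) - (x' + pos S' (a + i))|.toNat : ℕ) : ℤ) : ℝ) ≤ 6 * ((n : ℝ) ^ (-e) * wd' μ s n) := by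
            rw [Int.toNat_of_nonneg (abs_nonneg _)]
            exact k3
          exact_mod_cast this
        have k5 := Nat.le_floor k4
        rw [← hρ] at k5
        rw [abs_sub_comm]
        have k6 : (|x + pos S (a + i) - (x' + pos S' (a + i))|.toNat : ℤ) ≤ ρ := by exact_mod_cast k5
        rwa [Int.toNat_of_nonneg (abs_nonneg _)] at k6
      have e1 : pos S' (a + i) - (fun _ : ℤ => -(x' - x)) ((a + i : ℕ) : ℤ) - pos S (a + i) =
          x' + pos S' (a + i) - (x + pos S (a + i)) := by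
        show pos S' (a + i) - -(x' - x) - pos S (a + i) = _
        ring
      rw [e1]
      exact k2
    · have k1 := d2 (a + i + 1) (by omega) (by omega)
      intro hcon
      refine k1 ?_
      have hcon' : pos S' (a + i + 1) - -(x' - x) = pos S (a + i + 1) := hcon
      linarith
    · rw [hQ, mem_product, mem_filter, mem_Icc, mem_Icc]
      have k1 := d3 a n' hn'1 (by omega)
      have k2 := pos_nonneg S' a
      have k3 := pos_le S' a
      refine ⟨⟨k2, by omega⟩, pos_inc S' a n', ?_⟩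
      refine k1.trans ?_
      rw [← hwm]
      have e1 : (n : ℝ) ^ ε₂ = (n : ℝ) ^ (ε₂ / 2) * (n : ℝ) ^ (ε₂ / 2) := by
        rw [← Real.rpow_add hnR0]
        congr 1
        ring
      rw [e1, mul_assoc]
      refine mul_le_mul_of_nonneg_left ?_ (by positivity)
      exact w2.trans (mul_le_mul_of_nonneg_right g2 (hwd0 m).le)
  have hPQF : ∀ η, PQ μ s η n x y x' y' A ≤ F (sh (0, x) η) := by
    intro η
    rw [hFd]
    unfold PQ
    refine sum_le_sum fun S _ => ?_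
    rw [mul_sum]
    refine sum_le_sum fun S' _ => ?_
    have e1 : Gw μ s η n x y S = Gp μ (sh (0, x) η) n (y - x) S := gp_Gp _ _ _ _
    have e2 : Gw μ s η n x' y' S' = Gp μ (rsh (fun _ => -(x' - x)) (sh (0, x) η)) n (y' - x') S' := by
      rw [Pool.Agent.W_7d29a1_LB.rsh_sh, sh_sh]
      exact gp_Gp _ _ _ _
    rw [e1, e2, mul_assoc]
    have p1 : 0 ≤ Gp μ (sh (0, x) η) n (y - x) S := Gp_nonneg _ _ _ _
    have p2 : 0 ≤ Gp μ (rsh (fun _ => -(x' - x)) (sh (0, x) η)) n (y' - x') S' := Gp_nonneg _ _ _ _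
    refine mul_le_mul_of_nonneg_left (mul_le_mul_of_nonneg_left ?_ p2) p1
    by_cases hc : A S S'
    · rw [if_pos hc, if_pos (hAc S S' hc)]
    · rw [if_neg hc]
      exact ind_nonneg
  have hFi : Integrable F (law μ) := by
    rw [hFd]
    exact Pool.Agent.W_7d29a1_LB.integrable_Gp2 (x' - x) n (y - x) (y' - x') fun S S' => ⟨ind_nonneg, ind_le_one⟩
  have hF0 : ∀ η, 0 ≤ F η := by
    intro η
    rw [hFd]
    exact sum_nonneg fun S _ => mul_nonneg (Gp_nonneg _ _ _ _) (sum_nonneg fun S' _ => mul_nonneg (Gp_nonneg _ _ _ _) ind_nonneg)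
  have hFm : Measurable F := by
    rw [hFd]
    refine Finset.measurable_sum _ fun S _ => (measurable_Gp n (y - x) S).mul (Finset.measurable_sum _ fun S' _ => ?_)
    exact ((measurable_Gp n (y' - x') S').comp (Pool.Agent.W_7d29a1_Z82.measurable_rsh _)).mul measurable_const
  have hI' : ∫⁻ η, ENNReal.ofReal (F η) ∂(law μ) ≤ ENNReal.ofReal (Real.exp (-(n : ℝ) ^ c₂)) := by
    rw [← ofReal_integral_eq_lintegral_ofReal hFi (Eventually.of_forall hF0)]
    refine ENNReal.ofReal_le_ofReal ?_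
    rw [hFd]
    exact hI
  have hp0 : 0 < Real.exp (-(n : ℝ) ^ (c₂ / 2)) := Real.exp_pos _
  have hmk := markov hFm hp0 hI'
  have hsub : {η : Env | Real.exp (-(n : ℝ) ^ (c₂ / 2)) < PQ μ s η n x y x' y' A} ⊆
      {η | sh (0, x) η ∈ {η | Real.exp (-(n : ℝ) ^ (c₂ / 2)) < F η}} := fun η hη => lt_of_lt_of_le hη (hPQF η)
  rw [hA] at hsub
  refine (measure_mono hsub).trans ((pre_le _ _).trans (hmk.trans (ENNReal.ofReal_le_ofReal ?_)))
  rw [div_le_iff₀ hp0, ← Real.exp_add]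
  refine Real.exp_le_exp.2 ?_
  have e1 : (n : ℝ) ^ c₂ = (n : ℝ) ^ (c₂ / 2) * (n : ℝ) ^ (c₂ / 2) := by
    rw [← Real.rpow_add hnR0]
    congr 1
    ring
  rw [e1]
  nlinarith

/-! ### The zero one law -/

/-- The displacement `y - x` is in the cone. -/
def CnD (μ : Measure ℝ) (s δ : ℝ) (n : ℕ) (x y : ℤ) : Prop :=
  x ≤ y ∧ y ≤ x + n ∧ |((y - x : ℤ) : ℝ) - sl μ s * n| ≤ (n : ℝ) ^ δ * wd' μ s n

/-- **M7: THE QUENCHED ZERO ONE LAW OF MEETING, CORNERS.** -/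
theorem quen24 (h : In μ s c C n₀) : ∃ δ c' : ℝ, 0 < δ ∧ 0 < c' ∧ ∃ n₁ : ℕ, ∀ n : ℕ, n₁ ≤ n → ∀ a b : ℕ, a ≤ b → b ≤ n →
    n ≤ 16 * (b - a) → ∀ x x' y y' : ℤ, CnD μ s δ n x y → CnD μ s δ n x' y → CnD μ s δ n x' y' →
    law μ {η | PQ μ s η n x y x' y (NMt x x' 0 a) ≤ 1 / 4 ∧ PQ μ s η n x' y x' y' (NMt x' x' b n) ≤ 1 / 4 ∧
      Real.exp (-(n : ℝ) ^ c') < PQ μ s η n x y x' y' (NMt x x' a b)} ≤ ENNReal.ofReal ((n : ℝ) ^ (-c')) := by
  classical
  obtain ⟨e, he, he1, δ₁, c₁, hδ₁, hc₁, L₁, hctr⟩ := ctr24 h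
  obtain ⟨ε₁, c₂, hε₁, hc₂, L₂, hfr⟩ := fr24 h he he1
  obtain ⟨δ₃, c₃, hδ₃, hc₃, L₃, hN⟩ := Pool.Agent.W_7d29a1_HZ.ns h ε₁ hε₁
  obtain ⟨c', hc'⟩ : ∃ c' : ℝ, c' = min c₁ (min c₂ c₃) / 2 := ⟨_, rfl⟩
  have hm0 : 0 < min c₁ (min c₂ c₃) := lt_min hc₁ (lt_min hc₂ hc₃)
  have hc'0 : 0 < c' := by rw [hc']; positivity
  have q1 : 2 * c' ≤ c₁ := by
    have : min c₁ (min c₂ c₃) ≤ c₁ := min_le_left _ _
    rw [hc']; linarith
  have q2 : 2 * c' ≤ c₂ := by
    have : min c₁ (min c₂ c₃) ≤ c₂ := (min_le_right _ _).trans (min_le_left _ _)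
    rw [hc']; linarith
  have q3 : 2 * c' ≤ c₃ := by
    have : min c₁ (min c₂ c₃) ≤ c₃ := (min_le_right _ _).trans (min_le_right _ _)
    rw [hc']; linarith
  have hev := (evp hc'0 8).and ((evx hc'0 8 c').and (eventually_ge_atTop (max (max L₁ L₂) (max L₃ 1))))
  obtain ⟨L₄, hL₄⟩ := eventually_atTop.1 hev
  refine ⟨min δ₁ δ₃, c', lt_min hδ₁ hδ₃, hc'0, L₄, fun n hn a b hab hbn hnab x x' y y' h1 h2 h3 => ?_⟩
  obtain ⟨g1, g2, g5⟩ := hL₄ n hn
  have hn1 : L₁ ≤ n := (le_max_left _ _).trans ((le_max_left _ _).trans g5)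
  have hn2 : L₂ ≤ n := (le_max_right _ _).trans ((le_max_left _ _).trans g5)
  have hn3 : L₃ ≤ n := (le_max_left _ _).trans ((le_max_right _ _).trans g5)
  have hn4 : 1 ≤ n := (le_max_right _ _).trans ((le_max_right _ _).trans g5)
  have hnR : (1 : ℝ) ≤ n := by exact_mod_cast hn4
  have hnR0 : (0 : ℝ) < n := by linarith
  have hwd0 : ∀ m, 0 < wd' μ s m := fun m => lt_of_lt_of_le zero_lt_one (le_max_left _ _)
  have hcone : ∀ {u v : ℤ} {δ' : ℝ}, CnD μ s (min δ₁ δ₃) n u v → min δ₁ δ₃ ≤ δ' →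
      |((v - u : ℤ) : ℝ) - sl μ s * n| ≤ (n : ℝ) ^ δ' * wd' μ s n := fun hc hδ' =>
    hc.2.2.trans (mul_le_mul_of_nonneg_right (rp_le hnR hδ') (hwd0 n).le)
  obtain ⟨r, hr⟩ : ∃ r : ℝ, r = (n : ℝ) ^ (-e) * wd' μ s n := ⟨_, rfl⟩
  -- the centres
  have hbad : ∀ u v : ℤ, CnD μ s (min δ₁ δ₃) n u v → law μ {η | sh (0, u) η ∈ {η | ¬ ∃ Z : ℕ → ℤ,
      P0 μ s η n (v - u) (fun S => ¬ Nr Z ((n : ℝ) ^ (-e) * wd' μ s n) 0 n (pos S)) ≤ Real.exp (-(n : ℝ) ^ c₁)}} ≤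
      ENNReal.ofReal ((n : ℝ) ^ (-c₁)) := fun u v hc =>
    (pre_le _ _).trans (hctr n hn1 (v - u) (by linarith [hc.1]) (by linarith [hc.2.1]) (hcone hc (min_le_left _ _)))
  have hgood : ∀ (η : Env) (u v : ℤ), sh (0, u) η ∉ {η | ¬ ∃ Z : ℕ → ℤ,
      P0 μ s η n (v - u) (fun S => ¬ Nr Z ((n : ℝ) ^ (-e) * wd' μ s n) 0 n (pos S)) ≤ Real.exp (-(n : ℝ) ^ c₁)} →
      ∃ Z : ℕ → ℤ, PO μ s η n u v (fun S => ¬ Nr Z r a b fun i => u + pos S i) ≤ Real.exp (-(n : ℝ) ^ c₁) := by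
    intro η u v hη
    have hη' : ∃ Z : ℕ → ℤ, P0 μ s (sh (0, u) η) n (v - u) (fun S => ¬ Nr Z ((n : ℝ) ^ (-e) * wd' μ s n) 0 n (pos S)) ≤
        Real.exp (-(n : ℝ) ^ c₁) := not_not.1 hη
    obtain ⟨Z, hZ⟩ := hη'
    refine ⟨fun i => u + Z i, le_trans ?_ hZ⟩
    rw [PO_eq]
    refine P0_mono fun S _ _ hno hnr => hno fun i hi1 hi2 => ?_
    have k1 := hnr i (Nat.zero_le _) (hi2.trans hbn)
    rw [hr]
    have e1 : u + pos S i - (u + Z i) = pos S i - Z i := by ring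
    rw [e1]
    exact k1
  -- flatness
  have m3 := hN n hn3 n (by omega) le_rfl (y' - x') (by linarith [h3.1]) (by linarith [h3.2.1]) (hcone h3 (min_le_right _ _))
  have hNSm : Ms (fun (_ : Env) S => ¬ NSp μ s n n ε₁ S) := fun S => MeasurableSet.const _
  rw [P1_P0 hNSm] at m3
  have hp0 : 0 < Real.exp (-(n : ℝ) ^ c') := Real.exp_pos _
  have M3 := markov (measurable_P0 (μ := μ) (s := s) n (y' - x') hNSm) (show 0 < Real.exp (-(n : ℝ) ^ c') / 4 by positivity) m3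
  have M3' := (pre_le (μ := μ) (0, x') _).trans M3
  have M4 := hfr n hn2 a b hab hbn hnab x x' y y'
  -- the exponentials
  obtain ⟨u, hu⟩ : ∃ u : ℝ, u = (n : ℝ) ^ c' := ⟨_, rfl⟩
  have hu8 : 8 ≤ u := by rw [hu]; exact g1
  have hex : ∀ c₀ : ℝ, 2 * c' ≤ c₀ → Real.exp (-(n : ℝ) ^ c₀) ≤ Real.exp (-u) / 8 * Real.exp (-u) := by
    intro c₀ hc₀
    have e1 : u * u ≤ (n : ℝ) ^ c₀ := by
      rw [hu, ← Real.rpow_add hnR0]
      exact rp_le hnR (by linarith)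
    have e2 : Real.exp (-(n : ℝ) ^ c₀) ≤ Real.exp (-(3 * u)) := Real.exp_le_exp.2 (by nlinarith)
    have e3 : Real.exp (-(3 * u)) = Real.exp (-u) * Real.exp (-u) * Real.exp (-u) := by
      rw [← Real.exp_add, ← Real.exp_add]
      congr 1
      ring
    have e4 : Real.exp (-u) ≤ 1 / 8 := by
      rw [Real.exp_neg, ← one_div]
      refine one_div_le_one_div_of_le (by norm_num) ?_
      linarith [Real.add_one_le_exp u]
    have e5 : 0 < Real.exp (-u) := Real.exp_pos _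
    rw [e3] at e2
    refine e2.trans ?_
    have : Real.exp (-u) * Real.exp (-u) * Real.exp (-u) ≤ Real.exp (-u) * Real.exp (-u) * (1 / 8) :=
      mul_le_mul_of_nonneg_left e4 (by positivity)
    linarith
  have hpu : Real.exp (-(n : ℝ) ^ c') = Real.exp (-u) := by rw [hu]
  have hpu1 : Real.exp (-u) ≤ 1 := Real.exp_le_one_iff.2 (by linarith)
  have hpu0 : 0 < Real.exp (-u) := Real.exp_pos _
  have hex' : ∀ c₀ : ℝ, 2 * c' ≤ c₀ → Real.exp (-(n : ℝ) ^ c₀) ≤ Real.exp (-u) / 8 := fun c₀ hc₀ =>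
    (hex c₀ hc₀).trans (mul_le_of_le_one_right (by positivity) hpu1)
  -- the bad set
  refine (measure_mono (t := ((({η | sh (0, x) η ∈ {η | ¬ ∃ Z : ℕ → ℤ,
      P0 μ s η n (y - x) (fun S => ¬ Nr Z ((n : ℝ) ^ (-e) * wd' μ s n) 0 n (pos S)) ≤ Real.exp (-(n : ℝ) ^ c₁)}} ∪
      {η | sh (0, x') η ∈ {η | ¬ ∃ Z : ℕ → ℤ,
      P0 μ s η n (y - x') (fun S => ¬ Nr Z ((n : ℝ) ^ (-e) * wd' μ s n) 0 n (pos S)) ≤ Real.exp (-(n : ℝ) ^ c₁)}}) ∪
      {η | sh (0, x') η ∈ {η | ¬ ∃ Z : ℕ → ℤ,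
      P0 μ s η n (y' - x') (fun S => ¬ Nr Z ((n : ℝ) ^ (-e) * wd' μ s n) 0 n (pos S)) ≤ Real.exp (-(n : ℝ) ^ c₁)}}) ∪
      {η | sh (0, x') η ∈ {η | Real.exp (-(n : ℝ) ^ c') / 4 < P0 μ s η n (y' - x') (fun S => ¬ NSp μ s n n ε₁ S)}}) ∪
      {η | Real.exp (-(n : ℝ) ^ c₂) < PQ μ s η n x y x' y' (fun S S' => Cls x x' (6 * ((n : ℝ) ^ (-e) * wd' μ s n)) a b S S' ∧
        NMt x x' a b S S' ∧ NSp μ s n n ε₁ S')}) ?_).trans ?_
  · intro η hη
    obtain ⟨d1, d2, d3⟩ := hη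
    by_contra hcon
    rw [Set.mem_union, Set.mem_union, Set.mem_union, Set.mem_union, not_or, not_or, not_or, not_or] at hcon
    obtain ⟨⟨⟨⟨b1, b2⟩, b3⟩, b4⟩, b5⟩ := hcon
    obtain ⟨ZA, hZA⟩ := hgood η x y b1
    obtain ⟨ZB, hZB⟩ := hgood η x' y b2
    obtain ⟨ZC, hZC⟩ := hgood η x' y' b3
    have b4' : PO μ s η n x' y' (fun S => ¬ NSp μ s n n ε₁ S) ≤ Real.exp (-(n : ℝ) ^ c') / 4 := not_lt.1 b4
    have b5' : PQ μ s η n x y x' y' (fun S S' => Cls x x' (6 * ((n : ℝ) ^ (-e) * wd' μ s n)) a b S S' ∧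
        NMt x x' a b S S' ∧ NSp μ s n n ε₁ S') ≤ Real.exp (-(n : ℝ) ^ c₂) := not_lt.1 b5
    have he14 : Real.exp (-(n : ℝ) ^ c₁) ≤ 1 / 4 := (hex' c₁ q1).trans (by linarith)
    have k1 := corners η (hab.trans hbn) h1.1 h1.2.1 h2.1 h2.2.1 h3.1 h3.2.1 he14 hZA hZB hZC d1 d2 (NMt x x' a b)
    have k2 : PQ μ s η n x y x' y' (fun S S' => Cls x x' (6 * r) a b S S' ∧ NMt x x' a b S S') ≤
        PQ μ s η n x y x' y' (fun S S' => (¬ NSp μ s n n ε₁ S') ∨ (Cls x x' (6 * ((n : ℝ) ^ (-e) * wd' μ s n)) a b S S' ∧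
          NMt x x' a b S S' ∧ NSp μ s n n ε₁ S')) := by
      refine PQ_mono fun S S' _ _ _ _ hSS => ?_
      rw [hr] at hSS
      by_cases hN : NSp μ s n n ε₁ S'
      · exact Or.inr ⟨hSS.1, hSS.2, hN⟩
      · exact Or.inl hN
    have k3 := PQ_or (μ := μ) (s := s) η n x y x' y' (fun _ S' => ¬ NSp μ s n n ε₁ S')
      (fun S S' => Cls x x' (6 * ((n : ℝ) ^ (-e) * wd' μ s n)) a b S S' ∧ NMt x x' a b S S' ∧ NSp μ s n n ε₁ S')
    have k4 := PQ_right (μ := μ) (s := s) η (x' := x') (y' := y') h1.1 h1.2.1 (fun S' => ¬ NSp μ s n n ε₁ S')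
    have f1 := hex' c₁ q1
    have f2 := hex' c₂ q2
    rw [hpu] at d3 b4'
    linarith
  · refine (measure_union_le _ _).trans ((add_le_add ((measure_union_le _ _).trans (add_le_add ((measure_union_le _ _).trans
      (add_le_add ((measure_union_le _ _).trans (add_le_add (hbad x y h1) (hbad x' y h2))) (hbad x' y' h3))) M3')) M4).trans ?_)
    rw [← ENNReal.ofReal_add (by positivity) (by positivity), ← ENNReal.ofReal_add (by positivity) (by positivity),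
      ← ENNReal.ofReal_add (by positivity) (by positivity), ← ENNReal.ofReal_add (by positivity) (by positivity)]
    refine ENNReal.ofReal_le_ofReal ?_
    have f0 : (n : ℝ) ^ (-c₁) ≤ (n : ℝ) ^ (-c') / 8 := by
      rw [Real.rpow_neg hnR0.le, Real.rpow_neg hnR0.le, ← hu, ← one_div, ← one_div, div_div]
      refine one_div_le_one_div_of_le (by positivity) ?_
      have e1 : u * u ≤ (n : ℝ) ^ c₁ := by
        rw [hu, ← Real.rpow_add hnR0]
        exact rp_le hnR (by linarith)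
      nlinarith
    have f3 : Real.exp (-u) ≤ (n : ℝ) ^ (-c') / 8 := by
      rw [Real.rpow_neg hnR0.le, Real.exp_neg, ← hu, ← one_div, ← one_div, div_div]
      refine one_div_le_one_div_of_le (by positivity) ?_
      rw [← hu] at g2
      linarith
    have f4 : Real.exp (-(n : ℝ) ^ c₃) / (Real.exp (-(n : ℝ) ^ c') / 4) ≤ (n : ℝ) ^ (-c') / 8 := by
      rw [hpu, div_le_iff₀ (by positivity)]
      have := hex c₃ q3
      have g : Real.exp (-u) / 8 * Real.exp (-u) ≤ (n : ℝ) ^ (-c') / 8 * (Real.exp (-u) / 4) := by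
        have : Real.exp (-u) / 8 * Real.exp (-u) ≤ (n : ℝ) ^ (-c') / 8 / 8 * Real.exp (-u) :=
          mul_le_mul_of_nonneg_right (by linarith) hpu0.le
        have h0 : 0 ≤ (n : ℝ) ^ (-c') * Real.exp (-u) := by positivity
        linarith
      linarith
    have f5 : Real.exp (-(n : ℝ) ^ c₂) ≤ (n : ℝ) ^ (-c') / 8 := (hex' c₂ q2).trans (by linarith)
    have h0 : 0 ≤ (n : ℝ) ^ (-c') := by positivity
    linarith

end

end Pool.Agent.W_7d29a1_C1.Q24
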