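import Pool.Agent.W_7d29a1_C1.Rank26D
import Pool.Agent.W_7d29a1_C1.Quen24
import Pool.Agent.W_7d29a1_C1.MeetU35

/-!
Both halves (MP_7d29a1_pr), attractor route [C1]: THE RANK ONE EVENT, UNCONDITIONAL. (helper26)

`qu26` = `quen24` (helper24), `mp26` = `meetE`, `meetS` (helper35) at the corners. `rank_one26` : **for all `e, K` there are `d, c' > 0` :
the kernel of `n` rows is of rank one up to the factor `1 + exp (- n ^ c')` on every pair of cells of width `d wd n` with displacement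
within `K wd n` of the mean, with probability at least `1 - e`.**
-/

set_option autoImplicit false

namespace Pool.Agent.W_7d29a1_C1.R26

open MeasureTheory ProbabilityTheory
open Pool.Agent.W_7d29a1_F Pool.Agent.W_7d29a1_h4g Pool.Agent.W_7d29a1_H
open Pool.Agent.W_7d29a1_HS (In wd)
open Pool.Agent.W_7d29a1_C1.Q24 (NMt PQ)

noncomputable section

variable {μ : Measure ℝ} {s : ℝ} [IsProbabilityMeasure μ] {c C : ℝ} {n₀ : ℕ}

/-- The quenched zero one law. -/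
theorem qu26 (h : In μ s c C n₀) : QU26 μ s := by
  obtain ⟨δ, c', h1, h2, n₁, h3⟩ := Pool.Agent.W_7d29a1_C1.Q24.quen24 h
  exact ⟨δ, c', h1, h2, n₁, fun n hn a b hab hb hnab x x' y y' k1 k2 k3 => h3 n hn a b hab hb hnab x x' y y' k1 k2 k3⟩

/-- Constant level meeting of the corners. -/
theorem mp26 (h : In μ s c C n₀) : MP26 μ s := by
  intro e K he hK
  obtain ⟨d₁, hd₁, N₁, hE⟩ := Pool.Agent.W_7d29a1_C1.MeetU35.meetE (B := 8) h hK he
  obtain ⟨d₂, hd₂, N₂, hS⟩ := Pool.Agent.W_7d29a1_C1.MeetU35.meetS (B := 8) h (show 0 ≤ K + 1 by linarith) he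
  refine ⟨min (min d₁ d₂) 1, lt_min (lt_min hd₁ hd₂) one_pos, N₁ + N₂ + 8, fun n hn x x' y y' hx hy hxd hyd hc => ?_⟩
  have hw := h.wd_nonneg n
  have e1 : min (min d₁ d₂) 1 * wd μ s n ≤ d₁ * wd μ s n :=
    mul_le_mul_of_nonneg_right ((min_le_left _ _).trans (min_le_left _ _)) hw
  have e2 : min (min d₁ d₂) 1 * wd μ s n ≤ d₂ * wd μ s n :=
    mul_le_mul_of_nonneg_right ((min_le_left _ _).trans (min_le_right _ _)) hw
  have e3 : min (min d₁ d₂) 1 * wd μ s n ≤ 1 * wd μ s n := mul_le_mul_of_nonneg_right (min_le_right _ _) hw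
  have hx0 : (0 : ℝ) ≤ ((x' - x : ℤ) : ℝ) := by exact_mod_cast (by omega : 0 ≤ x' - x)
  have hy0 : (0 : ℝ) ≤ ((y' - y : ℤ) : ℝ) := by exact_mod_cast (by omega : 0 ≤ y' - y)
  have z1 : |((y - y : ℤ) : ℝ)| = 0 := by rw [sub_self]; norm_num
  have z2 : |((x' - x' : ℤ) : ℝ)| = 0 := by rw [sub_self]; norm_num
  constructor
  · refine hE n (n / 4) (by omega) (Nat.div_le_self _ _) ?_ x y x' y ?_ ?_ hc
    · have : n ≤ 8 * (n / 4) := by omega
      exact_mod_cast this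
    · rw [abs_of_nonneg hx0]
      exact hxd.trans e1
    · rw [z1]
      positivity
  · refine hS n (3 * n / 4) (by omega) (by omega) ?_ x' y x' y' ?_ ?_ ?_
    · have : n ≤ 8 * (n - 3 * n / 4) := by omega
      exact_mod_cast this
    · rw [z2]
      positivity
    · rw [abs_of_nonneg hy0]
      exact hyd.trans e2
    · have hc' := abs_le.1 hc
      push_cast at hc' hxd hx0
      rw [abs_le]
      push_cast
      constructor <;> linarith

/-- **RANK ONE, CELL TO CELL, AT QUENCHED PRECISION.** -/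
theorem rank_one26 (h : In μ s c C n₀) {e K : ℝ} (he : 0 < e) (hK : 0 ≤ K) :
    ∃ d c' : ℝ, 0 < d ∧ 0 < c' ∧ ∃ n₁ : ℕ, ∀ n : ℕ, n₁ ≤ n → ∀ (r : ℤ) (x x' y y' : ℤ), x ≤ x' → y ≤ y' →
      ((x' - x : ℤ) : ℝ) ≤ d * wd μ s n → ((y' - y : ℤ) : ℝ) ≤ d * wd μ s n →
      |((y - x : ℤ) : ℝ) - sl μ s * n| ≤ K * wd μ s n →
      x' ≤ y ∧ y' ≤ x + n ∧ law μ (RK26 μ s r n x x' y y' (Real.exp (-(n : ℝ) ^ c')))ᶜ ≤ ENNReal.ofReal e :=
  rank26 h (qu26 h) (mp26 h) he hK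

end

end Pool.Agent.W_7d29a1_C1.R26
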