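import Pool.Agent.W_7d29a1_C1.SlabT20
import Pool.Agent.W_7d29a1_C1.LevF16
import Pool.Agent.W_7d29a1_HS.Tg

/-!
MP_7d29a1_pr, [C1] THE SLAB LEMMA, THE LEVEL BEFORE THE DEPTH AND BEFORE THE WINDOW (helper24).

`FU24 μ s c n N P b q`: the decreasing half of helper16's `Far16`: every kernel which starts at a place `p` of the rows
`b.1 .. b.1 + N` is at most `exp (q (1 + log (1 + .)) ^ P EE n - hc |y - sl j|)`, `.` = the lateral distance from `b` in widths. It is a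
decreasing event, so it survives next to walls and lucky lanes (`fun20` of helper20 with `A` = lanes and `FU24`). `slabV24`: the slab
lemma with the order of the constants: lanes, separation, bonus `L`, number of lanes; then the level `q`; then the window `K` and the
depth `G`; then the probability.
-/

set_option autoImplicit false

namespace Pool.Agent.W_7d29a1_C1.P24

open MeasureTheory ProbabilityTheory Filter Topology
open Pool.Agent.W_7d29a1_F Pool.Agent.W_7d29a1_h4g Pool.Agent.W_7d29a1_H Pool.Agent.W_7d29a1_HS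
open Pool.Agent.W_7d29a1_HR (Dec)
open Pool.Agent.W_7d29a1_h48 (W_mono_env)
open Pool.Agent.W_7d29a1_C1
open Pool.Agent.W_7d29a1_C1.F31 (DecO FinO)
open Pool.Agent.W_7d29a1_C1.S71 (Off)
open Pool.Agent.W_7d29a1_C1.H75 (hc)
open Pool.Agent.W_7d29a1_C1.U16 (fq16 fq16_one fq16_mono lat16 Far16 far_W far_prob)

noncomputable section

variable {μ : Measure ℝ} {s c C : ℝ} {n₀ : ℕ}

/-- The envelope of the kernels of the rows `b.1 .. b.1 + N`, at every place. -/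
def FU24 (μ : Measure ℝ) (s c : ℝ) (n N P : ℕ) (b : Pt) (q : ℝ) : Set Env :=
  {η | ∀ (p : Pt) (j : ℕ), b.1 ≤ p.1 → p.1 + j ≤ b.1 + N → ∀ y : ℤ,
    W μ s η p j y ≤ Real.exp (q * fq16 P (|lat16 μ s b p| / wd μ s n + 1) * EE μ s n - hc μ s c n * |(y : ℝ) - sl μ s * j|)}

theorem far_sub_FU24 [IsProbabilityMeasure μ] {θ K q : ℝ} {n N P : ℕ} {b : Pt} (hq : 0 ≤ q) (hw : 1 ≤ wd μ s n) (hK : 3 ≤ K) :
    Far16 μ s c θ K n N P b q ⊆ FU24 μ s c n N P b q := fun _ hη _ _ h1 h2 y => far_W hq hw hη hK h1 h2 y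

theorem FU24_mono [IsProbabilityMeasure μ] {q q' : ℝ} (hq : q ≤ q') (n N P : ℕ) (b : Pt) : FU24 μ s c n N P b q ⊆ FU24 μ s c n N P b q' := by
  intro η hη p j h1 h2 y
  refine (hη p j h1 h2 y).trans (Real.exp_le_exp.2 ?_)
  have f1 := fq16_one P (|lat16 μ s b p| / wd μ s n + 1)
  have hE := EE_pos (μ := μ) (s := s) n
  have h3 : q * fq16 P (|lat16 μ s b p| / wd μ s n + 1) * EE μ s n ≤ q' * fq16 P (|lat16 μ s b p| / wd μ s n + 1) * EE μ s n :=
    mul_le_mul_of_nonneg_right (mul_le_mul_of_nonneg_right hq (by linarith)) hE.le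
  linarith

theorem dec_FU24 [IsProbabilityMeasure μ] (n N P : ℕ) (b : Pt) (q : ℝ) : Dec (FU24 μ s c n N P b q) := fun _ _ h hη p j h1 h2 y =>
  (W_mono_env h p j y).trans (hη p j h1 h2 y)

theorem meas_FU24 (n N P : ℕ) (b : Pt) (q : ℝ) : MeasurableSet (FU24 μ s c n N P b q) := by
  have e1 : FU24 μ s c n N P b q = ⋂ (p : Pt) (j : ℕ) (_ : b.1 ≤ p.1) (_ : p.1 + j ≤ b.1 + N) (y : ℤ),
      {η | W μ s η p j y ≤
        Real.exp (q * fq16 P (|lat16 μ s b p| / wd μ s n + 1) * EE μ s n - hc μ s c n * |(y : ℝ) - sl μ s * j|)} := by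
    ext η
    simp only [Set.mem_iInter]
    exact Iff.rfl
  rw [e1]
  exact MeasurableSet.iInter fun p => MeasurableSet.iInter fun j => MeasurableSet.iInter fun _ => MeasurableSet.iInter fun _ =>
    MeasurableSet.iInter fun y => measurableSet_le (measurable_W _ _ _) measurable_const

theorem on_FU24 (n N P : ℕ) (b : Pt) (q : ℝ) : On20 (rows b.1 (b.1 + N)) (FU24 μ s c n N P b q) := by
  intro η η' hh
  refine forall₄_congr fun p j h1 h2 => forall_congr' fun y => ?_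
  have h3 : W μ s η p j y = W μ s η' p j y := W_dep_rows (μ := μ) (s := s) p j y fun r hr => hh r
    ⟨lt_of_le_of_lt h1 hr.1, hr.2.trans h2⟩
  rw [h3]

/-- The base point is moved by a shift. -/
theorem FU24_sh (n N P : ℕ) (b a : Pt) (q : ℝ) (η : Env) : sh a η ∈ FU24 μ s c n N P b q ↔ η ∈ FU24 μ s c n N P (b + a) q := by
  have key : ∀ p : Pt, lat16 μ s (b + a) (p + a) = lat16 μ s b p := by
    intro p
    unfold lat16
    have e1 : (p + a).2 - (b + a).2 = p.2 - b.2 := by simp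
    have e2 : (p + a).1 - (b + a).1 = p.1 - b.1 := by simp
    rw [e1, e2]
  constructor
  · intro H p j h1 h2 y
    have h3 := H (p - a) j (by
      show b.1 ≤ p.1 - a.1
      have : b.1 + a.1 ≤ p.1 := h1
      omega) (by
      show p.1 - a.1 + j ≤ b.1 + N
      have : p.1 + j ≤ b.1 + a.1 + N := h2
      omega) y
    rw [W_sh, sub_add_cancel] at h3
    have h4 := key (p - a)
    rw [sub_add_cancel] at h4
    rw [← h4] at h3
    exact h3
  · intro H p j h1 h2 y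
    rw [W_sh]
    have h3 := H (p + a) j (by
      show b.1 + a.1 ≤ p.1 + a.1
      omega) (by
      show p.1 + a.1 + j ≤ b.1 + a.1 + N
      omega) y
    rw [key] at h3
    exact h3

/-- The total masses. -/
theorem FU24_V [IsProbabilityMeasure μ] {q : ℝ} {n N P : ℕ} {b : Pt} {η : Env} (hhc : 0 ≤ hc μ s c n) (hη : η ∈ FU24 μ s c n N P b q)
    {p : Pt} {j : ℕ} (h1 : b.1 ≤ p.1) (h2 : p.1 + j ≤ b.1 + N) :
    V μ s η p j ≤ Real.log ((j : ℝ) + 1) + q * fq16 P (|lat16 μ s b p| / wd μ s n + 1) * EE μ s n := by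
  have hj : (0 : ℝ) < (j : ℝ) + 1 := by positivity
  have h3 : Real.exp (V μ s η p j) ≤ ((j : ℝ) + 1) * Real.exp (q * fq16 P (|lat16 μ s b p| / wd μ s n + 1) * EE μ s n) := by
    rw [exp_V]
    refine (Finset.sum_le_card_nsmul _ _ (Real.exp (q * fq16 P (|lat16 μ s b p| / wd μ s n + 1) * EE μ s n)) fun y _ => ?_).trans ?_
    · refine (hη p j h1 h2 y).trans (Real.exp_le_exp.2 ?_)
      have := mul_nonneg hhc (abs_nonneg ((y : ℝ) - sl μ s * j))
      linarith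
    · rw [nsmul_eq_mul]
      refine mul_le_mul_of_nonneg_right ?_ (Real.exp_pos _).le
      rw [Int.card_Icc]
      have : ((j : ℤ) + 1 - 0).toNat = j + 1 := by omega
      rw [this]
      push_cast
      exact le_rfl
  rw [← Real.exp_log hj, ← Real.exp_add] at h3
  exact Real.exp_le_exp.1 h3

/-- **THE SLAB LEMMA, THE LEVEL `q` BEFORE THE WINDOW `K` AND THE DEPTH `G`**, the power `P` before everything. -/
theorem slabP24 [IsProbabilityMeasure μ] (h : In μ s c C n₀) :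
    ∃ P : ℕ, ∀ (K₀ δ L : ℝ) (m : ℕ), 0 ≤ K₀ → 0 < δ → ∃ q : ℝ, 0 ≤ q ∧ ∀ K G : ℝ, K₀ ≤ K → 0 ≤ G →
      ∃ (c₁ : ℝ) (Q n₁ : ℕ), 0 < c₁ ∧ 1 ≤ Q ∧ 1 ≤ n₁ ∧
      ∀ n : ℕ, n₁ ≤ n → ∀ (ι : Type) [Fintype ι], Fintype.card ι ≤ m →
      ∀ a e : ι → ℤ, (∀ j, |(a j : ℝ)| ≤ K₀ * wd μ s (Q * n)) → (∀ j, |(e j : ℝ) - sl μ s * (Q * n : ℕ)| ≤ K₀ * wd μ s (Q * n)) →
        (∀ j j', j ≠ j' → ((a j : ℝ) + δ * wd μ s (Q * n) ≤ a j' ∧ (e j : ℝ) + δ * wd μ s (Q * n) ≤ e j') ∨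
          ((a j' : ℝ) + δ * wd μ s (Q * n) ≤ a j ∧ (e j' : ℝ) + δ * wd μ s (Q * n) ≤ e j)) →
        c₁ ≤ (law μ).real (SLAB20 μ s a e (Q * n) (K * wd μ s (Q * n)) (δ / 8 * wd μ s (Q * n)) (L * EE μ s (Q * n))
          (G * EE μ s (Q * n)) ((q * fq16 P (K + 1) + 1) * EE μ s (Q * n)) ∩ FU24 μ s c (Q * n) (Q * n) P 0 q) := by
  obtain ⟨P, A, a₀, g, hA, ha₀, hg, hg1, n₄, hn₄, hfar⟩ := far_prob h (K := 3) (θ := 1) (by norm_num) one_pos le_rfl
  refine ⟨P, fun K₀ δ L m hK₀ hδ => ?_⟩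
  obtain ⟨p₀, hp₀, n₂, hlane⟩ := tubeG20 h (δ / 32) (by positivity) (2 * K₀) L
  obtain ⟨p, hp⟩ : ∃ p : ℝ, p = min p₀ 1 ^ m := ⟨_, rfl⟩
  have hp0 : 0 < p := by rw [hp]; positivity
  obtain ⟨q, hq0, hq⟩ : ∃ q : ℝ, 0 ≤ q ∧ A * Real.exp (-(a₀ * q ^ g)) ≤ p / 2 := by
    obtain ⟨x, hx⟩ : ∃ x : ℝ, x = max 0 (Real.log (2 * A / p) / a₀) := ⟨_, rfl⟩
    have hx0 : 0 ≤ x := by rw [hx]; exact le_max_left _ _
    refine ⟨x ^ (1 / g), Real.rpow_nonneg hx0 _, ?_⟩
    have e1 : (x ^ (1 / g)) ^ g = x := by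
      rw [← Real.rpow_mul hx0]
      have : 1 / g * g = 1 := by field_simp
      rw [this, Real.rpow_one]
    rw [e1]
    have h1 : Real.log (2 * A / p) / a₀ ≤ x := by rw [hx]; exact le_max_right _ _
    rw [div_le_iff₀ ha₀] at h1
    have h2 : Real.exp (-(a₀ * x)) ≤ Real.exp (-Real.log (2 * A / p)) := Real.exp_le_exp.2 (by linarith)
    rw [Real.exp_neg (Real.log _), Real.exp_log (by positivity)] at h2
    calc A * Real.exp (-(a₀ * x)) ≤ A * (2 * A / p)⁻¹ := mul_le_mul_of_nonneg_left h2 hA.le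
      _ = p / 2 := by field_simp
  refine ⟨q, hq0, fun K G hKK hG => ?_⟩
  have hK : 0 ≤ K := by linarith
  obtain ⟨K₃, U, Y, hK3, hU, hY, N₀, hN₀, hfun⟩ := fun20 h (ε := δ / 64) hK (by positivity) hG (show 0 < p / 2 by positivity)
    (D := 2 * K₀) (by positivity)
  obtain ⟨c₁, hc₁, n₁, hn₁, hmain⟩ := hfun N₀ le_rfl
  obtain ⟨n₃, hn₃⟩ := eventually_atTop.1 ((wd_tendsto h).eventually_ge_atTop 1)
  obtain ⟨n₅, hn₅⟩ := lgo h (δ := 1 / 2) (by norm_num)
  obtain ⟨n₆, hn₆⟩ := eventually_atTop.1 (h.tE.eventually_ge_atTop (2 * Real.log 2))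
  refine ⟨c₁, N₀, max n₁ (max n₂ (max n₃ (max n₄ (max n₅ n₆)))), hc₁, hN₀, hn₁.trans (le_max_left _ _),
    fun n hn ι _ hcard a e ha he hsep => ?_⟩
  have hnn1 : n₁ ≤ n := (le_max_left _ _).trans hn
  have hnn2 : n₂ ≤ n := (le_max_left _ _).trans ((le_max_right _ _).trans hn)
  have hnn3 : n₃ ≤ n := (le_max_left _ _).trans ((le_max_right _ _).trans ((le_max_right _ _).trans hn))
  have hnn4 : n₄ ≤ n := (le_max_left _ _).trans ((le_max_right _ _).trans ((le_max_right _ _).trans ((le_max_right _ _).trans hn)))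
  have hnn5 : n₅ ≤ n := (le_max_left _ _).trans ((le_max_right _ _).trans ((le_max_right _ _).trans
    ((le_max_right _ _).trans ((le_max_right _ _).trans hn))))
  have hnn6 : n₆ ≤ n := (le_max_right _ _).trans ((le_max_right _ _).trans ((le_max_right _ _).trans
    ((le_max_right _ _).trans ((le_max_right _ _).trans hn))))
  have hn1 : 1 ≤ n := hn₁.trans hnn1
  obtain ⟨T, hT⟩ : ∃ T : ℕ, T = N₀ * n := ⟨_, rfl⟩
  have hTn : n ≤ T := by rw [hT]; exact Nat.le_mul_of_pos_left n hN₀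
  have hT1 : 1 ≤ T := hn1.trans hTn
  have hw1 : 1 ≤ wd μ s T := hn₃ T (hnn3.trans hTn)
  have hE0 : 0 < EE μ s T := EE_pos T
  obtain ⟨her, hA'⟩ := hmain n hnn1
  rw [← hT] at her hA' ha he hsep ⊢
  have hδw : 0 < δ * wd μ s T := by
    have : 0 < wd μ s T := by linarith
    positivity
  have hhc : 0 ≤ hc μ s c T := by
    unfold hc
    exact div_nonneg (mul_nonneg h.c0.le hE0.le) (by linarith)
  -- the lanes
  have hP : ∀ j, min p₀ 1 ≤ (law μ).real (LN20 μ s a e T (δ / 32 * wd μ s T) (L * EE μ s T) j) := by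
    intro j
    refine (min_le_left _ _).trans (hlane T (hnn2.trans hTn) ((0 : ℤ), a j) (e j - a j) ?_)
    have h3 := ha j
    have h4 := he j
    push_cast
    rw [abs_le] at h3 h4 ⊢
    constructor <;> linarith [h3.1, h3.2, h4.1, h4.2]
  have hp1 : p ≤ (law μ).real (⋂ j ∈ (Finset.univ : Finset ι), LN20 μ s a e T (δ / 32 * wd μ s T) (L * EE μ s T) j) := by
    refine le_trans ?_ (lanes_prob20 (μ := μ) (s := s) hT1 (le_min hp₀.le zero_le_one) (d := δ * wd μ s T) (by linarith) hsep hP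
      Finset.univ)
    rw [hp]
    exact pow_le_pow_of_le_one (le_min hp₀.le zero_le_one) (min_le_right _ _) (by rw [Finset.card_univ]; exact hcard)
  have hmF : MeasurableSet (FU24 μ s c T T P 0 q) := meas_FU24 T T P 0 q
  have hF : (law μ).real (FU24 μ s c T T P 0 q)ᶜ ≤ p / 2 := by
    refine le_trans (measureReal_mono (Set.compl_subset_compl.2 (far_sub_FU24 (θ := 1) (K := 3) hq0 hw1 le_rfl))
      (measure_ne_top _ _)) ?_
    exact (hfar T (hnn4.trans hTn) T le_rfl 0 q hq0).trans hq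
  have hp2 : p / 2 ≤ (law μ).real ((⋂ j ∈ (Finset.univ : Finset ι), LN20 μ s a e T (δ / 32 * wd μ s T) (L * EE μ s T) j) ∩
      FU24 μ s c T T P 0 q) := by
    have h1 := measureReal_inter_add_sdiff (μ := law μ)
      (s := ⋂ j ∈ (Finset.univ : Finset ι), LN20 μ s a e T (δ / 32 * wd μ s T) (L * EE μ s T) j) hmF
    have h2 : (law μ).real ((⋂ j ∈ (Finset.univ : Finset ι), LN20 μ s a e T (δ / 32 * wd μ s T) (L * EE μ s T) j) \
        FU24 μ s c T T P 0 q) ≤ (law μ).real (FU24 μ s c T T P 0 q)ᶜ :=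
      measureReal_mono (fun η hη => hη.2) (measure_ne_top _ _)
    linarith
  have hdr : Drift20 (sl μ s) T (2 * K₀ * wd μ s T) (sl20 a e T) := by
    have h3 := drift_sl20 (v := sl μ s) (K := K₀ * wd μ s T) hT1 ha he
    have e1 : 2 * (K₀ * wd μ s T) = 2 * K₀ * wd μ s T := by ring
    rwa [e1] at h3
  obtain ⟨h1, hdr2⟩ := hA' ι (sl20 a e T) (δ / 32 * wd μ s T) hdr
    ((⋂ j ∈ (Finset.univ : Finset ι), LN20 μ s a e T (δ / 32 * wd μ s T) (L * EE μ s T) j) ∩ FU24 μ s c T T P 0 q)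
    ((Finset.measurableSet_biInter _ fun j _ => meas_LN20 (μ := μ) (s := s) a e T _ _ j).inter hmF)
    ((DecO.of_off fun η η' hh => by
      simp only [Set.mem_iInter]
      exact forall₂_congr fun j _ => dep_LN20 (μ := μ) (s := s) a e T _ _ j η η' fun q hq =>
        hh q (Set.notMem_compl_iff.2 (Tb_sub20 j hq))).inter (DecO.of_dec (dec_FU24 T T P 0 q) _)) hp2
  refine h1.trans (measureReal_mono (fun η hη => ?_) (measure_ne_top _ _))
  obtain ⟨⟨k1, kF⟩, k2, k3, k4, k5⟩ := hη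
  rw [← hT] at k2 k3 k4 k5
  refine ⟨⟨fun j => ?_, fun x y hx hxy => ?_, fun x hx => ?_⟩, kF⟩
  · have h2 : η ∈ LN20 μ s a e T (δ / 32 * wd μ s T) (L * EE μ s T) j := Set.mem_iInter₂.1 k1 j (Finset.mem_univ _)
    exact le_trans h2 (WR_le_W _ _ _ _ _)
  · refine le_trans ?_ her
    have hωω : K * wd μ s T ≤ K₃ * wd μ s T := mul_le_mul_of_nonneg_right (by linarith) (by linarith)
    have hs1 := kernel_small20 (μ := μ) (s := s) (ω₀ := K * wd μ s T) (ω := K₃ * wd μ s T) (ρ := δ / 64 * wd μ s T)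
      (α := δ / 32 * wd μ s T + 2 * (δ / 64 * wd μ s T)) (τ := δ / 64 * wd μ s T) (Y := Y * EE μ s T)
      (Y' := (G + 1) * EE μ s T) (U := U * EE μ s T) (n := n) (N := N₀) (l := la20 (sl20 a e T) n) (η := η) hn1 hN₀ hωω
      (by rw [← hT]; exact k2) (by rw [← hT]; exact k3) k4 k5 (fun j i hi => hdr2 j i hi) (fun j j' hj i hi => ?_) hx y
      (fun j => ?_)
    · rw [← hT] at hs1
      exact hs1
    · -- separation
      have t1 : (((i * n : ℕ) : ℝ)) ≤ T := by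
        rw [hT]
        exact_mod_cast Nat.mul_le_mul_right n hi
      have h3 := sep_sl20 hT1 hsep hj (t := ((i * n : ℕ) : ℝ)) (Nat.cast_nonneg _) t1
      unfold la20
      refine lt_of_lt_of_le ?_ h3
      linarith
    · rintro ⟨h3, h4⟩
      refine hxy j ⟨?_, ?_⟩
      · have e1 : la20 (sl20 a e T) n j 0 = a j := by
          unfold la20 sl20
          simp
        rw [e1] at h3
        linarith
      · have e1 : la20 (sl20 a e T) n j N₀ = e j := by
          unfold la20 sl20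
          rw [← hT, div_self (by positivity : (T : ℝ) ≠ 0)]
          ring
        rw [e1] at h4
        linarith
  · have h3 := FU24_V hhc kF (p := ((0 : ℤ), x)) (j := T) (le_refl (0 : ℤ)) (le_refl _)
    refine h3.trans ?_
    have hl : lat16 μ s 0 ((0 : ℤ), x) = x := by
      unfold lat16
      simp
    rw [hl]
    have h4 : |(x : ℝ)| / wd μ s T ≤ K := by
      rw [div_le_iff₀ (by linarith)]
      exact hx
    have h5 : fq16 P (|(x : ℝ)| / wd μ s T + 1) ≤ fq16 P (K + 1) := by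
      refine fq16_mono ?_
      have : 0 ≤ |(x : ℝ)| / wd μ s T := by positivity
      have g1 : 0 ≤ |(x : ℝ)| / wd μ s T + 1 := by linarith
      have g2 : 0 ≤ K + 1 := by linarith
      rw [abs_of_nonneg g1, abs_of_nonneg g2]
      linarith
    have h6 : q * fq16 P (|(x : ℝ)| / wd μ s T + 1) * EE μ s T ≤ q * fq16 P (K + 1) * EE μ s T :=
      mul_le_mul_of_nonneg_right (mul_le_mul_of_nonneg_left h5 hq0) hE0.le
    have h7 : Real.log ((T : ℝ) + 1) ≤ EE μ s T := by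
      have hTr : (1 : ℝ) ≤ T := by exact_mod_cast hT1
      have g1 : Real.log ((T : ℝ) + 1) ≤ Real.log (2 * T) := Real.log_le_log (by positivity) (by linarith)
      rw [Real.log_mul (by norm_num) (by positivity)] at g1
      have g2 := hn₅ T (hnn5.trans hTn)
      have g3 := hn₆ T (hnn6.trans hTn)
      linarith
    nlinarith

/-- The same, without the power in front. -/
theorem slabV24 [IsProbabilityMeasure μ] (h : In μ s c C n₀) {K₀ δ : ℝ} (L : ℝ) (hK₀ : 0 ≤ K₀) (hδ : 0 < δ) (m : ℕ) :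
    ∃ (P : ℕ) (q : ℝ), 0 ≤ q ∧ ∀ K G : ℝ, K₀ ≤ K → 0 ≤ G → ∃ (c₁ : ℝ) (Q n₁ : ℕ), 0 < c₁ ∧ 1 ≤ Q ∧ 1 ≤ n₁ ∧
      ∀ n : ℕ, n₁ ≤ n → ∀ (ι : Type) [Fintype ι], Fintype.card ι ≤ m →
      ∀ a e : ι → ℤ, (∀ j, |(a j : ℝ)| ≤ K₀ * wd μ s (Q * n)) → (∀ j, |(e j : ℝ) - sl μ s * (Q * n : ℕ)| ≤ K₀ * wd μ s (Q * n)) →
        (∀ j j', j ≠ j' → ((a j : ℝ) + δ * wd μ s (Q * n) ≤ a j' ∧ (e j : ℝ) + δ * wd μ s (Q * n) ≤ e j') ∨
          ((a j' : ℝ) + δ * wd μ s (Q * n) ≤ a j ∧ (e j' : ℝ) + δ * wd μ s (Q * n) ≤ e j)) →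
        c₁ ≤ (law μ).real (SLAB20 μ s a e (Q * n) (K * wd μ s (Q * n)) (δ / 8 * wd μ s (Q * n)) (L * EE μ s (Q * n))
          (G * EE μ s (Q * n)) ((q * fq16 P (K + 1) + 1) * EE μ s (Q * n)) ∩ FU24 μ s c (Q * n) (Q * n) P 0 q) := by
  obtain ⟨P, hP⟩ := slabP24 h
  exact ⟨P, hP K₀ δ L m hK₀ hδ⟩

end

end Pool.Agent.W_7d29a1_C1.P24
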