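import Pool.Agent.W_7d29a1_C1.TunU20
import Pool.Agent.W_7d29a1_C1.SlabV24

/-!
MP_7d29a1_pr, [C1] **THE TUNED SLAB LEMMA WITH THE LEVEL AT EVERY PLACE** (`FU24` of helper24), the level `q` before the window `K` of the
starts and the depth `G`; at any base, everything else frozen. (helper20)
-/

set_option autoImplicit false

namespace Pool.Agent.W_7d29a1_C1

open MeasureTheory ProbabilityTheory Filter Topology
open Pool.Agent.W_7d29a1_F Pool.Agent.W_7d29a1_h4g Pool.Agent.W_7d29a1_H Pool.Agent.W_7d29a1_HS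
open Pool.Agent.W_7d29a1_HR (Dec Fin')
open Pool.Agent.W_7d29a1_C1.S71 (Off gl)
open Pool.Agent.W_7d29a1_C1.P24 (FU24 meas_FU24 dec_FU24 on_FU24 far_sub_FU24)
open Pool.Agent.W_7d29a1_C1.U16 (Far16 far_prob)

noncomputable section

variable {μ : Measure ℝ} {s c C : ℝ} {n₀ : ℕ}

/-- The level: for every tolerance `p` there is `q`, uniformly in the base. -/
theorem prob_FU24 [IsProbabilityMeasure μ] (h : In μ s c C n₀) : ∃ P : ℕ, ∀ p : ℝ, 0 < p → ∃ q : ℝ, 0 ≤ q ∧ ∃ n₁ : ℕ,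
    ∀ T : ℕ, n₁ ≤ T → ∀ N : ℕ, N ≤ T → ∀ b : Pt, (law μ).real (FU24 μ s c T N P b q)ᶜ ≤ p := by
  obtain ⟨P, A, a₀, g, hA, ha₀, hg, hg1, n₄, hn₄, hfar⟩ := far_prob h (K := 3) (θ := 1) (by norm_num) one_pos le_rfl
  obtain ⟨n₃, hn₃⟩ := eventually_atTop.1 ((wd_tendsto h).eventually_ge_atTop 1)
  refine ⟨P, fun p hp => ?_⟩
  obtain ⟨x, hx⟩ : ∃ x : ℝ, x = max 0 (Real.log (A / p) / a₀) := ⟨_, rfl⟩
  have hx0 : 0 ≤ x := by rw [hx]; exact le_max_left _ _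
  have hxe : (x ^ (1 / g)) ^ g = x := by
    rw [← Real.rpow_mul hx0]
    have : 1 / g * g = 1 := by field_simp
    rw [this, Real.rpow_one]
  refine ⟨x ^ (1 / g), Real.rpow_nonneg hx0 _, max n₄ n₃, fun T hT N hN b => ?_⟩
  have hT4 : n₄ ≤ T := (le_max_left _ _).trans hT
  have hw1 : 1 ≤ wd μ s T := hn₃ T ((le_max_right _ _).trans hT)
  refine le_trans (measureReal_mono (Set.compl_subset_compl.2
    (far_sub_FU24 (θ := 1) (K := 3) (Real.rpow_nonneg hx0 _) hw1 le_rfl)) (measure_ne_top _ _)) ?_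
  refine (hfar T hT4 N hN b _ (Real.rpow_nonneg hx0 _)).trans ?_
  rw [hxe]
  have h1 : Real.log (A / p) / a₀ ≤ x := by rw [hx]; exact le_max_right _ _
  rw [div_le_iff₀ ha₀] at h1
  have h2 : Real.exp (-(a₀ * x)) ≤ Real.exp (-Real.log (A / p)) := Real.exp_le_exp.2 (by linarith)
  rw [Real.exp_neg (Real.log _), Real.exp_log (by positivity)] at h2
  calc A * Real.exp (-(a₀ * x)) ≤ A * (A / p)⁻¹ := mul_le_mul_of_nonneg_left h2 hA.le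
    _ = p := by field_simp

/-- **THE TUNED SLAB LEMMA WITH THE LEVEL AT EVERY PLACE.** Order: `P`; lanes, separation, precision, cells, targets, bonus; then `κ`, the
level `q`; then the window `K`; `U`; `G`; `c₁`, `Q`, `n₁`. -/
theorem tslabV20 [IsProbabilityMeasure μ] (h : In μ s c C n₀) : ∃ P : ℕ, ∀ K₁ δ d δ' Kt L : ℝ, 0 ≤ K₁ → 0 < δ → 0 < d → 0 < δ' →
    0 ≤ Kt → ∃ κ q : ℝ, 0 < κ ∧ 0 ≤ q ∧ ∀ K : ℝ, K₁ ≤ K → ∃ U : ℝ, 0 ≤ U ∧ ∀ G : ℝ, 0 ≤ G →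
      ∃ (c₁ : ℝ) (Q n₁ : ℕ), 0 < c₁ ∧ 1 ≤ Q ∧ 1 ≤ n₁ ∧ ∀ n : ℕ, n₁ ≤ n →
      ∃ r : ℝ, κ * wd μ s (Q * n) ≤ r ∧ r ≤ δ' * wd μ s (Q * n) ∧
      ∀ (ι : Type) [Fintype ι], Fintype.card ι ≤ 2 →
      ∀ a e : ι → ℤ, (∀ j, |(a j : ℝ)| ≤ K₁ * wd μ s (Q * n)) → (∀ j, |(e j : ℝ) - sl μ s * (Q * n : ℕ)| ≤ K₁ * wd μ s (Q * n)) →
        (∀ j j', j ≠ j' → ((a j : ℝ) + δ * wd μ s (Q * n) ≤ a j' ∧ (e j : ℝ) + δ * wd μ s (Q * n) ≤ e j') ∨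
          ((a j' : ℝ) + δ * wd μ s (Q * n) ≤ a j ∧ (e j' : ℝ) + δ * wd μ s (Q * n) ≤ e j)) →
        ∀ (j₁ j₀ : ι) (t : ℝ), |t| ≤ Kt * EE μ s (Q * n) → (j₁ = j₀ → t = 0) →
        ∀ (b : Pt) (B : Set Pt), rows b.1 (b.1 + (Q * n : ℕ)) ⊆ B → ∀ f : Env,
        c₁ ≤ (law μ).real {η | gl B η f ∈ at20 b (TS20 μ s a e (Q * n) (K * wd μ s (Q * n)) r (L * EE μ s (Q * n))
          (G * EE μ s (Q * n)) (U * EE μ s (Q * n)) (d * EE μ s (Q * n)) j₁ j₀ t ∩ FU24 μ s c (Q * n) (Q * n) P 0 q)} := by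
  obtain ⟨P, hP⟩ := prob_FU24 h
  refine ⟨P, fun K₁ δ d δ' Kt L hK₁ hδ hd hδ' hKt => ?_⟩
  obtain ⟨κ, p, hκ, hp, hK⟩ := tslabF20 h L hK₁ hδ hd hδ' hKt
  obtain ⟨q, hq, n₂, hF⟩ := hP p hp
  refine ⟨κ, q, hκ, hq, fun K hKK => ?_⟩
  obtain ⟨U, hU, hG⟩ := hK K hKK
  refine ⟨U, hU, fun G hG0 => ?_⟩
  obtain ⟨c₁, Q, n₁, hc₁, hQ, hn₁, hmain⟩ := hG G hG0
  refine ⟨c₁, Q, max n₁ n₂, hc₁, hQ, hn₁.trans (le_max_left _ _), fun n hn => ?_⟩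
  obtain ⟨r, hr1, hr2, hmain⟩ := hmain n ((le_max_left _ _).trans hn)
  refine ⟨r, hr1, hr2, fun ι _ hcard a e ha he hsep j₁ j₀ t ht ht0 b B hB f => ?_⟩
  have hT : n₂ ≤ Q * n := ((le_max_right _ _).trans hn).trans (Nat.le_mul_of_pos_left n hQ)
  refine hmain ι hcard a e ha he hsep j₁ j₀ t ht ht0 _ (meas_FU24 _ _ _ _ _) (dec_FU24 _ _ _ _ _) (hF (Q * n) hT (Q * n) le_rfl 0) ?_ b
    B hB f
  exact on_FU24 (μ := μ) (s := s) (c := c) (Q * n) (Q * n) P 0 q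

end

end Pool.Agent.W_7d29a1_C1
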