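import Pool.Agent.W_7d29a1_C1.BufE26
import Pool.Agent.W_7d29a1_C1.Rank26E
import Pool.Agent.W_7d29a1_C1.TunV20

/-!
MP_7d29a1_pr, [C1] THE BUFFER BEHIND THE TWO LANES, the inputs are theorems (helper26): `rkP26` (`R26.rank_one26`), `tslP26` (`tslabV20` of
helper20). Do not import this file in a leaf: state the leaf under `RkP26`, `TslP26`.
-/

set_option autoImplicit false

namespace Pool.Agent.W_7d29a1_C1.B26

open MeasureTheory ProbabilityTheory Filter Topology Finset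
open Pool.Agent.W_7d29a1_F Pool.Agent.W_7d29a1_h4g Pool.Agent.W_7d29a1_H Pool.Agent.W_7d29a1_HS
open Pool.Agent.W_7d29a1_C1
open Pool.Agent.W_7d29a1_C1.Basin76
open Pool.Agent.W_7d29a1_C1.S71 (gl)
open Pool.Agent.W_7d29a1_C1.P24 (FU24 meas_FU24 on_FU24 FU24_sh)

noncomputable section

variable {μ : Measure ℝ} {s c C : ℝ} {n₀ : ℕ}

theorem rkP26 [IsProbabilityMeasure μ] (h : In μ s c C n₀) : RkP26 μ s := fun _ _ he hK => R26.rank_one26 h he hK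

theorem tslP26 [IsProbabilityMeasure μ] (h : In μ s c C n₀) : TslP26 μ s c := by
  obtain ⟨P, hP⟩ := tslabV20 h
  refine ⟨P, fun K₁ δ d δ' L hK₁ hδ hd hδ' => ?_⟩
  obtain ⟨κ, q, hκ, hq, hK⟩ := hP K₁ δ d δ' 0 L hK₁ hδ hd hδ' le_rfl
  refine ⟨κ, q, hκ, hq, fun K hKK G hG => ?_⟩
  obtain ⟨U, hU, hG'⟩ := hK K hKK
  obtain ⟨c₁, Q, n₁, hc₁, hQ, hn₁, hmain⟩ := hG' G hG
  refine ⟨c₁, Q, n₁, hc₁, hQ, hn₁, fun n hn => ?_⟩
  obtain ⟨r, hr1, hr2, hmain⟩ := hmain n hn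
  refine ⟨r, hr1, hr2, fun a e ha he hs1 hs2 => ?_⟩
  obtain ⟨S, hS⟩ : ∃ S : Set Env, S = TS20 μ s a e (Q * n) (K * wd μ s (Q * n)) r (L * EE μ s (Q * n))
      (G * EE μ s (Q * n)) (U * EE μ s (Q * n)) (d * EE μ s (Q * n)) true false 0 ∩ FU24 μ s c (Q * n) (Q * n) P 0 q := ⟨_, rfl⟩
  have mS : MeasurableSet S := by
    rw [hS]
    exact (meas_TS20 _ _ _ _ _ _ _ _ _ _ _ _).inter (meas_FU24 _ _ _ _ _)
  have oS : On20 (rows 0 (0 + (Q * n : ℕ))) S := by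
    rw [hS]
    exact (on_TS20 _ _ _ _ _ _ _ _ _ _ _ _).inter (on_FU24 (Q * n) (Q * n) P 0 q)
  have hpr := hmain Bool (by simp) a e ha he (fun j j' hj => by
    cases j <;> cases j'
    · exact absurd rfl hj
    · exact Or.inl ⟨hs1, hs2⟩
    · exact Or.inr ⟨hs1, hs2⟩
    · exact absurd rfl hj) true false 0 (by
      rw [abs_zero]
      have := EE_pos (μ := μ) (s := s) (Q * n)
      linarith) (fun _ => rfl) 0 Set.univ (Set.subset_univ _) (fun _ => 0)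
  rw [← hS] at hpr
  have hgl : {η : Env | gl Set.univ η (fun _ => 0) ∈ at20 0 S} = S := by
    ext η
    show sh 0 (gl Set.univ η fun _ => 0) ∈ S ↔ η ∈ S
    have e1 : sh 0 (gl Set.univ η fun _ => 0) = η := by
      funext p
      show gl Set.univ η (fun _ => 0) (p + 0) = η p
      rw [add_zero]
      unfold gl
      simp
    rw [e1]
  rw [hgl] at hpr
  refine ⟨S, mS, oS, hpr, fun b η hη => ?_⟩
  rw [hS] at hη
  obtain ⟨h1, h2⟩ := hη
  have h1' : η ∈ at20 b (TS20 μ s a e (Q * n) (K * wd μ s (Q * n)) r (L * EE μ s (Q * n))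
      (G * EE μ s (Q * n)) (U * EE μ s (Q * n)) (d * EE μ s (Q * n)) true false 0) := h1
  rw [mem_at_TS20] at h1'
  obtain ⟨⟨t1, t2, -⟩, t3, t4⟩ := h1'
  have key : ∀ x y : ℤ, kW μ s η b.1 (Q * n) (b.2 + x) (b.2 + y) = W μ s η (b.1, x + b.2) (Q * n) (y - x) := by
    intro x y
    show W μ s η (b.1, b.2 + x) (Q * n) (b.2 + y - (b.2 + x)) = _
    have e1 : b.2 + y - (b.2 + x) = y - x := by ring
    rw [e1, add_comm b.2 x]
  have key2 : ∀ x y : ℤ, kW μ s η b.1 (Q * n) x y = W μ s η (b.1, (x - b.2) + b.2) (Q * n) ((y - b.2) - (x - b.2)) := by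
    intro x y
    show W μ s η (b.1, x) (Q * n) (y - x) = _
    have e1 : y - b.2 - (x - b.2) = y - x := by ring
    rw [e1, sub_add_cancel]
  refine ⟨fun j => ?_, fun x y hx hxy => ?_, fun j x y hx hy => ?_, ?_, ?_⟩
  · rw [key]
    exact t1 j
  · rw [key2]
    refine t2 (x - b.2) (y - b.2) (by push_cast; exact hx) fun j hj => hxy j ?_
    push_cast at hj ⊢
    refine ⟨?_, ?_⟩
    · have e1 : (x : ℝ) - (b.2 + a j) = x - b.2 - a j := by ring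
      rw [e1]
      exact hj.1
    · have e1 : (y : ℝ) - (b.2 + e j) = y - b.2 - e j := by ring
      rw [e1]
      exact hj.2
  · rw [key2, key]
    refine t3 j (x - b.2) (y - b.2) ?_ ?_
    · push_cast at hx ⊢
      have e1 : (x : ℝ) - (b.2 + a j) = x - b.2 - a j := by ring
      rw [← e1]
      exact hx
    · push_cast at hy ⊢
      have e1 : (y : ℝ) - (b.2 + e j) = y - b.2 - e j := by ring
      rw [← e1]
      exact hy
  · rw [key, key]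
    rw [sub_zero] at t4
    exact t4
  · have h3 := (FU24_sh (μ := μ) (s := s) (c := c) (Q * n) (Q * n) P 0 b q η).1 h2
    rw [zero_add] at h3
    exact h3

/-- **THE BUFFER BEHIND THE TWO LANES, over `In` only.** -/
theorem bufIn26 [IsProbabilityMeasure μ] (h : In μ s c C n₀) :
    ∃ ell : ℝ, 0 ≤ ell ∧ ∀ K0 del dd be g L Kw : ℝ, 0 ≤ K0 → 0 < del → 0 < dd → 0 ≤ be → be ≤ c / 8 → 0 ≤ g → 0 ≤ L → 0 ≤ Kw →
    ∃ th K Kx ellw Kc Q1 c' p : ℝ, 0 < th ∧ 0 ≤ Kx ∧ Kx + 1 ≤ K ∧ Kw ≤ K ∧ 0 < Kc ∧ 0 < c' ∧ 0 < p ∧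
    ∃ RM RF RB k₁ : ℕ, 1 ≤ RM ∧ RM ≤ RF ∧ 1 ≤ RB ∧ RB ≤ RF ∧ 1 ≤ k₁ ∧
    ∀ k : ℕ, k₁ ≤ k → ∀ u : Bool → ℤ, (∀ i, |(u i : ℝ)| ≤ K0 * wd μ s (RF * k)) →
      (u false : ℝ) + del * wd μ s (RF * k) ≤ u true →
      ∃ S : Set Env, MeasurableSet S ∧ OnR26 (rows 0 ((RM * k + (RF * k + RB * k) : ℕ) : ℤ)) S ∧ p ≤ (law μ).real S ∧
      ∀ η ∈ S, ∃ A : ℝ, Real.exp (L * EE μ s (RF * k)) ≤ A ∧
        BufP26 μ s c η (RM * k) (RF * k) (RB * k) u th K Kx del A (Real.exp (-((RF * k : ℕ) : ℝ) ^ c')) (ell + 2 * dd) ellw Kc be g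
          Q1 := buf26 h (rkP26 h) (tslP26 h)

end

end Pool.Agent.W_7d29a1_C1.B26
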