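import Pool.Agent.W_7d29a1_C1.Gini76

/-!
Both halves (MP_7d29a1_pr), attractor route [C1]. (helper76)

Totally positive kernels of a slab: everything from ONE cross ratio.
`I : ι → κ → ℝ`, `I > 0` on the window `[ya, yb] × [xa, xb]`, `TP` : for `y ≤ y'`, `x ≤ x'`,
`I y x' * I y' x ≤ I y x * I y' x'` (LGV).  `CR I y y' x x' = I y x * I y' x' / (I y x' * I y' x) ≥ 1`.

* `one_le_CR`, `CR_mono` : monotone in both windows; `CR_mul` : multiplicative.
* `rank_one` : `I y x = A y * D x * θ`, `1 ≤ θ ≤ CR` : rank one with error.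
* `nomeet_profile` : for EVERY terminal profile the weight of the pairs not yet met is at most
  `(√CR - 1)/(√CR + 1)` times the product of the partition functions; `nomeet_masses` for every masses.
* `comp_right`, `comp_left` : `CR (I J) ≤ CR J`, `CR (I J) ≤ CR I`.
* `mix_le` : a start between `yl` and `yr` is dominated by a mixture of the two with local factors.
-/

set_option autoImplicit false
set_option linter.unusedSectionVars false

namespace Pool.Agent.W_7d29a1_C1.CR76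

open Finset Pool.Agent.W_7d29a1_C1.Gini76

variable {ι κ τ : Type*} [LinearOrder ι] [LinearOrder κ] [LinearOrder τ]

/-- positive and totally positive (order 2) on the window `Y × X` -/
structure TP (I : ι → κ → ℝ) (Y : Set ι) (X : Set κ) : Prop where
  pos : ∀ y ∈ Y, ∀ x ∈ X, 0 < I y x
  tp : ∀ y ∈ Y, ∀ y' ∈ Y, y ≤ y' → ∀ x ∈ X, ∀ x' ∈ X, x ≤ x' → I y x' * I y' x ≤ I y x * I y' x'

/-- the cross ratio -/
noncomputable def CR (I : ι → κ → ℝ) (y y' : ι) (x x' : κ) : ℝ := I y x * I y' x' / (I y x' * I y' x)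

variable {I : ι → κ → ℝ} {Y : Set ι} {X : Set κ}

theorem TP.one_le_CR (h : TP I Y X) {y y' : ι} {x x' : κ} (hy : y ∈ Y) (hy' : y' ∈ Y) (hx : x ∈ X)
    (hx' : x' ∈ X) (h1 : y ≤ y') (h2 : x ≤ x') : 1 ≤ CR I y y' x x' := by
  unfold CR
  rw [le_div_iff₀ (mul_pos (h.pos y hy x' hx') (h.pos y' hy' x hx)), one_mul]
  exact h.tp y hy y' hy' h1 x hx x' hx' h2

theorem CR_symm_ratio (h : TP I Y X) {y y' : ι} {x x' : κ} (hy : y ∈ Y) (hy' : y' ∈ Y) (hx : x ∈ X)
    (hx' : x' ∈ X) : CR I y y' x x' = (I y' x' / I y x') / (I y' x / I y x) := by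
  have := (h.pos y hy x hx).ne'
  have := (h.pos y hy x' hx').ne'
  have := (h.pos y' hy' x hx).ne'
  have := (h.pos y' hy' x' hx').ne'
  unfold CR
  field_simp

/-- multiplicative in the target window -/
theorem CR_mul_x (h : TP I Y X) {y y' : ι} {x x' x'' : κ} (hy : y ∈ Y) (hy' : y' ∈ Y) (hx : x ∈ X)
    (hx' : x' ∈ X) (hx'' : x'' ∈ X) : CR I y y' x x'' = CR I y y' x x' * CR I y y' x' x'' := by
  have := (h.pos y hy x hx).ne'
  have := (h.pos y hy x' hx').ne'
  have := (h.pos y' hy' x hx).ne'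
  have := (h.pos y' hy' x' hx').ne'
  have := (h.pos y hy x'' hx'').ne'
  have := (h.pos y' hy' x'' hx'').ne'
  unfold CR
  field_simp

/-- multiplicative in the starting window -/
theorem CR_mul_y (h : TP I Y X) {y y' y'' : ι} {x x' : κ} (hy : y ∈ Y) (hy' : y' ∈ Y) (hy'' : y'' ∈ Y)
    (hx : x ∈ X) (hx' : x' ∈ X) : CR I y y'' x x' = CR I y y' x x' * CR I y' y'' x x' := by
  have := (h.pos y hy x hx).ne'
  have := (h.pos y hy x' hx').ne'
  have := (h.pos y' hy' x hx).ne'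
  have := (h.pos y' hy' x' hx').ne'
  have := (h.pos y'' hy'' x hx).ne'
  have := (h.pos y'' hy'' x' hx').ne'
  unfold CR
  field_simp

/-- **monotone in both windows** -/
theorem TP.CR_mono (h : TP I Y X) {ya y y' yb : ι} {xa x x' xb : κ}
    (hya : ya ∈ Y) (hy : y ∈ Y) (hy' : y' ∈ Y) (hyb : yb ∈ Y)
    (hxa : xa ∈ X) (hx : x ∈ X) (hx' : x' ∈ X) (hxb : xb ∈ X)
    (h1 : ya ≤ y) (h2 : y ≤ y') (h3 : y' ≤ yb) (h4 : xa ≤ x) (h5 : x ≤ x') (h6 : x' ≤ xb) :
    CR I y y' x x' ≤ CR I ya yb xa xb := by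
  have a1 := h.one_le_CR hya hy hxa hxb h1 (h4.trans (h5.trans h6))
  have a2 := h.one_le_CR hy' hyb hxa hxb h3 (h4.trans (h5.trans h6))
  have b1 := h.one_le_CR hy hy' hxa hx h2 h4
  have b2 := h.one_le_CR hy hy' hx' hxb h2 h6
  have c0 := h.one_le_CR hy hy' hx hx' h2 h5
  rw [CR_mul_y h hya hy hyb hxa hxb, CR_mul_y h hy hy' hyb hxa hxb, CR_mul_x h hy hy' hxa hx hxb,
    CR_mul_x h hy hy' hx hx' hxb]
  calc CR I y y' x x' = 1 * ((1 * (CR I y y' x x' * 1)) * 1) := by ring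
    _ ≤ CR I ya y xa xb * ((CR I y y' xa x * (CR I y y' x x' * CR I y y' x' xb)) * CR I y' yb xa xb) := by
        gcongr

/-- **rank one with error** : reference point `(ya, xa)` = the lower corner. -/
theorem TP.rank_one (h : TP I Y X) {ya y yb : ι} {xa x xb : κ}
    (hya : ya ∈ Y) (hy : y ∈ Y) (hyb : yb ∈ Y) (hxa : xa ∈ X) (hx : x ∈ X) (hxb : xb ∈ X)
    (h1 : ya ≤ y) (h2 : y ≤ yb) (h4 : xa ≤ x) (h5 : x ≤ xb) :
    I y xa * I ya x / I ya xa ≤ I y x ∧
      I y x ≤ CR I ya yb xa xb * (I y xa * I ya x / I ya xa) := by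
  have p0 := h.pos ya hya xa hxa
  have p1 := h.pos y hy xa hxa
  have p2 := h.pos ya hya x hx
  have p3 := h.pos y hy x hx
  have c1 : CR I ya y xa x ≤ CR I ya yb xa xb :=
    h.CR_mono hya hya hy hyb hxa hxa hx hxb le_rfl h1 h2 le_rfl h4 h5
  have c0 := h.one_le_CR hya hy hxa hx h1 h4
  have e : I y x = CR I ya y xa x * (I y xa * I ya x / I ya xa) := by
    unfold CR; field_simp
  have q : 0 < I y xa * I ya x / I ya xa := by positivity
  constructor
  · rw [e]; exact le_mul_of_one_le_left q.le c0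
  · rw [e]; exact mul_le_mul_of_nonneg_right c1 q.le

/-- rows are proportional up to the cross ratio -/
theorem TP.row_le (h : TP I Y X) {y y' : ι} {xa x xb : κ} (hy : y ∈ Y) (hy' : y' ∈ Y)
    (hxa : xa ∈ X) (hx : x ∈ X) (hxb : xb ∈ X) (h2 : y ≤ y') (h4 : xa ≤ x) (h5 : x ≤ xb) :
    (I y' xa / I y xa) * I y x ≤ I y' x ∧
      I y' x ≤ CR I y y' xa xb * (I y' xa / I y xa) * I y x := by
  have r := h.rank_one hy hy' hy' hxa hx hxb h2 le_rfl h4 h5
  have p0 := h.pos y hy xa hxa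
  constructor
  · calc (I y' xa / I y xa) * I y x = I y' xa * I y x / I y xa := by ring
      _ ≤ I y' x := r.1
  · calc I y' x ≤ CR I y y' xa xb * (I y' xa * I y x / I y xa) := r.2
      _ = CR I y y' xa xb * (I y' xa / I y xa) * I y x := by ring

/-- **No meeting, every terminal profile.** -/
theorem TP.nomeet_profile (h : TP I Y X) (S : Finset κ) (hS : ∀ x ∈ S, x ∈ X) {y y' : ι} {xa xb : κ}
    (hy : y ∈ Y) (hy' : y' ∈ Y) (hxa : xa ∈ X) (hxb : xb ∈ X) (h2 : y ≤ y')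
    (hw : ∀ x ∈ S, xa ≤ x ∧ x ≤ xb) (f : κ → ℝ) (hf : ∀ x ∈ S, 0 ≤ f x) (c : ℝ)
    (hc : CR I y y' xa xb ≤ c) (hc1 : 1 < c) :
    P2 S (fun x x' => NIk I y y' x x' * (f x * f x')) ≤
      (√c - 1) / (√c + 1) * ((∑ x ∈ S, I y x * f x) * ∑ x ∈ S, I y' x * f x) := by
  set a : ℝ := I y' xa / I y xa with ha
  have p0 := h.pos y hy xa hxa
  have p1 := h.pos y' hy' xa hxa
  have ha0 : 0 < a := div_pos p1 p0
  have key := gini_sqrt S (fun x => I y x * f x) (fun x => I y' x * f x) a (c * a) ha0.le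
    (by nlinarith) (fun x hx => mul_nonneg (h.pos y hy x (hS x hx)).le (hf x hx))
    (fun x hx => by
      have := (h.row_le hy hy' hxa (hS x hx) hxb h2 (hw x hx).1 (hw x hx).2).1
      nlinarith [mul_le_mul_of_nonneg_right this (hf x hx)])
    (fun x hx => by
      have h3 := (h.row_le hy hy' hxa (hS x hx) hxb h2 (hw x hx).1 (hw x hx).2).2
      have h4 : CR I y y' xa xb * (I y' xa / I y xa) * I y x ≤ c * a * I y x := by
        have p3 := (h.pos y hy x (hS x hx)).le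
        gcongr
      nlinarith [mul_le_mul_of_nonneg_right (h3.trans h4) (hf x hx)])
  have e1 : P2 S (fun x x' => NIk I y y' x x' * (f x * f x')) =
      P2 S (NI (fun x => I y x * f x) (fun x => I y' x * f x)) :=
    P2_congr fun x _ x' _ _ => by simp only [NIk, NI]; ring
  have e2 : (√(c * a) - √a) / (√(c * a) + √a) = (√c - 1) / (√c + 1) := by
    rw [Real.sqrt_mul (by linarith)]
    have sa : √a ≠ 0 := (Real.sqrt_pos.2 ha0).ne'
    have : √c * √a - √a = (√c - 1) * √a := by ring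
    have h' : √c * √a + √a = (√c + 1) * √a := by ring
    rw [this, h', mul_div_mul_right _ _ sa]
  rw [e1, ← e2]
  exact key

/-- transposed kernel -/
theorem TP.flip (h : TP I Y X) : TP (fun x y => I y x) X Y where
  pos := fun x hx y hy => h.pos y hy x hx
  tp := fun x hx x' hx' hxx y hy y' hy' hyy => by
    have := h.tp y hy y' hy' hyy x hx x' hx' hxx
    nlinarith

theorem CR_flip (y y' : ι) (x x' : κ) : CR (fun x y => I y x) x x' y y' = CR I y y' x x' := by
  unfold CR; ring_nf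

/-- **No meeting backwards, every entrance masses** (two ends `x ≤ x'`, common masses `m`). -/
theorem TP.nomeet_masses (h : TP I Y X) (S : Finset ι) (hS : ∀ y ∈ S, y ∈ Y) {x x' : κ} {ya yb : ι}
    (hx : x ∈ X) (hx' : x' ∈ X) (hya : ya ∈ Y) (hyb : yb ∈ Y) (h2 : x ≤ x')
    (hw : ∀ y ∈ S, ya ≤ y ∧ y ≤ yb) (m : ι → ℝ) (hm : ∀ y ∈ S, 0 ≤ m y) (c : ℝ)
    (hc : CR I ya yb x x' ≤ c) (hc1 : 1 < c) :
    P2 S (fun y y' => NIk I y y' x x' * (m y * m y')) ≤
      (√c - 1) / (√c + 1) * ((∑ y ∈ S, I y x * m y) * ∑ y ∈ S, I y x' * m y) := by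
  have key := h.flip.nomeet_profile S hS hx hx' hya hyb h2 hw m hm c (by rw [CR_flip]; exact hc) hc1
  refine le_trans (le_of_eq (P2_congr fun y _ y' _ _ => ?_)) key
  simp only [NIk]; ring

/-- composition of kernels over the middle row `S` -/
noncomputable def comp (S : Finset κ) (I : ι → κ → ℝ) (J : κ → τ → ℝ) (y : ι) (z : τ) : ℝ :=
  ∑ x ∈ S, I y x * J x z

/-- A weighted mean of an increasing function is at most its value at the upper end, at least at the lower. -/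
theorem TP.comp_ratio {J : κ → τ → ℝ} {Z : Set τ} (hJ : TP J X Z) (S : Finset κ) (hS : ∀ x ∈ S, x ∈ X)
    (u : κ → ℝ) (hu : ∀ x ∈ S, 0 ≤ u x) {xa xb : κ} {z z' : τ} (hxa : xa ∈ X) (hxb : xb ∈ X)
    (hz : z ∈ Z) (hz' : z' ∈ Z) (hzz : z ≤ z') (hw : ∀ x ∈ S, xa ≤ x ∧ x ≤ xb) :
    (J xa z' / J xa z) * (∑ x ∈ S, u x * J x z) ≤ ∑ x ∈ S, u x * J x z' ∧
      (∑ x ∈ S, u x * J x z') ≤ (J xb z' / J xb z) * ∑ x ∈ S, u x * J x z := by
  have pa := hJ.pos xa hxa z hz
  have pb := hJ.pos xb hxb z hz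
  constructor
  · rw [mul_sum]
    refine sum_le_sum fun x hx => ?_
    have t := hJ.tp xa hxa x (hS x hx) (hw x hx).1 z hz z' hz' hzz
    have : J xa z' / J xa z * (u x * J x z) = u x * (J xa z' * J x z / J xa z) := by ring
    rw [this]
    refine mul_le_mul_of_nonneg_left ?_ (hu x hx)
    rw [div_le_iff₀ pa]
    linarith
  · rw [mul_sum]
    refine sum_le_sum fun x hx => ?_
    have t := hJ.tp x (hS x hx) xb hxb (hw x hx).2 z hz z' hz' hzz
    have : J xb z' / J xb z * (u x * J x z) = u x * (J xb z' * J x z / J xb z) := by ring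
    rw [this]
    refine mul_le_mul_of_nonneg_left ?_ (hu x hx)
    rw [le_div_iff₀ pb]
    linarith

/-- **`CR (I J) ≤ CR J`.** -/
theorem TP.comp_right {J : κ → τ → ℝ} {Z : Set τ} (hJ : TP J X Z) (S : Finset κ)
    (hS : ∀ x ∈ S, x ∈ X) (hI : ∀ y ∈ Y, ∀ x ∈ S, 0 ≤ I y x) {y y' : ι} (hy : y ∈ Y) (hy' : y' ∈ Y)
    {xa xb : κ} {z z' : τ} (hxa : xa ∈ X) (hxb : xb ∈ X) (hz : z ∈ Z) (hz' : z' ∈ Z) (hzz : z ≤ z')
    (hw : ∀ x ∈ S, xa ≤ x ∧ x ≤ xb) (hp : 0 < comp S I J y z) (hp' : 0 < comp S I J y' z) :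
    CR (comp S I J) y y' z z' ≤ CR J xa xb z z' := by
  have r1 := (hJ.comp_ratio S hS (I y) (hI y hy) hxa hxb hz hz' hzz hw).1
  have r2 := (hJ.comp_ratio S hS (I y') (hI y' hy') hxa hxb hz hz' hzz hw).2
  have pa := hJ.pos xa hxa z hz
  have pa' := hJ.pos xa hxa z' hz'
  have pb := hJ.pos xb hxb z hz
  have pb' := hJ.pos xb hxb z' hz'
  change (J xa z' / J xa z) * comp S I J y z ≤ comp S I J y z' at r1
  change comp S I J y' z' ≤ (J xb z' / J xb z) * comp S I J y' z at r2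
  have hq : 0 < comp S I J y z' := lt_of_lt_of_le (mul_pos (div_pos pa' pa) hp) r1
  have e : CR J xa xb z z' = (J xb z' / J xb z) / (J xa z' / J xa z) := by
    unfold CR; field_simp
  rw [e]
  unfold CR
  rw [div_le_div_iff₀ (mul_pos hq hp') (div_pos pa' pa)]
  calc comp S I J y z * comp S I J y' z' * (J xa z' / J xa z)
      = (J xa z' / J xa z * comp S I J y z) * comp S I J y' z' := by ring
    _ ≤ comp S I J y z' * ((J xb z' / J xb z) * comp S I J y' z) := by
        refine mul_le_mul r1 r2 ?_ hq.le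
        exact sum_nonneg fun x hx => mul_nonneg (hI y' hy' x hx)
          (hJ.pos x (hS x hx) z' hz').le
    _ = J xb z' / J xb z * (comp S I J y z' * comp S I J y' z) := by ring

/-- **`CR (I J) ≤ CR I`.** -/
theorem TP.comp_left {J : κ → τ → ℝ} {Z : Set τ} (hI : TP I Y X) (S : Finset κ)
    (hS : ∀ x ∈ S, x ∈ X) (hJ : ∀ x ∈ S, ∀ z ∈ Z, 0 ≤ J x z) {y y' : ι} (hy : y ∈ Y) (hy' : y' ∈ Y)
    (hyy : y ≤ y') {xa xb : κ} {z z' : τ} (hxa : xa ∈ X) (hxb : xb ∈ X) (hz : z ∈ Z) (hz' : z' ∈ Z)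
    (hw : ∀ x ∈ S, xa ≤ x ∧ x ≤ xb) (hp : 0 < comp S I J y z) (hp' : 0 < comp S I J y z') :
    CR (comp S I J) y y' z z' ≤ CR I y y' xa xb := by
  have key := TP.comp_right (I := fun z x => J x z) (J := fun x y => I y x) (Y := Z) (X := X) (Z := Y)
    hI.flip S hS (fun z hz x hx => hJ x hx z hz) hz hz' hxa hxb hy hy' hyy hw
    (by simpa [comp, mul_comm] using hp) (by simpa [comp, mul_comm] using hp')
  have e1 : CR (fun x y => I y x) xa xb y y' = CR I y y' xa xb := CR_flip y y' xa xb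
  have e2 : CR (comp S (fun z x => J x z) (fun x y => I y x)) z z' y y' = CR (comp S I J) y y' z z' := by
    have e : comp S (fun z x => J x z) (fun x y => I y x) = fun z y => comp S I J y z := by
      funext z y
      simp only [comp]
      exact sum_congr rfl fun x _ => by ring
    rw [e]
    exact CR_flip (I := comp S I J) y y' z z'
  rw [e1, e2] at key
  exact key

/-- **A start in between is dominated by a mixture**, with factors of the slab only. -/
theorem TP.mix_le (h : TP I Y X) {yl y yr : ι} {x x0 : κ} (hyl : yl ∈ Y) (hy : y ∈ Y) (hyr : yr ∈ Y)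
    (hx : x ∈ X) (hx0 : x0 ∈ X) (h1 : yl ≤ y) (h2 : y ≤ yr) :
    I y x ≤ (I y x0 / I yl x0) * I yl x + (I y x0 / I yr x0) * I yr x := by
  have pl := h.pos yl hyl x0 hx0
  have pr := h.pos yr hyr x0 hx0
  have p := h.pos y hy x0 hx0
  have ql := h.pos yl hyl x hx
  have qr := h.pos yr hyr x hx
  rcases le_total x x0 with hxx | hxx
  · -- `x ≤ x0` : compare with `yl`
    have t := h.tp yl hyl y hy h1 x hx x0 hx0 hxx
    have : I y x ≤ (I y x0 / I yl x0) * I yl x := by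
      rw [div_mul_eq_mul_div, le_div_iff₀ pl]; nlinarith
    have : 0 ≤ (I y x0 / I yr x0) * I yr x := by positivity
    linarith
  · have t := h.tp y hy yr hyr h2 x0 hx0 x hx hxx
    have : I y x ≤ (I y x0 / I yr x0) * I yr x := by
      rw [div_mul_eq_mul_div, le_div_iff₀ pr]; nlinarith
    have : 0 ≤ (I y x0 / I yl x0) * I yl x := by positivity
    linarith

/-- the same for the partition functions with any terminal profile -/
theorem TP.mix_profile (h : TP I Y X) (S : Finset κ) (hS : ∀ x ∈ S, x ∈ X) {yl y yr : ι} {x0 : κ}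
    (hyl : yl ∈ Y) (hy : y ∈ Y) (hyr : yr ∈ Y) (hx0 : x0 ∈ X) (h1 : yl ≤ y) (h2 : y ≤ yr)
    (f : κ → ℝ) (hf : ∀ x ∈ S, 0 ≤ f x) :
    pull S I f y ≤ (I y x0 / I yl x0) * pull S I f yl + (I y x0 / I yr x0) * pull S I f yr := by
  unfold pull
  rw [mul_sum, mul_sum, ← sum_add_distrib]
  refine sum_le_sum fun x hx => ?_
  have := mul_le_mul_of_nonneg_right (h.mix_le hyl hy hyr (hS x hx) hx0 h1 h2) (hf x hx)
  nlinarith

/-- the odds of the two sides of a cut `p` are monotone in the start -/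
theorem TP.odds_mono (h : TP I Y X) (A B : Finset κ) (hA : ∀ x ∈ A, x ∈ X) (hB : ∀ x ∈ B, x ∈ X)
    (hAB : ∀ x ∈ A, ∀ x' ∈ B, x ≤ x') {y y' : ι} (hy : y ∈ Y) (hy' : y' ∈ Y) (h1 : y ≤ y')
    (f : κ → ℝ) (hfA : ∀ x ∈ A, 0 ≤ f x) (hfB : ∀ x ∈ B, 0 ≤ f x) :
    pull A I f y' * pull B I f y ≤ pull A I f y * pull B I f y' := by
  unfold pull
  rw [sum_mul_sum, sum_mul_sum]
  refine sum_le_sum fun x hx => sum_le_sum fun x' hx' => ?_
  have t := h.tp y hy y' hy' h1 x (hA x hx) x' (hB x' hx') (hAB x hx x' hx')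
  have : 0 ≤ f x * f x' := mul_nonneg (hfA x hx) (hfB x' hx')
  nlinarith [mul_le_mul_of_nonneg_right t this]

end Pool.Agent.W_7d29a1_C1.CR76
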