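import Pool.Agent.W_7d29a1_C1.CrD84

/-!
MP_7d29a1_pr, attractor route [C1], THE STRONG CRUDE ARMS (post of 01:26). (helper88)

`CrS84` (helper84) bounds the crude arms by `exp (-(N ^ c'))` only; the top of the PAST needs `exp (-G)` with `G` larger than
the crude cost `N ^ ε₀ EE` of a lower kernel.

* `FG88` : the levels `Far16` at ALL base points `(a, x)`, `a ≤ N`, `|x| ≤ 4 N`, heights `T ≤ m ≤ Nf`; `fg_prob88`,
  **`fg_law88`** (level `N ^ ε₀`, law of the complement at most `exp (-(N ^ c'))`);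
* `ker_dec88` : the kernels decay linearly from every site;
* `cr_free88`, **`cl_free88`** : the clauses `cr`, `cl` of `CrS84` without the condition on the switch row (`|t| T ≤ 1`);
* **`cas88`** : `PM16 (D wd m ≤ |z - x - sl m|) ≤ exp (-(c / 16 D EE m)) bh16`, all `D ≥ N ^ ε`, `ε ≥ 4 ε₀`.
-/

set_option autoImplicit false

namespace Pool.Agent.W_7d29a1_C1.CaS88

open MeasureTheory ProbabilityTheory Filter Topology Finset
open Pool.Agent.W_7d29a1_F Pool.Agent.W_7d29a1_h4g Pool.Agent.W_7d29a1_H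
open Pool.Agent.W_7d29a1_HS (In wd md md_abs wd_le_two wd_lower_one wd_tendsto)
open Pool.Agent.W_7d29a1_C1.H75 (hc)
open Pool.Agent.W_7d29a1_C1.U16 Pool.Agent.W_7d29a1_C1.FarW89 Pool.Agent.W_7d29a1_C1.Win84 Pool.Agent.W_7d29a1_C1.Cr84

noncomputable section

variable {μ : Measure ℝ} {s : ℝ} [IsProbabilityMeasure μ] {c C : ℝ} {n₀ : ℕ}

/-! ### Numbers -/

theorem w4_88 {k m a b : ℝ} (hk : 0 < k) (h1 : k * a ≤ 2 * (m * b)) (h2 : m ≤ 2 * k) (hb : 0 ≤ b) : a ≤ 4 * b := by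
  refine le_of_mul_le_mul_left ?_ hk
  have h3 := mul_le_mul_of_nonneg_right h2 hb
  linarith

theorem two_exp88 {u E a b : ℝ} (hu : 0 ≤ u) (ha : a ≤ E) (hb : b ≤ E) : -(2 * (u * E)) ≤ -(u * a) + -(u * b) := by
  have h1 := mul_le_mul_of_nonneg_left ha hu
  have h2 := mul_le_mul_of_nonneg_left hb hu
  linarith

/-- The root against the slope. -/
theorem rt88 {c u E w D Δ r : ℝ} (hc : 0 < c) (hu : 1 ≤ u) (hE : 0 < E) (hw : 0 < w) (hwE : w ≤ u * E ^ 2) (hcu : 32 / c ^ 2 ≤ u)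
    (hD : u ^ 4 ≤ D) (hΔ : D * w ≤ Δ) (hr : r ≤ 2 * Δ) : u * Real.sqrt r ≤ c / 4 * (E / w) * Δ := by
  have hu0 : 0 < u := by linarith
  have hu4 : 0 < u ^ 4 := by positivity
  have hΔw : u ^ 4 * w ≤ Δ := (mul_le_mul_of_nonneg_right hD hw.le).trans hΔ
  have hΔ0 : 0 < Δ := (mul_pos hu4 hw).trans_le hΔw
  have r2 : 0 ≤ c / 4 * (E / w) * Δ := by positivity
  have s4 : 1 ≤ u * (E ^ 2 / w) := by
    rw [mul_div_assoc', le_div_iff₀ hw, one_mul]
    exact hwE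
  have s5 : 32 ≤ u * c ^ 2 := by rwa [div_le_iff₀ (by positivity)] at hcu
  have s3 : (c / 4 * (E / w)) ^ 2 * (u ^ 4 * w) = (u * c ^ 2) / 16 * u ^ 2 * (u * (E ^ 2 / w)) := by
    field_simp
    ring
  have s9 : 2 * u ^ 2 ≤ (u * c ^ 2) / 16 * u ^ 2 := mul_le_mul_of_nonneg_right (by linarith) (sq_nonneg _)
  have s8 : (u * c ^ 2) / 16 * u ^ 2 ≤ (u * c ^ 2) / 16 * u ^ 2 * (u * (E ^ 2 / w)) := le_mul_of_one_le_right (by positivity) s4
  have s2 : (c / 4 * (E / w)) ^ 2 * (u ^ 4 * w) ≤ (c / 4 * (E / w)) ^ 2 * Δ := mul_le_mul_of_nonneg_left hΔw (sq_nonneg _)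
  have s1 : 2 * u ^ 2 ≤ (c / 4 * (E / w)) ^ 2 * Δ := by
    rw [s3] at s2
    exact (s9.trans s8).trans s2
  have r3 : u ^ 2 * (2 * Δ) ≤ (c / 4 * (E / w) * Δ) ^ 2 := by
    calc u ^ 2 * (2 * Δ) = (2 * u ^ 2) * Δ := by ring
      _ ≤ ((c / 4 * (E / w)) ^ 2 * Δ) * Δ := mul_le_mul_of_nonneg_right s1 hΔ0.le
      _ = _ := by ring
  have r4 : u * Real.sqrt r ≤ Real.sqrt (u ^ 2 * (2 * Δ)) := by
    rw [Real.sqrt_mul (sq_nonneg _), Real.sqrt_sq hu0.le]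
    exact mul_le_mul_of_nonneg_left (Real.sqrt_le_sqrt hr) hu0.le
  exact r4.trans (Real.sqrt_le_iff.2 ⟨r2, r3⟩)

/-- The exponent of one far place. -/
theorem ex88 {C₅ c u E w D Δ e r : ℝ} (hC : 0 < C₅) (hc : 0 < c) (hu : 1 ≤ u) (hE : 0 < E) (hw : 0 < w) (hΔ : D * w ≤ Δ)
    (he : e ≤ E) (hr : u * r ≤ c / 4 * (E / w) * Δ) :
    C₅ * (1 + u) ^ 2 * E - c / 2 * (E / w) * Δ + u * (e + r) + 2 * (u * E) ≤
      4 * C₅ * u ^ 2 * E + 3 * (u * E) - c / 4 * (D * E) + (c / 4 * (D * E) - (c / 4 * (E / w) * Δ)) := by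
  have v0 : (1 + u) ^ 2 ≤ 4 * u ^ 2 := by nlinarith
  have v1 : C₅ * (1 + u) ^ 2 * E ≤ C₅ * (4 * u ^ 2) * E :=
    mul_le_mul_of_nonneg_right (mul_le_mul_of_nonneg_left v0 hC.le) hE.le
  have v2 : u * e ≤ u * E := mul_le_mul_of_nonneg_left he (by linarith)
  have e1 : u * (e + r) = u * e + u * r := by ring
  have e2 : C₅ * (4 * u ^ 2) * E = 4 * C₅ * u ^ 2 * E := by ring
  have e3 : c / 2 * (E / w) * Δ = c / 4 * (E / w) * Δ + c / 4 * (E / w) * Δ := by ring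
  rw [e1, e3]
  rw [e2] at v1
  linarith

theorem dl88 {c E w D Δ : ℝ} (hc : 0 < c) (hE : 0 < E) (hw : 0 < w) (hΔ : D * w ≤ Δ) : c / 4 * (D * E) ≤ c / 4 * (E / w) * Δ := by
  have h1 : D * E ≤ E / w * Δ := by
    rw [div_mul_eq_mul_div, le_div_iff₀ hw]
    have := mul_le_mul_of_nonneg_left hΔ hE.le
    linarith
  have h2 := mul_le_mul_of_nonneg_left h1 (show 0 ≤ c / 4 by positivity)
  linarith

/-- The last count. -/
theorem cnt88 {C₅ c u E D : ℝ} (hC : 0 < C₅) (hc : 0 < c) (hu : 1 ≤ u) (hE : 0 < E) (hD : u ^ 4 ≤ D)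
    (hu3 : (4 * C₅ + 4) * 16 / (3 * c) ≤ u) :
    u * E + (4 * C₅ * u ^ 2 * E + 3 * (u * E) - c / 4 * (D * E)) ≤ -(c / 16 * (D * E)) := by
  have hu0 : 0 < u := by linarith
  have w1 : (4 * C₅ + 4) * 16 ≤ u * (3 * c) := by rwa [div_le_iff₀ (by positivity)] at hu3
  have w3 : 4 * C₅ * u ^ 2 + 4 * u ≤ (4 * C₅ + 4) * u ^ 2 := by nlinarith
  have w5 : (4 * C₅ + 4) ≤ 3 * c / 16 * u := by linarith
  have w6 : (4 * C₅ + 4) * u ^ 2 ≤ 3 * c / 16 * u * u ^ 2 := mul_le_mul_of_nonneg_right w5 (sq_nonneg _)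
  have w7 : 3 * c / 16 * u * u ^ 2 ≤ 3 * c / 16 * u ^ 4 := by
    have h1 : u * u ^ 2 ≤ u ^ 4 := by
      have h2 : u ^ 3 ≤ u ^ 4 := pow_le_pow_right₀ hu (by norm_num)
      linarith [show u * u ^ 2 = u ^ 3 by ring]
    have h3 := mul_le_mul_of_nonneg_left h1 (show 0 ≤ 3 * c / 16 by positivity)
    linarith
  have w8 : 3 * c / 16 * u ^ 4 ≤ 3 * c / 16 * D := mul_le_mul_of_nonneg_left hD (by positivity)
  have w2 : 4 * C₅ * u ^ 2 + 4 * u ≤ 3 * c / 16 * D := by linarith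
  have w9 := mul_le_mul_of_nonneg_right w2 hE.le
  have e9 : 3 * c / 16 * D * E = 3 * (c / 16 * (D * E)) := by ring
  have e10 : c / 4 * (D * E) = 4 * (c / 16 * (D * E)) := by ring
  have e11 : (4 * C₅ * u ^ 2 + 4 * u) * E = 4 * C₅ * u ^ 2 * E + 4 * (u * E) := by ring
  rw [e9, e11] at w9
  rw [e10]
  linarith

/-! ### The levels at all base points -/

/-- The levels at all base points of the box. -/
def FG88 (μ : Measure ℝ) (s c : ℝ) (P : ℕ) (q : ℝ) (N T Nf : ℕ) : Set Env :=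
  {η | ∀ a m : ℕ, a ≤ N → T ≤ m → m ≤ Nf → ∀ x : ℤ, |x| ≤ 4 * N → η ∈ Far16 μ s c 1 3 m m P ((a : ℤ), x) q}

theorem fg_prob88 (h : In μ s c C n₀) : ∃ (P : ℕ) (A a g : ℝ), 0 < A ∧ 0 < a ∧ 0 < g ∧ ∃ n₁ : ℕ, 1 ≤ n₁ ∧
    ∀ N T Nf : ℕ, n₁ ≤ T → T ≤ N → Nf ≤ N → ∀ q : ℝ, 0 ≤ q →
      (law μ).real (FG88 μ s c P q N T Nf)ᶜ ≤ (20 * (N : ℝ)) ^ 3 * (A * Real.exp (-(a * q ^ g))) := by
  obtain ⟨P, A, a, g, hA, ha, hg, hg1, n₁, hn1, H⟩ := far_prob h (K := 3) (θ := 1) (by norm_num) one_pos le_rfl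
  refine ⟨P, A, a, g, hA, ha, hg, n₁, hn1, fun N T Nf hT hTN hNf q hq => ?_⟩
  have hN1 : 1 ≤ N := hn1.trans (hT.trans hTN)
  have hNR : (1 : ℝ) ≤ N := by exact_mod_cast hN1
  obtain ⟨I, hI⟩ : ∃ I : Finset ((ℕ × ℕ) × ℤ), I = ((range (N + 1) ×ˢ (range (N + 1)).filter (fun m => T ≤ m)) ×ˢ
      Icc (-(4 * (N : ℤ))) (4 * N)) := ⟨_, rfl⟩
  have hsub : (FG88 μ s c P q N T Nf)ᶜ ⊆ ⋃ i ∈ I, (Far16 μ s c 1 3 i.1.2 i.1.2 P ((i.1.1 : ℤ), i.2) q)ᶜ := by
    intro η hη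
    unfold FG88 at hη
    rw [Set.mem_compl_iff, Set.mem_ofPred_eq] at hη
    push Not at hη
    obtain ⟨b, m, hb, hm, hmf, x, hx, hh⟩ := hη
    refine Set.mem_iUnion₂.2 ⟨((b, m), x), ?_, hh⟩
    rw [hI, mem_product, mem_product, mem_filter, mem_range, mem_range, mem_Icc]
    rw [abs_le] at hx
    exact ⟨⟨Nat.lt_succ_of_le hb, Nat.lt_succ_of_le (hmf.trans hNf), hm⟩, hx.1, hx.2⟩
  refine (measureReal_mono hsub (measure_ne_top _ _)).trans ?_
  refine un84 I _ (fun i hi => ?_) (by positivity) ?_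
  · rw [hI, mem_product, mem_product, mem_filter] at hi
    exact H i.1.2 (hT.trans hi.1.2.2) i.1.2 le_rfl _ q hq
  · have h1 : I.card ≤ (N + 1) * (N + 1) * (8 * N + 1) := by
      rw [hI, card_product, card_product, card_range, Int.card_Icc]
      refine Nat.mul_le_mul (Nat.mul_le_mul_left _ ((card_filter_le _ _).trans (le_of_eq (card_range _)))) ?_
      omega
    have h2 : (I.card : ℝ) ≤ ((N : ℝ) + 1) * (N + 1) * (8 * N + 1) := by exact_mod_cast h1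
    refine h2.trans ?_
    have h3 : ((N : ℝ) + 1) * (N + 1) * (8 * N + 1) ≤ (2 * N) * (2 * N) * (9 * N) := by gcongr <;> linarith
    refine h3.trans ?_
    have h4 : (0 : ℝ) ≤ (N : ℝ) ^ 3 := by positivity
    nlinarith

/-- **The law of the levels at all base points**, level `N ^ ε₀`. -/
theorem fg_law88 (h : In μ s c C n₀) : ∃ P : ℕ, ∀ {ε₀ τ : ℝ}, 0 < ε₀ → 0 < τ → ∃ c' : ℝ, 0 < c' ∧ ∃ N₀ : ℕ, ∀ N T Nf : ℕ, N₀ ≤ N →
    (N : ℝ) ^ τ ≤ T → T ≤ N → Nf ≤ N →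
      (law μ).real (FG88 μ s c P ((N : ℝ) ^ ε₀) N T Nf)ᶜ ≤ Real.exp (-(N : ℝ) ^ c') := by
  obtain ⟨P, A, a, g, hA, ha, hg, n₁, hn1, H⟩ := fg_prob88 h
  refine ⟨P, fun {ε₀ τ} hε₀ hτ => ⟨ε₀ * g / 2, by positivity, ?_⟩⟩
  have ev1 := Pool.Agent.W_7d29a1_HZ.Z22.absorb (A * 20 ^ 3) 3 (b := a) (g := ε₀ * g) ha (by positivity)
  obtain ⟨N₁, hN₁⟩ := eventually_atTop.1 (ev1.and (ev84 (n₁ : ℝ) hτ))
  refine ⟨max N₁ 1, fun N T Nf hN hNT hTN hNf => ?_⟩
  obtain ⟨q1, q2⟩ := hN₁ N ((le_max_left _ _).trans hN)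
  have hN1 : 1 ≤ N := (le_max_right _ _).trans hN
  have hN0 : (0 : ℝ) < N := by exact_mod_cast hN1
  have hT1 : n₁ ≤ T := by
    have : (n₁ : ℝ) ≤ T := q2.trans hNT
    exact_mod_cast this
  refine (H N T Nf hT1 hTN hNf ((N : ℝ) ^ ε₀) (by positivity)).trans (le_trans (le_of_eq ?_) q1)
  rw [← Real.rpow_mul hN0.le, show ((3 : ℝ)) = ((3 : ℕ) : ℝ) by norm_num, Real.rpow_natCast]
  ring

/-- **The kernels decay**, all sites. -/
theorem ker_dec88 (h : In μ s c C n₀) (P : ℕ) : ∃ C₅ : ℝ, 0 < C₅ ∧ ∃ n₁ : ℕ, ∀ {q t : ℝ} {N T Nf : ℕ} {η : Env}, n₁ ≤ T → 0 ≤ q →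
    η ∈ FG88 μ s c P q N T Nf → ∀ {M : ℕ} {p : ℕ → ℝ}, (∀ k, k < M → p k = Real.exp (s + t)) → (∀ k, M ≤ k → p k = Real.exp s) →
    ∀ a m : ℕ, a ≤ N → T ≤ m → m ≤ Nf → |t| * wd μ s m ≤ c / 4 * EE μ s m → ∀ x z : ℤ, |x| ≤ 4 * N →
      nk μ s t η p M a m x z ≤ Real.exp (C₅ * (1 + q) ^ 2 * EE μ s m - c / 2 * (EE μ s m / wd μ s m) * |(z : ℝ) - x - sl μ s * m|) := by
  obtain ⟨C₄, hC₄, n₁, H⟩ := comp_up h P
  have hf := fq16_one (2 * P) 1
  refine ⟨C₄ * fq16 (2 * P) 1, by positivity, n₁, ?_⟩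
  intro q t N T Nf η hT hq hη M p hp hp' a m haN hTm hmf hforce x z hx
  have h1 := (H (hT.trans hTm) le_rfl hq (hη a m haN hTm hmf x hx) le_rfl hforce ((a : ℤ), x) (bl M a m) (m - bl M a m) le_rfl (by
    have := bl_le M a m
    show (a : ℤ) + (bl M a m : ℕ) + ((m - bl M a m : ℕ) : ℤ) ≤ (a : ℤ) + m
    omega)).1 (z - x)
  rw [nk_K1 hp hp']
  refine h1.trans (Real.exp_le_exp.2 (le_of_eq ?_))
  have e1 : lat16 μ s ((a : ℤ), x) ((a : ℤ), x) = 0 := by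
    unfold lat16
    simp
  rw [e1, abs_zero, zero_div, zero_add, Nat.add_sub_cancel' (bl_le M a m)]
  unfold hc
  push_cast
  ring

/-! ### The clauses of `CrS84` without the switch row -/

omit [IsProbabilityMeasure μ] in
theorem cr_free88 {t ε δ c' : ℝ} {N T M Nt : ℕ} {p : ℕ → ℝ} {η : Env} (S : CrS84 μ s t ε δ c' N T M Nt p η) (htT : |t| * T ≤ 1)
    {a : ℕ} (ha : a + 1 ≤ Nt) {x x' : ℤ} (hx : |x| ≤ 4 * N) (hx' : |x'| ≤ 4 * N) :
    bh16 μ s t η p M Nt a x ≤ Real.exp ((N : ℝ) ^ ε * (EE μ s T + Real.sqrt |(x : ℝ) - x'|)) * bh16 μ s t η p M Nt a x' := by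
  refine S.cr a ha ?_ x x' hx hx'
  rcases le_or_gt T (M - a) with h1 | h1
  · exact Or.inl h1
  · refine Or.inr (le_trans (mul_le_mul_of_nonneg_left ?_ (abs_nonneg t)) htT)
    exact_mod_cast h1.le

/-- **The lower kernels, any position of the switch row.** -/
theorem cl_free88 (h : In μ s c C n₀) {t ε δ c' : ℝ} {N T M Nt : ℕ} {p : ℕ → ℝ} {η : Env} (S : CrS84 μ s t ε δ c' N T M Nt p η)
    (hpos : ∀ k, 0 < p k) (htT : |t| * T ≤ 1) (hT : 1 ≤ T) (hδ : 0 ≤ δ) {a m : ℕ} (hm : 2 * T ≤ m) (ham : a + m ≤ N) {x z : ℤ}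
    (hx : |x| ≤ 3 * N) (hz : |(z : ℝ) - x - sl μ s * m| ≤ (N : ℝ) ^ δ * wd μ s m / 8) :
    Real.exp (-(2 * ((N : ℝ) ^ ε * EE μ s m))) ≤ nk μ s t η p M a m x z := by
  have hN1 : 1 ≤ N := by omega
  have hNR : (1 : ℝ) ≤ N := by exact_mod_cast hN1
  have hNd : 1 ≤ (N : ℝ) ^ δ := Real.one_le_rpow hNR hδ
  have hNe : 0 < (N : ℝ) ^ ε := Real.rpow_pos_of_pos (by linarith) _
  have hE := EE_pos (μ := μ) (s := s) m
  have hx4 : |x| ≤ 4 * N := by omega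
  have hwm := wd_two h (show 1 ≤ m by omega)
  by_cases hcase : m ≤ M - a ∨ |t| * ((M - a : ℕ) : ℝ) ≤ 1
  · refine le_trans (Real.exp_le_exp.2 ?_) (S.cl a m (by omega) ham hcase x z hx4 (hz.trans ?_))
    · have : 0 ≤ (N : ℝ) ^ ε * EE μ s m := by positivity
      linarith
    · have : 0 ≤ (N : ℝ) ^ δ * wd μ s m := by positivity
      linarith
  · rw [not_or, not_le, not_le] at hcase
    obtain ⟨c1, c2⟩ := hcase
    have c3 : T < M - a := by
      by_contra hcon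
      push Not at hcon
      have : |t| * ((M - a : ℕ) : ℝ) ≤ |t| * T := mul_le_mul_of_nonneg_left (by exact_mod_cast hcon) (abs_nonneg t)
      linarith
    -- the row of the cut
    obtain ⟨k, hk1, hk2, hk3, hk4⟩ : ∃ k : ℕ, T ≤ k ∧ T + k ≤ m ∧ k ≤ M - a ∧ |t| * ((M - (a + k) : ℕ) : ℝ) ≤ 1 := by
      rcases le_or_gt T (m - (M - a)) with h1 | h1
      · refine ⟨M - a, c3.le, by omega, le_rfl, ?_⟩
        have e1 : M - (a + (M - a)) = 0 := by omega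
        rw [e1, Nat.cast_zero, mul_zero]
        exact zero_le_one
      · refine ⟨m - T, by omega, by omega, by omega, le_trans (mul_le_mul_of_nonneg_left ?_ (abs_nonneg t)) htT⟩
        have : M - (a + (m - T)) ≤ T := by omega
        exact_mod_cast this
    have hkm : k ≤ m := by omega
    have e1 : m = k + (m - k) := by omega
    have em : (m : ℝ) = k + ((m - k : ℕ) : ℝ) := by
      rw [← Nat.cast_add, Nat.add_sub_cancel' hkm]
    -- the middle place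
    have key : ∀ y : ℤ, |(y : ℝ) - x - sl μ s * k| ≤ (N : ℝ) ^ δ * wd μ s k →
        |(z : ℝ) - y - sl μ s * ((m - k : ℕ) : ℝ)| ≤ (N : ℝ) ^ δ * wd μ s (m - k) →
        Real.exp (-(2 * ((N : ℝ) ^ ε * EE μ s m))) ≤ nk μ s t η p M a m x z := by
      intro y hy1 hy2
      have a1 := S.cl a k hk1 (by omega) (Or.inl hk3) x y hx4 hy1
      have a0 : ¬ ¬ (x ≤ y ∧ y ≤ x + (k : ℕ)) := fun hn => by
        rw [nk_eq_zero a k hn] at a1
        exact absurd a1 (not_le.2 (Real.exp_pos _))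
      rw [not_not] at a0
      have hy4 : |y| ≤ 4 * N := by
        rw [abs_le] at hx ⊢
        omega
      have a2 := S.cl (a + k) (m - k) (by omega) (by omega) (Or.inr hk4) y z hy4 hy2
      have a3 : ¬ ¬ (y ≤ z ∧ z ≤ y + ((m - k : ℕ) : ℤ)) := fun hn => by
        rw [nk_eq_zero (a + k) (m - k) hn] at a2
        exact absurd a2 (not_le.2 (Real.exp_pos _))
      rw [not_not] at a3
      have a4 : nk μ s t η p M a k x y * nk μ s t η p M (a + k) (m - k) y z ≤ nk μ s t η p M a m x z := by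
        have e2 := nk_add (μ := μ) (s := s) (h := t) (η := η) (p := p) (M := M) a k (m - k) x z
        rw [← e1] at e2
        rw [e2]
        exact single_le_sum (f := fun y => nk μ s t η p M a k x y * nk μ s t η p M (a + k) (m - k) y z)
          (fun y _ => mul_nonneg (nk_nonneg hpos _ _ _ _) (nk_nonneg hpos _ _ _ _)) (mem_Icc.2 (by omega))
      refine le_trans ?_ ((mul_le_mul a1 a2 (Real.exp_pos _).le (nk_nonneg hpos _ _ _ _)).trans a4)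
      rw [← Real.exp_add]
      exact Real.exp_le_exp.2 (two_exp88 hNe.le (EE_mono hkm) (EE_mono (Nat.sub_le _ _)))
    have wk := wd_two h (show 1 ≤ k by omega)
    have wk' := wd_two h (show 1 ≤ m - k by omega)
    rcases le_total m (2 * k) with h2 | h2
    · -- the deviation in the first part
      have w1 := wd_lower_one h (show 1 ≤ k by omega) hkm
      have hk0 : (0 : ℝ) < k := by exact_mod_cast (show 0 < k by omega)
      have h2R : (m : ℝ) ≤ 2 * k := by exact_mod_cast h2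
      have w2 : wd μ s m ≤ 4 * wd μ s k := w4_88 hk0 w1 h2R (by linarith)
      have md1 := md_abs (μ := μ) (s := s) (m - k)
      refine key (z - md μ s (m - k)) ?_ ?_
      · have e3 : (((z - md μ s (m - k) : ℤ)) : ℝ) - x - sl μ s * k =
            ((z : ℝ) - x - sl μ s * m) - ((md μ s (m - k) : ℝ) - sl μ s * ((m - k : ℕ) : ℝ)) := by
          rw [em]
          push_cast
          ring
        rw [e3]
        refine (abs_sub _ _).trans ((add_le_add hz md1).trans ?_)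
        have h3 : (N : ℝ) ^ δ * wd μ s m ≤ (N : ℝ) ^ δ * (4 * wd μ s k) := mul_le_mul_of_nonneg_left w2 (by linarith)
        have h4 : 1 * 2 ≤ (N : ℝ) ^ δ * wd μ s k := mul_le_mul hNd wk (by norm_num) (by linarith)
        linarith
      · have e3 : (z : ℝ) - ((z - md μ s (m - k) : ℤ) : ℝ) - sl μ s * ((m - k : ℕ) : ℝ) =
            (md μ s (m - k) : ℝ) - sl μ s * ((m - k : ℕ) : ℝ) := by
          push_cast
          ring
        rw [e3]
        refine md1.trans ?_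
        have h4 : 1 * 2 ≤ (N : ℝ) ^ δ * wd μ s (m - k) := mul_le_mul hNd wk' (by norm_num) (by linarith)
        linarith
    · -- the deviation in the second part
      have w1 := wd_lower_one h (show 1 ≤ m - k by omega) (Nat.sub_le m k)
      have hk0 : (0 : ℝ) < ((m - k : ℕ) : ℝ) := by exact_mod_cast (show 0 < m - k by omega)
      have h2R : (m : ℝ) ≤ 2 * ((m - k : ℕ) : ℝ) := by exact_mod_cast (show m ≤ 2 * (m - k) by omega)
      have w2 : wd μ s m ≤ 4 * wd μ s (m - k) := w4_88 hk0 w1 h2R (by linarith)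
      have md1 := md_abs (μ := μ) (s := s) k
      refine key (x + md μ s k) ?_ ?_
      · have e3 : (((x + md μ s k : ℤ)) : ℝ) - x - sl μ s * k = (md μ s k : ℝ) - sl μ s * k := by
          push_cast
          ring
        rw [e3]
        refine md1.trans ?_
        have h4 : 1 * 2 ≤ (N : ℝ) ^ δ * wd μ s k := mul_le_mul hNd wk (by norm_num) (by linarith)
        linarith
      · have e3 : (z : ℝ) - ((x + md μ s k : ℤ) : ℝ) - sl μ s * ((m - k : ℕ) : ℝ) =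
            ((z : ℝ) - x - sl μ s * m) - ((md μ s k : ℝ) - sl μ s * k) := by
          rw [em]
          push_cast
          ring
        rw [e3]
        refine (abs_sub _ _).trans ((add_le_add hz md1).trans ?_)
        have h3 : (N : ℝ) ^ δ * wd μ s m ≤ (N : ℝ) ^ δ * (4 * wd μ s (m - k)) := mul_le_mul_of_nonneg_left w2 (by linarith)
        have h4 : 1 * 2 ≤ (N : ℝ) ^ δ * wd μ s (m - k) := mul_le_mul hNd wk' (by norm_num) (by linarith)
        linarith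

/-- The numbers. -/
theorem num88 {c C₅ ε₀ : ℝ} (hε₀ : 0 < ε₀) : ∃ n₁ : ℕ, ∀ N : ℕ, n₁ ≤ N → 1 ≤ (N : ℝ) ^ ε₀ ∧ 32 / c ^ 2 ≤ (N : ℝ) ^ ε₀ ∧
    (4 * C₅ + 4) * 16 / (3 * c) ≤ (N : ℝ) ^ ε₀ ∧ 2 * (N : ℝ) ≤ Real.exp ((N : ℝ) ^ ε₀) := by
  have ev1 := Pool.Agent.W_7d29a1_HZ.Z22.absorb 2 1 (b := 1) (g := ε₀) one_pos hε₀
  obtain ⟨n₁, hn₁⟩ := eventually_atTop.1 ((ev1.and (ev84 (1 : ℝ) hε₀)).and
    ((ev84 (32 / c ^ 2) hε₀).and (ev84 ((4 * C₅ + 4) * 16 / (3 * c)) hε₀)))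
  refine ⟨n₁, fun N hN => ?_⟩
  obtain ⟨⟨q1, q2⟩, q3, q4⟩ := hn₁ N hN
  refine ⟨q2, q3, q4, ?_⟩
  rw [one_mul, Real.rpow_one] at q1
  have h1 : Real.exp (-(N : ℝ) ^ (ε₀ / 2)) ≤ 1 := by
    rw [Real.exp_le_one_iff]
    have : (0 : ℝ) ≤ (N : ℝ) ^ (ε₀ / 2) := Real.rpow_nonneg (Nat.cast_nonneg _) _
    linarith
  have h2 := q1.trans h1
  rw [Real.exp_neg, ← div_eq_mul_inv, div_le_one (Real.exp_pos _)] at h2
  exact h2

/-- **The strong crude arms**, as a clause: `H` = bound of the heights. -/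
def CA88 (μ : Measure ℝ) (s t c ε : ℝ) (N T H M Nt : ℕ) (p : ℕ → ℝ) (η : Env) : Prop :=
  ∀ a m : ℕ, 2 * T ≤ m → m ≤ H → a + m + 1 ≤ Nt → |t| * wd μ s m ≤ c / 4 * EE μ s m → ∀ x : ℤ, |x| ≤ 2 * N →
    ∀ D : ℝ, (N : ℝ) ^ ε ≤ D →
      PM16 (fun a b x z => nk μ s t η p M a (b - a) x z) (bh16 μ s t η p M Nt) a (a + m) x
        (fun z => D * wd μ s m ≤ |(z : ℝ) - x - sl μ s * m|) ≤ Real.exp (-(c / 16 * (D * EE μ s m))) * bh16 μ s t η p M Nt a x

/-- **THE STRONG CRUDE ARMS.** -/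
theorem cas88 (h : In μ s c C n₀) (hL : LB84 μ s) (P : ℕ) {ε ε₀ : ℝ} (hε₀ : 0 < ε₀) (hε : 4 * ε₀ ≤ ε) : ∃ n₁ : ℕ, 1 ≤ n₁ ∧
    ∀ {t δ c' : ℝ} {N T Nf M Nt : ℕ} {p : ℕ → ℝ} {η : Env}, n₁ ≤ T → 0 ≤ δ → |t| * T ≤ 1 →
    (∀ k, k < M → p k = Real.exp (s + t)) → (∀ k, M ≤ k → p k = Real.exp s) →
    CrS84 μ s t ε₀ δ c' N T M Nt p η → η ∈ FG88 μ s c P ((N : ℝ) ^ ε₀) N T Nf → Nt ≤ N → CA88 μ s t c ε N T Nf M Nt p η := by
  have hc0 := h.c0
  obtain ⟨C₅, hC₅, n₂, H⟩ := ker_dec88 h P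
  obtain ⟨n₃, hn₃⟩ := hL ε₀ hε₀
  obtain ⟨n₄, hn₄⟩ := num88 (c := c) (C₅ := C₅) hε₀
  obtain ⟨n₅, hn₅⟩ := eventually_atTop.1 ((wd_tendsto h).eventually_ge_atTop 8)
  refine ⟨max (max n₂ n₃) (max n₄ (max n₅ 1)), (le_max_right _ _).trans ((le_max_right _ _).trans (le_max_right _ _)), ?_⟩
  intro t δ c' N T Nf M Nt p η hT hδ htT hp hp' S hFG hNt a m hTm hmf ham hforce x hx D hD
  have g2 : n₂ ≤ T := ((le_max_left _ _).trans (le_max_left _ _)).trans hT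
  have g3 : n₃ ≤ T := ((le_max_right _ _).trans (le_max_left _ _)).trans hT
  have g4 : n₄ ≤ T := ((le_max_left _ _).trans (le_max_right _ _)).trans hT
  have g5 : n₅ ≤ T := (((le_max_left _ _).trans (le_max_right _ _)).trans (le_max_right _ _)).trans hT
  have g6 : 1 ≤ T := (((le_max_right _ _).trans (le_max_right _ _)).trans (le_max_right _ _)).trans hT
  have hmN : m ≤ N := by omega
  have hTN : T ≤ N := by omega
  have hpos := pos_p hp hp'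
  obtain ⟨u, hu⟩ : ∃ u : ℝ, u = (N : ℝ) ^ ε₀ := ⟨_, rfl⟩
  obtain ⟨u1, u2, u3, u4⟩ := hn₄ N (g4.trans hTN)
  rw [← hu] at u1 u2 u3 u4
  have hNR : (1 : ℝ) ≤ N := by exact_mod_cast (show 1 ≤ N by omega)
  obtain ⟨E, hE⟩ : ∃ E : ℝ, E = EE μ s m := ⟨_, rfl⟩
  obtain ⟨w, hw⟩ : ∃ w : ℝ, w = wd μ s m := ⟨_, rfl⟩
  have hE1 : 1 ≤ E := by rw [hE]; exact one_le_EE m
  have hw8 : 8 ≤ w := by rw [hw]; exact hn₅ m (by omega)
  have hw0 : 0 < w := by linarith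
  have hwE : w ≤ u * E ^ 2 := by
    have h1 := hn₃ m (by omega)
    rw [← hw, ← hE] at h1
    refine h1.trans (mul_le_mul_of_nonneg_right ?_ (sq_nonneg _))
    rw [hu]
    exact Real.rpow_le_rpow (Nat.cast_nonneg _) (by exact_mod_cast hmN) hε₀.le
  have hDu : u ^ 4 ≤ D := by
    refine le_trans (le_trans (le_of_eq ?_) (Real.rpow_le_rpow_of_exponent_le hNR hε)) hD
    rw [hu, ← Real.rpow_natCast, ← Real.rpow_mul (by linarith)]
    congr 1
    push_cast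
    ring
  have hu4 : 1 ≤ u ^ 4 := one_le_pow₀ u1
  have hD1 : 1 ≤ D := hu4.trans hDu
  have hb := sys_model16 (μ := μ) (s := s) (h := t) (η := η) (M := M) (N := Nt) hpos
  -- the centre
  obtain ⟨z₀, hz₀⟩ : ∃ z₀ : ℤ, z₀ = x + md μ s m := ⟨_, rfl⟩
  have md0 := h.md_nonneg m
  have md1 := h.md_le_nat m
  have md2 := md_abs (μ := μ) (s := s) m
  have hz₀c : |(z₀ : ℝ) - x - sl μ s * m| ≤ 1 := by
    rw [hz₀]
    push_cast
    rwa [add_sub_cancel_left]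
  have hx3 : |x| ≤ 3 * (N : ℤ) := by
    have : (0 : ℤ) ≤ N := by positivity
    omega
  have hx4 : |x| ≤ 4 * (N : ℤ) := by
    have : (0 : ℤ) ≤ N := by positivity
    omega
  have hmNZ : (m : ℤ) ≤ N := by exact_mod_cast hmN
  have hz₀4 : |z₀| ≤ 4 * (N : ℤ) := by
    rw [abs_le] at hx ⊢
    omega
  have hlow : Real.exp (-(2 * (u * E))) ≤ nk μ s t η p M a m x z₀ := by
    have h1 := cl_free88 h S hpos htT g6 hδ hTm (show a + m ≤ N by omega) hx3 (z := z₀) (hz₀c.trans (by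
      rw [← hw]
      have h2 : 1 ≤ (N : ℝ) ^ δ := Real.one_le_rpow hNR hδ
      have h3 : 1 * w ≤ (N : ℝ) ^ δ * w := mul_le_mul_of_nonneg_right h2 hw0.le
      linarith))
    rw [← hu, ← hE] at h1
    exact h1
  have hB0 := hb.b0 (a + m) z₀ (by omega)
  have hBx : Real.exp (-(2 * (u * E))) * bh16 μ s t η p M Nt (a + m) z₀ ≤ bh16 μ s t η p M Nt a x := by
    rw [hb.step a (a + m) x (by omega) (by omega)]
    have e1 : a + m - a = m := by omega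
    refine (mul_le_mul_of_nonneg_right hlow hB0.le).trans ?_
    have h2 := single_le_sum (s := Icc x (x + ((a + m - a : ℕ) : ℤ)))
      (f := fun z => nk μ s t η p M a (a + m - a) x z * bh16 μ s t η p M Nt (a + m) z)
      (fun z _ => mul_nonneg (nk_nonneg hpos _ _ _ _) (hb.b0 (a + m) z (by omega)).le) (mem_Icc.2 ⟨by omega, by omega⟩ : z₀ ∈ _)
    simp only [e1] at h2
    rw [e1]
    exact h2
  have hBx' : bh16 μ s t η p M Nt (a + m) z₀ ≤ Real.exp (2 * (u * E)) * bh16 μ s t η p M Nt a x := by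
    have h1 := mul_le_mul_of_nonneg_left hBx (Real.exp_pos (2 * (u * E))).le
    rwa [← mul_assoc, ← Real.exp_add, add_neg_cancel, Real.exp_zero, one_mul] at h1
  have hB0x := (hb.b0 a x (by omega)).le
  -- one far place
  have hone : ∀ z : ℤ, x ≤ z → z ≤ x + m → D * w ≤ |(z : ℝ) - x - sl μ s * m| →
      nk μ s t η p M a m x z * bh16 μ s t η p M Nt (a + m) z ≤
        Real.exp (4 * C₅ * u ^ 2 * E + 3 * (u * E) - c / 4 * (D * E)) * bh16 μ s t η p M Nt a x := by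
    intro z hz1 hz2 hfar
    obtain ⟨Δ, hΔ⟩ : ∃ Δ : ℝ, Δ = |(z : ℝ) - x - sl μ s * m| := ⟨_, rfl⟩
    rw [← hΔ] at hfar
    have k1 := H (q := u) (t := t) g2 (by linarith) (by rw [hu]; exact hFG) hp hp' a m (by omega) (by omega) hmf hforce x z hx4
    rw [← hΔ, ← hE, ← hw] at k1
    have hz4 : |z| ≤ 4 * (N : ℤ) := by
      rw [abs_le] at hx ⊢
      omega
    have k2 := cr_free88 S htT (a := a + m) (by omega) hz4 hz₀4
    rw [← hu] at k2
    have r1 : |(z : ℝ) - z₀| ≤ 2 * Δ := by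
      have e3 : (z : ℝ) - z₀ = ((z : ℝ) - x - sl μ s * m) - ((z₀ : ℝ) - x - sl μ s * m) := by ring
      rw [e3]
      refine (abs_sub _ _).trans ?_
      rw [← hΔ]
      have h5 : 1 * 1 ≤ D * w := mul_le_mul hD1 (by linarith) zero_le_one (by linarith)
      linarith
    have hr : u * Real.sqrt |(z : ℝ) - z₀| ≤ c / 4 * (E / w) * Δ := rt88 hc0 u1 (by linarith) hw0 hwE u2 hDu hfar r1
    have k3 := mul_le_mul k1 k2 ((hb.b0 (a + m) z (by omega)).le) (Real.exp_pos _).le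
    refine k3.trans ?_
    rw [← mul_assoc, ← Real.exp_add]
    refine (mul_le_mul_of_nonneg_left hBx' (Real.exp_pos _).le).trans ?_
    rw [← mul_assoc, ← Real.exp_add]
    refine mul_le_mul_of_nonneg_right (Real.exp_le_exp.2 ?_) hB0x
    have v2 : EE μ s T ≤ E := by
      rw [hE]
      exact EE_mono (by omega)
    have v3 := ex88 hC₅ hc0 u1 (show 0 < E by linarith) hw0 hfar v2 hr
    have v4 := dl88 hc0 (show 0 < E by linarith) hw0 hfar
    linarith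
  -- the sum
  have e1 : a + m - a = m := by omega
  unfold PM16
  simp only [e1]
  rw [← hw, ← hE]
  refine (sum_le_sum (g := fun _ => Real.exp (4 * C₅ * u ^ 2 * E + 3 * (u * E) - c / 4 * (D * E)) * bh16 μ s t η p M Nt a x)
    fun z hz => ?_).trans ?_
  · rw [mem_filter, mem_Icc] at hz
    exact hone z hz.1.1 hz.1.2 hz.2
  · rw [sum_const, nsmul_eq_mul]
    have hcard : ((((Icc x (x + (m : ℤ))).filter fun z : ℤ => D * w ≤ |(z : ℝ) - x - sl μ s * m|).card : ℕ) : ℝ) ≤ Real.exp (u * E) := by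
      have f1 : ((Icc x (x + (m : ℤ))).filter fun z : ℤ => D * w ≤ |(z : ℝ) - x - sl μ s * m|).card ≤ 2 * N := by
        refine (card_filter_le _ _).trans ?_
        rw [Int.card_Icc]
        omega
      have f2 : ((((Icc x (x + (m : ℤ))).filter fun z : ℤ => D * w ≤ |(z : ℝ) - x - sl μ s * m|).card : ℕ) : ℝ) ≤ 2 * N := by
        exact_mod_cast f1
      refine f2.trans (u4.trans (Real.exp_le_exp.2 ?_))
      exact le_mul_of_one_le_right (by linarith) hE1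
    refine (mul_le_mul_of_nonneg_right hcard (mul_nonneg (Real.exp_pos _).le hB0x)).trans ?_
    rw [← mul_assoc, ← Real.exp_add]
    refine mul_le_mul_of_nonneg_right (Real.exp_le_exp.2 ?_) hB0x
    exact cnt88 hC₅ hc0 u1 (by linarith) hDu u3

end

end Pool.Agent.W_7d29a1_C1.CaS88
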