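import Pool.Agent.W_7d29a1_C1.ChnK40

/-!
MP_7d29a1_pr, the attractor route: THE COUNT OF THE CHAINS WITH TWO CONSTANTS. (helper2, over helper40 ChnK40)

`A` is paid once for every scale (a cell of one scale inside a cell of the next one), `B` once for every step (a relation).
A step uses at least `R.lam` scales, so `B ≤ A ^ R.lam` is enough: `A` may be chosen before, `B` after the thresholds of the
levels. `unionB` has the conclusion of `unionJ` with `A ^ 2` in place of `A`.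
-/

set_option autoImplicit false

namespace Pool.Agent.W_7d29a1_C1.H40

open MeasureTheory ProbabilityTheory Finset
open Pool.Agent.W_7d29a1_F Pool.Agent.W_7d29a1_C1.S71
open scoped ENNReal Classical

noncomputable section

variable {σ Λ : Type*} {G : Geo σ Λ} {R : RJ σ}

/-- The counting input, two constants. -/
structure CntB (G : Geo σ Λ) (R : RJ σ) (A B : ℕ) where
  F0 : ℕ → Finset Λ
  F1 : ℕ → ℕ → ℕ → Λ → Finset Λ
  F2 : ℕ → ℕ → Λ → Finset Λ
  Nt : ℕ
  hN : 1 ≤ Nt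
  hA : 1 ≤ A
  hB : B ≤ A ^ R.lam
  h0 : ∀ a ≤ G.m, ∀ x ∈ G.W, G.loc a x ∈ F0 a
  c0 : ∀ a ≤ G.m, (F0 a).card ≤ Nt * A ^ (1 + G.m - a)
  h1 : ∀ a a' j', a < a' → a' < j' → j' ≤ R.m → ∀ y, ∀ p ∈ G.W, ∀ p' ∈ G.W, PosA R j' y p → PosB R j' y p' →
    G.loc a p ∈ F1 a a' j' (G.loc a' p')
  c1 : ∀ a a' j', a < a' → a' < j' → j' ≤ G.m → ∀ α, (F1 a a' j' α).card ≤ B * A ^ (j' - a)
  h2 : ∀ a s, a ≤ s → s ≤ G.m → ∀ p ∈ G.W, ∀ q ∈ G.W, (p = q ∨ R.Dr s p q) → G.loc s q ∈ F2 a s (G.loc a p)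
  c2 : ∀ a s α, (F2 a s α).card ≤ B

variable {A B : ℕ}

/-- Possible first positions in front of a list. -/
def nxB (C : CntB G R A B) (a : ℕ) : List (LJ Λ) → Finset Λ
  | [] => C.F0 a
  | c :: _ => if c.a + R.lam ≤ c.j then C.F1 a c.a c.j c.al else ∅

/-- Possible labels in front of a list. -/
def headsB (C : CntB G R A B) (a j : ℕ) (t : List (LJ Λ)) : Finset (LJ Λ) :=
  if a + R.lam ≤ j then
    ({Kd.stay, Kd.move, Kd.visit} : Finset Kd).biUnion fun k => (Ico a j ×ˢ Ioc a j).biUnion fun si => (nxB C a t).biUnion fun al =>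
      (C.F2 a si.1 al).image fun be => ⟨k, a, si.1, si.2, j, al, be⟩
  else ∅

theorem headsB_spec (C : CntB G R A B) (a j : ℕ) (t : List (LJ Λ)) : ∀ c ∈ headsB C a j t, c.a = a ∧ c.j = j := by
  intro c hc
  unfold headsB at hc
  split_ifs at hc with h0
  · obtain ⟨k, -, hc⟩ := mem_biUnion.1 hc
    obtain ⟨si, -, hc⟩ := mem_biUnion.1 hc
    obtain ⟨al, -, hc⟩ := mem_biUnion.1 hc
    obtain ⟨be, -, rfl⟩ := mem_image.1 hc
    exact ⟨rfl, rfl⟩
  · exact absurd hc (notMem_empty _)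

theorem headsB_card (C : CntB G R A B) {g : ℕ} (hg : 1 ≤ g) {a j : ℕ} (hai : a < j) (him : j ≤ G.m) {t : List (LJ Λ)}
    (ht : Hdr LJ.a LJ.j G.m g j t) :
    (headsB C a j t).card ≤ wtC C.Nt t * (12 * A ^ 3) ^ (1 + hdC LJ.j G.m t - a) := by
  have hA := C.hA
  by_cases hlam : a + R.lam ≤ j
  swap
  · unfold headsB
    rw [if_neg hlam, card_empty]
    exact Nat.zero_le _
  have h1 : (nxB C a t).card ≤ wtC C.Nt t * A ^ (2 * (1 + hdC LJ.j G.m t - a)) ∧ j ≤ hdC LJ.j G.m t := by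
    rcases ht with rfl | ⟨c, t', rfl, h5, h6, h7⟩
    · refine ⟨(C.c0 a (by omega)).trans (Nat.mul_le_mul_left _ (Nat.pow_le_pow_right hA ?_)), him⟩
      show 1 + G.m - a ≤ 2 * (1 + G.m - a)
      omega
    · refine ⟨?_, by show j ≤ c.j; omega⟩
      show (if c.a + R.lam ≤ c.j then C.F1 a c.a c.j c.al else ∅).card ≤ 1 * A ^ (2 * (1 + c.j - a))
      rw [one_mul]
      split_ifs with hc
      · refine (C.c1 a c.a c.j (by omega) h6 h7 _).trans ?_
        calc B * A ^ (c.j - a) ≤ A ^ (c.j - a) * A ^ (c.j - a) :=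
              Nat.mul_le_mul_right _ (C.hB.trans (Nat.pow_le_pow_right hA (by omega)))
          _ = A ^ (2 * (c.j - a)) := by rw [← pow_add, two_mul]
          _ ≤ A ^ (2 * (1 + c.j - a)) := Nat.pow_le_pow_right hA (by omega)
      · rw [card_empty]
        exact Nat.zero_le _
  obtain ⟨h1, h2⟩ := h1
  set h := hdC LJ.j G.m t with hh
  set w := wtC C.Nt t with hw
  have hcard : (headsB C a j t).card ≤ 3 * (((j - a) * (j - a)) * (w * A ^ (2 * (1 + h - a)) * B)) := by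
    unfold headsB
    rw [if_pos hlam]
    refine card_biUnion_le.trans ?_
    calc ∑ k ∈ ({Kd.stay, Kd.move, Kd.visit} : Finset Kd), ((Ico a j ×ˢ Ioc a j).biUnion fun si => (nxB C a t).biUnion fun al =>
          (C.F2 a si.1 al).image fun be => (⟨k, a, si.1, si.2, j, al, be⟩ : LJ Λ)).card
        ≤ ∑ k ∈ ({Kd.stay, Kd.move, Kd.visit} : Finset Kd), ((j - a) * (j - a)) * (w * A ^ (2 * (1 + h - a)) * B) := by
          refine sum_le_sum fun k _ => card_biUnion_le.trans ?_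
          calc ∑ si ∈ Ico a j ×ˢ Ioc a j, ((nxB C a t).biUnion fun al =>
                (C.F2 a si.1 al).image fun be => (⟨k, a, si.1, si.2, j, al, be⟩ : LJ Λ)).card
              ≤ ∑ si ∈ Ico a j ×ˢ Ioc a j, w * A ^ (2 * (1 + h - a)) * B := by
                refine sum_le_sum fun si _ => card_biUnion_le.trans ?_
                calc ∑ al ∈ nxB C a t, ((C.F2 a si.1 al).image fun be => (⟨k, a, si.1, si.2, j, al, be⟩ : LJ Λ)).card
                    ≤ ∑ al ∈ nxB C a t, B := sum_le_sum fun al _ => card_image_le.trans (C.c2 a si.1 al)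
                  _ = (nxB C a t).card * B := by rw [sum_const, smul_eq_mul]
                  _ ≤ _ := Nat.mul_le_mul_right _ h1
            _ = _ := by rw [sum_const, smul_eq_mul, card_product, Nat.card_Ico, Nat.card_Ioc]
      _ = ({Kd.stay, Kd.move, Kd.visit} : Finset Kd).card * (((j - a) * (j - a)) * (w * A ^ (2 * (1 + h - a)) * B)) := by
          rw [sum_const, smul_eq_mul]
      _ ≤ _ := Nat.mul_le_mul_right _ (by decide)
  refine hcard.trans ?_
  obtain ⟨n, hn⟩ : ∃ n, n = h - a := ⟨_, rfl⟩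
  have e1 : 1 + h - a = n + 1 := by omega
  have e2 : j - a ≤ 2 ^ n := (show j - a ≤ n by omega).trans Nat.lt_two_pow_self.le
  have e3 : B ≤ A ^ n := C.hB.trans (Nat.pow_le_pow_right hA (by omega))
  rw [e1]
  have key : 3 * (((j - a) * (j - a)) * (A ^ (2 * (n + 1)) * B)) ≤ (12 * A ^ 3) ^ (n + 1) := by
    calc 3 * (((j - a) * (j - a)) * (A ^ (2 * (n + 1)) * B)) ≤ 3 * ((2 ^ n * 2 ^ n) * (A ^ (2 * (n + 1)) * A ^ n)) := by gcongr
      _ = 3 * (4 ^ n * (A ^ (2 * (n + 1)) * A ^ n)) := by rw [← mul_pow, show (2 : ℕ) * 2 = 4 from rfl]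
      _ ≤ 3 * (12 ^ n * (A ^ (2 * (n + 1)) * A ^ (n + 1))) := by
          gcongr
          · norm_num
          · omega
      _ ≤ (12 * A ^ 3) ^ (n + 1) := by
          rw [mul_pow, ← pow_mul, show 3 * (n + 1) = 2 * (n + 1) + (n + 1) by ring, pow_add A (2 * (n + 1)) (n + 1), pow_succ 12 n]
          have : 3 * (12 ^ n * (A ^ (2 * (n + 1)) * A ^ (n + 1))) = 12 ^ n * 3 * (A ^ (2 * (n + 1)) * A ^ (n + 1)) := by ring
          rw [this]
          gcongr
          norm_num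
  calc 3 * (((j - a) * (j - a)) * (w * A ^ (2 * (n + 1)) * B)) = w * (3 * (((j - a) * (j - a)) * (A ^ (2 * (n + 1)) * B))) := by
        ring
    _ ≤ _ := Nat.mul_le_mul_left _ key

/-- The code of a chain is in the list. -/
theorem mem_DCB (h : GRJ G R) (C : CntB G R A B) {x : σ} {τ : ℕ} {l : List (SJ σ)} (hl : R.IsC x τ l) {n : ℕ}
    (hn : l.length ≤ n) : l.map (lj G) ∈ DC G.m R.g (headsB C) n τ := by
  have hm := h.m_le
  have hW := h.W_eq
  have hg := h.g_ge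
  induction l generalizing x τ n with
  | nil =>
    cases n with
    | zero => exact mem_singleton_self _
    | succ n => exact mem_union_left _ (mem_singleton_self _)
  | cons c l ih =>
    obtain ⟨hc, hl'⟩ := hl
    have hc' := hc
    obtain ⟨h1, h2, h3, h3', h4, h5, h6, h7, h8, h9⟩ := hc'
    rw [hW] at h6 h7
    cases n with
    | zero => exact absurd hn (by simp)
    | succ n =>
      have h10 := ih hl' (n := n) (by simpa using hn)
      refine mem_union_right _ (mem_biUnion.2 ⟨(c.a, c.j), ?_, mem_biUnion.2 ⟨_, h10, mem_image.2 ⟨lj G c, ?_, rfl⟩⟩⟩)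
      · exact mem_filter.2 ⟨mem_product.2 ⟨mem_Icc.2 ⟨h1, (show c.a ≤ G.m by omega)⟩, mem_Icc.2 ⟨Nat.zero_le _,
          (show c.j ≤ G.m by omega)⟩⟩, (show c.a < c.j by omega)⟩
      · have hdr : c.p = c.q ∨ R.Dr c.s c.p c.q := by
          by_cases hk : c.k = Kd.stay
          · left; rw [(h8 hk).1, (h8 hk).2.1]
          · exact Or.inr (h9 hk).2
        show lj G c ∈ headsB C c.a c.j (l.map (lj G))
        unfold headsB
        rw [if_pos (show c.a + R.lam ≤ c.j by omega)]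
        refine mem_biUnion.2 ⟨c.k, ?_, mem_biUnion.2 ⟨(c.s, c.i), mem_product.2 ⟨mem_Ico.2 ⟨h2, (show c.s < c.j by omega)⟩,
          mem_Ioc.2 ⟨(show c.a < c.i by omega), h3'⟩⟩, mem_biUnion.2 ⟨G.loc c.a c.p, ?_,
          mem_image.2 ⟨G.loc c.s c.q, C.h2 c.a c.s h2 (by omega) c.p h6 c.q h7 hdr, rfl⟩⟩⟩⟩
        · cases c.k <;> simp
        · cases l with
          | nil => exact C.h0 c.a (by omega) c.p h6
          | cons d l' =>
            obtain ⟨g1, g2, g3, g3', g4, g5, g6, g7, g8, g9⟩ := hl'.1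
            rw [hW] at g6
            show G.loc c.a c.p ∈ if d.a + R.lam ≤ d.j then C.F1 c.a d.a d.j (G.loc d.a d.p) else ∅
            rw [if_pos (show d.a + R.lam ≤ d.j by omega)]
            refine C.h1 c.a d.a d.j (by omega) (by omega) g5 (RJ.nxc x c) c.p h6 d.p g6 ?_ ?_
            · cases hk : c.k
              · left
                have e : RJ.nxc x c = x := if_neg (by rw [hk]; decide)
                rw [e]
                exact (h8 hk).1
              · right; left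
                have e : RJ.nxc x c = c.q := if_pos hk
                rw [e]
                exact ⟨c.s, by omega, (h9 (by rw [hk]; decide)).2⟩
              · right; right
                have e : RJ.nxc x c = x := if_neg (by rw [hk]; decide)
                rw [e]
                exact ⟨c.i, c.j, h3', by omega, (h9 (by rw [hk]; decide)).1⟩
            · by_cases hk : d.k = Kd.stay
              · exact Or.inl (g8 hk).1
              · exact Or.inr ⟨d.i, g3', (g9 hk).1⟩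

/-- **UNION OVER THE CHAINS, ANY FUNCTIONAL OF THE CODE, TWO CONSTANTS.** -/
theorem unionB (h : GRJ G R) {μ : Measure ℝ} (C : CntB G R A B) {S : σ → List (SJ σ) → Env → ℕ}
    (hcode : ∀ x ∈ G.W, ∀ x' ∈ G.W, ∀ l l', R.IsC x 0 l → R.IsC x' 0 l' → G.loc 0 x = G.loc 0 x' →
      l.map (lj G) = l'.map (lj G) → ∀ η, S x l η = S x' l' η) {r : ℕ} {b : ℝ≥0∞}
    (hb : ∀ x ∈ G.W, ∀ l, R.IsC x 0 l → law μ {η | r ≤ S x l η} ≤ b) :
    law μ {η | ∃ x ∈ G.W, ∃ l, R.IsC x 0 l ∧ r ≤ S x l η} ≤ (nCodeJ C.Nt (A ^ 2) G.m R.g : ℝ≥0∞) * b := by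
  have hg := h.g_ge
  have hA := C.hA
  set n := G.m + R.g with hn
  set rep : Λ → List (LJ Λ) → Set Env := fun a d =>
    {η | ∃ x ∈ G.W, ∃ l, R.IsC x 0 l ∧ G.loc 0 x = a ∧ l.map (lj G) = d ∧ r ≤ S x l η} with hrep
  have hsub : {η | ∃ x ∈ G.W, ∃ l, R.IsC x 0 l ∧ r ≤ S x l η} ⊆ ⋃ q ∈ C.F0 0 ×ˢ DC G.m R.g (headsB C) n 0, rep q.1 q.2 := by
    rintro η ⟨x, hx, l, hl, h1⟩
    refine Set.mem_iUnion₂.2 ⟨(G.loc 0 x, l.map (lj G)), mem_product.2 ⟨C.h0 0 (Nat.zero_le _) x hx, mem_DCB h C hl ?_⟩,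
      x, hx, l, hl, rfl, rfl, h1⟩
    have hm := h.m_le
    rcases IsC_lengthJ hl with rfl | h2
    · exact Nat.zero_le _
    · have h3 : l.length * 1 ≤ l.length * (R.lam + R.g) := Nat.mul_le_mul_left _ (by omega)
      omega
  have hone : ∀ a d, law μ (rep a d) ≤ b := by
    intro a d
    by_cases hd : ∃ x ∈ G.W, ∃ l, R.IsC x 0 l ∧ G.loc 0 x = a ∧ l.map (lj G) = d
    · obtain ⟨x, hx, l, hl, rfl, rfl⟩ := hd
      refine le_trans (measure_mono ?_) (hb x hx l hl)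
      rintro η ⟨x', hx', l', hl', h2, h3, h4⟩
      show r ≤ S x l η
      rwa [← hcode x' hx' x hx l' l hl' hl h2 h3]
    · have e : rep a d = ∅ := by
        ext η
        simp only [hrep, Set.mem_ofPred_eq, Set.mem_empty_iff_false, iff_false]
        rintro ⟨x, hx, l, h1, h2, h3, -⟩
        exact hd ⟨x, hx, l, h1, h2, h3⟩
      rw [e, measure_empty]
      exact zero_le
  calc law μ {η | ∃ x ∈ G.W, ∃ l, R.IsC x 0 l ∧ r ≤ S x l η}
      ≤ law μ (⋃ q ∈ C.F0 0 ×ˢ DC G.m R.g (headsB C) n 0, rep q.1 q.2) := measure_mono hsub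
    _ ≤ ∑ q ∈ C.F0 0 ×ˢ DC G.m R.g (headsB C) n 0, law μ (rep q.1 q.2) := by
        exact measure_biUnion_finset_le _ _
    _ ≤ ∑ _q ∈ C.F0 0 ×ˢ DC G.m R.g (headsB C) n 0, b := sum_le_sum fun q _ => hone q.1 q.2
    _ = (((C.F0 0).card * (DC G.m R.g (headsB C) n 0).card : ℕ) : ℝ≥0∞) * b := by rw [sum_const, nsmul_eq_mul, card_product]
    _ ≤ _ := by
        refine mul_le_mul_left ?_ _
        have h1 := C.c0 0 (Nat.zero_le _)
        have h2 := card_DC (B := 12 * A ^ 3) (H := headsB C) (g := R.g) (m := G.m) (lo := LJ.a) (hi := LJ.j) C.hN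
          (Nat.mul_pos (by norm_num) (Nat.pow_pos C.hA)) (by omega) (fun a i t => headsB_spec C a i t)
          (fun a i t hai him ht => headsB_card C (by omega) hai him ht) n
        have h3 : (C.F0 0).card * (DC G.m R.g (headsB C) n 0).card ≤
            C.Nt * A ^ (1 + G.m - 0) * (C.Nt * ((4 * (12 * A ^ 3)) ^ (G.m + R.g) * (12 * A ^ 3) ^ G.m)) := Nat.mul_le_mul h1 h2
        have e3 : A ^ 3 ≤ (A ^ 2) ^ 2 := by
          rw [← pow_mul]
          exact Nat.pow_le_pow_right hA (by norm_num)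
        have e4 : A ^ (1 + G.m) ≤ (A ^ 2) ^ (1 + G.m) := by
          rw [← pow_mul]
          exact Nat.pow_le_pow_right hA (by omega)
        have h4 : C.Nt * A ^ (1 + G.m - 0) * (C.Nt * ((4 * (12 * A ^ 3)) ^ (G.m + R.g) * (12 * A ^ 3) ^ G.m)) ≤
            nCodeJ C.Nt (A ^ 2) G.m R.g := by
          unfold nCodeJ
          rw [Nat.sub_zero]
          calc C.Nt * A ^ (1 + G.m) * (C.Nt * ((4 * (12 * A ^ 3)) ^ (G.m + R.g) * (12 * A ^ 3) ^ G.m))
              = C.Nt ^ 2 * ((48 * A ^ 3) ^ (G.m + R.g) * (12 * A ^ 3) ^ G.m * A ^ (1 + G.m)) := by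
                rw [show 4 * (12 * A ^ 3) = 48 * A ^ 3 by ring]
                ring
            _ ≤ _ := by gcongr
        exact_mod_cast h3.trans h4

/-- The counting input, one scale at a time: `A` for a cell inside a cell of the next scale, `B` for the relations. -/
structure TreeB (G : Geo σ Λ) (R : RJ σ) (A B Nt : ℕ) : Prop where
  hA : 1 ≤ A
  hN : 1 ≤ Nt
  hB : B ≤ A ^ R.lam
  top : ∃ F : Finset Λ, F.card ≤ A * Nt ∧ ∀ x ∈ G.W, G.loc G.m x ∈ F
  ref : ∀ u < G.m, ∀ κ, ∃ F : Finset Λ, F.card ≤ A ∧ ∀ y ∈ G.W, G.loc (u + 1) y = κ → G.loc u y ∈ F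
  dri : ∀ s ≤ G.m, ∀ κ, ∃ F : Finset Λ, F.card ≤ B ∧ ∀ p ∈ G.W, ∀ q ∈ G.W, G.loc s p = κ → (p = q ∨ R.Dr s p q) → G.loc s q ∈ F
  nr : ∀ j ≤ R.m, ∀ κ, ∃ F : Finset Λ, F.card ≤ B ∧ ∀ y, ∀ p ∈ G.W, ∀ p' ∈ G.W, G.loc j p' = κ →
    PosA R j y p → PosB R j y p' → G.loc j p ∈ F

variable {Nt : ℕ}

/-- Refining a finite set of cells. -/
theorem TreeB.refine (t : TreeB G R A B Nt) {i : ℕ} (hi : i ≤ G.m) (F : Finset Λ) (n : ℕ) (hn : n ≤ i) :
    ∃ F' : Finset Λ, F'.card ≤ F.card * A ^ n ∧ ∀ y ∈ G.W, G.loc i y ∈ F → G.loc (i - n) y ∈ F' := by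
  induction n with
  | zero => exact ⟨F, by simp, fun y _ h => by simpa using h⟩
  | succ n ih =>
    obtain ⟨F', h1, h2⟩ := ih (by omega)
    choose f hf1 hf2 using t.ref (i - (n + 1)) (by omega)
    refine ⟨F'.biUnion f, ?_, fun y hy h => mem_biUnion.2 ⟨_, h2 y hy h, hf2 _ y hy ?_⟩⟩
    · refine card_biUnion_le.trans ?_
      calc ∑ u ∈ F', (f u).card ≤ ∑ _u ∈ F', A := sum_le_sum fun u _ => hf1 u
        _ = F'.card * A := by rw [sum_const, smul_eq_mul]
        _ ≤ F.card * A ^ n * A := Nat.mul_le_mul_right _ h1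
        _ = _ := by rw [pow_succ, mul_assoc]
    · rw [show i - (n + 1) + 1 = i - n by omega]

/-- **The counting input.** -/
theorem TreeB.cnt (h : GRJ G R) (t : TreeB G R A B Nt) : ∃ C : CntB G R A B, C.Nt = Nt := by
  have hm := h.m_le
  have hg := h.g_ge
  obtain ⟨F, hF1, hF2⟩ := t.top
  have h0 : ∀ a, ∃ F' : Finset Λ, a ≤ G.m → F'.card ≤ Nt * A ^ (1 + G.m - a) ∧ ∀ x ∈ G.W, G.loc a x ∈ F' := by
    intro a
    by_cases ha : a ≤ G.m
    · obtain ⟨F', h1, h2⟩ := t.refine le_rfl F (G.m - a) (by omega)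
      refine ⟨F', fun _ => ⟨h1.trans ?_, fun x hx => ?_⟩⟩
      · calc F.card * A ^ (G.m - a) ≤ A * Nt * A ^ (G.m - a) := Nat.mul_le_mul_right _ hF1
          _ = Nt * A ^ (1 + G.m - a) := by
            rw [show 1 + G.m - a = (G.m - a) + 1 by omega, pow_succ]
            ring
      · have := h2 x hx (hF2 x hx)
        rwa [show G.m - (G.m - a) = a by omega] at this
    · exact ⟨∅, fun h => absurd h ha⟩
  choose F0 hF0 using h0
  have h1 : ∀ a a' j' α, ∃ F' : Finset Λ, (a < a' → a' < j' → F'.card ≤ B * A ^ (j' - a)) ∧ (a < a' → a' < j' → j' ≤ R.m →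
      ∀ y, ∀ p ∈ G.W, ∀ p' ∈ G.W, PosA R j' y p → PosB R j' y p' → G.loc a' p' = α → G.loc a p ∈ F') := by
    intro a a' j' α
    by_cases hc : a < a' ∧ a' < j' ∧ j' ≤ R.m
    · obtain ⟨c1, c2, c3⟩ := hc
      by_cases hex : ∃ p0 ∈ G.W, G.loc a' p0 = α
      · obtain ⟨p0, hp0, e0⟩ := hex
        obtain ⟨F1, g1, g2⟩ := t.nr j' c3 (G.loc j' p0)
        obtain ⟨F', h1, h2⟩ := t.refine (show j' ≤ G.m by omega) F1 (j' - a) (by omega)
        refine ⟨F', fun _ _ => h1.trans (Nat.mul_le_mul_right _ g1), fun _ _ _ y p hp p' hp' h3 h4 h5 => ?_⟩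
        have h6 : G.loc j' p' = G.loc j' p0 := G.nest a' j' (by omega) _ _ (h5.trans e0.symm)
        have := h2 p hp (g2 y p hp p' hp' h6 h3 h4)
        rwa [show j' - (j' - a) = a by omega] at this
      · exact ⟨∅, fun _ _ => by simp, fun _ _ _ y p hp p' hp' _ _ h5 => absurd ⟨p', hp', h5⟩ hex⟩
    · exact ⟨∅, fun _ _ => by simp, fun h2 h3 h4 => absurd ⟨h2, h3, h4⟩ hc⟩
  choose F1 hF1' using h1
  have h2 : ∀ a s α, ∃ F' : Finset Λ, F'.card ≤ B ∧ (a ≤ s → s ≤ G.m → ∀ p ∈ G.W, ∀ q ∈ G.W, (p = q ∨ R.Dr s p q) →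
      G.loc a p = α → G.loc s q ∈ F') := by
    intro a s α
    by_cases hc : a ≤ s ∧ s ≤ G.m ∧ ∃ p0 ∈ G.W, G.loc a p0 = α
    · obtain ⟨c1, c2, p0, hp0, e0⟩ := hc
      obtain ⟨F', g1, g2⟩ := t.dri s c2 (G.loc s p0)
      exact ⟨F', g1, fun _ _ p hp q hq h3 h4 => g2 p hp q hq (G.nest a s c1 _ _ (h4.trans e0.symm)) h3⟩
    · exact ⟨∅, by simp, fun h3 h4 p hp q hq _ h5 => absurd ⟨h3, h4, p, hp, h5⟩ hc⟩
  choose F2 hF2' using h2
  exact ⟨{ F0 := F0, F1 := F1, F2 := F2, Nt := Nt, hN := t.hN, hA := t.hA, hB := t.hB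
           h0 := fun a ha x hx => (hF0 a ha).2 x hx
           c0 := fun a ha => (hF0 a ha).1
           h1 := fun a a' j' c1 c2 c3 y p hp p' hp' h3 h4 => (hF1' a a' j' _).2 c1 c2 c3 y p hp p' hp' h3 h4 rfl
           c1 := fun a a' j' c1 c2 _ α => (hF1' a a' j' α).1 c1 c2
           h2 := fun a s c1 c2 p hp q hq h3 => (hF2' a s _).2 c1 c2 p hp q hq h3 rfl
           c2 := fun a s α => (hF2' a s α).1 }, rfl⟩

end

end Pool.Agent.W_7d29a1_C1.H40
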