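import Pool.Agent.W_7d29a1_C1.GeoA37
import Pool.Agent.W_7d29a1_C1.ChnO40

/-!
MP_7d29a1_pr, the attractor route, separation by moving the contact: THE GEOMETRIC HYPOTHESES OF THE CHAINS (`GRJ`, `TreeB`, `LocRow`,
`LatJ` of ChnK40, ChnM2, ChnM40) for the geometry of the model. (helper37)
-/

set_option autoImplicit false

namespace Pool.Agent.W_7d29a1_C1.G37

open MeasureTheory Finset
open Pool.Agent.W_7d29a1_F Pool.Agent.W_7d29a1_C1.S71 Pool.Agent.W_7d29a1_C1.H40 Pool.Agent.W_7d29a1_C1.H49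

noncomputable section

namespace Gm

variable (G : Gm) {F : Finset (ℕ × ℤ)}

/-- **`GRJ`**, near form. -/
theorem grjG {mt la m3 : ℕ} {W : Set {c // c ∈ F}} (hmt : G.M + G.m2 ≤ mt + 1) : GRJ (G.geoJ F mt W) (G.rjG F la m3 W).near where
  m_le := hmt
  g_ge := G.m2_ge
  W_eq := rfl
  mv := fun _ _ _ _ h => ⟨(G.mvJ h.2 h.1).1, (G.mvJ h.2 h.1).2.1⟩
  dr := fun _ _ _ h => ⟨(G.drJ h).1, (G.drJ h).2.1⟩

/-- **`TreeB`**, near form: `A ≥ A0n` (`A0n` depends on `K` only) per scale, `An` per step. -/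
theorem treeG {A mt la m3 : ℕ} {W : Set {c // c ∈ F}} (hA : G.A0n ≤ A) (hla : G.An ≤ A ^ la) :
    TreeB (G.geoJ F mt W) (G.rjG F la m3 W).near A G.An (max 1 (F.image (G.loc mt)).card) where
  hA := G.A0n_pos.trans hA
  hN := le_max_left _ _
  hB := hla
  top := by
    obtain ⟨B, h1, h2⟩ := G.top_count F mt
    refine ⟨B, h1.trans ((le_max_right _ _).trans (Nat.le_mul_of_pos_left _ (G.A0n_pos.trans hA))), fun x _ => h2 x⟩
  ref := by
    intro u _ κ
    obtain ⟨B, h1, h2⟩ := G.ref_count0 (F := F) u κ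
    exact ⟨B, h1.trans hA, fun y _ h => h2 y h⟩
  dri := by
    intro s _ κ
    obtain ⟨A, h1, h2⟩ := G.dri_count (F := F) s κ
    exact ⟨A, h1, fun p _ q _ h h' => h2 p q h h'⟩
  nr := by
    intro j hj κ
    obtain ⟨A, h1, h2⟩ := G.nr_count (F := F) (j := j) hj κ
    refine ⟨A, h1, fun y p _ p' _ h ha hb => h2 y p p' h ?_ ?_⟩
    · rcases ha with ha | ⟨s, hs, ha⟩ | ⟨i, j', _, hj', ha⟩
      · exact Or.inl ha
      · exact Or.inr (Or.inl ⟨s, hs, ha⟩)
      · exact Or.inr (Or.inr ⟨i, j', hj', ha.2⟩)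
    · rcases hb with hb | ⟨i, _, hb⟩
      · exact Or.inl hb
      · exact Or.inr ⟨hb.1, i, hb.2⟩

/-- The number of the top cells, crude. -/
theorem Nt_le (F : Finset (ℕ × ℤ)) (mt : ℕ) {n : ℕ} (h : F.card ≤ n) (hn : 1 ≤ n) : max 1 (F.image (G.loc mt)).card ≤ n :=
  max_le hn (card_image_le.trans h)

/-- The lateral coordinate of a cut. -/
def latC (c : Cut (ℤ × ℤ)) : ℝ := G.ctr c.sc c.cd

theorem lat_ctr_le (v : ℕ) (c : ℕ × ℤ) : |G.ctr v (G.loc v c) - G.lat c| ≤ G.w v := by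
  have h1 := G.lat_ctr v c
  have h2 := G.g_le v
  have h3 := G.w_pos v
  rw [abs_sub_comm]
  linarith

/-- **`LatJ`**, near form. -/
theorem latG {mt la m3 : ℕ} {W : Set {c // c ∈ F}} :
    LatJ (G.geoJ F mt W) (G.rjG F la m3 W).near (fun x => G.lat x.1) G.latC G.w G.kn (G.kb + 1) where
  w_nonneg := fun u => (G.w_pos u).le
  w_two := G.w_two
  kn_nonneg := G.kn_nonneg
  kb_nonneg := by have := G.kb_ge; linarith
  mvl := fun _ _ _ _ h => (G.mvJ h.2 h.1).2.2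
  drl := fun _ _ _ h => (G.drJ h).2.2
  ctl := fun v y => G.lat_ctr_le v y.1
  btl := fun v y => G.lat_ctr_le v y.1

end Gm

end

end Pool.Agent.W_7d29a1_C1.G37
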