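import Pool.Agent.W_7d29a1_C1.SteF6

/-!
MP_7d29a1_pr, [C1], (LR): THE CONSTANT `D` OF THE STEEP STEP BEFORE `θ`. (helper94)

`st_cost`, `st_tail` of helper84 and `st_fam`, `stF_fam` of helper6 with `D` (the doubling constant of the rate function, from `In` only)
before the flatness `θ` of the slabs; only `δ`, `C₂` depend on `θ`. So the growth `B₂ ≥ D` of the steep levels can be fixed before the ratio `K`
of the scales. Moreover `δ ≤ θ sl`, `δ ≤ θ (1 - sl)`.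
-/

set_option autoImplicit false

namespace Pool.Agent.W_7d29a1_C1.StD94

open MeasureTheory ProbabilityTheory Filter Topology Finset
open Pool.Agent.W_7d29a1_F Pool.Agent.W_7d29a1_h4g Pool.Agent.W_7d29a1_H Pool.Agent.W_7d29a1_HS
open Pool.Agent.W_7d29a1_h47 (EM Nondeg rows)
open Pool.Agent.W_7d29a1_HX.X50 (real_X unlucky_all)
open Pool.Agent.W_7d29a1_C1.H75 Pool.Agent.W_7d29a1_C1.U16 Pool.Agent.W_7d29a1_C1.H40
open Pool.Agent.W_7d29a1_C1.DD84 (StE84 StE84_mono meas_StE84 dep_StE84 st_sum card_Icc84 st_one)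
open Pool.Agent.W_7d29a1_C1.Dep6
open scoped ENNReal

noncomputable section

variable {μ : Measure ℝ} {s c C : ℝ} {n₀ : ℕ} [IsProbabilityMeasure μ]

/-- **The rate at steep displacements.** -/
theorem st_costD94 (h : In μ s c C n₀) : ∃ D : ℝ, 1 ≤ D ∧ ∀ θ : ℝ, 0 < θ → ∃ (δ C₂ : ℝ) (n₁ : ℕ), 0 < δ ∧ δ ≤ θ * sl μ s ∧
    δ ≤ θ * (1 - sl μ s) ∧ 0 < C₂ ∧ 1 ≤ n₁ ∧
    ∀ n N : ℕ, n₁ ≤ n → θ * n ≤ N → N ≤ n → ∀ (j : ℕ) (y : ℤ), 2 ^ j * wd μ s n ≤ δ * n → |(y : ℝ) - sl μ s * N| ≤ 2 ^ j * wd μ s n →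
      0 ≤ y ∧ y ≤ N ∧ N * J μ s (((y : ℝ) - sl μ s * N) / N) ≤ C₂ * D ^ j * EE μ s n := by
  obtain ⟨D, δ', hD, hδ', hs⟩ := h.sym
  obtain ⟨sl0, sl1⟩ := sl_mem h.em h.nd s
  have hD0 : 0 < D := by linarith
  -- iteration of the doubling
  have hit : ∀ (k : ℕ) (x : ℝ), |x| * 2 ^ k ≤ 2 * δ' → J μ s (2 ^ k * x) ≤ D ^ k * J μ s x := by
    intro k
    induction k with
    | zero => intro x _; simp
    | succ k ih =>
      intro x hx
      have h1 : |(2 : ℝ) ^ k * x| ≤ δ' := by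
        rw [abs_mul, abs_of_pos (by positivity : (0 : ℝ) < 2 ^ k)]
        rw [pow_succ] at hx
        linarith
      have h2 := (hs _ h1).1
      have h3 := ih x (by
        rw [pow_succ] at hx
        have : 0 ≤ |x| * 2 ^ k := by positivity
        linarith)
      calc J μ s (2 ^ (k + 1) * x) = J μ s (2 * (2 ^ k * x)) := by congr 1; ring
        _ ≤ D * J μ s (2 ^ k * x) := h2
        _ ≤ D * (D ^ k * J μ s x) := mul_le_mul_of_nonneg_left h3 hD0.le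
        _ = D ^ (k + 1) * J μ s x := by ring
  refine ⟨D, hD, fun θ hθ => ?_⟩
  obtain ⟨a, A, n₁, ha, hA, hn₁, hJ⟩ := J_wd h (K := 1 / θ) (by positivity)
  obtain ⟨δ, hδ⟩ : ∃ δ : ℝ, δ = θ * min (min (sl μ s) (1 - sl μ s)) δ' := ⟨_, rfl⟩
  have hmin : 0 < min (min (sl μ s) (1 - sl μ s)) δ' := lt_min (lt_min sl0 (by linarith)) hδ'
  have hδ0 : 0 < δ := by rw [hδ]; positivity
  have hδ1 : δ ≤ θ * sl μ s := by
    rw [hδ]
    exact mul_le_mul_of_nonneg_left ((min_le_left _ _).trans (min_le_left _ _)) hθ.le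
  have hδ2 : δ ≤ θ * (1 - sl μ s) := by
    rw [hδ]
    exact mul_le_mul_of_nonneg_left ((min_le_left _ _).trans (min_le_right _ _)) hθ.le
  have hδ3 : δ ≤ θ * δ' := by
    rw [hδ]
    exact mul_le_mul_of_nonneg_left (min_le_right _ _) hθ.le
  refine ⟨δ, A, max n₁ 1, hδ0, hδ1, hδ2, hA, le_max_right _ _, fun n N hn hN hNn j y hj hy => ?_⟩
  have hn1 : 1 ≤ n := (le_max_right _ _).trans hn
  have hn0 : (0 : ℝ) < n := by exact_mod_cast hn1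
  have hN0 : (0 : ℝ) < N := lt_of_lt_of_le (by positivity) hN
  have hNn' : (N : ℝ) ≤ n := by exact_mod_cast hNn
  obtain ⟨Y, hY⟩ : ∃ Y : ℝ, Y = (y : ℝ) - sl μ s * N := ⟨_, rfl⟩
  rw [← hY] at hy ⊢
  have hYδ : |Y| ≤ δ * n := hy.trans hj
  have hδn1 : δ * n ≤ sl μ s * N := by
    calc δ * n ≤ θ * sl μ s * n := mul_le_mul_of_nonneg_right hδ1 hn0.le
      _ = sl μ s * (θ * n) := by ring
      _ ≤ sl μ s * N := mul_le_mul_of_nonneg_left hN sl0.le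
  have hδn2 : δ * n ≤ (1 - sl μ s) * N := by
    calc δ * n ≤ θ * (1 - sl μ s) * n := mul_le_mul_of_nonneg_right hδ2 hn0.le
      _ = (1 - sl μ s) * (θ * n) := by ring
      _ ≤ (1 - sl μ s) * N := mul_le_mul_of_nonneg_left hN (by linarith)
  have habs := abs_le.1 hYδ
  refine ⟨?_, ?_, ?_⟩
  · have : (0 : ℝ) ≤ y := by linarith [habs.1]
    exact_mod_cast this
  · have : (y : ℝ) ≤ N := by linarith [habs.2]
    exact_mod_cast this
  · -- the displacement of the unit size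
    obtain ⟨x, hx⟩ : ∃ x : ℝ, x = Y / N / 2 ^ j := ⟨_, rfl⟩
    have h2j : (0 : ℝ) < 2 ^ j := by positivity
    have hYx : Y / N = 2 ^ j * x := by rw [hx]; field_simp
    have hv := h.vA_pos hn1
    have hwd : wd μ s n = n * vA 1 μ s n := rfl
    have hxv : |x| ≤ 1 / θ * vA 1 μ s n := by
      have h1 : |x| = |Y| / N / 2 ^ j := by
        rw [hx, abs_div, abs_div, abs_of_pos hN0, abs_of_pos h2j]
      rw [h1, div_le_iff₀ h2j, div_le_iff₀ hN0]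
      calc |Y| ≤ 2 ^ j * (n * vA 1 μ s n) := by rw [← hwd]; exact hy
        _ = 1 / θ * vA 1 μ s n * 2 ^ j * (θ * n) := by field_simp
        _ ≤ 1 / θ * vA 1 μ s n * 2 ^ j * N := mul_le_mul_of_nonneg_left hN (by positivity)
    have hxδ : |x| * 2 ^ j ≤ 2 * δ' := by
      have h1 : |x| * 2 ^ j = |Y| / N := by
        rw [hx, abs_div, abs_div, abs_of_pos hN0, abs_of_pos h2j]
        field_simp
      rw [h1, div_le_iff₀ hN0]
      calc |Y| ≤ δ * n := hYδ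
        _ ≤ θ * δ' * n := mul_le_mul_of_nonneg_right hδ3 hn0.le
        _ = δ' * (θ * n) := by ring
        _ ≤ δ' * N := mul_le_mul_of_nonneg_left hN hδ'.le
        _ ≤ 2 * δ' * N := by
          have : 0 ≤ δ' * N := by positivity
          linarith
    have h1 := hit j x hxδ
    rw [hYx]
    have hE := EE_pos (μ := μ) (s := s) n
    have hJx : n * J μ s x ≤ A * EE μ s n := by
      have hKv : 0 ≤ 1 / θ * vA 1 μ s n := by positivity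
      rcases le_total 0 x with h0 | h0
      · have h2 := hJ n ((le_max_left _ _).trans hn) (1 / θ * vA 1 μ s n) (abs_of_nonneg hKv)
        have h3 : J μ s x ≤ J μ s (1 / θ * vA 1 μ s n) := h.J_mono h0 (by rwa [abs_of_nonneg h0] at hxv)
        exact (mul_le_mul_of_nonneg_left h3 hn0.le).trans h2.2
      · have h2 := hJ n ((le_max_left _ _).trans hn) (-(1 / θ * vA 1 μ s n)) (by rw [abs_neg]; exact abs_of_nonneg hKv)
        have h3 : J μ s (-(-x)) ≤ J μ s (-(1 / θ * vA 1 μ s n)) := h.J_mono_neg (by linarith) (by rwa [abs_of_nonpos h0] at hxv)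
        rw [neg_neg] at h3
        exact (mul_le_mul_of_nonneg_left h3 hn0.le).trans h2.2
    have hJ0 : 0 ≤ J μ s x := h.rf.nn x
    calc (N : ℝ) * J μ s (2 ^ j * x) ≤ n * (D ^ j * J μ s x) := mul_le_mul hNn' h1 (h.rf.nn _) hn0.le
      _ = D ^ j * (n * J μ s x) := by ring
      _ ≤ D ^ j * (A * EE μ s n) := mul_le_mul_of_nonneg_left hJx (by positivity)
      _ = A * D ^ j * EE μ s n := by ring

/-- **The tail of the steep level.** -/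
theorem st_tailD94 (h : In μ s c C n₀) : ∃ D : ℝ, 1 ≤ D ∧ ∀ θ : ℝ, 0 < θ → ∃ δ : ℝ, 0 < δ ∧ δ ≤ θ * sl μ s ∧ δ ≤ θ * (1 - sl μ s) ∧
    ∀ B₁ B₂ Λ : ℝ, 1 ≤ B₁ → 2 ≤ B₂ → D ≤ B₂ → 1 ≤ Λ →
    ∃ (A a g : ℝ) (n₁ : ℕ), 0 < A ∧ 0 < a ∧ 0 < g ∧ g ≤ 1 ∧ 1 ≤ n₁ ∧ ∀ (n N : ℕ) (W₀ W₁ r : ℤ) (b q : ℝ), n₁ ≤ n → θ * n ≤ N → N ≤ n →
      0 < W₀ → 0 < W₁ → wd μ s n ≤ Λ * W₀ → wd μ s n ≤ Λ * W₁ → 0 ≤ q →
      (law μ).real (StE84 μ s B₁ B₂ δ n N W₀ W₁ r b q)ᶜ ≤ A * Real.exp (-(a * q ^ g)) := by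
  obtain ⟨D, hD, hcost0⟩ := st_costD94 h
  obtain ⟨C₁, A₀, a₀, g, hC₁, hA₀, ha₀, hg, hg1, hU⟩ := unlucky_all h
  refine ⟨D, hD, fun θ hθ => ?_⟩
  obtain ⟨δ, C₂, n₁, hδ, hδ1, hδ2, hC₂, hn1, hcost⟩ := hcost0 θ hθ
  refine ⟨δ, hδ, hδ1, hδ2, fun B₁ B₂ Λ hB₁ hB₂ hDB hΛ => ?_⟩
  obtain ⟨M, hM, hsum⟩ := st_sum (L := 2 * B₁) (B₂ := B₂) (a := a₀ / 2) (g := g) (by linarith) hB₂ (by positivity) hg
  obtain ⟨C₃, hC₃⟩ : ∃ C₃ : ℝ, C₃ = C₁ * (1 + C₂) + 1 := ⟨_, rfl⟩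
  have hC30 : 1 ≤ C₃ := by
    rw [hC₃]
    have : 0 ≤ C₁ * (1 + C₂) := by positivity
    linarith
  obtain ⟨a, ha⟩ : ∃ a : ℝ, a = a₀ / 2 * (1 / 2) ^ g := ⟨_, rfl⟩
  have ha0 : 0 < a := by rw [ha]; positivity
  obtain ⟨A, hA⟩ : ∃ A : ℝ, A = 18 * Λ ^ 2 * A₀ * M + Real.exp (a * (2 * C₃) ^ g) := ⟨_, rfl⟩
  have hA0 : 0 < A := by rw [hA]; positivity
  refine ⟨A, a, g, n₁, hA0, ha0, hg, hg1, hn1, fun n N W₀ W₁ r b q hn hN hNn hW₀ hW₁ hΛ₀ hΛ₁ hq => ?_⟩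
  rcases le_total q (2 * C₃) with hqs | hqs
  · -- small `q`
    have h1 : q ^ g ≤ (2 * C₃) ^ g := Real.rpow_le_rpow hq hqs hg.le
    have h2 : 1 ≤ A * Real.exp (-(a * q ^ g)) := by
      have h3 : Real.exp (a * q ^ g) ≤ A := by
        have h4 : Real.exp (a * q ^ g) ≤ Real.exp (a * (2 * C₃) ^ g) := Real.exp_le_exp.2 (mul_le_mul_of_nonneg_left h1 ha0.le)
        have h5 : 0 ≤ 18 * Λ ^ 2 * A₀ * M := by positivity
        rw [hA]
        linarith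
      have h4 := mul_le_mul_of_nonneg_right h3 (Real.exp_pos (-(a * q ^ g))).le
      rwa [← Real.exp_add, add_neg_cancel, Real.exp_zero] at h4
    exact measureReal_le_one.trans h2
  have hn1' : 1 ≤ n := hn1.trans hn
  have hn0 : (0 : ℝ) < n := by exact_mod_cast hn1'
  have hN0 : (0 : ℝ) < N := lt_of_lt_of_le (by positivity) hN
  have hN1 : 1 ≤ N := by exact_mod_cast hN0
  have hEn := EE_pos (μ := μ) (s := s) n
  have hEN : EE μ s N ≤ EE μ s n := EE_mono hNn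
  have hwd := h.wd_pos hn1'
  have hW₀R : (0 : ℝ) < W₀ := by exact_mod_cast hW₀
  have hW₁R : (0 : ℝ) < W₁ := by exact_mod_cast hW₁
  have hq2 : 2 ≤ q := by linarith
  have hΛ0 : 0 < Λ := by linarith
  -- the finite families
  obtain ⟨J₀, hJ₀⟩ := exists_nat_gt (δ * n)
  classical
  obtain ⟨Jf, hJf⟩ : ∃ Jf : Finset ℕ, Jf = (Finset.range J₀).filter fun j => 2 ^ j * wd μ s n ≤ δ * n := ⟨_, rfl⟩
  obtain ⟨If, hIf⟩ : ∃ If : ℕ → Finset ℤ, If = fun j => Finset.Icc ⌈(b - B₁ ^ j * wd μ s n) / W₀⌉ ⌊(b + B₁ ^ j * wd μ s n) / W₀⌋ := ⟨_, rfl⟩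
  obtain ⟨Kf, hKf⟩ : ∃ Kf : ℕ → ℤ → Finset ℤ, Kf = fun j t => Finset.Icc ⌈((W₀ * t : ℤ) + sl μ s * N - 2 ^ j * wd μ s n) / W₁⌉
    ⌊((W₀ * t : ℤ) + sl μ s * N + 2 ^ j * wd μ s n) / W₁⌋ := ⟨_, rfl⟩
  obtain ⟨Ev, hEv⟩ : ∃ Ev : ℕ → ℤ → ℤ → Set Env, Ev = fun j t t' =>
    {η | q * B₂ ^ j * EE μ s n ≤ X μ s η (r, W₀ * t) N (W₁ * t' - W₀ * t)} := ⟨_, rfl⟩
  have hcover : (StE84 μ s B₁ B₂ δ n N W₀ W₁ r b q)ᶜ ⊆ ⋃ j ∈ Jf, ⋃ t ∈ If j, ⋃ t' ∈ Kf j t, Ev j t t' := by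
    intro η hη
    have h1 : ¬ ∀ (j : ℕ) (p p' : ℤ), W₀ ∣ p → W₁ ∣ p' → |(p : ℝ) - b| ≤ B₁ ^ j * wd μ s n →
      |(p' : ℝ) - p - sl μ s * N| ≤ 2 ^ j * wd μ s n → 2 ^ j * wd μ s n ≤ δ * n →
        X μ s η (r, p) N (p' - p) ≤ q * B₂ ^ j * EE μ s n := hη
    push Not at h1
    obtain ⟨j, p, p', ⟨t, rfl⟩, ⟨t', rfl⟩, hp, hp', hj, hX⟩ := h1
    rw [Set.mem_iUnion₂]
    refine ⟨j, ?_, ?_⟩
    · rw [hJf, Finset.mem_filter, Finset.mem_range]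
      refine ⟨?_, hj⟩
      have h2 : (j : ℝ) < J₀ := by
        have h3 : (j : ℝ) ≤ 2 ^ j := by exact_mod_cast Nat.lt_two_pow_self.le
        have h4 : (1 : ℝ) ≤ wd μ s n := by
          have h5 := wd_ge_one h hn1'
          have h6 := one_le_EE (μ := μ) (s := s) n
          linarith
        have h5 : (2 : ℝ) ^ j * 1 ≤ 2 ^ j * wd μ s n := mul_le_mul_of_nonneg_left h4 (by positivity)
        linarith
      exact_mod_cast h2
    rw [Set.mem_iUnion₂]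
    refine ⟨t, ?_, ?_⟩
    · have h2 := abs_le.1 hp
      push_cast at h2
      rw [hIf, Finset.mem_Icc, Int.ceil_le, Int.le_floor, div_le_iff₀ hW₀R, le_div_iff₀ hW₀R]
      constructor
      · linarith [h2.1]
      · linarith [h2.2]
    rw [Set.mem_iUnion₂]
    refine ⟨t', ?_, ?_⟩
    · have h2 := abs_le.1 hp'
      push_cast at h2
      rw [hKf, Finset.mem_Icc, Int.ceil_le, Int.le_floor, div_le_iff₀ hW₁R, le_div_iff₀ hW₁R]
      push_cast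
      constructor
      · linarith [h2.1]
      · linarith [h2.2]
    · rw [hEv]
      exact hX.le
  -- one pair
  have hone : ∀ j ∈ Jf, ∀ t : ℤ, ∀ t' ∈ Kf j t, (law μ).real (Ev j t t') ≤
      A₀ * (Real.exp (-(a * q ^ g)) * Real.exp (-(a₀ / 2 * (B₂ ^ j) ^ g))) := by
    intro j hj t t' ht'
    rw [hJf, Finset.mem_filter] at hj
    rw [hKf, Finset.mem_Icc, Int.ceil_le, Int.le_floor, div_le_iff₀ hW₁R, le_div_iff₀ hW₁R] at ht'
    obtain ⟨y, hy⟩ : ∃ y : ℤ, y = W₁ * t' - W₀ * t := ⟨_, rfl⟩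
    have hyd : |(y : ℝ) - sl μ s * N| ≤ 2 ^ j * wd μ s n := by
      rw [abs_le, hy]
      push_cast at ht' ⊢
      constructor
      · linarith [ht'.1]
      · linarith [ht'.2]
    obtain ⟨y0, y1, hyJ⟩ := hcost n N hn hN hNn j y hj.2 hyd
    have hB₂j : 1 ≤ B₂ ^ j := one_le_pow₀ (by linarith)
    have hB₂j0 : 0 < B₂ ^ j := by linarith
    have hDj : D ^ j ≤ B₂ ^ j := pow_le_pow_left₀ (by linarith) hDB j
    have h1 := st_one (μ := μ) (s := s) hC₁ hU (fun x => h.rf.nn x) hN1 (r, W₀ * t) y0 y1 (u := q / 2 * B₂ ^ j)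
      (R := q * B₂ ^ j * EE μ s n) (by positivity) (by
        have e1 : C₁ * (EE μ s N + N * J μ s (((y : ℝ) - sl μ s * N) / N)) ≤ C₁ * (1 + C₂) * (B₂ ^ j * EE μ s n) := by
          have e2 : EE μ s N ≤ B₂ ^ j * EE μ s n := hEN.trans (le_mul_of_one_le_left hEn.le hB₂j)
          have e3 : C₂ * D ^ j * EE μ s n ≤ C₂ * (B₂ ^ j * EE μ s n) := by
            have := mul_le_mul_of_nonneg_left (mul_le_mul_of_nonneg_right hDj hEn.le) hC₂.le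
            linarith
          have e4 := mul_le_mul_of_nonneg_left (add_le_add e2 (hyJ.trans e3)) hC₁.le
          linarith
        have e5 : C₁ * (1 + C₂) ≤ q / 2 := by
          rw [hC₃] at hqs
          linarith
        have e6 := mul_le_mul_of_nonneg_right e5 (show 0 ≤ B₂ ^ j * EE μ s n by positivity)
        have e7 : q / 2 * B₂ ^ j * EE μ s N ≤ q / 2 * B₂ ^ j * EE μ s n := mul_le_mul_of_nonneg_left hEN (by positivity)
        linarith)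
    have h2 : (law μ).real (Ev j t t') ≤ A₀ * Real.exp (-(a₀ * (q / 2 * B₂ ^ j) ^ g)) := by
      rw [hEv]
      show (law μ).real {η | q * B₂ ^ j * EE μ s n ≤ X μ s η (r, W₀ * t) N (W₁ * t' - W₀ * t)} ≤ _
      rw [← hy]
      exact h1
    refine h2.trans (mul_le_mul_of_nonneg_left ?_ hA₀.le)
    rw [← Real.exp_add]
    refine Real.exp_le_exp.2 ?_
    rw [Real.mul_rpow (by positivity) (by positivity)]
    obtain ⟨w, hw⟩ : ∃ w : ℝ, w = (q / 2) ^ g := ⟨_, rfl⟩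
    obtain ⟨x, hx⟩ : ∃ x : ℝ, x = (B₂ ^ j) ^ g := ⟨_, rfl⟩
    have hw1 : 1 ≤ w := by rw [hw]; exact Real.one_le_rpow (by linarith) hg.le
    have hx1 : 1 ≤ x := by rw [hx]; exact Real.one_le_rpow hB₂j hg.le
    have haq : a * q ^ g = a₀ / 2 * w := by
      rw [ha, hw, show q / 2 = 1 / 2 * q by ring, Real.mul_rpow (by norm_num) hq]
      ring
    rw [haq, ← hw, ← hx]
    have h3 : w + x ≤ 2 * (w * x) := by nlinarith
    have h4 := mul_le_mul_of_nonneg_left h3 (show 0 ≤ a₀ / 2 by positivity)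
    linarith
  -- the numbers
  have hcI : ∀ j, ((If j).card : ℝ) ≤ 3 * Λ * B₁ ^ j := by
    intro j
    have hBj : 1 ≤ B₁ ^ j := one_le_pow₀ hB₁
    have hB0 : 0 < B₁ ^ j := by linarith
    rw [hIf]
    refine (card_Icc84 (div_le_div_of_nonneg_right (by have : 0 ≤ B₁ ^ j * wd μ s n := by positivity
                                                       linarith) hW₀R.le)).trans ?_
    have h1 : (b + B₁ ^ j * wd μ s n) / W₀ - (b - B₁ ^ j * wd μ s n) / W₀ = 2 * B₁ ^ j * (wd μ s n / W₀) := by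
      field_simp
      ring
    have h2 : wd μ s n / W₀ ≤ Λ := by rwa [div_le_iff₀ hW₀R]
    have h3 := mul_le_mul_of_nonneg_left h2 (show 0 ≤ 2 * B₁ ^ j by positivity)
    have h4 : 1 ≤ Λ * B₁ ^ j := one_le_mul_of_one_le_of_one_le hΛ hBj
    rw [h1]
    linarith
  have hcK : ∀ j t, ((Kf j t).card : ℝ) ≤ 3 * Λ * 2 ^ j := by
    intro j t
    have hBj : (1 : ℝ) ≤ 2 ^ j := one_le_pow₀ (by norm_num)
    rw [hKf]
    refine (card_Icc84 (div_le_div_of_nonneg_right (by have : 0 ≤ 2 ^ j * wd μ s n := by positivity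
                                                       linarith) hW₁R.le)).trans ?_
    have h1 : ((W₀ * t : ℤ) + sl μ s * N + 2 ^ j * wd μ s n) / W₁ - ((W₀ * t : ℤ) + sl μ s * N - 2 ^ j * wd μ s n) / W₁ =
        2 * 2 ^ j * (wd μ s n / W₁) := by
      field_simp
      ring
    have h2 : wd μ s n / W₁ ≤ Λ := by rwa [div_le_iff₀ hW₁R]
    have h3 := mul_le_mul_of_nonneg_left h2 (show (0 : ℝ) ≤ 2 * 2 ^ j by positivity)
    have h4 : 1 ≤ Λ * 2 ^ j := one_le_mul_of_one_le_of_one_le hΛ hBj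
    rw [h1]
    linarith
  -- the sum
  have hsumj : ∀ j ∈ Jf, (law μ).real (⋃ t ∈ If j, ⋃ t' ∈ Kf j t, Ev j t t') ≤ 9 * Λ ^ 2 * A₀ * M * Real.exp (-(a * q ^ g)) * (1 / 2) ^ j := by
    intro j hj
    obtain ⟨pj, hpj⟩ : ∃ pj : ℝ, pj = A₀ * (Real.exp (-(a * q ^ g)) * Real.exp (-(a₀ / 2 * (B₂ ^ j) ^ g))) := ⟨_, rfl⟩
    have hpj0 : 0 ≤ pj := by rw [hpj]; positivity
    have h1 : ∀ t ∈ If j, (law μ).real (⋃ t' ∈ Kf j t, Ev j t t') ≤ 3 * Λ * 2 ^ j * pj := by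
      intro t _
      refine (measureReal_biUnion_finset_le _ _).trans ?_
      have h2 := Finset.sum_le_card_nsmul (Kf j t) (fun t' => (law μ).real (Ev j t t')) pj (fun t' ht' => by
        rw [hpj]
        exact hone j hj t t' ht')
      rw [nsmul_eq_mul] at h2
      exact h2.trans (mul_le_mul_of_nonneg_right (hcK j t) hpj0)
    refine (measureReal_biUnion_finset_le _ _).trans ?_
    have h2 := Finset.sum_le_card_nsmul (If j) (fun t => (law μ).real (⋃ t' ∈ Kf j t, Ev j t t')) _ h1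
    rw [nsmul_eq_mul] at h2
    refine h2.trans ?_
    have hB0 : 0 ≤ B₁ ^ j := by positivity
    have h3 : ((If j).card : ℝ) * (3 * Λ * 2 ^ j * pj) ≤ 3 * Λ * B₁ ^ j * (3 * Λ * 2 ^ j * pj) :=
      mul_le_mul_of_nonneg_right (hcI j) (by positivity)
    refine h3.trans ?_
    have h4 := mul_le_mul_of_nonneg_left (hsum j) (show 0 ≤ 9 * Λ ^ 2 * A₀ * Real.exp (-(a * q ^ g)) by positivity)
    calc 3 * Λ * B₁ ^ j * (3 * Λ * 2 ^ j * pj) =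
        9 * Λ ^ 2 * A₀ * Real.exp (-(a * q ^ g)) * ((2 * B₁) ^ j * Real.exp (-(a₀ / 2 * (B₂ ^ j) ^ g))) := by
          rw [hpj, mul_pow]
          ring
      _ ≤ _ := h4
      _ = _ := by ring
  have hgeo : ∑ j ∈ Jf, ((1 : ℝ) / 2) ^ j ≤ 2 := by
    have h1 : ∑ j ∈ Jf, ((1 : ℝ) / 2) ^ j ≤ ∑ j ∈ Finset.range J₀, ((1 : ℝ) / 2) ^ j := by
      rw [hJf]
      exact Finset.sum_le_sum_of_subset_of_nonneg (Finset.filter_subset _ _) fun j _ _ => by positivity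
    refine h1.trans ?_
    rw [geom_sum_eq (by norm_num)]
    have h2 : (0 : ℝ) ≤ (1 / 2) ^ J₀ := by positivity
    linarith [show ((1 / 2 : ℝ) ^ J₀ - 1) / (1 / 2 - 1) = 2 * (1 - (1 / 2) ^ J₀) by ring]
  calc (law μ).real (StE84 μ s B₁ B₂ δ n N W₀ W₁ r b q)ᶜ ≤ (law μ).real (⋃ j ∈ Jf, ⋃ t ∈ If j, ⋃ t' ∈ Kf j t, Ev j t t') :=
        measureReal_mono hcover (measure_ne_top _ _)
    _ ≤ ∑ j ∈ Jf, (law μ).real (⋃ t ∈ If j, ⋃ t' ∈ Kf j t, Ev j t t') := measureReal_biUnion_finset_le _ _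
    _ ≤ ∑ j ∈ Jf, 9 * Λ ^ 2 * A₀ * M * Real.exp (-(a * q ^ g)) * (1 / 2) ^ j := Finset.sum_le_sum hsumj
    _ = 9 * Λ ^ 2 * A₀ * M * Real.exp (-(a * q ^ g)) * ∑ j ∈ Jf, ((1 : ℝ) / 2) ^ j := by rw [Finset.mul_sum]
    _ ≤ 9 * Λ ^ 2 * A₀ * M * Real.exp (-(a * q ^ g)) * 2 := mul_le_mul_of_nonneg_left hgeo (by positivity)
    _ = 18 * Λ ^ 2 * A₀ * M * Real.exp (-(a * q ^ g)) := by ring
    _ ≤ A * Real.exp (-(a * q ^ g)) := by
      refine mul_le_mul_of_nonneg_right ?_ (Real.exp_pos _).le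
      rw [hA]
      have := Real.exp_pos (a * (2 * C₃) ^ g)
      linarith

/-- **The steep levels are a family.** -/
theorem st_famD94 (h : In μ s c C n₀) : ∃ D : ℝ, 1 ≤ D ∧ ∀ θ : ℝ, 0 < θ → ∃ δ : ℝ, 0 < δ ∧
    δ ≤ θ * sl μ s ∧ δ ≤ θ * (1 - sl μ s) ∧ ∀ B₁ B₂ Lm : ℝ, 1 ≤ B₁ → 2 ≤ B₂ → D ≤ B₂ → 1 ≤ Lm → ∃ (A a g : ℝ) (n₁ : ℕ), 0 < A ∧ 0 < a ∧ 0 < g ∧ 1 ≤ n₁ ∧
      ∀ {Λ : Type*} (Hf : Cut Λ → Cut Λ → ℕ) (Wg : Cut Λ → ℤ) (ce : Cut Λ → Cut Λ → ℝ),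
        LvF μ A a g (stS μ s B₁ B₂ δ θ Lm n₁ Hf Wg ce) := by
  obtain ⟨D, hD, H0⟩ := st_tailD94 h
  refine ⟨D, hD, fun θ hθ => ?_⟩
  obtain ⟨δ, hδ, hδ1, hδ2, H⟩ := H0 θ hθ
  refine ⟨δ, hδ, hδ1, hδ2, fun B₁ B₂ Lm hB₁ hB₂ hDB hL => ?_⟩
  obtain ⟨A, a, g, n₁, hA, ha, hg, -, hn1, X⟩ := H B₁ B₂ Lm hB₁ hB₂ hDB hL
  refine ⟨A, a, g, n₁, hA, ha, hg, hn1, fun Hf Wg ce => ⟨fun x y q q' hq => ?_, fun x y q => ?_, fun x y q η η' hh => ?_,
    fun x y q hq => ?_⟩⟩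
  · unfold stS
    split_ifs
    · exact DD84.StE84_mono (by linarith) hq
    · exact subset_rfl
  · unfold stS
    split_ifs
    · exact DD84.meas_StE84
    · exact MeasurableSet.univ
  · unfold stS
    split_ifs
    · exact iff_of_eq (DD84.dep_StE84 fun p hp => hh p (rows_btw hp.1 hp.2))
    · exact Iff.rfl
  · unfold stS
    split_ifs with hs
    · have hP : IsProbabilityMeasure (law μ) := by unfold law; infer_instance
      have h1 := X (Hf x y) (nR x y) (Wg x) (Wg y) x.row (ce x y) q hs.hn hs.hN hs.hNn hs.hW₀ hs.hW₁ hs.hL₀ hs.hL₁ hq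
      rw [← ENNReal.ofReal_toReal (measure_ne_top (law μ) _)]
      exact ENNReal.ofReal_le_ofReal h1
    · rw [Set.compl_univ, measure_empty]
      exact zero_le

/-- **The steep levels at all the bases are a family.** -/
theorem stF_famD94 (h : In μ s c C n₀) : ∃ D : ℝ, 1 ≤ D ∧ ∀ θ : ℝ, 0 < θ → ∃ δ : ℝ, 0 < δ ∧
    δ ≤ θ * sl μ s ∧ δ ≤ θ * (1 - sl μ s) ∧ ∀ B₁ B₂ Lm e : ℝ, 1 ≤ B₁ → 2 ≤ B₂ → D ≤ B₂ → 1 ≤ Lm → 0 < e → ∃ (A a g : ℝ) (n₁ : ℕ), 0 < A ∧ 0 < a ∧ 0 < g ∧ 1 ≤ n₁ ∧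
      ∀ {Λ : Type*} (Hf : Cut Λ → Cut Λ → ℕ) (Wg : Cut Λ → ℤ) (ce : Cut Λ → Cut Λ → ℝ),
        LvF μ A a g (stF6 μ s B₁ B₂ δ θ Lm n₁ Hf Wg ce e) := by
  obtain ⟨D, hD, H0⟩ := st_famD94 h
  refine ⟨D, hD, fun θ hθ => ?_⟩
  obtain ⟨δ, hδ, hδ1, hδ2, H⟩ := H0 θ hθ
  refine ⟨δ, hδ, hδ1, hδ2, fun B₁ B₂ Lm e hB₁ hB₂ hDB hL he => ?_⟩
  obtain ⟨A, a, g, n₁, hA, ha, hg, hn1, X⟩ := H B₁ B₂ Lm hB₁ hB₂ hDB hL
  obtain ⟨A', hA', Y⟩ := fat_tail6 hA ha hg he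
  have hP : IsProbabilityMeasure (law μ) := by unfold law; infer_instance
  refine ⟨A', a / 2, g, n₁, hA', by positivity, hg, hn1, fun Hf Wg ce => ⟨fun x y q q' hq => ?_, fun x y q => ?_,
    fun x y q η η' hh => ?_, fun x y q hq => ?_⟩⟩
  · exact Set.iInter_mono fun k => (X Hf Wg _).mono x y (mul_le_mul_of_nonneg_right hq (by positivity))
  · exact MeasurableSet.iInter fun k => (X Hf Wg _).meas x y _
  · unfold stF6
    simp only [Set.mem_iInter]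
    exact forall_congr' fun k => (X Hf Wg _).rows x y _ η η' hh
  · exact Y (fun k q => stS μ s B₁ B₂ δ θ Lm n₁ Hf Wg (fun x y => ce x y + k * wd μ s (Hf x y)) x y q)
      (fun k q hq => (X Hf Wg _).tail x y q hq) q hq

end

end Pool.Agent.W_7d29a1_C1.StD94
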