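import Pool.Agent.W_7d29a1_C1.TopF63

/-!
MP_7d29a1_pr, the attractor route [C1], TAME: THE FAMILY OF LEVELS, second form: `1 ≤ P`, and `2 ^ j₁` beyond a given threshold `n₂ P`.
(helper63)
-/

set_option autoImplicit false

namespace Pool.Agent.W_7d29a1_C1.TpF63

open MeasureTheory ProbabilityTheory Finset Filter
open Pool.Agent.W_7d29a1_F Pool.Agent.W_7d29a1_h4g Pool.Agent.W_7d29a1_H Pool.Agent.W_7d29a1_HS
open Pool.Agent.W_7d29a1_C1.H75 Pool.Agent.W_7d29a1_C1.U16 Pool.Agent.W_7d29a1_C1.H40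
open Pool.Agent.W_7d29a1_C1.Dep6

noncomputable section

variable {μ : Measure ℝ} {s c θ K ε q : ℝ} {n N P P' : ℕ} {b : Pt}

/-- The power of the lateral profile may be increased. -/
theorem Far16_pow63 (hP : P ≤ P') (hq : 0 ≤ q) : Far16 μ s c θ K n N P b q ⊆ Far16 μ s c θ K n N P' b q := by
  intro η hη m
  refine LevS_mono (mul_le_mul_of_nonneg_left ?_ hq) (hη m)
  unfold fq16
  refine pow_le_pow_right₀ ?_ hP
  have : 0 ≤ Real.log (1 + |(m : ℝ)|) := Real.log_nonneg (by linarith [abs_nonneg (m : ℝ)])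
  linarith

/-- **THE LEVELS OF THE LAYERS AND OF THEIR TOP ROWS ARE ONE FAMILY**, the bottom height beyond `n₂ P`. -/
theorem lt_famB63 [IsProbabilityMeasure μ] {C : ℝ} {n₀ : ℕ} (h : In μ s c C n₀) (hK : 0 < K) (hθ : 0 < θ) (hθ1 : θ ≤ 1) (hε : 0 < ε)
    (n₂ : ℕ → ℕ) :
    ∃ (P : ℕ) (A a g : ℝ) (n₁ j₁ : ℕ), 1 ≤ P ∧ 0 < A ∧ 0 < a ∧ 0 < g ∧ g ≤ 1 ∧ 1 ≤ n₁ ∧ n₁ ≤ 2 ^ j₁ ∧ n₂ P ≤ 2 ^ j₁ ∧
      ∀ {Λ : Type*} (Hf : Cut Λ → Cut Λ → ℕ), (∀ a b, n₁ ≤ Hf a b) → ∀ col : Cut Λ → ℤ,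
        LvF μ A a g fun x y q => lvS μ s c θ K P Hf col x y q ∩ tpS μ s c θ K ε P j₁ col x y q := by
  obtain ⟨P₀, A, a, g, hA, ha, hg, hg1, m₁, hm1, H₀⟩ := far_prob h hK hθ hθ1
  obtain ⟨P, hPd⟩ : ∃ P, P = max 1 P₀ := ⟨_, rfl⟩
  have hP1 : 1 ≤ P := by rw [hPd]; exact le_max_left _ _
  have hP0 : P₀ ≤ P := by rw [hPd]; exact le_max_right _ _
  have hPr : IsProbabilityMeasure (law μ) := by unfold law; infer_instance
  have H : ∀ n : ℕ, m₁ ≤ n → ∀ N : ℕ, N ≤ n → ∀ (b : Pt) (q : ℝ), 0 ≤ q →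
      (law μ).real (Far16 μ s c θ K n N P b q)ᶜ ≤ A * Real.exp (-(a * q ^ g)) := fun n hn N hN b q hq =>
    (measureReal_mono (Set.compl_subset_compl.2 (Far16_pow63 hP0 hq)) (measure_ne_top _ _)).trans (H₀ n hn N hN b q hq)
  have H2 : ∀ n : ℕ, max m₁ (n₂ P) ≤ n → ∀ N : ℕ, N ≤ n → ∀ (b : Pt) (q : ℝ), 0 ≤ q →
      (law μ).real (Far16 μ s c θ K n N P b q)ᶜ ≤ A * Real.exp (-(a * q ^ g)) := fun n hn => H n ((le_max_left _ _).trans hn)
  obtain ⟨j₁, A', hj₁, hA', HT⟩ := tp_prob (μ := μ) (s := s) (c := c) (θ := θ) (K := K) (ε := ε) (P := P) h.em hA ha hg hg1 hε H2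
  obtain ⟨a', ha'⟩ : ∃ a', a' = min a 1 := ⟨_, rfl⟩
  have ha'0 : 0 < a' := by rw [ha']; exact lt_min ha one_pos
  refine ⟨P, A + A', a', g, m₁, j₁, hP1, by positivity, ha'0, hg, hg1, hm1, (le_max_left _ _).trans hj₁, (le_max_right _ _).trans hj₁,
    fun Hf hH col => ⟨fun x y q q' hq => ?_, fun x y q => ?_, fun x y q η η' hh => ?_, fun x y q hq => ?_⟩⟩
  · exact Set.inter_subset_inter (Far16_mono hq _ _ _ _) (Tp63_mono hq)
  · exact (Far16_meas _ _ _ _ _ _ _).inter Tp63_meas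
  · refine and_congr (Far16_rows fun p hp => hh p (rows_btw hp.1 hp.2)) (Tp63_rows fun p h1 h2 => hh p ⟨nR_lt h1 h2, h2⟩)
  · have h1 := H (hg6 Hf x y) ((hH x y).trans (le_max_left _ _)) (nR x y) (le_max_right _ _) (x.row, col x) q hq
    have h2 := HT (nR x y) (y.row, col y) q hq
    rw [← ha'] at h2
    have h3 : Real.exp (-(a * q ^ g)) ≤ Real.exp (-(a' * q ^ g)) := by
      refine Real.exp_le_exp.2 ?_
      have h4 : 0 ≤ q ^ g := Real.rpow_nonneg hq g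
      have h5 : a' ≤ a := by rw [ha']; exact min_le_left _ _
      nlinarith
    rw [Set.compl_inter]
    refine (measure_union_le _ _).trans ?_
    rw [← ENNReal.ofReal_toReal (measure_ne_top (law μ) (lvS μ s c θ K P Hf col x y q)ᶜ),
      ← ENNReal.ofReal_toReal (measure_ne_top (law μ) (tpS μ s c θ K ε P j₁ col x y q)ᶜ),
      ← ENNReal.ofReal_add ENNReal.toReal_nonneg ENNReal.toReal_nonneg]
    refine ENNReal.ofReal_le_ofReal ?_
    have h6 := mul_le_mul_of_nonneg_left h3 hA.le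
    have h7 := add_le_add h1 h2
    refine h7.trans ?_
    linarith

end

end Pool.Agent.W_7d29a1_C1.TpF63
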