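import Pool.Agent.W_7d29a1_C1.OkN6
import Pool.Agent.W_7d29a1_C1.TopG63
import Pool.Agent.W_7d29a1_C1.StD94
import Pool.Agent.W_7d29a1_C1.GeoB37

/-!
MP_7d29a1_pr, the attractor route, TAME: THE CANONICAL DEPTHS, one text for all the clauses. (helper6)

`Tc6` = the constants. Heights `HsC6`, columns `colG6`, grids `WgC6` of the labels; families `FC6` (levels of the layers with their tops), `FsC6`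
(steep levels), `XC6` (nodes); depths `dLC6`, `dNC6`. `Tg6` : the two families are families of levels. `far6`, `steep6`, `node6` : the order of
the constants; `can6` : moments and tail. `farC6`, `topC6`, `nodesC6`, `stlC6` : what `Ok6` says.
-/

set_option autoImplicit false

namespace Pool.Agent.W_7d29a1_C1.Dep6

open MeasureTheory ProbabilityTheory Finset
open Pool.Agent.W_7d29a1_F Pool.Agent.W_7d29a1_h4g Pool.Agent.W_7d29a1_H Pool.Agent.W_7d29a1_HS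
open Pool.Agent.W_7d29a1_C1.H75 Pool.Agent.W_7d29a1_C1.U16 Pool.Agent.W_7d29a1_C1.H40 Pool.Agent.W_7d29a1_C1.S71
open Pool.Agent.W_7d29a1_C1.H94
open Pool.Agent.W_7d29a1_C1.G37 (Gm)
open Pool.Agent.W_7d29a1_C1.LrN89 (StL89)
open Pool.Agent.W_7d29a1_C1.TpF63 (tpS Tp63 lt_famB63)
open Pool.Agent.W_7d29a1_C1.StD94 (stF_famD94)
open scoped ENNReal

noncomputable section

/-- **THE CONSTANTS OF THE DEPTHS.** -/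
structure Tc6 where
  /-- length of the layers in their heights, window, exponent of the tops -/
  θ : ℝ
  K : ℝ
  e : ℝ
  P : ℕ
  j₁ : ℕ
  /-- steep levels -/
  B₁ : ℝ
  B₂ : ℝ
  δ : ℝ
  θs : ℝ
  Lm : ℝ
  es : ℝ
  n₁s : ℕ
  /-- nodes -/
  c₀ : ℝ
  δ₁ : ℝ
  θa : ℝ
  Y : ℝ
  Kb : ℕ
  n₃ : ℕ
  R : ℕ
  Cn : ℕ
  /-- first level, ratio of the levels -/
  q₀ : ℝ
  Th : ℝ

variable (μ : Measure ℝ) (s c : ℝ) (G : Gm) (T : Tc6)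

/-- The height of a label. -/
def HsC6 (v : ℕ) : ℕ := 8 * G.K ^ 2 * G.T v

/-- The height of a layer. -/
def HfC6 (a b : Cut (ℤ × ℤ)) : ℕ := HsC6 G (lb6 a b)

/-- The unit of a label, for the nodes. -/
def TnC6 (v : ℕ) : ℕ := 4 * G.T v

/-- The column of a cut. -/
def colG6 (a : Cut (ℤ × ℤ)) : ℤ := colC6 G.latC (sl μ s) a

/-- The grid of a scale. -/
def WgC6 (v : ℕ) : ℤ := ⌊wd μ s (HsC6 G v)⌋

/-- **The levels of the layers**, with their tops. -/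
def FC6 (a b : Cut (ℤ × ℤ)) (q : ℝ) : Set Env :=
  lvS μ s c T.θ T.K T.P (HfC6 G) (colG6 μ s G) a b q ∩ tpS μ s c T.θ T.K T.e T.P T.j₁ (colG6 μ s G) a b q

/-- **The steep levels.** -/
def FsC6 (a b : Cut (ℤ × ℤ)) (q : ℝ) : Set Env :=
  stF6 μ s T.B₁ T.B₂ T.δ T.θs T.Lm T.n₁s (fun a b => HsC6 G (lb6 a b)) (fun a => WgC6 μ s G a.sc) (ceC6 G.latC (sl μ s)) T.es a b q

/-- **The nodes.** -/
def XC6 (a b e : Cut (ℤ × ℤ)) (η : Env) : ℕ :=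
  dpX6 μ s T.c₀ T.δ₁ T.θa T.Y T.Kb T.n₃ T.R (wN6 μ s (TnC6 G)) (qN6 μ s (TnC6 G)) (fun _ b _ => colG6 μ s G b) a b e η

/-- **THE DEPTH OF A LAYER.** -/
def dLC6 (E : Cut (ℤ × ℤ) → Cut (ℤ × ℤ) → Set Env) (D : ℕ) : Cut (ℤ × ℤ) → Cut (ℤ × ℤ) → Env → ℕ :=
  dLI6 (FC6 μ s c G T) (FsC6 μ s G T) E T.q₀ T.Th D

/-- **THE DEPTH OF A NODE.** -/
def dNC6 (E3 : Cut (ℤ × ℤ) → Cut (ℤ × ℤ) → Cut (ℤ × ℤ) → Set Env) (D : ℕ) : Cut (ℤ × ℤ) → Cut (ℤ × ℤ) → Cut (ℤ × ℤ) → Env → ℕ :=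
  dNI6 (XC6 μ s G T) T.Cn (FC6 μ s c G T) E3 T.q₀ T.Th D

/-- **The families are families of levels.** -/
structure Tg6 (A a g A' a' g' : ℝ) : Prop where
  F : LvF μ A a g (FC6 μ s c G T)
  F' : LvF μ A' a' g' (FsC6 μ s G T)
  q0 : 0 ≤ T.q₀
  th : 1 ≤ T.Th

variable {μ s c G T}

theorem HsC6_pos (v : ℕ) : 1 ≤ HsC6 G v := by
  have h1 := G.T_pos v
  have h2 := G.hK
  unfold HsC6
  exact Nat.mul_pos (Nat.mul_pos (by norm_num) (Nat.pow_pos (by omega))) h1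

theorem HsC6_mono {v v' : ℕ} (h : v ≤ v') : HsC6 G v ≤ HsC6 G v' := Nat.mul_le_mul_left _ (G.T_mono h)

theorem le_HsC6 (v : ℕ) : 64 * G.T v ≤ HsC6 G v := by
  unfold HsC6
  refine Nat.mul_le_mul_right _ ?_
  have h2 := G.hK
  nlinarith [Nat.pow_le_pow_left h2 2]

/-! ### The order of the constants -/

/-- **The far family**: window `K`, length `θ`, exponent `e`, a threshold `n₂` of `P`; then `P`, `j₁`. -/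
theorem far6 [IsProbabilityMeasure μ] {C : ℝ} {n₀ : ℕ} (h : In μ s c C n₀) {K θ e : ℝ} (hK : 0 < K) (hθ : 0 < θ) (hθ1 : θ ≤ 1)
    (he : 0 < e) (n₂ : ℕ → ℕ) : ∃ (P : ℕ) (A a g : ℝ) (n₁ j₁ : ℕ), 1 ≤ P ∧ 0 < A ∧ 0 < a ∧ 0 < g ∧ g ≤ 1 ∧ 1 ≤ n₁ ∧ n₁ ≤ 2 ^ j₁ ∧
      n₂ P ≤ 2 ^ j₁ ∧
      ∀ (G : Gm) (T : Tc6), T.K = K → T.θ = θ → T.e = e → T.P = P → T.j₁ = j₁ → n₁ ≤ G.T0 → LvF μ A a g (FC6 μ s c G T) := by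
  obtain ⟨P, A, a, g, n₁, j₁, hP, hA, ha, hg, hg1, hn, hj, hj2, H⟩ := lt_famB63 h hK hθ hθ1 he n₂
  refine ⟨P, A, a, g, n₁, j₁, hP, hA, ha, hg, hg1, hn, hj, hj2, fun G T e1 e2 e3 e4 e5 hn1 => ?_⟩
  have h1 := H (HfC6 G) (fun x y => ?_) (colG6 μ s G)
  · rw [← e1, ← e2, ← e3, ← e4, ← e5] at h1
    exact h1
  · have h2 := le_HsC6 (G := G) (lb6 x y)
    have h3 : G.T 0 ≤ G.T (lb6 x y) := G.T_mono (Nat.zero_le _)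
    have h4 : G.T 0 = G.T0 := by
      show G.T0 * G.K ^ 0 = G.T0
      rw [pow_zero, mul_one]
    show n₁ ≤ HsC6 G (lb6 x y)
    omega

/-- **The steep family**: `D`, then `θs`, `δ`, then `B₁`, `B₂`, `Lm`, the exponent. -/
theorem steep6 [IsProbabilityMeasure μ] {C : ℝ} {n₀ : ℕ} (h : In μ s c C n₀) : ∃ D : ℝ, 1 ≤ D ∧ ∀ θs : ℝ, 0 < θs → ∃ δ : ℝ, 0 < δ ∧
    δ ≤ θs * sl μ s ∧ δ ≤ θs * (1 - sl μ s) ∧ ∀ B₁ B₂ Lm es : ℝ, 1 ≤ B₁ → 2 ≤ B₂ → D ≤ B₂ → 1 ≤ Lm → 0 < es →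
      ∃ (A a g : ℝ) (n₁s : ℕ), 0 < A ∧ 0 < a ∧ 0 < g ∧ 1 ≤ n₁s ∧ ∀ (G : Gm) (T : Tc6), T.θs = θs → T.δ = δ → T.B₁ = B₁ → T.B₂ = B₂ →
        T.Lm = Lm → T.es = es → T.n₁s = n₁s → LvF μ A a g (FsC6 μ s G T) := by
  obtain ⟨D, hD, H⟩ := stF_famD94 h
  refine ⟨D, hD, fun θs hθ => ?_⟩
  obtain ⟨δ, hδ, hδ1, hδ2, H⟩ := H θs hθ
  refine ⟨δ, hδ, hδ1, hδ2, fun B₁ B₂ Lm es h1 h2 h3 h4 h5 => ?_⟩
  obtain ⟨A, a, g, n₁, hA, ha, hg, hn, H⟩ := H B₁ B₂ Lm es h1 h2 h3 h4 h5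
  refine ⟨A, a, g, n₁, hA, ha, hg, hn, fun G T e1 e2 e3 e4 e5 e6 e7 => ?_⟩
  subst e1 e2 e3 e4 e5 e6 e7
  exact H _ _ _

/-- **The nodes**: constants of the nodes, `R`, `z`, `Cn`; then `Y`. -/
theorem node6 [IsProbabilityMeasure μ] {c₀ δ₁ c₁ A a g θa Y₁ : ℝ} {K0 Kb n₃ : ℕ}
    (hC : Cs94 μ s c₀ δ₁ c₁ A a g θa Y₁ K0 Kb n₃) {R : ℕ} (hR : 1 ≤ R) {z : ℝ} (hz : 1 ≤ z) (Cn : ℕ) :
    ∃ Y₂ : ℝ, 8 * Y₁ ≤ Y₂ ∧ 8 ≤ Y₂ ∧ ∀ (G : Gm) (T : Tc6), T.c₀ = c₀ → T.δ₁ = δ₁ → T.θa = θa → T.Kb = Kb → T.n₃ = n₃ → T.R = R → T.Cn = Cn →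
      Y₂ ≤ T.Y → Dp3 μ (ENNReal.ofReal z ^ T.Cn) (1 + ENNReal.ofReal (1 / 4)) (XC6 μ s G T) := by
  obtain ⟨Y₂, h1, h2, H⟩ := nodI6 hC hR hz Cn
  refine ⟨Y₂, h1, h2, fun G T e1 e2 e3 e4 e5 e6 e7 hY => ?_⟩
  subst e1 e2 e3 e4 e5 e6 e7
  exact H T.Y hY _ _ _

/-- **THE MOMENTS AND THE TAIL OF THE CANONICAL DEPTHS**: the families, then `Th`, `z`, then `q₀`. -/
theorem can6 [IsProbabilityMeasure μ] {A a g A' a' g' th z : ℝ} (hA : 0 < A) (ha : 0 < a) (hg : 0 < g)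
    (hA' : 0 < A') (ha' : 0 < a') (hg' : 0 < g') (hth : 1 < th) (hz : 1 ≤ z) : ∃ Y₀ : ℝ, 1 ≤ Y₀ ∧
      ∀ (G : Gm) (T : Tc6), Y₀ ≤ T.q₀ → T.Th = th → ∀ (D : ℕ) {E : Cut (ℤ × ℤ) → Cut (ℤ × ℤ) → Set Env}
        {E3 : Cut (ℤ × ℤ) → Cut (ℤ × ℤ) → Cut (ℤ × ℤ) → Set Env} {d : ℝ≥0∞}, Tg6 μ s c G T A a g A' a' g' → Ev2 μ d E → Ev3 μ d E3 →
        ENNReal.ofReal z * d ≤ ENNReal.ofReal (1 / 2) → Dp3 μ (ENNReal.ofReal z ^ T.Cn) (1 + ENNReal.ofReal (1 / 4)) (XC6 μ s G T) →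
        Dp2 μ (ENNReal.ofReal z) 2 (dLC6 μ s c G T E D) ∧ Dp3 μ (ENNReal.ofReal z) 2 (dNC6 μ s c G T E3 D) ∧
        ∀ E₀ x y, 1 ≤ E₀ → law μ {η | E₀ < dLC6 μ s c G T E D x y η} ≤
          ENNReal.ofReal (A * Real.exp (-(a * (T.q₀ * th ^ E₀) ^ g)) + A' * Real.exp (-(a' * (T.q₀ * th ^ E₀) ^ g'))) := by
  obtain ⟨Y₀, hY, H⟩ := depI6 (μ := μ) hA ha hg hA' ha' hg' hth hz
  refine ⟨Y₀, hY, fun G T hq e1 D E E3 d hT hE hE3 hzd hX => ?_⟩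
  subst e1
  obtain ⟨h1, h2, h3⟩ := H T.q₀ hq D hT.F hT.F' hE hE3 hzd
  exact ⟨h1, h3 _ _ hX, h2⟩

/-! ### What `Ok6` says -/

section Ok

variable {A a g A' a' g' : ℝ} {E : Cut (ℤ × ℤ) → Cut (ℤ × ℤ) → Set Env} {E3 : Cut (ℤ × ℤ) → Cut (ℤ × ℤ) → Cut (ℤ × ℤ) → Set Env} {D : ℕ}
  {Sw : Finset ℤ} {Z : List (Cut (ℤ × ℤ))} {u : ℕ} {η : Env}

/-- **The level of a layer.** -/
theorem farC6 (hT : Tg6 μ s c G T A a g A' a' g') (ho : Ok6 Sw (dLC6 μ s c G T E D) (dNC6 μ s c G T E3 D) lb6 lbN6 Z u η)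
    {P Q : List (Cut (ℤ × ℤ))} {x y : Cut (ℤ × ℤ)} (hZ : Z = P ++ x :: y :: Q) {l : ℕ} (h1 : u ≤ lb6 x y + l) (h2 : lb6 x y ≤ u + l)
    (hl : l < D) : η ∈ Far16 μ s c T.θ T.K (hg6 (HfC6 G) x y) (nR x y) T.P (x.row, colG6 μ s G x) (T.q₀ * T.Th ^ l) :=
  (ok_lay6 hT.F hT.F' hT.q0 hT.th ho hZ h1 h2 hl).1.1

/-- **The levels of the top of a layer.** -/
theorem topC6 (hT : Tg6 μ s c G T A a g A' a' g') (ho : Ok6 Sw (dLC6 μ s c G T E D) (dNC6 μ s c G T E3 D) lb6 lbN6 Z u η)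
    {P Q : List (Cut (ℤ × ℤ))} {x y : Cut (ℤ × ℤ)} (hZ : Z = P ++ x :: y :: Q) {l : ℕ} (h1 : u ≤ lb6 x y + l) (h2 : lb6 x y ≤ u + l)
    (hl : l < D) : η ∈ Tp63 μ s c T.θ T.K T.e T.P T.j₁ (nR x y) (y.row, colG6 μ s G y) (T.q₀ * T.Th ^ l) :=
  (ok_lay6 hT.F hT.F' hT.q0 hT.th ho hZ h1 h2 hl).1.2

/-- A short layer has the height of its label. -/
theorem hgC6 {x y : Cut (ℤ × ℤ)} (h : nR x y ≤ HsC6 G (lb6 x y)) : hg6 (HfC6 G) x y = HsC6 G (lb6 x y) := max_eq_left h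

variable {σ : Type*} {Gg : Geo σ (ℤ × ℤ)} {ρ : σ} {cs : ℕ → Cut (ℤ × ℤ)} {i₀ f m o : ℕ} {r Tn : ℕ → ℕ}

/-- The two geometries have the same scales. -/
structure Sm6 (Gg : Geo σ (ℤ × ℤ)) (G : Gm) : Prop where
  T0 : Gg.T0 = G.T0
  K : Gg.K = G.K

theorem Sm6.Teq (h : Sm6 Gg G) (v : ℕ) : Gg.T v = G.T v := by
  show Tk Gg.T0 Gg.K v = Tk G.T0 G.K v
  rw [h.T0, h.K]

theorem Sm6.tN (h : Sm6 Gg G) : tN6 Gg = TnC6 G := funext fun v => by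
  unfold tN6 TnC6
  rw [h.Teq]

/-- **THE NODES OF A PIECE.** -/
theorem nodesC6 (hs : Sm6 Gg G) (hT : Tg6 μ s c G T A a g A' a' g')
    (ho : Ok6 Sw (dLC6 μ s c G T E D) (dNC6 μ s c G T E3 D) lb6 lbN6 Z u η) (h : Pc6 Gg ρ cs i₀ f m Z.length)
    (hr : Rf6 Gg cs i₀ f m o r Tn)
    (htr : ∀ i, i + 2 < Z.length → ∃ P Q, Z = P ++ cs i :: cs (i + 1) :: cs (i + 2) :: Q)
    {k l : ℕ} (hk1 : 1 ≤ k) (hk2 : k < m) (hsw : ¬ HasSw Sw (cs (i₀ + (k - 1))) (cs (i₀ + (k + 1)))) (h1 : u ≤ f + k + l)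
    (h2 : f + k ≤ u + l) (hl : l < D)
    (hN : NdOk μ s T.θa T.Kb T.n₃ (nR (cs (i₀ + (k - 1))) (cs (i₀ + k))) (nR (cs (i₀ + k)) (cs (i₀ + (k + 1))))
      (wN6 μ s (TnC6 G) (cs (i₀ + (k - 1))) (cs (i₀ + k)) (cs (i₀ + (k + 1))))
      (qN6 μ s (TnC6 G) (cs (i₀ + (k - 1))) (cs (i₀ + k)) (cs (i₀ + (k + 1))))) :
    T.Cn * nu μ s T.c₀ T.δ₁ T.Y (wd μ s (Tn (o + (k - 1)))) (wd μ s (Tn (o + k)) / wd μ s (Tn (o + (k - 1)))) T.R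
      (r (o + (k - 1)) : ℤ) (r (o + k) - r (o + (k - 1))) (r (o + (k + 1)) - r (o + k)) (colG6 μ s G (cs (i₀ + k))) η ≤ l := by
  rw [← hs.tN] at hN
  refine h.nodes6 (col := colG6 μ s G) (X := XC6 μ s G T) (F' := FsC6 μ s G T) (E := E) (E3 := E3) hr htr hT.F hT.q0 hT.th ho
    (fun a b e => ?_) hk1 hk2 hsw h1 h2 hl hN
  rw [hs.tN]
  exact le_rfl

/-- **THE STEEP LEVELS OF A PIECE.** -/
theorem stlC6 [IsProbabilityMeasure μ] (hT : Tg6 μ s c G T A a g A' a' g')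
    (ho : Ok6 Sw (dLC6 μ s c G T E D) (dNC6 μ s c G T E3 D) lb6 lbN6 Z u η) (h : Pc6 Gg ρ cs i₀ f m Z.length)
    (hr : Rf6 Gg cs i₀ f m o r Tn) (hpr : ∀ i, i + 1 < Z.length → ∃ P Q, Z = P ++ cs i :: cs (i + 1) :: Q)
    {Tt : ℕ → ℕ} (hTt : ∀ k < m, Tt (o + k) = HsC6 G (f + (k + 1)))
    -- the numbers
    (hB₂ : 0 ≤ T.B₂) (hn : ∀ k < m, T.n₁s ≤ HsC6 G (f + (k + 1))) (hw1 : ∀ k ≤ m, 1 ≤ wd μ s (HsC6 G (f + k)))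
    (hθ : ∀ k < m, T.θs * HsC6 G (f + (k + 1)) ≤ ((r (o + (k + 1)) - r (o + k) : ℕ) : ℝ))
    (hle : ∀ k < m, r (o + (k + 1)) - r (o + k) ≤ HsC6 G (f + (k + 1)))
    (hL0 : ∀ k < m, wd μ s (HsC6 G (f + (k + 1))) ≤ T.Lm * WgC6 μ s G (f + k))
    (hL1 : ∀ k < m, wd μ s (HsC6 G (f + (k + 1))) ≤ T.Lm * WgC6 μ s G (f + (k + 1)))
    -- the line
    {κ : Pt} {x R Th : ℝ} (hκ : (κ.2 : ℝ) - sl μ s * (κ.1 : ℝ) = x) (hR : 1 ≤ R) (he : 0 ≤ T.es) (he1 : T.es ≤ 1)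
    (hRe : R ^ T.es ≤ Th) {l : ℕ → ℕ} (hl : ∀ k < m, u ≤ f + (k + 1) + l k ∧ f + (k + 1) ≤ u + l k ∧ l k < D)
    (hlat : ∀ k < m, |G.latC (cs (i₀ + k)) - x| ≤ R ^ l k * wd μ s (HsC6 G (f + (k + 1))))
    {q : ℕ → ℝ} (hqq : ∀ k < m, 3 * (T.q₀ * T.Th ^ l k) * Th ^ l k ≤ q (o + k)) :
    ∃ β : ℕ → ℝ, ∀ a', o ≤ a' → (a' = o → 1 ≤ o → (WgC6 μ s G f : ℝ) ≤ wd μ s (Tt (o - 1))) →
      StL89 μ s T.B₁ T.B₂ T.δ η κ r Tt q (fun v => WgC6 μ s G (f + (v - o))) β a' (o + m) := by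
  refine h.stl6 (F := FC6 μ s c G T) (E := E) (E3 := E3) (X := XC6 μ s G T) (Hs := HsC6 G) (Wg := WgC6 μ s G) (latC := G.latC)
    hr hpr hT.F hT.F' hT.q0 hT.th ho hTt hB₂ hn (fun k hk => ?_) hθ hle (fun k hk => ?_) (fun k hk => ?_) hL0 hL1 hκ hR he he1 hRe hl
    hlat hqq
  · linarith [hw1 (k + 1) hk]
  · unfold WgC6
    exact Int.floor_pos.2 (hw1 k hk)
  · unfold WgC6
    exact Int.floor_le _

end Ok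

end

end Pool.Agent.W_7d29a1_C1.Dep6
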