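import Pool.Agent.W_7d29a1_C1.CloW97

/-!
Both halves (MP_7d29a1_pr), attractor route [C1]: CLOSENESS AT A LEAF, IN THE LETTERS OF `Cp8`. (helper97)

`cloN97` : the two conclusions of `closeC54` (helper54), in the rows and columns of the plane, give the two inequalities of the field
`close` for a leaf `c` in the middle rows, any column, with `vW97`, `PW97`. `cloNum97` : the exponent.
-/

set_option autoImplicit false
set_option linter.unusedSectionVars false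

namespace Pool.Agent.W_7d29a1_C1.W97

open Finset MeasureTheory
open Pool.Agent.W_7d29a1_F
open Pool.Agent.W_7d29a1_C1.K91 (shw wt wt_pos)
open Pool.Agent.W_7d29a1_C1.H60
open Pool.Agent.W_7d29a1_C1.H60.Cx (l uc mem_rows)
open Pool.Agent.W_7d29a1_C1.H1c
open Pool.Agent.W_7d29a1_C1.Ch87
open Pool.Agent.W_7d29a1_C1.T10 (Gd pt)
open Pool.Agent.W_7d29a1_C1.H54

noncomputable section

variable {Γ : Cx} {η : Env} {c0 n1 D' D : ℕ} {a1 a2 α1 α2 ρ : ℤ} {G : Gd} {L j : ℕ} {c : ℕ × ℤ} {s t th : ℝ}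

/-- **CLOSENESS AT A LEAF** from closeness at all contacts of the middle rows. -/
theorem cloN97 (hG : G.Ok L) (hj : j ≤ L) (t0 : 0 ≤ t)
    (k : (∀ K, n1 ≤ K → K < D' → ∀ x ∈ Icc (1 : ℤ) (1 + Γ.N),
        |Γ.w (c0 + K, x) η - Win (shw (wt η) c0) (fun _ => Real.exp s) K (D - (K + 1)) a1 a2 x| ≤ t + th * Γ.w (c0 + K, x) η) ∧
      |PhS Γ (chiC Γ) η - FPhC (shw (wt η) c0) (fun _ => Real.exp s) n1 D' D a1 a2| ≤ t + th)
    (g1 : 0 ≤ a1) (g2 : a1 ≤ a2) (g3 : a2 ≤ c0) (hD : D' ≤ D) (hN : c0 + D ≤ Γ.N)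
    (h1 : 1 ≤ c0) (hρ : (c0 : ℤ) = (G.x j c).1 + ρ) (e1 : a1 = (G.x j c).2 + α1) (e2 : a2 = (G.x j c).2 + α2)
    (hc1 : c0 + n1 ≤ c.1) (hc2 : c.1 < c0 + D') :
    |Γ.w c η - vW97 ρ (fun _ => Real.exp s) n1 D' D α1 α2 (G.rel j c) (sh (G.x j c) η)| ≤ t + th * Γ.w c η ∧
    |PhS Γ (chiC Γ) η - PW97 ρ (fun _ => Real.exp s) n1 D' D α1 α2 (sh (G.x j c) η)| ≤ t + th := by
  obtain ⟨k1, k2⟩ := k
  obtain ⟨K, hK⟩ : ∃ K, c.1 = c0 + K := ⟨c.1 - c0, by omega⟩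
  have hzr := hG.z_add_rel hj c
  have hr1 : ((G.rel j c).1 : ℤ) = ρ + K := by
    have : (G.z j c).1 + (G.rel j c).1 = c.1 := congrArg Prod.fst hzr
    have hx1 : (G.x j c).1 = ((G.z j c).1 : ℤ) := rfl
    rw [hx1] at hρ
    omega
  have hr2 : c.2 = (G.x j c).2 + (G.rel j c).2 := (congrArg Prod.snd hzr).symm
  have ec : c = (c0 + K, c.2) := Prod.ext hK rfl
  constructor
  · rw [Win_vW97 h1 hρ (fun _ => Real.exp s) D e1 e2 (n1 := n1) (D' := D') (by omega) (by omega) hr1 hr2]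
    by_cases hx : c.2 ∈ Icc (1 : ℤ) (1 + Γ.N)
    · have := k1 K (by omega) (by omega) c.2 hx
      rwa [← ec] at this
    · have hx' : c.2 ≤ 0 ∨ (c.1 : ℤ) + 1 < c.2 := by
        rw [mem_Icc] at hx
        omega
      rw [T98.w_zero98 Γ hx', Win_out g2 (by omega)]
      simp only [sub_zero, abs_zero, mul_zero, add_zero]
      exact t0
  · rw [FPhC_PW97 h1 hρ (fun _ => Real.exp s) n1 D' D e1 e2]
    exact k2

/-- **The exponent**: `n ^ (-1/100)` against `n ^ (-s')`, and the size `Sg` of the total functional. -/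
theorem cloNum97 {n : ℕ} (hn : 1 ≤ n) {s' w v Ps P Sg : ℝ} (hs : s' ≤ 1 / 100) (hw : 0 ≤ w) (hS : 0 ≤ Sg)
    (k : |w - v| ≤ (n : ℝ) ^ (-(40 : ℝ)) + (n : ℝ) ^ (-(1 / 100 : ℝ)) * w ∧
      |Ps - P| ≤ (n : ℝ) ^ (-(40 : ℝ)) + (n : ℝ) ^ (-(1 / 100 : ℝ))) :
    |w - v| ≤ (n : ℝ) ^ (-(40 : ℝ)) + (n : ℝ) ^ (-s') * w ∧ |Ps - P| ≤ (n : ℝ) ^ (-(40 : ℝ)) + (n : ℝ) ^ (-s') * (1 + Sg) := by
  have n1 : (1 : ℝ) ≤ n := by exact_mod_cast hn
  have h : (n : ℝ) ^ (-(1 / 100 : ℝ)) ≤ (n : ℝ) ^ (-s') := Real.rpow_le_rpow_of_exponent_le n1 (by linarith)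
  have h0 : 0 ≤ (n : ℝ) ^ (-s') := Real.rpow_nonneg (by linarith) _
  have a1 := mul_le_mul_of_nonneg_right h hw
  have a2 : (n : ℝ) ^ (-s') ≤ (n : ℝ) ^ (-s') * (1 + Sg) := le_mul_of_one_le_right h0 (by linarith)
  exact ⟨k.1.trans (by linarith), k.2.trans (by linarith)⟩

end

end Pool.Agent.W_7d29a1_C1.W97
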