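import Pool.Agent.W_7d29a1_C1.NumB54
import Pool.Agent.W_7d29a1_C1.BadC54

/-!
Both halves (MP_7d29a1_pr), attractor route [C1]: THE NUMBERS OF THE CLOSENESS. (helper54)

`closeC54` : for `n` large, an admissible context, an environment with the local facts and a success: the natural weight of every middle
contact and the split total functional are those of the inside with the flat step weights `exp s`, up to `n ^ (-40) + n ^ (-1/100) w` and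
`n ^ (-40) + n ^ (-1/100)`.
-/

set_option autoImplicit false
set_option linter.unusedSectionVars false

namespace Pool.Agent.W_7d29a1_C1.H54

open Finset MeasureTheory Filter Topology
open Pool.Agent.W_7d29a1_F Pool.Agent.W_7d29a1_H Pool.Agent.W_7d29a1_HS
open Pool.Agent.W_7d29a1_C1.K91 (shw Box Grp wt wt_pos zs)
open Pool.Agent.W_7d29a1_C1.K91P (fw bw shp bw_pos)
open Pool.Agent.W_7d29a1_C1.L91 (Kl Kl_nonneg KC)
open Pool.Agent.W_7d29a1_C1.H60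
open Pool.Agent.W_7d29a1_C1.H60.Cx (l uc mem_rows)
open Pool.Agent.W_7d29a1_C1.H1c (Mtp Win FPhC)
open Pool.Agent.W_7d29a1_C1.Sh21
open Pool.Agent.W_7d29a1_C1.T97
open Pool.Agent.W_7d29a1_C1.K97

noncomputable section

/-! ### Numbers for large `n` -/

/-- A constant is below a power. -/
theorem ev_cst54 (A : ℝ) {c : ℝ} (hc : 0 < c) : ∀ᶠ n : ℕ in atTop, A ≤ (n : ℝ) ^ c :=
  ((tendsto_rpow_atTop hc).comp tendsto_natCast_atTop_atTop).eventually_ge_atTop _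

/-- A constant times a power is below a larger power. -/
theorem ev_le54 (A : ℝ) {b c : ℝ} (h : b < c) : ∀ᶠ n : ℕ in atTop, A * (n : ℝ) ^ b ≤ (n : ℝ) ^ c := by
  filter_upwards [ev_cst54 A (c := c - b) (by linarith), eventually_ge_atTop 1] with n h1 h2
  have n0 : (0 : ℝ) < n := by exact_mod_cast h2
  calc A * (n : ℝ) ^ b ≤ (n : ℝ) ^ (c - b) * (n : ℝ) ^ b := mul_le_mul_of_nonneg_right h1 (Real.rpow_nonneg n0.le _)
    _ = (n : ℝ) ^ c := by rw [← Real.rpow_add n0]; congr 1; ring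

/-- **The large and the small number.** -/
theorem ev_bg54 {P b : ℝ} (hP : 1 ≤ P) (hb : 0 < b) :
    ∀ᶠ n : ℕ in atTop, Bg54 P ((n : ℝ) ^ b) (Real.exp ((n : ℝ) ^ b)) (Real.exp (-(n : ℝ) ^ (2 * b))) := by
  filter_upwards [ev_cst54 40 hb, ev_cst54 (Real.log (10000 * P ^ 6)) hb] with n h1 h2
  have e : (n : ℝ) ^ (2 * b) = ((n : ℝ) ^ b) ^ 2 := by
    rw [← Real.rpow_natCast, ← Real.rpow_mul (Nat.cast_nonneg _)]
    congr 1
    push_cast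
    ring
  rw [e]
  generalize (n : ℝ) ^ b = y at h1 h2
  refine ⟨hP, ?_, by linarith, ?_, Real.exp_pos _, ?_⟩
  · rw [← Real.log_le_iff_le_exp (by positivity)]
    exact h2
  · have := Real.quadratic_le_exp_of_nonneg (show 0 ≤ y by linarith)
    nlinarith
  · rw [← Real.exp_nat_mul, ← Real.exp_add, Real.exp_le_one_iff]
    push_cast
    nlinarith

/-- **The numbers of the closeness.** -/
structure Nm54 (n : ℕ) (a δ e e1 e2 U L L0 V ef Uf Lf M : ℝ) : Prop where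
  he1 : 0 ≤ e1
  he2 : 0 ≤ e2
  dl : δ ≤ Real.exp (-(n : ℝ) ^ a)
  em : ef * (Lf ^ 3 * Uf) ^ 2 ≤ Real.exp (-(n : ℝ) ^ a)
  e0 : e * (V * L * U * L) * (V * L * U * L) ≤ Real.exp (-(n : ℝ) ^ a)
  ef : ef * (Lf * Uf * Lf) * (Lf * Uf * Lf) ≤ Real.exp (-(n : ℝ) ^ a)
  e1 : e1 * (V * L * U * L) * (V * L * U * L) ≤ Real.exp (-(n : ℝ) ^ a)
  M1 : (n : ℝ) ^ a ≤ M
  M2 : M ≤ (n : ℝ) ^ 3
  M3 : Real.exp (M + 1) * (e2 * L0 ^ 4) ≤ 1
  M4 : (Lf * Uf * Lf) ^ 2 ≤ Real.exp (M / 2)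

/-- The straight steps. -/
theorem ev_beta54 {P a b dl : ℝ} (hP : 1 ≤ P) (hb : 0 < b) (hbd : b ≤ dl) (hda : 2 * dl < a) :
    ∀ᶠ n : ℕ in atTop, ∀ (X : ℝ) (m0 : ℕ), X ≤ (n : ℝ) ^ b → (m0 : ℝ) ≤ (n : ℝ) ^ dl + 1 →
      P * (Real.exp (2 * X) * (1 + P)) ^ m0 * Real.exp (-(n : ℝ) ^ a) ≤ Real.exp (-(n : ℝ) ^ (2 * b)) := by
  set A : ℝ := 2 * (2 + Real.log (1 + P)) + Real.log P + 1 with hA
  filter_upwards [ev_le54 A hda, eventually_ge_atTop 1] with n h1 h2 X m0 hX hm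
  have n1 : (1 : ℝ) ≤ n := by exact_mod_cast h2
  have n0 : (0 : ℝ) < n := by linarith
  have lP : 0 ≤ Real.log P := Real.log_nonneg hP
  have lP1 : 0 ≤ Real.log (1 + P) := Real.log_nonneg (by linarith)
  have P0 : 0 < P := by linarith
  have e : P * (Real.exp (2 * X) * (1 + P)) ^ m0 * Real.exp (-(n : ℝ) ^ a) =
      Real.exp (Real.log P + m0 * (2 * X + Real.log (1 + P)) + -(n : ℝ) ^ a) := by
    rw [Real.exp_add, Real.exp_add, Real.exp_log P0, Real.exp_nat_mul, Real.exp_add, Real.exp_log (by linarith)]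
  rw [e, Real.exp_le_exp]
  have b1 : (1 : ℝ) ≤ (n : ℝ) ^ b := Real.one_le_rpow n1 hb.le
  have d1 : (1 : ℝ) ≤ (n : ℝ) ^ dl := Real.one_le_rpow n1 (by linarith)
  have bd : (n : ℝ) ^ b ≤ (n : ℝ) ^ dl := Real.rpow_le_rpow_of_exponent_le n1 hbd
  have e2 : (n : ℝ) ^ (2 * dl) = (n : ℝ) ^ dl * (n : ℝ) ^ dl := by
    rw [← Real.rpow_add n0]
    congr 1
    ring
  have e3 : (n : ℝ) ^ (2 * b) ≤ (n : ℝ) ^ (2 * dl) := Real.rpow_le_rpow_of_exponent_le n1 (by linarith)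
  rw [e2] at h1 e3
  generalize (n : ℝ) ^ dl = D at *
  generalize (n : ℝ) ^ b = Y at *
  have D1 : 1 ≤ D * D := by nlinarith
  have k1 : 2 * X + Real.log (1 + P) ≤ (2 + Real.log (1 + P)) * D := by nlinarith
  have k2 : (m0 : ℝ) ≤ 2 * D := by linarith
  have k3 : (m0 : ℝ) * (2 * X + Real.log (1 + P)) ≤ 2 * D * ((2 + Real.log (1 + P)) * D) := by
    refine (mul_le_mul_of_nonneg_left k1 (Nat.cast_nonneg _)).trans (mul_le_mul_of_nonneg_right k2 (by positivity))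
  have k4 : Real.log P ≤ Real.log P * (D * D) := le_mul_of_one_le_right lP D1
  have k5 : A * (D * D) = 2 * D * ((2 + Real.log (1 + P)) * D) + Real.log P * (D * D) + D * D := by rw [hA]; ring
  linarith

/-- The number `M`. -/
theorem ev_M54 {a b : ℝ} (hb : 0 < b) (hba : 2 * b < a) :
    ∀ᶠ n : ℕ in atTop, ∀ M : ℝ, (n : ℝ) ^ a ≤ M → M ≤ (n : ℝ) ^ 3 → M + 1 ≤ Real.exp ((n : ℝ) ^ b) ∧
      Real.exp ((n : ℝ) ^ b) ^ 5 * Real.exp (-(M / 2)) ≤ Real.exp (-(n : ℝ) ^ (2 * b)) ∧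
      Real.exp 1 * Real.exp ((n : ℝ) ^ b) ^ 5 ≤ Real.exp (M / 2) := by
  filter_upwards [ev_le54 14 hba, eventually_ge_atTop 1, ev_pow54 2 3 one_pos hb] with n h1 h2 h3 M k1 k2
  have n1 : (1 : ℝ) ≤ n := by exact_mod_cast h2
  have n0 : (0 : ℝ) < n := by linarith
  rw [one_mul] at h3
  have c1 : (1 : ℝ) ≤ (n : ℝ) ^ 3 := one_le_pow₀ n1
  have b1 : (1 : ℝ) ≤ (n : ℝ) ^ b := Real.one_le_rpow n1 hb.le
  have e2 : (n : ℝ) ^ b ≤ (n : ℝ) ^ (2 * b) := Real.rpow_le_rpow_of_exponent_le n1 (by linarith)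
  refine ⟨by linarith, ?_, ?_⟩
  · rw [← Real.exp_nat_mul, ← Real.exp_add, Real.exp_le_exp]
    push_cast
    linarith
  · rw [← Real.exp_nat_mul, ← Real.exp_add, Real.exp_le_exp]
    push_cast
    linarith

/-- **The tilt.** -/
theorem ev_tilt54 {e C : ℝ} (he : e ≤ 1 / 32) :
    ∀ᶠ n : ℕ in atTop, ∀ (D : ℕ) (h B : ℝ), (D : ℝ) ≤ 2 * (n : ℝ) ^ e → |h| ≤ (n : ℝ) ^ (-(1 / 9 : ℝ)) → 0 ≤ B →
      B ≤ C * (n : ℝ) ^ (1 / 2000 : ℝ) → (Real.exp |h| ^ D) ^ 16 ≤ 3 / 2 ∧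
      (Real.exp |h| ^ D) ^ 16 - 1 ≤ (n : ℝ) ^ (-(1 / 100 : ℝ)) ∧
      4 * (D : ℝ) ^ 2 * (B * ((Real.exp |h| ^ D) ^ 16 - 1)) ≤ (n : ℝ) ^ (-(1 / 100 : ℝ)) := by
  filter_upwards [ev_le54 128 (b := 1 / 32 - 1 / 9) (c := -(1 / 100)) (by norm_num), ev_cst54 2 (c := 1 / 100) (by norm_num),
    ev_le54 (1024 * C) (b := 3 / 32 + 1 / 2000 - 1 / 9) (c := -(1 / 100)) (by norm_num), eventually_ge_atTop 1] with n h1 h1' h2 h3
  intro D h B hD hh hB0 hB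
  have n1 : (1 : ℝ) ≤ n := by exact_mod_cast h3
  have n0 : (0 : ℝ) < n := by linarith
  have D0 : (0 : ℝ) ≤ D := Nat.cast_nonneg _
  have p100 : (n : ℝ) ^ (-(1 / 100 : ℝ)) ≤ 1 / 2 := by
    rw [Real.rpow_neg n0.le, inv_eq_one_div]
    exact one_div_le_one_div_of_le (by norm_num) h1'
  have hD' : (D : ℝ) ≤ 2 * (n : ℝ) ^ (1 / 32 : ℝ) :=
    hD.trans (mul_le_mul_of_nonneg_left (Real.rpow_le_rpow_of_exponent_le n1 he) (by norm_num))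
  have e1 : (Real.exp |h| ^ D) ^ 16 = Real.exp (16 * (D * |h|)) := by
    rw [← Real.exp_nat_mul, ← Real.exp_nat_mul]
    norm_num
  have v1 : 16 * (D * |h|) ≤ 32 * (n : ℝ) ^ (1 / 32 - 1 / 9 : ℝ) := by
    have : (D : ℝ) * |h| ≤ 2 * (n : ℝ) ^ (1 / 32 : ℝ) * (n : ℝ) ^ (-(1 / 9 : ℝ)) :=
      mul_le_mul hD' hh (abs_nonneg _) (by positivity)
    rw [mul_assoc, ← Real.rpow_add n0] at this
    have e2 : (1 / 32 : ℝ) + -(1 / 9) = 1 / 32 - 1 / 9 := by ring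
    rw [e2] at this
    linarith
  have v0 : 0 ≤ 16 * (D * |h|) := by positivity
  have v2 : 16 * (D * |h|) ≤ 1 := by linarith
  have x1 : (Real.exp |h| ^ D) ^ 16 - 1 ≤ 64 * (n : ℝ) ^ (1 / 32 - 1 / 9 : ℝ) := by
    rw [e1]
    have := Real.abs_exp_sub_one_le (x := 16 * (D * |h|)) (by rw [abs_of_nonneg v0]; exact v2)
    rw [abs_of_nonneg v0] at this
    have := (le_abs_self _).trans this
    linarith
  have x0 : 0 ≤ (Real.exp |h| ^ D) ^ 16 - 1 := by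
    rw [e1]
    have := Real.one_le_exp v0
    linarith
  have r0 : 0 ≤ (n : ℝ) ^ (1 / 32 - 1 / 9 : ℝ) := Real.rpow_nonneg n0.le _
  refine ⟨by linarith, by linarith, ?_⟩
  have c1 : (D : ℝ) ^ 2 ≤ 4 * ((n : ℝ) ^ (1 / 32 : ℝ)) ^ 2 := by
    calc (D : ℝ) ^ 2 ≤ (2 * (n : ℝ) ^ (1 / 32 : ℝ)) ^ 2 := pow_le_pow_left₀ D0 hD' 2
      _ = _ := by ring
  have c2 : ((n : ℝ) ^ (1 / 32 : ℝ)) ^ 2 * (n : ℝ) ^ (1 / 2000 : ℝ) * (n : ℝ) ^ (1 / 32 - 1 / 9 : ℝ) =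
      (n : ℝ) ^ (3 / 32 + 1 / 2000 - 1 / 9 : ℝ) := by
    rw [← Real.rpow_natCast, ← Real.rpow_mul n0.le, ← Real.rpow_add n0, ← Real.rpow_add n0]
    congr 1
    push_cast
    ring
  calc 4 * (D : ℝ) ^ 2 * (B * ((Real.exp |h| ^ D) ^ 16 - 1))
      ≤ 4 * (4 * ((n : ℝ) ^ (1 / 32 : ℝ)) ^ 2) * (C * (n : ℝ) ^ (1 / 2000 : ℝ) * (64 * (n : ℝ) ^ (1 / 32 - 1 / 9 : ℝ))) :=
        mul_le_mul (mul_le_mul_of_nonneg_left c1 (by norm_num)) (mul_le_mul hB x1 x0 (hB0.trans hB)) (mul_nonneg hB0 x0)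
          (by positivity)
    _ = 1024 * C * (((n : ℝ) ^ (1 / 32 : ℝ)) ^ 2 * (n : ℝ) ^ (1 / 2000 : ℝ) * (n : ℝ) ^ (1 / 32 - 1 / 9 : ℝ)) := by ring
    _ = 1024 * C * (n : ℝ) ^ (3 / 32 + 1 / 2000 - 1 / 9 : ℝ) := by rw [c2]
    _ ≤ _ := h2

/-- The local constants of the change of the step weights. -/
theorem hB54 {P p X u : ℝ} (hP1 : 1 ≤ P) (hp : 0 < p) (hP : p ≤ P) (hP' : 1 ≤ P * p) (X0 : 0 ≤ X) (u0 : 0 ≤ u) :
    (Kt p (Real.exp u) (2 * Real.exp X) + Kl p (Real.exp u) (2 * Real.exp X)) * p ≤ 17 * Real.exp (2 * u) + 916 * P ^ 3 * (2 + X) := by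
  obtain ⟨-, m2, m3⟩ := min_inv54 hp hP1 hP'
  have P0 : 0 ≤ P := by linarith
  have lk : Real.log (2 * Real.exp X) ≤ 1 + X := by
    rw [Real.log_mul (by norm_num) (Real.exp_pos _).ne', Real.log_exp]
    have := Real.log_two_lt_d9
    linarith
  have lk0 : 0 ≤ Real.log (2 * Real.exp X) := Real.log_nonneg (by have := Real.one_le_exp X0; linarith)
  have e2 : Real.exp u ^ 2 = Real.exp (2 * u) := by
    rw [← Real.exp_nat_mul]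
    norm_num
  have e1 : Real.exp u ≤ Real.exp (2 * u) := Real.exp_le_exp.2 (by linarith)
  have u1 : 1 + 2 * u ≤ 2 * Real.exp u := by
    have := Real.add_one_le_exp u
    linarith
  have i1 : (1 : ℝ) ≤ P := hP1
  have k1 : Kt p (Real.exp u) (2 * Real.exp X) * p ≤ 9 * Real.exp (2 * u) + 912 * P ^ 3 * (2 + X) := by
    unfold Kt
    rw [add_mul, e2]
    have a1 : 9 * Real.exp (2 * u) / p * p = 9 * Real.exp (2 * u) := by field_simp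
    rw [a1]
    have a2 : (1 + 1 / p) ^ 2 ≤ (2 * P) ^ 2 := pow_le_pow_left₀ (by positivity) (by linarith) 2
    have a3 : 228 * (1 + 1 / p) ^ 2 * (1 + Real.log (2 * Real.exp X)) * p ≤ 228 * (2 * P) ^ 2 * (2 + X) * P :=
      mul_le_mul (mul_le_mul (mul_le_mul_of_nonneg_left a2 (by norm_num)) (by linarith) (by positivity) (by positivity)) hP hp.le
        (by positivity)
    have a4 : 228 * (2 * P) ^ 2 * (2 + X) * P = 912 * P ^ 3 * (2 + X) := by ring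
    linarith
  have k2 : Kl p (Real.exp u) (2 * Real.exp X) * p ≤ 8 * Real.exp (2 * u) + 4 * P ^ 3 * (2 + X) := by
    unfold Kl
    rw [add_mul, Real.log_exp]
    have a1 : 4 * (1 + 2 * u) * (Real.exp u / p) * p = 4 * (1 + 2 * u) * Real.exp u := by field_simp
    rw [a1]
    have a2 : 4 * (1 + 2 * u) * Real.exp u ≤ 8 * Real.exp (2 * u) := by
      have := mul_le_mul_of_nonneg_right u1 (Real.exp_pos u).le
      have e3 : Real.exp u * Real.exp u = Real.exp (2 * u) := by rw [← Real.exp_add]; congr 1; ring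
      nlinarith
    have a3 : (max 1 (1 / p)) ^ 2 ≤ P ^ 2 := pow_le_pow_left₀ (le_trans zero_le_one (le_max_left _ _)) m3 2
    have a4 : 4 * (1 + Real.log (2 * Real.exp X)) * (max 1 (1 / p)) ^ 2 * p ≤ 4 * (2 + X) * P ^ 2 * P :=
      mul_le_mul (mul_le_mul (by linarith) a3 (by positivity) (by positivity)) hP hp.le (by positivity)
    have a5 : 4 * (2 + X) * P ^ 2 * P = 4 * P ^ 3 * (2 + X) := by ring
    linarith
  rw [add_mul]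
  linarith

/-- The step weights of a context with a small tilt. -/
theorem step54 {Γ : Cx} (hh : |Γ.h| ≤ 1) (i : ℕ) : Γ.p i ≤ Real.exp (|Γ.s| + 1) ∧ 1 ≤ Real.exp (|Γ.s| + 1) * Γ.p i ∧
    mc (Real.exp |Γ.h|) (Γ.p i) (Real.exp Γ.s) := by
  have a1 := abs_le.1 (le_refl |Γ.s|)
  have a2 := abs_le.1 (le_refl |Γ.h|)
  have h0 := abs_nonneg Γ.h
  unfold Cx.p mc
  split_ifs
  · refine ⟨Real.exp_le_exp.2 (by linarith [a1.2, a2.2]), ?_, ?_, ?_⟩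
    · rw [← Real.exp_add]
      exact Real.one_le_exp (by linarith [a1.1, a2.1])
    · rw [← Real.exp_add]
      exact Real.exp_le_exp.2 (by linarith [a2.2])
    · rw [← Real.exp_add]
      exact Real.exp_le_exp.2 (by linarith [a2.1])
  · refine ⟨Real.exp_le_exp.2 (by linarith [a1.2]), ?_, ?_, ?_⟩
    · rw [← Real.exp_add]
      exact Real.one_le_exp (by linarith [a1.1])
    · rw [← Real.exp_add]
      exact Real.exp_le_exp.2 (by linarith)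
    · rw [← Real.exp_add]
      exact Real.exp_le_exp.2 (by linarith)

/-! ### The theorem -/

/-- **CLOSENESS FOR LARGE `n`.** `X`, `t`, `m0` = the numbers of the local facts (`bad54`), `Nm54` = the numbers of the success. -/
theorem closeC54 {μ : Measure ℝ} {s : ℝ} [IsProbabilityMeasure μ] {c₀ C₀ : ℝ} {n₀ : ℕ} (hI : In μ s c₀ C₀ n₀)
    (hE9 : ∀ᶠ n : ℕ in atTop, (n : ℝ) ^ (1 / 9 : ℝ) ≤ EE μ s n) {a b dl ε₀ e₀ c δ₁ κ : ℝ} (hb : 0 < b) (hbd : b ≤ dl) (hda : 2 * dl < a)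
    (hb2 : b ≤ 1 / 2000) (hε0 : 0 < ε₀) (hε1 : ε₀ ≤ 1 / 4000) (he0 : e₀ ≤ 1 / 32) (hc : c ≤ 1) (hδ0 : 0 ≤ δ₁) (hδ1 : δ₁ ≤ 1) :
    ∀ᶠ n : ℕ in atTop, ∀ Γ : Cx, Adm μ s c δ₁ κ n Γ → ∀ (X t : ℝ) (m0 : ℕ), X ≤ (n : ℝ) ^ b → t ≤ Real.exp (-(n : ℝ) ^ (2 * b)) →
      (m0 : ℝ) ≤ (n : ℝ) ^ dl + 1 → ∀ η : Env, Lc54 (wt η) Γ.p Γ.N Γ.hi X t m0 → (∀ d ∈ Γ.rows 0 Γ.N, uc d η ≤ ε₀ * Real.log n) →
      ∀ (c0 n1 ne nb n3 m D' kg ng kr : ℕ) (a1 b1 a2 b2 xa xb sx da db ya yb za zb va vb xm xn : ℤ) (d0 : Finset ℤ)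
        (ph p1 pe p2 p3 ph' p1' pe' p2' p3' pg pm : ℤ → ℝ) (δ e e1 e2 U L L0 V A0 A1 A2 A3 G0 M Ag Am Ar ef Uf Lf : ℝ),
      All (wt η) Γ.p 0 (Γ.k + c0) c0 n1 ne nb n3 a1 b1 a2 b2 xa xb sx da db ya yb za zb ph p1 pe p2 p3 δ e U L L0 A0 A1 A2 A3 →
      Sh21.Fut (wt η) Γ.p 0 (Γ.k + c0 + n1 + ne + nb + n3) (c0 + n1 + ne + nb + n3) m za zb p3 V G0 →
      All (wt η) Γ.p 0 (Γ.k + c0) c0 n1 ne nb n3 a1 b1 a2 b2 xa xb sx da db ya yb za zb ph' p1' pe' p2' p3' δ ef Uf Lf L0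
        A0 A1 A2 A3 →
      (∀ z ∈ Icc (0 : ℤ) (Γ.k + c0 + n1 + ne + nb + n3), 1 ≤ p3' z) →
      SeamIn 0 (Γ.k + c0) (fw (wt η) Γ.p l c0) (fw (wt η) Γ.p Γ.r c0) a1 b1 a2 b2 ph e1 e2 →
      Mid (wt η) Γ.p 0 (Γ.k + c0) c0 kg ng kr a1 a2 va vb xm xn da db d0 pg pm pe' δ ef Lf A0 A1 Ag Am Ar →
      SepC (wt η) Γ.p 0 (Γ.k + c0) c0 n1 a1 a2 sx p1' ef A0 →
      Nm54 n a δ e e1 e2 U L L0 V ef Uf Lf M → c0 + (n1 + ne + nb + n3) + m = Γ.N → a2 ≤ c0 → kg + ng + kr = n1 + ne → kg + ng ≤ D' → n1 ≤ D' →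
      D' + m0 ≤ n1 + ne + nb → ((n1 + ne + nb + n3 : ℕ) : ℝ) ≤ 2 * (n : ℝ) ^ e₀ →
      (∀ K, n1 ≤ K → K < D' → ∀ x ∈ Icc (1 : ℤ) (1 + Γ.N),
        |Γ.w (c0 + K, x) η - Win (shw (wt η) c0) (fun _ => Real.exp s) K (n1 + ne + nb + n3 - (K + 1)) a1 a2 x| ≤
          (n : ℝ) ^ (-(40 : ℝ)) + (n : ℝ) ^ (-(1 / 100 : ℝ)) * Γ.w (c0 + K, x) η) ∧
      |PhS Γ (Ch87.chiC Γ) η - FPhC (shw (wt η) c0) (fun _ => Real.exp s) n1 D' (n1 + ne + nb + n3) a1 a2| ≤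
        (n : ℝ) ^ (-(40 : ℝ)) + (n : ℝ) ^ (-(1 / 100 : ℝ)) := by
  obtain ⟨P, hPd⟩ : ∃ P, P = Real.exp (|s| + 1) := ⟨_, rfl⟩
  have P1 : 1 ≤ P := by
    rw [hPd]
    exact Real.one_le_exp (by have := abs_nonneg s; linarith)
  have hba : 2 * b < a := by linarith
  filter_upwards [ev_bg54 P1 hb, ev_beta54 P1 hb hbd hda, ev_M54 hb hba, ev_tilt54 (C := 17 + 2748 * P ^ 3) he0, hE9, eventually_ge_atTop 1,
    adm_hi54 (κ := κ) hI hc hδ1, ev_pow54 5 6 one_pos hb, ev_pow54 1 41 one_pos hb, ev_le54 1 hba, ev_pow54 2 1 one_pos hb]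
    with n B hβ hM hT hE hn1 hadm hN6 h41 hz hu3
  intro Γ hA X t m0 hX ht hm0 η C hu c0 n1 ne nb n3 m D' kg ng kr a1 b1 a2 b2 xa xb sx da db ya yb za zb va vb xm xn d0
    ph p1 pe p2 p3 ph' p1' pe' p2' p3' pg pm δ e e1 e2 U L L0 V A0 A1 A2 A3 G0 M Ag Am Ar ef Uf Lf S F S' hp3 I Md Sp Nm hN ha2 hk d2 hn hD hDn
  rw [one_mul] at hN6 h41 hz hu3
  rw [one_mul] at h41
  rw [pow_one] at hu3
  have n1' : (1 : ℝ) ≤ n := by exact_mod_cast hn1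
  have n0 : (0 : ℝ) < n := by linarith
  -- the context
  have ok : Γ.Ok := ⟨hA.k1, hA.q0, hA.q1⟩
  obtain ⟨Nb, g1, g2, g3, g4, g5, g6⟩ := hadm Γ hA
  have hNR : (Γ.N : ℝ) + 1 ≤ Real.exp ((n : ℝ) ^ b) := by
    have a1 : (Γ.N : ℝ) ≤ 4 * (Nb : ℝ) ^ 3 := by exact_mod_cast g4
    have a2 : (Nb : ℝ) ≤ (n : ℝ) ^ 2 := by
      rw [← Real.rpow_natCast]
      exact_mod_cast g2
    have a3 : (Nb : ℝ) ^ 3 ≤ (n : ℝ) ^ 6 := by
      calc (Nb : ℝ) ^ 3 ≤ ((n : ℝ) ^ 2) ^ 3 := pow_le_pow_left₀ (Nat.cast_nonneg _) a2 3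
        _ = (n : ℝ) ^ 6 := by ring
    have a4 : (1 : ℝ) ≤ (n : ℝ) ^ 6 := one_le_pow₀ n1'
    linarith
  have hh : |Γ.h| ≤ (n : ℝ) ^ (-(1 / 9 : ℝ)) := by
    obtain ⟨N, L', -, -, -, -, -, -, k1, -⟩ := hA.hor
    have E0 : 0 < EE μ s n := lt_of_lt_of_le (Real.rpow_pos_of_pos n0 _) hE
    have k2 : (n : ℝ) ^ (-(2 * δ₁)) ≤ 1 := by
      rw [Real.rpow_neg n0.le]
      exact inv_le_one_of_one_le₀ (Real.one_le_rpow n1' (by linarith))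
    have k3 : |Γ.h| * (n : ℝ) ^ (1 / 9 : ℝ) ≤ 1 := (mul_le_mul_of_nonneg_left hE (abs_nonneg _)).trans (k1.trans k2)
    rw [Real.rpow_neg n0.le, inv_eq_one_div, le_div_iff₀ (Real.rpow_pos_of_pos n0 _)]
    exact k3
  have hh1 : |Γ.h| ≤ 1 := by
    refine hh.trans ?_
    rw [Real.rpow_neg n0.le]
    exact inv_le_one_of_one_le₀ (Real.one_le_rpow n1' (by norm_num))
  have hst := step54 (Γ := Γ) hh1
  rw [hA.hs, ← hPd] at hst
  -- the numbers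
  have hexp : Real.exp (-(n : ℝ) ^ a) ≤ Real.exp (-(n : ℝ) ^ (2 * b)) := Real.exp_le_exp.2 (neg_le_neg hz)
  obtain ⟨m1, m2, m3⟩ := hM M Nm.M1 Nm.M2
  have M0 : 0 ≤ M := (Real.rpow_nonneg n0.le _).trans Nm.M1
  have lg0 : 0 ≤ Real.log n := Real.log_nonneg n1'
  have u0 : 0 ≤ ε₀ * Real.log n := mul_nonneg hε0.le lg0
  have ln1 : Real.log n ≤ n := by
    have := Real.log_le_sub_one_of_pos n0
    linarith
  have u1 : ε₀ * Real.log n ≤ 1 / 4000 * n := mul_le_mul hε1 ln1 lg0 (by norm_num)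
  have uT : 1 + 2 * (ε₀ * Real.log n) ≤ Real.exp ((n : ℝ) ^ b) := by linarith
  have eu : Real.exp (ε₀ * Real.log n) = (n : ℝ) ^ ε₀ := by
    rw [Real.rpow_def_of_pos n0]
    congr 1
    ring
  have hu2 : Real.exp (ε₀ * Real.log n) ≤ Real.exp ((n : ℝ) ^ b) ^ 2 := by
    have b1 : Real.exp (ε₀ * Real.log n) ≤ Real.exp ((n : ℝ) ^ b) := by
      rw [eu]
      calc (n : ℝ) ^ ε₀ ≤ (n : ℝ) ^ (1 : ℝ) := Real.rpow_le_rpow_of_exponent_le n1' (by linarith)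
        _ = n := Real.rpow_one _
        _ ≤ _ := by linarith
    have b2 : (1 : ℝ) ≤ Real.exp ((n : ℝ) ^ b) := Real.one_le_exp (Real.rpow_nonneg n0.le _)
    nlinarith
  have X0 := C.X0
  obtain ⟨B', hB'⟩ : ∃ B' : ℝ, B' = 17 * Real.exp (2 * (ε₀ * Real.log n)) + 916 * P ^ 3 * (2 + X) := ⟨_, rfl⟩
  have hB0 : 0 ≤ B' := by
    rw [hB']
    positivity
  have hBn : B' ≤ (17 + 2748 * P ^ 3) * (n : ℝ) ^ (1 / 2000 : ℝ) := by
    have a1 : Real.exp (2 * (ε₀ * Real.log n)) ≤ (n : ℝ) ^ (1 / 2000 : ℝ) := by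
      rw [Real.rpow_def_of_pos n0, Real.exp_le_exp]
      have := mul_le_mul_of_nonneg_right hε1 lg0
      linarith
    have a2 : X ≤ (n : ℝ) ^ (1 / 2000 : ℝ) := hX.trans (Real.rpow_le_rpow_of_exponent_le n1' hb2)
    have a3 : (1 : ℝ) ≤ (n : ℝ) ^ (1 / 2000 : ℝ) := Real.one_le_rpow n1' (by norm_num)
    have a4 : 916 * P ^ 3 * (2 + X) ≤ 916 * P ^ 3 * (3 * (n : ℝ) ^ (1 / 2000 : ℝ)) :=
      mul_le_mul_of_nonneg_left (by linarith) (by positivity)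
    rw [hB']
    linarith
  obtain ⟨t1, t2, t3⟩ := hT (n1 + ne + nb + n3) Γ.h B' hDn hh hB0 hBn
  obtain ⟨r1, r2⟩ := closeN54 (P := P) (ε := Real.exp (-(n : ℝ) ^ a)) (M := M) (X := X) (t := t) (m0 := m0) (u := ε₀ * Real.log n)
    (θ := Real.exp |Γ.h|) (P' := fun _ => Real.exp s) (B' := B') ok B S F S' hp3 I Nm.he1 Nm.he2 Md Sp hk d2 Nm.em hN ha2 C hn hD
    (fun i => (hst i).1) (fun i => (hst i).2.1) hX le_rfl ht (Nm.dl.trans hexp) hexp Nm.e0 Nm.ef Nm.e1 (hβ X m0 hX hm0) M0 Nm.M3 m1 Nm.M4 m2 m3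
    hu u0 uT hu2 hNR (fun _ => Real.exp_pos _) (Real.one_le_exp (abs_nonneg _)) (fun i _ => (hst (c0 + i)).2.2) t1 hB0
    (fun K _ _ => by rw [hB']; exact hB54 P1 (L91.p_pos _) (hst _).1 (hst _).2.1 X0 u0)
  have small : Real.exp ((n : ℝ) ^ b) ^ 30 * Real.exp (-(n : ℝ) ^ (2 * b)) ≤ (n : ℝ) ^ (-(40 : ℝ)) := by
    refine (B.small (j := 30) (by norm_num)).trans ?_
    rw [Real.rpow_neg n0.le, inv_eq_one_div]
    refine one_div_le_one_div_of_le (Real.rpow_pos_of_pos n0 _) ?_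
    calc (n : ℝ) ^ (40 : ℝ) ≤ (n : ℝ) ^ (41 : ℝ) := Real.rpow_le_rpow_of_exponent_le n1' (by norm_num)
      _ = (n : ℝ) ^ 41 := by rw [← Real.rpow_natCast]; norm_num
      _ ≤ _ := h41
  refine ⟨fun K h1 h2 x hx => (r1 K h1 h2 x hx).trans (add_le_add small (mul_le_mul_of_nonneg_right t2 (Cx.w_nonneg ok _ _))),
    r2.trans (add_le_add small t3)⟩

end

end Pool.Agent.W_7d29a1_C1.H54
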