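import Pool.Agent.W_7d29a1_C1.Lit9
import Pool.Agent.W_7d29a1_C1.NumC54
import Pool.Agent.W_7d29a1_C1.CloN97
import Pool.Agent.W_7d29a1_C1.SetB10
import Pool.Agent.W_7d29a1_C1.AsmC54

/-!
Both halves (MP_7d29a1_pr), attractor route [C1], SHELL: FROM THE LITERAL SUCCESS TO THE FIELDS `close`, `obO`, `bal` OF `Cc8` / `Ce8`, AND
`ov`, `oP` OF `Cm8`. (helper9)

`Lv9` : what is fixed by the level: radius `T l`, rows `n1 l`, `D' l` and `2 T l` counted from the seam row `c0 = z.1 + 1 - T l`, cells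
relative to the base column. `vI9`, `PI9`, `bOc` : the functions of the inside and of the outside. `Suc9` : the numbers (`Nm54` of
helper54) and `Lit9`. `cb9` : off the bad environments a success gives the three inequalities.
-/

set_option autoImplicit false
set_option linter.unusedSectionVars false

namespace Pool.Agent.W_7d29a1_C1.Lt9

open MeasureTheory Filter Topology
open Pool.Agent.W_7d29a1_F Pool.Agent.W_7d29a1_H Pool.Agent.W_7d29a1_HS Pool.Agent.W_7d29a1_C1.S71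
open Pool.Agent.W_7d29a1_C1.K91 (wt wt_pos shw)
open Pool.Agent.W_7d29a1_C1.H60 Pool.Agent.W_7d29a1_C1.H54 Pool.Agent.W_7d29a1_C1.Pd9
open Pool.Agent.W_7d29a1_C1.T10 (Gd pt)
open Pool.Agent.W_7d29a1_C1.Nbr78 (Str78)
open Pool.Agent.W_7d29a1_C1.H1c (Win FPhC)

noncomputable section

/-- The data of the levels. -/
structure Lv9 where
  /-- the radius of the region in rows -/
  T : ℕ → ℕ
  /-- the first row of the contacts, from the seam row -/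
  n1 : ℕ → ℕ
  /-- the end of the rows of the contacts, from the seam row -/
  D' : ℕ → ℕ
  /-- the cells of the seam row, relative to the base column -/
  al1 : ℕ → ℤ
  be1 : ℕ → ℤ
  al2 : ℕ → ℤ
  be2 : ℕ → ℤ

/-- The seam row of the box with the base `z`. -/
def Lv9.c0 (W : Lv9) (l : ℕ) (z : ℕ × ℤ) : ℕ := z.1 + 1 - W.T l

/-! ### The functions -/

/-- **The weight of the inside.** -/
def vI9 (s : ℝ) (W : Lv9) (l : ℕ) (y : ℕ × ℤ) (ζ : Env) : ℝ :=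
  W97.vW97 (1 - (W.T l : ℤ)) (fun _ => Real.exp s) (W.n1 l) (W.D' l) (2 * W.T l) (W.al1 l) (W.al2 l) y ζ

/-- **The total functional of the inside.** -/
def PI9 (s : ℝ) (W : Lv9) (l : ℕ) (_ : ℕ × ℤ) (ζ : Env) : ℝ :=
  W97.PW97 (1 - (W.T l : ℤ)) (fun _ => Real.exp s) (W.n1 l) (W.D' l) (2 * W.T l) (W.al1 l) (W.al2 l) ζ

/-- **The balance point seen from outside.** -/
def bOc (Γ : Cx) (W : Lv9) (l : ℕ) (z : ℕ × ℤ) (η : Env) : ℝ :=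
  if W.T l ≤ z.1 then bO9 Γ (W.c0 l z) (z.2 + W.al1 l) (z.2 + W.be1 l) (z.2 + W.al2 l) (z.2 + W.be2 l) η else 0

theorem AT9 {T : ℕ → ℕ} {l : ℕ} : ∀ i < 2 * T l, ∀ y : ℤ, ((1 - (T l : ℤ) + (i : ℤ), y) : Pt) ∈ AT T l := by
  intro i hi y
  have h : AT T l = T10.At (0 : Pt) (AT T l) := by
    ext p
    show p ∈ AT T l ↔ p - 0 ∈ AT T l
    rw [sub_zero]
  rw [h, T10.At_AT]
  refine T10.mem_rows10.2 ⟨?_, ?_⟩
  · show (0 : ℤ) - T l < 1 - (T l : ℤ) + (i : ℤ)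
    omega
  · show 1 - (T l : ℤ) + (i : ℤ) ≤ (0 : ℤ) + T l
    omega

/-- **`Cm8.ov`.** -/
theorem ov9 (s : ℝ) (W : Lv9) {l : ℕ} (hD : W.D' l ≤ 2 * W.T l) (y : ℕ × ℤ) : OffF (AT W.T l)ᶜ (vI9 s W l y) :=
  W97.off_vW97 hD AT9 _ _ y

/-- **`Cm8.oP`.** -/
theorem oP9 (s : ℝ) (W : Lv9) {l : ℕ} (hD : W.D' l ≤ 2 * W.T l) (y : ℕ × ℤ) : OffF (AT W.T l)ᶜ (PI9 s W l y) :=
  W97.off_PW97 hD AT9 _ _

/-- **`Ce8.obO`.** -/
theorem obO9 (Γ : Cx) (W : Lv9) (G : Gd) (l : ℕ) (c : ℕ × ℤ) : OffF (T10.At (G.x l c) (AT W.T l)) (bOc Γ W l (G.z l c)) := by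
  intro η η' h
  unfold bOc
  split_ifs with hT
  · refine bO9_off Γ _ _ _ _ (fun q hq => ?_) η η' h
    rw [T10.At_AT] at hq
    have h1 := (T10.mem_rows10.1 hq).1
    have h2 : (G.x l c).1 = ((G.z l c).1 : ℤ) := rfl
    rw [h2] at h1
    unfold Lv9.c0
    omega
  · rfl

/-! ### The literal success -/

/-- Fewer spare rows. -/
theorem Lit9.anti {Γ : Cx} {η : Env} {c0 n1 D' D m0 m0' : ℕ} {a1 b1 a2 b2 : ℤ} {δ e e1 e2 U L L0 V ef Uf Lf : ℝ}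
    (h : Lit9 Γ η c0 n1 D' D m0 a1 b1 a2 b2 δ e e1 e2 U L L0 V ef Uf Lf) (hm : m0' ≤ m0) :
    Lit9 Γ η c0 n1 D' D m0' a1 b1 a2 b2 δ e e1 e2 U L L0 V ef Uf Lf := by
  obtain ⟨ne, nb, n3, m, kg, ng, kr, xa, xb, s, da, db, ya, yb, za, zb, va, vb, xm, xn, d0, ph, p1, pe, p2, p3, ph', p1', pe', p2', p3',
    pg, pm, A0, A1, A2, A3, G0, Ag, Am, Ar, e, K⟩ := h
  exact ⟨ne, nb, n3, m, kg, ng, kr, xa, xb, s, da, db, ya, yb, za, zb, va, vb, xm, xn, d0, ph, p1, pe, p2, p3, ph', p1', pe', p2', p3',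
    pg, pm, A0, A1, A2, A3, G0, Ag, Am, Ar, e,
    { K with hD := by have := K.hD; omega }⟩

/-- **THE LITERAL SUCCESS OF THE BOX `z` AT THE LEVEL `l`.** -/
def Suc9 (Γ : Cx) (W : Lv9) (n : ℕ) (a : ℝ) (m0 l : ℕ) (z : ℕ × ℤ) (η : Env) : Prop :=
  W.T l ≤ z.1 ∧ ∃ δ e e1 e2 U L L0 V ef Uf Lf M : ℝ, Nm54 n a δ e e1 e2 U L L0 V ef Uf Lf M ∧
    Real.log V + 2 * Real.log L + Real.log U ≤ (n : ℝ) ^ (1 / 20 : ℝ) ∧
    Lit9 Γ η (W.c0 l z) (W.n1 l) (W.D' l) (2 * W.T l) m0 (z.2 + W.al1 l) (z.2 + W.be1 l) (z.2 + W.al2 l) (z.2 + W.be2 l)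
      δ e e1 e2 U L L0 V ef Uf Lf

/-- The numbers of the balance point. -/
theorem balN9 {μ : Measure ℝ} {s : ℝ} (hE9 : ∀ᶠ n : ℕ in atTop, (n : ℝ) ^ (1 / 9 : ℝ) ≤ EE μ s n) {s' b : ℝ} (hs : s' ≤ 1 / 40)
    (hb : b ≤ 1 / 20) : ∀ᶠ n : ℕ in atTop, ∀ X y : ℝ, X ≤ (n : ℝ) ^ b → y ≤ (n : ℝ) ^ (1 / 20 : ℝ) →
      X + 2 * (y + Real.log 2) ≤ (n : ℝ) ^ (-s') * EE μ s n := by
  have ev : ∀ {y : ℝ}, 0 < y → ∀ M : ℝ, ∀ᶠ n : ℕ in atTop, M ≤ (n : ℝ) ^ y := fun hy M =>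
    ((tendsto_rpow_atTop hy).comp tendsto_natCast_atTop_atTop).eventually_ge_atTop M
  filter_upwards [hE9, ev (show (0 : ℝ) < 1 / 36 by norm_num) 5, eventually_ge_atTop 1] with n hE e1 hn1
  intro X y hX hy
  have hnR : (1 : ℝ) ≤ n := by exact_mod_cast hn1
  have n0 : (0 : ℝ) < n := by linarith
  have l2 : Real.log 2 ≤ 1 := by
    have := Real.log_two_lt_d9
    linarith
  have h1 : (n : ℝ) ^ b ≤ (n : ℝ) ^ (1 / 20 : ℝ) := Real.rpow_le_rpow_of_exponent_le hnR hb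
  have h2 : (1 : ℝ) ≤ (n : ℝ) ^ (1 / 20 : ℝ) := Real.one_le_rpow hnR (by norm_num)
  have h3 : 5 * (n : ℝ) ^ (1 / 20 : ℝ) ≤ (n : ℝ) ^ (-s') * (n : ℝ) ^ (1 / 9 : ℝ) := by
    rw [← Real.rpow_add n0]
    calc 5 * (n : ℝ) ^ (1 / 20 : ℝ) ≤ (n : ℝ) ^ (1 / 36 : ℝ) * (n : ℝ) ^ (1 / 20 : ℝ) := mul_le_mul_of_nonneg_right e1 (by positivity)
      _ = (n : ℝ) ^ (1 / 36 + 1 / 20 : ℝ) := (Real.rpow_add n0 _ _).symm
      _ ≤ (n : ℝ) ^ (-s' + 1 / 9) := Real.rpow_le_rpow_of_exponent_le hnR (by linarith)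
  have h4 : (n : ℝ) ^ (-s') * (n : ℝ) ^ (1 / 9 : ℝ) ≤ (n : ℝ) ^ (-s') * EE μ s n :=
    mul_le_mul_of_nonneg_left hE (Real.rpow_nonneg n0.le _)
  linarith

/-- **`bal`.** -/
theorem Suc9.bal {Γ : Cx} (hG : Γ.Ok) {W : Lv9} {n m0 l : ℕ} {a : ℝ} {z : ℕ × ℤ} {η : Env} (h : Suc9 Γ W n a m0 l z η) {X t : ℝ}
    {m0' : ℕ} (hm : m0' ≤ m0) (C : Lc54 (wt η) Γ.p Γ.N Γ.hi X t m0') {o : ℝ} (ho : ∀ y : ℝ, y ≤ (n : ℝ) ^ (1 / 20 : ℝ) → X + 2 * (y + Real.log 2) ≤ o) :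
    |Γ.B η - bOc Γ W l z η| ≤ o := by
  obtain ⟨hT, δ, e, e1, e2, U, L, L0, V, ef, Uf, Lf, M, N, lo, H⟩ := h
  have he1 : e1 ≤ 1 := by
    obtain ⟨ne, nb, n3, m, kg, ng, kr, xa, xb, s, da, db, ya, yb, za, zb, va, vb, xm, xn, d0, ph, p1, pe, p2, p3, ph', p1', pe', p2', p3',
      pg, pm, A0, A1, A2, A3, G0, Ag, Am, Ar, -, K⟩ := H
    have V1 := K.F.V1
    have L1 := K.S.L1
    have U1 := K.S.U1
    have h1 : 1 ≤ V * L * U * L :=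
      one_le_mul_of_one_le_of_one_le (one_le_mul_of_one_le_of_one_le (one_le_mul_of_one_le_of_one_le V1 L1) U1) L1
    have h2 := N.e1
    have h3 : Real.exp (-(n : ℝ) ^ a) ≤ 1 := Real.exp_le_one_iff.2 (neg_nonpos.2 (Real.rpow_nonneg (Nat.cast_nonneg n) _))
    have h4 : e1 ≤ e1 * (V * L * U * L) * (V * L * U * L) := by
      have a1 := le_mul_of_one_le_right K.he1 h1
      exact a1.trans (le_mul_of_one_le_right (K.he1.trans a1) h1)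
    linarith
  unfold bOc
  rw [if_pos hT]
  refine ((H.anti hm).bal hG C he1).trans ?_
  have h5 := ho _ lo
  linarith

/-! ### The frame -/

/-- **OFF THE BAD ENVIRONMENTS A SUCCESS GIVES `close` AND `bal`.** `e` = the exponent of the boxes, `em` = the exponent of the spare rows
of the lane, `a` = the exponent of the numbers of the success. -/
theorem cb9 {μ : Measure ℝ} {s : ℝ} [IsProbabilityMeasure μ] {c₀ C₀ : ℝ} {n₀ : ℕ} (hI : In μ s c₀ C₀ n₀) (hS : Str78 μ s)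
    (hE9 : ∀ᶠ n : ℕ in atTop, (n : ℝ) ^ (1 / 9 : ℝ) ≤ EE μ s n) {a e em : ℝ} (ha : 0 < a) (he : e ≤ 1 / 32) (hem : 0 < em) :
    ∃ κ₀ > (0 : ℝ), ∀ c ≤ (1 : ℝ), ∀ δ₁ : ℝ, 0 ≤ δ₁ → δ₁ ≤ 1 → ∀ κ ≤ κ₀, ∀ᶠ n : ℕ in atTop, ∀ Γ : Cx, Adm μ s c δ₁ κ n Γ →
      ∃ Bd : Set Env, MeasurableSet Bd ∧ (law μ).real Bd ≤ (n : ℝ) ^ (-(40 : ℝ)) ∧
        ∀ (W : Lv9) (G : Gd) (L l : ℕ) (c' : ℕ × ℤ) (η : Env) (s' Sg : ℝ), η ∉ Bd → G.Ok L → l ≤ L → s' ≤ 1 / 100 → 0 ≤ Sg →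
          (((2 * W.T l : ℕ) : ℝ) ≤ 2 * (n : ℝ) ^ e) → W.c0 l (G.z l c') + W.n1 l ≤ c'.1 → c'.1 < W.c0 l (G.z l c') + W.D' l →
          Suc9 Γ W n a (⌈(n : ℝ) ^ em⌉₊ + 1) l (G.z l c') η →
          (|Γ.w c' η - vI9 s W l (G.rel l c') (sh (G.x l c') η)| ≤ (n : ℝ) ^ (-(40 : ℝ)) + (n : ℝ) ^ (-s') * Γ.w c' η ∧
            |PhC Γ η - PI9 s W l (G.rel l c') (sh (G.x l c') η)| ≤ (n : ℝ) ^ (-(40 : ℝ)) + (n : ℝ) ^ (-s') * (1 + Sg)) ∧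
          |Γ.B η - bOc Γ W l (G.z l c') η| ≤ (n : ℝ) ^ (-s') * EE μ s n := by
  obtain ⟨dl, hdl⟩ : ∃ dl : ℝ, dl = min (a / 4) (min (1 / 2000) em) := ⟨_, rfl⟩
  have dl0 : 0 < dl := by
    rw [hdl]
    exact lt_min (by linarith) (lt_min (by norm_num) hem)
  have dla : dl ≤ a / 4 := by rw [hdl]; exact min_le_left _ _
  have dl1 : dl ≤ 1 / 2000 := by rw [hdl]; exact (min_le_right _ _).trans (min_le_left _ _)
  have dlm : dl ≤ em := by rw [hdl]; exact (min_le_right _ _).trans (min_le_right _ _)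
  obtain ⟨κ₀, hκ₀, b, hb, hbd, HB⟩ := bad54 hI hS dl0 (show (0 : ℝ) < 1 / 4000 by norm_num)
  refine ⟨κ₀, hκ₀, fun c hc δ₁ hδ0 hδ1 κ hκ => ?_⟩
  have hda : 2 * dl < a := by linarith
  filter_upwards [HB c hc δ₁ hδ1 κ hκ,
    closeC54 hI hE9 hb hbd hda (hbd.trans dl1) (show (0 : ℝ) < 1 / 4000 by norm_num) le_rfl he hc hδ0 hδ1 (κ := κ),
    balN9 hE9 (show (1 / 100 : ℝ) ≤ 1 / 40 by norm_num) (show b ≤ 1 / 20 by linarith), eventually_ge_atTop 1] with n h1 h2 h3 hn1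
  intro Γ hA
  obtain ⟨Bd, mB, pB, X, t, m0, X0, hX, t0, ht, hm0, hBd⟩ := h1 Γ hA
  refine ⟨Bd, mB, pB, fun W G L l c' η s' Sg hη hG hl hs' hSg hT2 hc1 hc2 hSuc => ?_⟩
  have hnR : (1 : ℝ) ≤ n := by exact_mod_cast hn1
  obtain ⟨C, hu⟩ := hBd η hη
  have ok : Γ.Ok := ⟨hA.k1, hA.q0, hA.q1⟩
  have m0M : m0 ≤ ⌈(n : ℝ) ^ em⌉₊ + 1 := by
    have a1 : (m0 : ℝ) ≤ (⌈(n : ℝ) ^ em⌉₊ : ℝ) + 1 := by
      have a2 := Nat.le_ceil ((n : ℝ) ^ em)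
      have a3 : (n : ℝ) ^ dl ≤ (n : ℝ) ^ em := Real.rpow_le_rpow_of_exponent_le hnR dlm
      linarith
    exact_mod_cast a1
  have hbal := hSuc.bal ok m0M C (o := (n : ℝ) ^ (-(1 / 100 : ℝ)) * EE μ s n) fun y hy => h3 X y hX hy
  have pw : (n : ℝ) ^ (-(1 / 100 : ℝ)) ≤ (n : ℝ) ^ (-s') := Real.rpow_le_rpow_of_exponent_le hnR (by linarith)
  refine ⟨?_, hbal.trans (mul_le_mul_of_nonneg_right pw (zero_le_one.trans (one_le_EE n)))⟩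
  obtain ⟨hT, δ, e', e1, e2, U, L', L0, V, ef, Uf, Lf, M, N, lo, H⟩ := hSuc
  have H' := H.anti m0M
  obtain ⟨ne, nb, n3, m, kg, ng, kr, xa, xb, sx, da, db, ya, yb, za, zb, va, vb, xm, xn, d0, ph, p1, pe, p2, p3, ph', p1', pe', p2', p3',
    pg, pm, A0, A1, A2, A3, G0, Ag, Am, Ar, hD, K⟩ := H'
  have key := h2 Γ hA X t m0 hX ht hm0 η C hu _ _ ne nb n3 m _ kg ng kr _ _ _ _ xa xb sx da db ya yb za zb va vb xm xn d0
    ph p1 pe p2 p3 ph' p1' pe' p2' p3' pg pm δ e' e1 e2 U L' L0 V A0 A1 A2 A3 G0 M Ag Am Ar ef Uf Lf K.S K.F K.S' K.hp3 K.I K.Mi K.Sp N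
    K.hN K.ha2 K.hk K.hg K.hn K.hD (by rw [hD]; exact hT2)
  rw [hD] at key
  have g := K.S.g
  have g1 := g.h1
  have g2 := g.h2
  have g7 := g.h7
  have kN := K.hN
  have kD := K.hD
  refine W97.cloNum97 hn1 hs' (Cx.w_nonneg ok _ _) hSg (W97.cloN97 (L := L) (j := l) (ρ := 1 - (W.T l : ℤ)) hG hl
    (Real.rpow_nonneg (by linarith) _) key g7 (by omega) K.ha2 (by omega) (by omega) ?_ ?_ rfl rfl hc1 hc2)
  · unfold Lv9.c0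
    omega
  · have h2' : (G.x l c').1 = ((G.z l c').1 : ℤ) := rfl
    rw [h2']
    unfold Lv9.c0
    omega

end

end Pool.Agent.W_7d29a1_C1.Lt9
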