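import Pool.Agent.W_7d29a1_C1.Mt74

/-!
Both halves (MP_7d29a1_pr), attractor route [C1]: THE FIRST MEETING OF THE INNER SYSTEM IS IN THE MIDDLE ROWS, second part. (helper74)

`mt74` : the two paths of the inner system (single starts `a1 < a2`, `D` rows, flat end) are separated by a column at the row `n1`,
and cross a slab of cross ratio `1 + δ` before the row `D'` : `1 - (δ + 12 ε) ≤ Mtp`.
-/

set_option autoImplicit false
set_option linter.unusedSectionVars false

namespace Pool.Agent.W_7d29a1_C1.H1c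

open Finset
open Pool.Agent.W_7d29a1_C1.CR76 (CR TP)
open Pool.Agent.W_7d29a1_C1.K91 (shw Box Grp ps2)
open Pool.Agent.W_7d29a1_C1.L91 (mw)
open Pool.Agent.W_7d29a1_C1.K97 (Sup)
open Pool.Agent.W_7d29a1_C1.K91P (fw bw shp bw_pos fw_nonneg dp nm)
open Pool.Agent.W_7d29a1_C1.R26P
open Pool.Agent.W_7d29a1_C1.F74

noncomputable section

variable {W : ℕ → ℤ → ℝ} {P : ℕ → ℝ}

theorem kf0 (n : ℕ) (a x : ℤ) : kf W P 0 n a x = fw W P (sg a) n x := by
  have h := K91P.fw_comp (w := W) (p := P) (sg a) 0 n x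
  rw [zero_add] at h
  exact h.symm

theorem ev0 (n m : ℕ) (Q : ℤ → Prop) [DecidablePred Q] {a lo hi : ℤ} (h1 : lo ≤ a) (h2 : a + n ≤ hi) :
    ev W P 0 n m Q a = ∑ z ∈ (Icc lo hi).filter Q, fw W P (sg a) n z * bw W P n m z := by
  rw [ev_eq 0 n m Q h1 h2]
  exact sum_congr rfl fun z _ => by rw [kf0, zero_add]

theorem tot_sg {K m : ℕ} {a lo hi : ℤ} (h1 : lo ≤ a) (h2 : a + K ≤ hi) :
    ∑ z ∈ Icc lo hi, fw W P (sg a) K z * bw W P K m z = bw W P 0 (K + m) a := by
  rw [ev_total (w := W) (p := P) 0 K m h1 h2]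
  exact sum_congr rfl fun z _ => by rw [kf0, zero_add]

/-- The box of the inner system. -/
theorem box_sg {a1 a2 : ℤ} (h : a1 < a2) (D : ℕ) : Box (sg a1) (sg a2) a2 a1 (a2 + D + 1) D := by
  have z : ∀ a y : ℤ, y ≠ a → sg a y = 0 := fun a y hy => by unfold sg; rw [if_neg hy]
  refine ⟨⟨sg_nonneg a1, sg_nonneg a2, fun y hy => z a1 y (by omega), fun y hy => z a2 y (by omega)⟩, fun y hy =>
    ⟨z a1 y (by omega), z a2 y (by omega)⟩, fun y hy => ⟨z a1 y (by omega), z a2 y (by omega)⟩, h.le, by omega, a1, ?_⟩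
  have e1 : sg a1 a1 = 1 := by unfold sg; rw [if_pos rfl]
  have e2 := sg_nonneg a2 a1
  rw [e1]
  linarith

theorem sg_pos (a : ℤ) : ∃ y, 0 < sg a y := ⟨a, by unfold sg; rw [if_pos rfl]; exact one_pos⟩

/-- **The meeting probabilities of the inner system telescope.** -/
theorem Mtp_eq {a1 a2 : ℤ} (h : a1 < a2) {n1 D' D : ℕ} (h1 : n1 ≤ D') (h2 : D' ≤ D) :
    Mtp W P n1 D' D a1 a2 = (nm W P (sg a1) (sg a2) a1 (a2 + D + 1) D n1 - nm W P (sg a1) (sg a2) a1 (a2 + D + 1) D D') /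
      (bw W P 0 D a1 * bw W P 0 D a2) := by
  have hb := box_sg h D
  have z1 : ∑ y ∈ Icc a1 (a2 + D + 1), sg a1 y * bw W P 0 D y = bw W P 0 D a1 := by
    have := tot_sg (W := W) (P := P) (K := 0) (m := D) (a := a1) (lo := a1) (hi := a2 + D + 1) le_rfl (by push_cast; omega)
    rw [zero_add] at this
    exact this
  have z2 : ∑ y ∈ Icc a1 (a2 + D + 1), sg a2 y * bw W P 0 D y = bw W P 0 D a2 := by
    have := tot_sg (W := W) (P := P) (K := 0) (m := D) (a := a2) (lo := a1) (hi := a2 + D + 1) h.le (by push_cast; omega)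
    rw [zero_add] at this
    exact this
  have key : ∀ m, n1 ≤ m → m ≤ D → ∑ K ∈ Ico n1 m, ∑ q ∈ cs a1 a2 K, Win W P K (D - (K + 1)) a1 a2 q =
      (nm W P (sg a1) (sg a2) a1 (a2 + D + 1) D n1 - nm W P (sg a1) (sg a2) a1 (a2 + D + 1) D m) /
      (bw W P 0 D a1 * bw W P 0 D a2) := by
    intro m hm
    induction m, hm using Nat.le_induction with
    | base => intro _; simp
    | succ m hm ih =>
      intro hD
      have hmD : m < D := by omega
      rw [sum_Ico_succ_top hm, ih (by omega)]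
      have e1 : ∑ q ∈ cs a1 a2 m, Win W P m (D - (m + 1)) a1 a2 q =
          ∑ q ∈ Icc a1 (a2 + D + 1), mw a1 (a2 + D + 1) (P m) (W m) (fw W P (sg a1) m) (fw W P (sg a2) m)
            (bw W P (m + 1) (D - (m + 1))) q := by
        rw [sum_cs (qa := a1) (qb := a2 + D + 1) (by omega) (by omega) fun q hq => Win_out h.le hq]
        refine sum_congr rfl fun q _ => ?_
        unfold Win
        exact mw_box (sup_sg le_rfl (by omega)) (sup_sg h.le (by omega)) (sup_sg le_rfl (by omega)) (sup_sg h.le (by omega))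
      rw [e1, K91P.sum_mw_row hb (sg_pos a1) (sg_pos a2) hmD, z1, z2]
      have st := K91P.nm_step (w := W) (p := P) hb hmD
      rw [st, ← add_div]
      congr 1
      ring
  exact key D' h1 h2

/-- **THE FIRST MEETING OF THE INNER SYSTEM IS IN THE MIDDLE ROWS.** -/
theorem mt74 (hW : ∀ k y, 0 < W k y) (hP : ∀ k, 0 < P k) {a1 a2 s va vb xa xb : ℤ} {n1 K n D' D : ℕ} {δ ε : ℝ} (h : a1 < a2)
    (d1 : n1 ≤ D') (d2 : K + n ≤ D') (d3 : D' ≤ D) (δ0 : 0 ≤ δ)
    (s1 : RX W P 0 n1 (D - n1) a1 s ε) (s2 : LX W P 0 n1 (D - n1) a2 (s + 1) ε)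
    (v1 : LX W P 0 K (D - K) a1 va ε) (v2 : RX W P 0 K (D - K) a2 vb ε)
    (g0 : a1 ≤ va) (g1 : va ≤ vb) (g2 : vb ≤ xa) (g3 : xa ≤ xb) (g4 : xb ≤ va + n) (g5 : vb ≤ a2 + K)
    (c : CR (kf W P K n) va vb xa xb ≤ 1 + δ) (lx : LX W P K n (D - (K + n)) va xa ε) (rx : RX W P K n (D - (K + n)) vb xb ε) :
    1 - (δ + 12 * ε) ≤ Mtp W P n1 D' D a1 a2 := by
  have hb := box_sg h D
  have Z1 := bw_pos hW hP D 0 a1
  have Z2 := bw_pos hW hP D 0 a2
  have ZZ := mul_pos Z1 Z2
  have eD1 : n1 + (D - n1) = D := by omega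
  have eDK : K + (D - K) = D := by omega
  have eDn : n + (D - (K + n)) = D - K := by omega
  have T := fun (k : ℕ) (hk : k ≤ D) (a : ℤ) (h1 : a1 ≤ a) (h2 : a ≤ a2) =>
    tot_sg (W := W) (P := P) (K := k) (m := D - k) (a := a) (lo := a1) (hi := a2 + D + 1) h1 (by omega)
  have ε0 : 0 ≤ ε := by
    have a1' := ev_nonneg hW hP 0 n1 (D - n1) (s < ·) a1
    have a2' := bw_pos hW hP (n1 + (D - n1)) 0 a1
    unfold RX at s1
    by_contra hc
    have := mul_neg_of_neg_of_pos (not_le.1 hc) a2'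
    linarith
  -- not met at the row `n1`
  have k1 : bw W P 0 D a1 * bw W P 0 D a2 - 2 * (ε * bw W P 0 D a1 * bw W P 0 D a2 + bw W P 0 D a1 * (ε * bw W P 0 D a2)) ≤
      nm W P (sg a1) (sg a2) a1 (a2 + D + 1) D n1 := by
    refine nm_ge hW hP hb.g n1 s ?_ ?_ ?_ ?_
    · rw [T n1 (by omega) a1 le_rfl h.le, eD1]
    · rw [T n1 (by omega) a2 h.le le_rfl, eD1]
    · unfold RX at s1
      rw [ev0 n1 (D - n1) (s < ·) (a := a1) (lo := a1) (hi := a2 + D + 1) le_rfl (by omega), eD1] at s1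
      exact s1
    · unfold LX at s2
      rw [ev0 n1 (D - n1) (· < s + 1) (a := a2) (lo := a1) (hi := a2 + D + 1) h.le (by omega), eD1] at s2
      exact s2
  -- met at the row `K + n`
  have out : ∀ a, a1 ≤ a → a ≤ a2 → ∑ x ∈ (Icc a1 (a2 + D + 1)).filter (fun x => ¬ (va ≤ x ∧ x ≤ vb)),
      fw W P (sg a) K x * bw W P K (D - K) x ≤ 2 * ε * bw W P 0 D a := by
    intro a h1 h2
    have o := out_le (lo := a1) (hi := a2 + D + 1) g1 (v1.mono hW hP h1) (v2.mono hW hP h2) (by omega) (by omega)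
    rw [eDK] at o
    refine le_trans (le_of_eq (sum_congr rfl fun x _ => ?_)) o
    rw [kf0, zero_add]
  have k2 : nm W P (sg a1) (sg a2) a1 (a2 + D + 1) D (K + n) ≤
      (δ + 4 * ε) * (bw W P 0 D a1 * bw W P 0 D a2) +
      (2 * ε * bw W P 0 D a1 * bw W P 0 D a2 + bw W P 0 D a1 * (2 * ε * bw W P 0 D a2)) := by
    refine nm_le hW hP hb (by omega) δ0 g1 g2 g3 g4 g0 (by omega) c lx rx ?_ ?_ ?_ ?_
    · rw [eDn, T K (by omega) a1 le_rfl h.le, eDK]
    · rw [eDn, T K (by omega) a2 h.le le_rfl, eDK]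
    · rw [eDn]
      exact out a1 le_rfl h.le
    · rw [eDn]
      exact out a2 h.le le_rfl
  -- the masses of the pairs decrease
  have anti : ∀ m, K + n ≤ m → m ≤ D → nm W P (sg a1) (sg a2) a1 (a2 + D + 1) D m ≤
      nm W P (sg a1) (sg a2) a1 (a2 + D + 1) D (K + n) := by
    intro m hm
    induction m, hm using Nat.le_induction with
    | base => intro _; exact le_rfl
    | succ m hm ih =>
      intro hD
      have st := K91P.nm_step (w := W) (p := P) hb (show m < D by omega)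
      have m0 : 0 ≤ K91P.mt W P (sg a1) (sg a2) a1 (a2 + D + 1) D m := by
        unfold K91P.mt
        refine sum_nonneg fun q _ => ?_
        have d0 := K91P.dp_nonneg hW hP hb.g m (q - 1) q (by omega)
        have w1 := hW m (q - 1)
        have w2 := hW m q
        have p1 := hP m
        positivity
      have := ih (by omega)
      linarith
  have k3 := anti D' d2 d3
  rw [Mtp_eq h d1 d3, le_div_iff₀ ZZ]
  nlinarith

end

end Pool.Agent.W_7d29a1_C1.H1c
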