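import Pool.Agent.W_7d29a1_C1.SucN21
import Pool.Agent.W_7d29a1_C1.MtB74

/-!
Both halves (MP_7d29a1_pr), attractor route [C1]: SUCCESS => THE FIRST MEETING OF THE INNER SYSTEM IS IN THE MIDDLE ROWS. (helper21)

`Mid` : the first slab of small cross ratio inside the box (rows `c0 + kg .. c0 + kg + ng`, cells `[va, vb]` and `[xm, xn]`, lower bounds
through the sites `d0` of `[xm, xn]`), with the kernels below and above it. `mtS21` : `All` and `Mid` give `1 - (δ + 12 ε) ≤ Mtp` for the inner system of `SucT`.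
-/

set_option autoImplicit false
set_option linter.unusedSectionVars false

namespace Pool.Agent.W_7d29a1_C1.Sh21

open Finset Pool.Agent.W_7d29a1_C1.Gini76 Pool.Agent.W_7d29a1_C1.CR76 Pool.Agent.W_7d29a1_C1.K91P
  Pool.Agent.W_7d29a1_C1.Basin76 Pool.Agent.W_7d29a1_C1.R26P Pool.Agent.W_7d29a1_C1.F74 Pool.Agent.W_7d29a1_C1.P21
open Pool.Agent.W_7d29a1_C1.K91 (shw)
open Pool.Agent.W_7d29a1_C1.H1c (Mtp mt74)

noncomputable section

variable {w : ℕ → ℤ → ℝ} {p : ℕ → ℝ}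

/-! ### A later origin -/

theorem shw_shw (c r : ℕ) : shw (shw w c) r = shw w (c + r) := by
  funext i y
  show w (c + (r + i)) y = w (c + r + i) y
  rw [add_assoc]

theorem shp_shp (c r : ℕ) : shp (shp p c) r = shp p (c + r) := by
  funext i
  show p (c + (r + i)) = p (c + r + i)
  rw [add_assoc]

theorem kf_sh (c r n : ℕ) (a z : ℤ) : kf (shw w c) (shp p c) r n a z = kf w p (c + r) n a z := by
  unfold kf
  rw [shw_shw, shp_shp]

theorem bw_sh (c r n : ℕ) (z : ℤ) : bw (shw w c) (shp p c) r n z = bw w p (c + r) n z := (bw_comp c n r z).symm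

theorem ev_sh (c r n m : ℕ) (Q : ℤ → Prop) [DecidablePred Q] (a : ℤ) :
    ev (shw w c) (shp p c) r n m Q a = ev w p (c + r) n m Q a := by
  unfold ev
  refine sum_congr rfl fun z _ => ?_
  rw [kf_sh, bw_sh, add_assoc]

theorem LX_sh {c r n m : ℕ} {a x : ℤ} {ε : ℝ} (h : LX w p (c + r) n m a x ε) : LX (shw w c) (shp p c) r n m a x ε := by
  unfold LX at h ⊢
  rw [ev_sh, bw_sh]
  exact h

theorem RX_sh {c r n m : ℕ} {a x : ℤ} {ε : ℝ} (h : RX w p (c + r) n m a x ε) : RX (shw w c) (shp p c) r n m a x ε := by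
  unfold RX at h ⊢
  rw [ev_sh, bw_sh]
  exact h

theorem kf_sh' (c r n : ℕ) : kf (shw w c) (shp p c) r n = kf w p (c + r) n := by
  funext a z
  exact kf_sh c r n a z

/-! ### The first slab of small cross ratio -/

/-- **The first slab of small cross ratio inside.** -/
structure Mid (w : ℕ → ℤ → ℝ) (p : ℕ → ℝ) (lo h : ℤ) (c0 kg ng kr : ℕ) (a1 a2 va vb xm xn da db : ℤ) (d0 : Finset ℤ)
    (pg pm pe : ℤ → ℝ) (δ e L A0 A1 Ag Am Ar : ℝ) : Prop where
  Agp : 0 ≤ Ag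
  Amp : 0 < Am
  Arp : 0 < Ar
  g0 : a1 ≤ va
  g1 : va ≤ vb
  g2 : vb ≤ xm
  g3 : xm ≤ xn
  g4 : xn ≤ va + ng
  g5 : vb ≤ a2 + kg
  d0s : d0 ⊆ Icc xm xn
  kmid : Krn (Icc lo (h + kg)) (Icc lo (h + kg + ng)) (Icc va vb) d0 (kf w p (c0 + kg) ng) pg pm L Am
  krest : Krn (Icc lo (h + kg + ng)) (Icc lo (h + kg + ng + kr)) d0 (Icc da db) (kf w p (c0 + kg + ng) kr) pm pe L Ar
  xg1 : ∑ x ∈ (Icc lo (h + kg)).filter (· < va), kf w p c0 kg a1 x * pg x ≤ e * Ag
  xg2 : ∑ x ∈ (Icc lo (h + kg)).filter (vb < ·), kf w p c0 kg a2 x * pg x ≤ e * Ag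
  xm1 : ∑ x ∈ (Icc lo (h + kg + ng)).filter (· < xm), kf w p (c0 + kg) ng va x * pm x ≤ e * Am
  xm2 : ∑ x ∈ (Icc lo (h + kg + ng)).filter (xn < ·), kf w p (c0 + kg) ng vb x * pm x ≤ e * Am
  cr : CR (kf w p (c0 + kg) ng) va vb xm xn ≤ 1 + δ
  amp : Ag * (Am * Ar) ≤ L * (A0 * A1)

variable {d0 : Finset ℤ} {lo h : ℤ} {c0 n1 ne nb n3 kg ng kr D' : ℕ} {a1 b1 a2 b2 xa xb s da db ya yb za zb va vb xm xn : ℤ}
  {ph p1 pe p2 p3 pg pm : ℤ → ℝ} {δ e U L L0 A0 A1 A2 A3 Ag Am Ar ε : ℝ}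

/-- **SUCCESS => THE FIRST MEETING OF THE INNER SYSTEM IS IN THE MIDDLE ROWS.** -/
theorem mtS21 (hw : ∀ k y, 0 < w k y) (hp : ∀ k, 0 < p k)
    (S : All w p lo h c0 n1 ne nb n3 a1 b1 a2 b2 xa xb s da db ya yb za zb ph p1 pe p2 p3 δ e U L L0 A0 A1 A2 A3)
    (F0 : Fut w p lo (h + n1 + ne + nb + n3) (c0 + n1 + ne + nb + n3) 0 za zb p3 1 1)
    (M : Mid w p lo h c0 kg ng kr a1 a2 va vb xm xn da db d0 pg pm pe δ e L A0 A1 Ag Am Ar)
    (Sp : SepC w p lo h c0 n1 a1 a2 s p1 e A0) (hk : kg + ng + kr = n1 + ne)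
    (d1 : n1 ≤ D') (d2 : kg + ng ≤ D') (d3 : D' ≤ n1 + ne + nb + n3) (hε : e * (L ^ 3 * U) ^ 2 ≤ ε) :
    1 - (δ + 12 * ε) ≤ Mtp (shw w c0) (shp p c0) n1 D' (n1 + ne + nb + n3) a1 a2 := by
  have g := S.g
  have h1 := g.h1
  have h2 := g.h2
  have h3 := g.h3
  have h7 := g.h7
  have h8 := g.h8
  have L1 := S.L1
  have U1 := S.U1
  have e0 := S.e0
  have A0p := S.A0p
  have A1p := S.A1p
  have A2p := S.A2p
  have A3p := S.A3p
  have Agp := M.Agp
  have Amp := M.Amp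
  have Arp := M.Arp
  have g0 := M.g0
  have g1 := M.g1
  have g2 := M.g2
  have g3 := M.g3
  have g4 := M.g4
  have g5 := M.g5
  have mm := S.mem hw hp F0
  have LU : 1 ≤ L * U := by nlinarith
  have L21 : 1 ≤ L ^ 2 := by nlinarith
  have cst : (L * U * L) * (L * U * L) ≤ (L ^ 3 * U) ^ 2 := by
    have q1 : (L * U * L) * (L * U * L) = L ^ 2 * (L * U) ^ 2 * 1 := by ring
    have q2 : (L ^ 3 * U) ^ 2 = L ^ 2 * (L * U) ^ 2 * L ^ 2 := by ring
    rw [q1, q2]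
    exact mul_le_mul_of_nonneg_left L21 (by positivity)
  -- the profiles
  have Pe := S.X.chaine hw hp F0 S.L1 S.U1 S.A3p
  have er : c0 + n1 + ne = c0 + kg + ng + kr := by omega
  have eh : h + (n1 : ℤ) + (ne : ℤ) = h + kg + ng + kr := by
    have : (n1 : ℤ) + ne = kg + ng + kr := by exact_mod_cast hk.symm
    linarith
  rw [er, eh] at Pe
  have gd := S.X.gd
  rw [eh] at gd
  have cel : d0 ⊆ Icc lo (h + kg + ng) := M.d0s.trans (Icc_subset_Icc (by omega) (by omega))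
  have cev : Icc va vb ⊆ Icc lo (h + kg) := Icc_subset_Icc (by omega) (by omega)
  have Pm' := Pe.pull hw hp M.krest cel (Icc_subset_Icc gd.1 gd.2) (by positivity) (by positivity) (by linarith)
  have Pg := Pm'.pull hw hp M.kmid cev cel (by positivity) (by positivity) (by linarith)
  have P0 := S.chain0 hw hp F0
  have en0 : n1 + ne + (nb + (n3 + 0)) = kg + (ng + (kr + (nb + (n3 + 0)))) := by omega
  have eD : n1 + ne + nb + n3 = kg + (ng + (kr + (nb + (n3 + 0)))) := by omega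
  have box : ∀ a ∈ cl2 a1 b1 a2 b2, a ∈ Icc lo h := by
    intro a ha
    unfold cl2 at ha
    rw [mem_union, mem_Icc, mem_Icc] at ha
    rw [mem_Icc]
    omega
  -- the mass of a start against the rank one route
  have mass : ∀ a ∈ cl2 a1 b1 a2 b2, Ag * (Am * (Ar * (A2 * (A3 * 1)))) ≤
      L * (1 * L * U * L) * bw w p c0 (kg + (ng + (kr + (nb + (n3 + 0))))) a := by
    intro a ha
    have l1 := P0.lw a ha
    rw [en0] at l1
    have k1 := mul_le_mul_of_nonneg_right M.amp (show 0 ≤ A2 * (A3 * 1) by positivity)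
    have k2 := mul_le_mul_of_nonneg_left l1 (show 0 ≤ L by linarith)
    calc Ag * (Am * (Ar * (A2 * (A3 * 1)))) = Ag * (Am * Ar) * (A2 * (A3 * 1)) := by ring
      _ ≤ L * (A0 * A1) * (A2 * (A3 * 1)) := k1
      _ = L * (A0 * A1 * (A2 * (A3 * 1))) := by ring
      _ ≤ L * (1 * L * U * L * bw w p c0 (kg + (ng + (kr + (nb + (n3 + 0))))) a) := k2
      _ = _ := by ring
  have bp : ∀ (r n : ℕ) (a : ℤ), 0 ≤ bw w p r n a := fun r n a => (bw_pos hw hp _ _ _).le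
  -- the exits
  have v1 : LX w p c0 kg (ng + (kr + (nb + (n3 + 0)))) a1 va ε := by
    unfold LX
    refine (ev_of hw hp Pg (by positivity) (by positivity) (· < va) (box a1 mm.1) M.xg1 (by positivity)
      (mass a1 mm.1)).trans (mul_le_mul_of_nonneg_right ?_ (bp _ _ _))
    refine le_trans (le_of_eq ?_) hε
    ring
  have v2 : RX w p c0 kg (ng + (kr + (nb + (n3 + 0)))) a2 vb ε := by
    unfold RX
    refine (ev_of hw hp Pg (by positivity) (by positivity) (vb < ·) (box a2 mm.2.2.1) M.xg2 (by positivity)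
      (mass a2 mm.2.2.1)).trans (mul_le_mul_of_nonneg_right ?_ (bp _ _ _))
    refine le_trans (le_of_eq ?_) hε
    ring
  have cst2 : e * (1 * L * U * L) * (1 * L * U * L * L) ≤ ε := by
    refine le_trans ?_ hε
    have q1 : e * (1 * L * U * L) * (1 * L * U * L * L) = e * (L ^ 5 * U ^ 2) := by ring
    have q2 : e * (L ^ 3 * U) ^ 2 = e * (L * (L ^ 5 * U ^ 2)) := by ring
    rw [q1, q2]
    refine mul_le_mul_of_nonneg_left ?_ e0
    have : 0 ≤ L ^ 5 * U ^ 2 := by positivity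
    nlinarith
  have lx : LX w p (c0 + kg) ng (kr + (nb + (n3 + 0))) va xm ε := by
    unfold LX
    refine (ev_of hw hp Pm' (by positivity) (by positivity) (· < xm) (cev (mem_Icc.2 ⟨le_rfl, g1⟩)) M.xm1 (by positivity)
      (Pg.lw va (mem_Icc.2 ⟨le_rfl, g1⟩))).trans (mul_le_mul_of_nonneg_right ?_ (bp _ _ _))
    refine le_trans (le_of_eq ?_) cst2
    ring
  have rx : RX w p (c0 + kg) ng (kr + (nb + (n3 + 0))) vb xn ε := by
    unfold RX
    refine (ev_of hw hp Pm' (by positivity) (by positivity) (xn < ·) (cev (mem_Icc.2 ⟨g1, le_rfl⟩)) M.xm2 (by positivity)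
      (Pg.lw vb (mem_Icc.2 ⟨g1, le_rfl⟩))).trans (mul_le_mul_of_nonneg_right ?_ (bp _ _ _))
    refine le_trans (le_of_eq ?_) cst2
    ring
  have cst1 : e * (1 * L * U * L) * (1 * L * U * L) ≤ ε := by
    refine le_trans (le_of_eq ?_) ((mul_le_mul_of_nonneg_left cst e0).trans hε)
    ring
  have s1 : RX w p c0 n1 (ne + (nb + (n3 + 0))) a1 s ε := by
    unfold RX
    exact (S.buf hw hp F0 (s < ·) mm.1 Sp.sl).trans (mul_le_mul_of_nonneg_right cst1 (bp _ _ _))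
  have s2 : LX w p c0 n1 (ne + (nb + (n3 + 0))) a2 (s + 1) ε := by
    unfold LX
    exact (S.buf hw hp F0 (· < s + 1) mm.2.2.1 Sp.sr).trans (mul_le_mul_of_nonneg_right cst1 (bp _ _ _))
  have i1 : n1 + ne + nb + n3 - n1 = ne + (nb + (n3 + 0)) := by omega
  have i2 : n1 + ne + nb + n3 - kg = ng + (kr + (nb + (n3 + 0))) := by omega
  have i3 : n1 + ne + nb + n3 - (kg + ng) = kr + (nb + (n3 + 0)) := by omega
  refine mt74 (s := s) (va := va) (vb := vb) (xa := xm) (xb := xn) (K := kg) (n := ng) (fun k y => hw _ _) (fun k => hp _)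
    (by omega) d1 d2 d3 S.δ0 ?_ ?_ ?_ ?_ g0 g1 g2 g3 g4 g5 ?_ ?_ ?_
  · rw [i1]
    exact RX_sh s1
  · rw [i1]
    exact LX_sh s2
  · rw [i2]
    exact LX_sh v1
  · rw [i2]
    exact RX_sh v2
  · show CR (kf (shw w c0) (shp p c0) kg ng) va vb xm xn ≤ 1 + δ
    rw [kf_sh']
    exact M.cr
  · rw [i3]
    exact LX_sh lx
  · rw [i3]
    exact RX_sh rx

end

end Pool.Agent.W_7d29a1_C1.Sh21
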