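import Pool.Agent.W_7d29a1_C1.SucM54
import Pool.Agent.W_7d29a1_C1.MtS21
import Pool.Agent.W_7d29a1_C1.Bal9

/-!
Both halves (MP_7d29a1_pr), attractor route [C1], SHELL: THE LITERAL DATA OF A SUCCESS. (helper9)

`LitP9` : one environment `η`, one context `Γ`, seam row `c0`; rows `c0 .. c0 + n1` first buffer, `.. + ne` inside, `.. + nb` one
lane, `.. + n3` last buffer, `m` more rows; `kg + ng + kr = n1 + ne` : the slab of small cross ratio inside; columns and slopes.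
`Lit9` : the same with everything existential except what the functions of the inside and of the outside use: `c0`, `n1`, `D'`
(contacts in the rows `c0 + n1 ≤ k < c0 + D'`), `D = n1 + ne + nb + n3`, the cells `[a1, b1]`, `[a2, b2]` of the seam row.

SOURCES (box `z`, level `l`, seam row `c0 = z.1 - T l + 1`, end of the inside `c0 + D = z.1 + T l + 1`):
* `S` (real slopes `ph .. p3`, constants `e`, `U`, `L`), `S'` (flat slopes `ph' .. p3'`, constants `ef`, `Uf`, `Lf`) (`All`): buffer `BufIn`, exit `ExitS` = box events of `SI`; inside `Ins` (`k1`, `kc`) = level `0` of the slabs `≤ l - 2`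
  (not reached), end pieces of the slab `l - 1` = `SI` at the place;
* `F` (`Fut`) = profile of the future at the row `c0 + D` (`V`: tame window, no slab from outside reaches);
* `hp3` : the flat slope is `≥ 1`;
* `I` (`SeamIn`) = profiles of the two groups at the row `c0` : `So` (box function, rows `< c0`) and `V`;
* `Mi` (`Mid`) = slab of small cross ratio inside : `SI`;
* `Sp` (`SepC`) = separation of the two groups in the first buffer, flat system only : `SI`;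
* `ha2` : from `V` (the window is reached by both groups).

`Lit9.suc` : `SucC` (helper54), `Lit9.mt` : first meeting inside the middle rows (helper21), `Lit9.bal` : balance point (`Bal9`).
-/

set_option autoImplicit false
set_option linter.unusedSectionVars false

namespace Pool.Agent.W_7d29a1_C1.Lt9

open MeasureTheory Finset
open Pool.Agent.W_7d29a1_F Pool.Agent.W_7d29a1_C1.S71
open Pool.Agent.W_7d29a1_C1.K91 (wt wt_pos shw)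
open Pool.Agent.W_7d29a1_C1.K91P (fw bw shp)
open Pool.Agent.W_7d29a1_C1.H60
open Pool.Agent.W_7d29a1_C1.H60.Cx (l)
open Pool.Agent.W_7d29a1_C1.H1c (Mtp rrn ept)
open Pool.Agent.W_7d29a1_C1.F74 (et)
open Pool.Agent.W_7d29a1_C1.L91 (KC)
open Pool.Agent.W_7d29a1_C1.H54
open Pool.Agent.W_7d29a1_C1.Mir99 (ecs)
open Pool.Agent.W_7d29a1_C1.Sh21 (All SeamIn Mid SepC)

noncomputable section

/-- **THE LITERAL DATA OF A SUCCESS**, all letters. -/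
structure LitP9 (Γ : Cx) (η : Env) (c0 n1 ne nb n3 m kg ng kr D' m0 : ℕ)
    (a1 b1 a2 b2 xa xb s da db ya yb za zb va vb xm xn : ℤ) (d0 : Finset ℤ) (ph p1 pe p2 p3 ph' p1' pe' p2' p3' pg pm : ℤ → ℝ)
    (δ e e1 e2 U L L0 V ef Uf Lf A0 A1 A2 A3 G0 Ag Am Ar : ℝ) : Prop where
  S : All (wt η) Γ.p 0 (Γ.k + c0) c0 n1 ne nb n3 a1 b1 a2 b2 xa xb s da db ya yb za zb ph p1 pe p2 p3 δ e U L L0 A0 A1 A2 A3
  F : Sh21.Fut (wt η) Γ.p 0 (Γ.k + c0 + n1 + ne + nb + n3) (c0 + n1 + ne + nb + n3) m za zb p3 V G0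
  S' : All (wt η) Γ.p 0 (Γ.k + c0) c0 n1 ne nb n3 a1 b1 a2 b2 xa xb s da db ya yb za zb ph' p1' pe' p2' p3' δ ef Uf Lf L0
    A0 A1 A2 A3
  hp3 : ∀ z ∈ Icc (0 : ℤ) (Γ.k + c0 + n1 + ne + nb + n3), 1 ≤ p3' z
  I : SeamIn 0 (Γ.k + c0) (fw (wt η) Γ.p l c0) (fw (wt η) Γ.p Γ.r c0) a1 b1 a2 b2 ph e1 e2
  Mi : Mid (wt η) Γ.p 0 (Γ.k + c0) c0 kg ng kr a1 a2 va vb xm xn da db d0 pg pm pe' δ ef Lf A0 A1 Ag Am Ar
  Sp : SepC (wt η) Γ.p 0 (Γ.k + c0) c0 n1 a1 a2 s p1' ef A0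
  he1 : 0 ≤ e1
  he2 : 0 ≤ e2
  hN : c0 + (n1 + ne + nb + n3) + m = Γ.N
  ha2 : a2 ≤ c0
  hn : n1 ≤ D'
  hD : D' + m0 ≤ n1 + ne + nb
  hk : kg + ng + kr = n1 + ne
  hg : kg + ng ≤ D'

/-- **THE LITERAL DATA OF A SUCCESS.** -/
def Lit9 (Γ : Cx) (η : Env) (c0 n1 D' D m0 : ℕ) (a1 b1 a2 b2 : ℤ) (δ e e1 e2 U L L0 V ef Uf Lf : ℝ) : Prop :=
  ∃ (ne nb n3 m kg ng kr : ℕ) (xa xb s da db ya yb za zb va vb xm xn : ℤ) (d0 : Finset ℤ)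
    (ph p1 pe p2 p3 ph' p1' pe' p2' p3' pg pm : ℤ → ℝ) (A0 A1 A2 A3 G0 Ag Am Ar : ℝ), n1 + ne + nb + n3 = D ∧
    LitP9 Γ η c0 n1 ne nb n3 m kg ng kr D' m0 a1 b1 a2 b2 xa xb s da db ya yb za zb va vb xm xn d0
      ph p1 pe p2 p3 ph' p1' pe' p2' p3' pg pm δ e e1 e2 U L L0 V ef Uf Lf A0 A1 A2 A3 G0 Ag Am Ar

variable {Γ : Cx} {η : Env} {c0 n1 D' D m0 : ℕ} {a1 b1 a2 b2 : ℤ} {δ e e1 e2 U L L0 V ef Uf Lf : ℝ}

/-- **SUCCESS => H1 AT ALL THE MIDDLE CONTACTS**, both frames. -/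
theorem Lit9.suc (h : Lit9 Γ η c0 n1 D' D m0 a1 b1 a2 b2 δ e e1 e2 U L L0 V ef Uf Lf) (hG : Γ.Ok) {X t P ε ε' M τ τ' : ℝ}
    (C : Lc54 (wt η) Γ.p Γ.N Γ.hi X t m0) (hP : ∀ i, Γ.p i ≤ P) (hP' : ∀ i, 1 ≤ P * Γ.p i)
    (hε : e * (V * L * U * L) * (V * L * U * L) ≤ ε) (hεf : ef * (Lf * Uf * Lf) * (Lf * Uf * Lf) ≤ ε)
    (hε1 : e1 * (V * L * U * L) * (V * L * U * L) ≤ ε) (sm : δ + 12 * ε ≤ 1 / 4)
    (he : ∀ i, (Real.exp (2 * X) * (1 + P)) ^ m0 / min 1 (Γ.p i) * ε + t ≤ ε')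
    (e1' : ∀ i, (1 + Γ.p i) * (Real.exp X ^ 2 * et (Γ.p i) δ ε' (Real.exp X)) ≤ 1 / 2) (hM1 : Real.exp (M + 1) * (e2 * L0 ^ 4) ≤ 1)
    (hM : ∀ i, Real.log (rrn (Γ.p i) (Real.exp X) (Real.exp X ^ 2 * (Lf * Uf * Lf) ^ 2)) + 1 ≤ M)
    (hτ : ∀ i, ecs (Γ.p i) (Real.exp X) (et (Γ.p i) δ ε' (Real.exp X)) (rrn (Γ.p i) (Real.exp X) ((Lf * Uf * Lf) ^ 2))
      (KC Γ i (2 * X) X) M + ecs (Γ.p i) (Real.exp X) (Real.exp X ^ 2 * et (Γ.p i) δ ε' (Real.exp X))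
      (rrn (Γ.p i) (Real.exp X) (Real.exp X ^ 2 * (Lf * Uf * Lf) ^ 2)) (KC Γ i (2 * X) X) M ≤ τ)
    (hτ' : ∀ i, ept (Γ.p i) (et (Γ.p i) δ ε' (Real.exp X)) (rrn (Γ.p i) (Real.exp X) ((Lf * Uf * Lf) ^ 2)) M ≤ τ') :
    SucC Γ η c0 n1 D' D a1 a2 τ τ' := by
  obtain ⟨ne, nb, n3, m, kg, ng, kr, xa, xb, s, da, db, ya, yb, za, zb, va, vb, xm, xn, d0, ph, p1, pe, p2, p3, ph', p1', pe', p2', p3',
    pg, pm, A0, A1, A2, A3, G0, Ag, Am, Ar, rfl, H⟩ := h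
  exact sucC54 hG H.S H.F H.S' H.hp3 H.I H.he1 H.he2 H.hN H.ha2 C H.hn H.hD hP hP' hε hεf hε1 sm he e1' hM1 hM hτ hτ'

/-- **SUCCESS => THE FIRST MEETING IS IN THE MIDDLE ROWS.** -/
theorem Lit9.mt (h : Lit9 Γ η c0 n1 D' D m0 a1 b1 a2 b2 δ e e1 e2 U L L0 V ef Uf Lf) {ε : ℝ} (hε : ef * (Lf ^ 3 * Uf) ^ 2 ≤ ε) :
    1 - (δ + 12 * ε) ≤ Mtp (shw (wt η) c0) (shp Γ.p c0) n1 D' D a1 a2 := by
  obtain ⟨ne, nb, n3, m, kg, ng, kr, xa, xb, s, da, db, ya, yb, za, zb, va, vb, xm, xn, d0, ph, p1, pe, p2, p3, ph', p1', pe', p2', p3',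
    pg, pm, A0, A1, A2, A3, G0, Ag, Am, Ar, rfl, H⟩ := h
  have hD := H.hD
  exact Sh21.mtS21 (wt_pos η) L91.p_pos H.S' (Sh21.Fut.flat le_rfl H.hp3) H.Mi H.Sp H.hk H.hn H.hg (by omega) hε

/-- **SUCCESS => THE BALANCE POINT IS SEEN FROM OUTSIDE.** -/
theorem Lit9.bal (h : Lit9 Γ η c0 n1 D' D m0 a1 b1 a2 b2 δ e e1 e2 U L L0 V ef Uf Lf) (hG : Γ.Ok) {X t : ℝ}
    (C : Lc54 (wt η) Γ.p Γ.N Γ.hi X t m0) (he1 : e1 ≤ 1) :
    |Γ.B η - Pd9.bO9 Γ c0 a1 b1 a2 b2 η| ≤ X + 2 * (Real.log V + 2 * Real.log L + Real.log U + Real.log 2) := by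
  obtain ⟨ne, nb, n3, m, kg, ng, kr, xa, xb, s, da, db, ya, yb, za, zb, va, vb, xm, xn, d0, ph, p1, pe, p2, p3, ph', p1', pe', p2', p3',
    pg, pm, A0, A1, A2, A3, G0, Ag, Am, Ar, rfl, H⟩ := h
  have hN := H.hN
  refine Pd9.bal9 ⟨hG.k1, hG.q0, hG.q1⟩ C.lc H.S H.F H.I (by omega) ?_ ?_ H.he1 he1
  · unfold Cx.hi
    omega
  · unfold Cx.hi
    omega

/-- The rows. -/
theorem Lit9.rows (h : Lit9 Γ η c0 n1 D' D m0 a1 b1 a2 b2 δ e e1 e2 U L L0 V ef Uf Lf) : n1 ≤ D' ∧ D' + m0 ≤ D ∧ c0 + D ≤ Γ.N := by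
  obtain ⟨ne, nb, n3, m, kg, ng, kr, xa, xb, s, da, db, ya, yb, za, zb, va, vb, xm, xn, d0, ph, p1, pe, p2, p3, ph', p1', pe', p2', p3',
    pg, pm, A0, A1, A2, A3, G0, Ag, Am, Ar, rfl, H⟩ := h
  have hN := H.hN
  have hD := H.hD
  have hn := H.hn
  omega

end

end Pool.Agent.W_7d29a1_C1.Lt9
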