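import Pool.Agent.W_7d29a1_C1.NumD54
import Pool.Agent.W_7d29a1_C1.Lit9

/-!
Both halves (MP_7d29a1_pr), attractor route [C1]: THE BAD ENVIRONMENTS AND THE CLOSENESS AS ONE LEAF. (helper54)

`bdC54` : for an admissible context there is a set `Bd` of probability at most `n ^ (-40)`; off it the local facts hold and every literal
success (`Lit9`) with the numbers `Nm54` gives both inequalities of the closeness. `eeL54`, `eeU54` : the unit `EE μ s T` of a scale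
`n ^ (e₀ / 4) ≤ T ≤ 2 n ^ e`.
-/

set_option autoImplicit false
set_option linter.unusedSectionVars false

namespace Pool.Agent.W_7d29a1_C1.H54

open Finset MeasureTheory Filter Topology
open Pool.Agent.W_7d29a1_F Pool.Agent.W_7d29a1_H Pool.Agent.W_7d29a1_HS
open Pool.Agent.W_7d29a1_C1.K91 (shw wt wt_pos)
open Pool.Agent.W_7d29a1_C1.H60
open Pool.Agent.W_7d29a1_C1.H60.Cx (l uc mem_rows)
open Pool.Agent.W_7d29a1_C1.H1c (Mtp Win FPhC)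
open Pool.Agent.W_7d29a1_C1.Nbr78 (StE78 Str78)
open Pool.Agent.W_7d29a1_C1.Lt9 (LitP9 Lit9)

noncomputable section

variable {μ : Measure ℝ} {s : ℝ}

/-- **What holds off the bad environments.** -/
structure Gd54 (s a e : ℝ) (n : ℕ) (Γ : Cx) (X t : ℝ) (m0 : ℕ) (η : Env) : Prop where
  lc : Lc54 (wt η) Γ.p Γ.N Γ.hi X t m0
  uc : ∀ d ∈ Γ.rows 0 Γ.N, uc d η ≤ 1 / 4000 * Real.log n
  /-- **a success is close to the inside** -/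
  close : ∀ {c0 n1 D' D : ℕ} {a1 b1 a2 b2 : ℤ} {δ e' e1 e2 U L L0 V ef Uf Lf M : ℝ},
    Lit9 Γ η c0 n1 D' D m0 a1 b1 a2 b2 δ e' e1 e2 U L L0 V ef Uf Lf → Nm54 n a δ e' e1 e2 U L L0 V ef Uf Lf M → (D : ℝ) ≤ 2 * (n : ℝ) ^ e →
    (∀ K, n1 ≤ K → K < D' → ∀ x ∈ Icc (1 : ℤ) (1 + Γ.N),
      |Γ.w (c0 + K, x) η - Win (shw (wt η) c0) (fun _ => Real.exp s) K (D - (K + 1)) a1 a2 x| ≤
        (n : ℝ) ^ (-(40 : ℝ)) + (n : ℝ) ^ (-(1 / 100 : ℝ)) * Γ.w (c0 + K, x) η) ∧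
    |PhS Γ (Ch87.chiC Γ) η - FPhC (shw (wt η) c0) (fun _ => Real.exp s) n1 D' D a1 a2| ≤
      (n : ℝ) ^ (-(40 : ℝ)) + (n : ℝ) ^ (-(1 / 100 : ℝ))

/-- **THE BAD ENVIRONMENTS AND THE CLOSENESS.** `e₀` = exponent of the smallest scale, `a` = exponent of the errors of a success, `e` =
exponent of the largest scale. -/
theorem bdC54 [IsProbabilityMeasure μ] {c₀ C₀ : ℝ} {n₀ : ℕ} (hI : In μ s c₀ C₀ n₀) (hS : Str78 μ s)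
    (hE9 : ∀ᶠ n : ℕ in atTop, (n : ℝ) ^ (1 / 9 : ℝ) ≤ EE μ s n) {e₀ a e : ℝ} (he₀ : 0 < e₀) (ha : 0 < a) (he : e ≤ 1 / 32) :
    ∃ κ₀ > (0 : ℝ), ∀ c ≤ (1 : ℝ), ∀ δ : ℝ, 0 ≤ δ → δ ≤ 1 → ∀ κ ≤ κ₀, ∀ᶠ n : ℕ in atTop, ∀ Γ : Cx, Adm μ s c δ κ n Γ →
      ∃ (Bd : Set Env) (X t : ℝ) (m0 : ℕ), MeasurableSet Bd ∧ (law μ).real Bd ≤ (n : ℝ) ^ (-(40 : ℝ)) ∧
        X ≤ (n : ℝ) ^ (1 / 2000 : ℝ) ∧ (m0 : ℝ) + 1 ≤ (n : ℝ) ^ (e₀ / 8) ∧ ∀ η, η ∉ Bd → Gd54 s a e n Γ X t m0 η := by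
  obtain ⟨dl, hdl⟩ : ∃ dl : ℝ, dl = min (min (a / 4) (1 / 2000)) (e₀ / 16) := ⟨_, rfl⟩
  have dl0 : 0 < dl := by
    rw [hdl]
    exact lt_min (lt_min (by linarith) (by norm_num)) (by linarith)
  have dl1 : dl ≤ a / 4 := by rw [hdl]; exact (min_le_left _ _).trans (min_le_left _ _)
  have dl2 : dl ≤ 1 / 2000 := by rw [hdl]; exact (min_le_left _ _).trans (min_le_right _ _)
  have dl3 : dl ≤ e₀ / 16 := by rw [hdl]; exact min_le_right _ _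
  obtain ⟨κ₀, hκ₀, b, hb, hbd, H⟩ := bad54 hI hS (dl := dl) (ε := 1 / 4000) dl0 (by norm_num)
  refine ⟨κ₀, hκ₀, fun c hc δ hδ0 hδ1 κ hκ => ?_⟩
  filter_upwards [H c hc δ hδ1 κ hκ, closeC54 (κ := κ) hI hE9 (a := a) (ε₀ := 1 / 4000) hb hbd (by linarith) (hbd.trans dl2) (by norm_num)
    le_rfl he hc hδ0 hδ1, ev_cst54 2 (c := e₀ / 16) (by linarith), eventually_ge_atTop 1] with n H1 H2 h3 h4 Γ hA
  obtain ⟨Bd, mB, pB, X, t, m0, X0, X1, t0, t1, hm, hB⟩ := H1 Γ hA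
  have n1 : (1 : ℝ) ≤ n := by exact_mod_cast h4
  have n0 : (0 : ℝ) < n := by linarith
  refine ⟨Bd, X, t, m0, mB, pB, X1.trans (Real.rpow_le_rpow_of_exponent_le n1 (hbd.trans dl2)), ?_, fun η hη => ?_⟩
  · have k1 : (n : ℝ) ^ dl ≤ (n : ℝ) ^ (e₀ / 16) := Real.rpow_le_rpow_of_exponent_le n1 dl3
    have k2 : (n : ℝ) ^ (e₀ / 8) = (n : ℝ) ^ (e₀ / 16) * (n : ℝ) ^ (e₀ / 16) := by
      rw [← Real.rpow_add n0]
      congr 1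
      ring
    rw [k2]
    generalize (n : ℝ) ^ (e₀ / 16) = y at h3 k1
    nlinarith
  · obtain ⟨C, hu⟩ := hB η hη
    refine ⟨C, hu, fun {c0 n1 D' D a1 b1 a2 b2 δ e' e1 e2 U L L0 V ef Uf Lf M} hL Nm hD => ?_⟩
    obtain ⟨ne, nb, n3, m, kg, ng, kr, xa, xb, sx, da, db, ya, yb, za, zb, va, vb, xm, xn, d0, ph, p1, pe, p2, p3, ph', p1', pe', p2', p3',
      pg, pm, A0, A1, A2, A3, G0, Ag, Am, Ar, rfl, Q⟩ := hL
    exact H2 Γ hA X t m0 X1 t1 hm η C hu c0 n1 ne nb n3 m D' kg ng kr a1 b1 a2 b2 xa xb sx da db ya yb za zb va vb xm xn d0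
      ph p1 pe p2 p3 ph' p1' pe' p2' p3' pg pm _ _ _ _ _ _ _ _ A0 A1 A2 A3 G0 M Ag Am Ar _ _ _ Q.S Q.F Q.S' Q.hp3 Q.I Q.Mi Q.Sp Nm Q.hN Q.ha2
      Q.hk Q.hg Q.hn Q.hD hD

/-! ### The unit of a scale -/

/-- The unit of a scale `T ≥ n ^ (e₀ / 4)` is at least `n ^ (e₀ / 36)`. -/
theorem eeL54 [IsProbabilityMeasure μ] (hE9 : ∀ᶠ n : ℕ in atTop, (n : ℝ) ^ (1 / 9 : ℝ) ≤ EE μ s n) {e₀ : ℝ} (he₀ : 0 < e₀) :
    ∀ᶠ n : ℕ in atTop, ∀ T : ℕ, (n : ℝ) ^ (e₀ / 4) ≤ T → (n : ℝ) ^ (e₀ / 36) ≤ EE μ s T := by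
  obtain ⟨N, hN⟩ := eventually_atTop.1 hE9
  filter_upwards [ev_cst54 (N : ℝ) (c := e₀ / 4) (by linarith)] with n h1 T hT
  have h2 : N ≤ T := by exact_mod_cast h1.trans hT
  refine le_trans ?_ (hN T h2)
  have n0 : (0 : ℝ) ≤ n := Nat.cast_nonneg n
  calc (n : ℝ) ^ (e₀ / 36) = ((n : ℝ) ^ (e₀ / 4)) ^ (1 / 9 : ℝ) := by
        rw [← Real.rpow_mul n0]
        congr 1
        ring
    _ ≤ (T : ℝ) ^ (1 / 9 : ℝ) := Real.rpow_le_rpow (Real.rpow_nonneg n0 _) hT (by norm_num)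

/-- A constant times the unit of a scale `T ≤ 2 n ^ e`, `e ≤ 1 / 32`, is at most `n ^ (1 / 50)`. -/
theorem eeU54 [IsProbabilityMeasure μ] {c₀ C₀ : ℝ} {n₀ : ℕ} (hI : In μ s c₀ C₀ n₀) (A : ℝ) {e : ℝ} (he : e ≤ 1 / 32) :
    ∀ᶠ n : ℕ in atTop, ∀ T : ℕ, (T : ℝ) ≤ 2 * (n : ℝ) ^ e → A * EE μ s T ≤ (n : ℝ) ^ (1 / 50 : ℝ) := by
  obtain ⟨K, hK, hs⟩ := EE_sqrt hI
  filter_upwards [ev_le54 (|A| * (K * 2)) (b := 1 / 64) (c := 1 / 50) (by norm_num), ev_cst54 |A| (c := 1 / 50) (by norm_num),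
    eventually_ge_atTop 1] with n h1 h2 h3 T hT
  have n1 : (1 : ℝ) ≤ n := by exact_mod_cast h3
  have n0 : (0 : ℝ) ≤ n := Nat.cast_nonneg n
  have E0 : 0 ≤ EE μ s T := zero_le_one.trans (one_le_EE (μ := μ) (s := s) T)
  have a1 : A * EE μ s T ≤ |A| * EE μ s T := mul_le_mul_of_nonneg_right (le_abs_self A) E0
  refine a1.trans ?_
  rcases Nat.eq_zero_or_pos T with h0 | h0
  · subst h0
    rw [EE_zero, mul_one]
    exact h2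
  · refine le_trans (mul_le_mul_of_nonneg_left ((hs T h0).trans (mul_le_mul_of_nonneg_left ?_ hK.le)) (abs_nonneg _)) (by
      rw [mul_assoc, mul_assoc] at h1
      exact h1)
    have h5 : (T : ℝ) ≤ 2 * (n : ℝ) ^ (1 / 32 : ℝ) :=
      hT.trans (mul_le_mul_of_nonneg_left (Real.rpow_le_rpow_of_exponent_le n1 he) (by norm_num))
    have h6 : (n : ℝ) ^ (1 / 32 : ℝ) = (n : ℝ) ^ (1 / 64 : ℝ) * (n : ℝ) ^ (1 / 64 : ℝ) := by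
      rw [← Real.rpow_add (by linarith)]
      norm_num
    have y0 : 0 ≤ (n : ℝ) ^ (1 / 64 : ℝ) := Real.rpow_nonneg n0 _
    rw [Real.sqrt_le_left (by positivity)]
    rw [h6] at h5
    nlinarith

end

end Pool.Agent.W_7d29a1_C1.H54
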