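import Pool.Agent.W_7d29a1_C1.KrnC21

/-!
Both halves (MP_7d29a1_pr), attractor route [C1]: BOTH SYSTEMS OF SLOPES FROM KERNEL FACTS. (helper21)

Envelopes `k0, k1, ke, k2 : ℤ → ℤ → ℝ` from the four rows to the last row (second seam), all facts pointwise in the column `z` of the
last row. The slope of a row is `∑ z, k y z * G z / G0` (`js`); real system `G = bw`, flat system `G = 1`, `G0 = 1`. Only
`∑ z, k0 a z * G z ≤ Φ * G0` (real), `∑ z, kc a z * G z ≤ Φ * G0` (flat) on the cells is asked of `G`. `kc` : kernel of the cells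
(no level of the first buffer in it), so the constants of the flat system are before the level of `k0`.
-/

set_option autoImplicit false
set_option linter.unusedSectionVars false

namespace Pool.Agent.W_7d29a1_C1.Sh21

open Finset Pool.Agent.W_7d29a1_C1.Gini76 Pool.Agent.W_7d29a1_C1.CR76 Pool.Agent.W_7d29a1_C1.K91P
  Pool.Agent.W_7d29a1_C1.Basin76 Pool.Agent.W_7d29a1_C1.R26P Pool.Agent.W_7d29a1_C1.F74 Pool.Agent.W_7d29a1_C1.P21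

noncomputable section

/-- The slope of a row: envelope against the future. -/
def js (Z : Finset ℤ) (k : ℤ → ℤ → ℝ) (G : ℤ → ℝ) (G0 : ℝ) (y : ℤ) : ℝ := (∑ z ∈ Z, k y z * G z) / G0

variable {Z T S : Finset ℤ} {k k' : ℤ → ℤ → ℝ} {G : ℤ → ℝ} {G0 Φ B : ℝ} {K : ℤ → ℝ} {x y : ℤ}

theorem js_nonneg (hk : ∀ z ∈ Z, 0 ≤ k y z) (hG : ∀ z ∈ Z, 0 ≤ G z) (hG0 : 0 ≤ G0) : 0 ≤ js Z k G G0 y :=
  div_nonneg (sum_nonneg fun z hz => mul_nonneg (hk z hz) (hG z hz)) hG0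

/-- **A sum against a slope, pointwise in the last column.** -/
theorem js_sum (hG : ∀ z ∈ Z, 0 ≤ G z) (hG0 : 0 < G0) (h : ∀ z ∈ Z, ∑ y ∈ T, K y * k y z ≤ B * k' x z) :
    ∑ y ∈ T, K y * js Z k G G0 y ≤ B * js Z k' G G0 x := by
  have e1 : ∑ y ∈ T, K y * js Z k G G0 y = (∑ z ∈ Z, (∑ y ∈ T, K y * k y z) * G z) / G0 := by
    unfold js
    have e2 : ∀ y ∈ T, K y * ((∑ z ∈ Z, k y z * G z) / G0) = (∑ z ∈ Z, K y * k y z * G z) / G0 := by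
      intro y _
      rw [← mul_div_assoc, mul_sum]
      congr 1
      exact sum_congr rfl fun z _ => by ring
    rw [sum_congr rfl e2, ← sum_div, sum_comm]
    congr 1
    exact sum_congr rfl fun z _ => by rw [sum_mul]
  have e3 : B * js Z k' G G0 x = (∑ z ∈ Z, B * k' x z * G z) / G0 := by
    unfold js
    rw [← mul_div_assoc, mul_sum]
    congr 1
    exact sum_congr rfl fun z _ => by ring
  rw [e1, e3]
  refine div_le_div_of_nonneg_right (sum_le_sum fun z hz => ?_) hG0.le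
  exact mul_le_mul_of_nonneg_right (h z hz) (hG z hz)

/-- The slope of the last row. -/
theorem js_last (hG : ∀ z ∈ Z, 0 ≤ G z) (hG0 : 0 < G0) (hT : T ⊆ Z) (hk : ∀ z ∈ Z, 0 ≤ B * k' x z)
    (h : ∀ z ∈ T, K z ≤ B * k' x z) : ∑ z ∈ T, K z * (G z / G0) ≤ B * js Z k' G G0 x := by
  have e3 : B * js Z k' G G0 x = ∑ z ∈ Z, B * k' x z * (G z / G0) := by
    unfold js
    rw [← mul_div_assoc, mul_sum, sum_div]
    refine sum_congr rfl fun z _ => ?_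
    rw [← mul_assoc, mul_div_assoc]
  rw [e3]
  refine (sum_le_sum fun z hz => mul_le_mul_of_nonneg_right (h z hz) (div_nonneg (hG z (hT hz)) hG0.le)).trans ?_
  exact sum_le_sum_of_subset_of_nonneg hT fun z hz _ => mul_nonneg (hk z hz) (div_nonneg (hG z hz) hG0.le)

variable {w : ℕ → ℤ → ℝ} {p : ℕ → ℝ} {lo h : ℤ} {c0 n1 ne nb n3 m r kg ng kr : ℕ}
  {a1 b1 a2 b2 xa xb s da db ya yb za zb va vb xm xn : ℤ} {kc k0 k1 ke k2 kg' km' : ℤ → ℤ → ℝ} {δ e U L L0 V A0 A1 A2 A3 Ag Am Ar : ℝ}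

/-- **All kernel facts of a success.** `kc` : kernel of the cells (lowest level), `k0` : envelope for the starts off the cells. -/
structure KAll (w : ℕ → ℤ → ℝ) (p : ℕ → ℝ) (lo h : ℤ) (c0 n1 ne nb n3 : ℕ) (a1 b1 a2 b2 xa xb s da db ya yb za zb : ℤ)
    (kc k0 k1 ke k2 : ℤ → ℤ → ℝ) (δ e U L L0 A0 A1 A2 A3 : ℝ) : Prop where
  g : Geo21 lo h n1 a1 b1 a2 b2 xa xb
  δ0 : 0 ≤ δ
  e0 : 0 ≤ e
  L1 : 1 ≤ L
  U1 : 1 ≤ U
  L01 : 1 ≤ L0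
  A0p : 0 < A0
  A1p : 0 < A1
  A2p : 0 < A2
  A3p : 0 < A3
  kcn : ∀ a ∈ cl2 a1 b1 a2 b2, ∀ z, 0 ≤ kc a z
  kck : ∀ a ∈ cl2 a1 b1 a2 b2, ∀ z, kc a z ≤ k0 a z
  k0n : ∀ x ∈ Icc lo h, ∀ z, 0 ≤ k0 x z
  k1n : ∀ x ∈ Icc lo (h + n1), ∀ z, 0 ≤ k1 x z
  ken : ∀ x ∈ Icc lo (h + n1 + ne), ∀ z, 0 ≤ ke x z
  k2n : ∀ x ∈ Icc lo (h + n1 + ne + nb), ∀ z, 0 ≤ k2 x z
  c1 : CR (kf w p c0 n1) a1 b1 xa xb ≤ 1 + δ
  c2 : CR (kf w p c0 n1) a2 b2 xa xb ≤ 1 + δ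
  q1 : ∀ y ∈ Icc a1 b1, kf w p c0 n1 a1 xa ≤ L0 * kf w p c0 n1 y xa ∧ kf w p c0 n1 y xa ≤ L0 * kf w p c0 n1 a1 xa
  q2 : ∀ y ∈ Icc a2 b2, kf w p c0 n1 a2 xa ≤ L0 * kf w p c0 n1 y xa ∧ kf w p c0 n1 y xa ≤ L0 * kf w p c0 n1 a2 xa
  xl : ∀ z ∈ Icc lo (h + n1 + ne + nb + n3), ∑ x ∈ (Icc lo (h + n1)).filter (· < xa), kf w p c0 n1 a1 x * k1 x z ≤ e * A0 * kc a1 z
  xr : ∀ z ∈ Icc lo (h + n1 + ne + nb + n3), ∑ x ∈ (Icc lo (h + n1)).filter (xb < ·), kf w p c0 n1 b2 x * k1 x z ≤ e * A0 * kc b2 z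
  u1 : ∀ x ∈ Icc lo h, ∀ z ∈ Icc lo (h + n1 + ne + nb + n3), ∑ v ∈ Icc lo (h + n1 + ne), kf w p c0 (n1 + ne) x v * ke v z ≤
    L * (A0 * A1) * k0 x z
  u1c : ∀ a ∈ cl2 a1 b1 a2 b2, ∀ z ∈ Icc lo (h + n1 + ne + nb + n3), ∑ v ∈ Icc lo (h + n1 + ne), kf w p c0 (n1 + ne) a v * ke v z ≤
    L * (A0 * A1) * kc a z
  l1 : ∀ x ∈ cl2 a1 b1 a2 b2, A0 * A1 ≤ L * ∑ v ∈ Icc da db, kf w p c0 (n1 + ne) x v
  uc : ∀ x ∈ Icc lo (h + n1), ∀ z ∈ Icc lo (h + n1 + ne + nb + n3), ∑ v ∈ Icc lo (h + n1 + ne), kf w p (c0 + n1) ne x v * ke v z ≤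
    L * A1 * k1 x z
  gd : lo ≤ da ∧ db ≤ h + n1 + ne
  gy : lo ≤ ya ∧ yb ≤ h + n1 + ne + nb
  gx : Gex n3 ya yb za zb
  u2 : ∀ v ∈ Icc lo (h + n1 + ne), ∀ z ∈ Icc lo (h + n1 + ne + nb + n3), ∑ y ∈ Icc lo (h + n1 + ne + nb),
    kf w p (c0 + n1 + ne) nb v y * k2 y z ≤ U * A2 * ke v z
  l2 : ∀ v ∈ Icc da db, A2 ≤ U * ∑ y ∈ Icc ya yb, kf w p (c0 + n1 + ne) nb v y
  u3 : ∀ y ∈ Icc lo (h + n1 + ne + nb), ∀ z ∈ Icc lo (h + n1 + ne + nb + n3), kf w p (c0 + n1 + ne + nb) n3 y z ≤ L * A3 * k2 y z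
  l3 : ∀ y ∈ Icc ya yb, A3 ≤ L * kf w p (c0 + n1 + ne + nb) n3 y ((za + zb) / 2)
  cx : CR (kf w p (c0 + n1 + ne + nb) n3) ya yb za zb ≤ 1 + δ
  yl : ∀ z ∈ Icc lo (h + n1 + ne + nb + n3), z < za → kf w p (c0 + n1 + ne + nb) n3 ya z ≤ e * A3 * kc a1 z
  yr : ∀ z ∈ Icc lo (h + n1 + ne + nb + n3), zb < z → kf w p (c0 + n1 + ne + nb) n3 yb z ≤ e * A3 * kc b2 z
  off : ∀ a ∈ cl2 a1 b1 a2 b2, ∀ z ∈ Icc lo (h + n1 + ne + nb + n3), ∑ v ∈ Icc lo (h + n1 + ne), kf w p c0 (n1 + ne) a v *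
    ∑ y ∈ (Icc lo (h + n1 + ne + nb)).filter (fun y => ¬ (ya ≤ y ∧ y ≤ yb)), kf w p (c0 + n1 + ne) nb v y * k2 y z ≤
      e * (A0 * A1) * A2 * kc a z

/-- **The kernel facts of the separation.** -/
structure KSep (w : ℕ → ℤ → ℝ) (p : ℕ → ℝ) (lo h : ℤ) (c0 n1 : ℕ) (a1 a2 s : ℤ) (Z : Finset ℤ) (kc k1 : ℤ → ℤ → ℝ) (e A0 : ℝ) : Prop
    where
  sl : ∀ z ∈ Z, ∑ x ∈ (Icc lo (h + n1)).filter (s < ·), kf w p c0 n1 a1 x * k1 x z ≤ e * A0 * kc a1 z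
  sr : ∀ z ∈ Z, ∑ x ∈ (Icc lo (h + n1)).filter (· < s + 1), kf w p c0 n1 a2 x * k1 x z ≤ e * A0 * kc a2 z

theorem KAll.cells (A : KAll w p lo h c0 n1 ne nb n3 a1 b1 a2 b2 xa xb s da db ya yb za zb kc k0 k1 ke k2 δ e U L L0 A0 A1 A2 A3) :
    a1 ∈ cl2 a1 b1 a2 b2 ∧ b2 ∈ cl2 a1 b1 a2 b2 ∧ a2 ∈ cl2 a1 b1 a2 b2 ∧ cl2 a1 b1 a2 b2 ⊆ Icc lo h := by
  have g := A.g
  have h1 := g.h1
  have h2 := g.h2
  have h3 := g.h3
  have h7 := g.h7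
  have h8 := g.h8
  refine ⟨?_, ?_, ?_, fun z hz => ?_⟩
  · unfold cl2
    simp only [mem_union, mem_Icc]
    omega
  · unfold cl2
    simp only [mem_union, mem_Icc]
    omega
  · unfold cl2
    simp only [mem_union, mem_Icc]
    omega
  · unfold cl2 at hz
    rw [mem_union, mem_Icc, mem_Icc] at hz
    rw [mem_Icc]
    omega

/-- The small constant may be raised. -/
theorem KAll.mono_e {e' : ℝ} (A : KAll w p lo h c0 n1 ne nb n3 a1 b1 a2 b2 xa xb s da db ya yb za zb kc k0 k1 ke k2 δ e U L L0 A0 A1 A2 A3)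
    (he : e ≤ e') : KAll w p lo h c0 n1 ne nb n3 a1 b1 a2 b2 xa xb s da db ya yb za zb kc k0 k1 ke k2 δ e' U L L0 A0 A1 A2 A3 := by
  obtain ⟨m1, m4, m3, sub⟩ := A.cells
  have up : ∀ {C : ℝ} {a z : ℤ}, 0 ≤ C → a ∈ cl2 a1 b1 a2 b2 → e * C * kc a z ≤ e' * C * kc a z := fun hC ha =>
    mul_le_mul_of_nonneg_right (mul_le_mul_of_nonneg_right he hC) (A.kcn _ ha _)
  exact
    { g := A.g
      δ0 := A.δ0
      e0 := A.e0.trans he
      L1 := A.L1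
      U1 := A.U1
      L01 := A.L01
      A0p := A.A0p
      A1p := A.A1p
      A2p := A.A2p
      A3p := A.A3p
      kcn := A.kcn
      kck := A.kck
      k0n := A.k0n
      k1n := A.k1n
      ken := A.ken
      k2n := A.k2n
      c1 := A.c1
      c2 := A.c2
      q1 := A.q1
      q2 := A.q2
      xl := fun z hz => (A.xl z hz).trans (up A.A0p.le m1)
      xr := fun z hz => (A.xr z hz).trans (up A.A0p.le m4)
      u1 := A.u1
      u1c := A.u1c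
      l1 := A.l1
      uc := A.uc
      gd := A.gd
      gy := A.gy
      gx := A.gx
      u2 := A.u2
      l2 := A.l2
      u3 := A.u3
      l3 := A.l3
      cx := A.cx
      yl := fun z hz h => (A.yl z hz h).trans (up A.A3p.le m1)
      yr := fun z hz h => (A.yr z hz h).trans (up A.A3p.le m4)
      off := fun a ha z hz => by
        refine (A.off a ha z hz).trans ?_
        have := up (C := A0 * A1 * A2) (z := z) (mul_nonneg (mul_nonneg A.A0p.le A.A1p.le) A.A2p.le) ha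
        linarith }

/-- **ONE SYSTEM OF SLOPES FROM THE KERNEL FACTS**, any slope `ph` in front. -/
theorem KAll.core (A : KAll w p lo h c0 n1 ne nb n3 a1 b1 a2 b2 xa xb s da db ya yb za zb kc k0 k1 ke k2 δ e U L L0 A0 A1 A2 A3)
    (hw : ∀ k y, 0 < w k y) (hp : ∀ k, 0 < p k) (hG : ∀ z ∈ Icc lo (h + n1 + ne + nb + n3), 0 ≤ G z) (hG0 : 0 < G0) (hΦ : 1 ≤ Φ)
    (phi' : ∀ a ∈ cl2 a1 b1 a2 b2, js (Icc lo (h + n1 + ne + nb + n3)) kc G G0 a ≤ Φ) {ph : ℤ → ℝ}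
    (hph : ∀ x ∈ Icc lo h, ∑ v ∈ Icc lo (h + n1 + ne), kf w p c0 (n1 + ne) x v * js (Icc lo (h + n1 + ne + nb + n3)) ke G G0 v ≤
      L * Φ * ph x * (A0 * A1)) (hph1 : ∀ x ∈ cl2 a1 b1 a2 b2, ph x ≤ 1) :
    All w p lo h c0 n1 ne nb n3 a1 b1 a2 b2 xa xb s da db ya yb za zb ph (js (Icc lo (h + n1 + ne + nb + n3)) k1 G G0)
      (js (Icc lo (h + n1 + ne + nb + n3)) ke G G0) (js (Icc lo (h + n1 + ne + nb + n3)) k2 G G0) (fun z => G z / G0) δ (e * Φ) U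
      (L * Φ) L0 A0 A1 A2 A3 := by
  obtain ⟨m1, m4, m3, sub⟩ := A.cells
  have L1 := A.L1
  have U1 := A.U1
  have e0 := A.e0
  have A0p := A.A0p
  have A1p := A.A1p
  have A2p := A.A2p
  have A3p := A.A3p
  have Φ0 : 0 < Φ := by linarith
  have LΦ : L ≤ L * Φ := le_mul_of_one_le_right (by linarith) hΦ
  have ex : ∀ (T : Finset ℤ) (K : ℤ → ℝ) (kk : ℤ → ℤ → ℝ) (a : ℤ) (C : ℝ), 0 ≤ C → a ∈ cl2 a1 b1 a2 b2 →
      (∀ z ∈ Icc lo (h + n1 + ne + nb + n3), ∑ x ∈ T, K x * kk x z ≤ e * C * kc a z) →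
      ∑ x ∈ T, K x * js (Icc lo (h + n1 + ne + nb + n3)) kk G G0 x ≤ e * Φ * C := by
    intro T K kk a C hC ha hz
    refine (js_sum (x := a) hG hG0 hz).trans ?_
    have := mul_le_mul_of_nonneg_left (phi' a ha) (mul_nonneg e0 hC)
    linarith
  have p1n : ∀ x ∈ Icc lo (h + n1), 0 ≤ js (Icc lo (h + n1 + ne + nb + n3)) k1 G G0 x := fun x hx =>
    js_nonneg (fun z _ => A.k1n x hx z) hG hG0.le
  have p2n : ∀ x ∈ Icc lo (h + n1 + ne + nb), 0 ≤ js (Icc lo (h + n1 + ne + nb + n3)) k2 G G0 x := fun x hx =>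
    js_nonneg (fun z _ => A.k2n x hx z) hG hG0.le
  have last : ∀ (T : Finset ℤ) (y a : ℤ) (hT : T ⊆ Icc lo (h + n1 + ne + nb + n3)), a ∈ cl2 a1 b1 a2 b2 →
      (∀ z ∈ T, kf w p (c0 + n1 + ne + nb) n3 y z ≤ e * A3 * kc a z) →
      ∑ z ∈ T, kf w p (c0 + n1 + ne + nb) n3 y z * (G z / G0) ≤ e * Φ * A3 := by
    intro T y a hT ha hz
    refine (js_last (x := a) hG hG0 hT (fun z _ => mul_nonneg (by positivity) (A.kcn a ha z)) hz).trans ?_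
    have := mul_le_mul_of_nonneg_left (phi' a ha) (mul_nonneg e0 A3p.le)
    linarith
  refine
    { g := A.g
      B := ⟨A.c1, A.c2, A.q1, A.q2, ex _ _ k1 a1 A0 A0p.le m1 A.xl, ex _ _ k1 b2 A0 A0p.le m4 A.xr⟩
      I := ⟨⟨hph, fun x hx => ?_⟩, hph1, fun x hx => ?_⟩
      X := ⟨A.gd, A.gy, A.gx, ⟨fun v hv => ?_, A.l2⟩, ⟨fun y hy => ?_, fun y hy => ?_⟩, A.cx, ?_, ?_⟩
      off := fun a ha => ?_
      δ0 := A.δ0
      e0 := by positivity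
      L1 := L1.trans LΦ
      U1 := U1
      L01 := A.L01
      A0p := A0p
      A1p := A1p
      A2p := A2p
      A3p := A3p }
  · refine (A.l1 x hx).trans (mul_le_mul_of_nonneg_right LΦ (sum_nonneg fun v _ => kf_nonneg hw hp _ _ _ _))
  · refine (js_sum (x := x) hG hG0 (A.uc x hx)).trans ?_
    have := mul_le_mul_of_nonneg_right LΦ (mul_nonneg (p1n x hx) A1p.le)
    linarith
  · refine (js_sum (x := v) hG hG0 (A.u2 v hv)).trans (le_of_eq ?_)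
    ring
  · refine (js_last (x := y) hG hG0 Subset.rfl (fun z _ => mul_nonneg (by positivity) (A.k2n y hy z)) (A.u3 y hy)).trans ?_
    have := mul_le_mul_of_nonneg_right LΦ (mul_nonneg (p2n y hy) A3p.le)
    linarith
  · rw [sum_singleton]
    exact (A.l3 y hy).trans (mul_le_mul_of_nonneg_right LΦ (kf_nonneg hw hp _ _ _ _))
  · exact last _ ya a1 (filter_subset _ _) m1 fun z hz => A.yl z (mem_filter.1 hz).1 (mem_filter.1 hz).2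
  · exact last _ yb b2 (filter_subset _ _) m4 fun z hz => A.yr z (mem_filter.1 hz).1 (mem_filter.1 hz).2
  · have e1 : ∀ v ∈ Icc lo (h + n1 + ne), kf w p c0 (n1 + ne) a v *
        ∑ y ∈ (Icc lo (h + n1 + ne + nb)).filter (fun y => ¬ (ya ≤ y ∧ y ≤ yb)),
          kf w p (c0 + n1 + ne) nb v y * js (Icc lo (h + n1 + ne + nb + n3)) k2 G G0 y =
        kf w p c0 (n1 + ne) a v * js (Icc lo (h + n1 + ne + nb + n3)) (fun v z =>
          ∑ y ∈ (Icc lo (h + n1 + ne + nb)).filter (fun y => ¬ (ya ≤ y ∧ y ≤ yb)), kf w p (c0 + n1 + ne) nb v y * k2 y z) G G0 v := by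
      intro v _
      congr 1
      unfold js
      have e2 : ∀ y ∈ (Icc lo (h + n1 + ne + nb)).filter (fun y => ¬ (ya ≤ y ∧ y ≤ yb)), kf w p (c0 + n1 + ne) nb v y *
          ((∑ z ∈ Icc lo (h + n1 + ne + nb + n3), k2 y z * G z) / G0) =
          (∑ z ∈ Icc lo (h + n1 + ne + nb + n3), kf w p (c0 + n1 + ne) nb v y * k2 y z * G z) / G0 := by
        intro y _
        rw [← mul_div_assoc, mul_sum]
        congr 1
        exact sum_congr rfl fun z _ => by ring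
      rw [sum_congr rfl e2, ← sum_div, sum_comm]
      congr 1
      exact sum_congr rfl fun z _ => by rw [sum_mul]
    rw [sum_congr rfl e1]
    refine (js_sum (x := a) hG hG0 (A.off a ha)).trans ?_
    have := mul_le_mul_of_nonneg_left (phi' a ha) (show 0 ≤ e * (A0 * A1) * A2 by positivity)
    linarith

/-- **THE REAL SYSTEM** : `Φ` is measured by `k0`, `ph = js k0 / Φ`. -/
theorem KAll.all (A : KAll w p lo h c0 n1 ne nb n3 a1 b1 a2 b2 xa xb s da db ya yb za zb kc k0 k1 ke k2 δ e U L L0 A0 A1 A2 A3)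
    (hw : ∀ k y, 0 < w k y) (hp : ∀ k, 0 < p k) (hG : ∀ z ∈ Icc lo (h + n1 + ne + nb + n3), 0 ≤ G z) (hG0 : 0 < G0) (hΦ : 1 ≤ Φ)
    (phi : ∀ a ∈ cl2 a1 b1 a2 b2, ∑ z ∈ Icc lo (h + n1 + ne + nb + n3), k0 a z * G z ≤ Φ * G0) :
    All w p lo h c0 n1 ne nb n3 a1 b1 a2 b2 xa xb s da db ya yb za zb
      (fun x => js (Icc lo (h + n1 + ne + nb + n3)) k0 G G0 x / Φ) (js (Icc lo (h + n1 + ne + nb + n3)) k1 G G0)
      (js (Icc lo (h + n1 + ne + nb + n3)) ke G G0) (js (Icc lo (h + n1 + ne + nb + n3)) k2 G G0) (fun z => G z / G0) δ (e * Φ) U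
      (L * Φ) L0 A0 A1 A2 A3 := by
  have Φ0 : 0 < Φ := by linarith
  have phi' : ∀ a ∈ cl2 a1 b1 a2 b2, js (Icc lo (h + n1 + ne + nb + n3)) k0 G G0 a ≤ Φ := fun a ha => by
    unfold js
    rw [div_le_iff₀ hG0]
    exact phi a ha
  refine A.core hw hp hG hG0 hΦ (fun a ha => ?_) (fun x hx => ?_) fun x hx => ?_
  · unfold js
    rw [div_le_iff₀ hG0]
    exact (sum_le_sum fun z hz => mul_le_mul_of_nonneg_right (A.kck a ha z) (hG z hz)).trans (phi a ha)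
  · refine (js_sum (x := x) hG hG0 (A.u1 x hx)).trans (le_of_eq ?_)
    field_simp
  · show js (Icc lo (h + n1 + ne + nb + n3)) k0 G G0 x / Φ ≤ 1
    rw [div_le_one Φ0]
    exact phi' x hx

/-- **THE FLAT SYSTEM** : `Φ` is measured by `kc`, the slope is `1` on the cells. -/
theorem KAll.flat (A : KAll w p lo h c0 n1 ne nb n3 a1 b1 a2 b2 xa xb s da db ya yb za zb kc k0 k1 ke k2 δ e U L L0 A0 A1 A2 A3)
    (hw : ∀ k y, 0 < w k y) (hp : ∀ k, 0 < p k) (hG : ∀ z ∈ Icc lo (h + n1 + ne + nb + n3), 0 ≤ G z) (hG0 : 0 < G0) (hΦ : 1 ≤ Φ)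
    (phi : ∀ a ∈ cl2 a1 b1 a2 b2, ∑ z ∈ Icc lo (h + n1 + ne + nb + n3), kc a z * G z ≤ Φ * G0) :
    All w p lo h c0 n1 ne nb n3 a1 b1 a2 b2 xa xb s da db ya yb za zb
      (fun x => if x ∈ cl2 a1 b1 a2 b2 then 1 else js (Icc lo (h + n1 + ne + nb + n3)) k0 G G0 x)
      (js (Icc lo (h + n1 + ne + nb + n3)) k1 G G0) (js (Icc lo (h + n1 + ne + nb + n3)) ke G G0)
      (js (Icc lo (h + n1 + ne + nb + n3)) k2 G G0) (fun z => G z / G0) δ (e * Φ) U (L * Φ) L0 A0 A1 A2 A3 := by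
  have Φ0 : 0 < Φ := by linarith
  have L1 := A.L1
  have A0p := A.A0p
  have A1p := A.A1p
  have phi' : ∀ a ∈ cl2 a1 b1 a2 b2, js (Icc lo (h + n1 + ne + nb + n3)) kc G G0 a ≤ Φ := fun a ha => by
    unfold js
    rw [div_le_iff₀ hG0]
    exact phi a ha
  refine A.core hw hp hG hG0 hΦ phi' (fun x hx => ?_) fun x hx => ?_
  · by_cases hc : x ∈ cl2 a1 b1 a2 b2
    · rw [if_pos hc]
      refine (js_sum (x := x) hG hG0 (A.u1c x hc)).trans ?_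
      have := mul_le_mul_of_nonneg_left (phi' x hc) (show 0 ≤ L * (A0 * A1) by positivity)
      linarith
    · rw [if_neg hc]
      refine (js_sum (x := x) hG hG0 (A.u1 x hx)).trans ?_
      have h1 : 0 ≤ js (Icc lo (h + n1 + ne + nb + n3)) k0 G G0 x := js_nonneg (fun z _ => A.k0n x hx z) hG hG0.le
      have h2 : L ≤ L * Φ := le_mul_of_one_le_right (by linarith) hΦ
      have h3 := mul_le_mul_of_nonneg_right h2 (mul_nonneg h1 (mul_nonneg A0p.le A1p.le))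
      linarith
  · show (if x ∈ cl2 a1 b1 a2 b2 then (1 : ℝ) else _) ≤ 1
    rw [if_pos hx]

/-- The separation. -/
theorem KSep.sep {Z : Finset ℤ} {a1 a2 s : ℤ} (S : KSep w p lo h c0 n1 a1 a2 s Z kc k1 e A0) (hG : ∀ z ∈ Z, 0 ≤ G z) (hG0 : 0 < G0)
    (he : 0 ≤ e) (hA : 0 ≤ A0) (phi1 : ∑ z ∈ Z, kc a1 z * G z ≤ Φ * G0) (phi2 : ∑ z ∈ Z, kc a2 z * G z ≤ Φ * G0) :
    SepC w p lo h c0 n1 a1 a2 s (js Z k1 G G0) (e * Φ) A0 := by
  have ex : ∀ (T : Finset ℤ) (K : ℤ → ℝ) (a : ℤ), ∑ z ∈ Z, kc a z * G z ≤ Φ * G0 →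
      (∀ z ∈ Z, ∑ x ∈ T, K x * k1 x z ≤ e * A0 * kc a z) → ∑ x ∈ T, K x * js Z k1 G G0 x ≤ e * Φ * A0 := by
    intro T K a ha hz
    refine (js_sum (x := a) hG hG0 hz).trans ?_
    have h1 : js Z kc G G0 a ≤ Φ := by
      unfold js
      rw [div_le_iff₀ hG0]
      exact ha
    have := mul_le_mul_of_nonneg_left h1 (mul_nonneg he hA)
    linarith
  exact ⟨ex _ _ a1 phi1 S.sl, ex _ _ a2 phi2 S.sr⟩

/-- The real future. -/
theorem Fut.real (hG0 : 0 < G0) (hV : 1 ≤ V) (lw : G0 ≤ V * bw w p r m ((za + zb) / 2)) (hb : ∀ z, 0 ≤ bw w p r m z) :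
    Fut w p lo h r m za zb (fun z => bw w p r m z / G0) V G0 := by
  refine ⟨hV, hG0, ⟨fun z _ => ?_, fun z hz => by rw [mem_singleton.1 hz]; exact lw⟩⟩
  have e : V * (bw w p r m z / G0) * G0 = V * bw w p r m z := by field_simp
  rw [e]
  exact le_mul_of_one_le_left (hb z) hV

/-- The flat future. -/
theorem Fut.flat1 : Fut w p lo h r 0 za zb (fun _ => (1 : ℝ) / 1) 1 1 := Fut.flat le_rfl fun _ _ => by norm_num

/-! ### The first slab of small cross ratio -/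

/-- **The kernel facts of `Mid`.** -/
structure KMid (w : ℕ → ℤ → ℝ) (p : ℕ → ℝ) (lo h : ℤ) (c0 kg ng kr : ℕ) (a1 a2 va vb xm xn da db : ℤ) (d0 Z : Finset ℤ)
    (k0 kg' km' ke : ℤ → ℤ → ℝ) (δ e L A0 A1 Ag Am Ar : ℝ) : Prop where
  Agp : 0 ≤ Ag
  Amp : 0 < Am
  Arp : 0 < Ar
  g0 : a1 ≤ va
  g1 : va ≤ vb
  g2 : vb ≤ xm
  g3 : xm ≤ xn
  g4 : xn ≤ va + ng
  g5 : vb ≤ a2 + kg
  kgn : ∀ x ∈ Icc lo (h + kg), ∀ z, 0 ≤ kg' x z
  kmn : ∀ x ∈ Icc lo (h + kg + ng), ∀ z, 0 ≤ km' x z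
  d0s : d0 ⊆ Icc xm xn
  um : ∀ x ∈ Icc lo (h + kg), ∀ z ∈ Z, ∑ y ∈ Icc lo (h + kg + ng), kf w p (c0 + kg) ng x y * km' y z ≤ L * Am * kg' x z
  lm : ∀ x ∈ Icc va vb, Am ≤ L * ∑ y ∈ d0, kf w p (c0 + kg) ng x y
  ur : ∀ y ∈ Icc lo (h + kg + ng), ∀ z ∈ Z, ∑ v ∈ Icc lo (h + kg + ng + kr), kf w p (c0 + kg + ng) kr y v * ke v z ≤ L * Ar * km' y z
  lr : ∀ y ∈ d0, Ar ≤ L * ∑ v ∈ Icc da db, kf w p (c0 + kg + ng) kr y v
  xg1 : ∀ z ∈ Z, ∑ x ∈ (Icc lo (h + kg)).filter (· < va), kf w p c0 kg a1 x * kg' x z ≤ e * Ag * k0 a1 z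
  xg2 : ∀ z ∈ Z, ∑ x ∈ (Icc lo (h + kg)).filter (vb < ·), kf w p c0 kg a2 x * kg' x z ≤ e * Ag * k0 a2 z
  xm1 : ∀ z ∈ Z, ∑ x ∈ (Icc lo (h + kg + ng)).filter (· < xm), kf w p (c0 + kg) ng va x * km' x z ≤ e * Am * k0 a1 z
  xm2 : ∀ z ∈ Z, ∑ x ∈ (Icc lo (h + kg + ng)).filter (xn < ·), kf w p (c0 + kg) ng vb x * km' x z ≤ e * Am * k0 a2 z
  cr : CR (kf w p (c0 + kg) ng) va vb xm xn ≤ 1 + δ
  amp : Ag * (Am * Ar) ≤ L * (A0 * A1)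

/-- **`Mid` from the kernel facts.** -/
theorem KMid.mid {d0 : Finset ℤ} (M : KMid w p lo h c0 kg ng kr a1 a2 va vb xm xn da db d0 Z k0 kg' km' ke δ e L A0 A1 Ag Am Ar)
    (hw : ∀ k y, 0 < w k y) (hp : ∀ k, 0 < p k) (hG : ∀ z ∈ Z, 0 ≤ G z) (hG0 : 0 < G0) (hΦ : 1 ≤ Φ) (hL : 0 ≤ L) (he : 0 ≤ e)
    (hA : 0 ≤ A0 * A1) (phi1 : ∑ z ∈ Z, k0 a1 z * G z ≤ Φ * G0) (phi2 : ∑ z ∈ Z, k0 a2 z * G z ≤ Φ * G0) :
    Mid w p lo h c0 kg ng kr a1 a2 va vb xm xn da db d0 (js Z kg' G G0) (js Z km' G G0) (js Z ke G G0) δ (e * Φ) (L * Φ) A0 A1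
      Ag Am Ar := by
  have LΦ : L ≤ L * Φ := le_mul_of_one_le_right hL hΦ
  have Agp := M.Agp
  have Amp := M.Amp
  have Arp := M.Arp
  have pgn : ∀ x ∈ Icc lo (h + kg), 0 ≤ js Z kg' G G0 x := fun x hx => js_nonneg (fun z _ => M.kgn x hx z) hG hG0.le
  have pmn : ∀ x ∈ Icc lo (h + kg + ng), 0 ≤ js Z km' G G0 x := fun x hx => js_nonneg (fun z _ => M.kmn x hx z) hG hG0.le
  have ex : ∀ (T : Finset ℤ) (K : ℤ → ℝ) (kk : ℤ → ℤ → ℝ) (a : ℤ) (C : ℝ), 0 ≤ C → ∑ z ∈ Z, k0 a z * G z ≤ Φ * G0 →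
      (∀ z ∈ Z, ∑ x ∈ T, K x * kk x z ≤ e * C * k0 a z) → ∑ x ∈ T, K x * js Z kk G G0 x ≤ e * Φ * C := by
    intro T K kk a C hC ha hz
    refine (js_sum (x := a) hG hG0 hz).trans ?_
    have h1 : js Z k0 G G0 a ≤ Φ := by
      unfold js
      rw [div_le_iff₀ hG0]
      exact ha
    have := mul_le_mul_of_nonneg_left h1 (mul_nonneg he hC)
    linarith
  refine
    { Agp := Agp
      Amp := Amp
      Arp := Arp
      g0 := M.g0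
      g1 := M.g1
      g2 := M.g2
      g3 := M.g3
      g4 := M.g4
      g5 := M.g5
      d0s := M.d0s
      kmid := ⟨fun x hx => ?_, fun x hx => ?_⟩
      krest := ⟨fun x hx => ?_, fun x hx => ?_⟩
      xg1 := ex _ _ kg' a1 Ag Agp phi1 M.xg1
      xg2 := ex _ _ kg' a2 Ag Agp phi2 M.xg2
      xm1 := ex _ _ km' a1 Am Amp.le phi1 M.xm1
      xm2 := ex _ _ km' a2 Am Amp.le phi2 M.xm2
      cr := M.cr
      amp := M.amp.trans (mul_le_mul_of_nonneg_right LΦ hA) }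
  · refine (js_sum (x := x) hG hG0 (M.um x hx)).trans ?_
    have := mul_le_mul_of_nonneg_right LΦ (mul_nonneg (pgn x hx) Amp.le)
    linarith
  · exact (M.lm x hx).trans (mul_le_mul_of_nonneg_right LΦ (sum_nonneg fun v _ => kf_nonneg hw hp _ _ _ _))
  · refine (js_sum (x := x) hG hG0 (M.ur x hx)).trans ?_
    have := mul_le_mul_of_nonneg_right LΦ (mul_nonneg (pmn x hx) Arp.le)
    linarith
  · exact (M.lr x hx).trans (mul_le_mul_of_nonneg_right LΦ (sum_nonneg fun v _ => kf_nonneg hw hp _ _ _ _))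

end

end Pool.Agent.W_7d29a1_C1.Sh21
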