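import Pool.Agent.W_7d29a1_C1.Msv98
import Pool.Agent.W_7d29a1_C1.KAll21

/-!
MP_7d29a1_pr, [C1] SHELL: THE LITERAL SETS OF ONE CONTEXT. (helper47)

`V47` = the data of the outer ball (`V31`, two windows) and the single weights of its lower edge row. `So47` = the seam at the row
`c0 = z.1 - T + 1` with the joint slope of the future at `c3 = z.1 + T + 1`, in fixed cells, and the window bounds of this future (size
`G0` = its value at one column). The inner half is `SI10 G Sb Sp`. `half47` : the structure `Half` of `PosP98`.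
-/

set_option autoImplicit false

namespace Pool.Agent.W_7d29a1_C1.Fr47

open MeasureTheory Finset
open Pool.Agent.W_7d29a1_F Pool.Agent.W_7d29a1_h4g Pool.Agent.W_7d29a1_H Pool.Agent.W_7d29a1_HS
open Pool.Agent.W_7d29a1_C1 (On20)
open Pool.Agent.W_7d29a1_C1.K91 (wt wt_pos)
open Pool.Agent.W_7d29a1_C1.K91P (fw bw meas_fw meas_bw bw_pos)
open Pool.Agent.W_7d29a1_C1.S71 Pool.Agent.W_7d29a1_C1.T10
open Pool.Agent.W_7d29a1_C1.S83 (RowG meas_RowG)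
open Pool.Agent.W_7d29a1_C1.Sh21 (SeamIn js)
open Pool.Agent.W_7d29a1_C1.F74 (cl2)
open Pool.Agent.W_7d29a1_C1.H60 (Cx AT)
open Pool.Agent.W_7d29a1_C1.D31 (NV31 V31 mV31)
open Pool.Agent.W_7d29a1_C1.Mv98

noncomputable section

/-! ### The outer half of the success -/

/-- The numbers of the outer half, functions of the level: scale, cells, window and column of the future (relative to the base column of the
box), envelope `c0 → c3` (relative columns), sizes. -/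
structure NS47 where
  T : ℕ → ℕ
  α₁ : ℕ → ℤ
  β₁ : ℕ → ℤ
  α₂ : ℕ → ℤ
  β₂ : ℕ → ℤ
  ζa : ℕ → ℤ
  ζb : ℕ → ℤ
  ζc : ℕ → ℤ
  κ : ℕ → ℤ → ℤ → ℝ
  Φ : ℕ → ℝ
  V : ℕ → ℝ
  e1 : ℕ → ℝ
  e2 : ℕ → ℝ

namespace NS47

variable (σ : NS47) (j : ℕ) (z : ℕ × ℤ)

/-- The seam row. -/
def c0 : ℕ := z.1 - σ.T j + 1

/-- The row of the future. -/
def c3 : ℕ := z.1 + σ.T j + 1

/-- The envelope in real columns. -/
def k0 (y v : ℤ) : ℝ := σ.κ j (y - z.2) (v - z.2)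

end NS47

/-- The future at the row `c3`. -/
def Fu47 (Γ : Cx) (σ : NS47) (j : ℕ) (z : ℕ × ℤ) (η : Env) : ℤ → ℝ := bw (wt η) Γ.p (σ.c3 j z) (Γ.N - σ.c3 j z)

/-- **THE SET `So`.** -/
def So47 (Γ : Cx) (σ : NS47) (j : ℕ) (z : ℕ × ℤ) : Set Env :=
  {_η | σ.T j ≤ z.1} ∩ ({η | SeamIn 0 (Γ.k + σ.c0 j z) (fw (wt η) Γ.p Cx.l (σ.c0 j z)) (fw (wt η) Γ.p Γ.r (σ.c0 j z)) (z.2 + σ.α₁ j) (z.2 + σ.β₁ j)
    (z.2 + σ.α₂ j) (z.2 + σ.β₂ j)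
    (fun x => js (Icc 0 (Γ.k + σ.c3 j z)) (σ.k0 j z) (Fu47 Γ σ j z η) (Fu47 Γ σ j z η (z.2 + σ.ζc j)) x / σ.Φ j) (σ.e1 j) (σ.e2 j)} ∩
  ({η | ∀ v ∈ Icc (z.2 + σ.ζa j) (z.2 + σ.ζb j), Fu47 Γ σ j z η (z.2 + σ.ζc j) ≤ σ.V j * Fu47 Γ σ j z η v} ∩
   {η | ∀ a ∈ cl2 (z.2 + σ.α₁ j) (z.2 + σ.β₁ j) (z.2 + σ.α₂ j) (z.2 + σ.β₂ j),
    ∑ v ∈ Icc (0 : ℤ) (Γ.k + σ.c3 j z), σ.k0 j z a v * Fu47 Γ σ j z η v ≤ σ.Φ j * Fu47 Γ σ j z η (z.2 + σ.ζc j)}))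

variable {Γ : Cx} {σ : NS47} {j : ℕ} {z : ℕ × ℤ}

theorem meas_Fu47 (v : ℤ) : Measurable fun η => Fu47 Γ σ j z η v := meas_bw _ _ _

theorem Fu47_pos (η : Env) (v : ℤ) : 0 < Fu47 Γ σ j z η v := bw_pos (wt_pos η) (fun _ => by
  unfold Cx.p
  split_ifs <;> exact Real.exp_pos _) _ _ _

theorem mSo47 : MeasurableSet (So47 Γ σ j z) := by
  refine (MeasurableSet.const _).inter ((meas_SeamIn (fun _ => meas_fw _ _ _) (fun _ => meas_fw _ _ _) fun x => ?_).inter (MeasurableSet.inter ?_ ?_))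
  · unfold js
    exact ((Finset.measurable_fun_sum _ fun v _ => (meas_Fu47 v).const_mul _).div (meas_Fu47 _)).div_const _
  · have e : {η | ∀ v ∈ Icc (z.2 + σ.ζa j) (z.2 + σ.ζb j), Fu47 Γ σ j z η (z.2 + σ.ζc j) ≤ σ.V j * Fu47 Γ σ j z η v} =
        ⋂ v ∈ Icc (z.2 + σ.ζa j) (z.2 + σ.ζb j), {η | Fu47 Γ σ j z η (z.2 + σ.ζc j) ≤ σ.V j * Fu47 Γ σ j z η v} := by
      ext η
      simp
    rw [e]
    exact Finset.measurableSet_biInter _ fun v _ => measurableSet_le (meas_Fu47 _) ((meas_Fu47 v).const_mul _)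
  · have e : {η | ∀ a ∈ cl2 (z.2 + σ.α₁ j) (z.2 + σ.β₁ j) (z.2 + σ.α₂ j) (z.2 + σ.β₂ j),
        ∑ v ∈ Icc (0 : ℤ) (Γ.k + σ.c3 j z), σ.k0 j z a v * Fu47 Γ σ j z η v ≤ σ.Φ j * Fu47 Γ σ j z η (z.2 + σ.ζc j)} =
        ⋂ a ∈ cl2 (z.2 + σ.α₁ j) (z.2 + σ.β₁ j) (z.2 + σ.α₂ j) (z.2 + σ.β₂ j),
          {η | ∑ v ∈ Icc (0 : ℤ) (Γ.k + σ.c3 j z), σ.k0 j z a v * Fu47 Γ σ j z η v ≤ σ.Φ j * Fu47 Γ σ j z η (z.2 + σ.ζc j)} := by
      ext η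
      simp
    rw [e]
    exact Finset.measurableSet_biInter _ fun a _ => measurableSet_le
      (Finset.measurable_fun_sum _ fun v _ => (meas_Fu47 v).const_mul _) ((meas_Fu47 _).const_mul _)

/-- The rows which `So` reads. -/
theorem rSo47 : On20 (rout ((z.1 : ℤ) - σ.T j) ((z.1 : ℤ) + σ.T j)) (So47 Γ σ j z) := by
  by_cases hz : σ.T j ≤ z.1
  swap
  · intro η η' _
    exact ⟨fun h => absurd h.1 hz, fun h => absurd h.1 hz⟩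
  have hb : Rd (rout ((z.1 : ℤ) - σ.T j) ((z.1 : ℤ) + σ.T j)) (fun η => Fu47 Γ σ j z η) := rd_bw (by
    unfold NS47.c3
    push_cast
    omega)
  have hf : ∀ l : ℤ → ℝ, Rd (rout ((z.1 : ℤ) - σ.T j) ((z.1 : ℤ) + σ.T j)) (fun η => fw (wt η) Γ.p l (σ.c0 j z)) := fun l =>
    rd_fw' fun i hi => by
      unfold NS47.c0 at hi
      omega
  refine on_inter (on_const _) (on_inter (Rd.on ?_) (on_inter (Rd.on ?_) (Rd.on ?_)))
  · exact rd_SeamIn (hf _) (hf _) (hb.comp fun G => fun x => js (Icc 0 (Γ.k + σ.c3 j z)) (σ.k0 j z) G (G (z.2 + σ.ζc j)) x / σ.Φ j)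
  · exact hb.comp fun G => ∀ v ∈ Icc (z.2 + σ.ζa j) (z.2 + σ.ζb j), G (z.2 + σ.ζc j) ≤ σ.V j * G v
  · exact hb.comp fun G => ∀ a ∈ cl2 (z.2 + σ.α₁ j) (z.2 + σ.β₁ j) (z.2 + σ.α₂ j) (z.2 + σ.β₂ j),
      ∑ v ∈ Icc (0 : ℤ) (Γ.k + σ.c3 j z), σ.k0 j z a v * G v ≤ σ.Φ j * G (z.2 + σ.ζc j)

/-! ### The usable scales -/

/-- **THE SET `V`** : the data of the outer ball and the single weights of its lower edge row. -/
def V47 (μ : Measure ℝ) (s : ℝ) (Γ : Cx) (ν : NV31) (G : Gd) (u : ℝ) (t : ℕ) (c : ℕ × ℤ) : Set Env :=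
  {_ω | ν.Ts (t + ν.m₂) ≤ (G.z (t + ν.m₂) c).1} ∩
    (V31 μ s Γ ν G t c ∩ RowG (ν.row G t c) ⌊ν.cn G t c (sl μ s)⌋ (ν.w t) (u * ν.E t))

variable {μ : Measure ℝ} {s : ℝ} {ν : NV31} {G : Gd} {u : ℝ} {t : ℕ} {c : ℕ × ℤ}

theorem mV47 : MeasurableSet (V47 μ s Γ ν G u t c) := (MeasurableSet.const _).inter (mV31.inter (meas_RowG _ _ _ _))

/-- The rows which `V` reads. -/
theorem rV47 : On20 (rout (((G.z (t + ν.m₂) c).1 : ℤ) - ν.Ts (t + ν.m₂)) (((G.z (t + ν.m₂) c).1 : ℤ) + ν.Ts (t + ν.m₂)))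
    (V47 μ s Γ ν G u t c) := by
  by_cases hT : ν.Ts (t + ν.m₂) ≤ (G.z (t + ν.m₂) c).1
  · exact on_inter (on_const _) (on_inter on_V31 (rd_RowG (Or.inl (by
      unfold NV31.row
      omega))))
  · intro η η' _
    exact ⟨fun h => absurd h.1 hT, fun h => absurd h.1 hT⟩

/-! ### The structure `Half` -/

/-- **ONE COPY.** -/
theorem half47 {L m m₂ g : ℕ} {T : ℕ → ℕ} {S : Finset (ℕ × ℤ)} {Sb : ℕ → Set Env} {Sp : ℕ → ℕ × ℤ → Set Env} (hG : G.Ok L)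
    (hN : G.Nest L (AT T)) (hg : 1 ≤ g) (hm2 : ∀ j < m, j + m₂ ≤ L) (hσ : σ.T = T) (hν : ν.Ts = T) (hm : ν.m₂ = m₂)
    (rb : ∀ j < m, On20 (RB G T j) (Sb j)) (rp : ∀ j < m, ∀ o, On20 (RP T j o) (Sp j o)) :
    P98.Half G (AT T) m g S (fun j c => V47 μ s Γ ν G u j (G.z j c)) (fun j c => So47 Γ σ j (G.z j c)) (SI10 G Sb Sp) := by
  subst hσ
  subst hm
  have hz : ∀ j < m, ∀ c : ℕ × ℤ, G.z j (G.z j c) = G.z j c := fun j hj c => by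
    have := hm2 j hj
    exact hG.z_z le_rfl (by omega) c
  have H := half10 (S := S) (V := fun j z => V47 μ s Γ ν G u j z) (So := fun j z => So47 Γ σ j (G.z j z)) (Sb := Sb) (Sp := Sp) hG hN hg
    hm2 (fun j _ z => mV47) (fun j _ z => mSo47) (fun j _ z => by
      have h1 := rV47 (μ := μ) (s := s) (Γ := Γ) (ν := ν) (G := G) (u := u) (t := j) (c := z)
      rwa [hν] at h1) (fun j _ z => rSo47) rb rp
  refine ⟨H.mV, fun j hj c hc => mSo47, H.oV, H.eV, fun j hj c hc => ?_, fun j hj c hc d hd hcd => ?_, H.oI, H.eI⟩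
  · have h1 := H.oSo j hj c hc
    simp only [hz j hj] at h1
    exact h1
  · show So47 Γ σ j (G.z j c) = So47 Γ σ j (G.z j d)
    rw [hcd]

end

end Pool.Agent.W_7d29a1_C1.Fr47
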