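import Pool.Agent.W_7d29a1_C1.VInM31

/-!
MP_7d29a1_pr, attractor route [C1], SHELL: THE DATA OF THE OUTER BALL, THE TOTAL MASS BOUNDED BY THE FIRST WINDOW. (helper95)

In `far31`, .., `vin31` the total mass of the old content is bounded on the window `W₂` of the far routes: this costs twice the tameness
`q₂` of `W₂`, which is larger than the price of a far alternative at the distance `W₂`; so `hnum` cannot be met. Here it is bounded on the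
first window `W₁` (the mass off `W₁` is small at both edge rows, as for the cross ratio), at the cost `2 q₁ + u₁`, before `l₂`.

`far95`, `un_one95`, `un_sh95`, `dw_shell95`, **`vin95`** : `ω ∈ V31 ∩ LP95`. **`LP95`** = one-sided local regularity of the future from
the standard point `yp` (bound of `Φ` and `V` without `q₂`).
-/

set_option autoImplicit false

namespace Pool.Agent.W_7d29a1_C1.D31

open MeasureTheory Finset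
open Pool.Agent.W_7d29a1_F Pool.Agent.W_7d29a1_h4g Pool.Agent.W_7d29a1_H Pool.Agent.W_7d29a1_HS
open Pool.Agent.W_7d29a1_C1.S71 Pool.Agent.W_7d29a1_C1.T10
open Pool.Agent.W_7d29a1_C1.H60 (Cx AT mem_AT)
open Pool.Agent.W_7d29a1_C1.K91 (Grp Box wt wt_pos)
open Pool.Agent.W_7d29a1_C1.K91P
open Pool.Agent.W_7d29a1_C1.U31 (sum_fw_bw ms ms_nonneg cross_log)
open Pool.Agent.W_7d29a1_C1.U16 (ker fw_ker bw_ker ker_nonneg ker_eq_zero)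
open Pool.Agent.W_7d29a1_C1.FarW89 (nk nk_nonneg nk_eq_zero ker_nk bl)

noncomputable section

section abs

variable {I : Finset ℤ} {X F : ℤ → ℝ} {k kap : ℤ → ℤ → ℝ}

/-- **The joint far mass of one group, the total mass bounded by the FIRST window `W₁`.** `sh x < J` shells of the far starts, `sh' z` of the far ends; `u`, `a`, `r` = levels at the
place: envelope, lower bound of the old kernel, local regularity; `B`, `B'` their sums, `κ`, `κ'` the prices of the far alternatives. -/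
theorem far95 {cen cen' W W₁ : ℝ} {d : ℤ → ℤ → ℝ} {cK σ : ℝ} {u r a u' r' a' : ℤ → ℝ} {sh sh' : ℤ → ℕ} {J : ℕ} {B B' κ κ' : ℕ → ℝ}
    {y yp : ℤ} {q u₀ g₁ gf : ℝ} (hX : ∀ x ∈ I, 0 ≤ X x) (hF : ∀ z ∈ I, 0 ≤ F z) (hk : ∀ x ∈ I, ∀ z ∈ I, 0 ≤ k x z)
    (hkap0 : ∀ x ∈ I, ∀ z ∈ I, 0 ≤ kap x z) (hd : ∀ x z, 0 ≤ d x z) (hσ : σ ≤ cK)
    -- the envelope, seen from the start and from the end
    (hkx : ∀ x ∈ I, W < |(x : ℝ) - cen| → ∀ z ∈ I, kap x z ≤ Real.exp (u x - cK * d x z))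
    (hkz : ∀ z ∈ I, W < |(z : ℝ) - cen'| → ∀ x ∈ I, kap x z ≤ Real.exp (u' z - cK * d x z))
    -- lower bound of the old kernel and local regularity of the profiles at the far places
    (hlx : ∀ x ∈ I, W < |(x : ℝ) - cen| → ∃ z₀ ∈ I, Real.exp (-a x) ≤ k x z₀ ∧
      ∀ z ∈ I, 0 < kap x z → F z ≤ Real.exp (r x + σ * d x z) * F z₀)
    (hlz : ∀ z ∈ I, W < |(z : ℝ) - cen'| → ∃ x₀ ∈ I, Real.exp (-a' z) ≤ k x₀ z ∧
      ∀ x ∈ I, 0 < kap x z → X x ≤ Real.exp (r' z + σ * d x z) * X x₀)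
    -- the far alternatives of the old content
    (hsh : ∀ x ∈ I, W < |(x : ℝ) - cen| → sh x < J ∧ u x + r x + a x ≤ B (sh x))
    (hsh' : ∀ z ∈ I, W < |(z : ℝ) - cen'| → sh' z < J ∧ u' z + r' z + a' z ≤ B' (sh' z))
    (hx : ∀ j < J, ∑ x ∈ I.filter (fun x : ℤ => W < |(x : ℝ) - cen| ∧ sh x = j), X x * ∑ z ∈ I, k x z * F z ≤
      Real.exp (-κ j) * ∑ x ∈ I, X x * ∑ z ∈ I, k x z * F z)
    (hz : ∀ j < J, ∑ z ∈ I.filter (fun z : ℤ => W < |(z : ℝ) - cen'| ∧ sh' z = j), F z * ∑ x ∈ I, k x z * X x ≤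
      Real.exp (-κ' j) * ∑ x ∈ I, X x * ∑ z ∈ I, k x z * F z)
    (hB : ∀ j < J, B j + g₁ ≤ κ j) (hB' : ∀ j < J, B' j + g₁ ≤ κ' j)
    -- the first window: the mass off it, tameness and the old kernel on it
    (hx0 : ∑ x ∈ I.filter (fun x : ℤ => W₁ < |(x : ℝ) - cen|), X x * ∑ z ∈ I, k x z * F z ≤
      1 / 4 * ∑ x ∈ I, X x * ∑ z ∈ I, k x z * F z)
    (hz0 : ∑ z ∈ I.filter (fun z : ℤ => W₁ < |(z : ℝ) - cen'|), F z * ∑ x ∈ I, k x z * X x ≤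
      1 / 4 * ∑ x ∈ I, X x * ∑ z ∈ I, k x z * F z)
    (hXw : ∀ x ∈ I, |(x : ℝ) - cen| ≤ W₁ → X x ≤ Real.exp q * X y)
    (hFw : ∀ z ∈ I, |(z : ℝ) - cen'| ≤ W₁ → F z ≤ Real.exp q * F yp)
    (hkw : ∀ x ∈ I, ∀ z ∈ I, |(x : ℝ) - cen| ≤ W₁ → |(z : ℝ) - cen'| ≤ W₁ → k x z ≤ Real.exp u₀)
    (hXy : 0 ≤ X y) (hFy : 0 ≤ F yp)
    -- numbers
    (hnum : 4 * (I.card : ℝ) * J * (I.card : ℝ) ^ 2 * Real.exp (2 * q + u₀ + gf) ≤ Real.exp g₁) :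
    fsum I cen cen' W kap X F ≤ Real.exp (-gf) * (X y * F yp) := by
  classical
  set H : ℤ → ℝ := fun x => ∑ z ∈ I, k x z * F z with hH
  set Z : ℝ := ∑ x ∈ I, X x * H x with hZ
  set Fx : Finset ℤ := I.filter fun x : ℤ => W < |(x : ℝ) - cen| with hFx
  set Fz : Finset ℤ := I.filter fun z : ℤ => W < |(z : ℝ) - cen'| with hFz
  have hFxI : Fx ⊆ I := filter_subset _ _
  have hFzI : Fz ⊆ I := filter_subset _ _
  have hH0 : ∀ x ∈ I, 0 ≤ H x := fun x hx' => sum_nonneg fun z hz' => mul_nonneg (hk x hx' z hz') (hF z hz')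
  have hm0 : ∀ x ∈ I, 0 ≤ X x * H x := fun x hx' => mul_nonneg (hX x hx') (hH0 x hx')
  have hA0 : ∀ z ∈ I, 0 ≤ ∑ x ∈ I, k x z * X x := fun z hz' =>
    sum_nonneg fun x hx' => mul_nonneg (hk x hx' z hz') (hX x hx')
  have hn0 : ∀ z ∈ I, 0 ≤ F z * ∑ x ∈ I, k x z * X x := fun z hz' => mul_nonneg (hF z hz') (hA0 z hz')
  have hZ0 : 0 ≤ Z := sum_nonneg hm0
  -- far starts, far ends: the weighted sums
  have s1 : ∑ x ∈ Fx, Real.exp (u x + r x + a x) * (X x * H x) ≤ J * (Real.exp (-g₁) * Z) := by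
    refine shell_sum (sh := sh) (B := B) (κ := κ) hZ0 (fun x hx' => hm0 x (hFxI hx')) (fun x hx' => ?_) (fun x hx' => ?_)
      (fun j hj => ?_) hB
    · rw [hFx, mem_filter] at hx'
      exact (hsh x hx'.1 hx'.2).1
    · rw [hFx, mem_filter] at hx'
      exact (hsh x hx'.1 hx'.2).2
    · rw [hFx, filter_filter]
      exact hx j hj
  have s2 : ∑ z ∈ Fz, Real.exp (u' z + r' z + a' z) * (F z * ∑ x ∈ I, k x z * X x) ≤ J * (Real.exp (-g₁) * Z) := by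
    refine shell_sum (sh := sh') (B := B') (κ := κ') hZ0 (fun z hz' => hn0 z (hFzI hz')) (fun z hz' => ?_) (fun z hz' => ?_)
      (fun j hj => ?_) hB'
    · rw [hFz, mem_filter] at hz'
      exact (hsh' z hz'.1 hz'.2).1
    · rw [hFz, mem_filter] at hz'
      exact (hsh' z hz'.1 hz'.2).2
    · rw [hFz, filter_filter]
      exact hz j hj
  -- the two halves of the joint far mass
  have f1 : ∑ x ∈ Fx, ∑ z ∈ I, X x * kap x z * F z ≤ I.card * (J * (Real.exp (-g₁) * Z)) := by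
    refine (far_x (k := k) hFxI hX hF hk hd (fun x hx' z hz' => ?_) (fun x hx' => ?_) hσ).trans
      (mul_le_mul_of_nonneg_left s1 (Nat.cast_nonneg _))
    · rw [hFx, mem_filter] at hx'
      exact hkx x hx'.1 hx'.2 z hz'
    · rw [hFx, mem_filter] at hx'
      exact hlx x hx'.1 hx'.2
  have f2 : ∑ z ∈ Fz, ∑ x ∈ I, F z * kap x z * X x ≤ I.card * (J * (Real.exp (-g₁) * Z)) := by
    refine (far_x (X := F) (F := X) (k := fun z x => k x z) (kap := fun z x => kap x z) (d := fun z x => d x z) hFzI hF hX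
      (fun z hz' x hx' => hk x hx' z hz') (fun z x => hd x z) (fun z hz' x hx' => ?_) (fun z hz' => ?_) hσ).trans
      (mul_le_mul_of_nonneg_left s2 (Nat.cast_nonneg _))
    · rw [hFz, mem_filter] at hz'
      exact hkz z hz'.1 hz'.2 x hx'
    · rw [hFz, mem_filter] at hz'
      exact hlz z hz'.1 hz'.2
  have hterm : ∀ x ∈ I, ∀ z ∈ I, 0 ≤ X x * kap x z * F z := fun x hx' z hz' =>
    mul_nonneg (mul_nonneg (hX x hx') (hkap0 x hx' z hz')) (hF z hz')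
  have f3 : fsum I cen cen' W kap X F ≤ ∑ x ∈ Fx, ∑ z ∈ I, X x * kap x z * F z + ∑ z ∈ Fz, ∑ x ∈ I, F z * kap x z * X x := by
    have e1 : ∑ x ∈ Fx, ∑ z ∈ I, X x * kap x z * F z = ∑ x ∈ I, ∑ z ∈ I, if W < |(x : ℝ) - cen| then X x * kap x z * F z else 0 := by
      rw [hFx, sum_filter]
      refine sum_congr rfl fun x _ => ?_
      split_ifs <;> simp
    have e2 : ∑ z ∈ Fz, ∑ x ∈ I, F z * kap x z * X x = ∑ x ∈ I, ∑ z ∈ I, if W < |(z : ℝ) - cen'| then X x * kap x z * F z else 0 := by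
      rw [hFz, sum_filter, sum_comm]
      refine sum_congr rfl fun z _ => ?_
      split_ifs
      · exact sum_congr rfl fun x _ => by ring
      · simp
    rw [e1, e2, ← sum_add_distrib]
    unfold fsum
    refine sum_le_sum fun x hx' => ?_
    rw [← sum_add_distrib]
    refine sum_le_sum fun z hz' => ?_
    have ht := hterm x hx' z hz'
    by_cases c1 : W < |(x : ℝ) - cen|
    · rw [if_neg (fun h => absurd h.1 (not_le.2 c1)), if_pos c1]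
      split_ifs <;> linarith
    · by_cases c2 : W < |(z : ℝ) - cen'|
      · rw [if_neg (fun h => absurd h.2 (not_le.2 c2)), if_neg c1, if_pos c2]
        linarith
      · rw [if_pos ⟨not_lt.1 c1, not_lt.1 c2⟩, if_neg c1, if_neg c2]
        linarith
  -- the total mass is central
  set Gx : Finset ℤ := I.filter fun x : ℤ => W₁ < |(x : ℝ) - cen| with hGx
  set Gz : Finset ℤ := I.filter fun z : ℤ => W₁ < |(z : ℝ) - cen'| with hGz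
  have hnear : Z ≤ 2 * ((I.card : ℝ) ^ 2 * Real.exp (2 * q + u₀) * (X y * F yp)) := by
    have e0 : Z = ∑ x ∈ I, ∑ z ∈ I, X x * (k x z * F z) := by
      rw [hZ]
      exact sum_congr rfl fun x _ => mul_sum _ _ _
    have hpt : ∀ x ∈ I, ∀ z ∈ I, X x * (k x z * F z) ≤ Real.exp (2 * q + u₀) * (X y * F yp) +
        ((if W₁ < |(x : ℝ) - cen| then X x * (k x z * F z) else 0) + if W₁ < |(z : ℝ) - cen'| then F z * (k x z * X x) else 0) := by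
      intro x hx' z hz'
      have t0 : 0 ≤ X x * (k x z * F z) := mul_nonneg (hX x hx') (mul_nonneg (hk x hx' z hz') (hF z hz'))
      have t1 : 0 ≤ Real.exp (2 * q + u₀) * (X y * F yp) := mul_nonneg (Real.exp_pos _).le (mul_nonneg hXy hFy)
      by_cases c1 : W₁ < |(x : ℝ) - cen|
      · rw [if_pos c1]
        split_ifs with c2
        · have : 0 ≤ F z * (k x z * X x) := mul_nonneg (hF z hz') (mul_nonneg (hk x hx' z hz') (hX x hx'))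
          linarith
        · linarith
      · rw [if_neg c1]
        by_cases c2 : W₁ < |(z : ℝ) - cen'|
        · rw [if_pos c2]
          have e : F z * (k x z * X x) = X x * (k x z * F z) := by ring
          rw [e]
          linarith
        · rw [if_neg c2]
          have n1 := hXw x hx' (not_lt.1 c1)
          have n2 := hFw z hz' (not_lt.1 c2)
          have n3 := hkw x hx' z hz' (not_lt.1 c1) (not_lt.1 c2)
          have n4 : X x * (k x z * F z) ≤ (Real.exp q * X y) * (Real.exp u₀ * (Real.exp q * F yp)) :=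
            mul_le_mul n1 (mul_le_mul n3 n2 (hF z hz') (Real.exp_pos _).le) (mul_nonneg (hk x hx' z hz') (hF z hz'))
              (mul_nonneg (Real.exp_pos _).le hXy)
          have n5 : (Real.exp q * X y) * (Real.exp u₀ * (Real.exp q * F yp)) = Real.exp (2 * q + u₀) * (X y * F yp) := by
            have : Real.exp (2 * q + u₀) = Real.exp q * Real.exp u₀ * Real.exp q := by
              rw [← Real.exp_add, ← Real.exp_add]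
              congr 1
              ring
            rw [this]
            ring
          linarith
    have e1 : ∑ x ∈ I, ∑ z ∈ I, (if W₁ < |(x : ℝ) - cen| then X x * (k x z * F z) else 0) = ∑ x ∈ Gx, X x * H x := by
      rw [hGx, sum_filter]
      refine sum_congr rfl fun x _ => ?_
      split_ifs
      · exact (mul_sum _ _ _).symm
      · simp
    have e2 : ∑ x ∈ I, ∑ z ∈ I, (if W₁ < |(z : ℝ) - cen'| then F z * (k x z * X x) else 0) =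
        ∑ z ∈ Gz, F z * ∑ x ∈ I, k x z * X x := by
      rw [hGz, sum_filter, sum_comm]
      refine sum_congr rfl fun z _ => ?_
      split_ifs
      · exact (mul_sum _ _ _).symm
      · simp
    have h1 : Z ≤ ∑ x ∈ I, ∑ z ∈ I, (Real.exp (2 * q + u₀) * (X y * F yp) +
        ((if W₁ < |(x : ℝ) - cen| then X x * (k x z * F z) else 0) + if W₁ < |(z : ℝ) - cen'| then F z * (k x z * X x) else 0)) := by
      rw [e0]
      exact sum_le_sum fun x hx' => sum_le_sum fun z hz' => hpt x hx' z hz'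
    have h2 : ∑ x ∈ I, ∑ z ∈ I, (Real.exp (2 * q + u₀) * (X y * F yp) +
        ((if W₁ < |(x : ℝ) - cen| then X x * (k x z * F z) else 0) + if W₁ < |(z : ℝ) - cen'| then F z * (k x z * X x) else 0)) =
        (I.card : ℝ) ^ 2 * Real.exp (2 * q + u₀) * (X y * F yp) + (∑ x ∈ Gx, X x * H x + ∑ z ∈ Gz, F z * ∑ x ∈ I, k x z * X x) := by
      rw [← e1, ← e2]
      simp only [sum_add_distrib, sum_const, nsmul_eq_mul]
      ring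
    rw [h2] at h1
    linarith
  -- the end
  have hJ0 : (0 : ℝ) ≤ J := Nat.cast_nonneg _
  have hI0 : (0 : ℝ) ≤ I.card := Nat.cast_nonneg _
  have hXF : 0 ≤ X y * F yp := mul_nonneg hXy hFy
  calc fsum I cen cen' W kap X F ≤ 2 * (I.card * (J * (Real.exp (-g₁) * Z))) := by linarith
    _ = 2 * I.card * J * Real.exp (-g₁) * Z := by ring
    _ ≤ 2 * I.card * J * Real.exp (-g₁) * (2 * ((I.card : ℝ) ^ 2 * Real.exp (2 * q + u₀) * (X y * F yp))) :=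
        mul_le_mul_of_nonneg_left hnear (by positivity)
    _ = Real.exp (-g₁) * (4 * (I.card : ℝ) * J * (I.card : ℝ) ^ 2 * Real.exp (2 * q + u₀)) * (X y * F yp) := by ring
    _ ≤ Real.exp (-gf) * (X y * F yp) := by
        refine mul_le_mul_of_nonneg_right ?_ hXF
        have h1 : 4 * (I.card : ℝ) * J * (I.card : ℝ) ^ 2 * Real.exp (2 * q + u₀) * Real.exp gf ≤ Real.exp g₁ := by
          rw [mul_assoc, ← Real.exp_add]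
          exact hnum
        have h2 : 4 * (I.card : ℝ) * J * (I.card : ℝ) ^ 2 * Real.exp (2 * q + u₀) ≤ Real.exp g₁ * Real.exp (-gf) := by
          have h3 := mul_le_mul_of_nonneg_right h1 (Real.exp_pos (-gf)).le
          rw [mul_assoc _ (Real.exp gf), ← Real.exp_add, add_neg_cancel, Real.exp_zero, mul_one] at h3
          exact h3
        have h4 := mul_le_mul_of_nonneg_left h2 (Real.exp_pos (-g₁)).le
        rw [← mul_assoc (Real.exp (-g₁)) (Real.exp g₁), ← Real.exp_add, neg_add_cancel, Real.exp_zero, one_mul] at h4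
        exact h4


end abs

variable {w : ℕ → ℤ → ℝ} {p : ℕ → ℝ} {l r m : ℤ → ℝ} {X lo hi : ℤ} {N : ℕ}

/-- **The joint far mass of one group, from the old content.** First window `W₁`. -/
theorem un_one95 (hw : ∀ k y, 0 < w k y) (hp : ∀ k, 0 < p k) (hm : ∀ y, 0 ≤ m y) (hlo : ∀ y, y < lo → m y = 0)
    (hhi : ∀ y, hi - N < y → m y = 0) (hb : lo + N ≤ hi) {i n : ℕ} (hin : i + n ≤ N) {k kap : ℤ → ℤ → ℝ}
    {G : ℤ → ℝ} {N₀ : ℝ} (hN₀ : 0 < N₀) (hG0 : ∀ z, 0 ≤ G z) (hk : ∀ x z, 0 ≤ k x z)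
    (hG : ∀ x z, ker w p i n x z * bw w p (i + n) (N - (i + n)) z = N₀ * (k x z * G z))
    {cen cen' W W₁ : ℝ} {d : ℤ → ℤ → ℝ} {cK σ : ℝ} {u r a u' r' a' : ℤ → ℝ} {sh sh' : ℤ → ℕ} {J : ℕ} {B B' κ κ' : ℕ → ℝ}
    {y yp : ℤ} {q u₀ g₁ gf : ℝ} (hkap0 : ∀ x z, 0 ≤ kap x z) (hd : ∀ x z, 0 ≤ d x z) (hσ : σ ≤ cK)
    (hkx : ∀ x ∈ Icc lo hi, W < |(x : ℝ) - cen| → ∀ z ∈ Icc lo hi, kap x z ≤ Real.exp (u x - cK * d x z))
    (hkz : ∀ z ∈ Icc lo hi, W < |(z : ℝ) - cen'| → ∀ x ∈ Icc lo hi, kap x z ≤ Real.exp (u' z - cK * d x z))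
    (hlx : ∀ x ∈ Icc lo hi, W < |(x : ℝ) - cen| → ∃ z₀ ∈ Icc lo hi, Real.exp (-a x) ≤ k x z₀ ∧
      ∀ z ∈ Icc lo hi, 0 < kap x z → G z ≤ Real.exp (r x + σ * d x z) * G z₀)
    (hlz : ∀ z ∈ Icc lo hi, W < |(z : ℝ) - cen'| → ∃ x₀ ∈ Icc lo hi, Real.exp (-a' z) ≤ k x₀ z ∧
      ∀ x ∈ Icc lo hi, 0 < kap x z → fw w p m i x ≤ Real.exp (r' z + σ * d x z) * fw w p m i x₀)
    (hsh : ∀ x ∈ Icc lo hi, W < |(x : ℝ) - cen| → sh x < J ∧ u x + r x + a x ≤ B (sh x))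
    (hsh' : ∀ z ∈ Icc lo hi, W < |(z : ℝ) - cen'| → sh' z < J ∧ u' z + r' z + a' z ≤ B' (sh' z))
    (hx : ∀ j < J, ms w p N m i ((Icc lo hi).filter (fun x : ℤ => W < |(x : ℝ) - cen| ∧ sh x = j)) ≤
      Real.exp (-κ j) * ∑ x ∈ Icc lo hi, m x * bw w p 0 N x)
    (hz : ∀ j < J, ms w p N m (i + n) ((Icc lo hi).filter (fun z : ℤ => W < |(z : ℝ) - cen'| ∧ sh' z = j)) ≤
      Real.exp (-κ' j) * ∑ x ∈ Icc lo hi, m x * bw w p 0 N x)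
    (hB : ∀ j < J, B j + g₁ ≤ κ j) (hB' : ∀ j < J, B' j + g₁ ≤ κ' j)
    (hx0 : ms w p N m i ((Icc lo hi).filter (fun x : ℤ => W₁ < |(x : ℝ) - cen|)) ≤ 1 / 4 * ∑ x ∈ Icc lo hi, m x * bw w p 0 N x)
    (hz0 : ms w p N m (i + n) ((Icc lo hi).filter (fun z : ℤ => W₁ < |(z : ℝ) - cen'|)) ≤ 1 / 4 * ∑ x ∈ Icc lo hi, m x * bw w p 0 N x)
    (hXw : ∀ x ∈ Icc lo hi, |(x : ℝ) - cen| ≤ W₁ → fw w p m i x ≤ Real.exp q * fw w p m i y)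
    (hFw : ∀ z ∈ Icc lo hi, |(z : ℝ) - cen'| ≤ W₁ → G z ≤ Real.exp q * G yp)
    (hkw : ∀ x ∈ Icc lo hi, ∀ z ∈ Icc lo hi, |(x : ℝ) - cen| ≤ W₁ → |(z : ℝ) - cen'| ≤ W₁ → k x z ≤ Real.exp u₀)
    (hnum : 4 * ((Icc lo hi).card : ℝ) * J * ((Icc lo hi).card : ℝ) ^ 2 * Real.exp (2 * q + u₀ + gf) ≤ Real.exp g₁) :
    fsum (Icc lo hi) cen cen' W kap (fw w p m i) G ≤ Real.exp (-gf) * (fw w p m i y * G yp) := by
  have hf0 : ∀ x, 0 ≤ fw w p m i x := fun x => fw_nonneg hw hp hm i x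
  have eT : ∑ x ∈ Icc lo hi, fw w p m i x * ∑ z ∈ Icc lo hi, k x z * G z = N₀⁻¹ * ∑ x ∈ Icc lo hi, m x * bw w p 0 N x := by
    rw [← sum_fw_bw hlo hhi hb i (by omega), mul_sum]
    exact sum_congr rfl fun x hx' => start_eq hlo hhi hin hN₀ hG hx'
  have hinv : 0 ≤ N₀⁻¹ := (inv_pos.2 hN₀).le
  refine far95 (W₁ := W₁) (fun x _ => hf0 x) (fun z _ => hG0 z) (fun x _ z _ => hk x z) (fun x _ z _ => hkap0 x z) hd hσ hkx hkz hlx hlz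
    hsh hsh' (fun j hj => ?_) (fun j hj => ?_) hB hB' ?_ ?_ hXw hFw hkw (hf0 y) (hG0 yp) hnum
  · rw [eT, sum_congr rfl fun x hx' => start_eq hlo hhi hin hN₀ hG (mem_filter.1 hx').1, ← mul_sum]
    have h1 := mul_le_mul_of_nonneg_left (hx j hj) hinv
    unfold ms at h1
    linarith
  · rw [eT, sum_congr rfl fun z hz' => end_eq hlo hN₀ hG (mem_filter.1 hz').1, ← mul_sum]
    have h1 := mul_le_mul_of_nonneg_left (hz j hj) hinv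
    unfold ms at h1
    linarith
  · rw [eT, sum_congr rfl fun x hx' => start_eq hlo hhi hin hN₀ hG (mem_filter.1 hx').1, ← mul_sum]
    have h1 := mul_le_mul_of_nonneg_left hx0 hinv
    unfold ms at h1
    linarith
  · rw [eT, sum_congr rfl fun z hz' => end_eq hlo hN₀ hG (mem_filter.1 hz').1, ← mul_sum]
    have h1 := mul_le_mul_of_nonneg_left hz0 hinv
    unfold ms at h1
    linarith

/-- **The joint far mass of one group, by shells.** -/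
theorem un_sh95 (hw : ∀ k y, 0 < w k y) (hp : ∀ k, 0 < p k) (hm : ∀ y, 0 ≤ m y) (hlo : ∀ y, y < lo → m y = 0)
    (hhi : ∀ y, hi - N < y → m y = 0) (hb : lo + N ≤ hi) {i n : ℕ} (hin : i + n ≤ N) {k kap : ℤ → ℤ → ℝ}
    {G : ℤ → ℝ} {N₀ : ℝ} (hN₀ : 0 < N₀) (hG0 : ∀ z, 0 ≤ G z) (hk : ∀ x z, 0 ≤ k x z)
    (hG : ∀ x z, ker w p i n x z * bw w p (i + n) (N - (i + n)) z = N₀ * (k x z * G z))
    {cen cen' W₁ : ℝ} {Wd : ℕ → ℝ} {l₁ L : ℕ} (hl : l₁ ≤ L) {cK σ : ℝ} (hσ : σ ≤ cK) (hkap0 : ∀ x z, 0 ≤ kap x z)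
    {B κ : ℕ → ℝ}
    (hs : Lc31 (Icc lo hi) (fun x => (x : ℝ) - cen) (fun z => (z : ℝ) - cen') Wd l₁ L k kap G cK σ B)
    (he : Lc31 (Icc lo hi) (fun z => (z : ℝ) - cen') (fun x => (x : ℝ) - cen) Wd l₁ L (fun z x => k x z) (fun z x => kap x z)
      (fw w p m i) cK σ B)
    (hx : ∀ l, l₁ ≤ l → l ≤ L → ms w p N m i (Sh (Icc lo hi) (fun x => (x : ℝ) - cen) Wd L l) ≤
      Real.exp (-κ l) * ∑ x ∈ Icc lo hi, m x * bw w p 0 N x)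
    (hz : ∀ l, l₁ ≤ l → l ≤ L → ms w p N m (i + n) (Sh (Icc lo hi) (fun z => (z : ℝ) - cen') Wd L l) ≤
      Real.exp (-κ l) * ∑ x ∈ Icc lo hi, m x * bw w p 0 N x)
    {y yp : ℤ} {q u₀ g₁ gf : ℝ} (hBκ : ∀ l, l₁ ≤ l → l ≤ L → B l + g₁ ≤ κ l)
    (hx0 : ms w p N m i ((Icc lo hi).filter (fun x : ℤ => W₁ < |(x : ℝ) - cen|)) ≤ 1 / 4 * ∑ x ∈ Icc lo hi, m x * bw w p 0 N x)
    (hz0 : ms w p N m (i + n) ((Icc lo hi).filter (fun z : ℤ => W₁ < |(z : ℝ) - cen'|)) ≤ 1 / 4 * ∑ x ∈ Icc lo hi, m x * bw w p 0 N x)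
    (hXw : ∀ x ∈ Icc lo hi, |(x : ℝ) - cen| ≤ W₁ → fw w p m i x ≤ Real.exp q * fw w p m i y)
    (hFw : ∀ z ∈ Icc lo hi, |(z : ℝ) - cen'| ≤ W₁ → G z ≤ Real.exp q * G yp)
    (hkw : ∀ x ∈ Icc lo hi, ∀ z ∈ Icc lo hi, |(x : ℝ) - cen| ≤ W₁ → |(z : ℝ) - cen'| ≤ W₁ → k x z ≤ Real.exp u₀)
    (hnum : 4 * ((Icc lo hi).card : ℝ) * (L + 1) * ((Icc lo hi).card : ℝ) ^ 2 * Real.exp (2 * q + u₀ + gf) ≤ Real.exp g₁) :
    fsum (Icc lo hi) cen cen' (Wd l₁) kap (fw w p m i) G ≤ Real.exp (-gf) * (fw w p m i y * G yp) := by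
  classical
  obtain ⟨u, r', a, h1⟩ := hs.choose hl
  obtain ⟨u', r'', a', h2⟩ := he.choose hl
  have hZ0 : 0 ≤ ∑ x ∈ Icc lo hi, m x * bw w p 0 N x := sum_nonneg fun x _ => mul_nonneg (hm x) (bw_pos hw hp _ _ _).le
  have hms : ∀ (k' : ℕ) (c : ℝ), (∀ l, l₁ ≤ l → l ≤ L → ms w p N m k' (Sh (Icc lo hi) (fun x => (x : ℝ) - c) Wd L l) ≤
      Real.exp (-κ l) * ∑ x ∈ Icc lo hi, m x * bw w p 0 N x) → ∀ j < L + 1,
      ms w p N m k' ((Icc lo hi).filter (fun x : ℤ => Wd l₁ < |(x : ℝ) - c| ∧ shx Wd L ((x : ℝ) - c) = j)) ≤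
      Real.exp (-(if j < l₁ then B j + g₁ else κ j)) * ∑ x ∈ Icc lo hi, m x * bw w p 0 N x := by
    intro k' c hc j hj
    by_cases hjl : j < l₁
    · have e : (Icc lo hi).filter (fun x : ℤ => Wd l₁ < |(x : ℝ) - c| ∧ shx Wd L ((x : ℝ) - c) = j) = ∅ := by
        rw [filter_eq_empty_iff]
        rintro x _ ⟨h3, h4⟩
        have := (shx_spec hl h3).1
        omega
      rw [e]
      unfold ms
      rw [sum_empty]
      positivity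
    · rw [if_neg hjl]
      refine (ms_mono hw hp hm k' ?_).trans (hc j (not_lt.1 hjl) (by omega))
      intro x hx'
      rw [mem_filter] at hx'
      have h3 := (shx_spec hl hx'.2.1).2
      rw [hx'.2.2] at h3
      exact mem_filter.2 ⟨hx'.1, h3⟩
  refine un_one95 (W₁ := W₁) (sh := fun x => shx Wd L ((x : ℝ) - cen)) (sh' := fun z => shx Wd L ((z : ℝ) - cen')) (J := L + 1)
    (B := B) (B' := B) (κ := fun j => if j < l₁ then B j + g₁ else κ j) (κ' := fun j => if j < l₁ then B j + g₁ else κ j)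
    (u := u) (r := r') (a := a) (u' := u') (r' := r'') (a' := a')
    (d := fun x z => |((z : ℝ) - cen') - ((x : ℝ) - cen)|) (cK := cK) (σ := σ) (u₀ := u₀) (g₁ := g₁)
    hw hp hm hlo hhi hb hin hN₀ hG0 hk hG hkap0 (fun x z => abs_nonneg _) hσ
    (fun x hx' hxW z hz' => (h1 x hx' hxW).2.1 z hz') (fun z hz' hzW x hx' => ?_)
    (fun x hx' hxW => (h1 x hx' hxW).2.2) (fun z hz' hzW => ?_)
    (fun x hx' hxW => ⟨by have := shx_le Wd L ((x : ℝ) - cen); omega, (h1 x hx' hxW).1⟩)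
    (fun z hz' hzW => ⟨by have := shx_le Wd L ((z : ℝ) - cen'); omega, (h2 z hz' hzW).1⟩)
    (hms i cen hx) (hms (i + n) cen' hz) (fun j hj => ?_) (fun j hj => ?_) hx0 hz0 hXw hFw hkw ?_
  · have h3 := (h2 z hz' hzW).2.1 x hx'
    rw [abs_sub_comm] at h3
    exact h3
  · obtain ⟨x₀, hx₀, h3, h4⟩ := (h2 z hz' hzW).2.2
    refine ⟨x₀, hx₀, h3, fun x hx' hk' => ?_⟩
    have h5 := h4 x hx' hk'
    rw [abs_sub_comm] at h5
    exact h5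
  · split_ifs with h3
    · exact le_rfl
    · exact hBκ j (not_lt.1 h3) (by omega)
  · split_ifs with h3
    · exact le_rfl
    · exact hBκ j (not_lt.1 h3) (by omega)
  · push_cast
    exact hnum

/-- **`uncovered` gives the data of the block, two windows, the total mass bounded by the first one.** `nn j` = number of rows from the lower edge row `i` to the row of the far mass
of the shell `j`, `A j` = its far places. -/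
theorem dw_shell95 (hw : ∀ k y, 0 < w k y) (hp : ∀ k, 0 < p k) (h : Box l r X lo hi N) {i n : ℕ} (hin : i + n ≤ N) {k kap : ℤ → ℤ → ℝ}
    {G : ℤ → ℝ} {N₀ : ℝ} (hN₀ : 0 < N₀) (hG0 : ∀ z, 0 ≤ G z) (hk : ∀ x z, 0 ≤ k x z)
    (hG : ∀ x z, ker w p i n x z * bw w p (i + n) (N - (i + n)) z = N₀ * (k x z * G z))
    {cen cen' : ℝ} {Wd : ℕ → ℝ} {l₁ l₂ L : ℕ} (h12 : l₁ ≤ l₂) (hl : l₂ ≤ L) {cK σ : ℝ} (hσ : σ ≤ cK) (hkap0 : ∀ x z, 0 ≤ kap x z)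
    {B κ : ℕ → ℝ}
    -- losses
    (hs : Lc31 (Icc lo hi) (fun x => (x : ℝ) - cen) (fun z => (z : ℝ) - cen') Wd l₂ L k kap G cK σ B)
    (heL : Lc31 (Icc lo hi) (fun z => (z : ℝ) - cen') (fun x => (x : ℝ) - cen) Wd l₂ L (fun z x => k x z) (fun z x => kap x z)
      (fw w p l i) cK σ B)
    (heR : Lc31 (Icc lo hi) (fun z => (z : ℝ) - cen') (fun x => (x : ℝ) - cen) Wd l₂ L (fun z x => k x z) (fun z x => kap x z)
      (fw w p r i) cK σ B)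
    -- stay and far masses
    {nn : ℕ → ℕ} {A : ℕ → Finset ℤ} (hn1 : ∀ j, l₁ ≤ j → j ≤ L → n ≤ nn j) (hn2 : ∀ j, l₁ ≤ j → j ≤ L → i + nn j ≤ N)
    (hsi : ∀ j, l₁ ≤ j → j ≤ L → ∀ x ∈ Icc lo hi, x ≤ hi - N + i → InS Wd L j ((x : ℝ) - cen) →
      ∑ v ∈ Icc lo hi \ A j, ker w p i (nn j) x v * bw w p (i + nn j) (N - (i + nn j)) v ≤ 1 / 2 * bw w p i (N - i) x)
    (hsn : ∀ j, l₁ ≤ j → j ≤ L → ∀ z ∈ Icc lo hi, z ≤ hi - N + (i + n : ℕ) → InS Wd L j ((z : ℝ) - cen') →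
      ∑ v ∈ Icc lo hi \ A j, ker w p (i + n) (nn j - n) z v * bw w p (i + n + (nn j - n)) (N - (i + n + (nn j - n))) v ≤
        1 / 2 * bw w p (i + n) (N - (i + n)) z)
    (hfL : ∀ j, l₁ ≤ j → j ≤ L → ms w p N l (i + nn j) (A j) ≤ Real.exp (-κ j) * ∑ x ∈ Icc lo hi, l x * bw w p 0 N x)
    (hfR : ∀ j, l₁ ≤ j → j ≤ L → ms w p N r (i + nn j) (A j) ≤ Real.exp (-κ j) * ∑ x ∈ Icc lo hi, r x * bw w p 0 N x)
    {yl yr yp : ℤ} {q₁ q₂ u₁ g₁ gf κ₀ W₁' : ℝ} (hBκ : ∀ j, l₂ ≤ j → j ≤ L → B j + g₁ + 1 ≤ κ j)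
    (hκ₀ : ∀ j, l₁ ≤ j → j ≤ L → κ₀ + Real.log (L + 1) + 1 ≤ κ j) (hκ4 : 4 ≤ Real.exp κ₀)
    -- the windows
    (hW : Wd l₁ ≤ Wd l₂) (hW' : Wd l₁ ≤ W₁') (hy1 : lo ≤ yl) (hy : yl ≤ yr) (hy2 : yr ≤ hi) (hyW : ∀ x : ℤ, |(x : ℝ) - cen| ≤ Wd l₁ → yl ≤ x ∧ x ≤ yr)
    (hyl : |(yl : ℝ) - cen| ≤ Wd l₁) (hyr : |(yr : ℝ) - cen| ≤ Wd l₁) (hyp : |(yp : ℝ) - cen'| ≤ Wd l₁)
    (hl1 : 0 < fw w p l i yl) (hl2 : 0 < fw w p l i yr) (hr1 : 0 < fw w p r i yl) (hr2 : 0 < fw w p r i yr) (hGp : 0 < G yp)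
    (t1L : ∀ x x' : ℤ, |(x : ℝ) - cen| ≤ W₁' → |(x' : ℝ) - cen| ≤ W₁' → fw w p l i x ≤ Real.exp q₁ * fw w p l i x')
    (t1R : ∀ x x' : ℤ, |(x : ℝ) - cen| ≤ W₁' → |(x' : ℝ) - cen| ≤ W₁' → fw w p r i x ≤ Real.exp q₁ * fw w p r i x')
    (tL : ∀ x x' : ℤ, |(x : ℝ) - cen| ≤ Wd l₂ → |(x' : ℝ) - cen| ≤ Wd l₂ → fw w p l i x ≤ Real.exp q₂ * fw w p l i x')
    (tR : ∀ x x' : ℤ, |(x : ℝ) - cen| ≤ Wd l₂ → |(x' : ℝ) - cen| ≤ Wd l₂ → fw w p r i x ≤ Real.exp q₂ * fw w p r i x')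
    (tF : ∀ x x' : ℤ, |(x : ℝ) - cen'| ≤ Wd l₂ → |(x' : ℝ) - cen'| ≤ Wd l₂ → G x ≤ Real.exp q₂ * G x')
    (t1F : ∀ z ∈ Icc lo hi, |(z : ℝ) - cen'| ≤ Wd l₁ → G z ≤ Real.exp q₁ * G yp)
    (hkw : ∀ x ∈ Icc lo hi, ∀ z ∈ Icc lo hi, |(x : ℝ) - cen| ≤ Wd l₁ → |(z : ℝ) - cen'| ≤ Wd l₁ → k x z ≤ Real.exp u₁)
    -- the early meetings
    (hmet : ∑ j ∈ range i, mt w p l r lo hi N j ≤ Real.exp (-κ₀) *
      ((∑ x ∈ Icc lo hi, l x * bw w p 0 N x) * ∑ y ∈ Icc lo hi, r y * bw w p 0 N y))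
    (hnum : 4 * ((Icc lo hi).card : ℝ) * (L + 1) * ((Icc lo hi).card : ℝ) ^ 2 * Real.exp (2 * q₁ + u₁ + gf) ≤ Real.exp g₁) :
    DW31 (Icc lo hi) cen cen' (Wd l₁) W₁' (Wd l₂) kap yl yr yp (2 * κ₀ - 3) q₁ q₂ gf (fw w p l i) (fw w p r i) G := by
  have hG' := h.g
  have hb : lo + N ≤ hi := by have := h.X0; have := h.X1; omega
  have hlo1 : ∀ y, y < lo → l y = 0 := fun y hy => (h.lo0 y hy).1
  have hlo2 : ∀ y, y < lo → r y = 0 := fun y hy => (h.lo0 y hy).2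
  have hhi1 : ∀ y, hi - N < y → l y = 0 := fun y hy => (h.hi0 y hy).1
  have hhi2 : ∀ y, hi - N < y → r y = 0 := fun y hy => (h.hi0 y hy).2
  have hZl : 0 ≤ ∑ x ∈ Icc lo hi, l x * bw w p 0 N x := sum_nonneg fun x _ => mul_nonneg (hG'.l0 x) (bw_pos hw hp _ _ _).le
  have hZr : 0 ≤ ∑ x ∈ Icc lo hi, r x * bw w p 0 N x := sum_nonneg fun x _ => mul_nonneg (hG'.r0 x) (bw_pos hw hp _ _ _).le
  have hoff : ∀ x ∈ Icc lo hi \ Icc yl yr, Wd l₁ < |(fun x : ℤ => (x : ℝ) - cen) x| := by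
    intro x hx
    rw [mem_sdiff, mem_Icc] at hx
    by_contra hcon
    exact hx.2 (mem_Icc.2 (hyW x (not_lt.1 hcon)))
  have a2 : ∀ {x : ℤ} {c : ℝ}, |(x : ℝ) - c| ≤ Wd l₁ → |(x : ℝ) - c| ≤ Wd l₂ := fun h1 => h1.trans hW
  have e2 : ∀ j, l₁ ≤ j → j ≤ L → i + n + (nn j - n) = i + nn j := fun j hj hjL => by
    have := hn1 j hj hjL
    omega
  -- the masses of the shells
  have xi : ∀ {m : ℤ → ℝ}, (∀ y, 0 ≤ m y) → (∀ y, y < lo → m y = 0) → (∀ y, hi - N < y → m y = 0) →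
      (∀ j, l₁ ≤ j → j ≤ L → ms w p N m (i + nn j) (A j) ≤ Real.exp (-κ j) * ∑ x ∈ Icc lo hi, m x * bw w p 0 N x) →
      0 ≤ ∑ x ∈ Icc lo hi, m x * bw w p 0 N x → ∀ j, l₁ ≤ j → j ≤ L →
      ms w p N m i (Sh (Icc lo hi) (fun x => (x : ℝ) - cen) Wd L j) ≤ Real.exp (-(κ j - 1)) * ∑ x ∈ Icc lo hi, m x * bw w p 0 N x :=
    fun hm h1 h2 h3 hZ j hj hjL => shell_down hw hp hm h1 h2 (hn2 j hj hjL) (hsi j hj hjL) (h3 j hj hjL) hZ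
  have xn : ∀ {m : ℤ → ℝ}, (∀ y, 0 ≤ m y) → (∀ y, y < lo → m y = 0) → (∀ y, hi - N < y → m y = 0) →
      (∀ j, l₁ ≤ j → j ≤ L → ms w p N m (i + nn j) (A j) ≤ Real.exp (-κ j) * ∑ x ∈ Icc lo hi, m x * bw w p 0 N x) →
      0 ≤ ∑ x ∈ Icc lo hi, m x * bw w p 0 N x → ∀ j, l₁ ≤ j → j ≤ L →
      ms w p N m (i + n) (Sh (Icc lo hi) (fun z => (z : ℝ) - cen') Wd L j) ≤ Real.exp (-(κ j - 1)) * ∑ x ∈ Icc lo hi, m x * bw w p 0 N x := by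
    intro m hm h1 h2 h3 hZ j hj hjL
    refine shell_down hw hp hm h1 h2 (n := nn j - n) (by rw [e2 j hj hjL]; exact hn2 j hj hjL) (hsn j hj hjL) ?_ hZ
    rw [e2 j hj hjL]
    exact h3 j hj hjL
  have q4 : ∀ {Z : ℝ}, 0 ≤ Z → Real.exp (-κ₀) * Z ≤ 1 / 4 * Z := by
    intro Z hZ
    refine mul_le_mul_of_nonneg_right ?_ hZ
    rw [Real.exp_neg, one_div]
    exact inv_anti₀ (by norm_num) hκ4
  have off0 : ∀ (c : ℝ), ∀ x ∈ (Icc lo hi).filter (fun x : ℤ => Wd l₁ < |(x : ℝ) - c|), Wd l₁ < |(fun x : ℤ => (x : ℝ) - c) x| :=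
    fun c x hx => (mem_filter.1 hx).2
  have o1 : ∀ {m : ℤ → ℝ}, (∀ y, 0 ≤ m y) → (∀ y, y < lo → m y = 0) → (∀ y, hi - N < y → m y = 0) →
      (∀ j, l₁ ≤ j → j ≤ L → ms w p N m (i + nn j) (A j) ≤ Real.exp (-κ j) * ∑ x ∈ Icc lo hi, m x * bw w p 0 N x) →
      0 ≤ ∑ x ∈ Icc lo hi, m x * bw w p 0 N x →
      ms w p N m i ((Icc lo hi).filter (fun x : ℤ => Wd l₁ < |(x : ℝ) - cen|)) ≤ 1 / 4 * ∑ x ∈ Icc lo hi, m x * bw w p 0 N x :=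
    fun hm h1 h2 h3 hZ => (ms_off hw hp hm (h12.trans hl) (filter_subset _ _) (off0 cen) hZ (xi hm h1 h2 h3 hZ) fun j hj hjL => by
      linarith [hκ₀ j hj hjL]).trans (q4 hZ)
  have o2 : ∀ {m : ℤ → ℝ}, (∀ y, 0 ≤ m y) → (∀ y, y < lo → m y = 0) → (∀ y, hi - N < y → m y = 0) →
      (∀ j, l₁ ≤ j → j ≤ L → ms w p N m (i + nn j) (A j) ≤ Real.exp (-κ j) * ∑ x ∈ Icc lo hi, m x * bw w p 0 N x) →
      0 ≤ ∑ x ∈ Icc lo hi, m x * bw w p 0 N x →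
      ms w p N m (i + n) ((Icc lo hi).filter (fun z : ℤ => Wd l₁ < |(z : ℝ) - cen'|)) ≤ 1 / 4 * ∑ x ∈ Icc lo hi, m x * bw w p 0 N x :=
    fun hm h1 h2 h3 hZ => (ms_off hw hp hm (h12.trans hl) (filter_subset _ _) (off0 cen') hZ (xn hm h1 h2 h3 hZ) fun j hj hjL => by
      linarith [hκ₀ j hj hjL]).trans (q4 hZ)
  refine ⟨?_, hyl, hyr, hyp, t1L, t1R⟩
  refine un31 hw hp h (by omega) hy1 hy hy2 hl1 hl2 hr1 hr2 hGp hmet
    (ms_off hw hp hG'.l0 (h12.trans hl) sdiff_subset hoff hZl (xi hG'.l0 hlo1 hhi1 hfL hZl) fun j hj hjL => by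
      linarith [hκ₀ j hj hjL])
    (ms_off hw hp hG'.r0 (h12.trans hl) sdiff_subset hoff hZr (xi hG'.r0 hlo2 hhi2 hfR hZr) fun j hj hjL => by
      linarith [hκ₀ j hj hjL]) tL tR tF ?_ ?_
  · exact un_sh95 (W₁ := Wd l₁) hw hp hG'.l0 hlo1 hhi1 hb hin hN₀ hG0 hk hG hl hσ hkap0 hs heL
      (fun j hj hjL => xi hG'.l0 hlo1 hhi1 hfL hZl j (h12.trans hj) hjL)
      (fun j hj hjL => xn hG'.l0 hlo1 hhi1 hfL hZl j (h12.trans hj) hjL)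
      (fun j hj hjL => by linarith [hBκ j hj hjL]) (o1 hG'.l0 hlo1 hhi1 hfL hZl) (o2 hG'.l0 hlo1 hhi1 hfL hZl)
      (fun x _ hx => t1L x yl (hx.trans hW') (hyl.trans hW')) t1F hkw hnum
  · exact un_sh95 (W₁ := Wd l₁) hw hp hG'.r0 hlo2 hhi2 hb hin hN₀ hG0 hk hG hl hσ hkap0 hs heR
      (fun j hj hjL => xi hG'.r0 hlo2 hhi2 hfR hZr j (h12.trans hj) hjL)
      (fun j hj hjL => xn hG'.r0 hlo2 hhi2 hfR hZr j (h12.trans hj) hjL)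
      (fun j hj hjL => by linarith [hBκ j hj hjL]) (o1 hG'.r0 hlo2 hhi2 hfR hZr) (o2 hG'.r0 hlo2 hhi2 hfR hZr)
      (fun x _ hx => t1R x yr (hx.trans hW') (hyr.trans hW')) t1F hkw hnum

/-! ### One-sided local regularity of the future -/

/-- The standard point of the upper edge row. -/
def yp95 (μ : Measure ℝ) (s : ℝ) (ν : NV31) (G : Gd) (t : ℕ) (c : ℕ × ℤ) : ℤ := ⌊ν.cn' G t c (sl μ s)⌋

/-- **THE SET `LP`** : the future at the upper edge row grows at most at the rate `sg E / w` from the standard point. -/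
def LP95 (μ : Measure ℝ) (s : ℝ) (Γ : Cx) (ν : NV31) (sg : ℝ) (G : Gd) (t : ℕ) (c : ℕ × ℤ) : Set Env :=
  {ω | ∀ z : ℤ, |(z : ℝ) - yp95 μ s ν G t c| ≤ ν.nr t + 1 → GV Γ ν G t c ω z ≤
    Real.exp (ν.q₁ t + sg * (ν.E t / ν.w t) * |(z : ℝ) - yp95 μ s ν G t c|) * GV Γ ν G t c ω (yp95 μ s ν G t c)}

section lp

variable {μ : Measure ℝ} {s : ℝ} {Γ : Cx} {ν : NV31} {sg : ℝ} {G : Gd} {t : ℕ} {c : ℕ × ℤ}

theorem meas_GV95 (z : ℤ) : Measurable fun ω => GV Γ ν G t c ω z := by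
  unfold GV GG
  exact (meas_bw _ _ _).add ((meas_bw _ _ _).const_mul _)

/-- **`LP` is measurable.** -/
theorem mLP95 : MeasurableSet (LP95 μ s Γ ν sg G t c) := by
  have e : LP95 μ s Γ ν sg G t c = ⋂ z : ℤ, {ω | |(z : ℝ) - yp95 μ s ν G t c| ≤ ν.nr t + 1 → ω ∈ {ω | GV Γ ν G t c ω z ≤
      Real.exp (ν.q₁ t + sg * (ν.E t / ν.w t) * |(z : ℝ) - yp95 μ s ν G t c|) * GV Γ ν G t c ω (yp95 μ s ν G t c)}} := by
    ext ω
    simp only [Set.mem_iInter]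
    exact Iff.rfl
  rw [e]
  exact MeasurableSet.iInter fun z => meas_imp31 (measurableSet_le (meas_GV95 z) ((meas_GV95 _).const_mul _))

/-- `LP` depends on the box of level `t` only. -/
theorem eLP95 {L : ℕ} (hG : G.Ok L) (ht : t + ν.m₂ ≤ L) {d : ℕ × ℤ} (hcd : G.z t c = G.z t d) :
    LP95 μ s Γ ν sg G t c = LP95 μ s Γ ν sg G t d := by
  have h1 : G.z (t + ν.m₂) c = G.z (t + ν.m₂) d := hG.z_nested (Nat.le_add_right t ν.m₂) ht hcd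
  have h2 : ν.row G t c = ν.row G t d := by
    unfold NV31.row
    rw [h1]
  have h3 : ν.cn G t c (sl μ s) = ν.cn G t d (sl μ s) := by
    unfold NV31.cn
    rw [h2, hcd]
  have h4 : yp95 μ s ν G t c = yp95 μ s ν G t d := by
    unfold yp95 NV31.cn'
    rw [h3]
  have h5 : ∀ ω, GV Γ ν G t c ω = GV Γ ν G t d ω := by
    intro ω
    unfold GV
    rw [h2]
  unfold LP95
  rw [h4]
  simp only [h5]

/-- The rows which `LP` reads. -/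
theorem GV_congr95 {η η' : Env} (h : ∀ j : ℕ, ν.row G t c + ν.nr t < j → ∀ y : ℤ, η ((j : ℤ), y) = η' ((j : ℤ), y)) :
    GV Γ ν G t c η = GV Γ ν G t c η' := by
  have hrow : ∀ j : ℕ, ν.row G t c + ν.nr t < j → ∀ y, wt η j y = wt η' j y := by
    intro j hj y
    unfold wt
    rw [h j hj y]
  funext z
  unfold GV GG
  rw [bw_congr _ _ (fun i hi y => hrow i (by omega) y) z, bw_congr _ _ (fun i hi y => hrow i (by omega) y) (z + 1)]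

/-- **`LP` is blind to the ball.** -/
theorem oLP95 : Off (T10.At (G.x (t + ν.m₂) c) (AT ν.Ts (t + ν.m₂))) (LP95 μ s Γ ν sg G t c) := by
  intro η η' h
  have e3 : GV Γ ν G t c η = GV Γ ν G t c η' := by
    refine GV_congr95 fun j hj y => h _ ?_
    intro hmem
    have h2 : (((j : ℤ), y) : Pt) - G.x (t + ν.m₂) c ∈ AT ν.Ts (t + ν.m₂) := hmem
    rw [mem_AT] at h2
    have h3 : ((((j : ℤ), y) : Pt) - G.x (t + ν.m₂) c).1 = (j : ℤ) - ((G.z (t + ν.m₂) c).1 : ℤ) := rfl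
    rw [h3] at h2
    unfold NV31.row NV31.nr at hj
    omega
  show (_ : Prop) ↔ (_ : Prop)
  show (∀ z : ℤ, _ → _) ↔ (∀ z : ℤ, _ → _)
  rw [e3]

end lp

variable {μ : Measure ℝ} {s : ℝ} {Γ : Cx} {ν : NV31} {G : Gd} {t : ℕ} {c : ℕ × ℤ} {ω : Env}

/-- **THE EVENTS `V`, `LP` FROM THE MODEL, the total mass bounded by the first window.** The shells: widths `Wd l`, `l₁ ≤ l₂ ≤ L`; losses `loss31`. -/
theorem vin95 (hΓ : Γ.Ok) (hj : ν.j₀ ≤ t) (hN : ν.row G t c + ν.nr t < Γ.N)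
    {Wd : ℕ → ℝ} {l₁ l₂ L l' : ℕ} (h12 : l₁ ≤ l₂) (hl : l₂ < L) (hl'1 : l' < l₂) {σ sg aT R : ℝ} {r a : ℕ → ℝ} (hσ : 0 ≤ σ)
    (hE : 0 < ν.E t) (hw0 : 0 < ν.w t) (hQ : 0 ≤ ν.Q) (hc₁ : 0 < ν.c₁) (hσc : σ ≤ (ν.c₃ - ν.c₁) * (ν.E t / ν.w t))
    (hσg : σ ≤ sg * (ν.E t / ν.w t))
    (hsl0 : 0 ≤ sl μ s) (hsl1 : sl μ s ≤ 1)
    -- the levels of the ball
    (hlowS : ∀ l, l₂ ≤ l → l < L → ∀ x z : ℤ, InS Wd L l ((x : ℝ) - ν.cn G t c (sl μ s)) → x ≤ z → z ≤ x + ν.nr t →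
      |((z : ℝ) - ν.cn' G t c (sl μ s)) - ((x : ℝ) - ν.cn G t c (sl μ s))| ≤ 1 → Real.exp (-a l) ≤ kM31 μ s Γ ω (ν.row G t c) (ν.nr t) x z)
    (hlowE : ∀ l, l₂ ≤ l → l < L → ∀ x z : ℤ, InS Wd L l ((z : ℝ) - ν.cn' G t c (sl μ s)) → x ≤ z → z ≤ x + ν.nr t →
      |((z : ℝ) - ν.cn' G t c (sl μ s)) - ((x : ℝ) - ν.cn G t c (sl μ s))| ≤ 1 → Real.exp (-a l) ≤ kM31 μ s Γ ω (ν.row G t c) (ν.nr t) x z)
    (hone : ∀ x z : ℤ, x ≤ z → z ≤ x + ν.nr t → 0 ≤ x → z ≤ Γ.hi → Real.exp (-aT) ≤ kM31 μ s Γ ω (ν.row G t c) (ν.nr t) x z)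
    {u₁ : ℝ} (hkw : ∀ x ∈ Icc 0 Γ.hi, ∀ z ∈ Icc 0 Γ.hi, |(x : ℝ) - ν.cn G t c (sl μ s)| ≤ Wd l₁ →
      |(z : ℝ) - ν.cn' G t c (sl μ s)| ≤ Wd l₁ → kM31 μ s Γ ω (ν.row G t c) (ν.nr t) x z ≤ Real.exp u₁)
    -- local regularity at the two edge rows
    (hLG : ∀ l, l < L → ∀ z z₀ : ℤ, |(z₀ : ℝ) - ν.cn' G t c (sl μ s)| ≤ Wd (l + 1) + 1 → |(z : ℝ) - z₀| ≤ ν.nr t + 1 →
      GV Γ ν G t c ω z ≤ Real.exp (r l + σ * |(z : ℝ) - z₀|) * GV Γ ν G t c ω z₀)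
    (hLl : ∀ l, l < L → ∀ x x₀ : ℤ, |(x₀ : ℝ) - ν.cn G t c (sl μ s)| ≤ Wd (l + 1) + 1 → |(x : ℝ) - x₀| ≤ ν.nr t + 1 →
      fw (wt ω) Γ.p Cx.l (ν.row G t c) x ≤ Real.exp (r l + σ * |(x : ℝ) - x₀|) * fw (wt ω) Γ.p Cx.l (ν.row G t c) x₀)
    (hLr : ∀ l, l < L → ∀ x x₀ : ℤ, |(x₀ : ℝ) - ν.cn G t c (sl μ s)| ≤ Wd (l + 1) + 1 → |(x : ℝ) - x₀| ≤ ν.nr t + 1 →
      fw (wt ω) Γ.p Γ.r (ν.row G t c) x ≤ Real.exp (r l + σ * |(x : ℝ) - x₀|) * fw (wt ω) Γ.p Γ.r (ν.row G t c) x₀)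
    (hpL : ∃ x : ℤ, |(x : ℝ) - ν.cn G t c (sl μ s)| ≤ Wd l₁ ∧ 0 < fw (wt ω) Γ.p Cx.l (ν.row G t c) x)
    (hpR : ∃ x : ℤ, |(x : ℝ) - ν.cn G t c (sl μ s)| ≤ Wd l₁ ∧ 0 < fw (wt ω) Γ.p Γ.r (ν.row G t c) x)
    -- stay and far masses
    {nn : ℕ → ℕ} {A : ℕ → Finset ℤ} (hn1 : ∀ j, l₁ ≤ j → j ≤ L → ν.nr t ≤ nn j) (hn2 : ∀ j, l₁ ≤ j → j ≤ L → ν.row G t c + nn j ≤ Γ.N)
    (hsi : ∀ j, l₁ ≤ j → j ≤ L → ∀ x ∈ Icc 0 Γ.hi, x ≤ Γ.hi - Γ.N + ν.row G t c → InS Wd L j ((x : ℝ) - ν.cn G t c (sl μ s)) →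
      ∑ v ∈ Icc 0 Γ.hi \ A j, ker (wt ω) Γ.p (ν.row G t c) (nn j) x v * bw (wt ω) Γ.p (ν.row G t c + nn j) (Γ.N - (ν.row G t c + nn j)) v ≤
        1 / 2 * bw (wt ω) Γ.p (ν.row G t c) (Γ.N - ν.row G t c) x)
    (hsn : ∀ j, l₁ ≤ j → j ≤ L → ∀ z ∈ Icc 0 Γ.hi, z ≤ Γ.hi - Γ.N + (ν.row G t c + ν.nr t : ℕ) → InS Wd L j ((z : ℝ) - ν.cn' G t c (sl μ s)) →
      ∑ v ∈ Icc 0 Γ.hi \ A j, ker (wt ω) Γ.p (ν.row G t c + ν.nr t) (nn j - ν.nr t) z v *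
        bw (wt ω) Γ.p (ν.row G t c + ν.nr t + (nn j - ν.nr t)) (Γ.N - (ν.row G t c + ν.nr t + (nn j - ν.nr t))) v ≤
        1 / 2 * bw (wt ω) Γ.p (ν.row G t c + ν.nr t) (Γ.N - (ν.row G t c + ν.nr t)) z)
    {κ : ℕ → ℝ}
    (hfL : ∀ j, l₁ ≤ j → j ≤ L → ms (wt ω) Γ.p Γ.N Cx.l (ν.row G t c + nn j) (A j) ≤
      Real.exp (-κ j) * ∑ x ∈ Icc 0 Γ.hi, Cx.l x * bw (wt ω) Γ.p 0 Γ.N x)
    (hfR : ∀ j, l₁ ≤ j → j ≤ L → ms (wt ω) Γ.p Γ.N Γ.r (ν.row G t c + nn j) (A j) ≤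
      Real.exp (-κ j) * ∑ x ∈ Icc 0 Γ.hi, Γ.r x * bw (wt ω) Γ.p 0 Γ.N x)
    -- the early meetings
    {κ₀ g₁ : ℝ} (hmet : ∑ j ∈ range (ν.row G t c), mt (wt ω) Γ.p Cx.l Γ.r 0 Γ.hi Γ.N j ≤ Real.exp (-κ₀) *
      ((∑ x ∈ Icc 0 Γ.hi, Cx.l x * bw (wt ω) Γ.p 0 Γ.N x) * ∑ y ∈ Icc 0 Γ.hi, Γ.r y * bw (wt ω) Γ.p 0 Γ.N y))
    -- the geometry of the box
    (hR1 : ∀ x ∈ Icc 0 Γ.hi, |(x : ℝ) - ν.cn G t c (sl μ s)| ≤ R) (hR2 : ∀ z ∈ Icc 0 Γ.hi, |(z : ℝ) - ν.cn' G t c (sl μ s)| ≤ R)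
    (hb1 : ∀ x : ℤ, |(x : ℝ) - ν.cn G t c (sl μ s)| ≤ Wd L → 0 ≤ x ∧ x + ν.nr t ≤ Γ.hi)
    (hb2 : ∀ z : ℤ, |(z : ℝ) - ν.cn' G t c (sl μ s)| ≤ Wd L → 0 ≤ z - ν.nr t)
    (hWm : ∀ l, l < L → Wd (l + 1) ≤ Wd L) (hW12 : Wd l₁ ≤ Wd l₂) (hW1 : 1 ≤ Wd l₁) (hW2 : Wd l₂ ≤ Wd (l₂ + 1)) (hWn : 2 * Wd l₂ ≤ ν.nr t)
    -- the numbers of `V`
    (n1 : ν.W1 t = Wd l₁) (n2 : ν.W2 t = Wd l₂) (n3 : ν.W1' t ≤ Wd (l' + 1)) (n3' : Wd l₁ ≤ ν.W1' t) (n4 : 2 * ν.W1' t ≤ ν.nr t)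
    (n5 : ν.g t = 2 * κ₀ - 3) (n6 : ν.q₁ t = r l' + 2 * σ * ν.W1' t) (n7 : ν.q₂ t = r l₂ + 2 * σ * Wd l₂)
    (hBκ : ∀ j, l₂ ≤ j → j ≤ L → loss31 ν.P ν.c₁ ν.Q ν.S (ν.E t) (ν.w t) Wd L R σ aT r a j + g₁ + 1 ≤ κ j)
    (hκ₀ : ∀ j, l₁ ≤ j → j ≤ L → κ₀ + Real.log (L + 1) + 1 ≤ κ j) (hκ4 : 4 ≤ Real.exp κ₀)
    (hnum : 4 * ((Icc 0 Γ.hi).card : ℝ) * (L + 1) * ((Icc 0 Γ.hi).card : ℝ) ^ 2 * Real.exp (2 * ν.q₁ t + u₁ + ν.gf t) ≤ Real.exp g₁) :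
    ω ∈ V31 μ s Γ ν G t c ∩ LP95 μ s Γ ν sg G t c := by
  have hb := Cx.box1 hΓ
  obtain ⟨i, hi⟩ : ∃ i, i = ν.row G t c := ⟨_, rfl⟩
  obtain ⟨n, hn⟩ : ∃ n, n = ν.nr t := ⟨_, rfl⟩
  obtain ⟨cen, hcen⟩ : ∃ x, x = ν.cn G t c (sl μ s) := ⟨_, rfl⟩
  obtain ⟨cen', hcen'⟩ : ∃ x, x = ν.cn' G t c (sl μ s) := ⟨_, rfl⟩
  have hcc : cen' = cen + sl μ s * n := by
    rw [hcen', hcen, hn]
    rfl
  have hGV : ∀ z, GV Γ ν G t c ω z = GG (wt ω) Γ.p Γ.N (i + n) z := fun z => by rw [hi, hn]; rfl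
  have hlp : ∀ z : ℤ, |(z : ℝ) - ⌊cen'⌋| ≤ n + 1 → GV Γ ν G t c ω z ≤
      Real.exp (r l' + σ * |(z : ℝ) - ⌊cen'⌋|) * GV Γ ν G t c ω ⌊cen'⌋ := by
    intro z hz
    have b5 := Int.floor_le cen'
    have b6 := Int.lt_floor_add_one cen'
    refine hLG l' (by omega) z ⌊cen'⌋ ?_ (by rw [← hn]; exact hz)
    rw [← hcen', abs_le]
    have h1 : 1 ≤ Wd (l' + 1) := hW1.trans (n3'.trans n3)
    constructor <;> linarith
  have gp0 : ∀ z, 0 ≤ GV Γ ν G t c ω z := fun z => by rw [hGV]; exact (GG_pos (wt_pos ω) Γ.p_pos _ _).le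
  have hr' : r l' ≤ ν.q₁ t := by
    rw [n6]
    have h1 : 0 ≤ σ * ν.W1' t := mul_nonneg hσ (by linarith)
    linarith
  refine ⟨?_, fun z hz => ?_⟩
  swap
  · have hyp' : yp95 μ s ν G t c = ⌊cen'⌋ := by
      rw [hcen']
      rfl
    rw [hyp'] at hz ⊢
    refine (hlp z (by rw [hn]; exact hz)).trans (mul_le_mul_of_nonneg_right (Real.exp_le_exp.2 ?_) (gp0 _))
    exact add_le_add hr' (mul_le_mul_of_nonneg_right hσg (abs_nonneg _))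
  show _ ∧ _
  rw [n1, n2, n5]
  simp only [← hi, ← hn, ← hcen, ← hcen'] at *
  have gpos : ∀ z, 0 < GV Γ ν G t c ω z := fun z => by rw [hGV]; exact GG_pos (wt_pos ω) Γ.p_pos _ _
  have fl0 : ∀ x, 0 ≤ fw (wt ω) Γ.p Cx.l i x := fun x => fw_nonneg (wt_pos ω) Γ.p_pos hb.g.l0 i x
  have fr0 : ∀ x, 0 ≤ fw (wt ω) Γ.p Γ.r i x := fun x => fw_nonneg (wt_pos ω) Γ.p_pos hb.g.r0 i x
  -- tameness of the windows
  have hWl2 : Wd l₂ ≤ Wd (l₂ + 1) + 1 := by linarith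
  have hWd2 : 2 * Wd l₂ ≤ (n : ℝ) + 1 := by linarith
  have tL2 := tame_of_lr31 (hLl l₂ hl) fl0 hσ hWl2 hWd2
  have tR2 := tame_of_lr31 (hLr l₂ hl) fr0 hσ hWl2 hWd2
  have tG2 := tame_of_lr31 (hLG l₂ hl) (fun z => (gpos z).le) hσ hWl2 hWd2
  have tL1 := tame_of_lr31 (W := ν.W1' t) (hLl l' (by omega)) fl0 hσ (by linarith) (by linarith)
  have tR1 := tame_of_lr31 (W := ν.W1' t) (hLr l' (by omega)) fr0 hσ (by linarith) (by linarith)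
  rw [← n6] at tL1 tR1
  rw [← n7] at tL2 tR2 tG2
  obtain ⟨xL, hxL, hxL0⟩ := hpL
  obtain ⟨xR, hxR, hxR0⟩ := hpR
  -- the standard points
  have a1 : ∀ {x : ℤ} {v : ℝ}, |(x : ℝ) - v| ≤ Wd l₁ → |(x : ℝ) - v| ≤ Wd l₂ := fun h => h.trans hW12
  have b1 := Int.le_ceil (cen - Wd l₁)
  have b2 := Int.ceil_lt_add_one (cen - Wd l₁)
  have b3 := Int.floor_le (cen + Wd l₁)
  have b4 := Int.lt_floor_add_one (cen + Wd l₁)
  have b5 := Int.floor_le cen'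
  have b6 := Int.lt_floor_add_one cen'
  have hyl : |((⌈cen - Wd l₁⌉ : ℤ) : ℝ) - cen| ≤ Wd l₁ := by
    rw [abs_le]
    constructor <;> linarith
  have hyr : |((⌊cen + Wd l₁⌋ : ℤ) : ℝ) - cen| ≤ Wd l₁ := by
    rw [abs_le]
    constructor <;> linarith
  have hyp : |((⌊cen'⌋ : ℤ) : ℝ) - cen'| ≤ Wd l₁ := by
    rw [abs_le]
    constructor <;> linarith
  have hWL : Wd l₁ ≤ Wd L := by
    have h1 := hWm l₂ hl
    linarith
  have hin : i + n ≤ Γ.N := hN.le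
  have t1F : ∀ z ∈ Icc 0 Γ.hi, |(z : ℝ) - cen'| ≤ Wd l₁ → GV Γ ν G t c ω z ≤ Real.exp (ν.q₁ t) * GV Γ ν G t c ω ⌊cen'⌋ := by
    intro z _ hz
    have h1 : |(z : ℝ) - ⌊cen'⌋| ≤ 2 * Wd l₁ := by
      have h2 := abs_sub_le (z : ℝ) cen' (⌊cen'⌋ : ℤ)
      rw [abs_sub_comm cen' ((⌊cen'⌋ : ℤ) : ℝ)] at h2
      linarith
    refine (hlp z (h1.trans (by linarith))).trans (mul_le_mul_of_nonneg_right (Real.exp_le_exp.2 ?_) (gp0 _))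
    have h3 := mul_le_mul_of_nonneg_left (h1.trans (mul_le_mul_of_nonneg_left n3' (by norm_num : (0 : ℝ) ≤ 2))) hσ
    rw [n6]
    linarith
  have key := dw_shell95 (w := wt ω) (p := Γ.p) (wt_pos ω) Γ.p_pos hb hin
    (k := kM31 μ s Γ ω i n) (kap := kap31 ν.P ν.c₁ ν.c₃ ν.Q ν.S (ν.E t) (ν.w t) cen cen' n) (G := GV Γ ν G t c ω)
    (N₀ := Real.exp (n * lam μ s + Γ.h * sl μ s * bl Γ.M i n)) (Real.exp_pos _) (fun z => (gpos z).le) (fun x z => kM_nonneg x z)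
    (fun x z => by rw [hGV]; exact kM_eq hN x z) (cen := cen) (cen' := cen') (Wd := Wd) h12 hl.le
    (cK := (ν.c₃ - ν.c₁) * (ν.E t / ν.w t)) (σ := σ) hσc (fun x z => kap31_nonneg x z)
    (B := loss31 ν.P ν.c₁ ν.Q ν.S (ν.E t) (ν.w t) Wd L R σ aT r a)
    (lc_start hE hw0 hQ hc₁ hσ (fun z => (gpos z).le) hsl0 hsl1 hcc hR1 (fun x hx => (hb1 x hx).2) hWm hlowS
      (fun l _ hlL => hLG l hlL) hone)
    (lc_end hE hw0 hQ hc₁ hσ fl0 hsl0 hsl1 hcc hR2 hb2 hWm hlowE (fun l _ hlL => hLl l hlL) hone)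
    (lc_end hE hw0 hQ hc₁ hσ fr0 hsl0 hsl1 hcc hR2 hb2 hWm hlowE (fun l _ hlL => hLr l hlL) hone)
    hn1 hn2 hsi hsn hfL hfR hBκ hκ₀ hκ4 hW12 n3' (yl := ⌈cen - Wd l₁⌉) (yr := ⌊cen + Wd l₁⌋) (yp := ⌊cen'⌋) ((hb1 _ (hyl.trans hWL)).1)
    (Int.le_floor.2 (by linarith)) (by have := (hb1 _ (hyr.trans hWL)).2; omega)
    (fun x hx => ⟨Int.ceil_le.2 (by have := (abs_le.1 hx).1; linarith), Int.le_floor.2 (by have := (abs_le.1 hx).2; linarith)⟩)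
    hyl hyr hyp (pos_of_tame31 tL2 (a1 hxL) hxL0 (a1 hyl)) (pos_of_tame31 tL2 (a1 hxL) hxL0 (a1 hyr))
    (pos_of_tame31 tR2 (a1 hxR) hxR0 (a1 hyl)) (pos_of_tame31 tR2 (a1 hxR) hxR0 (a1 hyr)) (gpos _) tL1 tR1 tL2 tR2 tG2
    t1F hkw hmet hnum
  exact ⟨hj, key⟩


end

end Pool.Agent.W_7d29a1_C1.D31
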