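import Pool.Agent.W_7d29a1_C1.ShlB8
import Pool.Agent.W_7d29a1_C1.Sets47
import Pool.Agent.W_7d29a1_C1.DwW95

/-!
MP_7d29a1_pr, attractor route (helper8): **THE TWO LEAVES OF THE SHELL**. `NuS8` : few scales are not usable (SEP + TAME + the early
meetings), for the literal `V8` (`V47` of helper47 = `V31` and one row of weights; `LP95` of helper95); `FrS8` : fresh ball, closeness, balance, for every `V8` with the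
given bounds of its numbers (`NB8`). `shlR_of8 : NuS8 ⇒ FrS8 ⇒ ShlR8`: the two sides choose the constants in turn.
-/

set_option autoImplicit false

namespace Pool.Agent.W_7d29a1_C1.H8

open MeasureTheory ProbabilityTheory Filter Topology
open Pool.Agent.W_7d29a1_F Pool.Agent.W_7d29a1_h4g Pool.Agent.W_7d29a1_H Pool.Agent.W_7d29a1_HS
open Pool.Agent.W_7d29a1_C1 (On20)
open Pool.Agent.W_7d29a1_C1.T10 (Gd pt Tg Hg Tg_pos Tg_mono Hg_mono GW geoW10 rout RB RP SI10)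
open Pool.Agent.W_7d29a1_C1.S71 Pool.Agent.W_7d29a1_C1.Sw9
open Pool.Agent.W_7d29a1_C1.H60 Pool.Agent.W_7d29a1_C1.Lec17
open Pool.Agent.W_7d29a1_C1.D31 (NV31 LP95 mLP95)
open Pool.Agent.W_7d29a1_C1.Fr47 (V47 mV47 rV47)
open scoped ENNReal NNReal

noncomputable section

variable {μ : Measure ℝ} [IsProbabilityMeasure μ]

/-! ### The events `V` -/

/-- The constants of the events `V`, in the units `EE (T (t + m₂))`, `wd (T (t + m₂))` of the ball. -/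
structure KV8 where
  P : ℕ
  c₁ : ℝ
  c₃ : ℝ
  Q : ℝ
  S : ℝ
  w₁ : ℝ
  w₁' : ℝ
  w₂ : ℝ
  g : ℝ
  q₁ : ℝ
  q₂ : ℝ
  gf : ℝ
  u : ℝ

/-- The numbers of `V31` within the constants. -/
structure NB8 (μ : Measure ℝ) (s : ℝ) (T : ℕ → ℕ) (m₂ : ℕ) (κ : KV8) (ν : NV31) : Prop where
  eT : ν.Ts = T
  em : ν.m₂ = m₂
  hj : 2 ≤ ν.j₀
  eP : ν.P = κ.P
  ec₁ : ν.c₁ = κ.c₁
  ec₃ : ν.c₃ = κ.c₃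
  eQ : ν.Q = κ.Q
  eS : ν.S = κ.S
  eE : ∀ t, ν.E t = EE μ s (T (t + m₂))
  ew : ∀ t, ν.w t = wd μ s (T (t + m₂))
  hW1 : ∀ t, ν.W1 t ≤ κ.w₁ * wd μ s (T (t + m₂))
  eW1' : ∀ t, ν.W1' t = κ.w₁' * wd μ s (T (t + m₂))
  hW2 : ∀ t, ν.W2 t ≤ κ.w₂ * wd μ s (T (t + m₂))
  hW21 : ∀ t, κ.w₁' * wd μ s (T (t + m₂)) ≤ ν.W2 t
  hg : ∀ t, κ.g * EE μ s (T (t + m₂)) ≤ ν.g t
  hq₁ : ∀ t, ν.q₁ t ≤ κ.q₁ * EE μ s (T (t + m₂))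
  hq₂ : ∀ t, ν.q₂ t ≤ κ.q₂ * EE μ s (T (t + m₂))
  hgf : ∀ t, κ.gf * EE μ s (T (t + m₂)) ≤ ν.gf t

/-- **THE EVENT `V`** at the base `z` of a box of level `t`: the data of the ball, the single weights of its lower edge row, one-sided
local regularity of the future from the standard point. -/
def V8 (μ : Measure ℝ) (s : ℝ) (Γ : Cx) (ν : NV31) (u : ℝ) (G : Gd) (t : ℕ) (z : ℕ × ℤ) : Set Env :=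
  V47 μ s Γ ν G u t z ∩ LP95 μ s Γ ν (ν.c₃ - ν.c₁) G t z

omit [IsProbabilityMeasure μ] in
theorem mV8 {s : ℝ} {Γ : Cx} {ν : NV31} {u : ℝ} {G : Gd} {t : ℕ} {z : ℕ × ℤ} : MeasurableSet (V8 μ s Γ ν u G t z) :=
  mV47.inter mLP95

omit [IsProbabilityMeasure μ] in
/-- The rows which `LP95` reads. -/
theorem rLP8 {s : ℝ} {Γ : Cx} {ν : NV31} {sg : ℝ} {G : Gd} {t : ℕ} {z : ℕ × ℤ} :
    On20 (rout (((G.z (t + ν.m₂) z).1 : ℤ) - ν.Ts (t + ν.m₂)) (((G.z (t + ν.m₂) z).1 : ℤ) + ν.Ts (t + ν.m₂))) (LP95 μ s Γ ν sg G t z) := by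
  have h2 : Mv98.Rd (rout (((G.z (t + ν.m₂) z).1 : ℤ) - ν.Ts (t + ν.m₂)) (((G.z (t + ν.m₂) z).1 : ℤ) + ν.Ts (t + ν.m₂)))
      (fun η => D31.GV Γ ν G t z η) := Mv98.rd_GG (by
    unfold D31.NV31.row D31.NV31.nr
    push_cast
    omega)
  exact Mv98.Rd.on (h2.comp fun f => ∀ x : ℤ, |(x : ℝ) - D31.yp95 μ s ν G t z| ≤ ν.nr t + 1 → f x ≤
    Real.exp (ν.q₁ t + sg * (ν.E t / ν.w t) * |(x : ℝ) - D31.yp95 μ s ν G t z|) * f (D31.yp95 μ s ν G t z))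

omit [IsProbabilityMeasure μ] in
theorem rV8 {s : ℝ} {Γ : Cx} {ν : NV31} {u : ℝ} {G : Gd} {t : ℕ} {z : ℕ × ℤ} :
    On20 (rout (((G.z (t + ν.m₂) z).1 : ℤ) - ν.Ts (t + ν.m₂)) (((G.z (t + ν.m₂) z).1 : ℤ) + ν.Ts (t + ν.m₂))) (V8 μ s Γ ν u G t z) :=
  T10.on_inter rV47 rLP8

/-- The sites. -/
def S8 (e : ℝ) (K n : ℕ) (G : Gd) (Γ : Cx) : Finset (ℕ × ℤ) :=
  T98.Sc G (m8 K e n) (⌈(n : ℝ) ^ e⌉₊ / G.H (m8 K e n))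
    ((Γ.N - n - T98.dT (G.H (m8 K e n)) ((n : ℝ) ^ e)) / G.H (m8 K e n)) Γ.N

/-! ### The first leaf -/

/-- **FEW SCALES ARE NOT USABLE.** The base height is `h8 Q (ρ * e) n`, the ratio `ρ` comes before `e` and `K`. -/
def NuS8 (μ : Measure ℝ) [IsProbabilityMeasure μ] (s c₁ c₃ : ℝ) : Prop :=
  ∃ ρ₁ : ℝ, 0 < ρ₁ ∧ ∀ ρ : ℝ, 0 < ρ → ρ ≤ ρ₁ → ρ ≤ 1 →
  ∀ e : ℝ, 0 < e → e ≤ 1 / 32 → ∃ K₁ : ℕ, ∀ K : ℕ, K₁ ≤ K → 2 ≤ K → ∀ (R : ℝ) (B : ℕ) (C₀ : ℝ), 1 ≤ R → 2 ≤ B → 1 ≤ C₀ →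
    ∃ (Z m₀ : ℕ) (kst : ℝ), 1 ≤ Z ∧ 1 ≤ m₀ ∧ 0 < kst ∧ ∀ m₁ : ℕ, 1 ≤ m₁ → ∃ w₁ : ℝ, 0 < w₁ ∧ ∀ w₁' : ℝ, w₁ ≤ w₁' →
      ∃ q₁ : ℝ, 0 < q₁ ∧ ∀ (PV : ℕ) (QV SV gf u : ℝ), 0 < QV → 0 < SV → 0 < gf → 0 < u →
        ∃ w₂ q₂ s' : ℝ, w₁' ≤ w₂ ∧ 0 < q₂ ∧ 0 < s' ∧
          ∀ c₂ : ℝ, 0 < c₂ → c₂ ≤ s' → ∀ δ : ℝ, 0 < δ → δ ≤ c₂ / 16 → ∃ κ₀ : ℝ, 0 < κ₀ ∧ ∀ κ : ℝ, 0 < κ → κ ≤ κ₀ →
            ∃ Q₀ : ℕ, 1 ≤ Q₀ ∧ ∀ Q : ℕ, Q₀ ∣ Q → 1 ≤ Q → ∀ᶠ n : ℕ in atTop, ∀ G : Gd,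
              GW μ s R B C₀ (h8 Q (ρ * e) n) K (m8 K e n + (m₀ + m₁)) G → ∃ ν : NV31,
                NB8 μ s (Tg (h8 Q (ρ * e) n) K) (m₀ + m₁) ⟨PV, c₁, c₃, QV, SV, w₁, w₁', w₂, kst, q₁, q₂, gf, u⟩ ν ∧
                ∀ Γ : Cx, Adm μ s c₂ δ κ n Γ →
                  ∑ c ∈ S8 e K n G Γ, ∫⁻ ω in Nar (fun t => V8 μ s Γ ν u G t (G.z t c)) (m8 K e n / Z) (m8 K e n / Z / 8 + 1),
                    ENNReal.ofReal (Γ.w c ω) ∂(law μ) ≤ ENNReal.ofReal ((n : ℝ) ^ (-s'))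

/-! ### The second leaf -/

/-- **ONE CONTEXT**, everything but `nu` and `V`. -/
structure Ce8 (μ : Measure ℝ) [IsProbabilityMeasure μ] (s : ℝ) (D : Sd8) (T : ℕ → ℕ) (Sb : ℕ → Set Env) (Sp : ℕ → ℕ × ℤ → Set Env)
    (n m₂ NF : ℕ) (q : ℕ → ℝ) (e a s' : ℝ) (Γ : Cx) (Ψ Sg : Env → ℝ) (V So : ℕ → ℕ × ℤ → Set Env) (bO : ℕ → ℕ × ℤ → Env → ℝ)
    (Bd : Set Env) : Prop where
  mSo : ∀ j < D.m, ∀ z, MeasurableSet (So j z)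
  rSo : ∀ j < D.m, ∀ z : ℕ × ℤ, On20 (rout (((D.G.z j z).1 : ℤ) - T j) (((D.G.z j z).1 : ℤ) + T j)) (So j z)
  /-- **the fresh ball**: `NF` events of disjoint regions which may depend on the outside `ω` -/
  fr : ∀ i < D.m, ∀ q₀ ∈ D.S n e Γ, ∀ ω ∈ V i (D.G.z i q₀), ∃ (A' : ℕ → Set Pt) (E : ℕ → Set Env),
    (∀ j < NF, MeasurableSet (E j)) ∧ (∀ j < NF, On20 (A' j) (E j)) ∧ (∀ j < NF, ∀ j' < NF, j ≠ j' → Disjoint (A' j) (A' j')) ∧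
    (∀ j < NF, q j ≤ (law μ).real (E j)) ∧ ∀ η, (∀ j < NF, η ∈ E j) → ∀ ζ, ζ = gl (T10.At (D.G.x (i + m₂) q₀) (AT T (i + m₂))) η ω →
      ζ ∈ So i (D.G.z i q₀) ∧ sh (D.G.x i q₀) ζ ∈ Sb i ∧
      (∀ b ∈ D.S n e Γ, D.G.z i b = D.G.z i q₀ → sh (D.G.x i q₀) ζ ∈ Sp i (D.G.z (i - 1) (D.G.rel i b))) ∧
      ζ ∈ NR60 D.G D.L D.Lv i (i - 2) q₀ ∧
      a ≤ ∑ b ∈ (D.S n e Γ).filter (fun b => D.G.z i b = D.G.z i q₀), Γ.w b ζ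
  mB : MeasurableSet Bd
  /-- **bad environments** -/
  bd : (law μ).real Bd ≤ (n : ℝ) ^ (-(40 : ℝ))
  /-- **success: weight and total functional are those of the inside** -/
  close : ∀ l < D.m, ∀ c ∈ D.S n e Γ, ∀ η, η ∈ V l (D.G.z l c) → η ∈ So l (D.G.z l c) → sh (D.G.x l c) η ∈ Sb l →
    sh (D.G.x l c) η ∈ Sp l (D.G.z (l - 1) (D.G.rel l c)) → η ∉ Rch (lvL D.G D.Lv D.L) (l - 2) c → η ∉ Bd →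
    |Γ.w c η - D.vI l (D.G.rel l c) (sh (D.G.x l c) η)| ≤ (n : ℝ) ^ (-(40 : ℝ)) + (n : ℝ) ^ (-s') * Γ.w c η ∧
    |Ψ η - D.PI l (D.G.rel l c) (sh (D.G.x l c) η)| ≤ (n : ℝ) ^ (-(40 : ℝ)) + (n : ℝ) ^ (-s') * (1 + Sg η)
  obO : ∀ l < D.m, ∀ c ∈ D.S n e Γ, OffF (T10.At (D.G.x l c) (AT T l)) (bO l (D.G.z l c))
  /-- **success: the balance point is seen from outside** -/
  bal : ∀ l < D.m, ∀ c ∈ D.S n e Γ, ∀ η, η ∈ V l (D.G.z l c) → η ∈ So l (D.G.z l c) → sh (D.G.x l c) η ∈ Sb l →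
    sh (D.G.x l c) η ∈ Sp l (D.G.z (l - 1) (D.G.rel l c)) → η ∉ Rch (lvL D.G D.Lv D.L) (l - 2) c → η ∉ Bd →
    |Γ.B η - bO l (D.G.z l c) η| ≤ (n : ℝ) ^ (-s') * EE μ s n

/-- **FRESH BALL, CLOSENESS, BALANCE.** -/
def FrS8 (μ : Measure ℝ) [IsProbabilityMeasure μ] (s c c₁ c₃ : ℝ) (Ψ Sg : Cx → Env → ℝ) : Prop :=
  ∃ ρ₂ : ℝ, 0 < ρ₂ ∧ ∀ ρ : ℝ, 0 < ρ → ρ ≤ ρ₂ → ρ ≤ 1 →
  ∀ e : ℝ, 0 < e → e ≤ 1 / 32 → ∃ (R : ℝ) (K₂ : ℕ), 1 ≤ R ∧ 2 ≤ K₂ ∧ ∀ K : ℕ, K₂ ≤ K → ∀ (B : ℕ) (C₀ : ℝ), 2 ≤ B → 1 ≤ C₀ →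
    ∃ θ Kw : ℝ, 0 < θ ∧ θ ≤ 1 ∧ 0 < Kw ∧ ∀ (P : ℕ) (A' a₁ g₁ : ℝ) (n₁ : ℕ), 0 < A' → 0 < a₁ → 0 < g₁ → g₁ ≤ 1 → 1 ≤ n₁ →
      Tl8 μ s c θ Kw P A' a₁ g₁ n₁ → ∃ χ : ℝ, 0 < χ ∧ ∀ (Z m₀ : ℕ) (kst C' : ℝ) (pw : ℕ), 1 ≤ Z → 1 ≤ m₀ → 0 < kst → 1 ≤ C' →
      ∃ (m₁ g : ℕ) (U : ℝ), 1 ≤ m₁ ∧ 1 ≤ g ∧ C' * ((m₀ + m₁ + g : ℕ) : ℝ) ^ pw ≤ U ∧ ∀ w₁ : ℝ, 0 < w₁ → ∃ w₁' : ℝ, w₁ ≤ w₁' ∧
        ∀ q₁ : ℝ, 0 < q₁ → ∃ (PV : ℕ) (QV SV gf u : ℝ), 0 < QV ∧ 0 < SV ∧ 0 < gf ∧ 0 < u ∧ ∀ w₂ q₂ : ℝ, w₁' ≤ w₂ → 0 < q₂ →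
          ∃ (NF : ℕ) (q : ℕ → ℝ) (a s₀ : ℝ), (∀ j < NF, 0 < q j) ∧ 0 < a ∧ 0 < s₀ ∧
            ∀ c₂ : ℝ, 0 < c₂ → c₂ ≤ s₀ → ∀ δ : ℝ, 0 < δ → δ ≤ c₂ / 16 → ∃ κ₀ : ℝ, 0 < κ₀ ∧ ∀ κ : ℝ, 0 < κ → κ ≤ κ₀ →
              ∃ Q₀ : ℕ, 1 ≤ Q₀ ∧ ∀ Q : ℕ, Q₀ ∣ Q → 1 ≤ Q → ∀ᶠ n : ℕ in atTop, ∀ G : Gd,
                GW μ s R B C₀ (h8 Q (ρ * e) n) K (m8 K e n + (m₀ + m₁)) G → ∀ ν : NV31,
                  NB8 μ s (Tg (h8 Q (ρ * e) n) K) (m₀ + m₁) ⟨PV, c₁, c₃, QV, SV, w₁, w₁', w₂, kst, q₁, q₂, gf, u⟩ ν →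
                  ∃ (Sb : ℕ → Set Env) (Sp : ℕ → ℕ × ℤ → Set Env) (vI PI : ℕ → ℕ × ℤ → Env → ℝ),
                    Cm8 G (Tg (h8 Q (ρ * e) n) K) (m8 K e n / Z) Sb Sp vI PI ∧ ∀ Γ : Cx, Adm μ s c₂ δ κ n Γ →
                      ∃ (So : ℕ → ℕ × ℤ → Set Env) (bO : ℕ → ℕ × ℤ → Env → ℝ) (Bd : Set Env),
                        Ce8 μ s (D8 μ s c θ Kw P U χ e (ρ * e) K Q Z (m₀ + m₁) n G Sb Sp vI PI) (Tg (h8 Q (ρ * e) n) K) Sb Sp n (m₀ + m₁) NF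
                          q e a s₀ Γ (Ψ Γ) (Sg Γ) (V8 μ s Γ ν u G) So bO Bd

/-- **THE TWO LEAVES GIVE THE SHELL.** -/
theorem shlR_of8 {s c c₁ c₃ : ℝ} {Ψ Sg : Cx → Env → ℝ} (hT' : TF μ Ψ Sg) (hN : NuS8 μ s c₁ c₃)
    (hF : FrS8 μ s c c₁ c₃ Ψ Sg) : ShlR8 μ s c Ψ Sg := by
  obtain ⟨ρ₁, hρ₁, hN⟩ := hN
  obtain ⟨ρ₂, hρ₂, hF⟩ := hF
  obtain ⟨ρ, hρe⟩ : ∃ ρ : ℝ, ρ = min (min ρ₁ ρ₂) 1 := ⟨_, rfl⟩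
  have hρ : 0 < ρ := hρe ▸ lt_min (lt_min hρ₁ hρ₂) one_pos
  have r1 : ρ ≤ ρ₁ := hρe ▸ (min_le_left _ _).trans (min_le_left _ _)
  have r2 : ρ ≤ ρ₂ := hρe ▸ (min_le_left _ _).trans (min_le_right _ _)
  have r3 : ρ ≤ 1 := hρe ▸ min_le_right _ _
  intro e he he1
  obtain ⟨K₁, hN⟩ := hN ρ hρ r1 r3 e he he1
  obtain ⟨R, K₂, hR, hK₂, hF⟩ := hF ρ hρ r2 r3 e he he1
  obtain ⟨K, hK⟩ : ∃ K : ℕ, K = max K₁ K₂ := ⟨_, rfl⟩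
  have k1 : K₁ ≤ K := hK ▸ le_max_left _ _
  have k2 : K₂ ≤ K := hK ▸ le_max_right _ _
  refine ⟨R, K, hR, hK₂.trans k2, fun B C₀ hB hC => ?_⟩
  obtain ⟨θ, Kw, hθ, hθ1, hKw, hF⟩ := hF K k2 B C₀ hB hC
  obtain ⟨Z, m₀, kst, hZ, hm₀, hkst, hN⟩ := hN K k1 (hK₂.trans k2) R B C₀ hR hB hC
  refine ⟨θ, Kw, hθ, hθ1, hKw, fun P A' a₁ g₁ n₁ hA' ha₁ hg₁ hg₁1 hn₁ hT => ?_⟩
  obtain ⟨χ, hχ, hF⟩ := hF P A' a₁ g₁ n₁ hA' ha₁ hg₁ hg₁1 hn₁ hT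
  refine ⟨χ, ρ * e, Z, hχ, mul_pos hρ he, mul_le_of_le_one_left he.le r3, hZ, fun C' pw hC' => ?_⟩
  obtain ⟨m₁, g, U, hm₁, hg, hU, hF⟩ := hF Z m₀ kst C' pw hZ hm₀ hkst hC'
  obtain ⟨w₁, hw₁, hN⟩ := hN m₁ hm₁
  obtain ⟨w₁', hw₁', hF⟩ := hF w₁ hw₁
  obtain ⟨q₁, hq₁, hN⟩ := hN w₁' hw₁'
  obtain ⟨PV, QV, SV, gf, u, hQV, hSV, hgf, hu, hF⟩ := hF q₁ hq₁
  obtain ⟨w₂, q₂, sN, hw₂, hq₂, hsN, hN⟩ := hN PV QV SV gf u hQV hSV hgf hu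
  obtain ⟨NF, q, a, sF, hq, ha, hsF, hF⟩ := hF w₂ q₂ hw₂ hq₂
  obtain ⟨s', hs'⟩ : ∃ s' : ℝ, s' = min sN sF := ⟨_, rfl⟩
  have s1 : s' ≤ sN := hs' ▸ min_le_left _ _
  have s2 : s' ≤ sF := hs' ▸ min_le_right _ _
  have s0 : 0 < s' := hs' ▸ lt_min hsN hsF
  refine ⟨m₀ + m₁, g, U, NF, q, a, s', by omega, hg, hU, hq, ha, s0, fun c₂ hc₂ hc₂s δ hδ hδc => ?_⟩
  obtain ⟨κN, hκN, hN⟩ := hN c₂ hc₂ (hc₂s.trans s1) δ hδ hδc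
  obtain ⟨κF, hκF, hF⟩ := hF c₂ hc₂ (hc₂s.trans s2) δ hδ hδc
  refine ⟨min κN κF, lt_min hκN hκF, fun κ hκ hκκ => ?_⟩
  obtain ⟨QN, hQN, hN⟩ := hN κ hκ (hκκ.trans (min_le_left _ _))
  obtain ⟨QF, hQF, hF⟩ := hF κ hκ (hκκ.trans (min_le_right _ _))
  have hQ : 1 ≤ QN * QF := Nat.mul_pos hQN hQF
  refine ⟨QN * QF, hQ, ?_⟩
  filter_upwards [hN (QN * QF) (dvd_mul_right _ _) hQ, hF (QN * QF) (dvd_mul_left _ _) hQ, eventually_ge_atTop 1] with n hN hF hn1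
  intro G hG
  obtain ⟨ν, hν, hN⟩ := hN G hG
  obtain ⟨Sb, Sp, vI, PI, hm, hF⟩ := hF G hG ν hν
  refine ⟨Sb, Sp, vI, PI, hm, fun Γ hA => ?_⟩
  obtain ⟨So, bO, Bd, h⟩ := hF Γ hA
  have hnR : (1 : ℝ) ≤ n := by exact_mod_cast hn1
  have pN : (n : ℝ) ^ (-sN) ≤ (n : ℝ) ^ (-s') := Real.rpow_le_rpow_of_exponent_le hnR (by linarith)
  have pF : (n : ℝ) ^ (-sF) ≤ (n : ℝ) ^ (-s') := Real.rpow_le_rpow_of_exponent_le hnR (by linarith)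
  refine ⟨V8 μ s Γ ν u G, So, bO, Bd,
    { mV := fun j _ z => mV8
      mSo := h.mSo
      rV := fun j hj z => ?_
      rSo := h.rSo
      fr := h.fr
      nu := (hN Γ hA).trans (ENNReal.ofReal_le_ofReal pN)
      mB := h.mB
      bd := h.bd
      close := fun l hl c' hc' η h1 h2 h3 h4 h5 h6 => ?_
      obO := h.obO
      bal := fun l hl c' hc' η h1 h2 h3 h4 h5 h6 => ?_ }⟩
  · have h1 := rV8 (μ := μ) (s := s) (Γ := Γ) (ν := ν) (u := u) (G := G) (t := j) (z := z)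
    rw [hν.em, hν.eT] at h1
    exact h1
  · have h7 := h.close l hl c' hc' η h1 h2 h3 h4 h5 h6
    have a1 := mul_le_mul_of_nonneg_right pF (Cx.w_nonneg hA.ok c' η)
    have a3 : 0 ≤ 1 + Sg Γ η := by
      have := (abs_nonneg _).trans (hT'.le Γ hA.ok η)
      linarith
    have a2 := mul_le_mul_of_nonneg_right pF a3
    exact ⟨h7.1.trans (by linarith), h7.2.trans (by linarith)⟩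
  · refine (h.bal l hl c' hc' η h1 h2 h3 h4 h5 h6).trans ?_
    exact mul_le_mul_of_nonneg_right pF (zero_le_one.trans (Pool.Agent.W_7d29a1_H.one_le_EE (μ := μ) (s := s) n))

end

end Pool.Agent.W_7d29a1_C1.H8
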