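import Pool.Agent.W_7d29a1_C1.CbS9
import Pool.Agent.W_7d29a1_C1.NumE54
import Pool.Agent.W_7d29a1_C1.Sets47
import Pool.Agent.W_7d29a1_C1.ShlC8

/-!
Both halves (MP_7d29a1_pr), attractor route [C1], SHELL: THE BRIDGE TO THE LITERAL LETTERS. (helper9)

`W47` : the data of the levels from the numbers of helper47's `So47`; `rows9` : every leaf is in the middle rows of its box; `suc9_of` :
`Lit9` with its sizes in the unit `EE R` of any scale `R` gives `Suc9`; `ce9` : the structure `Ce8` from its fields `mSo`, `rSo`, `fr` and one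
implication `hsuc` (memberships give `Suc9`).
-/

set_option autoImplicit false
set_option linter.unusedSectionVars false

namespace Pool.Agent.W_7d29a1_C1.Lt9

open MeasureTheory Filter Topology
open Pool.Agent.W_7d29a1_F Pool.Agent.W_7d29a1_h4g Pool.Agent.W_7d29a1_H Pool.Agent.W_7d29a1_HS Pool.Agent.W_7d29a1_C1.S71
open Pool.Agent.W_7d29a1_C1 (On20)
open Pool.Agent.W_7d29a1_C1.K91 (wt wt_pos shw)
open Pool.Agent.W_7d29a1_C1.H60 Pool.Agent.W_7d29a1_C1.H54 Pool.Agent.W_7d29a1_C1.Pd9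
open Pool.Agent.W_7d29a1_C1.T10 (Gd pt rout)
open Pool.Agent.W_7d29a1_C1.Nbr78 (Str78)
open Pool.Agent.W_7d29a1_C1.Fr47 (NS47)
open Pool.Agent.W_7d29a1_C1.H8 (Sd8 Ce8)

noncomputable section

/-! ### The letters of the outer half -/

/-- The data of the levels. -/
def W47 (σ : NS47) (n1 D' : ℕ → ℕ) : Lv9 := ⟨σ.T, n1, D', σ.α₁, σ.β₁, σ.α₂, σ.β₂⟩

theorem c0_W47 {σ : NS47} {n1 D' : ℕ → ℕ} {j : ℕ} {z : ℕ × ℤ} (hT : σ.T j ≤ z.1) : (W47 σ n1 D').c0 j z = σ.c0 j z := by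
  show z.1 + 1 - σ.T j = z.1 - σ.T j + 1
  omega

/-! ### The rows -/

/-- **Every leaf is in the middle rows of its box.** -/
theorem rows9 {G : Gd} {L l : ℕ} (hG : G.Ok L) (hl : l ≤ L) {W : Lv9} {c : ℕ × ℤ} (hT : W.T l ≤ (G.z l c).1) (h1 : W.n1 l + 1 ≤ W.T l)
    (h2 : W.T l + G.H l ≤ W.D' l + 1) : W.c0 l (G.z l c) + W.n1 l ≤ c.1 ∧ c.1 < W.c0 l (G.z l c) + W.D' l := by
  have e1 : (G.z l c).1 = G.H l * (c.1 / G.H l) := rfl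
  have e2 := Nat.div_add_mod c.1 (G.H l)
  have e3 := Nat.mod_lt c.1 (hG.H0 l hl)
  unfold Lv9.c0
  omega

/-! ### The sizes -/

/-- The sizes of the numbers of a success, in one unit `E`. -/
structure Sz9 (E gd ge g1 g2 gf cU cL cV c0 cUf cLf δ e e1 e2 U L L0 V ef Uf Lf : ℝ) : Prop where
  d : δ ≤ Real.exp (-(gd * E))
  e : e ≤ Real.exp (-(ge * E))
  e1 : e1 ≤ Real.exp (-(g1 * E))
  e2 : e2 ≤ Real.exp (-(g2 * E))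
  U : U ≤ Real.exp (cU * E)
  L : L ≤ Real.exp (cL * E)
  L0 : L0 ≤ Real.exp (c0 * E)
  V : V ≤ Real.exp (cV * E)
  ef : ef ≤ Real.exp (-(gf * E))
  Uf : Uf ≤ Real.exp (cUf * E)
  Lf : Lf ≤ Real.exp (cLf * E)

/-- **THE NUMBERS.** `R` = the scale of the unit (`T l` or `2 T l`). -/
theorem suc9_of {μ : Measure ℝ} {s : ℝ} [IsProbabilityMeasure μ] {c₀ C₀ : ℝ} {n₀ : ℕ} (hI : In μ s c₀ C₀ n₀)
    (hE9 : ∀ᶠ n : ℕ in atTop, (n : ℝ) ^ (1 / 9 : ℝ) ≤ EE μ s n) {e₀ e : ℝ} (he₀ : 0 < e₀) (he : e ≤ 1 / 32)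
    {gd ge g1 g2 gf cU cL cV c0 cUf cLf m : ℝ} (hgd : 0 < gd) (hm : 0 < m) (h1 : 2 * (cV + 2 * cL + cU) < ge)
    (h2 : 2 * (cV + 2 * cL + cU) < g1) (h3 : 2 * (3 * cLf + cUf) < gf) (h3' : 2 * (2 * cLf + cUf) < gf) (h4 : m + 4 * c0 < g2)
    (h5 : 4 * (2 * cLf + cUf) ≤ m) : ∀ᶠ n : ℕ in atTop, ∀ (W : Lv9) (l R : ℕ), (n : ℝ) ^ (e₀ / 4) ≤ R →
      (R : ℝ) ≤ 2 * (n : ℝ) ^ e → ∀ (Γ : Cx) (z : ℕ × ℤ) (η : Env) (m0 : ℕ) (δ e e1 e2 U L L0 V ef Uf Lf : ℝ), W.T l ≤ z.1 →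
      Lit9 Γ η (W.c0 l z) (W.n1 l) (W.D' l) (2 * W.T l) m0 (z.2 + W.al1 l) (z.2 + W.be1 l) (z.2 + W.al2 l) (z.2 + W.be2 l)
        δ e e1 e2 U L L0 V ef Uf Lf →
      Sz9 (EE μ s R) gd ge g1 g2 gf cU cL cV c0 cUf cLf δ e e1 e2 U L L0 V ef Uf Lf → Suc9 Γ W n (e₀ / 72) m0 l z η := by
  filter_upwards [nmE54 (a := e₀ / 72) (a' := e₀ / 36) (cV := cV) (cL := cL) (cU := cU) (cLf := cLf) (cUf := cUf) (c0 := c0)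
    (by linarith) (by linarith) hgd hm h1 h2 h3 h3' h4 h5, eeL54 hE9 he₀, eeU54 hI 1 he, eeU54 hI (cV + 2 * cL + cU) he,
    eventually_ge_atTop 1] with n k1 k2 k3 k4 hn1
  intro W l R hT1 hT2 Γ z η m0 δ e' e1 e2 U L L0 V ef Uf Lf hz H S
  have hnR : (1 : ℝ) ≤ n := by exact_mod_cast hn1
  have E1 := k2 _ hT1
  have E2 := k3 _ hT2
  have E3 := k4 _ hT2
  rw [one_mul] at E2
  have E2' : EE μ s R ≤ (n : ℝ) ^ 2 := by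
    refine E2.trans ?_
    rw [← Real.rpow_natCast]
    exact Real.rpow_le_rpow_of_exponent_le hnR (by norm_num)
  have hf : 0 ≤ e' ∧ 0 ≤ e1 ∧ 0 ≤ e2 ∧ 1 ≤ U ∧ 1 ≤ L ∧ 1 ≤ L0 ∧ 1 ≤ V ∧ 0 ≤ ef ∧ 1 ≤ Uf ∧ 1 ≤ Lf := by
    obtain ⟨ne, nb, n3, m, kg, ng, kr, xa, xb, sx, da, db, ya, yb, za, zb, va, vb, xm, xn, d0, ph, p1, pe, p2, p3, ph', p1', pe', p2', p3',
      pg, pm, A0, A1, A2, A3, G0, Ag, Am, Ar, hD, K⟩ := H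
    exact ⟨K.S.e0, K.he1, K.he2, K.S.U1, K.S.L1, K.S.L01, K.F.V1, K.S'.e0, K.S'.U1, K.S'.L1⟩
  obtain ⟨f1, f2, f3, f4, f5, f6, f7, f8, f9, f10⟩ := hf
  have N := k1 _ E1 E2' δ e' e1 e2 U L L0 V ef Uf Lf f1 f2 f3 (by linarith) (by linarith) (by linarith) (by linarith) f8 (by linarith)
    (by linarith) S.d S.e S.e1 S.e2 S.U S.L S.L0 S.V S.ef S.Uf S.Lf
  refine ⟨hz, δ, e', e1, e2, U, L, L0, V, ef, Uf, Lf, _, N, ?_, H⟩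
  have l1 : Real.log V ≤ cV * EE μ s R := (Real.log_le_iff_le_exp (by linarith)).2 S.V
  have l2 : Real.log L ≤ cL * EE μ s R := (Real.log_le_iff_le_exp (by linarith)).2 S.L
  have l3 : Real.log U ≤ cU * EE μ s R := (Real.log_le_iff_le_exp (by linarith)).2 S.U
  have p1 : (n : ℝ) ^ (1 / 50 : ℝ) ≤ (n : ℝ) ^ (1 / 20 : ℝ) := Real.rpow_le_rpow_of_exponent_le hnR (by norm_num)
  linarith

/-! ### The structure of one context -/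

/-- **`Ce8` FROM `mSo`, `rSo`, `fr` AND ONE IMPLICATION.** -/
theorem ce9 {μ : Measure ℝ} {s : ℝ} [IsProbabilityMeasure μ] {c₀ C₀ : ℝ} {n₀ : ℕ} (hI : In μ s c₀ C₀ n₀) (hS : Str78 μ s)
    (hE9 : ∀ᶠ n : ℕ in atTop, (n : ℝ) ^ (1 / 9 : ℝ) ≤ EE μ s n) {a e em : ℝ} (ha : 0 < a) (he : e ≤ 1 / 32) (hem : 0 < em) :
    ∃ κ₀ > (0 : ℝ), ∀ c ≤ (1 : ℝ), ∀ δ₁ : ℝ, 0 ≤ δ₁ → δ₁ ≤ 1 → ∀ κ ≤ κ₀, ∀ᶠ n : ℕ in atTop, ∀ Γ : Cx, Adm μ s c δ₁ κ n Γ →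
      ∃ Bd : Set Env, ∀ (W : Lv9) (D : Sd8) (Sb : ℕ → Set Env) (Sp : ℕ → ℕ × ℤ → Set Env) (m₂ NF : ℕ) (q : ℕ → ℝ) (a' s' : ℝ)
        (Sg : Env → ℝ) (V So : ℕ → ℕ × ℤ → Set Env), D.G.Ok D.L → (∀ l < D.m, l ≤ D.L) → D.vI = vI9 s W → D.PI = PI9 s W →
        s' ≤ 1 / 100 → (∀ η, 0 ≤ Sg η) →
        (∀ l < D.m, 1 ≤ l → W.n1 l + 1 ≤ W.T l ∧ W.T l + D.G.H l ≤ W.D' l + 1 ∧ ((2 * W.T l : ℕ) : ℝ) ≤ 2 * (n : ℝ) ^ e) →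
        (∀ j < D.m, ∀ z, MeasurableSet (So j z)) →
        (∀ j < D.m, ∀ z : ℕ × ℤ, On20 (rout (((D.G.z j z).1 : ℤ) - W.T j) (((D.G.z j z).1 : ℤ) + W.T j)) (So j z)) →
        (∀ i < D.m, ∀ q₀ ∈ D.S n e Γ, ∀ ω ∈ V i (D.G.z i q₀), ∃ (A' : ℕ → Set Pt) (E : ℕ → Set Env),
          (∀ j < NF, MeasurableSet (E j)) ∧ (∀ j < NF, On20 (A' j) (E j)) ∧ (∀ j < NF, ∀ j' < NF, j ≠ j' → Disjoint (A' j) (A' j')) ∧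
          (∀ j < NF, q j ≤ (law μ).real (E j)) ∧ ∀ η, (∀ j < NF, η ∈ E j) →
            ∀ ζ, ζ = gl (T10.At (D.G.x (i + m₂) q₀) (AT W.T (i + m₂))) η ω →
            ζ ∈ So i (D.G.z i q₀) ∧ sh (D.G.x i q₀) ζ ∈ Sb i ∧
            (∀ b ∈ D.S n e Γ, D.G.z i b = D.G.z i q₀ → sh (D.G.x i q₀) ζ ∈ Sp i (D.G.z (i - 1) (D.G.rel i b))) ∧
            ζ ∈ NR60 D.G D.L D.Lv i (i - 2) q₀ ∧
            a' ≤ ∑ b ∈ (D.S n e Γ).filter (fun b => D.G.z i b = D.G.z i q₀), Γ.w b ζ) →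
        (∀ l < D.m, ∀ c' ∈ D.S n e Γ, ∀ η, η ∉ Bd → η ∈ V l (D.G.z l c') → η ∈ So l (D.G.z l c') → sh (D.G.x l c') η ∈ Sb l →
          sh (D.G.x l c') η ∈ Sp l (D.G.z (l - 1) (D.G.rel l c')) → η ∉ Rch (lvL D.G D.Lv D.L) (l - 2) c' →
          1 ≤ l ∧ Suc9 Γ W n a (⌈(n : ℝ) ^ em⌉₊ + 1) l (D.G.z l c') η) →
        Ce8 μ s D W.T Sb Sp n m₂ NF q e a' s' Γ (PhC Γ) Sg V So (bOc Γ W) Bd := by
  obtain ⟨κ₀, hκ₀, H⟩ := cb9 hI hS hE9 (a := a) (e := e) (em := em) ha he hem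
  refine ⟨κ₀, hκ₀, fun c hc δ₁ hδ0 hδ1 κ hκ => ?_⟩
  filter_upwards [H c hc δ₁ hδ0 hδ1 κ hκ] with n h Γ hA
  obtain ⟨Bd, mB, pB, hB⟩ := h Γ hA
  refine ⟨Bd, fun W D Sb Sp m₂ NF q a' s' Sg V So ok hmL ev eP hs hSg hr mSo rSo fr hsuc => ?_⟩
  have key : ∀ l < D.m, ∀ c' ∈ D.S n e Γ, ∀ η, η ∉ Bd → η ∈ V l (D.G.z l c') → η ∈ So l (D.G.z l c') → sh (D.G.x l c') η ∈ Sb l →
      sh (D.G.x l c') η ∈ Sp l (D.G.z (l - 1) (D.G.rel l c')) → η ∉ Rch (lvL D.G D.Lv D.L) (l - 2) c' →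
      (|Γ.w c' η - vI9 s W l (D.G.rel l c') (sh (D.G.x l c') η)| ≤ (n : ℝ) ^ (-(40 : ℝ)) + (n : ℝ) ^ (-s') * Γ.w c' η ∧
        |PhC Γ η - PI9 s W l (D.G.rel l c') (sh (D.G.x l c') η)| ≤ (n : ℝ) ^ (-(40 : ℝ)) + (n : ℝ) ^ (-s') * (1 + Sg η)) ∧
      |Γ.B η - bOc Γ W l (D.G.z l c') η| ≤ (n : ℝ) ^ (-s') * EE μ s n := by
    intro l hl c' hc' η b0 b1 b2 b3 b4 b5
    obtain ⟨l1, S⟩ := hsuc l hl c' hc' η b0 b1 b2 b3 b4 b5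
    obtain ⟨r1, r2, r3⟩ := hr l hl l1
    obtain ⟨r4, r5⟩ := rows9 ok (hmL l hl) (c := c') S.1 r1 r2
    exact hB W D.G D.L l c' η s' (Sg η) b0 ok (hmL l hl) hs (hSg η) r3 r4 r5 S
  refine
    { mSo := mSo
      rSo := rSo
      fr := fr
      mB := mB
      bd := pB
      close := fun l hl c' hc' η b1 b2 b3 b4 b5 b0 => ?_
      obO := fun l hl c' hc' => obO9 Γ W D.G l c'
      bal := fun l hl c' hc' η b1 b2 b3 b4 b5 b0 => (key l hl c' hc' η b0 b1 b2 b3 b4 b5).2 }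
  rw [ev, eP]
  exact (key l hl c' hc' η b0 b1 b2 b3 b4 b5).1

end

end Pool.Agent.W_7d29a1_C1.Lt9
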