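import Mathlib

/-!
# Which entrance cell (helper37)

One row behind the contact `c`.  `Lc v, LM v, LR v` are the masses which arrive at the site `v`
of this row from the contact, from the left group and from the right group, `B v` is the kernel
behind `v` times the future (common to the three).  The weight of the contact is
`NI * (∑ Lc B)^2 / ((∑ LM B + zM) (∑ LR B + zR))`.
By the Cauchy-Schwarz inequality it is at most `NI * max_v Lc v ^ 2 / (LM v * LR v)`, WHATEVER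
`B` is (no monotonicity, no cell of this environment); and a gate (kernel `g * A` on a cell `β`
where the maximum is almost attained) gives at least a constant times this.
If the arrival masses are mixtures `L x v = ∑ j, a x j * p j v` of finitely many classes `j`
(transition zones at positive temperature), the maximum over `v` is at most the maximum over the
classes (`mix`).
-/

namespace Pool.Agent.W_7d29a1_C1.Cheb37

open Finset
open scoped BigOperators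

variable {ι : Type*}

/-- **Upper bound for every kernel behind the row**: if `kk * Lc v ^ 2 ≤ LM v * LR v` on the whole
row (`1/kk` = the maximum of `Lc^2/(LM LR)`), then
`kk * (∑ Lc B)^2 ≤ (∑ LM B) (∑ LR B)`. -/
theorem old_le {s : Finset ι} {Lc LM LR : ι → ℝ} (B : ι → ℝ)
    (hM : ∀ v ∈ s, 0 ≤ LM v) (hR : ∀ v ∈ s, 0 ≤ LR v)
    (hB : ∀ v ∈ s, 0 ≤ B v) {kk : ℝ} (hkk : 0 ≤ kk)
    (hc : ∀ v ∈ s, 0 ≤ Lc v) (hk : ∀ v ∈ s, kk * Lc v ^ 2 ≤ LM v * LR v) :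
    kk * (∑ v ∈ s, Lc v * B v) ^ 2 ≤ (∑ v ∈ s, LM v * B v) * (∑ v ∈ s, LR v * B v) := by
  have h1 : Real.sqrt kk * (∑ v ∈ s, Lc v * B v)
      ≤ ∑ v ∈ s, Real.sqrt (LM v * B v) * Real.sqrt (LR v * B v) := by
    rw [Finset.mul_sum]
    refine Finset.sum_le_sum fun v hv => ?_
    have hb := hB v hv
    have h2 : Real.sqrt kk * (Lc v * B v) = Real.sqrt (kk * (Lc v * B v) ^ 2) := by
      rw [Real.sqrt_mul hkk, Real.sqrt_sq (mul_nonneg (hc v hv) hb)]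
    rw [h2, ← Real.sqrt_mul (mul_nonneg (hM v hv) hb)]
    apply Real.sqrt_le_sqrt
    have h3 := mul_le_mul_of_nonneg_right (hk v hv) (mul_nonneg hb hb)
    nlinarith
  have h0 : 0 ≤ Real.sqrt kk * (∑ v ∈ s, Lc v * B v) :=
    mul_nonneg (Real.sqrt_nonneg _)
      (Finset.sum_nonneg fun v hv => mul_nonneg (hc v hv) (hB v hv))
  have h4 : (Real.sqrt kk * (∑ v ∈ s, Lc v * B v)) ^ 2
      ≤ (∑ v ∈ s, Real.sqrt (LM v * B v) * Real.sqrt (LR v * B v)) ^ 2 := by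
    exact pow_le_pow_left₀ h0 h1 2
  have h5 := Finset.sum_mul_sq_le_sq_mul_sq s (fun v => Real.sqrt (LM v * B v))
    (fun v => Real.sqrt (LR v * B v))
  have e1 : ∑ v ∈ s, Real.sqrt (LM v * B v) ^ 2 = ∑ v ∈ s, LM v * B v :=
    Finset.sum_congr rfl fun v hv => Real.sq_sqrt (mul_nonneg (hM v hv) (hB v hv))
  have e2 : ∑ v ∈ s, Real.sqrt (LR v * B v) ^ 2 = ∑ v ∈ s, LR v * B v :=
    Finset.sum_congr rfl fun v hv => Real.sq_sqrt (mul_nonneg (hR v hv) (hB v hv))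
  rw [e1, e2] at h5
  have e3 : (Real.sqrt kk * (∑ v ∈ s, Lc v * B v)) ^ 2 = kk * (∑ v ∈ s, Lc v * B v) ^ 2 := by
    rw [mul_pow, Real.sq_sqrt hkk]
  rw [e3] at h4
  exact le_trans h4 h5

/-- **Transition zones.**  If the three arrival masses are mixtures over finitely many classes
with common profiles `p j ≥ 0`, and `kk a_c(j)^2 ≤ a_M(j) a_R(j)` for every class, then
`kk Lc(v)^2 ≤ LM(v) LR(v)` for every `v`. -/
theorem mix {J : Type*} {s : Finset J} {ac aM aR p : J → ℝ} {kk : ℝ} (hkk : 0 ≤ kk)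
    (hc : ∀ j ∈ s, 0 ≤ ac j) (hM : ∀ j ∈ s, 0 ≤ aM j) (hR : ∀ j ∈ s, 0 ≤ aR j)
    (hp : ∀ j ∈ s, 0 ≤ p j) (hk : ∀ j ∈ s, kk * ac j ^ 2 ≤ aM j * aR j) :
    kk * (∑ j ∈ s, ac j * p j) ^ 2 ≤ (∑ j ∈ s, aM j * p j) * (∑ j ∈ s, aR j * p j) :=
  old_le p hM hR hp hkk hc hk

/-- the weight of the contact: `NI` = non meeting mass up to the contact, `zM, zR` = masses which
do not use the row `s` -/
noncomputable def wt (NI : ℝ) (s : Finset ι) (Lc LM LR B : ι → ℝ) (zM zR : ℝ) : ℝ :=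
  NI * (∑ v ∈ s, Lc v * B v) ^ 2 /
    ((∑ v ∈ s, LM v * B v + zM) * (∑ v ∈ s, LR v * B v + zR))

/-- old weight, whatever the kernel behind the row is -/
theorem wt_le {s : Finset ι} {Lc LM LR : ι → ℝ} (B : ι → ℝ)
    (hM : ∀ v ∈ s, 0 ≤ LM v) (hR : ∀ v ∈ s, 0 ≤ LR v) (hc : ∀ v ∈ s, 0 ≤ Lc v)
    (hB : ∀ v ∈ s, 0 ≤ B v) {kk NI zM zR : ℝ} (hNI : 0 ≤ NI) (hzM : 0 ≤ zM) (hzR : 0 ≤ zR)
    (hkk : 0 < kk) (hk : ∀ v ∈ s, kk * Lc v ^ 2 ≤ LM v * LR v) :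
    wt NI s Lc LM LR B zM zR ≤ NI / kk := by
  unfold wt
  have hM0 : 0 ≤ ∑ v ∈ s, LM v * B v :=
    Finset.sum_nonneg fun v hv => mul_nonneg (hM v hv) (hB v hv)
  have hR0 : 0 ≤ ∑ v ∈ s, LR v * B v :=
    Finset.sum_nonneg fun v hv => mul_nonneg (hR v hv) (hB v hv)
  have h1 := old_le B hM hR hB hkk.le hc hk
  have h2 : (∑ v ∈ s, LM v * B v) * (∑ v ∈ s, LR v * B v)
      ≤ (∑ v ∈ s, LM v * B v + zM) * (∑ v ∈ s, LR v * B v + zR) := by
    apply mul_le_mul <;> linarith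
  have h3 : 0 ≤ (∑ v ∈ s, LM v * B v + zM) * (∑ v ∈ s, LR v * B v + zR) := by positivity
  rcases h3.eq_or_lt with h4 | h4
  · rw [← h4, div_zero]; positivity
  · rw [div_le_div_iff₀ h4 hkk]
    have h5 := le_trans h1 h2
    have := mul_le_mul_of_nonneg_left h5 hNI
    nlinarith

/-- **Gate.**  The kernel behind the row is now `g * A` on the cell `β` (and something in
`zM, zR` for everybody who does not enter at `β`); on `β` the ratios are almost those of the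
maximum: `LM v * K1 ≤ Lc v`, `LR v * K2 ≤ Lc v`; the bonus beats the others
(`zM ≤ ∑ LM A g`, `zR ≤ ∑ LR A g`).  Then the new weight is at least `NI K1 K2 / 4`. -/
theorem wt_gate {β : Finset ι} {Lc LM LR A : ι → ℝ} {g NI zM zR K1 K2 : ℝ}
    (hA : ∀ v ∈ β, 0 ≤ A v) (hg : 0 ≤ g) (hNI : 0 ≤ NI) (hK1 : 0 ≤ K1) (hK2 : 0 ≤ K2)
    (hzM : 0 ≤ zM) (hzR : 0 ≤ zR)
    (h1 : ∀ v ∈ β, LM v * K1 ≤ Lc v) (h2 : ∀ v ∈ β, LR v * K2 ≤ Lc v)
    (hbM : zM ≤ ∑ v ∈ β, LM v * (g * A v)) (hbR : zR ≤ ∑ v ∈ β, LR v * (g * A v))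
    (hpM : 0 < ∑ v ∈ β, LM v * (g * A v)) (hpR : 0 < ∑ v ∈ β, LR v * (g * A v)) :
    NI * (K1 * K2) / 4 ≤ wt NI β Lc LM LR (fun v => g * A v) zM zR := by
  unfold wt
  set C := ∑ v ∈ β, Lc v * (g * A v) with hC
  set M := ∑ v ∈ β, LM v * (g * A v) with hMd
  set R := ∑ v ∈ β, LR v * (g * A v) with hRd
  have e1 : M * K1 ≤ C := by
    rw [hMd, hC, Finset.sum_mul]
    refine Finset.sum_le_sum fun v hv => ?_
    have := mul_le_mul_of_nonneg_right (h1 v hv) (mul_nonneg hg (hA v hv))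
    linarith
  have e2 : R * K2 ≤ C := by
    rw [hRd, hC, Finset.sum_mul]
    refine Finset.sum_le_sum fun v hv => ?_
    have := mul_le_mul_of_nonneg_right (h2 v hv) (mul_nonneg hg (hA v hv))
    linarith
  have e3 : (M * K1) * (R * K2) ≤ C ^ 2 := by
    have h3 : 0 ≤ M * K1 := mul_nonneg hpM.le hK1
    have h4 : 0 ≤ R * K2 := mul_nonneg hpR.le hK2
    nlinarith
  have e4 : (M + zM) * (R + zR) ≤ 4 * (M * R) := by nlinarith
  have hpos : 0 < (M + zM) * (R + zR) := by positivity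
  rw [div_le_div_iff₀ (by norm_num) hpos]
  calc NI * (K1 * K2) * ((M + zM) * (R + zR)) ≤ NI * (K1 * K2) * (4 * (M * R)) :=
        mul_le_mul_of_nonneg_left e4 (by positivity)
    _ = NI * ((M * K1) * (R * K2)) * 4 := by ring
    _ ≤ NI * C ^ 2 * 4 := by
        have := mul_le_mul_of_nonneg_left e3 hNI
        linarith

/-- **The hazard of the gate, both sides together.**  `kk` = a lower bound of `LM LR / Lc^2` on
the whole row (old content `B` behind the row arbitrary); on the cell `K1 K2 ≥ th / kk`.  Then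
`new weight ≥ (th / 4) * old weight`. -/
theorem hazard {s β : Finset ι} {Lc LM LR A B : ι → ℝ} {g NI zM zR zM' zR' K1 K2 kk th : ℝ}
    (hM : ∀ v ∈ s, 0 ≤ LM v) (hR : ∀ v ∈ s, 0 ≤ LR v) (hc : ∀ v ∈ s, 0 ≤ Lc v)
    (hB : ∀ v ∈ s, 0 ≤ B v) (hA : ∀ v ∈ β, 0 ≤ A v)
    (hg : 0 ≤ g) (hNI : 0 ≤ NI) (hK1 : 0 ≤ K1) (hK2 : 0 ≤ K2)
    (hzM : 0 ≤ zM) (hzR : 0 ≤ zR) (hzM' : 0 ≤ zM') (hzR' : 0 ≤ zR')
    (hkk : 0 < kk) (hk : ∀ v ∈ s, kk * Lc v ^ 2 ≤ LM v * LR v)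
    (h1 : ∀ v ∈ β, LM v * K1 ≤ Lc v) (h2 : ∀ v ∈ β, LR v * K2 ≤ Lc v)
    (hth : th ≤ K1 * K2 * kk) (hth0 : 0 ≤ th)
    (hbM : zM' ≤ ∑ v ∈ β, LM v * (g * A v)) (hbR : zR' ≤ ∑ v ∈ β, LR v * (g * A v))
    (hpM : 0 < ∑ v ∈ β, LM v * (g * A v)) (hpR : 0 < ∑ v ∈ β, LR v * (g * A v)) :
    th / 4 * wt NI s Lc LM LR B zM zR ≤ wt NI β Lc LM LR (fun v => g * A v) zM' zR' := by
  have e1 := wt_le B hM hR hc hB hNI hzM hzR hkk hk
  have e2 := wt_gate (NI := NI) (K1 := K1) (K2 := K2) (zM := zM') (zR := zR')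
    hA hg hNI hK1 hK2 hzM' hzR' h1 h2 hbM hbR hpM hpR
  have e3 : th / 4 * wt NI s Lc LM LR B zM zR ≤ th / 4 * (NI / kk) :=
    mul_le_mul_of_nonneg_left e1 (by positivity)
  have e4 : th / 4 * (NI / kk) ≤ NI * (K1 * K2) / 4 := by
    have h5 : th / kk ≤ K1 * K2 := by
      rw [div_le_iff₀ hkk]; exact hth
    have h6 : th / 4 * (NI / kk) = NI / 4 * (th / kk) := by ring
    rw [h6]
    have := mul_le_mul_of_nonneg_left h5 (by positivity : (0 : ℝ) ≤ NI / 4)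
    linarith
  linarith

end Pool.Agent.W_7d29a1_C1.Cheb37
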