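import Pool.Agent.W_7d29a1_C1.Seq71B

/-!
MP_7d29a1_pr, the attractor route, separation by moving the contact: UNION OVER THE CHAINS OF CENTRES. (helper40)

A centre `x` has slabs: the slab of the scale `u` consists of the rows `(rc + T (u-1), rc + T u]`, `rc` = the next multiple of
`T (u-2)` above the row of `x`. A chain from `(x, τ)` is a list of steps `(s, i, ρ)`, `τ ≤ s < i`, the next step starts at a scale
`≥ i + 2`; `ρ` is the old centre (late alternative) or a centre which is `T (i-1)` to `T i` rows earlier (move of the contact); the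
slabs `(ρ, u)`, `s ≤ u < i - 1`, are used. All the slabs of a chain are disjoint, and the slabs of a chain from `(x, τ)` do not meet
the rows `(row x, row x + T (τ-1)]`. `dep u (loc u x)` is a depth which reads only the slab `(x, u)`. `chn40`: the probability that
some chain has total depth at least `r` is at most `(4A)^(m+2) A^m M^m / z^r`. `Yp` is the potential `inf over the chains of
y ^ (total depth)`.
-/

set_option autoImplicit false

namespace Pool.Agent.W_7d29a1_C1.H40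

open MeasureTheory ProbabilityTheory Finset
open Pool.Agent.W_7d29a1_F Pool.Agent.W_7d29a1_C1.S71
open scoped ENNReal Classical

noncomputable section

/-! ### Rows -/

/-- The scales. -/
def Tk (T0 K u : ℕ) : ℕ := T0 * K ^ u

theorem Tk_mono {T0 K u v : ℕ} (hK : 8 ≤ K) (h : u ≤ v) : Tk T0 K u ≤ Tk T0 K v :=
  Nat.mul_le_mul_left _ (Nat.pow_le_pow_right (by omega) h)

theorem Tk_pos {T0 K : ℕ} (hT : 1 ≤ T0) (hK : 8 ≤ K) (u : ℕ) : 1 ≤ Tk T0 K u :=
  Nat.mul_pos hT (Nat.pow_pos (by omega))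

theorem Tk_succ {T0 K : ℕ} (hK : 8 ≤ K) (u : ℕ) : 8 * Tk T0 K u ≤ Tk T0 K (u + 1) := by
  unfold Tk
  rw [pow_succ]
  calc 8 * (T0 * K ^ u) ≤ K * (T0 * K ^ u) := Nat.mul_le_mul_right _ hK
    _ = T0 * (K ^ u * K) := by ring

theorem Tk_dvd {T0 K u v : ℕ} (h : u ≤ v) : Tk T0 K u ∣ Tk T0 K v :=
  mul_dvd_mul_left _ (pow_dvd_pow _ h)

/-- The next multiple of `D` strictly above `r`. -/
def nxt (D : ℕ) (r : ℤ) : ℤ := (D : ℤ) * (r / D + 1)

theorem lt_nxt {D : ℕ} (hD : 1 ≤ D) (r : ℤ) : r < nxt D r := by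
  unfold nxt
  have h1 := Int.emod_lt_of_pos r (show (0 : ℤ) < D by exact_mod_cast hD)
  have h2 := Int.mul_ediv_add_emod r D
  linarith

theorem nxt_le {D : ℕ} (hD : 1 ≤ D) (r : ℤ) : nxt D r ≤ r + D := by
  unfold nxt
  have h1 := Int.emod_nonneg r (show (D : ℤ) ≠ 0 by positivity)
  have h2 := Int.mul_ediv_add_emod r D
  linarith

theorem nxt_mono {D D' : ℕ} (hD : 1 ≤ D) (hD' : 1 ≤ D') (h : D ∣ D') (r : ℤ) : nxt D r ≤ nxt D' r := by
  obtain ⟨q, rfl⟩ := h
  have h1 := lt_nxt hD' r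
  have h0 : (0 : ℤ) < D := by exact_mod_cast hD
  unfold nxt at h1 ⊢
  set k : ℤ := (q : ℤ) * (r / ((D * q : ℕ) : ℤ) + 1) with hk
  have e : ((D * q : ℕ) : ℤ) * (r / ((D * q : ℕ) : ℤ) + 1) = k * D := by
    rw [hk]
    push_cast
    ring
  rw [e] at h1 ⊢
  have h2 : r / (D : ℤ) < k := (Int.ediv_lt_iff_lt_mul h0).2 h1
  rw [mul_comm]
  exact mul_le_mul_of_nonneg_right (by linarith) h0.le

/-- The geometry of the centres. -/
structure Geo (σ Λ : Type*) where
  T0 : ℕ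
  K : ℕ
  m : ℕ
  hT : 1 ≤ T0
  hK : 8 ≤ K
  row : σ → ℤ
  /-- coarse position at the scale `u` -/
  loc : ℕ → σ → Λ
  nest : ∀ u v, u ≤ v → ∀ x y, loc u x = loc u y → loc v x = loc v y
  /-- lateral nearness at the scale `i` -/
  near : ℕ → σ → σ → Prop
  /-- the window -/
  W : Set σ

variable {σ Λ : Type*}

namespace Geo

variable (G : Geo σ Λ)

/-- The scale `u` in rows. -/
def T (u : ℕ) : ℕ := Tk G.T0 G.K u

/-- The coarse row at the scale `u`. -/
def rc (u : ℕ) (r : ℤ) : ℤ := nxt (G.T (u - 2)) r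

/-- The rows of the slab of the scale `u` after a centre in the row `r`. -/
def sr (u : ℕ) (r : ℤ) : Set ℤ := Set.Ioc (G.rc u r + G.T (u - 1)) (G.rc u r + G.T u)

theorem T_pos (u : ℕ) : 1 ≤ G.T u := Tk_pos G.hT G.hK u

theorem T_mono {u v : ℕ} (h : u ≤ v) : G.T u ≤ G.T v := Tk_mono G.hK h

theorem T_succ (u : ℕ) : 8 * G.T u ≤ G.T (u + 1) := Tk_succ G.hK u

theorem lt_of_mem_sr {u : ℕ} {r t : ℤ} (h : t ∈ G.sr u r) : r + G.T (u - 1) < t := by
  have h1 := lt_nxt (G.T_pos (u - 2)) r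
  have h2 : G.rc u r + G.T (u - 1) < t := h.1
  unfold rc at h2
  linarith

theorem le_of_mem_sr {u : ℕ} {r t : ℤ} (h : t ∈ G.sr u r) : t ≤ r + 2 * G.T u := by
  have h1 := nxt_le (G.T_pos (u - 2)) r
  have h2 : t ≤ G.rc u r + G.T u := h.2
  have h3 : (G.T (u - 2) : ℤ) ≤ G.T u := by exact_mod_cast G.T_mono (Nat.sub_le u 2)
  unfold rc at h2
  linarith

/-- The slabs of one centre are disjoint. -/
theorem sr_disj {u v : ℕ} {r t : ℤ} (hu : t ∈ G.sr u r) (hv : t ∈ G.sr v r) : u = v := by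
  have key : ∀ a b : ℕ, a < b → t ∈ G.sr a r → t ∈ G.sr b r → False := by
    intro a b hab ha hb
    have h1 : t ≤ G.rc a r + G.T a := ha.2
    have h2 : G.rc b r + G.T (b - 1) < t := hb.1
    have h3 : G.rc a r ≤ G.rc b r :=
      nxt_mono (G.T_pos _) (G.T_pos _) (Tk_dvd (by omega)) r
    have h4 : (G.T a : ℤ) ≤ G.T (b - 1) := by exact_mod_cast G.T_mono (show a ≤ b - 1 by omega)
    linarith
  rcases lt_trichotomy u v with h | h | h
  · exact (key u v h hu hv).elim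
  · exact h
  · exact (key v u h hv hu).elim

/-- The relation of successive centres: the same centre, or a move of the contact to an earlier centre. -/
def R (i : ℕ) (x ρ : σ) : Prop :=
  ρ = x ∨ ((G.T (i - 1) : ℤ) ≤ G.row x - G.row ρ ∧ G.row x - G.row ρ ≤ G.T i ∧ G.near i x ρ)

/-- Chains from `(x, τ)`. -/
def IsCh : σ → ℕ → List (ℕ × ℕ × σ) → Prop
  | _, _, [] => True
  | x, τ, (s, i, ρ) :: l => τ ≤ s ∧ s < i ∧ i ≤ G.m ∧ ρ ∈ G.W ∧ G.R i x ρ ∧ IsCh ρ (i + 2) l

/-- The rows used at the scale `u`. -/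
def Al : List (ℕ × ℕ × σ) → ℕ → Set Pt
  | [], _ => ∅
  | (s, i, ρ) :: l, u => {p | s ≤ u ∧ u < i - 1 ∧ p.1 ∈ G.sr u (G.row ρ)} ∪ Al l u

/-- The total depth of a chain. -/
def num (dep : ℕ → Λ → Env → ℕ) : List (ℕ × ℕ × σ) → Env → ℕ
  | [], _ => 0
  | (s, i, ρ) :: l, ω => ∑ u ∈ Ico s (i - 1), dep u (G.loc u ρ) ω + num dep l ω

/-- The depth at the scale `u`. -/
def Nl (dep : ℕ → Λ → Env → ℕ) : List (ℕ × ℕ × σ) → ℕ → Env → ℕ
  | [], _, _ => 0
  | (s, i, ρ) :: l, u, ω => (if s ≤ u ∧ u < i - 1 then dep u (G.loc u ρ) ω else 0) + Nl dep l u ω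

variable {G}

theorem R.row_le {i : ℕ} {x ρ : σ} (h : G.R i x ρ) : G.row ρ ≤ G.row x := by
  rcases h with rfl | ⟨h1, -, -⟩
  · exact le_rfl
  · have : (0 : ℤ) ≤ G.T (i - 1) := by positivity
    linarith

theorem R.row_ge {i : ℕ} {x ρ : σ} (h : G.R i x ρ) : G.row x - G.T i ≤ G.row ρ := by
  rcases h with rfl | ⟨-, h1, -⟩
  · have : (0 : ℤ) ≤ G.T i := by positivity
    linarith
  · linarith

/-- The slabs of a chain from `(x, τ)` have scale at least `τ` and avoid the rows `(row x, row x + T (τ-1)]`. -/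
theorem IsCh.rows {x : σ} {τ : ℕ} {l : List (ℕ × ℕ × σ)} (h : G.IsCh x τ l) {u : ℕ} {p : Pt} (hp : p ∈ G.Al l u) :
    τ ≤ u ∧ (p.1 ≤ G.row x ∨ G.row x + G.T (τ - 1) < p.1) := by
  induction l generalizing x τ with
  | nil => exact hp.elim
  | cons a l ih =>
    obtain ⟨s, i, ρ⟩ := a
    obtain ⟨h1, h2, h3, h4, h5, h6⟩ := h
    rcases hp with ⟨h7, h8, h9⟩ | hp
    · refine ⟨h1.trans h7, ?_⟩
      have hT1 : (G.T (τ - 1) : ℤ) ≤ G.T (u - 1) := by exact_mod_cast G.T_mono (show τ - 1 ≤ u - 1 by omega)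
      rcases h5 with rfl | ⟨h10, h11, -⟩
      · right
        have := G.lt_of_mem_sr h9
        linarith
      · left
        have h12 := G.le_of_mem_sr h9
        have h13 : 8 * G.T (i - 2) ≤ G.T (i - 1) := by
          have := G.T_succ (i - 2)
          rwa [show i - 2 + 1 = i - 1 by omega] at this
        have h14 : G.T u ≤ G.T (i - 2) := G.T_mono (by omega)
        have h15 : (2 * G.T u : ℤ) ≤ G.T (i - 1) := by exact_mod_cast (by omega)
        linarith
    · obtain ⟨h7, h8⟩ := ih h6 hp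
      refine ⟨by omega, ?_⟩
      have h9 := h5.row_le
      have h10 := h5.row_ge
      rcases h8 with h8 | h8
      · left; linarith
      · right
        have h11 : 8 * G.T i ≤ G.T (i + 1) := G.T_succ i
        have h12 : G.T (τ - 1) ≤ G.T i := G.T_mono (by omega)
        have h13 : (G.T i + G.T (τ - 1) : ℤ) ≤ G.T (i + 1) := by exact_mod_cast (by omega)
        rw [show i + 2 - 1 = i + 1 by omega] at h8
        linarith

/-- **The slabs of a chain are disjoint.** -/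
theorem IsCh.disj {x : σ} {τ : ℕ} {l : List (ℕ × ℕ × σ)} (h : G.IsCh x τ l) {u v : ℕ} {p : Pt} (hu : p ∈ G.Al l u)
    (hv : p ∈ G.Al l v) : u = v := by
  induction l generalizing x τ with
  | nil => exact hu.elim
  | cons a l ih =>
    obtain ⟨s, i, ρ⟩ := a
    obtain ⟨h1, h2, h3, h4, h5, h6⟩ := h
    have key : ∀ a b : ℕ, (s ≤ a ∧ a < i - 1 ∧ p.1 ∈ G.sr a (G.row ρ)) → p ∈ G.Al l b → False := by
      rintro a b ⟨h7, h8, h9⟩ hb
      obtain ⟨h10, h11⟩ := h6.rows hb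
      have h12 := G.lt_of_mem_sr h9
      have h13 := G.le_of_mem_sr h9
      have h14 : (0 : ℤ) ≤ G.T (a - 1) := by positivity
      have h15 : 8 * G.T a ≤ G.T (a + 1) := G.T_succ a
      have h16 : G.T (a + 1) ≤ G.T (i + 2 - 1) := G.T_mono (by omega)
      have h17 : (2 * G.T a : ℤ) ≤ G.T (i + 2 - 1) := by exact_mod_cast (by omega)
      rcases h11 with h11 | h11 <;> linarith
    rcases hu with hu | hu <;> rcases hv with hv | hv
    · exact G.sr_disj hu.2.2 hv.2.2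
    · exact (key u v hu hv).elim
    · exact (key v u hv hu).elim
    · exact ih h6 hu hv

/-- The depths read only the slabs. -/
def Reads (G : Geo σ Λ) (dep : ℕ → Λ → Env → ℕ) : Prop :=
  ∀ u x (ω ω' : Env), (∀ p : Pt, p.1 ∈ G.sr u (G.row x) → ω p = ω' p) → dep u (G.loc u x) ω = dep u (G.loc u x) ω'

variable {dep : ℕ → Λ → Env → ℕ}

theorem Nl_congr (hr : G.Reads dep) (l : List (ℕ × ℕ × σ)) (u : ℕ) {ω ω' : Env}
    (h : ∀ p ∈ G.Al l u, ω p = ω' p) : G.Nl dep l u ω = G.Nl dep l u ω' := by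
  induction l with
  | nil => rfl
  | cons a l ih =>
    obtain ⟨s, i, ρ⟩ := a
    have h1 := ih fun p hp => h p (Or.inr hp)
    show (if s ≤ u ∧ u < i - 1 then dep u (G.loc u ρ) ω else 0) + G.Nl dep l u ω =
      (if s ≤ u ∧ u < i - 1 then dep u (G.loc u ρ) ω' else 0) + G.Nl dep l u ω'
    rw [h1]
    by_cases h2 : s ≤ u ∧ u < i - 1
    · rw [if_pos h2, if_pos h2, hr u ρ ω ω' fun p hp => h p (Or.inl ⟨h2.1, h2.2, hp⟩)]
    · rw [if_neg h2, if_neg h2]

/-- Nothing is used below `τ`. -/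
theorem IsCh.Nl_eq_zero {x : σ} {τ : ℕ} {l : List (ℕ × ℕ × σ)} (h : G.IsCh x τ l) {u : ℕ} (hu : u < τ) (ω : Env) :
    G.Nl dep l u ω = 0 := by
  induction l generalizing x τ with
  | nil => rfl
  | cons a l ih =>
    obtain ⟨s, i, ρ⟩ := a
    obtain ⟨h1, h2, h3, h4, h5, h6⟩ := h
    show (if s ≤ u ∧ u < i - 1 then dep u (G.loc u ρ) ω else 0) + G.Nl dep l u ω = 0
    rw [if_neg (by omega), ih h6 (by omega)]

/-- At each scale at most one depth is used. -/
theorem IsCh.Nl_cases {x : σ} {τ : ℕ} {l : List (ℕ × ℕ × σ)} (h : G.IsCh x τ l) (u : ℕ) :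
    (∀ ω, G.Nl dep l u ω = 0) ∨ ∃ ρ ∈ G.W, ∀ ω, G.Nl dep l u ω = dep u (G.loc u ρ) ω := by
  induction l generalizing x τ with
  | nil => exact Or.inl fun _ => rfl
  | cons a l ih =>
    obtain ⟨s, i, ρ⟩ := a
    obtain ⟨h1, h2, h3, h4, h5, h6⟩ := h
    by_cases h7 : s ≤ u ∧ u < i - 1
    · refine Or.inr ⟨ρ, h4, fun ω => ?_⟩
      show (if s ≤ u ∧ u < i - 1 then dep u (G.loc u ρ) ω else 0) + G.Nl dep l u ω = _
      rw [if_pos h7, h6.Nl_eq_zero (by omega), add_zero]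
    · have e : ∀ ω, G.Nl dep ((s, i, ρ) :: l) u ω = G.Nl dep l u ω := by
        intro ω
        show (if s ≤ u ∧ u < i - 1 then dep u (G.loc u ρ) ω else 0) + G.Nl dep l u ω = _
        rw [if_neg h7, zero_add]
      rcases ih h6 with h8 | ⟨ρ', h8, h9⟩
      · exact Or.inl fun ω => by rw [e, h8]
      · exact Or.inr ⟨ρ', h8, fun ω => by rw [e, h9]⟩

theorem IsCh.num_eq {x : σ} {τ : ℕ} {l : List (ℕ × ℕ × σ)} (h : G.IsCh x τ l) (ω : Env) :
    G.num dep l ω = ∑ u ∈ range G.m, G.Nl dep l u ω := by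
  induction l generalizing x τ with
  | nil =>
    show 0 = ∑ u ∈ range G.m, 0
    simp
  | cons a l ih =>
    obtain ⟨s, i, ρ⟩ := a
    obtain ⟨h1, h2, h3, h4, h5, h6⟩ := h
    show ∑ u ∈ Ico s (i - 1), dep u (G.loc u ρ) ω + G.num dep l ω =
      ∑ u ∈ range G.m, ((if s ≤ u ∧ u < i - 1 then dep u (G.loc u ρ) ω else 0) + G.Nl dep l u ω)
    rw [sum_add_distrib, ih h6]
    congr 1
    rw [← sum_filter]
    refine sum_congr ?_ fun _ _ => rfl
    ext u
    simp only [mem_Ico, mem_filter, mem_range]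
    omega

theorem measurable_Nl (hm : ∀ u a, Measurable (dep u a)) (l : List (ℕ × ℕ × σ)) (u : ℕ) :
    Measurable (G.Nl dep l u) := by
  induction l with
  | nil => exact measurable_const
  | cons a l ih =>
    obtain ⟨s, i, ρ⟩ := a
    show Measurable fun ω => (if s ≤ u ∧ u < i - 1 then dep u (G.loc u ρ) ω else 0) + G.Nl dep l u ω
    refine Measurable.add ?_ ih
    by_cases h : s ≤ u ∧ u < i - 1
    · simp only [if_pos h]
      exact hm u _
    · simp only [if_neg h]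
      exact measurable_const

theorem measurable_num (hm : ∀ u a, Measurable (dep u a)) (l : List (ℕ × ℕ × σ)) : Measurable (G.num dep l) := by
  induction l with
  | nil => exact measurable_const
  | cons a l ih =>
    obtain ⟨s, i, ρ⟩ := a
    exact (Finset.measurable_sum _ fun u _ => hm u _).add ih

/-- **One chain.** -/
theorem IsCh.tail {μ : Measure ℝ} [IsProbabilityMeasure μ] (hr : G.Reads dep) (hm : ∀ u a, Measurable (dep u a))
    {z M : ℝ≥0∞} (hz : 1 ≤ z) (hz' : z ≠ ∞) (hM : 1 ≤ M)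
    (hmom : ∀ u, ∀ x ∈ G.W, ∫⁻ η, z ^ dep u (G.loc u x) η ∂(law μ) ≤ M) {x : σ} {τ : ℕ}
    {l : List (ℕ × ℕ × σ)} (h : G.IsCh x τ l) (r : ℕ) : law μ {η | r ≤ G.num dep l η} ≤ M ^ G.m / z ^ r := by
  have hP : IsProbabilityMeasure (law μ) := by unfold law; infer_instance
  have h1 := sum_le (μ := μ) (A := G.Al l) (N := G.Nl dep l) (measurable_Nl hm l) hz hz' (range G.m)
    (fun i _ j _ hij η η' he => Nl_congr hr l i fun p hp => he p fun hp' => by
      have := h.disj hp hp'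
      omega) (M := M) (fun u _ η => ?_) r
  · rw [card_range] at h1
    refine le_trans (le_of_eq (congrArg _ ?_)) h1
    ext η
    show r ≤ G.num dep l η ↔ r ≤ ∑ u ∈ range G.m, G.Nl dep l u η
    rw [h.num_eq]
  · have e : ∀ η', G.Nl dep l u (gl (G.Al l u) η' η) = G.Nl dep l u η' := fun η' =>
      Nl_congr hr l u fun p hp => gl_of_mem hp η' η
    simp only [e]
    rcases h.Nl_cases (dep := dep) u with h2 | ⟨ρ, h2, h3⟩
    · simp only [h2, pow_zero]
      rw [lintegral_const, measure_univ, one_mul]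
      exact hM
    · simp only [h3]
      exact hmom u ρ h2

/-! ### The potential -/

/-- The potential: the infimum over the chains of `y ^ (total depth)`. -/
def Yp (G : Geo σ Λ) (dep : ℕ → Λ → Env → ℕ) (y : ℝ≥0∞) (x : σ) (τ : ℕ) (ω : Env) : ℝ≥0∞ :=
  ⨅ l : {l : List (ℕ × ℕ × σ) // G.IsCh x τ l}, y ^ G.num dep l.1 ω

theorem Yp_le_one (y : ℝ≥0∞) (x : σ) (τ : ℕ) (ω : Env) : G.Yp dep y x τ ω ≤ 1 := by
  refine (iInf_le _ (⟨[], trivial⟩ : {l : List (ℕ × ℕ × σ) // G.IsCh x τ l})).trans ?_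
  show y ^ (0 : ℕ) ≤ 1
  rw [pow_zero]

/-- A larger threshold has fewer chains. -/
theorem Yp_mono (y : ℝ≥0∞) (x : σ) {τ τ' : ℕ} (h : τ ≤ τ') (ω : Env) : G.Yp dep y x τ ω ≤ G.Yp dep y x τ' ω := by
  refine le_iInf fun l => ?_
  obtain ⟨l, hl⟩ := l
  refine (iInf_le _ (⟨l, ?_⟩ : {l : List (ℕ × ℕ × σ) // G.IsCh x τ l})).trans le_rfl
  cases l with
  | nil => exact trivial
  | cons a l =>
    obtain ⟨s, i, ρ⟩ := a
    exact ⟨h.trans hl.1, hl.2⟩

/-- **One step of the chain.** -/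
theorem Yp_step {y : ℝ≥0∞} (hy : y ≠ ∞) {x ρ : σ} {τ s i : ℕ} (h1 : τ ≤ s) (h2 : s < i) (h3 : i ≤ G.m) (h4 : ρ ∈ G.W)
    (h5 : G.R i x ρ) (ω : Env) :
    G.Yp dep y x τ ω ≤ y ^ (∑ u ∈ Ico s (i - 1), dep u (G.loc u ρ) ω) * G.Yp dep y ρ (i + 2) ω := by
  unfold Yp
  have : Nonempty {l : List (ℕ × ℕ × σ) // G.IsCh ρ (i + 2) l} := ⟨⟨[], trivial⟩⟩
  rw [ENNReal.mul_iInf fun h => absurd h (ENNReal.pow_ne_top hy)]
  refine le_iInf fun l => ?_
  obtain ⟨l, hl⟩ := l
  refine (iInf_le _ (⟨(s, i, ρ) :: l, h1, h2, h3, h4, h5, hl⟩ : {l : List (ℕ × ℕ × σ) // G.IsCh x τ l})).trans ?_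
  show y ^ (∑ u ∈ Ico s (i - 1), dep u (G.loc u ρ) ω + G.num dep l ω) ≤ _
  rw [pow_add]

/-- **The potential does not see the rows `(row x, row x + T (τ-1)]`.** -/
theorem Yp_congr (hr : G.Reads dep) (y : ℝ≥0∞) (x : σ) (τ : ℕ) {ω ω' : Env}
    (h : ∀ p : Pt, (p.1 ≤ G.row x ∨ G.row x + G.T (τ - 1) < p.1) → ω p = ω' p) :
    G.Yp dep y x τ ω = G.Yp dep y x τ ω' := by
  unfold Yp
  refine iInf_congr fun l => ?_
  obtain ⟨l, hl⟩ := l
  show y ^ G.num dep l ω = y ^ G.num dep l ω'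
  rw [hl.num_eq, hl.num_eq]
  congr 1
  refine sum_congr rfl fun u _ => Nl_congr hr l u fun p hp => h p (hl.rows hp).2

theorem measurable_Yp [Countable σ] (hm : ∀ u a, Measurable (dep u a)) (y : ℝ≥0∞) (x : σ) (τ : ℕ) :
    Measurable (G.Yp dep y x τ) := by
  have hc : Countable {l : List (ℕ × ℕ × σ) // G.IsCh x τ l} := inferInstance
  refine Measurable.iInf fun l => ?_
  exact (measurable_from_top (f := fun n : ℕ => y ^ n)).comp (measurable_num hm l.1)

/-- If no chain from `(x, τ)` reaches the depth `r + 1`, the potential is at least `y ^ r`. -/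
theorem le_Yp {y : ℝ≥0∞} (hy : y ≤ 1) {x : σ} {τ r : ℕ} {ω : Env}
    (h : ∀ l, G.IsCh x τ l → G.num dep l ω ≤ r) : y ^ r ≤ G.Yp dep y x τ ω :=
  le_iInf fun l => pow_le_pow_right_of_le_one' hy (h l.1 l.2)

/-! ### Counting the chains -/

/-- The data of a chain. -/
def dat (G : Geo σ Λ) : List (ℕ × ℕ × σ) → List (ℕ × ℕ × Λ)
  | [] => []
  | (s, i, ρ) :: l => (s, i, G.loc s ρ) :: dat G l

theorem num_of_dat {l l' : List (ℕ × ℕ × σ)} (h : G.dat l = G.dat l') (ω : Env) :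
    G.num dep l ω = G.num dep l' ω := by
  induction l generalizing l' with
  | nil =>
    cases l' with
    | nil => rfl
    | cons a l' => exact absurd h (by simp [dat])
  | cons a l ih =>
    cases l' with
    | nil => exact absurd h (by simp [dat])
    | cons a' l' =>
      obtain ⟨s, i, ρ⟩ := a
      obtain ⟨s', i', ρ'⟩ := a'
      simp only [dat, List.cons.injEq, Prod.mk.injEq] at h
      obtain ⟨⟨rfl, rfl, h1⟩, h2⟩ := h
      show ∑ u ∈ Ico s (i - 1), dep u (G.loc u ρ) ω + G.num dep l ω =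
        ∑ u ∈ Ico s (i - 1), dep u (G.loc u ρ') ω + G.num dep l' ω
      rw [ih h2]
      congr 1
      refine sum_congr rfl fun u hu => ?_
      rw [G.nest s u (mem_Ico.1 hu).1 ρ ρ' h1]

/-- The counting input: coarse positions in the window, and coarse positions of the centres which can be followed by a centre of
known coarse position. -/
structure Cnt (G : Geo σ Λ) (A : ℕ) where
  F0 : ℕ → Finset Λ
  F1 : ℕ → ℕ → ℕ → Λ → Finset Λ
  hA : 1 ≤ A
  h0 : ∀ s ≤ G.m, ∀ x ∈ G.W, G.loc s x ∈ F0 s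
  c0 : ∀ s ≤ G.m, (F0 s).card ≤ A ^ (1 + G.m - s)
  h1 : ∀ s s' i', s < s' → s' < i' → i' ≤ G.m → ∀ y ∈ G.W, ∀ ρ ∈ G.W, G.R i' y ρ → G.loc s y ∈ F1 s s' i' (G.loc s' ρ)
  c1 : ∀ s s' i', s < s' → s' < i' → i' ≤ G.m → ∀ a, (F1 s s' i' a).card ≤ A ^ (1 + i' - s)

/-- Possible coarse positions of a centre in front of a given list. -/
def nx {A : ℕ} (C : Cnt G A) (s : ℕ) : List (ℕ × ℕ × Λ) → Finset Λ
  | [] => C.F0 s
  | (s', i', a) :: _ => C.F1 s s' i' a

/-- The scale of the first step. -/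
def hd (m : ℕ) : List (ℕ × ℕ × Λ) → ℕ
  | [] => m
  | (_, i', _) :: _ => i'

/-- The pairs `(s, i)`, `τ ≤ s < i ≤ m`. -/
def prs (m τ : ℕ) : Finset (ℕ × ℕ) := ((Icc τ m) ×ˢ (Icc 0 m)).filter fun q => q.1 < q.2

/-- All the data. -/
def DS {A : ℕ} (C : Cnt G A) : ℕ → ℕ → Finset (List (ℕ × ℕ × Λ))
  | 0, _ => {[]}
  | n + 1, τ => {[]} ∪ (prs G.m τ).biUnion fun q =>
      (DS C n (q.2 + 2)).biUnion fun t => (nx C q.1 t).image fun a => (q.1, q.2, a) :: t

theorem mem_DS {A : ℕ} (C : Cnt G A) {x : σ} {τ : ℕ} {l : List (ℕ × ℕ × σ)} (h : G.IsCh x τ l) {n : ℕ}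
    (hn : l.length ≤ n) : G.dat l ∈ DS C n τ := by
  induction l generalizing x τ n with
  | nil =>
    cases n with
    | zero => exact mem_singleton_self _
    | succ n => exact mem_union_left _ (mem_singleton_self _)
  | cons a l ih =>
    obtain ⟨s, i, ρ⟩ := a
    obtain ⟨h1, h2, h3, h4, h5, h6⟩ := h
    cases n with
    | zero => exact absurd hn (by simp)
    | succ n =>
      have h7 := ih h6 (n := n) (by simpa using hn)
      refine mem_union_right _ (mem_biUnion.2 ⟨(s, i), ?_, mem_biUnion.2 ⟨_, h7, mem_image.2 ⟨G.loc s ρ, ?_, rfl⟩⟩⟩)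
      · exact mem_filter.2 ⟨mem_product.2 ⟨mem_Icc.2 ⟨h1, by omega⟩, mem_Icc.2 ⟨Nat.zero_le _, h3⟩⟩, h2⟩
      · cases l with
        | nil => exact C.h0 s (by omega) ρ h4
        | cons b l' =>
          obtain ⟨s', i', ρ'⟩ := b
          obtain ⟨h8, h9, h10, h11, h12, -⟩ := h6
          exact C.h1 s s' i' (by omega) h9 h10 ρ h4 ρ' h11 h12

theorem DS_head {A : ℕ} (C : Cnt G A) {n τ : ℕ} {s i : ℕ} {a : Λ} {t : List (ℕ × ℕ × Λ)}
    (h : (s, i, a) :: t ∈ DS C n τ) : τ ≤ s ∧ s < i ∧ i ≤ G.m := by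
  cases n with
  | zero => exact absurd (mem_singleton.1 h) (by simp)
  | succ n =>
    rcases mem_union.1 h with h | h
    · exact absurd (mem_singleton.1 h) (by simp)
    · obtain ⟨q, hq, h⟩ := mem_biUnion.1 h
      obtain ⟨t', ht', h⟩ := mem_biUnion.1 h
      obtain ⟨b, hb, h⟩ := mem_image.1 h
      simp only [List.cons.injEq, Prod.mk.injEq] at h
      obtain ⟨⟨rfl, rfl, -⟩, -⟩ := h
      obtain ⟨hq1, hq2⟩ := mem_filter.1 hq
      obtain ⟨hq3, hq4⟩ := mem_product.1 hq1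
      exact ⟨(mem_Icc.1 hq3).1, hq2, (mem_Icc.1 hq4).2⟩

theorem card_nx {A : ℕ} (C : Cnt G A) {n i s : ℕ} (hs : s < i) (hi : i ≤ G.m) {t : List (ℕ × ℕ × Λ)}
    (ht : t ∈ DS C n (i + 2)) : (nx C s t).card ≤ A ^ (1 + hd G.m t - s) ∧ s ≤ hd G.m t := by
  cases t with
  | nil => exact ⟨C.c0 s (by omega), by show s ≤ G.m; omega⟩
  | cons b t' =>
    obtain ⟨s', i', a⟩ := b
    obtain ⟨h1, h2, h3⟩ := DS_head C ht
    exact ⟨C.c1 s s' i' (by omega) h2 h3 a, by show s ≤ i'; omega⟩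

theorem sum_biUnion_le' {α β : Type*} [DecidableEq β] (s : Finset α) (t : α → Finset β) (f : β → ℕ) :
    ∑ x ∈ s.biUnion t, f x ≤ ∑ i ∈ s, ∑ x ∈ t i, f x := by
  classical
  induction s using Finset.induction_on with
  | empty => simp
  | insert a s ha ih =>
    rw [biUnion_insert, sum_insert ha]
    have h1 := sum_union_inter (s₁ := t a) (s₂ := s.biUnion t) (f := f)
    omega

theorem sum_pow_le (s m : ℕ) : ∑ i ∈ Ioc s m, 4 ^ (m - i) ≤ 4 ^ (m - s) := by
  have h1 : ∑ i ∈ Ioc s m, 4 ^ (m - i) ≤ ∑ j ∈ range (m - s), 4 ^ j := by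
    have e : ∑ i ∈ Ioc s m, 4 ^ (m - i) = ∑ j ∈ (Ioc s m).image (fun i => m - i), 4 ^ j := by
      rw [sum_image]
      intro a ha b hb hab
      have ha' := mem_Ioc.1 ha
      have hb' := mem_Ioc.1 hb
      have hab' : m - a = m - b := hab
      omega
    rw [e]
    refine sum_le_sum_of_subset fun j hj => ?_
    obtain ⟨i, hi, rfl⟩ := mem_image.1 hj
    have := mem_Ioc.1 hi
    exact mem_range.2 (by omega)
  refine h1.trans ?_
  have h2 := Nat.geomSum_lt (m := 4) (n := m - s) (s := range (m - s)) (by norm_num) fun k hk => mem_range.1 hk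
  exact h2.le

/-- The weighted number of the data. -/
theorem sum_DS {A : ℕ} (C : Cnt G A) (n : ℕ) : ∀ τ ≤ G.m + 2,
    ∑ t ∈ DS C n τ, A ^ hd G.m t ≤ (4 * A) ^ (G.m + 2 - τ) * A ^ G.m := by
  have hA := C.hA
  induction n with
  | zero =>
    intro τ hτ
    show ∑ t ∈ ({[]} : Finset (List (ℕ × ℕ × Λ))), A ^ hd G.m t ≤ _
    rw [sum_singleton]
    show A ^ G.m ≤ _
    exact Nat.le_mul_of_pos_left _ (Nat.pow_pos (by omega))
  | succ n ih =>
    intro τ hτ
    set m := G.m with hm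
    have step : ∑ t ∈ DS C (n + 1) τ, A ^ hd m t ≤
        A ^ m + ∑ q ∈ prs m τ, A ^ (1 + q.2 - q.1) * ((4 * A) ^ (m - q.2) * A ^ m) := by
      have h1 : ∑ t ∈ DS C (n + 1) τ, A ^ hd m t ≤ ∑ t ∈ ({[]} : Finset (List (ℕ × ℕ × Λ))), A ^ hd m t +
          ∑ t ∈ (prs m τ).biUnion (fun q => (DS C n (q.2 + 2)).biUnion fun t => (nx C q.1 t).image fun a => (q.1, q.2, a) :: t),
            A ^ hd m t := by
        have := sum_union_inter (s₁ := ({[]} : Finset (List (ℕ × ℕ × Λ))))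
          (s₂ := (prs m τ).biUnion (fun q => (DS C n (q.2 + 2)).biUnion fun t => (nx C q.1 t).image fun a => (q.1, q.2, a) :: t))
          (f := fun t => A ^ hd m t)
        have e : DS C (n + 1) τ = {[]} ∪ (prs m τ).biUnion (fun q =>
          (DS C n (q.2 + 2)).biUnion fun t => (nx C q.1 t).image fun a => (q.1, q.2, a) :: t) := rfl
        rw [e]
        omega
      refine h1.trans (Nat.add_le_add ?_ ?_)
      · rw [sum_singleton]
        exact le_rfl
      · refine (sum_biUnion_le' _ _ _).trans (sum_le_sum fun q hq => ?_)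
        obtain ⟨hq1, hq2⟩ := mem_filter.1 hq
        obtain ⟨hq3, hq4⟩ := mem_product.1 hq1
        have hq5 : q.2 ≤ m := (mem_Icc.1 hq4).2
        refine (sum_biUnion_le' _ _ _).trans ?_
        have h2 := ih (q.2 + 2) (by omega)
        rw [show m + 2 - (q.2 + 2) = m - q.2 by omega] at h2
        refine le_trans ?_ (Nat.mul_le_mul_left _ h2)
        rw [mul_sum]
        refine sum_le_sum fun t ht => ?_
        obtain ⟨h3, h4⟩ := card_nx C hq2 hq5 ht
        rw [← hm] at h3 h4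
        calc ∑ x ∈ (nx C q.1 t).image (fun a => (q.1, q.2, a) :: t), A ^ hd m x
            = ∑ x ∈ (nx C q.1 t).image (fun a => (q.1, q.2, a) :: t), A ^ q.2 := by
              refine sum_congr rfl fun x hx => ?_
              obtain ⟨a, -, rfl⟩ := mem_image.1 hx
              rfl
          _ = ((nx C q.1 t).image (fun a => (q.1, q.2, a) :: t)).card * A ^ q.2 := by
              rw [sum_const, smul_eq_mul]
          _ ≤ (nx C q.1 t).card * A ^ q.2 := Nat.mul_le_mul_right _ card_image_le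
          _ ≤ A ^ (1 + hd m t - q.1) * A ^ q.2 := Nat.mul_le_mul_right _ h3
          _ = A ^ (1 + q.2 - q.1) * A ^ hd m t := by
              rw [← pow_add, ← pow_add]
              congr 1
              omega
    refine step.trans ?_
    by_cases hτm : τ ≤ m
    · have h5 : ∑ q ∈ prs m τ, A ^ (1 + q.2 - q.1) * ((4 * A) ^ (m - q.2) * A ^ m) ≤
          A ^ (m + 1 - τ) * A ^ m * 4 ^ (m + 1 - τ) := by
        calc ∑ q ∈ prs m τ, A ^ (1 + q.2 - q.1) * ((4 * A) ^ (m - q.2) * A ^ m)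
            ≤ ∑ q ∈ prs m τ, A ^ (m + 1 - τ) * A ^ m * 4 ^ (m - q.2) := by
              refine sum_le_sum fun q hq => ?_
              obtain ⟨hq1, hq2⟩ := mem_filter.1 hq
              obtain ⟨hq3, hq4⟩ := mem_product.1 hq1
              have hq5 : q.2 ≤ m := (mem_Icc.1 hq4).2
              have hq6 : τ ≤ q.1 := (mem_Icc.1 hq3).1
              have e1 : A ^ (1 + q.2 - q.1) * ((4 * A) ^ (m - q.2) * A ^ m) =
                  A ^ (m + 1 - q.1) * A ^ m * 4 ^ (m - q.2) := by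
                rw [mul_pow, show m + 1 - q.1 = (1 + q.2 - q.1) + (m - q.2) by omega, pow_add]
                ring
              rw [e1]
              refine Nat.mul_le_mul_right _ (Nat.mul_le_mul_right _ ?_)
              exact Nat.pow_le_pow_right hA (by omega)
          _ = A ^ (m + 1 - τ) * A ^ m * ∑ q ∈ prs m τ, 4 ^ (m - q.2) := by rw [mul_sum]
          _ ≤ A ^ (m + 1 - τ) * A ^ m * ∑ s ∈ Icc τ m, ∑ i ∈ Ioc s m, 4 ^ (m - i) := by
              refine Nat.mul_le_mul_left _ ?_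
              have e2 : ∑ q ∈ prs m τ, 4 ^ (m - q.2) = ∑ s ∈ Icc τ m, ∑ i ∈ (Icc 0 m).filter (fun i => s < i), 4 ^ (m - i) := by
                unfold prs
                rw [sum_filter, sum_product]
                refine sum_congr rfl fun s _ => ?_
                rw [sum_filter]
              rw [e2]
              refine sum_le_sum fun s _ => sum_le_sum_of_subset fun i hi => ?_
              obtain ⟨h6, h7⟩ := mem_filter.1 hi
              exact mem_Ioc.2 ⟨h7, (mem_Icc.1 h6).2⟩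
          _ ≤ A ^ (m + 1 - τ) * A ^ m * ∑ s ∈ Icc τ m, 4 ^ (m - s) :=
              Nat.mul_le_mul_left _ (sum_le_sum fun s _ => sum_pow_le s m)
          _ ≤ A ^ (m + 1 - τ) * A ^ m * 4 ^ (m + 1 - τ) := by
              refine Nat.mul_le_mul_left _ ?_
              have h8 : ∑ s ∈ Icc τ m, 4 ^ (m - s) ≤ ∑ j ∈ range (m + 1 - τ), 4 ^ j := by
                have e : ∑ i ∈ Icc τ m, 4 ^ (m - i) = ∑ j ∈ (Icc τ m).image (fun i => m - i), 4 ^ j := by
                  rw [sum_image]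
                  intro a ha b hb hab
                  have ha' := mem_Icc.1 ha
                  have hb' := mem_Icc.1 hb
                  have hab' : m - a = m - b := hab
                  omega
                rw [e]
                refine sum_le_sum_of_subset fun j hj => ?_
                obtain ⟨i, hi, rfl⟩ := mem_image.1 hj
                have := mem_Icc.1 hi
                exact mem_range.2 (by omega)
              refine h8.trans ?_
              exact (Nat.geomSum_lt (m := 4) (n := m + 1 - τ) (s := range (m + 1 - τ)) (by norm_num)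
                fun k hk => mem_range.1 hk).le
      have h6 : A ^ (m + 1 - τ) * A ^ m * 4 ^ (m + 1 - τ) = (4 * A) ^ (m + 1 - τ) * A ^ m := by
        rw [mul_pow]
        ring
      have h7 : (4 * A) ^ (m + 2 - τ) = (4 * A) ^ (m + 1 - τ) * (4 * A) := by
        rw [← pow_succ]
        congr 1
        omega
      have h8 : 1 ≤ (4 * A) ^ (m + 1 - τ) := Nat.pow_pos (by omega)
      rw [h6] at h5
      calc A ^ m + ∑ q ∈ prs m τ, A ^ (1 + q.2 - q.1) * ((4 * A) ^ (m - q.2) * A ^ m)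
          ≤ A ^ m + (4 * A) ^ (m + 1 - τ) * A ^ m := Nat.add_le_add_left h5 _
        _ = 1 * A ^ m + (4 * A) ^ (m + 1 - τ) * A ^ m := by rw [one_mul]
        _ ≤ (4 * A) ^ (m + 1 - τ) * A ^ m + (4 * A) ^ (m + 1 - τ) * A ^ m :=
            Nat.add_le_add_right (Nat.mul_le_mul_right _ h8) _
        _ = (4 * A) ^ (m + 1 - τ) * 2 * A ^ m := by ring
        _ ≤ (4 * A) ^ (m + 1 - τ) * (4 * A) * A ^ m :=
            Nat.mul_le_mul_right _ (Nat.mul_le_mul_left _ (by omega))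
        _ = (4 * A) ^ (m + 2 - τ) * A ^ m := by rw [h7]
    · have h9 : prs m τ = ∅ := by
        refine eq_empty_of_forall_notMem fun q hq => ?_
        obtain ⟨hq1, hq2⟩ := mem_filter.1 hq
        obtain ⟨hq3, hq4⟩ := mem_product.1 hq1
        have h10 := mem_Icc.1 hq3
        omega
      rw [h9, sum_empty, add_zero]
      exact Nat.le_mul_of_pos_left _ (Nat.pow_pos (by omega))

theorem card_DS {A : ℕ} (C : Cnt G A) (n : ℕ) : (DS C n 0).card ≤ (4 * A) ^ (G.m + 2) * A ^ G.m := by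
  refine le_trans ?_ (sum_DS C n 0 (Nat.zero_le _))
  rw [card_eq_sum_ones]
  exact sum_le_sum fun t _ => Nat.pow_pos C.hA

theorem IsCh.length_le {x : σ} {τ : ℕ} {l : List (ℕ × ℕ × σ)} (h : G.IsCh x τ l) : τ + l.length ≤ G.m + 2 ∨ l = [] := by
  induction l generalizing x τ with
  | nil => exact Or.inr rfl
  | cons a l ih =>
    obtain ⟨s, i, ρ⟩ := a
    obtain ⟨h1, h2, h3, h4, h5, h6⟩ := h
    left
    rcases ih h6 with h7 | rfl
    · simp only [List.length_cons]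
      omega
    · simp only [List.length_cons, List.length_nil]
      omega

/-- **UNION OVER THE CHAINS.** -/
theorem chn40 {μ : Measure ℝ} [IsProbabilityMeasure μ] {A : ℕ} (C : Cnt G A) (hr : G.Reads dep)
    (hm : ∀ u a, Measurable (dep u a)) {z M : ℝ≥0∞} (hz : 1 ≤ z) (hz' : z ≠ ∞) (hM : 1 ≤ M)
    (hmom : ∀ u, ∀ x ∈ G.W, ∫⁻ η, z ^ dep u (G.loc u x) η ∂(law μ) ≤ M) (r : ℕ) :
    law μ {η | ∃ x l, G.IsCh x 0 l ∧ r ≤ G.num dep l η} ≤
      (((4 * A) ^ (G.m + 2) * A ^ G.m : ℕ) : ℝ≥0∞) * (M ^ G.m / z ^ r) := by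
  set rep : List (ℕ × ℕ × Λ) → Set Env := fun d =>
    {η | ∃ x l, G.IsCh x 0 l ∧ G.dat l = d ∧ r ≤ G.num dep l η} with hrep
  have hsub : {η | ∃ x l, G.IsCh x 0 l ∧ r ≤ G.num dep l η} ⊆ ⋃ d ∈ DS C (G.m + 2) 0, rep d := by
    rintro η ⟨x, l, hl, h1⟩
    refine Set.mem_iUnion₂.2 ⟨G.dat l, mem_DS C hl ?_, x, l, hl, rfl, h1⟩
    rcases hl.length_le with h2 | rfl
    · omega
    · exact Nat.zero_le _
  have hone : ∀ d, law μ (rep d) ≤ M ^ G.m / z ^ r := by
    intro d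
    by_cases hd : ∃ x l, G.IsCh x 0 l ∧ G.dat l = d
    · obtain ⟨x, l, hl, rfl⟩ := hd
      refine le_trans (measure_mono ?_) (hl.tail hr hm hz hz' hM hmom r)
      rintro η ⟨x', l', -, h2, h3⟩
      show r ≤ G.num dep l η
      rwa [← num_of_dat h2]
    · have e : rep d = ∅ := by
        ext η
        simp only [hrep, Set.mem_ofPred_eq, Set.mem_empty_iff_false, iff_false]
        rintro ⟨x, l, h1, h2, -⟩
        exact hd ⟨x, l, h1, h2⟩
      rw [e, measure_empty]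
      exact zero_le
  calc law μ {η | ∃ x l, G.IsCh x 0 l ∧ r ≤ G.num dep l η} ≤ law μ (⋃ d ∈ DS C (G.m + 2) 0, rep d) := measure_mono hsub
    _ ≤ ∑ d ∈ DS C (G.m + 2) 0, law μ (rep d) := measure_biUnion_finset_le _ _
    _ ≤ ∑ _d ∈ DS C (G.m + 2) 0, M ^ G.m / z ^ r := sum_le_sum fun d _ => hone d
    _ = ((DS C (G.m + 2) 0).card : ℝ≥0∞) * (M ^ G.m / z ^ r) := by rw [sum_const, nsmul_eq_mul]
    _ ≤ _ := by
        refine mul_le_mul_left ?_ _
        exact_mod_cast card_DS C (G.m + 2)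

end Geo

end

end Pool.Agent.W_7d29a1_C1.H40
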