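import Pool.Agent.W_7d29a1_C1.Chn40

/-!
MP_7d29a1_pr, the attractor route: CHAINS WITH ALL THEIR LAYERS. (helper40)

A chain of centres (`Chn40`) cuts the rows between the last centre and the top of its last slab into layers: own slabs, the block
below the previous centre, the slabs of the previous centre above it, the bridge. `cuts` is the list of these rows (with scale and
coarse position), `cuts_pw`: it is sorted. `dpL a b` = depth of the layer between two successive cuts, `dpN a b c` = depth of the node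
`b` (reads both layers). `chnG40`: the probability that for some chain the sum of all these depths is at least `3 r` is at most
(number of codes) `* 3 * M ^ (4 m + 10) / z ^ r`.
-/

set_option autoImplicit false

namespace Pool.Agent.W_7d29a1_C1.H40

open MeasureTheory ProbabilityTheory Finset
open Pool.Agent.W_7d29a1_F Pool.Agent.W_7d29a1_C1.S71
open scoped ENNReal Classical

noncomputable section

/-! ### Any functional of the code -/

namespace Geo

variable {σ Λ : Type*} {G : Geo σ Λ}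

/-- **UNION OVER THE CHAINS, FOR ANY FUNCTIONAL OF THE CODE.** -/
theorem union40 {μ : Measure ℝ} {A : ℕ} (C : Cnt G A) {S : σ → List (ℕ × ℕ × σ) → Env → ℕ}
    (hcode : ∀ x ∈ G.W, ∀ x' ∈ G.W, ∀ l l', G.IsCh x 0 l → G.IsCh x' 0 l' → G.loc 0 x = G.loc 0 x' → G.dat l = G.dat l' →
      ∀ η, S x l η = S x' l' η) {r : ℕ} {B : ℝ≥0∞}
    (hB : ∀ x ∈ G.W, ∀ l, G.IsCh x 0 l → law μ {η | r ≤ S x l η} ≤ B) :
    law μ {η | ∃ x ∈ G.W, ∃ l, G.IsCh x 0 l ∧ r ≤ S x l η} ≤ (((4 * A) ^ (G.m + 2) * A ^ (2 * G.m + 1) : ℕ) : ℝ≥0∞) * B := by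
  set rep : Λ → List (ℕ × ℕ × Λ) → Set Env := fun a d =>
    {η | ∃ x ∈ G.W, ∃ l, G.IsCh x 0 l ∧ G.loc 0 x = a ∧ G.dat l = d ∧ r ≤ S x l η} with hrep
  have hsub : {η | ∃ x ∈ G.W, ∃ l, G.IsCh x 0 l ∧ r ≤ S x l η} ⊆ ⋃ q ∈ C.F0 0 ×ˢ DS C (G.m + 2) 0, rep q.1 q.2 := by
    rintro η ⟨x, hx, l, hl, h1⟩
    refine Set.mem_iUnion₂.2 ⟨(G.loc 0 x, G.dat l), mem_product.2 ⟨C.h0 0 (Nat.zero_le _) x hx, mem_DS C hl ?_⟩,
      x, hx, l, hl, rfl, rfl, h1⟩
    rcases hl.length_le with h2 | rfl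
    · omega
    · exact Nat.zero_le _
  have hone : ∀ a d, law μ (rep a d) ≤ B := by
    intro a d
    by_cases hd : ∃ x ∈ G.W, ∃ l, G.IsCh x 0 l ∧ G.loc 0 x = a ∧ G.dat l = d
    · obtain ⟨x, hx, l, hl, rfl, rfl⟩ := hd
      refine le_trans (measure_mono ?_) (hB x hx l hl)
      rintro η ⟨x', hx', l', hl', h2, h3, h4⟩
      show r ≤ S x l η
      rwa [← hcode x' hx' x hx l' l hl' hl h2 h3]
    · have e : rep a d = ∅ := by
        ext η
        simp only [hrep, Set.mem_ofPred_eq, Set.mem_empty_iff_false, iff_false]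
        rintro ⟨x, hx, l, h1, h2, h3, -⟩
        exact hd ⟨x, hx, l, h1, h2, h3⟩
      rw [e, measure_empty]
      exact zero_le
  calc law μ {η | ∃ x ∈ G.W, ∃ l, G.IsCh x 0 l ∧ r ≤ S x l η} ≤ law μ (⋃ q ∈ C.F0 0 ×ˢ DS C (G.m + 2) 0, rep q.1 q.2) :=
        measure_mono hsub
    _ ≤ ∑ q ∈ C.F0 0 ×ˢ DS C (G.m + 2) 0, law μ (rep q.1 q.2) := measure_biUnion_finset_le _ _
    _ ≤ ∑ _q ∈ C.F0 0 ×ˢ DS C (G.m + 2) 0, B := sum_le_sum fun q _ => hone q.1 q.2
    _ = (((C.F0 0).card * (DS C (G.m + 2) 0).card : ℕ) : ℝ≥0∞) * B := by rw [sum_const, nsmul_eq_mul, card_product]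
    _ ≤ _ := by
        refine mul_le_mul_left ?_ _
        have h1 := C.c0 0 (Nat.zero_le _)
        have h2 := card_DS C (G.m + 2)
        have h3 : (C.F0 0).card * (DS C (G.m + 2) 0).card ≤ A ^ (1 + G.m - 0) * ((4 * A) ^ (G.m + 2) * A ^ G.m) :=
          Nat.mul_le_mul h1 h2
        have h4 : A ^ (1 + G.m - 0) * ((4 * A) ^ (G.m + 2) * A ^ G.m) = (4 * A) ^ (G.m + 2) * A ^ (2 * G.m + 1) := by
          rw [Nat.sub_zero, show 2 * G.m + 1 = (1 + G.m) + G.m by ring, pow_add A (1 + G.m) G.m]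
          ring
        exact_mod_cast h3.trans (le_of_eq h4)

end Geo

/-! ### The cuts -/

/-- A labelled row. -/
structure Cut (Λ : Type*) where
  row : ℤ
  sc : ℕ
  cd : Λ

/-- `L` is sorted and its rows lie in `[a, b]`. -/
def BS {Λ : Type*} (a b : ℤ) (L : List (Cut Λ)) : Prop :=
  L.Pairwise (fun c d => c.row ≤ d.row) ∧ ∀ c ∈ L, a ≤ c.row ∧ c.row ≤ b

theorem BS.nil {Λ : Type*} (a b : ℤ) : BS a b ([] : List (Cut Λ)) := ⟨List.Pairwise.nil, fun c hc => absurd hc (by simp)⟩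

theorem BS.append {Λ : Type*} {a b c d : ℤ} {L L' : List (Cut Λ)} (h : BS a b L) (h' : BS c d L') (hab : a ≤ b) (hbc : b ≤ c)
    (hcd : c ≤ d) : BS a d (L ++ L') := by
  refine ⟨List.pairwise_append.2 ⟨h.1, h'.1, fun x hx y hy => ?_⟩, fun x hx => ?_⟩
  · exact (h.2 x hx).2.trans (hbc.trans (h'.2 y hy).1)
  · rcases List.mem_append.1 hx with hx | hx
    · exact ⟨(h.2 x hx).1, (h.2 x hx).2.trans (hbc.trans hcd)⟩
    · exact ⟨(hab.trans hbc).trans (h'.2 x hx).1, (h'.2 x hx).2⟩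

theorem BS.mono {Λ : Type*} {a b a' b' : ℤ} {L : List (Cut Λ)} (h : BS a b L) (ha : a' ≤ a) (hb : b ≤ b') : BS a' b' L :=
  ⟨h.1, fun x hx => ⟨ha.trans (h.2 x hx).1, (h.2 x hx).2.trans hb⟩⟩

theorem BS.single {Λ : Type*} (c : Cut Λ) : BS c.row c.row [c] :=
  ⟨List.pairwise_singleton _ _, fun x hx => by rw [List.mem_singleton.1 hx]; exact ⟨le_rfl, le_rfl⟩⟩

namespace Geo

variable {σ Λ : Type*} (G : Geo σ Λ)

/-- The top row of the slab of the scale `u`. -/
def tr (u : ℕ) (r : ℤ) : ℤ := G.rc u r + G.T u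

/-- The coarse row at or below `r`. -/
def dn (u : ℕ) (r : ℤ) : ℤ := G.rc u r - G.T (u - 2)

theorem dn_le (u : ℕ) (r : ℤ) : G.dn u r ≤ r := by
  have := nxt_le (G.T_pos (u - 2)) r
  unfold dn rc
  linarith

theorem lt_dn (u : ℕ) (r : ℤ) : r - G.T (u - 2) < G.dn u r := by
  have := lt_nxt (G.T_pos (u - 2)) r
  unfold dn rc
  linarith

theorem lt_tr (u : ℕ) (r : ℤ) : r + G.T u < G.tr u r := by
  have := lt_nxt (G.T_pos (u - 2)) r
  unfold tr rc
  linarith

theorem tr_le (u : ℕ) (r : ℤ) : G.tr u r ≤ r + G.T (u - 2) + G.T u := by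
  have := nxt_le (G.T_pos (u - 2)) r
  unfold tr rc
  linarith

theorem tr_mono {u v : ℕ} (h : u ≤ v) (r : ℤ) : G.tr u r ≤ G.tr v r := by
  have h1 : G.rc u r ≤ G.rc v r := nxt_mono (G.T_pos _) (G.T_pos _) (Tk_dvd (by omega)) r
  have h2 : (G.T u : ℤ) ≤ G.T v := by exact_mod_cast G.T_mono h
  unfold tr
  linarith

/-- The cuts of the scales `a, …, a + n - 1` above a centre. -/
def up (x : σ) (a n : ℕ) : List (Cut Λ) := (List.range n).map fun k => ⟨G.tr (a + k) (G.row x), a + k, G.loc (a + k) x⟩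

/-- The cut below a centre. -/
def bt (s : ℕ) (x : σ) : Cut Λ := ⟨G.dn s (G.row x), s, G.loc s x⟩

theorem up_BS (x : σ) (a n : ℕ) (b : ℕ) (hb : a + n ≤ b + 1) : BS (G.tr a (G.row x)) (G.tr b (G.row x)) (G.up x a n) := by
  refine ⟨?_, fun c hc => ?_⟩
  · unfold up
    rw [List.pairwise_map]
    exact List.pairwise_lt_range.imp fun h => G.tr_mono (by omega) _
  · unfold up at hc
    obtain ⟨k, hk, rfl⟩ := List.mem_map.1 hc
    rw [List.mem_range] at hk
    exact ⟨G.tr_mono (by omega) _, G.tr_mono (by omega) _⟩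

/-- The cuts of a chain. -/
def cutsR : σ → ℕ → ℕ → List (Cut Λ) → List (ℕ × ℕ × σ) → List (Cut Λ)
  | x, _, τ, L, [] => L ++ G.up x τ (G.m + 1 - τ)
  | x, sx, τ, L, (s, i, ρ) :: l =>
    if ρ = x then cutsR x sx (i + 2) (L ++ G.up x τ (i + 2 - τ)) l
    else cutsR ρ s (i + 2) ((G.bt s ρ :: G.up ρ s (i - 1 - s)) ++ (L ++ (G.up x τ (i + 1 - τ) ++ G.up ρ (i + 1) 1))) l

/-- All the cuts of a chain from `x`. -/
def cuts (x : σ) (l : List (ℕ × ℕ × σ)) : List (Cut Λ) := G.cutsR x 0 0 [G.bt 0 x] l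

variable {G}

/-- Slabs on top. -/
theorem top_BS {x : σ} {sx τ n : ℕ} {L : List (Cut Λ)} (hL : BS (G.dn sx (G.row x)) (G.tr (τ - 1) (G.row x)) L) :
    BS (G.dn sx (G.row x)) (G.tr (τ + n) (G.row x)) (L ++ G.up x τ n) := by
  have h1 := G.lt_tr (τ - 1) (G.row x)
  have h2 := G.dn_le sx (G.row x)
  have h3 : (0 : ℤ) ≤ G.T (τ - 1) := by positivity
  exact hL.append (G.up_BS x τ n (τ + n) (by omega)) (by linarith) (G.tr_mono (by omega) _) (G.tr_mono (by omega) _)

/-- One stay. -/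
theorem stay_BS {x : σ} {sx τ i : ℕ} {L : List (Cut Λ)} (hL : BS (G.dn sx (G.row x)) (G.tr (τ - 1) (G.row x)) L) (h : τ < i) :
    BS (G.dn sx (G.row x)) (G.tr (i + 2 - 1) (G.row x)) (L ++ G.up x τ (i + 2 - τ)) := by
  have h1 := G.lt_tr (τ - 1) (G.row x)
  have h2 := G.dn_le sx (G.row x)
  have h3 : (0 : ℤ) ≤ G.T (τ - 1) := by positivity
  exact hL.append (G.up_BS x τ (i + 2 - τ) (i + 1) (by omega)) (by linarith) (G.tr_mono (by omega) _)
    (G.tr_mono (by omega) _)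

/-- One move. -/
theorem move_BS {x ρ : σ} {sx τ s i : ℕ} {L : List (Cut Λ)} (hL : BS (G.dn sx (G.row x)) (G.tr (τ - 1) (G.row x)) L)
    (hsx : sx ≤ τ) (h1 : τ ≤ s) (h2 : s < i) (hR : (G.T (i - 1) : ℤ) ≤ G.row x - G.row ρ) (hR' : G.row x - G.row ρ ≤ G.T i) :
    BS (G.dn s (G.row ρ)) (G.tr (i + 2 - 1) (G.row ρ))
      ((G.bt s ρ :: G.up ρ s (i - 1 - s)) ++ (L ++ (G.up x τ (i + 1 - τ) ++ G.up ρ (i + 1) 1))) := by
  have a1 := G.dn_le s (G.row ρ)
  have a2 := G.lt_tr s (G.row ρ)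
  have a3 : (0 : ℤ) ≤ G.T s := by positivity
  have a4 := G.lt_dn sx (G.row x)
  have a5 := G.dn_le sx (G.row x)
  have a6 := G.lt_tr (τ - 1) (G.row x)
  have a7 : (0 : ℤ) ≤ G.T (τ - 1) := by positivity
  have a8 : (G.T (sx - 2) : ℤ) ≤ G.T (i - 1) := by exact_mod_cast G.T_mono (by omega)
  have b1 := G.tr_le i (G.row x)
  have b2 := G.lt_tr (i + 1) (G.row ρ)
  have b3 : (8 * G.T i : ℤ) ≤ G.T (i + 1) := by exact_mod_cast G.T_succ i
  have b4 : (G.T (i - 2) : ℤ) ≤ G.T i := by exact_mod_cast G.T_mono (by omega)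
  have b5 : (0 : ℤ) ≤ G.T i := by positivity
  -- lower part
  have hA : BS (G.dn s (G.row ρ)) (G.dn sx (G.row x)) (G.bt s ρ :: G.up ρ s (i - 1 - s)) := by
    by_cases hs : s + 1 < i
    · have c1 : (8 * G.T (i - 2) : ℤ) ≤ G.T (i - 1) := by
        have := G.T_succ (i - 2)
        rw [show i - 2 + 1 = i - 1 by omega] at this
        exact_mod_cast this
      have c2 := G.tr_le (i - 2) (G.row ρ)
      have c3 : (G.T (i - 2 - 2) : ℤ) ≤ G.T (i - 2) := by exact_mod_cast G.T_mono (by omega)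
      have c4 : (G.T (sx - 2) : ℤ) ≤ G.T (i - 2) := by exact_mod_cast G.T_mono (by omega)
      have c5 : (0 : ℤ) ≤ G.T (i - 2) := by positivity
      have h3 := (BS.single (G.bt s ρ)).append (G.up_BS ρ s (i - 1 - s) (i - 2) (by omega)) le_rfl
        (show G.dn s (G.row ρ) ≤ G.tr s (G.row ρ) by linarith) (G.tr_mono (by omega) _)
      exact h3.mono le_rfl (by linarith)
    · have e : i - 1 - s = 0 := by omega
      rw [e]
      show BS _ _ [G.bt s ρ]
      exact (BS.single (G.bt s ρ)).mono le_rfl (show G.dn s (G.row ρ) ≤ _ by linarith)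
  have hB : BS (G.tr τ (G.row x)) (G.tr (i + 2 - 1) (G.row ρ)) (G.up x τ (i + 1 - τ) ++ G.up ρ (i + 1) 1) := by
    refine (G.up_BS x τ (i + 1 - τ) i (by omega)).append (G.up_BS ρ (i + 1) 1 (i + 2 - 1) (by omega))
      (G.tr_mono (by omega) _) (by linarith) (G.tr_mono (by omega) _)
  have d1 : G.tr τ (G.row x) ≤ G.tr i (G.row x) := G.tr_mono (by omega) _
  have d2 : G.tr (i + 1) (G.row ρ) ≤ G.tr (i + 2 - 1) (G.row ρ) := G.tr_mono (by omega) _
  have d3 : G.tr (τ - 1) (G.row x) ≤ G.tr τ (G.row x) := G.tr_mono (by omega) _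
  have h4 := hL.append hB (by linarith) d3 (by linarith)
  exact hA.append h4 (by linarith) le_rfl (by linarith)

theorem cutsR_BS {x : σ} {sx τ : ℕ} {L : List (Cut Λ)} {l : List (ℕ × ℕ × σ)} (h : G.IsCh x τ l) (hsx : sx ≤ τ)
    (hL : BS (G.dn sx (G.row x)) (G.tr (τ - 1) (G.row x)) L) : ∃ a b : ℤ, BS a b (G.cutsR x sx τ L l) := by
  induction l generalizing x sx τ L with
  | nil => exact ⟨_, _, top_BS hL⟩
  | cons c l ih =>
    obtain ⟨s, i, ρ⟩ := c
    obtain ⟨h1, h2, h3, h4, h5, h6⟩ := h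
    show ∃ a b : ℤ, BS a b (if ρ = x then G.cutsR x sx (i + 2) (L ++ G.up x τ (i + 2 - τ)) l
      else G.cutsR ρ s (i + 2) ((G.bt s ρ :: G.up ρ s (i - 1 - s)) ++ (L ++ (G.up x τ (i + 1 - τ) ++ G.up ρ (i + 1) 1))) l)
    by_cases hρ : ρ = x
    · rw [if_pos hρ]
      subst hρ
      exact ih h6 (by omega) (stay_BS hL (by omega))
    · rw [if_neg hρ]
      rcases h5 with h5 | ⟨h7, h8, -⟩
      · exact absurd h5 hρ
      · exact ih h6 (by omega) (move_BS hL hsx h1 h2 h7 h8)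

/-- **The cuts of a chain are sorted.** -/
theorem cuts_pw {x : σ} {l : List (ℕ × ℕ × σ)} (h : G.IsCh x 0 l) : (G.cuts x l).Pairwise fun c d => c.row ≤ d.row := by
  have h1 := G.lt_tr (0 - 1) (G.row x)
  have h2 := G.dn_le 0 (G.row x)
  have h3 : (0 : ℤ) ≤ G.T (0 - 1) := by positivity
  obtain ⟨a, b, h4⟩ := cutsR_BS (L := [G.bt 0 x]) h le_rfl ((BS.single (G.bt 0 x)).mono le_rfl
    (show G.dn 0 (G.row x) ≤ G.tr (0 - 1) (G.row x) by linarith))
  exact h4.1

/-- The coarse position determines the coarse row. -/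
def LocRow (G : Geo σ Λ) : Prop := ∀ u x y, G.loc u x = G.loc u y → G.rc u (G.row x) = G.rc u (G.row y)

theorem up_congr (hl : LocRow G) {x x' : σ} {a n s : ℕ} (hs : s ≤ a) (h : G.loc s x = G.loc s x') :
    G.up x a n = G.up x' a n := by
  unfold up
  refine List.map_congr_left fun k _ => ?_
  have h1 := G.nest s (a + k) (by omega) x x' h
  have h2 := hl _ _ _ h1
  unfold tr
  rw [h1, h2]

theorem bt_congr (hl : LocRow G) {x x' : σ} {s : ℕ} (h : G.loc s x = G.loc s x') : G.bt s x = G.bt s x' := by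
  unfold bt dn
  rw [hl _ _ _ h, h]

theorem abs_row (hl : LocRow G) {x y : σ} {u : ℕ} (h : G.loc u x = G.loc u y) : G.row x - G.row y < G.T (u - 2) := by
  have h1 := hl _ _ _ h
  have h2 := G.dn_le u (G.row y)
  have h3 := nxt_le (G.T_pos (u - 2)) (G.row y)
  have h4 := lt_nxt (G.T_pos (u - 2)) (G.row x)
  unfold rc at h1
  linarith

/-- The cuts are a function of the code. -/
theorem cutsR_congr (hl : LocRow G) {x x' : σ} {sx τ : ℕ} {L : List (Cut Λ)} {l l' : List (ℕ × ℕ × σ)} (h : G.IsCh x τ l)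
    (h' : G.IsCh x' τ l') (hsx : sx ≤ τ) (hx : G.loc sx x = G.loc sx x') (hd : G.dat l = G.dat l') :
    G.cutsR x sx τ L l = G.cutsR x' sx τ L l' := by
  induction l generalizing x x' sx τ L l' with
  | nil =>
    cases l' with
    | nil =>
      show L ++ G.up x τ _ = L ++ G.up x' τ _
      rw [up_congr hl hsx hx]
    | cons a l' => exact absurd hd (by simp [dat])
  | cons c l ih =>
    cases l' with
    | nil => exact absurd hd (by simp [dat])
    | cons c' l' =>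
      obtain ⟨s, i, ρ⟩ := c
      obtain ⟨s', i', ρ'⟩ := c'
      simp only [dat, List.cons.injEq, Prod.mk.injEq] at hd
      obtain ⟨⟨rfl, rfl, h0⟩, hd⟩ := hd
      obtain ⟨h1, h2, h3, h4, h5, h6⟩ := h
      obtain ⟨h1', h2', h3', h4', h5', h6'⟩ := h'
      have hsi : G.T (s - 2) ≤ G.T (i - 1) := G.T_mono (by omega)
      have hxs : G.loc s x = G.loc s x' := G.nest sx s (by omega) _ _ hx
      have key : ∀ y y' ρ₁ ρ₁' : σ, G.R i y' ρ₁' → G.loc s y = G.loc s y' → G.loc s ρ₁ = G.loc s ρ₁' → ρ₁ = y → ρ₁' = y' := by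
        intro y y' ρ₁ ρ₁' hR e1 e2 e3
        rcases hR with hR | ⟨h7, -, -⟩
        · exact hR
        · exfalso
          have h8 := abs_row hl (e1.symm.trans ((congrArg (G.loc s) e3).symm.trans e2))
          have h9 : (G.T (s - 2) : ℤ) ≤ G.T (i - 1) := by exact_mod_cast hsi
          linarith
      have hiff : ρ = x ↔ ρ' = x' := ⟨key x x' ρ ρ' h5' hxs h0, key x' x ρ' ρ h5 hxs.symm h0.symm⟩
      show (if ρ = x then G.cutsR x sx (i + 2) (L ++ G.up x τ (i + 2 - τ)) l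
        else G.cutsR ρ s (i + 2) ((G.bt s ρ :: G.up ρ s (i - 1 - s)) ++ (L ++ (G.up x τ (i + 1 - τ) ++ G.up ρ (i + 1) 1))) l) =
        (if ρ' = x' then G.cutsR x' sx (i + 2) (L ++ G.up x' τ (i + 2 - τ)) l'
        else G.cutsR ρ' s (i + 2) ((G.bt s ρ' :: G.up ρ' s (i - 1 - s)) ++
          (L ++ (G.up x' τ (i + 1 - τ) ++ G.up ρ' (i + 1) 1))) l')
      by_cases hρ : ρ = x
      · have hρ' := hiff.1 hρ
        rw [if_pos hρ, if_pos hρ', up_congr hl hsx hx]
        subst hρ hρ'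
        exact ih h6 h6' (by omega) hx hd
      · have hρ' : ¬ ρ' = x' := fun e => hρ (hiff.2 e)
        rw [if_neg hρ, if_neg hρ', up_congr hl hsx hx, bt_congr hl h0, up_congr hl le_rfl h0,
          up_congr hl (show s ≤ i + 1 by omega) h0]
        exact ih h6 h6' (by omega) h0 hd

theorem cuts_congr (hl : LocRow G) {x x' : σ} {l l' : List (ℕ × ℕ × σ)} (h : G.IsCh x 0 l) (h' : G.IsCh x' 0 l')
    (hx : G.loc 0 x = G.loc 0 x') (hd : G.dat l = G.dat l') : G.cuts x l = G.cuts x' l' := by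
  unfold cuts
  rw [bt_congr hl hx]
  exact cutsR_congr hl h h' le_rfl hx hd

/-- The number of the cuts. -/
theorem cutsR_length {x : σ} {sx τ : ℕ} {L : List (Cut Λ)} {l : List (ℕ × ℕ × σ)} (h : G.IsCh x τ l) :
    (G.cutsR x sx τ L l).length + 4 * τ ≤ L.length + 4 * max τ (G.m + 2) := by
  induction l generalizing x sx τ L with
  | nil =>
    show (L ++ G.up x τ (G.m + 1 - τ)).length + 4 * τ ≤ _
    simp only [List.length_append, up, List.length_map, List.length_range]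
    omega
  | cons c l ih =>
    obtain ⟨s, i, ρ⟩ := c
    obtain ⟨h1, h2, h3, h4, h5, h6⟩ := h
    show (if ρ = x then G.cutsR x sx (i + 2) (L ++ G.up x τ (i + 2 - τ)) l
      else G.cutsR ρ s (i + 2) ((G.bt s ρ :: G.up ρ s (i - 1 - s)) ++
        (L ++ (G.up x τ (i + 1 - τ) ++ G.up ρ (i + 1) 1))) l).length + 4 * τ ≤ _
    by_cases hρ : ρ = x
    · rw [if_pos hρ]
      subst hρ
      have h7 := ih (sx := sx) (L := L ++ G.up ρ τ (i + 2 - τ)) h6
      simp only [List.length_append, up, List.length_map, List.length_range] at h7 ⊢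
      omega
    · rw [if_neg hρ]
      have h7 := ih (sx := s)
        (L := (G.bt s ρ :: G.up ρ s (i - 1 - s)) ++ (L ++ (G.up x τ (i + 1 - τ) ++ G.up ρ (i + 1) 1))) h6
      simp only [List.length_append, List.length_cons, up, List.length_map, List.length_range] at h7 ⊢
      omega

theorem cuts_length {x : σ} {l : List (ℕ × ℕ × σ)} (h : G.IsCh x 0 l) : (G.cuts x l).length ≤ 4 * G.m + 9 := by
  have h1 := cutsR_length (sx := 0) (L := [G.bt 0 x]) h
  simp only [List.length_cons, List.length_nil] at h1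
  show (G.cutsR x 0 0 [G.bt 0 x] l).length ≤ _
  omega

end Geo

/-! ### The depths of the layers and of the nodes -/

section Tails

variable {Λ : Type*} [Inhabited Λ]

/-- The default cut. -/
def d0 : Cut Λ := ⟨0, 0, default⟩

/-- The sum of the depths of the layers. -/
def SL (dpL : Cut Λ → Cut Λ → Env → ℕ) (Z : List (Cut Λ)) (η : Env) : ℕ :=
  ∑ k ∈ range (Z.length - 1), dpL (Z.getD k d0) (Z.getD (k + 1) d0) η

/-- The sum of the depths of the nodes. -/
def SN (dpN : Cut Λ → Cut Λ → Cut Λ → Env → ℕ) (Z : List (Cut Λ)) (η : Env) : ℕ :=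
  ∑ k ∈ range (Z.length - 2), dpN (Z.getD k d0) (Z.getD (k + 1) d0) (Z.getD (k + 2) d0) η

/-- The rows between two cuts. -/
def btw (a b : Cut Λ) : Set Pt := {p | a.row < p.1 ∧ p.1 ≤ b.row}

theorem getD_mono {Z : List (Cut Λ)} (hZ : Z.Pairwise fun c d => c.row ≤ d.row) {i j : ℕ} (hij : i ≤ j) (hj : j < Z.length) :
    (Z.getD i d0).row ≤ (Z.getD j d0).row := by
  rcases hij.eq_or_lt with rfl | hij
  · exact le_rfl
  · have h1 := (List.pairwise_iff_getElem.1 hZ) i j (hij.trans hj) hj hij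
    rwa [List.getD_eq_getElem _ _ (hij.trans hj), List.getD_eq_getElem _ _ hj]

/-- A class of pieces with disjoint rows. -/
theorem tail_class {μ : Measure ℝ} [IsProbabilityMeasure μ] {Z : List (Cut Λ)} (hZ : Z.Pairwise fun c d => c.row ≤ d.row)
    {N : ℕ → Env → ℕ} {lo hi : ℕ → ℕ} (S : Finset ℕ) (hlo : ∀ k ∈ S, lo k ≤ hi k) (hhi : ∀ k ∈ S, hi k < Z.length)
    (hd : ∀ k ∈ S, ∀ k' ∈ S, k < k' → hi k ≤ lo k')
    (hm : ∀ k, Measurable (N k))
    (hr : ∀ k ∈ S, ∀ η η' : Env, (∀ p ∈ btw (Z.getD (lo k) d0) (Z.getD (hi k) d0), η p = η' p) → N k η = N k η')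
    {z M : ℝ≥0∞} (hz : 1 ≤ z) (hz' : z ≠ ∞) (hM : 1 ≤ M) (hmom : ∀ k ∈ S, ∫⁻ η, z ^ N k η ∂(law μ) ≤ M) {n : ℕ}
    (hn : S.card ≤ n) (r : ℕ) : law μ {η | r ≤ ∑ k ∈ S, N k η} ≤ M ^ n / z ^ r := by
  have hP : IsProbabilityMeasure (law μ) := by unfold law; infer_instance
  have h1 := sum_le (μ := μ) (A := fun k => btw (Z.getD (lo k) d0) (Z.getD (hi k) d0)) (N := N) hm hz hz' S
    (fun i hi' j hj hij η η' he => hr i hi' η η' fun p hp => he p fun hp' => by
      have h2 := getD_mono hZ (hd i hi' j hj hij) (lt_of_le_of_lt (hlo j hj) (hhi j hj))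
      have h3 : p.1 ≤ (Z.getD (hi i) d0).row := hp.2
      have h4 : (Z.getD (lo j) d0).row < p.1 := hp'.1
      linarith) (M := M) (fun k hk η => ?_) r
  · exact h1.trans (ENNReal.div_le_div_right (pow_le_pow_right₀ hM hn) _)
  · have e : ∀ η', N k (gl (btw (Z.getD (lo k) d0) (Z.getD (hi k) d0)) η' η) = N k η' := fun η' =>
      hr k hk _ _ fun p hp => gl_of_mem hp η' η
    simp only [e]
    exact hmom k hk

end Tails

namespace Geo

variable {σ Λ : Type*} [Inhabited Λ] {G : Geo σ Λ}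

/-- One chain. -/
theorem tailG {μ : Measure ℝ} [IsProbabilityMeasure μ] {dpL : Cut Λ → Cut Λ → Env → ℕ}
    {dpN : Cut Λ → Cut Λ → Cut Λ → Env → ℕ} (mL : ∀ a b, Measurable (dpL a b)) (mN : ∀ a b c, Measurable (dpN a b c))
    (rL : ∀ a b (η η' : Env), (∀ p ∈ btw a b, η p = η' p) → dpL a b η = dpL a b η')
    (rN : ∀ a b c (η η' : Env), (∀ p ∈ btw a c, η p = η' p) → dpN a b c η = dpN a b c η')
    {z M : ℝ≥0∞} (hz : 1 ≤ z) (hz' : z ≠ ∞) (hM : 1 ≤ M) {x : σ} {l : List (ℕ × ℕ × σ)} (h : G.IsCh x 0 l)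
    (momL : ∀ k, k + 1 < (G.cuts x l).length →
      ∫⁻ η, z ^ dpL ((G.cuts x l).getD k d0) ((G.cuts x l).getD (k + 1) d0) η ∂(law μ) ≤ M)
    (momN : ∀ k, k + 2 < (G.cuts x l).length →
      ∫⁻ η, z ^ dpN ((G.cuts x l).getD k d0) ((G.cuts x l).getD (k + 1) d0) ((G.cuts x l).getD (k + 2) d0) η ∂(law μ) ≤ M)
    (r : ℕ) : law μ {η | 3 * r ≤ SL dpL (G.cuts x l) η + SN dpN (G.cuts x l) η} ≤ 3 * (M ^ (4 * G.m + 9) / z ^ r) := by
  set Z := G.cuts x l with hZ
  have hpw := cuts_pw h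
  rw [← hZ] at hpw
  have hlen : Z.length ≤ 4 * G.m + 9 := cuts_length h
  set NL : ℕ → Env → ℕ := fun k => dpL (Z.getD k d0) (Z.getD (k + 1) d0) with hNL
  set NN : ℕ → Env → ℕ := fun k => dpN (Z.getD k d0) (Z.getD (k + 1) d0) (Z.getD (k + 2) d0) with hNN
  have h1 := tail_class (μ := μ) hpw (N := NL) (lo := fun k => k) (hi := fun k => k + 1) (range (Z.length - 1))
    (fun k _ => Nat.le_succ k) (fun k hk => by rw [mem_range] at hk; show k + 1 < _; omega)
    (fun k _ k' _ hkk => hkk) (fun k => mL _ _) (fun k _ η η' he => rL _ _ η η' he) hz hz' hM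
    (fun k hk => momL k (by rw [mem_range] at hk; omega)) (n := 4 * G.m + 9) (by rw [card_range]; omega) r
  have h2 : ∀ e : ℕ, law μ {η | r ≤ ∑ k ∈ (range (Z.length - 2)).filter (fun k => k % 2 = e), NN k η} ≤
      M ^ (4 * G.m + 9) / z ^ r := by
    intro e
    refine tail_class (μ := μ) hpw (N := NN) (lo := fun k => k) (hi := fun k => k + 2) _
      (fun k _ => by show k ≤ k + 2; omega)
      (fun k hk => ?_) (fun k hk k' hk' hkk => ?_) (fun k => mN _ _ _) (fun k _ η η' he => rN _ _ _ η η' he) hz hz' hM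
      (fun k hk => momN k ?_) ?_ r
    · have := mem_range.1 (mem_filter.1 hk).1
      show k + 2 < _
      omega
    · have a1 := (mem_filter.1 hk).2
      have a2 := (mem_filter.1 hk').2
      show k + 2 ≤ k'
      omega
    · have := mem_range.1 (mem_filter.1 hk).1
      omega
    · refine (card_filter_le _ _).trans ?_
      rw [card_range]
      omega
  have hsub : {η | 3 * r ≤ SL dpL Z η + SN dpN Z η} ⊆ {η | r ≤ ∑ k ∈ range (Z.length - 1), NL k η} ∪
      ({η | r ≤ ∑ k ∈ (range (Z.length - 2)).filter (fun k => k % 2 = 0), NN k η} ∪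
        {η | r ≤ ∑ k ∈ (range (Z.length - 2)).filter (fun k => k % 2 = 1), NN k η}) := by
    intro η hη
    have hη' : 3 * r ≤ SL dpL Z η + SN dpN Z η := hη
    have e1 : SN dpN Z η = ∑ k ∈ (range (Z.length - 2)).filter (fun k => k % 2 = 0), NN k η +
        ∑ k ∈ (range (Z.length - 2)).filter (fun k => k % 2 = 1), NN k η := by
      have h3 := sum_filter_add_sum_filter_not (range (Z.length - 2)) (fun k => k % 2 = 0) fun k => NN k η
      have h4 : (range (Z.length - 2)).filter (fun k => ¬ k % 2 = 0) = (range (Z.length - 2)).filter (fun k => k % 2 = 1) :=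
        filter_congr fun k _ => by omega
      rw [h4] at h3
      exact h3.symm
    have e2 : SL dpL Z η = ∑ k ∈ range (Z.length - 1), NL k η := rfl
    by_cases c1 : r ≤ ∑ k ∈ range (Z.length - 1), NL k η
    · exact Or.inl c1
    · by_cases c2 : r ≤ ∑ k ∈ (range (Z.length - 2)).filter (fun k => k % 2 = 0), NN k η
      · exact Or.inr (Or.inl c2)
      · refine Or.inr (Or.inr ?_)
        show r ≤ ∑ k ∈ (range (Z.length - 2)).filter (fun k => k % 2 = 1), NN k η
        omega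
  calc law μ {η | 3 * r ≤ SL dpL Z η + SN dpN Z η} ≤ _ := measure_mono hsub
    _ ≤ law μ {η | r ≤ ∑ k ∈ range (Z.length - 1), NL k η} +
        (law μ {η | r ≤ ∑ k ∈ (range (Z.length - 2)).filter (fun k => k % 2 = 0), NN k η} +
          law μ {η | r ≤ ∑ k ∈ (range (Z.length - 2)).filter (fun k => k % 2 = 1), NN k η}) :=
        (measure_union_le _ _).trans (add_le_add le_rfl (measure_union_le _ _))
    _ ≤ M ^ (4 * G.m + 9) / z ^ r + (M ^ (4 * G.m + 9) / z ^ r + M ^ (4 * G.m + 9) / z ^ r) :=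
        add_le_add h1 (add_le_add (h2 0) (h2 1))
    _ = _ := by ring

/-- **UNION OVER THE CHAINS, ALL LAYERS AND NODES.** -/
theorem chnG40 {μ : Measure ℝ} [IsProbabilityMeasure μ] {A : ℕ} (C : Cnt G A) (hl : LocRow G) {dpL : Cut Λ → Cut Λ → Env → ℕ}
    {dpN : Cut Λ → Cut Λ → Cut Λ → Env → ℕ} (mL : ∀ a b, Measurable (dpL a b)) (mN : ∀ a b c, Measurable (dpN a b c))
    (rL : ∀ a b (η η' : Env), (∀ p ∈ btw a b, η p = η' p) → dpL a b η = dpL a b η')
    (rN : ∀ a b c (η η' : Env), (∀ p ∈ btw a c, η p = η' p) → dpN a b c η = dpN a b c η')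
    {z M : ℝ≥0∞} (hz : 1 ≤ z) (hz' : z ≠ ∞) (hM : 1 ≤ M)
    (momL : ∀ x ∈ G.W, ∀ l, G.IsCh x 0 l → ∀ k, k + 1 < (G.cuts x l).length →
      ∫⁻ η, z ^ dpL ((G.cuts x l).getD k d0) ((G.cuts x l).getD (k + 1) d0) η ∂(law μ) ≤ M)
    (momN : ∀ x ∈ G.W, ∀ l, G.IsCh x 0 l → ∀ k, k + 2 < (G.cuts x l).length →
      ∫⁻ η, z ^ dpN ((G.cuts x l).getD k d0) ((G.cuts x l).getD (k + 1) d0) ((G.cuts x l).getD (k + 2) d0) η ∂(law μ) ≤ M)
    (r : ℕ) :
    law μ {η | ∃ x ∈ G.W, ∃ l, G.IsCh x 0 l ∧ 3 * r ≤ SL dpL (G.cuts x l) η + SN dpN (G.cuts x l) η} ≤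
      (((4 * A) ^ (G.m + 2) * A ^ (2 * G.m + 1) : ℕ) : ℝ≥0∞) * (3 * (M ^ (4 * G.m + 9) / z ^ r)) :=
  union40 C (S := fun x l η => SL dpL (G.cuts x l) η + SN dpN (G.cuts x l) η)
    (fun x _ x' _ l l' h h' h1 h2 η => by
      show SL dpL (G.cuts x l) η + SN dpN (G.cuts x l) η = SL dpL (G.cuts x' l') η + SN dpN (G.cuts x' l') η
      rw [cuts_congr hl h h' h1 h2])
    (fun x hx l h => tailG mL mN rL rN hz hz' hM h (momL x hx l h) (momN x hx l h) r)

end Geo

/-! ### The tower above an own slab -/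

namespace Geo

variable {σ Λ : Type*} {G : Geo σ Λ}

/-- The cut of the scale `v` above `y`. -/
def ct (G : Geo σ Λ) (v : ℕ) (y : σ) : Cut Λ := ⟨G.tr v (G.row y), v, G.loc v y⟩

/-- A tower above the centre `y`, from the scale `v` on: successive scales, the centre may move. -/
def Tow (G : Geo σ Λ) : σ → ℕ → List (Cut Λ) → Prop
  | _, _, [] => True
  | y, v, c :: R => c = G.ct v y ∧ ∃ y', (y' ∈ G.W ∨ y' = y) ∧ G.R v y y' ∧ Tow G y' (v + 1) R

theorem up_zero (x : σ) (a : ℕ) : G.up x a 0 = [] := rfl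

theorem up_succ (x : σ) (a n : ℕ) : G.up x a (n + 1) = G.ct a x :: G.up x (a + 1) n := by
  unfold up ct
  rw [List.range_succ_eq_map, List.map_cons, List.map_map]
  congr 1
  refine List.map_congr_left fun k _ => ?_
  show (⟨G.tr (a + (k + 1)) (G.row x), a + (k + 1), G.loc (a + (k + 1)) x⟩ : Cut Λ) = ⟨_, _, _⟩
  rw [show a + (k + 1) = a + 1 + k by ring]

theorem up_add (x : σ) (a n k : ℕ) : G.up x a (n + k) = G.up x a n ++ G.up x (a + n) k := by
  induction n generalizing a with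
  | zero => simp [up_zero]
  | succ n ih =>
    rw [show n + 1 + k = (n + k) + 1 by ring, up_succ, up_succ, ih, List.cons_append, show a + 1 + n = a + (n + 1) by ring]

theorem up_length (x : σ) (a n : ℕ) : (G.up x a n).length = n := by simp [up]

theorem up_sc (x : σ) (a n : ℕ) : ∀ c ∈ G.up x a n, c.sc < a + n := by
  intro c hc
  unfold up at hc
  obtain ⟨k, hk, rfl⟩ := List.mem_map.1 hc
  rw [List.mem_range] at hk
  show a + k < a + n
  omega

theorem Tow.up {x : σ} {a n : ℕ} {R : List (Cut Λ)} (h : G.Tow x (a + n) R) : G.Tow x a (G.up x a n ++ R) := by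
  induction n generalizing a with
  | zero => simpa [up_zero] using h
  | succ n ih =>
    rw [up_succ, List.cons_append]
    refine ⟨rfl, x, Or.inr rfl, Or.inl rfl, ih ?_⟩
    rwa [show a + 1 + n = a + (n + 1) by ring]

/-- The top of a tower moves. -/
theorem Tow.move {x ρ : σ} {a n : ℕ} {R : List (Cut Λ)} (hn : 0 < n) (hρ : ρ ∈ G.W) (hR : G.R (a + n - 1) x ρ)
    (h : G.Tow ρ (a + n) R) : G.Tow x a (G.up x a n ++ R) := by
  induction n generalizing a with
  | zero => omega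
  | succ n ih =>
    rw [up_succ, List.cons_append]
    rcases Nat.eq_zero_or_pos n with h0 | h0
    · subst h0
      rw [up_zero, List.nil_append]
      exact ⟨rfl, ρ, Or.inl hρ, by simpa using hR, h⟩
    · refine ⟨rfl, x, Or.inr rfl, Or.inl rfl, ih h0 ?_ ?_⟩
      · rwa [show a + 1 + n - 1 = a + (n + 1) - 1 by omega]
      · rwa [show a + 1 + n = a + (n + 1) by ring]

/-- Around the old list: something below, a tower above. -/
theorem cutsR_tow {x : σ} {sx τ : ℕ} {L : List (Cut Λ)} {l : List (ℕ × ℕ × σ)} (h : G.IsCh x τ l) :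
    ∃ P R, G.cutsR x sx τ L l = P ++ (L ++ R) ∧ G.Tow x τ R ∧ G.m + 1 ≤ τ + R.length := by
  induction l generalizing x sx τ L with
  | nil =>
    refine ⟨[], G.up x τ (G.m + 1 - τ), rfl, ?_, ?_⟩
    · have := Tow.up (G := G) (x := x) (a := τ) (n := G.m + 1 - τ) (R := []) trivial
      rwa [List.append_nil] at this
    · rw [up_length]
      omega
  | cons c l ih =>
    obtain ⟨s, i, ρ⟩ := c
    obtain ⟨h1, h2, h3, h4, h5, h6⟩ := h
    show ∃ P R, (if ρ = x then G.cutsR x sx (i + 2) (L ++ G.up x τ (i + 2 - τ)) l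
      else G.cutsR ρ s (i + 2) ((G.bt s ρ :: G.up ρ s (i - 1 - s)) ++
        (L ++ (G.up x τ (i + 1 - τ) ++ G.up ρ (i + 1) 1))) l) = P ++ (L ++ R) ∧ _ ∧ _
    by_cases hρ : ρ = x
    · rw [if_pos hρ]
      subst hρ
      obtain ⟨P, R, e, h7, h8⟩ := ih (sx := sx) (L := L ++ G.up ρ τ (i + 2 - τ)) h6
      refine ⟨P, G.up ρ τ (i + 2 - τ) ++ R, by rw [e]; simp only [List.append_assoc], ?_, ?_⟩
      · refine Tow.up ?_
        rwa [show τ + (i + 2 - τ) = i + 2 by omega]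
      · rw [List.length_append, up_length]
        omega
    · rw [if_neg hρ]
      obtain ⟨P, R, e, h7, h8⟩ := ih (sx := s)
        (L := (G.bt s ρ :: G.up ρ s (i - 1 - s)) ++ (L ++ (G.up x τ (i + 1 - τ) ++ G.up ρ (i + 1) 1))) h6
      refine ⟨P ++ (G.bt s ρ :: G.up ρ s (i - 1 - s)), G.up x τ (i + 1 - τ) ++ (G.up ρ (i + 1) 1 ++ R), ?_, ?_, ?_⟩
      · rw [e]
        simp only [List.append_assoc]
      · refine Tow.move (by omega) h4 ?_ ?_
        · rwa [show τ + (i + 1 - τ) - 1 = i by omega]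
        · rw [show τ + (i + 1 - τ) = i + 1 by omega]
          exact Tow.up h7
      · rw [List.length_append, List.length_append, up_length, up_length]
        omega

/-- **THE TOWER ABOVE AN OWN SLAB.** Own cuts of the scales `u, …, i - 2`, then a block of cuts of scales `≤ i`, then a tower from
the scale `i + 1` to at least `m`. -/
theorem cutsR_own {x : σ} {sx τ : ℕ} {L : List (Cut Λ)} {l : List (ℕ × ℕ × σ)} (h : G.IsCh x τ l)
    (hL : ∀ c ∈ L, c.sc ≤ τ) {s i u : ℕ} {ρ : σ} (hm : (s, i, ρ) ∈ l) (hs : s ≤ u) (hu : u < i - 1) :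
    ∃ P Q R, G.cutsR x sx τ L l = P ++ (G.up ρ u (i - 1 - u) ++ (Q ++ R)) ∧ (∀ c ∈ Q, c.sc ≤ i) ∧ G.Tow ρ (i + 1) R ∧
      G.m ≤ i + R.length ∧ R ≠ [] := by
  induction l generalizing x sx τ L with
  | nil => exact absurd hm (by simp)
  | cons c l ih =>
    obtain ⟨s', i', ρ'⟩ := c
    obtain ⟨h1, h2, h3, h4, h5, h6⟩ := h
    show ∃ P Q R, (if ρ' = x then G.cutsR x sx (i' + 2) (L ++ G.up x τ (i' + 2 - τ)) l
      else G.cutsR ρ' s' (i' + 2) ((G.bt s' ρ' :: G.up ρ' s' (i' - 1 - s')) ++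
        (L ++ (G.up x τ (i' + 1 - τ) ++ G.up ρ' (i' + 1) 1))) l) = P ++ (G.up ρ u (i - 1 - u) ++ (Q ++ R)) ∧ _
    rcases List.mem_cons.1 hm with hm | hm
    · simp only [Prod.mk.injEq] at hm
      obtain ⟨rfl, rfl, rfl⟩ := hm
      by_cases hρ : ρ = x
      · rw [if_pos hρ]
        subst hρ
        obtain ⟨P, R, e, h7, h8⟩ := cutsR_tow (sx := sx) (L := L ++ G.up ρ τ (i + 2 - τ)) h6
        refine ⟨P ++ (L ++ G.up ρ τ (u - τ)), G.up ρ (i - 1) 2, G.up ρ (i + 1) 1 ++ R, ?_, ?_, ?_, ?_, ?_⟩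
        · rw [e]
          have e1 : i + 2 - τ = (u - τ) + ((i - 1 - u) + (2 + 1)) := by omega
          rw [e1, up_add, up_add, up_add, show τ + (u - τ) = u by omega, show u + (i - 1 - u) = i - 1 by omega,
            show i - 1 + 2 = i + 1 by omega]
          simp only [List.append_assoc]
        · intro c hc
          have := up_sc _ _ _ c hc
          omega
        · exact Tow.up h7
        · rw [List.length_append, up_length]
          omega
        · rw [up_succ]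
          exact List.cons_ne_nil _ _
      · rw [if_neg hρ]
        obtain ⟨P, R, e, h7, h8⟩ := cutsR_tow (sx := s)
          (L := (G.bt s ρ :: G.up ρ s (i - 1 - s)) ++ (L ++ (G.up x τ (i + 1 - τ) ++ G.up ρ (i + 1) 1))) h6
        refine ⟨P ++ (G.bt s ρ :: G.up ρ s (u - s)), L ++ G.up x τ (i + 1 - τ), G.up ρ (i + 1) 1 ++ R, ?_, ?_, ?_, ?_, ?_⟩
        · rw [e]
          have e1 : i - 1 - s = (u - s) + (i - 1 - u) := by omega
          rw [e1, up_add, show s + (u - s) = u by omega]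
          simp only [List.append_assoc, List.cons_append]
        · intro c hc
          rcases List.mem_append.1 hc with hc | hc
          · have := hL c hc
            omega
          · have := up_sc _ _ _ c hc
            omega
        · exact Tow.up h7
        · rw [List.length_append, up_length]
          omega
        · rw [up_succ]
          exact List.cons_ne_nil _ _
    · by_cases hρ : ρ' = x
      · rw [if_pos hρ]
        subst hρ
        refine ih h6 (fun c hc => ?_) hm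
        rcases List.mem_append.1 hc with hc | hc
        · have := hL c hc
          omega
        · have := up_sc _ _ _ c hc
          omega
      · rw [if_neg hρ]
        refine ih h6 (fun c hc => ?_) hm
        simp only [List.mem_append, List.mem_cons] at hc
        rcases hc with (rfl | hc) | hc | hc | hc
        · show s' ≤ i' + 2
          omega
        · have := up_sc _ _ _ c hc
          omega
        · have := hL c hc
          omega
        · have := up_sc _ _ _ c hc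
          omega
        · have := up_sc _ _ _ c hc
          omega

theorem cuts_own {x : σ} {l : List (ℕ × ℕ × σ)} (h : G.IsCh x 0 l) {s i u : ℕ} {ρ : σ} (hm : (s, i, ρ) ∈ l) (hs : s ≤ u)
    (hu : u < i - 1) : ∃ P Q R, G.cuts x l = P ++ (G.up ρ u (i - 1 - u) ++ (Q ++ R)) ∧ (∀ c ∈ Q, c.sc ≤ i) ∧
      G.Tow ρ (i + 1) R ∧ G.m ≤ i + R.length ∧ R ≠ [] :=
  cutsR_own h (fun c hc => by rw [List.mem_singleton.1 hc]; exact le_rfl) hm hs hu

/-! ### Comparison of the potentials -/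

/-- The own slabs which a chain from `(x, τ)` can use. -/
def Rch (G : Geo σ Λ) (x : σ) (τ u : ℕ) (ρ : σ) : Prop :=
  ∃ l s i, G.IsCh x τ l ∧ (s, i, ρ) ∈ l ∧ s ≤ u ∧ u < i - 1

theorem mem_Al {l : List (ℕ × ℕ × σ)} {s i u : ℕ} {ρ : σ} (hm : (s, i, ρ) ∈ l) (hs : s ≤ u) (hu : u < i - 1) {p : Pt}
    (hp : p.1 ∈ G.sr u (G.row ρ)) : p ∈ G.Al l u := by
  induction l with
  | nil => exact absurd hm (by simp)
  | cons c l ih =>
    obtain ⟨s', i', ρ'⟩ := c
    rcases List.mem_cons.1 hm with hm | hm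
    · simp only [Prod.mk.injEq] at hm
      obtain ⟨rfl, rfl, rfl⟩ := hm
      exact Or.inl ⟨hs, hu, hp⟩
    · exact Or.inr (ih hm)

theorem IsCh.mem_W {x : σ} {τ : ℕ} {l : List (ℕ × ℕ × σ)} (h : G.IsCh x τ l) {s i : ℕ} {ρ : σ} (hm : (s, i, ρ) ∈ l) :
    ρ ∈ G.W ∧ τ ≤ s ∧ s < i ∧ i ≤ G.m := by
  induction l generalizing x τ with
  | nil => exact absurd hm (by simp)
  | cons c l ih =>
    obtain ⟨s', i', ρ'⟩ := c
    obtain ⟨h1, h2, h3, h4, h5, h6⟩ := h
    rcases List.mem_cons.1 hm with hm | hm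
    · simp only [Prod.mk.injEq] at hm
      obtain ⟨rfl, rfl, rfl⟩ := hm
      exact ⟨h4, h1, h2, h3⟩
    · obtain ⟨h7, h8, h9, h10⟩ := ih h6 hm
      exact ⟨h7, by omega, h9, h10⟩

theorem Rch.spec {x : σ} {τ u : ℕ} {ρ : σ} (h : G.Rch x τ u ρ) : ρ ∈ G.W ∧ τ ≤ u ∧ u < G.m := by
  obtain ⟨l, s, i, h1, h2, h3, h4⟩ := h
  obtain ⟨h5, h6, h7, h8⟩ := h1.mem_W h2
  exact ⟨h5, by omega, by omega⟩

/-- The rows of an own slab of a chain from `(x, τ)`. -/
theorem Rch.rows {x : σ} {τ u : ℕ} {ρ : σ} (h : G.Rch x τ u ρ) {p : Pt} (hp : p.1 ∈ G.sr u (G.row ρ)) :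
    p.1 ≤ G.row x ∨ G.row x + G.T (τ - 1) < p.1 := by
  obtain ⟨l, s, i, h1, h2, h3, h4⟩ := h
  exact (h1.rows (mem_Al h2 h3 h4 hp)).2

/-- **Comparison.** -/
theorem Yp_le_Yp {dep dep' : ℕ → Λ → Env → ℕ} {y : ℝ≥0∞} (hy : y ≤ 1) {x : σ} {τ : ℕ} {ω ω' : Env}
    (h : ∀ u ρ, G.Rch x τ u ρ → dep' u (G.loc u ρ) ω' ≤ dep u (G.loc u ρ) ω) : G.Yp dep y x τ ω ≤ G.Yp dep' y x τ ω' := by
  unfold Yp
  refine le_iInf fun l => (iInf_le _ l).trans ?_
  obtain ⟨l, hl⟩ := l
  refine pow_le_pow_right_of_le_one' hy ?_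
  have key : ∀ l' : List (ℕ × ℕ × σ), (∀ q ∈ l', q ∈ l) → G.num dep' l' ω' ≤ G.num dep l' ω := by
    intro l'
    induction l' with
    | nil => exact fun _ => le_rfl
    | cons c l' ih =>
      intro hq
      obtain ⟨s, i, ρ⟩ := c
      refine Nat.add_le_add (sum_le_sum fun u hu => ?_) (ih fun q hq' => hq q (List.mem_cons_of_mem _ hq'))
      rw [mem_Ico] at hu
      exact h u ρ ⟨l, s, i, hl, hq _ List.mem_cons_self, hu.1, hu.2⟩
  exact key l fun q hq => hq

end Geo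

end

end Pool.Agent.W_7d29a1_C1.H40
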