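import Mathlib

/-!
MP_7d29a1_pr, the attractor route: THE CHAIN POTENTIAL of the separation (fields `pot_…` of helper49's `MoveD`). (helper40)

A step from `(x, τ)`: own slabs `(p, u)`, `a ≤ u < s`, and `(q, u)`, `s ≤ u < i`, where `τ ≤ a ≤ s < i`, `a + λ ≤ i`.
`stay`: `p = q = x`; `move`: `p` is an earlier centre (`Mv i x p`), `q` a drifted one (`Dr s p q`), the chain goes on from `q`;
`visit`: the same, but the chain goes on from `x`. The next step starts at a scale `≥ i + g`. No locality is used here.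
-/

set_option autoImplicit false

namespace Pool.Agent.W_7d29a1_C1.H40

open MeasureTheory Finset
open scoped ENNReal Classical

noncomputable section

/-- The kinds of the steps. -/
inductive Kd
  | stay
  | move
  | visit
  deriving DecidableEq

/-- A step. -/
structure St (σ : Type*) where
  k : Kd
  a : ℕ
  s : ℕ
  i : ℕ
  p : σ
  q : σ

/-- The relations of the centres. -/
structure Rl (σ : Type*) where
  m : ℕ
  lam : ℕ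
  g : ℕ
  W : Set σ
  Mv : ℕ → σ → σ → Prop
  Dr : ℕ → σ → σ → Prop

namespace Rl

variable {σ Ω : Type*} (R : Rl σ)

/-- A legal step. -/
def Ok (x : σ) (τ : ℕ) (c : St σ) : Prop :=
  τ ≤ c.a ∧ c.a ≤ c.s ∧ c.s < c.i ∧ c.a + R.lam ≤ c.i ∧ c.i ≤ R.m ∧ c.p ∈ R.W ∧ c.q ∈ R.W ∧
    (c.k = Kd.stay → c.p = x ∧ c.q = x) ∧ (c.k ≠ Kd.stay → R.Mv c.i x c.p ∧ R.Dr c.s c.p c.q)

/-- The next centre. -/
def nxc (x : σ) (c : St σ) : σ := if c.k = Kd.move then c.q else x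

/-- Chains from `(x, τ)`. -/
def IsC : σ → ℕ → List (St σ) → Prop
  | _, _, [] => True
  | x, τ, c :: l => R.Ok x τ c ∧ IsC (nxc x c) (c.i + R.g) l

/-- The depth of a step. -/
def dst (dep : ℕ → σ → Ω → ℕ) (c : St σ) (ω : Ω) : ℕ :=
  ∑ u ∈ Ico c.a c.s, dep u c.p ω + ∑ u ∈ Ico c.s c.i, dep u c.q ω

/-- The depth of a chain. -/
def nm (dep : ℕ → σ → Ω → ℕ) (l : List (St σ)) (ω : Ω) : ℕ := (l.map fun c => dst dep c ω).sum

/-- **The potential.** -/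
def Pot (dep : ℕ → σ → Ω → ℕ) (y : ℝ≥0∞) (x : σ) (τ : ℕ) (ω : Ω) : ℝ≥0∞ :=
  ⨅ l : {l : List (St σ) // R.IsC x τ l}, y ^ nm dep l.1 ω

variable {R}

theorem nm_cons (dep : ℕ → σ → Ω → ℕ) (c : St σ) (l : List (St σ)) (ω : Ω) :
    nm dep (c :: l) ω = dst dep c ω + nm dep l ω := by
  simp [nm]

theorem IsC.mono {x : σ} {τ τ' : ℕ} (h : τ ≤ τ') {l : List (St σ)} (hl : R.IsC x τ' l) : R.IsC x τ l := by
  cases l with
  | nil => exact trivial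
  | cons c l => exact ⟨⟨h.trans hl.1.1, hl.1.2⟩, hl.2⟩

theorem Pot_le_one (dep : ℕ → σ → Ω → ℕ) (y : ℝ≥0∞) (x : σ) (τ : ℕ) (ω : Ω) : R.Pot dep y x τ ω ≤ 1 := by
  refine (iInf_le _ (⟨[], trivial⟩ : {l : List (St σ) // R.IsC x τ l})).trans ?_
  show y ^ (0 : ℕ) ≤ 1
  rw [pow_zero]

theorem Pot_mono (dep : ℕ → σ → Ω → ℕ) (y : ℝ≥0∞) (x : σ) {τ τ' : ℕ} (h : τ ≤ τ') (ω : Ω) :
    R.Pot dep y x τ ω ≤ R.Pot dep y x τ' ω :=
  le_iInf fun l => iInf_le (fun l : {l : List (St σ) // R.IsC x τ l} => y ^ nm dep l.1 ω) ⟨l.1, l.2.mono h⟩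

theorem measurable_nm [MeasurableSpace Ω] {dep : ℕ → σ → Ω → ℕ} (hm : ∀ u ρ, Measurable (dep u ρ)) (l : List (St σ)) :
    Measurable (nm dep l) := by
  induction l with
  | nil => exact measurable_const
  | cons c l ih =>
    have e : nm dep (c :: l) = fun ω => dst dep c ω + nm dep l ω := funext fun ω => nm_cons dep c l ω
    rw [e]
    exact ((Finset.measurable_sum _ fun u _ => hm u _).add (Finset.measurable_sum _ fun u _ => hm u _)).add ih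

instance [Countable σ] : Countable (St σ) := by
  let f : St σ → (Bool × Bool) × (ℕ × ℕ × ℕ) × σ × σ := fun c =>
    ((decide (c.k = Kd.stay), decide (c.k = Kd.move)), (c.a, c.s, c.i), c.p, c.q)
  have hf : Function.Injective f := by
    rintro ⟨k, a, s, i, p, q⟩ ⟨k', a', s', i', p', q'⟩ h
    simp only [f, Prod.mk.injEq] at h
    obtain ⟨⟨h1, h2⟩, ⟨rfl, rfl, rfl⟩, rfl, rfl⟩ := h
    have : k = k' := by cases k <;> cases k' <;> simp_all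
    rw [this]
  exact hf.countable

theorem measurable_Pot [MeasurableSpace Ω] [Countable σ] {dep : ℕ → σ → Ω → ℕ} (hm : ∀ u ρ, Measurable (dep u ρ)) (y : ℝ≥0∞)
    (x : σ) (τ : ℕ) : Measurable (R.Pot dep y x τ) := by
  have hc : Countable {l : List (St σ) // R.IsC x τ l} := inferInstance
  exact Measurable.iInf fun l => (measurable_from_top (f := fun n : ℕ => y ^ n)).comp (measurable_nm hm l.1)

/-- The own slabs which a chain from `(x, τ)` can use. -/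
def Rc (R : Rl σ) (x : σ) (τ u : ℕ) (ρ : σ) : Prop :=
  ∃ l c, R.IsC x τ l ∧ c ∈ l ∧ ((ρ = c.p ∧ c.a ≤ u ∧ u < c.s) ∨ (ρ = c.q ∧ c.s ≤ u ∧ u < c.i))

theorem IsC.mem {x : σ} {τ : ℕ} {l : List (St σ)} (h : R.IsC x τ l) {c : St σ} (hc : c ∈ l) :
    ∃ y τ', τ ≤ τ' ∧ R.Ok y τ' c := by
  induction l generalizing x τ with
  | nil => exact absurd hc (by simp)
  | cons d l ih =>
    rcases List.mem_cons.1 hc with rfl | hc
    · exact ⟨x, τ, le_rfl, h.1⟩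
    · obtain ⟨y, τ', h1, h2⟩ := ih h.2 hc
      have h3 := h.1.1
      have h4 := h.1.2.1
      have h5 := h.1.2.2.1
      exact ⟨y, τ', by omega, h2⟩

theorem Rc.spec {x : σ} {τ u : ℕ} {ρ : σ} (h : R.Rc x τ u ρ) : ρ ∈ R.W ∧ τ ≤ u ∧ u < R.m := by
  obtain ⟨l, c, h1, h2, h3⟩ := h
  obtain ⟨y, τ', h4, h5, h6, h7, h8, h9, h10, h11, -, -⟩ := h1.mem h2
  rcases h3 with ⟨rfl, h12, h13⟩ | ⟨rfl, h12, h13⟩
  · exact ⟨h10, by omega, by omega⟩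
  · exact ⟨h11, by omega, by omega⟩

/-- **Comparison**: fewer abnormal own slabs, larger potential. -/
theorem Pot_le_Pot {dep dep' : ℕ → σ → Ω → ℕ} {y : ℝ≥0∞} (hy : y ≤ 1) {x : σ} {τ : ℕ} {ω ω' : Ω}
    (h : ∀ u ρ, R.Rc x τ u ρ → dep' u ρ ω' ≤ dep u ρ ω) : R.Pot dep y x τ ω ≤ R.Pot dep' y x τ ω' := by
  refine le_iInf fun l => (iInf_le _ l).trans ?_
  obtain ⟨l, hl⟩ := l
  refine pow_le_pow_right_of_le_one' hy ?_
  refine List.sum_le_sum fun c hc => ?_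
  refine Nat.add_le_add (sum_le_sum fun u hu => ?_) (sum_le_sum fun u hu => ?_)
  · rw [mem_Ico] at hu
    exact h u _ ⟨l, c, hl, hc, Or.inl ⟨rfl, hu.1, hu.2⟩⟩
  · rw [mem_Ico] at hu
    exact h u _ ⟨l, c, hl, hc, Or.inr ⟨rfl, hu.1, hu.2⟩⟩

/-- **One step.** -/
theorem Pot_step {dep : ℕ → σ → Ω → ℕ} {y : ℝ≥0∞} (hy : y ≠ ∞) {x : σ} {τ τ' : ℕ} {c : St σ} (h : R.Ok x τ c)
    (hτ : c.i + R.g ≤ τ') (ω : Ω) : R.Pot dep y x τ ω ≤ y ^ dst dep c ω * R.Pot dep y (nxc x c) τ' ω := by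
  unfold Pot
  have : Nonempty {l : List (St σ) // R.IsC (nxc x c) τ' l} := ⟨⟨[], trivial⟩⟩
  rw [ENNReal.mul_iInf fun h => absurd h (ENNReal.pow_ne_top hy)]
  refine le_iInf fun l => ?_
  obtain ⟨l, hl⟩ := l
  refine (iInf_le _ (⟨c :: l, h, hl.mono hτ⟩ : {l : List (St σ) // R.IsC x τ l})).trans ?_
  show y ^ nm dep (c :: l) ω ≤ _
  rw [nm_cons, pow_add]

/-- If no chain from `(x, τ)` is deeper than `r`, the potential is at least `y ^ r`. -/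
theorem le_Pot {dep : ℕ → σ → Ω → ℕ} {y : ℝ≥0∞} (hy : y ≤ 1) {x : σ} {τ r : ℕ} {ω : Ω}
    (h : ∀ l, R.IsC x τ l → nm dep l ω ≤ r) : y ^ r ≤ R.Pot dep y x τ ω :=
  le_iInf fun l => pow_le_pow_right_of_le_one' hy (h l.1 l.2)

/-! ### The fields -/

/-- The 0/1 depth of a family of sets. -/
def dpT (T : ℕ → σ → Set Ω) (u : ℕ) (ρ : σ) (ω : Ω) : ℕ := if ω ∈ T u ρ then 0 else 1

theorem measurable_dpT [MeasurableSpace Ω] {T : ℕ → σ → Set Ω} (hT : ∀ u ρ, MeasurableSet (T u ρ)) (u : ℕ) (ρ : σ) :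
    Measurable (dpT T u ρ) := Measurable.ite (hT u ρ) measurable_const measurable_const

theorem dpT_anti {T T' : ℕ → σ → Set Ω} {u : ℕ} {ρ : σ} (h : T u ρ ⊆ T' u ρ) (ω : Ω) : dpT T' u ρ ω ≤ dpT T u ρ ω := by
  unfold dpT
  by_cases h1 : ω ∈ T u ρ
  · rw [if_pos h1, if_pos (h h1)]
  · rw [if_neg h1]
    split_ifs <;> omega

/-- The product of the factors dominates. -/
theorem pow_sum_le {T T' : ℕ → σ → Set Ω} {y : ℝ≥0∞} (hy : y ≤ 1) {S S' : Finset ℕ} (hS : S ⊆ S') {ρ : σ} {ω : Ω}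
    (hT : ∀ u ∈ S, T u ρ ⊆ T' u ρ) : y ^ (∑ u ∈ S', dpT T u ρ ω) ≤ ∏ u ∈ S, (if ω ∈ T' u ρ then 1 else y) := by
  have h1 : ∑ u ∈ S, dpT T' u ρ ω ≤ ∑ u ∈ S', dpT T u ρ ω :=
    (sum_le_sum fun u hu => dpT_anti (hT u hu) ω).trans (sum_le_sum_of_subset hS)
  refine (pow_le_pow_right_of_le_one' hy h1).trans (le_of_eq ?_)
  rw [← prod_pow_eq_pow_sum]
  refine prod_congr rfl fun u _ => ?_
  unfold dpT
  split_ifs <;> simp

/-- All the slabs of a range abnormal. -/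
theorem sum_dpT {T : ℕ → σ → Set Ω} {a s : ℕ} {ρ : σ} {ω : Ω} (h : ∀ u ∈ Ico a s, ω ∉ T u ρ) :
    ∑ u ∈ Ico a s, dpT T u ρ ω = s - a := by
  have e : ∀ u ∈ Ico a s, dpT T u ρ ω = 1 := fun u hu => if_neg (h u hu)
  rw [sum_congr rfl e, sum_const, smul_eq_mul, mul_one, Nat.card_Ico]

/-- **`pot_late`.** -/
theorem pot_late {T T' : ℕ → σ → Set Ω} {y : ℝ≥0∞} (hy : y ≤ 1) {x : σ} (hx : x ∈ R.W) {τ a i τ' : ℕ} (h1 : τ ≤ a)
    (h2 : a + R.lam ≤ i) (h3 : a < i) (h4 : i ≤ R.m) (hτ : i + R.g ≤ τ') {S : Finset ℕ} (hS : S ⊆ Ico a i)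
    (hT : ∀ u ∈ S, T u x ⊆ T' u x) (ω : Ω) :
    R.Pot (dpT T) y x τ ω ≤ (∏ u ∈ S, (if ω ∈ T' u x then 1 else y)) * R.Pot (dpT T) y x τ' ω := by
  have hy' : y ≠ ∞ := (hy.trans_lt ENNReal.one_lt_top).ne
  refine (Pot_step (R := R) (c := ⟨Kd.stay, a, a, i, x, x⟩) hy' ⟨h1, le_rfl, h3, h2, h4, hx, hx, fun _ => ⟨rfl, rfl⟩,
    fun h => absurd rfl h⟩ hτ ω).trans ?_
  have e : nxc x (⟨Kd.stay, a, a, i, x, x⟩ : St σ) = x := if_neg (by simp)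
  rw [e]
  refine mul_le_mul' ?_ le_rfl
  have e2 : dst (dpT T) (⟨Kd.stay, a, a, i, x, x⟩ : St σ) ω = ∑ u ∈ Ico a i, dpT T u x ω := by simp [dst]
  rw [e2]
  exact pow_sum_le hy hS hT

/-- **`pot_none`.** -/
theorem pot_none {T : ℕ → σ → Set Ω} {y : ℝ≥0∞} (hy : y ≤ 1) {x ρ : σ} (hρ : ρ ∈ R.W) {τ a i τ' : ℕ} (h1 : τ ≤ a)
    (h2 : a + R.lam ≤ i) (h3 : a < i) (h4 : i ≤ R.m) (hτ : i + R.g ≤ τ') (hmv : R.Mv i x ρ) (hdr : R.Dr a ρ ρ) {ω : Ω}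
    (hab : ∀ u ∈ Ico a i, ω ∉ T u ρ) : R.Pot (dpT T) y x τ ω ≤ y ^ (i - a) * R.Pot (dpT T) y x τ' ω := by
  have hy' : y ≠ ∞ := (hy.trans_lt ENNReal.one_lt_top).ne
  refine (Pot_step (R := R) (c := ⟨Kd.visit, a, a, i, ρ, ρ⟩) hy' ⟨h1, le_rfl, h3, h2, h4, hρ, hρ,
    fun h => absurd h (by simp), fun _ => ⟨hmv, hdr⟩⟩ hτ ω).trans ?_
  have e : nxc x (⟨Kd.visit, a, a, i, ρ, ρ⟩ : St σ) = x := if_neg (by simp)
  rw [e]
  refine mul_le_mul' (le_of_eq ?_) le_rfl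
  have e2 : dst (dpT T) (⟨Kd.visit, a, a, i, ρ, ρ⟩ : St σ) ω = ∑ u ∈ Ico a i, dpT T u ρ ω := by simp [dst]
  rw [e2, sum_dpT hab]

/-- **`pot_early`.** -/
theorem pot_early {T T' : ℕ → σ → Set Ω} {y : ℝ≥0∞} (hy : y ≤ 1) {x ρ ρ' : σ} (hρ : ρ ∈ R.W) (hρ' : ρ' ∈ R.W) {τ a s i τ' : ℕ}
    (h1 : τ ≤ a) (h2 : a + R.lam ≤ i) (has : a ≤ s) (h3 : s < i) (h4 : i ≤ R.m) (hτ : i + R.g ≤ τ') (hmv : R.Mv i x ρ)
    (hdr : R.Dr s ρ ρ') {S : Finset ℕ} (hS : S ⊆ Ico s i) (hT : ∀ u ∈ S, T u ρ' ⊆ T' u ρ') {ω : Ω}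
    (hab : ∀ u ∈ Ico a s, ω ∉ T u ρ) :
    R.Pot (dpT T) y x τ ω ≤ y ^ (s - a) * ((∏ u ∈ S, (if ω ∈ T' u ρ' then 1 else y)) * R.Pot (dpT T) y ρ' τ' ω) := by
  have hy' : y ≠ ∞ := (hy.trans_lt ENNReal.one_lt_top).ne
  refine (Pot_step (R := R) (c := ⟨Kd.move, a, s, i, ρ, ρ'⟩) hy' ⟨h1, has, h3, h2, h4, hρ, hρ',
    fun h => absurd h (by simp), fun _ => ⟨hmv, hdr⟩⟩ hτ ω).trans ?_
  have e : nxc x (⟨Kd.move, a, s, i, ρ, ρ'⟩ : St σ) = ρ' := if_pos rfl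
  rw [e, ← mul_assoc]
  refine mul_le_mul' ?_ le_rfl
  have e2 : dst (dpT T) (⟨Kd.move, a, s, i, ρ, ρ'⟩ : St σ) ω = ∑ u ∈ Ico a s, dpT T u ρ ω + ∑ u ∈ Ico s i, dpT T u ρ' ω := rfl
  rw [e2, sum_dpT hab, pow_add]
  exact mul_le_mul' le_rfl (pow_sum_le hy hS hT)

end Rl

end

end Pool.Agent.W_7d29a1_C1.H40
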