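import Pool.Agent.W_7d29a1_C1.ChnG40
import Pool.Agent.W_7d29a1_C1.ChnP40

/-!
MP_7d29a1_pr, the attractor route: THE CHAINS OF THE POTENTIAL (`ChnP40`: stay / move with drift / visit) WITH ALL THEIR LAYERS:
the sorted list of cuts, the code, the number of the codes, the union bound. (helper40)
-/

set_option autoImplicit false

namespace Pool.Agent.W_7d29a1_C1.H40

open MeasureTheory ProbabilityTheory Finset
open Pool.Agent.W_7d29a1_F Pool.Agent.W_7d29a1_C1.S71
open scoped ENNReal Classical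

noncomputable section

/-! ### Counting lists -/

section Count

variable {Cd : Type*} (lo hi : Cd → ℕ) (m g B : ℕ) (H : ℕ → ℕ → List Cd → Finset Cd)

/-- The top scale of the first step. -/
def hdC : List Cd → ℕ
  | [] => m
  | c :: _ => hi c

/-- All the lists. -/
def DC : ℕ → ℕ → Finset (List Cd)
  | 0, _ => {[]}
  | n + 1, τ => {[]} ∪ (Geo.prs m τ).biUnion fun q => (DC n (q.2 + g)).biUnion fun t => (H q.1 q.2 t).image fun c => c :: t

/-- The weight of a tail. -/
def wtC (Nt : ℕ) : List Cd → ℕ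
  | [] => Nt
  | _ :: _ => 1

/-- What is known of a tail. -/
def Hdr (i : ℕ) (t : List Cd) : Prop := t = [] ∨ ∃ c t', t = c :: t' ∧ i + g ≤ lo c ∧ lo c < hi c ∧ hi c ≤ m

variable {lo hi m g B H}

theorem DC_hdr (hlo : ∀ a i t, ∀ c ∈ H a i t, lo c = a ∧ hi c = i) {n i : ℕ} {t : List Cd} (ht : t ∈ DC m g H n (i + g)) :
    Hdr lo hi m g i t := by
  cases n with
  | zero => exact Or.inl (mem_singleton.1 ht)
  | succ n =>
    rcases mem_union.1 ht with h | h
    · exact Or.inl (mem_singleton.1 h)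
    · obtain ⟨q, hq, h⟩ := mem_biUnion.1 h
      obtain ⟨t', ht', h⟩ := mem_biUnion.1 h
      obtain ⟨c, hc, rfl⟩ := mem_image.1 h
      obtain ⟨hq1, hq2⟩ := mem_filter.1 hq
      obtain ⟨hq3, hq4⟩ := mem_product.1 hq1
      obtain ⟨e1, e2⟩ := hlo _ _ _ c hc
      refine Or.inr ⟨c, t', rfl, ?_, ?_, ?_⟩
      · rw [e1]; exact (mem_Icc.1 hq3).1
      · rw [e1, e2]; exact hq2
      · rw [e2]; exact (mem_Icc.1 hq4).2

/-- The weighted number of the lists. -/
theorem sum_DC {Nt : ℕ} (hB : 1 ≤ B) (hg : 2 ≤ g) (hlo : ∀ a i t, ∀ c ∈ H a i t, lo c = a ∧ hi c = i)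
    (hcard : ∀ a i t, a < i → i ≤ m → Hdr lo hi m g i t → (H a i t).card ≤ wtC Nt t * B ^ (1 + hdC hi m t - a)) (n : ℕ) :
    ∀ τ ≤ m + g, ∑ t ∈ DC m g H n τ, wtC Nt t * B ^ hdC hi m t ≤ Nt * ((4 * B) ^ (m + g - τ) * B ^ m) := by
  induction n with
  | zero =>
    intro τ hτ
    show ∑ t ∈ ({[]} : Finset (List Cd)), wtC Nt t * B ^ hdC hi m t ≤ _
    rw [sum_singleton]
    show Nt * B ^ m ≤ _
    exact Nat.mul_le_mul_left _ (Nat.le_mul_of_pos_left _ (Nat.pow_pos (by omega)))
  | succ n ih =>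
    intro τ hτ
    have step : ∑ t ∈ DC m g H (n + 1) τ, wtC Nt t * B ^ hdC hi m t ≤
        Nt * (B ^ m + ∑ q ∈ Geo.prs m τ, B ^ (1 + q.2 - q.1) * ((4 * B) ^ (m - q.2) * B ^ m)) := by
      have h1 : ∑ t ∈ DC m g H (n + 1) τ, wtC Nt t * B ^ hdC hi m t ≤
          ∑ t ∈ ({[]} : Finset (List Cd)), wtC Nt t * B ^ hdC hi m t +
          ∑ t ∈ (Geo.prs m τ).biUnion (fun q => (DC m g H n (q.2 + g)).biUnion fun t => (H q.1 q.2 t).image fun c => c :: t),
            wtC Nt t * B ^ hdC hi m t := by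
        have := sum_union_inter (s₁ := ({[]} : Finset (List Cd)))
          (s₂ := (Geo.prs m τ).biUnion (fun q => (DC m g H n (q.2 + g)).biUnion fun t => (H q.1 q.2 t).image fun c => c :: t))
          (f := fun t => wtC Nt t * B ^ hdC hi m t)
        have e : DC m g H (n + 1) τ = {[]} ∪ (Geo.prs m τ).biUnion (fun q =>
          (DC m g H n (q.2 + g)).biUnion fun t => (H q.1 q.2 t).image fun c => c :: t) := rfl
        rw [e]
        omega
      rw [mul_add]
      refine h1.trans (Nat.add_le_add ?_ ?_)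
      · rw [sum_singleton]
        exact le_rfl
      · rw [mul_sum]
        refine (Geo.sum_biUnion_le' _ _ _).trans (sum_le_sum fun q hq => ?_)
        obtain ⟨hq1, hq2⟩ := mem_filter.1 hq
        obtain ⟨hq3, hq4⟩ := mem_product.1 hq1
        have hq5 : q.2 ≤ m := (mem_Icc.1 hq4).2
        refine (Geo.sum_biUnion_le' _ _ _).trans ?_
        have h2 := ih (q.2 + g) (by omega)
        rw [show m + g - (q.2 + g) = m - q.2 by omega] at h2
        have h2' : ∑ t ∈ DC m g H n (q.2 + g), B ^ (1 + q.2 - q.1) * (wtC Nt t * B ^ hdC hi m t) ≤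
            Nt * (B ^ (1 + q.2 - q.1) * ((4 * B) ^ (m - q.2) * B ^ m)) := by
          rw [← mul_sum]
          calc B ^ (1 + q.2 - q.1) * ∑ t ∈ DC m g H n (q.2 + g), wtC Nt t * B ^ hdC hi m t
              ≤ B ^ (1 + q.2 - q.1) * (Nt * ((4 * B) ^ (m - q.2) * B ^ m)) := Nat.mul_le_mul_left _ h2
            _ = _ := by ring
        refine le_trans (sum_le_sum fun t ht => ?_) h2'
        have hH := DC_hdr (lo := lo) (hi := hi) hlo ht
        have h3 := hcard q.1 q.2 t hq2 hq5 hH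
        have h4 : q.1 ≤ hdC hi m t := by
          rcases hH with rfl | ⟨c, t', rfl, h5, h6, h7⟩
          · show q.1 ≤ m
            omega
          · show q.1 ≤ hi c
            omega
        calc ∑ x ∈ (H q.1 q.2 t).image (fun c => c :: t), wtC Nt x * B ^ hdC hi m x
            = ∑ x ∈ (H q.1 q.2 t).image (fun c => c :: t), B ^ q.2 := by
              refine sum_congr rfl fun x hx => ?_
              obtain ⟨c, hc, rfl⟩ := mem_image.1 hx
              show 1 * B ^ hi c = _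
              rw [one_mul, (hlo _ _ _ c hc).2]
          _ = ((H q.1 q.2 t).image (fun c => c :: t)).card * B ^ q.2 := by rw [sum_const, smul_eq_mul]
          _ ≤ (H q.1 q.2 t).card * B ^ q.2 := Nat.mul_le_mul_right _ card_image_le
          _ ≤ wtC Nt t * B ^ (1 + hdC hi m t - q.1) * B ^ q.2 := Nat.mul_le_mul_right _ h3
          _ = wtC Nt t * (B ^ (1 + hdC hi m t - q.1) * B ^ q.2) := by ring
          _ = wtC Nt t * (B ^ (1 + q.2 - q.1) * B ^ hdC hi m t) := by
              rw [← pow_add, ← pow_add]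
              congr 2
              omega
          _ = _ := by ring
    refine step.trans (Nat.mul_le_mul_left _ ?_)
    by_cases hτm : τ ≤ m
    · have h5 : ∑ q ∈ Geo.prs m τ, B ^ (1 + q.2 - q.1) * ((4 * B) ^ (m - q.2) * B ^ m) ≤
          B ^ (m + 1 - τ) * B ^ m * 4 ^ (m + 1 - τ) := by
        calc ∑ q ∈ Geo.prs m τ, B ^ (1 + q.2 - q.1) * ((4 * B) ^ (m - q.2) * B ^ m)
            ≤ ∑ q ∈ Geo.prs m τ, B ^ (m + 1 - τ) * B ^ m * 4 ^ (m - q.2) := by
              refine sum_le_sum fun q hq => ?_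
              obtain ⟨hq1, hq2⟩ := mem_filter.1 hq
              obtain ⟨hq3, hq4⟩ := mem_product.1 hq1
              have hq5 : q.2 ≤ m := (mem_Icc.1 hq4).2
              have hq6 : τ ≤ q.1 := (mem_Icc.1 hq3).1
              have e1 : B ^ (1 + q.2 - q.1) * ((4 * B) ^ (m - q.2) * B ^ m) =
                  B ^ (m + 1 - q.1) * B ^ m * 4 ^ (m - q.2) := by
                rw [mul_pow, show m + 1 - q.1 = (1 + q.2 - q.1) + (m - q.2) by omega, pow_add]
                ring
              rw [e1]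
              refine Nat.mul_le_mul_right _ (Nat.mul_le_mul_right _ ?_)
              exact Nat.pow_le_pow_right hB (by omega)
          _ = B ^ (m + 1 - τ) * B ^ m * ∑ q ∈ Geo.prs m τ, 4 ^ (m - q.2) := by rw [mul_sum]
          _ ≤ B ^ (m + 1 - τ) * B ^ m * ∑ s ∈ Icc τ m, ∑ i ∈ Ioc s m, 4 ^ (m - i) := by
              refine Nat.mul_le_mul_left _ ?_
              have e2 : ∑ q ∈ Geo.prs m τ, 4 ^ (m - q.2) = ∑ s ∈ Icc τ m, ∑ i ∈ (Icc 0 m).filter (fun i => s < i), 4 ^ (m - i) := by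
                unfold Geo.prs
                rw [sum_filter, sum_product]
                refine sum_congr rfl fun s _ => ?_
                rw [sum_filter]
              rw [e2]
              refine sum_le_sum fun s _ => sum_le_sum_of_subset fun i hi' => ?_
              obtain ⟨h6, h7⟩ := mem_filter.1 hi'
              exact mem_Ioc.2 ⟨h7, (mem_Icc.1 h6).2⟩
          _ ≤ B ^ (m + 1 - τ) * B ^ m * ∑ s ∈ Icc τ m, 4 ^ (m - s) :=
              Nat.mul_le_mul_left _ (sum_le_sum fun s _ => Geo.sum_pow_le s m)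
          _ ≤ B ^ (m + 1 - τ) * B ^ m * 4 ^ (m + 1 - τ) := by
              refine Nat.mul_le_mul_left _ ?_
              have h8 : ∑ s ∈ Icc τ m, 4 ^ (m - s) ≤ ∑ j ∈ range (m + 1 - τ), 4 ^ j := by
                have e : ∑ i ∈ Icc τ m, 4 ^ (m - i) = ∑ j ∈ (Icc τ m).image (fun i => m - i), 4 ^ j := by
                  rw [sum_image]
                  intro a ha b hb hab
                  have ha' := mem_Icc.1 ha
                  have hb' := mem_Icc.1 hb
                  have hab' : m - a = m - b := hab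
                  omega
                rw [e]
                refine sum_le_sum_of_subset fun j hj => ?_
                obtain ⟨i, hi', rfl⟩ := mem_image.1 hj
                have := mem_Icc.1 hi'
                exact mem_range.2 (by omega)
              refine h8.trans ?_
              exact (Nat.geomSum_lt (m := 4) (n := m + 1 - τ) (s := range (m + 1 - τ)) (by norm_num)
                fun k hk => mem_range.1 hk).le
      have h6 : B ^ (m + 1 - τ) * B ^ m * 4 ^ (m + 1 - τ) = (4 * B) ^ (m + 1 - τ) * B ^ m := by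
        rw [mul_pow]
        ring
      have h7 : (4 * B) ^ (m + 1 - τ) * (4 * B) ≤ (4 * B) ^ (m + g - τ) := by
        rw [← pow_succ]
        exact Nat.pow_le_pow_right (by omega) (by omega)
      have h8 : 1 ≤ (4 * B) ^ (m + 1 - τ) := Nat.pow_pos (by omega)
      rw [h6] at h5
      calc B ^ m + ∑ q ∈ Geo.prs m τ, B ^ (1 + q.2 - q.1) * ((4 * B) ^ (m - q.2) * B ^ m)
          ≤ B ^ m + (4 * B) ^ (m + 1 - τ) * B ^ m := Nat.add_le_add_left h5 _
        _ = 1 * B ^ m + (4 * B) ^ (m + 1 - τ) * B ^ m := by rw [one_mul]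
        _ ≤ (4 * B) ^ (m + 1 - τ) * B ^ m + (4 * B) ^ (m + 1 - τ) * B ^ m :=
            Nat.add_le_add_right (Nat.mul_le_mul_right _ h8) _
        _ = (4 * B) ^ (m + 1 - τ) * 2 * B ^ m := by ring
        _ ≤ (4 * B) ^ (m + 1 - τ) * (4 * B) * B ^ m :=
            Nat.mul_le_mul_right _ (Nat.mul_le_mul_left _ (by omega))
        _ ≤ (4 * B) ^ (m + g - τ) * B ^ m := Nat.mul_le_mul_right _ h7
    · have h9 : Geo.prs m τ = ∅ := by
        refine eq_empty_of_forall_notMem fun q hq => ?_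
        obtain ⟨hq1, hq2⟩ := mem_filter.1 hq
        obtain ⟨hq3, hq4⟩ := mem_product.1 hq1
        have h10 := mem_Icc.1 hq3
        omega
      rw [h9, sum_empty, add_zero]
      exact Nat.le_mul_of_pos_left _ (Nat.pow_pos (by omega))

theorem card_DC {Nt : ℕ} (hN : 1 ≤ Nt) (hB : 1 ≤ B) (hg : 2 ≤ g) (hlo : ∀ a i t, ∀ c ∈ H a i t, lo c = a ∧ hi c = i)
    (hcard : ∀ a i t, a < i → i ≤ m → Hdr lo hi m g i t → (H a i t).card ≤ wtC Nt t * B ^ (1 + hdC hi m t - a)) (n : ℕ) :
    (DC m g H n 0).card ≤ Nt * ((4 * B) ^ (m + g) * B ^ m) := by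
  refine le_trans ?_ (sum_DC hB hg hlo hcard n 0 (Nat.zero_le _))
  rw [card_eq_sum_ones]
  refine sum_le_sum fun t _ => Nat.mul_pos ?_ (Nat.pow_pos hB)
  cases t with
  | nil => exact hN
  | cons _ _ => exact Nat.one_pos

end Count

/-! ### The cuts of a chain -/

/-- The geometry of the relations. -/
structure GR {σ Λ : Type*} (G : Geo σ Λ) (R : Rl σ) : Prop where
  m_le : R.m + R.g ≤ G.m + 1
  g_ge : 3 ≤ R.g
  W_eq : R.W = G.W
  mv : ∀ i x p, R.Mv i x p → (G.T i : ℤ) ≤ G.row x - G.row p ∧ G.row x - G.row p ≤ 2 * G.T (i + 1)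
  dr : ∀ s p q, R.Dr s p q → G.rc s (G.row p) ≤ G.rc s (G.row q) ∧ G.row q ≤ G.row p + 2 * G.T s

section Cuts

variable {σ Λ : Type*} (G : Geo σ Λ) (R : Rl σ)

/-- The lower part of a step. -/
def lowP (c : St σ) : List (Cut Λ) := G.bt c.a c.p :: (G.up c.p c.a (c.s - c.a) ++ G.up c.q c.s (c.i - c.s))

/-- One step. -/
def stepL (x : σ) (τ : ℕ) (L : List (Cut Λ)) (c : St σ) : List (Cut Λ) :=
  match c.k with
  | Kd.stay => L ++ G.up x τ (c.i + R.g - τ)
  | Kd.move => lowP G c ++ (L ++ (G.up x τ (c.i + 2 - τ) ++ G.up c.q (c.i + 2) (R.g - 2)))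
  | Kd.visit => lowP G c ++ (L ++ G.up x τ (c.i + R.g - τ))

/-- The cuts, recursion. -/
def cutH : σ → ℕ → List (Cut Λ) → List (St σ) → List (Cut Λ)
  | x, τ, L, [] => L ++ G.up x τ (G.m + 1 - τ)
  | x, τ, L, c :: l => cutH (Rl.nxc x c) (c.i + R.g) (stepL G R x τ L c) l

/-- **The cuts of a chain.** -/
def cutsH (x : σ) (l : List (St σ)) : List (Cut Λ) := cutH G R x 0 [G.bt 0 x] l

variable {G R}

/-- The lower part. -/
theorem lowP_BS (h : GR G R) {x : σ} {τ : ℕ} {c : St σ} (hc : R.Ok x τ c) (hk : c.k ≠ Kd.stay) :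
    BS (G.dn c.a (G.row c.p)) (G.row x - G.T (τ - 1)) (lowP G c) := by
  obtain ⟨h1, h2, h3, h4, h5, h6, h7, h8, h9⟩ := hc
  obtain ⟨hm, hd⟩ := h9 hk
  obtain ⟨m1, m2⟩ := h.mv _ _ _ hm
  obtain ⟨d1, d2⟩ := h.dr _ _ _ hd
  have a1 := G.dn_le c.a (G.row c.p)
  have a2 := G.lt_tr c.a (G.row c.p)
  have a3 : (0 : ℤ) ≤ G.T c.a := by positivity
  have a4 := G.tr_le (c.i - 1) (G.row c.q)
  have a5 : (G.T (c.i - 1 - 2) : ℤ) ≤ G.T (c.i - 1) := by exact_mod_cast G.T_mono (by omega)
  have a6 : (G.T c.s : ℤ) ≤ G.T (c.i - 1) := by exact_mod_cast G.T_mono (by omega)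
  have a7 : (8 * G.T (c.i - 1) : ℤ) ≤ G.T c.i := by
    have := G.T_succ (c.i - 1)
    rw [show c.i - 1 + 1 = c.i by omega] at this
    exact_mod_cast this
  have a8 : (G.T (τ - 1) : ℤ) ≤ G.T (c.i - 1) := by exact_mod_cast G.T_mono (by omega)
  have a9 : (0 : ℤ) ≤ G.T (c.i - 1) := by positivity
  have b1 : G.tr c.s (G.row c.p) ≤ G.tr c.s (G.row c.q) := by unfold Geo.tr; linarith
  have b2 := G.tr_mono h2 (G.row c.p)
  have hq := G.up_BS c.q c.s (c.i - c.s) (c.i - 1) (by omega)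
  have hqq : BS (G.tr c.s (G.row c.p)) (G.row x - G.T (τ - 1)) (G.up c.q c.s (c.i - c.s)) := hq.mono b1 (by linarith)
  have hlast : G.tr c.s (G.row c.p) ≤ G.row x - G.T (τ - 1) := by
    have := G.tr_mono (show c.s ≤ c.i - 1 by omega) (G.row c.q)
    linarith
  have hpq : BS (G.tr c.a (G.row c.p)) (G.row x - G.T (τ - 1)) (G.up c.p c.a (c.s - c.a) ++ G.up c.q c.s (c.i - c.s)) := by
    have hp := G.up_BS c.p c.a (c.s - c.a) c.s (by omega)
    exact hp.append hqq b2 le_rfl hlast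
  exact (BS.single (G.bt c.a c.p)).append hpq le_rfl (show G.dn c.a (G.row c.p) ≤ _ by linarith) (b2.trans hlast)

/-- **One step keeps the invariant.** -/
theorem stepL_BS (h : GR G R) {x : σ} {τ : ℕ} {L : List (Cut Λ)} {c : St σ} (hc : R.Ok x τ c)
    (hL : BS (G.row x - G.T (τ - 1)) (G.tr (τ - 1) (G.row x)) L) :
    BS (G.row (Rl.nxc x c) - G.T (c.i + R.g - 1)) (G.tr (c.i + R.g - 1) (G.row (Rl.nxc x c))) (stepL G R x τ L c) := by
  have hg := h.g_ge
  have hc' := hc
  obtain ⟨h1, h2, h3, h4, h5, h6, h7, h8, h9⟩ := hc'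
  have t1 : (G.T (τ - 1) : ℤ) ≤ G.T (c.i + R.g - 1) := by exact_mod_cast G.T_mono (by omega)
  have t2 := G.lt_tr (τ - 1) (G.row x)
  have t3 : (0 : ℤ) ≤ G.T (τ - 1) := by positivity
  have t4 : G.tr (τ - 1) (G.row x) ≤ G.tr τ (G.row x) := G.tr_mono (by omega) _
  have hup : BS (G.tr τ (G.row x)) (G.tr (c.i + R.g - 1) (G.row x)) (G.up x τ (c.i + R.g - τ)) :=
    G.up_BS x τ _ _ (by omega)
  have t5 : G.tr τ (G.row x) ≤ G.tr (c.i + R.g - 1) (G.row x) := G.tr_mono (by omega) _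
  have hLx : BS (G.row x - G.T (τ - 1)) (G.tr (c.i + R.g - 1) (G.row x)) (L ++ G.up x τ (c.i + R.g - τ)) :=
    hL.append hup (by linarith) t4 t5
  by_cases hk0 : c.k = Kd.stay
  · have e1 : stepL G R x τ L c = L ++ G.up x τ (c.i + R.g - τ) := by unfold stepL; rw [hk0]
    have e2 : Rl.nxc x c = x := if_neg (by rw [hk0]; decide)
    rw [e1, e2]
    exact hLx.mono (by linarith) le_rfl
  · have hlow := lowP_BS h hc hk0
    obtain ⟨hm, hd⟩ := h9 hk0
    obtain ⟨m1, m2⟩ := h.mv _ _ _ hm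
    obtain ⟨d1, d2⟩ := h.dr _ _ _ hd
    have a1 := G.lt_dn c.a (G.row c.p)
    have a1' := G.dn_le c.a (G.row c.p)
    have a2 : (G.T (c.a - 2) : ℤ) ≤ G.T (c.i + 1) := by exact_mod_cast G.T_mono (by omega)
    have a3 : (8 * G.T (c.i + 1) : ℤ) ≤ G.T (c.i + 2) := by exact_mod_cast G.T_succ (c.i + 1)
    have a4 : (G.T (c.i + 2) : ℤ) ≤ G.T (c.i + R.g - 1) := by exact_mod_cast G.T_mono (by omega)
    have a5 : (0 : ℤ) ≤ G.T (c.i + 1) := by positivity
    have a6 : (G.T c.s : ℤ) ≤ G.T (c.i + 1) := by exact_mod_cast G.T_mono (by omega)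
    have a7 : (G.T (τ - 1) : ℤ) ≤ G.T (c.i - 1) := by exact_mod_cast G.T_mono (by omega)
    have a8 : (8 * G.T (c.i - 1) : ℤ) ≤ G.T c.i := by
      have := G.T_succ (c.i - 1)
      rw [show c.i - 1 + 1 = c.i by omega] at this
      exact_mod_cast this
    have a9 : (0 : ℤ) ≤ G.T (c.i - 1) := by positivity
    by_cases hk1 : c.k = Kd.visit
    · have e1 : stepL G R x τ L c = lowP G c ++ (L ++ G.up x τ (c.i + R.g - τ)) := by unfold stepL; rw [hk1]
      have e2 : Rl.nxc x c = x := if_neg (by rw [hk1]; decide)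
      rw [e1, e2]
      exact (hlow.append hLx (by linarith) le_rfl (by linarith)).mono (by linarith) le_rfl
    · have hk2 : c.k = Kd.move := by
        cases hh : c.k
        · exact absurd hh hk0
        · rfl
        · exact absurd hh hk1
      have e1 : stepL G R x τ L c =
        lowP G c ++ (L ++ (G.up x τ (c.i + 2 - τ) ++ G.up c.q (c.i + 2) (R.g - 2))) := by unfold stepL; rw [hk2]
      have e2 : Rl.nxc x c = c.q := if_pos hk2
      rw [e1, e2]
      have b1 := G.tr_le (c.i + 1) (G.row x)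
      have b2 := G.lt_tr (c.i + 2) (G.row c.q)
      have b3 : (G.T (c.i + 1 - 2) : ℤ) ≤ G.T (c.i + 1) := by exact_mod_cast G.T_mono (by omega)
      have b4 := lt_nxt (G.T_pos (c.s - 2)) (G.row c.p)
      have b5 := nxt_le (G.T_pos (c.s - 2)) (G.row c.q)
      have b6 : (G.T (c.s - 2) : ℤ) ≤ G.T (c.i + 1) := by exact_mod_cast G.T_mono (by omega)
      have b7 : G.row c.p < G.row c.q + G.T (c.s - 2) := by unfold Geo.rc at d1; linarith
      have hA : BS (G.tr τ (G.row x)) (G.tr (c.i + 1) (G.row x)) (G.up x τ (c.i + 2 - τ)) := G.up_BS x τ _ _ (by omega)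
      have hB : BS (G.tr (c.i + 2) (G.row c.q)) (G.tr (c.i + R.g - 1) (G.row c.q)) (G.up c.q (c.i + 2) (R.g - 2)) :=
        G.up_BS c.q _ _ _ (by omega)
      have b8 : G.tr (c.i + 1) (G.row x) ≤ G.tr (c.i + 2) (G.row c.q) := by linarith
      have b9 : G.tr τ (G.row x) ≤ G.tr (c.i + 1) (G.row x) := G.tr_mono (by omega) _
      have c1 : G.tr (c.i + 2) (G.row c.q) ≤ G.tr (c.i + R.g - 1) (G.row c.q) := G.tr_mono (by omega) _
      have hAB := hA.append hB b9 b8 c1
      have hLAB := hL.append hAB (by linarith) t4 (by linarith)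
      exact (hlow.append hLAB (by linarith) le_rfl (by linarith)).mono (by linarith) le_rfl

theorem cutH_BS (h : GR G R) {x : σ} {τ : ℕ} {L : List (Cut Λ)} {l : List (St σ)} (hl : R.IsC x τ l)
    (hL : BS (G.row x - G.T (τ - 1)) (G.tr (τ - 1) (G.row x)) L) : ∃ a b : ℤ, BS a b (cutH G R x τ L l) := by
  induction l generalizing x τ L with
  | nil =>
    have t2 := G.lt_tr (τ - 1) (G.row x)
    have t3 : (0 : ℤ) ≤ G.T (τ - 1) := by positivity
    exact ⟨_, _, hL.append (G.up_BS x τ (G.m + 1 - τ) (τ + (G.m + 1 - τ)) (by omega)) (by linarith)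
      (G.tr_mono (by omega) _) (G.tr_mono (by omega) _)⟩
  | cons c l ih => exact ih hl.2 (stepL_BS h hl.1 hL)

/-- **The cuts of a chain are sorted.** -/
theorem cutsH_pw (h : GR G R) {x : σ} {l : List (St σ)} (hl : R.IsC x 0 l) :
    (cutsH G R x l).Pairwise fun c d => c.row ≤ d.row := by
  have h1 := G.lt_tr (0 - 1) (G.row x)
  have h2 := G.dn_le 0 (G.row x)
  have h3 : (0 : ℤ) ≤ G.T (0 - 1) := by positivity
  have h4 := G.lt_dn 0 (G.row x)
  obtain ⟨a, b, h5⟩ := cutH_BS (L := [G.bt 0 x]) h hl ((BS.single (G.bt 0 x)).mono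
    (show G.row x - G.T (0 - 1) ≤ G.dn 0 (G.row x) from h4.le) (show G.dn 0 (G.row x) ≤ G.tr (0 - 1) (G.row x) by linarith))
  exact h5.1

/-! ### The code -/

/-- The label of a step. -/
structure Lb (Λ : Type*) where
  k : Kd
  a : ℕ
  s : ℕ
  i : ℕ
  al : Λ
  be : Λ

/-- The label of a step. -/
def lb (G : Geo σ Λ) (c : St σ) : Lb Λ := ⟨c.k, c.a, c.s, c.i, G.loc c.a c.p, G.loc c.s c.q⟩

theorem cutH_congr (hr : Geo.LocRow G) {x x' : σ} {τ : ℕ} {L : List (Cut Λ)} {l l' : List (St σ)} (h : R.IsC x τ l)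
    (h' : R.IsC x' τ l') (hx : G.loc τ x = G.loc τ x') (hd : l.map (lb G) = l'.map (lb G)) :
    cutH G R x τ L l = cutH G R x' τ L l' := by
  induction l generalizing x x' τ L l' with
  | nil =>
    cases l' with
    | nil =>
      show L ++ G.up x τ _ = L ++ G.up x' τ _
      rw [Geo.up_congr hr le_rfl hx]
    | cons a l' => exact absurd hd (by simp)
  | cons c l ih =>
    cases l' with
    | nil => exact absurd hd (by simp)
    | cons c' l' =>
      obtain ⟨k, a, s, i, p, q⟩ := c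
      obtain ⟨k', a', s', i', p', q'⟩ := c'
      simp only [List.map_cons, List.cons.injEq, lb, Lb.mk.injEq] at hd
      obtain ⟨⟨rfl, rfl, rfl, rfl, hp, hq⟩, hd⟩ := hd
      obtain ⟨⟨h1, h2, h3, h4, h5, h6, h7, h8, h9⟩, h10⟩ := h
      obtain ⟨⟨-, -, -, -, -, h6', h7', h8', h9'⟩, h10'⟩ := h'
      simp only at h1 h2 h3 h4 h5 h6 h7 h8 h9
      have e1 : lowP G (⟨k, a, s, i, p, q⟩ : St σ) = lowP G ⟨k, a, s, i, p', q'⟩ := by
        show G.bt a p :: (G.up p a (s - a) ++ G.up q s (i - s)) = G.bt a p' :: (G.up p' a (s - a) ++ G.up q' s (i - s))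
        rw [Geo.bt_congr hr hp, Geo.up_congr hr le_rfl hp, Geo.up_congr hr le_rfl hq]
      have e2 : ∀ n, G.up x τ n = G.up x' τ n := fun n => Geo.up_congr hr le_rfl hx
      have e3 : stepL G R x τ L ⟨k, a, s, i, p, q⟩ = stepL G R x' τ L ⟨k, a, s, i, p', q'⟩ := by
        cases k
        · show L ++ G.up x τ (i + R.g - τ) = L ++ G.up x' τ (i + R.g - τ)
          rw [e2]
        · show lowP G _ ++ (L ++ (G.up x τ (i + 2 - τ) ++ G.up q (i + 2) (R.g - 2))) =
            lowP G _ ++ (L ++ (G.up x' τ (i + 2 - τ) ++ G.up q' (i + 2) (R.g - 2)))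
          rw [e1, e2, Geo.up_congr hr (show s ≤ i + 2 by omega) hq]
        · show lowP G _ ++ (L ++ G.up x τ (i + R.g - τ)) = lowP G _ ++ (L ++ G.up x' τ (i + R.g - τ))
          rw [e1, e2]
      show cutH G R _ (i + R.g) (stepL G R x τ L ⟨k, a, s, i, p, q⟩) l =
        cutH G R _ (i + R.g) (stepL G R x' τ L ⟨k, a, s, i, p', q'⟩) l'
      rw [e3]
      refine ih h10 h10' ?_ hd
      show G.loc (i + R.g) (Rl.nxc x ⟨k, a, s, i, p, q⟩) = G.loc (i + R.g) (Rl.nxc x' ⟨k, a, s, i, p', q'⟩)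
      by_cases hk : k = Kd.move
      · have e4 : Rl.nxc x (⟨k, a, s, i, p, q⟩ : St σ) = q := if_pos hk
        have e5 : Rl.nxc x' (⟨k, a, s, i, p', q'⟩ : St σ) = q' := if_pos hk
        rw [e4, e5]
        exact G.nest s _ (by omega) _ _ hq
      · have e4 : Rl.nxc x (⟨k, a, s, i, p, q⟩ : St σ) = x := if_neg hk
        have e5 : Rl.nxc x' (⟨k, a, s, i, p', q'⟩ : St σ) = x' := if_neg hk
        rw [e4, e5]
        exact G.nest τ _ (by omega) _ _ hx

/-- The cuts are a function of the code. -/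
theorem cutsH_congr (hr : Geo.LocRow G) {x x' : σ} {l l' : List (St σ)} (h : R.IsC x 0 l) (h' : R.IsC x' 0 l')
    (hx : G.loc 0 x = G.loc 0 x') (hd : l.map (lb G) = l'.map (lb G)) : cutsH G R x l = cutsH G R x' l' := by
  unfold cutsH
  rw [Geo.bt_congr hr hx]
  exact cutH_congr hr h h' hx hd

/-- The number of the cuts. -/
theorem cutH_length (h : GR G R) {x : σ} {τ : ℕ} {L : List (Cut Λ)} {l : List (St σ)} (hl : R.IsC x τ l) :
    (cutH G R x τ L l).length + 3 * τ ≤ L.length + 3 * max τ (G.m + R.g) := by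
  have hg := h.g_ge
  have hm := h.m_le
  induction l generalizing x τ L with
  | nil =>
    show (L ++ G.up x τ (G.m + 1 - τ)).length + 3 * τ ≤ _
    rw [List.length_append, Geo.up_length]
    omega
  | cons c l ih =>
    obtain ⟨⟨h1, h2, h3, h4, h5, h6, h7, h8, h9⟩, h10⟩ := hl
    have h11 := ih (L := stepL G R x τ L c) h10
    show (cutH G R _ (c.i + R.g) (stepL G R x τ L c) l).length + 3 * τ ≤ _
    have h12 : (stepL G R x τ L c).length ≤ L.length + (c.i + 1 - c.a) + (c.i + R.g - τ) := by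
      have e1 : (lowP G c).length = c.i + 1 - c.a := by
        unfold lowP
        rw [List.length_cons, List.length_append, Geo.up_length, Geo.up_length]
        omega
      unfold stepL
      cases c.k
      · simp only [List.length_append, Geo.up_length]
        omega
      · simp only [List.length_append, Geo.up_length, e1]
        omega
      · simp only [List.length_append, Geo.up_length, e1]
        omega
    omega

theorem cutsH_length (h : GR G R) {x : σ} {l : List (St σ)} (hl : R.IsC x 0 l) :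
    (cutsH G R x l).length ≤ 3 * (G.m + R.g) + 1 := by
  have h1 := cutH_length (L := [G.bt 0 x]) h hl
  simp only [List.length_cons, List.length_nil] at h1
  show (cutH G R x 0 [G.bt 0 x] l).length ≤ _
  omega

end Cuts

end

end Pool.Agent.W_7d29a1_C1.H40
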