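import Pool.Agent.W_7d29a1_C1.ChnX40
import Pool.Agent.W_7d29a1_C1.ChnJ40

/-!
MP_7d29a1_pr, the attractor route: THE CHAINS OF THE TWO INDEX POTENTIAL WITH ALL THEIR LAYERS: the sorted list of cuts, the code,
the number of the codes, the union bound, the tail. (helper40)
-/

set_option autoImplicit false

namespace Pool.Agent.W_7d29a1_C1.H40

open MeasureTheory ProbabilityTheory Finset
open Pool.Agent.W_7d29a1_F Pool.Agent.W_7d29a1_C1.S71
open scoped ENNReal Classical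

noncomputable section

/-- The geometry of the relations. -/
structure GRJ {σ Λ : Type*} (G : Geo σ Λ) (R : RJ σ) : Prop where
  m_le : R.m + R.g ≤ G.m + 1
  g_ge : 3 ≤ R.g
  W_eq : R.W = G.W
  mv : ∀ i j x p, R.Mv i j x p → (G.T i : ℤ) ≤ G.row x - G.row p ∧ G.row x - G.row p ≤ 2 * G.T (i + 1)
  dr : ∀ s p q, R.Dr s p q → G.rc s (G.row p) ≤ G.rc s (G.row q) ∧ G.row q ≤ G.row p + 2 * G.T s

namespace Geo

variable {σ Λ : Type*} (G : Geo σ Λ)

theorem dvd_T {u v : ℕ} (h : u ≤ v) : G.T u ∣ G.T v := by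
  obtain ⟨k, rfl⟩ := Nat.exists_eq_add_of_le h
  exact ⟨G.K ^ k, by unfold Geo.T Tk; rw [pow_add]; ring⟩

theorem dn_anti {u v : ℕ} (h : u ≤ v) (r : ℤ) : G.dn v r ≤ G.dn u r := by
  obtain ⟨q, hq⟩ := G.dvd_T (show u - 2 ≤ v - 2 by omega)
  have h1 := G.dn_le v r
  have h2 := G.lt_dn u r
  have hd : (0 : ℤ) < G.T (u - 2) := by exact_mod_cast G.T_pos (u - 2)
  -- both are multiples of `T (u - 2)`
  have e1 : ∃ k : ℤ, G.dn v r = G.T (u - 2) * k := by
    refine ⟨q * (r / (G.T (v - 2) : ℤ)), ?_⟩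
    unfold dn rc nxt
    rw [hq]
    push_cast
    ring
  have e2 : ∃ k : ℤ, G.dn u r = G.T (u - 2) * k := by
    refine ⟨r / (G.T (u - 2) : ℤ), ?_⟩
    unfold dn rc nxt
    ring
  obtain ⟨k1, e1⟩ := e1
  obtain ⟨k2, e2⟩ := e2
  rw [e1] at h1 ⊢
  rw [e2] at h2 ⊢
  have h3 : (G.T (u - 2) : ℤ) * k1 < G.T (u - 2) * (k2 + 1) := by linarith
  have h4 : k1 < k2 + 1 := lt_of_mul_lt_mul_left h3 hd.le
  exact mul_le_mul_of_nonneg_left (by omega) hd.le

end Geo

section Cuts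

variable {σ Λ : Type*} (G : Geo σ Λ) (R : RJ σ)

/-- The lower part of a step. -/
def lowJ (c : SJ σ) : List (Cut Λ) :=
  G.bt c.s c.p :: G.bt c.a c.p :: (G.up c.p c.a (c.s - c.a) ++ G.up c.q c.s (c.i - c.s))

/-- One step. -/
def stepJ (x : σ) (τ : ℕ) (L : List (Cut Λ)) (c : SJ σ) : List (Cut Λ) :=
  match c.k with
  | Kd.stay => L ++ G.up x τ (c.j + R.g - τ)
  | _ => lowJ G c ++ (L ++ (G.up x τ (c.i + 2 - τ) ++
      (G.up c.p (c.i + 2) (c.j - c.i) ++ G.up (RJ.nxc x c) (c.j + 2) (R.g - 2))))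

/-- The cuts, recursion. -/
def cutJ : σ → ℕ → List (Cut Λ) → List (SJ σ) → List (Cut Λ)
  | x, τ, L, [] => L ++ G.up x τ (G.m + 1 - τ)
  | x, τ, L, c :: l => cutJ (RJ.nxc x c) (c.j + R.g) (stepJ G R x τ L c) l

/-- **The cuts of a chain.** -/
def cutsJ (x : σ) (l : List (SJ σ)) : List (Cut Λ) := cutJ G R x 0 [G.bt 0 x] l

variable {G R}

theorem stepJ_stay {x : σ} {τ : ℕ} {L : List (Cut Λ)} {c : SJ σ} (hk : c.k = Kd.stay) :
    stepJ G R x τ L c = L ++ G.up x τ (c.j + R.g - τ) := by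
  unfold stepJ
  rw [hk]

theorem stepJ_far {x : σ} {τ : ℕ} {L : List (Cut Λ)} {c : SJ σ} (hk : c.k ≠ Kd.stay) :
    stepJ G R x τ L c = lowJ G c ++ (L ++ (G.up x τ (c.i + 2 - τ) ++
      (G.up c.p (c.i + 2) (c.j - c.i) ++ G.up (RJ.nxc x c) (c.j + 2) (R.g - 2)))) := by
  unfold stepJ
  split
  · rename_i h
    exact absurd h hk
  · rfl

/-- The lower part. -/
theorem lowJ_BS (h : GRJ G R) {x : σ} {τ : ℕ} {c : SJ σ} (hc : R.Ok x τ c) (hk : c.k ≠ Kd.stay) :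
    BS (G.dn c.s (G.row c.p)) (G.row x - G.T (τ - 1)) (lowJ G c) := by
  obtain ⟨h1, h2, h3, h3', h4, h5, h6, h7, h8, h9⟩ := hc
  obtain ⟨hm, hd⟩ := h9 hk
  obtain ⟨m1, m2⟩ := h.mv _ _ _ _ hm
  obtain ⟨d1, d2⟩ := h.dr _ _ _ hd
  have a1 := G.dn_le c.a (G.row c.p)
  have a2 := G.lt_tr c.a (G.row c.p)
  have a3 : (0 : ℤ) ≤ G.T c.a := by positivity
  have a4 := G.tr_le (c.i - 1) (G.row c.q)
  have a5 : (G.T (c.i - 1 - 2) : ℤ) ≤ G.T (c.i - 1) := by exact_mod_cast G.T_mono (by omega)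
  have a6 : (G.T c.s : ℤ) ≤ G.T (c.i - 1) := by exact_mod_cast G.T_mono (by omega)
  have a7 : (8 * G.T (c.i - 1) : ℤ) ≤ G.T c.i := by
    have := G.T_succ (c.i - 1)
    rw [show c.i - 1 + 1 = c.i by omega] at this
    exact_mod_cast this
  have a8 : (G.T (τ - 1) : ℤ) ≤ G.T (c.i - 1) := by exact_mod_cast G.T_mono (by omega)
  have a9 : (0 : ℤ) ≤ G.T (c.i - 1) := by positivity
  have b1 : G.tr c.s (G.row c.p) ≤ G.tr c.s (G.row c.q) := by unfold Geo.tr; linarith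
  have b2 := G.tr_mono h2 (G.row c.p)
  have hq := G.up_BS c.q c.s (c.i - c.s) (c.i - 1) (by omega)
  have hqq : BS (G.tr c.s (G.row c.p)) (G.row x - G.T (τ - 1)) (G.up c.q c.s (c.i - c.s)) := hq.mono b1 (by linarith)
  have hlast : G.tr c.s (G.row c.p) ≤ G.row x - G.T (τ - 1) := by
    have := G.tr_mono (show c.s ≤ c.i - 1 by omega) (G.row c.q)
    linarith
  have hpq : BS (G.tr c.a (G.row c.p)) (G.row x - G.T (τ - 1)) (G.up c.p c.a (c.s - c.a) ++ G.up c.q c.s (c.i - c.s)) := by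
    have hp := G.up_BS c.p c.a (c.s - c.a) c.s (by omega)
    exact hp.append hqq b2 le_rfl hlast
  have h10 : BS (G.dn c.a (G.row c.p)) (G.row x - G.T (τ - 1))
      (G.bt c.a c.p :: (G.up c.p c.a (c.s - c.a) ++ G.up c.q c.s (c.i - c.s))) :=
    (BS.single (G.bt c.a c.p)).append hpq le_rfl (show G.dn c.a (G.row c.p) ≤ _ by linarith) (b2.trans hlast)
  exact (BS.single (G.bt c.s c.p)).append h10 le_rfl (show G.dn c.s (G.row c.p) ≤ _ from G.dn_anti h2 _)
    (by linarith)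

/-- **One step keeps the invariant.** -/
theorem stepJ_BS (h : GRJ G R) {x : σ} {τ : ℕ} {L : List (Cut Λ)} {c : SJ σ} (hc : R.Ok x τ c)
    (hL : BS (G.row x - G.T (τ - 1)) (G.tr (τ - 1) (G.row x)) L) :
    BS (G.row (RJ.nxc x c) - G.T (c.j + R.g - 1)) (G.tr (c.j + R.g - 1) (G.row (RJ.nxc x c))) (stepJ G R x τ L c) := by
  have hg := h.g_ge
  have hc' := hc
  obtain ⟨h1, h2, h3, h3', h4, h5, h6, h7, h8, h9⟩ := hc'
  have t1 : (G.T (τ - 1) : ℤ) ≤ G.T (c.j + R.g - 1) := by exact_mod_cast G.T_mono (by omega)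
  have t2 := G.lt_tr (τ - 1) (G.row x)
  have t3 : (0 : ℤ) ≤ G.T (τ - 1) := by positivity
  have t4 : G.tr (τ - 1) (G.row x) ≤ G.tr τ (G.row x) := G.tr_mono (by omega) _
  by_cases hk0 : c.k = Kd.stay
  · have hup : BS (G.tr τ (G.row x)) (G.tr (c.j + R.g - 1) (G.row x)) (G.up x τ (c.j + R.g - τ)) :=
      G.up_BS x τ _ _ (by omega)
    have t5 : G.tr τ (G.row x) ≤ G.tr (c.j + R.g - 1) (G.row x) := G.tr_mono (by omega) _
    have hLx : BS (G.row x - G.T (τ - 1)) (G.tr (c.j + R.g - 1) (G.row x)) (L ++ G.up x τ (c.j + R.g - τ)) :=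
      hL.append hup (by linarith) t4 t5
    have e2 : RJ.nxc x c = x := if_neg (by rw [hk0]; decide)
    rw [stepJ_stay hk0, e2]
    exact hLx.mono (by linarith) le_rfl
  · have hlow := lowJ_BS h hc hk0
    obtain ⟨hm, hd⟩ := h9 hk0
    obtain ⟨m1, m2⟩ := h.mv _ _ _ _ hm
    obtain ⟨d1, d2⟩ := h.dr _ _ _ hd
    have a1 := G.lt_dn c.s (G.row c.p)
    have a1' := G.dn_le c.s (G.row c.p)
    have a2 : (G.T (c.s - 2) : ℤ) ≤ G.T (c.i + 1) := by exact_mod_cast G.T_mono (by omega)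
    have a3 : (8 * G.T (c.i + 1) : ℤ) ≤ G.T (c.i + 2) := by exact_mod_cast G.T_succ (c.i + 1)
    have a3' : (8 * G.T (c.j + 1) : ℤ) ≤ G.T (c.j + 2) := by exact_mod_cast G.T_succ (c.j + 1)
    have a3'' : (G.T (c.i + 2) : ℤ) ≤ G.T (c.j + 2) := by exact_mod_cast G.T_mono (by omega)
    have a3''' : (G.T (c.i + 1) : ℤ) ≤ G.T (c.j + 1) := by exact_mod_cast G.T_mono (by omega)
    have a4 : (G.T (c.j + 2) : ℤ) ≤ G.T (c.j + R.g - 1) := by exact_mod_cast G.T_mono (by omega)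
    have a5 : (0 : ℤ) ≤ G.T (c.i + 1) := by positivity
    have a6 : (G.T c.s : ℤ) ≤ G.T (c.i + 1) := by exact_mod_cast G.T_mono (by omega)
    have a7 : (G.T (τ - 1) : ℤ) ≤ G.T (c.i - 1) := by exact_mod_cast G.T_mono (by omega)
    have a8 : (8 * G.T (c.i - 1) : ℤ) ≤ G.T c.i := by
      have := G.T_succ (c.i - 1)
      rw [show c.i - 1 + 1 = c.i by omega] at this
      exact_mod_cast this
    have a9 : (0 : ℤ) ≤ G.T (c.i - 1) := by positivity
    have b1 := G.tr_le (c.i + 1) (G.row x)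
    have b1p := G.tr_le (c.j + 1) (G.row c.p)
    have b2 := G.lt_tr (c.j + 2) (G.row (RJ.nxc x c))
    have b2p := G.lt_tr (c.i + 2) (G.row c.p)
    have b3 : (G.T (c.i + 1 - 2) : ℤ) ≤ G.T (c.i + 1) := by exact_mod_cast G.T_mono (by omega)
    have b3' : (G.T (c.j + 1 - 2) : ℤ) ≤ G.T (c.j + 1) := by exact_mod_cast G.T_mono (by omega)
    have b4 := lt_nxt (G.T_pos (c.s - 2)) (G.row c.p)
    have b5 := nxt_le (G.T_pos (c.s - 2)) (G.row c.q)
    have b6 : (G.T (c.s - 2) : ℤ) ≤ G.T (c.i + 1) := by exact_mod_cast G.T_mono (by omega)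
    have b7 : G.row c.p < G.row c.q + G.T (c.s - 2) := by unfold Geo.rc at d1; linarith
    have hn : G.row c.p - G.T (c.s - 2) ≤ G.row (RJ.nxc x c) ∧ G.row (RJ.nxc x c) ≤ G.row c.p + 2 * G.T (c.i + 1) := by
      unfold RJ.nxc
      split_ifs
      · exact ⟨by linarith, by linarith⟩
      · exact ⟨by linarith [show (0 : ℤ) ≤ G.T (c.s - 2) by positivity, show (0 : ℤ) ≤ G.T c.i by positivity], by linarith⟩
    obtain ⟨n1, n2⟩ := hn
    have hA : BS (G.tr τ (G.row x)) (G.tr (c.i + 1) (G.row x)) (G.up x τ (c.i + 2 - τ)) := G.up_BS x τ _ _ (by omega)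
    have hB : BS (G.tr (c.i + 2) (G.row c.p)) (G.tr (c.j + 1) (G.row c.p) ⊔ G.tr (c.i + 2) (G.row c.p))
        (G.up c.p (c.i + 2) (c.j - c.i)) :=
      (G.up_BS c.p (c.i + 2) (c.j - c.i) (c.j + 1) (by omega)).mono le_rfl le_sup_left
    have hC : BS (G.tr (c.j + 2) (G.row (RJ.nxc x c))) (G.tr (c.j + R.g - 1) (G.row (RJ.nxc x c)))
        (G.up (RJ.nxc x c) (c.j + 2) (R.g - 2)) := G.up_BS _ _ _ _ (by omega)
    have c1 : G.tr (c.j + 2) (G.row (RJ.nxc x c)) ≤ G.tr (c.j + R.g - 1) (G.row (RJ.nxc x c)) := G.tr_mono (by omega) _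
    have b9 : G.tr τ (G.row x) ≤ G.tr (c.i + 1) (G.row x) := G.tr_mono (by omega) _
    have k1 : G.tr (c.i + 1) (G.row x) ≤ G.tr (c.i + 2) (G.row c.p) := by linarith
    rcases Nat.eq_or_lt_of_le h3' with hij | hij
    · -- `j = i`
      have e : G.up c.p (c.i + 2) (c.j - c.i) = [] := by rw [← hij, Nat.sub_self, Geo.up_zero]
      have k2 : G.tr (c.i + 1) (G.row x) ≤ G.tr (c.j + 2) (G.row (RJ.nxc x c)) := by
        rw [← hij] at b2 a3' a3''' ⊢
        linarith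
      have hAC := hA.append hC b9 k2 c1
      have hLAC := hL.append hAC (by linarith) t4 (by linarith)
      rw [stepJ_far hk0, e, List.nil_append]
      exact (hlow.append hLAC (by linarith) le_rfl (by linarith)).mono (by linarith) le_rfl
    · have k3 : G.tr (c.i + 2) (G.row c.p) ≤ G.tr (c.j + 1) (G.row c.p) := G.tr_mono (by omega) _
      have hB' : BS (G.tr (c.i + 2) (G.row c.p)) (G.tr (c.j + 1) (G.row c.p)) (G.up c.p (c.i + 2) (c.j - c.i)) :=
        hB.mono le_rfl (by rw [sup_eq_left.2 k3])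
      have k4 : G.tr (c.j + 1) (G.row c.p) ≤ G.tr (c.j + 2) (G.row (RJ.nxc x c)) := by linarith
      have hBC := hB'.append hC k3 k4 c1
      have hABC := hA.append hBC b9 k1 (k3.trans (k4.trans c1))
      have hLABC := hL.append hABC (by linarith) t4 (by linarith)
      rw [stepJ_far hk0]
      exact (hlow.append hLABC (by linarith) le_rfl (by linarith)).mono (by linarith) le_rfl

theorem cutJ_BS (h : GRJ G R) {x : σ} {τ : ℕ} {L : List (Cut Λ)} {l : List (SJ σ)} (hl : R.IsC x τ l)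
    (hL : BS (G.row x - G.T (τ - 1)) (G.tr (τ - 1) (G.row x)) L) : ∃ a b : ℤ, BS a b (cutJ G R x τ L l) := by
  induction l generalizing x τ L with
  | nil =>
    have t2 := G.lt_tr (τ - 1) (G.row x)
    have t3 : (0 : ℤ) ≤ G.T (τ - 1) := by positivity
    exact ⟨_, _, hL.append (G.up_BS x τ (G.m + 1 - τ) (τ + (G.m + 1 - τ)) (by omega)) (by linarith)
      (G.tr_mono (by omega) _) (G.tr_mono (by omega) _)⟩
  | cons c l ih => exact ih hl.2 (stepJ_BS h hl.1 hL)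

/-- **The cuts of a chain are sorted.** -/
theorem cutsJ_pw (h : GRJ G R) {x : σ} {l : List (SJ σ)} (hl : R.IsC x 0 l) :
    (cutsJ G R x l).Pairwise fun c d => c.row ≤ d.row := by
  have h1 := G.lt_tr (0 - 1) (G.row x)
  have h2 := G.dn_le 0 (G.row x)
  have h3 : (0 : ℤ) ≤ G.T (0 - 1) := by positivity
  have h4 := G.lt_dn 0 (G.row x)
  obtain ⟨a, b, h5⟩ := cutJ_BS (L := [G.bt 0 x]) h hl ((BS.single (G.bt 0 x)).mono
    (show G.row x - G.T (0 - 1) ≤ G.dn 0 (G.row x) from h4.le) (show G.dn 0 (G.row x) ≤ G.tr (0 - 1) (G.row x) by linarith))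
  exact h5.1

/-! ### The code -/

/-- The label of a step. -/
structure LJ (Λ : Type*) where
  k : Kd
  a : ℕ
  s : ℕ
  i : ℕ
  j : ℕ
  al : Λ
  be : Λ

/-- The label of a step. -/
def lj (G : Geo σ Λ) (c : SJ σ) : LJ Λ := ⟨c.k, c.a, c.s, c.i, c.j, G.loc c.a c.p, G.loc c.s c.q⟩

theorem cutJ_congr (hr : Geo.LocRow G) {x x' : σ} {τ : ℕ} {L : List (Cut Λ)} {l l' : List (SJ σ)} (h : R.IsC x τ l)
    (h' : R.IsC x' τ l') (hx : G.loc τ x = G.loc τ x') (hd : l.map (lj G) = l'.map (lj G)) :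
    cutJ G R x τ L l = cutJ G R x' τ L l' := by
  induction l generalizing x x' τ L l' with
  | nil =>
    cases l' with
    | nil =>
      show L ++ G.up x τ _ = L ++ G.up x' τ _
      rw [Geo.up_congr hr le_rfl hx]
    | cons a l' => exact absurd hd (by simp)
  | cons c l ih =>
    cases l' with
    | nil => exact absurd hd (by simp)
    | cons c' l' =>
      obtain ⟨k, a, s, i, j, p, q⟩ := c
      obtain ⟨k', a', s', i', j', p', q'⟩ := c'
      simp only [List.map_cons, List.cons.injEq, lj, LJ.mk.injEq] at hd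
      obtain ⟨⟨rfl, rfl, rfl, rfl, rfl, hp, hq⟩, hd⟩ := hd
      obtain ⟨⟨h1, h2, h3, h3', h4, h5, h6, h7, h8, h9⟩, h10⟩ := h
      obtain ⟨⟨-, -, -, -, -, -, h6', h7', h8', h9'⟩, h10'⟩ := h'
      simp only at h1 h2 h3 h3' h4 h5 h6 h7 h8 h9
      have hps : G.loc s p = G.loc s p' := G.nest a s h2 _ _ hp
      have e1 : lowJ G (⟨k, a, s, i, j, p, q⟩ : SJ σ) = lowJ G ⟨k, a, s, i, j, p', q'⟩ := by
        show G.bt s p :: G.bt a p :: (G.up p a (s - a) ++ G.up q s (i - s)) =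
          G.bt s p' :: G.bt a p' :: (G.up p' a (s - a) ++ G.up q' s (i - s))
        rw [Geo.bt_congr hr hp, Geo.bt_congr hr hps, Geo.up_congr hr le_rfl hp, Geo.up_congr hr le_rfl hq]
      have e2 : ∀ n, G.up x τ n = G.up x' τ n := fun n => Geo.up_congr hr le_rfl hx
      have e5 : G.up p (i + 2) (j - i) = G.up p' (i + 2) (j - i) := Geo.up_congr hr (show a ≤ i + 2 by omega) hp
      have hn : ∀ v, j + 2 ≤ v → G.loc v (RJ.nxc x ⟨k, a, s, i, j, p, q⟩) = G.loc v (RJ.nxc x' ⟨k, a, s, i, j, p', q'⟩) := by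
        intro v hv
        by_cases hk : k = Kd.move
        · have e4 : RJ.nxc x (⟨k, a, s, i, j, p, q⟩ : SJ σ) = q := if_pos hk
          have e5 : RJ.nxc x' (⟨k, a, s, i, j, p', q'⟩ : SJ σ) = q' := if_pos hk
          rw [e4, e5]
          exact G.nest s _ (by omega) _ _ hq
        · have e4 : RJ.nxc x (⟨k, a, s, i, j, p, q⟩ : SJ σ) = x := if_neg hk
          have e5 : RJ.nxc x' (⟨k, a, s, i, j, p', q'⟩ : SJ σ) = x' := if_neg hk
          rw [e4, e5]
          exact G.nest τ _ (by omega) _ _ hx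
      have e3 : stepJ G R x τ L ⟨k, a, s, i, j, p, q⟩ = stepJ G R x' τ L ⟨k, a, s, i, j, p', q'⟩ := by
        by_cases hk : k = Kd.stay
        · rw [stepJ_stay hk, stepJ_stay hk]
          show L ++ G.up x τ (j + R.g - τ) = L ++ G.up x' τ (j + R.g - τ)
          rw [e2]
        · rw [stepJ_far hk, stepJ_far hk]
          show lowJ G _ ++ (L ++ (G.up x τ (i + 2 - τ) ++ (G.up p (i + 2) (j - i) ++ G.up _ (j + 2) (R.g - 2)))) =
            lowJ G _ ++ (L ++ (G.up x' τ (i + 2 - τ) ++ (G.up p' (i + 2) (j - i) ++ G.up _ (j + 2) (R.g - 2))))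
          rw [e1, e2, e5, Geo.up_congr hr le_rfl (hn (j + 2) le_rfl)]
      show cutJ G R _ (j + R.g) (stepJ G R x τ L ⟨k, a, s, i, j, p, q⟩) l =
        cutJ G R _ (j + R.g) (stepJ G R x' τ L ⟨k, a, s, i, j, p', q'⟩) l'
      rw [e3]
      refine ih h10 h10' ?_ hd
      by_cases hg : 2 ≤ R.g
      · exact hn _ (by show j + 2 ≤ j + R.g; omega)
      · show G.loc (j + R.g) (RJ.nxc x ⟨k, a, s, i, j, p, q⟩) = G.loc (j + R.g) (RJ.nxc x' ⟨k, a, s, i, j, p', q'⟩)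
        by_cases hk : k = Kd.move
        · have e4 : RJ.nxc x (⟨k, a, s, i, j, p, q⟩ : SJ σ) = q := if_pos hk
          have e5 : RJ.nxc x' (⟨k, a, s, i, j, p', q'⟩ : SJ σ) = q' := if_pos hk
          rw [e4, e5]
          exact G.nest s _ (by omega) _ _ hq
        · have e4 : RJ.nxc x (⟨k, a, s, i, j, p, q⟩ : SJ σ) = x := if_neg hk
          have e5 : RJ.nxc x' (⟨k, a, s, i, j, p', q'⟩ : SJ σ) = x' := if_neg hk
          rw [e4, e5]
          exact G.nest τ _ (by omega) _ _ hx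

/-- The cuts are a function of the code. -/
theorem cutsJ_congr (hr : Geo.LocRow G) {x x' : σ} {l l' : List (SJ σ)} (h : R.IsC x 0 l) (h' : R.IsC x' 0 l')
    (hx : G.loc 0 x = G.loc 0 x') (hd : l.map (lj G) = l'.map (lj G)) : cutsJ G R x l = cutsJ G R x' l' := by
  unfold cutsJ
  rw [Geo.bt_congr hr hx]
  exact cutJ_congr hr h h' hx hd

/-- The number of the cuts. -/
theorem cutJ_length (h : GRJ G R) {x : σ} {τ : ℕ} {L : List (Cut Λ)} {l : List (SJ σ)} (hl : R.IsC x τ l) :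
    (cutJ G R x τ L l).length + 3 * τ ≤ L.length + 3 * max τ (G.m + R.g) := by
  have hg := h.g_ge
  have hm := h.m_le
  induction l generalizing x τ L with
  | nil =>
    show (L ++ G.up x τ (G.m + 1 - τ)).length + 3 * τ ≤ _
    rw [List.length_append, Geo.up_length]
    omega
  | cons c l ih =>
    obtain ⟨⟨h1, h2, h3, h3', h4, h5, h6, h7, h8, h9⟩, h10⟩ := hl
    have h11 := ih (L := stepJ G R x τ L c) h10
    show (cutJ G R _ (c.j + R.g) (stepJ G R x τ L c) l).length + 3 * τ ≤ _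
    have h12 : (stepJ G R x τ L c).length ≤ L.length + (2 + (c.i - c.a)) + (c.j + R.g - τ) := by
      by_cases hk : c.k = Kd.stay
      · rw [stepJ_stay hk]
        simp only [List.length_append, Geo.up_length]
        omega
      · rw [stepJ_far hk]
        unfold lowJ
        simp only [List.length_append, List.length_cons, Geo.up_length]
        omega
    omega

theorem cutsJ_length (h : GRJ G R) {x : σ} {l : List (SJ σ)} (hl : R.IsC x 0 l) :
    (cutsJ G R x l).length ≤ 3 * (G.m + R.g) + 1 := by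
  have h1 := cutJ_length (L := [G.bt 0 x]) h hl
  simp only [List.length_cons, List.length_nil] at h1
  show (cutJ G R x 0 [G.bt 0 x] l).length ≤ _
  omega

end Cuts

/-! ### The number of the codes -/

section Codes

variable {σ Λ : Type*} {G : Geo σ Λ} {R : RJ σ}

/-- `p` is where a step from `y` below the scale `j` can be. -/
def PosA (R : RJ σ) (j : ℕ) (y p : σ) : Prop :=
  p = y ∨ (∃ s < j, R.Dr s p y) ∨ ∃ i0 j0, i0 ≤ j0 ∧ j0 < j ∧ R.Mv i0 j0 y p

/-- `p` is where a step from `y` of the top scale `j` can be. -/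
def PosB (R : RJ σ) (j : ℕ) (y p : σ) : Prop := p = y ∨ ∃ i ≤ j, R.Mv i j y p

/-- The counting input. -/
structure CntJ (G : Geo σ Λ) (R : RJ σ) (A : ℕ) where
  F0 : ℕ → Finset Λ
  F1 : ℕ → ℕ → ℕ → Λ → Finset Λ
  F2 : ℕ → ℕ → Λ → Finset Λ
  Nt : ℕ
  hN : 1 ≤ Nt
  hA : 1 ≤ A
  h0 : ∀ a ≤ G.m, ∀ x ∈ G.W, G.loc a x ∈ F0 a
  c0 : ∀ a ≤ G.m, (F0 a).card ≤ Nt * A ^ (1 + G.m - a)
  h1 : ∀ a a' j', a < a' → a' < j' → j' ≤ R.m → ∀ y, ∀ p ∈ G.W, ∀ p' ∈ G.W, PosA R j' y p → PosB R j' y p' →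
    G.loc a p ∈ F1 a a' j' (G.loc a' p')
  c1 : ∀ a a' j', a < a' → a' < j' → j' ≤ G.m → ∀ α, (F1 a a' j' α).card ≤ A ^ (1 + j' - a)
  h2 : ∀ a s, a ≤ s → s ≤ G.m → ∀ p ∈ G.W, ∀ q ∈ G.W, (p = q ∨ R.Dr s p q) → G.loc s q ∈ F2 a s (G.loc a p)
  c2 : ∀ a s α, (F2 a s α).card ≤ A

/-- Possible first positions in front of a list. -/
def nxJ {A : ℕ} (C : CntJ G R A) (a : ℕ) : List (LJ Λ) → Finset Λ
  | [] => C.F0 a
  | c :: _ => C.F1 a c.a c.j c.al

/-- Possible labels in front of a list. -/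
def headsJ {A : ℕ} (C : CntJ G R A) (a j : ℕ) (t : List (LJ Λ)) : Finset (LJ Λ) :=
  ({Kd.stay, Kd.move, Kd.visit} : Finset Kd).biUnion fun k => (Ico a j ×ˢ Ioc a j).biUnion fun si => (nxJ C a t).biUnion fun al =>
    (C.F2 a si.1 al).image fun be => ⟨k, a, si.1, si.2, j, al, be⟩

theorem headsJ_spec {A : ℕ} (C : CntJ G R A) (a j : ℕ) (t : List (LJ Λ)) : ∀ c ∈ headsJ C a j t, c.a = a ∧ c.j = j := by
  intro c hc
  obtain ⟨k, -, hc⟩ := mem_biUnion.1 hc
  obtain ⟨si, -, hc⟩ := mem_biUnion.1 hc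
  obtain ⟨al, -, hc⟩ := mem_biUnion.1 hc
  obtain ⟨be, -, rfl⟩ := mem_image.1 hc
  exact ⟨rfl, rfl⟩

theorem headsJ_card {A : ℕ} (C : CntJ G R A) {g : ℕ} (hg : 1 ≤ g) {a j : ℕ} (hai : a < j) (him : j ≤ G.m) {t : List (LJ Λ)}
    (ht : Hdr LJ.a LJ.j G.m g j t) :
    (headsJ C a j t).card ≤ wtC C.Nt t * (12 * A ^ 2) ^ (1 + hdC LJ.j G.m t - a) := by
  have hA := C.hA
  have h1 : (nxJ C a t).card ≤ wtC C.Nt t * A ^ (1 + hdC LJ.j G.m t - a) ∧ j ≤ hdC LJ.j G.m t := by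
    rcases ht with rfl | ⟨c, t', rfl, h5, h6, h7⟩
    · exact ⟨C.c0 a (by omega), him⟩
    · refine ⟨?_, by show j ≤ c.j; omega⟩
      show (C.F1 a c.a c.j c.al).card ≤ 1 * A ^ (1 + c.j - a)
      rw [one_mul]
      exact C.c1 a c.a c.j (by omega) h6 h7 _
  obtain ⟨h1, h2⟩ := h1
  set h := hdC LJ.j G.m t with hh
  set w := wtC C.Nt t with hw
  have hcard : (headsJ C a j t).card ≤ 3 * (((j - a) * (j - a)) * (w * A ^ (1 + h - a) * A)) := by
    unfold headsJ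
    refine card_biUnion_le.trans ?_
    calc ∑ k ∈ ({Kd.stay, Kd.move, Kd.visit} : Finset Kd), ((Ico a j ×ˢ Ioc a j).biUnion fun si => (nxJ C a t).biUnion fun al =>
          (C.F2 a si.1 al).image fun be => (⟨k, a, si.1, si.2, j, al, be⟩ : LJ Λ)).card
        ≤ ∑ k ∈ ({Kd.stay, Kd.move, Kd.visit} : Finset Kd), ((j - a) * (j - a)) * (w * A ^ (1 + h - a) * A) := by
          refine sum_le_sum fun k _ => card_biUnion_le.trans ?_
          calc ∑ si ∈ Ico a j ×ˢ Ioc a j, ((nxJ C a t).biUnion fun al =>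
                (C.F2 a si.1 al).image fun be => (⟨k, a, si.1, si.2, j, al, be⟩ : LJ Λ)).card
              ≤ ∑ si ∈ Ico a j ×ˢ Ioc a j, w * A ^ (1 + h - a) * A := by
                refine sum_le_sum fun si _ => card_biUnion_le.trans ?_
                calc ∑ al ∈ nxJ C a t, ((C.F2 a si.1 al).image fun be => (⟨k, a, si.1, si.2, j, al, be⟩ : LJ Λ)).card
                    ≤ ∑ al ∈ nxJ C a t, A := sum_le_sum fun al _ => card_image_le.trans (C.c2 a si.1 al)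
                  _ = (nxJ C a t).card * A := by rw [sum_const, smul_eq_mul]
                  _ ≤ _ := Nat.mul_le_mul_right _ h1
            _ = _ := by rw [sum_const, smul_eq_mul, card_product, Nat.card_Ico, Nat.card_Ioc]
      _ = ({Kd.stay, Kd.move, Kd.visit} : Finset Kd).card * (((j - a) * (j - a)) * (w * A ^ (1 + h - a) * A)) := by
          rw [sum_const, smul_eq_mul]
      _ ≤ _ := Nat.mul_le_mul_right _ (by decide)
  refine hcard.trans ?_
  obtain ⟨n, hn⟩ : ∃ n, n = h - a := ⟨_, rfl⟩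
  have e1 : 1 + h - a = n + 1 := by omega
  have e2 : j - a ≤ 2 ^ n := (show j - a ≤ n by omega).trans Nat.lt_two_pow_self.le
  rw [e1]
  have key : 3 * (((j - a) * (j - a)) * (A ^ (n + 1) * A)) ≤ (12 * A ^ 2) ^ (n + 1) := by
    calc 3 * (((j - a) * (j - a)) * (A ^ (n + 1) * A)) ≤ 3 * ((2 ^ n * 2 ^ n) * (A ^ (n + 1) * A)) := by gcongr
      _ = 3 * (4 ^ n * (A ^ (n + 1) * A)) := by rw [← mul_pow, show (2 : ℕ) * 2 = 4 from rfl]
      _ ≤ 3 * (12 ^ n * (A ^ (n + 1) * A ^ (n + 1))) := by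
          gcongr
          · norm_num
          · calc A = A ^ 1 := (pow_one A).symm
              _ ≤ A ^ (n + 1) := Nat.pow_le_pow_right hA (by omega)
      _ ≤ (12 * A ^ 2) ^ (n + 1) := by
          rw [mul_pow, ← pow_mul, show 2 * (n + 1) = (n + 1) + (n + 1) by ring, pow_add A (n + 1) (n + 1), pow_succ 12 n]
          have : 3 * (12 ^ n * (A ^ (n + 1) * A ^ (n + 1))) = 12 ^ n * 3 * (A ^ (n + 1) * A ^ (n + 1)) := by ring
          rw [this]
          gcongr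
          norm_num
  calc 3 * (((j - a) * (j - a)) * (w * A ^ (n + 1) * A)) = w * (3 * (((j - a) * (j - a)) * (A ^ (n + 1) * A))) := by ring
    _ ≤ _ := Nat.mul_le_mul_left _ key

/-- The code of a chain is in the list. -/
theorem mem_DCJ (h : GRJ G R) {A : ℕ} (C : CntJ G R A) {x : σ} {τ : ℕ} {l : List (SJ σ)} (hl : R.IsC x τ l) {n : ℕ}
    (hn : l.length ≤ n) : l.map (lj G) ∈ DC G.m R.g (headsJ C) n τ := by
  have hm := h.m_le
  have hW := h.W_eq
  have hg := h.g_ge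
  induction l generalizing x τ n with
  | nil =>
    cases n with
    | zero => exact mem_singleton_self _
    | succ n => exact mem_union_left _ (mem_singleton_self _)
  | cons c l ih =>
    obtain ⟨hc, hl'⟩ := hl
    have hc' := hc
    obtain ⟨h1, h2, h3, h3', h4, h5, h6, h7, h8, h9⟩ := hc'
    rw [hW] at h6 h7
    cases n with
    | zero => exact absurd hn (by simp)
    | succ n =>
      have h10 := ih hl' (n := n) (by simpa using hn)
      refine mem_union_right _ (mem_biUnion.2 ⟨(c.a, c.j), ?_, mem_biUnion.2 ⟨_, h10, mem_image.2 ⟨lj G c, ?_, rfl⟩⟩⟩)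
      · exact mem_filter.2 ⟨mem_product.2 ⟨mem_Icc.2 ⟨h1, (show c.a ≤ G.m by omega)⟩, mem_Icc.2 ⟨Nat.zero_le _,
          (show c.j ≤ G.m by omega)⟩⟩, (show c.a < c.j by omega)⟩
      · have hdr : c.p = c.q ∨ R.Dr c.s c.p c.q := by
          by_cases hk : c.k = Kd.stay
          · left; rw [(h8 hk).1, (h8 hk).2.1]
          · exact Or.inr (h9 hk).2
        refine mem_biUnion.2 ⟨c.k, ?_, mem_biUnion.2 ⟨(c.s, c.i), mem_product.2 ⟨mem_Ico.2 ⟨h2, (show c.s < c.j by omega)⟩,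
          mem_Ioc.2 ⟨(show c.a < c.i by omega), h3'⟩⟩, mem_biUnion.2 ⟨G.loc c.a c.p, ?_,
          mem_image.2 ⟨G.loc c.s c.q, C.h2 c.a c.s h2 (by omega) c.p h6 c.q h7 hdr, rfl⟩⟩⟩⟩
        · cases c.k <;> simp
        · cases l with
          | nil => exact C.h0 c.a (by omega) c.p h6
          | cons d l' =>
            obtain ⟨g1, g2, g3, g3', g4, g5, g6, g7, g8, g9⟩ := hl'.1
            rw [hW] at g6
            show G.loc c.a c.p ∈ C.F1 c.a d.a d.j (G.loc d.a d.p)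
            refine C.h1 c.a d.a d.j (by omega) (by omega) g5 (RJ.nxc x c) c.p h6 d.p g6 ?_ ?_
            · cases hk : c.k
              · left
                have e : RJ.nxc x c = x := if_neg (by rw [hk]; decide)
                rw [e]
                exact (h8 hk).1
              · right; left
                have e : RJ.nxc x c = c.q := if_pos hk
                rw [e]
                exact ⟨c.s, by omega, (h9 (by rw [hk]; decide)).2⟩
              · right; right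
                have e : RJ.nxc x c = x := if_neg (by rw [hk]; decide)
                rw [e]
                exact ⟨c.i, c.j, h3', by omega, (h9 (by rw [hk]; decide)).1⟩
            · by_cases hk : d.k = Kd.stay
              · exact Or.inl (g8 hk).1
              · exact Or.inr ⟨d.i, g3', (g9 hk).1⟩

theorem IsC_lengthJ {x : σ} {τ : ℕ} {l : List (SJ σ)} (hl : R.IsC x τ l) :
    l = [] ∨ τ + l.length * (R.lam + R.g) ≤ R.m + R.g := by
  induction l generalizing x τ with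
  | nil => exact Or.inl rfl
  | cons c l ih =>
    obtain ⟨⟨h1, h2, h3, h3', h4, h5, -⟩, h6⟩ := hl
    right
    rw [List.length_cons, Nat.succ_mul]
    rcases ih h6 with rfl | h7
    · simp only [List.length_nil, Nat.zero_mul]
      omega
    · omega

/-- The number of the codes. -/
def nCodeJ (Nt A m g : ℕ) : ℕ := Nt ^ 2 * ((48 * A ^ 2) ^ (m + g) * (12 * A ^ 2) ^ m * A ^ (1 + m))

/-- **UNION OVER THE CHAINS, ANY FUNCTIONAL OF THE CODE.** -/
theorem unionJ (h : GRJ G R) {μ : Measure ℝ} {A : ℕ} (C : CntJ G R A) {S : σ → List (SJ σ) → Env → ℕ}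
    (hcode : ∀ x ∈ G.W, ∀ x' ∈ G.W, ∀ l l', R.IsC x 0 l → R.IsC x' 0 l' → G.loc 0 x = G.loc 0 x' →
      l.map (lj G) = l'.map (lj G) → ∀ η, S x l η = S x' l' η) {r : ℕ} {B : ℝ≥0∞}
    (hB : ∀ x ∈ G.W, ∀ l, R.IsC x 0 l → law μ {η | r ≤ S x l η} ≤ B) :
    law μ {η | ∃ x ∈ G.W, ∃ l, R.IsC x 0 l ∧ r ≤ S x l η} ≤ (nCodeJ C.Nt A G.m R.g : ℝ≥0∞) * B := by
  have hg := h.g_ge
  set n := G.m + R.g with hn
  set rep : Λ → List (LJ Λ) → Set Env := fun a d =>
    {η | ∃ x ∈ G.W, ∃ l, R.IsC x 0 l ∧ G.loc 0 x = a ∧ l.map (lj G) = d ∧ r ≤ S x l η} with hrep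
  have hsub : {η | ∃ x ∈ G.W, ∃ l, R.IsC x 0 l ∧ r ≤ S x l η} ⊆ ⋃ q ∈ C.F0 0 ×ˢ DC G.m R.g (headsJ C) n 0, rep q.1 q.2 := by
    rintro η ⟨x, hx, l, hl, h1⟩
    refine Set.mem_iUnion₂.2 ⟨(G.loc 0 x, l.map (lj G)), mem_product.2 ⟨C.h0 0 (Nat.zero_le _) x hx, mem_DCJ h C hl ?_⟩,
      x, hx, l, hl, rfl, rfl, h1⟩
    have hm := h.m_le
    rcases IsC_lengthJ hl with rfl | h2
    · exact Nat.zero_le _
    · have h3 : l.length * 1 ≤ l.length * (R.lam + R.g) := Nat.mul_le_mul_left _ (by omega)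
      omega
  have hone : ∀ a d, law μ (rep a d) ≤ B := by
    intro a d
    by_cases hd : ∃ x ∈ G.W, ∃ l, R.IsC x 0 l ∧ G.loc 0 x = a ∧ l.map (lj G) = d
    · obtain ⟨x, hx, l, hl, rfl, rfl⟩ := hd
      refine le_trans (measure_mono ?_) (hB x hx l hl)
      rintro η ⟨x', hx', l', hl', h2, h3, h4⟩
      show r ≤ S x l η
      rwa [← hcode x' hx' x hx l' l hl' hl h2 h3]
    · have e : rep a d = ∅ := by
        ext η
        simp only [hrep, Set.mem_ofPred_eq, Set.mem_empty_iff_false, iff_false]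
        rintro ⟨x, hx, l, h1, h2, h3, -⟩
        exact hd ⟨x, hx, l, h1, h2, h3⟩
      rw [e, measure_empty]
      exact zero_le
  calc law μ {η | ∃ x ∈ G.W, ∃ l, R.IsC x 0 l ∧ r ≤ S x l η}
      ≤ law μ (⋃ q ∈ C.F0 0 ×ˢ DC G.m R.g (headsJ C) n 0, rep q.1 q.2) := measure_mono hsub
    _ ≤ ∑ q ∈ C.F0 0 ×ˢ DC G.m R.g (headsJ C) n 0, law μ (rep q.1 q.2) := by
        exact measure_biUnion_finset_le _ _
    _ ≤ ∑ _q ∈ C.F0 0 ×ˢ DC G.m R.g (headsJ C) n 0, B := sum_le_sum fun q _ => hone q.1 q.2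
    _ = (((C.F0 0).card * (DC G.m R.g (headsJ C) n 0).card : ℕ) : ℝ≥0∞) * B := by rw [sum_const, nsmul_eq_mul, card_product]
    _ ≤ _ := by
        refine mul_le_mul_left ?_ _
        have h1 := C.c0 0 (Nat.zero_le _)
        have h2 := card_DC (B := 12 * A ^ 2) (H := headsJ C) (g := R.g) (m := G.m) (lo := LJ.a) (hi := LJ.j) C.hN
          (Nat.mul_pos (by norm_num) (Nat.pow_pos C.hA)) (by omega) (fun a i t => headsJ_spec C a i t)
          (fun a i t hai him ht => headsJ_card C (by omega) hai him ht) n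
        have h3 : (C.F0 0).card * (DC G.m R.g (headsJ C) n 0).card ≤
            C.Nt * A ^ (1 + G.m - 0) * (C.Nt * ((4 * (12 * A ^ 2)) ^ (G.m + R.g) * (12 * A ^ 2) ^ G.m)) := Nat.mul_le_mul h1 h2
        have h4 : C.Nt * A ^ (1 + G.m - 0) * (C.Nt * ((4 * (12 * A ^ 2)) ^ (G.m + R.g) * (12 * A ^ 2) ^ G.m)) =
            nCodeJ C.Nt A G.m R.g := by
          unfold nCodeJ
          rw [Nat.sub_zero, show 4 * (12 * A ^ 2) = 48 * A ^ 2 by ring]
          ring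
        exact_mod_cast h3.trans (le_of_eq h4)

/-- The counting input, one scale at a time. -/
structure TreeJ (G : Geo σ Λ) (R : RJ σ) (A Nt : ℕ) : Prop where
  hA : 1 ≤ A
  hN : 1 ≤ Nt
  top : ∃ F : Finset Λ, F.card ≤ A * Nt ∧ ∀ x ∈ G.W, G.loc G.m x ∈ F
  ref : ∀ u < G.m, ∀ κ, ∃ F : Finset Λ, F.card ≤ A ∧ ∀ y ∈ G.W, G.loc (u + 1) y = κ → G.loc u y ∈ F
  dri : ∀ s ≤ G.m, ∀ κ, ∃ F : Finset Λ, F.card ≤ A ∧ ∀ p ∈ G.W, ∀ q ∈ G.W, G.loc s p = κ → (p = q ∨ R.Dr s p q) → G.loc s q ∈ F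
  nr : ∀ j ≤ R.m, ∀ κ, ∃ F : Finset Λ, F.card ≤ A ∧ ∀ y, ∀ p ∈ G.W, ∀ p' ∈ G.W, G.loc j p' = κ →
    PosA R j y p → PosB R j y p' → G.loc j p ∈ F

variable {A Nt : ℕ}

/-- Refining a finite set of cells. -/
theorem TreeJ.refine (t : TreeJ G R A Nt) {i : ℕ} (hi : i ≤ G.m) (F : Finset Λ) (n : ℕ) (hn : n ≤ i) :
    ∃ F' : Finset Λ, F'.card ≤ F.card * A ^ n ∧ ∀ y ∈ G.W, G.loc i y ∈ F → G.loc (i - n) y ∈ F' := by
  induction n with
  | zero => exact ⟨F, by simp, fun y _ h => by simpa using h⟩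
  | succ n ih =>
    obtain ⟨F', h1, h2⟩ := ih (by omega)
    choose f hf1 hf2 using t.ref (i - (n + 1)) (by omega)
    refine ⟨F'.biUnion f, ?_, fun y hy h => mem_biUnion.2 ⟨_, h2 y hy h, hf2 _ y hy ?_⟩⟩
    · refine card_biUnion_le.trans ?_
      calc ∑ u ∈ F', (f u).card ≤ ∑ _u ∈ F', A := sum_le_sum fun u _ => hf1 u
        _ = F'.card * A := by rw [sum_const, smul_eq_mul]
        _ ≤ F.card * A ^ n * A := Nat.mul_le_mul_right _ h1
        _ = _ := by rw [pow_succ, mul_assoc]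
    · rw [show i - (n + 1) + 1 = i - n by omega]

/-- **The counting input.** -/
theorem TreeJ.cnt (h : GRJ G R) (t : TreeJ G R A Nt) : ∃ C : CntJ G R A, C.Nt = Nt := by
  have hm := h.m_le
  have hg := h.g_ge
  obtain ⟨F, hF1, hF2⟩ := t.top
  have h0 : ∀ a, ∃ F' : Finset Λ, a ≤ G.m → F'.card ≤ Nt * A ^ (1 + G.m - a) ∧ ∀ x ∈ G.W, G.loc a x ∈ F' := by
    intro a
    by_cases ha : a ≤ G.m
    · obtain ⟨F', h1, h2⟩ := t.refine le_rfl F (G.m - a) (by omega)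
      refine ⟨F', fun _ => ⟨h1.trans ?_, fun x hx => ?_⟩⟩
      · calc F.card * A ^ (G.m - a) ≤ A * Nt * A ^ (G.m - a) := Nat.mul_le_mul_right _ hF1
          _ = Nt * A ^ (1 + G.m - a) := by
            rw [show 1 + G.m - a = (G.m - a) + 1 by omega, pow_succ]
            ring
      · have := h2 x hx (hF2 x hx)
        rwa [show G.m - (G.m - a) = a by omega] at this
    · exact ⟨∅, fun h => absurd h ha⟩
  choose F0 hF0 using h0
  have h1 : ∀ a a' j' α, ∃ F' : Finset Λ, (a < a' → a' < j' → F'.card ≤ A ^ (1 + j' - a)) ∧ (a < a' → a' < j' → j' ≤ R.m →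
      ∀ y, ∀ p ∈ G.W, ∀ p' ∈ G.W, PosA R j' y p → PosB R j' y p' → G.loc a' p' = α → G.loc a p ∈ F') := by
    intro a a' j' α
    by_cases hc : a < a' ∧ a' < j' ∧ j' ≤ R.m
    · obtain ⟨c1, c2, c3⟩ := hc
      by_cases hex : ∃ p0 ∈ G.W, G.loc a' p0 = α
      · obtain ⟨p0, hp0, e0⟩ := hex
        obtain ⟨F1, g1, g2⟩ := t.nr j' c3 (G.loc j' p0)
        obtain ⟨F', h1, h2⟩ := t.refine (show j' ≤ G.m by omega) F1 (j' - a) (by omega)
        refine ⟨F', fun _ _ => h1.trans ?_, fun _ _ _ y p hp p' hp' h3 h4 h5 => ?_⟩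
        · calc F1.card * A ^ (j' - a) ≤ A * A ^ (j' - a) := Nat.mul_le_mul_right _ g1
            _ = A ^ (1 + j' - a) := by rw [show 1 + j' - a = (j' - a) + 1 by omega, pow_succ, mul_comm]
        · have h6 : G.loc j' p' = G.loc j' p0 := G.nest a' j' (by omega) _ _ (h5.trans e0.symm)
          have := h2 p hp (g2 y p hp p' hp' h6 h3 h4)
          rwa [show j' - (j' - a) = a by omega] at this
      · exact ⟨∅, fun _ _ => by simp, fun _ _ _ y p hp p' hp' _ _ h5 => absurd ⟨p', hp', h5⟩ hex⟩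
    · exact ⟨∅, fun _ _ => by simp, fun h2 h3 h4 => absurd ⟨h2, h3, h4⟩ hc⟩
  choose F1 hF1' using h1
  have h2 : ∀ a s α, ∃ F' : Finset Λ, F'.card ≤ A ∧ (a ≤ s → s ≤ G.m → ∀ p ∈ G.W, ∀ q ∈ G.W, (p = q ∨ R.Dr s p q) →
      G.loc a p = α → G.loc s q ∈ F') := by
    intro a s α
    by_cases hc : a ≤ s ∧ s ≤ G.m ∧ ∃ p0 ∈ G.W, G.loc a p0 = α
    · obtain ⟨c1, c2, p0, hp0, e0⟩ := hc
      obtain ⟨F', g1, g2⟩ := t.dri s c2 (G.loc s p0)
      exact ⟨F', g1, fun _ _ p hp q hq h3 h4 => g2 p hp q hq (G.nest a s c1 _ _ (h4.trans e0.symm)) h3⟩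
    · exact ⟨∅, by simp, fun h3 h4 p hp q hq _ h5 => absurd ⟨h3, h4, p, hp, h5⟩ hc⟩
  choose F2 hF2' using h2
  exact ⟨{ F0 := F0, F1 := F1, F2 := F2, Nt := Nt, hN := t.hN, hA := t.hA
           h0 := fun a ha x hx => (hF0 a ha).2 x hx
           c0 := fun a ha => (hF0 a ha).1
           h1 := fun a a' j' c1 c2 c3 y p hp p' hp' h3 h4 => (hF1' a a' j' _).2 c1 c2 c3 y p hp p' hp' h3 h4 rfl
           c1 := fun a a' j' c1 c2 _ α => (hF1' a a' j' α).1 c1 c2
           h2 := fun a s c1 c2 p hp q hq h3 => (hF2' a s _).2 c1 c2 p hp q hq h3 rfl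
           c2 := fun a s α => (hF2' a s α).1 }, rfl⟩

end Codes

end

end Pool.Agent.W_7d29a1_C1.H40
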