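import Pool.Agent.W_7d29a1_C1.ChnK40

/-!
MP_7d29a1_pr, the attractor route: TWO INDEX CHAINS: the far last step, the exposed own slabs (losses), COUNT. (helper40)
-/

set_option autoImplicit false

namespace Pool.Agent.W_7d29a1_C1.H40

open MeasureTheory ProbabilityTheory Finset
open Pool.Agent.W_7d29a1_F Pool.Agent.W_7d29a1_C1.S71
open scoped ENNReal Classical

noncomputable section

namespace RJ

variable {σ : Type*}

/-- The relation without the far last steps: moves and visits only at the lateral scales `j < m`. -/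
def near (R : RJ σ) : RJ σ := { R with Mv := fun i j x p => j < R.m ∧ R.Mv i j x p }

/-- A chain = a chain without a far last step + at most one far step. -/
theorem nm_near {Ω : Type*} {R : RJ σ} (hg : 1 ≤ R.g) {dep : ℕ → σ → Ω → ℕ} {ω : Ω} {b : ℕ} {x : σ} {τ : ℕ} {l : List (SJ σ)}
    (hl : R.IsC x τ l) (hx : ∀ ρ ∈ R.W, ∀ l', R.near.IsC ρ 0 l' → R.near.nm dep l' ω ≤ b) :
    ∃ l', R.near.IsC x τ l' ∧ R.nm dep l ω ≤ R.near.nm dep l' ω + 2 * b := by
  induction l generalizing x τ with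
  | nil => exact ⟨[], trivial, by show (0 : ℕ) ≤ _; exact Nat.zero_le _⟩
  | cons c l ih =>
    obtain ⟨hc, hl'⟩ := hl
    have hc' := hc
    obtain ⟨h1, h2, h3, h3', h4, h5, h6, h7, h8, h9⟩ := hc'
    by_cases hfar : c.k = Kd.stay ∨ c.j < R.m
    · obtain ⟨l', h10, h11⟩ := ih hl'
      refine ⟨c :: l', ⟨⟨h1, h2, h3, h3', h4, h5, h6, h7, h8, fun hk => ⟨⟨?_, (h9 hk).1⟩, (h9 hk).2⟩⟩, h10⟩, ?_⟩
      · exact hfar.resolve_left hk
      · rw [nm_cons, nm_cons]
        have e : R.near.dst dep c ω = R.dst dep c ω := rfl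
        omega
    · push Not at hfar
      have him : c.j = R.m := by omega
      have hnil : l = [] := by
        cases l with
        | nil => rfl
        | cons d l =>
          obtain ⟨⟨g1, g2, g3, g3', g4, g5, -⟩, -⟩ := hl'
          omega
      subst hnil
      refine ⟨[], trivial, ?_⟩
      have hst : ∀ ρ ∈ R.W, ∑ u ∈ Ico c.a c.j, dep u ρ ω ≤ b := by
        intro ρ hρ
        have h10 := hx ρ hρ [⟨Kd.stay, c.a, c.a, c.j, c.j, ρ, ρ⟩] ⟨⟨Nat.zero_le _, le_rfl, (show c.a < c.j by omega), le_rfl,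
          (show c.a + R.lam ≤ c.j by omega), h5, hρ, hρ, fun _ => ⟨rfl, rfl, rfl⟩, fun h => absurd rfl h⟩, trivial⟩
        have e : R.near.nm dep [(⟨Kd.stay, c.a, c.a, c.j, c.j, ρ, ρ⟩ : SJ σ)] ω = ∑ u ∈ Ico c.a c.j, dep u ρ ω := by
          simp [nm, dst]
        rwa [e] at h10
      have e1 : R.nm dep [c] ω = ∑ u ∈ Ico c.a c.s, dep u c.p ω + ∑ u ∈ Ico c.s c.i, dep u c.q ω +
          ∑ u ∈ Ico (c.i + R.m3) c.j, dep u c.p ω := by simp [nm, dst]
      have e2 : R.near.nm dep ([] : List (SJ σ)) ω = 0 := rfl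
      have h11 : ∑ u ∈ Ico c.a c.s, dep u c.p ω + ∑ u ∈ Ico (c.i + R.m3) c.j, dep u c.p ω ≤ ∑ u ∈ Ico c.a c.j, dep u c.p ω := by
        rw [← sum_union (disjoint_left.2 fun u hu hu' => by rw [mem_Ico] at hu hu'; omega)]
        refine sum_le_sum_of_subset fun u hu => ?_
        rcases mem_union.1 hu with hu | hu <;> rw [mem_Ico] at hu ⊢ <;> omega
      have h12 : ∑ u ∈ Ico c.s c.i, dep u c.q ω ≤ ∑ u ∈ Ico c.a c.j, dep u c.q ω :=
        sum_le_sum_of_subset (Ico_subset_Ico h2 h3')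
      have h13 := hst c.p h6
      have h14 := hst c.q h7
      rw [e1, e2]
      omega

end RJ

/-! ### The exposed own slabs -/

section Exposed

variable {σ : Type*} {R : RJ σ}

/-- The exposed scales of a step. -/
def Ex (C1 D : ℕ) (d : SJ σ) : Finset ℕ :=
  Ico (d.s - C1) d.s ∪ (Ico d.a (d.a + C1) ∪ (Ico d.s (d.s + C1) ∪ (Ico (d.i - (C1 + (d.j - d.i) / D)) d.i ∪
    (Ico d.i (d.i + (C1 + (d.j - d.i) / D)) ∪ Ico (d.j - C1) d.j))))

theorem card_Ex (C1 D : ℕ) (d : SJ σ) : (Ex C1 D d).card ≤ 6 * C1 + 2 * ((d.j - d.i) / D) := by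
  unfold Ex
  have h0 := card_union_le (Ico (d.s - C1) d.s) (Ico d.a (d.a + C1) ∪ (Ico d.s (d.s + C1) ∪
    (Ico (d.i - (C1 + (d.j - d.i) / D)) d.i ∪ (Ico d.i (d.i + (C1 + (d.j - d.i) / D)) ∪ Ico (d.j - C1) d.j))))
  have h1 := card_union_le (Ico d.a (d.a + C1)) (Ico d.s (d.s + C1) ∪ (Ico (d.i - (C1 + (d.j - d.i) / D)) d.i ∪
    (Ico d.i (d.i + (C1 + (d.j - d.i) / D)) ∪ Ico (d.j - C1) d.j)))
  have h2 := card_union_le (Ico d.s (d.s + C1)) (Ico (d.i - (C1 + (d.j - d.i) / D)) d.i ∪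
    (Ico d.i (d.i + (C1 + (d.j - d.i) / D)) ∪ Ico (d.j - C1) d.j))
  have h3 := card_union_le (Ico (d.i - (C1 + (d.j - d.i) / D)) d.i)
    (Ico d.i (d.i + (C1 + (d.j - d.i) / D)) ∪ Ico (d.j - C1) d.j)
  have h4 := card_union_le (Ico d.i (d.i + (C1 + (d.j - d.i) / D))) (Ico (d.j - C1) d.j)
  simp only [Nat.card_Ico] at h0 h1 h2 h3 h4
  omega

/-- The exposed scales of a chain. -/
def ExL (C1 D : ℕ) : List (SJ σ) → Finset ℕ
  | [] => ∅
  | d :: l => Ex C1 D d ∪ ExL C1 D l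

theorem mem_ExL {C1 D : ℕ} {l : List (SJ σ)} {d : SJ σ} (hd : d ∈ l) {u : ℕ} (hu : u ∈ Ex C1 D d) : u ∈ ExL C1 D l := by
  induction l with
  | nil => exact absurd hd (by simp)
  | cons e l ih =>
    rcases List.mem_cons.1 hd with rfl | hd
    · exact mem_union_left _ hu
    · exact mem_union_right _ (ih hd)

theorem card_ExL {C1 D : ℕ} {x : σ} {τ : ℕ} {l : List (SJ σ)} (hg : 1 ≤ R.g) (hl : R.IsC x τ l) (hτ : τ ≤ R.m + R.g) :
    (ExL C1 D l).card ≤ 6 * C1 * l.length + 2 * ((R.m + R.g - τ) / D) := by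
  induction l generalizing x τ with
  | nil => exact Nat.zero_le _
  | cons c l ih =>
    obtain ⟨⟨h1, h2, h3, h3', h4, h5, -⟩, h6⟩ := hl
    have h7 := ih h6 (by omega)
    have h8 := card_Ex C1 D c
    have h9 : (ExL C1 D (c :: l)).card ≤ (Ex C1 D c).card + (ExL C1 D l).card := card_union_le _ _
    have h10 : (c.j - c.i) / D + (R.m + R.g - (c.j + R.g)) / D ≤ (R.m + R.g - τ) / D :=
      Nat.div_add_div_le_add_div.trans (Nat.div_le_div_right (by omega))
    rw [List.length_cons, Nat.mul_succ]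
    omega

/-- The own scales of a chain are distinct. -/
theorem nm_le_sumJ {Ω : Type*} {dep : ℕ → σ → Ω → ℕ} {ω : Ω} {f : ℕ → ℕ} (hg : 1 ≤ R.g) {x : σ} {τ : ℕ}
    {l : List (SJ σ)} (hl : R.IsC x τ l) (h : ∀ c ∈ l, ∀ u ρ, RJ.Own R.m3 c u ρ → dep u ρ ω ≤ f u) :
    R.nm dep l ω ≤ ∑ u ∈ Ico τ R.m, f u := by
  induction l generalizing x τ with
  | nil => exact Nat.zero_le _
  | cons c l ih =>
    obtain ⟨⟨h1, h2, h3, h3', h4, h5, -⟩, h6⟩ := hl
    rw [RJ.nm_cons]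
    have h7 := h c (List.mem_cons_self ..)
    have h8 := ih h6 fun d hd => h d (List.mem_cons_of_mem _ hd)
    have a1 : ∑ u ∈ Ico c.a c.s, dep u c.p ω ≤ ∑ u ∈ Ico c.a c.s, f u :=
      sum_le_sum fun u hu => h7 u _ (Or.inl ⟨rfl, (mem_Ico.1 hu).1, (mem_Ico.1 hu).2⟩)
    have a2 : ∑ u ∈ Ico c.s c.i, dep u c.q ω ≤ ∑ u ∈ Ico c.s c.i, f u :=
      sum_le_sum fun u hu => h7 u _ (Or.inr (Or.inl ⟨rfl, (mem_Ico.1 hu).1, (mem_Ico.1 hu).2⟩))
    have a3 : ∑ u ∈ Ico (c.i + R.m3) c.j, dep u c.p ω ≤ ∑ u ∈ Ico (c.i + R.m3) c.j, f u :=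
      sum_le_sum fun u hu => h7 u _ (Or.inr (Or.inr ⟨rfl, (mem_Ico.1 hu).1, (mem_Ico.1 hu).2⟩))
    have a4 : ∑ u ∈ Ico c.a c.s, f u + ∑ u ∈ Ico c.s c.i, f u = ∑ u ∈ Ico c.a c.i, f u :=
      sum_Ico_consecutive f h2 h3.le
    have a5 : ∑ u ∈ Ico c.a c.i, f u + ∑ u ∈ Ico (c.i + R.m3) c.j, f u ≤ ∑ u ∈ Ico c.a c.j, f u := by
      rw [← sum_union (disjoint_left.2 fun u hu hu' => by rw [mem_Ico] at hu hu'; omega)]
      refine sum_le_sum_of_subset fun u hu => ?_
      rcases mem_union.1 hu with hu | hu <;> rw [mem_Ico] at hu ⊢ <;> omega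
    have a6 : ∑ u ∈ Ico c.a c.j, f u + ∑ u ∈ Ico (c.j + R.g) R.m, f u ≤ ∑ u ∈ Ico τ R.m, f u := by
      rw [← sum_union (disjoint_left.2 fun u hu hu' => by rw [mem_Ico] at hu hu'; omega)]
      refine sum_le_sum_of_subset fun u hu => ?_
      rcases mem_union.1 hu with hu | hu <;> rw [mem_Ico] at hu ⊢ <;> omega
    have e1 : R.dst dep c ω = ∑ u ∈ Ico c.a c.s, dep u c.p ω + ∑ u ∈ Ico c.s c.i, dep u c.q ω +
        ∑ u ∈ Ico (c.i + R.m3) c.j, dep u c.p ω := rfl
    rw [e1]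
    omega

end Exposed

/-! ### Not felt -/

section NotFelt

variable {Λ : Type*}

/-- No layer is felt. -/
def NFL (dpL : Cut Λ → Cut Λ → Env → ℕ) (scL : Cut Λ → Cut Λ → ℕ) (Z : List (Cut Λ)) (u : ℕ) (η : Env) : Prop :=
  ∀ P a b Q, Z = P ++ a :: b :: Q → ¬ Felt (scL a b) (dpL a b η) u

/-- No node is felt. -/
def NFN (dpN : Cut Λ → Cut Λ → Cut Λ → Env → ℕ) (scN : Cut Λ → Cut Λ → Cut Λ → ℕ) (Z : List (Cut Λ)) (u : ℕ) (η : Env) : Prop :=
  ∀ P a b e Q, Z = P ++ a :: b :: e :: Q → ¬ Felt (scN a b e) (dpN a b e η) u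

theorem getD_split2 [Inhabited Λ] {P Q : List (Cut Λ)} {a b : Cut Λ} :
    (P ++ a :: b :: Q).getD P.length d0 = a ∧ (P ++ a :: b :: Q).getD (P.length + 1) d0 = b := by
  constructor
  · rw [List.getD_append_right _ _ _ _ le_rfl, Nat.sub_self, List.getD_cons_zero]
  · rw [List.getD_append_right _ _ _ _ (Nat.le_succ _), show P.length + 1 - P.length = 0 + 1 by omega, List.getD_cons_succ,
      List.getD_cons_zero]

theorem getD_split3 [Inhabited Λ] {P Q : List (Cut Λ)} {a b e : Cut Λ} :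
    (P ++ a :: b :: e :: Q).getD (P.length + 2) d0 = e := by
  rw [List.getD_append_right _ _ _ _ (by omega), show P.length + 2 - P.length = 0 + 1 + 1 by omega, List.getD_cons_succ,
      List.getD_cons_succ, List.getD_cons_zero]

end NotFelt

/-! ### Count -/

section Cnt

variable {σ : Type*} {R : RJ σ} {Λ : Type*} [Inhabited Λ]

/-- **COUNT.** -/
theorem countJ {T : ℕ → σ → Set Env} {η : Env} {C1 D : ℕ} (hg : 1 ≤ R.g) {x : σ} {l : List (SJ σ)} (hl : R.IsC x 0 l)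
    (Z : List (Cut Λ)) (dpL : Cut Λ → Cut Λ → Env → ℕ) (dpN : Cut Λ → Cut Λ → Cut Λ → Env → ℕ)
    (scL : Cut Λ → Cut Λ → ℕ) (scN : Cut Λ → Cut Λ → Cut Λ → ℕ)
    (hT : ∀ c ∈ l, ∀ u ρ, RJ.Own R.m3 c u ρ → u ∉ ExL C1 D l → NFL dpL scL Z u η → NFN dpN scN Z u η → η ∈ T u ρ) :
    R.nm (Rl.dpT T) l η ≤ 6 * C1 * l.length + 2 * ((R.m + R.g) / D) + 3 * (SL dpL Z η + SN dpN Z η) := by
  set fL : ℕ → ℕ := fun u => ∑ k ∈ range (Z.length - 1),
    (if Felt (scL (Z.getD k d0) (Z.getD (k + 1) d0)) (dpL (Z.getD k d0) (Z.getD (k + 1) d0) η) u then 1 else 0) with hfL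
  set fN : ℕ → ℕ := fun u => ∑ k ∈ range (Z.length - 2),
    (if Felt (scN (Z.getD k d0) (Z.getD (k + 1) d0) (Z.getD (k + 2) d0))
      (dpN (Z.getD k d0) (Z.getD (k + 1) d0) (Z.getD (k + 2) d0) η) u then 1 else 0) with hfN
  have h1 : ∀ c ∈ l, ∀ u ρ, RJ.Own R.m3 c u ρ → Rl.dpT T u ρ η ≤ (if u ∈ ExL C1 D l then 1 else 0) + (fL u + fN u) := by
    intro c hc u ρ ho
    by_cases h3 : u ∈ ExL C1 D l
    · rw [if_pos h3]
      have : Rl.dpT T u ρ η ≤ 1 := by unfold Rl.dpT; split_ifs <;> omega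
      omega
    · rw [if_neg h3]
      by_cases h4 : η ∈ T u ρ
      · have : Rl.dpT T u ρ η = 0 := if_pos h4
        omega
      · have h5 : Rl.dpT T u ρ η = 1 := if_neg h4
        rw [h5]
        by_contra hcon
        have hL0 : fL u = 0 := by omega
        have hN0 : fN u = 0 := by omega
        refine h4 (hT c hc u ρ ho h3 (fun P a b Q e hF => ?_) fun P a b d Q e hF => ?_)
        · have h6 : ∀ k ∈ range (Z.length - 1), (if Felt (scL (Z.getD k d0) (Z.getD (k + 1) d0))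
              (dpL (Z.getD k d0) (Z.getD (k + 1) d0) η) u then 1 else 0) = 0 := Finset.sum_eq_zero_iff.1 hL0
          have hlen : Z.length = P.length + (Q.length + 2) := by rw [e]; simp
          have h7 := h6 P.length (mem_range.2 (by omega))
          rw [e, getD_split2.1, getD_split2.2, if_pos hF] at h7
          omega
        · have h6 : ∀ k ∈ range (Z.length - 2), (if Felt (scN (Z.getD k d0) (Z.getD (k + 1) d0) (Z.getD (k + 2) d0))
              (dpN (Z.getD k d0) (Z.getD (k + 1) d0) (Z.getD (k + 2) d0) η) u then 1 else 0) = 0 :=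
            Finset.sum_eq_zero_iff.1 hN0
          have hlen : Z.length = P.length + (Q.length + 3) := by rw [e]; simp
          have h7 := h6 P.length (mem_range.2 (by omega))
          rw [e, getD_split2.1, getD_split2.2, getD_split3, if_pos hF] at h7
          omega
  refine (nm_le_sumJ hg hl h1).trans ?_
  have hLs : ∑ u ∈ Ico 0 R.m, fL u ≤ 3 * SL dpL Z η := by
    rw [hfL, sum_comm]
    unfold SL
    rw [mul_sum]
    exact sum_le_sum fun k _ => sum_felt _ _ _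
  have hNs : ∑ u ∈ Ico 0 R.m, fN u ≤ 3 * SN dpN Z η := by
    rw [hfN, sum_comm]
    unfold SN
    rw [mul_sum]
    exact sum_le_sum fun k _ => sum_felt _ _ _
  have hEs : ∑ u ∈ Ico 0 R.m, (if u ∈ ExL C1 D l then 1 else 0) ≤ 6 * C1 * l.length + 2 * ((R.m + R.g) / D) := by
    rw [← card_filter]
    refine (card_le_card (t := ExL C1 D l) fun u hu => (mem_filter.1 hu).2).trans ?_
    have := card_ExL (C1 := C1) (D := D) hg hl (Nat.zero_le _)
    simpa using this
  rw [sum_add_distrib, sum_add_distrib]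
  omega

end Cnt

/-! ### The exceptional rows -/

section Sw

variable {Λ : Type*} [Inhabited Λ]

/-- A row of `S` is between two cuts. -/
def HasSw (S : Finset ℤ) (a b : Cut Λ) : Prop := ∃ r ∈ S, a.row < r ∧ r ≤ b.row

/-- At most one layer contains a given row. -/
theorem SL_sw {Z : List (Cut Λ)} (hZ : Z.Pairwise fun c d => c.row ≤ d.row) (S : Finset ℤ) {dpL : Cut Λ → Cut Λ → Env → ℕ}
    {η : Env} {E0 : ℕ} (hE : ∀ a b, HasSw S a b → dpL a b η ≤ E0) :
    SL dpL Z η ≤ SL (fun a b η => if HasSw S a b then 0 else dpL a b η) Z η + S.card * E0 := by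
  have h1 : ∀ k ∈ range (Z.length - 1), dpL (Z.getD k d0) (Z.getD (k + 1) d0) η ≤
      (if HasSw S (Z.getD k d0) (Z.getD (k + 1) d0) then 0 else dpL (Z.getD k d0) (Z.getD (k + 1) d0) η) +
        ∑ r ∈ S, (if (Z.getD k d0).row < r ∧ r ≤ (Z.getD (k + 1) d0).row then E0 else 0) := by
    intro k hk
    by_cases hs : HasSw S (Z.getD k d0) (Z.getD (k + 1) d0)
    · rw [if_pos hs, zero_add]
      obtain ⟨r, hr, h2⟩ := hs
      refine (hE _ _ ⟨r, hr, h2⟩).trans ?_
      refine le_trans (le_of_eq ?_) (single_le_sum (f := fun r =>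
        if (Z.getD k d0).row < r ∧ r ≤ (Z.getD (k + 1) d0).row then E0 else 0) (fun _ _ => Nat.zero_le _) hr)
      show E0 = if _ then E0 else 0
      rw [if_pos h2]
    · rw [if_neg hs]
      exact Nat.le_add_right _ _
  unfold SL
  refine (sum_le_sum h1).trans ?_
  rw [sum_add_distrib]
  refine Nat.add_le_add_left ?_ _
  rw [sum_comm]
  refine (sum_le_card_nsmul S _ E0 fun r _ => ?_).trans (le_of_eq (smul_eq_mul _ _))
  rw [← sum_filter, sum_const, smul_eq_mul]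
  refine (Nat.mul_le_mul_right E0 (?_ : _ ≤ 1)).trans (le_of_eq (one_mul _))
  refine card_le_one.2 fun k hk k' hk' => ?_
  obtain ⟨hk1, hk2⟩ := mem_filter.1 hk
  obtain ⟨hk1', hk2'⟩ := mem_filter.1 hk'
  rw [mem_range] at hk1 hk1'
  by_contra hne
  rcases Nat.lt_or_gt_of_ne hne with hlt | hlt
  · have := getD_mono hZ (i := k + 1) (j := k') hlt (by omega)
    omega
  · have := getD_mono hZ (i := k' + 1) (j := k) hlt (by omega)
    omega

/-- At most two nodes contain a given row. -/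
theorem SN_sw {Z : List (Cut Λ)} (hZ : Z.Pairwise fun c d => c.row ≤ d.row) (S : Finset ℤ)
    {dpN : Cut Λ → Cut Λ → Cut Λ → Env → ℕ} {η : Env} {E0 : ℕ} (hE : ∀ a b e, HasSw S a e → dpN a b e η ≤ E0) :
    SN dpN Z η ≤ SN (fun a b e η => if HasSw S a e then 0 else dpN a b e η) Z η + 2 * (S.card * E0) := by
  have h1 : ∀ k ∈ range (Z.length - 2), dpN (Z.getD k d0) (Z.getD (k + 1) d0) (Z.getD (k + 2) d0) η ≤
      (if HasSw S (Z.getD k d0) (Z.getD (k + 2) d0) then 0 else dpN (Z.getD k d0) (Z.getD (k + 1) d0) (Z.getD (k + 2) d0) η) +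
        ∑ r ∈ S, (if (Z.getD k d0).row < r ∧ r ≤ (Z.getD (k + 2) d0).row then E0 else 0) := by
    intro k hk
    by_cases hs : HasSw S (Z.getD k d0) (Z.getD (k + 2) d0)
    · rw [if_pos hs, zero_add]
      obtain ⟨r, hr, h2⟩ := hs
      refine (hE _ _ _ ⟨r, hr, h2⟩).trans ?_
      refine le_trans (le_of_eq ?_) (single_le_sum (f := fun r =>
        if (Z.getD k d0).row < r ∧ r ≤ (Z.getD (k + 2) d0).row then E0 else 0) (fun _ _ => Nat.zero_le _) hr)
      show E0 = if _ then E0 else 0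
      rw [if_pos h2]
    · rw [if_neg hs]
      exact Nat.le_add_right _ _
  unfold SN
  refine (sum_le_sum h1).trans ?_
  rw [sum_add_distrib]
  refine Nat.add_le_add_left ?_ _
  rw [sum_comm]
  have h2 : ∀ r ∈ S, ∑ k ∈ range (Z.length - 2), (if (Z.getD k d0).row < r ∧ r ≤ (Z.getD (k + 2) d0).row then E0 else 0) ≤
      2 * E0 := by
    intro r _
    rw [← sum_filter, sum_const, smul_eq_mul]
    refine Nat.mul_le_mul_right _ ?_
    -- all such `k` are within `1` of each other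
    set F := (range (Z.length - 2)).filter fun k => (Z.getD k d0).row < r ∧ r ≤ (Z.getD (k + 2) d0).row with hF
    rcases F.eq_empty_or_nonempty with he | hne
    · rw [he]; exact Nat.zero_le _
    · obtain ⟨k0, hk0, hmin⟩ := exists_min_image F id hne
      refine (card_le_card (t := {k0, k0 + 1}) fun k hk => ?_).trans (card_le_two)
      have h3 : k0 ≤ k := hmin k hk
      obtain ⟨hk1, hk2⟩ := mem_filter.1 hk
      obtain ⟨hk1', hk2'⟩ := mem_filter.1 hk0
      rw [mem_range] at hk1 hk1'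
      rw [mem_insert, mem_singleton]
      by_contra hcon
      push Not at hcon
      have := getD_mono hZ (i := k0 + 2) (j := k) (by omega) (by omega)
      omega
  refine (sum_le_card_nsmul S _ (2 * E0) h2).trans (le_of_eq ?_)
  rw [smul_eq_mul]
  ring

end Sw

end

end Pool.Agent.W_7d29a1_C1.H40
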