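import Pool.Agent.W_7d29a1_C1.ChnL40

/-!
MP_7d29a1_pr, the attractor route: TWO INDEX CHAINS: what the analysis sees of an own slab (`OD`): bottom, clean cuts, block, tower.
(helper40)
-/

set_option autoImplicit false

namespace Pool.Agent.W_7d29a1_C1.H40

open MeasureTheory ProbabilityTheory Finset
open Pool.Agent.W_7d29a1_F Pool.Agent.W_7d29a1_C1.S71
open scoped ENNReal Classical

noncomputable section

variable {σ Λ : Type*} {G : Geo σ Λ} {R : RJ σ}

/-! ### Bounds of the cuts above a centre -/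

/-- The row of the cut `d` is at the distance `T v` of the centre, up to constants. -/
def RB (G : Geo σ Λ) (ρ : σ) (v : ℕ) (d : Cut Λ) : Prop :=
  (G.T v : ℤ) ≤ 2 * (d.row - G.row ρ) ∧ d.row - G.row ρ ≤ 4 * G.T v

/-- Successive scales from `v` on, rows and lateral bounds. -/
def TB (G : Geo σ Λ) (lat : σ → ℝ) (latC : Cut Λ → ℝ) (ρ : σ) (B : ℕ → ℝ) : ℕ → List (Cut Λ) → Prop
  | _, [] => True
  | v, d :: Z => d.sc = v ∧ RB G ρ v d ∧ |latC d - lat ρ| ≤ B v ∧ TB G lat latC ρ B (v + 1) Z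

variable {lat : σ → ℝ} {latC : Cut Λ → ℝ} {w : ℕ → ℝ}

theorem TB.append {ρ : σ} {B : ℕ → ℝ} {v : ℕ} {Z Z' : List (Cut Λ)} (h : TB G lat latC ρ B v Z)
    (h' : TB G lat latC ρ B (v + Z.length) Z') : TB G lat latC ρ B v (Z ++ Z') := by
  induction Z generalizing v with
  | nil => simpa using h'
  | cons d Z ih =>
    refine ⟨h.1, h.2.1, h.2.2.1, ih h.2.2.2 ?_⟩
    rwa [List.length_cons, show v + (Z.length + 1) = v + 1 + Z.length by ring] at h'

theorem ct_RB {ρ y : σ} {v : ℕ} (h1 : -(G.T v : ℤ) ≤ 2 * (G.row y - G.row ρ)) (h2 : G.row y - G.row ρ ≤ 2 * G.T v) :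
    RB G ρ v (G.ct v y) := by
  have h3 := G.lt_tr v (G.row y)
  have h4 := G.tr_le v (G.row y)
  have h5 : (G.T (v - 2) : ℤ) ≤ G.T v := by exact_mod_cast G.T_mono (by omega)
  exact ⟨(show (G.T v : ℤ) ≤ 2 * (G.tr v (G.row y) - G.row ρ) by linarith),
    (show G.tr v (G.row y) - G.row ρ ≤ 4 * G.T v by linarith)⟩

theorem TB.up {ρ y : σ} {B : ℕ → ℝ} {a n : ℕ}
    (h : ∀ v, a ≤ v → v < a + n → RB G ρ v (G.ct v y) ∧ |latC (G.ct v y) - lat ρ| ≤ B v) :
    TB G lat latC ρ B a (G.up y a n) := by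
  induction n generalizing a with
  | zero => trivial
  | succ n ih =>
    rw [Geo.up_succ]
    obtain ⟨h1, h2⟩ := h a le_rfl (by omega)
    exact ⟨rfl, h1, h2, ih fun v hv hv' => h v (by omega) (by omega)⟩

/-- The lateral geometry. -/
structure LatJ (G : Geo σ Λ) (R : RJ σ) (lat : σ → ℝ) (latC : Cut Λ → ℝ) (w : ℕ → ℝ) (kn kb : ℝ) : Prop where
  w_nonneg : ∀ u, 0 ≤ w u
  w_two : ∀ u, 2 * w u ≤ w (u + 1)
  kn_nonneg : 0 ≤ kn
  kb_nonneg : 0 ≤ kb
  mvl : ∀ i j x p, R.Mv i j x p → |lat x - lat p| ≤ kn * w (j + 1)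
  drl : ∀ s p q, R.Dr s p q → |lat p - lat q| ≤ kb * w s
  ctl : ∀ v y, |latC (G.ct v y) - lat y| ≤ w v
  btl : ∀ v y, |latC (G.bt v y) - lat y| ≤ w v

namespace LatJ

variable {kn kb : ℝ}

theorem mono (h : LatJ G R lat latC w kn kb) : Monotone w :=
  monotone_nat_of_le_succ fun u => by have := h.w_nonneg u; have := h.w_two u; linarith

theorem two (h : LatJ G R lat latC w kn kb) {u v : ℕ} (huv : u < v) : 2 * w u ≤ w v :=
  (h.w_two u).trans (h.mono huv)

theorem four (h : LatJ G R lat latC w kn kb) {u v : ℕ} (huv : u + 2 ≤ v) : 4 * w u ≤ w v := by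
  have h1 := h.w_two u
  have h2 := h.w_two (u + 1)
  have h3 := h.mono huv
  linarith

end LatJ

/-- `a - b` through a middle term. -/
theorem abs3 {a b c : ℝ} {x y : ℝ} (h1 : |a - b| ≤ x) (h2 : |b - c| ≤ y) : |a - c| ≤ x + y :=
  (abs_sub_le a b c).trans (add_le_add h1 h2)

/-- The distance of the next centre. -/
theorem nxc_lat {kn kb : ℝ} (hl : LatJ G R lat latC w kn kb) {x : σ} {τ : ℕ} {c : SJ σ} (hc : R.Ok x τ c) (hk : c.k ≠ Kd.stay) :
    |lat c.p - lat (RJ.nxc x c)| ≤ (kn + kb) * w (c.j + 1) ∧ |lat x - lat (RJ.nxc x c)| ≤ (kn + kb) * w (c.j + 1) ∧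
      |lat c.q - lat (RJ.nxc x c)| ≤ (kn + kb) * w (c.j + 1) ∧ |lat x - lat c.p| ≤ kn * w (c.j + 1) ∧
      |lat c.p - lat c.q| ≤ kb * w c.s ∧ |lat x - lat c.q| ≤ (kn + kb) * w (c.j + 1) := by
  obtain ⟨h1, h2, h3, h3', h4, h5, h6, h7, h8, h9⟩ := hc
  obtain ⟨hm, hd⟩ := h9 hk
  have m1 := hl.mvl _ _ _ _ hm
  have m2 := hl.drl _ _ _ hd
  have w1 : w c.s ≤ w (c.j + 1) := hl.mono (by omega)
  have w0 := hl.w_nonneg (c.j + 1)
  have m3 : |lat c.p - lat c.q| ≤ kb * w (c.j + 1) := m2.trans (mul_le_mul_of_nonneg_left w1 hl.kb_nonneg)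
  have k1 : 0 ≤ kn * w (c.j + 1) := mul_nonneg hl.kn_nonneg w0
  have k2 : 0 ≤ kb * w (c.j + 1) := mul_nonneg hl.kb_nonneg w0
  have m4 := abs3 m1 m3
  have m1' : |lat c.p - lat x| ≤ kn * w (c.j + 1) := by rwa [abs_sub_comm]
  have m3' : |lat c.q - lat c.p| ≤ kb * w (c.j + 1) := by rwa [abs_sub_comm]
  have m5 := abs3 m3' m1'
  by_cases hmv : c.k = Kd.move
  · have e : RJ.nxc x c = c.q := if_pos hmv
    rw [e]
    refine ⟨by linarith, by linarith, ?_, m1, m2, by linarith⟩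
    rw [sub_self, abs_zero]
    linarith
  · have e : RJ.nxc x c = x := if_neg hmv
    rw [e]
    refine ⟨by linarith, ?_, by linarith, m1, m2, by linarith⟩
    rw [sub_self, abs_zero]
    linarith

/-- The rows of the next centre. -/
theorem nxc_row (h : GRJ G R) {x : σ} {τ : ℕ} {c : SJ σ} (hc : R.Ok x τ c) (hk : c.k ≠ Kd.stay) :
    (G.row c.p ≤ G.row x ∧ G.row x ≤ G.row c.p + 2 * G.T (c.i + 1)) ∧
      (G.row c.p - G.T (c.s - 2) ≤ G.row c.q ∧ G.row c.q ≤ G.row c.p + 2 * G.T c.s ∧ G.row c.q ≤ G.row x) ∧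
      (G.row c.p - G.T (c.s - 2) ≤ G.row (RJ.nxc x c) ∧ G.row (RJ.nxc x c) ≤ G.row x) ∧
      (G.row c.q ≤ G.row (RJ.nxc x c)) ∧ G.dn c.s (G.row c.p) ≤ G.row c.q := by
  obtain ⟨h1, h2, h3, h3', h4, h5, h6, h7, h8, h9⟩ := hc
  obtain ⟨hm, hd⟩ := h9 hk
  obtain ⟨m1, m2⟩ := h.mv _ _ _ _ hm
  obtain ⟨d1, d2⟩ := h.dr _ _ _ hd
  have t1 : (0 : ℤ) ≤ G.T c.i := by positivity
  have t2a : (8 * G.T c.s : ℤ) ≤ G.T (c.s + 1) := by exact_mod_cast G.T_succ c.s
  have t2b : (G.T (c.s + 1) : ℤ) ≤ G.T c.i := by exact_mod_cast G.T_mono (show c.s + 1 ≤ c.i by omega)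
  have t2 : (8 * G.T c.s : ℤ) ≤ G.T c.i := t2a.trans t2b
  have t3 : (0 : ℤ) ≤ G.T c.s := by positivity
  have b4 := lt_nxt (G.T_pos (c.s - 2)) (G.row c.p)
  have b5 := nxt_le (G.T_pos (c.s - 2)) (G.row c.q)
  have b6 : G.row c.p - G.T (c.s - 2) ≤ G.row c.q := by unfold Geo.rc at d1; linarith
  have b7 : G.dn c.s (G.row c.p) ≤ G.row c.q := by
    have := G.dn_le c.s (G.row c.q)
    unfold Geo.dn at this ⊢
    linarith
  have b8 : G.row c.q ≤ G.row x := by linarith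
  refine ⟨⟨by linarith, by linarith⟩, ⟨b6, d2, b8⟩, ?_, ?_, b7⟩
  · unfold RJ.nxc
    split_ifs
    · exact ⟨b6, b8⟩
    · exact ⟨by linarith [show (0 : ℤ) ≤ G.T (c.s - 2) by positivity], le_rfl⟩
  · unfold RJ.nxc
    split_ifs
    · exact le_rfl
    · exact b8

/-! ### The tower -/

/-- `B` of the tower. -/
def BT (w : ℕ → ℝ) (C0 : ℝ) (D u : ℕ) (v : ℕ) : ℝ := C0 * w (v + D * (v - u))

/-- The arithmetic of the exposed scales. -/
theorem exp_arith {C1 D u i j v : ℕ} (hD : 1 ≤ D) (h : u + C1 + (j - i) / D < i) (hC : 2 ≤ C1) (hij : i ≤ j) (hv : i ≤ v + 1) :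
    j + 1 ≤ v + D * (v - u) := by
  have h0 := Nat.zero_le ((j - i) / D)
  have h1 : (j - i) / D < i - u - C1 := by omega
  rw [Nat.div_lt_iff_lt_mul (by omega)] at h1
  have h2 : (i - u - C1) * D ≤ D * (v - u) - D := by
    have h3 : i - u - C1 ≤ v - u - 1 := by omega
    calc (i - u - C1) * D ≤ (v - u - 1) * D := Nat.mul_le_mul_right _ h3
      _ = D * (v - u) - D := by rw [Nat.sub_mul, mul_comm, one_mul]
  have h4 : D ≤ D * (v - u) := Nat.le_mul_of_pos_right _ (by omega)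
  omega

/-- The arithmetic of the exposed scales, other side. -/
theorem exp_arith' {C1 D u i j : ℕ} (hD : 1 ≤ D) (h : i + (C1 + (j - i) / D) ≤ u) (hC : 3 ≤ C1) (hij : i ≤ j) :
    j + 1 ≤ i + 2 + D * (u - (i + 2)) := by
  have h0 := Nat.zero_le ((j - i) / D)
  have h1 : (j - i) / D < u - i - C1 + 1 := by omega
  rw [Nat.div_lt_iff_lt_mul (by omega)] at h1
  have h2 : (u - i - C1 + 1) * D ≤ D * (u - (i + 2)) := by
    rw [mul_comm]
    exact Nat.mul_le_mul_left _ (by omega)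
  omega

/-- Not exposed, from below. -/
theorem not_Ex {C1 D u : ℕ} {d : SJ σ} (h : u ∉ Ex C1 D d) (hu : u < d.i) : u + C1 + (d.j - d.i) / D < d.i := by
  unfold Ex at h
  simp only [mem_union, mem_Ico, not_or] at h
  omega

/-- **The tower above a centre.** -/
theorem tower {kn kb C0 : ℝ} {C1 D : ℕ} (h : GRJ G R) (hl : LatJ G R lat latC w kn kb) (hC0 : 4 * (kn + kb + 1) ≤ C0)
    (hD : 1 ≤ D) (hC1 : 2 ≤ C1) {ρ : σ} {u : ℕ} {y : σ} {τ : ℕ} (hτ : τ ≤ G.m + 1) (huτ : u < τ) (hy1 : |lat y - lat ρ| ≤ (kn + kb + 1) * w (τ - 1))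
    (hy2 : -(G.T (τ - 1) : ℤ) ≤ 2 * (G.row y - G.row ρ)) (hy3 : 2 * (G.row y - G.row ρ) ≤ G.T (τ - 1))
    {L : List (Cut Λ)} {l : List (SJ σ)} (hc : R.IsC y τ l) (hex : ∀ d ∈ l, u ∉ Ex C1 D d) :
    ∃ P Tw, cutJ G R y τ L l = P ++ (L ++ Tw) ∧ TB G lat latC ρ (BT w C0 D u) τ Tw ∧ τ + Tw.length = G.m + 1 := by
  have hg := h.g_ge
  have hml := h.m_le
  have hkn := hl.kn_nonneg
  have hkb := hl.kb_nonneg
  have hmono := hl.mono
  -- `w v ≤ B v / (4 Ck)`
  have hB : ∀ v v' : ℕ, v' ≤ v + D * (v - u) → 4 * (kn + kb + 1) * w v' ≤ BT w C0 D u v := by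
    intro v v' hv
    exact mul_le_mul hC0 (hmono hv) (hl.w_nonneg _) (by linarith)
  induction l generalizing y τ L with
  | nil =>
    refine ⟨[], G.up y τ (G.m + 1 - τ), rfl, TB.up fun v hv _ => ⟨ct_RB ?_ ?_, ?_⟩, ?_⟩
    · have : (G.T (τ - 1) : ℤ) ≤ G.T v := by exact_mod_cast G.T_mono (by omega)
      linarith
    · have h1 : (G.T (τ - 1) : ℤ) ≤ G.T v := by exact_mod_cast G.T_mono (by omega)
      have h2 : (0 : ℤ) ≤ G.T v := by positivity
      linarith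
    · have h1 := abs3 (hl.ctl v y) hy1
      have h2 := hB v v (Nat.le_add_right _ _)
      have h3 : w (τ - 1) ≤ w v := hmono (by omega)
      have h4 := mul_le_mul_of_nonneg_left h3 (show 0 ≤ kn + kb + 1 by linarith)
      have h5 := hl.w_nonneg v
      have h6 := mul_nonneg hkn h5
      have h7 := mul_nonneg hkb h5
      refine h1.trans (le_trans ?_ h2)
      linarith
    · rw [Geo.up_length]
      omega
  | cons c l ih =>
    obtain ⟨hok, hcl⟩ := hc
    have hok' := hok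
    obtain ⟨h1, h2, h3, h3', h4, h5, h6, h7, h8, h9⟩ := hok'
    have hexl : ∀ d ∈ l, u ∉ Ex C1 D d := fun d hd => hex d (List.mem_cons_of_mem _ hd)
    have tt : (G.T (τ - 1) : ℤ) ≤ G.T (c.j + R.g - 1) := by exact_mod_cast G.T_mono (by omega)
    -- the cuts of `y` itself
    have hyup : ∀ v, τ ≤ v → RB G ρ v (G.ct v y) ∧ |latC (G.ct v y) - lat ρ| ≤ BT w C0 D u v := by
      intro v hv
      have t1 : (G.T (τ - 1) : ℤ) ≤ G.T v := by exact_mod_cast G.T_mono (by omega)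
      have t2 : (0 : ℤ) ≤ G.T v := by positivity
      refine ⟨ct_RB (by linarith) (by linarith), ?_⟩
      have h1 := abs3 (hl.ctl v y) hy1
      have h2 := hB v v (Nat.le_add_right _ _)
      have h3 : w (τ - 1) ≤ w v := hmono (by omega)
      have h4 := mul_le_mul_of_nonneg_left h3 (show 0 ≤ kn + kb + 1 by linarith)
      have h5 := hl.w_nonneg v
      have h6 := mul_nonneg hkn h5
      have h7 := mul_nonneg hkb h5
      refine h1.trans (le_trans ?_ h2)
      linarith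
    by_cases hk : c.k = Kd.stay
    · have e2 : RJ.nxc y c = y := if_neg (by rw [hk]; decide)
      have h10 : |lat y - lat ρ| ≤ (kn + kb + 1) * w (c.j + R.g - 1) :=
        hy1.trans (mul_le_mul_of_nonneg_left (hmono (by omega)) (by linarith))
      rw [e2] at hcl
      obtain ⟨P, Tw, e, h11, h12⟩ := ih (L := stepJ G R y τ L c) (by omega) (by omega) h10 (by linarith) (by linarith) hcl hexl
      refine ⟨P, G.up y τ (c.j + R.g - τ) ++ Tw, ?_, ?_, ?_⟩
      · show cutJ G R (RJ.nxc y c) (c.j + R.g) (stepJ G R y τ L c) l = _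
        rw [e2, e, stepJ_stay hk]
        simp only [List.append_assoc]
      · refine (TB.up fun v hv _ => hyup v hv).append ?_
        rwa [Geo.up_length, show τ + (c.j + R.g - τ) = c.j + R.g by omega]
      · rw [List.length_append, Geo.up_length]
        omega
    · obtain ⟨l1, l2, l3, l4, l5, l6⟩ := nxc_lat hl hok hk
      obtain ⟨⟨r1, r2⟩, ⟨r3, r4, r5⟩, ⟨r6, r7⟩, r8, r9⟩ := nxc_row h hok hk
      have hue : u + C1 + (c.j - c.i) / D < c.i := not_Ex (hex c (List.mem_cons_self ..)) (by omega)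
      have s1 : (8 * G.T (c.i + 1) : ℤ) ≤ G.T (c.i + 2) := by exact_mod_cast G.T_succ (c.i + 1)
      have s2 : (G.T (c.i + 2) : ℤ) ≤ G.T (c.j + 2) := by exact_mod_cast G.T_mono (by omega)
      have s3 : (G.T (c.j + 2) : ℤ) ≤ G.T (c.j + R.g - 1) := by exact_mod_cast G.T_mono (by omega)
      have s4 : (G.T (c.s - 2) : ℤ) ≤ G.T c.i := by exact_mod_cast G.T_mono (by omega)
      have s5 : (8 * G.T c.i : ℤ) ≤ G.T (c.i + 1) := by exact_mod_cast G.T_succ c.i
      have s6 : (G.T (τ - 1) : ℤ) ≤ G.T c.i := by exact_mod_cast G.T_mono (by omega)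
      have s7 : (0 : ℤ) ≤ G.T c.i := by positivity
      have ww : w (τ - 1) ≤ w (c.j + 1) := hmono (by omega)
      have w0 := hl.w_nonneg (c.j + 1)
      have wa := mul_le_mul_of_nonneg_left ww (show 0 ≤ kn + kb + 1 by linarith)
      have w2 : 2 * w (τ - 1) ≤ w (c.j + 1) := hl.two (by omega)
      have w2' := mul_le_mul_of_nonneg_left w2 (show 0 ≤ kn + kb + 1 by linarith)
      have hmid : |lat (RJ.nxc y c) - lat ρ| ≤ (kn + kb) * w (c.j + 1) + (kn + kb + 1) * w (τ - 1) :=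
        abs3 (by rwa [abs_sub_comm]) hy1
      have hn1 : |lat (RJ.nxc y c) - lat ρ| ≤ (kn + kb + 1) * w (c.j + R.g - 1) := by
        have w3 : 2 * w (c.j + 1) ≤ w (c.j + R.g - 1) := hl.two (by omega)
        have w3' := mul_le_mul_of_nonneg_left w3 (show 0 ≤ kn + kb + 1 by linarith)
        refine hmid.trans ?_
        linarith
      obtain ⟨P, Tw, e, h11, h12⟩ := ih (L := stepJ G R y τ L c) (by omega) (by omega) hn1 (by linarith) (by linarith) hcl hexl
      refine ⟨P ++ lowJ G c, G.up y τ (c.i + 2 - τ) ++ (G.up c.p (c.i + 2) (c.j - c.i) ++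
        (G.up (RJ.nxc y c) (c.j + 2) (R.g - 2) ++ Tw)), ?_, ?_, ?_⟩
      · show cutJ G R (RJ.nxc y c) (c.j + R.g) (stepJ G R y τ L c) l = _
        rw [e, stepJ_far hk]
        simp only [List.append_assoc]
      · refine (TB.up fun v hv _ => hyup v hv).append ?_
        rw [Geo.up_length, show τ + (c.i + 2 - τ) = c.i + 2 by omega]
        refine (TB.up fun v hv hv' => ⟨ct_RB ?_ ?_, ?_⟩).append ?_
        · have t1 : (G.T (c.i + 2) : ℤ) ≤ G.T v := by exact_mod_cast G.T_mono hv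
          linarith
        · have t1 : (G.T (c.i + 2) : ℤ) ≤ G.T v := by exact_mod_cast G.T_mono hv
          linarith
        · have a1 := exp_arith hD hue hC1 h3' (show c.i ≤ v + 1 by omega)
          have a2 := hB v _ a1
          have a3 := hB v v (Nat.le_add_right _ _)
          have a4 : |lat c.p - lat ρ| ≤ kn * w (c.j + 1) + (kn + kb + 1) * w (τ - 1) := abs3 (by rwa [abs_sub_comm]) hy1
          have a5 := abs3 (hl.ctl v c.p) a4
          have a6 := hl.w_nonneg v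
          have a7 := mul_nonneg hkn a6
          have a8 := mul_nonneg hkb a6
          have a9 := mul_nonneg hkn w0
          have b1 := mul_nonneg hkb w0
          refine a5.trans ?_
          linarith
        · rw [Geo.up_length, show c.i + 2 + (c.j - c.i) = c.j + 2 by omega]
          refine (TB.up fun v hv hv' => ⟨ct_RB ?_ ?_, ?_⟩).append ?_
          · have t1 : (G.T (c.j + 2) : ℤ) ≤ G.T v := by exact_mod_cast G.T_mono hv
            linarith
          · have t1 : (G.T (c.j + 2) : ℤ) ≤ G.T v := by exact_mod_cast G.T_mono hv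
            linarith
          · have a3 := hB v v (Nat.le_add_right _ _)
            have a5 := abs3 (hl.ctl v (RJ.nxc y c)) hmid
            have a6 := hl.w_nonneg v
            have a7 := mul_nonneg hkn a6
            have a8 := mul_nonneg hkb a6
            have c1 : w (c.j + 1) ≤ w v := hmono (by omega)
            have c2 := mul_le_mul_of_nonneg_left c1 (show 0 ≤ kn + kb + 1 by linarith)
            refine a5.trans ?_
            linarith
          · rw [Geo.up_length]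
            rwa [show c.j + 2 + (R.g - 2) = c.j + R.g by omega]
      · simp only [List.length_append, Geo.up_length]
        omega

/-! ### Own data -/

/-- **OWN DATA**: what the list of the cuts is around an own slab `(ρ, u)`. -/
def OD (G : Geo σ Λ) (lat : σ → ℝ) (latC : Cut Λ → ℝ) (w : ℕ → ℝ) (C0 : ℝ) (C2 D : ℕ) (Z : List (Cut Λ)) (ρ : σ) (u : ℕ) : Prop :=
  ∃ (v0 v1 : ℕ) (P : List (Cut Λ)) (e0 : Cut Λ) (Bo Cl Bl Tw : List (Cut Λ)),
    Z = P ++ (e0 :: Bo ++ (Cl ++ (Bl ++ Tw))) ∧ v0 + C2 ≤ u ∧ u + C2 ≤ v1 ∧ e0.row ≤ G.row ρ ∧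
    (∀ d ∈ e0 :: Bo, d.sc ≤ v0 ∧ |latC d - lat ρ| ≤ C0 * w (v0 + D * (u - v0))) ∧
    TB G lat latC ρ (fun v => if v ≤ u + C2 then w v else C0 * w v) v0 Cl ∧ Cl.length = v1 + 1 - v0 ∧
    (∀ d ∈ Bl, d.sc ≤ v1 + 2 ∧ |latC d - lat ρ| ≤ C0 * w (v1 + D * (v1 - u))) ∧
    TB G lat latC ρ (BT w C0 D u) (v1 + 3) Tw ∧ v1 + 3 + Tw.length = G.m + 1 ∧ Tw ≠ []

/-- The invariant of the old list. -/
def InvL (G : Geo σ Λ) (lat : σ → ℝ) (latC : Cut Λ → ℝ) (w : ℕ → ℝ) (Ck : ℝ) (x : σ) (τ : ℕ) (L : List (Cut Λ)) : Prop :=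
  (∀ d ∈ L, d.sc ≤ τ ∧ |latC d - lat x| ≤ Ck * w τ) ∧ ∃ L1 e0 L2, L = L1 ++ e0 :: L2 ∧ e0.row ≤ G.row x

/-- Membership in `up`. -/
theorem mem_up {y : σ} {a n : ℕ} {d : Cut Λ} (h : d ∈ G.up y a n) : ∃ v, a ≤ v ∧ v < a + n ∧ d = G.ct v y := by
  unfold Geo.up at h
  obtain ⟨k, hk, rfl⟩ := List.mem_map.1 h
  rw [List.mem_range] at hk
  exact ⟨a + k, by omega, by omega, rfl⟩

/-- The cuts of the lower part. -/
theorem mem_lowJ {c : SJ σ} {d : Cut Λ} (hd : d ∈ lowJ G c) (hs : c.a ≤ c.s) (hi : c.s < c.i) :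
    (∃ v ≤ c.s, d = G.bt v c.p ∧ d.sc ≤ c.s) ∨ (∃ v < c.s, d = G.ct v c.p) ∨ ∃ v, c.s ≤ v ∧ v < c.i ∧ d = G.ct v c.q := by
  unfold lowJ at hd
  simp only [List.mem_cons, List.mem_append] at hd
  rcases hd with rfl | rfl | hd | hd
  · exact Or.inl ⟨c.s, le_rfl, rfl, le_rfl⟩
  · exact Or.inl ⟨c.a, hs, rfl, hs⟩
  · obtain ⟨v, h1, h2, rfl⟩ := mem_up hd
    exact Or.inr (Or.inl ⟨v, by omega, rfl⟩)
  · obtain ⟨v, h1, h2, rfl⟩ := mem_up hd
    exact Or.inr (Or.inr ⟨v, h1, by omega, rfl⟩)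

/-- The invariant is kept. -/
theorem InvL.step {kn kb : ℝ} (h : GRJ G R) (hl : LatJ G R lat latC w kn kb) {x : σ} {τ : ℕ} {L : List (Cut Λ)} {c : SJ σ}
    (hc : R.Ok x τ c) (hL : InvL G lat latC w (kn + kb + 1) x τ L) :
    InvL G lat latC w (kn + kb + 1) (RJ.nxc x c) (c.j + R.g) (stepJ G R x τ L c) := by
  have hg := h.g_ge
  have hkn := hl.kn_nonneg
  have hkb := hl.kb_nonneg
  have hmono := hl.mono
  have hc' := hc
  obtain ⟨h1, h2, h3, h3', h4, h5, h6, h7, h8, h9⟩ := hc'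
  obtain ⟨hL1, L1, e0, L2, eL, he0⟩ := hL
  have w0 := hl.w_nonneg (c.j + 1)
  have wg := hl.w_nonneg (c.j + R.g)
  by_cases hk : c.k = Kd.stay
  · have e2 : RJ.nxc x c = x := if_neg (by rw [hk]; decide)
    rw [e2, stepJ_stay hk]
    refine ⟨fun d hd => ?_, L1, e0, L2 ++ G.up x τ (c.j + R.g - τ), by rw [eL]; simp only [List.append_assoc, List.cons_append],
      he0⟩
    rcases List.mem_append.1 hd with hd | hd
    · obtain ⟨a1, a2⟩ := hL1 d hd
      exact ⟨by omega, a2.trans (mul_le_mul_of_nonneg_left (hmono (by omega)) (by linarith))⟩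
    · obtain ⟨v, v1, v2, rfl⟩ := mem_up hd
      refine ⟨(show v ≤ c.j + R.g by omega), (hl.ctl v x).trans ?_⟩
      have a1 : w v ≤ w (c.j + R.g) := hmono (by omega)
      have a2 := mul_nonneg hkn wg
      have a3 := mul_nonneg hkb wg
      linarith
  · obtain ⟨l1, l2, l3, l4, l5, l6⟩ := nxc_lat hl hc hk
    obtain ⟨⟨r1, r2⟩, ⟨r3, r4, r5⟩, ⟨r6, r7⟩, r8, r9⟩ := nxc_row h hc hk
    have f4 : 4 * w (c.j + 1) ≤ w (c.j + R.g) := hl.four (by omega)
    have key : ∀ (d : Cut Λ) (y : σ) (b : ℝ), |latC d - lat y| ≤ b → |lat y - lat (RJ.nxc x c)| ≤ (kn + kb) * w (c.j + 1) →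
        b ≤ (kn + kb + 1) * w (c.j + 1) ∨ b ≤ w (c.j + R.g - 1) → |latC d - lat (RJ.nxc x c)| ≤ (kn + kb + 1) * w (c.j + R.g) := by
      intro d y b hb1 hb2 hb3
      have a1 := abs3 hb1 hb2
      have a2 : 2 * w (c.j + R.g - 1) ≤ w (c.j + R.g) := hl.two (by omega)
      have a3 := mul_le_mul_of_nonneg_left f4 (show 0 ≤ kn + kb + 1 by linarith)
      have a4 := mul_nonneg hkn w0
      have a5 := mul_nonneg hkb w0
      have a6 := mul_nonneg hkn wg
      have a7 := mul_nonneg hkb wg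
      have a8 := mul_le_mul_of_nonneg_left f4 (show 0 ≤ kn + kb by linarith)
      refine a1.trans ?_
      rcases hb3 with hb3 | hb3 <;> linarith
    refine ⟨fun d hd => ?_, ?_⟩
    · rw [stepJ_far hk] at hd
      simp only [List.mem_append] at hd
      rcases hd with hd | hd | hd | hd | hd
      · rcases mem_lowJ hd h2 h3 with ⟨v, hv, rfl, hsc⟩ | ⟨v, hv, rfl⟩ | ⟨v, hv, hv', rfl⟩
        · refine ⟨by omega, key _ c.p _ (hl.btl v c.p) l1 (Or.inr (hmono (by omega)))⟩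
        · exact ⟨(show v ≤ c.j + R.g by omega), key _ c.p _ (hl.ctl v c.p) l1 (Or.inr (hmono (by omega)))⟩
        · exact ⟨(show v ≤ c.j + R.g by omega), key _ c.q _ (hl.ctl v c.q) l3 (Or.inr (hmono (by omega)))⟩
      · obtain ⟨a1, a2⟩ := hL1 d hd
        exact ⟨by omega, key d x _ a2 l2 (Or.inl (mul_le_mul_of_nonneg_left (hmono (by omega)) (by linarith)))⟩
      · obtain ⟨v, v1, v2, rfl⟩ := mem_up hd
        exact ⟨(show v ≤ c.j + R.g by omega), key _ x _ (hl.ctl v x) l2 (Or.inr (hmono (by omega)))⟩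
      · obtain ⟨v, v1, v2, rfl⟩ := mem_up hd
        exact ⟨(show v ≤ c.j + R.g by omega), key _ c.p _ (hl.ctl v c.p) l1 (Or.inr (hmono (by omega)))⟩
      · obtain ⟨v, v1, v2, rfl⟩ := mem_up hd
        refine ⟨(show v ≤ c.j + R.g by omega), key _ _ _ (hl.ctl v _) ?_ (Or.inr (hmono (by omega)))⟩
        rw [sub_self, abs_zero]
        exact mul_nonneg (by linarith) w0
    · rw [stepJ_far hk]
      by_cases hmv : c.k = Kd.move
      · have e : RJ.nxc x c = c.q := if_pos hmv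
        refine ⟨[], G.bt c.s c.p, G.bt c.a c.p :: (G.up c.p c.a (c.s - c.a) ++ G.up c.q c.s (c.i - c.s)) ++
          (L ++ (G.up x τ (c.i + 2 - τ) ++ (G.up c.p (c.i + 2) (c.j - c.i) ++ G.up (RJ.nxc x c) (c.j + 2) (R.g - 2)))), ?_, ?_⟩
        · unfold lowJ
          simp only [List.append_assoc, List.cons_append, List.nil_append]
        · rw [e]
          exact r9
      · have e : RJ.nxc x c = x := if_neg hmv
        refine ⟨lowJ G c ++ L1, e0, L2 ++ (G.up x τ (c.i + 2 - τ) ++ (G.up c.p (c.i + 2) (c.j - c.i) ++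
          G.up (RJ.nxc x c) (c.j + 2) (R.g - 2))), ?_, ?_⟩
        · rw [eL]
          simp only [List.append_assoc, List.cons_append]
        · rw [e]
          exact he0

end

end Pool.Agent.W_7d29a1_C1.H40
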