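import Pool.Agent.W_7d29a1_C1.ChnM40

/-!
MP_7d29a1_pr, the attractor route: TWO INDEX CHAINS: own data of every unexposed own slab. (helper40)
-/

set_option autoImplicit false

namespace Pool.Agent.W_7d29a1_C1.H40

open MeasureTheory ProbabilityTheory Finset
open Pool.Agent.W_7d29a1_F Pool.Agent.W_7d29a1_C1.S71
open scoped ENNReal Classical

noncomputable section

variable {σ Λ : Type*} {G : Geo σ Λ} {R : RJ σ} {lat : σ → ℝ} {latC : Cut Λ → ℝ} {w : ℕ → ℝ}

/-- Own data of a step, the rest of the list being a tower. -/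
theorem own_head {kn kb C0 : ℝ} {C2 D : ℕ} (h : GRJ G R) (hl : LatJ G R lat latC w kn kb) (hC0 : 4 * (kn + kb + 1) ≤ C0)
    (hD : 1 ≤ D) {x : σ} {τ : ℕ} {L : List (Cut Λ)} {c : SJ σ} {l : List (SJ σ)} (hc : R.Ok x τ c)
    (hcl : R.IsC (RJ.nxc x c) (c.j + R.g) l) (hL : InvL G lat latC w (kn + kb + 1) x τ L) {u : ℕ} {ρ : σ}
    (ho : RJ.Own R.m3 c u ρ) (hex : ∀ d ∈ c :: l, u ∉ Ex (C2 + 3) D d) :
    OD G lat latC w C0 C2 D (cutJ G R (RJ.nxc x c) (c.j + R.g) (stepJ G R x τ L c) l) ρ u := by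
  have hg := h.g_ge
  have hml := h.m_le
  have hkn := hl.kn_nonneg
  have hkb := hl.kb_nonneg
  have hmono := hl.mono
  have hc' := hc
  obtain ⟨h1, h2, h3, h3', h4, h5, h6, h7, h8, h9⟩ := hc'
  obtain ⟨hL1, L1, e0, L2, eL, he0⟩ := hL
  have hexc : u ∉ Ex (C2 + 3) D c := hex c (List.mem_cons_self ..)
  have hexl : ∀ d ∈ l, u ∉ Ex (C2 + 3) D d := fun d hd => hex d (List.mem_cons_of_mem _ hd)
  have w0 := hl.w_nonneg (c.j + 1)
  have q0 := Nat.zero_le ((c.j - c.i) / D)
  have hB : ∀ v v' : ℕ, v' ≤ v + D * (v - u) → 4 * (kn + kb + 1) * w v' ≤ BT w C0 D u v := by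
    intro v v' hv
    exact mul_le_mul hC0 (hmono hv) (hl.w_nonneg _) (by linarith)
  have hcoef : ∀ v' v : ℕ, v' ≤ v → 4 * (kn + kb + 1) * w v' ≤ C0 * w v := by
    intro v' v hv
    exact mul_le_mul hC0 (hmono hv) (hl.w_nonneg _) (by linarith)
  have hself : ∀ (y : σ) (v : ℕ), RB G y v (G.ct v y) := fun y v => by
    have : (0 : ℤ) ≤ G.T v := by positivity
    exact ct_RB (by linarith) (by linarith)
  have hselfl : ∀ (y : σ) (v : ℕ), |latC (G.ct v y) - lat y| ≤ BT w C0 D u v := fun y v => by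
    have a1 := hl.ctl v y
    have a2 := hB v v (Nat.le_add_right _ _)
    have a3 := hl.w_nonneg v
    have a4 := mul_nonneg hkn a3
    have a5 := mul_nonneg hkb a3
    linarith
  have hselfc : ∀ (y : σ) (v : ℕ), |latC (G.ct v y) - lat y| ≤ C0 * w v := fun y v => by
    have a1 := hl.ctl v y
    have a2 := hcoef v v le_rfl
    have a3 := hl.w_nonneg v
    have a4 := mul_nonneg hkn a3
    have a5 := mul_nonneg hkb a3
    linarith
  have hselfi : ∀ (y : σ) (v : ℕ), |latC (G.ct v y) - lat y| ≤ if v ≤ u + C2 then w v else C0 * w v := fun y v => by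
    split_ifs
    · exact hl.ctl v y
    · exact hselfc y v
  by_cases hk : c.k = Kd.stay
  · -- stay
    have e2 : RJ.nxc x c = x := if_neg (by rw [hk]; decide)
    obtain ⟨hp, hq, hji⟩ := h8 hk
    have hρ : ρ = x ∧ c.a ≤ u ∧ u < c.i := by
      rcases ho with ⟨rfl, a1, a2⟩ | ⟨rfl, a1, a2⟩ | ⟨rfl, a1, a2⟩
      · exact ⟨hp, a1, by omega⟩
      · exact ⟨hq, by omega, a2⟩
      · exfalso; omega
    obtain ⟨rfl, hau, hui⟩ := hρ
    have hue := not_Ex hexc hui
    have hua : c.a + (C2 + 3) ≤ u := by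
      unfold Ex at hexc
      simp only [mem_union, mem_Ico, not_or] at hexc
      omega
    rw [e2] at hcl ⊢
    obtain ⟨P, Tw, e, h11, h12⟩ := tower (lat := lat) (latC := latC) (C1 := C2 + 3) (L := stepJ G R ρ τ L c) h hl hC0 hD (by omega)
      (ρ := ρ) (u := u) (y := ρ) (τ := c.j + R.g) (by omega) (by omega)
      (by rw [sub_self, abs_zero]; exact mul_nonneg (by linarith) (hl.w_nonneg _))
      (by have : (0 : ℤ) ≤ G.T (c.j + R.g - 1) := by positivity
          linarith) (by rw [sub_self, mul_zero]; positivity) hcl hexl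
    rw [e, stepJ_stay hk]
    have e3 : c.j + R.g - τ = (c.a - τ) + ((c.i - c.a) + (2 + (R.g - 2))) := by omega
    refine ⟨c.a, c.i - 1, P ++ L1, e0, L2 ++ G.up ρ τ (c.a - τ), G.up ρ c.a (c.i - c.a), G.up ρ c.i 2,
      G.up ρ (c.i + 2) (R.g - 2) ++ Tw, ?_, by omega, by omega, he0, ?_, ?_, ?_, ?_, ?_, ?_, ?_⟩
    · rw [e3, Geo.up_add, Geo.up_add, Geo.up_add, show τ + (c.a - τ) = c.a by omega, show c.a + (c.i - c.a) = c.i by omega, eL]
      simp only [List.append_assoc, List.cons_append]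
    · intro d hd
      have hd' : d ∈ L ∨ d ∈ G.up ρ τ (c.a - τ) := by
        rw [eL]
        simp only [List.mem_cons, List.mem_append] at hd ⊢
        tauto
      have hcc := hcoef τ (c.a + D * (u - c.a)) (by omega)
      rcases hd' with hd' | hd'
      · obtain ⟨a1, a2⟩ := hL1 d hd'
        have a3 := hl.w_nonneg τ
        have a4 := mul_nonneg hkn a3
        have a5 := mul_nonneg hkb a3
        exact ⟨by omega, by linarith⟩
      · obtain ⟨v, v1, v2, rfl⟩ := mem_up hd'
        refine ⟨(show v ≤ c.a by omega), ?_⟩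
        have a1 := hselfc ρ v
        have a2 : w v ≤ w (c.a + D * (u - c.a)) := hmono (by omega)
        have a3 : 0 ≤ C0 := by linarith
        exact a1.trans (mul_le_mul_of_nonneg_left a2 a3)
    · exact TB.up fun v _ _ => ⟨hself ρ v, hselfi ρ v⟩
    · rw [Geo.up_length]
      omega
    · intro d hd
      obtain ⟨v, v1, v2, rfl⟩ := mem_up hd
      refine ⟨(show v ≤ c.i - 1 + 2 by omega), ?_⟩
      have a1 := hl.ctl v ρ
      have hue' : c.j + 1 ≤ (c.i - 1) + D * ((c.i - 1) - u) := exp_arith hD hue (by omega) h3' (by omega)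
      have a2 := hcoef v ((c.i - 1) + D * ((c.i - 1) - u)) (by omega)
      have a3 := hl.w_nonneg v
      have a4 := mul_nonneg hkn a3
      have a5 := mul_nonneg hkb a3
      linarith
    · rw [show c.i - 1 + 3 = c.i + 2 by omega]
      refine (TB.up fun v _ _ => ⟨hself ρ v, hselfl ρ v⟩).append ?_
      rw [Geo.up_length]
      rwa [show c.i + 2 + (R.g - 2) = c.j + R.g by omega]
    · rw [List.length_append, Geo.up_length]
      omega
    · rw [show R.g - 2 = (R.g - 3) + 1 by omega, Geo.up_succ]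
      exact List.cons_ne_nil _ _
  · -- a far step
    obtain ⟨l1, l2, l3, l4, l5, l6⟩ := nxc_lat hl hc hk
    obtain ⟨⟨r1, r2⟩, ⟨r3, r4, r5⟩, ⟨r6, r7⟩, r8, r9⟩ := nxc_row h hc hk
    obtain ⟨hm, hd⟩ := h9 hk
    obtain ⟨m1, m2⟩ := h.mv _ _ _ _ hm
    have s1 : (8 * G.T (c.i + 1) : ℤ) ≤ G.T (c.i + 2) := by exact_mod_cast G.T_succ (c.i + 1)
    have s2 : (G.T (c.i + 2) : ℤ) ≤ G.T (c.j + 2) := by exact_mod_cast G.T_mono (by omega)
    have s3 : (G.T (c.j + 2) : ℤ) ≤ G.T (c.j + R.g - 1) := by exact_mod_cast G.T_mono (by omega)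
    have s4 : (G.T (c.s - 2) : ℤ) ≤ G.T c.s := by exact_mod_cast G.T_mono (by omega)
    have s5 : (8 * G.T c.i : ℤ) ≤ G.T (c.i + 1) := by exact_mod_cast G.T_succ c.i
    have s6a : (8 * G.T c.s : ℤ) ≤ G.T (c.s + 1) := by exact_mod_cast G.T_succ c.s
    have s6b : (G.T (c.s + 1) : ℤ) ≤ G.T c.i := by exact_mod_cast G.T_mono (show c.s + 1 ≤ c.i by omega)
    have s7 : (0 : ℤ) ≤ G.T c.s := by positivity
    have s8 : (0 : ℤ) ≤ G.T (c.s - 2) := by positivity
    -- distances of the next centre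
    have dp1 : -(2 * G.T c.s : ℤ) ≤ G.row (RJ.nxc x c) - G.row c.p ∧ G.row (RJ.nxc x c) - G.row c.p ≤ 2 * G.T (c.i + 1) :=
      ⟨by linarith, by linarith⟩
    have dq1 : 0 ≤ G.row (RJ.nxc x c) - G.row c.q ∧ G.row (RJ.nxc x c) - G.row c.q ≤ 2 * G.T (c.i + 1) + G.T (c.s - 2) :=
      ⟨by linarith, by linarith⟩
    have wsj : w c.s ≤ w (c.j + 1) := hmono (by omega)
    have wτj : w τ ≤ w (c.j + 1) := hmono (by omega)
    have wtj : 2 * w (c.j + 1) ≤ w (c.j + R.g - 1) := hl.two (by omega)
    have kws := mul_le_mul_of_nonneg_left wsj hkb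
    have kwt := mul_le_mul_of_nonneg_left wτj (show 0 ≤ kn + kb + 1 by linarith)
    have kwj := mul_le_mul_of_nonneg_left wtj (show 0 ≤ kn + kb + 1 by linarith)
    have kn0 := mul_nonneg hkn w0
    have kb0 := mul_nonneg hkb w0
    -- the rest
    have hrest : ∀ (y : σ), |lat (RJ.nxc x c) - lat y| ≤ (kn + kb) * w (c.j + 1) →
        -(2 * G.T c.s : ℤ) ≤ G.row (RJ.nxc x c) - G.row y → G.row (RJ.nxc x c) - G.row y ≤ 2 * G.T (c.i + 1) + G.T (c.s - 2) →
        (u < c.i → u + (C2 + 3) + (c.j - c.i) / D < c.i) → u < c.j + 2 →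
        ∃ P Tw, cutJ G R (RJ.nxc x c) (c.j + R.g) (stepJ G R x τ L c) l = P ++ (stepJ G R x τ L c ++ Tw) ∧
          TB G lat latC y (BT w C0 D u) (c.j + 2) (G.up (RJ.nxc x c) (c.j + 2) (R.g - 2) ++ Tw) ∧
          c.j + R.g + Tw.length = G.m + 1 := by
      intro y y1 y2 y3 _ huj
      obtain ⟨P, Tw, e, h11, h12⟩ := tower (lat := lat) (latC := latC) (C1 := C2 + 3) (L := stepJ G R x τ L c) h hl hC0 hD (by omega)
        (ρ := y) (u := u) (y := RJ.nxc x c) (τ := c.j + R.g) (by omega) (by omega)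
        (y1.trans (by linarith)) (by linarith) (by linarith) hcl hexl
      refine ⟨P, Tw, e, (TB.up fun v hv hv' => ⟨ct_RB ?_ ?_, ?_⟩).append ?_, h12⟩
      · have t1 : (G.T (c.j + 2) : ℤ) ≤ G.T v := by exact_mod_cast G.T_mono hv
        linarith
      · have t1 : (G.T (c.j + 2) : ℤ) ≤ G.T v := by exact_mod_cast G.T_mono hv
        linarith
      · have a1 := abs3 (hl.ctl v (RJ.nxc x c)) y1
        have a2 := hB v v (Nat.le_add_right _ _)
        have a3 : w (c.j + 1) ≤ w v := hmono (by omega)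
        have a4 := mul_le_mul_of_nonneg_left a3 (show 0 ≤ kn + kb by linarith)
        have a5 := hl.w_nonneg v
        have a6 := mul_nonneg hkn a5
        have a7 := mul_nonneg hkb a5
        linarith
      · rw [Geo.up_length]
        rwa [show c.j + 2 + (R.g - 2) = c.j + R.g by omega]
    -- the block below the tower
    have hblk : ∀ (y : σ), |lat x - lat y| ≤ (kn + kb) * w (c.j + 1) → ∀ d ∈ L ++ G.up x τ (c.i + 2 - τ),
        d.sc ≤ c.i + 1 ∧ |latC d - lat y| ≤ 4 * (kn + kb + 1) * w (c.j + 1) := by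
      intro y hy d hd
      rcases List.mem_append.1 hd with hd | hd
      · obtain ⟨a1, a2⟩ := hL1 d hd
        have a3 := abs3 a2 hy
        exact ⟨by omega, by linarith⟩
      · obtain ⟨v, v1, v2, rfl⟩ := mem_up hd
        have a1 := abs3 (hl.ctl v x) hy
        have a2 : w v ≤ w (c.j + 1) := hmono (by omega)
        exact ⟨(show v ≤ c.i + 1 by omega), by linarith⟩
    have hmidp : ∀ (y : σ), |lat c.p - lat y| ≤ kb * w c.s → -(2 * G.T c.s : ℤ) ≤ G.row c.p - G.row y →
        G.row c.p - G.row y ≤ 2 * G.T c.s → ∀ v, c.i + 2 ≤ v →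
        RB G y v (G.ct v c.p) ∧ |latC (G.ct v c.p) - lat y| ≤ BT w C0 D u v := by
      intro y y1 y2 y3 v hv
      have t1 : (G.T (c.i + 2) : ℤ) ≤ G.T v := by exact_mod_cast G.T_mono hv
      refine ⟨ct_RB (by linarith) (by linarith), ?_⟩
      have a1 := abs3 (hl.ctl v c.p) y1
      have a2 := hB v v (Nat.le_add_right _ _)
      have a3 : w c.s ≤ w v := hmono (by omega)
      have a4 := mul_le_mul_of_nonneg_left a3 hkb
      have a5 := hl.w_nonneg v
      have a6 := mul_nonneg hkn a5
      have a7 := mul_nonneg hkb a5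
      linarith
    have hpp : |lat c.p - lat c.p| ≤ kb * w c.s := by
      rw [sub_self, abs_zero]
      exact mul_nonneg hkb (hl.w_nonneg _)
    rcases ho with ⟨rfl, hau, hus⟩ | ⟨rfl, hsu, hui⟩ | ⟨rfl, hiu, huj⟩
    · -- part 1
      have hue := not_Ex hexc (show u < c.i by omega)
      have hua : c.a + (C2 + 3) ≤ u ∧ u + (C2 + 3) < c.s := by
        unfold Ex at hexc
        simp only [mem_union, mem_Ico, not_or] at hexc
        omega
      have har := exp_arith hD hue (by omega) h3' (show c.i ≤ (c.i - 1) + 1 by omega)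
      obtain ⟨P, Tw, e, h11, h12⟩ := hrest c.p (by rwa [abs_sub_comm]) (by linarith [dp1.1]) (by linarith [dp1.2]) (fun _ => hue)
        (by omega)
      rw [e, stepJ_far hk]
      refine ⟨c.a, c.i - 1, P ++ [G.bt c.s c.p], G.bt c.a c.p, [], G.up c.p c.a (c.s - c.a) ++ G.up c.q c.s (c.i - c.s),
        L ++ G.up x τ (c.i + 2 - τ), G.up c.p (c.i + 2) (c.j - c.i) ++ (G.up (RJ.nxc x c) (c.j + 2) (R.g - 2) ++ Tw),
        ?_, by omega, by omega, G.dn_le _ _, ?_, ?_, ?_, ?_, ?_, ?_, ?_⟩
      · unfold lowJ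
        simp only [List.append_assoc, List.cons_append, List.nil_append]
      · intro d hd
        rw [List.mem_singleton] at hd
        subst hd
        refine ⟨le_rfl, (hl.btl c.a c.p).trans ?_⟩
        have a1 := hcoef c.a (c.a + D * (u - c.a)) (Nat.le_add_right _ _)
        have a3 := hl.w_nonneg c.a
        have a4 := mul_nonneg hkn a3
        have a5 := mul_nonneg hkb a3
        linarith
      · refine (TB.up fun v _ _ => ⟨hself c.p v, hselfi c.p v⟩).append ?_
        rw [Geo.up_length, show c.a + (c.s - c.a) = c.s by omega]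
        refine TB.up fun v hvs hv' => ?_
        have t1 : (G.T c.s : ℤ) ≤ G.T v := by exact_mod_cast G.T_mono hvs
        have t2 : (2 * G.T (c.s - 2) : ℤ) ≤ G.T c.s := by
          have t3 : (8 * G.T (c.s - 1) : ℤ) ≤ G.T c.s := by
            have := G.T_succ (c.s - 1)
            rw [show c.s - 1 + 1 = c.s by omega] at this
            exact_mod_cast this
          have t4 : (G.T (c.s - 2) : ℤ) ≤ G.T (c.s - 1) := by exact_mod_cast G.T_mono (by omega)
          have t5 : (0 : ℤ) ≤ G.T (c.s - 1) := by positivity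
          linarith
        refine ⟨ct_RB (by linarith) (by linarith), ?_⟩
        rw [if_neg (show ¬ v ≤ u + C2 by omega)]
        have a1 := abs3 (hl.ctl v c.q) (show |lat c.q - lat c.p| ≤ kb * w c.s by rwa [abs_sub_comm])
        have a2 := hcoef v v le_rfl
        have a3 : w c.s ≤ w v := hmono hvs
        have a4 := mul_le_mul_of_nonneg_left a3 hkb
        have a5 := hl.w_nonneg v
        have a6 := mul_nonneg hkn a5
        have a7 := mul_nonneg hkb a5
        linarith
      · rw [List.length_append, Geo.up_length, Geo.up_length]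
        omega
      · intro d hd
        obtain ⟨a1, a2⟩ := hblk c.p (l4.trans (by linarith)) d hd
        exact ⟨by omega, a2.trans (hcoef _ _ har)⟩
      · rw [show c.i - 1 + 3 = c.i + 2 by omega]
        refine (TB.up fun v hv _ => hmidp c.p hpp (by linarith) (by linarith) v hv).append ?_
        rw [Geo.up_length]
        rwa [show c.i + 2 + (c.j - c.i) = c.j + 2 by omega]
      · simp only [List.length_append, Geo.up_length]
        omega
      · intro he
        have := congrArg List.length he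
        simp only [List.length_append, Geo.up_length, List.length_nil] at this
        omega
    · -- part 2
      have hue := not_Ex hexc hui
      have hus : c.s + (C2 + 3) ≤ u := by
        unfold Ex at hexc
        simp only [mem_union, mem_Ico, not_or] at hexc
        omega
      have har := exp_arith hD hue (by omega) h3' (show c.i ≤ (c.i - 1) + 1 by omega)
      obtain ⟨P, Tw, e, h11, h12⟩ := hrest c.q (by rwa [abs_sub_comm]) (by linarith [dq1.1]) dq1.2 (fun _ => hue) (by omega)
      rw [e, stepJ_far hk]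
      have hlow : ∀ d ∈ G.bt c.s c.p :: G.bt c.a c.p :: G.up c.p c.a (c.s - c.a), d.sc ≤ c.s ∧ |latC d - lat c.q| ≤
          C0 * w (c.s + D * (u - c.s)) := by
        intro d hd
        have key : ∀ b, b ≤ w c.s → |latC d - lat c.p| ≤ b → |latC d - lat c.q| ≤ C0 * w (c.s + D * (u - c.s)) := by
          intro b hb1 hb2
          have a1 := abs3 hb2 l5
          have a2 := hcoef c.s (c.s + D * (u - c.s)) (Nat.le_add_right _ _)
          have a5 := hl.w_nonneg c.s
          have a6 := mul_nonneg hkn a5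
          have a7 := mul_nonneg hkb a5
          linarith
        simp only [List.mem_cons] at hd
        rcases hd with rfl | rfl | hd
        · exact ⟨le_rfl, key _ le_rfl (hl.btl _ _)⟩
        · exact ⟨h2, key _ (hmono h2) (hl.btl _ _)⟩
        · obtain ⟨v, v1, v2, rfl⟩ := mem_up hd
          exact ⟨(show v ≤ c.s by omega), key _ (hmono (by omega)) (hl.ctl _ _)⟩
      refine ⟨c.s, c.i - 1, P, G.bt c.s c.p, G.bt c.a c.p :: G.up c.p c.a (c.s - c.a), G.up c.q c.s (c.i - c.s),
        L ++ G.up x τ (c.i + 2 - τ), G.up c.p (c.i + 2) (c.j - c.i) ++ (G.up (RJ.nxc x c) (c.j + 2) (R.g - 2) ++ Tw),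
        ?_, by omega, by omega, r9, hlow, ?_, ?_, ?_, ?_, ?_, ?_⟩
      · unfold lowJ
        simp only [List.append_assoc, List.cons_append]
      · exact TB.up fun v _ _ => ⟨hself c.q v, hselfi c.q v⟩
      · rw [Geo.up_length]
        omega
      · intro d hd
        obtain ⟨a1, a2⟩ := hblk c.q l6 d hd
        exact ⟨by omega, a2.trans (hcoef _ _ har)⟩
      · rw [show c.i - 1 + 3 = c.i + 2 by omega]
        refine (TB.up fun v hv _ => hmidp c.q l5 (by linarith) (by linarith) v hv).append ?_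
        rw [Geo.up_length]
        rwa [show c.i + 2 + (c.j - c.i) = c.j + 2 by omega]
      · simp only [List.length_append, Geo.up_length]
        omega
      · intro he
        have := congrArg List.length he
        simp only [List.length_append, Geo.up_length, List.length_nil] at this
        omega
    · -- part 3
      have hue : c.i + ((C2 + 3) + (c.j - c.i) / D) ≤ u ∧ u + (C2 + 3) < c.j := by
        unfold Ex at hexc
        simp only [mem_union, mem_Ico, not_or] at hexc
        omega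
      have har := exp_arith' hD hue.1 (by omega) h3'
      obtain ⟨P, Tw, e, h11, h12⟩ := hrest c.p (by rwa [abs_sub_comm]) (by linarith [dp1.1]) (by linarith [dp1.2])
        (fun hh => by omega) (by omega)
      rw [e, stepJ_far hk]
      refine ⟨c.i + 2, c.j - 1, P ++ [G.bt c.s c.p], G.bt c.a c.p,
        (G.up c.p c.a (c.s - c.a) ++ G.up c.q c.s (c.i - c.s)) ++ (L ++ G.up x τ (c.i + 2 - τ)),
        G.up c.p (c.i + 2) (c.j - c.i - 2), G.up c.p c.j 2, G.up (RJ.nxc x c) (c.j + 2) (R.g - 2) ++ Tw,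
        ?_, by omega, by omega, G.dn_le _ _, ?_, ?_, ?_, ?_, ?_, ?_, ?_⟩
      · rw [show c.j - c.i = (c.j - c.i - 2) + 2 by omega, Geo.up_add, show c.i + 2 + (c.j - c.i - 2) = c.j by omega]
        unfold lowJ
        simp only [List.append_assoc, List.cons_append, List.nil_append, Nat.add_sub_cancel]
      · intro d hd
        have hgoal : d.sc ≤ c.i + 2 ∧ |latC d - lat c.p| ≤ 4 * (kn + kb + 1) * w (c.j + 1) := by
          simp only [List.mem_cons, List.mem_append] at hd
          rcases hd with rfl | (hd | hd) | hd | hd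
          · have a1 := hl.btl c.a c.p
            have a2 : w c.a ≤ w (c.j + 1) := hmono (by omega)
            exact ⟨(show c.a ≤ c.i + 2 by omega), by linarith⟩
          · obtain ⟨v, v1, v2, rfl⟩ := mem_up hd
            have a1 := hl.ctl v c.p
            have a2 : w v ≤ w (c.j + 1) := hmono (by omega)
            exact ⟨(show v ≤ c.i + 2 by omega), by linarith⟩
          · obtain ⟨v, v1, v2, rfl⟩ := mem_up hd
            have a1 := abs3 (hl.ctl v c.q) (show |lat c.q - lat c.p| ≤ kb * w c.s by rwa [abs_sub_comm])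
            have a2 : w v ≤ w (c.j + 1) := hmono (by omega)
            exact ⟨(show v ≤ c.i + 2 by omega), by linarith⟩
          · obtain ⟨a1, a2⟩ := hblk c.p (l4.trans (by linarith)) d (List.mem_append_left _ hd)
            exact ⟨by omega, a2⟩
          · obtain ⟨a1, a2⟩ := hblk c.p (l4.trans (by linarith)) d (List.mem_append_right _ hd)
            exact ⟨by omega, a2⟩
        exact ⟨hgoal.1, hgoal.2.trans (hcoef _ _ har)⟩
      · exact TB.up fun v _ _ => ⟨hself c.p v, hselfi c.p v⟩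
      · rw [Geo.up_length]
        omega
      · intro d hd
        obtain ⟨v, v1, v2, rfl⟩ := mem_up hd
        refine ⟨(show v ≤ c.j - 1 + 2 by omega), ?_⟩
        have a1 := hl.ctl v c.p
        have a2 : v ≤ (c.j - 1) + D * ((c.j - 1) - u) := by
          have : D * 2 ≤ D * ((c.j - 1) - u) := Nat.mul_le_mul_left _ (by omega)
          omega
        have a2' := hcoef v _ a2
        have a3 := hl.w_nonneg v
        have a4 := mul_nonneg hkn a3
        have a5 := mul_nonneg hkb a3
        linarith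
      · rwa [show c.j - 1 + 3 = c.j + 2 by omega]
      · simp only [List.length_append, Geo.up_length]
        omega
      · rw [show R.g - 2 = (R.g - 3) + 1 by omega, Geo.up_succ]
        exact List.cons_ne_nil _ _

/-- Own data of every unexposed own slab. -/
theorem own_OD {kn kb C0 : ℝ} {C2 D : ℕ} (h : GRJ G R) (hl : LatJ G R lat latC w kn kb) (hC0 : 4 * (kn + kb + 1) ≤ C0)
    (hD : 1 ≤ D) {x : σ} {τ : ℕ} {L : List (Cut Λ)} {l : List (SJ σ)} (hc : R.IsC x τ l)
    (hL : InvL G lat latC w (kn + kb + 1) x τ L) {c : SJ σ} (hcl : c ∈ l) {u : ℕ} {ρ : σ} (ho : RJ.Own R.m3 c u ρ)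
    (hex : ∀ d ∈ l, u ∉ Ex (C2 + 3) D d) : OD G lat latC w C0 C2 D (cutJ G R x τ L l) ρ u := by
  induction l generalizing x τ L with
  | nil => exact absurd hcl (by simp)
  | cons d l ih =>
    rcases List.mem_cons.1 hcl with rfl | hcl
    · exact own_head h hl hC0 hD hc.1 hc.2 hL ho hex
    · exact ih hc.2 (hL.step h hl hc.1) hcl fun e he => hex e (List.mem_cons_of_mem _ he)

theorem cutsJ_OD {kn kb C0 : ℝ} {C2 D : ℕ} (h : GRJ G R) (hl : LatJ G R lat latC w kn kb) (hC0 : 4 * (kn + kb + 1) ≤ C0)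
    (hD : 1 ≤ D) {x : σ} {l : List (SJ σ)} (hc : R.IsC x 0 l) {c : SJ σ} (hcl : c ∈ l) {u : ℕ} {ρ : σ}
    (ho : RJ.Own R.m3 c u ρ) (hex : u ∉ ExL (C2 + 3) D l) : OD G lat latC w C0 C2 D (cutsJ G R x l) ρ u := by
  refine own_OD h hl hC0 hD hc ⟨fun d hd => ?_, [], G.bt 0 x, [], rfl, G.dn_le _ _⟩ hcl ho
    fun d hd hu => hex (mem_ExL hd hu)
  simp only [List.nil_append, List.mem_singleton] at hd
  subst hd
  refine ⟨le_rfl, (hl.btl 0 x).trans ?_⟩
  have a1 := hl.w_nonneg 0
  have a2 := mul_nonneg hl.kn_nonneg a1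
  have a3 := mul_nonneg hl.kb_nonneg a1
  linarith

/-- All the cuts have scales `≤ m`. -/
theorem cutJ_sc (h : GRJ G R) {x : σ} {τ : ℕ} {L : List (Cut Λ)} {l : List (SJ σ)} (hl : R.IsC x τ l)
    (hL : ∀ d ∈ L, d.sc ≤ G.m) : ∀ d ∈ cutJ G R x τ L l, d.sc ≤ G.m := by
  have hg := h.g_ge
  have hml := h.m_le
  induction l generalizing x τ L with
  | nil =>
    intro d hd
    rcases List.mem_append.1 hd with hd | hd
    · exact hL d hd
    · obtain ⟨v, v1, v2, rfl⟩ := mem_up hd
      exact (show v ≤ G.m by omega)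
  | cons c l ih =>
    obtain ⟨⟨h1, h2, h3, h3', h4, h5, -⟩, h6⟩ := hl
    have hup : ∀ (y : σ) (a n : ℕ), a + n ≤ G.m + 1 → ∀ d ∈ G.up y a n, d.sc ≤ G.m := fun y a n h d hd => by
      obtain ⟨v, v1, v2, rfl⟩ := mem_up hd
      exact (show v ≤ G.m by omega)
    refine ih h6 fun d hd => ?_
    by_cases hk : c.k = Kd.stay
    · rw [stepJ_stay hk] at hd
      rcases List.mem_append.1 hd with hd | hd
      · exact hL d hd
      · exact hup _ _ _ (by omega) d hd
    · rw [stepJ_far hk] at hd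
      simp only [List.mem_append] at hd
      rcases hd with hd | hd | hd | hd | hd
      · rcases mem_lowJ hd h2 h3 with ⟨v, hv, rfl, hsc⟩ | ⟨v, hv, rfl⟩ | ⟨v, hv, hv', rfl⟩
        · omega
        · exact (show v ≤ G.m by omega)
        · exact (show v ≤ G.m by omega)
      · exact hL d hd
      · exact hup _ _ _ (by omega) d hd
      · exact hup _ _ _ (by omega) d hd
      · exact hup _ _ _ (by omega) d hd

theorem cutsJ_sc (h : GRJ G R) {x : σ} {l : List (SJ σ)} (hl : R.IsC x 0 l) : ∀ d ∈ cutsJ G R x l, d.sc ≤ G.m :=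
  cutJ_sc h hl fun d hd => by rw [List.mem_singleton.1 hd]; exact Nat.zero_le _

theorem length_leJ (h : GRJ G R) {x : σ} {l : List (SJ σ)} (hl : R.IsC x 0 l) : l.length ≤ nSt R.m R.g R.lam := by
  have hg := h.g_ge
  rcases IsC_lengthJ hl with rfl | h1
  · exact Nat.zero_le _
  · exact (Nat.le_div_iff_mul_le (by omega)).2 (by omega)

end

end Pool.Agent.W_7d29a1_C1.H40
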