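import Pool.Agent.W_7d29a1_C1.ChnM40

/-!
MP_7d29a1_pr, the attractor route: TWO INDEX CHAINS WITH LOWER CUTS (helper40): every centre has cuts above AND below at its own scales.
The sorted list of cuts: successive cuts have regular gaps (`Gp`), every cut is `ct v y` or `lb v y` with `y ∈ W`, at most three cuts
per label; the list is a function of the code.
-/

set_option autoImplicit false

namespace Pool.Agent.W_7d29a1_C1.H40

open MeasureTheory ProbabilityTheory Finset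
open Pool.Agent.W_7d29a1_F Pool.Agent.W_7d29a1_C1.S71
open scoped ENNReal Classical

noncomputable section

namespace Geo

variable {σ Λ : Type*} (G : Geo σ Λ)

/-- The lower cut of the scale `v` of a centre. -/
def lb (v : ℕ) (y : σ) : Cut Λ := ⟨G.dn v (G.row y) - G.T v, v, G.loc v y⟩

/-- The lower cuts of the scales `a + n - 1, …, a`. -/
def dl (y : σ) (a : ℕ) : ℕ → List (Cut Λ)
  | 0 => []
  | n + 1 => G.lb (a + n) y :: dl y a n

variable {G}

theorem dl_zero (y : σ) (a : ℕ) : G.dl y a 0 = [] := rfl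

theorem dl_succ (y : σ) (a n : ℕ) : G.dl y a (n + 1) = G.lb (a + n) y :: G.dl y a n := rfl

theorem dl_length (y : σ) (a n : ℕ) : (G.dl y a n).length = n := by
  induction n with
  | zero => rfl
  | succ n ih => rw [dl_succ, List.length_cons, ih]

theorem dl_add (y : σ) (a n k : ℕ) : G.dl y a (n + k) = G.dl y (a + n) k ++ G.dl y a n := by
  induction k with
  | zero => rfl
  | succ k ih => rw [← Nat.add_assoc, dl_succ, dl_succ, ih, List.cons_append, Nat.add_assoc]

theorem mem_dl {y : σ} {a n : ℕ} {d : Cut Λ} (h : d ∈ G.dl y a n) : ∃ v, a ≤ v ∧ v < a + n ∧ d = G.lb v y := by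
  induction n with
  | zero => exact absurd h (by simp [dl_zero])
  | succ n ih =>
    rw [dl_succ, List.mem_cons] at h
    rcases h with rfl | h
    · exact ⟨a + n, by omega, by omega, rfl⟩
    · obtain ⟨v, h1, h2, h3⟩ := ih h
      exact ⟨v, h1, by omega, h3⟩

theorem lb_congr (hr : LocRow G) {x x' : σ} {s : ℕ} (h : G.loc s x = G.loc s x') : G.lb s x = G.lb s x' := by
  unfold lb dn
  rw [hr _ _ _ h, h]

theorem dl_congr (hr : LocRow G) {x x' : σ} {a n s : ℕ} (hs : s ≤ a) (h : G.loc s x = G.loc s x') :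
    G.dl x a n = G.dl x' a n := by
  induction n with
  | zero => rfl
  | succ n ih => rw [dl_succ, dl_succ, ih, lb_congr hr (G.nest s (a + n) (by omega) x x' h)]

theorem T_add_two (v : ℕ) : G.T (v + 2) = G.K ^ 2 * G.T v := by
  unfold Geo.T Tk
  rw [pow_add]
  ring

end Geo

variable {σ Λ : Type*} {G : Geo σ Λ} {R : RJ σ}

/-! ### Gaps -/

/-- **Two successive cuts have a regular gap.** -/
def Gp (G : Geo σ Λ) (a b : Cut Λ) : Prop :=
  (G.T (max a.sc b.sc) : ℤ) ≤ 4 * (b.row - a.row) ∧ b.row - a.row ≤ 3 * G.K ^ 2 * G.T (max a.sc b.sc)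

theorem Gp.le {a b : Cut Λ} (h : Gp G a b) : a.row ≤ b.row := by
  have h1 := h.1
  have h2 : (0 : ℤ) ≤ G.T (max a.sc b.sc) := by positivity
  linarith

theorem K2_ge (G : Geo σ Λ) : (64 : ℤ) ≤ (G.K : ℤ) ^ 2 := by
  have h : (8 : ℤ) ≤ G.K := by exact_mod_cast G.hK
  nlinarith

/-- The form in which gaps are proved. -/
theorem Gp.of {a b : Cut Λ} {v : ℕ} (hv : max a.sc b.sc = v) (h1 : (G.T v : ℤ) ≤ 4 * (b.row - a.row))
    (h2 : b.row - a.row ≤ 8 * G.T v) : Gp G a b := by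
  have h3 := K2_ge G
  have h4 : (0 : ℤ) ≤ G.T v := by positivity
  refine ⟨by rw [hv]; exact h1, ?_⟩
  rw [hv]
  nlinarith

theorem T8 (G : Geo σ Λ) {u v : ℕ} (h : u < v) : (8 * G.T u : ℤ) ≤ G.T v := by
  have h1 : (8 * G.T u : ℤ) ≤ G.T (u + 1) := by exact_mod_cast G.T_succ u
  have h2 : (G.T (u + 1) : ℤ) ≤ G.T v := by exact_mod_cast G.T_mono (show u + 1 ≤ v by omega)
  linarith

theorem Tm (G : Geo σ Λ) {u v : ℕ} (h : u ≤ v) : (G.T u : ℤ) ≤ G.T v := by exact_mod_cast G.T_mono h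

theorem gp_ct {y y' : σ} {v v' : ℕ} (hv : v < v') (h1 : 2 * (G.row y - G.row y') ≤ G.T v')
    (h2 : G.row y' - G.row y ≤ 4 * G.T v') : Gp G (G.ct v y) (G.ct v' y') := by
  have a1 := G.tr_le v (G.row y)
  have a2 := G.lt_tr v (G.row y)
  have a3 := G.tr_le v' (G.row y')
  have a4 := G.lt_tr v' (G.row y')
  have a5 := T8 G hv
  have a6 := Tm G (show v - 2 ≤ v by omega)
  have a7 := Tm G (show v' - 2 ≤ v' by omega)
  have a8 : (0 : ℤ) ≤ G.T v := by positivity
  refine Gp.of (v := v') (max_eq_right hv.le) ?_ ?_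
  · show (G.T v' : ℤ) ≤ 4 * (G.tr v' (G.row y') - G.tr v (G.row y))
    linarith
  · show G.tr v' (G.row y') - G.tr v (G.row y) ≤ 8 * G.T v'
    linarith

theorem gp_lb {y y' : σ} {v v' : ℕ} (hv : v < v') (h1 : 2 * (G.row y' - G.row y) ≤ G.T v')
    (h2 : G.row y - G.row y' ≤ 4 * G.T v') : Gp G (G.lb v' y') (G.lb v y) := by
  have a1 := G.dn_le v (G.row y)
  have a2 := G.lt_dn v (G.row y)
  have a3 := G.dn_le v' (G.row y')
  have a4 := G.lt_dn v' (G.row y')
  have a5 := T8 G hv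
  have a6 := Tm G (show v - 2 ≤ v by omega)
  have a7 := Tm G (show v' - 2 ≤ v' by omega)
  have a8 : (0 : ℤ) ≤ G.T v := by positivity
  refine Gp.of (v := v') (max_eq_left hv.le) ?_ ?_
  · show (G.T v' : ℤ) ≤ 4 * (G.dn v (G.row y) - G.T v - (G.dn v' (G.row y') - G.T v'))
    linarith
  · show G.dn v (G.row y) - G.T v - (G.dn v' (G.row y') - G.T v') ≤ 8 * G.T v'
    linarith

theorem gp_mid {y y' : σ} {v : ℕ} (h1 : G.row y - G.row y' ≤ G.T v) (h2 : G.row y' - G.row y ≤ 4 * G.T v) :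
    Gp G (G.lb v y) (G.ct v y') := by
  have a1 := G.dn_le v (G.row y)
  have a2 := G.lt_dn v (G.row y)
  have a3 := G.tr_le v (G.row y')
  have a4 := G.lt_tr v (G.row y')
  have a7 := Tm G (show v - 2 ≤ v by omega)
  have a8 : (0 : ℤ) ≤ G.T v := by positivity
  refine Gp.of (v := v) (max_self v) ?_ ?_
  · show (G.T v : ℤ) ≤ 4 * (G.tr v (G.row y') - (G.dn v (G.row y) - G.T v))
    linarith
  · show G.tr v (G.row y') - (G.dn v (G.row y) - G.T v) ≤ 8 * G.T v
    linarith

/-! ### Segments -/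

/-- A nonempty chain with its ends. -/
def Sg (G : Geo σ Λ) (a b : Cut Λ) (L : List (Cut Λ)) : Prop :=
  L.IsChain (Gp G) ∧ L.head? = some a ∧ L.getLast? = some b

theorem Sg.append {a b c d : Cut Λ} {L L' : List (Cut Λ)} (h : Sg G a b L) (h' : Sg G c d L') (hbc : Gp G b c) :
    Sg G a d (L ++ L') := by
  refine ⟨List.isChain_append.2 ⟨h.1, h'.1, fun x hx y hy => ?_⟩, ?_, ?_⟩
  · rw [h.2.2, Option.mem_some_iff] at hx
    rw [h'.2.1, Option.mem_some_iff] at hy
    rw [← hx, ← hy]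
    exact hbc
  · rw [List.head?_append, h.2.1]
    rfl
  · rw [List.getLast?_append, h'.2.2]
    rfl

theorem Sg.dl (y : σ) (a n : ℕ) : Sg G (G.lb (a + n) y) (G.lb a y) (G.dl y a (n + 1)) := by
  induction n with
  | zero => exact ⟨List.isChain_singleton _, rfl, rfl⟩
  | succ n ih =>
    rw [Geo.dl_succ]
    have h1 : Sg G (G.lb (a + (n + 1)) y) (G.lb (a + (n + 1)) y) [G.lb (a + (n + 1)) y] :=
      ⟨List.isChain_singleton _, rfl, rfl⟩
    have h0 : (0 : ℤ) ≤ G.T (a + (n + 1)) := by positivity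
    exact h1.append ih (gp_lb (by omega) (by linarith) (by linarith))

theorem Sg.up (y : σ) (a n : ℕ) : Sg G (G.ct a y) (G.ct (a + n) y) (G.up y a (n + 1)) := by
  induction n generalizing a with
  | zero => exact ⟨List.isChain_singleton _, rfl, rfl⟩
  | succ n ih =>
    rw [Geo.up_succ]
    have h1 : Sg G (G.ct a y) (G.ct a y) [G.ct a y] := ⟨List.isChain_singleton _, rfl, rfl⟩
    have h0 : (0 : ℤ) ≤ G.T (a + 1) := by positivity
    have h2 := ih (a + 1)
    rw [show a + 1 + n = a + (n + 1) by omega] at h2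
    exact h1.append h2 (gp_ct (by omega) (by linarith) (by linarith))

theorem Sg.dl' (y : σ) {a n b : ℕ} (hn : 1 ≤ n) (hb : b + 1 = a + n) : Sg G (G.lb b y) (G.lb a y) (G.dl y a n) := by
  obtain ⟨k, rfl⟩ := Nat.exists_eq_add_of_le' hn
  rw [show b = a + k by omega]
  exact Sg.dl y a k

theorem Sg.up' (y : σ) {a n b : ℕ} (hn : 1 ≤ n) (hb : b + 1 = a + n) : Sg G (G.ct a y) (G.ct b y) (G.up y a n) := by
  obtain ⟨k, rfl⟩ := Nat.exists_eq_add_of_le' hn
  rw [show b = a + k by omega]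
  exact Sg.up y a k

/-! ### The list -/

section Cuts

variable (G R)

/-- The lower part of a step. -/
def lowW (c : SJ σ) : List (Cut Λ) :=
  G.dl c.p (c.i + 2) (c.j - c.i) ++ (G.dl c.q (c.s + 1) (c.i - c.s) ++ (G.dl c.p c.a (c.s + 1 - c.a) ++
    (G.up c.p c.a (c.s - c.a) ++ G.up c.q c.s (c.i - c.s))))

/-- The upper part of a step. -/
def uppW (x : σ) (τ : ℕ) (c : SJ σ) : List (Cut Λ) :=
  G.up x τ (c.i + 2 - τ) ++ (G.up c.p (c.i + 2) (c.j - c.i) ++ G.up (RJ.nxc x c) (c.j + 2) (R.g - 2))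

/-- One step. -/
def stepW (x : σ) (τ : ℕ) (L : List (Cut Λ)) (c : SJ σ) : List (Cut Λ) :=
  match c.k with
  | Kd.stay => G.dl x τ (c.j + R.g - τ) ++ (L ++ G.up x τ (c.j + R.g - τ))
  | _ => lowW G c ++ (L ++ uppW G R x τ c)

/-- The cuts, recursion. -/
def cutW : σ → ℕ → List (Cut Λ) → List (SJ σ) → List (Cut Λ)
  | x, τ, L, [] => L ++ G.up x τ (G.m + 1 - τ)
  | x, τ, L, c :: l => cutW (RJ.nxc x c) (c.j + R.g) (stepW G R x τ L c) l

/-- **The cuts of a chain, with lower cuts.** -/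
def cutsW (x : σ) (l : List (SJ σ)) : List (Cut Λ) := cutW G R x 0 [] l

variable {G R}

theorem stepW_stay {x : σ} {τ : ℕ} {L : List (Cut Λ)} {c : SJ σ} (hk : c.k = Kd.stay) :
    stepW G R x τ L c = G.dl x τ (c.j + R.g - τ) ++ (L ++ G.up x τ (c.j + R.g - τ)) := by
  unfold stepW
  rw [hk]

theorem stepW_far {x : σ} {τ : ℕ} {L : List (Cut Λ)} {c : SJ σ} (hk : c.k ≠ Kd.stay) :
    stepW G R x τ L c = lowW G c ++ (L ++ uppW G R x τ c) := by
  unfold stepW
  split
  · rename_i h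
    exact absurd h hk
  · rfl

/-- The invariant. -/
def IW (G : Geo σ Λ) (x : σ) (τ : ℕ) (L : List (Cut Λ)) : Prop :=
  L = [] ∨ ∃ d, Sg G d (G.ct (τ - 1) x) L ∧ 1 ≤ τ ∧ G.row x - 2 * G.T (τ - 1) ≤ d.row ∧ d.row ≤ G.row x ∧ d.sc ≤ τ - 1

/-- Upper cuts on top of the old list. -/
theorem IW.top {x : σ} {τ n b : ℕ} {L : List (Cut Λ)} (h : IW G x τ L) (hn : 1 ≤ n) (hb : b + 1 = τ + n) :
    ∃ e, Sg G e (G.ct b x) (L ++ G.up x τ n) ∧ G.row x - 2 * G.T (τ - 1) ≤ e.row ∧ e.row ≤ G.row x + 2 * G.T τ ∧ e.sc ≤ τ := by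
  have h1 := Sg.up' (G := G) x hn hb
  have h2 := G.lt_tr τ (G.row x)
  have h3 := G.tr_le τ (G.row x)
  have h4 := Tm G (show τ - 2 ≤ τ by omega)
  have h5 : (0 : ℤ) ≤ G.T τ := by positivity
  have h6 : (0 : ℤ) ≤ G.T (τ - 1) := by positivity
  rcases h with rfl | ⟨d, h7, h8, h9, h10, h11⟩
  · refine ⟨G.ct τ x, h1, ?_, ?_, le_rfl⟩
    · show G.row x - 2 * G.T (τ - 1) ≤ G.tr τ (G.row x)
      linarith
    · show G.tr τ (G.row x) ≤ G.row x + 2 * G.T τ
      linarith
  · exact ⟨d, h7.append h1 (gp_ct (by omega) (by linarith) (by linarith)), h9, by linarith, by omega⟩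

/-- The facts about a far step. -/
theorem far_rows (h : GRJ G R) {x : σ} {τ : ℕ} {c : SJ σ} (hc : R.Ok x τ c) (hk : c.k ≠ Kd.stay) :
    (G.T c.i : ℤ) ≤ G.row x - G.row c.p ∧ G.row x - G.row c.p ≤ 2 * G.T (c.i + 1) ∧ G.row c.p - G.row c.q ≤ G.T (c.s - 2) ∧
      G.row c.q - G.row c.p ≤ 2 * G.T c.s ∧ G.row c.p - G.row (RJ.nxc x c) ≤ G.T (c.s - 2) ∧
      G.row (RJ.nxc x c) - G.row c.p ≤ 2 * G.T (c.i + 1) ∧ G.row x - G.row (RJ.nxc x c) ≤ 2 * G.T (c.i + 1) + G.T (c.s - 2) ∧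
      G.row c.q ≤ G.row (RJ.nxc x c) := by
  obtain ⟨⟨r1, r2⟩, ⟨r3, r4, r5⟩, ⟨r6, r7⟩, r8, r9⟩ := nxc_row h hc hk
  obtain ⟨h1, h2, h3, h3', h4, h5, h6, h7, h8, h9⟩ := hc
  obtain ⟨m1, m2⟩ := h.mv _ _ _ _ (h9 hk).1
  exact ⟨m1, m2, by linarith, by linarith, by linarith, by linarith, by linarith, r8⟩

/-- **The lower part of a far step is regular.** -/
theorem lowW_Sg (h : GRJ G R) {x : σ} {τ : ℕ} {c : SJ σ} (hc : R.Ok x τ c) (hk : c.k ≠ Kd.stay) :
    ∃ d, Sg G d (G.ct (c.i - 1) c.q) (lowW G c) ∧ d.sc ≤ c.j + 1 ∧ G.row c.p - 2 * G.T (c.j + 1) ≤ d.row ∧ d.row ≤ G.row c.q := by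
  obtain ⟨f1, f2, f3, f4, f5, f6, f7, f8⟩ := far_rows h hc hk
  obtain ⟨h1, h2, h3, h3', h4, h5, -⟩ := hc
  have s0 : (0 : ℤ) ≤ G.T c.s := by positivity
  have s2 := Tm G (show c.s - 2 ≤ c.s by omega)
  have s3 := T8 G (show c.s < c.s + 1 by omega)
  have s4 := T8 G (show c.s < c.i by omega)
  have s5 := Tm G (show c.i ≤ c.i + 2 by omega)
  have s6 : (0 : ℤ) ≤ G.T (c.s - 2) := by positivity
  -- the upper cuts of `p`, `q`
  have hU : ∃ u0, Sg G u0 (G.ct (c.i - 1) c.q) (G.up c.p c.a (c.s - c.a) ++ G.up c.q c.s (c.i - c.s)) ∧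
      Gp G (G.lb c.a c.p) u0 := by
    have hq := Sg.up' (G := G) c.q (a := c.s) (n := c.i - c.s) (b := c.i - 1) (by omega) (by omega)
    rcases Nat.eq_or_lt_of_le h2 with e | e
    · refine ⟨G.ct c.s c.q, ?_, ?_⟩
      · rw [show c.s - c.a = 0 by omega, Geo.up_zero, List.nil_append]
        exact hq
      · rw [e]
        exact gp_mid (by linarith) (by linarith)
    · have hp := Sg.up' (G := G) c.p (a := c.a) (n := c.s - c.a) (b := c.s - 1) (by omega) (by omega)
      have k1 := T8 G (show c.s - 1 < c.s by omega)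
      have k2 := Tm G (show c.s - 2 ≤ c.s - 1 by omega)
      refine ⟨G.ct c.a c.p, hp.append hq (gp_ct (by omega) (by linarith) (by linarith)), ?_⟩
      have : (0 : ℤ) ≤ G.T c.a := by positivity
      exact gp_mid (by linarith) (by linarith)
  obtain ⟨u0, hU, hu0⟩ := hU
  have hA3 := Sg.dl' (G := G) c.p (a := c.a) (n := c.s + 1 - c.a) (b := c.s) (by omega) (by omega)
  have hA2 := Sg.dl' (G := G) c.q (a := c.s + 1) (n := c.i - c.s) (b := c.i) (by omega) (by omega)
  have hA := hA2.append (hA3.append hU hu0) (gp_lb (by omega) (by linarith) (by linarith))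
  have q1 := G.dn_le c.i (G.row c.q)
  have q2 := G.lt_dn c.i (G.row c.q)
  have q3 := Tm G (show c.i - 2 ≤ c.i by omega)
  have q4 := T8 G (show c.i < c.j + 1 by omega)
  have q5 : (0 : ℤ) ≤ G.T c.i := by positivity
  rcases Nat.eq_or_lt_of_le h3' with e | e
  · refine ⟨G.lb c.i c.q, ?_, (show c.i ≤ c.j + 1 by omega), ?_, ?_⟩
    · unfold lowW
      rw [show c.j - c.i = 0 by omega, Geo.dl_zero, List.nil_append]
      exact hA
    · show G.row c.p - 2 * G.T (c.j + 1) ≤ G.dn c.i (G.row c.q) - G.T c.i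
      linarith
    · show G.dn c.i (G.row c.q) - G.T c.i ≤ G.row c.q
      linarith
  · have hA1 := Sg.dl' (G := G) c.p (a := c.i + 2) (n := c.j - c.i) (b := c.j + 1) (by omega) (by omega)
    have p1 := G.dn_le (c.j + 1) (G.row c.p)
    have p2 := G.lt_dn (c.j + 1) (G.row c.p)
    have p3 := Tm G (show c.j + 1 - 2 ≤ c.j + 1 by omega)
    have p4 : (0 : ℤ) ≤ G.T (c.j + 1) := by positivity
    refine ⟨G.lb (c.j + 1) c.p, hA1.append hA (gp_lb (by omega) (by linarith) (by linarith)), le_rfl, ?_, ?_⟩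
    · show G.row c.p - 2 * G.T (c.j + 1) ≤ G.dn (c.j + 1) (G.row c.p) - G.T (c.j + 1)
      linarith
    · show G.dn (c.j + 1) (G.row c.p) - G.T (c.j + 1) ≤ G.row c.q
      linarith

/-- **One step keeps the invariant.** -/
theorem stepW_IW (h : GRJ G R) {x : σ} {τ : ℕ} {L : List (Cut Λ)} {c : SJ σ} (hc : R.Ok x τ c) (hL : IW G x τ L) :
    IW G (RJ.nxc x c) (c.j + R.g) (stepW G R x τ L c) := by
  have hg := h.g_ge
  have hc' := hc
  obtain ⟨h1, h2, h3, h3', h4, h5, h6, h7, h8, h9⟩ := hc'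
  right
  by_cases hk : c.k = Kd.stay
  · have e2 : RJ.nxc x c = x := if_neg (by rw [hk]; decide)
    rw [e2, stepW_stay hk]
    obtain ⟨e, t1, t2, t3, t4⟩ := hL.top (n := c.j + R.g - τ) (b := c.j + R.g - 1) (by omega) (by omega)
    have hd := Sg.dl' (G := G) x (a := τ) (n := c.j + R.g - τ) (b := c.j + R.g - 1) (by omega) (by omega)
    have a1 := G.dn_le τ (G.row x)
    have a2 := G.lt_dn τ (G.row x)
    have a3 := Tm G (show τ - 2 ≤ τ by omega)
    have a4 : (0 : ℤ) ≤ G.T τ := by positivity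
    have b1 := G.dn_le (c.j + R.g - 1) (G.row x)
    have b2 := G.lt_dn (c.j + R.g - 1) (G.row x)
    have b3 := Tm G (show c.j + R.g - 1 - 2 ≤ c.j + R.g - 1 by omega)
    have b4 : (0 : ℤ) ≤ G.T (c.j + R.g - 1) := by positivity
    refine ⟨G.lb (c.j + R.g - 1) x, hd.append t1 ?_, by omega, ?_, ?_, le_rfl⟩
    · -- the gap over the old list
      rcases hL with rfl | ⟨d, h7, h8, h9, h10, h11⟩
      · -- empty old list
        have e3 : e = G.ct τ x := by
          have e4 := t1.2.1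
          rw [List.nil_append] at e4
          have e5 := (Sg.up' (G := G) x (a := τ) (n := c.j + R.g - τ) (b := c.j + R.g - 1) (by omega) (by omega)).2.1
          rw [e4] at e5
          exact Option.some.inj e5
        rw [e3]
        exact gp_mid (by linarith) (by linarith)
      · have e3 : e = d := by
          have e4 := t1.2.1
          rw [List.head?_append, h7.2.1] at e4
          exact (Option.some.inj e4).symm
        rw [e3]
        have a5 := T8 G (show τ - 1 < τ by omega)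
        refine Gp.of (v := τ) (max_eq_left (show d.sc ≤ τ by omega)) ?_ ?_
        · show (G.T τ : ℤ) ≤ 4 * (d.row - (G.dn τ (G.row x) - G.T τ))
          linarith
        · show d.row - (G.dn τ (G.row x) - G.T τ) ≤ 8 * G.T τ
          linarith
    · show G.row x - 2 * G.T (c.j + R.g - 1) ≤ G.dn (c.j + R.g - 1) (G.row x) - G.T (c.j + R.g - 1)
      linarith
    · show G.dn (c.j + R.g - 1) (G.row x) - G.T (c.j + R.g - 1) ≤ G.row x
      linarith
  · rw [stepW_far hk]
    obtain ⟨f1, f2, f3, f4, f5, f6, f7, f8⟩ := far_rows h hc hk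
    obtain ⟨d, hd, hd1, hd2, hd3⟩ := lowW_Sg h hc hk
    obtain ⟨e, t1, t2, t3, t4⟩ := hL.top (n := c.i + 2 - τ) (b := c.i + 1) (by omega) (by omega)
    have s0 : (0 : ℤ) ≤ G.T c.s := by positivity
    have s1 := T8 G (show c.i - 1 < c.i by omega)
    have s2 := Tm G (show c.s - 2 ≤ c.s by omega)
    have s3 := Tm G (show c.s ≤ c.i - 1 by omega)
    have s4 := Tm G (show τ - 1 ≤ c.i - 1 by omega)
    have s5 := Tm G (show τ ≤ c.i - 1 by omega)
    have s6 := Tm G (show c.i - 1 - 2 ≤ c.i - 1 by omega)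
    have s7 : (0 : ℤ) ≤ G.T (c.i - 1) := by positivity
    have s8 := T8 G (show c.i + 1 < c.i + 2 by omega)
    have s9 := Tm G (show c.i - 1 ≤ c.i + 1 by omega)
    have r1 := T8 G (show c.i + 1 < c.j + 2 by omega)
    have r2 := T8 G (show c.j + 1 < c.j + 2 by omega)
    have r3 := Tm G (show c.j + 2 ≤ c.j + R.g - 1 by omega)
    have r4 := Tm G (show c.i + 1 ≤ c.j + 1 by omega)
    have q1 := G.tr_le (c.i - 1) (G.row c.q)
    have q2 := G.lt_tr (c.i - 1) (G.row c.q)
    have hK : (G.T (c.i + 1) : ℤ) = G.K ^ 2 * G.T (c.i - 1) := by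
      have := Geo.T_add_two (G := G) (c.i - 1)
      rw [show c.i - 1 + 2 = c.i + 1 by omega] at this
      exact_mod_cast this
    have hK2 := K2_ge G
    -- the gap below the old list
    have hgap : Gp G (G.ct (c.i - 1) c.q) e := by
      have hmax : max (G.ct (c.i - 1) c.q).sc e.sc = c.i - 1 := max_eq_left (show e.sc ≤ c.i - 1 by omega)
      refine ⟨?_, ?_⟩
      · rw [hmax]
        show (G.T (c.i - 1) : ℤ) ≤ 4 * (e.row - G.tr (c.i - 1) (G.row c.q))
        linarith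
      · rw [hmax]
        show e.row - G.tr (c.i - 1) (G.row c.q) ≤ 3 * G.K ^ 2 * G.T (c.i - 1)
        nlinarith
    -- the upper cuts
    have hC := Sg.up' (G := G) (RJ.nxc x c) (a := c.j + 2) (n := R.g - 2) (b := c.j + R.g - 1) (by omega) (by omega)
    have hV : Sg G e (G.ct (c.j + R.g - 1) (RJ.nxc x c)) (L ++ uppW G R x τ c) := by
      unfold uppW
      rw [← List.append_assoc]
      rcases Nat.eq_or_lt_of_le h3' with e' | e'
      · rw [show c.j - c.i = 0 by omega, Geo.up_zero, List.nil_append]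
        exact t1.append hC (gp_ct (by omega) (by linarith) (by linarith))
      · have hB := Sg.up' (G := G) c.p (a := c.i + 2) (n := c.j - c.i) (b := c.j + 1) (by omega) (by omega)
        have hBC := hB.append hC (gp_ct (by omega) (by linarith) (by linarith))
        exact t1.append hBC (gp_ct (by omega) (by linarith) (by linarith))
    refine ⟨d, hd.append hV hgap, by omega, ?_, ?_, by omega⟩
    · linarith
    · linarith

theorem cutW_chain (h : GRJ G R) {x : σ} {τ : ℕ} {L : List (Cut Λ)} {l : List (SJ σ)} (hl : R.IsC x τ l) (hτ : τ ≤ G.m + 1)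
    (hL : IW G x τ L) : (cutW G R x τ L l).IsChain (Gp G) := by
  have hg := h.g_ge
  have hm := h.m_le
  induction l generalizing x τ L with
  | nil =>
    show (L ++ G.up x τ (G.m + 1 - τ)).IsChain (Gp G)
    rcases Nat.eq_or_lt_of_le hτ with e | e
    · rw [show G.m + 1 - τ = 0 by omega, Geo.up_zero, List.append_nil]
      rcases hL with rfl | ⟨d, h7, -⟩
      · exact List.isChain_nil
      · exact h7.1
    · obtain ⟨e, t1, -⟩ := hL.top (n := G.m + 1 - τ) (b := G.m) (by omega) (by omega)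
      exact t1.1
  | cons c l ih =>
    have h5 := hl.1.2.2.2.2.2.1
    exact ih hl.2 (by omega) (stepW_IW h hl.1 hL)

/-- **The gaps of the cuts are regular.** -/
theorem cutsW_chain (h : GRJ G R) {x : σ} {l : List (SJ σ)} (hl : R.IsC x 0 l) : (cutsW G R x l).IsChain (Gp G) :=
  cutW_chain h hl (Nat.zero_le _) (Or.inl rfl)

/-- **The cuts of a chain are sorted.** -/
theorem pw_of_chain {Z : List (Cut Λ)} (h : Z.IsChain (Gp G)) : Z.Pairwise fun c d => c.row ≤ d.row := by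
  have : Trans (fun c d : Cut Λ => c.row ≤ d.row) (fun c d : Cut Λ => c.row ≤ d.row) (fun c d : Cut Λ => c.row ≤ d.row) :=
    ⟨fun h1 h2 => le_trans h1 h2⟩
  exact (h.imp fun a b hab => hab.le).pairwise

/-! ### Where the cuts are -/

theorem mem_up' {y : σ} {a n : ℕ} {d : Cut Λ} (h : d ∈ G.up y a n) : ∃ v, a ≤ v ∧ v < a + n ∧ d = G.ct v y := mem_up h

/-- The members of the lower part. -/
theorem mem_lowW {c : SJ σ} {d : Cut Λ} (hd : d ∈ lowW G c) : (∃ v, c.i + 2 ≤ v ∧ v < c.i + 2 + (c.j - c.i) ∧ d = G.lb v c.p) ∨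
    (∃ v, c.s + 1 ≤ v ∧ v < c.s + 1 + (c.i - c.s) ∧ d = G.lb v c.q) ∨ (∃ v, c.a ≤ v ∧ v < c.a + (c.s + 1 - c.a) ∧ d = G.lb v c.p) ∨
    (∃ v, c.a ≤ v ∧ v < c.a + (c.s - c.a) ∧ d = G.ct v c.p) ∨ ∃ v, c.s ≤ v ∧ v < c.s + (c.i - c.s) ∧ d = G.ct v c.q := by
  unfold lowW at hd
  simp only [List.mem_append] at hd
  rcases hd with hd | hd | hd | hd | hd
  · exact Or.inl (Geo.mem_dl hd)
  · exact Or.inr (Or.inl (Geo.mem_dl hd))
  · exact Or.inr (Or.inr (Or.inl (Geo.mem_dl hd)))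
  · exact Or.inr (Or.inr (Or.inr (Or.inl (mem_up hd))))
  · exact Or.inr (Or.inr (Or.inr (Or.inr (mem_up hd))))

/-- The members of the upper part. -/
theorem mem_uppW {x : σ} {τ : ℕ} {c : SJ σ} {d : Cut Λ} (hd : d ∈ uppW G R x τ c) :
    (∃ v, τ ≤ v ∧ v < τ + (c.i + 2 - τ) ∧ d = G.ct v x) ∨ (∃ v, c.i + 2 ≤ v ∧ v < c.i + 2 + (c.j - c.i) ∧ d = G.ct v c.p) ∨
      ∃ v, c.j + 2 ≤ v ∧ v < c.j + 2 + (R.g - 2) ∧ d = G.ct v (RJ.nxc x c) := by
  unfold uppW at hd
  simp only [List.mem_append] at hd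
  rcases hd with hd | hd | hd
  · exact Or.inl (mem_up hd)
  · exact Or.inr (Or.inl (mem_up hd))
  · exact Or.inr (Or.inr (mem_up hd))

/-- A cut over a point of `W`. -/
def CW (G : Geo σ Λ) (d : Cut Λ) : Prop := ∃ y ∈ G.W, ∃ v ≤ G.m, d = G.ct v y ∨ d = G.lb v y

theorem nxc_W (h : GRJ G R) {x : σ} {τ : ℕ} {c : SJ σ} (hx : x ∈ G.W) (hc : R.Ok x τ c) : RJ.nxc x c ∈ G.W := by
  have hW := h.W_eq
  unfold RJ.nxc
  split_ifs
  · rw [← hW]; exact hc.2.2.2.2.2.2.2.1
  · exact hx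

theorem cutW_mem (h : GRJ G R) {x : σ} {τ : ℕ} {L : List (Cut Λ)} {l : List (SJ σ)} (hx : x ∈ G.W) (hl : R.IsC x τ l)
    (hL : ∀ d ∈ L, CW G d) : ∀ d ∈ cutW G R x τ L l, CW G d := by
  have hg := h.g_ge
  have hm := h.m_le
  have hW := h.W_eq
  induction l generalizing x τ L with
  | nil =>
    intro d hd
    rcases List.mem_append.1 hd with hd | hd
    · exact hL d hd
    · obtain ⟨v, v1, v2, rfl⟩ := mem_up hd
      exact ⟨x, hx, v, by omega, Or.inl rfl⟩
  | cons c l ih =>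
    obtain ⟨hc, h10⟩ := hl
    have hn := nxc_W h hx hc
    obtain ⟨h1, h2, h3, h3', h4, h5, h6, h7, h8, h9⟩ := hc
    rw [hW] at h6 h7
    refine ih hn h10 fun d hd => ?_
    by_cases hk : c.k = Kd.stay
    · rw [stepW_stay hk] at hd
      simp only [List.mem_append] at hd
      rcases hd with hd | hd | hd
      · obtain ⟨v, v1, v2, rfl⟩ := Geo.mem_dl hd
        exact ⟨x, hx, v, by omega, Or.inr rfl⟩
      · exact hL d hd
      · obtain ⟨v, v1, v2, rfl⟩ := mem_up hd
        exact ⟨x, hx, v, by omega, Or.inl rfl⟩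
    · rw [stepW_far hk] at hd
      simp only [List.mem_append] at hd
      rcases hd with hd | hd | hd
      · rcases mem_lowW hd with ⟨v, v1, v2, rfl⟩ | ⟨v, v1, v2, rfl⟩ | ⟨v, v1, v2, rfl⟩ | ⟨v, v1, v2, rfl⟩ | ⟨v, v1, v2, rfl⟩
        · exact ⟨c.p, h6, v, by omega, Or.inr rfl⟩
        · exact ⟨c.q, h7, v, by omega, Or.inr rfl⟩
        · exact ⟨c.p, h6, v, by omega, Or.inr rfl⟩
        · exact ⟨c.p, h6, v, by omega, Or.inl rfl⟩
        · exact ⟨c.q, h7, v, by omega, Or.inl rfl⟩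
      · exact hL d hd
      · rcases mem_uppW hd with ⟨v, v1, v2, rfl⟩ | ⟨v, v1, v2, rfl⟩ | ⟨v, v1, v2, rfl⟩
        · exact ⟨x, hx, v, by omega, Or.inl rfl⟩
        · exact ⟨c.p, h6, v, by omega, Or.inl rfl⟩
        · exact ⟨_, hn, v, by omega, Or.inl rfl⟩

theorem cutsW_mem (h : GRJ G R) {x : σ} {l : List (SJ σ)} (hx : x ∈ G.W) (hl : R.IsC x 0 l) : ∀ d ∈ cutsW G R x l, CW G d :=
  cutW_mem h hx hl fun d hd => absurd hd (by simp)

theorem CW.sc {d : Cut Λ} (h : CW G d) : d.sc ≤ G.m := by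
  obtain ⟨y, hy, v, hv, rfl | rfl⟩ := h
  · exact hv
  · exact hv

/-! ### At most three cuts of a label -/

theorem count_up (v : ℕ) (y : σ) (a n : ℕ) :
    (G.up y a n).countP (fun d => d.sc = v) = if a ≤ v ∧ v < a + n then 1 else 0 := by
  induction n generalizing a with
  | zero => rw [Geo.up_zero, List.countP_nil, if_neg (by omega)]
  | succ n ih =>
    rw [Geo.up_succ, List.countP_cons, ih]
    show _ + (if decide (a = v) = true then 1 else 0) = _
    simp only [decide_eq_true_eq]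
    split_ifs <;> omega

theorem count_dl (v : ℕ) (y : σ) (a n : ℕ) :
    (G.dl y a n).countP (fun d => d.sc = v) = if a ≤ v ∧ v < a + n then 1 else 0 := by
  induction n with
  | zero => rw [Geo.dl_zero, List.countP_nil, if_neg (by omega)]
  | succ n ih =>
    rw [Geo.dl_succ, List.countP_cons, ih]
    show _ + (if decide (a + n = v) = true then 1 else 0) = _
    simp only [decide_eq_true_eq]
    split_ifs <;> omega

theorem cutW_count (h : GRJ G R) (v : ℕ) {x : σ} {τ : ℕ} {L : List (Cut Λ)} {l : List (SJ σ)} (hl : R.IsC x τ l)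
    (hL : L.countP (fun d => d.sc = v) ≤ if v < τ then 3 else 0) : (cutW G R x τ L l).countP (fun d => d.sc = v) ≤ 3 := by
  have hg := h.g_ge
  have hm := h.m_le
  induction l generalizing x τ L with
  | nil =>
    show (L ++ G.up x τ (G.m + 1 - τ)).countP (fun d => d.sc = v) ≤ 3
    rw [List.countP_append, count_up]
    split_ifs at hL ⊢ <;> omega
  | cons c l ih =>
    obtain ⟨hc, h10⟩ := hl
    obtain ⟨h1, h2, h3, h3', h4, h5, h6, h7, h8, h9⟩ := hc
    refine ih h10 ?_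
    by_cases hk : c.k = Kd.stay
    · rw [stepW_stay hk]
      simp only [List.countP_append, count_up, count_dl]
      split_ifs at hL ⊢ <;> omega
    · rw [stepW_far hk]
      unfold lowW uppW
      simp only [List.countP_append, count_up, count_dl]
      rcases lt_or_ge v τ with hv | hv
      · rw [if_pos hv] at hL
        rw [if_pos (show v < c.j + R.g by omega), if_neg (by omega), if_neg (by omega), if_neg (by omega), if_neg (by omega),
          if_neg (by omega), if_neg (by omega), if_neg (by omega)]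
        omega
      · rw [if_neg (by omega)] at hL
        have e1 : (if c.i + 2 ≤ v ∧ v < c.i + 2 + (c.j - c.i) then 1 else 0) +
            ((if c.s + 1 ≤ v ∧ v < c.s + 1 + (c.i - c.s) then 1 else 0) + (if c.a ≤ v ∧ v < c.a + (c.s + 1 - c.a) then 1 else 0)) ≤
            (if v < c.j + R.g then 1 else 0) := by
          split_ifs <;> omega
        have e2 : (if c.a ≤ v ∧ v < c.a + (c.s - c.a) then 1 else 0) + (if c.s ≤ v ∧ v < c.s + (c.i - c.s) then 1 else 0) +
            ((if τ ≤ v ∧ v < τ + (c.i + 2 - τ) then 1 else 0) + ((if c.i + 2 ≤ v ∧ v < c.i + 2 + (c.j - c.i) then 1 else 0) +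
              (if c.j + 2 ≤ v ∧ v < c.j + 2 + (R.g - 2) then 1 else 0))) ≤ (if v < c.j + R.g then 2 else 0) := by
          split_ifs <;> omega
        have e3 : (if v < c.j + R.g then 1 else 0) + (if v < c.j + R.g then 2 else 0) = if v < c.j + R.g then 3 else 0 := by
          split_ifs <;> omega
        omega

/-- **At most three cuts of a label.** -/
theorem cutsW_count (h : GRJ G R) (v : ℕ) {x : σ} {l : List (SJ σ)} (hl : R.IsC x 0 l) :
    (cutsW G R x l).countP (fun d => d.sc = v) ≤ 3 :=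
  cutW_count h v hl (by rw [List.countP_nil]; exact Nat.zero_le _)

/-- The number of the cuts. -/
theorem cutW_length (h : GRJ G R) {x : σ} {τ : ℕ} {L : List (Cut Λ)} {l : List (SJ σ)} (hl : R.IsC x τ l) :
    (cutW G R x τ L l).length + 3 * τ ≤ L.length + 3 * max τ (G.m + R.g) := by
  have hg := h.g_ge
  have hm := h.m_le
  induction l generalizing x τ L with
  | nil =>
    show (L ++ G.up x τ (G.m + 1 - τ)).length + 3 * τ ≤ _
    rw [List.length_append, Geo.up_length]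
    omega
  | cons c l ih =>
    obtain ⟨⟨h1, h2, h3, h3', h4, h5, h6, h7, h8, h9⟩, h10⟩ := hl
    have h11 := ih (L := stepW G R x τ L c) h10
    show (cutW G R _ (c.j + R.g) (stepW G R x τ L c) l).length + 3 * τ ≤ _
    have h12 : (stepW G R x τ L c).length ≤ L.length + 3 * (c.j + R.g - τ) := by
      by_cases hk : c.k = Kd.stay
      · rw [stepW_stay hk]
        simp only [List.length_append, Geo.up_length, Geo.dl_length]
        omega
      · rw [stepW_far hk]
        unfold lowW uppW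
        simp only [List.length_append, Geo.up_length, Geo.dl_length]
        omega
    omega

theorem cutsW_length (h : GRJ G R) {x : σ} {l : List (SJ σ)} (hl : R.IsC x 0 l) :
    (cutsW G R x l).length ≤ 3 * (G.m + R.g) + 1 := by
  have h1 := cutW_length (L := []) h hl
  simp only [List.length_nil] at h1
  show (cutW G R x 0 [] l).length ≤ _
  omega

/-! ### The list is a function of the code -/

theorem cutW_congr (hr : Geo.LocRow G) {x x' : σ} {τ : ℕ} {L : List (Cut Λ)} {l l' : List (SJ σ)} (h : R.IsC x τ l)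
    (h' : R.IsC x' τ l') (hx : G.loc τ x = G.loc τ x') (hd : l.map (lj G) = l'.map (lj G)) :
    cutW G R x τ L l = cutW G R x' τ L l' := by
  induction l generalizing x x' τ L l' with
  | nil =>
    cases l' with
    | nil =>
      show L ++ G.up x τ _ = L ++ G.up x' τ _
      rw [Geo.up_congr hr le_rfl hx]
    | cons a l' => exact absurd hd (by simp)
  | cons c l ih =>
    cases l' with
    | nil => exact absurd hd (by simp)
    | cons c' l' =>
      obtain ⟨k, a, s, i, j, p, q⟩ := c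
      obtain ⟨k', a', s', i', j', p', q'⟩ := c'
      simp only [List.map_cons, List.cons.injEq, lj, LJ.mk.injEq] at hd
      obtain ⟨⟨rfl, rfl, rfl, rfl, rfl, hp, hq⟩, hd⟩ := hd
      obtain ⟨⟨h1, h2, h3, h3', h4, h5, h6, h7, h8, h9⟩, h10⟩ := h
      obtain ⟨⟨-, -, -, -, -, -, h6', h7', h8', h9'⟩, h10'⟩ := h'
      simp only at h1 h2 h3 h3' h4 h5 h6 h7 h8 h9
      have e1 : lowW G (⟨k, a, s, i, j, p, q⟩ : SJ σ) = lowW G ⟨k, a, s, i, j, p', q'⟩ := by
        show G.dl p (i + 2) (j - i) ++ (G.dl q (s + 1) (i - s) ++ (G.dl p a (s + 1 - a) ++ (G.up p a (s - a) ++ G.up q s (i - s)))) =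
          G.dl p' (i + 2) (j - i) ++ (G.dl q' (s + 1) (i - s) ++ (G.dl p' a (s + 1 - a) ++ (G.up p' a (s - a) ++ G.up q' s (i - s))))
        rw [Geo.dl_congr hr (show a ≤ i + 2 by omega) hp, Geo.dl_congr hr (show s ≤ s + 1 by omega) hq, Geo.dl_congr hr le_rfl hp,
          Geo.up_congr hr le_rfl hp, Geo.up_congr hr le_rfl hq]
      have e2 : ∀ n, G.up x τ n = G.up x' τ n := fun n => Geo.up_congr hr le_rfl hx
      have e2' : ∀ n, G.dl x τ n = G.dl x' τ n := fun n => Geo.dl_congr hr le_rfl hx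
      have e5 : G.up p (i + 2) (j - i) = G.up p' (i + 2) (j - i) := Geo.up_congr hr (show a ≤ i + 2 by omega) hp
      have hn : ∀ v, j + 2 ≤ v → G.loc v (RJ.nxc x ⟨k, a, s, i, j, p, q⟩) = G.loc v (RJ.nxc x' ⟨k, a, s, i, j, p', q'⟩) := by
        intro v hv
        by_cases hk : k = Kd.move
        · have e4 : RJ.nxc x (⟨k, a, s, i, j, p, q⟩ : SJ σ) = q := if_pos hk
          have e5 : RJ.nxc x' (⟨k, a, s, i, j, p', q'⟩ : SJ σ) = q' := if_pos hk
          rw [e4, e5]
          exact G.nest s _ (by omega) _ _ hq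
        · have e4 : RJ.nxc x (⟨k, a, s, i, j, p, q⟩ : SJ σ) = x := if_neg hk
          have e5 : RJ.nxc x' (⟨k, a, s, i, j, p', q'⟩ : SJ σ) = x' := if_neg hk
          rw [e4, e5]
          exact G.nest τ _ (by omega) _ _ hx
      have hn' : G.loc (j + R.g) (RJ.nxc x ⟨k, a, s, i, j, p, q⟩) = G.loc (j + R.g) (RJ.nxc x' ⟨k, a, s, i, j, p', q'⟩) := by
        by_cases hk : k = Kd.move
        · have e4 : RJ.nxc x (⟨k, a, s, i, j, p, q⟩ : SJ σ) = q := if_pos hk
          have e5 : RJ.nxc x' (⟨k, a, s, i, j, p', q'⟩ : SJ σ) = q' := if_pos hk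
          rw [e4, e5]
          exact G.nest s _ (by omega) _ _ hq
        · have e4 : RJ.nxc x (⟨k, a, s, i, j, p, q⟩ : SJ σ) = x := if_neg hk
          have e5 : RJ.nxc x' (⟨k, a, s, i, j, p', q'⟩ : SJ σ) = x' := if_neg hk
          rw [e4, e5]
          exact G.nest τ _ (by omega) _ _ hx
      have e3 : stepW G R x τ L ⟨k, a, s, i, j, p, q⟩ = stepW G R x' τ L ⟨k, a, s, i, j, p', q'⟩ := by
        by_cases hk : k = Kd.stay
        · rw [stepW_stay hk, stepW_stay hk]
          show G.dl x τ (j + R.g - τ) ++ (L ++ G.up x τ (j + R.g - τ)) = G.dl x' τ (j + R.g - τ) ++ (L ++ G.up x' τ (j + R.g - τ))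
          rw [e2, e2']
        · rw [stepW_far hk, stepW_far hk, e1]
          unfold uppW
          show lowW G _ ++ (L ++ (G.up x τ (i + 2 - τ) ++ (G.up p (i + 2) (j - i) ++ G.up _ (j + 2) (R.g - 2)))) =
            lowW G _ ++ (L ++ (G.up x' τ (i + 2 - τ) ++ (G.up p' (i + 2) (j - i) ++ G.up _ (j + 2) (R.g - 2))))
          rw [e2, e5, Geo.up_congr hr le_rfl (hn (j + 2) le_rfl)]
      show cutW G R _ (j + R.g) (stepW G R x τ L ⟨k, a, s, i, j, p, q⟩) l =
        cutW G R _ (j + R.g) (stepW G R x' τ L ⟨k, a, s, i, j, p', q'⟩) l'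
      rw [e3]
      exact ih h10 h10' hn' hd

/-- **The cuts are a function of the code.** -/
theorem cutsW_congr (hr : Geo.LocRow G) {x x' : σ} {l l' : List (SJ σ)} (h : R.IsC x 0 l) (h' : R.IsC x' 0 l')
    (hx : G.loc 0 x = G.loc 0 x') (hd : l.map (lj G) = l'.map (lj G)) : cutsW G R x l = cutsW G R x' l' :=
  cutW_congr hr h h' hx hd

/-! ### What a list of cuts satisfies -/

/-- **The regularity of the list**: regular gaps, cuts over points of `W`, at most three cuts per label. -/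
structure PW (G : Geo σ Λ) (Z : List (Cut Λ)) : Prop where
  ch : Z.IsChain (Gp G)
  mem : ∀ d ∈ Z, CW G d
  cnt : ∀ v, Z.countP (fun d => d.sc = v) ≤ 3

theorem cutsW_PW (h : GRJ G R) {x : σ} {l : List (SJ σ)} (hx : x ∈ G.W) (hl : R.IsC x 0 l) : PW G (cutsW G R x l) :=
  ⟨cutsW_chain h hl, cutsW_mem h hx hl, fun v => cutsW_count h v hl⟩

end Cuts

end

end Pool.Agent.W_7d29a1_C1.H40
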