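import Pool.Agent.W_7d29a1_C1.ChnQ40

/-!
MP_7d29a1_pr, the attractor route: TWO INDEX CHAINS WITH LOWER CUTS (helper40): what the analysis sees of an own slab (`ODW`):
clean lower cuts, block, clean upper cuts, block, tower.
-/

set_option autoImplicit false

namespace Pool.Agent.W_7d29a1_C1.H40

open MeasureTheory ProbabilityTheory Finset
open Pool.Agent.W_7d29a1_F Pool.Agent.W_7d29a1_C1.S71
open scoped ENNReal Classical

noncomputable section

variable {σ Λ : Type*} {G : Geo σ Λ} {R : RJ σ} {lat : σ → ℝ} {latC : Cut Λ → ℝ} {w : ℕ → ℝ}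

/-- The lateral geometry, with the lower cuts. -/
structure LatW (G : Geo σ Λ) (R : RJ σ) (lat : σ → ℝ) (latC : Cut Λ → ℝ) (w : ℕ → ℝ) (kn kb : ℝ) : Prop
    extends LatJ G R lat latC w kn kb where
  lbl : ∀ v y, |latC (G.lb v y) - lat y| ≤ w v

/-- The row of the lower cut `d` is at the distance `T v` of the centre, up to constants. -/
def RD (G : Geo σ Λ) (ρ : σ) (v : ℕ) (d : Cut Λ) : Prop := (G.T v : ℤ) ≤ G.row ρ - d.row ∧ G.row ρ - d.row ≤ 2 * G.T v

/-- Successive scales downwards, the last one is `v`. -/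
def DB (G : Geo σ Λ) (lat : σ → ℝ) (latC : Cut Λ → ℝ) (ρ : σ) (B : ℕ → ℝ) (v : ℕ) : List (Cut Λ) → Prop
  | [] => True
  | d :: Z => d.sc = v + Z.length ∧ RD G ρ (v + Z.length) d ∧ |latC d - lat ρ| ≤ B (v + Z.length) ∧ DB G lat latC ρ B v Z

theorem lb_RD (ρ : σ) (v : ℕ) : RD G ρ v (G.lb v ρ) := by
  have h3 := G.dn_le v (G.row ρ)
  have h4 := G.lt_dn v (G.row ρ)
  have h5 := Tm G (show v - 2 ≤ v by omega)
  exact ⟨(show (G.T v : ℤ) ≤ G.row ρ - (G.dn v (G.row ρ) - G.T v) by linarith),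
    (show G.row ρ - (G.dn v (G.row ρ) - G.T v) ≤ 2 * G.T v by linarith)⟩

/-- The own lower cuts. -/
theorem DB.dl {kn kb : ℝ} (hl : LatW G R lat latC w kn kb) (ρ : σ) (a n : ℕ) : DB G lat latC ρ w a (G.dl ρ a n) := by
  induction n with
  | zero => trivial
  | succ n ih =>
    rw [Geo.dl_succ]
    refine ⟨?_, ?_, ?_, ih⟩
    · rw [Geo.dl_length]; rfl
    · rw [Geo.dl_length]; exact lb_RD ρ _
    · rw [Geo.dl_length]; exact hl.lbl _ _

/-- **The tower above a centre.** -/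
theorem towerW {kn kb C0 : ℝ} {C1 D : ℕ} (h : GRJ G R) (hl : LatW G R lat latC w kn kb) (hC0 : 4 * (kn + kb + 1) ≤ C0)
    (hD : 1 ≤ D) (hC1 : 2 ≤ C1) {ρ : σ} {u : ℕ} {y : σ} {τ : ℕ} (hτ : τ ≤ G.m + 1) (huτ : u < τ) (hy1 : |lat y - lat ρ| ≤ (kn + kb + 1) * w (τ - 1))
    (hy2 : -(G.T (τ - 1) : ℤ) ≤ 2 * (G.row y - G.row ρ)) (hy3 : 2 * (G.row y - G.row ρ) ≤ G.T (τ - 1))
    {L : List (Cut Λ)} {l : List (SJ σ)} (hc : R.IsC y τ l) (hex : ∀ d ∈ l, u ∉ Ex C1 D d) :
    ∃ P Tw, cutW G R y τ L l = P ++ (L ++ Tw) ∧ TB G lat latC ρ (BT w C0 D u) τ Tw ∧ τ + Tw.length = G.m + 1 := by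
  have hg := h.g_ge
  have hml := h.m_le
  have hkn := hl.kn_nonneg
  have hkb := hl.kb_nonneg
  have hmono := hl.mono
  -- `w v ≤ B v / (4 Ck)`
  have hB : ∀ v v' : ℕ, v' ≤ v + D * (v - u) → 4 * (kn + kb + 1) * w v' ≤ BT w C0 D u v := by
    intro v v' hv
    exact mul_le_mul hC0 (hmono hv) (hl.w_nonneg _) (by linarith)
  induction l generalizing y τ L with
  | nil =>
    refine ⟨[], G.up y τ (G.m + 1 - τ), rfl, TB.up fun v hv _ => ⟨ct_RB ?_ ?_, ?_⟩, ?_⟩
    · have : (G.T (τ - 1) : ℤ) ≤ G.T v := by exact_mod_cast G.T_mono (by omega)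
      linarith
    · have h1 : (G.T (τ - 1) : ℤ) ≤ G.T v := by exact_mod_cast G.T_mono (by omega)
      have h2 : (0 : ℤ) ≤ G.T v := by positivity
      linarith
    · have h1 := abs3 (hl.ctl v y) hy1
      have h2 := hB v v (Nat.le_add_right _ _)
      have h3 : w (τ - 1) ≤ w v := hmono (by omega)
      have h4 := mul_le_mul_of_nonneg_left h3 (show 0 ≤ kn + kb + 1 by linarith)
      have h5 := hl.w_nonneg v
      have h6 := mul_nonneg hkn h5
      have h7 := mul_nonneg hkb h5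
      refine h1.trans (le_trans ?_ h2)
      linarith
    · rw [Geo.up_length]
      omega
  | cons c l ih =>
    obtain ⟨hok, hcl⟩ := hc
    have hok' := hok
    obtain ⟨h1, h2, h3, h3', h4, h5, h6, h7, h8, h9⟩ := hok'
    have hexl : ∀ d ∈ l, u ∉ Ex C1 D d := fun d hd => hex d (List.mem_cons_of_mem _ hd)
    have tt : (G.T (τ - 1) : ℤ) ≤ G.T (c.j + R.g - 1) := by exact_mod_cast G.T_mono (by omega)
    -- the cuts of `y` itself
    have hyup : ∀ v, τ ≤ v → RB G ρ v (G.ct v y) ∧ |latC (G.ct v y) - lat ρ| ≤ BT w C0 D u v := by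
      intro v hv
      have t1 : (G.T (τ - 1) : ℤ) ≤ G.T v := by exact_mod_cast G.T_mono (by omega)
      have t2 : (0 : ℤ) ≤ G.T v := by positivity
      refine ⟨ct_RB (by linarith) (by linarith), ?_⟩
      have h1 := abs3 (hl.ctl v y) hy1
      have h2 := hB v v (Nat.le_add_right _ _)
      have h3 : w (τ - 1) ≤ w v := hmono (by omega)
      have h4 := mul_le_mul_of_nonneg_left h3 (show 0 ≤ kn + kb + 1 by linarith)
      have h5 := hl.w_nonneg v
      have h6 := mul_nonneg hkn h5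
      have h7 := mul_nonneg hkb h5
      refine h1.trans (le_trans ?_ h2)
      linarith
    by_cases hk : c.k = Kd.stay
    · have e2 : RJ.nxc y c = y := if_neg (by rw [hk]; decide)
      have h10 : |lat y - lat ρ| ≤ (kn + kb + 1) * w (c.j + R.g - 1) :=
        hy1.trans (mul_le_mul_of_nonneg_left (hmono (by omega)) (by linarith))
      rw [e2] at hcl
      obtain ⟨P, Tw, e, h11, h12⟩ := ih (L := stepW G R y τ L c) (by omega) (by omega) h10 (by linarith) (by linarith) hcl hexl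
      refine ⟨P ++ G.dl y τ (c.j + R.g - τ), G.up y τ (c.j + R.g - τ) ++ Tw, ?_, ?_, ?_⟩
      · show cutW G R (RJ.nxc y c) (c.j + R.g) (stepW G R y τ L c) l = _
        rw [e2, e, stepW_stay hk]
        simp only [List.append_assoc]
      · refine (TB.up fun v hv _ => hyup v hv).append ?_
        rwa [Geo.up_length, show τ + (c.j + R.g - τ) = c.j + R.g by omega]
      · rw [List.length_append, Geo.up_length]
        omega
    · obtain ⟨l1, l2, l3, l4, l5, l6⟩ := nxc_lat hl.toLatJ hok hk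
      obtain ⟨⟨r1, r2⟩, ⟨r3, r4, r5⟩, ⟨r6, r7⟩, r8, r9⟩ := nxc_row h hok hk
      have hue : u + C1 + (c.j - c.i) / D < c.i := not_Ex (hex c (List.mem_cons_self ..)) (by omega)
      have s1 : (8 * G.T (c.i + 1) : ℤ) ≤ G.T (c.i + 2) := by exact_mod_cast G.T_succ (c.i + 1)
      have s2 : (G.T (c.i + 2) : ℤ) ≤ G.T (c.j + 2) := by exact_mod_cast G.T_mono (by omega)
      have s3 : (G.T (c.j + 2) : ℤ) ≤ G.T (c.j + R.g - 1) := by exact_mod_cast G.T_mono (by omega)
      have s4 : (G.T (c.s - 2) : ℤ) ≤ G.T c.i := by exact_mod_cast G.T_mono (by omega)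
      have s5 : (8 * G.T c.i : ℤ) ≤ G.T (c.i + 1) := by exact_mod_cast G.T_succ c.i
      have s6 : (G.T (τ - 1) : ℤ) ≤ G.T c.i := by exact_mod_cast G.T_mono (by omega)
      have s7 : (0 : ℤ) ≤ G.T c.i := by positivity
      have ww : w (τ - 1) ≤ w (c.j + 1) := hmono (by omega)
      have w0 := hl.w_nonneg (c.j + 1)
      have wa := mul_le_mul_of_nonneg_left ww (show 0 ≤ kn + kb + 1 by linarith)
      have w2 : 2 * w (τ - 1) ≤ w (c.j + 1) := hl.two (by omega)
      have w2' := mul_le_mul_of_nonneg_left w2 (show 0 ≤ kn + kb + 1 by linarith)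
      have hmid : |lat (RJ.nxc y c) - lat ρ| ≤ (kn + kb) * w (c.j + 1) + (kn + kb + 1) * w (τ - 1) :=
        abs3 (by rwa [abs_sub_comm]) hy1
      have hn1 : |lat (RJ.nxc y c) - lat ρ| ≤ (kn + kb + 1) * w (c.j + R.g - 1) := by
        have w3 : 2 * w (c.j + 1) ≤ w (c.j + R.g - 1) := hl.two (by omega)
        have w3' := mul_le_mul_of_nonneg_left w3 (show 0 ≤ kn + kb + 1 by linarith)
        refine hmid.trans ?_
        linarith
      obtain ⟨P, Tw, e, h11, h12⟩ := ih (L := stepW G R y τ L c) (by omega) (by omega) hn1 (by linarith) (by linarith) hcl hexl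
      refine ⟨P ++ lowW G c, G.up y τ (c.i + 2 - τ) ++ (G.up c.p (c.i + 2) (c.j - c.i) ++
        (G.up (RJ.nxc y c) (c.j + 2) (R.g - 2) ++ Tw)), ?_, ?_, ?_⟩
      · show cutW G R (RJ.nxc y c) (c.j + R.g) (stepW G R y τ L c) l = _
        rw [e, stepW_far hk]
        unfold uppW
        simp only [List.append_assoc]
      · refine (TB.up fun v hv _ => hyup v hv).append ?_
        rw [Geo.up_length, show τ + (c.i + 2 - τ) = c.i + 2 by omega]
        refine (TB.up fun v hv hv' => ⟨ct_RB ?_ ?_, ?_⟩).append ?_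
        · have t1 : (G.T (c.i + 2) : ℤ) ≤ G.T v := by exact_mod_cast G.T_mono hv
          linarith
        · have t1 : (G.T (c.i + 2) : ℤ) ≤ G.T v := by exact_mod_cast G.T_mono hv
          linarith
        · have a1 := exp_arith hD hue hC1 h3' (show c.i ≤ v + 1 by omega)
          have a2 := hB v _ a1
          have a3 := hB v v (Nat.le_add_right _ _)
          have a4 : |lat c.p - lat ρ| ≤ kn * w (c.j + 1) + (kn + kb + 1) * w (τ - 1) := abs3 (by rwa [abs_sub_comm]) hy1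
          have a5 := abs3 (hl.ctl v c.p) a4
          have a6 := hl.w_nonneg v
          have a7 := mul_nonneg hkn a6
          have a8 := mul_nonneg hkb a6
          have a9 := mul_nonneg hkn w0
          have b1 := mul_nonneg hkb w0
          refine a5.trans ?_
          linarith
        · rw [Geo.up_length, show c.i + 2 + (c.j - c.i) = c.j + 2 by omega]
          refine (TB.up fun v hv hv' => ⟨ct_RB ?_ ?_, ?_⟩).append ?_
          · have t1 : (G.T (c.j + 2) : ℤ) ≤ G.T v := by exact_mod_cast G.T_mono hv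
            linarith
          · have t1 : (G.T (c.j + 2) : ℤ) ≤ G.T v := by exact_mod_cast G.T_mono hv
            linarith
          · have a3 := hB v v (Nat.le_add_right _ _)
            have a5 := abs3 (hl.ctl v (RJ.nxc y c)) hmid
            have a6 := hl.w_nonneg v
            have a7 := mul_nonneg hkn a6
            have a8 := mul_nonneg hkb a6
            have c1 : w (c.j + 1) ≤ w v := hmono (by omega)
            have c2 := mul_le_mul_of_nonneg_left c1 (show 0 ≤ kn + kb + 1 by linarith)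
            refine a5.trans ?_
            linarith
          · rw [Geo.up_length]
            rwa [show c.j + 2 + (R.g - 2) = c.j + R.g by omega]
      · simp only [List.length_append, Geo.up_length]
        omega

/-! ### Own data -/

/-- **OWN DATA, with the lower cuts.** -/
def ODW (G : Geo σ Λ) (lat : σ → ℝ) (latC : Cut Λ → ℝ) (w : ℕ → ℝ) (C0 : ℝ) (C2 D : ℕ) (Z : List (Cut Λ)) (ρ : σ) (u : ℕ) : Prop :=
  ∃ (v0 v1 v2 : ℕ) (P Lo Bo Cl Bl Tw : List (Cut Λ)),
    Z = P ++ (Lo ++ (Bo ++ (Cl ++ (Bl ++ Tw)))) ∧ v0 + C2 ≤ u ∧ u + C2 ≤ v1 ∧ u + C2 ≤ v2 ∧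
    DB G lat latC ρ w v0 Lo ∧ Lo.length = v2 + 1 - v0 ∧
    (∀ d ∈ Bo, d.sc ≤ v0 ∧ |latC d - lat ρ| ≤ C0 * w (v0 + D * (u - v0))) ∧
    TB G lat latC ρ (fun v => if v ≤ u + C2 then w v else C0 * w v) v0 Cl ∧ Cl.length = v1 + 1 - v0 ∧
    (∀ d ∈ Bl, d.sc ≤ v1 + 2 ∧ |latC d - lat ρ| ≤ C0 * w (v1 + D * (v1 - u))) ∧
    TB G lat latC ρ (BT w C0 D u) (v1 + 3) Tw ∧ v1 + 3 + Tw.length = G.m + 1 ∧ Tw ≠ [] ∧
    (∃ n Cl', Cl = G.up ρ v0 n ++ Cl' ∧ u + C2 < v0 + n) ∧ Lo = G.dl ρ v0 (v2 + 1 - v0)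

/-- The invariant of the old list, lateral part. -/
def InvW (lat : σ → ℝ) (latC : Cut Λ → ℝ) (w : ℕ → ℝ) (Ck : ℝ) (x : σ) (τ : ℕ) (L : List (Cut Λ)) : Prop :=
  ∀ d ∈ L, d.sc ≤ τ ∧ |latC d - lat x| ≤ Ck * w τ

/-- The invariant is kept. -/
theorem InvW.step {kn kb : ℝ} (h : GRJ G R) (hl : LatW G R lat latC w kn kb) {x : σ} {τ : ℕ} {L : List (Cut Λ)} {c : SJ σ}
    (hc : R.Ok x τ c) (hL : InvW lat latC w (kn + kb + 1) x τ L) :
    InvW lat latC w (kn + kb + 1) (RJ.nxc x c) (c.j + R.g) (stepW G R x τ L c) := by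
  have hg := h.g_ge
  have hkn := hl.kn_nonneg
  have hkb := hl.kb_nonneg
  have hmono := hl.mono
  have hc' := hc
  obtain ⟨h1, h2, h3, h3', h4, h5, h6, h7, h8, h9⟩ := hc'
  have w0 := hl.w_nonneg (c.j + 1)
  have wg := hl.w_nonneg (c.j + R.g)
  have a2' := mul_nonneg hkn wg
  have a3' := mul_nonneg hkb wg
  by_cases hk : c.k = Kd.stay
  · have e2 : RJ.nxc x c = x := if_neg (by rw [hk]; decide)
    rw [e2, stepW_stay hk]
    intro d hd
    simp only [List.mem_append] at hd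
    rcases hd with hd | hd | hd
    · obtain ⟨v, v1, v2, rfl⟩ := Geo.mem_dl hd
      refine ⟨(show v ≤ c.j + R.g by omega), (hl.lbl v x).trans ?_⟩
      have a1 : w v ≤ w (c.j + R.g) := hmono (by omega)
      linarith
    · obtain ⟨a1, a2⟩ := hL d hd
      exact ⟨by omega, a2.trans (mul_le_mul_of_nonneg_left (hmono (by omega)) (by linarith))⟩
    · obtain ⟨v, v1, v2, rfl⟩ := mem_up hd
      refine ⟨(show v ≤ c.j + R.g by omega), (hl.ctl v x).trans ?_⟩
      have a1 : w v ≤ w (c.j + R.g) := hmono (by omega)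
      linarith
  · obtain ⟨l1, l2, l3, l4, l5, l6⟩ := nxc_lat hl.toLatJ hc hk
    have f4 : 4 * w (c.j + 1) ≤ w (c.j + R.g) := hl.four (by omega)
    have key : ∀ (d : Cut Λ) (y : σ) (b : ℝ), |latC d - lat y| ≤ b → |lat y - lat (RJ.nxc x c)| ≤ (kn + kb) * w (c.j + 1) →
        b ≤ (kn + kb + 1) * w (c.j + 1) ∨ b ≤ w (c.j + R.g - 1) → |latC d - lat (RJ.nxc x c)| ≤ (kn + kb + 1) * w (c.j + R.g) := by
      intro d y b hb1 hb2 hb3
      have a1 := abs3 hb1 hb2
      have a2 : 2 * w (c.j + R.g - 1) ≤ w (c.j + R.g) := hl.two (by omega)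
      have a3 := mul_le_mul_of_nonneg_left f4 (show 0 ≤ kn + kb + 1 by linarith)
      have a4 := mul_nonneg hkn w0
      have a5 := mul_nonneg hkb w0
      have a8 := mul_le_mul_of_nonneg_left f4 (show 0 ≤ kn + kb by linarith)
      refine a1.trans ?_
      rcases hb3 with hb3 | hb3 <;> linarith
    rw [stepW_far hk]
    intro d hd
    simp only [List.mem_append] at hd
    rcases hd with hd | hd | hd
    · rcases mem_lowW hd with ⟨v, v1, v2, rfl⟩ | ⟨v, v1, v2, rfl⟩ | ⟨v, v1, v2, rfl⟩ | ⟨v, v1, v2, rfl⟩ | ⟨v, v1, v2, rfl⟩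
      · exact ⟨(show v ≤ c.j + R.g by omega), key _ c.p _ (hl.lbl v c.p) l1 (Or.inr (hmono (by omega)))⟩
      · exact ⟨(show v ≤ c.j + R.g by omega), key _ c.q _ (hl.lbl v c.q) l3 (Or.inr (hmono (by omega)))⟩
      · exact ⟨(show v ≤ c.j + R.g by omega), key _ c.p _ (hl.lbl v c.p) l1 (Or.inr (hmono (by omega)))⟩
      · exact ⟨(show v ≤ c.j + R.g by omega), key _ c.p _ (hl.ctl v c.p) l1 (Or.inr (hmono (by omega)))⟩
      · exact ⟨(show v ≤ c.j + R.g by omega), key _ c.q _ (hl.ctl v c.q) l3 (Or.inr (hmono (by omega)))⟩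
    · obtain ⟨a1, a2⟩ := hL d hd
      exact ⟨by omega, key d x _ a2 l2 (Or.inl (mul_le_mul_of_nonneg_left (hmono (by omega)) (by linarith)))⟩
    · rcases mem_uppW hd with ⟨v, v1, v2, rfl⟩ | ⟨v, v1, v2, rfl⟩ | ⟨v, v1, v2, rfl⟩
      · exact ⟨(show v ≤ c.j + R.g by omega), key _ x _ (hl.ctl v x) l2 (Or.inr (hmono (by omega)))⟩
      · exact ⟨(show v ≤ c.j + R.g by omega), key _ c.p _ (hl.ctl v c.p) l1 (Or.inr (hmono (by omega)))⟩
      · refine ⟨(show v ≤ c.j + R.g by omega), key _ _ _ (hl.ctl v _) ?_ (Or.inr (hmono (by omega)))⟩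
        rw [sub_self, abs_zero]
        exact mul_nonneg (by linarith) w0

end

end Pool.Agent.W_7d29a1_C1.H40
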