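import Pool.Agent.W_7d29a1_C1.ChnR40

/-!
MP_7d29a1_pr, the attractor route: TWO INDEX CHAINS WITH LOWER CUTS (helper40): own data of every unexposed own slab.
-/

set_option autoImplicit false

namespace Pool.Agent.W_7d29a1_C1.H40

open MeasureTheory ProbabilityTheory Finset
open Pool.Agent.W_7d29a1_F Pool.Agent.W_7d29a1_C1.S71
open scoped ENNReal Classical

noncomputable section

variable {σ Λ : Type*} {G : Geo σ Λ} {R : RJ σ} {lat : σ → ℝ} {latC : Cut Λ → ℝ} {w : ℕ → ℝ}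

/-! ### The lateral bounds of own cuts -/

section Lat

variable {kn kb C0 : ℝ} {C2 D u : ℕ}

theorem lw_B (hl : LatJ G R lat latC w kn kb) (hC0 : 4 * (kn + kb + 1) ≤ C0) (v v' : ℕ) (hv : v' ≤ v + D * (v - u)) :
    4 * (kn + kb + 1) * w v' ≤ BT w C0 D u v :=
  mul_le_mul hC0 (hl.mono hv) (hl.w_nonneg _) (by have := hl.kn_nonneg; have := hl.kb_nonneg; linarith)

theorem lw_c (hl : LatJ G R lat latC w kn kb) (hC0 : 4 * (kn + kb + 1) ≤ C0) (v' v : ℕ) (hv : v' ≤ v) :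
    4 * (kn + kb + 1) * w v' ≤ C0 * w v :=
  mul_le_mul hC0 (hl.mono hv) (hl.w_nonneg _) (by have := hl.kn_nonneg; have := hl.kb_nonneg; linarith)

theorem self_RB (y : σ) (v : ℕ) : RB G y v (G.ct v y) := by
  have : (0 : ℤ) ≤ G.T v := by positivity
  exact ct_RB (by linarith) (by linarith)

theorem self_l (hl : LatJ G R lat latC w kn kb) (hC0 : 4 * (kn + kb + 1) ≤ C0) (y : σ) (v : ℕ) :
    |latC (G.ct v y) - lat y| ≤ BT w C0 D u v := by
  have a1 := hl.ctl v y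
  have a2 := lw_B hl hC0 (D := D) (u := u) v v (Nat.le_add_right _ _)
  have a3 := hl.w_nonneg v
  have a4 := mul_nonneg hl.kn_nonneg a3
  have a5 := mul_nonneg hl.kb_nonneg a3
  linarith

theorem self_c (hl : LatJ G R lat latC w kn kb) (hC0 : 4 * (kn + kb + 1) ≤ C0) (y : σ) (v : ℕ) :
    |latC (G.ct v y) - lat y| ≤ C0 * w v := by
  have a1 := hl.ctl v y
  have a2 := lw_c hl hC0 v v le_rfl
  have a3 := hl.w_nonneg v
  have a4 := mul_nonneg hl.kn_nonneg a3
  have a5 := mul_nonneg hl.kb_nonneg a3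
  linarith

theorem self_i (hl : LatJ G R lat latC w kn kb) (hC0 : 4 * (kn + kb + 1) ≤ C0) (y : σ) (v : ℕ) :
    |latC (G.ct v y) - lat y| ≤ if v ≤ u + C2 then w v else C0 * w v := by
  split_ifs
  · exact hl.ctl v y
  · exact self_c hl hC0 y v

end Lat

/-- Own data of a stay. -/
theorem own_stayW {kn kb C0 : ℝ} {C2 D : ℕ} (h : GRJ G R) (hl : LatW G R lat latC w kn kb) (hC0 : 4 * (kn + kb + 1) ≤ C0)
    (hD : 1 ≤ D) {x : σ} {τ : ℕ} {L : List (Cut Λ)} {c : SJ σ} {l : List (SJ σ)} (hc : R.Ok x τ c)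
    (hcl : R.IsC (RJ.nxc x c) (c.j + R.g) l) (hL : InvW lat latC w (kn + kb + 1) x τ L) {u : ℕ} {ρ : σ}
    (hk : c.k = Kd.stay) (ho : RJ.Own R.m3 c u ρ) (hex : ∀ d ∈ c :: l, u ∉ Ex (C2 + 3) D d) :
    ODW G lat latC w C0 C2 D (cutW G R (RJ.nxc x c) (c.j + R.g) (stepW G R x τ L c) l) ρ u := by
  have hg := h.g_ge
  have hml := h.m_le
  have hkn := hl.kn_nonneg
  have hkb := hl.kb_nonneg
  have hmono := hl.mono
  have hc' := hc
  obtain ⟨h1, h2, h3, h3', h4, h5, h6, h7, h8, h9⟩ := hc'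
  have hL1 := hL
  have hexc : u ∉ Ex (C2 + 3) D c := hex c (List.mem_cons_self ..)
  have hexl : ∀ d ∈ l, u ∉ Ex (C2 + 3) D d := fun d hd => hex d (List.mem_cons_of_mem _ hd)
  have w0 := hl.w_nonneg (c.j + 1)
  have q0 := Nat.zero_le ((c.j - c.i) / D)
  have hcoef := fun v' v hv => lw_c hl.toLatJ hC0 v' v hv
  have e2 : RJ.nxc x c = x := if_neg (by rw [hk]; decide)
  obtain ⟨hp, hq, hji⟩ := h8 hk
  have hρ : ρ = x ∧ c.a ≤ u ∧ u < c.i := by
    rcases ho with ⟨rfl, a1, a2⟩ | ⟨rfl, a1, a2⟩ | ⟨rfl, a1, a2⟩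
    · exact ⟨hp, a1, by omega⟩
    · exact ⟨hq, by omega, a2⟩
    · exfalso; omega
  obtain ⟨rfl, hau, hui⟩ := hρ
  have hue := not_Ex hexc hui
  have hua : c.a + (C2 + 3) ≤ u := by
    unfold Ex at hexc
    simp only [mem_union, mem_Ico, not_or] at hexc
    omega
  rw [e2] at hcl ⊢
  obtain ⟨P, Tw, e, h11, h12⟩ := towerW (lat := lat) (latC := latC) (C1 := C2 + 3) (L := stepW G R ρ τ L c) h hl hC0 hD (by omega)
    (ρ := ρ) (u := u) (y := ρ) (τ := c.j + R.g) (by omega) (by omega)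
    (by rw [sub_self, abs_zero]; exact mul_nonneg (by linarith) (hl.w_nonneg _))
    (by have : (0 : ℤ) ≤ G.T (c.j + R.g - 1) := by positivity
        linarith) (by rw [sub_self, mul_zero]; positivity) hcl hexl
  rw [e, stepW_stay hk]
  have e3 : c.j + R.g - τ = (c.a - τ) + ((c.i - c.a) + (2 + (R.g - 2))) := by omega
  refine ⟨c.a, c.i - 1, c.i - 1, P ++ G.dl ρ c.i (2 + (R.g - 2)), G.dl ρ c.a (c.i - c.a), G.dl ρ τ (c.a - τ) ++
    (L ++ G.up ρ τ (c.a - τ)), G.up ρ c.a (c.i - c.a), G.up ρ c.i 2,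
    G.up ρ (c.i + 2) (R.g - 2) ++ Tw, ?_, by omega, by omega, by omega, DB.dl hl ρ _ _, ?_, ?_, ?_, ?_, ?_, ?_, ?_, ?_,
    ⟨c.i - c.a, [], (List.append_nil _).symm, by omega⟩, by rw [show c.i - 1 + 1 - c.a = c.i - c.a by omega]⟩
  · rw [e3, Geo.up_add, Geo.up_add, Geo.up_add, Geo.dl_add, Geo.dl_add, show τ + (c.a - τ) = c.a by omega,
      show c.a + (c.i - c.a) = c.i by omega]
    simp only [List.append_assoc]
  · rw [Geo.dl_length]
    omega
  · intro d hd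
    have hcc := hcoef τ (c.a + D * (u - c.a)) (by omega)
    simp only [List.mem_append] at hd
    rcases hd with hd' | hd' | hd'
    · obtain ⟨v, v1, v2, rfl⟩ := Geo.mem_dl hd'
      refine ⟨(show v ≤ c.a by omega), (hl.lbl v ρ).trans ?_⟩
      have a1 := hcoef v (c.a + D * (u - c.a)) (by omega)
      have a3 := hl.w_nonneg v
      have a4 := mul_nonneg hkn a3
      have a5 := mul_nonneg hkb a3
      linarith
    · obtain ⟨a1, a2⟩ := hL1 d hd'
      have a3 := hl.w_nonneg τ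
      have a4 := mul_nonneg hkn a3
      have a5 := mul_nonneg hkb a3
      exact ⟨by omega, by linarith⟩
    · obtain ⟨v, v1, v2, rfl⟩ := mem_up hd'
      refine ⟨(show v ≤ c.a by omega), ?_⟩
      have a1 := self_c hl.toLatJ hC0 ρ v
      have a2 : w v ≤ w (c.a + D * (u - c.a)) := hmono (by omega)
      have a3 : 0 ≤ C0 := by linarith
      exact a1.trans (mul_le_mul_of_nonneg_left a2 a3)
  · exact TB.up fun v _ _ => ⟨self_RB ρ v, self_i hl.toLatJ hC0 ρ v⟩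
  · rw [Geo.up_length]
    omega
  · intro d hd
    obtain ⟨v, v1, v2, rfl⟩ := mem_up hd
    refine ⟨(show v ≤ c.i - 1 + 2 by omega), ?_⟩
    have a1 := hl.ctl v ρ
    have hue' : c.j + 1 ≤ (c.i - 1) + D * ((c.i - 1) - u) := exp_arith hD hue (by omega) h3' (by omega)
    have a2 := hcoef v ((c.i - 1) + D * ((c.i - 1) - u)) (by omega)
    have a3 := hl.w_nonneg v
    have a4 := mul_nonneg hkn a3
    have a5 := mul_nonneg hkb a3
    linarith
  · rw [show c.i - 1 + 3 = c.i + 2 by omega]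
    refine (TB.up fun v _ _ => ⟨self_RB ρ v, self_l hl.toLatJ hC0 ρ v⟩).append ?_
    rw [Geo.up_length]
    rwa [show c.i + 2 + (R.g - 2) = c.j + R.g by omega]
  · rw [List.length_append, Geo.up_length]
    omega
  · rw [show R.g - 2 = (R.g - 3) + 1 by omega, Geo.up_succ]
    exact List.cons_ne_nil _ _

end

end Pool.Agent.W_7d29a1_C1.H40
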