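import Pool.Agent.W_7d29a1_C1.HT86

/-!
MP_7d29a1_pr, [C1] attractor route, TAME / SEP: THE COUNT WITH SHIFTED SCALES. (helper99; texts of helper40, helper6, helper86)

The typical event at the scale `u` may use that nothing is felt at the scales `f u`, `f ∈ Fs` (finitely many maps; at most `NB` pairs `(f, u)`
have the same value `f u`): every layer and every node is felt at most three times its depth, so the number of the scales which are
lost is at most `NB` times as large; nothing depends on the size of the shifts `f u - u`.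
* `countS99`, `potWS99`, `potWJ6` : `countJ`, `potW40`, `potWS6` with `Fs`; `nb99`, `nb99'` : the number `NB`;
* **`ODW.shift99`** : own data at `u` with `C2`, `D` are own data at `u + J` with `C2 - J`, `2 D` (`2 J ≤ C2`): the constants of the scale `u + J`
  are free of `J`;
* `ClS86 Fs .. bad X` : the clause `Cl86` with `∀ f ∈ Fs, Ok6 .. (f u) ∧ OkS6 .. (f u)`; `Cl86.toS`, `ClS86.inter`, `htS86`; **`potCS86`**.
-/

set_option autoImplicit false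

namespace Pool.Agent.W_7d29a1_C1.H40

open MeasureTheory ProbabilityTheory Finset
open Pool.Agent.W_7d29a1_F Pool.Agent.W_7d29a1_C1.S71
open scoped ENNReal Classical

noncomputable section

section Cnt

variable {σ : Type*} {R : RJ σ} {Λ : Type*} [Inhabited Λ]

/-- At most `NB` pairs `(f, u)`, `u < m`, `f ∈ Fs`, have the same value `f u`. -/
def NbF (Fs : Finset (ℕ → ℕ)) (NB : ℕ) : Prop := ∀ m v : ℕ, ∑ f ∈ Fs, ((Ico 0 m).filter fun u => f u = v).card ≤ NB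

/-- One layer is felt at most three times its depth. -/
theorem sum_feltF (sc d m : ℕ) {Fs : Finset (ℕ → ℕ)} {NB : ℕ} (hN : NbF Fs NB) :
    ∑ u ∈ Ico 0 m, ∑ f ∈ Fs, (if Felt sc d (f u) then 1 else 0) ≤ NB * (3 * d) := by
  set V : Finset ℕ := Fs.biUnion fun f => (Ico 0 m).image f with hV
  set g : ℕ → ℕ := fun v => if Felt sc d v then 1 else 0 with hg
  have h1 : ∀ f ∈ Fs, ∑ u ∈ Ico 0 m, g (f u) = ∑ v ∈ V, ((Ico 0 m).filter fun u => f u = v).card * g v := fun f hf => by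
    rw [← sum_fiberwise_of_maps_to (s := Ico 0 m) (t := V) (g := f)
      (fun u hu => mem_biUnion.2 ⟨f, hf, mem_image_of_mem _ hu⟩)]
    refine sum_congr rfl fun v _ => ?_
    rw [sum_congr rfl (g := fun _ => g v) fun u hu => by rw [(mem_filter.1 hu).2], sum_const, smul_eq_mul]
  calc ∑ u ∈ Ico 0 m, ∑ f ∈ Fs, g (f u) = ∑ f ∈ Fs, ∑ u ∈ Ico 0 m, g (f u) := sum_comm
    _ = ∑ f ∈ Fs, ∑ v ∈ V, ((Ico 0 m).filter fun u => f u = v).card * g v := sum_congr rfl h1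
    _ = ∑ v ∈ V, (∑ f ∈ Fs, ((Ico 0 m).filter fun u => f u = v).card) * g v := by
        rw [sum_comm]
        exact sum_congr rfl fun v _ => by rw [sum_mul]
    _ ≤ ∑ v ∈ V, NB * g v := sum_le_sum fun v _ => Nat.mul_le_mul_right _ (hN m v)
    _ = NB * ∑ v ∈ V, g v := by rw [mul_sum]
    _ ≤ NB * (3 * d) := Nat.mul_le_mul_left _ (sum_felt sc d V)

theorem nb_insert99 {Fs : Finset (ℕ → ℕ)} {NB B : ℕ} (h : NbF Fs NB) {f : ℕ → ℕ}
    (hf : ∀ (S : Finset ℕ) (v : ℕ), (S.filter fun u => f u = v).card ≤ B) : NbF (insert f Fs) (B + NB) := fun m v => by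
  by_cases h1 : f ∈ Fs
  · rw [insert_eq_of_mem h1]
    exact (h m v).trans (Nat.le_add_left _ _)
  · rw [sum_insert h1]
    exact Nat.add_le_add (hf _ v) (h m v)

theorem nb_empty99 : NbF ∅ 0 := fun m v => by simp

/-- The identity. -/
theorem nb_id99 (S : Finset ℕ) (v : ℕ) : (S.filter fun u => id u = v).card ≤ 1 := by
  refine card_le_one.2 fun a ha b hb => ?_
  have h1 := (mem_filter.1 ha).2
  have h2 := (mem_filter.1 hb).2
  simp only [id] at h1 h2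
  omega

/-- **The number for two maps and the identity.** -/
theorem nb99 {f f' : ℕ → ℕ} {B B' : ℕ} (hf : ∀ (S : Finset ℕ) (v : ℕ), (S.filter fun u => f u = v).card ≤ B)
    (hf' : ∀ (S : Finset ℕ) (v : ℕ), (S.filter fun u => f' u = v).card ≤ B') : NbF {id, f, f'} (1 + (B + B')) := by
  have h := nb_insert99 (nb_insert99 (nb_insert99 nb_empty99 hf') hf) nb_id99
  rw [add_zero] at h
  exact h

/-- **COUNT**, shifted scales. -/
theorem countS99 {T : ℕ → σ → Set Env} {η : Env} {C1 D : ℕ} (hg : 1 ≤ R.g) {x : σ} {l : List (SJ σ)} (hl : R.IsC x 0 l)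
    (Z : List (Cut Λ)) (dpL : Cut Λ → Cut Λ → Env → ℕ) (dpN : Cut Λ → Cut Λ → Cut Λ → Env → ℕ)
    (scL : Cut Λ → Cut Λ → ℕ) (scN : Cut Λ → Cut Λ → Cut Λ → ℕ) {Fs : Finset (ℕ → ℕ)} {NB : ℕ}
    (hN : NbF Fs NB) (hT : ∀ c ∈ l, ∀ u ρ, RJ.Own R.m3 c u ρ → u ∉ ExL C1 D l → (∀ f ∈ Fs, NFL dpL scL Z (f u) η) →
      (∀ f ∈ Fs, NFN dpN scN Z (f u) η) → η ∈ T u ρ) :
    R.nm (Rl.dpT T) l η ≤ 6 * C1 * l.length + 2 * ((R.m + R.g) / D) + 3 * NB * (SL dpL Z η + SN dpN Z η) := by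
  set fL : ℕ → ℕ := fun u => ∑ k ∈ range (Z.length - 1),
    (if Felt (scL (Z.getD k d0) (Z.getD (k + 1) d0)) (dpL (Z.getD k d0) (Z.getD (k + 1) d0) η) u then 1 else 0) with hfL
  set fN : ℕ → ℕ := fun u => ∑ k ∈ range (Z.length - 2),
    (if Felt (scN (Z.getD k d0) (Z.getD (k + 1) d0) (Z.getD (k + 2) d0))
      (dpN (Z.getD k d0) (Z.getD (k + 1) d0) (Z.getD (k + 2) d0) η) u then 1 else 0) with hfN
  have key : ∀ u, fL u = 0 → NFL dpL scL Z u η := fun u hL0 P a b Q e hF => by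
    have h6 : ∀ k ∈ range (Z.length - 1), (if Felt (scL (Z.getD k d0) (Z.getD (k + 1) d0))
        (dpL (Z.getD k d0) (Z.getD (k + 1) d0) η) u then 1 else 0) = 0 := Finset.sum_eq_zero_iff.1 hL0
    have hlen : Z.length = P.length + (Q.length + 2) := by rw [e]; simp
    have h7 := h6 P.length (mem_range.2 (by omega))
    rw [e, getD_split2.1, getD_split2.2, if_pos hF] at h7
    omega
  have keyN : ∀ u, fN u = 0 → NFN dpN scN Z u η := fun u hN0 P a b d Q e hF => by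
    have h6 : ∀ k ∈ range (Z.length - 2), (if Felt (scN (Z.getD k d0) (Z.getD (k + 1) d0) (Z.getD (k + 2) d0))
        (dpN (Z.getD k d0) (Z.getD (k + 1) d0) (Z.getD (k + 2) d0) η) u then 1 else 0) = 0 :=
      Finset.sum_eq_zero_iff.1 hN0
    have hlen : Z.length = P.length + (Q.length + 3) := by rw [e]; simp
    have h7 := h6 P.length (mem_range.2 (by omega))
    rw [e, getD_split2.1, getD_split2.2, getD_split3, if_pos hF] at h7
    omega
  have h1 : ∀ c ∈ l, ∀ u ρ, RJ.Own R.m3 c u ρ → Rl.dpT T u ρ η ≤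
      (if u ∈ ExL C1 D l then 1 else 0) + ((∑ f ∈ Fs, fL (f u)) + ∑ f ∈ Fs, fN (f u)) := by
    intro c hc u ρ ho
    by_cases h3 : u ∈ ExL C1 D l
    · rw [if_pos h3]
      have : Rl.dpT T u ρ η ≤ 1 := by unfold Rl.dpT; split_ifs <;> omega
      omega
    · rw [if_neg h3]
      by_cases h4 : η ∈ T u ρ
      · have : Rl.dpT T u ρ η = 0 := if_pos h4
        omega
      · have h5 : Rl.dpT T u ρ η = 1 := if_neg h4
        rw [h5]
        by_contra hcon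
        have hL0 : ∑ f ∈ Fs, fL (f u) = 0 := by omega
        have hN0 : ∑ f ∈ Fs, fN (f u) = 0 := by omega
        exact h4 (hT c hc u ρ ho h3 (fun f hf => key _ (Finset.sum_eq_zero_iff.1 hL0 f hf))
          fun f hf => keyN _ (Finset.sum_eq_zero_iff.1 hN0 f hf))
  refine (nm_le_sumJ hg hl h1).trans ?_
  have hLs : ∑ u ∈ Ico 0 R.m, ∑ f ∈ Fs, fL (f u) ≤ NB * (3 * SL dpL Z η) := by
    have e : ∑ u ∈ Ico 0 R.m, ∑ f ∈ Fs, fL (f u) = ∑ k ∈ range (Z.length - 1), ∑ u ∈ Ico 0 R.m, ∑ f ∈ Fs,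
        (if Felt (scL (Z.getD k d0) (Z.getD (k + 1) d0)) (dpL (Z.getD k d0) (Z.getD (k + 1) d0) η) (f u) then 1 else 0) := by
      rw [hfL, sum_comm (s := range (Z.length - 1))]
      exact sum_congr rfl fun u _ => sum_comm
    rw [e]
    unfold SL
    rw [mul_sum, mul_sum]
    exact sum_le_sum fun k _ => sum_feltF _ _ _ hN
  have hNs : ∑ u ∈ Ico 0 R.m, ∑ f ∈ Fs, fN (f u) ≤ NB * (3 * SN dpN Z η) := by
    have e : ∑ u ∈ Ico 0 R.m, ∑ f ∈ Fs, fN (f u) = ∑ k ∈ range (Z.length - 2), ∑ u ∈ Ico 0 R.m, ∑ f ∈ Fs,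
        (if Felt (scN (Z.getD k d0) (Z.getD (k + 1) d0) (Z.getD (k + 2) d0))
          (dpN (Z.getD k d0) (Z.getD (k + 1) d0) (Z.getD (k + 2) d0) η) (f u) then 1 else 0) := by
      rw [hfN, sum_comm (s := range (Z.length - 2))]
      exact sum_congr rfl fun u _ => sum_comm
    rw [e]
    unfold SN
    rw [mul_sum, mul_sum]
    exact sum_le_sum fun k _ => sum_feltF _ _ _ hN
  have hEs : ∑ u ∈ Ico 0 R.m, (if u ∈ ExL C1 D l then 1 else 0) ≤ 6 * C1 * l.length + 2 * ((R.m + R.g) / D) := by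
    rw [← card_filter]
    refine (card_le_card (t := ExL C1 D l) fun u hu => (mem_filter.1 hu).2).trans ?_
    have := card_ExL (C1 := C1) (D := D) hg hl (Nat.zero_le _)
    simpa using this
  rw [sum_add_distrib, sum_add_distrib]
  have e1 : 3 * NB * (SL dpL Z η + SN dpN Z η) = NB * (3 * SL dpL Z η) + NB * (3 * SN dpN Z η) := by ring
  rw [e1]
  omega

end Cnt

section Shift

variable {σ Λ : Type*} {G : Geo σ Λ} {lat : σ → ℝ} {latC : Cut Λ → ℝ} {w : ℕ → ℝ}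

theorem TB.mono99 {ρ : σ} {B B' : ℕ → ℝ} {v : ℕ} {Z : List (Cut Λ)} (hB : ∀ i, v ≤ i → B i ≤ B' i) (h : TB G lat latC ρ B v Z) :
    TB G lat latC ρ B' v Z := by
  induction Z generalizing v with
  | nil => trivial
  | cons d Z ih => exact ⟨h.1, h.2.1, h.2.2.1.trans (hB v le_rfl), ih (fun i hi => hB i (by omega)) h.2.2.2⟩

/-- **OWN DATA AT A HIGHER SCALE.** -/
theorem ODW.shift99 (hw : Monotone w) (hw0 : ∀ v, 0 ≤ w v) {C0 : ℝ} (hC0 : 1 ≤ C0) {C2 C2' D J u : ℕ} {Z : List (Cut Λ)} {ρ : σ}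
    (h : ODW G lat latC w C0 C2 D Z ρ u) (h1 : C2' + J ≤ C2) (h2 : 2 * J ≤ C2) :
    ODW G lat latC w C0 C2' (2 * D) Z ρ (u + J) := by
  obtain ⟨v0, v1, v2, P, Lo, Bo, Cl, Bl, Tw, e, a1, a2, a3, a4, a5, a6, a7, a8, a9, a10, a11, a12, ⟨n, Cl', e1, e2⟩, e3⟩ := h
  have key : ∀ {i j x : ℕ}, i + D * (j - x) ≤ i + 2 * D * (j - x) := fun {i j x} => by
    have : D * (j - x) ≤ 2 * D * (j - x) := Nat.mul_le_mul_right _ (by omega)
    omega
  have key2 : ∀ {i j : ℕ}, u + 2 * J ≤ j → i + D * (j - u) ≤ i + 2 * D * (j - (u + J)) := fun {i j} hj => by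
    have h3 : j - u ≤ 2 * (j - (u + J)) := by omega
    have h4 : D * (j - u) ≤ D * (2 * (j - (u + J))) := Nat.mul_le_mul_left _ h3
    have h5 : D * (2 * (j - (u + J))) = 2 * D * (j - (u + J)) := by ring
    omega
  have hC : 0 ≤ C0 := by linarith
  refine ⟨v0, v1, v2, P, Lo, Bo, Cl, Bl, Tw, e, by omega, by omega, by omega, a4, a5, fun d hd => ⟨(a6 d hd).1, (a6 d hd).2.trans ?_⟩,
    a7.mono99 fun i _ => ?_, a8, fun d hd => ⟨(a9 d hd).1, (a9 d hd).2.trans ?_⟩, a10.mono99 fun i hi => ?_, a11, a12,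
    ⟨n, Cl', e1, by omega⟩, e3⟩
  · refine mul_le_mul_of_nonneg_left (hw ?_) hC
    have h3 : D * (u - v0) ≤ 2 * D * (u + J - v0) := Nat.mul_le_mul (by omega) (by omega)
    omega
  · show (if i ≤ u + C2 then w i else C0 * w i) ≤ if i ≤ u + J + C2' then w i else C0 * w i
    have h4 : w i ≤ C0 * w i := le_mul_of_one_le_left (hw0 i) hC0
    split_ifs <;> first | exact le_rfl | exact h4 | omega
  · exact mul_le_mul_of_nonneg_left (hw (key2 (by omega))) hC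
  · show C0 * w (i + D * (i - u)) ≤ C0 * w (i + 2 * D * (i - (u + J)))
    exact mul_le_mul_of_nonneg_left (hw (key2 (by omega))) hC

end Shift

variable {σ Λ : Type*} {G : Geo σ Λ} {R : RJ σ} {lat : σ → ℝ} {latC : Cut Λ → ℝ} {w : ℕ → ℝ}

/-- **THE POTENTIAL IS SMALL ONLY WITH SMALL PROBABILITY**, nothing is felt at the scales `f u`, `f ∈ Fs`. -/
theorem potWS99 [Inhabited Λ] {μ : Measure ℝ} [IsProbabilityMeasure μ] (h : GRJ G R.near) {A B Nt : ℕ} (t : TreeB G R.near A B Nt)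
    (hr : Geo.LocRow G) {kn kb C0 : ℝ} {C2 D : ℕ} (hl : LatW G R.near lat latC w kn kb) (hC0 : 4 * (kn + kb + 1) ≤ C0)
    (hD : 1 ≤ D) {dpL : Cut Λ → Cut Λ → Env → ℕ} {dpN : Cut Λ → Cut Λ → Cut Λ → Env → ℕ}
    (mL : ∀ a b, Measurable (dpL a b)) (mN : ∀ a b c, Measurable (dpN a b c))
    (rL : ∀ a b (η η' : Env), (∀ p ∈ btw a b, η p = η' p) → dpL a b η = dpL a b η')
    (rN : ∀ a b c (η η' : Env), (∀ p ∈ btw a c, η p = η' p) → dpN a b c η = dpN a b c η')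
    {z M : ℝ≥0∞} (hz : 1 ≤ z) (hz' : z ≠ ∞) (hM : 1 ≤ M) {Sw : Finset ℤ} {E0 : ℕ}
    (momL : ∀ a b, ¬ HasSw Sw a b → ∫⁻ η, z ^ dpL a b η ∂(law μ) ≤ M)
    (momN : ∀ a b e, ¬ HasSw Sw a e → ∫⁻ η, z ^ dpN a b e η ∂(law μ) ≤ M)
    (hEL : ∀ a b η, HasSw Sw a b → dpL a b η ≤ E0) (hEN : ∀ a b e η, HasSw Sw a e → dpN a b e η ≤ E0)
    (scL : Cut Λ → Cut Λ → ℕ) (scN : Cut Λ → Cut Λ → Cut Λ → ℕ) {T : ℕ → σ → Set Env} {bad : Set Env}
    {Fs : Finset (ℕ → ℕ)} {NB : ℕ} (hN : NbF Fs NB)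
    (hT : ∀ η ∉ bad, ∀ ρ ∈ G.W, ∀ u Z, PW G Z → ODW G lat latC w C0 C2 D Z ρ u → (∀ f ∈ Fs, NFL dpL scL Z (f u) η) →
      (∀ f ∈ Fs, NFN dpN scN Z (f u) η) → η ∈ T u ρ)
    {y : ℝ≥0∞} (hy : y ≤ 1) {r b : ℕ}
    (hb : 6 * (C2 + 3) * nSt R.m R.g R.lam + 2 * ((R.m + R.g) / D) + 9 * (NB * r) + 9 * (NB * (Sw.card * E0)) ≤ b) :
    law μ {η | ∃ x ∈ G.W, R.Pot (Rl.dpT T) y x 0 η < y ^ (3 * b)} ≤
      law μ bad + (nCodeJ Nt (A ^ 2) G.m R.g : ℝ≥0∞) * (3 * (M ^ (3 * (G.m + R.g) + 1) / z ^ r)) := by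
  have hP : IsProbabilityMeasure (law μ) := by unfold law; infer_instance
  obtain ⟨C, hC⟩ := t.cnt h
  have hg : 3 ≤ R.g := h.g_ge
  set dpL' : Cut Λ → Cut Λ → Env → ℕ := fun a b η => if HasSw Sw a b then 0 else dpL a b η with hdL
  set dpN' : Cut Λ → Cut Λ → Cut Λ → Env → ℕ := fun a b e η => if HasSw Sw a e then 0 else dpN a b e η with hdN
  have mL' : ∀ a b, Measurable (dpL' a b) := fun a b => by
    by_cases hs : HasSw Sw a b
    · have e : dpL' a b = fun _ => 0 := funext fun η => if_pos hs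
      rw [e]; exact measurable_const
    · have e : dpL' a b = dpL a b := funext fun η => if_neg hs
      rw [e]; exact mL a b
  have mN' : ∀ a b e, Measurable (dpN' a b e) := fun a b e => by
    by_cases hs : HasSw Sw a e
    · have e : dpN' a b e = fun _ => 0 := funext fun η => if_pos hs
      rw [e]; exact measurable_const
    · have e : dpN' a b e = dpN a b e := funext fun η => if_neg hs
      rw [e]; exact mN _ _ _
  have rL' : ∀ a b (η η' : Env), (∀ p ∈ btw a b, η p = η' p) → dpL' a b η = dpL' a b η' := fun a b η η' he => by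
    show (if HasSw Sw a b then 0 else dpL a b η) = if HasSw Sw a b then 0 else dpL a b η'
    rw [rL a b η η' he]
  have rN' : ∀ a b c (η η' : Env), (∀ p ∈ btw a c, η p = η' p) → dpN' a b c η = dpN' a b c η' := fun a b c η η' he => by
    show (if HasSw Sw a c then 0 else dpN a b c η) = if HasSw Sw a c then 0 else dpN a b c η'
    rw [rN a b c η η' he]
  have momL' : ∀ a b, ∫⁻ η, z ^ dpL' a b η ∂(law μ) ≤ M := fun a b => by
    by_cases hs : HasSw Sw a b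
    · have e : ∀ η, z ^ dpL' a b η = 1 := fun η => by
        show z ^ (if HasSw Sw a b then 0 else dpL a b η) = 1
        rw [if_pos hs, pow_zero]
      simp only [e, lintegral_const, measure_univ, mul_one]
      exact hM
    · have e : dpL' a b = dpL a b := funext fun η => if_neg hs
      rw [e]; exact momL a b hs
  have momN' : ∀ a b e, ∫⁻ η, z ^ dpN' a b e η ∂(law μ) ≤ M := fun a b e => by
    by_cases hs : HasSw Sw a e
    · have e' : ∀ η, z ^ dpN' a b e η = 1 := fun η => by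
        show z ^ (if HasSw Sw a e then 0 else dpN a b e η) = 1
        rw [if_pos hs, pow_zero]
      simp only [e', lintegral_const, measure_univ, mul_one]
      exact hM
    · have e' : dpN' a b e = dpN a b e := funext fun η => if_neg hs
      rw [e']; exact momN _ _ _ hs
  have hmain : law μ {η | ∃ x ∈ G.W, ∃ l, R.near.IsC x 0 l ∧
      3 * r ≤ SL dpL' (cutsW G R.near x l) η + SN dpN' (cutsW G R.near x l) η} ≤ _ :=
    unionB h C (S := fun x l η => SL dpL' (cutsW G R.near x l) η + SN dpN' (cutsW G R.near x l) η)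
      (fun x _ x' _ l l' hl hl' h1 h2 η => by
        show SL dpL' (cutsW G R.near x l) η + SN dpN' (cutsW G R.near x l) η =
          SL dpL' (cutsW G R.near x' l') η + SN dpN' (cutsW G R.near x' l') η
        rw [cutsW_congr hr hl hl' h1 h2])
      (fun x hx l hl => tailZ mL' mN' rL' rN' hz hz' hM (pw_of_chain (cutsW_chain h hl)) (cutsW_length h hl) (fun _ _ => momL' _ _)
        (fun _ _ => momN' _ _ _) r)
  rw [hC] at hmain
  refine (measure_mono (fun η hη => ?_)).trans ((measure_union_le bad _).trans (add_le_add le_rfl hmain))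
  by_cases hbad : η ∈ bad
  · exact Or.inl hbad
  refine Or.inr ?_
  obtain ⟨x, hx, hlt⟩ := hη
  by_contra hcon
  have hcon' : ∀ x ∈ G.W, ∀ l, R.near.IsC x 0 l →
      SL dpL' (cutsW G R.near x l) η + SN dpN' (cutsW G R.near x l) η < 3 * r := by
    intro x hx l hl
    by_contra h1
    exact hcon ⟨x, hx, l, hl, not_lt.1 h1⟩
  have hone : ∀ ρ ∈ R.W, ∀ l, R.near.IsC ρ 0 l → R.near.nm (Rl.dpT T) l η ≤ b := by
    intro ρ hρ l hl0
    have hW : R.near.W = G.W := h.W_eq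
    have hρ' : ρ ∈ G.W := by rw [← hW]; exact hρ
    have h1 := hcon' ρ hρ' l hl0
    have hpw := pw_of_chain (cutsW_chain h hl0)
    have h2 := countS99 (T := T) (η := η) (C1 := C2 + 3) (D := D) (R := R.near) (show 1 ≤ R.g by omega) hl0
      (cutsW G R.near ρ l) dpL dpN scL scN hN (fun c hc u ρ' ho hex hfL hfN => by
        have hρW : ρ' ∈ G.W := by
          have := (RJ.Rc.spec (R := R.near) (x := ρ) (τ := 0) (u := u) (ρ := ρ') ⟨l, c, hl0, hc, ho⟩).1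
          rwa [hW] at this
        exact hT η hbad ρ' hρW u _ (cutsW_PW h hρ' hl0) (cutsW_ODW h hl hC0 hD hl0 hc ho hex) hfL hfN)
    have h3 : l.length ≤ nSt R.m R.g R.lam := length_leW h hl0
    have h4 : 6 * (C2 + 3) * l.length ≤ 6 * (C2 + 3) * nSt R.m R.g R.lam := Nat.mul_le_mul_left _ h3
    have h5 := SL_sw hpw Sw (dpL := dpL) (η := η) (E0 := E0) (fun a b hs => hEL a b η hs)
    have h6 := SN_sw hpw Sw (dpN := dpN) (η := η) (E0 := E0) (fun a b e hs => hEN a b e η hs)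
    have h7 : R.near.m = R.m := rfl
    have h8 : R.near.g = R.g := rfl
    rw [h7, h8] at h2
    change SL dpL _ η ≤ SL dpL' _ η + _ at h5
    change SN dpN _ η ≤ SN dpN' _ η + _ at h6
    have h9 : SL dpL (cutsW G R.near ρ l) η + SN dpN (cutsW G R.near ρ l) η ≤ 3 * r + 3 * (Sw.card * E0) := by omega
    have h10 : 3 * NB * (SL dpL (cutsW G R.near ρ l) η + SN dpN (cutsW G R.near ρ l) η) ≤
        9 * (NB * r) + 9 * (NB * (Sw.card * E0)) := by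
      calc 3 * NB * (SL dpL (cutsW G R.near ρ l) η + SN dpN (cutsW G R.near ρ l) η)
          ≤ 3 * NB * (3 * r + 3 * (Sw.card * E0)) := Nat.mul_le_mul_left _ h9
        _ = 9 * (NB * r) + 9 * (NB * (Sw.card * E0)) := by ring
    omega
  refine absurd hlt (not_lt.2 (RJ.le_Pot hy fun l hl0 => ?_))
  obtain ⟨l', h1, h2⟩ := RJ.nm_near (show 1 ≤ R.g by omega) hl0 hone
  have h3 : x ∈ R.W := by
    have hW : R.near.W = G.W := h.W_eq
    show x ∈ R.near.W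
    rw [hW]
    exact hx
  have h4 := hone x h3 l' h1
  omega

end

end Pool.Agent.W_7d29a1_C1.H40

namespace Pool.Agent.W_7d29a1_C1.Dep6

open MeasureTheory ProbabilityTheory Finset
open Pool.Agent.W_7d29a1_F Pool.Agent.W_7d29a1_h4g Pool.Agent.W_7d29a1_H Pool.Agent.W_7d29a1_HS
open Pool.Agent.W_7d29a1_C1.H75 Pool.Agent.W_7d29a1_C1.U16 Pool.Agent.W_7d29a1_C1.H40 Pool.Agent.W_7d29a1_C1.S71
open scoped ENNReal

noncomputable section

variable {σ Λ : Type*} {G : Geo σ Λ} {R : RJ σ} {lat : σ → ℝ} {latC : Cut Λ → ℝ} {w : ℕ → ℝ}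

/-- **THE PROBABILITY OF A SMALL POTENTIAL**, shifted scales. The depths of the layers and of the nodes have moments at ALL cuts; the layers and nodes which
contain a row of `Sw` are paid by `E₀` and by a rare set. -/
theorem potWJ6 [Inhabited Λ] {μ : Measure ℝ} [IsProbabilityMeasure μ] (h : GRJ G R.near) {A B Nt : ℕ} (t : TreeB G R.near A B Nt)
    (hr : Geo.LocRow G) {kn kb C0 : ℝ} {C2 D : ℕ} (hl : LatW G R.near lat latC w kn kb) (hC0 : 4 * (kn + kb + 1) ≤ C0)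
    (hD : 1 ≤ D) {dL : Cut Λ → Cut Λ → Env → ℕ} {dN : Cut Λ → Cut Λ → Cut Λ → Env → ℕ} {z M tl : ℝ≥0∞}
    (hL : Dp2 μ z M dL) (hN : Dp3 μ z M dN) (hz : 1 ≤ z) (hz' : z ≠ ∞) (hM : 1 ≤ M) (Sw : Finset ℤ) (E0 : ℕ)
    (htl : ∀ a b, law μ {η | E0 < dL a b η} ≤ tl)
    (scL : Cut Λ → Cut Λ → ℕ) (scN : Cut Λ → Cut Λ → Cut Λ → ℕ) {F : Finset (Cut Λ)} (hF : ∀ d, CW G d → d ∈ F)
    {T : ℕ → σ → Set Env} {bad : Set Env} {Fs : Finset (ℕ → ℕ)} {NB : ℕ} (hNB : NbF Fs NB)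
    (hT : ∀ η ∉ bad, ∀ ρ ∈ G.W, ∀ u Z, PW G Z → ODW G lat latC w C0 C2 D Z ρ u → 
      (∀ f ∈ Fs, Ok6 Sw dL dN scL scN Z (f u) η ∧ OkS6 Sw E0 scL scN Z (f u)) → η ∈ T u ρ)
    {y : ℝ≥0∞} (hy : y ≤ 1) {r b : ℕ}
    (hb : 6 * (C2 + 3) * nSt R.m R.g R.lam + 2 * ((R.m + R.g) / D) + 9 * (NB * r) + 9 * (NB * (Sw.card * E0)) ≤ b) :
    law μ {η | ∃ x ∈ G.W, R.Pot (Rl.dpT T) y x 0 η < y ^ (3 * b)} ≤
      (law μ bad + (F.card : ℝ≥0∞) ^ 2 * tl) + (nCodeJ Nt (A ^ 2) G.m R.g : ℝ≥0∞) * (3 * (M ^ (3 * (G.m + R.g) + 1) / z ^ r)) := by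
  refine (potWS99 (dpL := sw6 Sw E0 dL) (dpN := swN6 Sw E0 dN) h t hr hl hC0 hD (fun a b => ?_) (fun a b e => ?_)
    (fun a b η η' he => ?_) (fun a b e η η' he => ?_) hz hz' hM (Sw := Sw) (E0 := E0) (fun a b hs => ?_) (fun a b e hs => ?_)
    (fun a b η hs => ?_) (fun a b e η hs => ?_) scL scN (T := T) (bad := bad ∪ bad6 F dL E0) hNB
    (fun η hη ρ hρ u Z hZ ho hnL hnN => ?_) hy hb).trans (add_le_add ((measure_union_le _ _).trans
      (add_le_add le_rfl (bad6_le htl))) le_rfl)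
  · by_cases hs : HasSw Sw a b
    · have e : sw6 Sw E0 dL a b = fun _ => E0 := funext fun η => sw6_pos hs
      rw [e]; exact measurable_const
    · have e : sw6 Sw E0 dL a b = dL a b := funext fun η => sw6_neg hs
      rw [e]; exact hL.meas a b
  · by_cases hs : HasSw Sw a e
    · have e : swN6 Sw E0 dN a b e = fun _ => E0 := funext fun η => swN6_pos hs
      rw [e]; exact measurable_const
    · have e : swN6 Sw E0 dN a b e = dN a b e := funext fun η => swN6_neg hs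
      rw [e]; exact hN.meas _ _ _
  · unfold sw6
    rw [hL.rows a b η η' he]
  · unfold swN6
    rw [hN.rows a b e η η' he]
  · have e : ∀ η, sw6 Sw E0 dL a b η = dL a b η := fun η => sw6_neg hs
    simp only [e]
    exact hL.mom a b
  · have e' : ∀ η, swN6 Sw E0 dN a b e η = dN a b e η := fun η => swN6_neg hs
    simp only [e']
    exact hN.mom a b e
  · exact (sw6_pos hs).le
  · exact (swN6_pos hs).le
  · have hb1 : η ∉ bad := fun h' => hη (Or.inl h')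
    have hb2 : η ∉ bad6 F dL E0 := fun h' => hη (Or.inr h')
    refine hT η hb1 ρ hρ u Z hZ ho fun j hj => ⟨⟨fun P a b Q e => nfelt6 (hnL j hj P a b Q e) (Or.inl ?_), fun P a b d Q e hs => ?_⟩,
      ⟨fun P a b Q e hs => ?_, fun P a b d Q e hs => ?_⟩⟩
    · by_contra hc
      exact hb2 ⟨a, hF a (hZ.mem a (by rw [e]; simp)), b, hF b (hZ.mem b (by rw [e]; simp)), not_le.1 hc⟩
    · have h3 := hnN j hj P a b d Q e
      rwa [swN6_neg hs] at h3
    · have h3 := hnL j hj P a b Q e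
      rwa [sw6_pos hs] at h3
    · have h3 := hnN j hj P a b d Q e
      rwa [swN6_pos hs] at h3

end

end Pool.Agent.W_7d29a1_C1.Dep6

namespace Pool.Agent.W_7d29a1_C1.PW86

open Finset MeasureTheory
open Pool.Agent.W_7d29a1_F Pool.Agent.W_7d29a1_C1.S71
open Pool.Agent.W_7d29a1_C1.H60
open Pool.Agent.W_7d29a1_C1.G37 (Gm)
open Pool.Agent.W_7d29a1_C1.H40
open Pool.Agent.W_7d29a1_C1.Dep6
open Pool.Agent.W_7d29a1_C1.SF98
open Pool.Agent.W_7d29a1_C1.P25 (TT25)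
open Pool.Agent.W_7d29a1_C1.PS86 (rj pot86 dpT_le)
open scoped ENNReal

noncomputable section

variable (Γ : Cx) (G : Gm) (mt : ℕ) in
/-- **A CLAUSE, SHIFTED SCALES**: nothing is felt at the scales `f u`, `f ∈ Fs`. -/
def ClS86 (Fs : Finset (ℕ → ℕ)) (Sw : Finset ℤ) (E0 : ℕ) (dL : Cut (ℤ × ℤ) → Cut (ℤ × ℤ) → Env → ℕ) (dN : Cut (ℤ × ℤ) → Cut (ℤ × ℤ) → Cut (ℤ × ℤ) → Env → ℕ)
    (scL : Cut (ℤ × ℤ) → Cut (ℤ × ℤ) → ℕ) (scN : Cut (ℤ × ℤ) → Cut (ℤ × ℤ) → Cut (ℤ × ℤ) → ℕ) (C0 : ℝ) (C2 D τ : ℕ)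
    (bad : Set Env) (X : ℕ → ℤ × ℤ → Set Env) : Prop :=
  ∀ η ∉ bad, ∀ (ρ : XS Γ G mt) (u : ℕ) Z, τ ≤ u → u < G.M → PW (gj Γ G mt) Z →
    ODW (gj Γ G mt) (fun x => G.lat x.1) G.latC G.w C0 C2 D Z ρ u → 
    (∀ f ∈ Fs, Ok6 Sw dL dN scL scN Z (f u) η ∧ OkS6 Sw E0 scL scN Z (f u)) → η ∈ X u (G.loc u ρ.1)

variable {Γ : Cx} {G : Gm} {mt : ℕ} {Fs Fs' : Finset (ℕ → ℕ)} {Sw : Finset ℤ} {E0 : ℕ} {dL : Cut (ℤ × ℤ) → Cut (ℤ × ℤ) → Env → ℕ}
  {dN : Cut (ℤ × ℤ) → Cut (ℤ × ℤ) → Cut (ℤ × ℤ) → Env → ℕ} {scL : Cut (ℤ × ℤ) → Cut (ℤ × ℤ) → ℕ}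
  {scN : Cut (ℤ × ℤ) → Cut (ℤ × ℤ) → Cut (ℤ × ℤ) → ℕ} {C0 : ℝ} {C2 D τ : ℕ} {bad bad' : Set Env} {X Y : ℕ → ℤ × ℤ → Set Env}

/-- A clause is a clause with shifts. -/
theorem Cl86.toS (h : Cl86 Γ G mt Sw E0 dL dN scL scN C0 C2 D τ bad X) (h0 : id ∈ Fs) : ClS86 Γ G mt Fs Sw E0 dL dN scL scN C0 C2 D τ bad X :=
  fun η hη ρ u Z a1 a2 a3 a4 a5 => h η hη ρ u Z a1 a2 a3 a4 (a5 id h0).1 (a5 id h0).2

theorem ClS86.sub (h : ClS86 Γ G mt Fs Sw E0 dL dN scL scN C0 C2 D τ bad X) (hJ : Fs ⊆ Fs') :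
    ClS86 Γ G mt Fs' Sw E0 dL dN scL scN C0 C2 D τ bad X :=
  fun η hη ρ u Z a1 a2 a3 a4 a5 => h η hη ρ u Z a1 a2 a3 a4 fun j hj => a5 j (hJ hj)

theorem ClS86.inter (h : ClS86 Γ G mt Fs Sw E0 dL dN scL scN C0 C2 D τ bad X) (h' : ClS86 Γ G mt Fs Sw E0 dL dN scL scN C0 C2 D τ bad' Y) :
    ClS86 Γ G mt Fs Sw E0 dL dN scL scN C0 C2 D τ (bad ∪ bad') fun u κ => X u κ ∩ Y u κ := fun η hη ρ u Z a1 a2 a3 a4 a5 =>
  ⟨h η (fun h1 => hη (Or.inl h1)) ρ u Z a1 a2 a3 a4 a5, h' η (fun h1 => hη (Or.inr h1)) ρ u Z a1 a2 a3 a4 a5⟩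

theorem ClS86.mono (h : ClS86 Γ G mt Fs Sw E0 dL dN scL scN C0 C2 D τ bad X) (hb : bad ⊆ bad') (hX : ∀ u κ, X u κ ⊆ Y u κ) :
    ClS86 Γ G mt Fs Sw E0 dL dN scL scN C0 C2 D τ bad' Y := fun η hη ρ u Z a1 a2 a3 a4 a5 =>
  hX _ _ (h η (fun h1 => hη (hb h1)) ρ u Z a1 a2 a3 a4 a5)

/-- **THE CLAUSE OF THE TYPICAL EVENTS** from the four clauses, with shifts. -/
theorem htS86 {Lv : ℕ → ℤ × ℤ → Set Env} {Ou St Fw : ℝ → ℕ → ℤ × ℤ → Set Env} {bL bO bS bF : Set Env}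
    (cL : ClS86 Γ G mt Fs Sw E0 dL dN scL scN C0 C2 D τ bL Lv) (cO : ClS86 Γ G mt Fs Sw E0 dL dN scL scN C0 C2 D τ bO (Ou 0))
    (cS : ClS86 Γ G mt Fs Sw E0 dL dN scL scN C0 C2 D τ bS (St 0)) (cF : ClS86 Γ G mt Fs Sw E0 dL dN scL scN C0 C2 D τ bF (Fw 0)) :
    ClS86 Γ G mt Fs Sw E0 dL dN scL scN C0 C2 D τ (bL ∪ (bO ∪ (bS ∪ bF))) (TT25 Lv Ou St Fw 0) :=
  cL.inter (cO.inter (cS.inter cF))

section Prob

variable {lam m3 : ℕ} {TT : ℝ → ℕ → ℤ × ℤ → Set Env} {y : ℝ≥0∞}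

/-- **THE POTENTIAL IS SMALL ONLY WITH SMALL PROBABILITY**, from the clause with shifts. -/
theorem potCS86 {μ : Measure ℝ} [IsProbabilityMeasure μ] {A : ℕ} (hmt : G.M + G.m2 ≤ mt + 1) (hA : G.A0n ≤ A) (hla : G.An ≤ A ^ lam)
    (hC0 : 4 * (G.kn + (G.kb + 1) + 1) ≤ C0) (hD : 1 ≤ D) {z M tl : ℝ≥0∞}
    (hL : Dp2 μ z M dL) (hN : Dp3 μ z M dN) (hz : 1 ≤ z) (hz' : z ≠ ∞) (hM : 1 ≤ M)
    (htl : ∀ a b, law μ {η | E0 < dL a b η} ≤ tl) {σ : ℝ} (hσ : 0 ≤ σ) (mT : ∀ σ σ' u κ, σ ≤ σ' → TT σ u κ ⊆ TT σ' u κ)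
    {NB : ℕ} (hNB : NbF Fs NB)
    (hT : ClS86 Γ G mt Fs Sw E0 dL dN scL scN C0 C2 D τ bad (TT 0)) (hy : y ≤ 1) {r b : ℕ}
    (hb : 6 * (C2 + 3) * nSt G.M G.m2 lam + 2 * ((G.M + G.m2) / D) + 9 * (NB * r) + 9 * (NB * (Sw.card * E0)) ≤ b) :
    law μ {η | ∃ x : XS Γ G mt, pot86 Γ G mt lam m3 TT y τ σ x η < y ^ (3 * b)} ≤
      (law μ bad + ((FW6 (gj Γ G mt)).card : ℝ≥0∞) ^ 2 * tl) +
        (nCodeJ (max 1 ((FS Γ G mt).image (G.loc mt)).card) (A ^ 2) mt G.m2 : ℝ≥0∞) *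
          (3 * (M ^ (3 * (mt + G.m2) + 1) / z ^ r)) := by
  refine (measure_mono (lt_sub hy mT hσ _)).trans ?_
  exact potWJ6 (G := gj Γ G mt) (R := rj Γ G mt lam m3) (G.grjG hmt) (G.treeG hA hla) (G.locRowJ _ _ _) (C0 := C0) (C2 := C2)
    (D := D) (latW G) hC0 hD hL hN hz hz' hM Sw E0 htl scL scN (F := FW6 (gj Γ G mt)) (fun _ h => mem_FW6 h)
    (T := fun u ρ => TW Γ G mt TT τ u ρ) (bad := bad) hNB
    (fun η hη ρ _ u Z h1 h2 h3 => fun h7 h8 => hT η hη ρ u Z h7 h8 h1 h2 h3) hy hb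

end Prob

end

end Pool.Agent.W_7d29a1_C1.PW86
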