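import Pool.Agent.W_7d29a1_C1.ChnS40

/-!
MP_7d29a1_pr, the attractor route: TWO INDEX CHAINS WITH LOWER CUTS (helper40): own data of a far step, common part and part 1.
-/

set_option autoImplicit false

namespace Pool.Agent.W_7d29a1_C1.H40

open MeasureTheory ProbabilityTheory Finset
open Pool.Agent.W_7d29a1_F Pool.Agent.W_7d29a1_C1.S71
open scoped ENNReal Classical

noncomputable section

variable {σ Λ : Type*} {G : Geo σ Λ} {R : RJ σ} {lat : σ → ℝ} {latC : Cut Λ → ℝ} {w : ℕ → ℝ}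

/-- The rest of the list above a far step. -/
theorem far_rest {kn kb C0 : ℝ} {C2 D : ℕ} (h : GRJ G R) (hl : LatW G R lat latC w kn kb) (hC0 : 4 * (kn + kb + 1) ≤ C0)
    (hD : 1 ≤ D) {x : σ} {τ : ℕ} {L : List (Cut Λ)} {c : SJ σ} {l : List (SJ σ)} (hc : R.Ok x τ c)
    (hcl : R.IsC (RJ.nxc x c) (c.j + R.g) l) (hL : InvW lat latC w (kn + kb + 1) x τ L) {u : ℕ}
    (hk : c.k ≠ Kd.stay) (hex : ∀ d ∈ c :: l, u ∉ Ex (C2 + 3) D d) :
    ∀ (y : σ), |lat (RJ.nxc x c) - lat y| ≤ (kn + kb) * w (c.j + 1) →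
      -(2 * G.T c.s : ℤ) ≤ G.row (RJ.nxc x c) - G.row y → G.row (RJ.nxc x c) - G.row y ≤ 2 * G.T (c.i + 1) + G.T (c.s - 2) →
      u < c.j + 2 →
      ∃ P Tw, cutW G R (RJ.nxc x c) (c.j + R.g) (stepW G R x τ L c) l = P ++ (stepW G R x τ L c ++ Tw) ∧
        TB G lat latC y (BT w C0 D u) (c.j + 2) (G.up (RJ.nxc x c) (c.j + 2) (R.g - 2) ++ Tw) ∧
        c.j + R.g + Tw.length = G.m + 1 := by
  have hg := h.g_ge
  have hml := h.m_le
  have hkn := hl.kn_nonneg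
  have hkb := hl.kb_nonneg
  have hmono := hl.mono
  have hc' := hc
  obtain ⟨h1, h2, h3, h3', h4, h5, h6, h7, h8, h9⟩ := hc'
  have hL1 := hL
  have hexc : u ∉ Ex (C2 + 3) D c := hex c (List.mem_cons_self ..)
  have hexl : ∀ d ∈ l, u ∉ Ex (C2 + 3) D d := fun d hd => hex d (List.mem_cons_of_mem _ hd)
  have w0 := hl.w_nonneg (c.j + 1)
  have q0 := Nat.zero_le ((c.j - c.i) / D)
  have hcoef := fun v' v hv => lw_c hl.toLatJ hC0 v' v hv
  obtain ⟨l1, l2, l3, l4, l5, l6⟩ := nxc_lat hl.toLatJ hc hk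
  obtain ⟨⟨r1, r2⟩, ⟨r3, r4, r5⟩, ⟨r6, r7⟩, r8, r9⟩ := nxc_row h hc hk
  obtain ⟨hm, hd⟩ := h9 hk
  obtain ⟨m1, m2⟩ := h.mv _ _ _ _ hm
  have s1 : (8 * G.T (c.i + 1) : ℤ) ≤ G.T (c.i + 2) := by exact_mod_cast G.T_succ (c.i + 1)
  have s2 : (G.T (c.i + 2) : ℤ) ≤ G.T (c.j + 2) := by exact_mod_cast G.T_mono (by omega)
  have s3 : (G.T (c.j + 2) : ℤ) ≤ G.T (c.j + R.g - 1) := by exact_mod_cast G.T_mono (by omega)
  have s4 : (G.T (c.s - 2) : ℤ) ≤ G.T c.s := by exact_mod_cast G.T_mono (by omega)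
  have s5 : (8 * G.T c.i : ℤ) ≤ G.T (c.i + 1) := by exact_mod_cast G.T_succ c.i
  have s6a : (8 * G.T c.s : ℤ) ≤ G.T (c.s + 1) := by exact_mod_cast G.T_succ c.s
  have s6b : (G.T (c.s + 1) : ℤ) ≤ G.T c.i := by exact_mod_cast G.T_mono (show c.s + 1 ≤ c.i by omega)
  have s7 : (0 : ℤ) ≤ G.T c.s := by positivity
  have s8 : (0 : ℤ) ≤ G.T (c.s - 2) := by positivity
  -- distances of the next centre
  have dp1 : -(2 * G.T c.s : ℤ) ≤ G.row (RJ.nxc x c) - G.row c.p ∧ G.row (RJ.nxc x c) - G.row c.p ≤ 2 * G.T (c.i + 1) :=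
    ⟨by linarith, by linarith⟩
  have dq1 : 0 ≤ G.row (RJ.nxc x c) - G.row c.q ∧ G.row (RJ.nxc x c) - G.row c.q ≤ 2 * G.T (c.i + 1) + G.T (c.s - 2) :=
    ⟨by linarith, by linarith⟩
  have wsj : w c.s ≤ w (c.j + 1) := hmono (by omega)
  have wτj : w τ ≤ w (c.j + 1) := hmono (by omega)
  have wtj : 2 * w (c.j + 1) ≤ w (c.j + R.g - 1) := hl.two (by omega)
  have kws := mul_le_mul_of_nonneg_left wsj hkb
  have kwt := mul_le_mul_of_nonneg_left wτj (show 0 ≤ kn + kb + 1 by linarith)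
  have kwj := mul_le_mul_of_nonneg_left wtj (show 0 ≤ kn + kb + 1 by linarith)
  have kn0 := mul_nonneg hkn w0
  have kb0 := mul_nonneg hkb w0
  intro y y1 y2 y3 huj
  obtain ⟨P, Tw, e, h11, h12⟩ := towerW (lat := lat) (latC := latC) (C1 := C2 + 3) (L := stepW G R x τ L c) h hl hC0 hD (by omega)
    (ρ := y) (u := u) (y := RJ.nxc x c) (τ := c.j + R.g) (by omega) (by omega)
    (y1.trans (by linarith)) (by linarith) (by linarith) hcl hexl
  refine ⟨P, Tw, e, (TB.up fun v hv hv' => ⟨ct_RB ?_ ?_, ?_⟩).append ?_, h12⟩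
  · have t1 : (G.T (c.j + 2) : ℤ) ≤ G.T v := by exact_mod_cast G.T_mono hv
    linarith
  · have t1 : (G.T (c.j + 2) : ℤ) ≤ G.T v := by exact_mod_cast G.T_mono hv
    linarith
  · have a1 := abs3 (hl.ctl v (RJ.nxc x c)) y1
    have a2 := lw_B hl.toLatJ hC0 (D := D) (u := u) v v (Nat.le_add_right _ _)
    have a3 : w (c.j + 1) ≤ w v := hmono (by omega)
    have a4 := mul_le_mul_of_nonneg_left a3 (show 0 ≤ kn + kb by linarith)
    have a5 := hl.w_nonneg v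
    have a6 := mul_nonneg hkn a5
    have a7 := mul_nonneg hkb a5
    linarith
  · rw [Geo.up_length]
    rwa [show c.j + 2 + (R.g - 2) = c.j + R.g by omega]

/-- The block below the tower. -/
theorem far_blk {kn kb : ℝ} (hl : LatW G R lat latC w kn kb) {x : σ} {τ : ℕ} {L : List (Cut Λ)} {c : SJ σ} (hc : R.Ok x τ c)
    (hL : InvW lat latC w (kn + kb + 1) x τ L) :
    ∀ (y : σ), |lat x - lat y| ≤ (kn + kb) * w (c.j + 1) → ∀ d ∈ L ++ G.up x τ (c.i + 2 - τ),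
      d.sc ≤ c.i + 1 ∧ |latC d - lat y| ≤ 4 * (kn + kb + 1) * w (c.j + 1) := by
  have hkn := hl.kn_nonneg
  have hkb := hl.kb_nonneg
  have hmono := hl.mono
  obtain ⟨h1, h2, h3, h3', h4, h5, h6, h7, h8, h9⟩ := hc
  have hL1 := hL
  have w0 := hl.w_nonneg (c.j + 1)
  have wτj : w τ ≤ w (c.j + 1) := hmono (by omega)
  have kwt := mul_le_mul_of_nonneg_left wτj (show 0 ≤ kn + kb + 1 by linarith)
  have kn0 := mul_nonneg hkn w0
  have kb0 := mul_nonneg hkb w0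
  intro y hy d hd
  rcases List.mem_append.1 hd with hd | hd
  · obtain ⟨a1, a2⟩ := hL1 d hd
    have a3 := abs3 a2 hy
    exact ⟨by omega, by linarith⟩
  · obtain ⟨v, v1, v2, rfl⟩ := mem_up hd
    have a1 := abs3 (hl.ctl v x) hy
    have a2 : w v ≤ w (c.j + 1) := hmono (by omega)
    exact ⟨(show v ≤ c.i + 1 by omega), by linarith⟩

/-- The cuts of `p` above the block. -/
theorem far_mid {kn kb C0 : ℝ} {D : ℕ} (hl : LatW G R lat latC w kn kb) (hC0 : 4 * (kn + kb + 1) ≤ C0) {x : σ} {τ : ℕ}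
    {c : SJ σ} (hc : R.Ok x τ c) {u : ℕ} :
    ∀ (y : σ), |lat c.p - lat y| ≤ kb * w c.s → -(2 * G.T c.s : ℤ) ≤ G.row c.p - G.row y →
      G.row c.p - G.row y ≤ 2 * G.T c.s → ∀ v, c.i + 2 ≤ v →
      RB G y v (G.ct v c.p) ∧ |latC (G.ct v c.p) - lat y| ≤ BT w C0 D u v := by
  have hkn := hl.kn_nonneg
  have hkb := hl.kb_nonneg
  have hmono := hl.mono
  obtain ⟨h1, h2, h3, h3', h4, h5, h6, h7, h8, h9⟩ := hc
  have s5 : (8 * G.T c.i : ℤ) ≤ G.T (c.i + 1) := by exact_mod_cast G.T_succ c.i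
  have s1 : (8 * G.T (c.i + 1) : ℤ) ≤ G.T (c.i + 2) := by exact_mod_cast G.T_succ (c.i + 1)
  have s6a : (8 * G.T c.s : ℤ) ≤ G.T (c.s + 1) := by exact_mod_cast G.T_succ c.s
  have s6b : (G.T (c.s + 1) : ℤ) ≤ G.T c.i := by exact_mod_cast G.T_mono (show c.s + 1 ≤ c.i by omega)
  have s7 : (0 : ℤ) ≤ G.T c.s := by positivity
  intro y y1 y2 y3 v hv
  have t1 : (G.T (c.i + 2) : ℤ) ≤ G.T v := by exact_mod_cast G.T_mono hv
  refine ⟨ct_RB (by linarith) (by linarith), ?_⟩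
  have a1 := abs3 (hl.ctl v c.p) y1
  have a2 := lw_B hl.toLatJ hC0 (D := D) (u := u) v v (Nat.le_add_right _ _)
  have a3 : w c.s ≤ w v := hmono (by omega)
  have a4 := mul_le_mul_of_nonneg_left a3 hkb
  have a5 := hl.w_nonneg v
  have a6 := mul_nonneg hkn a5
  have a7 := mul_nonneg hkb a5
  linarith

/-- Own data of a far step, part 1. -/
theorem own_far1W {kn kb C0 : ℝ} {C2 D : ℕ} (h : GRJ G R) (hl : LatW G R lat latC w kn kb) (hC0 : 4 * (kn + kb + 1) ≤ C0)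
    (hD : 1 ≤ D) {x : σ} {τ : ℕ} {L : List (Cut Λ)} {c : SJ σ} {l : List (SJ σ)} (hc : R.Ok x τ c)
    (hcl : R.IsC (RJ.nxc x c) (c.j + R.g) l) (hL : InvW lat latC w (kn + kb + 1) x τ L) {u : ℕ}
    (hk : c.k ≠ Kd.stay) (hau : c.a ≤ u) (hus : u < c.s) (hex : ∀ d ∈ c :: l, u ∉ Ex (C2 + 3) D d) :
    ODW G lat latC w C0 C2 D (cutW G R (RJ.nxc x c) (c.j + R.g) (stepW G R x τ L c) l) c.p u := by
  have hg := h.g_ge
  have hml := h.m_le
  have hkn := hl.kn_nonneg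
  have hkb := hl.kb_nonneg
  have hmono := hl.mono
  have hc' := hc
  obtain ⟨h1, h2, h3, h3', h4, h5, h6, h7, h8, h9⟩ := hc'
  have hL1 := hL
  have hexc : u ∉ Ex (C2 + 3) D c := hex c (List.mem_cons_self ..)
  have hexl : ∀ d ∈ l, u ∉ Ex (C2 + 3) D d := fun d hd => hex d (List.mem_cons_of_mem _ hd)
  have w0 := hl.w_nonneg (c.j + 1)
  have q0 := Nat.zero_le ((c.j - c.i) / D)
  have hcoef := fun v' v hv => lw_c hl.toLatJ hC0 v' v hv
  obtain ⟨l1, l2, l3, l4, l5, l6⟩ := nxc_lat hl.toLatJ hc hk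
  obtain ⟨⟨r1, r2⟩, ⟨r3, r4, r5⟩, ⟨r6, r7⟩, r8, r9⟩ := nxc_row h hc hk
  obtain ⟨hm, hd⟩ := h9 hk
  obtain ⟨m1, m2⟩ := h.mv _ _ _ _ hm
  have s1 : (8 * G.T (c.i + 1) : ℤ) ≤ G.T (c.i + 2) := by exact_mod_cast G.T_succ (c.i + 1)
  have s2 : (G.T (c.i + 2) : ℤ) ≤ G.T (c.j + 2) := by exact_mod_cast G.T_mono (by omega)
  have s3 : (G.T (c.j + 2) : ℤ) ≤ G.T (c.j + R.g - 1) := by exact_mod_cast G.T_mono (by omega)
  have s4 : (G.T (c.s - 2) : ℤ) ≤ G.T c.s := by exact_mod_cast G.T_mono (by omega)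
  have s5 : (8 * G.T c.i : ℤ) ≤ G.T (c.i + 1) := by exact_mod_cast G.T_succ c.i
  have s6a : (8 * G.T c.s : ℤ) ≤ G.T (c.s + 1) := by exact_mod_cast G.T_succ c.s
  have s6b : (G.T (c.s + 1) : ℤ) ≤ G.T c.i := by exact_mod_cast G.T_mono (show c.s + 1 ≤ c.i by omega)
  have s7 : (0 : ℤ) ≤ G.T c.s := by positivity
  have s8 : (0 : ℤ) ≤ G.T (c.s - 2) := by positivity
  -- distances of the next centre
  have dp1 : -(2 * G.T c.s : ℤ) ≤ G.row (RJ.nxc x c) - G.row c.p ∧ G.row (RJ.nxc x c) - G.row c.p ≤ 2 * G.T (c.i + 1) :=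
    ⟨by linarith, by linarith⟩
  have dq1 : 0 ≤ G.row (RJ.nxc x c) - G.row c.q ∧ G.row (RJ.nxc x c) - G.row c.q ≤ 2 * G.T (c.i + 1) + G.T (c.s - 2) :=
    ⟨by linarith, by linarith⟩
  have wsj : w c.s ≤ w (c.j + 1) := hmono (by omega)
  have wτj : w τ ≤ w (c.j + 1) := hmono (by omega)
  have wtj : 2 * w (c.j + 1) ≤ w (c.j + R.g - 1) := hl.two (by omega)
  have kws := mul_le_mul_of_nonneg_left wsj hkb
  have kwt := mul_le_mul_of_nonneg_left wτj (show 0 ≤ kn + kb + 1 by linarith)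
  have kwj := mul_le_mul_of_nonneg_left wtj (show 0 ≤ kn + kb + 1 by linarith)
  have kn0 := mul_nonneg hkn w0
  have kb0 := mul_nonneg hkb w0
  have hrest := far_rest h hl hC0 hD hc hcl hL hk hex
  have hblk := far_blk hl hc hL
  have hmidp := far_mid (D := D) (u := u) hl hC0 hc
  have hpp : |lat c.p - lat c.p| ≤ kb * w c.s := by
    rw [sub_self, abs_zero]
    exact mul_nonneg hkb (hl.w_nonneg _)
  have hue := not_Ex hexc (show u < c.i by omega)
  have hua : c.a + (C2 + 3) ≤ u ∧ u + (C2 + 3) < c.s := by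
    unfold Ex at hexc
    simp only [mem_union, mem_Ico, not_or] at hexc
    omega
  have har := exp_arith hD hue (by omega) h3' (show c.i ≤ (c.i - 1) + 1 by omega)
  obtain ⟨P, Tw, e, h11, h12⟩ := hrest c.p (by rwa [abs_sub_comm]) (by linarith [dp1.1]) (by linarith [dp1.2]) (by omega)
  rw [e, stepW_far hk]
  refine ⟨c.a, c.i - 1, c.s, P ++ (G.dl c.p (c.i + 2) (c.j - c.i) ++ G.dl c.q (c.s + 1) (c.i - c.s)),
    G.dl c.p c.a (c.s + 1 - c.a), [], G.up c.p c.a (c.s - c.a) ++ G.up c.q c.s (c.i - c.s),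
    L ++ G.up x τ (c.i + 2 - τ), G.up c.p (c.i + 2) (c.j - c.i) ++ (G.up (RJ.nxc x c) (c.j + 2) (R.g - 2) ++ Tw),
    ?_, by omega, by omega, by omega, DB.dl hl c.p _ _, Geo.dl_length _ _ _, fun d hd => absurd hd (by simp), ?_, ?_, ?_,
    ?_, ?_, ?_, ⟨c.s - c.a, _, rfl, by omega⟩, rfl⟩
  · unfold lowW uppW
    simp only [List.append_assoc, List.nil_append]
  · refine (TB.up fun v _ _ => ⟨self_RB c.p v, self_i hl.toLatJ hC0 c.p v⟩).append ?_
    rw [Geo.up_length, show c.a + (c.s - c.a) = c.s by omega]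
    refine TB.up fun v hvs hv' => ?_
    have t1 : (G.T c.s : ℤ) ≤ G.T v := by exact_mod_cast G.T_mono hvs
    have t2 : (2 * G.T (c.s - 2) : ℤ) ≤ G.T c.s := by
      have t3 : (8 * G.T (c.s - 1) : ℤ) ≤ G.T c.s := by
        have := G.T_succ (c.s - 1)
        rw [show c.s - 1 + 1 = c.s by omega] at this
        exact_mod_cast this
      have t4 : (G.T (c.s - 2) : ℤ) ≤ G.T (c.s - 1) := by exact_mod_cast G.T_mono (by omega)
      have t5 : (0 : ℤ) ≤ G.T (c.s - 1) := by positivity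
      linarith
    refine ⟨ct_RB (by linarith) (by linarith), ?_⟩
    rw [if_neg (show ¬ v ≤ u + C2 by omega)]
    have a1 := abs3 (hl.ctl v c.q) (show |lat c.q - lat c.p| ≤ kb * w c.s by rwa [abs_sub_comm])
    have a2 := hcoef v v le_rfl
    have a3 : w c.s ≤ w v := hmono hvs
    have a4 := mul_le_mul_of_nonneg_left a3 hkb
    have a5 := hl.w_nonneg v
    have a6 := mul_nonneg hkn a5
    have a7 := mul_nonneg hkb a5
    linarith
  · rw [List.length_append, Geo.up_length, Geo.up_length]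
    omega
  · intro d hd
    obtain ⟨a1, a2⟩ := hblk c.p (l4.trans (by linarith)) d hd
    exact ⟨by omega, a2.trans (hcoef _ _ har)⟩
  · rw [show c.i - 1 + 3 = c.i + 2 by omega]
    refine (TB.up fun v hv _ => hmidp c.p hpp (by linarith) (by linarith) v hv).append ?_
    rw [Geo.up_length]
    rwa [show c.i + 2 + (c.j - c.i) = c.j + 2 by omega]
  · simp only [List.length_append, Geo.up_length]
    omega
  · intro he
    have := congrArg List.length he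
    simp only [List.length_append, Geo.up_length, List.length_nil] at this
    omega

end

end Pool.Agent.W_7d29a1_C1.H40
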