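import Pool.Agent.W_7d29a1_C1.ChnSa40

/-!
MP_7d29a1_pr, the attractor route: TWO INDEX CHAINS WITH LOWER CUTS (helper40): own data of every unexposed own slab.
-/

set_option autoImplicit false

namespace Pool.Agent.W_7d29a1_C1.H40

open MeasureTheory ProbabilityTheory Finset
open Pool.Agent.W_7d29a1_F Pool.Agent.W_7d29a1_C1.S71
open scoped ENNReal Classical

noncomputable section

variable {σ Λ : Type*} {G : Geo σ Λ} {R : RJ σ} {lat : σ → ℝ} {latC : Cut Λ → ℝ} {w : ℕ → ℝ}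

/-- Own data of a far step, part 2. -/
theorem own_far2W {kn kb C0 : ℝ} {C2 D : ℕ} (h : GRJ G R) (hl : LatW G R lat latC w kn kb) (hC0 : 4 * (kn + kb + 1) ≤ C0)
    (hD : 1 ≤ D) {x : σ} {τ : ℕ} {L : List (Cut Λ)} {c : SJ σ} {l : List (SJ σ)} (hc : R.Ok x τ c)
    (hcl : R.IsC (RJ.nxc x c) (c.j + R.g) l) (hL : InvW lat latC w (kn + kb + 1) x τ L) {u : ℕ}
    (hk : c.k ≠ Kd.stay) (hsu : c.s ≤ u) (hui : u < c.i) (hex : ∀ d ∈ c :: l, u ∉ Ex (C2 + 3) D d) :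
    ODW G lat latC w C0 C2 D (cutW G R (RJ.nxc x c) (c.j + R.g) (stepW G R x τ L c) l) c.q u := by
  have hg := h.g_ge
  have hml := h.m_le
  have hkn := hl.kn_nonneg
  have hkb := hl.kb_nonneg
  have hmono := hl.mono
  have hc' := hc
  obtain ⟨h1, h2, h3, h3', h4, h5, h6, h7, h8, h9⟩ := hc'
  have hL1 := hL
  have hexc : u ∉ Ex (C2 + 3) D c := hex c (List.mem_cons_self ..)
  have hexl : ∀ d ∈ l, u ∉ Ex (C2 + 3) D d := fun d hd => hex d (List.mem_cons_of_mem _ hd)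
  have w0 := hl.w_nonneg (c.j + 1)
  have q0 := Nat.zero_le ((c.j - c.i) / D)
  have hcoef := fun v' v hv => lw_c hl.toLatJ hC0 v' v hv
  obtain ⟨l1, l2, l3, l4, l5, l6⟩ := nxc_lat hl.toLatJ hc hk
  obtain ⟨⟨r1, r2⟩, ⟨r3, r4, r5⟩, ⟨r6, r7⟩, r8, r9⟩ := nxc_row h hc hk
  obtain ⟨hm, hd⟩ := h9 hk
  obtain ⟨m1, m2⟩ := h.mv _ _ _ _ hm
  have s1 : (8 * G.T (c.i + 1) : ℤ) ≤ G.T (c.i + 2) := by exact_mod_cast G.T_succ (c.i + 1)
  have s2 : (G.T (c.i + 2) : ℤ) ≤ G.T (c.j + 2) := by exact_mod_cast G.T_mono (by omega)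
  have s3 : (G.T (c.j + 2) : ℤ) ≤ G.T (c.j + R.g - 1) := by exact_mod_cast G.T_mono (by omega)
  have s4 : (G.T (c.s - 2) : ℤ) ≤ G.T c.s := by exact_mod_cast G.T_mono (by omega)
  have s5 : (8 * G.T c.i : ℤ) ≤ G.T (c.i + 1) := by exact_mod_cast G.T_succ c.i
  have s6a : (8 * G.T c.s : ℤ) ≤ G.T (c.s + 1) := by exact_mod_cast G.T_succ c.s
  have s6b : (G.T (c.s + 1) : ℤ) ≤ G.T c.i := by exact_mod_cast G.T_mono (show c.s + 1 ≤ c.i by omega)
  have s7 : (0 : ℤ) ≤ G.T c.s := by positivity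
  have s8 : (0 : ℤ) ≤ G.T (c.s - 2) := by positivity
  -- distances of the next centre
  have dp1 : -(2 * G.T c.s : ℤ) ≤ G.row (RJ.nxc x c) - G.row c.p ∧ G.row (RJ.nxc x c) - G.row c.p ≤ 2 * G.T (c.i + 1) :=
    ⟨by linarith, by linarith⟩
  have dq1 : 0 ≤ G.row (RJ.nxc x c) - G.row c.q ∧ G.row (RJ.nxc x c) - G.row c.q ≤ 2 * G.T (c.i + 1) + G.T (c.s - 2) :=
    ⟨by linarith, by linarith⟩
  have wsj : w c.s ≤ w (c.j + 1) := hmono (by omega)
  have wτj : w τ ≤ w (c.j + 1) := hmono (by omega)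
  have wtj : 2 * w (c.j + 1) ≤ w (c.j + R.g - 1) := hl.two (by omega)
  have kws := mul_le_mul_of_nonneg_left wsj hkb
  have kwt := mul_le_mul_of_nonneg_left wτj (show 0 ≤ kn + kb + 1 by linarith)
  have kwj := mul_le_mul_of_nonneg_left wtj (show 0 ≤ kn + kb + 1 by linarith)
  have kn0 := mul_nonneg hkn w0
  have kb0 := mul_nonneg hkb w0
  have hrest := far_rest h hl hC0 hD hc hcl hL hk hex
  have hblk := far_blk hl hc hL
  have hmidp := far_mid (D := D) (u := u) hl hC0 hc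
  have hpp : |lat c.p - lat c.p| ≤ kb * w c.s := by
    rw [sub_self, abs_zero]
    exact mul_nonneg hkb (hl.w_nonneg _)
  have hue := not_Ex hexc hui
  have hus : c.s + (C2 + 3) ≤ u := by
    unfold Ex at hexc
    simp only [mem_union, mem_Ico, not_or] at hexc
    omega
  have har := exp_arith hD hue (by omega) h3' (show c.i ≤ (c.i - 1) + 1 by omega)
  obtain ⟨P, Tw, e, h11, h12⟩ := hrest c.q (by rwa [abs_sub_comm]) (by linarith [dq1.1]) dq1.2 (by omega)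
  rw [e, stepW_far hk]
  have hlow : ∀ d ∈ G.dl c.p c.a (c.s + 1 - c.a) ++ (G.up c.p c.a (c.s - c.a) ++ G.up c.q c.s 1), d.sc ≤ c.s + 1 ∧
      |latC d - lat c.q| ≤ C0 * w (c.s + 1 + D * (u - (c.s + 1))) := by
    intro d hd
    have a2 := hcoef c.s (c.s + 1 + D * (u - (c.s + 1))) (by omega)
    have a5 := hl.w_nonneg c.s
    have a6 := mul_nonneg hkn a5
    have a7 := mul_nonneg hkb a5
    have key : ∀ b, b ≤ w c.s → |latC d - lat c.p| ≤ b → |latC d - lat c.q| ≤ C0 * w (c.s + 1 + D * (u - (c.s + 1))) := by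
      intro b hb1 hb2
      have a1 := abs3 hb2 l5
      linarith
    simp only [List.mem_append] at hd
    rcases hd with hd | hd | hd
    · obtain ⟨v, v1, v2, rfl⟩ := Geo.mem_dl hd
      exact ⟨(show v ≤ c.s + 1 by omega), key _ (hmono (by omega)) (hl.lbl _ _)⟩
    · obtain ⟨v, v1, v2, rfl⟩ := mem_up hd
      exact ⟨(show v ≤ c.s + 1 by omega), key _ (hmono (by omega)) (hl.ctl _ _)⟩
    · obtain ⟨v, v1, v2, rfl⟩ := mem_up hd
      have hv : v = c.s := by omega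
      subst hv
      refine ⟨(show c.s ≤ c.s + 1 by omega), (hl.ctl _ _).trans ?_⟩
      linarith
  refine ⟨c.s + 1, c.i - 1, c.i, P ++ G.dl c.p (c.i + 2) (c.j - c.i), G.dl c.q (c.s + 1) (c.i - c.s),
    G.dl c.p c.a (c.s + 1 - c.a) ++ (G.up c.p c.a (c.s - c.a) ++ G.up c.q c.s 1), G.up c.q (c.s + 1) (c.i - c.s - 1),
    L ++ G.up x τ (c.i + 2 - τ), G.up c.p (c.i + 2) (c.j - c.i) ++ (G.up (RJ.nxc x c) (c.j + 2) (R.g - 2) ++ Tw),
    ?_, by omega, by omega, by omega, DB.dl hl c.q _ _, ?_, hlow, ?_, ?_, ?_, ?_, ?_, ?_,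
    ⟨c.i - c.s - 1, [], (List.append_nil _).symm, by omega⟩, by rw [show c.i + 1 - (c.s + 1) = c.i - c.s by omega]⟩
  · have e4 : G.up c.q c.s (c.i - c.s) = G.up c.q c.s 1 ++ G.up c.q (c.s + 1) (c.i - c.s - 1) := by
      rw [← Geo.up_add, show 1 + (c.i - c.s - 1) = c.i - c.s by omega]
    unfold lowW uppW
    rw [e4]
    simp only [List.append_assoc]
  · rw [Geo.dl_length]
    omega
  · exact TB.up fun v _ _ => ⟨self_RB c.q v, self_i hl.toLatJ hC0 c.q v⟩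
  · rw [Geo.up_length]
    omega
  · intro d hd
    obtain ⟨a1, a2⟩ := hblk c.q l6 d hd
    exact ⟨by omega, a2.trans (hcoef _ _ har)⟩
  · rw [show c.i - 1 + 3 = c.i + 2 by omega]
    refine (TB.up fun v hv _ => hmidp c.q l5 (by linarith) (by linarith) v hv).append ?_
    rw [Geo.up_length]
    rwa [show c.i + 2 + (c.j - c.i) = c.j + 2 by omega]
  · simp only [List.length_append, Geo.up_length]
    omega
  · intro he
    have := congrArg List.length he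
    simp only [List.length_append, Geo.up_length, List.length_nil] at this
    omega

/-- Own data of a far step, part 3. -/
theorem own_far3W {kn kb C0 : ℝ} {C2 D : ℕ} (h : GRJ G R) (hl : LatW G R lat latC w kn kb) (hC0 : 4 * (kn + kb + 1) ≤ C0)
    (hD : 1 ≤ D) {x : σ} {τ : ℕ} {L : List (Cut Λ)} {c : SJ σ} {l : List (SJ σ)} (hc : R.Ok x τ c)
    (hcl : R.IsC (RJ.nxc x c) (c.j + R.g) l) (hL : InvW lat latC w (kn + kb + 1) x τ L) {u : ℕ}
    (hk : c.k ≠ Kd.stay) (hiu : c.i ≤ u) (huj : u < c.j) (hex : ∀ d ∈ c :: l, u ∉ Ex (C2 + 3) D d) :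
    ODW G lat latC w C0 C2 D (cutW G R (RJ.nxc x c) (c.j + R.g) (stepW G R x τ L c) l) c.p u := by
  have hg := h.g_ge
  have hml := h.m_le
  have hkn := hl.kn_nonneg
  have hkb := hl.kb_nonneg
  have hmono := hl.mono
  have hc' := hc
  obtain ⟨h1, h2, h3, h3', h4, h5, h6, h7, h8, h9⟩ := hc'
  have hL1 := hL
  have hexc : u ∉ Ex (C2 + 3) D c := hex c (List.mem_cons_self ..)
  have hexl : ∀ d ∈ l, u ∉ Ex (C2 + 3) D d := fun d hd => hex d (List.mem_cons_of_mem _ hd)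
  have w0 := hl.w_nonneg (c.j + 1)
  have q0 := Nat.zero_le ((c.j - c.i) / D)
  have hcoef := fun v' v hv => lw_c hl.toLatJ hC0 v' v hv
  obtain ⟨l1, l2, l3, l4, l5, l6⟩ := nxc_lat hl.toLatJ hc hk
  obtain ⟨⟨r1, r2⟩, ⟨r3, r4, r5⟩, ⟨r6, r7⟩, r8, r9⟩ := nxc_row h hc hk
  obtain ⟨hm, hd⟩ := h9 hk
  obtain ⟨m1, m2⟩ := h.mv _ _ _ _ hm
  have s1 : (8 * G.T (c.i + 1) : ℤ) ≤ G.T (c.i + 2) := by exact_mod_cast G.T_succ (c.i + 1)
  have s2 : (G.T (c.i + 2) : ℤ) ≤ G.T (c.j + 2) := by exact_mod_cast G.T_mono (by omega)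
  have s3 : (G.T (c.j + 2) : ℤ) ≤ G.T (c.j + R.g - 1) := by exact_mod_cast G.T_mono (by omega)
  have s4 : (G.T (c.s - 2) : ℤ) ≤ G.T c.s := by exact_mod_cast G.T_mono (by omega)
  have s5 : (8 * G.T c.i : ℤ) ≤ G.T (c.i + 1) := by exact_mod_cast G.T_succ c.i
  have s6a : (8 * G.T c.s : ℤ) ≤ G.T (c.s + 1) := by exact_mod_cast G.T_succ c.s
  have s6b : (G.T (c.s + 1) : ℤ) ≤ G.T c.i := by exact_mod_cast G.T_mono (show c.s + 1 ≤ c.i by omega)
  have s7 : (0 : ℤ) ≤ G.T c.s := by positivity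
  have s8 : (0 : ℤ) ≤ G.T (c.s - 2) := by positivity
  -- distances of the next centre
  have dp1 : -(2 * G.T c.s : ℤ) ≤ G.row (RJ.nxc x c) - G.row c.p ∧ G.row (RJ.nxc x c) - G.row c.p ≤ 2 * G.T (c.i + 1) :=
    ⟨by linarith, by linarith⟩
  have dq1 : 0 ≤ G.row (RJ.nxc x c) - G.row c.q ∧ G.row (RJ.nxc x c) - G.row c.q ≤ 2 * G.T (c.i + 1) + G.T (c.s - 2) :=
    ⟨by linarith, by linarith⟩
  have wsj : w c.s ≤ w (c.j + 1) := hmono (by omega)
  have wτj : w τ ≤ w (c.j + 1) := hmono (by omega)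
  have wtj : 2 * w (c.j + 1) ≤ w (c.j + R.g - 1) := hl.two (by omega)
  have kws := mul_le_mul_of_nonneg_left wsj hkb
  have kwt := mul_le_mul_of_nonneg_left wτj (show 0 ≤ kn + kb + 1 by linarith)
  have kwj := mul_le_mul_of_nonneg_left wtj (show 0 ≤ kn + kb + 1 by linarith)
  have kn0 := mul_nonneg hkn w0
  have kb0 := mul_nonneg hkb w0
  have hrest := far_rest h hl hC0 hD hc hcl hL hk hex
  have hblk := far_blk hl hc hL
  have hmidp := far_mid (D := D) (u := u) hl hC0 hc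
  have hpp : |lat c.p - lat c.p| ≤ kb * w c.s := by
    rw [sub_self, abs_zero]
    exact mul_nonneg hkb (hl.w_nonneg _)
  have hue : c.i + ((C2 + 3) + (c.j - c.i) / D) ≤ u ∧ u + (C2 + 3) < c.j := by
    unfold Ex at hexc
    simp only [mem_union, mem_Ico, not_or] at hexc
    omega
  have har := exp_arith' hD hue.1 (by omega) h3'
  obtain ⟨P, Tw, e, h11, h12⟩ := hrest c.p (by rwa [abs_sub_comm]) (by linarith [dp1.1]) (by linarith [dp1.2]) (by omega)
  rw [e, stepW_far hk]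
  refine ⟨c.i + 2, c.j - 1, c.j + 1, P, G.dl c.p (c.i + 2) (c.j - c.i),
    (G.dl c.q (c.s + 1) (c.i - c.s) ++ (G.dl c.p c.a (c.s + 1 - c.a) ++ (G.up c.p c.a (c.s - c.a) ++
      G.up c.q c.s (c.i - c.s)))) ++ (L ++ G.up x τ (c.i + 2 - τ)),
    G.up c.p (c.i + 2) (c.j - c.i - 2), G.up c.p c.j 2, G.up (RJ.nxc x c) (c.j + 2) (R.g - 2) ++ Tw,
    ?_, by omega, by omega, by omega, DB.dl hl c.p _ _, ?_, ?_, ?_, ?_, ?_, ?_, ?_, ?_,
    ⟨c.j - c.i - 2, [], (List.append_nil _).symm, by omega⟩, by rw [show c.j + 1 + 1 - (c.i + 2) = c.j - c.i by omega]⟩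
  · have e4 : G.up c.p (c.i + 2) (c.j - c.i) = G.up c.p (c.i + 2) (c.j - c.i - 2) ++ G.up c.p c.j 2 := by
      conv_lhs => rw [show c.j - c.i = (c.j - c.i - 2) + 2 by omega, Geo.up_add, show c.i + 2 + (c.j - c.i - 2) = c.j by omega]
    unfold lowW uppW
    rw [e4]
    simp only [List.append_assoc]
  · rw [Geo.dl_length]
    omega
  · intro d hd
    have hgoal : d.sc ≤ c.i + 2 ∧ |latC d - lat c.p| ≤ 4 * (kn + kb + 1) * w (c.j + 1) := by
      simp only [List.mem_append] at hd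
      rcases hd with (hd | hd | hd | hd) | hd | hd
      · obtain ⟨v, v1, v2, rfl⟩ := Geo.mem_dl hd
        have a1 := abs3 (hl.lbl v c.q) (show |lat c.q - lat c.p| ≤ kb * w c.s by rwa [abs_sub_comm])
        have a2 : w v ≤ w (c.j + 1) := hmono (by omega)
        exact ⟨(show v ≤ c.i + 2 by omega), by linarith⟩
      · obtain ⟨v, v1, v2, rfl⟩ := Geo.mem_dl hd
        have a1 := hl.lbl v c.p
        have a2 : w v ≤ w (c.j + 1) := hmono (by omega)
        exact ⟨(show v ≤ c.i + 2 by omega), by linarith⟩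
      · obtain ⟨v, v1, v2, rfl⟩ := mem_up hd
        have a1 := hl.ctl v c.p
        have a2 : w v ≤ w (c.j + 1) := hmono (by omega)
        exact ⟨(show v ≤ c.i + 2 by omega), by linarith⟩
      · obtain ⟨v, v1, v2, rfl⟩ := mem_up hd
        have a1 := abs3 (hl.ctl v c.q) (show |lat c.q - lat c.p| ≤ kb * w c.s by rwa [abs_sub_comm])
        have a2 : w v ≤ w (c.j + 1) := hmono (by omega)
        exact ⟨(show v ≤ c.i + 2 by omega), by linarith⟩
      · obtain ⟨a1, a2⟩ := hblk c.p (l4.trans (by linarith)) d (List.mem_append_left _ hd)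
        exact ⟨by omega, a2⟩
      · obtain ⟨a1, a2⟩ := hblk c.p (l4.trans (by linarith)) d (List.mem_append_right _ hd)
        exact ⟨by omega, a2⟩
    exact ⟨hgoal.1, hgoal.2.trans (hcoef _ _ har)⟩
  · exact TB.up fun v _ _ => ⟨self_RB c.p v, self_i hl.toLatJ hC0 c.p v⟩
  · rw [Geo.up_length]
    omega
  · intro d hd
    obtain ⟨v, v1, v2, rfl⟩ := mem_up hd
    refine ⟨(show v ≤ c.j - 1 + 2 by omega), ?_⟩
    have a1 := hl.ctl v c.p
    have a2 : v ≤ (c.j - 1) + D * ((c.j - 1) - u) := by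
      have : D * 2 ≤ D * ((c.j - 1) - u) := Nat.mul_le_mul_left _ (by omega)
      omega
    have a2' := hcoef v _ a2
    have a3 := hl.w_nonneg v
    have a4 := mul_nonneg hkn a3
    have a5 := mul_nonneg hkb a3
    linarith
  · rwa [show c.j - 1 + 3 = c.j + 2 by omega]
  · simp only [List.length_append, Geo.up_length]
    omega
  · rw [show R.g - 2 = (R.g - 3) + 1 by omega, Geo.up_succ]
    exact List.cons_ne_nil _ _

/-- Own data of a step, the rest of the list being a tower. -/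
theorem own_headW {kn kb C0 : ℝ} {C2 D : ℕ} (h : GRJ G R) (hl : LatW G R lat latC w kn kb) (hC0 : 4 * (kn + kb + 1) ≤ C0)
    (hD : 1 ≤ D) {x : σ} {τ : ℕ} {L : List (Cut Λ)} {c : SJ σ} {l : List (SJ σ)} (hc : R.Ok x τ c)
    (hcl : R.IsC (RJ.nxc x c) (c.j + R.g) l) (hL : InvW lat latC w (kn + kb + 1) x τ L) {u : ℕ} {ρ : σ}
    (ho : RJ.Own R.m3 c u ρ) (hex : ∀ d ∈ c :: l, u ∉ Ex (C2 + 3) D d) :
    ODW G lat latC w C0 C2 D (cutW G R (RJ.nxc x c) (c.j + R.g) (stepW G R x τ L c) l) ρ u := by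
  by_cases hk : c.k = Kd.stay
  · exact own_stayW h hl hC0 hD hc hcl hL hk ho hex
  · rcases ho with ⟨rfl, hau, hus⟩ | ⟨rfl, hsu, hui⟩ | ⟨rfl, hiu, huj⟩
    · exact own_far1W h hl hC0 hD hc hcl hL hk hau hus hex
    · exact own_far2W h hl hC0 hD hc hcl hL hk hsu hui hex
    · exact own_far3W h hl hC0 hD hc hcl hL hk (by omega) huj hex

/-- Own data of every unexposed own slab. -/
theorem own_ODW {kn kb C0 : ℝ} {C2 D : ℕ} (h : GRJ G R) (hl : LatW G R lat latC w kn kb) (hC0 : 4 * (kn + kb + 1) ≤ C0)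
    (hD : 1 ≤ D) {x : σ} {τ : ℕ} {L : List (Cut Λ)} {l : List (SJ σ)} (hc : R.IsC x τ l)
    (hL : InvW lat latC w (kn + kb + 1) x τ L) {c : SJ σ} (hcl : c ∈ l) {u : ℕ} {ρ : σ} (ho : RJ.Own R.m3 c u ρ)
    (hex : ∀ d ∈ l, u ∉ Ex (C2 + 3) D d) : ODW G lat latC w C0 C2 D (cutW G R x τ L l) ρ u := by
  induction l generalizing x τ L with
  | nil => exact absurd hcl (by simp)
  | cons d l ih =>
    rcases List.mem_cons.1 hcl with rfl | hcl
    · exact own_headW h hl hC0 hD hc.1 hc.2 hL ho hex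
    · exact ih hc.2 (InvW.step h hl hc.1 hL) hcl fun e he => hex e (List.mem_cons_of_mem _ he)

/-- **OWN DATA OF EVERY UNEXPOSED OWN SLAB.** -/
theorem cutsW_ODW {kn kb C0 : ℝ} {C2 D : ℕ} (h : GRJ G R) (hl : LatW G R lat latC w kn kb) (hC0 : 4 * (kn + kb + 1) ≤ C0)
    (hD : 1 ≤ D) {x : σ} {l : List (SJ σ)} (hc : R.IsC x 0 l) {c : SJ σ} (hcl : c ∈ l) {u : ℕ} {ρ : σ}
    (ho : RJ.Own R.m3 c u ρ) (hex : u ∉ ExL (C2 + 3) D l) : ODW G lat latC w C0 C2 D (cutsW G R x l) ρ u :=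
  own_ODW h hl hC0 hD hc (fun d hd => absurd hd (by simp)) hcl ho fun d hd hu => hex (mem_ExL hd hu)

end

end Pool.Agent.W_7d29a1_C1.H40
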