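import Pool.Agent.W_7d29a1_C1.ChnSb40

/-!
MP_7d29a1_pr, the attractor route: TWO INDEX CHAINS WITH LOWER CUTS (helper40): own data at `u` and at all the scales `u + j`, `j ≤ J`,
of an own slab which is unexposed at distance `C2 + J + 3`.
-/

set_option autoImplicit false

namespace Pool.Agent.W_7d29a1_C1.H40

open MeasureTheory ProbabilityTheory Finset
open Pool.Agent.W_7d29a1_F Pool.Agent.W_7d29a1_C1.S71
open scoped ENNReal Classical

noncomputable section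

variable {σ Λ : Type*} {G : Geo σ Λ} {R : RJ σ} {lat : σ → ℝ} {latC : Cut Λ → ℝ} {w : ℕ → ℝ}

/-- A shift of an unexposed own slab is an own slab. -/
theorem own_shift {x : σ} {τ m3 C1 J D : ℕ} {c : SJ σ} (hc : R.Ok x τ c) {u : ℕ} {ρ : σ} (ho : RJ.Own m3 c u ρ)
    (hex : u ∉ Ex (C1 + J) D c) {j : ℕ} (hj : j ≤ J) : RJ.Own m3 c (u + j) ρ := by
  obtain ⟨h1, h2, h3, h3', h4, -⟩ := hc
  obtain ⟨q, hq⟩ : ∃ q, q = (c.j - c.i) / D := ⟨_, rfl⟩
  unfold Ex at hex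
  rw [← hq] at hex
  simp only [mem_union, mem_Ico, not_or] at hex
  rcases ho with ⟨rfl, a1, a2⟩ | ⟨rfl, a1, a2⟩ | ⟨rfl, a1, a2⟩
  · exact Or.inl ⟨rfl, by omega, by omega⟩
  · exact Or.inr (Or.inl ⟨rfl, by omega, by omega⟩)
  · exact Or.inr (Or.inr ⟨rfl, by omega, by omega⟩)

/-- The shift is unexposed by the own step. -/
theorem ex_shift {x : σ} {τ m3 C1 J D : ℕ} {c : SJ σ} (hc : R.Ok x τ c) {u : ℕ} {ρ : σ} (ho : RJ.Own m3 c u ρ)
    (hex : u ∉ Ex (C1 + J) D c) {j : ℕ} (hj : j ≤ J) : u + j ∉ Ex C1 D c := by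
  obtain ⟨h1, h2, h3, h3', h4, -⟩ := hc
  obtain ⟨q, hq⟩ : ∃ q, q = (c.j - c.i) / D := ⟨_, rfl⟩
  unfold Ex at hex ⊢
  rw [← hq] at hex ⊢
  simp only [mem_union, mem_Ico, not_or] at hex ⊢
  rcases ho with ⟨rfl, a1, a2⟩ | ⟨rfl, a1, a2⟩ | ⟨rfl, a1, a2⟩ <;> omega

/-- The shift is unexposed by the later steps. -/
theorem ex_shift_later {x : σ} {τ C1 J D : ℕ} {d : SJ σ} (hd : R.Ok x τ d) {u j : ℕ} (hj : j ≤ J) (hu : u + j < d.a)
    (hex : u ∉ Ex (C1 + J) D d) : u + j ∉ Ex C1 D d := by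
  obtain ⟨h1, h2, h3, h3', h4, -⟩ := hd
  obtain ⟨q, hq⟩ : ∃ q, q = (d.j - d.i) / D := ⟨_, rfl⟩
  unfold Ex at hex ⊢
  rw [← hq] at hex ⊢
  simp only [mem_union, mem_Ico, not_or] at hex ⊢
  omega

/-- Own data at the shifts. -/
theorem own_ODWS {kn kb C0 : ℝ} {C2 D J : ℕ} (h : GRJ G R) (hl : LatW G R lat latC w kn kb) (hC0 : 4 * (kn + kb + 1) ≤ C0)
    (hD : 1 ≤ D) {x : σ} {τ : ℕ} {L : List (Cut Λ)} {l : List (SJ σ)} (hc : R.IsC x τ l)
    (hL : InvW lat latC w (kn + kb + 1) x τ L) {c : SJ σ} (hcl : c ∈ l) {u : ℕ} {ρ : σ} (ho : RJ.Own R.m3 c u ρ)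
    (hex : ∀ d ∈ l, u ∉ Ex (C2 + 3 + J) D d) {j : ℕ} (hj : j ≤ J) : ODW G lat latC w C0 C2 D (cutW G R x τ L l) ρ (u + j) := by
  have hg := h.g_ge
  induction l generalizing x τ L with
  | nil => exact absurd hcl (by simp)
  | cons d l ih =>
    rcases List.mem_cons.1 hcl with rfl | hcl
    · have h1 := hex c (List.mem_cons_self ..)
      have h2 := own_shift hc.1 ho h1 hj
      refine own_headW h hl hC0 hD hc.1 hc.2 hL h2 fun e he => ?_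
      rcases List.mem_cons.1 he with rfl | he
      · exact ex_shift hc.1 ho h1 hj
      · obtain ⟨y, τ', h3, h4⟩ := hc.2.mem he
        have h5 : u + j < c.j := by
          obtain ⟨g1, g2, g3, g4, -⟩ := hc.1
          rcases h2 with ⟨-, a1, a2⟩ | ⟨-, a1, a2⟩ | ⟨-, a1, a2⟩ <;> omega
        have h6 := h4.1
        exact ex_shift_later h4 hj (by omega) (hex e (List.mem_cons_of_mem _ he))
    · exact ih hc.2 (InvW.step h hl hc.1 hL) hcl fun e he => hex e (List.mem_cons_of_mem _ he)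

/-- **OWN DATA AT `u + j`, `j ≤ J`.** -/
theorem cutsW_ODWS {kn kb C0 : ℝ} {C2 D J : ℕ} (h : GRJ G R) (hl : LatW G R lat latC w kn kb) (hC0 : 4 * (kn + kb + 1) ≤ C0)
    (hD : 1 ≤ D) {x : σ} {l : List (SJ σ)} (hc : R.IsC x 0 l) {c : SJ σ} (hcl : c ∈ l) {u : ℕ} {ρ : σ}
    (ho : RJ.Own R.m3 c u ρ) (hex : u ∉ ExL (C2 + J + 3) D l) :
    ∀ j ≤ J, ODW G lat latC w C0 C2 D (cutsW G R x l) ρ (u + j) := fun j hj =>
  own_ODWS (J := J) h hl hC0 hD hc (fun d hd => absurd hd (by simp)) hcl ho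
    (fun d hd hu => hex (mem_ExL hd (by rwa [show C2 + J + 3 = C2 + 3 + J by omega]))) hj

end

end Pool.Agent.W_7d29a1_C1.H40
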