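import Pool.Agent.W_7d29a1_C1.ChnSb40
import Pool.Agent.W_7d29a1_C1.ChnM2

/-!
MP_7d29a1_pr, the attractor route: TWO INDEX CHAINS WITH LOWER CUTS (helper40): THE PROBABILITY OF A SMALL POTENTIAL (`potW40`)
and the numbers (`numW`, the text of `numJ` of ChnO40; so this file does not need ChnN40 / ChnO40).
-/

set_option autoImplicit false

namespace Pool.Agent.W_7d29a1_C1.H40

open MeasureTheory ProbabilityTheory Finset
open Pool.Agent.W_7d29a1_F Pool.Agent.W_7d29a1_C1.S71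
open scoped ENNReal Classical

noncomputable section

variable {σ Λ : Type*} {G : Geo σ Λ} {R : RJ σ} {lat : σ → ℝ} {latC : Cut Λ → ℝ} {w : ℕ → ℝ}

theorem length_leW (h : GRJ G R) {x : σ} {l : List (SJ σ)} (hl : R.IsC x 0 l) : l.length ≤ nSt R.m R.g R.lam := by
  have hg := h.g_ge
  rcases IsC_lengthJ hl with rfl | h1
  · exact Nat.zero_le _
  · exact (Nat.le_div_iff_mul_le (by omega)).2 (by omega)

/-- The last lower cut. -/
theorem DB.last {ρ : σ} {B : ℕ → ℝ} {v : ℕ} {Z : List (Cut Λ)} (h : DB G lat latC ρ B v Z) (hZ : Z ≠ []) :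
    ∃ Z' e, Z = Z' ++ [e] ∧ e.sc = v ∧ RD G ρ v e ∧ |latC e - lat ρ| ≤ B v := by
  induction Z with
  | nil => exact absurd rfl hZ
  | cons d Z ih =>
    obtain ⟨h1, h2, h3, h4⟩ := h
    rcases Z with _ | ⟨d', Z⟩
    · exact ⟨[], d, rfl, h1, h2, h3⟩
    · obtain ⟨Z', e, e1, e2, e3, e4⟩ := ih h4 (List.cons_ne_nil _ _)
      exact ⟨d :: Z', e, by rw [e1, List.cons_append], e2, e3, e4⟩

/-- The own data with lower cuts contain the own data. -/
theorem ODW.od {kn kb C0 : ℝ} {C2 D : ℕ} (hl : LatJ G R lat latC w kn kb) (hC0 : 4 * (kn + kb + 1) ≤ C0) {Z : List (Cut Λ)}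
    {ρ : σ} {u : ℕ} (h : ODW G lat latC w C0 C2 D Z ρ u) : OD G lat latC w C0 C2 D Z ρ u := by
  obtain ⟨v0, v1, v2, P, Lo, Bo, Cl, Bl, Tw, e, a1, a2, a3, a4, a5, a6, a7, a8, a9, b1, b2, b3, -, -⟩ := h
  have hkn := hl.kn_nonneg
  have hkb := hl.kb_nonneg
  have hLo : Lo ≠ [] := by
    rintro rfl
    rw [List.length_nil] at a5
    omega
  obtain ⟨Z', e0, e1, e2, e3, e4⟩ := a4.last hLo
  have hrow : e0.row ≤ G.row ρ := by
    have h1 := e3.1
    have h2 : (0 : ℤ) ≤ G.T v0 := by positivity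
    linarith
  refine ⟨v0, v1, P ++ Z', e0, Bo, Cl, Bl, Tw, ?_, a1, a2, hrow, ?_, a7, a8, a9, b1, b2, b3⟩
  · rw [e, e1]
    simp only [List.append_assoc, List.cons_append, List.nil_append]
  · intro d hd
    rcases List.mem_cons.1 hd with rfl | hd
    · refine ⟨e2.le, e4.trans ?_⟩
      have h1 : w v0 ≤ w (v0 + D * (u - v0)) := hl.mono (Nat.le_add_right _ _)
      have h2 := hl.w_nonneg (v0 + D * (u - v0))
      have h3 : 1 * w (v0 + D * (u - v0)) ≤ C0 * w (v0 + D * (u - v0)) := mul_le_mul_of_nonneg_right (by linarith) h2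
      linarith
    · exact a6 d hd

/-- **THE POTENTIAL IS SMALL ONLY WITH SMALL PROBABILITY** (two index form, full relation, lower cuts). -/
theorem potW40 [Inhabited Λ] {μ : Measure ℝ} [IsProbabilityMeasure μ] (h : GRJ G R.near) {A B Nt : ℕ} (t : TreeB G R.near A B Nt)
    (hr : Geo.LocRow G) {kn kb C0 : ℝ} {C2 D : ℕ} (hl : LatW G R.near lat latC w kn kb) (hC0 : 4 * (kn + kb + 1) ≤ C0)
    (hD : 1 ≤ D) {dpL : Cut Λ → Cut Λ → Env → ℕ} {dpN : Cut Λ → Cut Λ → Cut Λ → Env → ℕ}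
    (mL : ∀ a b, Measurable (dpL a b)) (mN : ∀ a b c, Measurable (dpN a b c))
    (rL : ∀ a b (η η' : Env), (∀ p ∈ btw a b, η p = η' p) → dpL a b η = dpL a b η')
    (rN : ∀ a b c (η η' : Env), (∀ p ∈ btw a c, η p = η' p) → dpN a b c η = dpN a b c η')
    {z M : ℝ≥0∞} (hz : 1 ≤ z) (hz' : z ≠ ∞) (hM : 1 ≤ M) {Sw : Finset ℤ} {E0 : ℕ}
    (momL : ∀ a b, ¬ HasSw Sw a b → ∫⁻ η, z ^ dpL a b η ∂(law μ) ≤ M)
    (momN : ∀ a b e, ¬ HasSw Sw a e → ∫⁻ η, z ^ dpN a b e η ∂(law μ) ≤ M)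
    (hEL : ∀ a b η, HasSw Sw a b → dpL a b η ≤ E0) (hEN : ∀ a b e η, HasSw Sw a e → dpN a b e η ≤ E0)
    (scL : Cut Λ → Cut Λ → ℕ) (scN : Cut Λ → Cut Λ → Cut Λ → ℕ) {T : ℕ → σ → Set Env} {bad : Set Env}
    (hT : ∀ η ∉ bad, ∀ ρ ∈ G.W, ∀ u Z, PW G Z → ODW G lat latC w C0 C2 D Z ρ u → NFL dpL scL Z u η → NFN dpN scN Z u η → η ∈ T u ρ)
    {y : ℝ≥0∞} (hy : y ≤ 1) {r b : ℕ}
    (hb : 6 * (C2 + 3) * nSt R.m R.g R.lam + 2 * ((R.m + R.g) / D) + 9 * r + 9 * (Sw.card * E0) ≤ b) :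
    law μ {η | ∃ x ∈ G.W, R.Pot (Rl.dpT T) y x 0 η < y ^ (3 * b)} ≤
      law μ bad + (nCodeJ Nt (A ^ 2) G.m R.g : ℝ≥0∞) * (3 * (M ^ (3 * (G.m + R.g) + 1) / z ^ r)) := by
  have hP : IsProbabilityMeasure (law μ) := by unfold law; infer_instance
  obtain ⟨C, hC⟩ := t.cnt h
  have hg : 3 ≤ R.g := h.g_ge
  set dpL' : Cut Λ → Cut Λ → Env → ℕ := fun a b η => if HasSw Sw a b then 0 else dpL a b η with hdL
  set dpN' : Cut Λ → Cut Λ → Cut Λ → Env → ℕ := fun a b e η => if HasSw Sw a e then 0 else dpN a b e η with hdN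
  have mL' : ∀ a b, Measurable (dpL' a b) := fun a b => by
    by_cases hs : HasSw Sw a b
    · have e : dpL' a b = fun _ => 0 := funext fun η => if_pos hs
      rw [e]; exact measurable_const
    · have e : dpL' a b = dpL a b := funext fun η => if_neg hs
      rw [e]; exact mL a b
  have mN' : ∀ a b e, Measurable (dpN' a b e) := fun a b e => by
    by_cases hs : HasSw Sw a e
    · have e : dpN' a b e = fun _ => 0 := funext fun η => if_pos hs
      rw [e]; exact measurable_const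
    · have e : dpN' a b e = dpN a b e := funext fun η => if_neg hs
      rw [e]; exact mN _ _ _
  have rL' : ∀ a b (η η' : Env), (∀ p ∈ btw a b, η p = η' p) → dpL' a b η = dpL' a b η' := fun a b η η' he => by
    show (if HasSw Sw a b then 0 else dpL a b η) = if HasSw Sw a b then 0 else dpL a b η'
    rw [rL a b η η' he]
  have rN' : ∀ a b c (η η' : Env), (∀ p ∈ btw a c, η p = η' p) → dpN' a b c η = dpN' a b c η' := fun a b c η η' he => by
    show (if HasSw Sw a c then 0 else dpN a b c η) = if HasSw Sw a c then 0 else dpN a b c η'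
    rw [rN a b c η η' he]
  have momL' : ∀ a b, ∫⁻ η, z ^ dpL' a b η ∂(law μ) ≤ M := fun a b => by
    by_cases hs : HasSw Sw a b
    · have e : ∀ η, z ^ dpL' a b η = 1 := fun η => by
        show z ^ (if HasSw Sw a b then 0 else dpL a b η) = 1
        rw [if_pos hs, pow_zero]
      simp only [e, lintegral_const, measure_univ, mul_one]
      exact hM
    · have e : dpL' a b = dpL a b := funext fun η => if_neg hs
      rw [e]; exact momL a b hs
  have momN' : ∀ a b e, ∫⁻ η, z ^ dpN' a b e η ∂(law μ) ≤ M := fun a b e => by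
    by_cases hs : HasSw Sw a e
    · have e' : ∀ η, z ^ dpN' a b e η = 1 := fun η => by
        show z ^ (if HasSw Sw a e then 0 else dpN a b e η) = 1
        rw [if_pos hs, pow_zero]
      simp only [e', lintegral_const, measure_univ, mul_one]
      exact hM
    · have e' : dpN' a b e = dpN a b e := funext fun η => if_neg hs
      rw [e']; exact momN _ _ _ hs
  have hmain : law μ {η | ∃ x ∈ G.W, ∃ l, R.near.IsC x 0 l ∧
      3 * r ≤ SL dpL' (cutsW G R.near x l) η + SN dpN' (cutsW G R.near x l) η} ≤ _ :=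
    unionB h C (S := fun x l η => SL dpL' (cutsW G R.near x l) η + SN dpN' (cutsW G R.near x l) η)
      (fun x _ x' _ l l' hl hl' h1 h2 η => by
        show SL dpL' (cutsW G R.near x l) η + SN dpN' (cutsW G R.near x l) η =
          SL dpL' (cutsW G R.near x' l') η + SN dpN' (cutsW G R.near x' l') η
        rw [cutsW_congr hr hl hl' h1 h2])
      (fun x hx l hl => tailZ mL' mN' rL' rN' hz hz' hM (pw_of_chain (cutsW_chain h hl)) (cutsW_length h hl) (fun _ _ => momL' _ _)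
        (fun _ _ => momN' _ _ _) r)
  rw [hC] at hmain
  refine (measure_mono (fun η hη => ?_)).trans ((measure_union_le bad _).trans (add_le_add le_rfl hmain))
  by_cases hbad : η ∈ bad
  · exact Or.inl hbad
  refine Or.inr ?_
  obtain ⟨x, hx, hlt⟩ := hη
  by_contra hcon
  have hcon' : ∀ x ∈ G.W, ∀ l, R.near.IsC x 0 l →
      SL dpL' (cutsW G R.near x l) η + SN dpN' (cutsW G R.near x l) η < 3 * r := by
    intro x hx l hl
    by_contra h1
    exact hcon ⟨x, hx, l, hl, not_lt.1 h1⟩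
  have hone : ∀ ρ ∈ R.W, ∀ l, R.near.IsC ρ 0 l → R.near.nm (Rl.dpT T) l η ≤ b := by
    intro ρ hρ l hl0
    have hW : R.near.W = G.W := h.W_eq
    have hρ' : ρ ∈ G.W := by rw [← hW]; exact hρ
    have h1 := hcon' ρ hρ' l hl0
    have hpw := pw_of_chain (cutsW_chain h hl0)
    have h2 := countJ (T := T) (η := η) (C1 := C2 + 3) (D := D) (R := R.near) (show 1 ≤ R.g by omega) hl0
      (cutsW G R.near ρ l) dpL dpN scL scN (fun c hc u ρ' ho hex hfL hfN => by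
        have hρW : ρ' ∈ G.W := by
          have := (RJ.Rc.spec (R := R.near) (x := ρ) (τ := 0) (u := u) (ρ := ρ') ⟨l, c, hl0, hc, ho⟩).1
          rwa [hW] at this
        exact hT η hbad ρ' hρW u _ (cutsW_PW h hρ' hl0) (cutsW_ODW h hl hC0 hD hl0 hc ho hex) hfL hfN)
    have h3 : l.length ≤ nSt R.m R.g R.lam := length_leW h hl0
    have h4 : 6 * (C2 + 3) * l.length ≤ 6 * (C2 + 3) * nSt R.m R.g R.lam := Nat.mul_le_mul_left _ h3
    have h5 := SL_sw hpw Sw (dpL := dpL) (η := η) (E0 := E0) (fun a b hs => hEL a b η hs)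
    have h6 := SN_sw hpw Sw (dpN := dpN) (η := η) (E0 := E0) (fun a b e hs => hEN a b e η hs)
    have h7 : R.near.m = R.m := rfl
    have h8 : R.near.g = R.g := rfl
    rw [h7, h8] at h2
    change SL dpL _ η ≤ SL dpL' _ η + _ at h5
    change SN dpN _ η ≤ SN dpN' _ η + _ at h6
    omega
  refine absurd hlt (not_lt.2 (RJ.le_Pot hy fun l hl0 => ?_))
  obtain ⟨l', h1, h2⟩ := RJ.nm_near (show 1 ≤ R.g by omega) hl0 hone
  have h3 : x ∈ R.W := by
    have hW : R.near.W = G.W := h.W_eq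
    show x ∈ R.near.W
    rw [hW]
    exact hx
  have h4 := hone x h3 l' h1
  omega

/-- The probability in numbers: `z` comes after `A`, then `M = 2`. -/
theorem numW (A g L : ℕ) (hA : 1 ≤ A) : ∃ z : ℕ, 1 ≤ z ∧ ∀ m r : ℕ, g ≤ m → 1 ≤ m →
    ∀ k : ℕ, m ≤ k * r → ∀ Nt : ℕ, Nt ^ 2 ≤ A ^ m →
      (nCodeJ Nt A m g : ℝ≥0∞) * (3 * ((2 : ℝ≥0∞) ^ (3 * (m + g) + 1) / ((z : ℝ≥0∞) ^ k) ^ r)) ≤ ((L : ℝ≥0∞) + 1)⁻¹ ^ m := by
  set D : ℕ := A * ((48 * A ^ 2) ^ 2 * (12 * A ^ 2) * A ^ 2) * 3 * 2 ^ 7 * (L + 1) with hD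
  refine ⟨D, ?_, fun m r hgm hm k hk Nt hNt => ?_⟩
  · exact Nat.mul_pos (Nat.mul_pos (Nat.mul_pos (Nat.mul_pos hA (by positivity)) (by norm_num)) (by norm_num)) (by omega)
  have hD1 : 1 ≤ D := Nat.mul_pos (Nat.mul_pos (Nat.mul_pos (Nat.mul_pos hA (by positivity)) (by norm_num)) (by norm_num))
    (by omega)
  have h1 : nCodeJ Nt A m g ≤ (A * ((48 * A ^ 2) ^ 2 * (12 * A ^ 2) * A ^ 2)) ^ m := by
    unfold nCodeJ
    rw [mul_pow A _ m]
    refine Nat.mul_le_mul hNt ?_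
    have e3 : ∀ x y z : ℕ, (x * y * z) ^ m = x ^ m * y ^ m * z ^ m := fun x y z => by rw [mul_pow, mul_pow]
    rw [e3]
    refine Nat.mul_le_mul (Nat.mul_le_mul ?_ le_rfl) ?_
    · rw [← pow_mul]
      exact Nat.pow_le_pow_right (by positivity) (by omega)
    · rw [← pow_mul]
      exact Nat.pow_le_pow_right hA (by omega)
  have h2 : (3 : ℕ) ≤ 3 ^ m := by
    calc 3 = 3 ^ 1 := (pow_one 3).symm
      _ ≤ 3 ^ m := Nat.pow_le_pow_right (by norm_num) hm
  have h3 : (2 : ℕ) ^ (3 * (m + g) + 1) ≤ (2 ^ 7) ^ m := by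
    rw [← pow_mul]
    exact Nat.pow_le_pow_right (by norm_num) (by omega)
  have h4 : nCodeJ Nt A m g * (3 * 2 ^ (3 * (m + g) + 1)) * (L + 1) ^ m ≤ D ^ (k * r) := by
    calc nCodeJ Nt A m g * (3 * 2 ^ (3 * (m + g) + 1)) * (L + 1) ^ m
        ≤ (A * ((48 * A ^ 2) ^ 2 * (12 * A ^ 2) * A ^ 2)) ^ m * (3 ^ m * (2 ^ 7) ^ m) * (L + 1) ^ m :=
          Nat.mul_le_mul_right _ (Nat.mul_le_mul h1 (Nat.mul_le_mul h2 h3))
      _ = D ^ m := by rw [hD]; simp only [mul_pow]; ring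
      _ ≤ D ^ (k * r) := Nat.pow_le_pow_right hD1 hk
  have hDz : ((D : ℝ≥0∞) ^ (k * r)) ≠ 0 := pow_ne_zero _ (by exact_mod_cast (show D ≠ 0 by omega))
  have hDt : ((D : ℝ≥0∞) ^ (k * r)) ≠ ∞ := ENNReal.pow_ne_top (ENNReal.natCast_ne_top D)
  have hLz : ((L : ℝ≥0∞) + 1) ^ m ≠ 0 := pow_ne_zero _ (by positivity)
  have hLt : ((L : ℝ≥0∞) + 1) ^ m ≠ ∞ := ENNReal.pow_ne_top (by finiteness)
  rw [← pow_mul, ← ENNReal.inv_pow, ← mul_div_assoc, ← mul_div_assoc, ENNReal.div_le_iff hDz hDt]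
  rw [← ENNReal.div_eq_inv_mul, ENNReal.le_div_iff_mul_le (Or.inl hLz) (Or.inl hLt)]
  exact_mod_cast h4

end

end Pool.Agent.W_7d29a1_C1.H40
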