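import Pool.Agent.W_7d29a1_C1.ChnH40

/-!
MP_7d29a1_pr, the attractor route: UNION OVER THE CHAINS OF THE POTENTIAL, the tower above an own slab, the count of the abnormal own
slabs. (helper40)
-/

set_option autoImplicit false

namespace Pool.Agent.W_7d29a1_C1.H40

open MeasureTheory ProbabilityTheory Finset
open Pool.Agent.W_7d29a1_F Pool.Agent.W_7d29a1_C1.S71
open scoped ENNReal Classical

noncomputable section

variable {σ Λ : Type*} {G : Geo σ Λ} {R : Rl σ}

/-! ### The codes -/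

/-- The counting input. -/
structure CntH (G : Geo σ Λ) (R : Rl σ) (A : ℕ) where
  F0 : ℕ → Finset Λ
  F1 : ℕ → ℕ → ℕ → Λ → Finset Λ
  F2 : ℕ → ℕ → Λ → Finset Λ
  Nt : ℕ
  hN : 1 ≤ Nt
  hA : 1 ≤ A
  h0 : ∀ a ≤ G.m, ∀ x ∈ G.W, G.loc a x ∈ F0 a
  c0 : ∀ a ≤ G.m, (F0 a).card ≤ Nt * A ^ (1 + G.m - a)
  h1 : ∀ a a' i', a < a' → a' < i' → i' ≤ R.m → ∀ y, ∀ p ∈ G.W, ∀ p' ∈ G.W,
    (p = y ∨ (∃ s < i', R.Dr s p y) ∨ ∃ i < i', R.Mv i y p) → (p' = y ∨ R.Mv i' y p') → G.loc a p ∈ F1 a a' i' (G.loc a' p')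
  c1 : ∀ a a' i', a < a' → a' < i' → i' ≤ G.m → ∀ α, (F1 a a' i' α).card ≤ A ^ (1 + i' - a)
  h2 : ∀ a s, a ≤ s → s ≤ G.m → ∀ p ∈ G.W, ∀ q ∈ G.W, (p = q ∨ R.Dr s p q) → G.loc s q ∈ F2 a s (G.loc a p)
  c2 : ∀ a s α, (F2 a s α).card ≤ A

/-- Possible first positions in front of a list. -/
def nxF {A : ℕ} (C : CntH G R A) (a : ℕ) : List (Lb Λ) → Finset Λ
  | [] => C.F0 a
  | c :: _ => C.F1 a c.a c.i c.al

/-- Possible labels in front of a list. -/
def heads {A : ℕ} (C : CntH G R A) (a i : ℕ) (t : List (Lb Λ)) : Finset (Lb Λ) :=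
  ({Kd.stay, Kd.move, Kd.visit} : Finset Kd).biUnion fun k => (Ico a i).biUnion fun s => (nxF C a t).biUnion fun al =>
    (C.F2 a s al).image fun be => ⟨k, a, s, i, al, be⟩

theorem heads_spec {A : ℕ} (C : CntH G R A) (a i : ℕ) (t : List (Lb Λ)) : ∀ c ∈ heads C a i t, c.a = a ∧ c.i = i := by
  intro c hc
  obtain ⟨k, -, hc⟩ := mem_biUnion.1 hc
  obtain ⟨s, -, hc⟩ := mem_biUnion.1 hc
  obtain ⟨al, -, hc⟩ := mem_biUnion.1 hc
  obtain ⟨be, -, rfl⟩ := mem_image.1 hc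
  exact ⟨rfl, rfl⟩

theorem heads_card {A : ℕ} (C : CntH G R A) {g : ℕ} (hg : 1 ≤ g) {a i : ℕ} (hai : a < i) (him : i ≤ G.m) {t : List (Lb Λ)}
    (ht : Hdr Lb.a Lb.i G.m g i t) :
    (heads C a i t).card ≤ wtC C.Nt t * (6 * A ^ 2) ^ (1 + hdC Lb.i G.m t - a) := by
  have hA := C.hA
  have h1 : (nxF C a t).card ≤ wtC C.Nt t * A ^ (1 + hdC Lb.i G.m t - a) ∧ i ≤ hdC Lb.i G.m t := by
    rcases ht with rfl | ⟨c, t', rfl, h5, h6, h7⟩
    · exact ⟨C.c0 a (by omega), him⟩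
    · refine ⟨?_, by show i ≤ c.i; omega⟩
      show (C.F1 a c.a c.i c.al).card ≤ 1 * A ^ (1 + c.i - a)
      rw [one_mul]
      exact C.c1 a c.a c.i (by omega) h6 h7 _
  obtain ⟨h1, h2⟩ := h1
  set h := hdC Lb.i G.m t with hh
  set w := wtC C.Nt t with hw
  have hcard : (heads C a i t).card ≤ 3 * ((i - a) * (w * A ^ (1 + h - a) * A)) := by
    unfold heads
    refine card_biUnion_le.trans ?_
    calc ∑ k ∈ ({Kd.stay, Kd.move, Kd.visit} : Finset Kd), ((Ico a i).biUnion fun s => (nxF C a t).biUnion fun al =>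
          (C.F2 a s al).image fun be => (⟨k, a, s, i, al, be⟩ : Lb Λ)).card
        ≤ ∑ k ∈ ({Kd.stay, Kd.move, Kd.visit} : Finset Kd), (i - a) * (w * A ^ (1 + h - a) * A) := by
          refine sum_le_sum fun k _ => card_biUnion_le.trans ?_
          calc ∑ s ∈ Ico a i, ((nxF C a t).biUnion fun al => (C.F2 a s al).image fun be => (⟨k, a, s, i, al, be⟩ : Lb Λ)).card
              ≤ ∑ s ∈ Ico a i, w * A ^ (1 + h - a) * A := by
                refine sum_le_sum fun s _ => card_biUnion_le.trans ?_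
                calc ∑ al ∈ nxF C a t, ((C.F2 a s al).image fun be => (⟨k, a, s, i, al, be⟩ : Lb Λ)).card
                    ≤ ∑ al ∈ nxF C a t, A := sum_le_sum fun al _ => card_image_le.trans (C.c2 a s al)
                  _ = (nxF C a t).card * A := by rw [sum_const, smul_eq_mul]
                  _ ≤ _ := Nat.mul_le_mul_right _ h1
            _ = _ := by rw [sum_const, smul_eq_mul, Nat.card_Ico]
      _ = ({Kd.stay, Kd.move, Kd.visit} : Finset Kd).card * ((i - a) * (w * A ^ (1 + h - a) * A)) := by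
          rw [sum_const, smul_eq_mul]
      _ ≤ _ := Nat.mul_le_mul_right _ (by decide)
  refine hcard.trans ?_
  obtain ⟨n, hn⟩ : ∃ n, n = h - a := ⟨_, rfl⟩
  have e1 : 1 + h - a = n + 1 := by omega
  have e2 : i - a ≤ 2 ^ n := (show i - a ≤ n by omega).trans Nat.lt_two_pow_self.le
  rw [e1]
  have key : 3 * ((i - a) * (A ^ (n + 1) * A)) ≤ (6 * A ^ 2) ^ (n + 1) := by
    calc 3 * ((i - a) * (A ^ (n + 1) * A)) ≤ 3 * (2 ^ n * (A ^ (n + 1) * A)) := by gcongr
      _ ≤ 3 * (6 ^ n * (A ^ (n + 1) * A ^ (n + 1))) := by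
          gcongr
          · norm_num
          · calc A = A ^ 1 := (pow_one A).symm
              _ ≤ A ^ (n + 1) := Nat.pow_le_pow_right hA (by omega)
      _ ≤ (6 * A ^ 2) ^ (n + 1) := by
          rw [mul_pow, ← pow_mul, show 2 * (n + 1) = (n + 1) + (n + 1) by ring, pow_add A (n + 1) (n + 1), pow_succ 6 n]
          have : 3 * (6 ^ n * (A ^ (n + 1) * A ^ (n + 1))) = 6 ^ n * 3 * (A ^ (n + 1) * A ^ (n + 1)) := by ring
          rw [this]
          gcongr
          norm_num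
  calc 3 * ((i - a) * (w * A ^ (n + 1) * A)) = w * (3 * ((i - a) * (A ^ (n + 1) * A))) := by ring
    _ ≤ _ := Nat.mul_le_mul_left _ key

/-- The code of a chain is in the list. -/
theorem mem_DC (h : GR G R) {A : ℕ} (C : CntH G R A) {x : σ} {τ : ℕ} {l : List (St σ)} (hl : R.IsC x τ l) {n : ℕ}
    (hn : l.length ≤ n) : l.map (lb G) ∈ DC G.m R.g (heads C) n τ := by
  have hm := h.m_le
  have hW := h.W_eq
  have hg := h.g_ge
  induction l generalizing x τ n with
  | nil =>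
    cases n with
    | zero => exact mem_singleton_self _
    | succ n => exact mem_union_left _ (mem_singleton_self _)
  | cons c l ih =>
    obtain ⟨hc, hl'⟩ := hl
    have hc' := hc
    obtain ⟨h1, h2, h3, h4, h5, h6, h7, h8, h9⟩ := hc'
    rw [hW] at h6 h7
    cases n with
    | zero => exact absurd hn (by simp)
    | succ n =>
      have h10 := ih hl' (n := n) (by simpa using hn)
      refine mem_union_right _ (mem_biUnion.2 ⟨(c.a, c.i), ?_, mem_biUnion.2 ⟨_, h10, mem_image.2 ⟨lb G c, ?_, rfl⟩⟩⟩)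
      · exact mem_filter.2 ⟨mem_product.2 ⟨mem_Icc.2 ⟨h1, by omega⟩, mem_Icc.2 ⟨Nat.zero_le _, (show c.i ≤ G.m by omega)⟩⟩, by
          show c.a < c.i
          omega⟩
      · have hdr : c.p = c.q ∨ R.Dr c.s c.p c.q := by
          by_cases hk : c.k = Kd.stay
          · left; rw [(h8 hk).1, (h8 hk).2]
          · exact Or.inr (h9 hk).2
        refine mem_biUnion.2 ⟨c.k, ?_, mem_biUnion.2 ⟨c.s, mem_Ico.2 ⟨h2, h3⟩, mem_biUnion.2 ⟨G.loc c.a c.p, ?_,
          mem_image.2 ⟨G.loc c.s c.q, C.h2 c.a c.s h2 (by omega) c.p h6 c.q h7 hdr, rfl⟩⟩⟩⟩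
        · cases c.k <;> simp
        · cases l with
          | nil => exact C.h0 c.a (by omega) c.p h6
          | cons d l' =>
            obtain ⟨g1, g2, g3, g4, g5, g6, g7, g8, g9⟩ := hl'.1
            rw [hW] at g6
            show G.loc c.a c.p ∈ C.F1 c.a d.a d.i (G.loc d.a d.p)
            refine C.h1 c.a d.a d.i (by omega) (by omega) g5 (Rl.nxc x c) c.p h6 d.p g6 ?_ ?_
            · cases hk : c.k
              · left
                have e : Rl.nxc x c = x := if_neg (by rw [hk]; decide)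
                rw [e]
                exact (h8 hk).1
              · right; left
                have e : Rl.nxc x c = c.q := if_pos hk
                rw [e]
                exact ⟨c.s, by omega, (h9 (by rw [hk]; decide)).2⟩
              · right; right
                have e : Rl.nxc x c = x := if_neg (by rw [hk]; decide)
                rw [e]
                exact ⟨c.i, by omega, (h9 (by rw [hk]; decide)).1⟩
            · by_cases hk : d.k = Kd.stay
              · exact Or.inl (g8 hk).1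
              · exact Or.inr (g9 hk).1

theorem IsC_length {x : σ} {τ : ℕ} {l : List (St σ)} (hl : R.IsC x τ l) :
    l = [] ∨ τ + l.length * (R.lam + R.g) ≤ R.m + R.g := by
  induction l generalizing x τ with
  | nil => exact Or.inl rfl
  | cons c l ih =>
    obtain ⟨⟨h1, h2, h3, h4, h5, -⟩, h6⟩ := hl
    right
    rw [List.length_cons, Nat.succ_mul]
    rcases ih h6 with rfl | h7
    · simp only [List.length_nil, Nat.zero_mul]
      omega
    · omega

/-- **UNION OVER THE CHAINS, ANY FUNCTIONAL OF THE CODE.** -/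
theorem unionH (h : GR G R) {μ : Measure ℝ} {A : ℕ} (C : CntH G R A) {S : σ → List (St σ) → Env → ℕ}
    (hcode : ∀ x ∈ G.W, ∀ x' ∈ G.W, ∀ l l', R.IsC x 0 l → R.IsC x' 0 l' → G.loc 0 x = G.loc 0 x' →
      l.map (lb G) = l'.map (lb G) → ∀ η, S x l η = S x' l' η) {r : ℕ} {B : ℝ≥0∞}
    (hB : ∀ x ∈ G.W, ∀ l, R.IsC x 0 l → law μ {η | r ≤ S x l η} ≤ B) :
    law μ {η | ∃ x ∈ G.W, ∃ l, R.IsC x 0 l ∧ r ≤ S x l η} ≤
      ((C.Nt ^ 2 * ((24 * A ^ 2) ^ (G.m + R.g) * (6 * A ^ 2) ^ G.m * A ^ (1 + G.m)) : ℕ) : ℝ≥0∞) * B := by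
  have hg := h.g_ge
  set n := G.m + R.g with hn
  set rep : Λ → List (Lb Λ) → Set Env := fun a d =>
    {η | ∃ x ∈ G.W, ∃ l, R.IsC x 0 l ∧ G.loc 0 x = a ∧ l.map (lb G) = d ∧ r ≤ S x l η} with hrep
  have hsub : {η | ∃ x ∈ G.W, ∃ l, R.IsC x 0 l ∧ r ≤ S x l η} ⊆ ⋃ q ∈ C.F0 0 ×ˢ DC G.m R.g (heads C) n 0, rep q.1 q.2 := by
    rintro η ⟨x, hx, l, hl, h1⟩
    refine Set.mem_iUnion₂.2 ⟨(G.loc 0 x, l.map (lb G)), mem_product.2 ⟨C.h0 0 (Nat.zero_le _) x hx, mem_DC h C hl ?_⟩,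
      x, hx, l, hl, rfl, rfl, h1⟩
    have hm := h.m_le
    rcases IsC_length hl with rfl | h2
    · exact Nat.zero_le _
    · have h3 : l.length * 1 ≤ l.length * (R.lam + R.g) := Nat.mul_le_mul_left _ (by omega)
      omega
  have hone : ∀ a d, law μ (rep a d) ≤ B := by
    intro a d
    by_cases hd : ∃ x ∈ G.W, ∃ l, R.IsC x 0 l ∧ G.loc 0 x = a ∧ l.map (lb G) = d
    · obtain ⟨x, hx, l, hl, rfl, rfl⟩ := hd
      refine le_trans (measure_mono ?_) (hB x hx l hl)
      rintro η ⟨x', hx', l', hl', h2, h3, h4⟩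
      show r ≤ S x l η
      rwa [← hcode x' hx' x hx l' l hl' hl h2 h3]
    · have e : rep a d = ∅ := by
        ext η
        simp only [hrep, Set.mem_ofPred_eq, Set.mem_empty_iff_false, iff_false]
        rintro ⟨x, hx, l, h1, h2, h3, -⟩
        exact hd ⟨x, hx, l, h1, h2, h3⟩
      rw [e, measure_empty]
      exact zero_le
  calc law μ {η | ∃ x ∈ G.W, ∃ l, R.IsC x 0 l ∧ r ≤ S x l η}
      ≤ law μ (⋃ q ∈ C.F0 0 ×ˢ DC G.m R.g (heads C) n 0, rep q.1 q.2) := measure_mono hsub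
    _ ≤ ∑ q ∈ C.F0 0 ×ˢ DC G.m R.g (heads C) n 0, law μ (rep q.1 q.2) := by
        exact measure_biUnion_finset_le _ _
    _ ≤ ∑ _q ∈ C.F0 0 ×ˢ DC G.m R.g (heads C) n 0, B := sum_le_sum fun q _ => hone q.1 q.2
    _ = (((C.F0 0).card * (DC G.m R.g (heads C) n 0).card : ℕ) : ℝ≥0∞) * B := by rw [sum_const, nsmul_eq_mul, card_product]
    _ ≤ _ := by
        refine mul_le_mul_left ?_ _
        have h1 := C.c0 0 (Nat.zero_le _)
        have h2 := card_DC (B := 6 * A ^ 2) (H := heads C) (g := R.g) (m := G.m) (lo := Lb.a) (hi := Lb.i) C.hN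
          (Nat.mul_pos (by norm_num) (Nat.pow_pos C.hA)) (by omega) (fun a i t => heads_spec C a i t)
          (fun a i t hai him ht => heads_card C (by omega) hai him ht) n
        have h3 : (C.F0 0).card * (DC G.m R.g (heads C) n 0).card ≤
            C.Nt * A ^ (1 + G.m - 0) * (C.Nt * ((4 * (6 * A ^ 2)) ^ (G.m + R.g) * (6 * A ^ 2) ^ G.m)) := Nat.mul_le_mul h1 h2
        have h4 : C.Nt * A ^ (1 + G.m - 0) * (C.Nt * ((4 * (6 * A ^ 2)) ^ (G.m + R.g) * (6 * A ^ 2) ^ G.m)) =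
            C.Nt ^ 2 * ((24 * A ^ 2) ^ (G.m + R.g) * (6 * A ^ 2) ^ G.m * A ^ (1 + G.m)) := by
          rw [Nat.sub_zero, show 4 * (6 * A ^ 2) = 24 * A ^ 2 by ring]
          ring
        exact_mod_cast h3.trans (le_of_eq h4)

end

end Pool.Agent.W_7d29a1_C1.H40
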