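import Pool.Agent.W_7d29a1_C1.ChnU40

/-!
MP_7d29a1_pr, the attractor route: THE CHAINS OF THE POTENTIAL: probability of many deep layers / nodes, the counting input from a tree of
cells, the tower above an own slab, the count of the abnormal own slabs. (helper40)
-/

set_option autoImplicit false

namespace Pool.Agent.W_7d29a1_C1.H40

open MeasureTheory ProbabilityTheory Finset
open Pool.Agent.W_7d29a1_F Pool.Agent.W_7d29a1_C1.S71
open scoped ENNReal Classical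

noncomputable section

/-! ### The tail of one list of cuts -/

section OneList

variable {Λ : Type*} [Inhabited Λ]

/-- One sorted list of cuts. -/
theorem tailZ {μ : Measure ℝ} [IsProbabilityMeasure μ] {dpL : Cut Λ → Cut Λ → Env → ℕ}
    {dpN : Cut Λ → Cut Λ → Cut Λ → Env → ℕ} (mL : ∀ a b, Measurable (dpL a b)) (mN : ∀ a b c, Measurable (dpN a b c))
    (rL : ∀ a b (η η' : Env), (∀ p ∈ btw a b, η p = η' p) → dpL a b η = dpL a b η')
    (rN : ∀ a b c (η η' : Env), (∀ p ∈ btw a c, η p = η' p) → dpN a b c η = dpN a b c η')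
    {z M : ℝ≥0∞} (hz : 1 ≤ z) (hz' : z ≠ ∞) (hM : 1 ≤ M) {Z : List (Cut Λ)} (hpw : Z.Pairwise fun c d => c.row ≤ d.row)
    {n : ℕ} (hlen : Z.length ≤ n)
    (momL : ∀ k, k + 1 < Z.length → ∫⁻ η, z ^ dpL (Z.getD k d0) (Z.getD (k + 1) d0) η ∂(law μ) ≤ M)
    (momN : ∀ k, k + 2 < Z.length → ∫⁻ η, z ^ dpN (Z.getD k d0) (Z.getD (k + 1) d0) (Z.getD (k + 2) d0) η ∂(law μ) ≤ M)
    (r : ℕ) : law μ {η | 3 * r ≤ SL dpL Z η + SN dpN Z η} ≤ 3 * (M ^ n / z ^ r) := by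
  set NL : ℕ → Env → ℕ := fun k => dpL (Z.getD k d0) (Z.getD (k + 1) d0) with hNL
  set NN : ℕ → Env → ℕ := fun k => dpN (Z.getD k d0) (Z.getD (k + 1) d0) (Z.getD (k + 2) d0) with hNN
  have h1 := tail_class (μ := μ) hpw (N := NL) (lo := fun k => k) (hi := fun k => k + 1) (range (Z.length - 1))
    (fun k _ => Nat.le_succ k) (fun k hk => by rw [mem_range] at hk; show k + 1 < _; omega)
    (fun k _ k' _ hkk => hkk) (fun k => mL _ _) (fun k _ η η' he => rL _ _ η η' he) hz hz' hM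
    (fun k hk => momL k (by rw [mem_range] at hk; omega)) (n := n) (by rw [card_range]; omega) r
  have h2 : ∀ e : ℕ, law μ {η | r ≤ ∑ k ∈ (range (Z.length - 2)).filter (fun k => k % 2 = e), NN k η} ≤
      M ^ n / z ^ r := by
    intro e
    refine tail_class (μ := μ) hpw (N := NN) (lo := fun k => k) (hi := fun k => k + 2) _
      (fun k _ => by show k ≤ k + 2; omega)
      (fun k hk => ?_) (fun k hk k' hk' hkk => ?_) (fun k => mN _ _ _) (fun k _ η η' he => rN _ _ _ η η' he) hz hz' hM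
      (fun k hk => momN k ?_) ?_ r
    · have := mem_range.1 (mem_filter.1 hk).1
      show k + 2 < _
      omega
    · have a1 := (mem_filter.1 hk).2
      have a2 := (mem_filter.1 hk').2
      show k + 2 ≤ k'
      omega
    · have := mem_range.1 (mem_filter.1 hk).1
      omega
    · refine (card_filter_le _ _).trans ?_
      rw [card_range]
      omega
  have hsub : {η | 3 * r ≤ SL dpL Z η + SN dpN Z η} ⊆ {η | r ≤ ∑ k ∈ range (Z.length - 1), NL k η} ∪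
      ({η | r ≤ ∑ k ∈ (range (Z.length - 2)).filter (fun k => k % 2 = 0), NN k η} ∪
        {η | r ≤ ∑ k ∈ (range (Z.length - 2)).filter (fun k => k % 2 = 1), NN k η}) := by
    intro η hη
    have hη' : 3 * r ≤ SL dpL Z η + SN dpN Z η := hη
    have e1 : SN dpN Z η = ∑ k ∈ (range (Z.length - 2)).filter (fun k => k % 2 = 0), NN k η +
        ∑ k ∈ (range (Z.length - 2)).filter (fun k => k % 2 = 1), NN k η := by
      have h3 := sum_filter_add_sum_filter_not (range (Z.length - 2)) (fun k => k % 2 = 0) fun k => NN k η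
      have h4 : (range (Z.length - 2)).filter (fun k => ¬ k % 2 = 0) = (range (Z.length - 2)).filter (fun k => k % 2 = 1) :=
        filter_congr fun k _ => by omega
      rw [h4] at h3
      exact h3.symm
    have e2 : SL dpL Z η = ∑ k ∈ range (Z.length - 1), NL k η := rfl
    by_cases c1 : r ≤ ∑ k ∈ range (Z.length - 1), NL k η
    · exact Or.inl c1
    · by_cases c2 : r ≤ ∑ k ∈ (range (Z.length - 2)).filter (fun k => k % 2 = 0), NN k η
      · exact Or.inr (Or.inl c2)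
      · refine Or.inr (Or.inr ?_)
        show r ≤ ∑ k ∈ (range (Z.length - 2)).filter (fun k => k % 2 = 1), NN k η
        omega
  calc law μ {η | 3 * r ≤ SL dpL Z η + SN dpN Z η} ≤ _ := measure_mono hsub
    _ ≤ law μ {η | r ≤ ∑ k ∈ range (Z.length - 1), NL k η} +
        (law μ {η | r ≤ ∑ k ∈ (range (Z.length - 2)).filter (fun k => k % 2 = 0), NN k η} +
          law μ {η | r ≤ ∑ k ∈ (range (Z.length - 2)).filter (fun k => k % 2 = 1), NN k η}) :=
        (measure_union_le _ _).trans (add_le_add le_rfl (measure_union_le _ _))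
    _ ≤ M ^ n / z ^ r + (M ^ n / z ^ r + M ^ n / z ^ r) :=
        add_le_add h1 (add_le_add (h2 0) (h2 1))
    _ = _ := by ring

end OneList

/-- The number of the codes. -/
def nCode (Nt A m g : ℕ) : ℕ := Nt ^ 2 * ((24 * A ^ 2) ^ (m + g) * (6 * A ^ 2) ^ m * A ^ (1 + m))

section Prob

variable {σ Λ : Type*} [Inhabited Λ] {G : Geo σ Λ} {R : Rl σ}

/-- **UNION OVER THE CHAINS OF THE POTENTIAL, ALL LAYERS AND NODES.** -/
theorem chnH40 {μ : Measure ℝ} [IsProbabilityMeasure μ] (h : GR G R) {A : ℕ} (C : CntH G R A) (hr : Geo.LocRow G)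
    {dpL : Cut Λ → Cut Λ → Env → ℕ} {dpN : Cut Λ → Cut Λ → Cut Λ → Env → ℕ} (mL : ∀ a b, Measurable (dpL a b))
    (mN : ∀ a b c, Measurable (dpN a b c))
    (rL : ∀ a b (η η' : Env), (∀ p ∈ btw a b, η p = η' p) → dpL a b η = dpL a b η')
    (rN : ∀ a b c (η η' : Env), (∀ p ∈ btw a c, η p = η' p) → dpN a b c η = dpN a b c η')
    {z M : ℝ≥0∞} (hz : 1 ≤ z) (hz' : z ≠ ∞) (hM : 1 ≤ M)
    (momL : ∀ x ∈ G.W, ∀ l, R.IsC x 0 l → ∀ k, k + 1 < (cutsH G R x l).length →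
      ∫⁻ η, z ^ dpL ((cutsH G R x l).getD k d0) ((cutsH G R x l).getD (k + 1) d0) η ∂(law μ) ≤ M)
    (momN : ∀ x ∈ G.W, ∀ l, R.IsC x 0 l → ∀ k, k + 2 < (cutsH G R x l).length →
      ∫⁻ η, z ^ dpN ((cutsH G R x l).getD k d0) ((cutsH G R x l).getD (k + 1) d0) ((cutsH G R x l).getD (k + 2) d0) η
        ∂(law μ) ≤ M) (r : ℕ) :
    law μ {η | ∃ x ∈ G.W, ∃ l, R.IsC x 0 l ∧ 3 * r ≤ SL dpL (cutsH G R x l) η + SN dpN (cutsH G R x l) η} ≤
      (nCode C.Nt A G.m R.g : ℝ≥0∞) * (3 * (M ^ (3 * (G.m + R.g) + 1) / z ^ r)) :=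
  unionH h C (S := fun x l η => SL dpL (cutsH G R x l) η + SN dpN (cutsH G R x l) η)
    (fun x _ x' _ l l' hl hl' h1 h2 η => by
      show SL dpL (cutsH G R x l) η + SN dpN (cutsH G R x l) η = SL dpL (cutsH G R x' l') η + SN dpN (cutsH G R x' l') η
      rw [cutsH_congr hr hl hl' h1 h2])
    (fun x hx l hl => tailZ mL mN rL rN hz hz' hM (cutsH_pw h hl) (cutsH_length h hl) (momL x hx l hl) (momN x hx l hl) r)

end Prob

/-! ### The counting input from a tree of cells -/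

section Tree

variable {σ Λ : Type*} {G : Geo σ Λ} {R : Rl σ}

/-- The counting input, one scale at a time. -/
structure Tree40 (G : Geo σ Λ) (R : Rl σ) (A Nt : ℕ) : Prop where
  hA : 1 ≤ A
  hN : 1 ≤ Nt
  top : ∃ F : Finset Λ, F.card ≤ A * Nt ∧ ∀ x ∈ G.W, G.loc G.m x ∈ F
  ref : ∀ u < G.m, ∀ κ, ∃ F : Finset Λ, F.card ≤ A ∧ ∀ y ∈ G.W, G.loc (u + 1) y = κ → G.loc u y ∈ F
  dri : ∀ s ≤ G.m, ∀ κ, ∃ F : Finset Λ, F.card ≤ A ∧ ∀ p ∈ G.W, ∀ q ∈ G.W, G.loc s p = κ → (p = q ∨ R.Dr s p q) → G.loc s q ∈ F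
  nr : ∀ i ≤ R.m, ∀ κ, ∃ F : Finset Λ, F.card ≤ A ∧ ∀ y, ∀ p ∈ G.W, ∀ p' ∈ G.W, G.loc i p' = κ →
    (p = y ∨ (∃ s < i, R.Dr s p y) ∨ ∃ j < i, R.Mv j y p) → (p' = y ∨ R.Mv i y p') → G.loc i p ∈ F

variable {A Nt : ℕ}

/-- Refining a finite set of cells. -/
theorem Tree40.refine (t : Tree40 G R A Nt) {i : ℕ} (hi : i ≤ G.m) (F : Finset Λ) (n : ℕ) (hn : n ≤ i) :
    ∃ F' : Finset Λ, F'.card ≤ F.card * A ^ n ∧ ∀ y ∈ G.W, G.loc i y ∈ F → G.loc (i - n) y ∈ F' := by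
  induction n with
  | zero => exact ⟨F, by simp, fun y _ h => by simpa using h⟩
  | succ n ih =>
    obtain ⟨F', h1, h2⟩ := ih (by omega)
    choose f hf1 hf2 using t.ref (i - (n + 1)) (by omega)
    refine ⟨F'.biUnion f, ?_, fun y hy h => mem_biUnion.2 ⟨_, h2 y hy h, hf2 _ y hy ?_⟩⟩
    · refine card_biUnion_le.trans ?_
      calc ∑ u ∈ F', (f u).card ≤ ∑ _u ∈ F', A := sum_le_sum fun u _ => hf1 u
        _ = F'.card * A := by rw [sum_const, smul_eq_mul]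
        _ ≤ F.card * A ^ n * A := Nat.mul_le_mul_right _ h1
        _ = _ := by rw [pow_succ, mul_assoc]
    · rw [show i - (n + 1) + 1 = i - n by omega]

/-- **The counting input.** -/
theorem Tree40.cnt (h : GR G R) (t : Tree40 G R A Nt) : ∃ C : CntH G R A, C.Nt = Nt := by
  have hm := h.m_le
  have hg := h.g_ge
  obtain ⟨F, hF1, hF2⟩ := t.top
  have h0 : ∀ a, ∃ F' : Finset Λ, a ≤ G.m → F'.card ≤ Nt * A ^ (1 + G.m - a) ∧ ∀ x ∈ G.W, G.loc a x ∈ F' := by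
    intro a
    by_cases ha : a ≤ G.m
    · obtain ⟨F', h1, h2⟩ := t.refine le_rfl F (G.m - a) (by omega)
      refine ⟨F', fun _ => ⟨h1.trans ?_, fun x hx => ?_⟩⟩
      · calc F.card * A ^ (G.m - a) ≤ A * Nt * A ^ (G.m - a) := Nat.mul_le_mul_right _ hF1
          _ = Nt * A ^ (1 + G.m - a) := by
            rw [show 1 + G.m - a = (G.m - a) + 1 by omega, pow_succ]
            ring
      · have := h2 x hx (hF2 x hx)
        rwa [show G.m - (G.m - a) = a by omega] at this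
    · exact ⟨∅, fun h => absurd h ha⟩
  choose F0 hF0 using h0
  have h1 : ∀ a a' i' α, ∃ F' : Finset Λ, a < a' → a' < i' → i' ≤ R.m → F'.card ≤ A ^ (1 + i' - a) ∧
      ∀ y, ∀ p ∈ G.W, ∀ p' ∈ G.W, (p = y ∨ (∃ s < i', R.Dr s p y) ∨ ∃ i < i', R.Mv i y p) → (p' = y ∨ R.Mv i' y p') →
        G.loc a' p' = α → G.loc a p ∈ F' := by
    intro a a' i' α
    by_cases hc : a < a' ∧ a' < i' ∧ i' ≤ R.m
    · obtain ⟨c1, c2, c3⟩ := hc
      by_cases hex : ∃ p0 ∈ G.W, G.loc a' p0 = α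
      · obtain ⟨p0, hp0, e0⟩ := hex
        obtain ⟨F1, g1, g2⟩ := t.nr i' c3 (G.loc i' p0)
        obtain ⟨F', h1, h2⟩ := t.refine (show i' ≤ G.m by omega) F1 (i' - a) (by omega)
        refine ⟨F', fun _ _ _ => ⟨h1.trans ?_, fun y p hp p' hp' h3 h4 h5 => ?_⟩⟩
        · calc F1.card * A ^ (i' - a) ≤ A * A ^ (i' - a) := Nat.mul_le_mul_right _ g1
            _ = A ^ (1 + i' - a) := by rw [show 1 + i' - a = (i' - a) + 1 by omega, pow_succ, mul_comm]
        · have h6 : G.loc i' p' = G.loc i' p0 := G.nest a' i' (by omega) _ _ (h5.trans e0.symm)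
          have := h2 p hp (g2 y p hp p' hp' h6 h3 h4)
          rwa [show i' - (i' - a) = a by omega] at this
      · exact ⟨∅, fun _ _ _ => ⟨by simp, fun y p hp p' hp' _ _ h5 => absurd ⟨p', hp', h5⟩ hex⟩⟩
    · exact ⟨∅, fun h2 h3 h4 => absurd ⟨h2, h3, h4⟩ hc⟩
  choose F1' hF1'' using h1
  obtain ⟨F1, hF1', hF1e⟩ : ∃ F1 : ℕ → ℕ → ℕ → Λ → Finset Λ, (∀ a a' i' α, a < a' → a' < i' → i' ≤ R.m →
      (F1 a a' i' α).card ≤ A ^ (1 + i' - a) ∧
      ∀ y, ∀ p ∈ G.W, ∀ p' ∈ G.W, (p = y ∨ (∃ s < i', R.Dr s p y) ∨ ∃ i < i', R.Mv i y p) → (p' = y ∨ R.Mv i' y p') →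
        G.loc a' p' = α → G.loc a p ∈ F1 a a' i' α) ∧ ∀ a a' i' α, R.m < i' → F1 a a' i' α = ∅ := by
    refine ⟨fun a a' i' α => if R.m < i' then ∅ else F1' a a' i' α, fun a a' i' α c1 c2 c3 => ?_, fun a a' i' α c => if_pos c⟩
    have e : (if R.m < i' then (∅ : Finset Λ) else F1' a a' i' α) = F1' a a' i' α := if_neg (by omega)
    show (if R.m < i' then (∅ : Finset Λ) else F1' a a' i' α).card ≤ _ ∧
      ∀ y, ∀ p ∈ G.W, ∀ p' ∈ G.W, (p = y ∨ (∃ s < i', R.Dr s p y) ∨ ∃ i < i', R.Mv i y p) → (p' = y ∨ R.Mv i' y p') →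
        G.loc a' p' = α → G.loc a p ∈ (if R.m < i' then (∅ : Finset Λ) else F1' a a' i' α)
    rw [e]
    exact hF1'' a a' i' α c1 c2 c3
  have h2 : ∀ a s α, ∃ F' : Finset Λ, F'.card ≤ A ∧ (a ≤ s → s ≤ G.m → ∀ p ∈ G.W, ∀ q ∈ G.W, (p = q ∨ R.Dr s p q) →
      G.loc a p = α → G.loc s q ∈ F') := by
    intro a s α
    by_cases hc : a ≤ s ∧ s ≤ G.m ∧ ∃ p0 ∈ G.W, G.loc a p0 = α
    · obtain ⟨c1, c2, p0, hp0, e0⟩ := hc
      obtain ⟨F', g1, g2⟩ := t.dri s c2 (G.loc s p0)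
      exact ⟨F', g1, fun _ _ p hp q hq h3 h4 => g2 p hp q hq (G.nest a s c1 _ _ (h4.trans e0.symm)) h3⟩
    · exact ⟨∅, by simp, fun h3 h4 p hp q hq _ h5 => absurd ⟨h3, h4, p, hp, h5⟩ hc⟩
  choose F2 hF2' using h2
  exact ⟨{ F0 := F0, F1 := F1, F2 := F2, Nt := Nt, hN := t.hN, hA := t.hA
           h0 := fun a ha x hx => (hF0 a ha).2 x hx
           c0 := fun a ha => (hF0 a ha).1
           h1 := fun a a' i' c1 c2 c3 y p hp p' hp' h3 h4 => (hF1' a a' i' _ c1 c2 c3).2 y p hp p' hp' h3 h4 rfl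
           c1 := fun a a' i' c1 c2 c3 α => by
             by_cases c4 : i' ≤ R.m
             · exact (hF1' a a' i' α c1 c2 c4).1
             · rw [hF1e a a' i' α (by omega)]
               exact Nat.zero_le _
           h2 := fun a s c1 c2 p hp q hq h3 => (hF2' a s _).2 c1 c2 p hp q hq h3 rfl
           c2 := fun a s α => (hF2' a s α).1 }, rfl⟩

end Tree

end

end Pool.Agent.W_7d29a1_C1.H40
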