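import Pool.Agent.W_7d29a1_C1.ChnV40

/-!
MP_7d29a1_pr, the attractor route: THE CHAINS OF THE POTENTIAL: the tower above an own slab, the count of the abnormal own slabs, the
probability of a small potential. (helper40)
-/

set_option autoImplicit false

namespace Pool.Agent.W_7d29a1_C1.H40

open MeasureTheory ProbabilityTheory Finset
open Pool.Agent.W_7d29a1_F Pool.Agent.W_7d29a1_C1.S71
open scoped ENNReal Classical

noncomputable section

/-! ### The tower above an own slab -/

section Tower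

variable {σ Λ : Type*} {G : Geo σ Λ} {R : Rl σ}

/-- The junction of a tower at a move: the last cut of `y` has the scale `v = i + 1`, the next centre is `y'`. -/
def Jn (R : Rl σ) (v : ℕ) (y y' : σ) : Prop :=
  ∃ i s p, i + 1 = v ∧ s < i ∧ p ∈ R.W ∧ y' ∈ R.W ∧ R.Mv i y p ∧ R.Dr s p y'

/-- A tower above the centre `y`, from the scale `v` on: successive scales, the centre may move at a junction. -/
def TowH (G : Geo σ Λ) (R : Rl σ) : σ → ℕ → List (Cut Λ) → Prop
  | _, _, [] => True
  | y, v, c :: Z => c = G.ct v y ∧ ∃ y', (y' = y ∨ Jn R v y y') ∧ TowH G R y' (v + 1) Z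

theorem TowH.up {x : σ} {a n : ℕ} {Z : List (Cut Λ)} (h : TowH G R x (a + n) Z) : TowH G R x a (G.up x a n ++ Z) := by
  induction n generalizing a with
  | zero => simpa [Geo.up_zero] using h
  | succ n ih =>
    rw [Geo.up_succ, List.cons_append]
    refine ⟨rfl, x, Or.inl rfl, ih ?_⟩
    rwa [show a + 1 + n = a + (n + 1) by ring]

/-- The top of a tower moves. -/
theorem TowH.move {x y : σ} {a n : ℕ} {Z : List (Cut Λ)} (hn : 0 < n) (hJ : Jn R (a + n - 1) x y) (h : TowH G R y (a + n) Z) :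
    TowH G R x a (G.up x a n ++ Z) := by
  induction n generalizing a with
  | zero => omega
  | succ n ih =>
    rw [Geo.up_succ, List.cons_append]
    rcases Nat.eq_zero_or_pos n with h0 | h0
    · subst h0
      rw [Geo.up_zero, List.nil_append]
      exact ⟨rfl, y, Or.inr (by simpa using hJ), h⟩
    · refine ⟨rfl, x, Or.inl rfl, ih h0 ?_ ?_⟩
      · rwa [show a + 1 + n - 1 = a + (n + 1) - 1 by omega]
      · rwa [show a + 1 + n = a + (n + 1) by ring]

/-- Around the old list: something below, a tower above. -/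
theorem cutH_tow (h : GR G R) {x : σ} {τ : ℕ} (hτ : τ ≤ G.m + 1) {L : List (Cut Λ)} {l : List (St σ)} (hl : R.IsC x τ l) :
    ∃ P Z, cutH G R x τ L l = P ++ (L ++ Z) ∧ TowH G R x τ Z ∧ τ + Z.length = G.m + 1 := by
  have hg := h.g_ge
  have hml := h.m_le
  induction l generalizing x τ L with
  | nil =>
    refine ⟨[], G.up x τ (G.m + 1 - τ), rfl, ?_, ?_⟩
    · have := TowH.up (G := G) (R := R) (x := x) (a := τ) (n := G.m + 1 - τ) (Z := []) trivial
      rwa [List.append_nil] at this
    · rw [Geo.up_length]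
      omega
  | cons c l ih =>
    obtain ⟨hc, hl'⟩ := hl
    have hc' := hc
    obtain ⟨h1, h2, h3, h4, h5, h6, h6', h9, h10⟩ := hc'
    obtain ⟨P, Z, e, h7, h8⟩ := ih (show c.i + R.g ≤ G.m + 1 by omega) (L := stepL G R x τ L c) hl'
    show ∃ P Z, cutH G R (Rl.nxc x c) (c.i + R.g) (stepL G R x τ L c) l = P ++ (L ++ Z) ∧ _ ∧ _
    rw [e]
    cases hk : c.k
    · have e1 : stepL G R x τ L c = L ++ G.up x τ (c.i + R.g - τ) := by unfold stepL; rw [hk]
      have e2 : Rl.nxc x c = x := if_neg (by rw [hk]; decide)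
      rw [e1]
      rw [e2] at h7
      refine ⟨P, G.up x τ (c.i + R.g - τ) ++ Z, by simp only [List.append_assoc], TowH.up ?_, ?_⟩
      · rwa [show τ + (c.i + R.g - τ) = c.i + R.g by omega]
      · rw [List.length_append, Geo.up_length]
        omega
    · have e1 : stepL G R x τ L c =
        lowP G c ++ (L ++ (G.up x τ (c.i + 2 - τ) ++ G.up c.q (c.i + 2) (R.g - 2))) := by unfold stepL; rw [hk]
      have e2 : Rl.nxc x c = c.q := if_pos hk
      rw [e1]
      rw [e2] at h7
      obtain ⟨hm, hd⟩ := h10 (by rw [hk]; decide)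
      refine ⟨P ++ lowP G c, G.up x τ (c.i + 2 - τ) ++ (G.up c.q (c.i + 2) (R.g - 2) ++ Z), by simp only [List.append_assoc],
        TowH.move (by omega) (y := c.q) ?_ ?_, ?_⟩
      · rw [show τ + (c.i + 2 - τ) - 1 = c.i + 1 by omega]
        exact ⟨c.i, c.s, c.p, rfl, h3, h6, h6', hm, hd⟩
      · rw [show τ + (c.i + 2 - τ) = c.i + 2 by omega]
        refine TowH.up ?_
        rwa [show c.i + 2 + (R.g - 2) = c.i + R.g by omega]
      · rw [List.length_append, List.length_append, Geo.up_length, Geo.up_length]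
        omega
    · have e1 : stepL G R x τ L c = lowP G c ++ (L ++ G.up x τ (c.i + R.g - τ)) := by unfold stepL; rw [hk]
      have e2 : Rl.nxc x c = x := if_neg (by rw [hk]; decide)
      rw [e1]
      rw [e2] at h7
      refine ⟨P ++ lowP G c, G.up x τ (c.i + R.g - τ) ++ Z, by simp only [List.append_assoc], TowH.up ?_, ?_⟩
      · rwa [show τ + (c.i + R.g - τ) = c.i + R.g by omega]
      · rw [List.length_append, Geo.up_length]
        omega

/-- The own cuts from the scale `u` on. -/
def ownC (G : Geo σ Λ) (c : St σ) (u : ℕ) : List (Cut Λ) :=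
  G.up c.p u (c.s - u) ++ G.up c.q (max u c.s) (c.i - max u c.s)

/-- The centre of the own slab of the scale `u`. -/
def own (c : St σ) (u : ℕ) : σ := if u < c.s then c.p else c.q

theorem ownC_eq {c : St σ} {u : ℕ} (hs : c.a ≤ c.s) (hi : c.s < c.i) (h1 : c.a ≤ u) (h2 : u < c.i) :
    G.up c.p c.a (c.s - c.a) ++ G.up c.q c.s (c.i - c.s) =
      (G.up c.p c.a (min u c.s - c.a) ++ G.up c.q c.s (u - c.s)) ++ ownC G c u := by
  unfold ownC
  rcases le_total u c.s with h3 | h3
  · rw [min_eq_left h3, max_eq_right h3, Nat.sub_eq_zero_of_le h3, Geo.up_zero, List.append_nil,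
      show c.s - c.a = (u - c.a) + (c.s - u) by omega, Geo.up_add, show c.a + (u - c.a) = u by omega, List.append_assoc]
  · rw [min_eq_right h3, max_eq_left h3, Nat.sub_eq_zero_of_le h3, Geo.up_zero, List.nil_append,
      show c.i - c.s = (u - c.s) + (c.i - u) by omega, Geo.up_add, show c.s + (u - c.s) = u by omega, List.append_assoc]

theorem ownC_stay {c : St σ} {u : ℕ} (hpq : c.p = c.q) (h2 : u < c.i) (hi : c.s < c.i) : ownC G c u = G.up c.q u (c.i - u) := by
  unfold ownC
  rcases le_total u c.s with h3 | h3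
  · rw [max_eq_right h3, hpq, show c.i - u = (c.s - u) + (c.i - c.s) by omega, Geo.up_add, show u + (c.s - u) = c.s by omega]
  · rw [max_eq_left h3, Nat.sub_eq_zero_of_le h3, Geo.up_zero, List.nil_append]

/-- What is above an own slab `(own c u, u)` of a step `c` from the centre `y`. -/
def Above (G : Geo σ Λ) (R : Rl σ) (Z : List (Cut Λ)) (c : St σ) (u : ℕ) (y : σ) (τ : ℕ) : Prop :=
  R.Ok y τ c ∧ ∃ P Q T, Z = P ++ (ownC G c u ++ (Q ++ T)) ∧ (∀ d ∈ Q, d.sc ≤ c.i + 1) ∧ TowH G R (Rl.nxc y c) (c.i + 2) T ∧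
    c.i + 2 + T.length = G.m + 1 ∧ T ≠ []

/-- **THE TOWER ABOVE AN OWN SLAB.** Own cuts of the scales `u, …, i - 1`, then a block of cuts of scales `≤ i + 1`, then a tower from
the scale `i + 2` to at least `m`. -/
theorem cutH_own (h : GR G R) {x : σ} {τ : ℕ} {L : List (Cut Λ)} {l : List (St σ)} (hl : R.IsC x τ l)
    (hL : ∀ d ∈ L, d.sc ≤ τ) {c : St σ} (hm : c ∈ l) {u : ℕ} (h1 : c.a ≤ u) (h2 : u < c.i) :
    ∃ y τ', Above G R (cutH G R x τ L l) c u y τ' := by
  have hg := h.g_ge
  have hml := h.m_le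
  induction l generalizing x τ L with
  | nil => exact absurd hm (by simp)
  | cons d l ih =>
    obtain ⟨hd, hl'⟩ := hl
    have hd' := hd
    obtain ⟨g1, g2, g3, g4, g5, g6, g7, g8, g9⟩ := hd'
    have hstep : ∀ e ∈ stepL G R x τ L d, e.sc ≤ d.i + R.g := by
      intro e he
      have hlow : ∀ e ∈ lowP G d, e.sc ≤ d.i + R.g := by
        intro e he
        unfold lowP at he
        simp only [List.mem_cons, List.mem_append] at he
        rcases he with rfl | he | he
        · show d.a ≤ d.i + R.g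
          omega
        · have := Geo.up_sc _ _ _ e he
          omega
        · have := Geo.up_sc _ _ _ e he
          omega
      unfold stepL at he
      cases hk : d.k <;> rw [hk] at he <;> simp only [List.mem_append] at he
      · rcases he with he | he
        · have := hL e he
          omega
        · have := Geo.up_sc _ _ _ e he
          omega
      · rcases he with he | he | he | he
        · exact hlow e he
        · have := hL e he
          omega
        · have := Geo.up_sc _ _ _ e he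
          omega
        · have := Geo.up_sc _ _ _ e he
          omega
      · rcases he with he | he | he
        · exact hlow e he
        · have := hL e he
          omega
        · have := Geo.up_sc _ _ _ e he
          omega
    rcases List.mem_cons.1 hm with rfl | hm
    · refine ⟨x, τ, hd, ?_⟩
      show ∃ P Q T, cutH G R (Rl.nxc x c) (c.i + R.g) (stepL G R x τ L c) l = P ++ (ownC G c u ++ (Q ++ T)) ∧ _
      obtain ⟨P, Z, e, h7, h8⟩ := cutH_tow (L := stepL G R x τ L c) h (show c.i + R.g ≤ G.m + 1 by omega) hl'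
      rw [e]
      cases hk : c.k
      · have e1 : stepL G R x τ L c = L ++ G.up x τ (c.i + R.g - τ) := by unfold stepL; rw [hk]
        have e2 : Rl.nxc x c = x := if_neg (by rw [hk]; decide)
        obtain ⟨hp, hq⟩ := g8 hk
        rw [e1, ownC_stay (hp.trans hq.symm) h2 g3, hq]
        rw [e2] at h7 ⊢
        refine ⟨P ++ (L ++ G.up x τ (u - τ)), G.up x c.i 2, G.up x (c.i + 2) (R.g - 2) ++ Z, ?_, ?_, TowH.up ?_, ?_, ?_⟩
        · rw [show c.i + R.g - τ = (u - τ) + ((c.i - u) + (2 + (R.g - 2))) by omega, Geo.up_add, Geo.up_add, Geo.up_add,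
            show τ + (u - τ) = u by omega, show u + (c.i - u) = c.i by omega]
          simp only [List.append_assoc]
        · intro d' hd'
          have := Geo.up_sc _ _ _ d' hd'
          omega
        · rwa [show c.i + 2 + (R.g - 2) = c.i + R.g by omega]
        · rw [List.length_append, Geo.up_length]
          omega
        · rw [show R.g - 2 = (R.g - 3) + 1 by omega, Geo.up_succ]
          exact List.cons_ne_nil _ _
      · have e1 : stepL G R x τ L c =
          lowP G c ++ (L ++ (G.up x τ (c.i + 2 - τ) ++ G.up c.q (c.i + 2) (R.g - 2))) := by unfold stepL; rw [hk]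
        have e2 : Rl.nxc x c = c.q := if_pos hk
        rw [e1]
        rw [e2] at h7 ⊢
        refine ⟨P ++ (G.bt c.a c.p :: (G.up c.p c.a (min u c.s - c.a) ++ G.up c.q c.s (u - c.s))),
          L ++ G.up x τ (c.i + 2 - τ), G.up c.q (c.i + 2) (R.g - 2) ++ Z, ?_, ?_, TowH.up ?_, ?_, ?_⟩
        · unfold lowP
          rw [ownC_eq g2 g3 h1 h2]
          simp only [List.append_assoc, List.cons_append]
        · intro d' hd'
          rcases List.mem_append.1 hd' with hd' | hd'
          · have := hL d' hd'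
            omega
          · have := Geo.up_sc _ _ _ d' hd'
            omega
        · rwa [show c.i + 2 + (R.g - 2) = c.i + R.g by omega]
        · rw [List.length_append, Geo.up_length]
          omega
        · rw [show R.g - 2 = (R.g - 3) + 1 by omega, Geo.up_succ]
          exact List.cons_ne_nil _ _
      · have e1 : stepL G R x τ L c = lowP G c ++ (L ++ G.up x τ (c.i + R.g - τ)) := by unfold stepL; rw [hk]
        have e2 : Rl.nxc x c = x := if_neg (by rw [hk]; decide)
        rw [e1]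
        rw [e2] at h7 ⊢
        refine ⟨P ++ (G.bt c.a c.p :: (G.up c.p c.a (min u c.s - c.a) ++ G.up c.q c.s (u - c.s))),
          L ++ G.up x τ (c.i + 2 - τ), G.up x (c.i + 2) (R.g - 2) ++ Z, ?_, ?_, TowH.up ?_, ?_, ?_⟩
        · unfold lowP
          rw [ownC_eq g2 g3 h1 h2, show c.i + R.g - τ = (c.i + 2 - τ) + (R.g - 2) by omega, Geo.up_add,
            show τ + (c.i + 2 - τ) = c.i + 2 by omega]
          simp only [List.append_assoc, List.cons_append]
        · intro d' hd'
          rcases List.mem_append.1 hd' with hd' | hd'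
          · have := hL d' hd'
            omega
          · have := Geo.up_sc _ _ _ d' hd'
            omega
        · rwa [show c.i + 2 + (R.g - 2) = c.i + R.g by omega]
        · rw [List.length_append, Geo.up_length]
          omega
        · rw [show R.g - 2 = (R.g - 3) + 1 by omega, Geo.up_succ]
          exact List.cons_ne_nil _ _
    · exact ih (x := Rl.nxc x d) (τ := d.i + R.g) (L := stepL G R x τ L d) hl' hstep hm

theorem cutsH_own (h : GR G R) {x : σ} {l : List (St σ)} (hl : R.IsC x 0 l) {c : St σ} (hm : c ∈ l) {u : ℕ} (h1 : c.a ≤ u)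
    (h2 : u < c.i) : ∃ y τ', Above G R (cutsH G R x l) c u y τ' :=
  cutH_own h hl (fun d hd => by rw [List.mem_singleton.1 hd]; exact le_rfl) hm h1 h2

/-- All the cuts have scales `≤ m`. -/
theorem cutH_sc (h : GR G R) {x : σ} {τ : ℕ} {L : List (Cut Λ)} {l : List (St σ)} (hl : R.IsC x τ l)
    (hL : ∀ d ∈ L, d.sc ≤ G.m) : ∀ d ∈ cutH G R x τ L l, d.sc ≤ G.m := by
  have hg := h.g_ge
  have hml := h.m_le
  induction l generalizing x τ L with
  | nil =>
    intro d hd
    rcases List.mem_append.1 hd with hd | hd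
    · exact hL d hd
    · have h1 := Geo.up_sc _ _ _ d hd
      by_cases h2 : τ ≤ G.m
      · omega
      · rw [show G.m + 1 - τ = 0 by omega, Geo.up_zero] at hd
        exact absurd hd (by simp)
  | cons c l ih =>
    obtain ⟨⟨h1, h2, h3, h4, h5, -⟩, h6⟩ := hl
    have hup : ∀ (y : σ) (a n : ℕ), a + n ≤ G.m + 1 → ∀ d ∈ G.up y a n, d.sc ≤ G.m := fun y a n h d hd => by
      have := Geo.up_sc _ _ _ d hd
      omega
    have hlow : ∀ d ∈ lowP G c, d.sc ≤ G.m := by
      intro d hd
      unfold lowP at hd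
      simp only [List.mem_cons, List.mem_append] at hd
      rcases hd with rfl | hd | hd
      · show c.a ≤ G.m
        omega
      · exact hup _ _ _ (by omega) d hd
      · exact hup _ _ _ (by omega) d hd
    refine ih h6 fun d hd => ?_
    unfold stepL at hd
    cases hk : c.k <;> rw [hk] at hd <;> simp only [List.mem_append] at hd
    · rcases hd with hd | hd
      · exact hL d hd
      · exact hup _ _ _ (by omega) d hd
    · rcases hd with hd | hd | hd | hd
      · exact hlow d hd
      · exact hL d hd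
      · exact hup _ _ _ (by omega) d hd
      · exact hup _ _ _ (by omega) d hd
    · rcases hd with hd | hd | hd
      · exact hlow d hd
      · exact hL d hd
      · exact hup _ _ _ (by omega) d hd

theorem cutsH_sc (h : GR G R) {x : σ} {l : List (St σ)} (hl : R.IsC x 0 l) : ∀ d ∈ cutsH G R x l, d.sc ≤ G.m :=
  cutH_sc h hl fun d hd => by rw [List.mem_singleton.1 hd]; exact Nat.zero_le _

end Tower

/-! ### The count of the abnormal own slabs -/

section Cnt

variable {σ : Type*} {R : Rl σ}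

/-- The own scales of a chain are distinct: a sum over the own slabs is a sum over scales. -/
theorem nm_le_sum {Ω : Type*} {dep : ℕ → σ → Ω → ℕ} {ω : Ω} {f : ℕ → ℕ} {C : ℕ} (hg : 1 ≤ R.g) {x : σ} {τ : ℕ}
    {l : List (St σ)} (hl : R.IsC x τ l)
    (h : ∀ c ∈ l, ∑ u ∈ Ico c.a c.i, dep u (own c u) ω ≤ C + ∑ u ∈ Ico c.a c.i, f u) :
    Rl.nm dep l ω ≤ C * l.length + ∑ u ∈ Ico τ R.m, f u := by
  induction l generalizing x τ with
  | nil => exact Nat.zero_le _
  | cons c l ih =>
    obtain ⟨⟨h1, h2, h3, h4, h5, -⟩, h6⟩ := hl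
    rw [Rl.nm_cons, List.length_cons, Nat.mul_succ]
    have h7 := h c (List.mem_cons_self ..)
    have h8 := ih h6 fun d hd => h d (List.mem_cons_of_mem _ hd)
    have e1 : Rl.dst dep c ω = ∑ u ∈ Ico c.a c.i, dep u (own c u) ω := by
      have h9 : ∑ u ∈ Ico c.a c.i, dep u (own c u) ω =
          ∑ u ∈ Ico c.a c.s, dep u (own c u) ω + ∑ u ∈ Ico c.s c.i, dep u (own c u) ω :=
        (sum_Ico_consecutive (fun u => dep u (own c u) ω) h2 h3.le).symm
      rw [h9]
      refine congrArg₂ (· + ·) (sum_congr rfl fun u hu => ?_) (sum_congr rfl fun u hu => ?_)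
      · rw [mem_Ico] at hu
        rw [own, if_pos hu.2]
      · rw [mem_Ico] at hu
        rw [own, if_neg (by omega)]
    have h10 : ∑ u ∈ Ico c.a c.i, f u + ∑ u ∈ Ico (c.i + R.g) R.m, f u ≤ ∑ u ∈ Ico τ R.m, f u := by
      have hd : Disjoint (Ico c.a c.i) (Ico (c.i + R.g) R.m) := by
        rw [disjoint_left]
        intro u hu hu'
        rw [mem_Ico] at hu hu'
        omega
      rw [← sum_union hd]
      refine sum_le_sum_of_subset fun u hu => ?_
      rcases mem_union.1 hu with hu | hu <;> rw [mem_Ico] at hu ⊢ <;> omega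
    rw [e1]
    omega

/-- A depth `d` at the scale `sc` is felt at the scale `u`. -/
def Felt (sc d u : ℕ) : Prop := 1 ≤ d ∧ u ≤ sc + d ∧ sc ≤ u + d

theorem sum_felt (sc d : ℕ) (S : Finset ℕ) : ∑ u ∈ S, (if Felt sc d u then 1 else 0) ≤ 3 * d := by
  rw [← card_filter]
  rcases Nat.eq_zero_or_pos d with rfl | hd
  · have e : S.filter (fun u => Felt sc 0 u) = ∅ := filter_eq_empty_iff.2 fun u _ h => absurd h.1 (by omega)
    rw [e, card_empty]
  · refine (card_le_card (t := Icc (sc - d) (sc + d)) fun u hu => ?_).trans ?_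
    · obtain ⟨-, h1, h2, h3⟩ := mem_filter.1 hu
      exact mem_Icc.2 ⟨by omega, h2⟩
    · rw [Nat.card_Icc]
      omega

variable {Λ : Type*} [Inhabited Λ]

/-- **COUNT.** -/
theorem count40 {T : ℕ → σ → Set Env} {η : Env} {C1 : ℕ} (hg : 1 ≤ R.g) {x : σ} {τ : ℕ} {l : List (St σ)} (hl : R.IsC x τ l)
    (Z : List (Cut Λ)) (dpL : Cut Λ → Cut Λ → Env → ℕ) (dpN : Cut Λ → Cut Λ → Cut Λ → Env → ℕ)
    (scL : Cut Λ → Cut Λ → ℕ) (scN : Cut Λ → Cut Λ → Cut Λ → ℕ)
    (hT : ∀ c ∈ l, ∀ u, c.a + 2 ≤ u → u + C1 < c.i →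
      (∀ k, k + 1 < Z.length → ¬ Felt (scL (Z.getD k d0) (Z.getD (k + 1) d0)) (dpL (Z.getD k d0) (Z.getD (k + 1) d0) η) u) →
      (∀ k, k + 2 < Z.length → ¬ Felt (scN (Z.getD k d0) (Z.getD (k + 1) d0) (Z.getD (k + 2) d0))
        (dpN (Z.getD k d0) (Z.getD (k + 1) d0) (Z.getD (k + 2) d0) η) u) → η ∈ T u (own c u)) :
    Rl.nm (Rl.dpT T) l η ≤ (C1 + 2) * l.length + 3 * (SL dpL Z η + SN dpN Z η) := by
  set fL : ℕ → ℕ := fun u => ∑ k ∈ range (Z.length - 1),
    (if Felt (scL (Z.getD k d0) (Z.getD (k + 1) d0)) (dpL (Z.getD k d0) (Z.getD (k + 1) d0) η) u then 1 else 0) with hfL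
  set fN : ℕ → ℕ := fun u => ∑ k ∈ range (Z.length - 2),
    (if Felt (scN (Z.getD k d0) (Z.getD (k + 1) d0) (Z.getD (k + 2) d0))
      (dpN (Z.getD k d0) (Z.getD (k + 1) d0) (Z.getD (k + 2) d0) η) u then 1 else 0) with hfN
  have h1 : ∀ c ∈ l, ∑ u ∈ Ico c.a c.i, Rl.dpT T u (own c u) η ≤ (C1 + 2) + ∑ u ∈ Ico c.a c.i, (fL u + fN u) := by
    intro c hc
    have h2 : ∀ u ∈ Ico c.a c.i, Rl.dpT T u (own c u) η ≤
        (if u < c.a + 2 ∨ c.i ≤ u + C1 then 1 else 0) + (fL u + fN u) := by
      intro u hu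
      rw [mem_Ico] at hu
      by_cases h3 : u < c.a + 2 ∨ c.i ≤ u + C1
      · rw [if_pos h3]
        have : Rl.dpT T u (own c u) η ≤ 1 := by unfold Rl.dpT; split_ifs <;> omega
        omega
      · rw [if_neg h3]
        push Not at h3
        by_cases h4 : η ∈ T u (own c u)
        · have : Rl.dpT T u (own c u) η = 0 := if_pos h4
          omega
        · have h5 : Rl.dpT T u (own c u) η = 1 := if_neg h4
          rw [h5]
          by_contra hcon
          have hL0 : fL u = 0 := by omega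
          have hN0 : fN u = 0 := by omega
          refine h4 (hT c hc u h3.1 h3.2 (fun k hk hF => ?_) fun k hk hF => ?_)
          · have h6 : ∀ k ∈ range (Z.length - 1), (if Felt (scL (Z.getD k d0) (Z.getD (k + 1) d0))
                (dpL (Z.getD k d0) (Z.getD (k + 1) d0) η) u then 1 else 0) = 0 := Finset.sum_eq_zero_iff.1 hL0
            have h7 := h6 k (mem_range.2 (by omega))
            rw [if_pos hF] at h7
            omega
          · have h6 : ∀ k ∈ range (Z.length - 2), (if Felt (scN (Z.getD k d0) (Z.getD (k + 1) d0) (Z.getD (k + 2) d0))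
                (dpN (Z.getD k d0) (Z.getD (k + 1) d0) (Z.getD (k + 2) d0) η) u then 1 else 0) = 0 :=
              Finset.sum_eq_zero_iff.1 hN0
            have h7 := h6 k (mem_range.2 (by omega))
            rw [if_pos hF] at h7
            omega
    refine (sum_le_sum h2).trans ?_
    rw [sum_add_distrib]
    refine Nat.add_le_add_right ?_ _
    rw [← card_filter]
    refine (card_le_card (t := Ico c.a (c.a + 2) ∪ Ico (c.i - C1) c.i) fun u hu => ?_).trans ?_
    · obtain ⟨hu1, hu2⟩ := mem_filter.1 hu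
      rw [mem_Ico] at hu1
      rw [mem_union, mem_Ico, mem_Ico]
      omega
    · refine (card_union_le _ _).trans ?_
      rw [Nat.card_Ico, Nat.card_Ico]
      omega
  refine (nm_le_sum hg hl h1).trans (Nat.add_le_add_left ?_ _)
  have hLs : ∑ u ∈ Ico τ R.m, fL u ≤ 3 * SL dpL Z η := by
    rw [hfL, sum_comm]
    unfold SL
    rw [mul_sum]
    exact sum_le_sum fun k _ => sum_felt _ _ _
  have hNs : ∑ u ∈ Ico τ R.m, fN u ≤ 3 * SN dpN Z η := by
    rw [hfN, sum_comm]
    unfold SN
    rw [mul_sum]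
    exact sum_le_sum fun k _ => sum_felt _ _ _
  rw [sum_add_distrib]
  omega

end Cnt

/-! ### The probability of a small potential -/

section Final

variable {σ Λ : Type*} [Inhabited Λ] {G : Geo σ Λ} {R : Rl σ}

/-- The number of the steps. -/
def nSt (m g lam : ℕ) : ℕ := (m + g) / (lam + g)

omit [Inhabited Λ] in
theorem length_le (h : GR G R) {x : σ} {l : List (St σ)} (hl : R.IsC x 0 l) : l.length ≤ nSt R.m R.g R.lam := by
  have hg := h.g_ge
  rcases IsC_length hl with rfl | h1
  · exact Nat.zero_le _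
  · exact (Nat.le_div_iff_mul_le (by omega)).2 (by omega)

/-- **THE POTENTIAL IS SMALL ONLY WITH SMALL PROBABILITY.** -/
theorem pot40 {μ : Measure ℝ} [IsProbabilityMeasure μ] (h : GR G R) {A : ℕ} (C : CntH G R A) (hr : Geo.LocRow G)
    {dpL : Cut Λ → Cut Λ → Env → ℕ} {dpN : Cut Λ → Cut Λ → Cut Λ → Env → ℕ} (mL : ∀ a b, Measurable (dpL a b))
    (mN : ∀ a b c, Measurable (dpN a b c))
    (rL : ∀ a b (η η' : Env), (∀ p ∈ btw a b, η p = η' p) → dpL a b η = dpL a b η')
    (rN : ∀ a b c (η η' : Env), (∀ p ∈ btw a c, η p = η' p) → dpN a b c η = dpN a b c η')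
    {z M : ℝ≥0∞} (hz : 1 ≤ z) (hz' : z ≠ ∞) (hM : 1 ≤ M)
    (momL : ∀ x ∈ G.W, ∀ l, R.IsC x 0 l → ∀ k, k + 1 < (cutsH G R x l).length →
      ∫⁻ η, z ^ dpL ((cutsH G R x l).getD k d0) ((cutsH G R x l).getD (k + 1) d0) η ∂(law μ) ≤ M)
    (momN : ∀ x ∈ G.W, ∀ l, R.IsC x 0 l → ∀ k, k + 2 < (cutsH G R x l).length →
      ∫⁻ η, z ^ dpN ((cutsH G R x l).getD k d0) ((cutsH G R x l).getD (k + 1) d0) ((cutsH G R x l).getD (k + 2) d0) η
        ∂(law μ) ≤ M)
    (scL : Cut Λ → Cut Λ → ℕ) (scN : Cut Λ → Cut Λ → Cut Λ → ℕ) {T : ℕ → σ → Set Env} {C1 : ℕ} {bad : Set Env}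
    (hT : ∀ η ∉ bad, ∀ x ∈ G.W, ∀ l, R.IsC x 0 l → ∀ c ∈ l, ∀ u, c.a + 2 ≤ u → u + C1 < c.i →
      (∀ k, k + 1 < (cutsH G R x l).length → ¬ Felt (scL ((cutsH G R x l).getD k d0) ((cutsH G R x l).getD (k + 1) d0))
        (dpL ((cutsH G R x l).getD k d0) ((cutsH G R x l).getD (k + 1) d0) η) u) →
      (∀ k, k + 2 < (cutsH G R x l).length →
        ¬ Felt (scN ((cutsH G R x l).getD k d0) ((cutsH G R x l).getD (k + 1) d0) ((cutsH G R x l).getD (k + 2) d0))
          (dpN ((cutsH G R x l).getD k d0) ((cutsH G R x l).getD (k + 1) d0) ((cutsH G R x l).getD (k + 2) d0) η) u) →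
      η ∈ T u (own c u))
    {y : ℝ≥0∞} (hy : y ≤ 1) {r b : ℕ} (hb : (C1 + 2) * nSt R.m R.g R.lam + 9 * r ≤ b) :
    law μ {η | ∃ x ∈ G.W, R.Pot (Rl.dpT T) y x 0 η < y ^ b} ≤
      law μ bad + (nCode C.Nt A G.m R.g : ℝ≥0∞) * (3 * (M ^ (3 * (G.m + R.g) + 1) / z ^ r)) := by
  refine (measure_mono (fun η hη => ?_)).trans ((measure_union_le bad
    {η | ∃ x ∈ G.W, ∃ l, R.IsC x 0 l ∧ 3 * r ≤ SL dpL (cutsH G R x l) η + SN dpN (cutsH G R x l) η}).trans
    (add_le_add le_rfl (chnH40 h C hr mL mN rL rN hz hz' hM momL momN r)))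
  by_cases hbad : η ∈ bad
  · exact Or.inl hbad
  refine Or.inr ?_
  obtain ⟨x, hx, hlt⟩ := hη
  refine ⟨x, hx, ?_⟩
  by_contra hcon
  push Not at hcon
  refine absurd hlt (not_lt.2 (Rl.le_Pot hy fun l hl => ?_))
  have h1 := hcon l hl
  have h2 := count40 (T := T) (η := η) (C1 := C1) (by have := h.g_ge; omega) hl (cutsH G R x l) dpL dpN scL scN
    (hT η hbad x hx l hl)
  have h3 := length_le h hl
  have h4 : (C1 + 2) * l.length ≤ (C1 + 2) * nSt R.m R.g R.lam := Nat.mul_le_mul_left _ h3
  omega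

end Final

end

end Pool.Agent.W_7d29a1_C1.H40
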