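import Pool.Agent.W_7d29a1_C1.ChnW40

/-!
MP_7d29a1_pr, the attractor route: the FAR LAST STEP of a chain (an earlier centre at any distance), and the probability of a small
potential for the full relation. (helper40)
-/

set_option autoImplicit false

namespace Pool.Agent.W_7d29a1_C1.H40

open MeasureTheory ProbabilityTheory Finset
open Pool.Agent.W_7d29a1_F Pool.Agent.W_7d29a1_C1.S71
open scoped ENNReal Classical

noncomputable section

namespace Rl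

variable {σ : Type*}

/-- The relation without the far last steps: moves and visits only at the distance scales `i < m`. -/
def near (R : Rl σ) : Rl σ := { R with Mv := fun i x p => i < R.m ∧ R.Mv i x p }

/-- A chain = a chain without a far last step + at most one far step. -/
theorem nm_near {Ω : Type*} {R : Rl σ} (hg : 1 ≤ R.g) {dep : ℕ → σ → Ω → ℕ} {ω : Ω} {b : ℕ} {x : σ} {τ : ℕ} {l : List (St σ)}
    (hl : R.IsC x τ l) (hx : ∀ ρ ∈ R.W, ∀ l', R.near.IsC ρ 0 l' → nm dep l' ω ≤ b) :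
    ∃ l', R.near.IsC x τ l' ∧ nm dep l ω ≤ nm dep l' ω + 2 * b := by
  induction l generalizing x τ with
  | nil => exact ⟨[], trivial, by omega⟩
  | cons c l ih =>
    obtain ⟨hc, hl'⟩ := hl
    have hc' := hc
    obtain ⟨h1, h2, h3, h4, h5, h6, h7, h8, h9⟩ := hc'
    by_cases hfar : c.k = Kd.stay ∨ c.i < R.m
    · obtain ⟨l', h10, h11⟩ := ih hl'
      refine ⟨c :: l', ⟨⟨h1, h2, h3, h4, h5, h6, h7, h8, fun hk => ⟨⟨?_, (h9 hk).1⟩, (h9 hk).2⟩⟩, h10⟩, ?_⟩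
      · exact hfar.resolve_left hk
      · rw [nm_cons, nm_cons]
        omega
    · push Not at hfar
      have him : c.i = R.m := by omega
      have hnil : l = [] := by
        cases l with
        | nil => rfl
        | cons d l =>
          obtain ⟨⟨g1, g2, g3, g4, g5, -⟩, -⟩ := hl'
          omega
      subst hnil
      refine ⟨[], trivial, ?_⟩
      have hst : ∀ ρ ∈ R.W, ∑ u ∈ Ico c.a c.i, dep u ρ ω ≤ b := by
        intro ρ hρ
        have h10 := hx ρ hρ [⟨Kd.stay, c.a, c.a, c.i, ρ, ρ⟩] ⟨⟨Nat.zero_le _, le_rfl, (show c.a < c.i by omega), h4, h5, hρ, hρ,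
          fun _ => ⟨rfl, rfl⟩, fun h => absurd rfl h⟩, trivial⟩
        have e : nm dep [(⟨Kd.stay, c.a, c.a, c.i, ρ, ρ⟩ : St σ)] ω = ∑ u ∈ Ico c.a c.i, dep u ρ ω := by
          simp [nm, dst]
        rwa [e] at h10
      have e1 : nm dep [c] ω = ∑ u ∈ Ico c.a c.s, dep u c.p ω + ∑ u ∈ Ico c.s c.i, dep u c.q ω := by simp [nm, dst]
      have e2 : nm dep ([] : List (St σ)) ω = 0 := rfl
      have h11 : ∑ u ∈ Ico c.a c.s, dep u c.p ω ≤ ∑ u ∈ Ico c.a c.i, dep u c.p ω :=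
        sum_le_sum_of_subset (Ico_subset_Ico_right h3.le)
      have h12 : ∑ u ∈ Ico c.s c.i, dep u c.q ω ≤ ∑ u ∈ Ico c.a c.i, dep u c.q ω :=
        sum_le_sum_of_subset (Ico_subset_Ico_left h2)
      have h13 := hst c.p h6
      have h14 := hst c.q h7
      rw [e1, e2]
      omega

end Rl

section Final

variable {σ Λ : Type*} [Inhabited Λ] {G : Geo σ Λ} {R : Rl σ}

/-- **THE POTENTIAL OF THE FULL RELATION.** -/
theorem pot40X {μ : Measure ℝ} [IsProbabilityMeasure μ] (h : GR G R.near) {A Nt : ℕ} (t : Tree40 G R.near A Nt)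
    (hr : Geo.LocRow G) {dpL : Cut Λ → Cut Λ → Env → ℕ} {dpN : Cut Λ → Cut Λ → Cut Λ → Env → ℕ}
    (mL : ∀ a b, Measurable (dpL a b)) (mN : ∀ a b c, Measurable (dpN a b c))
    (rL : ∀ a b (η η' : Env), (∀ p ∈ btw a b, η p = η' p) → dpL a b η = dpL a b η')
    (rN : ∀ a b c (η η' : Env), (∀ p ∈ btw a c, η p = η' p) → dpN a b c η = dpN a b c η')
    {z M : ℝ≥0∞} (hz : 1 ≤ z) (hz' : z ≠ ∞) (hM : 1 ≤ M)
    (momL : ∀ x ∈ G.W, ∀ l, R.near.IsC x 0 l → ∀ k, k + 1 < (cutsH G R.near x l).length →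
      ∫⁻ η, z ^ dpL ((cutsH G R.near x l).getD k d0) ((cutsH G R.near x l).getD (k + 1) d0) η ∂(law μ) ≤ M)
    (momN : ∀ x ∈ G.W, ∀ l, R.near.IsC x 0 l → ∀ k, k + 2 < (cutsH G R.near x l).length →
      ∫⁻ η, z ^ dpN ((cutsH G R.near x l).getD k d0) ((cutsH G R.near x l).getD (k + 1) d0)
        ((cutsH G R.near x l).getD (k + 2) d0) η ∂(law μ) ≤ M)
    (scL : Cut Λ → Cut Λ → ℕ) (scN : Cut Λ → Cut Λ → Cut Λ → ℕ) {T : ℕ → σ → Set Env} {C1 : ℕ} {bad : Set Env}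
    (hT : ∀ η ∉ bad, ∀ x ∈ G.W, ∀ l, R.near.IsC x 0 l → ∀ c ∈ l, ∀ u, c.a + 2 ≤ u → u + C1 < c.i →
      (∀ k, k + 1 < (cutsH G R.near x l).length →
        ¬ Felt (scL ((cutsH G R.near x l).getD k d0) ((cutsH G R.near x l).getD (k + 1) d0))
          (dpL ((cutsH G R.near x l).getD k d0) ((cutsH G R.near x l).getD (k + 1) d0) η) u) →
      (∀ k, k + 2 < (cutsH G R.near x l).length →
        ¬ Felt (scN ((cutsH G R.near x l).getD k d0) ((cutsH G R.near x l).getD (k + 1) d0)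
            ((cutsH G R.near x l).getD (k + 2) d0))
          (dpN ((cutsH G R.near x l).getD k d0) ((cutsH G R.near x l).getD (k + 1) d0)
            ((cutsH G R.near x l).getD (k + 2) d0) η) u) →
      η ∈ T u (own c u))
    {y : ℝ≥0∞} (hy : y ≤ 1) {r b : ℕ} (hb : (C1 + 2) * nSt R.m R.g R.lam + 9 * r ≤ b) :
    law μ {η | ∃ x ∈ G.W, R.Pot (Rl.dpT T) y x 0 η < y ^ (3 * b)} ≤
      law μ bad + (nCode Nt A G.m R.g : ℝ≥0∞) * (3 * (M ^ (3 * (G.m + R.g) + 1) / z ^ r)) := by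
  obtain ⟨C, hC⟩ := t.cnt h
  have hg := h.g_ge
  have hmain : law μ {η | ∃ x ∈ G.W, ∃ l, R.near.IsC x 0 l ∧
      3 * r ≤ SL dpL (cutsH G R.near x l) η + SN dpN (cutsH G R.near x l) η} ≤ _ :=
    chnH40 h C hr mL mN rL rN hz hz' hM momL momN r
  rw [hC] at hmain
  refine (measure_mono (fun η hη => ?_)).trans ((measure_union_le bad _).trans (add_le_add le_rfl hmain))
  by_cases hbad : η ∈ bad
  · exact Or.inl hbad
  refine Or.inr ?_
  obtain ⟨x, hx, hlt⟩ := hη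
  by_contra hcon
  have hcon' : ∀ x ∈ G.W, ∀ l, R.near.IsC x 0 l →
      SL dpL (cutsH G R.near x l) η + SN dpN (cutsH G R.near x l) η < 3 * r := by
    intro x hx l hl
    by_contra h1
    exact hcon ⟨x, hx, l, hl, not_lt.1 h1⟩
  have hone : ∀ ρ ∈ R.W, ∀ l, R.near.IsC ρ 0 l → Rl.nm (Rl.dpT T) l η ≤ b := by
    intro ρ hρ l hl
    have hρ' : ρ ∈ G.W := by
      have := h.W_eq
      show ρ ∈ G.W
      rw [← this]
      exact hρ
    have h1 := hcon' ρ hρ' l hl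
    have h2 := count40 (T := T) (η := η) (C1 := C1) (R := R.near) (by omega) hl (cutsH G R.near ρ l) dpL dpN scL scN
      (hT η hbad ρ hρ' l hl)
    have h3 : l.length ≤ nSt R.m R.g R.lam := length_le h hl
    have h4 : (C1 + 2) * l.length ≤ (C1 + 2) * nSt R.m R.g R.lam := Nat.mul_le_mul_left _ h3
    omega
  refine absurd hlt (not_lt.2 (Rl.le_Pot hy fun l hl => ?_))
  obtain ⟨l', h1, h2⟩ := Rl.nm_near (show 1 ≤ R.g from le_trans (by norm_num) hg) hl hone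
  have h3 : x ∈ R.W := by
    have := h.W_eq
    show x ∈ R.near.W
    rw [this]
    exact hx
  have h4 := hone x h3 l' h1
  omega

end Final

/-! ### Numbers -/

/-- The probability in numbers: `z` comes after `A`, then `M` is free below `2`. -/
theorem num40 (A g L : ℕ) (hA : 1 ≤ A) : ∃ z : ℕ, 1 ≤ z ∧ ∀ m r : ℕ, g ≤ m → 1 ≤ m →
    ∀ k : ℕ, m ≤ k * r → ∀ Nt : ℕ, Nt ^ 2 ≤ A ^ m →
      (nCode Nt A m g : ℝ≥0∞) * (3 * ((2 : ℝ≥0∞) ^ (3 * (m + g) + 1) / ((z : ℝ≥0∞) ^ k) ^ r)) ≤ ((L : ℝ≥0∞) + 1)⁻¹ ^ m := by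
  set D : ℕ := A * ((24 * A ^ 2) ^ 2 * (6 * A ^ 2) * A ^ 2) * 3 * 2 ^ 7 * (L + 1) with hD
  refine ⟨D, ?_, fun m r hgm hm k hk Nt hNt => ?_⟩
  · exact Nat.mul_pos (Nat.mul_pos (Nat.mul_pos (Nat.mul_pos hA (by positivity)) (by norm_num)) (by norm_num)) (by omega)
  have hD1 : 1 ≤ D := Nat.mul_pos (Nat.mul_pos (Nat.mul_pos (Nat.mul_pos hA (by positivity)) (by norm_num)) (by norm_num))
    (by omega)
  have h1 : nCode Nt A m g ≤ (A * ((24 * A ^ 2) ^ 2 * (6 * A ^ 2) * A ^ 2)) ^ m := by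
    unfold nCode
    rw [mul_pow A _ m]
    refine Nat.mul_le_mul hNt ?_
    have e3 : ∀ x y z : ℕ, (x * y * z) ^ m = x ^ m * y ^ m * z ^ m := fun x y z => by rw [mul_pow, mul_pow]
    rw [e3]
    refine Nat.mul_le_mul (Nat.mul_le_mul ?_ le_rfl) ?_
    · rw [← pow_mul]
      exact Nat.pow_le_pow_right (by positivity) (by omega)
    · rw [← pow_mul]
      exact Nat.pow_le_pow_right hA (by omega)
  have h2 : (3 : ℕ) ≤ 3 ^ m := by
    calc 3 = 3 ^ 1 := (pow_one 3).symm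
      _ ≤ 3 ^ m := Nat.pow_le_pow_right (by norm_num) hm
  have h3 : (2 : ℕ) ^ (3 * (m + g) + 1) ≤ (2 ^ 7) ^ m := by
    rw [← pow_mul]
    exact Nat.pow_le_pow_right (by norm_num) (by omega)
  have h4 : nCode Nt A m g * (3 * 2 ^ (3 * (m + g) + 1)) * (L + 1) ^ m ≤ D ^ (k * r) := by
    calc nCode Nt A m g * (3 * 2 ^ (3 * (m + g) + 1)) * (L + 1) ^ m
        ≤ (A * ((24 * A ^ 2) ^ 2 * (6 * A ^ 2) * A ^ 2)) ^ m * (3 ^ m * (2 ^ 7) ^ m) * (L + 1) ^ m :=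
          Nat.mul_le_mul_right _ (Nat.mul_le_mul h1 (Nat.mul_le_mul h2 h3))
      _ = D ^ m := by rw [hD]; simp only [mul_pow]; ring
      _ ≤ D ^ (k * r) := Nat.pow_le_pow_right hD1 hk
  have hDz : ((D : ℝ≥0∞) ^ (k * r)) ≠ 0 := pow_ne_zero _ (by exact_mod_cast (show D ≠ 0 by omega))
  have hDt : ((D : ℝ≥0∞) ^ (k * r)) ≠ ∞ := ENNReal.pow_ne_top (ENNReal.natCast_ne_top D)
  have hLz : ((L : ℝ≥0∞) + 1) ^ m ≠ 0 := pow_ne_zero _ (by positivity)
  have hLt : ((L : ℝ≥0∞) + 1) ^ m ≠ ∞ := ENNReal.pow_ne_top (by finiteness)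
  rw [← pow_mul, ← ENNReal.inv_pow, ← mul_div_assoc, ← mul_div_assoc, ENNReal.div_le_iff hDz hDt]
  rw [← ENNReal.div_eq_inv_mul, ENNReal.le_div_iff_mul_le (Or.inl hLz) (Or.inl hLt)]
  exact_mod_cast h4

end

end Pool.Agent.W_7d29a1_C1.H40
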