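import Pool.Agent.W_7d29a1_C1.StR37

/-!
MP_7d29a1_pr, [C1] attractor route, SEP: THE UPPER KERNELS READ THE ROWS `ra ≤ k ≤ re` ONLY. (helper2)

`kiR_congr` : `KiS` of RatG22. The own weight of a site of the rim (row `ra - 1`) cancels against the gauge `gg = wt * γ`. So `KiS` is an event of
the node `(ct (u - 1) ρ, ct u ρ, ct (u + 1) ρ)`. `offS` : the sites off the rows `[ra, re]`; `Stb.rowsS`.
-/

set_option autoImplicit false

namespace Pool.Agent.W_7d29a1_C1.P25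

open Finset MeasureTheory
open Pool.Agent.W_7d29a1_F
open Pool.Agent.W_7d29a1_C1.K91 (wt wt_pos)
open Pool.Agent.W_7d29a1_C1.S71 (Off)
open Pool.Agent.W_7d29a1_C1.H60
open Pool.Agent.W_7d29a1_C1.G37 (Gm)
open Pool.Agent.W_7d29a1_C1.SF98
open Pool.Agent.W_7d29a1_C1.Sy78 (sp)
open Pool.Agent.W_7d29a1_C1.U16 (ker ker_zero ker_congr)
open Pool.Agent.W_7d29a1_C1.Sp22 (kw bf bf_succ bf_congr ker_back)
open Pool.Agent.W_7d29a1_C1.Rt22

noncomputable section

/-! ### The weight of the start -/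

section Start

variable {ω ω' : Env} {p : ℕ → ℝ} {γ : ℕ → ℤ → ℝ} {D : Set (ℕ × ℤ)} {k : ℕ} {x : ℤ} {e : ℕ}

theorem kw_cross (hk : ∀ j, k < j → j ≤ e → ∀ y, wt ω j y = wt ω' j y) {j : ℕ} (h1 : k < j) (h2 : j ≤ e) :
    kw D (wt ω) j = kw D (wt ω') j := by
  funext y
  unfold kw
  rw [hk j h1 h2 y]

/-- One kernel: the weight of the start comes out. -/
theorem ker_cross (hk : ∀ j, k < j → j ≤ e → ∀ y, wt ω j y = wt ω' j y) :
    ∀ (i : ℕ) (y : ℤ), k + i ≤ e →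
      wt ω' k x * (ker (kw D (wt ω)) p k i x y * gg γ ω (k + i) y) = wt ω k x * (ker (kw D (wt ω')) p k i x y * gg γ ω' (k + i) y)
  | 0, y, _ => by
    rw [ker_zero, ker_zero]
    by_cases hy : y = x
    · subst hy
      rw [if_pos rfl]
      unfold gg
      rw [Nat.add_zero]
      ring
    · rw [if_neg hy, zero_mul, zero_mul, mul_zero, mul_zero]
  | i + 1, y, h => by
    have eg : gg γ ω (k + (i + 1)) y = gg γ ω' (k + (i + 1)) y := by
      unfold gg
      rw [hk (k + (i + 1)) (by omega) h y]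
    have ec : ∀ x', ker (kw D (wt ω)) p (k + 1) i x' y = ker (kw D (wt ω')) p (k + 1) i x' y := fun x' =>
      ker_congr _ _ _ _ fun j h4 h5 => ⟨kw_cross hk (by omega) (by omega), rfl⟩
    have ek : wt ω' k x * kw D (wt ω) k x = wt ω k x * kw D (wt ω') k x := by
      unfold kw
      split_ifs
      · simp
      · ring
    rw [ker_back, ker_back, eg, ec x, ec (x + 1)]
    calc wt ω' k x * (kw D (wt ω) k x * (ker (kw D (wt ω')) p (k + 1) i x y + p k * ker (kw D (wt ω')) p (k + 1) i (x + 1) y) *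
          gg γ ω' (k + (i + 1)) y)
        = (wt ω' k x * kw D (wt ω) k x) * ((ker (kw D (wt ω')) p (k + 1) i x y + p k * ker (kw D (wt ω')) p (k + 1) i (x + 1) y) *
          gg γ ω' (k + (i + 1)) y) := by ring
      _ = _ := by rw [ek]; ring

/-- The mass at the row `e`. -/
theorem krm_cross (hk : ∀ j, k < j → j ≤ e → ∀ y, wt ω j y = wt ω' j y) (he : k < e) :
    wt ω' k x * krm (wt ω) p (gg γ ω) D e (k, x) = wt ω k x * krm (wt ω') p (gg γ ω') D e (k, x) := by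
  obtain ⟨n, rfl⟩ : ∃ n, e = k + (n + 1) := ⟨e - k - 1, by omega⟩
  have eg : gg γ ω (k + (n + 1)) = gg γ ω' (k + (n + 1)) := by
    funext y
    unfold gg
    rw [hk (k + (n + 1)) (by omega) le_rfl y]
  have ec : ∀ x', bf (kw Dᶜ (wt ω)) p (gg γ ω' (k + (n + 1))) (k + 1) n x' = bf (kw Dᶜ (wt ω')) p (gg γ ω' (k + (n + 1))) (k + 1) n x' :=
    fun x' => bf_congr _ _ _ _ fun j h4 h5 => kw_cross hk (by omega) (by omega)
  have ek : wt ω' k x * kw Dᶜ (wt ω) k x = wt ω k x * kw Dᶜ (wt ω') k x := by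
    unfold kw
    split_ifs
    · simp
    · ring
  unfold krm
  simp only [Nat.add_sub_cancel_left]
  rw [eg, bf_succ, bf_succ, ec x, ec (x + 1), ← mul_assoc, ek, mul_assoc]

/-- The exits. -/
theorem exm_cross (hk : ∀ j, k < j → j ≤ e → ∀ y, wt ω j y = wt ω' j y) :
    wt ω' k x * exm (wt ω) p (gg γ ω) D e (k, x) = wt ω k x * exm (wt ω') p (gg γ ω') D e (k, x) := by
  unfold exm
  rw [mul_sum, mul_sum]
  refine sum_congr rfl fun i hi => ?_
  rw [mul_sum, mul_sum]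
  refine sum_congr rfl fun y _ => ?_
  have hi' := mem_range.1 hi
  simp only at hi' ⊢
  split_ifs
  · exact ker_cross hk i y (by omega)
  · rw [mul_zero, mul_zero]

theorem gg_cross (k : ℕ) (x : ℤ) : wt ω' k x * gg γ ω k x = wt ω k x * gg γ ω' k x := by
  unfold gg
  ring

theorem le_cross {a a' s s' g g' : ℝ} {A : ℝ} (h1 : 0 < a) (h1' : 0 < a') (hs : a' * s = a * s') (hg : a' * g = a * g') (h : s ≤ A * g) :
    s' ≤ A * g' := by
  have h2 : a * s' ≤ a * (A * g') := by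
    calc a * s' = a' * s := hs.symm
      _ ≤ a' * (A * g) := mul_le_mul_of_nonneg_left h h1'.le
      _ = A * (a' * g) := by ring
      _ = a * (A * g') := by rw [hg]; ring
  exact le_of_mul_le_mul_left h2 h1

end Start

/-! ### The upper kernels -/

variable {Γ : Cx} {G : Gm} {mt q τ0 : ℕ} {dR d smax : ℕ → ℝ} {u : ℕ} {κ : ℤ × ℤ}

/-- A site of the rim: the next row is a row of the window. -/
theorem rim_rows {c : ℕ × ℤ} (hc : c ∈ Rim (O22.Bw G u κ) (G.ra u κ - 1)) : G.ra u κ ≤ c.1 + 1 ∧ c.1 + 2 ≤ G.re u κ := by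
  have h0 := hc.1
  have h5 : ((c.1 + 1 : ℕ) : ℤ) ≤ G.rcc u κ + G.T u := by
    rcases hc.2.2 with h3 | h3
    · exact h3.2.1
    · exact h3.2.1
  have h4 := Int.self_le_toNat (G.rcc u κ)
  constructor
  · omega
  · unfold Gm.re
    omega

/-- **THE UPPER KERNELS READ THE ROWS `ra ≤ k ≤ re` ONLY.** -/
theorem kiR_congr {γ : ℕ → ℤ → ℝ} {b A X : ℝ} {ω ω' : Env} (h : ∀ k y, G.ra u κ ≤ k → k ≤ G.re u κ → wt ω k y = wt ω' k y)
    (hK : ω ∈ KiS Γ G γ b A X u κ) : ω' ∈ KiS Γ G γ b A X u κ := by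
  have key : ∀ c ∈ Rim (O22.Bw G u κ) (G.ra u κ - 1), (∀ j, c.1 < j → j ≤ G.re u κ → ∀ y, wt ω j y = wt ω' j y) ∧ c.1 < G.re u κ :=
    fun c hc => by
      obtain ⟨h1, h2⟩ := rim_rows hc
      exact ⟨fun j h3 h4 y => h j y (by omega) h4, by omega⟩
  refine ⟨fun c hc => ?_, fun c hc => ?_⟩
  · obtain ⟨h1, h2⟩ := key c hc
    exact le_cross (wt_pos ω c.1 c.2) (wt_pos ω' c.1 c.2) (krm_cross h1 h2) (gg_cross c.1 c.2) (hK.mass c hc)
  · obtain ⟨h1, h2⟩ := key c hc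
    exact le_cross (wt_pos ω c.1 c.2) (wt_pos ω' c.1 c.2) (exm_cross h1) (gg_cross c.1 c.2) (hK.exit c hc)

/-! ### Events of the rows `[ra, re]` -/

/-- The sites of the rows `[ra, re]`. -/
def rws (G : Gm) (v : ℕ) (κ : ℤ × ℤ) : Set Pt := {p : Pt | (G.ra v κ : ℤ) ≤ p.1 ∧ p.1 ≤ G.re v κ}

/-- The sites off the rows `[ra, re]`. -/
def offS (G : Gm) (v : ℕ) (κ : ℤ × ℤ) : Set Pt := (rws G v κ)ᶜ

theorem offR_offS (G : Gm) (v : ℕ) (κ : ℤ × ℤ) : offR G v κ ⊆ offS G v κ := by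
  intro p hp hw
  exact hp ⟨by linarith [hw.1], hw.2⟩

/-- An event of the rows `[ra, re]` is an event of the rows `[ra - 1, re]`. -/
theorem offR_of_offS {v : ℕ} {κ : ℤ × ℤ} {S : Set Env} (h : Off (offS G v κ) S) : Off (offR G v κ) S := h.mono (offR_offS G v κ)

/-- **`Stb` of an event of the rows `[ra, re]`.** -/
theorem Stb.rowsS {Lv : ℕ → ℤ × ℤ → Set Env} (hm : ∀ u κ, MeasurableSet (Lv u κ))
    (ho : ∀ v κ, 0 ≤ G.rcc v κ → Off (offS G v κ) (Lv v κ)) : Stb Γ G mt q τ0 dR d smax fun _ => Lv :=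
  Stb.rows hm fun v κ h => offR_of_offS (ho v κ h)

/-- From a congruence in the weights of the rows `[ra, re]`. -/
theorem offS_of_wt {v : ℕ} {κ : ℤ × ℤ} {S : Set Env}
    (h : ∀ ω ω' : Env, (∀ k y, G.ra v κ ≤ k → k ≤ G.re v κ → wt ω k y = wt ω' k y) → ω ∈ S → ω' ∈ S) : Off (offS G v κ) S := by
  have key : ∀ ω ω' : Env, (∀ p, p ∉ offS G v κ → ω p = ω' p) → ω ∈ S → ω' ∈ S := fun ω ω' he => h ω ω' fun k y h1 h2 => by
    refine wt_eq (he _ ?_)
    intro h3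
    refine h3 ⟨?_, ?_⟩
    · show (G.ra v κ : ℤ) ≤ (k : ℤ)
      omega
    · show (k : ℤ) ≤ G.re v κ
      omega
  exact fun ω ω' he => ⟨key ω ω' he, key ω' ω fun p hp => (he p hp).symm⟩

/-- **The upper kernels are an event of the rows `[ra, re]`.** -/
theorem offS_KiS {γ : ℕ → ℤ → ℝ} {b A X : ℝ} (v : ℕ) (κ : ℤ × ℤ) : Off (offS G v κ) (KiS Γ G γ b A X v κ) :=
  offS_of_wt fun _ _ h => kiR_congr h

/-- An event of the content of the window. -/
theorem offS_win {v : ℕ} {κ : ℤ × ℤ} (h0 : 0 ≤ G.rcc v κ) {S : Set Env} (h : Off (G.win v κ)ᶜ S) : Off (offS G v κ) S := by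
  refine h.mono fun p hp hw => hp ?_
  have h3 := G.win_rows hw
  have e1 := G.re_cast h0
  have e2 := G.ra_cast h0
  constructor
  · linarith [h3.1]
  · linarith [h3.2]

theorem offS_inter {v : ℕ} {κ : ℤ × ℤ} {S S' : Set Env} (h : Off (offS G v κ) S) (h' : Off (offS G v κ) S') : Off (offS G v κ) (S ∩ S') :=
  h.inter h'

theorem offS_compl {v : ℕ} {κ : ℤ × ℤ} {S : Set Env} (h : Off (offS G v κ) S) : Off (offS G v κ) Sᶜ :=
  fun ω ω' he => not_congr (h ω ω' he)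

end

end Pool.Agent.W_7d29a1_C1.P25
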