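import Pool.Agent.W_7d29a1_C1.ChnO40

/-!
MP_7d29a1_pr, the attractor route: TWO INDEX CHAINS: own data with the exact cuts next to an own slab (`ODx`): for `v0 ≤ v ≤ u + C2` the cut of the
scale `v` is `G.ct v ρ` itself, so the window `(u, ρ)` lies inside ONE layer; `potX` = `potJ40` with `ODx` and a premise on the list. (helper2)
-/

set_option autoImplicit false

namespace Pool.Agent.W_7d29a1_C1.H40

open MeasureTheory ProbabilityTheory Finset
open Pool.Agent.W_7d29a1_F Pool.Agent.W_7d29a1_C1.S71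
open scoped ENNReal Classical

noncomputable section

variable {σ Λ : Type*} {G : Geo σ Λ} {R : RJ σ} {lat : σ → ℝ} {latC : Cut Λ → ℝ} {w : ℕ → ℝ}

/-- **OWN DATA WITH THE EXACT NEAR CUTS**: what the list of the cuts is around an own slab `(ρ, u)`; the cuts of the scales `v0 ≤ v ≤ u + C2`
are those of `ρ`. -/
def ODx (G : Geo σ Λ) (lat : σ → ℝ) (latC : Cut Λ → ℝ) (w : ℕ → ℝ) (C0 : ℝ) (C2 D : ℕ) (Z : List (Cut Λ)) (ρ : σ) (u : ℕ) : Prop :=
  ∃ (v0 v1 : ℕ) (P : List (Cut Λ)) (e0 : Cut Λ) (Bo Cl Bl Tw : List (Cut Λ)),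
    Z = P ++ (e0 :: Bo ++ (Cl ++ (Bl ++ Tw))) ∧ v0 + C2 ≤ u ∧ u + C2 ≤ v1 ∧ e0.row ≤ G.row ρ ∧
    (∀ d ∈ e0 :: Bo, d.sc ≤ v0 ∧ |latC d - lat ρ| ≤ C0 * w (v0 + D * (u - v0))) ∧
    TB G lat latC ρ (fun v => if v ≤ u + C2 then w v else C0 * w v) v0 Cl ∧ Cl.length = v1 + 1 - v0 ∧
    (∀ d ∈ Bl, d.sc ≤ v1 + 2 ∧ |latC d - lat ρ| ≤ C0 * w (v1 + D * (v1 - u))) ∧
    TB G lat latC ρ (BT w C0 D u) (v1 + 3) Tw ∧ v1 + 3 + Tw.length = G.m + 1 ∧ Tw ≠ [] ∧
    ∃ (n : ℕ) (Cl' : List (Cut Λ)), Cl = G.up ρ v0 n ++ Cl' ∧ u + C2 < v0 + n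

/-- The old form. -/
theorem ODx.od {C0 : ℝ} {C2 D : ℕ} {Z : List (Cut Λ)} {ρ : σ} {u : ℕ} (h : ODx G lat latC w C0 C2 D Z ρ u) :
    OD G lat latC w C0 C2 D Z ρ u := by
  obtain ⟨v0, v1, P, e0, Bo, Cl, Bl, Tw, h1, h2, h3, h4, h5, h6, h7, h8, h9, h10, h11, -⟩ := h
  exact ⟨v0, v1, P, e0, Bo, Cl, Bl, Tw, h1, h2, h3, h4, h5, h6, h7, h8, h9, h10, h11⟩

/-- The cuts of the scales `v, .., v + k - 1` next to `u` are successive cuts of the list. -/
theorem ODx.split {C0 : ℝ} {C2 D : ℕ} {Z : List (Cut Λ)} {ρ : σ} {u : ℕ} (h : ODx G lat latC w C0 C2 D Z ρ u) {v k : ℕ}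
    (h1 : u ≤ v + C2) (h2 : v + k ≤ u + C2 + 1) : ∃ P Q, Z = P ++ (G.up ρ v k ++ Q) := by
  obtain ⟨v0, v1, P, e0, Bo, Cl, Bl, Tw, e, g1, g2, -, -, -, -, -, -, -, -, n, Cl', e2, g3⟩ := h
  obtain ⟨a, rfl⟩ : ∃ a, v = v0 + a := ⟨v - v0, by omega⟩
  obtain ⟨b, rfl⟩ : ∃ b, n = a + (k + b) := ⟨n - a - k, by omega⟩
  refine ⟨P ++ (e0 :: Bo ++ G.up ρ v0 a), G.up ρ (v0 + a + k) b ++ (Cl' ++ (Bl ++ Tw)), ?_⟩
  rw [e, e2, Geo.up_add, Geo.up_add]
  simp only [List.append_assoc, List.cons_append]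

/-- Two successive cuts. -/
theorem ODx.pair {C0 : ℝ} {C2 D : ℕ} {Z : List (Cut Λ)} {ρ : σ} {u : ℕ} (h : ODx G lat latC w C0 C2 D Z ρ u) {v : ℕ}
    (h1 : u ≤ v + C2) (h2 : v + 1 ≤ u + C2) : ∃ P Q, Z = P ++ G.ct v ρ :: G.ct (v + 1) ρ :: Q := by
  obtain ⟨P, Q, e⟩ := h.split (v := v) (k := 2) h1 (by omega)
  rw [show (2 : ℕ) = 0 + 1 + 1 by norm_num, Geo.up_succ, Geo.up_succ, Geo.up_zero] at e
  exact ⟨P, Q, e⟩

/-- Three successive cuts. -/
theorem ODx.triple {C0 : ℝ} {C2 D : ℕ} {Z : List (Cut Λ)} {ρ : σ} {u : ℕ} (h : ODx G lat latC w C0 C2 D Z ρ u) {v : ℕ}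
    (h1 : u ≤ v + C2) (h2 : v + 2 ≤ u + C2) : ∃ P Q, Z = P ++ G.ct v ρ :: G.ct (v + 1) ρ :: G.ct (v + 1 + 1) ρ :: Q := by
  obtain ⟨P, Q, e⟩ := h.split (v := v) (k := 3) h1 (by omega)
  rw [show (3 : ℕ) = 0 + 1 + 1 + 1 by norm_num, Geo.up_succ, Geo.up_succ, Geo.up_succ, Geo.up_zero] at e
  exact ⟨P, Q, e⟩

/-- Not felt: the depth is at most the distance of the scales. -/
theorem le_of_not_felt {sc d u l : ℕ} (h : ¬ Felt sc d u) (h1 : u ≤ sc + l) (h2 : sc ≤ u + l) : d ≤ l := by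
  unfold Felt at h
  by_contra hcon
  exact h ⟨by omega, by omega, by omega⟩

/-- The layer next to an own slab is not felt. -/
theorem ODx.nfl {C0 : ℝ} {C2 D : ℕ} {Z : List (Cut Λ)} {ρ : σ} {u : ℕ} (h : ODx G lat latC w C0 C2 D Z ρ u)
    {dpL : Cut Λ → Cut Λ → Env → ℕ} {scL : Cut Λ → Cut Λ → ℕ} {η : Env} (hN : NFL dpL scL Z u η) {v : ℕ} (h1 : u ≤ v + C2)
    (h2 : v + 1 ≤ u + C2) {l : ℕ} (h3 : u ≤ scL (G.ct v ρ) (G.ct (v + 1) ρ) + l) (h4 : scL (G.ct v ρ) (G.ct (v + 1) ρ) ≤ u + l) :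
    dpL (G.ct v ρ) (G.ct (v + 1) ρ) η ≤ l := by
  obtain ⟨P, Q, e⟩ := h.pair h1 h2
  exact le_of_not_felt (hN P _ _ Q e) h3 h4

/-- The node next to an own slab is not felt. -/
theorem ODx.nfn {C0 : ℝ} {C2 D : ℕ} {Z : List (Cut Λ)} {ρ : σ} {u : ℕ} (h : ODx G lat latC w C0 C2 D Z ρ u)
    {dpN : Cut Λ → Cut Λ → Cut Λ → Env → ℕ} {scN : Cut Λ → Cut Λ → Cut Λ → ℕ} {η : Env} (hN : NFN dpN scN Z u η) {v : ℕ}
    (h1 : u ≤ v + C2) (h2 : v + 2 ≤ u + C2) {l : ℕ} (h3 : u ≤ scN (G.ct v ρ) (G.ct (v + 1) ρ) (G.ct (v + 1 + 1) ρ) + l)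
    (h4 : scN (G.ct v ρ) (G.ct (v + 1) ρ) (G.ct (v + 1 + 1) ρ) ≤ u + l) :
    dpN (G.ct v ρ) (G.ct (v + 1) ρ) (G.ct (v + 1 + 1) ρ) η ≤ l := by
  obtain ⟨P, Q, e⟩ := h.triple h1 h2
  exact le_of_not_felt (hN P _ _ _ Q e) h3 h4

/-- **THE OWN LAYER**: an event of the layer of the window which is part of the depth of the layers holds. -/
theorem ODx.own {C0 : ℝ} {C2 D : ℕ} {Z : List (Cut Λ)} {ρ : σ} {u : ℕ} (h : ODx G lat latC w C0 C2 D Z ρ u)
    {dpL : Cut Λ → Cut Λ → Env → ℕ} {scL : Cut Λ → Cut Λ → ℕ} {η : Env} (hN : NFL dpL scL Z u η) (hC : 1 ≤ C2) (hu : 1 ≤ u)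
    (hsc : scL (G.ct (u - 1) ρ) (G.ct u ρ) = u) {E : Cut Λ → Cut Λ → Set Env}
    (hE : ∀ a b, dpL a b η = 0 → η ∈ E a b) : η ∈ E (G.ct (u - 1) ρ) (G.ct u ρ) := by
  obtain ⟨v, rfl⟩ : ∃ v, u = v + 1 := ⟨u - 1, by omega⟩
  rw [Nat.add_sub_cancel] at hsc ⊢
  refine hE _ _ (Nat.le_zero.1 (h.nfl hN (by omega) (by omega) ?_ ?_))
  · rw [hsc]
  · rw [hsc]

theorem ct_row (v : ℕ) (y : σ) : (G.ct v y).row = G.rc v (G.row y) + G.T v := rfl

theorem ct_sc (v : ℕ) (y : σ) : (G.ct v y).sc = v := rfl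

theorem ct_cd (v : ℕ) (y : σ) : (G.ct v y).cd = G.loc v y := rfl

/-- **THE WINDOW OF AN OWN SLAB LIES IN ONE LAYER.** -/
theorem sr_ct {u : ℕ} (hu : 1 ≤ u) (ρ : σ) : G.sr u (G.row ρ) ⊆ Set.Ioc (G.ct (u - 1) ρ).row (G.ct u ρ).row := by
  intro t ht
  have h1 : G.rc u (G.row ρ) + G.T (u - 1) < t := ht.1
  have h2 : t ≤ G.rc u (G.row ρ) + G.T u := ht.2
  refine ⟨?_, h2⟩
  rw [ct_row]
  have h3 : G.rc (u - 1) (G.row ρ) ≤ G.rc u (G.row ρ) := nxt_mono (G.T_pos _) (G.T_pos _) (Tk_dvd (by omega)) _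
  linarith

/-- Own data of a step, the rest of the list being a tower. -/
theorem own_headX {kn kb C0 : ℝ} {C2 D : ℕ} (h : GRJ G R) (hl : LatJ G R lat latC w kn kb) (hC0 : 4 * (kn + kb + 1) ≤ C0)
    (hD : 1 ≤ D) {x : σ} {τ : ℕ} {L : List (Cut Λ)} {c : SJ σ} {l : List (SJ σ)} (hc : R.Ok x τ c)
    (hcl : R.IsC (RJ.nxc x c) (c.j + R.g) l) (hL : InvL G lat latC w (kn + kb + 1) x τ L) {u : ℕ} {ρ : σ}
    (ho : RJ.Own R.m3 c u ρ) (hex : ∀ d ∈ c :: l, u ∉ Ex (C2 + 3) D d) :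
    ODx G lat latC w C0 C2 D (cutJ G R (RJ.nxc x c) (c.j + R.g) (stepJ G R x τ L c) l) ρ u := by
  have hg := h.g_ge
  have hml := h.m_le
  have hkn := hl.kn_nonneg
  have hkb := hl.kb_nonneg
  have hmono := hl.mono
  have hc' := hc
  obtain ⟨h1, h2, h3, h3', h4, h5, h6, h7, h8, h9⟩ := hc'
  obtain ⟨hL1, L1, e0, L2, eL, he0⟩ := hL
  have hexc : u ∉ Ex (C2 + 3) D c := hex c (List.mem_cons_self ..)
  have hexl : ∀ d ∈ l, u ∉ Ex (C2 + 3) D d := fun d hd => hex d (List.mem_cons_of_mem _ hd)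
  have w0 := hl.w_nonneg (c.j + 1)
  have q0 := Nat.zero_le ((c.j - c.i) / D)
  have hB : ∀ v v' : ℕ, v' ≤ v + D * (v - u) → 4 * (kn + kb + 1) * w v' ≤ BT w C0 D u v := by
    intro v v' hv
    exact mul_le_mul hC0 (hmono hv) (hl.w_nonneg _) (by linarith)
  have hcoef : ∀ v' v : ℕ, v' ≤ v → 4 * (kn + kb + 1) * w v' ≤ C0 * w v := by
    intro v' v hv
    exact mul_le_mul hC0 (hmono hv) (hl.w_nonneg _) (by linarith)
  have hself : ∀ (y : σ) (v : ℕ), RB G y v (G.ct v y) := fun y v => by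
    have : (0 : ℤ) ≤ G.T v := by positivity
    exact ct_RB (by linarith) (by linarith)
  have hselfl : ∀ (y : σ) (v : ℕ), |latC (G.ct v y) - lat y| ≤ BT w C0 D u v := fun y v => by
    have a1 := hl.ctl v y
    have a2 := hB v v (Nat.le_add_right _ _)
    have a3 := hl.w_nonneg v
    have a4 := mul_nonneg hkn a3
    have a5 := mul_nonneg hkb a3
    linarith
  have hselfc : ∀ (y : σ) (v : ℕ), |latC (G.ct v y) - lat y| ≤ C0 * w v := fun y v => by
    have a1 := hl.ctl v y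
    have a2 := hcoef v v le_rfl
    have a3 := hl.w_nonneg v
    have a4 := mul_nonneg hkn a3
    have a5 := mul_nonneg hkb a3
    linarith
  have hselfi : ∀ (y : σ) (v : ℕ), |latC (G.ct v y) - lat y| ≤ if v ≤ u + C2 then w v else C0 * w v := fun y v => by
    split_ifs
    · exact hl.ctl v y
    · exact hselfc y v
  by_cases hk : c.k = Kd.stay
  · -- stay
    have e2 : RJ.nxc x c = x := if_neg (by rw [hk]; decide)
    obtain ⟨hp, hq, hji⟩ := h8 hk
    have hρ : ρ = x ∧ c.a ≤ u ∧ u < c.i := by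
      rcases ho with ⟨rfl, a1, a2⟩ | ⟨rfl, a1, a2⟩ | ⟨rfl, a1, a2⟩
      · exact ⟨hp, a1, by omega⟩
      · exact ⟨hq, by omega, a2⟩
      · exfalso; omega
    obtain ⟨rfl, hau, hui⟩ := hρ
    have hue := not_Ex hexc hui
    have hua : c.a + (C2 + 3) ≤ u := by
      unfold Ex at hexc
      simp only [mem_union, mem_Ico, not_or] at hexc
      omega
    rw [e2] at hcl ⊢
    obtain ⟨P, Tw, e, h11, h12⟩ := tower (lat := lat) (latC := latC) (C1 := C2 + 3) (L := stepJ G R ρ τ L c) h hl hC0 hD (by omega)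
      (ρ := ρ) (u := u) (y := ρ) (τ := c.j + R.g) (by omega) (by omega)
      (by rw [sub_self, abs_zero]; exact mul_nonneg (by linarith) (hl.w_nonneg _))
      (by have : (0 : ℤ) ≤ G.T (c.j + R.g - 1) := by positivity
          linarith) (by rw [sub_self, mul_zero]; positivity) hcl hexl
    rw [e, stepJ_stay hk]
    have e3 : c.j + R.g - τ = (c.a - τ) + ((c.i - c.a) + (2 + (R.g - 2))) := by omega
    refine ⟨c.a, c.i - 1, P ++ L1, e0, L2 ++ G.up ρ τ (c.a - τ), G.up ρ c.a (c.i - c.a), G.up ρ c.i 2,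
      G.up ρ (c.i + 2) (R.g - 2) ++ Tw, ?_, by omega, by omega, he0, ?_, ?_, ?_, ?_, ?_, ?_, ?_, c.i - c.a, [],
      by rw [List.append_nil], by omega⟩
    · rw [e3, Geo.up_add, Geo.up_add, Geo.up_add, show τ + (c.a - τ) = c.a by omega, show c.a + (c.i - c.a) = c.i by omega, eL]
      simp only [List.append_assoc, List.cons_append]
    · intro d hd
      have hd' : d ∈ L ∨ d ∈ G.up ρ τ (c.a - τ) := by
        rw [eL]
        simp only [List.mem_cons, List.mem_append] at hd ⊢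
        tauto
      have hcc := hcoef τ (c.a + D * (u - c.a)) (by omega)
      rcases hd' with hd' | hd'
      · obtain ⟨a1, a2⟩ := hL1 d hd'
        have a3 := hl.w_nonneg τ
        have a4 := mul_nonneg hkn a3
        have a5 := mul_nonneg hkb a3
        exact ⟨by omega, by linarith⟩
      · obtain ⟨v, v1, v2, rfl⟩ := mem_up hd'
        refine ⟨(show v ≤ c.a by omega), ?_⟩
        have a1 := hselfc ρ v
        have a2 : w v ≤ w (c.a + D * (u - c.a)) := hmono (by omega)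
        have a3 : 0 ≤ C0 := by linarith
        exact a1.trans (mul_le_mul_of_nonneg_left a2 a3)
    · exact TB.up fun v _ _ => ⟨hself ρ v, hselfi ρ v⟩
    · rw [Geo.up_length]
      omega
    · intro d hd
      obtain ⟨v, v1, v2, rfl⟩ := mem_up hd
      refine ⟨(show v ≤ c.i - 1 + 2 by omega), ?_⟩
      have a1 := hl.ctl v ρ
      have hue' : c.j + 1 ≤ (c.i - 1) + D * ((c.i - 1) - u) := exp_arith hD hue (by omega) h3' (by omega)
      have a2 := hcoef v ((c.i - 1) + D * ((c.i - 1) - u)) (by omega)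
      have a3 := hl.w_nonneg v
      have a4 := mul_nonneg hkn a3
      have a5 := mul_nonneg hkb a3
      linarith
    · rw [show c.i - 1 + 3 = c.i + 2 by omega]
      refine (TB.up fun v _ _ => ⟨hself ρ v, hselfl ρ v⟩).append ?_
      rw [Geo.up_length]
      rwa [show c.i + 2 + (R.g - 2) = c.j + R.g by omega]
    · rw [List.length_append, Geo.up_length]
      omega
    · rw [show R.g - 2 = (R.g - 3) + 1 by omega, Geo.up_succ]
      exact List.cons_ne_nil _ _
  · -- a far step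
    obtain ⟨l1, l2, l3, l4, l5, l6⟩ := nxc_lat hl hc hk
    obtain ⟨⟨r1, r2⟩, ⟨r3, r4, r5⟩, ⟨r6, r7⟩, r8, r9⟩ := nxc_row h hc hk
    obtain ⟨hm, hd⟩ := h9 hk
    obtain ⟨m1, m2⟩ := h.mv _ _ _ _ hm
    have s1 : (8 * G.T (c.i + 1) : ℤ) ≤ G.T (c.i + 2) := by exact_mod_cast G.T_succ (c.i + 1)
    have s2 : (G.T (c.i + 2) : ℤ) ≤ G.T (c.j + 2) := by exact_mod_cast G.T_mono (by omega)
    have s3 : (G.T (c.j + 2) : ℤ) ≤ G.T (c.j + R.g - 1) := by exact_mod_cast G.T_mono (by omega)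
    have s4 : (G.T (c.s - 2) : ℤ) ≤ G.T c.s := by exact_mod_cast G.T_mono (by omega)
    have s5 : (8 * G.T c.i : ℤ) ≤ G.T (c.i + 1) := by exact_mod_cast G.T_succ c.i
    have s6a : (8 * G.T c.s : ℤ) ≤ G.T (c.s + 1) := by exact_mod_cast G.T_succ c.s
    have s6b : (G.T (c.s + 1) : ℤ) ≤ G.T c.i := by exact_mod_cast G.T_mono (show c.s + 1 ≤ c.i by omega)
    have s7 : (0 : ℤ) ≤ G.T c.s := by positivity
    have s8 : (0 : ℤ) ≤ G.T (c.s - 2) := by positivity
    -- distances of the next centre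
    have dp1 : -(2 * G.T c.s : ℤ) ≤ G.row (RJ.nxc x c) - G.row c.p ∧ G.row (RJ.nxc x c) - G.row c.p ≤ 2 * G.T (c.i + 1) :=
      ⟨by linarith, by linarith⟩
    have dq1 : 0 ≤ G.row (RJ.nxc x c) - G.row c.q ∧ G.row (RJ.nxc x c) - G.row c.q ≤ 2 * G.T (c.i + 1) + G.T (c.s - 2) :=
      ⟨by linarith, by linarith⟩
    have wsj : w c.s ≤ w (c.j + 1) := hmono (by omega)
    have wτj : w τ ≤ w (c.j + 1) := hmono (by omega)
    have wtj : 2 * w (c.j + 1) ≤ w (c.j + R.g - 1) := hl.two (by omega)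
    have kws := mul_le_mul_of_nonneg_left wsj hkb
    have kwt := mul_le_mul_of_nonneg_left wτj (show 0 ≤ kn + kb + 1 by linarith)
    have kwj := mul_le_mul_of_nonneg_left wtj (show 0 ≤ kn + kb + 1 by linarith)
    have kn0 := mul_nonneg hkn w0
    have kb0 := mul_nonneg hkb w0
    -- the rest
    have hrest : ∀ (y : σ), |lat (RJ.nxc x c) - lat y| ≤ (kn + kb) * w (c.j + 1) →
        -(2 * G.T c.s : ℤ) ≤ G.row (RJ.nxc x c) - G.row y → G.row (RJ.nxc x c) - G.row y ≤ 2 * G.T (c.i + 1) + G.T (c.s - 2) →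
        (u < c.i → u + (C2 + 3) + (c.j - c.i) / D < c.i) → u < c.j + 2 →
        ∃ P Tw, cutJ G R (RJ.nxc x c) (c.j + R.g) (stepJ G R x τ L c) l = P ++ (stepJ G R x τ L c ++ Tw) ∧
          TB G lat latC y (BT w C0 D u) (c.j + 2) (G.up (RJ.nxc x c) (c.j + 2) (R.g - 2) ++ Tw) ∧
          c.j + R.g + Tw.length = G.m + 1 := by
      intro y y1 y2 y3 _ huj
      obtain ⟨P, Tw, e, h11, h12⟩ := tower (lat := lat) (latC := latC) (C1 := C2 + 3) (L := stepJ G R x τ L c) h hl hC0 hD (by omega)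
        (ρ := y) (u := u) (y := RJ.nxc x c) (τ := c.j + R.g) (by omega) (by omega)
        (y1.trans (by linarith)) (by linarith) (by linarith) hcl hexl
      refine ⟨P, Tw, e, (TB.up fun v hv hv' => ⟨ct_RB ?_ ?_, ?_⟩).append ?_, h12⟩
      · have t1 : (G.T (c.j + 2) : ℤ) ≤ G.T v := by exact_mod_cast G.T_mono hv
        linarith
      · have t1 : (G.T (c.j + 2) : ℤ) ≤ G.T v := by exact_mod_cast G.T_mono hv
        linarith
      · have a1 := abs3 (hl.ctl v (RJ.nxc x c)) y1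
        have a2 := hB v v (Nat.le_add_right _ _)
        have a3 : w (c.j + 1) ≤ w v := hmono (by omega)
        have a4 := mul_le_mul_of_nonneg_left a3 (show 0 ≤ kn + kb by linarith)
        have a5 := hl.w_nonneg v
        have a6 := mul_nonneg hkn a5
        have a7 := mul_nonneg hkb a5
        linarith
      · rw [Geo.up_length]
        rwa [show c.j + 2 + (R.g - 2) = c.j + R.g by omega]
    -- the block below the tower
    have hblk : ∀ (y : σ), |lat x - lat y| ≤ (kn + kb) * w (c.j + 1) → ∀ d ∈ L ++ G.up x τ (c.i + 2 - τ),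
        d.sc ≤ c.i + 1 ∧ |latC d - lat y| ≤ 4 * (kn + kb + 1) * w (c.j + 1) := by
      intro y hy d hd
      rcases List.mem_append.1 hd with hd | hd
      · obtain ⟨a1, a2⟩ := hL1 d hd
        have a3 := abs3 a2 hy
        exact ⟨by omega, by linarith⟩
      · obtain ⟨v, v1, v2, rfl⟩ := mem_up hd
        have a1 := abs3 (hl.ctl v x) hy
        have a2 : w v ≤ w (c.j + 1) := hmono (by omega)
        exact ⟨(show v ≤ c.i + 1 by omega), by linarith⟩
    have hmidp : ∀ (y : σ), |lat c.p - lat y| ≤ kb * w c.s → -(2 * G.T c.s : ℤ) ≤ G.row c.p - G.row y →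
        G.row c.p - G.row y ≤ 2 * G.T c.s → ∀ v, c.i + 2 ≤ v →
        RB G y v (G.ct v c.p) ∧ |latC (G.ct v c.p) - lat y| ≤ BT w C0 D u v := by
      intro y y1 y2 y3 v hv
      have t1 : (G.T (c.i + 2) : ℤ) ≤ G.T v := by exact_mod_cast G.T_mono hv
      refine ⟨ct_RB (by linarith) (by linarith), ?_⟩
      have a1 := abs3 (hl.ctl v c.p) y1
      have a2 := hB v v (Nat.le_add_right _ _)
      have a3 : w c.s ≤ w v := hmono (by omega)
      have a4 := mul_le_mul_of_nonneg_left a3 hkb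
      have a5 := hl.w_nonneg v
      have a6 := mul_nonneg hkn a5
      have a7 := mul_nonneg hkb a5
      linarith
    have hpp : |lat c.p - lat c.p| ≤ kb * w c.s := by
      rw [sub_self, abs_zero]
      exact mul_nonneg hkb (hl.w_nonneg _)
    rcases ho with ⟨rfl, hau, hus⟩ | ⟨rfl, hsu, hui⟩ | ⟨rfl, hiu, huj⟩
    · -- part 1
      have hue := not_Ex hexc (show u < c.i by omega)
      have hua : c.a + (C2 + 3) ≤ u ∧ u + (C2 + 3) < c.s := by
        unfold Ex at hexc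
        simp only [mem_union, mem_Ico, not_or] at hexc
        omega
      have har := exp_arith hD hue (by omega) h3' (show c.i ≤ (c.i - 1) + 1 by omega)
      obtain ⟨P, Tw, e, h11, h12⟩ := hrest c.p (by rwa [abs_sub_comm]) (by linarith [dp1.1]) (by linarith [dp1.2]) (fun _ => hue)
        (by omega)
      rw [e, stepJ_far hk]
      refine ⟨c.a, c.i - 1, P ++ [G.bt c.s c.p], G.bt c.a c.p, [], G.up c.p c.a (c.s - c.a) ++ G.up c.q c.s (c.i - c.s),
        L ++ G.up x τ (c.i + 2 - τ), G.up c.p (c.i + 2) (c.j - c.i) ++ (G.up (RJ.nxc x c) (c.j + 2) (R.g - 2) ++ Tw),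
        ?_, by omega, by omega, G.dn_le _ _, ?_, ?_, ?_, ?_, ?_, ?_, ?_, c.s - c.a, G.up c.q c.s (c.i - c.s),
        rfl, by omega⟩
      · unfold lowJ
        simp only [List.append_assoc, List.cons_append, List.nil_append]
      · intro d hd
        rw [List.mem_singleton] at hd
        subst hd
        refine ⟨le_rfl, (hl.btl c.a c.p).trans ?_⟩
        have a1 := hcoef c.a (c.a + D * (u - c.a)) (Nat.le_add_right _ _)
        have a3 := hl.w_nonneg c.a
        have a4 := mul_nonneg hkn a3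
        have a5 := mul_nonneg hkb a3
        linarith
      · refine (TB.up fun v _ _ => ⟨hself c.p v, hselfi c.p v⟩).append ?_
        rw [Geo.up_length, show c.a + (c.s - c.a) = c.s by omega]
        refine TB.up fun v hvs hv' => ?_
        have t1 : (G.T c.s : ℤ) ≤ G.T v := by exact_mod_cast G.T_mono hvs
        have t2 : (2 * G.T (c.s - 2) : ℤ) ≤ G.T c.s := by
          have t3 : (8 * G.T (c.s - 1) : ℤ) ≤ G.T c.s := by
            have := G.T_succ (c.s - 1)
            rw [show c.s - 1 + 1 = c.s by omega] at this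
            exact_mod_cast this
          have t4 : (G.T (c.s - 2) : ℤ) ≤ G.T (c.s - 1) := by exact_mod_cast G.T_mono (by omega)
          have t5 : (0 : ℤ) ≤ G.T (c.s - 1) := by positivity
          linarith
        refine ⟨ct_RB (by linarith) (by linarith), ?_⟩
        rw [if_neg (show ¬ v ≤ u + C2 by omega)]
        have a1 := abs3 (hl.ctl v c.q) (show |lat c.q - lat c.p| ≤ kb * w c.s by rwa [abs_sub_comm])
        have a2 := hcoef v v le_rfl
        have a3 : w c.s ≤ w v := hmono hvs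
        have a4 := mul_le_mul_of_nonneg_left a3 hkb
        have a5 := hl.w_nonneg v
        have a6 := mul_nonneg hkn a5
        have a7 := mul_nonneg hkb a5
        linarith
      · rw [List.length_append, Geo.up_length, Geo.up_length]
        omega
      · intro d hd
        obtain ⟨a1, a2⟩ := hblk c.p (l4.trans (by linarith)) d hd
        exact ⟨by omega, a2.trans (hcoef _ _ har)⟩
      · rw [show c.i - 1 + 3 = c.i + 2 by omega]
        refine (TB.up fun v hv _ => hmidp c.p hpp (by linarith) (by linarith) v hv).append ?_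
        rw [Geo.up_length]
        rwa [show c.i + 2 + (c.j - c.i) = c.j + 2 by omega]
      · simp only [List.length_append, Geo.up_length]
        omega
      · intro he
        have := congrArg List.length he
        simp only [List.length_append, Geo.up_length, List.length_nil] at this
        omega
    · -- part 2
      have hue := not_Ex hexc hui
      have hus : c.s + (C2 + 3) ≤ u := by
        unfold Ex at hexc
        simp only [mem_union, mem_Ico, not_or] at hexc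
        omega
      have har := exp_arith hD hue (by omega) h3' (show c.i ≤ (c.i - 1) + 1 by omega)
      obtain ⟨P, Tw, e, h11, h12⟩ := hrest c.q (by rwa [abs_sub_comm]) (by linarith [dq1.1]) dq1.2 (fun _ => hue) (by omega)
      rw [e, stepJ_far hk]
      have hlow : ∀ d ∈ G.bt c.s c.p :: G.bt c.a c.p :: G.up c.p c.a (c.s - c.a), d.sc ≤ c.s ∧ |latC d - lat c.q| ≤
          C0 * w (c.s + D * (u - c.s)) := by
        intro d hd
        have key : ∀ b, b ≤ w c.s → |latC d - lat c.p| ≤ b → |latC d - lat c.q| ≤ C0 * w (c.s + D * (u - c.s)) := by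
          intro b hb1 hb2
          have a1 := abs3 hb2 l5
          have a2 := hcoef c.s (c.s + D * (u - c.s)) (Nat.le_add_right _ _)
          have a5 := hl.w_nonneg c.s
          have a6 := mul_nonneg hkn a5
          have a7 := mul_nonneg hkb a5
          linarith
        simp only [List.mem_cons] at hd
        rcases hd with rfl | rfl | hd
        · exact ⟨le_rfl, key _ le_rfl (hl.btl _ _)⟩
        · exact ⟨h2, key _ (hmono h2) (hl.btl _ _)⟩
        · obtain ⟨v, v1, v2, rfl⟩ := mem_up hd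
          exact ⟨(show v ≤ c.s by omega), key _ (hmono (by omega)) (hl.ctl _ _)⟩
      refine ⟨c.s, c.i - 1, P, G.bt c.s c.p, G.bt c.a c.p :: G.up c.p c.a (c.s - c.a), G.up c.q c.s (c.i - c.s),
        L ++ G.up x τ (c.i + 2 - τ), G.up c.p (c.i + 2) (c.j - c.i) ++ (G.up (RJ.nxc x c) (c.j + 2) (R.g - 2) ++ Tw),
        ?_, by omega, by omega, r9, hlow, ?_, ?_, ?_, ?_, ?_, ?_, c.i - c.s, [], by rw [List.append_nil], by omega⟩
      · unfold lowJ
        simp only [List.append_assoc, List.cons_append]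
      · exact TB.up fun v _ _ => ⟨hself c.q v, hselfi c.q v⟩
      · rw [Geo.up_length]
        omega
      · intro d hd
        obtain ⟨a1, a2⟩ := hblk c.q l6 d hd
        exact ⟨by omega, a2.trans (hcoef _ _ har)⟩
      · rw [show c.i - 1 + 3 = c.i + 2 by omega]
        refine (TB.up fun v hv _ => hmidp c.q l5 (by linarith) (by linarith) v hv).append ?_
        rw [Geo.up_length]
        rwa [show c.i + 2 + (c.j - c.i) = c.j + 2 by omega]
      · simp only [List.length_append, Geo.up_length]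
        omega
      · intro he
        have := congrArg List.length he
        simp only [List.length_append, Geo.up_length, List.length_nil] at this
        omega
    · -- part 3
      have hue : c.i + ((C2 + 3) + (c.j - c.i) / D) ≤ u ∧ u + (C2 + 3) < c.j := by
        unfold Ex at hexc
        simp only [mem_union, mem_Ico, not_or] at hexc
        omega
      have har := exp_arith' hD hue.1 (by omega) h3'
      obtain ⟨P, Tw, e, h11, h12⟩ := hrest c.p (by rwa [abs_sub_comm]) (by linarith [dp1.1]) (by linarith [dp1.2])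
        (fun hh => by omega) (by omega)
      rw [e, stepJ_far hk]
      refine ⟨c.i + 2, c.j - 1, P ++ [G.bt c.s c.p], G.bt c.a c.p,
        (G.up c.p c.a (c.s - c.a) ++ G.up c.q c.s (c.i - c.s)) ++ (L ++ G.up x τ (c.i + 2 - τ)),
        G.up c.p (c.i + 2) (c.j - c.i - 2), G.up c.p c.j 2, G.up (RJ.nxc x c) (c.j + 2) (R.g - 2) ++ Tw,
        ?_, by omega, by omega, G.dn_le _ _, ?_, ?_, ?_, ?_, ?_, ?_, ?_, c.j - c.i - 2, [], by rw [List.append_nil],
        by omega⟩
      · rw [show c.j - c.i = (c.j - c.i - 2) + 2 by omega, Geo.up_add, show c.i + 2 + (c.j - c.i - 2) = c.j by omega]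
        unfold lowJ
        simp only [List.append_assoc, List.cons_append, List.nil_append, Nat.add_sub_cancel]
      · intro d hd
        have hgoal : d.sc ≤ c.i + 2 ∧ |latC d - lat c.p| ≤ 4 * (kn + kb + 1) * w (c.j + 1) := by
          simp only [List.mem_cons, List.mem_append] at hd
          rcases hd with rfl | (hd | hd) | hd | hd
          · have a1 := hl.btl c.a c.p
            have a2 : w c.a ≤ w (c.j + 1) := hmono (by omega)
            exact ⟨(show c.a ≤ c.i + 2 by omega), by linarith⟩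
          · obtain ⟨v, v1, v2, rfl⟩ := mem_up hd
            have a1 := hl.ctl v c.p
            have a2 : w v ≤ w (c.j + 1) := hmono (by omega)
            exact ⟨(show v ≤ c.i + 2 by omega), by linarith⟩
          · obtain ⟨v, v1, v2, rfl⟩ := mem_up hd
            have a1 := abs3 (hl.ctl v c.q) (show |lat c.q - lat c.p| ≤ kb * w c.s by rwa [abs_sub_comm])
            have a2 : w v ≤ w (c.j + 1) := hmono (by omega)
            exact ⟨(show v ≤ c.i + 2 by omega), by linarith⟩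
          · obtain ⟨a1, a2⟩ := hblk c.p (l4.trans (by linarith)) d (List.mem_append_left _ hd)
            exact ⟨by omega, a2⟩
          · obtain ⟨a1, a2⟩ := hblk c.p (l4.trans (by linarith)) d (List.mem_append_right _ hd)
            exact ⟨by omega, a2⟩
        exact ⟨hgoal.1, hgoal.2.trans (hcoef _ _ har)⟩
      · exact TB.up fun v _ _ => ⟨hself c.p v, hselfi c.p v⟩
      · rw [Geo.up_length]
        omega
      · intro d hd
        obtain ⟨v, v1, v2, rfl⟩ := mem_up hd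
        refine ⟨(show v ≤ c.j - 1 + 2 by omega), ?_⟩
        have a1 := hl.ctl v c.p
        have a2 : v ≤ (c.j - 1) + D * ((c.j - 1) - u) := by
          have : D * 2 ≤ D * ((c.j - 1) - u) := Nat.mul_le_mul_left _ (by omega)
          omega
        have a2' := hcoef v _ a2
        have a3 := hl.w_nonneg v
        have a4 := mul_nonneg hkn a3
        have a5 := mul_nonneg hkb a3
        linarith
      · rwa [show c.j - 1 + 3 = c.j + 2 by omega]
      · simp only [List.length_append, Geo.up_length]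
        omega
      · rw [show R.g - 2 = (R.g - 3) + 1 by omega, Geo.up_succ]
        exact List.cons_ne_nil _ _

/-- Own data of every unexposed own slab. -/
theorem own_ODx {kn kb C0 : ℝ} {C2 D : ℕ} (h : GRJ G R) (hl : LatJ G R lat latC w kn kb) (hC0 : 4 * (kn + kb + 1) ≤ C0)
    (hD : 1 ≤ D) {x : σ} {τ : ℕ} {L : List (Cut Λ)} {l : List (SJ σ)} (hc : R.IsC x τ l)
    (hL : InvL G lat latC w (kn + kb + 1) x τ L) {c : SJ σ} (hcl : c ∈ l) {u : ℕ} {ρ : σ} (ho : RJ.Own R.m3 c u ρ)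
    (hex : ∀ d ∈ l, u ∉ Ex (C2 + 3) D d) : ODx G lat latC w C0 C2 D (cutJ G R x τ L l) ρ u := by
  induction l generalizing x τ L with
  | nil => exact absurd hcl (by simp)
  | cons d l ih =>
    rcases List.mem_cons.1 hcl with rfl | hcl
    · exact own_headX h hl hC0 hD hc.1 hc.2 hL ho hex
    · exact ih hc.2 (hL.step h hl hc.1) hcl fun e he => hex e (List.mem_cons_of_mem _ he)

theorem cutsJ_ODx {kn kb C0 : ℝ} {C2 D : ℕ} (h : GRJ G R) (hl : LatJ G R lat latC w kn kb) (hC0 : 4 * (kn + kb + 1) ≤ C0)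
    (hD : 1 ≤ D) {x : σ} {l : List (SJ σ)} (hc : R.IsC x 0 l) {c : SJ σ} (hcl : c ∈ l) {u : ℕ} {ρ : σ}
    (ho : RJ.Own R.m3 c u ρ) (hex : u ∉ ExL (C2 + 3) D l) : ODx G lat latC w C0 C2 D (cutsJ G R x l) ρ u := by
  refine own_ODx h hl hC0 hD hc ⟨fun d hd => ?_, [], G.bt 0 x, [], rfl, G.dn_le _ _⟩ hcl ho
    fun d hd hu => hex (mem_ExL hd hu)
  simp only [List.nil_append, List.mem_singleton] at hd
  subst hd
  refine ⟨le_rfl, (hl.btl 0 x).trans ?_⟩
  have a1 := hl.w_nonneg 0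
  have a2 := mul_nonneg hl.kn_nonneg a1
  have a3 := mul_nonneg hl.kb_nonneg a1
  linarith


/-! ### The final statement -/

/-- **THE POTENTIAL IS SMALL ONLY WITH SMALL PROBABILITY** (two index form, full relation; `ODx`, a premise on the list of the cuts). -/
theorem potX [Inhabited Λ] {μ : Measure ℝ} [IsProbabilityMeasure μ] (h : GRJ G R.near) {A B Nt : ℕ} (t : TreeB G R.near A B Nt)
    (hr : Geo.LocRow G) {kn kb C0 : ℝ} {C2 D : ℕ} (hl : LatJ G R.near lat latC w kn kb) (hC0 : 4 * (kn + kb + 1) ≤ C0)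
    (hD : 1 ≤ D) {dpL : Cut Λ → Cut Λ → Env → ℕ} {dpN : Cut Λ → Cut Λ → Cut Λ → Env → ℕ}
    (mL : ∀ a b, Measurable (dpL a b)) (mN : ∀ a b c, Measurable (dpN a b c))
    (rL : ∀ a b (η η' : Env), (∀ p ∈ btw a b, η p = η' p) → dpL a b η = dpL a b η')
    (rN : ∀ a b c (η η' : Env), (∀ p ∈ btw a c, η p = η' p) → dpN a b c η = dpN a b c η')
    {z M : ℝ≥0∞} (hz : 1 ≤ z) (hz' : z ≠ ∞) (hM : 1 ≤ M) {Sw : Finset ℤ} {E0 : ℕ}
    (momL : ∀ a b, ¬ HasSw Sw a b → ∫⁻ η, z ^ dpL a b η ∂(law μ) ≤ M)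
    (momN : ∀ a b e, ¬ HasSw Sw a e → ∫⁻ η, z ^ dpN a b e η ∂(law μ) ≤ M)
    (hEL : ∀ a b η, HasSw Sw a b → dpL a b η ≤ E0) (hEN : ∀ a b e η, HasSw Sw a e → dpN a b e η ≤ E0)
    (scL : Cut Λ → Cut Λ → ℕ) (scN : Cut Λ → Cut Λ → Cut Λ → ℕ) {T : ℕ → σ → Set Env} {bad : Set Env}
    (PZ : List (Cut Λ) → Prop)
    (hPZ : ∀ x ∈ G.W, ∀ l, R.near.IsC x 0 l → PZ (cutsJ G R.near x l))
    (hT : ∀ η ∉ bad, ∀ ρ ∈ G.W, ∀ u Z, (Z.Pairwise fun c d => c.row ≤ d.row) → (∀ d ∈ Z, d.sc ≤ G.m) → PZ Z →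
      ODx G lat latC w C0 C2 D Z ρ u → NFL dpL scL Z u η → NFN dpN scN Z u η → η ∈ T u ρ)
    {y : ℝ≥0∞} (hy : y ≤ 1) {r b : ℕ}
    (hb : 6 * (C2 + 3) * nSt R.m R.g R.lam + 2 * ((R.m + R.g) / D) + 9 * r + 9 * (Sw.card * E0) ≤ b) :
    law μ {η | ∃ x ∈ G.W, R.Pot (Rl.dpT T) y x 0 η < y ^ (3 * b)} ≤
      law μ bad + (nCodeJ Nt (A ^ 2) G.m R.g : ℝ≥0∞) * (3 * (M ^ (3 * (G.m + R.g) + 1) / z ^ r)) := by
  have hP : IsProbabilityMeasure (law μ) := by unfold law; infer_instance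
  obtain ⟨C, hC⟩ := t.cnt h
  have hg : 3 ≤ R.g := h.g_ge
  set dpL' : Cut Λ → Cut Λ → Env → ℕ := fun a b η => if HasSw Sw a b then 0 else dpL a b η with hdL
  set dpN' : Cut Λ → Cut Λ → Cut Λ → Env → ℕ := fun a b e η => if HasSw Sw a e then 0 else dpN a b e η with hdN
  have mL' : ∀ a b, Measurable (dpL' a b) := fun a b => by
    by_cases hs : HasSw Sw a b
    · have e : dpL' a b = fun _ => 0 := funext fun η => if_pos hs
      rw [e]; exact measurable_const
    · have e : dpL' a b = dpL a b := funext fun η => if_neg hs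
      rw [e]; exact mL a b
  have mN' : ∀ a b e, Measurable (dpN' a b e) := fun a b e => by
    by_cases hs : HasSw Sw a e
    · have e : dpN' a b e = fun _ => 0 := funext fun η => if_pos hs
      rw [e]; exact measurable_const
    · have e : dpN' a b e = dpN a b e := funext fun η => if_neg hs
      rw [e]; exact mN _ _ _
  have rL' : ∀ a b (η η' : Env), (∀ p ∈ btw a b, η p = η' p) → dpL' a b η = dpL' a b η' := fun a b η η' he => by
    show (if HasSw Sw a b then 0 else dpL a b η) = if HasSw Sw a b then 0 else dpL a b η'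
    rw [rL a b η η' he]
  have rN' : ∀ a b c (η η' : Env), (∀ p ∈ btw a c, η p = η' p) → dpN' a b c η = dpN' a b c η' := fun a b c η η' he => by
    show (if HasSw Sw a c then 0 else dpN a b c η) = if HasSw Sw a c then 0 else dpN a b c η'
    rw [rN a b c η η' he]
  have momL' : ∀ a b, ∫⁻ η, z ^ dpL' a b η ∂(law μ) ≤ M := fun a b => by
    by_cases hs : HasSw Sw a b
    · have e : ∀ η, z ^ dpL' a b η = 1 := fun η => by
        show z ^ (if HasSw Sw a b then 0 else dpL a b η) = 1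
        rw [if_pos hs, pow_zero]
      simp only [e, lintegral_const, measure_univ, mul_one]
      exact hM
    · have e : dpL' a b = dpL a b := funext fun η => if_neg hs
      rw [e]; exact momL a b hs
  have momN' : ∀ a b e, ∫⁻ η, z ^ dpN' a b e η ∂(law μ) ≤ M := fun a b e => by
    by_cases hs : HasSw Sw a e
    · have e' : ∀ η, z ^ dpN' a b e η = 1 := fun η => by
        show z ^ (if HasSw Sw a e then 0 else dpN a b e η) = 1
        rw [if_pos hs, pow_zero]
      simp only [e', lintegral_const, measure_univ, mul_one]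
      exact hM
    · have e' : dpN' a b e = dpN a b e := funext fun η => if_neg hs
      rw [e']; exact momN _ _ _ hs
  have hmain : law μ {η | ∃ x ∈ G.W, ∃ l, R.near.IsC x 0 l ∧
      3 * r ≤ SL dpL' (cutsJ G R.near x l) η + SN dpN' (cutsJ G R.near x l) η} ≤ _ :=
    unionB h C (S := fun x l η => SL dpL' (cutsJ G R.near x l) η + SN dpN' (cutsJ G R.near x l) η)
      (fun x _ x' _ l l' hl hl' h1 h2 η => by
        show SL dpL' (cutsJ G R.near x l) η + SN dpN' (cutsJ G R.near x l) η =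
          SL dpL' (cutsJ G R.near x' l') η + SN dpN' (cutsJ G R.near x' l') η
        rw [cutsJ_congr hr hl hl' h1 h2])
      (fun x hx l hl => tailZ mL' mN' rL' rN' hz hz' hM (cutsJ_pw h hl) (cutsJ_length h hl) (fun _ _ => momL' _ _)
        (fun _ _ => momN' _ _ _) r)
  rw [hC] at hmain
  refine (measure_mono (fun η hη => ?_)).trans ((measure_union_le bad _).trans (add_le_add le_rfl hmain))
  by_cases hbad : η ∈ bad
  · exact Or.inl hbad
  refine Or.inr ?_
  obtain ⟨x, hx, hlt⟩ := hη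
  by_contra hcon
  have hcon' : ∀ x ∈ G.W, ∀ l, R.near.IsC x 0 l →
      SL dpL' (cutsJ G R.near x l) η + SN dpN' (cutsJ G R.near x l) η < 3 * r := by
    intro x hx l hl
    by_contra h1
    exact hcon ⟨x, hx, l, hl, not_lt.1 h1⟩
  have hone : ∀ ρ ∈ R.W, ∀ l, R.near.IsC ρ 0 l → R.near.nm (Rl.dpT T) l η ≤ b := by
    intro ρ hρ l hl0
    have hW : R.near.W = G.W := h.W_eq
    have hρ' : ρ ∈ G.W := by rw [← hW]; exact hρ
    have h1 := hcon' ρ hρ' l hl0
    have hpw := cutsJ_pw h hl0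
    have h2 := countJ (T := T) (η := η) (C1 := C2 + 3) (D := D) (R := R.near) (show 1 ≤ R.g by omega) hl0
      (cutsJ G R.near ρ l) dpL dpN scL scN (fun c hc u ρ' ho hex hfL hfN => by
        have hρW : ρ' ∈ G.W := by
          have := (RJ.Rc.spec (R := R.near) (x := ρ) (τ := 0) (u := u) (ρ := ρ') ⟨l, c, hl0, hc, ho⟩).1
          rwa [hW] at this
        exact hT η hbad ρ' hρW u _ hpw (cutsJ_sc h hl0) (hPZ _ hρ' _ hl0) (cutsJ_ODx h hl hC0 hD hl0 hc ho hex) hfL hfN)
    have h3 : l.length ≤ nSt R.m R.g R.lam := length_leJ h hl0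
    have h4 : 6 * (C2 + 3) * l.length ≤ 6 * (C2 + 3) * nSt R.m R.g R.lam := Nat.mul_le_mul_left _ h3
    have h5 := SL_sw hpw Sw (dpL := dpL) (η := η) (E0 := E0) (fun a b hs => hEL a b η hs)
    have h6 := SN_sw hpw Sw (dpN := dpN) (η := η) (E0 := E0) (fun a b e hs => hEN a b e η hs)
    have h7 : R.near.m = R.m := rfl
    have h8 : R.near.g = R.g := rfl
    rw [h7, h8] at h2
    change SL dpL _ η ≤ SL dpL' _ η + _ at h5
    change SN dpN _ η ≤ SN dpN' _ η + _ at h6
    omega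
  refine absurd hlt (not_lt.2 (RJ.le_Pot hy fun l hl0 => ?_))
  obtain ⟨l', h1, h2⟩ := RJ.nm_near (show 1 ≤ R.g by omega) hl0 hone
  have h3 : x ∈ R.W := by
    have hW : R.near.W = G.W := h.W_eq
    show x ∈ R.near.W
    rw [hW]
    exact hx
  have h4 := hone x h3 l' h1
  omega

end

end Pool.Agent.W_7d29a1_C1.H40
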