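import Pool.Agent.W_7d29a1_C1.DepP6
import Pool.Agent.W_7d29a1_C1.OdX2
import Pool.Agent.W_7d29a1_C1.GeoE37
import Pool.Agent.W_7d29a1_C1.GeoT37

/-!
MP_7d29a1_pr, the attractor route, TAME: THE CLAUSE `Lv` OF `hT`. (helper2)

The window of an own slab `(u, ρ)` lies inside ONE layer of the list of the cuts, the layer `(ct (u - 1) ρ, ct u ρ]`. So ANY event `Lv u κ` of
the rows of the window is an event of this layer: it enters the depth of the layers with the value one, and `not felt at u` says that it holds.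
No analysis, no levels: only the probability of its complement.
-/

set_option autoImplicit false

namespace Pool.Agent.W_7d29a1_C1.Dep6

open MeasureTheory ProbabilityTheory Finset
open Pool.Agent.W_7d29a1_F Pool.Agent.W_7d29a1_h4g Pool.Agent.W_7d29a1_H Pool.Agent.W_7d29a1_HS
open Pool.Agent.W_7d29a1_C1.H75 Pool.Agent.W_7d29a1_C1.U16 Pool.Agent.W_7d29a1_C1.H40 Pool.Agent.W_7d29a1_C1.S71
open scoped ENNReal

noncomputable section

variable {Λ : Type*}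

/-! ### An event of the scale and the cell of the upper cut -/

open Classical in
/-- The event `Lv` of the scale and the cell of the upper cut, if the sites which it reads lie in the layer. -/
def EvL (Wn : ℕ → Λ → Set Pt) (Lv : ℕ → Λ → Set Env) (a b : Cut Λ) : Set Env :=
  if Wn b.sc b.cd ⊆ btw a b then Lv b.sc b.cd else Set.univ

section EvL

variable {Wn : ℕ → Λ → Set Pt} {Lv : ℕ → Λ → Set Env}

theorem evL_meas (hm : ∀ u κ, MeasurableSet (Lv u κ)) (a b : Cut Λ) : MeasurableSet (EvL Wn Lv a b) := by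
  unfold EvL
  split_ifs
  · exact hm _ _
  · exact MeasurableSet.univ

theorem evL_rows (hr : ∀ u κ (η η' : Env), (∀ p ∈ Wn u κ, η p = η' p) → (η ∈ Lv u κ ↔ η' ∈ Lv u κ)) (a b : Cut Λ) (η η' : Env)
    (h : ∀ p ∈ btw a b, η p = η' p) : η ∈ EvL Wn Lv a b ↔ η' ∈ EvL Wn Lv a b := by
  unfold EvL
  split_ifs with hs
  · exact hr _ _ η η' fun p hp => h p (hs hp)
  · exact Iff.rfl

theorem evL_prob {μ : Measure ℝ} {d : ℝ≥0∞} (hd : ∀ u κ, law μ (Lv u κ)ᶜ ≤ d) (a b : Cut Λ) : law μ (EvL Wn Lv a b)ᶜ ≤ d := by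
  unfold EvL
  split_ifs
  · exact hd _ _
  · rw [Set.compl_univ, measure_empty]
    exact zero_le

theorem evL_good {a b : Cut Λ} (hs : Wn b.sc b.cd ⊆ btw a b) {η : Env} (h : η ∈ EvL Wn Lv a b) : η ∈ Lv b.sc b.cd := by
  unfold EvL at h
  rwa [if_pos hs] at h

/-- **The event of the windows is a depth of layers**, of the value `v`. -/
theorem dp2_evL {μ : Measure ℝ} [IsProbabilityMeasure μ] {v : ℕ} {z d : ℝ≥0∞} (hm : ∀ u κ, MeasurableSet (Lv u κ))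
    (hr : ∀ u κ (η η' : Env), (∀ p ∈ Wn u κ, η p = η' p) → (η ∈ Lv u κ ↔ η' ∈ Lv u κ)) (hd : ∀ u κ, law μ (Lv u κ)ᶜ ≤ d) :
    Dp2 μ z (1 + z ^ v * d) (dE6 (EvL Wn Lv) v) :=
  dp2_E (evL_meas hm) (evL_rows hr) (evL_prob hd)

/-- The tail: the depth is at most `v`. -/
theorem evL_tail {μ : Measure ℝ} {v E₀ : ℕ} (h : v ≤ E₀) (a b : Cut Λ) : law μ {η | E₀ < dE6 (EvL Wn Lv) v a b η} = 0 := by
  have e : {η | E₀ < dE6 (EvL Wn Lv) v a b η} = ∅ := by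
    ext η
    simp only [Set.mem_ofPred_eq, Set.mem_empty_iff_false, iff_false, not_lt]
    exact (dE6_le _ _ _ _ _).trans h
  rw [e, measure_empty]

end EvL

/-! ### The clause -/

variable {σ : Type*} {G : Geo σ Λ} {lat : σ → ℝ} {latC : Cut Λ → ℝ} {w : ℕ → ℝ}

/-- **THE CLAUSE `Lv` OF `hT`**, for a list in which `ct (u - 1) ρ`, `ct u ρ` are successive. -/
theorem lv_own {Wn : ℕ → Λ → Set Pt} {Lv : ℕ → Λ → Set Env} {dL : Cut Λ → Cut Λ → Env → ℕ} {Z : List (Cut Λ)} {ρ : σ} {u v : ℕ}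
    {η : Env} (hZ : ∃ P Q, Z = P ++ G.ct (u - 1) ρ :: G.ct u ρ :: Q) (hdL : ∀ a b η, dE6 (EvL Wn Lv) v a b η ≤ dL a b η)
    (hv : 1 ≤ v) (hN : NFL dL lb6 Z u η) (hW : Wn u (G.loc u ρ) ⊆ btw (G.ct (u - 1) ρ) (G.ct u ρ)) : η ∈ Lv u (G.loc u ρ) := by
  obtain ⟨P, Q, e⟩ := hZ
  have e1 : lb6 (G.ct (u - 1) ρ) (G.ct u ρ) = u := max_eq_right (Nat.sub_le u 1)
  have h1 := nfl_zero hN e (v := v) (by rw [e1]; omega) (by rw [e1]; omega) hv
  have h2 := dE6_good (lt_of_le_of_lt (hdL _ _ _) h1)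
  exact evL_good (a := G.ct (u - 1) ρ) (b := G.ct u ρ) hW h2

/-- Any event of two successive near layers `(ct v ρ, ct (v + 1) ρ]` which is part of the depths. -/
theorem ODx.succ {C0 : ℝ} {C2 D : ℕ} {Z : List (Cut Λ)} {ρ : σ} {u : ℕ} (h : ODx G lat latC w C0 C2 D Z ρ u) (hC : 1 ≤ C2)
    (hu : 1 ≤ u) : ∃ P Q, Z = P ++ G.ct (u - 1) ρ :: G.ct u ρ :: Q := by
  obtain ⟨v, rfl⟩ : ∃ v, u = v + 1 := ⟨u - 1, by omega⟩
  exact h.pair (by omega) (by omega)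

/-! ### The windows of `Geo37` -/

section G37

variable (Gg : G37.Gm) {F : Finset (ℕ × ℤ)} {mt : ℕ} {W : Set {c // c ∈ F}}

/-- The rows of the window. -/
def wrow (u : ℕ) (κ : ℤ × ℤ) : Set Pt := {p | Gg.rcc u κ + Gg.T (u - 1) < p.1 ∧ p.1 ≤ Gg.rcc u κ + Gg.T u}

theorem win_wrow (u : ℕ) (κ : ℤ × ℤ) : Gg.win u κ ⊆ wrow Gg u κ := fun _ hp => ⟨hp.1, hp.2.1⟩

/-- The rows of the window are the rows `ra ≤ i < re`. -/
theorem mem_wrow {u : ℕ} {κ : ℤ × ℤ} (h : 0 ≤ Gg.rcc u κ) {p : Pt} : p ∈ wrow Gg u κ ↔ (Gg.ra u κ : ℤ) ≤ p.1 ∧ p.1 < Gg.re u κ := by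
  rw [Gg.ra_cast h, Gg.re_cast h]
  unfold wrow
  simp only [Set.mem_ofPred_eq]
  constructor
  · rintro ⟨h1, h2⟩
    exact ⟨by omega, by omega⟩
  · rintro ⟨h1, h2⟩
    exact ⟨by omega, by omega⟩

/-- **The window of an own slab lies in one layer.** -/
theorem wrow_btw {u : ℕ} (hu : 1 ≤ u) (ρ : {c // c ∈ F}) :
    wrow Gg u (Gg.loc u ρ.1) ⊆ btw ((Gg.geoJ F mt W).ct (u - 1) ρ) ((Gg.geoJ F mt W).ct u ρ) := by
  intro p hp
  have h1 : p.1 ∈ (Gg.geoJ F mt W).sr u ((Gg.geoJ F mt W).row ρ) := hp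
  exact sr_ct hu ρ h1

/-- **THE CLAUSE `Lv` OF `hT`, `Geo37`.** -/
theorem lv_own37 {Lv : ℕ → ℤ × ℤ → Set Env} {dL : Cut (ℤ × ℤ) → Cut (ℤ × ℤ) → Env → ℕ} {Z : List (Cut (ℤ × ℤ))} {ρ : {c // c ∈ F}}
    {u v : ℕ} {η : Env} (hu : 1 ≤ u) (hZ : ∃ P Q, Z = P ++ (Gg.geoJ F mt W).ct (u - 1) ρ :: (Gg.geoJ F mt W).ct u ρ :: Q)
    (hdL : ∀ a b η, dE6 (EvL (wrow Gg) Lv) v a b η ≤ dL a b η) (hv : 1 ≤ v) (hN : NFL dL lb6 Z u η) : η ∈ Lv u (Gg.loc u ρ.1) :=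
  lv_own (G := Gg.geoJ F mt W) hZ hdL hv hN (wrow_btw Gg hu ρ)

end G37

end

end Pool.Agent.W_7d29a1_C1.Dep6
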