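import Pool.Agent.W_7d29a1_C1.HT86
import Pool.Agent.W_7d29a1_C1.LvT2
import Pool.Agent.W_7d29a1_C1.KiR2

/-!
Both halves (MP_7d29a1_pr), attractor route [C1], SEP: THE CLAUSE `Lv` (helper86)

`Rg86` : the regular windows (scale at least `τ`, rows nonnegative, the switch row is not inside). `EvN86` : the event `Lv` of a regular window
as an event of the node `(ct (u - 1) ρ, ct u ρ, ct (u + 1) ρ)`, an `Ev3` of DepI6 if `P(Lvᶜ) ≤ d` at the regular windows.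
`clLv86` : the clause `Lv` of the typical events.
-/

set_option autoImplicit false

namespace Pool.Agent.W_7d29a1_C1.PW86

open Finset MeasureTheory
open Pool.Agent.W_7d29a1_F Pool.Agent.W_7d29a1_C1.S71
open Pool.Agent.W_7d29a1_C1.H60
open Pool.Agent.W_7d29a1_C1.G37 (Gm)
open Pool.Agent.W_7d29a1_C1.H40
open Pool.Agent.W_7d29a1_C1.Dep6
open Pool.Agent.W_7d29a1_C1.SF98
open Pool.Agent.W_7d29a1_C1.P25 (rws offS)
open scoped ENNReal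

noncomputable section

/-- The switch row of the force is not inside the window. -/
def NoSw86 (Γ : Cx) (G : Gm) (u : ℕ) (κ : ℤ × ℤ) : Prop := ¬ (G.ra u κ - 1 < Γ.M ∧ Γ.M < G.re u κ)

/-- **The regular windows.** -/
def Rg86 (Γ : Cx) (G : Gm) (τ u : ℕ) (κ : ℤ × ℤ) : Prop := τ ≤ u ∧ 0 ≤ G.rcc u κ ∧ NoSw86 Γ G u κ

/-- **The event of the node.** -/
def EvN86 (Γ : Cx) (G : Gm) (τ : ℕ) (Lv : ℕ → ℤ × ℤ → Set Env) (a b e : Cut (ℤ × ℤ)) : Set Env :=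
  {ω | rws G b.sc b.cd ⊆ btw a e → Rg86 Γ G τ b.sc b.cd → ω ∈ Lv b.sc b.cd}

variable {Γ : Cx} {G : Gm} {mt τ : ℕ} {Lv : ℕ → ℤ × ℤ → Set Env}

theorem evN86_eq {a b e : Cut (ℤ × ℤ)} (h1 : rws G b.sc b.cd ⊆ btw a e) (h2 : Rg86 Γ G τ b.sc b.cd) : EvN86 Γ G τ Lv a b e = Lv b.sc b.cd := by
  ext ω
  exact ⟨fun h => h h1 h2, fun h _ _ => h⟩

theorem evN86_univ {a b e : Cut (ℤ × ℤ)} (h : ¬ (rws G b.sc b.cd ⊆ btw a e ∧ Rg86 Γ G τ b.sc b.cd)) : EvN86 Γ G τ Lv a b e = Set.univ := by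
  ext ω
  exact ⟨fun _ => trivial, fun _ h1 h2 => absurd ⟨h1, h2⟩ h⟩

/-- **The node events are small.** -/
theorem ev3_86 {μ : Measure ℝ} {d : ℝ≥0∞} (hm : ∀ u κ, Rg86 Γ G τ u κ → MeasurableSet (Lv u κ))
    (ho : ∀ u κ, Rg86 Γ G τ u κ → Off (offS G u κ) (Lv u κ)) (hp : ∀ u κ, Rg86 Γ G τ u κ → law μ (Lv u κ)ᶜ ≤ d) :
    Ev3 μ d (EvN86 Γ G τ Lv) where
  meas x y e := by
    by_cases h : rws G y.sc y.cd ⊆ btw x e ∧ Rg86 Γ G τ y.sc y.cd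
    · rw [evN86_eq h.1 h.2]
      exact hm _ _ h.2
    · rw [evN86_univ h]
      exact MeasurableSet.univ
  rows x y e η η' he := by
    by_cases h : rws G y.sc y.cd ⊆ btw x e ∧ Rg86 Γ G τ y.sc y.cd
    · rw [evN86_eq h.1 h.2]
      exact ho _ _ h.2 _ _ fun p hp => he p (h.1 (Set.notMem_compl_iff.1 hp))
    · rw [evN86_univ h]
      exact Iff.rfl
  prob x y e := by
    by_cases h : rws G y.sc y.cd ⊆ btw x e ∧ Rg86 Γ G τ y.sc y.cd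
    · rw [evN86_eq h.1 h.2]
      exact hp _ _ h.2
    · rw [evN86_univ h, Set.compl_univ, measure_empty]
      exact zero_le

/-! ### The geometry of an own slab -/

/-- The rows `[ra, re]` of an own slab lie in the node. -/
theorem rws_btw {u : ℕ} (hu : 1 ≤ u) (ρ : XS Γ G mt) :
    rws G u (G.loc u ρ.1) ⊆ btw ((gj Γ G mt).ct (u - 1) ρ) ((gj Γ G mt).ct (u + 1) ρ) := by
  intro p hp
  have h0 := (G.rcc_pos u ρ.1).le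
  have e1 := G.ra_cast h0
  have e2 := G.re_cast h0
  have h1 : (G.ra u (G.loc u ρ.1) : ℤ) ≤ p.1 := hp.1
  have h2 : p.1 ≤ G.re u (G.loc u ρ.1) := hp.2
  have h3 : (gj Γ G mt).rc (u - 1) ((gj Γ G mt).row ρ) ≤ (gj Γ G mt).rc u ((gj Γ G mt).row ρ) :=
    nxt_mono ((gj Γ G mt).T_pos _) ((gj Γ G mt).T_pos _) (Tk_dvd (by omega)) _
  have h4 : (gj Γ G mt).rc u ((gj Γ G mt).row ρ) ≤ (gj Γ G mt).rc (u + 1) ((gj Γ G mt).row ρ) :=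
    nxt_mono ((gj Γ G mt).T_pos _) ((gj Γ G mt).T_pos _) (Tk_dvd (by omega)) _
  have e3 : G.rcc u (G.loc u ρ.1) = (gj Γ G mt).rc u ((gj Γ G mt).row ρ) := rfl
  have h5 : (G.T u : ℤ) + 1 ≤ G.T (u + 1) := by
    have h6 := (gj Γ G mt).T_succ u
    have h7 := (gj Γ G mt).T_pos u
    have h8 : 8 * G.T u ≤ G.T (u + 1) := h6
    have h9 : 0 < G.T u := h7
    omega
  constructor
  · show (gj Γ G mt).rc (u - 1) ((gj Γ G mt).row ρ) + (G.T (u - 1) : ℤ) < p.1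
    linarith
  · show p.1 ≤ (gj Γ G mt).rc (u + 1) ((gj Γ G mt).row ρ) + (G.T (u + 1) : ℤ)
    linarith

/-- **An own slab whose node contains no row of `Sw` is regular.** -/
theorem rg86_own {Sw : Finset ℤ} (hM : (Γ.M : ℤ) ∈ Sw) {u : ℕ} (hu : 1 ≤ u) (hτ : τ ≤ u) (ρ : XS Γ G mt)
    (hs : ¬ HasSw Sw ((gj Γ G mt).ct (u - 1) ρ) ((gj Γ G mt).ct (u + 1) ρ)) : Rg86 Γ G τ u (G.loc u ρ.1) := by
  have h0 := (G.rcc_pos u ρ.1).le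
  have e1 := G.ra_cast h0
  refine ⟨hτ, h0, fun h => hs ⟨(Γ.M : ℤ), hM, ?_⟩⟩
  have h1 : ((((Γ.M : ℕ) : ℤ), (0 : ℤ)) : Pt) ∈ rws G u (G.loc u ρ.1) := by
    constructor
    · show (G.ra u (G.loc u ρ.1) : ℤ) ≤ ((Γ.M : ℕ) : ℤ)
      omega
    · show ((Γ.M : ℕ) : ℤ) ≤ (G.re u (G.loc u ρ.1) : ℤ)
      omega
  exact rws_btw hu ρ h1

/-- **THE CLAUSE `Lv`.** -/
theorem clLv86 {Sw : Finset ℤ} {E0 : ℕ} {dL : Cut (ℤ × ℤ) → Cut (ℤ × ℤ) → Env → ℕ}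
    {dN : Cut (ℤ × ℤ) → Cut (ℤ × ℤ) → Cut (ℤ × ℤ) → Env → ℕ} {scL : Cut (ℤ × ℤ) → Cut (ℤ × ℤ) → ℕ} {C0 : ℝ} {C2 D : ℕ}
    (hC : 1 ≤ C2) (hτ : 1 ≤ τ) (hE : 1 ≤ E0) (hM : (Γ.M : ℤ) ∈ Sw)
    (hdN : ∀ a b e η, dEN6 (EvN86 Γ G τ Lv) 1 a b e η ≤ dN a b e η) :
    Cl86 Γ G mt Sw E0 dL dN scL lbN6 C0 C2 D τ ∅ Lv := by
  intro η _ ρ u Z h1 _ _ h2 h3 h4
  have hu : 1 ≤ u := hτ.trans h1
  obtain ⟨P, Q, e⟩ := triple86 h2 hC hu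
  have hl : lbN6 ((gj Γ G mt).ct (u - 1) ρ) ((gj Γ G mt).ct u ρ) ((gj Γ G mt).ct (u + 1) ρ) = u := rfl
  have hs : ¬ HasSw Sw ((gj Γ G mt).ct (u - 1) ρ) ((gj Γ G mt).ct (u + 1) ρ) :=
    h4.nod_near hE e (by rw [hl]; omega) (by rw [hl]; omega)
  have h5 : η ∈ EvN86 Γ G τ Lv ((gj Γ G mt).ct (u - 1) ρ) ((gj Γ G mt).ct u ρ) ((gj Γ G mt).ct (u + 1) ρ) := by
    refine dEN6_good (v := 1) ?_
    by_contra hc
    exact h3.2 P _ _ _ Q e hs ⟨(not_lt.1 hc).trans (hdN _ _ _ _), by rw [hl]; omega, by rw [hl]; omega⟩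
  exact h5 (rws_btw hu ρ) (rg86_own hM hu h1 ρ hs)

end

end Pool.Agent.W_7d29a1_C1.PW86
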