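import Pool.Agent.W_7d29a1_C1.Near83
import Pool.Agent.W_7d29a1_C1.LocD91

/-!
Both halves (MP_7d29a1_pr), attractor route: THE CONTACTS OF ONE ROW. The sum of the weights `ws` of one row is at most
`2 + 2 X + 2 X' + (1 + N) exp (- X)` step weights (pointwise; the future does not enter), and the seam inequalities `ws ≤ C w`,
`ws ≤ C nm / (ZM ZR)` (helper83; the row sum is the lead's lemma, board 77853).
-/

set_option autoImplicit false

namespace Pool.Agent.W_7d29a1_C1.H83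

open Finset MeasureTheory
open Pool.Agent.W_7d29a1_F
open Pool.Agent.W_7d29a1_C1.K91 (Box Grp cut zs jn wt wt_pos measurable_wt sum_shift ps2)
open Pool.Agent.W_7d29a1_C1.K97 (rz tm)
open Pool.Agent.W_7d29a1_C1.K91P Pool.Agent.W_7d29a1_C1.H60
open Pool.Agent.W_7d29a1_C1.L91 (Msk Nb fC)

noncomputable section

/-! ### One row, abstract -/

section abs

theorem tele (F : ℤ → ℝ) (a : ℤ) : ∀ n : ℕ, ∑ y ∈ Icc (a + 1) (a + n), (F (y - 1) - F y) = F a - F (a + n)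
  | 0 => by
    have e : Icc (a + 1) (a + ((0 : ℕ) : ℤ)) = ∅ := by
      rw [Finset.Icc_eq_empty_iff]
      push_cast
      omega
    rw [e, sum_empty]
    simp
  | n + 1 => by
    have e : Icc (a + 1) (a + ((n + 1 : ℕ) : ℤ)) = insert (a + ((n + 1 : ℕ) : ℤ)) (Icc (a + 1) (a + (n : ℤ))) := by
      ext q
      simp only [mem_Icc, mem_insert]
      push_cast
      omega
    rw [e, sum_insert (by simp only [mem_Icc]; push_cast; omega), tele F a n]
    have e2 : a + ((n + 1 : ℕ) : ℤ) - 1 = a + n := by push_cast; ring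
    rw [e2]
    ring

theorem sub_le_log {a b : ℝ} (ha : 0 < a) (hb : 0 < b) : a - b ≤ a * (Real.log a - Real.log b) := by
  have h1 := Real.add_one_le_exp (Real.log b - Real.log a)
  rw [Real.exp_sub, Real.exp_log ha, Real.exp_log hb] at h1
  have h2 := mul_le_mul_of_nonneg_left h1 ha.le
  rw [mul_div_cancel₀ _ ha.ne'] at h2
  linarith

variable {A B G U V : ℤ → ℝ} {a b : ℤ} {X X' : ℝ}

/-- The weight of the cut `x`. -/
def tq (A B G U V : ℤ → ℝ) (x : ℤ) : ℝ := (A (x - 1) * B x - A x * B (x - 1)) * G (x - 1) ^ 2 / (U x * V x)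

/-- One row: `A`, `B` the masses of the two groups, `G` the profile, `U x`, `V x` the totals of the frame of `x`. -/
structure Rw (A B G U V : ℤ → ℝ) (a b : ℤ) : Prop where
  A0 : ∀ y, 0 ≤ A y
  B0 : ∀ y, 0 ≤ B y
  G0 : ∀ y, 0 < G y
  U0 : ∀ x, 0 < U x
  V0 : ∀ x, 0 < V x
  hU : ∀ x y, a - 1 ≤ y → y ≤ b → y < x → A y * G y ≤ U x
  hV : ∀ x y, a - 1 ≤ y → y ≤ b → x ≤ y → B y * G (y - 1) ≤ V x
  lgv : ∀ x y, x ≤ y → A y * B x ≤ A x * B y
  con : ∀ x y z, a - 1 ≤ x → x ≤ y → y ≤ z → 0 < A z → 0 < A y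

theorem tq_nonneg (h : Rw A B G U V a b) (x : ℤ) : 0 ≤ tq A B G U V x := by
  unfold tq
  have h1 := h.lgv (x - 1) x (by omega)
  have h2 := h.U0 x
  have h3 := h.V0 x
  have h4 := h.G0 (x - 1)
  exact div_nonneg (mul_nonneg (by linarith) (by positivity)) (by positivity)

/-- The weight is at most the product of the shares of the two neighbours. -/
theorem tq_le (h : Rw A B G U V a b) {x : ℤ} (ha : a ≤ x) (hb : x ≤ b) :
    tq A B G U V x ≤ A (x - 1) * G (x - 1) / U x ∧ tq A B G U V x ≤ B x * G (x - 1) / V x ∧ tq A B G U V x ≤ 1 := by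
  have h2 := h.U0 x
  have h3 := h.V0 x
  have h4 := h.G0 (x - 1)
  have a1 := h.A0 (x - 1)
  have a2 := h.A0 x
  have b1 := h.B0 (x - 1)
  have b2 := h.B0 x
  have u1 := h.hU x (x - 1) (by omega) (by omega) (by omega)
  have v1 := h.hV x x (by omega) (by omega) le_rfl
  have e1 : tq A B G U V x ≤ (A (x - 1) * G (x - 1) / U x) * (B x * G (x - 1) / V x) := by
    unfold tq
    rw [div_mul_div_comm]
    refine div_le_div_of_nonneg_right ?_ (by positivity)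
    have h5 : 0 ≤ A x * B (x - 1) * G (x - 1) ^ 2 := by positivity
    linarith
  have q1 : A (x - 1) * G (x - 1) / U x ≤ 1 := by
    rw [div_le_one h2]
    exact u1
  have q2 : B x * G (x - 1) / V x ≤ 1 := by
    rw [div_le_one h3]
    exact v1
  have q3 : 0 ≤ A (x - 1) * G (x - 1) / U x := by positivity
  have q4 : 0 ≤ B x * G (x - 1) / V x := by positivity
  refine ⟨e1.trans ?_, e1.trans ?_, e1.trans ?_⟩
  · exact mul_le_of_le_one_right q3 q2
  · exact mul_le_of_le_one_left q4 q1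
  · exact mul_le_one₀ q1 q4 q2

/-- The weight is at most the increment of the level. -/
theorem tq_log (h : Rw A B G U V a b) {x : ℤ} (ha : a ≤ x) (hb : x ≤ b) (p1 : 0 < A (x - 1)) (p2 : 0 < A x) (p3 : 0 < B (x - 1))
    (p4 : 0 < B x) : tq A B G U V x ≤ (Real.log (A (x - 1)) - Real.log (B (x - 1))) - (Real.log (A x) - Real.log (B x)) := by
  have h2 := h.U0 x
  have h3 := h.V0 x
  have h4 := h.G0 (x - 1)
  have u1 := h.hU x (x - 1) (by omega) (by omega) (by omega)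
  have v1 := h.hV x x (by omega) (by omega) le_rfl
  have h5 := sub_le_log (mul_pos p1 p4) (mul_pos p2 p3)
  rw [Real.log_mul p1.ne' p4.ne', Real.log_mul p2.ne' p3.ne'] at h5
  have h6 := h.lgv (x - 1) x (by omega)
  have h7 : 0 ≤ (Real.log (A (x - 1)) - Real.log (B (x - 1))) - (Real.log (A x) - Real.log (B x)) := by
    have := Real.log_le_log (mul_pos p2 p3) h6
    rw [Real.log_mul p1.ne' p4.ne', Real.log_mul p2.ne' p3.ne'] at this
    linarith
  unfold tq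
  rw [div_le_iff₀ (by positivity)]
  have e1 : (A (x - 1) * B x - A x * B (x - 1)) * G (x - 1) ^ 2 ≤
      (A (x - 1) * B x * (Real.log (A (x - 1)) + Real.log (B x) - (Real.log (A x) + Real.log (B (x - 1))))) * G (x - 1) ^ 2 :=
    mul_le_mul_of_nonneg_right h5 (by positivity)
  refine e1.trans ?_
  have e2 : (A (x - 1) * G (x - 1)) * (B x * G (x - 1)) ≤ U x * V x := mul_le_mul u1 v1 (by positivity) h2.le
  have e3 := mul_le_mul_of_nonneg_left e2 h7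
  refine le_trans (le_of_eq ?_) e3
  ring

/-- **The row sum.** -/
theorem row_abs (h : Rw A B G U V a b) (hX : 0 ≤ X) (hX' : 0 ≤ X') (hab : a ≤ b + 1)
    (hp : ∀ x, a ≤ x → x ≤ b → Real.exp (-X) ≤ tq A B G U V x → A x ≤ Real.exp X' * A (x - 1) ∧ B (x - 1) ≤ Real.exp X' * B x) :
    ∑ x ∈ Icc a b, tq A B G U V x ≤ 2 + 2 * X + 2 * X' + ((b - a + 1 : ℤ) : ℝ) * Real.exp (-X) := by
  obtain ⟨S, hS⟩ : ∃ S : Finset ℤ, S = (Icc a b).filter (fun x => Real.exp (-X) ≤ tq A B G U V x) := ⟨_, rfl⟩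
  have hsplit : ∑ x ∈ Icc a b, tq A B G U V x = ∑ x ∈ S, tq A B G U V x +
      ∑ x ∈ (Icc a b).filter (fun x => ¬ Real.exp (-X) ≤ tq A B G U V x), tq A B G U V x := by
    rw [hS, sum_filter_add_sum_filter_not]
  have hrest : ∑ x ∈ (Icc a b).filter (fun x => ¬ Real.exp (-X) ≤ tq A B G U V x), tq A B G U V x ≤
      ((b - a + 1 : ℤ) : ℝ) * Real.exp (-X) := by
    calc ∑ x ∈ (Icc a b).filter (fun x => ¬ Real.exp (-X) ≤ tq A B G U V x), tq A B G U V x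
        ≤ ∑ x ∈ (Icc a b).filter (fun x => ¬ Real.exp (-X) ≤ tq A B G U V x), Real.exp (-X) := by
          refine sum_le_sum fun x hx => ?_
          exact (not_le.1 (mem_filter.1 hx).2).le
      _ ≤ ∑ x ∈ Icc a b, Real.exp (-X) :=
          sum_le_sum_of_subset_of_nonneg (filter_subset _ _) fun x _ _ => (Real.exp_pos _).le
      _ = ((b - a + 1 : ℤ) : ℝ) * Real.exp (-X) := by
          rw [sum_const, Int.card_Icc, nsmul_eq_mul]
          congr 1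
          have e : (((b + 1 - a).toNat : ℤ)) = b - a + 1 := by omega
          exact_mod_cast e
  rw [hsplit]
  have hmain : ∑ x ∈ S, tq A B G U V x ≤ 2 + 2 * X + 2 * X' := by
    rcases S.eq_empty_or_nonempty with h0 | hne
    · rw [h0, sum_empty]
      linarith
    obtain ⟨q2, hq2⟩ : ∃ q2, q2 = S.min' hne := ⟨_, rfl⟩
    obtain ⟨q1, hq1⟩ : ∃ q1, q1 = S.max' hne := ⟨_, rfl⟩
    have m2 : q2 ∈ S := hq2 ▸ S.min'_mem hne
    have m1 : q1 ∈ S := hq1 ▸ S.max'_mem hne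
    have hlo : ∀ x ∈ S, q2 ≤ x := fun x hx => hq2 ▸ S.min'_le x hx
    have hhi : ∀ x ∈ S, x ≤ q1 := fun x hx => hq1 ▸ S.le_max' x hx
    rw [hS, mem_filter, mem_Icc] at m1 m2
    obtain ⟨⟨c1, c2⟩, c3⟩ := m1
    obtain ⟨⟨d1, d2⟩, d3⟩ := m2
    have t1 := tq_le h c1 c2
    have t2 := tq_le h d1 d2
    rcases eq_or_ne q1 q2 with heq | hneq
    · have e1 : S ⊆ {q2} := by
        intro x hx
        rw [mem_singleton]
        have := hlo x hx
        have := hhi x hx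
        omega
      calc ∑ x ∈ S, tq A B G U V x ≤ ∑ x ∈ ({q2} : Finset ℤ), tq A B G U V x :=
            sum_le_sum_of_subset_of_nonneg e1 fun x _ _ => tq_nonneg h x
        _ = tq A B G U V q2 := sum_singleton _ _
        _ ≤ _ := by linarith [t2.2.2]
    · have hlt : q2 < q1 := by
        have : q2 ≤ q1 := hlo q1 (by rw [hS, mem_filter, mem_Icc]; exact ⟨⟨c1, c2⟩, c3⟩)
        omega
      have ex := Real.exp_pos (-X)
      have s1 := c3.trans t1.1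
      have s2 := d3.trans t2.2.1
      have g1 := h.G0 (q1 - 1)
      have g2 := h.G0 (q2 - 1)
      have U1 := h.U0 q1
      have V2 := h.V0 q2
      -- positivity
      have pA1 : 0 < A (q1 - 1) := by
        rcases (h.A0 (q1 - 1)).lt_or_eq with h1 | h1
        · exact h1
        · rw [← h1, zero_mul, zero_div] at s1
          linarith
      have pB2 : 0 < B q2 := by
        rcases (h.B0 q2).lt_or_eq with h1 | h1
        · exact h1
        · rw [← h1, zero_mul, zero_div] at s2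
          linarith
      have pA : ∀ y, a - 1 ≤ y → y ≤ q1 - 1 → 0 < A y := fun y hy1 hy2 => h.con y y (q1 - 1) hy1 le_rfl hy2 pA1
      have pB : ∀ y, q2 ≤ y → y ≤ q1 - 1 → 0 < B y := by
        intro y hy1 hy2
        have l1 := h.lgv q2 y hy1
        have l2 : 0 < A y * B q2 := mul_pos (pA y (by omega) hy2) pB2
        have l3 : 0 < A q2 * B y := lt_of_lt_of_le l2 l1
        rcases (h.B0 y).lt_or_eq with h1 | h1
        · exact h1
        · rw [← h1, mul_zero] at l3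
          exact absurd l3 (lt_irrefl _)
      have pB1 : 0 < B q1 := by
        have s3 := c3.trans t1.2.1
        rcases (h.B0 q1).lt_or_eq with h1 | h1
        · exact h1
        · rw [← h1, zero_mul, zero_div] at s3
          linarith
      -- the two frames
      have f1 : Real.exp (-X) * (A (q2 - 1) * G (q2 - 1)) ≤ A (q1 - 1) * G (q1 - 1) := by
        rw [le_div_iff₀ U1] at s1
        exact (mul_le_mul_of_nonneg_left (h.hU q1 (q2 - 1) (by omega) (by omega) (by omega)) ex.le).trans s1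
      have f2 : Real.exp (-X) * (B q1 * G (q1 - 1)) ≤ B q2 * G (q2 - 1) := by
        rw [le_div_iff₀ V2] at s2
        exact (mul_le_mul_of_nonneg_left (h.hV q2 q1 (by omega) (by omega) hlt.le) ex.le).trans s2
      have pA2 : 0 < A (q2 - 1) := pA (q2 - 1) (by omega) (by omega)
      have f3 : -X + (Real.log (A (q2 - 1)) + Real.log (G (q2 - 1))) ≤ Real.log (A (q1 - 1)) + Real.log (G (q1 - 1)) := by
        have := Real.log_le_log (mul_pos ex (mul_pos pA2 g2)) f1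
        rwa [Real.log_mul ex.ne' (mul_pos pA2 g2).ne', Real.log_exp, Real.log_mul pA2.ne' g2.ne',
          Real.log_mul pA1.ne' g1.ne'] at this
      have f4 : -X + (Real.log (B q1) + Real.log (G (q1 - 1))) ≤ Real.log (B q2) + Real.log (G (q2 - 1)) := by
        have := Real.log_le_log (mul_pos ex (mul_pos pB1 g1)) f2
        rwa [Real.log_mul ex.ne' (mul_pos pB1 g1).ne', Real.log_exp, Real.log_mul pB1.ne' g1.ne',
          Real.log_mul pB2.ne' g2.ne'] at this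
      -- the one step ratios
      have r2 := (hp q2 d1 d2 d3).1
      have r1 := (hp q1 c1 c2 c3).2
      have pAq2 : 0 < A q2 := pA q2 (by omega) (by omega)
      have pBq1 : 0 < B (q1 - 1) := pB (q1 - 1) (by omega) le_rfl
      have k1 : Real.log (A q2) ≤ X' + Real.log (A (q2 - 1)) := by
        have := Real.log_le_log pAq2 r2
        rwa [Real.log_mul (Real.exp_pos _).ne' pA2.ne', Real.log_exp] at this
      have k2 : Real.log (B (q1 - 1)) ≤ X' + Real.log (B q1) := by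
        have := Real.log_le_log pBq1 r1
        rwa [Real.log_mul (Real.exp_pos _).ne' pB1.ne', Real.log_exp] at this
      -- the telescope
      obtain ⟨m, hm⟩ : ∃ m : ℕ, q1 - 1 = q2 + m := ⟨(q1 - 1 - q2).toNat, by omega⟩
      have hT : ∑ x ∈ Icc (q2 + 1) (q2 + m), tq A B G U V x ≤
          (Real.log (A q2) - Real.log (B q2)) - (Real.log (A (q1 - 1)) - Real.log (B (q1 - 1))) := by
        have e1 := tele (fun y => Real.log (A y) - Real.log (B y)) q2 m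
        rw [hm, ← e1]
        refine sum_le_sum fun x hx => ?_
        rw [mem_Icc] at hx
        exact tq_log h (by omega) (by omega) (pA _ (by omega) (by omega)) (pA _ (by omega) (by omega))
          (pB _ (by omega) (by omega)) (pB _ (by omega) (by omega))
      have hsub : S ⊆ insert q2 (insert q1 (Icc (q2 + 1) (q2 + m))) := by
        intro x hx
        have l1 := hlo x hx
        have l2 := hhi x hx
        rw [mem_insert, mem_insert, mem_Icc]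
        omega
      calc ∑ x ∈ S, tq A B G U V x ≤ ∑ x ∈ insert q2 (insert q1 (Icc (q2 + 1) (q2 + m))), tq A B G U V x :=
            sum_le_sum_of_subset_of_nonneg hsub fun x _ _ => tq_nonneg h x
        _ = tq A B G U V q2 + (tq A B G U V q1 + ∑ x ∈ Icc (q2 + 1) (q2 + m), tq A B G U V x) := by
            rw [sum_insert (by rw [mem_insert, mem_Icc]; omega), sum_insert (by rw [mem_Icc]; omega)]
        _ ≤ _ := by linarith [t1.2.2, t2.2.2]
  linarith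

end abs

/-! ### The contexts -/

section ctx

variable {Γ : Cx} {η : Env} {i : ℕ} {x : ℤ} {X X' : ℝ}

/-- The masses of the two groups and the totals of the frames. -/
def Ar (Γ : Cx) (η : Env) (i : ℕ) (y : ℤ) : ℝ := fw (wt η) Γ.p Cx.l i y * wt η i y

def Br (Γ : Cx) (η : Env) (i : ℕ) (y : ℤ) : ℝ := fw (wt η) Γ.p Γ.r i y * wt η i y

def Ur (Γ : Cx) (η : Env) (i : ℕ) (x : ℤ) : ℝ := zs (Icc 0 Γ.hi) (fw (wt η) Γ.p Cx.l i) (wt η i) (GG (wt η) Γ.p Γ.N i) x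

def Vr (Γ : Cx) (η : Env) (i : ℕ) (x : ℤ) : ℝ := zs (Icc 0 Γ.hi) (fw (wt η) Γ.p Γ.r i) (wt η i) (GG (wt η) Γ.p Γ.N i) x

theorem fw_l_pos (η : Env) : ∀ (k : ℕ) (y : ℤ), 0 ≤ y → y ≤ k → 0 < fw (wt η) Γ.p Cx.l k y
  | 0, y, h0, h1 => by
    have e : y = 0 := by
      push_cast at h1
      omega
    rw [e]
    show (0 : ℝ) < Cx.l 0
    unfold Cx.l
    rw [if_pos rfl]
    exact one_pos
  | k + 1, y, h0, h1 => by
    push_cast at h1
    rw [fw_succ]
    have a1 := wt_pos η k y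
    have a2 := wt_pos η k (y - 1)
    have a3 := fw_nonneg (wt_pos η) (p_pos (Γ := Γ)) l_nonneg k y
    have a4 := fw_nonneg (wt_pos η) (p_pos (Γ := Γ)) l_nonneg k (y - 1)
    have a5 := p_pos (Γ := Γ) k
    rcases le_or_gt y k with h | h
    · have a6 := fw_l_pos η k y h0 h
      positivity
    · have a6 := fw_l_pos η k (y - 1) (by omega) (by omega)
      positivity

theorem Ur_pos (hG : Msk Γ) (x : ℤ) : 0 < Ur Γ η i x := by
  have hf : ∀ y, 0 < fC Γ η i y := fun y => bw_pos (wt_pos η) p_pos _ _ _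
  have hhi : (0 : ℤ) ≤ Γ.hi := by unfold Cx.hi; positivity
  exact K91P.rz_pos (p_pos i) (wt_pos η i) hf (fw_nonneg (wt_pos η) p_pos l_nonneg i) ⟨0, mem_Icc.2 ⟨le_rfl, hhi⟩,
    fw_l_pos η i 0 le_rfl (by positivity)⟩ x

theorem Vr_pos (hG : Msk Γ) (x : ℤ) : 0 < Vr Γ η i x := by
  have hf : ∀ y, 0 < fC Γ η i y := fun y => bw_pos (wt_pos η) p_pos _ _ _
  obtain ⟨y, hy⟩ := L91.r_pos hG
  have h1 : 1 ≤ y ∧ y ≤ Γ.k := by
    by_contra hc
    rw [L91.r_out hc] at hy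
    exact lt_irrefl _ hy
  exact K91P.rz_pos (p_pos i) (wt_pos η i) hf (fw_nonneg (wt_pos η) p_pos (r_nonneg hG.q0) i) ⟨y, mem_Icc.2
    ⟨by omega, by unfold Cx.hi; omega⟩, K91P.fw_stay (wt_pos η) p_pos (r_nonneg hG.q0) hy i⟩ x

/-- A row of a context. -/
theorem rw83 (hG : Msk Γ) : Rw (Ar Γ η i) (Br Γ η i) (GG (wt η) Γ.p Γ.N i) (Ur Γ η i) (Vr Γ η i) 1 (1 + Γ.N) where
  A0 := fun y => mul_nonneg (fw_nonneg (wt_pos η) p_pos l_nonneg i y) (wt_pos η i y).le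
  B0 := fun y => mul_nonneg (fw_nonneg (wt_pos η) p_pos (r_nonneg hG.q0) i y) (wt_pos η i y).le
  G0 := fun y => GG_pos (wt_pos η) p_pos i y
  U0 := Ur_pos hG
  V0 := Vr_pos hG
  hU := fun x y h1 h2 h3 => by
    have hk := hG.k1
    have h := zs_ge (S := Icc 0 Γ.hi) (q := x) (y := y) (fw_nonneg (p := Γ.p) (wt_pos η) p_pos l_nonneg i) (wt_pos η i)
      (GG_pos (N := Γ.N) (wt_pos η) (p_pos (Γ := Γ)) i) (by
        rw [mem_Icc]
        unfold Cx.hi
        omega)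
    rwa [if_pos h3] at h
  hV := fun x y h1 h2 h3 => by
    have hk := hG.k1
    have h := zs_ge (S := Icc 0 Γ.hi) (q := x) (y := y) (fw_nonneg (p := Γ.p) (wt_pos η) p_pos (r_nonneg hG.q0) i) (wt_pos η i)
      (GG_pos (N := Γ.N) (wt_pos η) (p_pos (Γ := Γ)) i) (by
        rw [mem_Icc]
        unfold Cx.hi
        omega)
    rwa [if_neg (by omega)] at h
  lgv := fun x y hxy => by
    have h := dp_nonneg (wt_pos η) (p_pos (Γ := Γ)) (box hG.k1 hG.q0).g i x y hxy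
    unfold dp at h
    have h1 := wt_pos η i x
    have h2 := wt_pos η i y
    unfold Ar Br
    have h3 : 0 ≤ (fw (wt η) Γ.p Cx.l i x * fw (wt η) Γ.p Γ.r i y - fw (wt η) Γ.p Cx.l i y * fw (wt η) Γ.p Γ.r i x) *
      (wt η i x * wt η i y) := by positivity
    linarith
  con := fun x y z h1 h2 h3 hz => by
    have hz1 : z ≤ i := by
      by_contra hc
      have e : fw (wt η) Γ.p Cx.l i z = 0 := fw_hi (B := 0) (fun u hu => by
        unfold Cx.l
        rw [if_neg (by omega)]) i z (by omega)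
      unfold Ar at hz
      rw [e, zero_mul] at hz
      exact lt_irrefl _ hz
    exact mul_pos (fw_l_pos η i y (by omega) (by omega)) (wt_pos η i y)

theorem ws_tq (η : Env) (i : ℕ) (x : ℤ) :
    Γ.ws (i, x) η = Γ.p i * tq (Ar Γ η i) (Br Γ η i) (GG (wt η) Γ.p Γ.N i) (Ur Γ η i) (Vr Γ η i) x := by
  unfold Cx.ws tq Ar Br Ur Vr dp
  ring

/-- **THE ROW SUM** (board 77853). `X'` bounds the one step ratios of the past at the contacts of weight at least `exp (- X)`. -/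
theorem row_sum83 (hG : Msk Γ) (hX : 0 ≤ X) (hX' : 0 ≤ X')
    (hp : ∀ x, 1 ≤ x → x ≤ 1 + (Γ.N : ℤ) → Γ.p i * Real.exp (-X) ≤ Γ.ws (i, x) η →
      Ar Γ η i x ≤ Real.exp X' * Ar Γ η i (x - 1) ∧ Br Γ η i (x - 1) ≤ Real.exp X' * Br Γ η i x) :
    ∑ x ∈ Icc (1 : ℤ) (1 + (Γ.N : ℤ)), Γ.ws (i, x) η ≤ Γ.p i * (2 + 2 * X + 2 * X' + ((Γ.N : ℝ) + 1) * Real.exp (-X)) := by
  have hpi := p_pos (Γ := Γ) i
  have h := row_abs (rw83 (η := η) (i := i) hG) hX hX' (by omega) fun x h1 h2 h3 => hp x h1 h2 (by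
    rw [ws_tq]
    exact mul_le_mul_of_nonneg_left h3 hpi.le)
  have e : ((1 + (Γ.N : ℤ) - 1 + 1 : ℤ) : ℝ) = (Γ.N : ℝ) + 1 := by
    push_cast
    ring
  rw [e] at h
  have h2 := mul_le_mul_of_nonneg_left h hpi.le
  rw [mul_sum] at h2
  refine le_trans (le_of_eq ?_) h2
  exact sum_congr rfl fun x _ => ws_tq η i x

/-! ### The seam -/

/-- The totals of the frame against the totals. -/
theorem frame_tot (hG : Msk Γ) (hi : i < Γ.N) (hX : Nb Γ η i X) (x : ℤ) :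
    (Ur Γ η i x ≤ Real.exp X * Γ.ZM η ∧ Γ.ZM η ≤ Real.exp X * Ur Γ η i x) ∧
      (Vr Γ η i x ≤ Real.exp X * Γ.ZR η ∧ Γ.ZR η ≤ Real.exp X * Vr Γ η i x) := by
  have hl0 := fw_nonneg (w := wt η) (p := Γ.p) (wt_pos η) p_pos l_nonneg i
  have hr0 := fw_nonneg (w := wt η) (p := Γ.p) (wt_pos η) p_pos (r_nonneg hG.q0) i
  have hf : ∀ y, 0 < fC Γ η i y := fun y => bw_pos (wt_pos η) p_pos _ _ _
  have hhi : (0 : ℤ) ≤ Γ.hi := by unfold Cx.hi; positivity
  have el : ∃ y ∈ Icc (0 : ℤ) Γ.hi, 0 < fw (wt η) Γ.p Cx.l i y :=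
    ⟨0, mem_Icc.2 ⟨le_rfl, hhi⟩, fw_l_pos η i 0 le_rfl (by positivity)⟩
  have er : ∃ y ∈ Icc (0 : ℤ) Γ.hi, 0 < fw (wt η) Γ.p Γ.r i y := by
    obtain ⟨y, hy⟩ := L91.r_pos hG
    have h1 : 1 ≤ y ∧ y ≤ Γ.k := by
      by_contra hc
      rw [L91.r_out hc] at hy
      exact lt_irrefl _ hy
    exact ⟨y, mem_Icc.2 ⟨by omega, by unfold Cx.hi; omega⟩, K91P.fw_stay (wt_pos η) p_pos (r_nonneg hG.q0) hy i⟩
  have hXG : ∀ y ∈ Icc (0 : ℤ) Γ.hi, |Real.log (fC Γ η i (y - 1) + Γ.p i * fC Γ η i y) -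
      Real.log (fC Γ η i y + Γ.p i * fC Γ η i (y + 1))| ≤ X := by
    intro y hy
    have := hX.G y hy
    rw [L91.GG_fC, L91.GG_fC, sub_add_cancel] at this
    exact this
  have k1 := L91.log_rz_tm (q := x) (p_pos (Γ := Γ) i) (wt_pos η i) hf hl0 el hX.X0 hXG
  have k2 := L91.log_rz_tm (q := x) (p_pos (Γ := Γ) i) (wt_pos η i) hf hr0 er hX.X0 hXG
  have t1 : tm 0 Γ.hi (Γ.p i) (wt η i) (fw (wt η) Γ.p Cx.l i) (fC Γ η i) = Γ.ZM η := by
    have h := K91P.tm_l (w := wt η) (p := Γ.p) (L91.boxC1 hG) L91.l0_pos hi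
    rw [L91.sum_l] at h
    exact h
  have t2 : tm 0 Γ.hi (Γ.p i) (wt η i) (fw (wt η) Γ.p Γ.r i) (fC Γ η i) = Γ.ZR η :=
    K91P.tm_r (w := wt η) (p := Γ.p) (L91.boxC1 hG) (L91.r_pos hG) hi
  rw [t1] at k1
  rw [t2] at k2
  exact ⟨L91.le_of_log (Ur_pos hG x) (ZM_pos η) k1, L91.le_of_log (Vr_pos hG x) (ZR_pos hG.k1 hG.q0 hG.q1 η) k2⟩

/-- The determinant part of the weights. -/
def Dw (Γ : Cx) (η : Env) (i : ℕ) (x : ℤ) : ℝ := dp (wt η) Γ.p Cx.l Γ.r i (x - 1) x * (wt η i (x - 1) * wt η i x)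

theorem Dw_nonneg (hG : Msk Γ) (x : ℤ) : 0 ≤ Dw Γ η i x :=
  mul_nonneg (dp_nonneg (wt_pos η) (p_pos (Γ := Γ)) (box hG.k1 hG.q0).g i _ _ (by omega))
    (mul_pos (wt_pos η i (x - 1)) (wt_pos η i x)).le

theorem ws_Dw (η : Env) (i : ℕ) (x : ℤ) :
    Γ.ws (i, x) η = Γ.p i * Dw Γ η i x * GG (wt η) Γ.p Γ.N i (x - 1) ^ 2 / (Ur Γ η i x * Vr Γ η i x) := by
  unfold Cx.ws Ur Vr Dw
  ring

theorem w_Dw (η : Env) (i : ℕ) (x : ℤ) :
    Γ.w (i, x) η = Γ.p i * Dw Γ η i x * fC Γ η i x ^ 2 / (Γ.ZM η * Γ.ZR η) := by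
  unfold Cx.w Dw fC
  ring

/-- **THE SEAM**: the weight in the frame against the natural weight. -/
theorem seam83 (hG : Msk Γ) (hi : i < Γ.N) (hX : Nb Γ η i X) (hx1 : 1 ≤ x) (hx2 : x ≤ 1 + (Γ.N : ℤ)) :
    Γ.ws (i, x) η ≤ Real.exp (4 * X) * (1 + Γ.p i) ^ 2 * Γ.w (i, x) η := by
  have hk := hG.k1
  obtain ⟨⟨_, u2⟩, ⟨_, v2⟩⟩ := frame_tot hG hi hX x
  have hp := p_pos (Γ := Γ) i
  have f0 : 0 < fC Γ η i (x - 1) := bw_pos (wt_pos η) p_pos _ _ _
  have f1 : 0 < fC Γ η i x := bw_pos (wt_pos η) p_pos _ _ _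
  have hf := (L91.le_of_log f0 f1 (hX.f x (mem_Icc.2 ⟨hx1, by unfold Cx.hi; omega⟩))).1
  have hX1 : (1 : ℝ) ≤ Real.exp X := Real.one_le_exp hX.X0
  have hU := Ur_pos (η := η) (i := i) hG x
  have hV := Vr_pos (η := η) (i := i) hG x
  have hM := ZM_pos (Γ := Γ) η
  have hR := ZR_pos hG.k1 hG.q0 hG.q1 η
  have hD := Dw_nonneg (η := η) (i := i) hG x
  have hGG : GG (wt η) Γ.p Γ.N i (x - 1) ≤ Real.exp X * (1 + Γ.p i) * fC Γ η i x := by
    rw [L91.GG_fC, sub_add_cancel]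
    have h2 : Γ.p i * fC Γ η i x ≤ Real.exp X * (Γ.p i * fC Γ η i x) := le_mul_of_one_le_left (by positivity) hX1
    linarith
  have hGG0 : 0 ≤ GG (wt η) Γ.p Γ.N i (x - 1) := (GG_pos (wt_pos η) p_pos i _).le
  rw [ws_Dw, w_Dw]
  have h1 : GG (wt η) Γ.p Γ.N i (x - 1) ^ 2 ≤ (Real.exp X * (1 + Γ.p i) * fC Γ η i x) ^ 2 := pow_le_pow_left₀ hGG0 hGG 2
  have h2 : Γ.ZM η * Γ.ZR η ≤ (Real.exp X * Ur Γ η i x) * (Real.exp X * Vr Γ η i x) := mul_le_mul u2 v2 hR.le (by positivity)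
  have e4 : Real.exp (4 * X) = Real.exp X ^ 4 := by
    rw [← Real.exp_nat_mul]
    norm_num
  rw [e4, div_le_iff₀ (mul_pos hU hV)]
  have h3 : Γ.p i * Dw Γ η i x * GG (wt η) Γ.p Γ.N i (x - 1) ^ 2 ≤
      Γ.p i * Dw Γ η i x * (Real.exp X * (1 + Γ.p i) * fC Γ η i x) ^ 2 := mul_le_mul_of_nonneg_left h1 (by positivity)
  refine h3.trans ?_
  have h4 : Γ.p i * Dw Γ η i x * (Real.exp X * (1 + Γ.p i) * fC Γ η i x) ^ 2 =
      (Γ.p i * Dw Γ η i x * (Real.exp X * (1 + Γ.p i) * fC Γ η i x) ^ 2 / (Γ.ZM η * Γ.ZR η)) * (Γ.ZM η * Γ.ZR η) := by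
    rw [div_mul_cancel₀]
    positivity
  rw [h4]
  refine (mul_le_mul_of_nonneg_left h2 (by positivity)).trans (le_of_eq ?_)
  ring

/-- The natural weight against the weight in the frame. -/
theorem seam83' (hG : Msk Γ) (hi : i < Γ.N) (hX : Nb Γ η i X) (x : ℤ) :
    Γ.p i ^ 2 * Γ.w (i, x) η ≤ Real.exp (2 * X) * Γ.ws (i, x) η := by
  obtain ⟨⟨u1, _⟩, ⟨v1, _⟩⟩ := frame_tot hG hi hX x
  have hp := p_pos (Γ := Γ) i
  have f0 : 0 < fC Γ η i (x - 1) := bw_pos (wt_pos η) p_pos _ _ _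
  have f1 : 0 < fC Γ η i x := bw_pos (wt_pos η) p_pos _ _ _
  have hU := Ur_pos (η := η) (i := i) hG x
  have hV := Vr_pos (η := η) (i := i) hG x
  have hM := ZM_pos (Γ := Γ) η
  have hR := ZR_pos hG.k1 hG.q0 hG.q1 η
  have hD := Dw_nonneg (η := η) (i := i) hG x
  have hGG : Γ.p i * fC Γ η i x ≤ GG (wt η) Γ.p Γ.N i (x - 1) := by
    rw [L91.GG_fC, sub_add_cancel]
    linarith
  rw [ws_Dw, w_Dw]
  have h1 : (Γ.p i * fC Γ η i x) ^ 2 ≤ GG (wt η) Γ.p Γ.N i (x - 1) ^ 2 := pow_le_pow_left₀ (by positivity) hGG 2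
  have h2 : Ur Γ η i x * Vr Γ η i x ≤ (Real.exp X * Γ.ZM η) * (Real.exp X * Γ.ZR η) := mul_le_mul u1 v1 hV.le (by positivity)
  have e4 : Real.exp (2 * X) = Real.exp X ^ 2 := by
    rw [← Real.exp_nat_mul]
    norm_num
  have h3 : Γ.p i ^ 2 * (Γ.p i * Dw Γ η i x * fC Γ η i x ^ 2 / (Γ.ZM η * Γ.ZR η)) =
      Γ.p i * Dw Γ η i x * (Γ.p i * fC Γ η i x) ^ 2 / (Γ.ZM η * Γ.ZR η) := by ring
  rw [h3, e4, div_le_iff₀ (mul_pos hM hR)]
  have h4 : Γ.p i * Dw Γ η i x * (Γ.p i * fC Γ η i x) ^ 2 ≤ Γ.p i * Dw Γ η i x * GG (wt η) Γ.p Γ.N i (x - 1) ^ 2 :=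
    mul_le_mul_of_nonneg_left h1 (by positivity)
  refine h4.trans ?_
  have h5 : Γ.p i * Dw Γ η i x * GG (wt η) Γ.p Γ.N i (x - 1) ^ 2 =
      (Γ.p i * Dw Γ η i x * GG (wt η) Γ.p Γ.N i (x - 1) ^ 2 / (Ur Γ η i x * Vr Γ η i x)) * (Ur Γ η i x * Vr Γ η i x) := by
    rw [div_mul_cancel₀]
    positivity
  have h6 := mul_le_mul_of_nonneg_left h2 (show 0 ≤ Γ.p i * Dw Γ η i x * GG (wt η) Γ.p Γ.N i (x - 1) ^ 2 /
    (Ur Γ η i x * Vr Γ η i x) by positivity)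
  rw [← h5] at h6
  refine h6.trans (le_of_eq ?_)
  ring

/-- **The weight in the frame against the pairs which have not met.** -/
theorem ws_nm83 (hG : Msk Γ) (hi : i < Γ.N) (hX : Nb Γ η i X) (hx1 : 1 ≤ x) (hx2 : x ≤ 1 + (Γ.N : ℤ)) :
    Γ.ws (i, x) η ≤ Real.exp (3 * X) * Γ.p i * (nm (wt η) Γ.p Cx.l Γ.r 0 Γ.hi Γ.N i / (Γ.ZM η * Γ.ZR η)) := by
  have hk := hG.k1
  obtain ⟨⟨_, u2⟩, ⟨_, v2⟩⟩ := frame_tot hG hi hX x
  have hp := p_pos (Γ := Γ) i
  have g0 : 0 < GG (wt η) Γ.p Γ.N i (x - 1) := GG_pos (wt_pos η) p_pos i _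
  have g1 : 0 < GG (wt η) Γ.p Γ.N i x := GG_pos (wt_pos η) p_pos i _
  have hgx : x ∈ Icc (0 : ℤ) Γ.hi := by
    rw [mem_Icc]
    unfold Cx.hi
    omega
  have hgx1 : x - 1 ∈ Icc (0 : ℤ) Γ.hi := by
    rw [mem_Icc]
    unfold Cx.hi
    omega
  have hg := (L91.le_of_log g0 g1 (hX.G x hgx)).1
  have hU := Ur_pos (η := η) (i := i) hG x
  have hV := Vr_pos (η := η) (i := i) hG x
  have hM := ZM_pos (Γ := Γ) η
  have hR := ZR_pos hG.k1 hG.q0 hG.q1 η
  have hD := Dw_nonneg (η := η) (i := i) hG x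
  -- one term of the sum
  have hnm : Dw Γ η i x * (GG (wt η) Γ.p Γ.N i (x - 1) * GG (wt η) Γ.p Γ.N i x) ≤ nm (wt η) Γ.p Cx.l Γ.r 0 Γ.hi Γ.N i := by
    have hterm : ∀ x' ∈ Icc (0 : ℤ) Γ.hi, ∀ y' ∈ Icc (0 : ℤ) Γ.hi, 0 ≤ dp (wt η) Γ.p Cx.l Γ.r i x' y' *
        (if x' < y' then bw (wt η) Γ.p i (Γ.N - i) x' * bw (wt η) Γ.p i (Γ.N - i) y' else 0) := by
      intro x' _ y' _
      by_cases hxy : x' < y'
      · rw [if_pos hxy]
        exact mul_nonneg (dp_nonneg (wt_pos η) (p_pos (Γ := Γ)) (box hG.k1 hG.q0).g i _ _ hxy.le)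
          (mul_nonneg (bw_pos (wt_pos η) p_pos _ _ _).le (bw_pos (wt_pos η) p_pos _ _ _).le)
      · rw [if_neg hxy, mul_zero]
    unfold nm ps2
    have s1 := single_le_sum (f := fun x' => ∑ y' ∈ Icc (0 : ℤ) Γ.hi, dp (wt η) Γ.p Cx.l Γ.r i x' y' *
      (if x' < y' then bw (wt η) Γ.p i (Γ.N - i) x' * bw (wt η) Γ.p i (Γ.N - i) y' else 0))
      (fun x' hx' => sum_nonneg fun y' hy' => hterm x' hx' y' hy') hgx1
    have s2 := single_le_sum (f := fun y' => dp (wt η) Γ.p Cx.l Γ.r i (x - 1) y' *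
      (if x - 1 < y' then bw (wt η) Γ.p i (Γ.N - i) (x - 1) * bw (wt η) Γ.p i (Γ.N - i) y' else 0))
      (fun y' hy' => hterm (x - 1) hgx1 y' hy') hgx
    refine le_trans (le_of_eq ?_) (s2.trans s1)
    show _ = dp (wt η) Γ.p Cx.l Γ.r i (x - 1) x *
      (if x - 1 < x then bw (wt η) Γ.p i (Γ.N - i) (x - 1) * bw (wt η) Γ.p i (Γ.N - i) x else 0)
    rw [if_pos (show x - 1 < x by omega), bw_eq hi, bw_eq hi]
    unfold Dw
    ring
  rw [ws_Dw, div_le_iff₀ (mul_pos hU hV)]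
  have e4 : Real.exp (3 * X) = Real.exp X ^ 3 := by
    rw [← Real.exp_nat_mul]
    norm_num
  have h1 : Γ.p i * Dw Γ η i x * GG (wt η) Γ.p Γ.N i (x - 1) ^ 2 ≤
      Γ.p i * (Real.exp X * (Dw Γ η i x * (GG (wt η) Γ.p Γ.N i (x - 1) * GG (wt η) Γ.p Γ.N i x))) := by
    have h2 := mul_le_mul_of_nonneg_left hg (show 0 ≤ Γ.p i * Dw Γ η i x * GG (wt η) Γ.p Γ.N i (x - 1) by positivity)
    refine le_trans (le_of_eq ?_) (h2.trans (le_of_eq ?_))
    · ring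
    · ring
  have h2 : Γ.p i * (Real.exp X * (Dw Γ η i x * (GG (wt η) Γ.p Γ.N i (x - 1) * GG (wt η) Γ.p Γ.N i x))) ≤
      Γ.p i * (Real.exp X * nm (wt η) Γ.p Cx.l Γ.r 0 Γ.hi Γ.N i) :=
    mul_le_mul_of_nonneg_left (mul_le_mul_of_nonneg_left hnm (Real.exp_pos X).le) hp.le
  have hnm0 : 0 ≤ nm (wt η) Γ.p Cx.l Γ.r 0 Γ.hi Γ.N i := nm_nonneg (wt_pos η) p_pos (box hG.k1 hG.q0).g i
  have h3 : Γ.ZM η * Γ.ZR η ≤ (Real.exp X * Ur Γ η i x) * (Real.exp X * Vr Γ η i x) := mul_le_mul u2 v2 hR.le (by positivity)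
  refine (h1.trans h2).trans ?_
  have h4 : Γ.p i * (Real.exp X * nm (wt η) Γ.p Cx.l Γ.r 0 Γ.hi Γ.N i) =
      (Γ.p i * Real.exp X * (nm (wt η) Γ.p Cx.l Γ.r 0 Γ.hi Γ.N i / (Γ.ZM η * Γ.ZR η))) * (Γ.ZM η * Γ.ZR η) := by
    field_simp
  rw [h4, e4]
  refine (mul_le_mul_of_nonneg_left h3 (by positivity)).trans (le_of_eq ?_)
  ring

end ctx

end

end Pool.Agent.W_7d29a1_C1.H83
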