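import Pool.Agent.W_7d29a1_C1.Sig54
import Pool.Agent.W_7d29a1_C1.RowS83

/-!
MP_7d29a1_pr, [C1], (Y) BY CORNERS: THE CONTACT IN THE MIRROR FRAME AGAINST THE NATURAL WEIGHT. (helper83)

`sg i` = the rows after `i` one column further right (helper54). If the logarithms of the masses of neighbouring sites differ by at most
`X` (`NB54`): `ws ≤ e^(4X) (1+p)² w` at `η` and at `sg i η` (the right side always at `η`), hence `|C|` at `η` and at `sg i η` is at most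
`Kr w` with `Kr = KC Γ i u X e^(4X) (1+p)²`; `w` at `sg i η` and `w` at `η` differ by at most `e^(4X)`.
-/

set_option autoImplicit false

namespace Pool.Agent.W_7d29a1_C1.M83

open Finset MeasureTheory
open Pool.Agent.W_7d29a1_F
open Pool.Agent.W_7d29a1_C1.K91 (Box Grp cut zs jn wt wt_pos)
open Pool.Agent.W_7d29a1_C1.K91P Pool.Agent.W_7d29a1_C1.H60
open Pool.Agent.W_7d29a1_C1.L91 (Msk Nb fC KC)
open Pool.Agent.W_7d29a1_C1.H83
open Pool.Agent.W_7d29a1_C1.H54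

noncomputable section

theorem msk {Γ : Cx} (h : Cx.Ok Γ) : Msk Γ := ⟨h.1, h.2, h.3⟩

/-- The total of a frame which reads the shifted future. -/
theorem zs_shift {m u G G' : ℤ → ℝ} {hi b x : ℤ} {X : ℝ} (m0 : ∀ y, 0 ≤ m y) (m1 : ∀ y, b < y → m y = 0) (hu : ∀ y, 0 < u y)
    (hG' : ∀ y, G' y = G (y + 1)) (hX : 0 ≤ X) (G0 : ∀ y, 0 < G y)
    (hG : ∀ y ∈ Icc (0 : ℤ) b, G (y + 1) ≤ Real.exp X * G y ∧ G y ≤ Real.exp X * G (y + 1)) :
    zs (Icc 0 hi) m u G' x ≤ Real.exp X * ∑ y ∈ Icc (0 : ℤ) hi, m y * (u y * G y) ∧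
      ∑ y ∈ Icc (0 : ℤ) hi, m y * (u y * G y) ≤ Real.exp X * zs (Icc 0 hi) m u G' x := by
  have hX1 : (1 : ℝ) ≤ Real.exp X := Real.one_le_exp hX
  have key : ∀ y ∈ Icc (0 : ℤ) hi, m y ≠ 0 → (if y < x then G' y else G' (y - 1)) ≤ Real.exp X * G y ∧
      G y ≤ Real.exp X * (if y < x then G' y else G' (y - 1)) := by
    intro y hy hm
    have hyb : y ≤ b := by
      by_contra hc
      exact hm (m1 y (by omega))
    have h0 := (mem_Icc.1 hy).1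
    split_ifs
    · rw [hG']
      exact hG y (mem_Icc.2 ⟨h0, hyb⟩)
    · rw [hG', sub_add_cancel]
      exact ⟨le_mul_of_one_le_left (G0 y).le hX1, le_mul_of_one_le_left (G0 y).le hX1⟩
  unfold zs
  constructor
  · rw [mul_sum]
    refine sum_le_sum fun y hy => ?_
    by_cases hm : m y = 0
    · rw [hm]
      simp
    · have h1 := mul_le_mul_of_nonneg_left (key y hy hm).1 (mul_nonneg (m0 y) (hu y).le)
      refine h1.trans (le_of_eq ?_)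
      ring
  · rw [mul_sum]
    refine sum_le_sum fun y hy => ?_
    by_cases hm : m y = 0
    · rw [hm]
      simp
    · have h1 := mul_le_mul_of_nonneg_left (key y hy hm).2 (mul_nonneg (m0 y) (hu y).le)
      calc m y * (u y * G y) = m y * u y * G y := by ring
        _ ≤ _ := h1
        _ = _ := by ring

variable {Γ : Cx} {η : Env} {i : ℕ} {x : ℤ} {u X : ℝ}

theorem X_nonneg (h : NB54 Γ X η) : 0 ≤ X := by
  have hhi : (0 : ℤ) ≤ Γ.hi := by unfold Cx.hi; positivity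
  exact (abs_nonneg _).trans (h 0 0 (by omega) 0 (mem_Icc.2 ⟨le_rfl, by omega⟩))

/-- The ratios of the futures. -/
theorem f_ratio (h : NB54 Γ X η) (hi : i < Γ.N) {y : ℤ} (h0 : 0 ≤ y) (h1 : y ≤ Γ.hi + 1) :
    fC Γ η i y ≤ Real.exp X * fC Γ η i (y - 1) ∧ fC Γ η i (y - 1) ≤ Real.exp X * fC Γ η i y := by
  have f0 : ∀ y, 0 < fC Γ η i y := fun y => bw_pos (wt_pos η) p_pos _ _ _
  exact L91.le_of_log (f0 y) (f0 (y - 1)) (h (i + 1) (Γ.N - (i + 1)) (by omega) y (mem_Icc.2 ⟨h0, h1⟩))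

/-- The totals of the mirror frame against the totals. -/
theorem tot_sg (hG : Msk Γ) (hi : i < Γ.N) (h : NB54 Γ X η) (x : ℤ) :
    (Ur Γ (sg i η) i x ≤ Real.exp X * Γ.ZM η ∧ Γ.ZM η ≤ Real.exp X * Ur Γ (sg i η) i x) ∧
      (Vr Γ (sg i η) i x ≤ Real.exp X * Γ.ZR η ∧ Γ.ZR η ≤ Real.exp X * Vr Γ (sg i η) i x) := by
  have hX := X_nonneg h
  have hhi : (0 : ℤ) ≤ Γ.hi := by unfold Cx.hi; positivity
  have hk1 : (1 : ℤ) ≤ Γ.k := by exact_mod_cast hG.k1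
  have hNx := h.nx hi
  have G0 : ∀ y, 0 < GG (wt η) Γ.p Γ.N i y := fun y => GG_pos (wt_pos η) p_pos i y
  have hR : ∀ y ∈ Icc (0 : ℤ) (Γ.k + i), GG (wt η) Γ.p Γ.N i (y + 1) ≤ Real.exp X * GG (wt η) Γ.p Γ.N i y ∧
      GG (wt η) Γ.p Γ.N i y ≤ Real.exp X * GG (wt η) Γ.p Γ.N i (y + 1) :=
    fun y hy => L91.le_of_log (G0 (y + 1)) (G0 y) (hNx y hy)
  have e1 : ∑ y ∈ Icc (0 : ℤ) Γ.hi, fw (wt η) Γ.p Cx.l i y * (wt η i y * GG (wt η) Γ.p Γ.N i y) = Γ.ZM η := by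
    have h1 := sum_fw_bw (w := wt η) (p := Γ.p) (m := Cx.l) (lo := 0) (hi := Γ.hi) (N := Γ.N)
      (fun y hy => (box hG.k1 hG.q0).lo0 y hy |>.1) (fun y hy => (box hG.k1 hG.q0).hi0 y hy |>.1) hhi i hi.le
    have h2 : ∑ y ∈ Icc (0 : ℤ) Γ.hi, Cx.l y * bw (wt η) Γ.p 0 Γ.N y = Γ.ZM η := L91.sum_l Γ _
    rw [← h2, ← h1]
    refine sum_congr rfl fun y _ => ?_
    rw [bw_eq hi]
  have e2 : ∑ y ∈ Icc (0 : ℤ) Γ.hi, fw (wt η) Γ.p Γ.r i y * (wt η i y * GG (wt η) Γ.p Γ.N i y) = Γ.ZR η := by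
    have h1 := sum_fw_bw (w := wt η) (p := Γ.p) (m := Γ.r) (lo := 0) (hi := Γ.hi) (N := Γ.N)
      (fun y hy => (box hG.k1 hG.q0).lo0 y hy |>.2) (fun y hy => (box hG.k1 hG.q0).hi0 y hy |>.2) hhi i hi.le
    unfold Cx.ZR
    rw [← h1]
    refine sum_congr rfl fun y _ => ?_
    rw [bw_eq hi]
  have a1 := zs_shift (m := fw (wt η) Γ.p Cx.l i) (u := wt η i) (G := GG (wt η) Γ.p Γ.N i) (G' := GG (wt (sg i η)) Γ.p Γ.N i)
    (hi := Γ.hi) (b := Γ.k + i) (x := x) (fun y => fw_nonneg (wt_pos η) p_pos l_nonneg i y)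
    (fun y hy => fw_hi (B := (Γ.k : ℤ)) (fun z hz => by
      unfold Cx.l
      rw [if_neg (by omega)]) i y (by omega)) (wt_pos η i) (fun y => GG_sg η i y) hX G0 hR
  have a2 := zs_shift (m := fw (wt η) Γ.p Γ.r i) (u := wt η i) (G := GG (wt η) Γ.p Γ.N i) (G' := GG (wt (sg i η)) Γ.p Γ.N i)
    (hi := Γ.hi) (b := Γ.k + i) (x := x) (fun y => fw_nonneg (wt_pos η) p_pos (r_nonneg hG.q0) i y)
    (fun y hy => fw_hi (B := (Γ.k : ℤ)) (fun z hz => r_hi hz) i y (by omega)) (wt_pos η i) (fun y => GG_sg η i y) hX G0 hR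
  rw [e1] at a1
  rw [e2] at a2
  have u1 : Ur Γ (sg i η) i x = zs (Icc 0 Γ.hi) (fw (wt η) Γ.p Cx.l i) (wt η i) (GG (wt (sg i η)) Γ.p Γ.N i) x := by
    unfold Ur
    rw [show fw (wt (sg i η)) Γ.p Cx.l i = fw (wt η) Γ.p Cx.l i from funext fun y => fw_sg η (by omega) y,
      show wt (sg i η) i = wt η i from funext fun y => wt_sg_le η le_rfl y]
  have u2 : Vr Γ (sg i η) i x = zs (Icc 0 Γ.hi) (fw (wt η) Γ.p Γ.r i) (wt η i) (GG (wt (sg i η)) Γ.p Γ.N i) x := by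
    unfold Vr
    rw [show fw (wt (sg i η)) Γ.p Γ.r i = fw (wt η) Γ.p Γ.r i from funext fun y => fw_sg η (by omega) y,
      show wt (sg i η) i = wt η i from funext fun y => wt_sg_le η le_rfl y]
  rw [u1, u2]
  exact ⟨a1, a2⟩

theorem Dw_sg (x : ℤ) : Dw Γ (sg i η) i x = Dw Γ η i x := by
  unfold Dw dp
  rw [fw_sg η (by omega), fw_sg η (by omega), fw_sg η (by omega), fw_sg η (by omega), wt_sg_le η le_rfl, wt_sg_le η le_rfl]

/-- **The weight in the mirror frame against the natural weight.** -/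
theorem ws_sg (hG : Msk Γ) (hi : i < Γ.N) (h : NB54 Γ X η) (hx1 : 1 ≤ x) (hx2 : x ≤ 1 + (Γ.N : ℤ)) :
    Γ.ws (i, x) (sg i η) ≤ Real.exp (4 * X) * (1 + Γ.p i) ^ 2 * Γ.w (i, x) η := by
  have hk := hG.k1
  obtain ⟨⟨_, u2⟩, ⟨_, v2⟩⟩ := tot_sg hG hi h x
  have hX := X_nonneg h
  have hp := p_pos (Γ := Γ) i
  have f0 : 0 < fC Γ η i x := bw_pos (wt_pos η) p_pos _ _ _
  have f1 : 0 < fC Γ η i (x + 1) := bw_pos (wt_pos η) p_pos _ _ _
  have hf := (f_ratio h hi (y := x + 1) (by omega) (by unfold Cx.hi; omega)).1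
  rw [add_sub_cancel_right] at hf
  have hX1 : (1 : ℝ) ≤ Real.exp X := Real.one_le_exp hX
  have hU := Ur_pos (η := sg i η) (i := i) hG x
  have hV := Vr_pos (η := sg i η) (i := i) hG x
  have hM := ZM_pos (Γ := Γ) η
  have hR := ZR_pos hG.k1 hG.q0 hG.q1 η
  have hD := Dw_nonneg (η := η) (i := i) hG x
  have hGG : GG (wt η) Γ.p Γ.N i x ≤ Real.exp X * (1 + Γ.p i) * fC Γ η i x := by
    rw [L91.GG_fC]
    have h1 := mul_le_mul_of_nonneg_left hf hp.le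
    have h2 : fC Γ η i x ≤ Real.exp X * fC Γ η i x := le_mul_of_one_le_left f0.le hX1
    linarith
  have hGG0 : 0 ≤ GG (wt η) Γ.p Γ.N i x := (GG_pos (wt_pos η) p_pos i _).le
  rw [ws_Dw, w_Dw, Dw_sg, GG_sg, sub_add_cancel]
  have h1 : GG (wt η) Γ.p Γ.N i x ^ 2 ≤ (Real.exp X * (1 + Γ.p i) * fC Γ η i x) ^ 2 := pow_le_pow_left₀ hGG0 hGG 2
  have h2 : Γ.ZM η * Γ.ZR η ≤ (Real.exp X * Ur Γ (sg i η) i x) * (Real.exp X * Vr Γ (sg i η) i x) :=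
    mul_le_mul u2 v2 hR.le (by positivity)
  have e4 : Real.exp (4 * X) = Real.exp X ^ 4 := by
    rw [← Real.exp_nat_mul]
    norm_num
  rw [e4, div_le_iff₀ (mul_pos hU hV)]
  have h3 : Γ.p i * Dw Γ η i x * GG (wt η) Γ.p Γ.N i x ^ 2 ≤
      Γ.p i * Dw Γ η i x * (Real.exp X * (1 + Γ.p i) * fC Γ η i x) ^ 2 := mul_le_mul_of_nonneg_left h1 (by positivity)
  refine h3.trans ?_
  have h4 : Γ.p i * Dw Γ η i x * (Real.exp X * (1 + Γ.p i) * fC Γ η i x) ^ 2 =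
      (Γ.p i * Dw Γ η i x * (Real.exp X * (1 + Γ.p i) * fC Γ η i x) ^ 2 / (Γ.ZM η * Γ.ZR η)) * (Γ.ZM η * Γ.ZR η) := by
    rw [div_mul_cancel₀]
    positivity
  rw [h4]
  refine (mul_le_mul_of_nonneg_left h2 (by positivity)).trans (le_of_eq ?_)
  ring

/-- The natural weight in the mirror frame. -/
theorem w_sg (hG : Cx.Ok Γ) (hi : i < Γ.N) (h : NB54 Γ X η) (hx1 : 1 ≤ x) (hx2 : x ≤ 1 + (Γ.N : ℤ)) :
    Γ.w (i, x) (sg i η) ≤ Real.exp (4 * X) * Γ.w (i, x) η ∧ Γ.w (i, x) η ≤ Real.exp (4 * X) * Γ.w (i, x) (sg i η) := by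
  have hk := hG.1
  have hX := X_nonneg h
  have hp := p_pos (Γ := Γ) i
  have f0 : 0 < fC Γ η i x := bw_pos (wt_pos η) p_pos _ _ _
  have f1 : 0 < fC Γ η i (x + 1) := bw_pos (wt_pos η) p_pos _ _ _
  obtain ⟨g1, g2⟩ := f_ratio h hi (y := x + 1) (by omega) (by unfold Cx.hi; omega)
  rw [add_sub_cancel_right] at g1 g2
  have hM := ZM_pos (Γ := Γ) η
  have hR := ZR_pos (msk hG).k1 (msk hG).q0 (msk hG).q1 η
  have hM' := ZM_pos (Γ := Γ) (sg i η)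
  have hR' := ZR_pos (msk hG).k1 (msk hG).q0 (msk hG).q1 (sg i η)
  obtain ⟨m1, m2⟩ := L91.le_of_log hM' hM (ZM_sg hi (h.nx hi))
  obtain ⟨r1, r2⟩ := L91.le_of_log hR' hR (ZR_sg hG hi (h.nx hi))
  have hD := Dw_nonneg (η := η) (i := i) (msk hG) x
  have e4 : Real.exp (4 * X) = Real.exp X ^ 2 * (Real.exp X * Real.exp X) := by
    rw [← Real.exp_nat_mul, ← Real.exp_add, ← Real.exp_add]
    congr 1
    push_cast
    ring
  rw [w_Dw, w_Dw, Dw_sg, fC_sg, e4]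
  have hE := Real.exp_pos X
  constructor
  · rw [div_le_iff₀ (mul_pos hM' hR')]
    have s1 : fC Γ η i (x + 1) ^ 2 ≤ (Real.exp X * fC Γ η i x) ^ 2 := pow_le_pow_left₀ f1.le g1 2
    have s2 : Γ.ZM η * Γ.ZR η ≤ (Real.exp X * Γ.ZM (sg i η)) * (Real.exp X * Γ.ZR (sg i η)) :=
      mul_le_mul m2 r2 hR.le (by positivity)
    have s3 : Γ.p i * Dw Γ η i x * fC Γ η i (x + 1) ^ 2 ≤ Γ.p i * Dw Γ η i x * (Real.exp X * fC Γ η i x) ^ 2 :=
      mul_le_mul_of_nonneg_left s1 (by positivity)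
    refine s3.trans ?_
    have h4 : Γ.p i * Dw Γ η i x * (Real.exp X * fC Γ η i x) ^ 2 =
        (Γ.p i * Dw Γ η i x * (Real.exp X * fC Γ η i x) ^ 2 / (Γ.ZM η * Γ.ZR η)) * (Γ.ZM η * Γ.ZR η) := by
      rw [div_mul_cancel₀]
      positivity
    rw [h4]
    refine (mul_le_mul_of_nonneg_left s2 (by positivity)).trans (le_of_eq ?_)
    ring
  · rw [div_le_iff₀ (mul_pos hM hR)]
    have s1 : fC Γ η i x ^ 2 ≤ (Real.exp X * fC Γ η i (x + 1)) ^ 2 := pow_le_pow_left₀ f0.le g2 2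
    have s2 : Γ.ZM (sg i η) * Γ.ZR (sg i η) ≤ (Real.exp X * Γ.ZM η) * (Real.exp X * Γ.ZR η) :=
      mul_le_mul m1 r1 hR'.le (by positivity)
    have s3 : Γ.p i * Dw Γ η i x * fC Γ η i x ^ 2 ≤ Γ.p i * Dw Γ η i x * (Real.exp X * fC Γ η i (x + 1)) ^ 2 :=
      mul_le_mul_of_nonneg_left s1 (by positivity)
    refine s3.trans ?_
    have h4 : Γ.p i * Dw Γ η i x * (Real.exp X * fC Γ η i (x + 1)) ^ 2 =
        (Γ.p i * Dw Γ η i x * (Real.exp X * fC Γ η i (x + 1)) ^ 2 / (Γ.ZM (sg i η) * Γ.ZR (sg i η))) *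
          (Γ.ZM (sg i η) * Γ.ZR (sg i η)) := by
      rw [div_mul_cancel₀]
      positivity
    rw [h4]
    refine (mul_le_mul_of_nonneg_left s2 (by positivity)).trans (le_of_eq ?_)
    ring

/-- The constant. -/
def Kr (Γ : Cx) (i : ℕ) (u X : ℝ) : ℝ := KC Γ i u X * (Real.exp (4 * X) * (1 + Γ.p i) ^ 2)

/-- The contact against the natural weight. -/
theorem C_nat (hG : Msk Γ) (hi : i < Γ.N) (h : NB54 Γ X η) (hx1 : 1 ≤ x) (hx2 : x ≤ 1 + (Γ.N : ℤ))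
    (hu : |Real.log (wt η i (x - 1)) - Real.log (wt η i x)| ≤ u) (hK : 0 ≤ KC Γ i u X) :
    |Γ.C (i, x) η| ≤ Kr Γ i u X * Γ.w (i, x) η := by
  have hk := hG.k1
  have hN := h.nb hi
  have h1 := L91.abs_C_le hG η hi (mem_Icc.2 ⟨hx1, hx2⟩) hu (hN.f x (mem_Icc.2 ⟨hx1, by unfold Cx.hi; omega⟩))
  refine h1.trans ((mul_le_mul_of_nonneg_left (seam83 hG hi hN hx1 hx2) hK).trans (le_of_eq ?_))
  unfold Kr
  ring

/-- **The contact in the mirror frame against the natural weight.** -/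
theorem C_sg (hG : Msk Γ) (hi : i < Γ.N) (h : NB54 Γ X η) (hx1 : 1 ≤ x) (hx2 : x ≤ 1 + (Γ.N : ℤ))
    (hu : |Real.log (wt η i (x - 1)) - Real.log (wt η i x)| ≤ u) (hK : 0 ≤ KC Γ i u X) :
    |Γ.C (i, x) (sg i η)| ≤ Kr Γ i u X * Γ.w (i, x) η := by
  have hk := hG.k1
  have hf : |Real.log (fC Γ (sg i η) i (x - 1)) - Real.log (fC Γ (sg i η) i x)| ≤ X := by
    rw [fC_sg, fC_sg, sub_add_cancel, abs_sub_comm]
    have h1 := h (i + 1) (Γ.N - (i + 1)) (by omega) (x + 1) (mem_Icc.2 ⟨by omega, by unfold Cx.hi; omega⟩)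
    rw [add_sub_cancel_right] at h1
    exact h1
  have hu' : |Real.log (wt (sg i η) i (x - 1)) - Real.log (wt (sg i η) i x)| ≤ u := by
    rw [wt_sg_le η le_rfl, wt_sg_le η le_rfl]
    exact hu
  have h1 := L91.abs_C_le hG (sg i η) hi (mem_Icc.2 ⟨hx1, hx2⟩) hu' hf
  refine h1.trans ((mul_le_mul_of_nonneg_left (ws_sg hG hi h hx1 hx2) hK).trans (le_of_eq ?_))
  unfold Kr
  ring

end

end Pool.Agent.W_7d29a1_C1.M83
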