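import Pool.Agent.W_7d29a1_C1.PhiB74

/-!
Both halves (MP_7d29a1_pr), attractor route [C1]: H1 FOR ANY TOTAL FUNCTIONAL OF A CONTEXT (the total contact functional, or its form
by corners). (helper74)

`phi_closeG` : abstract, any inner functional `F K q`. `phiG74` : a context, any functional `Psi c η` of the contacts with
`|Psi c| ≤ Kr w c`, which is near `F K q` at the contacts of the middle rows; `FG` = the total of the inside.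
-/

set_option autoImplicit false
set_option linter.unusedSectionVars false

namespace Pool.Agent.W_7d29a1_C1.H1c

open Finset MeasureTheory
open Pool.Agent.W_7d29a1_F
open Pool.Agent.W_7d29a1_C1.K91 (shw Box Grp wt wt_pos zs)
open Pool.Agent.W_7d29a1_C1.K97
open Pool.Agent.W_7d29a1_C1.L91
open Pool.Agent.W_7d29a1_C1.K91P (fw bw shp bw_pos dp GG)
open Pool.Agent.W_7d29a1_C1.R26P
open Pool.Agent.W_7d29a1_C1.F74
open Pool.Agent.W_7d29a1_C1.H60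
open Pool.Agent.W_7d29a1_C1.H60.Cx (l uc mem_rows)

noncomputable section

variable {W : ℕ → ℤ → ℝ} {P : ℕ → ℝ}

/-- **H1 for any total functional**, abstract. -/
theorem phi_closeG {N c0 n1 D' D : ℕ} {qa qb a1 a2 : ℤ} {C wc F : ℕ → ℤ → ℝ} {τ τ' t Kr : ℝ} (ha : a1 ≤ a2)
    (hn : n1 ≤ D') (hN : c0 + D' ≤ N) (h1 : qa ≤ a1 + 1) (h2 : a2 + D' ≤ qb + 1) (hKr : 0 ≤ Kr)
    (sw : ∑ k ∈ range N, ∑ q ∈ Icc qa qb, wc k q ≤ 1)
    (hC : ∀ k q, k < N → q ∈ Icc qa qb → |C k q| ≤ Kr * wc k q)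
    (c1 : ∀ K, n1 ≤ K → K < D' → ∀ q ∈ Icc qa qb, |C (c0 + K) q - F K q| ≤ τ)
    (c2 : ∀ K, n1 ≤ K → K < D' → ∀ q ∈ Icc qa qb, |wc (c0 + K) q - Win W P K (D - (K + 1)) a1 a2 q| ≤ τ')
    (mt : 1 - t ≤ Mtp W P n1 D' D a1 a2) :
    |(∑ k ∈ range N, ∑ q ∈ Icc qa qb, C k q) - ∑ K ∈ Ico n1 D', ∑ q ∈ Icc qa qb, F K q| ≤
      (D' - n1 : ℕ) * ((qb + 1 - qa).toNat * τ) + Kr * (t + (D' - n1 : ℕ) * ((qb + 1 - qa).toNat * τ')) := by
  -- the middle rows, as rows of the context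
  have sp : ∀ F : ℕ → ℝ, ∑ k ∈ range N, F k =
      (∑ k ∈ range (c0 + n1), F k + ∑ k ∈ Ico (c0 + D') N, F k) + ∑ K ∈ Ico n1 D', F (c0 + K) := by
    intro F
    have e1 := sum_range_add_sum_Ico F (show c0 + n1 ≤ N by omega)
    have e2 := sum_Ico_consecutive F (show c0 + n1 ≤ c0 + D' by omega) hN
    have e3 : ∑ K ∈ Ico n1 D', F (c0 + K) = ∑ k ∈ Ico (c0 + n1) (c0 + D'), F k := by
      rw [sum_Ico_add F n1 D' c0, add_comm n1 c0, add_comm D' c0]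
    rw [e3, ← e1, ← e2]
    ring
  -- the inner sums over the window
  have eM : Mtp W P n1 D' D a1 a2 = ∑ K ∈ Ico n1 D', ∑ q ∈ Icc qa qb, Win W P K (D - (K + 1)) a1 a2 q := by
    unfold Mtp
    refine sum_congr rfl fun K hK => ?_
    rw [mem_Ico] at hK
    exact sum_cs h1 (by omega) fun q hq => Win_out ha hq
  have cl : ∀ (F G : ℕ → ℤ → ℝ) (e : ℝ), (∀ K, n1 ≤ K → K < D' → ∀ q ∈ Icc qa qb, |F K q - G K q| ≤ e) →
      |(∑ K ∈ Ico n1 D', ∑ q ∈ Icc qa qb, F K q) - ∑ K ∈ Ico n1 D', ∑ q ∈ Icc qa qb, G K q| ≤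
        (D' - n1 : ℕ) * ((qb + 1 - qa).toNat * e) := by
    intro F G e h
    rw [← sum_sub_distrib]
    refine (abs_sum_le_sum_abs _ _).trans ?_
    have k1 : ∀ K ∈ Ico n1 D', |(∑ q ∈ Icc qa qb, F K q) - ∑ q ∈ Icc qa qb, G K q| ≤ (qb + 1 - qa).toNat * e := by
      intro K hK
      rw [mem_Ico] at hK
      rw [← sum_sub_distrib]
      refine (abs_sum_le_sum_abs _ _).trans ?_
      refine (sum_le_sum fun q hq => h K hK.1 hK.2 q hq).trans ?_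
      rw [sum_const, nsmul_eq_mul, Int.card_Icc]
    refine (sum_le_sum k1).trans ?_
    rw [sum_const, nsmul_eq_mul, Nat.card_Ico]
  have d1 := cl (fun K q => C (c0 + K) q) F τ c1
  have d2 := cl (fun K q => wc (c0 + K) q) (fun K q => Win W P K (D - (K + 1)) a1 a2 q) τ' c2
  rw [← eM] at d2
  have d3 := (abs_le.1 d2).1
  have s1 := sp fun k => ∑ q ∈ Icc qa qb, wc k q
  have s2 := sp fun k => ∑ q ∈ Icc qa qb, C k q
  -- the tail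
  have tl : |∑ k ∈ range (c0 + n1), ∑ q ∈ Icc qa qb, C k q + ∑ k ∈ Ico (c0 + D') N, ∑ q ∈ Icc qa qb, C k q| ≤
      Kr * (∑ k ∈ range (c0 + n1), ∑ q ∈ Icc qa qb, wc k q + ∑ k ∈ Ico (c0 + D') N, ∑ q ∈ Icc qa qb, wc k q) := by
    refine (abs_add_le _ _).trans ?_
    rw [mul_add]
    refine add_le_add ?_ ?_
    · refine (abs_sum_le_sum_abs _ _).trans ?_
      rw [mul_sum]
      refine sum_le_sum fun k hk => ?_
      rw [mem_range] at hk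
      refine (abs_sum_le_sum_abs _ _).trans ?_
      rw [mul_sum]
      exact sum_le_sum fun q hq => hC k q (by omega) hq
    · refine (abs_sum_le_sum_abs _ _).trans ?_
      rw [mul_sum]
      refine sum_le_sum fun k hk => ?_
      rw [mem_Ico] at hk
      refine (abs_sum_le_sum_abs _ _).trans ?_
      rw [mul_sum]
      exact sum_le_sum fun q hq => hC k q (by omega) hq
  have tl2 : ∑ k ∈ range (c0 + n1), ∑ q ∈ Icc qa qb, wc k q + ∑ k ∈ Ico (c0 + D') N, ∑ q ∈ Icc qa qb, wc k q ≤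
      t + (D' - n1 : ℕ) * ((qb + 1 - qa).toNat * τ') := by
    linarith
  rw [s2]
  have e : (∑ k ∈ range (c0 + n1), ∑ q ∈ Icc qa qb, C k q + ∑ k ∈ Ico (c0 + D') N, ∑ q ∈ Icc qa qb, C k q) +
      ∑ K ∈ Ico n1 D', ∑ q ∈ Icc qa qb, C (c0 + K) q - ∑ K ∈ Ico n1 D', ∑ q ∈ Icc qa qb, F K q =
      (∑ K ∈ Ico n1 D', ∑ q ∈ Icc qa qb, C (c0 + K) q - ∑ K ∈ Ico n1 D', ∑ q ∈ Icc qa qb, F K q) +
      (∑ k ∈ range (c0 + n1), ∑ q ∈ Icc qa qb, C k q + ∑ k ∈ Ico (c0 + D') N, ∑ q ∈ Icc qa qb, C k q) := by ring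
  rw [e]
  refine (abs_add_le _ _).trans (add_le_add d1 (tl.trans ?_))
  exact mul_le_mul_of_nonneg_left tl2 hKr


/-- The total of an inner functional over the middle contacts. -/
def FG (F : ℕ → ℤ → ℝ) (n1 D' : ℕ) (a1 a2 : ℤ) : ℝ := ∑ K ∈ Ico n1 D', ∑ q ∈ cs a1 a2 K, F K q

theorem FG_congr {F F' : ℕ → ℤ → ℝ} {n1 D' : ℕ} {a1 a2 : ℤ} (h : ∀ K, n1 ≤ K → K < D' → ∀ q, F K q = F' K q) :
    FG F n1 D' a1 a2 = FG F' n1 D' a1 a2 := by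
  unfold FG
  refine sum_congr rfl fun K hK => sum_congr rfl fun q _ => ?_
  rw [mem_Ico] at hK
  exact h K hK.1 hK.2 q

/-- Shift of the columns. -/
theorem FG_sh {F F' : ℕ → ℤ → ℝ} {n1 D' : ℕ} {a1 a2 s : ℤ} (h : ∀ K, n1 ≤ K → K < D' → ∀ q, F' K (q - s) = F K q) :
    FG F' n1 D' (a1 - s) (a2 - s) = FG F n1 D' a1 a2 := by
  unfold FG
  refine sum_congr rfl fun K hK => ?_
  rw [mem_Ico] at hK
  rw [sum_cs_sh]
  exact sum_congr rfl fun q _ => h K hK.1 hK.2 q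

variable {Γ : Cx} {η : Env} {c0 n1 D' D : ℕ} {a1 a2 : ℤ}

/-- **H1 FOR ANY TOTAL FUNCTIONAL OF A CONTEXT.** -/
theorem phiG74 (h : Γ.Ok) {Psi : ℕ × ℤ → Env → ℝ} {F : ℕ → ℤ → ℝ} {τ τ' t Kr : ℝ} (hn : n1 ≤ D') (hD : D' ≤ D) (hN : c0 + D ≤ Γ.N)
    (g1 : 0 ≤ a1) (g2 : a1 < a2) (g3 : a2 ≤ c0) (hF0 : ∀ (K : ℕ) (q : ℤ), (q ≤ a1 ∨ a2 + K < q) → F K q = 0) (hKr0 : 0 ≤ Kr)
    (hP : ∀ i < Γ.N, ∀ x ∈ Icc (1 : ℤ) (1 + Γ.N), |Psi (i, x) η| ≤ Kr * Γ.w (i, x) η)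
    (hC : ∀ K, n1 ≤ K → K < D' → ∀ x ∈ Icc (1 : ℤ) (1 + Γ.N), |Psi (c0 + K, x) η - F K x| ≤ τ)
    (hw : ∀ K, n1 ≤ K → K < D' → ∀ x ∈ Icc (1 : ℤ) (1 + Γ.N),
      |Γ.w (c0 + K, x) η - Win (shw (wt η) c0) (shp Γ.p c0) K (D - (K + 1)) a1 a2 x| ≤ τ')
    (mt : 1 - t ≤ Mtp (shw (wt η) c0) (shp Γ.p c0) n1 D' D a1 a2) :
    |(∑ c ∈ Γ.rows 0 Γ.N, Psi c η) - FG F n1 D' a1 a2| ≤
      (D' - n1 : ℕ) * ((Γ.N + 1 : ℕ) * τ) + Kr * (t + (D' - n1 : ℕ) * ((Γ.N + 1 : ℕ) * τ')) := by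
  have eC : ∑ k ∈ range Γ.N, ∑ q ∈ Icc (1 : ℤ) (1 + Γ.N), Psi (k, q) η = ∑ c ∈ Γ.rows 0 Γ.N, Psi c η := by
    unfold Cx.rows
    rw [sum_product, ← range_eq_Ico]
  have eW : ∑ k ∈ range Γ.N, ∑ q ∈ Icc (1 : ℤ) (1 + Γ.N), Γ.w (k, q) η ≤ 1 := by
    have := Cx.sum_w_le h η 0 Γ.N le_rfl
    unfold Cx.rows at this
    rw [sum_product, ← range_eq_Ico] at this
    exact this
  have eF : FG F n1 D' a1 a2 = ∑ K ∈ Ico n1 D', ∑ q ∈ Icc (1 : ℤ) (1 + Γ.N), F K q := by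
    unfold FG
    refine sum_congr rfl fun K hK => ?_
    rw [mem_Ico] at hK
    exact sum_cs (by omega) (by omega) fun q hq => hF0 K q hq
  have key := phi_closeG (W := shw (wt η) c0) (P := shp Γ.p c0) (N := Γ.N) (c0 := c0) (n1 := n1) (D' := D') (D := D) (qa := 1)
    (qb := 1 + Γ.N) (a1 := a1) (a2 := a2) (C := fun k q => Psi (k, q) η) (wc := fun k q => Γ.w (k, q) η) (F := F) (τ := τ)
    (τ' := τ') (t := t) (Kr := Kr) g2.le hn (by omega) (by omega) (by omega) hKr0 eW (fun k q hk hq => hP k hk q hq)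
    (fun K h1 h2 x hx => hC K h1 h2 x hx) (fun K h1 h2 x hx => hw K h1 h2 x hx) mt
  rw [eC, ← eF] at key
  have e : (1 + (Γ.N : ℤ) + 1 - 1).toNat = Γ.N + 1 := by omega
  rw [e] at key
  exact key

end

end Pool.Agent.W_7d29a1_C1.H1c
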