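import Pool.Agent.W_7d29a1_C1.MirN99
import Pool.Agent.W_7d29a1_C1.PhiG74
import Pool.Agent.W_7d29a1_C1.KwM83

/-!
Both halves (MP_7d29a1_pr), attractor route [C1], (Y) BY CORNERS: H1 FOR THE SPLIT TOTAL FUNCTIONAL OF A CONTEXT. (helper54)

`SucC` : all contacts of the middle rows `c0 + K`, `n1 ≤ K < D'`, are near their inner values, both frames. `SucC.phi` : the split total
functional is the total of `FinS` over the inside.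
-/

set_option autoImplicit false
set_option linter.unusedSectionVars false

namespace Pool.Agent.W_7d29a1_C1.H54

open Finset MeasureTheory
open Pool.Agent.W_7d29a1_F
open Pool.Agent.W_7d29a1_C1.K91 (shw Box Grp wt wt_pos zs)
open Pool.Agent.W_7d29a1_C1.K97
open Pool.Agent.W_7d29a1_C1.L91
open Pool.Agent.W_7d29a1_C1.K91P (fw bw shp bw_pos dp GG)
open Pool.Agent.W_7d29a1_C1.R26P
open Pool.Agent.W_7d29a1_C1.F74
open Pool.Agent.W_7d29a1_C1.H60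
open Pool.Agent.W_7d29a1_C1.H60.Cx (l uc mem_rows)
open Pool.Agent.W_7d29a1_C1.H1c
open Pool.Agent.W_7d29a1_C1.Mir99
open Pool.Agent.W_7d29a1_C1.Ch87

noncomputable section

variable {Γ : Cx} {η : Env} {c0 n1 D' D : ℕ} {a1 a2 : ℤ}

/-- **All contacts of the middle rows are near their inner values, both frames.** -/
structure SucC (Γ : Cx) (η : Env) (c0 n1 D' D : ℕ) (a1 a2 : ℤ) (τ τ' : ℝ) : Prop where
  hn : n1 ≤ D'
  hD : D' ≤ D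
  hN : c0 + D ≤ Γ.N
  g1 : 0 ≤ a1
  g2 : a1 < a2
  g3 : a2 ≤ c0
  C : ∀ K, n1 ≤ K → K < D' → ∀ x ∈ Icc (1 : ℤ) (1 + Γ.N),
    |spl (c0 + K, x) (chiC Γ (c0 + K, x)) (Γ.C (c0 + K, x)) η -
      FinS (shw (wt η) c0) (shp Γ.p c0) K (D - (K + 1)) a1 a2 x| ≤ τ
  w : ∀ K, n1 ≤ K → K < D' → ∀ x ∈ Icc (1 : ℤ) (1 + Γ.N),
    |Γ.w (c0 + K, x) η - Win (shw (wt η) c0) (shp Γ.p c0) K (D - (K + 1)) a1 a2 x| ≤ τ'

/-- The inner functional outside of the cone. -/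
theorem finS_out54 {W : ℕ → ℤ → ℝ} {P : ℕ → ℝ} {K J : ℕ} {q : ℤ} (h : a1 ≤ a2) (hq : q ≤ a1 ∨ a2 + K < q) :
    FinS W P K J a1 a2 q = 0 := by
  unfold FinS
  rw [Fin_out h hq, Fin_out h hq, zero_mul, zero_mul, add_zero]

/-- The size of one contact of the split functional. -/
theorem abs_spl_w (h : Γ.Ok) {X u Kr : ℝ} (hX : H54.NB54 Γ X η) {i : ℕ} (hi : i < Γ.N) {x : ℤ} (hx : x ∈ Icc (1 : ℤ) (1 + Γ.N))
    (hu : uc (i, x) η ≤ u) (hKr : M83.Kr Γ i u X ≤ Kr) :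
    |spl (i, x) (chiC Γ (i, x)) (Γ.C (i, x)) η| ≤ 2 * Kr * Γ.w (i, x) η := by
  have hm : Msk Γ := M83.msk h
  have hxx := mem_Icc.1 hx
  have u0 : 0 ≤ u := (abs_nonneg _).trans hu
  have X0 := M83.X_nonneg hX
  have K0 : 0 ≤ KC Γ i u X := Kl_nonneg (L91.p_pos i) (Real.one_le_exp u0) (Real.one_le_exp X0)
  have c1 := M83.C_nat hm hi hX hxx.1 hxx.2 hu K0
  have c2 := M83.C_sg hm hi hX hxx.1 hxx.2 hu K0
  have w0 := Cx.w_nonneg h (i, x) η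
  have d0 := chiC_nonneg Γ (i, x) η
  have d1 := chiC_le_one Γ (i, x) η
  have d2 := chiC_nonneg Γ (i, x) (sg i η)
  have d3 := chiC_le_one Γ (i, x) (sg i η)
  have k := mul_le_mul_of_nonneg_right hKr w0
  show |Γ.C (i, x) η * chiC Γ (i, x) η + Γ.C (i, x) (sg i η) * (1 - chiC Γ (i, x) (sg i η))| ≤ _
  refine (abs_add_le _ _).trans ?_
  rw [abs_mul, abs_mul, abs_of_nonneg d0, abs_of_nonneg (show 0 ≤ 1 - chiC Γ (i, x) (sg i η) by linarith)]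
  have e1 : |Γ.C (i, x) η| * chiC Γ (i, x) η ≤ |Γ.C (i, x) η| := mul_le_of_le_one_right (abs_nonneg _) d1
  have e2 : |Γ.C (i, x) (sg i η)| * (1 - chiC Γ (i, x) (sg i η)) ≤ |Γ.C (i, x) (sg i η)| :=
    mul_le_of_le_one_right (abs_nonneg _) (by linarith)
  linarith

/-- **H1 FOR THE SPLIT TOTAL FUNCTIONAL.** -/
theorem SucC.phi (h : Γ.Ok) {X u τ τ' t Kr : ℝ} (S : SucC Γ η c0 n1 D' D a1 a2 τ τ') (hX : H54.NB54 Γ X η)
    (hu : ∀ c ∈ Γ.rows 0 Γ.N, uc c η ≤ u) (hKr : ∀ i < Γ.N, M83.Kr Γ i u X ≤ Kr) (hKr0 : 0 ≤ Kr)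
    (mt : 1 - t ≤ Mtp (shw (wt η) c0) (shp Γ.p c0) n1 D' D a1 a2) :
    |PhS Γ (chiC Γ) η - FG (fun K q => FinS (shw (wt η) c0) (shp Γ.p c0) K (D - (K + 1)) a1 a2 q) n1 D' a1 a2| ≤
      (D' - n1 : ℕ) * ((Γ.N + 1 : ℕ) * τ) + 2 * Kr * (t + (D' - n1 : ℕ) * ((Γ.N + 1 : ℕ) * τ')) := by
  refine phiG74 (Psi := fun b => spl b (chiC Γ b) (Γ.C b)) h S.hn S.hD S.hN S.g1 S.g2 S.g3
    (fun K q hq => finS_out54 S.g2.le hq) (by linarith) (fun i hi x hx => ?_) S.C S.w mt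
  refine abs_spl_w h hX hi hx (hu _ ?_) (hKr i hi)
  rw [mem_rows]
  exact ⟨⟨Nat.zero_le _, hi⟩, mem_Icc.1 hx⟩

end

end Pool.Agent.W_7d29a1_C1.H54
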