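import Pool.Agent.W_7d29a1_C1.TiltF54
import Pool.Agent.W_7d29a1_C1.PhC54

/-!
Both halves (MP_7d29a1_pr), attractor route [C1], (Y) BY CORNERS: CLOSENESS OF A CONTEXT TO THE INSIDE WITH THE FLAT STEP WEIGHTS. (helper54)

`close54` : on a success the natural weight of every middle contact, and the split total functional, are those of the inside with other
step weights `P'`; errors: the tiny errors of H1, and `(θ ^ D) ^ 16 - 1` times numbers for the change of the step weights.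
-/

set_option autoImplicit false
set_option linter.unusedSectionVars false

namespace Pool.Agent.W_7d29a1_C1.H54

open Finset MeasureTheory
open Pool.Agent.W_7d29a1_F
open Pool.Agent.W_7d29a1_C1.K91 (shw Box Grp wt wt_pos zs)
open Pool.Agent.W_7d29a1_C1.K97
open Pool.Agent.W_7d29a1_C1.L91
open Pool.Agent.W_7d29a1_C1.K91P (fw bw shp bw_pos bw_comp dp GG)
open Pool.Agent.W_7d29a1_C1.R26P
open Pool.Agent.W_7d29a1_C1.F74
open Pool.Agent.W_7d29a1_C1.H60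
open Pool.Agent.W_7d29a1_C1.H60.Cx (l uc mem_rows)
open Pool.Agent.W_7d29a1_C1.H1c
open Pool.Agent.W_7d29a1_C1.T97
open Pool.Agent.W_7d29a1_C1.Ch87

noncomputable section

variable {Γ : Cx} {η : Env} {c0 n1 D' D : ℕ} {a1 a2 : ℤ} {P' : ℕ → ℝ} {θ τ τ' : ℝ}

/-- The first meeting weight of the inside is not negative. -/
theorem Win_nn54 {W : ℕ → ℤ → ℝ} {P : ℕ → ℝ} (hW : ∀ k y, 0 < W k y) (hP : ∀ k, 0 < P k) (h : a1 < a2) (K J : ℕ) (q : ℤ) :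
    0 ≤ Win W P K J a1 a2 q := by
  have st1 := K91P.fw_stay hW hP (fun y => sg_nonneg a1 y) (sg_pos a1) K
  have st2 := K91P.fw_stay hW hP (fun y => sg_nonneg a2 y) (sg_pos a2) K
  have m1 : a1 ∈ Icc a1 (a2 + (K : ℤ) + 1) := mem_Icc.2 ⟨le_rfl, by omega⟩
  have m2 : a2 ∈ Icc a1 (a2 + (K : ℤ) + 1) := mem_Icc.2 ⟨h.le, by omega⟩
  have t1 := K91P.tm_pos (hP K) (hW K) (bw_pos hW hP J (K + 1)) (K91P.fw_nonneg hW hP (fun y => sg_nonneg a1 y) K) ⟨a1, m1, st1⟩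
  have t2 := K91P.tm_pos (hP K) (hW K) (bw_pos hW hP J (K + 1)) (K91P.fw_nonneg hW hP (fun y => sg_nonneg a2 y) K) ⟨a2, m2, st2⟩
  have d := K91P.dp_nonneg hW hP (grp_in h) K (q - 1) q (by omega)
  unfold dp at d
  have w1 := hW K (q - 1)
  have w2 := hW K q
  have pk := hP K
  unfold Win mw
  exact div_nonneg (mul_nonneg d (by positivity)) (mul_nonneg t1.le t2.le)

/-- The first meeting weight of the inside with other step weights. -/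
theorem close_w54 (S : SucC Γ η c0 n1 D' D a1 a2 τ τ') (hP' : ∀ k, 0 < P' k) (ht : 1 ≤ θ)
    (hpp : ∀ i < D, mc θ (Γ.p (c0 + i)) (P' i)) (h16 : (θ ^ D) ^ 16 ≤ 3 / 2) {K : ℕ} (h1 : n1 ≤ K) (h2 : K < D') {x : ℤ}
    (hx : x ∈ Icc (1 : ℤ) (1 + Γ.N)) (h : Γ.Ok) :
    |Γ.w (c0 + K, x) η - Win (shw (wt η) c0) P' K (D - (K + 1)) a1 a2 x| ≤
      2 * τ' + ((θ ^ D) ^ 16 - 1) * Γ.w (c0 + K, x) η := by
  have hD := S.hD
  have hN := S.hN
  have g1 := S.g1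
  have g2 := S.g2
  have g3 := S.g3
  have k1 := S.w K h1 h2 x hx
  have T16 : 0 ≤ (θ ^ D) ^ 16 - 1 := by
    have := one_le_pow₀ (one_le_pow₀ ht (n := D)) (n := 16)
    linarith
  have τ0 : 0 ≤ τ' := (abs_nonneg _).trans k1
  have w0 := Cx.w_nonneg h (c0 + K, x) η
  by_cases hq : x ≤ a1 ∨ a2 + K < x
  · rw [Win_out g2.le hq] at k1 ⊢
    have := mul_nonneg T16 w0
    linarith
  · have eJ : K + (D - (K + 1)) + 1 = D := by omega
    have k2 := Win_tilt (W := shw (wt η) c0) (P := shp Γ.p c0) (P' := P') (θ := θ) (K := K) (J := D - (K + 1)) (a1 := a1) (a2 := a2)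
      (q := x) (fun k y => wt_pos η _ _) (fun k => L91.p_pos _) hP' ht g2 (by rw [eJ]; exact hpp) (by rw [eJ]; exact h16) (by omega)
      (by omega)
    rw [eJ] at k2
    have W0 := Win_nn54 (W := shw (wt η) c0) (P := shp Γ.p c0) (fun k y => wt_pos η _ _) (fun k => L91.p_pos _) g2 K (D - (K + 1)) x
    have k3 := k2.abs_sub (by linarith) W0
    rw [abs_le] at k1 k3 ⊢
    have a := mul_le_mul_of_nonneg_left (show Win (shw (wt η) c0) (shp Γ.p c0) K (D - (K + 1)) a1 a2 x ≤ Γ.w (c0 + K, x) η + τ' by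
      linarith [k1.1]) T16
    have b : ((θ ^ D) ^ 16 - 1) * τ' ≤ τ' := by
      have := mul_le_mul_of_nonneg_right (show (θ ^ D) ^ 16 - 1 ≤ 1 by linarith) τ0
      linarith
    constructor <;> linarith [k1.1, k1.2, k3.1, k3.2]

/-- **CLOSENESS**, both functionals. -/
theorem close54 (h : Γ.Ok) {X u t Kr B : ℝ} (S : SucC Γ η c0 n1 D' D a1 a2 τ τ') (hX : H54.NB54 Γ X η)
    (hu : ∀ c ∈ Γ.rows 0 Γ.N, uc c η ≤ u) (hKr : ∀ i < Γ.N, M83.Kr Γ i u X ≤ Kr) (hKr0 : 0 ≤ Kr)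
    (mt : 1 - t ≤ Mtp (shw (wt η) c0) (shp Γ.p c0) n1 D' D a1 a2) (hP' : ∀ k, 0 < P' k) (ht : 1 ≤ θ)
    (hpp : ∀ i < D, mc θ (Γ.p (c0 + i)) (P' i)) (h16 : (θ ^ D) ^ 16 ≤ 3 / 2)
    (hB : ∀ K, n1 ≤ K → K < D' → (Kt (Γ.p (c0 + K)) (Real.exp u) (2 * Real.exp X) +
      Kl (Γ.p (c0 + K)) (Real.exp u) (2 * Real.exp X)) * Γ.p (c0 + K) ≤ B) :
    (∀ K, n1 ≤ K → K < D' → ∀ x ∈ Icc (1 : ℤ) (1 + Γ.N),
      |Γ.w (c0 + K, x) η - Win (shw (wt η) c0) P' K (D - (K + 1)) a1 a2 x| ≤ 2 * τ' + ((θ ^ D) ^ 16 - 1) * Γ.w (c0 + K, x) η) ∧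
    |PhS Γ (chiC Γ) η - FPhC (shw (wt η) c0) P' n1 D' D a1 a2| ≤
      (D' - n1 : ℕ) * ((Γ.N + 1 : ℕ) * τ) + 2 * Kr * (t + (D' - n1 : ℕ) * ((Γ.N + 1 : ℕ) * τ')) +
        (D' - n1 : ℕ) * (((a2 - a1 + D' : ℤ) : ℝ) * (2 * (B * ((θ ^ D) ^ 16 - 1)))) := by
  refine ⟨fun K h1 h2 x hx => close_w54 S hP' ht hpp h16 h1 h2 hx h, ?_⟩
  have hD := S.hD
  have hN := S.hN
  have g1 := S.g1
  have g2 := S.g2
  have g3 := S.g3
  have X0 := M83.X_nonneg hX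
  have hhi : (Γ.N : ℤ) ≤ Γ.hi := by unfold Cx.hi; omega
  have k1 := S.phi h hX hu hKr hKr0 mt
  have mem : ∀ K, n1 ≤ K → K < D' → ∀ q ∈ Icc (a1 + 1) (a2 + K), (c0 + K, q) ∈ Γ.rows 0 Γ.N := by
    intro K h1 h2 q hq
    rw [mem_Icc] at hq
    rw [mem_rows]
    exact ⟨⟨Nat.zero_le _, by show c0 + K < Γ.N; omega⟩, by show 1 ≤ q; omega, by show q ≤ 1 + (Γ.N : ℤ); omega⟩
  rcases Nat.lt_or_ge n1 D' with hlt | hge
  swap
  · -- no middle rows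
    have e : ∀ Q : ℕ → ℝ, FPhC (shw (wt η) c0) Q n1 D' D a1 a2 = 0 := by
      intro Q
      unfold FPhC FG
      rw [Ico_eq_empty_of_le hge, sum_empty]
    have e1 : FG (fun K q => Mir99.FinS (shw (wt η) c0) (shp Γ.p c0) K (D - (K + 1)) a1 a2 q) n1 D' a1 a2 = 0 := e _
    rw [e1] at k1
    rw [e, show D' - n1 = 0 by omega, Nat.cast_zero, zero_mul, zero_mul] at *
    linarith
  have u0 : 0 ≤ u := (abs_nonneg _).trans (hu _ (mem n1 le_rfl hlt (a1 + 1) (mem_Icc.2 ⟨le_rfl, by omega⟩)))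
  have k2 := FPhC_tilt (W := shw (wt η) c0) (P := shp Γ.p c0) (P' := P') (θ := θ) (κ := Real.exp u) (κ' := Real.exp X)
    (a1 := a1) (a2 := a2) (n1 := n1) (D' := D') (D := D) (B := B) (fun k y => wt_pos η _ _) (fun k => L91.p_pos _) hP' ht g2 hD hpp
    h16 (Real.one_le_exp u0) (Real.one_le_exp X0) (fun K h1 h2 q hq => ?_) (fun K h1 h2 q hq => ?_) hB
  · have e : FG (fun K q => Mir99.FinS (shw (wt η) c0) (shp Γ.p c0) K (D - (K + 1)) a1 a2 q) n1 D' a1 a2 =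
        FPhC (shw (wt η) c0) (shp Γ.p c0) n1 D' D a1 a2 := rfl
    rw [e] at k1
    rw [abs_sub_comm] at k2
    rw [abs_le] at k1 k2 ⊢
    constructor <;> linarith [k1.1, k1.2, k2.1, k2.2]
  · have a := hu _ (mem K h1 h2 q hq)
    have a' : |Real.log (wt η (c0 + K) (q - 1)) - Real.log (wt η (c0 + K) q)| ≤ u := a
    exact L91.le_of_log (wt_pos η _ _) (wt_pos η _ _) a'
  · rw [mem_Icc] at hq
    have e : ∀ y, bw (shw (wt η) c0) (shp Γ.p c0) (K + 1) (D - (K + 1)) y = bw (wt η) Γ.p (c0 + (K + 1)) (D - (K + 1)) y :=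
      fun y => (bw_comp c0 (D - (K + 1)) (K + 1) y).symm
    have a := hX (c0 + (K + 1)) (D - (K + 1)) (by omega) q (mem_Icc.2 ⟨by omega, by omega⟩)
    rw [e, e]
    have b := L91.le_of_log (bw_pos (wt_pos η) L91.p_pos _ _ _) (bw_pos (wt_pos η) L91.p_pos _ _ _) a
    exact ⟨b.2, b.1⟩

end

end Pool.Agent.W_7d29a1_C1.H54
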