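import Pool.Agent.W_7d29a1_C1.TileS98
import Pool.Agent.W_7d29a1_C1.Ctx60

/-!
MP_7d29a1_pr, attractor route [C1], SHELL: THE CONTACTS OF A CONTEXT AS SITES OF THE TOP BOXES. (helper98)

`Sc G m j0 j1 N` = a set of sites which is a union of top boxes and contains the contacts in the rows `[H m * j0, H m * j1)` of every
context with `N` rows; the other sites have `w = 0`. Numbers: the first row `dT`, the last row `kT` (multiples of `H m`), `dims98`.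
-/

set_option autoImplicit false

namespace Pool.Agent.W_7d29a1_C1.T98

open Finset
open Pool.Agent.W_7d29a1_C1.T10 Pool.Agent.W_7d29a1_C1.K91P Pool.Agent.W_7d29a1_F
open MeasureTheory (Measure)
open Pool.Agent.W_7d29a1_C1.H60 (Cx Adm)
open Pool.Agent.W_7d29a1_C1.K91 (Box Grp cut zs jn wt)

section numbers

/-- The first row: the last multiple of `H` which is at most `⌈X⌉`. -/
noncomputable def dT (H : ℕ) (X : ℝ) : ℕ := H * (⌈X⌉₊ / H)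

/-- The last row: the last multiple of `H` which is at most `N - d`. -/
def kT (H d N : ℕ) : ℕ := H * ((N - d) / H)

theorem dT_le (H : ℕ) (X : ℝ) : dT H X ≤ ⌈X⌉₊ := Nat.mul_div_le _ _

theorem lt_dT {H : ℕ} (hH : 0 < H) (X : ℝ) : ⌈X⌉₊ < dT H X + H := by
  have := Nat.lt_mul_div_succ ⌈X⌉₊ hH
  unfold dT
  rw [mul_add, mul_one] at this
  exact this

/-- If `2 H ≤ X` then the first row is at least `X / 2`. -/
theorem half_le_dT {H : ℕ} (hH : 0 < H) {X : ℝ} (hX : 2 * (H : ℝ) ≤ X) : X / 2 ≤ (dT H X : ℝ) := by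
  have h1 : (⌈X⌉₊ : ℝ) < dT H X + H := by exact_mod_cast lt_dT hH X
  have h2 := Nat.le_ceil X
  linarith

theorem kT_le (H d N : ℕ) : kT H d N ≤ N - d := Nat.mul_div_le _ _

theorem lt_kT {H : ℕ} (hH : 0 < H) (d N : ℕ) : N - d < kT H d N + H := by
  have := Nat.lt_mul_div_succ (N - d) hH
  unfold kT
  rw [mul_add, mul_one] at this
  exact this

theorem kT_le_N (H d N : ℕ) : kT H d N ≤ N := (kT_le H d N).trans (Nat.sub_le _ _)

/-- **The rows of the sums of the exchange**, for every context: `d ≤ k`, `k ≤ N`, `M + N ≤ 2 k`. -/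
theorem dims98 {μ : Measure ℝ} {s c δ κ : ℝ} {n H d : ℕ} {Γ : Cx} (hA : Adm μ s c δ κ n Γ) (hn : 2 ≤ n) (hH : 0 < H)
    (hHn : H ≤ n) (hd : d ≤ n) :
    d ≤ kT H d Γ.N ∧ kT H d Γ.N ≤ Γ.N ∧ Γ.M + Γ.N ≤ 2 * kT H d Γ.N ∧ kT H d Γ.N + d ≤ Γ.N ∧ Γ.N < kT H d Γ.N + d + H := by
  obtain ⟨N', L, h1, -, h3, -, h5, h6, -⟩ := hA.hor
  have k1 := kT_le H d Γ.N
  have k2 := lt_kT hH d Γ.N
  have k3 : 4 * N' ≤ N' ^ 3 := by
    have : 2 ≤ N' := hn.trans h1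
    calc 4 * N' = 2 * 2 * N' := by ring
      _ ≤ N' * N' * N' := by gcongr
      _ = N' ^ 3 := by ring
  refine ⟨?_, ?_, ?_, ?_, ?_⟩ <;> omega

/-- **The rows of the sums of the exchange, with `n` rows above the last row**: `k = kT H d (N - n)`. -/
theorem dims98n {μ : Measure ℝ} {s c δ κ : ℝ} {n H d : ℕ} {Γ : Cx} (hA : Adm μ s c δ κ n Γ) (hn : 3 ≤ n) (hH : 0 < H)
    (hHn : H ≤ n) (hd : d ≤ n) :
    d ≤ kT H d (Γ.N - n) ∧ kT H d (Γ.N - n) + n ≤ Γ.N ∧ Γ.M + Γ.N ≤ 2 * kT H d (Γ.N - n) ∧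
      kT H d (Γ.N - n) + n + d ≤ Γ.N ∧ Γ.N < kT H d (Γ.N - n) + n + d + H := by
  obtain ⟨N', L, h1, -, h3, -, h5, h6, -⟩ := hA.hor
  have k1 := kT_le H d (Γ.N - n)
  have k2 := lt_kT hH d (Γ.N - n)
  have k3 : 9 * N' ≤ N' ^ 3 := by
    have : 3 ≤ N' := hn.trans h1
    calc 9 * N' = 3 * 3 * N' := by ring
      _ ≤ N' * N' * N' := by gcongr
      _ = N' ^ 3 := by ring
  refine ⟨?_, ?_, ?_, ?_, ?_⟩ <;> omega

/-- **The first row**: a multiple of `H`, `2 T ≤ d ≤ ⌈X⌉`, if `H ≤ T` and `4 T ≤ X`. -/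
theorem dT98 {H T : ℕ} (hH : 0 < H) (hT : H ≤ T) {X : ℝ} (hX : 4 * (T : ℝ) ≤ X) :
    H ∣ dT H X ∧ 2 * T ≤ dT H X ∧ dT H X ≤ ⌈X⌉₊ := by
  refine ⟨Dvd.intro _ rfl, ?_, dT_le H X⟩
  have h1 : (H : ℝ) ≤ T := by exact_mod_cast hT
  have h2 := half_le_dT hH (X := X) (by linarith)
  have h3 : (2 : ℝ) * T ≤ dT H X := by linarith
  exact_mod_cast h3

/-- The block numbers of the rows. -/
theorem dT_mul {H : ℕ} (hH : 0 < H) (X : ℝ) : H * (dT H X / H) = dT H X := by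
  unfold dT
  rw [Nat.mul_div_cancel_left _ hH]

theorem kT_mul {H : ℕ} (hH : 0 < H) (d N : ℕ) : H * (kT H d N / H) = kT H d N := by
  unfold kT
  rw [Nat.mul_div_cancel_left _ hH]

end numbers

section zero

/-- The left group of a context lives at the site `0`. -/
theorem fw_l_zero (w : ℕ → ℤ → ℝ) (p : ℕ → ℝ) {k : ℕ} {y : ℤ} (h : y < 0 ∨ (k : ℤ) < y) :
    fw w p Cx.l k y = 0 := by
  rcases h with h | h
  · refine fw_lo (A := 0) (fun y hy => ?_) k y h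
    unfold Cx.l
    rw [if_neg hy.ne]
  · refine fw_hi (B := 0) (fun y hy => ?_) k y (by simpa using h)
    unfold Cx.l
    rw [if_neg hy.ne']

theorem fw_r_zero (Γ : Cx) (w : ℕ → ℤ → ℝ) (p : ℕ → ℝ) {k : ℕ} {y : ℤ} (h : y < 1) : fw w p Γ.r k y = 0 := by
  refine fw_lo (A := 1) (fun y hy => ?_) k y h
  unfold Cx.r
  rw [if_neg]
  omega

/-- **No pair of paths which have not met is at `x - 1`, `x` for `x ≤ 0` or `x > i + 1`.** -/
theorem dp_zero98 (Γ : Cx) (w : ℕ → ℤ → ℝ) (p : ℕ → ℝ) {k : ℕ} {x : ℤ} (h : x ≤ 0 ∨ (k : ℤ) + 1 < x) :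
    dp w p Cx.l Γ.r k (x - 1) x = 0 := by
  unfold dp
  rcases h with h | h
  · rw [fw_l_zero w p (Or.inl (by omega)), fw_r_zero Γ w p (by omega : x - 1 < 1)]
    ring
  · rw [fw_l_zero w p (Or.inr (by omega)), fw_l_zero w p (k := k) (y := x) (Or.inr (by omega))]
    ring

theorem w_zero98 (Γ : Cx) {c : ℕ × ℤ} (h : c.2 ≤ 0 ∨ (c.1 : ℤ) + 1 < c.2) (η : Env) : Γ.w c η = 0 := by
  unfold Cx.w
  rw [dp_zero98 Γ _ _ h]
  simp

theorem ws_zero98 (Γ : Cx) {c : ℕ × ℤ} (h : c.2 ≤ 0 ∨ (c.1 : ℤ) + 1 < c.2) (η : Env) : Γ.ws c η = 0 := by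
  unfold Cx.ws
  rw [dp_zero98 Γ _ _ h]
  simp

end zero

section context

variable (G : Gd) (m j0 j1 N : ℕ)

/-- A bound of the columns. -/
def Xc (G : Gd) (K N : ℕ) : ℤ := N + 2 + ∑ i ∈ range K, |G.s i|

theorem Xc_nonneg (K : ℕ) : 0 ≤ Xc G K N := by
  unfold Xc
  have : 0 ≤ ∑ i ∈ range K, |G.s i| := sum_nonneg fun i _ => abs_nonneg _
  positivity

/-- **The sites**: a union of top boxes which contains all contacts of the rows `[H m * j0, H m * j1)`. -/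
noncomputable def Sc : Finset (ℕ × ℤ) := St G m j0 j1 (-Xc G (G.H m * j1) N) (Xc G (G.H m * j1) N + 1)

variable {G m j0 j1 N} {L : ℕ}

theorem sub_Sc (h : G.Ok L) (hm : m ≤ L) {i : ℕ} {x : ℤ} (h1 : G.H m * j0 ≤ i) (h2 : i < G.H m * j1) (h3 : 0 ≤ x)
    (h4 : x ≤ 1 + (N : ℤ)) : (i, x) ∈ Sc G m j0 j1 N := by
  unfold Sc
  rw [mem_St]
  refine ⟨⟨h1, h2⟩, ?_⟩
  have hs : |G.s i| ≤ ∑ i ∈ range (G.H m * j1), |G.s i| :=
    single_le_sum (f := fun i => |G.s i|) (fun i _ => abs_nonneg _) (mem_range.2 h2)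
  have hs' := abs_le.1 hs
  have hV : (1 : ℤ) ≤ G.V m := by exact_mod_cast h.V0 m hm
  have hX : N + 2 + ∑ i ∈ range (G.H m * j1), |G.s i| = Xc G (G.H m * j1) N := rfl
  have hX0 := Xc_nonneg G N (G.H m * j1)
  constructor
  · show (G.V m : ℤ) * -Xc G (G.H m * j1) N ≤ x - G.s i
    nlinarith
  · show x - G.s i < (G.V m : ℤ) * (Xc G (G.H m * j1) N + 1)
    nlinarith

theorem rows_sub98 (h : G.Ok L) (hm : m ≤ L) (Γ : Cx) : Γ.rows (G.H m * j0) (G.H m * j1) ⊆ Sc G m j0 j1 Γ.N := by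
  rintro ⟨i, x⟩ hc
  unfold Cx.rows at hc
  rw [mem_product, mem_Ico, mem_Icc] at hc
  exact sub_Sc h hm hc.1.1 hc.1.2 (by omega) hc.2.2

/-- **The sum over the contacts = the sum over the sites of the top boxes.** -/
theorem sum_Sc {A : Type*} [AddCommMonoid A] (h : G.Ok L) (hm : m ≤ L) (Γ : Cx) (hN : G.H m * j1 ≤ Γ.N) (f : ℕ × ℤ → A)
    (hf : ∀ c : ℕ × ℤ, c.2 ≤ 0 ∨ (c.1 : ℤ) + 1 < c.2 → f c = 0) :
    ∑ c ∈ Sc G m j0 j1 Γ.N, f c = ∑ c ∈ Γ.rows (G.H m * j0) (G.H m * j1), f c := by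
  refine (sum_subset (rows_sub98 h hm Γ) fun c hc hn => hf c ?_).symm
  have h1 := (mem_St.1 hc).1
  unfold Cx.rows at hn
  rw [mem_product, mem_Ico, mem_Icc] at hn
  have h2 : c.1 < Γ.N := h1.2.trans_le hN
  by_contra hcon
  push Not at hcon
  exact hn ⟨h1, by omega, by omega⟩

/-- Two contexts, all pairs. -/
theorem sum_Sc2 {A : Type*} [AddCommMonoid A] (h : G.Ok L) (hm : m ≤ L) {j0' j1' : ℕ} (Γ Γ' : Cx) (hN : G.H m * j1 ≤ Γ.N)
    (hN' : G.H m * j1' ≤ Γ'.N) (f : (ℕ × ℤ) × (ℕ × ℤ) → A)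
    (hf : ∀ c : (ℕ × ℤ) × (ℕ × ℤ), (c.1.2 ≤ 0 ∨ (c.1.1 : ℤ) + 1 < c.1.2) ∨ (c.2.2 ≤ 0 ∨ (c.2.1 : ℤ) + 1 < c.2.2) → f c = 0) :
    ∑ c ∈ Sc G m j0 j1 Γ.N ×ˢ Sc G m j0' j1' Γ'.N, f c =
      ∑ c ∈ Γ.rows (G.H m * j0) (G.H m * j1) ×ˢ Γ'.rows (G.H m * j0') (G.H m * j1'), f c := by
  rw [sum_product, sum_product]
  rw [sum_Sc h hm Γ hN (fun c => ∑ c' ∈ Sc G m j0' j1' Γ'.N, f (c, c')) fun c hc => sum_eq_zero fun c' _ => hf _ (Or.inl hc)]
  refine sum_congr rfl fun c _ => ?_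
  exact sum_Sc h hm Γ' hN' (fun c' => f (c, c')) fun c' hc' => hf _ (Or.inr hc')

/-- The number of sites. -/
theorem card_Sc : (Sc G m j0 j1 N).card = (G.H m * (j1 - j0)) * (G.V m * (2 * Xc G (G.H m * j1) N + 1).toNat) := by
  unfold Sc
  rw [card_St]
  · congr 3
    ring
  · have := Xc_nonneg G N (G.H m * j1)
    omega

/-- The partner of a pair of sites is a pair of sites. -/
theorem pm_mem_Sc (h : G.Ok L) (hm : m ≤ L) {k : ℕ} (hk : k ≤ m) {j0' j1' N' : ℕ} {p : (ℕ × ℤ) × (ℕ × ℤ)}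
    (hp : p ∈ Sc G m j0 j1 N ×ˢ Sc G m j0' j1' N') : G.pm k p ∈ Sc G m j0 j1 N ×ˢ Sc G m j0' j1' N' :=
  pm_mem h hm hk hp

/-- The sum of the columns: `|s r - sl r| ≤ e` gives a bound of `Xc`. -/
theorem Xc_le {sl e : ℝ} {K : ℕ} (he : ∀ r, |(G.s r : ℝ) - sl * r| ≤ e) :
    (Xc G K N : ℝ) ≤ N + 2 + K * (|sl| * K + e) := by
  unfold Xc
  push_cast
  have h1 : ∑ i ∈ range K, |(G.s i : ℝ)| ≤ ∑ _i ∈ range K, (|sl| * K + e) := by
    refine sum_le_sum fun i hi => ?_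
    have h2 := he i
    have h3 : (i : ℝ) ≤ K := by exact_mod_cast (mem_range.1 hi).le
    have h4 : |(G.s i : ℝ)| ≤ |(G.s i : ℝ) - sl * i| + |sl * i| := by
      have := abs_add_le ((G.s i : ℝ) - sl * i) (sl * i)
      rwa [sub_add_cancel] at this
    rw [abs_mul, abs_of_nonneg (Nat.cast_nonneg (α := ℝ) i)] at h4
    have h5 : |sl| * (i : ℝ) ≤ |sl| * K := mul_le_mul_of_nonneg_left h3 (abs_nonneg sl)
    linarith
  rw [sum_const, card_range, nsmul_eq_mul] at h1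
  linarith

end context

end Pool.Agent.W_7d29a1_C1.T98
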