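import Pool.Agent.W_7d29a1_C1.CloC54
import Pool.Agent.W_7d29a1_C1.TileC98
import Pool.Agent.W_7d29a1_C1.Tow10

/-!
Both halves (MP_7d29a1_pr), attractor route [C1]: THE FUNCTIONS OF THE INSIDE, SEEN FROM THE BASE POINT OF THE BOX. (helper97)

`WI ρ ζ` : the weights of the rows `ρ, ρ + 1, ..` of the environment `ζ` seen from a base point; `vW97`, `PW97` : the first meeting weight
and the total functional of the inside as functions of the place in the box and of the shifted environment (the fields `vI`, `PI` of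
`Sd8`); `off_vW97`, `off_PW97` : they read the rows `ρ ≤ i < ρ + D` only (`ov`, `oP` of `SdOk8`); `clo97` : the field `close` of `Cp8`
from `close54`.
-/

set_option autoImplicit false
set_option linter.unusedSectionVars false

namespace Pool.Agent.W_7d29a1_C1.W97

open Finset MeasureTheory
open Pool.Agent.W_7d29a1_F
open Pool.Agent.W_7d29a1_C1.K91 (shw wt wt_pos)
open Pool.Agent.W_7d29a1_C1.K97
open Pool.Agent.W_7d29a1_C1.L91
open Pool.Agent.W_7d29a1_C1.K91P (fw bw shp bw_pos)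
open Pool.Agent.W_7d29a1_C1.R26P
open Pool.Agent.W_7d29a1_C1.F74
open Pool.Agent.W_7d29a1_C1.H60
open Pool.Agent.W_7d29a1_C1.H60.Cx (l uc mem_rows)
open Pool.Agent.W_7d29a1_C1.H1c
open Pool.Agent.W_7d29a1_C1.T97
open Pool.Agent.W_7d29a1_C1.Ch87
open Pool.Agent.W_7d29a1_C1.S71
open Pool.Agent.W_7d29a1_C1.T10 (Gd pt)
open Pool.Agent.W_7d29a1_C1.H54

noncomputable section

/-! ### The weights of the inside -/

/-- The weights of the inside, seen from the base point: row `i` is the row `ρ + i` of `ζ`. -/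
def WI (ρ : ℤ) (ζ : Env) (i : ℕ) (y : ℤ) : ℝ := Real.exp (ζ (ρ + (i : ℤ), y))

theorem WI_pos (ρ : ℤ) (ζ : Env) (i : ℕ) (y : ℤ) : 0 < WI ρ ζ i y := Real.exp_pos _

/-- The weights of the inside are those of the rows `c0, c0 + 1, ..` of the plane. -/
theorem shc_shw97 {η : Env} {z : Pt} {ρ : ℤ} {c0 : ℕ} (h1 : 1 ≤ c0) (h : (c0 : ℤ) = z.1 + ρ) :
    shc z.2 (shw (wt η) c0) = WI ρ (sh z η) := by
  funext i y
  show wt η (c0 + i) (y + z.2) = Real.exp (η ((ρ + (i : ℤ), y) + z))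
  unfold wt
  rw [if_neg (by omega)]
  have e : ((ρ + (i : ℤ), y) + z : Pt) = (((c0 + i : ℕ) : ℤ), y + z.2) := by
    refine Prod.ext ?_ rfl
    show ρ + (i : ℤ) + z.1 = ((c0 + i : ℕ) : ℤ)
    push_cast
    omega
  rw [e]

/-- Agreement on the rows of the inside. -/
theorem WI_congr {ρ : ℤ} {D : ℕ} {A : Set Pt} (hA : ∀ i < D, ∀ y : ℤ, ((ρ + (i : ℤ), y) : Pt) ∈ A) {ζ ζ' : Env}
    (h : ∀ p, p ∉ Aᶜ → ζ p = ζ' p) : ∀ i < D, ∀ y, WI ρ ζ i y = WI ρ ζ' i y := by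
  intro i hi y
  unfold WI
  rw [h _ (by simpa using hA i hi y)]

/-! ### The two functions -/

/-- **The first meeting weight of the inside, by the place `y` in the box.** -/
def vW97 (ρ : ℤ) (P : ℕ → ℝ) (n1 D' D : ℕ) (α1 α2 : ℤ) (y : ℕ × ℤ) (ζ : Env) : ℝ :=
  if (n1 : ℤ) ≤ y.1 - ρ ∧ (y.1 : ℤ) - ρ < D' then
    Win (WI ρ ζ) P (((y.1 : ℤ) - ρ).toNat) (D - (((y.1 : ℤ) - ρ).toNat + 1)) α1 α2 y.2
  else 0

/-- **The total functional of the inside.** -/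
def PW97 (ρ : ℤ) (P : ℕ → ℝ) (n1 D' D : ℕ) (α1 α2 : ℤ) (ζ : Env) : ℝ := FPhC (WI ρ ζ) P n1 D' D α1 α2

theorem off_vW97 {ρ : ℤ} {P : ℕ → ℝ} {n1 D' D : ℕ} (hD : D' ≤ D) {A : Set Pt}
    (hA : ∀ i < D, ∀ y : ℤ, ((ρ + (i : ℤ), y) : Pt) ∈ A) (α1 α2 : ℤ) (y : ℕ × ℤ) : OffF Aᶜ (vW97 ρ P n1 D' D α1 α2 y) := by
  intro ζ ζ' h
  unfold vW97
  split_ifs with hy
  · refine Win_congr (fun i hi => WI_congr hA h i ?_) (fun _ _ => rfl) _ _ _
    omega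
  · rfl

theorem off_PW97 {ρ : ℤ} {P : ℕ → ℝ} {n1 D' D : ℕ} (hD : D' ≤ D) {A : Set Pt}
    (hA : ∀ i < D, ∀ y : ℤ, ((ρ + (i : ℤ), y) : Pt) ∈ A) (α1 α2 : ℤ) : OffF Aᶜ (PW97 ρ P n1 D' D α1 α2) := by
  intro ζ ζ' h
  exact FPhC_congr hD (WI_congr hA h) (fun _ _ => rfl) _ _

/-! ### The shift -/

/-- The weight of the inside at a contact of the plane. -/
theorem Win_vW97 {η : Env} {z : Pt} {ρ : ℤ} {c0 : ℕ} (h1 : 1 ≤ c0) (h : (c0 : ℤ) = z.1 + ρ) (P : ℕ → ℝ) {n1 D' : ℕ} (D : ℕ)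
    {a1 a2 α1 α2 : ℤ} (e1 : a1 = z.2 + α1) (e2 : a2 = z.2 + α2) {K : ℕ} (hK : n1 ≤ K) (hK' : K < D') {y : ℕ × ℤ} {x : ℤ}
    (hy : (y.1 : ℤ) = ρ + K) (hx : x = z.2 + y.2) :
    vW97 ρ P n1 D' D α1 α2 y (sh z η) = Win (shw (wt η) c0) P K (D - (K + 1)) a1 a2 x := by
  have e : ((y.1 : ℤ) - ρ).toNat = K := by omega
  unfold vW97
  rw [if_pos ⟨by omega, by omega⟩, e, ← shc_shw97 h1 h, ← Win_sh (shw (wt η) c0) P K (D - (K + 1)) a1 a2 x z.2,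
    show α1 = a1 - z.2 by omega, show α2 = a2 - z.2 by omega, show y.2 = x - z.2 by omega]

/-- The total of the inside in the plane. -/
theorem FPhC_PW97 {η : Env} {z : Pt} {ρ : ℤ} {c0 : ℕ} (h1 : 1 ≤ c0) (h : (c0 : ℤ) = z.1 + ρ) (P : ℕ → ℝ) (n1 D' D : ℕ)
    {a1 a2 α1 α2 : ℤ} (e1 : a1 = z.2 + α1) (e2 : a2 = z.2 + α2) :
    PW97 ρ P n1 D' D α1 α2 (sh z η) = FPhC (shw (wt η) c0) P n1 D' D a1 a2 := by
  unfold PW97
  rw [← shc_shw97 h1 h, ← FPhC_sh (shw (wt η) c0) P n1 D' D a1 a2 z.2, show α1 = a1 - z.2 by omega, show α2 = a2 - z.2 by omega]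

/-- The step weights of a context against the flat ones. -/
theorem mc_p97 (Γ : Cx) (i : ℕ) : mc (Real.exp |Γ.h|) (Γ.p i) (Real.exp Γ.s) := by
  have a1 := le_abs_self Γ.h
  have a2 := neg_abs_le Γ.h
  unfold Cx.p
  split_ifs
  · constructor
    · rw [← Real.exp_add]
      exact Real.exp_le_exp.2 (by linarith)
    · rw [← Real.exp_add]
      exact Real.exp_le_exp.2 (by linarith)
  · have h1 := Real.one_le_exp (abs_nonneg Γ.h)
    have h2 := Real.exp_pos Γ.s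
    constructor <;> nlinarith

/-- The number of the tilt: `(exp |h|) ^ D) ^ 16 - 1`. -/
theorem th_le97 {h x : ℝ} {D : ℕ} (hx : 16 * (|h| * D) ≤ x) (hx1 : x ≤ 1 / 4) :
    (Real.exp |h| ^ D) ^ 16 ≤ 3 / 2 ∧ (Real.exp |h| ^ D) ^ 16 - 1 ≤ 2 * x := by
  have e : (Real.exp |h| ^ D) ^ 16 = Real.exp (16 * (|h| * D)) := by
    rw [← Real.exp_nat_mul, ← Real.exp_nat_mul]
    congr 1
    push_cast
    ring
  have h0 : 0 ≤ 16 * (|h| * D) := by positivity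
  rw [e]
  have h2 : Real.exp (16 * (|h| * D)) ≤ 1 + 2 * (16 * (|h| * D)) := by
    have b := Real.abs_exp_sub_one_le (x := 16 * (|h| * D)) (by rw [abs_of_nonneg h0]; linarith)
    rw [abs_of_nonneg h0, abs_of_nonneg (by have := Real.one_le_exp h0; linarith)] at b
    linarith
  constructor <;> linarith

/-! ### The field `close` -/

variable {Γ : Cx} {η : Env} {c0 n1 D' D : ℕ} {a1 a2 α1 α2 ρ : ℤ} {τ τ' : ℝ} {G : Gd} {L j : ℕ} {c : ℕ × ℤ}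

/-- **THE FIELD `close` FOR ONE LEAF**: the base point `G.x j c` of the box of level `j` of the leaf `c`; the inside starts in the row
`c0 = (G.x j c).1 + ρ` at the columns `(G.x j c).2 + α1`, `(G.x j c).2 + α2`; the leaf is in a middle row. -/
theorem clo97 (hG : G.Ok L) (hj : j ≤ L) (h : Γ.Ok) {X u t Kr B θx : ℝ} (S : SucC Γ η c0 n1 D' D a1 a2 τ τ')
    (hX : H54.NB54 Γ X η) (hu : ∀ b ∈ Γ.rows 0 Γ.N, uc b η ≤ u) (hKr : ∀ i < Γ.N, M83.Kr Γ i u X ≤ Kr) (hKr0 : 0 ≤ Kr)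
    (mt : 1 - t ≤ Mtp (shw (wt η) c0) (shp Γ.p c0) n1 D' D a1 a2) (hh : 16 * (|Γ.h| * D) ≤ θx) (hθ : θx ≤ 1 / 4)
    (hB : ∀ K, n1 ≤ K → K < D' → (Kt (Γ.p (c0 + K)) (Real.exp u) (2 * Real.exp X) +
      Kl (Γ.p (c0 + K)) (Real.exp u) (2 * Real.exp X)) * Γ.p (c0 + K) ≤ B) (hB0 : 0 ≤ B)
    (h1 : 1 ≤ c0) (hρ : (c0 : ℤ) = (G.x j c).1 + ρ) (e1 : a1 = (G.x j c).2 + α1) (e2 : a2 = (G.x j c).2 + α2)
    (hc1 : c0 + n1 ≤ c.1) (hc2 : c.1 < c0 + D') :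
    |Γ.w c η - vW97 ρ (fun _ => Real.exp Γ.s) n1 D' D α1 α2 (G.rel j c) (sh (G.x j c) η)| ≤ 2 * τ' + 2 * θx * Γ.w c η ∧
    |PhS Γ (chiC Γ) η - PW97 ρ (fun _ => Real.exp Γ.s) n1 D' D α1 α2 (sh (G.x j c) η)| ≤
      (D' - n1 : ℕ) * ((Γ.N + 1 : ℕ) * τ) + 2 * Kr * (t + (D' - n1 : ℕ) * ((Γ.N + 1 : ℕ) * τ')) +
        (D' - n1 : ℕ) * (((a2 - a1 + D' : ℤ) : ℝ) * (2 * (B * (2 * θx)))) := by
  obtain ⟨t1, t2⟩ := th_le97 hh hθ
  have T0 : 0 ≤ (Real.exp |Γ.h| ^ D) ^ 16 - 1 := by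
    have := one_le_pow₀ (one_le_pow₀ (Real.one_le_exp (abs_nonneg Γ.h)) (n := D)) (n := 16)
    linarith
  have hS := S.hD
  have hN := S.hN
  have g1 := S.g1
  have g2 := S.g2
  have g3 := S.g3
  obtain ⟨k1, k2⟩ := H54.close54 (P' := fun _ => Real.exp Γ.s) (θ := Real.exp |Γ.h|) h S hX hu hKr hKr0 mt
    (fun _ => Real.exp_pos _) (Real.one_le_exp (abs_nonneg _)) (fun i _ => mc_p97 Γ _) t1 hB
  obtain ⟨K, hK⟩ : ∃ K, c.1 = c0 + K := ⟨c.1 - c0, by omega⟩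
  have hzr := hG.z_add_rel hj c
  have hr1 : ((G.rel j c).1 : ℤ) = ρ + K := by
    have : (G.z j c).1 + (G.rel j c).1 = c.1 := congrArg Prod.fst hzr
    have hx1 : (G.x j c).1 = ((G.z j c).1 : ℤ) := rfl
    rw [hx1] at hρ
    omega
  have hr2 : c.2 = (G.x j c).2 + (G.rel j c).2 := (congrArg Prod.snd hzr).symm
  have w0 := Cx.w_nonneg h c η
  have τ0 : 0 ≤ τ' := by
    have m : (1 : ℤ) ∈ Icc (1 : ℤ) (1 + Γ.N) := mem_Icc.2 ⟨le_rfl, by omega⟩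
    exact (abs_nonneg _).trans (S.w K (by omega) (by omega) 1 m)
  have ec : c = (c0 + K, c.2) := Prod.ext hK rfl
  have A2 : (0 : ℝ) ≤ ((a2 - a1 + D' : ℤ) : ℝ) := by exact_mod_cast (by omega : (0 : ℤ) ≤ a2 - a1 + D')
  constructor
  · rw [Win_vW97 h1 hρ (fun _ => Real.exp Γ.s) D e1 e2 (n1 := n1) (D' := D') (by omega) (by omega) hr1 hr2]
    by_cases hx : c.2 ∈ Icc (1 : ℤ) (1 + Γ.N)
    · have := k1 K (by omega) (by omega) c.2 hx
      rw [← ec] at this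
      refine this.trans ?_
      have := mul_le_mul_of_nonneg_right t2 w0
      linarith
    · have hx' : c.2 ≤ 0 ∨ (c.1 : ℤ) + 1 < c.2 := by
        rw [mem_Icc] at hx
        omega
      rw [T98.w_zero98 Γ hx', Win_out g2.le (by omega)]
      have : 0 ≤ θx := by linarith [abs_nonneg Γ.h, show 0 ≤ 16 * (|Γ.h| * D) by positivity]
      simp only [sub_zero, abs_zero, mul_zero, add_zero]
      linarith
  · rw [FPhC_PW97 h1 hρ (fun _ => Real.exp Γ.s) n1 D' D e1 e2]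
    refine k2.trans ?_
    have := mul_le_mul_of_nonneg_left t2 hB0
    have h3 : (((a2 - a1 + D' : ℤ) : ℝ) * (2 * (B * ((Real.exp |Γ.h| ^ D) ^ 16 - 1)))) ≤
        (((a2 - a1 + D' : ℤ) : ℝ) * (2 * (B * (2 * θx)))) :=
      mul_le_mul_of_nonneg_left (by linarith) A2
    have h4 := mul_le_mul_of_nonneg_left h3 (Nat.cast_nonneg (α := ℝ) (D' - n1))
    linarith

end

end Pool.Agent.W_7d29a1_C1.W97
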