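import Pool.Agent.W_7d29a1_C1.Num17
import Pool.Agent.W_7d29a1_HZ.PB

/-!
MP_7d29a1_pr, attractor route, row 690 section 7 (helper17): the numbers for the units and the widths.
-/

set_option autoImplicit false

namespace Pool.Agent.W_7d29a1_C1

open MeasureTheory ProbabilityTheory Filter Topology
open Pool.Agent.W_7d29a1_H Pool.Agent.W_7d29a1_HS
open Pool.Agent.W_7d29a1_HZ (EE'_pow wd'_eq wd'_pow)

variable {μ : Measure ℝ} {s : ℝ} [IsProbabilityMeasure μ] {c C : ℝ} {n₀ : ℕ}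

/-- The growth of the units. -/
theorem grE17 (h : In μ s c C n₀) : ∃ (a k : ℝ) (n₁ : ℕ), a < 1 ∧ GrE17 (EE μ s) a (1 / 2) k n₁ := by
  obtain ⟨a, K, ha, ha1, hK1, hK⟩ := EE'_pow h
  obtain ⟨n₂, hn₂⟩ := wd'_eq h
  have hK0 : 0 < K := by linarith
  refine ⟨a, K⁻¹, max n₂ 1, ha1, ha, by norm_num, by positivity, inv_le_one_of_one_le₀ hK1, le_max_right _ _,
    fun n _ => EE_pos n, fun m n hm hmn => ?_, fun m n hm hmn => ?_⟩
  · have h1 := (hK m n ((le_max_right _ _).trans hm) hmn).2.1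
    rw [(hn₂ m ((le_max_left _ _).trans hm)).2.1, (hn₂ n ((le_max_left _ _).trans (hm.trans hmn))).2.1] at h1
    exact h1
  · have h1 := (hK m n ((le_max_right _ _).trans hm) hmn).2.2
    rw [(hn₂ m ((le_max_left _ _).trans hm)).2.1, (hn₂ n ((le_max_left _ _).trans (hm.trans hmn))).2.1,
      Real.sqrt_eq_rpow] at h1
    rw [inv_mul_le_iff₀ hK0]
    linarith

/-- The growth of the widths. -/
theorem grW17 (h : In μ s c C n₀) : ∃ (a k : ℝ) (n₁ : ℕ), a < 1 ∧ GrE17 (wd μ s) a (1 - a) k n₁ := by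
  obtain ⟨a, K, ha, ha1, hK1, hK⟩ := wd'_pow h
  obtain ⟨n₂, hn₂⟩ := wd'_eq h
  have hK0 : 0 < K := by linarith
  refine ⟨a, K⁻¹, max n₂ 1, ha1, ha, by linarith, by positivity, inv_le_one_of_one_le₀ hK1, le_max_right _ _,
    fun n hn => ?_, fun m n hm hmn => ?_, fun m n hm hmn => ?_⟩
  · have h1 : 1 ≤ n := (le_max_right _ _).trans hn
    have hn0 : (0 : ℝ) < n := by exact_mod_cast h1
    exact lt_of_lt_of_le (Real.rpow_pos_of_pos hn0 _) (hn₂ n ((le_max_left _ _).trans hn)).2.2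
  · have h1 := (hK m n ((le_max_right _ _).trans hm) hmn).2.1
    rw [(hn₂ m ((le_max_left _ _).trans hm)).1, (hn₂ n ((le_max_left _ _).trans (hm.trans hmn))).1] at h1
    exact h1
  · have h1 := (hK m n ((le_max_right _ _).trans hm) hmn).2.2
    rw [(hn₂ m ((le_max_left _ _).trans hm)).1, (hn₂ n ((le_max_left _ _).trans (hm.trans hmn))).1] at h1
    rw [inv_mul_le_iff₀ hK0]
    linarith

end Pool.Agent.W_7d29a1_C1
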