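import Pool.Agent.W_7d29a1_C1.FarK89
import Pool.Agent.W_7d29a1_C1.NumM17

/-!
Both halves (MP_7d29a1_pr), attractor route, leaf 11 (ii) of row 690: THE COST OF THE SLABS at geometric scales. (helper89)

`cost_geo`: scales `T₀ K ^ σ u` (outward or inward), levels `q u ≤ q₀ R ^ (t - σ u)` with a fixed `R > 1`: the cost hypothesis of
`FarW89.Slabs` with a constant `Q` which depends on `q₀` only. `pow_le_R`: polynomial levels are covered.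
-/

set_option autoImplicit false

namespace Pool.Agent.W_7d29a1_C1.FarN89

open MeasureTheory ProbabilityTheory Filter Topology Finset
open Pool.Agent.W_7d29a1_H Pool.Agent.W_7d29a1_HS Pool.Agent.W_7d29a1_C1.FarK89

noncomputable section

/-- The summable profile. -/
theorem summ {x : ℝ} (hx0 : 0 < x) (hx : x < 1) (P : ℕ) : Summable fun j : ℕ => (1 + (j : ℝ)) ^ P * x ^ j := by
  have h1 : Summable fun j : ℕ => ((j : ℝ)) ^ P * x ^ j :=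
    summable_pow_mul_geometric_of_norm_lt_one P (by rw [Real.norm_of_nonneg hx0.le]; exact hx)
  have h2 := (summable_nat_add_iff 1).2 h1
  have h3 := h2.mul_left x⁻¹
  refine h3.congr fun j => ?_
  rw [pow_succ]
  push_cast
  rw [add_comm (1 : ℝ) (j : ℝ)]
  field_simp

/-- Sum over an injective family. -/
theorem sum_inj {f : ℕ → ℝ} (hf : Summable f) (hf0 : ∀ j, 0 ≤ f j) (S : Finset ℕ) {g : ℕ → ℕ} (hg : Set.InjOn g S) :
    ∑ u ∈ S, f (g u) ≤ ∑' j, f j := by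
  rw [← sum_image hg]
  exact hf.sum_le_tsum _ fun i _ => hf0 i

/-- Polynomials are below the exponential. -/
theorem pow_le_R {R : ℝ} (hR : 1 < R) (ρ : ℕ) : ∃ C : ℝ, 0 < C ∧ ∀ j : ℕ, (1 + (j : ℝ)) ^ ρ ≤ C * R ^ j := by
  have hR0 : 0 < R := by linarith
  have h1 := (summ (x := R⁻¹) (by positivity) (inv_lt_one_of_one_lt₀ hR) ρ)
  obtain ⟨A, hA⟩ : ∃ A : ℝ, A = ∑' j : ℕ, (1 + (j : ℝ)) ^ ρ * (R⁻¹) ^ j := ⟨_, rfl⟩
  have h2 : ∀ j : ℕ, (1 + (j : ℝ)) ^ ρ * (R⁻¹) ^ j ≤ A := fun j => by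
    rw [hA]
    exact h1.le_tsum j fun i _ => by positivity
  refine ⟨A + 1, ?_, fun j => ?_⟩
  · have := h2 0
    have h3 : (0 : ℝ) ≤ (1 + ((0 : ℕ) : ℝ)) ^ ρ * (R⁻¹) ^ 0 := by positivity
    linarith
  · have h3 := h2 j
    have h4 : 0 < R ^ j := by positivity
    rw [inv_pow, ← div_eq_mul_inv, div_le_iff₀ h4] at h3
    nlinarith

variable {μ : Measure ℝ} {s : ℝ} [IsProbabilityMeasure μ] {c C : ℝ} {n₀ : ℕ}

/-- **THE COST AT GEOMETRIC SCALES**. -/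
theorem cost_geo (h0 : In μ s c C n₀) (P : ℕ) {K : ℕ} (hK : 2 ≤ K) : ∃ R : ℝ, 1 < R ∧ ∃ n₁ : ℕ, 1 ≤ n₁ ∧ ∀ q₀ : ℝ, 0 ≤ q₀ → ∃ Q : ℝ, 0 < Q ∧
    ∀ (T₀ t : ℕ) (S : Finset ℕ) (σ : ℕ → ℕ) (q : ℕ → ℝ), n₁ ≤ T₀ → Set.InjOn σ S → (∀ u ∈ S, σ u ≤ t) → (∀ u ∈ S, 0 ≤ q u) →
      (∀ u ∈ S, q u ≤ q₀ * R ^ (t - σ u)) →
      ∑ u ∈ S, (1 + q u) ^ 2 * gr (2 * P) (2 * wd μ s (T₀ * K ^ t) / wd μ s (T₀ * K ^ σ u)) * EE μ s (T₀ * K ^ σ u) ≤
        Q * EE μ s (T₀ * K ^ t) := by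
  obtain ⟨a, k, n₁, _, hE⟩ := grE17 h0
  obtain ⟨a', k', n₁', _, hW⟩ := grW17 h0
  have hk := hE.k0
  have hk' := hW.k0
  obtain ⟨x, hx⟩ : ∃ x : ℝ, x = (K : ℝ) ^ a := ⟨_, rfl⟩
  have hx1 : 1 < x := by rw [hx]; exact one_lt_rpow17 hK hE.a0
  have hx0 : 0 < x := by linarith
  obtain ⟨b, hb⟩ : ∃ b : ℝ, b = (K : ℝ) ^ (1 - a') := ⟨_, rfl⟩
  have hb1 : 1 < b := by rw [hb]; exact one_lt_rpow17 hK hW.b0
  have hb0 : 0 < b := by linarith
  obtain ⟨R, hR⟩ : ∃ R : ℝ, R = x ^ (1 / 4 : ℝ) := ⟨_, rfl⟩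
  have hR1 : 1 < R := by rw [hR]; exact Real.one_lt_rpow hx1 (by norm_num)
  have hR0 : 0 < R := by linarith
  have hR4 : R ^ 4 = x := by
    rw [hR, ← Real.rpow_natCast, ← Real.rpow_mul hx0.le]
    norm_num
  -- the constant of the gr factor
  obtain ⟨A, hA⟩ : ∃ A : ℝ, A = 1 + Real.log (1 + 2 / k') + Real.log b := ⟨_, rfl⟩
  have hA1 : 1 ≤ A := by
    have h1 : 0 ≤ Real.log (1 + 2 / k') := Real.log_nonneg (by have : 0 < 2 / k' := by positivity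
                                                               linarith)
    have h2 : 0 ≤ Real.log b := Real.log_nonneg hb1.le
    rw [hA]
    linarith
  have hx2 : (R ^ 2)⁻¹ < 1 := inv_lt_one_of_one_lt₀ (one_lt_pow₀ hR1 (by norm_num))
  have hsum := summ (x := (R ^ 2)⁻¹) (by positivity) hx2 (2 * P)
  obtain ⟨Z, hZ⟩ : ∃ Z : ℝ, Z = ∑' j : ℕ, (1 + (j : ℝ)) ^ (2 * P) * ((R ^ 2)⁻¹) ^ j := ⟨_, rfl⟩
  have hZ0 : 0 < Z := by
    have h1 := hsum.le_tsum 0 fun i _ => by positivity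
    rw [← hZ] at h1
    simp at h1
    linarith
  refine ⟨R, hR1, max n₁ n₁', hE.n1.trans (le_max_left _ _), fun q₀ hq₀ => ⟨(1 + q₀) ^ 2 * A ^ (2 * P) / k * Z, by positivity, ?_⟩⟩
  intro T₀ t S σ q hT hσ hσt hq0 hq
  have hT1 : n₁ ≤ T₀ := (le_max_left _ _).trans hT
  have hT2 : n₁' ≤ T₀ := (le_max_right _ _).trans hT
  have hKp : ∀ j : ℕ, 0 < K ^ j := fun j => Nat.pos_of_ne_zero (by positivity)
  have hEt := EE_pos (μ := μ) (s := s) (T₀ * K ^ t)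
  have key : ∀ u ∈ S, (1 + q u) ^ 2 * gr (2 * P) (2 * wd μ s (T₀ * K ^ t) / wd μ s (T₀ * K ^ σ u)) * EE μ s (T₀ * K ^ σ u) ≤
      (1 + q₀) ^ 2 * A ^ (2 * P) / k * EE μ s (T₀ * K ^ t) * ((1 + ((t - σ u : ℕ) : ℝ)) ^ (2 * P) * ((R ^ 2)⁻¹) ^ (t - σ u)) := by
    intro u hu
    obtain ⟨j, hj⟩ : ∃ j : ℕ, j = t - σ u := ⟨_, rfl⟩
    have hjt : σ u + j = t := by have := hσt u hu; omega
    have hTu : n₁ ≤ T₀ * K ^ σ u := hT1.trans (Nat.le_mul_of_pos_right T₀ (hKp _))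
    have hTu' : n₁' ≤ T₀ * K ^ σ u := hT2.trans (Nat.le_mul_of_pos_right T₀ (hKp _))
    have e1 : T₀ * K ^ σ u * K ^ j = T₀ * K ^ t := by rw [mul_assoc, ← pow_add, hjt]
    have h1 := hE.lo_sc hTu (by omega : 1 ≤ K) j
    have h2 := hW.up_sc hTu' (by omega : 1 ≤ K) j
    rw [e1, ← hx] at h1
    rw [e1, ← hb] at h2
    have hEu := EE_pos (μ := μ) (s := s) (T₀ * K ^ σ u)
    have hwu : 0 < wd μ s (T₀ * K ^ σ u) := hW.pos _ hTu'
    have hwt : 0 < wd μ s (T₀ * K ^ t) := hW.pos _ (hT2.trans (Nat.le_mul_of_pos_right T₀ (hKp _)))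
    have hjR : (0 : ℝ) ≤ j := Nat.cast_nonneg j
    -- the level
    have g1 : (1 + q u) ^ 2 ≤ (1 + q₀) ^ 2 * (R ^ 2) ^ j := by
      have h3 := hq u hu
      rw [← hj] at h3
      have h4 : 1 ≤ R ^ j := one_le_pow₀ hR1.le
      have h5 : 1 + q u ≤ (1 + q₀) * R ^ j := by nlinarith
      have h6 := hq0 u hu
      calc (1 + q u) ^ 2 ≤ ((1 + q₀) * R ^ j) ^ 2 := pow_le_pow_left₀ (by linarith) h5 2
        _ = _ := by rw [mul_pow, ← pow_mul, ← pow_mul, mul_comm j 2]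
    -- the factor gr
    have g2 : gr (2 * P) (2 * wd μ s (T₀ * K ^ t) / wd μ s (T₀ * K ^ σ u)) ≤ A ^ (2 * P) * (1 + (j : ℝ)) ^ (2 * P) := by
      rw [← mul_pow]
      unfold gr
      have h3 : 2 * wd μ s (T₀ * K ^ t) / wd μ s (T₀ * K ^ σ u) ≤ 2 / k' * b ^ j := by
        rw [div_le_iff₀ hwu]
        have h4 : wd μ s (T₀ * K ^ t) ≤ 1 / k' * (b ^ j * wd μ s (T₀ * K ^ σ u)) := by
          rw [one_div, ← div_eq_inv_mul, le_div_iff₀ hk', mul_comm]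
          exact h2
        calc 2 * wd μ s (T₀ * K ^ t) ≤ 2 * (1 / k' * (b ^ j * wd μ s (T₀ * K ^ σ u))) := by linarith
          _ = _ := by ring
      have h3' : 0 ≤ 2 * wd μ s (T₀ * K ^ t) / wd μ s (T₀ * K ^ σ u) := by positivity
      have h4 : 1 + 2 * wd μ s (T₀ * K ^ t) / wd μ s (T₀ * K ^ σ u) ≤ (1 + 2 / k') * b ^ j := by
        have h5 : 1 ≤ b ^ j := one_le_pow₀ hb1.le
        nlinarith
      have h5 : Real.log (1 + 2 * wd μ s (T₀ * K ^ t) / wd μ s (T₀ * K ^ σ u)) ≤ Real.log (1 + 2 / k') + j * Real.log b := by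
        refine (Real.log_le_log (by linarith) h4).trans (le_of_eq ?_)
        rw [Real.log_mul (by positivity) (by positivity), Real.log_pow]
      have h6 : 0 ≤ Real.log (1 + 2 / k') := Real.log_nonneg (by have : 0 < 2 / k' := by positivity
                                                                 linarith)
      have h7 : 0 ≤ Real.log b := Real.log_nonneg hb1.le
      have h8 : 0 ≤ Real.log (1 + 2 * wd μ s (T₀ * K ^ t) / wd μ s (T₀ * K ^ σ u)) := Real.log_nonneg (by linarith)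
      refine pow_le_pow_left₀ (by linarith) ?_ _
      rw [hA]
      nlinarith [mul_nonneg h6 hjR, mul_nonneg h7 hjR]
    -- the unit
    have g3 : EE μ s (T₀ * K ^ σ u) ≤ 1 / k * ((R ^ 4)⁻¹) ^ j * EE μ s (T₀ * K ^ t) := by
      rw [hR4]
      have h3 : 0 < x ^ j := by positivity
      calc EE μ s (T₀ * K ^ σ u) = 1 / k * (x⁻¹) ^ j * (k * x ^ j * EE μ s (T₀ * K ^ σ u)) := by
            rw [inv_pow]
            field_simp
        _ ≤ 1 / k * (x⁻¹) ^ j * EE μ s (T₀ * K ^ t) := mul_le_mul_of_nonneg_left h1 (by positivity)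
    rw [← hj]
    have g4 : (1 + q u) ^ 2 * gr (2 * P) (2 * wd μ s (T₀ * K ^ t) / wd μ s (T₀ * K ^ σ u)) ≤
        ((1 + q₀) ^ 2 * (R ^ 2) ^ j) * (A ^ (2 * P) * (1 + (j : ℝ)) ^ (2 * P)) :=
      mul_le_mul g1 g2 (gr_nonneg _ (by positivity)) (by positivity)
    refine (mul_le_mul g4 g3 hEu.le (by positivity)).trans (le_of_eq ?_)
    have e2 : ((R ^ 4)⁻¹) ^ j * (R ^ 2) ^ j = ((R ^ 2)⁻¹) ^ j := by
      rw [← mul_pow]
      congr 1
      field_simp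
    calc (1 + q₀) ^ 2 * (R ^ 2) ^ j * (A ^ (2 * P) * (1 + (j : ℝ)) ^ (2 * P)) * (1 / k * ((R ^ 4)⁻¹) ^ j * EE μ s (T₀ * K ^ t))
        = (1 + q₀) ^ 2 * A ^ (2 * P) / k * EE μ s (T₀ * K ^ t) * ((1 + (j : ℝ)) ^ (2 * P) * (((R ^ 4)⁻¹) ^ j * (R ^ 2) ^ j)) := by ring
      _ = _ := by rw [e2]
  refine (sum_le_sum key).trans ?_
  rw [← mul_sum]
  have h1 := sum_inj hsum (fun j => by positivity) S (g := fun u => t - σ u) (fun u hu v hv huv => by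
    have h2 := hσt u hu
    have h3 := hσt v hv
    dsimp only at huv
    exact hσ hu hv (by omega))
  rw [← hZ] at h1
  have h2 := mul_le_mul_of_nonneg_left h1 (show 0 ≤ (1 + q₀) ^ 2 * A ^ (2 * P) / k * EE μ s (T₀ * K ^ t) by positivity)
  refine h2.trans (le_of_eq ?_)
  ring

end

end Pool.Agent.W_7d29a1_C1.FarN89
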