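import Pool.Agent.W_7d29a1_C1.BoxT60
import Pool.Agent.W_7d29a1_C1.FarN89

/-!
Both halves (MP_7d29a1_pr), attractor route: THE LEVEL EVENTS OF THE SLABS OF THE TOWER (helper60).

`AT T v` = the rows `-T v < row ≤ T v` around the base point (`T 0 = 0` : empty). `EL60` = the two halves of the slab `v` are in
helper16's `Far16` at the scale `2 T (v + 1)`, level `y l`, seen from the base of the box `v + 1`, the box `v` at the place `o`.
Measurable, increasing in `l`, blind off the slab for every place, tails.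
-/

set_option autoImplicit false
set_option linter.unusedSectionVars false

namespace Pool.Agent.W_7d29a1_C1.H60

open MeasureTheory ProbabilityTheory Filter Topology
open Pool.Agent.W_7d29a1_F Pool.Agent.W_7d29a1_h4g Pool.Agent.W_7d29a1_H Pool.Agent.W_7d29a1_HS
open Pool.Agent.W_7d29a1_C1.S71 Pool.Agent.W_7d29a1_C1.Sw9 Pool.Agent.W_7d29a1_C1.H75 Pool.Agent.W_7d29a1_C1.U16
open Pool.Agent.W_7d29a1_C1.T10
open scoped ENNReal

noncomputable section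

/-- The regions: rows `(-T v, T v]`. -/
def AT (T : ℕ → ℕ) : ℕ → Set Pt := Gd.RA (fun v => (T v : ℤ) - 1) (fun v => (T v : ℤ) + 1)

theorem mem_AT {T : ℕ → ℕ} {v : ℕ} {q : Pt} : q ∈ AT T v ↔ -(T v : ℤ) < q.1 ∧ q.1 ≤ T v := by
  show (-((T v : ℤ) - 1) ≤ q.1 ∧ q.1 < (T v : ℤ) + 1) ↔ _
  omega

theorem AT_zero {T : ℕ → ℕ} (h : T 0 = 0) : AT T 0 = ∅ := by
  ext q
  rw [mem_AT, h]
  simp only [Set.mem_empty_iff_false, iff_false]
  push_cast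
  omega

/-- **Nested**, for boxes of height at most half the radius. -/
theorem nest_AT {G : Gd} {L : ℕ} (hG : G.Ok L) {T : ℕ → ℕ} (hT : ∀ v, v < L → T v ≤ T (v + 1))
    (hH : ∀ v, v < L → G.H (v + 1) + T v ≤ T (v + 1) + G.H v) : G.Nest L (AT T) :=
  hG.nest_rows (fun v hv => by
    have := hT v hv
    show (T v : ℤ) - 1 ≤ (T (v + 1) : ℤ) - 1
    omega) (fun v hv => by
    have := hH v hv
    show (G.H (v + 1) : ℤ) - G.H v + ((T v : ℤ) + 1) ≤ (T (v + 1) : ℤ) + 1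
    omega)

variable {μ : Measure ℝ} {s : ℝ}

/-- The site of the row `r` on the line through the origin. -/
def bs60 (μ : Measure ℝ) (s : ℝ) (r : ℤ) : Pt := (r, ⌊sl μ s * (r : ℝ)⌋)

/-- **THE LEVEL EVENTS OF THE SLAB `v`**, box `v` at the place `o` of the box `v + 1`. -/
def EL60 (μ : Measure ℝ) (s c θ K : ℝ) (P : ℕ) (T : ℕ → ℕ) (y : ℕ → ℝ) (v : ℕ) (o : ℕ × ℤ) (l : ℕ) : Set Env :=
  Far16 μ s c θ K (2 * T (v + 1)) (min (o.1 + T (v + 1) - T v) (2 * T (v + 1))) P (bs60 μ s (-(T (v + 1) : ℤ))) (y l) ∩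
    Far16 μ s c θ K (2 * T (v + 1)) (T (v + 1) - (o.1 + T v)) P (bs60 μ s ((o.1 : ℤ) + T v)) (y l)

variable [IsProbabilityMeasure μ] {c C : ℝ} {n₀ : ℕ} {θ K : ℝ} {P : ℕ} {T : ℕ → ℕ} {y : ℕ → ℝ}

theorem measurableSet_EL60 (v : ℕ) (o : ℕ × ℤ) (l : ℕ) : MeasurableSet (EL60 μ s c θ K P T y v o l) :=
  (Far16_meas _ _ _ _ _ _ _).inter (Far16_meas _ _ _ _ _ _ _)

theorem EL60_mono (hy : Monotone y) (v : ℕ) (o : ℕ × ℤ) (i j : ℕ) (hij : i ≤ j) :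
    EL60 μ s c θ K P T y v o i ⊆ EL60 μ s c θ K P T y v o j := fun _ h =>
  ⟨Far16_mono (hy hij) _ _ _ _ h.1, Far16_mono (hy hij) _ _ _ _ h.2⟩

/-- **Only the slab is read.** -/
theorem EL60_off (hT : ∀ v, T v ≤ T (v + 1)) (v : ℕ) (o : ℕ × ℤ) (l : ℕ) :
    Off (AT T (v + 1) \ At (pt o) (AT T v))ᶜ (EL60 μ s c θ K P T y v o l) := by
  intro η η' he
  have hTv := hT v
  have key : ∀ p : Pt, p ∈ AT T (v + 1) → p ∉ At (pt o) (AT T v) → η p = η' p := fun p h1 h2 =>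
    he p fun h3 => h3 ⟨h1, h2⟩
  have nin : ∀ p : Pt, (p.1 ≤ (o.1 : ℤ) - T v ∨ (o.1 : ℤ) + T v < p.1) → p ∉ At (pt o) (AT T v) := by
    intro p hp hcc
    have h1 : p - pt o ∈ AT T v := hcc
    rw [mem_AT] at h1
    have e : (p - pt o).1 = p.1 - (o.1 : ℤ) := rfl
    rw [e] at h1
    omega
  refine and_congr (Far16_rows fun p hp => ?_) (Far16_rows fun p hp => ?_)
  · have h1 : -(T (v + 1) : ℤ) < p.1 := hp.1
    have h2 : p.1 ≤ -(T (v + 1) : ℤ) + (min (o.1 + T (v + 1) - T v) (2 * T (v + 1)) : ℕ) := hp.2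
    refine key p (mem_AT.2 ⟨h1, ?_⟩) (nin p (Or.inl ?_))
    · have : min (o.1 + T (v + 1) - T v) (2 * T (v + 1)) ≤ 2 * T (v + 1) := min_le_right _ _
      omega
    · have : min (o.1 + T (v + 1) - T v) (2 * T (v + 1)) ≤ o.1 + T (v + 1) - T v := min_le_left _ _
      omega
  · have h1 : (o.1 : ℤ) + T v < p.1 := hp.1
    have h2 : p.1 ≤ (o.1 : ℤ) + T v + ((T (v + 1) - (o.1 + T v) : ℕ) : ℤ) := hp.2
    refine key p (mem_AT.2 ⟨by omega, by omega⟩) (nin p (Or.inr h1))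

/-- **Tails.** -/
theorem EL60_prob (h : In μ s c C n₀) {K θ : ℝ} (hK : 0 < K) (hθ : 0 < θ) (hθ1 : θ ≤ 1) : ∃ (P : ℕ) (A a g : ℝ), 0 < A ∧ 0 < a ∧
    0 < g ∧ g ≤ 1 ∧ ∃ n₁ : ℕ, 1 ≤ n₁ ∧ ∀ (T : ℕ → ℕ) (y : ℕ → ℝ) (v : ℕ) (o : ℕ × ℤ) (l : ℕ), n₁ ≤ T (v + 1) → 0 ≤ y l →
      (law μ).real (EL60 μ s c θ K P T y v o l)ᶜ ≤ A * Real.exp (-(a * y l ^ g)) := by
  obtain ⟨P, A, a, g, hA, ha, hg, hg1, n₁, hn1, H⟩ := far_prob h hK hθ hθ1
  refine ⟨P, 2 * A, a, g, by linarith, ha, hg, hg1, n₁, hn1, fun T y v o l hT hy => ?_⟩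
  have h1 := H (2 * T (v + 1)) (by omega) (min (o.1 + T (v + 1) - T v) (2 * T (v + 1))) (min_le_right _ _)
    (bs60 μ s (-(T (v + 1) : ℤ))) (y l) hy
  have h2 := H (2 * T (v + 1)) (by omega) (T (v + 1) - (o.1 + T v)) (by omega) (bs60 μ s ((o.1 : ℤ) + T v)) (y l) hy
  unfold EL60
  rw [Set.compl_inter]
  refine (measureReal_union_le _ _).trans ?_
  linarith

end

end Pool.Agent.W_7d29a1_C1.H60
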