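import Pool.Agent.W_7d29a1_C1.CloN97
import Pool.Agent.W_7d29a1_C1.EL60

/-!
Both halves (MP_7d29a1_pr), attractor route [C1]: THE FUNCTIONS OF THE INSIDE READ THE BALL `AT T l` ONLY. (helper97)

Inside = the rows `- T l + 1, .., T l` around the base point (`D = 2 T l` rows).
-/

set_option autoImplicit false

namespace Pool.Agent.W_7d29a1_C1.W97

open MeasureTheory
open Pool.Agent.W_7d29a1_F
open Pool.Agent.W_7d29a1_C1.S71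
open Pool.Agent.W_7d29a1_C1.H60

/-- The rows of the inside lie in the region `AT T v`. -/
theorem mem_AT97 {T : ℕ → ℕ} {v D : ℕ} {ρ : ℤ} (h1 : -(T v : ℤ) < ρ) (h2 : ρ + D ≤ T v + 1) :
    ∀ i < D, ∀ y : ℤ, ((ρ + (i : ℤ), y) : Pt) ∈ AT T v := fun i hi y => mem_AT.2 ⟨by show _ < ρ + (i : ℤ); omega, by
  show ρ + (i : ℤ) ≤ _
  omega⟩

theorem ov97 {T : ℕ → ℕ} {v n1 D' : ℕ} (h : D' ≤ 2 * T v) (P : ℕ → ℝ) (α1 α2 : ℤ) (y : ℕ × ℤ) :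
    OffF (AT T v)ᶜ (vW97 (1 - (T v : ℤ)) P n1 D' (2 * T v) α1 α2 y) :=
  off_vW97 h (mem_AT97 (by omega) (by push_cast; omega)) α1 α2 y

theorem oP97 {T : ℕ → ℕ} {v n1 D' : ℕ} (h : D' ≤ 2 * T v) (P : ℕ → ℝ) (α1 α2 : ℤ) :
    OffF (AT T v)ᶜ (PW97 (1 - (T v : ℤ)) P n1 D' (2 * T v) α1 α2) :=
  off_PW97 h (mem_AT97 (by omega) (by push_cast; omega)) α1 α2

end Pool.Agent.W_7d29a1_C1.W97
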