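import Pool.Agent.W_7d29a1_C1.Chain54

/-!
Both halves (MP_7d29a1_pr), attractor route: THE CLASS OF THE BLOCKS IS CHOSEN BY LOCAL EVENTS (helper77).

Fine scales `u < m`, a level `ℓ v z` (the range of the bad influence of the scale `v`) for every scale.
`LB m ℓ z` = the scales `u` which are within the range of some level. Its cardinality is at most `2 ∑ ℓ`. The blocks of the
class `s < M` start at `s + i M`, `i < m'`; `Nb` = the number of blocks of the class with one of its end scales in `LB`.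
The class `cls` = the least one with few such blocks. It does not change under a map which does not change the levels.

`AA cl J m' k` = the class is `k / m'` and the outermost success of this class is the block `k % m'`: the sets of the exchange over
all classes, pairwise disjoint. `rest_cls` = the remainder (`ChData.rest` once for every class).
-/

set_option autoImplicit false

namespace Pool.Agent.W_7d29a1_C1.H77

open MeasureTheory
open scoped ENNReal

section cls

variable {Z : Type*}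

open Classical in
/-- The least `s < M` with `N s z ≤ b`. -/
noncomputable def cls (M b : ℕ) (N : ℕ → Z → ℕ) (z : Z) : ℕ :=
  if h : ∃ s, s < M ∧ N s z ≤ b then Nat.find h else 0

theorem cls_spec {M b : ℕ} {N : ℕ → Z → ℕ} {z : Z} (h : ∃ s, s < M ∧ N s z ≤ b) :
    cls M b N z < M ∧ N (cls M b N z) z ≤ b := by
  classical
  unfold cls
  rw [dif_pos h]
  exact Nat.find_spec h

theorem cls_lt {M b : ℕ} (hM : 0 < M) (N : ℕ → Z → ℕ) (z : Z) : cls M b N z < M := by
  classical
  by_cases h : ∃ s, s < M ∧ N s z ≤ b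
  · exact (cls_spec h).1
  · unfold cls
    rw [dif_neg h]
    exact hM

theorem cls_congr {M b : ℕ} {N : ℕ → Z → ℕ} {z z' : Z} (h : ∀ s < M, N s z = N s z') : cls M b N z = cls M b N z' := by
  classical
  have e : ∀ s, (s < M ∧ N s z ≤ b) ↔ (s < M ∧ N s z' ≤ b) := fun s => and_congr_right fun hs => by rw [h s hs]
  unfold cls
  by_cases h1 : ∃ s, s < M ∧ N s z ≤ b
  · have h2 : ∃ s, s < M ∧ N s z' ≤ b := by
      obtain ⟨s, hs⟩ := h1
      exact ⟨s, (e s).1 hs⟩
    rw [dif_pos h1, dif_pos h2]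
    exact Nat.find_congr' fun {s} => e s
  · have h2 : ¬ ∃ s, s < M ∧ N s z' ≤ b := by
      rintro ⟨s, hs⟩
      exact h1 ⟨s, (e s).2 hs⟩
    rw [dif_neg h1, dif_neg h2]

/-- The class is at most `s` in terms of the counts. -/
theorem cls_eq_iff {M b : ℕ} {N : ℕ → Z → ℕ} {z : Z} (h : ∃ s, s < M ∧ N s z ≤ b) (s : ℕ) :
    cls M b N z = s ↔ (s < M ∧ N s z ≤ b) ∧ ∀ t < s, ¬(t < M ∧ N t z ≤ b) := by
  classical
  unfold cls
  rw [dif_pos h, Nat.find_eq_iff]

theorem measurable_cls [MeasurableSpace Z] {M b : ℕ} {N : ℕ → Z → ℕ} (hN : ∀ s < M, Measurable (N s)) :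
    Measurable (cls M b N) := by
  classical
  have m1 : ∀ s, MeasurableSet {z | s < M ∧ N s z ≤ b} := by
    intro s
    by_cases hs : s < M
    · simp only [hs, true_and]
      exact measurableSet_le (hN s hs) measurable_const
    · simp only [hs, false_and, Set.ofPred_false, MeasurableSet.empty]
  have m2 : MeasurableSet {z | ∃ s, s < M ∧ N s z ≤ b} := by
    rw [show {z | ∃ s, s < M ∧ N s z ≤ b} = ⋃ s, {z | s < M ∧ N s z ≤ b} by
      ext z
      simp only [Set.mem_ofPred_eq, Set.mem_iUnion]]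
    exact MeasurableSet.iUnion m1
  refine measurable_to_countable' fun s => ?_
  have e : (cls M b N) ⁻¹' {s} =
      ({z | ∃ s, s < M ∧ N s z ≤ b} ∩ ({z | s < M ∧ N s z ≤ b} ∩ ⋂ t ∈ Finset.range s, {z | t < M ∧ N t z ≤ b}ᶜ)) ∪
        ({z | ∃ s, s < M ∧ N s z ≤ b}ᶜ ∩ {_z | s = 0}) := by
    ext z
    simp only [Set.mem_preimage, Set.mem_singleton_iff, Set.mem_union, Set.mem_inter_iff, Set.mem_ofPred_eq,
      Set.mem_iInter, Finset.mem_range, Set.mem_compl_iff]
    by_cases h : ∃ s, s < M ∧ N s z ≤ b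
    · rw [cls_eq_iff h]
      simp only [h, true_and, not_true_eq_false, false_and, or_false]
    · have : cls M b N z = 0 := by
        unfold cls
        rw [dif_neg h]
      rw [this]
      simp only [h, false_and, not_false_eq_true, true_and, false_or]
      exact eq_comm
  rw [e]
  refine (m2.inter ((m1 s).inter (Finset.measurableSet_biInter _ fun t _ => (m1 t).compl))).union (m2.compl.inter ?_)
  exact MeasurableSet.const _

/-- Pigeonhole. -/
theorem pigeon {M b : ℕ} {N : ℕ → ℕ} (h : ∑ s ∈ Finset.range M, N s < (b + 1) * M) : ∃ s, s < M ∧ N s ≤ b := by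
  by_contra hc
  push Not at hc
  have h1 : (b + 1) * M ≤ ∑ s ∈ Finset.range M, N s := by
    calc (b + 1) * M = ∑ _s ∈ Finset.range M, (b + 1) := by rw [Finset.sum_const, Finset.card_range, smul_eq_mul, mul_comm]
      _ ≤ _ := Finset.sum_le_sum fun s hs => by
        have := hc s (Finset.mem_range.1 hs)
        omega
  omega

/-! ### The bad scales -/

/-- The scales which are within the range of a level. -/
def LB (m : ℕ) (ℓ : ℕ → ℕ) : Finset ℕ :=
  (Finset.range m).filter fun u => ∃ v ∈ Finset.range m, (u - v) + (v - u) < ℓ v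

theorem mem_LB {m : ℕ} {ℓ : ℕ → ℕ} {u : ℕ} : u ∈ LB m ℓ ↔ u < m ∧ ∃ v < m, (u - v) + (v - u) < ℓ v := by
  unfold LB
  rw [Finset.mem_filter, Finset.mem_range]
  simp only [Finset.mem_range]

theorem not_LB {m : ℕ} {ℓ : ℕ → ℕ} {u : ℕ} (hu : u < m) (h : u ∉ LB m ℓ) {v : ℕ} (hv : v < m) :
    ℓ v ≤ (u - v) + (v - u) := by
  by_contra hc
  exact h (mem_LB.2 ⟨hu, v, hv, not_le.1 hc⟩)

theorem card_LB (m : ℕ) (ℓ : ℕ → ℕ) : (LB m ℓ).card ≤ 2 * ∑ v ∈ Finset.range m, ℓ v := by
  have h1 : LB m ℓ ⊆ (Finset.range m).biUnion fun v => Finset.Ico (v + 1 - ℓ v) (v + ℓ v) := by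
    intro u hu
    obtain ⟨_, v, hv, h⟩ := mem_LB.1 hu
    refine Finset.mem_biUnion.2 ⟨v, Finset.mem_range.2 hv, Finset.mem_Ico.2 ⟨?_, ?_⟩⟩ <;> omega
  calc (LB m ℓ).card ≤ _ := Finset.card_le_card h1
    _ ≤ ∑ v ∈ Finset.range m, (Finset.Ico (v + 1 - ℓ v) (v + ℓ v)).card := Finset.card_biUnion_le
    _ ≤ ∑ v ∈ Finset.range m, 2 * ℓ v := Finset.sum_le_sum fun v _ => by
      rw [Nat.card_Ico]
      omega
    _ = _ := by rw [Finset.mul_sum]

/-- Above a good scale, only the levels above it matter. -/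
theorem LB_above {m : ℕ} {ℓ ℓ' : ℕ → ℕ} {e u : ℕ} (he : e < m) (h1 : e ∉ LB m ℓ) (h2 : e ∉ LB m ℓ')
    (h : ∀ v, e < v → v < m → ℓ v = ℓ' v) (hu : e ≤ u) : u ∈ LB m ℓ ↔ u ∈ LB m ℓ' := by
  rw [mem_LB, mem_LB]
  refine and_congr_right fun hum => exists_congr fun v => and_congr_right fun hv => ?_
  by_cases hev : e < v
  · rw [h v hev hv]
  · have a1 := not_LB he h1 hv
    have a2 := not_LB he h2 hv
    constructor <;> intro _ <;> omega

/-- Below a good scale, only the levels below it matter. -/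
theorem LB_below {m : ℕ} {ℓ ℓ' : ℕ → ℕ} {e u : ℕ} (he : e < m) (h1 : e ∉ LB m ℓ) (h2 : e ∉ LB m ℓ')
    (h : ∀ v < e, ℓ v = ℓ' v) (hu : u ≤ e) : u ∈ LB m ℓ ↔ u ∈ LB m ℓ' := by
  rw [mem_LB, mem_LB]
  refine and_congr_right fun hum => exists_congr fun v => and_congr_right fun hv => ?_
  by_cases hev : v < e
  · rw [h v hev]
  · have a1 := not_LB he h1 hv
    have a2 := not_LB he h2 hv
    constructor <;> intro _ <;> omega

/-- The blocks `i < m'` of the class `s` with an end scale `s + i M + o`, `o ∈ O`, in the set `L`. -/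
def Nb (M m' : ℕ) (O : Finset ℕ) (L : Finset ℕ) (s : ℕ) : ℕ :=
  ((Finset.range m').filter fun i => ∃ o ∈ O, s + i * M + o ∈ L).card

theorem sum_Nb (M m' : ℕ) (O L : Finset ℕ) : ∑ s ∈ Finset.range M, Nb M m' O L s ≤ O.card * L.card := by
  classical
  have h1 : ∀ s ∈ Finset.range M, Nb M m' O L s ≤
      ∑ o ∈ O, ((Finset.range m').filter fun i => s + i * M + o ∈ L).card := by
    intro s _
    unfold Nb
    have : ((Finset.range m').filter fun i => ∃ o ∈ O, s + i * M + o ∈ L) ⊆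
        O.biUnion fun o => (Finset.range m').filter fun i => s + i * M + o ∈ L := by
      intro i hi
      obtain ⟨h1, o, ho, h2⟩ := Finset.mem_filter.1 hi
      exact Finset.mem_biUnion.2 ⟨o, ho, Finset.mem_filter.2 ⟨h1, h2⟩⟩
    exact (Finset.card_le_card this).trans Finset.card_biUnion_le
  refine (Finset.sum_le_sum h1).trans ?_
  rw [Finset.sum_comm]
  refine (Finset.sum_le_sum fun o _ => ?_ : _ ≤ ∑ _o ∈ O, L.card).trans (by
    rw [Finset.sum_const, smul_eq_mul])
  -- one offset: the map `(s, i) ↦ s + i M + o` is injective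
  rw [← Finset.card_sigma]
  refine Finset.card_le_card_of_injOn (fun p => p.1 + p.2 * M + o) ?_ ?_
  · intro p hp
    have hp' := Finset.mem_sigma.1 (Finset.mem_coe.1 hp)
    exact (Finset.mem_filter.1 hp'.2).2
  · rintro ⟨s, i⟩ hp ⟨s', i'⟩ hp' heq
    have hs := Finset.mem_range.1 (Finset.mem_sigma.1 (Finset.mem_coe.1 hp)).1
    have hs' := Finset.mem_range.1 (Finset.mem_sigma.1 (Finset.mem_coe.1 hp')).1
    simp only at heq hs hs'
    have e1 : s + i * M = s' + i' * M := by omega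
    have e2 : s = s' := by
      have := congrArg (fun n => n % M) e1
      simp only [Nat.add_mul_mod_self_right, Nat.mod_eq_of_lt hs, Nat.mod_eq_of_lt hs'] at this
      exact this
    subst e2
    have e3 : i * M = i' * M := by omega
    have e4 : i = i' := Nat.eq_of_mul_eq_mul_right (by omega) e3
    rw [e4]

/-- **A GOOD CLASS EXISTS** when the sum of the levels is small. -/
theorem good_class {M m m' b : ℕ} {O : Finset ℕ} {ℓ : ℕ → ℕ}
    (h : O.card * (2 * ∑ v ∈ Finset.range m, ℓ v) < (b + 1) * M) : ∃ s, s < M ∧ Nb M m' O (LB m ℓ) s ≤ b :=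
  pigeon ((sum_Nb M m' O (LB m ℓ)).trans (Nat.mul_le_mul_left _ (card_LB m ℓ)) |>.trans_lt h)

/-- The class of a family of levels. -/
noncomputable def clsL (M m m' b : ℕ) (O : Finset ℕ) (ℓ : ℕ → Z → ℕ) (z : Z) : ℕ :=
  cls M b (fun s z => Nb M m' O (LB m fun v => ℓ v z) s) z

theorem clsL_congr {M m m' b : ℕ} {O : Finset ℕ} {ℓ : ℕ → Z → ℕ} {z z' : Z} (h : ∀ v < m, ℓ v z = ℓ v z') :
    clsL M m m' b O ℓ z = clsL M m m' b O ℓ z' := by
  have e : LB m (fun v => ℓ v z) = LB m (fun v => ℓ v z') := by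
    ext u
    rw [mem_LB, mem_LB]
    exact and_congr_right fun _ => exists_congr fun v => and_congr_right fun hv => by rw [h v hv]
  unfold clsL
  refine cls_congr fun s _ => ?_
  rw [e]

theorem clsL_lt {M : ℕ} (hM : 0 < M) (m m' b : ℕ) (O : Finset ℕ) (ℓ : ℕ → Z → ℕ) (z : Z) :
    clsL M m m' b O ℓ z < M := cls_lt hM _ z

theorem clsL_spec {M m m' b : ℕ} {O : Finset ℕ} {ℓ : ℕ → Z → ℕ} {z : Z}
    (h : O.card * (2 * ∑ v ∈ Finset.range m, ℓ v z) < (b + 1) * M) :
    Nb M m' O (LB m fun v => ℓ v z) (clsL M m m' b O ℓ z) ≤ b :=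
  (cls_spec (N := fun s z => Nb M m' O (LB m fun v => ℓ v z) s) (z := z) (good_class h)).2

theorem measurableSet_LB [MeasurableSpace Z] {m : ℕ} {ℓ : ℕ → Z → ℕ} (hℓ : ∀ v < m, Measurable (ℓ v)) (u : ℕ) :
    MeasurableSet {z | u ∈ LB m fun v => ℓ v z} := by
  have e : {z | u ∈ LB m fun v => ℓ v z} = {_z | u < m} ∩ ⋃ v ∈ Finset.range m, {z | (u - v) + (v - u) < ℓ v z} := by
    ext z
    simp only [mem_LB, Set.mem_ofPred_eq, Set.mem_inter_iff, Set.mem_iUnion, Finset.mem_range, exists_prop]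
  rw [e]
  refine (MeasurableSet.const _).inter (Finset.measurableSet_biUnion _ fun v hv => ?_)
  exact measurableSet_lt measurable_const (hℓ v (Finset.mem_range.1 hv))

theorem measurable_Nb [MeasurableSpace Z] {M m m' : ℕ} {O : Finset ℕ} {ℓ : ℕ → Z → ℕ}
    (hℓ : ∀ v < m, Measurable (ℓ v)) (s : ℕ) : Measurable fun z => Nb M m' O (LB m fun v => ℓ v z) s := by
  classical
  have e : (fun z => Nb M m' O (LB m fun v => ℓ v z) s) =
      fun z => ∑ i ∈ Finset.range m', (if ∃ o ∈ O, s + i * M + o ∈ LB m fun v => ℓ v z then 1 else 0) := by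
    funext z
    unfold Nb
    rw [Finset.card_filter]
  rw [e]
  refine Finset.measurable_sum _ fun i _ => Measurable.ite ?_ measurable_const measurable_const
  have e2 : {z | ∃ o ∈ O, s + i * M + o ∈ LB m fun v => ℓ v z} = ⋃ o ∈ O, {z | s + i * M + o ∈ LB m fun v => ℓ v z} := by
    ext z
    simp only [Set.mem_ofPred_eq, Set.mem_iUnion, exists_prop]
  rw [e2]
  exact Finset.measurableSet_biUnion _ fun o _ => measurableSet_LB hℓ _

theorem measurable_clsL [MeasurableSpace Z] {M m m' b : ℕ} {O : Finset ℕ} {ℓ : ℕ → Z → ℕ}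
    (hℓ : ∀ v < m, Measurable (ℓ v)) : Measurable (clsL M m m' b O ℓ) :=
  measurable_cls fun s _ => measurable_Nb hℓ s

end cls

/-! ### The exchange over all the classes -/

section flat

variable {Z : Type*}

/-- The class is `k / m'` and the outermost success of this class is the block `k % m'`. -/
def AA (cl : Z → ℕ) (J : ℕ → ℕ → Set Z) (m' k : ℕ) : Set Z := {z | cl z = k / m' ∧ z ∈ H54.outer (J (k / m')) m' (k % m')}

theorem AA_disj {cl : Z → ℕ} {J : ℕ → ℕ → Set Z} {m' : ℕ} (hm : 0 < m') :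
    Pairwise fun k l => Disjoint (AA cl J m' k) (AA cl J m' l) := by
  intro k l hkl
  rw [Set.disjoint_left]
  rintro z ⟨h1, h2, h3⟩ ⟨h4, h5, h6⟩
  have e1 : k / m' = l / m' := h1.symm.trans h4
  have k1 := Nat.mod_lt k hm
  have l1 := Nat.mod_lt l hm
  rw [← e1] at h5 h6
  rcases lt_trichotomy (k % m') (l % m') with h | h | h
  · exact h3 _ h l1 h5
  · apply hkl
    rw [← Nat.div_add_mod k m', ← Nat.div_add_mod l m', e1, h]
  · exact h6 _ h k1 h2

theorem measurableSet_outer [MeasurableSpace Z] {J : ℕ → Set Z} (hJ : ∀ i, MeasurableSet (J i)) (m' i : ℕ) :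
    MeasurableSet (H54.outer J m' i) := by
  have e : H54.outer J m' i = J i ∩ ⋂ j ∈ Finset.Ioo i m', (J j)ᶜ := by
    ext z
    unfold H54.outer
    simp only [Set.mem_ofPred_eq, Set.mem_inter_iff, Set.mem_iInter, Finset.mem_Ioo, Set.mem_compl_iff, and_imp]
  rw [e]
  exact (hJ i).inter (Finset.measurableSet_biInter _ fun j _ => (hJ j).compl)

theorem measurableSet_AA [MeasurableSpace Z] {cl : Z → ℕ} (hcl : Measurable cl) {J : ℕ → ℕ → Set Z}
    (hJ : ∀ s i, MeasurableSet (J s i)) (m' k : ℕ) : MeasurableSet (AA cl J m' k) := by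
  have e : AA cl J m' k = cl ⁻¹' {k / m'} ∩ H54.outer (J (k / m')) m' (k % m') := by
    ext z
    unfold AA
    simp only [Set.mem_ofPred_eq, Set.mem_inter_iff, Set.mem_preimage, Set.mem_singleton_iff]
  rw [e]
  exact (hcl (measurableSet_singleton _)).inter (measurableSet_outer (hJ _) _ _)

/-- **INVARIANCE.** `σ k` preserves the class and the successes of the class `k / m'` from the block `k % m'` on. -/
theorem AA_inv {cl : Z → ℕ} {J : ℕ → ℕ → Set Z} {m' : ℕ} {σ : ℕ → Z → Z} {k : ℕ} (hcl : ∀ z, cl (σ k z) = cl z)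
    (hJ : ∀ j < m', k % m' ≤ j → ∀ z, σ k z ∈ J (k / m') j ↔ z ∈ J (k / m') j) (hm : 0 < m') (z : Z) :
    z ∈ AA cl J m' k ↔ σ k z ∈ AA cl J m' k := by
  unfold AA H54.outer
  simp only [Set.mem_ofPred_eq]
  rw [hcl z, hJ _ (Nat.mod_lt k hm) le_rfl z]
  refine and_congr_right fun _ => and_congr_right fun _ => forall_congr' fun j => forall_congr' fun h1 =>
    forall_congr' fun h2 => ?_
  rw [hJ j h2 h1.le z]

/-- The complement. -/
theorem compl_AA {cl : Z → ℕ} {J : ℕ → ℕ → Set Z} {M m' : ℕ} (hm : 0 < m') (hcl : ∀ z, cl z < M) :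
    (⋃ k ∈ Finset.range (M * m'), AA cl J m' k)ᶜ = {z | ∀ i < m', z ∉ J (cl z) i} := by
  classical
  ext z
  simp only [Set.mem_compl_iff, Set.mem_iUnion, Finset.mem_range, not_exists, Set.mem_ofPred_eq]
  constructor
  · intro h i hi hz
    -- the outermost success of the class
    have hne : ((Finset.range m').filter fun j => z ∈ J (cl z) j).Nonempty :=
      ⟨i, Finset.mem_filter.2 ⟨Finset.mem_range.2 hi, hz⟩⟩
    set j0 := ((Finset.range m').filter fun j => z ∈ J (cl z) j).max' hne with hj0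
    obtain ⟨h1, h2⟩ := Finset.mem_filter.1 (Finset.max'_mem _ hne)
    rw [← hj0] at h1 h2
    have h1' := Finset.mem_range.1 h1
    have hd : (cl z * m' + j0) / m' = cl z := by
      rw [mul_comm, Nat.mul_add_div hm, Nat.div_eq_of_lt h1', add_zero]
    have hmod : (cl z * m' + j0) % m' = j0 := by
      rw [mul_comm, Nat.mul_add_mod, Nat.mod_eq_of_lt h1']
    refine h (cl z * m' + j0) ?_ ⟨hd.symm, ?_⟩
    · calc cl z * m' + j0 < cl z * m' + m' := by omega
        _ = (cl z + 1) * m' := by ring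
        _ ≤ M * m' := Nat.mul_le_mul_right _ (hcl z)
    · rw [hd, hmod]
      refine ⟨h2, fun j h3 h4 h5 => ?_⟩
      have := Finset.le_max' ((Finset.range m').filter fun j => z ∈ J (cl z) j) j
        (Finset.mem_filter.2 ⟨Finset.mem_range.2 h4, h5⟩)
      rw [← hj0] at this
      omega
  · rintro h k _ ⟨h1, h2, _⟩
    rw [← h1] at h2
    exact h _ (Nat.mod_lt k hm) h2

/-- The complement in terms of the classes. -/
theorem lint_compl [MeasurableSpace Z] {Q : Measure Z} {cl : Z → ℕ} {J : ℕ → ℕ → Set Z} {M m' : ℕ} (hcl : ∀ z, cl z < M)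
    (F : Z → ℝ≥0∞) : ∫⁻ z in {z | ∀ i < m', z ∉ J (cl z) i}, F z ∂Q ≤
      ∑ s ∈ Finset.range M, ∫⁻ z in {z | cl z = s ∧ ∀ i < m', z ∉ J s i}, F z ∂Q := by
  calc ∫⁻ z in {z | ∀ i < m', z ∉ J (cl z) i}, F z ∂Q
      ≤ ∫⁻ z in ⋃ s ∈ Finset.range M, {z | cl z = s ∧ ∀ i < m', z ∉ J s i}, F z ∂Q := by
        refine lintegral_mono_set fun z hz => ?_
        simp only [Set.mem_iUnion, Finset.mem_range, exists_prop, Set.mem_ofPred_eq]
        exact ⟨cl z, hcl z, rfl, hz⟩
    _ ≤ _ := by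
        induction Finset.range M using Finset.induction_on with
        | empty => simp
        | insert a S ha ih =>
          rw [Finset.set_biUnion_insert, Finset.sum_insert ha]
          exact (lintegral_union_le _ _ _).trans (add_le_add le_rfl ih)

/-- **THE REMAINDER OVER ALL THE CLASSES** (`ChData.rest` once per class). -/
theorem rest_cls [MeasurableSpace Z] {Q : Measure Z} [IsProbabilityMeasure Q] {M m' : ℕ} {R : ℕ → ℕ → Z → Z → Z}
    {D S X : ℕ → ℕ → Set Z} {W : Z → ℝ≥0∞} {c e : ℝ≥0∞} (h : ∀ s < M, H54.ChData Q m' (R s) (D s) (S s) (X s) W c e)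
    (hc : c ≠ ∞) (r : ℕ) {F : Z → ℝ≥0∞} {C : ℝ≥0∞} (hF : ∀ z, F z ≤ C * W z) {cl : Z → ℕ} (mcl : Measurable cl)
    (hcl : ∀ z, cl z < M) :
    ∫⁻ z in {z | ∀ i < m', z ∉ S (cl z) i \ X (cl z) i}, F z ∂Q ≤
      M * (C * (((1 + c) ^ r)⁻¹ * (∫⁻ z, W z ∂Q + m' * ((1 + c) ^ m' * e)))) +
        C * ∫⁻ z in {z | z ∉ H54.Bad (D (cl z)) (S (cl z)) (X (cl z)) m' r ∧ ∀ i < m', z ∉ S (cl z) i \ X (cl z) i},
          W z ∂Q := by
  classical
  have step : ∀ s ∈ Finset.range M, ∫⁻ z in {z | cl z = s ∧ ∀ i < m', z ∉ S s i \ X s i}, F z ∂Q ≤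
      C * (((1 + c) ^ r)⁻¹ * (∫⁻ z, W z ∂Q + m' * ((1 + c) ^ m' * e))) +
        C * ∫⁻ z in {z | cl z = s ∧ z ∉ H54.Bad (D s) (S s) (X s) m' r ∧ ∀ i < m', z ∉ S s i \ X s i}, W z ∂Q := by
    intro s hs
    have hs' := Finset.mem_range.1 hs
    have h0 := h s hs'
    have hg0 : (1 + c) ^ r ≠ 0 := by positivity
    have hg1 : (1 + c) ^ r ≠ ∞ := ENNReal.pow_ne_top (ENNReal.add_ne_top.2 ⟨ENNReal.one_ne_top, hc⟩)
    have h1 : ∫⁻ z in {z | cl z = s ∧ ∀ i < m', z ∉ S s i \ X s i}, F z ∂Q ≤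
        ∫⁻ z in H54.Bad (D s) (S s) (X s) m' r, F z ∂Q +
          ∫⁻ z in {z | cl z = s ∧ z ∉ H54.Bad (D s) (S s) (X s) m' r ∧ ∀ i < m', z ∉ S s i \ X s i}, F z ∂Q := by
      refine (lintegral_mono_set (t := H54.Bad (D s) (S s) (X s) m' r ∪
        {z | cl z = s ∧ z ∉ H54.Bad (D s) (S s) (X s) m' r ∧ ∀ i < m', z ∉ S s i \ X s i}) ?_).trans
        (lintegral_union_le _ _ _)
      rintro z ⟨hz1, hz2⟩
      by_cases hb : z ∈ H54.Bad (D s) (S s) (X s) m' r
      · exact Or.inl hb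
      · exact Or.inr ⟨hz1, hb, hz2⟩
    refine h1.trans (add_le_add ?_ ?_)
    · calc ∫⁻ z in H54.Bad (D s) (S s) (X s) m' r, F z ∂Q ≤ ∫⁻ z in H54.Bad (D s) (S s) (X s) m' r, C * W z ∂Q :=
            lintegral_mono fun z => hF z
        _ = C * ∫⁻ z in H54.Bad (D s) (S s) (X s) m' r, W z ∂Q := lintegral_const_mul _ h0.mW
        _ ≤ _ := by
          gcongr
          calc ∫⁻ z in H54.Bad (D s) (S s) (X s) m' r, W z ∂Q =
                ((1 + c) ^ r)⁻¹ * ((1 + c) ^ r * ∫⁻ z in H54.Bad (D s) (S s) (X s) m' r, W z ∂Q) := by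
                rw [← mul_assoc, ENNReal.inv_mul_cancel hg0 hg1, one_mul]
            _ ≤ _ := by
              gcongr
              exact h0.none hc r
    · calc _ ≤ ∫⁻ z in {z | cl z = s ∧ z ∉ H54.Bad (D s) (S s) (X s) m' r ∧ ∀ i < m', z ∉ S s i \ X s i},
            C * W z ∂Q := lintegral_mono fun z => hF z
        _ = _ := lintegral_const_mul _ h0.mW
  refine (lint_compl (J := fun s i => S s i \ X s i) hcl F).trans ((Finset.sum_le_sum step).trans ?_)
  rw [Finset.sum_add_distrib, Finset.sum_const, Finset.card_range, nsmul_eq_mul, ← Finset.mul_sum]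
  refine add_le_add le_rfl ?_
  refine mul_le_mul_right ?_ _
  -- disjoint pieces
  have mB : ∀ s ∈ Finset.range M,
      MeasurableSet {z | cl z = s ∧ z ∉ H54.Bad (D s) (S s) (X s) m' r ∧ ∀ i < m', z ∉ S s i \ X s i} := by
    intro s hs
    have h0 := h s (Finset.mem_range.1 hs)
    have b1 : MeasurableSet (H54.Bad (D s) (S s) (X s) m' r) := H54.measurableSet_Bad h0.mD h0.mS h0.mX
    have b2 : MeasurableSet {z | ∀ i < m', z ∉ S s i \ X s i} := by
      rw [show {z | ∀ i < m', z ∉ S s i \ X s i} = ⋂ i ∈ Finset.range m', (S s i \ X s i)ᶜ by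
        ext z
        simp only [Set.mem_ofPred_eq, Set.mem_iInter, Finset.mem_range, Set.mem_compl_iff]]
      exact Finset.measurableSet_biInter _ fun i hi =>
        ((h0.mS i (Finset.mem_range.1 hi)).diff (h0.mX i (Finset.mem_range.1 hi))).compl
    exact (mcl (measurableSet_singleton s)).inter (b1.compl.inter b2)
  rw [← lintegral_biUnion_finset (s := Finset.range M)
    (t := fun s => {z | cl z = s ∧ z ∉ H54.Bad (D s) (S s) (X s) m' r ∧ ∀ i < m', z ∉ S s i \ X s i}) (μ := Q) ?_ mB W]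
  · refine lintegral_mono_set fun z hz => ?_
    simp only [Set.mem_iUnion, Finset.mem_range, exists_prop, Set.mem_ofPred_eq] at hz ⊢
    obtain ⟨s, _, h1, h2, h3⟩ := hz
    rw [h1]
    exact ⟨h2, h3⟩
  · intro s _ t _ hst
    rw [Function.onFun, Set.disjoint_left]
    rintro z ⟨h1, _⟩ ⟨h2, _⟩
    exact hst (h1.symm.trans h2)

open Classical in
/-- On the good set of the levels, `not Bad` means few wide windows of the class. -/
theorem few_wide {D S X : ℕ → Set Z} {m' r b : ℕ} {z : Z} (h1 : z ∉ H54.Bad D S X m' r) (h2 : ∀ i < m', z ∉ S i \ X i)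
    (h3 : ((Finset.range m').filter fun i => z ∈ X i).card ≤ b) :
    ((Finset.range m').filter fun i => z ∈ D i).card < b + r := by
  by_contra hc
  refine h1 ⟨fun i hi hS => ?_, ?_⟩
  · by_contra hX
    exact h2 i hi ⟨hS, hX⟩
  · have : ((Finset.range m').filter fun i => z ∈ X i).card + r ≤ ((Finset.range m').filter fun i => z ∈ D i).card := by
      omega
    convert this using 2

end flat

end Pool.Agent.W_7d29a1_C1.H77
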