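import Pool.Agent.W_7d29a1_C1.Cls77
import Pool.Agent.W_7d29a1_C1.Sw9

/-!
Both halves (MP_7d29a1_pr), attractor route: LEVELS OF THE PAIR WHICH DO NOT CHANGE UNDER AN EXCHANGE (helper77).

A level `g` of one environment sees two neighbouring slabs `B` and `B'`. `four B' g a w` = the largest of its values on the four
environments with the slab `B'` from one of the copies `fs w`, `sn a w` and the rest from one of them. It is invariant under
the exchange of any set which contains or misses each of the two slabs (`four_sw`), it bounds the level of each copy before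
and after the exchange, and it is unchanged by a fresh block which misses the slabs.

`mix`: for a family of levels with disjoint slabs, the value on a mixed environment is the value on ONE environment with the
law of a single copy. Hence `prob_LB`: the number of bad scales of the pair.
-/

set_option autoImplicit false

namespace Pool.Agent.W_7d29a1_C1.H77

open MeasureTheory ProbabilityTheory
open Pool.Agent.W_7d29a1_F Pool.Agent.W_7d29a1_C1.S71 Pool.Agent.W_7d29a1_C1.Sw9
open scoped ENNReal

noncomputable section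

variable {μ : Measure ℝ} [IsProbabilityMeasure μ]

/-- The four mixed environments. -/
def mx (B' : Set Pt) (a : Pt) (x y : Bool) (w : Env × Env) : Env :=
  gl B' (if x then fs w else sn a w) (if y then fs w else sn a w)

/-- The largest value on the four mixed environments. -/
def four (B' : Set Pt) (g : Env → ℕ) (a : Pt) (w : Env × Env) : ℕ :=
  max (max (g (mx B' a true true w)) (g (mx B' a true false w))) (max (g (mx B' a false true w)) (g (mx B' a false false w)))

theorem le_four (B' : Set Pt) (g : Env → ℕ) (a : Pt) (w : Env × Env) (x y : Bool) : g (mx B' a x y w) ≤ four B' g a w := by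
  unfold four
  cases x <;> cases y <;> simp

theorem mx_tt (B' : Set Pt) (a : Pt) (w : Env × Env) : mx B' a true true w = fs w := by
  unfold mx
  simp only [if_true]
  exact gl_self _ _

theorem mx_ff (B' : Set Pt) (a : Pt) (w : Env × Env) : mx B' a false false w = sn a w := by
  unfold mx
  simp only [Bool.false_eq_true, if_false]
  exact gl_self _ _

theorem fs_le_four (B' : Set Pt) (g : Env → ℕ) (a : Pt) (w : Env × Env) : g (fs w) ≤ four B' g a w := by
  rw [← mx_tt B' a w]
  exact le_four _ _ _ _ _ _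

theorem sn_le_four (B' : Set Pt) (g : Env → ℕ) (a : Pt) (w : Env × Env) : g (sn a w) ≤ four B' g a w := by
  rw [← mx_ff B' a w]
  exact le_four _ _ _ _ _ _

theorem four_le_sum (B' : Set Pt) (g : Env → ℕ) (a : Pt) (w : Env × Env) :
    four B' g a w ≤ g (mx B' a true true w) + g (mx B' a true false w) + g (mx B' a false true w) +
      g (mx B' a false false w) := by
  unfold four
  refine max_le (max_le ?_ ?_) (max_le ?_ ?_) <;> omega

theorem four_ge (B' : Set Pt) (g : Env → ℕ) (a : Pt) (w w' : Env × Env)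
    (h : ∀ x y, ∃ x' y', g (mx B' a x y w) = g (mx B' a x' y' w')) : four B' g a w ≤ four B' g a w' := by
  unfold four
  refine max_le (max_le ?_ ?_) (max_le ?_ ?_)
  · obtain ⟨x', y', e⟩ := h true true
    rw [e]
    exact le_four _ _ _ _ _ _
  · obtain ⟨x', y', e⟩ := h true false
    rw [e]
    exact le_four _ _ _ _ _ _
  · obtain ⟨x', y', e⟩ := h false true
    rw [e]
    exact le_four _ _ _ _ _ _
  · obtain ⟨x', y', e⟩ := h false false
    rw [e]
    exact le_four _ _ _ _ _ _

theorem measurable_mx (B' : Set Pt) (a : Pt) (x y : Bool) : Measurable (mx B' a x y) := by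
  have h : ∀ b : Bool, Measurable fun w : Env × Env => if b then fs w else sn a w := by
    intro b
    cases b
    · simp only [Bool.false_eq_true, if_false]
      exact measurable_sn a
    · simp only [if_true]
      exact measurable_fs
  unfold mx
  exact (measurable_gl B').comp ((h x).prodMk (h y))

theorem measurable_four (B' : Set Pt) {g : Env → ℕ} (hg : Measurable g) (a : Pt) : Measurable (four B' g a) := by
  unfold four
  exact ((hg.comp (measurable_mx _ _ _ _)).max (hg.comp (measurable_mx _ _ _ _))).max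
    ((hg.comp (measurable_mx _ _ _ _)).max (hg.comp (measurable_mx _ _ _ _)))

/-- A copy of the pair. -/
def cp (a : Pt) (x : Bool) (w : Env × Env) : Env := if x then fs w else sn a w

theorem mx_eq (B' : Set Pt) (a : Pt) (x y : Bool) (w : Env × Env) : mx B' a x y w = gl B' (cp a x w) (cp a y w) := rfl

/-- Inside the exchanged set the copies are exchanged. -/
theorem cp_sw_in {A : Set Pt} (a : Pt) (x : Bool) (w : Env × Env) {p : Pt} (hp : p ∈ A) :
    cp a x (sw A a w) p = cp a (!x) w p := by
  unfold cp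
  cases x
  · simp only [Bool.false_eq_true, if_false, Bool.not_false, if_true]
    rw [sn_sw, gl_of_mem hp]
  · simp only [if_true, Bool.not_true, Bool.false_eq_true, if_false]
    rw [fs_sw, gl_of_mem hp]

theorem cp_sw_off {A : Set Pt} (a : Pt) (x : Bool) (w : Env × Env) {p : Pt} (hp : p ∉ A) :
    cp a x (sw A a w) p = cp a x w p := by
  unfold cp
  cases x
  · simp only [Bool.false_eq_true, if_false]
    rw [sn_sw, gl_of_not_mem hp]
  · simp only [if_true]
    rw [fs_sw, gl_of_not_mem hp]

/-- On a slab which is inside or outside, the exchange permutes the copies. -/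
theorem cp_sw {A B : Set Pt} (hB : B ⊆ A ∨ Disjoint B A) (a : Pt) (x : Bool) (w : Env × Env) :
    ∃ x', ∀ p ∈ B, cp a x (sw A a w) p = cp a x' w p := by
  rcases hB with h | h
  · exact ⟨!x, fun p hp => cp_sw_in a x w (h hp)⟩
  · exact ⟨x, fun p hp => cp_sw_off a x w (Set.disjoint_left.1 h hp)⟩

/-- A level which sees `B ∪ B'` only. -/
theorem level_eq {B B' : Set Pt} {g : Env → ℕ} (hg : OffF (B ∪ B')ᶜ g) {α α' β β' : Env} (h1 : ∀ p ∈ B', α p = α' p)
    (h2 : ∀ p ∈ B, β p = β' p) : g (gl B' α β) = g (gl B' α' β') := by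
  refine hg _ _ fun p hp => ?_
  rw [Set.mem_compl_iff, not_not] at hp
  by_cases hq : p ∈ B'
  · rw [gl_of_mem hq, gl_of_mem hq, h1 p hq]
  · rw [gl_of_not_mem hq, gl_of_not_mem hq]
    rcases hp with h | h
    · exact h2 p h
    · exact absurd h hq

theorem four_sw_le {A B B' : Set Pt} {g : Env → ℕ} (hg : OffF (B ∪ B')ᶜ g) (hB : B ⊆ A ∨ Disjoint B A)
    (hB' : B' ⊆ A ∨ Disjoint B' A) (a : Pt) (w : Env × Env) : four B' g a (sw A a w) ≤ four B' g a w := by
  refine four_ge _ _ _ _ _ fun x y => ?_
  obtain ⟨x', hx⟩ := cp_sw hB' a x w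
  obtain ⟨y', hy⟩ := cp_sw hB a y w
  refine ⟨x', y', ?_⟩
  rw [mx_eq, mx_eq]
  exact level_eq hg hx hy

/-- **INVARIANCE OF THE LEVELS OF THE PAIR.** -/
theorem four_sw {A B B' : Set Pt} {g : Env → ℕ} (hg : OffF (B ∪ B')ᶜ g) (hB : B ⊆ A ∨ Disjoint B A)
    (hB' : B' ⊆ A ∨ Disjoint B' A) (a : Pt) (w : Env × Env) : four B' g a (sw A a w) = four B' g a w := by
  refine le_antisymm (four_sw_le hg hB hB' a w) ?_
  have := four_sw_le hg hB hB' a (sw A a w)
  rwa [sw_sw] at this

/-- A fresh block which misses the two slabs changes nothing. -/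
theorem four_ref2 {C B B' : Set Pt} {g : Env → ℕ} (hg : OffF (B ∪ B')ᶜ g) (hB : Disjoint B C) (hB' : Disjoint B' C)
    (a : Pt) (η w : Env × Env) : four B' g a (ref2 C a η w) = four B' g a w := by
  have e1 : ∀ (x : Bool) p, p ∉ C → cp a x (ref2 C a η w) p = cp a x w p := by
    intro x p hp
    unfold cp
    cases x
    · simp only [Bool.false_eq_true, if_false]
      rw [sn_ref2, gl_of_not_mem hp]
    · simp only [if_true]
      rw [fs_ref2, gl_of_not_mem hp]
  have e2 : ∀ x y, g (mx B' a x y (ref2 C a η w)) = g (mx B' a x y w) := by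
    intro x y
    rw [mx_eq, mx_eq]
    exact level_eq hg (fun p hp => e1 x p (Set.disjoint_left.1 hB' hp)) fun p hp => e1 y p (Set.disjoint_left.1 hB hp)
  unfold four
  rw [e2, e2, e2, e2]

/-- The pair agrees with another pair on the two slabs. -/
theorem four_congr {B B' : Set Pt} {g : Env → ℕ} (hg : OffF (B ∪ B')ᶜ g) {a : Pt} {w w' : Env × Env}
    (h : ∀ (x : Bool), ∀ p ∈ B ∪ B', cp a x w p = cp a x w' p) : four B' g a w = four B' g a w' := by
  have e2 : ∀ x y, g (mx B' a x y w) = g (mx B' a x y w') := by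
    intro x y
    rw [mx_eq, mx_eq]
    exact level_eq hg (fun p hp => h x p (Or.inr hp)) fun p hp => h y p (Or.inl hp)
  unfold four
  rw [e2, e2, e2, e2]

/-! ### One environment for a whole family -/

/-- The mixed environment has the law of one copy. -/
theorem mp_mx (G : Set Pt) (a : Pt) (x y : Bool) :
    MeasurePreserving (mx G a x y) ((law μ).prod (law μ)) (law μ) := by
  cases x <;> cases y
  · rw [show mx G a false false = sn a from funext fun w => mx_ff G a w]
    exact mp_sn a
  · -- `gl G (sn a w) (fs w)`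
    have h1 : MeasurePreserving (fun w : Env × Env => (sh a w.2, w.1)) ((law μ).prod (law μ)) ((law μ).prod (law μ)) :=
      ((mp_sh a).prod (MeasurePreserving.id (law μ))).comp (Measure.measurePreserving_swap (μ := law μ) (ν := law μ))
    exact (mp_gl G).comp h1
  · have h1 : MeasurePreserving (Prod.map id (sh a) : Env × Env → Env × Env) ((law μ).prod (law μ))
        ((law μ).prod (law μ)) := (MeasurePreserving.id (law μ)).prod (mp_sh a)
    exact (mp_gl G).comp h1
  · rw [show mx G a true true = fs from funext fun w => mx_tt G a w]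
    exact mp_fs

/-- For levels with disjoint slabs one mixed environment serves the whole family. -/
theorem mix {I : Set ℕ} {B B' : ℕ → Set Pt} {g : ℕ → Env → ℕ} (hg : ∀ v, OffF (B v ∪ B' v)ᶜ (g v))
    (hd : ∀ v ∈ I, ∀ u ∈ I, Disjoint (B v) (B' u)) (a : Pt) (x y : Bool) (w : Env × Env) {v : ℕ} (hv : v ∈ I) :
    g v (mx (B' v) a x y w) = g v (mx (⋃ u ∈ I, B' u) a x y w) := by
  rw [mx_eq, mx_eq]
  refine hg v _ _ fun p hp => ?_
  rw [Set.mem_compl_iff, not_not] at hp
  by_cases hq : p ∈ B' v
  · rw [gl_of_mem hq, gl_of_mem (Set.mem_biUnion hv hq)]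
  · rcases hp with h | h
    · have hn : p ∉ ⋃ u ∈ I, B' u := by
        simp only [Set.mem_iUnion, not_exists]
        intro u hu hpu
        exact Set.disjoint_left.1 (hd v hv u hu) h hpu
      rw [gl_of_not_mem hq, gl_of_not_mem hn]
    · exact absurd h hq

/-- The levels of the pair. -/
def L4 (B' : ℕ → Set Pt) (g : ℕ → Env → ℕ) (a : Pt) (v : ℕ) (w : Env × Env) : ℕ := four (B' v) (g v) a w

theorem measurable_L4 (B' : ℕ → Set Pt) {g : ℕ → Env → ℕ} (hg : ∀ v, Measurable (g v)) (a : Pt) (v : ℕ) :
    Measurable (L4 B' g a v) := measurable_four _ (hg v) a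

/-- **THE SUM OF THE LEVELS OF THE PAIR** from the sums of the levels of one environment over the even and over the odd scales. -/
theorem prob_L4 {m b : ℕ} {B B' : ℕ → Set Pt} {g : ℕ → Env → ℕ} (mg : ∀ v, Measurable (g v))
    (hg : ∀ v, OffF (B v ∪ B' v)ᶜ (g v)) (hd : ∀ v u, v % 2 = u % 2 → Disjoint (B v) (B' u)) (a : Pt) {ε : ℝ≥0∞}
    (h : ∀ r < 2, law μ {η | b < ∑ v ∈ (Finset.range m).filter fun v => v % 2 = r, g v η} ≤ ε) :
    ((law μ).prod (law μ)) {w | 8 * b < ∑ v ∈ Finset.range m, L4 B' g a v w} ≤ 8 * ε := by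
  classical
  -- one combination, one parity
  set E : Bool → Bool → ℕ → Set (Env × Env) := fun x y r =>
    {w | b < ∑ v ∈ (Finset.range m).filter fun v => v % 2 = r, g v (mx (B' v) a x y w)} with hE
  have e1 : ∀ x y r, r < 2 → ((law μ).prod (law μ)) (E x y r) ≤ ε := by
    intro x y r hr
    have e2 : E x y r = (mx (⋃ u ∈ {u : ℕ | u % 2 = r}, B' u) a x y) ⁻¹'
        {η | b < ∑ v ∈ (Finset.range m).filter fun v => v % 2 = r, g v η} := by
      ext w
      simp only [hE, Set.mem_ofPred_eq, Set.mem_preimage]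
      rw [Finset.sum_congr rfl fun v hv => mix (I := {u : ℕ | u % 2 = r}) hg
        (fun v hv u hu => hd v u ((show v % 2 = r from hv).trans (show u % 2 = r from hu).symm)) a x y w
        (show v % 2 = r from (Finset.mem_filter.1 hv).2)]
      rfl
    have mE : MeasurableSet {η : Env | b < ∑ v ∈ (Finset.range m).filter fun v => v % 2 = r, g v η} :=
      measurableSet_lt measurable_const (Finset.measurable_sum _ fun v _ => mg v)
    rw [e2, (mp_mx _ a x y).measure_preimage mE.nullMeasurableSet]
    exact h r hr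
  have e3 : {w | 8 * b < ∑ v ∈ Finset.range m, L4 B' g a v w} ⊆
      ((E true true 0 ∪ E true true 1) ∪ (E true false 0 ∪ E true false 1)) ∪
        ((E false true 0 ∪ E false true 1) ∪ (E false false 0 ∪ E false false 1)) := by
    intro w hw
    by_contra hc
    simp only [Set.mem_union, not_or, hE, Set.mem_ofPred_eq, not_lt] at hc
    obtain ⟨⟨⟨c1, c2⟩, c3, c4⟩, ⟨c5, c6⟩, c7, c8⟩ := hc
    have split : ∀ f : ℕ → ℕ, ∑ v ∈ Finset.range m, f v = (∑ v ∈ (Finset.range m).filter fun v => v % 2 = 0, f v) +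
        ∑ v ∈ (Finset.range m).filter fun v => v % 2 = 1, f v := by
      intro f
      rw [← Finset.sum_filter_add_sum_filter_not (Finset.range m) (fun v => v % 2 = 0) f]
      congr 1
      refine Finset.sum_congr (Finset.filter_congr fun v _ => ?_) fun _ _ => rfl
      omega
    have h1 : ∑ v ∈ Finset.range m, L4 B' g a v w ≤ 8 * b := by
      calc ∑ v ∈ Finset.range m, L4 B' g a v w ≤ ∑ v ∈ Finset.range m, (g v (mx (B' v) a true true w) +
            g v (mx (B' v) a true false w) + g v (mx (B' v) a false true w) + g v (mx (B' v) a false false w)) :=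
            Finset.sum_le_sum fun v _ => four_le_sum _ _ _ _
        _ ≤ 8 * b := by
          rw [Finset.sum_add_distrib, Finset.sum_add_distrib, Finset.sum_add_distrib, split, split, split, split]
          omega
    have hw' : 8 * b < ∑ v ∈ Finset.range m, L4 B' g a v w := hw
    omega
  refine (measure_mono e3).trans ?_
  have u2 : ∀ (s t : Set (Env × Env)) (p q : ℝ≥0∞), ((law μ).prod (law μ)) s ≤ p → ((law μ).prod (law μ)) t ≤ q →
      ((law μ).prod (law μ)) (s ∪ t) ≤ p + q := fun s t p q h1 h2 => (measure_union_le s t).trans (add_le_add h1 h2)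
  have p1 : ∀ x y, ((law μ).prod (law μ)) (E x y 0 ∪ E x y 1) ≤ ε + ε := fun x y =>
    u2 _ _ _ _ (e1 x y 0 (by norm_num)) (e1 x y 1 (by norm_num))
  calc _ ≤ ((ε + ε) + (ε + ε)) + ((ε + ε) + (ε + ε)) :=
        u2 _ _ _ _ (u2 _ _ _ _ (p1 _ _) (p1 _ _)) (u2 _ _ _ _ (p1 _ _) (p1 _ _))
    _ = 8 * ε := by ring

/-- **THE CLASS OF THE PAIR DOES NOT CHANGE UNDER AN EXCHANGE** of a set which contains or misses each slab. -/
theorem clsL_sw {M m m' b : ℕ} {O : Finset ℕ} {B B' : ℕ → Set Pt} {g : ℕ → Env → ℕ} (hg : ∀ v, OffF (B v ∪ B' v)ᶜ (g v))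
    {A : Set Pt} (hB : ∀ v < m, B v ⊆ A ∨ Disjoint (B v) A) (hB' : ∀ v < m, B' v ⊆ A ∨ Disjoint (B' v) A) (a : Pt)
    (w : Env × Env) : clsL M m m' b O (L4 B' g a) (sw A a w) = clsL M m m' b O (L4 B' g a) w :=
  clsL_congr fun v hv => four_sw (hg v) (hB v hv) (hB' v hv) a w

theorem LB_sw {m : ℕ} {B B' : ℕ → Set Pt} {g : ℕ → Env → ℕ} (hg : ∀ v, OffF (B v ∪ B' v)ᶜ (g v))
    {A : Set Pt} (hB : ∀ v < m, B v ⊆ A ∨ Disjoint (B v) A) (hB' : ∀ v < m, B' v ⊆ A ∨ Disjoint (B' v) A) (a : Pt)
    (w : Env × Env) (u : ℕ) : u ∈ LB m (fun v => L4 B' g a v (sw A a w)) ↔ u ∈ LB m (fun v => L4 B' g a v w) := by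
  rw [mem_LB, mem_LB]
  refine and_congr_right fun _ => exists_congr fun v => and_congr_right fun hv => ?_
  unfold L4
  rw [four_sw (hg v) (hB v hv) (hB' v hv) a w]

end

end Pool.Agent.W_7d29a1_C1.H77
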