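import Pool.Agent.W_7d29a1_C1.FrmG10

/-!
MP_7d29a1_pr, [C1], SHELL, THE FRESH BALL (helper10): **the fields `mSb`, `mSp`, `rSb`, `rSp` of `Cm8`** for `Sb := Sb47 j₀ SA SB SX`,
`Sp := Sp10 ..`, rows `rA10` (end of the first buffer), `rB j = rA10 + RB k` (end of the second buffer), `rE10` (the row `e`).
-/

set_option autoImplicit false

namespace Pool.Agent.W_7d29a1_C1.T10

open MeasureTheory Filter Topology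
open Pool.Agent.W_7d29a1_F Pool.Agent.W_7d29a1_h4g Pool.Agent.W_7d29a1_H Pool.Agent.W_7d29a1_HS
open Pool.Agent.W_7d29a1_C1.S71 Pool.Agent.W_7d29a1_C1.Sw9 Pool.Agent.W_7d29a1_C1.U16 Pool.Agent.W_7d29a1_C1.H60
open Pool.Agent.W_7d29a1_C1 (On20)
open Pool.Agent.W_7d29a1_C1.Fr47 (Bas47 Sb47 law_sh47 on_sh47)
open Pool.Agent.W_7d29a1_C1.H8 (Cm8)

noncomputable section

/-- The relative end row of the second buffer. -/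
def rB10 (th : ℝ) (R₁ RB : ℕ) (T : ℕ → ℕ) (j : ℕ) : ℤ := rA10 th R₁ T j + (RB : ℤ) * (kF th R₁ (T j) : ℤ)

variable {μ : Measure ℝ} {s : ℝ} {R C₀ : ℝ} {B h₀ K L : ℕ} {G : Gd}

/-- **THE ROWS OF THE BASE SETS.** -/
theorem rB10_le {th : ℝ} (h0 : 0 < th) (h1 : th ≤ 1 / 4) {R₁ : ℕ} (hR : 1 ≤ R₁) : ∃ n₁ : ℕ, 1 ≤ n₁ ∧
    ∀ {μ : Measure ℝ} {s R C₀ : ℝ} {B h₀ K L : ℕ} {G : Gd}, GW μ s R B C₀ h₀ K L G → n₁ ≤ h₀ → 16 ≤ th * K → ∀ RB : ℕ,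
    (RB : ℝ) ≤ th / 8 * R₁ → ∀ j, 1 ≤ j → rA10 th R₁ (Tg h₀ K) j ≤ rB10 th R₁ RB (Tg h₀ K) j ∧
      rB10 th R₁ RB (Tg h₀ K) j ≤ -(Tg h₀ K (j - 1) : ℤ) ∧ rB10 th R₁ RB (Tg h₀ K) j ≤ rE10 (Tg h₀ K) j := by
  obtain ⟨n₁, hn₁, H⟩ := rA10_up h0 h1 hR
  refine ⟨n₁, hn₁, fun {μ s R C₀ B h₀ K L G} g hn hK RB hRB j hj => ?_⟩
  have hT : h₀ ≤ Tg h₀ K j := by
    have := g.K1
    rw [Tg_pos hj, mul_comm 2 h₀, mul_assoc]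
    exact Nat.le_mul_of_pos_right _ (Nat.mul_pos two_pos (Nat.pow_pos (by omega)))
  obtain ⟨-, a2⟩ := H (Tg h₀ K) j (hn.trans hT)
  have a3 := a2 RB (Tg h₀ K (j - 1)) hRB (g.Tpred' hj hK)
  have a4 := rE10_nn (Tg h₀ K) j
  have a5 : (0 : ℤ) ≤ (RB : ℤ) * (kF th R₁ (Tg h₀ K j) : ℤ) := by positivity
  unfold rB10
  refine ⟨by omega, a3, by omega⟩

theorem GW.rE10_leaf (g : GW μ s R B C₀ h₀ K L G) (hK : 8 ≤ K) {j : ℕ} (hj : 1 ≤ j) :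
    ((G.H j : ℤ) - G.H (j - 1)) + Tg h₀ K (j - 1) ≤ rE10 (Tg h₀ K) j := by
  have h1 := g.TH hj
  have h2 : 8 * Tg h₀ K (j - 1) ≤ Tg h₀ K j := (Nat.mul_le_mul_right _ hK).trans (g.Tpred hj)
  unfold rE10
  omega

variable [IsProbabilityMeasure μ] {c θ Kw : ℝ} {P : ℕ} {j₀ m : ℕ} {rB : ℕ → ℤ} {pA εB pX : ℝ} {FA FB FX : ℕ → Pt → Env → Prop}
  {SA SB SX : ℕ → Set Env}

/-- **FOUR FIELDS OF `Cm8`.** -/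
theorem cmF10 {th : ℝ} {R₁ : ℕ} (g : GW μ s R B C₀ h₀ K L G) (hK : 8 ≤ K) (hj₀ : 1 ≤ j₀)
    (hBas : Bas47 μ (Tg h₀ K) j₀ m (rA10 th R₁ (Tg h₀ K)) rB (rE10 (Tg h₀ K)) pA εB pX FA FB FX SA SB SX)
    (hA : ∀ j, j₀ ≤ j → j < m → rA10 th R₁ (Tg h₀ K) j ≤ -(Tg h₀ K (j - 1) : ℤ))
    (hB : ∀ j, j₀ ≤ j → j < m → rB j ≤ -(Tg h₀ K (j - 1) : ℤ)) {qx : ℝ} {vI PI : ℕ → ℕ × ℤ → Env → ℝ}
    (ov : ∀ l < m, ∀ y, OffF (AT (Tg h₀ K) l)ᶜ (vI l y)) (oP : ∀ l < m, ∀ y, OffF (AT (Tg h₀ K) l)ᶜ (PI l y)) :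
    Cm8 G (Tg h₀ K) m (Sb47 j₀ SA SB SX) (Sp10 μ s c θ Kw P (Tg h₀ K) j₀ (rA10 th R₁ (Tg h₀ K)) (rE10 (Tg h₀ K)) qx) vI PI where
  mSb := fun j _ => hBas.mSb j
  mSp := fun _ _ _ => Sp10_meas
  rSb := fun j hj => hBas.rSb hA (fun j h1 h2 => ⟨rA10_low _ _ _ _, hB j h1 h2⟩) (fun j h1 _ => g.rE10_leaf hK (hj₀.trans h1)) hj
  rSp := fun j _ o => Sp10_on (fun v => Tg_mono (show 1 ≤ K by omega) (Nat.le_succ v)) hj₀ (fun _ => rA10_low _ _ _ _) (fun _ => rE10_le _ _)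
  ov := ov
  oP := oP

end

end Pool.Agent.W_7d29a1_C1.T10
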