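import Pool.Agent.W_7d29a1_C1.Gate76

/-!
MP_7d29a1_pr, attractor route, [C1] SEP, leaf S7: THE COMPARISON OF THE HAZARD OF A CONTACT `c` UNDER THE LUCK OF ONE SLAB. (helper71)

`S` = the sites of a row, `a` = masses of a group `X` there, `k` = masses of the contact `c`, `M`, `M'` = old and new future masses of the sites
(any profile at the end), `H` = the new mass through the tube. `leak` : `M' ≤ 1_W H + Y M` (Box69), `H ≤ M'`.
* `group`: if the tube prefers the group to the contact by the factor `g` at most, then `Z_X' Z_c ≤ (g + Y / lam) Z_c' Z_X`,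
  `lam` = the gain of the contact through the tube;
* `cmp`: two groups, first meeting at `c`: `w ≤ G² w'`;
* `gate_ends`: `g = 1 / q` as soon as the mouth lies between the two `q`-quantiles of the exit law (no flatness at all);
* `gate_pinch`: `g = 2 (1 + e)` if the rows before the tube are a pinch of the window (any past, any future, any mouth in the window);
* `cmp_pinch`, `cmp_ends`: the comparison; `avg`: its integrated form (field `cmp` of the skeletons).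
-/

set_option autoImplicit false

namespace Pool.Agent.W_7d29a1_C1.Cmp71

open Finset Pool.Agent.W_7d29a1_C1.Gini76 Pool.Agent.W_7d29a1_C1.CR76 Pool.Agent.W_7d29a1_C1.Basin76
  Pool.Agent.W_7d29a1_C1.Gate76

noncomputable section

variable {ι κ : Type*} [LinearOrder ι] [LinearOrder κ]

/-- **One group.** -/
theorem group {S W : Finset ι} (hW : W ⊆ S) {a k H M M' : ι → ℝ} (ha : ∀ v ∈ S, 0 ≤ a v) (hk : ∀ v ∈ S, 0 ≤ k v)
    (hM : ∀ v ∈ S, 0 ≤ M v) (hM' : ∀ v ∈ S, 0 ≤ M' v) {Y g lam : ℝ} (hY : 0 ≤ Y) (hg0 : 0 ≤ g) (hlam : 0 < lam)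
    (leak : ∀ v ∈ S, M' v ≤ (if v ∈ W then H v else 0) + Y * M v) (sub : ∀ v ∈ W, H v ≤ M' v)
    (gain : lam * ∑ v ∈ S, k v * M v ≤ ∑ v ∈ W, k v * H v)
    (gate : (∑ v ∈ W, a v * H v) * (∑ v ∈ S, k v * M v) ≤ g * ((∑ v ∈ W, k v * H v) * ∑ v ∈ S, a v * M v)) :
    (∑ v ∈ S, a v * M' v) * (∑ v ∈ S, k v * M v) ≤ (g + Y / lam) * ((∑ v ∈ S, k v * M' v) * ∑ v ∈ S, a v * M v) := by
  have hZX : 0 ≤ ∑ v ∈ S, a v * M v := sum_nonneg fun v hv => mul_nonneg (ha v hv) (hM v hv)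
  have hZc : 0 ≤ ∑ v ∈ S, k v * M v := sum_nonneg fun v hv => mul_nonneg (hk v hv) (hM v hv)
  have hup : ∑ v ∈ S, a v * M' v ≤ (∑ v ∈ W, a v * H v) + Y * ∑ v ∈ S, a v * M v := by
    have e1 : ∑ v ∈ W, a v * H v = ∑ v ∈ S, a v * (if v ∈ W then H v else 0) := by
      rw [← sum_subset hW]
      · exact sum_congr rfl fun v hv => by rw [if_pos hv]
      · intro v _ hv
        rw [if_neg hv, mul_zero]
    rw [e1, mul_sum, ← sum_add_distrib]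
    refine sum_le_sum fun v hv => ?_
    calc a v * M' v ≤ a v * ((if v ∈ W then H v else 0) + Y * M v) := mul_le_mul_of_nonneg_left (leak v hv) (ha v hv)
      _ = _ := by ring
  have hkH : ∑ v ∈ W, k v * H v ≤ ∑ v ∈ S, k v * M' v :=
    (sum_le_sum fun v hv => mul_le_mul_of_nonneg_left (sub v hv) (hk v (hW hv))).trans
      (sum_le_sum_of_subset_of_nonneg hW fun v hv _ => mul_nonneg (hk v hv) (hM' v hv))
  have hY' : Y * ∑ v ∈ S, k v * M v ≤ Y / lam * ∑ v ∈ W, k v * H v := by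
    calc Y * ∑ v ∈ S, k v * M v = Y / lam * (lam * ∑ v ∈ S, k v * M v) := by field_simp
      _ ≤ _ := mul_le_mul_of_nonneg_left gain (by positivity)
  calc (∑ v ∈ S, a v * M' v) * (∑ v ∈ S, k v * M v)
      ≤ ((∑ v ∈ W, a v * H v) + Y * ∑ v ∈ S, a v * M v) * (∑ v ∈ S, k v * M v) := mul_le_mul_of_nonneg_right hup hZc
    _ = (∑ v ∈ W, a v * H v) * (∑ v ∈ S, k v * M v) + (∑ v ∈ S, a v * M v) * (Y * ∑ v ∈ S, k v * M v) := by ring
    _ ≤ g * ((∑ v ∈ W, k v * H v) * ∑ v ∈ S, a v * M v) + (∑ v ∈ S, a v * M v) * (Y / lam * ∑ v ∈ W, k v * H v) :=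
        add_le_add gate (mul_le_mul_of_nonneg_left hY' hZX)
    _ = (g + Y / lam) * ((∑ v ∈ W, k v * H v) * ∑ v ∈ S, a v * M v) := by ring
    _ ≤ _ := mul_le_mul_of_nonneg_left (mul_le_mul_of_nonneg_right hkH hZX) (by positivity)

/-- **The first meeting at `c`.** -/
theorem cmp {N Zc Zc' ZM ZM' ZR ZR' G : ℝ} (hN : 0 ≤ N) (hZc : 0 ≤ Zc) (hZM : 0 < ZM) (hZR : 0 < ZR)
    (hZc' : 0 ≤ Zc') (hZM' : 0 < ZM') (hZR' : 0 < ZR') (hG : 0 ≤ G) (hM : ZM' * Zc ≤ G * (Zc' * ZM))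
    (hR : ZR' * Zc ≤ G * (Zc' * ZR)) : N * Zc ^ 2 / (ZM * ZR) ≤ G ^ 2 * (N * Zc' ^ 2 / (ZM' * ZR')) := by
  have a1 : Zc / ZM ≤ G * (Zc' / ZM') := by
    rw [div_le_iff₀ hZM, ← mul_div_assoc, div_mul_eq_mul_div, le_div_iff₀ hZM']
    linarith
  have a2 : Zc / ZR ≤ G * (Zc' / ZR') := by
    rw [div_le_iff₀ hZR, ← mul_div_assoc, div_mul_eq_mul_div, le_div_iff₀ hZR']
    linarith
  have n2 : 0 ≤ Zc / ZR := div_nonneg hZc hZR.le
  have n1 : 0 ≤ G * (Zc' / ZM') := mul_nonneg hG (div_nonneg hZc' hZM'.le)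
  calc N * Zc ^ 2 / (ZM * ZR) = N * ((Zc / ZM) * (Zc / ZR)) := by field_simp
    _ ≤ N * ((G * (Zc' / ZM')) * (G * (Zc' / ZR'))) := mul_le_mul_of_nonneg_left (mul_le_mul a1 a2 n2 n1) hN
    _ = G ^ 2 * (N * Zc' ^ 2 / (ZM' * ZR')) := by field_simp

/-! ### Gates -/

/-- **THE MOUTH BETWEEN THE QUANTILES**: no flatness. -/
theorem gate_ends {a k : κ → ℝ} (h : Spl a k) (S W : Finset κ) {A B : κ → ℝ} (hB : ∀ v, 0 ≤ B v) (hA : ∀ v ∈ W, 0 ≤ A v)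
    (hk : ∀ v, 0 ≤ k v) {q : ℝ} {x y : κ} (hW : ∀ v ∈ W, x ≤ v ∧ v ≤ y) (hkx : 0 < k x) (hky : 0 < k y)
    (h1 : q * ∑ v ∈ S, k v * B v ≤ ∑ v ∈ S.filter (fun v => v ≤ x), k v * B v)
    (h2 : q * ∑ v ∈ S, k v * B v ≤ ∑ v ∈ S.filter (fun v => y ≤ v), k v * B v) :
    q * ((∑ v ∈ W, a v * A v) * ∑ v ∈ S, k v * B v) ≤ (∑ v ∈ W, k v * A v) * ∑ v ∈ S, a v * B v := by
  obtain ⟨a1, a2, ha, p1, p2, m1, m2⟩ := h
  set t1 : ℝ := a1 x / k x with ht1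
  set t2 : ℝ := a2 y / k y with ht2
  have t1n : 0 ≤ t1 := div_nonneg (p1 x) hkx.le
  have t2n : 0 ≤ t2 := div_nonneg (p2 y) hky.le
  have u1 : ∀ v, x ≤ v → a1 v ≤ t1 * k v := fun v hv => by
    rw [ht1, div_mul_eq_mul_div, le_div_iff₀ hkx]
    exact m1 x v hv
  have u2 : ∀ v, v ≤ y → a2 v ≤ t2 * k v := fun v hv => by
    rw [ht2, div_mul_eq_mul_div, le_div_iff₀ hky]
    exact m2 v y hv
  have l1 : ∀ v, v ≤ x → t1 * k v ≤ a1 v := fun v hv => by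
    rw [ht1, div_mul_eq_mul_div, div_le_iff₀ hkx]
    exact m1 v x hv
  have l2 : ∀ v, y ≤ v → t2 * k v ≤ a2 v := fun v hv => by
    rw [ht2, div_mul_eq_mul_div, div_le_iff₀ hky]
    exact m2 y v hv
  have hkA : 0 ≤ ∑ v ∈ W, k v * A v := sum_nonneg fun v hv => mul_nonneg (hk v) (hA v hv)
  have e1 : ∑ v ∈ W, a v * A v ≤ (t1 + t2) * ∑ v ∈ W, k v * A v := by
    rw [mul_sum]
    refine sum_le_sum fun v hv => ?_
    have h3 := mul_le_mul_of_nonneg_right (add_le_add (u1 v (hW v hv).1) (u2 v (hW v hv).2)) (hA v hv)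
    rw [ha v]
    calc (a1 v + a2 v) * A v ≤ (t1 * k v + t2 * k v) * A v := h3
      _ = _ := by ring
  have e3 : ∑ v ∈ S, a v * B v = (∑ v ∈ S, a1 v * B v) + ∑ v ∈ S, a2 v * B v := by
    rw [← sum_add_distrib]; exact sum_congr rfl fun v _ => by rw [ha v]; ring
  have f1 : t1 * (q * ∑ v ∈ S, k v * B v) ≤ ∑ v ∈ S, a1 v * B v := by
    calc t1 * (q * ∑ v ∈ S, k v * B v) ≤ t1 * ∑ v ∈ S.filter (fun v => v ≤ x), k v * B v :=
          mul_le_mul_of_nonneg_left h1 t1n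
      _ ≤ ∑ v ∈ S.filter (fun v => v ≤ x), a1 v * B v := by
          rw [mul_sum]
          refine sum_le_sum fun v hv => ?_
          have := mul_le_mul_of_nonneg_right (l1 v (mem_filter.1 hv).2) (hB v)
          calc t1 * (k v * B v) = (t1 * k v) * B v := by ring
            _ ≤ _ := this
      _ ≤ _ := sum_le_sum_of_subset_of_nonneg (filter_subset _ _) fun v _ _ => mul_nonneg (p1 v) (hB v)
  have f2 : t2 * (q * ∑ v ∈ S, k v * B v) ≤ ∑ v ∈ S, a2 v * B v := by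
    calc t2 * (q * ∑ v ∈ S, k v * B v) ≤ t2 * ∑ v ∈ S.filter (fun v => y ≤ v), k v * B v :=
          mul_le_mul_of_nonneg_left h2 t2n
      _ ≤ ∑ v ∈ S.filter (fun v => y ≤ v), a2 v * B v := by
          rw [mul_sum]
          refine sum_le_sum fun v hv => ?_
          have := mul_le_mul_of_nonneg_right (l2 v (mem_filter.1 hv).2) (hB v)
          calc t2 * (k v * B v) = (t2 * k v) * B v := by ring
            _ ≤ _ := this
      _ ≤ _ := sum_le_sum_of_subset_of_nonneg (filter_subset _ _) fun v _ _ => mul_nonneg (p2 v) (hB v)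
  by_cases hq : 0 ≤ q
  · have hZ : 0 ≤ q * ∑ v ∈ S, k v * B v := mul_nonneg hq (sum_nonneg fun v _ => mul_nonneg (hk v) (hB v))
    calc q * ((∑ v ∈ W, a v * A v) * ∑ v ∈ S, k v * B v) = (∑ v ∈ W, a v * A v) * (q * ∑ v ∈ S, k v * B v) := by ring
      _ ≤ ((t1 + t2) * ∑ v ∈ W, k v * A v) * (q * ∑ v ∈ S, k v * B v) := mul_le_mul_of_nonneg_right e1 hZ
      _ = (∑ v ∈ W, k v * A v) * (t1 * (q * ∑ v ∈ S, k v * B v) + t2 * (q * ∑ v ∈ S, k v * B v)) := by ring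
      _ ≤ (∑ v ∈ W, k v * A v) * ∑ v ∈ S, a v * B v := by
          rw [e3]
          exact mul_le_mul_of_nonneg_left (add_le_add f1 f2) hkA
  · have ha0 : ∀ v, 0 ≤ a v := fun v => by rw [ha v]; exact add_nonneg (p1 v) (p2 v)
    have h0 : 0 ≤ (∑ v ∈ W, a v * A v) * ∑ v ∈ S, k v * B v :=
      mul_nonneg (sum_nonneg fun v hv => mul_nonneg (ha0 v) (hA v hv)) (sum_nonneg fun v _ => mul_nonneg (hk v) (hB v))
    have h5 : 0 ≤ (∑ v ∈ W, k v * A v) * ∑ v ∈ S, a v * B v :=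
      mul_nonneg hkA (sum_nonneg fun v _ => mul_nonneg (ha0 v) (hB v))
    exact (mul_nonpos_of_nonpos_of_nonneg (not_le.1 hq).le h0).trans h5

/-- **THE MOUTH BEHIND A PINCH OF THE WINDOW.** `J` = kernel of the rows of the pinch, `Y0` = window of its first row, `X1` = of its last
row; `CR J ≤ 1 + e` between the corners; `A` = masses through the tube (any mouth `W ⊆ X1`), `B` = old masses; no condition at all on the
profiles `a`, `k` at the first row. -/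
theorem gate_pinch {J : ι → κ → ℝ} {Yv : Set ι} {Xv : Set κ} (h : TP J Yv Xv) (Y0 : Finset ι) (hY0 : ∀ y ∈ Y0, y ∈ Yv)
    {a k : ι → ℝ} (ha : ∀ y ∈ Y0, 0 ≤ a y) (hk : ∀ y ∈ Y0, 0 ≤ k y) {ya yb : ι} {za zb : κ} (hya : ya ∈ Yv)
    (hyb : yb ∈ Yv) (hza : za ∈ Xv) (hzb : zb ∈ Xv) (hyab : ya ≤ yb) (hw : ∀ y ∈ Y0, ya ≤ y ∧ y ≤ yb)
    (X1 W : Finset κ) (hX1 : ∀ v ∈ X1, v ∈ Xv ∧ za ≤ v ∧ v ≤ zb) (hWX : W ⊆ X1) {e : ℝ}
    (hc : CR J ya yb za zb ≤ 1 + e) {A B : κ → ℝ} (hA : ∀ v ∈ W, 0 ≤ A v) (hB : ∀ v ∈ X1, 0 ≤ B v) :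
    (∑ y ∈ Y0, a y * ∑ v ∈ W, J y v * A v) * (∑ y ∈ Y0, k y * ∑ v ∈ X1, J y v * B v) ≤
      (1 + e) * ((∑ y ∈ Y0, k y * ∑ v ∈ W, J y v * A v) * ∑ y ∈ Y0, a y * ∑ v ∈ X1, J y v * B v) := by
  have hf := flat_of_CR h Y0 hY0 ha hk hya hyb hza hzb hyab hw X1 hX1 hc
  have sw : ∀ (u : ι → ℝ) (X : Finset κ) (D : κ → ℝ), ∑ y ∈ Y0, u y * ∑ v ∈ X, J y v * D v =
      ∑ v ∈ X, (∑ y ∈ Y0, u y * J y v) * D v := by
    intro u X D
    simp only [mul_sum, sum_mul]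
    rw [sum_comm]
    exact sum_congr rfl fun v _ => sum_congr rfl fun y _ => by ring
  rw [sw, sw, sw, sw, sum_mul_sum, sum_mul_sum, mul_sum]
  refine sum_le_sum fun v hv => ?_
  rw [mul_sum]
  refine sum_le_sum fun v' hv' => ?_
  have h1 := hf v (hWX hv) v' hv'
  have h2 := mul_nonneg (hA v hv) (hB v' hv')
  calc (∑ y ∈ Y0, a y * J y v) * A v * ((∑ y ∈ Y0, k y * J y v') * B v')
      = ((∑ y ∈ Y0, a y * J y v) * ∑ y ∈ Y0, k y * J y v') * (A v * B v') := by ring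
    _ ≤ ((1 + e) * ((∑ y ∈ Y0, a y * J y v') * ∑ y ∈ Y0, k y * J y v)) * (A v * B v') :=
        mul_le_mul_of_nonneg_right h1 h2
    _ = _ := by ring

/-- The gain at one site of the window: `J` the kernel of the pinch, `F` the old mass behind the tube. -/
theorem gain_pt {J : κ → ℝ} {X1 W : Finset κ} {A B : κ → ℝ} {v : κ} (hv : v ∈ W) (hJ0 : ∀ v ∈ X1, 0 ≤ J v)
    (hJW : ∀ v ∈ W, 0 ≤ J v) (hA : ∀ v ∈ W, 0 ≤ A v) {a₁ a₂ F Q U : ℝ} (ha : 0 ≤ a₁) (ha' : 0 ≤ a₂) (hF : 0 ≤ F)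
    (hQ : 0 < Q) (hU : 0 < U) (h1 : a₁ ≤ J v) (h2 : a₂ * F ≤ A v) (hB : ∀ v ∈ X1, B v ≤ Q * F) (h3 : ∑ v ∈ X1, J v ≤ U) :
    a₁ * a₂ / (U * Q) * ∑ v ∈ X1, J v * B v ≤ ∑ v ∈ W, J v * A v := by
  have b1 : ∑ v ∈ X1, J v * B v ≤ U * (Q * F) := by
    calc ∑ v ∈ X1, J v * B v ≤ ∑ v ∈ X1, J v * (Q * F) := sum_le_sum fun v hv => mul_le_mul_of_nonneg_left (hB v hv) (hJ0 v hv)
      _ = (∑ v ∈ X1, J v) * (Q * F) := by rw [sum_mul]
      _ ≤ _ := mul_le_mul_of_nonneg_right h3 (mul_nonneg hQ.le hF)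
  have b2 : a₁ * (a₂ * F) ≤ ∑ v ∈ W, J v * A v := by
    calc a₁ * (a₂ * F) ≤ J v * A v := mul_le_mul h1 h2 (mul_nonneg ha' hF) (ha.trans h1)
      _ ≤ _ := single_le_sum (f := fun v => J v * A v) (fun v hv => mul_nonneg (hJW v hv) (hA v hv)) hv
  calc a₁ * a₂ / (U * Q) * ∑ v ∈ X1, J v * B v ≤ a₁ * a₂ / (U * Q) * (U * (Q * F)) :=
        mul_le_mul_of_nonneg_left b1 (by positivity)
    _ = a₁ * (a₂ * F) := by field_simp
    _ ≤ _ := b2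

/-- **COMPARISON, PINCH FORM, ONE GROUP.** `S` = all sites of the first row of the pinch, `Y0` = the window there, `X1` = the window in its
last row, `W ⊆ X1` the mouth of the tube; `M`, `M'` = old and new futures of the first row; `B` = old futures of the last row, `A` = masses
through the tube. `D` : the contact stays in the window. -/
theorem group_pinch {J : ι → κ → ℝ} {Yv : Set ι} {Xv : Set κ} (h : TP J Yv Xv) {S Y0 : Finset ι} (hYS : Y0 ⊆ S)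
    (hY0 : ∀ y ∈ Y0, y ∈ Yv) {a k : ι → ℝ} (ha : ∀ y ∈ S, 0 ≤ a y) (hk : ∀ y ∈ S, 0 ≤ k y) {ya yb : ι} {za zb : κ}
    (hya : ya ∈ Yv) (hyb : yb ∈ Yv) (hza : za ∈ Xv) (hzb : zb ∈ Xv) (hyab : ya ≤ yb) (hw : ∀ y ∈ Y0, ya ≤ y ∧ y ≤ yb)
    {X1 W : Finset κ} (hX1 : ∀ v ∈ X1, v ∈ Xv ∧ za ≤ v ∧ v ≤ zb) (hWX : W ⊆ X1) {e : ℝ} (he : 0 ≤ e)
    (hc : CR J ya yb za zb ≤ 1 + e) (hJ : ∀ y ∈ Y0, ∀ v ∈ X1, 0 ≤ J y v) {A B : κ → ℝ} (hA : ∀ v ∈ W, 0 ≤ A v)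
    (hB : ∀ v ∈ X1, 0 ≤ B v) {M M' : ι → ℝ} (hM : ∀ y ∈ S, 0 ≤ M y) (hM' : ∀ y ∈ S, 0 ≤ M' y)
    (old : ∀ y ∈ Y0, ∑ v ∈ X1, J y v * B v ≤ M y) (new : ∀ y ∈ Y0, ∑ v ∈ W, J y v * A v ≤ M' y) {Y D lam : ℝ}
    (hY : 0 ≤ Y) (hD : 0 ≤ D) (hlam : 0 < lam)
    (leak : ∀ y ∈ S, M' y ≤ (if y ∈ Y0 then ∑ v ∈ W, J y v * A v else 0) + Y * M y)
    (stay : ∑ y ∈ S, k y * M y ≤ D * ∑ y ∈ Y0, k y * ∑ v ∈ X1, J y v * B v)
    (gain : lam * ∑ y ∈ S, k y * M y ≤ ∑ y ∈ Y0, k y * ∑ v ∈ W, J y v * A v) :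
    (∑ y ∈ S, a y * M' y) * (∑ y ∈ S, k y * M y) ≤
      (D * (1 + e) + Y / lam) * ((∑ y ∈ S, k y * M' y) * ∑ y ∈ S, a y * M y) := by
  have hH : ∀ y ∈ Y0, 0 ≤ ∑ v ∈ W, J y v * A v := fun y hy =>
    sum_nonneg fun v hv => mul_nonneg (hJ y hy v (hWX hv)) (hA v hv)
  refine group (W := Y0) (H := fun y => ∑ v ∈ W, J y v * A v) hYS ha hk hM hM' hY (by positivity) hlam leak new gain ?_
  have g := gate_pinch h Y0 hY0 (fun y hy => ha y (hYS hy)) (fun y hy => hk y (hYS hy)) hya hyb hza hzb hyab hw X1 W hX1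
    hWX hc hA hB
  have n1 : 0 ≤ ∑ y ∈ Y0, a y * ∑ v ∈ W, J y v * A v := sum_nonneg fun y hy => mul_nonneg (ha y (hYS hy)) (hH y hy)
  have n2 : 0 ≤ ∑ y ∈ Y0, k y * ∑ v ∈ W, J y v * A v := sum_nonneg fun y hy => mul_nonneg (hk y (hYS hy)) (hH y hy)
  have n3 : ∑ y ∈ Y0, a y * ∑ v ∈ X1, J y v * B v ≤ ∑ y ∈ S, a y * M y :=
    (sum_le_sum fun y hy => mul_le_mul_of_nonneg_left (old y hy) (ha y (hYS hy))).trans
      (sum_le_sum_of_subset_of_nonneg hYS fun y hy _ => mul_nonneg (ha y hy) (hM y hy))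
  calc (∑ y ∈ Y0, a y * ∑ v ∈ W, J y v * A v) * (∑ y ∈ S, k y * M y)
      ≤ (∑ y ∈ Y0, a y * ∑ v ∈ W, J y v * A v) * (D * ∑ y ∈ Y0, k y * ∑ v ∈ X1, J y v * B v) :=
        mul_le_mul_of_nonneg_left stay n1
    _ = D * ((∑ y ∈ Y0, a y * ∑ v ∈ W, J y v * A v) * ∑ y ∈ Y0, k y * ∑ v ∈ X1, J y v * B v) := by ring
    _ ≤ D * ((1 + e) * ((∑ y ∈ Y0, k y * ∑ v ∈ W, J y v * A v) * ∑ y ∈ Y0, a y * ∑ v ∈ X1, J y v * B v)) :=
        mul_le_mul_of_nonneg_left g hD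
    _ ≤ D * ((1 + e) * ((∑ y ∈ Y0, k y * ∑ v ∈ W, J y v * A v) * ∑ y ∈ S, a y * M y)) := by gcongr
    _ = _ := by ring

/-- **COMPARISON, QUANTILE FORM, ONE GROUP** (the mouth lies between the two `q`-quantiles of the exit law of the contact). -/
theorem group_ends {S W : Finset κ} (hW : W ⊆ S) {a k H M M' : κ → ℝ} (h : Spl a k) (hk : ∀ v, 0 ≤ k v)
    (hM : ∀ v, 0 ≤ M v) (hM' : ∀ v ∈ S, 0 ≤ M' v) (hH : ∀ v ∈ W, 0 ≤ H v) {Y q lam : ℝ} (hY : 0 ≤ Y) (hq : 0 < q)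
    (hlam : 0 < lam) (leak : ∀ v ∈ S, M' v ≤ (if v ∈ W then H v else 0) + Y * M v) (sub : ∀ v ∈ W, H v ≤ M' v)
    (gain : lam * ∑ v ∈ S, k v * M v ≤ ∑ v ∈ W, k v * H v) {x y : κ} (hxy : ∀ v ∈ W, x ≤ v ∧ v ≤ y) (hkx : 0 < k x)
    (hky : 0 < k y) (h1 : q * ∑ v ∈ S, k v * M v ≤ ∑ v ∈ S.filter (fun v => v ≤ x), k v * M v)
    (h2 : q * ∑ v ∈ S, k v * M v ≤ ∑ v ∈ S.filter (fun v => y ≤ v), k v * M v) :
    (∑ v ∈ S, a v * M' v) * (∑ v ∈ S, k v * M v) ≤ (1 / q + Y / lam) * ((∑ v ∈ S, k v * M' v) * ∑ v ∈ S, a v * M v) := by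
  have ha : ∀ v, 0 ≤ a v := by
    obtain ⟨a1, a2, ha, p1, p2, -, -⟩ := h
    exact fun v => by rw [ha v]; exact add_nonneg (p1 v) (p2 v)
  refine group hW (fun v _ => ha v) (fun v _ => hk v) (fun v _ => hM v) hM' hY (by positivity) hlam leak sub gain ?_
  have g := gate_ends h S W (A := H) hM hH hk hxy hkx hky h1 h2
  rw [one_div, ← div_eq_inv_mul, le_div_iff₀ hq]
  linarith

end

/-! ### The integrated form -/

open MeasureTheory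

/-- **The field `cmp`** of the skeletons: `L` has probability at least `p` and loses at most the factor `D`. -/
theorem avg {Ω : Type*} [MeasurableSpace Ω] {P : Measure Ω} {R : Ω → Ω → Ω} {L : Set Ω} {w : Ω → ENNReal}
    {ω : Ω} (mL : MeasurableSet {η | R η ω ∈ L}) {c p D : ENNReal} (hp : p ≤ P {η | R η ω ∈ L}) (hcD : c * D ≤ p)
    (h : ∀ η, R η ω ∈ L → w ω ≤ D * w (R η ω)) (hD : D ≠ 0) (hD' : D ≠ ⊤) :
    c * w ω ≤ ∫⁻ η, L.indicator w (R η ω) ∂P := by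
  have h1 : w ω * P {η | R η ω ∈ L} ≤ D * ∫⁻ η, L.indicator w (R η ω) ∂P := by
    rw [← lintegral_indicator_const mL (w ω), ← lintegral_const_mul' _ _ hD']
    refine lintegral_mono fun η => ?_
    by_cases hη : R η ω ∈ L
    · rw [Set.indicator_of_mem hη, Set.indicator_of_mem (show η ∈ {η | R η ω ∈ L} from hη)]
      exact h η hη
    · rw [Set.indicator_of_notMem (show η ∉ {η | R η ω ∈ L} from hη)]
      exact zero_le
  refine (ENNReal.mul_le_mul_iff_right hD hD').1 ?_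
  calc D * (c * w ω) = (c * D) * w ω := by ring
    _ ≤ P {η | R η ω ∈ L} * w ω := by gcongr; exact hcD.trans hp
    _ = w ω * P {η | R η ω ∈ L} := mul_comm _ _
    _ ≤ _ := h1

end Pool.Agent.W_7d29a1_C1.Cmp71
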