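import Pool.Agent.W_7d29a1_C1.HitM49

/-!
Both halves (MP_7d29a1_pr), attractor route: MOVE THE CONTACT, AVERAGED FORM (helper18 79857, helper66 78737): the comparison
typical / lucky (`cmpA`) and the comparison of one cell (`M3A`) are only asked in the average over the content of the window,
everything outside of it being frozen. (helper49, after helper87 Late87)
-/

set_option autoImplicit false

namespace Pool.Agent.W_7d29a1_C1.Lt87

open MeasureTheory Finset
open scoped ENNReal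

variable {Ω : Type*} [MeasurableSpace Ω] {P : Measure Ω}

/-- One slab, averaged comparison: `f` before, `g` after the slab has been freed. -/
theorem Slab.stepA [SFinite P] {R : Ω → Ω → Ω} {T L : Set Ω} (h : Slab P R T L) {c : ℝ≥0∞} (hc : c ≠ ⊤)
    {w f g : Ω → ℝ≥0∞} (mw : Measurable w) (mf : Measurable f) (mg : Measurable g)
    (cmp : ∀ ω, c * ∫⁻ ξ, T.indicator w (R ξ ω) ∂P ≤ ∫⁻ η, L.indicator w (R η ω) ∂P)
    (hfg : ∀ ω, f ω ≤ g ω) (hfg' : ∀ ω ∈ T, ∀ η, R η ω ∈ L → f ω + f (R η ω) ≤ g (R η ω)) :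
    (1 + c) * ∫⁻ ω, w ω * (f ω * fac T c ω) ∂P ≤ ∫⁻ ω, w ω * g ω ∂P := by
  classical
  have hone : (1 + c) * (1 + c)⁻¹ = 1 :=
    ENNReal.mul_inv_cancel (by positivity) (by finiteness)
  have mwf : Measurable fun ω => w ω * f ω := mw.mul mf
  have mwg : Measurable fun ω => w ω * g ω := mw.mul mg
  have e0 : ∀ φ : Ω → ℝ≥0∞, ∫⁻ ω, φ ω ∂P =
      (∫⁻ ω in T, φ ω ∂P) + ((∫⁻ ω in L, φ ω ∂P) + ∫⁻ ω in Tᶜ \ L, φ ω ∂P) := by
    intro φ
    rw [← lintegral_add_compl φ h.mT, ← lintegral_inter_add_sdiff φ Tᶜ h.mL]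
    congr 3
    refine congrArg _ ?_
    ext ω
    exact ⟨fun h1 => h1.2, fun h1 => ⟨fun h2 => (Set.disjoint_left.1 h.disj) h2 h1, h1⟩⟩
  have m1 : Measurable fun ω => w ω * (f ω * fac T c ω) := mw.mul (mf.mul (measurable_fac h.mT c))
  have e1 : ∫⁻ ω in T, w ω * (f ω * fac T c ω) ∂P = ∫⁻ ω in T, w ω * f ω ∂P :=
    setLIntegral_congr_fun h.mT fun ω hω => by simp [fac, hω]
  have eo : ∀ A : Set Ω, MeasurableSet A → (∀ ω ∈ A, ω ∉ T) →
      (1 + c) * ∫⁻ ω in A, w ω * (f ω * fac T c ω) ∂P = ∫⁻ ω in A, w ω * f ω ∂P := by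
    intro A mA hA
    rw [← lintegral_const_mul _ m1]
    refine setLIntegral_congr_fun mA fun ω hω => ?_
    have h5 : fac T c ω = (1 + c)⁻¹ := by simp [fac, hA ω hω]
    calc (1 + c) * (w ω * (f ω * fac T c ω)) = ((1 + c) * (1 + c)⁻¹) * (w ω * f ω) := by rw [h5]; ring
      _ = _ := by rw [hone, one_mul]
  have e2 := eo L h.mL fun ω hω h2 => (Set.disjoint_left.1 h.disj) h2 hω
  have e3 := eo (Tᶜ \ L) (h.mT.compl.diff h.mL) fun ω hω => hω.1
  have e4 : c * (∫⁻ ω in T, w ω * f ω ∂P) + (∫⁻ ω in L, w ω * f ω ∂P) ≤ ∫⁻ ω in L, w ω * g ω ∂P := by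
    have hmR : ∀ ω, Measurable fun η => R η ω := fun ω =>
      h.mp.measurable.comp (measurable_id.prodMk measurable_const)
    have hmB : ∀ {B : Set Ω} {φ : Ω → ℝ≥0∞}, MeasurableSet B → Measurable φ →
        Measurable fun ω => ∫⁻ η, B.indicator φ (R η ω) ∂P := fun {B φ} mB mφ =>
      Measurable.lintegral_prod_left' (f := fun x : Ω × Ω => B.indicator φ (R x.1 x.2))
        ((mφ.indicator mB).comp h.mp.measurable)
    rw [← h.transport h.mL mwg, ← h.transport h.mL mwf, ← h.transport h.mT mwf,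
      ← lintegral_const_mul _ (hmB h.mT mwf), ← lintegral_add_left ((hmB h.mT mwf).const_mul c)]
    refine lintegral_mono fun ω => ?_
    have hmT : Measurable fun η => T.indicator w (R η ω) := (mw.indicator h.mT).comp (hmR ω)
    have hmL : Measurable fun η => L.indicator w (R η ω) := (mw.indicator h.mL).comp (hmR ω)
    -- the largest value of `f` at the typical contents
    set F : ℝ≥0∞ := ⨆ ξ, T.indicator f (R ξ ω) with hF
    have h1 : ∫⁻ ξ, T.indicator (fun ω => w ω * f ω) (R ξ ω) ∂P ≤ F * ∫⁻ ξ, T.indicator w (R ξ ω) ∂P := by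
      rw [← lintegral_const_mul _ hmT]
      refine lintegral_mono fun ξ => ?_
      by_cases hξ : R ξ ω ∈ T
      · rw [Set.indicator_of_mem hξ, Set.indicator_of_mem hξ, mul_comm]
        refine mul_le_mul' ?_ le_rfl
        have h2 := le_iSup (fun ξ => T.indicator f (R ξ ω)) ξ
        rwa [Set.indicator_of_mem hξ] at h2
      · rw [Set.indicator_of_notMem hξ]; exact zero_le
    have h2 : ∀ η, R η ω ∈ L → F + f (R η ω) ≤ g (R η ω) := by
      intro η hη
      have : Nonempty Ω := ⟨ω⟩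
      rw [hF, ENNReal.iSup_add]
      refine iSup_le fun ξ => ?_
      by_cases hξ : R ξ ω ∈ T
      · rw [Set.indicator_of_mem hξ]
        have h3 := hfg' (R ξ ω) hξ η (by rw [h.rr]; exact hη)
        rwa [h.rr] at h3
      · rw [Set.indicator_of_notMem hξ, zero_add]; exact hfg _
    calc c * (∫⁻ ξ, T.indicator (fun ω => w ω * f ω) (R ξ ω) ∂P) +
          ∫⁻ η, L.indicator (fun ω => w ω * f ω) (R η ω) ∂P
        ≤ c * (F * ∫⁻ ξ, T.indicator w (R ξ ω) ∂P) + ∫⁻ η, L.indicator (fun ω => w ω * f ω) (R η ω) ∂P := by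
          gcongr
      _ = F * (c * ∫⁻ ξ, T.indicator w (R ξ ω) ∂P) + ∫⁻ η, L.indicator (fun ω => w ω * f ω) (R η ω) ∂P := by
          ring_nf
      _ ≤ F * (∫⁻ η, L.indicator w (R η ω) ∂P) + ∫⁻ η, L.indicator (fun ω => w ω * f ω) (R η ω) ∂P := by
          gcongr; exact cmp ω
      _ = ∫⁻ η, (F * L.indicator w (R η ω) + L.indicator (fun ω => w ω * f ω) (R η ω)) ∂P := by
          rw [lintegral_add_left (hmL.const_mul _), lintegral_const_mul _ hmL]
      _ ≤ _ := by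
          refine lintegral_mono fun η => ?_
          by_cases hη : R η ω ∈ L
          · rw [Set.indicator_of_mem hη, Set.indicator_of_mem hη, Set.indicator_of_mem hη]
            calc F * w (R η ω) + w (R η ω) * f (R η ω) = w (R η ω) * (F + f (R η ω)) := by ring
              _ ≤ _ := by gcongr; exact h2 η hη
          · rw [Set.indicator_of_notMem hη, Set.indicator_of_notMem hη, mul_zero, zero_add]
            exact zero_le
  rw [e0 fun ω => w ω * (f ω * fac T c ω), e0 fun ω => w ω * g ω, mul_add, mul_add, e1, e2, e3, add_mul, one_mul]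
  calc (∫⁻ ω in T, w ω * f ω ∂P) + c * (∫⁻ ω in T, w ω * f ω ∂P) +
        ((∫⁻ ω in L, w ω * f ω ∂P) + ∫⁻ ω in Tᶜ \ L, w ω * f ω ∂P)
      = (∫⁻ ω in T, w ω * f ω ∂P) + ((c * (∫⁻ ω in T, w ω * f ω ∂P) + ∫⁻ ω in L, w ω * f ω ∂P) +
          ∫⁻ ω in Tᶜ \ L, w ω * f ω ∂P) := by ring
    _ ≤ (∫⁻ ω in T, w ω * g ω ∂P) + ((∫⁻ ω in L, w ω * g ω ∂P) + ∫⁻ ω in Tᶜ \ L, w ω * g ω ∂P) := by
        gcongr <;> exact hfg _

/-- Pointwise comparison implies averaged comparison. -/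
theorem Slab.cmpA [IsProbabilityMeasure P] {R : Ω → Ω → Ω} {T L : Set Ω} (h : Slab P R T L) {c : ℝ≥0∞}
    {w : Ω → ℝ≥0∞} (cmp : ∀ ω ∈ T, c * w ω ≤ ∫⁻ η, L.indicator w (R η ω) ∂P) (ω : Ω) :
    c * ∫⁻ ξ, T.indicator w (R ξ ω) ∂P ≤ ∫⁻ η, L.indicator w (R η ω) ∂P := by
  rcases eq_or_ne c 0 with h0 | h0
  · rw [h0, zero_mul]; exact zero_le
  rcases eq_or_ne c ⊤ with h1 | h1
  · by_cases hz : ∀ ξ, T.indicator w (R ξ ω) = 0
    · simp [hz]
    · push Not at hz
      obtain ⟨ξ, hξ⟩ := hz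
      have hT : R ξ ω ∈ T := by
        by_contra h2; exact hξ (Set.indicator_of_notMem h2 _)
      rw [Set.indicator_of_mem hT] at hξ
      have h3 := cmp (R ξ ω) hT
      simp only [h.rr] at h3
      rw [h1, ENNReal.top_mul hξ] at h3
      exact le_top.trans h3
  · have h2 : ∀ ξ, T.indicator w (R ξ ω) ≤ c⁻¹ * ∫⁻ η, L.indicator w (R η ω) ∂P := by
      intro ξ
      by_cases hT : R ξ ω ∈ T
      · rw [Set.indicator_of_mem hT]
        have h3 := cmp (R ξ ω) hT
        simp only [h.rr] at h3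
        calc w (R ξ ω) = c⁻¹ * (c * w (R ξ ω)) := by rw [← mul_assoc, ENNReal.inv_mul_cancel h0 h1, one_mul]
          _ ≤ _ := mul_le_mul' le_rfl h3
      · rw [Set.indicator_of_notMem hT]; exact zero_le
    calc c * ∫⁻ ξ, T.indicator w (R ξ ω) ∂P ≤ c * ∫⁻ _, c⁻¹ * ∫⁻ η, L.indicator w (R η ω) ∂P ∂P := by
          gcongr with ξ; exact h2 ξ
      _ = (c * c⁻¹) * ∫⁻ η, L.indicator w (R η ω) ∂P := by
          rw [lintegral_const, measure_univ, mul_one, mul_assoc]
      _ = _ := by rw [ENNReal.mul_inv_cancel h0 h1, one_mul]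

/-- **THE PRICE OF AN ALTERNATIVE**, directed form, averaged comparison. -/
theorem HitG.lateA [SFinite P] {R : ℕ → Ω → Ω → Ω} {S S' : Finset ℕ} {T L : ℕ → Set Ω} {H : Set Ω}
    (d : HitG P R T L S S' H) {c : ℝ≥0∞} (hc : c ≠ ⊤) {G : Ω → ℝ≥0∞} (mG : Measurable G)
    (cmp : ∀ u ∈ S, ∀ ω, c * ∫⁻ ξ, (T u).indicator G (R u ξ ω) ∂P ≤ ∫⁻ η, (L u).indicator G (R u η ω) ∂P)
    {h : Finset ℕ → Ω → ℝ≥0∞} (mh : ∀ A, Measurable (h A)) (mono : ∀ u ∈ S, ∀ A ω, h A ω ≤ h (insert u A) ω)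
    {A₀ : Finset ℕ} (inv : ∀ u ∈ S, ∀ A, u ∉ A → insert u A ⊆ A₀ ∪ S → ∀ ω ∈ T u, ∀ η, R u η ω ∈ L u →
      h A ω ≤ h (insert u A) (R u η ω)) {B₀ : Set Ω} (mB₀ : MeasurableSet B₀)
    (hB₀ : ∀ u ∈ S, ∀ ω ∈ B₀, ∃ ω' ∈ H, Reach R (fun v => T v ∪ L v) S' u ω ω') (hAS : Disjoint A₀ S) :
    (1 + c) ^ S.card * ∫⁻ ω, G ω * (h A₀ ω * B₀.indicator 1 ω * ∏ u ∈ S, fac (T u) c ω) ∂P ≤
      ∫⁻ ω, G ω * h (A₀ ∪ S) ω ∂P := by
  classical
  -- general statement: the hit set after some slabs have been refilled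
  suffices key : ∀ (k : ℕ) (S₁ : Finset ℕ), S₁.card = k → S₁ ⊆ S → ∀ (B : Set Ω), MeasurableSet B → ∀ A : Finset ℕ,
      Disjoint A S₁ → A ∪ S₁ ⊆ A₀ ∪ S →
      (∀ u ∈ S₁, ∀ ω ∈ B, ∃ ω' ∈ H, Reach R (fun v => T v ∪ L v) S' u ω ω') →
      (1 + c) ^ k * ∫⁻ ω, G ω * (h A ω * B.indicator 1 ω * ∏ u ∈ S₁, fac (T u) c ω) ∂P ≤
        ∫⁻ ω, G ω * h (A ∪ S₁) ω ∂P by
    exact key S.card S rfl subset_rfl B₀ mB₀ A₀ hAS subset_rfl hB₀
  intro k
  induction k with
  | zero =>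
    intro S₁ hcard hsub B mB A hdis hAu hB
    have e : S₁ = ∅ := card_eq_zero.1 hcard
    subst e
    rw [pow_zero, one_mul, union_empty]
    refine lintegral_mono fun ω => ?_
    rw [prod_empty, mul_one]
    gcongr
    calc h A ω * B.indicator 1 ω ≤ h A ω * 1 := by
          gcongr
          exact Set.indicator_le_self' (fun _ _ => zero_le) ω
      _ = _ := mul_one _
  | succ k ih =>
    intro S₁ hcard hsub B mB A hdis hAu hB
    have hne : S₁.Nonempty := card_pos.1 (by omega)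
    set u := S₁.min' hne with hu
    have huS₁ : u ∈ S₁ := min'_mem _ _
    have huS : u ∈ S := hsub huS₁
    have huA : u ∉ A := fun h => disjoint_left.1 hdis h huS₁
    have hAu' : insert u A ⊆ A₀ ∪ S := insert_subset (hAu (mem_union_right _ huS₁)) (subset_union_left.trans hAu)
    set S₂ := S₁.erase u with hS₂
    have hins : insert u S₂ = S₁ := insert_erase huS₁
    have hnot : u ∉ S₂ := notMem_erase _ _
    have hlt : ∀ v ∈ S₂, u < v := fun v hv => by
      rw [hS₂, mem_erase] at hv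
      exact lt_of_le_of_ne (min'_le _ _ hv.2) (Ne.symm hv.1)
    have hcard' : S₂.card = k := by
      rw [hS₂, card_erase_of_mem huS₁, hcard]; rfl
    have hsl := d.slab u (d.sub huS)
    set N : Set Ω := T u ∪ L u with hN
    have mN : MeasurableSet N := hsl.mT.union hsl.mL
    set B' : Set Ω := ext P (R u) N B with hB'
    have mB' : MeasurableSet B' := measurableSet_ext hsl.mp mN mB
    set Z : Set Ω := exc P (R u) N B with hZ
    have mZ : MeasurableSet Z := measurableSet_exc hsl.mp mN mB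
    have hZ0 : P Z = 0 := exc_null hsl.mp hsl.rr mN mB
    -- the hit set is still reached
    have hBB : ∀ v ∈ S₂, ∀ ω ∈ B', ∃ ω' ∈ H, Reach R (fun v => T v ∪ L v) S' v ω ω' := by
      intro v hv ω hω
      have hv' := hlt v hv
      rcases ext_hit hω with h1 | ⟨h1, η, h2⟩
      · obtain ⟨ω', h3, h4⟩ := hB u huS₁ ω h1
        exact ⟨ω', h3, h4.mono hv'.le⟩
      · obtain ⟨ω', h3, h4⟩ := hB u huS₁ _ h2.2
        exact ⟨ω', h3, Reach.step η hv' (d.sub huS) h1 h2.1 h4⟩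
    -- a typical and a lucky content do not both hit
    have hex : ∀ ω ∈ T u, ω ∈ B → ∀ η, R u η ω ∈ L u → R u η ω ∈ B → False := by
      intro ω h1 h2 η h3 h4
      obtain ⟨ω₁, h5, h6⟩ := hB u huS₁ ω h2
      obtain ⟨ω₂, h7, h8⟩ := hB u huS₁ _ h4
      exact d.excl u huS ω h1 η h3 ω₁ h5 h6 ω₂ h7 h8
    have mprod : Measurable fun ω => ∏ v ∈ S₂, fac (T v) c ω :=
      Finset.measurable_prod _ fun v hv =>
        measurable_fac (d.slab v (d.sub (hsub (hins ▸ mem_insert_of_mem hv)))).mT c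
    have m1 : ∀ D : Set Ω, MeasurableSet D → Measurable (D.indicator (1 : Ω → ℝ≥0∞)) := fun D mD =>
      measurable_one.indicator mD
    -- one slab
    have h2 := hsl.stepA hc (w := G)
      (f := fun ω => h A ω * (B \ Z).indicator 1 ω * ∏ v ∈ S₂, fac (T v) c ω)
      (g := fun ω => h (insert u A) ω * B'.indicator 1 ω * ∏ v ∈ S₂, fac (T v) c ω) mG
      (((mh A).mul (m1 _ (mB.diff mZ))).mul mprod) (((mh _).mul (m1 _ mB')).mul mprod) (cmp u huS)
      (fun ω => by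
        gcongr
        · exact mono u huS A ω
        · exact fun x hx => sub_ext hx)
      (fun ω hω η hη => by
        have h3 : ∏ v ∈ S₂, fac (T v) c ω = ∏ v ∈ S₂, fac (T v) c (R u η ω) := by
          refine prod_congr rfl fun v hv => ?_
          have hvS : v ∈ S := hsub (hins ▸ mem_insert_of_mem hv)
          exact fac_congr c (d.stepT u (d.sub huS) v hvS (hlt v hv) ω (Or.inl hω) η (Or.inr hη))
        by_cases h5 : ω ∈ B \ Z
        · have h6 : R u η ω ∉ B \ Z := fun h7 => hex ω hω h5.1 η hη h7.1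
          have h8 : R u η ω ∈ B' := ext_step hsl.rr h5 (Or.inl hω) (Or.inr hη)
          rw [Set.indicator_of_mem h5, Set.indicator_of_notMem h6, Set.indicator_of_mem h8, h3]
          simp only [Pi.one_apply, mul_one, mul_zero, zero_mul, add_zero]
          gcongr
          exact inv u huS A huA hAu' ω hω η hη
        · rw [Set.indicator_of_notMem h5]
          simp only [mul_zero, zero_mul, zero_add]
          gcongr
          · exact mono u huS A _
          · exact fun x hx => sub_ext hx)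
    have hdis' : Disjoint (insert u A) S₂ := by
      rw [disjoint_insert_left]
      exact ⟨hnot, disjoint_of_subset_right (erase_subset _ _) hdis⟩
    have hAu2 : insert u A ∪ S₂ ⊆ A₀ ∪ S := by
      refine subset_trans ?_ hAu
      intro v hv
      rw [mem_union, mem_insert] at hv
      rw [mem_union]
      rcases hv with (h1 | h1) | h1
      · exact Or.inr (h1 ▸ huS₁)
      · exact Or.inl h1
      · exact Or.inr (hins ▸ mem_insert_of_mem h1)
    have h1 := ih S₂ hcard' (fun v hv => hsub (hins ▸ mem_insert_of_mem hv)) B' mB' (insert u A) hdis' hAu2 hBB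
    have e : insert u A ∪ S₂ = A ∪ S₁ := by
      rw [← hins]
      ext v
      simp only [mem_union, mem_insert]
      tauto
    rw [e] at h1
    have e2 : ∫⁻ ω, G ω * (h A ω * B.indicator 1 ω * ∏ v ∈ S₁, fac (T v) c ω) ∂P =
        ∫⁻ ω, G ω * ((h A ω * (B \ Z).indicator 1 ω * ∏ v ∈ S₂, fac (T v) c ω) * fac (T u) c ω) ∂P := by
      refine lintegral_congr_ae ?_
      have hZ1 : ∀ᵐ ω ∂P, ω ∉ Z := measure_eq_zero_iff_ae_notMem.1 hZ0
      filter_upwards [hZ1] with ω hω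
      have h3 : (B \ Z).indicator (1 : Ω → ℝ≥0∞) ω = B.indicator 1 ω := by
        by_cases h4 : ω ∈ B
        · rw [Set.indicator_of_mem h4, Set.indicator_of_mem (show ω ∈ B \ Z from ⟨h4, hω⟩)]
        · rw [Set.indicator_of_notMem h4, Set.indicator_of_notMem (fun h5 : ω ∈ B \ Z => h4 h5.1)]
      rw [h3, ← hins, prod_insert hnot]
      ring
    calc (1 + c) ^ (k + 1) * ∫⁻ ω, G ω * (h A ω * B.indicator 1 ω * ∏ v ∈ S₁, fac (T v) c ω) ∂P
        = (1 + c) ^ k * ((1 + c) *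
            ∫⁻ ω, G ω * ((h A ω * (B \ Z).indicator 1 ω * ∏ v ∈ S₂, fac (T v) c ω) * fac (T u) c ω) ∂P) := by
          rw [e2, pow_succ, mul_assoc]
      _ ≤ (1 + c) ^ k * ∫⁻ ω, G ω * (h (insert u A) ω * B'.indicator 1 ω * ∏ v ∈ S₂, fac (T v) c ω) ∂P := by
          gcongr
      _ ≤ _ := h1

end Pool.Agent.W_7d29a1_C1.Lt87
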