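import Pool.Agent.W_7d29a1_C1.CmpM71
import Pool.Agent.W_7d29a1_C1.StepA49
import Pool.Agent.W_7d29a1_C1.Seq71

/-!
MP_7d29a1_pr, attractor route, [C1] SEP, leaf S7: THE COMPARISON OF THE WEIGHT OF A CONTACT UNDER THE LUCK OF THE ROWS BEHIND A GATE,
over K91P, and its averaged form. (helper20)

`a` = the gate row; `w`, `w'` = old and new weights, equal on the rows `< a`. `Y0` = the mouth (sites of the row `a`), `tb y` = mass
through the lucky rows from the site `y` of the mouth.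
* `Gate` : the property of the gate (helper66): for every profile `m` and every site `v` of the mouth,
  `P_m (v) * P_c (everything) ≤ Cg * P_c (v)`; no condition on the rows `≥ a` besides the old masses;
* `LuckG` : equal rows, leak lemma, tube mass `≤` new mass;
* `pc_le_gate` : `pc w ≤ (Cg + Y / lam) ^ 2 * pc w'` for a contact of a row `< a` with `gain`;
* `gain_of_level` : the gain from the levels;
* `avg_gate` : measure theory; from `∫ T w ≤ C₁ ∫ T' w` over the contents of the window (`T'` = gate), the probability `c₁` of the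
  lucky rows behind the gate, and the comparison, the field `cmpA` of `Lt87.Slab.stepA`.
-/

set_option autoImplicit false

namespace Pool.Agent.W_7d29a1_C1.CmpG20

open Finset
open Pool.Agent.W_7d29a1_C1.K91 (Grp Box wt wt_pos)
open Pool.Agent.W_7d29a1_C1.K91P (fw bw bw_pos fw_nonneg fw_lo fw_hi fw_congr bw_congr dp dp_nonneg)
open Pool.Agent.W_7d29a1_C1.U16 (ker ker_nonneg ker_eq_zero ker_congr bw_ker)
open Pool.Agent.W_7d29a1_C1.Sp22 (Ms Zt Zt_row Zt_pos pc pc_nonneg)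
open Pool.Agent.W_7d29a1_C1.Cmp71 (bw_row bw_part pc_le_of_group)

noncomputable section

variable {w w' : ℕ → ℤ → ℝ} {p : ℕ → ℝ} {l r : ℤ → ℝ} {X lo hi : ℤ} {N : ℕ}

/-- **THE PROPERTY OF THE GATE** (row `a`, mouth `Y0`) for the contact `(k, q)`: the paths of every profile `m` through the site `v` of
the mouth are at most `Cg` times the paths of the contact through `v`, both as probabilities. -/
def Gate (w : ℕ → ℤ → ℝ) (p : ℕ → ℝ) (lo hi : ℤ) (N a : ℕ) (Y0 : Finset ℤ) (Cg : ℝ) (k : ℕ) (q : ℤ) : Prop :=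
  ∀ m : ℤ → ℝ, Ms m lo hi N → ∀ v ∈ Y0,
    fw w p m a v * bw w p (k + 1) (N - (k + 1)) q ≤ Cg * (Zt w p m lo hi N * ker w p (k + 1) (a - (k + 1)) q v)

/-- (gt) of helper66 / helper76: the paths of the contact inside the core have the mass `Z1`, `Zc ≤ D1 * Z1`. -/
theorem Gate.of_core (hw : ∀ k y, 0 < w k y) (hp : ∀ k, 0 < p k) {a : ℕ} {Y0 : Finset ℤ} {g Z1 D1 : ℝ} {k : ℕ} {q : ℤ}
    (hD1 : 0 ≤ D1) (hZ : bw w p (k + 1) (N - (k + 1)) q ≤ D1 * Z1)
    (gt : ∀ m : ℤ → ℝ, Ms m lo hi N → ∀ v ∈ Y0, fw w p m a v * Z1 ≤ g * (Zt w p m lo hi N * ker w p (k + 1) (a - (k + 1)) q v)) :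
    Gate w p lo hi N a Y0 (D1 * g) k q := by
  intro m hm v hv
  calc fw w p m a v * bw w p (k + 1) (N - (k + 1)) q ≤ fw w p m a v * (D1 * Z1) :=
        mul_le_mul_of_nonneg_left hZ (fw_nonneg hw hp hm.nn a v)
    _ = D1 * (fw w p m a v * Z1) := by ring
    _ ≤ D1 * (g * (Zt w p m lo hi N * ker w p (k + 1) (a - (k + 1)) q v)) := mul_le_mul_of_nonneg_left (gt m hm v hv) hD1
    _ = _ := by ring

/-- **LUCK BEHIND THE GATE.** -/
structure LuckG (w w' : ℕ → ℤ → ℝ) (p : ℕ → ℝ) (N a : ℕ) (lo hi : ℤ) (Y0 : Finset ℤ) (tb : ℤ → ℝ) (Y : ℝ) : Prop where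
  hw : ∀ k y, 0 < w k y
  hw' : ∀ k y, 0 < w' k y
  hp : ∀ k, 0 < p k
  haN : a ≤ N
  eqb : ∀ i, i < a → w i = w' i
  Y0_sub : Y0 ⊆ Icc lo hi
  Y0' : 0 ≤ Y
  /-- the leak lemma -/
  leak : ∀ y ∈ Icc lo hi, bw w' p a (N - a) y ≤ (if y ∈ Y0 then tb y else 0) + Y * bw w p a (N - a) y
  tb0 : ∀ y ∈ Y0, 0 ≤ tb y
  tb_le : ∀ y ∈ Y0, tb y ≤ bw w' p a (N - a) y

variable {a : ℕ} {Y0 : Finset ℤ} {tb : ℤ → ℝ} {Y lam Cg D : ℝ}

/-- The comparison, one group. -/
theorem LuckG.group (L : LuckG w w' p N a lo hi Y0 tb Y) (hlam : 0 < lam) (hCg : 0 ≤ Cg) {k : ℕ} (hk : k < a) {q : ℤ}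
    (hq : lo ≤ q) (hq' : q + ((a - (k + 1) : ℕ) : ℤ) ≤ hi) (hgate : Gate w p lo hi N a Y0 Cg k q)
    (gain : lam * bw w p (k + 1) (N - (k + 1)) q ≤ ∑ y ∈ Y0, ker w p (k + 1) (a - (k + 1)) q y * tb y) {m : ℤ → ℝ}
    (hm : Ms m lo hi N) :
    (∑ y ∈ Icc lo hi, fw w p m a y * bw w' p a (N - a) y) *
        (∑ y ∈ Icc lo hi, ker w p (k + 1) (a - (k + 1)) q y * bw w p a (N - a) y) ≤
      (Cg + Y / lam) * ((∑ y ∈ Icc lo hi, ker w p (k + 1) (a - (k + 1)) q y * bw w' p a (N - a) y) *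
        ∑ y ∈ Icc lo hi, fw w p m a y * bw w p a (N - a) y) := by
  classical
  have haN := L.haN
  have hY := L.Y0'
  have hc := bw_row (w := w) (p := p) (N := N) (k + 1) a hk haN hq hq'
  have hz := Zt_row (w := w) (p := p) hm haN
  have hk0 : ∀ y, 0 ≤ ker w p (k + 1) (a - (k + 1)) q y := fun y => ker_nonneg L.hw L.hp _ _ q y
  have hf0 : ∀ y, 0 ≤ fw w p m a y := fun y => fw_nonneg L.hw L.hp hm.nn a y
  have hB0 : ∀ y, 0 < bw w p a (N - a) y := fun y => bw_pos L.hw L.hp _ _ y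
  have hB0' : ∀ y, 0 < bw w' p a (N - a) y := fun y => bw_pos L.hw' L.hp _ _ y
  -- names
  obtain ⟨Zc, eZc⟩ : ∃ Z, Z = bw w p (k + 1) (N - (k + 1)) q := ⟨_, rfl⟩
  obtain ⟨Zm, eZm⟩ : ∃ Z, Z = Zt w p m lo hi N := ⟨_, rfl⟩
  obtain ⟨Zc', eZc'⟩ : ∃ Z, Z = ∑ y ∈ Icc lo hi, ker w p (k + 1) (a - (k + 1)) q y * bw w' p a (N - a) y := ⟨_, rfl⟩
  obtain ⟨Tc, eTc⟩ : ∃ T, T = ∑ y ∈ Y0, ker w p (k + 1) (a - (k + 1)) q y * tb y := ⟨_, rfl⟩
  have hZc : 0 < Zc := eZc ▸ bw_pos L.hw L.hp _ _ q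
  have hZm : 0 ≤ Zm := by
    rw [eZm, ← hz]
    exact sum_nonneg fun y _ => mul_nonneg (hf0 y) (hB0 y).le
  -- the tube mass is at most the new mass of the contact
  have h1 : Tc ≤ Zc' := by
    rw [eTc, eZc']
    refine (sum_le_sum fun y hy => mul_le_mul_of_nonneg_left (L.tb_le y hy) (hk0 y)).trans ?_
    exact sum_le_sum_of_subset_of_nonneg L.Y0_sub fun y _ _ => mul_nonneg (hk0 y) (hB0' y).le
  have hgain : lam * Zc ≤ Tc := by rw [eZc, eTc]; exact gain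
  have hTc : 0 < Tc := lt_of_lt_of_le (by positivity) hgain
  -- the new mass of the profile
  have h2 : ∑ y ∈ Icc lo hi, fw w p m a y * bw w' p a (N - a) y ≤ ∑ y ∈ Y0, fw w p m a y * tb y + Y * Zm := by
    calc ∑ y ∈ Icc lo hi, fw w p m a y * bw w' p a (N - a) y
        ≤ ∑ y ∈ Icc lo hi, fw w p m a y * ((if y ∈ Y0 then tb y else 0) + Y * bw w p a (N - a) y) :=
          sum_le_sum fun y hy => mul_le_mul_of_nonneg_left (L.leak y hy) (hf0 y)
      _ = ∑ y ∈ Icc lo hi, (if y ∈ Y0 then fw w p m a y * tb y else 0) + Y * ∑ y ∈ Icc lo hi, fw w p m a y * bw w p a (N - a) y := by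
          rw [mul_sum, ← sum_add_distrib]
          refine sum_congr rfl fun y _ => ?_
          split_ifs <;> ring
      _ = _ := by
          rw [hz, eZm]
          congr 1
          rw [← sum_filter]
          refine sum_congr ?_ fun _ _ => rfl
          ext y
          simp only [mem_filter]
          exact ⟨fun h => h.2, fun h => ⟨L.Y0_sub h, h⟩⟩
  -- the gate
  have h3 : (∑ y ∈ Y0, fw w p m a y * tb y) * Zc ≤ Cg * Zm * Tc := by
    rw [sum_mul, eTc, mul_sum]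
    refine sum_le_sum fun y hy => ?_
    have h4 := mul_le_mul_of_nonneg_right (hgate m hm y hy) (L.tb0 y hy)
    rw [← eZc, ← eZm] at h4
    linarith
  rw [← hc, hz, ← eZc, ← eZm, ← eZc']
  have h5 : Y * Zm * Zc ≤ Y / lam * (Tc * Zm) := by
    calc Y * Zm * Zc = Y / lam * ((lam * Zc) * Zm) := by field_simp
      _ ≤ _ := by gcongr
  have h6 : 0 ≤ Cg + Y / lam := by positivity
  calc (∑ y ∈ Icc lo hi, fw w p m a y * bw w' p a (N - a) y) * Zc
      ≤ (∑ y ∈ Y0, fw w p m a y * tb y + Y * Zm) * Zc := mul_le_mul_of_nonneg_right h2 hZc.le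
    _ = (∑ y ∈ Y0, fw w p m a y * tb y) * Zc + Y * Zm * Zc := by ring
    _ ≤ Cg * Zm * Tc + Y / lam * (Tc * Zm) := add_le_add h3 h5
    _ = (Cg + Y / lam) * (Tc * Zm) := by ring
    _ ≤ (Cg + Y / lam) * (Zc' * Zm) := by gcongr

/-- **THE COMPARISON** of the weight of a contact of a row before the gate. -/
theorem LuckG.pc_le (L : LuckG w w' p N a lo hi Y0 tb Y) (hlam : 0 < lam) (hCg : 0 ≤ Cg) (h : Box l r X lo hi N)
    (hlp : ∃ y, 0 < l y) (hrp : ∃ y, 0 < r y) {k : ℕ} (hk : k < a) {q : ℤ} (hgate : Gate w p lo hi N a Y0 Cg k q)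
    (gain : lam * bw w p (k + 1) (N - (k + 1)) q ≤ ∑ y ∈ Y0, ker w p (k + 1) (a - (k + 1)) q y * tb y) :
    pc w p l r lo hi N k q ≤ (Cg + Y / lam) ^ 2 * pc w' p l r lo hi N k q := by
  have haN : a ≤ N := L.haN
  have hY := L.Y0'
  by_cases hq : lo < q ∧ q ≤ hi - N + k
  · refine pc_le_of_group L.hw L.hw' L.hp h hlp hrp haN hk (fun i hi' => L.eqb i (by omega)) (by positivity) fun m hm => ?_
    have hkN : (k : ℤ) < N := by exact_mod_cast lt_of_lt_of_le hk haN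
    have haN' : (a : ℤ) ≤ N := by exact_mod_cast haN
    exact L.group hlam hCg hk hq.1.le (by omega) hgate gain hm
  · have hz : pc w p l r lo hi N k q = 0 := by
      have : dp w p l r k (q - 1) q = 0 := by
        unfold dp
        by_cases h1 : lo < q
        · have h2 : hi - N + k < q := by
            by_contra hc
            exact hq ⟨h1, by omega⟩
          rw [fw_hi (Ms.left h).hi0 k q (by omega), fw_hi (Ms.right h).hi0 k q (by omega)]
          ring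
        · rw [fw_lo (Ms.left h).lo0 k (q - 1) (by omega), fw_lo (Ms.right h).lo0 k (q - 1) (by omega)]
          ring
      unfold pc
      rw [this]
      simp
    rw [hz]
    exact mul_nonneg (sq_nonneg _) (pc_nonneg L.hw' L.hp h hlp hrp k q)

/-- The gain from the levels: the contact reaches the mouth with probability `≥ 1 / D` and the tube carries `lam'` of the old mass of
every site of the mouth. -/
theorem gain_of_level (hw : ∀ k y, 0 < w k y) (hp : ∀ k, 0 < p k) (hD : 0 < D) (hlam : 0 ≤ lam) {k : ℕ} {q : ℤ}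
    (hreach : bw w p (k + 1) (N - (k + 1)) q ≤ D * ∑ y ∈ Y0, ker w p (k + 1) (a - (k + 1)) q y * bw w p a (N - a) y)
    (hlev : ∀ y ∈ Y0, lam * bw w p a (N - a) y ≤ tb y) :
    lam / D * bw w p (k + 1) (N - (k + 1)) q ≤ ∑ y ∈ Y0, ker w p (k + 1) (a - (k + 1)) q y * tb y := by
  have hk0 : ∀ y, 0 ≤ ker w p (k + 1) (a - (k + 1)) q y := fun y => ker_nonneg hw hp _ _ q y
  calc lam / D * bw w p (k + 1) (N - (k + 1)) q
      ≤ lam / D * (D * ∑ y ∈ Y0, ker w p (k + 1) (a - (k + 1)) q y * bw w p a (N - a) y) :=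
        mul_le_mul_of_nonneg_left hreach (by positivity)
    _ = ∑ y ∈ Y0, ker w p (k + 1) (a - (k + 1)) q y * (lam * bw w p a (N - a) y) := by
        rw [← mul_assoc, div_mul_cancel₀ _ hD.ne', mul_sum]
        exact sum_congr rfl fun y _ => by ring
    _ ≤ _ := sum_le_sum fun y hy => mul_le_mul_of_nonneg_left (hlev y hy) (hk0 y)

/-- The gain and the comparison from the levels, in one line. -/
theorem LuckG.pc_le_level (L : LuckG w w' p N a lo hi Y0 tb Y) (hlam : 0 < lam) (hCg : 0 ≤ Cg) (hD : 0 < D) (h : Box l r X lo hi N)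
    (hlp : ∃ y, 0 < l y) (hrp : ∃ y, 0 < r y) {k : ℕ} (hk : k < a) {q : ℤ} (hgate : Gate w p lo hi N a Y0 Cg k q)
    (hreach : bw w p (k + 1) (N - (k + 1)) q ≤ D * ∑ y ∈ Y0, ker w p (k + 1) (a - (k + 1)) q y * bw w p a (N - a) y)
    (hlev : ∀ y ∈ Y0, lam * bw w p a (N - a) y ≤ tb y) :
    pc w p l r lo hi N k q ≤ (Cg + Y * D / lam) ^ 2 * pc w' p l r lo hi N k q := by
  have h1 := gain_of_level L.hw L.hp hD hlam.le hreach hlev
  have h2 := L.pc_le (lam := lam / D) (by positivity) hCg h hlp hrp hk hgate h1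
  have e : Y / (lam / D) = Y * D / lam := by field_simp
  rwa [e] at h2

/-! ### The averaged form -/

open MeasureTheory Pool.Agent.W_7d29a1_F
open scoped ENNReal

/-- **THE FIELD `cmpA` FROM THE GATE.** `R` = the content of the whole window, `R₂` = the content of the rows behind the gate;
`T` = typical, `T'` = typical and gate, `Lk ω` = the lucky contents behind the gate (given the rest). -/
theorem avg_gate {Ω : Type*} [MeasurableSpace Ω] {P : Measure Ω} [SFinite P] {R R₂ : Ω → Ω → Ω} {T T' L : Set Ω}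
    {w : Ω → ℝ≥0∞} (mw : Measurable w) (mT' : MeasurableSet T') (mL : MeasurableSet L)
    (mR : Measurable fun x : Ω × Ω => R x.1 x.2) (mR₂ : Measurable fun x : Ω × Ω => R₂ x.1 x.2)
    (hRR : ∀ ω, ∀ f : Ω → ℝ≥0∞, Measurable f → ∫⁻ ξ, ∫⁻ η, f (R₂ η (R ξ ω)) ∂P ∂P = ∫⁻ ξ, f (R ξ ω) ∂P)
    {C₁ C₂ c₁ : ℝ≥0∞} (hgate : ∀ ω, ∫⁻ ξ, T.indicator w (R ξ ω) ∂P ≤ C₁ * ∫⁻ ξ, T'.indicator w (R ξ ω) ∂P)
    {Lk : Ω → Set Ω} (mLk : ∀ ω, MeasurableSet (Lk ω)) (hLk : ∀ ω ∈ T', c₁ ≤ P (Lk ω))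
    (hcmp : ∀ ω ∈ T', ∀ η ∈ Lk ω, R₂ η ω ∈ L ∧ w ω ≤ C₂ * w (R₂ η ω)) (ω : Ω) :
    c₁ * ∫⁻ ξ, T.indicator w (R ξ ω) ∂P ≤ C₁ * C₂ * ∫⁻ η, L.indicator w (R η ω) ∂P := by
  classical
  have key : ∀ ω', c₁ * T'.indicator w ω' ≤ C₂ * ∫⁻ η, L.indicator w (R₂ η ω') ∂P := by
    intro ω'
    by_cases h1 : ω' ∈ T'
    · rw [Set.indicator_of_mem h1]
      have mR₂' : Measurable fun η => R₂ η ω' := mR₂.comp (measurable_id.prodMk measurable_const)
      calc c₁ * w ω' ≤ P (Lk ω') * w ω' := mul_le_mul' (hLk ω' h1) le_rfl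
        _ = ∫⁻ η, (Lk ω').indicator (fun _ => w ω') η ∂P := by
            rw [lintegral_indicator_const (mLk ω'), mul_comm]
        _ ≤ ∫⁻ η, C₂ * L.indicator w (R₂ η ω') ∂P := by
            refine lintegral_mono fun η => ?_
            by_cases h2 : η ∈ Lk ω'
            · obtain ⟨h3, h4⟩ := hcmp ω' h1 η h2
              rw [Set.indicator_of_mem h2, Set.indicator_of_mem h3]
              exact h4
            · rw [Set.indicator_of_notMem h2]
              exact zero_le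
        _ = _ := lintegral_const_mul _ ((mw.indicator mL).comp mR₂')
    · rw [Set.indicator_of_notMem h1, mul_zero]
      exact zero_le
  have mI : Measurable fun ω' => ∫⁻ η, L.indicator w (R₂ η ω') ∂P :=
    Measurable.lintegral_prod_left' (f := fun x : Ω × Ω => L.indicator w (R₂ x.1 x.2)) ((mw.indicator mL).comp mR₂)
  have m1 : ∀ ω, Measurable fun ξ => T'.indicator w (R ξ ω) := fun ω =>
    (mw.indicator mT').comp (mR.comp (measurable_id.prodMk measurable_const))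
  have m2 : ∀ ω, Measurable fun ξ => ∫⁻ η, L.indicator w (R₂ η (R ξ ω)) ∂P := fun ω =>
    mI.comp (mR.comp (measurable_id.prodMk measurable_const))
  calc c₁ * ∫⁻ ξ, T.indicator w (R ξ ω) ∂P ≤ c₁ * (C₁ * ∫⁻ ξ, T'.indicator w (R ξ ω) ∂P) := mul_le_mul' le_rfl (hgate ω)
    _ = C₁ * ∫⁻ ξ, c₁ * T'.indicator w (R ξ ω) ∂P := by
        rw [lintegral_const_mul _ (m1 ω)]
        ring
    _ ≤ C₁ * ∫⁻ ξ, C₂ * ∫⁻ η, L.indicator w (R₂ η (R ξ ω)) ∂P ∂P := by
        exact mul_le_mul' le_rfl (lintegral_mono fun ξ => key _)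
    _ = C₁ * C₂ * ∫⁻ ξ, ∫⁻ η, L.indicator w (R₂ η (R ξ ω)) ∂P ∂P := by
        rw [lintegral_const_mul _ (m2 ω), mul_assoc]
    _ = _ := by rw [hRR ω _ (mw.indicator mL)]

open Pool.Agent.W_7d29a1_C1.S71 (gl measurable_gl measurable_gl_left lintegral_gl gl_of_mem gl_of_not_mem)

/-- The content of the rows behind the gate, then of the whole window = the content of the window, in law. -/
theorem gl_gl20 {μ : Measure ℝ} [IsProbabilityMeasure μ] {B₂ B : Set Pt} (hB : B₂ ⊆ B) (ω : Env) {f : Env → ℝ≥0∞}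
    (hf : Measurable f) :
    ∫⁻ ξ, ∫⁻ η, f (gl B₂ η (gl B ξ ω)) ∂(law μ) ∂(law μ) = ∫⁻ ξ, f (gl B ξ ω) ∂(law μ) := by
  rw [lintegral_gl (μ := μ) B₂ (f := fun ξ => f (gl B ξ ω)) (hf.comp (measurable_gl_left B ω))]
  refine lintegral_congr fun ξ => lintegral_congr fun η => ?_
  congr 1
  funext p
  by_cases h2 : p ∈ B₂
  · rw [gl_of_mem h2, gl_of_mem (hB h2), gl_of_mem h2]
  · rw [gl_of_not_mem h2]
    by_cases h1 : p ∈ B
    · rw [gl_of_mem h1, gl_of_mem h1, gl_of_not_mem h2]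
    · rw [gl_of_not_mem h1, gl_of_not_mem h1]

/-- **`avg_gate` for the environment**: `B` = the sites of the window, `B₂ ⊆ B` = the sites of the rows behind the gate. -/
theorem avg_gate_gl {μ : Measure ℝ} [IsProbabilityMeasure μ] {B₂ B : Set Pt} (hB : B₂ ⊆ B) {T T' L : Set Env} {w : Env → ℝ≥0∞}
    (mw : Measurable w) (mT' : MeasurableSet T') (mL : MeasurableSet L) {C₁ C₂ c₁ : ℝ≥0∞}
    (hgate : ∀ ω, ∫⁻ ξ, T.indicator w (gl B ξ ω) ∂(law μ) ≤ C₁ * ∫⁻ ξ, T'.indicator w (gl B ξ ω) ∂(law μ))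
    {Lk : Env → Set Env} (mLk : ∀ ω, MeasurableSet (Lk ω)) (hLk : ∀ ω ∈ T', c₁ ≤ law μ (Lk ω))
    (hcmp : ∀ ω ∈ T', ∀ η ∈ Lk ω, gl B₂ η ω ∈ L ∧ w ω ≤ C₂ * w (gl B₂ η ω)) (ω : Env) :
    c₁ * ∫⁻ ξ, T.indicator w (gl B ξ ω) ∂(law μ) ≤ C₁ * C₂ * ∫⁻ η, L.indicator w (gl B η ω) ∂(law μ) := by
  have : IsProbabilityMeasure (law μ) := by unfold law; infer_instance
  exact avg_gate (P := law μ) (R := gl B) (R₂ := gl B₂) mw mT' mL (measurable_gl B) (measurable_gl B₂)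
    (fun ω f hf => gl_gl20 hB ω hf) hgate mLk hLk hcmp ω

end

end Pool.Agent.W_7d29a1_C1.CmpG20
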