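import Pool.Agent.W_7d29a1_C1.CmpG20

/-!
MP_7d29a1_pr, attractor route, [C1] SEP, leaf S7, gate form with CORE WEIGHTS. (helper20)

* `LuckG.core_le` : `NI * Z1 ^ 2 / (Z_l Z_r) ≤ (g + Y / lam) ^ 2 * pc w'`, `Z1` = any part of the future mass of the contact (its core
  paths), from the gate `fw m a v * Z1 ≤ g * (Z_m * ker q v)`, the leak and the gain `lam * Z1 ≤ ∑ ker q y * tb y`;
* `avg_gate2`, `avg_gate2_gl` : the averaged form with three functions.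
-/

set_option autoImplicit false

namespace Pool.Agent.W_7d29a1_C1.CmpG20

open Finset
open Pool.Agent.W_7d29a1_C1.K91 (Grp Box wt wt_pos)
open Pool.Agent.W_7d29a1_C1.K91P (fw bw bw_pos fw_nonneg fw_lo fw_hi fw_congr bw_congr dp dp_nonneg)
open Pool.Agent.W_7d29a1_C1.U16 (ker ker_nonneg ker_eq_zero ker_congr bw_ker)
open Pool.Agent.W_7d29a1_C1.Sp22 (Ms Zt Zt_row Zt_pos pc pc_nonneg)
open Pool.Agent.W_7d29a1_C1.Cmp71 (bw_row bw_part cmp)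

noncomputable section

variable {w w' : ℕ → ℤ → ℝ} {p : ℕ → ℝ} {l r : ℤ → ℝ} {X lo hi : ℤ} {N a : ℕ} {Y0 : Finset ℤ} {tb : ℤ → ℝ} {Y lam g Z1 : ℝ}

/-- One group, with any part `Z1` of the future mass of the contact. -/
theorem LuckG.group1 (L : LuckG w w' p N a lo hi Y0 tb Y) (hlam : 0 < lam) (hg : 0 ≤ g) (hZ1 : 0 ≤ Z1) {k : ℕ} (hk : k < a) {q : ℤ}
    (hq : lo ≤ q) (hq' : q + ((a - (k + 1) : ℕ) : ℤ) ≤ hi)
    (gt : ∀ m : ℤ → ℝ, Ms m lo hi N → ∀ v ∈ Y0, fw w p m a v * Z1 ≤ g * (Zt w p m lo hi N * ker w p (k + 1) (a - (k + 1)) q v))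
    (gain : lam * Z1 ≤ ∑ y ∈ Y0, ker w p (k + 1) (a - (k + 1)) q y * tb y) {m : ℤ → ℝ} (hm : Ms m lo hi N) :
    Zt w' p m lo hi N * Z1 ≤ (g + Y / lam) * (bw w' p (k + 1) (N - (k + 1)) q * Zt w p m lo hi N) := by
  classical
  have haN := L.haN
  have hY := L.Y0'
  have hfw : ∀ y, fw w' p m a y = fw w p m a y := fun y => fw_congr a (fun i hi' y => by rw [L.eqb i hi']) y
  have hker : ∀ y, ker w' p (k + 1) (a - (k + 1)) q y = ker w p (k + 1) (a - (k + 1)) q y := fun y =>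
    ker_congr (k + 1) _ q y fun i _ hi' => ⟨(L.eqb i (by omega)).symm, rfl⟩
  have hc := bw_row (w := w') (p := p) (N := N) (k + 1) a hk haN hq hq'
  simp only [hker] at hc
  have hz := Zt_row (w := w) (p := p) hm haN
  have hz' := Zt_row (w := w') (p := p) hm haN
  simp only [hfw] at hz'
  have hk0 : ∀ y, 0 ≤ ker w p (k + 1) (a - (k + 1)) q y := fun y => ker_nonneg L.hw L.hp _ _ q y
  have hf0 : ∀ y, 0 ≤ fw w p m a y := fun y => fw_nonneg L.hw L.hp hm.nn a y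
  have hB0' : ∀ y, 0 < bw w' p a (N - a) y := fun y => bw_pos L.hw' L.hp _ _ y
  obtain ⟨Zm, eZm⟩ : ∃ Z, Z = Zt w p m lo hi N := ⟨_, rfl⟩
  obtain ⟨Tc, eTc⟩ : ∃ T, T = ∑ y ∈ Y0, ker w p (k + 1) (a - (k + 1)) q y * tb y := ⟨_, rfl⟩
  have hZm : 0 ≤ Zm := by
    rw [eZm, ← hz]
    exact sum_nonneg fun y _ => mul_nonneg (hf0 y) (bw_pos L.hw L.hp _ _ y).le
  have hTc : 0 ≤ Tc := by
    rw [eTc]
    exact sum_nonneg fun y hy => mul_nonneg (hk0 y) (L.tb0 y hy)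
  have h1 : Tc ≤ bw w' p (k + 1) (N - (k + 1)) q := by
    rw [eTc, hc]
    refine (sum_le_sum fun y hy => mul_le_mul_of_nonneg_left (L.tb_le y hy) (hk0 y)).trans ?_
    exact sum_le_sum_of_subset_of_nonneg L.Y0_sub fun y _ _ => mul_nonneg (hk0 y) (hB0' y).le
  have hgain : lam * Z1 ≤ Tc := by rw [eTc]; exact gain
  have h2 : Zt w' p m lo hi N ≤ ∑ y ∈ Y0, fw w p m a y * tb y + Y * Zm := by
    calc Zt w' p m lo hi N = ∑ y ∈ Icc lo hi, fw w p m a y * bw w' p a (N - a) y := hz'.symm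
      _ ≤ ∑ y ∈ Icc lo hi, fw w p m a y * ((if y ∈ Y0 then tb y else 0) + Y * bw w p a (N - a) y) :=
          sum_le_sum fun y hy => mul_le_mul_of_nonneg_left (L.leak y hy) (hf0 y)
      _ = ∑ y ∈ Icc lo hi, (if y ∈ Y0 then fw w p m a y * tb y else 0) + Y * ∑ y ∈ Icc lo hi, fw w p m a y * bw w p a (N - a) y := by
          rw [mul_sum, ← sum_add_distrib]
          refine sum_congr rfl fun y _ => ?_
          split_ifs <;> ring
      _ = _ := by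
          rw [hz, eZm]
          congr 1
          rw [← sum_filter]
          refine sum_congr ?_ fun _ _ => rfl
          ext y
          simp only [mem_filter]
          exact ⟨fun h => h.2, fun h => ⟨L.Y0_sub h, h⟩⟩
  have h3 : (∑ y ∈ Y0, fw w p m a y * tb y) * Z1 ≤ g * Zm * Tc := by
    rw [sum_mul, eTc, mul_sum]
    refine sum_le_sum fun y hy => ?_
    have h4 := mul_le_mul_of_nonneg_right (gt m hm y hy) (L.tb0 y hy)
    rw [← eZm] at h4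
    linarith
  rw [← eZm]
  have h5 : Y * Zm * Z1 ≤ Y / lam * (Tc * Zm) := by
    calc Y * Zm * Z1 = Y / lam * ((lam * Z1) * Zm) := by field_simp
      _ ≤ _ := by gcongr
  have h6 : 0 ≤ g + Y / lam := by positivity
  calc Zt w' p m lo hi N * Z1 ≤ (∑ y ∈ Y0, fw w p m a y * tb y + Y * Zm) * Z1 := mul_le_mul_of_nonneg_right h2 hZ1
    _ = (∑ y ∈ Y0, fw w p m a y * tb y) * Z1 + Y * Zm * Z1 := by ring
    _ ≤ g * Zm * Tc + Y / lam * (Tc * Zm) := add_le_add h3 h5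
    _ = (g + Y / lam) * (Tc * Zm) := by ring
    _ ≤ (g + Y / lam) * (bw w' p (k + 1) (N - (k + 1)) q * Zm) := by gcongr

/-- The core weight of a contact: `Z1` in place of the future mass. -/
def pcc (w : ℕ → ℤ → ℝ) (p : ℕ → ℝ) (l r : ℤ → ℝ) (lo hi : ℤ) (N k : ℕ) (q : ℤ) (Z1 : ℝ) : ℝ :=
  dp w p l r k (q - 1) q * (p k * (w k (q - 1) * w k q) * Z1 ^ 2) / (Zt w p l lo hi N * Zt w p r lo hi N)

theorem pcc_eq (k : ℕ) (q : ℤ) : pcc w p l r lo hi N k q Z1 =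
    dp w p l r k (q - 1) q * (p k * (w k (q - 1) * w k q)) * Z1 ^ 2 / (Zt w p l lo hi N * Zt w p r lo hi N) := by
  unfold pcc
  rw [mul_assoc (dp w p l r k (q - 1) q) _ (Z1 ^ 2)]

theorem pcc_bw (k : ℕ) (q : ℤ) : pcc w p l r lo hi N k q (bw w p (k + 1) (N - (k + 1)) q) = pc w p l r lo hi N k q := rfl

theorem ni_nonneg (hw : ∀ k y, 0 < w k y) (hp : ∀ k, 0 < p k) (h : Grp l r X) (k : ℕ) (q : ℤ) :
    0 ≤ dp w p l r k (q - 1) q * (p k * (w k (q - 1) * w k q)) :=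
  mul_nonneg (dp_nonneg hw hp h k (q - 1) q (by omega)) (mul_nonneg (hp k).le (mul_nonneg (hw _ _).le (hw _ _).le))

theorem pcc_nonneg (hw : ∀ k y, 0 < w k y) (hp : ∀ k, 0 < p k) (h : Box l r X lo hi N) (hlp : ∃ y, 0 < l y) (hrp : ∃ y, 0 < r y)
    (k : ℕ) (q : ℤ) (Z1 : ℝ) : 0 ≤ pcc w p l r lo hi N k q Z1 := by
  rw [pcc_eq]
  have zl := Zt_pos hw hp (Ms.left h) hlp
  have zr := Zt_pos hw hp (Ms.right h) hrp
  have := ni_nonneg hw hp h.g k q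
  positivity

/-- Stay: the weight is at most `D1 ^ 2` times the core weight. -/
theorem pc_le_pcc (hw : ∀ k y, 0 < w k y) (hp : ∀ k, 0 < p k) (h : Box l r X lo hi N) (hlp : ∃ y, 0 < l y) (hrp : ∃ y, 0 < r y)
    {k : ℕ} {q : ℤ} {D1 : ℝ} (hZ : bw w p (k + 1) (N - (k + 1)) q ≤ D1 * Z1) :
    pc w p l r lo hi N k q ≤ D1 ^ 2 * pcc w p l r lo hi N k q Z1 := by
  have zl := Zt_pos hw hp (Ms.left h) hlp
  have zr := Zt_pos hw hp (Ms.right h) hrp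
  have h1 := ni_nonneg hw hp h.g k q
  have h2 := bw_pos hw hp (N - (k + 1)) (k + 1) q
  rw [← pcc_bw, pcc_eq, pcc_eq]
  have h3 : bw w p (k + 1) (N - (k + 1)) q ^ 2 ≤ (D1 * Z1) ^ 2 := pow_le_pow_left₀ h2.le hZ 2
  have h4 : dp w p l r k (q - 1) q * (p k * (w k (q - 1) * w k q)) * bw w p (k + 1) (N - (k + 1)) q ^ 2 ≤
      dp w p l r k (q - 1) q * (p k * (w k (q - 1) * w k q)) * (D1 * Z1) ^ 2 := mul_le_mul_of_nonneg_left h3 h1
  calc _ ≤ dp w p l r k (q - 1) q * (p k * (w k (q - 1) * w k q)) * (D1 * Z1) ^ 2 / (Zt w p l lo hi N * Zt w p r lo hi N) :=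
        div_le_div_of_nonneg_right h4 (mul_pos zl zr).le
    _ = _ := by ring

/-- The core weight is at most the weight. -/
theorem pcc_le_pc (hw : ∀ k y, 0 < w k y) (hp : ∀ k, 0 < p k) (h : Box l r X lo hi N) (hlp : ∃ y, 0 < l y) (hrp : ∃ y, 0 < r y)
    {k : ℕ} {q : ℤ} (hZ0 : 0 ≤ Z1) (hZ : Z1 ≤ bw w p (k + 1) (N - (k + 1)) q) :
    pcc w p l r lo hi N k q Z1 ≤ pc w p l r lo hi N k q := by
  have zl := Zt_pos hw hp (Ms.left h) hlp
  have zr := Zt_pos hw hp (Ms.right h) hrp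
  have h1 := ni_nonneg hw hp h.g k q
  rw [← pcc_bw, pcc_eq, pcc_eq]
  exact div_le_div_of_nonneg_right (mul_le_mul_of_nonneg_left (pow_le_pow_left₀ hZ0 hZ 2) h1) (mul_pos zl zr).le

/-- **THE COMPARISON OF THE CORE WEIGHT** of a contact of a row before the gate. -/
theorem LuckG.core_le (L : LuckG w w' p N a lo hi Y0 tb Y) (hlam : 0 < lam) (hg : 0 ≤ g) (hZ1 : 0 ≤ Z1) (h : Box l r X lo hi N)
    (hlp : ∃ y, 0 < l y) (hrp : ∃ y, 0 < r y) {k : ℕ} (hk : k < a) {q : ℤ}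
    (gt : ∀ m : ℤ → ℝ, Ms m lo hi N → ∀ v ∈ Y0, fw w p m a v * Z1 ≤ g * (Zt w p m lo hi N * ker w p (k + 1) (a - (k + 1)) q v))
    (gain : lam * Z1 ≤ ∑ y ∈ Y0, ker w p (k + 1) (a - (k + 1)) q y * tb y) :
    pcc w p l r lo hi N k q Z1 ≤ (g + Y / lam) ^ 2 * pc w' p l r lo hi N k q := by
  have haN : a ≤ N := L.haN
  have hY := L.Y0'
  by_cases hq : lo < q ∧ q ≤ hi - N + k
  · have hkN : (k : ℤ) < N := by exact_mod_cast lt_of_lt_of_le hk haN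
    have haN' : (a : ℤ) ≤ N := by exact_mod_cast haN
    have hl := Ms.left h
    have hr := Ms.right h
    have hdp : dp w' p l r k (q - 1) q = dp w p l r k (q - 1) q := by
      have hfw : ∀ (m : ℤ → ℝ) (y : ℤ), fw w' p m k y = fw w p m k y := fun m y =>
        fw_congr k (fun i hi' y => by rw [L.eqb i (by omega)]) y
      unfold dp
      rw [hfw, hfw, hfw, hfw]
    have g1 := L.group1 hlam hg hZ1 hk hq.1.le (by omega) gt gain hl
    have g2 := L.group1 hlam hg hZ1 hk hq.1.le (by omega) gt gain hr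
    have key := cmp (ni_nonneg L.hw L.hp h.g k q) hZ1 (Zt_pos L.hw L.hp hl hlp) (Zt_pos L.hw L.hp hr hrp)
      (bw_pos L.hw' L.hp (N - (k + 1)) (k + 1) q).le (Zt_pos L.hw' L.hp hl hlp) (Zt_pos L.hw' L.hp hr hrp)
      (show 0 ≤ g + Y / lam by positivity) g1 g2
    rw [← pcc_bw, pcc_eq, pcc_eq, hdp, ← L.eqb k hk]
    exact key
  · have hz : dp w p l r k (q - 1) q = 0 := by
      unfold dp
      by_cases h1 : lo < q
      · have h2 : hi - N + k < q := by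
          by_contra hc
          exact hq ⟨h1, by omega⟩
        rw [fw_hi (Ms.left h).hi0 k q (by omega), fw_hi (Ms.right h).hi0 k q (by omega)]
        ring
      · rw [fw_lo (Ms.left h).lo0 k (q - 1) (by omega), fw_lo (Ms.right h).lo0 k (q - 1) (by omega)]
        ring
    have hz' : pcc w p l r lo hi N k q Z1 = 0 := by
      rw [pcc_eq, hz]
      simp
    rw [hz']
    exact mul_nonneg (sq_nonneg _) (pc_nonneg L.hw' L.hp h hlp hrp k q)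

/-! ### The averaged form, three functions -/

open MeasureTheory Pool.Agent.W_7d29a1_F
open scoped ENNReal

theorem avg_gate2 {Ω : Type*} [MeasurableSpace Ω] {P : Measure Ω} [SFinite P] {R R₂ : Ω → Ω → Ω} {T T' L : Set Ω}
    {w₁ w₂ w₃ : Ω → ℝ≥0∞} (mw₂ : Measurable w₂) (mw₃ : Measurable w₃) (mT' : MeasurableSet T') (mL : MeasurableSet L)
    (mR : Measurable fun x : Ω × Ω => R x.1 x.2) (mR₂ : Measurable fun x : Ω × Ω => R₂ x.1 x.2) {ω : Ω}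
    (hRR : ∀ f : Ω → ℝ≥0∞, Measurable f → ∫⁻ ξ, ∫⁻ η, f (R₂ η (R ξ ω)) ∂P ∂P = ∫⁻ ξ, f (R ξ ω) ∂P)
    {C₁ C₂ c₁ : ℝ≥0∞} (hgate : ∫⁻ ξ, T.indicator w₁ (R ξ ω) ∂P ≤ C₁ * ∫⁻ ξ, T'.indicator w₂ (R ξ ω) ∂P)
    {Lk : Ω → Set Ω} (mLk : ∀ ω, MeasurableSet (Lk ω)) (hLk : ∀ ω ∈ T', c₁ ≤ P (Lk ω))
    (hcmp : ∀ ω ∈ T', ∀ η ∈ Lk ω, R₂ η ω ∈ L ∧ w₂ ω ≤ C₂ * w₃ (R₂ η ω)) :
    c₁ * ∫⁻ ξ, T.indicator w₁ (R ξ ω) ∂P ≤ C₁ * C₂ * ∫⁻ η, L.indicator w₃ (R η ω) ∂P := by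
  classical
  have key : ∀ ω', c₁ * T'.indicator w₂ ω' ≤ C₂ * ∫⁻ η, L.indicator w₃ (R₂ η ω') ∂P := by
    intro ω'
    by_cases h1 : ω' ∈ T'
    · rw [Set.indicator_of_mem h1]
      have mR₂' : Measurable fun η => R₂ η ω' := mR₂.comp (measurable_id.prodMk measurable_const)
      calc c₁ * w₂ ω' ≤ P (Lk ω') * w₂ ω' := mul_le_mul' (hLk ω' h1) le_rfl
        _ = ∫⁻ η, (Lk ω').indicator (fun _ => w₂ ω') η ∂P := by
            rw [lintegral_indicator_const (mLk ω'), mul_comm]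
        _ ≤ ∫⁻ η, C₂ * L.indicator w₃ (R₂ η ω') ∂P := by
            refine lintegral_mono fun η => ?_
            by_cases h2 : η ∈ Lk ω'
            · obtain ⟨h3, h4⟩ := hcmp ω' h1 η h2
              rw [Set.indicator_of_mem h2, Set.indicator_of_mem h3]
              exact h4
            · rw [Set.indicator_of_notMem h2]
              exact zero_le
        _ = _ := lintegral_const_mul _ ((mw₃.indicator mL).comp mR₂')
    · rw [Set.indicator_of_notMem h1, mul_zero]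
      exact zero_le
  have mI : Measurable fun ω' => ∫⁻ η, L.indicator w₃ (R₂ η ω') ∂P :=
    Measurable.lintegral_prod_left' (f := fun x : Ω × Ω => L.indicator w₃ (R₂ x.1 x.2)) ((mw₃.indicator mL).comp mR₂)
  have m1 : Measurable fun ξ => T'.indicator w₂ (R ξ ω) :=
    (mw₂.indicator mT').comp (mR.comp (measurable_id.prodMk measurable_const))
  have m2 : Measurable fun ξ => ∫⁻ η, L.indicator w₃ (R₂ η (R ξ ω)) ∂P :=
    mI.comp (mR.comp (measurable_id.prodMk measurable_const))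
  calc c₁ * ∫⁻ ξ, T.indicator w₁ (R ξ ω) ∂P ≤ c₁ * (C₁ * ∫⁻ ξ, T'.indicator w₂ (R ξ ω) ∂P) := mul_le_mul' le_rfl hgate
    _ = C₁ * ∫⁻ ξ, c₁ * T'.indicator w₂ (R ξ ω) ∂P := by
        rw [lintegral_const_mul _ m1]
        ring
    _ ≤ C₁ * ∫⁻ ξ, C₂ * ∫⁻ η, L.indicator w₃ (R₂ η (R ξ ω)) ∂P ∂P :=
        mul_le_mul' le_rfl (lintegral_mono fun ξ => key _)
    _ = C₁ * C₂ * ∫⁻ ξ, ∫⁻ η, L.indicator w₃ (R₂ η (R ξ ω)) ∂P ∂P := by
        rw [lintegral_const_mul _ m2, mul_assoc]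
    _ = _ := by rw [hRR _ (mw₃.indicator mL)]

open Pool.Agent.W_7d29a1_C1.S71 (gl measurable_gl)

/-- `avg_gate2` for the environment. -/
theorem avg_gate2_gl {μ : Measure ℝ} [IsProbabilityMeasure μ] {B₂ B : Set Pt} (hB : B₂ ⊆ B) {T T' L : Set Env}
    {w₁ w₂ w₃ : Env → ℝ≥0∞} (mw₂ : Measurable w₂) (mw₃ : Measurable w₃) (mT' : MeasurableSet T') (mL : MeasurableSet L) {ω : Env}
    {C₁ C₂ c₁ : ℝ≥0∞}
    (hgate : ∫⁻ ξ, T.indicator w₁ (gl B ξ ω) ∂(law μ) ≤ C₁ * ∫⁻ ξ, T'.indicator w₂ (gl B ξ ω) ∂(law μ))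
    {Lk : Env → Set Env} (mLk : ∀ ω, MeasurableSet (Lk ω)) (hLk : ∀ ω ∈ T', c₁ ≤ law μ (Lk ω))
    (hcmp : ∀ ω ∈ T', ∀ η ∈ Lk ω, gl B₂ η ω ∈ L ∧ w₂ ω ≤ C₂ * w₃ (gl B₂ η ω)) :
    c₁ * ∫⁻ ξ, T.indicator w₁ (gl B ξ ω) ∂(law μ) ≤ C₁ * C₂ * ∫⁻ η, L.indicator w₃ (gl B η ω) ∂(law μ) := by
  have : IsProbabilityMeasure (law μ) := by unfold law; infer_instance
  exact avg_gate2 (P := law μ) (R := gl B) (R₂ := gl B₂) mw₂ mw₃ mT' mL (measurable_gl B) (measurable_gl B₂)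
    (fun f hf => gl_gl20 hB ω hf) hgate mLk hLk hcmp

end

end Pool.Agent.W_7d29a1_C1.CmpG20
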