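import Pool.Agent.W_7d29a1_C1.PairP91
import Pool.Agent.W_7d29a1_C1.Rank26B

/-!
Both halves (MP_7d29a1_pr), attractor route [C1]: THE KERNEL OF THE ROWS AND RANK ONE FOR THE MASSES OF K91P (weight `p k` of the
step `1` which depends on the row). The statements of Rank26B (helper26), the same names, in the namespace R26P. (helper74)
-/

set_option autoImplicit false
set_option linter.unusedSectionVars false

namespace Pool.Agent.W_7d29a1_C1.R26P

open Finset Pool.Agent.W_7d29a1_C1.Gini76 Pool.Agent.W_7d29a1_C1.CR76 Pool.Agent.W_7d29a1_C1.K91P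
  Pool.Agent.W_7d29a1_C1.Basin76
open Pool.Agent.W_7d29a1_C1.K91 (Grp shw sum_shift)
open Pool.Agent.W_7d29a1_C1.R26 (push_rank pull_rank two_lane_masses)

noncomputable section

variable {w : ℕ → ℤ → ℝ} {p : ℕ → ℝ}

/-- one start -/
def sg (y z : ℤ) : ℝ := if z = y then 1 else 0

theorem sg_nonneg (y z : ℤ) : 0 ≤ sg y z := by
  unfold sg
  split_ifs <;> norm_num

/-- The kernel of the rows `r, ..., r + n - 1`. -/
def kf (w : ℕ → ℤ → ℝ) (p : ℕ → ℝ) (r n : ℕ) (y x : ℤ) : ℝ := fw (shw w r) (shp p r) (sg y) n x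

theorem kf_zero_row (r : ℕ) (y x : ℤ) : kf w p r 0 y x = sg y x := rfl

theorem kf_succ (r n : ℕ) (y x : ℤ) :
    kf w p r (n + 1) y x = w (r + n) x * kf w p r n y x + p (r + n) * (w (r + n) (x - 1) * kf w p r n y (x - 1)) := rfl

theorem shw_pos (hw : ∀ k y, 0 < w k y) (r : ℕ) : ∀ k y, 0 < shw w r k y := fun k y => hw (r + k) y

theorem shp_pos (hp : ∀ k, 0 < p k) (r : ℕ) : ∀ k, 0 < shp p r k := fun k => hp (r + k)

theorem kf_nonneg (hw : ∀ k y, 0 < w k y) (hp : ∀ k, 0 < p k) (r n : ℕ) (y x : ℤ) : 0 ≤ kf w p r n y x :=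
  fw_nonneg (shw_pos hw r) (shp_pos hp r) (sg_nonneg y) n x

theorem kf_pos (hw : ∀ k y, 0 < w k y) (hp : ∀ k, 0 < p k) (r : ℕ) : ∀ (n : ℕ) {y x : ℤ}, y ≤ x → x ≤ y + n → 0 < kf w p r n y x
  | 0, y, x, h0, h1 => by
    rw [kf_zero_row]
    unfold sg
    rw [if_pos (by push_cast at h1; omega)]
    exact one_pos
  | n + 1, y, x, h0, h1 => by
    rw [kf_succ]
    push_cast at h1
    have b1 := hw (r + n) x
    have b2 := hw (r + n) (x - 1)
    have b3 := hp (r + n)
    rcases eq_or_lt_of_le h1 with h2 | h2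
    · have a1 := kf_nonneg hw hp r n y x
      have a2 := kf_pos hw hp r n (y := y) (x := x - 1) (by omega) (by omega)
      positivity
    · have a1 := kf_pos hw hp r n (y := y) (x := x) h0 (by omega)
      have a2 := kf_nonneg hw hp r n y (x - 1)
      positivity

theorem kf_zero (r n : ℕ) {y x : ℤ} (h : ¬ (y ≤ x ∧ x ≤ y + n)) : kf w p r n y x = 0 := by
  by_cases h1 : y ≤ x
  · exact fw_hi (B := y) (fun z hz => by unfold sg; rw [if_neg (by omega)]) n x (by omega)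
  · exact fw_lo (A := y) (fun z hz => by unfold sg; rw [if_neg (by omega)]) n x (by omega)

/-- **LGV** for the kernel, no window. -/
theorem kf_minor (hw : ∀ k y, 0 < w k y) (hp : ∀ k, 0 < p k) (r n : ℕ) {y y' x x' : ℤ} (hy : y ≤ y') (hx : x ≤ x') :
    kf w p r n y x' * kf w p r n y' x ≤ kf w p r n y x * kf w p r n y' x' := by
  rcases eq_or_lt_of_le hy with h | h
  · rw [h, mul_comm]
  · have hg : Grp (sg y) (sg y') y' := ⟨sg_nonneg y, sg_nonneg y', fun z hz => by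
      unfold sg; rw [if_neg (by omega)], fun z hz => by unfold sg; rw [if_neg (by omega)]⟩
    have := dp_nonneg (shw_pos hw r) (shp_pos hp r) hg n x x' hx
    unfold dp at this
    unfold kf
    linarith

theorem TP_kf (hw : ∀ k y, 0 < w k y) (hp : ∀ k, 0 < p k) (r n : ℕ) (a b : ℤ) :
    TP (kf w p r n) {y | a ≤ y ∧ y ≤ b} {z | b ≤ z ∧ z ≤ a + n} where
  pos := fun y hy z hz => kf_pos hw hp r n (hy.2.trans hz.1) (hz.2.trans (by have := hy.1; omega))
  tp := fun _ _ _ _ hyy _ _ _ _ hzz => kf_minor hw hp r n hyy hzz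

/-! ### Masses -/

theorem fw_push_aux (r : ℕ) {l : ℤ → ℝ} {S : Finset ℤ} (hl : ∀ y, y ∉ S → l y = 0) : ∀ (n : ℕ) (x : ℤ),
    fw (shw w r) (shp p r) l n x = push S (kf w p r n) l x
  | 0, x => by
    unfold push
    simp only [kf_zero_row, sg]
    rw [fw_zero]
    by_cases hx : x ∈ S
    · rw [sum_eq_single_of_mem x hx fun y _ hy => by rw [if_neg (Ne.symm hy), mul_zero], if_pos rfl, mul_one]
    · rw [hl x hx, sum_eq_zero]
      intro y hy
      rw [if_neg (fun h : x = y => hx (by rw [h]; exact hy)), mul_zero]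
  | n + 1, x => by
    rw [fw_succ, fw_push_aux r hl n x, fw_push_aux r hl n (x - 1)]
    unfold push
    simp only [kf_succ]
    rw [mul_sum, mul_sum, mul_sum, ← sum_add_distrib]
    refine sum_congr rfl fun y _ => ?_
    show w (r + n) x * (l y * kf w p r n y x) + p (r + n) * (w (r + n) (x - 1) * (l y * kf w p r n y (x - 1))) = _
    ring

/-- **Forward masses are a push.** -/
theorem fw_kf (r n : ℕ) {l : ℤ → ℝ} {S : Finset ℤ} (hl : ∀ y, y ∉ S → fw w p l r y = 0) (x : ℤ) :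
    fw w p l (r + n) x = push S (kf w p r n) (fw w p l r) x := by
  rw [fw_comp]
  exact fw_push_aux r hl n x

/-- **Composition.** -/
theorem kf_comp (r m n : ℕ) (y x : ℤ) {S : Finset ℤ} (hS : Icc y (y + m) ⊆ S) :
    kf w p r (m + n) y x = comp S (kf w p r m) (kf w p (r + m) n) y x := by
  unfold kf
  rw [fw_comp]
  have e : shw (shw w r) m = shw w (r + m) := by
    funext k z
    unfold shw
    rw [add_assoc]
  have e' : shp (shp p r) m = shp p (r + m) := by
    funext k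
    unfold shp
    rw [add_assoc]
  rw [e, e']
  refine (fw_push_aux (r + m) (l := fw (shw w r) (shp p r) (sg y) m) (S := S) (fun z hz => ?_) n x).trans rfl
  refine kf_zero (w := w) (p := p) r m fun h => hz (hS (mem_Icc.2 h))

/-- **Backward masses are a pull.** -/
theorem bw_kf (r : ℕ) {lo hi : ℤ} : ∀ (m n : ℕ) (y : ℤ), lo ≤ y → y + m ≤ hi →
    bw w p r (m + n) y = pull (Icc lo hi) (kf w p r m) (bw w p (r + m) n) y
  | 0, n, y, h0, h1 => by
    unfold pull
    simp only [kf_zero_row, sg, Nat.zero_add, Nat.add_zero]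
    rw [sum_eq_single_of_mem y (mem_Icc.2 ⟨h0, by simpa using h1⟩) fun x _ hx => by rw [if_neg hx, zero_mul],
      if_pos rfl, one_mul]
  | m + 1, n, y, h0, h1 => by
    push_cast at h1
    have e : m + 1 + n = m + (n + 1) := by ring
    rw [e, bw_kf r (lo := lo) (hi := hi) m (n + 1) y h0 (by omega)]
    unfold pull
    have e1 : ∀ x ∈ Icc lo hi, kf w p r (m + 1) y x * bw w p (r + (m + 1)) n x =
        w (r + m) x * kf w p r m y x * bw w p (r + m + 1) n x +
          (fun z => p (r + m) * (w (r + m) z * kf w p r m y z) * bw w p (r + m + 1) n (z + 1)) (x - 1) := by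
      intro x _
      show _ = _ + p (r + m) * (w (r + m) (x - 1) * kf w p r m y (x - 1)) * bw w p (r + m + 1) n (x - 1 + 1)
      rw [kf_succ, sub_add_cancel]
      have : r + (m + 1) = r + m + 1 := by ring
      rw [this]
      ring
    have e2 : ∑ x ∈ Icc lo hi, (fun z => p (r + m) * (w (r + m) z * kf w p r m y z) * bw w p (r + m + 1) n (z + 1)) (x - 1) =
        ∑ x ∈ Icc lo hi, (fun z => p (r + m) * (w (r + m) z * kf w p r m y z) * bw w p (r + m + 1) n (z + 1)) x := by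
      refine sum_shift (f := fun z => p (r + m) * (w (r + m) z * kf w p r m y z) * bw w p (r + m + 1) n (z + 1)) (by omega) ?_ ?_
      · show p (r + m) * (w (r + m) (lo - 1) * kf w p r m y (lo - 1)) * _ = 0
        rw [kf_zero (w := w) (p := p) r m (y := y) (x := lo - 1) (by omega)]
        ring
      · show p (r + m) * (w (r + m) hi * kf w p r m y hi) * _ = 0
        rw [kf_zero (w := w) (p := p) r m (y := y) (x := hi) (by omega)]
        ring
    rw [sum_congr rfl e1, sum_add_distrib, e2, ← sum_add_distrib]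
    refine sum_congr rfl fun x _ => ?_
    rw [bw_succ]
    ring

/-! ### Entrance and exit -/

/-- The total mass of a cell seen from its left corner. -/
def am (w : ℕ → ℤ → ℝ) (p : ℕ → ℝ) (r n : ℕ) (a b xa : ℤ) (L : ℤ → ℝ) : ℝ :=
  ∑ y ∈ Icc a b, L y * (kf w p r n y xa / kf w p r n a xa)

theorem am_nonneg (hw : ∀ k y, 0 < w k y) (hp : ∀ k, 0 < p k) (r n : ℕ) (a b xa : ℤ) {L : ℤ → ℝ} (hL : ∀ y, 0 ≤ L y) :
    0 ≤ am w p r n a b xa L :=
  sum_nonneg fun y _ => mul_nonneg (hL y) (div_nonneg (kf_nonneg hw hp _ _ _ _) (kf_nonneg hw hp _ _ _ _))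

/-- **Entrance.** Forward masses behind a slab with two rank one cells, on the inner window `[xa, xb]`. -/
theorem lanes (hw : ∀ k y, 0 < w k y) (hp : ∀ k, 0 < p k) (r n : ℕ) {l : ℤ → ℝ} (hl0 : ∀ y, 0 ≤ l y) {lo hi : ℤ}
    (hl : ∀ y, y ∉ Icc lo hi → fw w p l r y = 0) {a1 b1 a2 b2 xa x xb : ℤ} (h1 : a1 ≤ b1) (h2 : b1 < a2)
    (h3 : a2 ≤ b2) (h4 : b2 ≤ xa) (h5 : xa ≤ x) (h6 : x ≤ xb) (h7 : xb ≤ a1 + n) (hlo : lo ≤ a1) (hhi : b2 ≤ hi)
    {δ : ℝ} (c1 : CR (kf w p r n) a1 b1 xa xb ≤ 1 + δ) (c2 : CR (kf w p r n) a2 b2 xa xb ≤ 1 + δ) :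
    am w p r n a1 b1 xa (fw w p l r) * kf w p r n a1 x + am w p r n a2 b2 xa (fw w p l r) * kf w p r n a2 x +
        push (Icc lo hi \ (Icc a1 b1 ∪ Icc a2 b2)) (kf w p r n) (fw w p l r) x ≤ fw w p l (r + n) x ∧
      fw w p l (r + n) x ≤ (1 + δ) * (am w p r n a1 b1 xa (fw w p l r) * kf w p r n a1 x +
        am w p r n a2 b2 xa (fw w p l r) * kf w p r n a2 x) +
        push (Icc lo hi \ (Icc a1 b1 ∪ Icc a2 b2)) (kf w p r n) (fw w p l r) x := by
  have hU : Icc a1 b1 ∪ Icc a2 b2 ⊆ Icc lo hi := by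
    intro y hy
    simp only [mem_union, mem_Icc] at hy ⊢
    omega
  have e : Icc a1 b1 ∪ Icc a2 b2 ∪ (Icc lo hi \ (Icc a1 b1 ∪ Icc a2 b2)) = Icc lo hi := union_sdiff_of_subset hU
  rw [fw_kf r n hl x]
  have key := two_lane_masses (TP_kf hw hp r n a1 b2) (Icc a1 b1) (Icc a2 b2)
    (Icc lo hi \ (Icc a1 b1 ∪ Icc a2 b2)) (disjoint_left.2 fun y hy hy' => by
      rw [mem_Icc] at hy hy'; omega) disjoint_sdiff (a1 := a1) (b1 := b1) (a2 := a2) (b2 := b2)
    (fun y hy => by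
      rw [mem_Icc] at hy
      exact ⟨⟨hy.1, by omega⟩, hy.1, hy.2⟩)
    (fun y hy => by
      rw [mem_Icc] at hy
      exact ⟨⟨by omega, hy.2⟩, hy.1, hy.2⟩) (fw w p l r) (fun y _ => fw_nonneg hw hp hl0 r y)
    (xa := xa) (x := x) (xb := xb) ⟨le_rfl, by omega⟩ ⟨by omega, by omega⟩ ⟨by omega, by omega⟩ ⟨by omega, by omega⟩
    ⟨h4, by omega⟩ ⟨by omega, by omega⟩ ⟨by omega, h7⟩ h5 h6 c1 c2
  rw [e] at key
  exact key

/-- **Exit.** Backward masses in front of a slab with a rank one cell of ends `[xa, xb]`, on the window `[ya, yb]`. -/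
theorem exit_cell (hw : ∀ k y, 0 < w k y) (hp : ∀ k, 0 < p k) (r n m : ℕ) {lo hi ya y yb xa xb : ℤ} (h1 : ya ≤ y)
    (h2 : y ≤ yb) (h3 : yb ≤ xa) (h4 : xa ≤ xb) (h5 : xb ≤ ya + n) (hlo : lo ≤ ya) (hhi : yb + n ≤ hi)
    {δ : ℝ} (c : CR (kf w p r n) ya yb xa xb ≤ 1 + δ) :
    (∑ x ∈ Icc xa xb, kf w p r n ya x / kf w p r n ya xa * bw w p (r + n) m x) * kf w p r n y xa +
        pull (Icc lo hi \ Icc xa xb) (kf w p r n) (bw w p (r + n) m) y ≤ bw w p r (n + m) y ∧
      bw w p r (n + m) y ≤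
        (1 + δ) * ((∑ x ∈ Icc xa xb, kf w p r n ya x / kf w p r n ya xa * bw w p (r + n) m x) * kf w p r n y xa) +
        pull (Icc lo hi \ Icc xa xb) (kf w p r n) (bw w p (r + n) m) y := by
  have hU : Icc xa xb ⊆ Icc lo hi := by
    intro z hz
    simp only [mem_Icc] at hz ⊢
    omega
  have e : pull (Icc lo hi) (kf w p r n) (bw w p (r + n) m) y =
      pull (Icc xa xb) (kf w p r n) (bw w p (r + n) m) y +
        pull (Icc lo hi \ Icc xa xb) (kf w p r n) (bw w p (r + n) m) y := by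
    unfold pull
    rw [← sum_sdiff hU, add_comm]
  rw [bw_kf r (lo := lo) (hi := hi) n m y (hlo.trans h1) (by omega), e]
  have key := pull_rank (TP_kf hw hp r n ya yb) (Icc xa xb) (xa := xa) (xb := xb) (fun x hx => by
      rw [mem_Icc] at hx
      exact ⟨⟨by omega, by omega⟩, hx.1, hx.2⟩) (bw w p (r + n) m) (fun x _ => (bw_pos hw hp m (r + n) x).le)
    (ya := ya) (y := y) (yb := yb) ⟨le_rfl, by omega⟩ ⟨h1, h2⟩ ⟨by omega, le_rfl⟩ ⟨h3, by omega⟩ ⟨by omega, h5⟩ h1 h2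
  have n0 : 0 ≤ (∑ x ∈ Icc xa xb, kf w p r n ya x / kf w p r n ya xa * bw w p (r + n) m x) * kf w p r n y xa :=
    mul_nonneg (sum_nonneg fun x _ => mul_nonneg (div_nonneg (kf_nonneg hw hp _ _ _ _) (kf_nonneg hw hp _ _ _ _))
      (bw_pos hw hp m (r + n) x).le) (kf_nonneg hw hp _ _ _ _)
  have m1 := mul_le_mul_of_nonneg_right c n0
  constructor
  · linarith [key.1]
  · linarith [key.2]

/-! ### Constant weights -/

theorem fw_cst {w : ℕ → ℤ → ℝ} {p : ℕ → ℝ} {c : ℝ} {l : ℤ → ℝ} : ∀ (n : ℕ), (∀ k < n, p k = c) → ∀ x : ℤ,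
    fw w p l n x = K91.fw w c l n x
  | 0, _, _ => rfl
  | n + 1, h, x => by
    rw [fw_succ, K91.fw_succ, fw_cst n (fun k hk => h k (by omega)) x, fw_cst n (fun k hk => h k (by omega)) (x - 1),
      h n (by omega)]

/-- **On rows with a constant weight the kernel is the one of Rank26B.** -/
theorem kf_cst {w : ℕ → ℤ → ℝ} {p : ℕ → ℝ} {c : ℝ} {r n : ℕ} (h : ∀ k < n, p (r + k) = c) (y x : ℤ) :
    kf w p r n y x = R26.kf w c r n y x := by
  unfold kf R26.kf
  exact fw_cst n h x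

/-- The same cross ratios. -/
theorem CR_cst {w : ℕ → ℤ → ℝ} {p : ℕ → ℝ} {c : ℝ} {r n : ℕ} (h : ∀ k < n, p (r + k) = c) (y y' x x' : ℤ) :
    CR (kf w p r n) y y' x x' = CR (R26.kf w c r n) y y' x x' := by
  unfold CR
  rw [kf_cst h, kf_cst h, kf_cst h, kf_cst h]

end

end Pool.Agent.W_7d29a1_C1.R26P
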