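import Pool.Agent.W_7d29a1_C1.KerP16
import Pool.Agent.W_7d29a1_C1.PairP91

/-!
MP_7d29a1_pr, [C1] attractor route, SEP, leaf S3: THE SINGLE PATH LAYER. (helper22)

Two environments `w`, `w'` of the model K91P (step weights `p k`) which are equal off a set `B` of sites of the rows `a ≤ i < b`
(a window of a slab). Everything below is deterministic.

* `bf` : backward masses with a final weight; `bf_ker`, `bf_bw`;
* `step_sum`, `sum_fw_har` : the sum of forward times backward masses does not depend on the row;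
* `kw B w` : the weights `w` killed on `B`; `kill_sum` : what is lost row by row; `kill_le` : the routes through `B` which reach a
  terminal set of small quenched probability from every site of `B` are a small part of the total mass;
* `row_le` : an inequality `bw w' ≤ C bw w` on the row `a` holds on all rows `≤ a`; `Zt_le`, `pass_le`, `P1_le` (`P_X` through a set
  of sites of a row `≤ a`), `mt_le`, `early_le` (pairs which met before the row `k ≤ a`), `pc_le` (weight of one contact of the rows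
  `< a`);
* `far_up`, `far_low` : the probability of a terminal set of a row `e ≥ b`, for routes which pass `B` with small probability only:
  real slack, both directions;
* `off_le` : the probability to miss a lucky tube.
-/

set_option autoImplicit false

namespace Pool.Agent.W_7d29a1_C1.Sp22

open Finset
open Pool.Agent.W_7d29a1_C1.K91 (Grp Box sum_shift ps2 wt wt_pos)
open Pool.Agent.W_7d29a1_C1.K91P (fw bw fw_zero fw_succ bw_zero bw_succ fw_nonneg bw_pos fw_lo fw_hi fw_congr bw_congr dp dp_nonneg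
  nm mt nm_nonneg nm_total nm_step nm_zero)
open Pool.Agent.W_7d29a1_C1.U16 (ker ker_zero ker_succ ker_nonneg ker_eq_zero)

noncomputable section

variable {w w' : ℕ → ℤ → ℝ} {p : ℕ → ℝ} {m : ℤ → ℝ} {lo hi : ℤ} {N : ℕ}

/-! ### Backward masses with a final weight -/

/-- Backward masses: `j` rows from the row `k` on, then the weight `f`. -/
def bf (w : ℕ → ℤ → ℝ) (p : ℕ → ℝ) (f : ℤ → ℝ) : ℕ → ℕ → ℤ → ℝ
  | _, 0, y => f y
  | k, j + 1, y => w k y * (bf w p f (k + 1) j y + p k * bf w p f (k + 1) j (y + 1))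

theorem bf_zero (f : ℤ → ℝ) (k : ℕ) (y : ℤ) : bf w p f k 0 y = f y := by
  cases k <;> rfl

theorem bf_succ (f : ℤ → ℝ) (k j : ℕ) (y : ℤ) :
    bf w p f k (j + 1) y = w k y * (bf w p f (k + 1) j y + p k * bf w p f (k + 1) j (y + 1)) := by
  cases k <;> rfl

/-- The final weight `bw` gives the backward masses. -/
theorem bf_bw (n : ℕ) : ∀ (j k : ℕ) (y : ℤ), bf w p (bw w p (k + j) n) k j y = bw w p k (j + n) y
  | 0, k, y => by rw [bf_zero, Nat.add_zero, Nat.zero_add]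
  | j + 1, k, y => by
    have e1 : k + (j + 1) = k + 1 + j := by ring
    have e2 : j + 1 + n = j + n + 1 := by ring
    rw [bf_succ, e1, bf_bw n j (k + 1) y, bf_bw n j (k + 1) (y + 1), e2, bw_succ]

theorem bf_nonneg (hw : ∀ k y, 0 ≤ w k y) (hp : ∀ k, 0 < p k) {f : ℤ → ℝ} (hf : ∀ y, 0 ≤ f y) : ∀ (j k : ℕ) (y : ℤ), 0 ≤ bf w p f k j y
  | 0, k, y => by rw [bf_zero]; exact hf y
  | j + 1, k, y => by
    rw [bf_succ]
    have h1 := bf_nonneg hw hp hf j (k + 1) y
    have h2 := bf_nonneg hw hp hf j (k + 1) (y + 1)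
    have h3 := hw k y
    have h4 := hp k
    positivity

theorem bf_mono (hw : ∀ k y, 0 ≤ w k y) (hp : ∀ k, 0 < p k) {f g : ℤ → ℝ} (hf : ∀ y, f y ≤ g y) :
    ∀ (j k : ℕ) (y : ℤ), bf w p f k j y ≤ bf w p g k j y
  | 0, k, y => by rw [bf_zero, bf_zero]; exact hf y
  | j + 1, k, y => by
    rw [bf_succ, bf_succ]
    have h1 := bf_mono hw hp hf j (k + 1) y
    have h2 := bf_mono hw hp hf j (k + 1) (y + 1)
    have h3 := mul_le_mul_of_nonneg_left h2 (hp k).le
    exact mul_le_mul_of_nonneg_left (add_le_add h1 h3) (hw k y)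

theorem bf_smul (c : ℝ) (f : ℤ → ℝ) : ∀ (j k : ℕ) (y : ℤ), bf w p (fun y => c * f y) k j y = c * bf w p f k j y
  | 0, k, y => by rw [bf_zero, bf_zero]
  | j + 1, k, y => by
    rw [bf_succ, bf_succ, bf_smul c f j (k + 1) y, bf_smul c f j (k + 1) (y + 1)]
    ring

/-- Only the rows `k, .., k + j - 1` are read. -/
theorem bf_congr (f : ℤ → ℝ) : ∀ (j k : ℕ) (y : ℤ), (∀ i, k ≤ i → i < k + j → w i = w' i) → bf w p f k j y = bf w' p f k j y
  | 0, k, y, _ => by rw [bf_zero, bf_zero]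
  | j + 1, k, y, h => by
    have h1 : ∀ i, k + 1 ≤ i → i < k + 1 + j → w i = w' i := fun i hi hi' => h i (by omega) (by omega)
    rw [bf_succ, bf_succ, bf_congr f j (k + 1) y h1, bf_congr f j (k + 1) (y + 1) h1, h k le_rfl (by omega)]

/-- First step of the kernel. -/
theorem ker_back (k : ℕ) : ∀ (n : ℕ) (x y : ℤ),
    ker w p k (n + 1) x y = w k x * (ker w p (k + 1) n x y + p k * ker w p (k + 1) n (x + 1) y)
  | 0, x, y => by
    rw [ker_succ, ker_zero, ker_zero, ker_zero, ker_zero, Nat.add_zero]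
    by_cases h1 : y = x
    · rw [if_pos h1, if_neg (show ¬ y - 1 = x by omega), if_neg (show ¬ y = x + 1 by omega), h1]
      ring
    · by_cases h2 : y = x + 1
      · rw [if_neg h1, if_pos (show y - 1 = x by omega), if_pos h2, show y - 1 = x by omega]
        ring
      · rw [if_neg h1, if_neg (show ¬ y - 1 = x by omega), if_neg h2]
        ring
  | n + 1, x, y => by
    have e : k + (n + 1) = k + 1 + n := by ring
    rw [ker_succ k (n + 1) x y, ker_back k n x y, ker_back k n x (y - 1), ker_succ (k + 1) n x y, ker_succ (k + 1) n (x + 1) y, e]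
    ring

/-- The backward masses are a sum over the kernel. -/
theorem bf_ker (f : ℤ → ℝ) : ∀ (j k : ℕ) (x : ℤ), bf w p f k j x = ∑ y ∈ Icc x (x + j), ker w p k j x y * f y
  | 0, k, x => by
    have e : Icc x (x + ((0 : ℕ) : ℤ)) = {x} := by simp
    rw [bf_zero, e, sum_singleton, ker_zero, if_pos rfl, one_mul]
  | j + 1, k, x => by
    rw [bf_succ, bf_ker f j (k + 1) x, bf_ker f j (k + 1) (x + 1)]
    have h1 : ∑ y ∈ Icc x (x + (j : ℤ)), ker w p (k + 1) j x y * f y =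
        ∑ y ∈ Icc x (x + ((j + 1 : ℕ) : ℤ)), ker w p (k + 1) j x y * f y := by
      refine sum_subset (Icc_subset_Icc le_rfl (by push_cast; omega)) fun y hy hy' => ?_
      rw [mem_Icc] at hy hy'
      rw [ker_eq_zero (k + 1) j x y (fun h => hy' h), zero_mul]
    have h2 : ∑ y ∈ Icc (x + 1) (x + 1 + (j : ℤ)), ker w p (k + 1) j (x + 1) y * f y =
        ∑ y ∈ Icc x (x + ((j + 1 : ℕ) : ℤ)), ker w p (k + 1) j (x + 1) y * f y := by
      refine sum_subset (Icc_subset_Icc (by omega) (by push_cast; omega)) fun y hy hy' => ?_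
      rw [mem_Icc] at hy hy'
      rw [ker_eq_zero (k + 1) j (x + 1) y (fun h => hy' h), zero_mul]
    rw [h1, h2, mul_sum, ← sum_add_distrib, mul_sum]
    refine sum_congr rfl fun y _ => ?_
    rw [ker_back]
    ring

/-! ### Sums over a row -/

/-- The masses of a group: nonnegative, on `lo ≤ y ≤ hi - N`. -/
structure Ms (m : ℤ → ℝ) (lo hi : ℤ) (N : ℕ) : Prop where
  nn : ∀ y, 0 ≤ m y
  lo0 : ∀ y, y < lo → m y = 0
  hi0 : ∀ y, hi - N < y → m y = 0

theorem Ms.left {l r : ℤ → ℝ} {X : ℤ} (h : Box l r X lo hi N) : Ms l lo hi N :=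
  ⟨h.g.l0, fun y hy => (h.lo0 y hy).1, fun y hy => (h.hi0 y hy).1⟩

theorem Ms.right {l r : ℤ → ℝ} {X : ℤ} (h : Box l r X lo hi N) : Ms r lo hi N :=
  ⟨h.g.r0, fun y hy => (h.lo0 y hy).2, fun y hy => (h.hi0 y hy).2⟩

theorem fw_nn (hw : ∀ k y, 0 ≤ w k y) (hp : ∀ k, 0 < p k) (hm : ∀ y, 0 ≤ m y) : ∀ k y, 0 ≤ fw w p m k y
  | 0, y => hm y
  | k + 1, y => by
    rw [fw_succ]
    have h1 := fw_nn hw hp hm k y
    have h2 := fw_nn hw hp hm k (y - 1)
    have h3 := hw k y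
    have h4 := hw k (y - 1)
    have h5 := hp k
    positivity

theorem fw_mono (hw : ∀ k y, 0 ≤ w k y) (hww : ∀ k y, w k y ≤ w' k y) (hp : ∀ k, 0 < p k) (hm : ∀ y, 0 ≤ m y) :
    ∀ k y, fw w p m k y ≤ fw w' p m k y
  | 0, _ => le_rfl
  | k + 1, y => by
    rw [fw_succ, fw_succ]
    have h1 := fw_mono hw hww hp hm k y
    have h2 := fw_mono hw hww hp hm k (y - 1)
    have h3 := fw_nn hw hp hm k y
    have h4 := fw_nn hw hp hm k (y - 1)
    have h5 := mul_le_mul (hww k y) h1 h3 ((hw k y).trans (hww k y))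
    have h6 := mul_le_mul (hww k (y - 1)) h2 h4 ((hw k (y - 1)).trans (hww k (y - 1)))
    exact add_le_add h5 (mul_le_mul_of_nonneg_left h6 (hp k).le)

theorem fw_out (h : Ms m lo hi N) {k : ℕ} {y : ℤ} (hy : ¬ (lo ≤ y ∧ y ≤ hi - N + k)) : fw w p m k y = 0 := by
  by_cases h1 : lo ≤ y
  · exact fw_hi h.hi0 k y (by omega)
  · exact fw_lo h.lo0 k y (by omega)

/-- One row: the sum of the forward masses against any function `G` of the next row. -/
theorem step_sum (h : Ms m lo hi N) {k : ℕ} (hk : k < N) (G : ℤ → ℝ) :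
    ∑ y ∈ Icc lo hi, fw w p m (k + 1) y * G y = ∑ y ∈ Icc lo hi, fw w p m k y * (w k y * (G y + p k * G (y + 1))) := by
  rcases lt_or_ge hi lo with hlh | hlh
  · rw [Icc_eq_empty (by omega)]
    simp
  · have e1 : ∀ y ∈ Icc lo hi, fw w p m (k + 1) y * G y = w k y * fw w p m k y * G y +
        (fun z => p k * (w k z * fw w p m k z) * G (z + 1)) (y - 1) := by
      intro y _
      show _ = _ + p k * (w k (y - 1) * fw w p m k (y - 1)) * G (y - 1 + 1)
      rw [fw_succ, sub_add_cancel]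
      ring
    rw [sum_congr rfl e1, sum_add_distrib, sum_shift (f := fun z => p k * (w k z * fw w p m k z) * G (z + 1)) hlh ?_ ?_,
      ← sum_add_distrib]
    · refine sum_congr rfl fun y _ => ?_
      show w k y * fw w p m k y * G y + p k * (w k y * fw w p m k y) * G (y + 1) = _
      ring
    · show p k * (w k (lo - 1) * fw w p m k (lo - 1)) * G (lo - 1 + 1) = 0
      rw [fw_out h (fun h1 => by omega)]
      ring
    · show p k * (w k hi * fw w p m k hi) * G (hi + 1) = 0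
      rw [fw_out h (fun h1 => by omega)]
      ring

/-- `G` is harmonic on the rows `< e`. -/
def Har (w : ℕ → ℤ → ℝ) (p : ℕ → ℝ) (e : ℕ) (G : ℕ → ℤ → ℝ) : Prop :=
  ∀ k, k < e → ∀ y, G k y = w k y * (G (k + 1) y + p k * G (k + 1) (y + 1))

theorem har_bw (w : ℕ → ℤ → ℝ) (p : ℕ → ℝ) (N : ℕ) : Har w p N (fun k y => bw w p k (N - k) y) := by
  intro k hk y
  have e : N - k = N - (k + 1) + 1 := by omega
  show bw w p k (N - k) y = w k y * (bw w p (k + 1) (N - (k + 1)) y + p k * bw w p (k + 1) (N - (k + 1)) (y + 1))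
  rw [e, bw_succ]

theorem har_bf (w : ℕ → ℤ → ℝ) (p : ℕ → ℝ) (f : ℤ → ℝ) (e : ℕ) : Har w p e (fun k y => bf w p f k (e - k) y) := by
  intro k hk y
  have e1 : e - k = e - (k + 1) + 1 := by omega
  show bf w p f k (e - k) y = w k y * (bf w p f (k + 1) (e - (k + 1)) y + p k * bf w p f (k + 1) (e - (k + 1)) (y + 1))
  rw [e1, bf_succ]

/-! ### Killed weights -/

open Classical in
/-- The weights killed on the set `B` of sites. -/
def kw (B : Set (ℕ × ℤ)) (w : ℕ → ℤ → ℝ) (k : ℕ) (y : ℤ) : ℝ := if (k, y) ∈ B then 0 else w k y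

theorem kw_nn (hw : ∀ k y, 0 ≤ w k y) (B : Set (ℕ × ℤ)) (k : ℕ) (y : ℤ) : 0 ≤ kw B w k y := by
  unfold kw
  split_ifs
  · exact le_rfl
  · exact hw k y

theorem kw_le (hw : ∀ k y, 0 ≤ w k y) (B : Set (ℕ × ℤ)) (k : ℕ) (y : ℤ) : kw B w k y ≤ w k y := by
  unfold kw
  split_ifs
  · exact hw k y
  · exact le_rfl

/-- Two environments which are equal off `B` have the same killed weights. -/
theorem kw_eq {B : Set (ℕ × ℤ)} (h : ∀ k y, (k, y) ∉ B → w k y = w' k y) : kw B w = kw B w' := by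
  funext k y
  unfold kw
  split_ifs with h1
  · rfl
  · exact h k y h1

open Classical in
/-- **What is lost on `B`**, row by row. -/
theorem kill_step (h : Ms m lo hi N) {B : Set (ℕ × ℤ)} {e : ℕ} {G : ℕ → ℤ → ℝ} (hG : Har w p e G) {k : ℕ} (hk : k < e) (hk' : k < N) :
    ∑ y ∈ Icc lo hi, fw (kw B w) p m k y * G k y = ∑ y ∈ Icc lo hi, fw (kw B w) p m (k + 1) y * G (k + 1) y +
      ∑ y ∈ (Icc lo hi).filter (fun y => (k, y) ∈ B), fw (kw B w) p m k y * G k y := by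
  rw [step_sum h hk', sum_filter, ← sum_add_distrib]
  refine sum_congr rfl fun y _ => ?_
  unfold kw
  by_cases h1 : (k, y) ∈ B
  · rw [if_pos h1, if_pos h1]
    ring
  · rw [if_neg h1, if_neg h1, hG k hk y, add_zero]

open Classical in
theorem kill_sum (h : Ms m lo hi N) {B : Set (ℕ × ℤ)} {e : ℕ} {G : ℕ → ℤ → ℝ} (hG : Har w p e G) (he : e ≤ N) : ∀ k, k ≤ e →
    ∑ y ∈ Icc lo hi, m y * G 0 y = ∑ y ∈ Icc lo hi, fw (kw B w) p m k y * G k y +
      ∑ i ∈ range k, ∑ y ∈ (Icc lo hi).filter (fun y => (i, y) ∈ B), fw (kw B w) p m i y * G i y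
  | 0, _ => by rw [sum_range_zero, add_zero]; rfl
  | k + 1, hk => by
    rw [kill_sum h hG he k (by omega), kill_step h hG (show k < e by omega) (show k < N by omega), sum_range_succ]
    ring

/-- The sum of forward times backward masses does not depend on the row. -/
theorem sum_fw_har (h : Ms m lo hi N) {e : ℕ} {G : ℕ → ℤ → ℝ} (hG : Har w p e G) (he : e ≤ N) {k : ℕ} (hk : k ≤ e) :
    ∑ y ∈ Icc lo hi, fw w p m k y * G k y = ∑ y ∈ Icc lo hi, m y * G 0 y := by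
  have h1 := kill_sum (B := ∅) h hG he k hk
  have h2 : kw ∅ w = w := by
    funext i y
    unfold kw
    rw [if_neg (Set.notMem_empty _)]
  rw [h2] at h1
  refine (h1.trans ?_).symm
  rw [add_eq_left]
  exact sum_eq_zero fun i _ => sum_eq_zero fun y hy => by simp at hy

/-- The total mass of the group. -/
def Zt (w : ℕ → ℤ → ℝ) (p : ℕ → ℝ) (m : ℤ → ℝ) (lo hi : ℤ) (N : ℕ) : ℝ := ∑ x ∈ Icc lo hi, m x * bw w p 0 N x

/-- The mass of the routes through the set `S` of sites of the row `k`. -/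
def Ps (w : ℕ → ℤ → ℝ) (p : ℕ → ℝ) (m : ℤ → ℝ) (N k : ℕ) (S : Finset ℤ) : ℝ := ∑ y ∈ S, fw w p m k y * bw w p k (N - k) y

/-- Total mass, row `k`. -/
theorem Zt_row (h : Ms m lo hi N) {k : ℕ} (hk : k ≤ N) : ∑ y ∈ Icc lo hi, fw w p m k y * bw w p k (N - k) y = Zt w p m lo hi N :=
  sum_fw_har h (har_bw w p N) le_rfl hk

theorem Ps_all (h : Ms m lo hi N) {k : ℕ} (hk : k ≤ N) : Ps w p m N k (Icc lo hi) = Zt w p m lo hi N := Zt_row h hk

theorem Ps_nonneg (hw : ∀ k y, 0 < w k y) (hp : ∀ k, 0 < p k) (hm : ∀ y, 0 ≤ m y) (N k : ℕ) (S : Finset ℤ) : 0 ≤ Ps w p m N k S :=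
  sum_nonneg fun y _ => mul_nonneg (fw_nonneg hw hp hm k y) (bw_pos hw hp _ _ _).le

theorem Ps_le_Zt (hw : ∀ k y, 0 < w k y) (hp : ∀ k, 0 < p k) (h : Ms m lo hi N) {k : ℕ} (hk : k ≤ N) (S : Finset ℤ) :
    Ps w p m N k S ≤ Zt w p m lo hi N := by
  classical
  rw [← Zt_row h hk]
  have h1 : Ps w p m N k S = Ps w p m N k (S.filter (fun y => y ∈ Icc lo hi)) := by
    unfold Ps
    rw [sum_filter]
    refine sum_congr rfl fun y _ => ?_
    by_cases hy : y ∈ Icc lo hi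
    · rw [if_pos hy]
    · have hkN : (k : ℤ) ≤ N := by exact_mod_cast hk
      rw [if_neg hy, fw_out h (fun h2 => hy (mem_Icc.2 ⟨h2.1, by omega⟩)), zero_mul]
  rw [h1]
  exact sum_le_sum_of_subset_of_nonneg (fun y hy => (mem_filter.1 hy).2) fun y _ _ =>
    mul_nonneg (fw_nonneg hw hp h.nn k y) (bw_pos hw hp _ _ _).le

theorem Zt_pos (hw : ∀ k y, 0 < w k y) (hp : ∀ k, 0 < p k) (h : Ms m lo hi N) (hm : ∃ y, 0 < m y) : 0 < Zt w p m lo hi N := by
  obtain ⟨y, hy⟩ := hm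
  have h1 : y ∈ Icc lo hi := by
    rw [mem_Icc]
    constructor
    · by_contra hc
      rw [h.lo0 y (by omega)] at hy
      exact lt_irrefl _ hy
    · by_contra hc
      rw [h.hi0 y (by omega)] at hy
      exact lt_irrefl _ hy
  exact sum_pos' (fun x _ => mul_nonneg (h.nn x) (bw_pos hw hp _ _ _).le) ⟨y, h1, mul_pos hy (bw_pos hw hp _ _ _)⟩

/-! ### Routes through `B` -/

/-- **Routes through `B` to a terminal weight.** If from every site of `B` (rows `< e`) the terminal weight `f` at the row `e` is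
reached by a part `st` of the routes only, then the routes which pass `B` and reach `f` are at most a part `st` of the routes which
pass `B`. -/
theorem kill_le (hw : ∀ k y, 0 < w k y) (hp : ∀ k, 0 < p k) (h : Ms m lo hi N) {B : Set (ℕ × ℤ)} {e : ℕ} (he : e ≤ N) {f : ℤ → ℝ} {st : ℝ}
    (hst : ∀ i x, i < e → (i, x) ∈ B → bf w p f i (e - i) x ≤ st * bw w p i (N - i) x) :
    ∑ y ∈ Icc lo hi, fw w p m e y * f y - ∑ y ∈ Icc lo hi, fw (kw B w) p m e y * f y ≤
      st * (Zt w p m lo hi N - ∑ y ∈ Icc lo hi, fw (kw B w) p m e y * bw w p e (N - e) y) := by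
  classical
  have hw0 : ∀ k y, 0 ≤ w k y := fun k y => (hw k y).le
  have h1 := kill_sum (B := B) h (har_bf w p f e) he e le_rfl
  have h2 := sum_fw_har h (har_bf w p f e) he (le_refl e)
  have h3 := kill_sum (B := B) h (har_bw w p N) le_rfl e he
  simp only [Nat.sub_self, bf_zero] at h1 h2
  rw [← h2] at h1
  have h4 : Zt w p m lo hi N - ∑ y ∈ Icc lo hi, fw (kw B w) p m e y * bw w p e (N - e) y =
      ∑ i ∈ range e, ∑ y ∈ (Icc lo hi).filter (fun y => (i, y) ∈ B), fw (kw B w) p m i y * bw w p i (N - i) y := by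
    unfold Zt
    rw [Nat.sub_zero] at h3
    rw [h3]
    ring
  have h5 : ∑ y ∈ Icc lo hi, fw w p m e y * f y - ∑ y ∈ Icc lo hi, fw (kw B w) p m e y * f y =
      ∑ i ∈ range e, ∑ y ∈ (Icc lo hi).filter (fun y => (i, y) ∈ B), fw (kw B w) p m i y * bf w p f i (e - i) y := by
    rw [h1]
    ring
  rw [h4, h5, mul_sum]
  refine sum_le_sum fun i hi' => ?_
  rw [mul_sum]
  refine sum_le_sum fun y hy => ?_
  have h6 := hst i y (mem_range.1 hi') (mem_filter.1 hy).2
  have h7 := fw_nn (kw_nn hw0 B) hp h.nn i y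
  calc fw (kw B w) p m i y * bf w p f i (e - i) y ≤ fw (kw B w) p m i y * (st * bw w p i (N - i) y) :=
        mul_le_mul_of_nonneg_left h6 h7
    _ = st * (fw (kw B w) p m i y * bw w p i (N - i) y) := by ring

/-- The same against the total mass. -/
theorem kill_le' (hw : ∀ k y, 0 < w k y) (hp : ∀ k, 0 < p k) (h : Ms m lo hi N) {B : Set (ℕ × ℤ)} {e : ℕ} (he : e ≤ N) {f : ℤ → ℝ} {st : ℝ}
    (hs0 : 0 ≤ st) (hst : ∀ i x, i < e → (i, x) ∈ B → bf w p f i (e - i) x ≤ st * bw w p i (N - i) x) :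
    ∑ y ∈ Icc lo hi, fw w p m e y * f y ≤ ∑ y ∈ Icc lo hi, fw (kw B w) p m e y * f y + st * Zt w p m lo hi N := by
  have h1 := kill_le hw hp h he hst
  have h2 : 0 ≤ ∑ y ∈ Icc lo hi, fw (kw B w) p m e y * bw w p e (N - e) y :=
    sum_nonneg fun y _ => mul_nonneg (fw_nn (kw_nn (fun k y => (hw k y).le) B) hp h.nn e y) (bw_pos hw hp _ _ _).le
  nlinarith

/-! ### Rows before the window -/

/-- **A bound of the backward masses on the row `a` holds on all rows before.** -/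
theorem row_le (hw : ∀ k y, 0 < w k y) (hp : ∀ k, 0 < p k) {a : ℕ} (ha : a ≤ N) (heq : ∀ i, i < a → w i = w' i) {C : ℝ}
    (hC : ∀ x, bw w' p a (N - a) x ≤ C * bw w p a (N - a) x) {k : ℕ} (hk : k ≤ a) (x : ℤ) :
    bw w' p k (N - k) x ≤ C * bw w p k (N - k) x := by
  obtain ⟨j, rfl⟩ := Nat.exists_eq_add_of_le hk
  have e1 : N - k = j + (N - (k + j)) := by omega
  rw [e1, ← bf_bw, ← bf_bw, ← bf_smul]
  have h1 : bf w' p (bw w' p (k + j) (N - (k + j))) k j x = bf w p (bw w' p (k + j) (N - (k + j))) k j x :=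
    bf_congr _ j k x fun i _ hi' => (heq i hi').symm
  rw [h1]
  exact bf_mono (fun k y => (hw k y).le) hp hC j k x

section Before

variable {a : ℕ} {C D : ℝ}

/-- The two environments: equal on the rows `< a`, backward masses of the row `a` comparable. -/
structure Spl (w w' : ℕ → ℤ → ℝ) (p : ℕ → ℝ) (N a : ℕ) (C D : ℝ) : Prop where
  hw : ∀ k y, 0 < w k y
  hw' : ∀ k y, 0 < w' k y
  hp : ∀ k, 0 < p k
  ha : a ≤ N
  eq : ∀ i, i < a → w i = w' i
  C0 : 0 < C
  D0 : 0 < D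
  up : ∀ x, bw w' p a (N - a) x ≤ C * bw w p a (N - a) x
  dn : ∀ x, bw w p a (N - a) x ≤ D * bw w' p a (N - a) x

theorem Spl.symm (S : Spl w w' p N a C D) : Spl w' w p N a D C :=
  ⟨S.hw', S.hw, S.hp, S.ha, fun i hi' => (S.eq i hi').symm, S.D0, S.C0, S.dn, S.up⟩

theorem Spl.row (S : Spl w w' p N a C D) {k : ℕ} (hk : k ≤ a) (x : ℤ) : bw w' p k (N - k) x ≤ C * bw w p k (N - k) x :=
  row_le S.hw S.hp S.ha S.eq S.up hk x

theorem Spl.Zt (S : Spl w w' p N a C D) (h : Ms m lo hi N) : Sp22.Zt w' p m lo hi N ≤ C * Sp22.Zt w p m lo hi N := by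
  unfold Sp22.Zt
  rw [mul_sum]
  refine sum_le_sum fun x _ => ?_
  have h1 := S.row (Nat.zero_le a) x
  simp only [Nat.sub_zero] at h1
  calc m x * bw w' p 0 N x ≤ m x * (C * bw w p 0 N x) := mul_le_mul_of_nonneg_left h1 (h.nn x)
    _ = C * (m x * bw w p 0 N x) := by ring

theorem Spl.fw (S : Spl w w' p N a C D) (m : ℤ → ℝ) {k : ℕ} (hk : k ≤ a) (y : ℤ) : K91P.fw w' p m k y = K91P.fw w p m k y :=
  fw_congr k (fun i hi' y => by rw [S.eq i (by omega)]) y

theorem Spl.Ps (S : Spl w w' p N a C D) (h : Ms m lo hi N) {k : ℕ} (hk : k ≤ a) (A : Finset ℤ) :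
    Sp22.Ps w' p m N k A ≤ C * Sp22.Ps w p m N k A := by
  unfold Sp22.Ps
  rw [mul_sum]
  refine sum_le_sum fun y _ => ?_
  rw [S.fw m hk y]
  calc K91P.fw w p m k y * bw w' p k (N - k) y ≤ K91P.fw w p m k y * (C * bw w p k (N - k) y) :=
        mul_le_mul_of_nonneg_left (S.row hk y) (fw_nonneg S.hw S.hp h.nn k y)
    _ = C * (K91P.fw w p m k y * bw w p k (N - k) y) := by ring

/-- **`P_X` of a set of sites of a row `≤ a`.** -/
theorem Spl.P1 (S : Spl w w' p N a C D) (h : Ms m lo hi N) (hm : ∃ y, 0 < m y) {k : ℕ} (hk : k ≤ a) (A : Finset ℤ) :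
    Sp22.Ps w' p m N k A / Sp22.Zt w' p m lo hi N ≤ C * D * (Sp22.Ps w p m N k A / Sp22.Zt w p m lo hi N) := by
  have z := Zt_pos S.hw S.hp h hm
  have z' := Zt_pos S.hw' S.hp h hm
  have h1 := S.Ps h hk A
  have h2 := S.symm.Zt h
  have h3 := Ps_nonneg S.hw S.hp h.nn N k A
  rw [div_le_iff₀ z']
  have e : C * D * (Sp22.Ps w p m N k A / Sp22.Zt w p m lo hi N) * Sp22.Zt w' p m lo hi N =
      C * Sp22.Ps w p m N k A * (D * Sp22.Zt w' p m lo hi N / Sp22.Zt w p m lo hi N) := by ring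
  rw [e]
  have h4 : 1 ≤ D * Sp22.Zt w' p m lo hi N / Sp22.Zt w p m lo hi N := by
    rw [le_div_iff₀ z, one_mul]
    exact h2
  have h5 : 0 ≤ C * Sp22.Ps w p m N k A := mul_nonneg S.C0.le h3
  calc Sp22.Ps w' p m N k A ≤ C * Sp22.Ps w p m N k A := h1
    _ = C * Sp22.Ps w p m N k A * 1 := (mul_one _).symm
    _ ≤ _ := mul_le_mul_of_nonneg_left h4 h5

variable {l r : ℤ → ℝ} {X : ℤ}

theorem Spl.dp (S : Spl w w' p N a C D) {k : ℕ} (hk : k ≤ a) (x y : ℤ) : K91P.dp w' p l r k x y = K91P.dp w p l r k x y := by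
  unfold K91P.dp
  rw [S.fw l hk, S.fw l hk, S.fw r hk, S.fw r hk]

/-- The mass of one contact of a row `< a`. -/
theorem Spl.con (S : Spl w w' p N a C D) (h : Box l r X lo hi N) {k : ℕ} (hk : k < a) (q : ℤ) :
    K91P.dp w' p l r k (q - 1) q * (p k * (w' k (q - 1) * w' k q) * bw w' p (k + 1) (N - (k + 1)) q ^ 2) ≤
      C ^ 2 * (K91P.dp w p l r k (q - 1) q * (p k * (w k (q - 1) * w k q) * bw w p (k + 1) (N - (k + 1)) q ^ 2)) := by
  rw [S.dp hk.le, ← S.eq k hk]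
  have h1 := S.row (show k + 1 ≤ a by omega) q
  have h2 := dp_nonneg S.hw S.hp h.g k (q - 1) q (by omega)
  have h3 := S.hw k (q - 1)
  have h4 := S.hw k q
  have h5 := S.hp k
  have h6 := (bw_pos S.hw' S.hp (N - (k + 1)) (k + 1) q).le
  have h7 : bw w' p (k + 1) (N - (k + 1)) q ^ 2 ≤ (C * bw w p (k + 1) (N - (k + 1)) q) ^ 2 := pow_le_pow_left₀ h6 h1 2
  calc K91P.dp w p l r k (q - 1) q * (p k * (w k (q - 1) * w k q) * bw w' p (k + 1) (N - (k + 1)) q ^ 2)
      ≤ K91P.dp w p l r k (q - 1) q * (p k * (w k (q - 1) * w k q) * (C * bw w p (k + 1) (N - (k + 1)) q) ^ 2) :=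
        mul_le_mul_of_nonneg_left (mul_le_mul_of_nonneg_left h7 (by positivity)) h2
    _ = _ := by ring

/-- The pairs which meet at a row `≤ a`. -/
theorem Spl.mt (S : Spl w w' p N a C D) (h : Box l r X lo hi N) {k : ℕ} (hk : k < a) :
    K91P.mt w' p l r lo hi N k ≤ C ^ 2 * K91P.mt w p l r lo hi N k := by
  unfold K91P.mt
  rw [mul_sum]
  exact sum_le_sum fun q _ => S.con h hk q

/-- A mass of pairs divided by the product of the totals. -/
theorem Spl.ratio (S : Spl w w' p N a C D) (hl : Ms l lo hi N) (hr : Ms r lo hi N) (hlp : ∃ y, 0 < l y) (hrp : ∃ y, 0 < r y)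
    {A A' : ℝ} (hA : 0 ≤ A) (h1 : A' ≤ C ^ 2 * A) :
    A' / (Sp22.Zt w' p l lo hi N * Sp22.Zt w' p r lo hi N) ≤ (C * D) ^ 2 * (A / (Sp22.Zt w p l lo hi N * Sp22.Zt w p r lo hi N)) := by
  have zl := Zt_pos S.hw S.hp hl hlp
  have zr := Zt_pos S.hw S.hp hr hrp
  have zl' := Zt_pos S.hw' S.hp hl hlp
  have zr' := Zt_pos S.hw' S.hp hr hrp
  have h2 := S.symm.Zt hl
  have h3 := S.symm.Zt hr
  have hD := S.D0
  have h4 : Sp22.Zt w p l lo hi N * Sp22.Zt w p r lo hi N ≤ D ^ 2 * (Sp22.Zt w' p l lo hi N * Sp22.Zt w' p r lo hi N) := by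
    calc Sp22.Zt w p l lo hi N * Sp22.Zt w p r lo hi N ≤ (D * Sp22.Zt w' p l lo hi N) * (D * Sp22.Zt w' p r lo hi N) :=
          mul_le_mul h2 h3 zr.le (by positivity)
      _ = _ := by ring
  rw [div_le_iff₀ (mul_pos zl' zr')]
  have e : (C * D) ^ 2 * (A / (Sp22.Zt w p l lo hi N * Sp22.Zt w p r lo hi N)) * (Sp22.Zt w' p l lo hi N * Sp22.Zt w' p r lo hi N) =
      C ^ 2 * A * (D ^ 2 * (Sp22.Zt w' p l lo hi N * Sp22.Zt w' p r lo hi N) / (Sp22.Zt w p l lo hi N * Sp22.Zt w p r lo hi N)) := by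
    ring
  rw [e]
  have h5 : 1 ≤ D ^ 2 * (Sp22.Zt w' p l lo hi N * Sp22.Zt w' p r lo hi N) / (Sp22.Zt w p l lo hi N * Sp22.Zt w p r lo hi N) := by
    rw [le_div_iff₀ (mul_pos zl zr), one_mul]
    exact h4
  calc A' ≤ C ^ 2 * A * 1 := by rw [mul_one]; exact h1
    _ ≤ _ := mul_le_mul_of_nonneg_left h5 (mul_nonneg (sq_nonneg C) hA)

theorem mt_nonneg (hw : ∀ k y, 0 < w k y) (hp : ∀ k, 0 < p k) (h : Grp l r X) (k : ℕ) : 0 ≤ K91P.mt w p l r lo hi N k := by
  unfold K91P.mt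
  refine sum_nonneg fun q _ => mul_nonneg (dp_nonneg hw hp h k (q - 1) q (by omega)) ?_
  have h3 := hw k (q - 1)
  have h4 := hw k q
  have h5 := hp k
  positivity

/-- The probability that the pairs have met at a row `≤ k` (they meet at the row `i + 1`, `i < k`). -/
def met (w : ℕ → ℤ → ℝ) (p : ℕ → ℝ) (l r : ℤ → ℝ) (lo hi : ℤ) (N k : ℕ) : ℝ :=
  (∑ i ∈ range k, K91P.mt w p l r lo hi N i) / (Sp22.Zt w p l lo hi N * Sp22.Zt w p r lo hi N)

/-- `met` is one minus the probability not to have met. -/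
theorem met_eq (hw : ∀ k y, 0 < w k y) (hp : ∀ k, 0 < p k) (h : Box l r X lo hi N) (hlp : ∃ y, 0 < l y) (hrp : ∃ y, 0 < r y) {k : ℕ}
    (hk : k ≤ N) : met w p l r lo hi N k = 1 - nm w p l r lo hi N k / (Sp22.Zt w p l lo hi N * Sp22.Zt w p r lo hi N) := by
  have zl := Zt_pos hw hp (Ms.left h) hlp
  have zr := Zt_pos hw hp (Ms.right h) hrp
  have h1 := nm_total (w := w) (p := p) h k hk
  have h2 : Sp22.Zt w p l lo hi N * Sp22.Zt w p r lo hi N = nm w p l r lo hi N k + ∑ i ∈ range k, K91P.mt w p l r lo hi N i := h1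
  unfold met
  rw [eq_sub_iff_add_eq, ← add_div, div_eq_one_iff_eq (mul_pos zl zr).ne', add_comm]
  exact h2.symm

theorem met_mono (hw : ∀ k y, 0 < w k y) (hp : ∀ k, 0 < p k) (h : Box l r X lo hi N) (hlp : ∃ y, 0 < l y) (hrp : ∃ y, 0 < r y) {k k' : ℕ}
    (hk : k ≤ k') : met w p l r lo hi N k ≤ met w p l r lo hi N k' := by
  have zl := Zt_pos hw hp (Ms.left h) hlp
  have zr := Zt_pos hw hp (Ms.right h) hrp
  exact div_le_div_of_nonneg_right (sum_le_sum_of_subset_of_nonneg (range_mono hk) fun i _ _ => mt_nonneg hw hp h.g i) (mul_pos zl zr).le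

/-- **EARLY MASSES**: pairs which met at a row `≤ k`, `k ≤ a`. -/
theorem Spl.met (S : Spl w w' p N a C D) (h : Box l r X lo hi N) (hlp : ∃ y, 0 < l y) (hrp : ∃ y, 0 < r y) {k : ℕ} (hk : k ≤ a) :
    Sp22.met w' p l r lo hi N k ≤ (C * D) ^ 2 * Sp22.met w p l r lo hi N k := by
  refine S.ratio (Ms.left h) (Ms.right h) hlp hrp (sum_nonneg fun i _ => mt_nonneg S.hw S.hp h.g i) ?_
  rw [mul_sum]
  exact sum_le_sum fun i hi' => S.mt h (lt_of_lt_of_le (mem_range.1 hi') hk)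

/-- The weight of the contact `q` of the row `k` (`Cx.w` of Ctx60): the first meeting is at the site `q` of the row `k + 1`. -/
def pc (w : ℕ → ℤ → ℝ) (p : ℕ → ℝ) (l r : ℤ → ℝ) (lo hi : ℤ) (N k : ℕ) (q : ℤ) : ℝ :=
  K91P.dp w p l r k (q - 1) q * (p k * (w k (q - 1) * w k q) * bw w p (k + 1) (N - (k + 1)) q ^ 2) /
    (Sp22.Zt w p l lo hi N * Sp22.Zt w p r lo hi N)

theorem pc_nonneg (hw : ∀ k y, 0 < w k y) (hp : ∀ k, 0 < p k) (h : Box l r X lo hi N) (hlp : ∃ y, 0 < l y) (hrp : ∃ y, 0 < r y)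
    (k : ℕ) (q : ℤ) : 0 ≤ pc w p l r lo hi N k q := by
  have zl := Zt_pos hw hp (Ms.left h) hlp
  have zr := Zt_pos hw hp (Ms.right h) hrp
  have h3 := hw k (q - 1)
  have h4 := hw k q
  have h5 := hp k
  exact div_nonneg (mul_nonneg (dp_nonneg hw hp h.g k (q - 1) q (by omega)) (by positivity)) (mul_pos zl zr).le

/-- **WEIGHT OF A CONTACT** of a row `< a`. -/
theorem Spl.pc (S : Spl w w' p N a C D) (h : Box l r X lo hi N) (hlp : ∃ y, 0 < l y) (hrp : ∃ y, 0 < r y) {k : ℕ} (hk : k < a) (q : ℤ) :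
    Sp22.pc w' p l r lo hi N k q ≤ (C * D) ^ 2 * Sp22.pc w p l r lo hi N k q := by
  have h3 := S.hw k (q - 1)
  have h4 := S.hw k q
  have h5 := S.hp k
  exact S.ratio (Ms.left h) (Ms.right h) hlp hrp (mul_nonneg (dp_nonneg S.hw S.hp h.g k (q - 1) q (by omega)) (by positivity))
    (S.con h hk q)

/-! ### Rows behind the window -/

/-- The mass of the routes to the terminal set `F` of the row `e`. -/
theorem Ps_fin (h : Ms m lo hi N) {e : ℕ} (he : e ≤ N) (F : Finset ℤ) :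
    Sp22.Ps w p m N e F = ∑ y ∈ Icc lo hi, K91P.fw w p m e y * (if y ∈ F then bw w p e (N - e) y else 0) := by
  classical
  unfold Sp22.Ps
  have h1 : ∑ y ∈ Icc lo hi, K91P.fw w p m e y * (if y ∈ F then bw w p e (N - e) y else 0) =
      ∑ y ∈ (Icc lo hi).filter (fun y => y ∈ F), K91P.fw w p m e y * bw w p e (N - e) y := by
    rw [sum_filter]
    refine sum_congr rfl fun y _ => ?_
    split_ifs <;> ring
  have h2 : ∑ y ∈ F, K91P.fw w p m e y * bw w p e (N - e) y =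
      ∑ y ∈ F.filter (fun y => y ∈ Icc lo hi), K91P.fw w p m e y * bw w p e (N - e) y := by
    rw [sum_filter]
    refine sum_congr rfl fun y _ => ?_
    by_cases hy : y ∈ Icc lo hi
    · rw [if_pos hy]
    · have heN : (e : ℤ) ≤ N := by exact_mod_cast he
      rw [if_neg hy, fw_out h (fun h2 => hy (mem_Icc.2 ⟨h2.1, by omega⟩)), zero_mul]
  rw [h1, h2]
  refine sum_congr ?_ fun _ _ => rfl
  ext y
  rw [mem_filter, mem_filter]
  exact ⟨fun h => ⟨h.2, h.1⟩, fun h => ⟨h.2, h.1⟩⟩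

/-- **FAR MASSES, masses.** `F` a set of sites of the row `e`, `w = w'` on the rows `≥ e` and off `B`. Routes which pass `B` reach `F`
with a small quenched probability `st` only (in `w'`). -/
theorem far_mass (hw : ∀ k y, 0 < w k y) (hw' : ∀ k y, 0 < w' k y) (hp : ∀ k, 0 < p k) (h : Ms m lo hi N) {B : Set (ℕ × ℤ)} {e : ℕ}
    (he : e ≤ N) (hB : ∀ k y, (k, y) ∉ B → w k y = w' k y) (hrow : ∀ k, e ≤ k → w k = w' k) {F : Finset ℤ} {st : ℝ} (hs0 : 0 ≤ st)
    (hst : ∀ i x, i < e → (i, x) ∈ B →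
      bf w' p (fun y => if y ∈ F then bw w' p e (N - e) y else 0) i (e - i) x ≤ st * bw w' p i (N - i) x) :
    Sp22.Ps w' p m N e F ≤ Sp22.Ps w p m N e F + st * Sp22.Zt w' p m lo hi N := by
  classical
  have e1 : ∀ y, bw w' p e (N - e) y = bw w p e (N - e) y := fun y => bw_congr (N - e) e (fun i hi' y => by rw [hrow i hi']) y
  have h1 := kill_le' hw' hp h he hs0 hst
  rw [Ps_fin h he F, Ps_fin h he F]
  refine h1.trans (add_le_add ?_ le_rfl)
  rw [← kw_eq hB]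
  refine sum_le_sum fun y _ => ?_
  rw [e1]
  have h2 : 0 ≤ (if y ∈ F then bw w p e (N - e) y else 0) := by
    split_ifs
    · exact (bw_pos hw hp _ _ _).le
    · exact le_rfl
  exact mul_le_mul_of_nonneg_right (fw_mono (kw_nn (fun k y => (hw k y).le) B) (kw_le (fun k y => (hw k y).le) B) hp h.nn e y) h2

/-- **FAR MASSES, probabilities, from above.** -/
theorem far_up (hw : ∀ k y, 0 < w k y) (hw' : ∀ k y, 0 < w' k y) (hp : ∀ k, 0 < p k) (h : Ms m lo hi N) (hm : ∃ y, 0 < m y)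
    {B : Set (ℕ × ℤ)} {e : ℕ} (he : e ≤ N) (hB : ∀ k y, (k, y) ∉ B → w k y = w' k y) (hrow : ∀ k, e ≤ k → w k = w' k) {F : Finset ℤ}
    {st : ℝ} (hs0 : 0 ≤ st) (hst : ∀ i x, i < e → (i, x) ∈ B →
      bf w' p (fun y => if y ∈ F then bw w' p e (N - e) y else 0) i (e - i) x ≤ st * bw w' p i (N - i) x)
    {D : ℝ} (hZ : Sp22.Zt w p m lo hi N ≤ D * Sp22.Zt w' p m lo hi N) :
    Sp22.Ps w' p m N e F / Sp22.Zt w' p m lo hi N ≤ D * (Sp22.Ps w p m N e F / Sp22.Zt w p m lo hi N) + st := by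
  have z := Zt_pos hw hp h hm
  have z' := Zt_pos hw' hp h hm
  have h1 := far_mass hw hw' hp h he hB hrow hs0 hst
  have h2 := Ps_nonneg hw hp h.nn N e F
  rw [div_le_iff₀ z', add_mul]
  have e1 : D * (Sp22.Ps w p m N e F / Sp22.Zt w p m lo hi N) * Sp22.Zt w' p m lo hi N =
      Sp22.Ps w p m N e F * (D * Sp22.Zt w' p m lo hi N / Sp22.Zt w p m lo hi N) := by ring
  have h3 : 1 ≤ D * Sp22.Zt w' p m lo hi N / Sp22.Zt w p m lo hi N := by
    rw [le_div_iff₀ z, one_mul]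
    exact hZ
  rw [e1]
  have h4 := mul_le_mul_of_nonneg_left h3 h2
  rw [mul_one] at h4
  linarith

/-- **FAR MASSES, probabilities, from below**: the part of the routes which pass `B` (in `w`) is the loss. -/
theorem far_low (hw : ∀ k y, 0 < w k y) (hw' : ∀ k y, 0 < w' k y) (hp : ∀ k, 0 < p k) (h : Ms m lo hi N) (hm : ∃ y, 0 < m y)
    {B : Set (ℕ × ℤ)} {e : ℕ} (he : e ≤ N) (hB : ∀ k y, (k, y) ∉ B → w k y = w' k y) (hrow : ∀ k, e ≤ k → w k = w' k) {F : Finset ℤ}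
    {st : ℝ} (hs0 : 0 ≤ st) (hst : ∀ i x, i < e → (i, x) ∈ B →
      bf w p (fun y => if y ∈ F then bw w p e (N - e) y else 0) i (e - i) x ≤ st * bw w p i (N - i) x)
    {C : ℝ} (hC : 0 < C) (hZ : Sp22.Zt w' p m lo hi N ≤ C * Sp22.Zt w p m lo hi N) :
    (Sp22.Ps w p m N e F / Sp22.Zt w p m lo hi N - st) / C ≤ Sp22.Ps w' p m N e F / Sp22.Zt w' p m lo hi N := by
  have z := Zt_pos hw hp h hm
  have z' := Zt_pos hw' hp h hm
  have h1 := far_mass hw' hw hp h he (fun k y hk => (hB k y hk).symm) (fun k hk => (hrow k hk).symm) hs0 hst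
  have h2 := Ps_nonneg hw' hp h.nn N e F
  rw [div_le_iff₀ hC, sub_le_iff_le_add, div_le_iff₀ z, add_mul]
  refine h1.trans (add_le_add ?_ le_rfl)
  have e1 : Sp22.Ps w' p m N e F / Sp22.Zt w' p m lo hi N * C * Sp22.Zt w p m lo hi N =
      Sp22.Ps w' p m N e F * (C * Sp22.Zt w p m lo hi N / Sp22.Zt w' p m lo hi N) := by ring
  have h3 : 1 ≤ C * Sp22.Zt w p m lo hi N / Sp22.Zt w' p m lo hi N := by
    rw [le_div_iff₀ z', one_mul]
    exact hZ
  rw [e1]
  have h4 := mul_le_mul_of_nonneg_left h3 h2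
  rw [mul_one] at h4
  exact h4

/-! ### The tube -/

/-- The mass of the routes which are in `y` at the row `a` and in `z` at the row `a + n`, `(y, z) ∈ A`. -/
def P2 (w : ℕ → ℤ → ℝ) (p : ℕ → ℝ) (m : ℤ → ℝ) (N a n : ℕ) (A : Finset (ℤ × ℤ)) : ℝ :=
  ∑ x ∈ A, K91P.fw w p m a x.1 * ker w p a n x.1 x.2 * bw w p (a + n) (N - (a + n)) x.2

theorem P2_nonneg (hw : ∀ k y, 0 < w k y) (hp : ∀ k, 0 < p k) (hm : ∀ y, 0 ≤ m y) (N a n : ℕ) (A : Finset (ℤ × ℤ)) :
    0 ≤ P2 w p m N a n A :=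
  sum_nonneg fun _ _ => mul_nonneg (mul_nonneg (fw_nonneg hw hp hm _ _) (ker_nonneg hw hp _ _ _ _)) (bw_pos hw hp _ _ _).le

/-- **TO MISS THE TUBE.** `off` = mass of the routes of the new environment which miss the tube `A`, at most `Y` times the old total
(the leak lemma); one pair `(y₀, z₀)` of the tube has the kernel `g`; `win` = old mass of the group in the window of the tube, at least
a part `π` of the old total; the sites of the window are not much better than `y₀`, `z₀`. Then the new probability to miss the tube is at most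
`Y * R / (g * π)`. -/
theorem off_le (hw' : ∀ k y, 0 < w' k y) (hp : ∀ k, 0 < p k) (h : Ms m lo hi N)
    {a n : ℕ} {A : Finset (ℤ × ℤ)} {Z off win g Y R π : ℝ} {y₀ z₀ : ℤ} (hA : (y₀, z₀) ∈ A)
    (hg : 0 < g) (hπ : 0 < π) (hY : 0 ≤ Y) (hR : 0 ≤ R)
    (hoff : off ≤ Y * Z) (hker : g ≤ ker w' p a n y₀ z₀) (hwin : π * Z ≤ win)
    (hR1 : win ≤ R * (K91P.fw w' p m a y₀ * bw w' p (a + n) (N - (a + n)) z₀)) :
    off ≤ Y * R / (g * π) * P2 w' p m N a n A := by
  have h0 : 0 ≤ K91P.fw w' p m a y₀ := fw_nonneg hw' hp h.nn a y₀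
  have h1 : 0 < bw w' p (a + n) (N - (a + n)) z₀ := bw_pos hw' hp _ _ _
  have h2 : K91P.fw w' p m a y₀ * ker w' p a n y₀ z₀ * bw w' p (a + n) (N - (a + n)) z₀ ≤ P2 w' p m N a n A := by
    unfold P2
    exact single_le_sum (f := fun x : ℤ × ℤ => K91P.fw w' p m a x.1 * ker w' p a n x.1 x.2 * bw w' p (a + n) (N - (a + n)) x.2)
      (fun x _ => mul_nonneg (mul_nonneg (fw_nonneg hw' hp h.nn _ _) (ker_nonneg hw' hp _ _ _ _)) (bw_pos hw' hp _ _ _).le) hA
  have h3 : g * (K91P.fw w' p m a y₀ * bw w' p (a + n) (N - (a + n)) z₀) ≤ P2 w' p m N a n A := by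
    refine le_trans ?_ h2
    calc g * (K91P.fw w' p m a y₀ * bw w' p (a + n) (N - (a + n)) z₀) ≤
          ker w' p a n y₀ z₀ * (K91P.fw w' p m a y₀ * bw w' p (a + n) (N - (a + n)) z₀) :=
          mul_le_mul_of_nonneg_right hker (mul_nonneg h0 h1.le)
      _ = _ := by ring
  have h4 : g * π * Z ≤ R * P2 w' p m N a n A := by
    calc g * π * Z = g * (π * Z) := by ring
      _ ≤ g * win := mul_le_mul_of_nonneg_left hwin hg.le
      _ ≤ g * (R * (K91P.fw w' p m a y₀ * bw w' p (a + n) (N - (a + n)) z₀)) := mul_le_mul_of_nonneg_left hR1 hg.le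
      _ = R * (g * (K91P.fw w' p m a y₀ * bw w' p (a + n) (N - (a + n)) z₀)) := by ring
      _ ≤ R * P2 w' p m N a n A := mul_le_mul_of_nonneg_left h3 hR
  have h5 : Z ≤ R / (g * π) * P2 w' p m N a n A := by
    rw [div_mul_eq_mul_div, le_div_iff₀ (mul_pos hg hπ)]
    calc Z * (g * π) = g * π * Z := by ring
      _ ≤ _ := h4
  calc off ≤ Y * Z := hoff
    _ ≤ Y * (R / (g * π) * P2 w' p m N a n A) := mul_le_mul_of_nonneg_left h5 hY
    _ = _ := by ring

end Before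

end

end Pool.Agent.W_7d29a1_C1.Sp22
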