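import Pool.Agent.W_7d29a1_C1.Cmp71
import Pool.Agent.W_7d29a1_C1.SpOne22
import Pool.Agent.W_7d29a1_C1.RankP74

/-!
MP_7d29a1_pr, attractor route, [C1] SEP, leaf S7: THE COMPARISON OF THE WEIGHT OF A CONTACT UNDER THE LUCK OF ONE SLAB, over K91P. (helper71)

`w`, `w'` = old and new weights, equal on the rows `< a + n₁` and on the rows `≥ a + n₁ + n₂`. Rows `a ≤ . < a + n₁` = the pinch (old content,
`CR ≤ 1 + e` over the windows `Y0`, `X1`), rows `a + n₁ ≤ . < a + n₁ + n₂` = the slab of the tube (mouth `Wm ⊆ X1`, exit cell `Ex`).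
`Luck.pc_le`: `pc w ≤ (D (1 + e + Y / lam))² pc w'` for every contact of a row `< a` whose routes stay in the windows with probability
`≥ 1 / D`; ANY masses of the two groups, ANY profile at the end. `Luck.cmp`: the integrated form.
-/

set_option autoImplicit false

namespace Pool.Agent.W_7d29a1_C1.Cmp71

open Finset
open Pool.Agent.W_7d29a1_C1.K91 (Grp Box wt wt_pos)
open Pool.Agent.W_7d29a1_C1.K91P (fw bw bw_pos fw_nonneg fw_lo fw_hi fw_congr bw_congr dp dp_nonneg)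
open Pool.Agent.W_7d29a1_C1.U16 (ker ker_nonneg ker_eq_zero ker_congr bw_ker)
open Pool.Agent.W_7d29a1_C1.Sp22 (Ms Zt Zt_row Zt_pos pc pc_nonneg)
open Pool.Agent.W_7d29a1_C1.R26P (kf TP_kf)
open Pool.Agent.W_7d29a1_C1.CR76

noncomputable section

variable {w w' : ℕ → ℤ → ℝ} {p : ℕ → ℝ} {l r : ℤ → ℝ} {X lo hi : ℤ} {N : ℕ}

theorem kf_ker (i n : ℕ) : kf w p i n = ker w p i n := rfl

/-- The future of a site as a sum over a later row. -/
theorem bw_row (i a : ℕ) (hia : i ≤ a) (ha : a ≤ N) {q : ℤ} (hq : lo ≤ q) (hq' : q + ((a - i : ℕ) : ℤ) ≤ hi) :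
    bw w p i (N - i) q = ∑ y ∈ Icc lo hi, ker w p i (a - i) q y * bw w p a (N - a) y := by
  have e1 : N - i = (a - i) + (N - a) := by omega
  have e2 : i + (a - i) = a := by omega
  rw [e1, bw_ker, e2]
  refine sum_subset (Icc_subset_Icc hq hq') fun y _ hy => ?_
  rw [mem_Icc] at hy
  rw [ker_eq_zero i (a - i) q y hy, zero_mul]

theorem bw_part (hw : ∀ k y, 0 < w k y) (hp : ∀ k, 0 < p k) (i n : ℕ) (h : i + n ≤ N) (q : ℤ) (A : Finset ℤ) :
    ∑ y ∈ A, ker w p i n q y * bw w p (i + n) (N - (i + n)) y ≤ bw w p i (N - i) q := by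
  classical
  have e1 : N - i = n + (N - (i + n)) := by omega
  have h0 : ∀ y, 0 ≤ ker w p i n q y * bw w p (i + n) (N - (i + n)) y := fun y =>
    mul_nonneg (ker_nonneg hw hp i n q y) (bw_pos hw hp _ _ _).le
  have h1 : ∑ y ∈ A, ker w p i n q y * bw w p (i + n) (N - (i + n)) y =
      ∑ y ∈ A.filter (fun y => y ∈ Icc q (q + n)), ker w p i n q y * bw w p (i + n) (N - (i + n)) y := by
    rw [sum_filter]
    refine sum_congr rfl fun y _ => ?_
    by_cases hy : y ∈ Icc q (q + (n : ℤ))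
    · rw [if_pos hy]
    · rw [if_neg hy, ker_eq_zero i n q y (fun h2 => hy (mem_Icc.2 h2)), zero_mul]
  rw [e1, bw_ker, h1]
  exact sum_le_sum_of_subset_of_nonneg (fun y hy => (mem_filter.1 hy).2) fun y _ _ => h0 y

/-- **The weight of a contact** from the comparison of one group. -/
theorem pc_le_of_group (hw : ∀ k y, 0 < w k y) (hw' : ∀ k y, 0 < w' k y) (hp : ∀ k, 0 < p k) (h : Box l r X lo hi N)
    (hlp : ∃ y, 0 < l y) (hrp : ∃ y, 0 < r y) {a k : ℕ} (ha : a ≤ N) (hk : k < a) (heq : ∀ i, i < a → w i = w' i) {q : ℤ} {G : ℝ}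
    (hG : 0 ≤ G) (hgr : ∀ m : ℤ → ℝ, Ms m lo hi N →
      (∑ y ∈ Icc lo hi, fw w p m a y * bw w' p a (N - a) y) *
        (∑ y ∈ Icc lo hi, ker w p (k + 1) (a - (k + 1)) q y * bw w p a (N - a) y) ≤
      G * ((∑ y ∈ Icc lo hi, ker w p (k + 1) (a - (k + 1)) q y * bw w' p a (N - a) y) *
        ∑ y ∈ Icc lo hi, fw w p m a y * bw w p a (N - a) y)) :
    pc w p l r lo hi N k q ≤ G ^ 2 * pc w' p l r lo hi N k q := by
  have hfw : ∀ (m : ℤ → ℝ) (j : ℕ), j ≤ a → ∀ y, fw w' p m j y = fw w p m j y := fun m j hj y =>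
    fw_congr j (fun i hi' y => by rw [heq i (by omega)]) y
  have hdp : ∀ x y, dp w' p l r k x y = dp w p l r k x y := fun x y => by
    unfold dp
    rw [hfw l k hk.le, hfw l k hk.le, hfw r k hk.le, hfw r k hk.le]
  have hl := Ms.left h
  have hr := Ms.right h
  have zl := Zt_pos hw hp hl hlp
  have zr := Zt_pos hw hp hr hrp
  have zl' := Zt_pos hw' hp hl hlp
  have zr' := Zt_pos hw' hp hr hrp
  by_cases hq : lo < q ∧ q ≤ hi - N + k
  · have hkN : (k : ℤ) < N := by exact_mod_cast lt_of_lt_of_le hk ha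
    have haN : (a : ℤ) ≤ N := by exact_mod_cast ha
    have hq2 : q + ((a - (k + 1) : ℕ) : ℤ) ≤ hi := by omega
    have c1 := bw_row (w := w) (p := p) (N := N) (k + 1) a hk ha hq.1.le hq2
    have c2 := bw_row (w := w') (p := p) (N := N) (k + 1) a hk ha hq.1.le hq2
    have hker : ∀ y, ker w' p (k + 1) (a - (k + 1)) q y = ker w p (k + 1) (a - (k + 1)) q y := fun y =>
      ker_congr (k + 1) _ q y fun i _ hi' => ⟨(heq i (by omega)).symm, rfl⟩
    simp only [hker] at c2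
    have g : ∀ m : ℤ → ℝ, Ms m lo hi N → Zt w' p m lo hi N * bw w p (k + 1) (N - (k + 1)) q ≤
        G * (bw w' p (k + 1) (N - (k + 1)) q * Zt w p m lo hi N) := by
      intro m hm
      have t1 := Zt_row (w := w) (p := p) hm ha
      have t2 := Zt_row (w := w') (p := p) hm ha
      simp only [hfw m a le_rfl] at t2
      rw [c1, c2, ← t1, ← t2]
      exact hgr m hm
    have hN : 0 ≤ dp w p l r k (q - 1) q * (p k * (w k (q - 1) * w k q)) :=
      mul_nonneg (dp_nonneg hw hp h.g k (q - 1) q (by omega)) (mul_nonneg (hp k).le (mul_nonneg (hw _ _).le (hw _ _).le))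
    have key := cmp hN (bw_pos hw hp (N - (k + 1)) (k + 1) q).le zl zr (bw_pos hw' hp (N - (k + 1)) (k + 1) q).le zl' zr' hG
      (g l hl) (g r hr)
    unfold pc
    rw [hdp, ← heq k hk]
    rw [mul_assoc] at key
    rw [mul_assoc (dp w p l r k (q - 1) q) _ (bw w' p (k + 1) (N - (k + 1)) q ^ 2)] at key
    exact key
  · have hz : dp w p l r k (q - 1) q = 0 := by
      unfold dp
      by_cases h1 : lo < q
      · have h2 : hi - N + k < q := by
          by_contra hc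
          exact hq ⟨h1, by omega⟩
        rw [fw_hi hl.hi0 k q (by omega), fw_hi hr.hi0 k q (by omega)]
        ring
      · rw [fw_lo hl.lo0 k (q - 1) (by omega), fw_lo hr.lo0 k (q - 1) (by omega)]
        ring
    unfold pc
    rw [hdp, hz]
    simp

/-- The mass through the tube from the site `v` of its first row to the exit cell `Ex`. -/
def tub (w w' : ℕ → ℤ → ℝ) (p : ℕ → ℝ) (N b n₂ : ℕ) (Ex : Finset ℤ) (v : ℤ) : ℝ :=
  ∑ z ∈ Ex, ker w' p b n₂ v z * bw w p (b + n₂) (N - (b + n₂)) z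

theorem tub_nonneg (hw : ∀ k y, 0 < w k y) (hw' : ∀ k y, 0 < w' k y) (hp : ∀ k, 0 < p k) (b n₂ : ℕ) (Ex : Finset ℤ) (v : ℤ) :
    0 ≤ tub w w' p N b n₂ Ex v :=
  sum_nonneg fun _ _ => mul_nonneg (ker_nonneg hw' hp _ _ _ _) (bw_pos hw hp _ _ _).le

/-- **THE LUCK OF ONE SLAB.** -/
structure Luck (w w' : ℕ → ℤ → ℝ) (p : ℕ → ℝ) (N a n₁ n₂ : ℕ) (lo hi : ℤ) (Y0 X1 Wm Ex : Finset ℤ) (ya yb za zb : ℤ)
    (e Y lam : ℝ) : Prop where
  hw : ∀ k y, 0 < w k y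
  hw' : ∀ k y, 0 < w' k y
  hp : ∀ k, 0 < p k
  hN : a + n₁ + n₂ ≤ N
  eqb : ∀ i, i < a + n₁ → w i = w' i
  eqt : ∀ i, a + n₁ + n₂ ≤ i → w i = w' i
  Y0_sub : Y0 ⊆ Icc lo hi
  Y0_win : ∀ y ∈ Y0, ya ≤ y ∧ y ≤ yb
  X1_win : ∀ v ∈ X1, za ≤ v ∧ v ≤ zb
  Wm_sub : Wm ⊆ X1
  hy : ya ≤ yb
  hz : za ≤ zb
  hyz : yb ≤ za
  hzy : zb ≤ ya + n₁
  e0 : 0 ≤ e
  Y0' : 0 ≤ Y
  lam0 : 0 < lam
  /-- the rows before the tube are a pinch of the window -/
  cr : CR (kf w p a n₁) ya yb za zb ≤ 1 + e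
  /-- the leak lemma -/
  leak : ∀ y ∈ Icc lo hi, bw w' p a (N - a) y ≤
    (if y ∈ Y0 then ∑ v ∈ Wm, ker w p a n₁ y v * tub w w' p N (a + n₁) n₂ Ex v else 0) + Y * bw w p a (N - a) y
  /-- the gain of the tube -/
  gain : ∀ y ∈ Y0, lam * ∑ v ∈ X1, ker w p a n₁ y v * bw w p (a + n₁) (N - (a + n₁)) v ≤
    ∑ v ∈ Wm, ker w p a n₁ y v * tub w w' p N (a + n₁) n₂ Ex v

/-- The contact `q` of the row `k` (first meeting at the site `q` of the row `k + 1`): its routes stay in the windows. -/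
def Stay (w : ℕ → ℤ → ℝ) (p : ℕ → ℝ) (N a n₁ : ℕ) (Y0 X1 : Finset ℤ) (D : ℝ) (k : ℕ) (q : ℤ) : Prop :=
  bw w p (k + 1) (N - (k + 1)) q ≤ D * ∑ y ∈ Y0, ker w p (k + 1) (a - (k + 1)) q y *
    ∑ v ∈ X1, ker w p a n₁ y v * bw w p (a + n₁) (N - (a + n₁)) v

variable {a n₁ n₂ : ℕ} {Y0 X1 Wm Ex : Finset ℤ} {ya yb za zb : ℤ} {e Y lam D : ℝ}

theorem Luck.tub_le (L : Luck w w' p N a n₁ n₂ lo hi Y0 X1 Wm Ex ya yb za zb e Y lam) (v : ℤ) :
    tub w w' p N (a + n₁) n₂ Ex v ≤ bw w' p (a + n₁) (N - (a + n₁)) v := by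
  have e1 : ∀ z, bw w p (a + n₁ + n₂) (N - (a + n₁ + n₂)) z = bw w' p (a + n₁ + n₂) (N - (a + n₁ + n₂)) z := fun z =>
    bw_congr _ _ (fun i hi' y => by rw [L.eqt i hi']) z
  unfold tub
  simp only [e1]
  exact bw_part L.hw' L.hp (a + n₁) n₂ (by have := L.hN; omega) v Ex

/-- **THE COMPARISON**, one group. -/
theorem Luck.group (L : Luck w w' p N a n₁ n₂ lo hi Y0 X1 Wm Ex ya yb za zb e Y lam) (hD : 0 < D) {k : ℕ} (hk : k < a) {q : ℤ}
    (hq : lo ≤ q) (hq' : q + ((a - (k + 1) : ℕ) : ℤ) ≤ hi) (hst : Stay w p N a n₁ Y0 X1 D k q) {m : ℤ → ℝ} (hm : Ms m lo hi N) :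
    (∑ y ∈ Icc lo hi, fw w p m a y * bw w' p a (N - a) y) *
        (∑ y ∈ Icc lo hi, ker w p (k + 1) (a - (k + 1)) q y * bw w p a (N - a) y) ≤
      (D * (1 + e + Y / lam)) * ((∑ y ∈ Icc lo hi, ker w p (k + 1) (a - (k + 1)) q y * bw w' p a (N - a) y) *
        ∑ y ∈ Icc lo hi, fw w p m a y * bw w p a (N - a) y) := by
  have haN : a ≤ N := by have := L.hN; omega
  have hlam := L.lam0
  have hc := bw_row (w := w) (p := p) (N := N) (k + 1) a hk haN hq hq'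
  have hJ : ∀ y v, 0 ≤ ker w p a n₁ y v := fun y v => ker_nonneg L.hw L.hp a n₁ y v
  have hk0 : ∀ y, 0 ≤ ker w p (k + 1) (a - (k + 1)) q y := fun y => ker_nonneg L.hw L.hp _ _ q y
  have e1 : ∀ y v, ker w' p a n₁ y v = ker w p a n₁ y v := fun y v =>
    ker_congr a n₁ y v fun i _ hi' => ⟨(L.eqb i (by omega)).symm, rfl⟩
  have hst' : ∑ y ∈ Icc lo hi, ker w p (k + 1) (a - (k + 1)) q y * bw w p a (N - a) y ≤
      D * ∑ y ∈ Y0, ker w p (k + 1) (a - (k + 1)) q y * ∑ v ∈ X1, ker w p a n₁ y v * bw w p (a + n₁) (N - (a + n₁)) v := by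
    rw [← hc]
    exact hst
  have key := group_pinch (J := ker w p a n₁) (Yv := {y | ya ≤ y ∧ y ≤ yb}) (Xv := {z | yb ≤ z ∧ z ≤ ya + n₁})
    (TP_kf L.hw L.hp a n₁ ya yb) (S := Icc lo hi) (Y0 := Y0) L.Y0_sub (fun y hy => L.Y0_win y hy)
    (a := fun y => fw w p m a y) (k := fun y => ker w p (k + 1) (a - (k + 1)) q y)
    (fun y _ => fw_nonneg L.hw L.hp hm.nn a y) (fun y _ => hk0 y) (ya := ya) (yb := yb) (za := za) (zb := zb)
    ⟨le_rfl, L.hy⟩ ⟨L.hy, le_rfl⟩ ⟨L.hyz, L.hz.trans L.hzy⟩ ⟨L.hyz.trans L.hz, L.hzy⟩ L.hy L.Y0_win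
    (X1 := X1) (W := Wm)
    (fun v hv => ⟨⟨L.hyz.trans (L.X1_win v hv).1, (L.X1_win v hv).2.trans L.hzy⟩, L.X1_win v hv⟩) L.Wm_sub L.e0
    (by have := L.cr; rwa [kf_ker] at this) (fun y _ v _ => hJ y v)
    (A := fun v => tub w w' p N (a + n₁) n₂ Ex v) (B := fun v => bw w p (a + n₁) (N - (a + n₁)) v)
    (fun v _ => tub_nonneg L.hw L.hw' L.hp _ _ _ _) (fun v _ => (bw_pos L.hw L.hp _ _ _).le)
    (M := fun y => bw w p a (N - a) y) (M' := fun y => bw w' p a (N - a) y)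
    (fun y _ => (bw_pos L.hw L.hp _ _ _).le) (fun y _ => (bw_pos L.hw' L.hp _ _ _).le)
    (fun y _ => bw_part L.hw L.hp a n₁ (by have := L.hN; omega) y X1)
    (fun y _ => by
      refine le_trans (sum_le_sum fun v _ => mul_le_mul_of_nonneg_left (L.tub_le v) (hJ y v)) ?_
      have := bw_part L.hw' L.hp a n₁ (N := N) (by have := L.hN; omega) y Wm
      simp only [e1] at this
      exact this)
    (Y := Y) (D := D) (lam := lam / D) L.Y0' hD.le (by positivity) L.leak hst' (by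
      calc lam / D * ∑ y ∈ Icc lo hi, ker w p (k + 1) (a - (k + 1)) q y * bw w p a (N - a) y
          ≤ lam / D * (D * ∑ y ∈ Y0, ker w p (k + 1) (a - (k + 1)) q y *
              ∑ v ∈ X1, ker w p a n₁ y v * bw w p (a + n₁) (N - (a + n₁)) v) :=
            mul_le_mul_of_nonneg_left hst' (by positivity)
        _ = ∑ y ∈ Y0, ker w p (k + 1) (a - (k + 1)) q y *
              (lam * ∑ v ∈ X1, ker w p a n₁ y v * bw w p (a + n₁) (N - (a + n₁)) v) := by
            rw [← mul_assoc, div_mul_cancel₀ _ hD.ne', mul_sum]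
            exact sum_congr rfl fun y _ => by ring
        _ ≤ _ := sum_le_sum fun y hy => mul_le_mul_of_nonneg_left (L.gain y hy) (hk0 y))
  have e3 : D * (1 + e) + Y / (lam / D) = D * (1 + e + Y / lam) := by
    field_simp
  rw [e3] at key
  exact key

/-- **THE COMPARISON.** -/
theorem Luck.pc_le (L : Luck w w' p N a n₁ n₂ lo hi Y0 X1 Wm Ex ya yb za zb e Y lam) (hD : 0 < D) (h : Box l r X lo hi N)
    (hlp : ∃ y, 0 < l y) (hrp : ∃ y, 0 < r y) {k : ℕ} (hk : k < a) {q : ℤ} (hst : Stay w p N a n₁ Y0 X1 D k q) :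
    pc w p l r lo hi N k q ≤ (D * (1 + e + Y / lam)) ^ 2 * pc w' p l r lo hi N k q := by
  have haN : a ≤ N := by have := L.hN; omega
  have hlam := L.lam0
  have he := L.e0
  have hY := L.Y0'
  by_cases hq : lo < q ∧ q ≤ hi - N + k
  · refine pc_le_of_group L.hw L.hw' L.hp h hlp hrp haN hk (fun i hi' => L.eqb i (by omega)) (by positivity) fun m hm => ?_
    have hkN : (k : ℤ) < N := by exact_mod_cast lt_of_lt_of_le hk haN
    have haN' : (a : ℤ) ≤ N := by exact_mod_cast haN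
    exact L.group hD hk hq.1.le (by omega) hst hm
  · have hz : pc w p l r lo hi N k q = 0 := by
      have : dp w p l r k (q - 1) q = 0 := by
        unfold dp
        by_cases h1 : lo < q
        · have h2 : hi - N + k < q := by
            by_contra hc
            exact hq ⟨h1, by omega⟩
          rw [fw_hi (Ms.left h).hi0 k q (by omega), fw_hi (Ms.right h).hi0 k q (by omega)]
          ring
        · rw [fw_lo (Ms.left h).lo0 k (q - 1) (by omega), fw_lo (Ms.right h).lo0 k (q - 1) (by omega)]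
          ring
      unfold pc
      rw [this]
      simp
    rw [hz]
    exact mul_nonneg (sq_nonneg _) (pc_nonneg L.hw' L.hp h hlp hrp k q)

/-- The gain from the lane and the levels: `v₀` in the mouth, `z₀` in the exit cell. -/
theorem gain_of (hw : ∀ k y, 0 < w k y) (hw' : ∀ k y, 0 < w' k y) (hp : ∀ k, 0 < p k) {v₀ z₀ : ℤ} (hv : v₀ ∈ Wm) (hz : z₀ ∈ Ex)
    {a₁ a₂ Q U : ℝ} (ha : 0 ≤ a₁) (ha' : 0 ≤ a₂) (hQ : 0 < Q) (hU : 0 < U) {y : ℤ} (h1 : a₁ ≤ ker w p a n₁ y v₀)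
    (h2 : a₂ ≤ ker w' p (a + n₁) n₂ v₀ z₀)
    (hB : ∀ v ∈ X1, bw w p (a + n₁) (N - (a + n₁)) v ≤ Q * bw w p (a + n₁ + n₂) (N - (a + n₁ + n₂)) z₀)
    (h3 : ∑ v ∈ X1, ker w p a n₁ y v ≤ U) :
    a₁ * a₂ / (U * Q) * ∑ v ∈ X1, ker w p a n₁ y v * bw w p (a + n₁) (N - (a + n₁)) v ≤
      ∑ v ∈ Wm, ker w p a n₁ y v * tub w w' p N (a + n₁) n₂ Ex v := by
  have hF := (bw_pos hw hp (N - (a + n₁ + n₂)) (a + n₁ + n₂) z₀).le
  refine gain_pt (J := fun v => ker w p a n₁ y v) (A := fun v => tub w w' p N (a + n₁) n₂ Ex v) hv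
    (fun v _ => ker_nonneg hw hp a n₁ y v) (fun v _ => ker_nonneg hw hp a n₁ y v)
    (fun v _ => tub_nonneg hw hw' hp _ _ _ _) ha ha' hF hQ hU h1 ?_ hB h3
  calc a₂ * bw w p (a + n₁ + n₂) (N - (a + n₁ + n₂)) z₀
      ≤ ker w' p (a + n₁) n₂ v₀ z₀ * bw w p (a + n₁ + n₂) (N - (a + n₁ + n₂)) z₀ := mul_le_mul_of_nonneg_right h2 hF
    _ ≤ _ := single_le_sum (f := fun z => ker w' p (a + n₁) n₂ v₀ z * bw w p (a + n₁ + n₂) (N - (a + n₁ + n₂)) z)
        (fun z _ => mul_nonneg (ker_nonneg hw' hp _ _ _ _) (bw_pos hw hp _ _ _).le) hz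

/-! ### The integrated form -/

open MeasureTheory Pool.Agent.W_7d29a1_F

/-- **THE FIELD `cmp`** (HitD, HitF, MoveD): `R η ω` = the environment with the slab taken from `η`, `Lk` = lucky; every lucky content is
`Luck` for `ω` (this uses that `ω` is typical). -/
theorem cmp_int {P : Measure Env} {R : Env → Env → Env} {Lk : Set Env} {ω : Env} (mL : MeasurableSet {η | R η ω ∈ Lk})
    {c pl : ENNReal} (hpl : pl ≤ P {η | R η ω ∈ Lk}) (hD : 0 < D) {G : ℝ} (hG : 0 < G) (hGe : D * (1 + e + Y / lam) ≤ G)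
    (hc : c * ENNReal.ofReal (G ^ 2) ≤ pl)
    (hL : ∀ η, R η ω ∈ Lk → Luck (wt ω) (wt (R η ω)) p N a n₁ n₂ lo hi Y0 X1 Wm Ex ya yb za zb e Y lam)
    (h : Box l r X lo hi N) (hlp : ∃ y, 0 < l y) (hrp : ∃ y, 0 < r y) {k : ℕ} (hk : k < a) {q : ℤ}
    (hst : Stay (wt ω) p N a n₁ Y0 X1 D k q) :
    c * ENNReal.ofReal (pc (wt ω) p l r lo hi N k q) ≤
      ∫⁻ η, Lk.indicator (fun ω => ENNReal.ofReal (pc (wt ω) p l r lo hi N k q)) (R η ω) ∂P := by
  refine avg (w := fun ω => ENNReal.ofReal (pc (wt ω) p l r lo hi N k q)) mL hpl hc (fun η hη => ?_)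
    (by rw [Ne, ENNReal.ofReal_eq_zero, not_le]; positivity) ENNReal.ofReal_ne_top
  have L := hL η hη
  have h1 := L.pc_le hD h hlp hrp hk hst
  have h2 : 0 ≤ D * (1 + e + Y / lam) := by
    have := L.lam0
    have := L.e0
    have := L.Y0'
    positivity
  rw [← ENNReal.ofReal_mul (sq_nonneg G)]
  refine ENNReal.ofReal_le_ofReal (h1.trans ?_)
  exact mul_le_mul_of_nonneg_right (pow_le_pow_left₀ h2 hGe 2) (pc_nonneg L.hw' L.hp h hlp hrp k q)

end

end Pool.Agent.W_7d29a1_C1.Cmp71
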