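import Pool.Agent.W_7d29a1_C1.Box47

/-!
MP_7d29a1_pr, [C1], SHELL: THE COMPARISON OF ONE COPY, deterministic part with the success defined by the profiles at the two seams
(helper91 79420, over helper47's box weights). (helper83)

Rows `i` (first seam), `K = i + n` (second seam). `F = bw i (N - i)`; the cells `β₁ < β₂` of the row `i`.

* `seam_dom`  : the profile of the first seam (off the cells small, tuned pair) and a regular `F` give: the path goes through `β₁`;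
* `reg_in`    : the profile of the second seam and the kernel of the inside give: `F` is regular;
* `meet_in`   : `InG` and the exit give: the pairs from `β₁ × β₂` meet first in `Q`;
* `cmpS83`    : the weight of `Q` is at least `κ (1 - 2 z)`.
-/

set_option autoImplicit false

namespace Pool.Agent.W_7d29a1_C1.S83

open Finset
open Pool.Agent.W_7d29a1_C1.K91 (Grp Box ps2 ps2_congr ps2_add ps2_mul)
open Pool.Agent.W_7d29a1_C1.K91P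
open Pool.Agent.W_7d29a1_C1.U31 (sum_fw_bw)
open Pool.Agent.W_7d29a1_C1.U16 (ker ker_zero ker_succ ker_nonneg ker_eq_zero ker_congr fw_ker bw_ker ker_add)
open Pool.Agent.W_7d29a1_C1.Bx47

noncomputable section

/-! ### One group at the first seam -/

/-- **The group goes through its cell.** -/
theorem seam_dom {S β₁ β₂ : Finset ℤ} (h1 : β₁ ⊆ S) (h2 : β₂ ⊆ S) (hd : Disjoint β₁ β₂) {a F ph : ℤ → ℝ} {e1 e2 Lam F0 : ℝ}
    (a0 : ∀ x, 0 ≤ a x) (hF0 : 0 ≤ F0) (hL : 0 ≤ Lam) (he1 : 0 ≤ e1) (he2 : 0 ≤ e2)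
    (off : ∑ x ∈ S \ (β₁ ∪ β₂), a x * ph x ≤ e1 * ∑ x ∈ β₁ ∪ β₂, a x) (tune : ∑ x ∈ β₂, a x ≤ e2 * ∑ x ∈ β₁, a x)
    (r1 : ∀ x ∈ S \ (β₁ ∪ β₂), F x ≤ Lam * ph x * F0) (r2 : ∀ x ∈ β₁ ∪ β₂, F x ≤ Lam * F0) (r3 : ∀ x ∈ β₁, F0 ≤ Lam * F x) :
    ∑ x ∈ S, a x * F x ≤ (1 + Lam ^ 2 * (e2 + e1 * (1 + e2))) * ∑ x ∈ β₁, a x * F x := by
  have hsub : β₁ ∪ β₂ ⊆ S := union_subset h1 h2
  rw [← sum_sdiff hsub, sum_union hd]
  rw [sum_union hd] at off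
  have s1 : 0 ≤ ∑ x ∈ β₁, a x := sum_nonneg fun x _ => a0 x
  have t1 : ∑ x ∈ S \ (β₁ ∪ β₂), a x * F x ≤ Lam * F0 * ∑ x ∈ S \ (β₁ ∪ β₂), a x * ph x := by
    rw [mul_sum]
    refine sum_le_sum fun x hx => ?_
    refine (mul_le_mul_of_nonneg_left (r1 x hx) (a0 x)).trans (le_of_eq ?_)
    ring
  have t2 : ∑ x ∈ β₂, a x * F x ≤ Lam * F0 * ∑ x ∈ β₂, a x := by
    rw [mul_sum]
    refine sum_le_sum fun x hx => ?_
    refine (mul_le_mul_of_nonneg_left (r2 x (mem_union_right _ hx)) (a0 x)).trans (le_of_eq ?_)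
    ring
  have t3 : F0 * ∑ x ∈ β₁, a x ≤ Lam * ∑ x ∈ β₁, a x * F x := by
    rw [mul_sum, mul_sum]
    refine sum_le_sum fun x hx => ?_
    have := mul_le_mul_of_nonneg_left (r3 x hx) (a0 x)
    linarith
  have hLF : 0 ≤ Lam * F0 := mul_nonneg hL hF0
  have u1 : Lam * F0 * ∑ x ∈ S \ (β₁ ∪ β₂), a x * ph x ≤ Lam * F0 * (e1 * ((1 + e2) * ∑ x ∈ β₁, a x)) := by
    refine mul_le_mul_of_nonneg_left (off.trans (mul_le_mul_of_nonneg_left ?_ he1)) hLF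
    linarith
  have u2 : Lam * F0 * ∑ x ∈ β₂, a x ≤ Lam * F0 * (e2 * ∑ x ∈ β₁, a x) := mul_le_mul_of_nonneg_left tune hLF
  have u3 : Lam * (e2 + e1 * (1 + e2)) * (F0 * ∑ x ∈ β₁, a x) ≤
      Lam * (e2 + e1 * (1 + e2)) * (Lam * ∑ x ∈ β₁, a x * F x) := mul_le_mul_of_nonneg_left t3 (by positivity)
  have e : Lam * F0 * (e1 * ((1 + e2) * ∑ x ∈ β₁, a x)) + Lam * F0 * (e2 * ∑ x ∈ β₁, a x) =
      Lam * (e2 + e1 * (1 + e2)) * (F0 * ∑ x ∈ β₁, a x) := by ring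
  have e' : Lam * (e2 + e1 * (1 + e2)) * (Lam * ∑ x ∈ β₁, a x * F x) =
      Lam ^ 2 * (e2 + e1 * (1 + e2)) * ∑ x ∈ β₁, a x * F x := by ring
  have e'' : (1 + Lam ^ 2 * (e2 + e1 * (1 + e2))) * ∑ x ∈ β₁, a x * F x =
      ∑ x ∈ β₁, a x * F x + Lam ^ 2 * (e2 + e1 * (1 + e2)) * ∑ x ∈ β₁, a x * F x := by ring
  rw [e'']
  linarith

/-! ### The inside -/

/-- **The profile before the inside is regular.** -/
theorem reg_in {S T δ C : Finset ℤ} {K : ℤ → ℤ → ℝ} {G F ps ph : ℤ → ℝ} {V L1 G0 : ℝ} (hδ : δ ⊆ T) (hC : C ⊆ S)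
    (K0 : ∀ x y, 0 ≤ K x y) (g0 : ∀ y, 0 ≤ G y) (hV : 0 ≤ V) (hG0 : 0 ≤ G0) (hL1 : 0 ≤ L1)
    (hF : ∀ x ∈ S, F x = ∑ y ∈ T, K x y * G y)
    (so1 : ∀ y ∈ T, G y ≤ V * ps y * G0) (so2 : ∀ y ∈ δ, G0 ≤ V * G y)
    (k1 : ∀ x ∈ S, ∑ y ∈ T, K x y * ps y ≤ L1 * ph x) (k2 : ∀ x ∈ C, ∑ y ∈ T, K x y * ps y ≤ L1)
    (k3 : ∀ x ∈ C, 1 ≤ L1 * ∑ y ∈ δ, K x y) :
    (∀ x ∈ S, F x ≤ V * L1 * ph x * G0) ∧ (∀ x ∈ C, F x ≤ V * L1 * G0) ∧ ∀ x ∈ C, G0 ≤ V * L1 * F x := by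
  have up : ∀ x ∈ S, F x ≤ V * G0 * ∑ y ∈ T, K x y * ps y := by
    intro x hx
    rw [hF x hx, mul_sum]
    refine sum_le_sum fun y hy => ?_
    refine (mul_le_mul_of_nonneg_left (so1 y hy) (K0 x y)).trans (le_of_eq ?_)
    ring
  refine ⟨fun x hx => ?_, fun x hx => ?_, fun x hx => ?_⟩
  · refine (up x hx).trans ((mul_le_mul_of_nonneg_left (k1 x hx) (mul_nonneg hV hG0)).trans (le_of_eq ?_))
    ring
  · refine (up x (hC hx)).trans ((mul_le_mul_of_nonneg_left (k2 x hx) (mul_nonneg hV hG0)).trans (le_of_eq ?_))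
    ring
  · have h1 : G0 * ∑ y ∈ δ, K x y ≤ V * F x := by
      rw [hF x (hC hx), mul_sum]
      calc ∑ y ∈ δ, G0 * K x y ≤ ∑ y ∈ δ, V * (K x y * G y) := by
            refine sum_le_sum fun y hy => ?_
            have := mul_le_mul_of_nonneg_right (so2 y hy) (K0 x y)
            linarith
        _ ≤ ∑ y ∈ T, V * (K x y * G y) := sum_le_sum_of_subset_of_nonneg hδ fun y _ _ =>
            mul_nonneg hV (mul_nonneg (K0 x y) (g0 y))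
        _ = V * ∑ y ∈ T, K x y * G y := by rw [mul_sum]
    calc G0 = G0 * 1 := (mul_one _).symm
      _ ≤ G0 * (L1 * ∑ y ∈ δ, K x y) := mul_le_mul_of_nonneg_left (k3 x hx) hG0
      _ = L1 * (G0 * ∑ y ∈ δ, K x y) := by ring
      _ ≤ L1 * (V * F x) := mul_le_mul_of_nonneg_left h1 hL1
      _ = _ := by ring

/-! ### The weight of the box -/

variable {w : ℕ → ℤ → ℝ} {p : ℕ → ℝ} {l r : ℤ → ℝ} {X lo hi : ℤ} {N : ℕ}

/-- **The pairs from the two cells meet first in `Q`**, from the quadruples and the exit. -/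
theorem meet_in (hw : ∀ k y, 0 < w k y) (hp : ∀ k, 0 < p k) {Q : Finset (ℕ × ℤ)} {K i n : ℕ} {δ : Finset ℤ} (hδ : δ ⊆ Icc lo hi)
    {ε' z' : ℝ} (hε' : ε' ≤ 1) (hz' : z' ≤ 1) {x x' : ℤ}
    (hin : ∀ y ∈ δ, ∀ y' ∈ δ, (1 - ε') * (ker w p i n x y * ker w p i n x' y') ≤ mq w p Q i n x x' y y')
    (h1 : (1 - z') * bw w p i (N - i) x ≤ ∑ y ∈ δ, ker w p i n x y * bw w p K (N - K) y)
    (h2 : (1 - z') * bw w p i (N - i) x' ≤ ∑ y ∈ δ, ker w p i n x' y * bw w p K (N - K) y) :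
    (1 - ε') * (1 - z') ^ 2 * (bw w p i (N - i) x * bw w p i (N - i) x') ≤ HH w p Q lo hi N K i n x x' := by
  have G0 : ∀ a, 0 < bw w p K (N - K) a := bw_pos hw hp _ _
  have e2 : (1 - ε') * ((∑ y ∈ δ, ker w p i n x y * bw w p K (N - K) y) *
      ∑ y ∈ δ, ker w p i n x' y * bw w p K (N - K) y) ≤ HH w p Q lo hi N K i n x x' := by
    refine le_trans ?_ (ps2_sub (f := fun y y' => mq w p Q i n x x' y y' * (bw w p K (N - K) y * bw w p K (N - K) y')) hδ hδ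
      fun y _ y' _ => mul_nonneg (mq_nonneg hw hp Q n i x x' y y') (mul_nonneg (G0 y).le (G0 y').le))
    rw [sum_mul_sum, mul_sum]
    refine sum_le_sum fun y hy => ?_
    rw [mul_sum]
    refine sum_le_sum fun y' hy' => ?_
    calc (1 - ε') * (ker w p i n x y * bw w p K (N - K) y * (ker w p i n x' y' * bw w p K (N - K) y'))
        = ((1 - ε') * (ker w p i n x y * ker w p i n x' y')) * (bw w p K (N - K) y * bw w p K (N - K) y') := by ring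
      _ ≤ _ := mul_le_mul_of_nonneg_right (hin y hy y' hy') (mul_nonneg (G0 y).le (G0 y').le)
  have b1 : 0 ≤ (1 - z') * bw w p i (N - i) x' := mul_nonneg (by linarith) (bw_pos hw hp _ _ _).le
  have b0 : 0 ≤ (1 - z') * bw w p i (N - i) x := mul_nonneg (by linarith) (bw_pos hw hp _ _ _).le
  have h3 := mul_le_mul h1 h2 b1 (b0.trans h1)
  refine le_trans (le_of_eq ?_) ((mul_le_mul_of_nonneg_left h3 (show (0 : ℝ) ≤ 1 - ε' by linarith)).trans e2)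
  ring

/-- **THE WEIGHT OF THE BOX.** The groups go through their cells (up to `z`), the pairs from the cells meet first in `Q` with
probability at least `κ`. -/
theorem cmpZ83 (hw : ∀ k y, 0 < w k y) (hp : ∀ k, 0 < p k) (h : Box l r X lo hi N) {Q : Finset (ℕ × ℤ)} {K i n : ℕ}
    (hK : i + n = K) (hKN : K ≤ N) (hQ : Q ⊆ Ico i K ×ˢ Icc lo hi) {β₁ β₂ : Finset ℤ} (b1 : β₁ ⊆ Icc lo hi)
    (b2 : β₂ ⊆ Icc lo hi) (hlt : ∀ x ∈ β₁, ∀ x' ∈ β₂, x < x') {κ z ZM ZR : ℝ} (hκ : 0 ≤ κ) (hz : z ≤ 1)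
    (hZM : ZM = ∑ y ∈ Icc lo hi, l y * bw w p 0 N y) (hZR : ZR = ∑ y ∈ Icc lo hi, r y * bw w p 0 N y)
    (hH : ∀ x ∈ β₁, ∀ x' ∈ β₂, κ * (bw w p i (N - i) x * bw w p i (N - i) x') ≤ HH w p Q lo hi N K i n x x')
    (h1 : (1 - z) * ZM ≤ ∑ x ∈ β₁, fw w p l i x * bw w p i (N - i) x)
    (h2 : (1 - z) * ZR ≤ ∑ x ∈ β₂, fw w p r i x * bw w p i (N - i) x) :
    κ * (1 - 2 * z) * (ZM * ZR) ≤ ∑ c ∈ Q, cq w p l r N c.1 c.2 := by
  have hlo : lo + N ≤ hi := by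
    have := h.X0
    have := h.X1
    omega
  have hd : Disjoint β₁ β₂ := disjoint_left.2 fun x hx hx' => absurd (hlt x hx x hx') (lt_irrefl x)
  have zM : ∑ a ∈ Icc lo hi, fw w p l i a * bw w p i (N - i) a = ZM := by
    rw [hZM, sum_fw_bw (fun y hy => (h.lo0 y hy).1) (fun y hy => (h.hi0 y hy).1) hlo i (by omega)]
  have zR : ∑ a ∈ Icc lo hi, fw w p r i a * bw w p i (N - i) a = ZR := by
    rw [hZR, sum_fw_bw (fun y hy => (h.lo0 y hy).2) (fun y hy => (h.hi0 y hy).2) hlo i (by omega)]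
  have A0 : ∀ a, 0 ≤ fw w p l i a := fw_nonneg hw hp h.g.l0 i
  have B0 : ∀ a, 0 ≤ fw w p r i a := fw_nonneg hw hp h.g.r0 i
  have F0 : ∀ a, 0 < bw w p i (N - i) a := bw_pos hw hp _ _
  obtain ⟨A1, hA1⟩ : ∃ A1 : ℝ, A1 = ∑ x ∈ β₁, fw w p l i x * bw w p i (N - i) x := ⟨_, rfl⟩
  obtain ⟨A2, hA2⟩ : ∃ A2 : ℝ, A2 = ∑ x ∈ β₂, fw w p l i x * bw w p i (N - i) x := ⟨_, rfl⟩
  obtain ⟨B1, hB1⟩ : ∃ B1 : ℝ, B1 = ∑ x ∈ β₁, fw w p r i x * bw w p i (N - i) x := ⟨_, rfl⟩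
  obtain ⟨B2, hB2⟩ : ∃ B2 : ℝ, B2 = ∑ x ∈ β₂, fw w p r i x * bw w p i (N - i) x := ⟨_, rfl⟩
  have pA1 : 0 ≤ A1 := hA1 ▸ sum_nonneg fun x _ => mul_nonneg (A0 x) (F0 x).le
  have pA2 : 0 ≤ A2 := hA2 ▸ sum_nonneg fun x _ => mul_nonneg (A0 x) (F0 x).le
  have pB1 : 0 ≤ B1 := hB1 ▸ sum_nonneg fun x _ => mul_nonneg (B0 x) (F0 x).le
  have pB2 : 0 ≤ B2 := hB2 ▸ sum_nonneg fun x _ => mul_nonneg (B0 x) (F0 x).le
  have sA : A1 + A2 ≤ ZM := by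
    rw [hA1, hA2, ← sum_union hd, ← zM]
    exact sum_le_sum_of_subset_of_nonneg (union_subset b1 b2) fun x _ _ => mul_nonneg (A0 x) (F0 x).le
  have sB : B1 + B2 ≤ ZR := by
    rw [hB1, hB2, ← sum_union hd, ← zR]
    exact sum_le_sum_of_subset_of_nonneg (union_subset b1 b2) fun x _ _ => mul_nonneg (B0 x) (F0 x).le
  rw [← hA1] at h1
  rw [← hB2] at h2
  -- the sum over the cells
  have e1 : κ * (A1 * B2 - A2 * B1) ≤ ∑ c ∈ Q, cq w p l r N c.1 c.2 := by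
    rw [sum_cq' h hK hKN hQ]
    have s1 : ∑ x ∈ β₁, ∑ x' ∈ β₂, dp w p l r i x x' * HH w p Q lo hi N K i n x x' ≤
        ps2 lo hi (fun x x' => dp w p l r i x x' * HH w p Q lo hi N K i n x x') := by
      refine ps2_sub b1 b2 fun x _ x' _ => ?_
      by_cases hx : x < x'
      · exact mul_nonneg (dp_nonneg hw hp h.g i x x' hx.le) (HH_nonneg hw hp Q K i n x x')
      · show 0 ≤ dp w p l r i x x' * HH w p Q lo hi N K i n x x'
        rw [HH_not Q K i n hx, mul_zero]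
    refine le_trans ?_ s1
    have s2 : κ * (A1 * B2 - A2 * B1) = ∑ x ∈ β₁, ∑ x' ∈ β₂, dp w p l r i x x' *
        (κ * (bw w p i (N - i) x * bw w p i (N - i) x')) := by
      have e5 : A2 * B1 = ∑ x ∈ β₁, ∑ x' ∈ β₂, (fw w p l i x' * bw w p i (N - i) x') *
          (fw w p r i x * bw w p i (N - i) x) := by
        rw [hA2, hB1, sum_mul_sum, sum_comm]
      rw [e5, hA1, hB2, sum_mul_sum, ← sum_sub_distrib, mul_sum]
      refine sum_congr rfl fun x _ => ?_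
      rw [← sum_sub_distrib, mul_sum]
      refine sum_congr rfl fun x' _ => ?_
      unfold dp
      ring
    rw [s2]
    exact sum_le_sum fun x hx => sum_le_sum fun x' hx' =>
      mul_le_mul_of_nonneg_left (hH x hx x' hx') (dp_nonneg hw hp h.g i x x' (hlt x hx x' hx').le)
  have z1 : 0 ≤ ZM := by linarith
  have z2 : 0 ≤ ZR := by linarith
  have d1 : (1 - z) * ZM * ((1 - z) * ZR) ≤ A1 * B2 := mul_le_mul h1 h2 (mul_nonneg (by linarith) z2) pA1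
  have d2 : A2 * B1 ≤ z * ZM * (z * ZR) := mul_le_mul (by linarith) (by linarith) pB1 (by linarith)
  refine le_trans ?_ e1
  rw [mul_assoc]
  refine mul_le_mul_of_nonneg_left ?_ hκ
  have e6 : (1 - z) * ZM * ((1 - z) * ZR) - z * ZM * (z * ZR) = (1 - 2 * z) * (ZM * ZR) := by ring
  linarith

/-- From `(1 + z)` above to `(1 - z)` below. -/
theorem one_sub {Z A z : ℝ} (hA : 0 ≤ A) (h : Z ≤ (1 + z) * A) (hz : z ≤ 1) : (1 - z) * Z ≤ A := by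
  have h1 := mul_le_mul_of_nonneg_left h (show (0 : ℝ) ≤ 1 - z by linarith)
  have h2 : (1 - z) * ((1 + z) * A) = A - z ^ 2 * A := by ring
  have h3 : 0 ≤ z ^ 2 * A := by positivity
  linarith

/-- The data of the two seams: `a`, `b` the profiles of the first seam, `F` the backward masses there. -/
structure Seams (S β₁ β₂ : Finset ℤ) (a b F ph : ℤ → ℝ) (e1 e2 Lam F0 : ℝ) : Prop where
  offa : ∑ x ∈ S \ (β₁ ∪ β₂), a x * ph x ≤ e1 * ∑ x ∈ β₁ ∪ β₂, a x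
  offb : ∑ x ∈ S \ (β₁ ∪ β₂), b x * ph x ≤ e1 * ∑ x ∈ β₁ ∪ β₂, b x
  ta : ∑ x ∈ β₂, a x ≤ e2 * ∑ x ∈ β₁, a x
  tb : ∑ x ∈ β₁, b x ≤ e2 * ∑ x ∈ β₂, b x
  r1 : ∀ x ∈ S \ (β₁ ∪ β₂), F x ≤ Lam * ph x * F0
  r2 : ∀ x ∈ β₁ ∪ β₂, F x ≤ Lam * F0
  r3 : ∀ x ∈ β₁ ∪ β₂, F0 ≤ Lam * F x

/-- **cmp, deterministic**: seams, regular profile, meeting of the fresh inside. -/
theorem cmpS83 (hw : ∀ k y, 0 < w k y) (hp : ∀ k, 0 < p k) (h : Box l r X lo hi N) {Q : Finset (ℕ × ℤ)} {K i n : ℕ}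
    (hK : i + n = K) (hKN : K ≤ N) (hQ : Q ⊆ Ico i K ×ˢ Icc lo hi) {β₁ β₂ : Finset ℤ} (b1 : β₁ ⊆ Icc lo hi)
    (b2 : β₂ ⊆ Icc lo hi) (hlt : ∀ x ∈ β₁, ∀ x' ∈ β₂, x < x') {κ e1 e2 Lam F0 ZM ZR : ℝ} {ph : ℤ → ℝ} (hκ : 0 ≤ κ)
    (he1 : 0 ≤ e1) (he2 : 0 ≤ e2) (hL : 0 ≤ Lam) (hF0 : 0 ≤ F0) (hz : Lam ^ 2 * (e2 + e1 * (1 + e2)) ≤ 1)
    (hZM : ZM = ∑ y ∈ Icc lo hi, l y * bw w p 0 N y) (hZR : ZR = ∑ y ∈ Icc lo hi, r y * bw w p 0 N y)
    (hS : Seams (Icc lo hi) β₁ β₂ (fw w p l i) (fw w p r i) (bw w p i (N - i)) ph e1 e2 Lam F0)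
    (hH : ∀ x ∈ β₁, ∀ x' ∈ β₂, κ * (bw w p i (N - i) x * bw w p i (N - i) x') ≤ HH w p Q lo hi N K i n x x') :
    κ * (1 - 2 * (Lam ^ 2 * (e2 + e1 * (1 + e2)))) * (ZM * ZR) ≤ ∑ c ∈ Q, cq w p l r N c.1 c.2 := by
  have hlo : lo + N ≤ hi := by
    have := h.X0
    have := h.X1
    omega
  have hd : Disjoint β₁ β₂ := disjoint_left.2 fun x hx hx' => absurd (hlt x hx x hx') (lt_irrefl x)
  have zM : ∑ a ∈ Icc lo hi, fw w p l i a * bw w p i (N - i) a = ZM := by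
    rw [hZM, sum_fw_bw (fun y hy => (h.lo0 y hy).1) (fun y hy => (h.hi0 y hy).1) hlo i (by omega)]
  have zR : ∑ a ∈ Icc lo hi, fw w p r i a * bw w p i (N - i) a = ZR := by
    rw [hZR, sum_fw_bw (fun y hy => (h.lo0 y hy).2) (fun y hy => (h.hi0 y hy).2) hlo i (by omega)]
  have A0 : ∀ a, 0 ≤ fw w p l i a := fw_nonneg hw hp h.g.l0 i
  have B0 : ∀ a, 0 ≤ fw w p r i a := fw_nonneg hw hp h.g.r0 i
  have F0' : ∀ a, 0 < bw w p i (N - i) a := bw_pos hw hp _ _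
  have dA := seam_dom b1 b2 hd A0 hF0 hL he1 he2 hS.offa hS.ta hS.r1 hS.r2 (fun x hx => hS.r3 x (mem_union_left _ hx))
  have dB := seam_dom b2 b1 hd.symm B0 hF0 hL he1 he2 (by rw [union_comm]; exact hS.offb) hS.tb
    (by rw [union_comm]; exact hS.r1) (by rw [union_comm]; exact hS.r2) (fun x hx => hS.r3 x (mem_union_right _ hx))
  rw [zM] at dA
  rw [zR] at dB
  exact cmpZ83 hw hp h hK hKN hQ b1 b2 hlt hκ hz hZM hZR hH
    (one_sub (sum_nonneg fun x _ => mul_nonneg (A0 x) (F0' x).le) dA hz)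
    (one_sub (sum_nonneg fun x _ => mul_nonneg (B0 x) (F0' x).le) dB hz)

end

end Pool.Agent.W_7d29a1_C1.S83
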