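import Pool.Agent.W_7d29a1_C1.Ctx60

/-!
Both halves (MP_7d29a1_pr), attractor route: NEAR. The contacts in the first `d` rows cost `d ^ 2` times the mean share of the sites
nearer than `d` in the right group (helper83).
-/

set_option autoImplicit false

namespace Pool.Agent.W_7d29a1_C1.H83

open Finset MeasureTheory ProbabilityTheory
open Pool.Agent.W_7d29a1_F
open Pool.Agent.W_7d29a1_C1.K91 (Box Grp cut zs jn wt wt_pos measurable_wt sum_shift)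
open Pool.Agent.W_7d29a1_C1.K91P Pool.Agent.W_7d29a1_C1.H60

noncomputable section

/-! ### One group -/

section det

variable {w w' : ℕ → ℤ → ℝ} {p : ℕ → ℝ} {m m' : ℤ → ℝ} {lo hi : ℤ} {N : ℕ}

/-- The masses of one group are transported. -/
theorem sum_fw_bw (h0 : ∀ y, y < lo → m y = 0) (h1 : ∀ y, hi - N < y → m y = 0) (hlh : lo ≤ hi) : ∀ k, k ≤ N →
    ∑ y ∈ Icc lo hi, fw w p m k y * bw w p k (N - k) y = ∑ y ∈ Icc lo hi, m y * bw w p 0 N y
  | 0, _ => rfl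
  | k + 1, hk => by
    have hkN : ((k : ℕ) : ℤ) < N := by exact_mod_cast hk
    rw [← sum_fw_bw h0 h1 hlh k (by omega)]
    have e0 : ∀ y ∈ Icc lo hi, fw w p m (k + 1) y * bw w p (k + 1) (N - (k + 1)) y =
        w k y * fw w p m k y * bw w p (k + 1) (N - (k + 1)) y +
        (fun z => p k * (w k z * fw w p m k z) * bw w p (k + 1) (N - (k + 1)) (z + 1)) (y - 1) := by
      intro y _
      show _ = _ + p k * (w k (y - 1) * fw w p m k (y - 1)) * bw w p (k + 1) (N - (k + 1)) (y - 1 + 1)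
      rw [fw_succ, sub_add_cancel]
      ring
    have e1 : ∑ y ∈ Icc lo hi, (fun z => p k * (w k z * fw w p m k z) * bw w p (k + 1) (N - (k + 1)) (z + 1)) (y - 1) =
        ∑ y ∈ Icc lo hi, (fun z => p k * (w k z * fw w p m k z) * bw w p (k + 1) (N - (k + 1)) (z + 1)) y := by
      refine sum_shift (f := fun z => p k * (w k z * fw w p m k z) * bw w p (k + 1) (N - (k + 1)) (z + 1)) hlh ?_ ?_
      · show p k * (w k (lo - 1) * fw w p m k (lo - 1)) * _ = 0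
        rw [fw_lo h0 k _ (show lo - 1 < lo by omega)]
        ring
      · show p k * (w k hi * fw w p m k hi) * _ = 0
        rw [fw_hi (B := hi - N) h1 k hi (by omega)]
        ring
    rw [sum_congr rfl e0, sum_add_distrib, e1, ← sum_add_distrib]
    refine sum_congr rfl fun y _ => ?_
    rw [bw_eq (show k < N by omega)]
    unfold GG
    ring

/-- The masses of the later rows moved by one. -/
theorem bw_shift : ∀ (j k : ℕ) (y : ℤ), (∀ i, k ≤ i → ∀ y, w' i y = w i (y - 1)) → bw w' p k j y = bw w p k j (y - 1)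
  | 0, k, y, _ => by rw [bw_zero, bw_zero]
  | j + 1, k, y, h => by
    rw [bw_succ, bw_succ, h k le_rfl, bw_shift j (k + 1) y (fun i hi => h i (by omega)),
      bw_shift j (k + 1) (y + 1) (fun i hi => h i (by omega))]
    rw [show y + 1 - 1 = y - 1 + 1 by ring]

theorem fw_mono (hw : ∀ k y, 0 < w k y) (hp : ∀ k, 0 < p k) (h : ∀ y, m y ≤ m' y) : ∀ (k : ℕ) (y : ℤ), fw w p m k y ≤ fw w p m' k y
  | 0, y => h y
  | k + 1, y => by
    rw [fw_succ, fw_succ]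
    have h1 := fw_mono hw hp h k y
    have h2 := fw_mono hw hp h k (y - 1)
    exact add_le_add (mul_le_mul_of_nonneg_left h1 (hw k y).le)
      (mul_le_mul_of_nonneg_left (mul_le_mul_of_nonneg_left h2 (hw k (y - 1)).le) (hp k).le)

theorem zs_ge {S : Finset ℤ} {m u G : ℤ → ℝ} (hm : ∀ y, 0 ≤ m y) (hu : ∀ y, 0 < u y) (hG : ∀ y, 0 < G y) {q y : ℤ} (hy : y ∈ S) :
    m y * u y * (if y < q then G y else G (y - 1)) ≤ zs S m u G q := by
  unfold zs
  refine single_le_sum (f := fun y => m y * u y * (if y < q then G y else G (y - 1))) (fun z _ => ?_) hy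
  refine mul_nonneg (mul_nonneg (hm z) (hu z).le) ?_
  split_ifs
  · exact (hG z).le
  · exact (hG (z - 1)).le

theorem frac_mono {u U F : ℝ} (hu : 0 ≤ u) (hF : 0 ≤ F) (h : u ≤ U) : u / (u + F) ≤ U / (U + F) := by
  rcases eq_or_lt_of_le hu with h0 | h0
  · rw [← h0, zero_div]
    exact div_nonneg (hu.trans h) (add_nonneg (hu.trans h) hF)
  · rw [div_le_div_iff₀ (by linarith) (by linarith)]
    have := mul_le_mul_of_nonneg_right h hF
    linarith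

end det

/-! ### Shifts of the environment -/

/-- The rows after `i` moved by one. -/
def su (i : ℕ) (η : Env) : Env := fun a => η (if (i : ℤ) < a.1 then (a.1, a.2 - 1) else a)

/-- All rows moved by one. -/
def sr (η : Env) : Env := fun a => η (a.1, a.2 + 1)

theorem mp_su {μ : Measure ℝ} [IsProbabilityMeasure μ] (i : ℕ) : MeasurePreserving (su i) (law μ) (law μ) := by
  refine ⟨measurable_pi_iff.2 fun a => measurable_pi_apply _, ?_⟩
  refine Measure.map_infinitePi_infinitePi_of_inj (P := fun _ : Pt => μ)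
    (f := fun a : Pt => if (i : ℤ) < a.1 then (a.1, a.2 - 1) else a) ?_
  rintro ⟨a, x⟩ ⟨b, y⟩ h
  simp only at h
  split_ifs at h <;> simp only [Prod.mk.injEq] at h ⊢ <;> omega

theorem mp_sr {μ : Measure ℝ} [IsProbabilityMeasure μ] : MeasurePreserving sr (law μ) (law μ) := by
  refine ⟨measurable_pi_iff.2 fun a => measurable_pi_apply _, ?_⟩
  refine Measure.map_infinitePi_infinitePi_of_inj (P := fun _ : Pt => μ) (f := fun a : Pt => ((a.1, a.2 + 1) : Pt)) ?_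
  rintro ⟨a, x⟩ ⟨b, y⟩ h
  simp only [Prod.mk.injEq] at h ⊢
  omega

theorem wt_su_le (η : Env) {i k : ℕ} (h : k ≤ i) (y : ℤ) : wt (su i η) k y = wt η k y := by
  unfold wt su
  rw [if_neg (show ¬ (i : ℤ) < (((k : ℤ), y) : Pt).1 by
    show ¬ (i : ℤ) < (k : ℤ)
    omega)]

theorem wt_su_gt (η : Env) {i k : ℕ} (h : i < k) (y : ℤ) : wt (su i η) k y = wt η k (y - 1) := by
  unfold wt su
  rw [if_pos (show (i : ℤ) < (((k : ℤ), y) : Pt).1 by
    show (i : ℤ) < (k : ℤ)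
    omega)]

theorem wt_sr (η : Env) (k : ℕ) (y : ℤ) : wt (sr η) k y = wt η k (y + 1) := by
  unfold wt sr
  rfl

theorem fw_su (η : Env) {p : ℕ → ℝ} {m : ℤ → ℝ} (i : ℕ) (y : ℤ) : fw (wt (su i η)) p m i y = fw (wt η) p m i y :=
  fw_congr i (fun k hk z => wt_su_le η hk.le z) y

theorem GG_su (η : Env) {p : ℕ → ℝ} {N : ℕ} (i : ℕ) (y : ℤ) : GG (wt (su i η)) p N i y = GG (wt η) p N i (y - 1) := by
  unfold GG
  rw [bw_shift (w := wt η) _ _ _ (fun k hk z => wt_su_gt η (show i < k by omega) z),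
    bw_shift (w := wt η) _ _ _ (fun k hk z => wt_su_gt η (show i < k by omega) z)]
  rw [show y + 1 - 1 = y - 1 + 1 by ring]

theorem bw_sr (η : Env) {p : ℕ → ℝ} (j k : ℕ) (y : ℤ) : bw (wt (sr η)) p k j y = bw (wt η) p k j (y + 1) := by
  have h := bw_shift (p := p) (w := wt (sr η)) (w' := wt η) j k (y + 1) (fun i _ z => by
    rw [wt_sr, sub_add_cancel])
  rw [h, add_sub_cancel_right]

/-! ### The contexts -/

section ctx

variable (Γ : Cx)

/-- The right group, the sites up to `d`. -/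
def rn (d : ℕ) (y : ℤ) : ℝ := if y ≤ d then Γ.r y else 0

/-- The right group, the sites after `d`. -/
def rf (d : ℕ) (y : ℤ) : ℝ := if y ≤ d then 0 else Γ.r y

/-- The share of the first `d` sites in the right group (gap `1`). -/
def sh1 (d : ℕ) (η : Env) : ℝ := (∑ y ∈ Icc (0 : ℤ) Γ.hi, rn Γ d y * bw (wt η) Γ.p 0 Γ.N y) / Γ.ZR η

variable {Γ}

theorem p_pos (i : ℕ) : 0 < Γ.p i := by
  unfold Cx.p
  split_ifs
  · exact Real.exp_pos _
  · exact Real.exp_pos _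

theorem r_nonneg (hq0 : ∀ j, j < Γ.k → 0 ≤ Γ.q j) (y : ℤ) : 0 ≤ Γ.r y := by
  unfold Cx.r
  split_ifs with h
  · exact hq0 _ (by omega)
  · exact le_rfl

theorem r_add (d : ℕ) : (fun y => rn Γ d y + rf Γ d y) = Γ.r := by
  funext y
  unfold rn rf
  split_ifs
  · exact add_zero _
  · exact zero_add _

theorem rn_nonneg (hq0 : ∀ j, j < Γ.k → 0 ≤ Γ.q j) (d : ℕ) (y : ℤ) : 0 ≤ rn Γ d y := by
  unfold rn
  split_ifs
  · exact r_nonneg hq0 y
  · exact le_rfl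

theorem rf_nonneg (hq0 : ∀ j, j < Γ.k → 0 ≤ Γ.q j) (d : ℕ) (y : ℤ) : 0 ≤ rf Γ d y := by
  unfold rf
  split_ifs
  · exact le_rfl
  · exact r_nonneg hq0 y

theorem r_lo {y : ℤ} (h : y < 1) : Γ.r y = 0 := by
  unfold Cx.r
  rw [if_neg (by omega)]

theorem r_hi {y : ℤ} (h : (Γ.k : ℤ) < y) : Γ.r y = 0 := by
  unfold Cx.r
  rw [if_neg (by omega)]

theorem l_nonneg (y : ℤ) : 0 ≤ Cx.l y := by
  unfold Cx.l
  split_ifs
  · exact zero_le_one
  · exact le_rfl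

/-- The box of the two groups. -/
theorem box (hk : 1 ≤ Γ.k) (hq0 : ∀ j, j < Γ.k → 0 ≤ Γ.q j) : Box Cx.l Γ.r 1 0 Γ.hi Γ.N where
  g := ⟨l_nonneg, r_nonneg hq0, fun y hy => by
    unfold Cx.l
    rw [if_neg (by omega)], fun y hy => r_lo hy⟩
  lo0 := fun y hy => ⟨by
    unfold Cx.l
    rw [if_neg (by omega)], r_lo (by omega)⟩
  hi0 := fun y hy => by
    unfold Cx.hi at hy
    refine ⟨?_, r_hi (by omega)⟩
    unfold Cx.l
    rw [if_neg (by omega)]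
  X0 := by norm_num
  X1 := by
    unfold Cx.hi
    omega
  ps := ⟨0, by
    rw [r_lo (by norm_num)]
    unfold Cx.l
    norm_num⟩

/-- The box of the left group and the near sites. -/
theorem boxn (hk : 1 ≤ Γ.k) (hq0 : ∀ j, j < Γ.k → 0 ≤ Γ.q j) (d : ℕ) : Box Cx.l (rn Γ d) 1 0 Γ.hi Γ.N where
  g := ⟨l_nonneg, rn_nonneg hq0 d, fun y hy => by
    unfold Cx.l
    rw [if_neg (by omega)], fun y hy => by
    unfold rn
    rw [r_lo hy]
    split_ifs <;> rfl⟩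
  lo0 := fun y hy => ⟨by
    unfold Cx.l
    rw [if_neg (by omega)], by
    unfold rn
    rw [r_lo (by omega)]
    split_ifs <;> rfl⟩
  hi0 := fun y hy => by
    unfold Cx.hi at hy
    refine ⟨?_, ?_⟩
    · unfold Cx.l
      rw [if_neg (by omega)]
    · unfold rn
      rw [r_hi (by omega)]
      split_ifs <;> rfl
  X0 := by norm_num
  X1 := by
    unfold Cx.hi
    omega
  ps := ⟨0, by
    unfold rn
    rw [r_lo (by norm_num)]
    unfold Cx.l
    norm_num⟩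

/-- The total mass of the right group is positive. -/
theorem ZR_pos (hk : 1 ≤ Γ.k) (hq0 : ∀ j, j < Γ.k → 0 ≤ Γ.q j) (hq1 : ∃ j, j < Γ.k ∧ 0 < Γ.q j) (η : Env) : 0 < Γ.ZR η := by
  obtain ⟨j, hj, hj1⟩ := hq1
  unfold Cx.ZR
  refine sum_pos' (fun y _ => mul_nonneg (r_nonneg hq0 y) (bw_pos (wt_pos η) p_pos _ _ _).le) ⟨(j : ℤ) + 1, ?_, ?_⟩
  · rw [mem_Icc]
    unfold Cx.hi
    omega
  · refine mul_pos ?_ (bw_pos (wt_pos η) p_pos _ _ _)
    unfold Cx.r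
    rw [if_pos (by omega), show ((j : ℤ) + 1 - 1).toNat = j by omega]
    exact hj1

theorem ZM_pos (η : Env) : 0 < Γ.ZM η := bw_pos (wt_pos η) p_pos _ _ _

/-- The determinant, the near sites only. -/
theorem dp_near (η : Env) {i d : ℕ} (hi : i < d) (x y : ℤ) (hxy : y ≤ x) (hyx : x ≤ y + 1) :
    dp (wt η) Γ.p Cx.l Γ.r i y x = dp (wt η) Γ.p Cx.l (rn Γ d) i y x := by
  have hid : (i : ℤ) + 1 ≤ d := by exact_mod_cast hi
  unfold dp
  rw [← r_add (Γ := Γ) d]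
  rw [fw_add (l := rn Γ d) (r := rf Γ d), fw_add (l := rn Γ d) (r := rf Γ d)]
  rcases le_or_gt x (i + 1) with h | h
  · have e1 : fw (wt η) Γ.p (rf Γ d) i x = 0 := fw_lo (A := (d : ℤ) + 1) (fun z hz => by
      unfold rf
      rw [if_pos (by omega)]) i x (by omega)
    have e2 : fw (wt η) Γ.p (rf Γ d) i y = 0 := fw_lo (A := (d : ℤ) + 1) (fun z hz => by
      unfold rf
      rw [if_pos (by omega)]) i y (by omega)
    rw [e1, e2, add_zero, add_zero]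
  · have e1 : fw (wt η) Γ.p Cx.l i x = 0 := fw_hi (B := 0) (fun z hz => by
      unfold Cx.l
      rw [if_neg (by omega)]) i x (by omega)
    have e2 : fw (wt η) Γ.p Cx.l i y = 0 ∨ y ≤ i := by
      rcases le_or_gt y i with h2 | h2
      · exact Or.inr h2
      · exact Or.inl (fw_hi (B := 0) (fun z hz => by
          unfold Cx.l
          rw [if_neg (by omega)]) i y (by omega))
    rcases e2 with e2 | e2
    · rw [e1, e2]
      ring
    · omega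


/-- The two sums of the right group. -/
theorem sum_r (hq0 : ∀ j, j < Γ.k → 0 ≤ Γ.q j) {K : ℕ} (hK : K ≤ Γ.k) (f : ℤ → ℝ) :
    ∑ y ∈ Icc (0 : ℤ) Γ.hi, rn Γ K y * f y = ∑ j ∈ range K, Γ.q j * f ((j : ℤ) + 1) := by
  have e0 : ∑ y ∈ Icc (0 : ℤ) Γ.hi, rn Γ K y * f y = ∑ y ∈ Icc (1 : ℤ) K, Γ.q (y - 1).toNat * f y := by
    have h1 : Icc (1 : ℤ) K ⊆ Icc (0 : ℤ) Γ.hi := by
      intro y hy
      rw [mem_Icc] at hy ⊢
      unfold Cx.hi
      omega
    rw [← sum_subset h1 (f := fun y => rn Γ K y * f y)]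
    · refine sum_congr rfl fun y hy => ?_
      rw [mem_Icc] at hy
      show rn Γ K y * f y = _
      unfold rn Cx.r
      rw [if_pos hy.2, if_pos (by omega)]
    · intro y _ hy
      rw [mem_Icc] at hy
      show rn Γ K y * f y = 0
      unfold rn Cx.r
      split_ifs
      · omega
      · exact zero_mul _
      · exact zero_mul _
  rw [e0]
  refine sum_nbij' (fun y => (y - 1).toNat) (fun j => (j : ℤ) + 1) ?_ ?_ ?_ ?_ ?_
  · intro y hy
    rw [mem_Icc] at hy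
    rw [mem_range]
    omega
  · intro j hj
    rw [mem_range] at hj
    rw [mem_Icc]
    omega
  · intro y hy
    rw [mem_Icc] at hy
    omega
  · intro j _
    omega
  · intro y hy
    rw [mem_Icc] at hy
    show Γ.q (y - 1).toNat * f y = Γ.q (y - 1).toNat * f (((y - 1).toNat : ℤ) + 1)
    rw [show (((y - 1).toNat : ℤ) + 1) = y by omega]

theorem rn_min (d : ℕ) : rn Γ d = rn Γ (min d Γ.k) := by
  funext y
  unfold rn
  by_cases h1 : y ≤ d
  · by_cases h2 : y ≤ ((min d Γ.k : ℕ) : ℤ)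
    · rw [if_pos h1, if_pos h2]
    · rw [if_pos h1, if_neg h2]
      exact r_hi (by
        rw [Nat.cast_min] at h2
        omega)
  · rw [if_neg h1, if_neg (by
      rw [Nat.cast_min]
      omega)]

theorem r_eq_rn : Γ.r = rn Γ Γ.k := by
  funext y
  unfold rn
  split_ifs with h
  · rfl
  · exact r_hi (by omega)

/-- The share of the near sites, in the indices of `near`. -/
theorem sh1_eq (hq0 : ∀ j, j < Γ.k → 0 ≤ Γ.q j) (d : ℕ) (η : Env) : sh1 Γ d η =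
    (∑ j ∈ range (min d Γ.k), Γ.q j * bw (wt (sr η)) Γ.p 0 Γ.N (j : ℤ)) /
      (∑ j ∈ range Γ.k, Γ.q j * bw (wt (sr η)) Γ.p 0 Γ.N (j : ℤ)) := by
  unfold sh1 Cx.ZR
  rw [rn_min d, sum_r hq0 (min_le_right _ _) (fun y => bw (wt η) Γ.p 0 Γ.N y)]
  rw [r_eq_rn, sum_r hq0 le_rfl (fun y => bw (wt η) Γ.p 0 Γ.N y)]
  congr 1
  · exact sum_congr rfl fun j _ => by rw [bw_sr]
  · exact sum_congr rfl fun j _ => by rw [bw_sr]

theorem sh1_nonneg (hk : 1 ≤ Γ.k) (hq0 : ∀ j, j < Γ.k → 0 ≤ Γ.q j) (hq1 : ∃ j, j < Γ.k ∧ 0 < Γ.q j) (d : ℕ) (η : Env) :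
    0 ≤ sh1 Γ d η :=
  div_nonneg (sum_nonneg fun y _ => mul_nonneg (rn_nonneg hq0 d y) (bw_pos (wt_pos η) p_pos _ _ _).le) (ZR_pos hk hq0 hq1 η).le

theorem sh1_le_one (hk : 1 ≤ Γ.k) (hq0 : ∀ j, j < Γ.k → 0 ≤ Γ.q j) (hq1 : ∃ j, j < Γ.k ∧ 0 < Γ.q j) (d : ℕ) (η : Env) :
    sh1 Γ d η ≤ 1 := by
  unfold sh1
  rw [div_le_one (ZR_pos hk hq0 hq1 η)]
  unfold Cx.ZR
  refine sum_le_sum fun y _ => mul_le_mul_of_nonneg_right ?_ (bw_pos (wt_pos η) p_pos _ _ _).le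
  unfold rn
  split_ifs
  · exact le_rfl
  · exact r_nonneg hq0 y

theorem meas_sh1 (d : ℕ) : Measurable (sh1 Γ d) := by
  unfold sh1 Cx.ZR
  exact (Finset.measurable_sum _ fun y _ => (meas_bw _ _ _).const_mul _).div
    (Finset.measurable_sum _ fun y _ => (meas_bw _ _ _).const_mul _)

/-- **The mean share of the near sites.** -/
theorem int_sh1 {μ : Measure ℝ} [IsProbabilityMeasure μ] (hq0 : ∀ j, j < Γ.k → 0 ≤ Γ.q j) (d : ℕ) :
    ∫ η, sh1 Γ d η ∂(law μ) = Γ.near μ d := by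
  simp only [sh1_eq hq0 d]
  unfold Cx.near
  have hmp := mp_sr (μ := μ)
  have h2 := integral_map (μ := law μ) (φ := sr) hmp.measurable.aemeasurable
    (f := fun η : Env => (∑ j ∈ range (min d Γ.k), Γ.q j * bw (wt η) Γ.p 0 Γ.N (j : ℤ)) /
      (∑ j ∈ range Γ.k, Γ.q j * bw (wt η) Γ.p 0 Γ.N (j : ℤ)))
    ((Finset.measurable_sum _ fun j _ => (meas_bw _ _ _).const_mul _).div
      (Finset.measurable_sum _ fun j _ => (meas_bw _ _ _).const_mul _)).aestronglyMeasurable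
  rw [hmp.map_eq] at h2
  exact h2.symm

/-- **The weight of a near contact, pointwise**: the share of the near sites, the rows after the contact moved by one. -/
theorem ws_le (hk : 1 ≤ Γ.k) (hq0 : ∀ j, j < Γ.k → 0 ≤ Γ.q j) (hq1 : ∃ j, j < Γ.k ∧ 0 < Γ.q j) {i d : ℕ} (hi : i < d)
    (hiN : i < Γ.N) {x : ℤ} (hx1 : 1 ≤ x) (hx2 : x ≤ 1 + Γ.N) (η : Env) : 0 ≤ Γ.ws (i, x) η ∧
      Γ.ws (i, x) η ≤ if x ≤ i + 1 then Γ.p i * sh1 Γ d (su i η) else 0 := by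
  have hid : (i : ℤ) + 1 ≤ d := by exact_mod_cast hi
  have hw := wt_pos η
  have hp : ∀ k, 0 < Γ.p k := p_pos
  have hrn := rn_nonneg hq0 d
  have hrf := rf_nonneg hq0 d
  have hl0 := fw_nonneg hw hp l_nonneg i (x - 1)
  have hl1 := fw_nonneg hw hp l_nonneg i x
  have hr0 := fw_nonneg hw hp (r_nonneg hq0) i (x - 1)
  have hn0 := fw_nonneg hw hp hrn i x
  have hn1 := fw_nonneg hw hp hrn i (x - 1)
  have hG := GG_pos (N := Γ.N) hw hp i
  have hD0 : 0 ≤ dp (wt η) Γ.p Cx.l Γ.r i (x - 1) x := dp_nonneg hw hp (box hk hq0).g i _ _ (by omega)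
  have hzl0 : 0 ≤ zs (Icc 0 Γ.hi) (fw (wt η) Γ.p Cx.l i) (wt η i) (GG (wt η) Γ.p Γ.N i) x := by
    unfold zs
    refine sum_nonneg fun y _ => mul_nonneg (mul_nonneg (fw_nonneg hw hp l_nonneg i y) (hw i y).le) ?_
    split_ifs
    · exact (hG y).le
    · exact (hG (y - 1)).le
  have hzr0 : 0 ≤ zs (Icc 0 Γ.hi) (fw (wt η) Γ.p Γ.r i) (wt η i) (GG (wt η) Γ.p Γ.N i) x := by
    unfold zs
    refine sum_nonneg fun y _ => mul_nonneg (mul_nonneg (fw_nonneg hw hp (r_nonneg hq0) i y) (hw i y).le) ?_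
    split_ifs
    · exact (hG y).le
    · exact (hG (y - 1)).le
  have hpi := hp i
  have hw1 := hw i (x - 1)
  have hw2 := hw i x
  have hG1 := hG (x - 1)
  refine ⟨?_, ?_⟩
  · unfold Cx.ws
    exact div_nonneg (mul_nonneg hD0 (by positivity)) (mul_nonneg hzl0 hzr0)
  split_ifs with hxi
  · -- the numerator
    have hD1 : dp (wt η) Γ.p Cx.l Γ.r i (x - 1) x ≤ fw (wt η) Γ.p Cx.l i (x - 1) * fw (wt η) Γ.p (rn Γ d) i x := by
      rw [dp_near η hi x (x - 1) (by omega) (by omega)]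
      unfold dp
      have := mul_nonneg hl1 hn1
      linarith
    -- the two factors
    have hA : fw (wt η) Γ.p Cx.l i (x - 1) * wt η i (x - 1) * GG (wt η) Γ.p Γ.N i (x - 1) ≤
        zs (Icc 0 Γ.hi) (fw (wt η) Γ.p Cx.l i) (wt η i) (GG (wt η) Γ.p Γ.N i) x := by
      have h := zs_ge (S := Icc 0 Γ.hi) (q := x) (y := x - 1) (fw_nonneg hw hp l_nonneg i) (hw i) hG (by
        rw [mem_Icc]
        unfold Cx.hi
        omega)
      rwa [if_pos (show x - 1 < x by omega)] at h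
    obtain ⟨F, hF⟩ : ∃ F : ℝ, F = ∑ y ∈ Icc (0 : ℤ) Γ.hi, fw (wt η) Γ.p (rf Γ d) i y * wt η i y * GG (wt η) Γ.p Γ.N i (y - 1) := ⟨_, rfl⟩
    obtain ⟨U, hU⟩ : ∃ U : ℝ, U = ∑ y ∈ Icc (0 : ℤ) Γ.hi, fw (wt η) Γ.p (rn Γ d) i y * wt η i y * GG (wt η) Γ.p Γ.N i (y - 1) := ⟨_, rfl⟩
    have hF0 : 0 ≤ F := by
      rw [hF]
      exact sum_nonneg fun y _ => mul_nonneg (mul_nonneg (fw_nonneg hw hp hrf i y) (hw i y).le) (hG (y - 1)).le
    have hxm : x ∈ Icc (0 : ℤ) Γ.hi := by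
      rw [mem_Icc]
      unfold Cx.hi
      omega
    have hB : fw (wt η) Γ.p (rn Γ d) i x * wt η i x * GG (wt η) Γ.p Γ.N i (x - 1) + F ≤
        zs (Icc 0 Γ.hi) (fw (wt η) Γ.p Γ.r i) (wt η i) (GG (wt η) Γ.p Γ.N i) x := by
      have e1 : zs (Icc 0 Γ.hi) (fw (wt η) Γ.p Γ.r i) (wt η i) (GG (wt η) Γ.p Γ.N i) x =
          zs (Icc 0 Γ.hi) (fw (wt η) Γ.p (rn Γ d) i) (wt η i) (GG (wt η) Γ.p Γ.N i) x +
          zs (Icc 0 Γ.hi) (fw (wt η) Γ.p (rf Γ d) i) (wt η i) (GG (wt η) Γ.p Γ.N i) x := by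
        unfold zs
        rw [← sum_add_distrib]
        refine sum_congr rfl fun y _ => ?_
        rw [← r_add (Γ := Γ) d, fw_add (l := rn Γ d) (r := rf Γ d)]
        ring
      have e2 : zs (Icc 0 Γ.hi) (fw (wt η) Γ.p (rf Γ d) i) (wt η i) (GG (wt η) Γ.p Γ.N i) x = F := by
        rw [hF]
        unfold zs
        refine sum_congr rfl fun y _ => ?_
        by_cases hy : y < x
        · rw [fw_lo (A := (d : ℤ) + 1) (fun z hz => by
            unfold rf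
            rw [if_pos (by omega)]) i y (by omega)]
          ring
        · rw [if_neg hy]
      have h := zs_ge (S := Icc 0 Γ.hi) (q := x) (y := x) (fw_nonneg hw hp hrn i) (hw i) hG hxm
      rw [if_neg (show ¬ x < x by omega)] at h
      rw [e1, e2]
      linarith
    have hu0 : 0 ≤ fw (wt η) Γ.p (rn Γ d) i x * wt η i x * GG (wt η) Γ.p Γ.N i (x - 1) := by positivity
    have huU : fw (wt η) Γ.p (rn Γ d) i x * wt η i x * GG (wt η) Γ.p Γ.N i (x - 1) ≤ U := by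
      rw [hU]
      exact single_le_sum (f := fun y => fw (wt η) Γ.p (rn Γ d) i y * wt η i y * GG (wt η) Γ.p Γ.N i (y - 1))
        (fun y _ => mul_nonneg (mul_nonneg (fw_nonneg hw hp hrn i y) (hw i y).le) (hG (y - 1)).le) hxm
    -- the shifted environment
    have hlh : (0 : ℤ) ≤ Γ.hi := by
      unfold Cx.hi
      omega
    have tr : ∀ m : ℤ → ℝ, (∀ y, y < 0 → m y = 0) → (∀ y, Γ.hi - Γ.N < y → m y = 0) →
        ∑ y ∈ Icc (0 : ℤ) Γ.hi, fw (wt η) Γ.p m i y * wt η i y * GG (wt η) Γ.p Γ.N i (y - 1) =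
          ∑ y ∈ Icc (0 : ℤ) Γ.hi, m y * bw (wt (su i η)) Γ.p 0 Γ.N y := by
      intro m h0 h1
      rw [← sum_fw_bw (w := wt (su i η)) (p := Γ.p) h0 h1 hlh i hiN.le]
      refine sum_congr rfl fun y _ => ?_
      rw [bw_eq hiN, fw_su, GG_su, wt_su_le η le_rfl]
      ring
    have sN : (Γ.hi : ℤ) - Γ.N = Γ.k := by
      unfold Cx.hi
      ring
    have trn : U = ∑ y ∈ Icc (0 : ℤ) Γ.hi, rn Γ d y * bw (wt (su i η)) Γ.p 0 Γ.N y := by
      rw [hU]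
      refine tr _ (fun y hy => ?_) fun y hy => ?_
      · unfold rn
        rw [r_lo (by omega)]
        split_ifs <;> rfl
      · unfold rn
        rw [r_hi (by omega)]
        split_ifs <;> rfl
    have trf : F = ∑ y ∈ Icc (0 : ℤ) Γ.hi, rf Γ d y * bw (wt (su i η)) Γ.p 0 Γ.N y := by
      rw [hF]
      refine tr _ (fun y hy => ?_) fun y hy => ?_
      · unfold rf
        rw [r_lo (by omega)]
        split_ifs <;> rfl
      · unfold rf
        rw [r_hi (by omega)]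
        split_ifs <;> rfl
    have hsum : U + F = Γ.ZR (su i η) := by
      rw [trn, trf, ← sum_add_distrib]
      unfold Cx.ZR
      refine sum_congr rfl fun y _ => ?_
      rw [← add_mul]
      congr 1
      exact congrFun (r_add (Γ := Γ) d) y
    have hsh : sh1 Γ d (su i η) = U / (U + F) := by
      rw [hsum, trn]
      rfl
    rw [hsh]
    -- the quotient
    obtain ⟨a, ha⟩ : ∃ a : ℝ, a = fw (wt η) Γ.p Cx.l i (x - 1) * wt η i (x - 1) * GG (wt η) Γ.p Γ.N i (x - 1) := ⟨_, rfl⟩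
    obtain ⟨u, hu⟩ : ∃ u : ℝ, u = fw (wt η) Γ.p (rn Γ d) i x * wt η i x * GG (wt η) Γ.p Γ.N i (x - 1) := ⟨_, rfl⟩
    obtain ⟨A, hAA⟩ : ∃ A : ℝ, A = zs (Icc 0 Γ.hi) (fw (wt η) Γ.p Cx.l i) (wt η i) (GG (wt η) Γ.p Γ.N i) x := ⟨_, rfl⟩
    obtain ⟨B, hBB⟩ : ∃ B : ℝ, B = zs (Icc 0 Γ.hi) (fw (wt η) Γ.p Γ.r i) (wt η i) (GG (wt η) Γ.p Γ.N i) x := ⟨_, rfl⟩
    rw [← ha, ← hAA] at hA
    rw [← hu, ← hBB] at hB
    rw [← hu] at hu0 huU
    rw [← hAA] at hzl0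
    rw [← hBB] at hzr0
    have ha0 : 0 ≤ a := by
      rw [ha]
      positivity
    have hnum : dp (wt η) Γ.p Cx.l Γ.r i (x - 1) x * (Γ.p i * (wt η i (x - 1) * wt η i x) *
        GG (wt η) Γ.p Γ.N i (x - 1) ^ 2) ≤ Γ.p i * (a * u) := by
      have h := mul_le_mul_of_nonneg_right hD1 (show 0 ≤ Γ.p i * (wt η i (x - 1) * wt η i x) *
        GG (wt η) Γ.p Γ.N i (x - 1) ^ 2 by positivity)
      refine h.trans (le_of_eq ?_)
      rw [ha, hu]
      ring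
    have hquo : a * u / (A * B) ≤ U / (U + F) := by
      rw [← div_mul_div_comm]
      have q1 : a / A ≤ 1 := div_le_one_of_le₀ hA hzl0
      have q2 : u / B ≤ u / (u + F) := by
        rcases eq_or_lt_of_le hu0 with h0 | h0
        · rw [← h0, zero_div, zero_div]
        · exact div_le_div_of_nonneg_left hu0 (by linarith) hB
      have q3 := frac_mono hu0 hF0 huU
      have q4 : 0 ≤ u / B := div_nonneg hu0 hzr0
      calc a / A * (u / B) ≤ 1 * (u / B) := mul_le_mul_of_nonneg_right q1 q4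
        _ ≤ _ := by
          rw [one_mul]
          exact q2.trans q3
    show dp (wt η) Γ.p Cx.l Γ.r i (x - 1) x * (Γ.p i * (wt η i (x - 1) * wt η i x) *
        GG (wt η) Γ.p Γ.N i (x - 1) ^ 2) /
      (zs (Icc 0 Γ.hi) (fw (wt η) Γ.p Cx.l i) (wt η i) (GG (wt η) Γ.p Γ.N i) x *
        zs (Icc 0 Γ.hi) (fw (wt η) Γ.p Γ.r i) (wt η i) (GG (wt η) Γ.p Γ.N i) x) ≤ _
    rw [← hAA, ← hBB]
    calc _ ≤ Γ.p i * (a * u) / (A * B) := div_le_div_of_nonneg_right hnum (mul_nonneg hzl0 hzr0)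
      _ = Γ.p i * (a * u / (A * B)) := by ring
      _ ≤ _ := mul_le_mul_of_nonneg_left hquo hpi.le
  · -- no mass
    have e1 : dp (wt η) Γ.p Cx.l Γ.r i (x - 1) x = 0 := by
      have a1 : fw (wt η) Γ.p Cx.l i (x - 1) = 0 := fw_hi (B := 0) (fun z hz => by
        unfold Cx.l
        rw [if_neg (by omega)]) i (x - 1) (by omega)
      have a2 : fw (wt η) Γ.p Cx.l i x = 0 := fw_hi (B := 0) (fun z hz => by
        unfold Cx.l
        rw [if_neg (by omega)]) i x (by omega)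
      unfold dp
      rw [a1, a2]
      ring
    unfold Cx.ws
    show dp (wt η) Γ.p Cx.l Γ.r i (x - 1) x * _ / _ ≤ 0
    rw [e1, zero_mul, zero_div]


/-! ### Measurability -/

theorem meas_dp {p : ℕ → ℝ} {l r : ℤ → ℝ} (k : ℕ) (x y : ℤ) : Measurable fun η : Env => dp (wt η) p l r k x y :=
  ((meas_fw l k x).mul (meas_fw r k y)).sub ((meas_fw l k y).mul (meas_fw r k x))

theorem meas_zs {p : ℕ → ℝ} {m : ℤ → ℝ} {S : Finset ℤ} {N : ℕ} (k : ℕ) (q : ℤ) :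
    Measurable fun η : Env => zs S (fw (wt η) p m k) (wt η k) (GG (wt η) p N k) q := by
  unfold zs
  refine Finset.measurable_sum _ fun y _ => ((meas_fw m k y).mul (measurable_wt k y)).mul ?_
  split_ifs
  · exact meas_GG k y
  · exact meas_GG k (y - 1)

theorem meas_ws (c : ℕ × ℤ) : Measurable (Γ.ws c) := by
  unfold Cx.ws
  exact ((meas_dp _ _ _).mul ((measurable_const.mul ((measurable_wt _ _).mul (measurable_wt _ _))).mul
    ((meas_GG _ _).pow_const 2))).div ((meas_zs _ _).mul (meas_zs _ _))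

theorem meas_w (c : ℕ × ℤ) : Measurable (Γ.w c) := by
  unfold Cx.w Cx.ZM Cx.ZR
  exact ((meas_dp _ _ _).mul ((measurable_const.mul ((measurable_wt _ _).mul (measurable_wt _ _))).mul
    ((meas_bw _ _ _).pow_const 2))).div ((meas_bw _ _ _).mul (Finset.measurable_sum _ fun y _ => (meas_bw _ _ _).const_mul _))

/-! ### Expectations -/

variable {μ : Measure ℝ} [IsProbabilityMeasure μ]

theorem int_sh1_su (hk : 1 ≤ Γ.k) (hq0 : ∀ j, j < Γ.k → 0 ≤ Γ.q j) (hq1 : ∃ j, j < Γ.k ∧ 0 < Γ.q j) (d i : ℕ) :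
    Integrable (fun η => sh1 Γ d (su i η)) (law μ) ∧ ∫ η, sh1 Γ d (su i η) ∂(law μ) = Γ.near μ d := by
  have hmp := mp_su (μ := μ) i
  have h0 : Integrable (sh1 Γ d) (law μ) := (integrable_const (1 : ℝ)).mono' (meas_sh1 d).aestronglyMeasurable
    (ae_of_all _ fun η => by
      rw [Real.norm_eq_abs, abs_of_nonneg (sh1_nonneg hk hq0 hq1 d η)]
      exact sh1_le_one hk hq0 hq1 d η)
  refine ⟨hmp.integrable_comp_of_integrable h0, ?_⟩
  rw [← int_sh1 hq0 d]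
  have h2 := integral_map (μ := law μ) (φ := su i) hmp.measurable.aemeasurable (f := sh1 Γ d) (meas_sh1 d).aestronglyMeasurable
  rw [hmp.map_eq] at h2
  exact h2.symm

theorem near_nonneg (hk : 1 ≤ Γ.k) (hq0 : ∀ j, j < Γ.k → 0 ≤ Γ.q j) (hq1 : ∃ j, j < Γ.k ∧ 0 < Γ.q j) (d : ℕ) : 0 ≤ Γ.near μ d := by
  rw [← int_sh1 hq0 d]
  exact integral_nonneg fun η => sh1_nonneg hk hq0 hq1 d η

theorem near_le_one (hk : 1 ≤ Γ.k) (hq0 : ∀ j, j < Γ.k → 0 ≤ Γ.q j) (hq1 : ∃ j, j < Γ.k ∧ 0 < Γ.q j) (d : ℕ) : Γ.near μ d ≤ 1 := by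
  have h := (int_sh1_su (μ := μ) hk hq0 hq1 d 0)
  rw [← h.2]
  calc ∫ η, sh1 Γ d (su 0 η) ∂(law μ) ≤ ∫ _, (1 : ℝ) ∂(law μ) := integral_mono h.1 (integrable_const _) fun η =>
        sh1_le_one hk hq0 hq1 d _
    _ = 1 := by simp

/-- The weights of the contacts are bounded by the step weight. -/
theorem ws_le_p (hk : 1 ≤ Γ.k) (hq0 : ∀ j, j < Γ.k → 0 ≤ Γ.q j) (hq1 : ∃ j, j < Γ.k ∧ 0 < Γ.q j) {i : ℕ} (hiN : i < Γ.N)
    {x : ℤ} (hx1 : 1 ≤ x) (hx2 : x ≤ 1 + Γ.N) (η : Env) : 0 ≤ Γ.ws (i, x) η ∧ Γ.ws (i, x) η ≤ Γ.p i := by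
  have h := ws_le (d := i + 1) hk hq0 hq1 (Nat.lt_succ_self i) hiN hx1 hx2 η
  refine ⟨h.1, h.2.trans ?_⟩
  have hp := p_pos (Γ := Γ) i
  split_ifs
  · calc _ ≤ Γ.p i * 1 := mul_le_mul_of_nonneg_left (sh1_le_one hk hq0 hq1 _ _) hp.le
      _ = _ := mul_one _
  · exact hp.le

theorem ws_int (hk : 1 ≤ Γ.k) (hq0 : ∀ j, j < Γ.k → 0 ≤ Γ.q j) (hq1 : ∃ j, j < Γ.k ∧ 0 < Γ.q j) {i : ℕ} (hiN : i < Γ.N)
    {x : ℤ} (hx1 : 1 ≤ x) (hx2 : x ≤ 1 + Γ.N) : Integrable (Γ.ws (i, x)) (law μ) :=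
  (integrable_const (Γ.p i)).mono' (meas_ws _).aestronglyMeasurable (ae_of_all _ fun η => by
    have h := ws_le_p hk hq0 hq1 hiN hx1 hx2 η
    rw [Real.norm_eq_abs, abs_of_nonneg h.1]
    exact h.2)

/-- **The mean weight of a near contact.** -/
theorem int_ws (hk : 1 ≤ Γ.k) (hq0 : ∀ j, j < Γ.k → 0 ≤ Γ.q j) (hq1 : ∃ j, j < Γ.k ∧ 0 < Γ.q j) {i d : ℕ} (hi : i < d)
    (hiN : i < Γ.N) {x : ℤ} (hx1 : 1 ≤ x) (hx2 : x ≤ 1 + Γ.N) :
    ∫ η, Γ.ws (i, x) η ∂(law μ) ≤ if x ≤ i + 1 then Γ.p i * Γ.near μ d else 0 := by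
  have h := int_sh1_su (μ := μ) hk hq0 hq1 d i
  have hb := fun η => (ws_le (d := d) hk hq0 hq1 hi hiN hx1 hx2 η).2
  split_ifs with hx
  · simp only [if_pos hx] at hb
    calc ∫ η, Γ.ws (i, x) η ∂(law μ) ≤ ∫ η, Γ.p i * sh1 Γ d (su i η) ∂(law μ) :=
          integral_mono (ws_int hk hq0 hq1 hiN hx1 hx2) (h.1.const_mul _) hb
      _ = _ := by rw [integral_const_mul, h.2]
  · simp only [if_neg hx] at hb
    exact integral_nonpos hb

/-- **The near contacts.** -/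
theorem sum_ws (hk : 1 ≤ Γ.k) (hq0 : ∀ j, j < Γ.k → 0 ≤ Γ.q j) (hq1 : ∃ j, j < Γ.k ∧ 0 < Γ.q j) {d : ℕ} (hd : d ≤ Γ.N) {P : ℝ}
    (hP : ∀ i, i < d → Γ.p i ≤ P) : ∑ c ∈ Γ.rows 0 d, ∫ η, Γ.ws c η ∂(law μ) ≤ P * (d : ℝ) ^ 2 * Γ.near μ d := by
  have hn := near_nonneg (μ := μ) hk hq0 hq1 d
  unfold Cx.rows
  rw [sum_product]
  have h1 : ∀ i ∈ Ico 0 d, ∑ x ∈ Icc (1 : ℤ) (1 + (Γ.N : ℤ)), ∫ η, Γ.ws (i, x) η ∂(law μ) ≤ d * (P * Γ.near μ d) := by
    intro i hi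
    rw [mem_Ico] at hi
    have hPi := hP i hi.2
    have hp := p_pos (Γ := Γ) i
    have hP0 : 0 ≤ P := hp.le.trans hPi
    calc ∑ x ∈ Icc (1 : ℤ) (1 + (Γ.N : ℤ)), ∫ η, Γ.ws (i, x) η ∂(law μ)
        ≤ ∑ x ∈ Icc (1 : ℤ) (1 + (Γ.N : ℤ)), (if x ≤ (i : ℤ) + 1 then Γ.p i * Γ.near μ d else 0) := by
          refine sum_le_sum fun x hx => ?_
          rw [mem_Icc] at hx
          exact int_ws hk hq0 hq1 hi.2 (by omega) hx.1 hx.2
      _ = ∑ x ∈ (Icc (1 : ℤ) (1 + (Γ.N : ℤ))).filter (fun x => x ≤ (i : ℤ) + 1), Γ.p i * Γ.near μ d := by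
          rw [sum_filter]
      _ ≤ ∑ x ∈ Icc (1 : ℤ) ((i : ℤ) + 1), Γ.p i * Γ.near μ d := by
          refine sum_le_sum_of_subset_of_nonneg ?_ fun x _ _ => mul_nonneg hp.le hn
          intro x hx
          rw [mem_filter, mem_Icc] at hx
          rw [mem_Icc]
          exact ⟨hx.1.1, hx.2⟩
      _ = ((i + 1 : ℕ) : ℝ) * (Γ.p i * Γ.near μ d) := by
          rw [sum_const, Int.card_Icc, nsmul_eq_mul]
          congr 2
          omega
      _ ≤ d * (P * Γ.near μ d) := by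
          refine mul_le_mul ?_ (mul_le_mul_of_nonneg_right hPi hn) (mul_nonneg hp.le hn) (Nat.cast_nonneg _)
          exact_mod_cast hi.2
  calc ∑ i ∈ Ico 0 d, ∑ x ∈ Icc (1 : ℤ) (1 + (Γ.N : ℤ)), ∫ η, Γ.ws (i, x) η ∂(law μ)
      ≤ ∑ _i ∈ Ico 0 d, (d : ℝ) * (P * Γ.near μ d) := sum_le_sum h1
    _ = _ := by
        rw [sum_const, Nat.card_Ico, nsmul_eq_mul, Nat.sub_zero]
        ring

/-! ### The natural weights -/

theorem w_nonneg (hk : 1 ≤ Γ.k) (hq0 : ∀ j, j < Γ.k → 0 ≤ Γ.q j) (hq1 : ∃ j, j < Γ.k ∧ 0 < Γ.q j) (c : ℕ × ℤ) (η : Env) :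
    0 ≤ Γ.w c η := by
  have hw := wt_pos η
  have hp : ∀ k, 0 < Γ.p k := p_pos
  have hD0 : 0 ≤ dp (wt η) Γ.p Cx.l Γ.r c.1 (c.2 - 1) c.2 := dp_nonneg hw hp (box hk hq0).g _ _ _ (by omega)
  have h1 := hp c.1
  have h2 := hw c.1 (c.2 - 1)
  have h3 := hw c.1 c.2
  have h4 := ZM_pos (Γ := Γ) η
  have h5 := ZR_pos hk hq0 hq1 η
  unfold Cx.w
  positivity

/-- **The pairs which meet in the first rows start near.** -/
theorem sum_w (hk : 1 ≤ Γ.k) (hq0 : ∀ j, j < Γ.k → 0 ≤ Γ.q j) (hq1 : ∃ j, j < Γ.k ∧ 0 < Γ.q j) {d : ℕ} (hd : d ≤ Γ.N) (η : Env) :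
    ∑ c ∈ Γ.rows 0 d, Γ.w c η ≤ sh1 Γ d η := by
  have hw := wt_pos η
  have hp : ∀ k, 0 < Γ.p k := p_pos
  have hM := ZM_pos (Γ := Γ) η
  have hR := ZR_pos hk hq0 hq1 η
  have hb := boxn hk hq0 d
  have htot := nm_total (w := wt η) (p := Γ.p) hb d hd
  have hnm := nm_nonneg (w := wt η) (p := Γ.p) (lo := 0) (hi := Γ.hi) (N := Γ.N) hw hp hb.g d
  have hl : ∑ x ∈ Icc (0 : ℤ) Γ.hi, Cx.l x * bw (wt η) Γ.p 0 Γ.N x = Γ.ZM η := by
    unfold Cx.l Cx.ZM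
    have h0 : (0 : ℤ) ∈ Icc (0 : ℤ) Γ.hi := by
      rw [mem_Icc]
      unfold Cx.hi
      omega
    rw [sum_eq_single_of_mem (0 : ℤ) h0 fun y _ hy => by rw [if_neg hy, zero_mul], if_pos rfl, one_mul]
  rw [hl] at htot
  have e1 : ∀ i ∈ range d, ∑ x ∈ Icc (1 : ℤ) (1 + (Γ.N : ℤ)), Γ.w (i, x) η =
      K91P.mt (wt η) Γ.p Cx.l (rn Γ d) 0 Γ.hi Γ.N i / (Γ.ZM η * Γ.ZR η) := by
    intro i hi
    rw [mem_range] at hi
    unfold K91P.mt
    rw [sum_div]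
    have hsub : Icc (1 : ℤ) (1 + (Γ.N : ℤ)) ⊆ Icc (0 : ℤ) Γ.hi := by
      intro y hy
      rw [mem_Icc] at hy ⊢
      unfold Cx.hi
      omega
    rw [← sum_subset hsub]
    · refine sum_congr rfl fun x hx => ?_
      unfold Cx.w
      rw [dp_near η hi x (x - 1) (by omega) (by omega)]
    · intro x hx hx2
      rw [mem_Icc] at hx hx2
      have h0 : dp (wt η) Γ.p Cx.l (rn Γ d) i (x - 1) x = 0 := by
        rcases le_or_gt 1 x with h | h
        · have a1 : fw (wt η) Γ.p Cx.l i (x - 1) = 0 := fw_hi (B := 0) (fun z hz => by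
            unfold Cx.l
            rw [if_neg (by omega)]) i (x - 1) (by omega)
          have a2 : fw (wt η) Γ.p Cx.l i x = 0 := fw_hi (B := 0) (fun z hz => by
            unfold Cx.l
            rw [if_neg (by omega)]) i x (by omega)
          unfold dp
          rw [a1, a2]
          ring
        · exact dp_zero_left hb i (by omega) x
      rw [h0, zero_mul, zero_div]
  have e2 : ∑ c ∈ Γ.rows 0 d, Γ.w c η = (∑ i ∈ range d, K91P.mt (wt η) Γ.p Cx.l (rn Γ d) 0 Γ.hi Γ.N i) / (Γ.ZM η * Γ.ZR η) := by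
    unfold Cx.rows
    rw [sum_product, sum_div, ← Nat.Ico_zero_eq_range]
    refine sum_congr rfl fun i hi => e1 i ?_
    rwa [← Nat.Ico_zero_eq_range]
  rw [e2]
  have e3 : sh1 Γ d η = (Γ.ZM η * ∑ y ∈ Icc (0 : ℤ) Γ.hi, rn Γ d y * bw (wt η) Γ.p 0 Γ.N y) / (Γ.ZM η * Γ.ZR η) := by
    unfold sh1
    rw [mul_div_mul_left _ _ hM.ne']
  rw [e3]
  refine div_le_div_of_nonneg_right ?_ (mul_pos hM hR).le
  linarith

theorem w_int (hk : 1 ≤ Γ.k) (hq0 : ∀ j, j < Γ.k → 0 ≤ Γ.q j) (hq1 : ∃ j, j < Γ.k ∧ 0 < Γ.q j) {d : ℕ} (hd : d ≤ Γ.N)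
    {c : ℕ × ℤ} (hc : c ∈ Γ.rows 0 d) : Integrable (Γ.w c) (law μ) :=
  (integrable_const (1 : ℝ)).mono' (meas_w _).aestronglyMeasurable (ae_of_all _ fun η => by
    rw [Real.norm_eq_abs, abs_of_nonneg (w_nonneg hk hq0 hq1 c η)]
    exact ((single_le_sum (f := fun c => Γ.w c η) (fun c _ => w_nonneg hk hq0 hq1 c η) hc).trans
      (sum_w hk hq0 hq1 hd η)).trans (sh1_le_one hk hq0 hq1 d η))

/-- **The near part of the natural weights.** -/
theorem int_sum_w (hk : 1 ≤ Γ.k) (hq0 : ∀ j, j < Γ.k → 0 ≤ Γ.q j) (hq1 : ∃ j, j < Γ.k ∧ 0 < Γ.q j) {d : ℕ} (hd : d ≤ Γ.N) :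
    ∑ c ∈ Γ.rows 0 d, ∫ η, Γ.w c η ∂(law μ) ≤ Γ.near μ d := by
  rw [← integral_finsetSum _ fun c hc => w_int hk hq0 hq1 hd hc, ← int_sh1 hq0 d]
  refine integral_mono (integrable_finset_sum _ fun c hc => w_int hk hq0 hq1 hd hc) ?_ fun η => sum_w hk hq0 hq1 hd η
  exact (integrable_const (1 : ℝ)).mono' (meas_sh1 d).aestronglyMeasurable (ae_of_all _ fun η => by
    rw [Real.norm_eq_abs, abs_of_nonneg (sh1_nonneg hk hq0 hq1 d η)]
    exact sh1_le_one hk hq0 hq1 d η)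

end ctx

end

end Pool.Agent.W_7d29a1_C1.H83
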