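import Pool.Agent.W_7d29a1_C1.CmpT83
import Pool.Agent.W_7d29a1_C1.Near83

/-!
MP_7d29a1_pr, [C1], SHELL: (d3) for the contexts of `Ctx60`: the natural weight of a box. (helper83)
-/

set_option autoImplicit false

namespace Pool.Agent.W_7d29a1_C1.S83

open Finset
open Pool.Agent.W_7d29a1_C1.K91 (Grp Box ps2 wt wt_pos)
open Pool.Agent.W_7d29a1_C1.K91P
open Pool.Agent.W_7d29a1_C1.U16 (ker)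
open Pool.Agent.W_7d29a1_C1.Bx47
open Pool.Agent.W_7d29a1_F (Env)
open Pool.Agent.W_7d29a1_C1.H60

noncomputable section

variable {Γ : Cx} {η : Env}

theorem w_cq (c : ℕ × ℤ) : Γ.w c η = cq (wt η) Γ.p Cx.l Γ.r Γ.N c.1 c.2 / (Γ.ZM η * Γ.ZR η) := rfl

theorem sum_l83 (Γ : Cx) (η : Env) : Γ.ZM η = ∑ y ∈ Icc (0 : ℤ) Γ.hi, Cx.l y * bw (wt η) Γ.p 0 Γ.N y := by
  unfold Cx.ZM Cx.l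
  have h0 : (0 : ℤ) ∈ Icc (0 : ℤ) Γ.hi := by
    rw [mem_Icc]
    unfold Cx.hi
    omega
  rw [sum_eq_single_of_mem (0 : ℤ) h0 fun y _ hy => by rw [if_neg hy, zero_mul], if_pos rfl, one_mul]

/-- A lower bound of the masses of the contacts of `Q` is a lower bound of the natural weight of `Q`. -/
theorem w_of_cq (hk : 1 ≤ Γ.k) (hq0 : ∀ j, j < Γ.k → 0 ≤ Γ.q j) (hq1 : ∃ j, j < Γ.k ∧ 0 < Γ.q j) {Q : Finset (ℕ × ℤ)} {κ : ℝ}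
    (h : κ * (Γ.ZM η * Γ.ZR η) ≤ ∑ c ∈ Q, cq (wt η) Γ.p Cx.l Γ.r Γ.N c.1 c.2) : κ ≤ ∑ c ∈ Q, Γ.w c η := by
  have hM := H83.ZM_pos (Γ := Γ) η
  have hR := H83.ZR_pos hk hq0 hq1 η
  have e : ∑ c ∈ Q, Γ.w c η = (∑ c ∈ Q, cq (wt η) Γ.p Cx.l Γ.r Γ.N c.1 c.2) / (Γ.ZM η * Γ.ZR η) := by
    rw [sum_div]
    exact sum_congr rfl fun c _ => w_cq c
  rw [e, le_div_iff₀ (mul_pos hM hR)]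
  exact h

/-- **(d3) for a context.** -/
theorem d3_Cx (hk : 1 ≤ Γ.k) (hq0 : ∀ j, j < Γ.k → 0 ≤ Γ.q j) (hq1 : ∃ j, j < Γ.k ∧ 0 < Γ.q j) {Q : Finset (ℕ × ℤ)} {K i n : ℕ}
    (hK : i + n = K) (hKN : K ≤ Γ.N) (hQ : Q ⊆ Ico i K ×ˢ Icc (0 : ℤ) Γ.hi) {β₁ β₂ δ : Finset ℤ} (b1 : β₁ ⊆ Icc 0 Γ.hi)
    (b2 : β₂ ⊆ Icc 0 Γ.hi) (hδ : δ ⊆ Icc 0 Γ.hi) (hlt : ∀ x ∈ β₁, ∀ x' ∈ β₂, x < x') {ε' e1 e2 e3 V L1 B0 : ℝ} {ph ps : ℤ → ℝ}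
    (hε' : ε' ≤ 1) (he1 : 0 ≤ e1) (he2 : 0 ≤ e2) (he3 : 0 ≤ e3) (heV : e3 ≤ V) (hL1 : 0 ≤ L1) (hB0 : 0 ≤ B0)
    (hps : ∀ y, 0 ≤ ps y) {z : ℝ} (hz : (V * L1) ^ 2 * (e2 + e1 * (1 + e2)) + e3 * V * L1 ^ 2 ≤ z) (hz1 : z ≤ 1)
    (hin : ∀ x ∈ β₁, ∀ x' ∈ β₂, ∀ y ∈ δ, ∀ y' ∈ δ,
      (1 - ε') * (ker (wt η) Γ.p i n x y * ker (wt η) Γ.p i n x' y') ≤ mq (wt η) Γ.p Q i n x x' y y')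
    (hI : SeamI (Icc 0 Γ.hi) β₁ β₂ (fw (wt η) Γ.p Cx.l i) (fw (wt η) Γ.p Γ.r i) ph e1 e2)
    (hkn : Kin (Icc 0 (Γ.hi - n)) (Icc 0 Γ.hi) (β₁ ∪ β₂) δ (ker (wt η) Γ.p i n) ph ps L1) (hc1 : β₁ ∪ β₂ ⊆ Icc 0 (Γ.hi - n))
    (hO : Out (Icc 0 Γ.hi) δ (bw (wt η) Γ.p K (Γ.N - K)) ps V e3 B0) : (1 - ε') * (1 - 2 * z) ≤ ∑ c ∈ Q, Γ.w c η := by
  refine w_of_cq hk hq0 hq1 ?_
  exact d3_83 (wt_pos η) H83.p_pos (H83.box hk hq0) hK hKN hQ b1 b2 hδ hlt hε' he1 he2 he3 heV hL1 hB0 hps hz hz1 hin hI hkn hc1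
    hO (sum_l83 Γ η) rfl

end

end Pool.Agent.W_7d29a1_C1.S83
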