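import Pool.Agent.W_7d29a1_C1.KerP16
import Pool.Agent.W_7d29a1_C1.PairP91

/-!
MP_7d29a1_pr, [C1] attractor route, THE COUNT OF (Y) over the model K91P: the sites which carry much first meeting weight and have a
tube in their slab are few. (helper58)

A tube: the rows `a, .., a + n`, a set `I` of entrance columns, a set `O` of exit columns. `off m`: the mass of the paths of the group
`m` which do not enter in `I` and leave in `O`. `Hv c`: two ordered paths from `I` to `O` meet with probability at least `c`.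
`nm_tube`: `nm (a + n) ≤ (1 - c) nm a + c (off l * Zr + Zl * off r)`. `nm_chain`: `J` tubes above one another, `off ≤ ε Z`:
`nm K ≤ ((1 - c)^J + 2 ε) Zl Zr`. `card_rows`: if `(1 - c)^J + 2 ε < θ`, at most `J (2 T + 1)` rows `k` have `θ Zl Zr ≤ nm k` and a good
tube within `T` rows. `card_sites`: at most `(2 L + 2 T + 1) J (2 T + 1)` sites, if the tube is also within `L` columns.
-/

set_option autoImplicit false

namespace Pool.Agent.W_7d29a1_C1.Cnt58

open Finset
open Pool.Agent.W_7d29a1_C1.K91 (Grp Box ps2 ps2_congr)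
open Pool.Agent.W_7d29a1_C1.K91P
open Pool.Agent.W_7d29a1_C1.U16 (ker ker_nonneg ker_eq_zero fw_ker bw_ker)

noncomputable section

variable {w : ℕ → ℤ → ℝ} {p : ℕ → ℝ} {l r m : ℤ → ℝ} {X lo hi : ℤ} {N : ℕ}

/-- One group of starting masses in the box. -/
structure Gr (m : ℤ → ℝ) (lo hi : ℤ) (N : ℕ) : Prop where
  m0 : ∀ y, 0 ≤ m y
  lo0 : ∀ y, y < lo → m y = 0
  hi0 : ∀ y, hi - N < y → m y = 0

theorem grl (h : Box l r X lo hi N) : Gr l lo hi N := ⟨h.g.l0, fun y hy => (h.lo0 y hy).1, fun y hy => (h.hi0 y hy).1⟩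

theorem grr (h : Box l r X lo hi N) : Gr r lo hi N := ⟨h.g.r0, fun y hy => (h.lo0 y hy).2, fun y hy => (h.hi0 y hy).2⟩

theorem Gr.fw0 (h : Gr m lo hi N) (k : ℕ) {y : ℤ} (hy : ¬ (lo ≤ y ∧ y ≤ hi - N + k)) : fw w p m k y = 0 := by
  by_cases h1 : y < lo
  · exact fw_lo h.lo0 k y h1
  · exact fw_hi h.hi0 k y (by omega)

/-- The total mass of a group. -/
def Zt (w : ℕ → ℤ → ℝ) (p : ℕ → ℝ) (m : ℤ → ℝ) (lo hi : ℤ) (N : ℕ) : ℝ := ∑ y ∈ Icc lo hi, m y * bw w p 0 N y

/-- Forward composition over the box. -/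
theorem fw_box (h : Gr m lo hi N) {a n : ℕ} (hb : a + n ≤ N) (v : ℤ) :
    fw w p m (a + n) v = ∑ x ∈ Icc lo hi, fw w p m a x * ker w p a n x v := by
  rw [fw_ker]
  have e1 : ∑ x ∈ Icc (v - n) v, fw w p m a x * ker w p a n x v =
      ∑ x ∈ Icc (v - n) v ∪ Icc lo hi, fw w p m a x * ker w p a n x v := by
    refine sum_subset subset_union_left fun x _ hx => ?_
    rw [mem_Icc] at hx
    rw [ker_eq_zero a n x v (fun h1 => hx ⟨by omega, h1.1⟩), mul_zero]
  have e2 : ∑ x ∈ Icc lo hi, fw w p m a x * ker w p a n x v =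
      ∑ x ∈ Icc (v - n) v ∪ Icc lo hi, fw w p m a x * ker w p a n x v := by
    refine sum_subset subset_union_right fun x _ hx => ?_
    rw [mem_Icc] at hx
    rw [h.fw0 a (fun h1 => hx ⟨h1.1, by omega⟩), zero_mul]
  rw [e1, e2]

/-- Backward composition over the box, from the sites which carry mass. -/
theorem bw_box {a n : ℕ} (hb : a + n ≤ N) {x : ℤ} (h1 : lo ≤ x) (h2 : x ≤ hi - N + a) :
    bw w p a (N - a) x = ∑ u ∈ Icc lo hi, ker w p a n x u * bw w p (a + n) (N - (a + n)) u := by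
  have e : N - a = n + (N - (a + n)) := by omega
  rw [e, bw_ker]
  refine sum_subset (fun u hu => ?_) fun u _ hu => ?_
  · rw [mem_Icc] at hu ⊢
    constructor
    · omega
    · omega
  · rw [mem_Icc] at hu
    rw [ker_eq_zero a n x u (fun h3 => hu ⟨h3.1, h3.2⟩), zero_mul]

/-- A sum over the sites which carry mass. -/
theorem fw_bw (h : Gr m lo hi N) {a n : ℕ} (hb : a + n ≤ N) (x : ℤ) :
    fw w p m a x * bw w p a (N - a) x = fw w p m a x * ∑ u ∈ Icc lo hi, ker w p a n x u * bw w p (a + n) (N - (a + n)) u := by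
  by_cases h1 : lo ≤ x ∧ x ≤ hi - N + a
  · rw [bw_box hb h1.1 h1.2]
  · rw [h.fw0 a h1, zero_mul, zero_mul]

/-- The total mass may be read in any row. -/
theorem Zt_row (h : Gr m lo hi N) {a : ℕ} (ha : a ≤ N) : ∑ x ∈ Icc lo hi, fw w p m a x * bw w p a (N - a) x = Zt w p m lo hi N := by
  have hb : 0 + a ≤ N := by omega
  have e1 : Zt w p m lo hi N = ∑ y ∈ Icc lo hi, ∑ u ∈ Icc lo hi, m y * (ker w p 0 a y u * bw w p (0 + a) (N - (0 + a)) u) := by
    unfold Zt
    refine sum_congr rfl fun y _ => ?_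
    have e2 := fw_bw (w := w) (p := p) h hb y
    rw [fw_zero, Nat.sub_zero] at e2
    rw [e2, mul_sum]
  rw [e1, sum_comm]
  refine sum_congr rfl fun u _ => ?_
  have e3 := fw_box (w := w) (p := p) h hb u
  simp only [Nat.zero_add] at e3 ⊢
  rw [e3, sum_mul]
  exact sum_congr rfl fun y _ => by rw [fw_zero]; ring

theorem Zt_nonneg (hw : ∀ k y, 0 < w k y) (hp : ∀ k, 0 < p k) (h : Gr m lo hi N) : 0 ≤ Zt w p m lo hi N :=
  sum_nonneg fun y _ => mul_nonneg (h.m0 y) (bw_pos hw hp _ _ _).le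

/-! ### Tubes -/

/-- A tube: first row, number of rows, entrance, exit. -/
structure Tb where
  a : ℕ
  n : ℕ
  I : Finset ℤ
  O : Finset ℤ

/-- The mass of the group `m` off the tube. -/
def off (w : ℕ → ℤ → ℝ) (p : ℕ → ℝ) (m : ℤ → ℝ) (lo hi : ℤ) (N : ℕ) (t : Tb) : ℝ :=
  ∑ x ∈ Icc lo hi, ∑ u ∈ Icc lo hi, if x ∈ t.I ∧ u ∈ t.O then 0 else
    fw w p m t.a x * (ker w p t.a t.n x u * bw w p (t.a + t.n) (N - (t.a + t.n)) u)

/-- Two ordered paths through the tube meet with probability at least `c` (cross ratio at most `1 / c`). -/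
def Hv (w : ℕ → ℤ → ℝ) (p : ℕ → ℝ) (c : ℝ) (t : Tb) : Prop := ∀ x ∈ t.I, ∀ y ∈ t.I, x < y → ∀ u ∈ t.O, ∀ v ∈ t.O, u < v →
  c * (ker w p t.a t.n x u * ker w p t.a t.n y v) ≤ ker w p t.a t.n x v * ker w p t.a t.n y u

theorem off_nonneg (hw : ∀ k y, 0 < w k y) (hp : ∀ k, 0 < p k) (h : Gr m lo hi N) (t : Tb) : 0 ≤ off w p m lo hi N t := by
  refine sum_nonneg fun x _ => sum_nonneg fun u _ => ?_
  split_ifs
  · exact le_rfl
  · exact mul_nonneg (fw_nonneg hw hp h.m0 _ _) (mul_nonneg (ker_nonneg hw hp _ _ _ _) (bw_pos hw hp _ _ _).le)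

/-- Antisymmetrization. -/
theorem sym_sum {E : Finset ℤ} {G : ℤ → ℤ → ℝ} (hG : ∀ x, G x x = 0) :
    ∑ x ∈ E, ∑ y ∈ E, G x y = ∑ x ∈ E, ∑ y ∈ E, if x < y then G x y + G y x else 0 := by
  have e1 : ∀ x y, G x y = (if x < y then G x y else 0) + (if y < x then G x y else 0) := by
    intro x y
    rcases lt_trichotomy x y with h | h | h
    · rw [if_pos h, if_neg (by omega), add_zero]
    · subst h
      rw [if_neg (lt_irrefl _), hG, add_zero]
    · rw [if_neg (by omega), if_pos h, zero_add]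
  have e2 : ∑ x ∈ E, ∑ y ∈ E, G x y = ∑ x ∈ E, ∑ y ∈ E, (if x < y then G x y else 0) + ∑ x ∈ E, ∑ y ∈ E, (if y < x then G x y else 0) := by
    rw [← sum_add_distrib]
    refine sum_congr rfl fun x _ => ?_
    rw [← sum_add_distrib]
    exact sum_congr rfl fun y _ => e1 x y
  rw [e2, sum_comm (f := fun x y => if y < x then G x y else 0), ← sum_add_distrib]
  refine sum_congr rfl fun x _ => ?_
  rw [← sum_add_distrib]
  refine sum_congr rfl fun y _ => ?_
  split_ifs
  · rfl
  · rw [add_zero]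

/-- Off the tube. -/
def oo (t : Tb) (x u : ℤ) : ℝ := if x ∈ t.I ∧ u ∈ t.O then 0 else 1

theorem oo_nonneg (t : Tb) (x u : ℤ) : 0 ≤ oo t x u := by
  unfold oo
  split_ifs <;> norm_num

/-- The future of `(t.a, x)` through the row `t.a + t.n`. -/
def PP (w : ℕ → ℤ → ℝ) (p : ℕ → ℝ) (lo hi : ℤ) (N : ℕ) (t : Tb) (x : ℤ) : ℝ :=
  ∑ u ∈ Icc lo hi, ker w p t.a t.n x u * bw w p (t.a + t.n) (N - (t.a + t.n)) u

/-- The future of `(t.a, x)` off the tube. -/
def QQ (w : ℕ → ℤ → ℝ) (p : ℕ → ℝ) (lo hi : ℤ) (N : ℕ) (t : Tb) (x : ℤ) : ℝ :=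
  ∑ u ∈ Icc lo hi, oo t x u * (ker w p t.a t.n x u * bw w p (t.a + t.n) (N - (t.a + t.n)) u)

theorem PP_nonneg (hw : ∀ k y, 0 < w k y) (hp : ∀ k, 0 < p k) (t : Tb) (x : ℤ) : 0 ≤ PP w p lo hi N t x :=
  sum_nonneg fun _ _ => mul_nonneg (ker_nonneg hw hp _ _ _ _) (bw_pos hw hp _ _ _).le

theorem QQ_nonneg (hw : ∀ k y, 0 < w k y) (hp : ∀ k, 0 < p k) (t : Tb) (x : ℤ) : 0 ≤ QQ w p lo hi N t x :=
  sum_nonneg fun u _ => mul_nonneg (oo_nonneg t x u) (mul_nonneg (ker_nonneg hw hp _ _ _ _) (bw_pos hw hp _ _ _).le)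

theorem off_eq (t : Tb) : off w p m lo hi N t = ∑ x ∈ Icc lo hi, fw w p m t.a x * QQ w p lo hi N t x := by
  unfold off QQ
  refine sum_congr rfl fun x _ => ?_
  rw [mul_sum]
  refine sum_congr rfl fun u _ => ?_
  unfold oo
  split_ifs <;> ring

theorem Zt_eq (h : Gr m lo hi N) {t : Tb} (hb : t.a + t.n ≤ N) : Zt w p m lo hi N = ∑ x ∈ Icc lo hi, fw w p m t.a x * PP w p lo hi N t x := by
  rw [← Zt_row (w := w) (p := p) h (show t.a ≤ N by omega)]
  exact sum_congr rfl fun x _ => fw_bw h hb x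

/-- **One tube**: the mass of the pairs which have not met is multiplied by at most `1 - c`, up to what is off the tube. -/
theorem nm_tube (hw : ∀ k y, 0 < w k y) (hp : ∀ k, 0 < p k) (h : Box l r X lo hi N) {c : ℝ} (hc0 : 0 ≤ c) (hc1 : c ≤ 1) {t : Tb}
    (hb : t.a + t.n ≤ N) (ht : Hv w p c t) :
    nm w p l r lo hi N (t.a + t.n) ≤ (1 - c) * nm w p l r lo hi N t.a +
      c * (off w p l lo hi N t * Zt w p r lo hi N + Zt w p l lo hi N * off w p r lo hi N t) := by
  have hc2 : 0 ≤ 1 - c := by linarith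
  have hl := grl h
  have hr := grr h
  set E : Finset ℤ := Icc lo hi with hE
  set K : ℤ → ℤ → ℝ := fun x u => ker w p t.a t.n x u with hK
  set B : ℤ → ℝ := fun u => bw w p (t.a + t.n) (N - (t.a + t.n)) u with hB
  have hK0 : ∀ x u, 0 ≤ K x u := fun x u => ker_nonneg hw hp _ _ _ _
  have hB0 : ∀ u, 0 ≤ B u := fun u => (bw_pos hw hp _ _ _).le
  have hD0 : ∀ x y, x < y → 0 ≤ dp w p l r t.a x y := fun x y hxy => dp_nonneg hw hp h.g _ _ _ hxy.le
  -- Cauchy - Binet
  have s1 : ∀ u v, dp w p l r (t.a + t.n) u v = ∑ x ∈ E, ∑ y ∈ E,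
      if x < y then dp w p l r t.a x y * (K x u * K y v - K x v * K y u) else 0 := by
    intro u v
    have e1 : dp w p l r (t.a + t.n) u v = ∑ x ∈ E, ∑ y ∈ E,
        fw w p l t.a x * fw w p r t.a y * (K x u * K y v - K x v * K y u) := by
      unfold dp
      rw [fw_box hl hb u, fw_box hr hb v, fw_box hl hb v, fw_box hr hb u, sum_mul_sum, sum_mul_sum, ← sum_sub_distrib]
      refine sum_congr rfl fun x _ => ?_
      rw [← sum_sub_distrib]
      exact sum_congr rfl fun y _ => by simp only [hK]; ring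
    rw [e1, sym_sum (fun x => by ring)]
    refine sum_congr rfl fun x _ => sum_congr rfl fun y _ => ?_
    split_ifs
    · unfold dp
      ring
    · rfl
  -- the bound of one quadruple
  have s2 : ∀ x y, x < y → ∀ u v, u < v →
      K x u * K y v - K x v * K y u ≤ ((1 - c) + c * (oo t x u + oo t y v)) * (K x u * K y v) := by
    intro x y hxy u v huv
    have a1 := mul_nonneg (hK0 x u) (hK0 y v)
    have a2 := mul_nonneg (hK0 x v) (hK0 y u)
    have a4 := mul_nonneg hc0 a1
    unfold oo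
    by_cases h1 : x ∈ t.I ∧ u ∈ t.O
    · by_cases h2 : y ∈ t.I ∧ v ∈ t.O
      · rw [if_pos h1, if_pos h2]
        have a3 := ht x h1.1 y h2.1 hxy u h1.2 v h2.2 huv
        simp only [hK]
        linarith
      · rw [if_pos h1, if_neg h2]
        linarith
    · rw [if_neg h1]
      by_cases h2 : y ∈ t.I ∧ v ∈ t.O
      · rw [if_pos h2]
        linarith
      · rw [if_neg h2]
        linarith
  -- sum over the exits
  have s3 : nm w p l r lo hi N (t.a + t.n) ≤ ∑ x ∈ E, ∑ y ∈ E, if x < y then dp w p l r t.a x y *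
      ((1 - c) * (PP w p lo hi N t x * PP w p lo hi N t y) +
        c * (QQ w p lo hi N t x * PP w p lo hi N t y + PP w p lo hi N t x * QQ w p lo hi N t y)) else 0 := by
    have e1 : ∀ x y, ∑ u ∈ E, ∑ v ∈ E, ((1 - c) + c * (oo t x u + oo t y v)) * ((K x u * B u) * (K y v * B v)) =
        (1 - c) * (PP w p lo hi N t x * PP w p lo hi N t y) +
        c * (QQ w p lo hi N t x * PP w p lo hi N t y + PP w p lo hi N t x * QQ w p lo hi N t y) := by
      intro x y
      unfold PP QQ
      rw [sum_mul_sum, sum_mul_sum, sum_mul_sum, ← sum_add_distrib, mul_sum, mul_sum, ← sum_add_distrib]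
      refine sum_congr rfl fun u _ => ?_
      rw [← sum_add_distrib, mul_sum, mul_sum, ← sum_add_distrib]
      exact sum_congr rfl fun v _ => by simp only [hK, hB]; ring
    have e2 : ∑ x ∈ E, ∑ y ∈ E, (if x < y then dp w p l r t.a x y *
        ((1 - c) * (PP w p lo hi N t x * PP w p lo hi N t y) +
        c * (QQ w p lo hi N t x * PP w p lo hi N t y + PP w p lo hi N t x * QQ w p lo hi N t y)) else 0) =
        ∑ u ∈ E, ∑ v ∈ E, ∑ x ∈ E, ∑ y ∈ E, if x < y then dp w p l r t.a x y *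
          (((1 - c) + c * (oo t x u + oo t y v)) * ((K x u * B u) * (K y v * B v))) else 0 := by
      have e3 : ∀ x ∈ E, ∀ y ∈ E, (if x < y then dp w p l r t.a x y *
          ((1 - c) * (PP w p lo hi N t x * PP w p lo hi N t y) +
        c * (QQ w p lo hi N t x * PP w p lo hi N t y + PP w p lo hi N t x * QQ w p lo hi N t y)) else 0) =
          ∑ u ∈ E, ∑ v ∈ E, if x < y then dp w p l r t.a x y *
          (((1 - c) + c * (oo t x u + oo t y v)) * ((K x u * B u) * (K y v * B v))) else 0 := by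
        intro x _ y _
        split_ifs
        · rw [← e1 x y, mul_sum]
          exact sum_congr rfl fun u _ => by rw [mul_sum]
        · rw [sum_const_zero, sum_const_zero]
      rw [sum_congr rfl fun x hx => sum_congr rfl fun y hy => e3 x hx y hy]
      calc _ = ∑ x ∈ E, ∑ u ∈ E, ∑ y ∈ E, ∑ v ∈ E, _ := sum_congr rfl fun x _ => sum_comm
        _ = ∑ u ∈ E, ∑ x ∈ E, ∑ y ∈ E, ∑ v ∈ E, _ := sum_comm
        _ = ∑ u ∈ E, ∑ x ∈ E, ∑ v ∈ E, ∑ y ∈ E, _ := sum_congr rfl fun u _ => sum_congr rfl fun x _ => sum_comm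
        _ = _ := sum_congr rfl fun u _ => sum_comm
    rw [e2]
    unfold nm ps2
    refine sum_le_sum fun u _ => ?_
    refine sum_le_sum fun v _ => ?_
    have e4 : ∀ x ∈ E, ∀ y ∈ E, 0 ≤ if x < y then dp w p l r t.a x y *
          (((1 - c) + c * (oo t x u + oo t y v)) * ((K x u * B u) * (K y v * B v))) else 0 := by
      intro x _ y _
      split_ifs with hxy
      · have b1 := hD0 x y hxy
        have b2 := hK0 x u
        have b3 := hK0 y v
        have b4 := hB0 u
        have b5 := hB0 v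
        have b6 := oo_nonneg t x u
        have b7 := oo_nonneg t y v
        positivity
      · exact le_rfl
    beta_reduce
    by_cases huv : u < v
    · rw [if_pos huv, s1 u v, sum_mul]
      refine sum_le_sum fun x _ => ?_
      rw [sum_mul]
      refine sum_le_sum fun y _ => ?_
      split_ifs with hxy
      · have c1 := mul_le_mul_of_nonneg_left (s2 x y hxy u v huv) (hD0 x y hxy)
        have c2 := mul_le_mul_of_nonneg_right c1 (mul_nonneg (hB0 u) (hB0 v))
        simp only [hB, hK] at c2 ⊢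
        linarith
      · simp
    · rw [if_neg huv, mul_zero]
      exact sum_nonneg fun x hx => sum_nonneg fun y hy => e4 x hx y hy
  refine s3.trans ?_
  -- the three parts
  have s4 : ∀ x ∈ E, ∀ y ∈ E, (if x < y then dp w p l r t.a x y *
      ((1 - c) * (PP w p lo hi N t x * PP w p lo hi N t y) +
        c * (QQ w p lo hi N t x * PP w p lo hi N t y + PP w p lo hi N t x * QQ w p lo hi N t y)) else 0) ≤
      (1 - c) * (dp w p l r t.a x y * (if x < y then bw w p t.a (N - t.a) x * bw w p t.a (N - t.a) y else 0)) +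
      c * ((fw w p l t.a x * QQ w p lo hi N t x) * (fw w p r t.a y * PP w p lo hi N t y) +
        (fw w p l t.a x * PP w p lo hi N t x) * (fw w p r t.a y * QQ w p lo hi N t y)) := by
    intro x _ y _
    have b1 := fw_nonneg hw hp h.g.l0 t.a x
    have b2 := fw_nonneg hw hp h.g.r0 t.a y
    have b3 := fw_nonneg hw hp h.g.l0 t.a y
    have b4 := fw_nonneg hw hp h.g.r0 t.a x
    have b5 := PP_nonneg (lo := lo) (hi := hi) (N := N) hw hp t x
    have b6 := PP_nonneg (lo := lo) (hi := hi) (N := N) hw hp t y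
    have b7 := QQ_nonneg (lo := lo) (hi := hi) (N := N) hw hp t x
    have b8 := QQ_nonneg (lo := lo) (hi := hi) (N := N) hw hp t y
    by_cases hxy : x < y
    · rw [if_pos hxy, if_pos hxy]
      have c1 : dp w p l r t.a x y * (PP w p lo hi N t x * PP w p lo hi N t y) =
          dp w p l r t.a x y * (bw w p t.a (N - t.a) x * bw w p t.a (N - t.a) y) := by
        by_cases hx : lo ≤ x ∧ x ≤ hi - N + t.a
        · by_cases hy : lo ≤ y ∧ y ≤ hi - N + t.a
          · rw [bw_box (w := w) (p := p) hb hx.1 hx.2, bw_box (w := w) (p := p) hb hy.1 hy.2]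
            rfl
          · have d1 : dp w p l r t.a x y = 0 := by
              unfold dp
              rw [hl.fw0 t.a hy, hr.fw0 t.a hy]
              ring
            rw [d1, zero_mul, zero_mul]
        · have d1 : dp w p l r t.a x y = 0 := by
            unfold dp
            rw [hl.fw0 t.a hx, hr.fw0 t.a hx]
            ring
          rw [d1, zero_mul, zero_mul]
      have c2 : dp w p l r t.a x y * (QQ w p lo hi N t x * PP w p lo hi N t y + PP w p lo hi N t x * QQ w p lo hi N t y) ≤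
          (fw w p l t.a x * fw w p r t.a y) * (QQ w p lo hi N t x * PP w p lo hi N t y + PP w p lo hi N t x * QQ w p lo hi N t y) := by
        refine mul_le_mul_of_nonneg_right ?_ (by positivity)
        unfold dp
        have := mul_nonneg b3 b4
        linarith
      have c3 := mul_le_mul_of_nonneg_left c2 hc0
      calc _ = (1 - c) * (dp w p l r t.a x y * (PP w p lo hi N t x * PP w p lo hi N t y)) +
            c * (dp w p l r t.a x y * (QQ w p lo hi N t x * PP w p lo hi N t y + PP w p lo hi N t x * QQ w p lo hi N t y)) := by ring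
        _ ≤ _ := by
          rw [c1]
          linarith
    · rw [if_neg hxy, if_neg hxy, mul_zero, mul_zero, zero_add]
      positivity
  refine (sum_le_sum fun x hx => sum_le_sum fun y hy => s4 x hx y hy).trans (le_of_eq ?_)
  rw [off_eq, off_eq, Zt_eq hl hb, Zt_eq hr hb, sum_mul_sum, sum_mul_sum, ← sum_add_distrib, mul_sum]
  unfold nm ps2
  rw [mul_sum, ← sum_add_distrib]
  refine sum_congr rfl fun x _ => ?_
  rw [← sum_add_distrib, mul_sum, mul_sum, ← sum_add_distrib]

/-! ### A chain of tubes -/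

theorem mt_nonneg (hw : ∀ k y, 0 < w k y) (hp : ∀ k, 0 < p k) (h : Grp l r X) (k : ℕ) : 0 ≤ mt w p l r lo hi N k := by
  refine sum_nonneg fun q _ => ?_
  have a1 := dp_nonneg hw hp h k (q - 1) q (by omega)
  have a2 := hw k (q - 1)
  have a3 := hw k q
  have a4 := hp k
  positivity

theorem nm_anti (hw : ∀ k y, 0 < w k y) (hp : ∀ k, 0 < p k) (h : Box l r X lo hi N) {a : ℕ} : ∀ (b : ℕ), a ≤ b → b ≤ N →
    nm w p l r lo hi N b ≤ nm w p l r lo hi N a := by
  intro b hab
  induction b, hab using Nat.le_induction with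
  | base => exact fun _ => le_rfl
  | succ b _ ih =>
    intro hb
    have e1 := nm_step (w := w) (p := p) h (show b < N by omega)
    have e2 := mt_nonneg (lo := lo) (hi := hi) (N := N) hw hp h.g b
    have e3 := ih (by omega)
    linarith

/-- The pairs which meet at the row `k + 1` have not met at the row `k`. -/
theorem mt_le_nm (hw : ∀ k y, 0 < w k y) (hp : ∀ k, 0 < p k) (h : Box l r X lo hi N) {k : ℕ} (hk : k < N) :
    mt w p l r lo hi N k ≤ nm w p l r lo hi N k := by
  have e1 := nm_step (w := w) (p := p) h hk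
  have e2 := nm_nonneg (lo := lo) (hi := hi) (N := N) hw hp h.g (k + 1)
  linarith

theorem nm_start (h : Box l r X lo hi N) : nm w p l r lo hi N 0 = Zt w p l lo hi N * Zt w p r lo hi N := nm_zero h

/-- A tube which is good for the pair: inside the rows, meeting probability at least `c`, at most the share `ε` of each group off it. -/
structure Good (w : ℕ → ℤ → ℝ) (p : ℕ → ℝ) (l r : ℤ → ℝ) (lo hi : ℤ) (N : ℕ) (c ε : ℝ) (t : Tb) : Prop where
  hb : t.a + t.n ≤ N
  hv : Hv w p c t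
  ol : off w p l lo hi N t ≤ ε * Zt w p l lo hi N
  or : off w p r lo hi N t ≤ ε * Zt w p r lo hi N

/-- **A chain of tubes**: the loss off the tubes is not multiplied by the number of the tubes. -/
theorem nm_chain (hw : ∀ k y, 0 < w k y) (hp : ∀ k, 0 < p k) (h : Box l r X lo hi N) {c ε : ℝ} (hc0 : 0 ≤ c) (hc1 : c ≤ 1)
    (hε : 0 ≤ ε) {t : ℕ → Tb} : ∀ (J K : ℕ), K ≤ N → (∀ i < J, Good w p l r lo hi N c ε (t i)) → (∀ i < J, (t i).a + (t i).n ≤ K) →
    (∀ i j, i < j → j < J → (t i).a + (t i).n ≤ (t j).a) →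
    nm w p l r lo hi N K ≤ ((1 - c) ^ J + 2 * ε) * (Zt w p l lo hi N * Zt w p r lo hi N)
  | 0, K, hK, _, _, _ => by
    have e1 := nm_anti hw hp h K (Nat.zero_le K) hK
    rw [nm_start h] at e1
    have z1 := Zt_nonneg hw hp (grl h)
    have z2 := Zt_nonneg hw hp (grr h)
    have e2 : 0 ≤ 2 * ε * (Zt w p l lo hi N * Zt w p r lo hi N) := by positivity
    rw [pow_zero]
    linarith
  | J + 1, K, hK, hg, ht, hd => by
    have g := hg J (by omega)
    have e0 := nm_anti hw hp h K (ht J (by omega)) hK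
    have e1 := nm_tube hw hp h hc0 hc1 g.hb g.hv
    have e2 := nm_chain hw hp h hc0 hc1 hε J (t J).a (by have := g.hb; omega) (fun i hi => hg i (by omega))
      (fun i hi => hd i J hi (by omega)) (fun i j hij hj => hd i j hij (by omega))
    have z1 := Zt_nonneg hw hp (grl h)
    have z2 := Zt_nonneg hw hp (grr h)
    have e3 := mul_le_mul_of_nonneg_right g.ol z2
    have e4 := mul_le_mul_of_nonneg_left g.or z1
    have e5 := mul_le_mul_of_nonneg_left e2 (show 0 ≤ 1 - c by linarith)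
    have e6 : c * (off w p l lo hi N (t J) * Zt w p r lo hi N + Zt w p l lo hi N * off w p r lo hi N (t J)) ≤
        c * (2 * ε * (Zt w p l lo hi N * Zt w p r lo hi N)) := mul_le_mul_of_nonneg_left (by linarith) hc0
    calc _ ≤ _ := e0
      _ ≤ _ := e1
      _ ≤ (1 - c) * (((1 - c) ^ J + 2 * ε) * (Zt w p l lo hi N * Zt w p r lo hi N)) +
          c * (2 * ε * (Zt w p l lo hi N * Zt w p r lo hi N)) := add_le_add e5 e6
      _ = _ := by ring

/-- In a large set of rows there is a long chain of rows which are far apart. -/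
theorem exists_chain (D : ℕ) : ∀ (j : ℕ) (R : Finset ℕ), j * (D + 1) < R.card →
    ∃ f : ℕ → ℕ, (∀ i ≤ j, f i ∈ R) ∧ ∀ i i', i < i' → i' ≤ j → f i + D < f i'
  | 0, R, hR => by
    rw [Nat.zero_mul] at hR
    obtain ⟨k, hk⟩ := card_pos.1 hR
    exact ⟨fun _ => k, fun _ _ => hk, fun i i' h1 h2 => absurd h1 (by omega)⟩
  | j + 1, R, hR => by
    have hne : R.Nonempty := card_pos.1 (by omega)
    set k := R.min' hne with hk
    set R' := R.filter (fun i => k + D < i) with hR'
    have e1 : R ⊆ R' ∪ Icc k (k + D) := by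
      intro i hi
      have h1 : k ≤ i := R.min'_le i hi
      rw [mem_union, mem_Icc, hR', mem_filter]
      by_cases h2 : k + D < i
      · exact Or.inl ⟨hi, h2⟩
      · exact Or.inr ⟨h1, by omega⟩
    have e2 := (card_le_card e1).trans (card_union_le _ _)
    rw [Nat.card_Icc] at e2
    have e3 : j * (D + 1) < R'.card := by
      have : (j + 1) * (D + 1) = j * (D + 1) + (D + 1) := by ring
      omega
    obtain ⟨f, hf1, hf2⟩ := exists_chain D j R' e3
    have hf3 : ∀ i ≤ j, f i ∈ R ∧ k + D < f i := fun i hi => by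
      have := hf1 i hi
      rw [hR', mem_filter] at this
      exact this
    refine ⟨fun i => if i = 0 then k else f (i - 1), fun i hi => ?_, fun i i' h1 h2 => ?_⟩
    · beta_reduce
      split_ifs with h0
      · exact R.min'_mem hne
      · exact (hf3 (i - 1) (by omega)).1
    · beta_reduce
      rw [if_neg (show i' ≠ 0 by omega)]
      split_ifs with h0
      · exact (hf3 (i' - 1) (by omega)).2
      · exact hf2 (i - 1) (i' - 1) (by omega) (by omega)

/-- **The count of the rows.** `J` tubes bring the pairs which have not met below `θ`: at most `J (2 T + 1)` rows have a good tube within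
`T` rows and at least the mass `θ` of pairs which have not met before. -/
theorem card_rows (hw : ∀ k y, 0 < w k y) (hp : ∀ k, 0 < p k) (h : Box l r X lo hi N) {c ε θ : ℝ} (hc0 : 0 ≤ c) (hc1 : c ≤ 1)
    (hε : 0 ≤ ε) (hZ : 0 < Zt w p l lo hi N * Zt w p r lo hi N) {J T : ℕ} (hJ : (1 - c) ^ J + 2 * ε < θ) {R : Finset ℕ}
    {t : ℕ → Tb} (hR : ∀ k ∈ R, k ≤ N ∧ Good w p l r lo hi N c ε (t k) ∧ k ≤ (t k).a + T ∧ (t k).a + (t k).n ≤ k + T ∧
      θ * (Zt w p l lo hi N * Zt w p r lo hi N) ≤ nm w p l r lo hi N k) : R.card ≤ J * (2 * T + 1) := by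
  by_contra hcon
  obtain ⟨f, hf1, hf2⟩ := exists_chain (2 * T) J R (by omega)
  have e1 := nm_chain hw hp h hc0 hc1 hε (t := fun i => t (f i)) J (f J) (hR _ (hf1 J le_rfl)).1
    (fun i hi => (hR _ (hf1 i (by omega))).2.1)
    (fun i hi => by
      have a1 := (hR _ (hf1 i (by omega))).2.2.2.1
      have a2 := hf2 i J hi le_rfl
      omega)
    (fun i j hij hj => by
      have a1 := (hR _ (hf1 i (by omega))).2.2.2.1
      have a2 := hf2 i j hij (by omega)
      have a3 := (hR _ (hf1 j (by omega))).2.2.1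
      omega)
  have e2 := (hR _ (hf1 J le_rfl)).2.2.2.2
  have e3 := mul_lt_mul_of_pos_right hJ hZ
  linarith

/-! ### One row -/

/-- The mass which is not in the entrance. -/
theorem out_le_off (hw : ∀ k y, 0 < w k y) (hp : ∀ k, 0 < p k) (h : Gr m lo hi N) {t : Tb} (hb : t.a + t.n ≤ N) :
    ∑ x ∈ Icc lo hi, (if x ∈ t.I then 0 else fw w p m t.a x * bw w p t.a (N - t.a) x) ≤ off w p m lo hi N t := by
  rw [off_eq]
  refine sum_le_sum fun x _ => ?_
  split_ifs with hx
  · exact mul_nonneg (fw_nonneg hw hp h.m0 _ _) (QQ_nonneg hw hp t x)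
  · rw [fw_bw h hb x]
    refine mul_le_mul_of_nonneg_left (sum_le_sum fun u _ => ?_) (fw_nonneg hw hp h.m0 _ _)
    unfold oo
    rw [if_neg (fun h1 => hx h1.1), one_mul]

/-- Two tubes which both carry most of one group are close to one another. -/
theorem lateral (hw : ∀ k y, 0 < w k y) (hp : ∀ k, 0 < p k) (h : Gr m lo hi N) {t t' : Tb} (hb : t.a + t.n ≤ N) (hb' : t'.a + t'.n ≤ N)
    (ha : t.a ≤ t'.a) (ho : off w p m lo hi N t + off w p m lo hi N t' < Zt w p m lo hi N) :
    ∃ x ∈ t.I, ∃ x' ∈ t'.I, x ≤ x' ∧ x' ≤ x + ((t'.a : ℤ) - t.a) := by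
  by_contra hcon
  push Not at hcon
  obtain ⟨n, hn⟩ : ∃ n : ℕ, t'.a = t.a + n := ⟨t'.a - t.a, by omega⟩
  have hbn : t.a + n ≤ N := by omega
  have f0 := fw_nonneg hw hp h.m0 t.a
  set g : ℤ → ℤ → ℝ := fun x x' => fw w p m t.a x * (ker w p t.a n x x' * bw w p (t.a + n) (N - (t.a + n)) x') with hg
  have g0 : ∀ x x', 0 ≤ g x x' := fun x x' => mul_nonneg (f0 x) (mul_nonneg (ker_nonneg hw hp _ _ _ _) (bw_pos hw hp _ _ _).le)
  have e1 : Zt w p m lo hi N = ∑ x ∈ Icc lo hi, ∑ x' ∈ Icc lo hi, g x x' := by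
    rw [← Zt_row (w := w) (p := p) h (show t.a ≤ N by omega)]
    refine sum_congr rfl fun x _ => ?_
    rw [fw_bw h hbn x, mul_sum]
  have e2 : ∀ x x', g x x' ≤ (if x ∈ t.I then 0 else g x x') + (if x' ∈ t'.I then 0 else g x x') := by
    intro x x'
    by_cases h1 : x ∈ t.I
    · by_cases h2 : x' ∈ t'.I
      · rw [if_pos h1, if_pos h2, hg]
        have h3 := hcon x h1 x' h2
        beta_reduce
        rw [ker_eq_zero t.a n x x' (fun h4 => by
          have h5 := h3 h4.1
          rw [hn] at h5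
          push_cast at h5
          omega)]
        simp
      · rw [if_pos h1, if_neg h2, zero_add]
    · rw [if_neg h1]
      have := g0 x x'
      split_ifs <;> linarith
  have e3 : ∑ x ∈ Icc lo hi, ∑ x' ∈ Icc lo hi, (if x ∈ t.I then 0 else g x x') ≤ off w p m lo hi N t := by
    refine le_trans (le_of_eq ?_) (out_le_off hw hp h hb)
    refine sum_congr rfl fun x _ => ?_
    split_ifs
    · exact sum_const_zero
    · rw [fw_bw h hbn x, mul_sum]
  have e4 : ∑ x ∈ Icc lo hi, ∑ x' ∈ Icc lo hi, (if x' ∈ t'.I then 0 else g x x') ≤ off w p m lo hi N t' := by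
    refine le_trans (le_of_eq ?_) (out_le_off hw hp h hb')
    rw [sum_comm]
    refine sum_congr rfl fun x' _ => ?_
    split_ifs
    · exact sum_const_zero
    · rw [hn, fw_box h hbn x', sum_mul]
      exact sum_congr rfl fun x _ => by rw [hg]; ring
  have e5 : Zt w p m lo hi N ≤ off w p m lo hi N t + off w p m lo hi N t' := by
    rw [e1]
    refine le_trans ?_ (add_le_add e3 e4)
    rw [← sum_add_distrib]
    refine sum_le_sum fun x _ => ?_
    rw [← sum_add_distrib]
    exact sum_le_sum fun x' _ => e2 x x'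
  linarith

/-- **The count of the sites.** -/
theorem card_sites (hw : ∀ k y, 0 < w k y) (hp : ∀ k, 0 < p k) (h : Box l r X lo hi N) {c ε θ : ℝ} (hc0 : 0 ≤ c) (hc1 : c ≤ 1)
    (hε : 0 ≤ ε) (hε1 : 2 * ε < 1) (hZl : 0 < Zt w p l lo hi N) (hZr : 0 < Zt w p r lo hi N) {J T L : ℕ}
    (hJ : (1 - c) ^ J + 2 * ε < θ) {C : Finset (ℕ × ℤ)} {t : ℕ × ℤ → Tb}
    (hC : ∀ b ∈ C, b.1 ≤ N ∧ Good w p l r lo hi N c ε (t b) ∧ b.1 ≤ (t b).a + T ∧ (t b).a + (t b).n ≤ b.1 + T ∧
      (∀ x ∈ (t b).I, |x - b.2| ≤ L) ∧ θ * (Zt w p l lo hi N * Zt w p r lo hi N) ≤ nm w p l r lo hi N b.1) :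
    C.card ≤ (2 * L + 2 * T + 1) * (J * (2 * T + 1)) := by
  classical
  have e1 : (C.image Prod.fst).card ≤ J * (2 * T + 1) := by
    have hch : ∀ k ∈ C.image Prod.fst, ∃ b ∈ C, b.1 = k := fun k hk => by
      obtain ⟨b, hb, e⟩ := mem_image.1 hk
      exact ⟨b, hb, e⟩
    choose! g hg1 hg2 using hch
    refine card_rows hw hp h hc0 hc1 hε (mul_pos hZl hZr) hJ (t := fun k => t (g k)) fun k hk => ?_
    obtain ⟨a1, a2, a3, a4, _, a6⟩ := hC (g k) (hg1 k hk)
    rw [hg2 k hk] at a1 a3 a4 a6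
    exact ⟨a1, a2, a3, a4, a6⟩
  refine (card_le_mul_card_image (f := Prod.fst) C (2 * L + 2 * T + 1) fun k _ => ?_).trans (Nat.mul_le_mul_left _ e1)
  -- one row
  have key : ∀ b ∈ C, ∀ b' ∈ C, b.1 = b'.1 → (t b).a ≤ (t b').a → |b.2 - b'.2| ≤ 2 * (L : ℤ) + 2 * T := by
    intro b hb b' hb' hbb ha
    obtain ⟨_, g1, a1, a2, a3, _⟩ := hC b hb
    obtain ⟨_, g2, b1, b2, b3, _⟩ := hC b' hb'
    have ho : off w p l lo hi N (t b) + off w p l lo hi N (t b') < Zt w p l lo hi N := by
      have c1 := g1.ol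
      have c2 := g2.ol
      nlinarith
    obtain ⟨x, hx, x', hx', i1, i2⟩ := lateral hw hp (grl h) g1.hb g2.hb ha ho
    have j1 := abs_le.1 (a3 x hx)
    have j2 := abs_le.1 (b3 x' hx')
    rw [abs_le]
    constructor <;> omega
  rcases (C.filter fun b => b.1 = k).eq_empty_or_nonempty with h0 | h0
  · rw [h0, card_empty]
    exact Nat.zero_le _
  · set S := (C.filter fun b => b.1 = k) with hS
    set q0 := (S.image Prod.snd).min' (h0.image _) with hq0
    have hq0m : q0 ∈ S.image Prod.snd := min'_mem _ _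
    obtain ⟨b0, hb0, hb0q⟩ := mem_image.1 hq0m
    have hsub : S ⊆ ({k} : Finset ℕ) ×ˢ Icc q0 (q0 + (2 * (L : ℤ) + 2 * T)) := by
      intro b hb
      have hb1 := (mem_filter.1 hb)
      have hb01 := (mem_filter.1 hb0)
      rw [mem_product, mem_singleton, mem_Icc]
      have hmin : q0 ≤ b.2 := min'_le _ _ (mem_image_of_mem _ hb)
      refine ⟨hb1.2, hmin, ?_⟩
      have hd : |b.2 - b0.2| ≤ 2 * (L : ℤ) + 2 * T := by
        rcases le_total (t b).a (t b0).a with h1 | h1
        · exact key b hb1.1 b0 hb01.1 (by rw [hb1.2, hb01.2]) h1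
        · rw [abs_sub_comm]
          exact key b0 hb01.1 b hb1.1 (by rw [hb1.2, hb01.2]) h1
      have := (abs_le.1 hd).2
      rw [hb0q] at this
      omega
    refine (card_le_card hsub).trans ?_
    rw [card_product, card_singleton, one_mul, Int.card_Icc]
    omega

end

end Pool.Agent.W_7d29a1_C1.Cnt58
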