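import Pool.Agent.W_7d29a1_C1.CntX58

/-!
MP_7d29a1_pr, [C1] attractor route, THE COUNT OF (Y) AS SETS OF ENVIRONMENTS. (helper58)

`GC58 Γ c ε θ t b`: the tube `t b` of the site `b` is good for the two replicas and the natural weight of `b` is at least `θ`;
a measurable set. `gc_card`: every environment is in few of the sets `GC58 .. b`.
-/

set_option autoImplicit false

namespace Pool.Agent.W_7d29a1_C1.Cnt58

open Finset MeasureTheory
open Pool.Agent.W_7d29a1_F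
open Pool.Agent.W_7d29a1_C1.K91 (Grp Box wt wt_pos measurable_wt)
open Pool.Agent.W_7d29a1_C1.K91P
open Pool.Agent.W_7d29a1_C1.U16 (ker dlt)
open Pool.Agent.W_7d29a1_C1.H60
open Pool.Agent.W_7d29a1_C1.H60.Cx (l)

noncomputable section

theorem pm_ker {α : Type*} [MeasurableSpace α] {W : α → ℕ → ℤ → ℝ} {p : ℕ → ℝ} (hW : ∀ k y, Measurable fun x => W x k y)
    (i n : ℕ) (a b : ℤ) : Measurable fun x => ker (W x) p i n a b :=
  pm_fw (W := fun x k => W x (i + k)) (p := fun k => p (i + k)) (l := fun _ => dlt a) (fun k y => hW (i + k) y)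
    (fun _ => measurable_const) n b

theorem pm_off {α : Type*} [MeasurableSpace α] {W : α → ℕ → ℤ → ℝ} {p : ℕ → ℝ} {m : ℤ → ℝ} {lo hi : ℤ} {N : ℕ}
    (hW : ∀ k y, Measurable fun x => W x k y) (t : Tb) : Measurable fun x => off (W x) p m lo hi N t := by
  unfold off
  refine Finset.measurable_sum _ fun x _ => Finset.measurable_sum _ fun u _ => ?_
  split_ifs
  · exact measurable_const
  · exact (pm_fw (l := fun _ => m) hW (fun _ => measurable_const) _ _).mul ((pm_ker hW _ _ _ _).mul (pm_bw hW _ _ _))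

theorem pm_Zt {α : Type*} [MeasurableSpace α] {W : α → ℕ → ℤ → ℝ} {p : ℕ → ℝ} {m : ℤ → ℝ} {lo hi : ℤ} {N : ℕ}
    (hW : ∀ k y, Measurable fun x => W x k y) : Measurable fun x => Zt (W x) p m lo hi N := by
  unfold Zt
  exact Finset.measurable_sum _ fun y _ => measurable_const.mul (pm_bw hW _ _ _)

theorem ms_Hv {α : Type*} [MeasurableSpace α] {W : α → ℕ → ℤ → ℝ} {p : ℕ → ℝ} (hW : ∀ k y, Measurable fun x => W x k y) (c : ℝ)
    (t : Tb) : MeasurableSet {x | Hv (W x) p c t} := by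
  have e : {x | Hv (W x) p c t} = ⋂ (x : ℤ) (_ : x ∈ t.I) (y : ℤ) (_ : y ∈ t.I) (_ : x < y) (u : ℤ) (_ : u ∈ t.O) (v : ℤ)
      (_ : v ∈ t.O) (_ : u < v), {z | c * (ker (W z) p t.a t.n x u * ker (W z) p t.a t.n y v) ≤
        ker (W z) p t.a t.n x v * ker (W z) p t.a t.n y u} := by
    ext z
    simp only [Set.mem_iInter]
    exact Iff.rfl
  rw [e]
  refine MeasurableSet.iInter fun x => MeasurableSet.iInter fun _ => MeasurableSet.iInter fun y => MeasurableSet.iInter fun _ =>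
    MeasurableSet.iInter fun _ => MeasurableSet.iInter fun u => MeasurableSet.iInter fun _ => MeasurableSet.iInter fun v =>
    MeasurableSet.iInter fun _ => MeasurableSet.iInter fun _ => ?_
  exact measurableSet_le (measurable_const.mul ((pm_ker hW _ _ _ _).mul (pm_ker hW _ _ _ _)))
    ((pm_ker hW _ _ _ _).mul (pm_ker hW _ _ _ _))

theorem ms_Good {α : Type*} [MeasurableSpace α] {W : α → ℕ → ℤ → ℝ} {p : ℕ → ℝ} {l r : ℤ → ℝ} {lo hi : ℤ} {N : ℕ}
    (hW : ∀ k y, Measurable fun x => W x k y) (c ε : ℝ) (t : Tb) : MeasurableSet {x | Good (W x) p l r lo hi N c ε t} := by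
  have e : {x | Good (W x) p l r lo hi N c ε t} = {_x | t.a + t.n ≤ N} ∩ ({x | Hv (W x) p c t} ∩
      ({x | off (W x) p l lo hi N t ≤ ε * Zt (W x) p l lo hi N} ∩ {x | off (W x) p r lo hi N t ≤ ε * Zt (W x) p r lo hi N})) := by
    ext z
    exact ⟨fun h => ⟨h.hb, h.hv, h.ol, h.or⟩, fun h => ⟨h.1, h.2.1, h.2.2.1, h.2.2.2⟩⟩
  rw [e]
  refine (MeasurableSet.const _).inter ((ms_Hv hW c t).inter (MeasurableSet.inter ?_ ?_))
  · exact measurableSet_le (pm_off hW t) (measurable_const.mul (pm_Zt hW))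
  · exact measurableSet_le (pm_off hW t) (measurable_const.mul (pm_Zt hW))

variable {Γ : Cx}

/-- The tube of the site `b` is good for the two replicas and the natural weight of `b` is at least `θ`. -/
def GC58 (Γ : Cx) (c ε θ : ℝ) (t : ℕ × ℤ → Tb) (b : ℕ × ℤ) : Set Env :=
  {η | Good (wt η) Γ.p l Γ.r 0 Γ.hi Γ.N c ε (t b) ∧ θ ≤ Γ.w b η}

theorem measurableSet_GC58 (Γ : Cx) (c ε θ : ℝ) (t : ℕ × ℤ → Tb) (b : ℕ × ℤ) : MeasurableSet (GC58 Γ c ε θ t b) :=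
  (ms_Good measurable_wt c ε (t b)).inter (measurableSet_le measurable_const (Cx.meas_w Γ b))

open Classical in
/-- **Every environment is in few of the sets `GC58 .. b`.** -/
theorem gc_card (h : Γ.Ok) (η : Env) {c κ : ℝ} (hc0 : 0 < c) (hc1 : c ≤ 1) (hκ : 2 ≤ κ) {T L : ℕ} {t : ℕ × ℤ → Tb}
    {F : Finset (ℕ × ℤ)} (hF : F ⊆ Γ.rows 0 Γ.N)
    (ht : ∀ b ∈ F, b.1 ≤ (t b).a + T ∧ (t b).a + (t b).n ≤ b.1 + T ∧ ∀ x ∈ (t b).I, |x - b.2| ≤ L) :
    ((F.filter fun b => η ∈ GC58 Γ c (Real.exp (-(2 * κ))) (Real.exp (-κ)) t b).card : ℝ) ≤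
      (2 * L + 2 * T + 1) * (((κ + 1) / c + 1) * (2 * T + 1)) := by
  refine count58 h η hc0 hc1 hκ (t := t) fun b hb => ?_
  obtain ⟨hb1, hb2⟩ := mem_filter.1 hb
  obtain ⟨a1, a2, a3⟩ := ht b hb1
  exact ⟨hF hb1, hb2.1, a1, a2, a3, hb2.2⟩

open Classical in
/-- A smaller share off the tube, a larger level of the weight: fewer sets. -/
theorem gc_card' (h : Γ.Ok) (η : Env) {c κ ε θ : ℝ} (hc0 : 0 < c) (hc1 : c ≤ 1) (hκ : 2 ≤ κ) (hε : ε ≤ Real.exp (-(2 * κ)))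
    (hθ : Real.exp (-κ) ≤ θ) {T L : ℕ} {t : ℕ × ℤ → Tb} {F : Finset (ℕ × ℤ)} (hF : F ⊆ Γ.rows 0 Γ.N)
    (ht : ∀ b ∈ F, b.1 ≤ (t b).a + T ∧ (t b).a + (t b).n ≤ b.1 + T ∧ ∀ x ∈ (t b).I, |x - b.2| ≤ L) :
    ((F.filter fun b => η ∈ GC58 Γ c ε θ t b).card : ℝ) ≤ (2 * L + 2 * T + 1) * (((κ + 1) / c + 1) * (2 * T + 1)) := by
  refine le_trans ?_ (gc_card h η hc0 hc1 hκ hF ht)
  have z1 := Zt_nonneg (wt_pos η) Γ.p_pos (grl (Cx.box1 h))
  have z2 := Zt_nonneg (wt_pos η) Γ.p_pos (grr (Cx.box1 h))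
  exact_mod_cast card_le_card fun b hb => by
    rw [mem_filter] at hb ⊢
    obtain ⟨hb1, g, hb2⟩ := hb
    exact ⟨hb1, ⟨g.hb, g.hv, g.ol.trans (mul_le_mul_of_nonneg_right hε z1), g.or.trans (mul_le_mul_of_nonneg_right hε z2)⟩, hθ.trans hb2⟩

end

end Pool.Agent.W_7d29a1_C1.Cnt58
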