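import Pool.Agent.W_7d29a1_C1.Cnt58
import Pool.Agent.W_7d29a1_C1.CtxM68

/-!
MP_7d29a1_pr, [C1] attractor route, THE COUNT OF (Y) in a context (Ctx60). (helper58)

`count58`: the sites with natural first meeting weight `≥ e^(-κ)` and a tube within `T` rows and `L` columns (meeting probability at
least `c` for every entrance and exit, at most the share `e^(-2κ)` of each replica off it) are at most
`(2L + 2T + 1) ((κ + 1)/c + 1) (2T + 1)`; `count_rows58`: their rows are at most `((κ + 1)/c + 1) (2T + 1)`.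
-/

set_option autoImplicit false

namespace Pool.Agent.W_7d29a1_C1.Cnt58

open Finset
open Pool.Agent.W_7d29a1_F
open Pool.Agent.W_7d29a1_C1.K91 (Grp Box wt wt_pos)
open Pool.Agent.W_7d29a1_C1.K91P
open Pool.Agent.W_7d29a1_C1.H60
open Pool.Agent.W_7d29a1_C1.H60.Cx (l)

noncomputable section

variable {Γ : Cx}

theorem Zt_l (h : Γ.Ok) (η : Env) : Zt (wt η) Γ.p l 0 Γ.hi Γ.N = Γ.ZM η := Cx.ZM_eq h η

theorem Zt_r (η : Env) : Zt (wt η) Γ.p Γ.r 0 Γ.hi Γ.N = Γ.ZR η := rfl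

/-- The natural weight is at most the share of the pairs which have not met before. -/
theorem w_le_nmt (h : Γ.Ok) (η : Env) {b : ℕ × ℤ} (hb : b ∈ Γ.rows 0 Γ.N) : Γ.w b η ≤ Γ.nmt b.1 η := by
  have hb1 := Cx.mem_rows.1 hb
  have e1 := Cx.sum_w h η (a := b.1) (b := b.1 + 1) (by omega) (by omega)
  have e2 := Cx.nmt_nonneg h (b.1 + 1) η
  have e3 : Γ.w b η ≤ ∑ c ∈ Γ.rows b.1 (b.1 + 1), Γ.w c η :=
    single_le_sum (f := fun c => Γ.w c η) (fun c _ => Cx.w_nonneg h c η) (Cx.mem_rows.2 ⟨⟨le_rfl, by omega⟩, hb1.2⟩)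
  linarith

theorem nm_of_w (h : Γ.Ok) (η : Env) {b : ℕ × ℤ} (hb : b ∈ Γ.rows 0 Γ.N) {θ : ℝ} (hθ : θ ≤ Γ.w b η) :
    θ * (Zt (wt η) Γ.p l 0 Γ.hi Γ.N * Zt (wt η) Γ.p Γ.r 0 Γ.hi Γ.N) ≤ nm (wt η) Γ.p l Γ.r 0 Γ.hi Γ.N b.1 := by
  rw [Zt_l h η, Zt_r η]
  have h1 := Cx.ZM_pos Γ η
  have h2 := Cx.ZR_pos h η
  have h3 := hθ.trans (w_le_nmt h η hb)
  unfold Cx.nmt at h3
  rwa [le_div_iff₀ (mul_pos h1 h2)] at h3

/-- The number of tubes. -/
theorem pow_lt58 {c κ : ℝ} (hc0 : 0 < c) (hc1 : c ≤ 1) (hκ : 2 ≤ κ) :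
    (1 - c) ^ ⌈(κ + 1) / c⌉₊ + 2 * Real.exp (-(2 * κ)) < Real.exp (-κ) := by
  set J := ⌈(κ + 1) / c⌉₊ with hJ
  have e0 := Real.exp_pos (-κ)
  have e1 : κ + 1 ≤ c * J := by
    have := Nat.le_ceil ((κ + 1) / c)
    rw [div_le_iff₀ hc0] at this
    linarith
  have e2 : (1 - c) ^ J ≤ Real.exp (-κ) * Real.exp (-1) := by
    have h1 : 1 - c ≤ Real.exp (-c) := by
      have := Real.add_one_le_exp (-c)
      linarith
    calc (1 - c) ^ J ≤ (Real.exp (-c)) ^ J := pow_le_pow_left₀ (by linarith) h1 J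
      _ = Real.exp (-(c * J)) := by
        rw [← Real.exp_nat_mul]
        congr 1
        ring
      _ ≤ Real.exp (-κ + -1) := Real.exp_le_exp.2 (by linarith)
      _ = _ := Real.exp_add _ _
  have e3 : Real.exp (-1) < 1 / 2 := by
    have := Real.exp_neg_one_lt_half
    linarith
  have e4 : Real.exp (-κ) ≤ Real.exp (-1) * Real.exp (-1) := by
    rw [← Real.exp_add]
    exact Real.exp_le_exp.2 (by linarith)
  have e5 : Real.exp (-1) * Real.exp (-1) < 1 / 2 * (1 / 2) :=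
    mul_lt_mul'' e3 e3 (Real.exp_pos _).le (Real.exp_pos _).le
  have e6 : Real.exp (-(2 * κ)) = Real.exp (-κ) * Real.exp (-κ) := by
    rw [← Real.exp_add]
    congr 1
    ring
  rw [e6]
  have e7 := mul_lt_mul_of_pos_left e3 e0
  have e8 : Real.exp (-κ) * Real.exp (-κ) < Real.exp (-κ) * (1 / 4) := mul_lt_mul_of_pos_left (by linarith) e0
  linarith

theorem ceil_le58 {c κ : ℝ} (hc0 : 0 < c) (hκ : 0 ≤ κ) : (⌈(κ + 1) / c⌉₊ : ℝ) ≤ (κ + 1) / c + 1 :=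
  (Nat.ceil_lt_add_one (by positivity)).le

/-- **The count of (Y), rows**: few rows have a pair of replicas which has not met before with probability `e^(-κ)` and a good tube
within `T` rows. -/
theorem count_rows58 (h : Γ.Ok) (η : Env) {c κ : ℝ} (hc0 : 0 < c) (hc1 : c ≤ 1) (hκ : 2 ≤ κ) {T : ℕ} {R : Finset ℕ} {t : ℕ → Tb}
    (hR : ∀ k ∈ R, k ≤ Γ.N ∧ Good (wt η) Γ.p l Γ.r 0 Γ.hi Γ.N c (Real.exp (-(2 * κ))) (t k) ∧ k ≤ (t k).a + T ∧
      (t k).a + (t k).n ≤ k + T ∧ Real.exp (-κ) ≤ Γ.nmt k η) : (R.card : ℝ) ≤ ((κ + 1) / c + 1) * (2 * T + 1) := by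
  have z1 := Cx.ZM_pos Γ η
  have z2 := Cx.ZR_pos h η
  have e1 := card_rows (wt_pos η) Γ.p_pos (Cx.box1 h) hc0.le hc1 (Real.exp_pos _).le
    (by rw [Zt_l h η, Zt_r η]; exact mul_pos z1 z2) (pow_lt58 hc0 hc1 hκ) (R := R) (t := t) (T := T) fun k hk => by
      obtain ⟨a1, a2, a3, a4, a5⟩ := hR k hk
      refine ⟨a1, a2, a3, a4, ?_⟩
      rw [Zt_l h η, Zt_r η]
      unfold Cx.nmt at a5
      rwa [le_div_iff₀ (mul_pos z1 z2)] at a5
  have e2 : (R.card : ℝ) ≤ (⌈(κ + 1) / c⌉₊ : ℝ) * (2 * T + 1) := by exact_mod_cast e1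
  exact e2.trans (mul_le_mul_of_nonneg_right (ceil_le58 hc0 (by linarith)) (by positivity))

/-- **The count of (Y), sites**: few sites have natural first meeting weight `e^(-κ)` and a good tube within `T` rows and `L` columns. -/
theorem count58 (h : Γ.Ok) (η : Env) {c κ : ℝ} (hc0 : 0 < c) (hc1 : c ≤ 1) (hκ : 2 ≤ κ) {T L : ℕ} {C : Finset (ℕ × ℤ)}
    {t : ℕ × ℤ → Tb} (hC : ∀ b ∈ C, b ∈ Γ.rows 0 Γ.N ∧ Good (wt η) Γ.p l Γ.r 0 Γ.hi Γ.N c (Real.exp (-(2 * κ))) (t b) ∧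
      b.1 ≤ (t b).a + T ∧ (t b).a + (t b).n ≤ b.1 + T ∧ (∀ x ∈ (t b).I, |x - b.2| ≤ L) ∧ Real.exp (-κ) ≤ Γ.w b η) :
    (C.card : ℝ) ≤ (2 * L + 2 * T + 1) * (((κ + 1) / c + 1) * (2 * T + 1)) := by
  have z1 := Cx.ZM_pos Γ η
  have z2 := Cx.ZR_pos h η
  have e1 := card_sites (wt_pos η) Γ.p_pos (Cx.box1 h) hc0.le hc1 (Real.exp_pos _).le
    (by
      have e3 : Real.exp (-(2 * κ)) ≤ Real.exp (-1 + -1) := Real.exp_le_exp.2 (by linarith)
      rw [Real.exp_add] at e3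
      have e4 := Real.exp_neg_one_lt_half
      have e5 := mul_lt_mul'' e4 e4 (Real.exp_pos _).le (Real.exp_pos _).le
      linarith)
    (by rw [Zt_l h η]; exact z1) (by rw [Zt_r η]; exact z2) (pow_lt58 hc0 hc1 hκ) (C := C) (t := t) (T := T) (L := L) fun b hb => by
      obtain ⟨a1, a2, a3, a4, a5, a6⟩ := hC b hb
      have a7 := (Cx.mem_rows.1 a1).1.2
      exact ⟨a7.le, a2, a3, a4, a5, nm_of_w h η a1 a6⟩
  have e2 : (C.card : ℝ) ≤ (2 * L + 2 * T + 1) * ((⌈(κ + 1) / c⌉₊ : ℝ) * (2 * T + 1)) := by exact_mod_cast e1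
  refine e2.trans (mul_le_mul_of_nonneg_left ?_ (by positivity))
  exact mul_le_mul_of_nonneg_right (ceil_le58 hc0 (by linarith)) (by positivity)

end

end Pool.Agent.W_7d29a1_C1.Cnt58
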