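import Pool.Agent.W_7d29a1_C1.RoB22

/-!
MP_7d29a1_pr, [C1] attractor route, SEP: THE RATIO OF ALL FOUR PAIRS (helper53)

`TmX` = tame backward masses OFF THE WINDOW (rows `[ra - 1, re]`, strip `b w_u + 1`). `TmB ⊆ TmX`; the ratio of one window passes `TmX` with
`2 d`; **`ro_tmX`**: two contents in `TmX` over one outside have the ratio `exp (2 Q)`: no kernel of the window is read.
So with `Lx := L ∩ TmX` all four pairs of contents in `Tx ∪ Lx` have a ratio, and for a base in `Tx` the sets `{η | R η ω ∈ L}` and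
`{η | R η ω ∈ Lx}` are equal.
-/

set_option autoImplicit false

namespace Pool.Agent.W_7d29a1_C1.SD53

open Finset MeasureTheory
open Pool.Agent.W_7d29a1_F hiding Bw G
open Pool.Agent.W_7d29a1_C1.K91 (wt wt_pos measurable_wt)
open Pool.Agent.W_7d29a1_C1.K91P (bw bw_succ bw_zero bw_pos bw_congr)
open Pool.Agent.W_7d29a1_C1.H60
open Pool.Agent.W_7d29a1_C1.G37 (Gm)
open Pool.Agent.W_7d29a1_C1.Sy78 (sp lat_win lat_succ)
open Pool.Agent.W_7d29a1_C1.O22 (Bw)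
open Pool.Agent.W_7d29a1_C1.Rt22
open Pool.Agent.W_7d29a1_C1.RB22
open Pool.Agent.W_7d29a1_C1.SF98 (FS Tx)
open Pool.Agent.W_7d29a1_C1.P25 (RatW RoW)

noncomputable section

/-- **Tame backward masses off the window.** -/
def TmX (Γ : Cx) (G : Gm) (γ : ℕ → ℤ → ℝ) (b Q : ℝ) (u : ℕ) (κ : ℤ × ℤ) : Set Env :=
  {ω | ∀ c c' : ℕ × ℤ, (c ∉ Bw G u κ ∧ G.ra u κ - 1 ≤ c.1 ∧ c.1 ≤ G.re u κ ∧ |G.lat c - G.ctr u κ| ≤ b * G.w u + 1) →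
    (c' ∉ Bw G u κ ∧ G.ra u κ - 1 ≤ c'.1 ∧ c'.1 ≤ G.re u κ ∧ |G.lat c' - G.ctr u κ| ≤ b * G.w u + 1) →
    bn Γ γ ω c' ≤ Real.exp Q * bn Γ γ ω c}

variable {Γ : Cx} {G : Gm} {γ : ℕ → ℤ → ℝ} {b Q Q' d : ℝ} {u : ℕ} {κ : ℤ × ℤ} {ω ω' η : Env}

theorem meas_TmX (b Q : ℝ) (u : ℕ) (κ : ℤ × ℤ) : MeasurableSet (TmX Γ G γ b Q u κ) := by
  have e1 : TmX Γ G γ b Q u κ = ⋂ c : ℕ × ℤ, ⋂ c' : ℕ × ℤ, {ω |
      (c ∉ Bw G u κ ∧ G.ra u κ - 1 ≤ c.1 ∧ c.1 ≤ G.re u κ ∧ |G.lat c - G.ctr u κ| ≤ b * G.w u + 1) →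
      (c' ∉ Bw G u κ ∧ G.ra u κ - 1 ≤ c'.1 ∧ c'.1 ≤ G.re u κ ∧ |G.lat c' - G.ctr u κ| ≤ b * G.w u + 1) →
      bn Γ γ ω c' ≤ Real.exp Q * bn Γ γ ω c} := by
    ext ω
    simp only [Set.mem_iInter]
    exact ⟨fun h c c' => h c c', fun h c c' => h c c'⟩
  rw [e1]
  refine MeasurableSet.iInter fun c => MeasurableSet.iInter fun c' => ?_
  by_cases h : c ∉ Bw G u κ ∧ G.ra u κ - 1 ≤ c.1 ∧ c.1 ≤ G.re u κ ∧ |G.lat c - G.ctr u κ| ≤ b * G.w u + 1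
  · by_cases h' : c' ∉ Bw G u κ ∧ G.ra u κ - 1 ≤ c'.1 ∧ c'.1 ≤ G.re u κ ∧ |G.lat c' - G.ctr u κ| ≤ b * G.w u + 1
    · simp only [h, h', not_false_eq_true, and_self, forall_const]
      exact measurableSet_le (meas_bn c') (measurable_const.mul (meas_bn c))
    · simp only [h', false_imp_iff, implies_true, Set.ofPred_true]
      exact MeasurableSet.univ
  · simp only [h, false_imp_iff, Set.ofPred_true]
    exact MeasurableSet.univ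

theorem tmX_mono (h : Q ≤ Q') (hγ : ∀ k y, 0 < γ k y) : TmX Γ G γ b Q u κ ⊆ TmX Γ G γ b Q' u κ := fun ω hω c c' h1 h2 =>
  (hω c c' h1 h2).trans (mul_le_mul_of_nonneg_right (Real.exp_le_exp.2 h) (bn_pos hγ ω c).le)

theorem tmB_tmX : TmB Γ G γ b Q u κ (G.ra u κ - 1) (G.re u κ) ⊆ TmX Γ G γ b Q u κ := fun _ hω c c' h1 h2 =>
  hω c c' h1.2.1 h1.2.2.1 h2.2.1 h2.2.2.1 h1.2.2.2 h2.2.2.2

/-- **The ratio passes `TmX`.** -/
theorem tmX_ro (hγ : ∀ k y, 0 < γ k y) (hR : RoW Γ G u κ d ω (G.R u κ η ω)) (hω : ω ∈ TmX Γ G γ b Q u κ) :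
    G.R u κ η ω ∈ TmX Γ G γ b (Q + 2 * d) u κ := by
  intro c c' h1 h2
  have key := hω c c' h1 h2
  have e1 : wt (G.R u κ η ω) c.1 c.2 = wt ω c.1 c.2 := G37.Gm.wt_gl_of_not_mem h1.1
  have e2 : wt (G.R u κ η ω) c'.1 c'.2 = wt ω c'.1 c'.2 := G37.Gm.wt_gl_of_not_mem h2.1
  have r1 := hR.dn c.1 c.2 h1.1
  have r2 := hR.up c'.1 c'.2 h2.1
  have p1 := mul_pos (wt_pos ω c.1 c.2) (hγ c.1 c.2)
  have p2 := mul_pos (wt_pos ω c'.1 c'.2) (hγ c'.1 c'.2)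
  have s1 : bn Γ γ ω c ≤ Real.exp d * bn Γ γ (G.R u κ η ω) c := by
    unfold bn
    rw [e1, ← mul_div_assoc]
    exact div_le_div_of_nonneg_right r1 p1.le
  have s2 : bn Γ γ (G.R u κ η ω) c' ≤ Real.exp d * bn Γ γ ω c' := by
    unfold bn
    rw [e2, ← mul_div_assoc]
    exact div_le_div_of_nonneg_right r2 p2.le
  calc bn Γ γ (G.R u κ η ω) c' ≤ Real.exp d * bn Γ γ ω c' := s2
    _ ≤ Real.exp d * (Real.exp Q * bn Γ γ ω c) := mul_le_mul_of_nonneg_left key (Real.exp_pos _).le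
    _ ≤ Real.exp d * (Real.exp Q * (Real.exp d * bn Γ γ (G.R u κ η ω) c)) :=
        mul_le_mul_of_nonneg_left (mul_le_mul_of_nonneg_left s1 (Real.exp_pos _).le) (Real.exp_pos _).le
    _ = Real.exp (Q + 2 * d) * bn Γ γ (G.R u κ η ω) c := by
        rw [show Q + 2 * d = Q + d + d by ring, Real.exp_add, Real.exp_add]
        ring

/-- One direction: off the window, from the strip to all sites. -/
theorem up_all {B : Set (ℕ × ℤ)} {a e : ℕ} {C : ℝ} (hC : 1 ≤ C) (he : e ≤ Γ.N)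
    (heq : ∀ k y, (k, y) ∉ B → wt ω k y = wt ω' k y) (hge : ∀ k y, e ≤ k → (k, y) ∉ B) (hlt : ∀ k y, k ≤ a → (k, y) ∉ B)
    {D : Set (ℕ × ℤ)} (hD : ∀ k y, (k, y) ∉ B → a ≤ k → k ≤ e → (k, y) ∈ D →
      bw (wt ω') Γ.p k (Γ.N - k) y ≤ C * bw (wt ω) Γ.p k (Γ.N - k) y)
    (hout : ∀ k y, a ≤ k → (k, y) ∉ D → (k + 1, y) ∉ B ∧ (k + 1, y + 1) ∉ B) :
    ∀ (j k : ℕ), k + j = e → ∀ y, (k, y) ∉ B → bw (wt ω') Γ.p k (Γ.N - k) y ≤ C * bw (wt ω) Γ.p k (Γ.N - k) y := by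
  intro j
  induction j with
  | zero =>
    intro k hk y _
    have e1 : bw (wt ω') Γ.p k (Γ.N - k) y = bw (wt ω) Γ.p k (Γ.N - k) y :=
      bw_congr _ _ (fun i hi z => (heq i z (hge i z (by omega))).symm) y
    rw [e1]
    have := mul_le_mul_of_nonneg_right hC (bw_pos (wt_pos ω) Γ.p_pos (Γ.N - k) k y).le
    linarith
  | succ j ih =>
    intro k hk y hy
    by_cases hs : a ≤ k ∧ (k, y) ∈ D
    · exact hD k y hy hs.1 (by omega) hs.2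
    · have hn : (k + 1, y) ∉ B ∧ (k + 1, y + 1) ∉ B := by
        rcases lt_or_ge k a with h1 | h1
        · exact ⟨hlt _ _ (by omega), hlt _ _ (by omega)⟩
        · exact hout k y h1 fun h2 => hs ⟨h1, h2⟩
      have i1 := ih (k + 1) (by omega) y hn.1
      have i2 := ih (k + 1) (by omega) (y + 1) hn.2
      have e1 : Γ.N - k = (Γ.N - (k + 1)) + 1 := by omega
      rw [e1, bw_succ, bw_succ, ← heq k y hy]
      have h3 : bw (wt ω') Γ.p (k + 1) (Γ.N - (k + 1)) y + Γ.p k * bw (wt ω') Γ.p (k + 1) (Γ.N - (k + 1)) (y + 1) ≤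
          C * (bw (wt ω) Γ.p (k + 1) (Γ.N - (k + 1)) y + Γ.p k * bw (wt ω) Γ.p (k + 1) (Γ.N - (k + 1)) (y + 1)) := by
        have := mul_le_mul_of_nonneg_left i2 (Γ.p_pos k).le
        nlinarith
      calc _ ≤ wt ω k y * (C * (bw (wt ω) Γ.p (k + 1) (Γ.N - (k + 1)) y + Γ.p k * bw (wt ω) Γ.p (k + 1) (Γ.N - (k + 1)) (y + 1))) :=
            mul_le_mul_of_nonneg_left h3 (wt_pos ω k y).le
        _ = _ := by ring

/-- **THE RATIO OF TWO CONTENTS IN `TmX`.** -/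
theorem ro_tmX (hγ : ∀ k y, 0 < γ k y) (hv0 : 0 ≤ G.v) (hv1 : G.v ≤ 1) (h0 : 0 ≤ G.rcc u κ) (hb : G.kw * G.w u + 2 ≤ b * G.w u)
    (he : G.re u κ ≤ Γ.N) (hQ : 0 ≤ Q) (hω : ω ∈ TmX Γ G γ b Q u κ) (hω' : G.R u κ η ω ∈ TmX Γ G γ b Q u κ) :
    RoW Γ G u κ (2 * Q) ω (G.R u κ η ω) := by
  have hkw := G.kw_nonneg
  have hw := G.w_pos u
  have hb0 : 0 ≤ b * G.w u := by nlinarith
  have heq : ∀ k y, (k, y) ∉ Bw G u κ → wt ω k y = wt (G.R u κ η ω) k y := fun k y h =>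
    (G37.Gm.wt_gl_of_not_mem h).symm
  have hge : ∀ k y, G.re u κ ≤ k → (k, y) ∉ Bw G u κ := fun k y h1 h2 => by
    have := (bw_rows h0 h2).2
    omega
  have hra := ra_pos (G := G) u κ
  have hlt : ∀ k y, k ≤ G.ra u κ - 1 → (k, y) ∉ Bw G u κ := fun k y h1 h2 => by
    have := (bw_rows h0 h2).1
    omega
  have hC : 1 ≤ Real.exp (2 * Q) := Real.one_le_exp (by linarith)
  have hrr : G.ra u κ - 1 ≤ G.re u κ := by
    have := G.ra_le_re u κ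
    omega
  -- the reference
  have z1 : (G.re u κ, zr G u κ (G.re u κ)) ∉ Bw G u κ ∧ G.ra u κ - 1 ≤ G.re u κ ∧ G.re u κ ≤ G.re u κ ∧
      |G.lat (G.re u κ, zr G u κ (G.re u κ)) - G.ctr u κ| ≤ b * G.w u + 1 := ⟨hge _ _ le_rfl, hrr, le_rfl, zr_lat hb0⟩
  have ez : bn Γ γ (G.R u κ η ω) (G.re u κ, zr G u κ (G.re u κ)) = bn Γ γ ω (G.re u κ, zr G u κ (G.re u κ)) := by
    unfold bn
    simp only
    rw [← heq _ _ (hge _ _ le_rfl), bw_congr (w := wt (G.R u κ η ω)) (w' := wt ω) (Γ.N - G.re u κ) (G.re u κ)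
      (fun i hi y => (heq i y (hge i y hi)).symm) _]
  have hout : ∀ k y, G.ra u κ - 1 ≤ k → (k, y) ∉ {c : ℕ × ℤ | |G.lat c - G.ctr u κ| ≤ b * G.w u + 1} →
      (k + 1, y) ∉ Bw G u κ ∧ (k + 1, y + 1) ∉ Bw G u κ := by
    intro k y _ h2
    have h3 : b * G.w u + 1 < |G.lat (k, y) - G.ctr u κ| := lt_of_not_ge h2
    have e1 : G.lat (k, y) = (y : ℝ) - G.v * (k : ℝ) := rfl
    constructor
    · intro h4
      have h5 := lat_win (G := G) (u := u) (κ := κ) (k := k + 1) (y := y) h4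
      have e2 : G.lat (k + 1, y) = (y : ℝ) - G.v * ((k + 1 : ℕ) : ℝ) := rfl
      rw [e2] at h5
      rw [e1] at h3
      push_cast at h5
      obtain ⟨h6, h7⟩ := abs_le.1 h5
      have : |(y : ℝ) - G.v * (k : ℝ) - G.ctr u κ| ≤ G.kw * G.w u + 2 := by
        rw [abs_le]
        constructor <;> linarith
      linarith
    · intro h4
      have h5 := lat_win (G := G) (u := u) (κ := κ) (k := k + 1) (y := y + 1) h4
      have e2 : G.lat (k + 1, y + 1) = ((y + 1 : ℤ) : ℝ) - G.v * ((k + 1 : ℕ) : ℝ) := rfl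
      rw [e2] at h5
      rw [e1] at h3
      push_cast at h5
      obtain ⟨h6, h7⟩ := abs_le.1 h5
      have : |(y : ℝ) - G.v * (k : ℝ) - G.ctr u κ| ≤ G.kw * G.w u + 2 := by
        rw [abs_le]
        constructor <;> linarith
      linarith
  have strip : ∀ k y, (k, y) ∉ Bw G u κ → G.ra u κ - 1 ≤ k → k ≤ G.re u κ → |G.lat (k, y) - G.ctr u κ| ≤ b * G.w u + 1 →
      bn Γ γ (G.R u κ η ω) (k, y) ≤ Real.exp (2 * Q) * bn Γ γ ω (k, y) ∧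
      bn Γ γ ω (k, y) ≤ Real.exp (2 * Q) * bn Γ γ (G.R u κ η ω) (k, y) := by
    intro k y h1 h2 h3 h4
    have a1 := hω _ _ ⟨h1, h2, h3, h4⟩ z1
    have a2 := hω _ _ z1 ⟨h1, h2, h3, h4⟩
    have a3 := hω' _ _ ⟨h1, h2, h3, h4⟩ z1
    have a4 := hω' _ _ z1 ⟨h1, h2, h3, h4⟩
    rw [ez] at a3 a4
    have hE := (Real.exp_pos Q).le
    rw [show 2 * Q = Q + Q by ring, Real.exp_add, mul_assoc, mul_assoc]
    exact ⟨a4.trans (mul_le_mul_of_nonneg_left a1 hE), a2.trans (mul_le_mul_of_nonneg_left a3 hE)⟩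
  have key : ∀ k y, (k, y) ∉ Bw G u κ → G.ra u κ - 1 ≤ k → k ≤ G.re u κ →
      (k, y) ∈ {c : ℕ × ℤ | |G.lat c - G.ctr u κ| ≤ b * G.w u + 1} →
      bw (wt (G.R u κ η ω)) Γ.p k (Γ.N - k) y ≤ Real.exp (2 * Q) * bw (wt ω) Γ.p k (Γ.N - k) y ∧
      bw (wt ω) Γ.p k (Γ.N - k) y ≤ Real.exp (2 * Q) * bw (wt (G.R u κ η ω)) Γ.p k (Γ.N - k) y := by
    intro k y h1 h2 h3 h4
    obtain ⟨s1, s2⟩ := strip k y h1 h2 h3 h4
    have e1 := bn_mul (Γ := Γ) hγ ω (k, y)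
    have e2 := bn_mul (Γ := Γ) hγ (G.R u κ η ω) (k, y)
    simp only at e1 e2
    have p1 := (mul_pos (wt_pos ω k y) (hγ k y)).le
    rw [← heq k y h1] at e2
    rw [e1, e2]
    constructor
    · calc _ ≤ Real.exp (2 * Q) * bn Γ γ ω (k, y) * (wt ω k y * γ k y) := mul_le_mul_of_nonneg_right s1 p1
        _ = _ := by ring
    · calc _ ≤ Real.exp (2 * Q) * bn Γ γ (G.R u κ η ω) (k, y) * (wt ω k y * γ k y) := mul_le_mul_of_nonneg_right s2 p1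
        _ = _ := by ring
  constructor
  · intro k y hy
    rcases le_total k (G.re u κ) with h1 | h1
    · exact up_all hC he heq hge hlt (fun k y a1 a2 a3 a4 => (key k y a1 a2 a3 a4).1) hout (G.re u κ - k) k (by omega) y hy
    · have e1 : bw (wt (G.R u κ η ω)) Γ.p k (Γ.N - k) y = bw (wt ω) Γ.p k (Γ.N - k) y :=
        bw_congr _ _ (fun i hi z => (heq i z (hge i z (by omega))).symm) y
      rw [e1]
      have := mul_le_mul_of_nonneg_right hC (bw_pos (wt_pos ω) Γ.p_pos (Γ.N - k) k y).le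
      linarith
  · intro k y hy
    rcases le_total k (G.re u κ) with h1 | h1
    · exact up_all (ω := G.R u κ η ω) (ω' := ω) hC he (fun k y h => (heq k y h).symm) hge hlt
        (fun k y a1 a2 a3 a4 => (key k y a1 a2 a3 a4).2) hout (G.re u κ - k) k (by omega) y hy
    · have e1 : bw (wt ω) Γ.p k (Γ.N - k) y = bw (wt (G.R u κ η ω)) Γ.p k (Γ.N - k) y :=
        bw_congr _ _ (fun i hi z => heq i z (hge i z (by omega))) y
      rw [e1]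
      have := mul_le_mul_of_nonneg_right hC (bw_pos (wt_pos (G.R u κ η ω)) Γ.p_pos (Γ.N - k) k y).le
      linarith

/-! ### The lucky events with `TmX` -/

/-- `L ∩ TmX`. -/
def Lx53 (Γ : Cx) (G : Gm) (γ : ℕ → ℤ → ℝ) (b Q : ℕ → ℝ) (L : ℕ → ℤ × ℤ → Set Env) : ℕ → ℤ × ℤ → Set Env := fun u κ =>
  L u κ ∩ TmX Γ G γ (b u) (Q u) u κ

variable {mt τ0 : ℕ} {TT : ℝ → ℕ → ℤ × ℤ → Set Env} {L : ℕ → ℤ × ℤ → Set Env} {smax dR bb QQ Q1 : ℕ → ℝ}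

/-- **FOR A TYPICAL BASE `L` AND `Lx53` ARE THE SAME.** -/
theorem mem_Lx (hγ : ∀ k y, 0 < γ k y) (R : RatW Γ G mt τ0 dR smax TT L)
    (hT : ∀ u κ, τ0 < u → u < G.M → (∃ c ∈ FS Γ G mt, G.loc u c = κ) → Tx TT smax u κ ⊆ TmX Γ G γ (bb u) (QQ u) u κ)
    (hQ1 : ∀ u, QQ u + 2 * dR u ≤ Q1 u) {u : ℕ} {κ : ℤ × ℤ} (hu : τ0 < u) (huM : u < G.M)
    (hκ : ∃ c ∈ FS Γ G mt, G.loc u c = κ) {ω : Env} (hω : ω ∈ Tx TT smax u κ) {η : Env} (hη : G.R u κ η ω ∈ L u κ) :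
    G.R u κ η ω ∈ Lx53 Γ G γ bb Q1 L u κ :=
  ⟨hη, tmX_mono (hQ1 u) hγ (tmX_ro hγ (R u κ hu huM hκ ω hω η hη) (hT u κ hu huM hκ hω))⟩

theorem indL_eq (hγ : ∀ k y, 0 < γ k y) (R : RatW Γ G mt τ0 dR smax TT L)
    (hT : ∀ u κ, τ0 < u → u < G.M → (∃ c ∈ FS Γ G mt, G.loc u c = κ) → Tx TT smax u κ ⊆ TmX Γ G γ (bb u) (QQ u) u κ)
    (hQ1 : ∀ u, QQ u + 2 * dR u ≤ Q1 u) {u : ℕ} {κ : ℤ × ℤ} (hu : τ0 < u) (huM : u < G.M)
    (hκ : ∃ c ∈ FS Γ G mt, G.loc u c = κ) {ω : Env} (hω : ω ∈ Tx TT smax u κ) {F : Type*} [Zero F] (f : Env → F) (η : Env) :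
    (Lx53 Γ G γ bb Q1 L u κ).indicator f (G.R u κ η ω) = (L u κ).indicator f (G.R u κ η ω) := by
  by_cases h : G.R u κ η ω ∈ L u κ
  · rw [Set.indicator_of_mem h, Set.indicator_of_mem (mem_Lx hγ R hT hQ1 hu huM hκ hω h)]
  · rw [Set.indicator_of_notMem h, Set.indicator_of_notMem fun h1 => h h1.1]

/-- **ALL FOUR PAIRS.** -/
theorem ro4 (hγ : ∀ k y, 0 < γ k y) (hv0 : 0 ≤ G.v) (hv1 : G.v ≤ 1) (hM : G.M ≤ mt)
    (hb : ∀ u, τ0 < u → G.kw * G.w u + 2 ≤ bb u * G.w u)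
    (hT : ∀ u κ, τ0 < u → u < G.M → (∃ c ∈ FS Γ G mt, G.loc u c = κ) → Tx TT smax u κ ⊆ TmX Γ G γ (bb u) (QQ u) u κ)
    (hQ : ∀ u, 0 ≤ QQ u) (hQ1 : ∀ u, QQ u ≤ Q1 u) {d : ℕ → ℝ} (hd : ∀ u, 2 * Q1 u ≤ d u) :
    ∀ v κ, τ0 < v → v < G.M → (∃ c ∈ FS Γ G mt, G.loc v c = κ) → ∀ A ∈ Tx TT smax v κ ∪ Lx53 Γ G γ bb Q1 L v κ, ∀ η,
      G.R v κ η A ∈ Tx TT smax v κ ∪ Lx53 Γ G γ bb Q1 L v κ → RoW Γ G v κ (d v) A (G.R v κ η A) := by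
  intro v κ hv hvM hκ A hA η hη
  have hin : ∀ A ∈ Tx TT smax v κ ∪ Lx53 Γ G γ bb Q1 L v κ, A ∈ TmX Γ G γ (bb v) (Q1 v) v κ := by
    intro A hA
    rcases hA with h | h
    · exact tmX_mono (hQ1 v) hγ (hT v κ hv hvM hκ h)
    · exact h.2
  have h0 : 0 ≤ G.rcc v κ := by
    obtain ⟨c, -, hc⟩ := hκ
    rw [← hc]
    exact (G.rcc_pos v c).le
  exact (ro_tmX hγ hv0 hv1 h0 (hb v hv) (Ou37.re_le_N hM hvM hκ) ((hQ v).trans (hQ1 v)) (hin A hA) (hin _ hη)).mono (wt_pos _) (wt_pos _)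
    Γ.p_pos (Real.exp_le_exp.2 (hd v))

end

end Pool.Agent.W_7d29a1_C1.SD53
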