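import Pool.Agent.W_7d29a1_C1.Sep25
import Pool.Agent.W_7d29a1_C1.RoX53

/-!
MP_7d29a1_pr, [C1] attractor route, SEP: THE FIELDS OF `In25` / `Lf49` FOR `Lx53 = L ∩ TmX` FROM THOSE FOR `L` (helper53)

`mL_x`, `dis_x`, `ro_x`, `cmpA_x`, `M3A_x`. One record: `XL53` (what is used: the ratio from typical to lucky, `Tx ⊆ TmX`, numbers).
-/

set_option autoImplicit false

namespace Pool.Agent.W_7d29a1_C1.SD53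

open Finset MeasureTheory
open Pool.Agent.W_7d29a1_F
open Pool.Agent.W_7d29a1_C1.K91 (wt)
open Pool.Agent.W_7d29a1_C1.H60
open Pool.Agent.W_7d29a1_C1.G37 (Gm)
open Pool.Agent.W_7d29a1_C1.H49 (Par lm ex Hf Hs rat)
open Pool.Agent.W_7d29a1_C1.SF98
open Pool.Agent.W_7d29a1_C1.P25 (Pos RoW RatW Stb TT25)
open scoped ENNReal

noncomputable section

variable {Γ : Cx} {G : Gm} {mt τ0 : ℕ} {γ : ℕ → ℤ → ℝ} {TT : ℝ → ℕ → ℤ × ℤ → Set Env} {L : ℕ → ℤ × ℤ → Set Env}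
  {smax dR bb QQ Q1 : ℕ → ℝ}

/-- **WHAT IS USED.** `QQ` = level of the backward masses of typical contents on the strip `bb w + 1`, `Q1 ≥ QQ + 2 dR`. -/
structure XL53 (Γ : Cx) (G : Gm) (mt τ0 : ℕ) (γ : ℕ → ℤ → ℝ) (TT : ℝ → ℕ → ℤ × ℤ → Set Env) (L : ℕ → ℤ × ℤ → Set Env)
    (smax dR bb QQ Q1 : ℕ → ℝ) : Prop where
  hγ : ∀ k y, 0 < γ k y
  v0 : 0 ≤ G.v
  v1 : G.v ≤ 1
  hM : G.M ≤ mt
  hb : ∀ u, τ0 < u → G.kw * G.w u + 2 ≤ bb u * G.w u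
  hT : ∀ u κ, τ0 < u → u < G.M → (∃ c ∈ FS Γ G mt, G.loc u c = κ) → Tx TT smax u κ ⊆ TmX Γ G γ (bb u) (QQ u) u κ
  hQ : ∀ u, 0 ≤ QQ u
  dR0 : ∀ u, 0 ≤ dR u
  hQ1 : ∀ u, QQ u + 2 * dR u ≤ Q1 u
  ro : RatW Γ G mt τ0 dR smax TT L

/-- `Tx ⊆ TmX` from `Ou ⊆ TmB`. -/
theorem hT_of {Lv : ℕ → ℤ × ℤ → Set Env} {Ou St Fw : ℝ → ℕ → ℤ × ℤ → Set Env}
    (hOu : ∀ u κ, τ0 < u → u < G.M → (∃ c ∈ FS Γ G mt, G.loc u c = κ) →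
      Ou (smax u) u κ ⊆ RB22.TmB Γ G γ (bb u) (QQ u) u κ (G.ra u κ - 1) (G.re u κ)) :
    ∀ u κ, τ0 < u → u < G.M → (∃ c ∈ FS Γ G mt, G.loc u c = κ) →
      Tx (TT25 Lv Ou St Fw) smax u κ ⊆ TmX Γ G γ (bb u) (QQ u) u κ := by
  intro u κ hu huM hκ ω hω
  have h1 : ω ∈ Lv u κ ∩ (Ou (smax u) u κ ∩ (St (smax u) u κ ∩ Fw (smax u) u κ)) := hω
  exact tmB_tmX (hOu u κ hu huM hκ h1.2.1)

theorem mL_x (h : ∀ u κ, MeasurableSet (L u κ)) : ∀ u κ, MeasurableSet (Lx53 Γ G γ bb Q1 L u κ) :=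
  fun u κ => (h u κ).inter (meas_TmX _ _ _ _)

theorem dis_x {Lv : ℕ → ℤ × ℤ → Set Env} (h : ∀ u κ, Disjoint (Lv u κ) (L u κ)) :
    ∀ u κ, Disjoint (Lv u κ) (Lx53 Γ G γ bb Q1 L u κ) :=
  fun u κ => (h u κ).mono_right Set.inter_subset_left

theorem ro_x (h : RatW Γ G mt τ0 dR smax TT L) : RatW Γ G mt τ0 dR smax TT (Lx53 Γ G γ bb Q1 L) :=
  fun u κ hu hM hκ ω hω η hη => h u κ hu hM hκ ω hω η hη.1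

/-- The indicators, for a typical base. -/
theorem XL53.ind (X : XL53 Γ G mt τ0 γ TT L smax dR bb QQ Q1) {u : ℕ} {κ : ℤ × ℤ} (hu : τ0 < u) (huM : u < G.M)
    (hκ : ∃ c ∈ FS Γ G mt, G.loc u c = κ) {ω : Env} (hω : ω ∈ Tx TT smax u κ) {F : Type*} [Zero F] (f : Env → F) (η : Env) :
    (Lx53 Γ G γ bb Q1 L u κ).indicator f (G.R u κ η ω) = (L u κ).indicator f (G.R u κ η ω) :=
  indL_eq X.hγ X.ro X.hT X.hQ1 hu huM hκ hω f η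

/-- All four pairs, price `2 Q1`. -/
theorem XL53.ro4 (X : XL53 Γ G mt τ0 γ TT L smax dR bb QQ Q1) {d : ℕ → ℝ} (hd : ∀ u, 2 * Q1 u ≤ d u) :
    ∀ v κ, τ0 < v → v < G.M → (∃ c ∈ FS Γ G mt, G.loc v c = κ) → ∀ A ∈ Tx TT smax v κ ∪ Lx53 Γ G γ bb Q1 L v κ, ∀ η,
      G.R v κ η A ∈ Tx TT smax v κ ∪ Lx53 Γ G γ bb Q1 L v κ → RoW Γ G v κ (d v) A (G.R v κ η A) :=
  SD53.ro4 X.hγ X.v0 X.v1 X.hM X.hb X.hT X.hQ (fun u => by linarith [X.hQ1 u, X.dR0 u]) hd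

variable {th be : ℕ → ℕ → ℝ} {sl b : ℕ → ℝ} {st : ℕ → ℕ → ℕ} {κ3 θ : ℝ≥0∞} {μ : Measure ℝ}

/-- **The field `cmpA`.** -/
theorem XL53.cmpA_x (X : XL53 Γ G mt τ0 γ TT L smax dR bb QQ Q1) (hst : ∀ t i, (p98 Γ G mt th sl be b st κ3 θ).rg τ0 t i → t ≤ st t i)
    {c : ℝ≥0∞}
    (H : ∀ t i, (p98 Γ G mt th sl be b st κ3 θ).rg τ0 t i → ∀ u ∈ Ico (st t i) i, ∀ y : XS Γ G mt,
      ∀ ω ∈ Tx TT smax u (G.loc u y.1),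
        c * ∫⁻ ξ, (Tx TT smax u (G.loc u y.1)).indicator (wS Γ G mt y) (G.R u (G.loc u y.1) ξ ω) ∂(law μ) ≤
          ∫⁻ η, (L u (G.loc u y.1)).indicator (wS Γ G mt y) (G.R u (G.loc u y.1) η ω) ∂(law μ)) :
    ∀ t i, (p98 Γ G mt th sl be b st κ3 θ).rg τ0 t i → ∀ u ∈ Ico (st t i) i, ∀ y : XS Γ G mt,
      ∀ ω ∈ Tx TT smax u (G.loc u y.1),
        c * ∫⁻ ξ, (Tx TT smax u (G.loc u y.1)).indicator (wS Γ G mt y) (G.R u (G.loc u y.1) ξ ω) ∂(law μ) ≤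
          ∫⁻ η, (Lx53 Γ G γ bb Q1 L u (G.loc u y.1)).indicator (wS Γ G mt y) (G.R u (G.loc u y.1) η ω) ∂(law μ) := by
  intro t i hrg u hu y ω hω
  have h1 : τ0 < t := hrg.1
  have h2 : i ≤ G.M := hrg.2.2
  have h3 := hst t i hrg
  obtain ⟨h4, h5⟩ := mem_Ico.1 hu
  refine (H t i hrg u hu y ω hω).trans (le_of_eq ?_)
  refine lintegral_congr fun η => ?_
  exact (X.ind (by omega) (by omega) ⟨y.1, y.2, rfl⟩ hω _ η).symm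

/-- **The field `M3A`.** -/
theorem XL53.M3A_x (X : XL53 Γ G mt τ0 γ TT L smax dR bb QQ Q1) (hst : ∀ t i, (p98 Γ G mt th sl be b st κ3 θ).rg τ0 t i → t ≤ st t i)
    {q : ℕ} {d : ℕ → ℝ} {C1 : ℝ≥0∞} (hTA : ∀ s κ, τ0 < s → s < G.M → TA TT q d sl ∅ s κ ⊆ Tx TT smax s κ)
    (H : ∀ t i, (p98 Γ G mt th sl be b st κ3 θ).rg τ0 t i → ∀ s ∈ Ico (st t i) i, ∀ κ : KS Γ G mt s,
      ∀ ω ∈ TA TT q d sl ∅ s κ.1, ω ∈ Hs (p98 Γ G mt th sl be b st κ3 θ) (wS Γ G mt) (G.cel (FS Γ G mt)) t i s κ →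
        ∫⁻ ξ, (TA TT q d sl ∅ s κ.1).indicator (rat (pX Γ G th sl be b st κ3 θ) (SD53.w Γ) (G.cel (Γ.rows 0 Γ.N))
          (G.low (Γ.rows 0 Γ.N)) t i s (upK κ)) (G.R s κ.1 ξ ω) ∂(law μ) ≤
        C1 * ∫⁻ η, (L s κ.1).indicator (fun ω => ∑ ρ ∈ G.nb (Γ.rows 0 Γ.N) s (upK κ), SD53.w Γ ρ ω) (G.R s κ.1 η ω) ∂(law μ)) :
    ∀ t i, (p98 Γ G mt th sl be b st κ3 θ).rg τ0 t i → ∀ s ∈ Ico (st t i) i, ∀ κ : KS Γ G mt s,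
      ∀ ω ∈ TA TT q d sl ∅ s κ.1, ω ∈ Hs (p98 Γ G mt th sl be b st κ3 θ) (wS Γ G mt) (G.cel (FS Γ G mt)) t i s κ →
        ∫⁻ ξ, (TA TT q d sl ∅ s κ.1).indicator (rat (pX Γ G th sl be b st κ3 θ) (SD53.w Γ) (G.cel (Γ.rows 0 Γ.N))
          (G.low (Γ.rows 0 Γ.N)) t i s (upK κ)) (G.R s κ.1 ξ ω) ∂(law μ) ≤
        C1 * ∫⁻ η, (Lx53 Γ G γ bb Q1 L s κ.1).indicator (fun ω => ∑ ρ ∈ G.nb (Γ.rows 0 Γ.N) s (upK κ), SD53.w Γ ρ ω)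
          (G.R s κ.1 η ω) ∂(law μ) := by
  intro t i hrg s hs κ ω hω hH
  have h1 : τ0 < t := hrg.1
  have h2 : i ≤ G.M := hrg.2.2
  have h3 := hst t i hrg
  obtain ⟨h4, h5⟩ := mem_Ico.1 hs
  refine (H t i hrg s hs κ ω hω hH).trans (le_of_eq ?_)
  congr 1
  refine lintegral_congr fun η => ?_
  exact (X.ind (by omega) (by omega) (P25.mem_loc κ) (hTA s κ.1 (by omega) (by omega) hω) _ η).symm

/-- `TA .. ∅ ⊆ Tx`. -/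
theorem TA_Tx {q : ℕ} {d : ℕ → ℝ} (mo : ∀ sg sg' u κ, sg ≤ sg' → TT sg u κ ⊆ TT sg' u κ) (hs : ∀ u, sl (u - 1) ≤ smax u) :
    ∀ s κ, τ0 < s → s < G.M → TA TT q d sl ∅ s κ ⊆ Tx TT smax s κ := by
  intro s κ _ _
  refine mo _ _ s κ ?_
  have h1 : dA q d ∅ s = 0 := by simp [dA]
  rw [h1, add_zero]
  exact hs s

end

end Pool.Agent.W_7d29a1_C1.SD53
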