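import Pool.Agent.W_7d29a1_C1.ExW53
import Pool.Agent.W_7d29a1_C1.Pos25

/-!
Both halves (MP_7d29a1_pr), attractor route [C1], SEP (move the contact): THE FIELDS `exclF`, `exclE` OF `In25`. (helper53)

`XI53`: what is needed: the ratio of one window (`ro2`, all pairs of contents in `Tx ∪ L`), `Wn53` for every window, numbers.
`exclF25`, `exclE25`: the two fields, literally. Also `stb_Fw`: the statement which the set `Fw` owes (`Stb` of Pos25).
-/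

set_option autoImplicit false

namespace Pool.Agent.W_7d29a1_C1.SD53

open Finset MeasureTheory
open Pool.Agent.W_7d29a1_F
open Pool.Agent.W_7d29a1_C1.K91 (wt)
open Pool.Agent.W_7d29a1_C1.H60
open Pool.Agent.W_7d29a1_C1.G37 (Gm)
open Pool.Agent.W_7d29a1_C1.H49 (Par lm ex Hf Hs)
open Pool.Agent.W_7d29a1_C1.E53
open Pool.Agent.W_7d29a1_C1.Lt87 (Reach)
open Pool.Agent.W_7d29a1_C1.Lb76 (kap76)
open Pool.Agent.W_7d29a1_C1.Sy78 (Rg St)
open Pool.Agent.W_7d29a1_C1.SF98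
open Pool.Agent.W_7d29a1_C1.P25 (Pos RoW Stb nb_rows ra_ge)
open scoped ENNReal

noncomputable section

/-! ### The set `Fw` -/

/-- **`Fw` OWES NOTHING MORE.** -/
theorem stb_Fw {Γ : Cx} {G : Gm} {mt q τ0 : ℕ} {dR d smax ga : ℕ → ℝ} {a b : ℝ} (hv0 : 0 ≤ G.v) (hv1 : G.v ≤ 1) (hab : b < a)
    (hd : ∀ u, dR u ≤ d u) (hmid : ∀ u v, u + q ≤ v → 2 * G.w v + G.kw * G.w u + 2 ≤ b * G.w v)
    (hout : ∀ u v, u + q ≤ v → a * G.w v + G.kw * G.w u + 2 ≤ (2 * G.kn - 2) * G.w v) :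
    Stb Γ G mt q τ0 dR d smax fun sg v κ => Fw Γ G a b (ga v - sg) v κ := by
  refine ⟨fun sg u κ => meas_Fw Γ G _ _ _ _ _, fun sg sg' u κ h => Fw_mono (by linarith), ?_⟩
  rintro u κ v κ' _ _ ⟨c, _, hc⟩ _ hP ω η hR sg _ hω
  have h0 : 0 ≤ G.rcc u κ := G.rcc_nonneg ⟨c, hc⟩
  have key : G.R u κ η ω ∈ Fw Γ G a b (ga v - sg - 2 * dR u) v κ' := by
    cases hP with
    | mid h hr hl => exact Fw_R hv0 hv1 hab (by linarith [hmid u v h]) hR hω
    | out h hr hl => exact Fw_off hv0 hv1 hab (by linarith [hout u v h]) hR hω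
    | low h hr =>
      have h1 := G.ra_le_re v κ'
      exact Fw_up hv0 hv1 hab h0 (by omega) hR hω
  exact Fw_mono (by linarith [hd u]) key

/-! ### Prices -/

/-- The price of the scales which are `q` scales and more below `u`. -/
def Pq (q : ℕ) (d : ℕ → ℝ) (u : ℕ) : ℝ := ∑ v ∈ (range (u + 1)).filter fun v => v + q ≤ u, d v

theorem pr_le_Pq {q : ℕ} {d : ℕ → ℝ} (hd : ∀ v, 0 ≤ d v) {S : Finset ℕ} {u : ℕ} (hS : ∀ v ∈ S, v < u → v + q ≤ u) :
    pr S d u ≤ Pq q d u := by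
  unfold pr Pq
  refine sum_le_sum_of_subset_of_nonneg (fun v hv => ?_) fun v _ _ => hd v
  obtain ⟨h1, h2⟩ := mem_filter.1 hv
  exact mem_filter.2 ⟨mem_range.2 (by omega), hS v h1 h2⟩

/-! ### The inputs -/

variable {Γ : Cx} {G : Gm} {mt : ℕ}

/-- **THE INPUTS OF THE EXCLUSIONS.** -/
structure XI53 (Γ : Cx) (G : Gm) (mt : ℕ) (TT : ℝ → ℕ → ℤ × ℤ → Set Env) (L : ℕ → ℤ × ℤ → Set Env) (sl smax : ℕ → ℝ)
    (th be : ℕ → ℕ → ℝ) (b : ℕ → ℝ) (st : ℕ → ℕ → ℕ) (κ3 θ : ℝ≥0∞) (τ0 q r : ℕ) (dR dT : ℕ → ℝ) (aX aF : ℝ)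
    (a1 b1 : ℕ → ℤ × ℤ → ℕ) (C1 C2 : ℕ → ℤ × ℤ → Set ℤ) (g Y ee F δ : ℕ → ℝ) : Prop where
  ok : Γ.Ok
  v0 : 0 ≤ G.v
  v1 : G.v ≤ 1
  q3 : 3 ≤ q
  dR0 : ∀ v, 0 ≤ dR v
  dT0 : ∀ v, 0 ≤ dT v
  hdT : ∀ v, (1 + (G.T v : ℝ)) * Real.exp (dR v) ≤ Real.exp (dT v)
  st_ge : ∀ t i, (pX Γ G th sl be b st κ3 θ).rg τ0 t i → t ≤ st t i
  be0 : ∀ t i, 0 ≤ be t i
  -- widths
  hX : ∀ v u, v + q ≤ u → (G.kb + G.kw + 1) * G.w v + G.w u / 2 + 2 ≤ aX * G.w u
  hW : ∀ t i u, t + 2 ≤ u → u < i - r → aF * G.w u + G.g u / 2 ≤ G.W i (t - 1)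
  -- the window
  ro2 : ∀ v κ, τ0 < v → v < G.M → (∃ c ∈ FS Γ G mt, G.loc v c = κ) → ∀ A ∈ Tx TT smax v κ ∪ L v κ, ∀ η,
    G.R v κ η A ∈ Tx TT smax v κ ∪ L v κ → RoW Γ G v κ (dR v) A (G.R v κ η A)
  wn : ∀ u κ, τ0 < u → u < G.M → (∃ c ∈ FS Γ G mt, G.loc u c = κ) → ∀ ω ∈ Tx TT smax u κ, ∀ η, G.R u κ η ω ∈ L u κ →
    Wn53 Γ (G.ra u κ - 1) (a1 u κ) (b1 u κ) (C1 u κ) (C2 u κ) (Zg G u κ aX) (Fz G u κ aF) (g u) (Y u) (ee u) (F u) (δ u)
      ω (G.R u κ η ω)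
  b1_le : ∀ u κ, b1 u κ ≤ G.re u κ
  -- numbers
  numE : ∀ t i, (pX Γ G th sl be b st κ3 θ).rg τ0 t i → ∀ u, st t i + q ≤ u → u < i - r →
    ENNReal.ofReal (δ u + 4 * (Real.exp (Pq q dT u) *
      (Y u * Real.exp (2 * Pq q dR u) / (g u * Real.exp (-be t i)) + ee u))) < κ3
  numF : ∀ t i, (pX Γ G th sl be b st κ3 θ).rg τ0 t i → ∀ u, st t i + q ≤ u → u < i - r →
    8 * (Real.exp (4 * Pq q dR u) * F u / (g u * Real.exp (-be t i))) < Real.exp (-(th t i + sl (t - 1)))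

variable {TT : ℝ → ℕ → ℤ × ℤ → Set Env} {L : ℕ → ℤ × ℤ → Set Env} {sl smax : ℕ → ℝ}
  {th be : ℕ → ℕ → ℝ} {b : ℕ → ℝ} {st : ℕ → ℕ → ℕ} {κ3 θ : ℝ≥0∞} {τ0 q r : ℕ} {dR dT : ℕ → ℝ} {aX aF : ℝ}
  {a1 b1 : ℕ → ℤ × ℤ → ℕ} {C1 C2 : ℕ → ℤ × ℤ → Set ℤ} {g Y ee F δ : ℕ → ℝ}

theorem mem_class {q r s i u v : ℕ} (hv : v ∈ (Sq q r s i).filter fun v => v % q = u % q) (hvu : v < u) :
    s + q ≤ v ∧ v < i - r ∧ v + q ≤ u := by
  obtain ⟨h1, h2⟩ := mem_filter.1 hv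
  have h3 := mem_Ico.1 h1
  exact ⟨h3.1, h3.2, Ms9.cls9 h2 hvu⟩

/-- **THE FIELD `exclF`.** -/
theorem exclF25 (X : XI53 Γ G mt TT L sl smax th be b st κ3 θ τ0 q r dR dT aX aF a1 b1 C1 C2 g Y ee F δ) {t i : ℕ}
    (hrg : (pX Γ G th sl be b st κ3 θ).rg τ0 t i) (x : XS Γ G mt) {u : ℕ} (hu : u ∈ Sq q r (st t i) i) {ω : Env}
    (hω : ω ∈ Tx TT smax u (G.loc u x.1)) {η : Env} (hη : G.R u (G.loc u x.1) η ω ∈ L u (G.loc u x.1)) {ω₁ ω₂ : Env}
    (h₁ : ω₁ ∈ Hf (pX Γ G th sl be b st κ3 θ) (SD53.w Γ) (SD53.fa Γ G) t i (up x))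
    (r₁ : Reach (fun v => G.R v (G.loc v x.1)) (fun v => Tx TT smax v (G.loc v x.1) ∪ L v (G.loc v x.1))
      ((Sq q r (st t i) i).filter fun v => v % q = u % q) u ω ω₁)
    (h₂ : ω₂ ∈ Hf (pX Γ G th sl be b st κ3 θ) (SD53.w Γ) (SD53.fa Γ G) t i (up x))
    (r₂ : Reach (fun v => G.R v (G.loc v x.1)) (fun v => Tx TT smax v (G.loc v x.1) ∪ L v (G.loc v x.1))
      ((Sq q r (st t i) i).filter fun v => v % q = u % q) u (G.R u (G.loc u x.1) η ω) ω₂) : False := by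
  have hτ : τ0 < t := hrg.1
  have hti : t + G.m0 ≤ i := hrg.2.1
  have hiM : i ≤ G.M := hrg.2.2
  have hst := X.st_ge t i hrg
  have hq := X.q3
  obtain ⟨u1, u2⟩ := mem_Ico.1 hu
  have hw := G.w_pos u
  have hxz : G.w u / 2 + 1 ≤ aX * G.w u := by
    have h1 := X.hX (u - q) u (by omega)
    have h2 := G.w_pos (u - q)
    have h3 := G.kb_ge
    have h4 := G.kw_nonneg
    nlinarith
  have hcl : ∀ v ∈ (Sq q r (st t i) i).filter (fun v => v % q = u % q), v < u → st t i + q ≤ v ∧ v < i - r ∧ v + q ≤ u :=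
    fun v hv hvu => mem_class hv hvu
  have I := inwG (Γ := Γ) (G := G) (S := (Sq q r (st t i) i).filter fun v => v % q = u % q) (u := u) (κ := G.loc u x.1)
    (c := fun v => G.loc v x.1) (a := aX) (N := fun v => Tx TT smax v (G.loc v x.1) ∪ L v (G.loc v x.1)) (d := dR) (dT := dT)
    X.v0 X.v1 X.dR0 X.hdT (fun v _ _ => (G.rcc_pos v x.1).le)
    (fun v hv hvu => by
      obtain ⟨-, -, h3⟩ := hcl v hv hvu
      have e1 := G.re_cast (G.rcc_pos v x.1).le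
      have e2 := G.ra_cast (G.rcc_pos u x.1).le
      have e3 := G.rcc_mono (show v ≤ u by omega) x.1
      have e4 := G.T_lt8 (show v < u - 1 by omega)
      have e5 := G.T_pos' v
      have : (G.re v (G.loc v x.1) : ℤ) < G.ra u (G.loc u x.1) := by linarith
      exact_mod_cast this)
    (fun v hv hvu => by
      have e1 := G.row_lt_ra v x.1
      have e2 := G.lo_le u x.1
      have e3 := G.T_pos' (u - 2)
      omega)
    (fun v hv hvu => by
      obtain ⟨-, -, h3⟩ := hcl v hv hvu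
      have h4 := X.hX v u h3
      have h5 := G.lat_ctr v x.1
      have h6 := G.lat_ctr u x.1
      have h7 := G.g_le v
      have h8 := G.g_le u
      have h9 := G.w_pos v
      have hk := G.kb_ge
      have e1 : G.ctr v (G.loc v x.1) - G.ctr u (G.loc u x.1) =
          (G.lat x.1 - G.ctr u (G.loc u x.1)) - (G.lat x.1 - G.ctr v (G.loc v x.1)) := by ring
      have h10 := abs_sub (G.lat x.1 - G.ctr u (G.loc u x.1)) (G.lat x.1 - G.ctr v (G.loc v x.1))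
      rw [← e1] at h10
      nlinarith)
    (fun v hv hvu A hA η' hη' => X.ro2 v _ (by have := (hcl v hv hvu).1; omega) (by have := (hcl v hv hvu).2.1; omega)
      ⟨x.1, x.2, rfl⟩ A hA η' hη')
  have W := X.wn u (G.loc u x.1) (by omega) (by omega) ⟨x.1, x.2, rfl⟩ ω hω η hη
  have hra := G.row_lt_ra u x.1
  have hfr : ∀ v, t + 2 ≤ v → ∀ r' ∈ G.fr t (t - 1) x.1, r'.toNat < G.ra v (G.loc v x.1) := by
    intro v hv r' hr'
    have h1 := G.fr_lt_ra (show t - 1 < t by omega) hv hr'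
    have h2 := G.row_lt_ra v x.1
    omega
  refine exclF_wn X.ok (Gm' := G) (p := pX Γ G th sl be b st κ3 θ) (x := up x) (show t - 1 < t by omega) W I r₁ r₂ h₁ h₂
    (by show x.1.1 + 1 ≤ _; omega) (fun v hv hvu => ?_) ?_ (fun r' hr' => ⟨?_, fun v hv hvu => ?_⟩) (fun r' hr' y hy => ?_) ?_
  · have := G.row_lt_ra v x.1
    show x.1.1 + 1 < _
    omega
  · refine ⟨Sy78.mem_Rg_succ X.v0 X.v1 hxz x.1, ?_⟩
    show x.1.1 + 1 + 1 ≤ _
    omega
  · have := hfr u (by omega) r' hr'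
    omega
  · exact hfr v (by have := (hcl v hv hvu).1; omega) r' hr'
  · exact (fr_Fz (show t - 1 < t by omega) (by omega) hr' hy (X.hW t i u (by omega) u2)).1
  · have h1 := X.numF t i hrg u u1 u2
    have h2 : pr ((Sq q r (st t i) i).filter fun v => v % q = u % q) dR u ≤ Pq q dR u :=
      pr_le_Pq X.dR0 fun v hv hvu => (hcl v hv hvu).2.2
    have hg := W.g0
    have hF := W.F0
    refine lt_of_le_of_lt ?_ h1
    unfold kapW
    refine mul_le_mul_of_nonneg_left ?_ (by norm_num)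
    refine div_le_div_of_nonneg_right ?_ (mul_pos hg (Real.exp_pos _)).le
    exact mul_le_mul_of_nonneg_right (Real.exp_le_exp.2 (by linarith)) hF

/-- **THE FIELD `exclE`.** -/
theorem exclE25 (X : XI53 Γ G mt TT L sl smax th be b st κ3 θ τ0 q r dR dT aX aF a1 b1 C1 C2 g Y ee F δ) {d : ℕ → ℝ} {t i : ℕ}
    (hrg : (pX Γ G th sl be b st κ3 θ).rg τ0 t i) {s : ℕ} (hs : s ∈ Ico (st t i) i) (κ : KS Γ G mt s) {ρ : XS Γ G mt}
    (hρ : ρ ∈ G.nb (FS Γ G mt) s κ) {u : ℕ} (hu : u ∈ Sq q r s i) {ω : Env}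
    (hω : ω ∈ Tx TT smax u (G.loc u ρ.1)) {η : Env} (hη : G.R u (G.loc u ρ.1) η ω ∈ L u (G.loc u ρ.1)) {ω₁ ω₂ : Env}
    (h₁ : ω₁ ∈ Hs (pX Γ G th sl be b st κ3 θ) (SD53.w Γ) (G.cel (Γ.rows 0 Γ.N)) t i s (upK κ) ∩ TA TT q d sl ∅ s κ.1)
    (r₁ : Reach (Function.update (fun v => G.R v (G.loc v ρ.1)) s (G.R s κ.1))
      (Function.update (fun v => Tx TT smax v (G.loc v ρ.1) ∪ L v (G.loc v ρ.1)) s (Tx TT smax s κ.1 ∪ L s κ.1))
      (insert s ((Sq q r s i).filter fun v => v % q = u % q)) u ω ω₁)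
    (h₂ : ω₂ ∈ Hs (pX Γ G th sl be b st κ3 θ) (SD53.w Γ) (G.cel (Γ.rows 0 Γ.N)) t i s (upK κ) ∩ TA TT q d sl ∅ s κ.1)
    (r₂ : Reach (Function.update (fun v => G.R v (G.loc v ρ.1)) s (G.R s κ.1))
      (Function.update (fun v => Tx TT smax v (G.loc v ρ.1) ∪ L v (G.loc v ρ.1)) s (Tx TT smax s κ.1 ∪ L s κ.1))
      (insert s ((Sq q r s i).filter fun v => v % q = u % q)) u (G.R u (G.loc u ρ.1) η ω) ω₂) : False := by
  have hτ : τ0 < t := hrg.1
  have hiM : i ≤ G.M := hrg.2.2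
  have hst := X.st_ge t i hrg
  have hq := X.q3
  obtain ⟨s1, s2⟩ := mem_Ico.1 hs
  obtain ⟨u1, u2⟩ := mem_Ico.1 hu
  obtain ⟨K, hK⟩ : ∃ K, K = κ.1 := ⟨_, rfl⟩
  obtain ⟨c0, hc0⟩ := G.exists_cel κ
  have hcell : ∃ c ∈ FS Γ G mt, G.loc s c = κ.1 := ⟨c0.1, c0.2, congrArg Subtype.val hc0⟩
  have h0s : 0 ≤ G.rcc s κ.1 := by
    obtain ⟨c, -, hc⟩ := hcell
    exact G.rcc_nonneg ⟨c, hc⟩
  have hN : G.Nb s κ.1 ρ.1 := G.mem_nb.1 hρ
  obtain ⟨n1, n2⟩ := nb_rows h0s hN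
  have hN1 := hN.1
  have hN2 := hN.2.1
  have hN3 := hN.2.2
  -- the cells
  obtain ⟨c, hcdef⟩ : ∃ c : ℕ → ℤ × ℤ, c = Function.update (fun v => G.loc v ρ.1) s κ.1 := ⟨_, rfl⟩
  have hcs : c s = κ.1 := by rw [hcdef, Function.update_self]
  have hcv : ∀ v, v ≠ s → c v = G.loc v ρ.1 := fun v hv => by rw [hcdef, Function.update_of_ne hv]
  have eR : Function.update (fun v => G.R v (G.loc v ρ.1)) s (G.R s κ.1) = fun v => G.R v (c v) := by
    funext v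
    by_cases h : v = s
    · subst h; rw [Function.update_self, hcs]
    · rw [Function.update_of_ne h, hcv v h]
  have eN : Function.update (fun v => Tx TT smax v (G.loc v ρ.1) ∪ L v (G.loc v ρ.1)) s (Tx TT smax s κ.1 ∪ L s κ.1) =
      fun v => Tx TT smax v (c v) ∪ L v (c v) := by
    funext v
    by_cases h : v = s
    · subst h; rw [Function.update_self, hcs]
    · rw [Function.update_of_ne h, hcv v h]
  rw [eR, eN] at r₁ r₂
  have hS : ∀ v ∈ insert s ((Sq q r s i).filter fun v => v % q = u % q), v < u → v = s ∨ (v ≠ s ∧ s + q ≤ v ∧ v < i - r ∧ v + q ≤ u) := by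
    intro v hv hvu
    rcases mem_insert.1 hv with h | h
    · exact Or.inl h
    · obtain ⟨a1, a2, a3⟩ := mem_class h hvu
      exact Or.inr ⟨by omega, a1, a2, a3⟩
  have hSq : ∀ v ∈ insert s ((Sq q r s i).filter fun v => v % q = u % q), v < u → v + q ≤ u := by
    intro v hv hvu
    rcases hS v hv hvu with h | h
    · subst h; exact u1
    · exact h.2.2.2
  have hw := G.w_pos u
  have hTs : (G.T s : ℤ) + G.T (s - 2) ≤ G.T (u - 2) := by
    have e1 := G.T_lt8 (show s < u - 2 by omega)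
    have e2 := G.T_mono' (show s - 2 ≤ s by omega)
    have e3 := G.T_pos' s
    linarith
  have hrccs := G.rcc_eq s κ.1
  have hlou := G.lo_le u ρ.1
  have hrau := ra_ge (G := G) u ρ.1
  have hTs2 := G.T_mono' (show s - 2 ≤ u - 1 by omega)
  have I := inwG (Γ := Γ) (G := G) (S := insert s ((Sq q r s i).filter fun v => v % q = u % q)) (u := u) (κ := G.loc u ρ.1)
    (c := c) (a := aX) (N := fun v => Tx TT smax v (c v) ∪ L v (c v)) (d := dR) (dT := dT)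
    X.v0 X.v1 X.dR0 X.hdT
    (fun v hv hvu => by
      rcases hS v hv hvu with h | h
      · subst h; rw [hcs]; exact h0s
      · rw [hcv v h.1]; exact (G.rcc_pos v ρ.1).le)
    (fun v hv hvu => by
      rcases hS v hv hvu with h | h
      · subst h
        rw [hcs]
        have e4 := G.T_lt8 (show v < u - 1 by omega)
        have e5 := G.T_mono' (show v - 2 ≤ v by omega)
        have e6 := G.T_pos' v
        omega
      · rw [hcv v h.1]
        have e1 := G.re_cast (G.rcc_pos v ρ.1).le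
        have e2 := G.ra_cast (G.rcc_pos u ρ.1).le
        have e3 := G.rcc_mono (show v ≤ u by omega) ρ.1
        have e4 := G.T_lt8 (show v < u - 1 by omega)
        have e5 := G.T_pos' v
        have : (G.re v (G.loc v ρ.1) : ℤ) < G.ra u (G.loc u ρ.1) := by linarith
        exact_mod_cast this)
    (fun v hv hvu => by
      rcases hS v hv hvu with h | h
      · subst h
        rw [hcs]
        have e6 := G.T_pos' (v - 1)
        have e7 := G.T_pos' (v - 2)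
        omega
      · rw [hcv v h.1]
        have e1 := G.row_lt_ra v ρ.1
        have e3 := G.T_pos' (u - 2)
        omega)
    (fun v hv hvu => by
      have h4 := X.hX v u (hSq v hv hvu)
      have h6 := G.lat_ctr u ρ.1
      have h7 := G.g_le v
      have h8 := G.g_le u
      have h9 := G.w_pos v
      have hk := G.kb_ge
      rcases hS v hv hvu with h | h
      · subst h
        rw [hcs]
        have e1 : G.ctr v κ.1 - G.ctr u (G.loc u ρ.1) = (G.lat ρ.1 - G.ctr u (G.loc u ρ.1)) - (G.lat ρ.1 - G.ctr v κ.1) := by ring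
        have h10 := abs_sub (G.lat ρ.1 - G.ctr u (G.loc u ρ.1)) (G.lat ρ.1 - G.ctr v κ.1)
        rw [← e1] at h10
        nlinarith
      · rw [hcv v h.1]
        have h5 := G.lat_ctr v ρ.1
        have e1 : G.ctr v (G.loc v ρ.1) - G.ctr u (G.loc u ρ.1) =
            (G.lat ρ.1 - G.ctr u (G.loc u ρ.1)) - (G.lat ρ.1 - G.ctr v (G.loc v ρ.1)) := by ring
        have h10 := abs_sub (G.lat ρ.1 - G.ctr u (G.loc u ρ.1)) (G.lat ρ.1 - G.ctr v (G.loc v ρ.1))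
        rw [← e1] at h10
        nlinarith)
    (fun v hv hvu A hA η' hη' => by
      refine X.ro2 v _ ?_ ?_ ?_ A hA η' hη'
      · rcases hS v hv hvu with h | h
        · omega
        · omega
      · omega
      · rcases hS v hv hvu with h | h
        · subst h; rw [hcs]; exact hcell
        · rw [hcv v h.1]; exact ⟨ρ.1, ρ.2, rfl⟩)
  have W := X.wn u (G.loc u ρ.1) (by omega) (by omega) ⟨ρ.1, ρ.2, rfl⟩ ω hω η hη
  -- the contacts of the cell
  have con : ∀ ρ' : XX Γ, G.cel (Γ.rows 0 Γ.N) s ρ' = upK κ → G.loc s ρ'.1 = κ.1 := fun ρ' h => congrArg Subtype.val h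
  refine exclE_wn X.ok (p := pX Γ G th sl be b st κ3 θ) rfl (G.cel (Γ.rows 0 Γ.N)) W I r₁ r₂ h₁.1 h₂.1
    (fun ρ' hρ' => ⟨?_, ⟨⟨?_, ?_, ?_⟩, ?_⟩, fun v hv hvu => ?_⟩) (X.be0 t i) (fun k y hk => ?_) (D := G.T i) rfl (fun ρ' hρ' => ?_) ?_
  · have e1 := G.lt_rcc s ρ'.1
    rw [con ρ' hρ'] at e1
    omega
  · have e1 := G.lo_le s ρ'.1
    rw [con ρ' hρ'] at e1
    show G.lo u (G.loc u ρ.1) - (G.T (u - 2) : ℤ) ≤ ((ρ'.1.1 + 1 : ℕ) : ℤ)
    push_cast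
    omega
  · have e1 := G.lt_rcc s ρ'.1
    rw [con ρ' hρ'] at e1
    show ρ'.1.1 + 1 ≤ _
    omega
  · have e1 := G.lat_ctr s ρ'.1
    rw [con ρ' hρ'] at e1
    have e2 := G.g_le s
    have e3 := G.g_le u
    have e4 := G.lat_ctr u ρ.1
    have e5 := X.hX s u (by omega)
    have e6 : |G.lat ρ'.1 - G.ctr u (G.loc u ρ.1)| ≤ G.g s / 2 + G.kb * G.w s + G.g u / 2 := by
      have a1 : G.lat ρ'.1 - G.ctr u (G.loc u ρ.1) = (G.lat ρ'.1 - G.ctr s κ.1) - (G.lat ρ.1 - G.ctr s κ.1) +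
          (G.lat ρ.1 - G.ctr u (G.loc u ρ.1)) := by ring
      rw [a1]
      have a2 := abs_add_le ((G.lat ρ'.1 - G.ctr s κ.1) - (G.lat ρ.1 - G.ctr s κ.1)) (G.lat ρ.1 - G.ctr u (G.loc u ρ.1))
      have a3 := abs_sub (G.lat ρ'.1 - G.ctr s κ.1) (G.lat ρ.1 - G.ctr s κ.1)
      linarith
    have e7 := (Sy78.lat_succ X.v0 X.v1 ρ'.1.1 ρ'.1.2 e6).1
    show |G.lat (ρ'.1.1 + 1, ρ'.1.2) - G.ctr u (G.loc u ρ.1)| ≤ aX * G.w u
    have e8 := G.w_pos s
    have e9 := mul_nonneg G.kw_nonneg e8.le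
    nlinarith
  · have e1 := G.lt_rcc s ρ'.1
    rw [con ρ' hρ'] at e1
    show ρ'.1.1 + 1 + 1 ≤ _
    omega
  · have e1 := G.lt_rcc s ρ'.1
    have e0 := G.row_lt_ra s ρ'.1
    rw [con ρ' hρ'] at e1 e0
    rcases hS v hv hvu with h | h
    · subst h
      show ρ'.1.1 + 1 < G.ra v (c v)
      rw [hcs]
      omega
    · show ρ'.1.1 + 1 < G.ra v (c v)
      rw [hcv v h.1]
      have e2 := ra_ge (G := G) v ρ.1
      have e3 := G.T_mono' (show s - 2 ≤ v - 1 by omega)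
      omega
  · have := hk.2
    show k ≤ G.ra u (G.loc u ρ.1) - 1
    omega
  · have e1 := G.lo_le s ρ'.1
    rw [con ρ' hρ'] at e1
    have e2 := X.b1_le u (G.loc u ρ.1)
    have e3 := G.re_cast (G.rcc_pos u ρ.1).le
    have e4 := G.rcc_eq u (G.loc u ρ.1)
    have e5 := G.T_lt8 (show u < i by omega)
    have e6 := G.T_mono' (show u - 2 ≤ u by omega)
    have e7 := G.T_pos' u
    omega
  · have h1 := X.numE t i hrg u (by omega) u2
    have hP := pr_le_Pq X.dR0 hSq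
    have hP' := pr_le_Pq X.dT0 hSq
    have hg := W.g0
    have hY := W.pin.Y0
    have he := W.pin.e0
    refine lt_of_le_of_lt (ENNReal.ofReal_le_ofReal ?_) h1
    unfold kap76
    have a1 : Real.exp (2 * pr (insert s ((Sq q r s i).filter fun v => v % q = u % q)) dR u) ≤ Real.exp (2 * Pq q dR u) :=
      Real.exp_le_exp.2 (by linarith)
    have a2 : Real.exp (pr (insert s ((Sq q r s i).filter fun v => v % q = u % q)) dT u) ≤ Real.exp (Pq q dT u) :=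
      Real.exp_le_exp.2 hP'
    have a3 : Y u * Real.exp (2 * pr (insert s ((Sq q r s i).filter fun v => v % q = u % q)) dR u) / (g u * Real.exp (-be t i)) + ee u ≤
        Y u * Real.exp (2 * Pq q dR u) / (g u * Real.exp (-be t i)) + ee u :=
      add_le_add (div_le_div_of_nonneg_right (mul_le_mul_of_nonneg_left a1 hY) (mul_pos hg (Real.exp_pos _)).le) le_rfl
    have a4 : 0 ≤ Y u * Real.exp (2 * pr (insert s ((Sq q r s i).filter fun v => v % q = u % q)) dR u) /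
        (g u * Real.exp (-be t i)) + ee u :=
      add_nonneg (div_nonneg (mul_nonneg hY (Real.exp_pos _).le) (mul_pos hg (Real.exp_pos _)).le) he
    have a5 := mul_le_mul a2 a3 a4 (Real.exp_pos _).le
    exact add_le_add le_rfl (mul_le_mul_of_nonneg_left a5 (by norm_num))

end

end Pool.Agent.W_7d29a1_C1.SD53
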