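import Pool.Agent.W_7d29a1_C1.OuS37

/-!
MP_7d29a1_pr, [C1] attractor route, SEP: THE FINAL SET `OuF = Ou ∩ Ou ∩ PR ∩ PR` (two radii, helper69; helper99's `PR`: tame masses of the window rows at the price of
the scale `u + J`). (helper37)

* `OuT` alone: `OuT_mono`, `OuT_move`, `OuT_congr`, `OuT_below'`, `OuT_above_ro`, `stb_OuT`;
* `rJ G J u = w (u + J) / w u`; `PR E J RJ Q' sg u κ = OuT (E (· + J)) (RJ u) Q' sg u κ`, `stb_PR` (`J` and the radius cannot both be numbers);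
* `Stb.inter'` : `Stb` of an intersection;
* `OuF`, `stb_OuF`;
* `OuT_sz`, `OuT_ft` : `SzS`, `FtS` of RatG22 from `OuT`; `szS_mono`, `ftS_mono`; `PR_sz`, `PR_ft` : with a price `x u` of the scale `u`;
* `OuT_prof` : the profile clause of a row.
-/

set_option autoImplicit false

namespace Pool.Agent.W_7d29a1_C1.Ou37

open Finset MeasureTheory
open Pool.Agent.W_7d29a1_F hiding Bw G
open Pool.Agent.W_7d29a1_h4g Pool.Agent.W_7d29a1_HS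
open Pool.Agent.W_7d29a1_H hiding ex gg
open Pool.Agent.W_7d29a1_C1.K91 (wt wt_pos measurable_wt)
open Pool.Agent.W_7d29a1_C1.K91P (fw bw bw_pos bw_succ bw_zero)
open Pool.Agent.W_7d29a1_C1.U16 (bh16 bw_bh16)
open Pool.Agent.W_7d29a1_C1.FarW89 (bl)
open Pool.Agent.W_7d29a1_C1.H60
open Pool.Agent.W_7d29a1_C1.G37 (Gm)
open Pool.Agent.W_7d29a1_C1.O22 (Bw)
open Pool.Agent.W_7d29a1_C1.Sy78 (sp)
open Pool.Agent.W_7d29a1_C1.Rt22
open Pool.Agent.W_7d29a1_C1.P25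
open Pool.Agent.W_7d29a1_C1.SF98 (FS mem_FS)

noncomputable section

/-! ### `Stb` of an intersection -/

section

variable {Γ : Cx} {G : Gm} {mt q τ0 : ℕ} {dR d smax : ℕ → ℝ}

/-- **`Stb` of an intersection.** -/
theorem Stb_inter {F F' : ℝ → ℕ → ℤ × ℤ → Set Env} (h : Stb Γ G mt q τ0 dR d smax F) (h' : Stb Γ G mt q τ0 dR d smax F') :
    Stb Γ G mt q τ0 dR d smax (fun sg u κ => F sg u κ ∩ F' sg u κ) where
  meas sg u κ := (h.meas sg u κ).inter (h'.meas sg u κ)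
  mono sg sg' u κ h1 := Set.inter_subset_inter (h.mono sg sg' u κ h1) (h'.mono sg sg' u κ h1)
  tr u κ v κ' h1 h2 h3 h4 h5 ω η hR sg hsg hω :=
    ⟨h.tr u κ v κ' h1 h2 h3 h4 h5 ω η hR sg hsg hω.1, h'.tr u κ v κ' h1 h2 h3 h4 h5 ω η hR sg hsg hω.2⟩

end

variable {μ : Measure ℝ} {s : ℝ} {Γ : Cx} {G : Gm}

/-! ### `OuT` alone -/

section

variable {E : ℕ → ℝ} {R Q' sg : ℝ} {u : ℕ} {κ : ℤ × ℤ}

theorem OuT_mono {sg' : ℝ} (h : sg ≤ sg') : OuT μ s Γ G E R Q' sg u κ ⊆ OuT μ s Γ G E R Q' sg' u κ := fun _ h1 c hc c' hc' =>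
  (h1 c hc c' hc').trans (mul_le_mul_of_nonneg_right (Real.exp_le_exp.2 (by linarith)) (bn_pos _ _ _).le)

/-- A larger radius is stronger, a larger price is weaker. -/
theorem OuT_mono' {E' : ℕ → ℝ} {R' Q'' sg' : ℝ} (hR : R' * G.w u ≤ R * G.w u) (hQ : Q' * E u + sg ≤ Q'' * E' u + sg') :
    OuT μ s Γ G E R Q' sg u κ ⊆ OuT μ s Γ G E' R' Q'' sg' u κ := fun _ h1 c hc c' hc' =>
  (h1 c ⟨hc.1, hc.2.1, hc.2.2.trans hR⟩ c' ⟨hc'.1, hc'.2.1, hc'.2.2.trans hR⟩).trans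
    (mul_le_mul_of_nonneg_right (Real.exp_le_exp.2 hQ) (bn_pos _ _ _).le)

theorem OuT_move {ω ω' : Env} {d : ℝ} (hw : ∀ k, G.ra u κ ≤ k + 1 → k ≤ G.re u κ → wt ω' k = wt ω k)
    (hup : ∀ k y, G.ra u κ ≤ k + 1 → k ≤ G.re u κ → bw (wt ω') Γ.p k (Γ.N - k) y ≤ Real.exp d * bw (wt ω) Γ.p k (Γ.N - k) y)
    (hdn : ∀ k y, G.ra u κ ≤ k + 1 → k ≤ G.re u κ → bw (wt ω) Γ.p k (Γ.N - k) y ≤ Real.exp d * bw (wt ω') Γ.p k (Γ.N - k) y)
    (h : ω ∈ OuT μ s Γ G E R Q' sg u κ) : ω' ∈ OuT μ s Γ G E R Q' (sg + 2 * d) u κ := by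
  intro c hc c' hc'
  have up : bn μ s Γ c'.1 c'.2 ω' ≤ Real.exp d * bn μ s Γ c'.1 c'.2 ω := bn_le (hw _ hc'.1 hc'.2.1) (hup _ _ hc'.1 hc'.2.1)
  have dn : bn μ s Γ c.1 c.2 ω ≤ Real.exp d * bn μ s Γ c.1 c.2 ω' := bn_le (hw _ hc.1 hc.2.1).symm (hdn _ _ hc.1 hc.2.1)
  calc bn μ s Γ c'.1 c'.2 ω' ≤ Real.exp d * bn μ s Γ c'.1 c'.2 ω := up
    _ ≤ Real.exp d * (Real.exp (Q' * E u + sg) * bn μ s Γ c.1 c.2 ω) := mul_le_mul_of_nonneg_left (h c hc c' hc') (Real.exp_pos _).le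
    _ ≤ Real.exp d * (Real.exp (Q' * E u + sg) * (Real.exp d * bn μ s Γ c.1 c.2 ω')) :=
        mul_le_mul_of_nonneg_left (mul_le_mul_of_nonneg_left dn (Real.exp_pos _).le) (Real.exp_pos _).le
    _ = Real.exp (Q' * E u + (sg + 2 * d)) * bn μ s Γ c.1 c.2 ω' := by
        have e1 : Real.exp (Q' * E u + (sg + 2 * d)) = Real.exp d * (Real.exp (Q' * E u + sg) * Real.exp d) := by
          rw [← Real.exp_add, ← Real.exp_add]
          congr 1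
          ring
        rw [e1]
        ring

/-- **A window above is changed.** -/
theorem OuT_above_ro {v : ℕ} {κ' : ℤ × ℤ} (h0 : 0 ≤ G.rcc v κ') (hr : G.re u κ < G.ra v κ') {η ω : Env} {d : ℝ}
    (H : Ro (wt ω) (wt (G.R v κ' η ω)) Γ.p Γ.N (Bw G v κ') (Real.exp d)) (h : ω ∈ OuT μ s Γ G E R Q' sg u κ) :
    G.R v κ' η ω ∈ OuT μ s Γ G E R Q' (sg + 2 * d) u κ := by
  have hn : ∀ (k : ℕ) (y : ℤ), k ≤ G.re u κ → (k, y) ∉ Bw G v κ' := fun k y hk hB => by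
    have := (bw_rows h0 hB).1
    omega
  exact OuT_move (fun k _ h2 => Gm.wt_R_lt h0 (by omega) η ω) (fun k y _ h2 => H.up k y (hn k y h2)) (fun k y _ h2 => H.dn k y (hn k y h2)) h

/-- **Congruence.** -/
theorem OuT_congr (hN : G.re u κ ≤ Γ.N) {ω ω' : Env} (h : ∀ i, G.ra u κ ≤ i → wt ω' i = wt ω i)
    (hω : ω ∈ OuT μ s Γ G E R Q' sg u κ) : ω' ∈ OuT μ s Γ G E R Q' sg u κ := by
  have key : ∀ (k : ℕ) (y : ℤ), G.ra u κ ≤ k + 1 → k ≤ G.re u κ → bn μ s Γ k y ω' = bn μ s Γ k y ω := by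
    intro k y h1 h2
    rcases Nat.lt_or_ge k Γ.N with h3 | h3
    · exact bn_congr h3 (fun i hi => h i (by omega)) y
    · have h5 := G.ra_le_re u κ
      have h4 : G.ra u κ ≤ k := by omega
      have e : bw (wt ω') Γ.p k (Γ.N - k) y = bw (wt ω) Γ.p k (Γ.N - k) y := by
        rw [Nat.sub_eq_zero_of_le h3, bw_zero, bw_zero]
      rw [bn_eq, bn_eq, e]
      unfold gg
      rw [h k h4]
  intro c hc c' hc'
  rw [key c.1 c.2 hc.1 hc.2.1, key c'.1 c'.2 hc'.1 hc'.2.1]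
  exact hω c hc c' hc'

/-- **A window below is changed: exact.** -/
theorem OuT_below' {v : ℕ} {κ' : ℤ × ℤ} (h0 : 0 ≤ G.rcc v κ') (hr : G.re v κ' ≤ G.ra u κ) (hN : G.re u κ ≤ Γ.N) {η ω : Env}
    (h : ω ∈ OuT μ s Γ G E R Q' sg u κ) : G.R v κ' η ω ∈ OuT μ s Γ G E R Q' sg u κ :=
  OuT_congr hN (fun _ hi => Gm.wt_R_ge h0 (hr.trans hi) η ω) h

end

section

/-- **`Stb` of `OuT`** (`E` arbitrary; the radius and the price may depend on the scale). -/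
theorem stb_OuT {E R Q' : ℕ → ℝ} {mt q τ0 : ℕ} {dR d smax : ℕ → ℝ} (hM : G.M ≤ mt) (hd : ∀ u, dR u ≤ d u) (hd0 : ∀ u, 0 ≤ d u) :
    Stb Γ G mt q τ0 dR d smax (fun sg u κ => OuT μ s Γ G E (R u) (Q' u) sg u κ) where
  meas sg u κ := meas_OuT
  mono sg sg' u κ h := OuT_mono h
  tr u κ v κ' h1 h2 h3 h4 h5 ω η hR sg hsg hω := by
    obtain ⟨c, -, hc⟩ := h3
    have h0 : 0 ≤ G.rcc u κ := G.rcc_nonneg ⟨c, hc⟩
    have hN := re_le_N hM h2 h4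
    have hdu := hd0 u
    cases h5 with
    | mid _ hr _ => exact OuT_mono (by linarith) (OuT_below' h0 (by omega) hN hω)
    | out _ hr _ => exact OuT_mono (by linarith) (OuT_below' h0 (by omega) hN hω)
    | low _ hr =>
      refine OuT_mono (sg := sg + 2 * dR u) ?_ (OuT_above_ro h0 hr hR hω)
      have := hd u
      linarith

/-- **`Stb` of `Ou`**, all numbers functions of the scale. -/
theorem stb_Ou' {E R Q' Q4 sgm : ℕ → ℝ} {mt q τ0 : ℕ} {dR d smax : ℕ → ℝ} (hM : G.M ≤ mt) (hd : ∀ u, dR u ≤ d u) (hd0 : ∀ u, 0 ≤ d u) :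
    Stb Γ G mt q τ0 dR d smax (fun sg u κ => Ou μ s Γ G E (R u) (Q' u) (Q4 u) (sgm u) sg u κ) where
  meas sg u κ := meas_Ou
  mono sg sg' u κ h := Ou_mono h
  tr u κ v κ' h1 h2 h3 h4 h5 ω η hR sg hsg hω := by
    obtain ⟨c, -, hc⟩ := h3
    have h0 : 0 ≤ G.rcc u κ := G.rcc_nonneg ⟨c, hc⟩
    have hN := re_le_N hM h2 h4
    have hdu := hd0 u
    cases h5 with
    | mid _ hr _ => exact Ou_mono (by linarith) (Ou_below' h0 (by omega) hN hω)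
    | out _ hr _ => exact Ou_mono (by linarith) (Ou_below' h0 (by omega) hN hω)
    | low _ hr =>
      refine Ou_mono (sg := sg + 2 * dR u) ?_ (Ou_above_ro h0 hr hR hω)
      have := hd u
      linarith

end

section

variable {E : ℕ → ℝ} {R Q' sg : ℝ} {u : ℕ} {κ : ℤ × ℤ}

/-! ### The use of `OuT` -/

/-- **`SzS` of RatG22** from `OuT`. -/
theorem OuT_sz {b : ℝ} (hv0 : 0 ≤ G.v) (hv1 : G.v ≤ 1) (h0 : 0 ≤ G.rcc u κ) (hre : G.re u κ ≤ Γ.N) (h1 : 1 ≤ R * G.w u) (hb : b * G.w u + 1 ≤ R * G.w u)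
    (hk : G.kw * G.w u + 2 ≤ R * G.w u) {ω : Env}
    (h : ω ∈ OuT μ s Γ G E R Q' sg u κ) : ω ∈ SzS Γ G (gam μ s Γ) b (Q' * E u + sg) (Q' * E u + sg) u κ := by
  have hg := gam_pos (μ := μ) (s := s) (Γ := Γ)
  have hr := G.ra_le_re u κ
  have hz : (G.re u κ, zc G u κ) ∈ Zo G R u κ := ⟨by simp only; omega, le_rfl, (lat_zc u κ).trans h1⟩
  have hM : ∀ c : ℕ × ℤ, c.1 ≤ G.re u κ → Sp22.bf (wt ω) Γ.p (bw (wt ω) Γ.p (G.re u κ) (Γ.N - G.re u κ)) c.1 (G.re u κ - c.1) c.2 =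
      gg (gam μ s Γ) ω c.1 c.2 * bn μ s Γ c.1 c.2 ω := by
    intro c hc
    have h2 := bw_bn (μ := μ) (s := s) (Γ := Γ) c.1 c.2 ω
    rw [bw_bf hc hre]
    exact h2
  refine ⟨hre, F0_nonneg hg ω, fun c hc => ?_, fun c hc => ?_⟩
  · have hB : (c.1 + 1 < G.re u κ) ∧ |G.lat c - G.ctr u κ| ≤ R * G.w u := by
      have h3 : |G.lat c - G.ctr u κ| ≤ R * G.w u := (reg_G hv0 hv1 h0 hk).rim hc
      rcases hc.2.2 with h2 | h2
      · exact ⟨(bw_rows h0 h2).2, h3⟩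
      · exact ⟨(bw_rows h0 h2).2, h3⟩
    have hcZ : c ∈ Zo G R u κ := ⟨by have := hc.1; omega, by omega, hB.2⟩
    rw [hM c (by omega), F0_bn]
    have h2 := h c hcZ _ hz
    have h3 := gg_pos hg ω c.1 c.2
    calc bn μ s Γ (G.re u κ) (zc G u κ) ω * gg (gam μ s Γ) ω c.1 c.2
        ≤ (Real.exp (Q' * E u + sg) * bn μ s Γ c.1 c.2 ω) * gg (gam μ s Γ) ω c.1 c.2 := mul_le_mul_of_nonneg_right h2 h3.le
      _ = _ := by ring
  · have hcZ : c ∈ Zo G R u κ := by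
      have h2 : |G.lat c - G.ctr u κ| ≤ b * G.w u + 1 := hc.1
      rcases hc.2 with ⟨h3, h4, _⟩ | h3
      · exact ⟨by omega, by omega, h2.trans hb⟩
      · exact ⟨by omega, by omega, h2.trans hb⟩
    rw [hM c hcZ.2.1, F0_bn]
    have h2 := h _ hz c hcZ
    have h3 := gg_pos hg ω c.1 c.2
    calc gg (gam μ s Γ) ω c.1 c.2 * bn μ s Γ c.1 c.2 ω
        ≤ gg (gam μ s Γ) ω c.1 c.2 * (Real.exp (Q' * E u + sg) * bn μ s Γ (G.re u κ) (zc G u κ) ω) := mul_le_mul_of_nonneg_left h2 h3.le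
      _ = _ := by ring

/-- **`FtS` of RatG22** from `OuT`. -/
theorem OuT_ft {b : ℝ} (h1 : 1 ≤ R * G.w u) (hb : b * G.w u + 1 ≤ R * G.w u) {ω : Env}
    (h : ω ∈ OuT μ s Γ G E R Q' sg u κ) : ω ∈ FtS Γ G (gam μ s Γ) b (Q' * E u + sg) u κ := by
  have hg := gam_pos (μ := μ) (s := s) (Γ := Γ)
  have hr := G.ra_le_re u κ
  have hz : (G.re u κ, zc G u κ) ∈ Zo G R u κ := ⟨by simp only; omega, le_rfl, (lat_zc u κ).trans h1⟩
  intro v hv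
  have hvZ : (G.re u κ, v) ∈ Zo G R u κ := ⟨by simp only; omega, le_rfl, hv.trans hb⟩
  rw [F0_bn, bw_bn (μ := μ) (s := s)]
  have h2 := h _ hz _ hvZ
  have h3 := h _ hvZ _ hz
  simp only at h2 h3
  have h4 := gg_pos hg ω (G.re u κ) v
  constructor
  · calc gg (gam μ s Γ) ω (G.re u κ) v * bn μ s Γ (G.re u κ) v ω
        ≤ gg (gam μ s Γ) ω (G.re u κ) v * (Real.exp (Q' * E u + sg) * bn μ s Γ (G.re u κ) (zc G u κ) ω) :=
          mul_le_mul_of_nonneg_left h2 h4.le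
      _ = _ := by ring
  · calc bn μ s Γ (G.re u κ) (zc G u κ) ω * gg (gam μ s Γ) ω (G.re u κ) v
        ≤ (Real.exp (Q' * E u + sg) * bn μ s Γ (G.re u κ) v ω) * gg (gam μ s Γ) ω (G.re u κ) v := mul_le_mul_of_nonneg_right h3 h4.le
      _ = _ := by ring

/-- **THE PROFILE CLAUSE** of a pair of sites of the window rows, in backward masses and weights (same row). -/
theorem OuT_prof {k : ℕ} {v v₀ : ℤ} (hv : (k, v) ∈ Zo G R u κ) (hv₀ : (k, v₀) ∈ Zo G R u κ) {ω : Env} (h : ω ∈ OuT μ s Γ G E R Q' sg u κ) :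
    bw (wt ω) Γ.p k (Γ.N - k) v * wt ω k v₀ ≤ Real.exp (Q' * E u + sg) * (bw (wt ω) Γ.p k (Γ.N - k) v₀ * wt ω k v) := by
  have h1 := h _ hv₀ _ hv
  simp only at h1
  have h2 : bw (wt ω) Γ.p k (Γ.N - k) v = (wt ω k v * gam μ s Γ k v) * bn μ s Γ k v ω := bw_bn (μ := μ) (s := s) (Γ := Γ) k v ω
  have h3 : bw (wt ω) Γ.p k (Γ.N - k) v₀ = (wt ω k v₀ * gam μ s Γ k v₀) * bn μ s Γ k v₀ ω := bw_bn (μ := μ) (s := s) (Γ := Γ) k v₀ ω
  have h4 : gam μ s Γ k v₀ = gam μ s Γ k v := rfl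
  rw [h2, h3, h4]
  have h5 := wt_pos ω k v
  have h6 := wt_pos ω k v₀
  have h7 : 0 < gam μ s Γ k v := gam_pos _ _
  have h8 : 0 ≤ wt ω k v * wt ω k v₀ * gam μ s Γ k v := by positivity
  calc (wt ω k v * gam μ s Γ k v) * bn μ s Γ k v ω * wt ω k v₀ = (wt ω k v * wt ω k v₀ * gam μ s Γ k v) * bn μ s Γ k v ω := by ring
    _ ≤ (wt ω k v * wt ω k v₀ * gam μ s Γ k v) * (Real.exp (Q' * E u + sg) * bn μ s Γ k v₀ ω) := mul_le_mul_of_nonneg_left h1 h8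
    _ = _ := by ring

end

/-! ### `SzS`, `FtS` are monotone in their levels -/

theorem szS_mono {γ : ℕ → ℤ → ℝ} (hγ : ∀ k y, 0 < γ k y) {b U Q U' Q' : ℝ} {u : ℕ} {κ : ℤ × ℤ} (hU : U ≤ U') (hQ : Q ≤ Q') :
    SzS Γ G γ b U Q u κ ⊆ SzS Γ G γ b U' Q' u κ := by
  intro ω h
  have hF : ∀ y, 0 ≤ bw (wt ω) Γ.p (G.re u κ) (Γ.N - G.re u κ) y := fun y => (bw_pos (wt_pos ω) Γ.p_pos _ _ _).le
  refine ⟨h.1, F0_nonneg hγ ω, fun c hc => (h.2.lo c hc).trans ?_, fun c hc => (h.2.up c hc).trans ?_⟩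
  · exact mul_le_mul_of_nonneg_right (Real.exp_le_exp.2 hU) (Sp22.bf_nonneg (fun k y => (wt_pos ω k y).le) Γ.p_pos hF _ _ _)
  · exact mul_le_mul_of_nonneg_right (mul_le_mul_of_nonneg_right (Real.exp_le_exp.2 hQ) (F0_nonneg hγ ω)) (gg_pos hγ ω _ _).le

theorem ftS_mono {γ : ℕ → ℤ → ℝ} (hγ : ∀ k y, 0 < γ k y) {b Q Q' : ℝ} {u : ℕ} {κ : ℤ × ℤ} (hQ : Q ≤ Q') :
    FtS Γ G γ b Q u κ ⊆ FtS Γ G γ b Q' u κ := by
  intro ω h v hv
  obtain ⟨h1, h2⟩ := h v hv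
  refine ⟨h1.trans ?_, h2.trans ?_⟩
  · exact mul_le_mul_of_nonneg_right (mul_le_mul_of_nonneg_right (Real.exp_le_exp.2 hQ) (F0_nonneg hγ ω)) (gg_pos hγ ω _ _).le
  · exact mul_le_mul_of_nonneg_right (Real.exp_le_exp.2 hQ) (bw_pos (wt_pos ω) Γ.p_pos _ _ _).le

/-! ### The radius of the scale `u + J` -/

/-- The width of the scale `u + J` in units of the width of the scale `u`. -/
def rJ (G : Gm) (J u : ℕ) : ℝ := G.w (u + J) / G.w u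

theorem rJ_mul (J u : ℕ) : rJ G J u * G.w u = G.w (u + J) := div_mul_cancel₀ _ (G.w_pos u).ne'

theorem rJ_ge (J u : ℕ) : 2 ^ J ≤ rJ G J u := by
  unfold rJ
  rw [le_div_iff₀ (G.w_pos u)]
  induction J with
  | zero => simp
  | succ n ih =>
    have h1 := G.w_two (u + n)
    rw [show u + (n + 1) = u + n + 1 by omega, pow_succ]
    nlinarith [G.w_pos u]

theorem rJ_le (J u : ℕ) : rJ G J u ≤ (G.Cw : ℝ) ^ J := by
  unfold rJ
  rw [div_le_iff₀ (G.w_pos u)]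
  induction J with
  | zero => simp
  | succ n ih =>
    have h1 := G.w_up (u + n)
    have h2 : (G.Cw : ℝ) * G.w (u + n) ≤ G.Cw * ((G.Cw : ℝ) ^ n * G.w u) := mul_le_mul_of_nonneg_left ih (Nat.cast_nonneg _)
    rw [show u + (n + 1) = u + n + 1 by omega, pow_succ]
    calc G.w (u + n + 1) ≤ G.Cw * G.w (u + n) := h1
      _ ≤ G.Cw * ((G.Cw : ℝ) ^ n * G.w u) := h2
      _ = _ := by ring

/-! ### `PR`, `OuF` -/

variable (μ s Γ G)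

/-- **`PR`** (helper99): the masses of the window rows are tame at the price of the scale `u + J`. The radius is a function of the scale
(`RJ = rJ G J`). -/
def PR (E : ℕ → ℝ) (J : ℕ) (RJ : ℕ → ℝ) (Q' sg : ℝ) (u : ℕ) (κ : ℤ × ℤ) : Set Env :=
  OuT μ s Γ G (fun v => E (v + J)) (RJ u) Q' sg u κ

/-- **THE FINAL SET**: `Ou` at the two radii `rc` (core of the gate) and `r0` (rim, lanes), tame masses at the large radii `R0` (gate) and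
`R1` (ratio) with the prices `x0`, `x1` (`= sgm * R0`, `sgm * R1`) in the unit of the scale `u`. -/
def OuF (E : ℕ → ℝ) (rc Qc Q4c sgc r0 Qr Q4r sgr R0 x0 R1 x1 sg : ℝ) (u : ℕ) (κ : ℤ × ℤ) : Set Env :=
  Ou μ s Γ G E rc Qc Q4c sgc sg u κ ∩ (Ou μ s Γ G E r0 Qr Q4r sgr sg u κ ∩ (OuT μ s Γ G E R0 x0 sg u κ ∩ OuT μ s Γ G E R1 x1 sg u κ))

variable {μ s Γ G}

variable {E : ℕ → ℝ} {J : ℕ} {RJ : ℕ → ℝ} {Q' sg : ℝ} {u : ℕ} {κ : ℤ × ℤ}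

theorem stb_PR {mt q τ0 : ℕ} {dR d smax : ℕ → ℝ} (hM : G.M ≤ mt) (hd : ∀ u, dR u ≤ d u) (hd0 : ∀ u, 0 ≤ d u) :
    Stb Γ G mt q τ0 dR d smax (fun sg u κ => PR μ s Γ G E J RJ Q' sg u κ) := stb_OuT (Q' := fun _ => Q') hM hd hd0

/-- `PR` in the price of the scale `u`. -/
theorem PR_sub {R' Q'' : ℝ} (hR : R' * G.w u ≤ RJ u * G.w u) (hQ : Q' * E (u + J) ≤ Q'' * E u) :
    PR μ s Γ G E J RJ Q' sg u κ ⊆ OuT μ s Γ G E R' Q'' sg u κ := OuT_mono' hR (by linarith)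

/-- **`SzS` from `PR`** with a price `x`. -/
theorem PR_sz {b x : ℝ} (hv0 : 0 ≤ G.v) (hv1 : G.v ≤ 1) (h0 : 0 ≤ G.rcc u κ) (hre : G.re u κ ≤ Γ.N) (h1 : 1 ≤ RJ u * G.w u)
    (hb : b * G.w u + 1 ≤ RJ u * G.w u) (hk : G.kw * G.w u + 2 ≤ RJ u * G.w u) (hx : Q' * E (u + J) ≤ x) {ω : Env}
    (h : ω ∈ PR μ s Γ G E J RJ Q' sg u κ) : ω ∈ SzS Γ G (gam μ s Γ) b (x + sg) (x + sg) u κ :=
  szS_mono gam_pos (by linarith) (by linarith) (OuT_sz hv0 hv1 h0 hre h1 hb hk h)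

/-- **`FtS` from `PR`** with a price `x`. -/
theorem PR_ft {b x : ℝ} (h1 : 1 ≤ RJ u * G.w u) (hb : b * G.w u + 1 ≤ RJ u * G.w u) (hx : Q' * E (u + J) ≤ x) {ω : Env}
    (h : ω ∈ PR μ s Γ G E J RJ Q' sg u κ) : ω ∈ FtS Γ G (gam μ s Γ) b (x + sg) u κ :=
  ftS_mono gam_pos (by linarith) (OuT_ft h1 hb h)

/-- **The profile clause from `PR`** with a price `x`. -/
theorem PR_prof {k : ℕ} {v v₀ : ℤ} {x : ℝ} (hv : (k, v) ∈ Zo G (RJ u) u κ) (hv₀ : (k, v₀) ∈ Zo G (RJ u) u κ) (hx : Q' * E (u + J) ≤ x)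
    {ω : Env} (h : ω ∈ PR μ s Γ G E J RJ Q' sg u κ) :
    bw (wt ω) Γ.p k (Γ.N - k) v * wt ω k v₀ ≤ Real.exp (x + sg) * (bw (wt ω) Γ.p k (Γ.N - k) v₀ * wt ω k v) := by
  refine (OuT_prof hv hv₀ h).trans (mul_le_mul_of_nonneg_right (Real.exp_le_exp.2 (by linarith)) ?_)
  exact mul_nonneg (bw_pos (wt_pos ω) Γ.p_pos _ _ _).le (wt_pos ω k v).le

/-- **`Stb` OF THE FINAL SET.** -/
theorem stb_OuF {rc Qc Q4c sgc r0 Qr Q4r sgr R0 x0 R1 x1 : ℝ} {mt q τ0 : ℕ} {dR d smax : ℕ → ℝ} (hM : G.M ≤ mt)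
    (hd : ∀ u, dR u ≤ d u) (hd0 : ∀ u, 0 ≤ d u) :
    Stb Γ G mt q τ0 dR d smax (fun sg u κ => OuF μ s Γ G E rc Qc Q4c sgc r0 Qr Q4r sgr R0 x0 R1 x1 sg u κ) :=
  Stb_inter (stb_Ou hM hd hd0) (Stb_inter (stb_Ou hM hd hd0)
    (Stb_inter (stb_OuT (R := fun _ => R0) (Q' := fun _ => x0) hM hd hd0) (stb_OuT (R := fun _ => R1) (Q' := fun _ => x1) hM hd hd0)))

/-- The first scale `u + J` whose width exceeds `R w u`: `J ≤ k` as soon as `R ≤ 2 ^ k`. -/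
theorem exists_J {R : ℝ} {k : ℕ} (hR : R ≤ 2 ^ k) (u : ℕ) : ∃ J ≤ k, R * G.w u ≤ G.w (u + J) ∧ ∀ i < J, G.w (u + i) < R * G.w u := by
  classical
  have h1 : ∃ J : ℕ, R * G.w u ≤ G.w (u + J) := ⟨k, by
    have h2 := rJ_ge (G := G) k u
    have h3 := rJ_mul (G := G) k u
    have h4 := G.w_pos u
    nlinarith⟩
  refine ⟨Nat.find h1, ?_, Nat.find_spec h1, fun i hi => not_le.1 (Nat.find_min h1 hi)⟩
  refine Nat.find_le ?_
  have h2 := rJ_ge (G := G) k u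
  have h3 := rJ_mul (G := G) k u
  have h4 := G.w_pos u
  nlinarith

end

end Pool.Agent.W_7d29a1_C1.Ou37
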