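import Pool.Agent.W_7d29a1_C1.GeoJ37
import Pool.Agent.W_7d29a1_HS.CoreS

/-!
MP_7d29a1_pr, the attractor route, separation by moving the contact: THE GEOMETRY OF THE MODEL (`w u = wd μ s (T u)`, dyadic meshes).
(helper37)
-/

set_option autoImplicit false

namespace Pool.Agent.W_7d29a1_C1.G37

open MeasureTheory Finset
open Pool.Agent.W_7d29a1_F Pool.Agent.W_7d29a1_h4g Pool.Agent.W_7d29a1_H Pool.Agent.W_7d29a1_HS
open Pool.Agent.W_7d29a1_C1.H40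

noncomputable section

/-- The dyadic mesh. -/
def msh (w : ℝ) : ℕ := 2 ^ Nat.log 2 ⌊w⌋₊

theorem msh_pos (w : ℝ) : 0 < msh w := Nat.pow_pos (by norm_num)

theorem msh_dvd {w w' : ℝ} (h : w ≤ w') : msh w ∣ msh w' :=
  pow_dvd_pow _ (Nat.log_mono_right (Nat.floor_le_floor h))

theorem msh_le {w : ℝ} (h : 1 ≤ w) : (msh w : ℝ) ≤ w := by
  have h1 : ⌊w⌋₊ ≠ 0 := (Nat.floor_pos.2 h).ne'
  have h2 : msh w ≤ ⌊w⌋₊ := Nat.pow_log_le_self 2 h1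
  calc (msh w : ℝ) ≤ (⌊w⌋₊ : ℝ) := by exact_mod_cast h2
    _ ≤ w := Nat.floor_le (by linarith)

theorem lt_msh {w : ℝ} : w ≤ 2 * msh w := by
  have h2 : ⌊w⌋₊ < 2 ^ (Nat.log 2 ⌊w⌋₊ + 1) := Nat.lt_pow_succ_log_self (by norm_num) _
  have h3 : ⌊w⌋₊ + 1 ≤ 2 * msh w := by
    unfold msh
    rw [pow_succ] at h2
    omega
  calc w ≤ (⌊w⌋₊ : ℝ) + 1 := (Nat.lt_floor_add_one w).le
    _ ≤ 2 * msh w := by exact_mod_cast h3

/-- The widths of the scales behave. -/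
structure Wok (μ : Measure ℝ) (s : ℝ) (T0 K : ℕ) : Prop where
  hT : 1 ≤ T0
  hK : 8 ≤ K
  one : ∀ u, 1 ≤ wd μ s (Tk T0 K u)
  two : ∀ u, 2 * wd μ s (Tk T0 K u) ≤ wd μ s (Tk T0 K (u + 1))
  up : ∀ u, wd μ s (Tk T0 K (u + 1)) ≤ 2 * K * wd μ s (Tk T0 K u)

variable {μ : Measure ℝ} {s : ℝ}

/-- **The geometry of the model.** -/
def gmW {T0 K : ℕ} (h : Wok μ s T0 K) (M m0 m1 m2 : ℕ) (kw kn kb lam : ℝ) (hw : 0 ≤ kw) (hn : 0 ≤ kn) (hb : 1 ≤ kb)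
    (hl : kn + 2 * kb ≤ lam) (h1 : 1 ≤ m1) (h2 : 3 ≤ m2) : Gm where
  T0 := T0
  K := K
  M := M
  v := sl μ s
  g u := msh (wd μ s (Tk T0 K u))
  w u := wd μ s (Tk T0 K u)
  kw := kw
  kn := kn
  kb := kb
  lam := lam
  Cg := 2
  Cw := 2 * K
  m0 := m0
  m1 := m1
  m2 := m2
  hT := h.hT
  hK := h.hK
  g_pos u := msh_pos _
  g_dvd u := msh_dvd (by have h1 := h.two u; have h2 := h.one u; linarith)
  w_two u := h.two u
  w_up u := by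
    push_cast
    exact h.up u
  g_le u := msh_le (h.one u)
  w_le u := by
    push_cast
    exact lt_msh
  kn_nonneg := hn
  kb_ge := hb
  kw_nonneg := hw
  lam_ge := hl
  m1_ge := h1
  m2_ge := h2

theorem wok [IsProbabilityMeasure μ] {c C : ℝ} {n₀ : ℕ} (h : In μ s c C n₀) : ∃ K₀ : ℕ, ∀ K : ℕ, K₀ ≤ K → ∃ n₁ : ℕ, ∀ T0 : ℕ, n₁ ≤ T0 → Wok μ s T0 K := by
  obtain ⟨J, n₁, hJ⟩ := wd_grow h 4 (by norm_num)
  refine ⟨max 8 (2 ^ J), fun K hK => ⟨max 1 n₁, fun T0 hT => ?_⟩⟩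
  have hK8 : 8 ≤ K := (le_max_left _ _).trans hK
  have hKJ : 2 ^ J ≤ K := (le_max_right _ _).trans hK
  have hT1 : 1 ≤ T0 := (le_max_left _ _).trans hT
  have hTn : n₁ ≤ T0 := (le_max_right _ _).trans hT
  have hTk : ∀ u, T0 ≤ Tk T0 K u := fun u => Nat.le_mul_of_pos_right _ (Nat.pow_pos (by omega))
  have hs : ∀ u, Tk T0 K (u + 1) = K * Tk T0 K u := fun u => by unfold Tk; ring
  refine ⟨hT1, hK8, fun u => ?_, fun u => ?_, fun u => ?_⟩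
  · have h1 := wd_ge_one h (hT1.trans (hTk u))
    have h2 := one_le_EE (μ := μ) (s := s) (Tk T0 K u)
    linarith
  · have h1 := (hJ (Tk T0 K u) (hTn.trans (hTk u))).2
    have h2 : wd μ s (2 ^ J * Tk T0 K u) ≤ 2 * wd μ s (Tk T0 K (u + 1)) := by
      refine wd_le_two h ?_ ?_
      · exact Nat.mul_pos (Nat.pow_pos (by norm_num)) (hT1.trans (hTk u))
      · rw [hs]
        exact Nat.mul_le_mul_right _ hKJ
    linarith
  · have h0 : (0 : ℝ) < (Tk T0 K u : ℕ) := by exact_mod_cast hT1.trans (hTk u)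
    have h1 := wd_lower_one h (hT1.trans (hTk u)) (show Tk T0 K u ≤ Tk T0 K (u + 1) by
      rw [hs]; exact Nat.le_mul_of_pos_left _ (by omega))
    rw [hs] at h1 ⊢
    push_cast at h1
    refine le_of_mul_le_mul_left (h1.trans (le_of_eq ?_)) h0
    ring

end

end Pool.Agent.W_7d29a1_C1.G37
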