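import Pool.Agent.W_7d29a1_C1.SepN49
import Pool.Agent.W_7d29a1_C1.NumM17
import Pool.Agent.W_7d29a1_C1.GeoN37

/-!
Both halves (MP_7d29a1_pr), attractor route [C1], SEP: the inputs of the numbers (`Gr`, size of the box, number of scales) over the
model. (helper49)
-/

set_option autoImplicit false

namespace Pool.Agent.W_7d29a1_C1.N49

open Finset MeasureTheory
open Pool.Agent.W_7d29a1_F Pool.Agent.W_7d29a1_h4g Pool.Agent.W_7d29a1_H Pool.Agent.W_7d29a1_HS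
open Pool.Agent.W_7d29a1_C1.H60
open Pool.Agent.W_7d29a1_C1.H40 (Tk)
open Pool.Agent.W_7d29a1_C1.G37 (Gm)
open Pool.Agent.W_7d29a1_C1.SF98 (XS FS)
open scoped ENNReal

/-- The size of the box. -/
theorem card_XS {Γ : Cx} {G : Gm} {mt : ℕ} : Fintype.card (XS Γ G mt) ≤ Γ.N * (Γ.N + 1) := by
  rw [Fintype.card_coe]
  refine (card_le_card (filter_subset _ _)).trans (le_of_eq ?_)
  unfold Cx.rows
  have e : (1 + (Γ.N : ℤ) + 1 - 1).toNat = Γ.N + 1 := by omega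
  rw [card_product, Nat.card_Ico, Int.card_Icc, e, Nat.sub_zero]

theorem card_adm {μ : Measure ℝ} {s c δ κ : ℝ} {n : ℕ} {Γ : Cx} (h : Adm μ s c δ κ n Γ) (hc : c ≤ 1) (hn : 20 ≤ n) {G : Gm}
    {mt : ℕ} : Fintype.card (XS Γ G mt) ≤ n ^ 13 := by
  obtain ⟨N, L, h1, h2, h3, h4, h5, h6, -⟩ := h.hor
  have nr : (20 : ℝ) ≤ n := by exact_mod_cast hn
  have hN : N ≤ n ^ 2 := by
    have a1 : (N : ℝ) ≤ (n : ℝ) ^ (2 : ℕ) := by
      refine h2.trans ?_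
      rw [← Real.rpow_natCast]
      refine Real.rpow_le_rpow_of_exponent_le (by linarith) ?_
      push_cast
      linarith
    exact_mod_cast a1
  have hN3 : N ^ 3 ≤ n ^ 6 := by
    calc N ^ 3 ≤ (n ^ 2) ^ 3 := Nat.pow_le_pow_left hN 3
      _ = _ := by ring
  have hn2 : n ^ 2 ≤ n ^ 6 := Nat.pow_le_pow_right (by omega) (by norm_num)
  have h1n : 1 ≤ n ^ 6 := Nat.one_le_pow _ _ (by omega)
  have hG : Γ.N ≤ 4 * n ^ 6 := by omega
  refine card_XS.trans ?_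
  calc Γ.N * (Γ.N + 1) ≤ (4 * n ^ 6) * (4 * n ^ 6 + n ^ 6) := Nat.mul_le_mul hG (by omega)
    _ = 20 * n ^ 12 := by ring
    _ ≤ n * n ^ 12 := Nat.mul_le_mul_right _ hn
    _ = _ := by ring

/-- The energies of the model grow geometrically. -/
theorem model_Gr {μ : Measure ℝ} [IsProbabilityMeasure μ] {s c C : ℝ} {n₀ : ℕ} (h : In μ s c C n₀) :
    ∃ (K₁ n₁ : ℕ) (a Cg : ℝ), 0 < a ∧ 1 ≤ Cg ∧ ∀ K : ℕ, K₁ ≤ K → ∀ T0 : ℕ, n₁ ≤ T0 →
      Gr (fun u => EE μ s (Tk T0 K u)) ((K : ℝ) ^ a) Cg := by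
  obtain ⟨a, k, n₁, ha1, hE⟩ := grE17 h
  obtain ⟨K₁, hK₁⟩ := exists_nat_ge ((2 : ℝ) ^ (1 / a))
  refine ⟨max K₁ 1, n₁, a, 1 / k, hE.a0, by rw [le_div_iff₀ hE.k0, one_mul]; exact hE.k1, fun K hK T0 hT => ?_⟩
  refine Gr.of_GrE17 hE hT ((le_max_right _ _).trans hK) ?_
  have h1 : (2 : ℝ) ^ (1 / a) ≤ K := hK₁.trans (by exact_mod_cast (le_max_left _ _).trans hK)
  calc (2 : ℝ) = ((2 : ℝ) ^ (1 / a)) ^ a := by
        rw [← Real.rpow_mul (by norm_num), one_div_mul_cancel hE.a0.ne', Real.rpow_one]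
    _ ≤ (K : ℝ) ^ a := Real.rpow_le_rpow (by positivity) h1 hE.a0.le

/-- The energies of the polynomial scales are polynomial. -/
theorem model_E {μ : Measure ℝ} [IsProbabilityMeasure μ] {s c C : ℝ} {n₀ : ℕ} (h : In μ s c C n₀) {e : ℝ} (he : 0 < e) :
    ∃ e1 : ℝ, 0 < e1 ∧ ∃ n₁ : ℕ, ∀ n : ℕ, n₁ ≤ n → ∀ T : ℕ, (n : ℝ) ^ e ≤ T → (n : ℝ) ^ e1 ≤ EE μ s T := by
  obtain ⟨a, k, n₁, ha1, hE⟩ := grE17 h
  have hn1 : (0 : ℝ) < n₁ := by exact_mod_cast hE.n1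
  set c0 : ℝ := k * EE μ s n₁ / (n₁ : ℝ) ^ a with hc0
  have hc0' : 0 < c0 := div_pos (mul_pos hE.k0 (hE.pos _ le_rfl)) (Real.rpow_pos_of_pos hn1 _)
  have hea : 0 < e * a := mul_pos he hE.a0
  obtain ⟨N1, hN1⟩ := exists_log_le 1 (show 0 < e * a / 2 by positivity)
  -- n ^ e ≥ n₁ and n ^ (e a / 2) ≥ 1 / c0
  have t1 : Filter.Tendsto (fun n : ℕ => (n : ℝ) ^ e) Filter.atTop Filter.atTop :=
    (tendsto_rpow_atTop he).comp tendsto_natCast_atTop_atTop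
  have t2 : Filter.Tendsto (fun n : ℕ => (n : ℝ) ^ (e * a / 2)) Filter.atTop Filter.atTop :=
    (tendsto_rpow_atTop (by positivity)).comp tendsto_natCast_atTop_atTop
  obtain ⟨N2, hN2⟩ := Filter.eventually_atTop.1 (t1.eventually_ge_atTop (n₁ : ℝ))
  obtain ⟨N3, hN3⟩ := Filter.eventually_atTop.1 (t2.eventually_ge_atTop (1 / c0))
  refine ⟨e * a / 2, by positivity, max (max N2 N3) 1, fun n hn T hT => ?_⟩
  have a2 := hN2 n (by omega)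
  have a3 := hN3 n (by omega)
  have n0 : (0 : ℝ) < n := by exact_mod_cast (show 0 < n by omega)
  have hnT : n₁ ≤ T := by exact_mod_cast a2.trans hT
  have h1 := hE.lo n₁ T le_rfl hnT
  have h2 : ((T : ℝ) / n₁) ^ a = (T : ℝ) ^ a / (n₁ : ℝ) ^ a := Real.div_rpow (Nat.cast_nonneg _) hn1.le a
  have h3 : c0 * (T : ℝ) ^ a ≤ EE μ s T := by
    refine le_trans (le_of_eq ?_) h1
    rw [h2, hc0]; ring
  have h4 : (n : ℝ) ^ (e * a) ≤ (T : ℝ) ^ a := by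
    rw [Real.rpow_mul n0.le]
    exact Real.rpow_le_rpow (by positivity) hT hE.a0.le
  have h5 : (n : ℝ) ^ (e * a) = (n : ℝ) ^ (e * a / 2) * (n : ℝ) ^ (e * a / 2) := by
    rw [← Real.rpow_add n0]; ring_nf
  have h6 : 0 < (n : ℝ) ^ (e * a / 2) := Real.rpow_pos_of_pos n0 _
  rw [div_le_iff₀ hc0'] at a3
  calc (n : ℝ) ^ (e * a / 2) = 1 * (n : ℝ) ^ (e * a / 2) := (one_mul _).symm
    _ ≤ ((n : ℝ) ^ (e * a / 2) * c0) * (n : ℝ) ^ (e * a / 2) := mul_le_mul_of_nonneg_right a3 h6.le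
    _ = c0 * (n : ℝ) ^ (e * a) := by rw [h5]; ring
    _ ≤ c0 * (T : ℝ) ^ a := mul_le_mul_of_nonneg_left h4 hc0'.le
    _ ≤ _ := h3

/-- The number of scales. -/
theorem scales_le {K M n : ℕ} {p : ℝ} (hK : 3 ≤ K) (h : (K : ℝ) ^ M ≤ (n : ℝ) ^ p) (hn : 1 ≤ n) :
    (M : ℝ) ≤ p * Real.log n := by
  have n0 : (0 : ℝ) < n := by exact_mod_cast (show 0 < n by omega)
  have hK' : (3 : ℝ) ≤ K := by exact_mod_cast hK
  have h1 : Real.log ((K : ℝ) ^ M) ≤ Real.log ((n : ℝ) ^ p) := Real.log_le_log (by positivity) h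
  rw [Real.log_pow, Real.log_rpow n0] at h1
  have h2 : 1 ≤ Real.log K := by
    rw [← Real.log_exp 1]
    refine Real.log_le_log (Real.exp_pos _) ?_
    have := Real.exp_one_lt_d9
    linarith
  have h3 : (0 : ℝ) ≤ M := Nat.cast_nonneg _
  nlinarith

end Pool.Agent.W_7d29a1_C1.N49
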