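import Pool.Agent.W_7d29a1_C1.SepI98
import Pool.Agent.W_7d29a1_C1.SepM49

/-!
Both halves (MP_7d29a1_pr), attractor route [C1], SEP: ALL NUMBER AND GEOMETRY FIELDS of `InI98` (SepI98) for the geometry of the
model `gmW` (GeoN37): structure `GN49`, existence `exists_GN49` in the order of the constants. (helper49)
-/

set_option autoImplicit false

namespace Pool.Agent.W_7d29a1_C1.N49

open Finset MeasureTheory
open Pool.Agent.W_7d29a1_F Pool.Agent.W_7d29a1_h4g Pool.Agent.W_7d29a1_H Pool.Agent.W_7d29a1_HS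
open Pool.Agent.W_7d29a1_C1.H60
open Pool.Agent.W_7d29a1_C1.H40 (Tk)
open Pool.Agent.W_7d29a1_C1.G37 (Gm Wok gmW wok)
open Pool.Agent.W_7d29a1_C1.H49 (ex)
open Pool.Agent.W_7d29a1_C1.SF98 (XS FS p98)
open Pool.Agent.W_7d29a1_C1.FA25 (la)
open scoped ENNReal

noncomputable section

/-- **THE NUMBER AND GEOMETRY FIELDS** of `In25` (Sep25), with `dR u = Cr E u`, `b u = Cb E u`, `d u = Cd E u`, `smax u = E u / 16`,
`βS u = βc E u`. -/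
structure GN49 (Γ : Cx) (G : Gm) (mt lam : ℕ) (E : ℕ → ℝ) (κ Cg η Cb Cr Cd ε0 L βc aS θ c : ℝ) (A τ0 q r q0 m1 m3 C' : ℕ)
    (c1 : ℝ≥0∞) : Prop where
  v0 : 0 ≤ G.v
  v1 : G.v ≤ 1
  hm2 : la G + G.kw + G.kb + 2 ≤ 2 ^ (G.m2 - 1)
  hkb : G.kb ≤ 2 ^ q
  q_ge : 2 ≤ q
  q_le : q ≤ G.m2 + 1
  An_le : G.An ≤ C'
  qr_le : q + r ≤ m1
  num : Num98 Γ G mt (bN Cd E) (slN Cb E G.m2) (fun u => E u / 16) (thN η A E) (beN η A Cb E G.m2 L) (bN Cb E)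
    (stN (A + 1)) (ex (-L)) (ENNReal.ofReal θ) τ0 q (2 * (A + 1)) (ENNReal.ofReal c) c1 2 (2 ^ (2 * (A + 1))) (ex (-L))
  st_la : ∀ t i, τ0 < t → t + G.m0 ≤ i → i ≤ G.M → stN (A + 1) t i + lam ≤ i
  hq0 : 2 * m3 ≤ q0
  κ3_ne : ex (-L) ≠ 0
  m3_ge : 3 ≤ m3
  R_b : ∀ u, τ0 < u → 4 * (Cr * E u) ≤ bN Cb E u
  d_b : ∀ u, τ0 < u → 2 * bN Cd E u ≤ bN Cb E u
  sl_smax : ∀ v, slN Cb E G.m2 v ≤ E v / 16
  aS_ge : ∀ u, τ0 < u → G.w u / 2 + 1 ≤ aS * G.w u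
  βS_ge : ∀ u, τ0 < u → Real.exp (-(βc * E u)) ≤ 1 / 2
  gr : Gr E κ Cg
  ok : NumOK E η A Cb ε0 L G.m0 G.m2 τ0 G.M (Fintype.card (XS Γ G mt)) 2 (ENNReal.ofReal θ)

/-- The geometry and the growth of the energies. -/
theorem wok_gr {μ : Measure ℝ} [IsProbabilityMeasure μ] {s c C : ℝ} {n₀ : ℕ} (h : In μ s c C n₀) :
    ∃ a Cg : ℝ, 0 < a ∧ 1 ≤ Cg ∧ ∃ K₁ : ℕ, ∀ K : ℕ, K₁ ≤ K → 3 ≤ K ∧ ∃ n₁ : ℕ, ∀ T0 : ℕ, n₁ ≤ T0 →
      Wok μ s T0 K ∧ Gr (fun u => EE μ s (Tk T0 K u)) ((K : ℝ) ^ a) Cg := by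
  obtain ⟨K₀, hK₀⟩ := wok h
  obtain ⟨K₁, n₁, a, Cg, ha, hCg, hG⟩ := model_Gr h
  refine ⟨a, Cg, ha, hCg, max 3 (max K₀ K₁), fun K hK => ⟨by omega, ?_⟩⟩
  obtain ⟨n₂, hn₂⟩ := hK₀ K (by omega)
  exact ⟨max n₁ n₂, fun T0 hT => ⟨hn₂ T0 (by omega), hG K (by omega) T0 (by omega)⟩⟩

/-- The multiplicity of the targets in the model. -/
def AnW (K : ℕ) (kn kb : ℝ) : ℕ :=
  (2 * (4 * K ^ 3 + 1) + 1) * (2 * ((2 * ⌈kn⌉₊ + 2 * ⌈kb⌉₊ + 2) * (2 * K) * 2 + 1) + 1)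

theorem exists_pow_ge (x : ℝ) : ∃ m : ℕ, ∀ k : ℕ, m ≤ k → x ≤ 2 ^ k := by
  obtain ⟨m, hm⟩ := pow_unbounded_of_one_lt x (show (1 : ℝ) < 2 by norm_num)
  exact ⟨m, fun k hk => hm.le.trans (pow_le_pow_right₀ (by norm_num) hk)⟩

theorem w_ge_two (G : Gm) (h1 : 1 ≤ G.w 0) {u : ℕ} (hu : 1 ≤ u) : 2 ≤ G.w u := by
  have key : ∀ v : ℕ, 2 ≤ G.w (v + 1) := by
    intro v
    induction v with
    | zero => have := G.w_two 0; simp only [zero_add]; linarith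
    | succ n ih => have := G.w_two (n + 1); linarith
  obtain ⟨v, rfl⟩ : ∃ v, u = v + 1 := ⟨u - 1, by omega⟩
  exact key v

/-- **EXISTENCE, in the order of the constants.** -/
theorem exists_GN49 {μ : Measure ℝ} [IsProbabilityMeasure μ] {s c C : ℝ} {n₀ : ℕ} (h : In μ s c C n₀) {K : ℕ} (hK3 : 3 ≤ K)
    {κ Cg : ℝ} (hCg : 1 ≤ Cg)
    {kw kn kb aS βc Cb Cr Cd ε0 c' e p : ℝ} (hkw : 0 ≤ kw) (hkn : 0 ≤ kn) (hkb : 1 ≤ kb) (haS : 1 ≤ aS) (hβ : 0 < βc)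
    (hCr : 0 ≤ Cr) (hCd : 0 ≤ Cd) (hCbr : 4 * Cr ≤ Cb) (hCbd : 2 * Cd ≤ Cb) (hε : 0 < ε0) (hε1 : ε0 ≤ 1 / 16) (hc0 : 0 < c') (hc1 : c' ≤ 1) (he : 0 < e)
    (hp : 0 ≤ p) :
    ∃ q₁ : ℕ, ∀ q : ℕ, q₁ ≤ q → ∃ m2₁ : ℕ, ∀ m2 : ℕ, m2₁ ≤ m2 → 3 ≤ m2 ∧ ∀ η : ℝ, 0 < η → ∀ A : ℕ, 1 ≤ A → ∀ lam : ℕ, ∃ m0₁ : ℕ, ∀ m0 : ℕ, m0₁ ≤ m0 → ∃ n₁ : ℕ, ∀ n : ℕ, n₁ ≤ n →
    ∀ (r q0 m1 m3 : ℕ), q + r ≤ m1 → 2 * m3 ≤ q0 → 3 ≤ m3 →
    ∀ {ca δ' κ' : ℝ} {Γ : Cx}, Adm μ s ca δ' κ' n Γ → ca ≤ 1 → ∀ (T0 M mt g1 τ0 : ℕ), (n : ℝ) ^ e ≤ T0 → (K : ℝ) ^ M ≤ (n : ℝ) ^ p →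
    ∀ (hW : Wok μ s T0 K), Gr (fun u => EE μ s (Tk T0 K u)) κ Cg → ∀ (h1 : 1 ≤ g1) (h2 : 3 ≤ m2),
      GN49 Γ (gmW hW M m0 g1 m2 kw kn kb (kn + 2 * kb) hkw hkn hkb le_rfl h1 h2) mt lam (fun u => EE μ s (Tk T0 K u)) κ Cg η Cb Cr Cd
        ε0 ((p + (13 : ℕ) + 5) * Real.log n) βc aS (thq c' q) c' A τ0 q r q0 m1 m3 (AnW K kn kb) (c1q c' q) := by
  obtain ⟨qa, hqa⟩ := exists_pow_ge (128 * Cg * Cg * Cd)
  obtain ⟨qb, hqb⟩ := exists_pow_ge kb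
  have hCb : 0 ≤ Cb := by linarith
  refine ⟨max 2 (max qa qb), fun q hq => ?_⟩
  have hq0 : q ≠ 0 := by omega
  obtain ⟨hθ1, hθ2, hcp, hce⟩ := thq_spec hc0 hc1 hq0
  obtain ⟨ma, hma⟩ := exists_pow_ge (64 * Cg * Cg * Cb)
  obtain ⟨mb, hmb⟩ := exists_pow_ge (2 * (kn + 2 * kb) + kw + kb + 2)
  refine ⟨max (max 3 q) (max ma (mb + 1)), fun m2 hm2 => ⟨by omega, fun η hη A hA lam => ?_⟩⟩
  obtain ⟨e1, he1, nE, hE⟩ := model_E h he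
  obtain ⟨m00, n0, hnum⟩ := exists_num (A := A) hA (η := η) (Cb := Cb) (ε0 := ε0) (C := Cg) (CM := p) (e1 := e1) hη
    hCb hε hCg hp he1 13 2
  obtain ⟨mc, hmc⟩ := exists_log (A + 1 + lam)
  obtain ⟨nB, hnB⟩ := exists_log_le (Cg / βc) he1
  refine ⟨max m00 mc, fun m0 hm0 => ⟨max (max n0 nE) (max nB 20), fun n hn r q0 m1 m3 hqr hq2 hm3 ca δ' κ' Γ hΓ hca T0 M mt g1
    τ0 hT0 hKM hW hGr hg1 h32 => ?_⟩⟩
  have hn20 : 20 ≤ n := by omega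
  have hn1 : (1 : ℝ) ≤ n := by exact_mod_cast (show 1 ≤ n by omega)
  have hEu : ∀ u, (n : ℝ) ^ e1 ≤ EE μ s (Tk T0 K u) := fun u => hE n (by omega) _ (hT0.trans (by
    have : T0 ≤ Tk T0 K u := Nat.le_mul_of_pos_right _ (Nat.pow_pos (by omega))
    exact_mod_cast this))
  set G := gmW hW M m0 g1 m2 kw kn kb (kn + 2 * kb) hkw hkn hkb le_rfl hg1 h32 with hG
  have hNum := hnum n (by omega) m0 m2 τ0 M (Fintype.card (XS Γ G mt)) (fun u => EE μ s (Tk T0 K u)) κ (ENNReal.ofReal (thq c' q))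
    (by omega) hGr (scales_le hK3 hKM (by omega)) (card_adm hΓ hca hn20) (hEu τ0) (by
      rw [show (2 : ℝ≥0∞) = ENNReal.ofReal 2 by simp]
      exact ENNReal.ofReal_le_ofReal hθ2)
  have hsl := Pool.Agent.W_7d29a1_H.sl_mem h.em h.nd s
  refine
    { v0 := hsl.1.le
      v1 := hsl.2.le
      hm2 := ?_
      hkb := hqb q (by omega)
      q_ge := by omega
      q_le := by
        show q ≤ m2 + 1
        omega
      An_le := le_rfl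
      qr_le := hqr
      num := ?_
      st_la := ?_
      hq0 := hq2
      κ3_ne := H49.ex_ne_zero _
      m3_ge := hm3
      R_b := fun u _ => by
        have h5 := mul_le_mul_of_nonneg_right hCbr (hGr.pos u).le
        unfold bN
        rw [← mul_assoc]
        exact h5
      d_b := fun u _ => by
        have h5 := mul_le_mul_of_nonneg_right hCbd (hGr.pos u).le
        unfold bN
        rw [← mul_assoc]
        exact h5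
      sl_smax := fun v => ?_
      aS_ge := ?_
      βS_ge := ?_
      gr := hGr
      ok := hNum }
  · have := hmb (m2 - 1) (by omega)
    exact this
  · have := num98 (A := A) (C4 := 2) (η := η) (mt := mt) hGr (Cb := Cb) (Cd := Cd) hCb hCd hq0 (hqa q (by omega))
      (G := G) (hma m2 (by omega)) hθ1 hcp hce hε1 hNum
    exact_mod_cast this
  · intro t i _ h4 _
    have h5 := hmc (i - t) (by
      have h6 : t + m0 ≤ i := h4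
      omega)
    have h6 : t + m0 ≤ i := h4
    unfold stN
    have h7 : (A + 1) * (Nat.log 2 (i - t + 1) + 1) + lam ≤ (A + 1 + lam) * (Nat.log 2 (i - t + 1) + 1) := by
      nlinarith [Nat.zero_le (Nat.log 2 (i - t + 1))]
    omega
  · have a1 := hGr.sl_small hCb m2 (le_refl v)
    have a2 := hGr.sl_nonneg hCb m2 v
    have a3 : 64 * Cg * Cg * Cb ≤ 2 ^ m2 := hma m2 (by omega)
    have a4 := hGr.pos v
    rw [Nat.sub_self, Nat.add_zero] at a1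
    have a5 : (0 : ℝ) < 2 ^ m2 := by positivity
    show slN Cb (fun u => EE μ s (Tk T0 K u)) m2 v ≤ EE μ s (Tk T0 K v) / 16
    by_contra hcon
    push Not at hcon
    have a6 : 2 ^ m2 * (EE μ s (Tk T0 K v) / 16) < 2 ^ m2 * slN Cb (fun u => EE μ s (Tk T0 K u)) m2 v :=
      mul_lt_mul_of_pos_left hcon a5
    have a7 : 64 * Cg * Cg * Cb * (EE μ s (Tk T0 K v) / 16) ≤ 2 ^ m2 * (EE μ s (Tk T0 K v) / 16) :=
      mul_le_mul_of_nonneg_right a3 (by positivity)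
    have a8 : 0 ≤ Cg * Cg * Cb * EE μ s (Tk T0 K v) := by positivity
    have a9 : 64 * Cg * Cg * Cb * (EE μ s (Tk T0 K v) / 16) = 4 * (Cg * Cg * Cb * EE μ s (Tk T0 K v)) := by ring
    have a10 : 2 * Cg * Cb * Cg * EE μ s (Tk T0 K v) = 2 * (Cg * Cg * Cb * EE μ s (Tk T0 K v)) := by ring
    linarith
  · intro u hu
    have h4 : 2 ≤ G.w u := w_ge_two G (hW.one 0) (by omega)
    have h5 : G.w u ≤ aS * G.w u := le_mul_of_one_le_left (by linarith) haS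
    linarith
  · intro u _
    have h4 := hEu u
    have h5 := hnB n (by omega)
    have hl : 1 ≤ Real.log n := by
      rw [← Real.log_exp 1]
      refine Real.log_le_log (Real.exp_pos _) ?_
      have := Real.exp_one_lt_d9
      have h20 : (20 : ℝ) ≤ n := by exact_mod_cast hn20
      linarith
    have h6 : 1 ≤ βc * EE μ s (Tk T0 K u) := by
      have h7 : Cg / βc ≤ EE μ s (Tk T0 K u) := by
        calc Cg / βc ≤ Cg / βc * Real.log n := le_mul_of_one_le_right (by positivity) hl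
          _ ≤ _ := h5.trans h4
      rw [div_le_iff₀ hβ] at h7
      linarith
    have h8 : Real.exp (-(βc * EE μ s (Tk T0 K u))) ≤ Real.exp (-1) := Real.exp_le_exp.2 (by linarith)
    refine h8.trans ?_
    have := Real.exp_neg_one_lt_d9
    linarith

end

end Pool.Agent.W_7d29a1_C1.N49
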