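import Pool.Agent.W_7d29a1_C1.StS78
import Pool.Agent.W_7d29a1_C1.SepJ49
import Pool.Agent.W_7d29a1_HS.Tg

/-!
MP_7d29a1_pr, [C1] attractor route, SEP: THE St SLOT OF `In25` FOR THE GEOMETRY OF THE MODEL `gmW`, in the letters of `GN49` (helper78)

`dR u = Cr E u`, `d u = bN Cd E u`, threshold `(βc + 1/16) E u - sg`. `stN78` : fields `sSt`, `St_sub`, for all large `T0`.
-/

set_option autoImplicit false

namespace Pool.Agent.W_7d29a1_C1.Sy78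

open Finset MeasureTheory Filter Topology
open Pool.Agent.W_7d29a1_F hiding Bw G
open Pool.Agent.W_7d29a1_h4g Pool.Agent.W_7d29a1_HS
open Pool.Agent.W_7d29a1_H hiding ex gg
open Pool.Agent.W_7d29a1_C1.Basin76
open Pool.Agent.W_7d29a1_C1.H60
open Pool.Agent.W_7d29a1_C1.H40 (Tk)
open Pool.Agent.W_7d29a1_C1.G37 (Gm Wok gmW)
open Pool.Agent.W_7d29a1_C1.P25 (Stb)
open Pool.Agent.W_7d29a1_C1.N49

noncomputable section

variable {μ : Measure ℝ} {s c C : ℝ} {n₀ : ℕ}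

theorem num_St78 [IsProbabilityMeasure μ] (h : In μ s c C n₀) {Cr Cd : ℝ} (hC : Cr < Cd) : ∃ n₁ : ℕ, ∀ m : ℕ, n₁ ≤ m →
    12 ≤ wd μ s m ∧ 2 * (Cr * EE μ s m) + Real.log (1 + m) ≤ 2 * (Cd * EE μ s m) := by
  obtain ⟨n1, h1⟩ := eventually_atTop.1 ((wd_tendsto h).eventually_ge_atTop 12)
  obtain ⟨n2, h2⟩ := lgo h (δ := Cd - Cr) (by linarith)
  obtain ⟨n3, h3⟩ := eventually_atTop.1 (h.tE.eventually_ge_atTop (Real.log 2 / (Cd - Cr)))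
  refine ⟨max (max n1 n2) (max n3 1), fun m hm => ⟨h1 m (by omega), ?_⟩⟩
  have k1 : 1 ≤ m := by omega
  have hm0 : (1 : ℝ) ≤ m := by exact_mod_cast k1
  have g2 := h2 m (by omega)
  have g3 := h3 m (by omega)
  rw [div_le_iff₀ (by linarith)] at g3
  have g4 : Real.log (1 + m) ≤ Real.log 2 + Real.log m := by
    rw [← Real.log_mul (by norm_num) (by positivity)]
    exact Real.log_le_log (by positivity) (by linarith)
  nlinarith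

/-- **THE St SLOT OF `In25` AT `gmW`.** -/
theorem stN78 [IsProbabilityMeasure μ] (h : In μ s c C n₀) {Cr Cd : ℝ} (hCr : 0 ≤ Cr) (hC : Cr < Cd) : ∃ n₁ : ℕ, ∀ T0 : ℕ, n₁ ≤ T0 →
    ∀ {K : ℕ} (hW : Wok μ s T0 K) {kw kn kb aS bS βc Cb : ℝ} (hkw : 0 ≤ kw) (hkn : 0 ≤ kn) (hkb : 1 ≤ kb) {M m0 g1 m2 q : ℕ} (hg1 : 1 ≤ g1)
      (h32 : 3 ≤ m2), 5 / 2 ≤ aS → aS ≤ bS → bS + 5 / 2 ≤ 2 * kn → 4 * kw ≤ 2 ^ q → 0 ≤ Cb → ∀ (Γ : Cx) (mt τ0 : ℕ) (smax : ℕ → ℝ),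
      Stb Γ (gmW hW M m0 g1 m2 kw kn kb (kn + 2 * kb) hkw hkn hkb le_rfl hg1 h32) mt q τ0 (fun u => Cr * EE μ s (Tk T0 K u))
        (bN Cd (fun u => EE μ s (Tk T0 K u))) smax
        (fun sg u κ => St Γ (gmW hW M m0 g1 m2 kw kn kb (kn + 2 * kb) hkw hkn hkb le_rfl hg1 h32) aS bS
          ((βc + 1 / 16) * EE μ s (Tk T0 K u) - sg) u κ) ∧
      ∀ u, slN Cb (fun u => EE μ s (Tk T0 K u)) m2 u ≤ EE μ s (Tk T0 K u) / 16 → ∀ κ,
        St Γ (gmW hW M m0 g1 m2 kw kn kb (kn + 2 * kb) hkw hkn hkb le_rfl hg1 h32) aS bS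
          ((βc + 1 / 16) * EE μ s (Tk T0 K u) - slN Cb (fun u => EE μ s (Tk T0 K u)) m2 (u - 1)) u κ ⊆
        St Γ (gmW hW M m0 g1 m2 kw kn kb (kn + 2 * kb) hkw hkn hkb le_rfl hg1 h32) aS bS (βc * EE μ s (Tk T0 K u)) u κ := by
  obtain ⟨n₁, hn₁⟩ := num_St78 h hC
  refine ⟨n₁, fun T0 hT0 K hW kw kn kb aS bS βc Cb hkw hkn hkb M m0 g1 m2 q hg1 h32 ha hab hb hq hCb Γ mt τ0 smax => ⟨?_, fun u hu κ => ?_⟩⟩
  · have hK := hW.hK
    have hTk : ∀ u, T0 ≤ Tk T0 K u := fun u => Nat.le_mul_of_pos_right _ (Nat.pow_pos (by omega))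
    have hsl := Pool.Agent.W_7d29a1_H.sl_mem h.em h.nd s
    refine stb_St hsl.1.le hsl.2.le ha hab hb hq (fun v _ => (hn₁ _ (hT0.trans (hTk v))).1)
      (fun u _ => mul_nonneg hCr (EE_pos (μ := μ) (s := s) _).le) fun u _ => ?_
    have g1 := (hn₁ _ (hT0.trans (hTk u))).2
    unfold c78 bN
    exact g1
  · refine St_mono le_rfl ?_
    have hE : ∀ v, 0 ≤ bN Cb (fun u => EE μ s (Tk T0 K u)) v := fun v => mul_nonneg hCb (EE_pos (μ := μ) (s := s) _).le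
    have g1 : slN Cb (fun u => EE μ s (Tk T0 K u)) m2 (u - 1) ≤ slN Cb (fun u => EE μ s (Tk T0 K u)) m2 u := by
      unfold slN
      refine sum_le_sum_of_subset_of_nonneg (fun v hv => ?_) fun v _ _ => hE v
      have := mem_range.1 hv
      exact mem_range.2 (by omega)
    linarith

end

end Pool.Agent.W_7d29a1_C1.Sy78
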