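import Pool.Agent.W_7d29a1_C1.GeoF37

/-!
MP_7d29a1_pr, the attractor route, separation by moving the contact: THE RELATION OF THE MOVE WITH TWO INDICES (`i` = row distance,
`j ≥ i` = lateral distance, end of the stretch; helper2 81276, helper49 81521), geometric part, and its fields. (helper37)
-/

set_option autoImplicit false

namespace Pool.Agent.W_7d29a1_C1.G37

open MeasureTheory Finset
open Pool.Agent.W_7d29a1_F Pool.Agent.W_7d29a1_C1.S71 Pool.Agent.W_7d29a1_C1.H40 Pool.Agent.W_7d29a1_C1.H49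
open scoped ENNReal

noncomputable section

namespace Gm

variable (G : Gm)

/-- The geometric part of the relation: row distance of the scale `i`, lateral distance of the scale `j ≥ i`; at the top scale `M`
there is no upper bound. -/
def relj (i j : ℕ) (x ρ : ℕ × ℤ) : Prop :=
  i ≤ j ∧ j ≤ G.M ∧ (G.T i : ℤ) ≤ (x.1 : ℤ) - (ρ.1 : ℤ) ∧ (i < G.M → (x.1 : ℤ) - (ρ.1 : ℤ) ≤ 2 * (G.T (i + 1) : ℤ)) ∧
    (j < G.M → G.near j x ρ) ∧ (i < j → ¬ G.near (j - 1) x ρ)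

/-- **Every early site is in a relation, or it is earlier than the next distance.** -/
theorem relj_cases {t i : ℕ} (ht : t ≤ i) (hi : i ≤ G.M) {x ρ : ℕ × ℤ} (h : (ρ.1 : ℤ) < (x.1 : ℤ) - G.dk i (t - 1)) :
    (∃ j, G.relj i j x ρ) ∨ (i < G.M ∧ (ρ.1 : ℤ) < (x.1 : ℤ) - G.dk (i + 1) (t - 1)) := by
  classical
  have h1 := G.T_mono' (show t - 1 ≤ i by omega)
  have h2 : (G.T i : ℤ) ≤ (x.1 : ℤ) - (ρ.1 : ℤ) := by
    unfold dk at h
    linarith
  by_cases h3 : i < G.M → (x.1 : ℤ) - (ρ.1 : ℤ) ≤ 2 * (G.T (i + 1) : ℤ)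
  · left
    have hex : ∃ j, i ≤ j ∧ (j < G.M → G.near j x ρ) := ⟨G.M, hi, fun h => absurd h (lt_irrefl _)⟩
    refine ⟨Nat.find hex, (Nat.find_spec hex).1, Nat.find_min' hex ⟨hi, fun h => absurd h (lt_irrefl _)⟩, h2, h3,
      (Nat.find_spec hex).2, fun h4 h5 => ?_⟩
    have h6 := Nat.find_min hex (m := Nat.find hex - 1) (by omega)
    exact h6 ⟨by omega, fun _ => h5⟩
  · right
    rw [Classical.not_imp] at h3
    obtain ⟨h4, h5⟩ := h3
    refine ⟨h4, ?_⟩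
    have h7 := G.T_pos' (t - 1)
    unfold dk
    linarith

variable {G}

theorem relj.far {i j u : ℕ} {x ρ : ℕ × ℤ} (h : G.relj i j x ρ) (hiu : i ≤ u) (huj : u < j) :
    G.kn * G.w (u + 1) < |G.lat x - G.lat ρ| := by
  have h1 := h.2.2.2.2.2 (by omega)
  have h2 : ¬ |G.lat x - G.lat ρ| ≤ G.kn * G.w (j - 1 + 1) := h1
  rw [not_le] at h2
  refine lt_of_le_of_lt (mul_le_mul_of_nonneg_left (G.w_mono (by omega)) G.kn_nonneg) h2

theorem relj.lt_M {i j k : ℕ} {x ρ : ℕ × ℤ} (h : G.relj i j x ρ) (hk : j + G.m2 + G.m0 < k) (hkM : k ≤ G.M) :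
    i < G.M ∧ j < G.M := by
  have := h.1
  omega

/-- The rows of a move. -/
theorem relj.move_row {s i j : ℕ} {x ρ ρ' : ℕ × ℤ} (h : G.relj i j x ρ) (hi : i < G.M) (hs : s < i)
    (hn : G.Nb s (G.loc s ρ) ρ') : (x.1 : ℤ) - ρ'.1 ≤ 3 * G.T (i + 1) ∧ (ρ'.1 : ℤ) ≤ x.1 := by
  have h1 := h.2.2.1
  have h2 := h.2.2.2.1 hi
  have h3 := G.lt_rcc s ρ
  have h4 := G.lo_le s ρ
  have h5 := hn.1
  have h6 := hn.2.1
  have h7 := G.rcc_eq s (G.loc s ρ)
  have h8 := G.T_lt8 hs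
  have h9 := G.T_mono' (show s - 2 ≤ s by omega)
  have h10 := G.T_mono' (show i ≤ i + 1 by omega)
  have h11 := G.T_pos' s
  have h12 := G.T_pos' i
  constructor <;> linarith

/-- The columns of a move. -/
theorem relj.move_lat {s i j : ℕ} {x ρ ρ' : ℕ × ℤ} (h : G.relj i j x ρ) (hj : j < G.M) (hs : s < i)
    (hn : G.Nb s (G.loc s ρ) ρ') : |G.lat x - G.lat ρ'| ≤ (G.kn + 2 * G.kb) * G.w (j + 1) := by
  have h0 := h.1
  have h1 := h.2.2.2.2.1 hj
  have h2 := G.lat_ctr s ρ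
  have h3 := hn.2.2
  have h4 := G.g_le s
  have h5 : G.w s ≤ G.w (j + 1) := G.w_mono (by omega)
  have h6 := G.kb_ge
  have h7 := G.w_pos s
  have h8 : |G.lat x - G.lat ρ| ≤ G.kn * G.w (j + 1) := h1
  have h9 : |G.lat x - G.lat ρ'| ≤ |G.lat x - G.lat ρ| + |G.lat ρ - G.ctr s (G.loc s ρ)| +
      |G.lat ρ' - G.ctr s (G.loc s ρ)| := by
    have e : G.lat x - G.lat ρ' = (G.lat x - G.lat ρ) + (G.lat ρ - G.ctr s (G.loc s ρ)) -
        (G.lat ρ' - G.ctr s (G.loc s ρ)) := by ring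
    rw [e]
    exact (abs_sub _ _).trans (add_le_add (abs_add_le _ _) le_rfl)
  have h10 : G.kb * G.w s ≤ G.kb * G.w (j + 1) := mul_le_mul_of_nonneg_left h5 (by linarith)
  have h11 : G.w s ≤ G.kb * G.w s := le_mul_of_one_le_left h7.le h6
  have h12 : (G.kn + 2 * G.kb) * G.w (j + 1) = G.kn * G.w (j + 1) + G.kb * G.w (j + 1) + G.kb * G.w (j + 1) := by ring
  rw [h12]
  linarith

/-- **`mvrow`.** -/
theorem relj.mvrow {t s i j k : ℕ} {x ρ ρ' : ℕ × ℤ} (h : G.relj i j x ρ) (ht : t ≤ i) (hi : i < G.M) (hs : s < i)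
    (hn : G.Nb s (G.loc s ρ) ρ') : (x.1 : ℤ) - G.dk k (t - 1) ≤ (ρ'.1 : ℤ) - G.dk k (j + G.m2) := by
  have h0 := h.1
  have h1 := (h.move_row hi hs hn).1
  have h2 := G.T_mono' (show t - 1 ≤ i by omega)
  have h3 := G.T_lt8 (show i < i + 1 by omega)
  have h4 := G.T_lt8 (show i + 1 < j + G.m2 by have := G.m2_ge; omega)
  have h5 := G.T_pos' i
  unfold dk
  linarith

/-- **`mvfa`**: rows. -/
theorem relj.fr_sub {t s i j t' : ℕ} {x ρ ρ' : ℕ × ℤ} (h : G.relj i j x ρ) (ht : t ≤ i) (hi : i < G.M) (hs : s < i)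
    (hn : G.Nb s (G.loc s ρ) ρ') : G.fr t' (t - 1) x ⊆ G.fr t' (j + G.m2) ρ' := by
  have hij := h.1
  obtain ⟨h0, h1⟩ := h.move_row hi hs hn
  have h2 := G.T_mono' (show t - 1 ≤ i by omega)
  have h3 := G.T_lt8 (show i < i + 1 by omega)
  have h4 := G.T_lt8 (show i + 1 < j + G.m2 by have := G.m2_ge; omega)
  have h5 := G.T_pos' i
  intro r h
  unfold fr at h ⊢
  rw [mem_filter, mem_Icc] at h ⊢
  refine ⟨⟨?_, ?_⟩, h.2⟩ <;> linarith [h.1.1, h.1.2]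

/-- **`mvfa`**: columns. -/
theorem relj.fs_sub {t s i j k : ℕ} {x ρ ρ' : ℕ × ℤ} (h : G.relj i j x ρ) (ht : t ≤ i) (hj : j < G.M) (hs : s < i)
    (hn : G.Nb s (G.loc s ρ) ρ') (r : ℤ) : G.fs k (t - 1) x r ⊆ G.fs k (j + G.m2) ρ' r := by
  have hij := h.1
  have h1 := h.move_lat hj hs hn
  have h2 : G.w (t - 1) ≤ G.w (j + 1) := G.w_mono (by omega)
  have h3 : 2 * G.w (j + 1) ≤ G.w (j + G.m2) :=
    (G.w_two (j + 1)).trans (G.w_mono (by have := G.m2_ge; omega))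
  have h4 := G.w_pos (j + 1)
  have h5 := G.kn_nonneg
  have h6 := G.kb_ge
  have h7 := G.lam_ge
  have h8 : (G.kn + 2 * G.kb) * G.w (j + 1) ≤ G.lam * (G.w (j + G.m2) - G.w (t - 1)) :=
    mul_le_mul h7 (by linarith) h4.le (by linarith)
  intro y hy
  have h9 : G.W k (t - 1) ≤ |((y : ℝ) - G.v * (r : ℝ)) - G.lat x| := hy
  show G.W k (j + G.m2) ≤ |((y : ℝ) - G.v * (r : ℝ)) - G.lat ρ'|
  have h10 : |((y : ℝ) - G.v * (r : ℝ)) - G.lat x| ≤ |((y : ℝ) - G.v * (r : ℝ)) - G.lat ρ'| + |G.lat x - G.lat ρ'| := by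
    have e : ((y : ℝ) - G.v * (r : ℝ)) - G.lat x = (((y : ℝ) - G.v * (r : ℝ)) - G.lat ρ') - (G.lat x - G.lat ρ') := by ring
    rw [e]
    exact abs_sub _ _
  unfold W at h9 ⊢
  nlinarith

variable (G)

/-! ### The chains: counts -/

section Counts

variable {F : Finset (ℕ × ℤ)}

theorem T_cube (u : ℕ) : G.T (u + 1) ≤ G.K ^ 3 * G.T (u - 2) := by
  rw [G.T_succ_eq]
  calc G.K * G.T u ≤ G.K * (G.K ^ 2 * G.T (u - 2)) := Nat.mul_le_mul_left _ (G.T_le_sq u)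
    _ = _ := by ring

/-- **Local count**: the sites within `4 T (i+1)` rows and `(2 kn + 2 kb + 2) w (i+1)` columns. -/
theorem near_count {i : ℕ} {c c' : ℕ × ℤ} (h1 : |(c.1 : ℤ) - c'.1| ≤ 4 * G.T (i + 1))
    (h2 : |G.lat c - G.lat c'| ≤ (2 * G.kn + 2 * G.kb + 2) * G.w (i + 1)) :
    G.loc i c ∈ bx (G.loc i c') (4 * G.K ^ 3 + 1) (G.Bn + 1) := by
  refine G.loc_near (A := 4 * G.K ^ 3) (B := G.Bn) (h1.trans ?_) (G.lat_le h2)
  have h3 : (G.T (i + 1) : ℤ) ≤ (G.K : ℤ) ^ 3 * G.T (i - 2) := by exact_mod_cast G.T_cube i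
  push_cast
  linarith

/-- **`top`.** -/
def Ntop (F : Finset (ℕ × ℤ)) : ℕ := (F.image (G.loc G.M)).card

/-- **`ref`**: the subcells of a cell. -/
theorem ref_count (u : ℕ) (κ : ℤ × ℤ) : ∃ A : Finset (ℤ × ℤ), A.card ≤ G.An ∧
    ∀ y : {c // c ∈ F}, G.loc (u + 1) y.1 = κ → G.loc u y.1 ∈ A := by
  classical
  by_cases hex : ∃ y : {c // c ∈ F}, G.loc (u + 1) y.1 = κ
  · obtain ⟨y, hy⟩ := hex
    refine ⟨bx (G.loc u y.1) (4 * G.K ^ 3 + 1) (G.Bn + 1), (card_bx _ _ _).le, fun z hz => G.near_count ?_ ?_⟩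
    · refine (G.cell_rows (hz.trans hy.symm)).trans ?_
      have h1 := G.T_mono' (show u + 1 - 2 ≤ u + 1 by omega)
      have h2 := G.T_pos' (u + 1)
      linarith
    · refine (G.cell_lat (hz.trans hy.symm)).trans ((G.g_le (u + 1)).trans ?_)
      refine le_mul_of_one_le_left (G.w_pos _).le ?_
      have := G.kn_nonneg
      have := G.kb_ge
      linarith
  · exact ⟨∅, Nat.zero_le _, fun y hy => absurd ⟨y, hy⟩ hex⟩

/-- **`dri`**: the cells of the target sites. -/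
theorem dri_count (s : ℕ) (κ : ℤ × ℤ) : ∃ A : Finset (ℤ × ℤ), A.card ≤ G.An ∧
    ∀ p q : {c // c ∈ F}, G.loc s p.1 = κ → (p = q ∨ q ∈ G.nb F s (G.cel F s p)) → G.loc s q.1 ∈ A := by
  classical
  by_cases hex : ∃ y : {c // c ∈ F}, G.loc s y.1 = κ
  · obtain ⟨y, hy⟩ := hex
    have hkn := G.kn_nonneg
    have hkb := G.kb_ge
    have hw := G.w_mono (show s ≤ s + 1 by omega)
    have hw0 := G.w_pos s
    refine ⟨bx (G.loc s y.1) (4 * G.K ^ 3 + 1) (G.Bn + 1), (card_bx _ _ _).le, fun p q hp hq => ?_⟩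
    rcases hq with rfl | hq
    · rw [hp, ← hy]
      refine G.near_count (by simp) ?_
      rw [sub_self, abs_zero]
      have := G.w_pos (s + 1)
      positivity
    · have hq' : G.Nb s (G.loc s y.1) q.1 := by
        have := (G.mem_nb).1 hq
        rw [G.cel_val, hp, ← hy] at this
        exact this
      obtain ⟨h1, h2⟩ := G.nb_near (y := y.1) rfl hq'
      refine G.near_count (h1.trans ?_) (h2.trans ?_)
      · have h3 := G.T_lt8 (show s < s + 1 by omega)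
        have h4 := G.T_pos' s
        linarith
      · refine (mul_le_mul_of_nonneg_left hw (by linarith)).trans (mul_le_mul_of_nonneg_right ?_ (G.w_pos _).le)
        linarith
  · exact ⟨∅, Nat.zero_le _, fun p q hp _ => absurd ⟨p, hp⟩ hex⟩

end Counts

end Gm

end

end Pool.Agent.W_7d29a1_C1.G37
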