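import Pool.Agent.W_7d29a1_C1.Ctx60
import Pool.Agent.W_7d29a1_C1.GeoJ37
import Pool.Agent.W_7d29a1_HS.Scale

/-!
Both halves (MP_7d29a1_pr), attractor route [C1], SEP: THE TILT OF AN ADMISSIBLE CONTEXT IS SMALL AT ALL SCALES UP TO `n ^ (1 / 32)`.
`|h| ≤ n ^ (-1/9)` because the unit is at least `n ^ (1 / 9)`. (helper57)
-/

set_option autoImplicit false

namespace Pool.Agent.W_7d29a1_C1.Tl57

open MeasureTheory Filter Topology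
open Pool.Agent.W_7d29a1_F Pool.Agent.W_7d29a1_h4g Pool.Agent.W_7d29a1_H Pool.Agent.W_7d29a1_HS
open Pool.Agent.W_7d29a1_C1.H60
open Pool.Agent.W_7d29a1_C1.H40 (Tk)

variable {μ : Measure ℝ} {s : ℝ} [IsProbabilityMeasure μ] {c C : ℝ} {n₀ : ℕ}

omit [IsProbabilityMeasure μ] in
/-- The tilt. -/
theorem h_le57 {n : ℕ} (hn : 1 ≤ n) (hE : (n : ℝ) ^ (1 / 9 : ℝ) ≤ EE μ s n) {ca δ' κ' : ℝ} {Γ : Cx} (hδ : 0 ≤ δ')
    (h : Adm μ s ca δ' κ' n Γ) : |Γ.h| ≤ (n : ℝ) ^ (-(1 / 9 : ℝ)) := by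
  obtain ⟨N, L, -, -, -, -, -, -, k1, -⟩ := h.hor
  have n1 : (1 : ℝ) ≤ n := by exact_mod_cast hn
  have n0 : (0 : ℝ) < n := by linarith
  have k2 : (n : ℝ) ^ (-(2 * δ')) ≤ 1 := Real.rpow_le_one_of_one_le_of_nonpos n1 (by linarith)
  have k3 : |Γ.h| * (n : ℝ) ^ (1 / 9 : ℝ) ≤ 1 := (mul_le_mul_of_nonneg_left hE (abs_nonneg _)).trans (k1.trans k2)
  rw [Real.rpow_neg n0.le, inv_eq_one_div, le_div_iff₀ (Real.rpow_pos_of_pos n0 _)]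
  exact k3

/-- The width is at most linear. -/
theorem wd_lin57 (h : In μ s c C n₀) (T : ℕ) : wd μ s T ≤ 2 * wd μ s 1 * T := by
  rcases Nat.eq_zero_or_pos T with h0 | h0
  · subst h0
    unfold wd
    simp
  · have h1 := wd_lower_one h (le_refl 1) h0
    push_cast at h1
    linarith

/-- **THE TILT IS SMALL** at all scales up to `n ^ (1 / 32)`. -/
theorem tilt57 (h : In μ s c C n₀) (hE9 : ∀ᶠ n : ℕ in atTop, (n : ℝ) ^ (1 / 9 : ℝ) ≤ EE μ s n) {ε₀ : ℝ} (hε : 0 < ε₀) :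
    ∃ n₁ : ℕ, ∀ n : ℕ, n₁ ≤ n → ∀ {ca δ' κ' : ℝ} {Γ : Cx}, 0 ≤ δ' → Adm μ s ca δ' κ' n Γ →
      |Γ.h| ≤ (n : ℝ) ^ (-(1 / 9 : ℝ)) ∧ |Γ.h| ≤ ε₀ ∧ ∀ T : ℕ, (T : ℝ) ≤ (n : ℝ) ^ (1 / 32 : ℝ) →
        |Γ.h| * wd μ s T ≤ ε₀ * EE μ s T ∧ |Γ.h| * ((T : ℝ) ^ 3 * (1 + Real.log n)) ≤ ε₀ := by
  obtain ⟨W, hW⟩ : ∃ W : ℝ, W = 2 * wd μ s 1 := ⟨_, rfl⟩
  have hW0 : 0 ≤ W := by
    have h1 := wd_ge_one h (le_refl 1)
    have h2 := one_le_EE (μ := μ) (s := s) 1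
    rw [hW]; linarith
  have ev : ∀ {y : ℝ}, 0 < y → ∀ M : ℝ, ∀ᶠ n : ℕ in atTop, M ≤ (n : ℝ) ^ y := fun hy M =>
    ((tendsto_rpow_atTop hy).comp tendsto_natCast_atTop_atTop).eventually_ge_atTop M
  have hlog : ∀ᶠ n : ℕ in atTop, Real.log n ≤ (n : ℝ) ^ (1 / 288 : ℝ) := by
    have h1 := (isLittleO_log_rpow_atTop (show (0 : ℝ) < 1 / 288 by norm_num)).bound (show (0 : ℝ) < 1 by norm_num)
    filter_upwards [tendsto_natCast_atTop_atTop.eventually h1, eventually_ge_atTop 1] with n hn hn1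
    have hn0 : (1 : ℝ) ≤ n := by exact_mod_cast hn1
    rw [Real.norm_of_nonneg (Real.log_nonneg hn0), Real.norm_of_nonneg (by positivity), one_mul] at hn
    exact hn
  obtain ⟨n₁, hn₁⟩ := eventually_atTop.1 ((((hE9.and (ev (show (0 : ℝ) < 1 / 288 by norm_num) (2 / ε₀ + W / ε₀ + 1))).and hlog).and
    (eventually_ge_atTop 1)))
  refine ⟨n₁, fun n hn {ca δ' κ' Γ} hδ hA => ?_⟩
  obtain ⟨⟨⟨e9, e1⟩, e2⟩, e3⟩ := hn₁ n hn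
  have n1 : (1 : ℝ) ≤ n := by exact_mod_cast e3
  have n0 : (0 : ℝ) < n := by linarith
  have hh := h_le57 e3 e9 hδ hA
  have habs := abs_nonneg Γ.h
  -- `X = n ^ (1/288)`, so `n ^ (1/9) = X ^ 32`, `n ^ (1/32) = X ^ 9`
  obtain ⟨X, hX⟩ : ∃ X : ℝ, X = (n : ℝ) ^ (1 / 288 : ℝ) := ⟨_, rfl⟩
  have X0 : 0 < X := by rw [hX]; exact Real.rpow_pos_of_pos n0 _
  have p32 : (n : ℝ) ^ (1 / 9 : ℝ) = X ^ 32 := by
    rw [hX, ← Real.rpow_natCast, ← Real.rpow_mul n0.le]; norm_num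
  have p9 : (n : ℝ) ^ (1 / 32 : ℝ) = X ^ 9 := by
    rw [hX, ← Real.rpow_natCast, ← Real.rpow_mul n0.le]; norm_num
  rw [← hX] at e1 e2
  have q1 : 0 ≤ 2 / ε₀ := by positivity
  have q2 : 0 ≤ W / ε₀ := by positivity
  have X1 : 1 ≤ X := by linarith
  have hh' : |Γ.h| * X ^ 32 ≤ 1 := by
    rw [← p32]
    calc |Γ.h| * (n : ℝ) ^ (1 / 9 : ℝ) ≤ (n : ℝ) ^ (-(1 / 9 : ℝ)) * (n : ℝ) ^ (1 / 9 : ℝ) :=
          mul_le_mul_of_nonneg_right hh (by positivity)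
      _ = 1 := by rw [← Real.rpow_add n0]; norm_num
  have two : 2 ≤ ε₀ * X := by
    have h1 : 2 / ε₀ ≤ X := by linarith
    rwa [div_le_iff₀ hε, mul_comm] at h1
  have wX : W ≤ ε₀ * X := by
    have h1 : W / ε₀ ≤ X := by linarith
    rwa [div_le_iff₀ hε, mul_comm] at h1
  have hX29 : ∀ k : ℕ, k ≤ 32 → |Γ.h| * X ^ k ≤ 1 := fun k hk =>
    (mul_le_mul_of_nonneg_left (pow_le_pow_right₀ X1 hk) habs).trans hh'
  refine ⟨hh, ?_, fun T hT => ?_⟩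
  · have h1 := hX29 1 (by norm_num)
    rw [pow_one] at h1
    have h2 : |Γ.h| * 2 ≤ |Γ.h| * (ε₀ * X) := mul_le_mul_of_nonneg_left two habs
    nlinarith
  · rw [p9] at hT
    have T0 : (0 : ℝ) ≤ T := Nat.cast_nonneg T
    constructor
    · have h1 := wd_lin57 h T
      rw [← hW] at h1
      have h2 := one_le_EE (μ := μ) (s := s) T
      have h3 : W * T ≤ (ε₀ * X) * X ^ 9 := mul_le_mul wX hT T0 (by positivity)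
      have h4 := hX29 10 (by norm_num)
      calc |Γ.h| * wd μ s T ≤ |Γ.h| * ((ε₀ * X) * X ^ 9) := mul_le_mul_of_nonneg_left (h1.trans h3) habs
        _ = ε₀ * (|Γ.h| * X ^ 10) := by ring
        _ ≤ ε₀ * 1 := mul_le_mul_of_nonneg_left h4 hε.le
        _ ≤ ε₀ * EE μ s T := mul_le_mul_of_nonneg_left h2 hε.le
    · have h1 : (T : ℝ) ^ 3 ≤ (X ^ 9) ^ 3 := pow_le_pow_left₀ T0 hT 3
      have l0 : 0 ≤ Real.log n := Real.log_nonneg n1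
      have h2 : 1 + Real.log n ≤ (ε₀ * X) * X := by
        have h3 : 1 + Real.log n ≤ 2 * X := by linarith
        exact h3.trans (mul_le_mul_of_nonneg_right two X0.le)
      have h3 : (T : ℝ) ^ 3 * (1 + Real.log n) ≤ (X ^ 9) ^ 3 * ((ε₀ * X) * X) :=
        mul_le_mul h1 h2 (by linarith) (by positivity)
      have h4 := hX29 29 (by norm_num)
      calc |Γ.h| * ((T : ℝ) ^ 3 * (1 + Real.log n)) ≤ |Γ.h| * ((X ^ 9) ^ 3 * ((ε₀ * X) * X)) := mul_le_mul_of_nonneg_left h3 habs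
        _ = ε₀ * (|Γ.h| * X ^ 29) := by ring
        _ ≤ ε₀ * 1 := mul_le_mul_of_nonneg_left h4 hε.le
        _ = ε₀ := mul_one _

/-- **THE TILT IS SMALL** at all scales of the separation. -/
theorem tiltG57 (h : In μ s c C n₀) (hE9 : ∀ᶠ n : ℕ in atTop, (n : ℝ) ^ (1 / 9 : ℝ) ≤ EE μ s n) {ε₀ : ℝ} (hε : 0 < ε₀) :
    ∃ n₁ : ℕ, ∀ n : ℕ, n₁ ≤ n → ∀ {ca δ' κ' : ℝ} {Γ : Cx}, 0 ≤ δ' → Adm μ s ca δ' κ' n Γ → ∀ {T0 K mt : ℕ}, 1 ≤ K →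
      4 * (T0 : ℝ) * (K : ℝ) ^ mt ≤ (n : ℝ) ^ (1 / 32 : ℝ) → ∀ u, u ≤ mt →
        |Γ.h| * wd μ s (Tk T0 K u) ≤ ε₀ * EE μ s (Tk T0 K u) ∧
          |Γ.h| * ((Tk T0 K u : ℝ) ^ 3 * (1 + Real.log n)) ≤ ε₀ ∧ 4 * (Tk T0 K u : ℝ) ≤ (n : ℝ) ^ (1 / 32 : ℝ) := by
  obtain ⟨n₁, hn₁⟩ := tilt57 h hE9 hε
  refine ⟨n₁, fun n hn {ca δ' κ' Γ} hδ hA {T0 K mt} hK ht u hu => ?_⟩
  have hK' : (1 : ℝ) ≤ K := by exact_mod_cast hK
  have h0 : (0 : ℝ) ≤ T0 := Nat.cast_nonneg T0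
  have h1 : 4 * (Tk T0 K u : ℝ) ≤ (n : ℝ) ^ (1 / 32 : ℝ) := by
    refine le_trans ?_ ht
    unfold Tk
    push_cast
    have h2 : (K : ℝ) ^ u ≤ (K : ℝ) ^ mt := pow_le_pow_right₀ hK' hu
    have h3 := mul_le_mul_of_nonneg_left h2 (show 0 ≤ 4 * (T0 : ℝ) by positivity)
    linarith
  have h2 : (0 : ℝ) ≤ (Tk T0 K u : ℝ) := Nat.cast_nonneg _
  have h3 := (hn₁ n hn hδ hA).2.2 (Tk T0 K u) (by linarith)
  exact ⟨h3.1, h3.2, h1⟩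

end Pool.Agent.W_7d29a1_C1.Tl57
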