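import Pool.Agent.W_7d29a1_C1.SepQ49
import Pool.Agent.W_7d29a1_C1.StN78
import Pool.Agent.W_7d29a1_C1.OuP37
import Pool.Agent.W_7d29a1_C1.ExS53
import Pool.Agent.W_7d29a1_C1.Tilt57

/-!
Both halves (MP_7d29a1_pr), attractor route [C1], SEP: THE SLOTS `Ou`, `St`, `Fw` IN THE FORM `Evn` of SepQ49, and the tilt. (helper57)

* `evn_thr` : a property which holds for `q, m2 ≥ q₀`, `T0, n ≥ n₁`;
* `evn_tilt` : the tilt is small at all scales (Tilt57);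
* `evn_stb` : a family whose `Stb` needs only `dR ≤ d`; `evn_OuF` (helper37's set of four factors), `Ou5`, `evn_Ou5` (five factors, row 694);
* `evn_St` : `sSt`, `St_sub` (helper78's `stN78`); `evn_Fw` : `sFw` (helper53's `stb_Fw`).
-/

set_option autoImplicit false

namespace Pool.Agent.W_7d29a1_C1.WO57

open Finset MeasureTheory
open Pool.Agent.W_7d29a1_F hiding Bw G
open Pool.Agent.W_7d29a1_h4g Pool.Agent.W_7d29a1_HS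
open Pool.Agent.W_7d29a1_H hiding ex gg
open Pool.Agent.W_7d29a1_C1.H60
open Pool.Agent.W_7d29a1_C1.H40 (Tk)
open Pool.Agent.W_7d29a1_C1.G37 (Gm Wok gmW)
open Pool.Agent.W_7d29a1_C1.P25 (Stb)
open Pool.Agent.W_7d29a1_C1.N49
open Pool.Agent.W_7d29a1_C1.Q49
open scoped ENNReal

noncomputable section

variable {P : Pre} {D : Dat} {μ : Measure ℝ} {s : ℝ} {φ : Phi}

/-- **A PROPERTY WHICH HOLDS FROM A THRESHOLD**: `q, m2 ≥ q₀` and `T0, n ≥ n₁`. -/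
theorem evn_thr {q₀ n₁ : ℕ} (h : ∀ q m2 η A lam m0 g1 e0 c₂ δ κ n Γ T0 M mt τ0 (hc : Ct P D μ s e0 c₂ δ κ n Γ T0 M mt m2 g1)
    (hW : Wok μ s T0 D.K), q₀ ≤ q → q₀ ≤ m2 → n₁ ≤ T0 → n₁ ≤ n → 0 < η → 1 ≤ A → 0 < e0 → 0 < c₂ → c₂ ≤ 1 → 0 < δ → δ ≤ c₂ / 16 →
    0 < κ → Gr (fun u => EE μ s (Tk T0 D.K u)) D.κ D.Cg →
    GP P D Γ (P.G hW M m0 g1 m2 hc.h1 hc.h2) mt (fun u => EE μ s (Tk T0 D.K u)) q η A lam n τ0 →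
    φ q η A lam n Γ (P.G hW M m0 g1 m2 hc.h1 hc.h2) mt τ0 (fun u => EE μ s (Tk T0 D.K u))) : Evn P D μ s φ := by
  refine ⟨q₀, fun q hq => ⟨q₀, fun m2 hm2 η hη A hA => ⟨0, fun lam _ => ⟨0, fun m0 _ g1 _ e0 he0 => ?_⟩⟩⟩⟩
  obtain ⟨N, hN⟩ := Filter.eventually_atTop.1
    (((tendsto_rpow_atTop he0).comp tendsto_natCast_atTop_atTop).eventually_ge_atTop (n₁ : ℝ))
  refine EvA.of_ev ⟨max N n₁, fun n hn c₂ δ κ h1 h2 h3 h4 h5 Γ T0 M mt τ0 hc hW hg hG => ?_⟩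
  have h6 : (n₁ : ℝ) ≤ T0 := (hN n (le_trans (le_max_left _ _) hn)).trans hc.T0_ge
  exact h q m2 η A lam m0 g1 e0 c₂ δ κ n Γ T0 M mt τ0 hc hW hq hm2 (by exact_mod_cast h6) (le_trans (le_max_right _ _) hn) hη hA he0
    h1 h2 h3 h4 h5 hg hG

/-- **THE TILT**, at all scales `u ≤ mt`. -/
theorem evn_tilt [IsProbabilityMeasure μ] {c C : ℝ} {n₀ : ℕ} (hI : In μ s c C n₀)
    (hE9 : ∀ᶠ n : ℕ in Filter.atTop, (n : ℝ) ^ (1 / 9 : ℝ) ≤ EE μ s n) {ε₀ : ℝ} (hε : 0 < ε₀) :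
    Evn P D μ s fun _ _ _ _ n Γ G mt _ E => ∀ u, u ≤ mt → |Γ.h| * G.w u ≤ ε₀ * E u ∧
      |Γ.h| * ((G.T u : ℝ) ^ 3 * (1 + Real.log n)) ≤ ε₀ ∧ 4 * (G.T u : ℝ) ≤ (n : ℝ) ^ (1 / 32 : ℝ) := by
  obtain ⟨n₁, hn₁⟩ := Tl57.tiltG57 hI hE9 hε
  refine evn_thr (q₀ := 0) (n₁ := n₁) fun q m2 η A lam m0 g1 e0 c₂ δ κ n Γ T0 M mt τ0 hc hW _ _ _ hn _ _ _ _ _ hδ _ _ _ _ u hu => ?_
  have hK : 1 ≤ D.K := by have := D.hK; omega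
  have ht : 4 * (T0 : ℝ) * (D.K : ℝ) ^ mt ≤ (n : ℝ) ^ (1 / 32 : ℝ) := by rw [mul_assoc]; exact hc.top
  exact hn₁ n hn hδ.le hc.adm hK ht u hu

/-- **A FAMILY WHOSE `Stb` NEEDS ONLY `dR ≤ d`.** -/
theorem evn_stb {F : Cx → Gm → (ℕ → ℝ) → ℝ → ℕ → ℤ × ℤ → Set Env} (hCd : P.Cr ≤ P.Cd)
    (h : ∀ (Γ : Cx) (G : Gm) (E : ℕ → ℝ) (mt q τ0 : ℕ) (dR d smax : ℕ → ℝ), G.M ≤ mt → (∀ u, dR u ≤ d u) → (∀ u, 0 ≤ d u) →
      Stb Γ G mt q τ0 dR d smax (F Γ G E)) :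
    Evn P D μ s fun q _ _ _ _ Γ G mt τ0 E =>
      Stb Γ G mt q τ0 (fun u => P.Cr * E u) (bN P.Cd E) (fun u => E u / 16) (F Γ G E) := by
  refine Evn.of_all fun q m2 η A lam m0 g1 e0 c₂ δ κ n Γ T0 M mt τ0 hc hW _ _ _ _ _ _ _ _ hg hG => ?_
  refine h _ _ _ _ _ _ _ _ _ ?_ (fun u => ?_) fun u => ?_
  · have := hc.mt_ge
    show M ≤ mt
    omega
  · exact mul_le_mul_of_nonneg_right hCd (hg.pos u).le
  · exact mul_nonneg P.hCd (hg.pos u).le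

/-- The slot `Ou` with helper37's set of four factors. -/
theorem evn_OuF (hCd : P.Cr ≤ P.Cd) (rc Qc Q4c sgc r0 Qr Q4r sgr R0 x0 R1 x1 : ℝ) :
    Evn P D μ s fun q _ _ _ _ Γ G mt τ0 E =>
      Stb Γ G mt q τ0 (fun u => P.Cr * E u) (bN P.Cd E) (fun u => E u / 16)
        (fun sg u κ => Ou37.OuF μ s Γ G E rc Qc Q4c sgc r0 Qr Q4r sgr R0 x0 R1 x1 sg u κ) :=
  evn_stb hCd fun _ _ _ _ _ _ _ _ _ hM hd hd0 => Ou37.stb_OuF hM hd hd0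

/-- **The set `Ou` of row 694** (five factors): `Ou` at the radii `rc`, `r0`, tame masses at the radii `R0`, `R2`, `R1`. -/
def Ou5 (μ : Measure ℝ) (s rc Qc Q4c sgc r0 Qr Q4r sgr R0 x0 R2 x2 R1 x1 : ℝ) (Γ : Cx) (G : Gm) (E : ℕ → ℝ) (sg : ℝ) (u : ℕ)
    (κ : ℤ × ℤ) : Set Env :=
  Ou37.Ou μ s Γ G E rc Qc Q4c sgc sg u κ ∩ (Ou37.Ou μ s Γ G E r0 Qr Q4r sgr sg u κ ∩ (Ou37.OuT μ s Γ G E R0 x0 sg u κ ∩
    (Ou37.OuT μ s Γ G E R2 x2 sg u κ ∩ Ou37.OuT μ s Γ G E R1 x1 sg u κ)))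

/-- **THE SLOT `Ou`**, five factors. -/
theorem evn_Ou5 (hCd : P.Cr ≤ P.Cd) (rc Qc Q4c sgc r0 Qr Q4r sgr R0 x0 R2 x2 R1 x1 : ℝ) :
    Evn P D μ s fun q _ _ _ _ Γ G mt τ0 E =>
      Stb Γ G mt q τ0 (fun u => P.Cr * E u) (bN P.Cd E) (fun u => E u / 16)
        (Ou5 μ s rc Qc Q4c sgc r0 Qr Q4r sgr R0 x0 R2 x2 R1 x1 Γ G E) :=
  evn_stb hCd fun _ _ _ _ _ _ _ _ _ hM hd hd0 =>
    Ou37.Stb_inter (Ou37.stb_Ou hM hd hd0) (Ou37.Stb_inter (Ou37.stb_Ou hM hd hd0)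
      (Ou37.Stb_inter (Ou37.stb_OuT (R := fun _ => R0) (Q' := fun _ => x0) hM hd hd0)
        (Ou37.Stb_inter (Ou37.stb_OuT (R := fun _ => R2) (Q' := fun _ => x2) hM hd hd0)
          (Ou37.stb_OuT (R := fun _ => R1) (Q' := fun _ => x1) hM hd hd0))))

/-- **THE SLOT `St`**: `sSt` and `St_sub`. -/
theorem evn_St [IsProbabilityMeasure μ] {c C : ℝ} {n₀ : ℕ} (hI : In μ s c C n₀) (hCd : P.Cr < P.Cd) (ha : 5 / 2 ≤ P.aS)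
    (hab : P.aS ≤ P.bS) :
    Evn P D μ s fun q _ _ _ _ Γ G mt τ0 E =>
      Stb Γ G mt q τ0 (fun u => P.Cr * E u) (bN P.Cd E) (fun u => E u / 16)
        (fun sg u κ => Sy78.St Γ G P.aS P.bS ((P.βc + 1 / 16) * E u - sg) u κ) ∧
      ∀ u, τ0 < u → u < G.M → ∀ κ, Sy78.St Γ G P.aS P.bS ((P.βc + 1 / 16) * E u - slN P.Cb E G.m2 (u - 1)) u κ ⊆
        Sy78.St Γ G P.aS P.bS (P.βc * E u) u κ := by
  obtain ⟨n₁, hn₁⟩ := Sy78.stN78 hI P.hCr hCd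
  obtain ⟨q₀, hq₀⟩ := exists_pow_ge (4 * P.kw)
  have hCb : 0 ≤ P.Cb := by have := P.hCr; have := P.hCbr; linarith
  refine evn_thr (q₀ := q₀) (n₁ := n₁) fun q m2 η A lam m0 g1 e0 c₂ δ κ n Γ T0 M mt τ0 hc hW hq _ hT _ _ _ _ _ _ _ _ _ hg hG => ?_
  obtain ⟨h1, h2⟩ := hn₁ T0 hT hW (aS := P.aS) (bS := P.bS) (βc := P.βc) (Cb := P.Cb) P.hkw P.hkn P.hkb (M := M) (m0 := m0) (q := q)
    hc.h1 hc.h2 ha hab P.hbS (hq₀ q hq) hCb Γ mt τ0 (fun u => EE μ s (Tk T0 D.K u) / 16)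
  exact ⟨h1, fun u _ _ κ' => h2 u (hG.sl_smax u) κ'⟩

/-- **THE SLOT `Fw`.** -/
theorem evn_Fw (hCd : P.Cr ≤ P.Cd) {a b gf : ℝ} (hb : 2 < b) (hab : b < a) (ha : a < 2 * P.kn - 2) :
    Evn P D μ s fun q _ _ _ _ Γ G mt τ0 E =>
      Stb Γ G mt q τ0 (fun u => P.Cr * E u) (bN P.Cd E) (fun u => E u / 16)
        (fun sg v κ => SD53.Fw Γ G a b (gf * E v - sg) v κ) := by
  obtain ⟨q₁, hq₁⟩ := exists_pow_ge ((P.kw + 2) / (b - 2))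
  obtain ⟨q₂, hq₂⟩ := exists_pow_ge ((P.kw + 2) / (2 * P.kn - 2 - a))
  refine evn_thr (q₀ := max q₁ q₂) (n₁ := 0) fun q m2 η A lam m0 g1 e0 c₂ δ κ n Γ T0 M mt τ0 hc hW hq _ _ _ _ _ _ _ _ _ _ _ hg hG => ?_
  have k1 : (P.kw + 2) / (b - 2) ≤ 2 ^ q := hq₁ q (le_trans (le_max_left _ _) hq)
  have k2 : (P.kw + 2) / (2 * P.kn - 2 - a) ≤ 2 ^ q := hq₂ q (le_trans (le_max_right _ _) hq)
  rw [div_le_iff₀ (by linarith)] at k1 k2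
  obtain ⟨G, hGe⟩ : ∃ G : Gm, G = P.G hW M m0 g1 m2 hc.h1 hc.h2 := ⟨_, rfl⟩
  have hw1 : ∀ u, 1 ≤ G.w u := fun u => by rw [hGe]; exact hW.one u
  have hkw : G.kw = P.kw := by rw [hGe]; rfl
  have hkn : G.kn = P.kn := by rw [hGe]; rfl
  have key : ∀ u v : ℕ, u + q ≤ v → ∀ x : ℝ, P.kw + 2 ≤ 2 ^ q * x → 0 < x → G.kw * G.w u + 2 ≤ x * G.w v := by
    intro u v huv x hx hx0
    have g1 : 2 ^ q * G.w u ≤ G.w v := (FA25.w_pow (G := G) u q).trans (G.w_mono huv)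
    have g2 := hw1 u
    have g3 : G.kw * G.w u + 2 ≤ (P.kw + 2) * G.w u := by rw [hkw]; nlinarith
    have g4 : (P.kw + 2) * G.w u ≤ 2 ^ q * x * G.w u := mul_le_mul_of_nonneg_right hx (by linarith)
    have g5 : x * (2 ^ q * G.w u) ≤ x * G.w v := mul_le_mul_of_nonneg_left g1 hx0.le
    calc G.kw * G.w u + 2 ≤ 2 ^ q * x * G.w u := g3.trans g4
      _ = x * (2 ^ q * G.w u) := by ring
      _ ≤ _ := g5
  have h0 := hG.v0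
  have h1 := hG.v1
  rw [← hGe] at h0 h1 ⊢
  refine SD53.stb_Fw (ga := fun v => gf * EE μ s (Tk T0 D.K v)) h0 h1 hab (fun u => ?_) (fun u v huv => ?_) fun u v huv => ?_
  · exact mul_le_mul_of_nonneg_right hCd (hg.pos u).le
  · have := key u v huv (b - 2) k1 (by linarith)
    linarith
  · have := key u v huv (2 * P.kn - 2 - a) k2 (by linarith)
    rw [hkn]
    linarith

/-- **THE THREE SLOTS TOGETHER**: `sOu`, `sSt`, `sFw`, `St_sub`. -/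
theorem evn_OSF [IsProbabilityMeasure μ] {c C : ℝ} {n₀ : ℕ} (hI : In μ s c C n₀) (hCd : P.Cr < P.Cd) (haS : 5 / 2 ≤ P.aS)
    (hab : P.aS ≤ P.bS) {a b gf : ℝ} (hb : 2 < b) (hba : b < a) (ha : a < 2 * P.kn - 2)
    (rc Qc Q4c sgc r0 Qr Q4r sgr R0 x0 R2 x2 R1 x1 : ℝ) :
    Evn P D μ s fun q _ _ _ _ Γ G mt τ0 E =>
      Stb Γ G mt q τ0 (fun u => P.Cr * E u) (bN P.Cd E) (fun u => E u / 16)
        (Ou5 μ s rc Qc Q4c sgc r0 Qr Q4r sgr R0 x0 R2 x2 R1 x1 Γ G E) ∧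
      Stb Γ G mt q τ0 (fun u => P.Cr * E u) (bN P.Cd E) (fun u => E u / 16)
        (fun sg u κ => Sy78.St Γ G P.aS P.bS ((P.βc + 1 / 16) * E u - sg) u κ) ∧
      Stb Γ G mt q τ0 (fun u => P.Cr * E u) (bN P.Cd E) (fun u => E u / 16)
        (fun sg v κ => SD53.Fw Γ G a b (gf * E v - sg) v κ) ∧
      ∀ u, τ0 < u → u < G.M → ∀ κ, Sy78.St Γ G P.aS P.bS ((P.βc + 1 / 16) * E u - slN P.Cb E G.m2 (u - 1)) u κ ⊆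
        Sy78.St Γ G P.aS P.bS (P.βc * E u) u κ :=
  ((evn_Ou5 (D := D) (μ := μ) (s := s) hCd.le rc Qc Q4c sgc r0 Qr Q4r sgr R0 x0 R2 x2 R1 x1).and
    ((evn_St (D := D) hI hCd haS hab).and (evn_Fw (D := D) (μ := μ) (s := s) (gf := gf) hCd.le hb hba ha))).mono
      fun _ _ _ _ _ _ _ _ _ _ h => ⟨h.1, h.2.1.1, h.2.2, h.2.1.2⟩

end

end Pool.Agent.W_7d29a1_C1.WO57
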