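import Pool.Agent.W_7d29a1_C1.RatG22
import Pool.Agent.W_7d29a1_C1.TamK16

/-!
MP_7d29a1_pr, [C1] attractor route, SEP: THE SET `Ou` OF THE TYPICAL EVENTS (tame backward masses of the window rows; doubling of the
backward masses in the row behind the window), with a real slack `sg`. (helper37)

`Zo G R u κ`: the sites of the rows `[ra - 1, re]` with `|lat - ctr| ≤ R w u`; `bn`: the normalised backward mass (`bh16` of the context).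
`Ou sg u κ`: `bn c' ≤ exp (Q' E u + sg) bn c` for `c, c' ∈ Zo`; in the row `re`: `bn y ≤ exp ((Q4 + σ |lat - ctr| / w u) E u + sg) bn y₀` for
all `y` and all `y₀` of the strip.
* `meas_Ou`, `Ou_mono`;
* `Ou_move`: own weights of the rows `[ra - 1, re]` equal, backward masses of these rows moved by at most `exp d`: `sg → sg + 2 d`;
* `Ou_below` (a window below: exact), `Ou_above` (a window above);
* `Ou_sz`, `Ou_ft`: the sets `SzS`, `FtS` of RatG22.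
-/

set_option autoImplicit false

namespace Pool.Agent.W_7d29a1_C1.Ou37

open Finset MeasureTheory
open Pool.Agent.W_7d29a1_F hiding Bw G
open Pool.Agent.W_7d29a1_h4g Pool.Agent.W_7d29a1_HS
open Pool.Agent.W_7d29a1_H hiding ex gg
open Pool.Agent.W_7d29a1_C1.K91 (wt wt_pos measurable_wt)
open Pool.Agent.W_7d29a1_C1.K91P (fw bw bw_pos)
open Pool.Agent.W_7d29a1_C1.U16 (bh16 bw_bh16)
open Pool.Agent.W_7d29a1_C1.FarW89 (bl)
open Pool.Agent.W_7d29a1_C1.H60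
open Pool.Agent.W_7d29a1_C1.G37 (Gm)
open Pool.Agent.W_7d29a1_C1.Sy78 (sp lat_win)
open Pool.Agent.W_7d29a1_C1.O22 (Bw)
open Pool.Agent.W_7d29a1_C1.Rt22

noncomputable section

variable (μ : Measure ℝ) (s : ℝ) (Γ : Cx) (G : Gm)

/-- The deterministic gauge of the row `k`. -/
def gam (k : ℕ) (_y : ℤ) : ℝ := Real.exp (((Γ.N - k : ℕ) : ℝ) * lam μ s + Γ.h * sl μ s * bl Γ.M k (Γ.N - k))

/-- The normalised backward mass of the context. -/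
def bn (k : ℕ) (y : ℤ) (ω : Env) : ℝ := bh16 μ s Γ.h ω Γ.p Γ.M Γ.N k y

/-- The sites of the window rows. -/
def Zo (R : ℝ) (u : ℕ) (κ : ℤ × ℤ) : Set (ℕ × ℤ) := {c | G.ra u κ ≤ c.1 + 1 ∧ c.1 ≤ G.re u κ ∧ |G.lat c - G.ctr u κ| ≤ R * G.w u}

/-- **TAME**: the ratios of the masses of the window rows. -/
def OuT (E : ℕ → ℝ) (R Q' sg : ℝ) (u : ℕ) (κ : ℤ × ℤ) : Set Env :=
  {ω | ∀ c ∈ Zo G R u κ, ∀ c' ∈ Zo G R u κ, bn μ s Γ c'.1 c'.2 ω ≤ Real.exp (Q' * E u + sg) * bn μ s Γ c.1 c.2 ω}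

/-- **DOUBLING** in the row behind the window. -/
def OuD (E : ℕ → ℝ) (R Q4 sgm sg : ℝ) (u : ℕ) (κ : ℤ × ℤ) : Set Env :=
  {ω | ∀ y y₀ : ℤ, |G.lat (G.re u κ, y₀) - G.ctr u κ| ≤ R * G.w u →
    bn μ s Γ (G.re u κ) y ω ≤ Real.exp ((Q4 + sgm * (|G.lat (G.re u κ, y) - G.ctr u κ| / G.w u)) * E u + sg) * bn μ s Γ (G.re u κ) y₀ ω}

/-- **THE SET `Ou`.** -/
def Ou (E : ℕ → ℝ) (R Q' Q4 sgm sg : ℝ) (u : ℕ) (κ : ℤ × ℤ) : Set Env := OuT μ s Γ G E R Q' sg u κ ∩ OuD μ s Γ G E R Q4 sgm sg u κ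

variable {μ s Γ G}

theorem gam_pos (k : ℕ) (y : ℤ) : 0 < gam μ s Γ k y := Real.exp_pos _

theorem bn_pos (k : ℕ) (y : ℤ) (ω : Env) : 0 < bn μ s Γ k y ω := by
  unfold bn bh16
  exact mul_pos (Real.exp_pos _) (div_pos (bw_pos (wt_pos ω) Γ.p_pos _ _ _) (wt_pos ω _ _))

/-- The backward mass is the gauge times the normalised one. -/
theorem bw_bn (k : ℕ) (y : ℤ) (ω : Env) : bw (wt ω) Γ.p k (Γ.N - k) y = gg (gam μ s Γ) ω k y * bn μ s Γ k y ω := by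
  unfold gg gam bn
  rw [bw_bh16 (μ := μ) (s := s) (h := Γ.h) (M := Γ.M) y]
  ring

theorem bn_eq (k : ℕ) (y : ℤ) (ω : Env) : bn μ s Γ k y ω = bw (wt ω) Γ.p k (Γ.N - k) y / gg (gam μ s Γ) ω k y := by
  have h1 := gg_pos (gam_pos (μ := μ) (s := s) (Γ := Γ)) ω k y
  rw [bw_bn (μ := μ) (s := s), mul_div_cancel_left₀ _ h1.ne']

/-! ### Measurability, monotonicity -/

theorem meas_bn (k : ℕ) (y : ℤ) : Measurable (bn μ s Γ k y) := by
  have e : bn μ s Γ k y = fun ω => bw (wt ω) Γ.p k (Γ.N - k) y / gg (gam μ s Γ) ω k y := funext fun ω => bn_eq k y ω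
  rw [e]
  exact (meas_bwk _ _ _).div (meas_gg _ _)

variable {E : ℕ → ℝ} {R Q' Q4 sgm sg : ℝ} {u : ℕ} {κ : ℤ × ℤ}

theorem meas_OuT : MeasurableSet (OuT μ s Γ G E R Q' sg u κ) := by
  have e : OuT μ s Γ G E R Q' sg u κ = ⋂ c : ℕ × ℤ, ⋂ c' : ℕ × ℤ, {ω | c ∈ Zo G R u κ → c' ∈ Zo G R u κ →
      bn μ s Γ c'.1 c'.2 ω ≤ Real.exp (Q' * E u + sg) * bn μ s Γ c.1 c.2 ω} := by
    ext ω
    simp only [Set.mem_iInter]
    exact ⟨fun h c c' hc hc' => h c hc c' hc', fun h c hc c' hc' => h c c' hc hc'⟩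
  rw [e]
  refine MeasurableSet.iInter fun c => MeasurableSet.iInter fun c' => ?_
  by_cases h1 : c ∈ Zo G R u κ
  · by_cases h2 : c' ∈ Zo G R u κ
    · simp only [h1, h2, true_imp_iff]
      exact measurableSet_le (meas_bn _ _) (measurable_const.mul (meas_bn _ _))
    · simp [h2]
  · simp [h1]

theorem meas_OuD : MeasurableSet (OuD μ s Γ G E R Q4 sgm sg u κ) := by
  have e : OuD μ s Γ G E R Q4 sgm sg u κ = ⋂ y : ℤ, ⋂ y₀ : ℤ, {ω | |G.lat (G.re u κ, y₀) - G.ctr u κ| ≤ R * G.w u →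
      bn μ s Γ (G.re u κ) y ω ≤ Real.exp ((Q4 + sgm * (|G.lat (G.re u κ, y) - G.ctr u κ| / G.w u)) * E u + sg) *
        bn μ s Γ (G.re u κ) y₀ ω} := by
    ext ω
    simp only [Set.mem_iInter]
    rfl
  rw [e]
  refine MeasurableSet.iInter fun y => MeasurableSet.iInter fun y₀ => ?_
  by_cases h1 : |G.lat (G.re u κ, y₀) - G.ctr u κ| ≤ R * G.w u
  · simp only [h1, true_imp_iff]
    exact measurableSet_le (meas_bn _ _) (measurable_const.mul (meas_bn _ _))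
  · simp [h1]

theorem meas_Ou : MeasurableSet (Ou μ s Γ G E R Q' Q4 sgm sg u κ) := meas_OuT.inter meas_OuD

theorem Ou_mono {sg' : ℝ} (h : sg ≤ sg') : Ou μ s Γ G E R Q' Q4 sgm sg u κ ⊆ Ou μ s Γ G E R Q' Q4 sgm sg' u κ := by
  rintro ω ⟨h1, h2⟩
  refine ⟨fun c hc c' hc' => (h1 c hc c' hc').trans ?_, fun y y₀ h3 => (h2 y y₀ h3).trans ?_⟩
  · exact mul_le_mul_of_nonneg_right (Real.exp_le_exp.2 (by linarith)) (bn_pos _ _ _).le
  · exact mul_le_mul_of_nonneg_right (Real.exp_le_exp.2 (by linarith)) (bn_pos _ _ _).le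

/-! ### The change of a window elsewhere -/

/-- A mass in the new environment. -/
theorem bn_le {ω ω' : Env} {k : ℕ} {y : ℤ} {d : ℝ} (hw : wt ω' k = wt ω k)
    (h : bw (wt ω') Γ.p k (Γ.N - k) y ≤ Real.exp d * bw (wt ω) Γ.p k (Γ.N - k) y) : bn μ s Γ k y ω' ≤ Real.exp d * bn μ s Γ k y ω := by
  have h1 := gg_pos (gam_pos (μ := μ) (s := s) (Γ := Γ)) ω k y
  have e : gg (gam μ s Γ) ω' k y = gg (gam μ s Γ) ω k y := by
    unfold gg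
    rw [hw]
  rw [bn_eq, bn_eq, e, ← mul_div_assoc]
  exact div_le_div_of_nonneg_right h h1.le

/-- **THE MOVE**: own weights of the rows `[ra - 1, re]` equal, backward masses of these rows moved by at most `exp d`. -/
theorem Ou_move {ω ω' : Env} {d : ℝ} (hw : ∀ k, G.ra u κ ≤ k + 1 → k ≤ G.re u κ → wt ω' k = wt ω k)
    (hup : ∀ k y, G.ra u κ ≤ k + 1 → k ≤ G.re u κ → bw (wt ω') Γ.p k (Γ.N - k) y ≤ Real.exp d * bw (wt ω) Γ.p k (Γ.N - k) y)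
    (hdn : ∀ k y, G.ra u κ ≤ k + 1 → k ≤ G.re u κ → bw (wt ω) Γ.p k (Γ.N - k) y ≤ Real.exp d * bw (wt ω') Γ.p k (Γ.N - k) y)
    (h : ω ∈ Ou μ s Γ G E R Q' Q4 sgm sg u κ) : ω' ∈ Ou μ s Γ G E R Q' Q4 sgm (sg + 2 * d) u κ := by
  have up : ∀ k y, G.ra u κ ≤ k + 1 → k ≤ G.re u κ → bn μ s Γ k y ω' ≤ Real.exp d * bn μ s Γ k y ω := fun k y h1 h2 =>
    bn_le (hw k h1 h2) (hup k y h1 h2)
  have dn : ∀ k y, G.ra u κ ≤ k + 1 → k ≤ G.re u κ → bn μ s Γ k y ω ≤ Real.exp d * bn μ s Γ k y ω' := fun k y h1 h2 =>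
    bn_le (hw k h1 h2).symm (hdn k y h1 h2)
  obtain ⟨h1, h2⟩ := h
  have key : ∀ {k k' : ℕ} {y y' : ℤ} {A : ℝ}, G.ra u κ ≤ k + 1 → k ≤ G.re u κ → G.ra u κ ≤ k' + 1 → k' ≤ G.re u κ →
      bn μ s Γ k' y' ω ≤ Real.exp (A + sg) * bn μ s Γ k y ω → bn μ s Γ k' y' ω' ≤ Real.exp (A + (sg + 2 * d)) * bn μ s Γ k y ω' := by
    intro k k' y y' A a1 a2 a3 a4 a5
    calc bn μ s Γ k' y' ω' ≤ Real.exp d * bn μ s Γ k' y' ω := up k' y' a3 a4
      _ ≤ Real.exp d * (Real.exp (A + sg) * bn μ s Γ k y ω) := mul_le_mul_of_nonneg_left a5 (Real.exp_pos _).le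
      _ ≤ Real.exp d * (Real.exp (A + sg) * (Real.exp d * bn μ s Γ k y ω')) :=
          mul_le_mul_of_nonneg_left (mul_le_mul_of_nonneg_left (dn k y a1 a2) (Real.exp_pos _).le) (Real.exp_pos _).le
      _ = Real.exp (A + (sg + 2 * d)) * bn μ s Γ k y ω' := by
          have e1 : Real.exp (A + (sg + 2 * d)) = Real.exp d * (Real.exp (A + sg) * Real.exp d) := by
            rw [← Real.exp_add, ← Real.exp_add]
            congr 1
            ring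
          rw [e1]
          ring
  have hr := G.ra_le_re u κ
  refine ⟨fun c hc c' hc' => key hc.1 hc.2.1 hc'.1 hc'.2.1 (h1 c hc c' hc'), fun y y₀ h3 => ?_⟩
  exact key (by omega) le_rfl (by omega) le_rfl (h2 y y₀ h3)

/-- **A window BELOW is changed: exact.** -/
theorem Ou_below {v : ℕ} {κ' : ℤ × ℤ} (h0 : 0 ≤ G.rcc v κ') (hr : G.re v κ' + 1 ≤ G.ra u κ) {η ω : Env}
    (h : ω ∈ Ou μ s Γ G E R Q' Q4 sgm sg u κ) : G.R v κ' η ω ∈ Ou μ s Γ G E R Q' Q4 sgm sg u κ := by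
  have h1 := Ou_move (ω := ω) (ω' := G.R v κ' η ω) (d := 0) (fun k h1 _ => Gm.wt_R_ge h0 (by omega) η ω)
    (fun k y h1 _ => by rw [Gm.bw_R h0 (by omega)]; simp) (fun k y h1 _ => by rw [Gm.bw_R h0 (by omega)]; simp) h
  rwa [mul_zero, add_zero] at h1

/-- **A window ABOVE is changed**: the backward masses off it move by at most `exp d`. -/
theorem Ou_above {v : ℕ} {κ' : ℤ × ℤ} (h0 : 0 ≤ G.rcc v κ') (hr : G.re u κ < G.ra v κ') {η ω : Env} {d : ℝ}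
    (hup : ∀ k y, (k, y) ∉ Bw G v κ' → bw (wt (G.R v κ' η ω)) Γ.p k (Γ.N - k) y ≤ Real.exp d * bw (wt ω) Γ.p k (Γ.N - k) y)
    (hdn : ∀ k y, (k, y) ∉ Bw G v κ' → bw (wt ω) Γ.p k (Γ.N - k) y ≤ Real.exp d * bw (wt (G.R v κ' η ω)) Γ.p k (Γ.N - k) y)
    (h : ω ∈ Ou μ s Γ G E R Q' Q4 sgm sg u κ) : G.R v κ' η ω ∈ Ou μ s Γ G E R Q' Q4 sgm (sg + 2 * d) u κ := by
  have hn : ∀ (k : ℕ) (y : ℤ), k ≤ G.re u κ → (k, y) ∉ Bw G v κ' := fun k y hk hB => by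
    have := (bw_rows h0 hB).1
    omega
  exact Ou_move (fun k _ h2 => Gm.wt_R_lt h0 (by omega) η ω) (fun k y _ h2 => hup k y (hn k y h2)) (fun k y _ h2 => hdn k y (hn k y h2)) h

/-- The same from `Ro` of Rat22. -/
theorem Ou_above_ro {v : ℕ} {κ' : ℤ × ℤ} (h0 : 0 ≤ G.rcc v κ') (hr : G.re u κ < G.ra v κ') {η ω : Env} {d : ℝ}
    (H : Ro (wt ω) (wt (G.R v κ' η ω)) Γ.p Γ.N (Bw G v κ') (Real.exp d)) (h : ω ∈ Ou μ s Γ G E R Q' Q4 sgm sg u κ) :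
    G.R v κ' η ω ∈ Ou μ s Γ G E R Q' Q4 sgm (sg + 2 * d) u κ := Ou_above h0 hr H.up H.dn h

/-- The window `(u, κ)` and the windows of the targets `ρ ∈ Nb u κ` of larger scales (the field `stp`). -/
theorem re_lt_ra_nb {u v : ℕ} (huv : u + 2 ≤ v) {κ : ℤ × ℤ} {ρ : ℕ × ℤ} (h : G.Nb u κ ρ) (h0 : 0 ≤ G.rcc u κ) :
    G.re u κ + 1 ≤ G.ra v (G.loc v ρ) := by
  have h1 := h.1
  have h2 := G.lt_rcc v ρ
  have h3 := G.rcc_eq u κ
  have h4 := G.T_lt8 (show u < v - 1 by omega)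
  have h5 := G.T_mono' (show u - 2 ≤ u by omega)
  have h6 := G.T_pos' u
  have h7 := G.re_cast h0
  have h8 := G.ra_cast (G.rcc_pos v ρ).le
  have h9 : (G.re u κ : ℤ) + 1 ≤ G.ra v (G.loc v ρ) := by
    rw [h7, h8]
    linarith
  exact_mod_cast h9

/-! ### The use -/

/-- The reference site lies in the strip. -/
theorem lat_zc (u : ℕ) (κ : ℤ × ℤ) : |G.lat (G.re u κ, zc G u κ) - G.ctr u κ| ≤ 1 := by
  have h1 := Int.floor_le (G.ctr u κ + G.v * (G.re u κ : ℝ))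
  have h2 := Int.lt_floor_add_one (G.ctr u κ + G.v * (G.re u κ : ℝ))
  unfold Gm.lat zc
  simp only
  rw [abs_le]
  constructor <;> linarith

theorem F0_bn (u : ℕ) (κ : ℤ × ℤ) (ω : Env) : F0 Γ G (gam μ s Γ) u κ ω = bn μ s Γ (G.re u κ) (zc G u κ) ω := (bn_eq _ _ _).symm

/-- **`SzS` of RatG22** from `Ou`. -/
theorem Ou_sz {b : ℝ} (hv0 : 0 ≤ G.v) (hv1 : G.v ≤ 1) (h0 : 0 ≤ G.rcc u κ) (hre : G.re u κ ≤ Γ.N) (h1 : 1 ≤ R * G.w u) (hb : b * G.w u + 1 ≤ R * G.w u)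
    (hk : G.kw * G.w u + 2 ≤ R * G.w u) {ω : Env}
    (h : ω ∈ Ou μ s Γ G E R Q' Q4 sgm sg u κ) : ω ∈ SzS Γ G (gam μ s Γ) b (Q' * E u + sg) (Q' * E u + sg) u κ := by
  have hg := gam_pos (μ := μ) (s := s) (Γ := Γ)
  have hr := G.ra_le_re u κ
  have hz : (G.re u κ, zc G u κ) ∈ Zo G R u κ := ⟨by simp only; omega, le_rfl, (lat_zc u κ).trans h1⟩
  have hM : ∀ c : ℕ × ℤ, c.1 ≤ G.re u κ → Sp22.bf (wt ω) Γ.p (bw (wt ω) Γ.p (G.re u κ) (Γ.N - G.re u κ)) c.1 (G.re u κ - c.1) c.2 =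
      gg (gam μ s Γ) ω c.1 c.2 * bn μ s Γ c.1 c.2 ω := by
    intro c hc
    have h2 := bw_bn (μ := μ) (s := s) (Γ := Γ) c.1 c.2 ω
    rw [bw_bf hc hre]
    exact h2
  refine ⟨hre, F0_nonneg hg ω, fun c hc => ?_, fun c hc => ?_⟩
  · have hB : (c.1 + 1 < G.re u κ) ∧ |G.lat c - G.ctr u κ| ≤ R * G.w u := by
      have h3 : |G.lat c - G.ctr u κ| ≤ R * G.w u := (reg_G hv0 hv1 h0 hk).rim hc
      rcases hc.2.2 with h2 | h2
      · exact ⟨(bw_rows h0 h2).2, h3⟩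
      · exact ⟨(bw_rows h0 h2).2, h3⟩
    have hcZ : c ∈ Zo G R u κ := ⟨by have := hc.1; omega, by omega, hB.2⟩
    rw [hM c (by omega), F0_bn]
    have h2 := h.1 c hcZ _ hz
    have h3 := gg_pos hg ω c.1 c.2
    calc bn μ s Γ (G.re u κ) (zc G u κ) ω * gg (gam μ s Γ) ω c.1 c.2
        ≤ (Real.exp (Q' * E u + sg) * bn μ s Γ c.1 c.2 ω) * gg (gam μ s Γ) ω c.1 c.2 := mul_le_mul_of_nonneg_right h2 h3.le
      _ = _ := by ring
  · have hcZ : c ∈ Zo G R u κ := by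
      have h2 : |G.lat c - G.ctr u κ| ≤ b * G.w u + 1 := hc.1
      rcases hc.2 with ⟨h3, h4, _⟩ | h3
      · exact ⟨by omega, by omega, h2.trans hb⟩
      · exact ⟨by omega, by omega, h2.trans hb⟩
    rw [hM c hcZ.2.1, F0_bn]
    have h2 := h.1 _ hz c hcZ
    have h3 := gg_pos hg ω c.1 c.2
    calc gg (gam μ s Γ) ω c.1 c.2 * bn μ s Γ c.1 c.2 ω
        ≤ gg (gam μ s Γ) ω c.1 c.2 * (Real.exp (Q' * E u + sg) * bn μ s Γ (G.re u κ) (zc G u κ) ω) := mul_le_mul_of_nonneg_left h2 h3.le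
      _ = _ := by ring

/-- **`FtS` of RatG22** from `Ou`. -/
theorem Ou_ft {b : ℝ} (h1 : 1 ≤ R * G.w u) (hb : b * G.w u + 1 ≤ R * G.w u) {ω : Env}
    (h : ω ∈ Ou μ s Γ G E R Q' Q4 sgm sg u κ) : ω ∈ FtS Γ G (gam μ s Γ) b (Q' * E u + sg) u κ := by
  have hg := gam_pos (μ := μ) (s := s) (Γ := Γ)
  have hr := G.ra_le_re u κ
  have hz : (G.re u κ, zc G u κ) ∈ Zo G R u κ := ⟨by simp only; omega, le_rfl, (lat_zc u κ).trans h1⟩
  intro v hv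
  have hvZ : (G.re u κ, v) ∈ Zo G R u κ := ⟨by simp only; omega, le_rfl, hv.trans hb⟩
  rw [F0_bn, bw_bn (μ := μ) (s := s)]
  have h2 := h.1 _ hz _ hvZ
  have h3 := h.1 _ hvZ _ hz
  simp only at h2 h3
  have h4 := gg_pos hg ω (G.re u κ) v
  constructor
  · calc gg (gam μ s Γ) ω (G.re u κ) v * bn μ s Γ (G.re u κ) v ω
        ≤ gg (gam μ s Γ) ω (G.re u κ) v * (Real.exp (Q' * E u + sg) * bn μ s Γ (G.re u κ) (zc G u κ) ω) :=
          mul_le_mul_of_nonneg_left h2 h4.le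
      _ = _ := by ring
  · calc bn μ s Γ (G.re u κ) (zc G u κ) ω * gg (gam μ s Γ) ω (G.re u κ) v
        ≤ (Real.exp (Q' * E u + sg) * bn μ s Γ (G.re u κ) v ω) * gg (gam μ s Γ) ω (G.re u κ) v := mul_le_mul_of_nonneg_right h3 h4.le
      _ = _ := by ring

end

end Pool.Agent.W_7d29a1_C1.Ou37
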