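import Pool.Agent.W_7d29a1_C1.BrR22
import Pool.Agent.W_7d29a1_C1.UpS52
import Pool.Agent.W_7d29a1_C1.Ou37

/-!
MP_7d29a1_pr, [C1] SEP: THE UPPER KERNELS `KiB` OF A BLOCK, FROM THE LEVELS AND WITH THEIR PROBABILITY. (helper52)

* `gau_gam` : the gauge of Ou37 is a `Gau`; `KiB_mono`; `up22_UpS` : `Up22` is helper22's `UpS`;
* **`kib_up`** : `Up22` at `V₁ EE (T u)`, slope `(c / 16) EE / wd` gives `KiB` at `A = exp (V' EE (T u))`, `X = exp ((V' - (c / 2) b) EE (T u))`,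
  `V' = 2 V₁ + Cₖ`, `Cₖ = Cₖ (kw)` : nothing depends on `b`;
* **`kib_far`** : the same from `Far16` (unit `T u`), `V' = C₁ (1 + q) ^ 2`;
* **`kib_prob`** : `P (KiB ᶜ) ≤ ε`, `V' = V' (ε, kw)`.
-/

set_option autoImplicit false

namespace Pool.Agent.W_7d29a1_C1.Ki52

open Finset MeasureTheory Filter
open Pool.Agent.W_7d29a1_F hiding Bw G
open Pool.Agent.W_7d29a1_h4g Pool.Agent.W_7d29a1_HS
open Pool.Agent.W_7d29a1_H hiding ex gg
open Pool.Agent.W_7d29a1_C1.K91 (wt wt_pos)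
open Pool.Agent.W_7d29a1_C1.U16 (lat16 Far16)
open Pool.Agent.W_7d29a1_C1.H75 (hc)
open Pool.Agent.W_7d29a1_C1.H60
open Pool.Agent.W_7d29a1_C1.G37 (Gm)
open Pool.Agent.W_7d29a1_C1.FarW89 (bl bl_add)
open Pool.Agent.W_7d29a1_C1.RB22
open Pool.Agent.W_7d29a1_C1.Up52 (Up22 lo52 far_22 prob_22)

noncomputable section

variable {μ : Measure ℝ} {s : ℝ}

/-- The gauge of Ou37. -/
theorem gau_gam (Γ : Cx) : Gau μ s Γ (Ou37.gam μ s Γ) where
  pos k y := Real.exp_pos _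
  step k m x z hN := by
    unfold Ou37.gam
    rw [← Real.exp_add]
    congr 1
    have e1 : Γ.N - k = m + (Γ.N - (k + m)) := by omega
    have e2 : bl Γ.M k (Γ.N - k) = bl Γ.M k m + bl Γ.M (k + m) (Γ.N - (k + m)) := by
      rw [e1, bl_add]
    rw [e2, e1]
    have e3 : m + (Γ.N - (k + m)) - m = Γ.N - (k + m) := by omega
    push_cast
    ring

theorem KiB_mono {Γ : Cx} {G : Gm} {γ : ℕ → ℤ → ℝ} {u : ℕ} {κ : ℤ × ℤ} {b A X A' X' : ℝ} {a e : ℕ} (hγ : ∀ k y, 0 < γ k y) (hA : A ≤ A')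
    (hX : X ≤ X') : KiB Γ G γ b A X u κ a e ⊆ KiB Γ G γ b A' X' u κ a e :=
  fun ω h => ⟨fun c hc => (h.mass c hc).trans (mul_le_mul_of_nonneg_right hA (gB_pos hγ e ω _ _).le),
    fun c hc => (h.exit c hc).trans (mul_le_mul_of_nonneg_right hX (gB_pos hγ e ω _ _).le)⟩

theorem up22_UpS {t₀ V σ : ℝ} {ℓ : ℕ → ℤ → ℝ} {a e : ℕ} : Up22 μ s t₀ V σ ℓ a e = UpS μ s t₀ V σ ℓ a e := rfl

/-- The lines over a base on the slope. -/
theorem lo_lat {G : Gm} {u : ℕ} {κ : ℤ × ℤ} {o : Pt} (hv : G.v = sl μ s) (ho : o.2 = ⌊G.ctr u κ + G.v * (o.1 : ℝ)⌋) (k : ℕ) (x : ℤ) :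
    |lo52 μ s o k x| ≤ |G.lat (k, x) - G.ctr u κ| + 1 := by
  have f1 := Int.floor_le (G.ctr u κ + G.v * (o.1 : ℝ))
  have f2 := Int.lt_floor_add_one (G.ctr u κ + G.v * (o.1 : ℝ))
  rw [← ho] at f1 f2
  have e : lo52 μ s o k x = (G.lat (k, x) - G.ctr u κ) + (G.ctr u κ + G.v * (o.1 : ℝ) - (o.2 : ℝ)) := by
    unfold lo52 lat16 Gm.lat
    rw [hv]
    push_cast
    ring
  rw [e]
  refine (abs_add_le _ _).trans (add_le_add le_rfl ?_)
  rw [abs_le]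
  constructor <;> linarith

/-- The number of rows of a block of a window. -/
theorem blk_len {G : Gm} {u : ℕ} {κ : ℤ × ℤ} {a e : ℕ} (h1 : G.ra u κ - 1 ≤ a) (h2 : e ≤ G.re u κ) : e ≤ a + G.T u + 1 := by
  unfold Gm.ra at h1
  unfold Gm.re at h2
  omega

variable [IsProbabilityMeasure μ] {c C : ℝ} {n₀ : ℕ}

/-- **`KiB` FROM THE TOTALS WITH A SLOPE**, constants free of `b`. -/
theorem kib_up (h : In μ s c C n₀) {kw : ℝ} (hkw : 0 ≤ kw) : ∃ Ck : ℝ, 0 < Ck ∧ ∃ n₁ : ℕ, 1 ≤ n₁ ∧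
    ∀ {V₁ b : ℝ} {Γ : Cx} {G : Gm} {u : ℕ} {γ : ℕ → ℤ → ℝ} {κ : ℤ × ℤ} {a e : ℕ} {o : Pt}, 0 ≤ V₁ → Γ.s = s → G.v = sl μ s →
      G.w u = wd μ s (G.T u) → G.kw = kw → |Γ.h| * wd μ s (G.T u) ≤ c / 8 * EE μ s (G.T u) → n₁ ≤ G.T u → kw + 1 ≤ b → Gau μ s Γ γ →
      e ≤ Γ.N → e ≤ a + G.T u + 1 → o.2 = ⌊G.ctr u κ + G.v * (o.1 : ℝ)⌋ →
      Up22 μ s (hc μ s c (G.T u)) (V₁ * EE μ s (G.T u)) (c / 16 * (EE μ s (G.T u) / wd μ s (G.T u))) (lo52 μ s o) a (e - 1) ⊆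
        KiB Γ G γ b (Real.exp ((2 * V₁ + Ck) * EE μ s (G.T u))) (Real.exp ((2 * V₁ + Ck - c / 2 * b) * EE μ s (G.T u))) u κ a e := by
  obtain ⟨n₂, hn₂⟩ := eventually_atTop.1 (h.tE.eventually_ge_atTop 1)
  obtain ⟨K₀, hK₀⟩ : ∃ K₀ : ℝ, K₀ = (1 + Real.exp (|s| + 1)) * Real.exp (|lam μ s| + 1) := ⟨_, rfl⟩
  have hK1 : 1 ≤ K₀ := by
    rw [hK₀]
    have a1 := Real.exp_pos (|s| + 1)
    have a2 : 1 ≤ Real.exp (|lam μ s| + 1) := Real.one_le_exp (by positivity)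
    nlinarith
  obtain ⟨L₀, hL₀⟩ : ∃ L₀ : ℝ, L₀ = Real.log K₀ := ⟨_, rfl⟩
  have hL0 : 0 ≤ L₀ := by rw [hL₀]; exact Real.log_nonneg hK1
  have hKL : K₀ = Real.exp L₀ := by rw [hL₀, Real.exp_log (by linarith)]
  have hc0 := h.c0
  have hc1 := h.c1
  have hC1 := h.C1
  have hs0 := h.sl_pos
  have hs1 := h.sl_lt
  refine ⟨L₀ + 2 + 4 * C + c * (kw + 2), by positivity, max n₂ 2, (by omega : 1 ≤ 2).trans (le_max_right _ _),
    fun {V₁ b Γ G u γ κ a e o} hV hs hv hw hkw' hh hT hb g he hae ho ω hU => ?_⟩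
  obtain ⟨T, hTe⟩ : ∃ T, T = G.T u := ⟨_, rfl⟩
  rw [← hTe] at hw hh hT hae hU ⊢
  obtain ⟨E, hE⟩ : ∃ E, E = EE μ s T := ⟨_, rfl⟩
  obtain ⟨w, hwe⟩ : ∃ w, w = wd μ s T := ⟨_, rfl⟩
  have hE1 : 1 ≤ E := by rw [hE]; exact hn₂ T ((le_max_left _ _).trans hT)
  have hT2 : 2 ≤ T := (le_max_right _ _).trans hT
  have hw2 : 2 * E ≤ w := by rw [hE, hwe]; exact wd_ge_one h (by omega)
  have hlog : Real.log T ≤ C * E := by rw [hE]; exact h.lg T (by omega)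
  rw [← hE, ← hwe] at hh hU
  rw [← hE]
  rw [← hwe] at hw
  have hw0 : 0 < w := by linarith
  obtain ⟨r, hr⟩ : ∃ r, r = E / w := ⟨_, rfl⟩
  have hrw : r * w = E := by rw [hr]; field_simp
  have hr0 : 0 < r := by rw [hr]; positivity
  have hr1 : r ≤ 1 / 2 := by
    rw [hr, div_le_div_iff₀ hw0 (by norm_num)]
    linarith
  -- the force
  have hh1 : |Γ.h| ≤ c / 8 * r := by
    have : |Γ.h| * w ≤ c / 8 * r * w := by rw [mul_assoc, hrw]; exact hh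
    exact le_of_mul_le_mul_right this hw0
  have hh2 : |Γ.h| ≤ 1 := hh1.trans (by nlinarith)
  have ht0 : hc μ s c T = c * r := by
    unfold hc
    rw [← hE, ← hwe, hr]
    ring
  -- the other line
  have hU1 : ω ∈ UpS μ s (hc μ s c T) (V₁ * E + c / 16 * r * 1) (c / 16 * r) (fun k x => G.lat (k, x) - G.ctr u κ) a (e - 1) := by
    rw [hr]
    rw [up22_UpS] at hU
    exact UpS_ref (by positivity) (fun k x => lo_lat hv ho k x) hU
  have hvv0 : 0 ≤ G.v := by rw [hv]; exact hs0.le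
  have hvv1 : G.v ≤ 1 := by rw [hv]; exact hs1.le
  have hbw : G.kw * G.w u + 2 ≤ b * G.w u := by
    rw [hkw', hw]
    have : (kw + 1) * w ≤ b * w := mul_le_mul_of_nonneg_right hb hw0.le
    linarith
  have key := kiB_of (ω := ω) (κ := κ) (b := b) hs hv g hvv0 hvv1 hbw he (show 0 ≤ c / 16 * r by positivity) (show 0 ≤ c / 2 * r by positivity)
    (t₀ := hc μ s c T) (by rw [ht0]; nlinarith) hU1
  rw [hkw', hw] at key
  -- the numbers
  obtain ⟨V2, hV2⟩ : ∃ V2, V2 = V₁ * E + c / 16 * r * 1 + c / 16 * r * (kw * w + 2) := ⟨_, rfl⟩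
  have hV2' : 2 * V2 ≤ 2 * V₁ * E + c / 8 * (kw + 2) * E := by
    have e1 : c / 16 * r * (kw * w + 2) = c / 16 * kw * (r * w) + c / 8 * r := by ring
    rw [hV2, e1, hrw]
    have : r ≤ E := by linarith
    nlinarith
  rw [← hV2] at key
  have h4 : (4 : ℝ) ≤ Real.exp 2 := by
    have h5 := Real.add_one_le_exp (1 : ℝ)
    have h6 : Real.exp 2 = Real.exp 1 * Real.exp 1 := by rw [← Real.exp_add]; norm_num
    rw [h6]
    nlinarith
  have hc0s : c0s μ s Γ ≤ Real.exp L₀ := by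
    rw [← hKL, hK₀]
    unfold c0s
    have a1 : Real.exp (|s| + |Γ.h|) ≤ Real.exp (|s| + 1) := Real.exp_le_exp.2 (by linarith)
    have a2 : Real.exp (|lam μ s| + |Γ.h| * |sl μ s|) ≤ Real.exp (|lam μ s| + 1) := by
      refine Real.exp_le_exp.2 ?_
      have : |Γ.h| * |sl μ s| ≤ 1 := by
        rw [abs_of_pos hs0]
        exact mul_le_one₀ hh2 hs0.le hs1.le
      linarith
    exact mul_le_mul (by linarith) a2 (Real.exp_pos _).le (by positivity)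
  have hLE : L₀ ≤ L₀ * E := le_mul_of_one_le_right hL0 hE1
  refine KiB_mono g.pos ?_ ?_ key
  · calc c0s μ s Γ * (4 * Real.exp (2 * V2)) ≤ Real.exp L₀ * (Real.exp 2 * Real.exp (2 * V2)) :=
          mul_le_mul hc0s (mul_le_mul_of_nonneg_right h4 (Real.exp_pos _).le) (by positivity) (Real.exp_pos _).le
      _ = Real.exp (L₀ + (2 + 2 * V2)) := by rw [Real.exp_add, Real.exp_add]
      _ ≤ Real.exp ((2 * V₁ + (L₀ + 2 + 4 * C + c * (kw + 2))) * E) := by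
          refine Real.exp_le_exp.2 ?_
          have a1 : (2 : ℝ) ≤ 2 * E := by linarith
          have a2 : 0 ≤ 4 * C * E := by positivity
          have a3 : c / 8 * (kw + 2) * E ≤ c * (kw + 2) * E := by
            have : 0 ≤ c * (kw + 2) * E := by positivity
            linarith
          linarith
  · have hcard : ((e - a : ℕ) : ℝ) * (((e - a : ℕ) : ℝ) + 1) ≤ Real.exp (4 * C * E) := by
      have hT0 : (0 : ℝ) < T := by exact_mod_cast (by omega : 0 < T)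
      have hT2' : (2 : ℝ) ≤ T := by exact_mod_cast hT2
      have b1 : ((e - a : ℕ) : ℝ) ≤ (T : ℝ) + 1 := by
        have : e - a ≤ T + 1 := by omega
        exact_mod_cast this
      have b0 : (0 : ℝ) ≤ ((e - a : ℕ) : ℝ) := Nat.cast_nonneg _
      have b2 : (T : ℝ) + 2 ≤ (T : ℝ) ^ 2 := by nlinarith
      have b3 : ((e - a : ℕ) : ℝ) * (((e - a : ℕ) : ℝ) + 1) ≤ (T : ℝ) ^ 2 * (T : ℝ) ^ 2 :=
        mul_le_mul (by linarith) (by linarith) (by linarith) (by positivity)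
      have b4 : (T : ℝ) ^ 2 * (T : ℝ) ^ 2 = Real.exp (4 * Real.log T) := by
        have : Real.exp (4 * Real.log T) = Real.exp (Real.log T) ^ 4 := by
          rw [← Real.exp_nat_mul]
          norm_num
        rw [this, Real.exp_log hT0]
        ring
      rw [b4] at b3
      exact b3.trans (Real.exp_le_exp.2 (by linarith))
    calc (((e - a : ℕ) : ℝ) * (((e - a : ℕ) : ℝ) + 1)) * (4 * Real.exp (2 * V2 - c / 2 * r * (b * w - kw * w - 2)))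
        ≤ Real.exp (4 * C * E) * (Real.exp 2 * Real.exp (2 * V2 - c / 2 * r * (b * w - kw * w - 2))) :=
          mul_le_mul hcard (mul_le_mul_of_nonneg_right h4 (Real.exp_pos _).le) (by positivity) (Real.exp_pos _).le
      _ = Real.exp (4 * C * E + (2 + (2 * V2 - c / 2 * r * (b * w - kw * w - 2)))) := by rw [Real.exp_add, Real.exp_add]
      _ ≤ Real.exp ((2 * V₁ + (L₀ + 2 + 4 * C + c * (kw + 2)) - c / 2 * b) * E) := by
          refine Real.exp_le_exp.2 ?_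
          have e1 : c / 2 * r * (b * w - kw * w - 2) = c / 2 * b * (r * w) - c / 2 * kw * (r * w) - c * r := by ring
          rw [e1, hrw]
          have a1 : (2 : ℝ) ≤ 2 * E := by linarith
          have a2 : 0 ≤ L₀ * E := by positivity
          have a3 : c * r ≤ c / 2 * E := by nlinarith
          have a4 : c / 8 * (kw + 2) * E + c / 2 * kw * E + c / 2 * E ≤ c * (kw + 2) * E := by
            have : 0 ≤ c * kw * E := by positivity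
            have : 0 ≤ c * E := by positivity
            nlinarith
          linarith

/-- **`KiB` FROM THE LEVELS** (unit `T u`, any base on the slope line). -/
theorem kib_far (h : In μ s c C n₀) {kw : ℝ} (hkw : 0 ≤ kw) (P : ℕ) : ∃ C₁ : ℝ, 0 < C₁ ∧ ∃ n₁ : ℕ, 1 ≤ n₁ ∧
    ∀ {θ K q b : ℝ} {N : ℕ} {Γ : Cx} {G : Gm} {u : ℕ} {γ : ℕ → ℤ → ℝ} {κ : ℤ × ℤ} {a e : ℕ} {o : Pt}, 0 ≤ q → 3 ≤ K → Γ.s = s →
      G.v = sl μ s → G.w u = wd μ s (G.T u) → G.kw = kw → |Γ.h| * wd μ s (G.T u) ≤ c / 8 * EE μ s (G.T u) → n₁ ≤ G.T u → kw + 1 ≤ b →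
      Gau μ s Γ γ → e ≤ Γ.N → e ≤ a + G.T u + 1 → o.2 = ⌊G.ctr u κ + G.v * (o.1 : ℝ)⌋ → o.1 ≤ (a : ℤ) → ((e - 1 : ℕ) : ℤ) ≤ o.1 + N →
      Far16 μ s c θ K (G.T u) N P o q ⊆
        KiB Γ G γ b (Real.exp (C₁ * (1 + q) ^ 2 * EE μ s (G.T u))) (Real.exp ((C₁ * (1 + q) ^ 2 - c / 2 * b) * EE μ s (G.T u))) u κ a e := by
  have hc0 := h.c0
  obtain ⟨Ck, hCk, n₁, hn₁, H⟩ := kib_up h hkw
  obtain ⟨C₂, hC₂, H2⟩ := far_22 (μ := μ) (s := s) (c := c) P (show 0 < c / 16 by positivity)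
  obtain ⟨n₂, hn₂⟩ := eventually_atTop.1 (h.tE.eventually_ge_atTop 1)
  refine ⟨2 * C₂ + Ck, by positivity, max n₁ n₂, hn₁.trans (le_max_left _ _),
    fun {θ K q b N Γ G u γ κ a e o} hq hK hs hv hw hkw' hh hT hb g he hae ho h1 h2 ω hω => ?_⟩
  have hE1 := hn₂ (G.T u) ((le_max_right _ _).trans hT)
  have hw1 : 1 ≤ wd μ s (G.T u) := by
    have := wd_ge_one h (hn₁.trans ((le_max_left _ _).trans hT))
    linarith
  have k1 := H2 (θ := θ) (K := K) (n := G.T u) hq hw1 hK h1 h2 hω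
  have k2 := H (V₁ := C₂ * (1 + q) ^ 2) (by positivity) hs hv hw hkw' hh ((le_max_left _ _).trans hT) hb g he hae ho k1
  have hq1 : 1 ≤ (1 + q) ^ 2 := one_le_pow₀ (by linarith)
  have k3 : 2 * (C₂ * (1 + q) ^ 2) + Ck ≤ (2 * C₂ + Ck) * (1 + q) ^ 2 := by nlinarith
  have hE0 : 0 ≤ EE μ s (G.T u) := by linarith
  exact KiB_mono g.pos (Real.exp_le_exp.2 (mul_le_mul_of_nonneg_right k3 hE0))
    (Real.exp_le_exp.2 (mul_le_mul_of_nonneg_right (by linarith) hE0)) k2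

/-- **THE PROBABILITY**, `V'` and `n₁` free of `b`. -/
theorem kib_prob (h : In μ s c C n₀) {ε kw : ℝ} (hε : 0 < ε) (hkw : 0 ≤ kw) : ∃ V' : ℝ, 0 < V' ∧ ∃ n₁ : ℕ, 1 ≤ n₁ ∧
    ∀ {b : ℝ} {Γ : Cx} {G : Gm} {u : ℕ} {γ : ℕ → ℤ → ℝ} {κ : ℤ × ℤ} {a e : ℕ}, Γ.s = s →
      G.v = sl μ s → G.w u = wd μ s (G.T u) → G.kw = kw → |Γ.h| * wd μ s (G.T u) ≤ c / 8 * EE μ s (G.T u) → n₁ ≤ G.T u → kw + 1 ≤ b →
      Gau μ s Γ γ → e ≤ Γ.N → e ≤ a + G.T u + 1 →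
      (law μ).real (KiB Γ G γ b (Real.exp (V' * EE μ s (G.T u))) (Real.exp ((V' - c / 2 * b) * EE μ s (G.T u))) u κ a e)ᶜ ≤ ε := by
  have hc0 := h.c0
  obtain ⟨Ck, hCk, n₁, hn₁, H⟩ := kib_up h hkw
  obtain ⟨V₁, hV₁, n₂, hn₂, H2⟩ := prob_22 h hε (show 0 < c / 16 by positivity)
  refine ⟨2 * V₁ + Ck, by positivity, max n₁ n₂, hn₁.trans (le_max_left _ _),
    fun {b Γ G u γ κ a e} hs hv hw hkw' hh hT hb g he hae => ?_⟩
  obtain ⟨o, ho⟩ : ∃ o : Pt, o = ((a : ℤ), ⌊G.ctr u κ + G.v * (((a : ℤ) : ℝ))⌋) := ⟨_, rfl⟩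
  have o1 : o.1 = (a : ℤ) := by rw [ho]
  have o2 : o.2 = ⌊G.ctr u κ + G.v * (o.1 : ℝ)⌋ := by rw [ho]
  have k1 := H (V₁ := V₁) (κ := κ) (o := o) hV₁.le hs hv hw hkw' hh ((le_max_left _ _).trans hT) hb g he hae o2
  exact (measureReal_mono (Set.compl_subset_compl.2 k1)).trans
    (H2 (G.T u) ((le_max_right _ _).trans hT) o a (e - 1) (by rw [o1]) (by rw [o1]; omega))

end

end Pool.Agent.W_7d29a1_C1.Ki52
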