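import Pool.Agent.W_7d29a1_C1.SepE98
import Pool.Agent.W_7d29a1_C1.KiP52

/-!
MP_7d29a1_pr, [C1] attractor route, SEP: THE RATIO OF THE CONCRETE WINDOW. (helper98)

* `nr98` : the record `Nr98` from its constants; `kiS98` : the upper kernels `UpS98`, `UpF98`, `UpT98` give the killed kernels `KiB` at
  any strip (helper52's `kib_up`); `loS98` : the lower kernels `LoE98`, `LoF98`, `LoT98` give `LoB` at any strip (helper18's `lw18_lob`);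
* `outT_tm98` : `OuT` gives `TmB`;
* **`lvR98`, `lrA98`, `lrT98`** : the typical set in helper22's `LvR`, the lucky set and the typical set in `LR`;
* **`ro98`** : the field `ro` of `In25`.
-/

set_option autoImplicit false

namespace Pool.Agent.W_7d29a1_C1.D98

open MeasureTheory ProbabilityTheory Finset Filter
open Pool.Agent.W_7d29a1_F hiding Bw G
open Pool.Agent.W_7d29a1_h4g Pool.Agent.W_7d29a1_H Pool.Agent.W_7d29a1_HS
open Pool.Agent.W_7d29a1_C1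
open Pool.Agent.W_7d29a1_C1.K91 (wt wt_pos)
open Pool.Agent.W_7d29a1_C1.S71 (Off gl)
open Pool.Agent.W_7d29a1_C1.H60
open Pool.Agent.W_7d29a1_C1.H75 (hc)
open Pool.Agent.W_7d29a1_C1.G37 (Gm)
open Pool.Agent.W_7d29a1_C1.BP58
open Pool.Agent.W_7d29a1_C1.GL18
open Pool.Agent.W_7d29a1_C1.P25 (RatW)
open Pool.Agent.W_7d29a1_C1.RB22
open Pool.Agent.W_7d29a1_C1.Up52 (Up22 lo52 upS_22)

noncomputable section

/-- **THE RECORD FROM ITS CONSTANTS**, unit `EE (T u)`: strip `b`, killed kernels `exp (al E)`, exits `exp ((al - c b / 2) E)`, lower kernels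
`U₁`, own weights `Uw`, upper kernels of all the starts `V₁` (slope `c / 16`), strip `Re` and level `Qe` of the lower kernels. -/
def nr98 (μ : Measure ℝ) (s c : ℝ) (G : Gm) (b al U₁ Uw V₁ Re Qe : ℝ) : Nr98 where
  b _ := b
  A u := Real.exp (al * EE μ s (G.T u))
  X u := Real.exp ((al - c / 2 * b) * EE μ s (G.T u))
  U1 u := U₁ * EE μ s (G.T u)
  Uw u := Uw * EE μ s (G.T u)
  Vs u := V₁ * EE μ s (G.T u)
  sV u := c / 16 * (EE μ s (G.T u) / wd μ s (G.T u))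
  Re := Re
  Qe := Qe

variable {μ : Measure ℝ} {s c C : ℝ} {n₀ : ℕ} {Γ : Cx} {G : Gm} {P : Nm98} {R : Nr98} {u : ℕ} {κ : ℤ × ℤ}

theorem loB_mono98 {γ : ℕ → ℤ → ℝ} (hγ : ∀ k y, 0 < γ k y) {b U U' : ℝ} (hU : U ≤ U') {a e : ℕ} :
    LoB Γ G γ b U u κ a e ⊆ LoB Γ G γ b U' u κ a e := fun ω h cc hc => by
  obtain ⟨J, h1, h2⟩ := h cc hc
  refine ⟨J, h1, le_trans ?_ h2⟩
  exact mul_le_mul_of_nonneg_right (Real.exp_le_exp.2 (by linarith)) (gB_pos hγ e ω _ _).le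

/-- **`OuT` gives the tame masses of the strip.** -/
theorem outT_tm98 {E : ℕ → ℝ} {r x sg b : ℝ} (hb : b * G.w u + 1 ≤ r * G.w u) :
    Ou37.OuT μ s Γ G E r x sg u κ ⊆ TmB Γ G (Ou37.gam μ s Γ) b (x * E u + sg) u κ (G.ra u κ - 1) (G.re u κ) := by
  intro ω h c c' h1 h2 h3 h4 h5 h6
  have key := h c ⟨by omega, h2, h5.trans hb⟩ c' ⟨by omega, h4, h6.trans hb⟩
  rw [Ou37.bn_eq, Ou37.bn_eq] at key
  exact key

theorem up1_98 : UpS98 μ s c Γ G P R u κ ⊆ Up22 μ s (hc μ s c (G.T u)) (R.Vs u) (R.sV u) (lo52 μ s (pt98 G u κ (G.ra u κ - 1)))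
    (G.ra u κ - 1) (rf98 Γ G P u κ - 1) := by
  refine upS_22 (le_refl _) ?_
  have h3 := ra_le_rl98 (Γ := Γ) (G := G) (P := P) (u := u) (κ := κ)
  show ((rl98 Γ G P u κ + 1 - 1 : ℕ) : ℤ) ≤ ((G.ra u κ - 1 : ℕ) : ℤ) + ((rl98 Γ G P u κ - (G.ra u κ - 1) : ℕ) : ℤ)
  omega

theorem upF_98 (hF : Fit98 G P u) : UpF98 μ s c Γ G P R u κ ⊆ Up22 μ s (hc μ s c (G.T u)) (R.Vs u) (R.sV u)
    (lo52 μ s (pt98 G u κ (rl98 Γ G P u κ))) (rl98 Γ G P u κ) (G.re u κ - 1) := by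
  refine upS_22 (le_refl _) ?_
  have h3 := rl_T98 (Γ := Γ) (κ := κ) hF
  show ((G.re u κ - 1 : ℕ) : ℤ) ≤ ((rl98 Γ G P u κ : ℕ) : ℤ) + ((G.re u κ - 1 - rl98 Γ G P u κ : ℕ) : ℤ)
  omega

theorem upT_98 (hF : Fit98 G P u) : UpT98 μ s c Γ G P R u κ ⊆ Up22 μ s (hc μ s c (G.T u)) (R.Vs u) (R.sV u)
    (lo52 μ s (pt98 G u κ (b98 Γ G P u κ))) (b98 Γ G P u κ) (G.re u κ - 1) := by
  refine upS_22 (le_refl _) ?_
  have h3 := b98_T (Γ := Γ) (κ := κ) hF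
  show ((G.re u κ - 1 : ℕ) : ℤ) ≤ ((b98 Γ G P u κ : ℕ) : ℤ) + ((G.re u κ - 1 - b98 Γ G P u κ : ℕ) : ℤ)
  omega

/-- **THE KILLED KERNELS FROM THE UPPER KERNELS**, any strip. -/
theorem kiS98 [IsProbabilityMeasure μ] (h : In μ s c C n₀) {kw : ℝ} (hkw : 0 ≤ kw) : ∃ Ck : ℝ, 0 < Ck ∧ ∃ n₁ : ℕ, 1 ≤ n₁ ∧
    ∀ {V₁ b : ℝ} {Γ : Cx} {G : Gm} {P : Nm98} {R : Nr98} {u : ℕ} {κ : ℤ × ℤ}, 0 ≤ V₁ → Γ.s = s → G.v = sl μ s →
      G.w u = wd μ s (G.T u) → G.kw = kw → |Γ.h| * wd μ s (G.T u) ≤ c / 8 * EE μ s (G.T u) → n₁ ≤ G.T u → kw + 1 ≤ b →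
      G.re u κ ≤ Γ.N → Fit98 G P u → R.Vs u = V₁ * EE μ s (G.T u) → R.sV u = c / 16 * (EE μ s (G.T u) / wd μ s (G.T u)) →
      UpS98 μ s c Γ G P R u κ ⊆ KiB Γ G (Ou37.gam μ s Γ) b (Real.exp ((2 * V₁ + Ck) * EE μ s (G.T u)))
          (Real.exp ((2 * V₁ + Ck - c / 2 * b) * EE μ s (G.T u))) u κ (G.ra u κ - 1) (rf98 Γ G P u κ) ∧
        UpF98 μ s c Γ G P R u κ ⊆ KiB Γ G (Ou37.gam μ s Γ) b (Real.exp ((2 * V₁ + Ck) * EE μ s (G.T u)))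
          (Real.exp ((2 * V₁ + Ck - c / 2 * b) * EE μ s (G.T u))) u κ (rl98 Γ G P u κ) (G.re u κ) ∧
        UpT98 μ s c Γ G P R u κ ⊆ KiB Γ G (Ou37.gam μ s Γ) b (Real.exp ((2 * V₁ + Ck) * EE μ s (G.T u)))
          (Real.exp ((2 * V₁ + Ck - c / 2 * b) * EE μ s (G.T u))) u κ (b98 Γ G P u κ) (G.re u κ) := by
  obtain ⟨Ck, hCk, n₁, hn₁, H⟩ := Ki52.kib_up h hkw
  refine ⟨Ck, hCk, n₁, hn₁, fun {V₁ b Γ G P R u κ} hV hs hv hw hk hh hT hb hN hF e1 e2 => ?_⟩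
  have h1 := b98_T (Γ := Γ) (κ := κ) hF
  have h2 := rl_le_b98 (Γ := Γ) (G := G) (P := P) (u := u) (κ := κ)
  have h3 := ra_le_rl98 (Γ := Γ) (G := G) (P := P) (u := u) (κ := κ)
  have key : ∀ a e : ℕ, G.ra u κ - 1 ≤ a → e ≤ G.re u κ →
      Up22 μ s (hc μ s c (G.T u)) (R.Vs u) (R.sV u) (lo52 μ s (pt98 G u κ a)) a (e - 1) ⊆
        KiB Γ G (Ou37.gam μ s Γ) b (Real.exp ((2 * V₁ + Ck) * EE μ s (G.T u)))
          (Real.exp ((2 * V₁ + Ck - c / 2 * b) * EE μ s (G.T u))) u κ a e := by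
    intro a e ha he
    rw [e1, e2]
    refine H hV hs hv hw hk hh hT hb (Ki52.gau_gam Γ) (he.trans hN) (Ki52.blk_len ha he) ?_
    show ⌊G.ctr u κ + G.v * (a : ℝ)⌋ = ⌊G.ctr u κ + G.v * (((a : ℤ) : ℝ))⌋
    rw [Int.cast_natCast]
  refine ⟨up1_98.trans (key _ _ le_rfl ?_), (upF_98 hF).trans (key _ _ h3 le_rfl), (upT_98 hF).trans (key _ _ (h3.trans h2) le_rfl)⟩
  unfold rf98
  omega

/-- **THE LOWER KERNELS**, any strip. -/
theorem loS98 [IsProbabilityMeasure μ] (h : In μ s c C n₀) : ∃ n₁ : ℕ, 1 ≤ n₁ ∧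
    ∀ {b : ℝ} {Γ : Cx} {G : Gm} {P : Nm98} {R : Nr98} {u : ℕ} {κ : ℤ × ℤ}, Γ.s = s → G.v = sl μ s → 0 ≤ G.rcc u κ →
      G.w u = wd μ s (G.T u) → |Γ.h| * wd μ s (G.T u) ≤ c / 8 * EE μ s (G.T u) → n₁ ≤ G.T u → 0 ≤ R.Re → R.Re + 1 ≤ b →
      G.re u κ ≤ Γ.N → Fit98 G P u →
      LoE98 μ s Γ G P R u κ ⊆ LoB Γ G (Ou37.gam μ s Γ) b ((R.Qe + c / 8 * (R.Re + G.kw) + 1) * EE μ s (G.T u)) u κ (G.ra u κ - 1)
          (rf98 Γ G P u κ) ∧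
        LoF98 μ s Γ G P R u κ ⊆ LoB Γ G (Ou37.gam μ s Γ) b ((R.Qe + c / 8 * (R.Re + G.kw) + 1) * EE μ s (G.T u)) u κ (rl98 Γ G P u κ)
          (G.re u κ) ∧
        LoT98 μ s Γ G P R u κ ⊆ LoB Γ G (Ou37.gam μ s Γ) b ((R.Qe + c / 8 * (R.Re + G.kw) + 1) * EE μ s (G.T u)) u κ (b98 Γ G P u κ)
          (G.re u κ) := by
  obtain ⟨n₂, hn₂⟩ := eventually_atTop.1 (h.tE.eventually_ge_atTop (1 + |lam μ s| + 1))
  refine ⟨max n₂ 2, (by omega : 1 ≤ 2).trans (le_max_right _ _), fun {b Γ G P R u κ} hs hv h0 hw hh hT hR hRb hN hF => ?_⟩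
  obtain ⟨E, hE⟩ : ∃ E, E = EE μ s (G.T u) := ⟨_, rfl⟩
  have hE1 : 1 + |lam μ s| + 1 ≤ E := by rw [hE]; exact hn₂ _ ((le_max_left _ _).trans hT)
  have hT2 : 2 ≤ G.T u := (le_max_right _ _).trans hT
  have hla := abs_nonneg (lam μ s)
  have hw2 : 2 * E ≤ G.w u := by rw [hw, hE]; exact wd_ge_one h (by omega)
  rw [← hw, ← hE] at hh
  rw [← hE]
  have hs0 := h.sl_pos
  have hs1 := h.sl_lt
  have hc1 := h.c1
  have hc0 := h.c0
  have hha := abs_nonneg Γ.h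
  have hh1 : |Γ.h| ≤ 1 / 16 := by
    have h1 : |Γ.h| * (2 * E) ≤ 1 / 8 * E := by
      have h2 := mul_le_mul_of_nonneg_left hw2 hha
      have h3 : c / 8 * E ≤ 1 / 8 * E := mul_le_mul_of_nonneg_right (by linarith) (by linarith)
      linarith
    have hE0 : 0 < E := by linarith
    by_contra hcon
    have h4 := mul_lt_mul_of_pos_right (not_le.1 hcon) hE0
    linarith
  have hU : R.Qe * EE μ s (G.T u) + |Γ.h| * (R.Re * G.w u + G.kw * G.w u + 3) + |lam μ s| + |Γ.h * sl μ s| ≤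
      (R.Qe + c / 8 * (R.Re + G.kw) + 1) * E := by
    rw [← hE]
    have e1 : |Γ.h| * (R.Re * G.w u + G.kw * G.w u + 3) = (|Γ.h| * G.w u) * (R.Re + G.kw) + 3 * |Γ.h| := by ring
    have e2 : |Γ.h * sl μ s| ≤ 1 / 16 := by
      rw [abs_mul, abs_of_pos hs0]
      have := mul_le_mul hh1 hs1.le hs0.le (by norm_num : (0 : ℝ) ≤ 1 / 16)
      linarith
    have e3 : (|Γ.h| * G.w u) * (R.Re + G.kw) ≤ c / 8 * E * (R.Re + G.kw) := mul_le_mul_of_nonneg_right hh (by linarith [G.kw_nonneg])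
    have e4 : (R.Qe + c / 8 * (R.Re + G.kw) + 1) * E = R.Qe * E + c / 8 * E * (R.Re + G.kw) + E := by ring
    rw [e1, e4]
    linarith
  have hrb : R.Re * G.w u + 1 ≤ b * G.w u := by
    have h1 := mul_le_mul_of_nonneg_right hRb (G.w_pos u).le
    have h2 : 1 ≤ G.w u := by linarith
    have e : (R.Re + 1) * G.w u = R.Re * G.w u + G.w u := by ring
    linarith
  have hv0 : 0 ≤ G.v := by rw [hv]; exact hs0.le
  have hv1 : G.v ≤ 1 := by rw [hv]; exact hs1.le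
  have h1 := b98_T (Γ := Γ) (κ := κ) hF
  have h2 := rl_le_b98 (Γ := Γ) (G := G) (P := P) (u := u) (κ := κ)
  have h3 := ra_le_rl98 (Γ := Γ) (G := G) (P := P) (u := u) (κ := κ)
  have h4 := ra_pos98 (G := G) (u := u) (κ := κ)
  have key : ∀ (a e : ℕ) (A : Set Pt), G.ra u κ - 1 ≤ a → e ≤ G.re u κ → Lw18 μ s G u κ a e R.Re A R.Qe ⊆
      LoB Γ G (Ou37.gam μ s Γ) b ((R.Qe + c / 8 * (R.Re + G.kw) + 1) * E) u κ a e := fun a e A ha he =>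
    lw18_lob hs hv (Ki52.gau_gam Γ) hv0 hv1 h0 (by omega) he (he.trans hN) hR hrb hU
  exact ⟨key _ _ _ le_rfl (by unfold rf98; omega), key _ _ _ h3 le_rfl, key _ _ _ (h3.trans h2) le_rfl⟩

theorem stB_sub98 {b b' U U' : ℝ} {e : ℕ} (hb : b' * G.w u ≤ b * G.w u) (hU : U ≤ U') : StB G b U u κ e ⊆ StB G b' U' u κ e :=
  fun _ h v hv => by
    have h1 := h v (hv.trans (by linarith))
    exact ⟨(Real.exp_le_exp.2 (by linarith)).trans h1.1, h1.2.trans (Real.exp_le_exp.2 hU)⟩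

/-- **THE FIELD `ro` OF `In25`**, at the strip `b`; `x₁` = the price of the tame masses on `|lat| ≤ R₁ w`. -/
theorem ro98 [IsProbabilityMeasure μ] (h : In μ s c C n₀) {kw : ℝ} (hkw : 0 ≤ kw) : ∃ Ck : ℝ, 0 < Ck ∧ ∃ n₁ : ℕ, 1 ≤ n₁ ∧
    ∀ {b al U₁ Uw V₁ Re Qe R₁ x₁ Cr : ℝ}, 0 ≤ V₁ → 0 ≤ Re → 0 ≤ Qe → 0 ≤ Uw → 0 ≤ x₁ → kw + 1 ≤ b → Re + 1 ≤ b → b + 1 ≤ R₁ →
      2 * V₁ + Ck ≤ al → Qe + c / 8 * (Re + kw) + 1 ≤ U₁ → 2 * al + 5 * (x₁ + 1 / 16 + Uw) + U₁ + 2 ≤ c / 2 * b →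
      2 * (2 + 2 * al + 5 * (x₁ + 1 / 16 + Uw) + U₁) ≤ Cr →
      ∀ {Γ : Cx} {G : Gm} {P : Nm98} {mt τ0 : ℕ} {E dR smax : ℕ → ℝ} {Ou St Fw : ℝ → ℕ → ℤ × ℤ → Set Env}, Γ.s = s → G.v = sl μ s →
        G.kw = kw → G.M ≤ mt → (∀ u, τ0 < u → n₁ ≤ G.T u) → (∀ u, τ0 < u → G.w u = wd μ s (G.T u)) →
        (∀ u, τ0 < u → u < G.M → |Γ.h| * wd μ s (G.T u) ≤ c / 8 * EE μ s (G.T u)) → (∀ u, τ0 < u → Fit98 G P u) →
        (∀ u, E u = EE μ s (G.T u)) → (∀ u, τ0 < u → 0 ≤ smax u) → (∀ u, τ0 < u → smax u ≤ E u / 16) → (∀ u, τ0 < u → Cr * E u ≤ dR u) →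
        (∀ u κ, τ0 < u → u < G.M → Ou (smax u) u κ ⊆ Ou37.OuT μ s Γ G E R₁ x₁ (smax u) u κ) →
        RatW Γ G mt τ0 dR smax (P25.TT25 (LvA98 μ s c Γ G P (nr98 μ s c G b al U₁ Uw V₁ Re Qe)) Ou St Fw)
          (LuA98 μ s c Γ G P (nr98 μ s c G b al U₁ Uw V₁ Re Qe)) := by
  obtain ⟨Ck, hCk, n₂, hn₂, HK⟩ := kiS98 h hkw
  obtain ⟨n₃, hn₃, HL⟩ := loS98 h
  obtain ⟨n₄, hn₄⟩ := eventually_atTop.1 (h.tE.eventually_ge_atTop 1)
  refine ⟨Ck, hCk, max n₂ (max n₃ (max n₄ 2)), hn₂.trans (le_max_left _ _), ?_⟩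
  intro b al U₁ Uw V₁ Re Qe R₁ x₁ Cr hV hRe hQe hUw hx₁ hbk hbR hbR₁ hal hU₁ hnum hCr Γ G P mt τ0 E dR smax Ou St Fw hs hv hk hM hT hw hh hF
    hE hs0 hs1 hdR hOu u κ hu huM hκ ω hω η hη
  have hT' := hT u hu
  have hTn₂ : n₂ ≤ G.T u := (le_max_left _ _).trans hT'
  have hTn₃ : n₃ ≤ G.T u := ((le_max_left _ _).trans (le_max_right _ _)).trans hT'
  have hTn₄ : n₄ ≤ G.T u := (((le_max_left _ _).trans (le_max_right _ _)).trans (le_max_right _ _)).trans hT'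
  have hT2 : 2 ≤ G.T u := (((le_max_right _ _).trans (le_max_right _ _)).trans (le_max_right _ _)).trans hT'
  have hE1 : 1 ≤ E u := by rw [hE]; exact hn₄ _ hTn₄
  have hwu := hw u hu
  have hw2 : 2 * E u ≤ G.w u := by rw [hwu, hE]; exact wd_ge_one h (by omega)
  have hw2' : 2 ≤ G.w u := by linarith
  have hw0 := G.w_pos u
  have hv0 : 0 ≤ G.v := by rw [hv]; exact h.sl_pos.le
  have hv1 : G.v ≤ 1 := by rw [hv]; exact h.sl_lt.le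
  have h0 : 0 ≤ G.rcc u κ := by
    obtain ⟨cc, -, hcκ⟩ := hκ
    rw [← hcκ]
    exact (G.rcc_pos u cc).le
  have he : G.re u κ ≤ Γ.N := Ou37.re_le_N hM huM hκ
  have hb0 : 0 ≤ b := by linarith
  have hbw : G.kw * G.w u + 2 ≤ b * G.w u := by
    have h1 := mul_le_mul_of_nonneg_right hbk hw0.le
    rw [hk]
    have e : (kw + 1) * G.w u = kw * G.w u + G.w u := by ring
    linarith
  have hbr : b * G.w u + 1 ≤ R₁ * G.w u := by
    have h1 := mul_le_mul_of_nonneg_right hbR₁ hw0.le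
    have e : (b + 1) * G.w u = b * G.w u + G.w u := by ring
    linarith
  have hfit := hF u hu
  have hra : G.ra u κ ≤ rf98 Γ G P u κ := by
    have h1 := ra_le_rl98 (Γ := Γ) (G := G) (P := P) (u := u) (κ := κ)
    unfold rf98
    omega
  have hre : rf98 Γ G P u κ ≤ G.re u κ := by
    have h1 := b98_T (Γ := Γ) (κ := κ) hfit
    have h2 := rl_le_b98 (Γ := Γ) (G := G) (P := P) (u := u) (κ := κ)
    unfold rf98
    omega
  obtain ⟨k1, k2, -⟩ := HK (V₁ := V₁) (b := b) (Γ := Γ) (G := G) (P := P) (R := nr98 μ s c G b al U₁ Uw V₁ Re Qe) (u := u) (κ := κ)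
    hV hs hv hwu hk (hh u hu huM) hTn₂ hbk he hfit rfl rfl
  obtain ⟨l1, -, -⟩ := HL (b := b) (Γ := Γ) (G := G) (P := P) (R := nr98 μ s c G b al U₁ Uw V₁ Re Qe) (u := u) (κ := κ)
    hs hv h0 hwu (hh u hu huM) hTn₃ hRe hbR he hfit
  rw [← hE] at k1 k2 l1
  have hA : Real.exp ((2 * V₁ + Ck) * E u) ≤ Real.exp (al * E u) :=
    Real.exp_le_exp.2 (mul_le_mul_of_nonneg_right hal (by linarith))
  have hX : Real.exp ((2 * V₁ + Ck - c / 2 * b) * E u) ≤ Real.exp ((al - c / 2 * b) * E u) :=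
    Real.exp_le_exp.2 (mul_le_mul_of_nonneg_right (by linarith) (by linarith))
  have hL : (Qe + c / 8 * (Re + G.kw) + 1) * E u ≤ U₁ * E u := mul_le_mul_of_nonneg_right (by rw [hk]; exact hU₁) (by linarith)
  have hω' : ω ∈ LvA98 μ s c Γ G P (nr98 μ s c G b al U₁ Uw V₁ Re Qe) u κ ∩ (Ou (smax u) u κ ∩ (St (smax u) u κ ∩ Fw (smax u) u κ)) := hω
  have hOm : ω ∈ LvR Γ G (Ou37.gam μ s Γ) b (Real.exp (al * E u)) (Real.exp ((al - c / 2 * b) * E u)) (Uw * E u) u κ (rf98 Γ G P u κ) :=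
    LvA_R98 (k1.trans (Ki52.KiB_mono gam_pos98 hA hX)) (k2.trans (Ki52.KiB_mono gam_pos98 hA hX))
      (fun e => stB_sub98 (le_refl _) (by rw [hE]; exact le_refl _)) hω'.1
  have hTm := outT_tm98 (b := b) hbr (hOu u κ hu huM hω'.2.1)
  have hNew : G.R u κ η ω ∈ LR Γ G (Ou37.gam μ s Γ) b (Real.exp (al * E u)) (Real.exp ((al - c / 2 * b) * E u)) (U₁ * E u) u κ
      (rf98 Γ G P u κ) := by
    have h1 := LuA_R98 (R := nr98 μ s c G b al U₁ Uw V₁ Re Qe) (Γ := Γ) (P := P) (u := u) (κ := κ) (c := c) (μ := μ) (s := s) (G := G)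
      (by
        show UpS98 μ s c Γ G P (nr98 μ s c G b al U₁ Uw V₁ Re Qe) u κ ⊆ KiB Γ G (Ou37.gam μ s Γ) b (Real.exp (al * EE μ s (G.T u)))
          (Real.exp ((al - c / 2 * b) * EE μ s (G.T u))) u κ (G.ra u κ - 1) (rf98 Γ G P u κ)
        rw [← hE]
        exact k1.trans (Ki52.KiB_mono gam_pos98 hA hX))
      (by
        show LoE98 μ s Γ G P (nr98 μ s c G b al U₁ Uw V₁ Re Qe) u κ ⊆ LoB Γ G (Ou37.gam μ s Γ) b (U₁ * EE μ s (G.T u)) u κ (G.ra u κ - 1)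
          (rf98 Γ G P u κ)
        rw [← hE]
        exact l1.trans (loB_mono98 gam_pos98 hL)) hη
    have h2 : G.R u κ η ω ∈ LR Γ G (Ou37.gam μ s Γ) b (Real.exp (al * EE μ s (G.T u))) (Real.exp ((al - c / 2 * b) * EE μ s (G.T u)))
      (U₁ * EE μ s (G.T u)) u κ (rf98 Γ G P u κ) := h1
    rwa [← hE] at h2
  have hc0 := h.c0
  have hU₁0 : 0 ≤ U₁ := by
    have : 0 ≤ c / 8 * (Re + kw) := by positivity
    linarith
  have hal0 : 0 ≤ al := by linarith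
  have hsu0 := hs0 u hu
  have hsu := hs1 u hu
  obtain ⟨q, hq⟩ : ∃ q : ℝ, q = x₁ * E u + E u / 16 + Uw * E u := ⟨_, rfl⟩
  have key := (two_pair (d := 2 + 2 * (al * E u) + 5 * q + U₁ * E u) gam_pos98 hv0 hv1 h0 hbw (mul_nonneg hb0 hw0.le) hra hre he
    (mul_nonneg hal0 (by linarith)) (add_nonneg (mul_nonneg hx₁ (by linarith)) hsu0) (mul_nonneg hUw (by linarith))
    (by rw [hq]; linarith) (mul_nonneg hU₁0 (by linarith)) le_rfl (Real.exp_pos _).le ?_ le_rfl hTm hOm hNew).2.2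
  · refine key.mono (wt_pos _) (wt_pos _) Γ.p_pos (Real.exp_le_exp.2 ?_)
    refine le_trans ?_ (hdR u hu)
    have h1 := mul_le_mul_of_nonneg_right hCr (show (0 : ℝ) ≤ E u by linarith)
    have e : 2 * (2 + 2 * al + 5 * (x₁ + 1 / 16 + Uw) + U₁) * E u =
        4 * E u + 4 * (al * E u) + 10 * (x₁ * E u + E u / 16 + Uw * E u) + 2 * (U₁ * E u) := by ring
    rw [hq]
    linarith
  · rw [← Real.exp_add]
    have e1 : (al - c / 2 * b) * E u + (1 + al * E u + 5 * q + U₁ * E u) ≤ -1 := by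
      have h1 := mul_le_mul_of_nonneg_right hnum (show (0 : ℝ) ≤ E u by linarith)
      have e : (2 * al + 5 * (x₁ + 1 / 16 + Uw) + U₁ + 2) * E u =
          2 * (al * E u) + 5 * (x₁ * E u + E u / 16 + Uw * E u) + U₁ * E u + 2 * E u := by ring
      have e' : (al - c / 2 * b) * E u = al * E u - c / 2 * b * E u := by ring
      rw [hq, e']
      linarith
    have e2 : Real.exp (-1) ≤ 1 / 2 := by
      rw [Real.exp_neg, inv_le_comm₀ (Real.exp_pos _) (by norm_num)]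
      have := Real.add_one_le_exp (1 : ℝ)
      norm_num at this ⊢
      linarith
    exact (Real.exp_le_exp.2 e1).trans e2

end

end Pool.Agent.W_7d29a1_C1.D98
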