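import Pool.Agent.W_7d29a1_C1.WrL41
import Pool.Agent.W_7d29a1_C1.WrO57
import Pool.Agent.W_7d29a1_C1.SepL98

/-!
MP_7d29a1_pr, attractor route [C1], SEP: THE FIELD `ro` OF `Lf49` IN THE FORM `Evn`, at the concrete sets `LvA98`, `Lx53 (LuA98)`, for any
`Ou` in helper37's `OuT` at the radius `R₁` (`Ou5` of WrO57: the last factor), any `St`, `Fw`. From helper98's `ro98` (SepL98), helper57's
tilt (WrO57). (helper41)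
-/

set_option autoImplicit false

namespace Pool.Agent.W_7d29a1_C1.Q49

open Finset MeasureTheory Filter
open Pool.Agent.W_7d29a1_F hiding Bw G
open Pool.Agent.W_7d29a1_h4g Pool.Agent.W_7d29a1_H Pool.Agent.W_7d29a1_HS
open Pool.Agent.W_7d29a1_C1.H60
open Pool.Agent.W_7d29a1_C1.H40 (Tk)
open Pool.Agent.W_7d29a1_C1.G37 (Gm Wok gmW)
open Pool.Agent.W_7d29a1_C1.SF98
open Pool.Agent.W_7d29a1_C1.P25
open Pool.Agent.W_7d29a1_C1.N49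
open Pool.Agent.W_7d29a1_C1.D98
open Pool.Agent.W_7d29a1_C1.SD53
open scoped ENNReal

noncomputable section

/-- The numbers of the ratio from constants. -/
abbrev nrC41 (μ : Measure ℝ) (s c b al U₁ Uw V₁ Re Qe : ℝ) : NrF := fun _ G _ => nr98 μ s c G b al U₁ Uw V₁ Re Qe

/-- What `ro` asks of the constants: `Ck` = the constant of `ro98` (it depends on `kw`). -/
structure RoC41 (c kw Ck Cr b al U₁ Uw V₁ Re Qe R₁ x₁ : ℝ) : Prop where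
  V0 : 0 ≤ V₁
  Re0 : 0 ≤ Re
  Qe0 : 0 ≤ Qe
  Uw0 : 0 ≤ Uw
  x0 : 0 ≤ x₁
  kb : kw + 1 ≤ b
  Rb : Re + 1 ≤ b
  bR : b + 1 ≤ R₁
  al_ge : 2 * V₁ + Ck ≤ al
  U_ge : Qe + c / 8 * (Re + kw) + 1 ≤ U₁
  b_ge : 2 * al + 5 * (x₁ + 1 / 16 + Uw) + U₁ + 2 ≤ c / 2 * b
  Cr_ge : 2 * (2 + 2 * al + 5 * (x₁ + 1 / 16 + Uw) + U₁) ≤ Cr

variable {μ : Measure ℝ} {s c C : ℝ} {n₀ : ℕ}

/-- **THE FIELD `ro`.** -/
theorem evn_ro41 [IsProbabilityMeasure μ] (hI : In μ s c C n₀) (hE9 : ∀ᶠ n : ℕ in atTop, (n : ℝ) ^ (1 / 9 : ℝ) ≤ EE μ s n) {kw : ℝ}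
    (hkw : 0 ≤ kw) : ∃ Ck : ℝ, 0 < Ck ∧ ∀ {P : Pre} {D : Dat} {b al U₁ Uw V₁ Re Qe R₁ x₁ : ℝ}, P.kw = kw →
      RoC41 c kw Ck P.Cr b al U₁ Uw V₁ Re Qe R₁ x₁ → ∀ {N : NmF}, OkE41 P D μ s N (nrC41 μ s c b al U₁ Uw V₁ Re Qe) →
      ∀ (bb Q1 : (ℕ → ℝ) → ℕ → ℝ) (Ou St Fw : Cx → Gm → (ℕ → ℝ) → ℝ → ℕ → ℤ × ℤ → Set Env),
      (∀ Γ G E sg u κ, Ou Γ G E sg u κ ⊆ Ou37.OuT μ s Γ G E R₁ x₁ sg u κ) →
      Evn P D μ s fun _ _ _ _ _ Γ G mt τ0 E => RatW Γ G mt τ0 (fun u => P.Cr * E u) (fun u => E u / 16)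
        (TT25 (LvA98 μ s c Γ G (N Γ G E) (nrC41 μ s c b al U₁ Uw V₁ Re Qe Γ G E)) (Ou Γ G E) (St Γ G E) (Fw Γ G E))
        (LuX41 μ s c N (nrC41 μ s c b al U₁ Uw V₁ Re Qe) bb Q1 Γ G E) := by
  obtain ⟨Ck, hCk, n₁, hn₁, H⟩ := ro98 hI hkw
  refine ⟨Ck, hCk, fun {P D b al U₁ Uw V₁ Re Qe R₁ x₁} hk hr {N} hok bb Q1 Ou St Fw hOu => ?_⟩
  have hT : Evn P D μ s fun _ _ _ _ _ _ G _ _ _ => ∀ u, n₁ ≤ G.T u := Evn.of_T041 ⟨n₁, fun q m2 η A lam m0 g1 e0 c₂ δ κ n Γ T0 M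
    mt τ0 hc hW h1 _ _ u => by
      have h2 : T0 * 1 ≤ T0 * D.K ^ u := Nat.mul_le_mul_left _ (Nat.one_le_pow _ _ (by have := D.hK; omega))
      have h3 : (P.G hW M m0 g1 m2 hc.h1 hc.h2).T u = T0 * D.K ^ u := rfl
      omega⟩
  refine (((WO57.evn_tilt (P := P) (D := D) hI hE9 (ε₀ := c / 8) (by have := hI.c0; linarith)).and (hok.ok.and hT))).monoG ?_
  intro q m2 η A lam m0 g1 e0 c₂ δ κ n Γ T0 M mt τ0 hc hW _ _ _ _ _ _ _ _ hg hG h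
  refine roX41 ?_
  refine H hr.V0 hr.Re0 hr.Qe0 hr.Uw0 hr.x0 hr.kb hr.Rb hr.bR hr.al_ge hr.U_ge hr.b_ge hr.Cr_ge hc.adm.hs rfl hk ?_
    (fun u _ => h.2.2 u) (fun u _ => rfl) (fun u _ hu => ?_) h.2.1.fit (fun u => rfl) (fun u _ => ?_) (fun u _ => le_rfl)
    (fun u _ => le_rfl) (fun u κ' _ _ => hOu _ _ _ _ _ _)
  · have := hc.mt_ge
    show M ≤ mt
    omega
  · have h1 : u < M := hu
    exact (h.1 u (by have := hc.mt_ge; omega)).1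
  · exact div_nonneg (hg.pos u).le (by norm_num)

/-- **THE FIELD `ro` AT `Ou5`** (row 694; the last factor has the radius `R₁`). -/
theorem evn_roF41 [IsProbabilityMeasure μ] (hI : In μ s c C n₀) (hE9 : ∀ᶠ n : ℕ in atTop, (n : ℝ) ^ (1 / 9 : ℝ) ≤ EE μ s n) {kw : ℝ}
    (hkw : 0 ≤ kw) : ∃ Ck : ℝ, 0 < Ck ∧ ∀ {P : Pre} {D : Dat} {b al U₁ Uw V₁ Re Qe R₁ x₁ : ℝ}, P.kw = kw →
      RoC41 c kw Ck P.Cr b al U₁ Uw V₁ Re Qe R₁ x₁ → ∀ {N : NmF}, OkE41 P D μ s N (nrC41 μ s c b al U₁ Uw V₁ Re Qe) →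
      ∀ (bb Q1 : (ℕ → ℝ) → ℕ → ℝ) (rc Qc Q4c sgc r0 Qr Q4r sgr R0 x0 R2 x2 : ℝ) (a' b' gf : ℝ),
      Evn P D μ s fun _ _ _ _ _ Γ G mt τ0 E => RatW Γ G mt τ0 (fun u => P.Cr * E u) (fun u => E u / 16)
        (TT25 (LvA98 μ s c Γ G (N Γ G E) (nrC41 μ s c b al U₁ Uw V₁ Re Qe Γ G E))
          (WO57.Ou5 μ s rc Qc Q4c sgc r0 Qr Q4r sgr R0 x0 R2 x2 R₁ x₁ Γ G E)
          (fun sg u κ => Sy78.St Γ G P.aS P.bS ((P.βc + 1 / 16) * E u - sg) u κ) (fun sg v κ => SD53.Fw Γ G a' b' (gf * E v - sg) v κ))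
        (LuX41 μ s c N (nrC41 μ s c b al U₁ Uw V₁ Re Qe) bb Q1 Γ G E) := by
  obtain ⟨Ck, hCk, H⟩ := evn_ro41 hI hE9 hkw
  refine ⟨Ck, hCk, fun {P D b al U₁ Uw V₁ Re Qe R₁ x₁} hk hr {N} hok bb Q1 rc Qc Q4c sgc r0 Qr Q4r sgr R0 x0 R2 x2 a' b' gf => ?_⟩
  exact H (D := D) hk hr hok bb Q1 (WO57.Ou5 μ s rc Qc Q4c sgc r0 Qr Q4r sgr R0 x0 R2 x2 R₁ x₁)
    (fun Γ G E sg u κ => Sy78.St Γ G P.aS P.bS ((P.βc + 1 / 16) * E u - sg) u κ)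
    (fun Γ G E sg v κ => SD53.Fw Γ G a' b' (gf * E v - sg) v κ) fun Γ G E sg u κ ω hω => hω.2.2.2.2

end

end Pool.Agent.W_7d29a1_C1.Q49
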