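import Pool.Agent.W_7d29a1_C1.SepQ49

/-!
Both halves (MP_7d29a1_pr), attractor route [C1], SEP: THE SLOTS OF `Lf49` (SepQ49) AS PROPERTIES `Phi`. (helper19)

`Cm` = `cmpA`, `M3` = `M3A`, `ExF` = `exclF`, `ExE` = `exclE`, `Ro` = `ro`, `SLv, SOu, SSt, SFw`; `TTm`: the typical events are measurable
and increasing in the slack (`evn_TTm`: from the four `Stb`). `lf19`: `LfF` from all the slots.
-/

set_option autoImplicit false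

namespace Pool.Agent.W_7d29a1_C1.WrS19

open Finset MeasureTheory
open Pool.Agent.W_7d29a1_F Pool.Agent.W_7d29a1_h4g Pool.Agent.W_7d29a1_H Pool.Agent.W_7d29a1_HS
open Pool.Agent.W_7d29a1_C1.H60
open Pool.Agent.W_7d29a1_C1.H40 (Tk)
open Pool.Agent.W_7d29a1_C1.G37 (Gm Wok gmW)
open Pool.Agent.W_7d29a1_C1.H49 (Par ex Hf Hs rat cnt)
open Pool.Agent.W_7d29a1_C1.SF98
open Pool.Agent.W_7d29a1_C1.P25
open Pool.Agent.W_7d29a1_C1.N49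
open Pool.Agent.W_7d29a1_C1.Q49
open scoped ENNReal

noncomputable section

/-- The slot `cmpA`. -/
def Cm (F : Fam) (P : Pre) (μ : Measure ℝ) : Phi := fun q η A _lam n Γ G mt τ0 E =>
  ∀ t i, (p98 Γ G mt (thN η A E) (slN P.Cb E G.m2) (beN η A P.Cb E G.m2 (Ln n)) (bN P.Cb E) (stN (A + 1)) (ex (-Ln n))
      (ENNReal.ofReal (thq P.c' q))).rg τ0 t i → ∀ u ∈ Ico (stN (A + 1) t i) i, ∀ y : XS Γ G mt,
    ∀ ω ∈ Tx (F.TT Γ G E) (fun u => E u / 16) u (G.loc u y.1),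
      ENNReal.ofReal P.c' * ∫⁻ ξ, (Tx (F.TT Γ G E) (fun u => E u / 16) u (G.loc u y.1)).indicator (wS Γ G mt y)
          (G.R u (G.loc u y.1) ξ ω) ∂(law μ) ≤
        ∫⁻ η, (F.L Γ G E u (G.loc u y.1)).indicator (wS Γ G mt y) (G.R u (G.loc u y.1) η ω) ∂(law μ)

/-- The slot `M3A`. -/
def M3 (F : Fam) (P : Pre) (μ : Measure ℝ) : Phi := fun q η A _lam n Γ G mt τ0 E =>
  ∀ t i, (p98 Γ G mt (thN η A E) (slN P.Cb E G.m2) (beN η A P.Cb E G.m2 (Ln n)) (bN P.Cb E) (stN (A + 1)) (ex (-Ln n))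
      (ENNReal.ofReal (thq P.c' q))).rg τ0 t i → ∀ s ∈ Ico (stN (A + 1) t i) i, ∀ κ : KS Γ G mt s,
    ∀ ω ∈ TA (F.TT Γ G E) q (bN P.Cd E) (slN P.Cb E G.m2) ∅ s κ.1,
      ω ∈ Hs (p98 Γ G mt (thN η A E) (slN P.Cb E G.m2) (beN η A P.Cb E G.m2 (Ln n)) (bN P.Cb E) (stN (A + 1)) (ex (-Ln n))
        (ENNReal.ofReal (thq P.c' q))) (wS Γ G mt) (G.cel (FS Γ G mt)) t i s κ →
      ∫⁻ ξ, (TA (F.TT Γ G E) q (bN P.Cd E) (slN P.Cb E G.m2) ∅ s κ.1).indicator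
        (rat (pX Γ G (thN η A E) (slN P.Cb E G.m2) (beN η A P.Cb E G.m2 (Ln n)) (bN P.Cb E) (stN (A + 1)) (ex (-Ln n))
          (ENNReal.ofReal (thq P.c' q))) (SD53.w Γ) (G.cel (Γ.rows 0 Γ.N))
        (G.low (Γ.rows 0 Γ.N)) t i s (upK κ)) (G.R s κ.1 ξ ω) ∂(law μ) ≤
      P.C1 * ∫⁻ η, (F.L Γ G E s κ.1).indicator (fun ω => ∑ ρ ∈ G.nb (Γ.rows 0 Γ.N) s (upK κ), SD53.w Γ ρ ω) (G.R s κ.1 η ω) ∂(law μ)

/-- The slot `exclF`. -/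
def ExF (F : Fam) (P : Pre) : Phi := fun q η A _lam n Γ G mt τ0 E =>
  ∀ t i, (p98 Γ G mt (thN η A E) (slN P.Cb E G.m2) (beN η A P.Cb E G.m2 (Ln n)) (bN P.Cb E) (stN (A + 1)) (ex (-Ln n))
      (ENNReal.ofReal (thq P.c' q))).rg τ0 t i → ∀ x : XS Γ G mt, ∀ u ∈ Sq q P.r (stN (A + 1) t i) i,
    ∀ ω ∈ Tx (F.TT Γ G E) (fun u => E u / 16) u (G.loc u x.1), ∀ ξ, G.R u (G.loc u x.1) ξ ω ∈ F.L Γ G E u (G.loc u x.1) →
    ∀ ω₁ ∈ Hf (pX Γ G (thN η A E) (slN P.Cb E G.m2) (beN η A P.Cb E G.m2 (Ln n)) (bN P.Cb E) (stN (A + 1)) (ex (-Ln n))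
        (ENNReal.ofReal (thq P.c' q))) (SD53.w Γ) (SD53.fa Γ G) t i (up x),
      Lt87.Reach (fun v => G.R v (G.loc v x.1))
        (fun v => Tx (F.TT Γ G E) (fun u => E u / 16) v (G.loc v x.1) ∪ F.L Γ G E v (G.loc v x.1))
        ((Sq q P.r (stN (A + 1) t i) i).filter fun v => v % q = u % q) u ω ω₁ →
    ∀ ω₂ ∈ Hf (pX Γ G (thN η A E) (slN P.Cb E G.m2) (beN η A P.Cb E G.m2 (Ln n)) (bN P.Cb E) (stN (A + 1)) (ex (-Ln n))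
        (ENNReal.ofReal (thq P.c' q))) (SD53.w Γ) (SD53.fa Γ G) t i (up x),
      Lt87.Reach (fun v => G.R v (G.loc v x.1))
        (fun v => Tx (F.TT Γ G E) (fun u => E u / 16) v (G.loc v x.1) ∪ F.L Γ G E v (G.loc v x.1))
        ((Sq q P.r (stN (A + 1) t i) i).filter fun v => v % q = u % q) u (G.R u (G.loc u x.1) ξ ω) ω₂ → False

/-- The slot `exclE`. -/
def ExE (F : Fam) (P : Pre) : Phi := fun q η A _lam n Γ G mt τ0 E =>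
  ∀ t i, (p98 Γ G mt (thN η A E) (slN P.Cb E G.m2) (beN η A P.Cb E G.m2 (Ln n)) (bN P.Cb E) (stN (A + 1)) (ex (-Ln n))
      (ENNReal.ofReal (thq P.c' q))).rg τ0 t i → ∀ s ∈ Ico (stN (A + 1) t i) i, ∀ κ : KS Γ G mt s,
    ∀ ρ ∈ G.nb (FS Γ G mt) s κ, ∀ u ∈ Sq q P.r s i,
    ∀ ω ∈ Tx (F.TT Γ G E) (fun u => E u / 16) u (G.loc u ρ.1), ∀ ξ, G.R u (G.loc u ρ.1) ξ ω ∈ F.L Γ G E u (G.loc u ρ.1) →
    ∀ ω₁ ∈ Hs (pX Γ G (thN η A E) (slN P.Cb E G.m2) (beN η A P.Cb E G.m2 (Ln n)) (bN P.Cb E) (stN (A + 1)) (ex (-Ln n))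
        (ENNReal.ofReal (thq P.c' q))) (SD53.w Γ) (G.cel (Γ.rows 0 Γ.N)) t i s (upK κ) ∩
        TA (F.TT Γ G E) q (bN P.Cd E) (slN P.Cb E G.m2) ∅ s κ.1,
      Lt87.Reach (Function.update (fun v => G.R v (G.loc v ρ.1)) s (G.R s κ.1))
        (Function.update (fun v => Tx (F.TT Γ G E) (fun u => E u / 16) v (G.loc v ρ.1) ∪ F.L Γ G E v (G.loc v ρ.1)) s
          (Tx (F.TT Γ G E) (fun u => E u / 16) s κ.1 ∪ F.L Γ G E s κ.1))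
          (insert s ((Sq q P.r s i).filter fun v => v % q = u % q)) u ω ω₁ →
    ∀ ω₂ ∈ Hs (pX Γ G (thN η A E) (slN P.Cb E G.m2) (beN η A P.Cb E G.m2 (Ln n)) (bN P.Cb E) (stN (A + 1)) (ex (-Ln n))
        (ENNReal.ofReal (thq P.c' q))) (SD53.w Γ) (G.cel (Γ.rows 0 Γ.N)) t i s (upK κ) ∩
        TA (F.TT Γ G E) q (bN P.Cd E) (slN P.Cb E G.m2) ∅ s κ.1,
      Lt87.Reach (Function.update (fun v => G.R v (G.loc v ρ.1)) s (G.R s κ.1))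
        (Function.update (fun v => Tx (F.TT Γ G E) (fun u => E u / 16) v (G.loc v ρ.1) ∪ F.L Γ G E v (G.loc v ρ.1)) s
          (Tx (F.TT Γ G E) (fun u => E u / 16) s κ.1 ∪ F.L Γ G E s κ.1))
          (insert s ((Sq q P.r s i).filter fun v => v % q = u % q)) u (G.R u (G.loc u ρ.1) ξ ω) ω₂ → False

/-- The slot `ro`. -/
def Ro (F : Fam) (P : Pre) : Phi := fun _q _η _A _lam _n Γ G mt τ0 E =>
  RatW Γ G mt τ0 (fun u => P.Cr * E u) (fun u => E u / 16) (F.TT Γ G E) (F.L Γ G E)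

/-- The typical events are measurable and increasing in the slack. -/
def TTm (F : Fam) : Phi := fun _q _η _A _lam _n Γ G _mt _τ0 E =>
  (∀ sg u κ, MeasurableSet (F.TT Γ G E sg u κ)) ∧ ∀ sg sg' u κ, sg ≤ sg' → F.TT Γ G E sg u κ ⊆ F.TT Γ G E sg' u κ

/-- The slot `sLv`. -/
def SLv (F : Fam) (P : Pre) : Phi := fun q _η _A _lam _n Γ G mt τ0 E =>
  Stb Γ G mt q τ0 (fun u => P.Cr * E u) (bN P.Cd E) (fun u => E u / 16) fun _ => F.Lv Γ G E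

/-- The slot `sOu`. -/
def SOu (F : Fam) (P : Pre) : Phi := fun q _η _A _lam _n Γ G mt τ0 E =>
  Stb Γ G mt q τ0 (fun u => P.Cr * E u) (bN P.Cd E) (fun u => E u / 16) (F.Ou Γ G E)

/-- The slots `sSt`, `St_sub`. -/
def SSt (F : Fam) (P : Pre) : Phi := fun q _η _A _lam _n Γ G mt τ0 E =>
  Stb Γ G mt q τ0 (fun u => P.Cr * E u) (bN P.Cd E) (fun u => E u / 16) (F.St Γ G E) ∧
    ∀ u, τ0 < u → u < G.M → ∀ κ, F.St Γ G E (slN P.Cb E G.m2 (u - 1)) u κ ⊆ Sy78.St Γ G P.aS P.bS (P.βc * E u) u κ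

/-- The slot `sFw`. -/
def SFw (F : Fam) (P : Pre) : Phi := fun q _η _A _lam _n Γ G mt τ0 E =>
  Stb Γ G mt q τ0 (fun u => P.Cr * E u) (bN P.Cd E) (fun u => E u / 16) (F.Fw Γ G E)

/-- The slots `mL`, `dis`. -/
def MD (F : Fam) : Phi := fun _q _η _A _lam _n Γ G _mt _τ0 E =>
  (∀ u κ, MeasurableSet (F.L Γ G E u κ)) ∧ ∀ u κ, Disjoint (F.Lv Γ G E u κ) (F.L Γ G E u κ)

variable {P : Pre} {D : Dat} {μ : Measure ℝ} {s : ℝ} {F : Fam}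

/-- **FROM THE FOUR `Stb`.** -/
theorem evn_TTm
    (h1 : Evn P D μ s (SLv F P)) (h2 : Evn P D μ s (SOu F P)) (h3 : Evn P D μ s (SSt F P)) (h4 : Evn P D μ s (SFw F P)) :
    Evn P D μ s (TTm F) := by
  refine (h1.and (h2.and (h3.and h4))).mono fun q η A lam n Γ G mt τ0 E h => ?_
  have S := Stb.tt h.1 h.2.1 h.2.2.1.1 h.2.2.2
  exact ⟨S.meas, S.mono⟩

/-- **`Lf49` FROM THE SLOTS.** -/
theorem lf19 (h1 : Evn P D μ s (SLv F P)) (h2 : Evn P D μ s (SOu F P)) (h3 : Evn P D μ s (SSt F P)) (h4 : Evn P D μ s (SFw F P))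
    (h5 : Evn P D μ s (MD F)) (h6 : Evn P D μ s (Ro F P)) (h7 : Evn P D μ s (Cm F P μ)) (h8 : Evn P D μ s (M3 F P μ))
    (h9 : Evn P D μ s (ExF F P)) (h10 : Evn P D μ s (ExE F P)) : Evn P D μ s (LfF F P μ) := by
  refine ((h1.and (h2.and (h3.and h4))).and ((h5.and h6).and ((h7.and h8).and (h9.and h10)))).mono
    fun q η A lam n Γ G mt τ0 E h => ?_
  obtain ⟨⟨a1, a2, a3, a4⟩, ⟨a5, a6⟩, ⟨a7, a8⟩, a9, a10⟩ := h
  exact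
  { sLv := a1
    sOu := a2
    sSt := a3.1
    sFw := a4
    mL := a5.1
    dis := a5.2
    St_sub := a3.2
    ro := a6
    cmpA := a7
    M3A := a8
    exclF := a9
    exclE := a10 }

end

end Pool.Agent.W_7d29a1_C1.WrS19
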