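import Pool.Agent.W_7d29a1_C1.WrL41
import Pool.Agent.W_7d29a1_C1.WrO57
import Pool.Agent.W_7d29a1_C1.WrR41
import Pool.Agent.W_7d29a1_C1.WrS19
import Pool.Agent.W_7d29a1_C1.SepX53

/-!
MP_7d29a1_pr, [C1] attractor route, SEP: THE FIVE FAMILIES OF PAGE 694 AND THEIR PASSIVE SLOTS, IN THE FORM `Evn`. (helper98)

* `Cf98` : the constants of the families; `Cf98.nr` : the record of the ratio; **`Fam98`** : `Lv, Ou, St, Fw, L`;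
* **`famS98`** : the slots `SLv, SOu, SSt, SFw, MD`, `TTm`;
* **`xl98`** : the slot `Ro` and helper53's record `XL53` (`ro` at `LuA98`, `Tx ⊆ TmX`);
* **`lf98`** : `LfF` from `OkE41`, `RoC41` and the four slots `Cm, M3, ExF, ExE`.
-/

set_option autoImplicit false

namespace Pool.Agent.W_7d29a1_C1.Q49

open Finset MeasureTheory Filter
open Pool.Agent.W_7d29a1_F hiding Bw G
open Pool.Agent.W_7d29a1_h4g Pool.Agent.W_7d29a1_H Pool.Agent.W_7d29a1_HS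
open Pool.Agent.W_7d29a1_C1.H60
open Pool.Agent.W_7d29a1_C1.H40 (Tk)
open Pool.Agent.W_7d29a1_C1.G37 (Gm Wok gmW)
open Pool.Agent.W_7d29a1_C1.SF98
open Pool.Agent.W_7d29a1_C1.P25
open Pool.Agent.W_7d29a1_C1.N49
open Pool.Agent.W_7d29a1_C1.D98
open Pool.Agent.W_7d29a1_C1.SD53
open Pool.Agent.W_7d29a1_C1.WO57
open Pool.Agent.W_7d29a1_C1.WrS19
open scoped ENNReal

noncomputable section

/-- **THE CONSTANTS OF THE FAMILIES.** -/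
structure Cf98 where
  /-- the slot `Ou`: slope, radii -/
  sgm : ℝ
  rc : ℝ
  r0 : ℝ
  R0 : ℝ
  R2 : ℝ
  R1 : ℝ
  /-- the slot `Fw` -/
  aF : ℝ
  bF : ℝ
  gF : ℝ
  /-- the ratio (`nr98`), strip `R1 - 1` -/
  al : ℝ
  U₁ : ℝ
  Uw : ℝ
  V₁ : ℝ
  Re : ℝ
  Qe : ℝ

/-- The record of the ratio. -/
abbrev Cf98.nr (F : Cf98) (μ : Measure ℝ) (s c : ℝ) : NrF := nrC41 μ s c (F.R1 - 1) F.al F.U₁ F.Uw F.V₁ F.Re F.Qe

/-- **THE FIVE FAMILIES**, lucky set without the tame part. -/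
def Fam98o (μ : Measure ℝ) (s c : ℝ) (P : Pre) (N : NmF) (F : Cf98) : Fam where
  Lv Γ G E := LvA98 μ s c Γ G (N Γ G E) (F.nr μ s c Γ G E)
  Ou := Ou5 μ s F.rc (F.sgm * F.rc) (F.sgm * F.rc) F.sgm F.r0 (F.sgm * F.r0) (F.sgm * F.r0) F.sgm F.R0 (F.sgm * F.R0) F.R2 (F.sgm * F.R2)
    F.R1 (F.sgm * F.R1)
  St Γ G E sg u κ := Sy78.St Γ G P.aS P.bS ((P.βc + 1 / 16) * E u - sg) u κ
  Fw Γ G E sg u κ := SD53.Fw Γ G F.aF F.bF (F.gF * E u - sg) u κ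
  L Γ G E u κ := LuA98 μ s c Γ G (N Γ G E) (F.nr μ s c Γ G E) u κ

/-- The strip of the tame part. -/
def bb98 (F : Cf98) : (ℕ → ℝ) → ℕ → ℝ := fun _ _ => F.R1 - 1

/-- The threshold of the tame part. -/
def Q198 (P : Pre) (F : Cf98) : (ℕ → ℝ) → ℕ → ℝ := fun E u => (F.sgm * F.R1 + 1 / 16 + 2 * P.Cr) * E u

/-- **THE FIVE FAMILIES.** -/
def Fam98 (μ : Measure ℝ) (s c : ℝ) (P : Pre) (N : NmF) (F : Cf98) : Fam :=
  { Fam98o μ s c P N F with L := LuX41 μ s c N (F.nr μ s c) (bb98 F) (Q198 P F) }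

variable {P : Pre} {D : Dat} {μ : Measure ℝ} {s c : ℝ} {N : NmF} {F : Cf98}

/-- The lucky set of `Fam98` = helper53's `Lx53`. -/
theorem Fam98_L (Γ : Cx) (G : Gm) (E : ℕ → ℝ) : (Fam98 μ s c P N F).L Γ G E =
    Lx53 Γ G (Ou37.gam μ s Γ) (fun _ => F.R1 - 1) (fun u => (F.sgm * F.R1 + 1 / 16 + 2 * P.Cr) * E u) ((Fam98o μ s c P N F).L Γ G E) :=
  rfl

/-- **THE SLOTS `SLv, SOu, SSt, SFw, MD`.** -/
theorem famS98 [IsProbabilityMeasure μ] {C : ℝ} {n₀ : ℕ} (hI : In μ s c C n₀) (hCd : P.Cr < P.Cd) (haS : 5 / 2 ≤ P.aS) (hab : P.aS ≤ P.bS)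
    (hb : 2 < F.bF) (hba : F.bF < F.aF) (ha : F.aF < 2 * P.kn - 2) (hN : OkE41 P D μ s N (F.nr μ s c)) :
    Evn P D μ s (SLv (Fam98 μ s c P N F) P) ∧ Evn P D μ s (SOu (Fam98 μ s c P N F) P) ∧ Evn P D μ s (SSt (Fam98 μ s c P N F) P) ∧
      Evn P D μ s (SFw (Fam98 μ s c P N F) P) ∧ Evn P D μ s (MD (Fam98 μ s c P N F)) := by
  have h1 := evn_OSF (D := D) hI hCd haS hab (gf := F.gF) hb hba ha F.rc (F.sgm * F.rc) (F.sgm * F.rc) F.sgm F.r0 (F.sgm * F.r0)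
    (F.sgm * F.r0) F.sgm F.R0 (F.sgm * F.R0) F.R2 (F.sgm * F.R2) F.R1 (F.sgm * F.R1)
  refine ⟨sLv41 (c := c) hN, h1.mono fun _ _ _ _ _ _ _ _ _ _ h => h.1, h1.mono fun _ _ _ _ _ _ _ _ _ _ h => ⟨h.2.1, h.2.2.2⟩,
    h1.mono fun _ _ _ _ _ _ _ _ _ _ h => h.2.2.1, h1.mono fun _ _ _ _ _ Γ G _ _ E _ => ?_⟩
  exact ⟨fun u κ => mL41 (μ := μ) (s := s) (c := c) (N := N) (R := F.nr μ s c) (bb := bb98 F) (Q1 := Q198 P F) Γ G E u κ,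
    fun u κ => dis41 (μ := μ) (s := s) (c := c) (N := N) (R := F.nr μ s c) (bb := bb98 F) (Q1 := Q198 P F) Γ G E u κ⟩

/-- **THE FIELD `ro` AT `LuA98`** (the larger lucky set; cf. `evn_ro41`). -/
theorem roA98 [IsProbabilityMeasure μ] {C : ℝ} {n₀ : ℕ} (hI : In μ s c C n₀) (hE9 : ∀ᶠ n : ℕ in Filter.atTop, (n : ℝ) ^ (1 / 9 : ℝ) ≤ EE μ s n)
    {kw : ℝ} (hkw : 0 ≤ kw) : ∃ Ck : ℝ, 0 < Ck ∧ ∀ {P : Pre} {D : Dat} {N : NmF} {F : Cf98}, P.kw = kw →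
      RoC41 c kw Ck P.Cr (F.R1 - 1) F.al F.U₁ F.Uw F.V₁ F.Re F.Qe F.R1 (F.sgm * F.R1) → OkE41 P D μ s N (F.nr μ s c) →
      Evn P D μ s (Ro (Fam98o μ s c P N F) P) := by
  obtain ⟨Ck, hCk, n₁, hn₁, H⟩ := ro98 hI hkw
  refine ⟨Ck, hCk, fun {P D N F} hk hr hN => ?_⟩
  have hT : Evn P D μ s fun _ _ _ _ _ _ G _ _ _ => ∀ u, n₁ ≤ G.T u := Evn.of_T041 ⟨n₁, fun q m2 η A lam m0 g1 e0 c₂ δ κ n Γ T0 M
    mt τ0 hc hW h1 _ _ u => by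
      have h2 : T0 * 1 ≤ T0 * D.K ^ u := Nat.mul_le_mul_left _ (Nat.one_le_pow _ _ (by have := D.hK; omega))
      have h3 : (P.G hW M m0 g1 m2 hc.h1 hc.h2).T u = T0 * D.K ^ u := rfl
      omega⟩
  refine (((WO57.evn_tilt (P := P) (D := D) hI hE9 (ε₀ := c / 8) (by have := hI.c0; linarith)).and (hN.ok.and hT))).monoG ?_
  intro q m2 η A lam m0 g1 e0 c₂ δ κ n Γ T0 M mt τ0 hc hW _ _ _ _ _ _ _ _ hg hG h
  refine H hr.V0 hr.Re0 hr.Qe0 hr.Uw0 hr.x0 hr.kb hr.Rb hr.bR hr.al_ge hr.U_ge hr.b_ge hr.Cr_ge hc.adm.hs rfl hk ?_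
    (fun u _ => h.2.2 u) (fun u _ => rfl) (fun u _ hu => ?_) h.2.1.fit (fun u => rfl) (fun u _ => ?_) (fun u _ => le_rfl)
    (fun u _ => le_rfl) (fun u κ' _ _ ω hω => hω.2.2.2.2)
  · have := hc.mt_ge
    show M ≤ mt
    omega
  · have h1 : u < M := hu
    exact (h.1 u (by have := hc.mt_ge; omega)).1
  · exact div_nonneg (hg.pos u).le (by norm_num)

/-- **THE SLOT `Ro` AND THE TAME MASSES** (record of helper53). -/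
theorem xl98 [IsProbabilityMeasure μ] {C : ℝ} {n₀ : ℕ} (hI : In μ s c C n₀) (hE9 : ∀ᶠ n : ℕ in Filter.atTop, (n : ℝ) ^ (1 / 9 : ℝ) ≤ EE μ s n)
    {kw : ℝ} (hkw : 0 ≤ kw) : ∃ Ck : ℝ, 0 < Ck ∧ ∀ {P : Pre} {D : Dat} {N : NmF} {F : Cf98}, P.kw = kw →
      RoC41 c kw Ck P.Cr (F.R1 - 1) F.al F.U₁ F.Uw F.V₁ F.Re F.Qe F.R1 (F.sgm * F.R1) → OkE41 P D μ s N (F.nr μ s c) →
      Evn P D μ s (Ro (Fam98 μ s c P N F) P) ∧ Evn P D μ s (Ro (Fam98o μ s c P N F) P) ∧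
      Evn P D μ s fun _ _ _ _ _ Γ G mt τ0 E => XL53 Γ G mt τ0 (Ou37.gam μ s Γ) ((Fam98 μ s c P N F).TT Γ G E)
        ((Fam98o μ s c P N F).L Γ G E) (fun u => E u / 16) (fun u => P.Cr * E u) (fun _ => F.R1 - 1)
        (fun u => (F.sgm * F.R1 + 1 / 16) * E u) fun u => (F.sgm * F.R1 + 1 / 16 + 2 * P.Cr) * E u := by
  obtain ⟨Ck, hCk, H⟩ := roA98 hI hE9 hkw
  refine ⟨Ck, hCk, fun {P D N F} hk hr hN => ?_⟩
  have hro := H (D := D) hk hr hN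
  refine ⟨hro.mono fun q η A lam n Γ G mt τ0 E h => roX41 h, hro, ?_⟩
  refine (hro.and hN.ok).monoG ?_
  intro q m2 η A lam m0 g1 e0 c₂ δ κ n Γ T0 M mt τ0 hc hW _ _ _ _ _ _ _ _ hg hG h
  obtain ⟨G, hGe⟩ : ∃ G : Gm, G = P.G hW M m0 g1 m2 hc.h1 hc.h2 := ⟨_, rfl⟩
  have hw1 : ∀ u, 1 ≤ G.w u := fun u => by rw [hGe]; exact hW.one u
  have hM : G.M ≤ mt := by
    have h1 := hc.mt_ge
    have h2 : G.M = M := by rw [hGe]; rfl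
    omega
  have hv0 := hG.v0
  have hv1 := hG.v1
  rw [← hGe] at h hv0 hv1 ⊢
  have hE0' : ∀ u, 0 ≤ EE μ s (Tk T0 D.K u) := fun u => (hg.pos u).le
  have hbw : ∀ u, (F.R1 - 1) * G.w u + 1 ≤ F.R1 * G.w u := fun u => by
    have e : (F.R1 - 1) * G.w u = F.R1 * G.w u - G.w u := by ring
    have := hw1 u
    linarith
  have hx := hr.x0
  exact
    { hγ := fun k y => Ou37.gam_pos k y
      v0 := hv0
      v1 := hv1
      hM := hM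
      hb := fun u hu => h.2.b_ge u hu
      hT := hT_of fun u κ _ _ _ => by
        refine Set.Subset.trans (fun ω hω => hω.2.2.2.2) ((outT_tm98 (b := F.R1 - 1) (hbw u)).trans (le_of_eq ?_))
        congr 1
        show F.sgm * F.R1 * EE μ s (Tk T0 D.K u) + EE μ s (Tk T0 D.K u) / 16 = (F.sgm * F.R1 + 1 / 16) * EE μ s (Tk T0 D.K u)
        ring
      hQ := fun u => mul_nonneg (by linarith) (hE0' u)
      dR0 := fun u => mul_nonneg P.hCr (hE0' u)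
      hQ1 := fun u => by
        show (F.sgm * F.R1 + 1 / 16) * EE μ s (Tk T0 D.K u) + 2 * (P.Cr * EE μ s (Tk T0 D.K u)) ≤
          (F.sgm * F.R1 + 1 / 16 + 2 * P.Cr) * EE μ s (Tk T0 D.K u)
        linarith
      ro := h.1 }

/-- **`LfF`** from the gaps of the numbers, the numbers of the ratio and the four analytic slots. -/
theorem lf98 [IsProbabilityMeasure μ] {C : ℝ} {n₀ : ℕ} (hI : In μ s c C n₀) (hE9 : ∀ᶠ n : ℕ in Filter.atTop, (n : ℝ) ^ (1 / 9 : ℝ) ≤ EE μ s n)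
    {kw : ℝ} (hkw : 0 ≤ kw) : ∃ Ck : ℝ, 0 < Ck ∧ ∀ {P : Pre} {D : Dat} {N : NmF} {F : Cf98}, P.kw = kw →
      P.Cr < P.Cd → 5 / 2 ≤ P.aS → P.aS ≤ P.bS → 2 < F.bF → F.bF < F.aF → F.aF < 2 * P.kn - 2 →
      RoC41 c kw Ck P.Cr (F.R1 - 1) F.al F.U₁ F.Uw F.V₁ F.Re F.Qe F.R1 (F.sgm * F.R1) → OkE41 P D μ s N (F.nr μ s c) →
      Evn P D μ s (Cm (Fam98 μ s c P N F) P μ) → Evn P D μ s (M3 (Fam98 μ s c P N F) P μ) → Evn P D μ s (ExF (Fam98 μ s c P N F) P) →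
      Evn P D μ s (ExE (Fam98 μ s c P N F) P) → Evn P D μ s (LfF (Fam98 μ s c P N F) P μ) := by
  obtain ⟨Ck, hCk, H⟩ := roA98 hI hE9 hkw
  refine ⟨Ck, hCk, fun {P D N F} hk hCd haS hab hb hba ha hr hN h1 h2 h3 h4 => ?_⟩
  obtain ⟨a1, a2, a3, a4, a5⟩ := famS98 (D := D) hI hCd haS hab hb hba ha hN
  exact lf19 a1 a2 a3 a4 a5 ((H (D := D) hk hr hN).mono fun q η A lam n Γ G mt τ0 E h => roX41 h) h1 h2 h3 h4

end

end Pool.Agent.W_7d29a1_C1.Q49
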