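import Pool.Agent.W_7d29a1_C1.SepQ49

/-!
MP_7d29a1_pr, attractor route [C1], SEP: THE STRUCTURE `Pre` FROM PLAIN NUMBERS. (helper40)

`PrN40`: the numbers, `PrN40.Ok`: their inequalities, `PrN40.pre`: the structure `Pre`; under `Ok` every field is the given number.
-/

set_option autoImplicit false

namespace Pool.Agent.W_7d29a1_C1.Q49

open scoped ENNReal

noncomputable section

/-- The numbers of `Pre`. -/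
structure PrN40 where
  kw : ℝ
  kn : ℝ
  kb : ℝ
  aS : ℝ
  bS : ℝ
  βc : ℝ
  Cr : ℝ
  Cd : ℝ
  Cb : ℝ
  ε0 : ℝ
  c' : ℝ
  C1 : ℝ≥0∞
  r : ℕ
  m3 : ℕ
  J1 : ℕ

/-- Their inequalities. -/
structure PrN40.Ok (p : PrN40) : Prop where
  hkw : 0 ≤ p.kw
  hkn : 0 ≤ p.kn
  hkb : 1 ≤ p.kb
  haS : 1 ≤ p.aS
  hbS : p.bS + 5 / 2 ≤ 2 * p.kn
  hβ : 0 < p.βc
  hCr : 0 ≤ p.Cr
  hCd : 0 ≤ p.Cd
  hCbr : 4 * p.Cr ≤ p.Cb
  hCbd : 2 * p.Cd ≤ p.Cb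
  hε : 0 < p.ε0
  hε1 : p.ε0 ≤ 1 / 16
  hc0 : 0 < p.c'
  hc1 : p.c' ≤ 1
  hC1 : p.C1 ≠ ⊤
  hm3 : 3 ≤ p.m3

/-- The structure, under the inequalities. -/
def PrN40.Ok.mk' {p : PrN40} (h : p.Ok) : Pre where
  kw := p.kw
  kn := p.kn
  kb := p.kb
  aS := p.aS
  bS := p.bS
  βc := p.βc
  Cr := p.Cr
  Cd := p.Cd
  Cb := p.Cb
  ε0 := p.ε0
  c' := p.c'
  C1 := p.C1
  r := p.r
  m3 := p.m3
  J1 := p.J1
  hkw := h.hkw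
  hkn := h.hkn
  hkb := h.hkb
  haS := h.haS
  hbS := h.hbS
  hβ := h.hβ
  hCr := h.hCr
  hCd := h.hCd
  hCbr := h.hCbr
  hCbd := h.hCbd
  hε := h.hε
  hε1 := h.hε1
  hc0 := h.hc0
  hc1 := h.hc1
  hC1 := h.hC1
  hm3 := h.hm3

/-- Some numbers which satisfy the inequalities. -/
def PrN40.dflt : PrN40 := ⟨0, 2, 1, 1, 0, 1, 0, 0, 0, 1 / 16, 1, 0, 0, 3, 0⟩

theorem PrN40.dflt_ok : PrN40.dflt.Ok where
  hkw := le_rfl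
  hkn := by show (0 : ℝ) ≤ 2; norm_num
  hkb := le_rfl
  haS := le_rfl
  hbS := by show (0 : ℝ) + 5 / 2 ≤ 2 * 2; norm_num
  hβ := by show (0 : ℝ) < 1; norm_num
  hCr := le_rfl
  hCd := le_rfl
  hCbr := by show 4 * (0 : ℝ) ≤ 0; norm_num
  hCbd := by show 2 * (0 : ℝ) ≤ 0; norm_num
  hε := by show (0 : ℝ) < 1 / 16; norm_num
  hε1 := le_rfl
  hc0 := by show (0 : ℝ) < 1; norm_num
  hc1 := le_rfl
  hC1 := ENNReal.zero_ne_top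
  hm3 := le_rfl

open Classical in
/-- **THE STRUCTURE `Pre` FROM THE NUMBERS.** -/
def PrN40.pre (p : PrN40) : Pre := if h : p.Ok then h.mk' else PrN40.dflt_ok.mk'

variable {p : PrN40}

theorem PrN40.Ok.pre_eq (h : p.Ok) : p.pre = h.mk' := dif_pos h

theorem PrN40.Ok.kw (h : p.Ok) : p.pre.kw = p.kw := by rw [h.pre_eq]; rfl
theorem PrN40.Ok.kn (h : p.Ok) : p.pre.kn = p.kn := by rw [h.pre_eq]; rfl
theorem PrN40.Ok.kb (h : p.Ok) : p.pre.kb = p.kb := by rw [h.pre_eq]; rfl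
theorem PrN40.Ok.aS (h : p.Ok) : p.pre.aS = p.aS := by rw [h.pre_eq]; rfl
theorem PrN40.Ok.bS (h : p.Ok) : p.pre.bS = p.bS := by rw [h.pre_eq]; rfl
theorem PrN40.Ok.βc (h : p.Ok) : p.pre.βc = p.βc := by rw [h.pre_eq]; rfl
theorem PrN40.Ok.Cr (h : p.Ok) : p.pre.Cr = p.Cr := by rw [h.pre_eq]; rfl
theorem PrN40.Ok.Cd (h : p.Ok) : p.pre.Cd = p.Cd := by rw [h.pre_eq]; rfl
theorem PrN40.Ok.Cb (h : p.Ok) : p.pre.Cb = p.Cb := by rw [h.pre_eq]; rfl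
theorem PrN40.Ok.ε0 (h : p.Ok) : p.pre.ε0 = p.ε0 := by rw [h.pre_eq]; rfl
theorem PrN40.Ok.c' (h : p.Ok) : p.pre.c' = p.c' := by rw [h.pre_eq]; rfl
theorem PrN40.Ok.C1 (h : p.Ok) : p.pre.C1 = p.C1 := by rw [h.pre_eq]; rfl
theorem PrN40.Ok.r (h : p.Ok) : p.pre.r = p.r := by rw [h.pre_eq]; rfl
theorem PrN40.Ok.m3 (h : p.Ok) : p.pre.m3 = p.m3 := by rw [h.pre_eq]; rfl
theorem PrN40.Ok.J1 (h : p.Ok) : p.pre.J1 = p.J1 := by rw [h.pre_eq]; rfl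

end

end Pool.Agent.W_7d29a1_C1.Q49
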