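import Pool.Agent.W_7d29a1_C1.SepC2
import Pool.Agent.W_7d29a1_C1.PreS40

/-!
MP_7d29a1_pr, attractor route [C1], SEP: THE STRUCTURE `Pre` AT THE CONSTANTS OF PAGE 694 C. (helper40; over SepC2 of helper2)

`Cst.prn` : the numbers of `Pre`; `Cst.P : Pre`; **`evP40`** : eventually `C.prn.Ok`, so the fields of `C.P` are the constants.
-/

set_option autoImplicit false

namespace Pool.Agent.W_7d29a1_C1.Cs2

open Filter
open Pool.Agent.W_7d29a1_C1.Q49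

noncomputable section

/-- The numbers of `Pre`: inner radius `5 / 2`, `βc = ε0 = 1 / 16`. -/
def Cst.prn (C : Cst) : PrN40 where
  kw := C.kw
  kn := C.kn
  kb := C.kb
  aS := 5 / 2
  bS := C.bS
  βc := 1 / 16
  Cr := C.Cr
  Cd := C.Cd
  Cb := C.Cb
  ε0 := 1 / 16
  c' := C.cp
  C1 := ENNReal.ofReal C.C1
  r := C.rr
  m3 := C.m3
  J1 := C.J1

/-- **THE STRUCTURE `Pre`**. -/
def Cst.P (C : Cst) : Pre := C.prn.pre

/-- **THE INEQUALITIES OF `Pre`**, and what else the constants owe each other at this stage. -/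
theorem evP40 (S : Is → Cst → Prop) : EvC S fun C => C.prn.Ok := by
  filter_upwards [FC.kw_ge S fun _ => 0, FC.kn_ge S fun C => max 0 ((C.bS + 5 / 2) / 2), FC.kb_ge S fun _ => 1, FC.Cr_ge S fun _ => 0,
    FC.Cd_ge S fun _ => 0, FC.Cb_ge S fun C => max (4 * C.Cr) (2 * C.Cd), FC.cp_le S (fun _ => 1) fun _ => one_pos, FC.m3_ge S fun _ => 3]
    with C h1 h2 h3 h4 h5 h6 h7 h8
  have h2' : max 0 ((C.bS + 5 / 2) / 2) ≤ C.kn := h2
  have h6' : max (4 * C.Cr) (2 * C.Cd) ≤ C.Cb := h6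
  exact
    { hkw := h1
      hkn := (le_max_left _ _).trans h2'
      hkb := h3
      haS := by show (1 : ℝ) ≤ 5 / 2; norm_num
      hbS := by
        show C.bS + 5 / 2 ≤ 2 * C.kn
        have := (le_max_right (0 : ℝ) _).trans h2'
        linarith
      hβ := by show (0 : ℝ) < 1 / 16; norm_num
      hCr := h4
      hCd := h5
      hCbr := (le_max_left _ _).trans h6'
      hCbd := (le_max_right _ _).trans h6'
      hε := by show (0 : ℝ) < 1 / 16; norm_num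
      hε1 := le_rfl
      hc0 := h7.1
      hc1 := h7.2
      hC1 := ENNReal.ofReal_ne_top
      hm3 := h8 }

section Fields

variable {C : Cst} (h : C.prn.Ok)
include h

theorem P_kw : C.P.kw = C.kw := h.kw
theorem P_kn : C.P.kn = C.kn := h.kn
theorem P_kb : C.P.kb = C.kb := h.kb
theorem P_aS : C.P.aS = 5 / 2 := h.aS
theorem P_bS : C.P.bS = C.bS := h.bS
theorem P_βc : C.P.βc = 1 / 16 := h.βc
theorem P_Cr : C.P.Cr = C.Cr := h.Cr
theorem P_Cd : C.P.Cd = C.Cd := h.Cd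
theorem P_Cb : C.P.Cb = C.Cb := h.Cb
theorem P_ε0 : C.P.ε0 = 1 / 16 := h.ε0
theorem P_c' : C.P.c' = C.cp := h.c'
theorem P_C1 : C.P.C1 = ENNReal.ofReal C.C1 := h.C1
theorem P_r : C.P.r = C.rr := h.r
theorem P_m3 : C.P.m3 = C.m3 := h.m3
theorem P_J1 : C.P.J1 = C.J1 := h.J1

end Fields

/-- All the fields at once. -/
theorem evPf40 (S : Is → Cst → Prop) : EvC S fun C => (C.P.kw = C.kw ∧ C.P.kn = C.kn ∧ C.P.kb = C.kb) ∧
    (C.P.aS = 5 / 2 ∧ C.P.bS = C.bS ∧ C.P.βc = 1 / 16) ∧ (C.P.Cr = C.Cr ∧ C.P.Cd = C.Cd ∧ C.P.Cb = C.Cb ∧ C.P.ε0 = 1 / 16) ∧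
    (C.P.c' = C.cp ∧ C.P.C1 = ENNReal.ofReal C.C1) ∧ C.P.r = C.rr ∧ C.P.m3 = C.m3 ∧ C.P.J1 = C.J1 :=
  (evP40 S).mono fun _ h => ⟨⟨P_kw h, P_kn h, P_kb h⟩, ⟨P_aS h, P_bS h, P_βc h⟩, ⟨P_Cr h, P_Cd h, P_Cb h, P_ε0 h⟩, ⟨P_c' h, P_C1 h⟩,
    P_r h, P_m3 h, P_J1 h⟩

end

end Pool.Agent.W_7d29a1_C1.Cs2
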