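import Pool.Agent.W_7d29a1_C1.SepDef53

/-!
Both halves (MP_7d29a1_pr), attractor route [C1], SEP (move the contact), S9: THE EXCLUSIONS FOR `Hf`, `Hs`. (helper53, after
helper2, helper95: forward steepness only)

`Mth`: mouth `Wi` at the row `a`, exit cell `Ce` at the row `a + n` of the slab `u`. Quenched statements, all of them forward,
for the true future masses: `Ent` (from the contact one is in the mouth), `Fwd` (from a far site one is not in the mouth).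
`exclF53`: the far alternative and the lucky slab exclude one another; `exclE53`: the later contacts and the lucky slab.
-/

set_option autoImplicit false

namespace Pool.Agent.W_7d29a1_C1.SD53

open Finset MeasureTheory
open Pool.Agent.W_7d29a1_F Pool.Agent.W_7d29a1_h4g Pool.Agent.W_7d29a1_H Pool.Agent.W_7d29a1_HS
open Pool.Agent.W_7d29a1_C1.K91 (Grp Box wt wt_pos)
open Pool.Agent.W_7d29a1_C1.K91P
open Pool.Agent.W_7d29a1_C1.R26P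
open Pool.Agent.W_7d29a1_C1.U16 (ker)
open Pool.Agent.W_7d29a1_C1.Sp22 (Ms Ps Zt)
open Pool.Agent.W_7d29a1_C1.H60
open Pool.Agent.W_7d29a1_C1.G37 (Gm)
open Pool.Agent.W_7d29a1_C1.H49 (Par lm ex Hf Hs)
open Pool.Agent.W_7d29a1_C1.E53
open Pool.Agent.W_7d29a1_C1.Lt87 (Reach)
open scoped ENNReal

noncomputable section

/-! ### Far mass by forward steepness -/

/-- **FAR, forward form**: from every far site one is in the mouth with probability at most `s₀`. -/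
theorem far_fwd {w : ℕ → ℤ → ℝ} {p : ℕ → ℝ} {m : ℤ → ℝ} {lo hi : ℤ} {N e j : ℕ} {Wi Fa : Finset ℤ} {s₀ κ : ℝ}
    (hw : ∀ k y, 0 < w k y) (hp : ∀ k, 0 < p k) (h : Ms m lo hi N) (hN : e + j ≤ N) (hWi : Wi ⊆ Icc lo hi)
    (hFa : Fa ⊆ Icc lo hi) (hs₀ : 0 ≤ s₀)
    (hst : ∀ y ∈ Fa, ∑ z ∈ Wi, ker w p e j y z * bw w p (e + j) (N - (e + j)) z ≤ s₀ * bw w p e (N - e) y)
    (hoff : Ps w p m N (e + j) (Icc lo hi \ Wi) ≤ κ * Zt w p m lo hi N) :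
    Ps w p m N e Fa ≤ (s₀ + κ) * Zt w p m lo hi N := by
  classical
  have ho : E53.One m lo hi N := E53.One.mk h.nn h.lo0 h.hi0
  have f0 : ∀ k y, 0 ≤ fw w p m k y := fun k y => fw_nonneg hw hp h.nn k y
  have g0 : ∀ z, 0 ≤ bw w p (e + j) (N - (e + j)) z := fun z => (bw_pos hw hp _ _ _).le
  have k0 : ∀ y z, 0 ≤ kf w p e j y z := fun y z => kf_nonneg hw hp e j y z
  have e1 : Ps w p m N e Fa = ∑ z ∈ Icc lo hi, (∑ y ∈ Fa, fw w p m e y * kf w p e j y z) *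
      bw w p (e + j) (N - (e + j)) z := (sum_via ho hN Fa).symm
  rw [e1, ← sum_sdiff hWi]
  have a1 : ∑ z ∈ Icc lo hi \ Wi, (∑ y ∈ Fa, fw w p m e y * kf w p e j y z) * bw w p (e + j) (N - (e + j)) z ≤
      Ps w p m N (e + j) (Icc lo hi \ Wi) := by
    unfold Sp22.Ps
    refine sum_le_sum fun z _ => mul_le_mul_of_nonneg_right ?_ (g0 z)
    rw [fw_via ho hN z]
    exact sum_le_sum_of_subset_of_nonneg hFa fun y _ _ => mul_nonneg (f0 _ _) (k0 _ _)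
  have a2 : ∑ z ∈ Wi, (∑ y ∈ Fa, fw w p m e y * kf w p e j y z) * bw w p (e + j) (N - (e + j)) z ≤
      s₀ * Zt w p m lo hi N := by
    have b1 : ∑ z ∈ Wi, (∑ y ∈ Fa, fw w p m e y * kf w p e j y z) * bw w p (e + j) (N - (e + j)) z =
        ∑ y ∈ Fa, fw w p m e y * ∑ z ∈ Wi, ker w p e j y z * bw w p (e + j) (N - (e + j)) z := by
      simp only [sum_mul]
      rw [sum_comm]
      refine sum_congr rfl fun y _ => ?_
      rw [mul_sum]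
      refine sum_congr rfl fun z _ => ?_
      rw [kf_eq_ker]
      ring
    rw [b1]
    calc ∑ y ∈ Fa, fw w p m e y * ∑ z ∈ Wi, ker w p e j y z * bw w p (e + j) (N - (e + j)) z
        ≤ ∑ y ∈ Fa, fw w p m e y * (s₀ * bw w p e (N - e) y) :=
          sum_le_sum fun y hy => mul_le_mul_of_nonneg_left (hst y hy) (f0 _ _)
      _ = s₀ * Ps w p m N e Fa := by
          unfold Sp22.Ps
          rw [mul_sum]
          exact sum_congr rfl fun y _ => by ring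
      _ ≤ s₀ * Zt w p m lo hi N :=
          mul_le_mul_of_nonneg_left (Sp22.Ps_le_Zt hw hp h (by omega) _) hs₀
  rw [add_mul]
  linarith

/-! ### The slab -/

/-- **Entrance**: from the site `c` one is in the mouth `Wi` at the row `a`, up to `st`. -/
def Ent (Γ : Cx) (a : ℕ) (Wi : Finset ℤ) (st : ℝ) (c : ℕ × ℤ) (ω : Env) : Prop :=
  ∑ y ∈ Icc 0 Γ.hi \ Wi, ker (wt ω) Γ.p (c.1 + 1) (a - (c.1 + 1)) c.2 y * bw (wt ω) Γ.p a (Γ.N - a) y ≤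
    st * bw (wt ω) Γ.p (c.1 + 1) (Γ.N - (c.1 + 1)) c.2

/-- **Forward steepness**: from the sites `Fa` of the row `e` one is in the mouth with probability at most `s₀`. -/
def Fwd (Γ : Cx) (a : ℕ) (Wi : Finset ℤ) (s₀ : ℝ) (e : ℕ) (Fa : Finset ℤ) (ω : Env) : Prop :=
  ∀ y ∈ Fa, ∑ z ∈ Wi, ker (wt ω) Γ.p e (a - e) y z * bw (wt ω) Γ.p a (Γ.N - a) z ≤ s₀ * bw (wt ω) Γ.p e (Γ.N - e) y

/-- **The slab `u` of the triple** `(ω, ω')`: prices of the inner windows and luck, both groups. -/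
structure Slb (Γ : Cx) (R : ℕ → Env → Env → Env) (N : ℕ → Set Env) (S : Finset ℕ) (d st : ℕ → ℝ) (u a n : ℕ)
    (Wi Ce : Finset ℤ) (g Y : ℝ) (ω ω' : Env) : Prop where
  d0 : ∀ v, 0 ≤ d v
  s0 : ∀ v, 0 ≤ st v
  g0 : 0 < g
  Y0 : 0 ≤ Y
  haN : a + n ≤ Γ.N
  hWi : Wi ⊆ Icc 0 Γ.hi
  hCe : Ce ⊆ Icc 0 Γ.hi
  stl : Stp Γ R N S d st Cx.l u a (a + n) Wi Ce
  str : Stp Γ R N S d st Γ.r u a (a + n) Wi Ce
  lkl : Lky Γ Cx.l a (a + n) Wi Ce g Y ω ω'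
  lkr : Lky Γ Γ.r a (a + n) Wi Ce g Y ω ω'

variable {Γ : Cx} {G : Gm} {R : ℕ → Env → Env → Env} {N : ℕ → Set Env} {S : Finset ℕ} {d st : ℕ → ℝ} {u a n : ℕ}
  {Wi Ce : Finset ℤ} {g Y : ℝ} {ω ω' ω₁ ω₂ : Env}

/-- The probability to miss the mouth or the exit cell. -/
def kap (S : Finset ℕ) (d st : ℕ → ℝ) (u : ℕ) (g Y π : ℝ) : ℝ :=
  Real.exp (pr S d u) * (Y * Real.exp (2 * pr S d u) / (g * π) + pr S st u)

/-- Both groups miss the mouth and the exit cell with probability at most `kap`, for every environment `ω₂` which is reached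
from the lucky one, if a contact has the weight `v` for one environment `ω₁` which is reached from the typical one. -/
theorem Slb.off (hΓ : Γ.Ok) (h : Slb Γ R N S d st u a n Wi Ce g Y ω ω') (r₁ : Reach R N S u ω ω₁) (r₂ : Reach R N S u ω' ω₂)
    {x : XX Γ} {s₁ v : ℝ} (hx : x.1.1 + 1 ≤ a) (hs₁ : s₁ < 1) (hv0 : 0 < v) (hv : v ≤ Γ.w x.1 ω₁)
    (hE : Ent Γ a Wi s₁ x.1 ω₁) :
    (PG Γ Cx.l a (Icc 0 Γ.hi \ Wi) ω₂ ≤ kap S d st u g Y ((1 - s₁) * v) * ZG Γ Cx.l ω₂ ∧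
      PG Γ Cx.l (a + n) (Icc 0 Γ.hi \ Ce) ω₂ ≤ kap S d st u g Y ((1 - s₁) * v) * ZG Γ Cx.l ω₂) ∧
    (PG Γ Γ.r a (Icc 0 Γ.hi \ Wi) ω₂ ≤ kap S d st u g Y ((1 - s₁) * v) * ZG Γ Γ.r ω₂ ∧
      PG Γ Γ.r (a + n) (Icc 0 Γ.hi \ Ce) ω₂ ≤ kap S d st u g Y ((1 - s₁) * v) * ZG Γ Γ.r ω₂) := by
  have hπ : 0 < (1 - s₁) * v := mul_pos (by linarith) hv0
  have haN := h.haN
  have hen := enter_w53 hΓ x.2 ω₁ (a := a) (j := a - (x.1.1 + 1)) (by omega) (by omega) h.hWi hs₁.le hv hE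
  exact ⟨off53 h.d0 h.s0 (ms_l hΓ).nn (ZG_l_pos hΓ) h.stl h.g0 h.Y0 hπ h.lkl r₁ r₂ hen.1 le_rfl,
    off53 h.d0 h.s0 (ms_r hΓ).nn (ZG_r_pos hΓ) h.str h.g0 h.Y0 hπ h.lkr r₁ r₂ hen.2 le_rfl⟩

/-- **FAR ALTERNATIVE AGAINST LUCK** (`exclF`). -/
theorem exclF53 (hΓ : Γ.Ok) {p : Par (XX Γ)} {t i : ℕ} {x : XX Γ} (ht : t - 1 < t)
    (h : Slb Γ R N S d st u a n Wi Ce g Y ω ω') (r₁ : Reach R N S u ω ω₁) (r₂ : Reach R N S u ω' ω₂)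
    (h₁ : ω₁ ∈ Hf p (w Γ) (fa Γ G) t i x) (h₂ : ω₂ ∈ Hf p (w Γ) (fa Γ G) t i x)
    {s₀ s₁ : ℝ} (hs₀ : 0 ≤ s₀) (hs₁ : s₁ < 1) (hx : x.1.1 + 1 ≤ a) (hE : Ent Γ a Wi s₁ x.1 ω₁)
    (hr : ∀ r ∈ G.fr t (t - 1) x.1, 0 ≤ r ∧ r ≤ (a : ℤ))
    (hF : ∀ r ∈ G.fr t (t - 1) x.1, Fwd Γ a Wi s₀ r.toNat (bx Γ (G.fs i (t - 1) x.1 r)) ω₂)
    (num : 8 * (s₀ + kap S d st u g Y ((1 - s₁) * Real.exp (-p.be t i))) < Real.exp (-(p.th t i + p.sl (t - 1)))) : False := by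
  have hwx : Real.exp (-p.be t i) ≤ Γ.w x.1 ω₁ := by
    have h3 : ENNReal.ofReal (Real.exp (-p.be t i)) ≤ ENNReal.ofReal (Γ.w x.1 ω₁) := h₁.2
    rwa [ENNReal.ofReal_le_ofReal_iff (Cx.w_nonneg hΓ x.1 ω₁)] at h3
  have ho := h.off hΓ r₁ r₂ hx hs₁ (Real.exp_pos _) hwx hE
  set κ := kap S d st u g Y ((1 - s₁) * Real.exp (-p.be t i)) with hκ
  have hκ0 : 0 ≤ κ := nonneg_of_mul_nonneg_left
    ((PG_nonneg (Γ := Γ) (ms_l hΓ).nn a (Icc 0 Γ.hi \ Wi) ω₂).trans ho.1.1) (ZG_l_pos hΓ ω₂)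
  have haN := h.haN
  have h5 : fa Γ G t i (t - 1) x ω₂ ≤ ENNReal.ofReal (8 * (s₀ + κ)) := by
    refine fa_le hΓ ht (by linarith) fun r hr' hrN => ?_
    obtain ⟨r0, ra⟩ := hr r hr'
    have e1 : r.toNat + (a - r.toNat) = a := by omega
    have hF' := hF r hr'
    have key : ∀ {m : ℤ → ℝ}, Ms m 0 Γ.hi Γ.N → PG Γ m a (Icc 0 Γ.hi \ Wi) ω₂ ≤ κ * ZG Γ m ω₂ →
        PG Γ m r.toNat (bx Γ (G.fs i (t - 1) x.1 r)) ω₂ ≤ (s₀ + κ) * ZG Γ m ω₂ := by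
      intro m hm hoff
      refine far_fwd (e := r.toNat) (j := a - r.toNat) (wt_pos ω₂) Γ.p_pos hm (by omega) h.hWi (bx_sub _) hs₀ ?_ ?_
      · rw [e1]
        exact hF'
      · rw [e1]
        exact hoff
    exact ⟨key (ms_l hΓ) ho.1.1, key (ms_r hΓ) ho.2.1⟩
  have h6 : ENNReal.ofReal (Real.exp (-(p.th t i + p.sl (t - 1)))) ≤ ENNReal.ofReal (8 * (s₀ + κ)) := le_trans h₂.1 h5
  rw [ENNReal.ofReal_le_ofReal_iff (by linarith)] at h6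
  linarith

/-- **LATER CONTACTS AGAINST LUCK** (`exclE`). -/
theorem exclE53 (hΓ : Γ.Ok) {p : Par (XX Γ)} (hrow : p.row = row Γ) {K : ℕ → Type*} (cel : ∀ v, XX Γ → K v) {t i s : ℕ} {κs : K s}
    (h : Slb Γ R N S d st u a n Wi Ce g Y ω ω') (r₁ : Reach R N S u ω ω₁) (r₂ : Reach R N S u ω' ω₂)
    (h₁ : ω₁ ∈ Hs p (w Γ) cel t i s κs) (h₂ : ω₂ ∈ Hs p (w Γ) cel t i s κs)
    {s₁ δ : ℝ} (hs₁ : s₁ < 1) (hx : ∀ ρ : XX Γ, cel s ρ = κs → ρ.1.1 + 1 ≤ a) (hE : ∀ ρ : XX Γ, cel s ρ = κs → Ent Γ a Wi s₁ ρ.1 ω₁)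
    {D : ℕ} (hD : p.dl i = (D : ℤ)) (hrw : ∀ ρ : XX Γ, cel s ρ = κs → a + n ≤ ρ.1.1 + D + 1)
    (hinv : ∀ v ∈ S, v < u → ∀ ω ∈ N v, ∀ η, R v η ω ∈ N v → ∀ y z, ker (wt (R v η ω)) Γ.p a n y z = ker (wt ω) Γ.p a n y z)
    (hδ : 0 ≤ δ)
    (hcr : ∀ z ∈ Wi, ∀ z' ∈ Wi, z < z' → ∀ x ∈ Ce, ∀ y ∈ Ce, x < y →
      ker (wt ω') Γ.p a n z x * ker (wt ω') Γ.p a n z' y - ker (wt ω') Γ.p a n z y * ker (wt ω') Γ.p a n z' x ≤
        δ * (ker (wt ω') Γ.p a n z x * ker (wt ω') Γ.p a n z' y))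
    (num : ENNReal.ofReal (δ + 4 * kap S d st u g Y ((1 - s₁) * Real.exp (-p.be t i))) < p.κ3) : False := by
  obtain ⟨ρ₁, hc₁, hw₁, -⟩ := h₁
  obtain ⟨ρ₂, hc₂, -, hl₂⟩ := h₂
  have hwx : Real.exp (-p.be t i) ≤ Γ.w ρ₁.1 ω₁ := by
    have h3 : ENNReal.ofReal (Real.exp (-p.be t i)) ≤ ENNReal.ofReal (Γ.w ρ₁.1 ω₁) := hw₁
    rwa [ENNReal.ofReal_le_ofReal_iff (Cx.w_nonneg hΓ ρ₁.1 ω₁)] at h3
  have hπ : 0 < (1 - s₁) * Real.exp (-p.be t i) := mul_pos (by linarith) (Real.exp_pos _)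
  have haN := h.haN
  have hx₁ := hx ρ₁ hc₁
  have hen := enter_w53 hΓ ρ₁.2 ω₁ (a := a) (j := a - (ρ₁.1.1 + 1)) (by omega) (by omega) h.hWi hs₁.le hwx (hE ρ₁ hc₁)
  have h5 : ∑ c ∈ Γ.rows (a + n) Γ.N, Γ.w c ω₂ ≤ δ + 4 * kap S d st u g Y ((1 - s₁) * Real.exp (-p.be t i)) :=
    late53C hΓ h.d0 h.s0 haN h.hWi h.hCe h.stl h.str h.g0 h.Y0 hπ h.lkl h.lkr r₁ r₂ hen.1 hen.2 le_rfl hinv hδ hcr le_rfl
  have h6 : lm p.row (w Γ) (p.dl i) ρ₂ ω₂ ≤ ENNReal.ofReal (δ + 4 * kap S d st u g Y ((1 - s₁) * Real.exp (-p.be t i))) := by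
    rw [hrow, hD]
    exact lm_le hΓ (hrw ρ₂ hc₂) h5
  exact absurd (hl₂.trans h6) (not_le.2 num)

end

end Pool.Agent.W_7d29a1_C1.SD53
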