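import Pool.Agent.W_7d29a1_C1.Lat74
import Pool.Agent.W_7d29a1_C1.SepDef53
import Pool.Agent.W_7d29a1_C1.GeoJ37

/-!
Both halves (MP_7d29a1_pr), [C1] attractor route, SEP: THE LATERAL ESTIMATE in the names of SepDef53 and GeoJ37 (helper74).

`qp Γ c r A ω` : quenched probability that the path from the contact `c` is in `A` at the row `r`. `awy` : the sites of the row `r` at
the lateral distance `≥ K1 w u` from `c`. `StayP Γ G K1 u c` : in EVERY row above `c` up to the base of the window of the scale `u` the path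
from `c` is away with probability at most `1 / 2` (an event, `meas_StayP`). `w_le_fa` : the leaf of `relbad` (deterministic, every
environment): `relj i j x ρ`, the path from `ρ` stays at one scale `u`, `i + 3 ≤ u < j` ⇒ `w ρ ≤ 2 fa t (i + 1) (t - 1) x`.
`hrel74` : the hypothesis `hrel` of `rbJ_le`, `relbad_ofJ` (`C4 = 2`) for any relation `rl` which contains
`relj` and `no stay at the scales i + m3 ≤ u < j`, `m3 ≥ 3`.
-/

set_option autoImplicit false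

namespace Pool.Agent.W_7d29a1_C1.LtS74

open Finset MeasureTheory
open Pool.Agent.W_7d29a1_F
open Pool.Agent.W_7d29a1_C1.K91 (Box wt wt_pos measurable_wt)
open Pool.Agent.W_7d29a1_C1.K91P (fw bw fw_nonneg bw_pos fw_hi dp)
open Pool.Agent.W_7d29a1_C1.Sp22 (bf bf_zero bf_succ pc Ps Zt)
open Pool.Agent.W_7d29a1_C1.H60
open Pool.Agent.W_7d29a1_C1.G37 (Gm)
open Pool.Agent.W_7d29a1_C1.SD53
open Pool.Agent.W_7d29a1_C1.E53
open Pool.Agent.W_7d29a1_C1.Lt74 (bF lat_stay)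
open scoped ENNReal

noncomputable section

variable (Γ : Cx) (G : Gm)

/-- **The quenched probability** that the path from the contact `c` is in `A` at the row `r`. -/
def qp (c : ℕ × ℤ) (r : ℕ) (A : Set ℤ) (ω : Env) : ℝ :=
  bF (wt ω) Γ.p Γ.N r (SD53.bx Γ A) (c.1 + 1) c.2 / bw (wt ω) Γ.p (c.1 + 1) (Γ.N - (c.1 + 1)) c.2

/-- The sites of the row `r` at the lateral distance `≥ R` from `c`. -/
def awy (R : ℝ) (c : ℕ × ℤ) (r : ℕ) : Set ℤ := {y | R ≤ |((y : ℝ) - G.v * (r : ℝ)) - G.lat c|}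

/-- **The path from `c` stays** up to the base of the window of the scale `u`. -/
def StayP (K1 : ℝ) (u : ℕ) (c : ℕ × ℤ) : Set Env :=
  {ω | ∀ r : ℕ, c.1 < r → (r : ℤ) ≤ G.rcc u (G.loc u c) + G.T (u - 1) → r ≤ Γ.N →
    qp Γ c r (awy G (K1 * G.w u) c r) ω ≤ 1 / 2}

variable {Γ G}

theorem meas_bf {α : Type*} [MeasurableSpace α] {W : α → ℕ → ℤ → ℝ} {p : ℕ → ℝ} {f : α → ℤ → ℝ}
    (hW : ∀ k y, Measurable fun x => W x k y) (hf : ∀ y, Measurable fun x => f x y) :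
    ∀ (j k : ℕ) (y : ℤ), Measurable fun x => bf (W x) p (f x) k j y
  | 0, k, y => by
    simp only [bf_zero]
    exact hf y
  | j + 1, k, y => by
    simp only [bf_succ]
    exact (hW k y).mul ((meas_bf hW hf j (k + 1) y).add ((meas_bf hW hf j (k + 1) (y + 1)).const_mul _))

theorem meas_qp (c : ℕ × ℤ) (r : ℕ) (A : Set ℤ) : Measurable (qp Γ c r A) := by
  unfold qp bF
  refine Measurable.div (meas_bf measurable_wt (fun y => ?_) _ _ _) (pm_bw measurable_wt _ _ _)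
  by_cases h : y ∈ SD53.bx Γ A
  · simp only [h, if_true]
    exact pm_bw measurable_wt _ _ _
  · simp only [h, if_false]
    exact measurable_const

theorem meas_StayP (K1 : ℝ) (u : ℕ) (c : ℕ × ℤ) : MeasurableSet (StayP Γ G K1 u c) := by
  have e : StayP Γ G K1 u c = ⋂ r : ℕ, ⋂ (_ : c.1 < r), ⋂ (_ : (r : ℤ) ≤ G.rcc u (G.loc u c) + G.T (u - 1)), ⋂ (_ : r ≤ Γ.N),
      {ω | qp Γ c r (awy G (K1 * G.w u) c r) ω ≤ 1 / 2} := by
    ext ω
    simp only [Set.mem_iInter]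
    exact Iff.rfl
  rw [e]
  refine MeasurableSet.iInter fun r => MeasurableSet.iInter fun _ => MeasurableSet.iInter fun _ => MeasurableSet.iInter fun _ => ?_
  exact measurableSet_le (meas_qp c r _) measurable_const

/-- The natural weight in the letters of SpOne22. -/
theorem w_pc (h : Γ.Ok) (c : ℕ × ℤ) (ω : Env) : Γ.w c ω = pc (wt ω) Γ.p Cx.l Γ.r 0 Γ.hi Γ.N c.1 c.2 := by
  unfold pc Cx.w
  rw [Zt_l53 h, Zt_r53]

/-- A contact outside of the cone of the left group has no weight. -/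
theorem w_out {c : ℕ × ℤ} {ω : Env} (h : (c.1 : ℤ) + 1 < c.2) : Γ.w c ω = 0 := by
  have e : ∀ y : ℤ, (c.1 : ℤ) < y → fw (wt ω) Γ.p Cx.l c.1 y = 0 := fun y hy =>
    fw_hi (B := 0) (fun z hz => by
      unfold Cx.l
      rw [if_neg (by omega)]) c.1 y (by omega)
  unfold Cx.w dp
  rw [e (c.2 - 1) (by omega), e c.2 (by omega)]
  simp

/-- **THE LEAF.** -/
theorem w_le_fa (h : Γ.Ok) {K1 : ℝ} (hK : K1 + 2 ≤ 2 * G.kn) {t i j u : ℕ} (hti : t ≤ i) {x ρ : XX Γ} (hj : G.relj i j x.1 ρ.1)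
    (hu : i + 3 ≤ u) (huj : u < j) (hN : (x.1.1 : ℤ) + G.T t + G.T (t - 1) ≤ Γ.N) {ω : Env} (hs : ω ∈ StayP Γ G K1 u ρ.1) :
    SD53.w Γ ρ ω ≤ 2 * SD53.fa Γ G t (i + 1) (t - 1) x ω := by
  have hiM : i < G.M := by have := hj.2.1; omega
  have hx := Cx.mem_rows.1 x.2
  have hρ := Cx.mem_rows.1 ρ.2
  by_cases hc : (ρ.1.1 : ℤ) + 1 < ρ.1.2
  · unfold SD53.w
    rw [w_out hc, ENNReal.ofReal_zero]
    exact zero_le
  rw [not_lt] at hc
  -- the row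
  have hp := G.T_pos (t - 1)
  obtain ⟨r0, hr0, hr1, hr2⟩ : ∃ r0 : ℤ, r0 ∈ G.fr t (t - 1) x.1 ∧ (x.1.1 : ℤ) + G.T t ≤ r0 ∧
      r0 ≤ (x.1.1 : ℤ) + G.T t + G.T (t - 1) := by
    have h1 := H40.lt_nxt hp ((x.1.1 : ℤ) + G.T t)
    have h2 := H40.nxt_le hp ((x.1.1 : ℤ) + G.T t)
    have h3 := G.T_pos' (t - 1)
    refine ⟨H40.nxt (G.T (t - 1)) ((x.1.1 : ℤ) + G.T t), ?_, h1.le, h2⟩
    unfold Gm.fr
    rw [mem_filter, mem_Icc]
    refine ⟨⟨h1.le, by linarith⟩, ?_⟩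
    unfold H40.nxt
    exact dvd_mul_right _ _
  have t1 := G.T_pos' t
  have t2 := G.T_mono' (show t - 1 ≤ t by omega)
  have t3 := G.T_mono' (show t ≤ i + 1 by omega)
  have t4 := G.T_lt8 (show i + 1 < u - 1 by omega)
  have t5 := G.T_pos' (i + 1)
  have d1 := hj.2.2.1
  have d2 := hj.2.2.2.1 hiM
  have d3 := G.T_pos' i
  have d4 := G.lt_rcc u ρ.1
  have hr0n : 0 ≤ r0 := by
    have : (0 : ℤ) ≤ (x.1.1 : ℤ) := by positivity
    linarith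
  obtain ⟨r, rfl⟩ := Int.eq_ofNat_of_zero_le hr0n
  have hrN : r ≤ Γ.N := by
    have : (r : ℤ) ≤ Γ.N := by linarith
    exact_mod_cast this
  have hρr : ρ.1.1 < r := by
    have : (ρ.1.1 : ℤ) < r := by linarith
    exact_mod_cast this
  have hst := hs r hρr (by linarith) hrN
  -- the lateral distances
  have l1 := hj.far (show i ≤ u by omega) huj
  have l2 := G.w_two u
  have l3 := G.w_mono (show i + 1 ≤ u by omega)
  have l4 := G.w_pos (t - 1)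
  have l5 : 0 ≤ G.lam := by
    have := G.lam_ge
    have := G.kn_nonneg
    have := G.kb_ge
    linarith
  have l6 := G.w_pos u
  have hd : K1 * G.w u + G.W (i + 1) (t - 1) ≤ |G.lat x.1 - G.lat ρ.1| := by
    have m1 : G.W (i + 1) (t - 1) ≤ 2 * G.w u := by
      unfold Gm.W
      have := mul_nonneg l5 l4.le
      linarith
    have m2 : (K1 + 2) * G.w u ≤ 2 * G.kn * G.w u := mul_le_mul_of_nonneg_right hK l6.le
    have m3 : G.kn * (2 * G.w u) ≤ G.kn * G.w (u + 1) := mul_le_mul_of_nonneg_left l2 G.kn_nonneg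
    nlinarith
  -- the reachable sites
  have hhi : Γ.hi = Γ.k + Γ.N := rfl
  have hb : bF (wt ω) Γ.p Γ.N r (SD53.bx Γ (awy G (K1 * G.w u) ρ.1 r)) (ρ.1.1 + 1) ρ.1.2 ≤
      1 / 2 * bw (wt ω) Γ.p (ρ.1.1 + 1) (Γ.N - (ρ.1.1 + 1)) ρ.1.2 :=
    (div_le_iff₀ (bw_pos (wt_pos ω) Γ.p_pos _ _ _)).1 hst
  have hmem : ∀ (A : Set ℤ) (z : ℤ), ρ.1.2 ≤ z → z ≤ ρ.1.2 + (r - (ρ.1.1 + 1) : ℕ) → z ∈ A → z ∈ SD53.bx Γ A := by
    intro A z h1 h2 h3
    classical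
    unfold SD53.bx
    rw [mem_filter, mem_Icc]
    have h4 : (0 : ℤ) ≤ Γ.k := by positivity
    have h5 : ((r - (ρ.1.1 + 1) : ℕ) : ℤ) = (r : ℤ) - (ρ.1.1 + 1) := by omega
    have h6 : (r : ℤ) ≤ Γ.N := by exact_mod_cast hrN
    refine ⟨⟨by linarith [hρ.2.1], ?_⟩, h3⟩
    rw [hhi]
    linarith
  have key := (lat_stay (wt_pos ω) Γ.p_pos (Cx.box1 h) ⟨0, by rw [Cx.l_zero]; exact one_pos⟩
    (by obtain ⟨y, _, _, hy⟩ := Cx.r_pos h; exact ⟨y, hy⟩) hrN hρr (q := ρ.1.2) (by linarith [hρ.2.1])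
    (by rw [hhi]; have := h.k1; have h4 : (1 : ℤ) ≤ Γ.k := by exact_mod_cast this
        linarith [hρ.2.2]) (v := G.v) (a := G.lat x.1) (b := G.lat ρ.1)
    (Fs := SD53.bx Γ (awy G (K1 * G.w u) ρ.1 r)) (Ff := SD53.bx Γ (G.fs (i + 1) (t - 1) x.1 (r : ℤ)))
    (fun z h1 h2 h3 => hmem _ z h1 h2 h3) (fun z h1 h2 h3 => hmem _ z h1 h2 (by
      show G.W (i + 1) (t - 1) ≤ |((z : ℝ) - G.v * ((r : ℤ) : ℝ)) - G.lat x.1|
      rw [Int.cast_natCast]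
      exact h3)) hd hb).1
  rw [← w_pc h] at key
  have key2 : Γ.w ρ.1 ω ≤ 2 * PX Γ Cx.l r (G.fs (i + 1) (t - 1) x.1 (r : ℤ)) ω := key
  have hP0 := PX_nonneg (Γ := Γ) Cx.l_nonneg r (G.fs (i + 1) (t - 1) x.1 (r : ℤ)) ω
  calc SD53.w Γ ρ ω ≤ ENNReal.ofReal (2 * PX Γ Cx.l r (G.fs (i + 1) (t - 1) x.1 (r : ℤ)) ω) := ENNReal.ofReal_le_ofReal key2
    _ = 2 * ENNReal.ofReal (PX Γ Cx.l r (G.fs (i + 1) (t - 1) x.1 (r : ℤ)) ω) := by
        rw [ENNReal.ofReal_mul (by norm_num)]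
        simp
    _ ≤ 2 * SD53.fa Γ G t (i + 1) (t - 1) x ω := by
        refine mul_le_mul' le_rfl ?_
        unfold SD53.fa
        have hm : (r : ℤ) ∈ (G.fr t (t - 1) x.1).filter (fun r => r ≤ (Γ.N : ℤ)) :=
          mem_filter.2 ⟨hr0, by exact_mod_cast hrN⟩
        refine le_trans ?_ (single_le_sum (f := fun r : ℤ => ENNReal.ofReal (PX Γ Cx.l r.toNat (G.fs (i + 1) (t - 1) x.1 r) ω) +
          ENNReal.ofReal (PX Γ Γ.r r.toNat (G.fs (i + 1) (t - 1) x.1 r) ω)) (fun _ _ => zero_le) hm)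
        exact le_self_add

/-- **`mvfa`** for the relation with two indices. -/
theorem mvfaJ (h : Γ.Ok) {t s i j t' k : ℕ} (ht : t ≤ i) (hj : j < G.M) (hs : s < i) {x ρ ρ' : XX Γ} (hr : G.relj i j x.1 ρ.1)
    (hn : G.Nb s (G.loc s ρ.1) ρ'.1) (ω : Env) : SD53.fa Γ G t' k (t - 1) x ω ≤ SD53.fa Γ G t' k (j + G.m2) ρ' ω := by
  have hi : i < G.M := by have := hr.1; omega
  unfold SD53.fa
  refine (sum_le_sum fun r _ => add_le_add
    (ENNReal.ofReal_le_ofReal (PX_mono Cx.l_nonneg _ (hr.fs_sub (k := k) ht hj hs hn r) ω))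
    (ENNReal.ofReal_le_ofReal (PX_mono (Cx.r_nonneg h) _ (hr.fs_sub (k := k) ht hj hs hn r) ω))).trans ?_
  exact sum_le_sum_of_subset (filter_subset_filter _ (hr.fr_sub ht hi hs hn))

/-- **The hypothesis `hrel`** of `rbJ_le`, one pair of contacts. -/
theorem hrel74 (h : Γ.Ok) {K1 : ℝ} (hK : K1 + 2 ≤ 2 * G.kn) {t i m3 : ℕ} (hm3 : 3 ≤ m3) (hti : t ≤ i) (hi : i ≤ G.M) {x ρ : XX Γ}
    (hN : (x.1.1 : ℤ) + G.T t + G.T (t - 1) ≤ Γ.N) {ω : Env} {rl : ℕ → Set Env}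
    (hrl : ∀ j, i ≤ j → j ≤ G.M → G.relj i j x.1 ρ.1 → (∀ u, i + m3 ≤ u → u < j → ω ∉ StayP Γ G K1 u ρ.1) → ω ∈ rl j)
    (hrow : (ρ.1.1 : ℤ) < (x.1.1 : ℤ) - G.dk i (t - 1)) (hno : ∀ j ∈ Icc i G.M, ω ∉ rl j) :
    i < G.M ∧ ((ρ.1.1 : ℤ) < (x.1.1 : ℤ) - G.dk (i + 1) (t - 1) ∨ SD53.w Γ ρ ω ≤ 2 * SD53.fa Γ G t (i + 1) (t - 1) x ω) := by
  rcases G.relj_cases hti hi hrow with ⟨j, hj⟩ | ⟨h1, h2⟩
  · have hij := hj.1
    have hjM := hj.2.1
    have h3 : ¬ ∀ u, i + m3 ≤ u → u < j → ω ∉ StayP Γ G K1 u ρ.1 := fun h4 =>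
      hno j (mem_Icc.2 ⟨hij, hjM⟩) (hrl j hij hjM hj h4)
    push Not at h3
    obtain ⟨u, h4, h5, h6⟩ := h3
    exact ⟨by omega, Or.inr (w_le_fa h hK hti hj (by omega) h5 hN h6)⟩
  · exact ⟨h1, Or.inl h2⟩

end

end Pool.Agent.W_7d29a1_C1.LtS74
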