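import Pool.Agent.W_7d29a1_C1.SkelQ49
import Pool.Agent.W_7d29a1_C1.GeoP37
import Pool.Agent.W_7d29a1_C1.LatS74
import Pool.Agent.W_7d29a1_C1.Excl53D

/-!
Both halves (MP_7d29a1_pr), attractor route [C1], SEP: THE FRAME, `MoveQ` OVER THE MODEL (helper98).

`FS Γ G mt`: the contacts with `row + 2 T mt ≤ N` (all the windows of their towers are below the row `N`); `wS`: the weight of
SepDef53 for these contacts; the transfer from the contacts of SepDef53 (`XX Γ`) is in `em_up`, `lm_up`, `Hf_up`, `Hs_up`, `osc_up`.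
`TA`, `Tx`, `rl98`: the typical events and the relation of the move from a family `TT σ u κ` with a real slack `σ` (helper25 84455).
`In98`: what is still needed; `In98.move : MoveQ`; `sep98`: the separation.
-/

set_option autoImplicit false

namespace Pool.Agent.W_7d29a1_C1.SF98

open Finset MeasureTheory
open Pool.Agent.W_7d29a1_F
open Pool.Agent.W_7d29a1_C1.H60
open Pool.Agent.W_7d29a1_C1.G37 (Gm)
open Pool.Agent.W_7d29a1_C1.H49 (Par MoveQ ex lm Hf Hs Osc fac rat hM gM cnt)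
open Pool.Agent.W_7d29a1_C1.SD53 (XX)
open scoped ENNReal

noncomputable section

/-! ### The contacts -/

variable (Γ : Cx) (G : Gm) (mt : ℕ)

/-- The sites of the contacts which have all their windows below the row `N`. -/
def FS : Finset (ℕ × ℤ) := (Γ.rows 0 Γ.N).filter fun c => c.1 + 2 * G.T mt ≤ Γ.N

/-- These contacts. -/
abbrev XS : Type := {c : ℕ × ℤ // c ∈ FS Γ G mt}

variable {Γ G mt}

theorem mem_FS {c : ℕ × ℤ} : c ∈ FS Γ G mt ↔ c ∈ Γ.rows 0 Γ.N ∧ c.1 + 2 * G.T mt ≤ Γ.N := by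
  unfold FS
  exact mem_filter

/-- The contact as a contact of SepDef53. -/
def up (x : XS Γ G mt) : XX Γ := ⟨x.1, (mem_FS.1 x.2).1⟩

theorem up_val (x : XS Γ G mt) : (up x).1 = x.1 := rfl

theorem row_up (x : XS Γ G mt) : x.1.1 + 2 * G.T mt ≤ Γ.N := (mem_FS.1 x.2).2

variable (Γ G mt)

/-- **The weight.** -/
def wS (x : XS Γ G mt) (ω : Env) : ℝ≥0∞ := SD53.w Γ (up x) ω

/-- The row of a contact. -/
def rowS (x : XS Γ G mt) : ℤ := (x.1.1 : ℤ)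

variable {Γ G mt}

theorem meas_wS (x : XS Γ G mt) : Measurable (wS Γ G mt x) := SD53.meas_w _

theorem sum_XS (F : ℕ × ℤ → ℝ≥0∞) : ∑ x : XS Γ G mt, F x.1 = ∑ c ∈ FS Γ G mt, F c := Finset.sum_coe_sort (FS Γ G mt) F

theorem sum_wS_le (h : Γ.Ok) (ω : Env) : ∑ x : XS Γ G mt, wS Γ G mt x ω ≤ 1 := by
  refine le_trans ?_ (SD53.sum_w_le h ω)
  have e1 : ∑ x : XS Γ G mt, wS Γ G mt x ω = ∑ c ∈ FS Γ G mt, ENNReal.ofReal (Γ.w c ω) :=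
    sum_XS fun c => ENNReal.ofReal (Γ.w c ω)
  have e2 : ∑ x : XX Γ, SD53.w Γ x ω = ∑ c ∈ Γ.rows 0 Γ.N, ENNReal.ofReal (Γ.w c ω) :=
    SD53.sum_w_coe fun c => ENNReal.ofReal (Γ.w c ω)
  rw [e1, e2]
  exact sum_le_sum_of_subset (filter_subset _ _)

/-- Earlier contacts are the same. -/
theorem em_up {D : ℤ} (hD : 0 ≤ D) (x : XS Γ G mt) (ω : Env) :
    H49.em (rowS Γ G mt) (wS Γ G mt) D x ω = H49.em (SD53.row Γ) (SD53.w Γ) D (up x) ω := by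
  classical
  have e1 : H49.em (rowS Γ G mt) (wS Γ G mt) D x ω =
      ∑ c ∈ FS Γ G mt, if (c.1 : ℤ) < (x.1.1 : ℤ) - D then ENNReal.ofReal (Γ.w c ω) else 0 := by
    rw [← sum_XS fun c => if (c.1 : ℤ) < (x.1.1 : ℤ) - D then ENNReal.ofReal (Γ.w c ω) else 0]
    unfold H49.em
    exact sum_congr rfl fun ρ _ => if_congr Iff.rfl rfl rfl
  have e2 : H49.em (SD53.row Γ) (SD53.w Γ) D (up x) ω =
      ∑ c ∈ Γ.rows 0 Γ.N, if (c.1 : ℤ) < (x.1.1 : ℤ) - D then ENNReal.ofReal (Γ.w c ω) else 0 := by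
    rw [← SD53.sum_w_coe fun c => if (c.1 : ℤ) < (x.1.1 : ℤ) - D then ENNReal.ofReal (Γ.w c ω) else 0]
    unfold H49.em
    exact sum_congr rfl fun ρ _ => if_congr Iff.rfl rfl rfl
  rw [e1, e2]
  refine sum_subset (filter_subset _ _) fun c hc hn => ?_
  have h1 : ¬ c.1 + 2 * G.T mt ≤ Γ.N := fun h => hn (mem_FS.2 ⟨hc, h⟩)
  have h2 := row_up x
  rw [if_neg]
  intro h3
  omega

/-- Later contacts: some are lost. -/
theorem lm_up (D : ℤ) (x : XS Γ G mt) (ω : Env) :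
    lm (rowS Γ G mt) (wS Γ G mt) D x ω ≤ lm (SD53.row Γ) (SD53.w Γ) D (up x) ω := by
  classical
  have e1 : lm (rowS Γ G mt) (wS Γ G mt) D x ω =
      ∑ c ∈ FS Γ G mt, if (x.1.1 : ℤ) + D < (c.1 : ℤ) then ENNReal.ofReal (Γ.w c ω) else 0 := by
    rw [← sum_XS fun c => if (x.1.1 : ℤ) + D < (c.1 : ℤ) then ENNReal.ofReal (Γ.w c ω) else 0]
    unfold lm
    exact sum_congr rfl fun ρ _ => if_congr Iff.rfl rfl rfl
  have e2 : lm (SD53.row Γ) (SD53.w Γ) D (up x) ω =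
      ∑ c ∈ Γ.rows 0 Γ.N, if (x.1.1 : ℤ) + D < (c.1 : ℤ) then ENNReal.ofReal (Γ.w c ω) else 0 := by
    rw [← SD53.sum_w_coe fun c => if (x.1.1 : ℤ) + D < (c.1 : ℤ) then ENNReal.ofReal (Γ.w c ω) else 0]
    unfold lm
    exact sum_congr rfl fun ρ _ => if_congr Iff.rfl rfl rfl
  rw [e1, e2]
  exact sum_le_sum_of_subset (filter_subset _ _)

/-! ### The events -/

section Ev

variable (TT : ℝ → ℕ → ℤ × ℤ → Set Env) (L : ℕ → ℤ × ℤ → Set Env) (q : ℕ) (d sl smax : ℕ → ℝ)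

/-- The slack used by the changed scales `A` below `u`. -/
def dA (A : Finset ℕ) (u : ℕ) : ℝ := 2 * ∑ v ∈ A.filter fun v => v + q ≤ u, d v

/-- **The typical event** of the scale `u`, the scales of `A` are already changed. -/
def TA (A : Finset ℕ) (u : ℕ) (κ : ℤ × ℤ) : Set Env := TT (sl (u - 1) + dA q d A u) u κ

/-- **The typical event** with the largest slack. -/
def Tx (u : ℕ) (κ : ℤ × ℤ) : Set Env := TT (smax u) u κ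

/-- **The relation of the move.** -/
def rl98 (G : Gm) (m3 i j : ℕ) (x ρ : ℕ × ℤ) : Set Env :=
  {ω | G.relj i j x ρ ∧ ∀ u ∈ Ico (i + m3) j, ω ∉ TA TT q d sl ∅ u (G.loc u ρ)}

/-- The scales which are paid. -/
def Sq (q r s i : ℕ) : Finset ℕ := Ico (s + q) (i - r)

variable {TT L q d sl smax}

theorem dA_empty (u : ℕ) : dA q d ∅ u = 0 := by simp [dA]

theorem dA_mono (hd : ∀ v, 0 ≤ d v) {A B : Finset ℕ} (h : A ⊆ B) (u : ℕ) : dA q d A u ≤ dA q d B u :=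
  mul_le_mul_of_nonneg_left (sum_le_sum_of_subset_of_nonneg (filter_subset_filter _ h) fun v _ _ => hd v) zero_le_two

theorem dA_insert {A : Finset ℕ} {v u : ℕ} (hv : v ∉ A) (hvu : v + q ≤ u) : dA q d (insert v A) u = dA q d A u + 2 * d v := by
  unfold dA
  rw [filter_insert, if_pos hvu, sum_insert fun h => hv (mem_filter.1 h).1]
  ring

theorem dA_le (hd : ∀ v, 0 ≤ d v) (A : Finset ℕ) (u : ℕ) : dA q d A u ≤ 2 * ∑ v ∈ (range (u + 1)).filter fun v => v + q ≤ u, d v := by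
  refine mul_le_mul_of_nonneg_left (sum_le_sum_of_subset_of_nonneg (fun v hv => ?_) fun v _ _ => hd v) zero_le_two
  rw [mem_filter] at hv ⊢
  refine ⟨mem_range.2 (by omega), hv.2⟩

theorem Sq_sub {q r : ℕ} (hq : q ≠ 0) (s i : ℕ) : Sq q r s i ⊆ Ioo s i := by
  intro v hv
  unfold Sq at hv
  rw [mem_Ico] at hv
  rw [mem_Ioo]
  omega

theorem card_Sq (q r s i : ℕ) : i ≤ s + (Sq q r s i).card + (q + r) := by
  unfold Sq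
  rw [Nat.card_Ico]
  omega

theorem meas_rl98 (G : Gm) (hm : ∀ σ u κ, MeasurableSet (TT σ u κ)) (m3 i j : ℕ) (x ρ : ℕ × ℤ) :
    MeasurableSet (rl98 TT q d sl G m3 i j x ρ) := by
  have e : rl98 TT q d sl G m3 i j x ρ = {_ω | G.relj i j x ρ} ∩ ⋂ u ∈ Ico (i + m3) j, (TA TT q d sl ∅ u (G.loc u ρ))ᶜ := by
    ext ω
    simp only [rl98, Set.mem_inter_iff, Set.mem_iInter, Set.mem_compl_iff]
    exact Iff.rfl
  rw [e]
  exact (MeasurableSet.const _).inter (Finset.measurableSet_biInter _ fun u _ => (hm _ _ _).compl)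

end Ev

/-! ### The frame -/

section Frame

variable (Γ : Cx) (G : Gm) (mt : ℕ)

/-- The parameters. -/
abbrev p98 (th : ℕ → ℕ → ℝ) (sl : ℕ → ℝ) (be : ℕ → ℕ → ℝ) (b : ℕ → ℝ) (st : ℕ → ℕ → ℕ) (κ3 θ : ℝ≥0∞) : Par (XS Γ G mt) :=
  G.par (FS Γ G mt) th sl be b st κ3 θ

/-- The parameters on the contacts of SepDef53. -/
abbrev pX (th : ℕ → ℕ → ℝ) (sl : ℕ → ℝ) (be : ℕ → ℕ → ℝ) (b : ℕ → ℝ) (st : ℕ → ℕ → ℕ) (κ3 θ : ℝ≥0∞) : Par (XX Γ) :=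
  G.par (Γ.rows 0 Γ.N) th sl be b st κ3 θ

/-- The cells. -/
abbrev KS (u : ℕ) : Type := G.Kc (FS Γ G mt) u

/-- **WHAT IS STILL NEEDED** (the letters of `MoveQ`; `T A u κ = TT (sl (u - 1) + 2 ∑_(v ∈ A, v + q ≤ u) d v) u κ`, `Tt u κ = TT (smax u) u κ`,
`S s i = [s + q, i - r)`). -/
structure In98 (μ : Measure ℝ) (fa : ℕ → ℕ → ℕ → XS Γ G mt → Env → ℝ≥0∞) (pot : ℕ → ℝ → XS Γ G mt → Env → ℝ≥0∞)
    (TT : ℝ → ℕ → ℤ × ℤ → Set Env) (L : ℕ → ℤ × ℤ → Set Env) (d sl smax : ℕ → ℝ) (th be : ℕ → ℕ → ℝ) (b : ℕ → ℝ)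
    (st : ℕ → ℕ → ℕ) (κ3 θ : ℝ≥0∞) (τ0 q r q0 m1 m3 n1 C' : ℕ) (c c1 C1 C4 Ast δ3 : ℝ≥0∞) : Prop where
  ok : Γ.Ok
  -- masses
  mfa : ∀ t k τ x, Measurable (fa t k τ x)
  mpot : ∀ τ σ x, Measurable (pot τ σ x)
  fa_mono : ∀ t k τ τ' x ω, τ ≤ τ' → fa t k τ x ω ≤ fa t k τ' x ω
  mvfa : ∀ t i j s t' k (x ρ ρ' : XS Γ G mt), τ0 < t → t ≤ i → s < i → G.relj i j x.1 ρ.1 → G.Nb s (G.loc s ρ.1) ρ'.1 → j < G.M →
    j + G.m2 < t' → t' + G.m0 ≤ k → k ≤ G.M → ∀ ω, fa t' k (t - 1) x ω ≤ fa t' k (j + G.m2) ρ' ω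
  far : ∀ t i j u (x ρ : XS Γ G mt), τ0 < t → t + G.m0 ≤ i → G.relj i j x.1 ρ.1 → i + m3 ≤ u → u < j →
    ∀ ω ∈ TA TT q d sl ∅ u (G.loc u ρ.1), wS Γ G mt ρ ω ≤ C4 * fa t (i + 1) (t - 1) x ω
  pot_le : ∀ τ σ x ω, pot τ σ x ω ≤ 1
  pot_mono : ∀ τ τ' σ σ' x ω, τ ≤ τ' → σ ≤ σ' → pot τ σ x ω ≤ pot τ' σ' x ω
  -- numbers
  An_le : G.An ≤ C'
  qr_le : q + r ≤ m1
  sl_mono : Monotone sl
  d_nonneg : ∀ v, 0 ≤ d v
  smax_ge : ∀ u, sl (u - 1) + 2 * ∑ v ∈ (range (u + 1)).filter (fun v => v + q ≤ u), d v ≤ smax u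
  b_nonneg : ∀ v, 0 ≤ b v
  one_le : 1 ≤ θ
  θ_top : θ ≠ ⊤
  q_ne : q ≠ 0
  c_pow : (1 + c1) ^ q = 1 + c
  c_eq : 1 + c1 = θ ^ 2
  st_pow : ∀ t i, (p98 Γ G mt th sl be b st κ3 θ).rg τ0 t i → θ ^ (2 * (st t i - t)) ≤ Ast * ((i - t : ℕ) + 1) ^ n1
  st_ge : ∀ t i, (p98 Γ G mt th sl be b st κ3 θ).rg τ0 t i → t ≤ st t i
  st_lt : ∀ t i, (p98 Γ G mt th sl be b st κ3 θ).rg τ0 t i → st t i < i
  slack : ∀ t i j, (p98 Γ G mt th sl be b st κ3 θ).rg τ0 t i → i ≤ j → j ≤ G.M →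
    sl (t - 1) + ∑ v ∈ Ico (st t i) i, b v ≤ sl (j + G.m2)
  num : θ ^ G.M * ∑ t ∈ Ioc τ0 G.M, ∑ i ∈ Icc (t + G.m0) G.M, (Fintype.card (XS Γ G mt) * ex (-be t i) +
    Fintype.card (XS Γ G mt) * ex (-be t i) * ex (th t i + sl (t - 1)) + κ3 + δ3) ≤ 1
  num4 : ∀ t i, (p98 Γ G mt th sl be b st κ3 θ).rg τ0 t i →
    (1 + Fintype.card (XS Γ G mt) * C4) * ex (-(th t (i + 1) - th t i)) ≤ δ3
  -- events
  mTT : ∀ σ u κ, MeasurableSet (TT σ u κ)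
  mL : ∀ u κ, MeasurableSet (L u κ)
  TT_mono : ∀ σ σ' u κ, σ ≤ σ' → TT σ u κ ⊆ TT σ' u κ
  dis : ∀ u κ, Disjoint (Tx TT smax u κ) (L u κ)
  stp : ∀ u v, τ0 < u → u + q ≤ v → v < G.M → ∀ (κ : KS Γ G mt u), ∀ ρ ∈ G.nb (FS Γ G mt) u κ, ∀ σ, sl (v - 1) ≤ σ →
    σ + 2 * d u ≤ smax v → ∀ ω ∈ Tx TT smax u κ.1, ∀ η, G.R u κ.1 η ω ∈ L u κ.1 → ω ∈ TT σ v (G.loc v ρ.1) →
      G.R u κ.1 η ω ∈ TT (σ + 2 * d u) v (G.loc v ρ.1)
  -- potential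
  pot_late : ∀ t i, (p98 Γ G mt th sl be b st κ3 θ).rg τ0 t i → ∀ x ω, pot (t - 1) (sl (t - 1)) x ω ≤ θ ^ q0 *
    ((∏ u ∈ Sq q r (st t i) i, fac (TA TT q d sl ∅ u (G.loc u x.1)) c1 ω) * pot (i + G.m2) (sl (t - 1)) x ω)
  pot_none : ∀ t i j, (p98 Γ G mt th sl be b st κ3 θ).rg τ0 t i → i ≤ j → j ≤ G.M → ∀ (x ρ : XS Γ G mt),
    ∀ ω ∈ rl98 TT q d sl G m3 i j x.1 ρ.1, (∀ u ∈ Ico (st t i) i, ω ∉ TA TT q d sl ∅ u (G.loc u ρ.1)) →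
      pot (t - 1) (sl (t - 1)) x ω ≤ θ ^ q0 * ((1 + c1)⁻¹ ^ ((i - st t i) + (j - i)) * pot (j + G.m2) (sl (t - 1)) x ω)
  pot_early : ∀ t i j, (p98 Γ G mt th sl be b st κ3 θ).rg τ0 t i → i ≤ j → j ≤ G.M → ∀ s ∈ Ico (st t i) i,
    ∀ (x ρ : XS Γ G mt), ∀ ρ' ∈ G.nb (FS Γ G mt) s (G.cel (FS Γ G mt) s ρ), ∀ ω ∈ rl98 TT q d sl G m3 i j x.1 ρ.1,
    ω ∈ TA TT q d sl ∅ s (G.loc s ρ.1) → (∀ u ∈ Ico (st t i) s, ω ∉ TA TT q d sl ∅ u (G.loc u ρ.1)) →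
      pot (t - 1) (sl (t - 1)) x ω ≤ θ ^ q0 * (1 + c1)⁻¹ ^ ((s - st t i) + (j - i)) *
        ((∏ u ∈ Sq q r s i, fac (TA TT q d sl ∅ u (G.loc u ρ'.1)) c1 ω) * pot (j + G.m2) (sl (t - 1)) ρ' ω)
  -- averaged comparisons
  cmpA : ∀ t i, (p98 Γ G mt th sl be b st κ3 θ).rg τ0 t i → ∀ u ∈ Ico (st t i) i, ∀ y : XS Γ G mt,
    ∀ ω ∈ Tx TT smax u (G.loc u y.1),
      c * ∫⁻ ξ, (Tx TT smax u (G.loc u y.1)).indicator (wS Γ G mt y) (G.R u (G.loc u y.1) ξ ω) ∂(law μ) ≤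
        ∫⁻ η, (L u (G.loc u y.1)).indicator (wS Γ G mt y) (G.R u (G.loc u y.1) η ω) ∂(law μ)
  M3A : ∀ t i, (p98 Γ G mt th sl be b st κ3 θ).rg τ0 t i → ∀ s ∈ Ico (st t i) i, ∀ κ : KS Γ G mt s,
    ∀ ω ∈ TA TT q d sl ∅ s κ.1, ω ∈ Hs (p98 Γ G mt th sl be b st κ3 θ) (wS Γ G mt) (G.cel (FS Γ G mt)) t i s κ →
      ∫⁻ ξ, (TA TT q d sl ∅ s κ.1).indicator (rat (p98 Γ G mt th sl be b st κ3 θ) (wS Γ G mt) (G.cel (FS Γ G mt))
        (G.low (FS Γ G mt)) t i s κ) (G.R s κ.1 ξ ω) ∂(law μ) ≤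
      C1 * ∫⁻ η, (L s κ.1).indicator (fun ω => ∑ ρ ∈ G.nb (FS Γ G mt) s κ, wS Γ G mt ρ ω) (G.R s κ.1 η ω) ∂(law μ)
  -- exclusion
  exclF : ∀ t i, (p98 Γ G mt th sl be b st κ3 θ).rg τ0 t i → ∀ x : XS Γ G mt, ∀ u ∈ Sq q r (st t i) i,
    ∀ ω ∈ Tx TT smax u (G.loc u x.1), ∀ η, G.R u (G.loc u x.1) η ω ∈ L u (G.loc u x.1) →
    ∀ ω₁ ∈ Hf (p98 Γ G mt th sl be b st κ3 θ) (wS Γ G mt) fa t i x,
      Lt87.Reach (fun v => G.R v (G.loc v x.1)) (fun v => Tx TT smax v (G.loc v x.1) ∪ L v (G.loc v x.1))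
        ((Sq q r (st t i) i).filter fun v => v % q = u % q) u ω ω₁ →
    ∀ ω₂ ∈ Hf (p98 Γ G mt th sl be b st κ3 θ) (wS Γ G mt) fa t i x,
      Lt87.Reach (fun v => G.R v (G.loc v x.1)) (fun v => Tx TT smax v (G.loc v x.1) ∪ L v (G.loc v x.1))
        ((Sq q r (st t i) i).filter fun v => v % q = u % q) u (G.R u (G.loc u x.1) η ω) ω₂ → False
  exclE : ∀ t i, (p98 Γ G mt th sl be b st κ3 θ).rg τ0 t i → ∀ s ∈ Ico (st t i) i, ∀ κ : KS Γ G mt s,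
    ∀ ρ ∈ G.nb (FS Γ G mt) s κ, ∀ u ∈ Sq q r s i,
    ∀ ω ∈ Tx TT smax u (G.loc u ρ.1), ∀ η, G.R u (G.loc u ρ.1) η ω ∈ L u (G.loc u ρ.1) →
    ∀ ω₁ ∈ Hs (p98 Γ G mt th sl be b st κ3 θ) (wS Γ G mt) (G.cel (FS Γ G mt)) t i s κ ∩ TA TT q d sl ∅ s κ.1,
      Lt87.Reach (Function.update (fun v => G.R v (G.loc v ρ.1)) s (G.R s κ.1))
        (Function.update (fun v => Tx TT smax v (G.loc v ρ.1) ∪ L v (G.loc v ρ.1)) s (Tx TT smax s κ.1 ∪ L s κ.1))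
          (insert s ((Sq q r s i).filter fun v => v % q = u % q)) u ω ω₁ →
    ∀ ω₂ ∈ Hs (p98 Γ G mt th sl be b st κ3 θ) (wS Γ G mt) (G.cel (FS Γ G mt)) t i s κ ∩ TA TT q d sl ∅ s κ.1,
      Lt87.Reach (Function.update (fun v => G.R v (G.loc v ρ.1)) s (G.R s κ.1))
        (Function.update (fun v => Tx TT smax v (G.loc v ρ.1) ∪ L v (G.loc v ρ.1)) s (Tx TT smax s κ.1 ∪ L s κ.1))
          (insert s ((Sq q r s i).filter fun v => v % q = u % q)) u (G.R u (G.loc u ρ.1) η ω) ω₂ → False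
  -- oscillation
  oscT : ∀ t i j, (p98 Γ G mt th sl be b st κ3 θ).rg τ0 t i → i ≤ j → j ≤ G.M → ∀ u ∈ Ico (st t i) i, ∀ y : XS Γ G mt,
    ∀ ω ∈ Tx TT smax u (G.loc u y.1), ∀ η, G.R u (G.loc u y.1) η ω ∈ L u (G.loc u y.1) →
      Osc (p98 Γ G mt th sl be b st κ3 θ) (wS Γ G mt) fa pot (j + G.m2) y (b u) ω (G.R u (G.loc u y.1) η ω)
  oscS : ∀ t i j, (p98 Γ G mt th sl be b st κ3 θ).rg τ0 t i → i ≤ j → j ≤ G.M → ∀ s ∈ Ico (st t i) i, ∀ κ : KS Γ G mt s,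
    ∀ ρ ∈ G.nb (FS Γ G mt) s κ, ∀ ω ∈ TA TT q d sl ∅ s κ.1, ∀ η, G.R s κ.1 η ω ∈ L s κ.1 →
      Osc (p98 Γ G mt th sl be b st κ3 θ) (wS Γ G mt) fa pot (j + G.m2) ρ (b s) ω (G.R s κ.1 η ω)

variable {Γ G mt}

/-- A contact is a target of its own cell. -/
theorem nb_self {F : Finset (ℕ × ℤ)} (u : ℕ) (y : {c // c ∈ F}) : y ∈ G.nb F u (G.cel F u y) := by
  rw [Gm.mem_nb]
  have h1 := G.lo_le u y.1
  have h2 := G.lt_rcc u y.1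
  have h3 := G.lat_ctr u y.1
  have h4 := G.g_le u
  have h5 := G.w_pos u
  have h6 := G.kb_ge
  have h7 := G.T_pos' u
  refine ⟨h1, ?_, ?_⟩
  · show (y.1.1 : ℤ) < G.rcc u (G.loc u y.1) + G.T u
    linarith
  · show |G.lat y.1 - G.ctr u (G.loc u y.1)| ≤ G.kb * G.w u
    have h8 : G.w u ≤ G.kb * G.w u := le_mul_of_one_le_left h5.le h6
    linarith

namespace In98

variable {μ : Measure ℝ} [IsProbabilityMeasure μ] {fa : ℕ → ℕ → ℕ → XS Γ G mt → Env → ℝ≥0∞}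
  {pot : ℕ → ℝ → XS Γ G mt → Env → ℝ≥0∞} {TT : ℝ → ℕ → ℤ × ℤ → Set Env} {L : ℕ → ℤ × ℤ → Set Env} {d sl smax : ℕ → ℝ}
  {th be : ℕ → ℕ → ℝ} {b : ℕ → ℝ} {st : ℕ → ℕ → ℕ} {κ3 θ : ℝ≥0∞} {τ0 q r q0 m1 m3 n1 C' : ℕ} {c c1 C1 C4 Ast δ3 : ℝ≥0∞}

omit [IsProbabilityMeasure μ] in
/-- `T A u κ ⊆ Tt u κ`. -/
theorem sub (h : In98 Γ G mt μ fa pot TT L d sl smax th be b st κ3 θ τ0 q r q0 m1 m3 n1 C' c c1 C1 C4 Ast δ3) (A : Finset ℕ) (u : ℕ)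
    (κ : ℤ × ℤ) : TA TT q d sl A u κ ⊆ Tx TT smax u κ :=
  h.TT_mono _ _ _ _ ((add_le_add le_rfl (dA_le h.d_nonneg A u)).trans (h.smax_ge u))

theorem relbad (h : In98 Γ G mt μ fa pot TT L d sl smax th be b st κ3 θ τ0 q r q0 m1 m3 n1 C' c c1 C1 C4 Ast δ3) :
    ∀ t i, (p98 Γ G mt th sl be b st κ3 θ).rg τ0 t i → ∑ x, ∫⁻ ω, wS Γ G mt x ω *
      H49.rbJ (p98 Γ G mt th sl be b st κ3 θ) (wS Γ G mt) fa (fun i j x ρ => rl98 TT q d sl G m3 i j x.1 ρ.1) t i x ω ∂(law μ) ≤ δ3 := by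
  refine H49.relbad_ofJ meas_wS (sum_wS_le h.ok) h.mfa (fun i j x ρ => meas_rl98 G h.mTT m3 i j x.1 ρ.1) (C4 := C4) ?_ h.num4
  intro t i hti x ω ρ hrow hno
  obtain ⟨h1, h2, h3⟩ := hti
  have h2' : t + G.m0 ≤ i := h2
  have h3' : i ≤ G.M := h3
  rcases G.relj_cases (t := t) (i := i) (by omega) h3' (x := x.1) (ρ := ρ.1) hrow with ⟨j, hj⟩ | ⟨h4, h5⟩
  · have h6 := hno j (mem_Icc.2 ⟨hj.1, hj.2.1⟩)
    have h7 : ¬ ∀ u ∈ Ico (i + m3) j, ω ∉ TA TT q d sl ∅ u (G.loc u ρ.1) := fun h8 => h6 ⟨hj, h8⟩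
    push Not at h7
    obtain ⟨u, hu, hω⟩ := h7
    rw [mem_Ico] at hu
    refine ⟨?_, Or.inr (h.far t i j u x ρ h1 h2' hj hu.1 hu.2 ω hω)⟩
    show i < G.M
    have := hj.2.1
    omega
  · exact ⟨h4, Or.inl h5⟩

/-- **`MoveQ` OVER THE MODEL.** -/
theorem move (h : In98 Γ G mt μ fa pot TT L d sl smax th be b st κ3 θ τ0 q r q0 m1 m3 n1 C' c c1 C1 C4 Ast δ3) :
    MoveQ (law μ) (p98 Γ G mt th sl be b st κ3 θ) (wS Γ G mt) fa pot (fun i j x ρ => rl98 TT q d sl G m3 i j x.1 ρ.1)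
      (G.cel (FS Γ G mt)) (G.Rs (FS Γ G mt)) (fun A u κ => TA TT q d sl A u κ.1) (fun u κ => Tx TT smax u κ.1)
      (fun u κ => L u κ.1) (G.nb (FS Γ G mt)) (G.low (FS Γ G mt)) (Sq q r) τ0 q q0 m1 n1 C' c c1 C1 Ast δ3 where
  mw := meas_wS
  mfa := h.mfa
  mpot := h.mpot
  mrl := fun i j x ρ => meas_rl98 G h.mTT m3 i j x.1 ρ.1
  sum_w := sum_wS_le h.ok
  fa_mono := h.fa_mono
  pot_le := h.pot_le
  pot_mono := h.pot_mono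
  dk_anti := G.dk_anti
  sl_mono := h.sl_mono
  b_nonneg := h.b_nonneg
  one_le := h.one_le
  θ_top := h.θ_top
  q_ne := h.q_ne
  c_pow := h.c_pow
  c_eq := h.c_eq
  st_pow := h.st_pow
  st_ge := h.st_ge
  st_lt := h.st_lt
  S_sub := Sq_sub h.q_ne
  card_S := fun s i _ _ _ => (card_Sq q r s i).trans (Nat.add_le_add_left h.qr_le _)
  hdl := fun t i hti => by
    obtain ⟨-, h2, -⟩ := hti
    have h2' : t + G.m0 ≤ i := h2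
    exact G.hdl (by omega)
  slack := h.slack
  num := h.num
  relbad := h.relbad
  slab := fun A u κ => G.slab u κ.1 (h.mTT _ _ _) (h.mL _ _) ((h.dis u κ.1).mono_left (h.sub A u κ.1))
  Tsub := fun A u κ => h.sub A u κ.1
  Tmono := fun hAB u κ => h.TT_mono _ _ _ _ (add_le_add le_rfl (dA_mono h.d_nonneg hAB u))
  mult := fun s x A hA => (G.mult s x A hA).trans h.An_le
  hlow := fun s ρ => G.hlow s ρ
  mvrow := by
    rintro t i j ⟨-, h2, -⟩ hij hjM s hs x ρ ρ' hn ⟨ω, hω⟩ k hk hkM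
    have h2' : t + G.m0 ≤ i := h2
    have hk' : j + G.m2 + G.m0 < k := hk
    have hkM' : k ≤ G.M := hkM
    exact hω.1.mvrow (by omega) (by omega) (mem_Ico.1 hs).2 ((G.mem_nb).1 hn)
  mvfa := by
    rintro t i j ⟨h1, h2, -⟩ hij hjM s hs x ρ ρ' hn ⟨ω, hω⟩ t' k ht' htk hkM ω'
    have h2' : t + G.m0 ≤ i := h2
    have ht'' : j + G.m2 < t' := ht'
    have htk' : t' + G.m0 ≤ k := htk
    have hkM' : k ≤ G.M := hkM
    exact h.mvfa t i j s t' k x ρ ρ' h1 (by omega) (mem_Ico.1 hs).2 hω.1 ((G.mem_nb).1 hn) (by omega) ht'' htk' hkM' ω'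
  stepT := by
    rintro t i hti s hs y A u hu huA v hv huv hmod ω hω η hη hωv
    have h3 : i ≤ G.M := hti.2.2
    have h4 := h.st_ge t i hti
    have h5 := hti.1
    have hs' := mem_Ico.1 hs
    have hu' := mem_Ico.1 hu
    have hv' := mem_Ico.1 hv
    have h6 : st t i ≤ s := hs'.1
    have huq : u + q ≤ v := by
      obtain ⟨k, hk⟩ := (Nat.modEq_iff_dvd' huv.le).1 hmod
      have h7 : k ≠ 0 := by
        rintro rfl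
        omega
      have h8 : q ≤ q * k := Nat.le_mul_of_pos_right q (Nat.pos_of_ne_zero h7)
      omega
    have e : sl (v - 1) + dA q d (insert u A) v = sl (v - 1) + dA q d A v + 2 * d u := by rw [dA_insert huA huq]; ring
    show G.R u (G.loc u y.1) η ω ∈ TT (sl (v - 1) + dA q d (insert u A) v) v (G.loc v y.1)
    rw [e]
    refine h.stp u v (by omega) huq (by omega) (G.cel (FS Γ G mt) u y) y (nb_self u y) _ ?_ ?_ ω (h.sub A u _ hω) η hη hωv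
    · have : 0 ≤ dA q d A v := mul_nonneg zero_le_two (sum_nonneg fun v _ => h.d_nonneg v)
      linarith
    · rw [← e]
      exact (add_le_add le_rfl (dA_le h.d_nonneg _ v)).trans (h.smax_ge v)
  stepS := by
    rintro t i hti s hs κ ρ hρ v hv ω hω η hη hωv
    have h3 : i ≤ G.M := hti.2.2
    have h4 := h.st_ge t i hti
    have h5 := hti.1
    have hs' := mem_Ico.1 hs
    have hv' := mem_Ico.1 hv
    have h6 : st t i ≤ s := hs'.1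
    have e : sl (v - 1) + dA q d {s} v = sl (v - 1) + 2 * d s := by
      rw [← insert_empty_eq, dA_insert (notMem_empty s) (by omega), dA_empty, zero_add]
    show G.R s κ.1 η ω ∈ TT (sl (v - 1) + dA q d {s} v) v (G.loc v ρ.1)
    rw [e]
    have hωv' : ω ∈ TT (sl (v - 1)) v (G.loc v ρ.1) := by
      have h7 : ω ∈ TT (sl (v - 1) + dA q d ∅ v) v (G.loc v ρ.1) := hωv
      rwa [dA_empty, add_zero] at h7
    refine h.stp s v (by omega) (by omega) (by omega) κ ρ hρ _ le_rfl ?_ ω (h.sub ∅ s κ.1 hω) η hη hωv'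
    rw [← e]
    exact (add_le_add le_rfl (dA_le h.d_nonneg _ v)).trans (h.smax_ge v)
  pot_late := h.pot_late
  pot_none := h.pot_none
  pot_early := h.pot_early
  cmpA := h.cmpA
  M3A := h.M3A
  exclF := h.exclF
  exclE := h.exclE
  oscT := h.oscT
  oscS := h.oscS

end In98

/-- **THE SEPARATION OVER THE MODEL.** -/
theorem sep98 {θ δ : ℝ} {C1 Ast : ℝ≥0∞} (m2 q0 m1 n1 C' : ℕ) (hθ : 1 < θ) (hd : 0 < δ) (hC1 : C1 ≠ ⊤) (hAst : Ast ≠ ⊤) :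
    ∃ m0 : ℕ, ∀ {Γ : Cx} {G : Gm} {mt : ℕ} {μ : Measure ℝ} [IsProbabilityMeasure μ] {fa : ℕ → ℕ → ℕ → XS Γ G mt → Env → ℝ≥0∞}
      {pot : ℕ → ℝ → XS Γ G mt → Env → ℝ≥0∞} {TT : ℝ → ℕ → ℤ × ℤ → Set Env} {L : ℕ → ℤ × ℤ → Set Env} {d sl smax : ℕ → ℝ}
      {th be : ℕ → ℕ → ℝ} {b : ℕ → ℝ} {st : ℕ → ℕ → ℕ} {κ3 : ℝ≥0∞} {τ0 q r m3 : ℕ} {c c1 C4 δ3 : ℝ≥0∞},
      In98 Γ G mt μ fa pot TT L d sl smax th be b st κ3 (ENNReal.ofReal θ) τ0 q r q0 m1 m3 n1 C' c c1 C1 C4 Ast δ3 →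
      G.m2 = m2 → m0 ≤ G.m0 → ∀ {a b' : ℕ}, δ * G.M ≤ a → b' ≤ δ * G.M / 8 →
      ∑ x : XS Γ G mt, ∫⁻ ω in {ω | a ≤ cnt (p98 Γ G mt th sl be b st κ3 (ENNReal.ofReal θ)) (wS Γ G mt) fa τ0 τ0 (sl τ0) x ω ∧
        (ENNReal.ofReal θ ^ 2)⁻¹ ^ b' ≤ pot τ0 (sl τ0) x ω}, wS Γ G mt x ω ∂(law μ) ≤
          2 * ENNReal.ofReal (θ ^ (-(δ / 2) * G.M)) := by
  obtain ⟨m0, hm0⟩ := H49.sepQ (C1 := C1) (Ast := Ast) m2 q0 m1 n1 C' hθ hd hC1 hAst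
  refine ⟨m0, fun {Γ G mt μ} _ {fa pot TT L d sl smax th be b st κ3 τ0 q r m3 c c1 C4 δ3} h h1 h2 {a b'} ha hb => ?_⟩
  exact hm0 h.move rfl h1 h2 ha hb

end Frame

/-! ### The transfer from the contacts of SepDef53 -/

section Transfer

variable {Γ : Cx} {G : Gm} {mt : ℕ} {fa : ℕ → ℕ → ℕ → XS Γ G mt → Env → ℝ≥0∞} {pot : ℕ → ℝ → XS Γ G mt → Env → ℝ≥0∞}
  {th : ℕ → ℕ → ℝ} {sl : ℕ → ℝ} {be : ℕ → ℕ → ℝ} {b : ℕ → ℝ} {st : ℕ → ℕ → ℕ} {κ3 θ : ℝ≥0∞}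

/-- The cell of a contact as a cell of SepDef53. -/
def upK {u : ℕ} (κ : KS Γ G mt u) : G.Kc (Γ.rows 0 Γ.N) u :=
  ⟨κ.1, by
    obtain ⟨c, h1, h2⟩ := mem_image.1 κ.2
    exact mem_image.2 ⟨c, (mem_FS.1 h1).1, h2⟩⟩

theorem upK_val {u : ℕ} (κ : KS Γ G mt u) : (upK κ).1 = κ.1 := rfl

theorem upK_cel (u : ℕ) (x : XS Γ G mt) : upK (G.cel (FS Γ G mt) u x) = G.cel (Γ.rows 0 Γ.N) u (up x) := rfl

/-- The far event. -/
theorem Hf_up {fX : ℕ → ℕ → ℕ → XX Γ → Env → ℝ≥0∞} {t i : ℕ} {x : XS Γ G mt} (hfa : ∀ ω, fa t i (t - 1) x ω ≤ fX t i (t - 1) (up x) ω) :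
    Hf (p98 Γ G mt th sl be b st κ3 θ) (wS Γ G mt) fa t i x ⊆ Hf (pX Γ G th sl be b st κ3 θ) (SD53.w Γ) fX t i (up x) :=
  fun ω h => ⟨h.1.trans (hfa ω), h.2⟩

/-- The event of the early alternatives. -/
theorem Hs_up {t i s : ℕ} {κ : KS Γ G mt s} :
    Hs (p98 Γ G mt th sl be b st κ3 θ) (wS Γ G mt) (G.cel (FS Γ G mt)) t i s κ ⊆
      Hs (pX Γ G th sl be b st κ3 θ) (SD53.w Γ) (G.cel (Γ.rows 0 Γ.N)) t i s (upK κ) := by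
  rintro ω ⟨ρ, h1, h2, h3⟩
  exact ⟨up ρ, by rw [← upK_cel, h1], h2, h3.trans (lm_up _ ρ ω)⟩

/-- The oscillation. -/
theorem osc_up {fX : ℕ → ℕ → ℕ → XX Γ → Env → ℝ≥0∞} {potX : ℕ → ℝ → XX Γ → Env → ℝ≥0∞} {j : ℕ} {y : XS Γ G mt} {β : ℝ} {ω ω' : Env}
    (hfa : ∀ t k ω, fa t k j y ω = fX t k j (up y) ω) (hpot : ∀ σ ω, pot j σ y ω = potX j σ (up y) ω)
    (h : Osc (pX Γ G th sl be b st κ3 θ) (SD53.w Γ) fX potX j (up y) β ω ω') :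
    Osc (p98 Γ G mt th sl be b st κ3 θ) (wS Γ G mt) fa pot j y β ω ω' where
  em := by
    intro t' k σ h1 h2 h3 h4 h5
    have h2' : t' + G.m0 ≤ k := h2
    have hD : 0 ≤ G.dk k j := by
      have := G.T_mono' (show j ≤ k by omega)
      have := G.T_pos' k
      unfold Gm.dk
      linarith
    have e : ∀ ω, H49.em (p98 Γ G mt th sl be b st κ3 θ).row (wS Γ G mt) ((p98 Γ G mt th sl be b st κ3 θ).dk k j) y ω =
        H49.em (pX Γ G th sl be b st κ3 θ).row (SD53.w Γ) ((pX Γ G th sl be b st κ3 θ).dk k j) (up y) ω := fun ω =>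
      em_up hD y ω
    rw [e] at h5 ⊢
    exact h.em t' k σ h1 h2 h3 h4 h5
  fa := by
    intro t' k σ h1 h2 h3 h4 h5
    rw [hfa] at h5 ⊢
    exact h.fa t' k σ h1 h2 h3 h4 h5
  pot := by
    intro σ h1
    rw [hpot, hpot]
    exact h.pot σ h1

/-! #### The early moment -/

/-- If there is a contact of `FS` beyond the row of the targets, the targets are the same. -/
theorem nb_up {s : ℕ} {κ : KS Γ G mt s} {y : XS Γ G mt} (hy : G.rcc s κ.1 + G.T s ≤ (y.1.1 : ℤ)) (F : ℕ × ℤ → ℝ≥0∞) :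
    ∑ ρ ∈ G.nb (FS Γ G mt) s κ, F ρ.1 = ∑ ρ ∈ G.nb (Γ.rows 0 Γ.N) s (upK κ), F ρ.1 := by
  refine sum_bij' (i := fun ρ _ => up ρ)
    (j := fun ρ hρ => ⟨ρ.1, mem_FS.2 ⟨ρ.2, by
      have h1 := ((G.mem_nb).1 hρ).2.1
      have h2 := row_up y
      rw [upK_val] at h1
      have h3 : ρ.1.1 < y.1.1 := by
        have h4 : (ρ.1.1 : ℤ) < y.1.1 := by linarith
        exact_mod_cast h4
      omega⟩⟩) ?_ ?_ ?_ ?_ ?_
  · intro ρ hρ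
    have h := (G.mem_nb).1 hρ
    rw [G.mem_nb]
    exact h
  · intro ρ hρ
    have h := (G.mem_nb).1 hρ
    rw [G.mem_nb]
    exact h
  · intro ρ _
    rfl
  · intro ρ _
    rfl
  · intro ρ _
    rfl

/-- The mass of the cell. -/
theorem Wc_up {s : ℕ} (κ : KS Γ G mt s) (ω : Env) :
    H49.Wc (wS Γ G mt) (G.cel (FS Γ G mt)) s κ ω ≤ H49.Wc (SD53.w Γ) (G.cel (Γ.rows 0 Γ.N)) s (upK κ) ω := by
  classical
  unfold H49.Wc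
  have e1 : (∑ ρ : XS Γ G mt, if G.cel (FS Γ G mt) s ρ = κ then wS Γ G mt ρ ω else 0) =
      ∑ c ∈ FS Γ G mt, if G.loc s c = κ.1 then ENNReal.ofReal (Γ.w c ω) else 0 := by
    rw [← sum_XS fun c => if G.loc s c = κ.1 then ENNReal.ofReal (Γ.w c ω) else 0]
    exact sum_congr rfl fun ρ _ => if_congr (Subtype.ext_iff) rfl rfl
  have e2 : (∑ ρ : XX Γ, if G.cel (Γ.rows 0 Γ.N) s ρ = upK κ then SD53.w Γ ρ ω else 0) =
      ∑ c ∈ Γ.rows 0 Γ.N, if G.loc s c = κ.1 then ENNReal.ofReal (Γ.w c ω) else 0 := by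
    rw [← SD53.sum_w_coe fun c => if G.loc s c = κ.1 then ENNReal.ofReal (Γ.w c ω) else 0]
    exact sum_congr rfl fun ρ _ => if_congr (Subtype.ext_iff) rfl rfl
  calc _ = ∑ c ∈ FS Γ G mt, if G.loc s c = κ.1 then ENNReal.ofReal (Γ.w c ω) else 0 := by
        rw [← e1]
    _ ≤ ∑ c ∈ Γ.rows 0 Γ.N, if G.loc s c = κ.1 then ENNReal.ofReal (Γ.w c ω) else 0 :=
        sum_le_sum_of_subset (filter_subset _ _)
    _ = _ := by rw [← e2]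

/-- The mass before the cell. -/
theorem Ec_up {s : ℕ} (κ : KS Γ G mt s) (ω : Env) :
    H49.Ec (p98 Γ G mt th sl be b st κ3 θ) (wS Γ G mt) (G.low (FS Γ G mt)) s κ ω =
      H49.Ec (pX Γ G th sl be b st κ3 θ) (SD53.w Γ) (G.low (Γ.rows 0 Γ.N)) s (upK κ) ω := by
  classical
  obtain ⟨y, hy⟩ := G.exists_cel κ
  have hy2 : G.lo s κ.1 ≤ (y.1.1 : ℤ) := by
    rw [← hy]
    exact G.lo_le s y.1
  have hy3 := row_up y
  unfold H49.Ec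
  have e1 : (∑ ρ : XS Γ G mt, if (ρ.1.1 : ℤ) < G.lo s κ.1 then wS Γ G mt ρ ω else 0) =
      ∑ c ∈ FS Γ G mt, if (c.1 : ℤ) < G.lo s κ.1 then ENNReal.ofReal (Γ.w c ω) else 0 := by
    rw [← sum_XS fun c => if (c.1 : ℤ) < G.lo s κ.1 then ENNReal.ofReal (Γ.w c ω) else 0]
    rfl
  have e2 : (∑ ρ : XX Γ, if (ρ.1.1 : ℤ) < G.lo s κ.1 then SD53.w Γ ρ ω else 0) =
      ∑ c ∈ Γ.rows 0 Γ.N, if (c.1 : ℤ) < G.lo s κ.1 then ENNReal.ofReal (Γ.w c ω) else 0 := by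
    rw [← SD53.sum_w_coe fun c => if (c.1 : ℤ) < G.lo s κ.1 then ENNReal.ofReal (Γ.w c ω) else 0]
    rfl
  calc _ = ∑ ρ : XS Γ G mt, if (ρ.1.1 : ℤ) < G.lo s κ.1 then wS Γ G mt ρ ω else 0 :=
        sum_congr rfl fun ρ _ => if_congr Iff.rfl rfl rfl
    _ = ∑ ρ : XX Γ, if (ρ.1.1 : ℤ) < G.lo s κ.1 then SD53.w Γ ρ ω else 0 := by
        rw [e1, e2]
        refine sum_subset (filter_subset _ _) fun c hc hn => ?_
        have h1 : ¬ c.1 + 2 * G.T mt ≤ Γ.N := fun h => hn (mem_FS.2 ⟨hc, h⟩)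
        rw [if_neg]
        intro h3
        have h4 : (c.1 : ℤ) < y.1.1 := by linarith
        omega
    _ = _ := sum_congr rfl fun ρ _ => if_congr Iff.rfl rfl rfl

/-- The ratio. -/
theorem rat_up (hΓ : Γ.Ok) {t i s : ℕ} (κ : KS Γ G mt s) (ω : Env) :
    rat (p98 Γ G mt th sl be b st κ3 θ) (wS Γ G mt) (G.cel (FS Γ G mt)) (G.low (FS Γ G mt)) t i s κ ω ≤
      rat (pX Γ G th sl be b st κ3 θ) (SD53.w Γ) (G.cel (Γ.rows 0 Γ.N)) (G.low (Γ.rows 0 Γ.N)) t i s (upK κ) ω := by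
  classical
  unfold rat
  by_cases h : ω ∈ Hs (p98 Γ G mt th sl be b st κ3 θ) (wS Γ G mt) (G.cel (FS Γ G mt)) t i s κ
  · rw [if_pos h, if_pos (Hs_up h), Ec_up κ ω]
    refine H49.frac_mono (Wc_up κ ω) ?_ ?_
    · refine ne_top_of_le_ne_top ENNReal.one_ne_top (le_trans ?_ (SD53.sum_w_le hΓ ω))
      unfold H49.Wc
      refine sum_le_sum fun ρ _ => ?_
      split_ifs
      · exact le_rfl
      · exact zero_le
    · refine ne_top_of_le_ne_top ENNReal.one_ne_top (le_trans ?_ (SD53.sum_w_le hΓ ω))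
      unfold H49.Ec
      refine sum_le_sum fun ρ _ => ?_
      split_ifs
      · exact le_rfl
      · exact zero_le
  · rw [if_neg h]
    exact zero_le

/-- On `Hs` there is a contact of `FS` beyond the targets. -/
theorem Hs_far (hκ : κ3 ≠ 0) {t i s : ℕ} (hs : s < i) {κ : KS Γ G mt s} {ω : Env}
    (h : ω ∈ Hs (p98 Γ G mt th sl be b st κ3 θ) (wS Γ G mt) (G.cel (FS Γ G mt)) t i s κ) :
    ∃ y : XS Γ G mt, G.rcc s κ.1 + G.T s ≤ (y.1.1 : ℤ) := by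
  classical
  obtain ⟨ρ, h1, -, h3⟩ := h
  by_contra hc
  push Not at hc
  have h4 : lm (rowS Γ G mt) (wS Γ G mt) (G.dl i) ρ ω = 0 := by
    unfold lm
    refine sum_eq_zero fun y _ => ?_
    rw [if_neg]
    intro h5
    have h6 := hc y
    have h7 : (ρ.1.1 : ℤ) + G.T i < y.1.1 := h5
    have h8 : G.lo s κ.1 ≤ (ρ.1.1 : ℤ) := by
      rw [← h1]
      exact G.lo_le s ρ.1
    have h9 := G.rcc_eq s κ.1
    have h10 := G.T_lt8 hs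
    have h11 := G.T_mono' (show s - 2 ≤ s by omega)
    have h12 := G.T_pos' s
    linarith
  have h5 : κ3 ≤ lm (rowS Γ G mt) (wS Γ G mt) (G.dl i) ρ ω := h3
  rw [h4] at h5
  exact hκ (le_antisymm h5 zero_le)

/-- **`M3A` from the contacts of SepDef53.** -/
theorem M3_up {μ : Measure ℝ} (hΓ : Γ.Ok) (hκ : κ3 ≠ 0) {t i s : ℕ} (hs : s < i) {κ : KS Γ G mt s} {T L : Set Env} {C1 : ℝ≥0∞} {ω : Env}
    (h : ω ∈ Hs (p98 Γ G mt th sl be b st κ3 θ) (wS Γ G mt) (G.cel (FS Γ G mt)) t i s κ)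
    (h1 : ∫⁻ ξ, T.indicator (rat (pX Γ G th sl be b st κ3 θ) (SD53.w Γ) (G.cel (Γ.rows 0 Γ.N)) (G.low (Γ.rows 0 Γ.N)) t i s (upK κ))
        (G.R s κ.1 ξ ω) ∂(law μ) ≤
      C1 * ∫⁻ η, L.indicator (fun ω => ∑ ρ ∈ G.nb (Γ.rows 0 Γ.N) s (upK κ), SD53.w Γ ρ ω) (G.R s κ.1 η ω) ∂(law μ)) :
    ∫⁻ ξ, T.indicator (rat (p98 Γ G mt th sl be b st κ3 θ) (wS Γ G mt) (G.cel (FS Γ G mt)) (G.low (FS Γ G mt)) t i s κ)
        (G.R s κ.1 ξ ω) ∂(law μ) ≤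
      C1 * ∫⁻ η, L.indicator (fun ω => ∑ ρ ∈ G.nb (FS Γ G mt) s κ, wS Γ G mt ρ ω) (G.R s κ.1 η ω) ∂(law μ) := by
  obtain ⟨y, hy⟩ := Hs_far hκ hs h
  have e : (fun ω => ∑ ρ ∈ G.nb (FS Γ G mt) s κ, wS Γ G mt ρ ω) =
      fun ω => ∑ ρ ∈ G.nb (Γ.rows 0 Γ.N) s (upK κ), SD53.w Γ ρ ω := by
    funext ω
    exact nb_up hy fun c => ENNReal.ofReal (Γ.w c ω)
  rw [e]
  refine le_trans (lintegral_mono fun ξ => ?_) h1
  exact Set.indicator_le_indicator (rat_up hΓ κ _)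

end Transfer

end

end Pool.Agent.W_7d29a1_C1.SF98
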