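import Pool.Agent.W_7d29a1_C1.UncM77
import Pool.Agent.W_7d29a1_C1.FaAv25
import Pool.Agent.W_7d29a1_C1.Osc22
import Pool.Agent.W_7d29a1_C1.SepF98

/-!
MP_7d29a1_pr, attractor route [C1], junction SEP => data of the block, the far mass of the paths which avoid the ball (FaAv25). (helper77)

`uncN77`: the scale `t` of the contact `x` (of `XS`) is not covered at the stage `τ` and the routes through the ball are steep (`Ste`, event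
`NS`): the full far masses of both groups at every coarse row of `fr t τ` are at most `2 e^(-κ)`, `κ = th t k + σ`, and the pairs which have
met before the row `row x - dk k τ` have at most the share `e^(-κ)`.
-/

set_option autoImplicit false

namespace Pool.Agent.W_7d29a1_C1.H77

open Finset MeasureTheory
open Pool.Agent.W_7d29a1_F
open Pool.Agent.W_7d29a1_C1.K91 (Grp Box wt wt_pos)
open Pool.Agent.W_7d29a1_C1.K91P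
open Pool.Agent.W_7d29a1_C1.U31 (ms)
open Pool.Agent.W_7d29a1_C1.H60
open Pool.Agent.W_7d29a1_C1.G37 (Gm)
open Pool.Agent.W_7d29a1_C1.H49 (Par em ex Cov Cv)
open Pool.Agent.W_7d29a1_C1.E53
open Pool.Agent.W_7d29a1_C1.SD53 (XX bx)
open Pool.Agent.W_7d29a1_C1.FA25 (Av PA PK)
open Pool.Agent.W_7d29a1_C1.O22 (Ste)
open Pool.Agent.W_7d29a1_C1.SF98 (XS FS wS rowS up p98)
open scoped ENNReal

noncomputable section

variable {Γ : Cx} {G : Gm}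

/-- **The full far mass of one group**: the far mass off the ball and the routes through the ball. -/
theorem far_av77 (h : Γ.Ok) {t k τ : ℕ} {x : XX Γ} {ω : Env} {κ s : ℝ} (hfa : FA25.fa Γ G t k τ x ω < ex (-κ)) {r : ℕ}
    (hr : (r : ℤ) ∈ G.fr t τ x.1) (hrN : r ≤ Γ.N) (hs : 0 ≤ s) (hst : Ste Γ (Av G t τ x.1) r (bx Γ (G.fs k τ x.1 r)) s ω) :
    ms (wt ω) Γ.p Γ.N Cx.l r (bx Γ (G.fs k τ x.1 r)) ≤
        (Real.exp (-κ) + s) * ∑ y ∈ Icc (0 : ℤ) Γ.hi, Cx.l y * bw (wt ω) Γ.p 0 Γ.N y ∧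
      ms (wt ω) Γ.p Γ.N Γ.r r (bx Γ (G.fs k τ x.1 r)) ≤
        (Real.exp (-κ) + s) * ∑ y ∈ Icc (0 : ℤ) Γ.hi, Γ.r y * bw (wt ω) Γ.p 0 Γ.N y := by
  have h0 : ENNReal.ofReal (PA Γ Cx.l (Av G t τ x.1) r (G.fs k τ x.1 r) ω) +
      ENNReal.ofReal (PA Γ Γ.r (Av G t τ x.1) r (G.fs k τ x.1 r) ω) ≤ FA25.fa Γ G t k τ x ω := by
    unfold FA25.fa
    have h1 : (r : ℤ) ∈ (G.fr t τ x.1).filter (fun r => r ≤ (Γ.N : ℤ)) := mem_filter.2 ⟨hr, by exact_mod_cast hrN⟩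
    have h2 := single_le_sum (f := fun r : ℤ => ENNReal.ofReal (PA Γ Cx.l (Av G t τ x.1) r.toNat (G.fs k τ x.1 r) ω) +
      ENNReal.ofReal (PA Γ Γ.r (Av G t τ x.1) r.toNat (G.fs k τ x.1 r) ω)) (fun _ _ => zero_le) h1
    simpa using h2
  have h1 := (le_self_add.trans h0).trans_lt hfa
  have h2 := (le_add_self.trans h0).trans_lt hfa
  have key : ∀ {m : ℤ → ℝ}, Sp22.Ms m 0 Γ.hi Γ.N → 0 < ZG Γ m ω →
      ENNReal.ofReal (PA Γ m (Av G t τ x.1) r (G.fs k τ x.1 r) ω) < ex (-κ) →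
      ms (wt ω) Γ.p Γ.N m r (bx Γ (G.fs k τ x.1 r)) ≤
        (Real.exp (-κ) + s) * ∑ y ∈ Icc (0 : ℤ) Γ.hi, m y * bw (wt ω) Γ.p 0 Γ.N y := by
    intro m hm hZ hlt
    have h3 : PA Γ m (Av G t τ x.1) r (G.fs k τ x.1 r) ω ≤ Real.exp (-κ) := by
      by_contra hcon
      exact absurd hlt (not_lt.2 (ENNReal.ofReal_le_ofReal (not_le.1 hcon).le))
    unfold PA at h3
    rw [div_le_iff₀ hZ] at h3
    have h4 := FA25.far_total hm (B := Av G t τ x.1) hrN (A := bx Γ (G.fs k τ x.1 r)) (SD53.bx_sub _) hs hst.bf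
    have h5 : ms (wt ω) Γ.p Γ.N m r (bx Γ (G.fs k τ x.1 r)) ≤ (Real.exp (-κ) + s) * ZG Γ m ω := by
      rw [← PG_ms, add_mul]
      exact h4.trans (add_le_add h3 le_rfl)
    exact h5
  exact ⟨key (SD53.ms_l h) (SD53.ZG_l_pos h ω) h1, key (SD53.ms_r h) (SD53.ZG_r_pos h ω) h2⟩

variable {mt₀ : ℕ} {th : ℕ → ℕ → ℝ} {sl : ℕ → ℝ} {be : ℕ → ℕ → ℝ} {b : ℕ → ℝ} {st : ℕ → ℕ → ℕ} {κ3 θ : ℝ≥0∞}

/-- The far mass (avoiding the ball) for the contacts of `XS`. -/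
def fS77 (Γ : Cx) (G : Gm) (mt₀ : ℕ) (t k τ : ℕ) (x : XS Γ G mt₀) (ω : Env) : ℝ≥0∞ := FA25.fa Γ G t k τ (up x) ω

variable {t τ k : ℕ} {σ : ℝ} {x : XS Γ G mt₀} {ω : Env}

/-- **Not covered**: few pairs have met early, and little far mass off the ball. -/
theorem uncS77 (hτ : τ ≤ t) (hu : ¬ Cov (p98 Γ G mt₀ th sl be b st κ3 θ) (wS Γ G mt₀) (fS77 Γ G mt₀) t τ σ x ω) (hk : t + G.m0 ≤ k)
    (hkM : k ≤ G.M) : em (SD53.row Γ) (SD53.w Γ) (G.dk k τ) (up x) ω < ex (-(th t k + σ)) ∧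
      FA25.fa Γ G t k τ (up x) ω < ex (-(th t k + σ)) := by
  have hD : 0 ≤ G.dk k τ := by
    have h1 := G.T_mono' (show τ ≤ k by omega)
    have h2 := G.T_pos' k
    unfold Gm.dk
    linarith
  have h1 := unc_em' hu hk hkM
  have h2 := unc_fa' hu hk hkM
  refine ⟨?_, h2⟩
  rw [← SF98.em_up hD]
  exact h1
where
  unc_em' {X : Type _} [Fintype X] {p : Par X} {w : X → Env → ℝ≥0∞} {fa : ℕ → ℕ → ℕ → X → Env → ℝ≥0∞} {t τ k : ℕ} {σ : ℝ} {x : X}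
      {ω : Env} (hu : ¬ Cov p w fa t τ σ x ω) (hk : t + p.m0 ≤ k) (hkM : k ≤ p.M) :
      em p.row w (p.dk k τ) x ω < ex (-(p.th t k + σ)) := by
    by_contra hcon
    exact hu ⟨k, mem_Icc.2 ⟨hk, hkM⟩, Or.inl (not_lt.1 hcon)⟩
  unc_fa' {X : Type _} [Fintype X] {p : Par X} {w : X → Env → ℝ≥0∞} {fa : ℕ → ℕ → ℕ → X → Env → ℝ≥0∞} {t τ k : ℕ} {σ : ℝ} {x : X}
      {ω : Env} (hu : ¬ Cov p w fa t τ σ x ω) (hk : t + p.m0 ≤ k) (hkM : k ≤ p.M) :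
      fa t k τ x ω < ex (-(p.th t k + σ)) := by
    by_contra hcon
    exact hu ⟨k, mem_Icc.2 ⟨hk, hkM⟩, Or.inr (not_lt.1 hcon)⟩

/-- **NOT COVERED AND `NS` => THE FULL FAR MASSES.** -/
theorem uncN77 (h : Γ.Ok) (hτ : τ ≤ t) (hu : ¬ Cov (p98 Γ G mt₀ th sl be b st κ3 θ) (wS Γ G mt₀) (fS77 Γ G mt₀) t τ σ x ω)
    (hk : t + G.m0 ≤ k) (hkM : k ≤ G.M) {r : ℕ} (hr : (r : ℤ) ∈ G.fr t τ x.1) (hrN : r ≤ Γ.N) {β : ℝ} (hβ : th t k + σ ≤ β)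
    (hst : Ste Γ (Av G t τ x.1) r (bx Γ (G.fs k τ x.1 r)) (Real.exp (-β)) ω) :
    ms (wt ω) Γ.p Γ.N Cx.l r (bx Γ (G.fs k τ x.1 r)) ≤
        2 * Real.exp (-(th t k + σ)) * ∑ y ∈ Icc (0 : ℤ) Γ.hi, Cx.l y * bw (wt ω) Γ.p 0 Γ.N y ∧
      ms (wt ω) Γ.p Γ.N Γ.r r (bx Γ (G.fs k τ x.1 r)) ≤
        2 * Real.exp (-(th t k + σ)) * ∑ y ∈ Icc (0 : ℤ) Γ.hi, Γ.r y * bw (wt ω) Γ.p 0 Γ.N y := by
  obtain ⟨h1, h2⟩ := far_av77 h (uncS77 hτ hu hk hkM).2 hr hrN (Real.exp_pos _).le hst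
  have h3 : Real.exp (-(th t k + σ)) + Real.exp (-β) ≤ 2 * Real.exp (-(th t k + σ)) := by
    have : Real.exp (-β) ≤ Real.exp (-(th t k + σ)) := Real.exp_le_exp.2 (by linarith)
    linarith
  have z1 : 0 ≤ ∑ y ∈ Icc (0 : ℤ) Γ.hi, Cx.l y * bw (wt ω) Γ.p 0 Γ.N y := (SD53.ZG_l_pos h ω).le
  have z2 : 0 ≤ ∑ y ∈ Icc (0 : ℤ) Γ.hi, Γ.r y * bw (wt ω) Γ.p 0 Γ.N y := (SD53.ZG_r_pos h ω).le
  exact ⟨h1.trans (mul_le_mul_of_nonneg_right h3 z1), h2.trans (mul_le_mul_of_nonneg_right h3 z2)⟩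

/-- **NOT COVERED => FEW PAIRS HAVE MET EARLY.** -/
theorem uncM_met77 (h : Γ.Ok) (hτ : τ ≤ t) (hu : ¬ Cov (p98 Γ G mt₀ th sl be b st κ3 θ) (wS Γ G mt₀) (fS77 Γ G mt₀) t τ σ x ω)
    (hk : t + G.m0 ≤ k) (hkM : k ≤ G.M) {i : ℕ} (hi : i ≤ Γ.N) (hD : (i : ℤ) ≤ (x.1.1 : ℤ) - G.dk k τ) :
    ∑ j ∈ range i, mt (wt ω) Γ.p Cx.l Γ.r 0 Γ.hi Γ.N j ≤ Real.exp (-(th t k + σ)) * ((∑ y ∈ Icc (0 : ℤ) Γ.hi, Cx.l y * bw (wt ω) Γ.p 0 Γ.N y) *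
        ∑ y ∈ Icc (0 : ℤ) Γ.hi, Γ.r y * bw (wt ω) Γ.p 0 Γ.N y) :=
  met77 h hi (x := up x) hD (uncS77 hτ hu hk hkM).1

end

end Pool.Agent.W_7d29a1_C1.H77
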