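import Pool.Agent.W_7d29a1_C1.NuK77
import Pool.Agent.W_7d29a1_C1.UncN77
import Pool.Agent.W_7d29a1_C1.TileC98

/-!
MP_7d29a1_pr, attractor route [C1], field `nu` of one context: the weight of the contacts with many scales which are not usable, from the
separation (`sepQ`), the potential, the few scales which are not tame (`Un`) or reached (`R`) and the deterministic part (`hdet`). (helper77)

`Cc77 p w fa Un τ₀ σ x ω`: the scales `≤ M` which are `≤ τ₀`, covered, or in `Un`. `nuM77`: one context, any index type of the contacts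
(`XS` of SepF98). `nuS77`: over SepF98. `num77`: the numbers.
-/

set_option autoImplicit false
set_option linter.unusedSectionVars false

namespace Pool.Agent.W_7d29a1_C1.H77

open MeasureTheory Finset Filter Topology
open Pool.Agent.W_7d29a1_F
open Pool.Agent.W_7d29a1_C1.Lec17 (Nar)
open Pool.Agent.W_7d29a1_C1.H60
open Pool.Agent.W_7d29a1_C1.H49 (Par Cov cnt)
open Pool.Agent.W_7d29a1_C1.G37 (Gm)
open Pool.Agent.W_7d29a1_C1.SF98 (XS FS wS rowS up p98 mem_FS)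
open scoped ENNReal

noncomputable section

variable {μ : Measure ℝ} [IsProbabilityMeasure μ] {Γ : Cx} {X : Type*} [Fintype X]

open Classical in
/-- The scales which are not good for the contact `x`. -/
def Cc77 (p : Par X) (w : X → Env → ℝ≥0∞) (fa : ℕ → ℕ → ℕ → X → Env → ℝ≥0∞) (Un : ℕ → X → Set Env) (τ₀ : ℕ) (σ : ℝ) (x : X)
    (ω : Env) : Finset ℕ :=
  (range (p.M + 1)).filter fun u => u ≤ τ₀ ∨ Cov p w fa u τ₀ σ x ω ∨ ω ∈ Un u x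

open Classical in
theorem card_Cc77 (p : Par X) (w : X → Env → ℝ≥0∞) (fa : ℕ → ℕ → ℕ → X → Env → ℝ≥0∞) (Un : ℕ → X → Set Env) (τ₀ : ℕ) (σ : ℝ)
    (x : X) (ω : Env) : (Cc77 p w fa Un τ₀ σ x ω).card ≤
      cnt p w fa τ₀ τ₀ σ x ω + (τ₀ + 1 + ((range (p.M + 1)).filter fun u => ω ∈ Un u x).card) := by
  have h1 : Cc77 p w fa Un τ₀ σ x ω ⊆ ((Ioc τ₀ p.M).filter fun t => Cov p w fa t τ₀ σ x ω) ∪
      (range (τ₀ + 1) ∪ (range (p.M + 1)).filter fun u => ω ∈ Un u x) := by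
    intro u hu
    unfold Cc77 at hu
    rw [mem_filter, mem_range] at hu
    obtain ⟨h1, h2⟩ := hu
    rw [mem_union, mem_union, mem_filter, mem_filter, mem_Ioc, mem_range, mem_range]
    by_cases h3 : u ≤ τ₀
    · exact Or.inr (Or.inl (by omega))
    · rcases h2 with h | h | h
      · exact absurd h h3
      · exact Or.inl ⟨⟨by omega, by omega⟩, h⟩
      · exact Or.inr (Or.inr ⟨h1, h⟩)
  refine (card_le_card h1).trans ((card_union_le _ _).trans ?_)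
  refine Nat.add_le_add (le_of_eq ?_) ((card_union_le _ _).trans (le_of_eq (by rw [card_range])))
  unfold cnt
  congr

/-- What a good scale is: not small, not covered, tame. -/
theorem not_mem_Cc77 {p : Par X} {w : X → Env → ℝ≥0∞} {fa : ℕ → ℕ → ℕ → X → Env → ℝ≥0∞} {Un : ℕ → X → Set Env} {τ₀ : ℕ} {σ : ℝ}
    {x : X} {ω : Env} {u : ℕ} (hu : u ≤ p.M) (h : u ∉ Cc77 p w fa Un τ₀ σ x ω) :
    τ₀ < u ∧ ¬ Cov p w fa u τ₀ σ x ω ∧ ω ∉ Un u x := by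
  classical
  unfold Cc77 at h
  rw [mem_filter, mem_range] at h
  push Not at h
  have h1 := h (by omega)
  exact ⟨h1.1, h1.2.1, h1.2.2⟩

/-- **FIELD `nu` OF ONE CONTEXT.** `X` = the contacts of the separation (`XS`), `site` = their places; the sites of `S` which are no places
have the weight `0`; `hsep` = conclusion of `sepQ` / `sep98`. -/
theorem nuM77 {S : Finset (ℕ × ℤ)} {site : X → ℕ × ℤ} (hi : Function.Injective site)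
    (hS : ∀ c ∈ S, (∀ x, site x ≠ c) → ∀ ω, Γ.w c ω = 0)
    {V : ℕ → ℕ × ℤ → Set Env} {p : Par X} {w : X → Env → ℝ≥0∞} (hw : ∀ x ω, w x ω = ENNReal.ofReal (Γ.w (site x) ω))
    (hw1 : ∀ ω, ∑ x, w x ω ≤ 1) {fa : ℕ → ℕ → ℕ → X → Env → ℝ≥0∞} {pot : ℕ → ℝ → X → Env → ℝ≥0∞}
    {Un : ℕ → X → Set Env} {τ₀ : ℕ} {σ : ℝ} {ms l₀ lm q A b b' : ℕ} {a : ℕ → ℕ} (ha : Monotone a)
    (h1 : ∀ l, l₀ ≤ l → 2 * a l + 1 ≤ l) (hl : 3 ≤ l₀) (hms : ms + 2 * a lm ≤ p.M + 1) {R : X → Env → Finset ℕ} {θb : ℝ≥0∞}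
    {Bd : Set Env} {ε₀ ν₁ ν₂ : ℝ} (hε₀ : 0 ≤ ε₀) (hν₁ : 0 ≤ ν₁) (hν₂ : 0 ≤ ν₂) (hq : 2 * A + 2 * (τ₀ + 1 + b) + b' ≤ q)
    (hU : ∀ x : X, site x ∈ S → ∀ ω ∉ Bd, ε₀ ≤ Γ.w (site x) ω → ∀ F : Finset ℕ, F ⊆ range (p.M + 1) → (∀ u ∈ F, ω ∈ Un u x) →
      F.card ≤ b)
    (hR : ∀ x : X, site x ∈ S → ∀ ω ∉ Bd, ε₀ ≤ Γ.w (site x) ω → (R x ω).card ≤ b')
    (hp : ∀ x : X, site x ∈ S → ∀ ω ∉ Bd, ε₀ ≤ Γ.w (site x) ω → θb ≤ pot τ₀ σ x ω)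
    (hdet : ∀ x : X, site x ∈ S → ∀ ω ∉ Bd, ε₀ ≤ Γ.w (site x) ω → ∀ t < ms, Usable (Cc77 p w fa Un τ₀ σ x ω) (p.M + 1) l₀ lm a t →
      t ∉ R x ω → ω ∈ V t (site x))
    (hsep : ∑ x, ∫⁻ ω in {ω | A ≤ cnt p w fa τ₀ τ₀ σ x ω ∧ θb ≤ pot τ₀ σ x ω}, w x ω ∂(law μ) ≤ ENNReal.ofReal ν₁)
    (hbd : law μ Bd ≤ ENNReal.ofReal ν₂) :
    ∑ c ∈ S, ∫⁻ ω in Nar (fun t => V t c) ms q, ENNReal.ofReal (Γ.w c ω) ∂(law μ) ≤ ENNReal.ofReal (ν₁ + ν₂ + S.card * ε₀) := by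
  classical
  set T : Finset X := univ.filter fun x => site x ∈ S with hT
  have e1 : ∑ c ∈ S, ∫⁻ ω in Nar (fun t => V t c) ms q, ENNReal.ofReal (Γ.w c ω) ∂(law μ) =
      ∑ x ∈ T, ∫⁻ ω in Nar (fun t => V t (site x)) ms q, ENNReal.ofReal (Γ.w (site x) ω) ∂(law μ) := by
    have e2 : ∑ c ∈ S, ∫⁻ ω in Nar (fun t => V t c) ms q, ENNReal.ofReal (Γ.w c ω) ∂(law μ) =
        ∑ c ∈ S.filter (fun c => ∃ x, site x = c), ∫⁻ ω in Nar (fun t => V t c) ms q, ENNReal.ofReal (Γ.w c ω) ∂(law μ) := by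
      rw [sum_filter]
      refine sum_congr rfl fun c hc => ?_
      by_cases h : ∃ x, site x = c
      · rw [if_pos h]
      · rw [if_neg h]
        push Not at h
        simp [hS c hc h]
    rw [e2]
    refine (sum_bij (fun (x : X) _ => site x) (fun x hx => ?_) (fun x _ y _ h => hi h) (fun c hc => ?_) fun x _ => rfl).symm
    · rw [hT, mem_filter] at hx
      exact mem_filter.2 ⟨hx.2, x, rfl⟩
    · rw [mem_filter] at hc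
      obtain ⟨hc1, x, rfl⟩ := hc
      exact ⟨x, by rw [hT, mem_filter]; exact ⟨mem_univ _, hc1⟩, rfl⟩
  have hTS : ∀ x ∈ T, site x ∈ S := fun x hx => (mem_filter.1 hx).2
  have hcard : (T.card : ℝ) ≤ S.card := by
    have : T.card ≤ S.card := card_le_card_of_injOn site (fun x hx => hTS x hx) fun x _ y _ h => hi h
    exact_mod_cast this
  rw [e1]
  refine (nuk77 (P := law μ) (T := T) (w := fun (x : X) ω => Γ.w (site x) ω) (x := id) (W := w) (V := fun x t => V t (site x))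
    (m := p.M + 1) (A := A) (b := τ₀ + 1 + b) (b' := b') (C := fun x ω => Cc77 p w fa Un τ₀ σ x ω) (R := R)
    (cv := fun x ω => cnt p w fa τ₀ τ₀ σ x ω) (pt := fun x ω => pot τ₀ σ x ω)
    (fun x _ => Γ.meas_w (site x)) ?_ (fun _ _ _ _ h => h) (fun x _ ω => (hw x ω).ge) ha h1 hl hms hε₀ hq
    (fun x hx ω hω hwx => ?_) (fun x hx => hR x (hTS x hx)) (fun x hx => hp x (hTS x hx)) (fun x hx => hdet x (hTS x hx))
    hν₁ hν₂ hsep hbd).trans ?_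
  · intro ω
    refine le_trans (le_of_eq ?_) ((sum_le_sum_of_subset (f := fun x => w x ω) (subset_univ T)).trans (hw1 ω))
    exact sum_congr rfl fun x _ => (hw x ω).symm
  · refine (card_Cc77 p w fa Un τ₀ σ x ω).trans (Nat.add_le_add le_rfl (Nat.add_le_add le_rfl ?_))
    exact hU x (hTS x hx) ω hω hwx _ (filter_subset _ _) fun u hu => (mem_filter.1 hu).2
  · refine ENNReal.ofReal_le_ofReal ?_
    have := mul_le_mul_of_nonneg_right hcard hε₀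
    linarith

/-- **FIELD `nu` OVER SepF98** (contacts `XS Γ G mt`, far mass off the ball). Every site of `S` whose weight is not `0` is a contact of `FS`. -/
theorem nuS77 (hΓ : Γ.Ok) {G : Gm} {mt : ℕ} {S : Finset (ℕ × ℤ)} (hS : ∀ c ∈ S, c ∉ FS Γ G mt → ∀ ω, Γ.w c ω = 0)
    {V : ℕ → ℕ × ℤ → Set Env} {th : ℕ → ℕ → ℝ} {sl : ℕ → ℝ} {be : ℕ → ℕ → ℝ} {bb : ℕ → ℝ} {st : ℕ → ℕ → ℕ} {κ3 θ : ℝ≥0∞}
    {pot : ℕ → ℝ → XS Γ G mt → Env → ℝ≥0∞}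
    {Un : ℕ → XS Γ G mt → Set Env} {τ₀ : ℕ} {ms l₀ lm q A b b' : ℕ} {a : ℕ → ℕ} (ha : Monotone a)
    (h1 : ∀ l, l₀ ≤ l → 2 * a l + 1 ≤ l) (hl : 3 ≤ l₀) (hms : ms + 2 * a lm ≤ G.M + 1) {R : XS Γ G mt → Env → Finset ℕ} {θb : ℝ≥0∞}
    {Bd : Set Env} {ε₀ ν₁ ν₂ : ℝ} (hε₀ : 0 ≤ ε₀) (hν₁ : 0 ≤ ν₁) (hν₂ : 0 ≤ ν₂) (hq : 2 * A + 2 * (τ₀ + 1 + b) + b' ≤ q)
    (hU : ∀ x : XS Γ G mt, x.1 ∈ S → ∀ ω ∉ Bd, ε₀ ≤ Γ.w x.1 ω → ∀ F : Finset ℕ, F ⊆ range (G.M + 1) → (∀ u ∈ F, ω ∈ Un u x) →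
      F.card ≤ b)
    (hR : ∀ x : XS Γ G mt, x.1 ∈ S → ∀ ω ∉ Bd, ε₀ ≤ Γ.w x.1 ω → (R x ω).card ≤ b')
    (hp : ∀ x : XS Γ G mt, x.1 ∈ S → ∀ ω ∉ Bd, ε₀ ≤ Γ.w x.1 ω → θb ≤ pot τ₀ (sl τ₀) x ω)
    (hdet : ∀ x : XS Γ G mt, x.1 ∈ S → ∀ ω ∉ Bd, ε₀ ≤ Γ.w x.1 ω → ∀ t < ms,
      Usable (Cc77 (p98 Γ G mt th sl be bb st κ3 θ) (wS Γ G mt) (fS77 Γ G mt) Un τ₀ (sl τ₀) x ω) (G.M + 1) l₀ lm a t →
      t ∉ R x ω → ω ∈ V t x.1)
    (hsep : ∑ x, ∫⁻ ω in {ω | A ≤ cnt (p98 Γ G mt th sl be bb st κ3 θ) (wS Γ G mt) (fS77 Γ G mt) τ₀ τ₀ (sl τ₀) x ω ∧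
      θb ≤ pot τ₀ (sl τ₀) x ω}, wS Γ G mt x ω ∂(law μ) ≤ ENNReal.ofReal ν₁) (hbd : law μ Bd ≤ ENNReal.ofReal ν₂) :
    ∑ c ∈ S, ∫⁻ ω in Nar (fun t => V t c) ms q, ENNReal.ofReal (Γ.w c ω) ∂(law μ) ≤ ENNReal.ofReal (ν₁ + ν₂ + S.card * ε₀) :=
  nuM77 (X := XS Γ G mt) (site := fun x => x.1) (p := p98 Γ G mt th sl be bb st κ3 θ) (w := wS Γ G mt) (fa := fS77 Γ G mt) (pot := pot)
    (fun _ _ h => Subtype.ext h) (fun c hc h ω => hS c hc (fun hF => h ⟨c, hF⟩ rfl) ω) (fun _ _ => rfl) (SF98.sum_wS_le hΓ)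
    ha h1 hl hms hε₀ hν₁ hν₂ hq hU hR hp hdet hsep hbd

open Classical in
/-- The shift of the scales: `V' i = V (i - j₀)` for `i ≥ j₀`, everything below. -/
def Vs77 {Z : Type*} (V : ℕ → Set Z) (j₀ i : ℕ) : Set Z := if i < j₀ then Set.univ else V (i - j₀)

/-- Many scales which are not usable, shifted. -/
theorem nar_shift77 {Z : Type*} (V : ℕ → Set Z) (m q j₀ : ℕ) : Nar V m q ⊆ Nar (Vs77 V j₀) (m + j₀) q := by
  classical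
  intro z hz
  have h1 : q ≤ ((range m).filter fun t => z ∉ V t).card := by
    have h2 : q ≤ _ := hz
    convert h2 using 2
  have h2 : ((range m).filter fun t => z ∉ V t).card ≤ ((range (m + j₀)).filter fun t => z ∉ Vs77 V j₀ t).card := by
    refine card_le_card_of_injOn (fun t => t + j₀) (fun t ht => ?_) fun a _ b _ hab => by simpa using hab
    have h3 : t ∈ (range m).filter fun t => z ∉ V t := ht
    rw [mem_filter, mem_range] at h3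
    have h4 : t + j₀ ∈ (range (m + j₀)).filter fun t => z ∉ Vs77 V j₀ t := by
      rw [mem_filter, mem_range]
      refine ⟨by omega, ?_⟩
      unfold Vs77
      rw [if_neg (by omega), Nat.add_sub_cancel]
      exact h3.2
    exact h4
  have h5 := h1.trans h2
  show q ≤ _
  convert h5 using 2

/-- **FIELD `nu` OVER SepF98, SHIFTED**: the scale `t` of the shell reads the scale `t + j₀` of the separation (`j₀ = m₁ - 1`: the pairs which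
have met before the ball of the scale `t + m₂`, `m₂ = m₀ + m₁`). -/
theorem nuT77 (hΓ : Γ.Ok) {G : Gm} {mt : ℕ} {S : Finset (ℕ × ℤ)} (hS : ∀ c ∈ S, c ∉ FS Γ G mt → ∀ ω, Γ.w c ω = 0)
    {V : ℕ → ℕ × ℤ → Set Env} {th : ℕ → ℕ → ℝ} {sl : ℕ → ℝ} {be : ℕ → ℕ → ℝ} {bb : ℕ → ℝ} {st : ℕ → ℕ → ℕ} {κ3 θ : ℝ≥0∞}
    {pot : ℕ → ℝ → XS Γ G mt → Env → ℝ≥0∞}
    {Un : ℕ → XS Γ G mt → Set Env} {τ₀ : ℕ} {ms j₀ l₀ lm q A b b' : ℕ} {a : ℕ → ℕ} (ha : Monotone a)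
    (h1 : ∀ l, l₀ ≤ l → 2 * a l + 1 ≤ l) (hl : 3 ≤ l₀) (hms : ms + j₀ + 2 * a lm ≤ G.M + 1) {R : XS Γ G mt → Env → Finset ℕ}
    {θb : ℝ≥0∞} {Bd : Set Env} {ε₀ ν₁ ν₂ : ℝ} (hε₀ : 0 ≤ ε₀) (hν₁ : 0 ≤ ν₁) (hν₂ : 0 ≤ ν₂)
    (hq : 2 * A + 2 * (τ₀ + 1 + b) + b' ≤ q)
    (hU : ∀ x : XS Γ G mt, x.1 ∈ S → ∀ ω ∉ Bd, ε₀ ≤ Γ.w x.1 ω → ∀ F : Finset ℕ, F ⊆ range (G.M + 1) → (∀ u ∈ F, ω ∈ Un u x) →
      F.card ≤ b)
    (hR : ∀ x : XS Γ G mt, x.1 ∈ S → ∀ ω ∉ Bd, ε₀ ≤ Γ.w x.1 ω → (R x ω).card ≤ b')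
    (hp : ∀ x : XS Γ G mt, x.1 ∈ S → ∀ ω ∉ Bd, ε₀ ≤ Γ.w x.1 ω → θb ≤ pot τ₀ (sl τ₀) x ω)
    (hdet : ∀ x : XS Γ G mt, x.1 ∈ S → ∀ ω ∉ Bd, ε₀ ≤ Γ.w x.1 ω → ∀ t < ms,
      Usable (Cc77 (p98 Γ G mt th sl be bb st κ3 θ) (wS Γ G mt) (fS77 Γ G mt) Un τ₀ (sl τ₀) x ω) (G.M + 1) l₀ lm a (t + j₀) →
      t ∉ R x ω → ω ∈ V t x.1)
    (hsep : ∑ x, ∫⁻ ω in {ω | A ≤ cnt (p98 Γ G mt th sl be bb st κ3 θ) (wS Γ G mt) (fS77 Γ G mt) τ₀ τ₀ (sl τ₀) x ω ∧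
      θb ≤ pot τ₀ (sl τ₀) x ω}, wS Γ G mt x ω ∂(law μ) ≤ ENNReal.ofReal ν₁) (hbd : law μ Bd ≤ ENNReal.ofReal ν₂) :
    ∑ c ∈ S, ∫⁻ ω in Nar (fun t => V t c) ms q, ENNReal.ofReal (Γ.w c ω) ∂(law μ) ≤ ENNReal.ofReal (ν₁ + ν₂ + S.card * ε₀) := by
  classical
  refine le_trans (sum_le_sum fun c _ => lintegral_mono_set (nar_shift77 (fun t => V t c) ms q j₀)) ?_
  refine nuS77 hΓ hS (V := fun i c => Vs77 (fun t => V t c) j₀ i) (ms := ms + j₀) (b' := b') (b := b) (Bd := Bd)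
    (R := fun x ω => (R x ω).image fun t => t + j₀) ha h1 hl hms hε₀ hν₁ hν₂ hq hU
    (fun x hx ω hω hw => card_image_le.trans (hR x hx ω hω hw)) hp (fun x hx ω hω hw t ht hu htR => ?_) hsep hbd
  unfold Vs77
  by_cases h : t < j₀
  · rw [if_pos h]
    trivial
  · rw [if_neg h]
    have e : t - j₀ + j₀ = t := by omega
    refine hdet x hx ω hω hw (t - j₀) (by omega) (by rw [e]; exact hu) fun hR' => htR ?_
    exact mem_image.2 ⟨t - j₀, hR', e⟩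

/-- What a good scale of a contact gives: not small, tame, few early meetings, little far mass off the ball. -/
theorem good77 {G : Gm} {mt : ℕ} {th : ℕ → ℕ → ℝ} {sl : ℕ → ℝ} {be : ℕ → ℕ → ℝ} {bb : ℕ → ℝ} {st : ℕ → ℕ → ℕ} {κ3 θ : ℝ≥0∞}
    {Un : ℕ → XS Γ G mt → Set Env} {τ₀ : ℕ} {σ : ℝ} {x : XS Γ G mt} {ω : Env} {u : ℕ} (hu : u ≤ G.M)
    (h : u ∉ Cc77 (p98 Γ G mt th sl be bb st κ3 θ) (wS Γ G mt) (fS77 Γ G mt) Un τ₀ σ x ω) :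
    τ₀ < u ∧ ω ∉ Un u x ∧ ∀ k, u + G.m0 ≤ k → k ≤ G.M →
      H49.em (SD53.row Γ) (SD53.w Γ) (G.dk k τ₀) (up x) ω < H49.ex (-(th u k + σ)) ∧
        FA25.fa Γ G u k τ₀ (up x) ω < H49.ex (-(th u k + σ)) := by
  obtain ⟨h1, h2, h3⟩ := not_mem_Cc77 (p := p98 Γ G mt th sl be bb st κ3 θ) hu h
  exact ⟨h1, h3, fun k hk hkM => uncS77 h1.le h2 hk hkM⟩

/-- **THE NUMBERS** of the field `nu`. -/
theorem num77 {θ d κ s' e' : ℝ} (hθ : 1 < θ) (hd : 0 < d) (he' : 0 < e') (hs : s' < d / 2 * κ * Real.log θ)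
    (hs1 : s' < 1) : ∀ᶠ n : ℕ in atTop, ∀ M cd : ℕ, κ * Real.log n ≤ M → (cd : ℝ) ≤ (n : ℝ) ^ (16 : ℝ) →
      2 * θ ^ (-(d / 2) * M) + (n : ℝ) ^ (-(1 : ℝ)) + cd * Real.exp (-((n : ℝ) ^ e')) ≤ (n : ℝ) ^ (-s') := by
  have ev : ∀ {y : ℝ}, 0 < y → ∀ M : ℝ, ∀ᶠ n : ℕ in atTop, M ≤ (n : ℝ) ^ y := fun hy M =>
    ((tendsto_rpow_atTop hy).comp tendsto_natCast_atTop_atTop).eventually_ge_atTop M
  have hexp : ∀ᶠ n : ℕ in atTop, 17 * Real.log n ≤ (n : ℝ) ^ e' := by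
    have h := (isLittleO_log_rpow_atTop he').bound (show (0 : ℝ) < 1 / 17 by norm_num)
    filter_upwards [tendsto_natCast_atTop_atTop.eventually h, eventually_ge_atTop 1] with n hn hn1
    have hn0 : (1 : ℝ) ≤ n := by exact_mod_cast hn1
    rw [Real.norm_of_nonneg (Real.log_nonneg hn0), Real.norm_of_nonneg (by positivity)] at hn
    linarith
  filter_upwards [ev (show 0 < d / 2 * κ * Real.log θ - s' by linarith) 8, ev (show 0 < 1 - s' by linarith) 4, hexp,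
    eventually_ge_atTop 1] with n h8 h4 hexp hn1
  intro M cd hM hcd
  have hn0 : (0 : ℝ) < n := by exact_mod_cast hn1
  have hlog := Real.log_pos hθ
  have hθ0 : 0 < θ := by linarith
  obtain ⟨x, hx⟩ : ∃ x : ℝ, x = (n : ℝ) ^ (-s') := ⟨_, rfl⟩
  have x0 : 0 < x := hx ▸ Real.rpow_pos_of_pos hn0 _
  have a1 : θ ^ (-(d / 2) * M) ≤ x / 8 := by
    have e1 : θ ^ (-(d / 2) * M) ≤ (n : ℝ) ^ (-(d / 2 * κ * Real.log θ)) := by
      rw [Real.rpow_def_of_pos hθ0, Real.rpow_def_of_pos hn0]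
      refine Real.exp_le_exp.2 ?_
      have := mul_le_mul_of_nonneg_left hM (by positivity : 0 ≤ d / 2 * Real.log θ)
      nlinarith
    have e2 : (n : ℝ) ^ (-(d / 2 * κ * Real.log θ)) * (n : ℝ) ^ (d / 2 * κ * Real.log θ - s') = x := by
      rw [hx, ← Real.rpow_add hn0]
      congr 1
      ring
    have e3 : 0 < (n : ℝ) ^ (-(d / 2 * κ * Real.log θ)) := Real.rpow_pos_of_pos hn0 _
    have := mul_le_mul_of_nonneg_left h8 e3.le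
    rw [e2] at this
    linarith
  have a2 : (n : ℝ) ^ (-(1 : ℝ)) ≤ x / 4 := by
    have e2 : (n : ℝ) ^ (-(1 : ℝ)) * (n : ℝ) ^ (1 - s') = x := by
      rw [hx, ← Real.rpow_add hn0]
      congr 1
      ring
    have e3 : 0 < (n : ℝ) ^ (-(1 : ℝ)) := Real.rpow_pos_of_pos hn0 _
    have := mul_le_mul_of_nonneg_left h4 e3.le
    rw [e2] at this
    linarith
  have a3 : cd * Real.exp (-((n : ℝ) ^ e')) ≤ (n : ℝ) ^ (-(1 : ℝ)) := by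
    have e1 : Real.exp (-((n : ℝ) ^ e')) ≤ (n : ℝ) ^ (-(17 : ℝ)) := by
      have e0 : (n : ℝ) ^ (-(17 : ℝ)) = Real.exp (Real.log n * -17) := Real.rpow_def_of_pos hn0 _
      rw [e0]
      exact Real.exp_le_exp.2 (by linarith)
    calc cd * Real.exp (-((n : ℝ) ^ e')) ≤ (n : ℝ) ^ (16 : ℝ) * (n : ℝ) ^ (-(17 : ℝ)) :=
          mul_le_mul hcd e1 (Real.exp_pos _).le (by positivity)
      _ = (n : ℝ) ^ (-(1 : ℝ)) := by
        rw [← Real.rpow_add hn0]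
        norm_num
  rw [← hx]
  linarith

end

end Pool.Agent.W_7d29a1_C1.H77
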