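import Mathlib

/-!
MP_7d29a1_pr, attractor route, row 690 section 7 (helper17): the numbers. Growth of the units along the geometric scales `T K ^ j`,
the last choices `m₁`, `m₀`, the number of the scales between `n ^ e` and `n ^ (3 e)`, and the powers of `n` which come out. Pure part:
`E` is any sequence with the two power bounds `GrE17`.
-/

set_option autoImplicit false

namespace Pool.Agent.W_7d29a1_C1

open Filter Topology

noncomputable section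

/-- The power bounds of the units (or of the widths). -/
structure GrE17 (E : ℕ → ℝ) (a b k : ℝ) (n₁ : ℕ) : Prop where
  a0 : 0 < a
  b0 : 0 < b
  k0 : 0 < k
  k1 : k ≤ 1
  n1 : 1 ≤ n₁
  pos : ∀ n, n₁ ≤ n → 0 < E n
  lo : ∀ m n : ℕ, n₁ ≤ m → m ≤ n → k * ((n : ℝ) / m) ^ a * E m ≤ E n
  up : ∀ m n : ℕ, n₁ ≤ m → m ≤ n → k * E n ≤ ((n : ℝ) / m) ^ b * E m

variable {E : ℕ → ℝ} {a b k : ℝ} {n₁ : ℕ}

theorem ratio17 {T K j : ℕ} (hT : 1 ≤ T) : (((T * K ^ j : ℕ) : ℝ) / T) = (K : ℝ) ^ j := by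
  have : (0 : ℝ) < T := by exact_mod_cast hT
  push_cast
  field_simp

theorem GrE17.lo_sc (h : GrE17 E a b k n₁) {T K : ℕ} (hT : n₁ ≤ T) (hK : 1 ≤ K) (j : ℕ) :
    k * ((K : ℝ) ^ a) ^ j * E T ≤ E (T * K ^ j) := by
  have h1 := h.lo T (T * K ^ j) hT (Nat.le_mul_of_pos_right T (Nat.pos_of_ne_zero (by positivity)))
  rw [ratio17 (h.n1.trans hT), ← Real.rpow_natCast, ← Real.rpow_mul (Nat.cast_nonneg K), mul_comm (j : ℝ) a,
    Real.rpow_mul (Nat.cast_nonneg K), Real.rpow_natCast] at h1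
  exact h1

theorem GrE17.up_sc (h : GrE17 E a b k n₁) {T K : ℕ} (hT : n₁ ≤ T) (hK : 1 ≤ K) (j : ℕ) :
    k * E (T * K ^ j) ≤ ((K : ℝ) ^ b) ^ j * E T := by
  have h1 := h.up T (T * K ^ j) hT (Nat.le_mul_of_pos_right T (Nat.pos_of_ne_zero (by positivity)))
  rw [ratio17 (h.n1.trans hT), ← Real.rpow_natCast, ← Real.rpow_mul (Nat.cast_nonneg K), mul_comm (j : ℝ) b,
    Real.rpow_mul (Nat.cast_nonneg K), Real.rpow_natCast] at h1
  exact h1

/-- Geometric growth beats every power of the exponent. -/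
theorem geo17 {x : ℝ} (hx : 1 < x) (X : ℝ) (p : ℕ) : ∃ j₀ : ℕ, ∀ j : ℕ, j₀ ≤ j → X * (1 + (j : ℝ)) ^ p ≤ x ^ j := by
  have h1 : Tendsto (fun j : ℕ => (j : ℝ) ^ p * (x⁻¹) ^ j) atTop (𝓝 0) :=
    tendsto_pow_const_mul_const_pow_of_abs_lt_one p (by
      rw [abs_of_pos (by positivity)]
      exact inv_lt_one_of_one_lt₀ hx)
  have h2 : ∀ᶠ j : ℕ in atTop, (j : ℝ) ^ p * (x⁻¹) ^ j < 1 / ((|X| + 1) * 2 ^ p) :=
    h1.eventually_lt_const (by positivity)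
  obtain ⟨j₀, h3⟩ := eventually_atTop.1 (h2.and (eventually_ge_atTop 1))
  refine ⟨j₀, fun j hj => ?_⟩
  obtain ⟨h4, h5⟩ := h3 j hj
  have hj1 : (1 : ℝ) ≤ j := by exact_mod_cast h5
  have hxj : 0 < x ^ j := by positivity
  rw [inv_pow, lt_div_iff₀ (by positivity)] at h4
  have h6 : (1 + (j : ℝ)) ^ p ≤ 2 ^ p * (j : ℝ) ^ p := by
    rw [← mul_pow]
    exact pow_le_pow_left₀ (by positivity) (by linarith) p
  have h7 : X * (1 + (j : ℝ)) ^ p ≤ (|X| + 1) * (2 ^ p * (j : ℝ) ^ p) := by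
    refine mul_le_mul (by linarith [le_abs_self X]) h6 (by positivity) (by positivity)
  have h8 : (j : ℝ) ^ p * (x ^ j)⁻¹ * ((|X| + 1) * 2 ^ p) = (|X| + 1) * (2 ^ p * (j : ℝ) ^ p) / x ^ j := by
    field_simp
  rw [h8, div_lt_one hxj] at h4
  linarith

theorem one_lt_rpow17 {K : ℕ} (hK : 2 ≤ K) {a : ℝ} (ha : 0 < a) : 1 < (K : ℝ) ^ a := by
  have : (1 : ℝ) < K := by exact_mod_cast (by omega : 1 < K)
  exact Real.one_lt_rpow this ha

/-- **Finitely many scales are enough**: `X (1 + j) ^ p E T ≤ E (T K ^ j)` for all large `j`, uniformly in `T`. -/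
theorem GrE17.far (h : GrE17 E a b k n₁) {K : ℕ} (hK : 2 ≤ K) (X : ℝ) (p : ℕ) :
    ∃ j₀ : ℕ, ∀ j : ℕ, j₀ ≤ j → ∀ T : ℕ, n₁ ≤ T → X * (1 + (j : ℝ)) ^ p * E T ≤ E (T * K ^ j) := by
  obtain ⟨j₀, h1⟩ := geo17 (one_lt_rpow17 hK h.a0) (X / k) p
  refine ⟨j₀, fun j hj T hT => ?_⟩
  have h2 := h1 j hj
  have h3 := h.lo_sc hT (by omega : 1 ≤ K) j
  have hk := h.k0
  have h4 : X * (1 + (j : ℝ)) ^ p ≤ k * ((K : ℝ) ^ a) ^ j := by
    have h5 : k * (X / k * (1 + (j : ℝ)) ^ p) ≤ k * ((K : ℝ) ^ a) ^ j := mul_le_mul_of_nonneg_left h2 hk.le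
    have h6 : k * (X / k * (1 + (j : ℝ)) ^ p) = X * (1 + (j : ℝ)) ^ p := by
      field_simp
    rw [h6] at h5
    exact h5
  exact (mul_le_mul_of_nonneg_right h4 (h.pos T hT).le).trans h3

/-- The same with a small factor on the right. -/
theorem GrE17.small (h : GrE17 E a b k n₁) {K : ℕ} (hK : 2 ≤ K) (X : ℝ) {ε : ℝ} (hε : 0 < ε) (p : ℕ) :
    ∃ j₀ : ℕ, ∀ j : ℕ, j₀ ≤ j → ∀ T : ℕ, n₁ ≤ T → X * (1 + (j : ℝ)) ^ p * E T ≤ ε * E (T * K ^ j) := by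
  obtain ⟨j₀, h1⟩ := h.far hK (X / ε) p
  refine ⟨j₀, fun j hj T hT => ?_⟩
  have h2 := mul_le_mul_of_nonneg_left (h1 j hj T hT) hε.le
  have h3 : ε * (X / ε * (1 + (j : ℝ)) ^ p * E T) = X * (1 + (j : ℝ)) ^ p * E T := by
    field_simp
  rwa [h3] at h2

/-- **The last choices** (row 690, section 7). Everything before the bar is fixed: `K`, `η`, the levels (in `X`, `q`), the power `p`,
and the lower bound `M₀` of `m₀` which comes from SEP. Then `m₁` with `X E (T K) ≤ η / 32 E (T K ^ m₁)` and `m₀ ≥ m₁, M₀` with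
`q (1 + m₀ + m₁ + Y) ^ p E T ≤ E (T K ^ m₀)`, so `M = m₀ + m₁ ≤ 2 m₀`. -/
theorem GrE17.last (h : GrE17 E a b k n₁) {K : ℕ} (hK : 2 ≤ K) {η : ℝ} (hη : 0 < η) (X q Y : ℝ) (hq : 0 ≤ q) (hY : 0 ≤ Y) (p M₀ : ℕ) :
    ∃ m₁ m₀ : ℕ, 2 ≤ m₁ ∧ m₁ ≤ m₀ ∧ M₀ ≤ m₀ ∧ (∀ T : ℕ, n₁ ≤ T → X * E (T * K) ≤ η / 32 * E (T * K ^ m₁)) ∧
      ∀ m : ℕ, m₀ ≤ m → ∀ T : ℕ, n₁ ≤ T → q * (1 + (m : ℝ) + m₁ + Y) ^ p * E T ≤ E (T * K ^ m) := by
  obtain ⟨j₁, h1⟩ := h.small hK X (show 0 < η / 32 by positivity) 0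
  obtain ⟨m₁, hm₁⟩ : ∃ m₁ : ℕ, m₁ = j₁ + 2 := ⟨_, rfl⟩
  obtain ⟨j₂, h2⟩ := h.far hK (q * (1 + m₁ + Y) ^ p) p
  refine ⟨m₁, max m₁ (max M₀ j₂), by omega, le_max_left _ _, (le_max_left _ _).trans (le_max_right _ _), fun T hT => ?_, fun m hm T hT => ?_⟩
  · have h3 := h1 (m₁ - 1) (by omega) (T * K) (hT.trans (Nat.le_mul_of_pos_right T (by omega)))
    rw [pow_zero, mul_one] at h3
    have e1 : T * K * K ^ (m₁ - 1) = T * K ^ m₁ := by
      rw [mul_assoc, ← pow_succ']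
      congr 2
      omega
    rwa [e1] at h3
  · have h3 := h2 m (((le_max_right _ _).trans (le_max_right _ _)).trans hm) T hT
    refine le_trans (mul_le_mul_of_nonneg_right ?_ (h.pos T hT).le) h3
    rw [mul_assoc, ← mul_pow]
    refine mul_le_mul_of_nonneg_left (pow_le_pow_left₀ (by positivity) ?_ p) hq
    have hm0 : (0 : ℝ) ≤ m := Nat.cast_nonneg _
    have hm1 : (0 : ℝ) ≤ m₁ := Nat.cast_nonneg _
    nlinarith [mul_nonneg hm1 hm0, mul_nonneg hY hm0]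

/-- **The last choices with a taper** (helper10 77980): the innermost `J` slabs have the larger crossing cost `G₂`, the others `G₁`;
`J` is so large that `G₂ E T ≤ G₁ E (T K ^ j)` for `j ≥ J - 1`. Then `m₁` with `X E (T K ^ J) ≤ η / 32 E (T K ^ m₁)`, and `m₀` as in
`GrE17.last`. -/
theorem GrE17.last2 (h : GrE17 E a b k n₁) {K : ℕ} (hK : 2 ≤ K) {η : ℝ} (hη : 0 < η) {G₁ : ℝ} (hG : 0 < G₁) (G₂ X q Y : ℝ)
    (hq : 0 ≤ q) (hY : 0 ≤ Y) (p M₀ : ℕ) :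
    ∃ J m₁ m₀ : ℕ, 1 ≤ J ∧ J + 2 ≤ m₁ ∧ m₁ ≤ m₀ ∧ M₀ ≤ m₀ ∧
      (∀ j : ℕ, J ≤ j + 1 → ∀ T : ℕ, n₁ ≤ T → G₂ * E T ≤ G₁ * E (T * K ^ j)) ∧
      (∀ T : ℕ, n₁ ≤ T → X * E (T * K ^ J) ≤ η / 32 * E (T * K ^ m₁)) ∧
      ∀ m : ℕ, m₀ ≤ m → ∀ T : ℕ, n₁ ≤ T → q * (1 + (m : ℝ) + m₁ + Y) ^ p * E T ≤ E (T * K ^ m) := by
  obtain ⟨j₀, h0⟩ := h.small hK G₂ hG 0
  obtain ⟨J, hJ⟩ : ∃ J : ℕ, J = j₀ + 1 := ⟨_, rfl⟩
  obtain ⟨j₁, h1⟩ := h.small hK X (show 0 < η / 32 by positivity) 0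
  obtain ⟨m₁, hm₁⟩ : ∃ m₁ : ℕ, m₁ = J + (j₁ + 2) := ⟨_, rfl⟩
  obtain ⟨j₂, h2⟩ := h.far hK (q * (1 + m₁ + Y) ^ p) p
  refine ⟨J, m₁, max m₁ (max M₀ j₂), by omega, by omega, le_max_left _ _, (le_max_left _ _).trans (le_max_right _ _),
    fun j hj T hT => ?_, fun T hT => ?_, fun m hm T hT => ?_⟩
  · have h3 := h0 j (by omega) T hT
    rwa [pow_zero, mul_one] at h3
  · have h3 := h1 (j₁ + 2) (by omega) (T * K ^ J) (hT.trans (Nat.le_mul_of_pos_right T (Nat.pos_of_ne_zero (by positivity))))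
    rw [pow_zero, mul_one] at h3
    have e1 : T * K ^ J * K ^ (j₁ + 2) = T * K ^ m₁ := by
      rw [mul_assoc, ← pow_add, hm₁]
    rwa [e1] at h3
  · have h3 := h2 m (((le_max_right _ _).trans (le_max_right _ _)).trans hm) T hT
    refine le_trans (mul_le_mul_of_nonneg_right ?_ (h.pos T hT).le) h3
    rw [mul_assoc, ← mul_pow]
    refine mul_le_mul_of_nonneg_left (pow_le_pow_left₀ (by positivity) ?_ p) hq
    have hm0 : (0 : ℝ) ≤ m := Nat.cast_nonneg _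
    have hm1 : (0 : ℝ) ≤ m₁ := Nat.cast_nonneg _
    nlinarith [mul_nonneg hm1 hm0, mul_nonneg hY hm0]

/-- The sum of the units of the inner scales: `Σ_{j < J} E (T K ^ j) ≤ B E (T K ^ J)`, `B` does not depend on `J`. -/
theorem GrE17.sum (h : GrE17 E a b k n₁) {K : ℕ} (hK : 2 ≤ K) : ∃ B : ℝ, 0 < B ∧ ∀ J T : ℕ, n₁ ≤ T →
    ∑ j ∈ Finset.range J, E (T * K ^ j) ≤ B * E (T * K ^ J) := by
  have hk := h.k0
  obtain ⟨x, hx⟩ : ∃ x : ℝ, x = (K : ℝ) ^ a := ⟨_, rfl⟩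
  have hx1 : 1 < x := by
    rw [hx]
    exact one_lt_rpow17 hK h.a0
  have hy : (x⁻¹) < 1 := inv_lt_one_of_one_lt₀ hx1
  have hy0 : 0 ≤ x⁻¹ := by positivity
  refine ⟨1 / k * (1 - x⁻¹)⁻¹, by
    have : 0 < 1 - x⁻¹ := by linarith
    positivity, fun J T hT => ?_⟩
  have hTJ : n₁ ≤ T * K ^ J := hT.trans (Nat.le_mul_of_pos_right T (Nat.pos_of_ne_zero (by positivity)))
  have hEJ := h.pos _ hTJ
  have h1 : ∀ j ∈ Finset.range J, E (T * K ^ j) ≤ 1 / k * (x⁻¹) ^ (J - j) * E (T * K ^ J) := by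
    intro j hj
    have hjJ : j < J := Finset.mem_range.1 hj
    have h2 := h.lo_sc (T := T * K ^ j) (hT.trans (Nat.le_mul_of_pos_right T (Nat.pos_of_ne_zero (by positivity))))
      (by omega : 1 ≤ K) (J - j)
    rw [← hx, mul_assoc T, ← pow_add, Nat.add_sub_cancel' hjJ.le] at h2
    have h3 : 0 < x ^ (J - j) := by positivity
    calc E (T * K ^ j) = 1 / k * (x⁻¹) ^ (J - j) * (k * x ^ (J - j) * E (T * K ^ j)) := by
          rw [inv_pow]
          field_simp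
      _ ≤ 1 / k * (x⁻¹) ^ (J - j) * E (T * K ^ J) := mul_le_mul_of_nonneg_left h2 (by positivity)
  refine (Finset.sum_le_sum h1).trans ?_
  rw [← Finset.sum_mul, ← Finset.mul_sum]
  refine mul_le_mul_of_nonneg_right (mul_le_mul_of_nonneg_left ?_ (by positivity)) hEJ.le
  have h4 : ∑ j ∈ Finset.range J, (x⁻¹) ^ (J - j) ≤ ∑ i ∈ Finset.range (J + 1), (x⁻¹) ^ i := by
    rw [← Finset.sum_range_reflect (fun i => (x⁻¹) ^ i) (J + 1), Finset.sum_range_succ]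
    have h5 : ∀ j ∈ Finset.range J, (x⁻¹) ^ (J - j) = (x⁻¹) ^ (J + 1 - 1 - j) := fun j _ => by
      rw [Nat.add_sub_cancel]
    rw [Finset.sum_congr rfl h5]
    have : 0 ≤ (x⁻¹) ^ (J + 1 - 1 - J) := by positivity
    linarith
  refine h4.trans ?_
  have h5 := (summable_geometric_of_lt_one hy0 hy).sum_le_tsum (Finset.range (J + 1)) (fun i _ => by positivity)
  rw [tsum_geometric_of_lt_one hy0 hy] at h5
  exact h5

/-! ### The number of the scales -/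

/-- The first scale. -/
def T17 (e : ℝ) (n : ℕ) : ℕ := ⌈(n : ℝ) ^ e⌉₊

/-- The number of the scales. -/
def sc17 (e : ℝ) (K n : ℕ) : ℕ := ⌊e / Real.log K * Real.log n⌋₊

theorem ev_pow17' (X : ℝ) {d : ℝ} (hd : 0 < d) : ∀ᶠ n : ℕ in atTop, X ≤ (n : ℝ) ^ d :=
  ((tendsto_rpow_atTop hd).comp tendsto_natCast_atTop_atTop).eventually_ge_atTop X

theorem ev_log17 (X : ℝ) : ∀ᶠ n : ℕ in atTop, X ≤ Real.log n :=
  (Real.tendsto_log_atTop.comp tendsto_natCast_atTop_atTop).eventually_ge_atTop X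

/-- `K ^ sc ≤ n ^ e`. -/
theorem sc_le17 {e : ℝ} (he : 0 < e) {K : ℕ} (hK : 2 ≤ K) {n : ℕ} (hn : 1 ≤ n) : ((K : ℝ) ^ sc17 e K n) ≤ (n : ℝ) ^ e := by
  have hK1 : (1 : ℝ) < K := by exact_mod_cast (by omega : 1 < K)
  have hlK : 0 < Real.log K := Real.log_pos hK1
  have hn1 : (1 : ℝ) ≤ n := by exact_mod_cast hn
  have hln : 0 ≤ Real.log n := Real.log_nonneg hn1
  have h1 : ((sc17 e K n : ℕ) : ℝ) ≤ e / Real.log K * Real.log n := Nat.floor_le (by positivity)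
  have h2 : ((sc17 e K n : ℕ) : ℝ) * Real.log K ≤ e * Real.log n := by
    have h3 := mul_le_mul_of_nonneg_right h1 hlK.le
    have h4 : e / Real.log K * Real.log n * Real.log K = e * Real.log n := by
      field_simp
    linarith
  rw [← Real.exp_log (show (0 : ℝ) < K by linarith), ← Real.exp_nat_mul, Real.rpow_def_of_pos (by linarith)]
  exact Real.exp_le_exp.2 (by linarith)

/-- The number of the scales is of the order `log n`. -/
theorem sc_ge17 {e : ℝ} (he : 0 < e) {K : ℕ} (hK : 2 ≤ K) :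
    ∀ᶠ n : ℕ in atTop, e / (2 * Real.log K) * Real.log n ≤ sc17 e K n := by
  have hK1 : (1 : ℝ) < K := by exact_mod_cast (by omega : 1 < K)
  have hlK : 0 < Real.log K := Real.log_pos hK1
  filter_upwards [ev_log17 (2 * Real.log K / e)] with n h1
  have h2 : e / Real.log K * Real.log n < sc17 e K n + 1 := Nat.lt_floor_add_one _
  rw [div_le_iff₀ he] at h1
  have h3 : e / Real.log K * Real.log n = 2 * (e / (2 * Real.log K) * Real.log n) := by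
    field_simp
  have h4 : 1 ≤ e / (2 * Real.log K) * Real.log n := by
    rw [div_mul_eq_mul_div, le_div_iff₀ (by positivity)]
    linarith
  linarith

/-- **All scales are between `n ^ e` and `n ^ (3 e)`.** -/
theorem T_sc17 {e : ℝ} (he : 0 < e) {K : ℕ} (hK : 2 ≤ K) :
    ∀ᶠ n : ℕ in atTop, ∀ t : ℕ, t ≤ sc17 e K n → (n : ℝ) ^ e ≤ ((T17 e n * K ^ t : ℕ) : ℝ) ∧
      ((T17 e n * K ^ t : ℕ) : ℝ) ≤ (n : ℝ) ^ (3 * e) := by
  filter_upwards [ev_pow17' 2 he, eventually_ge_atTop 1] with n h1 h2 t ht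
  have hn0 : (0 : ℝ) < n := by exact_mod_cast h2
  have hK1 : (1 : ℝ) ≤ K := by exact_mod_cast (by omega : 1 ≤ K)
  have h3 : (n : ℝ) ^ e ≤ (T17 e n : ℝ) := Nat.le_ceil _
  have h4 : (T17 e n : ℝ) ≤ 2 * (n : ℝ) ^ e := by
    have h5 : (T17 e n : ℝ) < (n : ℝ) ^ e + 1 := Nat.ceil_lt_add_one (by positivity)
    linarith
  have h5 : (K : ℝ) ^ t ≤ (n : ℝ) ^ e := (pow_le_pow_right₀ hK1 ht).trans (sc_le17 he hK h2)
  have h6 : (1 : ℝ) ≤ (K : ℝ) ^ t := one_le_pow₀ hK1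
  have hp : 0 < (n : ℝ) ^ e := Real.rpow_pos_of_pos hn0 _
  push_cast
  constructor
  · calc (n : ℝ) ^ e = (n : ℝ) ^ e * 1 := (mul_one _).symm
      _ ≤ (T17 e n : ℝ) * (K : ℝ) ^ t := mul_le_mul h3 h6 zero_le_one (by positivity)
  · have e1 : (n : ℝ) ^ (3 * e) = (n : ℝ) ^ e * (n : ℝ) ^ e * (n : ℝ) ^ e := by
      rw [← Real.rpow_add hn0, ← Real.rpow_add hn0]
      ring_nf
    calc (T17 e n : ℝ) * (K : ℝ) ^ t ≤ (2 * (n : ℝ) ^ e) * (n : ℝ) ^ e := mul_le_mul h4 h5 (by positivity) (by positivity)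
      _ = 2 * ((n : ℝ) ^ e * (n : ℝ) ^ e) := by ring
      _ ≤ (n : ℝ) ^ e * ((n : ℝ) ^ e * (n : ℝ) ^ e) := mul_le_mul_of_nonneg_right h1 (by positivity)
      _ = (n : ℝ) ^ (3 * e) := by
          rw [e1]
          ring

/-- **The units of the scales are small**: `E (T_t) ≤ n ^ (- c) E n` for all scales, and the same with any constant in front. -/
theorem GrE17.top (h : GrE17 E a b k n₁) {e : ℝ} (he : 0 < e) (he1 : 3 * e < 1) {K : ℕ} (hK : 2 ≤ K) {c : ℝ}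
    (hc : c < a * (1 - 3 * e)) (X : ℝ) :
    ∀ᶠ n : ℕ in atTop, ∀ t : ℕ, t ≤ sc17 e K n → n₁ ≤ T17 e n * K ^ t ∧ X * E (T17 e n * K ^ t) ≤ (n : ℝ) ^ (-c) * E n := by
  have hk := h.k0
  obtain ⟨d, hd⟩ : ∃ d : ℝ, d = a * (1 - 3 * e) - c := ⟨_, rfl⟩
  have hd0 : 0 < d := by rw [hd]; linarith
  filter_upwards [T_sc17 he hK, ev_pow17' (n₁ : ℝ) he, ev_pow17' (|X| / k) hd0, eventually_ge_atTop 1] with n h1 h2 h3 h4 t ht
  obtain ⟨h5, h6⟩ := h1 t ht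
  obtain ⟨T, hT⟩ : ∃ T : ℕ, T = T17 e n * K ^ t := ⟨_, rfl⟩
  rw [← hT] at h5 h6 ⊢
  have hn0 : (0 : ℝ) < n := by exact_mod_cast h4
  have hn1 : (1 : ℝ) ≤ n := by exact_mod_cast h4
  have hTn : n₁ ≤ T := by
    have : (n₁ : ℝ) ≤ T := h2.trans h5
    exact_mod_cast this
  refine ⟨hTn, ?_⟩
  have hT0 : (0 : ℝ) < T := by
    have : (0 : ℝ) < (n : ℝ) ^ e := Real.rpow_pos_of_pos hn0 _
    linarith
  have hTle : (T : ℝ) ≤ n := by
    calc (T : ℝ) ≤ (n : ℝ) ^ (3 * e) := h6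
      _ ≤ (n : ℝ) ^ (1 : ℝ) := Real.rpow_le_rpow_of_exponent_le hn1 he1.le
      _ = n := Real.rpow_one _
  have h7 := h.lo T n hTn (by exact_mod_cast hTle)
  have hET := h.pos T hTn
  have h8 : (n : ℝ) ^ (a * (1 - 3 * e)) ≤ ((n : ℝ) / T) ^ a := by
    have h9 : (n : ℝ) ^ (1 - 3 * e) ≤ (n : ℝ) / T := by
      rw [le_div_iff₀ hT0]
      calc (n : ℝ) ^ (1 - 3 * e) * T ≤ (n : ℝ) ^ (1 - 3 * e) * (n : ℝ) ^ (3 * e) :=
            mul_le_mul_of_nonneg_left h6 (Real.rpow_nonneg hn0.le _)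
        _ = n := by
            rw [← Real.rpow_add hn0]
            ring_nf
            exact Real.rpow_one _
    rw [mul_comm, Real.rpow_mul hn0.le]
    exact Real.rpow_le_rpow (Real.rpow_nonneg hn0.le _) h9 h.a0.le
  have h9 : |X| * E T ≤ (n : ℝ) ^ d * (k * E T) := by
    rw [div_le_iff₀ hk] at h3
    calc |X| * E T ≤ ((n : ℝ) ^ d * k) * E T := mul_le_mul_of_nonneg_right h3 hET.le
      _ = (n : ℝ) ^ d * (k * E T) := by ring
  have h10 : (n : ℝ) ^ d = (n : ℝ) ^ (-c) * (n : ℝ) ^ (a * (1 - 3 * e)) := by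
    rw [← Real.rpow_add hn0, hd]
    ring_nf
  calc X * E T ≤ |X| * E T := mul_le_mul_of_nonneg_right (le_abs_self X) hET.le
    _ ≤ (n : ℝ) ^ d * (k * E T) := h9
    _ = (n : ℝ) ^ (-c) * (k * (n : ℝ) ^ (a * (1 - 3 * e)) * E T) := by
        rw [h10]
        ring
    _ ≤ (n : ℝ) ^ (-c) * (k * ((n : ℝ) / T) ^ a * E T) :=
        mul_le_mul_of_nonneg_left (mul_le_mul_of_nonneg_right (mul_le_mul_of_nonneg_left h8 hk.le) hET.le)
          (Real.rpow_nonneg hn0.le _)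
    _ ≤ (n : ℝ) ^ (-c) * E n := mul_le_mul_of_nonneg_left h7 (Real.rpow_nonneg hn0.le _)

/-- **A fixed factor per usable block gives a power of `n`**: `X θ ^ N ≤ n ^ (- c)` if `N ≥ x sc - y`. -/
theorem pow_sc17 {θ : ℝ} (hθ : 0 < θ) (hθ1 : θ < 1) {e : ℝ} (he : 0 < e) {K : ℕ} (hK : 2 ≤ K) {x : ℝ} (hx : 0 < x) (y X : ℝ) :
    ∃ c : ℝ, 0 < c ∧ ∀ᶠ n : ℕ in atTop, ∀ N : ℕ, x * sc17 e K n - y ≤ N → X * θ ^ N ≤ (n : ℝ) ^ (-c) := by
  have hK1 : (1 : ℝ) < K := by exact_mod_cast (by omega : 1 < K)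
  have hlK : 0 < Real.log K := Real.log_pos hK1
  obtain ⟨l, hl⟩ : ∃ l : ℝ, l = -Real.log θ := ⟨_, rfl⟩
  have hl0 : 0 < l := by
    rw [hl]
    linarith [Real.log_neg hθ hθ1]
  obtain ⟨c, hc⟩ : ∃ c : ℝ, c = l * x * (e / (2 * Real.log K)) / 2 := ⟨_, rfl⟩
  have hc0 : 0 < c := by
    rw [hc]
    positivity
  refine ⟨c, hc0, ?_⟩
  filter_upwards [sc_ge17 he hK, ev_pow17' (|X| * Real.exp (l * y)) hc0, eventually_ge_atTop 1] with n h1 h2 h3 N hN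
  have hn0 : (0 : ℝ) < n := by exact_mod_cast h3
  have h4 : θ ^ N = Real.exp (-(l * N)) := by
    rw [hl, neg_mul, neg_neg, mul_comm, Real.exp_nat_mul, Real.exp_log hθ]
  have h5 : -(l * N) ≤ l * y + -(2 * c) * Real.log n := by
    have h6 : l * (x * sc17 e K n - y) ≤ l * N := mul_le_mul_of_nonneg_left hN hl0.le
    have h7 : l * x * (e / (2 * Real.log K) * Real.log n) ≤ l * x * sc17 e K n := mul_le_mul_of_nonneg_left h1 (by positivity)
    have h8 : 2 * c * Real.log n = l * x * (e / (2 * Real.log K) * Real.log n) := by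
      rw [hc]
      ring
    linarith
  have h6 : θ ^ N ≤ Real.exp (l * y) * (n : ℝ) ^ (-(2 * c)) := by
    rw [h4, Real.rpow_def_of_pos hn0, ← Real.exp_add]
    refine Real.exp_le_exp.2 (h5.trans (le_of_eq ?_))
    ring
  have hp : 0 ≤ (n : ℝ) ^ (-(2 * c)) := Real.rpow_nonneg hn0.le _
  calc X * θ ^ N ≤ |X| * θ ^ N := mul_le_mul_of_nonneg_right (le_abs_self X) (by positivity)
    _ ≤ |X| * (Real.exp (l * y) * (n : ℝ) ^ (-(2 * c))) := mul_le_mul_of_nonneg_left h6 (abs_nonneg X)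
    _ = (|X| * Real.exp (l * y)) * (n : ℝ) ^ (-(2 * c)) := by ring
    _ ≤ (n : ℝ) ^ c * (n : ℝ) ^ (-(2 * c)) := mul_le_mul_of_nonneg_right h2 hp
    _ = (n : ℝ) ^ (-c) := by
        rw [← Real.rpow_add hn0]
        ring_nf

/-- The blocks of one residue class below `m`: at least `m / M - 1` of them. -/
theorem cls17 {m M s : ℕ} (hM : 1 ≤ M) (hs : s < M) : (m : ℝ) / M - 1 ≤ ((Finset.range m).filter fun t => t % M = s).card := by
  have h1 : m / M ≤ ((Finset.range m).filter fun t => t % M = s).card := by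
    have h2 : ((Finset.range (m / M)).image fun i => s + i * M) ⊆ (Finset.range m).filter fun t => t % M = s := by
      intro t ht
      simp only [Finset.mem_image, Finset.mem_range] at ht
      obtain ⟨i, hi, rfl⟩ := ht
      simp only [Finset.mem_filter, Finset.mem_range]
      refine ⟨?_, ?_⟩
      · have h3 : (i + 1) * M ≤ m / M * M := Nat.mul_le_mul_right _ hi
        have h4 : m / M * M ≤ m := Nat.div_mul_le_self _ _
        have h5 : (i + 1) * M = i * M + M := by ring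
        omega
      · rw [Nat.add_mul_mod_self_right, Nat.mod_eq_of_lt hs]
    have h3 : ((Finset.range (m / M)).image fun i => s + i * M).card = m / M := by
      rw [Finset.card_image_of_injective, Finset.card_range]
      intro i j hij
      simp only at hij
      exact Nat.eq_of_mul_eq_mul_right (by omega : 0 < M) (by omega)
    rw [← h3]
    exact Finset.card_le_card h2
  have h2 : (m : ℝ) / M < (m / M : ℕ) + 1 := by
    rw [div_lt_iff₀ (by exact_mod_cast hM)]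
    have h3 : m < (m / M + 1) * M := by
      have := Nat.lt_div_mul_add (a := m) (b := M) (by omega)
      linarith [add_mul (m / M) 1 M]
    exact_mod_cast h3
  have h3 : ((m / M : ℕ) : ℝ) ≤ ((Finset.range m).filter fun t => t % M = s).card := by exact_mod_cast h1
  linarith

end

end Pool.Agent.W_7d29a1_C1
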