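import Pool.Agent.W_7d29a1_C1.SkelM49
import Pool.Agent.W_7d29a1_C1.Num17

/-!
Both halves (MP_7d29a1_pr), attractor route [C1], SEP: THE NUMBERS of `MoveQ` (thresholds `th`, `be`, slack `sl`, losses `b`,
starts `st`, error levels). `E u`: the energy of the scale `u`, growing geometrically up to a constant. (helper49)
-/

set_option autoImplicit false

namespace Pool.Agent.W_7d29a1_C1.N49

open Finset
open scoped ENNReal
open Pool.Agent.W_7d29a1_C1.H49 (ex ex_mono ex_add ex_ne_top ex_zero)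

/-- The energies grow geometrically up to the constant `C`. -/
structure Gr (E : ℕ → ℝ) (κ C : ℝ) : Prop where
  pos : ∀ u, 0 < E u
  two : 2 ≤ κ
  one : 1 ≤ C
  gr : ∀ v u, v ≤ u → κ ^ (u - v) * E v ≤ C * E u

/-- The thresholds of covering. -/
def thN (η : ℝ) (A : ℕ) (E : ℕ → ℝ) (t k : ℕ) : ℝ := η * ((k - t : ℕ) : ℝ) ^ A * E t

/-- The losses. -/
def bN (Cb : ℝ) (E : ℕ → ℝ) (v : ℕ) : ℝ := Cb * E v

/-- The slack of the stage `τ`: the losses of the windows `v < τ - m2`. -/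
def slN (Cb : ℝ) (E : ℕ → ℝ) (m2 τ : ℕ) : ℝ := ∑ v ∈ range (τ - m2), bN Cb E v

/-- The levels below which a contact is thrown away. -/
def beN (η : ℝ) (A : ℕ) (Cb : ℝ) (E : ℕ → ℝ) (m2 : ℕ) (L : ℝ) (t i : ℕ) : ℝ := thN η A E t i + slN Cb E m2 (t - 1) + L

/-- The start of the windows which are changed for the pair `t, i`. -/
def stN (a t i : ℕ) : ℕ := t + a * (Nat.log 2 (i - t + 1) + 1)

namespace Gr

variable {E : ℕ → ℝ} {κ C : ℝ} (g : Gr E κ C)
include g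

theorem le {v u : ℕ} (h : v ≤ u) : E v ≤ C * E u := by
  have h1 := g.gr v u h
  have h2 : (1 : ℝ) ≤ κ ^ (u - v) := one_le_pow₀ (by linarith [g.two])
  nlinarith [g.pos v]

theorem two_pow {v u : ℕ} (h : v ≤ u) : 2 ^ (u - v) * E v ≤ C * E u := by
  have h1 := g.gr v u h
  have h2 : (2 : ℝ) ^ (u - v) ≤ κ ^ (u - v) := pow_le_pow_left₀ (by norm_num) g.two _
  nlinarith [g.pos v]

theorem b_nonneg {Cb : ℝ} (h : 0 ≤ Cb) (v : ℕ) : 0 ≤ bN Cb E v := mul_nonneg h (g.pos v).le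

theorem sl_mono {Cb : ℝ} (h : 0 ≤ Cb) (m2 : ℕ) : Monotone (slN Cb E m2) := fun τ τ' hτ =>
  sum_le_sum_of_subset_of_nonneg (range_mono (by omega)) fun v _ _ => g.b_nonneg h v

theorem sl_nonneg {Cb : ℝ} (h : 0 ≤ Cb) (m2 τ : ℕ) : 0 ≤ slN Cb E m2 τ := sum_nonneg fun v _ => g.b_nonneg h v

/-- All losses up to `u`. -/
theorem sum_le {Cb : ℝ} (h : 0 ≤ Cb) (τ : ℕ) : ∑ v ∈ range (τ + 1), bN Cb E v ≤ 2 * C * Cb * E τ := by
  have key : ∀ τ : ℕ, ∑ v ∈ range (τ + 1), ((2 : ℝ) ^ (τ - v))⁻¹ ≤ 2 := by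
    intro τ
    induction τ with
    | zero => simp
    | succ n ih =>
      rw [sum_range_succ]
      have e : ∑ v ∈ range (n + 1), ((2 : ℝ) ^ (n + 1 - v))⁻¹ = 2⁻¹ * ∑ v ∈ range (n + 1), ((2 : ℝ) ^ (n - v))⁻¹ := by
        rw [mul_sum]
        refine sum_congr rfl fun v hv => ?_
        rw [mem_range] at hv
        rw [show n + 1 - v = (n - v) + 1 by omega, pow_succ, mul_inv, mul_comm]
      rw [e, Nat.sub_self, pow_zero, inv_one]
      linarith
  have h1 : ∀ v ∈ range (τ + 1), bN Cb E v ≤ Cb * C * E τ * ((2 : ℝ) ^ (τ - v))⁻¹ := by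
    intro v hv
    rw [mem_range] at hv
    have h2 := g.two_pow (v := v) (u := τ) (by omega)
    have h3 : (0 : ℝ) < 2 ^ (τ - v) := by positivity
    have h4 : E v ≤ C * E τ * ((2 : ℝ) ^ (τ - v))⁻¹ := by
      rw [← div_eq_mul_inv, le_div_iff₀ h3]
      linarith
    unfold bN
    calc Cb * E v ≤ Cb * (C * E τ * ((2 : ℝ) ^ (τ - v))⁻¹) := mul_le_mul_of_nonneg_left h4 h
      _ = _ := by ring
  calc _ ≤ ∑ v ∈ range (τ + 1), Cb * C * E τ * ((2 : ℝ) ^ (τ - v))⁻¹ := sum_le_sum h1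
    _ = Cb * C * E τ * ∑ v ∈ range (τ + 1), ((2 : ℝ) ^ (τ - v))⁻¹ := (mul_sum _ _ _).symm
    _ ≤ Cb * C * E τ * 2 := mul_le_mul_of_nonneg_left (key τ)
        (mul_nonneg (mul_nonneg h (by linarith [g.one])) (g.pos τ).le)
    _ = _ := by ring

/-- THE SLACK IS SMALL: at all scales `u > τ`, by the choice of `m2`. -/
theorem sl_small {Cb : ℝ} (h : 0 ≤ Cb) (m2 : ℕ) {τ u : ℕ} (hu : τ ≤ u) :
    2 ^ (m2 + (u - τ)) * slN Cb E m2 τ ≤ 2 * C * Cb * C * E u := by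
  have hC := g.one
  have hE := g.pos u
  by_cases h0 : τ ≤ m2
  · unfold slN
    rw [show τ - m2 = 0 by omega, range_zero, sum_empty, mul_zero]
    positivity
  · have h1 := g.sum_le h (τ - m2 - 1)
    rw [show τ - m2 - 1 + 1 = τ - m2 by omega] at h1
    have h2 := g.two_pow (v := τ - m2 - 1) (u := u) (by omega)
    have h3 : (0 : ℝ) ≤ 2 ^ (m2 + (u - τ)) := by positivity
    have h4 : (2 : ℝ) ^ (m2 + (u - τ)) ≤ 2 ^ (u - (τ - m2 - 1)) := pow_le_pow_right₀ (by norm_num) (by omega)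
    have hCC : (0 : ℝ) ≤ 2 * C * Cb := by positivity
    unfold slN
    calc 2 ^ (m2 + (u - τ)) * ∑ v ∈ range (τ - m2), bN Cb E v
        ≤ 2 ^ (m2 + (u - τ)) * (2 * C * Cb * E (τ - m2 - 1)) := mul_le_mul_of_nonneg_left h1 h3
      _ = 2 * C * Cb * (2 ^ (m2 + (u - τ)) * E (τ - m2 - 1)) := by ring
      _ ≤ 2 * C * Cb * (2 ^ (u - (τ - m2 - 1)) * E (τ - m2 - 1)) :=
          mul_le_mul_of_nonneg_left (mul_le_mul_of_nonneg_right h4 (g.pos _).le) hCC
      _ ≤ 2 * C * Cb * (C * E u) := mul_le_mul_of_nonneg_left h2 hCC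
      _ = _ := by ring

theorem sl_le {Cb : ℝ} (h : 0 ≤ Cb) (m2 : ℕ) {τ u : ℕ} (hu : τ ≤ u) : slN Cb E m2 τ ≤ 2 * C * Cb * C * E u := by
  have h1 := g.sl_small h m2 hu
  have h2 : (1 : ℝ) ≤ 2 ^ (m2 + (u - τ)) := one_le_pow₀ (by norm_num)
  have h3 := g.sl_nonneg h m2 τ
  nlinarith

theorem slack {Cb : ℝ} (h : 0 ≤ Cb) (m2 : ℕ) {t s i j : ℕ} (hs : t ≤ s) (hi : i ≤ j) (hJ : t ≤ j) :
    slN Cb E m2 (t - 1) + ∑ v ∈ Ico s i, bN Cb E v ≤ slN Cb E m2 (j + m2) := by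
  unfold slN
  rw [← sum_union (s₁ := range (t - 1 - m2)) (s₂ := Ico s i)
    (disjoint_left.2 fun v h1 h2 => by rw [mem_range] at h1; rw [mem_Ico] at h2; omega)]
  refine sum_le_sum_of_subset_of_nonneg (fun v hv => ?_) fun v _ _ => g.b_nonneg h v
  rcases mem_union.1 hv with h1 | h1
  · rw [mem_range] at h1 ⊢
    omega
  · rw [mem_Ico] at h1
    rw [mem_range]; omega

end Gr

/-- From the regularity of the energies (`GrE17`) along the rows `T0 K ^ u`. -/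
theorem Gr.of_GrE17 {E : ℕ → ℝ} {a b k : ℝ} {n₁ : ℕ} (h : GrE17 E a b k n₁) {T0 K : ℕ} (hT : n₁ ≤ T0) (hK : 1 ≤ K)
    (h2 : 2 ≤ (K : ℝ) ^ a) : Gr (fun u => E (T0 * K ^ u)) ((K : ℝ) ^ a) (1 / k) := by
  have hT1 : 1 ≤ T0 := h.n1.trans hT
  have hTk : ∀ u, n₁ ≤ T0 * K ^ u := fun u => hT.trans (Nat.le_mul_of_pos_right _ (Nat.pow_pos (by omega)))
  refine ⟨fun u => h.pos _ (hTk u), h2, by rw [le_div_iff₀ h.k0, one_mul]; exact h.k1, fun v u hvu => ?_⟩
  have h3 := h.lo (T0 * K ^ v) (T0 * K ^ u) (hTk v) (Nat.mul_le_mul_left _ (Nat.pow_le_pow_right (by omega) hvu))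
  have hp : (0 : ℝ) < ((T0 * K ^ v : ℕ) : ℝ) := by
    have : 0 < T0 * K ^ v := Nat.mul_pos hT1 (Nat.pow_pos (by omega))
    exact_mod_cast this
  have e1 : (((T0 * K ^ u : ℕ) : ℝ) / ((T0 * K ^ v : ℕ) : ℝ)) = (K : ℝ) ^ (u - v) := by
    rw [div_eq_iff hp.ne']
    push_cast
    rw [show (K : ℝ) ^ u = K ^ (u - v) * K ^ v by rw [← pow_add]; congr 1; omega]
    ring
  have e2 : ((K : ℝ) ^ (u - v)) ^ a = ((K : ℝ) ^ a) ^ (u - v) := by
    rw [← Real.rpow_natCast, ← Real.rpow_mul (by positivity), mul_comm, Real.rpow_mul (by positivity),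
      Real.rpow_natCast]
  rw [e1, e2] at h3
  rw [one_div, ← div_eq_inv_mul, le_div_iff₀ h.k0]
  linarith

theorem st_ge (a t i : ℕ) : t ≤ stN a t i := Nat.le_add_right _ _

/-- The distances for which the start comes before the end. -/
theorem exists_log (a : ℕ) : ∃ m : ℕ, ∀ l : ℕ, m ≤ l → a * (Nat.log 2 (l + 1) + 1) < l := by
  have h1 : Filter.Tendsto (fun n : ℕ => ((n : ℝ) ^ 1) / (2 : ℝ) ^ n) Filter.atTop (nhds 0) :=
    tendsto_pow_const_div_const_pow_of_one_lt 1 (by norm_num)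
  have h2 : Filter.Tendsto (fun n : ℕ => (1 : ℝ) / (2 : ℝ) ^ n) Filter.atTop (nhds 0) := by
    have := tendsto_pow_const_div_const_pow_of_one_lt (r := (2 : ℝ)) 0 (by norm_num)
    simpa using this
  have h3 : Filter.Tendsto (fun n : ℕ => (a : ℝ) * (((n : ℝ) ^ 1) / (2 : ℝ) ^ n) + (a + 1) * ((1 : ℝ) / (2 : ℝ) ^ n))
      Filter.atTop (nhds ((a : ℝ) * 0 + (a + 1) * 0)) := (h1.const_mul _).add (h2.const_mul _)
  simp only [mul_zero, add_zero] at h3
  obtain ⟨N, hN⟩ := Filter.eventually_atTop.1 (h3.eventually (gt_mem_nhds (show (0 : ℝ) < 1 by norm_num)))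
  refine ⟨2 ^ N, fun l hl => ?_⟩
  set L := Nat.log 2 (l + 1) with hL
  have hL1 : N ≤ L := (Nat.le_log_iff_pow_le (by norm_num) (by omega)).2 (by omega)
  have h4 := hN L hL1
  have h5 : (0 : ℝ) < 2 ^ L := by positivity
  rw [pow_one, mul_div_assoc', mul_div_assoc', ← add_div, div_lt_one h5] at h4
  have h6 : 2 ^ L ≤ l + 1 := Nat.pow_log_le_self 2 (by omega)
  have h7 : ((2 : ℝ) ^ L) ≤ l + 1 := by exact_mod_cast h6
  have h8 : (a : ℝ) * (L + 1) + 1 < l + 1 := by nlinarith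
  have h9 : ((a * (L + 1) + 1 : ℕ) : ℝ) < ((l + 1 : ℕ) : ℝ) := by push_cast; exact h8
  have h10 : a * (L + 1) + 1 < l + 1 := by exact_mod_cast h9
  omega

theorem st_sub (a t i : ℕ) : stN a t i - t = a * (Nat.log 2 (i - t + 1) + 1) := by unfold stN; omega

/-- The start is far enough. -/
theorem pow_le_two (a t i : ℕ) : ((i - t : ℕ) + 1) ^ a ≤ 2 ^ (stN a t i - t) := by
  rw [st_sub, mul_comm, pow_mul]
  exact Nat.pow_le_pow_left (Nat.lt_pow_succ_log_self (by norm_num) _).le a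

/-- The price of the scales before the start is a polynomial. -/
theorem st_pow (a t i : ℕ) {θ : ℝ≥0∞} (hθ : θ ≤ 2) :
    θ ^ (2 * (stN a t i - t)) ≤ 2 ^ (2 * a) * ((i - t : ℕ) + 1) ^ (2 * a) := by
  have h1 : θ ^ (2 * (stN a t i - t)) ≤ 2 ^ (2 * (stN a t i - t)) := pow_le_pow_left₀ (by positivity) hθ _
  refine h1.trans ?_
  rw [st_sub]
  have h2 : (2 : ℝ≥0∞) ^ (2 * (a * (Nat.log 2 (i - t + 1) + 1))) =
      2 ^ (2 * a) * ((2 : ℝ≥0∞) ^ (Nat.log 2 (i - t + 1))) ^ (2 * a) := by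
    rw [← pow_mul, ← pow_add]; ring_nf
  rw [h2]
  refine mul_le_mul' le_rfl (pow_le_pow_left₀ (by positivity) ?_ _)
  have h3 : 2 ^ (Nat.log 2 (i - t + 1)) ≤ i - t + 1 := Nat.pow_log_le_self 2 (by omega)
  exact_mod_cast h3

/-- The levels are small against the energy of every window which is changed. -/
theorem Gr.be_le {E : ℕ → ℝ} {κ C : ℝ} (g : Gr E κ C) {η Cb ε0 L : ℝ} (hη : 0 ≤ η) (hCb : 0 ≤ Cb) (A : ℕ)
    (m2 : ℕ) {t i u : ℕ} (hL : L ≤ E t) (hm : (η + 2 * C * Cb * C + 1) * C ≤ ε0 * ((i - t : ℕ) + 1))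
    (hu : stN (A + 1) t i ≤ u) : beN η A Cb E m2 L t i ≤ ε0 * E u := by
  have htu : t ≤ u := (st_ge _ _ _).trans hu
  set l : ℝ := ((i - t : ℕ) : ℝ) with hl
  have hl0 : 0 ≤ l := Nat.cast_nonneg _
  have h1 : (l + 1) ^ (A + 1) * E t ≤ C * E u := by
    have h2 := g.two_pow htu
    have h3 : (l + 1) ^ (A + 1) ≤ 2 ^ (u - t) := by
      have h4 := pow_le_two (A + 1) t i
      have h5 : ((l + 1) ^ (A + 1) : ℝ) ≤ 2 ^ (stN (A + 1) t i - t) := by
        rw [hl]; exact_mod_cast h4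
      exact h5.trans (pow_le_pow_right₀ (by norm_num) (by omega))
    exact (mul_le_mul_of_nonneg_right h3 (g.pos t).le).trans h2
  have hE := g.pos t
  have h6 : slN Cb E m2 (t - 1) ≤ 2 * C * Cb * C * E t := g.sl_le hCb m2 (Nat.sub_le t 1)
  have h7 : l ^ A ≤ (l + 1) ^ A := pow_le_pow_left₀ hl0 (by linarith) A
  have h8 : (1 : ℝ) ≤ (l + 1) ^ A := one_le_pow₀ (by linarith)
  have hC := g.one
  have hCC : 0 ≤ 2 * C * Cb * C := by positivity
  have h9 : beN η A Cb E m2 L t i ≤ (η + 2 * C * Cb * C + 1) * ((l + 1) ^ A * E t) := by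
    unfold beN thN
    rw [← hl]
    have a1 : η * l ^ A * E t ≤ η * ((l + 1) ^ A * E t) := by
      rw [mul_assoc]
      exact mul_le_mul_of_nonneg_left (mul_le_mul_of_nonneg_right h7 hE.le) hη
    have a2 : E t ≤ (l + 1) ^ A * E t := le_mul_of_one_le_left hE.le h8
    have a3 : 2 * C * Cb * C * E t ≤ 2 * C * Cb * C * ((l + 1) ^ A * E t) := mul_le_mul_of_nonneg_left a2 hCC
    nlinarith
  have h10 : (l + 1) * beN η A Cb E m2 L t i ≤ (l + 1) * (ε0 * E u) := by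
    calc (l + 1) * beN η A Cb E m2 L t i ≤ (l + 1) * ((η + 2 * C * Cb * C + 1) * ((l + 1) ^ A * E t)) :=
          mul_le_mul_of_nonneg_left h9 (by linarith)
      _ = (η + 2 * C * Cb * C + 1) * ((l + 1) ^ (A + 1) * E t) := by ring
      _ ≤ (η + 2 * C * Cb * C + 1) * (C * E u) := mul_le_mul_of_nonneg_left h1 (by linarith)
      _ = (η + 2 * C * Cb * C + 1) * C * E u := by ring
      _ ≤ ε0 * (l + 1) * E u := mul_le_mul_of_nonneg_right hm (g.pos u).le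
      _ = _ := by ring
  exact le_of_mul_le_mul_left h10 (by linarith)

/-- The next distance has a much higher threshold. -/
theorem Gr.th_succ {E : ℕ → ℝ} {κ C : ℝ} (g : Gr E κ C) {η : ℝ} (hη : 0 ≤ η) {A : ℕ} (hA : 1 ≤ A) {t i : ℕ} (h : t ≤ i) :
    η * E t ≤ thN η A E t (i + 1) - thN η A E t i := by
  unfold thN
  have e : ((i + 1 - t : ℕ) : ℝ) = ((i - t : ℕ) : ℝ) + 1 := by
    rw [show i + 1 - t = (i - t) + 1 by omega]; push_cast; ring
  rw [e]
  set l : ℝ := ((i - t : ℕ) : ℝ)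
  have hl0 : 0 ≤ l := Nat.cast_nonneg _
  obtain ⟨B, rfl⟩ : ∃ B, A = B + 1 := ⟨A - 1, by omega⟩
  have h1 : l ^ (B + 1) + 1 ≤ (l + 1) ^ (B + 1) := by
    have a1 : l ^ B ≤ (l + 1) ^ B := pow_le_pow_left₀ hl0 (by linarith) B
    have a2 : (1 : ℝ) ≤ (l + 1) ^ B := one_le_pow₀ (by linarith)
    calc l ^ (B + 1) + 1 = l ^ B * l + 1 := by ring
      _ ≤ (l + 1) ^ B * l + (l + 1) ^ B := by nlinarith
      _ = _ := by ring
  have h2 : 0 ≤ η * E t := mul_nonneg hη (g.pos t).le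
  nlinarith

/-- All numbers of `MoveQ`. -/
structure NumOK (E : ℕ → ℝ) (η : ℝ) (A : ℕ) (Cb ε0 L : ℝ) (m0 m2 τ0 M cX C4 : ℕ) (θ : ℝ≥0∞) : Prop where
  st_pow : ∀ t i, θ ^ (2 * (stN (A + 1) t i - t)) ≤ 2 ^ (2 * (A + 1)) * ((i - t : ℕ) + 1) ^ (2 * (A + 1))
  st_ge : ∀ t i, t ≤ stN (A + 1) t i
  st_lt : ∀ t i, t + m0 ≤ i → stN (A + 1) t i < i
  sl_mono : Monotone (slN Cb E m2)
  b_nonneg : ∀ v, 0 ≤ bN Cb E v
  slack : ∀ t i j, τ0 < t → t + m0 ≤ i → i ≤ j →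
    slN Cb E m2 (t - 1) + ∑ v ∈ Ico (stN (A + 1) t i) i, bN Cb E v ≤ slN Cb E m2 (j + m2)
  be_le : ∀ t i, τ0 < t → t + m0 ≤ i → ∀ u, stN (A + 1) t i ≤ u → beN η A Cb E m2 L t i ≤ ε0 * E u
  L_le : ∀ u, τ0 ≤ u → L ≤ ε0 * E u
  L_nonneg : 0 ≤ L
  num : θ ^ M * ∑ t ∈ Ioc τ0 M, ∑ i ∈ Icc (t + m0) M, (cX * ex (-beN η A Cb E m2 L t i) +
    cX * ex (-beN η A Cb E m2 L t i) * ex (thN η A E t i + slN Cb E m2 (t - 1)) + ex (-L) + ex (-L)) ≤ 1
  rel : ∀ t i, τ0 < t → t + m0 ≤ i → (1 + cX * C4) * ex (-(thN η A E t (i + 1) - thN η A E t i)) ≤ ex (-L)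

theorem exists_log_le (K : ℝ) {e : ℝ} (he : 0 < e) : ∃ n0 : ℕ, ∀ n : ℕ, n0 ≤ n → K * Real.log n ≤ (n : ℝ) ^ e := by
  have h1 : Filter.Tendsto (fun x : ℝ => Real.log x / x ^ e) Filter.atTop (nhds 0) :=
    (isLittleO_log_rpow_atTop he).tendsto_div_nhds_zero
  have h2 := (h1.const_mul K).comp tendsto_natCast_atTop_atTop
  rw [mul_zero] at h2
  obtain ⟨N, hN⟩ := Filter.eventually_atTop.1 (h2.eventually (gt_mem_nhds (show (0 : ℝ) < 1 by norm_num)))
  refine ⟨max N 1, fun n hn => ?_⟩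
  have h3 := hN n ((le_max_left _ _).trans hn)
  have hn1 : 1 ≤ n := (le_max_right _ _).trans hn
  have h4 : (0 : ℝ) < (n : ℝ) ^ e := Real.rpow_pos_of_pos (by exact_mod_cast hn1) e
  simp only [Function.comp] at h3
  rw [mul_div_assoc', div_lt_one h4] at h3
  exact h3.le

/-- THE NUMBERS. -/
theorem exists_num {A : ℕ} (hA : 1 ≤ A) {η Cb ε0 C CM e1 : ℝ} (hη : 0 < η) (hCb : 0 ≤ Cb) (hε : 0 < ε0) (hC : 1 ≤ C)
    (hCM : 0 ≤ CM) (he : 0 < e1) (ax C4 : ℕ) : ∃ m00 n0 : ℕ, ∀ n : ℕ, n0 ≤ n → ∀ (m0 m2 τ0 M cX : ℕ) (E : ℕ → ℝ)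
      (κ : ℝ) (θ : ℝ≥0∞), m00 ≤ m0 → Gr E κ C → (M : ℝ) ≤ CM * Real.log n → cX ≤ n ^ ax → (n : ℝ) ^ e1 ≤ E τ0 →
      θ ≤ 2 → NumOK E η A Cb ε0 ((CM + ax + 5) * Real.log n) m0 m2 τ0 M cX C4 θ := by
  obtain ⟨m1, hm1⟩ := exists_log (A + 1)
  obtain ⟨m3, hm3⟩ := exists_nat_ge ((η + 2 * C * Cb * C + 1) * C / ε0)
  set B : ℝ := CM + ax + 5 with hB
  have hB0 : 0 < B := by positivity
  obtain ⟨n1, hn1⟩ := exists_log_le (C * B) he
  obtain ⟨n2, hn2⟩ := exists_log_le (C / ε0 * B) he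
  obtain ⟨n3, hn3⟩ := exists_log_le (C / η * (ax + C4 + B)) he
  obtain ⟨n4, hn4⟩ := exists_log_le CM (show (0 : ℝ) < 1 by norm_num)
  refine ⟨max m1 m3, max (max n1 n2) (max (max n3 n4) 2), fun n hn m0 m2 τ0 M cX E κ θ hm0 g hM hcX hE hθ => ?_⟩
  have a1 := hn1 n (by omega)
  have a2 := hn2 n (by omega)
  have a3 := hn3 n (by omega)
  have a4 := hn4 n (by omega)
  have an : 2 ≤ n := by omega
  rw [Real.rpow_one] at a4
  have nr : (2 : ℝ) ≤ n := by exact_mod_cast an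
  have hlog : 0 ≤ Real.log n := Real.log_nonneg (by linarith)
  set L := B * Real.log n with hL
  have hL0 : 0 ≤ L := mul_nonneg hB0.le hlog
  have hE' : ∀ u, τ0 ≤ u → (n : ℝ) ^ e1 ≤ C * E u := fun u hu => hE.trans (g.le hu)
  have hC0 : 0 < C := by linarith
  have hLE : ∀ u, τ0 ≤ u → L ≤ E u := fun u hu => by
    have h1 : C * L ≤ C * E u := by
      calc C * L = C * B * Real.log n := by rw [hL]; ring
        _ ≤ _ := a1
        _ ≤ _ := hE' u hu
    exact le_of_mul_le_mul_left h1 hC0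
  have hsl0 := g.sl_nonneg hCb m2
  have hth0 : ∀ t k, 0 ≤ thN η A E t k := fun t k =>
    mul_nonneg (mul_nonneg hη.le (by positivity)) (g.pos t).le
  refine ⟨fun t i => by exact_mod_cast st_pow (A + 1) t i hθ, fun t i => st_ge _ _ _, fun t i h => ?_, g.sl_mono hCb m2,
    g.b_nonneg hCb, fun t i j h1 h2 h3 => g.slack hCb m2 (st_ge _ _ _) (by omega) (by omega),
    fun t i h1 h2 u hu => ?_, fun u hu => ?_, hL0, ?_, fun t i h1 h2 => ?_⟩
  · have h1 := hm1 (i - t) (by omega)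
    unfold stN
    omega
  · refine g.be_le hη.le hCb A m2 (hLE t h1.le) ?_ hu
    rw [div_le_iff₀ hε] at hm3
    have h3 : (m3 : ℝ) ≤ ((i - t : ℕ) : ℝ) := by exact_mod_cast (by omega : m3 ≤ i - t)
    nlinarith
  · have h1 : C * L ≤ C * (ε0 * E u) := by
      have h2 : C * L = ε0 * (C / ε0 * B * Real.log n) := by
        rw [hL]; field_simp
      rw [h2]
      calc ε0 * (C / ε0 * B * Real.log n) ≤ ε0 * (C * E u) := mul_le_mul_of_nonneg_left (a2.trans (hE' u hu)) hε.le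
        _ = _ := by ring
    exact le_of_mul_le_mul_left h1 hC0
  · -- the sum
    have hterm : ∀ t i, (cX * ex (-beN η A Cb E m2 L t i) +
        cX * ex (-beN η A Cb E m2 L t i) * ex (thN η A E t i + slN Cb E m2 (t - 1)) + ex (-L) + ex (-L) : ℝ≥0∞) ≤
        (2 * cX + 2 : ℕ) * ex (-L) := by
      intro t i
      have h1 : ex (-beN η A Cb E m2 L t i) ≤ ex (-L) := ex_mono (by
        unfold beN; linarith [hth0 t i, hsl0 (t - 1)])
      have h2 : ex (-beN η A Cb E m2 L t i) * ex (thN η A E t i + slN Cb E m2 (t - 1)) = ex (-L) := by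
        rw [← ex_add]; congr 1; unfold beN; ring
      calc _ ≤ cX * ex (-L) + cX * ex (-L) + ex (-L) + ex (-L) := by
            rw [mul_assoc, h2]
            gcongr
        _ = _ := by push_cast; ring
    have hsum : ∑ t ∈ Ioc τ0 M, ∑ i ∈ Icc (t + m0) M, (cX * ex (-beN η A Cb E m2 L t i) +
        cX * ex (-beN η A Cb E m2 L t i) * ex (thN η A E t i + slN Cb E m2 (t - 1)) + ex (-L) + ex (-L) : ℝ≥0∞) ≤
        (M * (M + 1) : ℕ) * ((2 * cX + 2 : ℕ) * ex (-L)) := by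
      calc _ ≤ ∑ _t ∈ Ioc τ0 M, ((M + 1 : ℕ) : ℝ≥0∞) * ((2 * cX + 2 : ℕ) * ex (-L)) := by
            refine sum_le_sum fun t _ => ?_
            calc _ ≤ ∑ _i ∈ Icc (t + m0) M, ((2 * cX + 2 : ℕ) : ℝ≥0∞) * ex (-L) := sum_le_sum fun i _ => hterm t i
              _ = ((Icc (t + m0) M).card : ℝ≥0∞) * ((2 * cX + 2 : ℕ) * ex (-L)) := by rw [sum_const, nsmul_eq_mul]
              _ ≤ _ := by
                refine mul_le_mul' ?_ le_rfl
                have : (Icc (t + m0) M).card ≤ M + 1 := by rw [Nat.card_Icc]; omega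
                exact_mod_cast this
        _ = ((Ioc τ0 M).card : ℝ≥0∞) * (((M + 1 : ℕ) : ℝ≥0∞) * ((2 * cX + 2 : ℕ) * ex (-L))) := by
            rw [sum_const, nsmul_eq_mul]
        _ ≤ (M : ℝ≥0∞) * (((M + 1 : ℕ) : ℝ≥0∞) * ((2 * cX + 2 : ℕ) * ex (-L))) := by
            refine mul_le_mul' ?_ le_rfl
            have : (Ioc τ0 M).card ≤ M := by rw [Nat.card_Ioc]; omega
            exact_mod_cast this
        _ = _ := by push_cast; ring
    have hreal : (2 : ℝ) ^ M * ((M * (M + 1) : ℕ) * (2 * cX + 2 : ℕ)) * Real.exp (-L) ≤ 1 := by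
      have b1 : (2 : ℝ) ^ M ≤ Real.exp (CM * Real.log n) := by
        have c1 : (2 : ℝ) = Real.exp (Real.log 2) := (Real.exp_log (by norm_num)).symm
        rw [c1, ← Real.exp_nat_mul]
        refine Real.exp_le_exp.2 ?_
        have c2 : Real.log 2 ≤ 1 := by
          have := Real.log_two_lt_d9
          linarith
        have c3 : (0 : ℝ) ≤ M := Nat.cast_nonneg _
        nlinarith [Real.log_pos (show (1 : ℝ) < 2 by norm_num)]
      have en : Real.exp (Real.log n) = n := Real.exp_log (by linarith)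
      have hMn : (M : ℝ) ≤ n := hM.trans a4
      have b2 : ((M * (M + 1) : ℕ) : ℝ) ≤ 2 * (n : ℝ) ^ 2 := by
        push_cast
        have : (0 : ℝ) ≤ M := Nat.cast_nonneg _
        nlinarith
      have b3 : ((2 * cX + 2 : ℕ) : ℝ) ≤ 4 * (n : ℝ) ^ ax := by
        have c1 : 1 ≤ n ^ ax := Nat.one_le_pow _ _ (by omega)
        have c2 : 2 * cX + 2 ≤ 4 * n ^ ax := by omega
        exact_mod_cast c2
      have b4 : (2 : ℝ) * (n : ℝ) ^ 2 * (4 * (n : ℝ) ^ ax) ≤ Real.exp ((ax + 4 + 1) * Real.log n) := by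
        have c1 : Real.exp ((ax + 4 + 1) * Real.log n) = (n : ℝ) ^ (ax + 4 + 1) := by
          rw [← Real.rpow_natCast, Real.rpow_def_of_pos (by linarith)]
          push_cast
          ring_nf
        rw [c1, pow_succ, pow_add]
        have c2 : (8 : ℝ) ≤ n ^ 3 := by
          calc (8 : ℝ) = 2 ^ 3 := by norm_num
            _ ≤ _ := pow_le_pow_left₀ (by norm_num) nr 3
        have c3 : (0 : ℝ) ≤ n ^ ax := by positivity
        have c4 : (0 : ℝ) ≤ (n : ℝ) ^ 2 * n ^ ax := by positivity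
        calc (2 : ℝ) * (n : ℝ) ^ 2 * (4 * (n : ℝ) ^ ax) = 8 * ((n : ℝ) ^ 2 * n ^ ax) := by ring
          _ ≤ n ^ 3 * ((n : ℝ) ^ 2 * n ^ ax) := mul_le_mul_of_nonneg_right c2 c4
          _ = _ := by ring
      calc (2 : ℝ) ^ M * ((M * (M + 1) : ℕ) * (2 * cX + 2 : ℕ)) * Real.exp (-L)
          ≤ Real.exp (CM * Real.log n) * Real.exp ((ax + 4 + 1) * Real.log n) * Real.exp (-L) := by
            refine mul_le_mul_of_nonneg_right ?_ (Real.exp_pos _).le
            refine mul_le_mul b1 ?_ (by positivity) (Real.exp_pos _).le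
            exact (mul_le_mul b2 b3 (by positivity) (by positivity)).trans b4
        _ = Real.exp 0 := by
            rw [← Real.exp_add, ← Real.exp_add]
            congr 1
            rw [hL, hB]; ring
        _ = 1 := Real.exp_zero
    have hex : ex (-L) = ENNReal.ofReal (Real.exp (-L)) := rfl
    calc θ ^ M * _ ≤ 2 ^ M * ((M * (M + 1) : ℕ) * ((2 * cX + 2 : ℕ) * ex (-L))) :=
          mul_le_mul' (pow_le_pow_left₀ (by positivity) hθ M) hsum
      _ = ENNReal.ofReal ((2 : ℝ) ^ M * ((M * (M + 1) : ℕ) * (2 * cX + 2 : ℕ)) * Real.exp (-L)) := by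
          rw [hex, ENNReal.ofReal_mul (by positivity), ENNReal.ofReal_mul (by positivity),
            ENNReal.ofReal_mul (by positivity), ENNReal.ofReal_pow (by norm_num), ENNReal.ofReal_natCast,
            ENNReal.ofReal_natCast, ENNReal.ofReal_ofNat]
          ring
      _ ≤ ENNReal.ofReal 1 := ENNReal.ofReal_le_ofReal hreal
      _ = 1 := ENNReal.ofReal_one
  · have b1 := g.th_succ hη.le hA (show t ≤ i by omega)
    have b2 : (ax + C4 + B) * Real.log n ≤ η * E t := by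
      have c1 := a3.trans (hE' t h1.le)
      have c2 : C / η * (ax + C4 + B) * Real.log n = C / η * ((ax + C4 + B) * Real.log n) := by ring
      rw [c2] at c1
      have c3 : C * ((ax + C4 + B) * Real.log n) ≤ C * (η * E t) := by
        have c4 : C * ((ax + C4 + B) * Real.log n) = η * (C / η * ((ax + C4 + B) * Real.log n)) := by field_simp
        rw [c4]
        calc _ ≤ η * (C * E t) := mul_le_mul_of_nonneg_left c1 hη.le
          _ = _ := by ring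
      exact le_of_mul_le_mul_left c3 hC0
    have b3 : ((1 + cX * C4 : ℕ) : ℝ) ≤ Real.exp ((ax + C4) * Real.log n) := by
      have c1 : Real.exp ((ax + C4) * Real.log n) = (n : ℝ) ^ (ax + C4) := by
        rw [← Real.rpow_natCast, Real.rpow_def_of_pos (by linarith)]
        push_cast
        ring_nf
      rw [c1]
      have c2 : 1 + cX * C4 ≤ n ^ (ax + C4) := by
        have d1 : 1 ≤ n ^ ax := Nat.one_le_pow _ _ (by omega)
        have d2 : C4 < 2 ^ C4 := Nat.lt_two_pow_self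
        have d3 : 2 ^ C4 ≤ n ^ C4 := Nat.pow_le_pow_left an C4
        calc 1 + cX * C4 ≤ n ^ ax * 1 + n ^ ax * C4 := by
              refine Nat.add_le_add (by omega) (Nat.mul_le_mul_right _ hcX)
          _ = n ^ ax * (1 + C4) := by ring
          _ ≤ n ^ ax * n ^ C4 := Nat.mul_le_mul_left _ (by omega)
          _ = _ := (pow_add _ _ _).symm
      exact_mod_cast c2
    have b4 : ((1 + cX * C4 : ℕ) : ℝ≥0∞) ≤ ex ((ax + C4) * Real.log n) := by
      have : ((1 + cX * C4 : ℕ) : ℝ≥0∞) = ENNReal.ofReal ((1 + cX * C4 : ℕ) : ℝ) := (ENNReal.ofReal_natCast _).symm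
      rw [this]
      exact ENNReal.ofReal_le_ofReal b3
    calc (1 + cX * C4 : ℝ≥0∞) * ex (-(thN η A E t (i + 1) - thN η A E t i))
        = ((1 + cX * C4 : ℕ) : ℝ≥0∞) * ex (-(thN η A E t (i + 1) - thN η A E t i)) := by push_cast; ring
      _ ≤ ex ((ax + C4) * Real.log n) * ex (-((ax + C4 + B) * Real.log n)) :=
          mul_le_mul' b4 (ex_mono (by linarith))
      _ = ex (-L) := by
          rw [← ex_add]; congr 1; rw [hL]; ring

end Pool.Agent.W_7d29a1_C1.N49
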