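import Pool.Agent.W_7d29a1_C1.SepF98
import Pool.Agent.W_7d29a1_C1.NumS49

/-!
Both halves (MP_7d29a1_pr), attractor route [C1], SEP: THE NUMBER FIELDS OF `In98` (SepF98) from `NumS49`. (helper49)
-/

set_option autoImplicit false

namespace Pool.Agent.W_7d29a1_C1.N49

open Finset
open Pool.Agent.W_7d29a1_C1.H60
open Pool.Agent.W_7d29a1_C1.G37 (Gm)
open Pool.Agent.W_7d29a1_C1.H49 (ex)
open Pool.Agent.W_7d29a1_C1.SF98 (XS FS p98)
open scoped ENNReal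

/-- The price per scale. -/
noncomputable def thq (c : ℝ) (q : ℕ) : ℝ := (1 + c) ^ ((1 : ℝ) / (2 * q))

/-- The price per scale, `1 + c1q = thq ^ 2`. -/
noncomputable def c1q (c : ℝ) (q : ℕ) : ℝ≥0∞ := ENNReal.ofReal (thq c q ^ 2 - 1)

theorem thq_spec {c : ℝ} (hc : 0 < c) (hc1 : c ≤ 1) {q : ℕ} (hq : q ≠ 0) :
    1 < thq c q ∧ thq c q ≤ 2 ∧ (1 + c1q c q) ^ q = 1 + ENNReal.ofReal c ∧ 1 + c1q c q = ENNReal.ofReal (thq c q) ^ 2 := by
  have h1 : (1 : ℝ) < 1 + c := by linarith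
  have h0 : (0 : ℝ) ≤ 1 + c := by linarith
  unfold c1q
  set θ : ℝ := thq c q with hθ
  unfold thq at hθ
  have hq0 : (0 : ℝ) < 2 * q := by positivity
  have h2 : 1 < θ := by rw [hθ]; exact Real.one_lt_rpow h1 (by positivity)
  have hpow : (θ ^ 2) ^ q = 1 + c := by
    rw [← pow_mul, hθ, ← Real.rpow_natCast, ← Real.rpow_mul h0]
    push_cast
    rw [div_mul_cancel₀ _ hq0.ne', Real.rpow_one]
  have hθ2 : θ ^ 2 ≤ 2 := by
    by_contra h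
    push Not at h
    have h3 : (2 : ℝ) ≤ (θ ^ 2) ^ q := by
      calc (2 : ℝ) ≤ θ ^ 2 := h.le
        _ = (θ ^ 2) ^ 1 := (pow_one _).symm
        _ ≤ _ := pow_le_pow_right₀ (by linarith) (Nat.one_le_iff_ne_zero.2 hq)
    rw [hpow] at h3
    have hq1 : (1 : ℕ) ≤ q := Nat.one_le_iff_ne_zero.2 hq
    have h4 : 2 < (θ ^ 2) ^ q := by
      calc (2 : ℝ) < θ ^ 2 := h
        _ = (θ ^ 2) ^ 1 := (pow_one _).symm
        _ ≤ _ := pow_le_pow_right₀ (by linarith) hq1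
    rw [hpow] at h4
    linarith
  refine ⟨h2, by nlinarith, ?_, ?_⟩
  · have e : 1 + ENNReal.ofReal (θ ^ 2 - 1) = ENNReal.ofReal (θ ^ 2) := by
      rw [← ENNReal.ofReal_one, ← ENNReal.ofReal_add zero_le_one (by nlinarith)]
      congr 1; ring
    rw [e, ← ENNReal.ofReal_pow (by positivity), hpow, ENNReal.ofReal_add zero_le_one hc.le, ENNReal.ofReal_one]
  · rw [← ENNReal.ofReal_pow (by linarith), ← ENNReal.ofReal_one, ← ENNReal.ofReal_add zero_le_one (by nlinarith)]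
    congr 1; ring

/-- The classes cost a small part of the energy. -/
theorem Gr.cls_small {E : ℕ → ℝ} {κ C : ℝ} (g : Gr E κ C) {Cd : ℝ} (h : 0 ≤ Cd) {q u : ℕ} :
    2 ^ q * ∑ v ∈ (range (u + 1)).filter (fun v => v + q ≤ u), bN Cd E v ≤ 2 * C * Cd * C * E u := by
  have hC := g.one
  have hE := g.pos u
  by_cases hq : q ≤ u
  · have e : (range (u + 1)).filter (fun v => v + q ≤ u) = range (u - q + 1) := by
      ext v; rw [mem_filter, mem_range, mem_range]; omega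
    rw [e]
    have h1 := g.sum_le h (u - q)
    have h2 := g.two_pow (v := u - q) (u := u) (by omega)
    rw [show u - (u - q) = q by omega] at h2
    have h3 : (0 : ℝ) ≤ 2 ^ q := by positivity
    have hCC : (0 : ℝ) ≤ 2 * C * Cd := by positivity
    calc 2 ^ q * ∑ v ∈ range (u - q + 1), bN Cd E v ≤ 2 ^ q * (2 * C * Cd * E (u - q)) := mul_le_mul_of_nonneg_left h1 h3
      _ = 2 * C * Cd * (2 ^ q * E (u - q)) := by ring
      _ ≤ 2 * C * Cd * (C * E u) := mul_le_mul_of_nonneg_left h2 hCC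
      _ = _ := by ring
  · have e : (range (u + 1)).filter (fun v => v + q ≤ u) = ∅ := by
      ext v; rw [mem_filter, mem_range]; simp; omega
    rw [e, sum_empty, mul_zero]
    positivity

/-- THE FIELD `smax_ge`, `smax u = E u / 16`. -/
theorem Gr.smax_ge {E : ℕ → ℝ} {κ C : ℝ} (g : Gr E κ C) {Cb Cd : ℝ} (hb : 0 ≤ Cb) (hd : 0 ≤ Cd) {q m2 : ℕ}
    (hq : 128 * C * C * Cd ≤ 2 ^ q) (hm : 64 * C * C * Cb ≤ 2 ^ m2) (u : ℕ) :
    slN Cb E m2 (u - 1) + 2 * ∑ v ∈ (range (u + 1)).filter (fun v => v + q ≤ u), bN Cd E v ≤ E u / 16 := by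
  have hC := g.one
  have hE := g.pos u
  have h1 := g.sl_small hb m2 (Nat.sub_le u 1)
  have h2 := g.cls_small hd (q := q) (u := u)
  have h3 := g.sl_nonneg hb m2 (u - 1)
  have h4 : slN Cb E m2 (u - 1) ≤ E u / 32 := by
    have a1 : (0 : ℝ) < 2 ^ (m2 + (u - (u - 1))) := by positivity
    have a2 : (2 : ℝ) ^ m2 ≤ 2 ^ (m2 + (u - (u - 1))) := pow_le_pow_right₀ (by norm_num) (by omega)
    have a3 : 64 * C * C * Cb ≤ 2 ^ (m2 + (u - (u - 1))) := hm.trans a2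
    by_contra h
    push Not at h
    have a4 : 2 ^ (m2 + (u - (u - 1))) * (E u / 32) < 2 ^ (m2 + (u - (u - 1))) * slN Cb E m2 (u - 1) :=
      mul_lt_mul_of_pos_left h a1
    have a5 : 64 * C * C * Cb * (E u / 32) ≤ 2 ^ (m2 + (u - (u - 1))) * (E u / 32) :=
      mul_le_mul_of_nonneg_right a3 (by positivity)
    nlinarith
  have h5 : ∑ v ∈ (range (u + 1)).filter (fun v => v + q ≤ u), bN Cd E v ≤ E u / 64 := by
    have a1 : (0 : ℝ) < 2 ^ q := by positivity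
    by_contra h
    push Not at h
    have a4 : 2 ^ q * (E u / 64) < 2 ^ q * ∑ v ∈ (range (u + 1)).filter (fun v => v + q ≤ u), bN Cd E v :=
      mul_lt_mul_of_pos_left h a1
    have a5 : 128 * C * C * Cd * (E u / 64) ≤ 2 ^ q * (E u / 64) := mul_le_mul_of_nonneg_right hq (by positivity)
    nlinarith
  linarith

/-- THE NUMBER FIELDS OF `In98`. -/
structure Num98 (Γ : Cx) (G : Gm) (mt : ℕ) (d sl smax : ℕ → ℝ) (th be : ℕ → ℕ → ℝ) (b : ℕ → ℝ)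
    (st : ℕ → ℕ → ℕ) (κ3 θ : ℝ≥0∞) (τ0 q n1 : ℕ) (c c1 C4 Ast δ3 : ℝ≥0∞) : Prop where
  sl_mono : Monotone sl
  d_nonneg : ∀ v, 0 ≤ d v
  smax_ge : ∀ u, sl (u - 1) + 2 * ∑ v ∈ (range (u + 1)).filter (fun v => v + q ≤ u), d v ≤ smax u
  b_nonneg : ∀ v, 0 ≤ b v
  one_le : 1 ≤ θ
  θ_top : θ ≠ ⊤
  q_ne : q ≠ 0
  c_pow : (1 + c1) ^ q = 1 + c
  c_eq : 1 + c1 = θ ^ 2
  st_pow : ∀ t i, (p98 Γ G mt th sl be b st κ3 θ).rg τ0 t i → θ ^ (2 * (st t i - t)) ≤ Ast * ((i - t : ℕ) + 1) ^ n1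
  st_ge : ∀ t i, (p98 Γ G mt th sl be b st κ3 θ).rg τ0 t i → t ≤ st t i
  st_lt : ∀ t i, (p98 Γ G mt th sl be b st κ3 θ).rg τ0 t i → st t i < i
  slack : ∀ t i j, (p98 Γ G mt th sl be b st κ3 θ).rg τ0 t i → i ≤ j → j ≤ G.M →
    sl (t - 1) + ∑ v ∈ Ico (st t i) i, b v ≤ sl (j + G.m2)
  num : θ ^ G.M * ∑ t ∈ Ioc τ0 G.M, ∑ i ∈ Icc (t + G.m0) G.M, (Fintype.card (XS Γ G mt) * ex (-be t i) +
    Fintype.card (XS Γ G mt) * ex (-be t i) * ex (th t i + sl (t - 1)) + κ3 + δ3) ≤ 1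
  num4 : ∀ t i, (p98 Γ G mt th sl be b st κ3 θ).rg τ0 t i →
    (1 + Fintype.card (XS Γ G mt) * C4) * ex (-(th t (i + 1) - th t i)) ≤ δ3
  be_le : ∀ t i, (p98 Γ G mt th sl be b st κ3 θ).rg τ0 t i → ∀ u, st t i ≤ u → be t i ≤ smax u

/-- The choice. -/
theorem num98 {E : ℕ → ℝ} {κ C : ℝ} (g : Gr E κ C) {η Cb Cd L : ℝ} {A C4 : ℕ} {ε0 : ℝ} {Γ : Cx} {G : Gm} {mt τ0 q : ℕ}
    {θ : ℝ} {c : ℝ} {c1 : ℝ≥0∞} (hb : 0 ≤ Cb) (hd : 0 ≤ Cd) (hq0 : q ≠ 0) (hq : 128 * C * C * Cd ≤ 2 ^ q)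
    (hm : 64 * C * C * Cb ≤ 2 ^ G.m2) (hθ : 1 < θ) (hcp : (1 + c1) ^ q = 1 + ENNReal.ofReal c)
    (hce : 1 + c1 = ENNReal.ofReal θ ^ 2) (hε : ε0 ≤ 1 / 16)
    (N : NumOK E η A Cb ε0 L G.m0 G.m2 τ0 G.M (Fintype.card (XS Γ G mt)) C4 (ENNReal.ofReal θ)) :
    Num98 Γ G mt (bN Cd E) (slN Cb E G.m2) (fun u => E u / 16) (thN η A E) (beN η A Cb E G.m2 L) (bN Cb E) (stN (A + 1))
      (ex (-L)) (ENNReal.ofReal θ) τ0 q (2 * (A + 1)) (ENNReal.ofReal c) c1 C4 (2 ^ (2 * (A + 1))) (ex (-L)) where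
  sl_mono := N.sl_mono
  d_nonneg := g.b_nonneg hd
  smax_ge := g.smax_ge hb hd hq hm
  b_nonneg := N.b_nonneg
  one_le := by
    rw [← ENNReal.ofReal_one]
    exact ENNReal.ofReal_le_ofReal hθ.le
  θ_top := ENNReal.ofReal_ne_top
  q_ne := hq0
  c_pow := hcp
  c_eq := hce
  st_pow := fun t i _ => N.st_pow t i
  st_ge := fun t i _ => N.st_ge t i
  st_lt := fun t i h => N.st_lt t i h.2.1
  slack := fun t i j h h1 _ => N.slack t i j h.1 h.2.1 h1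
  num := N.num
  num4 := fun t i h => N.rel t i h.1 h.2.1
  be_le := fun t i h u hu => (N.be_le t i h.1 h.2.1 u hu).trans (by
    have := g.pos u
    nlinarith)

end Pool.Agent.W_7d29a1_C1.N49
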