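import Pool.Agent.W_7d29a1_C1.ShlC8
import Pool.Agent.W_7d29a1_C1.NuM77
import Pool.Agent.W_7d29a1_C1.SepN49
import Pool.Agent.W_7d29a1_C1.GeoN37

/-!
MP_7d29a1_pr, attractor route [C1], SIDE N OF ShlC8: THE TWO LEAVES OF `NuS8` (helper51).

`SC51`: the constants of the separation which the field `nu` sees. `Sep51`: the output of SEP and of the potential for one context,
`SepQ51`: with the order of the constants. `Gd51`: a scale is good for a contact. `TdQ51`: tameness and determinism, with the order of the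
constants. `sep51_of`: `Sep51` from the conclusions of `sep25` and `potW86`.
-/

set_option autoImplicit false

namespace Pool.Agent.W_7d29a1_C1.Nu51

open MeasureTheory Finset Filter Topology
open Pool.Agent.W_7d29a1_F Pool.Agent.W_7d29a1_h4g Pool.Agent.W_7d29a1_H Pool.Agent.W_7d29a1_HS
open Pool.Agent.W_7d29a1_C1.T10 (Gd Tg GW)
open Pool.Agent.W_7d29a1_C1.H60
open Pool.Agent.W_7d29a1_C1.H40 (Tk)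
open Pool.Agent.W_7d29a1_C1.H49 (cnt ex em)
open Pool.Agent.W_7d29a1_C1.G37 (Gm Wok gmW)
open Pool.Agent.W_7d29a1_C1.N49 (thN slN)
open Pool.Agent.W_7d29a1_C1.SF98 (XS FS wS up p98)
open Pool.Agent.W_7d29a1_C1.H77 (fS77)
open Pool.Agent.W_7d29a1_C1.H8
open Pool.Agent.W_7d29a1_C1.D31 (NV31)
open scoped ENNReal

noncomputable section

variable {μ : Measure ℝ}

/-- **The constants of the separation** which the field `nu` sees. `M + J` = the last scale of the windows (`mt`), `δ` = the fraction of the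
covered scales, `θ` = the rate. -/
structure SC51 where
  K : ℕ
  m0 : ℕ
  g1 : ℕ
  m2 : ℕ
  J : ℕ
  A : ℕ
  τ₀ : ℕ
  kw : ℝ
  kn : ℝ
  kb : ℝ
  η : ℝ
  Cb : ℝ
  θ : ℝ
  δ : ℝ
  hkw : 0 ≤ kw
  hkn : 0 ≤ kn
  hkb : 1 ≤ kb
  h1 : 1 ≤ g1
  h2 : 3 ≤ m2
  hm : 1 ≤ m0
  hη : 0 < η
  hCb : 0 ≤ Cb
  hA : 1 ≤ A
  hθ : 1 < θ

namespace SC51

variable (k : SC51)

/-- The geometry of the separation. -/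
def G {s : ℝ} {T0 : ℕ} (hW : Wok μ s T0 k.K) (M : ℕ) : Gm :=
  gmW hW M k.m0 k.g1 k.m2 k.kw k.kn k.kb (k.kn + 2 * k.kb) k.hkw k.hkn k.hkb le_rfl k.h1 k.h2

/-- The energies. -/
def E (μ : Measure ℝ) (s : ℝ) (T0 u : ℕ) : ℝ := EE μ s (Tk T0 k.K u)

/-- The thresholds. -/
def th (μ : Measure ℝ) (s : ℝ) (T0 : ℕ) : ℕ → ℕ → ℝ := thN k.η k.A (k.E μ s T0)

/-- The slack. -/
def sl (μ : Measure ℝ) (s : ℝ) (T0 : ℕ) : ℕ → ℝ := slN k.Cb (k.E μ s T0) k.m2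

/-- The same constants with `m0` larger by `m`. -/
def up (m : ℕ) : SC51 := { k with m0 := k.m0 + m, hm := k.hm.trans (Nat.le_add_right _ _) }

theorem up_m0 (m : ℕ) : (k.up m).m0 = k.m0 + m := rfl

theorem up_K (m : ℕ) : (k.up m).K = k.K := rfl

end SC51

/-! ### The first leaf: SEP and the potential -/

/-- **THE SEPARATION OF ONE CONTEXT**: off a rare event the weight of the contacts with `a ≤ δ M + 1` covered scales is small. -/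
def Sep51 (μ : Measure ℝ) (s : ℝ) (k : SC51) (n : ℕ) {T0 : ℕ} (hW : Wok μ s T0 k.K) (M : ℕ) (Γ : Cx) : Prop :=
  ∃ (be : ℕ → ℕ → ℝ) (bb : ℕ → ℝ) (st : ℕ → ℕ → ℕ) (κ3 θ' : ℝ≥0∞) (a : ℕ) (Bp : Set Env),
    (a : ℝ) ≤ k.δ * M + 1 ∧ law μ Bp ≤ ENNReal.ofReal ((n : ℝ) ^ (-(2 : ℝ))) ∧
    ∑ x : XS Γ (k.G hW M) (M + k.J), ∫⁻ ω in {ω | a ≤ cnt (p98 Γ (k.G hW M) (M + k.J) (k.th μ s T0) (k.sl μ s T0) be bb st κ3 θ')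
      (wS Γ (k.G hW M) (M + k.J)) (fS77 Γ (k.G hW M) (M + k.J)) k.τ₀ k.τ₀ (k.sl μ s T0 k.τ₀) x ω} \ Bp,
        wS Γ (k.G hW M) (M + k.J) x ω ∂(law μ) ≤ 2 * ENNReal.ofReal (k.θ ^ (-(k.δ / 2) * M))

/-- **SEP WITH THE ORDER OF THE CONSTANTS** (`k.up m` : every larger `m0` is allowed). -/
def SepQ51 (μ : Measure ℝ) (s : ℝ) : Prop :=
  ∃ K₀ : ℕ, ∀ K : ℕ, K₀ ≤ K → ∀ κm δ : ℝ, 0 < κm → 0 < δ → δ ≤ 1 → ∃ k : SC51, k.K = K ∧ k.δ = δ ∧ ∀ (m : ℕ) (e₀ : ℝ), 0 < e₀ →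
    ∃ s₀ : ℝ, 0 < s₀ ∧ ∀ c₂ : ℝ, 0 < c₂ → c₂ ≤ s₀ → ∀ δ' : ℝ, 0 < δ' → δ' ≤ c₂ / 16 → ∃ κ₀ : ℝ, 0 < κ₀ ∧ ∀ κ : ℝ, 0 < κ → κ ≤ κ₀ →
      ∀ᶠ n : ℕ in atTop, ∀ T0 M : ℕ, (n : ℝ) ^ e₀ ≤ T0 → κm * Real.log n ≤ M →
        4 * ((T0 : ℝ) * (K : ℝ) ^ (M + k.J)) ≤ (n : ℝ) ^ (1 / 32 : ℝ) → ∀ (hW : Wok μ s T0 k.K) (Γ : Cx), Adm μ s c₂ δ' κ n Γ →
          Sep51 μ s (k.up m) n hW M Γ

/-- `Sep51` from the conclusions of `sep25` (at `G = k.G hW M`, `mt = M + J`) and of `potW86`. -/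
theorem sep51_of {s : ℝ} {k : SC51} {n : ℕ} {T0 : ℕ} {hW : Wok μ s T0 k.K} {M : ℕ} {Γ : Cx}
    {be : ℕ → ℕ → ℝ} {bb : ℕ → ℝ} {st : ℕ → ℕ → ℕ} {κ3 θ' : ℝ≥0∞} {a : ℕ} {θb : ℝ≥0∞}
    {pot : XS Γ (k.G hW M) (M + k.J) → Env → ℝ≥0∞} (ha : (a : ℝ) ≤ k.δ * M + 1)
    (hpot : law μ {ω | ∃ x, pot x ω < θb} ≤ ENNReal.ofReal ((n : ℝ) ^ (-(2 : ℝ))))
    (hsep : ∑ x : XS Γ (k.G hW M) (M + k.J), ∫⁻ ω in {ω | a ≤ cnt (p98 Γ (k.G hW M) (M + k.J) (k.th μ s T0) (k.sl μ s T0) be bb st κ3 θ')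
      (wS Γ (k.G hW M) (M + k.J)) (fS77 Γ (k.G hW M) (M + k.J)) k.τ₀ k.τ₀ (k.sl μ s T0 k.τ₀) x ω ∧ θb ≤ pot x ω},
        wS Γ (k.G hW M) (M + k.J) x ω ∂(law μ) ≤ 2 * ENNReal.ofReal (k.θ ^ (-(k.δ / 2) * M))) :
    Sep51 μ s k n hW M Γ := by
  refine ⟨be, bb, st, κ3, θ', a, {ω | ∃ x, pot x ω < θb}, ha, hpot, le_trans (sum_le_sum fun x _ => lintegral_mono_set ?_) hsep⟩
  rintro ω ⟨h1, h2⟩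
  exact ⟨h1, not_lt.1 fun h3 => h2 ⟨x, h3⟩⟩

/-! ### The second leaf: tameness and determinism -/

/-- **THE SCALE `u` IS GOOD** for the contact `x`: not small, tame, few early meetings, little far mass off the ball. -/
def Gd51 (μ : Measure ℝ) (s : ℝ) (k : SC51) {T0 : ℕ} (hW : Wok μ s T0 k.K) (M : ℕ) (Γ : Cx) (Un : ℕ → ℕ × ℤ → Set Env)
    (x : XS Γ (k.G hW M) (M + k.J)) (u : ℕ) (ω : Env) : Prop :=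
  k.τ₀ < u ∧ u ≤ M ∧ ω ∉ Un u x.1 ∧ ∀ j, u + k.m0 ≤ j → j ≤ M →
    em (SD53.row Γ) (SD53.w Γ) ((k.G hW M).dk j k.τ₀) (up x) ω < ex (-(k.th μ s T0 u j + k.sl μ s T0 k.τ₀)) ∧
      FA25.fa Γ (k.G hW M) u j k.τ₀ (up x) ω < ex (-(k.th μ s T0 u j + k.sl μ s T0 k.τ₀))

/-- **TAME + DET FOR ONE CONTEXT**: few scales are not tame; at a good scale, with good scales in all shells, the environment is in `V`.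
`V t z`, `z` the base of the box of level `t`; `lm` = the last shell. -/
structure Td51 (μ : Measure ℝ) (s : ℝ) (k : SC51) (n : ℕ) {T0 : ℕ} (hW : Wok μ s T0 k.K) (M ms m₁ l₀ lm : ℕ) (e' δ : ℝ) (G : Gd)
    (S : Finset (ℕ × ℤ)) (Γ : Cx) (V : ℕ → ℕ × ℤ → Set Env) (Un : ℕ → ℕ × ℤ → Set Env) (bad : Set Env) : Prop where
  bd : law μ bad ≤ ENNReal.ofReal ((n : ℝ) ^ (-(3 / 2 : ℝ)))
  cnt : ∀ ω ∉ bad, ∀ c ∈ S, Real.exp (-((n : ℝ) ^ e')) ≤ Γ.w c ω → ∀ F : Finset ℕ, F ⊆ range (M + 1) → (∀ u ∈ F, ω ∈ Un u c) →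
    (F.card : ℝ) ≤ δ * M
  det : ∀ ω ∉ bad, ∀ x : XS Γ (k.G hW M) (M + k.J), x.1 ∈ S → Real.exp (-((n : ℝ) ^ e')) ≤ Γ.w x.1 ω → ∀ t, 2 ≤ t → t < ms →
    Gd51 μ s k hW M Γ Un x (t + (m₁ - 1)) ω →
    (∀ l, l₀ ≤ l → l ≤ lm → ∃ j, Gd51 μ s k hW M Γ Un x j ω ∧ t + (m₁ - 1) + (l - 1) / 2 ≤ j ∧ j + 2 ≤ t + (m₁ - 1) + l) →
      ω ∈ V t (G.z t x.1)

/-- **TAME + DET WITH THE ORDER OF THE CONSTANTS**, for the literal `V8`. The ratio `ρ` of the exponents comes first; `mb` : `m0` is raised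
as much as wanted (`k.up m`, `mb ≤ m`). -/
def TdQ51 (μ : Measure ℝ) [IsProbabilityMeasure μ] (s c₁ c₃ : ℝ) : Prop :=
  ∃ ρ₁ : ℝ, 0 < ρ₁ ∧ ∀ ρ : ℝ, 0 < ρ → ρ ≤ ρ₁ → ρ ≤ 1 →
  ∀ e : ℝ, 0 < e → e ≤ 1 / 32 → ∃ K₁ : ℕ, ∀ K : ℕ, K₁ ≤ K → ∀ (R : ℝ) (B : ℕ) (C₀ : ℝ), 1 ≤ R → 2 ≤ B → 1 ≤ C₀ →
    ∃ Z : ℕ, 4 ≤ Z ∧ ∀ δ : ℝ, 0 < δ → ∀ k : SC51, k.K = K → ∃ mb : ℕ, ∀ m : ℕ, mb ≤ m → ∃ kst : ℝ, 0 < kst ∧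
      ∀ m₁ : ℕ, 1 ≤ m₁ → ∃ w₁ : ℝ, 0 < w₁ ∧ ∀ w₁' : ℝ, w₁ ≤ w₁' → ∃ q₁ : ℝ, 0 < q₁ ∧
        ∀ (PV : ℕ) (QV SV gf u : ℝ), 0 < QV → 0 < SV → 0 < gf → 0 < u →
          ∃ (w₂ q₂ s₁ e' : ℝ) (l₀ : ℕ), w₁' ≤ w₂ ∧ 0 < q₂ ∧ 0 < s₁ ∧ 0 < e' ∧ 3 ≤ l₀ ∧
            ∀ c₂ : ℝ, 0 < c₂ → c₂ ≤ s₁ → ∀ δ' : ℝ, 0 < δ' → δ' ≤ c₂ / 16 → ∃ κ₀ : ℝ, 0 < κ₀ ∧ ∀ κ : ℝ, 0 < κ → κ ≤ κ₀ →
              ∃ Q₀ : ℕ, 1 ≤ Q₀ ∧ ∀ Q : ℕ, Q₀ ∣ Q → 1 ≤ Q → ∀ᶠ n : ℕ in atTop, ∀ G : Gd,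
                GW μ s R B C₀ (h8 Q (ρ * e) n) K (m8 K e n + ((k.up m).m0 + m₁)) G → ∃ (ν : NV31) (lm : ℕ),
                  NB8 μ s (Tg (h8 Q (ρ * e) n) K) ((k.up m).m0 + m₁) ⟨PV, c₁, c₃, QV, SV, w₁, w₁', w₂, kst, q₁, q₂, gf, u⟩ ν ∧ 2 * lm ≤ m8 K e n ∧
                  ∀ (hW : Wok μ s (2 * h8 Q (ρ * e) n) k.K) (Γ : Cx), Adm μ s c₂ δ' κ n Γ → ∃ (Un : ℕ → ℕ × ℤ → Set Env) (bad : Set Env),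
                    Td51 μ s (k.up m) n hW (m8 K e n) (m8 K e n / Z) m₁ l₀ lm e' δ G (S8 e K n G Γ) Γ (V8 μ s Γ ν u G) Un bad

end

end Pool.Agent.W_7d29a1_C1.Nu51
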