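import Pool.Agent.W_7d29a1_C1.SepQ49
import Pool.Agent.W_7d29a1_C1.ShlL51

/-!
MP_7d29a1_pr, attractor route [C1], SEP: **THE LAST LINK**: `SepQ51` (what side N of the shell reads) from helper49's `Evn` of the analytic
fields (`LfF`) and of the potential (`Pt51`; `Evn.pt51` : from the conclusion of helper2's `hpQ2`). (helper51)

Constants: `q, m2` large, `η = 1`, `A = 1`, `lam`, `m0` large, `g1 = 1`, `τ₀ = 1`, `J = m2 + J1`, `mt = M + J`, `a = ⌈δ M⌉`.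
-/

set_option autoImplicit false

namespace Pool.Agent.W_7d29a1_C1.Nu51

open MeasureTheory Finset Filter Topology
open Pool.Agent.W_7d29a1_F Pool.Agent.W_7d29a1_h4g Pool.Agent.W_7d29a1_H Pool.Agent.W_7d29a1_HS
open Pool.Agent.W_7d29a1_C1.H60
open Pool.Agent.W_7d29a1_C1.H40 (Tk)
open Pool.Agent.W_7d29a1_C1.H49 (ex)
open Pool.Agent.W_7d29a1_C1.G37 (Gm Wok gmW)
open Pool.Agent.W_7d29a1_C1.N49
open Pool.Agent.W_7d29a1_C1.Q49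
open Pool.Agent.W_7d29a1_C1.PS86 (pot86)
open Pool.Agent.W_7d29a1_C1.SF98
open scoped ENNReal

noncomputable section

variable {μ : Measure ℝ}

/-- **THE POTENTIAL IS NOT SMALL**, one instance (`Pt40` of helper40 with `X = 2`, asked from the stage `1` on). -/
def Pt51 (F : Fam) (P : Pre) (μ : Measure ℝ) (δ : ℝ) : Phi := fun q _η _A lam n Γ G mt τ0 E =>
  1 ≤ τ0 → ∃ b' : ℕ, (b' : ℝ) ≤ δ * G.M / 8 ∧
    law μ {ω | ∃ x : XS Γ G mt, pot86 Γ G mt lam P.m3 (F.TT Γ G E) (1 + c1q P.c' q)⁻¹ τ0 (slN P.Cb E G.m2 τ0) x ω < yb P q b'} ≤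
      ENNReal.ofReal ((n : ℝ) ^ (-(2 : ℝ)))

/-- **THE LEAF OF SEP**: in the order `K` | the number `kap` of scales, the fraction `δ` | the constants `P` and the families `F` | `Evn`. The
growth `K ^ a`, `Cg` of the energies is given. -/
def LfQ51 (μ : Measure ℝ) (s a Cg : ℝ) : Prop :=
  ∃ K₀ : ℕ, ∀ K : ℕ, K₀ ≤ K → ∀ δ : ℝ, 0 < δ → δ ≤ 1 → ∀ D : Dat, D.K = K → D.κ = (K : ℝ) ^ a → D.Cg = Cg →
    ∃ (P : Pre) (F : Fam), Evn P D μ s (LfF F P μ) ∧ Evn P D μ s (Pt51 F P μ δ)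

/-- The bound of the potential. -/
theorem pt51_le {n : ℕ} (hn : 2 ≤ n) : 4 * ENNReal.ofReal ((n : ℝ) ^ (-(4 : ℝ))) ≤ ENNReal.ofReal ((n : ℝ) ^ (-(2 : ℝ))) := by
  have hnR : (2 : ℝ) ≤ n := by exact_mod_cast hn
  have n0 : (0 : ℝ) < n := by linarith
  have e1 : (n : ℝ) ^ (-(2 : ℝ)) = (n : ℝ) ^ (2 : ℝ) * (n : ℝ) ^ (-(4 : ℝ)) := by
    rw [← Real.rpow_add n0]
    norm_num
  have e2 : (4 : ℝ) ≤ (n : ℝ) ^ (2 : ℝ) := by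
    rw [Real.rpow_two]
    nlinarith
  have h0 : 0 ≤ (n : ℝ) ^ (-(4 : ℝ)) := Real.rpow_nonneg n0.le _
  have e3 : (4 : ℝ≥0∞) = ENNReal.ofReal 4 := by simp
  rw [e3, ← ENNReal.ofReal_mul (by norm_num), e1]
  exact ENNReal.ofReal_le_ofReal (mul_le_mul_of_nonneg_right e2 h0)

/-- There are many scales. -/
theorem evn_M51 {P : Pre} {D : Dat} {s : ℝ} (k : ℕ) : Evn P D μ s fun _ _ _ _ n _ G _ _ _ => 2 ≤ n ∧ k ≤ G.M := by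
  have hlog : Tendsto (fun n : ℕ => D.kap * Real.log n) atTop atTop :=
    (Real.tendsto_log_atTop.comp tendsto_natCast_atTop_atTop).const_mul_atTop D.hkap
  obtain ⟨n₁, hn₁⟩ := eventually_atTop.1 (hlog.eventually_ge_atTop (k : ℝ))
  refine ⟨0, fun q _ => ⟨0, fun m2 _ η _ A _ => ⟨0, fun lam _ => ⟨0, fun m0 _ g1 _ e0 _ => EvA.of_ev ⟨max n₁ 2, fun n hn c₂ δ κ _ _ _
    _ _ Γ T0 M mt τ0 hc hW _ _ => ⟨(le_max_right _ _).trans hn, ?_⟩⟩⟩⟩⟩⟩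
  have h1 := (hn₁ n ((le_max_left _ _).trans hn)).trans hc.M_ge
  exact_mod_cast h1

/-- From the conclusion of `hpQ2` (the fraction `δ / 48`). -/
theorem evn_pt51 [IsProbabilityMeasure μ] {P : Pre} {D : Dat} {s : ℝ} {F : Fam} {δ : ℝ} (hδ : 0 < δ)
    (h : Evn P D μ s fun q _ _ lam n Γ G mt τ0 E => 1 ≤ τ0 → ∀ sg : ℝ, 0 ≤ sg → ∀ b b' : ℕ, δ / 48 * G.M ≤ b → 3 * b ≤ b' →
      law μ {ω | ∃ x : XS Γ G mt, pot86 Γ G mt lam P.m3 (F.TT Γ G E) (1 + c1q P.c' q)⁻¹ τ0 sg x ω < yb P q b'} ≤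
        3 * ENNReal.ofReal ((n : ℝ) ^ (-(4 : ℝ)))) : Evn P D μ s (Pt51 F P μ δ) := by
  refine (h.and (evn_M51 ⌈96 / δ⌉₊)).monoG fun q m2 η A lam m0 g1 e0 c₂ δ' κ n Γ T0 M mt τ0 hc hW _ _ _ _ _ _ _ _ _ _ h1 hτ => ?_
  obtain ⟨h1, hn, hM⟩ := h1
  have hM96 : 96 / δ ≤ (M : ℝ) := (Nat.le_ceil _).trans (by exact_mod_cast hM)
  have hδM : 96 ≤ δ * M := by
    rw [div_le_iff₀ hδ] at hM96
    linarith
  have hδ0 : 0 ≤ δ / 48 * (M : ℝ) := by positivity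
  have b1 : δ / 48 * (M : ℝ) ≤ ⌈δ / 48 * (M : ℝ)⌉₊ := Nat.le_ceil _
  have b2 : ((⌈δ / 48 * (M : ℝ)⌉₊ : ℕ) : ℝ) < δ / 48 * M + 1 := Nat.ceil_lt_add_one hδ0
  refine ⟨3 * ⌈δ / 48 * (M : ℝ)⌉₊, ?_, (h1 hτ _ ?_ _ _ b1 le_rfl).trans ((mul_le_mul_left (by norm_num) _).trans (pt51_le hn))⟩
  · show ((3 * ⌈δ / 48 * (M : ℝ)⌉₊ : ℕ) : ℝ) ≤ δ * (M : ℝ) / 8
    push_cast
    linarith
  · unfold slN bN
    refine sum_nonneg fun v _ => mul_nonneg ?_ (zero_le_one.trans (Pool.Agent.W_7d29a1_H.one_le_EE (μ := μ) (s := s) _))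
    have := P.hCr
    have := P.hCbr
    linarith

/-- **THE LAST LINK OF SEP.** -/
theorem sepQ51_of [IsProbabilityMeasure μ] {s c C : ℝ} {n₀ : ℕ} (hI : In μ s c C n₀)
    (H : ∀ a Cg : ℝ, 0 < a → 1 ≤ Cg → LfQ51 μ s a Cg) : SepQ51 μ s := by
  obtain ⟨a, Cg, ha, hCg, K₁, hK₁⟩ := wok_gr hI
  obtain ⟨K₀, H⟩ := H a Cg ha hCg
  refine ⟨max K₀ K₁, fun K hK κm δ hκm hδ hδ1 => ?_⟩
  obtain ⟨hK3, n₁, hWG⟩ := hK₁ K ((le_max_right _ _).trans hK)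
  obtain ⟨D, hD⟩ : ∃ D : Dat, D = ⟨κm, K, (K : ℝ) ^ a, Cg, hκm, hK3, hCg⟩ := ⟨_, rfl⟩
  have eK : D.K = K := by rw [hD]
  have ekap : D.kap = κm := by rw [hD]
  have eκ : D.κ = (K : ℝ) ^ a := by rw [hD]
  have eC : D.Cg = Cg := by rw [hD]
  obtain ⟨P, F, h1, h2⟩ := H K ((le_max_left _ _).trans hK) δ hδ hδ1 D eK eκ eC
  clear hD
  subst eK
  obtain ⟨q₁, h⟩ := ((sepQ49 hδ h1).and h2).out hI
  obtain ⟨q, hq⟩ : ∃ q : ℕ, q = max q₁ 1 := ⟨_, rfl⟩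
  obtain ⟨m2₁, h⟩ := h q (hq ▸ le_max_left _ _)
  obtain ⟨m2, hm2⟩ : ∃ m2 : ℕ, m2 = max m2₁ 3 := ⟨_, rfl⟩
  obtain ⟨lam, h⟩ := h m2 (hm2 ▸ le_max_left _ _) 1 one_pos 1 le_rfl
  obtain ⟨m0₁, h⟩ := h lam le_rfl
  have h32 : 3 ≤ m2 := hm2 ▸ le_max_right _ _
  have hθ := (thq_spec P.hc0 P.hc1 (show q ≠ 0 by
    have : 1 ≤ q := hq ▸ le_max_right _ _
    omega)).1
  refine ⟨{ K := D.K, m0 := max m0₁ 1, g1 := 1, m2 := m2, J := m2 + P.J1, A := 1, τ₀ := 1, kw := P.kw, kn := P.kn, kb := P.kb, η := 1,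
            Cb := P.Cb, θ := thq P.c' q, δ := δ, hkw := P.hkw, hkn := P.hkn, hkb := P.hkb, h1 := le_rfl, h2 := h32,
            hm := le_max_right _ _, hη := one_pos, hCb := by have := P.hCr; have := P.hCbr; linarith, hA := le_rfl, hθ := hθ }, rfl, rfl,
          fun m e₀ he₀ => ?_⟩
  obtain ⟨s₀, hs₀, _, h⟩ := h (max m0₁ 1 + m) ((le_max_left _ _).trans (Nat.le_add_right _ _)) 1 le_rfl e₀ he₀
  refine ⟨s₀, hs₀, fun c₂ hc₂ hc₂s δ' hδ' hδc => ?_⟩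
  obtain ⟨κ₀, hκ₀, h⟩ := h c₂ hc₂ hc₂s δ' hδ' hδc
  refine ⟨κ₀, hκ₀, fun κ hκ hκκ => ?_⟩
  obtain ⟨n₂, h⟩ := h κ hκ hκκ
  have hlog : Tendsto (fun n : ℕ => κm * Real.log n) atTop atTop :=
    (Real.tendsto_log_atTop.comp tendsto_natCast_atTop_atTop).const_mul_atTop hκm
  have ev : ∀ {y : ℝ}, 0 < y → ∀ M : ℝ, ∀ᶠ n : ℕ in atTop, M ≤ (n : ℝ) ^ y := fun hy M =>
    ((tendsto_rpow_atTop hy).comp tendsto_natCast_atTop_atTop).eventually_ge_atTop M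
  filter_upwards [eventually_ge_atTop n₂, hlog.eventually_ge_atTop ((m2 + P.J1 : ℕ) : ℝ), ev he₀ n₁] with n hn2 hl1 hT1
  intro T0 M hT0 hM hTL hW Γ hA
  have hJM : m2 + P.J1 ≤ M := by exact_mod_cast hl1.trans hM
  have hT : n₁ ≤ T0 := by exact_mod_cast hT1.trans hT0
  have hc : Ct P D μ s e₀ c₂ δ' κ n Γ T0 M (M + (m2 + P.J1)) m2 1 :=
    { adm := hA
      T0_ge := hT0
      top := hTL
      M_ge := by rw [ekap]; exact hM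
      mt_ge := by omega
      mt_le := by omega
      h1 := le_rfl
      h2 := h32 }
  have hgr : Gr (fun u => EE μ s (Tk T0 D.K u)) D.κ D.Cg := by
    rw [eκ, eC]
    exact (hWG T0 hT).2
  obtain ⟨_, h3, h4⟩ := h n hn2 Γ T0 M (M + (m2 + P.J1)) 1 hc hW hgr
  obtain ⟨b', hb', h4⟩ := h4 le_rfl
  have a1 : δ * (M : ℝ) ≤ ⌈δ * (M : ℝ)⌉₊ := Nat.le_ceil _
  have a2 : ((⌈δ * (M : ℝ)⌉₊ : ℕ) : ℝ) < δ * M + 1 := Nat.ceil_lt_add_one (by positivity)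
  refine sep51_of (θb := yb P q b') (a := ⌈δ * (M : ℝ)⌉₊)
    (pot := fun x ω => pot86 Γ (P.G hW M (max m0₁ 1 + m) 1 m2 le_rfl h32) (M + (m2 + P.J1)) lam P.m3
      (F.TT Γ (P.G hW M (max m0₁ 1 + m) 1 m2 le_rfl h32) (fun u => EE μ s (Tk T0 D.K u))) (1 + c1q P.c' q)⁻¹ 1
      (slN P.Cb (fun u => EE μ s (Tk T0 D.K u)) m2 1) x ω)
    (be := beN 1 1 P.Cb (fun u => EE μ s (Tk T0 D.K u)) m2 (Ln n)) (bb := bN P.Cb (fun u => EE μ s (Tk T0 D.K u))) (st := stN (1 + 1))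
    (κ3 := ex (-Ln n)) (θ' := ENNReal.ofReal (thq P.c' q)) a2.le h4 ?_
  exact h3 ⌈δ * (M : ℝ)⌉₊ _ a1 hb'

end

end Pool.Agent.W_7d29a1_C1.Nu51
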