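import Pool.Agent.W_7d29a1_C1.HpQ2
import Pool.Agent.W_7d29a1_C1.SepB51

/-!
MP_7d29a1_pr, attractor route [C1], SEP + TAME: `SepQ51` FROM ONE PROP. (helper2)

`LastQ2 μ s a Cg` : all that is left of SEP and TAME, with the order of the constants: `K`, the data `Dd` (growth `K ^ a`, `Cg`) | `δ` | `ke` |
`NB` | `D, k` (numbers of the potential) | `z` large | TAME data, `Pre`, families. **`lfQ51_of2`**, **`sepQ51_of2`**.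
-/

set_option autoImplicit false

namespace Pool.Agent.W_7d29a1_C1.Hp2

open MeasureTheory Finset Filter
open Pool.Agent.W_7d29a1_F Pool.Agent.W_7d29a1_h4g Pool.Agent.W_7d29a1_H Pool.Agent.W_7d29a1_HS
open Pool.Agent.W_7d29a1_C1.H60
open Pool.Agent.W_7d29a1_C1.H40
open Pool.Agent.W_7d29a1_C1.G37 (Gm Wok gmW)
open Pool.Agent.W_7d29a1_C1.PS86 (pot86)
open Pool.Agent.W_7d29a1_C1.SF98
open Pool.Agent.W_7d29a1_C1.P25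
open Pool.Agent.W_7d29a1_C1.N49
open Pool.Agent.W_7d29a1_C1.PW86
open Pool.Agent.W_7d29a1_C1.Dep6
open Pool.Agent.W_7d29a1_C1.Q49
open Pool.Agent.W_7d29a1_C1.Nu51
open scoped ENNReal

noncomputable section

variable {μ : Measure ℝ}

/-- **ALL THAT IS LEFT OF SEP AND TAME.** -/
def LastQ2 (μ : Measure ℝ) (s a Cg : ℝ) : Prop :=
  ∃ K₀ : ℕ, ∀ Dd : Dat, K₀ ≤ Dd.K → Dd.κ = (Dd.K : ℝ) ^ a → Dd.Cg = Cg → ∀ δ : ℝ, 0 < δ → δ ≤ 1 → ∀ ke : ℕ, 50 / δ ≤ ke →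
    ∃ NB : ℕ, ∀ D k : ℕ, 1 ≤ D → 1 ≤ k → ∃ z₀ : ℕ, ∀ z : ℕ, z₀ ≤ z → 1 ≤ z →
      ∃ (t : Tm) (P : Pre) (F : Fam) (Fs : Gm → Finset (ℕ → ℕ)) (ε : ℝ), (∃ (AA a' gg : ℝ) (n₁ : ℕ), t.Ok μ z AA a' gg n₁) ∧
        (z : ℝ) * ε ≤ 1 / 2 ∧ (Evn P Dd μ s fun _ _ _ _ _ _ G _ _ _ => NbF (Fs G) NB ∧ id ∈ Fs G) ∧ Evn P Dd μ s (LfF F P μ) ∧
        LvE P Dd μ s F.Lv ε ∧ ClQ P Dd μ s t k D Fs (fun Γ G E => cut86 G (G.M / ke) (F.Ou Γ G E 0)) ∧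
        ClQ P Dd μ s t k D Fs (fun Γ G E => cut86 G (G.M / ke) (F.St Γ G E 0)) ∧
        ClQ P Dd μ s t k D Fs (fun Γ G E => cut86 G (G.M / ke) (F.Fw Γ G E 0))

/-- The typical events increase with the slack. -/
theorem mono_TT2 {s : ℝ} {P : Pre} {Dd : Dat} {F : Fam} (h : Evn P Dd μ s (LfF F P μ)) :
    Evn P Dd μ s fun _ _ _ _ _ Γ G _ _ E => ∀ sg sg' u κ, sg ≤ sg' → F.TT Γ G E sg u κ ⊆ F.TT Γ G E sg' u κ := by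
  refine h.mono fun q η A lam n Γ G mt τ0 E h1 sg sg' u κ hs => ?_
  rintro ω ⟨a1, a2, a3, a4⟩
  exact ⟨a1, h1.sOu.mono _ _ _ _ hs a2, h1.sSt.mono _ _ _ _ hs a3, h1.sFw.mono _ _ _ _ hs a4⟩

/-- The numbers of the counts. -/
theorem num_cnt2 {δ : ℝ} (hδ : 0 < δ) {ke M : ℕ} (hke : 50 / δ ≤ ke) (hM : 600 / δ ≤ M) :
    ((3 * ⌈δ / 30 * M⌉₊ + M / ke : ℕ) : ℝ) ≤ δ * M / 8 := by
  have h0 : 600 ≤ δ * M := by
    rw [div_le_iff₀ hδ] at hM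
    linarith
  have hk0 : (0 : ℝ) < ke := lt_of_lt_of_le (by positivity) hke
  have h1 := Nat.ceil_lt_add_one (show 0 ≤ δ / 30 * M by positivity)
  have h2 : ((M / ke : ℕ) : ℝ) ≤ δ * M / 50 := by
    refine Nat.cast_div_le.trans ?_
    rw [div_le_iff₀ hk0]
    have h3 : 50 ≤ δ * ke := by
      rw [div_le_iff₀ hδ] at hke
      linarith
    have h4 : (0 : ℝ) ≤ M := Nat.cast_nonneg _
    nlinarith
  push_cast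
  linarith

/-- **SEP FROM ONE PROP.** -/
theorem lfQ51_of2 [IsProbabilityMeasure μ] {s a Cg : ℝ} (hL : LastQ2 μ s a Cg) : LfQ51 μ s a Cg := by
  obtain ⟨K₀, hL⟩ := hL
  refine ⟨K₀, fun K hK δ hδ hδ1 Dd eK eκ eC => ?_⟩
  subst eK
  obtain ⟨ke, hke⟩ : ∃ ke : ℕ, 50 / δ ≤ ke := exists_nat_ge _
  obtain ⟨NB, hL⟩ := hL Dd hK eκ eC δ hδ hδ1 ke hke
  obtain ⟨A1, hA1⟩ := exists_nat_ge (Real.exp (13 / Dd.kap))
  obtain ⟨A0, hA0⟩ : ∃ A0, A0 = max A1 ((2 * (Dd.K + 1) + 1) * (2 * (2 * Dd.K * 2 + 1) + 1)) := ⟨_, rfl⟩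
  have hA01 : Real.exp (13 / Dd.kap) ≤ A0 := hA1.trans (by rw [hA0]; exact_mod_cast le_max_left _ _)
  have hA02 : (2 * (Dd.K + 1) + 1) * (2 * (2 * Dd.K * 2 + 1) + 1) ≤ A0 := by rw [hA0]; exact le_max_right _ _
  obtain ⟨D, k, z₁, hD, hk, hz₁, H⟩ := hpQ2 (μ := μ) A0 NB ke (d := δ / 30) (c := Dd.kap) (by positivity) Dd.hkap hA01
  obtain ⟨z₀, hL⟩ := hL D k hD hk
  obtain ⟨t, P, F, Fs, ε, ⟨AA, a', gg, n₂, ht⟩, hε, hFs, hLf, hLv, hOu, hSt, hFw⟩ :=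
    hL (max z₀ z₁) (le_max_left _ _) (hz₁.trans (le_max_right _ _))
  have hp := H _ (le_max_right z₀ z₁) ht (P := P) (Dd := Dd) (s := s) rfl hA02 hε hFs (mono_TT2 hLf) hLv hOu hSt hFw
  refine ⟨P, F, hLf, ?_⟩
  refine (hp.and (evn_M51 ⌈600 / δ⌉₊)).monoG fun q m2 η A lam m0 g1 e0 c₂ δ' κ n Γ T0 M mt τ0 hc hW _ _ _ _ _ _ _ _ _ _ h1 hτ => ?_
  obtain ⟨h1, hn, hM⟩ := h1
  have hM6 : 600 / δ ≤ (M : ℝ) := (Nat.le_ceil _).trans (by exact_mod_cast hM)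
  refine ⟨3 * ⌈δ / 30 * (M : ℝ)⌉₊ + M / ke, num_cnt2 hδ hke hM6,
    (h1 hτ _ ?_ _ _ (Nat.le_ceil _) le_rfl).trans ((mul_le_mul_left (by norm_num) _).trans (pt51_le hn))⟩
  unfold slN bN
  refine sum_nonneg fun v _ => mul_nonneg ?_ (zero_le_one.trans (Pool.Agent.W_7d29a1_H.one_le_EE (μ := μ) (s := s) _))
  have := P.hCr
  have := P.hCbr
  linarith

/-- **`SepQ51` FROM ONE PROP.** -/
theorem sepQ51_of2 [IsProbabilityMeasure μ] {s c C : ℝ} {n₀ : ℕ} (hI : In μ s c C n₀)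
    (hL : ∀ a Cg : ℝ, 0 < a → 1 ≤ Cg → LastQ2 μ s a Cg) : SepQ51 μ s :=
  sepQ51_of hI fun a Cg ha hCg => lfQ51_of2 (hL a Cg ha hCg)

end

end Pool.Agent.W_7d29a1_C1.Hp2
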