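import Pool.Agent.W_7d29a1_C1.SepG2
import Pool.Agent.W_7d29a1_C1.PreC40
import Pool.Agent.W_7d29a1_C1.FamS98
import Pool.Agent.W_7d29a1_C1.SepR2

/-!
MP_7d29a1_pr, attractor route [C1], SEP: **WHAT THE CONSTANTS MEAN**: from the record `Cst` of SepC2 to the gate numbers `C.g`, the lane numbers
`C.l`, the numbers of the families `C.cf`, the structure `C.P : Pre` and the families `C.fam`. (helper2)

`ε` is the probability budget of one factor of `Lv`. `num3` : the numbers of `Pre`, of `ro` and of the gaps are good, eventually.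
-/

set_option autoImplicit false

namespace Pool.Agent.W_7d29a1_C1.Cs2

open MeasureTheory Finset Filter
open Pool.Agent.W_7d29a1_F Pool.Agent.W_7d29a1_h4g Pool.Agent.W_7d29a1_H Pool.Agent.W_7d29a1_HS
open Pool.Agent.W_7d29a1_C1.H60
open Pool.Agent.W_7d29a1_C1.H40 (Tk)
open Pool.Agent.W_7d29a1_C1.G37 (Gm Wok gmW)
open Pool.Agent.W_7d29a1_C1.SF98
open Pool.Agent.W_7d29a1_C1.P25
open Pool.Agent.W_7d29a1_C1.N49
open Pool.Agent.W_7d29a1_C1.D98
open Pool.Agent.W_7d29a1_C1.Q49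
open Pool.Agent.W_7d29a1_C1.Nm15
open Pool.Agent.W_7d29a1_C1.PW86
open Pool.Agent.W_7d29a1_C1.Hp2
open Pool.Agent.W_7d29a1_C1.WrS19
open scoped ENNReal

noncomputable section

namespace Cst

variable (C : Cst)

/-- **The numbers of the window.** -/
def Nm (μ : Measure ℝ) (s c ε : ℝ) : NmF := fun _ G _ => nm15 μ s c (C.g ε) C.l G

/-- **The numbers of the families.** -/
def cf : Cf98 :=
  { sgm := C.sgm, rc := C.rc, r0 := C.r0, R0 := C.R0, R2 := C.R2, R1 := C.R1, aF := C.aF, bF := C.R1, gF := C.gf, al := C.al, U₁ := C.U1n,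
    Uw := C.Uw, V₁ := C.V1, Re := C.Re, Qe := C.Qe }

/-- **THE FAMILIES.** -/
def fam (μ : Measure ℝ) (s c ε : ℝ) : Fam := Fam98 μ s c C.P (C.Nm μ s c ε) C.cf

/-- The families, lucky set without the tame part. -/
def famo (μ : Measure ℝ) (s c ε : ℝ) : Fam := Fam98o μ s c C.P (C.Nm μ s c ε) C.cf

end Cst

end

end Pool.Agent.W_7d29a1_C1.Cs2
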