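import Pool.Agent.W_7d29a1_C1.LucR30

/-!
MP_7d29a1_pr, [C1] SEP, the LANE BLOCK: THE CONCLUSION OF `blk30` AS ONE PROP. (helper42; text of helper30's `blk30`)

`Blk42 μ s c C δ Kb Kh U0 UM q Kp KM UA UB YA YB N n` : the text of `blk30` from `∀ Γ g r0 r1 r2 r3 ..` to the end; `blk42` : `blk30` in this
form.
-/

set_option autoImplicit false

namespace Pool.Agent.W_7d29a1_C1.Luc30

open Finset MeasureTheory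
open Pool.Agent.W_7d29a1_F Pool.Agent.W_7d29a1_h4g Pool.Agent.W_7d29a1_H Pool.Agent.W_7d29a1_HS
open Pool.Agent.W_7d29a1_C1
open Pool.Agent.W_7d29a1_C1.K91 (wt wt_pos)
open Pool.Agent.W_7d29a1_C1.K91P (bw bw_pos)
open Pool.Agent.W_7d29a1_C1.U16 (ker ker_nonneg)
open Pool.Agent.W_7d29a1_C1.Tb87 (Mx kx Mo Mx_pos kx_W)
open Pool.Agent.W_7d29a1_C1.Basin76 (kW)
open Pool.Agent.W_7d29a1_C1.BP58
open Pool.Agent.W_7d29a1_C1.H75 (hc hc_nonneg)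
open Pool.Agent.W_7d29a1_C1.P24 (Ce24 mem_Ce24)
open Pool.Agent.W_7d29a1_C1.M99
open Pool.Agent.W_7d29a1_C1.E53
open Pool.Agent.W_7d29a1_C1.H60
open Pool.Agent.W_7d29a1_C1.SD53
open Pool.Agent.W_7d29a1_C1.Lb76
open Pool.Agent.W_7d29a1_C1.Nl32

noncomputable section

variable {μ : Measure ℝ} {s c C : ℝ} {n₀ : ℕ}

/-- **THE CONCLUSION OF THE LANE BLOCK**, at the numbers of its two constants, levels and units. -/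
def Blk42 (μ : Measure ℝ) (s c C δ Kb Kh U0 UM q Kp KM UA UB YA YB : ℝ) (N n : ℕ) : Prop :=
      ∀ (Γ : Cx) (g : ℝ) (r0 r1 r2 r3 : ℕ) (c0 c1 c2 c3 : ℤ), r1 = r0 + N * n → r2 = r1 + N * n → r3 = r2 + N * n →
        |(c1 : ℝ) - c0 - sl μ s * (N * n : ℕ)| ≤ wd μ s (N * n) → |(c2 : ℝ) - c1 - sl μ s * (N * n : ℕ)| ≤ wd μ s (N * n) →
        |(c3 : ℝ) - c2 - sl μ s * (N * n : ℕ)| ≤ wd μ s (N * n) →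
        r3 < Γ.N → (∀ k, r0 ≤ k → k < r3 → Γ.p k = Real.exp (s + g)) → |g| * wd μ s (N * n) ≤ c / 8 * EE μ s (N * n) →
      ∀ ωB : ℝ, Kb * wd μ s (N * n) ≤ ωB → ωB ≤ Kh * wd μ s (N * n) →
      ∀ ω ω' : Env, (∀ p : Pt, p.1 ≤ (r0 : ℤ) → ω' p = ω p) → (∀ p : Pt, (r3 : ℤ) < p.1 → ω' p = ω p) →
        (∀ (t : ℕ) (x : ℤ), t ≤ N * n → ωB < lat69 μ s t x → ω' (((r0 + t : ℕ) : ℤ), x + c0) = ω (((r0 + t : ℕ) : ℤ), x + c0)) →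
        (∀ (t : ℕ) (x : ℤ), t ≤ N * n → ωB < lat69 μ s t x → ω' (((r1 + t : ℕ) : ℤ), x + c1) = ω (((r1 + t : ℕ) : ℤ), x + c1)) →
        (∀ (t : ℕ) (x : ℤ), t ≤ N * n → ωB < lat69 μ s t x → ω' (((r2 + t : ℕ) : ℤ), x + c2) = ω (((r2 + t : ℕ) : ℤ), x + c2)) →
      ∀ LA LB c' qM ρ : ℝ, δ / 4 * wd μ s (N * n) ≤ ρ → ρ ≤ wd μ s (N * n) →
        ω' ∈ BL30 ((r0 : ℤ), c0) ((r2 : ℤ), c2)
          (LC30 μ s c (fun _ : Unit => (0 : ℤ)) (fun _ : Unit => c1 - c0) N n δ Kb Kh U0 LA Kp UA (δ / 32 * wd μ s (N * n)) YA)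
          (at20 ((r1 : ℤ), c1) (Mid99 μ s c (N * n) c' qM UM Kh ρ 0 (c2 - c1)))
          (LC30 μ s c (fun _ : Unit => (0 : ℤ)) (fun _ : Unit => c3 - c2) N n δ Kb Kh U0 LB Kp UB (δ / 32 * wd μ s (N * n)) YB) →
        (∀ (t : ℕ) (x : ℤ), t < N * n → (t = 0 ∨ ωB < lat69 μ s t x) → lat69 μ s t x ≤ ωB + 1 →
          TameV69 μ s g (wt ω) Γ.p (Mx (wt ω) Γ.p Γ.N r1) r0 c0 (N * n) (Kp * wd μ s (N * n)) ((q + c / 4 * Kp) * EE μ s (N * n)) t x) →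
        (∀ (t : ℕ) (x : ℤ), t < N * n → (t = 0 ∨ ωB < lat69 μ s t x) → lat69 μ s t x ≤ ωB + 1 →
          TameV69 μ s g (wt ω) Γ.p (Mx (wt ω) Γ.p Γ.N r2) r1 c1 (N * n) (KM * wd μ s (N * n)) ((q + c / 4 * KM) * EE μ s (N * n)) t x) →
        (∀ (t : ℕ) (x : ℤ), t < N * n → (t = 0 ∨ ωB < lat69 μ s t x) → lat69 μ s t x ≤ ωB + 1 →
          TameV69 μ s g (wt ω) Γ.p (Mx (wt ω) Γ.p Γ.N r3) r2 c2 (N * n) (Kp * wd μ s (N * n)) ((q + c / 4 * Kp) * EE μ s (N * n)) t x) →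
      ∀ Q : ℝ, Mx (wt ω) Γ.p Γ.N r0 c0 ≤ Real.exp (Q * EE μ s (N * n)) *
          Real.exp ((N * n : ℕ) * lam μ s + g * (sl μ s * (N * n : ℕ))) * Mx (wt ω) Γ.p Γ.N r1 c1 →
        (∀ y ∈ Ce24 c1 ρ, Mx (wt ω) Γ.p Γ.N r1 y ≤ Real.exp (Q * EE μ s (N * n)) *
          Real.exp ((N * n : ℕ) * lam μ s + g * (sl μ s * (N * n : ℕ))) * Mx (wt ω) Γ.p Γ.N r2 c2) →
        Mx (wt ω) Γ.p Γ.N r2 c2 ≤ Real.exp (Q * EE μ s (N * n)) *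
          Real.exp ((N * n : ℕ) * lam μ s + g * (sl μ s * (N * n : ℕ))) * Mx (wt ω) Γ.p Γ.N r3 c3 →
        (∃ ωA ωM : Env, Blk76 Γ ω ωA ωM ω' r0 r1 r2 r3 {c0} ↑(Ce24 c0 (δ / 4 * wd μ s (N * n))) ↑(Ce24 c1 (δ / 4 * wd μ s (N * n)))
          {c2} ↑(Ce24 c2 (δ / 4 * wd μ s (N * n))) ↑(Ce24 c3 (δ / 4 * wd μ s (N * n)))
          (Real.exp ((LA - (Q + c / 4)) * EE μ s (N * n))) (Real.exp (gx30 c C U0 q Kh Kp UA * EE μ s (N * n)))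
          (Real.exp (yx30 c U0 q Kh Kp * EE μ s (N * n)))
          (Real.exp ((LB - (Q + c / 4)) * EE μ s (N * n))) (Real.exp (gx30 c C U0 q Kh Kp UB * EE μ s (N * n)))
          (Real.exp (yx30 c U0 q Kh Kp * EE μ s (N * n)))
          (Real.exp (-((qM + Q + c) * EE μ s (N * n)))) (Real.exp (mx30 c UM q Kh KM * EE μ s (N * n)))) ∧
        ∀ z ∈ Ce24 c1 (δ / 4 * wd μ s (N * n)), ∀ z' ∈ Ce24 c1 (δ / 4 * wd μ s (N * n)), z < z' →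
          ∀ x ∈ Ce24 c2 (δ / 4 * wd μ s (N * n)), ∀ y ∈ Ce24 c2 (δ / 4 * wd μ s (N * n)), x < y →
          ker (wt ω') Γ.p r1 (r2 - r1) z x * ker (wt ω') Γ.p r1 (r2 - r1) z' y -
            ker (wt ω') Γ.p r1 (r2 - r1) z y * ker (wt ω') Γ.p r1 (r2 - r1) z' x ≤
            Real.exp (-((N * n : ℕ) : ℝ) ^ c') * (ker (wt ω') Γ.p r1 (r2 - r1) z x * ker (wt ω') Γ.p r1 (r2 - r1) z' y)

/-- `blk30` in this form. -/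
theorem blk42 [IsProbabilityMeasure μ] (h : In μ s c C n₀) {δ Kb Kh U0 UM q : ℝ} (hδ : 0 < δ) (hKb : 1 + δ ≤ Kb) (hKh : Kb ≤ Kh)
    (hU0 : 0 ≤ U0) (hUM : 0 ≤ UM) (hq : 0 ≤ q) (K₀ : ℝ) :
    ∃ Kp KM : ℝ, K₀ ≤ Kp ∧ Kh + 3 ≤ Kp ∧ K₀ ≤ KM ∧ Kh + 3 ≤ KM ∧ ∀ UA UB : ℝ, 0 ≤ UA → 0 ≤ UB →
      ∃ YA YB Z : ℝ, 0 < YA ∧ 0 < YB ∧ 0 < Z ∧ ∃ N₀ n₁ : ℕ, 1 ≤ N₀ ∧ 1 ≤ n₁ ∧ ∀ N n : ℕ, N₀ ≤ N → n₁ ≤ n →
        Z * EE μ s (N * n) ≤ hc μ s c n * (δ / 32 * wd μ s (N * n)) / 4 → Blk42 μ s c C δ Kb Kh U0 UM q Kp KM UA UB YA YB N n :=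
  blk30 h hδ hKb hKh hU0 hUM hq K₀

end

end Pool.Agent.W_7d29a1_C1.Luc30
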