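import Pool.Agent.W_7d29a1_C1.PGt34
import Pool.Agent.W_7d29a1_C1.LukB42

/-!
MP_7d29a1_pr, [C1] SEP, the LANE BLOCK IN THE FRAME: ONE PROPERTY PER CHOICE. (helper69)

The nested theorems `pG34` (helper34: the probability of the lucky lane block) and `blk30` (helper30; `Blk42` of helper42: what the lucky lane
block gives) cut into properties of plain numbers, in the order of the choices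
`(dM cM qM UM) : PG1 | δ | U0 : PG2 | K₀ | (Kp KM) : BK1 | LB | (pB UB) : PG3 | LA | (pA UA) : PG4 | (YA YB Z N₀) : BK2 | N ≥ PG5 | pL : PG6`;
each property gives the next choice (`pg1_69`, `PG1.u0`, `PG2.pb`, `PG3.pa`, `PG4.nn`, `PG5.p`, `bk1_69`, `BK1.ya`).
-/

set_option autoImplicit false

namespace Pool.Agent.W_7d29a1_C1.Ln69

open Finset MeasureTheory Filter Topology
open Pool.Agent.W_7d29a1_F hiding Bw G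
open Pool.Agent.W_7d29a1_h4g Pool.Agent.W_7d29a1_H Pool.Agent.W_7d29a1_HS
open Pool.Agent.W_7d29a1_C1
open Pool.Agent.W_7d29a1_C1.H60
open Pool.Agent.W_7d29a1_C1.G37 (Gm)
open Pool.Agent.W_7d29a1_C1.D98
open Pool.Agent.W_7d29a1_C1.BP58
open Pool.Agent.W_7d29a1_C1.H75 (hc hc_nonneg)
open Pool.Agent.W_7d29a1_C1.Luc30 (Blk42 blk42)

noncomputable section

/-! ### `pG34`, one property per choice -/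

section PG

variable (μ : Measure ℝ) (s c ε Kb Kl : ℝ)

/-- The last line of `pG34`. -/
structure PG6 (dM cM qM UM δ U0 LB KpB UB LA KpA UA ρB YB ρA YA Z : ℝ) (N : ℕ) (p : ℝ) (n₁ : ℕ) : Prop where
  p0 : 0 < p
  n1 : 1 ≤ n₁
  z : ∀ n : ℕ, n₁ ≤ n → 1 ≤ wd μ s (N * n) ∧ Z * EE μ s (N * n) ≤ hc μ s c n * (ρA * wd μ s (N * n)) / 4 ∧
    Z * EE μ s (N * n) ≤ hc μ s c n * (ρB * wd μ s (N * n)) / 4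
  h1 : ∀ P : Nm98, Eq34 P Kb Kl cM qM UM δ U0 LB KpB UB LA KpA UA ρB YB ρA YA N → 0 ≤ P.rM → P.rM ≤ dM →
    ∀ (Γ : Cx) (G : Gm) (u : ℕ) (κ : ℤ × ℤ), n₁ ≤ P.nr u → G.v = sl μ s → 0 ≤ G.rcc u κ → Fit98 G P u →
    P.Kb * wd μ s (P.T u) + 1 ≤ G.kw * G.w u →
    ∀ B : Set Pt, (∀ q ∈ G.win u κ, ((rl98 Γ G P u κ : ℕ) : ℤ) < q.1 → q.1 ≤ ((rl98 Γ G P u κ + 3 * P.T u : ℕ) : ℤ) → q ∈ B) →
      (law μ).real {ω | p ≤ cP μ B (LE98 μ s c Γ G P u κ) ω}ᶜ ≤ ε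

/-- The choice of `N`: every `N` beyond `N₀` is good. -/
def PG5 (dM cM qM UM δ U0 LB KpB UB LA KpA UA ρB YB ρA YA Z : ℝ) (N₀ : ℕ) : Prop :=
  1 ≤ N₀ ∧ ∀ N : ℕ, N₀ ≤ N → ∃ (p : ℝ) (n₁ : ℕ), PG6 μ s c ε Kb Kl dM cM qM UM δ U0 LB KpB UB LA KpA UA ρB YB ρA YA Z N p n₁

/-- The choice of `pA`, `UA`. -/
def PG4 (dM cM qM UM δ U0 LB KpB UB LA KpA pA UA : ℝ) : Prop :=
  0 < pA ∧ 0 < UA ∧ ∀ ρB YB ρA YA Z : ℝ, 0 < ρB → ρB ≤ Kb → 0 < ρA → ρA ≤ Kb →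
    ∃ N₀ : ℕ, PG5 μ s c ε Kb Kl dM cM qM UM δ U0 LB KpB UB LA KpA UA ρB YB ρA YA Z N₀

/-- The choice of `pB`, `UB`. -/
def PG3 (dM cM qM UM δ U0 LB KpB pB UB : ℝ) : Prop :=
  0 < pB ∧ 0 < UB ∧ ∀ LA KpA : ℝ, 0 ≤ KpA → ∃ pA UA : ℝ, PG4 μ s c ε Kb Kl dM cM qM UM δ U0 LB KpB UB LA KpA pA UA

/-- The choice of `U0`. -/
def PG2 (dM cM qM UM δ U0 : ℝ) : Prop :=
  0 < U0 ∧ ∀ LB KpB : ℝ, 0 ≤ KpB → ∃ pB UB : ℝ, PG3 μ s c ε Kb Kl dM cM qM UM δ U0 LB KpB pB UB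

/-- The choice of `dM`, `cM`, `qM`, `UM`. -/
def PG1 (dM cM qM UM : ℝ) : Prop :=
  0 < dM ∧ 0 < cM ∧ 0 ≤ qM ∧ 0 < UM ∧ ∀ δ : ℝ, 0 < δ → 1 + δ / 32 ≤ Kb → ∃ U0 : ℝ, PG2 μ s c ε Kb Kl dM cM qM UM δ U0

/-- The specification of `pL`: half of the conditional probability. -/
def PGL (dM cM qM UM δ U0 LB Kp UB LA UA YB YA Z : ℝ) (N : ℕ) (pL : ℝ) : Prop :=
  0 < pL ∧ ∃ n₁ : ℕ, PG6 μ s c ε Kb Kl dM cM qM UM δ U0 LB Kp UB LA Kp UA (δ / 32) YB (δ / 32) YA Z N (2 * pL) n₁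

end PG

variable {μ : Measure ℝ} {s c C ε Kb Kl q : ℝ} {n₀ : ℕ} {dM cM qM UM δ U0 LB KpB pB UB LA KpA pA UA ρB YB ρA YA Z Kp KM K₀ p pL : ℝ}
  {N N₀ n₁ n₂ : ℕ}

theorem PG6.mono (h : PG6 μ s c ε Kb Kl dM cM qM UM δ U0 LB KpB UB LA KpA UA ρB YB ρA YA Z N p n₁) (hn : n₁ ≤ n₂) :
    PG6 μ s c ε Kb Kl dM cM qM UM δ U0 LB KpB UB LA KpA UA ρB YB ρA YA Z N p n₂ :=
  ⟨h.p0, h.n1.trans hn, fun n hn' => h.z n (hn.trans hn'), fun P e1 e2 e3 Γ G u κ hu => h.h1 P e1 e2 e3 Γ G u κ (hn.trans hu)⟩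

/-- `pG34`: the numbers of the middle slab. -/
theorem pg1_69 [IsProbabilityMeasure μ] (h : In μ s c C n₀) (hε : 0 < ε) (Kb : ℝ) (hKl : 0 ≤ Kl) : ∃ dM cM qM UM : ℝ, PG1 μ s c ε Kb Kl dM cM qM UM := by
  obtain ⟨dM, cM, qM, UM, h1, h2, h3, h4, H1⟩ := pG34 (μ := μ) (s := s) (c := c) h hε hKl
  refine ⟨dM, cM, qM, UM, h1, h2, h3, h4, fun δ hδ hKb => ?_⟩
  obtain ⟨U0, hU0, H2⟩ := H1 δ Kb hδ hKb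
  refine ⟨U0, hU0, fun LB KpB hB => ?_⟩
  obtain ⟨pB, hpB, UB, hUB, H3⟩ := H2 LB KpB hB
  refine ⟨pB, UB, hpB, hUB, fun LA KpA hA => ?_⟩
  obtain ⟨pA, hpA, UA, hUA, H4⟩ := H3 LA KpA hA
  refine ⟨pA, UA, hpA, hUA, fun ρB YB ρA YA Z r1 r2 r3 r4 => ?_⟩
  obtain ⟨N0, hN0, H5⟩ := H4 ρB YB ρA YA Z r1 r2 r3 r4
  refine ⟨N0, hN0, fun N hN => ?_⟩
  obtain ⟨p, hp, n1, hn1, H6, H7⟩ := H5 N hN
  exact ⟨p, n1, hp, hn1, H6, H7⟩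

/-- The level `U0`. -/
theorem PG1.u0 (h : PG1 μ s c ε Kb Kl dM cM qM UM) (hδ : 0 < δ) (hb : 1 + δ / 32 ≤ Kb) : ∃ U0 : ℝ, PG2 μ s c ε Kb Kl dM cM qM UM δ U0 :=
  h.2.2.2.2 δ hδ hb

/-- Lane B. -/
theorem PG2.pb (h : PG2 μ s c ε Kb Kl dM cM qM UM δ U0) (LB : ℝ) (hK : 0 ≤ Kp) :
    ∃ pB UB : ℝ, PG3 μ s c ε Kb Kl dM cM qM UM δ U0 LB Kp pB UB := h.2 LB Kp hK

/-- Lane A. -/
theorem PG3.pa (h : PG3 μ s c ε Kb Kl dM cM qM UM δ U0 LB KpB pB UB) (LA : ℝ) (hK : 0 ≤ Kp) :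
    ∃ pA UA : ℝ, PG4 μ s c ε Kb Kl dM cM qM UM δ U0 LB KpB UB LA Kp pA UA := h.2.2 LA Kp hK

/-- The number of pieces. -/
theorem PG4.nn (h : PG4 μ s c ε Kb Kl dM cM qM UM δ U0 LB KpB UB LA KpA pA UA) (YB YA Z : ℝ) (hδ : 0 < δ) (hb : δ / 32 ≤ Kb) :
    ∃ N₀ : ℕ, PG5 μ s c ε Kb Kl dM cM qM UM δ U0 LB KpB UB LA KpA UA (δ / 32) YB (δ / 32) YA Z N₀ :=
  h.2.2 (δ / 32) YB (δ / 32) YA Z (by positivity) hb (by positivity) hb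

/-- **The conditional probability of the lucky lane block.** -/
theorem PG5.pl (h : PG5 μ s c ε Kb Kl dM cM qM UM δ U0 LB Kp UB LA Kp UA (δ / 32) YB (δ / 32) YA Z N₀) (hN : N₀ ≤ N) :
    ∃ pL : ℝ, PGL μ s c ε Kb Kl dM cM qM UM δ U0 LB Kp UB LA UA YB YA Z N pL := by
  obtain ⟨p, n₁, H⟩ := h.2 N hN
  have hp := H.p0
  refine ⟨p / 2, by positivity, n₁, ?_⟩
  rw [mul_div_cancel₀ p (two_ne_zero' ℝ)]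
  exact H

/-! ### `blk30`, one property per choice -/

section BK

variable (μ : Measure ℝ) (s c C Kb Kl q : ℝ)

/-- The choice of `YA`, `YB`, `Z`, `N₀`. -/
def BK2 (δ U0 UM Kp KM UA UB YA YB Z : ℝ) (N₀ : ℕ) : Prop :=
  0 < YA ∧ 0 < YB ∧ 0 < Z ∧ 1 ≤ N₀ ∧ ∃ n₁ : ℕ, 1 ≤ n₁ ∧ ∀ N n : ℕ, N₀ ≤ N → n₁ ≤ n →
    Z * EE μ s (N * n) ≤ hc μ s c n * (δ / 32 * wd μ s (N * n)) / 4 → Blk42 μ s c C δ Kb Kl U0 UM q Kp KM UA UB YA YB N n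

/-- The choice of `Kp`, `KM`. -/
def BK1 (δ U0 UM K₀ Kp KM : ℝ) : Prop :=
  K₀ ≤ Kp ∧ Kl + 3 ≤ Kp ∧ K₀ ≤ KM ∧ Kl + 3 ≤ KM ∧ ∀ UA UB : ℝ, 0 ≤ UA → 0 ≤ UB →
    ∃ (YA YB Z : ℝ) (N₀ : ℕ), BK2 μ s c C Kb Kl q δ U0 UM Kp KM UA UB YA YB Z N₀

end BK

/-- `blk30`: the reach. -/
theorem bk1_69 [IsProbabilityMeasure μ] (h : In μ s c C n₀) (hδ : 0 < δ) (hKb : 1 + δ ≤ Kb) (hKl : Kb ≤ Kl) (hU0 : 0 ≤ U0)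
    (hUM : 0 ≤ UM) (hq : 0 ≤ q) (K₀ : ℝ) : ∃ Kp KM : ℝ, BK1 μ s c C Kb Kl q δ U0 UM K₀ Kp KM := by
  obtain ⟨Kp, KM, k0, k1, k3, k2, H⟩ := blk42 (μ := μ) (s := s) (c := c) (C := C) h hδ hKb hKl hU0 hUM hq K₀
  refine ⟨Kp, KM, k0, k1, k3, k2, fun UA UB hA hB => ?_⟩
  obtain ⟨YA, YB, Z, y1, y2, z1, N0, n1, hN0, hn1, H2⟩ := H UA UB hA hB
  exact ⟨YA, YB, Z, N0, y1, y2, z1, hN0, n1, hn1, H2⟩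

/-- The last numbers of `blk30`. -/
theorem BK1.ya (h : BK1 μ s c C Kb Kl q δ U0 UM K₀ Kp KM) (hA : 0 ≤ UA) (hB : 0 ≤ UB) :
    ∃ (YA YB Z : ℝ) (N₀ : ℕ), BK2 μ s c C Kb Kl q δ U0 UM Kp KM UA UB YA YB Z N₀ := h.2.2.2.2 UA UB hA hB

/-- **The lane block at the numbers of the record**: one threshold of the unit for `pG34` and `blk30`. -/
theorem ln_blk69 (hL : PGL μ s c ε Kb Kl dM cM qM UM δ U0 LB Kp UB LA UA YB YA Z N pL)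
    (hB : BK2 μ s c C Kb Kl q δ U0 UM Kp KM UA UB YA YB Z N₀) (hN : N₀ ≤ N) : ∃ n₁ : ℕ, 1 ≤ n₁ ∧
      (∀ n : ℕ, n₁ ≤ n → 1 ≤ wd μ s (N * n) ∧ Blk42 μ s c C δ Kb Kl U0 UM q Kp KM UA UB YA YB N n) ∧
      ∀ P : Nm98, Eq34 P Kb Kl cM qM UM δ U0 LB Kp UB LA Kp UA (δ / 32) YB (δ / 32) YA N → 0 ≤ P.rM → P.rM ≤ dM →
        ∀ (Γ : Cx) (G : Gm) (u : ℕ) (κ : ℤ × ℤ), n₁ ≤ P.nr u → G.v = sl μ s → 0 ≤ G.rcc u κ → Fit98 G P u →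
        P.Kb * wd μ s (P.T u) + 1 ≤ G.kw * G.w u →
        ∀ B : Set Pt, (∀ q ∈ G.win u κ, ((rl98 Γ G P u κ : ℕ) : ℤ) < q.1 → q.1 ≤ ((rl98 Γ G P u κ + 3 * P.T u : ℕ) : ℤ) → q ∈ B) →
          (law μ).real {ω | 2 * pL ≤ cP μ B (LE98 μ s c Γ G P u κ) ω}ᶜ ≤ ε := by
  obtain ⟨-, n₁, H⟩ := hL
  obtain ⟨-, -, -, -, n₂, hn₂, H2⟩ := hB
  have H' := H.mono (le_max_left n₁ n₂)
  exact ⟨max n₁ n₂, H'.n1, fun n hn => ⟨(H'.z n hn).1, H2 N n hN ((le_max_right _ _).trans hn) (H'.z n hn).2.1⟩, H'.h1⟩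

end

end Pool.Agent.W_7d29a1_C1.Ln69
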