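import Pool.Agent.W_7d29a1_C1.GateP18

/-!
MP_7d29a1_pr, [C1] SEP, THE GATE: THE LAST ROWS OF THE CORE (G3 of helper66). (helper18)

`Co18 K₁ n a Q`: from every site of the core (`|lat| ≤ K₁ w`) of the row `a.1 + 4 n` to every site of the core of the row `a.1 + 5 n` the
free weight is at least `exp (- Q E)`. It reads only the rows `(a.1 + 4 n, a.1 + 5 n]`, so no wall site (`2 m ≤ n`).
`Q = Q (K₁, ε)`, free of `K₂`.
-/

set_option autoImplicit false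

namespace Pool.Agent.W_7d29a1_C1.GL18

open MeasureTheory ProbabilityTheory Filter Topology
open Pool.Agent.W_7d29a1_F Pool.Agent.W_7d29a1_h4g Pool.Agent.W_7d29a1_H Pool.Agent.W_7d29a1_HS
open Pool.Agent.W_7d29a1_C1.U16 (LevS bx16 lat16 lev_prob lev_low box_cone)
open Pool.Agent.W_7d29a1_C1.S71 (Off)

noncomputable section

variable {μ : Measure ℝ} {s : ℝ}

/-- **CORE TO CORE** in the last `n` rows. -/
def Co18 (μ : Measure ℝ) (s K₁ : ℝ) (n : ℕ) (a : Pt) (Q : ℝ) : Set Env :=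
  {η | ∀ z v : ℤ, |lat16 μ s a (a.1 + ((4 * n : ℕ) : ℤ), z)| ≤ K₁ * wd μ s n →
    |lat16 μ s a (a.1 + ((5 * n : ℕ) : ℤ), v)| ≤ K₁ * wd μ s n →
    Real.exp (-(Q * EE μ s n)) ≤ W μ s η (a.1 + ((4 * n : ℕ) : ℤ), z) n (v - z)}

theorem co18_dep {K₁ : ℝ} {n : ℕ} {a : Pt} {Q : ℝ} {η η' : Env}
    (h : ∀ p : Pt, a.1 + ((4 * n : ℕ) : ℤ) < p.1 → p.1 ≤ a.1 + ((5 * n : ℕ) : ℤ) → η p = η' p) :
    η ∈ Co18 μ s K₁ n a Q ↔ η' ∈ Co18 μ s K₁ n a Q := by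
  have e : ∀ z v : ℤ, W μ s η (a.1 + ((4 * n : ℕ) : ℤ), z) n (v - z) = W μ s η' (a.1 + ((4 * n : ℕ) : ℤ), z) n (v - z) :=
    fun z v => WR_dep _ _ _ _ fun p hp => h p hp.1.1 (by
      have := hp.1.2.1
      dsimp only at this
      push_cast at this ⊢
      linarith)
  unfold Co18
  simp only [Set.mem_ofPred_eq, e]

theorem co18_off {n m : ℕ} (hm : 2 * m ≤ n) (K₁ K₂ : ℝ) (a : Pt) (Q : ℝ) : Off (Sw μ s K₁ K₂ n m a) (Co18 μ s K₁ n a Q) := by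
  intro η η' h
  refine co18_dep fun p h1 h2 => h p fun h3 => ?_
  rcases h3.1 with h4 | h4 <;> omega

theorem co18_rows {K₁ : ℝ} {n : ℕ} {a : Pt} {Q : ℝ} {η η' : Env} (h : ∀ p ∈ rows a.1 (a.1 + ((5 * n : ℕ) : ℤ)), η p = η' p) :
    η ∈ Co18 μ s K₁ n a Q ↔ η' ∈ Co18 μ s K₁ n a Q :=
  co18_dep fun p h1 h2 => h p ⟨by
    have : (0 : ℤ) ≤ ((4 * n : ℕ) : ℤ) := Int.natCast_nonneg _
    linarith, h2⟩

theorem co18_meas (K₁ : ℝ) (n : ℕ) (a : Pt) (Q : ℝ) : MeasurableSet (Co18 μ s K₁ n a Q) := by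
  have e : Co18 μ s K₁ n a Q = ⋂ (z : ℤ) (v : ℤ) (_ : |lat16 μ s a (a.1 + ((4 * n : ℕ) : ℤ), z)| ≤ K₁ * wd μ s n)
      (_ : |lat16 μ s a (a.1 + ((5 * n : ℕ) : ℤ), v)| ≤ K₁ * wd μ s n),
      {η | Real.exp (-(Q * EE μ s n)) ≤ W μ s η (a.1 + ((4 * n : ℕ) : ℤ), z) n (v - z)} := by
    ext η
    simp only [Set.mem_iInter]
    exact Iff.rfl
  rw [e]
  exact MeasurableSet.iInter fun z => MeasurableSet.iInter fun v => MeasurableSet.iInter fun _ => MeasurableSet.iInter fun _ =>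
    measurableSet_le measurable_const (measurable_WR _ _ _ _)

variable [IsProbabilityMeasure μ] {c C : ℝ} {n₀ : ℕ}

theorem co18_mono {K₁ Q Q' : ℝ} {n : ℕ} {a : Pt} (hQ : Q ≤ Q') : Co18 μ s K₁ n a Q ⊆ Co18 μ s K₁ n a Q' := by
  intro η hη z v hz hv
  refine le_trans (Real.exp_le_exp.2 ?_) (hη z v hz hv)
  have := EE_pos (μ := μ) (s := s) n
  nlinarith

/-- **THE PROBABILITY**: `Q = Q (K₁, ε)`. -/
theorem co18_prob (h : In μ s c C n₀) {K₁ ε : ℝ} (hK₁ : 0 ≤ K₁) (hε : 0 < ε) : ∃ Q : ℝ, 0 ≤ Q ∧ ∃ n₁ : ℕ, ∀ n : ℕ, n₁ ≤ n →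
    ∀ a : Pt, (law μ).real (Co18 μ s K₁ n a Q)ᶜ ≤ ε := by
  obtain ⟨q, hq, n1, hbx⟩ := bx_prob h (K := K₁ + 1) (ε := ε) (by linarith) hε
  obtain ⟨n2, hcc⟩ := cc_of h (K := K₁ + 1) (by linarith)
  obtain ⟨n3, hn3⟩ := eventually_atTop.1 ((wd_tendsto h).eventually_ge_atTop 1)
  refine ⟨q, hq, max (max n1 n2) n3, fun n hn a => ?_⟩
  have k1 : n1 ≤ n := le_trans (le_trans (le_max_left _ _) (le_max_left _ _)) hn
  have k2 : n2 ≤ n := le_trans (le_trans (le_max_right _ _) (le_max_left _ _)) hn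
  have hw := hn3 n (le_trans (le_max_right _ _) hn)
  refine (measureReal_mono ?_ (measure_ne_top _ _)).trans (hbx n k1 0 a)
  intro η hη hb
  refine hη fun z v hz hv => ?_
  have e : 4 * n + n = 5 * n := by ring
  refine leg_box (i := 4) (κ := 0) hw hq (hb 4 (by omega)) (hcc n k2) (r := 4 * n) (j := n) le_rfl (by omega) (by omega) ?_ ?_
  · rw [zero_mul, sub_zero, add_sub_cancel_right]
    exact hz
  · rw [e, zero_mul, sub_zero, add_sub_cancel_right]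
    exact hv

end

end Pool.Agent.W_7d29a1_C1.GL18
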