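import Pool.Agent.W_7d29a1_C1.GateG87

/-!
MP_7d29a1_pr, attractor route, [C1] SEP: PLANARITY OF THE KERNELS, over K91P, and (S0), (S1), (S3) of `gv87` from two sites per row
(helper18 86059). (helper87)

* `ker_tp2 : x ≤ x' → v ≤ v' → ker x v' * ker x' v ≤ ker x v * ker x' v'` (weights `≥ 0`);
* `far_r`, `far_l`: beyond `y₀` nothing is better than at `y₀`;
* `side87`: the three side hypotheses of `gv87`.
-/

set_option autoImplicit false

namespace Pool.Agent.W_7d29a1_C1.Gt66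

open Finset
open Pool.Agent.W_7d29a1_C1.K91P (fw bw fw_succ fw_nonneg bw_pos)
open Pool.Agent.W_7d29a1_C1.U16 (ker ker_zero ker_succ ker_eq_zero fw_ker bw_ker ker_add)

noncomputable section

variable {w : ℕ → ℤ → ℝ} {p : ℕ → ℝ} {a : ℕ}

theorem ker_nn (hw : ∀ k y, 0 ≤ w k y) (hp : ∀ k, 0 ≤ p k) (i : ℕ) : ∀ (n : ℕ) (x v : ℤ), 0 ≤ ker w p i n x v
  | 0, x, v => by
    rw [ker_zero]
    split_ifs
    · exact zero_le_one
    · exact le_rfl
  | n + 1, x, v => by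
    rw [ker_succ]
    have h1 := ker_nn hw hp i n x v
    have h2 := ker_nn hw hp i n x (v - 1)
    have h3 := hw (i + n) v
    have h4 := hw (i + n) (v - 1)
    have h5 := hp (i + n)
    positivity

/-- **PLANARITY.** -/
theorem ker_tp2 (hw : ∀ k y, 0 ≤ w k y) (hp : ∀ k, 0 ≤ p k) (i : ℕ) {x x' : ℤ} (hx : x ≤ x') : ∀ (n : ℕ) (v v' : ℤ), v ≤ v' →
    ker w p i n x v' * ker w p i n x' v ≤ ker w p i n x v * ker w p i n x' v'
  | 0, v, v', hv => by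
    rw [ker_zero, ker_zero, ker_zero, ker_zero]
    by_cases h1 : v' = x
    · by_cases h2 : v = x'
      · rw [if_pos h1, if_pos h2, if_pos (by omega), if_pos (by omega)]
      · rw [if_neg h2, mul_zero]
        exact mul_nonneg (by split_ifs <;> norm_num) (by split_ifs <;> norm_num)
    · rw [if_neg h1, zero_mul]
      exact mul_nonneg (by split_ifs <;> norm_num) (by split_ifs <;> norm_num)
  | n + 1, v, v', hv => by
    rcases eq_or_lt_of_le hv with h | h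
    · rw [h]
    · have k1 := ker_tp2 hw hp i hx n v v' hv
      have k2 := ker_tp2 hw hp i hx n v (v' - 1) (by omega)
      have k3 := ker_tp2 hw hp i hx n (v - 1) v' (by omega)
      have k4 := ker_tp2 hw hp i hx n (v - 1) (v' - 1) (by omega)
      rw [ker_succ, ker_succ, ker_succ, ker_succ]
      obtain ⟨A, hA⟩ : ∃ A, A = ker w p i n x v := ⟨_, rfl⟩
      obtain ⟨A', hA'⟩ : ∃ A', A' = ker w p i n x' v := ⟨_, rfl⟩
      obtain ⟨B, hB⟩ : ∃ B, B = ker w p i n x v' := ⟨_, rfl⟩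
      obtain ⟨B', hB'⟩ : ∃ B', B' = ker w p i n x' v' := ⟨_, rfl⟩
      obtain ⟨C, hC⟩ : ∃ C, C = ker w p i n x (v - 1) := ⟨_, rfl⟩
      obtain ⟨C', hC'⟩ : ∃ C', C' = ker w p i n x' (v - 1) := ⟨_, rfl⟩
      obtain ⟨D, hD⟩ : ∃ D, D = ker w p i n x (v' - 1) := ⟨_, rfl⟩
      obtain ⟨D', hD'⟩ : ∃ D', D' = ker w p i n x' (v' - 1) := ⟨_, rfl⟩
      rw [← hA, ← hA', ← hB, ← hB'] at k1
      rw [← hA, ← hA', ← hD, ← hD'] at k2
      rw [← hC, ← hC', ← hB, ← hB'] at k3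
      rw [← hC, ← hC', ← hD, ← hD'] at k4
      rw [← hA, ← hA', ← hB, ← hB', ← hC, ← hC', ← hD, ← hD']
      obtain ⟨u, hu⟩ : ∃ u, u = w (i + n) v := ⟨_, rfl⟩
      obtain ⟨u', hu'⟩ : ∃ u', u' = w (i + n) v' := ⟨_, rfl⟩
      obtain ⟨s, hs⟩ : ∃ s, s = w (i + n) (v - 1) := ⟨_, rfl⟩
      obtain ⟨s', hs'⟩ : ∃ s', s' = w (i + n) (v' - 1) := ⟨_, rfl⟩
      obtain ⟨r, hr⟩ : ∃ r, r = p (i + n) := ⟨_, rfl⟩
      have u0 : 0 ≤ u := hu ▸ hw _ _
      have u0' : 0 ≤ u' := hu' ▸ hw _ _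
      have s0 : 0 ≤ s := hs ▸ hw _ _
      have s0' : 0 ≤ s' := hs' ▸ hw _ _
      have r0 : 0 ≤ r := hr ▸ hp _
      rw [← hu, ← hu', ← hs, ← hs', ← hr]
      have m1 := mul_le_mul_of_nonneg_left k1 (mul_nonneg u0 u0')
      have m2 := mul_le_mul_of_nonneg_left k2 (mul_nonneg r0 (mul_nonneg u0 s0'))
      have m3 := mul_le_mul_of_nonneg_left k3 (mul_nonneg r0 (mul_nonneg s0 u0'))
      have m4 := mul_le_mul_of_nonneg_left k4 (mul_nonneg (mul_nonneg r0 r0) (mul_nonneg s0 s0'))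
      calc (u' * B + r * (s' * D)) * (u * A' + r * (s * C'))
          = u * u' * (B * A') + r * (u * s') * (D * A') + r * (s * u') * (B * C') + r * r * (s * s') * (D * C') := by ring
        _ ≤ u * u' * (A * B') + r * (u * s') * (A * D') + r * (s * u') * (C * B') + r * r * (s * s') * (C * D') := by linarith
        _ = _ := by ring

/-- Beyond `y₀` on the right. -/
theorem far_r (hw : ∀ k y, 0 ≤ w k y) (hp : ∀ k, 0 ≤ p k) {i n : ℕ} {y₀ y v v₀ : ℤ} (hy : y₀ ≤ y) (hv : v ≤ v₀) {Bv B₀ e : ℝ}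
    (hB : 0 ≤ Bv) (hk : 0 < ker w p i n y₀ v₀) (H : ker w p i n y₀ v * Bv ≤ e * (ker w p i n y₀ v₀ * B₀)) :
    ker w p i n y v * Bv ≤ e * (ker w p i n y v₀ * B₀) := by
  have h1 := ker_tp2 hw hp i hy n v v₀ hv
  have h2 := mul_le_mul_of_nonneg_right h1 hB
  have h3 := mul_le_mul_of_nonneg_left H (ker_nn hw hp i n y v₀)
  refine le_of_mul_le_mul_left (a := ker w p i n y₀ v₀) ?_ hk
  calc ker w p i n y₀ v₀ * (ker w p i n y v * Bv) = ker w p i n y₀ v₀ * ker w p i n y v * Bv := by ring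
    _ ≤ ker w p i n y₀ v * ker w p i n y v₀ * Bv := h2
    _ = ker w p i n y v₀ * (ker w p i n y₀ v * Bv) := by ring
    _ ≤ _ := h3
    _ = _ := by ring

/-- Beyond `y₀` on the left. -/
theorem far_l (hw : ∀ k y, 0 ≤ w k y) (hp : ∀ k, 0 ≤ p k) {i n : ℕ} {y₀ y v v₀ : ℤ} (hy : y ≤ y₀) (hv : v₀ ≤ v) {Bv B₀ e : ℝ}
    (hB : 0 ≤ Bv) (hk : 0 < ker w p i n y₀ v₀) (H : ker w p i n y₀ v * Bv ≤ e * (ker w p i n y₀ v₀ * B₀)) :
    ker w p i n y v * Bv ≤ e * (ker w p i n y v₀ * B₀) := by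
  have h1 := ker_tp2 hw hp i hy n v₀ v hv
  have h2 := mul_le_mul_of_nonneg_right h1 hB
  have h3 := mul_le_mul_of_nonneg_left H (ker_nn hw hp i n y v₀)
  refine le_of_mul_le_mul_left (a := ker w p i n y₀ v₀) ?_ hk
  calc ker w p i n y₀ v₀ * (ker w p i n y v * Bv) = ker w p i n y v * ker w p i n y₀ v₀ * Bv := by ring
    _ ≤ ker w p i n y v₀ * ker w p i n y₀ v * Bv := h2
    _ = ker w p i n y v₀ * (ker w p i n y₀ v * Bv) := by ring
    _ ≤ _ := h3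
    _ = _ := by ring

/-- **(S) of `gv87` at the row `r`** from the two sites `yl`, `yr` and the two ends `vl ≤ v ≤ vr`. -/
theorem side87 (hw : ∀ k y, 0 ≤ w k y) (hp : ∀ k, 0 ≤ p k) {n r : ℕ} {Vr : Finset ℤ} {yl yr vl vr v : ℤ}
    (hV : ∀ z, z ∉ Vr → z ≤ yl ∨ yr ≤ z) (h1 : vl ≤ v) (h2 : v ≤ vr) {B : ℕ → ℤ → ℝ} (hB0 : ∀ r z, 0 ≤ B r z)
    (hB : ∀ z u, ker w p (a + r) (n - r) z u * B n u ≤ B r z) {e₃ : ℝ} (he : 0 ≤ e₃)
    (kl : 0 < ker w p (a + r) (n - r) yl vl) (kr : 0 < ker w p (a + r) (n - r) yr vr)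
    (Hl : ker w p (a + r) (n - r) yl v * B n v ≤ e₃ * (ker w p (a + r) (n - r) yl vl * B n vl))
    (Hr : ker w p (a + r) (n - r) yr v * B n v ≤ e₃ * (ker w p (a + r) (n - r) yr vr * B n vr)) :
    ∀ z, z ∉ Vr → ker w p (a + r) (n - r) z v * B n v ≤ e₃ * B r z := by
  intro z hz
  rcases hV z hz with h | h
  · exact (far_l hw hp h h1 (hB0 n v) kl Hl).trans (mul_le_mul_of_nonneg_left (hB z vl) he)
  · exact (far_r hw hp h h2 (hB0 n v) kr Hr).trans (mul_le_mul_of_nonneg_left (hB z vr) he)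

/-- The future masses dominate every single end. -/
theorem bw_one (hw : ∀ k y, 0 < w k y) (hp : ∀ k, 0 < p k) {N n : ℕ} (hN : a + n ≤ N) {r : ℕ} (hr : r ≤ n) (z u : ℤ) :
    ker w p (a + r) (n - r) z u * bw w p (a + n) (N - (a + n)) u ≤ bw w p (a + r) (N - (a + r)) z := by
  have h0 : ∀ k y, 0 ≤ w k y := fun k y => (hw k y).le
  have hp0 : ∀ k, 0 ≤ p k := fun k => (hp k).le
  have e := ker_bw (w := w) (p := p) (a := a + r) (j := n - r) (N := N) (by omega) z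
  rw [show a + r + (n - r) = a + n by omega] at e
  by_cases h : z ≤ u ∧ u ≤ z + ((n - r : ℕ) : ℤ)
  · rw [← e]
    exact single_le_sum (f := fun u => ker w p (a + r) (n - r) z u * bw w p (a + n) (N - (a + n)) u)
      (fun u _ => mul_nonneg (ker_nn h0 hp0 _ _ _ _) (bw_pos hw hp _ _ _).le) (mem_Icc.2 h)
  · rw [ker_eq_zero _ _ _ _ h, zero_mul]
    exact (bw_pos hw hp _ _ _).le

/-- The same for `B r z := bw (a + r) z`. -/
theorem side87b (hw : ∀ k y, 0 < w k y) (hp : ∀ k, 0 < p k) {N n r : ℕ} (hN : a + n ≤ N) (hr : r ≤ n) {Vr : Finset ℤ}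
    {yl yr vl vr v : ℤ} (hV : ∀ z, z ∉ Vr → z ≤ yl ∨ yr ≤ z) (h1 : vl ≤ v) (h2 : v ≤ vr) {e₃ : ℝ} (he : 0 ≤ e₃)
    (kl : 0 < ker w p (a + r) (n - r) yl vl) (kr : 0 < ker w p (a + r) (n - r) yr vr)
    (Hl : ker w p (a + r) (n - r) yl v * bw w p (a + n) (N - (a + n)) v ≤
      e₃ * (ker w p (a + r) (n - r) yl vl * bw w p (a + n) (N - (a + n)) vl))
    (Hr : ker w p (a + r) (n - r) yr v * bw w p (a + n) (N - (a + n)) v ≤
      e₃ * (ker w p (a + r) (n - r) yr vr * bw w p (a + n) (N - (a + n)) vr)) :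
    ∀ z, z ∉ Vr → ker w p (a + r) (n - r) z v * bw w p (a + n) (N - (a + n)) v ≤ e₃ * bw w p (a + r) (N - (a + r)) z :=
  side87 (a := a) (B := fun r z => bw w p (a + r) (N - (a + r)) z) (fun k y => (hw k y).le) (fun k => (hp k).le) hV h1 h2
    (fun _ _ => (bw_pos hw hp _ _ _).le) (fun z u => bw_one hw hp hN hr z u) he kl kr Hl Hr

end

end Pool.Agent.W_7d29a1_C1.Gt66
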