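import Pool.Agent.W_7d29a1_C1.Wall66
import Pool.Agent.W_7d29a1_C1.SlabS20
import Pool.Agent.W_7d29a1_C1.BoxP58

/-!
MP_7d29a1_pr, [C1] SEP, the gate of helper66 / helper28: THE WALLS OFF TWO SAMPLE PATHS, IN ONE FIBRE. (helper58)

`D58 Sw Ex` = the wall event of `Wall66` for the sites of `Sw` (wall rows of the window) which are not in `Ex` (tubes, two sample paths).
`gateM58`: its probability is at least `p`, uniformly in `Sw`, `Ex` and the base point, and the same given ANY outside of a window which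
contains `Sw`. `fib58`: FKG in the fibre for functions which are nonincreasing in the sites of `Sw \ Ex`. `avg58`: the average over finitely many
pairs of sample paths.
-/

set_option autoImplicit false

namespace Pool.Agent.W_7d29a1_C1.BP58

open MeasureTheory ProbabilityTheory Filter Topology
open Pool.Agent.W_7d29a1_F Pool.Agent.W_7d29a1_h4g Pool.Agent.W_7d29a1_H Pool.Agent.W_7d29a1_HS
open Pool.Agent.W_7d29a1_HR (Dec Fin')
open Pool.Agent.W_7d29a1_C1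
open Pool.Agent.W_7d29a1_C1.S71
open Pool.Agent.W_7d29a1_C1.F31
open Pool.Agent.W_7d29a1_C1.Wall66 (WA WA_gd WA_dep Gd)

noncomputable section

variable {μ : Measure ℝ} {s c C : ℝ} {n₀ : ℕ}

/-- The walls on the sites of `Sw` which are not in `Ex`: the masses confined to them are at most `e^(B EE T)`, over `τ` rows at most
`e^(-A EE T)`, and at distance `θ wd T` from the slope at most `e^(-A EE T)`. -/
def D58 (μ : Measure ℝ) (s : ℝ) (Sw Ex : Set Pt) (a : Pt) (K T τ : ℕ) (θ A B : ℝ) : Set Env :=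
  WA μ s (Sw \ Ex) a (K * T) τ (θ * wd μ s T) (A * EE μ s T) (B * EE μ s T)

/-- The sites which the walls read. -/
def Q58 (Sw Ex : Set Pt) (a : Pt) (K T : ℕ) : Set Pt := (Sw \ Ex) ∩ rows a.1 (a.1 + (K * T : ℕ))

theorem on_D58 [IsProbabilityMeasure μ] (Sw Ex : Set Pt) (a : Pt) (K T τ : ℕ) (θ A B : ℝ) : On20 (Q58 Sw Ex a K T) (D58 μ s Sw Ex a K T τ θ A B) :=
  WA_dep (μ := μ) (s := s) (Sw \ Ex) a (K * T) τ _ _ _

theorem gd_D58 [IsProbabilityMeasure μ] {Sw : Set Pt} {a' : Pt} {r : ℝ} (hSw : Sw ⊆ tb (sl μ s) a' r) (Ex : Set Pt) (a : Pt) (K T τ : ℕ) (θ A B : ℝ) :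
    Gd (D58 μ s Sw Ex a K T τ θ A B) := WA_gd (Set.sdiff_subset.trans hSw) _ _ _ _ _

/-- **THE WALLS OFF ANY SET OF SITES.** -/
theorem gateM58 [IsProbabilityMeasure μ] (h : In μ s c C n₀) {R : ℝ} (hR : 0 ≤ R) {K : ℕ} (hK : 1 ≤ K) : ∃ B : ℝ, 0 ≤ B ∧ ∀ A θ : ℝ, 0 < θ →
    ∃ p : ℝ, 0 < p ∧ ∃ n₁ : ℕ, ∀ T : ℕ, n₁ ≤ T → ∀ (a : Pt) (Sw Ex : Set Pt) (τ : ℕ), Sw ⊆ tb (sl μ s) a (R * wd μ s T) →
      θ * T ≤ τ → p ≤ (law μ).real (D58 μ s Sw Ex a K T τ θ A B) := by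
  obtain ⟨B, hB, hw⟩ := Pool.Agent.W_7d29a1_C1.Wall66.wall (μ := μ) (s := s) h hR hK
  refine ⟨B, hB, fun A θ hθ => ?_⟩
  obtain ⟨p, hp, n₁, hp1⟩ := hw A θ hθ
  exact ⟨p, hp, n₁, fun T hT a Sw Ex τ hSw hτ => hp1 T hT a (Sw \ Ex) τ (Set.sdiff_subset.trans hSw) hτ⟩

/-! ### In one fibre -/

/-- An event which reads the sites of `Q ⊆ Bx` only: the outside does not matter. -/
theorem cP_fresh58 {Bx Q : Set Pt} {D : Set Env} (hD : On20 Q D) (hQ : Q ⊆ Bx) (ω : Env) : cP μ Bx D ω = (law μ).real D := by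
  unfold cP
  congr 1
  ext ξ
  exact gl_iff (B := Bx) (fun η η' hh => hD η η' fun p hp => hh p (Set.notMem_compl_iff.2 (hQ hp))) ξ ω

/-- The walls given any outside. -/
theorem cP_D58 [IsProbabilityMeasure μ] {Bx Sw Ex : Set Pt} {a : Pt} {K T τ : ℕ} {θ A B : ℝ}
    (hBx : ∀ p ∈ Sw, p ∈ rows a.1 (a.1 + (K * T : ℕ)) → p ∈ Bx) (ω : Env) :
    cP μ Bx (D58 μ s Sw Ex a K T τ θ A B) ω = (law μ).real (D58 μ s Sw Ex a K T τ θ A B) :=
  cP_fresh58 (on_D58 Sw Ex a K T τ θ A B) (fun _ hp => hBx _ hp.1.1 hp.2) ω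

/-- **FKG in the fibre, functions**: `F` is nonincreasing in the sites of `Q`, the event `D` is decreasing and reads `Q` only. -/
theorem fib58 [IsProbabilityMeasure μ] {Bx Q : Set Pt} {D : Set Env} (gD : Gd D) (oD : On20 Q D) (hQ : Q ⊆ Bx) {F : Env → ℝ}
    (mF : Measurable F) (hF : ∀ η η' : Env, (∀ p, η p ≤ η' p) → (∀ p, p ∉ Q → η p = η' p) → F η' ≤ F η) (ω : Env)
    (iF : Integrable (fun ξ => F (gl Bx ξ ω)) (law μ)) :
    (law μ).real D * ∫ ξ, F (gl Bx ξ ω) ∂(law μ) ≤ ∫ ξ, D.indicator F (gl Bx ξ ω) ∂(law μ) := by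
  have oQ : Off Qᶜ D := fun η η' hh => oD η η' fun p hp => hh p (Set.notMem_compl_iff.2 hp)
  have e1 : ∀ ξ : Env, D.indicator F (gl Bx ξ ω) = D.indicator (fun ξ => F (gl Bx ξ ω)) ξ := by
    intro ξ
    have h1 : gl Bx ξ ω ∈ D ↔ ξ ∈ D :=
      gl_iff (B := Bx) (fun η η' hh => oD η η' fun p hp => hh p (Set.notMem_compl_iff.2 (hQ hp))) ξ ω
    by_cases hx : ξ ∈ D
    · rw [Set.indicator_of_mem hx, Set.indicator_of_mem (h1.2 hx)]
    · rw [Set.indicator_of_notMem hx, Set.indicator_of_notMem fun h => hx (h1.1 h)]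
  rw [integral_congr_ae (Eventually.of_forall e1), integral_indicator gD.m, mul_comm]
  refine fkg_fun (μ := μ) (S := Qᶜ) (F := fun ξ => F (gl Bx ξ ω)) (C := D) (mF.comp (measurable_gl_left Bx ω)) iF gD.m
    (fun η η' h1 h2 => hF _ _ (fun p => ?_) (fun p hp => ?_)) (DecO.of_dec gD.d _) (FinO.of_fin gD.f oQ)
  · by_cases hp : p ∈ Bx
    · rw [gl_of_mem hp, gl_of_mem hp]
      exact h1 p
    · rw [gl_of_not_mem hp, gl_of_not_mem hp]
  · by_cases hpB : p ∈ Bx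
    · rw [gl_of_mem hpB, gl_of_mem hpB]
      exact h2 p hp
    · rw [gl_of_not_mem hpB, gl_of_not_mem hpB]

variable {ι : Type*}

/-- The part of `Σ F i` whose sample has the walls. -/
def Gs58 (I : Finset ι) (D : ι → Set Env) (F : ι → Env → ℝ) (η : Env) : ℝ := ∑ i ∈ I, (D i).indicator (F i) η

/-- The environments in which the samples have the walls with probability at least `q`. -/
def gd58 (I : Finset ι) (D : ι → Set Env) (F : ι → Env → ℝ) (q : ℝ) : Set Env := {η | q * ∑ i ∈ I, F i η ≤ Gs58 I D F η}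

theorem meas_Gs58 {I : Finset ι} {D : ι → Set Env} {F : ι → Env → ℝ} (mD : ∀ i ∈ I, MeasurableSet (D i)) (mF : ∀ i ∈ I, Measurable (F i)) :
    Measurable (Gs58 I D F) := Finset.measurable_sum _ fun i hi => (mF i hi).indicator (mD i hi)

theorem meas_gd58 {I : Finset ι} {D : ι → Set Env} {F : ι → Env → ℝ} (mD : ∀ i ∈ I, MeasurableSet (D i)) (mF : ∀ i ∈ I, Measurable (F i))
    (q : ℝ) : MeasurableSet (gd58 I D F q) :=
  measurableSet_le (measurable_const.mul (Finset.measurable_sum _ fun i hi => mF i hi)) (meas_Gs58 mD mF)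

/-- **THE AVERAGE OVER THE SAMPLES, in one fibre.** -/
theorem avg58 [IsProbabilityMeasure μ] (I : Finset ι) {Bx : Set Pt} {Q : ι → Set Pt} {D : ι → Set Env} {F : ι → Env → ℝ}
    (gD : ∀ i ∈ I, Gd (D i)) (oD : ∀ i ∈ I, On20 (Q i) (D i)) (hQ : ∀ i ∈ I, Q i ⊆ Bx) (mF : ∀ i ∈ I, Measurable (F i))
    (F0 : ∀ i ∈ I, ∀ η, 0 ≤ F i η)
    (hF : ∀ i ∈ I, ∀ η η' : Env, (∀ p, η p ≤ η' p) → (∀ p, p ∉ Q i → η p = η' p) → F i η' ≤ F i η) (ω : Env)
    (iF : ∀ i ∈ I, Integrable (fun ξ => F i (gl Bx ξ ω)) (law μ)) {p : ℝ} (hp0 : 0 ≤ p) (hp : ∀ i ∈ I, p ≤ (law μ).real (D i)) :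
    p / 2 * ∫ ξ, ∑ i ∈ I, F i (gl Bx ξ ω) ∂(law μ) ≤
      ∫ ξ, (gd58 I D F (p / 2)).indicator (fun η => ∑ i ∈ I, F i η) (gl Bx ξ ω) ∂(law μ) := by
  have mS : Measurable fun η : Env => ∑ i ∈ I, F i η := Finset.measurable_sum _ fun i hi => mF i hi
  have iS : Integrable (fun ξ => ∑ i ∈ I, F i (gl Bx ξ ω)) (law μ) := integrable_finsetSum _ fun i hi => iF i hi
  have mgd := meas_gd58 (fun i hi => (gD i hi).m) mF (p / 2)
  have mgl : Measurable fun ξ : Env => gl Bx ξ ω := measurable_gl_left Bx ω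
  have iI : ∀ i ∈ I, Integrable (fun ξ => (D i).indicator (F i) (gl Bx ξ ω)) (law μ) := fun i hi =>
    (iF i hi).mono' (((mF i hi).indicator (gD i hi).m).comp mgl).aestronglyMeasurable (Eventually.of_forall fun ξ => by
      rw [Real.norm_eq_abs, abs_of_nonneg (Set.indicator_nonneg (fun η _ => F0 i hi η) _)]
      exact Set.indicator_le_self' (fun η _ => F0 i hi η) _)
  have h1 : p * ∫ ξ, ∑ i ∈ I, F i (gl Bx ξ ω) ∂(law μ) ≤ ∫ ξ, Gs58 I D F (gl Bx ξ ω) ∂(law μ) := by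
    unfold Gs58
    rw [integral_finsetSum _ iF, integral_finsetSum _ iI, Finset.mul_sum]
    refine Finset.sum_le_sum fun i hi => ?_
    refine (mul_le_mul_of_nonneg_right (hp i hi) (integral_nonneg fun ξ => F0 i hi _)).trans ?_
    exact fib58 (gD i hi) (oD i hi) (hQ i hi) (mF i hi) (hF i hi) ω (iF i hi)
  have iG : Integrable (fun ξ => (gd58 I D F (p / 2)).indicator (fun η => ∑ i ∈ I, F i η) (gl Bx ξ ω)) (law μ) :=
    iS.mono' ((mS.indicator mgd).comp mgl).aestronglyMeasurable (Eventually.of_forall fun ξ => by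
      have h0 : ∀ η : Env, 0 ≤ ∑ i ∈ I, F i η := fun η => Finset.sum_nonneg fun i hi => F0 i hi η
      rw [Real.norm_eq_abs, abs_of_nonneg (Set.indicator_nonneg (fun η _ => h0 η) _)]
      exact Set.indicator_le_self' (fun η _ => h0 η) _)
  have h2 : ∫ ξ, Gs58 I D F (gl Bx ξ ω) ∂(law μ) ≤
      ∫ ξ, ((gd58 I D F (p / 2)).indicator (fun η => ∑ i ∈ I, F i η) (gl Bx ξ ω) + p / 2 * ∑ i ∈ I, F i (gl Bx ξ ω)) ∂(law μ) := by
    refine integral_mono ?_ (iG.add (iS.const_mul _)) fun ξ => ?_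
    · exact integrable_finsetSum _ iI
    · show Gs58 I D F (gl Bx ξ ω) ≤ (gd58 I D F (p / 2)).indicator (fun η => ∑ i ∈ I, F i η) (gl Bx ξ ω) + p / 2 * ∑ i ∈ I, F i (gl Bx ξ ω)
      have h0 : 0 ≤ ∑ i ∈ I, F i (gl Bx ξ ω) := Finset.sum_nonneg fun i hi => F0 i hi _
      have h3 : Gs58 I D F (gl Bx ξ ω) ≤ ∑ i ∈ I, F i (gl Bx ξ ω) :=
        Finset.sum_le_sum fun i hi => Set.indicator_le_self' (fun η _ => F0 i hi η) _
      by_cases hx : gl Bx ξ ω ∈ gd58 I D F (p / 2)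
      · rw [Set.indicator_of_mem hx]
        have := mul_nonneg (show 0 ≤ p / 2 by linarith) h0
        linarith
      · rw [Set.indicator_of_notMem hx, zero_add]
        exact (not_le.1 hx).le
  rw [integral_add iG (iS.const_mul _), integral_const_mul] at h2
  linarith

end

end Pool.Agent.W_7d29a1_C1.BP58
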