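import Pool.Agent.W_7d29a1_C1.GateW66
import Pool.Agent.W_7d29a1_C1.GateM58

/-!
MP_7d29a1_pr, attractor route, [C1] SEP: THE GATE IN THE LETTERS OF THE MODEL. (helper66)

`tilt`: the gauge. `br`: masses confined to a set of sites = `WR`. `havC`: the hypothesis of `gate` from the walls off the two paths, the
upper bounds of the window and the lower bound of the window (one line).
-/

set_option autoImplicit false

namespace Pool.Agent.W_7d29a1_C1.Gt66

open Finset MeasureTheory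
open Pool.Agent.W_7d29a1_F Pool.Agent.W_7d29a1_h4g Pool.Agent.W_7d29a1_H Pool.Agent.W_7d29a1_HS Pool.Agent.W_7d29a1_HL
open Pool.Agent.W_7d29a1_C1.K91 (wt wt_pos)
open Pool.Agent.W_7d29a1_C1.K91P (fw bw fw_succ)
open Pool.Agent.W_7d29a1_C1.U16 (ker)

noncomputable section

attribute [local instance 10] Classical.propDecidable

section Det

variable {w : ℕ → ℤ → ℝ} {p : ℕ → ℝ} {a : ℕ} {A A' : ℕ → ℤ → Prop} {m m' : ℤ → ℝ}

/-- Congruence in the weights. -/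
theorem ms_wcongr {w' : ℕ → ℤ → ℝ} {p' : ℕ → ℝ} : ∀ (n : ℕ) (y : ℤ), (∀ k, a ≤ k → k < a + n → w k = w' k ∧ p k = p' k) →
    ms w p a A m n y = ms w' p' a A m n y
  | 0, _, _ => rfl
  | n + 1, y, h => by
    have h1 := h (a + n) (by omega) (by omega)
    have i1 := ms_wcongr n y fun k hk hk' => h k hk (by omega)
    have i2 := ms_wcongr n (y - 1) fun k hk hk' => h k hk (by omega)
    by_cases hA : A (n + 1) y
    · rw [ms_in hA, ms_in hA, i1, i2, h1.1, h1.2]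
    · rw [ms_off hA, ms_off hA]

/-- THE GAUGE. -/
theorem tilt (κ τ : ℝ) : ∀ (n : ℕ) (y : ℤ),
    ms (fun k y => Real.exp (-κ) * w k y) (fun k => Real.exp (-τ) * p k) a A (fun x => Real.exp (-(τ * x)) * m x) n y =
      Real.exp (-(n * κ + τ * y)) * ms w p a A m n y
  | 0, y => by
    by_cases hA : A 0 y
    · show (if A 0 y then _ else _) = _ * (if A 0 y then _ else _)
      rw [if_pos hA, if_pos hA]
      push_cast
      rw [zero_mul, zero_add]
    · rw [ms_off hA, ms_off hA, mul_zero]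
  | n + 1, y => by
    have i1 := tilt κ τ n y
    have i2 := tilt κ τ n (y - 1)
    by_cases hA : A (n + 1) y
    · rw [ms_in hA, ms_in hA, i1, i2]
      have e1 : Real.exp (-((n + 1 : ℕ) * κ + τ * y)) = Real.exp (-κ) * Real.exp (-(n * κ + τ * y)) := by
        rw [← Real.exp_add]
        congr 1
        push_cast
        ring
      have e2 : Real.exp (-(n * κ + τ * ((y - 1 : ℤ) : ℝ))) * Real.exp (-τ) = Real.exp (-(n * κ + τ * y)) := by
        rw [← Real.exp_add]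
        congr 1
        push_cast
        ring
      rw [e1, ← e2]
      ring
    · rw [ms_off hA, ms_off hA, mul_zero]

/-- The first row goes into the masses. -/
theorem first_row (n : ℕ) (y : ℤ) : ms w p a A m (n + 1) y =
    ms (Function.update w a fun _ => 1) p a A (fun x => w a x * m x) (n + 1) y := by
  induction n generalizing y with
  | zero =>
    by_cases hA : A (0 + 1) y
    · rw [ms_in hA, ms_in hA]
      have h0 : ∀ z, ms (Function.update w a fun _ => 1) p a A (fun x => w a x * m x) 0 z = w a z * ms w p a A m 0 z := by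
        intro z
        show (if A 0 z then _ else _) = _ * (if A 0 z then _ else _)
        split_ifs <;> simp
      rw [h0, h0, add_zero, Function.update_self]
      ring
    · rw [ms_off hA, ms_off hA]
  | succ n ih =>
    by_cases hA : A (n + 1 + 1) y
    · rw [ms_in hA, ms_in hA, ih y, ih (y - 1), Function.update_of_ne (by omega)]
    · rw [ms_off hA, ms_off hA]

end Det

/-! ### The bridge -/

variable {μ : Measure ℝ} {s : ℝ}

theorem WR_last (S : Set Pt) (η : Env) (q : Pt) (n : ℕ) (y : ℤ) : WR μ s S η q (n + 1) y =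
    S.indicator (fun p => Real.exp (-lam μ s) * Real.exp (η p)) (q.1 + (n + 1), q.2 + y) *
      (WR μ s S η q n y + Real.exp s * WR μ s S η q n (y - 1)) := by
  unfold WR
  have e1 : Zr S η q (n + 1) y = S.indicator (fun p => Real.exp (η p)) (q.1 + (n + 1), q.2 + y) *
      (Zr S η q n y + Zr S η q n (y - 1)) := rfl
  have e2 : Real.exp (s * y - ((n + 1 : ℕ) : ℝ) * lam μ s) = Real.exp (-lam μ s) * Real.exp (s * y - n * lam μ s) := by
    rw [← Real.exp_add]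
    congr 1
    push_cast
    ring
  have e3 : Real.exp s * Real.exp (s * ((y - 1 : ℤ) : ℝ) - n * lam μ s) = Real.exp (s * y - n * lam μ s) := by
    rw [← Real.exp_add]
    congr 1
    push_cast
    ring
  rw [e1, e2, ← mul_assoc (Real.exp s), e3]
  by_cases h : ((q.1 + (n + 1), q.2 + y) : Pt) ∈ S
  · rw [Set.indicator_of_mem h, Set.indicator_of_mem h]
    ring
  · rw [Set.indicator_of_notMem h, Set.indicator_of_notMem h]
    ring

/-- Confined to the set of sites `S` (the start is free). -/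
def AS (S : Set Pt) (i : ℕ) : ℕ → ℤ → Prop := fun r z => r = 0 ∨ (((i + r : ℕ) : ℤ), z) ∈ S

/-- THE BRIDGE: confined masses, gauge free weights. -/
theorem br {w : ℕ → ℤ → ℝ} {p : ℕ → ℝ} (η : Env) (S : Set Pt) (i : ℕ) (x : ℤ) : ∀ (n : ℕ),
    (∀ k, i < k → k ≤ i + n → ∀ y, w k y = Real.exp (-lam μ s) * Real.exp (η ((k : ℤ), y))) →
    (∀ k, i ≤ k → k ≤ i + n → p k = Real.exp s) → ∀ y : ℤ, ms w p i (AS S i) (dl x) (n + 1) y =
      if (((i + (n + 1) : ℕ) : ℤ), y) ∈ S then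
        w i x * (WR μ s S η ((i : ℤ), x) n (y - x) + Real.exp s * WR μ s S η ((i : ℤ), x) n (y - x - 1)) else 0
  | 0, _, hp, y => by
    have hA : AS S i (0 + 1) y ↔ (((i + (0 + 1) : ℕ) : ℤ), y) ∈ S := by
      unfold AS
      simp
    have e0 : ∀ z, ms w p i (AS S i) (dl x) 0 z = dl x z := fun z => if_pos (Or.inl rfl)
    have eW : ∀ z : ℤ, WR μ s S η ((i : ℤ), x) 0 z = if z = 0 then 1 else 0 := by
      intro z
      unfold WR
      show Real.exp (s * z - ((0 : ℕ) : ℝ) * lam μ s) * (if z = 0 then 1 else 0) = _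
      split_ifs with h1
      · subst h1
        simp
      · simp
    by_cases h : (((i + (0 + 1) : ℕ) : ℤ), y) ∈ S
    · rw [if_pos h, ms_in (hA.2 h), e0, e0, eW, eW, add_zero, hp i le_rfl (by omega)]
      unfold dl
      by_cases g1 : y = x
      · rw [if_pos g1, if_neg (show ¬ y - 1 = x by omega), if_pos (show y - x = 0 by omega), if_neg (show ¬ y - x - 1 = 0 by omega), g1]
        ring
      · by_cases g2 : y - 1 = x
        · rw [if_neg g1, if_pos g2, if_neg (show ¬ y - x = 0 by omega), if_pos (show y - x - 1 = 0 by omega), g2]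
          ring
        · rw [if_neg g1, if_neg g2, if_neg (by omega), if_neg (by omega)]
          ring
    · rw [if_neg h, ms_off fun h1 => h (hA.1 h1)]
  | n + 1, hw, hp, y => by
    have i1 := br η S i x n (fun k h1 h2 => hw k h1 (by omega)) (fun k h1 h2 => hp k h1 (by omega)) y
    have i2 := br η S i x n (fun k h1 h2 => hw k h1 (by omega)) (fun k h1 h2 => hp k h1 (by omega)) (y - 1)
    have hA : AS S i (n + 1 + 1) y ↔ (((i + (n + 1 + 1) : ℕ) : ℤ), y) ∈ S := by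
      unfold AS
      simp
    have key : ∀ z : ℤ, ms w p i (AS S i) (dl x) (n + 1) z = (if (((i + (n + 1) : ℕ) : ℤ), z) ∈ S then
        w i x * (WR μ s S η ((i : ℤ), x) n (z - x) + Real.exp s * WR μ s S η ((i : ℤ), x) n (z - x - 1)) else 0) →
        w (i + (n + 1)) z * ms w p i (AS S i) (dl x) (n + 1) z = w i x * WR μ s S η ((i : ℤ), x) (n + 1) (z - x) := by
      intro z hz
      rw [hz, WR_last, hw (i + (n + 1)) (by omega) (by omega)]
      have e : ((((i : ℤ), x) : Pt).1 + ((n : ℤ) + 1), (((i : ℤ), x) : Pt).2 + (z - x)) = (((i + (n + 1) : ℕ) : ℤ), z) := by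
        ext
        · show (i : ℤ) + ((n : ℤ) + 1) = ((i + (n + 1) : ℕ) : ℤ)
          push_cast
          ring
        · show x + (z - x) = z
          ring
      rw [e]
      by_cases h : (((i + (n + 1) : ℕ) : ℤ), z) ∈ S
      · rw [if_pos h, Set.indicator_of_mem h]
        ring
      · rw [if_neg h, Set.indicator_of_notMem h]
        ring
    by_cases h : (((i + (n + 1 + 1) : ℕ) : ℤ), y) ∈ S
    · rw [if_pos h, ms_in (hA.2 h), key y i1, key (y - 1) i2, hp (i + (n + 1)) (by omega) (by omega)]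
      have e2 : y - 1 - x = y - x - 1 := by ring
      rw [e2]
      ring
    · rw [if_neg h, ms_off fun h1 => h (hA.1 h1)]

theorem WR_off (S : Set Pt) (η : Env) (q : Pt) (n : ℕ) {y : ℤ} (h : y ∉ Icc (0 : ℤ) n) : WR μ s S η q n y = 0 := by
  unfold WR
  rw [Zr_out S η q n y (by
    rw [mem_Icc] at h
    omega), mul_zero]

theorem sum_WR_le (S : Set Pt) (η : Env) (q : Pt) (n : ℕ) (F : Finset ℤ) (x : ℤ) :
    ∑ y ∈ F, WR μ s S η q n (y - x) ≤ cS μ s S η q n := by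
  have h1 : ∑ y ∈ F, WR μ s S η q n (y - x) = ∑ z ∈ F.image fun y => y - x, WR μ s S η q n z :=
    (sum_image fun y _ z _ h => by simpa using h).symm
  rw [h1, ← sum_filter_add_sum_filter_not (F.image fun y => y - x) (fun z => z ∈ Icc (0 : ℤ) n)]
  have h2 : ∑ z ∈ (F.image fun y => y - x) with z ∉ Icc (0 : ℤ) n, WR μ s S η q n z = 0 :=
    sum_eq_zero fun z hz => WR_off S η q n (mem_filter.1 hz).2
  rw [h2, add_zero]
  exact sum_le_sum_of_subset_of_nonneg (fun z hz => (mem_filter.1 hz).2) fun z _ _ => WR_nonneg S η q n z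

theorem WR_le_cS (S : Set Pt) (η : Env) (q : Pt) (n : ℕ) (y : ℤ) : WR μ s S η q n y ≤ cS μ s S η q n := by
  have h := sum_WR_le (μ := μ) (s := s) S η q n {y} 0
  simpa using h

/-- The confined masses, summed over the end points. -/
theorem br_sum {w : ℕ → ℤ → ℝ} {p : ℕ → ℝ} (hw0 : ∀ k y, 0 ≤ w k y) (hp0 : ∀ k, 0 ≤ p k) {A : ℕ → ℤ → Prop} (η : Env)
    (S : Set Pt) (i n : ℕ) (x : ℤ)
    (hw : ∀ k, i < k → k ≤ i + n → ∀ y, w k y = Real.exp (-lam μ s) * Real.exp (η ((k : ℤ), y)))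
    (hp : ∀ k, i ≤ k → k ≤ i + n → p k = Real.exp s)
    (hA : ∀ r z, 1 ≤ r → r ≤ n + 1 → A r z → (((i + r : ℕ) : ℤ), z) ∈ S) (F : Finset ℤ) :
    ∑ y ∈ F, ms w p i A (dl x) (n + 1) y ≤ (1 + Real.exp s) * (w i x * cS μ s S η ((i : ℤ), x) n) := by
  have h1 : ∀ y, ms w p i A (dl x) (n + 1) y ≤ w i x * (WR μ s S η ((i : ℤ), x) n (y - x) +
      Real.exp s * WR μ s S η ((i : ℤ), x) n (y - x - 1)) := by
    intro y
    have h2 : ms w p i A (dl x) (n + 1) y = ms w p i (fun r z => A r z ∧ r ≤ n + 1) (dl x) (n + 1) y :=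
      ms_congr (fun j hj z => ⟨fun h => ⟨h, hj⟩, fun h => h.1⟩) y
    rw [h2]
    refine (ms_mono hw0 hp0 (dl_nonneg x) (A' := AS S i) (fun j z h => ?_) (fun _ => le_rfl) (n + 1) y).trans ?_
    · rcases Nat.eq_zero_or_pos j with h3 | h3
      · exact Or.inl h3
      · exact Or.inr (hA j z h3 h.2 h.1)
    · rw [br (μ := μ) (s := s) η S i x n hw hp y]
      have h4 : 0 ≤ w i x * (WR μ s S η ((i : ℤ), x) n (y - x) + Real.exp s * WR μ s S η ((i : ℤ), x) n (y - x - 1)) :=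
        mul_nonneg (hw0 _ _) (add_nonneg (WR_nonneg _ _ _ _ _) (mul_nonneg (Real.exp_pos _).le (WR_nonneg _ _ _ _ _)))
      split_ifs
      · exact le_rfl
      · exact h4
  calc ∑ y ∈ F, ms w p i A (dl x) (n + 1) y ≤ ∑ y ∈ F, w i x * (WR μ s S η ((i : ℤ), x) n (y - x) +
        Real.exp s * WR μ s S η ((i : ℤ), x) n (y - x - 1)) := sum_le_sum fun y _ => h1 y
    _ = w i x * (∑ y ∈ F, WR μ s S η ((i : ℤ), x) n (y - x) + Real.exp s * ∑ y ∈ F, WR μ s S η ((i : ℤ), x) n (y - (x + 1))) := by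
        rw [← mul_sum, sum_add_distrib, ← mul_sum]
        congr 3
        refine sum_congr rfl fun y _ => ?_
        rw [sub_sub]
    _ ≤ w i x * (cS μ s S η ((i : ℤ), x) n + Real.exp s * cS μ s S η ((i : ℤ), x) n) :=
        mul_le_mul_of_nonneg_left (add_le_add (sum_WR_le _ _ _ _ _ _)
          (mul_le_mul_of_nonneg_left (sum_WR_le _ _ _ _ _ _) (Real.exp_pos _).le)) (hw0 _ _)
    _ = _ := by ring

/-- The free masses from below. -/
theorem br_low {w : ℕ → ℤ → ℝ} {p : ℕ → ℝ} (η : Env) (i n : ℕ) (x y : ℤ)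
    (hw : ∀ k, i < k → k ≤ i + n → ∀ y, w k y = Real.exp (-lam μ s) * Real.exp (η ((k : ℤ), y)))
    (hp : ∀ k, i ≤ k → k ≤ i + n → p k = Real.exp s) :
    Real.exp (-lam μ s) * Real.exp (η (((i + (n + 1) : ℕ) : ℤ), y)) * ker w p i (n + 1) x y =
      w i x * W μ s η ((i : ℤ), x) (n + 1) (y - x) := by
  have h1 : ker w p i (n + 1) x y = ms w p i (AS Set.univ i) (dl x) (n + 1) y := by
    rw [← ms_ker]
    exact ms_congr (fun j _ z => ⟨fun _ => Or.inr trivial, fun _ => trivial⟩) y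
  rw [h1, br (μ := μ) (s := s) η Set.univ i x n hw hp y, if_pos (Set.mem_univ _)]
  unfold W
  rw [WR_last, Set.indicator_univ]
  have e : ((((i : ℤ), x) : Pt).1 + ((n : ℤ) + 1), (((i : ℤ), x) : Pt).2 + (y - x)) = (((i + (n + 1) : ℕ) : ℤ), y) := by
    ext
    · show (i : ℤ) + ((n : ℤ) + 1) = ((i + (n + 1) : ℕ) : ℤ)
      push_cast
      ring
    · show x + (y - x) = y
      ring
  rw [e]
  ring

/-! ### The hypothesis of `gate` -/

/-- `walls` and one lower bound. -/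
theorem hav2 {w : ℕ → ℤ → ℝ} {p : ℕ → ℝ} {a : ℕ} {m : ℤ → ℝ} (hw : ∀ k y, 0 ≤ w k y) (hp : ∀ k, 0 ≤ p k) (hm : ∀ y, 0 ≤ m y)
    {V Co TL TR : ℕ → ℤ → Prop} {F : ℕ → Finset ℤ}
    (hV : ∀ j y, V j y ↔ y ∈ F j) {I : Finset ℤ} {j₁ l₁ j₃ l₃ n : ℕ} (h12 : j₁ + l₁ ≤ n) (h34 : j₃ + l₃ ≤ n)
    (hTL : ∀ j, j₁ ≤ j → j ≤ j₁ + l₁ → ∀ x y, TL j x → Co j y → x < y)
    (hTR : ∀ j, j₃ ≤ j → j ≤ j₃ + l₃ → ∀ x y, TR j x → Co j y → y < x) {U ε : ℝ} (hU0 : 0 ≤ U) (hε : 0 ≤ ε)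
    {π π' : Pa n} (hπ : π ∈ Ps Co I n) (hπ' : π' ∈ Ps Co I n) {v : ℤ}
    (hU1 : ∀ x ∈ F 0, ∑ y ∈ F j₁, ms w p a V (dl x) j₁ y ≤ U)
    (hU2 : ∀ x ∈ F (j₁ + l₁), ∀ y, ms w p (a + (j₁ + l₁)) (fun r z => V (j₁ + l₁ + r) z) (dl x) (n - (j₁ + l₁)) y ≤ U)
    (hU3 : ∀ x ∈ F 0, ∑ y ∈ F j₃, ms w p a V (dl x) j₃ y ≤ U)
    (hU4 : ∀ x ∈ F (j₃ + l₃), ∀ y, ms w p (a + (j₃ + l₃)) (fun r z => V (j₃ + l₃ + r) z) (dl x) (n - (j₃ + l₃)) y ≤ U)
    (hε1 : ∀ x ∈ F j₁, ∑ y ∈ F (j₁ + l₁), ms w p (a + j₁)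
      (fun r z => V (j₁ + r) z ∧ ¬ TL (j₁ + r) z ∧ A2 π π' (j₁ + r) z) (dl x) l₁ y ≤ ε)
    (hε3 : ∀ x ∈ F j₃, ∑ y ∈ F (j₃ + l₃), ms w p (a + j₃)
      (fun r z => V (j₃ + r) z ∧ ¬ TR (j₃ + r) z ∧ A2 π π' (j₃ + r) z) (dl x) l₃ y ≤ ε)
    {c : ℝ} (hc : 0 < c) (lo : ∀ x ∈ F 0, c ≤ ker w p a n x v) :
    ms w p a (fun j x => A2 π π' j x ∧ V j x) m n v ≤ 2 * U ^ 2 * ε / c * ms w p a All m n v := by
  have hA := walls (a := a) (w := w) (p := p) (m := m) hw hp hm hV h12 h34 hTL hTR hU0 hε hπ hπ' (v := v) hU1 hU2 hU3 hU4 hε1 hε3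
  have hB : c * ∑ x ∈ F 0, m x ≤ ms w p a All m n v := by
    have e := ms_expand (w := w) (p := p) (a := a) (A := All) (m := fun x => if x ∈ F 0 then m x else 0) (F := F 0)
      (fun y hy => if_neg hy) n v
    have b := ms_mono (w := w) (p := p) (a := a) (A := All) (A' := All) (m := fun x => if x ∈ F 0 then m x else 0) (m' := m)
      hw hp hm (fun _ _ h => h) (fun y => by
        show (if y ∈ F 0 then m y else 0) ≤ m y
        split_ifs
        · exact le_rfl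
        · exact hm y) n v
    rw [e] at b
    refine le_trans ?_ b
    rw [mul_sum]
    refine sum_le_sum fun x hx => ?_
    simp only [if_pos hx]
    rw [ms_ker, mul_comm]
    exact mul_le_mul_of_nonneg_left (lo x hx) (hm x)
  refine hA.trans ?_
  rw [div_mul_eq_mul_div, le_div_iff₀ hc]
  have h5 : 0 ≤ 2 * U ^ 2 * ε := by positivity
  calc 2 * (U * ε * U * ∑ x ∈ F 0, m x) * c = 2 * U ^ 2 * ε * (c * ∑ x ∈ F 0, m x) := by ring
    _ ≤ _ := mul_le_mul_of_nonneg_left hB h5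

/-- The sites of two paths of the block which starts at the row `a`. -/
def Ex66 (a : ℕ) {n : ℕ} (π π' : Pa n) : Set Pt := {q | ∃ (j : ℕ) (x : ℤ), (onp π j x ∨ onp π' j x) ∧ q = (((a + j : ℕ) : ℤ), x)}

theorem mem_Ex66 {a n : ℕ} {π π' : Pa n} {j : ℕ} {x : ℤ} : (((a + j : ℕ) : ℤ), x) ∈ Ex66 a π π' ↔ onp π j x ∨ onp π' j x := by
  constructor
  · rintro ⟨j', x', h, e⟩
    have h1 := congrArg Prod.fst e
    have h2 := congrArg Prod.snd e
    simp only at h1 h2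
    have h3 : j = j' := by
      have : ((a + j : ℕ) : ℤ) = ((a + j' : ℕ) : ℤ) := h1
      omega
    rw [h2, h3]
    exact h
  · intro h
    exact ⟨j, x, h, rfl⟩

/-- The constant of `havC`. -/
def C66 (μ : Measure ℝ) (s : ℝ) : ℝ := 2 * (1 + Real.exp s) ^ 3 * (1 + Real.exp (-lam μ s)) ^ 2 * Real.exp (-lam μ s) ^ 2

theorem C66_pos : 0 < C66 μ s := by
  have := Real.exp_pos s
  have := Real.exp_pos (-lam μ s)
  unfold C66
  positivity

/-- **THE HYPOTHESIS OF `gate` INSIDE THE WINDOW, in the letters of the model.** Rows `a, …, a + n`, strips `j₁ … j₁ + l₁` and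
`j₃ … j₃ + l₃`. -/
theorem havC (η : Env) {p : ℕ → ℝ} (hp0 : ∀ k, 0 ≤ p k) {h : ℝ} {a j₁ l₁ j₃ l₃ n : ℕ} (hj1 : 1 ≤ j₁) (hl1 : 1 ≤ l₁) (hj3 : 1 ≤ j₃)
    (hl3 : 1 ≤ l₃) (h12 : j₁ + l₁ < n) (h34 : j₃ + l₃ < n) (hp : ∀ k, a ≤ k → k < a + n → p k = Real.exp (s + h))
    {m : ℤ → ℝ} (hm : ∀ y, 0 ≤ m y) {V Co : ℕ → ℤ → Prop} {F : ℕ → Finset ℤ} (hV : ∀ j y, V j y ↔ y ∈ F j) {I : Finset ℤ}
    {Sw : Set Pt}
    (S1 : ∀ j, j₁ < j → j ≤ j₁ + l₁ → ∀ x y, V j x → (((a + j : ℕ) : ℤ), x) ∉ Sw → Co j y → x < y)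
    (S2 : ∀ j, j₃ < j → j ≤ j₃ + l₃ → ∀ x y, V j x → (((a + j : ℕ) : ℤ), x) ∉ Sw → Co j y → y < x)
    {U : ℝ} (hU : 1 ≤ U)
    (up : ∀ j x, (j = 0 ∨ j = j₁ + l₁ ∨ j = j₃ + l₃) → V j x → ∀ r, j + r ≤ n → cS μ s Set.univ η (((a + j : ℕ) : ℤ), x) r ≤ U)
    (wu : ∀ j x, (j = j₁ ∨ j = j₁ + l₁ ∨ j = j₃ ∨ j = j₃ + l₃) → V j x → wt η (a + j) x ≤ U)
    {π π' : Pa n} (hπ : π ∈ Ps Co I n) (hπ' : π' ∈ Ps Co I n) {ε : ℝ} (hε : 0 ≤ ε)
    (D1 : ∀ x, V j₁ x → cS μ s (Sw \ Ex66 a π π') η (((a + j₁ : ℕ) : ℤ), x) (l₁ - 1) ≤ ε)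
    (D3 : ∀ x, V j₃ x → cS μ s (Sw \ Ex66 a π π') η (((a + j₃ : ℕ) : ℤ), x) (l₃ - 1) ≤ ε)
    {c : ℝ} (hc : 0 < c) {v : ℤ} (hv : wt η (a + n) v ≤ U) (lo : ∀ x, V 0 x → c ≤ W μ s η ((a : ℤ), x) n (v - x)) :
    ms (wt η) p a (fun j x => A2 π π' j x ∧ V j x) m n v ≤ C66 μ s * U ^ 6 * ε / c * ms (wt η) p a All m n v := by
  set L : ℝ := Real.exp (-lam μ s) with hL
  set es : ℝ := Real.exp s with hes
  have L0 : 0 < L := Real.exp_pos _
  have es0 : 0 < es := Real.exp_pos _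
  have U0 : 0 < U := lt_of_lt_of_le one_pos hU
  set w₁ : ℕ → ℤ → ℝ := fun k y => L * wt η k y with hw₁
  set p' : ℕ → ℝ := fun k => Real.exp (-h) * p k with hp'
  set m₁ : ℤ → ℝ := fun x => Real.exp (-(h * x)) * m x with hm₁
  set w₂ : ℕ → ℤ → ℝ := Function.update w₁ a fun _ => 1 with hw₂
  set m₂ : ℤ → ℝ := fun x => w₁ a x * m₁ x with hm₂
  have w1p : ∀ k y, 0 < w₁ k y := fun k y => mul_pos L0 (wt_pos _ _ _)
  have w20 : ∀ k y, 0 ≤ w₂ k y := by
    intro k y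
    rw [hw₂]
    by_cases hk : k = a
    · subst hk
      rw [Function.update_self]
      exact zero_le_one
    · rw [Function.update_of_ne hk]
      exact (w1p k y).le
  have p'0 : ∀ k, 0 ≤ p' k := fun k => mul_nonneg (Real.exp_pos _).le (hp0 k)
  have m20 : ∀ y, 0 ≤ m₂ y := fun y => mul_nonneg (w1p _ _).le (mul_nonneg (Real.exp_pos _).le (hm y))
  have w2in : ∀ k, a < k → ∀ y, w₂ k y = L * Real.exp (η ((k : ℤ), y)) := by
    intro k hk y
    rw [hw₂, Function.update_of_ne (by omega), hw₁]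
    show L * wt η k y = _
    unfold wt
    rw [if_neg (by omega)]
  have w2a : ∀ x, w₂ a x = 1 := fun x => by rw [hw₂, Function.update_self]
  have w2wt : ∀ k, a < k → ∀ y, w₂ k y = L * wt η k y := fun k hk y => by rw [hw₂, Function.update_of_ne (by omega)]
  have p'e : ∀ k, a ≤ k → k < a + n → p' k = es := by
    intro k h1 h2
    rw [hp']
    show Real.exp (-h) * p k = es
    rw [hp k h1 h2, ← Real.exp_add]
    congr 1
    ring
  -- the transfer
  have tr : ∀ (A : ℕ → ℤ → Prop), Real.exp (-(n * lam μ s + h * v)) * ms (wt η) p a A m n v = ms w₂ p' a A m₂ n v := by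
    intro A
    rw [← tilt (lam μ s) h n v]
    obtain ⟨n', rfl⟩ : ∃ n', n = n' + 1 := ⟨n - 1, by omega⟩
    exact first_row n' v
  -- one kernel
  have one : ∀ (j l : ℕ) (x : ℤ) (A : ℕ → ℤ → Prop) (S : Set Pt) (G : Finset ℤ), 1 ≤ l → j + l ≤ n →
      (∀ r z, 1 ≤ r → r ≤ l → A r z → (((a + j + r : ℕ) : ℤ), z) ∈ S) →
      ∑ y ∈ G, ms w₂ p' (a + j) A (dl x) l y ≤ (1 + es) * (w₂ (a + j) x * cS μ s S η (((a + j : ℕ) : ℤ), x) (l - 1)) := by
    intro j l x A S G hl hjl hA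
    obtain ⟨l', rfl⟩ : ∃ l', l = l' + 1 := ⟨l - 1, by omega⟩
    have e : l' + 1 - 1 = l' := by omega
    rw [e]
    exact br_sum w20 p'0 η S (a + j) l' x (fun k h1 h2 y => w2in k (by omega) y) (fun k h1 h2 => p'e k (by omega) (by omega)) hA G
  set UU : ℝ := (1 + es) * ((1 + L) * U ^ 2) with hUU
  have UU0 : 0 ≤ UU := by positivity
  have hUs : U ≤ U ^ 2 := by nlinarith
  have up0 : ∀ x ∈ F 0, ∀ l, 1 ≤ l → l ≤ n → ∀ (A : ℕ → ℤ → Prop) (G : Finset ℤ), ∑ y ∈ G, ms w₂ p' a A (dl x) l y ≤ UU := by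
    intro x hx l hl hln A G
    have h1 := one 0 l x A Set.univ G hl (by omega) (fun _ _ _ _ _ => trivial)
    rw [add_zero, w2a, one_mul] at h1
    have h2 := up 0 x (Or.inl rfl) ((hV 0 x).2 hx) (l - 1) (by omega)
    rw [add_zero] at h2
    refine h1.trans (mul_le_mul_of_nonneg_left (h2.trans (hUs.trans ?_)) (by positivity))
    have : 0 ≤ L * U ^ 2 := by positivity
    linarith
  have upj : ∀ j, (j = j₁ + l₁ ∨ j = j₃ + l₃) → ∀ x ∈ F j, ∀ (A : ℕ → ℤ → Prop) (y : ℤ), ms w₂ p' (a + j) A (dl x) (n - j) y ≤ UU := by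
    intro j hj0 x hx A y
    have hj : 1 ≤ j := by omega
    have hjn : j < n := by omega
    have h1 := one j (n - j) x A Set.univ {y} (by omega) (by omega) (fun _ _ _ _ _ => trivial)
    rw [sum_singleton] at h1
    have h2 := up j x (by omega) ((hV j x).2 hx) (n - j - 1) (by omega)
    have h3 := wu j x (by omega) ((hV j x).2 hx)
    rw [w2wt (a + j) (by omega)] at h1
    refine h1.trans (mul_le_mul_of_nonneg_left ?_ (by positivity))
    have h4 : 0 ≤ cS μ s Set.univ η (((a + j : ℕ) : ℤ), x) (n - j - 1) := sum_nonneg fun y _ => WR_nonneg _ _ _ _ _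
    calc L * wt η (a + j) x * cS μ s Set.univ η (((a + j : ℕ) : ℤ), x) (n - j - 1) ≤ L * U * U :=
          mul_le_mul (mul_le_mul_of_nonneg_left h3 L0.le) h2 h4 (by positivity)
      _ ≤ (1 + L) * U ^ 2 := by nlinarith [sq_nonneg U]
  have epj : ∀ j l, (j = j₁ ∨ j = j₃) → 1 ≤ l → j + l < n → ∀ x ∈ F j, (∀ x, V j x → cS μ s (Sw \ Ex66 a π π') η (((a + j : ℕ) : ℤ), x) (l - 1) ≤ ε) →
      ∀ (A : ℕ → ℤ → Prop), (∀ r z, 1 ≤ r → r ≤ l → A r z → (((a + j + r : ℕ) : ℤ), z) ∈ Sw \ Ex66 a π π') →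
      ∑ y ∈ F (j + l), ms w₂ p' (a + j) A (dl x) l y ≤ (1 + es) * (L * U * ε) := by
    intro j l hj hl hjl x hx hD A hA
    have h1 := one j l x A (Sw \ Ex66 a π π') (F (j + l)) hl (by omega) hA
    have h3 := wu j x (by omega) ((hV j x).2 hx)
    rw [w2wt (a + j) (by omega)] at h1
    refine h1.trans (mul_le_mul_of_nonneg_left ?_ (by positivity))
    have h4 : 0 ≤ cS μ s (Sw \ Ex66 a π π') η (((a + j : ℕ) : ℤ), x) (l - 1) := sum_nonneg fun y _ => WR_nonneg _ _ _ _ _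
    exact mul_le_mul (mul_le_mul_of_nonneg_left h3 L0.le) (hD x ((hV j x).2 hx)) h4 (by positivity)
  -- the lower bound
  have low : ∀ x ∈ F 0, c / (L * U) ≤ ker w₂ p' a n x v := by
    intro x hx
    obtain ⟨n', rfl⟩ : ∃ n', n = n' + 1 := ⟨n - 1, by omega⟩
    have h1 := br_low (μ := μ) (s := s) (w := w₂) (p := p') η a n' x v (fun k h1 h2 y => w2in k h1 y)
      (fun k h1 h2 => p'e k h1 (by omega))
    rw [w2a, one_mul] at h1
    have h2 := lo x ((hV 0 x).2 hx)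
    have h3 := hv
    have h4 : wt η (a + (n' + 1)) v = Real.exp (η (((a + (n' + 1) : ℕ) : ℤ), v)) := by
      unfold wt
      rw [if_neg (by omega)]
    rw [h4] at h3
    have h5 : 0 ≤ ker w₂ p' a (n' + 1) x v := by
      rw [← ms_ker]
      exact ms_nonneg w20 p'0 (dl_nonneg x) _ _
    rw [div_le_iff₀ (by positivity)]
    rw [← h1] at h2
    refine h2.trans ?_
    calc L * Real.exp (η (((a + (n' + 1) : ℕ) : ℤ), v)) * ker w₂ p' a (n' + 1) x v ≤ L * U * ker w₂ p' a (n' + 1) x v :=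
          mul_le_mul_of_nonneg_right (mul_le_mul_of_nonneg_left h3 L0.le) h5
      _ = _ := by ring
  have main := hav2 (w := w₂) (p := p') (a := a) (m := m₂) (V := V) (Co := Co)
    (TL := fun j x => j₁ < j ∧ V j x ∧ (((a + j : ℕ) : ℤ), x) ∉ Sw) (TR := fun j x => j₃ < j ∧ V j x ∧ (((a + j : ℕ) : ℤ), x) ∉ Sw)
    (F := F) (I := I) (j₁ := j₁) (l₁ := l₁) (j₃ := j₃) (l₃ := l₃) (n := n) (U := UU) (ε := (1 + es) * (L * U * ε)) (π := π) (π' := π')
    (v := v) (c := c / (L * U)) w20 p'0 m20 hV h12.le h34.le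
    (fun j i1 i2 x y hx hy => S1 j hx.1 i2 x y hx.2.1 hx.2.2 hy)
    (fun j i1 i2 x y hx hy => S2 j hx.1 i2 x y hx.2.1 hx.2.2 hy) UU0 (by positivity) hπ hπ'
    (fun x hx => up0 x hx j₁ hj1 (by omega) V (F j₁))
    (fun x hx y => upj (j₁ + l₁) (Or.inl rfl) x hx _ y)
    (fun x hx => up0 x hx j₃ hj3 (by omega) V (F j₃))
    (fun x hx y => upj (j₃ + l₃) (Or.inr rfl) x hx _ y)
    (fun x hx => epj j₁ l₁ (Or.inl rfl) hl1 h12 x hx D1 _ fun r z h1 h2 h3 => by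
      rw [add_assoc]
      have h4 : (((a + (j₁ + r) : ℕ) : ℤ), z) ∈ Sw := by
        by_contra h5
        exact h3.2.1 ⟨by omega, h3.1, h5⟩
      exact ⟨h4, fun h5 => by
        rcases mem_Ex66.1 h5 with h6 | h6
        · exact h3.2.2.1 h6
        · exact h3.2.2.2 h6⟩)
    (fun x hx => epj j₃ l₃ (Or.inr rfl) hl3 h34 x hx D3 _ fun r z h1 h2 h3 => by
      rw [add_assoc]
      have h4 : (((a + (j₃ + r) : ℕ) : ℤ), z) ∈ Sw := by
        by_contra h5
        exact h3.2.1 ⟨by omega, h3.1, h5⟩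
      exact ⟨h4, fun h5 => by
        rcases mem_Ex66.1 h5 with h6 | h6
        · exact h3.2.2.1 h6
        · exact h3.2.2.2 h6⟩)
    (by positivity) low
  rw [← tr, ← tr] at main
  have hE : 0 < Real.exp (-(n * lam μ s + h * v)) := Real.exp_pos _
  have e1 : 2 * UU ^ 2 * ((1 + es) * (L * U * ε)) / (c / (L * U)) = C66 μ s * U ^ 6 * ε / c := by
    unfold C66
    rw [← hL, ← hes, hUU]
    field_simp
  rw [e1] at main
  refine le_of_mul_le_mul_left ?_ hE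
  calc _ ≤ _ := main
    _ = _ := by ring

/-- The walls of helper58 in the form of `havC`. -/
theorem D_of58 [IsProbabilityMeasure μ] {η : Env} {Sw Ex : Set Pt} {b : Pt} {K T τ : ℕ} {θ A B : ℝ}
    (hη : η ∈ Pool.Agent.W_7d29a1_C1.BP58.D58 μ s Sw Ex b K T τ θ A B) {i r : ℕ} (h1 : b.1 ≤ i) (h2 : (i : ℤ) + r ≤ b.1 + (K * T : ℕ))
    (h3 : τ ≤ r) (x : ℤ) : cS μ s (Sw \ Ex) η ((i : ℤ), x) r ≤ Real.exp (-(A * EE μ s T)) :=
  (hη ((i : ℤ), x) r h1 h2).2.1 h3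

end

end Pool.Agent.W_7d29a1_C1.Gt66
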