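import Pool.Agent.W_7d29a1_C1.SpOne22

/-!
MP_7d29a1_pr, attractor route, [C1] SEP, gate: **THE PATHS OF A CONTACT STAY IN THE CORE** (`Zc ≤ (4 / 3) Zc1`), over K91P. (helper20)

* `vc w p Co G i n x` : mass of the paths of `n` steps from the site `x` of the row `i` whose positions at the rows `i + 1, …, i + n` are in
  `Co`, end weight `G`;
* `exit_vc` : `g i x ≤ vc Co (g (i + n)) i n x +` the sum over the rows `i < r ≤ i + n` of the mass through the sites of the row `r` off
  `Co`, for every harmonic profile `g` (the future masses `bw`);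
* `exit_row` : one row, from the kernels of the rows to the last row of the block, a tame profile there, and one lower kernel;
* `core_mass` : the contact: what is off the inner core `C0` at the row `a` and the exits after it.
-/

set_option autoImplicit false

namespace Pool.Agent.W_7d29a1_C1.Kap20

open Finset
open Pool.Agent.W_7d29a1_C1.K91P (fw bw bw_pos bw_zero bw_succ)
open Pool.Agent.W_7d29a1_C1.U16 (ker ker_zero ker_succ ker_nonneg ker_eq_zero)
open Pool.Agent.W_7d29a1_C1.Sp22 (Har har_bw ker_back bf bf_ker bf_zero bf_succ)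

noncomputable section

variable {w : ℕ → ℤ → ℝ} {p : ℕ → ℝ}

open Classical in
/-- Mass of the paths which stay in `Co` at the rows after the first one. -/
def vc (w : ℕ → ℤ → ℝ) (p : ℕ → ℝ) (Co : ℕ → ℤ → Prop) (G : ℤ → ℝ) : ℕ → ℕ → ℤ → ℝ
  | _, 0, x => G x
  | i, n + 1, x => w i x * ((if Co (i + 1) x then vc w p Co G (i + 1) n x else 0) +
      p i * (if Co (i + 1) (x + 1) then vc w p Co G (i + 1) n (x + 1) else 0))

variable {Co : ℕ → ℤ → Prop} {G : ℤ → ℝ}

theorem vc_zero (i : ℕ) (x : ℤ) : vc w p Co G i 0 x = G x := by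
  cases i <;> rfl

open Classical in
theorem vc_succ (i n : ℕ) (x : ℤ) : vc w p Co G i (n + 1) x = w i x * ((if Co (i + 1) x then vc w p Co G (i + 1) n x else 0) +
      p i * (if Co (i + 1) (x + 1) then vc w p Co G (i + 1) n (x + 1) else 0)) := by
  cases i <;> rfl

theorem vc_nonneg (hw : ∀ k y, 0 < w k y) (hp : ∀ k, 0 < p k) (hG : ∀ y, 0 ≤ G y) : ∀ (n i : ℕ) (x : ℤ), 0 ≤ vc w p Co G i n x
  | 0, i, x => by rw [vc_zero]; exact hG x
  | n + 1, i, x => by
    classical
    rw [vc_succ]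
    have h1 := vc_nonneg hw hp hG n (i + 1) x
    have h2 := vc_nonneg hw hp hG n (i + 1) (x + 1)
    have h3 := hw i x
    have h4 := hp i
    refine mul_nonneg h3.le (add_nonneg ?_ (mul_nonneg h4.le ?_))
    · split_ifs <;> first | exact h1 | exact le_rfl
    · split_ifs <;> first | exact h2 | exact le_rfl

theorem vc_le_bf (hw : ∀ k y, 0 < w k y) (hp : ∀ k, 0 < p k) (hG : ∀ y, 0 ≤ G y) : ∀ (n i : ℕ) (x : ℤ),
    vc w p Co G i n x ≤ bf w p G i n x
  | 0, i, x => by rw [vc_zero, bf_zero]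
  | n + 1, i, x => by
    classical
    rw [vc_succ, bf_succ]
    have h1 := vc_le_bf hw hp hG n (i + 1) x
    have h2 := vc_le_bf hw hp hG n (i + 1) (x + 1)
    have g1 := vc_nonneg (Co := Co) hw hp hG n (i + 1) x
    have g2 := vc_nonneg (Co := Co) hw hp hG n (i + 1) (x + 1)
    have h4 := hp i
    refine mul_le_mul_of_nonneg_left (add_le_add ?_ (mul_le_mul_of_nonneg_left ?_ h4.le)) (hw i x).le
    · split_ifs
      · exact h1
      · exact g1.trans h1
    · split_ifs
      · exact h2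
      · exact g2.trans h2

open Classical in
/-- Mass through the sites off `Co` at the row `i + j`. -/
def ex (w : ℕ → ℤ → ℝ) (p : ℕ → ℝ) (Co : ℕ → ℤ → Prop) (g : ℕ → ℤ → ℝ) (lo hi : ℤ) (i j : ℕ) (x : ℤ) : ℝ :=
  ∑ y ∈ (Icc lo hi).filter (fun y => ¬ Co (i + j) y), ker w p i j x y * g (i + j) y

variable {g : ℕ → ℤ → ℝ} {lo hi : ℤ}

theorem ex_nonneg (hw : ∀ k y, 0 < w k y) (hp : ∀ k, 0 < p k) (hg : ∀ k y, 0 ≤ g k y) (i j : ℕ) (x : ℤ) :
    0 ≤ ex w p Co g lo hi i j x := by
  classical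
  exact sum_nonneg fun y _ => mul_nonneg (ker_nonneg hw hp _ _ _ _) (hg _ _)

theorem ex_succ (i j : ℕ) (x : ℤ) : ex w p Co g lo hi i (j + 1) x =
    w i x * (ex w p Co g lo hi (i + 1) j x + p i * ex w p Co g lo hi (i + 1) j (x + 1)) := by
  classical
  unfold ex
  have e : i + (j + 1) = i + 1 + j := by ring
  rw [e, mul_sum, ← sum_add_distrib, mul_sum]
  refine sum_congr rfl fun y _ => ?_
  rw [ker_back]
  ring

theorem ex_zero (i : ℕ) {x : ℤ} (hx : Co i x) : ex w p Co g lo hi i 0 x = 0 := by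
  classical
  unfold ex
  refine sum_eq_zero fun y hy => ?_
  rw [mem_filter, Nat.add_zero] at hy
  have h1 : y ≠ x := fun h => hy.2 (h ▸ hx)
  rw [ker_zero, if_neg h1, zero_mul]

theorem ex_zero' (i : ℕ) {x : ℤ} (h1 : lo ≤ x) (h2 : x ≤ hi) (hx : ¬ Co i x) : ex w p Co g lo hi i 0 x = g i x := by
  classical
  unfold ex
  rw [sum_eq_single_of_mem x (mem_filter.2 ⟨mem_Icc.2 ⟨h1, h2⟩, by rwa [Nat.add_zero]⟩) (fun y _ hy => by
    rw [ker_zero, if_neg hy, zero_mul]), ker_zero, if_pos rfl, one_mul, Nat.add_zero]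

/-- **The exits from the core**, union bound over the rows. -/
theorem exit_vc (hw : ∀ k y, 0 < w k y) (hp : ∀ k, 0 < p k) {e : ℕ} (hg : ∀ k y, 0 ≤ g k y) (hH : Har w p e g) :
    ∀ (n i : ℕ) (x : ℤ), i + n ≤ e → lo ≤ x → x + n ≤ hi →
      g i x ≤ vc w p Co (g (i + n)) i n x + ∑ j ∈ range n, ex w p Co g lo hi i (j + 1) x
  | 0, i, x, _, _, _ => by
    rw [vc_zero, Nat.add_zero, range_zero, sum_empty, add_zero]
  | n + 1, i, x, hn, h1, h2 => by
    classical
    have hpi := hp i
    have hwi := hw i x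
    have key : ∀ y : ℤ, lo ≤ y → y + n ≤ hi → g (i + 1) y ≤
        (if Co (i + 1) y then vc w p Co (g (i + (n + 1))) (i + 1) n y else 0) + ∑ j ∈ range (n + 1), ex w p Co g lo hi (i + 1) j y := by
      intro y hy hy'
      rw [sum_range_succ']
      by_cases hc : Co (i + 1) y
      · rw [if_pos hc, ex_zero (i + 1) hc, add_zero]
        have h3 := exit_vc hw hp hg hH n (i + 1) y (by omega) hy hy'
        have e1 : i + 1 + n = i + (n + 1) := by ring
        rwa [e1] at h3
      · rw [if_neg hc, ex_zero' (i + 1) hy (by omega) hc, zero_add]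
        have h4 : 0 ≤ ∑ j ∈ range n, ex w p Co g lo hi (i + 1) (j + 1) y := sum_nonneg fun j _ => ex_nonneg hw hp hg _ _ _
        linarith
    have k1 := key x h1 (by push_cast at h2; omega)
    have k2 := key (x + 1) (by omega) (by push_cast at h2; omega)
    rw [hH i (by omega) x, vc_succ]
    simp only [ex_succ]
    rw [← mul_sum, sum_add_distrib, ← mul_sum, ← mul_add]
    refine mul_le_mul_of_nonneg_left ?_ hwi.le
    nlinarith [mul_le_mul_of_nonneg_left k2 hpi.le]

/-- **One row**: the mass through the sites of the row `i + j` off the core, from the kernels up to the last row of the block, where the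
profile is tame, and one lower kernel. -/
theorem exit_row (hw : ∀ k y, 0 < w k y) (hp : ∀ k, 0 < p k) (hg : ∀ k y, 0 ≤ g k y) {i j n : ℕ} {x v0 : ℤ}
    (hgb : ∀ y, g (i + j) y = ∑ v ∈ Icc y (y + (n - j : ℕ)), ker w p (i + j) (n - j) y v * g (i + n) v)
    {th : ℤ → ℝ} (hth : ∀ v, g (i + n) v ≤ th v * g (i + n) v0)
    {ε : ℝ} (hx : ker w p i n x v0 * g (i + n) v0 ≤ g i x) (hε : 0 ≤ ε)
    (H : (open Classical in ∑ y ∈ (Icc lo hi).filter (fun y => ¬ Co (i + j) y), ker w p i j x y *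
      ∑ v ∈ Icc y (y + (n - j : ℕ)), ker w p (i + j) (n - j) y v * th v) ≤ ε * ker w p i n x v0) :
    ex w p Co g lo hi i j x ≤ ε * g i x := by
  classical
  have g0 := hg (i + n) v0
  calc ex w p Co g lo hi i j x
      = ∑ y ∈ (Icc lo hi).filter (fun y => ¬ Co (i + j) y), ker w p i j x y *
        ∑ v ∈ Icc y (y + (n - j : ℕ)), ker w p (i + j) (n - j) y v * g (i + n) v := by
        unfold ex
        exact sum_congr rfl fun y _ => by rw [hgb y]
    _ ≤ ∑ y ∈ (Icc lo hi).filter (fun y => ¬ Co (i + j) y), ker w p i j x y *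
        ∑ v ∈ Icc y (y + (n - j : ℕ)), ker w p (i + j) (n - j) y v * (th v * g (i + n) v0) := by
        refine sum_le_sum fun y _ => mul_le_mul_of_nonneg_left (sum_le_sum fun v _ => ?_) (ker_nonneg hw hp _ _ _ _)
        exact mul_le_mul_of_nonneg_left (hth v) (ker_nonneg hw hp _ _ _ _)
    _ = (∑ y ∈ (Icc lo hi).filter (fun y => ¬ Co (i + j) y), ker w p i j x y *
        ∑ v ∈ Icc y (y + (n - j : ℕ)), ker w p (i + j) (n - j) y v * th v) * g (i + n) v0 := by
        rw [sum_mul]
        refine sum_congr rfl fun y _ => ?_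
        rw [mul_assoc, sum_mul]
        congr 1
        exact sum_congr rfl fun v _ => by ring
    _ ≤ ε * ker w p i n x v0 * g (i + n) v0 := mul_le_mul_of_nonneg_right H g0
    _ = ε * (ker w p i n x v0 * g (i + n) v0) := by ring
    _ ≤ ε * g i x := mul_le_mul_of_nonneg_left hx hε

/-- **THE CONTACT STAYS IN THE CORE.** `q` = its site (row `k`), `C0` = the inner core at the row `a`, `Co` = the core at the rows
`a < . ≤ a + n`. -/
theorem core_mass (hw : ∀ k y, 0 < w k y) (hp : ∀ k, 0 < p k) {N k a n : ℕ} (ha : k ≤ a) (hn : a + n ≤ N) {q : ℤ} (C0 : Finset ℤ)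
    {lo hi : ℤ} (hC0 : ∀ x ∈ C0, lo ≤ x ∧ x + n ≤ hi) {e1 e2 : ℝ}
    (h1 : (open Classical in ∑ x ∈ (Icc q (q + (a - k : ℕ))).filter (fun x => x ∉ C0), ker w p k (a - k) q x * bw w p a (N - a) x) ≤
      e1 * bw w p k (N - k) q)
    (h2 : ∀ x ∈ C0, ∑ j ∈ range n, ex w p Co (fun i y => bw w p i (N - i) y) lo hi a (j + 1) x ≤ e2 * bw w p a (N - a) x)
    (he2 : 0 ≤ e2) :
    (1 - e1 - e2) * bw w p k (N - k) q ≤
      ∑ x ∈ C0, ker w p k (a - k) q x * vc w p Co (fun y => bw w p (a + n) (N - (a + n)) y) a n x := by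
  classical
  have hk0 : ∀ x, 0 ≤ ker w p k (a - k) q x := fun x => ker_nonneg hw hp _ _ q x
  have hB0 : ∀ x, 0 < bw w p a (N - a) x := fun x => bw_pos hw hp _ _ x
  have e0 : N - k = (a - k) + (N - a) := by omega
  have ez : bw w p k (N - k) q = ∑ x ∈ Icc q (q + (a - k : ℕ)), ker w p k (a - k) q x * bw w p a (N - a) x := by
    have := U16.bw_ker (w := w) (p := p) k (a - k) (N - a) q
    rw [e0, this, show k + (a - k) = a by omega]
  have hV : ∀ x ∈ C0, (1 - e2) * bw w p a (N - a) x ≤ vc w p Co (fun y => bw w p (a + n) (N - (a + n)) y) a n x := by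
    intro x hx
    have h3 := exit_vc (Co := Co) (lo := lo) (hi := hi) hw hp (g := fun i y => bw w p i (N - i) y)
      (fun k y => (bw_pos hw hp _ _ _).le) (har_bw w p N) n a x hn (hC0 x hx).1 (hC0 x hx).2
    have h4 := h2 x hx
    have h5 : bw w p a (N - a) x ≤ vc w p Co (fun y => bw w p (a + n) (N - (a + n)) y) a n x + e2 * bw w p a (N - a) x :=
      h3.trans (add_le_add le_rfl h4)
    linarith
  have hin : ∑ x ∈ (Icc q (q + (a - k : ℕ))).filter (fun x => x ∈ C0), ker w p k (a - k) q x * bw w p a (N - a) x ≤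
      ∑ x ∈ C0, ker w p k (a - k) q x * bw w p a (N - a) x :=
    sum_le_sum_of_subset_of_nonneg (fun x hx => (mem_filter.1 hx).2) fun x _ _ => mul_nonneg (hk0 x) (hB0 x).le
  have hout : ∑ x ∈ C0, ker w p k (a - k) q x * bw w p a (N - a) x ≤
      ∑ x ∈ (Icc q (q + (a - k : ℕ))).filter (fun x => x ∈ C0), ker w p k (a - k) q x * bw w p a (N - a) x := by
    have e3 : ∑ x ∈ C0, ker w p k (a - k) q x * bw w p a (N - a) x =
        ∑ x ∈ C0.filter (fun x => x ∈ Icc q (q + (a - k : ℕ))), ker w p k (a - k) q x * bw w p a (N - a) x := by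
      rw [sum_filter]
      refine sum_congr rfl fun x _ => ?_
      split_ifs with hc
      · rfl
      · rw [ker_eq_zero k (a - k) q x (fun h => hc (mem_Icc.2 h)), zero_mul]
    rw [e3]
    refine sum_le_sum_of_subset_of_nonneg (fun x hx => ?_) fun x _ _ => mul_nonneg (hk0 x) (hB0 x).le
    rw [mem_filter] at hx ⊢
    exact ⟨hx.2, hx.1⟩
  have hsplit := sum_filter_add_sum_filter_not (Icc q (q + (a - k : ℕ))) (fun x => x ∈ C0)
    (fun x => ker w p k (a - k) q x * bw w p a (N - a) x)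
  rw [← ez] at hsplit
  have hA : (1 - e1) * bw w p k (N - k) q ≤ ∑ x ∈ C0, ker w p k (a - k) q x * bw w p a (N - a) x := by linarith
  have hle : ∑ x ∈ C0, ker w p k (a - k) q x * bw w p a (N - a) x ≤ bw w p k (N - k) q := by
    refine hout.trans ?_
    rw [← hsplit]
    have : 0 ≤ ∑ x ∈ (Icc q (q + (a - k : ℕ))).filter (fun x => ¬ x ∈ C0), ker w p k (a - k) q x * bw w p a (N - a) x :=
      sum_nonneg fun x _ => mul_nonneg (hk0 x) (hB0 x).le
    linarith
  calc (1 - e1 - e2) * bw w p k (N - k) q = (1 - e1) * bw w p k (N - k) q - e2 * bw w p k (N - k) q := by ring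
    _ ≤ ∑ x ∈ C0, ker w p k (a - k) q x * bw w p a (N - a) x - e2 * ∑ x ∈ C0, ker w p k (a - k) q x * bw w p a (N - a) x := by
        have := mul_le_mul_of_nonneg_left hle he2
        linarith
    _ = ∑ x ∈ C0, ker w p k (a - k) q x * ((1 - e2) * bw w p a (N - a) x) := by
        rw [mul_sum, ← sum_sub_distrib]
        exact sum_congr rfl fun x _ => by ring
    _ ≤ _ := sum_le_sum fun x hx => mul_le_mul_of_nonneg_left (hV x hx) (hk0 x)

end

end Pool.Agent.W_7d29a1_C1.Kap20
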