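import Pool.Agent.W_7d29a1_C1.GateW66
import Pool.Agent.W_7d29a1_C1.CmpG20
import Pool.Agent.W_7d29a1_C1.Kap20
import Pool.Agent.W_7d29a1_C1.Cnt58

/-!
MP_7d29a1_pr, attractor route, [C1] SEP: THE GATE PROPERTY (gt) ITSELF, over K91P. (helper87)

`a` = first row of the gate block, `b = a + n` = gate row, contact `(k, q)`, `k + 1 ≤ a`. `Ks` = masses of the contact at the row `a`,
`Z1` = mass of its paths which stay in the core `Co` (rows relative to `a`) on the rows `a, …, b`.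
* `Ps_vc`, `Z1_vc`: `Z1` in the letters of `Kap20`; `Z1_le : Z1 ≤ bw (k + 1) q`;
* `gtV87`: good pairs (`Gd66`) + the line `hAv` (= `gv87` of `GateV87`) ⇒ for every site `y` of the row `a`
  `ker a → b y v * Z1 ≤ g * (bw a y * ker (k + 1) → b q v)`, `g = (2 + E₂ G₃) / ((1 - ε) Q)`; `gt87`: the form with a rim;
* `gg87`: the same for every group; `gate87G`: `CmpG20.Gate`.
-/

set_option autoImplicit false

namespace Pool.Agent.W_7d29a1_C1.Gt66

open Finset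
open Pool.Agent.W_7d29a1_C1.K91P (fw bw fw_succ fw_nonneg bw_pos)
open Pool.Agent.W_7d29a1_C1.U16 (ker ker_zero ker_succ ker_nonneg ker_eq_zero fw_ker bw_ker ker_add)
open Pool.Agent.W_7d29a1_C1.Kap20 (vc vc_zero vc_succ)

noncomputable section

attribute [local instance 10] Classical.propDecidable

variable {w : ℕ → ℤ → ℝ} {p : ℕ → ℝ} {a : ℕ}

/-! ### The core mass in the letters of `Kap20` -/

/-- One step with the end weight `g`. -/
def lst (w : ℕ → ℤ → ℝ) (p : ℕ → ℝ) (Co : ℕ → ℤ → Prop) (g : ℤ → ℝ) (i : ℕ) (u : ℤ) : ℝ :=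
  w i u * ((if Co (i + 1) u then g u else 0) + p i * (if Co (i + 1) (u + 1) then g (u + 1) else 0))

theorem vc_last (Co : ℕ → ℤ → Prop) (g : ℤ → ℝ) : ∀ (n i : ℕ) (x : ℤ),
    vc w p Co g i (n + 1) x = vc w p Co (lst w p Co g (i + n)) i n x
  | 0, i, x => by
    rw [vc_succ, vc_zero, vc_zero, vc_zero]
    unfold lst
    rw [add_zero]
  | n + 1, i, x => by
    rw [vc_succ, vc_last Co g n (i + 1) x, vc_last Co g n (i + 1) (x + 1), vc_succ,
      show i + 1 + n = i + (n + 1) by omega]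

theorem Ps_vc (Co : ℕ → ℤ → Prop) (I : Finset ℤ) (k : ℤ → ℝ) : ∀ (n : ℕ) (g : ℤ → ℝ),
    ∑ π ∈ Ps (fun j => Co (a + j)) I n, k (s0 π) * wg w p a π * g (en π) =
      ∑ x ∈ I, if Co a x then k x * vc w p Co g a n x else 0
  | 0, g => by
    rw [sum_Ps_zero]
    refine sum_congr rfl fun x _ => ?_
    show (if Co (a + 0) x then k x * 1 * g x else 0) = _
    rw [add_zero, vc_zero, mul_one]
  | n + 1, g => by
    rw [sum_Ps_succ]
    have h1 : ∀ π ∈ Ps (fun j => Co (a + j)) I n, ((if Co (a + (n + 1)) (en π) then k (s0 (Pa.s π false)) * wg w p a (Pa.s π false) *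
        g (en (Pa.s π false)) else 0) + if Co (a + (n + 1)) (en π + 1) then k (s0 (Pa.s π true)) *
        wg w p a (Pa.s π true) * g (en (Pa.s π true)) else 0) = k (s0 π) * wg w p a π * lst w p Co g (a + n) (en π) := by
      intro π _
      have e1 : en (Pa.s π false) = en π := by simp [en, st]
      have e2 : en (Pa.s π true) = en π + 1 := by simp [en, st]
      have e3 : wg w p a (Pa.s π false) = wg w p a π * (w (a + n) (en π) * 1) := by simp [wg]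
      have e4 : wg w p a (Pa.s π true) = wg w p a π * (w (a + n) (en π) * p (a + n)) := by simp [wg]
      have e5 : ∀ b, s0 (Pa.s π b) = s0 π := fun b => rfl
      rw [e1, e2, e3, e4, e5, e5]
      unfold lst
      rw [show a + n + 1 = a + (n + 1) by omega]
      by_cases h1 : Co (a + (n + 1)) (en π) <;> by_cases h2 : Co (a + (n + 1)) (en π + 1) <;> simp [h1, h2] <;> ring
    rw [sum_congr rfl h1, Ps_vc Co I k n (lst w p Co g (a + n))]
    exact sum_congr rfl fun x _ => by rw [vc_last]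

/-- The masses of the contact `(k, q)` at the row `a`. -/
def Ks (w : ℕ → ℤ → ℝ) (p : ℕ → ℝ) (a k : ℕ) (q : ℤ) : ℤ → ℝ := ker w p (k + 1) (a - (k + 1)) q

/-- The sites of the row `a` which the contact reaches. -/
def Ic (a k : ℕ) (q : ℤ) : Finset ℤ := Icc q (q + ((a - (k + 1) : ℕ) : ℤ))

/-- The weight of a path of the contact over the block, free end. -/
def kp (w : ℕ → ℤ → ℝ) (p : ℕ → ℝ) (N a k : ℕ) (q : ℤ) {n : ℕ} (π : Pa n) : ℝ :=
  Ks w p a k q (s0 π) * wg w p a π * bw w p (a + n) (N - (a + n)) (en π)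

/-- **The core mass.** -/
def Z1 (w : ℕ → ℤ → ℝ) (p : ℕ → ℝ) (N a n : ℕ) (Co : ℕ → ℤ → Prop) (k : ℕ) (q : ℤ) : ℝ := ∑ π ∈ Ps Co (Ic a k q) n, kp w p N a k q π

theorem Ks_off {k : ℕ} {q y : ℤ} (h : y ∉ Ic a k q) : Ks w p a k q y = 0 :=
  ker_eq_zero _ _ _ _ fun h1 => h (mem_Icc.2 h1)

theorem kp_nonneg (hw : ∀ k y, 0 < w k y) (hp : ∀ k, 0 < p k) {N k n : ℕ} {q : ℤ} (π : Pa n) : 0 ≤ kp w p N a k q π :=
  mul_nonneg (mul_nonneg (ker_nonneg hw hp _ _ _ _) (wg_nonneg (fun k y => (hw k y).le) (fun k => (hp k).le) π)) (bw_pos hw hp _ _ _).le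

theorem Z1_nonneg (hw : ∀ k y, 0 < w k y) (hp : ∀ k, 0 < p k) {N n : ℕ} (Co : ℕ → ℤ → Prop) (k : ℕ) (q : ℤ) :
    0 ≤ Z1 w p N a n Co k q := sum_nonneg fun π _ => kp_nonneg hw hp π

theorem Z1_vc {N n : ℕ} (Co : ℕ → ℤ → Prop) (k : ℕ) (q : ℤ) : Z1 w p N a n (fun j => Co (a + j)) k q =
    ∑ x ∈ Ic a k q, if Co a x then ker w p (k + 1) (a - (k + 1)) q x * vc w p Co (fun y => bw w p (a + n) (N - (a + n)) y) a n x else 0 :=
  Ps_vc Co (Ic a k q) (Ks w p a k q) n _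

/-- Kernel composition over the gate block. -/
theorem ms_Ks {k : ℕ} (hk : k + 1 ≤ a) (n : ℕ) (q v : ℤ) : ms w p a All (Ks w p a k q) n v = ker w p (k + 1) (a + n - (k + 1)) q v := by
  rw [ms_expand (F := Ic a k q) (fun y hy => Ks_off hy) n v]
  have e0 : a + n - (k + 1) = (a - (k + 1)) + n := by omega
  have e1 := ker_add (w := w) (p := p) (k + 1) (a - (k + 1)) n q v
  rw [show k + 1 + (a - (k + 1)) = a by omega] at e1
  rw [e0, e1]
  have h1 : ∀ z : ℤ, z ∉ Ic a k q → ker w p (k + 1) (a - (k + 1)) q z * ker w p a n z v = 0 := fun z hz => by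
    rw [show ker w p (k + 1) (a - (k + 1)) q z = Ks w p a k q z from rfl, Ks_off hz, zero_mul]
  have h2 : ∀ z : ℤ, z ∉ Icc (v - n) v → ker w p (k + 1) (a - (k + 1)) q z * ker w p a n z v = 0 := fun z hz => by
    rw [ker_eq_zero a n z v fun h => hz (mem_Icc.2 ⟨by omega, h.1⟩), mul_zero]
  have h3 : ∑ z ∈ Ic a k q, ker w p (k + 1) (a - (k + 1)) q z * ker w p a n z v =
      ∑ z ∈ Icc (v - n) v, ker w p (k + 1) (a - (k + 1)) q z * ker w p a n z v := by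
    have k1 : ∑ z ∈ Ic a k q, ker w p (k + 1) (a - (k + 1)) q z * ker w p a n z v =
        ∑ z ∈ Ic a k q ∪ Icc (v - n) v, ker w p (k + 1) (a - (k + 1)) q z * ker w p a n z v :=
      sum_subset subset_union_left fun z _ hz => h1 z hz
    have k2 : ∑ z ∈ Icc (v - n) v, ker w p (k + 1) (a - (k + 1)) q z * ker w p a n z v =
        ∑ z ∈ Ic a k q ∪ Icc (v - n) v, ker w p (k + 1) (a - (k + 1)) q z * ker w p a n z v :=
      sum_subset subset_union_right fun z _ hz => h2 z hz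
    rw [k1, k2]
  rw [← h3]
  exact sum_congr rfl fun z _ => by rw [ms_ker]; rfl

/-- The total of the masses behind a site. -/
theorem ker_bw {N : ℕ} {j : ℕ} (h : a + j ≤ N) (y : ℤ) :
    ∑ z ∈ Icc y (y + j), ker w p a j y z * bw w p (a + j) (N - (a + j)) z = bw w p a (N - a) y := by
  have e := bw_ker (w := w) (p := p) a j (N - (a + j)) y
  rw [show j + (N - (a + j)) = N - a by omega] at e
  exact e.symm

theorem Z1_le (hw : ∀ k y, 0 < w k y) (hp : ∀ k, 0 < p k) {N n k : ℕ} (hk : k + 1 ≤ a) (hN : a + n ≤ N) (Co : ℕ → ℤ → Prop) (q : ℤ) :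
    Z1 w p N a n Co k q ≤ bw w p (k + 1) (N - (k + 1)) q := by
  unfold Z1 kp
  rw [expand (Ks w p a k q) (fun y hy => Ks_off hy) (lo := q) (hi := q + ((a - (k + 1) : ℕ) : ℤ)) (fun y hy => mem_Icc.1 hy) n]
  have e := ker_bw (w := w) (p := p) (a := k + 1) (j := a + n - (k + 1)) (N := N) (by omega) q
  rw [show k + 1 + (a + n - (k + 1)) = a + n by omega] at e
  rw [← e]
  have e2 : q + ((a - (k + 1) : ℕ) : ℤ) + (n : ℤ) = q + ((a + n - (k + 1) : ℕ) : ℤ) := by omega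
  rw [e2]
  refine sum_le_sum fun u _ => mul_le_mul_of_nonneg_right ?_ (bw_pos hw hp _ _ u).le
  rw [← ms_Ks hk]
  exact ms_le_all (fun k y => (hw k y).le) (fun k => (hp k).le) (fun y => ker_nonneg hw hp _ _ _ y) n u

/-- The masses of the side against the kernel. -/
theorem ks_le (hw : ∀ k y, 0 < w k y) (hp : ∀ k, 0 < p k) (V : ℕ → ℤ → Prop) (n j : ℕ) (x v : ℤ) :
    ks w p a V n j x v ≤ ker w p (a + j) (n - j) x v := by
  rw [← ms_ker]
  exact ms_le_all (fun k y => (hw k y).le) (fun k => (hp k).le) (dl_nonneg x) _ v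

/-! ### The gate -/

/-- **THE GATE PROPERTY**, every site of the row `a`, from one line about the masses which avoid two good paths. -/
theorem gtV87 (hw : ∀ k y, 0 < w k y) (hp : ∀ k, 0 < p k) {N n k : ℕ} (hk : k + 1 ≤ a) (hN : a + n ≤ N) {q v : ℤ}
    {Co : ℕ → ℤ → Prop} {D : Pa n → Pa n → Prop} {Q ε E₂ G₃ : ℝ} (hQ : 0 < Q) (hε : ε < 1) (he : 0 ≤ E₂) (hG : 0 ≤ G₃)
    (hD : Q * Z1 w p N a n Co k q ^ 2 ≤ ∑ π ∈ Ps Co (Ic a k q) n, ∑ π' ∈ Ps Co (Ic a k q) n,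
      if D π π' then kp w p N a k q π * kp w p N a k q π' else 0)
    (hAv : ∀ π ∈ Ps Co (Ic a k q) n, ∀ π' ∈ Ps Co (Ic a k q) n, D π π' → ∀ y : ℤ,
      ms w p a (A2 π π') (dl y) n v * bw w p (a + n) (N - (a + n)) v ≤
        ε * (ker w p a n y v * bw w p (a + n) (N - (a + n)) v) + E₂ * bw w p a (N - a) y)
    (hZ : Z1 w p N a n Co k q ≤ G₃ * (ker w p (k + 1) (a + n - (k + 1)) q v * bw w p (a + n) (N - (a + n)) v)) (y : ℤ) :
    ker w p a n y v * Z1 w p N a n Co k q ≤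
      (2 + E₂ * G₃) / ((1 - ε) * Q) * (bw w p a (N - a) y * ker w p (k + 1) (a + n - (k + 1)) q v) := by
  have hw' : ∀ k y, 0 ≤ w k y := fun k y => (hw k y).le
  have hp' : ∀ k, 0 ≤ p k := fun k => (hp k).le
  obtain ⟨Z, eZ⟩ : ∃ Z, Z = Z1 w p N a n Co k q := ⟨_, rfl⟩
  obtain ⟨X, eX⟩ : ∃ X, X = ker w p a n y v := ⟨_, rfl⟩
  obtain ⟨K, eK⟩ : ∃ K, K = ker w p (k + 1) (a + n - (k + 1)) q v := ⟨_, rfl⟩
  obtain ⟨B, eB⟩ : ∃ B, B = bw w p (a + n) (N - (a + n)) v := ⟨_, rfl⟩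
  obtain ⟨T, eT⟩ : ∃ T, T = bw w p a (N - a) y := ⟨_, rfl⟩
  have Z0 : 0 ≤ Z := eZ ▸ Z1_nonneg hw hp _ _ _
  have X0 : 0 ≤ X := eX ▸ ker_nonneg hw hp _ _ _ _
  have K0 : 0 ≤ K := eK ▸ ker_nonneg hw hp _ _ _ _
  have B0 : 0 < B := eB ▸ bw_pos hw hp _ _ _
  have T0 : 0 < T := eT ▸ bw_pos hw hp _ _ _
  obtain ⟨e₂, hE⟩ : ∃ e₂, e₂ = E₂ * T / B := ⟨_, rfl⟩
  have hE0 : 0 ≤ e₂ := by rw [hE]; positivity
  have hav' : ∀ π ∈ Ps Co (Ic a k q) n, ∀ π' ∈ Ps Co (Ic a k q) n, D π π' →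
      ms w p a (A2 π π') (dl y) n v ≤ ε * ms w p a All (dl y) n v + e₂ := by
    intro π hπ π' hπ' hd
    have h3 := hAv π hπ π' hπ' hd y
    rw [← eX, ← eB, ← eT] at h3
    have h4 : ms w p a (A2 π π') (dl y) n v * B ≤ (ε * X + e₂) * B := by
      have h5 : e₂ * B = E₂ * T := by rw [hE]; field_simp
      rw [add_mul, h5]
      linarith
    rw [ms_ker, ← eX]
    exact le_of_mul_le_mul_right h4 B0
  have key := gate (w := w) (p := p) (a := a) hw' hp' (dl_nonneg y) (k := Ks w p a k q) (fun z => ker_nonneg hw hp _ _ _ z) (C := Co)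
    (I := Ic a k q) (fun z hz => Ks_off hz) (lo := min q y) (hi := max (q + ((a - (k + 1) : ℕ) : ℤ)) y)
    (fun z hz => ⟨(min_le_left _ _).trans (mem_Icc.1 hz).1, (mem_Icc.1 hz).2.trans (le_max_left _ _)⟩) n
    (g := fun u => bw w p (a + n) (N - (a + n)) u) (fun u => (bw_pos hw hp _ _ u).le) v (D := D) (q := Q) (ε₁ := ε) (e₂ := e₂)
    (Zc := Z1 w p N a n Co k q) hε.le hE0 rfl hD hav'
  rw [ms_ker, ms_Ks hk, ← eZ, ← eX, ← eK] at key
  have hT : ∑ u ∈ Icc (min q y) (max (q + ((a - (k + 1) : ℕ) : ℤ)) y + n), ms w p a All (dl y) n u * bw w p (a + n) (N - (a + n)) u = T := by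
    rw [eT, ← ker_bw (w := w) (p := p) (a := a) hN y]
    refine (sum_subset (fun u hu => ?_) fun u _ hu => ?_).symm.trans (sum_congr rfl fun u _ => by rw [ms_ker])
    · rw [mem_Icc] at hu ⊢
      have h1 := min_le_right q y
      have h2 := le_max_right (q + ((a - (k + 1) : ℕ) : ℤ)) y
      omega
    · rw [ms_ker, ker_eq_zero a n y u fun h => hu (mem_Icc.2 h), zero_mul]
  rw [hT] at key
  rw [← eZ, ← eK, ← eB] at hZ
  rw [← eX, ← eZ, ← eT, ← eK]
  have hQ1 : 0 < (1 - ε) * Q := mul_pos (by linarith) hQ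
  rcases eq_or_lt_of_le Z0 with h0 | h0
  · rw [← h0, mul_zero]
    have : 0 ≤ E₂ * G₃ := by positivity
    exact mul_nonneg (div_nonneg (by linarith) hQ1.le) (mul_nonneg T0.le K0)
  · have h1 : e₂ * Z ^ 2 ≤ E₂ * G₃ * (T * K) * Z := by
      have h2 : e₂ * Z ≤ E₂ * G₃ * (T * K) := by
        calc e₂ * Z ≤ e₂ * (G₃ * (K * B)) := mul_le_mul_of_nonneg_left hZ hE0
          _ = E₂ * G₃ * (T * K) := by rw [hE]; field_simp
      calc e₂ * Z ^ 2 = e₂ * Z * Z := by ring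
        _ ≤ _ := mul_le_mul_of_nonneg_right h2 Z0
    have h3 : (X * Z) * ((1 - ε) * Q) * Z ≤ (2 + E₂ * G₃) * (T * K) * Z := by
      calc (X * Z) * ((1 - ε) * Q) * Z = (1 - ε) * X * (Q * Z ^ 2) := by ring
        _ ≤ 2 * Z * (T * K) + e₂ * Z ^ 2 := key
        _ ≤ 2 * Z * (T * K) + E₂ * G₃ * (T * K) * Z := by linarith
        _ = _ := by ring
    have h4 := le_of_mul_le_mul_right h3 h0
    rw [div_mul_eq_mul_div, le_div_iff₀ hQ1]
    exact h4

/-- The same with a window `V` on all rows and its rim. -/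
theorem gt87 (hw : ∀ k y, 0 < w k y) (hp : ∀ k, 0 < p k) {N n k : ℕ} (hk : k + 1 ≤ a) (hN : a + n ≤ N) {q : ℤ}
    {Co V : ℕ → ℤ → Prop} {Rm : ℕ → Finset ℤ} (hR : ∀ j x, ¬ V j x → (V (j + 1) x ∨ V (j + 1) (x + 1)) → x ∈ Rm j) {v : ℤ}
    (hv : V n v) {D : Pa n → Pa n → Prop} {Q ε e₃ G₃ : ℝ} (hQ : 0 < Q) (hε : ε < 1) (he : 0 ≤ e₃) (hG : 0 ≤ G₃)
    (hD : Q * Z1 w p N a n Co k q ^ 2 ≤ ∑ π ∈ Ps Co (Ic a k q) n, ∑ π' ∈ Ps Co (Ic a k q) n,
      if D π π' then kp w p N a k q π * kp w p N a k q π' else 0)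
    (hav : ∀ π ∈ Ps Co (Ic a k q) n, ∀ π' ∈ Ps Co (Ic a k q) n, D π π' → ∀ y : ℤ,
      ms w p a (fun j x => A2 π π' j x ∧ V j x) (dl y) n v ≤ ε * ker w p a n y v)
    (hks : ∀ j < n, ∀ x ∈ Rm j, ks w p a V n j x v * bw w p (a + n) (N - (a + n)) v ≤ e₃ * bw w p (a + j) (N - (a + j)) x)
    (hZ : Z1 w p N a n Co k q ≤ G₃ * (ker w p (k + 1) (a + n - (k + 1)) q v * bw w p (a + n) (N - (a + n)) v)) (y : ℤ) :
    ker w p a n y v * Z1 w p N a n Co k q ≤
      (2 + n * e₃ * G₃) / ((1 - ε) * Q) * (bw w p a (N - a) y * ker w p (k + 1) (a + n - (k + 1)) q v) := by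
  have hw' : ∀ k y, 0 ≤ w k y := fun k y => (hw k y).le
  have hp' : ∀ k, 0 ≤ p k := fun k => (hp k).le
  refine gtV87 hw hp hk hN hQ hε (by positivity) hG hD ?_ hZ y
  intro π hπ π' hπ' hd y
  have h1 := side (w := w) (p := p) (a := a) (A := A2 π π') hw' hp' (dl_nonneg y) hR hv (B := bw w p (a + n) (N - (a + n)) v)
    (e₃ := e₃) (Z := bw w p a (N - a) y) (bw_pos hw hp _ _ _).le he
    (F := fun j x => bw w p (a + j) (N - (a + j)) x) (fun j hj x hx => hks j hj x hx) (fun j hj => by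
      rw [← ker_bw (w := w) (p := p) (a := a) (show a + j ≤ N by omega) y]
      have h2 : ∀ x, x ∉ Icc y (y + j) → ms w p a All (dl y) j x * bw w p (a + j) (N - (a + j)) x = 0 := fun x hx => by
        rw [ms_ker, ker_eq_zero a j y x fun h => hx (mem_Icc.2 h), zero_mul]
      calc ∑ x ∈ Rm j, ms w p a All (dl y) j x * bw w p (a + j) (N - (a + j)) x
          ≤ ∑ x ∈ Rm j ∪ Icc y (y + j), ms w p a All (dl y) j x * bw w p (a + j) (N - (a + j)) x :=
            sum_le_sum_of_subset_of_nonneg subset_union_left fun x _ _ =>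
              mul_nonneg (ms_nonneg hw' hp' (dl_nonneg y) j x) (bw_pos hw hp _ _ _).le
        _ = ∑ x ∈ Icc y (y + j), ms w p a All (dl y) j x * bw w p (a + j) (N - (a + j)) x :=
            (sum_subset subset_union_right fun x _ hx => h2 x hx).symm
        _ = _ := sum_congr rfl fun x _ => by rw [ms_ker])
  have h3 := mul_le_mul_of_nonneg_right (hav π hπ π' hπ' hd y) (bw_pos hw hp (N - (a + n)) (a + n) v).le
  calc _ ≤ _ := h1
    _ ≤ ε * ker w p a n y v * bw w p (a + n) (N - (a + n)) v + n * (e₃ * bw w p a (N - a) y) := by linarith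
    _ = _ := by ring

/-- `B` of `gv87`: the future masses. -/
theorem bw_sup {N n : ℕ} (hN : a + n ≤ N) : ∀ r ≤ n, ∀ y : ℤ,
    ∑ z ∈ Icc y (y + r), ker w p a r y z * bw w p (a + r) (N - (a + r)) z ≤ bw w p a (N - a) y := fun _ hr y =>
  (ker_bw (by omega) y).le

variable {lo hi : ℤ}

/-- **Every group**, from every site of the row `a`. -/
theorem gg87 (hw : ∀ k y, 0 < w k y) (hp : ∀ k, 0 < p k) {N n k : ℕ} (hN : a + n ≤ N) {q v : ℤ} {Z g : ℝ}
    (H : ∀ y : ℤ, ker w p a n y v * Z ≤ g * (bw w p a (N - a) y * ker w p (k + 1) (a + n - (k + 1)) q v)) {m : ℤ → ℝ}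
    (hm : Sp22.Ms m lo hi N) :
    fw w p m (a + n) v * Z ≤ g * (Sp22.Zt w p m lo hi N * ker w p (k + 1) (a + n - (k + 1)) q v) := by
  have e1 : fw w p m (a + n) v = ∑ x ∈ Icc lo hi, fw w p m a x * ker w p a n x v :=
    Cnt58.fw_box (w := w) (p := p) ⟨hm.nn, hm.lo0, hm.hi0⟩ hN v
  have e2 := Sp22.Zt_row (w := w) (p := p) hm (show a ≤ N by omega)
  rw [e1, ← e2, sum_mul, sum_mul, mul_sum]
  refine sum_le_sum fun y _ => ?_
  have h1 := mul_le_mul_of_nonneg_left (H y) (fw_nonneg hw hp hm.nn a y)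
  calc _ = fw w p m a y * (ker w p a n y v * Z) := by ring
    _ ≤ _ := h1
    _ = _ := by ring

/-- **`CmpG20.Gate`** from (gt) and `bw (k + 1) q ≤ D1 * Z1`. -/
theorem gate87G (hw : ∀ k y, 0 < w k y) (hp : ∀ k, 0 < p k) {N n k : ℕ} (hN : a + n ≤ N) {q : ℤ} {Y0 : Finset ℤ} {Z g D1 : ℝ}
    (hD1 : 0 ≤ D1) (hZ : bw w p (k + 1) (N - (k + 1)) q ≤ D1 * Z)
    (H : ∀ v ∈ Y0, ∀ y : ℤ, ker w p a n y v * Z ≤ g * (bw w p a (N - a) y * ker w p (k + 1) (a + n - (k + 1)) q v)) :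
    CmpG20.Gate w p lo hi N (a + n) Y0 (D1 * g) k q :=
  CmpG20.Gate.of_core hw hp hD1 hZ fun _ hm v hv => gg87 hw hp hN (H v hv) hm

end

end Pool.Agent.W_7d29a1_C1.Gt66
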