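import Pool.Agent.W_7d29a1_C1.PathD58
import Pool.Agent.W_7d29a1_C1.GateC66
import Pool.Agent.W_7d29a1_C1.GateG87

/-!
MP_7d29a1_pr, attractor route, [C1] SEP: THE JUNCTION, from the good environments of the average to (gt). (helper58)

`gt58`: (gt) from: pairs of core paths of mass `≥ Q Z1²` (`hD`), each avoided with `ε` of the kernel plus `e₃ bw / bw` (`hout`: any
decomposition of the paths which leave the window). `gtE58`: `η ∈ Gd66 … (D58 … Ex66 …)`, the levels of `havC` and the outside part.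
-/

set_option autoImplicit false

namespace Pool.Agent.W_7d29a1_C1.PW58

open MeasureTheory ProbabilityTheory Finset
open Pool.Agent.W_7d29a1_F Pool.Agent.W_7d29a1_h4g Pool.Agent.W_7d29a1_H Pool.Agent.W_7d29a1_HS Pool.Agent.W_7d29a1_HL
open Pool.Agent.W_7d29a1_C1
open Pool.Agent.W_7d29a1_C1.S71
open Pool.Agent.W_7d29a1_C1.F31 (DecO FinO)
open Pool.Agent.W_7d29a1_C1.K91 (wt wt_pos)
open Pool.Agent.W_7d29a1_C1.K91P (fw bw bw_pos fw_nonneg)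
open Pool.Agent.W_7d29a1_C1.U16 (ker ker_nonneg ker_eq_zero)
open Pool.Agent.W_7d29a1_C1.BP58
open Pool.Agent.W_7d29a1_C1.Gt66

noncomputable section

attribute [local instance 10] Classical.propDecidable

/-- The sites of the weights are sites of the paths. -/
theorem sit_sub_Ex66 {a n : ℕ} (π π' : Pa n) : sit a π ∪ sit a π' ⊆ Ex66 a π π' := by
  rintro ⟨r, x⟩ (⟨j, _, h1, h2⟩ | ⟨j, _, h1, h2⟩)
  · exact ⟨j, x, Or.inl h2, Prod.ext h1 rfl⟩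
  · exact ⟨j, x, Or.inr h2, Prod.ext h1 rfl⟩

section det

variable {w : ℕ → ℤ → ℝ} {p : ℕ → ℝ} {a : ℕ}

/-- **(gt) FROM ANY BOUND OF THE PATHS WHICH AVOID TWO CORE PATHS.** -/
theorem gt58 (hw : ∀ k y, 0 < w k y) (hp : ∀ k, 0 < p k) {N n k : ℕ} (hk : k + 1 ≤ a) (hN : a + n ≤ N) {q : ℤ}
    {Co : ℕ → ℤ → Prop} {v : ℤ} {D : Pa n → Pa n → Prop} {Q ε e₃ G₃ : ℝ} (hQ : 0 < Q) (hε : ε < 1) (he : 0 ≤ e₃) (hG : 0 ≤ G₃)
    (hD : Q * Z1 w p N a n Co k q ^ 2 ≤ ∑ π ∈ Ps Co (Ic a k q) n, ∑ π' ∈ Ps Co (Ic a k q) n,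
      if D π π' then kp w p N a k q π * kp w p N a k q π' else 0)
    (y : ℤ) (hout : ∀ π ∈ Ps Co (Ic a k q) n, ∀ π' ∈ Ps Co (Ic a k q) n, D π π' →
      ms w p a (A2 π π') (dl y) n v * bw w p (a + n) (N - (a + n)) v ≤
        ε * (ker w p a n y v * bw w p (a + n) (N - (a + n)) v) + e₃ * bw w p a (N - a) y)
    (hZ : Z1 w p N a n Co k q ≤ G₃ * (ker w p (k + 1) (a + n - (k + 1)) q v * bw w p (a + n) (N - (a + n)) v)) :
    ker w p a n y v * Z1 w p N a n Co k q ≤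
      (2 + e₃ * G₃) / ((1 - ε) * Q) * (bw w p a (N - a) y * ker w p (k + 1) (a + n - (k + 1)) q v) := by
  have hw' : ∀ k y, 0 ≤ w k y := fun k y => (hw k y).le
  have hp' : ∀ k, 0 ≤ p k := fun k => (hp k).le
  obtain ⟨Z, eZ⟩ : ∃ Z, Z = Z1 w p N a n Co k q := ⟨_, rfl⟩
  obtain ⟨X, eX⟩ : ∃ X, X = ker w p a n y v := ⟨_, rfl⟩
  obtain ⟨K, eK⟩ : ∃ K, K = ker w p (k + 1) (a + n - (k + 1)) q v := ⟨_, rfl⟩
  obtain ⟨B, eB⟩ : ∃ B, B = bw w p (a + n) (N - (a + n)) v := ⟨_, rfl⟩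
  obtain ⟨T, eT⟩ : ∃ T, T = bw w p a (N - a) y := ⟨_, rfl⟩
  have Z0 : 0 ≤ Z := eZ ▸ Z1_nonneg hw hp _ _ _
  have X0 : 0 ≤ X := eX ▸ ker_nonneg hw hp _ _ _ _
  have K0 : 0 ≤ K := eK ▸ ker_nonneg hw hp _ _ _ _
  have B0 : 0 < B := eB ▸ bw_pos hw hp _ _ _
  have T0 : 0 < T := eT ▸ bw_pos hw hp _ _ _
  obtain ⟨e₂, hE⟩ : ∃ e₂, e₂ = e₃ * T / B := ⟨_, rfl⟩
  have hE0 : 0 ≤ e₂ := by rw [hE]; positivity
  have hav' : ∀ π ∈ Ps Co (Ic a k q) n, ∀ π' ∈ Ps Co (Ic a k q) n, D π π' →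
      ms w p a (A2 π π') (dl y) n v ≤ ε * ms w p a All (dl y) n v + e₂ := by
    intro π hπ π' hπ' hd
    have h3 := hout π hπ π' hπ' hd
    rw [← eX, ← eB, ← eT] at h3
    have h4 : ms w p a (A2 π π') (dl y) n v * B ≤ (ε * X + e₂) * B := by
      have h5 : e₂ * B = e₃ * T := by rw [hE]; field_simp
      rw [add_mul, h5]
      linarith
    have h7 := le_of_mul_le_mul_right h4 B0
    rw [ms_ker, ← eX]
    exact h7
  have key := gate (w := w) (p := p) (a := a) hw' hp' (dl_nonneg y) (k := Ks w p a k q) (fun z => ker_nonneg hw hp _ _ _ z) (C := Co)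
    (I := Ic a k q) (fun z hz => Ks_off hz) (lo := min q y) (hi := max (q + ((a - (k + 1) : ℕ) : ℤ)) y)
    (fun z hz => ⟨(min_le_left _ _).trans (mem_Icc.1 hz).1, (mem_Icc.1 hz).2.trans (le_max_left _ _)⟩) n
    (g := fun u => bw w p (a + n) (N - (a + n)) u) (fun u => (bw_pos hw hp _ _ u).le) v (D := D) (q := Q) (ε₁ := ε) (e₂ := e₂)
    (Zc := Z1 w p N a n Co k q) hε.le hE0 rfl hD hav'
  rw [ms_ker, ms_Ks hk, ← eZ, ← eX, ← eK] at key
  have hT : ∑ u ∈ Icc (min q y) (max (q + ((a - (k + 1) : ℕ) : ℤ)) y + n), ms w p a All (dl y) n u * bw w p (a + n) (N - (a + n)) u = T := by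
    rw [eT, ← ker_bw (w := w) (p := p) (a := a) hN y]
    refine (sum_subset (fun u hu => ?_) fun u _ hu => ?_).symm.trans (sum_congr rfl fun u _ => by rw [ms_ker])
    · rw [mem_Icc] at hu ⊢
      have h1 := min_le_right q y
      have h2 := le_max_right (q + ((a - (k + 1) : ℕ) : ℤ)) y
      omega
    · rw [ms_ker, ker_eq_zero a n y u fun h => hu (mem_Icc.2 h), zero_mul]
  rw [hT] at key
  rw [← eZ, ← eK, ← eB] at hZ
  rw [← eX, ← eZ, ← eT, ← eK]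
  have hQ1 : 0 < (1 - ε) * Q := mul_pos (by linarith) hQ
  rcases eq_or_lt_of_le Z0 with h0 | h0
  · rw [← h0, mul_zero]
    have : 0 ≤ e₃ * G₃ := by positivity
    exact mul_nonneg (div_nonneg (by linarith) hQ1.le) (mul_nonneg T0.le K0)
  · have h1 : e₂ * Z ^ 2 ≤ e₃ * G₃ * (T * K) * Z := by
      have h2 : e₂ * Z ≤ e₃ * G₃ * (T * K) := by
        calc e₂ * Z ≤ e₂ * (G₃ * (K * B)) := mul_le_mul_of_nonneg_left hZ hE0
          _ = e₃ * G₃ * (T * K) := by rw [hE]; field_simp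
      calc e₂ * Z ^ 2 = e₂ * Z * Z := by ring
        _ ≤ _ := mul_le_mul_of_nonneg_right h2 Z0
    have h3 : (X * Z) * ((1 - ε) * Q) * Z ≤ (2 + e₃ * G₃) * (T * K) * Z := by
      calc (X * Z) * ((1 - ε) * Q) * Z = (1 - ε) * X * (Q * Z ^ 2) := by ring
        _ ≤ 2 * Z * (T * K) + e₂ * Z ^ 2 := key
        _ ≤ 2 * Z * (T * K) + e₃ * G₃ * (T * K) * Z := by linarith
        _ = _ := by ring
    have h4 := le_of_mul_le_mul_right h3 h0
    rw [div_mul_eq_mul_div, le_div_iff₀ hQ1]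
    exact h4

end det

/-! ### The model -/

variable {μ : Measure ℝ} {s : ℝ}

/-- `kap` of PathW58 is `kp` of GateG87. -/
theorem kap_kp {p : ℕ → ℝ} {a N k n : ℕ} {q : ℤ} (π : Pa n) (η : Env) : kap p a N (kc p (k + 1) a q) π η = kp (wt η) p N a k q π := rfl

/-- The good environments of the average have `hD`. -/
theorem hD58 {p : ℕ → ℝ} {a N k n : ℕ} {q : ℤ} {Co : ℕ → ℤ → Prop} {C : Pa n → Pa n → Set Env} {Q : ℝ} {η : Env}
    (hη : η ∈ Gd66 (Ps Co (Ic a k q) n) (kap p a N (kc p (k + 1) a q)) C Q) :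
    Q * Z1 (wt η) p N a n Co k q ^ 2 ≤ ∑ π ∈ Ps Co (Ic a k q) n, ∑ π' ∈ Ps Co (Ic a k q) n,
      if η ∈ C π π' then kp (wt η) p N a k q π * kp (wt η) p N a k q π' else 0 := hη

end

end Pool.Agent.W_7d29a1_C1.PW58
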