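import Pool.Agent.W_7d29a1_HX.X50_Unl
import Pool.Agent.W_7d29a1_HS.Reg

/-!
MP_7d29a1_pr, [C1] attractor route, UNIFORM LOWER BOUND AT CONSTANT LEVEL, part A: sums over the octaves, the grids of the scales `2 ^ i`
(rows: multiples of `2 ^ i`, mesh `mw i` of the order of the width), the links. (helper16)
-/

set_option autoImplicit false

namespace Pool.Agent.W_7d29a1_C1.U16

open MeasureTheory ProbabilityTheory Filter Topology Finset
open Pool.Agent.W_7d29a1_F Pool.Agent.W_7d29a1_h4g Pool.Agent.W_7d29a1_H Pool.Agent.W_7d29a1_HS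

noncomputable section

/-! ### Sums over the octaves -/

theorem oct_sum {b : ℝ} (hb : 0 < b) : ∃ S : ℝ, 0 < S ∧ ∀ n k : ℕ, 2 ^ k ≤ n →
    ∑ i ∈ range (k + 1), ((2 : ℝ) ^ i / n) ^ b ≤ S := by
  obtain ⟨r, hr⟩ : ∃ r : ℝ, r = ((2 : ℝ) ^ b)⁻¹ := ⟨_, rfl⟩
  have h2b : 1 < (2 : ℝ) ^ b := Real.one_lt_rpow (by norm_num) hb
  have hr0 : 0 < r := by rw [hr]; positivity
  have hr1 : r < 1 := by rw [hr]; exact inv_lt_one_of_one_lt₀ h2b
  refine ⟨1 / (1 - r), div_pos one_pos (by linarith), fun n k hk => ?_⟩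
  have hn : (2 : ℝ) ^ k ≤ n := by exact_mod_cast hk
  have hn0 : (0 : ℝ) < n := lt_of_lt_of_le (by positivity) hn
  have h1 : ∀ i ∈ range (k + 1), ((2 : ℝ) ^ i / n) ^ b ≤ r ^ (k - i) := by
    intro i hi
    rw [mem_range] at hi
    obtain ⟨l, hl⟩ : ∃ l, k = i + l := ⟨k - i, by omega⟩
    have e1 : k - i = l := by omega
    rw [e1]
    have h2 : (2 : ℝ) ^ i / n ≤ ((2 : ℝ) ^ l)⁻¹ := by
      rw [div_le_iff₀ hn0, inv_mul_eq_div, le_div_iff₀ (by positivity), ← pow_add, ← hl]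
      exact hn
    have h3 : (((2 : ℝ) ^ l)⁻¹) ^ b = r ^ l := by
      rw [hr, Real.inv_rpow (by positivity), inv_pow]
      congr 1
      rw [← Real.rpow_natCast, ← Real.rpow_natCast, ← Real.rpow_mul (by norm_num), ← Real.rpow_mul (by norm_num), mul_comm]
    rw [← h3]
    exact Real.rpow_le_rpow (by positivity) h2 hb.le
  refine (sum_le_sum h1).trans ?_
  have h4 : ∑ i ∈ range (k + 1), r ^ (k - i) = ∑ i ∈ range (k + 1), r ^ i := by
    have := Finset.sum_range_reflect (fun i => r ^ i) (k + 1)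
    rw [← this]
    exact sum_congr rfl fun i _ => rfl
  rw [h4]
  have h5 := geom_sum_eq (ne_of_lt hr1) (k + 1)
  rw [h5]
  have h6 : (r ^ (k + 1) - 1) / (r - 1) = (1 - r ^ (k + 1)) / (1 - r) := by
    rw [← neg_div_neg_eq]
    congr 1 <;> ring
  rw [h6]
  exact div_le_div_of_nonneg_right (by linarith [pow_nonneg hr0.le (k + 1)]) (by linarith)

theorem pow_exp {q : ℕ} {b c' : ℝ} (hb : 0 < b) (hc : 0 < c') : ∃ M : ℝ, 0 < M ∧ ∀ x : ℝ, 1 ≤ x → x ^ q * Real.exp (-(c' * x ^ b)) ≤ M := by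
  obtain ⟨k, hk⟩ := exists_nat_gt ((q : ℝ) / b)
  refine ⟨(k.factorial : ℝ) / c' ^ k, by positivity, fun x hx => ?_⟩
  have hx0 : 0 < x := by linarith
  have hy : 0 ≤ c' * x ^ b := by positivity
  have h1 := Real.pow_div_factorial_le_exp (c' * x ^ b) hy k
  have h2 : x ^ q ≤ (x ^ b) ^ k := by
    rw [← Real.rpow_natCast (x ^ b) k, ← Real.rpow_mul hx0.le, ← Real.rpow_natCast x q]
    refine Real.rpow_le_rpow_of_exponent_le hx ?_
    rw [div_lt_iff₀ hb] at hk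
    linarith
  have h3 : Real.exp (-(c' * x ^ b)) = (Real.exp (c' * x ^ b))⁻¹ := Real.exp_neg _
  rw [h3, ← div_eq_mul_inv, div_le_div_iff₀ (Real.exp_pos _) (by positivity)]
  have h4 : (c' * x ^ b) ^ k ≤ k.factorial * Real.exp (c' * x ^ b) := by
    rw [div_le_iff₀ (by positivity)] at h1
    linarith
  calc x ^ q * c' ^ k ≤ (x ^ b) ^ k * c' ^ k := mul_le_mul_of_nonneg_right h2 (by positivity)
    _ = (c' * x ^ b) ^ k := by rw [mul_pow]; ring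
    _ ≤ _ := h4

/-- The probabilities of all the octaves. -/
theorem oct_tail {q : ℕ} {b c' γ : ℝ} (hb : 0 < b) (hc : 0 < c') (hγ : 0 < γ) : ∃ A' : ℝ, 0 < A' ∧ ∀ n k : ℕ, 2 ^ k ≤ n → ∀ u : ℝ, 1 ≤ u →
    ∑ i ∈ range (k + 1), ((n : ℝ) / 2 ^ i) ^ q * Real.exp (-(c' * (u * ((n : ℝ) / 2 ^ i) ^ b) ^ γ)) ≤ A' * Real.exp (-(c' / 2 * u ^ γ)) := by
  obtain ⟨M, hM, hpe⟩ := pow_exp (q := q + 1) (b := b * γ) (c' := c' / 2) (by positivity) (by positivity)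
  obtain ⟨S, hS, hs⟩ := oct_sum (b := 1) one_pos
  refine ⟨M * S, by positivity, fun n k hk u hu => ?_⟩
  have hn : (2 : ℝ) ^ k ≤ n := by exact_mod_cast hk
  have hn0 : (0 : ℝ) < n := lt_of_lt_of_le (by positivity) hn
  have h1 : ∀ i ∈ range (k + 1), ((n : ℝ) / 2 ^ i) ^ q * Real.exp (-(c' * (u * ((n : ℝ) / 2 ^ i) ^ b) ^ γ)) ≤
      M * ((2 : ℝ) ^ i / n) ^ (1 : ℝ) * Real.exp (-(c' / 2 * u ^ γ)) := by
    intro i hi
    rw [mem_range] at hi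
    obtain ⟨r, hr⟩ : ∃ r : ℝ, r = (n : ℝ) / 2 ^ i := ⟨_, rfl⟩
    have hr1 : 1 ≤ r := by
      rw [hr, le_div_iff₀ (by positivity), one_mul]
      exact (pow_le_pow_right₀ (by norm_num) (by omega)).trans hn
    have hr0 : 0 < r := by linarith
    have e1 : (2 : ℝ) ^ i / n = r⁻¹ := by rw [hr, inv_div]
    rw [← hr, e1, Real.rpow_one]
    have h2 := hpe r hr1
    have h3 : (u * r ^ b) ^ γ = u ^ γ * r ^ (b * γ) := by
      rw [Real.mul_rpow (by linarith) (by positivity), ← Real.rpow_mul hr0.le]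
    have h4 : 1 ≤ u ^ γ := Real.one_le_rpow hu hγ.le
    have h5 : 1 ≤ r ^ (b * γ) := Real.one_le_rpow hr1 (by positivity)
    have h6 : (u ^ γ + r ^ (b * γ)) / 2 ≤ u ^ γ * r ^ (b * γ) := by nlinarith
    rw [h3]
    have h7 : Real.exp (-(c' * (u ^ γ * r ^ (b * γ)))) ≤ Real.exp (-(c' / 2 * r ^ (b * γ))) * Real.exp (-(c' / 2 * u ^ γ)) := by
      rw [← Real.exp_add]
      refine Real.exp_le_exp.2 ?_
      nlinarith
    have h8 : r ^ q = r ^ (q + 1) * r⁻¹ := by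
      rw [pow_succ, mul_assoc, mul_inv_cancel₀ hr0.ne', mul_one]
    calc r ^ q * Real.exp (-(c' * (u ^ γ * r ^ (b * γ)))) ≤
          r ^ q * (Real.exp (-(c' / 2 * r ^ (b * γ))) * Real.exp (-(c' / 2 * u ^ γ))) :=
          mul_le_mul_of_nonneg_left h7 (by positivity)
      _ = (r ^ (q + 1) * Real.exp (-(c' / 2 * r ^ (b * γ)))) * r⁻¹ * Real.exp (-(c' / 2 * u ^ γ)) := by rw [h8]; ring
      _ ≤ M * r⁻¹ * Real.exp (-(c' / 2 * u ^ γ)) := by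
          have : 0 ≤ r⁻¹ := by positivity
          exact mul_le_mul_of_nonneg_right (mul_le_mul_of_nonneg_right h2 this) (Real.exp_pos _).le
  refine (sum_le_sum h1).trans ?_
  rw [← sum_mul, ← mul_sum]
  exact mul_le_mul_of_nonneg_right (mul_le_mul_of_nonneg_left (hs n k hk) hM.le) (Real.exp_pos _).le

variable {μ : Measure ℝ} {s : ℝ} [IsProbabilityMeasure μ] {c C : ℝ} {n₀ : ℕ}

/-! ### Scales -/

/-- The unit at the smaller scales. -/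
theorem EE_oct (h : In μ s c C n₀) : ∃ a K : ℝ, 0 < a ∧ 0 < K ∧ ∃ n₁ : ℕ, 1 ≤ n₁ ∧ ∀ n : ℕ, n₁ ≤ n → ∀ m : ℕ, 1 ≤ m → m ≤ n →
    EE μ s m ≤ K * ((m : ℝ) / n) ^ a * EE μ s n := by
  obtain ⟨a, k, ha, hk, n₁, hn1, hE⟩ := EE_ratio h
  have hn1R : (1 : ℝ) ≤ n₁ := by exact_mod_cast hn1
  have hp1 : 1 ≤ (n₁ : ℝ) ^ a := Real.one_le_rpow hn1R ha.le
  refine ⟨a, k⁻¹ * (n₁ : ℝ) ^ a, ha, by positivity, n₁, hn1, fun n hn m hm hmn => ?_⟩
  have hmR : (1 : ℝ) ≤ m := by exact_mod_cast hm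
  have hnR : (1 : ℝ) ≤ n := by exact_mod_cast hn1.trans hn
  have hEn := EE_pos (μ := μ) (s := s) n
  have key : ∀ q : ℕ, n₁ ≤ q → q ≤ n → EE μ s q ≤ k⁻¹ * ((q : ℝ) / n) ^ a * EE μ s n := by
    intro q hq hqn
    have hqR : (0 : ℝ) < q := by exact_mod_cast (by omega : 0 < q)
    have h1 := hE q n hq hqn
    have h2 : ((n : ℝ) / q) ^ a = (((q : ℝ) / n) ^ a)⁻¹ := by
      rw [← Real.inv_rpow (by positivity), inv_div]
    rw [h2] at h1
    have h3 : 0 < ((q : ℝ) / n) ^ a := by positivity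
    rw [mul_assoc, inv_mul_eq_div, mul_div_assoc'] at h1
    rw [mul_assoc, inv_mul_eq_div, le_div_iff₀ hk]
    rw [div_le_iff₀ h3] at h1
    linarith
  rcases le_total n₁ m with h1 | h1
  · refine (key m h1 hmn).trans (mul_le_mul_of_nonneg_right (mul_le_mul_of_nonneg_right ?_ (by positivity)) hEn.le)
    have : 0 < k⁻¹ := by positivity
    nlinarith
  · refine (EE_mono h1).trans ((key n₁ le_rfl hn).trans (mul_le_mul_of_nonneg_right ?_ hEn.le))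
    rw [mul_assoc]
    refine mul_le_mul_of_nonneg_left ?_ (by positivity)
    rw [← Real.mul_rpow (by positivity) (by positivity)]
    refine Real.rpow_le_rpow (by positivity) ?_ ha.le
    rw [mul_div_assoc']
    exact div_le_div_of_nonneg_right (by nlinarith) (by positivity)

/-- The width at the smaller scales. -/
theorem wd_oct (h : In μ s c C n₀) : ∃ a K : ℝ, 0 < a ∧ 0 < K ∧ ∃ n₁ : ℕ, 1 ≤ n₁ ∧ ∀ n : ℕ, n₁ ≤ n → ∀ m : ℕ, 1 ≤ m → m ≤ n →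
    wd μ s m ≤ K * ((m : ℝ) / n) ^ a * wd μ s n := by
  obtain ⟨a, k, ha, hk, n₁, hn1, hE⟩ := wd_ratio h
  have hn1R : (1 : ℝ) ≤ n₁ := by exact_mod_cast hn1
  have hp1 : 1 ≤ (n₁ : ℝ) ^ a := Real.one_le_rpow hn1R ha.le
  refine ⟨a, 2 * (k⁻¹ * (n₁ : ℝ) ^ a), ha, by positivity, n₁, hn1, fun n hn m hm hmn => ?_⟩
  have hmR : (1 : ℝ) ≤ m := by exact_mod_cast hm
  have hnR : (1 : ℝ) ≤ n := by exact_mod_cast hn1.trans hn
  have hwn := h.wd_nonneg n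
  have key : ∀ q : ℕ, n₁ ≤ q → q ≤ n → wd μ s q ≤ k⁻¹ * ((q : ℝ) / n) ^ a * wd μ s n := by
    intro q hq hqn
    have hqR : (0 : ℝ) < q := by exact_mod_cast (by omega : 0 < q)
    have h1 := hE q n hq hqn
    have h2 : ((n : ℝ) / q) ^ a = (((q : ℝ) / n) ^ a)⁻¹ := by
      rw [← Real.inv_rpow (by positivity), inv_div]
    rw [h2] at h1
    have h3 : 0 < ((q : ℝ) / n) ^ a := by positivity
    rw [mul_assoc, inv_mul_eq_div, mul_div_assoc'] at h1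
    rw [mul_assoc, inv_mul_eq_div, le_div_iff₀ hk]
    rw [div_le_iff₀ h3] at h1
    linarith
  rcases le_total n₁ m with h1 | h1
  · refine (key m h1 hmn).trans (mul_le_mul_of_nonneg_right (mul_le_mul_of_nonneg_right ?_ (by positivity)) hwn)
    have : 0 < k⁻¹ := by positivity
    nlinarith
  · have h2 : wd μ s m ≤ 2 * wd μ s n₁ := by
      have h3 := wd_growth_one h hm h1
      have h4 : EE μ s m ≤ EE μ s n₁ := EE_mono h1
      have h5 := EE_pos (μ := μ) (s := s) n₁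
      have h6 := h.wd_nonneg n₁
      have h7 : wd μ s m * EE μ s n₁ ≤ 2 * wd μ s n₁ * EE μ s n₁ := by nlinarith
      exact le_of_mul_le_mul_right h7 h5
    have h3 := key n₁ le_rfl hn
    have h4 : k⁻¹ * ((n₁ : ℝ) / n) ^ a * wd μ s n ≤ k⁻¹ * (n₁ : ℝ) ^ a * ((m : ℝ) / n) ^ a * wd μ s n := by
      refine mul_le_mul_of_nonneg_right ?_ hwn
      rw [mul_assoc k⁻¹ ((n₁ : ℝ) ^ a)]
      refine mul_le_mul_of_nonneg_left ?_ (by positivity)
      rw [← Real.mul_rpow (by positivity) (by positivity)]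
      refine Real.rpow_le_rpow (by positivity) ?_ ha.le
      rw [mul_div_assoc']
      exact div_le_div_of_nonneg_right (by nlinarith) (by positivity)
    calc wd μ s m ≤ 2 * wd μ s n₁ := h2
      _ ≤ 2 * (k⁻¹ * (n₁ : ℝ) ^ a * ((m : ℝ) / n) ^ a * wd μ s n) := by linarith
      _ = _ := by ring

theorem wd_le (h : In μ s c C n₀) {m n : ℕ} (hm : 1 ≤ m) (hmn : m ≤ n) : wd μ s n ≤ 2 * ((n : ℝ) / m) * wd μ s m := by
  have h1 := vA_le_two h hm hmn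
  have hmR : (0 : ℝ) < m := by exact_mod_cast hm
  have e1 : 2 * ((n : ℝ) / m) * wd μ s m = n * (2 * vA 1 μ s m) := by
    unfold wd
    field_simp
  rw [e1]
  exact mul_le_mul_of_nonneg_left h1 (Nat.cast_nonneg n)

theorem wd_le_two (h : In μ s c C n₀) {m n : ℕ} (hm : 1 ≤ m) (hmn : m ≤ n) : wd μ s m ≤ 2 * wd μ s n := by
  have h3 := wd_growth_one h hm hmn
  have h4 : EE μ s m ≤ EE μ s n := EE_mono hmn
  have h5 := EE_pos (μ := μ) (s := s) n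
  have h6 := h.wd_nonneg n
  have h7 : wd μ s m * EE μ s n ≤ 2 * wd μ s n * EE μ s n := by nlinarith
  exact le_of_mul_le_mul_right h7 h5

/-! ### The mesh, the grids, the links -/

/-- The mesh of the scale `2 ^ i`. -/
def mw (μ : Measure ℝ) (s κ : ℝ) (i : ℕ) : ℕ := max 1 ⌊κ * wd μ s (2 ^ i)⌋₊

/-- The points of the grid of the scale `2 ^ i`. -/
def gp (μ : Measure ℝ) (s κ : ℝ) (i r : ℕ) (k : ℤ) : Pt := (((r * 2 ^ i : ℕ) : ℤ), ⌊sl μ s * ((r * 2 ^ i : ℕ) : ℝ)⌋ + k * mw μ s κ i)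

/-- The constant of the mesh. -/
structure Ka (μ : Measure ℝ) (s c κ : ℝ) : Prop where
  pos : 0 < κ
  le_c : κ ≤ c / 32
  le_s : ∀ m : ℕ, 1 ≤ m → κ * wd μ s m ≤ sl μ s * m
  le_t : ∀ m : ℕ, 1 ≤ m → κ * wd μ s m ≤ (1 - sl μ s) * m

theorem exists_Ka (h : In μ s c C n₀) : ∃ κ : ℝ, Ka μ s c κ := by
  have hs0 := h.sl_pos
  have hs1 := h.sl_lt
  have hc0 := h.c0
  have hv1 := h.vA_pos le_rfl
  obtain ⟨κ, hκ⟩ : ∃ κ : ℝ, κ = min (c / 32) (min (sl μ s) (1 - sl μ s) / (2 * vA 1 μ s 1)) := ⟨_, rfl⟩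
  have hmin : 0 < min (sl μ s) (1 - sl μ s) := lt_min hs0 (by linarith)
  have hκ0 : 0 < κ := by rw [hκ]; exact lt_min (by positivity) (by positivity)
  have key : ∀ m : ℕ, 1 ≤ m → κ * wd μ s m ≤ min (sl μ s) (1 - sl μ s) * m := by
    intro m hm
    have h1 := vA_le_two h le_rfl hm
    have h2 : κ ≤ min (sl μ s) (1 - sl μ s) / (2 * vA 1 μ s 1) := by rw [hκ]; exact min_le_right _ _
    rw [le_div_iff₀ (by positivity)] at h2
    have hm0 : (0 : ℝ) ≤ m := Nat.cast_nonneg m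
    unfold wd
    calc κ * (m * vA 1 μ s m) ≤ κ * (m * (2 * vA 1 μ s 1)) :=
          mul_le_mul_of_nonneg_left (mul_le_mul_of_nonneg_left h1 hm0) hκ0.le
      _ = (κ * (2 * vA 1 μ s 1)) * m := by ring
      _ ≤ _ := mul_le_mul_of_nonneg_right h2 hm0
  exact ⟨κ, hκ0, by rw [hκ]; exact min_le_left _ _, fun m hm => (key m hm).trans (mul_le_mul_of_nonneg_right (min_le_left _ _) (Nat.cast_nonneg m)),
    fun m hm => (key m hm).trans (mul_le_mul_of_nonneg_right (min_le_right _ _) (Nat.cast_nonneg m))⟩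

omit [IsProbabilityMeasure μ] in
theorem one_le_mw (κ : ℝ) (i : ℕ) : 1 ≤ mw μ s κ i := le_max_left _ _

theorem mw_or (h : In μ s c C n₀) {κ : ℝ} (hκ : Ka μ s c κ) (i : ℕ) : mw μ s κ i = 1 ∨ (mw μ s κ i : ℝ) ≤ κ * wd μ s (2 ^ i) := by
  unfold mw
  rcases le_total ⌊κ * wd μ s (2 ^ i)⌋₊ 1 with h1 | h1
  · left
    exact max_eq_left h1
  · right
    rw [max_eq_right h1]
    exact Nat.floor_le (mul_nonneg hκ.pos.le (h.wd_nonneg _))

theorem mw_le (h : In μ s c C n₀) {κ : ℝ} (hκ : Ka μ s c κ) (i : ℕ) : (mw μ s κ i : ℝ) ≤ 1 + κ * wd μ s (2 ^ i) := by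
  have h2 : 0 ≤ κ * wd μ s (2 ^ i) := mul_nonneg hκ.pos.le (h.wd_nonneg _)
  rcases mw_or h hκ i with h1 | h1
  · rw [h1]
    push_cast
    linarith
  · linarith

omit [IsProbabilityMeasure μ] in
theorem le_mw (κ : ℝ) (i : ℕ) : κ * wd μ s (2 ^ i) / 2 ≤ mw μ s κ i := by
  have h1 : (1 : ℝ) ≤ mw μ s κ i := by exact_mod_cast one_le_mw κ i
  have h2 : (⌊κ * wd μ s (2 ^ i)⌋₊ : ℝ) ≤ mw μ s κ i := by exact_mod_cast le_max_right _ _
  have h3 := Nat.lt_floor_add_one (κ * wd μ s (2 ^ i))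
  linarith

theorem mw_zero (h : In μ s c C n₀) {κ : ℝ} (hκ : Ka μ s c κ) : mw μ s κ 0 = 1 := by
  rcases mw_or h hκ 0 with h1 | h1
  · exact h1
  · have h2 := hκ.le_s 1 le_rfl
    have h3 := h.sl_lt
    have h4 := one_le_mw (μ := μ) (s := s) κ 0
    rw [pow_zero] at h1
    have h5 : (mw μ s κ 0 : ℝ) < 1 := by
      push_cast at h2
      linarith
    have h6 : mw μ s κ 0 < 1 := by exact_mod_cast h5
    omega

/-- A link of the scale `2 ^ i`. -/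
def Lk (μ : Measure ℝ) (s κ : ℝ) (i : ℕ) (p q : Pt) (j : ℕ) (y : ℤ) : Prop :=
  q.1 = p.1 + j ∧ q.2 = p.2 + y ∧ 2 ^ i ≤ j ∧ j ≤ 2 * 2 ^ i ∧ 0 ≤ y ∧ y ≤ j ∧ |(y : ℝ) - sl μ s * j| ≤ mw μ s κ i

/-- Forward: from every site there is a link to the grid. -/
theorem fwd (h : In μ s c C n₀) {κ : ℝ} (hκ : Ka μ s c κ) (i t : ℕ) (x : ℤ) : ∃ (r : ℕ) (k : ℤ) (j : ℕ) (y : ℤ),
    Lk μ s κ i ((t : ℤ), x) (gp μ s κ i r k) j y := by
  obtain ⟨m, hm⟩ : ∃ m : ℕ, m = 2 ^ i := ⟨_, rfl⟩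
  have hm1 : 1 ≤ m := by rw [hm]; exact Nat.one_le_two_pow
  obtain ⟨r, hr⟩ : ∃ r : ℕ, r = t / m + 2 := ⟨_, rfl⟩
  have h1 : m * (t / m) ≤ t := Nat.mul_div_le t m
  have h2 : t < m * (t / m) + m := by
    have := Nat.lt_mul_div_succ t (by omega : 0 < m)
    rw [mul_add, mul_one] at this
    exact this
  have h3 : r * m = m * (t / m) + 2 * m := by rw [hr]; ring
  obtain ⟨j, hj⟩ : ∃ j : ℕ, r * m = t + j := ⟨r * m - t, by omega⟩
  have hj1 : m ≤ j := by omega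
  have hj2 : j ≤ 2 * m := by omega
  obtain ⟨w, hw⟩ : ∃ w : ℕ, w = mw μ s κ i := ⟨_, rfl⟩
  have hw1 : 1 ≤ w := by rw [hw]; exact one_le_mw κ i
  have hwz : (0 : ℤ) < w := by exact_mod_cast hw1
  have hjR : (1 : ℝ) ≤ j := by exact_mod_cast (by omega : 1 ≤ j)
  obtain ⟨D, hD⟩ : ∃ D : ℤ, D = x + ⌊sl μ s * (j : ℝ)⌋ - ⌊sl μ s * ((r * m : ℕ) : ℝ)⌋ := ⟨_, rfl⟩
  obtain ⟨k, hk⟩ : ∃ k : ℤ, k = D / w := ⟨_, rfl⟩
  have k1 : k * w ≤ D := by rw [hk]; exact Int.ediv_mul_le _ hwz.ne'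
  have k2 : D < k * w + w := by
    rw [hk]
    have := Int.lt_ediv_add_one_mul_self D hwz
    linarith
  obtain ⟨y, hy⟩ : ∃ y : ℤ, y = ⌊sl μ s * ((r * m : ℕ) : ℝ)⌋ + k * w - x := ⟨_, rfl⟩
  have y1 : y ≤ ⌊sl μ s * (j : ℝ)⌋ := by rw [hy]; linarith
  have y2 : ⌊sl μ s * (j : ℝ)⌋ < y + w := by rw [hy]; linarith
  have f1 := Int.floor_le (sl μ s * (j : ℝ))
  have f2 := Int.lt_floor_add_one (sl μ s * (j : ℝ))
  have y3 : (y : ℝ) ≤ sl μ s * j := by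
    have : (y : ℝ) ≤ (⌊sl μ s * (j : ℝ)⌋ : ℤ) := by exact_mod_cast y1
    linarith
  have y4 : sl μ s * j < y + w := by
    have h5 : ⌊sl μ s * (j : ℝ)⌋ + 1 ≤ y + w := by omega
    have h6 : ((⌊sl μ s * (j : ℝ)⌋ : ℤ) : ℝ) + 1 ≤ y + w := by exact_mod_cast h5
    linarith
  have hs1 := h.sl_lt
  have hs0 := h.sl_pos
  refine ⟨r, k, j, y, ?_, ?_, by omega, by omega, ?_, ?_, ?_⟩
  · show (((r * 2 ^ i : ℕ) : ℤ)) = (t : ℤ) + j
    rw [← hm, hj]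
    push_cast
    rfl
  · show ⌊sl μ s * ((r * 2 ^ i : ℕ) : ℝ)⌋ + k * mw μ s κ i = x + y
    rw [← hm, ← hw, hy]
    ring
  · rcases mw_or h hκ i with h5 | h5
    · have h6 : w = 1 := by rw [hw]; exact h5
      have h7 : (-1 : ℝ) < y := by
        rw [h6] at y4
        push_cast at y4
        nlinarith
      have h8 : (-1 : ℤ) < y := by exact_mod_cast h7
      omega
    · rw [← hw, ← hm] at h5
      have h6 := hκ.le_s m hm1
      have h7 : sl μ s * m ≤ sl μ s * j := mul_le_mul_of_nonneg_left (by exact_mod_cast hj1) hs0.le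
      have h8 : (0 : ℝ) < y := by linarith
      have h9 : (0 : ℤ) < y := by exact_mod_cast h8
      omega
  · have h5 : (y : ℝ) ≤ j := by nlinarith
    exact_mod_cast h5
  · rw [← hw, abs_le]
    constructor
    · linarith
    · have : (0 : ℝ) ≤ w := Nat.cast_nonneg w
      linarith

/-- Backward: to every site there is a link from the grid. -/
theorem bwd (h : In μ s c C n₀) {κ : ℝ} (hκ : Ka μ s c κ) (i t : ℕ) (x : ℤ) (ht : 2 * 2 ^ i ≤ t) : ∃ (r : ℕ) (k : ℤ) (j : ℕ) (y : ℤ),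
    Lk μ s κ i (gp μ s κ i r k) ((t : ℤ), x) j y := by
  obtain ⟨m, hm⟩ : ∃ m : ℕ, m = 2 ^ i := ⟨_, rfl⟩
  have hm1 : 1 ≤ m := by rw [hm]; exact Nat.one_le_two_pow
  rw [← hm] at ht
  have h0 : 2 ≤ t / m := by
    rw [Nat.le_div_iff_mul_le (by omega)]
    omega
  obtain ⟨r, hr⟩ : ∃ r : ℕ, t / m = r + 1 := ⟨t / m - 1, by omega⟩
  have h1 : m * (t / m) ≤ t := Nat.mul_div_le t m
  have h2 : t < m * (t / m) + m := by
    have := Nat.lt_mul_div_succ t (by omega : 0 < m)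
    rw [mul_add, mul_one] at this
    exact this
  have h3 : m * (t / m) = r * m + m := by rw [hr]; ring
  obtain ⟨j, hj⟩ : ∃ j : ℕ, t = r * m + j := ⟨t - r * m, by omega⟩
  have hj1 : m ≤ j := by omega
  have hj2 : j ≤ 2 * m := by omega
  obtain ⟨w, hw⟩ : ∃ w : ℕ, w = mw μ s κ i := ⟨_, rfl⟩
  have hw1 : 1 ≤ w := by rw [hw]; exact one_le_mw κ i
  have hwz : (0 : ℤ) < w := by exact_mod_cast hw1
  have hjR : (1 : ℝ) ≤ j := by exact_mod_cast (by omega : 1 ≤ j)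
  obtain ⟨D, hD⟩ : ∃ D : ℤ, D = x - ⌊sl μ s * (j : ℝ)⌋ - ⌊sl μ s * ((r * m : ℕ) : ℝ)⌋ := ⟨_, rfl⟩
  obtain ⟨k, hk⟩ : ∃ k : ℤ, k = D / w := ⟨_, rfl⟩
  have k1 : k * w ≤ D := by rw [hk]; exact Int.ediv_mul_le _ hwz.ne'
  have k2 : D < k * w + w := by
    rw [hk]
    have := Int.lt_ediv_add_one_mul_self D hwz
    linarith
  obtain ⟨y, hy⟩ : ∃ y : ℤ, y = x - (⌊sl μ s * ((r * m : ℕ) : ℝ)⌋ + k * w) := ⟨_, rfl⟩
  have y1 : ⌊sl μ s * (j : ℝ)⌋ ≤ y := by rw [hy]; linarith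
  have y2 : y < ⌊sl μ s * (j : ℝ)⌋ + w := by rw [hy]; linarith
  have f1 := Int.floor_le (sl μ s * (j : ℝ))
  have f2 := Int.lt_floor_add_one (sl μ s * (j : ℝ))
  have y3 : sl μ s * j < y + 1 := by
    have : ((⌊sl μ s * (j : ℝ)⌋ : ℤ) : ℝ) ≤ (y : ℝ) := by exact_mod_cast y1
    linarith
  have y4 : (y : ℝ) + 1 ≤ sl μ s * j + w := by
    have h5 : y + 1 ≤ ⌊sl μ s * (j : ℝ)⌋ + w := by omega
    have h6 : (y : ℝ) + 1 ≤ ((⌊sl μ s * (j : ℝ)⌋ : ℤ) : ℝ) + w := by exact_mod_cast h5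
    linarith
  have hs1 := h.sl_lt
  have hs0 := h.sl_pos
  refine ⟨r, k, j, y, ?_, ?_, by omega, by omega, ?_, ?_, ?_⟩
  · show (t : ℤ) = (((r * 2 ^ i : ℕ) : ℤ)) + j
    rw [← hm, hj]
    push_cast
    rfl
  · show x = ⌊sl μ s * ((r * 2 ^ i : ℕ) : ℝ)⌋ + k * mw μ s κ i + y
    rw [← hm, ← hw, hy]
    ring
  · have h5 : (0 : ℤ) ≤ ⌊sl μ s * (j : ℝ)⌋ := Int.floor_nonneg.2 (by positivity)
    omega
  · rcases mw_or h hκ i with h5 | h5
    · have h6 : w = 1 := by rw [hw]; exact h5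
      rw [h6] at y4
      push_cast at y4
      have h7 : (y : ℝ) ≤ j := by nlinarith
      exact_mod_cast h7
    · rw [← hw, ← hm] at h5
      have h6 := hκ.le_t m hm1
      have h7 : (1 - sl μ s) * m ≤ (1 - sl μ s) * j := mul_le_mul_of_nonneg_left (by exact_mod_cast hj1) (by linarith)
      have h8 : (y : ℝ) ≤ j := by linarith
      exact_mod_cast h8
  · have : (1 : ℝ) ≤ w := by exact_mod_cast hw1
    rw [← hw, abs_le]
    constructor <;> linarith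

end

end Pool.Agent.W_7d29a1_C1.U16
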