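import Pool.Agent.W_7d29a1_C1.GateV66
import Pool.Agent.W_7d29a1_C1.GateU18
import Pool.Agent.W_7d29a1_C1.GateY87
import Pool.Agent.W_7d29a1_C1.PathG58
import Pool.Agent.W_7d29a1_C1.UniA16

/-!
MP_7d29a1_pr, attractor route, [C1] SEP: THE GATE, from the sets of the block (Lo18, Sd18, Up18, Us18, Jp18, walls) to (gt). (helper58)

Block of `5 n` rows above the row `a`, base `(a, x0)`, strips of `m` rows, `w = wd n`, `E = EE n`.
* `wt_le58`: one site weight from `Up18`; `jump58`: (J1), (J3) of `havV` from `Jp18`; `side58`: the three sides from `Sd18`, `Us18` and the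
  profile at two sites; `avo58`: the masses which avoid two core paths; **`gtS58`** = (gt).
-/

set_option autoImplicit false

namespace Pool.Agent.W_7d29a1_C1.PW58

open MeasureTheory ProbabilityTheory Finset
open Pool.Agent.W_7d29a1_F Pool.Agent.W_7d29a1_h4g Pool.Agent.W_7d29a1_H Pool.Agent.W_7d29a1_HS Pool.Agent.W_7d29a1_HL
open Pool.Agent.W_7d29a1_C1
open Pool.Agent.W_7d29a1_C1.K91 (wt wt_pos)
open Pool.Agent.W_7d29a1_C1.K91P (fw bw bw_pos fw_nonneg)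
open Pool.Agent.W_7d29a1_C1.U16 (ker ker_nonneg ker_eq_zero lat16 ker_W)
open Pool.Agent.W_7d29a1_C1.GL18
open Pool.Agent.W_7d29a1_C1.Gt66

noncomputable section

attribute [local instance 10] Classical.propDecidable

variable {μ : Measure ℝ} {s c C : ℝ} {n₀ : ℕ}

/-! ### The lateral coordinate -/

/-- The lateral coordinate of the site `x` of the row `a + j`, base `(a, x0)`. -/
def lt (μ : Measure ℝ) (s : ℝ) (x0 : ℤ) (j : ℕ) (x : ℤ) : ℝ := (x : ℝ) - x0 - sl μ s * j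

theorem lat_lt (a : ℕ) (x0 : ℤ) (j : ℕ) (x : ℤ) : lat16 μ s ((a : ℤ), x0) (((a + j : ℕ) : ℤ), x) = lt μ s x0 j x := by
  unfold lat16 lt
  push_cast
  ring

theorem lt_succ (x0 : ℤ) (j : ℕ) (x : ℤ) : lt μ s x0 (j + 1) x = lt μ s x0 j x - sl μ s := by
  unfold lt
  push_cast
  ring

theorem lt_add (x0 : ℤ) (j : ℕ) (x : ℤ) : lt μ s x0 j (x + 1) = lt μ s x0 j x + 1 := by
  unfold lt
  push_cast
  ring

theorem lt_lt {x0 : ℤ} {j : ℕ} {x y : ℤ} : lt μ s x0 j x < lt μ s x0 j y ↔ x < y := by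
  unfold lt
  constructor
  · intro h
    have : (x : ℝ) < y := by linarith
    exact_mod_cast this
  · intro h
    have : (x : ℝ) < y := by exact_mod_cast h
    linarith

theorem lt_le {x0 : ℤ} {j : ℕ} {x y : ℤ} : lt μ s x0 j x ≤ lt μ s x0 j y ↔ x ≤ y := by
  rw [← not_lt, lt_lt, not_lt]

/-! ### One site weight -/

theorem exp_le_V [IsProbabilityMeasure μ] (η : Env) (p : Pt) : Real.exp (-lam μ s) * Real.exp (η (p.1 + 1, p.2)) ≤ Real.exp (V μ s η p 1) := by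
  have h1 : W μ s η p 1 0 = Real.exp (-lam μ s) * Real.exp (η (p.1 + 1, p.2)) := by
    unfold W
    rw [WR_last, Set.indicator_univ]
    have e1 : WR μ s Set.univ η p 0 0 = 1 := by
      unfold WR Zr
      simp
    have e2 : WR μ s Set.univ η p 0 (0 - 1) = 0 := by
      unfold WR Zr
      simp
    rw [e1, e2]
    simp
  rw [exp_V, ← h1]
  unfold WS
  exact single_le_sum (f := fun y => W μ s η p 1 y) (fun y _ => W_nonneg _ _ _ _) (mem_Icc.2 ⟨le_rfl, by norm_num⟩)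

/-- **ONE SITE WEIGHT.** -/
theorem wt_le58 [IsProbabilityMeasure μ] (h : In μ s c C n₀) {K U : ℝ} {n a : ℕ} {x0 : ℤ} {η : Env} (hη : η ∈ Up18 μ s c K n ((a : ℤ), x0) U)
    {j : ℕ} (h1 : 1 ≤ j) (h2 : j ≤ 5 * n) {x : ℤ} (hx : |lt μ s x0 j x| + 1 ≤ K * wd μ s n) :
    wt η (a + j) x ≤ Real.exp (|lam μ s| + U * EE μ s n) := by
  obtain ⟨i, rfl⟩ : ∃ i, j = i + 1 := ⟨j - 1, by omega⟩
  have hs := sl_mem (μ := μ) h.em h.nd s
  have e0 := lt_succ (μ := μ) (s := s) x0 i x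
  have h3 : |lat16 μ s ((a : ℤ), x0) (((a + i : ℕ) : ℤ), x)| ≤ K * wd μ s n := by
    rw [lat_lt]
    rw [e0] at hx
    have h4 : |lt μ s x0 i x| ≤ |lt μ s x0 i x - sl μ s| + |sl μ s| := by
      have := abs_add_le (lt μ s x0 i x - sl μ s) (sl μ s)
      rwa [sub_add_cancel] at this
    have h5 : |sl μ s| ≤ 1 := abs_le.2 ⟨by linarith [hs.1], by linarith [hs.2]⟩
    linarith
  have h6 := t3_V (hη (((a + i : ℕ) : ℤ), x) 1 (by
    show (a : ℤ) ≤ ((a + i : ℕ) : ℤ)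
    omega) (by
    show ((a + i : ℕ) : ℤ) + 1 ≤ (a : ℤ) + ((5 * n : ℕ) : ℤ)
    omega) h3)
  have h7 := exp_le_V (μ := μ) (s := s) η (((a + i : ℕ) : ℤ), x)
  have e1 : wt η (a + (i + 1)) x = Real.exp (η (((a + i : ℕ) : ℤ) + 1, x)) := by
    unfold wt
    rw [if_neg (by omega)]
    congr 2
  rw [e1]
  have h8 : Real.exp (η (((a + i : ℕ) : ℤ) + 1, x)) ≤ Real.exp (lam μ s) * Real.exp (V μ s η (((a + i : ℕ) : ℤ), x) 1) := by
    have h9 := mul_le_mul_of_nonneg_left h7 (Real.exp_pos (lam μ s)).le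
    rwa [← mul_assoc, ← Real.exp_add, add_neg_cancel, Real.exp_zero, one_mul] at h9
  refine h8.trans ?_
  rw [← Real.exp_add]
  exact Real.exp_le_exp.2 (by linarith [le_abs_self (lam μ s)])

/-- Total masses from `Up18`. -/
theorem cS_le58 [IsProbabilityMeasure μ] {K U : ℝ} {n a : ℕ} {x0 : ℤ} {η : Env} (hη : η ∈ Up18 μ s c K n ((a : ℤ), x0) U)
    {j r : ℕ} (h2 : j + r ≤ 5 * n) {x : ℤ} (hx : |lt μ s x0 j x| ≤ K * wd μ s n) :
    cS μ s Set.univ η (((a + j : ℕ) : ℤ), x) r ≤ Real.exp (U * EE μ s n) := by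
  refine (Pool.Agent.W_7d29a1_HR.cS_le_V _ _ _ _).trans (Real.exp_le_exp.2 (t3_V (hη (((a + j : ℕ) : ℤ), x) r (by
    show (a : ℤ) ≤ ((a + j : ℕ) : ℤ)
    omega) (by
    show ((a + j : ℕ) : ℤ) + r ≤ (a : ℤ) + ((5 * n : ℕ) : ℤ)
    omega) (by rw [lat_lt]; exact hx))))

/-! ### No jump -/

/-- **(J1), (J3) OF `havV`.** -/
theorem jump58 [IsProbabilityMeasure μ] (h : In μ s c C n₀) {K₂ K U Y : ℝ} {n m a : ℕ} {x0 : ℤ} {η : Env} (hn : 1 ≤ n) (hm : 2 * m ≤ n)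
    (hw : 1 ≤ wd μ s n) (hK : K₂ + 2 ≤ K) (hup : η ∈ Up18 μ s c K n ((a : ℤ), x0) U) (hj : η ∈ Jp18 μ s K₂ n m ((a : ℤ), x0) Y)
    {i : ℕ} (hi : i = 1 ∨ i = 3) {j : ℕ} (h1 : i * n ≤ j) (h2 : j < i * n + m) {x : ℤ} (hx : ¬ |lt μ s x0 j x| ≤ K₂ * wd μ s n)
    (hx' : |lt μ s x0 (j + 1) x| ≤ K₂ * wd μ s n ∨ |lt μ s x0 (j + 1) (x + 1)| ≤ K₂ * wd μ s n) (G : Finset ℤ)
    (hG : ∀ z ∈ G, |lt μ s x0 (i * n + m) z| ≤ (K₂ - 2) * wd μ s n ∨ |lt μ s x0 (i * n + m) (z + 1)| ≤ (K₂ - 2) * wd μ s n) :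
    wt η (a + j) x * ∑ z ∈ G, W μ s η (((a + j : ℕ) : ℤ), x) (i * n + m - 1 - j) (z - x) ≤
      Real.exp (|lam μ s| + U * EE μ s n) * Real.exp (-(Y * EE μ s n)) := by
  have hs := sl_mem (μ := μ) h.em h.nd s
  have hin : i * n ≤ 3 * n := Nat.mul_le_mul_right n (by omega)
  have hin1 : 1 ≤ i * n := Nat.mul_pos (by omega) hn
  push Not at hx
  have e0 := lt_succ (μ := μ) (s := s) x0 j x
  have e1 := lt_succ (μ := μ) (s := s) x0 j (x + 1)
  have e2 := lt_add (μ := μ) (s := s) x0 j x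
  have hx1 : |lt μ s x0 j x| ≤ K₂ * wd μ s n + 1 := by
    rcases hx' with h3 | h3
    · rw [e0] at h3
      rw [abs_le] at h3 ⊢
      constructor <;> linarith [h3.1, h3.2, hs.1, hs.2]
    · rw [e1, e2] at h3
      rw [abs_le] at h3 ⊢
      constructor <;> linarith [h3.1, h3.2, hs.1, hs.2]
  have hw0 : 0 < wd μ s n := by linarith
  have hKw : (K₂ + 2) * wd μ s n ≤ K * wd μ s n := mul_le_mul_of_nonneg_right hK hw0.le
  have g1 := wt_le58 h hup (j := j) (by omega) (by omega) (x := x) (by linarith)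
  have g2 : ∑ z ∈ G, W μ s η (((a + j : ℕ) : ℤ), x) (i * n + m - 1 - j) (z - x) ≤ Real.exp (-(Y * EE μ s n)) := by
    have k1 : ∑ z ∈ G, W μ s η (((a + j : ℕ) : ℤ), x) (i * n + m - 1 - j) (z - x) =
        WS μ s η (((a + j : ℕ) : ℤ), x) (i * n + m - 1 - j) (G.image fun z => z - x) := by
      unfold WS
      rw [sum_image fun y _ z _ h => by simpa using h]
    rw [k1]
    refine hj i _ _ _ hi ?_ ?_ ?_ ?_ ?_
    · show (a : ℤ) + ((i * n : ℕ) : ℤ) ≤ ((a + j : ℕ) : ℤ)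
      push_cast at h1 ⊢
      have : ((i * n : ℕ) : ℤ) ≤ (j : ℤ) := by exact_mod_cast h1
      push_cast at this
      linarith
    · show ((a + j : ℕ) : ℤ) + ((i * n + m - 1 - j : ℕ) : ℤ) ≤ (a : ℤ) + ((i * n : ℕ) : ℤ) + m
      omega
    · rw [lat_lt]
      exact hx.le
    · rw [lat_lt]
      linarith
    · intro y hy
      obtain ⟨z, hz, rfl⟩ := mem_image.1 hy
      have e4 : (((a + j : ℕ) : ℤ) + ((i * n + m - 1 - j : ℕ) : ℤ), x + (z - x)) = (((a + (i * n + m - 1) : ℕ) : ℤ), z) := by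
        refine Prod.ext ?_ ?_
        · show ((a + j : ℕ) : ℤ) + ((i * n + m - 1 - j : ℕ) : ℤ) = ((a + (i * n + m - 1) : ℕ) : ℤ)
          omega
        · show x + (z - x) = z
          ring
      show |lat16 μ s ((a : ℤ), x0) (((a + j : ℕ) : ℤ) + ((i * n + m - 1 - j : ℕ) : ℤ), x + (z - x))| ≤ _
      rw [e4, lat_lt]
      have hr : i * n + m - 1 + 1 = i * n + m := by omega
      have f0 := lt_succ (μ := μ) (s := s) x0 (i * n + m - 1) z
      have f1 := lt_succ (μ := μ) (s := s) x0 (i * n + m - 1) (z + 1)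
      have f2 := lt_add (μ := μ) (s := s) x0 (i * n + m - 1) z
      rw [hr] at f0 f1
      rcases hG z hz with h3 | h3
      · rw [f0] at h3
        rw [abs_le] at h3 ⊢
        constructor <;> nlinarith [h3.1, h3.2, hs.1, hs.2]
      · rw [f1, f2] at h3
        rw [abs_le] at h3 ⊢
        constructor <;> nlinarith [h3.1, h3.2, hs.1, hs.2]
  exact mul_le_mul g1 g2 (sum_nonneg fun z _ => W_nonneg _ _ _ _) (Real.exp_pos _).le

/-! ### The masses which avoid two core paths -/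

/-- The core. -/
def Co58 (μ : Measure ℝ) (s K₁ : ℝ) (n : ℕ) (x0 : ℤ) (j : ℕ) (x : ℤ) : Prop := |lt μ s x0 j x| ≤ K₁ * wd μ s n

/-- The constant. -/
def ep58 (μ : Measure ℝ) (s Q U Y A : ℝ) (n m : ℕ) : ℝ :=
  C66 μ s * Real.exp (|lam μ s| + U * EE μ s n) ^ 6 * (Real.exp (-(A * EE μ s n)) +
    ((m : ℝ) + m) * (Real.exp (|lam μ s| + U * EE μ s n) * Real.exp (-(Y * EE μ s n)))) / Real.exp (-(Q * EE μ s n))

theorem ep58_nonneg {Q U Y A : ℝ} {n m : ℕ} : 0 ≤ ep58 μ s Q U Y A n m := by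
  have := C66_pos (μ := μ) (s := s)
  unfold ep58
  positivity

/-- **THE MASSES WHICH AVOID TWO CORE PATHS.** -/
theorem avo58 [IsProbabilityMeasure μ] (h : In μ s c C n₀) {K₁ K₂ K Q U Y A : ℝ} {n m a N : ℕ} {x0 : ℤ} {η : Env} (hn : 1 ≤ n) (hm1 : 1 ≤ m)
    (hm : 2 * m ≤ n) (hw : 1 ≤ wd μ s n) (hU : 0 ≤ U) (hK₁₂ : K₁ ≤ K₂) (hK : K₂ + 2 ≤ K) (hN : a + 5 * n ≤ N)
    (hlo : η ∈ Lo18 μ s K₁ K₂ n m ((a : ℤ), x0) Q) (hup : η ∈ Up18 μ s c K n ((a : ℤ), x0) U)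
    (hj : η ∈ Jp18 μ s K₂ n m ((a : ℤ), x0) Y) {p : ℕ → ℝ} (hp0 : ∀ k, 0 < p k) {τ : ℝ}
    (hp : ∀ k, a ≤ k → k < a + 5 * n → p k = Real.exp (s + τ)) {I : Finset ℤ} {π π' : Pa (5 * n)}
    (hπ : π ∈ Ps (Co58 μ s K₁ n x0) I (5 * n)) (hπ' : π' ∈ Ps (Co58 μ s K₁ n x0) I (5 * n))
    (hD : ∀ (i : ℤ) (r : ℕ) (x : ℤ), (a : ℤ) ≤ i → i + r ≤ a + (5 * n : ℕ) → m - 1 ≤ r →
      cS μ s (Sw μ s K₁ K₂ n m ((a : ℤ), x0) \ Ex66 a π π') η (i, x) r ≤ Real.exp (-(A * EE μ s n)))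
    {v : ℤ} (hv : |lt μ s x0 (5 * n) v| ≤ K₁ * wd μ s n) {e₃ : ℝ} (he : 0 ≤ e₃)
    (side : ∀ i : Fin 3, ∀ y, ¬ |lt μ s x0 (rw3 n m i) y| ≤ (K₂ - 2) * wd μ s n →
      ker (wt η) p (a + rw3 n m i) (5 * n - rw3 n m i) y v * bw (wt η) p (a + 5 * n) (N - (a + 5 * n)) v ≤
        e₃ * bw (wt η) p (a + rw3 n m i) (N - (a + rw3 n m i)) y) (y : ℤ) :
    ms (wt η) p a (A2 π π') (dl y) (5 * n) v * bw (wt η) p (a + 5 * n) (N - (a + 5 * n)) v ≤
      ep58 μ s Q U Y A n m * (ker (wt η) p a (5 * n) y v * bw (wt η) p (a + 5 * n) (N - (a + 5 * n)) v) +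
        3 * e₃ * bw (wt η) p a (N - a) y := by
  have hs := sl_mem (μ := μ) h.em h.nd s
  have hw0 : 0 < wd μ s n := by linarith
  have hE := EE_pos (μ := μ) (s := s) n
  have hK2w : K₂ * wd μ s n + 1 ≤ K * wd μ s n := by nlinarith
  have hK1w : K₁ * wd μ s n ≤ K₂ * wd μ s n := mul_le_mul_of_nonneg_right hK₁₂ hw0.le
  have hU1 : (1 : ℝ) ≤ Real.exp (|lam μ s| + U * EE μ s n) := Real.one_le_exp (by positivity)
  have hUc : Real.exp (U * EE μ s n) ≤ Real.exp (|lam μ s| + U * EE μ s n) := Real.exp_le_exp.2 (by linarith [abs_nonneg (lam μ s)])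
  have base : ∀ x : ℤ, (((a + 0 : ℕ) : ℤ), x) = ((a : ℤ), x) := fun x => by rw [add_zero]
  have hB : 0 < bw (wt η) p (a + 5 * n) (N - (a + 5 * n)) v := bw_pos (wt_pos η) hp0 _ _ _
  have r0 : rw3 n m 0 = 0 := rfl
  have r1 : rw3 n m 1 = n + m := rfl
  have r2 : rw3 n m 2 = 3 * n + m := rfl
  have key := havV (μ := μ) (s := s) η (p := p) (fun k => (hp0 k).le) (h := τ) (a := a) (j₁ := n) (l₁ := m) (j₃ := 3 * n) (l₃ := m)
    (n := 5 * n) hn hm1 hm1 (by omega) (by omega) hp (m := dl y) (dl_nonneg y) (Co := Co58 μ s K₁ n x0) (I := I)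
    (Sw := Sw μ s K₁ K₂ n m ((a : ℤ), x0)) (N0 := fun x => |lt μ s x0 0 x| ≤ (K₂ - 2) * wd μ s n)
    (N2 := fun x => |lt μ s x0 (n + m) x| ≤ (K₂ - 2) * wd μ s n) (N4 := fun x => |lt μ s x0 (3 * n + m) x| ≤ (K₂ - 2) * wd μ s n)
    (Vs := fun j x => |lt μ s x0 j x| ≤ K₂ * wd μ s n)
    (fun y hy => hy.trans (by nlinarith)) (fun y hy => hy.trans (by nlinarith))
    (fun j k1 k2 x z hx hxs hz => by
      have k3 := open_left (μ := μ) (s := s) (K₁ := K₁) (K₂ := K₂) (n := n) (m := m) (a := ((a : ℤ), x0)) (p := (((a + j : ℕ) : ℤ), x))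
        (by show (a : ℤ) + n < ((a + j : ℕ) : ℤ); omega) (by show ((a + j : ℕ) : ℤ) ≤ (a : ℤ) + n + m; omega)
        (by rw [lat_lt]; exact hx) hxs hm
      rw [lat_lt] at k3
      have k4 := (abs_le.1 (show |lt μ s x0 j z| ≤ K₁ * wd μ s n from hz)).1
      exact (lt_lt (μ := μ) (s := s) (x0 := x0) (j := j)).1 (by nlinarith))
    (fun j k1 k2 x z hx hxs hz => by
      have k3 := open_right (μ := μ) (s := s) (K₁ := K₁) (K₂ := K₂) (n := n) (m := m) (a := ((a : ℤ), x0)) (p := (((a + j : ℕ) : ℤ), x))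
        (by show (a : ℤ) + 3 * n < ((a + j : ℕ) : ℤ); omega) (by show ((a + j : ℕ) : ℤ) ≤ (a : ℤ) + 3 * n + m; omega)
        (by rw [lat_lt]; exact hx) hxs hm
      rw [lat_lt] at k3
      have k4 := (abs_le.1 (show |lt μ s x0 j z| ≤ K₁ * wd μ s n from hz)).2
      exact (lt_lt (μ := μ) (s := s) (x0 := x0) (j := j)).1 (by nlinarith))
    (U := Real.exp (|lam μ s| + U * EE μ s n)) hU1
    (fun x hx r hr => by
      have k1 := cS_le58 hup (j := 0) (r := r) (by omega) (x := x) (hx.trans (by nlinarith))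
      rw [base] at k1
      exact k1.trans hUc)
    (fun x hx => (cS_le58 hup (by omega) (hx.trans (by nlinarith))).trans hUc)
    (fun x hx => (cS_le58 hup (by omega) (hx.trans (by nlinarith))).trans hUc)
    (fun x hx => wt_le58 h hup hn (by omega) (by
      have : |lt μ s x0 n x| ≤ K₂ * wd μ s n := hx
      linarith))
    (fun x hx => wt_le58 h hup (by omega) (by omega) (by
      have : |lt μ s x0 (n + m) x| ≤ (K₂ - 2) * wd μ s n := hx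
      nlinarith))
    (fun x hx => wt_le58 h hup (by omega) (by omega) (by
      have : |lt μ s x0 (3 * n) x| ≤ K₂ * wd μ s n := hx
      linarith))
    (fun x hx => wt_le58 h hup (by omega) (by omega) (by
      have : |lt μ s x0 (3 * n + m) x| ≤ (K₂ - 2) * wd μ s n := hx
      nlinarith))
    (v := v) (wt_le58 h hup (by omega) le_rfl (by linarith))
    hπ hπ' (ε := Real.exp (-(A * EE μ s n))) (Real.exp_pos _).le
    (fun x _ => hD _ _ _ (by omega) (by omega) le_rfl) (fun x _ => hD _ _ _ (by omega) (by omega) le_rfl)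
    (εJ := Real.exp (|lam μ s| + U * EE μ s n) * Real.exp (-(Y * EE μ s n))) (by positivity)
    (fun j k1 k2 x k3 k4 G hG => by
      have k5 := jump58 h hn hm hw hK hup hj (i := 1) (Or.inl rfl) (j := j) (by omega) (by omega) k3 k4 G (by
        rw [one_mul]
        exact hG)
      rw [one_mul] at k5
      exact k5)
    (fun j k1 k2 x k3 k4 G hG => jump58 h hn hm hw hK hup hj (i := 3) (Or.inr rfl) k1 k2 k3 k4 G hG)
    (c := Real.exp (-(Q * EE μ s n))) (Real.exp_pos _)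
    (fun x hx => by
      have k1 := hlo x v (by
        have k2 := lat_lt (μ := μ) (s := s) a x0 0 x
        rw [base] at k2
        rw [k2]
        exact hx.trans (by nlinarith)) (by
        have k2 := lat_lt (μ := μ) (s := s) a x0 (5 * n) v
        have k3 : (((a + 5 * n : ℕ) : ℤ), v) = ((a : ℤ) + ((5 * n : ℕ) : ℤ), v) := by
          rw [Nat.cast_add]
        rw [k3] at k2
        rw [k2]
        exact hv)
      exact k1.trans (WR_le_W _ _ _ _ _))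
    (B := bw (wt η) p (a + 5 * n) (N - (a + 5 * n)) v) (e₃ := e₃) (Z := bw (wt η) p a (N - a) y) hB.le he
    (F := fun r z => bw (wt η) p (a + r) (N - (a + r)) z) (fun r z => (bw_pos (wt_pos η) hp0 _ _ _).le)
    (fun z hz => by
      have k1 := side 0 z (by rw [r0]; exact hz)
      rw [r0] at k1
      exact k1)
    (fun z hz => by
      have k1 := side 1 z (by rw [r1]; exact hz)
      rw [r1] at k1
      exact k1)
    (fun z hz => by
      have k1 := side 2 z (by rw [r2]; exact hz)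
      rw [r2] at k1
      exact k1)
    (fun r hr G => by
      have hr5 : r ≤ 5 * n := by omega
      rw [← ker_bw (w := wt η) (p := p) (a := a) (j := r) (N := N) (by omega) y]
      have k2 : ∀ z, z ∉ Icc y (y + r) → ms (wt η) p a All (dl y) r z * bw (wt η) p (a + r) (N - (a + r)) z = 0 := fun z hz => by
        rw [ms_ker, ker_eq_zero a r y z fun h => hz (mem_Icc.2 h), zero_mul]
      calc ∑ z ∈ G, ms (wt η) p a All (dl y) r z * bw (wt η) p (a + r) (N - (a + r)) z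
          ≤ ∑ z ∈ G ∪ Icc y (y + r), ms (wt η) p a All (dl y) r z * bw (wt η) p (a + r) (N - (a + r)) z :=
            sum_le_sum_of_subset_of_nonneg subset_union_left fun z _ _ =>
              mul_nonneg (ms_nonneg (fun k z => (wt_pos η k z).le) (fun k => (hp0 k).le) (dl_nonneg y) r z)
                (bw_pos (wt_pos η) hp0 _ _ _).le
        _ = ∑ z ∈ Icc y (y + r), ms (wt η) p a All (dl y) r z * bw (wt η) p (a + r) (N - (a + r)) z :=
            (sum_subset subset_union_right fun z _ hz => k2 z hz).symm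
        _ = _ := sum_congr rfl fun z _ => by rw [ms_ker])
  rw [ms_ker] at key
  unfold ep58
  calc _ ≤ _ := key
    _ = _ := by ring

/-- **(gt) FROM THE SETS OF THE BLOCK**, every site `y` of the row `a`. -/
theorem gtS58 [IsProbabilityMeasure μ] (h : In μ s c C n₀) {K₁ K₂ K Q U Y A : ℝ} {n m a N : ℕ} {x0 : ℤ} {η : Env} (hn : 1 ≤ n) (hm1 : 1 ≤ m)
    (hm : 2 * m ≤ n) (hw : 1 ≤ wd μ s n) (hU : 0 ≤ U) (hK₁₂ : K₁ ≤ K₂) (hK : K₂ + 2 ≤ K) (hN : a + 5 * n ≤ N)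
    (hlo : η ∈ Lo18 μ s K₁ K₂ n m ((a : ℤ), x0) Q) (hup : η ∈ Up18 μ s c K n ((a : ℤ), x0) U)
    (hj : η ∈ Jp18 μ s K₂ n m ((a : ℤ), x0) Y) {p : ℕ → ℝ} (hp0 : ∀ k, 0 < p k) {τ : ℝ}
    (hp : ∀ k, a ≤ k → k < a + 5 * n → p k = Real.exp (s + τ)) {k : ℕ} {q : ℤ} (hk : k + 1 ≤ a)
    {Cw : Pa (5 * n) → Pa (5 * n) → Set Env} {p₀ : ℝ} (hp₀ : 0 < p₀)
    (hη : η ∈ Gd66 (Ps (Co58 μ s K₁ n x0) (Ic a k q) (5 * n)) (kap p a N (kc p (k + 1) a q)) Cw (p₀ / 2))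
    (hD : ∀ π π', η ∈ Cw π π' → ∀ (i : ℤ) (r : ℕ) (x : ℤ), (a : ℤ) ≤ i → i + r ≤ a + (5 * n : ℕ) → m - 1 ≤ r →
      cS μ s (Sw μ s K₁ K₂ n m ((a : ℤ), x0) \ Ex66 a π π') η (i, x) r ≤ Real.exp (-(A * EE μ s n)))
    {v : ℤ} (hv : |lt μ s x0 (5 * n) v| ≤ K₁ * wd μ s n) {e₃ G₃ : ℝ} (he : 0 ≤ e₃) (hG : 0 ≤ G₃)
    (side : ∀ i : Fin 3, ∀ y, ¬ |lt μ s x0 (rw3 n m i) y| ≤ (K₂ - 2) * wd μ s n →
      ker (wt η) p (a + rw3 n m i) (5 * n - rw3 n m i) y v * bw (wt η) p (a + 5 * n) (N - (a + 5 * n)) v ≤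
        e₃ * bw (wt η) p (a + rw3 n m i) (N - (a + rw3 n m i)) y)
    (hZ : Z1 (wt η) p N a (5 * n) (Co58 μ s K₁ n x0) k q ≤
      G₃ * (ker (wt η) p (k + 1) (a + 5 * n - (k + 1)) q v * bw (wt η) p (a + 5 * n) (N - (a + 5 * n)) v))
    (hε : ep58 μ s Q U Y A n m < 1) (y : ℤ) :
    ker (wt η) p a (5 * n) y v * Z1 (wt η) p N a (5 * n) (Co58 μ s K₁ n x0) k q ≤
      (2 + 3 * e₃ * G₃) / ((1 - ep58 μ s Q U Y A n m) * (p₀ / 2)) *
        (bw (wt η) p a (N - a) y * ker (wt η) p (k + 1) (a + 5 * n - (k + 1)) q v) :=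
  gt58 (w := wt η) (p := p) (a := a) (wt_pos η) hp0 hk hN (D := fun π π' => η ∈ Cw π π') (half_pos hp₀) hε
    (e₃ := 3 * e₃) (by positivity) hG (hD58 hη) y
    (fun π hπ π' hπ' hd => avo58 h hn hm1 hm hw hU hK₁₂ hK hN hlo hup hj hp0 hp hπ hπ' (hD π π' hd) hv he side y) hZ

/-- **(gt) WITH THE CONSTANT `12 / p₀`.** -/
theorem gtT58 [IsProbabilityMeasure μ] (h : In μ s c C n₀) {K₁ K₂ K Q U Y A : ℝ} {n m a N : ℕ} {x0 : ℤ} {η : Env} (hn : 1 ≤ n) (hm1 : 1 ≤ m)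
    (hm : 2 * m ≤ n) (hw : 1 ≤ wd μ s n) (hU : 0 ≤ U) (hK₁₂ : K₁ ≤ K₂) (hK : K₂ + 2 ≤ K) (hN : a + 5 * n ≤ N)
    (hlo : η ∈ Lo18 μ s K₁ K₂ n m ((a : ℤ), x0) Q) (hup : η ∈ Up18 μ s c K n ((a : ℤ), x0) U)
    (hj : η ∈ Jp18 μ s K₂ n m ((a : ℤ), x0) Y) {p : ℕ → ℝ} (hp0 : ∀ k, 0 < p k) {τ : ℝ}
    (hp : ∀ k, a ≤ k → k < a + 5 * n → p k = Real.exp (s + τ)) {k : ℕ} {q : ℤ} (hk : k + 1 ≤ a)
    {Cw : Pa (5 * n) → Pa (5 * n) → Set Env} {p₀ : ℝ} (hp₀ : 0 < p₀)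
    (hη : η ∈ Gd66 (Ps (Co58 μ s K₁ n x0) (Ic a k q) (5 * n)) (kap p a N (kc p (k + 1) a q)) Cw (p₀ / 2))
    (hD : ∀ π π', η ∈ Cw π π' → ∀ (i : ℤ) (r : ℕ) (x : ℤ), (a : ℤ) ≤ i → i + r ≤ a + (5 * n : ℕ) → m - 1 ≤ r →
      cS μ s (Sw μ s K₁ K₂ n m ((a : ℤ), x0) \ Ex66 a π π') η (i, x) r ≤ Real.exp (-(A * EE μ s n)))
    {v : ℤ} (hv : |lt μ s x0 (5 * n) v| ≤ K₁ * wd μ s n) {e₃ G₃ : ℝ} (he : 0 ≤ e₃) (hG : 0 ≤ G₃) (heG : 3 * e₃ * G₃ ≤ 1)
    (side : ∀ i : Fin 3, ∀ y, ¬ |lt μ s x0 (rw3 n m i) y| ≤ (K₂ - 2) * wd μ s n →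
      ker (wt η) p (a + rw3 n m i) (5 * n - rw3 n m i) y v * bw (wt η) p (a + 5 * n) (N - (a + 5 * n)) v ≤
        e₃ * bw (wt η) p (a + rw3 n m i) (N - (a + rw3 n m i)) y)
    (hZ : Z1 (wt η) p N a (5 * n) (Co58 μ s K₁ n x0) k q ≤
      G₃ * (ker (wt η) p (k + 1) (a + 5 * n - (k + 1)) q v * bw (wt η) p (a + 5 * n) (N - (a + 5 * n)) v))
    (hε : ep58 μ s Q U Y A n m ≤ 1 / 2) (y : ℤ) :
    ker (wt η) p a (5 * n) y v * Z1 (wt η) p N a (5 * n) (Co58 μ s K₁ n x0) k q ≤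
      12 / p₀ * (bw (wt η) p a (N - a) y * ker (wt η) p (k + 1) (a + 5 * n - (k + 1)) q v) := by
  have h1 := gtS58 h hn hm1 hm hw hU hK₁₂ hK hN hlo hup hj hp0 hp hk hp₀ hη hD hv he hG side hZ (lt_of_le_of_lt hε (by norm_num)) y
  refine h1.trans (mul_le_mul_of_nonneg_right ?_ (mul_nonneg (bw_pos (wt_pos η) hp0 _ _ _).le (ker_nonneg (wt_pos η) hp0 _ _ _ _)))
  have h2 : 0 < (1 - ep58 μ s Q U Y A n m) * (p₀ / 2) := mul_pos (by linarith) (half_pos hp₀)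
  rw [div_le_div_iff₀ h2 hp₀]
  have h3 : (1 / 2 : ℝ) ≤ 1 - ep58 μ s Q U Y A n m := by linarith
  nlinarith [mul_le_mul_of_nonneg_right h3 hp₀.le]

end

end Pool.Agent.W_7d29a1_C1.PW58
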