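import Pool.Agent.W_7d29a1_C1.GateY87
import Pool.Agent.W_7d29a1_C1.GateU18
import Pool.Agent.W_7d29a1_C1.UniA16

/-!
MP_7d29a1_pr, attractor route, [C1] SEP: THE SIDE OF THE WINDOW AT THE THREE ROWS, over the model. (helper87)

`η ∈ Sd18 … Q ∩ Us18 … U`, `v` in the core of the gate row, profile condition at the two sites `v₀ = ft (5n) (± (K₂ + 8))`:
`exp (h (v - v₀)) (bw v · wt v₀) ≤ exp (qB E) (bw v₀ · wt v)`. Then for the three rows `r = rw3 i` and every `z` with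
`¬ |lat z| ≤ (K₂ - 2) w`: `ker z v * bw v ≤ e₃ * bw z`, `e₃ = exp ((qB + U + Q) E - hc (2 n) ((K₂ - 2 - K₁) w - 1))`.
-/

set_option autoImplicit false

namespace Pool.Agent.W_7d29a1_C1.Gt66

open Finset MeasureTheory
open Pool.Agent.W_7d29a1_F Pool.Agent.W_7d29a1_h4g Pool.Agent.W_7d29a1_H Pool.Agent.W_7d29a1_HS
open Pool.Agent.W_7d29a1_C1.K91 (wt wt_pos)
open Pool.Agent.W_7d29a1_C1.K91P (fw bw fw_succ fw_nonneg bw_pos)
open Pool.Agent.W_7d29a1_C1.U16 (ker ker_zero ker_succ ker_eq_zero fw_ker bw_ker ker_add ker_W lat16)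
open Pool.Agent.W_7d29a1_C1.GL18
open Pool.Agent.W_7d29a1_C1.H75

noncomputable section

variable {μ : Measure ℝ} {s c C : ℝ} {n₀ : ℕ}

/-- The slope per width. -/
theorem hc_ge [IsProbabilityMeasure μ] (h : In μ s c C n₀) {n : ℕ} (hn : 1 ≤ n) : c / 4 * EE μ s n ≤ hc μ s c (2 * n) * wd μ s n := by
  have hc0 : 0 ≤ c := h.c0.le
  have hw := h.wd_pos hn
  have hw2 := h.wd_pos (show 1 ≤ 2 * n by omega)
  have hE := (EE_pos (μ := μ) (s := s) n).le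
  have h1 : wd μ s (2 * n) ≤ 4 * wd μ s n := by
    have := Pool.Agent.W_7d29a1_C1.U16.wd_le h hn (show n ≤ 2 * n by omega)
    have e : 2 * (((2 * n : ℕ) : ℝ) / n) = 4 := by
      have : (n : ℝ) ≠ 0 := by
        have : 0 < (n : ℝ) := by exact_mod_cast hn
        exact this.ne'
      push_cast
      field_simp
      norm_num
    rw [e] at this
    exact this
  have h2 : EE μ s n ≤ EE μ s (2 * n) := EE_mono (show n ≤ 2 * n by omega)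
  have e : hc μ s c (2 * n) * wd μ s n = c * EE μ s (2 * n) * wd μ s n / wd μ s (2 * n) := by
    unfold hc
    ring
  rw [e, le_div_iff₀ hw2]
  calc c / 4 * EE μ s n * wd μ s (2 * n) ≤ c / 4 * EE μ s n * (4 * wd μ s n) :=
        mul_le_mul_of_nonneg_left h1 (mul_nonneg (by linarith) hE)
    _ = c * EE μ s n * wd μ s n := by ring
    _ ≤ c * EE μ s (2 * n) * wd μ s n := mul_le_mul_of_nonneg_right (mul_le_mul_of_nonneg_left h2 hc0) hw.le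

/-- Two ends of the same kernel. -/
theorem ker_two (η : Env) {p : ℕ → ℝ} {h : ℝ} {i j : ℕ} {x v v₀ : ℤ} (hp : ∀ k, i ≤ k → k < i + j → p k = Real.exp (s + h))
    {Bv B₀ e A A₀ : ℝ} (he : 0 ≤ e) (hA : W μ s η ((i : ℤ), x) j (v - x) ≤ A)
    (hW : A₀ ≤ W μ s η ((i : ℤ), x) j (v₀ - x)) {qB : ℝ}
    (hB : Real.exp (h * ((v - v₀ : ℤ) : ℝ)) * (Bv * wt η (i + j) v₀) ≤ qB * (B₀ * wt η (i + j) v)) (hB0 : 0 ≤ B₀)
    (hnum : qB * A ≤ e * A₀) (hq : 0 ≤ qB) :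
    ker (wt η) p i j x v * Bv ≤ e * (ker (wt η) p i j x v₀ * B₀) := by
  have k1 := ker_W (μ := μ) (s := s) (h := h) η i x j v hp
  have k2 := ker_W (μ := μ) (s := s) (h := h) η i x j v₀ hp
  have w1 := wt_pos η (i + j) v
  have w2 := wt_pos η (i + j) v₀
  have wx := wt_pos η i x
  obtain ⟨G, hG⟩ : ∃ G, G = Real.exp (j * lam μ s + h * ((v₀ - x : ℤ) : ℝ)) := ⟨_, rfl⟩
  have hGv : Real.exp (j * lam μ s + h * ((v - x : ℤ) : ℝ)) = G * Real.exp (h * ((v - v₀ : ℤ) : ℝ)) := by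
    rw [hG, ← Real.exp_add]
    congr 1
    push_cast
    ring
  have G0 : 0 < G := hG ▸ Real.exp_pos _
  rw [hGv] at k1
  rw [← hG] at k2
  have W0 : 0 ≤ W μ s η ((i : ℤ), x) j (v - x) := WR_nonneg _ _ _ _ _
  refine le_of_mul_le_mul_right (a := wt η (i + j) v * wt η (i + j) v₀) ?_ (mul_pos w1 w2)
  calc ker (wt η) p i j x v * Bv * (wt η (i + j) v * wt η (i + j) v₀)
      = (ker (wt η) p i j x v * wt η (i + j) v) * (Bv * wt η (i + j) v₀) := by ring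
    _ = wt η i x * G * W μ s η ((i : ℤ), x) j (v - x) * (Real.exp (h * ((v - v₀ : ℤ) : ℝ)) * (Bv * wt η (i + j) v₀)) := by
        rw [k1]; ring
    _ ≤ wt η i x * G * W μ s η ((i : ℤ), x) j (v - x) * (qB * (B₀ * wt η (i + j) v)) :=
        mul_le_mul_of_nonneg_left hB (mul_nonneg (mul_nonneg wx.le G0.le) W0)
    _ ≤ wt η i x * G * A * (qB * (B₀ * wt η (i + j) v)) :=
        mul_le_mul_of_nonneg_right (mul_le_mul_of_nonneg_left hA (mul_nonneg wx.le G0.le))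
          (mul_nonneg hq (mul_nonneg hB0 w1.le))
    _ = wt η i x * G * (B₀ * wt η (i + j) v) * (qB * A) := by ring
    _ ≤ wt η i x * G * (B₀ * wt η (i + j) v) * (e * A₀) :=
        mul_le_mul_of_nonneg_left hnum (mul_nonneg (mul_nonneg wx.le G0.le) (mul_nonneg hB0 w1.le))
    _ = wt η i x * G * (B₀ * wt η (i + j) v) * e * A₀ := by ring
    _ ≤ wt η i x * G * (B₀ * wt η (i + j) v) * e * W μ s η ((i : ℤ), x) j (v₀ - x) :=
        mul_le_mul_of_nonneg_left hW (mul_nonneg (mul_nonneg (mul_nonneg wx.le G0.le) (mul_nonneg hB0 w1.le)) he)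
    _ = e * ((ker (wt η) p i j x v₀ * wt η (i + j) v₀) * (B₀ * wt η (i + j) v)) := by rw [k2]; ring
    _ = _ := by ring

/-- **THE SIDE AT THE THREE ROWS.** -/
theorem side87Z [IsProbabilityMeasure μ] {η : Env} {p : ℕ → ℝ} {N a n m : ℕ} {h : ℝ} {x₀ : ℤ} (hp0 : ∀ k, 0 < p k)
    (hp : ∀ k, a ≤ k → k < a + 5 * n → p k = Real.exp (s + h)) (hN : a + 5 * n ≤ N) (hm : 2 * m ≤ n) (hn : 1 ≤ n)
    (hin : In μ s c C n₀) {K₁ K₂ Q U qB : ℝ} (hK : K₁ ≤ K₂)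
    (hSd : η ∈ Sd18 μ s K₁ K₂ n m ((a : ℤ), x₀) Q) (hUs : η ∈ Us18 μ s c K₂ n m ((a : ℤ), x₀) U) {v : ℤ}
    (hv : |lat16 μ s ((a : ℤ), x₀) ((a : ℤ) + ((5 * n : ℕ) : ℤ), v)| ≤ K₁ * wd μ s n)
    (hB : ∀ σ : ℝ, σ = 1 ∨ σ = -1 →
      Real.exp (h * ((v - (ft μ s ((a : ℤ), x₀) n (5 * n) (σ * (K₂ + 8))).2 : ℤ) : ℝ)) *
        (bw (wt η) p (a + 5 * n) (N - (a + 5 * n)) v * wt η (a + 5 * n) (ft μ s ((a : ℤ), x₀) n (5 * n) (σ * (K₂ + 8))).2) ≤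
      Real.exp (qB * EE μ s n) * (bw (wt η) p (a + 5 * n) (N - (a + 5 * n)) (ft μ s ((a : ℤ), x₀) n (5 * n) (σ * (K₂ + 8))).2 *
        wt η (a + 5 * n) v))
    (i : Fin 3) (z : ℤ) (hz : ¬ |lat16 μ s ((a : ℤ), x₀) ((a : ℤ) + ((rw3 n m i : ℕ) : ℤ), z)| ≤ (K₂ - 2) * wd μ s n) :
    ker (wt η) p (a + rw3 n m i) (5 * n - rw3 n m i) z v * bw (wt η) p (a + 5 * n) (N - (a + 5 * n)) v ≤
      Real.exp ((qB + U + Q) * EE μ s n - hc μ s c (2 * n) * ((K₂ - 2 - K₁) * wd μ s n - 1)) *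
        bw (wt η) p (a + rw3 n m i) (N - (a + rw3 n m i)) z := by
  have hr := rw3_le hm i
  obtain ⟨r, er⟩ : ∃ r, r = rw3 n m i := ⟨_, rfl⟩
  obtain ⟨b, eb⟩ : ∃ b : Pt, b = ((a : ℤ), x₀) := ⟨_, rfl⟩
  rw [← er] at hr
  rw [← er, ← eb] at hz
  rw [← er]
  rw [← eb] at hSd hUs hv hB
  have hb1 : b.1 = (a : ℤ) := by rw [eb]
  have w0 : 0 < wd μ s n := hin.wd_pos hn
  have hh0 : 0 ≤ hc μ s c (2 * n) := hc_nonneg hin _
  obtain ⟨e₃, he3⟩ : ∃ e₃, e₃ = Real.exp ((qB + U + Q) * EE μ s n - hc μ s c (2 * n) * ((K₂ - 2 - K₁) * wd μ s n - 1)) := ⟨_, rfl⟩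
  rw [← he3]
  have he0 : 0 ≤ e₃ := he3 ▸ (Real.exp_pos _).le
  -- the sites
  obtain ⟨y, hy⟩ : ∃ y : ℝ → ℤ, y = fun σ => (ft μ s b n r (σ * (K₂ - 2))).2 := ⟨_, rfl⟩
  obtain ⟨u, hu⟩ : ∃ u : ℝ → ℤ, u = fun σ => (ft μ s b n (5 * n) (σ * (K₂ + 8))).2 := ⟨_, rfl⟩
  have ey : ∀ σ, ft μ s b n r (σ * (K₂ - 2)) = (((a + r : ℕ) : ℤ), y σ) := fun σ => by
    rw [hy]
    unfold ft
    rw [hb1]
    push_cast
    rfl
  have e5 : ((a + r : ℕ) : ℤ) + ((5 * n - r : ℕ) : ℤ) = (a : ℤ) + ((5 * n : ℕ) : ℤ) := by omega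
  have e5' : a + r + (5 * n - r) = a + 5 * n := by omega
  have key : ∀ σ : ℝ, σ = 1 ∨ σ = -1 →
      0 < ker (wt η) p (a + r) (5 * n - r) (y σ) (u σ) ∧
      ker (wt η) p (a + r) (5 * n - r) (y σ) v * bw (wt η) p (a + 5 * n) (N - (a + 5 * n)) v ≤
        e₃ * (ker (wt η) p (a + r) (5 * n - r) (y σ) (u σ) * bw (wt η) p (a + 5 * n) (N - (a + 5 * n)) (u σ)) := by
    intro σ hσ
    have g1 := hSd σ i hσ
    rw [← er, ey σ] at g1
    have g2 : Real.exp (-(Q * EE μ s n)) ≤ W μ s η (((a + r : ℕ) : ℤ), y σ) (5 * n - r) (u σ - y σ) := by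
      refine g1.trans (WR_le_W _ _ _ _ _ |>.trans (le_of_eq ?_))
      rw [hu]
    have g3 := hUs σ i hσ
    rw [← er, ey σ] at g3
    have g4 := t3_W g3 (v - y σ)
    have hpk : ∀ k, a + r ≤ k → k < a + r + (5 * n - r) → p k = Real.exp (s + h) := fun k h1 h2 => hp k (by omega) (by omega)
    have gl : (K₂ - 2 - K₁) * wd μ s n - 1 ≤ |((v - y σ : ℤ) : ℝ) - sl μ s * ((5 * n - r : ℕ) : ℝ)| := by
      have f1 := ft_lat (μ := μ) (s := s) b n r (σ * (K₂ - 2))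
      rw [ey σ] at f1
      have e6 : ((v - y σ : ℤ) : ℝ) - sl μ s * ((5 * n - r : ℕ) : ℝ) =
          lat16 μ s b ((a : ℤ) + ((5 * n : ℕ) : ℤ), v) - lat16 μ s b (((a + r : ℕ) : ℤ), y σ) := by
        unfold lat16
        rw [hb1]
        push_cast [Nat.cast_sub hr]
        ring
      rw [e6]
      have f2 := abs_le.1 hv
      rcases hσ with rfl | rfl
      · rw [abs_sub_comm]
        refine le_trans ?_ (le_abs_self _)
        linarith [f1.2, f2.2]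
      · refine le_trans ?_ (le_abs_self _)
        linarith [f1.1, f2.1]
    have g5 : W μ s η (((a + r : ℕ) : ℤ), y σ) (5 * n - r) (v - y σ) ≤
        Real.exp (U * EE μ s n - hc μ s c (2 * n) * ((K₂ - 2 - K₁) * wd μ s n - 1)) :=
      g4.trans (Real.exp_le_exp.2 (by linarith [mul_le_mul_of_nonneg_left gl hh0]))
    refine ⟨?_, ?_⟩
    · have k2 := ker_W (μ := μ) (s := s) (h := h) η (a + r) (y σ) (5 * n - r) (u σ) hpk
      have h1 : 0 < W μ s η (((a + r : ℕ) : ℤ), y σ) (5 * n - r) (u σ - y σ) := lt_of_lt_of_le (Real.exp_pos _) g2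
      have h2 : 0 < ker (wt η) p (a + r) (5 * n - r) (y σ) (u σ) * wt η (a + r + (5 * n - r)) (u σ) := by
        rw [k2]
        exact mul_pos (wt_pos _ _ _) (mul_pos (Real.exp_pos _) h1)
      exact pos_of_mul_pos_left h2 (wt_pos _ _ _).le
    · refine ker_two (μ := μ) (s := s) (h := h) η (i := a + r) (j := 5 * n - r) hpk he0 g5 g2 (qB := Real.exp (qB * EE μ s n)) ?_ (bw_pos (fun k y => wt_pos η k y) hp0 _ _ _).le ?_ (Real.exp_pos _).le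
      · rw [e5']
        have := hB σ hσ
        rw [hu]
        exact this
      · rw [he3, ← Real.exp_add, ← Real.exp_add]
        exact le_of_eq (by congr 1; ring)
  -- planarity
  have hVr : ∀ z' : ℤ, z' ∉ ({z}ᶜ : Set ℤ) → z' = z := fun z' h => by simpa using h
  have hz2 : z ≤ y (-1) ∨ y 1 ≤ z := by
    rw [not_le] at hz
    rcases lt_abs.1 hz with h1 | h1
    · right
      rw [hy]
      show b.2 + ⌊sl μ s * r + 1 * (K₂ - 2) * wd μ s n⌋ ≤ z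
      have h2 : sl μ s * r + 1 * (K₂ - 2) * wd μ s n < ((z - b.2 : ℤ) : ℝ) := by
        unfold lat16 at h1
        rw [hb1] at h1
        push_cast at h1 ⊢
        linarith
      have h3 : ⌊sl μ s * r + 1 * (K₂ - 2) * wd μ s n⌋ < z - b.2 + 1 := by
        have := Int.floor_le (sl μ s * r + 1 * (K₂ - 2) * wd μ s n)
        have h4 : ((⌊sl μ s * r + 1 * (K₂ - 2) * wd μ s n⌋ : ℤ) : ℝ) < ((z - b.2 : ℤ) : ℝ) + 1 := by linarith
        exact_mod_cast h4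
      omega
    · left
      rw [hy]
      show z ≤ b.2 + ⌊sl μ s * r + -1 * (K₂ - 2) * wd μ s n⌋
      have h2 : ((z - b.2 : ℤ) : ℝ) ≤ sl μ s * r + -1 * (K₂ - 2) * wd μ s n := by
        unfold lat16 at h1
        rw [hb1] at h1
        push_cast at h1 ⊢
        linarith
      have h3 := Int.le_floor.2 h2
      omega
  have hv1 : u (-1) ≤ v := by
    rw [hu]
    show b.2 + ⌊sl μ s * ((5 * n : ℕ) : ℝ) + -1 * (K₂ + 8) * wd μ s n⌋ ≤ v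
    have h2 := (abs_le.1 hv).1
    have h3 : sl μ s * ((5 * n : ℕ) : ℝ) + -1 * (K₂ + 8) * wd μ s n ≤ ((v - b.2 : ℤ) : ℝ) := by
      unfold lat16 at h2
      rw [hb1] at h2
      have : K₁ * wd μ s n ≤ (K₂ + 8) * wd μ s n := mul_le_mul_of_nonneg_right (by linarith) w0.le
      push_cast at h2 ⊢
      linarith
    have h4 := (Int.floor_le (sl μ s * ((5 * n : ℕ) : ℝ) + -1 * (K₂ + 8) * wd μ s n)).trans h3
    have h5 : ⌊sl μ s * ((5 * n : ℕ) : ℝ) + -1 * (K₂ + 8) * wd μ s n⌋ ≤ v - b.2 := by exact_mod_cast h4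
    omega
  have hv2 : v ≤ u 1 := by
    rw [hu]
    show v ≤ b.2 + ⌊sl μ s * ((5 * n : ℕ) : ℝ) + 1 * (K₂ + 8) * wd μ s n⌋
    have h2 := (abs_le.1 hv).2
    have h3 : ((v - b.2 : ℤ) : ℝ) ≤ sl μ s * ((5 * n : ℕ) : ℝ) + 1 * (K₂ + 8) * wd μ s n := by
      unfold lat16 at h2
      rw [hb1] at h2
      have : K₁ * wd μ s n ≤ (K₂ + 8) * wd μ s n := mul_le_mul_of_nonneg_right (by linarith) w0.le
      push_cast at h2 ⊢
      linarith
    have h5 := Int.le_floor.2 h3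
    omega
  have hw0 : ∀ k y, 0 < wt η k y := fun k y => wt_pos η k y
  have hw0' : ∀ k y, 0 ≤ wt η k y := fun k y => (wt_pos η k y).le
  have hp0' : ∀ k, 0 ≤ p k := fun k => (hp0 k).le
  have hb0 : 0 ≤ bw (wt η) p (a + 5 * n) (N - (a + 5 * n)) v := (bw_pos hw0 hp0 _ _ _).le
  rcases hz2 with h1 | h1
  · obtain ⟨k1, k2⟩ := key (-1) (Or.inr rfl)
    exact (far_l hw0' hp0' h1 hv1 hb0 k1 k2).trans (mul_le_mul_of_nonneg_left (bw_one hw0 hp0 hN hr z _) he0)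
  · obtain ⟨k1, k2⟩ := key 1 (Or.inl rfl)
    exact (far_r hw0' hp0' h1 hv2 hb0 k1 k2).trans (mul_le_mul_of_nonneg_left (bw_one hw0 hp0 hN hr z _) he0)

/-- The profile condition from three levels. -/
theorem prof87 {η : Env} {p : ℕ → ℝ} {M r : ℕ} {h : ℝ} {v v₀ : ℤ} {q₁ q₂ q₃ E : ℝ} (hp0 : ∀ k, 0 < p k)
    (h1 : bw (wt η) p r M v ≤ Real.exp (q₁ * E) * bw (wt η) p r M v₀) (h2 : wt η r v₀ ≤ Real.exp (q₂ * E) * wt η r v)
    (h3 : |h| * |((v - v₀ : ℤ) : ℝ)| ≤ q₃ * E) :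
    Real.exp (h * ((v - v₀ : ℤ) : ℝ)) * (bw (wt η) p r M v * wt η r v₀) ≤
      Real.exp ((q₁ + q₂ + q₃) * E) * (bw (wt η) p r M v₀ * wt η r v) := by
  have k0 : 0 ≤ bw (wt η) p r M v₀ := (bw_pos (fun k y => wt_pos η k y) hp0 _ _ _).le
  have k1 := mul_le_mul h1 h2 (wt_pos η _ _).le (mul_nonneg (Real.exp_pos _).le k0)
  have k2 : Real.exp (h * ((v - v₀ : ℤ) : ℝ)) ≤ Real.exp (q₃ * E) := Real.exp_le_exp.2 (by
    refine le_trans (le_abs_self _) ?_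
    rw [abs_mul]
    exact h3)
  calc _ ≤ Real.exp (q₃ * E) * (Real.exp (q₁ * E) * bw (wt η) p r M v₀ * (Real.exp (q₂ * E) * wt η r v)) :=
        mul_le_mul k2 k1 (mul_nonneg (bw_pos (fun k y => wt_pos η k y) hp0 _ _ _).le (wt_pos η _ _).le) (Real.exp_pos _).le
    _ = (Real.exp (q₁ * E) * Real.exp (q₂ * E) * Real.exp (q₃ * E)) * (bw (wt η) p r M v₀ * wt η r v) := by ring
    _ = _ := by
        rw [← Real.exp_add, ← Real.exp_add]
        congr 2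
        ring

/-- `side0`, `side2`, `side4` of `havV` (rows `0`, `n + m`, `3 n + m`) for `F r z = bw (a + r) z`. -/
theorem side87V [IsProbabilityMeasure μ] {η : Env} {p : ℕ → ℝ} {N a n m : ℕ} {h : ℝ} {x₀ : ℤ} (hp0 : ∀ k, 0 < p k)
    (hp : ∀ k, a ≤ k → k < a + 5 * n → p k = Real.exp (s + h)) (hN : a + 5 * n ≤ N) (hm : 2 * m ≤ n) (hn : 1 ≤ n)
    (hin : In μ s c C n₀) {K₁ K₂ Q U qB : ℝ} (hK : K₁ ≤ K₂)
    (hSd : η ∈ Sd18 μ s K₁ K₂ n m ((a : ℤ), x₀) Q) (hUs : η ∈ Us18 μ s c K₂ n m ((a : ℤ), x₀) U) {v : ℤ}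
    (hv : |lat16 μ s ((a : ℤ), x₀) ((a : ℤ) + ((5 * n : ℕ) : ℤ), v)| ≤ K₁ * wd μ s n)
    (hB : ∀ σ : ℝ, σ = 1 ∨ σ = -1 →
      Real.exp (h * ((v - (ft μ s ((a : ℤ), x₀) n (5 * n) (σ * (K₂ + 8))).2 : ℤ) : ℝ)) *
        (bw (wt η) p (a + 5 * n) (N - (a + 5 * n)) v * wt η (a + 5 * n) (ft μ s ((a : ℤ), x₀) n (5 * n) (σ * (K₂ + 8))).2) ≤
      Real.exp (qB * EE μ s n) * (bw (wt η) p (a + 5 * n) (N - (a + 5 * n)) (ft μ s ((a : ℤ), x₀) n (5 * n) (σ * (K₂ + 8))).2 *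
        wt η (a + 5 * n) v)) {e₃ : ℝ}
    (he3 : Real.exp ((qB + U + Q) * EE μ s n - hc μ s c (2 * n) * ((K₂ - 2 - K₁) * wd μ s n - 1)) ≤ e₃) (z : ℤ) :
    (¬ |lat16 μ s ((a : ℤ), x₀) ((a : ℤ), z)| ≤ (K₂ - 2) * wd μ s n →
      ker (wt η) p a (5 * n) z v * bw (wt η) p (a + 5 * n) (N - (a + 5 * n)) v ≤ e₃ * bw (wt η) p a (N - a) z) ∧
    (¬ |lat16 μ s ((a : ℤ), x₀) ((a : ℤ) + ((n + m : ℕ) : ℤ), z)| ≤ (K₂ - 2) * wd μ s n →
      ker (wt η) p (a + (n + m)) (5 * n - (n + m)) z v * bw (wt η) p (a + 5 * n) (N - (a + 5 * n)) v ≤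
        e₃ * bw (wt η) p (a + (n + m)) (N - (a + (n + m))) z) ∧
    (¬ |lat16 μ s ((a : ℤ), x₀) ((a : ℤ) + ((3 * n + m : ℕ) : ℤ), z)| ≤ (K₂ - 2) * wd μ s n →
      ker (wt η) p (a + (3 * n + m)) (5 * n - (3 * n + m)) z v * bw (wt η) p (a + 5 * n) (N - (a + 5 * n)) v ≤
        e₃ * bw (wt η) p (a + (3 * n + m)) (N - (a + (3 * n + m))) z) := by
  have key := fun i : Fin 3 => side87Z (μ := μ) (s := s) (η := η) (p := p) (N := N) (a := a) (n := n) (m := m) (h := h) (x₀ := x₀) hp0 hp hN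
    hm hn hin hK hSd hUs hv hB i z
  have up : ∀ r : ℕ, 0 ≤ bw (wt η) p (a + r) (N - (a + r)) z := fun r => (bw_pos (fun k y => wt_pos η k y) hp0 _ _ _).le
  refine ⟨fun hz => ?_, fun hz => ?_, fun hz => ?_⟩
  · have k := key 0 (by
      show ¬ |lat16 μ s ((a : ℤ), x₀) ((a : ℤ) + ((0 : ℕ) : ℤ), z)| ≤ (K₂ - 2) * wd μ s n
      rw [Nat.cast_zero, add_zero]
      exact hz)
    exact k.trans (mul_le_mul_of_nonneg_right he3 (up 0))
  · exact (key 1 hz).trans (mul_le_mul_of_nonneg_right he3 (up _))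
  · exact (key 2 hz).trans (mul_le_mul_of_nonneg_right he3 (up _))

end

end Pool.Agent.W_7d29a1_C1.Gt66
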