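import Pool.Agent.W_7d29a1_C1.Seq71
import Pool.Agent.W_7d29a1_C1.ContrE91
import Pool.Agent.W_7d29a1_HS.Tg

/-!
MP_7d29a1_pr, [C1], SHELL: THE SINGLE WEIGHTS OF ONE ROW. (helper83)

`RowG r z R t` : `|η (r, x)| ≤ t (1 + log (1 + |x - z| / R))` for every place `x` of the row `r`. It reads the row `r` only and has
probability at least `1 - exp (- A EE n)` for `t = q EE n`, `1 ≤ R ≤ n`, every `q > 0`, `A` (`rowG83`). The pointwise lower bounds of
the kernels from a cell contain the weight of the start.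
-/

set_option autoImplicit false

namespace Pool.Agent.W_7d29a1_C1.S83

open MeasureTheory ProbabilityTheory Filter Topology Finset
open Pool.Agent.W_7d29a1_F Pool.Agent.W_7d29a1_H Pool.Agent.W_7d29a1_HS
open Pool.Agent.W_7d29a1_C1.K91 (wt wt_pos)
open Pool.Agent.W_7d29a1_C1.S71 (Off)

noncomputable section

/-- The weights of the row `r` are at most `t`, with logarithmic growth in the distance from `z` in the unit `R`. -/
def RowG (r z : ℤ) (R t : ℝ) : Set Env := {η | ∀ x : ℤ, |η (r, x)| ≤ t * (1 + Real.log (1 + |((x - z : ℤ) : ℝ)| / R))}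

theorem meas_RowG (r z : ℤ) (R t : ℝ) : MeasurableSet (RowG r z R t) := by
  have h : RowG r z R t = ⋂ x : ℤ, {η : Env | |η (r, x)| ≤ t * (1 + Real.log (1 + |((x - z : ℤ) : ℝ)| / R))} := by
    ext η
    simp [RowG]
  rw [h]
  exact MeasurableSet.iInter fun x => measurableSet_le (measurable_pi_apply _).abs measurable_const

/-- It reads the row `r` only. -/
theorem off_RowG (r z : ℤ) (R t : ℝ) {B : Set Pt} (hB : ∀ x : ℤ, (r, x) ∉ B) : Off B (RowG r z R t) := by
  intro η η' he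
  have h : ∀ x : ℤ, η (r, x) = η' (r, x) := fun x => he _ (hB x)
  constructor
  · intro h1 x
    rw [← h x]
    exact h1 x
  · intro h1 x
    rw [h x]
    exact h1 x

theorem RowG_mono (r z : ℤ) {R t t' : ℝ} (hR : 0 < R) (h : t ≤ t') : RowG r z R t ⊆ RowG r z R t' := by
  intro η hη x
  refine (hη x).trans (mul_le_mul_of_nonneg_right h ?_)
  have h1 : 0 ≤ |((x - z : ℤ) : ℝ)| / R := by positivity
  have h2 := Real.log_nonneg (show (1 : ℝ) ≤ 1 + |((x - z : ℤ) : ℝ)| / R by linarith)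
  linarith

/-- On the window the weights are at most `t (1 + log (1 + Λ))`. -/
theorem RowG.win {r z : ℤ} {R t Λ : ℝ} {η : Env} (hη : η ∈ RowG r z R t) (hR : 0 < R) (ht : 0 ≤ t) {x : ℤ}
    (hx : |((x - z : ℤ) : ℝ)| ≤ Λ * R) : |η (r, x)| ≤ t * (1 + Real.log (1 + Λ)) := by
  refine (hη x).trans (mul_le_mul_of_nonneg_left ?_ ht)
  have h1 : |((x - z : ℤ) : ℝ)| / R ≤ Λ := by
    rw [div_le_iff₀ hR]
    exact hx
  have h2 : 0 ≤ |((x - z : ℤ) : ℝ)| / R := by positivity
  have h3 := Real.log_le_log (by linarith) (show 1 + |((x - z : ℤ) : ℝ)| / R ≤ 1 + Λ by linarith)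
  linarith

theorem RowG.wt_le {r : ℕ} {z : ℤ} {R t : ℝ} {η : Env} (hη : η ∈ RowG r z R t) (hR : 0 < R) (ht : 0 ≤ t) (x : ℤ) :
    wt η r x ≤ Real.exp (t * (1 + Real.log (1 + |((x - z : ℤ) : ℝ)| / R))) := by
  have h1 : 0 ≤ |((x - z : ℤ) : ℝ)| / R := by positivity
  have h2 := Real.log_nonneg (show (1 : ℝ) ≤ 1 + |((x - z : ℤ) : ℝ)| / R by linarith)
  unfold wt
  split_ifs
  · exact Real.one_le_exp (by positivity)
  · exact Real.exp_le_exp.2 ((le_abs_self _).trans (hη x))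

theorem RowG.le_wt {r : ℕ} {z : ℤ} {R t : ℝ} {η : Env} (hη : η ∈ RowG r z R t) (hR : 0 < R) (ht : 0 ≤ t) (x : ℤ) :
    Real.exp (-(t * (1 + Real.log (1 + |((x - z : ℤ) : ℝ)| / R)))) ≤ wt η r x := by
  have h1 : 0 ≤ |((x - z : ℤ) : ℝ)| / R := by positivity
  have h2 := Real.log_nonneg (show (1 : ℝ) ≤ 1 + |((x - z : ℤ) : ℝ)| / R by linarith)
  unfold wt
  split_ifs
  · exact Real.exp_le_one_iff.2 (neg_nonpos.2 (by positivity))
  · refine Real.exp_le_exp.2 ?_
    have h3 := hη x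
    have h4 := neg_abs_le (η ((r : ℤ), x))
    linarith

/-! ### The probability -/

/-- The sum of the inverse squares over the integers. -/
def c83 : ℝ := ∑' x : ℤ, 1 / (1 + |(x : ℝ)|) ^ 2

theorem sum83 : Summable fun x : ℤ => 1 / (1 + |(x : ℝ)|) ^ 2 := by
  have h1 : Summable fun n : ℕ => 1 / (1 + (n : ℝ)) ^ 2 := by
    have h2 := (summable_nat_add_iff 1).2 (Real.summable_one_div_nat_pow.2 (show 1 < 2 by norm_num))
    refine h2.congr fun n => ?_
    push_cast
    rw [add_comm]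
  refine summable_int_iff_summable_nat_and_neg.2 ⟨?_, ?_⟩
  · refine h1.congr fun n => ?_
    rw [Int.cast_natCast, abs_of_nonneg (Nat.cast_nonneg n)]
  · refine h1.congr fun n => ?_
    rw [Int.cast_neg, abs_neg, Int.cast_natCast, abs_of_nonneg (Nat.cast_nonneg n)]

variable {μ : Measure ℝ} [IsProbabilityMeasure μ]

/-- One weight. -/
theorem one83 (hem : Pool.Agent.W_7d29a1_h47.EM μ) (a : Pt) (b u : ℝ) (hb : 0 < b) :
    law μ {η : Env | u < |η a|} ≤ ENNReal.ofReal (Pool.Agent.W_7d29a1_h47.Mom μ b * Real.exp (-(b * u))) := by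
  have hmp : MeasurePreserving (Function.eval a) (law μ) μ := measurePreserving_eval_infinitePi (fun _ : Pt => μ) a
  have hi : Integrable (fun v : ℝ => Real.exp (b * |v|)) μ := hem b
  have h0 : law μ {η : Env | u < |η a|} = μ {v : ℝ | u < |v|} := by
    have h1 : MeasurableSet {v : ℝ | u < |v|} := measurableSet_lt measurable_const measurable_id.abs
    exact hmp.measure_preimage h1.nullMeasurableSet
  rw [h0]
  have h1 := mul_meas_ge_le_integral_of_nonneg (μ := μ) (Eventually.of_forall fun v => (Real.exp_pos (b * |v|)).le) hi (Real.exp (b * u))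
  have h2 : μ {v : ℝ | u < |v|} ≤ μ {v : ℝ | Real.exp (b * u) ≤ Real.exp (b * |v|)} := by
    refine measure_mono fun v hv => ?_
    have hv' : u < |v| := hv
    exact Real.exp_le_exp.2 (mul_le_mul_of_nonneg_left hv'.le hb.le)
  refine h2.trans ?_
  rw [← ENNReal.ofReal_toReal (measure_ne_top μ {v : ℝ | Real.exp (b * u) ≤ Real.exp (b * |v|)})]
  refine ENNReal.ofReal_le_ofReal ?_
  have h3 : Real.exp (b * u) * (μ {v : ℝ | Real.exp (b * u) ≤ Real.exp (b * |v|)}).toReal ≤ Pool.Agent.W_7d29a1_h47.Mom μ b := h1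
  have h4 : Real.exp (-(b * u)) * Real.exp (b * u) = 1 := by
    rw [← Real.exp_add]
    simp
  have h5 := mul_le_mul_of_nonneg_left h3 (Real.exp_pos (-(b * u))).le
  rw [← mul_assoc, h4, one_mul] at h5
  linarith

/-- **The bad event of a row.** -/
theorem prob_RowG (hem : Pool.Agent.W_7d29a1_h47.EM μ) (r z : ℤ) {b R t : ℝ} (hb : 0 < b) (hR : 1 ≤ R) (ht : 2 ≤ b * t) :
    (law μ).real (RowG r z R t)ᶜ ≤ Pool.Agent.W_7d29a1_h47.Mom μ b * Real.exp (-(b * t)) * R ^ 2 * c83 := by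
  have hR0 : 0 < R := by linarith
  have hM : 0 ≤ Pool.Agent.W_7d29a1_h47.Mom μ b := integral_nonneg fun v => (Real.exp_pos _).le
  have h1 : (RowG r z R t)ᶜ ⊆ ⋃ x : ℤ, {η : Env | t * (1 + Real.log (1 + |((x - z : ℤ) : ℝ)| / R)) < |η (r, x)|} := by
    intro η hη
    have hη' : ¬ ∀ x : ℤ, |η (r, x)| ≤ t * (1 + Real.log (1 + |((x - z : ℤ) : ℝ)| / R)) := hη
    push Not at hη'
    exact Set.mem_iUnion.2 hη'
  have h2 : ∀ x : ℤ, law μ {η : Env | t * (1 + Real.log (1 + |((x - z : ℤ) : ℝ)| / R)) < |η (r, x)|} ≤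
      ENNReal.ofReal (Pool.Agent.W_7d29a1_h47.Mom μ b * Real.exp (-(b * t)) * R ^ 2 * (1 / (1 + |((x - z : ℤ) : ℝ)|) ^ 2)) := by
    intro x
    refine (one83 hem _ b _ hb).trans (ENNReal.ofReal_le_ofReal ?_)
    have hu0 := abs_nonneg (((x - z : ℤ) : ℝ))
    generalize |((x - z : ℤ) : ℝ)| = u at hu0
    have hu : 0 ≤ u / R := by positivity
    have hl := Real.log_nonneg (show (1 : ℝ) ≤ 1 + u / R by linarith)
    have e1 : Real.exp (-(b * (t * (1 + Real.log (1 + u / R))))) = Real.exp (-(b * t)) * Real.exp (-(b * t * Real.log (1 + u / R))) := by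
      rw [← Real.exp_add]
      congr 1
      ring
    have e2 : Real.exp (-(b * t * Real.log (1 + u / R))) ≤ R ^ 2 * (1 / (1 + u) ^ 2) := by
      have f1 : Real.exp (-(b * t * Real.log (1 + u / R))) ≤ Real.exp (-(2 * Real.log (1 + u / R))) := by
        refine Real.exp_le_exp.2 ?_
        have := mul_le_mul_of_nonneg_right ht hl
        linarith
      have f2 : Real.exp (-(2 * Real.log (1 + u / R))) = 1 / (1 + u / R) ^ 2 := by
        rw [Real.exp_neg, one_div]
        congr 1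
        have : (2 : ℝ) * Real.log (1 + u / R) = Real.log (1 + u / R) + Real.log (1 + u / R) := by ring
        rw [this, Real.exp_add, Real.exp_log (by linarith)]
        ring
      have f3 : 1 / (1 + u / R) ^ 2 ≤ R ^ 2 * (1 / (1 + u) ^ 2) := by
        have g1 : (1 + u) ≤ R * (1 + u / R) := by
          rw [mul_add, mul_one, mul_div_cancel₀ _ hR0.ne']
          linarith
        have g2 : (1 + u) ^ 2 ≤ R ^ 2 * (1 + u / R) ^ 2 := by
          rw [← mul_pow]
          exact pow_le_pow_left₀ (by linarith) g1 2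
        have g3 : 0 < (1 + u / R) ^ 2 := by positivity
        have g4 : 0 < (1 + u) ^ 2 := by positivity
        rw [mul_one_div, div_le_div_iff₀ g3 g4]
        linarith
      exact f1.trans (f2.le.trans f3)
    calc Pool.Agent.W_7d29a1_h47.Mom μ b * Real.exp (-(b * (t * (1 + Real.log (1 + u / R)))))
        = Pool.Agent.W_7d29a1_h47.Mom μ b * Real.exp (-(b * t)) * Real.exp (-(b * t * Real.log (1 + u / R))) := by
          rw [e1]
          ring
      _ ≤ Pool.Agent.W_7d29a1_h47.Mom μ b * Real.exp (-(b * t)) * (R ^ 2 * (1 / (1 + u) ^ 2)) :=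
          mul_le_mul_of_nonneg_left e2 (mul_nonneg hM (Real.exp_pos _).le)
      _ = _ := by ring
  have hs : Summable fun x : ℤ => 1 / (1 + |((x - z : ℤ) : ℝ)|) ^ 2 := by
    have := (Equiv.subRight z).summable_iff.2 sum83
    exact this
  have hsum : ∑' x : ℤ, 1 / (1 + |((x - z : ℤ) : ℝ)|) ^ 2 = c83 := by
    unfold c83
    exact (Equiv.subRight z).tsum_eq (fun x : ℤ => 1 / (1 + |(x : ℝ)|) ^ 2)
  have h3 : law μ (RowG r z R t)ᶜ ≤ ENNReal.ofReal (Pool.Agent.W_7d29a1_h47.Mom μ b * Real.exp (-(b * t)) * R ^ 2 * c83) := by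
    refine (measure_mono h1).trans ((measure_iUnion_le _).trans ((ENNReal.tsum_le_tsum h2).trans ?_))
    rw [← ENNReal.ofReal_tsum_of_nonneg (fun x => by positivity) (hs.mul_left _), tsum_mul_left, hsum]
  have hc : 0 ≤ c83 := tsum_nonneg fun x => by positivity
  refine ENNReal.toReal_le_of_le_ofReal (by positivity) h3

/-- **THE WEIGHTS OF ONE ROW.** -/
theorem rowG83 {s c C : ℝ} {n₀ : ℕ} (h0 : In μ s c C n₀) {q : ℝ} (hq : 0 < q) (A : ℝ) : ∃ n₁ : ℕ, 1 ≤ n₁ ∧ ∀ n : ℕ, n₁ ≤ n →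
    ∀ (r z : ℤ) (R : ℝ), 1 ≤ R → R ≤ n → (law μ).real (RowG r z R (q * EE μ s n))ᶜ ≤ Real.exp (-(A * EE μ s n)) := by
  obtain ⟨b, hb⟩ : ∃ b : ℝ, b = (|A| + 3) / q := ⟨_, rfl⟩
  have hb0 : 0 < b := by
    rw [hb]
    have := abs_nonneg A
    positivity
  have hbq : b * q = |A| + 3 := by
    rw [hb, div_mul_cancel₀ _ hq.ne']
  have hM : 0 ≤ Pool.Agent.W_7d29a1_h47.Mom μ b := integral_nonneg fun v => (Real.exp_pos _).le
  have hc : 0 ≤ c83 := tsum_nonneg fun x => by positivity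
  obtain ⟨n₁, H1⟩ := lgo h0 (δ := 1 / 2) (by norm_num)
  obtain ⟨n₂, H2⟩ := eventually_atTop.1 (h0.tE.eventually_ge_atTop (Pool.Agent.W_7d29a1_h47.Mom μ b * c83))
  refine ⟨max n₁ (max n₂ 1), (le_max_right _ _).trans (le_max_right _ _), fun n hn r z R hR hRn => ?_⟩
  have hn1 : 1 ≤ n := ((le_max_right _ _).trans (le_max_right _ _)).trans hn
  have hnR : (1 : ℝ) ≤ n := by exact_mod_cast hn1
  have l1 := H1 n ((le_max_left _ _).trans hn)
  have l2 := H2 n (((le_max_left _ _).trans (le_max_right _ _)).trans hn)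
  have hE1 := one_le_EE (μ := μ) (s := s) n
  have hA := le_abs_self A
  have hA0 := abs_nonneg A
  obtain ⟨E, hE⟩ : ∃ E : ℝ, E = EE μ s n := ⟨_, rfl⟩
  rw [← hE] at l1 l2 hE1 ⊢
  have hbt : b * (q * E) = (|A| + 3) * E := by
    rw [← mul_assoc, hbq]
  have h1 := prob_RowG h0.em r z (b := b) (R := R) (t := q * E) hb0 hR (by rw [hbt]; nlinarith)
  refine h1.trans ?_
  rw [hbt]
  have h2 : R ^ 2 ≤ Real.exp E := by
    calc R ^ 2 ≤ (n : ℝ) ^ 2 := pow_le_pow_left₀ (by linarith) hRn 2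
      _ = Real.exp (2 * Real.log n) := by
          have : (2 : ℝ) * Real.log n = Real.log n + Real.log n := by ring
          rw [this, Real.exp_add, Real.exp_log (by linarith)]
          ring
      _ ≤ _ := Real.exp_le_exp.2 (by linarith)
  have h3 : Pool.Agent.W_7d29a1_h47.Mom μ b * c83 ≤ Real.exp E := by
    have := Real.add_one_le_exp E
    linarith
  calc Pool.Agent.W_7d29a1_h47.Mom μ b * Real.exp (-((|A| + 3) * E)) * R ^ 2 * c83
      = Real.exp (-((|A| + 3) * E)) * (R ^ 2 * (Pool.Agent.W_7d29a1_h47.Mom μ b * c83)) := by ring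
    _ ≤ Real.exp (-((|A| + 3) * E)) * (Real.exp E * Real.exp E) := by
        refine mul_le_mul_of_nonneg_left ?_ (Real.exp_pos _).le
        exact mul_le_mul h2 h3 (mul_nonneg hM hc) (Real.exp_pos _).le
    _ = Real.exp (-((|A| + 1) * E)) := by
        rw [← Real.exp_add, ← Real.exp_add]
        congr 1
        ring
    _ ≤ _ := by
        refine Real.exp_le_exp.2 ?_
        nlinarith

end

end Pool.Agent.W_7d29a1_C1.S83
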