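import Pool.Agent.W_7d29a1_C1.GateS58
import Pool.Agent.W_7d29a1_C1.GateZ87
import Pool.Agent.W_7d29a1_C1.RowW83

/-!
MP_7d29a1_pr, attractor route, [C1] SEP, GATE: the site weights of one row of the block, and the side hypothesis of `avo58`. (helper87)

* `X87 … K n b j q` : `|η (b.1 + j, x)| ≤ q EE n` for all `x` with `|lat| ≤ K w`; measurable, reads only these sites, `x87_prob` : its
  complement has probability at most `exp (- A EE n)` for all large `n`, for every `q > 0` and every `A`.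
* `side87S` : the hypothesis `side` of `avo58`, `gtS58` from `Sd18`, `Us18`, `X87` and the profile at the two sites of the row `a + 5 n`.
-/

set_option autoImplicit false

namespace Pool.Agent.W_7d29a1_C1.Gt66

open Finset MeasureTheory Filter Topology
open Pool.Agent.W_7d29a1_F Pool.Agent.W_7d29a1_h4g Pool.Agent.W_7d29a1_H Pool.Agent.W_7d29a1_HS
open Pool.Agent.W_7d29a1_C1.K91 (wt wt_pos)
open Pool.Agent.W_7d29a1_C1.K91P (fw bw fw_succ fw_nonneg bw_pos)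
open Pool.Agent.W_7d29a1_C1.U16 (ker lat16)
open Pool.Agent.W_7d29a1_C1.GL18
open Pool.Agent.W_7d29a1_C1.H75
open Pool.Agent.W_7d29a1_C1.S71 (Off)
open Pool.Agent.W_7d29a1_C1.S83 (RowG rowG83)
open Pool.Agent.W_7d29a1_C1.PW58 (lt lat_lt)

noncomputable section

variable {μ : Measure ℝ} {s c C : ℝ} {n₀ : ℕ}

/-- The site weights of the row `b.1 + j` near the line. -/
def X87 (μ : Measure ℝ) (s K : ℝ) (n : ℕ) (b : Pt) (j : ℕ) (q : ℝ) : Set Env :=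
  {η | ∀ x : ℤ, |lat16 μ s b (b.1 + (j : ℤ), x)| ≤ K * wd μ s n → |η (b.1 + (j : ℤ), x)| ≤ q * EE μ s n}

theorem meas_X87 (K : ℝ) (n : ℕ) (b : Pt) (j : ℕ) (q : ℝ) : MeasurableSet (X87 μ s K n b j q) := by
  have h : X87 μ s K n b j q = ⋂ x : ℤ, ⋂ _ : |lat16 μ s b (b.1 + (j : ℤ), x)| ≤ K * wd μ s n,
      {η : Env | |η (b.1 + (j : ℤ), x)| ≤ q * EE μ s n} := by
    ext η
    simp [X87]
  rw [h]
  exact MeasurableSet.iInter fun x => MeasurableSet.iInter fun _ => measurableSet_le (measurable_pi_apply _).abs measurable_const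

/-- It reads only the sites of the row in the window. -/
theorem off_X87 (K : ℝ) (n : ℕ) (b : Pt) (j : ℕ) (q : ℝ) {B : Set Pt}
    (hB : ∀ x : ℤ, |lat16 μ s b (b.1 + (j : ℤ), x)| ≤ K * wd μ s n → (b.1 + (j : ℤ), x) ∉ B) : Off B (X87 μ s K n b j q) := by
  intro η η' he
  constructor
  · intro h1 x hx
    rw [← he _ (hB x hx)]
    exact h1 x hx
  · intro h1 x hx
    rw [he _ (hB x hx)]
    exact h1 x hx

/-- **THE SITE WEIGHTS OF ONE ROW, every level `q > 0`.** -/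
theorem x87_probA [IsProbabilityMeasure μ] (h : In μ s c C n₀) {K q : ℝ} (hK : 0 ≤ K) (hq : 0 < q) (A : ℝ) : ∃ n₁ : ℕ, ∀ n : ℕ, n₁ ≤ n →
    ∀ (b : Pt) (j : ℕ), (law μ).real (X87 μ s K n b j q)ᶜ ≤ Real.exp (-(A * EE μ s n)) := by
  have hl : 0 ≤ Real.log (1 + (K + 1)) := Real.log_nonneg (by linarith)
  obtain ⟨L, hL⟩ : ∃ L, L = 1 + Real.log (1 + (K + 1)) := ⟨_, rfl⟩
  have hL1 : 1 ≤ L := by linarith
  obtain ⟨n1, hn1, H⟩ := rowG83 h (q := q / L) (by positivity) A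
  obtain ⟨n2, H2⟩ := eventually_atTop.1 ((wd_tendsto h).eventually_ge_atTop 1)
  obtain ⟨n3, H3⟩ := eventually_atTop.1 (h.tv.eventually (Iio_mem_nhds (show (0 : ℝ) < 1 from one_pos)))
  refine ⟨max n1 (max n2 n3), fun n hn b j => ?_⟩
  have k1 : n1 ≤ n := (le_max_left _ _).trans hn
  have k2 : n2 ≤ n := ((le_max_left _ _).trans (le_max_right _ _)).trans hn
  have k3 : n3 ≤ n := ((le_max_right _ _).trans (le_max_right _ _)).trans hn
  have hw := H2 n k2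
  have hwn : wd μ s n ≤ n := by
    have h1 : vA 1 μ s n < 1 := H3 n k3
    have hn0 : (0 : ℝ) ≤ n := Nat.cast_nonneg n
    calc wd μ s n = n * vA 1 μ s n := rfl
      _ ≤ n * 1 := mul_le_mul_of_nonneg_left h1.le hn0
      _ = n := mul_one _
  have hE := (EE_pos (μ := μ) (s := s) n).le
  refine le_trans (measureReal_mono (Set.compl_subset_compl.2 ?_)) (H n k1 (b.1 + (j : ℤ)) (b.2 + ⌊sl μ s * j⌋) (wd μ s n) hw hwn)
  intro η hη x hx
  have h1 := RowG.win hη (by linarith) (by positivity) (x := x) (Λ := K + 1) (by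
    have h2 : lat16 μ s b (b.1 + (j : ℤ), x) = ((x : ℝ) - b.2) - sl μ s * j := by
      unfold lat16
      push_cast
      ring
    rw [h2] at hx
    have f1 := Int.floor_le (sl μ s * j)
    have f2 := Int.lt_floor_add_one (sl μ s * j)
    have f3 := abs_le.1 hx
    push_cast
    rw [abs_le]
    constructor <;> nlinarith [f3.1, f3.2])
  refine h1.trans (le_of_eq ?_)
  rw [← hL]
  field_simp

theorem x87_prob [IsProbabilityMeasure μ] (h : In μ s c C n₀) {K q ε : ℝ} (hK : 0 ≤ K) (hq : 0 < q) (hε : 0 < ε) : ∃ n₁ : ℕ, ∀ n : ℕ,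
    n₁ ≤ n → ∀ (b : Pt) (j : ℕ), (law μ).real (X87 μ s K n b j q)ᶜ ≤ ε := by
  obtain ⟨n1, H⟩ := x87_probA h hK hq 1
  have h1 := (Real.tendsto_exp_neg_atTop_nhds_zero.comp h.tE).eventually_le_const hε
  obtain ⟨n2, H2⟩ := eventually_atTop.1 h1
  refine ⟨max n1 n2, fun n hn b j => (H n ((le_max_left _ _).trans hn) b j).trans ?_⟩
  rw [one_mul]
  exact H2 n ((le_max_right _ _).trans hn)

/-- **THE SIDE HYPOTHESIS OF `avo58`.** -/
theorem side87S [IsProbabilityMeasure μ] (hin : In μ s c C n₀) {η : Env} {p : ℕ → ℝ} {N a n m : ℕ} {h : ℝ} {x₀ : ℤ} (hp0 : ∀ k, 0 < p k)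
    (hp : ∀ k, a ≤ k → k < a + 5 * n → p k = Real.exp (s + h)) (hN : a + 5 * n ≤ N) (hm : 2 * m ≤ n) (hn : 1 ≤ n)
    (hw : 1 ≤ wd μ s n) {K₁ K₂ K Q U q q₁ q₃ : ℝ} (hK₀ : 0 ≤ K₁) (hK : K₁ ≤ K₂) (hKK : K₂ + 9 ≤ K)
    (hSd : η ∈ Sd18 μ s K₁ K₂ n m ((a : ℤ), x₀) Q) (hUs : η ∈ Us18 μ s c K₂ n m ((a : ℤ), x₀) U)
    (hX : η ∈ X87 μ s K n ((a : ℤ), x₀) (5 * n) q) {v : ℤ} (hv : |lt μ s x₀ (5 * n) v| ≤ K₁ * wd μ s n)
    (hprof : ∀ σ : ℝ, σ = 1 ∨ σ = -1 → bw (wt η) p (a + 5 * n) (N - (a + 5 * n)) v ≤ Real.exp (q₁ * EE μ s n) *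
      bw (wt η) p (a + 5 * n) (N - (a + 5 * n)) (ft μ s ((a : ℤ), x₀) n (5 * n) (σ * (K₂ + 8))).2)
    (hh : |h| * ((K₁ + K₂ + 9) * wd μ s n) ≤ q₃ * EE μ s n) {e₃ : ℝ}
    (he3 : Real.exp ((q₁ + 2 * q + q₃ + U + Q) * EE μ s n - hc μ s c (2 * n) * ((K₂ - 2 - K₁) * wd μ s n - 1)) ≤ e₃) (i : Fin 3) (y : ℤ)
    (hy : ¬ |lt μ s x₀ (rw3 n m i) y| ≤ (K₂ - 2) * wd μ s n) :
    ker (wt η) p (a + rw3 n m i) (5 * n - rw3 n m i) y v * bw (wt η) p (a + 5 * n) (N - (a + 5 * n)) v ≤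
      e₃ * bw (wt η) p (a + rw3 n m i) (N - (a + rw3 n m i)) y := by
  have w0 : 0 < wd μ s n := by linarith
  have hv' : |lat16 μ s ((a : ℤ), x₀) ((a : ℤ) + ((5 * n : ℕ) : ℤ), v)| ≤ K₁ * wd μ s n := by
    rw [← Nat.cast_add, lat_lt]
    exact hv
  have hy' : ¬ |lat16 μ s ((a : ℤ), x₀) ((a : ℤ) + ((rw3 n m i : ℕ) : ℤ), y)| ≤ (K₂ - 2) * wd μ s n := by
    rw [← Nat.cast_add, lat_lt]
    exact hy
  have hwt : ∀ x : ℤ, wt η (a + 5 * n) x = Real.exp (η ((a : ℤ) + ((5 * n : ℕ) : ℤ), x)) := fun x => by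
    unfold wt
    rw [if_neg (by omega)]
    push_cast
    rfl
  have g := side87Z (μ := μ) (s := s) (η := η) (p := p) (N := N) (a := a) (n := n) (m := m) (h := h) (x₀ := x₀) hp0 hp hN hm hn hin hK
    hSd hUs hv' (qB := q₁ + 2 * q + q₃) (fun σ hσ => ?_) i y hy'
  · refine g.trans (mul_le_mul_of_nonneg_right ?_ (bw_pos (fun k y => wt_pos η k y) hp0 _ _ _).le)
    exact he3
  · have hσ1 : |σ| = 1 := by rcases hσ with rfl | rfl <;> simp
    obtain ⟨v₀, hv₀⟩ : ∃ v₀, v₀ = (ft μ s ((a : ℤ), x₀) n (5 * n) (σ * (K₂ + 8))).2 := ⟨_, rfl⟩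
    have f1 := ft_lat (μ := μ) (s := s) ((a : ℤ), x₀) n (5 * n) (σ * (K₂ + 8))
    have ef : ft μ s ((a : ℤ), x₀) n (5 * n) (σ * (K₂ + 8)) = ((a : ℤ) + ((5 * n : ℕ) : ℤ), v₀) := by
      rw [hv₀]
      rfl
    rw [← hv₀]
    have hprof' := hprof σ hσ
    rw [← hv₀] at hprof'
    rw [ef] at f1
    have hl0 : |lat16 μ s ((a : ℤ), x₀) ((a : ℤ) + ((5 * n : ℕ) : ℤ), v₀)| ≤ (K₂ + 8) * wd μ s n + 1 := by
      have f2 : |σ * (K₂ + 8) * wd μ s n| = (K₂ + 8) * wd μ s n := by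
        rw [abs_mul, abs_mul, hσ1, one_mul, abs_of_nonneg (show 0 ≤ K₂ + 8 by linarith), abs_of_pos w0]
      have f3 := abs_le.1 f2.le
      rw [abs_le]
      constructor <;> linarith [f1.1, f1.2, f3.1, f3.2]
    have x1 := hX v (hv'.trans (mul_le_mul_of_nonneg_right (by linarith) w0.le))
    have x2 := hX v₀ (hl0.trans (by nlinarith))
    have hd : |((v - v₀ : ℤ) : ℝ)| ≤ (K₁ + K₂ + 9) * wd μ s n := by
      have e1 : ((v - v₀ : ℤ) : ℝ) = lat16 μ s ((a : ℤ), x₀) ((a : ℤ) + ((5 * n : ℕ) : ℤ), v) -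
          lat16 μ s ((a : ℤ), x₀) ((a : ℤ) + ((5 * n : ℕ) : ℤ), v₀) := by
        unfold lat16
        push_cast
        ring
      rw [e1]
      refine (abs_sub _ _).trans ?_
      nlinarith
    refine prof87 (q₁ := q₁) (q₂ := 2 * q) (q₃ := q₃) hp0 hprof' ?_ ?_
    · rw [hwt, hwt, ← Real.exp_add]
      have y1 := abs_le.1 x1
      have y2 := abs_le.1 x2
      exact Real.exp_le_exp.2 (by
        have z1 := y1.1
        have z2 := y2.2
        simp only at z1 z2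
        linarith)
    · exact (mul_le_mul_of_nonneg_left hd (abs_nonneg h)).trans hh

end

end Pool.Agent.W_7d29a1_C1.Gt66
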