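import Pool.Agent.W_7d29a1_C1.PathG58
import Pool.Agent.W_7d29a1_C1.UniA16

/-!
MP_7d29a1_pr, attractor route, [C1] SEP: THE WALLS OF THIN STRIPS, in the units of the block. (helper58)

`DT58` = `D58` at the scale `m` of the strips, `n ≤ M m`: strength `A EE n`, rows `(a, a + 5 n]`, lengths `≥ m - 1`; probability `≥ p`
for every excluded set (`wallsT58`), in the form of the average (`WallC58`).
-/

set_option autoImplicit false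

namespace Pool.Agent.W_7d29a1_C1.PW58

open MeasureTheory ProbabilityTheory Finset
open Pool.Agent.W_7d29a1_F Pool.Agent.W_7d29a1_h4g Pool.Agent.W_7d29a1_H Pool.Agent.W_7d29a1_HS Pool.Agent.W_7d29a1_HL
open Pool.Agent.W_7d29a1_C1
open Pool.Agent.W_7d29a1_C1.S71
open Pool.Agent.W_7d29a1_C1.F31 (DecO FinO)
open Pool.Agent.W_7d29a1_C1.Wall66 (Gd)
open Pool.Agent.W_7d29a1_C1.BP58
open Pool.Agent.W_7d29a1_C1.Gt66

noncomputable section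

attribute [local instance 10] Classical.propDecidable

variable {μ : Measure ℝ} {s c C : ℝ} {n₀ : ℕ}

/-- The walls off `Ex`, scale `m`, `5 M` blocks, strength `A EE n` for `n ≤ M m`. -/
def DT58 (μ : Measure ℝ) (s : ℝ) (Sw Ex : Set Pt) (a : Pt) (M m : ℕ) (A B : ℝ) : Set Env :=
  D58 μ s Sw Ex a (5 * M) m (m - 1) (1 / 2) (M * |A|) B

theorem DT58_cS [IsProbabilityMeasure μ] (h : In μ s c C n₀) {Sw Ex : Set Pt} {a : Pt} {M m n : ℕ} (hM : 1 ≤ M) (hn : n ≤ M * m) {A B : ℝ} {η : Env}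
    (hη : η ∈ DT58 μ s Sw Ex a M m A B) {i : ℤ} {r : ℕ} (h1 : a.1 ≤ i) (h2 : i + r ≤ a.1 + (5 * n : ℕ)) (h3 : m - 1 ≤ r) (x : ℤ) :
    cS μ s (Sw \ Ex) η (i, x) r ≤ Real.exp (-(A * EE μ s n)) := by
  have h5 : 5 * n ≤ 5 * M * m := by rw [mul_assoc]; exact Nat.mul_le_mul_left 5 hn
  have h4 : cS μ s (Sw \ Ex) η (i, x) r ≤ Real.exp (-(M * |A| * EE μ s m)) := (hη (i, x) r h1 (by
    have : i + (r : ℤ) ≤ a.1 + ((5 * n : ℕ) : ℤ) := h2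
    show i + (r : ℤ) ≤ a.1 + ((5 * M * m : ℕ) : ℤ)
    omega)).2.1 h3
  refine h4.trans (Real.exp_le_exp.2 ?_)
  have h6 : EE μ s n ≤ M * EE μ s m := Pool.Agent.W_7d29a1_H.EE_le_mul h.em s hM hn
  have h7 := EE_pos (μ := μ) (s := s) n
  have h8 : A * EE μ s n ≤ |A| * EE μ s n := mul_le_mul_of_nonneg_right (le_abs_self A) h7.le
  have h9 := mul_le_mul_of_nonneg_left h6 (abs_nonneg A)
  nlinarith

/-- **THE WALLS OF THIN STRIPS.** -/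
theorem wallsT58 [IsProbabilityMeasure μ] (h : In μ s c C n₀) {K₂ : ℝ} (hK₂ : 0 ≤ K₂) {M : ℕ} (hM : 1 ≤ M) : ∃ B : ℝ, 0 ≤ B ∧
    ∀ A : ℝ, ∃ p : ℝ, 0 < p ∧ ∃ n₁ : ℕ, 2 ≤ n₁ ∧ ∀ n m : ℕ, n₁ ≤ m → m ≤ n → n ≤ M * m → ∀ (a : ℕ) (x0 : ℤ) (Sw : Set Pt),
      Sw ⊆ tb (sl μ s) ((a : ℤ), x0) (K₂ * wd μ s n) →
      (∀ Ex : Set Pt, Gd (DT58 μ s Sw Ex ((a : ℤ), x0) M m A B) ∧ On20 (Sw \ Ex) (DT58 μ s Sw Ex ((a : ℤ), x0) M m A B) ∧
        p ≤ (law μ).real (DT58 μ s Sw Ex ((a : ℤ), x0) M m A B) ∧ ∀ η ∈ DT58 μ s Sw Ex ((a : ℤ), x0) M m A B, ∀ (i : ℤ) (r : ℕ) (x : ℤ),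
          (a : ℤ) ≤ i → i + r ≤ a + (5 * n : ℕ) → m - 1 ≤ r → cS μ s (Sw \ Ex) η (i, x) r ≤ Real.exp (-(A * EE μ s n))) ∧
      ∀ (nn : ℕ) (Ex : Pa nn → Pa nn → Set Pt), (∀ π π', sit a π ∪ sit a π' ⊆ Ex π π') →
        WallC58 μ Sw a p fun π π' => DT58 μ s Sw (Ex π π') ((a : ℤ), x0) M m A B := by
  have hM0 : (0 : ℝ) ≤ M := Nat.cast_nonneg M
  obtain ⟨B, hB, h1⟩ := gateM58 (μ := μ) (s := s) h (R := K₂ * (2 * M)) (by positivity) (K := 5 * M) (by omega)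
  refine ⟨B, hB, fun A => ?_⟩
  obtain ⟨p, hp, n₁, h2⟩ := h1 (M * |A|) (1 / 2) (by norm_num)
  refine ⟨p, hp, max n₁ 2, le_max_right _ _, fun n m hm hmn hn a x0 Sw hSw => ?_⟩
  have hm2 : 2 ≤ m := (le_max_right _ _).trans hm
  have hm1 : n₁ ≤ m := (le_max_left _ _).trans hm
  have hmR : (0 : ℝ) < m := by exact_mod_cast (by omega : 0 < m)
  have hw : wd μ s n ≤ 2 * M * wd μ s m := by
    have e1 := U16.wd_le h (show 1 ≤ m by omega) hmn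
    have e2 : (n : ℝ) / m ≤ M := by
      rw [div_le_iff₀ hmR]
      exact_mod_cast hn
    refine e1.trans (mul_le_mul_of_nonneg_right ?_ (h.wd_nonneg m))
    linarith
  have hSw' : Sw ⊆ tb (sl μ s) ((a : ℤ), x0) (K₂ * (2 * M) * wd μ s m) := by
    refine hSw.trans fun q hq => ?_
    have e3 := mul_le_mul_of_nonneg_left hw hK₂
    exact le_trans (show _ ≤ K₂ * wd μ s n from hq) (by nlinarith)
  have hτ : (1 / 2 : ℝ) * m ≤ ((m - 1 : ℕ) : ℝ) := by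
    rw [Nat.cast_sub (by omega)]
    have : (2 : ℝ) ≤ m := by exact_mod_cast hm2
    push_cast
    linarith
  have g := fun Ex => gd_D58 (μ := μ) (s := s) hSw' Ex ((a : ℤ), x0) (5 * M) m (m - 1) (1 / 2) (M * |A|) B
  have hP := fun Ex => h2 m hm1 ((a : ℤ), x0) Sw Ex (m - 1) hSw' hτ
  refine ⟨fun Ex => ⟨g Ex, fun η η' hh => on_D58 Sw Ex ((a : ℤ), x0) (5 * M) m (m - 1) (1 / 2) (M * |A|) B η η' fun q hq => hh q hq.1, hP Ex,
    fun η hη i r x k1 k2 k3 => DT58_cS h hM hn hη k1 k2 k3 x⟩, fun nn Ex hEx => ?_⟩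
  exact
    { m := fun π π' => (g _).m
      d := fun π π' => DecO.of_dec (g _).d _
      f := fun π π' => finO58 (g _).f (on_D58 Sw (Ex π π') ((a : ℤ), x0) (5 * M) m (m - 1) (1 / 2) (M * |A|) B) (q_off58 (hEx π π'))
      p := fun π π' => hP _ }

end

end Pool.Agent.W_7d29a1_C1.PW58
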