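import Pool.Agent.W_7d29a1_C1.NumG66
import Pool.Agent.W_7d29a1_C1.GateS58
import Pool.Agent.W_7d29a1_C1.GateX87
import Pool.Agent.W_7d29a1_C1.GateC18
import Pool.Agent.W_7d29a1_C1.PathP58

/-!
MP_7d29a1_pr, attractor route, [C1] SEP: THE NUMBERS OF THE GATE. (helper58)

Scale `T` of the window, block scale `n = M m`, `j n ≤ T ≤ 2 j n` with `j` a fixed number. The core has the half width `K₁ wd n` between
`kc wd T` and `kc wd T + wd n`, `K₁ ≤ K1h`; then the radius `R` of the profile clause may be chosen as large as the costs at the core ask,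
and the walls have the half width `K₂ wd n`, `(K₂ + 9) wd n ≤ R wd T`, `K₂ ≤ K2h`.

Order: `kc, j₀, ε | j, K1h, U₀, Q₀, U₁, Q₁ | G, R | M, K2h, U, Q, A, B, Y, p | n₂ | n₁ | T | n, m, K₁, K₂`.
-/

set_option autoImplicit false

namespace Pool.Agent.W_7d29a1_C1.PW58

open MeasureTheory ProbabilityTheory Filter Topology
open Pool.Agent.W_7d29a1_F Pool.Agent.W_7d29a1_h4g Pool.Agent.W_7d29a1_H Pool.Agent.W_7d29a1_HS
open Pool.Agent.W_7d29a1_C1.U16 (lat16)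
open Pool.Agent.W_7d29a1_C1.H75
open Pool.Agent.W_7d29a1_C1.GL18
open Pool.Agent.W_7d29a1_C1
open Pool.Agent.W_7d29a1_C1.Gt66
open Pool.Agent.W_7d29a1_HL (cS)

noncomputable section

variable {μ : Measure ℝ} {s : ℝ} [IsProbabilityMeasure μ] {c C : ℝ} {n₀ : ℕ}

/-! ### The scales -/

/-- The comparisons between the scale `T` of the window and the scale `n` of the block. -/
structure Sc58 (μ : Measure ℝ) (s : ℝ) (j n T : ℕ) : Prop where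
  nT : n ≤ T
  E1 : 1 ≤ EE μ s n
  w1 : 1 ≤ wd μ s n
  EnT : EE μ s n ≤ EE μ s T
  ETn : EE μ s T ≤ 4 * j * EE μ s n
  wnT : wd μ s n ≤ wd μ s T
  wTn : wd μ s T ≤ 4 * j * wd μ s n
  sl : EE μ s T * wd μ s n ≤ EE μ s n * wd μ s T

theorem sc58 (h : In μ s c C n₀) (j₀ : ℕ) : ∃ j n₁ : ℕ, j₀ ≤ j ∧ 1 ≤ j ∧ ∀ n T : ℕ, n₁ ≤ n → j * n ≤ T → T ≤ 2 * j * n →
    Sc58 μ s j n T := by
  obtain ⟨J, n₁, hJ⟩ := Pool.Agent.W_7d29a1_HL.hsl h 1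
  obtain ⟨n₂, hn₂⟩ := eventually_atTop.1 ((wd_tendsto h).eventually_ge_atTop 1)
  refine ⟨2 ^ J + j₀, n₁ + n₂ + 1, Nat.le_add_left _ _, le_trans Nat.one_le_two_pow (Nat.le_add_right _ _), fun n T hn h1 h2 => ?_⟩
  obtain ⟨j, hj⟩ : ∃ j : ℕ, j = 2 ^ J + j₀ := ⟨_, rfl⟩
  rw [← hj] at h1 h2 ⊢
  have hj1 : 1 ≤ j := by
    have := Nat.one_le_two_pow (n := J)
    omega
  have hn1 : 1 ≤ n := by omega
  have hnT : n ≤ T := le_trans (Nat.le_mul_of_pos_left n hj1) h1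
  have hJT : 2 ^ J * n ≤ T := le_trans (Nat.mul_le_mul_right n (by omega)) h1
  have g1 := hJ T n (by omega) hJT
  rw [one_mul] at g1
  have hE := EE_pos (μ := μ) (s := s) n
  have hEE : EE μ s n ≤ EE μ s T := EE_mono hnT
  have hw := hn₂ n (by omega)
  have hnR : (0 : ℝ) < n := by exact_mod_cast hn1
  have hTR : (T : ℝ) ≤ 2 * j * n := by exact_mod_cast h2
  refine ⟨hnT, one_le_EE n, hw, hEE, ?_, ?_, ?_, g1⟩
  · have g2 := scale_b h hn1 hnT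
    have g3 : (n : ℝ) * EE μ s T ≤ n * (4 * j * EE μ s n) := by
      calc (n : ℝ) * EE μ s T ≤ 2 * (T * EE μ s n) := g2
        _ ≤ 2 * (2 * j * n * EE μ s n) := by
            have := mul_le_mul_of_nonneg_right hTR hE.le
            linarith
        _ = _ := by ring
    exact le_of_mul_le_mul_left g3 hnR
  · have g2 : EE μ s n * wd μ s n ≤ EE μ s n * wd μ s T := le_trans (mul_le_mul_of_nonneg_right hEE (by linarith)) g1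
    exact le_of_mul_le_mul_left g2 hE
  · have hvA := vA_le_two h hn1 hnT
    unfold wd at *
    have hv0 : 0 ≤ vA 1 μ s n := by
      by_contra hv
      have : (n : ℝ) * vA 1 μ s n < 0 := mul_neg_of_pos_of_neg hnR (not_le.1 hv)
      linarith
    calc (T : ℝ) * vA 1 μ s T ≤ T * (2 * vA 1 μ s n) := mul_le_mul_of_nonneg_left hvA (Nat.cast_nonneg T)
      _ ≤ 2 * j * n * (2 * vA 1 μ s n) := mul_le_mul_of_nonneg_right hTR (by linarith)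
      _ = _ := by ring

/-! ### Finitely many values -/

theorem fin_max58 {P : ℕ → ℝ → ℕ → Prop} (hP : ∀ k Q Q' m m', P k Q m → Q ≤ Q' → m ≤ m' → P k Q' m')
    (N : ℕ) (h : ∀ k ≤ N, ∃ Q : ℝ, 0 ≤ Q ∧ ∃ m, P k Q m) : ∃ Q : ℝ, 0 ≤ Q ∧ ∃ m, ∀ k ≤ N, P k Q m := by
  induction N with
  | zero =>
    obtain ⟨Q, hQ, m, hm⟩ := h 0 le_rfl
    exact ⟨Q, hQ, m, fun k hk => by
      obtain rfl : k = 0 := by omega
      exact hm⟩
  | succ N ih =>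
    obtain ⟨Q, hQ, m, hm⟩ := ih fun k hk => h k (by omega)
    obtain ⟨Q', hQ', m', hm'⟩ := h (N + 1) le_rfl
    refine ⟨max Q Q', le_max_of_le_left hQ, max m m', fun k hk => ?_⟩
    by_cases hk1 : k ≤ N
    · exact hP _ _ _ _ _ (hm k hk1) (le_max_left _ _) (le_max_left _ _)
    · obtain rfl : k = N + 1 := by omega
      exact hP _ _ _ _ _ hm' (le_max_right _ _) (le_max_right _ _)

theorem lo18_monoQ {K₁ K₂ Q Q' : ℝ} {n m : ℕ} {a : Pt} (hQ : Q ≤ Q') : Lo18 μ s K₁ K₂ n m a Q ⊆ Lo18 μ s K₁ K₂ n m a Q' := by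
  intro η hη x v hx hv
  refine le_trans (Real.exp_le_exp.2 ?_) (hη x v hx hv)
  have := EE_pos (μ := μ) (s := s) n
  nlinarith

/-- `Lo18` for all integers `K₁ ≤ K1h` at once. -/
theorem lo18N (h : In μ s c C n₀) (K1h : ℕ) {K₂ ε : ℝ} (hK₂ : 0 ≤ K₂) (hε : 0 < ε) : ∃ Q : ℝ, 0 ≤ Q ∧ ∃ m₁ : ℕ, ∀ K₁ : ℕ, K₁ ≤ K1h →
    ∀ n m : ℕ, m₁ ≤ m → 2 * m ≤ n → ∀ a : Pt, (law μ).real (Lo18 μ s K₁ K₂ n m a Q)ᶜ ≤ ε := by
  refine fin_max58 (P := fun k Q m₁ => ∀ n m : ℕ, m₁ ≤ m → 2 * m ≤ n → ∀ a : Pt, (law μ).real (Lo18 μ s k K₂ n m a Q)ᶜ ≤ ε)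
    (fun k Q Q' m m' h1 hQ hm n i hi hn a => ?_) K1h fun k _ => lo18_prob h (Nat.cast_nonneg k) hK₂ hε
  exact (measureReal_mono (Set.compl_subset_compl.2 (lo18_monoQ hQ))).trans (h1 n i (hm.trans hi) hn a)

omit [IsProbabilityMeasure μ] in
theorem co18_anti {K₁ K₁' : ℝ} {n : ℕ} {a : Pt} {Q : ℝ} (hK : K₁ ≤ K₁') (hw : 0 ≤ wd μ s n) : Co18 μ s K₁' n a Q ⊆ Co18 μ s K₁ n a Q :=
  fun _ hη z v hz hv => hη z v (hz.trans (mul_le_mul_of_nonneg_right hK hw)) (hv.trans (mul_le_mul_of_nonneg_right hK hw))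

omit [IsProbabilityMeasure μ] in
theorem up18_anti {K K' : ℝ} {n : ℕ} {a : Pt} {U : ℝ} (hK : K ≤ K') (hw : 0 ≤ wd μ s n) : Up18 μ s c K' n a U ⊆ Up18 μ s c K n a U :=
  fun _ hη p j h1 h2 h3 => hη p j h1 h2 (h3.trans (mul_le_mul_of_nonneg_right hK hw))

omit [IsProbabilityMeasure μ] in
theorem sw_sub_tb {K₁ K₂ : ℝ} {n m : ℕ} {a : Pt} {K : ℝ} (hK : K₂ ≤ K) (hw : 0 ≤ wd μ s n) :
    Sw μ s K₁ K₂ n m a ⊆ tb (sl μ s) a (K * wd μ s n) := by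
  rintro p ⟨_, h2, _⟩
  have h3 : |lat16 μ s a p| ≤ K * wd μ s n := h2.trans (mul_le_mul_of_nonneg_right hK hw)
  exact h3

/-! ### The typical set -/

/-- The typical set of the gate block. -/
def TF58 (μ : Measure ℝ) (s c : ℝ) (K1h K2h K₁ K₂ : ℕ) (U₀ Q₀ U₁ Q₁ U Q Y : ℝ) (n m : ℕ) (a : Pt) : Set Env :=
  (Lo18 μ s K₁ K₂ n m a Q ∩ Sd18 μ s K₁ K₂ n m a Q₁) ∩ (Up18 μ s c (K2h + 3) n a U ∩ Us18 μ s c K₂ n m a U₁) ∩
    (Jp18 μ s K₂ n m a Y ∩ X87 μ s (K2h + 10) n a (5 * n) 1) ∩ (Co18 μ s K1h n a Q₀ ∩ Up18 μ s c (K1h + 1) n a U₀)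

theorem eight_le {S A B D E F G H I : Set Env} (h : S ⊆ ((A ∪ B) ∪ (D ∪ E)) ∪ (F ∪ G) ∪ (H ∪ I)) {ε : ℝ} (hA : (law μ).real A ≤ ε)
    (hB : (law μ).real B ≤ ε) (hD : (law μ).real D ≤ ε) (hE : (law μ).real E ≤ ε) (hF : (law μ).real F ≤ ε) (hG : (law μ).real G ≤ ε)
    (hH : (law μ).real H ≤ ε) (hI : (law μ).real I ≤ ε) : (law μ).real S ≤ 8 * ε := by
  have h0 := measureReal_mono (μ := law μ) h
  have h1 := measureReal_union_le (μ := law μ) (((A ∪ B) ∪ (D ∪ E)) ∪ (F ∪ G)) (H ∪ I)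
  have h2 := measureReal_union_le (μ := law μ) ((A ∪ B) ∪ (D ∪ E)) (F ∪ G)
  have h3 := measureReal_union_le (μ := law μ) (A ∪ B) (D ∪ E)
  have h4 := measureReal_union_le (μ := law μ) A B
  have h5 := measureReal_union_le (μ := law μ) D E
  have h6 := measureReal_union_le (μ := law μ) F G
  have h7 := measureReal_union_le (μ := law μ) H I
  linarith

theorem TF58_prob {K1h K2h K₁ K₂ : ℕ} {U₀ Q₀ U₁ Q₁ U Q Y ε : ℝ} {n m : ℕ} {a : Pt}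
    (b1 : (law μ).real (Lo18 μ s K₁ K₂ n m a Q)ᶜ ≤ ε / 8) (b2 : (law μ).real (Sd18 μ s K₁ K₂ n m a Q₁)ᶜ ≤ ε / 8)
    (b3 : (law μ).real (Up18 μ s c (K2h + 3) n a U)ᶜ ≤ ε / 8) (b4 : (law μ).real (Us18 μ s c K₂ n m a U₁)ᶜ ≤ ε / 8)
    (b5 : (law μ).real (Jp18 μ s K₂ n m a Y)ᶜ ≤ ε / 8) (b6 : (law μ).real (X87 μ s (K2h + 10) n a (5 * n) 1)ᶜ ≤ ε / 8)
    (b7 : (law μ).real (Co18 μ s K1h n a Q₀)ᶜ ≤ ε / 8) (b8 : (law μ).real (Up18 μ s c (K1h + 1) n a U₀)ᶜ ≤ ε / 8) :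
    (law μ).real (TF58 μ s c K1h K2h K₁ K₂ U₀ Q₀ U₁ Q₁ U Q Y n m a)ᶜ ≤ ε := by
  have := eight_le (μ := μ) (S := (TF58 μ s c K1h K2h K₁ K₂ U₀ Q₀ U₁ Q₁ U Q Y n m a)ᶜ) (fun η hη => by
    by_contra hcon
    simp only [Set.mem_union, Set.mem_compl_iff, not_or, not_not] at hcon
    exact hη ⟨⟨⟨hcon.1.1.1, hcon.1.1.2⟩, hcon.1.2⟩, hcon.2⟩) b1 b2 b3 b4 b5 b6 b7 b8
  linarith

/-! ### The constant of the walls -/

theorem ep58_half (h : In μ s c C n₀) {U Q : ℝ} (hU : 0 ≤ U) (hQ : 0 ≤ Q) : ∃ A Y : ℝ, 0 ≤ A ∧ 0 ≤ Y ∧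
    ∀ n m : ℕ, 1 ≤ n → m ≤ n → ep58 μ s Q U Y A n m ≤ 1 / 2 := by
  have hC0 : 0 < C := lt_of_lt_of_le one_pos h.C1
  have hCC := C66_pos (μ := μ) (s := s)
  obtain ⟨t, ht⟩ : ∃ t : ℝ, t = Real.log (6 * C66 μ s + 1) := ⟨_, rfl⟩
  have ht0 : 0 ≤ t := by
    rw [ht]
    exact Real.log_nonneg (by linarith)
  obtain ⟨Ub, hUb⟩ : ∃ Ub : ℝ, Ub = U + |lam μ s| := ⟨_, rfl⟩
  have hUb0 : 0 ≤ Ub := by rw [hUb]; positivity
  obtain ⟨Y, hY⟩ : ∃ Y : ℝ, Y = 7 * Ub + Q + C + t := ⟨_, rfl⟩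
  obtain ⟨A, hA⟩ : ∃ A : ℝ, A = 6 * Ub + Q + t := ⟨_, rfl⟩
  refine ⟨A, Y, by rw [hA]; positivity, by rw [hY]; positivity, fun n m hn1 hmn => ?_⟩
  have hE1 : 1 ≤ EE μ s n := one_le_EE n
  have hlg := h.lg n hn1
  have hmr : (m : ℝ) ≤ Real.exp (C * EE μ s n) := by
    have h1 : (m : ℝ) ≤ n := by exact_mod_cast hmn
    have h2 : (n : ℝ) = Real.exp (Real.log n) := (Real.exp_log (by exact_mod_cast hn1)).symm
    exact h1.trans (h2.le.trans (Real.exp_le_exp.2 hlg))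
  have hbase : Real.exp (|lam μ s| + U * EE μ s n) ≤ Real.exp (Ub * EE μ s n) := by
    refine Real.exp_le_exp.2 ?_
    rw [hUb, add_mul]
    nlinarith [abs_nonneg (lam μ s)]
  have ht1 : Real.exp (-(t * EE μ s n)) ≤ 1 / (6 * C66 μ s + 1) := by
    have h1 : Real.exp (-(t * EE μ s n)) ≤ Real.exp (-t) := Real.exp_le_exp.2 (by nlinarith)
    refine h1.trans (le_of_eq ?_)
    rw [Real.exp_neg, ht, Real.exp_log (by linarith), one_div]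
  have e6 : Real.exp (|lam μ s| + U * EE μ s n) ^ 6 ≤ Real.exp (6 * (Ub * EE μ s n)) := by
    refine (pow_le_pow_left₀ (Real.exp_pos _).le hbase 6).trans (le_of_eq ?_)
    rw [← Real.exp_nat_mul]
    norm_num
  have hden : ∀ x : ℝ, x / Real.exp (-(Q * EE μ s n)) = x * Real.exp (Q * EE μ s n) := fun x => by
    rw [div_eq_mul_inv, ← Real.exp_neg, neg_neg]
  unfold ep58
  rw [hden]
  have k1 : Real.exp (6 * (Ub * EE μ s n)) * Real.exp (-(A * EE μ s n)) * Real.exp (Q * EE μ s n) = Real.exp (-(t * EE μ s n)) := by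
    rw [← Real.exp_add, ← Real.exp_add]
    congr 1
    rw [hA]
    ring
  have k2 : Real.exp (6 * (Ub * EE μ s n)) * ((m : ℝ) * (Real.exp (Ub * EE μ s n) * Real.exp (-(Y * EE μ s n)))) * Real.exp (Q * EE μ s n) ≤
      Real.exp (-(t * EE μ s n)) := by
    calc Real.exp (6 * (Ub * EE μ s n)) * ((m : ℝ) * (Real.exp (Ub * EE μ s n) * Real.exp (-(Y * EE μ s n)))) * Real.exp (Q * EE μ s n) ≤
          Real.exp (6 * (Ub * EE μ s n)) * (Real.exp (C * EE μ s n) * (Real.exp (Ub * EE μ s n) * Real.exp (-(Y * EE μ s n)))) *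
            Real.exp (Q * EE μ s n) := by
          refine mul_le_mul_of_nonneg_right (mul_le_mul_of_nonneg_left (mul_le_mul_of_nonneg_right hmr (by positivity))
            (Real.exp_pos _).le) (Real.exp_pos _).le
      _ = Real.exp (-(t * EE μ s n)) := by
          rw [← Real.exp_add, ← Real.exp_add, ← Real.exp_add, ← Real.exp_add]
          congr 1
          rw [hY]
          ring
  have hm0 : (0 : ℝ) ≤ m := Nat.cast_nonneg m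
  calc C66 μ s * Real.exp (|lam μ s| + U * EE μ s n) ^ 6 * (Real.exp (-(A * EE μ s n)) +
        ((m : ℝ) + m) * (Real.exp (|lam μ s| + U * EE μ s n) * Real.exp (-(Y * EE μ s n)))) * Real.exp (Q * EE μ s n) ≤
      C66 μ s * Real.exp (6 * (Ub * EE μ s n)) * (Real.exp (-(A * EE μ s n)) +
        ((m : ℝ) + m) * (Real.exp (Ub * EE μ s n) * Real.exp (-(Y * EE μ s n)))) * Real.exp (Q * EE μ s n) := by
        refine mul_le_mul_of_nonneg_right (mul_le_mul (mul_le_mul_of_nonneg_left e6 hCC.le) ?_ (by positivity) (by positivity)) (Real.exp_pos _).le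
        refine add_le_add le_rfl (mul_le_mul_of_nonneg_left (mul_le_mul_of_nonneg_right hbase (Real.exp_pos _).le) (by positivity))
    _ = C66 μ s * (Real.exp (6 * (Ub * EE μ s n)) * Real.exp (-(A * EE μ s n)) * Real.exp (Q * EE μ s n) +
        2 * (Real.exp (6 * (Ub * EE μ s n)) * ((m : ℝ) * (Real.exp (Ub * EE μ s n) * Real.exp (-(Y * EE μ s n)))) *
          Real.exp (Q * EE μ s n))) := by ring
    _ ≤ C66 μ s * (1 / (6 * C66 μ s + 1) + 2 * (1 / (6 * C66 μ s + 1))) := by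
        refine mul_le_mul_of_nonneg_left ?_ hCC.le
        rw [k1]
        linarith [k2.trans ht1]
    _ ≤ 1 / 2 := by
        have h1 : C66 μ s * (1 / (6 * C66 μ s + 1) + 2 * (1 / (6 * C66 μ s + 1))) = 3 * C66 μ s / (6 * C66 μ s + 1) := by ring
        rw [h1, div_le_div_iff₀ (by linarith) (by norm_num)]
        linarith

/-- The arithmetic of the side. -/
theorem side_num58 {c H w E ET x y U₁ Q₁ G D ρ κ : ℝ} (hc : 0 ≤ c) (hU₁ : 0 ≤ U₁) (hQ₁ : 0 ≤ Q₁) (hD : 0 ≤ D) (hE : 1 ≤ E) (hET : E ≤ ET)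
    (hw : 1 ≤ w) (hρ : ET ≤ ρ * E) (hH : c / 4 * E ≤ H * w) (hH0 : 0 ≤ H) (hκ : D * ρ - 14 ≤ κ - 3) (hκ0 : 0 ≤ κ - 3)
    (hR : U₁ + Q₁ + G + 2 + 4 * c ≤ c / 4 * D) (hxy : x + y ≤ (U₁ + Q₁) * E + G * ET) : x - H * ((κ - 2) * w - 1) + y ≤ -2 := by
  have g3 : H ≤ H * w := le_mul_of_one_le_right hH0 hw
  have g5 : c / 4 * E * (κ - 3) ≤ H * ((κ - 2) * w - 1) := by
    have h1 := mul_le_mul_of_nonneg_right hH hκ0
    have h2 : H * ((κ - 2) * w - 1) = H * w * (κ - 3) + (H * w - H) := by ring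
    rw [h2]
    linarith
  have g7 : D * ET - 14 * E ≤ (κ - 3) * E := by
    have h1 := mul_le_mul_of_nonneg_right hκ (show 0 ≤ E by linarith)
    have h2 := mul_le_mul_of_nonneg_left hρ hD
    linarith
  have g8 : c / 4 * (D * ET - 14 * E) ≤ c / 4 * E * (κ - 3) := by
    have := mul_le_mul_of_nonneg_left g7 (show 0 ≤ c / 4 by positivity)
    linarith
  have g9 : (U₁ + Q₁ + G + 2 + 4 * c) * ET ≤ c / 4 * D * ET := mul_le_mul_of_nonneg_right hR (by linarith)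
  have g10 : (U₁ + Q₁) * E ≤ (U₁ + Q₁) * ET := mul_le_mul_of_nonneg_left hET (by positivity)
  have g11 : c * E ≤ c * ET := mul_le_mul_of_nonneg_left hET hc
  have g12 : 0 ≤ c * E := mul_nonneg hc (by linarith)
  have g14 : c / 4 * (D * ET - 14 * E) = c / 4 * D * ET - 14 / 4 * (c * E) := by ring
  have g15 : (U₁ + Q₁ + G + 2 + 4 * c) * ET = (U₁ + Q₁) * ET + G * ET + 2 * ET + 4 * (c * ET) := by ring
  linarith

/-! ### The numbers -/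

/-- What is chosen at the scale `T`. -/
structure NumT58 (μ : Measure ℝ) (s c kc R G : ℝ) (j K1h M K2h : ℕ) (U₀ Q₀ U₁ Q₁ U Q A B Y p ε : ℝ) (n₂ T n m K₁ K₂ : ℕ) : Prop where
  sc : Sc58 μ s j n T
  m_ge : n₂ ≤ m
  m1 : 1 ≤ m
  n1 : 1 ≤ n
  n_eq : n = M * m
  m2 : 2 * m ≤ n
  jn : j * n ≤ T
  nj : T ≤ 2 * j * n
  k1h : K₁ ≤ K1h
  kc_le : kc * wd μ s T ≤ K₁ * wd μ s n
  le_kc : K₁ * wd μ s n ≤ kc * wd μ s T + wd μ s n
  K12 : K₁ + 3 ≤ K₂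
  k2h : K₂ ≤ K2h
  le_R : ((K₂ : ℝ) + 9) * wd μ s n ≤ R * wd μ s T
  heG : ∀ x y : ℝ, x + y ≤ (U₁ + Q₁) * EE μ s n + G * EE μ s T →
    3 * Real.exp (x - hc μ s c (2 * n) * (((K₂ : ℝ) - 2 - K₁) * wd μ s n - 1)) * Real.exp y ≤ 1
  hep : ep58 μ s Q U Y A n m ≤ 1 / 2
  prob : ∀ a : Pt, (law μ).real (TF58 μ s c K1h K2h K₁ K₂ U₀ Q₀ U₁ Q₁ U Q Y n m a)ᶜ ≤ ε
  walls : ∀ (a : ℕ) (x0 : ℤ), WallC58 μ (Sw μ s K₁ K₂ n m ((a : ℤ), x0)) a p fun (π π' : Pa (5 * n)) =>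
    DT58 μ s (Sw μ s K₁ K₂ n m ((a : ℤ), x0)) (Ex66 a π π') ((a : ℤ), x0) M m A B
  wallD : ∀ (a : ℕ) (x0 : ℤ) (π π' : Pa (5 * n)), ∀ η ∈ DT58 μ s (Sw μ s K₁ K₂ n m ((a : ℤ), x0)) (Ex66 a π π') ((a : ℤ), x0) M m A B,
    ∀ (i : ℤ) (r : ℕ) (x : ℤ), (a : ℤ) ≤ i → i + r ≤ a + (5 * n : ℕ) → m - 1 ≤ r →
      cS μ s (Sw μ s K₁ K₂ n m ((a : ℤ), x0) \ Ex66 a π π') η (i, x) r ≤ Real.exp (-(A * EE μ s n))

/-- **THE NUMBERS OF THE GATE.** -/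
theorem num58 (h : In μ s c C n₀) (j₀ : ℕ) {kc ε : ℝ} (hkc : 0 ≤ kc) (hε : 0 < ε) : ∃ (j K1h : ℕ) (U₀ Q₀ U₁ Q₁ : ℝ), j₀ ≤ j ∧ 1 ≤ j ∧
    0 ≤ U₀ ∧ 0 ≤ Q₀ ∧ 0 ≤ U₁ ∧ 0 ≤ Q₁ ∧
    ∀ G R : ℝ, 0 ≤ G → U₁ + Q₁ + G + 2 + 4 * c ≤ c / 4 * (R - kc) →
      ∃ (M K2h : ℕ) (U Q A B Y p : ℝ), 2 ≤ M ∧ 0 ≤ U ∧ 0 ≤ Q ∧ 0 ≤ A ∧ 0 ≤ B ∧ 0 ≤ Y ∧ 0 < p ∧
        ∀ n₂ : ℕ, ∃ n₁ : ℕ, ∀ T : ℕ, n₁ ≤ T → ∃ n m K₁ K₂ : ℕ, NumT58 μ s c kc R G j K1h M K2h U₀ Q₀ U₁ Q₁ U Q A B Y p ε n₂ T n m K₁ K₂ := by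
  have hC0 : 0 < C := lt_of_lt_of_le one_pos h.C1
  have hc0 := h.c0
  have hε8 : 0 < ε / 8 := by linarith
  obtain ⟨j, m0, hj0, hj1, hsc⟩ := sc58 h j₀
  obtain ⟨K1h, hK1h⟩ : ∃ K1h : ℕ, K1h = ⌈kc * (4 * j)⌉₊ := ⟨_, rfl⟩
  obtain ⟨U₀, hU₀, r1, hup0⟩ := up18_prob h (K := (K1h : ℝ) + 1) (ε := ε / 8) (by positivity) hε8
  obtain ⟨Q₀, hQ₀, r2, hco0⟩ := co18_prob h (K₁ := (K1h : ℝ)) (ε := ε / 8) (by positivity) hε8
  obtain ⟨Q₁, hQ₁, m1, hsd⟩ := sd18_prob h (ε := ε / 8) hε8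
  obtain ⟨U₁, hU₁, m2, hus⟩ := us18_prob h (ε := ε / 8) hε8
  refine ⟨j, K1h, U₀, Q₀, U₁, Q₁, hj0, hj1, hU₀, hQ₀, hU₁, hQ₁, fun G R hG hR => ?_⟩
  have hRk : 16 ≤ R - kc := by
    by_contra hcon
    have h1 : c / 4 * (R - kc) ≤ c / 4 * 16 := mul_le_mul_of_nonneg_left (not_le.1 hcon).le (by positivity)
    linarith
  have hR0 : 0 ≤ R := by linarith
  obtain ⟨K2h, hK2h⟩ : ∃ K2h : ℕ, K2h = ⌈R * (4 * j)⌉₊ := ⟨_, rfl⟩
  have hKh0 : (0 : ℝ) ≤ K2h := Nat.cast_nonneg _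
  obtain ⟨Q, hQ, m4, hlo⟩ := lo18N h K1h (K₂ := K2h) (ε := ε / 8) hKh0 hε8
  obtain ⟨U, hU, m5, hup⟩ := up18_prob h (K := (K2h : ℝ) + 3) (ε := ε / 8) (by positivity) hε8
  obtain ⟨A, Y, hA, hY, hep⟩ := ep58_half h hU hQ
  obtain ⟨M₀, m6, hjp⟩ := jp18u h (Kh := K2h) hKh0 Y (ε := ε / 8) hε8
  obtain ⟨M, hM⟩ : ∃ M : ℕ, M = M₀ + 2 := ⟨_, rfl⟩
  obtain ⟨B, hB, hwB⟩ := wallsT58 h (K₂ := K2h) hKh0 (M := M) (by omega)
  obtain ⟨p, hp, m7, hm7, hwl⟩ := hwB A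
  obtain ⟨r3, hx⟩ := x87_prob h (K := (K2h : ℝ) + 10) (q := 1) (ε := ε / 8) (by positivity) one_pos hε8
  refine ⟨M, K2h, U, Q, A, B, Y, p, by omega, hU, hQ, hA, hB, hY, hp, fun n₂ => ?_⟩
  obtain ⟨m8, hm8⟩ : ∃ m8 : ℕ, m8 = m0 + m1 + m2 + m4 + m5 + m6 + m7 + n₂ + r1 + r2 + r3 + 1 := ⟨_, rfl⟩
  refine ⟨j * M * m8, fun T hT => ?_⟩
  have hjM : 0 < j * M := Nat.mul_pos (by omega) (by omega)
  obtain ⟨m, hm⟩ : ∃ m : ℕ, m = T / (j * M) := ⟨_, rfl⟩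
  have hmm : m8 ≤ m := by
    rw [hm]
    exact (Nat.le_div_iff_mul_le hjM).2 (by rw [mul_comm]; exact hT)
  obtain ⟨n, hn⟩ : ∃ n : ℕ, n = M * m := ⟨_, rfl⟩
  have hm1 : 1 ≤ m := by omega
  have hmn : m ≤ n := by rw [hn]; exact Nat.le_mul_of_pos_left m (by omega)
  have h2mn : 2 * m ≤ n := by rw [hn]; exact Nat.mul_le_mul_right m (by omega)
  have hT1 : j * n ≤ T := by
    have := Nat.mul_div_le T (j * M)
    rw [← hm] at this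
    rw [hn, ← mul_assoc]
    exact this
  have hT2 : T ≤ 2 * j * n := by
    have h1 := Nat.lt_mul_div_succ T hjM
    rw [← hm] at h1
    have h2 : j * M * (m + 1) ≤ j * M * (2 * m) := Nat.mul_le_mul_left _ (by omega)
    have h3 : j * M * (2 * m) = 2 * j * n := by rw [hn]; ring
    omega
  have hn1 : 1 ≤ n := by omega
  have S := hsc n T (by omega) hT1 hT2
  have hwn : 0 < wd μ s n := by linarith [S.w1]
  have hE := EE_pos (μ := μ) (s := s) n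
  obtain ⟨ρ, hρ⟩ : ∃ ρ : ℝ, ρ = wd μ s T / wd μ s n := ⟨_, rfl⟩
  have hρw : ρ * wd μ s n = wd μ s T := by rw [hρ, div_mul_cancel₀ _ hwn.ne']
  have hρ1 : 1 ≤ ρ := by rw [hρ, one_le_div hwn]; exact S.wnT
  have hρ4 : ρ ≤ 4 * j := by rw [hρ, div_le_iff₀ hwn]; exact S.wTn
  have hρE : EE μ s T ≤ ρ * EE μ s n := by
    have h1 := S.sl
    rw [← hρw] at h1
    have h2 : EE μ s T * wd μ s n ≤ (ρ * EE μ s n) * wd μ s n := by linarith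
    exact le_of_mul_le_mul_right h2 hwn
  obtain ⟨K₁, hK₁⟩ : ∃ K₁ : ℕ, K₁ = ⌈kc * ρ⌉₊ := ⟨_, rfl⟩
  have a1 : kc * ρ ≤ K₁ := by rw [hK₁]; exact Nat.le_ceil _
  have a2 : (K₁ : ℝ) ≤ kc * ρ + 1 := by rw [hK₁]; exact (Nat.ceil_lt_add_one (by positivity)).le
  have a3 : K₁ ≤ K1h := by
    rw [hK₁, hK1h]
    exact Nat.ceil_mono (mul_le_mul_of_nonneg_left hρ4 hkc)
  obtain ⟨F, hF⟩ : ∃ F : ℕ, F = ⌊R * ρ⌋₊ := ⟨_, rfl⟩
  have f1 : (F : ℝ) ≤ R * ρ := by rw [hF]; exact Nat.floor_le (by positivity)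
  have f2 : R * ρ ≤ F + 1 := by rw [hF]; exact (Nat.lt_floor_add_one _).le
  have hRρ : 16 * ρ ≤ R * ρ - kc * ρ := by
    have := mul_le_mul_of_nonneg_right hRk (show 0 ≤ ρ by linarith)
    linarith
  have hkρ : 0 ≤ kc * ρ := by positivity
  have f3 : (15 : ℝ) ≤ F := by linarith
  have f3' : 15 ≤ F := by exact_mod_cast f3
  obtain ⟨K₂, hK₂⟩ : ∃ K₂ : ℕ, F = K₂ + 9 := ⟨F - 9, by omega⟩
  have f4 : (F : ℝ) = K₂ + 9 := by exact_mod_cast hK₂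
  have b1 : (K₂ : ℝ) + 9 ≤ R * ρ := by linarith
  have b2 : R * ρ ≤ K₂ + 10 := by linarith
  have b3 : (K₁ : ℝ) + 3 ≤ K₂ := by linarith
  have b4 : K₂ ≤ K2h := by
    have h1 : (K₂ : ℝ) ≤ R * (4 * j) := by
      have := mul_le_mul_of_nonneg_left hρ4 hR0
      linarith
    have h2 : (K₂ : ℝ) ≤ K2h := h1.trans (by rw [hK2h]; exact Nat.le_ceil _)
    exact_mod_cast h2
  have b4r : (K₂ : ℝ) ≤ K2h := by exact_mod_cast b4
  refine ⟨n, m, K₁, K₂, ⟨S, by omega, hm1, hn1, hn, h2mn, hT1, hT2, a3, ?_, ?_, by exact_mod_cast b3, b4, ?_, ?_, hep n m hn1 hmn, ?_, ?_, ?_⟩⟩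
  · rw [← hρw, ← mul_assoc]
    exact mul_le_mul_of_nonneg_right a1 hwn.le
  · rw [← hρw]
    have := mul_le_mul_of_nonneg_right a2 hwn.le
    linarith
  · rw [← hρw, ← mul_assoc]
    exact mul_le_mul_of_nonneg_right b1 hwn.le
  · -- the side
    intro x y hxy
    rw [mul_assoc, ← Real.exp_add]
    have g1 := hc_ge h hn1
    have g2 := hc_nonneg h (2 * n)
    have g6 : (R - kc) * ρ - 14 ≤ (K₂ : ℝ) - 3 - K₁ := by linarith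
    have g13 := side_num58 (w := wd μ s n) (E := EE μ s n) (ET := EE μ s T) (x := x) (y := y) (U₁ := U₁) (Q₁ := Q₁) (G := G) hc0.le hU₁ hQ₁
      (show 0 ≤ R - kc by linarith) S.E1 S.EnT S.w1 hρE g1 g2 (κ := (K₂ : ℝ) - K₁) (by linarith) (by linarith) hR hxy
    have h2 : Real.exp (-2) ≤ 1 / 3 := by
      rw [Real.exp_neg, inv_eq_one_div]
      refine one_div_le_one_div_of_le (by norm_num) ?_
      have := Real.add_one_le_exp (2 : ℝ)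
      linarith
    have h3 := Real.exp_le_exp.2 g13
    have h4 : x - hc μ s c (2 * n) * (((K₂ : ℝ) - K₁ - 2) * wd μ s n - 1) + y =
        x - hc μ s c (2 * n) * (((K₂ : ℝ) - 2 - K₁) * wd μ s n - 1) + y := by ring
    rw [h4] at h3
    linarith
  · -- the probability
    intro a
    have c1 : (law μ).real (Lo18 μ s K₁ K₂ n m a Q)ᶜ ≤ ε / 8 :=
      (measureReal_mono (Set.compl_subset_compl.2 (lo18_anti b4r hwn.le))).trans (hlo K₁ a3 n m (by omega) h2mn a)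
    have c5 := hjp M m (by omega) (by omega) K₂ b4r a
    rw [← hn] at c5
    exact TF58_prob c1 (hsd K₁ K₂ n m (by omega) h2mn a) (hup n (by omega) a) (hus K₂ n m (by omega) a) c5 (hx n (by omega) a (5 * n))
      (hco0 n (by omega) a) (hup0 n (by omega) a)
  · intro a x0
    exact (hwl n m (by omega) hmn (le_of_eq hn) a x0 _ (sw_sub_tb b4r hwn.le)).2 (5 * n) (fun π π' => Ex66 a π π') fun π π' =>
      sit_sub_Ex66 π π'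
  · intro a x0 π π' η hη i r x k1 k2 k3
    exact ((hwl n m (by omega) hmn (le_of_eq hn) a x0 _ (sw_sub_tb b4r hwn.le)).1 (Ex66 a π π')).2.2.2 η hη i r x k1 k2 k3

end

end Pool.Agent.W_7d29a1_C1.PW58
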