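import Pool.Agent.W_7d29a1_C1.RatB22
import Pool.Agent.W_7d29a1_C1.GateX87

/-!
Both halves (MP_7d29a1_pr), attractor route [C1], SEP: THE WEIGHTS OF ONE ROW OF THE STRIP, PROBABILITY (helper86)

`stb_prob86` : `P(StB)ᶜ ≤ ε` for RatB22's `StB` at every level `q > 0` (of `EE (T u)`), from helper87's `x87_prob`.
-/

set_option autoImplicit false

namespace Pool.Agent.W_7d29a1_C1.PL86

open Finset MeasureTheory
open Pool.Agent.W_7d29a1_F hiding Bw G
open Pool.Agent.W_7d29a1_h4g Pool.Agent.W_7d29a1_HS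
open Pool.Agent.W_7d29a1_H hiding ex gg
open Pool.Agent.W_7d29a1_C1.K91 (wt)
open Pool.Agent.W_7d29a1_C1.U16 (lat16)
open Pool.Agent.W_7d29a1_C1.H75
open Pool.Agent.W_7d29a1_C1.G37 (Gm)
open Pool.Agent.W_7d29a1_C1.RB22 (StB)
open Pool.Agent.W_7d29a1_C1.Gt66 (X87 x87_prob)
open Filter Topology

noncomputable section

variable {μ : Measure ℝ} {s c C : ℝ} {n₀ : ℕ}

/-- The site weight against the site variable. -/
theorem wt_abs {ω : Env} {k : ℕ} {y : ℤ} {U : ℝ} (hU : 0 ≤ U) (h : |ω ((k : ℤ), y)| ≤ U) :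
    Real.exp (-U) ≤ wt ω k y ∧ wt ω k y ≤ Real.exp U := by
  unfold K91.wt
  split_ifs
  · exact ⟨Real.exp_le_one_iff.2 (by linarith), Real.one_le_exp hU⟩
  · obtain ⟨h1, h2⟩ := abs_le.1 h
    exact ⟨Real.exp_le_exp.2 h1, Real.exp_le_exp.2 h2⟩

/-- The event of GateX87 is inside. -/
theorem x87_stb {G : Gm} {b K q : ℝ} {u n : ℕ} {κ : ℤ × ℤ} {e : ℕ} (hK : b * G.w u + 2 ≤ K * wd μ s n)
    (hq : 0 ≤ q * EE μ s n) :
    X87 μ s K n ((e : ℤ), ⌊G.ctr u κ + G.v * (e : ℝ)⌋) 0 q ⊆ StB G b (q * EE μ s n) u κ e := by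
  intro ω hω v hx
  have h1 := Int.floor_le (G.ctr u κ + G.v * (e : ℝ))
  have h2 := Int.lt_floor_add_one (G.ctr u κ + G.v * (e : ℝ))
  have h3 := hω v (by
    refine le_trans ?_ hK
    unfold lat16
    unfold Gm.lat at hx
    simp only at hx ⊢
    push_cast
    rw [abs_le] at hx ⊢
    constructor <;> linarith [hx.1, hx.2])
  simp only [Nat.cast_zero, add_zero] at h3
  exact wt_abs hq h3

/-- **THE WEIGHTS OF ONE ROW OF THE STRIP.** -/
theorem stb_prob86 [IsProbabilityMeasure μ] (h : In μ s c C n₀) {b q ε : ℝ} (hb : 0 ≤ b) (hq : 0 < q) (hε : 0 < ε) : ∃ n₁ : ℕ,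
    ∀ G : Gm, G.v = sl μ s → ∀ u : ℕ, G.w u = wd μ s (G.T u) → n₁ ≤ G.T u → ∀ (κ : ℤ × ℤ) (e : ℕ),
      (law μ).real (StB G b (q * EE μ s (G.T u)) u κ e)ᶜ ≤ ε := by
  obtain ⟨n1, H⟩ := x87_prob h (K := b + 2) (by linarith) hq hε
  obtain ⟨n2, hn2⟩ := eventually_atTop.1 ((wd_tendsto h).eventually_ge_atTop 1)
  refine ⟨max n1 n2, fun G _ u hw hT κ e => ?_⟩
  have hw1 := hn2 (G.T u) ((le_max_right _ _).trans hT)
  have hE := EE_pos (μ := μ) (s := s) (G.T u)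
  have hP : IsProbabilityMeasure (law μ) := by unfold law; infer_instance
  refine (measureReal_mono (Set.compl_subset_compl.2 (x87_stb (K := b + 2) ?_ (by positivity))) (measure_ne_top _ _)).trans
    (H (G.T u) ((le_max_left _ _).trans hT) _ 0)
  rw [hw]
  linarith

end

end Pool.Agent.W_7d29a1_C1.PL86
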