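import Pool.Agent.W_7d29a1_C1.SepE98
import Pool.Agent.W_7d29a1_C1.NumH58
import Pool.Agent.W_7d29a1_C1.KiP52
import Pool.Agent.W_7d29a1_C1.StB86

/-!
Both halves (MP_7d29a1_pr), attractor route [C1], SEP: THE TYPICAL SET OF THE WINDOW HAS A PROBABILITY CLOSE TO ONE (helper86; version 3, over
SepD98 v2, SepE98 v3)

One theorem per factor of `LvA98`, in the order of the constants: `gt98_prob`, `up98_prob`, `lo98_prob`, `kl98_prob` (the new content),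
`st98_prob`, `far98_prob`; `plv86` : the union.
-/

set_option autoImplicit false

namespace Pool.Agent.W_7d29a1_C1.PL86

open MeasureTheory ProbabilityTheory Finset Filter Topology
open Pool.Agent.W_7d29a1_F hiding Bw G
open Pool.Agent.W_7d29a1_h4g Pool.Agent.W_7d29a1_H Pool.Agent.W_7d29a1_HS
open Pool.Agent.W_7d29a1_C1
open Pool.Agent.W_7d29a1_C1.H60
open Pool.Agent.W_7d29a1_C1.H75
open Pool.Agent.W_7d29a1_C1.G37 (Gm)
open Pool.Agent.W_7d29a1_C1.U16 (lat16 Far16 far_prob)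
open Pool.Agent.W_7d29a1_C1.BP58
open Pool.Agent.W_7d29a1_C1.GL18
open Pool.Agent.W_7d29a1_C1.Gt66
open Pool.Agent.W_7d29a1_C1.PW58
open Pool.Agent.W_7d29a1_C1.RB22
open Pool.Agent.W_7d29a1_C1.D98

noncomputable section

variable {μ : Measure ℝ} {s c C : ℝ} {n₀ : ℕ} {Γ : Cx} {G : Gm} {P : Nm98} {R : Nr98} {u : ℕ} {κ : ℤ × ℤ}

/-! ### The union -/

theorem inter_le86 [IsProbabilityMeasure μ] {A B : Set Env} {a b : ℝ} (hA : (law μ).real Aᶜ ≤ a) (hB : (law μ).real Bᶜ ≤ b) :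
    (law μ).real (A ∩ B)ᶜ ≤ a + b := by
  have hP : IsProbabilityMeasure (law μ) := by unfold law; infer_instance
  rw [Set.compl_inter]
  exact (measureReal_union_le _ _).trans (add_le_add hA hB)

/-- **THE UNION OVER THE FACTORS**, generic families. -/
theorem plv98 [IsProbabilityMeasure μ] {KG KL XO : ℕ → ℤ × ℤ → Set Env} {eG eK eX eF eF' eT eL : ℝ} (hN : NoSw98 Γ G u κ)
    (hG : (law μ).real (Gt98 μ s c Γ G P u κ)ᶜ ≤ eG) (hK : (law μ).real (KG u κ)ᶜ ≤ eK) (hX : (law μ).real (XO u κ)ᶜ ≤ eX)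
    (hF : (law μ).real (Far98 μ s c G P u κ)ᶜ ≤ eF) (hF' : (law μ).real (FarL98 μ s c Γ G P u κ)ᶜ ≤ eF')
    (hT : (law μ).real (Ty98 μ s c Γ G P KL u κ)ᶜ ≤ eT) (hL : (law μ).real (Lk98 μ s Γ G P u κ) ≤ eL) :
    (law μ).real (Lv98 μ s c Γ G P KG KL XO u κ)ᶜ ≤ (eG + eK) + (eX + ((eF + eF') + (eT + eL))) := by
  have h0 : (law μ).real ({_ω : Env | NoSw98 Γ G u κ})ᶜ ≤ 0 := by
    have e : ({_ω : Env | NoSw98 Γ G u κ})ᶜ = ∅ := by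
      ext ω
      simp only [Set.mem_compl_iff, Set.mem_ofPred_eq, Set.mem_empty_iff_false, iff_false, not_not]
      exact hN
    rw [e, measureReal_empty]
  have hL' : (law μ).real ((Lk98 μ s Γ G P u κ)ᶜ)ᶜ ≤ eL := by rwa [compl_compl]
  have h1 := inter_le86 (inter_le86 h0 (inter_le86 hG hK)) (inter_le86 hX (inter_le86 (inter_le86 hF hF') (inter_le86 hT hL')))
  rw [zero_add] at h1
  exact h1

/-- **THE UNION OVER THE FACTORS** of the typical set of the window. -/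
theorem plv86 [IsProbabilityMeasure μ] {e p : ℝ} (hN : NoSw98 Γ G u κ) (hp : 0 < p) (hpL : P.pL = p / 2)
    (hG : (law μ).real (Gt98 μ s c Γ G P u κ)ᶜ ≤ e)
    (hLo : (law μ).real (LoE98 μ s Γ G P R u κ)ᶜ ≤ e ∧ (law μ).real (LoF98 μ s Γ G P R u κ)ᶜ ≤ e ∧
      (law μ).real (LoT98 μ s Γ G P R u κ)ᶜ ≤ e)
    (hUp : (law μ).real (UpS98 μ s c Γ G P R u κ)ᶜ ≤ e ∧ (law μ).real (UpF98 μ s c Γ G P R u κ)ᶜ ≤ e ∧
      (law μ).real (UpT98 μ s c Γ G P R u κ)ᶜ ≤ e)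
    (hSt : ∀ k : ℕ, (law μ).real (StB G (R.b u) (R.Uw u) u κ k)ᶜ ≤ e)
    (hF : (law μ).real (Far98 μ s c G P u κ)ᶜ ≤ e ∧ (law μ).real (FarL98 μ s c Γ G P u κ)ᶜ ≤ e)
    (hT : (law μ).real {ω | p ≤ cP μ (B98 Γ G P u κ) (LE98 μ s c Γ G P u κ) ω}ᶜ ≤ e)
    (hKL : (law μ).real (KL98 μ s Γ G P R u κ)ᶜ ≤ e * p / 2) (hL : (law μ).real (Lk98 μ s Γ G P u κ) ≤ e) :
    (law μ).real (LvA98 μ s c Γ G P R u κ)ᶜ ≤ 15 * e := by
  have h1 := ty98_prob meas_KL98 hp hpL hT hKL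
  have h2 : 2 * (e * p / 2) / p = e := by
    field_simp
  rw [h2] at h1
  have h3 := plv98 (KG := KG98 μ s c Γ G P R) (KL := KL98 μ s Γ G P R) (XO := XO98 μ s c Γ G P R) hN hG
    (inter_le86 (inter_le86 hLo.1 hUp.1) (inter_le86 hLo.2.2 hUp.2.2))
    (inter_le86 (inter_le86 hLo.2.1 hUp.2.1) (inter_le86 (hSt _) (inter_le86 (hSt _) (hSt _)))) hF.1 hF.2 h1 hL
  refine h3.trans (le_of_eq ?_)
  ring

/-! ### The gate block -/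

/-- **THE GATE BLOCK**, from the numbers of NumH58. -/
theorem gt98_prob {kc Rr Gg : ℝ} {j K1h M K2h : ℕ} {U₀ Q₀ U₁ Q₁ U Q A B Y p ε : ℝ} {n₂ T K₁ K₂ : ℕ}
    (H : NumT58 μ s c kc Rr Gg j K1h M K2h U₀ Q₀ U₁ Q₁ U Q A B Y p ε n₂ T (P.n u) (P.m u) K₁ K₂)
    (h1 : P.K1 u = K₁) (h2 : P.K2 u = K₂) (h3 : P.K1h = K1h) (h3' : P.K2h = K2h) (h4 : P.Q = Q) (h5 : P.Q1 = Q₁) (h6 : P.U = U)
    (h7 : P.U1 = U₁) (h8 : P.Y = Y) (h9 : P.Qc = Q₀) (h10 : P.Uc = U₀) : (law μ).real (Gt98 μ s c Γ G P u κ)ᶜ ≤ ε := by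
  have h := H.prob (pt98 G u κ (ag98 Γ G P u κ))
  unfold Gt98
  rw [h1, h2, h3, h3', h4, h5, h6, h7, h8, h9, h10]
  exact h

/-! ### The upper kernels -/

/-- The rows of a part of the window. -/
theorem len98 (hF : Fit98 G P u) : rl98 Γ G P u κ - (G.ra u κ - 1) ≤ G.T u ∧ G.re u κ - 1 - rl98 Γ G P u κ ≤ G.T u ∧
    G.re u κ - 1 - b98 Γ G P u κ ≤ G.T u := by
  have h0 := b98_T (Γ := Γ) (κ := κ) hF
  have h1 := rl_le_b98 (Γ := Γ) (G := G) (P := P) (u := u) (κ := κ)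
  have h2 : G.ra u κ - 1 ≤ rl98 Γ G P u κ := (le_ag98 (Γ := Γ) (P := P)).trans ag_le_rl98
  have h3 := blk_len86 (G := G) (u := u) (κ := κ)
  refine ⟨?_, ?_, ?_⟩ <;> omega
where
  blk_len86 {G : Gm} {u : ℕ} {κ : ℤ × ℤ} : G.re u κ ≤ G.ra u κ - 1 + G.T u + 1 := Ki52.blk_len le_rfl le_rfl

/-- **THE UPPER KERNELS** of the three blocks. -/
theorem up98_prob [IsProbabilityMeasure μ] (h : In μ s c C n₀) {ε σ : ℝ} (hε : 0 < ε) (hσ : 0 < σ) : ∃ V₁ : ℝ, 0 < V₁ ∧ ∃ n₁ : ℕ,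
    1 ≤ n₁ ∧ ∀ (Γ : Cx) (G : Gm) (P : Nm98) (R : Nr98) (u : ℕ) (κ : ℤ × ℤ), n₁ ≤ G.T u → Fit98 G P u →
      V₁ * EE μ s (G.T u) ≤ R.Vs u → σ * (EE μ s (G.T u) / wd μ s (G.T u)) ≤ R.sV u →
      (law μ).real (UpS98 μ s c Γ G P R u κ)ᶜ ≤ ε ∧ (law μ).real (UpF98 μ s c Γ G P R u κ)ᶜ ≤ ε ∧
        (law μ).real (UpT98 μ s c Γ G P R u κ)ᶜ ≤ ε := by
  have hP : IsProbabilityMeasure (law μ) := by unfold law; infer_instance
  obtain ⟨V₁, hV₁, n₁, hn₁, H⟩ := Up52.upS_prob h hε hσ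
  refine ⟨V₁, hV₁, n₁, hn₁, fun Γ G P R u κ hT hF hV hs => ?_⟩
  obtain ⟨l1, l2, l3⟩ := len98 (Γ := Γ) (κ := κ) hF
  have key : ∀ (o : Pt) (N : ℕ), N ≤ G.T u → (law μ).real (Up52.UpS μ s (hc μ s c (G.T u)) o N (R.Vs u) (R.sV u))ᶜ ≤ ε :=
    fun o N hN => (measureReal_mono (Set.compl_subset_compl.2 (Up52.upS_mono hV hs le_rfl))).trans (H _ hT N hN o)
  exact ⟨key _ _ l1, key _ _ l2, key _ _ l3⟩

/-! ### The lower kernels -/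

/-- The wall sites: rows and columns. -/
theorem sg98_spec {p : Pt} (hp : p ∈ Sg98 μ s Γ G P u κ) : ((G.ra u κ - 1 : ℕ) : ℤ) + (P.n u : ℕ) < p.1 ∧
    |lat16 μ s (bp18 G u κ (G.ra u κ - 1)) p| ≤ P.K2 u * wd μ s (P.n u) := by
  refine ⟨?_, hp.2.1⟩
  have h1 : (pt98 G u κ (ag98 Γ G P u κ)).1 = ((G.ra u κ - 1 : ℕ) : ℤ) := rfl
  rcases hp.1 with h | h
  · rw [h1] at h
    exact h.1
  · rw [h1] at h
    have h2 : (0 : ℤ) ≤ (P.n u : ℤ) := Int.natCast_nonneg _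
    have h3 := h.1
    omega

/-- **THE LOWER KERNELS** of the three blocks. -/
theorem lo98_prob [IsProbabilityMeasure μ] (h : In μ s c C n₀) {ε : ℝ} (hε : 0 < ε) : ∃ κ' : ℝ, 0 ≤ κ' ∧
    ∀ (k θ : ℝ), 0 ≤ k → 0 < θ → θ ≤ 1 / 16 → ∃ R₀ Q₀ : ℝ, 0 ≤ R₀ ∧ 0 ≤ Q₀ ∧ ∃ n₁ : ℕ, ∀ (Γ : Cx) (G : Gm) (P : Nm98) (R : Nr98) (u : ℕ)
      (κ : ℤ × ℤ), G.w u = wd μ s (G.T u) → n₁ ≤ G.T u → Fit98 G P u → 1 ≤ P.n u → G.kw ≤ k → R₀ ≤ R.Re → Q₀ ≤ R.Qe →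
        θ * G.T u ≤ P.n u → P.K2 u * wd μ s (P.n u) ≤ G.kw * G.w u - κ' * G.w u →
      (law μ).real (LoE98 μ s Γ G P R u κ)ᶜ ≤ ε ∧ (law μ).real (LoF98 μ s Γ G P R u κ)ᶜ ≤ ε ∧
        (law μ).real (LoT98 μ s Γ G P R u κ)ᶜ ≤ ε := by
  have hP : IsProbabilityMeasure (law μ) := by unfold law; infer_instance
  obtain ⟨κ', hκ', H⟩ := lw18_prob h hε
  refine ⟨κ', hκ', fun k θ hk hθ hθ1 => ?_⟩
  obtain ⟨R₀, Q₀, hR, hQ, n₁, H⟩ := H k θ hk hθ (by linarith)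
  refine ⟨R₀, Q₀, hR, hQ, max n₁ 16, fun Γ G P R u κ hw hT hF hn hkw hRe hQe hθn hK => ?_⟩
  have h0 := b98_T (Γ := Γ) (κ := κ) hF
  have h1 := rl_le_b98 (Γ := Γ) (G := G) (P := P) (u := u) (κ := κ)
  have h2 : rl98 Γ G P u κ = G.ra u κ - 1 + 5 * P.n u := rfl
  have h3 : G.re u κ ≤ G.ra u κ - 1 + G.T u + 1 := Ki52.blk_len le_rfl le_rfl
  have h4 : rf98 Γ G P u κ = rl98 Γ G P u κ + 1 := rfl
  have h5 : θ * G.T u ≤ (G.T u / 8 : ℕ) := by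
    have h6 : G.T u ≤ 16 * (G.T u / 8) := by omega
    have h7 : (G.T u : ℝ) ≤ 16 * ((G.T u / 8 : ℕ) : ℝ) := by exact_mod_cast h6
    have h8 : θ * G.T u ≤ 1 / 16 * G.T u := mul_le_mul_of_nonneg_right hθ1 (Nat.cast_nonneg _)
    linarith
  have mono : ∀ (a e : ℕ) (A : Set Pt), (law μ).real (Lw18 μ s G u κ a e R.Re A R.Qe)ᶜ ≤ (law μ).real (Lw18 μ s G u κ a e R.Re A Q₀)ᶜ :=
    fun a e A => measureReal_mono (Set.compl_subset_compl.2 (lw18_mono hQe))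
  refine ⟨?_, ?_, ?_⟩
  · refine (mono _ _ _).trans (H G u κ (G.ra u κ - 1) (rf98 Γ G P u κ) (P.n u) R.Re _ hw ((le_max_left _ _).trans hT) hkw hRe
      (by omega) (by omega) hθn fun p hp => ?_)
    obtain ⟨k1, k2⟩ := sg98_spec hp
    exact ⟨k1, k2.trans hK⟩
  · exact (mono _ _ _).trans (H G u κ (rl98 Γ G P u κ) (G.re u κ) (G.T u / 8) R.Re ∅ hw ((le_max_left _ _).trans hT) hkw hRe
      (by omega) (by omega) h5 fun p hp => hp.elim)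
  · exact (mono _ _ _).trans (H G u κ (b98 Γ G P u κ) (G.re u κ) (G.T u / 8) R.Re ∅ hw ((le_max_left _ _).trans hT) hkw hRe
      (by omega) (by omega) h5 fun p hp => hp.elim)

/-! ### The kernels of the new content -/

/-- **THE KERNELS OF THE LANE BLOCK AND BEYOND**, asked of the new content, at every strip `b ≥ b₁`. -/
theorem kl98_prob [IsProbabilityMeasure μ] (h : In μ s c C n₀) {ε kw : ℝ} (hε : 0 < ε) (hkw : 0 ≤ kw) : ∃ V' b₁ U' : ℝ, 0 < V' ∧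
    kw + 1 ≤ b₁ ∧ 0 < U' ∧ ∃ n₁ : ℕ, ∀ (Γ : Cx) (G : Gm) (P : Nm98) (R : Nr98) (u : ℕ) (κ : ℤ × ℤ), Γ.s = s → G.v = sl μ s → 0 ≤ G.v →
      G.v ≤ 1 → G.w u = wd μ s (G.T u) → G.kw = kw → 0 ≤ G.rcc u κ → G.re u κ ≤ Γ.N →
      |Γ.h| * wd μ s (G.T u) ≤ c / 8 * EE μ s (G.T u) → n₁ ≤ G.T u → Fit98 G P u → b₁ ≤ R.b u →
      Real.exp (V' * EE μ s (G.T u)) ≤ R.A u → Real.exp ((V' - c / 2 * R.b u) * EE μ s (G.T u)) ≤ R.X u →
      U' * EE μ s (G.T u) ≤ R.U1 u → (law μ).real (KL98 μ s Γ G P R u κ)ᶜ ≤ ε := by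
  have hc0 := h.c0
  have hP : IsProbabilityMeasure (law μ) := by unfold law; infer_instance
  obtain ⟨V', hV', n₁, hn₁, Hk⟩ := Ki52.kib_prob h (half_pos hε) hkw
  obtain ⟨κ', hκ', Hl⟩ := lw18_prob h (half_pos hε)
  obtain ⟨R₀, Q₀, hR, hQ, n₂, Hl⟩ := Hl kw (1 / 16) hkw (by norm_num) (by norm_num)
  obtain ⟨n₃, hn₃⟩ := eventually_atTop.1 ((wd_tendsto h).eventually_ge_atTop 1)
  obtain ⟨b, k, hb, hk, hEE⟩ := EE_pow h
  obtain ⟨n₄, hn₄⟩ : ∃ n₄ : ℕ, ∀ n : ℕ, n₄ ≤ n → |lam μ s| ≤ EE μ s n := by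
    have h2 : Tendsto (fun n : ℕ => k * (n : ℝ) ^ b) atTop atTop :=
      Tendsto.const_mul_atTop hk ((tendsto_rpow_atTop hb).comp tendsto_natCast_atTop_atTop)
    exact eventually_atTop.1 (((h2.eventually_ge_atTop |lam μ s|).and (eventually_ge_atTop 1)).mono fun n h3 => h3.1.trans (hEE n h3.2))
  refine ⟨V', max (kw + 1) (R₀ + 1), Q₀ + c / 8 * (R₀ + kw + 4) + 1, hV', le_max_left _ _, by positivity,
    max (max n₁ n₂) (max (max n₃ n₄) 16), fun Γ G P R u κ hs hv hv0 hv1 hw hkw' h0 hN hh hT hF hb hA hX hU => ?_⟩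
  have hw1 : 1 ≤ wd μ s (G.T u) := hn₃ _ (by omega)
  have hE0 := EE_pos (μ := μ) (s := s) (G.T u)
  have hlam := hn₄ (G.T u) (by omega)
  have hb1 : kw + 1 ≤ R.b u := (le_max_left _ _).trans hb
  have hb2 : R₀ + 1 ≤ R.b u := (le_max_right _ _).trans hb
  have g := Ki52.gau_gam (μ := μ) (s := s) Γ
  have a0 := b98_T (Γ := Γ) (κ := κ) hF
  have a1 := rl_le_b98 (Γ := Γ) (G := G) (P := P) (u := u) (κ := κ)
  have a2 : rl98 Γ G P u κ = G.ra u κ - 1 + 5 * P.n u := rfl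
  have a3 : G.re u κ ≤ G.ra u κ - 1 + G.T u + 1 := Ki52.blk_len le_rfl le_rfl
  have k1 : (law μ).real (KiB Γ G (Ou37.gam μ s Γ) (R.b u) (R.A u) (R.X u) u κ (rl98 Γ G P u κ) (G.re u κ))ᶜ ≤ ε / 2 := by
    refine (measureReal_mono (Set.compl_subset_compl.2 (Ki52.KiB_mono (fun k y => gam_pos98 k y) hA hX))).trans ?_
    exact Hk (b := R.b u) (κ := κ) hs hv hw hkw' hh (by omega) hb1 g hN (by omega)
  have k2 : (law μ).real (LoB Γ G (Ou37.gam μ s Γ) (R.b u) (R.U1 u) u κ (rl98 Γ G P u κ) (G.re u κ))ᶜ ≤ ε / 2 := by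
    have hsub : Lw18 μ s G u κ (rl98 Γ G P u κ) (G.re u κ) R₀ ∅ Q₀ ⊆
        LoB Γ G (Ou37.gam μ s Γ) (R.b u) (R.U1 u) u κ (rl98 Γ G P u κ) (G.re u κ) := by
      refine lw18_lob hs hv g hv0 hv1 h0 (by omega) le_rfl hN hR ?_ ?_
      · rw [hw]
        nlinarith
      · have e1 : |Γ.h| * (R₀ * G.w u + G.kw * G.w u + 3) = (R₀ + kw) * (|Γ.h| * wd μ s (G.T u)) + 3 * |Γ.h| := by
          rw [hw, hkw']
          ring
        have e2 : |Γ.h| ≤ c / 8 * EE μ s (G.T u) := le_trans (le_mul_of_one_le_right (abs_nonneg _) hw1) hh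
        have e3 : |Γ.h * sl μ s| ≤ c / 8 * EE μ s (G.T u) := by
          rw [abs_mul, ← hv, abs_of_nonneg hv0]
          exact (mul_le_of_le_one_right (abs_nonneg _) hv1).trans e2
        have e4 : (R₀ + kw) * (|Γ.h| * wd μ s (G.T u)) ≤ (R₀ + kw) * (c / 8 * EE μ s (G.T u)) :=
          mul_le_mul_of_nonneg_left hh (by positivity)
        rw [e1]
        refine le_trans ?_ hU
        have e5 : (Q₀ + c / 8 * (R₀ + kw + 4) + 1) * EE μ s (G.T u) = Q₀ * EE μ s (G.T u) + (R₀ + kw) * (c / 8 * EE μ s (G.T u)) +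
            4 * (c / 8 * EE μ s (G.T u)) + EE μ s (G.T u) := by ring
        rw [e5]
        linarith
    refine (measureReal_mono (Set.compl_subset_compl.2 hsub)).trans ?_
    have h5 : (1 / 16 : ℝ) * G.T u ≤ (G.T u / 8 : ℕ) := by
      have h6 : G.T u ≤ 16 * (G.T u / 8) := by omega
      have h7 : (G.T u : ℝ) ≤ 16 * ((G.T u / 8 : ℕ) : ℝ) := by exact_mod_cast h6
      linarith
    exact Hl G u κ (rl98 Γ G P u κ) (G.re u κ) (G.T u / 8) R₀ ∅ hw (by omega) hkw'.le le_rfl (by omega) (by omega) h5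
      fun p hp => hp.elim
  have k3 := inter_le86 k1 k2
  rw [add_halves] at k3
  exact k3

/-! ### The weights of a row -/

/-- **THE WEIGHTS OF A ROW**. -/
theorem st98_prob [IsProbabilityMeasure μ] (h : In μ s c C n₀) {b q ε : ℝ} (hb : 0 ≤ b) (hq : 0 < q) (hε : 0 < ε) : ∃ n₁ : ℕ,
    ∀ (G : Gm) (R : Nr98) (u : ℕ), G.v = sl μ s → G.w u = wd μ s (G.T u) → n₁ ≤ G.T u → R.b u = b → R.Uw u = q * EE μ s (G.T u) →
      ∀ (κ : ℤ × ℤ) (k : ℕ), (law μ).real (StB G (R.b u) (R.Uw u) u κ k)ᶜ ≤ ε := by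
  obtain ⟨n₁, H⟩ := stb_prob86 h hb hq hε
  refine ⟨n₁, fun G R u hv hw hT hb' hU κ k => ?_⟩
  rw [hb', hU]
  exact H G hv u hw hT κ k

/-! ### The levels of the rows -/

/-- **THE LEVELS OF THE ROWS OF THE WINDOW.** -/
theorem far98_prob [IsProbabilityMeasure μ] (h : In μ s c C n₀) {K θ : ℝ} (hK : 0 < K) (hθ : 0 < θ) (hθ1 : θ ≤ 1) : ∃ PF : ℕ,
    ∀ ε : ℝ, 0 < ε → ∃ q₀ : ℝ, 0 ≤ q₀ ∧ ∀ q : ℝ, q₀ ≤ q → ∃ n₁ : ℕ, ∀ (Γ : Cx) (G : Gm) (P : Nm98) (u : ℕ) (κ : ℤ × ℤ), P.KF = K → P.th = θ →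
      P.PF = PF → P.qF = q → n₁ ≤ G.T u → Fit98 G P u →
        (law μ).real (Far98 μ s c G P u κ)ᶜ ≤ ε ∧ (law μ).real (FarL98 μ s c Γ G P u κ)ᶜ ≤ ε := by
  obtain ⟨PF, A, a, g, hA, ha, hg, -, n₁, -, H⟩ := far_prob h hK hθ hθ1
  refine ⟨PF, fun ε hε => ?_⟩
  obtain ⟨q₀, hq₀⟩ : ∃ q₀ : ℝ, ∀ q : ℝ, q₀ ≤ q → A * Real.exp (-(a * q ^ g)) ≤ ε := by
    have h1 := (tendsto_rpow_atTop hg).const_mul_atTop ha
    have h2 := (Real.tendsto_exp_neg_atTop_nhds_zero.comp h1).const_mul A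
    rw [mul_zero] at h2
    exact eventually_atTop.1 (h2.eventually_le_const hε)
  refine ⟨max q₀ 0, le_max_right _ _, fun q hq => ⟨n₁, fun Γ G P u κ e1 e2 e3 e4 hT hF => ?_⟩⟩
  have hq1 := hq₀ q ((le_max_left _ _).trans hq)
  have hq0 : 0 ≤ q := (le_max_right _ _).trans hq
  have h1 := G.re_sub_ra u κ
  have h2 := G.ra_le_re u κ
  have h3 := ra_pos98 (G := G) (u := u) (κ := κ)
  have h4 := le_ag98 (Γ := Γ) (G := G) (P := P) (u := u) (κ := κ)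
  have h5 := ag_le_rl98 (Γ := Γ) (G := G) (P := P) (u := u) (κ := κ)
  have h6 : 1 ≤ G.T (u - 1) := by
    have := G.T_pos' (u - 1)
    omega
  have h7 : 2 ≤ G.T u - G.T (u - 1) := by
    have h8 : 2 ≤ ln98 P u := by unfold ln98; omega
    unfold Fit98 at hF
    omega
  unfold Far98 FarL98
  rw [e1, e2, e3, e4]
  exact ⟨(H (G.T u) hT _ (by omega) _ q hq0).trans hq1, (H (G.T u) hT _ (by omega) _ q hq0).trans hq1⟩

end

end Pool.Agent.W_7d29a1_C1.PL86
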