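import Pool.Agent.W_7d29a1_C1.SepG2
import Pool.Agent.W_7d29a1_C1.LnS69
import Pool.Agent.W_7d29a1_C1.PLv86

/-!
MP_7d29a1_pr, attractor route [C1], SEP: **THE SPECIFICATIONS `S0` OF THE OUTPUT STAGES OF THE RECORD `Cst`** and what they give beyond the
thresholds. (helper2)

`S0 μ s c Cc ε` : `ε` = the probability budget of one factor of `Lv`, `Cc` = the constant `C` of `In μ s c C n₀`.
`PF2` = the conclusion of `far98_prob`, `J2` and `M2` = the two steps of `gc15`, `L2` = the conclusion of `lane15`, the lanes: LnS69.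
-/

set_option autoImplicit false

namespace Pool.Agent.W_7d29a1_C1.Cs2

open MeasureTheory Filter
open Pool.Agent.W_7d29a1_F hiding Bw G
open Pool.Agent.W_7d29a1_h4g Pool.Agent.W_7d29a1_H Pool.Agent.W_7d29a1_HS
open Pool.Agent.W_7d29a1_C1.H60
open Pool.Agent.W_7d29a1_C1.G37 (Gm)
open Pool.Agent.W_7d29a1_C1.D98
open Pool.Agent.W_7d29a1_C1.Nm15
open Pool.Agent.W_7d29a1_C1.Ln69
open Pool.Agent.W_7d29a1_C1.PL86 (far98_prob)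
open Pool.Agent.W_7d29a1_C1.PW58 (Sc58)
open Pool.Agent.W_7d29a1_C1.Luc30 (Blk42)
open Pool.Agent.W_7d29a1_C1.BP58

noncomputable section

/-- The levels of the rows (`far98_prob` at `KF = 4`, `th = 1 / 8`). -/
def PF2 (μ : Measure ℝ) (s c : ℝ) (PF : ℕ) : Prop :=
  ∀ ε : ℝ, 0 < ε → ∃ q₀ : ℝ, 0 ≤ q₀ ∧ ∀ q : ℝ, q₀ ≤ q → ∃ n₁ : ℕ, ∀ (Γ : Cx) (G : Gm) (P : Nm98) (u : ℕ) (κ : ℤ × ℤ), P.KF = 4 →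
    P.th = 1 / 8 → P.PF = PF → P.qF = q → n₁ ≤ G.T u → Fit98 G P u →
      (law μ).real (Far98 μ s c G P u κ)ᶜ ≤ ε ∧ (law μ).real (FarL98 μ s c Γ G P u κ)ᶜ ≤ ε

/-- The second outputs of the gate: the numbers exist for every `n₂`. -/
structure M2 (μ : Measure ℝ) (s c : ℝ) (g : Gc15) : Prop where
  M2 : 2 ≤ g.M
  U : 0 ≤ g.U
  Q : 0 ≤ g.Q
  A : 0 ≤ g.A
  B : 0 ≤ g.B
  Y : 0 ≤ g.Y
  p : 0 < g.p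
  ok : ∀ n₂ : ℕ, ∃ n₁ : ℕ, Gc15.Ok μ s c { g with n2 := n₂ } n₁

/-- The first outputs of the gate (`kc` fixed): the second outputs exist for all `G`, `R`. -/
structure J2 (μ : Measure ℝ) (s c ε kc : ℝ) (j0 j K1h : ℕ) (U₀ Q₀ U₁ Q₁ : ℝ) : Prop where
  j0 : j0 ≤ j
  j1 : 1 ≤ j
  U0 : 0 ≤ U₀
  Q0 : 0 ≤ Q₀
  U1 : 0 ≤ U₁
  Q1 : 0 ≤ Q₁
  ex : ∀ G R : ℝ, 0 ≤ G → U₁ + Q₁ + G + 2 + 4 * c ≤ c / 4 * (R - kc) → ∃ (M K2h : ℕ) (U Q A B Y p : ℝ),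
    M2 μ s c ⟨kc, R, G, j, K1h, M, K2h, U₀, Q₀, U₁, Q₁, U, Q, A, B, Y, p, ε, 0⟩

/-- The scale of the lane. -/
def L2 (μ : Measure ℝ) (s : ℝ) (jl : ℕ) : Prop :=
  1 ≤ jl ∧ ∀ N : ℕ, 1 ≤ N → ∀ n₁ : ℕ, ∃ T₁ : ℕ, ∀ l : Lc15, l.N = N → l.jl = jl → ∀ T : ℕ, T₁ ≤ T →
    n₁ ≤ nr15 l T ∧ 1 ≤ nr15 l T ∧ Sc58 μ s jl (N * nr15 l T) T

/-- **THE SPECIFICATIONS OF THE OUTPUTS.** -/
def S0 (μ : Measure ℝ) (s c Cc ε : ℝ) : Is → Cst → Prop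
  | .PF, C => PF2 μ s c C.PF
  | .j, C => J2 μ s c ε C.kc C.j0 C.j C.K1h C.Uc C.Qc C.U1g C.Q1g
  | .M, C => M2 μ s c (C.g ε)
  | .jl, C => C.jl0 ≤ C.jl ∧ L2 μ s C.jl
  | .dM, C => PG1 μ s c ε 2 C.Kl C.dM C.cM C.qM C.UM
  | .U0, C => PG2 μ s c ε 2 C.Kl C.dM C.cM C.qM C.UM C.dl C.U0
  | .Kp, C => BK1 μ s c Cc 2 C.Kl C.qt C.dl C.U0 C.UM C.K0 C.Kp C.KM
  | .pB, C => PG3 μ s c ε 2 C.Kl C.dM C.cM C.qM C.UM C.dl C.U0 C.LB C.Kp C.pB C.UB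
  | .pA, C => PG4 μ s c ε 2 C.Kl C.dM C.cM C.qM C.UM C.dl C.U0 C.LB C.Kp C.UB C.LA C.Kp C.pA C.UA
  | .YA, C => BK2 μ s c Cc 2 C.Kl C.qt C.dl C.U0 C.UM C.Kp C.KM C.UA C.UB C.YA C.YB C.Z C.N0
  | .pL, C => PGL μ s c ε 2 C.Kl C.dM C.cM C.qM C.UM C.dl C.U0 C.LB C.Kp C.UB C.LA C.UA C.YB C.YA C.Z C.N C.pL

/-! ### Existence, one theorem per stage (the lanes: LnS69) -/

section Ex

variable {μ : Measure ℝ} {s c C : ℝ} {n₀ : ℕ} [IsProbabilityMeasure μ]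

theorem pf2 (h : In μ s c C n₀) : ∃ PF : ℕ, PF2 μ s c PF := far98_prob h (by norm_num) (by norm_num) (by norm_num)

theorem j2 (h : In μ s c C n₀) (j₀ : ℕ) {kc ε : ℝ} (hkc : 0 ≤ kc) (hε : 0 < ε) :
    ∃ (j K1h : ℕ) (U₀ Q₀ U₁ Q₁ : ℝ), J2 μ s c ε kc j₀ j K1h U₀ Q₀ U₁ Q₁ := by
  obtain ⟨j, K1h, U₀, Q₀, U₁, Q₁, a1, a2, a3, a4, a5, a6, H⟩ := gc15 h j₀ hkc hε
  refine ⟨j, K1h, U₀, Q₀, U₁, Q₁, a1, a2, a3, a4, a5, a6, fun G R hG hR => ?_⟩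
  obtain ⟨M, K2h, U, Q, A, B, Y, p, b1, b2, b3, b4, b5, b6, b7, H⟩ := H G R hG hR
  exact ⟨M, K2h, U, Q, A, B, Y, p, b1, b2, b3, b4, b5, b6, b7, H⟩

theorem l2 (h : In μ s c C n₀) (j₀ : ℕ) : ∃ jl : ℕ, j₀ ≤ jl ∧ L2 μ s jl := by
  obtain ⟨jl, h1, h2, H⟩ := lane15 h j₀
  exact ⟨jl, h1, h2, H⟩

end Ex

/-! ### What they give -/

variable {μ : Measure ℝ} {s c Cc ε : ℝ}

/-- **The signs and the orders of the outputs.** -/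
structure Sg2 (C : Cst) : Prop where
  j0 : C.j0 ≤ C.j
  j1 : 1 ≤ C.j
  Uc : 0 ≤ C.Uc
  Qc : 0 ≤ C.Qc
  U1g : 0 ≤ C.U1g
  Q1g : 0 ≤ C.Q1g
  M2 : 2 ≤ C.M
  Ug : 0 ≤ C.Ug
  Qg : 0 ≤ C.Qg
  Ag : 0 ≤ C.Ag
  Bg : 0 ≤ C.Bg
  Yg : 0 ≤ C.Yg
  pG : 0 < C.pG
  jl0 : C.jl0 ≤ C.jl
  jl1 : 1 ≤ C.jl
  dM : 0 < C.dM
  cM : 0 < C.cM
  qM : 0 ≤ C.qM
  UM : 0 < C.UM
  U0 : 0 < C.U0
  K0p : C.K0 ≤ C.Kp
  Klp : C.Kl + 3 ≤ C.Kp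
  K0M : C.K0 ≤ C.KM
  KlM : C.Kl + 3 ≤ C.KM
  pB : 0 < C.pB
  UB : 0 < C.UB
  pA : 0 < C.pA
  UA : 0 < C.UA
  YA : 0 < C.YA
  YB : 0 < C.YB
  Z : 0 < C.Z
  N0 : 1 ≤ C.N0
  N0N : C.N0 ≤ C.N
  pL : 0 < C.pL

theorem sg2 : EvC (S0 μ s c Cc ε) Sg2 := by
  filter_upwards [FC.spec (S0 μ s c Cc ε), FC.N_ge (S0 μ s c Cc ε) fun p => p.N0] with C h hN
  have hj : J2 μ s c ε C.kc C.j0 C.j C.K1h C.Uc C.Qc C.U1g C.Q1g := h .j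
  have hM : M2 μ s c ((C.cutS .M).g ε) := h .M
  have hl : C.jl0 ≤ C.jl ∧ L2 μ s C.jl := h .jl
  have hd : PG1 μ s c ε 2 C.Kl C.dM C.cM C.qM C.UM := h .dM
  have hU : PG2 μ s c ε 2 C.Kl C.dM C.cM C.qM C.UM C.dl C.U0 := h .U0
  have hK : BK1 μ s c Cc 2 C.Kl C.qt C.dl C.U0 C.UM C.K0 C.Kp C.KM := h .Kp
  have hB : PG3 μ s c ε 2 C.Kl C.dM C.cM C.qM C.UM C.dl C.U0 C.LB C.Kp C.pB C.UB := h .pB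
  have hA : PG4 μ s c ε 2 C.Kl C.dM C.cM C.qM C.UM C.dl C.U0 C.LB C.Kp C.UB C.LA C.Kp C.pA C.UA := h .pA
  have hY : BK2 μ s c Cc 2 C.Kl C.qt C.dl C.U0 C.UM C.Kp C.KM C.UA C.UB C.YA C.YB C.Z C.N0 := h .YA
  have hL : PGL μ s c ε 2 C.Kl C.dM C.cM C.qM C.UM C.dl C.U0 C.LB C.Kp C.UB C.LA C.UA C.YB C.YA C.Z C.N C.pL := h .pL
  have hN' : C.N0 ≤ C.N := hN
  exact
    { j0 := hj.j0
      j1 := hj.j1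
      Uc := hj.U0
      Qc := hj.Q0
      U1g := hj.U1
      Q1g := hj.Q1
      M2 := hM.M2
      Ug := hM.U
      Qg := hM.Q
      Ag := hM.A
      Bg := hM.B
      Yg := hM.Y
      pG := hM.p
      jl0 := hl.1
      jl1 := hl.2.1
      dM := hd.1
      cM := hd.2.1
      qM := hd.2.2.1
      UM := hd.2.2.2.1
      U0 := hU.1
      K0p := hK.1
      Klp := hK.2.1
      K0M := hK.2.2.1
      KlM := hK.2.2.2.1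
      pB := hB.1
      UB := hB.2.1
      pA := hA.1
      UA := hA.2.1
      YA := hY.1
      YB := hY.2.1
      Z := hY.2.2.1
      N0 := hY.2.2.2.1
      N0N := hN'
      pL := hL.1 }

/-- **THE NUMBERS OF THE GATE** exist at all the scales beyond a threshold. -/
theorem ok2 : EvC (S0 μ s c Cc ε) fun C => ∃ n₁ : ℕ, (C.g ε).Ok μ s c n₁ := by
  filter_upwards [FC.spec (S0 μ s c Cc ε)] with C h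
  exact (h .M : M2 μ s c ((C.cutS .M).g ε)).ok C.n2

/-- **THE SCALE OF THE LANE.** -/
theorem lane2 : EvC (S0 μ s c Cc ε) fun C => ∀ n₁ : ℕ, ∃ T₁ : ℕ, ∀ T : ℕ, T₁ ≤ T →
    n₁ ≤ nr15 C.l T ∧ 1 ≤ nr15 C.l T ∧ Sc58 μ s C.l.jl (C.l.N * nr15 C.l T) T := by
  filter_upwards [FC.spec (S0 μ s c Cc ε), FC.N_ge (S0 μ s c Cc ε) fun _ => 1] with C h hN n₁
  obtain ⟨T₁, H⟩ := (h .jl : C.jl0 ≤ C.jl ∧ L2 μ s C.jl).2.2 C.N hN n₁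
  exact ⟨T₁, fun T hT => H C.l rfl rfl T hT⟩

/-- **THE LEVELS OF THE ROWS.** -/
theorem far2 (hε : 0 < ε) : EvC (S0 μ s c Cc ε) fun C => ∃ n₁ : ℕ, ∀ (Γ : Cx) (G : Gm) (P : Nm98) (u : ℕ) (κ : ℤ × ℤ), P.KF = 4 →
    P.th = 1 / 8 → P.PF = C.PF → P.qF = C.qF → n₁ ≤ G.T u → Fit98 G P u →
      (law μ).real (Far98 μ s c G P u κ)ᶜ ≤ ε ∧ (law μ).real (FarL98 μ s c Γ G P u κ)ᶜ ≤ ε := by
  have h' : ∀ PF : ℕ, ∃ q₀ : ℝ, PF2 μ s c PF → ∀ q : ℝ, q₀ ≤ q → ∃ n₁ : ℕ, ∀ (Γ : Cx) (G : Gm) (P : Nm98) (u : ℕ) (κ : ℤ × ℤ), P.KF = 4 →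
      P.th = 1 / 8 → P.PF = PF → P.qF = q → n₁ ≤ G.T u → Fit98 G P u →
        (law μ).real (Far98 μ s c G P u κ)ᶜ ≤ ε ∧ (law μ).real (FarL98 μ s c Γ G P u κ)ᶜ ≤ ε := fun PF => by
    by_cases hP : PF2 μ s c PF
    · obtain ⟨q₀, -, H⟩ := hP ε hε
      exact ⟨q₀, fun _ => H⟩
    · exact ⟨0, fun hP' => absurd hP' hP⟩
  choose q₀ H using h'
  filter_upwards [FC.spec (S0 μ s c Cc ε), FC.qF_ge (S0 μ s c Cc ε) fun p => q₀ p.PF] with C h hq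
  exact H C.PF (h .PF) C.qF hq

/-- **THE LANE BLOCK**: `Blk42` and the conditional probability, one threshold of the unit. -/
theorem blk2 : EvC (S0 μ s c Cc ε) fun C => ∃ n₁ : ℕ, 1 ≤ n₁ ∧
    (∀ n : ℕ, n₁ ≤ n → 1 ≤ wd μ s (C.N * n) ∧ Blk42 μ s c Cc C.dl 2 C.Kl C.U0 C.UM C.qt C.Kp C.KM C.UA C.UB C.YA C.YB C.N n) ∧
    ∀ P : Nm98, Eq34 P 2 C.Kl C.cM C.qM C.UM C.dl C.U0 C.LB C.Kp C.UB C.LA C.Kp C.UA (C.dl / 32) C.YB (C.dl / 32) C.YA C.N → 0 ≤ P.rM →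
      P.rM ≤ C.dM → ∀ (Γ : Cx) (G : Gm) (u : ℕ) (κ : ℤ × ℤ), n₁ ≤ P.nr u → G.v = sl μ s → 0 ≤ G.rcc u κ → Fit98 G P u →
      P.Kb * wd μ s (P.T u) + 1 ≤ G.kw * G.w u →
      ∀ B : Set Pt, (∀ q ∈ G.win u κ, ((rl98 Γ G P u κ : ℕ) : ℤ) < q.1 → q.1 ≤ ((rl98 Γ G P u κ + 3 * P.T u : ℕ) : ℤ) → q ∈ B) →
        (law μ).real {ω | 2 * C.pL ≤ cP μ B (LE98 μ s c Γ G P u κ) ω}ᶜ ≤ ε := by
  filter_upwards [FC.spec (S0 μ s c Cc ε), FC.N_ge (S0 μ s c Cc ε) fun p => p.N0] with C h hN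
  have hY : BK2 μ s c Cc 2 C.Kl C.qt C.dl C.U0 C.UM C.Kp C.KM C.UA C.UB C.YA C.YB C.Z C.N0 := h .YA
  have hL : PGL μ s c ε 2 C.Kl C.dM C.cM C.qM C.UM C.dl C.U0 C.LB C.Kp C.UB C.LA C.UA C.YB C.YA C.Z C.N C.pL := h .pL
  exact ln_blk69 hL hY hN

end

end Pool.Agent.W_7d29a1_C1.Cs2
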