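import Pool.Agent.W_7d29a1_C1.SepD98

/-!
MP_7d29a1_pr, attractor route, [C1] SEP: THE WALL SITES `Sg98` OF THE CONCRETE WINDOW: geometry. (helper42; version 2, over SepD98 v2)

* `sg_rows42`, `sg_lt42` : they lie in the rows of the gate block, below the row `rl98`;
* `sg_win42` : they lie in the window; `sg_tb42` : in a tube; `sg_B42` : they are no sites of the lane block;
* `rl_re42` : rows of the blocks; `con_ag42` : the contact is below the base row; `con_lat42`.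
-/

set_option autoImplicit false

namespace Pool.Agent.W_7d29a1_C1.D98

open MeasureTheory
open Pool.Agent.W_7d29a1_F hiding Bw G
open Pool.Agent.W_7d29a1_h4g Pool.Agent.W_7d29a1_H Pool.Agent.W_7d29a1_HS
open Pool.Agent.W_7d29a1_C1
open Pool.Agent.W_7d29a1_C1.U16 (lat16)
open Pool.Agent.W_7d29a1_C1.H60
open Pool.Agent.W_7d29a1_C1.G37 (Gm)
open Pool.Agent.W_7d29a1_C1.GL18
open Pool.Agent.W_7d29a1_C1.PW58 (InRows)

noncomputable section

variable {μ : Measure ℝ} {s c : ℝ} {Γ : Cx} {G : Gm} {P : Nm98} {u : ℕ} {κ : ℤ × ℤ}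

/-- **THE WALL SITES LIE IN THE ROWS OF THE GATE BLOCK.** -/
theorem sg_rows42 (hm : 2 * P.m u ≤ P.n u) : InRows (ag98 Γ G P u κ) (5 * P.n u) (Sg98 μ s Γ G P u κ) :=
  MJ42.sw_rows42 hm

/-- The wall sites lie below the base row of the lane block. -/
theorem sg_lt42 (hm : 2 * P.m u ≤ P.n u) : ∀ p ∈ Sg98 μ s Γ G P u κ, p.1 < ((rl98 Γ G P u κ : ℕ) : ℤ) :=
  MJ42.sw_lt42 hm

/-- **THE WALL SITES LIE IN THE WINDOW.** -/
theorem sg_win42 (hv : G.v = sl μ s) (h0 : 0 ≤ G.rcc u κ) (hF : Fit98 G P u) (hm : 2 * P.m u ≤ P.n u)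
    (hK : (P.K2 u : ℝ) * wd μ s (P.n u) + 1 ≤ G.kw * G.w u) : Sg98 μ s Γ G P u κ ⊆ G.win u κ := by
  have h1 := rl_T98 (Γ := Γ) (κ := κ) hF
  have h2 := le_ag98 (Γ := Γ) (G := G) (P := P) (u := u) (κ := κ)
  rw [rl_eq98] at h1
  exact MJ42.sw_win42 hv h0 (by omega) (by omega) hm hK

/-- **THE WALL SITES LIE IN A TUBE.** -/
theorem sg_tb42 {Rh : ℝ} (hw : 0 ≤ wd μ s (P.n u)) (hR : (P.K2 u : ℝ) ≤ Rh) :
    Sg98 μ s Γ G P u κ ⊆ tb (sl μ s) (pt98 G u κ (ag98 Γ G P u κ)) (Rh * wd μ s (P.n u)) := MJ42.sw_tb42 hw hR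

/-- The wall sites are no sites of the lane block. -/
theorem sg_B42 (hm : 2 * P.m u ≤ P.n u) : Disjoint (B98 Γ G P u κ) (Sg98 μ s Γ G P u κ) := by
  rw [Set.disjoint_left]
  intro p h1 h2
  have h3 := sg_lt42 hm p h2
  have h4 := h1.2.1
  omega

/-- The gate block ends before the last row. -/
theorem rl_re42 (hF : Fit98 G P u) : ag98 Γ G P u κ + 5 * P.n u + 3 * P.T u + 3 ≤ G.re u κ := by
  have h1 := rl_T98 (Γ := Γ) (κ := κ) hF
  rw [rl_eq98] at h1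
  omega

/-- The contact is below the base row. -/
theorem con_ag42 (u : ℕ) (c : ℕ × ℤ) : c.1 + 1 ≤ ag98 Γ G P u (G.loc u c) := by
  have h1 := MJ42.con_row42 (G := G) u c
  rw [ag_eq98]
  exact h1

/-- The contact, seen from any base site. -/
theorem con_lat42 (hv : G.v = sl μ s) (k : ℕ) (c : ℕ × ℤ) :
    |lat16 μ s (pt98 G u (G.loc u c) k) ((c.1 : ℤ), c.2)| ≤ (G.g u : ℝ) / 2 + 1 := MJ42.con_lat42 hv k c

end

end Pool.Agent.W_7d29a1_C1.D98
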