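import Pool.Agent.W_7d29a1_C1.SepE98
import Pool.Agent.W_7d29a1_C1.OuP37
import Pool.Agent.W_7d29a1_C1.E2F42
import Pool.Agent.W_7d29a1_C1.LoW18
import Pool.Agent.W_7d29a1_C1.UpS52

/-!
MP_7d29a1_pr, [C1] attractor route, SEP: THE PART OF THE TYPICAL SET WHICH THE GATE MAY READ (`E2` of `TF`). (helper97, for helper71)

`rl` = the row `a + 5 n` behind the gate block; the wall sites lie in the rows `< rl`.
* `off_gt97`, `bn_gt97` : a set which reads the weights of the rows `> r` is `Off` every set of sites of the rows `≤ r`;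
* `OuTl R X rl` : the tame masses of the rows `≥ rl` of the window; measurable, `Off` the rows `≤ rl`, `OuT` is contained in it;
  `off_OuD97` : the doubling clause reads the rows `> re`;
* `prof97`, `profL97` : the profile clause of the row `rl` with the own weights; `profX97` : without them, from `X87`;
* `OuG97` : what is kept of the slot `Ou` (`Ou rc`, `Ou r0`, `OuT R0`, `OuT R2`, `OuT R1`); measurable, `Off`;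
* decreasing: `UpS` of BrR22, `Up22`, `KiB`; `Off` the rows `≤ rl`: `LoB`, `KiB`, `StB`, `Lw18`;
* `TF = TP98 ∩ OuG97` : `tf97_meas`, `tf97_dec`, `tf97_sub`; `profT97` : the profile clause of the gate.
-/

set_option autoImplicit false

namespace Pool.Agent.W_7d29a1_C1.E2H97

open MeasureTheory Finset
open Pool.Agent.W_7d29a1_F hiding Bw G
open Pool.Agent.W_7d29a1_h4g Pool.Agent.W_7d29a1_HS
open Pool.Agent.W_7d29a1_H hiding ex gg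
open Pool.Agent.W_7d29a1_C1.K91 (wt wt_pos)
open Pool.Agent.W_7d29a1_C1.K91P (bw bw_pos bw_zero)
open Pool.Agent.W_7d29a1_C1.U16 (lat16)
open Pool.Agent.W_7d29a1_C1.H60
open Pool.Agent.W_7d29a1_C1.G37 (Gm)
open Pool.Agent.W_7d29a1_C1.GL18
open Pool.Agent.W_7d29a1_C1.Gt66 (X87)
open Pool.Agent.W_7d29a1_C1.S71 (Off gl)
open Pool.Agent.W_7d29a1_C1.F31 (DecO)
open Pool.Agent.W_7d29a1_C1.PW58 (lt lat_lt)
open Pool.Agent.W_7d29a1_C1.RB22 (KiB LoB StB kiB_dec loB_congr stB_congr)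
open Pool.Agent.W_7d29a1_C1.Ou37 (Zo OuT OuD Ou OuF bn_eq bn_pos bw_bn gam gam_pos meas_bn meas_OuD)
open Pool.Agent.W_7d29a1_C1.D98
open Pool.Agent.W_7d29a1_HR (Dec)

noncomputable section

variable {μ : Measure ℝ} {s c : ℝ} {Γ : Cx} {G : Gm} {u : ℕ} {κ : ℤ × ℤ}

/-! ### Rows -/

/-- **A set which reads the weights of the rows `> r`** does not read the sites of the rows `≤ r`. -/
theorem off_gt97 {S : Set Pt} {E : Set Env} {r : ℕ} (hS : ∀ p ∈ S, p.1 ≤ (r : ℤ))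
    (hE : ∀ η η' : Env, (∀ k, r < k → wt η k = wt η' k) → η ∈ E → η' ∈ E) : Off S E := fun η η' h => by
  have key : ∀ k, r < k → wt η k = wt η' k := fun k hk => funext fun y => PW58.wt_eq (h _ fun hx => by
    have h1 : (k : ℤ) ≤ (r : ℤ) := hS _ hx
    omega)
  exact ⟨hE η η' key, hE η' η fun k hk => (key k hk).symm⟩

/-- The normalised mass of the row `k ≥ r` reads the rows `> r` (at the last row `N` it reads the own weight). -/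
theorem bn_gt97 {ω ω' : Env} {r : ℕ} (h : ∀ k, r < k → wt ω k = wt ω' k) {k : ℕ} (hk : r ≤ k) (hN : r < k ∨ r < Γ.N) (y : ℤ) :
    Ou37.bn μ s Γ k y ω = Ou37.bn μ s Γ k y ω' := by
  rcases Nat.lt_or_ge k Γ.N with h3 | h3
  · exact Ou37.bn_congr h3 (fun i hi => h i (by omega)) y
  · have e : bw (wt ω) Γ.p k (Γ.N - k) y = bw (wt ω') Γ.p k (Γ.N - k) y := by
      rw [Nat.sub_eq_zero_of_le h3, bw_zero, bw_zero]
    rw [bn_eq, bn_eq, e]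
    unfold Rt22.gg
    rw [h k (by omega)]

/-! ### The tame masses of the rows `≥ rl` -/

/-- **TAME FROM THE ROW `rl` ON.** -/
def OuTl (μ : Measure ℝ) (s : ℝ) (Γ : Cx) (G : Gm) (R X : ℝ) (rl u : ℕ) (κ : ℤ × ℤ) : Set Env :=
  {ω | ∀ c ∈ Zo G R u κ, ∀ c' ∈ Zo G R u κ, rl ≤ c.1 → rl ≤ c'.1 →
    Ou37.bn μ s Γ c'.1 c'.2 ω ≤ Real.exp X * Ou37.bn μ s Γ c.1 c.2 ω}

section

variable {R X : ℝ} {rl : ℕ}

theorem meas_OuTl : MeasurableSet (OuTl μ s Γ G R X rl u κ) := by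
  have e : OuTl μ s Γ G R X rl u κ = ⋂ c : ℕ × ℤ, ⋂ c' : ℕ × ℤ, {ω | (c ∈ Zo G R u κ ∧ c' ∈ Zo G R u κ ∧ rl ≤ c.1 ∧ rl ≤ c'.1) →
      Ou37.bn μ s Γ c'.1 c'.2 ω ≤ Real.exp X * Ou37.bn μ s Γ c.1 c.2 ω} := by
    ext ω
    simp only [Set.mem_iInter]
    exact ⟨fun h c c' h1 => h c h1.1 c' h1.2.1 h1.2.2.1 h1.2.2.2, fun h c hc c' hc' h1 h2 => h c c' ⟨hc, hc', h1, h2⟩⟩
  rw [e]
  refine MeasurableSet.iInter fun c => MeasurableSet.iInter fun c' => ?_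
  by_cases h1 : c ∈ Zo G R u κ ∧ c' ∈ Zo G R u κ ∧ rl ≤ c.1 ∧ rl ≤ c'.1
  · have e2 : {ω | (c ∈ Zo G R u κ ∧ c' ∈ Zo G R u κ ∧ rl ≤ c.1 ∧ rl ≤ c'.1) →
        Ou37.bn μ s Γ c'.1 c'.2 ω ≤ Real.exp X * Ou37.bn μ s Γ c.1 c.2 ω} =
        {ω | Ou37.bn μ s Γ c'.1 c'.2 ω ≤ Real.exp X * Ou37.bn μ s Γ c.1 c.2 ω} := by
      ext ω
      exact ⟨fun h => h h1, fun h _ => h⟩
    rw [e2]
    exact measurableSet_le (meas_bn _ _) (measurable_const.mul (meas_bn _ _))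
  · have e2 : {ω | (c ∈ Zo G R u κ ∧ c' ∈ Zo G R u κ ∧ rl ≤ c.1 ∧ rl ≤ c'.1) →
        Ou37.bn μ s Γ c'.1 c'.2 ω ≤ Real.exp X * Ou37.bn μ s Γ c.1 c.2 ω} = Set.univ := by
      ext ω
      exact ⟨fun _ => trivial, fun _ h => absurd h h1⟩
    rw [e2]
    exact MeasurableSet.univ

/-- **It does not read the rows `≤ rl`.** -/
theorem off_OuTl {S : Set Pt} (hN : rl < Γ.N) (hS : ∀ p ∈ S, p.1 ≤ (rl : ℤ)) : Off S (OuTl μ s Γ G R X rl u κ) :=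
  off_gt97 hS fun η η' h hη c hc c' hc' h1 h2 => by
    rw [← bn_gt97 h h2 (Or.inr hN), ← bn_gt97 h h1 (Or.inr hN)]
    exact hη c hc c' hc' h1 h2

/-- **`OuT` is contained in it.** -/
theorem OuT_sub97 {E : ℕ → ℝ} {Q' sg : ℝ} (hX : Q' * E u + sg ≤ X) : OuT μ s Γ G E R Q' sg u κ ⊆ OuTl μ s Γ G R X rl u κ :=
  fun _ h c hc c' hc' _ _ => (h c hc c' hc').trans (mul_le_mul_of_nonneg_right (Real.exp_le_exp.2 hX) (bn_pos _ _ _).le)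

/-- A smaller radius, a larger price, fewer rows. -/
theorem OuTl_mono97 {R' X' : ℝ} {rl' : ℕ} (hR : R' * G.w u ≤ R * G.w u) (hX : X ≤ X') (hr : rl ≤ rl') :
    OuTl μ s Γ G R X rl u κ ⊆ OuTl μ s Γ G R' X' rl' u κ := fun _ h c hc c' hc' h1 h2 =>
  (h c ⟨hc.1, hc.2.1, hc.2.2.trans hR⟩ c' ⟨hc'.1, hc'.2.1, hc'.2.2.trans hR⟩ (hr.trans h1) (hr.trans h2)).trans
    (mul_le_mul_of_nonneg_right (Real.exp_le_exp.2 hX) (bn_pos _ _ _).le)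

/-- **The doubling clause reads the rows `≥ re`.** -/
theorem off_OuD97 {E : ℕ → ℝ} {Q4 sgm sg : ℝ} {S : Set Pt} (hr : rl < G.re u κ) (hS : ∀ p ∈ S, p.1 ≤ (rl : ℤ)) :
    Off S (OuD μ s Γ G E R Q4 sgm sg u κ) :=
  off_gt97 hS fun η η' h hη y y₀ h1 => by
    rw [← bn_gt97 h hr.le (Or.inl hr), ← bn_gt97 h hr.le (Or.inl hr)]
    exact hη y y₀ h1

/-! ### The profile clause of the row `rl` -/

/-- **THE PROFILE CLAUSE OF A ROW `k ≥ rl`**, with the own weights. -/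
theorem prof97 {k : ℕ} (hk : rl ≤ k) {v v' : ℤ} (hv : (k, v) ∈ Zo G R u κ) (hv' : (k, v') ∈ Zo G R u κ) {ω : Env}
    (h : ω ∈ OuTl μ s Γ G R X rl u κ) :
    bw (wt ω) Γ.p k (Γ.N - k) v * wt ω k v' ≤ Real.exp X * (bw (wt ω) Γ.p k (Γ.N - k) v' * wt ω k v) := by
  have h1 := h _ hv' _ hv hk hk
  simp only at h1
  have h2 : bw (wt ω) Γ.p k (Γ.N - k) v = (wt ω k v * gam μ s Γ k v) * Ou37.bn μ s Γ k v ω := bw_bn (μ := μ) (s := s) (Γ := Γ) k v ω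
  have h3 : bw (wt ω) Γ.p k (Γ.N - k) v' = (wt ω k v' * gam μ s Γ k v') * Ou37.bn μ s Γ k v' ω := bw_bn (μ := μ) (s := s) (Γ := Γ) k v' ω
  have h4 : gam μ s Γ k v' = gam μ s Γ k v := rfl
  rw [h2, h3, h4]
  have h5 := wt_pos ω k v
  have h6 := wt_pos ω k v'
  have h7 : 0 < gam μ s Γ k v := gam_pos _ _
  have h8 : 0 ≤ wt ω k v * wt ω k v' * gam μ s Γ k v := by positivity
  calc (wt ω k v * gam μ s Γ k v) * Ou37.bn μ s Γ k v ω * wt ω k v' = (wt ω k v * wt ω k v' * gam μ s Γ k v) * Ou37.bn μ s Γ k v ω := by ring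
    _ ≤ (wt ω k v * wt ω k v' * gam μ s Γ k v) * (Real.exp X * Ou37.bn μ s Γ k v' ω) := mul_le_mul_of_nonneg_left h1 h8
    _ = _ := by ring

/-- A site of the row `a + j` in the letters of the gate. -/
theorem lt_Zo97 (hv : G.v = sl μ s) {a j : ℕ} (h1 : G.ra u κ ≤ a + j + 1) (h2 : a + j ≤ G.re u κ) {v : ℤ}
    (h : |lt μ s ⌊G.ctr u κ + G.v * (a : ℝ)⌋ j v| + 1 ≤ R * G.w u) : (a + j, v) ∈ Zo G R u κ := by
  have e := lat_lt (μ := μ) (s := s) a ⌊G.ctr u κ + G.v * (a : ℝ)⌋ j v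
  obtain ⟨g1, g2⟩ := MJ42.lat_pt42 (u := u) (κ := κ) hv a (a + j) v
  rw [e] at g1 g2
  refine ⟨h1, h2, ?_⟩
  have h3 := abs_le.1 (show |lt μ s ⌊G.ctr u κ + G.v * (a : ℝ)⌋ j v| ≤ R * G.w u - 1 by linarith)
  show |G.lat (a + j, v) - G.ctr u κ| ≤ R * G.w u
  rw [abs_le]
  constructor <;> linarith [h3.1, h3.2]

/-- **THE PROFILE CLAUSE OF THE ROW BEHIND THE GATE**, letters of `gateZ58`, with the own weights. -/
theorem profL97 (hv : G.v = sl μ s) {a n : ℕ} (hr : rl ≤ a + 5 * n) (h1 : G.ra u κ ≤ a + 5 * n + 1) (h2 : a + 5 * n ≤ G.re u κ) {ω : Env}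
    (h : ω ∈ OuTl μ s Γ G R X rl u κ) (v v' : ℤ) (hv1 : |lt μ s ⌊G.ctr u κ + G.v * (a : ℝ)⌋ (5 * n) v| + 1 ≤ R * G.w u)
    (hv2 : |lt μ s ⌊G.ctr u κ + G.v * (a : ℝ)⌋ (5 * n) v'| + 1 ≤ R * G.w u) :
    bw (wt ω) Γ.p (a + 5 * n) (Γ.N - (a + 5 * n)) v * wt ω (a + 5 * n) v' ≤
      Real.exp X * (bw (wt ω) Γ.p (a + 5 * n) (Γ.N - (a + 5 * n)) v' * wt ω (a + 5 * n) v) :=
  prof97 hr (lt_Zo97 hv h1 h2 hv1) (lt_Zo97 hv h1 h2 hv2) h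

end

/-- An own weight of the row `a + 5 n` from `X87`. -/
theorem wt_X87 {Kx q : ℝ} {n a : ℕ} {x0 : ℤ} (hn : 1 ≤ n) {ω : Env} (h : ω ∈ X87 μ s Kx n ((a : ℤ), x0) (5 * n) q) {v : ℤ}
    (hv : |lt μ s x0 (5 * n) v| ≤ Kx * wd μ s n) : Real.exp (-(q * EE μ s n)) ≤ wt ω (a + 5 * n) v ∧
      wt ω (a + 5 * n) v ≤ Real.exp (q * EE μ s n) := by
  have e : wt ω (a + 5 * n) v = Real.exp (ω ((a : ℤ) + ((5 * n : ℕ) : ℤ), v)) := by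
    unfold wt
    rw [if_neg (by omega)]
    push_cast
    rfl
  have h1 := h v (by
    show |lat16 μ s ((a : ℤ), x0) ((a : ℤ) + ((5 * n : ℕ) : ℤ), v)| ≤ Kx * wd μ s n
    rw [← Nat.cast_add, lat_lt]
    exact hv)
  have h2 := abs_le.1 h1
  simp only at h2
  rw [e]
  exact ⟨Real.exp_le_exp.2 h2.1, Real.exp_le_exp.2 h2.2⟩

/-- **FROM THE FORM WITH THE OWN WEIGHTS TO THE FORM WITHOUT THEM.** -/
theorem profX97 {Kx q X : ℝ} {n a N : ℕ} {x0 : ℤ} (hn : 1 ≤ n) {p : ℕ → ℝ} (hp : ∀ k, 0 < p k) {ω : Env}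
    (hX : ω ∈ X87 μ s Kx n ((a : ℤ), x0) (5 * n) q) {v v' : ℤ} (hv : |lt μ s x0 (5 * n) v| ≤ Kx * wd μ s n)
    (hv' : |lt μ s x0 (5 * n) v'| ≤ Kx * wd μ s n)
    (h : bw (wt ω) p (a + 5 * n) (N - (a + 5 * n)) v * wt ω (a + 5 * n) v' ≤
      Real.exp X * (bw (wt ω) p (a + 5 * n) (N - (a + 5 * n)) v' * wt ω (a + 5 * n) v)) :
    bw (wt ω) p (a + 5 * n) (N - (a + 5 * n)) v ≤ Real.exp (X + 2 * q * EE μ s n) * bw (wt ω) p (a + 5 * n) (N - (a + 5 * n)) v' := by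
  obtain ⟨f1, -⟩ := wt_X87 hn hX hv'
  obtain ⟨-, f2⟩ := wt_X87 hn hX hv
  obtain ⟨B, hB⟩ : ∃ B, B = bw (wt ω) p (a + 5 * n) (N - (a + 5 * n)) v := ⟨_, rfl⟩
  obtain ⟨B', hB'⟩ : ∃ B', B' = bw (wt ω) p (a + 5 * n) (N - (a + 5 * n)) v' := ⟨_, rfl⟩
  have hB0 : 0 < B := by rw [hB]; exact bw_pos (wt_pos ω) hp _ _ _
  have hB0' : 0 < B' := by rw [hB']; exact bw_pos (wt_pos ω) hp _ _ _
  rw [← hB, ← hB'] at h ⊢
  have g1 : B * Real.exp (-(q * EE μ s n)) ≤ Real.exp X * (B' * Real.exp (q * EE μ s n)) :=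
    (mul_le_mul_of_nonneg_left f1 hB0.le).trans (h.trans (mul_le_mul_of_nonneg_left (mul_le_mul_of_nonneg_left f2 hB0'.le)
      (Real.exp_pos _).le))
  have g2 := mul_le_mul_of_nonneg_right g1 (Real.exp_pos (q * EE μ s n)).le
  have e1 : B * Real.exp (-(q * EE μ s n)) * Real.exp (q * EE μ s n) = B := by
    rw [mul_assoc, ← Real.exp_add, neg_add_cancel, Real.exp_zero, mul_one]
  have e2 : Real.exp X * (B' * Real.exp (q * EE μ s n)) * Real.exp (q * EE μ s n) = Real.exp (X + 2 * q * EE μ s n) * B' := by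
    have : Real.exp (X + 2 * q * EE μ s n) = Real.exp X * (Real.exp (q * EE μ s n) * Real.exp (q * EE μ s n)) := by
      rw [← Real.exp_add, ← Real.exp_add]
      congr 1
      ring
    rw [this]
    ring
  rw [e1, e2] at g2
  exact g2

/-! ### What is kept of the slot `Ou` -/

/-- What is kept of `Ou`. -/
def OuE97 (μ : Measure ℝ) (s : ℝ) (Γ : Cx) (G : Gm) (E : ℕ → ℝ) (R Q' Q4 sgm sg : ℝ) (rl u : ℕ) (κ : ℤ × ℤ) : Set Env :=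
  OuTl μ s Γ G R (Q' * E u + sg) rl u κ ∩ OuD μ s Γ G E R Q4 sgm sg u κ

section ou

variable {E : ℕ → ℝ} {R Q' Q4 sgm sg : ℝ} {rl : ℕ}

theorem Ou_sub97 : Ou μ s Γ G E R Q' Q4 sgm sg u κ ⊆ OuE97 μ s Γ G E R Q' Q4 sgm sg rl u κ := fun _ h => ⟨OuT_sub97 le_rfl h.1, h.2⟩

theorem meas_OuE97 : MeasurableSet (OuE97 μ s Γ G E R Q' Q4 sgm sg rl u κ) := meas_OuTl.inter meas_OuD

theorem off_OuE97 {S : Set Pt} (hr : rl < G.re u κ) (hN : rl < Γ.N) (hS : ∀ p ∈ S, p.1 ≤ (rl : ℤ)) :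
    Off S (OuE97 μ s Γ G E R Q' Q4 sgm sg rl u κ) := (off_OuTl hN hS).inter (off_OuD97 hr hS)

end ou

/-- **THE PART OF THE SLOT `Ou` WHICH THE GATE MAY READ**: `Ou rc`, `Ou r0`, `OuT R0`, `OuT R2`, `OuT R1` of the rows `≥ rl`. -/
def OuG97 (μ : Measure ℝ) (s : ℝ) (Γ : Cx) (G : Gm) (E : ℕ → ℝ) (rc Qc Q4c sgc r0 Qr Q4r sgr R0 x0 R2 x2 R1 x1 sg : ℝ) (rl u : ℕ)
    (κ : ℤ × ℤ) : Set Env :=
  OuE97 μ s Γ G E rc Qc Q4c sgc sg rl u κ ∩ (OuE97 μ s Γ G E r0 Qr Q4r sgr sg rl u κ ∩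
    (OuTl μ s Γ G R0 (x0 * E u + sg) rl u κ ∩ (OuTl μ s Γ G R2 (x2 * E u + sg) rl u κ ∩ OuTl μ s Γ G R1 (x1 * E u + sg) rl u κ)))

section oug

variable {E : ℕ → ℝ} {rc Qc Q4c sgc r0 Qr Q4r sgr R0 x0 R2 x2 R1 x1 sg : ℝ} {rl : ℕ} {ω : Env}

theorem OuG_of97 (h1 : ω ∈ Ou μ s Γ G E rc Qc Q4c sgc sg u κ) (h2 : ω ∈ Ou μ s Γ G E r0 Qr Q4r sgr sg u κ)
    (h3 : ω ∈ OuT μ s Γ G E R0 x0 sg u κ) (h4 : ω ∈ OuT μ s Γ G E R2 x2 sg u κ) (h5 : ω ∈ OuT μ s Γ G E R1 x1 sg u κ) :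
    ω ∈ OuG97 μ s Γ G E rc Qc Q4c sgc r0 Qr Q4r sgr R0 x0 R2 x2 R1 x1 sg rl u κ :=
  ⟨Ou_sub97 h1, Ou_sub97 h2, OuT_sub97 le_rfl h3, OuT_sub97 le_rfl h4, OuT_sub97 le_rfl h5⟩

theorem meas_OuG97 : MeasurableSet (OuG97 μ s Γ G E rc Qc Q4c sgc r0 Qr Q4r sgr R0 x0 R2 x2 R1 x1 sg rl u κ) :=
  meas_OuE97.inter (meas_OuE97.inter (meas_OuTl.inter (meas_OuTl.inter meas_OuTl)))

theorem off_OuG97 {S : Set Pt} (hr : rl < G.re u κ) (hN : G.re u κ ≤ Γ.N) (hS : ∀ p ∈ S, p.1 ≤ (rl : ℤ)) :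
    Off S (OuG97 μ s Γ G E rc Qc Q4c sgc r0 Qr Q4r sgr R0 x0 R2 x2 R1 x1 sg rl u κ) := by
  have hN' : rl < Γ.N := by omega
  exact (off_OuE97 hr hN' hS).inter ((off_OuE97 hr hN' hS).inter ((off_OuTl hN' hS).inter ((off_OuTl hN' hS).inter (off_OuTl hN' hS))))

theorem OuG97.tc (h : ω ∈ OuG97 μ s Γ G E rc Qc Q4c sgc r0 Qr Q4r sgr R0 x0 R2 x2 R1 x1 sg rl u κ) :
    ω ∈ OuTl μ s Γ G rc (Qc * E u + sg) rl u κ := h.1.1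
theorem OuG97.dc (h : ω ∈ OuG97 μ s Γ G E rc Qc Q4c sgc r0 Qr Q4r sgr R0 x0 R2 x2 R1 x1 sg rl u κ) :
    ω ∈ OuD μ s Γ G E rc Q4c sgc sg u κ := h.1.2
theorem OuG97.t0 (h : ω ∈ OuG97 μ s Γ G E rc Qc Q4c sgc r0 Qr Q4r sgr R0 x0 R2 x2 R1 x1 sg rl u κ) :
    ω ∈ OuTl μ s Γ G r0 (Qr * E u + sg) rl u κ := h.2.1.1
theorem OuG97.d0 (h : ω ∈ OuG97 μ s Γ G E rc Qc Q4c sgc r0 Qr Q4r sgr R0 x0 R2 x2 R1 x1 sg rl u κ) :
    ω ∈ OuD μ s Γ G E r0 Q4r sgr sg u κ := h.2.1.2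
theorem OuG97.tR0 (h : ω ∈ OuG97 μ s Γ G E rc Qc Q4c sgc r0 Qr Q4r sgr R0 x0 R2 x2 R1 x1 sg rl u κ) :
    ω ∈ OuTl μ s Γ G R0 (x0 * E u + sg) rl u κ := h.2.2.1
theorem OuG97.tR2 (h : ω ∈ OuG97 μ s Γ G E rc Qc Q4c sgc r0 Qr Q4r sgr R0 x0 R2 x2 R1 x1 sg rl u κ) :
    ω ∈ OuTl μ s Γ G R2 (x2 * E u + sg) rl u κ := h.2.2.2.1
theorem OuG97.tR1 (h : ω ∈ OuG97 μ s Γ G E rc Qc Q4c sgc r0 Qr Q4r sgr R0 x0 R2 x2 R1 x1 sg rl u κ) :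
    ω ∈ OuTl μ s Γ G R1 (x1 * E u + sg) rl u κ := h.2.2.2.2

end oug

/-! ### The factors: decreasing sets -/

theorem tw_mono97 {τ : ℝ} {η η' : Env} (h : ∀ p, η p ≤ η' p) (P : Pt) (n : ℕ) : RB22.tw μ s τ η P n ≤ RB22.tw μ s τ η' P n :=
  Finset.sum_le_sum fun y _ => mul_le_mul_of_nonneg_left (Pool.Agent.W_7d29a1_h48.W_mono_env h P n y) (Real.exp_pos _).le

/-- **`UpS` of BrR22 is decreasing.** -/
theorem upS_dec97 {t₀ V σ : ℝ} {l : ℕ → ℤ → ℝ} {a e : ℕ} : Dec (RB22.UpS μ s t₀ V σ l a e) := fun _ _ h hη k x n h1 h2 =>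
  ⟨(tw_mono97 h _ _).trans (hη k x n h1 h2).1, (tw_mono97 h _ _).trans (hη k x n h1 h2).2⟩

theorem meas_tw97 (τ : ℝ) (P : Pt) (n : ℕ) : Measurable fun η : Env => RB22.tw μ s τ η P n := by
  unfold RB22.tw
  exact Finset.measurable_sum _ fun y _ => measurable_const.mul (measurable_W _ _ _)

theorem meas_UpS97 {t₀ V σ : ℝ} {l : ℕ → ℤ → ℝ} {a e : ℕ} : MeasurableSet (RB22.UpS μ s t₀ V σ l a e) := by
  have e1 : RB22.UpS μ s t₀ V σ l a e = ⋂ (k : ℕ) (x : ℤ) (n : ℕ) (_ : a ≤ k) (_ : k + n ≤ e),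
      ({ω | RB22.tw μ s t₀ ω ((k : ℤ), x) n ≤ Real.exp (V + σ * |l k x|)} ∩
        {ω | RB22.tw μ s (-t₀) ω ((k : ℤ), x) n ≤ Real.exp (V + σ * |l k x|)}) := by
    ext ω
    simp only [Set.mem_iInter]
    exact Iff.rfl
  rw [e1]
  exact MeasurableSet.iInter fun k => MeasurableSet.iInter fun x => MeasurableSet.iInter fun n => MeasurableSet.iInter fun _ =>
    MeasurableSet.iInter fun _ => (measurableSet_le (meas_tw97 _ _ _) measurable_const).inter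
      (measurableSet_le (meas_tw97 _ _ _) measurable_const)

/-- **`Up22` is decreasing.** -/
theorem up22_dec97 {t₀ V σ : ℝ} {l : ℕ → ℤ → ℝ} {a e : ℕ} : Dec (Up52.Up22 μ s t₀ V σ l a e) := upS_dec97

theorem meas_Up97 {t₀ V σ : ℝ} {l : ℕ → ℤ → ℝ} {a e : ℕ} : MeasurableSet (Up52.Up22 μ s t₀ V σ l a e) := meas_UpS97

/-- **`KiB` is decreasing.** -/
theorem kiB_dec97 {γ : ℕ → ℤ → ℝ} (hγ : ∀ k y, 0 < γ k y) (hv0 : 0 ≤ G.v) (hv1 : G.v ≤ 1) {b A X : ℝ}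
    (hb : G.kw * G.w u + 2 ≤ b * G.w u) {a e : ℕ} : Dec (KiB Γ G γ b A X u κ a e) := fun _ _ h hη =>
  kiB_dec hγ hv0 hv1 hb (fun k y _ _ => PW58.wt_mono h k y) hη

/-! ### The factors: sets which read the rows `> rl` -/

section rows

variable {S : Set Pt} {rl : ℕ}

theorem off_LoB97 (hS : ∀ p ∈ S, p.1 ≤ (rl : ℤ)) {γ : ℕ → ℤ → ℝ} (hγ : ∀ k y, 0 < γ k y) {b U : ℝ} {e : ℕ} :
    Off S (LoB Γ G γ b U u κ rl e) :=
  off_gt97 hS fun _ _ h hη => loB_congr hγ (fun k y h1 _ => by rw [h k h1]) hη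

theorem off_KiB97 (hS : ∀ p ∈ S, p.1 ≤ (rl : ℤ)) {γ : ℕ → ℤ → ℝ} (hγ : ∀ k y, 0 < γ k y) (hv0 : 0 ≤ G.v) (hv1 : G.v ≤ 1) {b A X : ℝ}
    (hb : G.kw * G.w u + 2 ≤ b * G.w u) {e : ℕ} : Off S (KiB Γ G γ b A X u κ rl e) :=
  off_gt97 hS fun _ _ h hη => RB22.kiB_congr hγ hv0 hv1 hb (fun k y h1 _ => by rw [h k h1]) hη

theorem off_StB97 (hS : ∀ p ∈ S, p.1 ≤ (rl : ℤ)) {b Uw : ℝ} {e : ℕ} (he : rl < e) : Off S (StB G b Uw u κ e) :=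
  off_gt97 hS fun _ _ h hη => stB_congr (fun y => by rw [h e he]) hη

theorem off_Lw97 (hS : ∀ p ∈ S, p.1 ≤ (rl : ℤ)) {e : ℕ} {ρ : ℝ} {A : Set Pt} {Q : ℝ} : Off S (Lw18 μ s G u κ rl e ρ A Q) :=
  fun _ _ h => lw18_rows fun p h1 _ => h p fun h2 => absurd (hS p h2) (not_le.2 h1)

theorem off_On97 {a e : ℤ} (hS : ∀ p ∈ S, p.1 ≤ a) {E : Set Env} (h : On20 (rows a e) E) : Off S E :=
  h.off (Set.disjoint_left.2 fun p h1 h2 => by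
    have h3 : a < p.1 := h1.1
    have h4 := hS p h2
    omega)

end rows

/-! ### The concrete window -/

section win

variable {P : Nm98} {R' : Nr98} {τ0 : ℕ}

/-- **The wall sites lie in the rows `≤ rl98`.** -/
theorem sg_le97 (hm : 2 * P.m u ≤ P.n u) : ∀ p ∈ Sg98 μ s Γ G P u κ, p.1 ≤ (rl98 Γ G P u κ : ℤ) := fun p hp => (sg_lt42 hm p hp).le

section tf

variable {E : ℕ → ℝ} {rc Qc Q4c sgc r0 Qr Q4r sgr R0 x0 R2 x2 R1 x1 sg : ℝ}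

/-- **The part of the slot does not read the wall sites.** -/
theorem offSg97 (H : Ok98 G P R' τ0) (hu : τ0 < u) (hN : G.re u κ ≤ Γ.N) : Off (Sg98 μ s Γ G P u κ)
    (OuG97 μ s Γ G E rc Qc Q4c sgc r0 Qr Q4r sgr R0 x0 R2 x2 R1 x1 sg (rl98 Γ G P u κ) u κ) :=
  off_OuG97 (by have := rl_T98 (Γ := Γ) (κ := κ) (H.fit u hu); omega) hN (sg_le97 (H.m2 u hu))

/-- **`TF = TP98 ∩ OuG97`: measurable.** -/
theorem tf97_meas [IsProbabilityMeasure μ] : MeasurableSet (TP98 μ s c Γ G P R' u κ ∩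
    OuG97 μ s Γ G E rc Qc Q4c sgc r0 Qr Q4r sgr R0 x0 R2 x2 R1 x1 sg (rl98 Γ G P u κ) u κ) := meas_TP98.inter meas_OuG97

/-- **`TF = TP98 ∩ OuG97`: decreasing in the wall sites.** -/
theorem tf97_dec [IsProbabilityMeasure μ] (H : Ok98 G P R' τ0) (hu : τ0 < u) (hN : G.re u κ ≤ Γ.N) : DecO (Sg98 μ s Γ G P u κ)ᶜ (TP98 μ s c Γ G P R' u κ ∩
    OuG97 μ s Γ G E rc Qc Q4c sgc r0 Qr Q4r sgr R0 x0 R2 x2 R1 x1 sg (rl98 Γ G P u κ) u κ) :=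
  (dec_TP98 H hu).inter (MJ42.dec_off42 (offSg97 H hu hN))

/-- **The typical set is contained in `TF`.** -/
theorem tf97_sub {ω : Env} (h0 : ω ∈ LvA98 μ s c Γ G P R' u κ) (h1 : ω ∈ Ou μ s Γ G E rc Qc Q4c sgc sg u κ)
    (h2 : ω ∈ Ou μ s Γ G E r0 Qr Q4r sgr sg u κ) (h3 : ω ∈ OuT μ s Γ G E R0 x0 sg u κ) (h4 : ω ∈ OuT μ s Γ G E R2 x2 sg u κ)
    (h5 : ω ∈ OuT μ s Γ G E R1 x1 sg u κ) : ω ∈ TP98 μ s c Γ G P R' u κ ∩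
    OuG97 μ s Γ G E rc Qc Q4c sgc r0 Qr Q4r sgr R0 x0 R2 x2 R1 x1 sg (rl98 Γ G P u κ) u κ := ⟨LvA_TP98 h0, OuG_of97 h1 h2 h3 h4 h5⟩

end tf

/-- **THE PROFILE CLAUSE OF THE GATE**, letters of `gateZ58`: the sites of the core against the sites `|lt v'| ≤ (K₂ + 9) w`, without
the own weights (they are bounded by `X87` in `TF58`). -/
theorem profT97 {K1h K2h K₁ K₂ : ℕ} {U₀ Q₀ U₁ Q₁ U Q Y R X : ℝ} {n m a rl : ℕ} (hn : 1 ≤ n) (hv : G.v = sl μ s) (hr : rl ≤ a + 5 * n)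
    (h1 : G.ra u κ ≤ a + 5 * n + 1) (h2 : a + 5 * n ≤ G.re u κ) {ω : Env}
    (hω : ω ∈ PW58.TF58 μ s c K1h K2h K₁ K₂ U₀ Q₀ U₁ Q₁ U Q Y n m ((a : ℤ), ⌊G.ctr u κ + G.v * (a : ℝ)⌋))
    (hO : ω ∈ OuTl μ s Γ G R X rl u κ) (hw : 0 ≤ wd μ s n) (hK : K₁ ≤ K₂) (hK2 : K₂ ≤ K2h)
    (hR : ((K₂ : ℝ) + 9) * wd μ s n + 1 ≤ R * G.w u) (v v' : ℤ)
    (hv1 : |lt μ s ⌊G.ctr u κ + G.v * (a : ℝ)⌋ (5 * n) v| ≤ K₁ * wd μ s n)
    (hv2 : |lt μ s ⌊G.ctr u κ + G.v * (a : ℝ)⌋ (5 * n) v'| ≤ ((K₂ : ℝ) + 9) * wd μ s n) :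
    bw (wt ω) Γ.p (a + 5 * n) (Γ.N - (a + 5 * n)) v ≤ Real.exp (X + 2 * EE μ s n) * bw (wt ω) Γ.p (a + 5 * n) (Γ.N - (a + 5 * n)) v' := by
  obtain ⟨⟨-, -, hX⟩, -⟩ := hω
  have k1 : (K₁ : ℝ) ≤ K₂ := by exact_mod_cast hK
  have k2 : (K₂ : ℝ) ≤ K2h := by exact_mod_cast hK2
  have g1 : (K₁ : ℝ) * wd μ s n ≤ ((K₂ : ℝ) + 9) * wd μ s n := mul_le_mul_of_nonneg_right (by linarith) hw
  have g2 : ((K₂ : ℝ) + 9) * wd μ s n ≤ ((K2h : ℝ) + 10) * wd μ s n := mul_le_mul_of_nonneg_right (by linarith) hw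
  have key := profX97 (N := Γ.N) hn Γ.p_pos hX ((hv1.trans g1).trans g2) (hv2.trans g2)
    (profL97 hv hr h1 h2 hO v v' (by linarith) (by linarith))
  rwa [mul_one] at key

end win

end

end Pool.Agent.W_7d29a1_C1.E2H97
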