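import Pool.Agent.W_7d29a1_C1.LukG42
import Pool.Agent.W_7d29a1_C1.LukB42

/-!
MP_7d29a1_pr, attractor route, [C1] SEP: THE LANE BLOCK OF THE CONCRETE WINDOW. (helper42; over helper30's `blk30`, `lan30`)

* `Lw42` : the numbers of one window (the prop `Blk42` = the conclusion of `blk30` at the numbers of the record); `Ta42` : the old masses of
  the slabs are tame; `Ot42` : the clause of the masses of two rows;
* `blkC42` : for ANY pair `(ω, ω')` with `ω' = ω` off `B98`, `ω'` in the lucky block `LE98`, and `ω = ω₀` in the rows `> rl98`, `ω₀` with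
  `Ta42`, `Ot42`: the conclusion of `blk30` (`Blk76` and the cross ratio of the middle slab) = the prop `Bk42`;
* `lukC42` : `Luk`, `Pin76` and the cross ratio (`lan30`) = the prop `Lk42`.
-/

set_option autoImplicit false

namespace Pool.Agent.W_7d29a1_C1.D98

open MeasureTheory Finset
open Pool.Agent.W_7d29a1_F hiding Bw G
open Pool.Agent.W_7d29a1_h4g Pool.Agent.W_7d29a1_HS
open Pool.Agent.W_7d29a1_H hiding ex gg
open Pool.Agent.W_7d29a1_C1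
open Pool.Agent.W_7d29a1_C1.K91 (wt wt_pos)
open Pool.Agent.W_7d29a1_C1.S71 (gl gl_of_mem gl_of_not_mem)
open Pool.Agent.W_7d29a1_C1.U16 (lat16 Far16 bh16 ker)
open Pool.Agent.W_7d29a1_C1.H60
open Pool.Agent.W_7d29a1_C1.G37 (Gm)
open Pool.Agent.W_7d29a1_C1.Tb87 (Mx Mx_pos)
open Pool.Agent.W_7d29a1_C1.Ou37 (OuD Zo bn bn_pos)
open Pool.Agent.W_7d29a1_C1.BP58
open Pool.Agent.W_7d29a1_C1.P24 (Ce24 mem_Ce24)
open Pool.Agent.W_7d29a1_C1.SD53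
open Pool.Agent.W_7d29a1_C1.Lb76
open Pool.Agent.W_7d29a1_C1.Luc30 (Blk42 gx30 mx30 yx30 lan30 tame_congr30 wt_eq30)

noncomputable section

variable {μ : Measure ℝ} {s c C : ℝ} {n₀ : ℕ} {Γ : Cx} {G : Gm} {P : Nm98} {u : ℕ} {κ : ℤ × ℤ}

/-- **THE NUMBERS OF ONE WINDOW**, lane block. -/
structure Lw42 (μ : Measure ℝ) (s c C : ℝ) (Γ : Cx) (G : Gm) (P : Nm98) (q KM : ℝ) (u : ℕ) : Prop where
  hs : Γ.s = s
  hv : G.v = sl μ s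
  hw : G.w u = wd μ s (G.T u)
  fit : Fit98 G P u
  d0 : 0 < P.δ
  rA : P.ρA = P.δ / 32
  rB : P.ρB = P.δ / 32
  kp : P.KpB = P.KpA
  kp0 : 0 ≤ P.KpA
  km0 : 0 ≤ KM
  rM : P.δ / 4 ≤ P.rM
  rM1 : P.rM ≤ 1
  kb : P.Kb * wd μ s (P.T u) ≤ G.kw * G.w u + 1
  kh : G.kw * G.w u + 1 ≤ P.Kl * wd μ s (P.T u)
  w1 : 1 ≤ wd μ s (P.T u)
  hh : |Γ.h| * wd μ s (P.T u) ≤ c / 8 * EE μ s (P.T u)
  blk : Blk42 μ s c C P.δ P.Kb P.Kl P.U0 P.UM q P.KpA KM P.UA P.UB P.YA P.YB P.N (P.nr u)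

/-! ### Geometry -/

/-- A site off the strip of the slab is not a site of the lane block. -/
theorem out_B42 (hv : G.v = sl μ s) (r t : ℕ) (x : ℤ) (hx : G.kw * G.w u + 1 < lat69 μ s t x) :
    ((((r + t : ℕ) : ℤ), x + co98 G u κ r) : Pt) ∉ B98 Γ G P u κ := by
  intro hp
  have h3 := hp.1.2.2
  obtain ⟨g1, g2⟩ := co_floor42 (G := G) (u := u) (κ := κ) r
  have b1 : ((G.base u κ).1 : ℝ) = (G.rcc u κ : ℝ) + (G.T (u - 1) : ℝ) := by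
    show ((G.rcc u κ + G.T (u - 1) : ℤ) : ℝ) = _
    push_cast
    ring
  have f1 := Int.floor_le (G.ctr u κ + G.v * ((G.rcc u κ : ℝ) + (G.T (u - 1) : ℝ)))
  have f2 := Int.lt_floor_add_one (G.ctr u κ + G.v * ((G.rcc u κ : ℝ) + (G.T (u - 1) : ℝ)))
  have b2 : ((G.base u κ).2 : ℝ) = (⌊G.ctr u κ + G.v * ((G.rcc u κ : ℝ) + (G.T (u - 1) : ℝ))⌋ : ℝ) := rfl
  rw [← b2, ← b1] at f1 f2
  unfold lat69 at hx
  rw [← hv] at hx
  push_cast at h3 hx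
  obtain ⟨h4, h5⟩ := abs_le.1 h3
  rcases lt_abs.1 hx with h6 | h6 <;> linarith

/-- The masses of the rows `≥ rl98`. -/
theorem Mx_eq42 {ω ω₀ : Env} (h : ∀ p : Pt, ((rl98 Γ G P u κ : ℕ) : ℤ) < p.1 → ω p = ω₀ p) {i : ℕ} (hi : rl98 Γ G P u κ ≤ i) :
    Mx (wt ω) Γ.p Γ.N i = Mx (wt ω₀) Γ.p Γ.N i := by
  have := Luc30.Mx_eq30 (Γ := Γ) (ωA := ω₀) (ωM := ω) (r := rl98 Γ G P u κ) (T := i - rl98 Γ G P u κ)
    (fun j hj y => wt_eq30 (h _ (by show ((rl98 Γ G P u κ : ℕ) : ℤ) < (j : ℤ); omega)))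
  rwa [Nat.add_sub_cancel' hi] at this

/-- `TameV69` with a higher level. -/
theorem tame_mono42 {g : ℝ} {ω : Env} {H : ℤ → ℝ} (hH : ∀ y, 0 ≤ H y) {r : ℕ} {col : ℤ} {T : ℕ} {W Q Q' : ℝ} {t : ℕ} {x : ℤ} (hQ : Q ≤ Q')
    (h : TameV69 μ s g (wt ω) Γ.p H r col T W Q t x) : TameV69 μ s g (wt ω) Γ.p H r col T W Q' t x := by
  intro k y h1 h2 h3
  exact (h k y h1 h2 h3).trans (mul_le_mul_of_nonneg_right (Real.exp_le_exp.2 hQ) (VX69_nonneg (wt_pos ω) Γ.p_pos _ _ hH _))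

/-- **The clause of the masses of two rows** (helper97's `OuTl`, raw). -/
def Ot42 (μ : Measure ℝ) (s : ℝ) (Γ : Cx) (G : Gm) (P : Nm98) (R X : ℝ) (u : ℕ) (κ : ℤ × ℤ) (ω : Env) : Prop :=
  ∀ c ∈ Zo G R u κ, ∀ c' ∈ Zo G R u κ, rl98 Γ G P u κ ≤ c.1 → rl98 Γ G P u κ ≤ c'.1 →
    bn μ s Γ c'.1 c'.2 ω ≤ Real.exp X * bn μ s Γ c.1 c.2 ω

/-- **The profile letter of a slab.** -/
theorem prl42 {q KM R X Q : ℝ} (L : Lw42 μ s c C Γ G P q KM u) (hN : NoSw98 Γ G u κ) (hreN : G.re u κ < Γ.N) (hR : wd μ s (P.T u) + 1 ≤ R * G.w u)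
    (hX : X ≤ Q * EE μ s (P.T u)) {ω ω₀ : Env} (hO : Ot42 μ s Γ G P R X u κ ω₀)
    (h : ∀ p : Pt, ((rl98 Γ G P u κ : ℕ) : ℤ) < p.1 → ω p = ω₀ p) {r : ℕ} (hr : rl98 Γ G P u κ ≤ r)
    (hr' : r + P.T u ≤ b98 Γ G P u κ) {y : ℤ} (hy : |(y : ℝ) - co98 G u κ r| ≤ wd μ s (P.T u)) :
    Mx (wt ω) Γ.p Γ.N r y ≤ Real.exp (Q * EE μ s (P.T u)) * Real.exp ((P.T u : ℕ) * lam μ s + gw42 Γ G u κ * (sl μ s * (P.T u : ℕ))) *
      Mx (wt ω) Γ.p Γ.N (r + P.T u) (co98 G u κ (r + P.T u)) := by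
  have hb := b98_T (Γ := Γ) (κ := κ) L.fit
  have hra : G.ra u κ - 1 ≤ rl98 Γ G P u κ := (le_ag98 (Γ := Γ) (G := G) (P := P) (u := u) (κ := κ)).trans ag_le_rl98
  have hra1 : 1 ≤ G.ra u κ := ra_pos98
  rw [Mx_eq42 h hr, Mx_eq42 h (hr.trans (Nat.le_add_right _ _))]
  have l1 := co_lat42 (G := G) (u := u) (κ := κ) r
  have l2 := co_lat42 (G := G) (u := u) (κ := κ) (r + P.T u)
  have z1 : (r, y) ∈ Zo G R u κ := by
    refine ⟨by show G.ra u κ ≤ r + 1; omega, by show r ≤ G.re u κ; omega, ?_⟩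
    have e : G.lat (r, y) - G.ctr u κ = ((y : ℝ) - co98 G u κ r) + (G.lat (r, co98 G u κ r) - G.ctr u κ) := by
      unfold Gm.lat
      push_cast
      ring
    rw [e]
    refine (abs_add_le _ _).trans ?_
    linarith
  have z2 : (r + P.T u, co98 G u κ (r + P.T u)) ∈ Zo G R u κ := by
    refine ⟨by show G.ra u κ ≤ r + P.T u + 1; omega, by show r + P.T u ≤ G.re u κ; omega, ?_⟩
    have := L.w1
    exact l2.trans (by linarith)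
  have h1 := hO _ z2 _ z1 (hr.trans (Nat.le_add_right _ _)) hr
  refine (prof42 (μ := μ) (s := s) hN (hra.trans hr) (by omega) (by omega) h1).trans ?_
  refine mul_le_mul_of_nonneg_right (mul_le_mul_of_nonneg_right (Real.exp_le_exp.2 hX) (Real.exp_pos _).le) ?_
  exact (Mx_pos (wt_pos ω₀) Γ.p_pos _ _).le

/-- **The old masses of the slabs of the lane block are tame**, level `(Qv + c/8 Kp) EE (T_r)` (`tam42`, `tam30`). -/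
def Ta42 (μ : Measure ℝ) (s c : ℝ) (Γ : Cx) (G : Gm) (P : Nm98) (Qv : ℝ) (u : ℕ) (κ : ℤ × ℤ) (ω : Env) : Prop :=
  ∀ r : ℕ, rl98 Γ G P u κ ≤ r → r + P.T u ≤ b98 Γ G P u κ → ∀ Kp : ℝ, 0 ≤ Kp → ∀ (t : ℕ) (x : ℤ), t < P.T u →
    lat69 μ s t x ≤ P.Kl * wd μ s (P.T u) + 1 →
    TameV69 μ s (gw42 Γ G u κ) (wt ω) Γ.p (Mx (wt ω) Γ.p Γ.N (r + P.T u)) r (co98 G u κ r) (P.T u) (Kp * wd μ s (P.T u))
      ((Qv + c / 8 * Kp) * EE μ s (P.T u)) t x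

/-! ### The lane block -/

/-- The cross ratio of the middle slab. -/
def Hc42 (μ : Measure ℝ) (s : ℝ) (Γ : Cx) (G : Gm) (P : Nm98) (u : ℕ) (κ : ℤ × ℤ) (ω' : Env) : Prop :=
  ∀ z ∈ Ce24 (co98 G u κ (rl98 Γ G P u κ + P.T u)) (P.δ / 4 * wd μ s (P.T u)),
    ∀ z' ∈ Ce24 (co98 G u κ (rl98 Γ G P u κ + P.T u)) (P.δ / 4 * wd μ s (P.T u)), z < z' →
    ∀ x ∈ Ce24 (co98 G u κ (rl98 Γ G P u κ + 2 * P.T u)) (P.δ / 4 * wd μ s (P.T u)),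
    ∀ y ∈ Ce24 (co98 G u κ (rl98 Γ G P u κ + 2 * P.T u)) (P.δ / 4 * wd μ s (P.T u)), x < y →
    ker (wt ω') Γ.p (rl98 Γ G P u κ + P.T u) ((rl98 Γ G P u κ + 2 * P.T u) - (rl98 Γ G P u κ + P.T u)) z x *
        ker (wt ω') Γ.p (rl98 Γ G P u κ + P.T u) ((rl98 Γ G P u κ + 2 * P.T u) - (rl98 Γ G P u κ + P.T u)) z' y -
      ker (wt ω') Γ.p (rl98 Γ G P u κ + P.T u) ((rl98 Γ G P u κ + 2 * P.T u) - (rl98 Γ G P u κ + P.T u)) z y *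
        ker (wt ω') Γ.p (rl98 Γ G P u κ + P.T u) ((rl98 Γ G P u κ + 2 * P.T u) - (rl98 Γ G P u κ + P.T u)) z' x ≤
      Real.exp (-((P.T u : ℕ) : ℝ) ^ P.cM) *
        (ker (wt ω') Γ.p (rl98 Γ G P u κ + P.T u) ((rl98 Γ G P u κ + 2 * P.T u) - (rl98 Γ G P u κ + P.T u)) z x *
          ker (wt ω') Γ.p (rl98 Γ G P u κ + P.T u) ((rl98 Γ G P u κ + 2 * P.T u) - (rl98 Γ G P u κ + P.T u)) z' y)

/-- **THE CONCLUSION**: `Blk76` of the window, numbers `exp (x EE (T_r))`, and the cross ratio. -/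
def Bk42 (μ : Measure ℝ) (s c C : ℝ) (Γ : Cx) (G : Gm) (P : Nm98) (Q q KM : ℝ) (u : ℕ) (κ : ℤ × ℤ) (ω ω' : Env) : Prop :=
  (∃ ωA ωM : Env, Blk76 Γ ω ωA ωM ω' (rl98 Γ G P u κ) (rl98 Γ G P u κ + P.T u) (rl98 Γ G P u κ + 2 * P.T u)
      (rl98 Γ G P u κ + 3 * P.T u) {co98 G u κ (rl98 Γ G P u κ)}
      ↑(Ce24 (co98 G u κ (rl98 Γ G P u κ)) (P.δ / 4 * wd μ s (P.T u)))
      ↑(Ce24 (co98 G u κ (rl98 Γ G P u κ + P.T u)) (P.δ / 4 * wd μ s (P.T u)))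
      {co98 G u κ (rl98 Γ G P u κ + 2 * P.T u)}
      ↑(Ce24 (co98 G u κ (rl98 Γ G P u κ + 2 * P.T u)) (P.δ / 4 * wd μ s (P.T u)))
      ↑(Ce24 (co98 G u κ (rl98 Γ G P u κ + 3 * P.T u)) (P.δ / 4 * wd μ s (P.T u)))
      (Real.exp ((P.LA - (Q + c / 4)) * EE μ s (P.T u))) (Real.exp (gx30 c C P.U0 q P.Kl P.KpA P.UA * EE μ s (P.T u)))
      (Real.exp (yx30 c P.U0 q P.Kl P.KpA * EE μ s (P.T u)))
      (Real.exp ((P.LB - (Q + c / 4)) * EE μ s (P.T u))) (Real.exp (gx30 c C P.U0 q P.Kl P.KpA P.UB * EE μ s (P.T u)))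
      (Real.exp (yx30 c P.U0 q P.Kl P.KpA * EE μ s (P.T u)))
      (Real.exp (-((P.qM + Q + c) * EE μ s (P.T u)))) (Real.exp (mx30 c P.UM q P.Kl KM * EE μ s (P.T u)))) ∧
    Hc42 μ s Γ G P u κ ω'

/-- **THE LUCK**: `Luk` and `Pin76` of the rows `(rl98, rl98 + 2 T_r]`, and the cross ratio of the middle slab. -/
def Lk42 (μ : Measure ℝ) (s c C : ℝ) (Γ : Cx) (G : Gm) (P : Nm98) (Q q KM : ℝ) (u : ℕ) (κ : ℤ × ℤ) (ω ω' : Env) : Prop :=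
  Luk Γ (rl98 Γ G P u κ) (rl98 Γ G P u κ + 2 * P.T u) {co98 G u κ (rl98 Γ G P u κ)}
      ↑(Ce24 (co98 G u κ (rl98 Γ G P u κ)) (P.δ / 4 * wd μ s (P.T u))) Set.univ
      (Real.exp (((P.LA - (Q + c / 4)) + (P.LB - (Q + c / 4)) - (P.qM + Q + c) - 1) * EE μ s (P.T u)))
      (Real.exp ((gx30 c C P.U0 q P.Kl P.KpA P.UB + mx30 c P.UM q P.Kl KM + gx30 c C P.U0 q P.Kl P.KpA P.UA + 1) * EE μ s (P.T u)))
      (Real.exp ((gx30 c C P.U0 q P.Kl P.KpA P.UB + mx30 c P.UM q P.Kl KM + yx30 c P.U0 q P.Kl P.KpA + 1) * EE μ s (P.T u))) ω ω' ∧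
    Pin76 Γ (rl98 Γ G P u κ) (rl98 Γ G P u κ + P.T u) (rl98 Γ G P u κ + 2 * P.T u)
      ↑(Ce24 (co98 G u κ (rl98 Γ G P u κ + P.T u)) (P.δ / 4 * wd μ s (P.T u)))
      ↑(Ce24 (co98 G u κ (rl98 Γ G P u κ + 2 * P.T u)) (P.δ / 4 * wd μ s (P.T u)))
      (Real.exp ((gx30 c C P.U0 q P.Kl P.KpA P.UB + mx30 c P.UM q P.Kl KM + yx30 c P.U0 q P.Kl P.KpA + 1) * EE μ s (P.T u)))
      (Real.exp (-((P.LB - (Q + c / 4)) - (P.qM + Q + c) - yx30 c P.U0 q P.Kl P.KpA - mx30 c P.UM q P.Kl KM) * EE μ s (P.T u))) ω ω' ∧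
    Hc42 μ s Γ G P u κ ω'

/-- **THE LANE BLOCK OF THE WINDOW**, for any pair of environments. -/
theorem blkC42 [IsProbabilityMeasure μ] (h0 : In μ s c C n₀) {Rt X Q q Qv KM : ℝ} {ω₀ ω ω' : Env} (L : Lw42 μ s c C Γ G P q KM u)
    (hQv : Qv ≤ q) (hRt : wd μ s (P.T u) + 1 ≤ Rt * G.w u) (hX : X ≤ Q * EE μ s (P.T u)) (hN : NoSw98 Γ G u κ) (hreN : G.re u κ < Γ.N)
    (hTa : Ta42 μ s c Γ G P Qv u κ ω₀) (hOT : Ot42 μ s Γ G P Rt X u κ ω₀) (hag : ∀ p : Pt, ((rl98 Γ G P u κ : ℕ) : ℤ) < p.1 → ω p = ω₀ p)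
    (hoff : ∀ p : Pt, p ∉ B98 Γ G P u κ → ω' p = ω p) (hLE : ω' ∈ LE98 μ s c Γ G P u κ) : Bk42 μ s c C Γ G P Q q KM u κ ω ω' := by
  have hc0 := h0.c0
  have hb := b98_T (Γ := Γ) (κ := κ) L.fit
  have hra : G.ra u κ - 1 ≤ rl98 Γ G P u κ := (le_ag98 (Γ := Γ) (G := G) (P := P) (u := u) (κ := κ)).trans ag_le_rl98
  have hra1 : 1 ≤ G.ra u κ := ra_pos98
  have eb : b98 Γ G P u κ = rl98 Γ G P u κ + 3 * P.T u := rfl
  have hE0 : 0 ≤ EE μ s (P.T u) := zero_le_one.trans (one_le_EE _)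
  -- the tame masses of a slab
  have key : ∀ r : ℕ, rl98 Γ G P u κ ≤ r → r + P.T u ≤ b98 Γ G P u κ → ∀ Kp : ℝ, 0 ≤ Kp → ∀ (t : ℕ) (x : ℤ), t < P.T u →
      lat69 μ s t x ≤ G.kw * G.w u + 1 + 1 →
      TameV69 μ s (gw42 Γ G u κ) (wt ω) Γ.p (Mx (wt ω) Γ.p Γ.N (r + P.T u)) r (co98 G u κ r) (P.T u) (Kp * wd μ s (P.T u))
        ((q + c / 4 * Kp) * EE μ s (P.T u)) t x := by
    intro r hr hr' Kp hKp t x ht hx
    have h1 := hTa r hr hr' Kp hKp t x ht (hx.trans (by linarith [L.kh]))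
    have hM0 : ∀ y, 0 ≤ Mx (wt ω₀) Γ.p Γ.N (r + P.T u) y := fun y => (Mx_pos (wt_pos ω₀) Γ.p_pos _ _).le
    have h2 : TameV69 μ s (gw42 Γ G u κ) (wt ω₀) Γ.p (Mx (wt ω₀) Γ.p Γ.N (r + P.T u)) r (co98 G u κ r) (P.T u)
        (Kp * wd μ s (P.T u)) ((q + c / 4 * Kp) * EE μ s (P.T u)) t x :=
      tame_mono42 hM0 (mul_le_mul_of_nonneg_right (by nlinarith) hE0) h1
    rw [Mx_eq42 hag (hr.trans (Nat.le_add_right _ _))]
    exact tame_congr30 ht.le (fun k h3 h4 => p_g42 hN L.hs (by omega) (by omega)) (fun p h3 h4 => (hag p (by omega)).symm) h2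
  -- the profile letters
  have prf := fun {r : ℕ} hr hr' {y : ℤ} hy => prl42 (ω := ω) (ω₀ := ω₀) L hN hreN hRt hX hOT hag (r := r) hr hr' (y := y) hy
  have w0 : (0 : ℝ) ≤ wd μ s (P.T u) := zero_le_one.trans L.w1
  have hcol : ∀ r : ℕ, |((co98 G u κ (r + P.T u) : ℤ) : ℝ) - (co98 G u κ r : ℤ) - sl μ s * (P.N * P.nr u : ℕ)| ≤ wd μ s (P.N * P.nr u) := by
    intro r
    have h1 := co_step42 (G := G) (u := u) (κ := κ) r (P.T u)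
    rw [L.hv, Int.cast_sub] at h1
    exact h1.trans L.w1
  have e21 : rl98 Γ G P u κ + 2 * P.T u = rl98 Γ G P u κ + P.T u + P.T u := by ring
  have e32 : rl98 Γ G P u κ + 3 * P.T u = rl98 Γ G P u κ + 2 * P.T u + P.T u := by ring
  exact L.blk Γ (gw42 Γ G u κ) (rl98 Γ G P u κ) (rl98 Γ G P u κ + P.T u) (rl98 Γ G P u κ + 2 * P.T u) (rl98 Γ G P u κ + 3 * P.T u)
    (co98 G u κ (rl98 Γ G P u κ)) (co98 G u κ (rl98 Γ G P u κ + P.T u)) (co98 G u κ (rl98 Γ G P u κ + 2 * P.T u))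
    (co98 G u κ (rl98 Γ G P u κ + 3 * P.T u)) rfl e21 e32 (hcol _) (by rw [e21]; exact hcol _) (by rw [e32]; exact hcol _)
    (by omega) (fun k h1 h2 => p_g42 hN L.hs (by omega) (by omega))
    ((mul_le_mul_of_nonneg_right gw_abs42 w0).trans L.hh) (G.kw * G.w u + 1) L.kb L.kh ω ω'
    (fun p hp => hoff p fun h1 => by
      have := h1.2.1
      omega)
    (fun p hp => hoff p fun h1 => by
      have := h1.2.2
      rw [eb] at this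
      omega)
    (fun t x _ hx => hoff _ (out_B42 L.hv _ t x hx)) (fun t x _ hx => hoff _ (out_B42 L.hv _ t x hx))
    (fun t x _ hx => hoff _ (out_B42 L.hv _ t x hx)) P.LA P.LB P.cM P.qM (P.rM * wd μ s (P.T u))
    (mul_le_mul_of_nonneg_right L.rM w0) ((mul_le_mul_of_nonneg_right L.rM1 w0).trans (one_mul _).le)
    (by
      have h1 := hLE
      unfold LE98 LA98 MM98 LB98 at h1
      rw [L.rA, L.rB, L.kp] at h1
      exact h1)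
    (fun t x ht _ hx => key _ le_rfl (by rw [eb]; omega) _ L.kp0 t x ht hx)
    (fun t x ht _ hx => by
      have := key (rl98 Γ G P u κ + P.T u) (by omega) (by rw [eb]; omega) _ L.km0 t x ht hx
      rw [← e21] at this
      exact this)
    (fun t x ht _ hx => by
      have := key (rl98 Γ G P u κ + 2 * P.T u) (by omega) (by rw [eb]; omega) _ L.kp0 t x ht hx
      rw [← e32] at this
      exact this)
    Q (prf le_rfl (by rw [eb]; omega) (by rw [sub_self, abs_zero]; exact w0))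
    (fun y hy => by
      have := prf (r := rl98 Γ G P u κ + P.T u) (by omega) (by rw [eb]; omega) (y := y)
        ((mem_Ce24.1 hy).trans ((mul_le_mul_of_nonneg_right L.rM1 w0).trans (one_mul _).le))
      rw [← e21] at this
      exact this)
    (by
      have := prf (r := rl98 Γ G P u κ + 2 * P.T u) (by omega) (by rw [eb]; omega) (y := co98 G u κ (rl98 Γ G P u κ + 2 * P.T u))
        (by rw [sub_self, abs_zero]; exact w0)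
      rw [← e32] at this
      exact this)

/-- **THE LUCK OF THE WINDOW** from the lane block. -/
theorem lukB42 (h0 : In μ s c C n₀) [IsProbabilityMeasure μ] {Q q KM : ℝ} {ω ω' : Env} (hKl : 0 ≤ P.Kl) (hUB : 0 ≤ P.UB)
    (hLA : yx30 c P.U0 q P.Kl P.KpA + 1 ≤ P.LA - (Q + c / 4)) (h : Bk42 μ s c C Γ G P Q q KM u κ ω ω') :
    Lk42 μ s c C Γ G P Q q KM u κ ω ω' := by
  obtain ⟨h3, h4⟩ := lan30 (one_le_EE _) h.1 hLA (zero_le_one.trans h0.C1) hUB (mul_nonneg h0.c0.le hKl)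
  exact ⟨h3, h4, h.2⟩

/-- **THE LUCK OF THE WINDOW** for the lucky contents of the lane block. -/
theorem lukC42 [IsProbabilityMeasure μ] (h0 : In μ s c C n₀) {Rt X Q q Qv KM : ℝ} {KL : ℕ → ℤ × ℤ → Set Env} {ω η : Env}
    (L : Lw42 μ s c C Γ G P q KM u) (hQv : Qv ≤ q) (hRt : wd μ s (P.T u) + 1 ≤ Rt * G.w u) (hX : X ≤ Q * EE μ s (P.T u))
    (hKl : 0 ≤ P.Kl) (hUB : 0 ≤ P.UB) (hLA : yx30 c P.U0 q P.Kl P.KpA + 1 ≤ P.LA - (Q + c / 4)) (hN : NoSw98 Γ G u κ)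
    (hreN : G.re u κ < Γ.N) (hTa : Ta42 μ s c Γ G P Qv u κ ω) (hOT : Ot42 μ s Γ G P Rt X u κ ω) (hη : η ∈ Lc98 μ s c Γ G P KL u κ ω) :
    Lk42 μ s c C Γ G P Q q KM u κ ω (gl (B98 Γ G P u κ) η ω) :=
  lukB42 h0 hKl hUB hLA (blkC42 h0 L hQv hRt hX hN hreN hTa hOT (fun _ _ => rfl) (fun _ hp => gl_of_not_mem hp η ω) hη.1)

end

end Pool.Agent.W_7d29a1_C1.D98
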