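import Pool.Agent.W_7d29a1_C1.WqS98
import Pool.Agent.W_7d29a1_C1.LukT42
import Pool.Agent.W_7d29a1_C1.E2H97

/-!
MP_7d29a1_pr, [C1] attractor route, SEP: THE PARTS OF `WQ28` OF ONE WINDOW OVER THE FAMILIES OF FamS98. (helper98)

* `Wc98` : the context of one window (`Win52`, `aS`, `kb`, `NoSw98`, typical contents `Tc98`, and any further clause `Φ`);
* **`evnW98`** : `WQ19` from a static join, the clauses `Φ` given in the form `Evn`;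
* `TF98` : the part of the typical set which the gate may read; `sub98`;
* `mo_core98` : the mouth lies in the core; **`gw98`** : the field `gw` (`gwT52`);
* **`lk98`** : the block of the lanes (`lukC42`); **`co98s`** : the field `core` (`core98_18`); **`ra98`** : the field `ratio` (`ratT52`).
-/

set_option autoImplicit false

namespace Pool.Agent.W_7d29a1_C1.Q49

open Finset MeasureTheory Filter
open Pool.Agent.W_7d29a1_F hiding Bw G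
open Pool.Agent.W_7d29a1_h4g Pool.Agent.W_7d29a1_H Pool.Agent.W_7d29a1_HS
open Pool.Agent.W_7d29a1_C1.K91 (wt wt_pos)
open Pool.Agent.W_7d29a1_C1.K91P (bw)
open Pool.Agent.W_7d29a1_C1.U16 (ker)
open Pool.Agent.W_7d29a1_C1.H60
open Pool.Agent.W_7d29a1_C1.H40 (Tk)
open Pool.Agent.W_7d29a1_C1.G37 (Gm Wok gmW)
open Pool.Agent.W_7d29a1_C1.S71 (gl)
open Pool.Agent.W_7d29a1_C1.Gt66 (Pa Ex66)
open Pool.Agent.W_7d29a1_C1.P24 (Ce24 mem_Ce24)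
open Pool.Agent.W_7d29a1_C1.PW58
open Pool.Agent.W_7d29a1_C1.SF98
open Pool.Agent.W_7d29a1_C1.P25
open Pool.Agent.W_7d29a1_C1.N49
open Pool.Agent.W_7d29a1_C1.D98
open Pool.Agent.W_7d29a1_C1.SD53
open Pool.Agent.W_7d29a1_C1.WO57
open Pool.Agent.W_7d29a1_C1.WrS19
open Pool.Agent.W_7d29a1_C1.WrM19
open Pool.Agent.W_7d29a1_C1.Lb76 (Pin76)
open Pool.Agent.W_7d29a1_C1.MC71 (Inn GwIn)
open Pool.Agent.W_7d29a1_C1.MM28 (WQ28 NQ28 Fb28)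
open Pool.Agent.W_7d29a1_C1.NM32 (nq32 Nb32 Wp32 wq32)
open Pool.Agent.W_7d29a1_C1.Gt52 (yN52)
open Pool.Agent.W_7d29a1_C1.E2H97 (OuTl OuG97)
open Pool.Agent.W_7d29a1_C1.Luc30 (gx30 mx30 yx30)
open scoped ENNReal

noncomputable section

attribute [local instance 10] Classical.propDecidable

variable {P : Pre} {D : Dat} {μ : Measure ℝ} {s c : ℝ} {N : NmF} {F : Cf98} {Γ : Cx} {G : Gm} {mt τ0 : ℕ}
  {E : ℕ → ℝ} {u : ℕ} {κ : ℤ × ℤ}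

/-! ### The context of one window -/

/-- **THE CONTEXT OF ONE WINDOW.** -/
structure Wc98 (μ : Measure ℝ) (s c kap : ℝ) (P : Pre) (N : NmF) (F : Cf98) (n₁ : ℕ) (Γ : Cx) (G : Gm) (mt τ0 : ℕ) (E : ℕ → ℝ) (u : ℕ)
    (κ : ℤ × ℤ) : Prop where
  w : Win52 μ s P.kw kap n₁ (N Γ G E) (F.nr μ s c Γ G E) Γ G mt τ0 E u κ
  aS : G.w u / 2 + 1 ≤ P.aS * G.w u
  kb : G.kb = P.kb
  nosw : NoSw98 Γ G u κ
  tc : ∀ ω ∈ Tx ((Fam98o μ s c P N F).TT Γ G E) (fun u => E u / 16) u κ, Tc98 μ s c P N F Γ G E u κ ω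

variable {kap : ℝ} {n₁ n₂ : ℕ}

theorem Wc98.mono (h : Wc98 μ s c kap P N F n₂ Γ G mt τ0 E u κ) (hn : n₁ ≤ n₂) : Wc98 μ s c kap P N F n₁ Γ G mt τ0 E u κ :=
  ⟨h.w.mono hn, h.aS, h.kb, h.nosw, h.tc⟩

/-- A larger constant of the tilt. -/
theorem Win52.monoK [IsProbabilityMeasure μ] {kw kap' : ℝ} {Q : Nm98} {R : Nr98} (h : Win52 μ s kw kap n₁ Q R Γ G mt τ0 E u κ) (hk : kap ≤ kap') :
    Win52 μ s kw kap' n₁ Q R Γ G mt τ0 E u κ :=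
  ⟨h.hs, h.hv, h.v0, h.v1, h.hk, h.hu, h.huM, h.hM, h.hT, h.w1, h.hw, h.hE, h.E0,
    h.tilt.trans (mul_le_mul_of_nonneg_right hk (EE_pos _).le), h.cell, h.rc, h.reN, h.ok⟩

/-- The column constant of the instance. -/
theorem evn_kb98 : Evn P D μ s fun _ _ _ _ _ _ G _ _ _ => G.kb = P.kb :=
  Evn.of_all fun _ _ _ _ _ _ _ _ _ _ _ _ _ _ _ _ _ _ _ _ _ _ _ _ _ _ _ _ _ => rfl

/-- **`WQ19` FROM A STATIC JOIN**, further clauses `Φ` in the form `Evn`. -/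
theorem evnW98 [IsProbabilityMeasure μ] {C : ℝ} {n₀ : ℕ} (hI : In μ s c C n₀)
    (hE9 : ∀ᶠ n : ℕ in Filter.atTop, (n : ℝ) ^ (1 / 9 : ℝ) ≤ EE μ s n) (hN : OkE41 P D μ s N (F.nr μ s c)) {kap : ℝ} (hkap : 0 < kap)
    {p₀ cF : ℝ} {c₁ : ℝ≥0∞} {Φ : Cx → Gm → ℕ → ℕ → (ℕ → ℝ) → ℕ → ℤ × ℤ → Prop}
    (hΦ : Evn P D μ s fun _ _ _ _ _ Γ G mt τ0 E => ∀ u, τ0 < u → u < G.M → ∀ κ : KS Γ G mt u, Φ Γ G mt τ0 E u κ.1)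
    (J : ∃ n₁ : ℕ, ∀ (Γ : Cx) (G : Gm) (mt τ0 : ℕ) (E : ℕ → ℝ) (u : ℕ) (κ : ℤ × ℤ), Wc98 μ s c kap P N F n₁ Γ G mt τ0 E u κ →
      Φ Γ G mt τ0 E u κ → ∃ (Q : NQ28) (B₂ : Set Pt)
        (Cw : Pa (5 * Q.n) → Pa (5 * Q.n) → Set Env) (TF : Set Env) (Lk : Env → Set Env) (Mi Mo C1 C2 : Set ℤ),
        WQ28 μ s c Γ G u κ Q B₂ Cw (Tx ((Fam98o μ s c P N F).TT Γ G E) (fun u => E u / 16) u κ) TF
          (LuA98 μ s c Γ G (N Γ G E) (F.nr μ s c Γ G E) u κ) Lk Mi Mo C1 C2 (4 / 3) p₀ ((P.ε0 + 4 * cF) * E u) (cF * E u) c₁) :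
    Evn P D μ s (WQ19 (Fam98o μ s c P N F) P μ s c (4 / 3) p₀ cF c₁) := by
  obtain ⟨n₁, J⟩ := J
  refine ((((evn_win52 hI hE9 hkap n₁ hN).and evn_aS98).and evn_kb98).and hΦ).mono fun q η A lam n Γ G mt τ0 E h u hu huM κ hne => ?_
  obtain ⟨ω, hω⟩ := hne
  exact J Γ G mt τ0 E u κ.1 ⟨h.1.1.1 u hu huM κ, h.1.1.2 u hu, h.1.2, (tx98 hω).nosw, fun ω hω => tx98 hω⟩ (h.2 u hu huM κ)

/-! ### The set `TF` -/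

/-- **The part of the typical set which the gate may read.** -/
abbrev TF98 (μ : Measure ℝ) (s c : ℝ) (N : NmF) (F : Cf98) (Γ : Cx) (G : Gm) (E : ℕ → ℝ) (u : ℕ) (κ : ℤ × ℤ) : Set Env :=
  TP98 μ s c Γ G (N Γ G E) (F.nr μ s c Γ G E) u κ ∩ OuG97 μ s Γ G E F.rc (F.sgm * F.rc) (F.sgm * F.rc) F.sgm F.r0 (F.sgm * F.r0)
    (F.sgm * F.r0) F.sgm F.R0 (F.sgm * F.R0) F.R2 (F.sgm * F.R2) F.R1 (F.sgm * F.R1) (E u / 16) (rl98 Γ G (N Γ G E) u κ) u κ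

theorem sub98 {ω : Env} (h : Tc98 μ s c P N F Γ G E u κ ω) : ω ∈ TF98 μ s c N F Γ G E u κ :=
  ⟨h.tp, E2H97.OuG_of97 h.rc h.r0 h.R0 h.R2 h.R1⟩

/-! ### The mouth and the field `gw` -/

/-- **The mouth lies in the core.** -/
theorem mo_core98 {Q : Nm98} (hv : G.v = sl μ s) (h : Q.δ / 4 * wd μ s (Q.T u) + 1 ≤ Q.K1 u * wd μ s (Q.n u)) {v : ℤ}
    (hm : v ∈ mo98 μ s Γ G Q u κ) : |lt μ s (co98 G u κ (ag98 Γ G Q u κ)) (5 * Q.n u) v| ≤ Q.K1 u * wd μ s (Q.n u) := by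
  have h1 := mem_Ce24.1 (Finset.mem_coe.1 hm)
  have h2 := Int.floor_le (G.ctr u κ + G.v * ((ag98 Γ G Q u κ : ℕ) : ℝ))
  have h3 := Int.lt_floor_add_one (G.ctr u κ + G.v * ((ag98 Γ G Q u κ : ℕ) : ℝ))
  have h4 := Int.floor_le (G.ctr u κ + G.v * ((rl98 Γ G Q u κ : ℕ) : ℝ))
  have h5 := Int.lt_floor_add_one (G.ctr u κ + G.v * ((rl98 Γ G Q u κ : ℕ) : ℝ))
  have e1 : ((rl98 Γ G Q u κ : ℕ) : ℝ) = ((ag98 Γ G Q u κ : ℕ) : ℝ) + 5 * (Q.n u : ℝ) := by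
    unfold D98.rl98
    push_cast
    ring
  have e : lt μ s (co98 G u κ (ag98 Γ G Q u κ)) (5 * Q.n u) v = ((v : ℝ) - (co98 G u κ (rl98 Γ G Q u κ) : ℤ)) +
      ((⌊G.ctr u κ + G.v * ((rl98 Γ G Q u κ : ℕ) : ℝ)⌋ : ℤ) - (⌊G.ctr u κ + G.v * ((ag98 Γ G Q u κ : ℕ) : ℝ)⌋ : ℤ) -
        G.v * (5 * (Q.n u : ℝ))) := by
    unfold lt co98
    rw [← hv]
    push_cast
    ring
  rw [e1] at h4 h5
  rw [e, abs_le]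
  obtain ⟨g1, g2⟩ := abs_le.1 h1
  rw [e1]
  constructor <;> linarith

/-- **THE FIELD `gw`.** -/
theorem gw98 [IsProbabilityMeasure μ] {C : ℝ} {n₀ : ℕ} (hI : In μ s c C n₀) (W : Wc98 μ s c kap P N F n₁ Γ G mt τ0 E u κ)
    {kc R G₀ : ℝ} {j M : ℕ} {A B p₀ ε : ℝ} {n₂ : ℕ}
    (H : NumT58 μ s c kc R G₀ j (N Γ G E).K1h M (N Γ G E).K2h (N Γ G E).Uc (N Γ G E).Qc (N Γ G E).U1 (N Γ G E).Q1 (N Γ G E).U
      (N Γ G E).Q A B (N Γ G E).Y p₀ ε n₂ (G.T u) ((N Γ G E).n u) ((N Γ G E).m u) ((N Γ G E).K1 u) ((N Γ G E).K2 u))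
    (hU : 0 ≤ (N Γ G E).U) (hUQ : 0 ≤ (N Γ G E).Uc + (N Γ G E).Qc) (hp₀ : 0 < p₀) (hkw : R ≤ P.kw) (hR : R + 1 ≤ F.R0)
    (hmo : (N Γ G E).δ / 4 * wd μ s ((N Γ G E).T u) + 1 ≤ (N Γ G E).K1 u * wd μ s ((N Γ G E).n u))
    (hδ : 0 ≤ (N Γ G E).δ / 4 * wd μ s ((N Γ G E).T u)) {x y y' gu z : ℝ} (lk : LkP98 μ s c Γ G (N Γ G E) (F.nr μ s c Γ G E) u κ (TF98 μ s c N F Γ G E u κ) x y y' gu z)
    (hb : 2 * (F.sgm * F.R0 + 1 / 16) + 8 + 2 * (kap * (kc + 1 + R)) + ((N Γ G E).Uc + (N Γ G E).Qc) ≤ G₀) :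
    GwIn μ s c Γ (G.win u κ) (B98 Γ G (N Γ G E) u κ) ((N Γ G E).K1 u) ((N Γ G E).K2 u) ((N Γ G E).n u) ((N Γ G E).m u)
      (ag98 Γ G (N Γ G E) u κ) (rl98 Γ G (N Γ G E) u κ + 2 * (N Γ G E).T u) (co98 G u κ (ag98 Γ G (N Γ G E) u κ))
      (co98 G u κ (rl98 Γ G (N Γ G E) u κ)) (cw98 μ s Γ G (N Γ G E) u κ M A B ((N Γ G E).n u)) (TF98 μ s c N F Γ G E u κ)
      (LuA98 μ s c Γ G (N Γ G E) (F.nr μ s c Γ G E) u κ) (Lc98 μ s c Γ G (N Γ G E) (KL98 μ s Γ G (N Γ G E) (F.nr μ s c Γ G E)) u κ)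
      {co98 G u κ (rl98 Γ G (N Γ G E) u κ)} (mo98 μ s Γ G (N Γ G E) u κ) ((N Γ G E).K2h + 3) (N Γ G E).Q (N Γ G E).U (N Γ G E).Y A
      (eN58 μ s c (N Γ G E).U1 (N Γ G E).Q1 (F.sgm * F.R0 * E u + E u / 16 + 2 * (1 * EE μ s ((N Γ G E).n u)))
        (kap * (kc + 1 + R) * EE μ s (G.T u)) ((N Γ G E).n u) ((N Γ G E).K1 u) ((N Γ G E).K2 u))
      (Real.exp (yN52 μ s (N Γ G E).Uc (N Γ G E).Qc (F.sgm * F.R0 * E u + E u / 16) (kap * (kc + 1 + R) * EE μ s (G.T u))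
        ((N Γ G E).n u))) p₀ (Real.exp (x * EE μ s ((N Γ G E).T u))) (Real.exp (gu * EE μ s ((N Γ G E).T u)))
      (Real.exp (y * EE μ s ((N Γ G E).T u))) (ENNReal.ofReal (N Γ G E).pL) := by
  have hF := W.w.ok.fit u W.w.hu
  have hre := rl_T98 (Γ := Γ) (κ := κ) hF
  have w1 := H.sc.w1
  have wT := H.sc.wnT
  have leR := H.le_R
  have lek := H.le_kc
  have k12 : ((N Γ G E).K1 u : ℝ) + 3 ≤ (N Γ G E).K2 u := by exact_mod_cast H.K12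
  have hw := W.w.hw u
  have wT1 : 1 ≤ wd μ s (G.T u) := w1.trans wT
  have hR0 : ((N Γ G E).K2 u + 9 : ℝ) * wd μ s ((N Γ G E).n u) + 1 ≤ F.R0 * G.w u := by
    rw [hw]
    have := mul_le_mul_of_nonneg_right hR (zero_le_one.trans wT1)
    linarith
  have hz : co98 G u κ (rl98 Γ G (N Γ G E) u κ) ∈ mo98 μ s Γ G (N Γ G E) u κ := by
    refine Finset.mem_coe.2 (mem_Ce24.2 ?_)
    rw [sub_self, abs_zero]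
    exact hδ
  refine Gt52.gwT52 hI H hU hUQ hp₀ W.w.ok W.w.hu W.w.hs W.w.hv W.w.rc (W.w.hw u) W.w.reN (by rw [W.w.hk]; exact hkw) W.nosw W.w.tilt
    E2H97.meas_OuG97 (MJ42.dec_off42 (E2H97.offSg97 W.w.ok W.w.hu W.w.reN)) (fun ω hω η hη => (lk ω hω η hη).1)
    (fun v hv => mo_core98 W.w.hv hmo hv) rfl hz (x := F.sgm * F.R0 + 1 / 16) ?_ ?_ hb
  · intro ω hω v v' hv hv'
    have hw0 : 0 ≤ wd μ s ((N Γ G E).n u) := zero_le_one.trans w1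
    have h1 : (((N Γ G E).K1 u : ℕ) : ℝ) * wd μ s ((N Γ G E).n u) ≤ (((N Γ G E).K2 u : ℕ) + 9 : ℝ) * wd μ s ((N Γ G E).n u) :=
      mul_le_mul_of_nonneg_right (by linarith) hw0
    have h2 : rl98 Γ G (N Γ G E) u κ = ag98 Γ G (N Γ G E) u κ + 5 * (N Γ G E).n u := rfl
    have h3 := le_ag98 (Γ := Γ) (G := G) (P := N Γ G E) (u := u) (κ := κ)
    have h4 := ra_pos98 (G := G) (u := u) (κ := κ)
    have g1 : |lt μ s ⌊G.ctr u κ + G.v * ((ag98 Γ G (N Γ G E) u κ : ℕ) : ℝ)⌋ (5 * (N Γ G E).n u) v| ≤ _ := hv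
    have g2 : |lt μ s ⌊G.ctr u κ + G.v * ((ag98 Γ G (N Γ G E) u κ : ℕ) : ℝ)⌋ (5 * (N Γ G E).n u) v'| ≤ _ := hv'
    exact E2H97.profL97 W.w.hv le_rfl (by omega) (by omega) (E2H97.OuG97.tR0 hω.2) v v' (by linarith) (by linarith)
  · rw [W.w.hE u]
    linarith

/-! ### The lanes -/

/-- **THE BLOCK OF THE LANES** (`lukC42`): `Rt, X` = radius and level of the profile clause, `QL` = its level in the unit `EE (T_r)`. -/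
theorem lk98 [IsProbabilityMeasure μ] {C : ℝ} {n₀ : ℕ} (hI : In μ s c C n₀) {Q : Nm98} {R : Nr98} {Rt X QL qt Qv KM : ℝ} {TF : Set Env}
    (L : Lw42 μ s c C Γ G Q qt KM u) (hQv : Qv ≤ qt) (hRt : wd μ s (Q.T u) + 1 ≤ Rt * G.w u) (hX : X ≤ QL * EE μ s (Q.T u))
    (hKl : 0 ≤ Q.Kl) (hUB : 0 ≤ Q.UB) (hLA : yx30 c Q.U0 qt Q.Kl Q.KpA + 1 ≤ Q.LA - (QL + c / 4)) (hreN : G.re u κ < Γ.N)
    (h1 : TF ⊆ TP98 μ s c Γ G Q R u κ) (h2 : TF ⊆ OuTl μ s Γ G Rt X (rl98 Γ G Q u κ) u κ)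
    (h3 : ∀ ω ∈ TF, Ta42 μ s c Γ G Q Qv u κ ω) :
    LkP98 μ s c Γ G Q R u κ TF ((Q.LA - (QL + c / 4)) + (Q.LB - (QL + c / 4)) - (Q.qM + QL + c) - 1)
      (gx30 c C Q.U0 qt Q.Kl Q.KpA Q.UB + mx30 c Q.UM qt Q.Kl KM + yx30 c Q.U0 qt Q.Kl Q.KpA + 1)
      (gx30 c C Q.U0 qt Q.Kl Q.KpA Q.UB + mx30 c Q.UM qt Q.Kl KM + yx30 c Q.U0 qt Q.Kl Q.KpA + 1)
      (gx30 c C Q.U0 qt Q.Kl Q.KpA Q.UB + mx30 c Q.UM qt Q.Kl KM + gx30 c C Q.U0 qt Q.Kl Q.KpA Q.UA + 1)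
      ((Q.LB - (QL + c / 4)) - (Q.qM + QL + c) - yx30 c Q.U0 qt Q.Kl Q.KpA - mx30 c Q.UM qt Q.Kl KM) := by
  intro ω hω η hη
  obtain ⟨k1, k2, k3⟩ := lukC42 hI L hQv hRt hX hKl hUB hLA (TP98.nosw (h1 hω)) hreN (h3 ω hω) (h2 hω) hη
  exact ⟨k1, k2, k3⟩

/-! ### All windows above a threshold -/

/-- **ALL WINDOWS ABOVE A THRESHOLD.** -/
def Ew98 (μ : Measure ℝ) (s c kap : ℝ) (P : Pre) (N : NmF) (F : Cf98) (φ : Cx → Gm → ℕ → ℕ → (ℕ → ℝ) → ℕ → ℤ × ℤ → Prop) : Prop :=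
  ∃ n₁ : ℕ, ∀ (Γ : Cx) (G : Gm) (mt τ0 : ℕ) (E : ℕ → ℝ) (u : ℕ) (κ : ℤ × ℤ), Wc98 μ s c kap P N F n₁ Γ G mt τ0 E u κ →
    φ Γ G mt τ0 E u κ

section ew

variable {φ ψ : Cx → Gm → ℕ → ℕ → (ℕ → ℝ) → ℕ → ℤ × ℤ → Prop}

theorem Ew98.and (h1 : Ew98 μ s c kap P N F φ) (h2 : Ew98 μ s c kap P N F ψ) :
    Ew98 μ s c kap P N F fun Γ G mt τ0 E u κ => φ Γ G mt τ0 E u κ ∧ ψ Γ G mt τ0 E u κ := by
  obtain ⟨a, ha⟩ := h1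
  obtain ⟨b, hb⟩ := h2
  exact ⟨max a b, fun Γ G mt τ0 E u κ W => ⟨ha _ _ _ _ _ _ _ (W.mono (le_max_left _ _)), hb _ _ _ _ _ _ _ (W.mono (le_max_right _ _))⟩⟩

theorem Ew98.mono (h : Ew98 μ s c kap P N F φ) (H : ∀ (Γ : Cx) (G : Gm) (mt τ0 : ℕ) (E : ℕ → ℝ) (u : ℕ) (κ : ℤ × ℤ),
    Wc98 μ s c kap P N F 0 Γ G mt τ0 E u κ → φ Γ G mt τ0 E u κ → ψ Γ G mt τ0 E u κ) : Ew98 μ s c kap P N F ψ := by
  obtain ⟨a, ha⟩ := h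
  exact ⟨a, fun Γ G mt τ0 E u κ W => H _ _ _ _ _ _ _ (W.mono (Nat.zero_le _)) (ha _ _ _ _ _ _ _ W)⟩

theorem Ew98.of_T (n₁ : ℕ) (H : ∀ (Γ : Cx) (G : Gm) (mt τ0 : ℕ) (E : ℕ → ℝ) (u : ℕ) (κ : ℤ × ℤ),
    Wc98 μ s c kap P N F 0 Γ G mt τ0 E u κ → n₁ ≤ G.T u → φ Γ G mt τ0 E u κ) : Ew98 μ s c kap P N F φ :=
  ⟨n₁, fun Γ G mt τ0 E u κ W => H _ _ _ _ _ _ _ (W.mono (Nat.zero_le _)) (W.w.hT u)⟩

end ew

end

end Pool.Agent.W_7d29a1_C1.Q49
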