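import Pool.Agent.W_7d29a1_C1.CorP18
import Pool.Agent.W_7d29a1_C1.WqT98
import Pool.Agent.W_7d29a1_C1.SepC3
import Pool.Agent.W_7d29a1_C1.SepS2

/-!
MP_7d29a1_pr, [C1] SEP, THE CORE OF `WQ28` AT THE RECORD `Cst`, IN THE FORM `EvC`. (helper18; letters of helper25, helper98, helper2)

`coE18`, **`coC18`** : stage `kc`; the threshold reads `V1, PF, qF, sgm, bS, rc`.
-/

set_option autoImplicit false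

namespace Pool.Agent.W_7d29a1_C1.Cs2

open MeasureTheory Finset Filter
open Pool.Agent.W_7d29a1_F hiding Bw G
open Pool.Agent.W_7d29a1_h4g Pool.Agent.W_7d29a1_H Pool.Agent.W_7d29a1_HS
open Pool.Agent.W_7d29a1_C1.H60
open Pool.Agent.W_7d29a1_C1.G37 (Gm Wok gmW)
open Pool.Agent.W_7d29a1_C1.SF98
open Pool.Agent.W_7d29a1_C1.P25
open Pool.Agent.W_7d29a1_C1.N49
open Pool.Agent.W_7d29a1_C1.D98
open Pool.Agent.W_7d29a1_C1.Q49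
open Pool.Agent.W_7d29a1_C1.Nm15

noncomputable section

variable {μ : Measure ℝ} {s c Cc ε : ℝ}

/-- **THE CORE AT THE RECORD**, over `Win52`, for every set of typical contents. -/
theorem coE18 [IsProbabilityMeasure μ] {C₀ : ℝ} {n₀ : ℕ} (h : In μ s c C₀ n₀) : EvC (S0 μ s c Cc ε) fun C => ∃ n₁ : ℕ,
    ∀ {kap : ℝ}, kap ≤ c / 8 → ∀ (Γ : Cx) (G : Gm) (mt τ0 : ℕ) (E : ℕ → ℝ) (u : ℕ) (κ : ℤ × ℤ),
      Win52 μ s C.P.kw kap n₁ (C.Nm μ s c ε Γ G E) (C.cf.nr μ s c Γ G E) Γ G mt τ0 E u κ → G.w u / 2 + 1 ≤ C.P.aS * G.w u →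
      ∀ {T : Set Env}, (∀ ω ∈ T, Tc98 μ s c C.P (C.Nm μ s c ε) C.cf Γ G E u κ ω) → CoP98 μ s Γ G (C.Nm μ s c ε Γ G E) u κ T := by
  have hc := h.c0
  have key : ∀ p : Cst, ∃ x : ℝ, 0 ≤ p.qF → 0 ≤ p.sgm → p.sgm ≤ c / 80 → 0 ≤ p.bS → p.bS + 5 ≤ p.rc → ∃ n₁ : ℕ, ∀ kc : ℝ, x ≤ kc →
      ∀ {P : Pre} {N : NmF} {F : Cf98} {Γ : Cx} {G : Gm} {mt τ0 : ℕ} {E : ℕ → ℝ} {u : ℕ} {κ : ℤ × ℤ} {kw : ℝ},
        (N Γ G E).PF = p.PF → (N Γ G E).th = 1 / 8 → (N Γ G E).KF = 4 → (N Γ G E).qF = p.qF → P.bS = p.bS → P.βc = 1 / 16 → F.V₁ = p.V1 →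
        F.sgm = p.sgm → F.rc = p.rc → Win52 μ s kw (c / 8) n₁ (N Γ G E) (F.nr μ s c Γ G E) Γ G mt τ0 E u κ →
        G.w u / 2 + 1 ≤ P.aS * G.w u → ∀ {r g U₀ Q₀ U₁' Q₁ U' Q A B Y p ε : ℝ} {j K1h M K2h n₂ : ℕ},
        PW58.NumT58 μ s c kc r g j K1h M K2h U₀ Q₀ U₁' Q₁ U' Q A B Y p ε n₂ (G.T u) ((N Γ G E).n u) ((N Γ G E).m u) ((N Γ G E).K1 u)
          ((N Γ G E).K2 u) →
        ∀ {T : Set Env}, (∀ ω ∈ T, Tc98 μ s c P N F Γ G E u κ ω) → CoP98 μ s Γ G (N Γ G E) u κ T := fun p => by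
    by_cases hp : 0 ≤ p.qF ∧ 0 ≤ p.sgm ∧ p.sgm ≤ c / 80 ∧ 0 ≤ p.bS ∧ p.bS + 5 ≤ p.rc
    · obtain ⟨n₁, -, H⟩ := coP18 h p.PF (θ := 1 / 8) (K := 4) le_rfl (by norm_num) (by norm_num)
      obtain ⟨x, H⟩ := H p.V1 p.qF p.sgm p.bS p.rc hp.1 hp.2.1 hp.2.2.1 hp.2.2.2.1 hp.2.2.2.2
      exact ⟨x, fun _ _ _ _ _ => ⟨n₁, H⟩⟩
    · exact ⟨0, fun h1 h2 h3 h4 h5 => absurd ⟨h1, h2, h3, h4, h5⟩ hp⟩
  choose f hf using key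
  filter_upwards [FC.kc_ge (S0 μ s c Cc ε) f, FC.qF_ge (S0 μ s c Cc ε) fun _ => 0, FC.sgm_le (S0 μ s c Cc ε) (fun _ => c / 80)
    fun _ => by positivity, FC.bS_ge (S0 μ s c Cc ε) fun _ => 0, FC.rc_ge (S0 μ s c Cc ε) fun p => p.bS + 5, evPf40 (S0 μ s c Cc ε),
    ok2 (μ := μ) (s := s) (c := c) (Cc := Cc) (ε := ε)] with C h1 h2 h3 h4 h5 h6 h7
  obtain ⟨n₂, hn₂⟩ := h7
  obtain ⟨n₁, H⟩ := hf (C.cut .kc) h2 h3.1.le h3.2 h4 h5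
  refine ⟨max n₁ n₂, fun {kap} hkap Γ G mt τ0 E u κ W haS {T} hT => ?_⟩
  have W' : Win52 μ s C.P.kw (c / 8) n₁ (C.Nm μ s c ε Γ G E) (C.cf.nr μ s c Γ G E) Γ G mt τ0 E u κ :=
    { W.mono (le_max_left n₁ n₂) with
      tilt := W.tilt.trans (mul_le_mul_of_nonneg_right hkap (EE_pos _).le) }
  exact H C.kc h1 (P := C.P) (N := C.Nm μ s c ε) (F := C.cf) rfl rfl rfl rfl h6.2.1.2.1 h6.2.1.2.2 rfl rfl rfl W' haS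
    (nm15_num (g := C.g ε) (l := C.l) hn₂ ((le_max_right _ _).trans (W.hT u))) hT

/-- **THE CORE AT THE RECORD**, in the form of `wqC98`. -/
theorem coC18 [IsProbabilityMeasure μ] {C₀ : ℝ} {n₀ : ℕ} (h : In μ s c C₀ n₀) : EvC (S0 μ s c Cc ε) fun C => ∀ kap : ℝ, kap ≤ c / 8 →
    Ew98 μ s c kap C.P (C.Nm μ s c ε) C.cf fun Γ G _ _ E u κ =>
      CoP98 μ s Γ G (C.Nm μ s c ε Γ G E) u κ (Tx ((Fam98o μ s c C.P (C.Nm μ s c ε) C.cf).TT Γ G E) (fun u => E u / 16) u κ) := by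
  refine (coE18 h).mono fun C hC kap hkap => ?_
  obtain ⟨n₁, H⟩ := hC
  exact ⟨n₁, fun Γ G mt τ0 E u κ W => H hkap Γ G mt τ0 E u κ W.w W.aS W.tc⟩

end

end Pool.Agent.W_7d29a1_C1.Cs2
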