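import Pool.Agent.W_7d29a1_C1.Arr89
import Pool.Agent.W_7d29a1_C1.BKc89
import Pool.Agent.W_7d29a1_X.Path89

/-!
Both halves (MP_7d29a1_pr), attractor route, MEET_d (row 683, section (3)): THE COARSE SUM, deterministic part. (helper89)

`Zs x Q w` = sum over the tuples of paths from `(0, x i)` without a common site (which satisfy `Q`) of the product of the weights, the
`i`-th path reads the environment `w i`. `bk_Zs`: concave BK. `chain`: a path which is in given cells at the rows `tt k` costs at most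
the product of the block masses. `mono_card`: the number of the monotone maps. `coarse_det`: the sum over the cell maps.
-/

set_option autoImplicit false

namespace Pool.Agent.W_7d29a1_C1.Coar89

open Finset Pool.Agent.W_7d29a1_F Pool.Agent.W_7d29a1_X Pool.Agent.W_7d29a1_C1.Arr89 Pool.Agent.W_7d29a1_C1.BK89

noncomputable section

variable {μ : MeasureTheory.Measure ℝ} {s : ℝ}

/-! ### The sum over the tuples -/

section

variable {κ : Type*} [Fintype κ] [DecidableEq κ]

open Classical in
/-- The sum over the tuples without a common site which satisfy `Q`. -/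
def Zs (μ : MeasureTheory.Measure ℝ) (s : ℝ) (T : ℕ) (x : κ → ℤ) (Q : (κ → Finset ℕ) → Prop) (w : κ → Env) : ℝ :=
  ∑ S ∈ (Tup T x).filter Q, ∏ i, pth μ s (sh (0, x i) (w i)) T (S i)

theorem Zs_nonneg (T : ℕ) (x : κ → ℤ) (Q : (κ → Finset ℕ) → Prop) (w : κ → Env) : 0 ≤ Zs μ s T x Q w :=
  sum_nonneg fun _ _ => prod_nonneg fun _ _ => pth_nonneg _ _ _

/-- The sites of a path. -/
def sts (T : ℕ) (x : ℤ) (S : Finset ℕ) : Finset Pt := (range T).image fun k : ℕ => ((k : ℤ) + 1, x + ps S (k + 1))

theorem pth_sts (η : Env) (T : ℕ) (x : ℤ) (S : Finset ℕ) :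
    pth μ s (sh (0, x) η) T S = Real.exp (s * (pos S T : ℝ) - T * lam μ s) * ∏ v ∈ sts T x S, Real.exp (η v) := by
  unfold pth sts
  rw [prod_image]
  · congr 1
    refine prod_congr rfl fun k _ => ?_
    unfold sh
    have e : (((k : ℤ) + 1, pos S (k + 1)) : Pt) + (0, x) = ((k : ℤ) + 1, x + ps S (k + 1)) := by
      ext
      · simp
      · simp only [Prod.mk_add_mk]
        rw [add_comm]
        rfl
    rw [e]
  · intro a _ b _ hab
    have := congrArg Prod.fst hab
    simp only at this
    omega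

theorem sts_disj {T : ℕ} {x x' : ℤ} {S S' : Finset ℕ} (h : NI T x x' S S') : Disjoint (sts T x S) (sts T x' S') := by
  rw [disjoint_left]
  intro v h1 h2
  unfold sts at h1 h2
  rw [mem_image] at h1 h2
  obtain ⟨k, hk, rfl⟩ := h1
  obtain ⟨k', hk', h3⟩ := h2
  rw [Prod.mk.injEq] at h3
  have h4 : k' = k := by
    have := h3.1
    omega
  subst h4
  rw [mem_range] at hk
  exact h (k' + 1) (by omega) h3.2.symm

open Classical in
theorem Zs_FF (T : ℕ) (x : κ → ℤ) (Q : (κ → Finset ℕ) → Prop) (w : κ → Env) :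
    Zs μ s T x Q w = FF Real.exp ((Tup T x).filter Q) (fun S => ∏ i, Real.exp (s * (pos (S i) T : ℝ) - T * lam μ s))
      (fun S i => sts T (x i) (S i)) w := by
  unfold Zs FF
  refine sum_congr rfl fun S _ => ?_
  rw [← prod_mul_distrib]
  exact prod_congr rfl fun i _ => pth_sts _ _ _ _

/-- **Concave BK for the polymer.** -/
theorem bk_Zs [MeasureTheory.IsProbabilityMeasure μ] (T : ℕ) (x : κ → ℤ) (Q : (κ → Finset ℕ) → Prop) {l : ℝ} (hl : 0 ≤ l) :
    ∫ η, min 1 (l * Zs μ s T x Q fun _ => η) ∂(law μ) ≤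
      ∫ w, min 1 (l * Zs μ s T x Q w) ∂(MeasureTheory.Measure.pi fun _ : κ => law μ) := by
  classical
  simp only [Zs_FF]
  refine bk_min (σ := Pt) (μ := μ) Real.measurable_exp (fun x => (Real.exp_pos x).le)
    (fun S _ => prod_nonneg fun i _ => (Real.exp_pos _).le) (fun S hS i j hij => ?_) hl
  exact sts_disj ((mem_Tup.1 (mem_filter.1 hS).1).2 i j hij)

theorem measurable_Zs (T : ℕ) (x : κ → ℤ) (Q : (κ → Finset ℕ) → Prop) : Measurable (Zs μ s T x Q) := by
  classical
  have e : Zs μ s T x Q = FF Real.exp ((Tup T x).filter Q) (fun S => ∏ i, Real.exp (s * (pos (S i) T : ℝ) - T * lam μ s))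
      (fun S i => sts T (x i) (S i)) := funext fun w => Zs_FF T x Q w
  rw [e]
  exact measurable_FF Real.measurable_exp _ _ _

/-- Change of the index set. -/
theorem Zs_equiv {κ' : Type*} [Fintype κ'] [DecidableEq κ'] (e : κ' ≃ κ) (T : ℕ) (x : κ → ℤ)
    (Q : (κ → Finset ℕ) → Prop) (w : κ → Env) :
    Zs μ s T (fun i => x (e i)) (fun S => Q fun i => S (e.symm i)) (fun i => w (e i)) = Zs μ s T x Q w := by
  classical
  unfold Zs
  refine sum_nbij' (fun S => fun i => S (e.symm i)) (fun S => fun i => S (e i)) ?_ ?_ ?_ ?_ ?_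
  · intro S hS
    rw [mem_filter, mem_Tup] at hS ⊢
    refine ⟨⟨fun i => hS.1.1 _, fun i j hij => ?_⟩, hS.2⟩
    have h := hS.1.2 (e.symm i) (e.symm j) fun h => hij (e.symm.injective h)
    simpa using h
  · intro S hS
    rw [mem_filter, mem_Tup] at hS ⊢
    refine ⟨⟨fun i => hS.1.1 _, fun i j hij => hS.1.2 _ _ fun h => hij (e.injective h)⟩, ?_⟩
    simpa using hS.2
  · intro S _
    funext i
    simp
  · intro S _
    funext i
    simp
  · intro S _
    refine (Fintype.prod_equiv e _ _ fun i => ?_)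
    simp

end

/-! ### Order -/

theorem NI_lt {T : ℕ} {x x' : ℤ} {S S' : Finset ℕ} (hx : x ≤ x') (h : NI T x x' S S') :
    ∀ k ≤ T, x + ps S k < x' + ps S' k := by
  intro k
  induction k with
  | zero =>
    intro _
    have := h 0 (Nat.zero_le _)
    rw [ps_zero, ps_zero] at this ⊢
    omega
  | succ k ih =>
    intro hk
    have h1 := ih (by omega)
    have h2 := h (k + 1) hk
    rw [ps_succ, ps_succ] at h2 ⊢
    split_ifs at h2 ⊢ <;> omega

/-! ### The chain of the blocks -/

open Classical in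
/-- **The chain.** -/
theorem chain (η : Env) (tt : ℕ → ℕ) (h0 : tt 0 = 0) (b : ℕ) (htt : ∀ k < b, tt k ≤ tt (k + 1)) (I : ℕ → Finset ℤ) :
    ∑ S ∈ (range (tt b)).powerset.filter (fun S => ∀ k < b, pos S (tt k) ∈ I k), pth μ s η (tt b) S ≤
      ∏ k ∈ range b, ∑ z ∈ I k, Real.exp (V μ s η ((tt k : ℤ), z) (tt (k + 1) - tt k)) := by
  induction b with
  | zero =>
    rw [h0]
    simp [pth, pos]
  | succ b ih =>
    have ih' := ih fun k hk => htt k (by omega)
    have hmono : ∀ k ≤ b, tt k ≤ tt b := by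
      intro k hk
      have : ∀ m, k + m ≤ b → tt k ≤ tt (k + m) := by
        intro m
        induction m with
        | zero => intro _; exact le_rfl
        | succ m ihm =>
          intro hm
          exact (ihm (by omega)).trans (htt (k + m) (by omega))
      have h1 := this (b - k) (by omega)
      rwa [show k + (b - k) = b from by omega] at h1
    obtain ⟨m, hm⟩ : ∃ m, tt (b + 1) = tt b + m := ⟨tt (b + 1) - tt b, by have := htt b (by omega); omega⟩
    have hm' : tt (b + 1) - tt b = m := by omega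
    let F : Finset ℕ → ℝ := fun S => if ∀ k < b + 1, pos S (tt k) ∈ I k then 1 else 0
    have e1 : ∑ S ∈ (range (tt (b + 1))).powerset.filter (fun S => ∀ k < b + 1, pos S (tt k) ∈ I k),
        pth μ s η (tt (b + 1)) S = ∑ S ∈ (range (tt b + m)).powerset, pth μ s η (tt b + m) S * F (S ∩ range (tt b)) := by
      rw [hm, sum_filter]
      refine sum_congr rfl fun S _ => ?_
      have e2 : (∀ k < b + 1, pos (S ∩ range (tt b)) (tt k) ∈ I k) ↔ ∀ k < b + 1, pos S (tt k) ∈ I k := by
        refine forall_congr' fun k => ?_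
        refine forall_congr' fun hk => ?_
        rw [pos_inter S (hmono k (by omega))]
      by_cases h : ∀ k < b + 1, pos S (tt k) ∈ I k
      · rw [if_pos h]
        have h2 := e2.2 h
        show _ = _ * (if ∀ k < b + 1, pos (S ∩ range (tt b)) (tt k) ∈ I k then (1 : ℝ) else 0)
        rw [if_pos h2, mul_one]
      · rw [if_neg h]
        have h2 := fun h3 => h (e2.1 h3)
        show _ = _ * (if ∀ k < b + 1, pos (S ∩ range (tt b)) (tt k) ∈ I k then (1 : ℝ) else 0)
        rw [if_neg h2, mul_zero]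
    rw [e1, sum_pth, prod_range_succ, hm']
    obtain ⟨B, hB⟩ : ∃ B : ℝ, B = ∑ z ∈ I b, Real.exp (V μ s η ((tt b : ℤ), z) m) := ⟨_, rfl⟩
    have hB0 : 0 ≤ B := by
      rw [hB]
      exact sum_nonneg fun _ _ => (Real.exp_pos _).le
    have hF0 : ∀ S, 0 ≤ F S := fun S => by
      show 0 ≤ (if ∀ k < b + 1, pos S (tt k) ∈ I k then (1 : ℝ) else 0)
      split_ifs <;> norm_num
    have h1 : ∀ x ∈ Icc (0 : ℤ) (tt b : ℕ), Mt μ s η (tt b) F x * Real.exp (V μ s η ((tt b : ℤ), x) m) ≤
        Mt μ s η (tt b) F x * B := by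
      intro x _
      by_cases hx : x ∈ I b
      · refine mul_le_mul_of_nonneg_left ?_ (Mt_nonneg η _ hF0 x)
        rw [hB]
        exact single_le_sum (f := fun z => Real.exp (V μ s η ((tt b : ℤ), z) m)) (fun _ _ => (Real.exp_pos _).le) hx
      · have h2 : Mt μ s η (tt b) F x = 0 := by
          unfold Mt
          refine sum_eq_zero fun S _ => ?_
          split_ifs with h3
          · have h4 : F S = 0 := by
              show (if ∀ k < b + 1, pos S (tt k) ∈ I k then (1 : ℝ) else 0) = 0
              rw [if_neg]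
              intro h5
              have := h5 b (by omega)
              rw [h3] at this
              exact hx this
            rw [h4, mul_zero]
          · rfl
        rw [h2, zero_mul, zero_mul]
    refine (sum_le_sum h1).trans ?_
    rw [← sum_mul, ← hB]
    refine mul_le_mul_of_nonneg_right (le_trans ?_ ih') hB0
    -- the sum over the positions
    have e3 : ∑ x ∈ Icc (0 : ℤ) (tt b : ℕ), Mt μ s η (tt b) F x = ∑ S ∈ (range (tt b)).powerset, pth μ s η (tt b) S * F S := by
      unfold Mt
      rw [sum_comm]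
      refine sum_congr rfl fun S _ => ?_
      rw [sum_ite_eq, if_pos]
      rw [mem_Icc]
      exact ⟨pos_nonneg _ _, pos_le _ _⟩
    rw [e3, sum_filter]
    refine sum_le_sum fun S _ => ?_
    by_cases h : ∀ k < b, pos S (tt k) ∈ I k
    · rw [if_pos h]
      refine mul_le_of_le_one_right (pth_nonneg _ _ _) ?_
      show (if ∀ k < b + 1, pos S (tt k) ∈ I k then (1 : ℝ) else 0) ≤ 1
      split_ifs <;> norm_num
    · rw [if_neg h]
      have h4 : F S = 0 := by
        show (if ∀ k < b + 1, pos S (tt k) ∈ I k then (1 : ℝ) else 0) = 0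
        rw [if_neg]
        intro h5
        exact h fun k hk => h5 k (by omega)
      rw [h4, mul_zero]

/-- The mass of a block from a cell. -/
def Bc (μ : MeasureTheory.Measure ℝ) (s : ℝ) (η : Env) (y : ℤ) (w : ℕ) (t : ℤ) (l : ℕ) : ℝ :=
  ∑ z ∈ Ico y (y + w), Real.exp (V μ s η (t, z) l)

theorem Bc_nonneg (η : Env) (y : ℤ) (w : ℕ) (t : ℤ) (l : ℕ) : 0 ≤ Bc μ s η y w t l :=
  sum_nonneg fun _ _ => (Real.exp_pos _).le

open Classical in
/-- The chain from `(0, x)` with cells. -/
theorem chain_x (η : Env) (x : ℤ) (tt : ℕ → ℕ) (h0 : tt 0 = 0) (b : ℕ) (htt : ∀ k < b, tt k ≤ tt (k + 1)) (y : ℕ → ℤ)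
    (w : ℕ) :
    ∑ S ∈ (range (tt b)).powerset.filter (fun S => ∀ k < b, x + ps S (tt k) ∈ Ico (y k) (y k + w)),
      pth μ s (sh (0, x) η) (tt b) S ≤ ∏ k ∈ range b, Bc μ s η (y k) w (tt k) (tt (k + 1) - tt k) := by
  have h1 := chain (μ := μ) (s := s) (sh (0, x) η) tt h0 b htt fun k => Ico (y k - x) (y k - x + w)
  have e1 : (range (tt b)).powerset.filter (fun S => ∀ k < b, x + ps S (tt k) ∈ Ico (y k) (y k + w)) =
      (range (tt b)).powerset.filter (fun S => ∀ k < b, pos S (tt k) ∈ Ico (y k - x) (y k - x + w)) := by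
    refine filter_congr fun S _ => ?_
    refine forall_congr' fun k => ?_
    refine forall_congr' fun _ => ?_
    rw [mem_Ico, mem_Ico]
    have : ps S (tt k) = pos S (tt k) := rfl
    rw [this]
    omega
  rw [e1]
  refine h1.trans (le_of_eq ?_)
  refine prod_congr rfl fun k _ => ?_
  unfold Bc
  refine sum_nbij' (fun z => z + x) (fun z => z - x) ?_ ?_ ?_ ?_ ?_
  · intro z hz
    rw [mem_Ico] at hz ⊢
    omega
  · intro z hz
    rw [mem_Ico] at hz ⊢
    omega
  · intro z _
    ring
  · intro z _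
    ring
  · intro z _
    rw [V_sh]
    simp

/-! ### The number of the monotone maps -/

theorem mono_card (N G : ℕ) :
    open Classical in ((univ : Finset (Fin N → Fin G)).filter fun g => Monotone g).card ≤ (N + 1) ^ G := by
  classical
  let φ : (Fin N → Fin G) → (Fin G → Fin (N + 1)) := fun g m =>
    ⟨((univ : Finset (Fin N)).filter fun i => g i ≤ m).card, by
      have := card_le_card (filter_subset (fun i => g i ≤ m) (univ : Finset (Fin N)))
      rw [card_univ, Fintype.card_fin] at this
      omega⟩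
  have h1 : ((univ : Finset (Fin N → Fin G)).filter fun g => Monotone g).card ≤
      (univ : Finset (Fin G → Fin (N + 1))).card := by
    refine card_le_card_of_injOn φ (fun _ _ => mem_coe.2 (mem_univ _)) ?_
    intro g hg g' hg' hgg
    rw [mem_coe, mem_filter] at hg hg'
    -- the level sets agree
    have h2 : ∀ m : Fin G, ((univ : Finset (Fin N)).filter fun i => g i ≤ m) = (univ : Finset (Fin N)).filter fun i => g' i ≤ m := by
      intro m
      have h3 : ((univ : Finset (Fin N)).filter fun i => g i ≤ m).card = ((univ : Finset (Fin N)).filter fun i => g' i ≤ m).card := by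
        have := congrArg Fin.val (congrFun hgg m)
        exact this
      have h4 : ((univ : Finset (Fin N)).filter fun i => g i ≤ m) ⊆ ((univ : Finset (Fin N)).filter fun i => g' i ≤ m) ∨
          ((univ : Finset (Fin N)).filter fun i => g' i ≤ m) ⊆ ((univ : Finset (Fin N)).filter fun i => g i ≤ m) := by
        by_contra h5
        push Not at h5
        obtain ⟨h6, h7⟩ := h5
        rw [not_subset] at h6 h7
        obtain ⟨i, hi, hi'⟩ := h6
        obtain ⟨j, hj, hj'⟩ := h7
        simp only [mem_filter, mem_univ, true_and] at hi hi' hj hj'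
        rcases le_total i j with h | h
        · exact hi' ((hg'.2 h).trans hj)
        · exact hj' ((hg.2 h).trans hi)
      rcases h4 with h5 | h5
      · exact eq_of_subset_of_card_le h5 h3.symm.le
      · exact (eq_of_subset_of_card_le h5 h3.le).symm
    funext i
    refine le_antisymm ?_ ?_
    · have h3 : i ∈ (univ : Finset (Fin N)).filter fun i' => g' i' ≤ g' i := mem_filter.2 ⟨mem_univ _, le_rfl⟩
      rw [← h2 (g' i)] at h3
      exact (mem_filter.1 h3).2
    · have h3 : i ∈ (univ : Finset (Fin N)).filter fun i' => g i' ≤ g i := mem_filter.2 ⟨mem_univ _, le_rfl⟩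
      rw [h2 (g i)] at h3
      exact (mem_filter.1 h3).2
  refine h1.trans (le_of_eq ?_)
  rw [card_univ, Fintype.card_fun, Fintype.card_fin, Fintype.card_fin]

open Classical in
/-- The cell maps. -/
def KK (N b G : ℕ) : Finset (Fin b → Fin N → Fin G) :=
  Fintype.piFinset fun _ : Fin b => (univ : Finset (Fin N → Fin G)).filter fun g => Monotone g

theorem KK_card (N b G : ℕ) : (KK N b G).card ≤ (N + 1) ^ (G * b) := by
  classical
  unfold KK
  rw [Fintype.card_piFinset, prod_const, card_univ, Fintype.card_fin, pow_mul]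
  exact Nat.pow_le_pow_left (mono_card N G) b

/-- The left end of the cell of the path `i` at the row `tt k`. -/
def yK {N b G : ℕ} (y0 : ℕ → ℤ) (w : ℕ) (K : Fin b → Fin N → Fin G) (i : Fin N) (k : ℕ) : ℤ :=
  if h : k < b then y0 k + ((K ⟨k, h⟩ i : ℕ) : ℤ) * w else 0

open Classical in
/-- **The coarse sum.** -/
theorem coarse_det {N : ℕ} (b G w : ℕ) (hw : 1 ≤ w) (tt : ℕ → ℕ) (h0 : tt 0 = 0) (htt : ∀ k < b, tt k ≤ tt (k + 1))
    (x : Fin N → ℤ) (hx : Monotone x) (Q : (Fin N → Finset ℕ) → Prop) (y0 : ℕ → ℤ)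
    (hQ : ∀ S, Q S → ∀ i, ∀ k < b, y0 k ≤ x i + ps (S i) (tt k) ∧ x i + ps (S i) (tt k) < y0 k + G * w)
    (ωs : Fin N → Env) :
    Zs μ s (tt b) x Q ωs ≤
      ∑ K ∈ KK N b G, ∏ i, ∏ k ∈ range b, Bc μ s (ωs i) (yK y0 w K i k) w (tt k) (tt (k + 1) - tt k) := by
  have hmono : ∀ k ≤ b, tt k ≤ tt b := by
    intro k hk
    have : ∀ m, k + m ≤ b → tt k ≤ tt (k + m) := by
      intro m
      induction m with
      | zero => intro _; exact le_rfl
      | succ m ihm =>
        intro hm
        exact (ihm (by omega)).trans (htt (k + m) (by omega))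
    have h1 := this (b - k) (by omega)
    rwa [show k + (b - k) = b from by omega] at h1
  -- the paths in the cells of `K`
  let P : (Fin b → Fin N → Fin G) → Fin N → Finset (Finset ℕ) := fun K i =>
    (range (tt b)).powerset.filter (fun S => ∀ k < b, x i + ps S (tt k) ∈ Ico (yK y0 w K i k) (yK y0 w K i k + w))
  let f : (Fin N → Finset ℕ) → ℝ := fun S => ∏ i, pth μ s (sh (0, x i) (ωs i)) (tt b) (S i)
  have hf0 : ∀ S, 0 ≤ f S := fun S => prod_nonneg fun _ _ => pth_nonneg _ _ _
  -- the cell map of a tuple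
  have hK : ∀ S ∈ (Tup (tt b) x).filter Q, ∃ K ∈ KK N b G, S ∈ Fintype.piFinset (P K) := by
    intro S hS
    rw [mem_filter, mem_Tup] at hS
    obtain ⟨⟨hS1, hS2⟩, hS3⟩ := hS
    have hq := hQ S hS3
    have hw' : (0 : ℤ) < w := by exact_mod_cast hw
    have hd : ∀ (k : Fin b) (i : Fin N), ((x i + ps (S i) (tt k) - y0 k) / w).toNat < G := by
      intro k i
      obtain ⟨h1, h2⟩ := hq i k k.2
      have h3 : (x i + ps (S i) (tt k) - y0 k) / w < G := by
        refine Int.ediv_lt_of_lt_mul hw' ?_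
        linarith
      have h4 : 0 ≤ (x i + ps (S i) (tt k) - y0 k) / w := Int.ediv_nonneg (by linarith) hw'.le
      omega
    refine ⟨fun k i => ⟨((x i + ps (S i) (tt k) - y0 k) / w).toNat, hd k i⟩, ?_, ?_⟩
    · unfold KK
      rw [Fintype.mem_piFinset]
      intro k
      rw [mem_filter]
      refine ⟨mem_univ _, fun i j hij => ?_⟩
      show (((x i + ps (S i) (tt k) - y0 k) / w).toNat) ≤ ((x j + ps (S j) (tt k) - y0 k) / w).toNat
      refine Int.toNat_le_toNat (Int.ediv_le_ediv hw' ?_)
      rcases eq_or_lt_of_le hij with h1 | h1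
      · rw [h1]
      · have h2 := NI_lt (hx hij) (hS2 i j h1.ne) (tt k) (hmono k k.2.le)
        linarith
    · rw [Fintype.mem_piFinset]
      intro i
      rw [mem_filter, mem_powerset]
      refine ⟨hS1 i, fun k hk => ?_⟩
      obtain ⟨h1, h2⟩ := hq i k hk
      have h4 : 0 ≤ (x i + ps (S i) (tt k) - y0 k) / w := Int.ediv_nonneg (by linarith) hw'.le
      unfold yK
      rw [dif_pos hk, mem_Ico]
      simp only [Int.toNat_of_nonneg h4]
      have h5 := Int.mul_ediv_add_emod (x i + ps (S i) (tt k) - y0 k) w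
      have h6 := Int.emod_nonneg (x i + ps (S i) (tt k) - y0 k) hw'.ne'
      have h7 := Int.emod_lt_of_pos (x i + ps (S i) (tt k) - y0 k) hw'
      have h8 : (w : ℤ) * ((x i + ps (S i) (tt k) - y0 k) / w) = ((x i + ps (S i) (tt k) - y0 k) / w) * w := mul_comm _ _
      constructor <;> linarith
  calc Zs μ s (tt b) x Q ωs = ∑ S ∈ (Tup (tt b) x).filter Q, f S := rfl
    _ ≤ ∑ S ∈ (Tup (tt b) x).filter Q, ∑ K ∈ KK N b G, (if S ∈ Fintype.piFinset (P K) then f S else 0) := by
        refine sum_le_sum fun S hS => ?_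
        obtain ⟨K, hK1, hK2⟩ := hK S hS
        have h1 := single_le_sum (s := KK N b G) (a := K) (f := fun K => if S ∈ Fintype.piFinset (P K) then f S else 0)
          (fun K _ => by
            show 0 ≤ (if S ∈ Fintype.piFinset (P K) then f S else 0)
            split_ifs
            · exact hf0 S
            · exact le_rfl) hK1
        refine le_trans (le_of_eq ?_) h1
        rw [if_pos hK2]
    _ = ∑ K ∈ KK N b G, ∑ S ∈ (Tup (tt b) x).filter Q, (if S ∈ Fintype.piFinset (P K) then f S else 0) := sum_comm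
    _ ≤ ∑ K ∈ KK N b G, ∑ S ∈ Fintype.piFinset (P K), f S := by
        refine sum_le_sum fun K _ => ?_
        rw [← sum_filter]
        refine sum_le_sum_of_subset_of_nonneg (fun S hS => (mem_filter.1 hS).2) fun S _ _ => hf0 S
    _ = ∑ K ∈ KK N b G, ∏ i, ∑ S ∈ P K i, pth μ s (sh (0, x i) (ωs i)) (tt b) S := by
        refine sum_congr rfl fun K _ => ?_
        rw [prod_univ_sum]
    _ ≤ _ := by
        refine sum_le_sum fun K _ => ?_
        refine prod_le_prod (fun i _ => sum_nonneg fun S _ => pth_nonneg _ _ _) fun i _ => ?_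
        exact chain_x (μ := μ) (s := s) (ωs i) (x i) tt h0 b htt (fun k => yK y0 w K i k) w

end

end Pool.Agent.W_7d29a1_C1.Coar89
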