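import Pool.Agent.W_7d29a1_HR.Cell

/-!
[C1] MEET_d, LEAF M4 (helper35; row 683 (4) of helper48): LARGE DEVIATIONS OF THE SOFT MAXIMA OF CELLS, constants only, every tilt.
`cell_exp`: for a cell of width `≤ c wd r` and the length `l ≥ 2 ^ J r`, `E exp (δ sm / EE l) ≤ exp (- κ δ)` for all small `δ`.
`ldm`: the sum over `N` independent environments and `b` consecutive blocks is `≤ - κ N b EE l₀ / 2` off probability
`exp (- κ δ N b / 2)`.
-/

set_option autoImplicit false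

namespace Pool.Agent.W_7d29a1_C1.LDm35

open MeasureTheory ProbabilityTheory Filter Topology
open Pool.Agent.W_7d29a1_F Pool.Agent.W_7d29a1_h4g Pool.Agent.W_7d29a1_H Pool.Agent.W_7d29a1_HS Pool.Agent.W_7d29a1_HR
open Pool.Agent.W_7d29a1_L (Mh T kap Bx mem_Bx Mh_nonneg le_Mh Sub_Mh)

noncomputable section

/-! ### Elementary -/

/-- `e ^ y ≤ 1 + y + y² e ^ (y⁺)`. -/
theorem exp_le_quad (y : ℝ) : Real.exp y ≤ 1 + y + y ^ 2 * Real.exp (max y 0) := by
  rcases le_or_gt 0 y with hy | hy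
  · rw [max_eq_left hy]
    have h1 := Real.add_one_le_exp (-y)
    have h2 := Real.exp_pos y
    have h3 : Real.exp (-y) * Real.exp y = 1 := by rw [← Real.exp_add, neg_add_cancel, Real.exp_zero]
    -- `(1 - y) (1 + y) e ^ y ≤ 1 + y`
    have h4 : (1 - y) * Real.exp y ≤ 1 := by
      calc (1 - y) * Real.exp y ≤ Real.exp (-y) * Real.exp y := mul_le_mul_of_nonneg_right (by linarith) h2.le
        _ = 1 := h3
    have h5 := mul_le_mul_of_nonneg_right h4 (show (0 : ℝ) ≤ 1 + y by linarith)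
    nlinarith
  · rw [max_eq_right hy.le, Real.exp_zero, mul_one]
    obtain ⟨z, hz⟩ : ∃ z : ℝ, z = -y := ⟨_, rfl⟩
    have hz0 : 0 < z := by rw [hz]; linarith
    have h1 := Real.quadratic_le_exp_of_nonneg hz0.le
    have h2 : Real.exp y * Real.exp z = 1 := by rw [hz, ← Real.exp_add, add_neg_cancel, Real.exp_zero]
    have hy' : y = -z := by rw [hz]; ring
    have h3 := Real.exp_pos y
    have h4 : Real.exp y * (1 + z + z ^ 2 / 2) ≤ 1 :=
      (mul_le_mul_of_nonneg_left h1 h3.le).trans h2.le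
    have h5 : (1 : ℝ) ≤ (1 - z + z ^ 2) * (1 + z + z ^ 2 / 2) := by nlinarith [sq_nonneg z, mul_pos hz0 hz0, pow_pos hz0 3, pow_pos hz0 4]
    have h6 : 0 < 1 + z + z ^ 2 / 2 := by positivity
    have h7 : Real.exp y ≤ 1 - z + z ^ 2 := by
      have h8 : Real.exp y * (1 + z + z ^ 2 / 2) ≤ (1 - z + z ^ 2) * (1 + z + z ^ 2 / 2) := h4.trans h5
      exact le_of_mul_le_mul_right h8 h6
    rw [hy'] at h7 ⊢
    linarith [h7, show (-z) ^ 2 = z ^ 2 by ring]

/-- The exponential moment of a variable with negative mean, second moment of the negative part, exponential moment of the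
positive part. -/
theorem exp_mom {Ω : Type*} [MeasurableSpace Ω] {P : Measure Ω} [IsProbabilityMeasure P] {X g : Ω → ℝ}
    (hX : Integrable X P) {κ A K B : ℝ} (hκ : 0 < κ) (hA : 0 ≤ A) (hB : 0 < B) (hK : 0 ≤ K)
    (hm : ∫ ω, X ω ∂P ≤ -κ) (hg : ∀ ω, max (-X ω) 0 ≤ g ω) (hgi : Integrable (fun ω => g ω ^ 2) P)
    (h2 : ∫ ω, g ω ^ 2 ∂P ≤ A) (hei : Integrable (fun ω => Real.exp (max (X ω) 0 / B)) P)
    (h3 : ∫ ω, Real.exp (max (X ω) 0 / B) ∂P ≤ K) {δ : ℝ} (hδ : 0 < δ) (hδB : δ ≤ 1 / (2 * B))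
    (hδκ : δ * (A + 8 * B ^ 2 * K) ≤ κ / 2) :
    Integrable (fun ω => Real.exp (δ * X ω)) P ∧ ∫ ω, Real.exp (δ * X ω) ∂P ≤ Real.exp (-(κ / 2 * δ)) := by
  have hpt : ∀ ω, Real.exp (δ * X ω) ≤ 1 + δ * X ω + (δ ^ 2 * g ω ^ 2 + δ ^ 2 * (8 * B ^ 2) * Real.exp (max (X ω) 0 / B)) := by
    intro ω
    refine (exp_le_quad (δ * X ω)).trans ?_
    have hE := Real.exp_pos (max (X ω) 0 / B)
    rcases le_or_gt 0 (X ω) with hx | hx
    · have h4 : max (δ * X ω) 0 = δ * X ω := max_eq_left (mul_nonneg hδ.le hx)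
      have h5 : max (X ω) 0 = X ω := max_eq_left hx
      rw [h4, h5]
      -- `x² e ^ (δ x) ≤ 8 B² e ^ (x / B)`
      have h6 : X ω ^ 2 ≤ 8 * B ^ 2 * Real.exp (X ω / (2 * B)) := by
        have h7 := Real.quadratic_le_exp_of_nonneg (x := X ω / (2 * B)) (by positivity)
        have h8 : 0 ≤ X ω / (2 * B) := by positivity
        have h9 : (X ω / (2 * B)) ^ 2 / 2 ≤ Real.exp (X ω / (2 * B)) := by linarith
        have h10 : X ω ^ 2 = 8 * B ^ 2 * ((X ω / (2 * B)) ^ 2 / 2) := by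
          field_simp
          ring
        rw [h10]
        exact mul_le_mul_of_nonneg_left h9 (by positivity)
      have h7 : Real.exp (δ * X ω) ≤ Real.exp (X ω / (2 * B)) := by
        refine Real.exp_le_exp.2 ?_
        have h8 := mul_le_mul_of_nonneg_right hδB hx
        have h9 : 1 / (2 * B) * X ω = X ω / (2 * B) := by ring
        linarith
      have h8 : X ω ^ 2 * Real.exp (δ * X ω) ≤ 8 * B ^ 2 * Real.exp (X ω / B) := by
        calc X ω ^ 2 * Real.exp (δ * X ω) ≤ (8 * B ^ 2 * Real.exp (X ω / (2 * B))) * Real.exp (X ω / (2 * B)) :=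
              mul_le_mul h6 h7 (Real.exp_pos _).le (by positivity)
          _ = 8 * B ^ 2 * Real.exp (X ω / B) := by
              rw [mul_assoc, ← Real.exp_add]
              congr 2
              field_simp
              norm_num
      have h9 : (δ * X ω) ^ 2 * Real.exp (δ * X ω) = δ ^ 2 * (X ω ^ 2 * Real.exp (δ * X ω)) := by ring
      have h10 : δ ^ 2 * (X ω ^ 2 * Real.exp (δ * X ω)) ≤ δ ^ 2 * (8 * B ^ 2 * Real.exp (X ω / B)) :=
        mul_le_mul_of_nonneg_left h8 (sq_nonneg _)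
      have h11 : 0 ≤ δ ^ 2 * g ω ^ 2 := by positivity
      rw [h9]
      have h12 : δ ^ 2 * (8 * B ^ 2) * Real.exp (X ω / B) = δ ^ 2 * (8 * B ^ 2 * Real.exp (X ω / B)) := by ring
      rw [h12]
      linarith
    · have h4 : max (δ * X ω) 0 = 0 := max_eq_right (mul_nonpos_of_nonneg_of_nonpos hδ.le hx.le)
      rw [h4, Real.exp_zero, mul_one]
      have h5 : -X ω ≤ g ω := (le_max_left _ _).trans (hg ω)
      have h6 : X ω ^ 2 ≤ g ω ^ 2 := by nlinarith
      have h7 : (δ * X ω) ^ 2 ≤ δ ^ 2 * g ω ^ 2 := by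
        rw [mul_pow]
        exact mul_le_mul_of_nonneg_left h6 (sq_nonneg _)
      have h8 : 0 ≤ δ ^ 2 * (8 * B ^ 2) * Real.exp (max (X ω) 0 / B) := by positivity
      linarith
  have hi : Integrable (fun ω => 1 + δ * X ω + (δ ^ 2 * g ω ^ 2 + δ ^ 2 * (8 * B ^ 2) * Real.exp (max (X ω) 0 / B))) P :=
    ((integrable_const _).add (hX.const_mul δ)).add ((hgi.const_mul _).add (hei.const_mul _))
  have hie : Integrable (fun ω => Real.exp (δ * X ω)) P := by
    refine hi.mono' (Real.measurable_exp.comp_aemeasurable (hX.1.aemeasurable.const_mul δ)).aestronglyMeasurable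
      (ae_of_all _ fun ω => ?_)
    rw [Real.norm_eq_abs, abs_of_pos (Real.exp_pos _)]
    exact hpt ω
  refine ⟨hie, ?_⟩
  have h4 := integral_mono hie hi hpt
  have e1 : ∫ ω, (1 + δ * X ω + (δ ^ 2 * g ω ^ 2 + δ ^ 2 * (8 * B ^ 2) * Real.exp (max (X ω) 0 / B))) ∂P =
      1 + δ * ∫ ω, X ω ∂P + (δ ^ 2 * ∫ ω, g ω ^ 2 ∂P + δ ^ 2 * (8 * B ^ 2) * ∫ ω, Real.exp (max (X ω) 0 / B) ∂P) := by
    have i1 : Integrable (fun ω => 1 + δ * X ω) P := (integrable_const _).add (hX.const_mul δ)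
    have i2 : Integrable (fun ω => δ ^ 2 * g ω ^ 2) P := hgi.const_mul _
    have i3 : Integrable (fun ω => δ ^ 2 * (8 * B ^ 2) * Real.exp (max (X ω) 0 / B)) P := hei.const_mul _
    have i4 : Integrable (fun ω => δ ^ 2 * g ω ^ 2 + δ ^ 2 * (8 * B ^ 2) * Real.exp (max (X ω) 0 / B)) P := i2.add i3
    rw [integral_add i1 i4, integral_add (integrable_const _) (hX.const_mul δ), integral_add i2 i3,
      integral_const_mul, integral_const_mul, integral_const_mul]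
    simp
  rw [e1] at h4
  have h5 : δ * ∫ ω, X ω ∂P ≤ -(κ * δ) := by
    have := mul_le_mul_of_nonneg_left hm hδ.le
    linarith
  have h6 : δ ^ 2 * ∫ ω, g ω ^ 2 ∂P ≤ δ ^ 2 * A := mul_le_mul_of_nonneg_left h2 (sq_nonneg _)
  have h7 : δ ^ 2 * (8 * B ^ 2) * ∫ ω, Real.exp (max (X ω) 0 / B) ∂P ≤ δ ^ 2 * (8 * B ^ 2) * K :=
    mul_le_mul_of_nonneg_left h3 (by positivity)
  have h8 : δ ^ 2 * A + δ ^ 2 * (8 * B ^ 2) * K = δ * (δ * (A + 8 * B ^ 2 * K)) := by ring
  have h9 : δ * (δ * (A + 8 * B ^ 2 * K)) ≤ δ * (κ / 2) := mul_le_mul_of_nonneg_left hδκ hδ.le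
  have h10 := Real.add_one_le_exp (-(κ / 2 * δ))
  linarith

/-! ### One cell -/

variable {μ : Measure ℝ} {s : ℝ}

theorem sm_sh (η : Env) (a : Pt) (y0 : ℤ) (w : ℕ) (t : ℤ) (l : ℕ) :
    sm μ s (sh a η) (Finset.Ico y0 (y0 + w)) t l = sm μ s η (Finset.Ico (y0 + a.2) (y0 + a.2 + w)) (t + a.1) l := by
  unfold sm
  congr 1
  refine Finset.sum_nbij' (fun x => x + a.2) (fun x => x - a.2) ?_ ?_ ?_ ?_ ?_
  · intro x hx
    rw [Finset.mem_Ico] at hx ⊢
    omega
  · intro x hx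
    rw [Finset.mem_Ico] at hx ⊢
    omega
  · intro x _
    ring
  · intro x _
    ring
  · intro x _
    rw [V_sh]
    rfl

theorem sm_dep (I : Finset ℤ) (t : ℤ) (l : ℕ) : DependsOn (fun η : Env => sm μ s η I t l) (rows t (t + l)) := by
  intro η η' hh
  have h1 : ∀ y : ℤ, V μ s η (t, y) l = V μ s η' (t, y) l := fun y =>
    V_dep (μ := μ) (s := s) (t, y) l fun p hp => hh p ⟨hp.1, hp.2.1⟩
  show sm μ s η I t l = sm μ s η' I t l
  unfold sm
  simp only [h1]

variable [IsProbabilityMeasure μ] {c C : ℝ} {n₀ : ℕ}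

/-- Translation of the cell. -/
theorem int_sm (F : ℝ → ℝ) (hF : Measurable F) (w : ℕ) (t t' y0 y1 : ℤ) (l : ℕ) :
    ∫ η, F (sm μ s η (Finset.Ico y0 (y0 + w)) t l) ∂(law μ) = ∫ η, F (sm μ s η (Finset.Ico y1 (y1 + w)) t' l) ∂(law μ) := by
  have h1 := Pool.Agent.W_7d29a1_f21.mp_integral (mp_sh (μ := μ) (t - t', y0 - y1))
    (F := fun η : Env => F (sm μ s η (Finset.Ico y1 (y1 + w)) t' l)) (hF.comp (measurable_sm _ _ _)).aestronglyMeasurable
  rw [← h1]
  refine integral_congr_ae (ae_of_all _ fun η => ?_)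
  show F (sm μ s η (Finset.Ico y0 (y0 + w)) t l) = F (sm μ s (sh (t - t', y0 - y1) η) (Finset.Ico y1 (y1 + w)) t' l)
  rw [sm_sh]
  have e1 : y1 + (t - t', y0 - y1).2 = y0 := by
    show y1 + (y0 - y1) = y0
    ring
  have e2 : t' + (t - t', y0 - y1).1 = t := by
    show t' + (t - t') = t
    ring
  rw [e1, e2]

/-- The mean of the soft maximum of a cell. -/
theorem cell_mean (h : In μ s c C n₀) : ∃ κ : ℝ, 0 < κ ∧ ∃ J n₁ : ℕ, ∀ r l w : ℕ, n₁ ≤ r → 2 ^ J * r ≤ l →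
    1 ≤ w → (w : ℝ) ≤ c * wd μ s r → w ≤ r ∧ ∀ t y0 : ℤ,
    ∫ η, sm μ s η (Finset.Ico y0 (y0 + w)) t l ∂(law μ) ≤ -(κ * EE μ s l) := by
  have hc0 := h.c0
  have hc1 := h.c1
  have hC1 := h.C1
  have hC0 : 0 < C := lt_of_lt_of_le one_pos hC1
  obtain ⟨c', hc', n1, hnr⟩ := nonrand h
  obtain ⟨J, n2, hJ⟩ := scale_a h (2 * C / c')
  have hsl := h.sl_lt
  obtain ⟨nI, hvA⟩ := eventually_atTop.1 (h.tv.eventually_le_const (show (0 : ℝ) < 1 - sl μ s by linarith))
  obtain ⟨κ, hκ⟩ : ∃ κ : ℝ, κ = c' / 2 := ⟨_, rfl⟩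
  have hκ0 : 0 < κ := by rw [hκ]; positivity
  refine ⟨κ, hκ0, J, n1 + n2 + nI + n₀ + 4, fun r l w hr hrl hw1 hw => ?_⟩
  have hrl' : r ≤ l := by
    have : 1 * r ≤ 2 ^ J * r := Nat.mul_le_mul_right r Nat.one_le_two_pow
    omega
  have hEl := EE_pos (μ := μ) (s := s) l
  have hEr := EE_pos (μ := μ) (s := s) r
  have hmono := EE_mono (μ := μ) (s := s)
  have hwr : c * wd μ s r ≤ r * (1 - sl μ s) := by
    unfold wd
    have h1 := hvA r (by omega)
    have h2 := h.vA_nonneg r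
    have h3 : (0 : ℝ) ≤ r := Nat.cast_nonneg r
    have h4 : r * vA 1 μ s r ≤ r * (1 - sl μ s) := mul_le_mul_of_nonneg_left h1 h3
    have h5 : c * (r * vA 1 μ s r) ≤ 1 * (r * vA 1 μ s r) := mul_le_mul_of_nonneg_right hc1 (mul_nonneg h3 h2)
    linarith
  have hwr' : w ≤ r := by
    have h1 : (r : ℝ) * (1 - sl μ s) ≤ r * 1 := mul_le_mul_of_nonneg_left (by linarith [h.sl_pos]) (Nat.cast_nonneg r)
    have : (w : ℝ) ≤ r := by linarith
    exact_mod_cast this
  refine ⟨hwr', fun t y0 => ?_⟩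
  obtain ⟨I, hI⟩ : ∃ I : Finset ℤ, I = Finset.Ico (md μ s r) (md μ s r + w) := ⟨_, rfl⟩
  have hIne : I.Nonempty := ⟨md μ s r, by rw [hI, Finset.mem_Ico]; omega⟩
  have hmdr1 := md_le (μ := μ) (s := s) r
  have hmdr2 := lt_md (μ := μ) (s := s) r
  have hmd0 := h.md_nonneg r
  have hIr : ∀ x ∈ I, (0 ≤ x ∧ x ≤ r) ∧ ep μ s r x ≤ C * EE μ s r := by
    intro x hx
    rw [hI, Finset.mem_Ico] at hx
    have h1 : (md μ s r : ℝ) ≤ x := by exact_mod_cast hx.1
    have h2 : (x : ℝ) + 1 ≤ md μ s r + w := by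
      have : x + 1 ≤ md μ s r + w := by omega
      exact_mod_cast this
    have h3 : x ≤ r := by
      have : (x : ℝ) ≤ r := by
        have : (r : ℝ) * (1 - sl μ s) = r - sl μ s * r := by ring
        linarith
      exact_mod_cast this
    refine ⟨⟨by omega, h3⟩, h.inn r (by omega) r x (by omega) (by omega) h3 ?_⟩
    have e2 : c * vA 1 μ s r * r = c * wd μ s r := by unfold wd; ring
    rw [e2, abs_le]
    constructor <;> linarith
  have hmean := sm_mean (μ := μ) h.em r l hIne (fun x hx => (hIr x hx).1) (B := C * EE μ s r) fun x hx => (hIr x hx).2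
  have h1 := (hnr (r + l) (by omega)).1
  have h2 : C * EE μ s r ≤ c' / 2 * EE μ s l := by
    have h3 := hJ r l (by omega) hrl
    have h4 := mul_le_mul_of_nonneg_left h3 (show 0 ≤ c' / 2 by positivity)
    have h5 : c' / 2 * (2 * C / c' * EE μ s r) = C * EE μ s r := by field_simp
    linarith
  have h3 : EE μ s l ≤ EE μ s (r + l) := hmono (by omega)
  have h4 : ∫ η, sm μ s η I r l ∂(law μ) ≤ -(κ * EE μ s l) := by
    rw [hκ]
    have h5 := mul_le_mul_of_nonneg_left h3 hc'.le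
    linarith
  have h5 := int_sm (μ := μ) (s := s) (fun x => x) measurable_id w t r y0 (md μ s r) l
  rw [h5, ← hI]
  exact h4

/-- The exponential moment of the positive part. -/
theorem cell_luck (h : In μ s c C n₀) : ∃ n₁ : ℕ, ∀ l w : ℕ, n₁ ≤ l → 1 ≤ w → (w : ℝ) ≤ 2 * wd μ s l → w ≤ l →
    ∀ t y0 : ℤ, ∫ η, Real.exp (max (sm μ s η (Finset.Ico y0 (y0 + w)) t l) 0 / (2 * (C * EE μ s l))) ∂(law μ) ≤
      Real.exp 1 * C := by
  obtain ⟨c', hc', n1, hn1⟩ := wd_ge h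
  have hC0 : 0 < C := lt_of_lt_of_le one_pos h.C1
  refine ⟨max (max n₀ n1) 1, fun l w hl hw1 hw hwl t y0 => ?_⟩
  have hln₀ : n₀ ≤ l := (le_max_left _ _).trans ((le_max_left _ _).trans hl)
  have hl1 : 1 ≤ l := (le_max_right _ _).trans hl
  have hE := EE_pos (μ := μ) (s := s) l
  have hwd : 0 < wd μ s l := lt_of_lt_of_le (by positivity) (hn1 l ((le_max_right _ _).trans ((le_max_left _ _).trans hl)))
  have hCE : 0 < C * EE μ s l := by positivity
  -- translation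
  have hF : Measurable fun x : ℝ => Real.exp (max x 0 / (2 * (C * EE μ s l))) :=
    Real.measurable_exp.comp ((measurable_id.max measurable_const).div_const _)
  have e0 := int_sm (μ := μ) (s := s) (fun x : ℝ => Real.exp (max x 0 / (2 * (C * EE μ s l)))) hF w t 0 y0 0 l
  rw [e0]
  -- two boxes
  obtain ⟨M, hM⟩ : ∃ M : ℝ → Env → ℝ, M = fun z η => Mh μ s (sl μ s) 0 (wd μ s l) z (4 * l) η := ⟨_, rfl⟩
  have hMS : ∀ z, Sub (M z) := fun z => by rw [hM]; exact Sub_Mh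
  have hM0 : ∀ z η, 0 ≤ M z η := fun z η => by rw [hM]; exact Mh_nonneg η
  have hMl : ∀ z, ∫ η, Real.exp (M z η / (C * EE μ s l)) ∂(law μ) ≤ C := by
    intro z
    have := h.luck l hln₀ 0 z (by
      rw [abs_zero, zero_mul]
      have := h.c0
      positivity)
    rw [hM]
    exact this
  obtain ⟨z1, hz1⟩ : ∃ z : ℝ, z = -(1 / 2) := ⟨_, rfl⟩
  obtain ⟨z2, hz2⟩ : ∃ z : ℝ, z = -(1 / 2) + wd μ s l := ⟨_, rfl⟩
  have hV : ∀ η, ∀ x : ℤ, 0 ≤ x → x < (w : ℤ) → V μ s η (0, x) l ≤ M z1 η + M z2 η := by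
    intro η x hx0 hxw
    have hbox : ∀ z : ℝ, z < (x : ℝ) → (x : ℝ) ≤ z + wd μ s l → V μ s η (0, x) l ≤ M z η := by
      intro z h1 h2
      have hq : (((0 : ℕ), x), l) ∈ Bx (sl μ s) (wd μ s l) z (4 * l) := by
        rw [mem_Bx h.sl_pos.le h.sl_lt.le]
        refine ⟨?_, ?_, ?_⟩
        · show 0 + l ≤ 4 * l
          omega
        · show z < (x : ℝ) - sl μ s * ((0 : ℕ) : ℝ)
          push_cast
          linarith
        · show (x : ℝ) - sl μ s * ((0 : ℕ) : ℝ) ≤ z + wd μ s l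
          push_cast
          linarith
      have h3 := le_Mh (μ := μ) (s := s) (v := sl μ s) (h := 0) η hq
      have h4 : T μ s (sl μ s) 0 η (((0 : ℕ) : ℤ), x) l = V μ s η (0, x) l := by
        unfold T kap
        simp only [add_zero, sub_self, zero_mul, mul_zero]
        rfl
      have h5 : T μ s (sl μ s) 0 η (((0 : ℕ) : ℤ), x) l ≤ M z η := by
        rw [hM]
        exact h3
      rw [← h4]
      exact h5
    have hxR : (0 : ℝ) ≤ x := by exact_mod_cast hx0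
    have hxw' : (x : ℝ) + 1 ≤ w := by exact_mod_cast hxw
    rcases le_or_gt (x : ℝ) (z1 + wd μ s l) with h1 | h1
    · have := hbox z1 (by rw [hz1]; linarith) h1
      have := hM0 z2 η
      linarith
    · have := hbox z2 (by rw [hz2]; rw [hz1] at h1; exact h1) (by rw [hz2]; linarith)
      have := hM0 z1 η
      linarith
  have hsm : ∀ η, max (sm μ s η (Finset.Ico 0 (0 + (w : ℤ))) 0 l) 0 ≤ C * EE μ s l + (M z1 η + M z2 η) := by
    intro η
    have hS0 := add_nonneg (hM0 z1 η) (hM0 z2 η)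
    refine max_le ?_ (add_nonneg hCE.le hS0)
    have hne : (Finset.Ico (0 : ℤ) (0 + (w : ℤ))).Nonempty := ⟨0, by rw [Finset.mem_Ico]; omega⟩
    unfold sm
    rw [Real.log_le_iff_le_exp (sm_pos η hne 0 l)]
    have h1 : ∀ x ∈ Finset.Ico (0 : ℤ) (0 + (w : ℤ)), Real.exp (V μ s η (0, x) l) ≤ Real.exp (M z1 η + M z2 η) := by
      intro x hx
      rw [Finset.mem_Ico] at hx
      exact Real.exp_le_exp.2 (hV η x hx.1 (by omega))
    refine (Finset.sum_le_sum h1).trans ?_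
    rw [Finset.sum_const, nsmul_eq_mul, Real.exp_add (C * EE μ s l)]
    refine mul_le_mul_of_nonneg_right ?_ (Real.exp_pos _).le
    have h2 : ((Finset.Ico (0 : ℤ) (0 + (w : ℤ))).card : ℝ) = w := by simp
    rw [h2]
    have h3 := h.lg l hl1
    have h4 : (w : ℝ) ≤ l := by exact_mod_cast hwl
    have h5 : (0 : ℝ) < l := by exact_mod_cast hl1
    calc (w : ℝ) ≤ l := h4
      _ = Real.exp (Real.log l) := (Real.exp_log h5).symm
      _ ≤ Real.exp (C * EE μ s l) := Real.exp_le_exp.2 h3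
  have hexpS : ∀ z, Sub fun η => M z η / (C * EE μ s l) := by
    intro z
    have := (hMS z).const_mul (1 / (C * EE μ s l))
    refine (congrArg Pool.Agent.W_7d29a1_F.Sub (funext fun η => ?_)).mp this
    ring
  have hpt : ∀ η, Real.exp (max (sm μ s η (Finset.Ico 0 (0 + (w : ℤ))) 0 l) 0 / (2 * (C * EE μ s l))) ≤
      Real.exp 1 * ((1 / 2) * Real.exp (M z1 η / (C * EE μ s l)) + (1 / 2) * Real.exp (M z2 η / (C * EE μ s l))) := by
    intro η
    obtain ⟨a, ha⟩ : ∃ a : ℝ, a = M z1 η / (C * EE μ s l) := ⟨_, rfl⟩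
    obtain ⟨b, hb⟩ : ∃ b : ℝ, b = M z2 η / (C * EE μ s l) := ⟨_, rfl⟩
    have h1 : max (sm μ s η (Finset.Ico 0 (0 + (w : ℤ))) 0 l) 0 / (2 * (C * EE μ s l)) ≤ 1 + (a / 2 + b / 2) := by
      rw [div_le_iff₀ (by positivity), ha, hb]
      have h2 : (1 + (M z1 η / (C * EE μ s l) / 2 + M z2 η / (C * EE μ s l) / 2)) * (2 * (C * EE μ s l)) =
          2 * (C * EE μ s l) + (M z1 η + M z2 η) := by
        field_simp
      rw [h2]
      have := hsm η
      linarith
    refine (Real.exp_le_exp.2 h1).trans ?_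
    rw [Real.exp_add, ← ha, ← hb]
    refine mul_le_mul_of_nonneg_left ?_ (Real.exp_pos _).le
    have h3 : Real.exp (a / 2 + b / 2) = Real.exp (a / 2) * Real.exp (b / 2) := Real.exp_add _ _
    have h4 : Real.exp a = Real.exp (a / 2) ^ 2 := by rw [← Real.exp_nat_mul]; congr 1; push_cast; ring
    have h5 : Real.exp b = Real.exp (b / 2) ^ 2 := by rw [← Real.exp_nat_mul]; congr 1; push_cast; ring
    rw [h3, h4, h5]
    nlinarith [sq_nonneg (Real.exp (a / 2) - Real.exp (b / 2))]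
  have hint : ∀ z, Integrable (fun η => Real.exp (M z η / (C * EE μ s l))) (law μ) := fun z => (hexpS z).exp_int h.em
  have hsub : Sub fun η => max (sm μ s η (Finset.Ico 0 (0 + (w : ℤ))) 0 l) 0 / (2 * (C * EE μ s l)) := by
    have h1 := ((Sub_sm (μ := μ) (s := s) (I := Finset.Ico 0 (0 + (w : ℤ))) ⟨0, by rw [Finset.mem_Ico]; omega⟩ 0 l).max
      (Sub.const 0)).const_mul (1 / (2 * (C * EE μ s l)))
    refine (congrArg Pool.Agent.W_7d29a1_F.Sub (funext fun η => ?_)).mp h1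
    ring
  have h1 := integral_mono (hsub.exp_int h.em)
    ((((hint z1).const_mul (1 / 2)).add ((hint z2).const_mul (1 / 2))).const_mul (Real.exp 1)) hpt
  refine h1.trans ?_
  rw [integral_const_mul]
  refine mul_le_mul_of_nonneg_left ?_ (Real.exp_pos _).le
  have h2 : ∫ η, ((fun η => 1 / 2 * Real.exp (M z1 η / (C * EE μ s l))) + fun η => 1 / 2 * Real.exp (M z2 η / (C * EE μ s l))) η
      ∂(law μ) = 1 / 2 * ∫ η, Real.exp (M z1 η / (C * EE μ s l)) ∂(law μ) +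
        1 / 2 * ∫ η, Real.exp (M z2 η / (C * EE μ s l)) ∂(law μ) := by
    show ∫ η, (1 / 2 * Real.exp (M z1 η / (C * EE μ s l)) + 1 / 2 * Real.exp (M z2 η / (C * EE μ s l))) ∂(law μ) = _
    rw [integral_add ((hint z1).const_mul _) ((hint z2).const_mul _), integral_const_mul, integral_const_mul]
  rw [h2]
  have h3 := hMl z1
  have h4 := hMl z2
  linarith

/-- **THE EXPONENTIAL MOMENT OF A CELL**: negative drift at every small parameter. -/
theorem cell_exp (h : In μ s c C n₀) : ∃ κ δ₀ : ℝ, 0 < κ ∧ 0 < δ₀ ∧ ∃ J n₁ : ℕ, ∀ r l w : ℕ, n₁ ≤ r → 2 ^ J * r ≤ l →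
    1 ≤ w → (w : ℝ) ≤ c * wd μ s r → ∀ t y0 : ℤ, ∀ δ : ℝ, 0 < δ → δ ≤ δ₀ →
    Integrable (fun η => Real.exp (δ * (sm μ s η (Finset.Ico y0 (y0 + w)) t l / EE μ s l))) (law μ) ∧
    ∫ η, Real.exp (δ * (sm μ s η (Finset.Ico y0 (y0 + w)) t l / EE μ s l)) ∂(law μ) ≤ Real.exp (-(κ * δ)) := by
  have hc0 := h.c0
  have hc1 := h.c1
  have hC0 : 0 < C := lt_of_lt_of_le one_pos h.C1
  obtain ⟨κ, hκ, J, n1, h1⟩ := cell_mean h
  obtain ⟨n2, h2⟩ := cell_luck h
  obtain ⟨A, hA0, hA⟩ := unluck_pow h 2 (by norm_num)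
  obtain ⟨B, hB⟩ : ∃ B : ℝ, B = 2 * C := ⟨_, rfl⟩
  have hB0 : 0 < B := by rw [hB]; positivity
  obtain ⟨K, hK⟩ : ∃ K : ℝ, K = Real.exp 1 * C := ⟨_, rfl⟩
  have hK0 : 0 < K := by rw [hK]; positivity
  have hden : 0 < A + 8 * B ^ 2 * K := by positivity
  refine ⟨κ / 2, min (1 / (2 * B)) (κ / (2 * (A + 8 * B ^ 2 * K))), by positivity, lt_min (by positivity) (by positivity), J,
    n1 + n2 + 1, fun r l w hr hrl hw1 hw t y0 δ hδ hδ₀ => ?_⟩
  have hrl' : r ≤ l := by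
    have : 1 * r ≤ 2 ^ J * r := Nat.mul_le_mul_right r Nat.one_le_two_pow
    omega
  obtain ⟨hwr, h3⟩ := h1 r l w (by omega) hrl hw1 hw
  have hEl := EE_pos (μ := μ) (s := s) l
  have hwl : (w : ℝ) ≤ 2 * wd μ s l := by
    have h4 := wd_le_two h (show 1 ≤ r by omega) hrl'
    have h5 : 0 ≤ wd μ s r := by
      unfold wd
      exact mul_nonneg (Nat.cast_nonneg r) (h.vA_nonneg r)
    have h6 : c * wd μ s r ≤ 1 * wd μ s r := mul_le_mul_of_nonneg_right hc1 h5
    linarith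
  obtain ⟨I, hI⟩ : ∃ I : Finset ℤ, I = Finset.Ico y0 (y0 + (w : ℤ)) := ⟨_, rfl⟩
  have hIy : y0 ∈ I := by rw [hI, Finset.mem_Ico]; omega
  have hIne : I.Nonempty := ⟨y0, hIy⟩
  have hsub : Sub fun η : Env => sm μ s η I t l := Sub_sm hIne t l
  have hsubE : Sub fun η : Env => sm μ s η I t l / EE μ s l := by
    have := hsub.const_mul (1 / EE μ s l)
    refine (congrArg Pool.Agent.W_7d29a1_F.Sub (funext fun η => ?_)).mp this
    ring
  obtain ⟨g, hg⟩ : ∃ g : Env → ℝ, g = fun η => max (-V μ s η (t, y0) l) 0 / EE μ s l := ⟨_, rfl⟩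
  have hVsub : Sub fun η : Env => max (-V μ s η 0 l) 0 := (Sub_V (μ := μ) (s := s) 0 l).neg.max (Sub.const 0)
  have hgsub' : Sub fun η : Env => max (-V μ s η (t, y0) l) 0 := (Sub_V (μ := μ) (s := s) _ l).neg.max (Sub.const 0)
  have hgsub : Sub g := by
    have := hgsub'.const_mul (1 / EE μ s l)
    rw [hg]
    refine (congrArg Pool.Agent.W_7d29a1_F.Sub (funext fun η => ?_)).mp this
    ring
  have hgint : Integrable (fun η => g η ^ 2) (law μ) := by
    have := Sub_pow_integrable (μ := μ) h.em hgsub 2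
    simpa using this
  have hg2 : ∫ η, g η ^ 2 ∂(law μ) ≤ A := by
    have h5 := Pool.Agent.W_7d29a1_f21.mp_integral (mp_sh (μ := μ) (t, y0))
      (F := fun η : Env => max (-V μ s η 0 l) 0 ^ 2) (hVsub.1.pow_const 2).aestronglyMeasurable
    have h6 : ∫ η, g η ^ 2 ∂(law μ) = (∫ η, max (-V μ s η 0 l) 0 ^ 2 ∂(law μ)) / EE μ s l ^ 2 := by
      rw [← h5, ← integral_div]
      refine integral_congr_ae (Filter.Eventually.of_forall fun η => ?_)
      show g η ^ 2 = max (-V μ s (sh (t, y0) η) 0 l) 0 ^ 2 / EE μ s l ^ 2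
      rw [V_sh, zero_add, hg, div_pow]
    rw [h6, div_le_iff₀ (by positivity)]
    exact hA l (by omega)
  have hXi : Integrable (fun η => sm μ s η I t l / EE μ s l) (law μ) := hsubE.integrable h.em
  have hm : ∫ η, sm μ s η I t l / EE μ s l ∂(law μ) ≤ -κ := by
    rw [integral_div, div_le_iff₀ hEl]
    have h4 := h3 t y0
    rw [hI]
    linarith
  have hgle : ∀ η, max (-(sm μ s η I t l / EE μ s l)) 0 ≤ g η := by
    intro η
    rw [hg]
    have h4 := V_le_sm (μ := μ) (s := s) η t l hIy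
    have h5 : 0 ≤ max (-V μ s η (t, y0) l) 0 / EE μ s l := div_nonneg (le_max_right _ _) hEl.le
    refine max_le ?_ h5
    rw [← neg_div]
    refine div_le_div_of_nonneg_right ?_ hEl.le
    exact (neg_le_neg h4).trans (le_max_left _ _)
  have hE2 : ∀ η, max (sm μ s η I t l / EE μ s l) 0 / B = max (sm μ s η I t l) 0 / (2 * (C * EE μ s l)) := by
    intro η
    have h4 : max (sm μ s η I t l / EE μ s l) 0 = max (sm μ s η I t l) 0 / EE μ s l := by
      rcases le_or_gt 0 (sm μ s η I t l) with h5 | h5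
      · rw [max_eq_left h5, max_eq_left (div_nonneg h5 hEl.le)]
      · rw [max_eq_right h5.le, max_eq_right (div_nonpos_of_nonpos_of_nonneg h5.le hEl.le), zero_div]
    rw [h4, hB]
    field_simp
  have hei : Integrable (fun η => Real.exp (max (sm μ s η I t l / EE μ s l) 0 / B)) (law μ) := by
    have h4 : Sub fun η : Env => max (sm μ s η I t l / EE μ s l) 0 / B := by
      have := (hsubE.max (Sub.const 0)).const_mul (1 / B)
      refine (congrArg Pool.Agent.W_7d29a1_F.Sub (funext fun η => ?_)).mp this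
      ring
    exact h4.exp_int h.em
  have h5 : ∫ η, Real.exp (max (sm μ s η I t l / EE μ s l) 0 / B) ∂(law μ) ≤ K := by
    simp only [hE2]
    rw [hK, hI]
    exact h2 l w (by omega) hw1 hwl (by omega) t y0
  have hδκ : δ * (A + 8 * B ^ 2 * K) ≤ κ / 2 := by
    have h6 : δ ≤ κ / (2 * (A + 8 * B ^ 2 * K)) := hδ₀.trans (min_le_right _ _)
    have h7 := mul_le_mul_of_nonneg_right h6 hden.le
    have h8 : κ / (2 * (A + 8 * B ^ 2 * K)) * (A + 8 * B ^ 2 * K) = κ / 2 := by field_simp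
    linarith
  have h6 := exp_mom (P := law μ) (X := fun η => sm μ s η I t l / EE μ s l) (g := g) hXi hκ hA0 hB0 hK0.le hm hgle hgint hg2
    hei h5 hδ (hδ₀.trans (min_le_left _ _)) hδκ
  rw [← hI]
  exact h6

/-! ### The sum over independent environments and consecutive blocks -/

/-- **LARGE DEVIATIONS.** Exponential moment of the sum of the soft maxima in the unit `EE l₀`. -/
theorem ldm_exp (h : In μ s c C n₀) : ∃ κ δ₀ : ℝ, 0 < κ ∧ 0 < δ₀ ∧ ∃ J n₁ : ℕ, ∀ r l₀ w : ℕ, n₁ ≤ r → 2 ^ J * r ≤ l₀ →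
    1 ≤ w → (w : ℝ) ≤ c * wd μ s r → ∀ (N b : ℕ) (l : ℕ → ℕ), (∀ k, l₀ ≤ l k ∧ l k ≤ 2 * l₀) →
    ∀ t : ℕ → ℤ, (∀ j k, j < k → t j + l j ≤ t k) → ∀ y : Fin N → ℕ → ℤ, ∀ δ : ℝ, 0 < δ → δ ≤ δ₀ →
    Integrable (fun ηs : Fin N → Env => Real.exp (δ * ((∑ i, ∑ k ∈ Finset.range b,
      sm μ s (ηs i) (Finset.Ico (y i k) (y i k + w)) (t k) (l k)) / EE μ s l₀))) (Measure.pi fun _ : Fin N => law μ) ∧
    ∫ ηs, Real.exp (δ * ((∑ i, ∑ k ∈ Finset.range b,
      sm μ s (ηs i) (Finset.Ico (y i k) (y i k + w)) (t k) (l k)) / EE μ s l₀)) ∂(Measure.pi fun _ : Fin N => law μ) ≤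
      Real.exp (-(κ * δ * (N * b))) := by
  obtain ⟨κ, δ₁, hκ, hδ₁, J, n1, h1⟩ := cell_exp h
  refine ⟨κ, δ₁ / 4, hκ, by positivity, J, n1 + 1, fun r l₀ w hr hrl hw1 hw N b l hl t ht y δ hδ hδ₀ => ?_⟩
  have hrl' : r ≤ l₀ := by
    have : 1 * r ≤ 2 ^ J * r := Nat.mul_le_mul_right r Nat.one_le_two_pow
    omega
  have hE0 := EE_pos (μ := μ) (s := s) l₀
  have hmono := EE_mono (μ := μ) (s := s)
  -- one block
  have hblk : ∀ (i : Fin N) (k : ℕ), Integrable (fun η => Real.exp (δ * (sm μ s η (Finset.Ico (y i k) (y i k + w)) (t k) (l k) /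
      EE μ s l₀))) (law μ) ∧ ∫ η, Real.exp (δ * (sm μ s η (Finset.Ico (y i k) (y i k + w)) (t k) (l k) / EE μ s l₀)) ∂(law μ) ≤
        Real.exp (-(κ * δ)) := by
    intro i k
    obtain ⟨hl1, hl2⟩ := hl k
    have hEk := EE_pos (μ := μ) (s := s) (l k)
    obtain ⟨ρ, hρ⟩ : ∃ ρ : ℝ, ρ = EE μ s (l k) / EE μ s l₀ := ⟨_, rfl⟩
    have hρ1 : 1 ≤ ρ := by
      rw [hρ, le_div_iff₀ hE0, one_mul]
      exact hmono hl1
    have hρ4 : ρ ≤ 4 := by
      rw [hρ, div_le_iff₀ hE0]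
      have h2 := scale_b h (show 1 ≤ l₀ by omega) hl1
      have h3 : (l k : ℝ) ≤ 2 * l₀ := by exact_mod_cast hl2
      have h4 : (0 : ℝ) < l₀ := by
        have : 0 < l₀ := by omega
        exact_mod_cast this
      have h5 : 2 * ((l k : ℝ) * EE μ s l₀) ≤ 2 * (2 * l₀ * EE μ s l₀) :=
        mul_le_mul_of_nonneg_left (mul_le_mul_of_nonneg_right h3 hE0.le) (by norm_num)
      have h6 : (l₀ : ℝ) * EE μ s (l k) ≤ l₀ * (4 * EE μ s l₀) := by linarith
      exact le_of_mul_le_mul_left h6 h4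
    have hδ' : 0 < δ * ρ := by positivity
    have hδ'' : δ * ρ ≤ δ₁ := by
      have := mul_le_mul hδ₀ hρ4 (by linarith) (by positivity)
      linarith
    have hrlk : 2 ^ J * r ≤ l k := hrl.trans hl1
    obtain ⟨h2, h3⟩ := h1 r (l k) w (by omega) hrlk hw1 hw (t k) (y i k) (δ * ρ) hδ' hδ''
    have e1 : ∀ x : ℝ, δ * ρ * (x / EE μ s (l k)) = δ * (x / EE μ s l₀) := by
      intro x
      rw [hρ]
      field_simp
    simp only [e1] at h2 h3
    refine ⟨h2, h3.trans (Real.exp_le_exp.2 ?_)⟩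
    have : κ * δ * 1 ≤ κ * δ * ρ := mul_le_mul_of_nonneg_left hρ1 (by positivity)
    linarith
  -- one environment
  have hfac : ∀ ηs : Fin N → Env, Real.exp (δ * ((∑ i, ∑ k ∈ Finset.range b,
      sm μ s (ηs i) (Finset.Ico (y i k) (y i k + w)) (t k) (l k)) / EE μ s l₀)) =
      ∏ i, ∏ k ∈ Finset.range b, Real.exp (δ * (sm μ s (ηs i) (Finset.Ico (y i k) (y i k + w)) (t k) (l k) / EE μ s l₀)) := by
    intro ηs
    have e1 : δ * ((∑ i, ∑ k ∈ Finset.range b, sm μ s (ηs i) (Finset.Ico (y i k) (y i k + w)) (t k) (l k)) / EE μ s l₀) =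
        ∑ i, ∑ k ∈ Finset.range b, δ * (sm μ s (ηs i) (Finset.Ico (y i k) (y i k + w)) (t k) (l k) / EE μ s l₀) := by
      rw [Finset.sum_div, Finset.mul_sum]
      refine Finset.sum_congr rfl fun i _ => ?_
      rw [Finset.sum_div, Finset.mul_sum]
    rw [e1, Real.exp_sum]
    exact Finset.prod_congr rfl fun i _ => Real.exp_sum _ _
  have hrow : ∀ i : Fin N, ∫ η, ∏ k ∈ Finset.range b,
      Real.exp (δ * (sm μ s η (Finset.Ico (y i k) (y i k + w)) (t k) (l k) / EE μ s l₀)) ∂(law μ) =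
      ∏ k ∈ Finset.range b, ∫ η, Real.exp (δ * (sm μ s η (Finset.Ico (y i k) (y i k + w)) (t k) (l k) / EE μ s l₀)) ∂(law μ) := by
    intro i
    refine indep_prod (μ := μ) (Finset.range b)
      (fun k η => Real.exp (δ * (sm μ s η (Finset.Ico (y i k) (y i k + w)) (t k) (l k) / EE μ s l₀)))
      (fun k => rows (t k) (t k + l k)) ?_ ?_ ?_
    · intro k _
      exact Real.measurable_exp.comp (((measurable_sm _ _ _).div_const _).const_mul _)
    · intro k _ η η' hh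
      have h2 := sm_dep (μ := μ) (s := s) (Finset.Ico (y i k) (y i k + w)) (t k) (l k) hh
      have h3 : sm μ s η (Finset.Ico (y i k) (y i k + w)) (t k) (l k) = sm μ s η' (Finset.Ico (y i k) (y i k + w)) (t k) (l k) := h2
      show Real.exp _ = Real.exp _
      rw [h3]
    · intro j _ k _ hjk
      rcases lt_or_gt_of_ne hjk with h2 | h2
      · exact rows_disj (ht j k h2)
      · exact (rows_disj (ht k j h2)).symm
  -- integrability of one environment
  have hXb : ∀ i : Fin N, Integrable (fun η => ∏ k ∈ Finset.range b,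
      Real.exp (δ * (sm μ s η (Finset.Ico (y i k) (y i k + w)) (t k) (l k) / EE μ s l₀))) (law μ) := by
    intro i
    have h2 : Sub fun η : Env => ∑ k ∈ Finset.range b, δ * (sm μ s η (Finset.Ico (y i k) (y i k + w)) (t k) (l k) / EE μ s l₀) := by
      refine Sub.sum (Finset.range b) fun k _ => ?_
      have h3 := (Sub_sm (μ := μ) (s := s) (I := Finset.Ico (y i k) (y i k + w)) ⟨y i k, by rw [Finset.mem_Ico]; omega⟩
        (t k) (l k)).const_mul (δ * (1 / EE μ s l₀))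
      refine (congrArg Pool.Agent.W_7d29a1_F.Sub (funext fun η => ?_)).mp h3
      ring
    have h4 := h2.exp_int h.em
    refine h4.congr (ae_of_all _ fun η => ?_)
    exact Real.exp_sum _ _
  have hprod := integral_fintype_prod_eq_prod (𝕜 := ℝ) (μ := fun _ : Fin N => law μ) (fun (i : Fin N) (η : Env) => ∏ k ∈ Finset.range b,
    Real.exp (δ * (sm μ s η (Finset.Ico (y i k) (y i k + w)) (t k) (l k) / EE μ s l₀)))
  constructor
  · simp only [hfac]
    exact Integrable.fintype_prod (f := fun (i : Fin N) (η : Env) => ∏ k ∈ Finset.range b,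
      Real.exp (δ * (sm μ s η (Finset.Ico (y i k) (y i k + w)) (t k) (l k) / EE μ s l₀))) hXb
  · simp only [hfac]
    rw [hprod]
    simp only [hrow]
    calc ∏ i : Fin N, ∏ k ∈ Finset.range b, ∫ η, Real.exp (δ * (sm μ s η (Finset.Ico (y i k) (y i k + w)) (t k) (l k) /
          EE μ s l₀)) ∂(law μ) ≤ ∏ _i : Fin N, ∏ _k ∈ Finset.range b, Real.exp (-(κ * δ)) := by
          refine Finset.prod_le_prod (fun i _ => Finset.prod_nonneg fun k _ => integral_nonneg fun η => (Real.exp_pos _).le)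
            fun i _ => ?_
          exact Finset.prod_le_prod (fun k _ => integral_nonneg fun η => (Real.exp_pos _).le) fun k _ => (hblk i k).2
      _ = Real.exp (-(κ * δ * (N * b))) := by
          rw [Finset.prod_const, Finset.prod_const, Finset.card_range, Finset.card_univ, Fintype.card_fin, ← pow_mul,
            ← Real.exp_nat_mul]
          congr 1
          push_cast
          ring

/-- **LARGE DEVIATIONS OF THE SOFT MAXIMA** (leaf M4). -/
theorem ldm (h : In μ s c C n₀) : ∃ κ c5 : ℝ, 0 < κ ∧ 0 < c5 ∧ ∃ J n₁ : ℕ, ∀ r l₀ w : ℕ, n₁ ≤ r → 2 ^ J * r ≤ l₀ →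
    1 ≤ w → (w : ℝ) ≤ c * wd μ s r → ∀ (N b : ℕ) (l : ℕ → ℕ), (∀ k, l₀ ≤ l k ∧ l k ≤ 2 * l₀) →
    ∀ t : ℕ → ℤ, (∀ j k, j < k → t j + l j ≤ t k) → ∀ y : Fin N → ℕ → ℤ,
    (Measure.pi fun _ : Fin N => law μ).real {ηs | -(κ * (N * b) * EE μ s l₀) ≤ ∑ i, ∑ k ∈ Finset.range b,
      sm μ s (ηs i) (Finset.Ico (y i k) (y i k + w)) (t k) (l k)} ≤ Real.exp (-(c5 * (N * b))) := by
  obtain ⟨κ, δ, hκ, hδ, J, n1, h1⟩ := ldm_exp h
  refine ⟨κ / 2, κ * δ / 2, by positivity, by positivity, J, n1, fun r l₀ w hr hrl hw1 hw N b l hl t ht y => ?_⟩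
  obtain ⟨h2, h3⟩ := h1 r l₀ w hr hrl hw1 hw N b l hl t ht y δ hδ le_rfl
  have hE0 := EE_pos (μ := μ) (s := s) l₀
  obtain ⟨F, hF⟩ : ∃ F : (Fin N → Env) → ℝ, F = fun ηs => Real.exp (δ * ((∑ i, ∑ k ∈ Finset.range b,
      sm μ s (ηs i) (Finset.Ico (y i k) (y i k + w)) (t k) (l k)) / EE μ s l₀)) := ⟨_, rfl⟩
  rw [← hF] at h2 h3
  have h4 := mul_meas_ge_le_integral_of_nonneg (μ := Measure.pi fun _ : Fin N => law μ) (f := F)
    (ae_of_all _ fun ηs => by rw [hF]; exact (Real.exp_pos _).le) h2 (Real.exp (-(κ * δ / 2 * (N * b))))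
  have hsub : {ηs : Fin N → Env | -(κ / 2 * (N * b) * EE μ s l₀) ≤ ∑ i, ∑ k ∈ Finset.range b,
      sm μ s (ηs i) (Finset.Ico (y i k) (y i k + w)) (t k) (l k)} ⊆ {ηs | Real.exp (-(κ * δ / 2 * (N * b))) ≤ F ηs} := by
    intro ηs hη
    rw [Set.mem_ofPred_eq] at hη ⊢
    rw [hF]
    refine Real.exp_le_exp.2 ?_
    have h5 : -(κ / 2 * (N * b)) ≤ (∑ i, ∑ k ∈ Finset.range b,
        sm μ s (ηs i) (Finset.Ico (y i k) (y i k + w)) (t k) (l k)) / EE μ s l₀ := by
      rw [le_div_iff₀ hE0]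
      linarith
    have h6 := mul_le_mul_of_nonneg_left h5 hδ.le
    linarith
  have h5 := measureReal_mono (μ := Measure.pi fun _ : Fin N => law μ) hsub (measure_ne_top _ _)
  refine h5.trans ?_
  have h6 : Real.exp (-(κ * δ / 2 * (N * b))) * (Measure.pi fun _ : Fin N => law μ).real
      {ηs | Real.exp (-(κ * δ / 2 * (N * b))) ≤ F ηs} ≤ Real.exp (-(κ * δ * (N * b))) := h4.trans h3
  have h7 : Real.exp (-(κ * δ * (N * b))) = Real.exp (-(κ * δ / 2 * (N * b))) * Real.exp (-(κ * δ / 2 * (N * b))) := by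
    rw [← Real.exp_add]
    congr 1
    ring
  rw [h7] at h6
  exact le_of_mul_le_mul_left h6 (Real.exp_pos _)

end

end Pool.Agent.W_7d29a1_C1.LDm35
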