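import Pool.Agent.W_7d29a1_C1.CoarA89
import Pool.Agent.W_7d29a1_C1.Arr35
import Pool.Agent.W_7d29a1_C1.LDm35

/-!
Both halves (MP_7d29a1_pr), attractor route, MEET_d (row 683, sections (2) - (4)): THE COARSE SUM. (helper89)

`Zc T x lo hi η` = sum over the tuples of paths from `(0, x i)` without a common site, in the tube `lo ≤ . ≤ hi`, of the product of the
weights. `qQ_Zc`: the confined arrow probability. `coarse`: `E min 1 (lam Zc) ≤ (N + 1) ^ (G b) (exp (- c5 N b) + lam exp (- κ N b EE l₀))`.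
-/

set_option autoImplicit false

namespace Pool.Agent.W_7d29a1_C1.Coar89

open MeasureTheory Finset Pool.Agent.W_7d29a1_F Pool.Agent.W_7d29a1_C1.Arr89 Pool.Agent.W_7d29a1_C1.Arr35
open Pool.Agent.W_7d29a1_h4g Pool.Agent.W_7d29a1_H Pool.Agent.W_7d29a1_HS Pool.Agent.W_7d29a1_HR
open Pool.Agent.W_7d29a1_X (pos pth GS pth_nonneg)

noncomputable section

variable {μ : Measure ℝ} {s : ℝ}

section

variable {κ : Type*} [Fintype κ] [DecidableEq κ]

/-- The confined sum over the tuples without a common site. -/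
def Zc (μ : Measure ℝ) (s : ℝ) (T : ℕ) (x : κ → ℤ) (lo hi : ℕ → ℝ) (η : Env) : ℝ :=
  Zs μ s T x (fun S => ∀ i, Tube lo hi T (x i) (S i)) fun _ => η

open Classical in
theorem Zc_eq (T : ℕ) (x : κ → ℤ) (lo hi : ℕ → ℝ) (η : Env) :
    Zc μ s T x lo hi η = ∑ S ∈ (Tup T x).filter (fun S => ∀ i, Tube lo hi T (x i) (S i)),
      ∏ i, pth μ s (sh (0, x i) η) T (S i) := by
  unfold Zc Zs
  refine sum_congr ?_ fun _ _ => rfl
  ext S
  simp only [mem_filter]

theorem Zc_nonneg (T : ℕ) (x : κ → ℤ) (lo hi : ℕ → ℝ) (η : Env) : 0 ≤ Zc μ s T x lo hi η := Zs_nonneg _ _ _ _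

theorem measurable_Zc (T : ℕ) (x : κ → ℤ) (lo hi : ℕ → ℝ) : Measurable (Zc μ s T x lo hi) :=
  (measurable_Zs T x _).comp (measurable_pi_iff.2 fun _ => measurable_id)

/-- **The confined arrow probability.** -/
theorem qQ_Zc (T : ℕ) (x : κ → ℤ) (lo hi : ℕ → ℝ) (η : Env) :
    qQ (pq μ s η T) T x (fun S => ∀ i, Tube lo hi T (x i) (S i)) =
      Zc μ s T x lo hi η * Real.exp (-∑ i, V μ s η (0, x i) T) := by
  classical
  unfold Zc Zs qQ
  rw [sum_mul]
  refine sum_congr rfl fun S hS => ?_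
  simp only [mem_filter] at hS
  have hS1 := (mem_Tup.1 hS.1).1
  have e1 : ∀ i, PX (pq μ s η T) (x i) T (S i) = pth μ s (sh (0, x i) η) T (S i) * Real.exp (-V μ s η (0, x i) T) := by
    intro i
    rw [PX_GS η (x i) T (hS1 i)]
    unfold GS
    rw [V_sh, zero_add, Real.exp_neg, div_eq_mul_inv]
  rw [prod_congr rfl fun i _ => e1 i, prod_mul_distrib, ← Real.exp_sum, sum_neg_distrib]

end

/-- The block mass of a cell. -/
theorem Bc_sm (η : Env) (y : ℤ) {w : ℕ} (hw : 1 ≤ w) (t : ℤ) (l : ℕ) :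
    Bc μ s η y w t l = Real.exp (sm μ s η (Ico y (y + w)) t l) := by
  unfold Bc sm
  rw [Real.exp_log]
  exact sm_pos η ⟨y, by rw [mem_Ico]; omega⟩ t l

variable [IsProbabilityMeasure μ] {c C : ℝ} {n₀ : ℕ}

/-- **THE COARSE SUM.** -/
theorem coarse (h : In μ s c C n₀) : ∃ κ c5 : ℝ, 0 < κ ∧ 0 < c5 ∧ ∃ J n₁ : ℕ, ∀ r l₀ w : ℕ, n₁ ≤ r → 2 ^ J * r ≤ l₀ →
    1 ≤ w → (w : ℝ) ≤ c * wd μ s r → ∀ (b G : ℕ) (tt : ℕ → ℕ), tt 0 = 0 →
    (∀ k < b, l₀ ≤ tt (k + 1) - tt k ∧ tt (k + 1) ≤ tt k + 2 * l₀ ∧ tt k ≤ tt (k + 1)) →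
    ∀ x : ℕ → ℤ, Monotone x → ∀ (I : Finset ℕ) (lo hi : ℕ → ℝ) (y0 : ℕ → ℤ),
    (∀ k < b, (y0 k : ℝ) ≤ lo (tt k) ∧ hi (tt k) < y0 k + G * w) → ∀ lam : ℝ, 0 ≤ lam →
    ∫ η, min 1 (lam * Zc μ s (tt b) (fun i : I => x i) lo hi η) ∂(law μ) ≤
      ((I.card : ℝ) + 1) ^ (G * b) *
        (Real.exp (-(c5 * (I.card * b))) + lam * Real.exp (-(κ * (I.card * b) * EE μ s l₀))) := by
  classical
  obtain ⟨κ, c5, hκ, hc5, J, n1, hld⟩ := Pool.Agent.W_7d29a1_C1.LDm35.ldm h
  refine ⟨κ, c5, hκ, hc5, J, n1, fun r l₀ w hr hrl hw1 hw b G tt h0 htt x hx I lo hi y0 hy lam hlam => ?_⟩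
  obtain ⟨N, hN⟩ : ∃ N, N = I.card := ⟨_, rfl⟩
  have hmono : ∀ j k, j ≤ k → k ≤ b → tt j ≤ tt k := by
    intro j k hjk hk
    have : ∀ m, j + m ≤ b → tt j ≤ tt (j + m) := by
      intro m
      induction m with
      | zero => intro _; exact le_rfl
      | succ m ihm =>
        intro hm
        exact (ihm (by omega)).trans (htt (j + m) (by omega)).2.2
    have h1 := this (k - j) (by omega)
    rwa [show j + (k - j) = k from by omega] at h1
  -- the index set
  let e : Fin N ≃o I := I.orderIsoOfFin hN.symm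
  let x' : Fin N → ℤ := fun i => x (e i)
  have hx' : Monotone x' := fun i j hij => hx (by
    have := e.monotone hij
    exact this)
  let Q : (↥I → Finset ℕ) → Prop := fun S => ∀ i : ↥I, Tube lo hi (tt b) (x (i : ℕ)) (S i)
  let Q' : (Fin N → Finset ℕ) → Prop := fun S => Q fun i => S (e.symm i)
  have e1 : ∀ η, Zc μ s (tt b) (fun i : I => x i) lo hi η = Zs μ s (tt b) x' Q' fun _ => η := by
    intro η
    exact (Zs_equiv (μ := μ) (s := s) e.toEquiv (tt b) (fun i : I => x i) Q fun _ => η).symm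
  have hQ : ∀ S, Q' S → ∀ i, ∀ k < b, y0 k ≤ x' i + ps (S i) (tt k) ∧ x' i + ps (S i) (tt k) < y0 k + G * w := by
    intro S hS i k hk
    have h1 := hS (e i) (tt k) (hmono k b hk.le le_rfl)
    have h2 : e.symm (e i) = i := e.symm_apply_apply i
    have h3 : (fun i => S (e.symm i)) (e i) = S i := by
      show S (e.symm (e i)) = S i
      rw [h2]
    rw [h3] at h1
    obtain ⟨h4, h5⟩ := hy k hk
    constructor
    · have : (y0 k : ℝ) ≤ ((x' i + ps (S i) (tt k) : ℤ) : ℝ) := h4.trans h1.1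
      exact_mod_cast this
    · have : ((x' i + ps (S i) (tt k) : ℤ) : ℝ) < y0 k + G * w := lt_of_le_of_lt h1.2 h5
      exact_mod_cast this
  simp only [e1]
  have hbk := bk_Zs (μ := μ) (s := s) (tt b) x' Q' hlam
  refine hbk.trans ?_
  rw [← hN]
  -- the extended rows
  let tt' : ℕ → ℕ := fun k => if k ≤ b then tt k else tt b + (k - b) * l₀
  have ht1 : ∀ k ≤ b, tt' k = tt k := fun k hk => if_pos hk
  have ht2 : ∀ k, b ≤ k → tt' k = tt b + (k - b) * l₀ := by
    intro k hk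
    rcases eq_or_lt_of_le hk with h1 | h1
    · rw [← h1, ht1 b le_rfl, Nat.sub_self, zero_mul, add_zero]
    · exact if_neg (by omega)
  have hstep : ∀ k, l₀ ≤ tt' (k + 1) - tt' k ∧ tt' (k + 1) - tt' k ≤ 2 * l₀ ∧ tt' k ≤ tt' (k + 1) := by
    intro k
    rcases lt_or_ge k b with h1 | h1
    · rw [ht1 k h1.le, ht1 (k + 1) h1]
      obtain ⟨h2, h3, h4⟩ := htt k h1
      exact ⟨h2, by omega, h4⟩
    · rw [ht2 k h1, ht2 (k + 1) (by omega)]
      have h2 : k + 1 - b = (k - b) + 1 := by omega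
      rw [h2, add_mul, one_mul]
      have h3 : tt b + ((k - b) * l₀ + l₀) - (tt b + (k - b) * l₀) = l₀ := by omega
      rw [h3]
      exact ⟨le_rfl, by omega, by omega⟩
  have hmono' : Monotone tt' := monotone_nat_of_le_succ fun k => (hstep k).2.2
  let l : ℕ → ℕ := fun k => tt' (k + 1) - tt' k
  have hl : ∀ k, l₀ ≤ l k ∧ l k ≤ 2 * l₀ := fun k => ⟨(hstep k).1, (hstep k).2.1⟩
  have ht : ∀ j k, j < k → (tt' j : ℤ) + l j ≤ (tt' k : ℤ) := by
    intro j k hjk
    have h1 := hmono' (show j + 1 ≤ k from hjk)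
    have h2 := (hstep j).2.2
    show (tt' j : ℤ) + ((tt' (j + 1) - tt' j : ℕ) : ℤ) ≤ tt' k
    omega
  obtain ⟨E, hE⟩ : ∃ E : ℝ, E = κ * (N * b) * EE μ s l₀ := ⟨_, rfl⟩
  let X : (Fin b → Fin N → Fin G) → (Fin N → Env) → ℝ := fun K ηs => ∑ i, ∑ k ∈ range b,
    sm μ s (ηs i) (Ico (yK y0 w K i k) (yK y0 w K i k + w)) (tt' k) (l k)
  have hXm : ∀ K, Measurable (X K) := by
    intro K
    refine Finset.measurable_sum _ fun i _ => Finset.measurable_sum _ fun k _ => ?_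
    exact (measurable_sm _ _ _).comp (measurable_pi_apply i)
  have hA : ∀ K, (Measure.pi fun _ : Fin N => law μ).real {ηs | -E ≤ X K ηs} ≤ Real.exp (-(c5 * (N * b))) := by
    intro K
    rw [hE]
    exact hld r l₀ w hr hrl hw1 hw N b l hl (fun k => (tt' k : ℤ)) ht fun i k => yK y0 w K i k
  have hZ : ∀ ηs, Zs μ s (tt b) x' Q' ηs ≤ ∑ K ∈ KK N b G, Real.exp (X K ηs) := by
    intro ηs
    refine (coarse_det (μ := μ) (s := s) b G w hw1 tt h0 (fun k hk => (htt k hk).2.2) x' hx' Q' y0 hQ ηs).trans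
      (le_of_eq ?_)
    refine sum_congr rfl fun K _ => ?_
    rw [Real.exp_sum]
    refine prod_congr rfl fun i _ => ?_
    rw [Real.exp_sum]
    refine prod_congr rfl fun k hk => ?_
    rw [mem_range] at hk
    rw [Bc_sm _ _ hw1]
    have e2 : tt' k = tt k := ht1 k hk.le
    have e3 : l k = tt (k + 1) - tt k := by
      show tt' (k + 1) - tt' k = tt (k + 1) - tt k
      rw [ht1 k hk.le, ht1 (k + 1) hk]
    rw [e2, e3]
  -- pointwise
  have hpt : ∀ ηs, min 1 (lam * Zs μ s (tt b) x' Q' ηs) ≤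
      (∑ K ∈ KK N b G, {ηs | -E ≤ X K ηs}.indicator (fun _ => (1 : ℝ)) ηs) + lam * (((KK N b G).card : ℝ) * Real.exp (-E)) := by
    intro ηs
    have hi0 : ∀ K, 0 ≤ {ηs | -E ≤ X K ηs}.indicator (fun _ => (1 : ℝ)) ηs := fun K =>
      Set.indicator_nonneg (fun _ _ => zero_le_one) _
    have hr0 : 0 ≤ lam * (((KK N b G).card : ℝ) * Real.exp (-E)) := by positivity
    by_cases hex : ∃ K ∈ KK N b G, -E ≤ X K ηs
    · obtain ⟨K, hK1, hK2⟩ := hex
      have h1 := single_le_sum (s := KK N b G) (a := K)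
        (f := fun K => {ηs | -E ≤ X K ηs}.indicator (fun _ => (1 : ℝ)) ηs) (fun K _ => hi0 K) hK1
      have hmem : ηs ∈ {ηs | -E ≤ X K ηs} := hK2
      have h2 : {ηs | -E ≤ X K ηs}.indicator (fun _ => (1 : ℝ)) ηs = 1 := Set.indicator_of_mem hmem _
      have h3 : (1 : ℝ) ≤ ∑ K ∈ KK N b G, {ηs | -E ≤ X K ηs}.indicator (fun _ => (1 : ℝ)) ηs := (le_of_eq h2.symm).trans h1
      exact (min_le_left _ _).trans (by linarith)
    · push Not at hex
      have h1 : Zs μ s (tt b) x' Q' ηs ≤ ((KK N b G).card : ℝ) * Real.exp (-E) := by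
        refine (hZ ηs).trans ?_
        rw [← nsmul_eq_mul]
        exact sum_le_card_nsmul _ _ _ fun K hK => Real.exp_le_exp.2 (hex K hK).le
      have h2 := mul_le_mul_of_nonneg_left h1 hlam
      have h3 : 0 ≤ ∑ K ∈ KK N b G, {ηs | -E ≤ X K ηs}.indicator (fun _ => (1 : ℝ)) ηs := sum_nonneg fun K _ => hi0 K
      exact (min_le_right _ _).trans (by linarith)
  have hAm : ∀ K, MeasurableSet {ηs | -E ≤ X K ηs} := fun K => measurableSet_le measurable_const (hXm K)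
  have hint : Integrable (fun ηs => (∑ K ∈ KK N b G, {ηs | -E ≤ X K ηs}.indicator (fun _ => (1 : ℝ)) ηs) +
      lam * (((KK N b G).card : ℝ) * Real.exp (-E))) (Measure.pi fun _ : Fin N => law μ) := by
    refine Integrable.add (integrable_finsetSum _ fun K _ => ?_) (integrable_const _)
    exact (integrable_const _).indicator (hAm K)
  have hfin := integral_mono_of_nonneg (μ := Measure.pi fun _ : Fin N => law μ)
    (f := fun ηs => min 1 (lam * Zs μ s (tt b) x' Q' ηs))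
    (ae_of_all _ fun ηs => le_min zero_le_one (mul_nonneg hlam (Zs_nonneg _ _ _ _))) hint (ae_of_all _ hpt)
  refine hfin.trans ?_
  rw [integral_add (integrable_finsetSum _ fun K _ => (integrable_const _).indicator (hAm K)) (integrable_const _),
    integral_finsetSum _ fun K _ => (integrable_const _).indicator (hAm K)]
  have h2 : ∑ K ∈ KK N b G, ∫ ηs, {ηs | -E ≤ X K ηs}.indicator (fun _ => (1 : ℝ)) ηs ∂(Measure.pi fun _ : Fin N => law μ) ≤
      ((KK N b G).card : ℝ) * Real.exp (-(c5 * (N * b))) := by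
    rw [← nsmul_eq_mul]
    refine sum_le_card_nsmul _ _ _ fun K _ => ?_
    rw [integral_indicator_const _ (hAm K), smul_eq_mul, mul_one]
    exact hA K
  have h3 : ((KK N b G).card : ℝ) ≤ ((N : ℝ) + 1) ^ (G * b) := by
    exact_mod_cast KK_card N b G
  have h4 : ∫ _ηs : Fin N → Env, lam * (((KK N b G).card : ℝ) * Real.exp (-E)) ∂(Measure.pi fun _ : Fin N => law μ) =
      lam * (((KK N b G).card : ℝ) * Real.exp (-E)) := by
    rw [integral_const]
    simp
  rw [h4]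
  have h5 : ((KK N b G).card : ℝ) * Real.exp (-(c5 * (N * b))) + lam * (((KK N b G).card : ℝ) * Real.exp (-E)) =
      ((KK N b G).card : ℝ) * (Real.exp (-(c5 * (N * b))) + lam * Real.exp (-E)) := by ring
  calc _ ≤ ((KK N b G).card : ℝ) * (Real.exp (-(c5 * (N * b))) + lam * Real.exp (-E)) := by linarith
    _ ≤ ((N : ℝ) + 1) ^ (G * b) * (Real.exp (-(c5 * (N * b))) + lam * Real.exp (-E)) :=
        mul_le_mul_of_nonneg_right h3 (by positivity)
    _ = _ := by rw [hE]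

end

end Pool.Agent.W_7d29a1_C1.Coar89
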