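import Pool.Agent.W_7d29a1_C1.GateS66

/-!
MP_7d29a1_pr, attractor route, [C1] SEP: THE GATE, exchange of the tails in the sum over all paths, two paths, the side of the
window. (helper66)

* `swap`: `Σ_π κ(π) (X_n(v) - avoiding π at v) ≤ (Σ_u X_n(u) g(u)) k_n(v)`, `κ(π) = k(start) weight g(end)`;
* `gate`: pairs of paths of relative mass `≥ q` such that what avoids both is `≤ ε₁ X_n(v) + e₂`:
  `(1 - ε₁) q X_n(v) Zc² ≤ 2 Zc Z_X k_n(v) + e₂ Zc²`;
* `duhamel`: masses which leave the window `V` = those which never do + sum over the last exit; `side`: the last exit against the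
  futures of the sites just outside of the window.
-/

set_option autoImplicit false

namespace Pool.Agent.W_7d29a1_C1.Gt66

open Finset
open Pool.Agent.W_7d29a1_C1.K91P (fw bw fw_succ)

noncomputable section

attribute [local instance 10] Classical.propDecidable

variable {w : ℕ → ℤ → ℝ} {p : ℕ → ℝ} {a : ℕ} {A A' : ℕ → ℤ → Prop} {m m' k : ℤ → ℝ}

theorem en_Ps {C : ℕ → ℤ → Prop} {I : Finset ℤ} {lo hi : ℤ} (hI : ∀ y ∈ I, lo ≤ y ∧ y ≤ hi) : ∀ {n : ℕ} {π : Pa n},
    π ∈ Ps C I n → lo ≤ en π ∧ en π ≤ hi + n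
  | _, .z y, h => by
    obtain ⟨y', hy, hy'⟩ := mem_map.1 h
    have h4 : Pa.z y' = Pa.z y := hy'
    have h3 : y' = y := by simpa using h4
    have h5 := hI y' (mem_filter.1 hy).1
    show lo ≤ y ∧ y ≤ hi + (0 : ℕ)
    push_cast
    omega
  | n + 1, .s π b, h => by
    have h1 := en_Ps hI (mem_Ps_succ.1 h).1
    have h2 : en (Pa.s π b) = en π + st b := rfl
    have h3 : 0 ≤ st b ∧ st b ≤ 1 := by
      cases b <;> simp [st]
    rw [h2]
    push_cast
    omega

/-- **EXCHANGE OF THE TAILS**, summed over the paths of the contact. -/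
theorem swap (hw : ∀ k y, 0 ≤ w k y) (hp : ∀ k, 0 ≤ p k) (hm : ∀ y, 0 ≤ m y) (hk0 : ∀ y, 0 ≤ k y) {C : ℕ → ℤ → Prop}
    {I : Finset ℤ} (hk : ∀ y, y ∉ I → k y = 0) {lo hi : ℤ} (hI : ∀ y ∈ I, lo ≤ y ∧ y ≤ hi) (n : ℕ) {g : ℤ → ℝ}
    (hg : ∀ y, 0 ≤ g y) (v : ℤ) :
    ∑ π ∈ Ps C I n, k (s0 π) * wg w p a π * g (en π) * (ms w p a All m n v - ms w p a (A1 π) m n v) ≤
      (∑ u ∈ Icc lo (hi + n), ms w p a All m n u * g u) * ms w p a All k n v := by
  have h1 : ∑ π ∈ Ps C I n, k (s0 π) * wg w p a π * g (en π) * (ms w p a All m n v - ms w p a (A1 π) m n v) =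
      ∑ u ∈ Icc lo (hi + n), g u * (ms w p a C k n u * ms w p a All m n v -
        ∑ π ∈ Ps C I n, if en π = u then k (s0 π) * wg w p a π * ms w p a (A1 π) m n v else 0) := by
    have h2 : ∑ π ∈ Ps C I n, k (s0 π) * wg w p a π * g (en π) * (ms w p a All m n v - ms w p a (A1 π) m n v) =
        (∑ π ∈ Ps C I n, k (s0 π) * wg w p a π * g (en π)) * ms w p a All m n v -
        ∑ π ∈ Ps C I n, g (en π) * (k (s0 π) * wg w p a π * ms w p a (A1 π) m n v) := by
      rw [sum_mul, ← sum_sub_distrib]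
      exact sum_congr rfl fun π _ => by ring
    have h3 : ∑ π ∈ Ps C I n, g (en π) * (k (s0 π) * wg w p a π * ms w p a (A1 π) m n v) =
        ∑ u ∈ Icc lo (hi + n), g u * ∑ π ∈ Ps C I n, if en π = u then k (s0 π) * wg w p a π * ms w p a (A1 π) m n v else 0 := by
      simp only [mul_sum]
      rw [sum_comm]
      refine sum_congr rfl fun π hπ => ?_
      have h4 : ∀ u ∈ Icc lo (hi + n), g u * (if en π = u then k (s0 π) * wg w p a π * ms w p a (A1 π) m n v else 0) =
          if en π = u then g u * (k (s0 π) * wg w p a π * ms w p a (A1 π) m n v) else 0 := fun u _ => by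
        split_ifs <;> ring
      rw [sum_congr rfl h4, sum_ite_eq]
      rw [if_pos (mem_Icc.2 (en_Ps hI hπ))]
    rw [h2, expand k hk hI n g, h3, sum_mul, ← sum_sub_distrib]
    exact sum_congr rfl fun u _ => by ring
  rw [h1, sum_mul]
  refine sum_le_sum fun u _ => ?_
  have h5 := mul_le_mul_of_nonneg_left (swap_pt (a := a) hw hp hm hk0 (C := C) (I := I) hk n u v) (hg u)
  calc _ ≤ g u * (ms w p a All m n u * ms w p a All k n v) := h5
    _ = _ := by ring

/-- **THE GATE.** -/
theorem gate (hw : ∀ k y, 0 ≤ w k y) (hp : ∀ k, 0 ≤ p k) (hm : ∀ y, 0 ≤ m y) (hk0 : ∀ y, 0 ≤ k y) {C : ℕ → ℤ → Prop}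
    {I : Finset ℤ} (hk : ∀ y, y ∉ I → k y = 0) {lo hi : ℤ} (hI : ∀ y ∈ I, lo ≤ y ∧ y ≤ hi) (n : ℕ) {g : ℤ → ℝ}
    (hg : ∀ y, 0 ≤ g y) (v : ℤ) {D : Pa n → Pa n → Prop} {q ε₁ e₂ Zc : ℝ} (hε : ε₁ ≤ 1) (he : 0 ≤ e₂)
    (hZc : Zc = ∑ π ∈ Ps C I n, k (s0 π) * wg w p a π * g (en π))
    (hD : q * Zc ^ 2 ≤ ∑ π ∈ Ps C I n, ∑ π' ∈ Ps C I n, if D π π' then (k (s0 π) * wg w p a π * g (en π)) *
      (k (s0 π') * wg w p a π' * g (en π')) else 0)
    (hav : ∀ π ∈ Ps C I n, ∀ π' ∈ Ps C I n, D π π' → ms w p a (A2 π π') m n v ≤ ε₁ * ms w p a All m n v + e₂) :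
    (1 - ε₁) * ms w p a All m n v * (q * Zc ^ 2) ≤
      2 * Zc * ((∑ u ∈ Icc lo (hi + n), ms w p a All m n u * g u) * ms w p a All k n v) + e₂ * Zc ^ 2 := by
  set κ : Pa n → ℝ := fun π => k (s0 π) * wg w p a π * g (en π) with hκ
  set X := ms w p a All m n v with hX
  set Y := (∑ u ∈ Icc lo (hi + n), ms w p a All m n u * g u) * ms w p a All k n v with hY
  have κ0 : ∀ π, 0 ≤ κ π := fun π => mul_nonneg (mul_nonneg (hk0 _) (wg_nonneg hw hp _)) (hg _)
  have X0 : 0 ≤ X := ms_nonneg hw hp hm n v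
  have hs : ∑ π ∈ Ps C I n, κ π * (X - ms w p a (A1 π) m n v) ≤ Y := swap hw hp hm hk0 hk hI n hg v
  have hs0 : ∀ π : Pa n, 0 ≤ X - ms w p a (A1 π) m n v := fun π => sub_nonneg.2 (ms_le_all hw hp hm n v)
  set QD := ∑ π ∈ Ps C I n, ∑ π' ∈ Ps C I n, if D π π' then κ π * κ π' else 0 with hQD
  have hQ1 : QD ≤ Zc ^ 2 := by
    calc QD ≤ ∑ π ∈ Ps C I n, ∑ π' ∈ Ps C I n, κ π * κ π' := sum_le_sum fun π _ => sum_le_sum fun π' _ => by
          split_ifs
          · exact le_rfl
          · exact mul_nonneg (κ0 _) (κ0 _)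
      _ = Zc ^ 2 := by rw [hZc, sq, sum_mul_sum]
  have Zc0 : 0 ≤ Zc := by rw [hZc]; exact sum_nonneg fun π _ => κ0 π
  have key : X * QD ≤ 2 * Zc * Y + (ε₁ * X + e₂) * QD := by
    calc X * QD = ∑ π ∈ Ps C I n, ∑ π' ∈ Ps C I n, if D π π' then κ π * κ π' * X else 0 := by
          rw [hQD, mul_sum]
          refine sum_congr rfl fun π _ => ?_
          rw [mul_sum]
          refine sum_congr rfl fun π' _ => ?_
          split_ifs <;> ring
      _ ≤ ∑ π ∈ Ps C I n, ∑ π' ∈ Ps C I n, ((κ π * (X - ms w p a (A1 π) m n v)) * κ π' + κ π * (κ π' *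
            (X - ms w p a (A1 π') m n v)) + (ε₁ * X + e₂) * (if D π π' then κ π * κ π' else 0)) := by
          refine sum_le_sum fun π hπ => sum_le_sum fun π' hπ' => ?_
          have a1 := mul_nonneg (mul_nonneg (κ0 π) (hs0 π)) (κ0 π')
          have a2 := mul_nonneg (κ0 π) (mul_nonneg (κ0 π') (hs0 π'))
          by_cases h : D π π'
          · rw [if_pos h, if_pos h]
            have h1 := hav π hπ π' hπ' h
            have h2 := two_avoid (a := a) hw hp hm (A1 π) (A1 π') n v
            have h3 : ms w p a (fun j x => A1 π j x ∧ A1 π' j x) m n v = ms w p a (A2 π π') m n v := rfl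
            rw [h3] at h2
            have h4 : X ≤ (X - ms w p a (A1 π) m n v) + (X - ms w p a (A1 π') m n v) + (ε₁ * X + e₂) := by linarith
            have h5 := mul_le_mul_of_nonneg_left h4 (mul_nonneg (κ0 π) (κ0 π'))
            nlinarith
          · rw [if_neg h, if_neg h, mul_zero, add_zero]
            exact add_nonneg a1 a2
      _ = 2 * Zc * (∑ π ∈ Ps C I n, κ π * (X - ms w p a (A1 π) m n v)) + (ε₁ * X + e₂) * QD := by
          simp only [sum_add_distrib, ← mul_sum, ← sum_mul]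
          rw [← hZc]
          ring
      _ ≤ 2 * Zc * Y + (ε₁ * X + e₂) * QD := by
          have := mul_le_mul_of_nonneg_left hs (show 0 ≤ 2 * Zc by positivity)
          linarith
  have h6 : (1 - ε₁) * X * (q * Zc ^ 2) ≤ (1 - ε₁) * X * QD :=
    mul_le_mul_of_nonneg_left hD (mul_nonneg (sub_nonneg.2 hε) X0)
  have h7 : e₂ * QD ≤ e₂ * Zc ^ 2 := mul_le_mul_of_nonneg_left hQ1 he
  nlinarith

/-! ### The side of the window -/

/-- Masses from the site `x` of the row `a + j` to the site `v` of the row `a + n`, all later sites in `V`. -/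
def ks (w : ℕ → ℤ → ℝ) (p : ℕ → ℝ) (a : ℕ) (V : ℕ → ℤ → Prop) (n j : ℕ) (x v : ℤ) : ℝ :=
  ms w p (a + j) (fun i y => i = 0 ∨ V (j + i) y) (fun y => if y = x then 1 else 0) (n - j) v

theorem ks_nonneg (hw : ∀ k y, 0 ≤ w k y) (hp : ∀ k, 0 ≤ p k) (V : ℕ → ℤ → Prop) (n j : ℕ) (x v : ℤ) :
    0 ≤ ks w p a V n j x v := by
  refine ms_nonneg hw hp (fun y => ?_) _ _
  split_ifs
  · exact zero_le_one
  · exact le_rfl

theorem ks_succ {V : ℕ → ℤ → Prop} {n j : ℕ} (hj : j ≤ n) (x : ℤ) {v : ℤ} (hv : V (n + 1) v) : ks w p a V (n + 1) j x v =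
    w (a + n) v * ks w p a V n j x v + p (a + n) * (w (a + n) (v - 1) * ks w p a V n j x (v - 1)) := by
  unfold ks
  obtain ⟨i, rfl⟩ : ∃ i, n = j + i := ⟨n - j, by omega⟩
  have e1 : j + i + 1 - j = i + 1 := by omega
  have e2 : j + i - j = i := by omega
  rw [e1, e2, ms_in (Or.inr (by rw [show j + (i + 1) = j + i + 1 by omega]; exact hv)), show a + j + i = a + (j + i) by omega]

theorem ks_self (V : ℕ → ℤ → Prop) (n : ℕ) (x v : ℤ) : ks w p a V n n x v = if v = x then 1 else 0 := by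
  unfold ks
  rw [Nat.sub_self]
  unfold ms
  exact if_pos (Or.inl rfl)

theorem ks_off {V : ℕ → ℤ → Prop} {n j : ℕ} (hj : j < n) (x : ℤ) {v : ℤ} (hv : ¬ V n v) : ks w p a V n j x v = 0 := by
  unfold ks
  refine ms_off fun h => h.elim (fun h => by omega) fun h => hv ?_
  rwa [show j + (n - j) = n by omega] at h

/-- **Last exit from the window.** `Rm j` contains every site outside of the window with a next step into it. -/
theorem duhamel (hw : ∀ k y, 0 ≤ w k y) (hp : ∀ k, 0 ≤ p k) (hm : ∀ y, 0 ≤ m y) {V : ℕ → ℤ → Prop} {Rm : ℕ → Finset ℤ}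
    (hR : ∀ j x, ¬ V j x → (V (j + 1) x ∨ V (j + 1) (x + 1)) → x ∈ Rm j) : ∀ (n : ℕ) (v : ℤ),
    ms w p a A m n v ≤ ms w p a (fun j y => A j y ∧ V j y) m n v +
      ∑ j ∈ range n, ∑ x ∈ Rm j, ms w p a All m j x * ks w p a V n j x v + if V n v then 0 else ms w p a All m n v
  | 0, v => by
    simp only [range_zero, sum_empty, add_zero]
    have h0 := hm v
    rw [ms_all_zero]
    by_cases h1 : A 0 v <;> by_cases h2 : V 0 v <;> simp [ms, h1, h2, h0]
  | n + 1, v => by
    have X0 := fun y => ms_nonneg (A := All) (a := a) hw hp hm (n + 1) y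
    have T0 : 0 ≤ ∑ j ∈ range (n + 1), ∑ x ∈ Rm j, ms w p a All m j x * ks w p a V (n + 1) j x v :=
      sum_nonneg fun j _ => sum_nonneg fun x _ => mul_nonneg (ms_nonneg hw hp hm _ _) (ks_nonneg hw hp _ _ _ _ _)
    have M0 := ms_nonneg (A := fun j y => A j y ∧ V j y) (a := a) hw hp hm (n + 1) v
    by_cases hV : V (n + 1) v
    · rw [if_pos hV, add_zero]
      by_cases hA : A (n + 1) v
      · rw [ms_in hA, ms_in (A := fun j y => A j y ∧ V j y) ⟨hA, hV⟩]
        have i1 := duhamel hw hp hm hR n v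
        have i2 := duhamel hw hp hm hR n (v - 1)
        have w1 := hw (a + n) v
        have w2 := hw (a + n) (v - 1)
        have p1 := hp (a + n)
        have j1 := mul_le_mul_of_nonneg_left i1 w1
        have j2 := mul_le_mul_of_nonneg_left (mul_le_mul_of_nonneg_left i2 w2) p1
        -- the last exit at the row `n`
        have hlast : w (a + n) v * (if V n v then 0 else ms w p a All m n v) +
            p (a + n) * (w (a + n) (v - 1) * (if V n (v - 1) then 0 else ms w p a All m n (v - 1))) ≤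
            ∑ x ∈ Rm n, ms w p a All m n x * ks w p a V (n + 1) n x v := by
          have e1 : ∀ x, ks w p a V (n + 1) n x v = w (a + n) v * (if v = x then 1 else 0) +
              p (a + n) * (w (a + n) (v - 1) * (if v - 1 = x then 1 else 0)) := fun x => by
            rw [ks_succ le_rfl x hV, ks_self, ks_self]
          have e2 : ∑ x ∈ Rm n, ms w p a All m n x * ks w p a V (n + 1) n x v =
              w (a + n) v * (∑ x ∈ Rm n, if v = x then ms w p a All m n x else 0) +
              p (a + n) * (w (a + n) (v - 1) * ∑ x ∈ Rm n, if v - 1 = x then ms w p a All m n x else 0) := by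
            rw [mul_sum, mul_sum, mul_sum, ← sum_add_distrib]
            refine sum_congr rfl fun x _ => ?_
            rw [e1]
            by_cases g1 : v = x <;> by_cases g2 : v - 1 = x <;> simp [g1, g2] <;> ring
          rw [e2, sum_ite_eq, sum_ite_eq]
          refine add_le_add (mul_le_mul_of_nonneg_left ?_ w1) (mul_le_mul_of_nonneg_left (mul_le_mul_of_nonneg_left ?_ w2) p1)
          · by_cases g : V n v
            · rw [if_pos g]
              split_ifs
              · exact ms_nonneg hw hp hm _ _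
              · exact le_rfl
            · rw [if_neg g, if_pos (hR n v g (Or.inl hV))]
          · by_cases g : V n (v - 1)
            · rw [if_pos g]
              split_ifs
              · exact ms_nonneg hw hp hm _ _
              · exact le_rfl
            · rw [if_neg g, if_pos (hR n (v - 1) g (Or.inr (by rwa [sub_add_cancel])))]
        have hrest : ∑ j ∈ range n, ∑ x ∈ Rm j, ms w p a All m j x * ks w p a V (n + 1) j x v =
            w (a + n) v * (∑ j ∈ range n, ∑ x ∈ Rm j, ms w p a All m j x * ks w p a V n j x v) +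
            p (a + n) * (w (a + n) (v - 1) * ∑ j ∈ range n, ∑ x ∈ Rm j, ms w p a All m j x * ks w p a V n j x (v - 1)) := by
          simp only [mul_sum, ← sum_add_distrib]
          refine sum_congr rfl fun j hj => sum_congr rfl fun x _ => ?_
          rw [ks_succ (mem_range.1 hj).le x hV]
          ring
        rw [sum_range_succ, hrest]
        linarith
      · rw [ms_off hA]
        linarith
    · rw [if_neg hV]
      have := ms_le_all (A := A) (a := a) hw hp hm (n + 1) v
      linarith [X0 v]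

/-- **The side of the window against the futures of the sites just outside.** -/
theorem side (hw : ∀ k y, 0 ≤ w k y) (hp : ∀ k, 0 ≤ p k) (hm : ∀ y, 0 ≤ m y) {V : ℕ → ℤ → Prop} {Rm : ℕ → Finset ℤ}
    (hR : ∀ j x, ¬ V j x → (V (j + 1) x ∨ V (j + 1) (x + 1)) → x ∈ Rm j) {n : ℕ} {v : ℤ} (hv : V n v) {B e₃ Z : ℝ}
    (hB : 0 ≤ B) (he : 0 ≤ e₃) {F : ℕ → ℤ → ℝ}
    (hks : ∀ j < n, ∀ x ∈ Rm j, ks w p a V n j x v * B ≤ e₃ * F j x)
    (hZ : ∀ j < n, ∑ x ∈ Rm j, ms w p a All m j x * F j x ≤ Z) :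
    ms w p a A m n v * B ≤ ms w p a (fun j y => A j y ∧ V j y) m n v * B + n * (e₃ * Z) := by
  have h1 := duhamel (A := A) (a := a) hw hp hm hR n v
  rw [if_pos hv, add_zero] at h1
  have h2 : (∑ j ∈ range n, ∑ x ∈ Rm j, ms w p a All m j x * ks w p a V n j x v) * B ≤ n * (e₃ * Z) := by
    rw [sum_mul]
    calc _ ≤ ∑ _j ∈ range n, e₃ * Z := by
          refine sum_le_sum fun j hj => ?_
          have hj' := mem_range.1 hj
          rw [sum_mul]
          calc _ ≤ ∑ x ∈ Rm j, e₃ * (ms w p a All m j x * F j x) := by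
                refine sum_le_sum fun x hx => ?_
                have h3 := mul_le_mul_of_nonneg_left (hks j hj' x hx) (ms_nonneg (A := All) (a := a) hw hp hm j x)
                calc _ = ms w p a All m j x * (ks w p a V n j x v * B) := by ring
                  _ ≤ _ := h3
                  _ = _ := by ring
            _ = e₃ * ∑ x ∈ Rm j, ms w p a All m j x * F j x := by rw [mul_sum]
            _ ≤ e₃ * Z := mul_le_mul_of_nonneg_left (hZ j hj') he
      _ = n * (e₃ * Z) := by rw [sum_const, card_range, nsmul_eq_mul]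
  have h3 := mul_le_mul_of_nonneg_right h1 hB
  rw [add_mul] at h3
  linarith

end

end Pool.Agent.W_7d29a1_C1.Gt66
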