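import Pool.Agent.W_7d29a1_C1.GateD76
import Pool.Agent.W_7d29a1_C1.GateT66

/-!
MP_7d29a1_pr, attractor route, [C1] SEP: THE REST OF `M3A`: the new first meetings far from the cell (helper30)

`w`, `w'` agree on the rows `< b`. `Y0` = the mouth (row `b`): the new futures are at most `G` times the old ones on `Y0` and at most
`Y` times the old ones off `Y0`.
* `below30`: a row `k ≤ b`: a site from which one gets into `Y0` with old probability at most `s0` has new mass at most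
  `(G s0 + Y)` times the old one;
* `above30`: a row `k ≥ b`: the new paths which are in `Y0` at the row `b` are off the window at the row `k` with probability `s1`;
* `ex30`: this probability from the last exit from the window of the changed sites, in terms of the OLD futures;
* `col30`: the hypothesis `col` of `sum_Rc`; `rest30`: the same as a sum of weights; `new30`: the hypothesis `new`.
-/

set_option autoImplicit false

namespace Pool.Agent.W_7d29a1_C1.Col30

open Finset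
open Pool.Agent.W_7d29a1_C1.K91 (Grp Box)
open Pool.Agent.W_7d29a1_C1.K91P hiding ZZ
open Pool.Agent.W_7d29a1_C1.U16 (ker ker_zero ker_succ ker_eq_zero ker_nonneg ker_congr fw_ker bw_ker ker_add dlt)
open Pool.Agent.W_7d29a1_C1.SepA35
open Pool.Agent.W_7d29a1_C1.E30
open Pool.Agent.W_7d29a1_C1.GD76
open Pool.Agent.W_7d29a1_C1.Gt66 (ms All ks ms_all_zero ms_all_succ ms_off ms_in ms_nonneg duhamel)

noncomputable section

variable {w w' : ℕ → ℤ → ℝ} {p : ℕ → ℝ} {m l r : ℤ → ℝ} {X lo hi : ℤ} {N : ℕ}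

/-- Part of the future. -/
theorem part30 (hw : ∀ k y, 0 < w k y) (hp : ∀ k, 0 < p k) {b k : ℕ} (hbk : b ≤ k) (hk : k ≤ N) (A : Finset ℤ) (v : ℤ) :
    ∑ y ∈ A, ker w p b (k - b) v y * bw w p k (N - k) y ≤ bw w p b (N - b) v := by
  have e1 : bw w p b (N - b) v = ∑ y ∈ Icc v (v + ((k - b : ℕ) : ℤ)), ker w p b (k - b) v y * bw w p k (N - k) y := by
    have h := bw_ker (w := w) (p := p) b (k - b) (N - k) v
    rw [show k - b + (N - k) = N - b by omega, show b + (k - b) = k by omega] at h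
    exact h
  rw [e1]
  calc _ = ∑ y ∈ A ∩ Icc v (v + ((k - b : ℕ) : ℤ)), ker w p b (k - b) v y * bw w p k (N - k) y := by
        symm
        refine sum_subset inter_subset_left fun y hy hn => ?_
        rw [ker_eq_zero b (k - b) v y fun h => hn (mem_inter.2 ⟨hy, mem_Icc.2 ⟨h.1, h.2⟩⟩), zero_mul]
    _ ≤ _ := sum_le_sum_of_subset_of_nonneg inter_subset_right fun y _ _ =>
        mul_nonneg (ker_nonneg hw hp _ _ _ _) (bw_pos hw hp _ _ _).le

/-- The mass of a group in a set of sites is at most its total. -/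
theorem mA_le30 (hw : ∀ k y, 0 < w k y) (hp : ∀ k, 0 < p k) (hm : ∀ y, 0 ≤ m y) {k : ℕ} {A : Finset ℤ} (hA : A ⊆ Icc lo hi)
    (hz : s1 w p m lo hi k (bw w p k (N - k)) = ZZ w p m lo hi N) : mA w p m N k A ≤ ZZ w p m lo hi N := by
  rw [← hz]
  exact sum_le_sum_of_subset_of_nonneg hA fun y _ _ => mul_nonneg (fw_nonneg hw hp hm k y) (bw_pos hw hp _ _ _).le

/-- **A ROW BELOW THE CHANGED ROWS.** -/
theorem below30 (hw : ∀ k y, 0 < w k y) (hp : ∀ k, 0 < p k) {b k : ℕ} (hkb : k ≤ b) (hb : b ≤ N)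
    (hag : ∀ k, k < b → ∀ y, w k y = w' k y) (hm : ∀ y, 0 ≤ m y) (h1 : ∀ y, hi - N < y → m y = 0)
    {A Y0 : Finset ℤ} (hA : A ⊆ Icc lo hi) {G Y s0 : ℝ} (hG : 0 ≤ G) (hY : 0 ≤ Y)
    (up : ∀ v ∈ Y0, bw w' p b (N - b) v ≤ G * bw w p b (N - b) v)
    (leak : ∀ v ∈ Icc lo hi \ Y0, bw w' p b (N - b) v ≤ Y * bw w p b (N - b) v)
    (st : ∀ y ∈ A, ∑ v ∈ Y0, ker w p k (b - k) y v * bw w p b (N - b) v ≤ s0 * bw w p k (N - k) y) :
    mA w' p m N k A ≤ (G * s0 + Y) * mA w p m N k A := by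
  unfold mA
  rw [mul_sum]
  refine sum_le_sum fun y hy => ?_
  have ef : fw w' p m k y = fw w p m k y := (fw_congr k (fun i hi y => hag i (by omega) y) y).symm
  rw [ef]
  by_cases hz : hi - N + k < y
  · rw [fw_hi h1 k y hz]
    simp
  have hy' := mem_Icc.1 (hA hy)
  have hc : (N : ℤ) = ((N - b : ℕ) : ℤ) + b := by omega
  have hc' : (b : ℤ) = ((b - k : ℕ) : ℤ) + k := by omega
  have key : bw w' p k (N - k) y ≤ (G * s0 + Y) * bw w p k (N - k) y := by
    have e1 : bw w' p k (N - k) y = ∑ v ∈ Icc y (y + ((b - k : ℕ) : ℤ)), ker w p k (b - k) y v * bw w' p b (N - b) v := by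
      have h := bw_ker (w := w') (p := p) k (b - k) (N - b) y
      rw [show b - k + (N - b) = N - k by omega, show k + (b - k) = b by omega] at h
      rw [h]
      refine sum_congr rfl fun v _ => ?_
      rw [ker_congr k (b - k) y v fun i _ h2 => ⟨funext fun z => (hag i (by omega) z).symm, rfl⟩]
    have e2 : bw w p k (N - k) y = ∑ v ∈ Icc y (y + ((b - k : ℕ) : ℤ)), ker w p k (b - k) y v * bw w p b (N - b) v := by
      have h := bw_ker (w := w) (p := p) k (b - k) (N - b) y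
      rw [show b - k + (N - b) = N - k by omega, show k + (b - k) = b by omega] at h
      exact h
    have h3 : ∀ v ∈ Icc y (y + ((b - k : ℕ) : ℤ)), ker w p k (b - k) y v * bw w' p b (N - b) v ≤
        (if v ∈ Y0 then G * (ker w p k (b - k) y v * bw w p b (N - b) v) else 0) +
          Y * (ker w p k (b - k) y v * bw w p b (N - b) v) := by
      intro v hv
      have k0 := ker_nonneg hw hp k (b - k) y v
      have b0 : 0 ≤ bw w p b (N - b) v := (bw_pos hw hp _ _ _).le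
      by_cases h4 : v ∈ Y0
      · rw [if_pos h4]
        have h5 := mul_le_mul_of_nonneg_left (up v h4) k0
        have h6 := mul_nonneg hY (mul_nonneg k0 b0)
        linarith
      · rw [if_neg h4]
        have hv' := mem_Icc.1 hv
        have h5 := mul_le_mul_of_nonneg_left (leak v (mem_sdiff.2 ⟨mem_Icc.2 ⟨by omega, by omega⟩, h4⟩)) k0
        linarith
    rw [e1]
    refine (sum_le_sum h3).trans ?_
    rw [sum_add_distrib, ← mul_sum, ← e2, add_mul]
    refine add_le_add ?_ le_rfl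
    calc _ = G * ∑ v ∈ (Icc y (y + ((b - k : ℕ) : ℤ))).filter (· ∈ Y0), ker w p k (b - k) y v * bw w p b (N - b) v := by
          rw [← sum_filter, mul_sum]
      _ ≤ G * ∑ v ∈ Y0, ker w p k (b - k) y v * bw w p b (N - b) v := by
          refine mul_le_mul_of_nonneg_left (sum_le_sum_of_subset_of_nonneg (fun v hv => (mem_filter.1 hv).2) fun v _ _ =>
            mul_nonneg (ker_nonneg hw hp _ _ _ _) (bw_pos hw hp _ _ _).le) hG
      _ ≤ G * (s0 * bw w p k (N - k) y) := mul_le_mul_of_nonneg_left (st y hy) hG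
      _ = _ := by ring
  calc _ ≤ fw w p m k y * ((G * s0 + Y) * bw w p k (N - k) y) :=
        mul_le_mul_of_nonneg_left key (fw_nonneg hw hp hm k y)
    _ = _ := by ring

/-- The masses at a later row. -/
theorem fw_box30 {b k : ℕ} (hbk : b ≤ k) (hk : k ≤ N) (h0 : ∀ y, y < lo → m y = 0) (h1 : ∀ y, hi - N < y → m y = 0) (y : ℤ) :
    fw w p m k y = ∑ v ∈ Icc lo hi, fw w p m b v * ker w p b (k - b) v y := by
  have h := fw_ker (w := w) (p := p) (l := m) b (k - b) y
  rw [show b + (k - b) = k by omega] at h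
  rw [h]
  calc _ = ∑ v ∈ Icc lo hi ∩ Icc (y - ((k - b : ℕ) : ℤ)) y, fw w p m b v * ker w p b (k - b) v y := by
        symm
        refine sum_subset inter_subset_right fun v hv hn => ?_
        have hv' : v < lo ∨ hi < v := by
          by_contra hcon
          push Not at hcon
          exact hn (mem_inter.2 ⟨mem_Icc.2 hcon, hv⟩)
        rcases hv' with h2 | h2
        · rw [fw_lo h0 b v h2, zero_mul]
        · rw [fw_hi h1 b v (by have : (b : ℤ) ≤ N := by omega
                               omega), zero_mul]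
    _ = _ := by
        refine sum_subset inter_subset_left fun v hv hn => ?_
        rw [ker_eq_zero b (k - b) v y fun h2 => hn (mem_inter.2 ⟨hv, mem_Icc.2 ⟨by omega, h2.1⟩⟩), mul_zero]

/-- **A ROW BEHIND THE MOUTH.** -/
theorem above30 (hw' : ∀ k y, 0 < w' k y) (hp : ∀ k, 0 < p k) {b k : ℕ} (hbk : b ≤ k) (hk : k ≤ N) (hm : ∀ y, 0 ≤ m y)
    (h0 : ∀ y, y < lo → m y = 0) (h1 : ∀ y, hi - N < y → m y = 0) {A Y0 : Finset ℤ} (hY0 : Y0 ⊆ Icc lo hi) {s1' : ℝ}
    (ex : ∀ v ∈ Y0, ∑ y ∈ A, ker w' p b (k - b) v y * bw w' p k (N - k) y ≤ s1' * bw w' p b (N - b) v) :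
    mA w' p m N k A ≤ s1' * mA w' p m N b Y0 + mA w' p m N b (Icc lo hi \ Y0) := by
  have e1 : mA w' p m N k A = ∑ v ∈ Icc lo hi, fw w' p m b v * ∑ y ∈ A, ker w' p b (k - b) v y * bw w' p k (N - k) y := by
    unfold mA
    have h2 : ∀ y ∈ A, fw w' p m k y * bw w' p k (N - k) y =
        ∑ v ∈ Icc lo hi, fw w' p m b v * (ker w' p b (k - b) v y * bw w' p k (N - k) y) := fun y _ => by
      rw [fw_box30 hbk hk h0 h1 y, sum_mul]
      exact sum_congr rfl fun v _ => by ring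
    rw [sum_congr rfl h2, sum_comm]
    exact sum_congr rfl fun v _ => by rw [mul_sum]
  have e2 : Icc lo hi = Y0 ∪ (Icc lo hi \ Y0) := (union_sdiff_of_subset hY0).symm
  rw [e1, e2, sum_union disjoint_sdiff, ← e2]
  refine add_le_add ?_ ?_
  · unfold mA
    rw [mul_sum]
    refine sum_le_sum fun v hv => ?_
    have := mul_le_mul_of_nonneg_left (ex v hv) (fw_nonneg hw' hp hm b v)
    linarith
  · exact sum_le_sum fun v _ => mul_le_mul_of_nonneg_left (part30 hw' hp hbk hk A v) (fw_nonneg hw' hp hm b v)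

/-- **THE HYPOTHESIS `col` OF `sum_Rc`.** -/
theorem col30 (hw : ∀ k y, 0 < w k y) (hw' : ∀ k y, 0 < w' k y) (hp : ∀ k, 0 < p k) (h : Box l r X lo hi N)
    {low b e : ℕ} (hbe : b ≤ e) (he : e ≤ N) (hag : ∀ k, k < b → ∀ y, w k y = w' k y)
    {nb : Finset (ℕ × ℤ)} {Y0 : Finset ℤ} (hY0 : Y0 ⊆ Icc lo hi) {G Y s0 s1' lam β : ℝ} (hG : 0 ≤ G) (hY : 0 ≤ Y) (hs0 : 0 ≤ s0)
    (hs1 : 0 ≤ s1')
    (up : ∀ v ∈ Y0, bw w' p b (N - b) v ≤ G * bw w p b (N - b) v)
    (leak : ∀ v ∈ Icc lo hi \ Y0, bw w' p b (N - b) v ≤ Y * bw w p b (N - b) v)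
    (st : ∀ i, low ≤ i → i < b → ∀ y ∈ Icc lo hi, (i, y) ∉ nb →
      ∑ v ∈ Y0, ker w p (i + 1) (b - (i + 1)) y v * bw w p b (N - b) v ≤ s0 * bw w p (i + 1) (N - (i + 1)) y)
    (ex : ∀ i, b ≤ i → i < e → ∀ v ∈ Y0, ∑ y ∈ (Icc lo hi).filter (fun y => (i, y) ∉ nb),
      ker w' p b (i + 1 - b) v y * bw w' p (i + 1) (N - (i + 1)) y ≤ s1' * bw w' p b (N - b) v)
    (tot : lam * β * ZZ w p l lo hi N ≤ ZZ w' p l lo hi N)
    (n1 : 32 * ((e - low : ℕ) : ℝ) * (G * s0 + Y) ≤ lam * β) (n2 : 32 * ((e - low : ℕ) : ℝ) * s1' ≤ 1) :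
    16 * ∑ i ∈ Ico low e, ∑ q ∈ (Icc lo hi).filter (fun q => (i, q) ∉ nb),
      fw w' p l (i + 1) q * bw w' p (i + 1) (N - (i + 1)) q ≤ ZZ w' p l lo hi N := by
  have hb : b ≤ N := hbe.trans he
  have Z0 := ZZ_nonneg (lo := lo) (hi := hi) (N := N) hw hp h.g.l0
  have Z0' := ZZ_nonneg (lo := lo) (hi := hi) (N := N) hw' hp h.g.l0
  have one : ∀ i ∈ Ico low e, ∑ q ∈ (Icc lo hi).filter (fun q => (i, q) ∉ nb),
      fw w' p l (i + 1) q * bw w' p (i + 1) (N - (i + 1)) q ≤
        (G * s0 + Y) * ZZ w p l lo hi N + s1' * ZZ w' p l lo hi N := by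
    intro i hi'
    obtain ⟨i1, i2⟩ := mem_Ico.1 hi'
    have hA : (Icc lo hi).filter (fun q => (i, q) ∉ nb) ⊆ Icc lo hi := filter_subset _ _
    by_cases hib : i < b
    · have h2 := below30 hw hp (show i + 1 ≤ b by omega) hb hag h.g.l0 (fun y hy => (h.hi0 y hy).1) hA hG hY up leak
        (fun y hy => st i i1 hib y (mem_filter.1 hy).1 (mem_filter.1 hy).2)
      have h3 := mA_le30 (lo := lo) (hi := hi) (N := N) hw hp h.g.l0 hA (s1_ZZ (w := w) (p := p) h (show i + 1 ≤ N by omega)).1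
      have h4 := mul_le_mul_of_nonneg_left h3 (show 0 ≤ G * s0 + Y by positivity)
      have h5 : 0 ≤ s1' * ZZ w' p l lo hi N := mul_nonneg hs1 Z0'
      unfold mA at h2 h4
      linarith
    · have h2 := above30 (N := N) hw' hp (show b ≤ i + 1 by omega) (show i + 1 ≤ N by omega) h.g.l0 (fun y hy => (h.lo0 y hy).1)
        (fun y hy => (h.hi0 y hy).1) hY0 (ex i (by omega) i2)
      have h3 := mA_le30 (lo := lo) (hi := hi) (N := N) hw' hp h.g.l0 hY0 (s1_ZZ (w := w') (p := p) h hb).1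
      have h4 := off76 hw hp hag h.g.l0 (s1_ZZ (w := w) (p := p) h hb).1 hY leak
      have h5 := mul_le_mul_of_nonneg_left h3 hs1
      have h6 : 0 ≤ G * s0 * ZZ w p l lo hi N := by positivity
      have h7 : ∑ q ∈ (Icc lo hi).filter (fun q => (i, q) ∉ nb), fw w' p l (i + 1) q * bw w' p (i + 1) (N - (i + 1)) q =
        mA w' p l N (i + 1) ((Icc lo hi).filter (fun q => (i, q) ∉ nb)) := rfl
      rw [h7]
      linarith
  have h8 : ∑ i ∈ Ico low e, ∑ q ∈ (Icc lo hi).filter (fun q => (i, q) ∉ nb),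
      fw w' p l (i + 1) q * bw w' p (i + 1) (N - (i + 1)) q ≤
        ((e - low : ℕ) : ℝ) * ((G * s0 + Y) * ZZ w p l lo hi N + s1' * ZZ w' p l lo hi N) := by
    refine (sum_le_card_nsmul _ _ _ one).trans ?_
    rw [Nat.card_Ico, nsmul_eq_mul]
  have h9 := mul_le_mul_of_nonneg_right n1 Z0
  have h10 := mul_le_mul_of_nonneg_right n2 Z0'
  nlinarith [h8, h9, h10, tot]

/-- The same as a sum of weights. -/
theorem rest30 (hw' : ∀ k y, 0 < w' k y) (hp : ∀ k, 0 < p k) (h : Box l r X lo hi N) {low e : ℕ} (he : e ≤ N)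
    {nb : Finset (ℕ × ℤ)}
    (col : 16 * ∑ i ∈ Ico low e, ∑ q ∈ (Icc lo hi).filter (fun q => (i, q) ∉ nb),
      fw w' p l (i + 1) q * bw w' p (i + 1) (N - (i + 1)) q ≤ ZZ w' p l lo hi N) :
    16 * ∑ i ∈ Ico low e, ∑ q ∈ (Icc lo hi).filter (fun q => (i, q) ∉ nb), ww w' p l r N (i, q) ≤
      ZZ w' p l lo hi N * ZZ w' p r lo hi N := by
  have Z0' := ZZ_nonneg (lo := lo) (hi := hi) (N := N) hw' hp h.g.r0
  have h1 : ∑ i ∈ Ico low e, ∑ q ∈ (Icc lo hi).filter (fun q => (i, q) ∉ nb), ww w' p l r N (i, q) ≤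
      ∑ i ∈ Ico low e, (∑ q ∈ (Icc lo hi).filter (fun q => (i, q) ∉ nb),
        fw w' p l (i + 1) q * bw w' p (i + 1) (N - (i + 1)) q) * ZZ w' p r lo hi N :=
    sum_le_sum fun i hi' => col_le hw' hp h (by have := (mem_Ico.1 hi').2; omega) (filter_subset _ _)
  rw [← sum_mul] at h1
  have h2 := mul_le_mul_of_nonneg_right col Z0'
  linarith

/-! ### Off the window -/

/-- The kernel as masses. -/
theorem ms_ker30 (b : ℕ) (x : ℤ) : ∀ (n : ℕ) (y : ℤ), ms w p b All (dlt x) n y = ker w p b n x y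
  | 0, y => by
    rw [ms_all_zero, ker_zero]
    rfl
  | n + 1, y => by rw [ms_all_succ, ker_succ, ms_ker30 b x n y, ms_ker30 b x n (y - 1)]

private theorem ms_nil {b : ℕ} {A : ℕ → ℤ → Prop} (h : ∀ y, ms w p b A m 0 y = 0) : ∀ (n : ℕ) (y : ℤ), ms w p b A m n y = 0
  | 0, y => h y
  | n + 1, y => by
    by_cases h1 : A (n + 1) y
    · rw [ms_in h1, ms_nil h n y, ms_nil h n (y - 1)]
      ring
    · exact ms_off h1

/-- Masses which leave the window at `x` and stay outside see the old weights. -/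
theorem ks_le30 (hw : ∀ k y, 0 < w k y) (hp : ∀ k, 0 < p k) {b j : ℕ} {V : ℕ → ℤ → Prop} {x : ℤ}
    (hout : ∀ i y, V i y → w' (b + i) y = w (b + i) y) {ρ : ℝ} (h1 : 1 ≤ ρ) (hρ : w' (b + j) x ≤ ρ * w (b + j) x) :
    ∀ (i : ℕ) (y : ℤ), ms w' p (b + j) (fun i y => i = 0 ∨ V (j + i) y) (dlt x) i y ≤ ρ * ker w p (b + j) i x y := by
  have hQ : ∀ i, (∀ y, ms w' p (b + j) (fun i y => i = 0 ∨ V (j + i) y) (dlt x) i y ≤ ρ * ker w p (b + j) i x y) →
      ∀ y, w' (b + j + i) y * ms w' p (b + j) (fun i y => i = 0 ∨ V (j + i) y) (dlt x) i y ≤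
        ρ * (w (b + j + i) y * ker w p (b + j) i x y) := by
    intro i hi y
    have k0 := ker_nonneg hw hp (b + j) i x y
    rcases Nat.eq_zero_or_pos i with h2 | h2
    · subst h2
      have e1 : ms w' p (b + j) (fun i y => i = 0 ∨ V (j + i) y) (dlt x) 0 y = dlt x y := by
        simp [ms]
      have e2 : ker w p (b + j) 0 x y = dlt x y := ker_zero _ _ _
      rw [e1, e2, add_zero]
      unfold dlt
      by_cases h3 : y = x
      · rw [if_pos h3, h3]
        linarith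
      · rw [if_neg h3]
        simp
    · by_cases h3 : V (j + i) y
      · have h4 := mul_le_mul_of_nonneg_left (hi y) (hw (b + j + i) y).le
        have h5 := hout (j + i) y h3
        rw [← add_assoc] at h5
        rw [h5]
        linarith
      · rw [ms_off (show ¬ (i = 0 ∨ V (j + i) y) from not_or.2 ⟨by omega, h3⟩), mul_zero]
        have := (hw (b + j + i) y).le
        positivity
  intro i
  induction i with
  | zero =>
    intro y
    have e1 : ms w' p (b + j) (fun i y => i = 0 ∨ V (j + i) y) (dlt x) 0 y = dlt x y := by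
      simp [ms]
    have e2 : ker w p (b + j) 0 x y = dlt x y := ker_zero _ _ _
    rw [e1, e2]
    unfold dlt
    split_ifs <;> linarith
  | succ i ih =>
    intro y
    have k0 := ker_nonneg hw hp (b + j) (i + 1) x y
    by_cases h3 : V (j + (i + 1)) y
    · rw [ms_in (Or.inr h3), ker_succ]
      have h4 := hQ i ih y
      have h5 := mul_le_mul_of_nonneg_left (hQ i ih (y - 1)) (hp (b + j + i)).le
      linarith
    · rw [ms_off (show ¬ (i + 1 = 0 ∨ V (j + (i + 1)) y) from not_or.2 ⟨by omega, h3⟩)]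
      positivity

/-- **OFF THE WINDOW**, from the last exit: old futures outside. `Wd j` = the window at the row `b + j`, `Rm j` = its sites with a
step out of it. -/
theorem ex30 (hw : ∀ k y, 0 < w k y) (hw' : ∀ k y, 0 < w' k y) (hp : ∀ k, 0 < p k) {b n : ℕ}
    {Wd Rm : ℕ → Finset ℤ} (hR : ∀ j x, x ∈ Wd j → (x ∉ Wd (j + 1) ∨ x + 1 ∉ Wd (j + 1)) → x ∈ Rm j)
    (hout : ∀ j, ∀ y, y ∉ Wd j → w' (b + j) y = w (b + j) y) {ρ : ℝ} (h1 : 1 ≤ ρ)
    (hρ : ∀ j < n, ∀ x ∈ Rm j, w' (b + j) x ≤ ρ * w (b + j) x) {A : Finset ℤ} (hA : ∀ y ∈ A, y ∉ Wd n) {v : ℤ} (hv : v ∈ Wd 0)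
    {U R0 s Q : ℝ} (hU0 : 0 ≤ U) (hR00 : 0 ≤ R0) (hs0 : 0 ≤ s)
    (hU : ∀ j < n, ∀ x ∈ Rm j, ker w' p b j v x ≤ U)
    (hR0 : ∀ y ∈ A, bw w' p (b + n) (N - (b + n)) y ≤ R0 * bw w p (b + n) (N - (b + n)) y)
    (hs : ∀ j < n, ∀ x ∈ Rm j, ∑ y ∈ A, ker w p (b + j) (n - j) x y * bw w p (b + n) (N - (b + n)) y ≤
      s * bw w p (b + j) (N - (b + j)) x)
    (hQ : ∀ j < n, ∀ x ∈ Rm j, bw w p (b + j) (N - (b + j)) x ≤ Q * bw w' p b (N - b) v) :
    ∑ y ∈ A, ker w' p b n v y * bw w' p (b + n) (N - (b + n)) y ≤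
      ((∑ j ∈ range n, (Rm j).card : ℕ) : ℝ) * (U * ρ * R0 * s * Q) * bw w' p b (N - b) v := by
  have F0 : ∀ y, 0 ≤ bw w p (b + n) (N - (b + n)) y := fun y => (bw_pos hw hp _ _ _).le
  have ρ0 : 0 ≤ ρ := by linarith
  -- the last exit
  have hd : ∀ y ∈ A, ker w' p b n v y ≤ ∑ j ∈ range n, ∑ x ∈ Rm j, U * ρ * ker w p (b + j) (n - j) x y := by
    intro y hy
    have h2 := duhamel (w := w') (p := p) (a := b) (A := All) (m := dlt v) (V := fun j y => y ∉ Wd j) (Rm := Rm)
      (fun k y => (hw' k y).le) (fun k => (hp k).le) (fun y => by unfold dlt; split_ifs <;> norm_num)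
      (fun j x h3 h4 => hR j x (not_not.1 h3) h4) n y
    have h3 : ms w' p b (fun j y => All j y ∧ y ∉ Wd j) (dlt v) n y = 0 := by
      refine ms_nil (fun z => ?_) n y
      unfold ms
      by_cases h5 : z = v
      · rw [if_neg]
        rw [h5]
        exact fun h6 => h6.2 hv
      · unfold dlt
        split_ifs <;> simp_all
    rw [ms_ker30, h3, if_pos (hA y hy), zero_add, add_zero] at h2
    refine h2.trans (sum_le_sum fun j hj => sum_le_sum fun x hx => ?_)
    have hj' := mem_range.1 hj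
    have h4 := ks_le30 hw hp (b := b) (j := j) (V := fun j y => y ∉ Wd j) (x := x) hout h1 (hρ j hj' x hx) (n - j) y
    have h5 : ks w' p b (fun j y => y ∉ Wd j) n j x y =
        ms w' p (b + j) (fun i y => i = 0 ∨ y ∉ Wd (j + i)) (dlt x) (n - j) y := rfl
    rw [ms_ker30, h5]
    have k1 := ker_nonneg hw' hp b j v x
    have k2 := ker_nonneg hw hp (b + j) (n - j) x y
    calc _ ≤ ker w' p b j v x * (ρ * ker w p (b + j) (n - j) x y) := mul_le_mul_of_nonneg_left h4 k1
      _ ≤ U * (ρ * ker w p (b + j) (n - j) x y) := mul_le_mul_of_nonneg_right (hU j hj' x hx) (by positivity)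
      _ = _ := by ring
  calc _ ≤ ∑ y ∈ A, (∑ j ∈ range n, ∑ x ∈ Rm j, U * ρ * ker w p (b + j) (n - j) x y) *
        (R0 * bw w p (b + n) (N - (b + n)) y) := by
        refine sum_le_sum fun y hy => mul_le_mul (hd y hy) (hR0 y hy) (bw_pos hw' hp _ _ _).le ?_
        exact sum_nonneg fun j _ => sum_nonneg fun x _ => by
          have := ker_nonneg hw hp (b + j) (n - j) x y
          positivity
    _ = ∑ j ∈ range n, ∑ x ∈ Rm j, U * ρ * R0 * ∑ y ∈ A, ker w p (b + j) (n - j) x y * bw w p (b + n) (N - (b + n)) y := by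
        have e1 : ∀ y ∈ A, (∑ j ∈ range n, ∑ x ∈ Rm j, U * ρ * ker w p (b + j) (n - j) x y) *
            (R0 * bw w p (b + n) (N - (b + n)) y) = ∑ j ∈ range n, ∑ x ∈ Rm j,
              U * ρ * R0 * (ker w p (b + j) (n - j) x y * bw w p (b + n) (N - (b + n)) y) := fun y _ => by
          rw [sum_mul]
          refine sum_congr rfl fun j _ => ?_
          rw [sum_mul]
          exact sum_congr rfl fun x _ => by ring
        rw [sum_congr rfl e1, sum_comm]
        refine sum_congr rfl fun j _ => ?_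
        rw [sum_comm]
        exact sum_congr rfl fun x _ => by rw [mul_sum]
    _ ≤ ∑ j ∈ range n, ∑ x ∈ Rm j, U * ρ * R0 * s * Q * bw w' p b (N - b) v := by
        refine sum_le_sum fun j hj => sum_le_sum fun x hx => ?_
        have hj' := mem_range.1 hj
        have h2 := hs j hj' x hx
        have h3 := mul_le_mul_of_nonneg_left (hQ j hj' x hx) hs0
        have h4 := mul_le_mul_of_nonneg_left (h2.trans h3) (show 0 ≤ U * ρ * R0 by positivity)
        linarith
    _ = _ := by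
        push_cast
        rw [sum_mul, sum_mul]
        refine sum_congr rfl fun j _ => ?_
        rw [sum_const, nsmul_eq_mul]
        ring

end

end Pool.Agent.W_7d29a1_C1.Col30
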