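import Pool.Agent.W_7d29a1_C1.FarW89

/-!
Both halves (MP_7d29a1_pr), attractor route, leaf 11 (ii) of row 690: CHANGE OF THE BASE POINT of `Far16` (slabs centred at boxes). (helper89)

`far_rebase`: `Far16` with the half width `K` and the base `b` gives `Far16` with the half width `K - 2` and any base `b'` at the lateral
distance `Λ wd n`, rows inside, level times `(1 + log (2 + Λ)) ^ P`. `Slabs.of_base`: the hypotheses of FarW89 from bases at the distance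
`Λ wd (T u)` of the line.
-/

set_option autoImplicit false

namespace Pool.Agent.W_7d29a1_C1.FarW89

open MeasureTheory ProbabilityTheory Filter Topology Finset
open Pool.Agent.W_7d29a1_F Pool.Agent.W_7d29a1_h4g Pool.Agent.W_7d29a1_H Pool.Agent.W_7d29a1_HS
open Pool.Agent.W_7d29a1_C1.H75 Pool.Agent.W_7d29a1_C1.U16 Pool.Agent.W_7d29a1_C1.FarK89

noncomputable section

variable {μ : Measure ℝ} {s c : ℝ}

theorem far_rebase {θ K q Λ : ℝ} {n N N' P : ℕ} {b b' : Pt} (hw : 1 ≤ wd μ s n) (hq : 0 ≤ q) (hΛ : 0 ≤ Λ) (h1 : b.1 ≤ b'.1)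
    (h2 : b'.1 + N' ≤ b.1 + N) (hb : |lat16 μ s b b'| ≤ Λ * wd μ s n) :
    Far16 μ s c θ K n N P b q ⊆ Far16 μ s c θ (K - 2) n N' P b' (q * fq16 P (Λ + 1)) := by
  intro η hη m'
  have hw0 : 0 < wd μ s n := by linarith
  obtain ⟨w, hwd⟩ : ∃ w : ℝ, w = wd μ s n := ⟨_, rfl⟩
  obtain ⟨x, hx⟩ : ∃ x : ℝ, x = lat16 μ s b b' := ⟨_, rfl⟩
  rw [← hwd] at hw hw0 hb
  rw [← hx] at hb
  obtain ⟨m, hm⟩ : ∃ m : ℤ, m = ⌊x / w + m'⌋ := ⟨_, rfl⟩
  have m1 : (m : ℝ) ≤ x / w + m' := by rw [hm]; exact Int.floor_le _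
  have m2 : x / w + m' < m + 1 := by rw [hm]; exact Int.lt_floor_add_one _
  have hxw : |x / w| ≤ Λ := by
    rw [abs_div, abs_of_pos hw0, div_le_iff₀ hw0]
    exact hb
  have hmm : |(m : ℝ)| ≤ |(m' : ℝ)| + (Λ + 1) := by
    rw [abs_le] at hxw ⊢
    have g1 := neg_abs_le (m' : ℝ)
    have g2 := le_abs_self (m' : ℝ)
    constructor <;> linarith
  have hlev : q * fq16 P m ≤ q * fq16 P (Λ + 1) * fq16 P m' := by
    have g1 : fq16 P m ≤ fq16 P (|(m' : ℝ)| + (Λ + 1)) := by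
      refine fq16_mono ?_
      rw [abs_of_nonneg (show 0 ≤ |(m' : ℝ)| + (Λ + 1) by positivity)]
      exact hmm
    have g2 := fq16_mul P (abs_nonneg (m' : ℝ)) (show 0 ≤ Λ + 1 by linarith)
    have g3 : fq16 P |(m' : ℝ)| = fq16 P m' := by
      unfold fq16
      rw [abs_abs]
    rw [g3] at g2
    calc q * fq16 P m ≤ q * (fq16 P m' * fq16 P (Λ + 1)) := mul_le_mul_of_nonneg_left (g1.trans g2) hq
      _ = _ := by ring
  refine LevS_mono hlev (LevS_anti ?_ (hη m))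
  rintro p ⟨p1, p2, p3⟩
  have p1' : b'.1 ≤ p.1 := p1
  have p2' : p.1 ≤ b'.1 + N' := p2
  refine ⟨h1.trans p1', p2'.trans h2, ?_⟩
  rw [← hwd] at p3 ⊢
  have e1 : ((p.2 - (ft16 μ s n b' m').2 : ℤ) : ℝ) - sl μ s * ((p.1 - (ft16 μ s n b' m').1 : ℤ) : ℝ) =
      lat16 μ s b' p - ⌊(m' : ℝ) * w⌋ := by
    unfold ft16 lat16
    dsimp only
    rw [← hwd]
    push_cast
    ring
  have e2 : ((p.2 - (ft16 μ s n b m).2 : ℤ) : ℝ) - sl μ s * ((p.1 - (ft16 μ s n b m).1 : ℤ) : ℝ) =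
      lat16 μ s b' p + x - ⌊(m : ℝ) * w⌋ := by
    rw [hx]
    unfold ft16 lat16
    dsimp only
    rw [← hwd]
    push_cast
    ring
  rw [e1] at p3
  show |((p.2 - (ft16 μ s n b m).2 : ℤ) : ℝ) - sl μ s * ((p.1 - (ft16 μ s n b m).1 : ℤ) : ℝ)| ≤ K * w
  rw [e2]
  have f1 := Int.floor_le ((m : ℝ) * w)
  have f2 := Int.lt_floor_add_one ((m : ℝ) * w)
  have f3 := Int.floor_le ((m' : ℝ) * w)
  have f4 := Int.lt_floor_add_one ((m' : ℝ) * w)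
  have k1 : (m : ℝ) * w ≤ x + m' * w := by
    have := mul_le_mul_of_nonneg_right m1 hw0.le
    rwa [add_mul, div_mul_cancel₀ _ hw0.ne'] at this
  have k2 : x + m' * w ≤ m * w + w := by
    have := mul_le_mul_of_nonneg_right m2.le hw0.le
    rwa [add_mul, div_mul_cancel₀ _ hw0.ne', add_mul, one_mul] at this
  rw [abs_le] at p3 ⊢
  obtain ⟨q1, q2⟩ := p3
  constructor <;> linarith

/-- The point of the line through `κ` at the row `i`. -/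
def lp (μ : Measure ℝ) (s : ℝ) (κ : Pt) (i : ℤ) : Pt := (i, κ.2 + ⌊sl μ s * ((i - κ.1 : ℤ) : ℝ)⌋)

theorem lat_lp (κ : Pt) (i : ℤ) : |lat16 μ s κ (lp μ s κ i)| ≤ 1 := by
  obtain ⟨t, ht⟩ : ∃ t : ℝ, t = sl μ s * ((i - κ.1 : ℤ) : ℝ) := ⟨_, rfl⟩
  have h1 := Int.floor_le t
  have h2 := Int.lt_floor_add_one t
  have e : lat16 μ s κ (lp μ s κ i) = (⌊t⌋ : ℝ) - t := by
    unfold lat16 lp
    dsimp only
    rw [← ht]
    push_cast
    ring
  rw [e, abs_le]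
  constructor <;> linarith

/-- **The hypotheses of FarW89 from bases at the distance `Λ wd (T u)` of the line.** -/
theorem Slabs.of_base {θ K h Λ Q : ℝ} {P : ℕ} {η : Env} {κ : Pt} {r T N : ℕ → ℕ} {q : ℕ → ℝ} {bs : ℕ → Pt} {a b Tt n₁ : ℕ} (hK : 5 ≤ K)
    (hΛ : 0 ≤ Λ) (q0 : ∀ u, a ≤ u → u < b → 0 ≤ q u) (Tt1 : n₁ ≤ Tt) (T1 : ∀ u, a ≤ u → u < b → n₁ ≤ T u)
    (TT : ∀ u, a ≤ u → u < b → T u ≤ Tt) (NT : ∀ u, a ≤ u → u < b → N u ≤ T u) (rr : ∀ u, a ≤ u → u < b → r u ≤ r (u + 1))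
    (b1 : ∀ u, a ≤ u → u < b → (bs u).1 ≤ r u) (b2 : ∀ u, a ≤ u → u < b → (r (u + 1) : ℤ) ≤ (bs u).1 + N u)
    (hw : ∀ u, a ≤ u → u < b → 1 ≤ wd μ s (T u)) (b3 : ∀ u, a ≤ u → u < b → |lat16 μ s κ (bs u)| ≤ Λ * wd μ s (T u))
    (far : ∀ u, a ≤ u → u < b → η ∈ Far16 μ s c θ K (T u) (N u) P (bs u) (q u))
    (cost : ∑ u ∈ Ico a b, (1 + q u * fq16 P (Λ + 2)) ^ 2 * gr (2 * P) (2 * wd μ s Tt / wd μ s (T u)) * EE μ s (T u) ≤ Q * EE μ s Tt)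
    (force : |h| * wd μ s Tt ≤ c / 8 * EE μ s Tt) :
    Slabs μ s c θ (K - 2) h P η κ r T N (fun u => q u * fq16 P (Λ + 2)) (fun u => lp μ s κ (bs u).1) a b Tt n₁ Q := by
  refine ⟨fun u hu hub => mul_nonneg (q0 u hu hub) (zero_le_one.trans (fq16_one _ _)), by linarith, Tt1, T1, TT, NT, rr, b1, b2,
    fun u hu hub => (lat_lp κ _).trans (hw u hu hub), fun u hu hub => ?_, cost, force⟩
  have h1 : |lat16 μ s (bs u) (lp μ s κ (bs u).1)| ≤ (Λ + 1) * wd μ s (T u) := by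
    rw [lat_base (μ := μ) (s := s) κ (bs u) (lp μ s κ (bs u).1)]
    have g1 := lat_lp (μ := μ) (s := s) κ (bs u).1
    have g2 := b3 u hu hub
    have g3 := hw u hu hub
    have g4 := abs_sub (lat16 μ s κ (lp μ s κ (bs u).1)) (lat16 μ s κ (bs u))
    linarith
  have h2 := far_rebase (c := c) (θ := θ) (K := K) (N := N u) (N' := N u) (b := bs u) (b' := lp μ s κ (bs u).1) (hw u hu hub) (q0 u hu hub) (show 0 ≤ Λ + 1 by linarith) le_rfl
    le_rfl h1 (far u hu hub)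
  rw [show Λ + 1 + 1 = Λ + 2 by ring] at h2
  exact h2

end

end Pool.Agent.W_7d29a1_C1.FarW89
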