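import Pool.Agent.W_7d29a1_C1.ShDef21
import Pool.Agent.W_7d29a1_C1.HoneN74

/-!
Both halves (MP_7d29a1_pr), attractor route [C1]: SUCCESS => H1 FOR ONE CONTACT. (helper21)

Rows: `c0` seam, `c0 + n1` end of the first buffer, `c0 + n1 + ne` start of the one lane slab, `c0 + n1 + ne + nb` its end, `n3` rows last
buffer, seam, `m` more rows (real future) or `0` more rows (flat future). `Fut` = the future seen from the seam, `chain2`, `chaine`,
`chain0`, `chain1` = the profiles at the four rows, then the exits, the masses, the amplitudes.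
-/

set_option autoImplicit false
set_option linter.unusedSectionVars false

namespace Pool.Agent.W_7d29a1_C1.Sh21

open Finset Pool.Agent.W_7d29a1_C1.Gini76 Pool.Agent.W_7d29a1_C1.CR76 Pool.Agent.W_7d29a1_C1.K91P
  Pool.Agent.W_7d29a1_C1.Basin76 Pool.Agent.W_7d29a1_C1.R26P Pool.Agent.W_7d29a1_C1.F74 Pool.Agent.W_7d29a1_C1.P21
open Pool.Agent.W_7d29a1_C1.K97 (Nr Reg)
open Pool.Agent.W_7d29a1_C1.H1c (SucN rrn tpos)

noncomputable section

variable {w : ℕ → ℤ → ℝ} {p : ℕ → ℝ} {lo h hi : ℤ} {l : ℤ → ℝ} {c0 n1 ne nb n3 m r : ℕ}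
  {a1 b1 a2 b2 xa xb s da db ya yb za zb : ℤ} {ph p1 pe p2 p3 : ℤ → ℝ} {δ e e1 e2 U L L0 V A0 A1 A2 A3 G0 ε : ℝ}

/-- The future seen from the second seam; its lower bound is asked at the middle column of the window only. -/
structure Fut (w : ℕ → ℤ → ℝ) (p : ℕ → ℝ) (lo h : ℤ) (c3 m : ℕ) (za zb : ℤ) (p3 : ℤ → ℝ) (V G0 : ℝ) : Prop where
  V1 : 1 ≤ V
  G0p : 0 < G0
  P : Prf (Icc lo h) {(za + zb) / 2} (bw w p c3 m) p3 V G0

/-- The flat future. -/
theorem Fut.flat (hV : 1 ≤ V) (h3 : ∀ z ∈ Icc lo h, 1 ≤ p3 z) : Fut w p lo h r 0 za zb p3 V 1 := by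
  refine ⟨hV, one_pos, ⟨fun z hz => ?_, fun z _ => ?_⟩⟩
  · rw [bw_zero, mul_one]
    have := h3 z hz
    nlinarith
  · rw [bw_zero, mul_one]
    exact hV

/-- The profile at the start of the last buffer. -/
theorem ExitS.chain2 (hw : ∀ k y, 0 < w k y) (hp : ∀ k, 0 < p k) (X : ExitS w p lo h r nb n3 da db ya yb za zb pe p2 p3 δ e U L A2 A3)
    (F : Fut w p lo (h + nb + n3) (r + nb + n3) m za zb p3 V G0) (hL : 1 ≤ L) :
    Prf (Icc lo (h + nb)) (Icc ya yb) (bw w p (r + nb) (n3 + m)) p2 (V * L) (A3 * G0) := by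
  have V1 := F.V1
  have g1 := X.gx.h1
  have g2 := X.gx.h2
  have g3 := X.gx.h3
  have g4 := X.gx.h4
  have y1 := X.gy.1
  have y2 := X.gy.2
  exact F.P.pull hw hp X.k3 (Icc_subset_Icc y1 y2) (singleton_subset_iff.2 (mem_Icc.2 ⟨by omega, by omega⟩)) (by linarith) F.G0p.le
    (by linarith)

/-- The profile at the start of the one lane slab. -/
theorem ExitS.chaine (hw : ∀ k y, 0 < w k y) (hp : ∀ k, 0 < p k) (X : ExitS w p lo h r nb n3 da db ya yb za zb pe p2 p3 δ e U L A2 A3)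
    (F : Fut w p lo (h + nb + n3) (r + nb + n3) m za zb p3 V G0) (hL : 1 ≤ L) (hU : 1 ≤ U) (hA3 : 0 < A3) :
    Prf (Icc lo h) (Icc da db) (bw w p r (nb + (n3 + m))) pe (V * L * U) (A2 * (A3 * G0)) := by
  have V1 := F.V1
  have G1 := F.G0p
  exact (X.chain2 hw hp F hL).pull hw hp X.k2 (Icc_subset_Icc X.gd.1 X.gd.2) (Icc_subset_Icc X.gy.1 X.gy.2) (by positivity)
    (by positivity) (by linarith)

/-- The exits of the last buffer from the cell. -/
theorem ExitS.buf_l (hw : ∀ k y, 0 < w k y) (hp : ∀ k, 0 < p k) (X : ExitS w p lo h r nb n3 da db ya yb za zb pe p2 p3 δ e U L A2 A3)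
    (F : Fut w p lo (h + nb + n3) (r + nb + n3) m za zb p3 V G0) (hL : 1 ≤ L) (he : 0 ≤ e) :
    LX w p (r + nb) n3 m ya za (e * V * (V * L)) ∧ RX w p (r + nb) n3 m yb zb (e * V * (V * L)) := by
  have P := X.chain2 hw hp F hL
  have V1 := F.V1
  have y0 := X.gx.h1
  have y1 := X.gy.1
  have y2 := X.gy.2
  refine ⟨?_, ?_⟩
  · unfold LX
    exact ev_of hw hp F.P (by linarith) F.G0p.le (· < za) (mem_Icc.2 ⟨y1, by omega⟩) X.yl (by positivity)
      (P.lw ya (mem_Icc.2 ⟨le_rfl, y0⟩))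
  · unfold RX
    exact ev_of hw hp F.P (by linarith) F.G0p.le (zb < ·) (mem_Icc.2 ⟨by omega, y2⟩) X.yr (by positivity)
      (P.lw yb (mem_Icc.2 ⟨y0, le_rfl⟩))

/-! ### From the first seam -/

/-- The inside and the exit together. -/
structure All (w : ℕ → ℤ → ℝ) (p : ℕ → ℝ) (lo h : ℤ) (c0 n1 ne nb n3 : ℕ) (a1 b1 a2 b2 xa xb s da db ya yb za zb : ℤ)
    (ph p1 pe p2 p3 : ℤ → ℝ) (δ e U L L0 A0 A1 A2 A3 : ℝ) : Prop where
  g : Geo21 lo h n1 a1 b1 a2 b2 xa xb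
  B : BufIn w p lo h c0 n1 a1 b1 a2 b2 xa xb s p1 δ e A0 L0
  I : Ins w p lo h c0 n1 ne a1 b1 a2 b2 da db ph p1 pe L A0 A1
  X : ExitS w p lo (h + n1 + ne) (c0 + n1 + ne) nb n3 da db ya yb za zb pe p2 p3 δ e U L A2 A3
  off : ∀ a ∈ cl2 a1 b1 a2 b2, ∑ v ∈ Icc lo (h + n1 + ne), kf w p c0 (n1 + ne) a v *
    ∑ z ∈ (Icc lo (h + n1 + ne + nb)).filter (fun z => ¬ (ya ≤ z ∧ z ≤ yb)), kf w p (c0 + n1 + ne) nb v z * p2 z ≤
      e * (A0 * A1) * A2
  δ0 : 0 ≤ δ
  e0 : 0 ≤ e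
  L1 : 1 ≤ L
  U1 : 1 ≤ U
  L01 : 1 ≤ L0
  A0p : 0 < A0
  A1p : 0 < A1
  A2p : 0 < A2
  A3p : 0 < A3

variable (hw : ∀ k y, 0 < w k y) (hp : ∀ k, 0 < p k)
  (S : All w p lo h c0 n1 ne nb n3 a1 b1 a2 b2 xa xb s da db ya yb za zb ph p1 pe p2 p3 δ e U L L0 A0 A1 A2 A3)
  (F : Fut w p lo (h + n1 + ne + nb + n3) (c0 + n1 + ne + nb + n3) m za zb p3 V G0)

include hw hp S F

/-- The profile at the first seam. -/
theorem All.chain0 : Prf (Icc lo h) (cl2 a1 b1 a2 b2) (bw w p c0 (n1 + ne + (nb + (n3 + m)))) ph (V * L * U * L)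
    (A0 * A1 * (A2 * (A3 * G0))) := by
  have V1 := F.V1
  have G1 := F.G0p
  have L1 := S.L1
  have U1 := S.U1
  have A2p := S.A2p
  have A3p := S.A3p
  have P := S.X.chaine hw hp F S.L1 S.U1 S.A3p
  have k1 := S.I.k1
  have er : c0 + n1 + ne = c0 + (n1 + ne) := by ring
  have eh : h + (n1 : ℤ) + (ne : ℤ) = h + ((n1 + ne : ℕ) : ℤ) := by push_cast; ring
  have gd := S.X.gd
  rw [er, eh] at P
  rw [eh] at k1
  refine P.pull hw hp k1 ?_ ?_ (by positivity) (by positivity) (by linarith)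
  · intro z hz
    have g := S.g
    have h1 := g.h1
    have h2 := g.h2
    have h3 := g.h3
    have h7 := g.h7
    have h8 := g.h8
    unfold cl2 at hz
    rw [mem_union, mem_Icc, mem_Icc] at hz
    rw [mem_Icc]
    omega
  · rw [← eh]
    exact Icc_subset_Icc gd.1 gd.2

/-- The profile behind the first buffer, from above. -/
theorem All.chain1 {x : ℤ} (hx : x ∈ Icc lo (h + n1)) : bw w p (c0 + n1) (ne + (nb + (n3 + m))) x ≤
    V * L * U * L * p1 x * (A1 * (A2 * (A3 * G0))) := by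
  have V1 := F.V1
  have G1 := F.G0p
  have L1 := S.L1
  have U1 := S.U1
  have A2p := S.A2p
  have A3p := S.A3p
  have P := S.X.chaine hw hp F S.L1 S.U1 S.A3p
  rw [bw_box hx]
  refine (P.up_sum (fun z => kf_nonneg hw hp _ _ _ _) (by positivity) (by positivity) Subset.rfl (S.I.kc x hx)).trans (le_of_eq ?_)
  ring

/-- The exits of the first buffer (and every other part of its kernel which is small against `p1`). -/
theorem All.buf (Q : ℤ → Prop) [DecidablePred Q] {a : ℤ} (ha : a ∈ cl2 a1 b1 a2 b2)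
    (hq : ∑ x ∈ (Icc lo (h + n1)).filter Q, kf w p c0 n1 a x * p1 x ≤ e * A0) :
    ev w p c0 n1 (ne + (nb + (n3 + m))) Q a ≤ e * (V * L * U * L) * (V * L * U * L) * bw w p c0 (n1 + (ne + (nb + (n3 + m)))) a := by
  have V1 := F.V1
  have G1 := F.G0p
  have L1 := S.L1
  have U1 := S.U1
  have A0p := S.A0p
  have A1p := S.A1p
  have A2p := S.A2p
  have A3p := S.A3p
  have e0 := S.e0
  have P := (S.chain0 hw hp F).lw a ha
  have en : n1 + ne + (nb + (n3 + m)) = n1 + (ne + (nb + (n3 + m))) := by ring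
  rw [en] at P
  have hb : a ∈ Icc lo h := by
    have g := S.g
    have h1 := g.h1
    have h2 := g.h2
    have h3 := g.h3
    have h7 := g.h7
    have h8 := g.h8
    unfold cl2 at ha
    rw [mem_union, mem_Icc, mem_Icc] at ha
    rw [mem_Icc]
    omega
  have Q1 : Prf (Icc lo (h + n1)) (∅ : Finset ℤ) (bw w p (c0 + n1) (ne + (nb + (n3 + m)))) p1 (V * L * U * L) (A1 * (A2 * (A3 * G0))) :=
    ⟨fun z hz => S.chain1 hw hp F hz, fun z hz => absurd hz (notMem_empty z)⟩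
  refine ev_of hw hp Q1 (by positivity) (by positivity) Q hb hq (by positivity) ?_
  refine le_trans (le_of_eq ?_) P
  ring

/-- **The model paths leave through the cell.** -/
theorem All.out {a : ℤ} (ha : a ∈ cl2 a1 b1 a2 b2) (Q : ℤ → Prop) [DecidablePred Q] (hQ : ∀ z, Q z → ¬ (ya ≤ z ∧ z ≤ yb)) :
    ev w p c0 (n1 + ne + nb) (n3 + m) Q a ≤ e * (V * L * U * L) * (V * L * U * L) * bw w p c0 (n1 + ne + nb + (n3 + m)) a := by
  have V1 := F.V1
  have G1 := F.G0p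
  have L1 := S.L1
  have U1 := S.U1
  have A0p := S.A0p
  have A1p := S.A1p
  have A2p := S.A2p
  have A3p := S.A3p
  have e0 := S.e0
  have P2 := S.X.chain2 hw hp F S.L1
  have P0 := S.chain0 hw hp F
  have lw := P0.lw a ha
  have hb : a ∈ Icc lo h := by
    have g := S.g
    have h1 := g.h1
    have h2 := g.h2
    have h3 := g.h3
    have h7 := g.h7
    have h8 := g.h8
    unfold cl2 at ha
    rw [mem_union, mem_Icc, mem_Icc] at ha
    rw [mem_Icc]
    omega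
  rw [mem_Icc] at hb
  have er : c0 + (n1 + ne + nb) = c0 + n1 + ne + nb := by ring
  have er2 : c0 + (n1 + ne) = c0 + n1 + ne := by ring
  -- the composition
  have comp1 : ev w p c0 (n1 + ne + nb) (n3 + m) Q a = ∑ v ∈ Icc lo (h + n1 + ne), kf w p c0 (n1 + ne) a v *
      ∑ z ∈ (Icc lo (h + n1 + ne + nb)).filter Q, kf w p (c0 + n1 + ne) nb v z * bw w p (c0 + n1 + ne + nb) (n3 + m) z := by
    rw [ev_eq c0 (n1 + ne + nb) (n3 + m) Q (a := a) (lo := lo) (hi := h + n1 + ne + nb) hb.1 (by push_cast; omega), er]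
    have e3 : ∀ z ∈ (Icc lo (h + n1 + ne + nb)).filter Q, kf w p c0 (n1 + ne + nb) a z * bw w p (c0 + n1 + ne + nb) (n3 + m) z =
        ∑ v ∈ Icc lo (h + n1 + ne), kf w p c0 (n1 + ne) a v * (kf w p (c0 + n1 + ne) nb v z * bw w p (c0 + n1 + ne + nb) (n3 + m) z) := by
      intro z _
      rw [kf_comp c0 (n1 + ne) nb a z (S := Icc lo (h + n1 + ne)) (Icc_subset_Icc hb.1 (by push_cast; omega))]
      unfold comp
      rw [sum_mul, er2]
      exact sum_congr rfl fun v _ => by ring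
    rw [sum_congr rfl e3, sum_comm]
    exact sum_congr rfl fun v _ => by rw [mul_sum]
  rw [comp1]
  have t1 : ∑ v ∈ Icc lo (h + n1 + ne), kf w p c0 (n1 + ne) a v *
      ∑ z ∈ (Icc lo (h + n1 + ne + nb)).filter Q, kf w p (c0 + n1 + ne) nb v z * bw w p (c0 + n1 + ne + nb) (n3 + m) z ≤
      V * L * (A3 * G0) * (e * (A0 * A1) * A2) := by
    refine le_trans ?_ (mul_le_mul_of_nonneg_left (S.off a ha) (by positivity))
    rw [mul_sum]
    refine sum_le_sum fun v hv => ?_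
    have sub : (Icc lo (h + n1 + ne + nb)).filter Q ⊆ (Icc lo (h + n1 + ne + nb)).filter (fun z => ¬ (ya ≤ z ∧ z ≤ yb)) := by
      intro z hz
      rw [mem_filter] at hz ⊢
      exact ⟨hz.1, hQ z hz.2⟩
    have o1 := (sum_le_sum_of_subset_of_nonneg sub fun z _ _ => mul_nonneg (kf_nonneg hw hp (c0 + n1 + ne) nb v z)
      (bw_pos hw hp (n3 + m) (c0 + n1 + ne + nb) z).le).trans
      (P2.up_sum (fun z => kf_nonneg hw hp (c0 + n1 + ne) nb v z) (by positivity) (by positivity) (filter_subset _ _) le_rfl)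
    have o2 := mul_le_mul_of_nonneg_left o1 (kf_nonneg hw hp c0 (n1 + ne) a v)
    refine o2.trans (le_of_eq ?_)
    ring
  refine t1.trans ?_
  have en : n1 + ne + nb + (n3 + m) = n1 + ne + (nb + (n3 + m)) := by ring
  rw [en]
  have q1 : V * L * (A3 * G0) * (e * (A0 * A1) * A2) = e * (V * L * 1 * 1) * (A0 * A1 * (A2 * (A3 * G0))) := by ring
  rw [q1]
  have q2 : e * (V * L * 1 * 1) * (A0 * A1 * (A2 * (A3 * G0))) ≤ e * (V * L * U * L) * (A0 * A1 * (A2 * (A3 * G0))) := by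
    refine mul_le_mul_of_nonneg_right (mul_le_mul_of_nonneg_left ?_ e0) (by positivity)
    exact mul_le_mul (mul_le_mul_of_nonneg_left U1 (by positivity)) L1 zero_le_one (by positivity)
  refine q2.trans ?_
  have q3 := mul_le_mul_of_nonneg_left lw (show 0 ≤ e * (V * L * U * L) by positivity)
  linarith

/-- **Two starts in the cells have comparable masses.** -/
theorem All.tot {a a' : ℤ} (ha : a ∈ cl2 a1 b1 a2 b2) (ha' : a' ∈ cl2 a1 b1 a2 b2) :
    bw w p c0 (n1 + ne + (nb + (n3 + m))) a ≤ (V * L * U * L) ^ 2 * bw w p c0 (n1 + ne + (nb + (n3 + m))) a' := by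
  have V1 := F.V1
  have G1 := F.G0p
  have L1 := S.L1
  have U1 := S.U1
  have A0p := S.A0p
  have A1p := S.A1p
  have A2p := S.A2p
  have A3p := S.A3p
  have P := S.chain0 hw hp F
  have hb : a ∈ Icc lo h := by
    have g := S.g
    have h1 := g.h1
    have h2 := g.h2
    have h3 := g.h3
    have h7 := g.h7
    have h8 := g.h8
    unfold cl2 at ha
    rw [mem_union, mem_Icc, mem_Icc] at ha
    rw [mem_Icc]
    omega
  have u := P.up a hb
  have l1 := P.lw a' ha'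
  have ph1 := S.I.ph1 a ha
  have C0 : 0 ≤ V * L * U * L := by positivity
  have Z0 : 0 ≤ A0 * A1 * (A2 * (A3 * G0)) := by positivity
  have u2 : V * L * U * L * ph a * (A0 * A1 * (A2 * (A3 * G0))) ≤ V * L * U * L * 1 * (A0 * A1 * (A2 * (A3 * G0))) :=
    mul_le_mul_of_nonneg_right (mul_le_mul_of_nonneg_left ph1 C0) Z0
  have l2 := mul_le_mul_of_nonneg_left l1 C0
  nlinarith

/-- **Off the cells.** -/
theorem All.cell (hl0 : ∀ y, 0 ≤ l y) (hs : ∀ y, fw w p l c0 y ≠ 0 → lo ≤ y ∧ y ≤ h) (hh : h ≤ hi) (he1 : 0 ≤ e1)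
    (ho : ∑ x ∈ Icc lo h \ (Icc a1 b1 ∪ Icc a2 b2), fw w p l c0 x * ph x ≤ e1 * ∑ x ∈ Icc a1 b1 ∪ Icc a2 b2, fw w p l c0 x) :
    ∑ z ∈ Icc lo hi \ cl2 a1 b1 a2 b2, fw w p l c0 z * bw w p c0 (n1 + ne + (nb + (n3 + m))) z ≤
      e1 * (V * L * U * L) * (V * L * U * L) * Tt w p lo hi l c0 (n1 + ne + (nb + (n3 + m))) := by
  have V1 := F.V1
  have G1 := F.G0p
  have L1 := S.L1
  have U1 := S.U1
  have A0p := S.A0p
  have A1p := S.A1p
  have A2p := S.A2p
  have A3p := S.A3p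
  have P := S.chain0 hw hp F
  have C0 : 0 ≤ V * L * U * L := by positivity
  have Z0 : 0 ≤ A0 * A1 * (A2 * (A3 * G0)) := by positivity
  have f0 : ∀ y, 0 ≤ fw w p l c0 y := fun y => fw_nonneg hw hp hl0 _ y
  have cs : cl2 a1 b1 a2 b2 ⊆ Icc lo h := by
    intro z hz
    have g := S.g
    have h1 := g.h1
    have h2 := g.h2
    have h3 := g.h3
    have h7 := g.h7
    have h8 := g.h8
    unfold cl2 at hz
    rw [mem_union, mem_Icc, mem_Icc] at hz
    rw [mem_Icc]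
    omega
  have s1 : ∑ z ∈ Icc lo hi \ cl2 a1 b1 a2 b2, fw w p l c0 z * bw w p c0 (n1 + ne + (nb + (n3 + m))) z =
      ∑ z ∈ Icc lo h \ cl2 a1 b1 a2 b2, fw w p l c0 z * bw w p c0 (n1 + ne + (nb + (n3 + m))) z := by
    symm
    refine sum_subset (sdiff_subset_sdiff (Icc_subset_Icc le_rfl hh) Subset.rfl) fun z hz hz' => ?_
    by_cases hne : fw w p l c0 z = 0
    · rw [hne, zero_mul]
    · exact absurd (mem_sdiff.2 ⟨mem_Icc.2 (hs z hne), (mem_sdiff.1 hz).2⟩) hz'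
  rw [s1]
  have s2 : ∑ z ∈ Icc lo h \ cl2 a1 b1 a2 b2, fw w p l c0 z * bw w p c0 (n1 + ne + (nb + (n3 + m))) z ≤
      V * L * U * L * (A0 * A1 * (A2 * (A3 * G0))) * ∑ z ∈ Icc lo h \ cl2 a1 b1 a2 b2, fw w p l c0 z * ph z := by
    rw [mul_sum]
    refine sum_le_sum fun z hz => ?_
    have := mul_le_mul_of_nonneg_left (P.up z (mem_sdiff.1 hz).1) (f0 z)
    linarith
  refine s2.trans ?_
  have s3 := mul_le_mul_of_nonneg_left ho (mul_nonneg C0 Z0)
  have s4 : (A0 * A1 * (A2 * (A3 * G0))) * ∑ z ∈ Icc a1 b1 ∪ Icc a2 b2, fw w p l c0 z ≤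
      V * L * U * L * Tt w p lo hi l c0 (n1 + ne + (nb + (n3 + m))) := by
    unfold Tt
    rw [mul_sum, mul_sum]
    refine (sum_le_sum (g := fun z => V * L * U * L * (fw w p l c0 z * bw w p c0 (n1 + ne + (nb + (n3 + m))) z))
      fun z hz => ?_).trans (sum_le_sum_of_subset_of_nonneg (cs.trans (Icc_subset_Icc le_rfl hh)) fun z _ _ =>
        mul_nonneg C0 (mul_nonneg (f0 z) (bw_pos hw hp _ _ _).le))
    have := mul_le_mul_of_nonneg_left (P.lw z hz) (f0 z)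
    linarith
  have s5 := mul_le_mul_of_nonneg_left s4 (mul_nonneg he1 C0)
  unfold cl2 at s3 ⊢
  linarith

end

end Pool.Agent.W_7d29a1_C1.Sh21
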