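import Pool.Agent.W_7d29a1_C1.FreD83
import Pool.Agent.W_7d29a1_C1.FarB89
import Pool.Agent.W_7d29a1_C1.RowX83
import Pool.Agent.W_7d29a1_C1.SlabS20
import Pool.Agent.W_7d29a1_C1.Suc21

/-!
MP_7d29a1_pr, [C1], SHELL: THE LAST BLOCK OF THE FRESH BALL (rows `[c3, i⁺]`), TYPICAL. (helper83)

`K5 x z = wt c3 x * nk c3 n x z` (`n = i⁺ - c3`), unit `(E, w) = (EE Tt, wd Tt)`, `θ Tt ≤ n ≤ Tt`.

* `freE83` : for every tolerance `η'` an event of the rows `[i, i + n]` of probability `≥ 1 - η'` on which, for every weight `p`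
  (tilt `h`, switch row `M`), `K5` has the envelope `En31` and the lower bound `exp (- U E)` between the windows `D w` of the line;
* `bw_K5` : `bw c3 = N₀ ∑ K5 x z F z`, `F z = bw i⁺ z / wt i⁺ z`;
* `fut83` : the second seam `Fut` (real slope `p₃ = bw / (Φ G₀)`, `V = Φ exp (U E)`), `loG83` : the field `loG` of `Jnt`.
-/

set_option autoImplicit false

namespace Pool.Agent.W_7d29a1_C1.S83

open MeasureTheory ProbabilityTheory Filter Topology Finset
open Pool.Agent.W_7d29a1_F Pool.Agent.W_7d29a1_H Pool.Agent.W_7d29a1_HS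
open Pool.Agent.W_7d29a1_C1.K91 (wt wt_pos)
open Pool.Agent.W_7d29a1_C1.K91P (bw bw_pos)
open Pool.Agent.W_7d29a1_C1.H75 Pool.Agent.W_7d29a1_C1.U16 Pool.Agent.W_7d29a1_C1.FarK89 Pool.Agent.W_7d29a1_C1.FarW89
open Pool.Agent.W_7d29a1_C1.D31 (En31)

noncomputable section

/-- The kernel of the last block. -/
def K5 (μ : Measure ℝ) (s h : ℝ) (η : Env) (p : ℕ → ℝ) (M i n : ℕ) (x y : ℤ) : ℝ := wt η i x * nk μ s h η p M i n x y

/-- The powers of the logarithm. -/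
theorem gr_pow_mono {P P' : ℕ} (h : P ≤ P') {X : ℝ} (hX : 0 ≤ X) : gr P X ≤ gr P' X := by
  unfold gr
  exact pow_le_pow_right₀ (by have := Real.log_nonneg (show (1 : ℝ) ≤ 1 + X by linarith); linarith) h

variable {μ : Measure ℝ} {s c C : ℝ} {n₀ : ℕ} [IsProbabilityMeasure μ]

/-- The sum over the row. -/
theorem sumR83 (h0 : In μ s c C n₀) {c₂ σ : ℝ} (hc : 0 < c₂) (hσ : 0 < σ) : ∃ n₁ : ℕ, 1 ≤ n₁ ∧ ∀ n : ℕ, n₁ ≤ n → ∀ (z : ℝ)
    (J : Finset ℤ), ∑ y ∈ J, Real.exp (-(c₂ * (EE μ s n / wd μ s n) * |(y : ℝ) - z|)) ≤ Real.exp (σ * EE μ s n) := by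
  obtain ⟨m₁, H1⟩ := lgo h0 (δ := σ / 2) (by positivity)
  obtain ⟨m₂, H2⟩ := eventually_atTop.1 ((wd_tendsto h0).eventually_ge_atTop 1)
  obtain ⟨m₃, H3⟩ := eventually_atTop.1 (h0.tE.eventually_ge_atTop ((2 + 4 * wd μ s 1 / c₂) * (2 / σ)))
  refine ⟨max (max m₁ m₂) (max m₃ 1), (le_max_right _ _).trans (le_max_right _ _), fun n hn z J => ?_⟩
  have hn1 : 1 ≤ n := ((le_max_right _ _).trans (le_max_right _ _)).trans hn
  have hnR : (1 : ℝ) ≤ n := by exact_mod_cast hn1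
  have l1 := H1 n (((le_max_left _ _).trans (le_max_left _ _)).trans hn)
  have l2 := H2 n (((le_max_right _ _).trans (le_max_left _ _)).trans hn)
  have l3 := H3 n (((le_max_left _ _).trans (le_max_right _ _)).trans hn)
  have hw0 : 0 < wd μ s n := by linarith
  have hE := EE_pos (μ := μ) (s := s) n
  have hE1 := one_le_EE (μ := μ) (s := s) n
  have hw1 := h0.wd_nonneg 1
  refine (sum_exp_abs (by positivity) z J).trans ?_
  have h1 : 2 / (c₂ * (EE μ s n / wd μ s n)) = 2 / c₂ * (wd μ s n / EE μ s n) := by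
    field_simp
  have h2 : wd μ s n / EE μ s n ≤ wd μ s n := div_le_self hw0.le hE1
  have h3 : wd μ s n ≤ 2 * (n * wd μ s 1) := by
    have := wd_lower_one h0 (m := 1) (n := n) le_rfl hn1
    rwa [Nat.cast_one, one_mul] at this
  have h4 : 2 / c₂ * (wd μ s n / EE μ s n) ≤ 2 / c₂ * (2 * (n * wd μ s 1)) := mul_le_mul_of_nonneg_left (h2.trans h3) (by positivity)
  have h5 : 2 / c₂ * (2 * (n * wd μ s 1)) = 4 * wd μ s 1 / c₂ * n := by ring
  have hA : 0 ≤ 4 * wd μ s 1 / c₂ := by positivity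
  rw [h1]
  have h6 : 2 + 2 / c₂ * (wd μ s n / EE μ s n) ≤ (2 + 4 * wd μ s 1 / c₂) * n := by
    rw [h5] at h4
    nlinarith
  refine h6.trans ?_
  have h7 : (n : ℝ) ≤ Real.exp (σ / 2 * EE μ s n) := by
    have := Real.exp_le_exp.2 l1
    rwa [Real.exp_log (by linarith)] at this
  have h8 : 2 + 4 * wd μ s 1 / c₂ ≤ Real.exp (σ / 2 * EE μ s n) := by
    have h9 := mul_le_mul_of_nonneg_left l3 (show 0 ≤ σ / 2 by positivity)
    have h10 : σ / 2 * ((2 + 4 * wd μ s 1 / c₂) * (2 / σ)) = 2 + 4 * wd μ s 1 / c₂ := by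
      field_simp
    rw [h10] at h9
    have := Real.add_one_le_exp (σ / 2 * EE μ s n)
    linarith
  calc (2 + 4 * wd μ s 1 / c₂) * n ≤ Real.exp (σ / 2 * EE μ s n) * Real.exp (σ / 2 * EE μ s n) :=
        mul_le_mul h8 h7 (by linarith) (Real.exp_pos _).le
    _ = _ := by
        rw [← Real.exp_add]
        congr 1
        ring

/-- One slab. -/
theorem slab_one {θ K h q Q : ℝ} {P n₁ Tt i n : ℕ} {η : Env} {κ : Pt} (hq : 0 ≤ q) (hK : 3 ≤ K) (hT : n₁ ≤ Tt) (hn : n ≤ Tt)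
    (hw : 1 ≤ wd μ s Tt) (hf : η ∈ Far16 μ s c θ K Tt n P (lp μ s κ i) q)
    (hQ : (1 + q) ^ 2 * gr (2 * P) 2 ≤ Q) (hF : |h| * wd μ s Tt ≤ c / 8 * EE μ s Tt) :
    Slabs μ s c θ K h P η κ (fun u => if u = 0 then i else i + n) (fun _ => Tt) (fun _ => n) (fun _ => q)
      (fun _ => lp μ s κ i) 0 1 Tt n₁ Q := by
  have hE := EE_pos (μ := μ) (s := s) Tt
  have hw0 : 0 < wd μ s Tt := by linarith
  have u0 : ∀ u, u < 1 → u = 0 := fun u hu => by omega
  refine ⟨fun _ _ _ => hq, hK, hT, fun _ _ _ => hT, fun _ _ _ => le_rfl, fun _ _ _ => hn, fun u _ hu => ?_, fun u _ hu => ?_,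
    fun u _ hu => ?_, fun _ _ _ => (lat_lp κ _).trans hw, fun _ _ _ => hf, ?_, hF⟩
  · rw [u0 u hu, if_pos rfl, if_neg (by norm_num)]
    omega
  · rw [u0 u hu, if_pos rfl]
    exact le_rfl
  · rw [if_neg (by omega)]
    show ((i + n : ℕ) : ℤ) ≤ (i : ℤ) + n
    push_cast
    exact le_rfl
  · rw [Nat.Ico_succ_singleton, sum_singleton]
    have e : 2 * wd μ s Tt / wd μ s Tt = 2 := by field_simp
    rw [e]
    exact mul_le_mul_of_nonneg_right hQ hE.le

/-- **THE LAST BLOCK.** -/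
theorem freE83 (h0 : In μ s c C n₀) {θ D η' : ℝ} (hθ : 0 < θ) (hθ1 : θ ≤ 1) (hD : 0 ≤ D) (hη' : 0 < η') :
    ∃ (P₀ : ℕ) (q U : ℝ), 0 ≤ q ∧ 0 < U ∧ ∀ c₂ σ : ℝ, 0 < c₂ → 0 < σ → ∃ n₁ : ℕ, 1 ≤ n₁ ∧ ∀ Tt : ℕ, n₁ ≤ Tt →
    ∀ n : ℕ, θ * Tt ≤ n → n ≤ Tt → ∀ (κ : Pt) (i : ℕ), ∃ E : Set Env, MeasurableSet E ∧
      On20 (rows ((i : ℤ) - 1) (i + n)) E ∧ 1 - η' ≤ (law μ).real E ∧
      ∀ η ∈ E, ∀ (h : ℝ) (p : ℕ → ℝ) (M : ℕ), (∀ k, k < M → p k = Real.exp (s + h)) → (∀ k, M ≤ k → p k = Real.exp s) →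
        |h| * wd μ s Tt ≤ c / 8 * EE μ s Tt →
        (∀ P', P₀ ≤ P' → ∀ I J : Finset ℤ, En31 P' (c / 8) c₂ (EE μ s Tt) (wd μ s Tt) q σ (fun x => lat16 μ s κ ((i : ℤ), x))
          (fun y => lat16 μ s κ (((i + n : ℕ) : ℤ), y)) (K5 μ s h η p M i n) I J) ∧
        ∀ x y : ℤ, |lat16 μ s κ ((i : ℤ), x)| ≤ D * wd μ s Tt → |lat16 μ s κ (((i + n : ℕ) : ℤ), y)| ≤ D * wd μ s Tt →
          Real.exp (-(U * EE μ s Tt)) ≤ K5 μ s h η p M i n x y := by
  have hc0 := h0.c0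
  obtain ⟨K, hK⟩ : ∃ K : ℝ, K = 2 * D + 6 := ⟨_, rfl⟩
  have hK4 : 4 ≤ K := by linarith
  obtain ⟨P, A, a, g, hA, ha, hg, hg1, m₁, hm₁, Hf⟩ := far_prob h0 (K := K) (θ := θ) (by linarith) hθ hθ1
  -- the level
  obtain ⟨x₁, hx₁⟩ : ∃ x : ℝ, x = max 0 (Real.log (A / (η' / 2)) / a) := ⟨_, rfl⟩
  have hx0 : 0 ≤ x₁ := by rw [hx₁]; exact le_max_left _ _
  obtain ⟨q₁, hq₁⟩ : ∃ q : ℝ, q = x₁ ^ (1 / g) := ⟨_, rfl⟩
  have hq0 : 0 ≤ q₁ := by rw [hq₁]; exact Real.rpow_nonneg hx0 _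
  have hqg : q₁ ^ g = x₁ := by
    rw [hq₁, ← Real.rpow_mul hx0]
    have : 1 / g * g = 1 := by field_simp
    rw [this, Real.rpow_one]
  have hAq : A * Real.exp (-(a * q₁ ^ g)) ≤ η' / 2 := by
    rw [hqg]
    have h1 : Real.log (A / (η' / 2)) / a ≤ x₁ := by rw [hx₁]; exact le_max_right _ _
    rw [div_le_iff₀ ha] at h1
    have h2 : Real.exp (-(a * x₁)) ≤ Real.exp (-Real.log (A / (η' / 2))) := Real.exp_le_exp.2 (by linarith)
    rw [Real.exp_neg (Real.log _), Real.exp_log (by positivity)] at h2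
    calc A * Real.exp (-(a * x₁)) ≤ A * (A / (η' / 2))⁻¹ := mul_le_mul_of_nonneg_left h2 hA.le
      _ = η' / 2 := by field_simp
  obtain ⟨Q, hQ⟩ : ∃ Q : ℝ, Q = (1 + q₁) ^ 2 * gr (2 * P) 2 := ⟨_, rfl⟩
  have hg2 := gr_one_le (2 * P) (show (0 : ℝ) ≤ 2 by norm_num)
  have hQ0 : 0 ≤ Q := by rw [hQ]; positivity
  obtain ⟨C₅, hC₅, m₂, hm₂, Hup⟩ := far_up h0 P
  obtain ⟨C₆, hC₆, m₃, hm₃, Hlo⟩ := far_low89 h0 P hK4 hθ
  obtain ⟨m₄, hm₄, Hr⟩ := rowG83 h0 (q := 1) one_pos 1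
  obtain ⟨m₅, H5⟩ := eventually_atTop.1 ((wd_tendsto h0).eventually_ge_atTop 1)
  obtain ⟨m₆, H6⟩ := eventually_atTop.1 (h0.tE.eventually_ge_atTop (2 / η'))
  obtain ⟨m₇, H7⟩ := eventually_atTop.1 (h0.tv.eventually_le_const (show (0 : ℝ) < 1 by norm_num))
  have hLQ : 0 ≤ LQ (2 * P) (c / 8) (C₅ * Q) := LQ_nonneg _ (by positivity)
  have hlD : 0 ≤ Real.log (1 + (D + 1)) := Real.log_nonneg (by linarith)
  refine ⟨2 * P + 1, (LQ (2 * P) (c / 8) (C₅ * Q) + Q + 2) , C₆ * Q * gr (2 * P) K + (1 + Real.log (1 + (D + 1))), by positivity, ?_,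
    fun c₂ σ hc₂ hσ => ?_⟩
  · have hgK := gr_nonneg (2 * P) (show (0 : ℝ) ≤ K by linarith)
    positivity
  obtain ⟨m₈, hm₈, H8⟩ := sumR83 h0 hc₂ hσ
  refine ⟨max (max (max m₁ m₂) (max m₃ m₄)) (max (max m₅ m₆) (max m₇ m₈)), ?_, fun Tt hT n hθn hnT κ i => ?_⟩
  · exact hm₁.trans (((le_max_left _ _).trans (le_max_left _ _)).trans (le_max_left _ _))
  have t1 : m₁ ≤ Tt := (((le_max_left _ _).trans (le_max_left _ _)).trans (le_max_left _ _)).trans hT
  have t2 : m₂ ≤ Tt := (((le_max_right _ _).trans (le_max_left _ _)).trans (le_max_left _ _)).trans hT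
  have t3 : m₃ ≤ Tt := (((le_max_left _ _).trans (le_max_right _ _)).trans (le_max_left _ _)).trans hT
  have t4 : m₄ ≤ Tt := (((le_max_right _ _).trans (le_max_right _ _)).trans (le_max_left _ _)).trans hT
  have t5 : m₅ ≤ Tt := (((le_max_left _ _).trans (le_max_left _ _)).trans (le_max_right _ _)).trans hT
  have t6 : m₆ ≤ Tt := (((le_max_right _ _).trans (le_max_left _ _)).trans (le_max_right _ _)).trans hT
  have t7 : m₇ ≤ Tt := (((le_max_left _ _).trans (le_max_right _ _)).trans (le_max_right _ _)).trans hT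
  have t8 : m₈ ≤ Tt := (((le_max_right _ _).trans (le_max_right _ _)).trans (le_max_right _ _)).trans hT
  have hw1 : 1 ≤ wd μ s Tt := H5 Tt t5
  have hw0 : 0 < wd μ s Tt := by linarith
  have hwT : wd μ s Tt ≤ Tt := by
    have h1 := H7 Tt t7
    have h2 : (0 : ℝ) ≤ Tt := Nat.cast_nonneg Tt
    unfold wd
    calc (Tt : ℝ) * vA 1 μ s Tt ≤ Tt * 1 := mul_le_mul_of_nonneg_left h1 h2
      _ = Tt := mul_one _
  have hE := EE_pos (μ := μ) (s := s) Tt
  obtain ⟨b, hb⟩ : ∃ b : Pt, b = lp μ s κ i := ⟨_, rfl⟩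
  have hb1 : b.1 = i := by rw [hb]; rfl
  have hlb : |lat16 μ s κ ((i : ℤ), b.2)| ≤ 1 := by
    have h1 := lat_lp (μ := μ) (s := s) κ (i : ℤ)
    rw [hb]
    exact h1
  refine ⟨Far16 μ s c θ K Tt n P b q₁ ∩ RowG i b.2 (wd μ s Tt) (1 * EE μ s Tt),
    (Far16_meas _ _ _ _ _ _ _).inter (meas_RowG _ _ _ _), ?_, ?_, ?_⟩
  · -- the rows
    refine On20.inter ?_ ?_
    · intro η η' hh
      refine Far16_rows fun z hz => hh z ?_
      obtain ⟨z1, z2⟩ := hz
      rw [hb1] at z1 z2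
      exact ⟨by omega, z2⟩
    · intro η η' hh
      have h1 : ∀ x : ℤ, η ((i : ℤ), x) = η' ((i : ℤ), x) := fun x => hh _ ⟨by show (i : ℤ) - 1 < i; omega, by show (i : ℤ) ≤ i + n; omega⟩
      constructor
      · intro h2 x
        rw [← h1 x]
        exact h2 x
      · intro h2 x
        rw [h1 x]
        exact h2 x
  · -- the probability
    have h1 := Hf Tt t1 n hnT b q₁ hq0
    have h2 := Hr Tt t4 i b.2 (wd μ s Tt) hw1 hwT
    have h3 : Real.exp (-(1 * EE μ s Tt)) ≤ η' / 2 := by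
      have h4 := H6 Tt t6
      have h5 := Real.add_one_le_exp (EE μ s Tt)
      rw [one_mul, Real.exp_neg]
      have h6 : 2 / η' ≤ Real.exp (EE μ s Tt) := by linarith
      calc (Real.exp (EE μ s Tt))⁻¹ ≤ (2 / η')⁻¹ := inv_anti₀ (by positivity) h6
        _ = η' / 2 := by rw [inv_div]
    have h4 : (law μ).real (Far16 μ s c θ K Tt n P b q₁ ∩ RowG i b.2 (wd μ s Tt) (1 * EE μ s Tt))ᶜ ≤ η' := by
      rw [Set.compl_inter]
      refine (measureReal_union_le _ _).trans ?_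
      linarith
    have h5 := measureReal_compl (μ := law μ) ((Far16_meas (μ := μ) (s := s) (c := c) θ K Tt n P b q₁).inter
      (meas_RowG i b.2 (wd μ s Tt) (1 * EE μ s Tt)))
    rw [h5, probReal_univ] at h4
    linarith
  · rintro η ⟨hη1, hη2⟩ h p M hp hp' hF
    have hpp : ∀ k, 0 < p k := fun k => by
      rcases lt_or_ge k M with h3 | h3
      · rw [hp k h3]; exact Real.exp_pos _
      · rw [hp' k h3]; exact Real.exp_pos _
    rw [hb] at hη1
    rw [one_mul] at hη2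
    have sl2 := slab_one (κ := κ) (h := h) (n₁ := m₂) hq0 (by linarith) t2 hnT hw1 hη1 hQ.ge hF
    have sl3 := slab_one (κ := κ) (h := h) (n₁ := m₃) hq0 (by linarith) t3 hnT hw1 hη1 hQ.ge hF
    have up := Hup (zero_le_one (α := ℕ)) hp hp' sl2
    have low := Hlo (Nat.zero_lt_one) hp hp' sl3 (fun u _ hu => by
      have e : u = 0 := by omega
      subst e
      rw [if_pos rfl, if_neg (by norm_num), Nat.add_sub_cancel_left]
      exact hθn) 0
    simp only [if_true, one_ne_zero, if_false, Nat.add_sub_cancel_left, lt] at up low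
    refine ⟨fun P' hP' I J => ⟨by positivity, hσ.le, fun x y => ?_, fun x _ y _ => ?_, fun x => ?_⟩, fun x y hx hy => ?_⟩
    · unfold K5
      exact mul_nonneg (wt_pos η i x).le (nk_nonneg hpp i n x y)
    · -- the upper envelope
      have g1 := up x y
      have g2 := RowG.wt_le (r := i) hη2 hw0 hE.le x
      obtain ⟨X, hX⟩ : ∃ X : ℝ, X = |lat16 μ s κ ((i : ℤ), x)| / wd μ s Tt := ⟨_, rfl⟩
      have hX0 : 0 ≤ X := by rw [hX]; positivity
      have g3 : |((x - b.2 : ℤ) : ℝ)| / wd μ s Tt ≤ X + 1 := by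
        have e1 : ((x - b.2 : ℤ) : ℝ) = lat16 μ s κ ((i : ℤ), x) - lat16 μ s κ ((i : ℤ), b.2) := by
          unfold lat16
          push_cast
          ring
        have e2 : |((x - b.2 : ℤ) : ℝ)| ≤ |lat16 μ s κ ((i : ℤ), x)| + wd μ s Tt := by
          rw [e1]
          refine (abs_sub _ _).trans ?_
          linarith
        rw [hX, div_add_one hw0.ne']
        exact div_le_div_of_nonneg_right e2 hw0.le
      have g4 : 1 + Real.log (1 + |((x - b.2 : ℤ) : ℝ)| / wd μ s Tt) ≤ 2 * gr P' X := by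
        have e0 : 0 ≤ |((x - b.2 : ℤ) : ℝ)| / wd μ s Tt := by positivity
        have e1 := Real.log_le_log (show 0 < 1 + |((x - b.2 : ℤ) : ℝ)| / wd μ s Tt by linarith)
          (show 1 + |((x - b.2 : ℤ) : ℝ)| / wd μ s Tt ≤ (1 + X) * 2 by linarith)
        rw [Real.log_mul (by linarith) (by norm_num)] at e1
        have e2 : Real.log 2 ≤ 1 := by
          have := Real.log_two_lt_d9
          linarith
        have e3 := gr_pow_mono (show 1 ≤ P' by omega) hX0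
        have e4 : gr 1 X = 1 + Real.log (1 + X) := by
          unfold gr
          rw [pow_one]
        have e5 := gr_one_le P' hX0
        rw [e4] at e3
        linarith
      have g5 : gr (2 * P) X ≤ gr P' X := gr_pow_mono (by omega) hX0
      have g6 := gr_one_le P' hX0
      unfold K5
      refine (mul_le_mul g2 g1 (nk_nonneg hpp i n x y) (Real.exp_pos _).le).trans ?_
      rw [← Real.exp_add, ← hX]
      refine Real.exp_le_exp.2 ?_
      have e1 : lat16 μ s κ (((i + n : ℕ) : ℤ), y) - lat16 μ s κ ((i : ℤ), x) = ((y - x : ℤ) : ℝ) - sl μ s * (n : ℝ) := by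
        unfold lat16
        push_cast
        ring
      have e2 : c / 8 * (EE μ s Tt / wd μ s Tt) = hc μ s c Tt / 8 := by
        unfold hc
        ring
      rw [e1, e2]
      have e3 := mul_le_mul_of_nonneg_right (mul_le_mul_of_nonneg_left g5 hLQ) hE.le
      have e4 := mul_le_mul_of_nonneg_left g4 hE.le
      have e5 := mul_le_mul_of_nonneg_right (mul_le_mul_of_nonneg_left g6 hQ0) hE.le
      linarith
    · -- the sum
      have g1 := H8 Tt t8 (κ.2 + sl μ s * (((i + n : ℕ) : ℤ) - κ.1 : ℤ) + lat16 μ s κ ((i : ℤ), x)) J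
      refine (sum_le_sum fun y _ => le_of_eq ?_).trans g1
      congr 4
      unfold lat16
      push_cast
      ring
    · -- the lower bound
      have g1 := low x y (by rw [sub_zero]; nlinarith) (by rw [sub_zero]; nlinarith)
      have g2 := RowG.le_wt (r := i) hη2 hw0 hE.le x
      have g3 : |((x - b.2 : ℤ) : ℝ)| / wd μ s Tt ≤ D + 1 := by
        have e1 : ((x - b.2 : ℤ) : ℝ) = lat16 μ s κ ((i : ℤ), x) - lat16 μ s κ ((i : ℤ), b.2) := by
          unfold lat16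
          push_cast
          ring
        rw [div_le_iff₀ hw0, e1]
        refine (abs_sub _ _).trans ?_
        nlinarith
      have g4 : Real.log (1 + |((x - b.2 : ℤ) : ℝ)| / wd μ s Tt) ≤ Real.log (1 + (D + 1)) := by
        have e0 : 0 ≤ |((x - b.2 : ℤ) : ℝ)| / wd μ s Tt := by positivity
        exact Real.log_le_log (by linarith) (by linarith)
      unfold K5
      refine le_trans ?_ (mul_le_mul g2 g1 (Real.exp_pos _).le (wt_pos η i x).le)
      rw [← Real.exp_add]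
      refine Real.exp_le_exp.2 ?_
      rw [abs_zero, zero_div, zero_add]
      have e4 := mul_le_mul_of_nonneg_left g4 hE.le
      linarith

/-! ### The profile at the row `c3` -/

variable {h : ℝ} {η : Env} {p : ℕ → ℝ} {M i n m : ℕ}

omit [IsProbabilityMeasure μ] in
/-- The normalised profile. -/
theorem bw_K5 {Z : Finset ℤ} {x : ℤ} (hZ : Icc x (x + n) ⊆ Z) : bw (wt η) p i (n + m) x =
    Real.exp (n * lam μ s + h * sl μ s * bl M i n) * ∑ z ∈ Z, K5 μ s h η p M i n x z * (bw (wt η) p (i + n) m z / wt η (i + n) z) := by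
  have e1 : bw (wt η) p i (n + m) x = ∑ z ∈ Z, ker (wt η) p i n x z * bw (wt η) p (i + n) m z := by
    rw [bw_ker (w := wt η) (p := p) i n m x]
    refine sum_subset hZ fun z _ hz => ?_
    rw [ker_eq_zero (w := wt η) (p := p) i n x z (fun h => hz (mem_Icc.2 h)), zero_mul]
  rw [e1, mul_sum]
  refine sum_congr rfl fun z _ => ?_
  have h2 := wt_pos η (i + n) z
  rw [ker_nk (μ := μ) (s := s) (h := h) (M := M)]
  unfold K5
  field_simp

omit [IsProbabilityMeasure μ] in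
/-- One term. -/
theorem le_bw_K5 (hp : ∀ k, 0 < p k) (x y : ℤ) :
    Real.exp (n * lam μ s + h * sl μ s * bl M i n) * (K5 μ s h η p M i n x y * (bw (wt η) p (i + n) m y / wt η (i + n) y)) ≤
      bw (wt η) p i (n + m) x := by
  rw [bw_K5 (μ := μ) (s := s) (h := h) (M := M) (Z := insert y (Icc x (x + n))) (subset_insert _ _)]
  refine mul_le_mul_of_nonneg_left ?_ (Real.exp_pos _).le
  refine single_le_sum (f := fun z => K5 μ s h η p M i n x z * (bw (wt η) p (i + n) m z / wt η (i + n) z)) (fun z _ => ?_)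
    (mem_insert_self _ _)
  have h1 := wt_pos η (i + n) z
  have h2 := bw_pos (wt_pos η) hp m (i + n) z
  have h3 := nk_nonneg (μ := μ) (s := s) (h := h) (η := η) (M := M) hp i n x z
  have h4 := wt_pos η i x
  unfold K5
  positivity

omit [IsProbabilityMeasure μ] in
/-- **The second seam.** `G₀ = N₀ F yp`, real slope `bw / (Φ G₀)`, `V = Φ exp (U E)`. -/
theorem fut83 (hp : ∀ k, 0 < p k) {lo hh za zb yp : ℤ} {Φ UE G₀ : ℝ} (hΦ : 1 ≤ Φ) (hU : 0 ≤ UE)
    (hG : G₀ = Real.exp (n * lam μ s + h * sl μ s * bl M i n) * (bw (wt η) p (i + n) m yp / wt η (i + n) yp))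
    (hlo : Real.exp (-UE) ≤ K5 μ s h η p M i n ((za + zb) / 2) yp) :
    Sh21.Fut (wt η) p lo hh i (n + m) za zb (fun z => bw (wt η) p i (n + m) z / (Φ * G₀)) (Φ * Real.exp UE) G₀ := by
  have hw := wt_pos η
  have hF : 0 < bw (wt η) p (i + n) m yp / wt η (i + n) yp := div_pos (bw_pos hw hp _ _ _) (hw _ _)
  have hG0 : 0 < G₀ := by rw [hG]; positivity
  have he := Real.one_le_exp hU
  have hΦ0 : 0 < Φ := by linarith
  refine ⟨by nlinarith, hG0, ⟨fun z _ => ?_, fun z hz => ?_⟩⟩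
  · have h1 := bw_pos hw hp (n + m) i z
    have e : Φ * Real.exp UE * (bw (wt η) p i (n + m) z / (Φ * G₀)) * G₀ = Real.exp UE * bw (wt η) p i (n + m) z := by
      field_simp
    rw [e]
    nlinarith
  · have h1 := le_bw_K5 (μ := μ) (s := s) (h := h) (η := η) (M := M) (i := i) (n := n) (m := m) hp z yp
    have h2 := hlo
    rw [← mem_singleton.1 hz] at h2
    have hN := Real.exp_pos (n * lam μ s + h * sl μ s * bl M i n)
    have h3 : Real.exp (-UE) * G₀ ≤ bw (wt η) p i (n + m) z := by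
      refine le_trans ?_ h1
      rw [hG]
      calc Real.exp (-UE) * (Real.exp (n * lam μ s + h * sl μ s * bl M i n) * (bw (wt η) p (i + n) m yp / wt η (i + n) yp))
          = Real.exp (n * lam μ s + h * sl μ s * bl M i n) * (Real.exp (-UE) * (bw (wt η) p (i + n) m yp / wt η (i + n) yp)) := by ring
        _ ≤ _ := mul_le_mul_of_nonneg_left (mul_le_mul_of_nonneg_right h2 hF.le) hN.le
    have h4 := mul_le_mul_of_nonneg_left h3 (Real.exp_pos UE).le
    have e : Real.exp UE * (Real.exp (-UE) * G₀) = G₀ := by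
      rw [← mul_assoc, ← Real.exp_add]
      simp
    rw [e] at h4
    have h5 := bw_pos hw hp (n + m) i z
    have h6 : 0 ≤ Real.exp UE * bw (wt η) p i (n + m) z := by positivity
    calc G₀ ≤ Real.exp UE * bw (wt η) p i (n + m) z := h4
      _ ≤ Φ * (Real.exp UE * bw (wt η) p i (n + m) z) := le_mul_of_one_le_left h6 hΦ
      _ = _ := by ring

omit [IsProbabilityMeasure μ] in
/-- The field `loG` of `Jnt` (normalised profiles, `G₀ = F yp`, `V = exp (U E)`). -/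
theorem loG83 {δ' Z : Finset ℤ} {yp : ℤ} {UE : ℝ} {K : ℤ → ℤ → ℝ} {F G : ℤ → ℝ} (hK : ∀ x y, 0 ≤ K x y) (hF : ∀ z, 0 ≤ F z)
    (hG : ∀ z ∈ δ', G z = ∑ z' ∈ Z, K z z' * F z') (hy : yp ∈ Z) (hlo : ∀ z ∈ δ', Real.exp (-UE) ≤ K z yp) :
    ∀ z ∈ δ', F yp ≤ Real.exp UE * G z := by
  intro z hz
  have h1 : K z yp * F yp ≤ G z := by
    rw [hG z hz]
    exact single_le_sum (f := fun z' => K z z' * F z') (fun z' _ => mul_nonneg (hK _ _) (hF _)) hy
  have h2 := (mul_le_mul_of_nonneg_right (hlo z hz) (hF yp)).trans h1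
  have h3 := mul_le_mul_of_nonneg_left h2 (Real.exp_pos UE).le
  rwa [← mul_assoc, ← Real.exp_add, add_neg_cancel, Real.exp_zero, one_mul] at h3

end

end Pool.Agent.W_7d29a1_C1.S83
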