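import Mathlib.Analysis.SpecialFunctions.Log.Basic
import Mathlib.Algebra.BigOperators.Ring.Finset
import Mathlib.Algebra.Order.BigOperators.Ring.Finset
import Mathlib.Data.Int.Interval
import Mathlib.Tactic.Positivity

/-!
MP_7d29a1_pr, attractor route [C1], SHELL: `uncovered` gives the data of the block (windows by profiles). Abstract part. (helper31)

`X` = mass which arrives at the outer row, `F` = future mass at the outer row behind the ball, `k` = kernel of the old content of the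
ball, `kap` = envelope of every tame content. `fsum` = JOINT mass of the routes which are not in the windows at both outer rows, for the
envelope. If few old routes are far (`hx`, `hz`), the old kernel has a lower bound for some end near every start, and `F`, `X` are locally
regular at the far places, then `fsum` is small against the central route.
-/

set_option autoImplicit false

namespace Pool.Agent.W_7d29a1_C1.D31

open Finset

noncomputable section

/-- The joint mass of the routes which are not in the windows at both rows. -/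
def fsum (I : Finset ℤ) (cen cen' W : ℝ) (kap : ℤ → ℤ → ℝ) (X F : ℤ → ℝ) : ℝ :=
  ∑ x ∈ I, ∑ z ∈ I, if |(x : ℝ) - cen| ≤ W ∧ |(z : ℝ) - cen'| ≤ W then 0 else X x * kap x z * F z

/-- **The data of the block, by profiles.** `L`, `R` arrive at the outer row, `F` = future at the outer row behind the ball; `yl`, `yr`,
`yp` standard points. -/
structure DP31 (I : Finset ℤ) (cen cen' W : ℝ) (kap : ℤ → ℤ → ℝ) (yl yr yp : ℤ) (g q gf : ℝ) (L R F : ℤ → ℝ) : Prop where
  Ll : 0 < L yl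
  Lr : 0 < L yr
  Rl : 0 < R yl
  Rr : 0 < R yr
  Fp : 0 < F yp
  win : g ≤ Real.log (L yl) + Real.log (R yr) - Real.log (L yr) - Real.log (R yl)
  tL : ∀ x x' : ℤ, |(x : ℝ) - cen| ≤ W → |(x' : ℝ) - cen| ≤ W → L x ≤ Real.exp q * L x'
  tR : ∀ x x' : ℤ, |(x : ℝ) - cen| ≤ W → |(x' : ℝ) - cen| ≤ W → R x ≤ Real.exp q * R x'
  tF : ∀ x x' : ℤ, |(x : ℝ) - cen'| ≤ W → |(x' : ℝ) - cen'| ≤ W → F x ≤ Real.exp q * F x'
  farL : fsum I cen cen' W kap L F ≤ Real.exp (-gf) * (L yl * F yp)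
  farR : fsum I cen cen' W kap R F ≤ Real.exp (-gf) * (R yr * F yp)

variable {I : Finset ℤ} {X F : ℤ → ℝ} {k kap : ℤ → ℤ → ℝ}

/-- Far starts: the envelope against the old kernel. -/
theorem far_x {Fx : Finset ℤ} (hFx : Fx ⊆ I) {d : ℤ → ℤ → ℝ} {cK σ : ℝ} {u r a : ℤ → ℝ} (hX : ∀ x ∈ I, 0 ≤ X x)
    (hF : ∀ z ∈ I, 0 ≤ F z) (hk : ∀ x ∈ I, ∀ z ∈ I, 0 ≤ k x z) (hd : ∀ x z, 0 ≤ d x z)
    (hkap : ∀ x ∈ Fx, ∀ z ∈ I, kap x z ≤ Real.exp (u x - cK * d x z))
    (hloc : ∀ x ∈ Fx, ∃ z₀ ∈ I, Real.exp (-a x) ≤ k x z₀ ∧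
      ∀ z ∈ I, 0 < kap x z → F z ≤ Real.exp (r x + σ * d x z) * F z₀) (hσ : σ ≤ cK) :
    ∑ x ∈ Fx, ∑ z ∈ I, X x * kap x z * F z ≤
      I.card * ∑ x ∈ Fx, Real.exp (u x + r x + a x) * (X x * ∑ z ∈ I, k x z * F z) := by
  rw [mul_sum]
  refine sum_le_sum fun x hx => ?_
  obtain ⟨z₀, hz₀, h1, h2⟩ := hloc x hx
  have hXx := hX x (hFx hx)
  have hF0 := hF z₀ hz₀
  have h3 : F z₀ ≤ Real.exp (a x) * ∑ z ∈ I, k x z * F z := by
    have h4 : Real.exp (-a x) * F z₀ ≤ ∑ z ∈ I, k x z * F z :=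
      (mul_le_mul_of_nonneg_right h1 hF0).trans
        (single_le_sum (f := fun z => k x z * F z) (fun z hz => mul_nonneg (hk x (hFx hx) z hz) (hF z hz)) hz₀)
    have h5 := mul_le_mul_of_nonneg_left h4 (Real.exp_pos (a x)).le
    rw [← mul_assoc, ← Real.exp_add, add_neg_cancel, Real.exp_zero, one_mul] at h5
    exact h5
  have h4 : ∀ z ∈ I, X x * kap x z * F z ≤ X x * (Real.exp (u x + r x) * F z₀) := by
    intro z hz
    rw [mul_assoc]
    refine mul_le_mul_of_nonneg_left ?_ hXx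
    rcases le_or_gt (kap x z) 0 with hneg | hpos
    · exact (mul_nonpos_of_nonpos_of_nonneg hneg (hF z hz)).trans (mul_nonneg (Real.exp_pos _).le hF0)
    calc kap x z * F z ≤ Real.exp (u x - cK * d x z) * F z := mul_le_mul_of_nonneg_right (hkap x hx z hz) (hF z hz)
      _ ≤ Real.exp (u x - cK * d x z) * (Real.exp (r x + σ * d x z) * F z₀) :=
        mul_le_mul_of_nonneg_left (h2 z hz hpos) (Real.exp_pos _).le
      _ = Real.exp (u x - cK * d x z + (r x + σ * d x z)) * F z₀ := by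
        rw [Real.exp_add (u x - cK * d x z) (r x + σ * d x z), mul_assoc]
      _ ≤ Real.exp (u x + r x) * F z₀ := by
        refine mul_le_mul_of_nonneg_right (Real.exp_le_exp.2 ?_) hF0
        have := mul_le_mul_of_nonneg_right hσ (hd x z)
        linarith
  calc ∑ z ∈ I, X x * kap x z * F z ≤ ∑ _z ∈ I, X x * (Real.exp (u x + r x) * F z₀) := sum_le_sum h4
    _ = I.card * (X x * (Real.exp (u x + r x) * F z₀)) := by rw [sum_const, nsmul_eq_mul]
    _ ≤ I.card * (X x * (Real.exp (u x + r x) * (Real.exp (a x) * ∑ z ∈ I, k x z * F z))) := by gcongr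
    _ = I.card * (Real.exp (u x + r x + a x) * (X x * ∑ z ∈ I, k x z * F z)) := by
        rw [Real.exp_add (u x + r x) (a x)]
        ring

/-- Far starts in shells. -/
theorem shell_sum {Fx : Finset ℤ} {sh : ℤ → ℕ} {J : ℕ} {b : ℤ → ℝ} {B κ : ℕ → ℝ} {m : ℤ → ℝ} {Z g₁ : ℝ} (hZ : 0 ≤ Z)
    (hm : ∀ x ∈ Fx, 0 ≤ m x) (hsh : ∀ x ∈ Fx, sh x < J) (hb : ∀ x ∈ Fx, b x ≤ B (sh x))
    (hκ : ∀ j < J, ∑ x ∈ Fx with sh x = j, m x ≤ Real.exp (-κ j) * Z) (hB : ∀ j < J, B j + g₁ ≤ κ j) :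
    ∑ x ∈ Fx, Real.exp (b x) * m x ≤ J * (Real.exp (-g₁) * Z) := by
  have e1 : ∑ x ∈ Fx, Real.exp (b x) * m x = ∑ j ∈ range J, ∑ x ∈ Fx with sh x = j, Real.exp (b x) * m x :=
    (sum_fiberwise_of_maps_to (fun x hx => mem_range.2 (hsh x hx)) _).symm
  rw [e1]
  have h1 : ∀ j ∈ range J, ∑ x ∈ Fx with sh x = j, Real.exp (b x) * m x ≤ Real.exp (-g₁) * Z := by
    intro j hj
    have hj' := mem_range.1 hj
    calc ∑ x ∈ Fx with sh x = j, Real.exp (b x) * m x ≤ ∑ x ∈ Fx with sh x = j, Real.exp (B j) * m x := by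
          refine sum_le_sum fun x hx => ?_
          rw [mem_filter] at hx
          refine mul_le_mul_of_nonneg_right (Real.exp_le_exp.2 ?_) (hm x hx.1)
          rw [← hx.2]
          exact hb x hx.1
      _ = Real.exp (B j) * ∑ x ∈ Fx with sh x = j, m x := by rw [mul_sum]
      _ ≤ Real.exp (B j) * (Real.exp (-κ j) * Z) := mul_le_mul_of_nonneg_left (hκ j hj') (Real.exp_pos _).le
      _ = Real.exp (B j + -κ j) * Z := by rw [Real.exp_add, mul_assoc]
      _ ≤ Real.exp (-g₁) * Z := mul_le_mul_of_nonneg_right (Real.exp_le_exp.2 (by linarith [hB j hj'])) hZ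
  calc ∑ j ∈ range J, ∑ x ∈ Fx with sh x = j, Real.exp (b x) * m x ≤ ∑ _j ∈ range J, Real.exp (-g₁) * Z := sum_le_sum h1
    _ = J * (Real.exp (-g₁) * Z) := by rw [sum_const, card_range, nsmul_eq_mul]

/-- **The joint far mass of one group.** `sh x < J` shells of the far starts, `sh' z` of the far ends; `u`, `a`, `r` = levels at the
place: envelope, lower bound of the old kernel, local regularity; `B`, `B'` their sums, `κ`, `κ'` the prices of the far alternatives. -/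
theorem far31 {cen cen' W : ℝ} {d : ℤ → ℤ → ℝ} {cK σ : ℝ} {u r a u' r' a' : ℤ → ℝ} {sh sh' : ℤ → ℕ} {J : ℕ} {B B' κ κ' : ℕ → ℝ}
    {y yp : ℤ} {q u₀ g₁ gf : ℝ} (hX : ∀ x ∈ I, 0 ≤ X x) (hF : ∀ z ∈ I, 0 ≤ F z) (hk : ∀ x ∈ I, ∀ z ∈ I, 0 ≤ k x z)
    (hkap0 : ∀ x ∈ I, ∀ z ∈ I, 0 ≤ kap x z) (hd : ∀ x z, 0 ≤ d x z) (hσ : σ ≤ cK)
    -- the envelope, seen from the start and from the end
    (hkx : ∀ x ∈ I, W < |(x : ℝ) - cen| → ∀ z ∈ I, kap x z ≤ Real.exp (u x - cK * d x z))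
    (hkz : ∀ z ∈ I, W < |(z : ℝ) - cen'| → ∀ x ∈ I, kap x z ≤ Real.exp (u' z - cK * d x z))
    -- lower bound of the old kernel and local regularity of the profiles at the far places
    (hlx : ∀ x ∈ I, W < |(x : ℝ) - cen| → ∃ z₀ ∈ I, Real.exp (-a x) ≤ k x z₀ ∧
      ∀ z ∈ I, 0 < kap x z → F z ≤ Real.exp (r x + σ * d x z) * F z₀)
    (hlz : ∀ z ∈ I, W < |(z : ℝ) - cen'| → ∃ x₀ ∈ I, Real.exp (-a' z) ≤ k x₀ z ∧
      ∀ x ∈ I, 0 < kap x z → X x ≤ Real.exp (r' z + σ * d x z) * X x₀)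
    -- the far alternatives of the old content
    (hsh : ∀ x ∈ I, W < |(x : ℝ) - cen| → sh x < J ∧ u x + r x + a x ≤ B (sh x))
    (hsh' : ∀ z ∈ I, W < |(z : ℝ) - cen'| → sh' z < J ∧ u' z + r' z + a' z ≤ B' (sh' z))
    (hx : ∀ j < J, ∑ x ∈ I.filter (fun x : ℤ => W < |(x : ℝ) - cen| ∧ sh x = j), X x * ∑ z ∈ I, k x z * F z ≤
      Real.exp (-κ j) * ∑ x ∈ I, X x * ∑ z ∈ I, k x z * F z)
    (hz : ∀ j < J, ∑ z ∈ I.filter (fun z : ℤ => W < |(z : ℝ) - cen'| ∧ sh' z = j), F z * ∑ x ∈ I, k x z * X x ≤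
      Real.exp (-κ' j) * ∑ x ∈ I, X x * ∑ z ∈ I, k x z * F z)
    (hB : ∀ j < J, B j + g₁ ≤ κ j) (hB' : ∀ j < J, B' j + g₁ ≤ κ' j) (hB0 : ∀ j < J, 0 ≤ B j) (hB0' : ∀ j < J, 0 ≤ B' j)
    -- the window
    (hXw : ∀ x ∈ I, |(x : ℝ) - cen| ≤ W → X x ≤ Real.exp q * X y)
    (hFw : ∀ z ∈ I, |(z : ℝ) - cen'| ≤ W → F z ≤ Real.exp q * F yp)
    (hkw : ∀ x ∈ I, ∀ z ∈ I, |(x : ℝ) - cen| ≤ W → |(z : ℝ) - cen'| ≤ W → k x z ≤ Real.exp u₀)
    (hXy : 0 ≤ X y) (hFy : 0 ≤ F yp)
    -- numbers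
    (hJ4 : 4 * (J : ℝ) ≤ Real.exp g₁)
    (hnum : 4 * (I.card : ℝ) * J * (I.card : ℝ) ^ 2 * Real.exp (2 * q + u₀ + gf) ≤ Real.exp g₁) :
    fsum I cen cen' W kap X F ≤ Real.exp (-gf) * (X y * F yp) := by
  classical
  set H : ℤ → ℝ := fun x => ∑ z ∈ I, k x z * F z with hH
  set Z : ℝ := ∑ x ∈ I, X x * H x with hZ
  set Fx : Finset ℤ := I.filter fun x : ℤ => W < |(x : ℝ) - cen| with hFx
  set Fz : Finset ℤ := I.filter fun z : ℤ => W < |(z : ℝ) - cen'| with hFz
  have hFxI : Fx ⊆ I := filter_subset _ _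
  have hFzI : Fz ⊆ I := filter_subset _ _
  have hH0 : ∀ x ∈ I, 0 ≤ H x := fun x hx' => sum_nonneg fun z hz' => mul_nonneg (hk x hx' z hz') (hF z hz')
  have hm0 : ∀ x ∈ I, 0 ≤ X x * H x := fun x hx' => mul_nonneg (hX x hx') (hH0 x hx')
  have hA0 : ∀ z ∈ I, 0 ≤ ∑ x ∈ I, k x z * X x := fun z hz' =>
    sum_nonneg fun x hx' => mul_nonneg (hk x hx' z hz') (hX x hx')
  have hn0 : ∀ z ∈ I, 0 ≤ F z * ∑ x ∈ I, k x z * X x := fun z hz' => mul_nonneg (hF z hz') (hA0 z hz')
  have hZ0 : 0 ≤ Z := sum_nonneg hm0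
  -- far starts, far ends: the weighted sums
  have s1 : ∑ x ∈ Fx, Real.exp (u x + r x + a x) * (X x * H x) ≤ J * (Real.exp (-g₁) * Z) := by
    refine shell_sum (sh := sh) (B := B) (κ := κ) hZ0 (fun x hx' => hm0 x (hFxI hx')) (fun x hx' => ?_) (fun x hx' => ?_)
      (fun j hj => ?_) hB
    · rw [hFx, mem_filter] at hx'
      exact (hsh x hx'.1 hx'.2).1
    · rw [hFx, mem_filter] at hx'
      exact (hsh x hx'.1 hx'.2).2
    · rw [hFx, filter_filter]
      exact hx j hj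
  have s2 : ∑ z ∈ Fz, Real.exp (u' z + r' z + a' z) * (F z * ∑ x ∈ I, k x z * X x) ≤ J * (Real.exp (-g₁) * Z) := by
    refine shell_sum (sh := sh') (B := B') (κ := κ') hZ0 (fun z hz' => hn0 z (hFzI hz')) (fun z hz' => ?_) (fun z hz' => ?_)
      (fun j hj => ?_) hB'
    · rw [hFz, mem_filter] at hz'
      exact (hsh' z hz'.1 hz'.2).1
    · rw [hFz, mem_filter] at hz'
      exact (hsh' z hz'.1 hz'.2).2
    · rw [hFz, filter_filter]
      exact hz j hj
  -- the two halves of the joint far mass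
  have f1 : ∑ x ∈ Fx, ∑ z ∈ I, X x * kap x z * F z ≤ I.card * (J * (Real.exp (-g₁) * Z)) := by
    refine (far_x (k := k) hFxI hX hF hk hd (fun x hx' z hz' => ?_) (fun x hx' => ?_) hσ).trans
      (mul_le_mul_of_nonneg_left s1 (Nat.cast_nonneg _))
    · rw [hFx, mem_filter] at hx'
      exact hkx x hx'.1 hx'.2 z hz'
    · rw [hFx, mem_filter] at hx'
      exact hlx x hx'.1 hx'.2
  have f2 : ∑ z ∈ Fz, ∑ x ∈ I, F z * kap x z * X x ≤ I.card * (J * (Real.exp (-g₁) * Z)) := by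
    refine (far_x (X := F) (F := X) (k := fun z x => k x z) (kap := fun z x => kap x z) (d := fun z x => d x z) hFzI hF hX
      (fun z hz' x hx' => hk x hx' z hz') (fun z x => hd x z) (fun z hz' x hx' => ?_) (fun z hz' => ?_) hσ).trans
      (mul_le_mul_of_nonneg_left s2 (Nat.cast_nonneg _))
    · rw [hFz, mem_filter] at hz'
      exact hkz z hz'.1 hz'.2 x hx'
    · rw [hFz, mem_filter] at hz'
      exact hlz z hz'.1 hz'.2
  have hterm : ∀ x ∈ I, ∀ z ∈ I, 0 ≤ X x * kap x z * F z := fun x hx' z hz' =>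
    mul_nonneg (mul_nonneg (hX x hx') (hkap0 x hx' z hz')) (hF z hz')
  have f3 : fsum I cen cen' W kap X F ≤ ∑ x ∈ Fx, ∑ z ∈ I, X x * kap x z * F z + ∑ z ∈ Fz, ∑ x ∈ I, F z * kap x z * X x := by
    have e1 : ∑ x ∈ Fx, ∑ z ∈ I, X x * kap x z * F z = ∑ x ∈ I, ∑ z ∈ I, if W < |(x : ℝ) - cen| then X x * kap x z * F z else 0 := by
      rw [hFx, sum_filter]
      refine sum_congr rfl fun x _ => ?_
      split_ifs <;> simp
    have e2 : ∑ z ∈ Fz, ∑ x ∈ I, F z * kap x z * X x = ∑ x ∈ I, ∑ z ∈ I, if W < |(z : ℝ) - cen'| then X x * kap x z * F z else 0 := by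
      rw [hFz, sum_filter, sum_comm]
      refine sum_congr rfl fun z _ => ?_
      split_ifs
      · exact sum_congr rfl fun x _ => by ring
      · simp
    rw [e1, e2, ← sum_add_distrib]
    unfold fsum
    refine sum_le_sum fun x hx' => ?_
    rw [← sum_add_distrib]
    refine sum_le_sum fun z hz' => ?_
    have ht := hterm x hx' z hz'
    by_cases c1 : W < |(x : ℝ) - cen|
    · rw [if_neg (fun h => absurd h.1 (not_le.2 c1)), if_pos c1]
      split_ifs <;> linarith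
    · by_cases c2 : W < |(z : ℝ) - cen'|
      · rw [if_neg (fun h => absurd h.2 (not_le.2 c2)), if_neg c1, if_pos c2]
        linarith
      · rw [if_pos ⟨not_lt.1 c1, not_lt.1 c2⟩, if_neg c1, if_neg c2]
        linarith
  -- the total mass is central
  have g1 : ∑ x ∈ Fx, X x * H x ≤ J * (Real.exp (-g₁) * Z) := by
    refine le_trans (sum_le_sum fun x hx' => ?_) (shell_sum (b := fun _ => 0) (sh := sh) (B := fun _ => 0) (κ := κ) hZ0
      (fun x hx' => hm0 x (hFxI hx')) (fun x hx' => ?_) (fun x hx' => le_rfl) (fun j hj => ?_)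
      (fun j hj => by linarith [hB j hj, hB0 j hj]))
    · rw [Real.exp_zero, one_mul]
    · rw [hFx, mem_filter] at hx'
      exact (hsh x hx'.1 hx'.2).1
    · rw [hFx, filter_filter]
      exact hx j hj
  have g2 : ∑ z ∈ Fz, F z * ∑ x ∈ I, k x z * X x ≤ J * (Real.exp (-g₁) * Z) := by
    refine le_trans (sum_le_sum fun z hz' => ?_) (shell_sum (b := fun _ => 0) (sh := sh') (B := fun _ => 0) (κ := κ') hZ0
      (fun z hz' => hn0 z (hFzI hz')) (fun z hz' => ?_) (fun z hz' => le_rfl) (fun j hj => ?_)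
      (fun j hj => by linarith [hB' j hj, hB0' j hj]))
    · rw [Real.exp_zero, one_mul]
    · rw [hFz, mem_filter] at hz'
      exact (hsh' z hz'.1 hz'.2).1
    · rw [hFz, filter_filter]
      exact hz j hj
  have hJZ : J * (Real.exp (-g₁) * Z) ≤ Z / 4 := by
    have h1 : Real.exp (-g₁) * Real.exp g₁ = 1 := by rw [← Real.exp_add, neg_add_cancel, Real.exp_zero]
    have h2 := mul_le_mul_of_nonneg_left hJ4 (mul_nonneg (Real.exp_pos (-g₁)).le hZ0)
    have h3 : Real.exp (-g₁) * Z * Real.exp g₁ = Z := by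
      calc Real.exp (-g₁) * Z * Real.exp g₁ = Real.exp (-g₁) * Real.exp g₁ * Z := by ring
        _ = Z := by rw [h1, one_mul]
    rw [h3] at h2
    linarith
  have hnear : Z ≤ 2 * ((I.card : ℝ) ^ 2 * Real.exp (2 * q + u₀) * (X y * F yp)) := by
    have e0 : Z = ∑ x ∈ I, ∑ z ∈ I, X x * (k x z * F z) := by
      rw [hZ]
      exact sum_congr rfl fun x _ => mul_sum _ _ _
    have hpt : ∀ x ∈ I, ∀ z ∈ I, X x * (k x z * F z) ≤ Real.exp (2 * q + u₀) * (X y * F yp) +
        ((if W < |(x : ℝ) - cen| then X x * (k x z * F z) else 0) + if W < |(z : ℝ) - cen'| then F z * (k x z * X x) else 0) := by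
      intro x hx' z hz'
      have t0 : 0 ≤ X x * (k x z * F z) := mul_nonneg (hX x hx') (mul_nonneg (hk x hx' z hz') (hF z hz'))
      have t1 : 0 ≤ Real.exp (2 * q + u₀) * (X y * F yp) := mul_nonneg (Real.exp_pos _).le (mul_nonneg hXy hFy)
      by_cases c1 : W < |(x : ℝ) - cen|
      · rw [if_pos c1]
        split_ifs with c2
        · have : 0 ≤ F z * (k x z * X x) := mul_nonneg (hF z hz') (mul_nonneg (hk x hx' z hz') (hX x hx'))
          linarith
        · linarith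
      · rw [if_neg c1]
        by_cases c2 : W < |(z : ℝ) - cen'|
        · rw [if_pos c2]
          have e : F z * (k x z * X x) = X x * (k x z * F z) := by ring
          rw [e]
          linarith
        · rw [if_neg c2]
          have n1 := hXw x hx' (not_lt.1 c1)
          have n2 := hFw z hz' (not_lt.1 c2)
          have n3 := hkw x hx' z hz' (not_lt.1 c1) (not_lt.1 c2)
          have n4 : X x * (k x z * F z) ≤ (Real.exp q * X y) * (Real.exp u₀ * (Real.exp q * F yp)) :=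
            mul_le_mul n1 (mul_le_mul n3 n2 (hF z hz') (Real.exp_pos _).le) (mul_nonneg (hk x hx' z hz') (hF z hz'))
              (mul_nonneg (Real.exp_pos _).le hXy)
          have n5 : (Real.exp q * X y) * (Real.exp u₀ * (Real.exp q * F yp)) = Real.exp (2 * q + u₀) * (X y * F yp) := by
            have : Real.exp (2 * q + u₀) = Real.exp q * Real.exp u₀ * Real.exp q := by
              rw [← Real.exp_add, ← Real.exp_add]
              congr 1
              ring
            rw [this]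
            ring
          linarith
    have e1 : ∑ x ∈ I, ∑ z ∈ I, (if W < |(x : ℝ) - cen| then X x * (k x z * F z) else 0) = ∑ x ∈ Fx, X x * H x := by
      rw [hFx, sum_filter]
      refine sum_congr rfl fun x _ => ?_
      split_ifs
      · exact (mul_sum _ _ _).symm
      · simp
    have e2 : ∑ x ∈ I, ∑ z ∈ I, (if W < |(z : ℝ) - cen'| then F z * (k x z * X x) else 0) =
        ∑ z ∈ Fz, F z * ∑ x ∈ I, k x z * X x := by
      rw [hFz, sum_filter, sum_comm]
      refine sum_congr rfl fun z _ => ?_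
      split_ifs
      · exact (mul_sum _ _ _).symm
      · simp
    have h1 : Z ≤ ∑ x ∈ I, ∑ z ∈ I, (Real.exp (2 * q + u₀) * (X y * F yp) +
        ((if W < |(x : ℝ) - cen| then X x * (k x z * F z) else 0) + if W < |(z : ℝ) - cen'| then F z * (k x z * X x) else 0)) := by
      rw [e0]
      exact sum_le_sum fun x hx' => sum_le_sum fun z hz' => hpt x hx' z hz'
    have h2 : ∑ x ∈ I, ∑ z ∈ I, (Real.exp (2 * q + u₀) * (X y * F yp) +
        ((if W < |(x : ℝ) - cen| then X x * (k x z * F z) else 0) + if W < |(z : ℝ) - cen'| then F z * (k x z * X x) else 0)) =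
        (I.card : ℝ) ^ 2 * Real.exp (2 * q + u₀) * (X y * F yp) + (∑ x ∈ Fx, X x * H x + ∑ z ∈ Fz, F z * ∑ x ∈ I, k x z * X x) := by
      rw [← e1, ← e2]
      simp only [sum_add_distrib, sum_const, nsmul_eq_mul]
      ring
    rw [h2] at h1
    linarith
  -- the end
  have hJ0 : (0 : ℝ) ≤ J := Nat.cast_nonneg _
  have hI0 : (0 : ℝ) ≤ I.card := Nat.cast_nonneg _
  have hXF : 0 ≤ X y * F yp := mul_nonneg hXy hFy
  calc fsum I cen cen' W kap X F ≤ 2 * (I.card * (J * (Real.exp (-g₁) * Z))) := by linarith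
    _ = 2 * I.card * J * Real.exp (-g₁) * Z := by ring
    _ ≤ 2 * I.card * J * Real.exp (-g₁) * (2 * ((I.card : ℝ) ^ 2 * Real.exp (2 * q + u₀) * (X y * F yp))) :=
        mul_le_mul_of_nonneg_left hnear (by positivity)
    _ = Real.exp (-g₁) * (4 * (I.card : ℝ) * J * (I.card : ℝ) ^ 2 * Real.exp (2 * q + u₀)) * (X y * F yp) := by ring
    _ ≤ Real.exp (-gf) * (X y * F yp) := by
        refine mul_le_mul_of_nonneg_right ?_ hXF
        have h1 : 4 * (I.card : ℝ) * J * (I.card : ℝ) ^ 2 * Real.exp (2 * q + u₀) * Real.exp gf ≤ Real.exp g₁ := by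
          rw [mul_assoc, ← Real.exp_add]
          exact hnum
        have h2 : 4 * (I.card : ℝ) * J * (I.card : ℝ) ^ 2 * Real.exp (2 * q + u₀) ≤ Real.exp g₁ * Real.exp (-gf) := by
          have h3 := mul_le_mul_of_nonneg_right h1 (Real.exp_pos (-gf)).le
          rw [mul_assoc _ (Real.exp gf), ← Real.exp_add, add_neg_cancel, Real.exp_zero, mul_one] at h3
          exact h3
        have h4 := mul_le_mul_of_nonneg_left h2 (Real.exp_pos (-g₁)).le
        rw [← mul_assoc (Real.exp (-g₁)) (Real.exp g₁), ← Real.exp_add, neg_add_cancel, Real.exp_zero, one_mul] at h4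
        exact h4

end

end Pool.Agent.W_7d29a1_C1.D31
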