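import Pool.Agent.W_7d29a1_C1.KerP16
import Pool.Agent.W_7d29a1_C1.Asc47

/-!
MP_7d29a1_pr, [C1] attractor route, SHELL: **the outer profiles and the two lanes of P1 give the profiles at the inner seam**
(SeamIn), deterministic. (helper12)

`K` = kernel of the rows of P1 (two lanes `y₁ → m₁`, `y₂ → m₂` with cells `P j → Q j`, everything else in the window is small),
`f` = profile of one replica at the outer row, `F` = the future at the outer row after the ball, `a y = ∑ x, f x * K x y` = profile at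
the seam (`push`), `κ` = the envelope of the rows from the seam to the outer row after the ball, `kapo` = the envelope of the whole ball.

* `tune12`: the mass of the cell `Q₂` against the cell `Q₁` (`Pf12`: the lane `1` dominates: `sup of f on P₂ ≤ U * f y₁`,
  `U * K y₂ m₂ ≤ th * K y₁ m₁`); for the other replica exchange `1` and `2`;
* `off12`: joint with the future, **`∑ (y off the cells), a y * κ y z * F z ≤ e * (f y₁ * F yp)`** (`Ft12`: far pairs from `D`, near pairs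
  from the walls); `offG12`: the same with `G z = ∑ z', K5 z z' * F z'` and `G mp` on the right;
* `starts12`: the starts of the lanes by greedy ascent (`pair47`) and the target of the tuning; `tuned12`: the two dominations;
* `num12_*`: numbers; `fw_push`: the model.
-/

set_option autoImplicit false

namespace Pool.Agent.W_7d29a1_C1.S12

open Finset
open Pool.Agent.W_7d29a1_C1.U16 (ker fw_ker ker_nonneg ker_eq_zero)
open Pool.Agent.W_7d29a1_C1.K91P (fw fw_nonneg)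

noncomputable section

/-- The two lanes and the walls. -/
structure Ln12 (K : ℤ → ℤ → ℝ) (I J W Wy P₁ P₂ Q₁ Q₂ : Finset ℤ) (y₁ y₂ m₁ m₂ : ℤ) (dl ep : ℝ) : Prop where
  K0 : ∀ x y, 0 ≤ K x y
  k1 : 0 < K y₁ m₁
  k2 : 0 < K y₂ m₂
  dl0 : 0 ≤ dl
  ep0 : 0 ≤ ep
  y1 : y₁ ∈ P₁
  y2 : y₂ ∈ P₂
  m1 : m₁ ∈ Q₁
  m2 : m₂ ∈ Q₂
  P1 : P₁ ⊆ W
  P2 : P₂ ⊆ W
  WI : W ⊆ I
  Q1 : Q₁ ⊆ Wy
  Q2 : Q₂ ⊆ Wy
  WJ : Wy ⊆ J
  QQ : Disjoint Q₁ Q₂
  in1 : ∀ x ∈ P₁, ∀ y ∈ Q₁, K x y ≤ dl * K y₁ m₁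
  in2 : ∀ x ∈ P₂, ∀ y ∈ Q₂, K x y ≤ dl * K y₂ m₂
  wall : ∀ x ∈ W, ∀ y ∈ Wy, ¬ (x ∈ P₁ ∧ y ∈ Q₁) → ¬ (x ∈ P₂ ∧ y ∈ Q₂) → K x y ≤ ep

/-- The profile `f` of one replica; the lane `1` dominates. -/
structure Pf12 (K : ℤ → ℤ → ℝ) (I W P₂ Q₂ : Finset ℤ) (y₁ y₂ m₁ m₂ : ℤ) (f : ℤ → ℝ) (q U ef th : ℝ) : Prop where
  f0 : ∀ x, 0 ≤ f x
  q0 : 0 ≤ q
  U0 : 0 ≤ U
  tame : ∀ x ∈ W, f x ≤ q * f y₁
  cell : ∀ x ∈ P₂, f x ≤ U * f y₁
  dom : U * K y₂ m₂ ≤ th * K y₁ m₁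
  fc : ∑ x ∈ I \ W, ∑ y ∈ Q₂, f x * K x y ≤ ef * (f y₁ * K y₁ m₁)

/-- The past and the future of the ball. -/
structure Ft12 (K κ kapo : ℤ → ℤ → ℝ) (I J Z W WZ Q : Finset ℤ) (y₁ yp : ℤ) (f F : ℤ → ℝ) (q qF ef e0 : ℝ) : Prop where
  f0 : ∀ x, 0 ≤ f x
  F0 : ∀ z, 0 ≤ F z
  q0 : 0 ≤ q
  qF0 : 0 ≤ qF
  e00 : 0 ≤ e0
  tame : ∀ x ∈ W, f x ≤ q * f y₁
  tF : ∀ z ∈ WZ, F z ≤ qF * F yp
  comp : ∀ x ∈ I, ∀ z ∈ Z, ∑ y ∈ J \ Q, K x y * κ y z ≤ kapo x z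
  near : ∀ x ∈ W, ∀ z ∈ WZ, ∑ y ∈ J \ Q, K x y * κ y z ≤ e0
  far : ∑ p ∈ (I ×ˢ Z) \ (W ×ˢ WZ), f p.1 * kapo p.1 p.2 * F p.2 ≤ ef * (f y₁ * F yp)

theorem Ln12.symm {K : ℤ → ℤ → ℝ} {I J W Wy P₁ P₂ Q₁ Q₂ : Finset ℤ} {y₁ y₂ m₁ m₂ : ℤ} {dl ep : ℝ}
    (h : Ln12 K I J W Wy P₁ P₂ Q₁ Q₂ y₁ y₂ m₁ m₂ dl ep) : Ln12 K I J W Wy P₂ P₁ Q₂ Q₁ y₂ y₁ m₂ m₁ dl ep where
  K0 := h.K0
  k1 := h.k2
  k2 := h.k1
  dl0 := h.dl0
  ep0 := h.ep0
  y1 := h.y2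
  y2 := h.y1
  m1 := h.m2
  m2 := h.m1
  P1 := h.P2
  P2 := h.P1
  WI := h.WI
  Q1 := h.Q2
  Q2 := h.Q1
  WJ := h.WJ
  QQ := h.QQ.symm
  in1 := h.in2
  in2 := h.in1
  wall := fun x hx y hy h1 h2 => h.wall x hx y hy h2 h1

/-- The profile at the seam. -/
def push (I : Finset ℤ) (K : ℤ → ℤ → ℝ) (f : ℤ → ℝ) (y : ℤ) : ℝ := ∑ x ∈ I, f x * K x y

theorem push_nonneg {I : Finset ℤ} {K : ℤ → ℤ → ℝ} {f : ℤ → ℝ} (hK0 : ∀ x y, 0 ≤ K x y) (hf0 : ∀ x, 0 ≤ f x) (y : ℤ) :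
    0 ≤ push I K f y := sum_nonneg fun x _ => mul_nonneg (hf0 x) (hK0 x y)

variable {K κ kapo : ℤ → ℤ → ℝ} {I J Z W Wy WZ P₁ P₂ Q₁ Q₂ Q : Finset ℤ} {y₁ y₂ m₁ m₂ yp : ℤ} {dl ep q qF U ef e0 th : ℝ}
  {f F : ℤ → ℝ}

/-- The mass through the lane `1`. -/
theorem main_le (h : Ln12 K I J W Wy P₁ P₂ Q₁ Q₂ y₁ y₂ m₁ m₂ dl ep) (hf0 : ∀ x, 0 ≤ f x) :
    f y₁ * K y₁ m₁ ≤ ∑ y ∈ Q₁, push I K f y := by
  refine le_trans ?_ (single_le_sum (f := fun y => push I K f y) (fun y _ => push_nonneg h.K0 hf0 y) h.m1)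
  exact single_le_sum (f := fun x => f x * K x m₁) (fun x _ => mul_nonneg (hf0 x) (h.K0 x m₁)) (h.WI (h.P1 h.y1))

/-- The constant of the tuning. -/
def e2c (W P₂ Q₂ : Finset ℤ) (κ q dl ep ef th : ℝ) : ℝ := P₂.card * Q₂.card * (dl * th) + W.card * Q₂.card * (q * ep) / κ + ef

/-- **THE TUNED PAIR.** -/
theorem tune12 (h : Ln12 K I J W Wy P₁ P₂ Q₁ Q₂ y₁ y₂ m₁ m₂ dl ep) (hf : Pf12 K I W P₂ Q₂ y₁ y₂ m₁ m₂ f q U ef th) :
    ∑ y ∈ Q₂, push I K f y ≤ e2c W P₂ Q₂ (K y₁ m₁) q dl ep ef th * (f y₁ * K y₁ m₁) := by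
  have hk := h.k1
  have hfy := hf.f0 y₁
  have e0 : ∑ y ∈ Q₂, push I K f y = ∑ x ∈ I \ W, ∑ y ∈ Q₂, f x * K x y + ∑ x ∈ W, ∑ y ∈ Q₂, f x * K x y := by
    unfold push
    rw [sum_comm, sum_sdiff h.WI]
  have e1 : ∑ x ∈ W, ∑ y ∈ Q₂, f x * K x y = ∑ x ∈ W \ P₂, ∑ y ∈ Q₂, f x * K x y + ∑ x ∈ P₂, ∑ y ∈ Q₂, f x * K x y :=
    (sum_sdiff h.P2).symm
  have h1 : ∑ x ∈ P₂, ∑ y ∈ Q₂, f x * K x y ≤ P₂.card * Q₂.card * (dl * th) * (f y₁ * K y₁ m₁) := by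
    have h2 : ∑ x ∈ P₂, ∑ y ∈ Q₂, f x * K x y ≤ ∑ x ∈ P₂, ∑ y ∈ Q₂, U * f y₁ * (dl * K y₂ m₂) :=
      sum_le_sum fun x hx => sum_le_sum fun y hy =>
        mul_le_mul (hf.cell x hx) (h.in2 x hx y hy) (h.K0 x y) (mul_nonneg hf.U0 hfy)
    rw [sum_const, sum_const, nsmul_eq_mul, nsmul_eq_mul] at h2
    refine h2.trans ?_
    have h3 := mul_le_mul_of_nonneg_left hf.dom (mul_nonneg (mul_nonneg (mul_nonneg P₂.card.cast_nonneg Q₂.card.cast_nonneg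
      (α := ℝ)) h.dl0) hfy)
    refine le_trans (le_of_eq ?_) (h3.trans (le_of_eq ?_)) <;> ring
  have h4 : ∑ x ∈ W \ P₂, ∑ y ∈ Q₂, f x * K x y ≤ W.card * Q₂.card * (q * ep) * f y₁ := by
    have hB : 0 ≤ q * f y₁ * ep := mul_nonneg (mul_nonneg hf.q0 hfy) h.ep0
    have h2 : ∑ x ∈ W \ P₂, ∑ y ∈ Q₂, f x * K x y ≤ ∑ x ∈ W \ P₂, ∑ y ∈ Q₂, q * f y₁ * ep := by
      refine sum_le_sum fun x hx => sum_le_sum fun y hy => ?_
      rw [mem_sdiff] at hx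
      have hw := h.wall x hx.1 y (h.Q2 hy) (fun h5 => (disjoint_left.1 h.QQ) h5.2 hy) (fun h5 => hx.2 h5.1)
      exact mul_le_mul (hf.tame x hx.1) hw (h.K0 x y) (mul_nonneg hf.q0 hfy)
    refine h2.trans ((sum_le_sum_of_subset_of_nonneg sdiff_subset fun _ _ _ => sum_nonneg fun _ _ => hB).trans ?_)
    rw [sum_const, sum_const, nsmul_eq_mul, nsmul_eq_mul]
    exact le_of_eq (by ring)
  rw [e0, e1]
  have h5 : W.card * Q₂.card * (q * ep) * f y₁ = W.card * Q₂.card * (q * ep) / K y₁ m₁ * (f y₁ * K y₁ m₁) := by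
    field_simp
  unfold e2c
  rw [h5] at h4
  have h6 := hf.fc
  linarith [add_mul (P₂.card * Q₂.card * (dl * th) + W.card * Q₂.card * (q * ep) / K y₁ m₁) ef (f y₁ * K y₁ m₁),
    add_mul (P₂.card * Q₂.card * (dl * th)) (W.card * Q₂.card * (q * ep) / K y₁ m₁) (f y₁ * K y₁ m₁)]

/-- helper83's shape of `(tune)`. -/
theorem tune12' (h : Ln12 K I J W Wy P₁ P₂ Q₁ Q₂ y₁ y₂ m₁ m₂ dl ep) (hf : Pf12 K I W P₂ Q₂ y₁ y₂ m₁ m₂ f q U ef th)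
    {e : ℝ} (he : e2c W P₂ Q₂ (K y₁ m₁) q dl ep ef th ≤ e) (he0 : 0 ≤ e) :
    ∑ y ∈ Q₂, push I K f y ≤ e * ∑ y ∈ Q₁, push I K f y := by
  have h1 := main_le (f := f) h hf.f0
  have h3 : 0 ≤ f y₁ * K y₁ m₁ := mul_nonneg (hf.f0 _) h.k1.le
  exact (tune12 h hf).trans ((mul_le_mul_of_nonneg_right he h3).trans (mul_le_mul_of_nonneg_left h1 he0))

/-! ### Off the cells, joint with the future -/

/-- **OFF THE CELLS.** -/
theorem off12 (hWI : W ⊆ I) (hWZ : WZ ⊆ Z)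
    (hf : Ft12 K κ kapo I J Z W WZ Q y₁ yp f F q qF ef e0) :
    ∑ y ∈ J \ Q, ∑ z ∈ Z, push I K f y * κ y z * F z ≤ (ef + W.card * WZ.card * (q * qF * e0)) * (f y₁ * F yp) := by
  have hfy := hf.f0 y₁
  have hFy := hf.F0 yp
  have e1 : ∑ y ∈ J \ Q, ∑ z ∈ Z, push I K f y * κ y z * F z =
      ∑ p ∈ I ×ˢ Z, f p.1 * (∑ y ∈ J \ Q, K p.1 y * κ y p.2) * F p.2 := by
    have e2 : ∀ y z, push I K f y * κ y z * F z = ∑ x ∈ I, f x * (K x y * κ y z) * F z := by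
      intro y z
      unfold push
      rw [sum_mul, sum_mul]
      exact sum_congr rfl fun x _ => by ring
    calc ∑ y ∈ J \ Q, ∑ z ∈ Z, push I K f y * κ y z * F z = ∑ y ∈ J \ Q, ∑ z ∈ Z, ∑ x ∈ I, f x * (K x y * κ y z) * F z :=
          sum_congr rfl fun y _ => sum_congr rfl fun z _ => e2 y z
      _ = ∑ y ∈ J \ Q, ∑ x ∈ I, ∑ z ∈ Z, f x * (K x y * κ y z) * F z := sum_congr rfl fun y _ => sum_comm
      _ = ∑ x ∈ I, ∑ y ∈ J \ Q, ∑ z ∈ Z, f x * (K x y * κ y z) * F z := sum_comm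
      _ = ∑ x ∈ I, ∑ z ∈ Z, ∑ y ∈ J \ Q, f x * (K x y * κ y z) * F z := sum_congr rfl fun x _ => sum_comm
      _ = ∑ x ∈ I, ∑ z ∈ Z, f x * (∑ y ∈ J \ Q, K x y * κ y z) * F z := by
          refine sum_congr rfl fun x _ => sum_congr rfl fun z _ => ?_
          rw [mul_sum, sum_mul]
      _ = _ := (sum_product I Z (fun p => f p.1 * (∑ y ∈ J \ Q, K p.1 y * κ y p.2) * F p.2)).symm
  have hsub : W ×ˢ WZ ⊆ I ×ˢ Z := product_subset_product hWI hWZ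
  rw [e1, ← sum_sdiff hsub]
  have h1 : ∑ p ∈ (I ×ˢ Z) \ (W ×ˢ WZ), f p.1 * (∑ y ∈ J \ Q, K p.1 y * κ y p.2) * F p.2 ≤ ef * (f y₁ * F yp) := by
    refine le_trans (sum_le_sum fun p hp => ?_) hf.far
    rw [mem_sdiff, mem_product] at hp
    exact mul_le_mul_of_nonneg_right (mul_le_mul_of_nonneg_left (hf.comp p.1 hp.1.1 p.2 hp.1.2) (hf.f0 _)) (hf.F0 _)
  have h2 : ∑ p ∈ W ×ˢ WZ, f p.1 * (∑ y ∈ J \ Q, K p.1 y * κ y p.2) * F p.2 ≤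
      ∑ p ∈ W ×ˢ WZ, q * f y₁ * e0 * (qF * F yp) := by
    refine sum_le_sum fun p hp => ?_
    rw [mem_product] at hp
    have a1 := hf.tame p.1 hp.1
    have a2 := hf.near p.1 hp.1 p.2 hp.2
    have a3 := hf.tF p.2 hp.2
    have a6 : 0 ≤ q * f y₁ := mul_nonneg hf.q0 hfy
    have a7 : f p.1 * (∑ y ∈ J \ Q, K p.1 y * κ y p.2) ≤ q * f y₁ * e0 := by
      refine (mul_le_mul_of_nonneg_left a2 (hf.f0 _)).trans (mul_le_mul_of_nonneg_right a1 hf.e00)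
    exact (mul_le_mul_of_nonneg_right a7 (hf.F0 _)).trans (mul_le_mul_of_nonneg_left a3 (mul_nonneg a6 hf.e00))
  rw [sum_const, card_product, nsmul_eq_mul] at h2
  push_cast at h2
  refine (add_le_add h1 h2).trans (le_of_eq ?_)
  ring

/-- The near pairs from the walls: `km` bounds `κ` from the window of the seam, `ed` the pairs which leave it. -/
theorem near12 (h : Ln12 K I J W Wy P₁ P₂ Q₁ Q₂ y₁ y₂ m₁ m₂ dl ep) {km ed : ℝ} (hκ : ∀ y z, 0 ≤ κ y z)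
    (hkm : ∀ y ∈ Wy, ∀ z ∈ WZ, κ y z ≤ km) (hed : ∀ x ∈ W, ∀ z ∈ WZ, ∑ y ∈ J \ Wy, K x y * κ y z ≤ ed) :
    ∀ x ∈ W, ∀ z ∈ WZ, ∑ y ∈ J \ (Q₁ ∪ Q₂), K x y * κ y z ≤ Wy.card * (ep * km) + ed := by
  intro x hx z hz
  have hsub : J \ (Q₁ ∪ Q₂) ⊆ (J \ Wy) ∪ (Wy \ (Q₁ ∪ Q₂)) := by
    intro y hy
    rw [mem_sdiff] at hy
    rw [mem_union, mem_sdiff, mem_sdiff]
    by_cases h1 : y ∈ Wy
    · exact Or.inr ⟨h1, hy.2⟩
    · exact Or.inl ⟨hy.1, h1⟩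
  have hd : Disjoint (J \ Wy) (Wy \ (Q₁ ∪ Q₂)) := disjoint_left.2 fun y h1 h2 => (mem_sdiff.1 h1).2 (mem_sdiff.1 h2).1
  have hnn : ∀ y, 0 ≤ K x y * κ y z := fun y => mul_nonneg (h.K0 x y) (hκ y z)
  refine (sum_le_sum_of_subset_of_nonneg hsub fun y _ _ => hnn y).trans ?_
  rw [sum_union hd, add_comm]
  have hkm0 : 0 ≤ km := (hκ m₁ z).trans (hkm m₁ (h.Q1 h.m1) z hz)
  refine add_le_add ?_ (hed x hx z hz)
  have h2 : ∑ y ∈ Wy \ (Q₁ ∪ Q₂), K x y * κ y z ≤ ∑ y ∈ Wy \ (Q₁ ∪ Q₂), ep * km := by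
    refine sum_le_sum fun y hy => ?_
    rw [mem_sdiff, mem_union, not_or] at hy
    exact mul_le_mul (h.wall x hx y hy.1 (fun h5 => hy.2.1 h5.2) (fun h5 => hy.2.2 h5.2)) (hkm y hy.1 z hz) (hκ y z) h.ep0
  refine h2.trans ((sum_le_sum_of_subset_of_nonneg sdiff_subset fun _ _ _ => mul_nonneg h.ep0 hkm0).trans ?_)
  rw [sum_const, nsmul_eq_mul]

/-- **OFF THE CELLS, with the future at the second seam**: `G z = ∑ z', K5 z z' * F z'`. -/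
theorem offG12 (h : Ln12 K I J W Wy P₁ P₂ Q₁ Q₂ y₁ y₂ m₁ m₂ dl ep) (hWZ : WZ ⊆ Z) {S : Finset ℤ} {kap K5 : ℤ → ℤ → ℝ}
    {G : ℤ → ℝ} {mp : ℤ} (hf : Ft12 K (fun y z' => ∑ z ∈ S, kap y z * K5 z z') kapo I J Z W WZ (Q₁ ∪ Q₂) y₁ yp f F q qF ef e0)
    (hG : ∀ z ∈ S, G z = ∑ z' ∈ Z, K5 z z' * F z') (hK5 : ∀ z z', 0 ≤ K5 z z') (hmp : mp ∈ S) (hyp : yp ∈ Z) (k5 : 0 < K5 mp yp)
    {e : ℝ} (he0 : 0 ≤ e) (he : ef + W.card * WZ.card * (q * qF * e0) ≤ e * (K y₁ m₁ * K5 mp yp)) :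
    ∑ y ∈ J \ (Q₁ ∪ Q₂), ∑ z ∈ S, push I K f y * (kap y z * G z) ≤ e * ((∑ y ∈ Q₁ ∪ Q₂, push I K f y) * G mp) := by
  have h1 := off12 h.WI hWZ hf
  have e1 : ∑ y ∈ J \ (Q₁ ∪ Q₂), ∑ z ∈ S, push I K f y * (kap y z * G z) =
      ∑ y ∈ J \ (Q₁ ∪ Q₂), ∑ z' ∈ Z, push I K f y * (∑ z ∈ S, kap y z * K5 z z') * F z' := by
    refine sum_congr rfl fun y _ => ?_
    calc ∑ z ∈ S, push I K f y * (kap y z * G z) = ∑ z ∈ S, ∑ z' ∈ Z, push I K f y * (kap y z * K5 z z') * F z' := by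
          refine sum_congr rfl fun z hz => ?_
          rw [hG z hz, mul_sum, mul_sum]
          exact sum_congr rfl fun z' _ => by ring
      _ = ∑ z' ∈ Z, ∑ z ∈ S, push I K f y * (kap y z * K5 z z') * F z' := sum_comm
      _ = _ := sum_congr rfl fun z' _ => by rw [mul_sum, sum_mul]
  rw [e1]
  have hfy := hf.f0 y₁
  have hFy := hf.F0 yp
  have h2 := main_le (f := f) h hf.f0
  have h3 : ∑ y ∈ Q₁, push I K f y ≤ ∑ y ∈ Q₁ ∪ Q₂, push I K f y :=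
    sum_le_sum_of_subset_of_nonneg subset_union_left fun y _ _ => push_nonneg h.K0 hf.f0 y
  have h4 : K5 mp yp * F yp ≤ G mp := by
    rw [hG mp hmp]
    exact single_le_sum (f := fun z' => K5 mp z' * F z') (fun z' _ => mul_nonneg (hK5 _ _) (hf.F0 _)) hyp
  have h5 : f y₁ * K y₁ m₁ * (K5 mp yp * F yp) ≤ (∑ y ∈ Q₁ ∪ Q₂, push I K f y) * G mp :=
    mul_le_mul (h2.trans h3) h4 (mul_nonneg k5.le hFy) (sum_nonneg fun y _ => push_nonneg h.K0 hf.f0 y)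
  calc _ ≤ (ef + W.card * WZ.card * (q * qF * e0)) * (f y₁ * F yp) := h1
    _ ≤ e * (K y₁ m₁ * K5 mp yp) * (f y₁ * F yp) := mul_le_mul_of_nonneg_right he (mul_nonneg hfy hFy)
    _ = e * (f y₁ * K y₁ m₁ * (K5 mp yp * F yp)) := by ring
    _ ≤ _ := mul_le_mul_of_nonneg_left h5 he0

/-- helper83's shape of `(off)`, the weight `ph x = ∑ z, kap x z * G z / G mp`. -/
theorem off83 {a G : ℤ → ℝ} {kap : ℤ → ℤ → ℝ} {S D C : Finset ℤ} {mp : ℤ} {e : ℝ} (hG : 0 < G mp)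
    (h : ∑ y ∈ D, ∑ z ∈ S, a y * (kap y z * G z) ≤ e * ((∑ y ∈ C, a y) * G mp)) :
    ∑ y ∈ D, a y * ((∑ z ∈ S, kap y z * G z) / G mp) ≤ e * ∑ y ∈ C, a y := by
  have e1 : ∑ y ∈ D, a y * ((∑ z ∈ S, kap y z * G z) / G mp) = (∑ y ∈ D, ∑ z ∈ S, a y * (kap y z * G z)) / G mp := by
    rw [sum_div]
    refine sum_congr rfl fun y _ => ?_
    rw [← mul_sum]
    ring
  rw [e1, div_le_iff₀ hG]
  linarith

/-- The starts far away into the cell, from the far envelope of the ball: `κ₀` = lower bound of the envelope from the cell to `yp`. -/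
theorem fc12 (hf : Ft12 K κ kapo I J Z W WZ Q y₁ yp f F q qF ef e0) (hyp : yp ∈ Z)
    (hFp : 0 < F yp) (hk0 : ∀ x ∈ I, ∀ z ∈ Z, 0 ≤ kapo x z) {κ₀ : ℝ} (hκ₀ : 0 < κ₀) (hQ : ∀ x ∈ I, ∀ y ∈ Q₂, K x y * κ₀ ≤ kapo x yp)
    {ef' : ℝ} (he : Q₂.card * ef ≤ ef' * (κ₀ * K y₁ m₁)) :
    ∑ x ∈ I \ W, ∑ y ∈ Q₂, f x * K x y ≤ ef' * (f y₁ * K y₁ m₁) := by
  have hfy := hf.f0 y₁
  have h1 : ∑ x ∈ I \ W, f x * kapo x yp * F yp ≤ ef * (f y₁ * F yp) := by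
    refine le_trans ?_ hf.far
    have h2 : ∑ x ∈ I \ W, f x * kapo x yp * F yp = ∑ p ∈ (I \ W) ×ˢ {yp}, f p.1 * kapo p.1 p.2 * F p.2 := by
      rw [sum_product]
      exact sum_congr rfl fun x _ => by rw [sum_singleton]
    rw [h2]
    refine sum_le_sum_of_subset_of_nonneg ?_ ?_
    · intro p hp
      rw [mem_product, mem_sdiff, mem_singleton] at hp
      rw [mem_sdiff, mem_product, mem_product, hp.2]
      exact ⟨⟨hp.1.1, hyp⟩, fun h3 => hp.1.2 h3.1⟩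
    · intro p hp _
      rw [mem_sdiff, mem_product] at hp
      exact mul_nonneg (mul_nonneg (hf.f0 _) (hk0 _ hp.1.1 _ hp.1.2)) (hf.F0 _)
  have h2 : ∑ x ∈ I \ W, f x * kapo x yp ≤ ef * f y₁ := by
    have h3 : (∑ x ∈ I \ W, f x * kapo x yp) * F yp ≤ ef * f y₁ * F yp := by
      rw [sum_mul]
      linarith
    exact le_of_mul_le_mul_right h3 hFp
  have h3 : κ₀ * ∑ x ∈ I \ W, ∑ y ∈ Q₂, f x * K x y ≤ Q₂.card * (ef * f y₁) := by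
    rw [mul_sum]
    calc ∑ x ∈ I \ W, κ₀ * ∑ y ∈ Q₂, f x * K x y ≤ ∑ x ∈ I \ W, ∑ _y ∈ Q₂, f x * kapo x yp := by
          refine sum_le_sum fun x hx => ?_
          rw [mul_sum]
          refine sum_le_sum fun y hy => ?_
          have h4 := mul_le_mul_of_nonneg_left (hQ x (mem_sdiff.1 hx).1 y hy) (hf.f0 x)
          linarith
      _ = Q₂.card * ∑ x ∈ I \ W, f x * kapo x yp := by
          rw [mul_sum]
          exact sum_congr rfl fun x _ => by rw [sum_const, nsmul_eq_mul]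
      _ ≤ _ := mul_le_mul_of_nonneg_left h2 (by positivity)
  have h4 : κ₀ * ∑ x ∈ I \ W, ∑ y ∈ Q₂, f x * K x y ≤ κ₀ * (ef' * (f y₁ * K y₁ m₁)) := by
    refine h3.trans ?_
    have h5 := mul_le_mul_of_nonneg_right he hfy
    linarith
  exact le_of_mul_le_mul_left h4 hκ₀

/-! ### The model -/

/-- The masses at the row `i + n`. -/
theorem fw_push {w : ℕ → ℤ → ℝ} {p : ℕ → ℝ} {l : ℤ → ℝ} (i n : ℕ) {lo hi y : ℤ} (hy : y ∈ Icc lo hi) :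
    fw w p l (i + n) y = push (Icc (lo - n) hi) (ker w p i n) (fw w p l i) y := by
  rw [fw_ker, push]
  rw [mem_Icc] at hy
  refine sum_subset (Icc_subset_Icc (by omega) hy.2) fun x hx hx' => ?_
  rw [mem_Icc] at hx hx'
  rw [ker_eq_zero i n x y (fun h1 => hx' ⟨by omega, h1.1⟩), mul_zero]

/-! ### The tuning -/

/-- The starts of the lanes and the target of the tuning (`pair47`), all bounded: `osc` on the window. -/
theorem starts12 {fl fr : ℤ → ℝ} {x₁ x₂ z₁ z₂ : ℤ} {N d : ℕ} {ε g q : ℝ} (hN : 1 ≤ N) (W : Finset ℤ)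
    (hW₁ : ∀ x, |x - x₁| ≤ N * d → x ∈ W) (hW₂ : ∀ x, |x - x₂| ≤ N * d → x ∈ W) (hz₁ : z₁ ∈ W) (hz₂ : z₂ ∈ W)
    (pos : ∀ x ∈ W, 0 < fl x ∧ 0 < fr x) (mono : ∀ x y, x ≤ y → fl y * fr x ≤ fl x * fr y)
    (h₁ : x₁ + ((N : ℤ) - 1) * d ≤ z₁) (h₂ : z₂ ≤ x₂ - ((N : ℤ) - 1) * d)
    (hg : g ≤ Real.log (fl z₁) + Real.log (fr z₂) - Real.log (fl z₂) - Real.log (fr z₁))
    (hl : ∀ x ∈ W, ∀ x' ∈ W, Real.log (fl x) ≤ Real.log (fl x') + q) (hr : ∀ x ∈ W, ∀ x' ∈ W, Real.log (fr x) ≤ Real.log (fr x') + q)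
    (hq : q ≤ N * ε) :
    ∃ (a₁ a₂ : ℤ) (u v : ℝ), |a₁ - x₁| ≤ ((N : ℤ) - 1) * d ∧ |a₂ - x₂| ≤ ((N : ℤ) - 1) * d ∧ a₁ ∈ W ∧ a₂ ∈ W ∧
      (∀ x, |x - a₁| ≤ d → x ∈ W) ∧ (∀ x, |x - a₂| ≤ d → x ∈ W) ∧
      (∀ x, |x - a₂| ≤ d → fl x ≤ Real.exp u * fl a₁) ∧ (∀ x, |x - a₁| ≤ d → fr x ≤ Real.exp v * fr a₂) ∧
      u + v ≤ 2 * ε - g ∧ |(u - v) / 2| ≤ q := by
  have hNN : (1 : ℤ) ≤ N := by exact_mod_cast hN
  have hd : (0 : ℤ) ≤ d := by positivity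
  have le1 : ((N : ℤ) - 1) * d ≤ N * d := mul_le_mul_of_nonneg_right (by linarith) hd
  have p1 := pos z₁ hz₁
  have p2 := pos z₂ hz₂
  have hNd : (0 : ℤ) ≤ N * d := by positivity
  have mx₁ : x₁ ∈ W := hW₁ x₁ (by rw [sub_self, abs_zero]; exact hNd)
  have mx₂ : x₂ ∈ W := hW₂ x₂ (by rw [sub_self, abs_zero]; exact hNd)
  have hg' : Real.exp g * (fl z₂ * fr z₁) ≤ fl z₁ * fr z₂ := by
    have h3 : Real.log (Real.exp g * (fl z₂ * fr z₁)) ≤ Real.log (fl z₁ * fr z₂) := by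
      rw [Real.log_mul (Real.exp_pos g).ne' (mul_pos p2.1 p1.2).ne', Real.log_exp, Real.log_mul p2.1.ne' p1.2.ne',
        Real.log_mul p1.1.ne' p2.2.ne']
      linarith
    exact (Real.log_le_log_iff (mul_pos (Real.exp_pos _) (mul_pos p2.1 p1.2)) (mul_pos p1.1 p2.2)).1 h3
  obtain ⟨a₁, a₂, u, v, ha₁, ha₂, hu, hv, huv, eu, ev⟩ := Asc47.pair47 (fl := fl) (fr := fr) (x₁ := x₁) (x₂ := x₂) (y₁ := z₁)
    (y₂ := z₂) (N := N) (d := d) (ε := ε) (g := g) hN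
    (fun x hx => by
      rcases hx with hx | hx
      · exact pos x (hW₁ x hx)
      · exact pos x (hW₂ x hx))
    p1.2 p2.1 p2.2.le mono h₁ h₂ hg'
    (fun x hx => (hr x (hW₁ x hx) x₁ mx₁).trans (by linarith))
    (fun x hx => (hl x (hW₂ x hx) x₂ mx₂).trans (by linarith))
  have w₁ : a₁ ∈ W := hW₁ a₁ (ha₁.trans le1)
  have w₂ : a₂ ∈ W := hW₂ a₂ (ha₂.trans le1)
  have c₁ : ∀ x, |x - a₁| ≤ d → x ∈ W := fun x hx => by
    refine hW₁ x ?_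
    calc |x - x₁| = |(x - a₁) + (a₁ - x₁)| := by ring_nf
      _ ≤ |x - a₁| + |a₁ - x₁| := abs_add_le _ _
      _ ≤ d + ((N : ℤ) - 1) * d := add_le_add hx ha₁
      _ = N * d := by ring
  have c₂ : ∀ x, |x - a₂| ≤ d → x ∈ W := fun x hx => by
    refine hW₂ x ?_
    calc |x - x₂| = |(x - a₂) + (a₂ - x₂)| := by ring_nf
      _ ≤ |x - a₂| + |a₂ - x₂| := abs_add_le _ _
      _ ≤ d + ((N : ℤ) - 1) * d := add_le_add hx ha₂
      _ = N * d := by ring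
  refine ⟨a₁, a₂, u, v, ha₁, ha₂, w₁, w₂, c₁, c₂, hu, hv, huv, ?_⟩
  rw [eu, ev, abs_le]
  have t1 := hl a₁ w₁ a₂ w₂
  have t2 := hl a₂ w₂ a₁ w₁
  have t3 := hr a₁ w₁ a₂ w₂
  have t4 := hr a₂ w₂ a₁ w₁
  constructor <;> linarith

/-- The two dominations from the tuned difference: `κ1`, `κ2` the levels of the lanes. -/
theorem tuned12 {u v κ1 κ2 pr g ε : ℝ} (hκ1 : 0 < κ1) (hκ2 : 0 < κ2) (huv : u + v ≤ 2 * ε - g)
    (ht : |Real.log κ1 - Real.log κ2 - (u - v) / 2| ≤ pr) :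
    Real.exp u * κ2 ≤ Real.exp (pr + ε - g / 2) * κ1 ∧ Real.exp v * κ1 ≤ Real.exp (pr + ε - g / 2) * κ2 := by
  rw [abs_le] at ht
  constructor
  · have h1 : Real.log (Real.exp u * κ2) ≤ Real.log (Real.exp (pr + ε - g / 2) * κ1) := by
      rw [Real.log_mul (Real.exp_pos _).ne' hκ2.ne', Real.log_exp, Real.log_mul (Real.exp_pos _).ne' hκ1.ne', Real.log_exp]
      linarith [ht.1, ht.2]
    exact (Real.log_le_log_iff (mul_pos (Real.exp_pos _) hκ2) (mul_pos (Real.exp_pos _) hκ1)).1 h1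
  · have h1 : Real.log (Real.exp v * κ1) ≤ Real.log (Real.exp (pr + ε - g / 2) * κ2) := by
      rw [Real.log_mul (Real.exp_pos _).ne' hκ1.ne', Real.log_exp, Real.log_mul (Real.exp_pos _).ne' hκ2.ne', Real.log_exp]
      linarith [ht.1, ht.2]
    exact (Real.log_le_log_iff (mul_pos (Real.exp_pos _) hκ1) (mul_pos (Real.exp_pos _) hκ2)).1 h1

/-! ### Numbers -/

theorem two_exp {E g : ℝ} (hE : 1 ≤ E) : Real.exp (-((g + 1) * E)) + Real.exp (-((g + 1) * E)) ≤ Real.exp (-(g * E)) := by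
  have h4 : Real.exp (-(g * E)) = Real.exp E * Real.exp (-((g + 1) * E)) := by
    rw [← Real.exp_add]
    congr 1
    ring
  rw [h4]
  have h5 : 2 ≤ Real.exp E := by linarith [Real.add_one_le_exp E]
  have h6 := mul_le_mul_of_nonneg_right h5 (Real.exp_nonneg (-((g + 1) * E)))
  linarith

/-- The constant of `(off)`: `σ`: cardinals, `qq`: oscillations of the window, `b`: bound of the envelope in the window, `G`: walls,
`GG`: exits of the window of the seam, `gf`: far pairs. -/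
theorem num12_off {κ1 κ5 E σ qq b G GG gf g km ed : ℝ} (hE : 1 ≤ E) (hκ1 : 1 ≤ κ1) (hκ5 : 1 ≤ κ5) (hW : (W.card : ℝ) ≤ Real.exp (σ * E))
    (hWy : (Wy.card : ℝ) ≤ Real.exp (σ * E)) (hWZ : (WZ.card : ℝ) ≤ Real.exp (σ * E)) (hq0 : 0 ≤ q) (hq : q ≤ Real.exp (qq * E))
    (hqF0 : 0 ≤ qF) (hqF : qF ≤ Real.exp (qq * E)) (hm0 : 0 ≤ km) (hkm : km ≤ Real.exp (b * E)) (hed0 : 0 ≤ ed)
    (hed : ed ≤ Real.exp (-(GG * E))) (hef : ef ≤ Real.exp (-(gf * E))) (h1 : g + 1 ≤ gf) (h2 : 2 * σ + 2 * qq + g + 2 ≤ GG)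
    (h3 : 3 * σ + 2 * qq + b + g + 2 ≤ G) :
    ef + W.card * WZ.card * (q * qF * (Wy.card * (Real.exp (-(G * E)) * km) + ed)) ≤ Real.exp (-(g * E)) * (κ1 * κ5) := by
  have hE0 : 0 ≤ E := by linarith
  have a1 : (Wy.card : ℝ) * (Real.exp (-(G * E)) * km) ≤ Real.exp (σ * E) * (Real.exp (-(G * E)) * Real.exp (b * E)) :=
    mul_le_mul hWy (mul_le_mul_of_nonneg_left hkm (Real.exp_nonneg _)) (mul_nonneg (Real.exp_nonneg _) hm0) (Real.exp_nonneg _)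
  have a2 : Real.exp (σ * E) * (Real.exp (-(G * E)) * Real.exp (b * E)) ≤ Real.exp (-((2 * σ + 2 * qq + g + 2) * E)) := by
    rw [← Real.exp_add, ← Real.exp_add]
    refine Real.exp_le_exp.2 ?_
    have := mul_le_mul_of_nonneg_right h3 hE0
    linarith
  have a3 : ed ≤ Real.exp (-((2 * σ + 2 * qq + g + 2) * E)) := by
    refine hed.trans (Real.exp_le_exp.2 ?_)
    have := mul_le_mul_of_nonneg_right h2 hE0
    linarith
  have a4 : (Wy.card : ℝ) * (Real.exp (-(G * E)) * km) + ed ≤ Real.exp (-((2 * σ + 2 * qq + g + 1) * E)) := by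
    have h5 := two_exp (g := 2 * σ + 2 * qq + g + 1) hE
    have h6 : 2 * σ + 2 * qq + g + 1 + 1 = 2 * σ + 2 * qq + g + 2 := by ring
    rw [h6] at h5
    linarith
  have a5 : 0 ≤ (Wy.card : ℝ) * (Real.exp (-(G * E)) * km) + ed :=
    add_nonneg (mul_nonneg (Nat.cast_nonneg _) (mul_nonneg (Real.exp_nonneg _) hm0)) hed0
  have a6 : (W.card : ℝ) * WZ.card * (q * qF * (Wy.card * (Real.exp (-(G * E)) * km) + ed)) ≤
      Real.exp (σ * E) * Real.exp (σ * E) * (Real.exp (qq * E) * Real.exp (qq * E) * Real.exp (-((2 * σ + 2 * qq + g + 1) * E))) :=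
    mul_le_mul (mul_le_mul hW hWZ (Nat.cast_nonneg _) (Real.exp_nonneg _))
      (mul_le_mul (mul_le_mul hq hqF hqF0 (Real.exp_nonneg _)) a4 a5 (by positivity)) (mul_nonneg (mul_nonneg hq0 hqF0) a5)
      (by positivity)
  have a7 : Real.exp (σ * E) * Real.exp (σ * E) * (Real.exp (qq * E) * Real.exp (qq * E) *
      Real.exp (-((2 * σ + 2 * qq + g + 1) * E))) = Real.exp (-((g + 1) * E)) := by
    rw [← Real.exp_add, ← Real.exp_add, ← Real.exp_add, ← Real.exp_add]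
    congr 1
    ring
  have a8 : ef ≤ Real.exp (-((g + 1) * E)) := by
    refine hef.trans (Real.exp_le_exp.2 ?_)
    have := mul_le_mul_of_nonneg_right h1 hE0
    linarith
  have a9 := two_exp (g := g) hE
  have a10 : Real.exp (-(g * E)) * 1 ≤ Real.exp (-(g * E)) * (κ1 * κ5) :=
    mul_le_mul_of_nonneg_left (by nlinarith) (Real.exp_nonneg _)
  rw [a7] at a6
  linarith

/-- The constant of `(tune)`: `σ'`: cardinals of the cells, `x`: the level of the cells, `v`: the margin. -/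
theorem num12_tune {κ1 E σ σ' qq G v x : ℝ} (hκ : 1 ≤ κ1) (hW : (W.card : ℝ) ≤ Real.exp (σ * E))
    (hP : (P₂.card : ℝ) ≤ Real.exp (σ' * E)) (hQ : (Q₂.card : ℝ) ≤ Real.exp (σ' * E))
    (hq0 : 0 ≤ q) (hq : q ≤ Real.exp (qq * E)) (hdl0 : 0 ≤ dl) (hdl : dl ≤ Real.exp (x * E))
    (hth0 : 0 ≤ th) (hth : th ≤ Real.exp (-((v + x + 2 * σ') * E) - 2))
    (hef : ef ≤ Real.exp (-(v * E) - 2)) (hG : (σ + σ' + qq + v) * E + 2 ≤ G * E) :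
    e2c W P₂ Q₂ κ1 q dl (Real.exp (-(G * E))) ef th ≤ Real.exp (-(v * E)) := by
  unfold e2c
  have h1 : (W.card : ℝ) * Q₂.card * (q * Real.exp (-(G * E))) / κ1 ≤ Real.exp (-(v * E) - 2) := by
    refine (div_le_self (by positivity) hκ).trans ?_
    refine (mul_le_mul (mul_le_mul hW hQ (by positivity) (Real.exp_nonneg _))
      (mul_le_mul_of_nonneg_right hq (Real.exp_nonneg _)) (by positivity) (by positivity)).trans ?_
    rw [← Real.exp_add, ← Real.exp_add, ← Real.exp_add]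
    refine Real.exp_le_exp.2 ?_
    linarith
  have h2 : (P₂.card : ℝ) * Q₂.card * (dl * th) ≤ Real.exp (-(v * E) - 2) := by
    refine (mul_le_mul (mul_le_mul hP hQ (by positivity) (Real.exp_nonneg _)) (mul_le_mul hdl hth hth0 (Real.exp_nonneg _))
      (mul_nonneg hdl0 hth0) (by positivity)).trans (le_of_eq ?_)
    rw [← Real.exp_add, ← Real.exp_add, ← Real.exp_add]
    congr 1
    ring
  have h4 : 3 * Real.exp (-(v * E) - 2) ≤ Real.exp (-(v * E)) := by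
    have h5 : Real.exp (-(v * E)) = Real.exp 2 * Real.exp (-(v * E) - 2) := by
      rw [← Real.exp_add]
      congr 1
      ring
    rw [h5]
    have h6 : 3 ≤ Real.exp 2 := by linarith [Real.add_one_le_exp (2 : ℝ)]
    exact mul_le_mul_of_nonneg_right h6 (Real.exp_nonneg _)
  linarith

end

end Pool.Agent.W_7d29a1_C1.S12
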