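import Pool.Agent.W_7d29a1_C1.FarK89
import Pool.Agent.W_7d29a1_C1.SeaL12
import Pool.Agent.W_7d29a1_C1.Dun31

/-!
MP_7d29a1_pr, attractor route [C1], SHELL: inputs of `Ft12` (SeaL12) from `DP31` (Dun31) and three upper envelopes. (helper31)

Ball = P1 (`K`), inside (`kap`), E5 (`K5`), one scale `(E, w)`, lateral coordinates `ℓ₀ .. ℓ₃` of the four rows. `comp31`: the composition
is below `kapo31`; `disp31`: gain of a displacement in P1; `km31`: the last two kernels; `near31`, `far_of_fsum`, `k031`: fields of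
`Ft12` and the constant of `fc12`.
-/

set_option autoImplicit false

namespace Pool.Agent.W_7d29a1_C1.D31

open Finset
open Pool.Agent.W_7d29a1_C1.FarK89 (gr gr_nonneg gr_one_le gr_mono cmp Env' AQ AQ_nonneg cmp_up)
open Pool.Agent.W_7d29a1_C1.S12 (Ln12 Ft12 near12)

noncomputable section

/-- Upper envelope of one kernel. -/
structure En31 (P : ℕ) (c c₂ E w q s : ℝ) (ℓ ℓ' : ℤ → ℝ) (k : ℤ → ℤ → ℝ) (I J : Finset ℤ) : Prop where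
  q0 : 0 ≤ q
  s0 : 0 ≤ s
  k0 : ∀ x y, 0 ≤ k x y
  up : ∀ x ∈ I, ∀ y ∈ J, k x y ≤ Real.exp (q * gr P (|ℓ x| / w) * E - c * (E / w) * |ℓ' y - ℓ x|)
  sum : ∀ x, ∑ y ∈ J, Real.exp (-(c₂ * (E / w) * |ℓ' y - ℓ x|)) ≤ Real.exp (s * E)

/-- The envelope of the ball. -/
def kapo31 (P : ℕ) (c₁ c₃ Q S E w : ℝ) (ℓ ℓ' : ℤ → ℝ) (x z : ℤ) : ℝ :=
  Real.exp ((Q * gr P (AQ P c₁ Q + |ℓ x| / w) + S) * E - c₃ * (E / w) * |ℓ' z - ℓ x|)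

theorem kapo31_pos (P : ℕ) (c₁ c₃ Q S E w : ℝ) (ℓ ℓ' : ℤ → ℝ) (x z : ℤ) : 0 < kapo31 P c₁ c₃ Q S E w ℓ ℓ' x z := Real.exp_pos _

variable {P : ℕ} {c c₁ c₂ c₃ c₄ E w q₁ q₂ q₃ s₁ s₂ s₃ Q S : ℝ} {ℓ₀ ℓ₁ ℓ₂ ℓ₃ : ℤ → ℝ} {K kap K5 : ℤ → ℤ → ℝ} {I J S₂ Z : Finset ℤ}

/-- Subsets. -/
theorem En31.mono {q s : ℝ} {ℓ ℓ' : ℤ → ℝ} {k : ℤ → ℤ → ℝ} {I' J' : Finset ℤ} (h : En31 P c c₂ E w q s ℓ ℓ' k I J) (hI : I' ⊆ I)
    (hJ : J' ⊆ J) : En31 P c c₂ E w q s ℓ ℓ' k I' J' where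
  q0 := h.q0
  s0 := h.s0
  k0 := h.k0
  up := fun x hx y hy => h.up x (hI hx) y (hJ hy)
  sum := fun x => (sum_le_sum_of_subset_of_nonneg hJ fun _ _ _ => (Real.exp_pos _).le).trans (h.sum x)

/-- Four values. -/
def t31 {α : Type*} (a b c d : α) : ℕ → α
  | 0 => a
  | 1 => b
  | 2 => c
  | _ + 3 => d

/-- The kernel, cut to the starts in `I`. -/
def cut31 (I : Finset ℤ) (k : ℤ → ℤ → ℝ) (x y : ℤ) : ℝ := if x ∈ I then k x y else 0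

/-- The three slabs as an instance of `Env'`. -/
theorem env31 (hE : 0 < E) (hw : 0 < w) (hc₂ : 0 ≤ c₂) (h1 : En31 P c c₂ E w q₁ s₁ ℓ₀ ℓ₁ K I J)
    (h2 : En31 P c c₂ E w q₂ s₂ ℓ₁ ℓ₂ kap J S₂) (h3 : En31 P c c₂ E w q₃ s₃ ℓ₂ ℓ₃ K5 S₂ Z) :
    Env' P c c₂ E w (t31 q₁ q₂ q₃ 0) (fun _ => E) (fun _ => w) (t31 q₁ q₂ q₃ 0) (t31 s₁ s₂ s₃ 0) (t31 ℓ₀ ℓ₁ ℓ₂ ℓ₃)
      (t31 (cut31 I K) (cut31 J kap) (cut31 S₂ K5) (fun _ _ => 0)) (t31 I J S₂ Z) 0 3 := by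
  have q0 : ∀ u, 0 ≤ t31 q₁ q₂ q₃ 0 u := fun u => match u with
    | 0 => h1.q0
    | 1 => h2.q0
    | 2 => h3.q0
    | _ + 3 => le_rfl
  have s0 : ∀ u, 0 ≤ t31 s₁ s₂ s₃ 0 u := fun u => match u with
    | 0 => h1.s0
    | 1 => h2.s0
    | 2 => h3.s0
    | _ + 3 => le_rfl
  have cut0 : ∀ (A : Finset ℤ) (k : ℤ → ℤ → ℝ), (∀ x y, 0 ≤ k x y) → ∀ x y, 0 ≤ cut31 A k x y := by
    intro A k hk x y
    unfold cut31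
    split_ifs
    · exact hk x y
    · exact le_rfl
  have cutu : ∀ {q s : ℝ} {ℓ ℓ' : ℤ → ℝ} {k : ℤ → ℤ → ℝ} {A B : Finset ℤ}, En31 P c c₂ E w q s ℓ ℓ' k A B → ∀ x, ∀ y ∈ B,
      cut31 A k x y ≤ Real.exp (q * gr P (|ℓ x| / w) * E - c * (E / w) * |ℓ' y - ℓ x|) := by
    intro q s ℓ ℓ' k A B h x y hy
    unfold cut31
    split_ifs with hx
    · exact h.up x hx y hy
    · exact (Real.exp_pos _).le
  exact
    { c0 := hc₂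
      q0 := q0
      Et0 := hE
      wt0 := hw
      w0 := fun _ _ _ => hw
      e0 := q0
      s0 := s0
      E0 := fun _ _ _ => hE.le
      wle := fun _ _ _ => le_rfl
      slope := fun _ _ _ => le_rfl
      en := fun u _ _ => by
        rw [div_self hw.ne', sub_self]
        have e : gr P 0 = 1 := by unfold gr; simp
        rw [e, mul_one]
      k0 := fun u => match u with
        | 0 => cut0 I K h1.k0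
        | 1 => cut0 J kap h2.k0
        | 2 => cut0 S₂ K5 h3.k0
        | _ + 3 => fun _ _ => le_rfl
      up := fun u _ hu3 => match u, hu3 with
        | 0, _ => cutu h1
        | 1, _ => cutu h2
        | 2, _ => cutu h3
      sum := fun u _ hu3 => match u, hu3 with
        | 0, _ => h1.sum
        | 1, _ => h2.sum
        | 2, _ => h3.sum }

/-- **THE ENVELOPE OF THE BALL.** -/
theorem comp31 (hE : 0 < E) (hw : 0 < w) (hc₂ : 0 ≤ c₂) (h1 : En31 P c c₂ E w q₁ s₁ ℓ₀ ℓ₁ K I J)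
    (h2 : En31 P c c₂ E w q₂ s₂ ℓ₁ ℓ₂ kap J S₂) (h3 : En31 P c c₂ E w q₃ s₃ ℓ₂ ℓ₃ K5 S₂ Z) (hc₁ : 0 < c₁) (hc₃ : 0 ≤ c₃)
    (hcc : c₁ + c₂ + c₃ ≤ c) (hQ : q₁ + q₂ + q₃ ≤ Q) (hS : s₁ + s₂ + s₃ ≤ S) {J' : Finset ℤ} (hJ : J' ⊆ J) :
    ∀ x ∈ I, ∀ z ∈ Z, ∑ y ∈ J', K x y * ∑ v ∈ S₂, kap y v * K5 v z ≤ kapo31 P c₁ c₃ Q S E w ℓ₀ ℓ₃ x z := by
  intro x hx z hz
  have hQ3 : ∑ v ∈ Ico 0 3, t31 q₁ q₂ q₃ 0 v = q₁ + q₂ + q₃ := by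
    rw [← range_eq_Ico, sum_range_succ, sum_range_succ, sum_range_succ, sum_range_zero, zero_add]
    rfl
  have hS3 : ∑ v ∈ Ico 0 3, t31 s₁ s₂ s₃ 0 v = s₁ + s₂ + s₃ := by
    rw [← range_eq_Ico, sum_range_succ, sum_range_succ, sum_range_succ, sum_range_zero, zero_add]
    rfl
  have hm := cmp_up (env31 hE hw hc₂ h1 h2 h3) hc₁ hc₃ hcc (hQ3.le.trans hQ) 3 0 le_rfl le_rfl x z
  have e7 : cmp (t31 (cut31 I K) (cut31 J kap) (cut31 S₂ K5) (fun _ _ => 0)) (t31 I J S₂ Z) 3 0 x z =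
      ∑ y ∈ J, K x y * ∑ v ∈ S₂, kap y v * K5 v z := by
    show ∑ y ∈ J, cut31 I K x y * ∑ v ∈ S₂, cut31 J kap y v * ∑ t ∈ Z, cut31 S₂ K5 v t * (if t = z then 1 else 0) = _
    refine sum_congr rfl fun y hy => ?_
    have a1 : cut31 I K x y = K x y := if_pos hx
    rw [a1]
    congr 1
    refine sum_congr rfl fun v hv => ?_
    have a2 : cut31 J kap y v = kap y v := if_pos hy
    rw [a2]
    congr 1
    rw [sum_eq_single z (fun t _ ht => by rw [if_neg ht, mul_zero]) (fun h => absurd hz h), if_pos rfl, mul_one]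
    exact if_pos hv
  rw [e7, zero_add, hQ3, hS3] at hm
  have hnn : ∀ y ∈ J, 0 ≤ K x y * ∑ v ∈ S₂, kap y v * K5 v z := fun y _ =>
    mul_nonneg (h1.k0 x y) (sum_nonneg fun v _ => mul_nonneg (h2.k0 y v) (h3.k0 v z))
  refine (sum_le_sum_of_subset_of_nonneg hJ fun y hy _ => hnn y hy).trans (hm.trans ?_)
  unfold kapo31
  refine Real.exp_le_exp.2 ?_
  show (q₁ + q₂ + q₃) * gr P (AQ P c₁ Q + |ℓ₀ x| / w) * E + (s₁ + s₂ + s₃) * E - c₃ * (E / w) * |ℓ₃ z - ℓ₀ x| ≤ _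
  have hg : 0 ≤ gr P (AQ P c₁ Q + |ℓ₀ x| / w) := gr_nonneg P (add_nonneg (AQ_nonneg P c₁ Q) (by positivity))
  have t1 := mul_le_mul_of_nonneg_right (mul_le_mul_of_nonneg_right hQ hg) hE.le
  have t2 := mul_le_mul_of_nonneg_right hS hE.le
  linarith

/-- **DISPLACEMENT IN P1.** -/
theorem disp31 (hE : 0 < E) (hw : 0 < w) (hc₂ : 0 ≤ c₂) (h1 : En31 P c c₂ E w q₁ s₁ ℓ₀ ℓ₁ K I J)
    (h2 : En31 P c c₂ E w q₂ s₂ ℓ₁ ℓ₂ kap J S₂) (h3 : En31 P c c₂ E w q₃ s₃ ℓ₂ ℓ₃ K5 S₂ Z) (hc₁ : 0 < c₁) (hc₃ : 0 ≤ c₃)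
    (hc₄ : 0 ≤ c₄) (hcc : c₁ + c₂ + c₃ + c₄ ≤ c) (hQ : q₁ + q₂ + q₃ ≤ Q) (hS : s₁ + s₂ + s₃ ≤ S) {I' J' : Finset ℤ} (hI : I' ⊆ I)
    (hJ : J' ⊆ J) {D : ℝ} (hD : ∀ x ∈ I', ∀ y ∈ J', D ≤ |ℓ₁ y - ℓ₀ x|) :
    ∀ x ∈ I', ∀ z ∈ Z, ∑ y ∈ J', K x y * ∑ v ∈ S₂, kap y v * K5 v z ≤
      Real.exp (-(c₄ * (E / w) * D)) * kapo31 P c₁ c₃ Q S E w ℓ₀ ℓ₃ x z := by
  classical
  intro x hx z hz
  have hEw : 0 ≤ E / w := (div_pos hE hw).le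
  have h1' : En31 P (c - c₄) c₂ E w q₁ s₁ ℓ₀ ℓ₁ (fun x y => Real.exp (c₄ * (E / w) * D) * K x y) I' J' :=
    { q0 := h1.q0
      s0 := h1.s0
      k0 := fun x y => mul_nonneg (Real.exp_pos _).le (h1.k0 x y)
      up := fun x hx y hy => by
        have t1 := mul_le_mul_of_nonneg_left (h1.up x (hI hx) y (hJ hy)) (Real.exp_pos (c₄ * (E / w) * D)).le
        rw [← Real.exp_add] at t1
        refine t1.trans (Real.exp_le_exp.2 ?_)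
        have t2 := mul_le_mul_of_nonneg_left (hD x hx y hy) (mul_nonneg hc₄ hEw)
        have t3 : (c - c₄) * (E / w) * |ℓ₁ y - ℓ₀ x| = c * (E / w) * |ℓ₁ y - ℓ₀ x| - c₄ * (E / w) * |ℓ₁ y - ℓ₀ x| := by ring
        rw [t3]
        linarith
      sum := (h1.mono (subset_refl I) hJ).sum }
  have hlow : ∀ {q s : ℝ} {ℓ ℓ' : ℤ → ℝ} {k : ℤ → ℤ → ℝ} {A B : Finset ℤ}, En31 P c c₂ E w q s ℓ ℓ' k A B →
      En31 P (c - c₄) c₂ E w q s ℓ ℓ' k A B := by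
    intro q s ℓ ℓ' k A B h
    refine ⟨h.q0, h.s0, h.k0, fun x hx y hy => (h.up x hx y hy).trans (Real.exp_le_exp.2 ?_), h.sum⟩
    have t2 : 0 ≤ c₄ * (E / w) * |ℓ' y - ℓ x| := by positivity
    have t3 : (c - c₄) * (E / w) * |ℓ' y - ℓ x| = c * (E / w) * |ℓ' y - ℓ x| - c₄ * (E / w) * |ℓ' y - ℓ x| := by ring
    rw [t3]
    linarith
  have hm := comp31 hE hw hc₂ h1' ((hlow h2).mono hJ (subset_refl _)) (hlow h3) hc₁ hc₃ (by linarith) hQ hS (subset_refl J') x hx z hz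
  have e1 : ∑ y ∈ J', Real.exp (c₄ * (E / w) * D) * K x y * ∑ v ∈ S₂, kap y v * K5 v z =
      Real.exp (c₄ * (E / w) * D) * ∑ y ∈ J', K x y * ∑ v ∈ S₂, kap y v * K5 v z := by
    rw [mul_sum]
    exact sum_congr rfl fun y _ => by ring
  rw [e1] at hm
  have h4 := mul_le_mul_of_nonneg_left hm (Real.exp_pos (-(c₄ * (E / w) * D))).le
  rw [← mul_assoc, ← Real.exp_add, neg_add_cancel, Real.exp_zero, one_mul] at h4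
  exact h4

/-- The envelope in the window. -/
theorem kapo_win (hE : 0 < E) (hw : 0 < w) (hQ0 : 0 ≤ Q) (hc₃ : 0 ≤ c₃) {Λ : ℝ} {x z : ℤ} (hx : |ℓ₀ x| ≤ Λ * w) :
    kapo31 P c₁ c₃ Q S E w ℓ₀ ℓ₃ x z ≤ Real.exp ((Q * gr P (AQ P c₁ Q + Λ) + S) * E) := by
  unfold kapo31
  refine Real.exp_le_exp.2 ?_
  have h1 : gr P (AQ P c₁ Q + |ℓ₀ x| / w) ≤ gr P (AQ P c₁ Q + Λ) := by
    refine gr_mono P (add_nonneg (AQ_nonneg P c₁ Q) (by positivity)) (add_le_add le_rfl ?_)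
    rwa [div_le_iff₀ hw]
  have h2 := mul_le_mul_of_nonneg_right (mul_le_mul_of_nonneg_left h1 hQ0) hE.le
  have h3 : 0 ≤ c₃ * (E / w) * |ℓ₃ z - ℓ₀ x| := by positivity
  linarith

/-- **The last two kernels.** -/
theorem km31 (hE : 0 < E) (hw : 0 < w) (hc₂ : 0 ≤ c₂) (h2 : En31 P c c₂ E w q₂ s₂ ℓ₁ ℓ₂ kap J S₂)
    (h3 : En31 P c c₂ E w q₃ s₃ ℓ₂ ℓ₃ K5 S₂ Z) (hc₁ : 0 < c₁) (hcc : c₁ + c₂ ≤ c) (hQ : q₂ + q₃ ≤ Q) (hS : s₂ + s₃ ≤ S) {Λ : ℝ} :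
    ∀ y ∈ J, |ℓ₁ y| ≤ Λ * w → ∀ z ∈ Z, ∑ v ∈ S₂, kap y v * K5 v z ≤ Real.exp ((Q * gr P (AQ P c₁ Q + Λ) + S) * E) := by
  classical
  intro y hy hyΛ z hz
  have hEw : 0 ≤ E / w := (div_pos hE hw).le
  have hc : 0 ≤ c := by linarith
  have hq2 := h2.q0
  have hq3 := h3.q0
  have hs2 := h2.s0
  have hs3 := h3.s0
  have h1 : En31 P c c₂ E w 0 0 ℓ₁ ℓ₁ (fun a b => if a = b then 1 else 0) {y} {y} := by
    refine ⟨le_rfl, le_rfl, fun a b => by split_ifs <;> norm_num, fun a ha b hb => ?_, fun a => ?_⟩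
    · rw [mem_singleton] at ha hb
      rw [ha, hb]
      simp
    · rw [sum_singleton, zero_mul, Real.exp_zero]
      rw [Real.exp_le_one_iff]
      have : 0 ≤ c₂ * (E / w) * |ℓ₁ y - ℓ₁ a| := by positivity
      linarith
  have hm := comp31 hE hw hc₂ h1 (h2.mono (singleton_subset_iff.2 hy) (subset_refl _)) h3 hc₁ (le_refl (0 : ℝ)) (by linarith)
    (Q := Q) (S := S) (by linarith) (by linarith) (subset_refl _) y (mem_singleton_self y) z hz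
  rw [sum_singleton, if_pos rfl, one_mul] at hm
  exact hm.trans (kapo_win hE hw (by linarith) le_rfl hyΛ)

/-- **NEAR.** -/
theorem near31 {W Wy WZ P₁ P₂ Q₁ Q₂ : Finset ℤ} {y₁ y₂ m₁ m₂ : ℤ} {dl ep D Λ : ℝ} (h : Ln12 K I J W Wy P₁ P₂ Q₁ Q₂ y₁ y₂ m₁ m₂ dl ep)
    (hE : 0 < E) (hw : 0 < w) (hc₂ : 0 ≤ c₂) (h1 : En31 P c c₂ E w q₁ s₁ ℓ₀ ℓ₁ K I J)
    (h2 : En31 P c c₂ E w q₂ s₂ ℓ₁ ℓ₂ kap J S₂) (h3 : En31 P c c₂ E w q₃ s₃ ℓ₂ ℓ₃ K5 S₂ Z) (hc₁ : 0 < c₁)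
    (hc₄ : 0 ≤ c₄) (hcc : c₁ + c₂ + c₄ ≤ c) (hQ : q₁ + q₂ + q₃ ≤ Q) (hS : s₁ + s₂ + s₃ ≤ S)
    (hWZ : WZ ⊆ Z) (hD : ∀ x ∈ W, ∀ y ∈ J \ Wy, D ≤ |ℓ₁ y - ℓ₀ x|) (hW : ∀ x ∈ W, |ℓ₀ x| ≤ Λ * w) (hWy : ∀ y ∈ Wy, |ℓ₁ y| ≤ Λ * w) :
    ∀ x ∈ W, ∀ z ∈ WZ, ∑ y ∈ J \ (Q₁ ∪ Q₂), K x y * ∑ v ∈ S₂, kap y v * K5 v z ≤
      Wy.card * (ep * Real.exp ((Q * gr P (AQ P c₁ Q + Λ) + S) * E)) +
        Real.exp (-(c₄ * (E / w) * D)) * Real.exp ((Q * gr P (AQ P c₁ Q + Λ) + S) * E) := by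
  have hq1 := h1.q0
  have hs1 := h1.s0
  have hq2 := h2.q0
  have hq3 := h3.q0
  refine near12 h (κ := fun y z => ∑ v ∈ S₂, kap y v * K5 v z)
    (fun y z => sum_nonneg fun v _ => mul_nonneg (h2.k0 y v) (h3.k0 v z)) ?_ ?_
  · intro y hy z hz
    exact km31 hE hw hc₂ h2 h3 hc₁ (by linarith) (by linarith) (by linarith) y (h.WJ hy) (hWy y hy) z (hWZ hz)
  · intro x hx z hz
    have t1 := disp31 hE hw hc₂ h1 h2 h3 hc₁ (le_refl (0 : ℝ)) hc₄ (by linarith) hQ hS h.WI sdiff_subset hD x hx z (hWZ hz)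
    refine t1.trans (mul_le_mul_of_nonneg_left ?_ (Real.exp_pos _).le)
    exact kapo_win hE hw (by linarith) le_rfl (hW x hx)

/-- **FAR**: `fsum` is the sum over the pairs off the windows; the profile vanishes on `I' \ I`. -/
theorem far_of_fsum {I I' Z W WZ : Finset ℤ} {cen cen' V : ℝ} {kapo : ℤ → ℤ → ℝ} {f F : ℤ → ℝ} (hI : I ⊆ I')
    (h0 : ∀ x ∈ I', x ∉ I → f x = 0) (hZ : Z ⊆ I) (hf : ∀ x, 0 ≤ f x) (hF : ∀ x, 0 ≤ F x) (hk : ∀ x z, 0 ≤ kapo x z)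
    (hW : ∀ x ∈ I, |(x : ℝ) - cen| ≤ V → x ∈ W) (hWZ : ∀ z ∈ Z, |(z : ℝ) - cen'| ≤ V → z ∈ WZ) :
    ∑ p ∈ (I' ×ˢ Z) \ (W ×ˢ WZ), f p.1 * kapo p.1 p.2 * F p.2 ≤ fsum I cen cen' V kapo f F := by
  classical
  have hnn : ∀ x z, 0 ≤ f x * kapo x z * F z := fun x z => mul_nonneg (mul_nonneg (hf x) (hk x z)) (hF z)
  have e1 : fsum I cen cen' V kapo f F =
      ∑ p ∈ I ×ˢ I, if |(p.1 : ℝ) - cen| ≤ V ∧ |(p.2 : ℝ) - cen'| ≤ V then 0 else f p.1 * kapo p.1 p.2 * F p.2 := by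
    unfold fsum
    rw [sum_product]
  have e2 : ∑ p ∈ (I' ×ˢ Z) \ (W ×ˢ WZ), f p.1 * kapo p.1 p.2 * F p.2 =
      ∑ p ∈ ((I' ×ˢ Z) \ (W ×ˢ WZ)).filter (fun p => p.1 ∈ I), f p.1 * kapo p.1 p.2 * F p.2 := by
    rw [sum_filter]
    refine sum_congr rfl fun p hp => ?_
    rw [mem_sdiff, mem_product] at hp
    split_ifs with h1
    · rfl
    · rw [h0 p.1 hp.1.1 h1, zero_mul, zero_mul]
  rw [e1, e2]
  refine le_trans (sum_le_sum fun p hp => ?_) (sum_le_sum_of_subset_of_nonneg (f := fun p : ℤ × ℤ =>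
    if |(p.1 : ℝ) - cen| ≤ V ∧ |(p.2 : ℝ) - cen'| ≤ V then 0 else f p.1 * kapo p.1 p.2 * F p.2) (fun p hp => ?_) fun p _ _ => ?_)
  · rw [mem_filter, mem_sdiff, mem_product, mem_product] at hp
    rw [if_neg]
    rintro ⟨h1, h2⟩
    exact hp.1.2 ⟨hW p.1 hp.2 h1, hWZ p.2 hp.1.1.2 h2⟩
  · rw [mem_filter, mem_sdiff, mem_product] at hp
    rw [mem_product]
    exact ⟨hp.2, hZ hp.1.1.2⟩
  · split_ifs
    · exact le_rfl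
    · exact hnn _ _

/-- **The constant of `fc12`.** -/
theorem k031 (hE : 0 < E) (hw : 0 < w) (h1 : En31 P c c₂ E w q₁ s₁ ℓ₀ ℓ₁ K I J) (hQ : q₁ ≤ Q) (hS : 0 ≤ S) (hc₃ : 0 ≤ c₃)
    (hcc : c₃ ≤ c) {Q₂ : Finset ℤ} (hQJ : Q₂ ⊆ J) {yp : ℤ} {D : ℝ} (hD : ∀ y ∈ Q₂, |ℓ₃ yp - ℓ₁ y| ≤ D) :
    ∀ x ∈ I, ∀ y ∈ Q₂, K x y * Real.exp (-(c₃ * (E / w) * D)) ≤ kapo31 P c₁ c₃ Q S E w ℓ₀ ℓ₃ x yp := by
  intro x hx y hy
  have hEw : 0 ≤ E / w := (div_pos hE hw).le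
  have h2 := mul_le_mul_of_nonneg_right (h1.up x hx y (hQJ hy)) (Real.exp_pos (-(c₃ * (E / w) * D))).le
  rw [← Real.exp_add] at h2
  refine h2.trans ?_
  unfold kapo31
  refine Real.exp_le_exp.2 ?_
  have hA := AQ_nonneg P c₁ Q
  have t1 : q₁ * gr P (|ℓ₀ x| / w) * E ≤ Q * gr P (AQ P c₁ Q + |ℓ₀ x| / w) * E := by
    refine mul_le_mul_of_nonneg_right ?_ hE.le
    exact mul_le_mul hQ (gr_mono P (by positivity) (by linarith)) (gr_nonneg P (by positivity)) (h1.q0.trans hQ)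
  have t2 : |ℓ₃ yp - ℓ₀ x| ≤ |ℓ₃ yp - ℓ₁ y| + |ℓ₁ y - ℓ₀ x| := by
    have := abs_add_le (ℓ₃ yp - ℓ₁ y) (ℓ₁ y - ℓ₀ x)
    have e : ℓ₃ yp - ℓ₁ y + (ℓ₁ y - ℓ₀ x) = ℓ₃ yp - ℓ₀ x := by ring
    rwa [e] at this
  have t3 := mul_le_mul_of_nonneg_left (t2.trans (add_le_add (hD y hy) le_rfl)) (mul_nonneg hc₃ hEw)
  have t4 : c₃ * (E / w) * |ℓ₁ y - ℓ₀ x| ≤ c * (E / w) * |ℓ₁ y - ℓ₀ x| :=
    mul_le_mul_of_nonneg_right (mul_le_mul_of_nonneg_right hcc hEw) (abs_nonneg _)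
  have t5 : 0 ≤ S * E := mul_nonneg hS hE.le
  rw [mul_add] at t3
  linarith

end

end Pool.Agent.W_7d29a1_C1.D31
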