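import Pool.Agent.W_7d29a1_C1.Shl31
import Pool.Agent.W_7d29a1_C1.SeaG31

/-!
MP_7d29a1_pr, attractor route [C1], SHELL, junction `uncovered => D`: the losses at the places of the shells (`Lc31`) from levels (lower
bound of the old kernel along the line of the place) and local regularity, and for the top shell from one route. (helper31)

`kap31` = the envelope `kapo31` of the ball, cut to the pairs which can be reached. `lc_start`, `lc_end`: the two directions.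
-/

set_option autoImplicit false

namespace Pool.Agent.W_7d29a1_C1.D31

open Finset
open Pool.Agent.W_7d29a1_C1.FarK89 (gr gr_nonneg gr_one_le gr_mono AQ AQ_nonneg lipQ)
open Pool.Agent.W_7d29a1_C1.K91P
open Pool.Agent.W_7d29a1_C1.U16 (ker fw_ker bw_ker ker_nonneg ker_eq_zero)

noncomputable section

/-- The losses from levels `a l` (old kernel) and `r l` (future), shells `l < L`; top shell apart. -/
theorem lc31 {I : Finset ℤ} {ℓ ℓ' : ℤ → ℝ} {Wd : ℕ → ℝ} {l₁ L : ℕ} {k kap : ℤ → ℤ → ℝ} {G : ℤ → ℝ} {cK σ aT : ℝ} {u r a : ℕ → ℝ}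
    (hσ : 0 ≤ σ) (hG : ∀ z, 0 ≤ G z)
    (hu : ∀ x ∈ I, ∀ l, l₁ ≤ l → l ≤ L → InS Wd L l (ℓ x) → ∀ z ∈ I, kap x z ≤ Real.exp (u l - cK * |ℓ' z - ℓ x|))
    (hlow : ∀ x ∈ I, ∀ l, l₁ ≤ l → l < L → InS Wd L l (ℓ x) → ∃ z₀ ∈ I, |ℓ' z₀ - ℓ x| ≤ 1 ∧ Real.exp (-a l) ≤ k x z₀)
    (hLR : ∀ x ∈ I, ∀ l, l₁ ≤ l → l < L → InS Wd L l (ℓ x) → ∀ z₀ ∈ I, |ℓ' z₀ - ℓ x| ≤ 1 → ∀ z ∈ I, 0 < kap x z →
      G z ≤ Real.exp (r l + σ * |ℓ' z - ℓ' z₀|) * G z₀)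
    (htop : ∀ x ∈ I, InS Wd L L (ℓ x) → ∃ z₀ ∈ I, Real.exp (-aT) ≤ k x z₀ ∧ ∀ z ∈ I, 0 < kap x z → G z ≤ G z₀) :
    Lc31 I ℓ ℓ' Wd l₁ L k kap G cK σ (fun l => if l < L then u l + (r l + σ) + a l else u L + aT) := by
  intro x hx l hl hL hS
  by_cases hlL : l < L
  · obtain ⟨z₀, hz₀, h1, h2⟩ := hlow x hx l hl hlL hS
    have e : u l + (r l + σ) + a l = (fun l => if l < L then u l + (r l + σ) + a l else u L + aT) l := (if_pos hlL).symm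
    refine ⟨u l, r l + σ, a l, e.le, hu x hx l hl hL hS, z₀, hz₀, h2, fun z hz hk => ?_⟩
    refine (hLR x hx l hl hlL hS z₀ hz₀ h1 z hz hk).trans (mul_le_mul_of_nonneg_right (Real.exp_le_exp.2 ?_) (hG z₀))
    have h3 : |ℓ' z - ℓ' z₀| ≤ |ℓ' z - ℓ x| + 1 := by
      have h4 := abs_sub_le (ℓ' z) (ℓ x) (ℓ' z₀)
      have h5 := abs_sub_comm (ℓ x) (ℓ' z₀)
      linarith
    have h4 := mul_le_mul_of_nonneg_left h3 hσ
    linarith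
  · have e : l = L := by omega
    subst e
    obtain ⟨z₀, hz₀, h1, h2⟩ := htop x hx hS
    have e : u l + 0 + aT = (fun j => if j < l then u j + (r j + σ) + a j else u l + aT) l := by
      rw [add_zero]
      exact (if_neg (lt_irrefl l)).symm
    refine ⟨u l, 0, aT, e.le, hu x hx l hl hL hS, z₀, hz₀, h1, fun z hz hk => ?_⟩
    refine (h2 z hz hk).trans ?_
    have h3 : 1 ≤ Real.exp (0 + σ * |ℓ' z - ℓ x|) := Real.one_le_exp (by positivity)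
    have h4 := mul_le_mul_of_nonneg_right h3 (hG z₀)
    linarith

/-- The envelope of the ball, cut. -/
def kap31 (P : ℕ) (c₁ c₃ Q S E w : ℝ) (cen cen' : ℝ) (n : ℕ) : ℤ → ℤ → ℝ :=
  cutn n (kapo31 P c₁ c₃ Q S E w (fun x => (x : ℝ) - cen) (fun z => (z : ℝ) - cen'))

variable {P : ℕ} {c₁ c₃ Q S E w cen cen' : ℝ} {n : ℕ}

theorem kap31_nonneg (x z : ℤ) : 0 ≤ kap31 P c₁ c₃ Q S E w cen cen' n x z :=
  cutn_nonneg (fun x z => (kapo31_pos P c₁ c₃ Q S E w _ _ x z).le) x z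

theorem kap31_le (x z : ℤ) : kap31 P c₁ c₃ Q S E w cen cen' n x z ≤
    kapo31 P c₁ c₃ Q S E w (fun x => (x : ℝ) - cen) (fun z => (z : ℝ) - cen') x z :=
  cutn_le (fun x z => (kapo31_pos P c₁ c₃ Q S E w _ _ x z).le) x z

theorem kap31_of_reach {x z : ℤ} (h1 : x ≤ z) (h2 : z ≤ x + n) : kap31 P c₁ c₃ Q S E w cen cen' n x z =
    kapo31 P c₁ c₃ Q S E w (fun x => (x : ℝ) - cen) (fun z => (z : ℝ) - cen') x z := if_pos ⟨h1, h2⟩

/-- A quantity which vanishes off the reachable pairs and is below the envelope is below the cut one. -/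
theorem le_kap31 {x z : ℤ} {v : ℝ} (h0 : ¬ (x ≤ z ∧ z ≤ x + n) → v = 0)
    (h : v ≤ kapo31 P c₁ c₃ Q S E w (fun x => (x : ℝ) - cen) (fun z => (z : ℝ) - cen') x z) :
    v ≤ kap31 P c₁ c₃ Q S E w cen cen' n x z := by
  by_cases h1 : x ≤ z ∧ z ≤ x + n
  · rw [kap31_of_reach h1.1 h1.2]
    exact h
  · rw [h0 h1]
    exact kap31_nonneg x z

/-- The level of the envelope at the lateral distance `Y`. -/
def lev31 (P : ℕ) (c₁ Q S E w Y : ℝ) : ℝ := (Q * gr P (AQ P c₁ Q + Y / w) + S) * E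

theorem kap31_start (hE : 0 < E) (hw : 0 < w) (hQ : 0 ≤ Q) (hc₁ : 0 ≤ c₁) (x z : ℤ) {Y : ℝ} (hY : |(x : ℝ) - cen| ≤ Y) :
    kap31 P c₁ c₃ Q S E w cen cen' n x z ≤
      Real.exp (lev31 P c₁ Q S E w Y - (c₃ - c₁) * (E / w) * |((z : ℝ) - cen') - ((x : ℝ) - cen)|) := by
  refine (kap31_le x z).trans ?_
  unfold kapo31 lev31
  refine Real.exp_le_exp.2 ?_
  have hA := AQ_nonneg P c₁ Q
  have h1 : gr P (AQ P c₁ Q + |(x : ℝ) - cen| / w) ≤ gr P (AQ P c₁ Q + Y / w) :=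
    gr_mono P (by positivity) (add_le_add le_rfl (div_le_div_of_nonneg_right hY hw.le))
  have h2 := mul_le_mul_of_nonneg_right (add_le_add (mul_le_mul_of_nonneg_left h1 hQ) (le_refl S)) hE.le
  have h3 : 0 ≤ c₁ * (E / w) * |((z : ℝ) - cen') - ((x : ℝ) - cen)| := by positivity
  have h4 : (c₃ - c₁) * (E / w) * |((z : ℝ) - cen') - ((x : ℝ) - cen)| =
      c₃ * (E / w) * |((z : ℝ) - cen') - ((x : ℝ) - cen)| - c₁ * (E / w) * |((z : ℝ) - cen') - ((x : ℝ) - cen)| := by ring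
  rw [h4]
  linarith

theorem kap31_end (hE : 0 < E) (hw : 0 < w) (hQ : 0 ≤ Q) (hc₁ : 0 < c₁) (x z : ℤ) {Y : ℝ} (hY : |(z : ℝ) - cen'| ≤ Y) :
    kap31 P c₁ c₃ Q S E w cen cen' n x z ≤
      Real.exp (lev31 P c₁ Q S E w Y - (c₃ - c₁) * (E / w) * |((x : ℝ) - cen) - ((z : ℝ) - cen')|) := by
  refine (kap31_le x z).trans ?_
  unfold kapo31 lev31
  refine Real.exp_le_exp.2 ?_
  have hA := AQ_nonneg P c₁ Q
  set d : ℝ := |((z : ℝ) - cen') - ((x : ℝ) - cen)| with hd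
  have hd0 : 0 ≤ d := abs_nonneg _
  have h0 : |(x : ℝ) - cen| / w ≤ Y / w + d / w := by
    rw [← add_div]
    refine div_le_div_of_nonneg_right ?_ hw.le
    have h1 := abs_sub_le ((x : ℝ) - cen) ((z : ℝ) - cen') 0
    rw [sub_zero, sub_zero] at h1
    have h2 := abs_sub_comm ((x : ℝ) - cen) ((z : ℝ) - cen')
    linarith
  have hY0 : 0 ≤ Y := (abs_nonneg _).trans hY
  have h1 : gr P (AQ P c₁ Q + |(x : ℝ) - cen| / w) ≤ gr P (AQ P c₁ Q + (Y / w + d / w)) :=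
    gr_mono P (by positivity) (add_le_add le_rfl h0)
  have h2 := lipQ P hc₁ hQ (le_refl Q) (div_nonneg hY0 hw.le) (div_nonneg hd0 hw.le)
  have h3 := (mul_le_mul_of_nonneg_left h1 hQ).trans h2
  have h4 := mul_le_mul_of_nonneg_right (add_le_add h3 (le_refl S)) hE.le
  have e1 : (Q * gr P (AQ P c₁ Q + Y / w) + c₁ * (d / w) + S) * E =
      (Q * gr P (AQ P c₁ Q + Y / w) + S) * E + c₁ * (E / w) * d := by ring
  rw [e1] at h4
  rw [abs_sub_comm ((x : ℝ) - cen) ((z : ℝ) - cen'), ← hd]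
  have e2 : (c₃ - c₁) * (E / w) * d = c₃ * (E / w) * d - c₁ * (E / w) * d := by ring
  rw [e2]
  linarith

/-- The width used at the shell `l`: `Wd (l + 1)` below the top, `R` at the top. -/
def wid (Wd : ℕ → ℝ) (L : ℕ) (R : ℝ) (l : ℕ) : ℝ := if l < L then Wd (l + 1) else R

/-- The losses. -/
def loss31 (P : ℕ) (c₁ Q S E w : ℝ) (Wd : ℕ → ℝ) (L : ℕ) (R σ aT : ℝ) (r a : ℕ → ℝ) (l : ℕ) : ℝ :=
  if l < L then lev31 P c₁ Q S E w (Wd (l + 1)) + (r l + σ) + a l else lev31 P c₁ Q S E w R + aT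

variable {lo hi : ℤ} {Wd : ℕ → ℝ} {l₁ L : ℕ} {k : ℤ → ℤ → ℝ} {G F : ℤ → ℝ} {σ aT R : ℝ} {r a : ℕ → ℝ}

theorem loss_eq : (fun l => if l < L then lev31 P c₁ Q S E w (wid Wd L R l) + (r l + σ) + a l else lev31 P c₁ Q S E w (wid Wd L R L) + aT) =
    loss31 P c₁ Q S E w Wd L R σ aT r a := by
  funext l
  unfold loss31 wid
  split_ifs with h1 h2
  · rfl
  · exact absurd h2 (lt_irrefl _)
  · rfl

/-- **STARTS.** -/
theorem lc_start (hE : 0 < E) (hw : 0 < w) (hQ : 0 ≤ Q) (hc₁ : 0 < c₁) (hσ : 0 ≤ σ) (hG : ∀ z, 0 ≤ G z)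
    {sl : ℝ} (hsl0 : 0 ≤ sl) (hsl1 : sl ≤ 1) (hcen : cen' = cen + sl * n)
    (hR : ∀ x ∈ Icc lo hi, |(x : ℝ) - cen| ≤ R)
    (hbox : ∀ x : ℤ, |(x : ℝ) - cen| ≤ Wd L → x + n ≤ hi) (hWd : ∀ l, l < L → Wd (l + 1) ≤ Wd L)
    (hlow : ∀ l, l₁ ≤ l → l < L → ∀ x z : ℤ, InS Wd L l ((x : ℝ) - cen) → x ≤ z → z ≤ x + n →
      |((z : ℝ) - cen') - ((x : ℝ) - cen)| ≤ 1 → Real.exp (-a l) ≤ k x z)
    (hLR : ∀ l, l₁ ≤ l → l < L → ∀ z z₀ : ℤ, |(z₀ : ℝ) - cen'| ≤ Wd (l + 1) + 1 → |(z : ℝ) - z₀| ≤ n + 1 →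
      G z ≤ Real.exp (r l + σ * |(z : ℝ) - z₀|) * G z₀)
    (hone : ∀ x z : ℤ, x ≤ z → z ≤ x + n → lo ≤ x → z ≤ hi → Real.exp (-aT) ≤ k x z) :
    Lc31 (Icc lo hi) (fun x => (x : ℝ) - cen) (fun z => (z : ℝ) - cen') Wd l₁ L k (kap31 P c₁ c₃ Q S E w cen cen' n) G
      ((c₃ - c₁) * (E / w)) σ (loss31 P c₁ Q S E w Wd L R σ aT r a) := by
  rw [← loss_eq]
  have hn0 : (0 : ℝ) ≤ n := Nat.cast_nonneg n
  refine lc31 (u := fun l => lev31 P c₁ Q S E w (wid Wd L R l)) (r := r) (a := a) hσ hG ?_ ?_ ?_ ?_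
  · intro x hx l hl hL hS z hz
    refine kap31_start hE hw hQ hc₁.le x z ?_
    unfold wid
    split_ifs with h
    · exact hS.2 h
    · exact hR x hx
  · intro x hx l hl hL hS
    rw [mem_Icc] at hx
    have hxW : |(x : ℝ) - cen| ≤ Wd L := (hS.2 hL).trans (hWd l hL)
    have h1 : ((⌊(x : ℝ) + sl * n⌋ : ℤ) : ℝ) ≤ (x : ℝ) + sl * n := Int.floor_le _
    have h2 : (x : ℝ) + sl * n < (⌊(x : ℝ) + sl * n⌋ : ℤ) + 1 := Int.lt_floor_add_one _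
    have h3 : x ≤ ⌊(x : ℝ) + sl * n⌋ := Int.le_floor.2 (by nlinarith)
    have h4 : ⌊(x : ℝ) + sl * n⌋ ≤ x + n := by
      have h5 : ((⌊(x : ℝ) + sl * n⌋ : ℤ) : ℝ) ≤ ((x + n : ℤ) : ℝ) := by
        push_cast
        nlinarith
      exact_mod_cast h5
    have h5 : |((⌊(x : ℝ) + sl * n⌋ : ℤ) : ℝ) - cen' - ((x : ℝ) - cen)| ≤ 1 := by
      rw [hcen, abs_le]
      constructor <;> linarith
    exact ⟨⌊(x : ℝ) + sl * n⌋, mem_Icc.2 ⟨hx.1.trans h3, h4.trans (hbox x hxW)⟩, h5, hlow l hl hL x _ hS h3 h4 h5⟩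
  · intro x hx l hl hL hS z₀ hz₀ h1 z hz hk
    obtain ⟨h2, h3⟩ := cutn_pos hk
    have e : ((z : ℝ) - cen') - ((z₀ : ℝ) - cen') = (z : ℝ) - z₀ := by ring
    rw [e]
    have h2' : (x : ℝ) ≤ z := by exact_mod_cast h2
    have h3' : (z : ℝ) ≤ x + n := by exact_mod_cast h3
    have h4 := abs_le.1 h1
    have h5 := abs_le.1 (hS.2 hL)
    refine hLR l hl hL z z₀ ?_ ?_
    · rw [abs_le]
      constructor <;> linarith [h4.1, h4.2, h5.1, h5.2]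
    · rw [hcen] at h4
      have h6 : (x : ℝ) - 1 ≤ z₀ := by nlinarith [h4.1]
      have h7 : (z₀ : ℝ) ≤ x + n + 1 := by nlinarith [h4.2]
      rw [abs_le]
      constructor <;> linarith
  · intro x hx hS
    obtain ⟨z₀, hz₀, h1, h2⟩ := top_start (I := Icc lo hi) (n := n) (k := k) (G := G) (a := aT) hx
      (fun z hz h3 h4 => hone x z h3 h4 (mem_Icc.1 hx).1 (mem_Icc.1 hz).2)
    exact ⟨z₀, hz₀, h1, fun z hz hk => h2 z hz (cutn_pos hk).1 (cutn_pos hk).2⟩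

/-- **ENDS.** -/
theorem lc_end (hE : 0 < E) (hw : 0 < w) (hQ : 0 ≤ Q) (hc₁ : 0 < c₁) (hσ : 0 ≤ σ) (hF : ∀ x, 0 ≤ F x)
    {sl : ℝ} (hsl0 : 0 ≤ sl) (hsl1 : sl ≤ 1) (hcen : cen' = cen + sl * n)
    (hR : ∀ z ∈ Icc lo hi, |(z : ℝ) - cen'| ≤ R)
    (hbox : ∀ z : ℤ, |(z : ℝ) - cen'| ≤ Wd L → lo ≤ z - n) (hWd : ∀ l, l < L → Wd (l + 1) ≤ Wd L)
    (hlow : ∀ l, l₁ ≤ l → l < L → ∀ x z : ℤ, InS Wd L l ((z : ℝ) - cen') → x ≤ z → z ≤ x + n →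
      |((z : ℝ) - cen') - ((x : ℝ) - cen)| ≤ 1 → Real.exp (-a l) ≤ k x z)
    (hLR : ∀ l, l₁ ≤ l → l < L → ∀ x x₀ : ℤ, |(x₀ : ℝ) - cen| ≤ Wd (l + 1) + 1 → |(x : ℝ) - x₀| ≤ n + 1 →
      F x ≤ Real.exp (r l + σ * |(x : ℝ) - x₀|) * F x₀)
    (hone : ∀ x z : ℤ, x ≤ z → z ≤ x + n → lo ≤ x → z ≤ hi → Real.exp (-aT) ≤ k x z) :
    Lc31 (Icc lo hi) (fun z => (z : ℝ) - cen') (fun x => (x : ℝ) - cen) Wd l₁ L (fun z x => k x z)
      (fun z x => kap31 P c₁ c₃ Q S E w cen cen' n x z) F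
      ((c₃ - c₁) * (E / w)) σ (loss31 P c₁ Q S E w Wd L R σ aT r a) := by
  rw [← loss_eq]
  have hn0 : (0 : ℝ) ≤ n := Nat.cast_nonneg n
  refine lc31 (u := fun l => lev31 P c₁ Q S E w (wid Wd L R l)) (r := r) (a := a) hσ hF ?_ ?_ ?_ ?_
  · intro z hz l hl hL hS x hx
    refine kap31_end hE hw hQ hc₁ x z ?_
    unfold wid
    split_ifs with h
    · exact hS.2 h
    · exact hR z hz
  · intro z hz l hl hL hS
    rw [mem_Icc] at hz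
    have hzW : |(z : ℝ) - cen'| ≤ Wd L := (hS.2 hL).trans (hWd l hL)
    have h1 : ((⌊(z : ℝ) - sl * n⌋ : ℤ) : ℝ) ≤ (z : ℝ) - sl * n := Int.floor_le _
    have h2 : (z : ℝ) - sl * n < (⌊(z : ℝ) - sl * n⌋ : ℤ) + 1 := Int.lt_floor_add_one _
    have h3 : z - n ≤ ⌊(z : ℝ) - sl * n⌋ := by
      refine Int.le_floor.2 ?_
      push_cast
      nlinarith
    have h4 : ⌊(z : ℝ) - sl * n⌋ ≤ z := by
      have h5 : ((⌊(z : ℝ) - sl * n⌋ : ℤ) : ℝ) ≤ (z : ℝ) := by nlinarith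
      exact_mod_cast h5
    have h5 : |((⌊(z : ℝ) - sl * n⌋ : ℤ) : ℝ) - cen - ((z : ℝ) - cen')| ≤ 1 := by
      rw [hcen, abs_le]
      constructor <;> linarith
    refine ⟨⌊(z : ℝ) - sl * n⌋, mem_Icc.2 ⟨(hbox z hzW).trans h3, h4.trans hz.2⟩, h5, ?_⟩
    rw [abs_sub_comm] at h5
    exact hlow l hl hL _ z hS h4 (by omega) h5
  · intro z hz l hl hL hS x₀ hx₀ h1 x hx hk
    obtain ⟨h2, h3⟩ := cutn_pos hk
    have e : ((x : ℝ) - cen) - ((x₀ : ℝ) - cen) = (x : ℝ) - x₀ := by ring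
    rw [e]
    have h2' : (x : ℝ) ≤ z := by exact_mod_cast h2
    have h3' : (z : ℝ) ≤ x + n := by exact_mod_cast h3
    have h4 := abs_le.1 h1
    have h5 := abs_le.1 (hS.2 hL)
    refine hLR l hl hL x x₀ ?_ ?_
    · rw [abs_le]
      constructor <;> linarith [h4.1, h4.2, h5.1, h5.2]
    · rw [hcen] at h4
      have h6 : (z : ℝ) - n - 1 ≤ x₀ := by nlinarith [h4.1]
      have h7 : (x₀ : ℝ) ≤ z + 1 := by nlinarith [h4.2]
      rw [abs_le]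
      constructor <;> linarith
  · intro z hz hS
    obtain ⟨x₀, hx₀, h1, h2⟩ := top_end (I := Icc lo hi) (n := n) (k := k) (F := F) (a := aT) hz
      (fun x hx h3 h4 => hone x z h3 h4 (mem_Icc.1 hx).1 (mem_Icc.1 hz).2)
    exact ⟨x₀, hx₀, h1, fun x hx hk => h2 x hx (cutn_pos hk).1 (cutn_pos hk).2⟩

end

end Pool.Agent.W_7d29a1_C1.D31
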