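import Pool.Agent.W_7d29a1_C1.FreK35
import Pool.Agent.W_7d29a1_C1.FreE83
import Pool.Agent.W_7d29a1_C1.Loc31

/-!
MP_7d29a1_pr, [C1], SHELL, FRESH BALL: **THE INSIDE HALF OF `Jnt`** (helper35), letters of helper47: `K₁ x y = wt i x * nk i n x y`
(`S83.K5`), lateral coordinates = distances from the line of `κ`, one unit `(E, w) = (EE Tt, wd Tt)`, envelopes `kap31` (cut to the
reachable pairs, growth in the start of the form `gr`).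

* `comp35`, `comp35_cut` : `∑ k x y kapo31 y z ≤ kapo31 x z` (levels add up, the same `c₁`);
* `jn35` : from one level event `Far16` and the single weights of the row `i`: `En31` of `K₁`, lower bound and mass bound from the cells;
* `jnC35` : the envelope `comp` of the inside, `lo1`, `up1`.
-/

set_option autoImplicit false

namespace Pool.Agent.W_7d29a1_C1.JnC35

open MeasureTheory ProbabilityTheory Filter Topology Finset
open Pool.Agent.W_7d29a1_F Pool.Agent.W_7d29a1_h4g Pool.Agent.W_7d29a1_H Pool.Agent.W_7d29a1_HS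
open Pool.Agent.W_7d29a1_C1 Pool.Agent.W_7d29a1_C1.H75 Pool.Agent.W_7d29a1_C1.U16 Pool.Agent.W_7d29a1_C1.FarK89 Pool.Agent.W_7d29a1_C1.FarW89
open Pool.Agent.W_7d29a1_C1.K91 (wt wt_pos)
open Pool.Agent.W_7d29a1_C1.S83 (RowG K5 gr_pow_mono sumR83)
open Pool.Agent.W_7d29a1_C1.D31 (En31 kapo31 kap31 kapo31_pos kap31_nonneg kap31_le kap31_of_reach le_kap31)
open Pool.Agent.W_7d29a1_C1.FreK35 (Q35 Q35_nonneg nk1)

noncomputable section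

/-! ### The composition -/

section Comp

variable {P : ℕ} {c c₁ c₂ c₃ c₃' E w q₁ s₁ Q S : ℝ} {ℓ₁ ℓ₂ ℓ₃ : ℤ → ℝ} {k : ℤ → ℤ → ℝ} {I J : Finset ℤ}

theorem AQ_mono {Q Q' : ℝ} (hc : 0 < c₁) (hQ : 0 ≤ Q) (h : Q ≤ Q') : AQ P c₁ Q ≤ AQ P c₁ Q' := by
  unfold AQ
  have h1 := CP_pos P
  refine pow_le_pow_left₀ (by positivity) ?_ 2
  refine div_le_div_of_nonneg_right ?_ hc.le
  exact mul_le_mul_of_nonneg_left h (by positivity)

/-- One term. -/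
theorem term35 (hE : 0 < E) (hw : 0 < w) (hc₁ : 0 < c₁) (hc₂ : 0 ≤ c₂) (hc₃ : 0 ≤ c₃') (h3 : c₃' ≤ c₃) (hcc : c₃' + c₁ + c₂ ≤ c) (hq : 0 ≤ q₁)
    (hQ : 0 ≤ Q) (x y z : ℤ) :
    Real.exp (q₁ * gr P (|ℓ₁ x| / w) * E - c * (E / w) * |ℓ₂ y - ℓ₁ x|) * kapo31 P c₁ c₃ Q S E w ℓ₂ ℓ₃ y z ≤
      Real.exp (((Q + q₁) * gr P (AQ P c₁ (Q + q₁) + |ℓ₁ x| / w) + S) * E - c₃' * (E / w) * |ℓ₃ z - ℓ₁ x|) *
        Real.exp (-(c₂ * (E / w) * |ℓ₂ y - ℓ₁ x|)) := by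
  unfold kapo31
  rw [← Real.exp_add, ← Real.exp_add]
  refine Real.exp_le_exp.2 ?_
  obtain ⟨X, hX⟩ : ∃ X : ℝ, X = |ℓ₁ x| / w := ⟨_, rfl⟩
  obtain ⟨t, ht⟩ : ∃ t : ℝ, t = |ℓ₂ y - ℓ₁ x| := ⟨_, rfl⟩
  obtain ⟨t', ht'⟩ : ∃ t : ℝ, t = |ℓ₃ z - ℓ₂ y| := ⟨_, rfl⟩
  have hX0 : 0 ≤ X := by rw [hX]; positivity
  have ht0 : 0 ≤ t := by rw [ht]; positivity
  have ht0' : 0 ≤ t' := by rw [ht']; positivity
  have hA := AQ_nonneg P c₁ Q
  have hEw : 0 ≤ E / w := (div_pos hE hw).le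
  have a1 : |ℓ₂ y| / w ≤ X + t / w := by
    rw [hX, ← add_div]
    refine div_le_div_of_nonneg_right ?_ hw.le
    have h1 := abs_add_le (ℓ₂ y - ℓ₁ x) (ℓ₁ x)
    rw [sub_add_cancel] at h1
    rw [ht]
    linarith
  have a2 : gr P (AQ P c₁ Q + |ℓ₂ y| / w) ≤ gr P (AQ P c₁ Q + (X + t / w)) := gr_mono P (by positivity) (by linarith)
  have a3 := lipQ P hc₁ hQ (le_refl Q) hX0 (div_nonneg ht0 hw.le)
  have a4 := (mul_le_mul_of_nonneg_left a2 hQ).trans a3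
  have a5 : gr P (AQ P c₁ Q + X) ≤ gr P (AQ P c₁ (Q + q₁) + X) :=
    gr_mono P (by positivity) (add_le_add (AQ_mono hc₁ hQ (by linarith)) le_rfl)
  have a6 : gr P X ≤ gr P (AQ P c₁ (Q + q₁) + X) := gr_mono P hX0 (by have := AQ_nonneg P c₁ (Q + q₁); linarith)
  have a7 : |ℓ₃ z - ℓ₁ x| ≤ t' + t := by
    have h1 := abs_add_le (ℓ₃ z - ℓ₂ y) (ℓ₂ y - ℓ₁ x)
    have e : ℓ₃ z - ℓ₂ y + (ℓ₂ y - ℓ₁ x) = ℓ₃ z - ℓ₁ x := by ring
    rw [e] at h1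
    rw [ht, ht']
    exact h1
  have b1 := mul_le_mul_of_nonneg_right (mul_le_mul_of_nonneg_left a6 hq) hE.le
  have b2 := mul_le_mul_of_nonneg_right (a4.trans (add_le_add (mul_le_mul_of_nonneg_left a5 hQ) le_rfl)) hE.le
  have b3 : c₁ * (t / w) * E = c₁ * (E / w) * t := by ring
  rw [add_mul, b3] at b2
  have b4 := mul_le_mul_of_nonneg_left a7 (mul_nonneg hc₃ hEw)
  have b5 : c₃' * (E / w) * t' ≤ c₃ * (E / w) * t' := mul_le_mul_of_nonneg_right (mul_le_mul_of_nonneg_right h3 hEw) ht0'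
  have b6 : (c₃' + c₁ + c₂) * (E / w) * t ≤ c * (E / w) * t := mul_le_mul_of_nonneg_right (mul_le_mul_of_nonneg_right hcc hEw) ht0
  rw [← hX, ← ht, ← ht']
  nlinarith

/-- **THE COMPOSITION WITH AN ENVELOPE**: the levels add up, `c₁` stays. -/
theorem comp35 (hE : 0 < E) (hw : 0 < w) (hc₁ : 0 < c₁) (hc₂ : 0 ≤ c₂) (hc₃ : 0 ≤ c₃') (h3 : c₃' ≤ c₃) (hcc : c₃' + c₁ + c₂ ≤ c)
    (hk : En31 P c c₂ E w q₁ s₁ ℓ₁ ℓ₂ k I J) (hQ : 0 ≤ Q) {x : ℤ} (hx : x ∈ I) (z : ℤ) :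
    ∑ y ∈ J, k x y * kapo31 P c₁ c₃ Q S E w ℓ₂ ℓ₃ y z ≤ kapo31 P c₁ c₃' (Q + q₁) (S + s₁) E w ℓ₁ ℓ₃ x z := by
  calc ∑ y ∈ J, k x y * kapo31 P c₁ c₃ Q S E w ℓ₂ ℓ₃ y z
      ≤ ∑ y ∈ J, Real.exp (((Q + q₁) * gr P (AQ P c₁ (Q + q₁) + |ℓ₁ x| / w) + S) * E - c₃' * (E / w) * |ℓ₃ z - ℓ₁ x|) *
          Real.exp (-(c₂ * (E / w) * |ℓ₂ y - ℓ₁ x|)) :=
        sum_le_sum fun y hy => (mul_le_mul_of_nonneg_right (hk.up x hx y hy) (kapo31_pos _ _ _ _ _ _ _ _ _ _ _).le).trans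
          (term35 hE hw hc₁ hc₂ hc₃ h3 hcc hk.q0 hQ x y z)
    _ = Real.exp (((Q + q₁) * gr P (AQ P c₁ (Q + q₁) + |ℓ₁ x| / w) + S) * E - c₃' * (E / w) * |ℓ₃ z - ℓ₁ x|) *
          ∑ y ∈ J, Real.exp (-(c₂ * (E / w) * |ℓ₂ y - ℓ₁ x|)) := by rw [mul_sum]
    _ ≤ Real.exp (((Q + q₁) * gr P (AQ P c₁ (Q + q₁) + |ℓ₁ x| / w) + S) * E - c₃' * (E / w) * |ℓ₃ z - ℓ₁ x|) * Real.exp (s₁ * E) :=
        mul_le_mul_of_nonneg_left (hk.sum x) (Real.exp_pos _).le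
    _ = _ := by
        unfold kapo31
        rw [← Real.exp_add]
        congr 1
        ring

/-- The same for the cut envelopes. -/
theorem comp35_cut {cen₁ cen₂ cen₃ : ℝ} {n m : ℕ} (hE : 0 < E) (hw : 0 < w) (hc₁ : 0 < c₁) (hc₂ : 0 ≤ c₂) (hc₃ : 0 ≤ c₃')
    (h3 : c₃' ≤ c₃) (hcc : c₃' + c₁ + c₂ ≤ c) (hk : En31 P c c₂ E w q₁ s₁ (fun x => (x : ℝ) - cen₁) (fun y => (y : ℝ) - cen₂) k I J)
    (hQ : 0 ≤ Q) (kz : ∀ x y : ℤ, ¬ (x ≤ y ∧ y ≤ x + n) → k x y = 0) {x : ℤ} (hx : x ∈ I) (z : ℤ) :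
    ∑ y ∈ J, k x y * kap31 P c₁ c₃ Q S E w cen₂ cen₃ m y z ≤ kap31 P c₁ c₃' (Q + q₁) (S + s₁) E w cen₁ cen₃ (n + m) x z := by
  refine le_kap31 (fun hn => sum_eq_zero fun y _ => ?_) ?_
  · by_cases h1 : x ≤ y ∧ y ≤ x + n
    · by_cases h2 : y ≤ z ∧ z ≤ y + m
      · exact absurd ⟨h1.1.trans h2.1, by push_cast; omega⟩ hn
      · have e : kap31 P c₁ c₃ Q S E w cen₂ cen₃ m y z = 0 := if_neg h2
        rw [e, mul_zero]
    · rw [kz x y h1, zero_mul]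
  · refine le_trans (sum_le_sum fun y _ => ?_) (comp35 hE hw hc₁ hc₂ hc₃ h3 hcc hk hQ hx z)
    exact mul_le_mul_of_nonneg_left (kap31_le y z) (hk.k0 x y)

end Comp

/-! ### The kernel of the inside -/

/-- The line of `κ` at the row `r`. -/
def ln35 (μ : Measure ℝ) (s : ℝ) (κ : Pt) (r : ℕ) : ℝ := (κ.2 : ℝ) + sl μ s * (((r : ℤ) - κ.1 : ℤ) : ℝ)

theorem lat_ln (μ : Measure ℝ) (s : ℝ) (κ : Pt) (r : ℕ) (x : ℤ) : lat16 μ s κ ((r : ℤ), x) = (x : ℝ) - ln35 μ s κ r := by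
  unfold lat16 ln35
  push_cast
  ring

variable {μ : Measure ℝ} {s c C : ℝ} {n₀ : ℕ} [IsProbabilityMeasure μ]

/-- **THE KERNEL OF THE INSIDE**: envelope, lower bound and mass from the windows. -/
theorem jn35 (h0 : In μ s c C n₀) (P : ℕ) {θ K : ℝ} (hK : 4 ≤ K) (hθ : 0 < θ) : ∃ P₀ : ℕ, ∀ q u ρ : ℝ, 0 ≤ q → 0 ≤ u → 0 ≤ ρ →
    2 * ρ + 6 ≤ K → ∃ q₁ CL : ℝ, 0 ≤ q₁ ∧ 0 < CL ∧ ∀ c₂ σ : ℝ, 0 < c₂ → c₂ ≤ c / 8 → 0 < σ → σ ≤ 1 → ∃ n₁ : ℕ, 1 ≤ n₁ ∧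
    ∀ {h : ℝ} {η : Env} {p : ℕ → ℝ} {M : ℕ} {κ b : Pt} {Tt N : ℕ} {z : ℤ}, n₁ ≤ Tt → N ≤ Tt →
    (∀ k, k < M → p k = Real.exp (s + h)) → (∀ k, M ≤ k → p k = Real.exp s) → η ∈ Far16 μ s c θ K Tt N P b q →
    |lat16 μ s κ b| ≤ wd μ s Tt → |h| * wd μ s Tt ≤ c / 8 * EE μ s Tt →
    ∀ (i n : ℕ), b.1 ≤ i → (i : ℤ) + n ≤ b.1 + N → θ * Tt ≤ n → η ∈ RowG (i : ℤ) z (wd μ s Tt) (u * EE μ s Tt) →
    |(z : ℝ) - ln35 μ s κ i| ≤ wd μ s Tt →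
    (∀ P', P₀ ≤ P' → ∀ I J : Finset ℤ, En31 P' (c / 8) c₂ (EE μ s Tt) (wd μ s Tt) q₁ σ (fun x => (x : ℝ) - ln35 μ s κ i)
      (fun y => (y : ℝ) - ln35 μ s κ (i + n)) (K5 μ s h η p M i n) I J) ∧
    (∀ x y : ℤ, |(x : ℝ) - ln35 μ s κ i| ≤ ρ * wd μ s Tt → |(y : ℝ) - ln35 μ s κ (i + n)| ≤ ρ * wd μ s Tt →
      1 ≤ Real.exp (CL * EE μ s Tt) * K5 μ s h η p M i n x y) ∧
    ∀ (x : ℤ) (δ : Finset ℤ), |(x : ℝ) - ln35 μ s κ i| ≤ ρ * wd μ s Tt →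
      ∑ y ∈ δ, K5 μ s h η p M i n x y ≤ Real.exp (CL * EE μ s Tt) := by
  have hc0 := h0.c0
  obtain ⟨C₅, C₆, hC₅, hC₆, m₁, hm₁, H1⟩ := nk1 h0 P hK hθ
  obtain ⟨m₂, H2⟩ := eventually_atTop.1 ((wd_tendsto h0).eventually_ge_atTop 1)
  refine ⟨2 * P + 1, fun q u ρ hq hu hρ hρK => ?_⟩
  have hQ0 := Q35_nonneg P q
  have hLQ : 0 ≤ LQ (2 * P) (c / 8) (C₅ * Q35 P q) := LQ_nonneg _ (by positivity)
  obtain ⟨Λ, hΛ⟩ : ∃ Λ : ℝ, Λ = LQ (2 * P) (c / 8) (C₅ * Q35 P q) := ⟨_, rfl⟩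
  rw [← hΛ] at hLQ
  have hgK : 0 ≤ gr (2 * P) K := gr_nonneg _ (by linarith)
  have hgρ : 0 ≤ gr (2 * P + 1) ρ := gr_nonneg _ hρ
  refine ⟨Λ + Q35 P q + 2 * u, C₆ * Q35 P q * gr (2 * P) K + u * (1 + Real.log (ρ + 2)) + ((Λ + Q35 P q + 2 * u) * gr (2 * P + 1) ρ + 1), by positivity, ?_, ?_⟩
  · have := Real.log_nonneg (show (1 : ℝ) ≤ ρ + 2 by linarith)
    positivity
  intro c₂ σ hc₂ hc₂' hσ hσ1
  obtain ⟨m₃, hm₃, H3⟩ := sumR83 h0 hc₂ hσ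
  refine ⟨max m₁ (max m₂ m₃), hm₁.trans (le_max_left _ _), ?_⟩
  intro h η p M κ b Tt N z hT hNT hp hp' hη hb hh i n hi1 hi2 hθn hR hz
  have hw1 := H2 Tt (((le_max_left _ _).trans (le_max_right _ _)).trans hT)
  have hw0 : 0 < wd μ s Tt := by linarith
  have hE := EE_pos (μ := μ) (s := s) Tt
  have hpp : ∀ k, 0 < p k := fun k => by
    rcases lt_or_ge k M with h1 | h1
    · rw [hp k h1]; exact Real.exp_pos _
    · rw [hp' k h1]; exact Real.exp_pos _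
  have huE : 0 ≤ u * EE μ s Tt := mul_nonneg hu hE.le
  obtain ⟨k1, k2⟩ := H1 hq ((le_max_left _ _).trans hT) hNT hp hp' hη hb hh i n hi1 hi2
  have hzz : ∀ x : ℤ, |((x - z : ℤ) : ℝ)| ≤ |(x : ℝ) - ln35 μ s κ i| + wd μ s Tt := by
    intro x
    have e1 : ((x - z : ℤ) : ℝ) = ((x : ℝ) - ln35 μ s κ i) - ((z : ℝ) - ln35 μ s κ i) := by
      push_cast
      ring
    rw [e1]
    exact (abs_sub _ _).trans (by linarith)
  have en : ∀ P', 2 * P + 1 ≤ P' → ∀ I J : Finset ℤ, En31 P' (c / 8) c₂ (EE μ s Tt) (wd μ s Tt) (Λ + Q35 P q + 2 * u) σ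
      (fun x => (x : ℝ) - ln35 μ s κ i) (fun y => (y : ℝ) - ln35 μ s κ (i + n)) (K5 μ s h η p M i n) I J := by
    intro P' hP' I J
    refine ⟨by positivity, hσ.le, fun x y => mul_nonneg (wt_pos η i x).le (nk_nonneg hpp i n x y), fun x _ y _ => ?_, fun x => ?_⟩
    · have g1 := k1 x y
      rw [lat_ln, ← hΛ] at g1
      have g2 := RowG.wt_le (r := i) hR hw0 huE x
      obtain ⟨X, hX⟩ : ∃ X : ℝ, X = |(x : ℝ) - ln35 μ s κ i| / wd μ s Tt := ⟨_, rfl⟩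
      have hX0 : 0 ≤ X := by rw [hX]; positivity
      have g3 : |((x - z : ℤ) : ℝ)| / wd μ s Tt ≤ X + 1 := by
        rw [hX, div_add_one hw0.ne']
        exact div_le_div_of_nonneg_right (hzz x) hw0.le
      have g4 : 1 + Real.log (1 + |((x - z : ℤ) : ℝ)| / wd μ s Tt) ≤ 2 * gr P' X := by
        have e0 : 0 ≤ |((x - z : ℤ) : ℝ)| / wd μ s Tt := by positivity
        have e1 := Real.log_le_log (show 0 < 1 + |((x - z : ℤ) : ℝ)| / wd μ s Tt by linarith)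
          (show 1 + |((x - z : ℤ) : ℝ)| / wd μ s Tt ≤ (1 + X) * 2 by linarith)
        rw [Real.log_mul (by linarith) (by norm_num)] at e1
        have e2 : Real.log 2 ≤ 1 := by
          have := Real.log_two_lt_d9
          linarith
        have e3 := gr_pow_mono (show 1 ≤ P' by omega) hX0
        have e4 : gr 1 X = 1 + Real.log (1 + X) := by
          unfold gr
          rw [pow_one]
        have e5 := gr_one_le P' hX0
        rw [e4] at e3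
        linarith
      have g5 : gr (2 * P) X ≤ gr P' X := gr_pow_mono (by omega) hX0
      have g6 := gr_one_le P' hX0
      unfold K5
      refine (mul_le_mul g2 g1 (nk_nonneg hpp i n x y) (Real.exp_pos _).le).trans ?_
      rw [← Real.exp_add]
      refine Real.exp_le_exp.2 ?_
      have e1 : ((y : ℝ) - ln35 μ s κ (i + n)) - ((x : ℝ) - ln35 μ s κ i) = ((y - x : ℤ) : ℝ) - sl μ s * (n : ℝ) := by
        unfold ln35
        push_cast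
        ring
      have e2 : c / 8 * (EE μ s Tt / wd μ s Tt) = hc μ s c Tt / 8 := by
        unfold hc
        ring
      rw [← hX, e1, e2]
      have e3 := mul_le_mul_of_nonneg_right (mul_le_mul_of_nonneg_left g5 hLQ) hE.le
      have e4 := mul_le_mul_of_nonneg_left g4 huE
      have e5 := mul_le_mul_of_nonneg_right (mul_le_mul_of_nonneg_left g6 hQ0) hE.le
      linarith
    · have g1 := H3 Tt (((le_max_right _ _).trans (le_max_right _ _)).trans hT) (ln35 μ s κ (i + n) + ((x : ℝ) - ln35 μ s κ i)) J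
      refine (sum_le_sum fun y _ => le_of_eq ?_).trans g1
      congr 4
      ring
  refine ⟨en, fun x y hx hy => ?_, fun x δ hx => ?_⟩
  · -- the lower bound
    have g1 := k2 hθn 0 x y (by rw [sub_zero, lat_ln]; nlinarith) (by rw [sub_zero, lat_ln]; nlinarith)
    rw [abs_zero, zero_div, zero_add] at g1
    have g2 := RowG.le_wt (r := i) hR hw0 huE x
    have g3 : |((x - z : ℤ) : ℝ)| / wd μ s Tt ≤ ρ + 1 := by
      rw [div_le_iff₀ hw0]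
      exact (hzz x).trans (by linarith)
    have g4 : Real.log (1 + |((x - z : ℤ) : ℝ)| / wd μ s Tt) ≤ Real.log (ρ + 2) := by
      have e0 : 0 ≤ |((x - z : ℤ) : ℝ)| / wd μ s Tt := by positivity
      exact Real.log_le_log (by linarith) (by linarith)
    have g5 : Real.exp (-((C₆ * Q35 P q * gr (2 * P) K + u * (1 + Real.log (ρ + 2))) * EE μ s Tt)) ≤ K5 μ s h η p M i n x y := by
      unfold K5
      refine le_trans ?_ (mul_le_mul g2 g1 (Real.exp_pos _).le (wt_pos η i x).le)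
      rw [← Real.exp_add]
      refine Real.exp_le_exp.2 ?_
      have e4 := mul_le_mul_of_nonneg_left g4 huE
      nlinarith
    have g6 : 0 ≤ ((Λ + Q35 P q + 2 * u) * gr (2 * P + 1) ρ + 1) * EE μ s Tt := by positivity
    calc (1 : ℝ) = Real.exp ((C₆ * Q35 P q * gr (2 * P) K + u * (1 + Real.log (ρ + 2))) * EE μ s Tt) *
          Real.exp (-((C₆ * Q35 P q * gr (2 * P) K + u * (1 + Real.log (ρ + 2))) * EE μ s Tt)) := by
          rw [← Real.exp_add]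
          simp
      _ ≤ _ := mul_le_mul (Real.exp_le_exp.2 (by rw [add_mul _ ((Λ + Q35 P q + 2 * u) * gr (2 * P + 1) ρ + 1)]; linarith)) g5 (Real.exp_pos _).le (Real.exp_pos _).le
  · -- the mass
    have hen := en (2 * P + 1) le_rfl {x} δ
    have hX : |(x : ℝ) - ln35 μ s κ i| / wd μ s Tt ≤ ρ := by rwa [div_le_iff₀ hw0]
    have hX0 : 0 ≤ |(x : ℝ) - ln35 μ s κ i| / wd μ s Tt := by positivity
    have g1 := gr_mono (2 * P + 1) hX0 hX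
    have hq1 : 0 ≤ Λ + Q35 P q + 2 * u := by positivity
    have g2 : ∀ y ∈ δ, K5 μ s h η p M i n x y ≤ Real.exp ((Λ + Q35 P q + 2 * u) * gr (2 * P + 1) ρ * EE μ s Tt) *
        Real.exp (-(c₂ * (EE μ s Tt / wd μ s Tt) * |((y : ℝ) - ln35 μ s κ (i + n)) - ((x : ℝ) - ln35 μ s κ i)|)) := by
      intro y hy
      refine (hen.up x (mem_singleton_self x) y hy).trans ?_
      rw [← Real.exp_add]
      refine Real.exp_le_exp.2 ?_
      have e1 := mul_le_mul_of_nonneg_right (mul_le_mul_of_nonneg_left g1 hq1) hE.le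
      have e2 : c₂ * (EE μ s Tt / wd μ s Tt) * |((y : ℝ) - ln35 μ s κ (i + n)) - ((x : ℝ) - ln35 μ s κ i)| ≤
          c / 8 * (EE μ s Tt / wd μ s Tt) * |((y : ℝ) - ln35 μ s κ (i + n)) - ((x : ℝ) - ln35 μ s κ i)| :=
        mul_le_mul_of_nonneg_right (mul_le_mul_of_nonneg_right hc₂' (div_nonneg hE.le hw0.le)) (abs_nonneg _)
      linarith
    refine (sum_le_sum g2).trans ?_
    rw [← mul_sum]
    refine (mul_le_mul_of_nonneg_left (hen.sum x) (Real.exp_pos _).le).trans ?_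
    rw [← Real.exp_add]
    refine Real.exp_le_exp.2 ?_
    have e3 : 0 ≤ (C₆ * Q35 P q * gr (2 * P) K + u * (1 + Real.log (ρ + 2))) * EE μ s Tt := by
      have := Real.log_nonneg (show (1 : ℝ) ≤ ρ + 2 by linarith)
      positivity
    have e4 := mul_le_mul_of_nonneg_right hσ1 hE.le
    nlinarith

end

end Pool.Agent.W_7d29a1_C1.JnC35
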