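import Pool.Agent.W_7d29a1_C1.NumS7
import Pool.Agent.W_7d29a1_C1.JnC35

/-!
MP_7d29a1_pr, attractor route (helper8): **THE NUMBERS OF THE SET `So47`**. `sg8` : one definition for (S), (W) and the success: cells of the
row `c0` around the relative columns `u j i` (radius `rad j`), window of the row `c3` around the middle line of the box, envelope `kap31` of
the inside in relative columns, sizes in the unit `EE μ s (T (j + m₂))` of the outer ball. `cm j` : the relative column of the middle line.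
-/

set_option autoImplicit false

namespace Pool.Agent.W_7d29a1_C1.H8

open MeasureTheory Finset
open Pool.Agent.W_7d29a1_F Pool.Agent.W_7d29a1_h4g Pool.Agent.W_7d29a1_H Pool.Agent.W_7d29a1_HS
open Pool.Agent.W_7d29a1_C1.F74 (cl2)
open Pool.Agent.W_7d29a1_C1.U16 (lat16)
open Pool.Agent.W_7d29a1_C1.JnC35 (ln35)
open Pool.Agent.W_7d29a1_C1.D31 (kap31)
open Pool.Agent.W_7d29a1_C1.Fr47 (NS47)
open Pool.Agent.W_7d29a1_C1.So74 (mid)
open Pool.Agent.W_7d29a1_C1.N7 (Kap7)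

noncomputable section

/-- The column of the future at the row `c3`, relative. -/
def zc8 (μ : Measure ℝ) (s : ℝ) (T : ℕ → ℕ) (cm : ℕ → ℤ) (j : ℕ) : ℤ := cm j + ⌊sl μ s * ((T j : ℝ) + 1)⌋

/-- The half width of the window at the row `c3`. -/
def zw8 (μ : Measure ℝ) (s : ℝ) (T : ℕ → ℕ) (j : ℕ) : ℤ := ⌊wd μ s (T j) / 64⌋ + 1

/-- **THE NUMBERS OF `So47`.** -/
def sg8 (μ : Measure ℝ) (s : ℝ) (T : ℕ → ℕ) (cm : ℕ → ℤ) (u : ℕ → Bool → ℤ) (rad : ℕ → ℕ) (m₂ P : ℕ) (c₁ c₃ Q S phO vO v₁ g₂ : ℝ) :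
    NS47 where
  T := T
  α₁ := fun j => u j false - rad j
  β₁ := fun j => u j false + rad j
  α₂ := fun j => u j true - rad j
  β₂ := fun j => u j true + rad j
  ζa := fun j => zc8 μ s T cm j - zw8 μ s T j
  ζb := fun j => zc8 μ s T cm j + zw8 μ s T j
  ζc := zc8 μ s T cm
  κ := fun j => kap31 P c₁ c₃ Q S (EE μ s (T j)) (wd μ s (T j)) ((cm j : ℝ) + sl μ s * (1 - (T j : ℝ)))
    ((cm j : ℝ) + sl μ s * ((T j : ℝ) + 1)) (2 * T j)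
  Φ := fun j => Real.exp (phO * EE μ s (T (j + m₂)))
  V := fun j => Real.exp (vO * EE μ s (T (j + m₂)))
  e1 := fun j => Real.exp (-(v₁ * EE μ s (T (j + m₂))))
  e2 := fun j => Real.exp (-(g₂ * EE μ s (T (j + m₂))))

variable {μ : Measure ℝ} {s : ℝ} {T : ℕ → ℕ} {cm : ℕ → ℤ} {u : ℕ → Bool → ℤ} {rad : ℕ → ℕ} {m₂ P : ℕ} {c₁ c₃ Q S phO vO v₁ g₂ : ℝ}
  {j : ℕ} {z : ℕ × ℤ}

/-- **The envelope** in the letters of helper7. -/
theorem kap7_8 : Kap7 (sg8 μ s T cm u rad m₂ P c₁ c₃ Q S phO vO v₁ g₂) j P (2 * T j) c₁ c₃ Q S (EE μ s (T j)) (wd μ s (T j))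
    ((cm j : ℝ) + sl μ s * (1 - (T j : ℝ))) ((cm j : ℝ) + sl μ s * ((T j : ℝ) + 1)) := fun _ _ => rfl

/-! ### The cells -/

/-- The middles of the cells. -/
theorem mid8_1 (y : ℤ) : mid y ((sg8 μ s T cm u rad m₂ P c₁ c₃ Q S phO vO v₁ g₂).α₁ j) ((sg8 μ s T cm u rad m₂ P c₁ c₃ Q S phO vO v₁ g₂).β₁ j) =
    y + u j false := by
  show y + (u j false - (rad j : ℤ) + (u j false + (rad j : ℤ))) / 2 = _
  omega

theorem mid8_2 (y : ℤ) : mid y ((sg8 μ s T cm u rad m₂ P c₁ c₃ Q S phO vO v₁ g₂).α₂ j) ((sg8 μ s T cm u rad m₂ P c₁ c₃ Q S phO vO v₁ g₂).β₂ j) =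
    y + u j true := by
  show y + (u j true - (rad j : ℤ) + (u j true + (rad j : ℤ))) / 2 = _
  omega

/-- The widths of the cells. -/
theorem wid8_1 : (sg8 μ s T cm u rad m₂ P c₁ c₃ Q S phO vO v₁ g₂).β₁ j - (sg8 μ s T cm u rad m₂ P c₁ c₃ Q S phO vO v₁ g₂).α₁ j = 2 * rad j := by
  show u j false + (rad j : ℤ) - (u j false - (rad j : ℤ)) = _
  ring

theorem wid8_2 : (sg8 μ s T cm u rad m₂ P c₁ c₃ Q S phO vO v₁ g₂).β₂ j - (sg8 μ s T cm u rad m₂ P c₁ c₃ Q S phO vO v₁ g₂).α₂ j = 2 * rad j := by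
  show u j true + (rad j : ℤ) - (u j true - (rad j : ℤ)) = _
  ring

/-- **The cells**: within `rad j` of the middle. -/
theorem mem_cl8 {x y : ℤ} : x ∈ cl2 (y + (sg8 μ s T cm u rad m₂ P c₁ c₃ Q S phO vO v₁ g₂).α₁ j)
    (y + (sg8 μ s T cm u rad m₂ P c₁ c₃ Q S phO vO v₁ g₂).β₁ j) (y + (sg8 μ s T cm u rad m₂ P c₁ c₃ Q S phO vO v₁ g₂).α₂ j)
    (y + (sg8 μ s T cm u rad m₂ P c₁ c₃ Q S phO vO v₁ g₂).β₂ j) ↔ ∃ i : Bool, |x - (y + u j i)| ≤ (rad j : ℤ) := by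
  show x ∈ Icc (y + (u j false - (rad j : ℤ))) (y + (u j false + (rad j : ℤ))) ∪
    Icc (y + (u j true - (rad j : ℤ))) (y + (u j true + (rad j : ℤ))) ↔ _
  rw [mem_union, mem_Icc, mem_Icc]
  constructor
  · rintro (h | h)
    · exact ⟨false, by rw [abs_le]; omega⟩
    · exact ⟨true, by rw [abs_le]; omega⟩
  · rintro ⟨i, hi⟩
    rw [abs_le] at hi
    cases i
    · exact Or.inl (by omega)
    · exact Or.inr (by omega)

/-- One cell against a real radius: `rad j = ⌊ρ⌋₊`. -/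
theorem cell8 {ρ : ℝ} (hρ : 0 ≤ ρ) (hr : rad j = ⌊ρ⌋₊) {x y : ℤ} {i : Bool} :
    |x - (y + u j i)| ≤ (rad j : ℤ) ↔ |(x : ℝ) - ((u j i : ℝ) + y)| ≤ ρ := by
  have e : (x : ℝ) - ((u j i : ℝ) + y) = ((x - (y + u j i) : ℤ) : ℝ) := by
    push_cast
    ring
  rw [e, ← Int.cast_abs, hr]
  have h1 : (((|x - (y + u j i)|).toNat : ℕ) : ℤ) = |x - (y + u j i)| := Int.toNat_of_nonneg (abs_nonneg _)
  have h2 : ((|x - (y + u j i)| : ℤ) : ℝ) = (((|x - (y + u j i)|).toNat : ℕ) : ℝ) := by exact_mod_cast h1.symm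
  rw [h2]
  constructor
  · intro h
    have h3 : (|x - (y + u j i)|).toNat ≤ ⌊ρ⌋₊ := by omega
    exact (Nat.le_floor_iff hρ).1 h3
  · intro h
    have h3 := (Nat.le_floor_iff hρ).2 h
    omega

/-! ### The lines -/

/-- The line of the middle of the box at the seam row. -/
theorem ln8_c0 (hT : T j ≤ z.1) : ln35 μ s ((z.1 : ℤ), z.2 + cm j) ((sg8 μ s T cm u rad m₂ P c₁ c₃ Q S phO vO v₁ g₂).c0 j z) =
    (z.2 : ℝ) + ((cm j : ℝ) + sl μ s * (1 - (T j : ℝ))) := by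
  have e : (((sg8 μ s T cm u rad m₂ P c₁ c₃ Q S phO vO v₁ g₂).c0 j z : ℕ) : ℤ) - (z.1 : ℤ) = 1 - (T j : ℤ) := by
    show ((z.1 - T j + 1 : ℕ) : ℤ) - (z.1 : ℤ) = _
    omega
  unfold ln35
  rw [e]
  push_cast
  ring

/-- The line of the middle of the box at the row of the future. -/
theorem ln8_c3 : ln35 μ s ((z.1 : ℤ), z.2 + cm j) ((sg8 μ s T cm u rad m₂ P c₁ c₃ Q S phO vO v₁ g₂).c3 j z) =
    (z.2 : ℝ) + ((cm j : ℝ) + sl μ s * ((T j : ℝ) + 1)) := by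
  have e : (((sg8 μ s T cm u rad m₂ P c₁ c₃ Q S phO vO v₁ g₂).c3 j z : ℕ) : ℤ) - (z.1 : ℤ) = (T j : ℤ) + 1 := by
    show ((z.1 + T j + 1 : ℕ) : ℤ) - (z.1 : ℤ) = _
    push_cast
    ring
  unfold ln35
  rw [e]
  push_cast
  ring

/-- The column of the future is within one of the line. -/
theorem zc8_near : |((z.2 + (sg8 μ s T cm u rad m₂ P c₁ c₃ Q S phO vO v₁ g₂).ζc j : ℤ) : ℝ) -
    ln35 μ s ((z.1 : ℤ), z.2 + cm j) ((sg8 μ s T cm u rad m₂ P c₁ c₃ Q S phO vO v₁ g₂).c3 j z)| ≤ 1 := by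
  rw [ln8_c3]
  show |((z.2 + (cm j + ⌊sl μ s * ((T j : ℝ) + 1)⌋) : ℤ) : ℝ) - _| ≤ 1
  have f1 := Int.floor_le (sl μ s * ((T j : ℝ) + 1))
  have f2 := Int.lt_floor_add_one (sl μ s * ((T j : ℝ) + 1))
  push_cast
  rw [abs_le]
  constructor <;> linarith

/-- **The window is near the line.** -/
theorem win8 {v : ℤ} (h1 : z.2 + (sg8 μ s T cm u rad m₂ P c₁ c₃ Q S phO vO v₁ g₂).ζa j ≤ v)
    (h2 : v ≤ z.2 + (sg8 μ s T cm u rad m₂ P c₁ c₃ Q S phO vO v₁ g₂).ζb j) :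
    |(v : ℝ) - ln35 μ s ((z.1 : ℤ), z.2 + cm j) ((sg8 μ s T cm u rad m₂ P c₁ c₃ Q S phO vO v₁ g₂).c3 j z)| ≤ wd μ s (T j) / 64 + 2 := by
  rw [ln8_c3]
  have f1 := Int.floor_le (sl μ s * ((T j : ℝ) + 1))
  have f2 := Int.lt_floor_add_one (sl μ s * ((T j : ℝ) + 1))
  have f3 := Int.floor_le (wd μ s (T j) / 64)
  have h1' : ((z.2 + (cm j + ⌊sl μ s * ((T j : ℝ) + 1)⌋ - (⌊wd μ s (T j) / 64⌋ + 1)) : ℤ) : ℝ) ≤ v := Int.cast_le.2 h1
  have h2' : (v : ℝ) ≤ ((z.2 + (cm j + ⌊sl μ s * ((T j : ℝ) + 1)⌋ + (⌊wd μ s (T j) / 64⌋ + 1)) : ℤ) : ℝ) := Int.cast_le.2 h2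
  push_cast at h1' h2'
  rw [abs_le]
  constructor <;> linarith

/-- **The window contains the sites near the line.** -/
theorem mem_win8 {v : ℤ}
    (h : |(v : ℝ) - ln35 μ s ((z.1 : ℤ), z.2 + cm j) ((sg8 μ s T cm u rad m₂ P c₁ c₃ Q S phO vO v₁ g₂).c3 j z)| ≤ wd μ s (T j) / 64) :
    z.2 + (sg8 μ s T cm u rad m₂ P c₁ c₃ Q S phO vO v₁ g₂).ζa j ≤ v ∧ v ≤ z.2 + (sg8 μ s T cm u rad m₂ P c₁ c₃ Q S phO vO v₁ g₂).ζb j := by
  rw [ln8_c3, abs_le] at h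
  have f1 := Int.floor_le (sl μ s * ((T j : ℝ) + 1))
  have f2 := Int.lt_floor_add_one (sl μ s * ((T j : ℝ) + 1))
  have f4 := Int.lt_floor_add_one (wd μ s (T j) / 64)
  constructor
  · show z.2 + (cm j + ⌊sl μ s * ((T j : ℝ) + 1)⌋ - (⌊wd μ s (T j) / 64⌋ + 1)) ≤ v
    have h3 : ((z.2 + (cm j + ⌊sl μ s * ((T j : ℝ) + 1)⌋ - (⌊wd μ s (T j) / 64⌋ + 1)) : ℤ) : ℝ) < v + 1 := by
      push_cast
      linarith
    have h4 : z.2 + (cm j + ⌊sl μ s * ((T j : ℝ) + 1)⌋ - (⌊wd μ s (T j) / 64⌋ + 1)) < v + 1 := by exact_mod_cast h3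
    omega
  · show v ≤ z.2 + (cm j + ⌊sl μ s * ((T j : ℝ) + 1)⌋ + (⌊wd μ s (T j) / 64⌋ + 1))
    have h3 : (v : ℝ) < ((z.2 + (cm j + ⌊sl μ s * ((T j : ℝ) + 1)⌋ + (⌊wd μ s (T j) / 64⌋ + 1)) : ℤ) : ℝ) + 1 := by
      push_cast
      linarith
    have h4 : v < z.2 + (cm j + ⌊sl μ s * ((T j : ℝ) + 1)⌋ + (⌊wd μ s (T j) / 64⌋ + 1)) + 1 := by exact_mod_cast h3
    omega

/-! ### The columns of the cells -/

/-- The relative middles of the cells at the relative row `r` : the line `∓ (3/4) d w`. -/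
def uc8 (μ : Measure ℝ) (s d w : ℝ) (cm r : ℤ) (i : Bool) : ℤ := cm + ⌊(if i then 3 / 4 * d * w else -(3 / 4 * d * w)) + sl μ s * (r : ℝ)⌋

theorem uc8_near (d w : ℝ) (c r : ℤ) (i : Bool) :
    |(uc8 μ s d w c r i : ℝ) - (c + sl μ s * r + (if i then 3 / 4 * d * w else -(3 / 4 * d * w)))| ≤ 1 := by
  unfold uc8
  have f1 := Int.floor_le ((if i then 3 / 4 * d * w else -(3 / 4 * d * w)) + sl μ s * (r : ℝ))
  have f2 := Int.lt_floor_add_one ((if i then 3 / 4 * d * w else -(3 / 4 * d * w)) + sl μ s * (r : ℝ))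
  push_cast
  rw [abs_le]
  constructor <;> linarith

/-- The two middles are far apart. -/
theorem uc8_sep (d w : ℝ) (c r : ℤ) : (uc8 μ s d w c r false : ℝ) + (3 / 2 * d * w - 2) ≤ uc8 μ s d w c r true := by
  have h1 := (abs_le.1 (uc8_near (μ := μ) (s := s) d w c r false)).2
  have h2 := (abs_le.1 (uc8_near (μ := μ) (s := s) d w c r true)).1
  simp only [Bool.false_eq_true, if_false, if_true] at h1 h2
  linarith

end

end Pool.Agent.W_7d29a1_C1.H8
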