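import Pool.Agent.W_7d29a1_C1.SoP7
import Pool.Agent.W_7d29a1_C1.SgN8

/-!
MP_7d29a1_pr, [C1] SHELL, fresh ball, (S): **THE COLUMNS AND THE LETTERS OF `sg8` AT ONE LEVEL**. `colU93` : `Col7`. `sgU93` : `Sg7`. (helper93)
-/

set_option autoImplicit false

namespace Pool.Agent.W_7d29a1_C1.Nu93

open MeasureTheory Filter
open Pool.Agent.W_7d29a1_H Pool.Agent.W_7d29a1_HS
open Pool.Agent.W_7d29a1_C1.N7 (Col7 Kap7 Sg7)
open Pool.Agent.W_7d29a1_C1.H8 (sg8 uc8 uc8_near uc8_sep zc8 zw8 kap7_8)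

noncomputable section

variable {μ : Measure ℝ} {s : ℝ} {T : ℕ → ℕ} {cm : ℕ → ℤ} {u : ℕ → Bool → ℤ} {rad : ℕ → ℕ} {m₂ P : ℕ} {ck ce Qe Se phO vO v₁ g₂ : ℝ}
  {j : ℕ}

/-- **THE COLUMNS OF THE SET AT ONE LEVEL**: `D ≥ C₀ + 2 d + 3`. -/
theorem colU93 {C₀ d D : ℝ} (hu : ∀ b, u j b = uc8 μ s d (wd μ s (T j)) (cm j) (1 - (T j : ℤ)) b) (hC : 0 ≤ C₀) (hd : 0 < d)
    (hcm : |(cm j : ℝ)| ≤ C₀ * wd μ s (T j)) (hw : 1 ≤ wd μ s (T j)) (hdw : 8 ≤ d * wd μ s (T j))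
    (hrad : 2 * (rad j : ℝ) ≤ d * wd μ s (T j)) (hD : C₀ + 2 * d + 3 ≤ D) :
    Col7 μ s (sg8 μ s T cm u rad m₂ P ck ce Qe Se phO vO v₁ g₂) j D (wd μ s (T j)) := by
  obtain ⟨w, hwd⟩ : ∃ w : ℝ, w = wd μ s (T j) := ⟨_, rfl⟩
  obtain ⟨v, hv⟩ : ∃ v : ℝ, v = sl μ s := ⟨_, rfl⟩
  obtain ⟨cr, hcr⟩ : ∃ cr : ℝ, cr = (cm j : ℝ) := ⟨_, rfl⟩
  have s0 := uc8_sep (μ := μ) (s := s) d (wd μ s (T j)) (cm j) (1 - (T j : ℤ))
  have n0 := uc8_near (μ := μ) (s := s) d (wd μ s (T j)) (cm j) (1 - (T j : ℤ)) false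
  have n1 := uc8_near (μ := μ) (s := s) d (wd μ s (T j)) (cm j) (1 - (T j : ℤ)) true
  rw [← hu false, ← hu true] at s0
  rw [← hu false] at n0
  rw [← hu true] at n1
  simp only [Bool.false_eq_true, if_false, if_true] at n0 n1
  push_cast at n0 n1
  have f1 := Int.floor_le (sl μ s * ((T j : ℝ) + 1))
  have f2 := Int.lt_floor_add_one (sl μ s * ((T j : ℝ) + 1))
  have f3 := Int.floor_le (wd μ s (T j) / 64)
  have f4 := Int.lt_floor_add_one (wd μ s (T j) / 64)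
  clear hu
  rw [← hwd] at s0 n0 n1 f3 f4 hcm hw hdw hrad ⊢
  rw [← hv] at n0 n1 f1 f2
  rw [← hcr] at n0 n1 hcm
  rw [abs_le] at n0 n1 hcm
  have hr0 : (0 : ℝ) ≤ rad j := Nat.cast_nonneg _
  have hDw : (C₀ + 2 * d + 3) * w ≤ D * w := mul_le_mul_of_nonneg_right hD (by linarith)
  have e1 : (C₀ + 2 * d + 3) * w = C₀ * w + 2 * (d * w) + 3 * w := by ring
  rw [e1] at hDw
  have hdw0 : 0 < d * w := by linarith
  have e2 : 3 / 4 * d * w = 3 / 4 * (d * w) := by ring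
  have e3 : 3 / 2 * d * w = 3 / 2 * (d * w) := by ring
  rw [e2] at n0 n1
  rw [e3] at s0
  have hzc : |((cm j + ⌊v * ((T j : ℝ) + 1)⌋ : ℤ) : ℝ) - v * (1 + T j)| ≤ C₀ * w + 1 := by
    push_cast
    rw [← hcr, abs_le]
    constructor <;> linarith
  rw [abs_le] at hzc
  refine ⟨?_, ?_, ?_, ?_, ?_, ?_, ?_, ?_⟩
  · show u j false - (rad j : ℤ) ≤ u j false + (rad j : ℤ)
    omega
  · show u j false + (rad j : ℤ) < u j true - (rad j : ℤ)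
    have h1 : ((u j false + (rad j : ℤ) : ℤ) : ℝ) < ((u j true - (rad j : ℤ) : ℤ) : ℝ) := by
      push_cast
      linarith
    exact_mod_cast h1
  · show u j true - (rad j : ℤ) ≤ u j true + (rad j : ℤ)
    omega
  · show -(D * w) ≤ ((u j false - (rad j : ℤ) : ℤ) : ℝ) - sl μ s * (1 - (T j : ℝ))
    rw [← hv]
    push_cast
    linarith
  · show ((u j true + (rad j : ℤ) : ℤ) : ℝ) - sl μ s * (1 - (T j : ℝ)) ≤ D * w
    rw [← hv]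
    push_cast
    linarith
  · show |((cm j + ⌊sl μ s * ((T j : ℝ) + 1)⌋ : ℤ) : ℝ) - sl μ s * (1 + (T j : ℝ))| ≤ D * w
    rw [← hv, abs_le]
    constructor <;> linarith
  · show -(D * w) ≤ ((cm j + ⌊sl μ s * ((T j : ℝ) + 1)⌋ - (⌊wd μ s (T j) / 64⌋ + 1) : ℤ) : ℝ) - sl μ s * (1 + (T j : ℝ))
    rw [← hv, ← hwd]
    push_cast at hzc ⊢
    linarith
  · show ((cm j + ⌊sl μ s * ((T j : ℝ) + 1)⌋ + (⌊wd μ s (T j) / 64⌋ + 1) : ℤ) : ℝ) - sl μ s * (1 + (T j : ℝ)) ≤ D * w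
    rw [← hv, ← hwd]
    push_cast at hzc ⊢
    linarith

/-- **THE LETTERS OF THE SET AT ONE LEVEL.** -/
theorem sgU93 {C₀ d D : ℝ} (hu : ∀ b, u j b = uc8 μ s d (wd μ s (T j)) (cm j) (1 - (T j : ℤ)) b) (hC : 0 ≤ C₀) (hd : 0 < d)
    (hcm : |(cm j : ℝ)| ≤ C₀ * wd μ s (T j)) (hw : 1 ≤ wd μ s (T j)) (hdw : 8 ≤ d * wd μ s (T j))
    (hrad : 2 * (rad j : ℝ) ≤ d * wd μ s (T j)) (hD : C₀ + 2 * d + 3 ≤ D) :
    Sg7 μ s (sg8 μ s T cm u rad m₂ P ck ce Qe Se phO vO v₁ g₂) j (T j) (T (j + m₂)) P D ck ce Qe Se vO phO v₁ g₂ where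
  T := rfl
  col := colU93 hu hC hd hcm hw hdw hrad hD
  kap := by
    refine ⟨_, _, kap7_8, ?_, ?_⟩
    · have e : (cm j : ℝ) + sl μ s * (1 - (T j : ℝ)) + sl μ s * ((T j : ℝ) - 1) = cm j := by ring
      rw [e]
      refine hcm.trans (mul_le_mul_of_nonneg_right ?_ (by linarith))
      linarith
    · ring
  V := rfl
  Φ := rfl
  e1 := rfl
  e2 := rfl

end

end Pool.Agent.W_7d29a1_C1.Nu93
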