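import Pool.Agent.W_7d29a1_C1.CrB84

/-!
MP_7d29a1_pr, [C1]: **THE CONE OF THE STEEP STEPS AND THE RATIO OF THE GRID** (helper84). `cone84`: for every `ρ` there is `Kc` (a number of
`In` and `ρ`) such that for the ratio `K ≥ Kc` all slopes `2 ^ x`, `x ≤ (e / 2) (log n / log K) + j₀` (twice the number of the scales of the
grid and a constant) are in the cone at every height `T ≥ n ^ (ρ e / 4)`: `2 ^ x wd T ≤ δ T`, for `n` large.
-/

set_option autoImplicit false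

namespace Pool.Agent.W_7d29a1_C1.Cr84

open MeasureTheory ProbabilityTheory Filter Topology Finset
open Pool.Agent.W_7d29a1_F Pool.Agent.W_7d29a1_X Pool.Agent.W_7d29a1_h4g Pool.Agent.W_7d29a1_H
open Pool.Agent.W_7d29a1_HS (In wd)
open Pool.Agent.W_7d29a1_HZ (wd' wd'_pow)
open Pool.Agent.W_7d29a1_C1.Win84

noncomputable section

variable {μ : Measure ℝ} {s : ℝ} [IsProbabilityMeasure μ] {c C : ℝ} {n₀ : ℕ}

/-- **THE CONE AND THE RATIO.** -/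
theorem cone84 (h : In μ s c C n₀) {ρ : ℝ} (hρ : 0 < ρ) : ∃ Kc : ℕ, 2 ≤ Kc ∧ ∀ K : ℕ, Kc ≤ K → ∀ e : ℝ, 0 < e → ∀ (δ : ℝ) (j₀ : ℕ), 0 < δ →
    ∀ᶠ n : ℕ in atTop, ∀ x T : ℕ, (x : ℝ) ≤ e / 2 * (Real.log n / Real.log K) + j₀ → (n : ℝ) ^ (ρ * e / 4) ≤ T →
      2 ^ x * wd μ s T ≤ δ * T := by
  obtain ⟨a₁, K₁, ha₁, ha₁', hK₁, hwp⟩ := wd'_pow h
  obtain ⟨Kc, hKc⟩ := exists_nat_ge (Real.exp (8 * Real.log 2 / (a₁ * ρ)))
  have hl2 : 0 < Real.log 2 := Real.log_pos (by norm_num)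
  refine ⟨max Kc 2, le_max_right _ _, fun K hK e he δ j₀ hδ => ?_⟩
  have hK2 : 2 ≤ K := (le_max_right _ _).trans hK
  have hKR : Real.exp (8 * Real.log 2 / (a₁ * ρ)) ≤ (K : ℝ) := hKc.trans (by exact_mod_cast (le_max_left _ _).trans hK)
  have hK0 : (0 : ℝ) < K := by exact_mod_cast (show 0 < K by omega)
  have hlogK : 8 * Real.log 2 / (a₁ * ρ) ≤ Real.log K := (Real.le_log_iff_exp_le hK0).2 hKR
  have hlogK0 : 0 < Real.log K := lt_of_lt_of_le (by positivity) hlogK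
  have hw1 : 0 < wd' μ s 1 := by
    rw [wd'_eq' h le_rfl]
    exact h.wd_pos le_rfl
  obtain ⟨g, hg⟩ : ∃ g : ℝ, g = a₁ * ρ * e / 16 := ⟨_, rfl⟩
  have hg0 : 0 < g := by rw [hg]; positivity
  obtain ⟨A, hA⟩ : ∃ A : ℝ, A = 2 ^ j₀ * (K₁ * wd' μ s 1) / δ := ⟨_, rfl⟩
  filter_upwards [ev84 A hg0, eventually_ge_atTop 1] with n hn hn1 x T hx hT
  have hnR : (1 : ℝ) ≤ n := by exact_mod_cast hn1
  have hn0 : (0 : ℝ) < n := by linarith
  have hlogn : 0 ≤ Real.log n := Real.log_nonneg hnR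
  have hTR : (1 : ℝ) ≤ T := (Real.one_le_rpow hnR (by positivity)).trans hT
  have hT1 : 1 ≤ T := by exact_mod_cast hTR
  have hT0 : (0 : ℝ) < T := by linarith
  have h1 := (hwp 1 T le_rfl hT1).2.2
  rw [Nat.cast_one, div_one, wd'_eq' h hT1] at h1
  -- the slope
  have h2 : (2 : ℝ) ^ x ≤ (n : ℝ) ^ g * 2 ^ j₀ := by
    have e1 : (2 : ℝ) ^ x = Real.exp (Real.log 2 * x) := by
      rw [← Real.rpow_natCast, Real.rpow_def_of_pos (by norm_num)]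
    have e2 : (n : ℝ) ^ g * 2 ^ j₀ = Real.exp (Real.log n * g + Real.log 2 * j₀) := by
      rw [Real.exp_add, ← Real.rpow_def_of_pos hn0, ← Real.rpow_natCast (2 : ℝ) j₀, Real.rpow_def_of_pos (by norm_num : (0 : ℝ) < 2)]
    rw [e1, e2]
    refine Real.exp_le_exp.2 ?_
    have e3 : Real.log 2 * (e / 2 * (Real.log n / Real.log K)) ≤ Real.log n * g := by
      have e4 : Real.log 2 * (e / 2) / Real.log K ≤ g := by
        rw [div_le_iff₀ hlogK0, hg]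
        have e5 := mul_le_mul_of_nonneg_left hlogK (show 0 ≤ a₁ * ρ * e / 16 by positivity)
        have e6 : a₁ * ρ * e / 16 * (8 * Real.log 2 / (a₁ * ρ)) = Real.log 2 * (e / 2) := by
          field_simp
          ring
        linarith
      calc Real.log 2 * (e / 2 * (Real.log n / Real.log K)) = Real.log n * (Real.log 2 * (e / 2) / Real.log K) := by ring
        _ ≤ _ := mul_le_mul_of_nonneg_left e4 hlogn
    have e7 := mul_le_mul_of_nonneg_left hx hl2.le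
    rw [mul_add] at e7
    linarith
  -- the height
  have h3 : (n : ℝ) ^ g * (n : ℝ) ^ g ≤ (T : ℝ) ^ a₁ := by
    calc (n : ℝ) ^ g * (n : ℝ) ^ g = (n : ℝ) ^ (g + g) := (Real.rpow_add hn0 _ _).symm
      _ ≤ (n : ℝ) ^ (ρ * e / 4 * a₁) := Real.rpow_le_rpow_of_exponent_le hnR (by
          rw [hg]
          have : 0 < a₁ * ρ * e := by positivity
          linarith)
      _ = ((n : ℝ) ^ (ρ * e / 4)) ^ a₁ := Real.rpow_mul hn0.le _ _
      _ ≤ _ := Real.rpow_le_rpow (by positivity) hT ha₁.le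
  have h4 : 2 ^ j₀ * (K₁ * wd' μ s 1) ≤ (n : ℝ) ^ g * δ := by
    rw [hA, div_le_iff₀ hδ] at hn
    exact hn
  have hp := Real.rpow_pos_of_pos hT0 (1 - a₁)
  calc 2 ^ x * wd μ s T ≤ ((n : ℝ) ^ g * 2 ^ j₀) * (K₁ * (T : ℝ) ^ (1 - a₁) * wd' μ s 1) :=
        mul_le_mul h2 h1 (h.wd_nonneg T) (by positivity)
    _ = (2 ^ j₀ * (K₁ * wd' μ s 1)) * ((n : ℝ) ^ g * (T : ℝ) ^ (1 - a₁)) := by ring
    _ ≤ ((n : ℝ) ^ g * δ) * ((n : ℝ) ^ g * (T : ℝ) ^ (1 - a₁)) := mul_le_mul_of_nonneg_right h4 (by positivity)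
    _ = δ * ((n : ℝ) ^ g * (n : ℝ) ^ g * (T : ℝ) ^ (1 - a₁)) := by ring
    _ ≤ δ * ((T : ℝ) ^ a₁ * (T : ℝ) ^ (1 - a₁)) := mul_le_mul_of_nonneg_left (mul_le_mul_of_nonneg_right h3 hp.le) hδ.le
    _ = δ * T := by rw [← Real.rpow_add hT0, show a₁ + (1 - a₁) = 1 by ring, Real.rpow_one]

end

end Pool.Agent.W_7d29a1_C1.Cr84
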