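import Mathlib

/-!
Both halves (MP_7d29a1_pr), attractor route: SUMS SPLIT BETWEEN AN ENVIRONMENT AND ITS SHIFTS, abstract part (helper68).

`Shf T τ χ f ω = ∑ c ∈ T, (f c ω * χ c ω + f c (τ c ω) * (1 - χ c (τ c ω)))`, `τ c` measure preserving, `0 ≤ χ ≤ 1`.
-/

set_option autoImplicit false

namespace Pool.Agent.W_7d29a1_C1.Cor68

open MeasureTheory

variable {Ω : Type*} [MeasurableSpace Ω] {P : Measure Ω} {ι : Type*}

/-- The split sum. -/
noncomputable def Shf (T : Finset ι) (τ : ι → Ω → Ω) (χ f : ι → Ω → ℝ) (ω : Ω) : ℝ :=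
  ∑ c ∈ T, (f c ω * χ c ω + f c (τ c ω) * (1 - χ c (τ c ω)))

/-- The data: the shifts keep the measure, the weights are in `[0, 1]`. -/
structure SD (P : Measure Ω) (T : Finset ι) (τ : ι → Ω → Ω) (χ : ι → Ω → ℝ) : Prop where
  mp : ∀ c ∈ T, MeasurePreserving (τ c) P P
  mc : ∀ c ∈ T, Measurable (χ c)
  c0 : ∀ c ∈ T, ∀ ω, 0 ≤ χ c ω
  c1 : ∀ c ∈ T, ∀ ω, χ c ω ≤ 1

variable {T : Finset ι} {τ : ι → Ω → Ω} {χ f g V : ι → Ω → ℝ}

theorem SD.measurable (h : SD P T τ χ) (hf : ∀ c ∈ T, Measurable (f c)) : Measurable (Shf T τ χ f) :=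
  Finset.measurable_sum _ fun c hc => ((hf c hc).mul (h.mc c hc)).add
    (((hf c hc).comp (h.mp c hc).measurable).mul (measurable_const.sub ((h.mc c hc).comp (h.mp c hc).measurable)))

theorem SD.nonneg (h : SD P T τ χ) (hf : ∀ c ∈ T, ∀ ω, 0 ≤ f c ω) (ω : Ω) : 0 ≤ Shf T τ χ f ω :=
  Finset.sum_nonneg fun c hc => add_nonneg (mul_nonneg (hf c hc _) (h.c0 c hc _))
    (mul_nonneg (hf c hc _) (by have := h.c1 c hc (τ c ω); linarith))

theorem SD.abs_le (h : SD P T τ χ) (hV : ∀ c ∈ T, ∀ ω, |f c ω| ≤ V c ω) (ω : Ω) : |Shf T τ χ f ω| ≤ Shf T τ χ V ω := by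
  refine (Finset.abs_sum_le_sum_abs _ _).trans (Finset.sum_le_sum fun c hc => ?_)
  have h1 := h.c0 c hc ω
  have h2 : 0 ≤ 1 - χ c (τ c ω) := by have := h.c1 c hc (τ c ω); linarith
  refine (abs_add_le _ _).trans ?_
  rw [abs_mul, abs_mul, abs_of_nonneg h1, abs_of_nonneg h2]
  exact add_le_add (mul_le_mul_of_nonneg_right (hV c hc _) h1) (mul_le_mul_of_nonneg_right (hV c hc _) h2)

/-- The bound with a wild part. -/
theorem SD.le_add (h : SD P T τ χ) {ws R : ι → Ω → ℝ} {K : ℝ} (hR0 : ∀ c ∈ T, ∀ ω, 0 ≤ R c ω)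
    (hV : ∀ c ∈ T, ∀ ω, V c ω ≤ K * ws c ω + R c ω) (ω : Ω) :
    Shf T τ χ V ω ≤ K * Shf T τ χ ws ω + ∑ c ∈ T, (R c ω + R c (τ c ω)) := by
  unfold Shf
  rw [Finset.mul_sum, ← Finset.sum_add_distrib]
  refine Finset.sum_le_sum fun c hc => ?_
  have h1 := h.c0 c hc ω
  have h1' := h.c1 c hc ω
  have h3 := h.c0 c hc (τ c ω)
  have h2 : 0 ≤ 1 - χ c (τ c ω) := by have := h.c1 c hc (τ c ω); linarith
  have a1 := mul_le_mul_of_nonneg_right (hV c hc ω) h1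
  have a2 := mul_le_mul_of_nonneg_right (hV c hc (τ c ω)) h2
  have a3 : R c ω * χ c ω ≤ R c ω := mul_le_of_le_one_right (hR0 c hc ω) h1'
  have a4 : R c (τ c ω) * (1 - χ c (τ c ω)) ≤ R c (τ c ω) := mul_le_of_le_one_right (hR0 c hc _) (by linarith)
  nlinarith

/-- Each summand is integrable. -/
theorem SD.integrable (h : SD P T τ χ) {c : ι} (hc : c ∈ T) {u : Ω → ℝ} (hu : Integrable u P) :
    Integrable (fun ω => u ω * χ c ω) P ∧ Integrable (fun ω => u (τ c ω) * (1 - χ c (τ c ω))) P := by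
  have k : ∀ v : Ω → ℝ, Measurable v → (∀ ω, |v ω| ≤ 1) → Integrable (fun ω => u ω * v ω) P := fun v mv hv =>
    (hu.bdd_mul (c := 1) mv.aestronglyMeasurable (Filter.Eventually.of_forall fun ω => by
      rw [Real.norm_eq_abs]
      exact hv ω)).congr (Filter.Eventually.of_forall fun ω => mul_comm _ _)
  refine ⟨k _ (h.mc c hc) fun ω => ?_, ?_⟩
  · rw [_root_.abs_of_nonneg (h.c0 c hc ω)]
    exact h.c1 c hc ω
  · have i1 := k (fun ω => 1 - χ c ω) (measurable_const.sub (h.mc c hc)) fun ω => by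
      rw [_root_.abs_le]
      constructor
      · have := h.c1 c hc ω
        linarith
      · have := h.c0 c hc ω
        linarith
    exact ((h.mp c hc).integrable_comp i1.aestronglyMeasurable).2 i1

theorem SD.int (h : SD P T τ χ) (hf : ∀ c ∈ T, Integrable (f c) P) : Integrable (Shf T τ χ f) P :=
  integrable_finsetSum _ fun c hc => (h.integrable hc (hf c hc)).1.add (h.integrable hc (hf c hc)).2

/-- **The law does not see the shift**: the integral is the sum of the integrals. -/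
theorem SD.integral_eq (h : SD P T τ χ) (hf : ∀ c ∈ T, Integrable (f c) P) :
    ∫ ω, Shf T τ χ f ω ∂P = ∑ c ∈ T, ∫ ω, f c ω ∂P := by
  have i0 : ∀ c ∈ T, Integrable (fun ω => f c ω * χ c ω + f c (τ c ω) * (1 - χ c (τ c ω))) P := fun c hc =>
    (h.integrable hc (hf c hc)).1.add (h.integrable hc (hf c hc)).2
  unfold Shf
  rw [integral_finsetSum _ i0]
  refine Finset.sum_congr rfl fun c hc => ?_
  obtain ⟨i1, i2⟩ := h.integrable hc (hf c hc)
  rw [integral_add i1 i2]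
  have i3 : Integrable (fun ω => f c ω * (1 - χ c ω)) P := by
    have : (fun ω => f c ω * (1 - χ c ω)) = fun ω => f c ω - f c ω * χ c ω := funext fun ω => by ring
    rw [this]
    exact (hf c hc).sub i1
  have e1 : ∫ ω, f c (τ c ω) * (1 - χ c (τ c ω)) ∂P = ∫ ω, f c ω * (1 - χ c ω) ∂P := by
    have hm := (h.mp c hc)
    have := integral_map (μ := P) hm.measurable.aemeasurable (f := fun ω => f c ω * (1 - χ c ω))
      (by rw [hm.map_eq]; exact i3.aestronglyMeasurable)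
    rw [hm.map_eq] at this
    exact this.symm
  rw [e1, ← integral_add i1 i3]
  exact integral_congr_ae (Filter.Eventually.of_forall fun ω => by
    show _ = _
    ring)

/-- The square of the split sum is at most the number of the summands times the sum of the squares. -/
theorem SD.sq_le (h : SD P T τ χ) (f : ι → Ω → ℝ) (ω : Ω) :
    Shf T τ χ f ω ^ 2 ≤ 2 * T.card * ∑ c ∈ T, (f c ω ^ 2 + f c (τ c ω) ^ 2) := by
  have k1 : Shf T τ χ f ω ^ 2 ≤ T.card * ∑ c ∈ T, (f c ω * χ c ω + f c (τ c ω) * (1 - χ c (τ c ω))) ^ 2 := by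
    unfold Shf
    exact sq_sum_le_card_mul_sum_sq
  refine k1.trans ?_
  rw [mul_comm (2 : ℝ) (T.card : ℝ), mul_assoc, Finset.mul_sum (a := (2 : ℝ))]
  refine mul_le_mul_of_nonneg_left (Finset.sum_le_sum fun c hc => ?_) (Nat.cast_nonneg _)
  have h1 := h.c0 c hc ω
  have h1' := h.c1 c hc ω
  have h3 := h.c0 c hc (τ c ω)
  have h3' := h.c1 c hc (τ c ω)
  have a1 : (f c ω * χ c ω) ^ 2 ≤ f c ω ^ 2 := by
    rw [mul_pow]
    exact mul_le_of_le_one_right (sq_nonneg _) (pow_le_one₀ h1 h1')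
  have a2 : (f c (τ c ω) * (1 - χ c (τ c ω))) ^ 2 ≤ f c (τ c ω) ^ 2 := by
    rw [mul_pow]
    exact mul_le_of_le_one_right (sq_nonneg _) (pow_le_one₀ (by linarith) (by linarith))
  nlinarith [sq_nonneg (f c ω * χ c ω - f c (τ c ω) * (1 - χ c (τ c ω)))]

theorem SD.iRR (h : SD P T τ χ) {R : ι → Ω → ℝ} (hR2 : ∀ c ∈ T, Integrable (fun ω => R c ω ^ 2) P) :
    Integrable (fun ω => ∑ c ∈ T, (R c ω ^ 2 + R c (τ c ω) ^ 2)) P ∧
      ∫ ω, ∑ c ∈ T, (R c ω ^ 2 + R c (τ c ω) ^ 2) ∂P = 2 * ∑ c ∈ T, ∫ ω, R c ω ^ 2 ∂P := by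
  have i2 : ∀ c ∈ T, Integrable (fun ω => R c (τ c ω) ^ 2) P := fun c hc =>
    ((h.mp c hc).integrable_comp (hR2 c hc).aestronglyMeasurable).2 (hR2 c hc)
  have i3 : ∀ c ∈ T, Integrable (fun ω => R c ω ^ 2 + R c (τ c ω) ^ 2) P := fun c hc => (hR2 c hc).add (i2 c hc)
  refine ⟨integrable_finsetSum _ i3, ?_⟩
  rw [integral_finsetSum _ i3, Finset.mul_sum]
  refine Finset.sum_congr rfl fun c hc => ?_
  rw [integral_add (hR2 c hc) (i2 c hc)]
  have hm := (h.mp c hc)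
  have := integral_map (μ := P) hm.measurable.aemeasurable (f := fun ω => R c ω ^ 2)
    (by rw [hm.map_eq]; exact (hR2 c hc).aestronglyMeasurable)
  rw [hm.map_eq] at this
  rw [← this]
  ring

/-- The split sum of square integrable functions is square integrable. -/
theorem SD.int2 (h : SD P T τ χ) (hf : ∀ c ∈ T, Measurable (f c)) (hf2 : ∀ c ∈ T, Integrable (fun ω => f c ω ^ 2) P) :
    Integrable (fun ω => Shf T τ χ f ω ^ 2) P := by
  have i1 := (h.iRR hf2).1.const_mul (2 * (T.card : ℝ))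
  refine i1.mono' ((h.measurable hf).pow_const 2).aestronglyMeasurable (Filter.Eventually.of_forall fun ω => ?_)
  rw [Real.norm_eq_abs, _root_.abs_of_nonneg (sq_nonneg _)]
  exact h.sq_le f ω

/-- **THE SECOND MOMENT** of the bound of the split total functional. -/
theorem SD.sq_int (h : SD P T τ χ) {KW ws R : ι → Ω → ℝ} {K : ℝ} (hK : 0 ≤ K)
    (hKW0 : ∀ c ∈ T, ∀ ω, 0 ≤ KW c ω) (hR0 : ∀ c ∈ T, ∀ ω, 0 ≤ R c ω) (hKW : ∀ c ∈ T, ∀ ω, KW c ω ≤ K * ws c ω + R c ω)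
    (hR2 : ∀ c ∈ T, Integrable (fun ω => R c ω ^ 2) P) (hws2 : Integrable (fun ω => Shf T τ χ ws ω ^ 2) P) :
    ∫ ω, Shf T τ χ KW ω ^ 2 ∂P ≤ 2 * K ^ 2 * (∫ ω, Shf T τ χ ws ω ^ 2 ∂P) + 8 * T.card * ∑ c ∈ T, ∫ ω, R c ω ^ 2 ∂P := by
  obtain ⟨i1, e1⟩ := h.iRR hR2
  have hp : ∀ ω, Shf T τ χ KW ω ^ 2 ≤ 2 * K ^ 2 * Shf T τ χ ws ω ^ 2 + 4 * T.card * ∑ c ∈ T, (R c ω ^ 2 + R c (τ c ω) ^ 2) := by
    intro ω
    have b1 := h.le_add hR0 hKW ω
    have b0 := h.nonneg hKW0 ω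
    have b2 : (∑ c ∈ T, (R c ω + R c (τ c ω))) ^ 2 ≤ 2 * T.card * ∑ c ∈ T, (R c ω ^ 2 + R c (τ c ω) ^ 2) := by
      have k1 : (∑ c ∈ T, (R c ω + R c (τ c ω))) ^ 2 ≤ T.card * ∑ c ∈ T, (R c ω + R c (τ c ω)) ^ 2 := sq_sum_le_card_mul_sum_sq
      refine k1.trans ?_
      rw [mul_comm (2 : ℝ) (T.card : ℝ), mul_assoc, Finset.mul_sum (a := (2 : ℝ))]
      refine mul_le_mul_of_nonneg_left (Finset.sum_le_sum fun c hc => ?_) (Nat.cast_nonneg _)
      nlinarith [sq_nonneg (R c ω - R c (τ c ω))]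
    have b3 : Shf T τ χ KW ω ^ 2 ≤ (K * Shf T τ χ ws ω + ∑ c ∈ T, (R c ω + R c (τ c ω))) ^ 2 := pow_le_pow_left₀ b0 b1 2
    nlinarith [sq_nonneg (K * Shf T τ χ ws ω - ∑ c ∈ T, (R c ω + R c (τ c ω)))]
  have i2 : Integrable (fun ω => 2 * K ^ 2 * Shf T τ χ ws ω ^ 2) P := hws2.const_mul _
  have i3 : Integrable (fun ω => 4 * T.card * ∑ c ∈ T, (R c ω ^ 2 + R c (τ c ω) ^ 2)) P := i1.const_mul _
  refine (integral_mono_of_nonneg (Filter.Eventually.of_forall fun ω => sq_nonneg _) (i2.add i3)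
    (Filter.Eventually.of_forall hp)).trans (le_of_eq ((integral_add' i2 i3).trans ?_))
  rw [integral_const_mul, integral_const_mul, e1]
  ring

end Pool.Agent.W_7d29a1_C1.Cor68
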