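import Pool.Agent.W_7d29a1_C1.AsmE54
import Pool.Agent.W_7d29a1_C1.Yd67

/-!
Both halves (MP_7d29a1_pr), attractor route: THE ASSEMBLY BY CORNERS FROM ONE STATEMENT (helper68, over helper54 and helper67):
`LecQ μ s PhC ShC`, the result of the exchange for the split total functional.
-/

set_option autoImplicit false

namespace Pool.Agent.W_7d29a1_C1.H60

open MeasureTheory
open Pool.Agent.W_7d29a1_F Pool.Agent.W_7d29a1_h4g Pool.Agent.W_7d29a1_H Pool.Agent.W_7d29a1_HS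
open Pool.Agent.W_7d29a1_h47 (EM)
open Pool.Agent.W_7d29a1_C1.H54 (LMR54 PhC ShC lmr_corY54)
open Pool.Agent.W_7d29a1_C1.Ch87 (chiC)

variable {μ : Measure ℝ} [IsProbabilityMeasure μ] {s : ℝ} {c C : ℝ} {n₀ : ℕ}

/-- (Y), split, with the corner weights. -/
theorem yshC68 (h : In μ s c C n₀) (hN : H56.Nbr56 μ s) : YshP68 chiC μ s := Cut67.ysq67 h hN

/-- **THE WHOLE ASSEMBLY FROM ONE STATEMENT.** -/
theorem lmr_lec68 (h : In μ s c C n₀)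
    (hL : ∀ ε : ℝ, 0 < ε → ∃ n₁ : ℕ, ∀ n : ℕ, n₁ ≤ n → wd μ s n ≤ (n : ℝ) ^ ε * EE μ s n ^ 2)
    (hU : ∀ ε : ℝ, 0 < ε → ∃ n₁ : ℕ, ∀ n : ℕ, n₁ ≤ n → EE μ s n ^ 2 ≤ (n : ℝ) ^ ε * wd μ s n)
    (hLec : LecQ μ s PhC ShC) : LMR54 μ s :=
  lmr_corY54 h hL hU (yshC68 h (Nbr78.nbr78 h hL hU)) hLec

end Pool.Agent.W_7d29a1_C1.H60
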