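import Pool.Agent.W_7d29a1_C1.MovC71
import Pool.Agent.W_7d29a1_C1.GateS58
import Pool.Agent.W_7d29a1_C1.GateX87

/-!
MP_7d29a1_pr, attractor route, [C1] SEP: THE COMPARISON OF THE CONTACTS OF ONE CELL OVER THE CONCRETE GATE BLOCK. (helper71)

Gate block: base `(a, x0)`, rows `(a, a + 5 n]`, walls on `Sw` of GateL18, core `Co58`; the new content is in the rows `> a + 5 n`.
* `GwIn` : the data of one window (numbers, walls, events, side, third clause, luck `Luk` at the row `a + 5 n`), the same for all the contacts;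
* `GwIn.cw`, `GwIn.cwZ` : `CwIn` of MovC71 for every contact before the block (its own inputs: `core`, and `site` for `cw`);
* `K71`, `GwIn.num` : the constant of the comparison, the same for all the windows;
* `cmpG71`, `cmpN71` : the field `cmpA` of `In98` / `In25` (`cmpN71`: one datum per window, the windows with typical environments).
-/

set_option autoImplicit false

namespace Pool.Agent.W_7d29a1_C1.MC71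

open MeasureTheory Finset
open Pool.Agent.W_7d29a1_F Pool.Agent.W_7d29a1_h4g Pool.Agent.W_7d29a1_H Pool.Agent.W_7d29a1_HS Pool.Agent.W_7d29a1_HL
open Pool.Agent.W_7d29a1_C1.K91 (Grp Box wt wt_pos)
open Pool.Agent.W_7d29a1_C1.K91P (fw bw bw_pos fw_nonneg)
open Pool.Agent.W_7d29a1_C1.U16 (ker ker_nonneg ker_eq_zero ker_zero ker_succ lat16)
open Pool.Agent.W_7d29a1_C1.Gt66
open Pool.Agent.W_7d29a1_C1.H60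
open Pool.Agent.W_7d29a1_C1.GL18
open Pool.Agent.W_7d29a1_C1.G37 (Gm)
open Pool.Agent.W_7d29a1_C1.S71 (gl gl_of_mem gl_of_not_mem Off)
open Pool.Agent.W_7d29a1_C1.F31 (DecO FinO)
open Pool.Agent.W_7d29a1_C1.SD53 (Luk)
open Pool.Agent.W_7d29a1_C1.PW58 (InRows WallC58 kap kc Co58 lt lat_lt ep58 gtT58)
open Pool.Agent.W_7d29a1_C1.SF98 (XS wS Tx)
open scoped ENNReal

noncomputable section

attribute [local instance 10] Classical.propDecidable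

theorem sw_rows71 {μ : Measure ℝ} {s K₁ K₂ : ℝ} {n m a : ℕ} {x0 : ℤ} (hm : 2 * m ≤ n) :
    InRows a (5 * n) (Sw μ s K₁ K₂ n m ((a : ℤ), x0)) := by
  intro x hx
  have h1 := hx.1
  unfold Wr at h1
  rcases h1 with ⟨h1, h2⟩ | ⟨h1, h2⟩ <;> constructor <;> push_cast at h1 h2 ⊢ <;> omega

/-! ### One window -/

/-- **ONE WINDOW.** -/
structure GwIn (μ : Measure ℝ) (s : ℝ) (cr : ℝ) (Γ : Cx) (B B₂ : Set Pt) (K₁ K₂ : ℝ) (n m a b : ℕ) (x0 z₀ : ℤ)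
    (Cw : Pa (5 * n) → Pa (5 * n) → Set Env) (TF L : Set Env) (Lk : Env → Set Env) (Mi Mo : Set ℤ)
    (K Q U Yj A e₃ G₃ p₀ gA G Y : ℝ) (c₁ : ℝ≥0∞) : Prop where
  -- numbers
  n1 : 1 ≤ n
  m1 : 1 ≤ m
  m2 : 2 * m ≤ n
  w1 : 1 ≤ wd μ s n
  U0 : 0 ≤ U
  K12 : K₁ ≤ K₂
  K2K : K₂ + 2 ≤ K
  hN : a + 5 * n ≤ Γ.N
  p₀_pos : 0 < p₀
  e0 : 0 ≤ e₃
  G0 : 0 ≤ G₃
  heG : 3 * e₃ * G₃ ≤ 1
  hep : ep58 μ s Q U Yj A n m ≤ 1 / 2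
  -- geometry
  Sw_sub : Sw μ s K₁ K₂ n m ((a : ℤ), x0) ⊆ B
  B₂_sub : B₂ ⊆ B
  B₂_rows : ∀ x ∈ B₂, ((a + 5 * n : ℕ) : ℤ) < x.1
  slope : ∃ τ : ℝ, ∀ k, a ≤ k → k < a + 5 * n → Γ.p k = Real.exp (s + τ)
  -- walls
  walls : WallC58 μ (Sw μ s K₁ K₂ n m ((a : ℤ), x0)) a p₀ Cw
  cS : ∀ π π' η, η ∈ Cw π π' → ∀ (i : ℤ) (r : ℕ) (x : ℤ), (a : ℤ) ≤ i → i + r ≤ a + (5 * n : ℕ) → m - 1 ≤ r →
    cS μ s (Sw μ s K₁ K₂ n m ((a : ℤ), x0) \ Ex66 a π π') η (i, x) r ≤ Real.exp (-(A * EE μ s n))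
  -- events
  mTF : MeasurableSet TF
  dTF : DecO (Sw μ s K₁ K₂ n m ((a : ℤ), x0))ᶜ TF
  lo : TF ⊆ Lo18 μ s K₁ K₂ n m ((a : ℤ), x0) Q
  up : TF ⊆ Up18 μ s cr K n ((a : ℤ), x0) U
  jp : TF ⊆ Jp18 μ s K₂ n m ((a : ℤ), x0) Yj
  mL : MeasurableSet L
  mLk : ∀ ω, MeasurableSet (Lk ω)
  pLk : ∀ ω ∈ TF, c₁ ≤ law μ (Lk ω)
  toL : ∀ ω ∈ TF, ∀ η ∈ Lk ω, gl B₂ η ω ∈ L
  -- the sides and the third clause, every start before the block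
  side : ∀ ω ∈ TF, ∀ v, |lt μ s x0 (5 * n) v| ≤ K₁ * wd μ s n → ∀ i : Fin 3, ∀ y,
    ¬ |lt μ s x0 (rw3 n m i) y| ≤ (K₂ - 2) * wd μ s n →
      ker (wt ω) Γ.p (a + rw3 n m i) (5 * n - rw3 n m i) y v * bw (wt ω) Γ.p (a + 5 * n) (Γ.N - (a + 5 * n)) v ≤
        e₃ * bw (wt ω) Γ.p (a + rw3 n m i) (Γ.N - (a + rw3 n m i)) y
  hZ : ∀ ω ∈ TF, ∀ v, |lt μ s x0 (5 * n) v| ≤ K₁ * wd μ s n → ∀ (k : ℕ) (q : ℤ), k + 1 ≤ a →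
    Z1 (wt ω) Γ.p Γ.N a (5 * n) (Co58 μ s K₁ n x0) k q ≤
      G₃ * (ker (wt ω) Γ.p (k + 1) (a + 5 * n - (k + 1)) q v * bw (wt ω) Γ.p (a + 5 * n) (Γ.N - (a + 5 * n)) v)
  -- the luck behind the gate
  luk : ∀ ω ∈ TF, ∀ η ∈ Lk ω, Luk Γ (a + 5 * n) b Mi Mo Set.univ gA G Y ω (gl B₂ η ω)
  Mo_core : ∀ v ∈ Mo, |lt μ s x0 (5 * n) v| ≤ K₁ * wd μ s n
  z_Mi : z₀ ∈ Mi
  z_Mo : z₀ ∈ Mo

section one

variable {μ : Measure ℝ} {s cr Cr : ℝ} {n₀ : ℕ} {Γ : Cx} {B B₂ : Set Pt} {K₁ K₂ : ℝ} {n m a b : ℕ} {x0 z₀ : ℤ}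
  {Cw : Pa (5 * n) → Pa (5 * n) → Set Env} {T TF L : Set Env} {Lk : Env → Set Env} {Mi Mo : Set ℤ}
  {K Q U Yj A e₃ G₃ p₀ gA G Y C₀ e₁ : ℝ} {c₁ : ℝ≥0∞}

/-- **EVERY CONTACT OF THE WINDOW.** -/
theorem GwIn.cw [IsProbabilityMeasure μ] (h : In μ s cr Cr n₀)
    (H : GwIn μ s cr Γ B B₂ K₁ K₂ n m a b x0 z₀ Cw TF L Lk Mi Mo K Q U Yj A e₃ G₃ p₀ gA G Y c₁) (gA0 : 0 < gA) (Y0 : 0 ≤ Y)
    (hT : T ⊆ TF) {c : ℕ × ℤ} (hc : c ∈ Γ.rows 0 Γ.N) (inn : Inn Γ c) (hca : c.1 + 1 ≤ a) (he₁ : 0 < e₁)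
    (core : ∀ η ∈ T, bw (wt η) Γ.p (c.1 + 1) (Γ.N - (c.1 + 1)) c.2 ≤ C₀ * Z1 (wt η) Γ.p Γ.N a (5 * n) (Co58 μ s K₁ n x0) c.1 c.2)
    (site : ∀ ω ∈ TF, e₁ * SD53.bW Γ ω (c.1 + 1) c.2 ≤
      ker (wt ω) Γ.p (c.1 + 1) (a + 5 * n - (c.1 + 1)) c.2 z₀ * SD53.bW Γ ω (a + 5 * n) z₀) :
    CwIn μ Γ B B₂ (Sw μ s K₁ K₂ n m ((a : ℤ), x0)) a (5 * n) c (Co58 μ s K₁ n x0) Cw T TF L Lk Mo p₀ C₀ (12 / p₀) (e₁ * gA) Y c₁ where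
  hc := hc
  inn := inn
  hca := hca
  hN := H.hN
  S_rows := sw_rows71 H.m2
  S_sub := H.Sw_sub
  B₂_sub := H.B₂_sub
  B₂_rows := fun x hx => (H.B₂_rows x hx).le
  p₀_pos := H.p₀_pos
  g0 := div_nonneg (by norm_num) H.p₀_pos.le
  lam0 := mul_pos he₁ gA0
  Y0 := Y0
  walls := H.walls
  T_sub := hT
  mTF := H.mTF
  dTF := H.dTF
  mL := H.mL
  mLk := H.mLk
  pLk := fun ω hω => H.pLk ω hω.1
  toL := fun ω hω => H.toL ω hω.1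
  core := core
  gt := fun ω hω v hv y => by
    obtain ⟨τ, hτ⟩ := H.slope
    exact gtT58 h H.n1 H.m1 H.m2 H.w1 H.U0 H.K12 H.K2K H.hN (H.lo hω.1) (H.up hω.1) (H.jp hω.1) Γ.p_pos hτ hca H.p₀_pos
      (Cw := Cw) hω.2 (fun π π' hη i r x => H.cS π π' ω hη i r x) (H.Mo_core v hv) H.e0 H.G0 H.heG (H.side ω hω.1 v (H.Mo_core v hv))
      (H.hZ ω hω.1 v (H.Mo_core v hv) c.1 c.2 hca) H.hep y
  off := fun ω hω η hη => (H.luk ω hω.1 η hη).off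
  gain := fun ω hω η hη => gain_one inn hca H.hN H.z_Mo he₁.le gA0.le (site ω hω.1) ((H.luk ω hω.1 η hη).gain z₀ H.z_Mi)

/-- **The gain through one site of the mouth**, from the third clause (no total mass). -/
theorem gain_oneZ {a n : ℕ} {c : ℕ × ℤ} {Co : ℕ → ℤ → Prop} {ω ω' : Env} (hq : Inn Γ c) (hca : c.1 + 1 ≤ a) (hN : a + n ≤ Γ.N) {z : ℤ}
    (hz : z ∈ Mo) {e gA : ℝ} (hgA : 0 ≤ gA)
    (h1 : e * Z1 (wt ω) Γ.p Γ.N a n Co c.1 c.2 ≤ ker (wt ω) Γ.p (c.1 + 1) (a + n - (c.1 + 1)) c.2 z * SD53.bW Γ ω (a + n) z)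
    (h2 : gA * SD53.bW Γ ω (a + n) z ≤ SD53.bW Γ ω' (a + n) z) : e * gA * Z1 (wt ω) Γ.p Γ.N a n Co c.1 c.2 ≤
      ∑ v ∈ SD53.bx Γ Mo, ker (wt ω) Γ.p (c.1 + 1) (a + n - (c.1 + 1)) c.2 v * SD53.bW Γ ω' (a + n) v := by
  have K0 : ∀ v, 0 ≤ ker (wt ω) Γ.p (c.1 + 1) (a + n - (c.1 + 1)) c.2 v := fun v => ker_nonneg (wt_pos ω) Γ.p_pos _ _ _ _
  have B0 : ∀ v, 0 < SD53.bW Γ ω' (a + n) v := fun v => SD53.bW_pos Γ ω' _ v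
  have h4 : e * gA * Z1 (wt ω) Γ.p Γ.N a n Co c.1 c.2 ≤
      ker (wt ω) Γ.p (c.1 + 1) (a + n - (c.1 + 1)) c.2 z * SD53.bW Γ ω' (a + n) z := by
    calc e * gA * Z1 (wt ω) Γ.p Γ.N a n Co c.1 c.2 = gA * (e * Z1 (wt ω) Γ.p Γ.N a n Co c.1 c.2) := by ring
      _ ≤ gA * (ker (wt ω) Γ.p (c.1 + 1) (a + n - (c.1 + 1)) c.2 z * SD53.bW Γ ω (a + n) z) := mul_le_mul_of_nonneg_left h1 hgA
      _ = ker (wt ω) Γ.p (c.1 + 1) (a + n - (c.1 + 1)) c.2 z * (gA * SD53.bW Γ ω (a + n) z) := by ring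
      _ ≤ _ := mul_le_mul_of_nonneg_left h2 (K0 z)
  by_cases hz' : c.2 ≤ z ∧ z ≤ c.2 + ((a + n - (c.1 + 1) : ℕ) : ℤ)
  · have h5 : z ∈ SD53.bx Γ Mo := by
      unfold SD53.bx
      exact mem_filter.2 ⟨hq.box hca hN hz'.1 hz'.2, hz⟩
    exact h4.trans (single_le_sum (f := fun v => ker (wt ω) Γ.p (c.1 + 1) (a + n - (c.1 + 1)) c.2 v * SD53.bW Γ ω' (a + n) v)
      (fun v _ => mul_nonneg (K0 v) (B0 v).le) h5)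
  · rw [ker_eq_zero _ _ _ _ hz', zero_mul] at h4
    exact h4.trans (sum_nonneg fun v _ => mul_nonneg (K0 v) (B0 v).le)

/-- **EVERY CONTACT OF THE WINDOW, NO SITE CONDITION** (the gain from the third clause at `z₀`): `lam = gA / G₃`. -/
theorem GwIn.cwZ [IsProbabilityMeasure μ] (h : In μ s cr Cr n₀)
    (H : GwIn μ s cr Γ B B₂ K₁ K₂ n m a b x0 z₀ Cw TF L Lk Mi Mo K Q U Yj A e₃ G₃ p₀ gA G Y c₁) (gA0 : 0 < gA) (Y0 : 0 ≤ Y)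
    (hG₃ : 0 < G₃) (hT : T ⊆ TF) {c : ℕ × ℤ} (hc : c ∈ Γ.rows 0 Γ.N) (inn : Inn Γ c) (hca : c.1 + 1 ≤ a)
    (core : ∀ η ∈ T, bw (wt η) Γ.p (c.1 + 1) (Γ.N - (c.1 + 1)) c.2 ≤ C₀ * Z1 (wt η) Γ.p Γ.N a (5 * n) (Co58 μ s K₁ n x0) c.1 c.2) :
    CwIn μ Γ B B₂ (Sw μ s K₁ K₂ n m ((a : ℤ), x0)) a (5 * n) c (Co58 μ s K₁ n x0) Cw T TF L Lk Mo p₀ C₀ (12 / p₀) (gA / G₃) Y c₁ where
  hc := hc
  inn := inn
  hca := hca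
  hN := H.hN
  S_rows := sw_rows71 H.m2
  S_sub := H.Sw_sub
  B₂_sub := H.B₂_sub
  B₂_rows := fun x hx => (H.B₂_rows x hx).le
  p₀_pos := H.p₀_pos
  g0 := div_nonneg (by norm_num) H.p₀_pos.le
  lam0 := div_pos gA0 hG₃
  Y0 := Y0
  walls := H.walls
  T_sub := hT
  mTF := H.mTF
  dTF := H.dTF
  mL := H.mL
  mLk := H.mLk
  pLk := fun ω hω => H.pLk ω hω.1
  toL := fun ω hω => H.toL ω hω.1
  core := core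
  gt := fun ω hω v hv y => by
    obtain ⟨τ, hτ⟩ := H.slope
    exact gtT58 h H.n1 H.m1 H.m2 H.w1 H.U0 H.K12 H.K2K H.hN (H.lo hω.1) (H.up hω.1) (H.jp hω.1) Γ.p_pos hτ hca H.p₀_pos
      (Cw := Cw) hω.2 (fun π π' hη i r x => H.cS π π' ω hη i r x) (H.Mo_core v hv) H.e0 H.G0 H.heG (H.side ω hω.1 v (H.Mo_core v hv))
      (H.hZ ω hω.1 v (H.Mo_core v hv) c.1 c.2 hca) H.hep y
  off := fun ω hω η hη => (H.luk ω hω.1 η hη).off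
  gain := fun ω hω η hη => by
    have h1 := H.hZ ω hω.1 z₀ (H.Mo_core z₀ H.z_Mo) c.1 c.2 hca
    have h2 : 1 / G₃ * Z1 (wt ω) Γ.p Γ.N a (5 * n) (Co58 μ s K₁ n x0) c.1 c.2 ≤
        ker (wt ω) Γ.p (c.1 + 1) (a + 5 * n - (c.1 + 1)) c.2 z₀ * SD53.bW Γ ω (a + 5 * n) z₀ := by
      rw [div_mul_eq_mul_div, one_mul, div_le_iff₀ hG₃, mul_comm _ G₃]
      exact h1
    have h3 := gain_oneZ inn hca H.hN H.z_Mo gA0.le h2 ((H.luk ω hω.1 η hη).gain z₀ H.z_Mi)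
    rwa [one_div_mul_eq_div] at h3

end one

/-! ### The numbers -/

/-- The constant of the comparison. -/
def K71 (C₀ p₀ : ℝ) : ℝ≥0∞ := ENNReal.ofReal (C₀ ^ 2 * (2 / p₀) * (12 / p₀ + 1) ^ 2)

theorem K71_top (C₀ p₀ : ℝ) : K71 C₀ p₀ ≠ ⊤ := ENNReal.ofReal_ne_top

theorem K71_ne {C₀ p₀ : ℝ} (hC : 0 < C₀) (hp : 0 < p₀) : K71 C₀ p₀ ≠ 0 := by
  unfold K71
  have h1 : 0 < 12 / p₀ := div_pos (by norm_num) hp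
  have h2 : 0 < C₀ ^ 2 * (2 / p₀) * (12 / p₀ + 1) ^ 2 := by positivity
  exact (ENNReal.ofReal_pos.2 h2).ne'

theorem K71_num {C₀ p₀ lam Y : ℝ} (hC : 0 < C₀) (hp : 0 < p₀) (hlam : 0 < lam) (hY : 0 ≤ Y) (h : Y ≤ lam) :
    ENNReal.ofReal (C₀ ^ 2 * (2 / p₀)) * ENNReal.ofReal ((12 / p₀ + Y / lam) ^ 2) ≤ K71 C₀ p₀ := by
  have h1 : 0 < 12 / p₀ := div_pos (by norm_num) hp
  have h2 : 0 ≤ C₀ ^ 2 * (2 / p₀) := by positivity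
  rw [← ENNReal.ofReal_mul h2]
  refine ENNReal.ofReal_le_ofReal (mul_le_mul_of_nonneg_left ?_ h2)
  have h3 : Y / lam ≤ 1 := (div_le_one hlam).2 h
  have h4 : 0 ≤ Y / lam := div_nonneg hY hlam.le
  exact pow_le_pow_left₀ (by positivity) (by linarith) 2

/-! ### The field -/

/-- **THE FIELD `cmpA`** with uniform constants `C₀`, `p₀`, `c₁`. -/
theorem cmpG71 {μ : Measure ℝ} [IsProbabilityMeasure μ] {s cr Cr : ℝ} {n₀ : ℕ} (hin : In μ s cr Cr n₀) {Γ : Cx} (h : Γ.Ok) {G : Gm}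
    {mt : ℕ} {TT : ℝ → ℕ → ℤ × ℤ → Set Env} {L : ℕ → ℤ × ℤ → Set Env} {sl smax : ℕ → ℝ} {th be : ℕ → ℕ → ℝ} {b : ℕ → ℝ}
    {st : ℕ → ℕ → ℕ} {κ3 θ : ℝ≥0∞} {τ0 : ℕ} {C₀ p₀ : ℝ} {c c₁ : ℝ≥0∞} (hC : 0 < C₀) (hp : 0 < p₀) (hcc : c * K71 C₀ p₀ ≤ c₁)
    (hst : ∀ t i, (SF98.p98 Γ G mt th sl be b st κ3 θ).rg τ0 t i → t ≤ st t i)
    (H : ∀ u, τ0 < u → u < G.M → ∀ y : XS Γ G mt, Inn Γ y.1 → ∃ (B₂ : Set Pt) (K₁ K₂ : ℝ) (n m a bb : ℕ) (x0 z₀ : ℤ)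
      (Cw : Pa (5 * n) → Pa (5 * n) → Set Env) (TF : Set Env) (Lk : Env → Set Env) (Mi Mo : Set ℤ)
      (K Q U Yj A e₃ G₃ gA G' Y e₁ : ℝ),
      GwIn μ s cr Γ (G.win u (G.loc u y.1)) B₂ K₁ K₂ n m a bb x0 z₀ Cw TF (L u (G.loc u y.1)) Lk Mi Mo K Q U Yj A e₃ G₃ p₀ gA G' Y c₁ ∧
      0 < gA ∧ 0 ≤ Y ∧ 0 < e₁ ∧ Y ≤ e₁ * gA ∧ y.1.1 + 1 ≤ a ∧ Tx TT smax u (G.loc u y.1) ⊆ TF ∧
      (∀ η ∈ Tx TT smax u (G.loc u y.1), bw (wt η) Γ.p (y.1.1 + 1) (Γ.N - (y.1.1 + 1)) y.1.2 ≤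
        C₀ * Z1 (wt η) Γ.p Γ.N a (5 * n) (Co58 μ s K₁ n x0) y.1.1 y.1.2) ∧
      ∀ ω ∈ TF, e₁ * SD53.bW Γ ω (y.1.1 + 1) y.1.2 ≤
        ker (wt ω) Γ.p (y.1.1 + 1) (a + 5 * n - (y.1.1 + 1)) y.1.2 z₀ * SD53.bW Γ ω (a + 5 * n) z₀) :
    ∀ t i, (SF98.p98 Γ G mt th sl be b st κ3 θ).rg τ0 t i → ∀ u ∈ Ico (st t i) i, ∀ y : XS Γ G mt,
      ∀ ω ∈ Tx TT smax u (G.loc u y.1),
      c * ∫⁻ ξ, (Tx TT smax u (G.loc u y.1)).indicator (wS Γ G mt y) (G.R u (G.loc u y.1) ξ ω) ∂(law μ) ≤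
        ∫⁻ η, (L u (G.loc u y.1)).indicator (wS Γ G mt y) (G.R u (G.loc u y.1) η ω) ∂(law μ) := by
  refine cmpA71 h (K71_ne hC hp) (K71_top C₀ p₀) hst fun u hu hM y hq => ?_
  obtain ⟨B₂, K₁, K₂, n, m, a, bb, x0, z₀, Cw, TF, Lk, Mi, Mo, K, Q, U, Yj, A, e₃, G₃, gA, G', Y, e₁, H1, hgA, hY, he₁, hYl, hca, hT,
    hcore, hsite⟩ := H u hu hM y hq
  have hrow : y.1 ∈ Γ.rows 0 Γ.N := (mem_filter.1 y.2).1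
  exact ⟨B₂, _, a, 5 * n, _, Cw, TF, Lk, Mo, p₀, C₀, 12 / p₀, e₁ * gA, Y, c₁,
    H1.cw hin hgA hY hT hrow hq hca he₁ hcore hsite, hcc, K71_num hC hp (mul_pos he₁ hgA) hY hYl⟩

/-- **THE FIELD `cmpA`, ONE DATUM PER WINDOW** (only the windows with typical environments). -/
theorem cmpN71 {μ : Measure ℝ} [IsProbabilityMeasure μ] {Γ : Cx} (h : Γ.Ok) {G : Gm} {mt : ℕ} {TT : ℝ → ℕ → ℤ × ℤ → Set Env}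
    {L : ℕ → ℤ × ℤ → Set Env} {sl smax : ℕ → ℝ} {th be : ℕ → ℕ → ℝ} {b : ℕ → ℝ} {st : ℕ → ℕ → ℕ} {κ3 θ : ℝ≥0∞} {τ0 : ℕ}
    {c K : ℝ≥0∞} (hK0 : K ≠ 0) (hK : K ≠ ⊤)
    (hst : ∀ t i, (SF98.p98 Γ G mt th sl be b st κ3 θ).rg τ0 t i → t ≤ st t i)
    (H : ∀ u, τ0 < u → u < G.M → ∀ κ : ℤ × ℤ, (Tx TT smax u κ).Nonempty → ∃ (B₂ S : Set Pt) (a n : ℕ) (Co : ℕ → ℤ → Prop)
      (C : Pa n → Pa n → Set Env) (TF : Set Env) (Lk : Env → Set Env) (Mo : Set ℤ) (p₀ C₀ g lam Y : ℝ) (c₁ : ℝ≥0∞),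
      (∀ y : XS Γ G mt, G.loc u y.1 = κ → Inn Γ y.1 →
        CwIn μ Γ (G.win u κ) B₂ S a n y.1 Co C (Tx TT smax u κ) TF (L u κ) Lk Mo p₀ C₀ g lam Y c₁) ∧
      c * K ≤ c₁ ∧ ENNReal.ofReal (C₀ ^ 2 * (2 / p₀)) * ENNReal.ofReal ((g + Y / lam) ^ 2) ≤ K) :
    ∀ t i, (SF98.p98 Γ G mt th sl be b st κ3 θ).rg τ0 t i → ∀ u ∈ Ico (st t i) i, ∀ y : XS Γ G mt,
      ∀ ω ∈ Tx TT smax u (G.loc u y.1),
      c * ∫⁻ ξ, (Tx TT smax u (G.loc u y.1)).indicator (wS Γ G mt y) (G.R u (G.loc u y.1) ξ ω) ∂(law μ) ≤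
        ∫⁻ η, (L u (G.loc u y.1)).indicator (wS Γ G mt y) (G.R u (G.loc u y.1) η ω) ∂(law μ) := by
  intro t i hr u hu y ω hω
  have h1 := hst t i hr
  obtain ⟨h2, h3⟩ := mem_Ico.1 hu
  obtain ⟨h4, h5, h6⟩ := hr
  have h7 : i ≤ G.M := h6
  by_cases hq : Inn Γ y.1
  · obtain ⟨B₂, S, a, n, Co, C, TF, Lk, Mo, p₀, C₀, g, lam, Y, c₁, H1, H2, H3⟩ := H u (by omega) (by omega) _ ⟨ω, hω⟩
    exact (H1 y rfl hq).cmp' h hK0 hK H2 H3 ω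
  · have e : ∀ η, (Tx TT smax u (G.loc u y.1)).indicator (wS Γ G mt y) (G.R u (G.loc u y.1) η ω) = 0 := fun η => by
      have h8 : ∀ η', wS Γ G mt y η' = 0 := fun η' => by
        show ENNReal.ofReal (Γ.w y.1 η') = 0
        rw [w_zero hq h, ENNReal.ofReal_zero]
      by_cases h9 : G.R u (G.loc u y.1) η ω ∈ Tx TT smax u (G.loc u y.1)
      · rw [Set.indicator_of_mem h9, h8]
      · rw [Set.indicator_of_notMem h9]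
    simp only [e, lintegral_zero, mul_zero]
    exact zero_le

end

end Pool.Agent.W_7d29a1_C1.MC71
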