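import Pool.Agent.W_7d29a1_C1.PathW58
import Pool.Agent.W_7d29a1_C1.GateM58

/-!
MP_7d29a1_pr, attractor route, [C1] SEP: THE WALLS OFF TWO PATHS AS THE EVENTS `C` OF THE AVERAGE. (helper58)

`D58 Sw Ex` with `Ex ⊇` the sites of the two paths: measurable, decreasing, reads finitely many sites of `Sw` off the two paths,
probability `≥ p` (`walls58`). **`gateD58`**: `hgateT58` with these, any weight; **`gateC58`**: for the natural weight of a contact.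
-/

set_option autoImplicit false

namespace Pool.Agent.W_7d29a1_C1.PW58

open MeasureTheory ProbabilityTheory Finset
open Pool.Agent.W_7d29a1_F Pool.Agent.W_7d29a1_h4g Pool.Agent.W_7d29a1_H Pool.Agent.W_7d29a1_HS
open Pool.Agent.W_7d29a1_HR (Dec Fin')
open Pool.Agent.W_7d29a1_C1
open Pool.Agent.W_7d29a1_C1.S71
open Pool.Agent.W_7d29a1_C1.F31 (DecO FinO)
open Pool.Agent.W_7d29a1_C1.Wall66 (Gd)
open Pool.Agent.W_7d29a1_C1.K91 (Box Grp wt wt_pos measurable_wt)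
open Pool.Agent.W_7d29a1_C1.K91P
open Pool.Agent.W_7d29a1_C1.BP58
open Pool.Agent.W_7d29a1_C1.Gt66
open scoped ENNReal

noncomputable section

attribute [local instance 10] Classical.propDecidable

variable {μ : Measure ℝ} {s c C : ℝ} {n₀ n : ℕ}

/-- An event which reads the sites of `Q` only and finitely many sites reads finitely many sites of `Q`. -/
theorem finO58 {E : Set Env} (fE : Fin' E) {Q Fz : Set Pt} (oE : On20 Q E) (h : ∀ x ∈ Q, x ∉ Fz) : FinO Fz E := by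
  classical
  obtain ⟨D, hD⟩ := fE
  refine ⟨D.filter fun x => x ∈ Q, fun x hx => h x (Finset.mem_filter.1 hx).2, fun η η' hη => ?_⟩
  have h1 : η ∈ E ↔ gl Q η η' ∈ E := oE _ _ fun x hx => by
    unfold gl
    rw [if_pos hx]
  have h2 : gl Q η η' ∈ E ↔ η' ∈ E := hD _ _ fun x hx => by
    unfold gl
    split_ifs with hq
    · exact hη x (Finset.mem_filter.2 ⟨hx, hq⟩)
    · rfl
  exact h1.trans h2

/-- `DecO` with fewer frozen sites gives `DecO` with more. -/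
theorem DecO.mono58 {S S' : Set Pt} {A : Set Env} (h : DecO S A) (hS : S ⊆ S') : DecO S' A :=
  fun η η' h1 h2 h3 => h η η' h1 (fun x hx => h2 x (hS hx)) h3

theorem compl_sub_Fr (S : Set Pt) (a : ℕ) (π π' : Pa n) : Sᶜ ⊆ Fr S a π π' := fun _ h => Or.inl h

/-- The walls do not read the frozen sites. -/
theorem q_off58 {Sw Ex : Set Pt} {a : ℕ} {x0 : ℤ} {K T : ℕ} {π π' : Pa n} (hEx : sit a π ∪ sit a π' ⊆ Ex) :
    ∀ x ∈ Q58 Sw Ex ((a : ℤ), x0) K T, x ∉ Fr Sw a π π' := by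
  rintro x ⟨⟨h1, h2⟩, _⟩ (h3 | h3)
  · exact h3 h1
  · exact h2 (hEx h3)

/-- The events `C π π'` of the average: measurable, decreasing and finitely determined off the frozen sites, of probability `≥ p₀`. -/
structure WallC58 (μ : Measure ℝ) (S : Set Pt) (a : ℕ) (p₀ : ℝ) (C : Pa n → Pa n → Set Env) : Prop where
  m : ∀ π π', MeasurableSet (C π π')
  d : ∀ π π', DecO (Fr S a π π') (C π π')
  f : ∀ π π', FinO (Fr S a π π') (C π π')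
  p : ∀ π π', p₀ ≤ (law μ).real (C π π')

/-- **THE WALLS OFF TWO PATHS.** -/
theorem walls58 [IsProbabilityMeasure μ] (h : In μ s c C n₀) {R : ℝ} (hR : 0 ≤ R) {K : ℕ} (hK : 1 ≤ K) : ∃ B : ℝ, 0 ≤ B ∧
    ∀ A θ : ℝ, 0 < θ → ∃ p : ℝ, 0 < p ∧ ∃ n₁ : ℕ, ∀ T : ℕ, n₁ ≤ T → ∀ (a : ℕ) (x0 : ℤ) (Sw : Set Pt) (τ : ℕ),
      Sw ⊆ tb (sl μ s) ((a : ℤ), x0) (R * wd μ s T) → θ * T ≤ τ → ∀ (n : ℕ) (Ex : Pa n → Pa n → Set Pt),
      (∀ π π', sit a π ∪ sit a π' ⊆ Ex π π') →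
      WallC58 μ Sw a p fun π π' => D58 μ s Sw (Ex π π') ((a : ℤ), x0) K T τ θ A B := by
  obtain ⟨B, hB, h1⟩ := gateM58 (μ := μ) (s := s) h hR hK
  refine ⟨B, hB, fun A θ hθ => ?_⟩
  obtain ⟨p, hp, n₁, h2⟩ := h1 A θ hθ
  refine ⟨p, hp, n₁, fun T hT a x0 Sw τ hSw hτ n Ex hEx => ?_⟩
  have g := fun π π' => gd_D58 (μ := μ) (s := s) hSw (Ex π π') ((a : ℤ), x0) K T τ θ A B
  exact
    { m := fun π π' => (g π π').m
      d := fun π π' => DecO.of_dec (g π π').d _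
      f := fun π π' => finO58 (g π π').f (on_D58 Sw (Ex π π') ((a : ℤ), x0) K T τ θ A B) (q_off58 (hEx π π'))
      p := fun π π' => h2 T hT ((a : ℤ), x0) Sw (Ex π π') τ hSw hτ }

/-- **`hgateT58` WITH THE WALLS.** -/
theorem gateD58 [IsProbabilityMeasure μ] {p : ℕ → ℝ} {a N : ℕ} {P : Finset (Pa n)} {k : Env → ℤ → ℝ} {S B : Set Pt}
    (hp : ∀ i, 0 < p i) (hS : InRows a n S) (hSB : S ⊆ B) (k0 : ∀ η y, 0 ≤ k η y) (mk : ∀ y, Measurable fun η => k η y)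
    (hk : ∀ η η' : Env, (∀ x, x ∉ S → η x = η' x) → ∀ y, k η y = k η' y)
    {D : Env → ℝ} (mD : Measurable D) (hD : ∀ η, 0 < D η) (hDm : ∀ η η' : Env, (∀ x, η x ≤ η' x) → D η ≤ D η')
    {T TF : Set Env} (hTT : T ⊆ TF) (mTF : MeasurableSet TF) (hTF : DecO Sᶜ TF) {p₀ : ℝ} (hp₀ : 0 < p₀)
    {C : Pa n → Pa n → Set Env} (hW : WallC58 μ S a p₀ C) {w₀ Zc : Env → ℝ} (w₀0 : ∀ η, 0 ≤ w₀ η) (mw₀ : Measurable w₀)
    (hw₀ : ∀ η η' : Env, (∀ x, x ∉ S → η x = η' x) → w₀ η = w₀ η') {K : ℝ}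
    (ω : Env) (hK : ∀ ξ, w₀ (gl B ξ ω) * (∑ π ∈ P, kap p a N k π (gl B ξ ω)) ^ 2 ≤ K * D (gl B ξ ω))
    {C₀ : ℝ} (hZ : ∀ η, 0 ≤ Zc η) (hcore : ∀ η ∈ T, Zc η ≤ C₀ * ∑ π ∈ P, kap p a N k π η) :
    ∫⁻ ξ, T.indicator (fun η => ENNReal.ofReal (w₀ η * Zc η ^ 2 / D η)) (gl B ξ ω) ∂(law μ) ≤
      ENNReal.ofReal (C₀ ^ 2 * (2 / p₀)) * ∫⁻ ξ, (TF ∩ Gd66 P (kap p a N k) C (p₀ / 2)).indicator
        (fun η => ENNReal.ofReal (w₀ η * (∑ π ∈ P, kap p a N k π η) ^ 2 / D η)) (gl B ξ ω) ∂(law μ) :=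
  hgateT58 hp hS hSB k0 mk hk mD hD hDm hTT mTF (fun π _ π' _ => DecO.mono58 hTF (compl_sub_Fr S a π π')) hW.m
    (fun π _ π' _ => hW.d π π') (fun π _ π' _ => hW.f π π') hp₀ (fun π _ π' _ => hW.p π π') w₀0 mw₀ hw₀ ω hK hZ hcore

/-! ### The natural weight of a contact -/

variable {Γ : H60.Cx}

/-- The core mass of the contact. -/
def z1 (Γ : H60.Cx) (c : ℕ × ℤ) (a : ℕ) (P : Finset (Pa n)) (η : Env) : ℝ :=
  ∑ π ∈ P, kap Γ.p a Γ.N (kc Γ.p (c.1 + 1) a c.2) π η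

/-- The core part of the natural weight. -/
def wcore (Γ : H60.Cx) (c : ℕ × ℤ) (a : ℕ) (P : Finset (Pa n)) (η : Env) : ℝ := w0 Γ c η * z1 Γ c a P η ^ 2 / (Γ.ZM η * Γ.ZR η)

theorem z1_nonneg (c : ℕ × ℤ) (a : ℕ) (P : Finset (Pa n)) (η : Env) : 0 ≤ z1 Γ c a P η :=
  sum_nonneg fun π _ => kap_nonneg (H60.Cx.p_pos Γ) (fun η y => kc_nonneg (H60.Cx.p_pos Γ) _ _ _ η y) π η

theorem z1_le {c : ℕ × ℤ} {a : ℕ} (hca : c.1 + 1 ≤ a) (hN : a + n ≤ Γ.N) (Co : ℕ → ℤ → Prop) {I : Finset ℤ}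
    (hI : ∀ y ∈ I, c.2 ≤ y ∧ y ≤ c.2 + (a - (c.1 + 1) : ℕ)) (η : Env) : z1 Γ c a (Ps Co I n) η ≤ zc Γ c η :=
  sum_kap (H60.Cx.p_pos Γ) hca hN c.2 I hI η

theorem wcore_nonneg (h : Γ.Ok) (c : ℕ × ℤ) (a : ℕ) (P : Finset (Pa n)) (η : Env) : 0 ≤ wcore Γ c a P η :=
  div_nonneg (mul_nonneg (w0_nonneg h c η) (sq_nonneg _)) (D_pos h η).le

theorem wcore_le (h : Γ.Ok) {c : ℕ × ℤ} {a : ℕ} (hca : c.1 + 1 ≤ a) (hN : a + n ≤ Γ.N) (Co : ℕ → ℤ → Prop) {I : Finset ℤ}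
    (hI : ∀ y ∈ I, c.2 ≤ y ∧ y ≤ c.2 + (a - (c.1 + 1) : ℕ)) (η : Env) : wcore Γ c a (Ps Co I n) η ≤ Γ.w c η := by
  rw [w_eq]
  exact div_le_div_of_nonneg_right (mul_le_mul_of_nonneg_left (pow_le_pow_left₀ (z1_nonneg c a _ η) (z1_le hca hN Co hI η) 2)
    (w0_nonneg h c η)) (D_pos h η).le

/-- The prefactor reads no site of the rows above the contact. -/
theorem w0_off {c : ℕ × ℤ} {a : ℕ} (hca : c.1 + 1 ≤ a) {S : Set Pt} (hS : InRows a n S) (η η' : Env)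
    (h : ∀ x, x ∉ S → η x = η' x) : w0 Γ c η = w0 Γ c η' := by
  have e : gl S η η' = η := funext fun x => by
    unfold gl
    split_ifs with hx
    · rfl
    · exact (h x hx).symm
  rw [← e]
  exact w0_gl (fun x hx => by
    have := (hS x hx).1
    omega) η η'

theorem measurable_w0 (c : ℕ × ℤ) : Measurable (w0 Γ c) := by
  unfold w0 dp
  exact (((meas_fw _ _ _).mul (meas_fw _ _ _)).sub ((meas_fw _ _ _).mul (meas_fw _ _ _))).mul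
    (measurable_const.mul ((measurable_wt _ _).mul (measurable_wt _ _)))

/-- **THE GATE IN THE AVERAGE FOR A CONTACT OF A CONTEXT.** Any frozen rest `ω` of a window `B` above the row of the contact. -/
theorem gateC58 [IsProbabilityMeasure μ] (h : Γ.Ok) {c : ℕ × ℤ} (hc : c ∈ Γ.rows 0 Γ.N) {a : ℕ} (hca : c.1 + 1 ≤ a) (hN : a + n ≤ Γ.N)
    {Co : ℕ → ℤ → Prop} {I : Finset ℤ} (hI : ∀ y ∈ I, c.2 ≤ y ∧ y ≤ c.2 + (a - (c.1 + 1) : ℕ)) {S B : Set Pt} (hS : InRows a n S)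
    (hSB : S ⊆ B) {T TF : Set Env} (hTT : T ⊆ TF) (mTF : MeasurableSet TF) (hTF : DecO Sᶜ TF) {p₀ : ℝ} (hp₀ : 0 < p₀)
    {C : Pa n → Pa n → Set Env} (hW : WallC58 μ S a p₀ C) {C₀ : ℝ} (hcore : ∀ η ∈ T, zc Γ c η ≤ C₀ * z1 Γ c a (Ps Co I n) η) (ω : Env) :
    ∫⁻ ξ, T.indicator (fun η => ENNReal.ofReal (Γ.w c η)) (gl B ξ ω) ∂(law μ) ≤
      ENNReal.ofReal (C₀ ^ 2 * (2 / p₀)) *
        ∫⁻ ξ, (TF ∩ Gd66 (Ps Co I n) (kap Γ.p a Γ.N (kc Γ.p (c.1 + 1) a c.2)) C (p₀ / 2)).indicator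
          (fun η => ENNReal.ofReal (wcore Γ c a (Ps Co I n) η)) (gl B ξ ω) ∂(law μ) := by
  have e : (fun η => ENNReal.ofReal (Γ.w c η)) = fun η => ENNReal.ofReal (w0 Γ c η * zc Γ c η ^ 2 / (Γ.ZM η * Γ.ZR η)) :=
    funext fun η => by rw [w_eq]
  rw [e]
  have hp := H60.Cx.p_pos Γ
  refine gateD58 (N := Γ.N) hp hS hSB (fun η y => kc_nonneg hp _ _ _ η y) (measurable_kc (p := Γ.p) (c.1 + 1) a c.2)
    (fun η η' hη y => kc_off hca hS c.2 η η' hη y) (D := fun η => Γ.ZM η * Γ.ZR η) ((H60.Cx.meas_ZM Γ).mul (H60.Cx.meas_ZR Γ))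
    (D_pos h) (fun η η' hη => D_mono h hη) hTT mTF hTF hp₀ hW (w₀ := w0 Γ c) (Zc := zc Γ c) (w0_nonneg h c) (measurable_w0 c)
    (w0_off hca hS) (K := 1) ω (fun ξ => ?_) (fun η => (zc_pos c η).le) hcore
  have h1 := H60.Cx.w_le_one h hc (gl B ξ ω)
  rw [w_eq, div_le_one (D_pos h _)] at h1
  rw [one_mul]
  exact (mul_le_mul_of_nonneg_left (pow_le_pow_left₀ (z1_nonneg c a (Ps Co I n) _) (z1_le hca hN Co hI _) 2) (w0_nonneg h c _)).trans h1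

end

end Pool.Agent.W_7d29a1_C1.PW58
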