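import Pool.Agent.W_7d29a1_C1.NumG66
import Pool.Agent.W_7d29a1_C1.GateC18
import Pool.Agent.W_7d29a1_C1.GateX87
import Pool.Agent.W_7d29a1_C1.GeoE37
import Pool.Agent.W_7d29a1_C1.PathD58

/-!
MP_7d29a1_pr, attractor route, [C1] SEP: THE GATE BLOCK OF ONE WINDOW: geometry and set theory (no probability). (helper42)

Window `(u, κ)` of `G : Gm`, block of `5 n` rows above the natural row `k` (`ra - 1 ≤ k`, `k + 5 n + 1 ≤ re`), base point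
`pt = ((k : ℤ), ⌊ctr + v k⌋)` (helper98's `pt98`).
* `lat_pt42`: lateral coordinate from the base against `lat - ctr` (difference in `[0, 1)`); `con_lat42`: the contact;
* `sw_win42`, `sw_rows42`, `sw_tb42`: the wall sites `Sw` lie in the window, in the rows of the block, in the tube `R w`;
* `con_row42`, `rows42`, `ra_re42`: rows of the contact, of the window;
* the set `TF66 ∩ (Co18 ∩ X87)` of the block: `gt_meas42`, `gt_dec42` (`DecO Swᶜ`), `gt_rows42` (reads the rows of the block), `gt_gl42`; the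
  same with a further set `E`: `gtE_meas42`, `gtE_dec42`, `gtE_gl42`.
-/

set_option autoImplicit false

namespace Pool.Agent.W_7d29a1_C1.MJ42

open MeasureTheory
open Pool.Agent.W_7d29a1_F Pool.Agent.W_7d29a1_h4g Pool.Agent.W_7d29a1_H Pool.Agent.W_7d29a1_HS
open Pool.Agent.W_7d29a1_C1.K91 (wt)
open Pool.Agent.W_7d29a1_C1.U16 (lat16)
open Pool.Agent.W_7d29a1_C1.GL18
open Pool.Agent.W_7d29a1_C1.Gt66 (TF66 X87 meas_X87 off_X87)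
open Pool.Agent.W_7d29a1_C1.G37 (Gm)
open Pool.Agent.W_7d29a1_C1.PW58 (InRows)
open Pool.Agent.W_7d29a1_C1.S71 (Off gl gl_of_mem gl_of_not_mem)
open Pool.Agent.W_7d29a1_C1.F31 (DecO)

noncomputable section

variable {μ : Measure ℝ} {s c : ℝ} {G : Gm} {u : ℕ} {κ : ℤ × ℤ}

/-! ### The base point -/

/-- The column of the base row. -/
theorem x0_42 (k : ℕ) : G.ctr u κ - 1 < ((⌊G.ctr u κ + G.v * (k : ℝ)⌋ : ℤ) : ℝ) - G.v * k ∧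
    ((⌊G.ctr u κ + G.v * (k : ℝ)⌋ : ℤ) : ℝ) - G.v * k ≤ G.ctr u κ := by
  have f1 := Int.floor_le (G.ctr u κ + G.v * (k : ℝ))
  have f2 := Int.lt_floor_add_one (G.ctr u κ + G.v * (k : ℝ))
  constructor <;> linarith

/-- **The lateral coordinate from the base, and the one from the centre of the cell.** -/
theorem lat_pt42 (hv : G.v = sl μ s) (k r : ℕ) (y : ℤ) :
    G.lat (r, y) - G.ctr u κ ≤ lat16 μ s ((k : ℤ), ⌊G.ctr u κ + G.v * (k : ℝ)⌋) ((r : ℤ), y) ∧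
      lat16 μ s ((k : ℤ), ⌊G.ctr u κ + G.v * (k : ℝ)⌋) ((r : ℤ), y) < G.lat (r, y) - G.ctr u κ + 1 := by
  obtain ⟨h1, h2⟩ := x0_42 (G := G) (u := u) (κ := κ) k
  unfold lat16 Gm.lat
  rw [← hv]
  push_cast
  constructor <;> linarith

/-- The contact. -/
theorem con_lat42 (hv : G.v = sl μ s) (k : ℕ) (c : ℕ × ℤ) :
    |lat16 μ s ((k : ℤ), ⌊G.ctr u (G.loc u c) + G.v * (k : ℝ)⌋) ((c.1 : ℤ), c.2)| ≤ (G.g u : ℝ) / 2 + 1 := by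
  obtain ⟨h1, h2⟩ := lat_pt42 (u := u) (κ := G.loc u c) hv k c.1 c.2
  have h3 : |G.lat (c.1, c.2) - G.ctr u (G.loc u c)| ≤ (G.g u : ℝ) / 2 := G.lat_ctr u c
  rw [abs_le] at h3 ⊢
  constructor <;> linarith [h3.1, h3.2]

/-! ### Rows -/

theorem ra_pos42 (u : ℕ) (κ : ℤ × ℤ) : 1 ≤ G.ra u κ := by
  unfold Gm.ra
  omega

/-- The window has many rows. -/
theorem rows42 (hu : 1 ≤ u) : 7 * G.T u ≤ 8 * (G.T u - G.T (u - 1)) := by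
  obtain ⟨v, rfl⟩ : ∃ v, u = v + 1 := ⟨u - 1, by omega⟩
  have h1 := G.T_succ v
  rw [Nat.add_sub_cancel]
  omega

theorem ra_re42 (hu : 1 ≤ u) : 7 * G.T u ≤ 8 * (G.re u κ - G.ra u κ) := by
  rw [G.re_sub_ra]
  exact rows42 hu

/-- The contact is below the window. -/
theorem con_row42 (u : ℕ) (c : ℕ × ℤ) : c.1 + 1 ≤ G.ra u (G.loc u c) - 1 := by
  have := G.row_lt_ra u c
  omega

/-! ### The wall sites -/

/-- **THE WALL SITES LIE IN THE WINDOW.** -/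
theorem sw_win42 (hv : G.v = sl μ s) (h0 : 0 ≤ G.rcc u κ) {K₁ K₂ : ℝ} {k n m : ℕ} (hk : G.ra u κ ≤ k + 1) (hk' : k + 5 * n + 1 ≤ G.re u κ)
    (hm : 2 * m ≤ n) (hK : K₂ * wd μ s n + 1 ≤ G.kw * G.w u) :
    Sw μ s K₁ K₂ n m ((k : ℤ), ⌊G.ctr u κ + G.v * (k : ℝ)⌋) ⊆ G.win u κ := by
  intro p hp
  have e1 := G.ra_cast h0
  have e2 := G.re_cast h0
  have b1 : ((G.base u κ).1 : ℝ) = (G.rcc u κ : ℝ) + (G.T (u - 1) : ℝ) := by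
    show ((G.rcc u κ + G.T (u - 1) : ℤ) : ℝ) = _
    push_cast
    ring
  have f1 := Int.floor_le (G.ctr u κ + G.v * ((G.rcc u κ : ℝ) + (G.T (u - 1) : ℝ)))
  have f2 := Int.lt_floor_add_one (G.ctr u κ + G.v * ((G.rcc u κ : ℝ) + (G.T (u - 1) : ℝ)))
  have b2 : ((G.base u κ).2 : ℝ) = (⌊G.ctr u κ + G.v * ((G.rcc u κ : ℝ) + (G.T (u - 1) : ℝ))⌋ : ℝ) := rfl
  rw [← b2, ← b1] at f1 f2
  obtain ⟨g1, g2⟩ := x0_42 (G := G) (u := u) (κ := κ) k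
  have h3 : |((p.2 - ⌊G.ctr u κ + G.v * (k : ℝ)⌋ : ℤ) : ℝ) - sl μ s * ((p.1 - (k : ℤ) : ℤ) : ℝ)| ≤ K₂ * wd μ s n := hp.2.1
  rw [← hv] at h3
  push_cast at h3
  have hrow : (k : ℤ) < p.1 ∧ p.1 ≤ (k : ℤ) + 5 * n := by
    have h4 : ((k : ℤ) + n < p.1 ∧ p.1 ≤ (k : ℤ) + n + m) ∨ ((k : ℤ) + 3 * n < p.1 ∧ p.1 ≤ (k : ℤ) + 3 * n + m) := hp.1
    omega
  refine ⟨?_, ?_, ?_⟩
  · have h5 : (G.ra u κ : ℤ) ≤ k + 1 := by exact_mod_cast hk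
    omega
  · have h5 : ((k + 5 * n + 1 : ℕ) : ℤ) ≤ (G.re u κ : ℤ) := by exact_mod_cast hk'
    push_cast at h5
    omega
  · obtain ⟨h6, h7⟩ := abs_le.1 h3
    rw [abs_le]
    constructor <;> linarith

/-- **THE WALL SITES LIE IN THE ROWS OF THE BLOCK.** -/
theorem sw_rows42 {K₁ K₂ : ℝ} {k n m : ℕ} {x0 : ℤ} (hm : 2 * m ≤ n) : InRows k (5 * n) (Sw μ s K₁ K₂ n m ((k : ℤ), x0)) := by
  intro p hp
  have h1 : ((k : ℤ) + n < p.1 ∧ p.1 ≤ (k : ℤ) + n + m) ∨ ((k : ℤ) + 3 * n < p.1 ∧ p.1 ≤ (k : ℤ) + 3 * n + m) := hp.1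
  push_cast
  constructor <;> omega

/-- **THE WALL SITES LIE IN A TUBE** (`walls58`). -/
theorem sw_tb42 {K₁ K₂ R : ℝ} {n m : ℕ} {b : Pt} (hw : 0 ≤ wd μ s n) (hR : K₂ ≤ R) :
    Sw μ s K₁ K₂ n m b ⊆ tb (sl μ s) b (R * wd μ s n) := by
  intro p hp
  have h1 : |((p.2 - b.2 : ℤ) : ℝ) - sl μ s * ((p.1 - b.1 : ℤ) : ℝ)| ≤ K₂ * wd μ s n := hp.2.1
  exact h1.trans (mul_le_mul_of_nonneg_right hR hw)

/-! ### The sets of the block -/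

/-- A glued environment is unchanged in the rows of the block. -/
theorem gl_rows42 {B : Set Pt} {b : Pt} {n : ℕ} (hB : ∀ p ∈ B, b.1 + ((5 * n : ℕ) : ℤ) < p.1) (η ω : Env) :
    ∀ p ∈ rows b.1 (b.1 + ((5 * n : ℕ) : ℤ)), gl B η ω p = ω p := fun p hp =>
  gl_of_not_mem (fun h => absurd (hB p h) (not_lt.2 hp.2)) η ω

section sets

variable {K₁ K₂ Kh Q Q₁ U U₁ Y Qc Kx qx : ℝ} {n m : ℕ} {b : Pt} {E : Set Env}

theorem meas_TF42 [IsProbabilityMeasure μ] : MeasurableSet (TF66 μ s c K₁ K₂ Kh Q Q₁ U U₁ Y n m b) :=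
  (lo18_meas _ _ _ _ _ _).inter ((sd18_meas _ _ _ _ _ _).inter ((up18_meas _ _ _ _).inter ((us18_meas _ _ _ _ _).inter
    (jp18_meas _ _ _ _ _))))

theorem dec_TF42 : DecO (Sw μ s K₁ K₂ n m b)ᶜ (TF66 μ s c K₁ K₂ Kh Q Q₁ U U₁ Y n m b) :=
  DecO.inter (DecO.of_off (by rw [compl_compl]; exact lo18_off K₁ K₂ n m b Q))
    (DecO.inter (DecO.of_off (by rw [compl_compl]; exact sd18_off K₁ K₂ n m b Q₁))
      (DecO.inter (DecO.of_dec up18_dec _) (DecO.inter (DecO.of_dec us18_dec _) (DecO.of_dec jp18_dec _))))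

/-- It reads only the rows of the block. -/
theorem rows_TF42 [IsProbabilityMeasure μ] (hm : 2 * m ≤ n) {η η' : Env} (h : ∀ p ∈ rows b.1 (b.1 + ((5 * n : ℕ) : ℤ)), η p = η' p) :
    η ∈ TF66 μ s c K₁ K₂ Kh Q Q₁ U U₁ Y n m b ↔ η' ∈ TF66 μ s c K₁ K₂ Kh Q Q₁ U U₁ Y n m b := by
  unfold TF66
  simp only [Set.mem_inter_iff, lo18_rows h, sd18_rows hm h, up18_rows h, us18_rows hm h, jp18_rows hm h]

/-- A further set which does not read the wall sites. -/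
theorem dec_off42 {S : Set Pt} (hE : Off S E) : DecO Sᶜ E := DecO.of_off (by rw [compl_compl]; exact hE)

/-- The row `5 n` of the block holds no wall site. -/
theorem x87_off42 (hm : 2 * m ≤ n) : Off (Sw μ s K₁ K₂ n m b) (X87 μ s Kx n b (5 * n) qx) := by
  refine off_X87 _ _ _ _ _ fun x _ h => ?_
  have h1 := h.1
  unfold Wr at h1
  simp only [Set.mem_ofPred_eq] at h1
  push_cast at h1
  omega

theorem x87_rows42 (hn : 1 ≤ n) {η η' : Env} (h : ∀ p ∈ rows b.1 (b.1 + ((5 * n : ℕ) : ℤ)), η p = η' p) :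
    η ∈ X87 μ s Kx n b (5 * n) qx ↔ η' ∈ X87 μ s Kx n b (5 * n) qx := by
  have e : ∀ x : ℤ, η (b.1 + ((5 * n : ℕ) : ℤ), x) = η' (b.1 + ((5 * n : ℕ) : ℤ), x) := fun x => h _ ⟨by
    show b.1 < b.1 + ((5 * n : ℕ) : ℤ)
    omega, le_rfl⟩
  unfold X87
  simp only [Set.mem_ofPred_eq, e]

/-- **MEASURABLE.** -/
theorem gt_meas42 [IsProbabilityMeasure μ] :
    MeasurableSet (TF66 μ s c K₁ K₂ Kh Q Q₁ U U₁ Y n m b ∩ (Co18 μ s K₁ n b Qc ∩ X87 μ s Kx n b (5 * n) qx)) :=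
  meas_TF42.inter ((co18_meas _ _ _ _).inter (meas_X87 _ _ _ _ _))

/-- **DECREASING IN THE WALL SITES.** -/
theorem gt_dec42 (hm : 2 * m ≤ n) :
    DecO (Sw μ s K₁ K₂ n m b)ᶜ (TF66 μ s c K₁ K₂ Kh Q Q₁ U U₁ Y n m b ∩ (Co18 μ s K₁ n b Qc ∩ X87 μ s Kx n b (5 * n) qx)) :=
  DecO.inter dec_TF42 (DecO.inter (dec_off42 (co18_off hm K₁ K₂ b Qc)) (dec_off42 (x87_off42 hm)))

/-- **IT READS THE ROWS OF THE BLOCK ONLY.** -/
theorem gt_rows42 [IsProbabilityMeasure μ] (hn : 1 ≤ n) (hm : 2 * m ≤ n) {η η' : Env}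
    (h : ∀ p ∈ rows b.1 (b.1 + ((5 * n : ℕ) : ℤ)), η p = η' p) :
    η ∈ TF66 μ s c K₁ K₂ Kh Q Q₁ U U₁ Y n m b ∩ (Co18 μ s K₁ n b Qc ∩ X87 μ s Kx n b (5 * n) qx) ↔
      η' ∈ TF66 μ s c K₁ K₂ Kh Q Q₁ U U₁ Y n m b ∩ (Co18 μ s K₁ n b Qc ∩ X87 μ s Kx n b (5 * n) qx) := by
  simp only [Set.mem_inter_iff, rows_TF42 hm h, co18_rows h, x87_rows42 hn h]

/-- **BLIND TO THE SITES ABOVE THE BLOCK.** -/
theorem gt_gl42 [IsProbabilityMeasure μ] (hn : 1 ≤ n) (hm : 2 * m ≤ n) {B : Set Pt} (hB : ∀ p ∈ B, b.1 + ((5 * n : ℕ) : ℤ) < p.1) (η ω : Env) :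
    gl B η ω ∈ TF66 μ s c K₁ K₂ Kh Q Q₁ U U₁ Y n m b ∩ (Co18 μ s K₁ n b Qc ∩ X87 μ s Kx n b (5 * n) qx) ↔
      ω ∈ TF66 μ s c K₁ K₂ Kh Q Q₁ U U₁ Y n m b ∩ (Co18 μ s K₁ n b Qc ∩ X87 μ s Kx n b (5 * n) qx) :=
  gt_rows42 hn hm (gl_rows42 hB η ω)

theorem gt_off42 [IsProbabilityMeasure μ] (hn : 1 ≤ n) (hm : 2 * m ≤ n) {B : Set Pt} (hB : ∀ p ∈ B, b.1 + ((5 * n : ℕ) : ℤ) < p.1) :
    Off B (TF66 μ s c K₁ K₂ Kh Q Q₁ U U₁ Y n m b ∩ (Co18 μ s K₁ n b Qc ∩ X87 μ s Kx n b (5 * n) qx)) := fun _ _ h =>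
  gt_rows42 hn hm fun p hp => h p fun hp' => absurd (hB p hp') (not_lt.2 hp.2)

theorem gtE_meas42 [IsProbabilityMeasure μ] (hE : MeasurableSet E) :
    MeasurableSet ((TF66 μ s c K₁ K₂ Kh Q Q₁ U U₁ Y n m b ∩ (Co18 μ s K₁ n b Qc ∩ X87 μ s Kx n b (5 * n) qx)) ∩ E) :=
  gt_meas42.inter hE

theorem gtE_dec42 (hm : 2 * m ≤ n) (hE : DecO (Sw μ s K₁ K₂ n m b)ᶜ E) :
    DecO (Sw μ s K₁ K₂ n m b)ᶜ ((TF66 μ s c K₁ K₂ Kh Q Q₁ U U₁ Y n m b ∩ (Co18 μ s K₁ n b Qc ∩ X87 μ s Kx n b (5 * n) qx)) ∩ E) :=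
  DecO.inter (gt_dec42 hm) hE

theorem gtE_gl42 [IsProbabilityMeasure μ] (hn : 1 ≤ n) (hm : 2 * m ≤ n) {B : Set Pt} (hB : ∀ p ∈ B, b.1 + ((5 * n : ℕ) : ℤ) < p.1)
    {η ω : Env} (hE : ω ∈ E → gl B η ω ∈ E)
    (h : ω ∈ (TF66 μ s c K₁ K₂ Kh Q Q₁ U U₁ Y n m b ∩ (Co18 μ s K₁ n b Qc ∩ X87 μ s Kx n b (5 * n) qx)) ∩ E) :
    gl B η ω ∈ (TF66 μ s c K₁ K₂ Kh Q Q₁ U U₁ Y n m b ∩ (Co18 μ s K₁ n b Qc ∩ X87 μ s Kx n b (5 * n) qx)) ∩ E :=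
  ⟨(gt_gl42 hn hm hB η ω).2 h.1, hE h.2⟩

/-- A set which reads only the weights of the natural rows `≥ r` does not read the sites below. -/
theorem off_ge42 {S : Set Pt} {r : ℕ} (hS : ∀ p ∈ S, p.1 < (r : ℤ))
    (hE : ∀ η η' : Env, (∀ k, r ≤ k → wt η k = wt η' k) → (η ∈ E ↔ η' ∈ E)) : Off S E := fun η η' h =>
  hE η η' fun k hk => funext fun y => PW58.wt_eq (h _ fun hx => by
    have h1 : (k : ℤ) < (r : ℤ) := hS _ hx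
    have h2 : (r : ℤ) ≤ k := by exact_mod_cast hk
    omega)

/-- A set which reads only the weights of the natural rows `< r` does not read the sites above. -/
theorem off_lt42 {S : Set Pt} {r : ℕ} (hS : ∀ p ∈ S, (r : ℤ) ≤ p.1)
    (hE : ∀ η η' : Env, (∀ k, k < r → wt η k = wt η' k) → (η ∈ E ↔ η' ∈ E)) : Off S E := fun η η' h =>
  hE η η' fun k hk => funext fun y => PW58.wt_eq (h _ fun hx => by
    have h1 : (r : ℤ) ≤ (k : ℤ) := hS _ hx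
    have h2 : (k : ℤ) < (r : ℤ) := by exact_mod_cast hk
    omega)

/-- The wall sites lie below the last row of the block. -/
theorem sw_lt42 {k : ℕ} {x0 : ℤ} (hm : 2 * m ≤ n) : ∀ p ∈ Sw μ s K₁ K₂ n m ((k : ℤ), x0), p.1 < ((k + 5 * n : ℕ) : ℤ) := by
  intro p hp
  have h1 : ((k : ℤ) + n < p.1 ∧ p.1 ≤ (k : ℤ) + n + m) ∨ ((k : ℤ) + 3 * n < p.1 ∧ p.1 ≤ (k : ℤ) + 3 * n + m) := hp.1
  push_cast
  omega

end sets

end

end Pool.Agent.W_7d29a1_C1.MJ42
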