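import Pool.Agent.W_7d29a1_C1.TamV20
import Pool.Agent.W_7d29a1_C1.Ou37

/-!
MP_7d29a1_pr, [C1], SEP: THE BACKWARD MASSES OF THE WINDOW ROWS FROM `Far16` (own rows) AND `Ou37.OuD` (row `re`). (helper20)

* `d2_ou`: D2 of `OuD` (window `R w u`, real slack `sg`) seen from a base `(r, col)` at the lateral distance `≤ w u` of the centre;
* **`profO20`: the profile clause of every row**: `bn k' y' ≤ exp ((U + Q4 + (β + σ) |lat y' - ctr| / w u) E u) bn k y` for ALL `y'`, all rows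
  `k' ≤ re`, all `|lat y - ctr| ≤ R₀ w u` of the rows `k` with `θ T u ≤ re - k`; `U` depends on `q`, `β`, `R₀` only;
* **`tamO20`: `TameV69`** of every slab `(r, r + T]` below `re - θ T u`, constant `Qv` before the window `Kp wd T`.
-/

set_option autoImplicit false

namespace Pool.Agent.W_7d29a1_C1.TamV20

open MeasureTheory Finset
open Pool.Agent.W_7d29a1_F hiding Bw G
open Pool.Agent.W_7d29a1_h4g Pool.Agent.W_7d29a1_HS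
open Pool.Agent.W_7d29a1_H hiding ex gg
open Pool.Agent.W_7d29a1_C1.H75
open Pool.Agent.W_7d29a1_C1.K91 (wt wt_pos)
open Pool.Agent.W_7d29a1_C1.U16 (bh16 lat16 Far16)
open Pool.Agent.W_7d29a1_C1.H60
open Pool.Agent.W_7d29a1_C1.G37 (Gm)
open Pool.Agent.W_7d29a1_C1.Tb87 (Mx)
open Pool.Agent.W_7d29a1_C1.Ou37

noncomputable section

variable {μ : Measure ℝ} {s c C : ℝ} {n₀ : ℕ} {Γ : Cx} {G : Gm}

/-- The two lateral coordinates. -/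
theorem lat_ou (hv : G.v = sl μ s) (r : ℕ) (col : ℤ) (d : ℕ) (y : ℤ) (ct : ℝ) :
    G.lat (d, y) - ct = lat16 μ s ((r : ℤ), col) ((d : ℤ), y) + (G.lat (r, col) - ct) := by
  unfold Gm.lat lat16
  rw [hv]
  push_cast
  ring

/-- **D2 of `OuD` from another base.** -/
theorem d2_ou {E : ℕ → ℝ} {R R' Q4 sgm sg : ℝ} {u : ℕ} {κ : ℤ × ℤ} {ω : Env} (hv : G.v = sl μ s) {r : ℕ} {col : ℤ}
    (hω : ω ∈ OuD μ s Γ G E R Q4 sgm sg u κ) (hE : 1 ≤ E u) (hw : 2 ≤ G.w u) (hs : 0 ≤ sgm)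
    (ho : |G.lat (r, col) - G.ctr u κ| ≤ G.w u) (hsg : sg ≤ E u) (hR : R' + 2 ≤ R) (y y₀ : ℤ)
    (hy₀ : |lat16 μ s ((r : ℤ), col) ((G.re u κ : ℤ), y₀)| ≤ R' * G.w u + 2) :
    bh16 μ s Γ.h ω Γ.p Γ.M Γ.N (G.re u κ) y ≤
      Real.exp ((Q4 + sgm + 1 + sgm * (|lat16 μ s ((r : ℤ), col) ((G.re u κ : ℤ), y)| / G.w u)) * E u) *
        bh16 μ s Γ.h ω Γ.p Γ.M Γ.N (G.re u κ) y₀ := by
  have hw0 : 0 < G.w u := by linarith
  have e : ∀ z : ℤ, |G.lat (G.re u κ, z) - G.ctr u κ| ≤ |lat16 μ s ((r : ℤ), col) ((G.re u κ : ℤ), z)| + G.w u := by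
    intro z
    rw [lat_ou hv r col (G.re u κ) z (G.ctr u κ)]
    exact (abs_add_le _ _).trans (by linarith)
  have h1 := hω y y₀ ((e y₀).trans (by nlinarith))
  refine h1.trans (mul_le_mul_of_nonneg_right (Real.exp_le_exp.2 ?_) (bn_pos _ _ _).le)
  have h2 : |G.lat (G.re u κ, y) - G.ctr u κ| / G.w u ≤ |lat16 μ s ((r : ℤ), col) ((G.re u κ : ℤ), y)| / G.w u + 1 := by
    rw [div_add_one hw0.ne']
    exact div_le_div_of_nonneg_right (e y) hw0.le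
  have h3 := mul_le_mul_of_nonneg_left h2 hs
  have h4 := mul_le_mul_of_nonneg_right h3 (show 0 ≤ E u by linarith)
  nlinarith

/-- The step weights of the context. -/
theorem cx_p (hs : Γ.s = s) : (∀ k, k < Γ.M → Γ.p k = Real.exp (s + Γ.h)) ∧ (∀ k, Γ.M ≤ k → Γ.p k = Real.exp s) := by
  constructor
  · intro k hk
    unfold Cx.p
    rw [if_pos hk, hs]
  · intro k hk
    unfold Cx.p
    rw [if_neg (by omega), hs]

/-- **THE PROFILE CLAUSE OF EVERY ROW OF THE WINDOW**, all places `y'`; `U` before everything else. -/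
theorem profO20 [IsProbabilityMeasure μ] (h0 : In μ s c C n₀) (P : ℕ) {θ K : ℝ} (hK : 4 ≤ K) (hθ : 0 < θ) : ∃ n₁ : ℕ, 1 ≤ n₁ ∧
    ∀ q β R₀ : ℝ, 0 ≤ q → 0 < β → 0 ≤ R₀ → ∃ U : ℝ, 0 < U ∧
    ∀ {Γ : Cx} {G : Gm} {E : ℕ → ℝ} {R Q4 sgm sg : ℝ} {u : ℕ} {κ : ℤ × ℤ} {ω : Env} {N i : ℕ} {col : ℤ}, n₁ ≤ G.T u → N ≤ G.T u →
    Γ.s = s → G.v = sl μ s → G.w u = wd μ s (G.T u) → E u = EE μ s (G.T u) → |Γ.h| * wd μ s (G.T u) ≤ c / 8 * EE μ s (G.T u) →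
    ω ∈ Far16 μ s c θ K (G.T u) N P ((i : ℤ), col) q → |G.lat (i, col) - G.ctr u κ| ≤ G.w u → (G.re u κ : ℤ) ≤ (i : ℤ) + N →
    G.re u κ ≤ Γ.N → 0 ≤ sgm → sgm ≤ c / 8 → sg ≤ E u → R₀ + 4 ≤ R → ω ∈ OuD μ s Γ G E R Q4 sgm sg u κ →
    ∀ (k k' : ℕ) (y y' : ℤ), i ≤ k → k ≤ G.re u κ → θ * G.T u ≤ ((G.re u κ - k : ℕ) : ℝ) → i ≤ k' → k' ≤ G.re u κ →
      |G.lat (k, y) - G.ctr u κ| ≤ R₀ * G.w u →
      bn μ s Γ k' y' ω ≤ Real.exp ((U + Q4 + (β + sgm) * (|G.lat (k', y') - G.ctr u κ| / G.w u)) * E u) * bn μ s Γ k y ω := by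
  obtain ⟨n₁, hn₁, H⟩ := core20 h0 P hK hθ
  obtain ⟨n₂, hn₂⟩ := Filter.eventually_atTop.1 ((wd_tendsto h0).eventually_ge_atTop 2)
  have hc0 := h0.c0
  refine ⟨max n₁ n₂, hn₁.trans (le_max_left _ _), fun q β R₀ hq hβ hR₀ => ?_⟩
  obtain ⟨U, hU, H⟩ := H q β (R₀ + 1) hq hβ (by linarith)
  refine ⟨U + 1 + β + c / 4, by positivity, ?_⟩
  intro Γ G E R Q4 sgm sg u κ ω N i col hT hNT hs hv hw hE hh hη hb hre hreN hsgm hsc hsg hR hω k k' y y' hk1 hk2 hk3 hk1' hk2' hy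
  have hT1 : n₁ ≤ G.T u := (le_max_left _ _).trans hT
  have hw2 : 2 ≤ G.w u := by rw [hw]; exact hn₂ _ ((le_max_right _ _).trans hT)
  have hw0 : 0 < G.w u := by linarith
  have hE1 : 1 ≤ E u := by rw [hE]; exact one_le_EE _
  obtain ⟨hp, hp'⟩ := cx_p hs
  have hpp : ∀ k, 0 < Γ.p k := Γ.p_pos
  have hbb : |lat16 μ s ((i : ℤ), col) ((i : ℤ), col)| ≤ wd μ s (G.T u) := by
    rw [← hw]
    unfold lat16
    simp only [sub_self, Int.cast_zero, mul_zero, abs_zero]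
    exact hw0.le
  have key := H (κ := ((i : ℤ), col)) hT1 hNT hp hp' hη hbb hh (G.re u κ) (bh16 μ s Γ.h ω Γ.p Γ.M Γ.N (G.re u κ)) (Q4 + sgm + 1) sgm hre
    (fun z => (bn_pos (μ := μ) (s := s) (Γ := Γ) (G.re u κ) z ω).le) hsgm hsc (fun y y₀ hy₀ => by
      have h1 := d2_ou (μ := μ) (s := s) (r := i) (col := col) (R' := R₀ + 1) hv hω hE1 hw2 hsgm hb hsg (by linarith) y y₀ (by rw [hw]; exact hy₀)
      rw [hw, hE] at h1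
      exact h1) k k' y y' (Nat.cast_le.2 hk1) hk2 hk3 (Nat.cast_le.2 hk1') hk2' (by
      have h1 := lat_ou (μ := μ) (s := s) hv i col k y (G.ctr u κ)
      have h2 : lat16 μ s ((i : ℤ), col) ((k : ℤ), y) = (G.lat (k, y) - G.ctr u κ) - (G.lat (i, col) - G.ctr u κ) := by linarith
      rw [h2, ← hw]
      refine (abs_sub _ _).trans ?_
      linarith)
  rw [V20_bh hpp hk2' hreN, V20_bh hpp hk2 hreN, ← hw, ← hE] at key
  refine key.trans (mul_le_mul_of_nonneg_right (Real.exp_le_exp.2 ?_) (bn_pos (μ := μ) (s := s) (Γ := Γ) k y ω).le)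
  refine mul_le_mul_of_nonneg_right ?_ (by linarith)
  have h1 := lat_ou (μ := μ) (s := s) hv i col k' y' (G.ctr u κ)
  have h2 : lat16 μ s ((i : ℤ), col) ((k' : ℤ), y') = (G.lat (k', y') - G.ctr u κ) - (G.lat (i, col) - G.ctr u κ) := by linarith
  have h3 : |lat16 μ s ((i : ℤ), col) ((k' : ℤ), y')| / G.w u ≤ |G.lat (k', y') - G.ctr u κ| / G.w u + 1 := by
    rw [div_add_one hw0.ne', h2]
    exact div_le_div_of_nonneg_right ((abs_sub _ _).trans (by linarith)) hw0.le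
  have h4 := mul_le_mul_of_nonneg_left h3 (show 0 ≤ β + sgm by linarith)
  linarith

/-- **`TameV69` OF THE SLABS OF THE WINDOW**, from `Far16` of the own rows and `OuD`. -/
theorem tamO20 [IsProbabilityMeasure μ] (h0 : In μ s c C n₀) (P : ℕ) {θ K : ℝ} (hK : 4 ≤ K) (hθ : 0 < θ) : ∃ n₁ : ℕ, 1 ≤ n₁ ∧
    ∀ q Q4 Kh ρ : ℝ, 0 ≤ q → 0 ≤ Q4 → 0 ≤ Kh → 1 ≤ ρ → ∃ Qv : ℝ, 0 ≤ Qv ∧
    ∀ {Γ : Cx} {G : Gm} {E : ℕ → ℝ} {R sgm sg g : ℝ} {u : ℕ} {κ : ℤ × ℤ} {ω : Env} {N i r T : ℕ} {colb col : ℤ}, n₁ ≤ G.T u → N ≤ G.T u →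
    Γ.s = s → G.v = sl μ s → G.w u = wd μ s (G.T u) → E u = EE μ s (G.T u) → |Γ.h| * wd μ s (G.T u) ≤ c / 8 * EE μ s (G.T u) →
    ((g = Γ.h ∧ r + T ≤ Γ.M) ∨ (g = 0 ∧ Γ.M ≤ r)) → ω ∈ Far16 μ s c θ K (G.T u) N P ((i : ℤ), colb) q →
    |G.lat (i, colb) - G.lat (r, col)| ≤ G.w u → |G.lat (r, col) - G.ctr u κ| ≤ G.w u → (G.re u κ : ℤ) ≤ (i : ℤ) + N → G.re u κ < Γ.N →
    i ≤ r → r + T ≤ G.re u κ → θ * G.T u ≤ ((G.re u κ - (r + T) : ℕ) : ℝ) →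
    wd μ s T ≤ ρ * wd μ s (G.T u) → EE μ s (G.T u) ≤ ρ * EE μ s T →
    EE μ s (G.T u) / wd μ s (G.T u) ≤ ρ * (EE μ s T / wd μ s T) →
    0 ≤ sgm → ρ * sgm ≤ c / 16 → sg ≤ E u → ρ * Kh + 2 ≤ R → ω ∈ OuD μ s Γ G E R Q4 sgm sg u κ →
    ∀ Kp : ℝ, 0 ≤ Kp → ∀ (t : ℕ) (x : ℤ), t < T → lat69 μ s t x ≤ Kh * wd μ s T + 1 →
      TameV69 μ s g (wt ω) Γ.p (Mx (wt ω) Γ.p Γ.N (r + T)) r col T (Kp * wd μ s T) ((Qv + c / 8 * Kp) * EE μ s T) t x := by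
  obtain ⟨n₁, hn₁, H⟩ := tamM20 h0 P hK hθ
  obtain ⟨n₂, hn₂⟩ := Filter.eventually_atTop.1 ((wd_tendsto h0).eventually_ge_atTop 2)
  have hc0 := h0.c0
  refine ⟨max n₁ n₂, hn₁.trans (le_max_left _ _), fun q Q4 Kh ρ hq hQ4 hKh hρ => ?_⟩
  obtain ⟨Qv, hQv, H⟩ := H q (Q4 + c + 1) Kh ρ hq (by positivity) hKh hρ
  refine ⟨Qv, hQv, ?_⟩
  intro Γ G E R sgm sg g u κ ω N i r T colb col hT hNT hs hv hw hE hh hg hη hb hb2 hre hreN hir hrT hθr hu1 hu2 hu3 hsgm hρs hsg hR hω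
    Kp hKp t x htT hx
  have hw2 : 2 ≤ G.w u := by rw [hw]; exact hn₂ _ ((le_max_right _ _).trans hT)
  have hE1 : 1 ≤ E u := by rw [hE]; exact one_le_EE _
  obtain ⟨hp, hp'⟩ := cx_p hs
  refine H ((le_max_left _ _).trans hT) hNT hp hp' hg hη ?_ hh hu1 hu2 hu3 (Nat.cast_le.2 hir) hrT hre hreN hθr hsgm hρs
    (fun y y₀ hy₀ => ?_) Kp hKp t x htT hx
  · have h1 := lat_ou (μ := μ) (s := s) hv r col i colb (G.lat (r, col))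
    rw [sub_self, add_zero] at h1
    rw [← h1, ← hw]
    exact hb
  · have h1 := d2_ou (μ := μ) (s := s) (r := r) (col := col) (R' := ρ * Kh) hv hω hE1 hw2 hsgm hb2 hsg hR y y₀ (by rw [hw]; exact hy₀)
    rw [hw, hE] at h1
    refine h1.trans (mul_le_mul_of_nonneg_right (Real.exp_le_exp.2 ?_) (bn_pos (μ := μ) (s := s) (Γ := Γ) _ _ ω).le)
    refine mul_le_mul_of_nonneg_right ?_ (EE_pos _).le
    have h2 : sgm ≤ c := by nlinarith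
    linarith

end

end Pool.Agent.W_7d29a1_C1.TamV20
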