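import Pool.Agent.W_7d29a1_C1.HcoC62
import Pool.Agent.W_7d29a1_C1.TamO20
import Pool.Agent.W_7d29a1_C1.MovJ42
import Pool.Agent.W_7d29a1_C1.MovI71

/-!
MP_7d29a1_pr, attractor route, [C1] SEP: THE FIELD `core` OF `CwIn` FOR ALL THE CONTACTS OF ONE CELL. (helper71)

* `rg71` : a contact is in the box of the starts of its window; `x0_71` : the column of the base point;
* `coreK71` : `bw ≤ 4 / 3 * Z1` from `Far16` (rows of the window), `OuD` (inner radius), `St`, `UpE18` and one line of constants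
  (`core62_fin` + `profO20`), base row `ra - 1`.
-/

set_option autoImplicit false

namespace Pool.Agent.W_7d29a1_C1.MC71

open Finset MeasureTheory
open Pool.Agent.W_7d29a1_F hiding Bw G
open Pool.Agent.W_7d29a1_h4g Pool.Agent.W_7d29a1_H Pool.Agent.W_7d29a1_HS
open Pool.Agent.W_7d29a1_C1.K91 (wt wt_pos)
open Pool.Agent.W_7d29a1_C1.K91P (fw bw bw_pos)
open Pool.Agent.W_7d29a1_C1.U16 (lat16 Far16)
open Pool.Agent.W_7d29a1_C1.Gt66 (Z1)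
open Pool.Agent.W_7d29a1_C1.PW58 (Co58)
open Pool.Agent.W_7d29a1_C1.H60
open Pool.Agent.W_7d29a1_C1.G37 (Gm)
open Pool.Agent.W_7d29a1_C1.Ou37 (OuD)
open Pool.Agent.W_7d29a1_C1.GL18 (UpE18)
open Pool.Agent.W_7d29a1_C1.Sy78 (St Rg)

noncomputable section

section geo

variable {G : Gm} {u : ℕ}

/-- **A contact is a start of its window.** -/
theorem rg71 (hv0 : 0 ≤ G.v) (hv1 : G.v ≤ 1) {aS : ℝ} (haS : G.w u / 2 + 1 ≤ aS * G.w u) (c : ℕ × ℤ) :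
    (c.1 + 1, c.2) ∈ Rg G u (G.loc u c) aS := by
  have h1 := G.lo_le u c
  have h2 := G.row_lt_ra u c
  have h3 : |G.lat c - G.ctr u (G.loc u c)| ≤ (G.g u : ℝ) / 2 := G.lat_ctr u c
  have h4 := G.g_le u
  have h5 := G.T_pos' (u - 2)
  refine ⟨?_, ?_, ?_⟩
  · show G.lo u (G.loc u c) - (G.T (u - 2) : ℤ) ≤ ((c.1 + 1 : ℕ) : ℤ)
    push_cast
    linarith
  · show c.1 + 1 ≤ G.ra u (G.loc u c)
    omega
  · have e : G.lat (c.1 + 1, c.2) = G.lat c - G.v := by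
      unfold Gm.lat
      push_cast
      ring
    show |G.lat (c.1 + 1, c.2) - G.ctr u (G.loc u c)| ≤ _
    rw [e]
    rw [abs_le] at h3 ⊢
    constructor <;> linarith [h3.1, h3.2]

end geo

/-- The column of the base point. -/
theorem x0_71 {G : Gm} {u : ℕ} {κ : ℤ × ℤ} {μ : Measure ℝ} {s : ℝ} (hv : G.v = sl μ s) (a : ℕ) :
    |((⌊G.ctr u κ + G.v * (a : ℝ)⌋ : ℤ) : ℝ) - sl μ s * a - G.ctr u κ| ≤ 1 := by
  obtain ⟨h1, h2⟩ := MJ42.x0_42 (G := G) (u := u) (κ := κ) a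
  rw [← hv, abs_le]
  constructor <;> linarith

variable {μ : Measure ℝ} {s cr Cr : ℝ} {n₀ : ℕ}

/-- **THE CORE, EVERY CONTACT OF THE CELL.** -/
theorem coreK71 [IsProbabilityMeasure μ] (h0 : In μ s cr Cr n₀) (P : ℕ) {θ K : ℝ} (hK : 4 ≤ K) (hθ : 0 < θ) (hθ1 : θ ≤ 7 / 8) :
    ∃ n₁ : ℕ, 1 ≤ n₁ ∧ ∀ q β bS : ℝ, 0 ≤ q → 0 < β → 0 ≤ bS → ∃ U : ℝ, 0 < U ∧
    ∀ {Γ : Cx} {G : Gm} {E : ℕ → ℝ} {rc Q4 sgm sg : ℝ} {u : ℕ} {κ : ℤ × ℤ} {η : Env}, n₁ ≤ G.T u → 1 ≤ u →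
    Γ.s = s → G.v = sl μ s → G.w u = wd μ s (G.T u) → E u = EE μ s (G.T u) → |Γ.h| * wd μ s (G.T u) ≤ cr / 8 * EE μ s (G.T u) →
    2 ≤ wd μ s (G.T u) → G.re u κ ≤ Γ.N →
    -- events
    η ∈ Far16 μ s cr θ K (G.T u) (G.re u κ - (G.ra u κ - 1)) P
      (((G.ra u κ - 1 : ℕ) : ℤ), ⌊G.ctr u κ + G.v * ((G.ra u κ - 1 : ℕ) : ℝ)⌋) q →
    0 ≤ sgm → sgm ≤ cr / 8 → sg ≤ E u → bS + 5 ≤ rc → η ∈ OuD μ s Γ G E rc Q4 sgm sg u κ →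
    ∀ {aS β' : ℝ}, G.w u / 2 + 1 ≤ aS * G.w u → η ∈ St Γ G aS bS β' u κ → Real.log 8 ≤ β' →
    ∀ {N₁ : ℕ} {D₁ U₁ : ℝ}, η ∈ UpE18 μ s cr (G.T u) N₁ (((G.ra u κ - 1 : ℕ) : ℤ), ⌊G.ctr u κ + G.v * ((G.ra u κ - 1 : ℕ) : ℝ)⌋) D₁ U₁ →
    (bS + 1) * G.w u ≤ D₁ →
    -- numbers
    ∀ {n nn : ℕ} {K₁ kc Rr : ℝ}, 1 ≤ n → n ≤ N₁ → G.ra u κ - 1 + n ≤ G.re u κ → kc * G.w u ≤ K₁ * wd μ s nn →
    K₁ * wd μ s nn + 2 ≤ Rr * G.w u → bS + 1 ≤ kc → Real.log (32 * n) ≤ EE μ s (G.T u) →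
    1 + cr / 4 * (Rr + 1) + (U + Q4 + (β + sgm) * Rr) + U₁ ≤ cr * (kc - (bS + 1)) →
    ∀ c : ℕ × ℤ, G.loc u c = κ → bw (wt η) Γ.p (c.1 + 1) (Γ.N - (c.1 + 1)) c.2 ≤
      4 / 3 * Z1 (wt η) Γ.p Γ.N (G.ra u κ - 1) n (Co58 μ s K₁ nn ⌊G.ctr u κ + G.v * ((G.ra u κ - 1 : ℕ) : ℝ)⌋) c.1 c.2 := by
  obtain ⟨n₁, hn₁, H⟩ := TamV20.profO20 h0 P hK hθ
  refine ⟨n₁, hn₁, fun q β bS hq hβ hbS => ?_⟩
  obtain ⟨U, hU, H⟩ := H q β (bS + 1) hq hβ (by linarith)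
  refine ⟨U, hU, ?_⟩
  intro Γ G E rc Q4 sgm sg u κ η hT hu hs hv hw hE hh hw2 hreN hFar hsgm hsc hsg hrc hOu aS β' haS hSt hβ' N₁ D₁ U₁ hUp hD₁ n nn K₁ kc Rr
    hn hnN hare h1 h2 hkb hlog hkc c hc
  subst hc
  have hsl := sl_mem (μ := μ) h0.em h0.nd s
  have hv0 : 0 ≤ G.v := by rw [hv]; exact hsl.1.le
  have hv1 : G.v ≤ 1 := by rw [hv]; exact hsl.2.le
  obtain ⟨a, ha⟩ : ∃ a, a = G.ra u (G.loc u c) - 1 := ⟨_, rfl⟩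
  have hra := G.row_lt_ra u c
  have hre := G.ra_le_re u (G.loc u c)
  have hx0 := x0_71 (μ := μ) (s := s) (u := u) (κ := G.loc u c) hv a
  rw [← ha] at hFar hUp hare ⊢
  have hw1 : 1 ≤ G.w u := by rw [hw]; linarith
  refine Hc62.core62_fin (c₁ := cr) hs hsl.1.le hsl.2.le hv hw h0.c0.le hw2 (EE_pos _).le hh hx0 hn hare hreN (by omega) (by omega)
    (rg71 hv0 hv1 haS c) hbS h1 h2 hkb hSt hβ' hUp hnN hD₁ (sl' := β + sgm) (by linarith) ?_ hlog hkc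
  intro y y' k' hy hk1 hk2
  have h7 := MJ42.ra_re42 (G := G) (κ := G.loc u c) hu
  have key := H (Γ := Γ) (G := G) (E := E) (R := rc) (Q4 := Q4) (sgm := sgm) (sg := sg) (u := u) (κ := G.loc u c) (ω := η)
    (N := G.re u (G.loc u c) - a) (i := a) (col := ⌊G.ctr u (G.loc u c) + G.v * (a : ℝ)⌋) hT ?_ hs hv hw hE hh hFar ?_ ?_ hreN hsgm hsc hsg
    (by linarith) hOu a k' y y' le_rfl (by omega) ?_ hk1 hk2 hy
  · rw [hE] at key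
    exact key
  · have e := G.re_sub_ra u (G.loc u c)
    have e1 := G.T_pos (u - 1)
    omega
  · obtain ⟨g1, g2⟩ := MJ42.x0_42 (G := G) (u := u) (κ := G.loc u c) a
    unfold Gm.lat
    rw [abs_le]
    constructor <;> push_cast <;> linarith
  · have : a ≤ G.re u (G.loc u c) := by omega
    push_cast [Nat.cast_sub this]
    linarith
  · have h8 : 7 * (G.T u : ℝ) ≤ 8 * ((G.re u (G.loc u c) - a : ℕ) : ℝ) := by
      have : 7 * G.T u ≤ 8 * (G.re u (G.loc u c) - a) := by omega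
      exact_mod_cast this
    have h9 : (0 : ℝ) ≤ G.T u := Nat.cast_nonneg _
    nlinarith

end

end Pool.Agent.W_7d29a1_C1.MC71
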