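import Pool.Agent.W_7d29a1_C1.WqS98

/-!
MP_7d29a1_pr, [C1] SEP, THE PART `CoP98` OF `wp98` (field `core` of `WQ28`) FROM THE CONTEXT OF THE WINDOW. (helper18)

`coP18` : `PF, θ, K | n₁ | V₁, q, sgm, bS, rc | kc₀ | kc`; the sets through `Tc98`, the numbers of the gate through `NumT58`.
-/

set_option autoImplicit false

namespace Pool.Agent.W_7d29a1_C1.Q49

open Finset MeasureTheory Filter
open Pool.Agent.W_7d29a1_F hiding Bw G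
open Pool.Agent.W_7d29a1_h4g Pool.Agent.W_7d29a1_H Pool.Agent.W_7d29a1_HS
open Pool.Agent.W_7d29a1_C1.H60
open Pool.Agent.W_7d29a1_C1.G37 (Gm Wok gmW)
open Pool.Agent.W_7d29a1_C1.PW58 (NumT58)
open Pool.Agent.W_7d29a1_C1.SF98
open Pool.Agent.W_7d29a1_C1.P25
open Pool.Agent.W_7d29a1_C1.N49
open Pool.Agent.W_7d29a1_C1.D98

noncomputable section

variable {μ : Measure ℝ} {s c : ℝ}

/-- **THE CORE OF THE WINDOW**, threshold of `kc`: reads `V₁, PF, qF, sgm, bS, rc`. -/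
theorem coP18 [IsProbabilityMeasure μ] {C : ℝ} {n₀ : ℕ} (h : In μ s c C n₀) (PF : ℕ) {θ K : ℝ} (hK : 4 ≤ K) (hθ : 0 < θ)
    (hθ1 : θ ≤ 7 / 8) : ∃ n₁ : ℕ, 1 ≤ n₁ ∧ ∀ V₁ q sgm bS rc : ℝ, 0 ≤ q → 0 ≤ sgm → sgm ≤ c / 80 → 0 ≤ bS → bS + 5 ≤ rc →
      ∃ kc₀ : ℝ, ∀ kc : ℝ, kc₀ ≤ kc → ∀ {P : Pre} {N : NmF} {F : Cf98} {Γ : Cx} {G : Gm} {mt τ0 : ℕ} {E : ℕ → ℝ} {u : ℕ} {κ : ℤ × ℤ} {kw : ℝ},
        (N Γ G E).PF = PF → (N Γ G E).th = θ → (N Γ G E).KF = K → (N Γ G E).qF = q → P.bS = bS → P.βc = 1 / 16 → F.V₁ = V₁ →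
        F.sgm = sgm → F.rc = rc → Win52 μ s kw (c / 8) n₁ (N Γ G E) (F.nr μ s c Γ G E) Γ G mt τ0 E u κ → G.w u / 2 + 1 ≤ P.aS * G.w u →
        ∀ {r g U₀ Q₀ U₁' Q₁ U' Q A B Y p ε : ℝ} {j K1h M K2h n₂ : ℕ},
        NumT58 μ s c kc r g j K1h M K2h U₀ Q₀ U₁' Q₁ U' Q A B Y p ε n₂ (G.T u) ((N Γ G E).n u) ((N Γ G E).m u) ((N Γ G E).K1 u)
          ((N Γ G E).K2 u) →
        ∀ {T : Set Env}, (∀ ω ∈ T, Tc98 μ s c P N F Γ G E u κ ω) → CoP98 μ s Γ G (N Γ G E) u κ T := by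
  have hc := h.c0
  obtain ⟨n₁, hn₁, H⟩ := GL18.core98_18 h PF hK hθ hθ1
  obtain ⟨n₂, hn₂⟩ := lgo h (δ := 1 / 16) (by norm_num)
  refine ⟨max n₁ (max n₂ 8), hn₁.trans (le_max_left _ _), fun V₁ q sgm bS rc hq hs0 hs1 hbS hrc => ?_⟩
  obtain ⟨U, hU, H⟩ := H q (c / 8) bS hq (by positivity) hbS
  obtain ⟨kc₀, hkc₀⟩ := GL18.kcore18 (c := c) (b := c / 8 + sgm) (bS := bS) (X := U + sgm * rc) (U₁ := V₁ + c / 16 * (bS + 1)) hc (by linarith)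
  refine ⟨kc₀, fun kc hkc {P N F Γ G mt τ0 E u κ kw} hPF hth hKF hqF hbS' hβ hV hsg hrc' W haS {_ _ _ _ _ _ _ _ _ _ _ _ _ _ _ _ _ _} HN
    {T} hT x hx η hη => ?_⟩
  obtain ⟨h1, h2⟩ := hkc₀ kc hkc
  have hTn := W.hT u
  have hT1 : n₁ ≤ G.T u := (le_max_left _ _).trans hTn
  have hT2 : n₂ ≤ G.T u := ((le_max_left _ _).trans (le_max_right _ _)).trans hTn
  have hT3 : 8 ≤ G.T u := ((le_max_right _ _).trans (le_max_right _ _)).trans hTn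
  have hE0 := EE_pos (μ := μ) (s := s) (G.T u)
  have hw0 : 0 < wd μ s (G.T u) := by
    have := W.w1 u
    rw [W.hw u] at this
    linarith
  have hlog : Real.log 8 ≤ P.βc * E u := by
    have h3 := hn₂ _ hT2
    have h4 : Real.log 8 ≤ Real.log (G.T u) := Real.log_le_log (by norm_num) (by exact_mod_cast hT3)
    rw [hβ, W.hE u]
    linarith
  refine H (P := N Γ G E) (R := F.nr μ s c Γ G E) (E := E) (rc := rc) (Q4 := sgm * rc) (sgm := sgm) (sg := E u / 16) (aS := P.aS)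
    (β' := P.βc * E u) (U₁ := V₁ + c / 16 * (bS + 1)) hPF hth hKF hqF (W.ok.fit u W.hu) hT1 W.u1 W.hs W.hv (W.hw u) (W.hE u) W.tilt W.reN W.rc
    hs0 (by linarith) (by rw [W.hE u]; linarith) hrc haS hlog ?_ ?_ HN h1 h2 (fun ω hω => (hT ω hω).lv) (fun ω hω => ?_) (fun ω hω => ?_)
    x hx η hη
  · show 0 ≤ c / 16 * (EE μ s (G.T u) / wd μ s (G.T u))
    positivity
  · show F.V₁ * EE μ s (G.T u) + c / 16 * (EE μ s (G.T u) / wd μ s (G.T u)) * ((bS + 1) * G.w u) ≤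
      (V₁ + c / 16 * (bS + 1)) * EE μ s (G.T u)
    rw [hV, W.hw u]
    refine le_of_eq ?_
    field_simp
  · have h3 := (hT ω hω).rc.2
    rwa [hsg, hrc'] at h3
  · have h3 := (hT ω hω).st
    rwa [hbS'] at h3

end

end Pool.Agent.W_7d29a1_C1.Q49
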