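import Pool.Agent.W_7d29a1_C1.KerB16
import Pool.Agent.W_7d29a1_C1.SlabS20

/-!
MP_7d29a1_pr, [C1] attractor route, THE SLAB LEMMA FOR THE KERNELS OF K91P, rows with the step weight `exp (s + h)`. (helper16)

`KS μ s h η i T x y = exp (h (y - x - sl T)) * W μ s η (i, x) T (y - x)`: the kernel of the rows `(i, i + T]` in the model, up to the factor
`exp (T lam + h sl T)` of the rows: `mg_slab` (forward masses with the weight of their site), `bg_slab` (backward masses without it).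
`slk16`: the three inequalities of SLAB20 for `KS`: lanes at least `exp (L - κ)`, off lanes at most `exp (- G / 2)`, rows at most
`2 exp v`, if the lucks of the tilts `± hc` are at most `v` and `|h| ≤ hc/2`, `4 |h| (G + v) ≤ hc G`.
-/

set_option autoImplicit false

namespace Pool.Agent.W_7d29a1_C1.U16

open MeasureTheory ProbabilityTheory Finset
open Pool.Agent.W_7d29a1_F Pool.Agent.W_7d29a1_h4g Pool.Agent.W_7d29a1_H Pool.Agent.W_7d29a1_HS
open Pool.Agent.W_7d29a1_C1.H75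
open Pool.Agent.W_7d29a1_C1.K91 (wt wt_pos)
open Pool.Agent.W_7d29a1_C1.K91P (fw bw fw_zero fw_succ bw_zero bw_succ fw_nonneg bw_pos)
open Pool.Agent.W_7d29a1_L (T exp_T)

noncomputable section

variable {μ : Measure ℝ} {s h : ℝ}

/-- The kernel of the rows `(i, i + T]` with the force `h`, normalised. -/
def KS (μ : Measure ℝ) (s h : ℝ) (η : Env) (i : ℤ) (T : ℕ) (x y : ℤ) : ℝ :=
  Real.exp (h * (((y - x : ℤ) : ℝ) - sl μ s * T)) * W μ s η (i, x) T (y - x)

theorem KS_nonneg (η : Env) (i : ℤ) (T : ℕ) (x y : ℤ) : 0 ≤ KS μ s h η i T x y := mul_nonneg (Real.exp_pos _).le (W_nonneg _ _ _ _)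

/-- `h = 0`. -/
theorem KS_zero (η : Env) (i : ℤ) (T : ℕ) (x y : ℤ) : KS μ s 0 η i T x y = W μ s η (i, x) T (y - x) := by
  unfold KS
  simp

/-- It is the composite kernel with the force on all the rows. -/
theorem K1_right (η : Env) (a : Pt) (m : ℕ) (y : ℤ) : K1 μ s h η a m 0 y = Real.exp (h * ((y : ℝ) - sl μ s * m)) * W μ s η a m y := by
  rw [K1_eq]
  by_cases hy : 0 ≤ y ∧ y ≤ m
  · rw [sum_eq_single_of_mem y (mem_Icc.2 hy) (fun z _ hz => by rw [W_nil, if_neg (by omega), mul_zero])]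
    rw [W_nil, if_pos (by ring), mul_one]
  · rw [W_eq_zero η a hy, mul_zero]
    refine sum_eq_zero fun z hz => ?_
    rw [mem_Icc] at hz
    rw [W_nil, if_neg (fun h1 => hy ⟨by omega, by omega⟩), mul_zero]

theorem ker_KS (η : Env) {p : ℕ → ℝ} (i : ℕ) (x : ℤ) (T : ℕ) (y : ℤ) (hp : ∀ k, i ≤ k → k < i + T → p k = Real.exp (s + h)) :
    ker (wt η) p i T x y * wt η (i + T) y = Real.exp (T * lam μ s + h * sl μ s * T) * (wt η i x * KS μ s h η (i : ℤ) T x y) := by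
  rw [ker_W (μ := μ) (s := s) (h := h) η i x T y hp]
  unfold KS
  have e : Real.exp (T * lam μ s + h * ((y - x : ℤ) : ℝ)) = Real.exp (T * lam μ s + h * sl μ s * T) *
      Real.exp (h * (((y - x : ℤ) : ℝ) - sl μ s * T)) := by
    rw [← Real.exp_add]
    congr 1
    ring
  rw [e]
  ring

/-- FORWARD: the masses with the weight of their site. -/
theorem mg_slab (η : Env) {p : ℕ → ℝ} (l : ℤ → ℝ) (i T : ℕ) (y : ℤ) (hp : ∀ k, i ≤ k → k < i + T → p k = Real.exp (s + h)) :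
    fw (wt η) p l (i + T) y * wt η (i + T) y = Real.exp (T * lam μ s + h * sl μ s * T) *
      ∑ x ∈ Icc (y - T) y, (fw (wt η) p l i x * wt η i x) * KS μ s h η (i : ℤ) T x y := by
  rw [fw_ker, sum_mul, mul_sum]
  refine sum_congr rfl fun x _ => ?_
  rw [mul_assoc, ker_KS (μ := μ) (s := s) (h := h) η i x T y hp]
  ring

/-- BACKWARD: the masses without the weight of their site. -/
theorem bg_slab (η : Env) {p : ℕ → ℝ} (i T j : ℕ) (x : ℤ) (hp : ∀ k, i ≤ k → k < i + T → p k = Real.exp (s + h)) :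
    bw (wt η) p i (T + j) x / wt η i x = Real.exp (T * lam μ s + h * sl μ s * T) *
      ∑ y ∈ Icc x (x + T), KS μ s h η (i : ℤ) T x y * (bw (wt η) p (i + T) j y / wt η (i + T) y) := by
  have hx := wt_pos η i x
  rw [bw_ker, sum_div, mul_sum]
  refine sum_congr rfl fun y _ => ?_
  have hy := wt_pos η (i + T) y
  have h1 := ker_KS (μ := μ) (s := s) (h := h) η i x T y hp
  have h2 : ker (wt η) p i T x y = Real.exp (T * lam μ s + h * sl μ s * T) * (wt η i x * KS μ s h η (i : ℤ) T x y) / wt η (i + T) y := by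
    rw [← h1, mul_div_cancel_right₀ _ hy.ne']
  rw [h2]
  field_simp

/-! ### The three inequalities -/

/-- A lane. -/
theorem ks_lane {η : Env} {i : ℤ} {T : ℕ} {a e : ℤ} {L κ : ℝ} (hL : Real.exp L ≤ W μ s η (i, a) T (e - a))
    (hκ : |h| * |((e - a : ℤ) : ℝ) - sl μ s * T| ≤ κ) : Real.exp (L - κ) ≤ KS μ s h η i T a e := by
  unfold KS
  have h1 : -κ ≤ h * (((e - a : ℤ) : ℝ) - sl μ s * T) := by
    have := neg_abs_le (h * (((e - a : ℤ) : ℝ) - sl μ s * T))
    rw [abs_mul] at this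
    linarith
  calc Real.exp (L - κ) = Real.exp (-κ) * Real.exp L := by rw [← Real.exp_add]; congr 1; ring
    _ ≤ _ := mul_le_mul (Real.exp_le_exp.2 h1) hL (Real.exp_pos _).le (Real.exp_pos _).le

/-- Off the lanes, all ends. -/
theorem ks_off {η : Env} {i : ℤ} {T' : ℕ} {x y : ℤ} {G v g : ℝ} (hg : 0 < g) (hG : 0 ≤ G)
    (hW : W μ s η (i, x) T' (y - x) ≤ Real.exp (-G)) (h1 : T μ s (sl μ s) g η (i, x) T' ≤ v) (h2 : T μ s (sl μ s) (-g) η (i, x) T' ≤ v)
    (hh : 2 * |h| ≤ g) (hh' : 4 * (|h| * (G + v)) ≤ g * G) : KS μ s h η i T' x y ≤ Real.exp (-(G / 2)) := by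
  obtain ⟨u, hu⟩ : ∃ u : ℝ, u = |((y - x : ℤ) : ℝ) - sl μ s * T'| := ⟨_, rfl⟩
  have hu0 : 0 ≤ u := by rw [hu]; exact abs_nonneg _
  have hx : h * (((y - x : ℤ) : ℝ) - sl μ s * T') ≤ |h| * u := by
    rw [hu, ← abs_mul]
    exact le_abs_self _
  have ha := abs_nonneg h
  unfold KS
  rcases le_total (g * u) (2 * (G + v)) with h3 | h3
  · -- near
    have h4 : |h| * u ≤ G / 2 := by
      have h5 : g * (|h| * u) ≤ |h| * (2 * (G + v)) := by nlinarith
      have h6 : g * (|h| * u) ≤ g * (G / 2) := by linarith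
      exact le_of_mul_le_mul_left h6 hg
    calc _ ≤ Real.exp (|h| * u) * Real.exp (-G) := mul_le_mul (Real.exp_le_exp.2 hx) hW (W_nonneg _ _ _ _) (Real.exp_pos _).le
      _ = Real.exp (|h| * u - G) := by rw [← Real.exp_add]; congr 1
      _ ≤ _ := Real.exp_le_exp.2 (by linarith)
  · -- far
    have hW2 : W μ s η (i, x) T' (y - x) ≤ Real.exp (v - g * u) := by
      rcases abs_cases (((y - x : ℤ) : ℝ) - sl μ s * T') with ⟨h4, _⟩ | ⟨h4, _⟩
      · rw [hu, h4]
        exact (W_le_tilt (μ := μ) (s := s) (v := sl μ s) (h := g) η (i, x) T' (y - x)).trans (Real.exp_le_exp.2 (by linarith))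
      · rw [hu, h4]
        refine (W_le_tilt (μ := μ) (s := s) (v := sl μ s) (h := -g) η (i, x) T' (y - x)).trans (Real.exp_le_exp.2 ?_)
        have e : -g * (((y - x : ℤ) : ℝ) - sl μ s * T') = g * (-(((y - x : ℤ) : ℝ) - sl μ s * T')) := by ring
        linarith
    calc _ ≤ Real.exp (|h| * u) * Real.exp (v - g * u) := mul_le_mul (Real.exp_le_exp.2 hx) hW2 (W_nonneg _ _ _ _) (Real.exp_pos _).le
      _ = Real.exp (|h| * u + (v - g * u)) := by rw [← Real.exp_add]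
      _ ≤ _ := Real.exp_le_exp.2 (by nlinarith)

/-- The row sums (any set of ends). -/
theorem ks_row {η : Env} {i : ℤ} {T' : ℕ} {x : ℤ} {v g : ℝ} (h1 : T μ s (sl μ s) g η (i, x) T' ≤ v)
    (h2 : T μ s (sl μ s) (-g) η (i, x) T' ≤ v) (hh : |h| ≤ g) (A : Finset ℤ) : ∑ y ∈ A, KS μ s h η i T' x y ≤ 2 * Real.exp v := by
  classical
  -- one tilt
  have key : ∀ g' : ℝ, T μ s (sl μ s) g' η (i, x) T' ≤ v →
      ∑ y ∈ A, W μ s η (i, x) T' (y - x) * Real.exp (g' * (((y - x : ℤ) : ℝ) - sl μ s * T')) ≤ Real.exp v := by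
    intro g' hg'
    have e1 := exp_T (μ := μ) (s := s) (v := sl μ s) (h := g') η (i, x) T'
    have h3 : ∑ y ∈ A, W μ s η (i, x) T' (y - x) * Real.exp (g' * (((y - x : ℤ) : ℝ) - sl μ s * T')) ≤
        ∑ y ∈ Icc (0 : ℤ) T', W μ s η (i, x) T' y * Real.exp (g' * ((y : ℝ) - sl μ s * T')) := by
      have h4 : ∑ y ∈ A, W μ s η (i, x) T' (y - x) * Real.exp (g' * (((y - x : ℤ) : ℝ) - sl μ s * T')) =
          ∑ y ∈ (A.image fun y => y - x), W μ s η (i, x) T' y * Real.exp (g' * ((y : ℝ) - sl μ s * T')) := by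
        rw [sum_image (fun a _ b _ hab => by simpa using hab)]
      rw [h4]
      have h5 : ∑ y ∈ (A.image fun y => y - x), W μ s η (i, x) T' y * Real.exp (g' * ((y : ℝ) - sl μ s * T')) =
          ∑ y ∈ (A.image fun y => y - x).filter (fun y => y ∈ Icc (0 : ℤ) T'), W μ s η (i, x) T' y * Real.exp (g' * ((y : ℝ) - sl μ s * T')) := by
        rw [sum_filter]
        refine sum_congr rfl fun y _ => ?_
        split_ifs with hy
        · rfl
        · rw [mem_Icc] at hy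
          rw [W_eq_zero η (i, x) hy, zero_mul]
      rw [h5]
      exact sum_le_sum_of_subset_of_nonneg (fun y hy => (mem_filter.1 hy).2) fun y _ _ => mul_nonneg (W_nonneg _ _ _ _) (Real.exp_pos _).le
    rw [← e1] at h3
    exact h3.trans (Real.exp_le_exp.2 hg')
  have k1 := key g h1
  have k2 := key (-g) h2
  have h3 : ∀ y ∈ A, KS μ s h η i T' x y ≤ W μ s η (i, x) T' (y - x) * Real.exp (g * (((y - x : ℤ) : ℝ) - sl μ s * T')) +
      W μ s η (i, x) T' (y - x) * Real.exp (-g * (((y - x : ℤ) : ℝ) - sl μ s * T')) := by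
    intro y _
    unfold KS
    have hw := W_nonneg (μ := μ) (s := s) η (i, x) T' (y - x)
    have h4 : Real.exp (h * (((y - x : ℤ) : ℝ) - sl μ s * T')) ≤ Real.exp (g * (((y - x : ℤ) : ℝ) - sl μ s * T')) +
        Real.exp (-g * (((y - x : ℤ) : ℝ) - sl μ s * T')) := by
      obtain ⟨g1, g2⟩ := abs_le.1 hh
      rcases le_total 0 (((y - x : ℤ) : ℝ) - sl μ s * T') with h5 | h5
      · have := Real.exp_le_exp.2 (mul_le_mul_of_nonneg_right g2 h5)
        have := Real.exp_pos (-g * (((y - x : ℤ) : ℝ) - sl μ s * T'))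
        linarith
      · have := Real.exp_le_exp.2 (mul_le_mul_of_nonpos_right g1 h5)
        have := Real.exp_pos (g * (((y - x : ℤ) : ℝ) - sl μ s * T'))
        linarith
    nlinarith
  refine (sum_le_sum h3).trans ?_
  rw [sum_add_distrib]
  linarith

/-- THE SLAB LEMMA FOR THE MODEL: `SLAB20` at the base `b` and the lucks of the tilts `± g` at most `v` on the window. -/
theorem slk16 {ι : Type} {a e : ι → ℤ} {T' : ℕ} {ω δ L G U v g κ : ℝ} {b : Pt} {η : Env}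
    (hS : η ∈ at20 b (Pool.Agent.W_7d29a1_C1.SLAB20 μ s a e T' ω δ L G U)) (hg : 0 < g) (hG : 0 ≤ G)
    (hT : ∀ x : ℤ, |(x : ℝ)| ≤ ω → T μ s (sl μ s) g η (b.1, x + b.2) T' ≤ v ∧ T μ s (sl μ s) (-g) η (b.1, x + b.2) T' ≤ v)
    (hh : 2 * |h| ≤ g) (hh' : 4 * (|h| * (G + v)) ≤ g * G) (hκ : ∀ j, |h| * |((e j - a j : ℤ) : ℝ) - sl μ s * T'| ≤ κ) :
    (∀ j, Real.exp (L - κ) ≤ KS μ s h η b.1 T' (a j + b.2) (e j + b.2)) ∧
      (∀ x y : ℤ, |(x : ℝ)| ≤ ω → (∀ j, ¬ (|(x : ℝ) - a j| ≤ δ ∧ |(y : ℝ) - e j| ≤ δ)) →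
        KS μ s h η b.1 T' (x + b.2) (y + b.2) ≤ Real.exp (-(G / 2))) ∧
      ∀ (x : ℤ) (A : Finset ℤ), |(x : ℝ)| ≤ ω → ∑ y ∈ A, KS μ s h η b.1 T' (x + b.2) y ≤ 2 * Real.exp v := by
  obtain ⟨s1, s2, s3⟩ := (mem_at_SLAB20 a e T' ω δ L G U b η).1 hS
  refine ⟨fun j => ?_, fun x y hx hxy => ?_, fun x A hx => ?_⟩
  · have e1 : (e j + b.2) - (a j + b.2) = e j - a j := by ring
    refine ks_lane (by rw [e1]; exact s1 j) ?_
    rw [e1]
    exact hκ j
  · have e1 : (y + b.2) - (x + b.2) = y - x := by ring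
    obtain ⟨t1, t2⟩ := hT x hx
    exact ks_off hg hG (by rw [e1]; exact s2 x y hx hxy) t1 t2 hh hh'
  · obtain ⟨t1, t2⟩ := hT x hx
    exact ks_row t1 t2 (by linarith [abs_nonneg h]) A

end

end Pool.Agent.W_7d29a1_C1.U16
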