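import Pool.Agent.W_7d29a1_C1.WinG84
import Pool.Agent.W_7d29a1_C1.TamK16
import Pool.Agent.W_7d29a1_C1.KerS16

/-!
MP_7d29a1_pr, [C1] THE CRUDE TOP, part 1: the bridge between `bh16`, `nk`, `PM16` and the composite masses `TG`, `QV` of `Win84`. (helper84)

`bh_TG`: for `a < N`, `bh16 .. a x = cN * exp (TG K L (a, x))`, `K` = the number of the rows of the force, `K + L = N - 1 - a`, the factor
`cN` does not depend on `a`, `x`. `pm_QV`: the mass through sites of a row of the force. `K1_near`: the force against no force.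
-/

set_option autoImplicit false

namespace Pool.Agent.W_7d29a1_C1.Cr84

open MeasureTheory ProbabilityTheory Filter Topology Finset
open Pool.Agent.W_7d29a1_F Pool.Agent.W_7d29a1_X Pool.Agent.W_7d29a1_h4g Pool.Agent.W_7d29a1_H
open Pool.Agent.W_7d29a1_HS (In wd md md_abs wd_ge_one)
open Pool.Agent.W_7d29a1_C1.U16 Pool.Agent.W_7d29a1_C1.FarW89 Pool.Agent.W_7d29a1_C1.Win84
open Pool.Agent.W_7d29a1_C1.K91 (wt wt_pos)
open Pool.Agent.W_7d29a1_C1.K91P (bw bw_pos bw_zero bw_succ)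

noncomputable section

variable {μ : Measure ℝ} {s h : ℝ}

/-! ### Sums of the kernels -/

/-- The sum over the ends, the start shifted. -/
theorem sum_shift_W (η : Env) (b : Pt) {m n : ℕ} {y : ℤ} (h0 : 0 ≤ y) (h1 : y ≤ m) :
    ∑ u ∈ Icc (0 : ℤ) ((m + n : ℕ) : ℤ), W μ s η b n (u - y) = Real.exp (V μ s η b n) := by
  rw [exp_V]
  unfold WS
  have e1 : ∑ u ∈ Icc (0 : ℤ) ((m + n : ℕ) : ℤ), W μ s η b n (u - y) = ∑ u ∈ Icc y (y + n), W μ s η b n (u - y) := by
    symm
    refine sum_subset ?_ fun u _ hu => ?_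
    · intro u hu
      rw [mem_Icc] at hu ⊢
      push_cast
      constructor <;> omega
    · rw [mem_Icc] at hu
      exact W_eq_zero η b (by omega)
  rw [e1]
  refine sum_nbij' (fun u => u - y) (fun z => y + z) ?_ ?_ ?_ ?_ ?_
  · intro u hu
    rw [mem_Icc] at hu ⊢
    constructor <;> omega
  · intro z hz
    rw [mem_Icc] at hz ⊢
    constructor <;> omega
  · intro u _
    ring
  · intro z _
    ring
  · intro u _
    rfl

/-- The sum of the composite kernel over its ends. -/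
theorem sum_K1 (η : Env) (a : Pt) (m n : ℕ) :
    ∑ u ∈ Icc (0 : ℤ) ((m + n : ℕ) : ℤ), K1 μ s h η a m n u = Real.exp (TG μ s h m n η a) := by
  rw [exp_TG']
  have h1 : ∀ u ∈ Icc (0 : ℤ) ((m + n : ℕ) : ℤ), K1 μ s h η a m n u =
      ∑ z ∈ Icc (0 : ℤ) m, Real.exp (h * ((z : ℝ) - sl μ s * m)) * W μ s η a m z * W μ s η (a.1 + m, a.2 + z) n (u - z) := fun u _ =>
    K1_eq h η a m n u
  rw [sum_congr rfl h1, sum_comm]
  refine sum_congr rfl fun z hz => ?_
  rw [mem_Icc] at hz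
  rw [← mul_sum, sum_shift_W η _ hz.1 hz.2]

/-- The normalised kernels of a row of the force. -/
theorem nk_right {η : Env} {p : ℕ → ℝ} {M : ℕ} (hp : ∀ k, k < M → p k = Real.exp (s + h)) (hp' : ∀ k, M ≤ k → p k = Real.exp s)
    {a m : ℕ} (ham : m ≤ M - a) (x z : ℤ) : nk μ s h η p M a m x z =
      W μ s η ((a : ℤ), x) m (z - x) * Real.exp (h * (((z - x : ℤ) : ℝ) - sl μ s * m)) := by
  rw [nk_K1 hp hp']
  have e1 : bl M a m = m := by
    unfold bl
    omega
  rw [e1, Nat.sub_self, K1_right, mul_comm]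

/-- **The force against no force.** -/
theorem K1_near (hs0 : 0 ≤ sl μ s) (hs1 : sl μ s ≤ 1) (η : Env) (a : Pt) (m n : ℕ) (y : ℤ) :
    K1 μ s h η a m n y ≤ Real.exp (|h| * m) * W μ s η a (m + n) y ∧ Real.exp (-(|h| * m)) * W μ s η a (m + n) y ≤ K1 μ s h η a m n y := by
  have hM : (0 : ℝ) ≤ m := Nat.cast_nonneg m
  have h1 : ∀ z ∈ Icc (0 : ℤ) m, |h * ((z : ℝ) - sl μ s * m)| ≤ |h| * m := by
    intro z hz
    rw [mem_Icc] at hz
    rw [abs_mul]
    refine mul_le_mul_of_nonneg_left ?_ (abs_nonneg h)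
    have hy0 : (0 : ℝ) ≤ z := by exact_mod_cast hz.1
    have hy1 : (z : ℝ) ≤ m := by exact_mod_cast hz.2
    have h7 : sl μ s * m ≤ 1 * m := mul_le_mul_of_nonneg_right hs1 hM
    have h8 : 0 ≤ sl μ s * m := by positivity
    rw [abs_le]
    constructor <;> linarith
  have hW : ∀ z : ℤ, 0 ≤ W μ s η a m z * W μ s η (a.1 + m, a.2 + z) n (y - z) := fun z => mul_nonneg (W_nonneg _ _ _ _) (W_nonneg _ _ _ _)
  rw [K1_eq, W_add, mul_sum, mul_sum]
  constructor
  · refine sum_le_sum fun z hz => ?_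
    have h2 := Real.exp_le_exp.2 (abs_le.1 (h1 z hz)).2
    have h3 := mul_le_mul_of_nonneg_right h2 (hW z)
    linarith [show Real.exp (h * ((z : ℝ) - sl μ s * m)) * W μ s η a m z * W μ s η (a.1 + m, a.2 + z) n (y - z) =
      Real.exp (h * ((z : ℝ) - sl μ s * m)) * (W μ s η a m z * W μ s η (a.1 + m, a.2 + z) n (y - z)) by ring]
  · refine sum_le_sum fun z hz => ?_
    have h2 := Real.exp_le_exp.2 (abs_le.1 (h1 z hz)).1
    have h3 := mul_le_mul_of_nonneg_right h2 (hW z)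
    linarith [show Real.exp (h * ((z : ℝ) - sl μ s * m)) * W μ s η a m z * W μ s η (a.1 + m, a.2 + z) n (y - z) =
      Real.exp (h * ((z : ℝ) - sl μ s * m)) * (W μ s η a m z * W μ s η (a.1 + m, a.2 + z) n (y - z)) by ring]

/-! ### The masses -/

/-- The factor of the last row. -/
def cN (μ : Measure ℝ) (s h : ℝ) (p : ℕ → ℝ) (M N : ℕ) : ℝ :=
  Real.exp (-(lam μ s + h * sl μ s * bl M (N - 1) 1)) * (1 + p (N - 1))

theorem cN_pos {p : ℕ → ℝ} (hp : ∀ k, 0 < p k) (M N : ℕ) : 0 < cN μ s h p M N := by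
  have := hp (N - 1)
  unfold cN
  positivity

theorem bh_last {η : Env} {p : ℕ → ℝ} {M N : ℕ} (hN : 1 ≤ N) (z : ℤ) : bh16 μ s h η p M N (N - 1) z = cN μ s h p M N := by
  have e1 : N - (N - 1) = 1 := by omega
  have h1 := wt_pos η (N - 1) z
  unfold bh16 cN
  rw [e1, bw_succ (w := wt η) (p := p) (N - 1) 0 z, bw_zero, bw_zero]
  push_cast
  field_simp

/-- The numbers of the rows with the force and without the force, from the row `a` to the row `N - 1`. -/
def kN (M N a : ℕ) : ℕ := bl M a (N - 1 - a)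

def lN (M N a : ℕ) : ℕ := N - 1 - a - kN M N a

theorem kN_add (M N a : ℕ) : kN M N a + lN M N a = N - 1 - a := Nat.add_sub_cancel' (bl_le M a (N - 1 - a))

theorem kN_le (M N a : ℕ) : kN M N a ≤ M - a := by
  unfold kN bl
  omega

theorem bh_TG {η : Env} {p : ℕ → ℝ} {M N : ℕ} (hp : ∀ k, k < M → p k = Real.exp (s + h)) (hp' : ∀ k, M ≤ k → p k = Real.exp s)
    {a : ℕ} (ha : a + 1 ≤ N) (x : ℤ) :
    bh16 μ s h η p M N a x = cN μ s h p M N * Real.exp (TG μ s h (kN M N a) (lN M N a) η ((a : ℤ), x)) := by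
  have hpos : ∀ k, 0 < p k := by
    intro k
    rcases lt_or_ge k M with h2 | h2
    · rw [hp k h2]
      exact Real.exp_pos _
    · rw [hp' k h2]
      exact Real.exp_pos _
  have hS := sys_model16 (μ := μ) (s := s) (h := h) (η := η) (M := M) (N := N) hpos
  rw [hS.step a (N - 1) x (by omega) (by omega), ← sum_K1, mul_sum]
  have h1 : ∀ z ∈ Icc x (x + ((N - 1 - a : ℕ) : ℤ)), nk μ s h η p M a (N - 1 - a) x z * bh16 μ s h η p M N (N - 1) z =
      cN μ s h p M N * K1 μ s h η ((a : ℤ), x) (kN M N a) (lN M N a) (z - x) := by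
    intro z _
    rw [bh_last (by omega), nk_K1 hp hp', mul_comm]
    rfl
  rw [sum_congr rfl h1]
  have e1 : ((kN M N a + lN M N a : ℕ) : ℤ) = ((N - 1 - a : ℕ) : ℤ) := by rw [kN_add]
  rw [e1]
  refine sum_nbij' (fun z => z - x) (fun u => x + u) ?_ ?_ ?_ ?_ ?_
  · intro u hu
    rw [mem_Icc] at hu ⊢
    constructor <;> omega
  · intro z hz
    rw [mem_Icc] at hz ⊢
    constructor <;> omega
  · intro u _
    ring
  · intro z _
    ring
  · intro u _
    rfl

/-- **The mass through sites of a row of the force.** -/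
theorem pm_QV {η : Env} {p : ℕ → ℝ} {M N : ℕ} (hp : ∀ k, k < M → p k = Real.exp (s + h)) (hp' : ∀ k, M ≤ k → p k = Real.exp s)
    {a m : ℕ} (ham : m ≤ M - a) (hN : a + m + 1 ≤ N) (x : ℤ) (Q : ℤ → Prop) [DecidablePred Q] (A : Finset ℤ)
    (hA : ∀ y : ℤ, 0 ≤ y → y ≤ m → Q (x + y) → y ∈ A) :
    PM16 (fun a b x z => nk μ s h η p M a (b - a) x z) (bh16 μ s h η p M N) a (a + m) x Q ≤
      cN μ s h p M N * QV μ s h η ((a : ℤ), x) m (kN M N (a + m)) (lN M N (a + m)) A := by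
  have hpos : ∀ k, 0 < p k := by
    intro k
    rcases lt_or_ge k M with h2 | h2
    · rw [hp k h2]
      exact Real.exp_pos _
    · rw [hp' k h2]
      exact Real.exp_pos _
  unfold QV
  show ∑ z ∈ (Icc x (x + ((a + m - a : ℕ) : ℤ))).filter Q, nk μ s h η p M a (a + m - a) x z * bh16 μ s h η p M N (a + m) z ≤ _
  rw [Nat.add_sub_cancel_left, mul_sum]
  have hterm : ∀ y : ℤ, 0 ≤ cN μ s h p M N * ((W μ s η ((a : ℤ), x) m y * Real.exp (h * ((y : ℝ) - sl μ s * m))) *
      Real.exp (TG μ s h (kN M N (a + m)) (lN M N (a + m)) η (((a : ℤ), x).1 + (m : ℤ), ((a : ℤ), x).2 + y))) := fun y => by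
    have := (cN_pos (μ := μ) (s := s) (h := h) hpos M N).le
    have h2 := W_nonneg (μ := μ) (s := s) η ((a : ℤ), x) m y
    positivity
  have h1 : ∀ z ∈ (Icc x (x + (m : ℤ))).filter Q, nk μ s h η p M a m x z * bh16 μ s h η p M N (a + m) z =
      cN μ s h p M N * ((W μ s η ((a : ℤ), x) m (z - x) * Real.exp (h * (((z - x : ℤ) : ℝ) - sl μ s * m))) *
        Real.exp (TG μ s h (kN M N (a + m)) (lN M N (a + m)) η (((a : ℤ), x).1 + (m : ℤ), ((a : ℤ), x).2 + (z - x)))) := by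
    intro z _
    rw [nk_right hp hp' ham, bh_TG hp hp' hN]
    have e : (((a : ℤ), x).1 + (m : ℤ), ((a : ℤ), x).2 + (z - x)) = (((a + m : ℕ) : ℤ), z) := by
      ext
      · show (a : ℤ) + m = ((a + m : ℕ) : ℤ)
        push_cast
        rfl
      · show x + (z - x) = z
        ring
    rw [e]
    ring
  rw [sum_congr rfl h1]
  have h2 : ∑ z ∈ (Icc x (x + (m : ℤ))).filter Q,
      cN μ s h p M N * ((W μ s η ((a : ℤ), x) m (z - x) * Real.exp (h * (((z - x : ℤ) : ℝ) - sl μ s * m))) *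
        Real.exp (TG μ s h (kN M N (a + m)) (lN M N (a + m)) η (((a : ℤ), x).1 + (m : ℤ), ((a : ℤ), x).2 + (z - x)))) =
      ∑ y ∈ ((Icc x (x + (m : ℤ))).filter Q).image (fun z => z - x),
      cN μ s h p M N * ((W μ s η ((a : ℤ), x) m y * Real.exp (h * ((y : ℝ) - sl μ s * m))) *
        Real.exp (TG μ s h (kN M N (a + m)) (lN M N (a + m)) η (((a : ℤ), x).1 + (m : ℤ), ((a : ℤ), x).2 + y))) := by
    rw [sum_image fun u _ v _ huv => sub_left_injective huv]
  rw [h2]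
  refine sum_le_sum_of_subset_of_nonneg ?_ fun y _ _ => hterm y
  intro y hy
  rw [mem_image] at hy
  obtain ⟨z, hz, rfl⟩ := hy
  rw [mem_filter, mem_Icc] at hz
  refine hA (z - x) (by omega) (by omega) ?_
  rw [add_sub_cancel]
  exact hz.2

end

end Pool.Agent.W_7d29a1_C1.Cr84
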