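import Pool.Agent.W_7d29a1_C1.CrF84

/-!
MP_7d29a1_pr, [C1] **THE CRUDE TOP** (helper84): outside one event of stretched exponential probability the normalised backward masses
`bh16` are regular at the scale `T` in all rows and columns of the box (`CR`), the arms of all sites are crude (`CA`), and the kernels have
crude bounds (`CL`).
-/

set_option autoImplicit false

namespace Pool.Agent.W_7d29a1_C1.Cr84

open MeasureTheory ProbabilityTheory Filter Topology Finset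
open Pool.Agent.W_7d29a1_F Pool.Agent.W_7d29a1_X Pool.Agent.W_7d29a1_h4g Pool.Agent.W_7d29a1_H
open Pool.Agent.W_7d29a1_HS (In wd md md_abs wd_ge_one wd_le_two)
open Pool.Agent.W_7d29a1_HZ (PBox wd' EE' pbox wd'_pow)
open Pool.Agent.W_7d29a1_C1.U16 Pool.Agent.W_7d29a1_C1.FarW89 Pool.Agent.W_7d29a1_C1.Win84

noncomputable section

variable {μ : Measure ℝ} {s : ℝ} [IsProbabilityMeasure μ] {c C : ℝ} {n₀ : ℕ}

/-- `compS84` seen from any site. -/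
theorem comp_full84 (h : In μ s c C n₀) (hL : LB84 μ s) (hU : UB84 μ s) (hF : FUTS84 μ s) : ∀ ε : ℝ, 0 < ε → ∀ p : ℝ, ∃ κ c' : ℝ,
    0 < κ ∧ 0 < c' ∧ ∃ K₀ : ℕ, ∀ K : ℕ, K₀ ≤ K → ∀ L : ℕ, (L : ℝ) ≤ (K : ℝ) ^ p → ∀ m k : ℕ, 1 ≤ m → m + k = K →
    ∀ t : ℝ, |t| * EE μ s K ≤ (K : ℝ) ^ κ → ∀ (a : ℕ) (x : ℤ),
    (law μ).real {η | ¬ (QV μ s t η ((a : ℤ), x) m k L (bd μ s K ε m) ≤ Real.exp (-(K : ℝ) ^ c') * Real.exp (TG μ s t K L η ((a : ℤ), x)) ∧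
      TG μ s t K L η ((a : ℤ), x) ≤ V μ s η (((a + K : ℕ) : ℤ), x + md μ s K) L + (K : ℝ) ^ ε * EE μ s K)} ≤ Real.exp (-(K : ℝ) ^ c') := by
  intro ε hε p
  obtain ⟨κ, c', hκ, hc', K₀, H⟩ := compS84 h hL hU hF ε hε p
  refine ⟨κ, c', hκ, hc', K₀, fun K hK L hLp m k hm hmk t ht a x => ?_⟩
  have h1 := H K hK L hLp m k hm hmk t ht
  have hm2 : MeasurableSet {η : Env | ¬ (QV μ s t η 0 m k L (bd μ s K ε m) ≤ Real.exp (-(K : ℝ) ^ c') * Real.exp (TG μ s t K L η 0) ∧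
      TG μ s t K L η 0 ≤ V μ s η ((K : ℤ), md μ s K) L + (K : ℝ) ^ ε * EE μ s K)} := by
    have a1 : MeasurableSet {η : Env | QV μ s t η 0 m k L (bd μ s K ε m) ≤ Real.exp (-(K : ℝ) ^ c') * Real.exp (TG μ s t K L η 0)} :=
      measurableSet_le (meas_QV 0 m k L _) ((Real.measurable_exp.comp (meas_TG K L 0)).const_mul _)
    have a2 : MeasurableSet {η : Env | TG μ s t K L η 0 ≤ V μ s η ((K : ℤ), md μ s K) L + (K : ℝ) ^ ε * EE μ s K} :=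
      measurableSet_le (meas_TG K L 0) ((measurable_V (μ := μ) (s := s) _ L).add_const _)
    exact (a1.inter a2).compl
  have h2 := real_sh (μ := μ) (((a : ℤ), x) : Pt) hm2
  rw [← h2] at h1
  refine le_trans (le_of_eq ?_) h1
  congr 1
  ext η
  have e1 : (((K : ℤ), md μ s K) : Pt) + ((a : ℤ), x) = (((a + K : ℕ) : ℤ), x + md μ s K) := by
    ext
    · show (K : ℤ) + a = ((a + K : ℕ) : ℤ)
      push_cast
      ring
    · show md μ s K + x = x + md μ s K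
      ring
  simp only [Set.mem_ofPred_eq, QV_sh, TG_sh, V_sh, zero_add, e1]

/-- The union over finitely many sites. -/
theorem un84 {ι : Type*} (I : Finset ι) (E : ι → Set Env) {b n : ℝ} (hb : ∀ i ∈ I, (law μ).real (E i) ≤ b) (hb0 : 0 ≤ b)
    (hn : (I.card : ℝ) ≤ n) : (law μ).real (⋃ i ∈ I, E i) ≤ n * b := by
  refine (measureReal_biUnion_finset_le _ _).trans ?_
  have h2 := Finset.sum_le_card_nsmul I (fun i => (law μ).real (E i)) b hb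
  rw [nsmul_eq_mul] at h2
  exact h2.trans (mul_le_mul_of_nonneg_right hn hb0)

/-- The probability of `EC84`. -/
theorem ec_prob (h : In μ s c C n₀) (hL : LB84 μ s) (hU : UB84 μ s) (hF : FUTS84 μ s) {ε₁ pw : ℝ} (hε₁ : 0 < ε₁) :
    ∃ κ₁ c₁ : ℝ, 0 < κ₁ ∧ 0 < c₁ ∧ ∃ K₀ : ℕ, ∀ N T : ℕ, K₀ ≤ T → T ≤ N → (N : ℝ) ≤ (T : ℝ) ^ pw → ∀ t : ℝ,
      |t| * EE μ s N ≤ (T : ℝ) ^ κ₁ → (law μ).real (EC84 μ s t ε₁ c₁ N T)ᶜ ≤ (20 * (N : ℝ)) ^ 5 * Real.exp (-(T : ℝ) ^ c₁) := by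
  obtain ⟨κ₁, c₁, hκ₁, hc₁, K₀, H⟩ := comp_full84 h hL hU hF ε₁ hε₁ pw
  refine ⟨κ₁, c₁, hκ₁, hc₁, max K₀ 1, fun N T hT hTN hNT t ht => ?_⟩
  have g1 : K₀ ≤ T := (le_max_left _ _).trans hT
  have g2 : 1 ≤ T := (le_max_right _ _).trans hT
  have hTR : (1 : ℝ) ≤ T := by exact_mod_cast g2
  have hNR : (1 : ℝ) ≤ N := by exact_mod_cast (g2.trans hTN)
  classical
  obtain ⟨I, hI⟩ : ∃ I : Finset (((ℕ × ℕ) × (ℕ × ℕ)) × ℤ), I = (((range (N + 1) ×ˢ range (N + 1)) ×ˢ (range (N + 1) ×ˢ range (N + 1))) ×ˢ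
    Icc (-(4 * N : ℤ)) (4 * N)).filter fun q => T ≤ q.1.1.2 ∧ 1 ≤ q.1.2.2 ∧ q.1.2.2 ≤ q.1.1.2 := ⟨_, rfl⟩
  obtain ⟨E, hE⟩ : ∃ E : ((ℕ × ℕ) × (ℕ × ℕ)) × ℤ → Set Env, E = fun q =>
    {η | ¬ (QV μ s t η ((q.1.1.1 : ℤ), q.2) q.1.2.2 (q.1.1.2 - q.1.2.2) q.1.2.1 (bd μ s q.1.1.2 ε₁ q.1.2.2) ≤
      Real.exp (-(q.1.1.2 : ℝ) ^ c₁) * Real.exp (TG μ s t q.1.1.2 q.1.2.1 η ((q.1.1.1 : ℤ), q.2)) ∧
      TG μ s t q.1.1.2 q.1.2.1 η ((q.1.1.1 : ℤ), q.2) ≤ V μ s η (((q.1.1.1 + q.1.1.2 : ℕ) : ℤ), q.2 + md μ s q.1.1.2) q.1.2.1 +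
        (q.1.1.2 : ℝ) ^ ε₁ * EE μ s q.1.1.2)} := ⟨_, rfl⟩
  have hsub : (EC84 μ s t ε₁ c₁ N T)ᶜ ⊆ ⋃ q ∈ I, E q := by
    intro η hη
    by_contra hcon
    refine hη ?_
    intro a K L m haKL hTK hm1 hmK x hx
    by_contra hbad
    refine hcon (Set.mem_iUnion₂.2 ⟨(((a, K), (L, m)), x), ?_, ?_⟩)
    · rw [hI, mem_filter, mem_product, mem_product, mem_product, mem_product, mem_range, mem_range, mem_range, mem_range, mem_Icc]
      have := abs_le.1 hx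
      exact ⟨⟨⟨⟨by show a < N + 1; omega, by show K < N + 1; omega⟩, by show L < N + 1; omega, by show m < N + 1; omega⟩, by
        show -(4 * (N : ℤ)) ≤ x
        omega, by
        show x ≤ 4 * (N : ℤ)
        omega⟩, hTK, hm1, hmK⟩
    · rw [hE]
      exact hbad
  refine (measureReal_mono hsub (measure_ne_top _ _)).trans (un84 I E ?_ (Real.exp_pos _).le ?_)
  · rintro ⟨⟨⟨a, K⟩, ⟨L, m⟩⟩, x⟩ hq
    rw [hI, mem_filter, mem_product, mem_product, mem_product, mem_product, mem_range, mem_range, mem_range, mem_range, mem_Icc] at hq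
    obtain ⟨⟨⟨⟨ha, hK⟩, hL', hm⟩, hx⟩, hTK, hm1, hmK⟩ := hq
    dsimp only at ha hK hL' hm hx hTK hm1 hmK
    have hKR : (T : ℝ) ≤ K := by exact_mod_cast hTK
    have hpw : (N : ℝ) ≤ (K : ℝ) ^ pw := by
      rcases le_or_gt 0 pw with h0 | h0
      · exact hNT.trans (Real.rpow_le_rpow (by linarith) hKR h0)
      · -- a negative exponent: the box is trivial
        have h1 : (T : ℝ) ^ pw ≤ 1 := Real.rpow_le_one_of_one_le_of_nonpos hTR h0.le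
        have h2 : (N : ℝ) = 1 := le_antisymm (hNT.trans h1) hNR
        have h3 : (K : ℝ) = 1 := by
          have h4 : (K : ℝ) ≤ N := by exact_mod_cast (show K ≤ N by omega)
          linarith
        rw [h2, h3, Real.one_rpow]
    have hLR : (L : ℝ) ≤ (K : ℝ) ^ pw := by
      have : (L : ℝ) ≤ N := by exact_mod_cast (show L ≤ N by omega)
      linarith
    have htK : |t| * EE μ s K ≤ (K : ℝ) ^ κ₁ := by
      have h1 : EE μ s K ≤ EE μ s N := EE_mono (by omega)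
      have h2 : (T : ℝ) ^ κ₁ ≤ (K : ℝ) ^ κ₁ := Real.rpow_le_rpow (by linarith) hKR hκ₁.le
      have h3 := mul_le_mul_of_nonneg_left h1 (abs_nonneg t)
      linarith
    have h1 := H K (g1.trans hTK) L hLR m (K - m) hm1 (by omega) t htK a x
    rw [hE]
    refine h1.trans (Real.exp_le_exp.2 (neg_le_neg ?_))
    exact Real.rpow_le_rpow (by linarith) hKR hc₁.le
  · have h1 : (I.card : ℝ) ≤ ((N : ℝ) + 1) ^ 4 * (8 * N + 1) := by
      have h2 : I.card ≤ ((N + 1) * (N + 1)) * ((N + 1) * (N + 1)) * (8 * N + 1) := by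
        rw [hI]
        refine (card_filter_le _ _).trans (le_of_eq ?_)
        rw [card_product, card_product, card_product, card_range, Int.card_Icc]
        congr 1
        omega
      have h3 : (I.card : ℝ) ≤ (((N + 1) * (N + 1)) * ((N + 1) * (N + 1)) * (8 * N + 1) : ℕ) := by exact_mod_cast h2
      refine h3.trans (le_of_eq ?_)
      push_cast
      ring
    refine h1.trans ?_
    have h2 : (N : ℝ) + 1 ≤ 20 * N := by linarith
    have h3 : 8 * (N : ℝ) + 1 ≤ 20 * N := by linarith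
    calc ((N : ℝ) + 1) ^ 4 * (8 * N + 1) ≤ (20 * (N : ℝ)) ^ 4 * (20 * N) :=
          mul_le_mul (pow_le_pow_left₀ (by positivity) h2 4) h3 (by positivity) (by positivity)
      _ = _ := by ring

/-- The probability of `EV84`. -/
theorem ev_prob (h : In μ s c C n₀) (hF : FUTS84 μ s) {e pw : ℝ} (he : 0 < e) (hpw : 0 < pw) : ∃ c₁ : ℝ, 0 < c₁ ∧ ∃ K₀ : ℕ, ∀ N T : ℕ,
    K₀ ≤ T → T ≤ N → (N : ℝ) ≤ (T : ℝ) ^ pw → (law μ).real (EV84 μ s e N T)ᶜ ≤ (20 * (N : ℝ)) ^ 6 * Real.exp (-(T : ℝ) ^ c₁) := by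
  obtain ⟨c₁, hc₁, T₀, H⟩ := hF e he pw
  obtain ⟨a₁, K₁, ha₁, ha₁', hK₁, hwp⟩ := wd'_pow h
  obtain ⟨n₁, hn₁⟩ := eventually_atTop.1 (ev84 (K₁ * wd' μ s 1) ha₁)
  refine ⟨c₁, hc₁, max T₀ (max n₁ 1), fun N T hT hTN hNT => ?_⟩
  have g1 : T₀ ≤ T := (le_max_left _ _).trans hT
  have g3 : n₁ ≤ T := (le_max_left _ _).trans ((le_max_right _ _).trans hT)
  have g2 : 1 ≤ T := (le_max_right _ _).trans ((le_max_right _ _).trans hT)
  have hTR : (1 : ℝ) ≤ T := by exact_mod_cast g2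
  have hNR : (1 : ℝ) ≤ N := by exact_mod_cast (g2.trans hTN)
  -- the width is smaller than the number of the rows
  have hwT : ∀ T' : ℕ, T ≤ T' → wd μ s T' ≤ T' := by
    intro T' hT'
    have h1 := g2.trans hT'
    have hR : (1 : ℝ) ≤ T' := by exact_mod_cast h1
    have h2 := (hwp 1 T' le_rfl h1).2.2
    rw [Nat.cast_one, div_one, wd'_eq' h h1] at h2
    have h3 := hn₁ T' (g3.trans hT')
    calc wd μ s T' ≤ K₁ * (T' : ℝ) ^ (1 - a₁) * wd' μ s 1 := h2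
      _ = (K₁ * wd' μ s 1) * (T' : ℝ) ^ (1 - a₁) := by ring
      _ ≤ (T' : ℝ) ^ a₁ * (T' : ℝ) ^ (1 - a₁) := mul_le_mul_of_nonneg_right h3 (by positivity)
      _ = T' := by
        rw [← Real.rpow_add (by linarith), show a₁ + (1 - a₁) = 1 by ring, Real.rpow_one]
  classical
  obtain ⟨I, hI⟩ : ∃ I : Finset ((ℕ × ℕ) × (ℕ × ℤ)), I = ((range (N + 1) ×ˢ range (N + 1)) ×ˢ (range (N ^ 3 + 1) ×ˢ
    Icc (-(5 * N : ℤ)) (5 * N))).filter fun q => T ≤ q.2.1 := ⟨_, rfl⟩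
  obtain ⟨E, hE⟩ : ∃ E : (ℕ × ℕ) × (ℕ × ℤ) → Set Env, E = fun q =>
    {η | sh ((q.1.1 : ℤ), q.2.2) η ∈ (FR μ s e q.2.1 q.1.2)ᶜ} := ⟨_, rfl⟩
  have hsub : (EV84 μ s e N T)ᶜ ⊆ ⋃ q ∈ I, E q := by
    intro η hη
    by_contra hcon
    refine hη ?_
    intro b L T' hb hL' hTT' hT'N z z' hz' hzz
    by_contra hbad
    refine hcon (Set.mem_iUnion₂.2 ⟨((b, L), (T', z')), ?_, ?_⟩)
    · rw [hI, mem_filter, mem_product, mem_product, mem_product, mem_range, mem_range, mem_range, mem_Icc]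
      have := abs_le.1 hz'
      exact ⟨⟨⟨by show b < N + 1; omega, by show L < N + 1; omega⟩, by show T' < N ^ 3 + 1; omega, by
        show -(5 * (N : ℤ)) ≤ z'
        omega, by
        show z' ≤ 5 * (N : ℤ)
        omega⟩, hTT'⟩
    · rw [hE]
      intro hgood
      refine hbad ?_
      have hT'R : |(z : ℝ) - z'| ≤ T' := hzz.trans (hwT T' hTT')
      have hzi : |z - z'| ≤ (T' : ℤ) := by
        have : ((|z - z'| : ℤ) : ℝ) ≤ ((T' : ℤ) : ℝ) := by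
          push_cast
          exact hT'R
        exact_mod_cast this
      have h1 := hgood (z - z') 0 hzi (by simp) (by
        push_cast
        rw [sub_zero]
        exact hzz)
      rw [V_sh, V_sh] at h1
      have e1 : (((0 : ℤ), z - z') : Pt) + ((b : ℤ), z') = ((b : ℤ), z) := by
        ext
        · show (0 : ℤ) + b = b
          ring
        · show z - z' + z' = z
          ring
      have e2 : (((0 : ℤ), (0 : ℤ)) : Pt) + ((b : ℤ), z') = ((b : ℤ), z') := by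
        ext
        · show (0 : ℤ) + b = b
          ring
        · show (0 : ℤ) + z' = z'
          ring
      rw [e1, e2] at h1
      exact h1
  refine (measureReal_mono hsub (measure_ne_top _ _)).trans (un84 I E ?_ (Real.exp_pos _).le ?_)
  · rintro ⟨⟨b, L⟩, ⟨T', z'⟩⟩ hq
    rw [hI, mem_filter, mem_product, mem_product, mem_product, mem_range, mem_range, mem_range, mem_Icc] at hq
    obtain ⟨⟨⟨hb, hL'⟩, hT'N, hz'⟩, hTT'⟩ := hq
    dsimp only at hb hL' hT'N hz' hTT'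
    have hKR : (T : ℝ) ≤ T' := by exact_mod_cast hTT'
    have hLR : (L : ℝ) ≤ (T' : ℝ) ^ pw := by
      have h1 : (L : ℝ) ≤ N := by exact_mod_cast (show L ≤ N by omega)
      exact (h1.trans hNT).trans (Real.rpow_le_rpow (by linarith) hKR hpw.le)
    have h1 := H T' (g1.trans hTT') L hLR
    rw [hE]
    show (law μ).real {η | sh ((b : ℤ), z') η ∈ (FR μ s e T' L)ᶜ} ≤ _
    rw [real_sh (μ := μ) _ (meas_FR e T' L).compl]
    refine le_trans (le_of_eq ?_) (h1.trans (Real.exp_le_exp.2 (neg_le_neg (Real.rpow_le_rpow (by linarith) hKR hc₁.le))))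
    rfl
  · have h1 : (I.card : ℝ) ≤ ((N : ℝ) + 1) ^ 2 * (((N : ℝ) ^ 3 + 1) * (10 * N + 1)) := by
      have h2 : I.card ≤ ((N + 1) * (N + 1)) * ((N ^ 3 + 1) * (10 * N + 1)) := by
        rw [hI]
        refine (card_filter_le _ _).trans (le_of_eq ?_)
        rw [card_product, card_product, card_product, card_range, card_range, Int.card_Icc]
        congr 2
        omega
      have h3 : (I.card : ℝ) ≤ (((N + 1) * (N + 1)) * ((N ^ 3 + 1) * (10 * N + 1)) : ℕ) := by exact_mod_cast h2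
      refine h3.trans (le_of_eq ?_)
      push_cast
      ring
    refine h1.trans ?_
    have h2 : (N : ℝ) + 1 ≤ 20 * N := by linarith
    have h3 : 10 * (N : ℝ) + 1 ≤ 20 * N := by linarith
    have h4 : (N : ℝ) ^ 3 + 1 ≤ (20 * N) ^ 3 := by
      have h5 : (1 : ℝ) ≤ (N : ℝ) ^ 3 := one_le_pow₀ hNR
      have h6 : (20 * (N : ℝ)) ^ 3 = 8000 * (N : ℝ) ^ 3 := by ring
      rw [h6]
      linarith
    calc ((N : ℝ) + 1) ^ 2 * (((N : ℝ) ^ 3 + 1) * (10 * N + 1)) ≤ (20 * (N : ℝ)) ^ 2 * ((20 * (N : ℝ)) ^ 3 * (20 * N)) :=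
          mul_le_mul (pow_le_pow_left₀ (by positivity) h2 2) (mul_le_mul h4 h3 (by positivity) (by positivity)) (by positivity)
            (by positivity)
      _ = _ := by ring

/-- The crude bounds of the box `N` at the lower scale `T`, for the profile of `Nt` rows with the force below the row `M`. -/
structure CrS84 (μ : Measure ℝ) (s t ε δ c' : ℝ) (N T M Nt : ℕ) (p : ℕ → ℝ) (η : Env) : Prop where
  cr : ∀ a : ℕ, a + 1 ≤ Nt → (T ≤ M - a ∨ |t| * ((M - a : ℕ) : ℝ) ≤ 1) → ∀ x x' : ℤ, |x| ≤ 4 * N → |x'| ≤ 4 * N →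
    bh16 μ s t η p M Nt a x ≤ Real.exp ((N : ℝ) ^ ε * (EE μ s T + Real.sqrt |(x : ℝ) - x'|)) * bh16 μ s t η p M Nt a x'
  ca : ∀ a m : ℕ, T ≤ m → a + m + 1 ≤ Nt → (m ≤ M - a ∨ |t| * ((M - a : ℕ) : ℝ) ≤ 1) → ∀ x : ℤ, |x| ≤ 4 * N →
    PM16 (fun a b x z => nk μ s t η p M a (b - a) x z) (bh16 μ s t η p M Nt) a (a + m) x
      (fun z => (N : ℝ) ^ ε * wd μ s m ≤ |(z : ℝ) - x - sl μ s * m|) ≤ Real.exp (-(N : ℝ) ^ c') * bh16 μ s t η p M Nt a x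
  cl : ∀ a m : ℕ, T ≤ m → a + m ≤ N → (m ≤ M - a ∨ |t| * ((M - a : ℕ) : ℝ) ≤ 1) → ∀ x z : ℤ, |x| ≤ 4 * N →
    |(z : ℝ) - x - sl μ s * m| ≤ (N : ℝ) ^ δ * wd μ s m → Real.exp (-((N : ℝ) ^ ε * EE μ s m)) ≤ nk μ s t η p M a m x z
  cu : ∀ a m : ℕ, T ≤ m → a + m ≤ N → (m ≤ M - a ∨ |t| * ((M - a : ℕ) : ℝ) ≤ 1) → ∀ x z : ℤ, |x| ≤ 4 * N →
    nk μ s t η p M a m x z ≤ Real.exp ((N : ℝ) ^ ε * EE μ s m + |t| * |(z : ℝ) - x - sl μ s * m|)

/-- **THE CRUDE TOP.** -/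
theorem crd84 (h : In μ s c C n₀) (hL : LB84 μ s) (hU : UB84 μ s) (hF : FUT84 μ s) {ε τ : ℝ} (hε : 0 < ε) (hτ : 0 < τ) :
    ∃ δ κ c' : ℝ, 0 < δ ∧ 0 < κ ∧ 0 < c' ∧ ∃ N₀ : ℕ, ∀ N T : ℕ, N₀ ≤ N → (N : ℝ) ^ τ ≤ T → T ≤ N → ∀ t : ℝ, |t| * EE μ s N ≤ (N : ℝ) ^ κ →
    ∃ G : Set Env, (law μ).real Gᶜ ≤ Real.exp (-(N : ℝ) ^ c') ∧ ∀ η ∈ G, ∀ (M Nt : ℕ) (p : ℕ → ℝ), M + 1 ≤ Nt → Nt ≤ N →
      (∀ k, k < M → p k = Real.exp (s + t)) → (∀ k, M ≤ k → p k = Real.exp s) → CrS84 μ s t ε δ c' N T M Nt p η := by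
  have hF' := futs84 h hF
  obtain ⟨δ₀, c₂, hδ₀, hc₂, L₂, hpb⟩ := pbox h (ε / 16) (by positivity)
  obtain ⟨a₁, K₁, ha₁, ha₁', hK₁, hwp⟩ := wd'_pow h
  obtain ⟨δ, hδd⟩ : ∃ δ : ℝ, δ = min (min δ₀ (ε / 8)) (τ * a₁ / 4) := ⟨_, rfl⟩
  have hδ0 : 0 < δ := by rw [hδd]; positivity
  have hδ1 : δ ≤ δ₀ := by rw [hδd]; exact (min_le_left _ _).trans (min_le_left _ _)
  have hδ2 : δ ≤ ε / 8 := by rw [hδd]; exact (min_le_left _ _).trans (min_le_right _ _)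
  have hδ3 : δ ≤ τ * a₁ / 4 := by rw [hδd]; exact min_le_right _ _
  obtain ⟨κ₁, c₁, hκ₁, hc₁, K₂, hec⟩ := ec_prob h hL hU hF' (ε₁ := δ / 2) (pw := 1 / τ) (by positivity)
  obtain ⟨c₃, hc₃, K₃, hev⟩ := ev_prob h hF' (e := ε / 12) (pw := 1 / τ) (by positivity) (by positivity)
  obtain ⟨κ, hκd⟩ : ∃ κ : ℝ, κ = min (ε / 8) (τ * κ₁) := ⟨_, rfl⟩
  have hκ0 : 0 < κ := by rw [hκd]; positivity
  have hκ1 : κ ≤ ε / 8 := by rw [hκd]; exact min_le_left _ _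
  have hκ2 : κ ≤ τ * κ₁ := by rw [hκd]; exact min_le_right _ _
  obtain ⟨g, hgd⟩ : ∃ g : ℝ, g = min (min (τ * c₁) (τ * c₃)) c₂ := ⟨_, rfl⟩
  have hg0 : 0 < g := by rw [hgd]; positivity
  have hg1 : g ≤ τ * c₁ := by rw [hgd]; exact (min_le_left _ _).trans (min_le_left _ _)
  have hg2 : g ≤ τ * c₃ := by rw [hgd]; exact (min_le_left _ _).trans (min_le_right _ _)
  have hg3 : g ≤ c₂ := by rw [hgd]; exact min_le_right _ _
  obtain ⟨n₁, hcr⟩ := cr84 h hL hU (ε := ε) (δ := δ) (ε₁ := δ / 2) (κ := κ) (c₁ := c₁) hε hδ0 hδ2 (by positivity) le_rfl hκ1 hc₁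
  obtain ⟨n₂, hca⟩ := ca84 h (ε := ε) (ε₁ := δ / 2) (c₁ := c₁) (c' := g / 2) (pw := 1 / τ) (by linarith) (by positivity) hc₁
    (by positivity) (by
      rw [div_mul_eq_mul_div, one_mul, div_le_iff₀ hτ]
      linarith) (by positivity)
  obtain ⟨n₃, hcl⟩ := cl84 h hL (ε := ε) (δ := δ) (κ := κ) hε hδ0 hδ2 hκ1
  have hs0 := h.sl_pos
  have hs1 := h.sl_lt
  obtain ⟨g₀, hg₀⟩ : ∃ g₀ : ℝ, g₀ = min (sl μ s) (1 - sl μ s) := ⟨_, rfl⟩
  have hg00 : 0 < g₀ := by rw [hg₀]; exact lt_min hs0 (by linarith)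
  have hgl : g₀ ≤ sl μ s := by rw [hg₀]; exact min_le_left _ _
  have hgr : g₀ ≤ 1 - sl μ s := by rw [hg₀]; exact min_le_right _ _
  obtain ⟨n₄, hn₄⟩ := eventually_atTop.1 (ev84 (K₁ * wd' μ s 1 / g₀) (show 0 < a₁ / 2 by positivity))
  obtain ⟨B, hB⟩ : ∃ B : ℕ, B = max (max (max K₂ K₃) (max n₁ n₂)) (max (max n₃ n₄) 4) := ⟨_, rfl⟩
  have ev1 := Pool.Agent.W_7d29a1_HZ.Z22.absorb (4 * 20 ^ 6) 6 (b := 1) (g := g) one_pos hg0
  obtain ⟨N₁, hN₁⟩ := eventually_atTop.1 (ev1.and (ev84 (B : ℝ) hτ))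
  refine ⟨δ, κ, g / 2, hδ0, hκ0, by positivity, max N₁ (max L₂ 4), fun N T hN hNT hTN t ht => ?_⟩
  have k1 : N₁ ≤ N := (le_max_left _ _).trans hN
  have k2 : L₂ ≤ N := (le_max_left _ _).trans ((le_max_right _ _).trans hN)
  have k4 : 4 ≤ N := (le_max_right _ _).trans ((le_max_right _ _).trans hN)
  obtain ⟨q1, q2⟩ := hN₁ N k1
  have hNR : (1 : ℝ) ≤ N := by exact_mod_cast (show 1 ≤ N by omega)
  have hN0 : (0 : ℝ) < N := by linarith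
  have hBT : B ≤ T := by
    have : (B : ℝ) ≤ T := q2.trans hNT
    exact_mod_cast this
  have b1 : K₂ ≤ T := (((le_max_left _ _).trans (le_max_left _ _)).trans ((le_max_left _ _).trans hB.ge)).trans hBT
  have b2 : K₃ ≤ T := (((le_max_right _ _).trans (le_max_left _ _)).trans ((le_max_left _ _).trans hB.ge)).trans hBT
  have b3 : n₁ ≤ T := (((le_max_left _ _).trans (le_max_right _ _)).trans ((le_max_left _ _).trans hB.ge)).trans hBT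
  have b4 : n₂ ≤ T := (((le_max_right _ _).trans (le_max_right _ _)).trans ((le_max_left _ _).trans hB.ge)).trans hBT
  have b5 : n₃ ≤ T := (((le_max_left _ _).trans (le_max_left _ _)).trans ((le_max_right _ _).trans hB.ge)).trans hBT
  have b6 : n₄ ≤ T := (((le_max_right _ _).trans (le_max_left _ _)).trans ((le_max_right _ _).trans hB.ge)).trans hBT
  have b7 : 4 ≤ T := ((le_max_right _ _).trans ((le_max_right _ _).trans hB.ge)).trans hBT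
  have hTR : (1 : ℝ) ≤ T := by exact_mod_cast (show 1 ≤ T by omega)
  have hNTp : (N : ℝ) ≤ (T : ℝ) ^ (1 / τ) := by
    have h1 := Real.rpow_le_rpow (by positivity) hNT (show 0 ≤ 1 / τ by positivity)
    rwa [← Real.rpow_mul hN0.le, mul_one_div_cancel hτ.ne', Real.rpow_one] at h1
  have hTc : ∀ {u : ℝ}, 0 < u → (N : ℝ) ^ (τ * u) ≤ (T : ℝ) ^ u := by
    intro u hu
    rw [Real.rpow_mul hN0.le]
    exact Real.rpow_le_rpow (by positivity) hNT hu.le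
  -- the cone
  have hcone : ∀ m : ℕ, T ≤ m → ((4 * N : ℕ) : ℝ) ^ δ * wd μ s m ≤ sl μ s * m ∧
      ((4 * N : ℕ) : ℝ) ^ δ * wd μ s m ≤ (1 - sl μ s) * m := by
    intro m hm
    have hm1 : 1 ≤ m := by omega
    have hmR : (T : ℝ) ≤ m := by exact_mod_cast hm
    have hm0 : (0 : ℝ) < m := by linarith
    have hw1 : 0 < wd' μ s 1 := by
      rw [wd'_eq' h le_rfl]
      exact h.wd_pos le_rfl
    have h1 := (hwp 1 m le_rfl hm1).2.2
    rw [Nat.cast_one, div_one, wd'_eq' h hm1] at h1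
    have h2 : ((4 * N : ℕ) : ℝ) ^ δ ≤ (m : ℝ) ^ (a₁ / 2) := by
      calc ((4 * N : ℕ) : ℝ) ^ δ ≤ (N : ℝ) ^ (2 * δ) := four_pow k4 hδ0.le
        _ ≤ (N : ℝ) ^ (τ * (a₁ / 2)) := Real.rpow_le_rpow_of_exponent_le hNR (by linarith)
        _ ≤ (T : ℝ) ^ (a₁ / 2) := hTc (by positivity)
        _ ≤ _ := Real.rpow_le_rpow (by linarith) hmR (by positivity)
    have h3 := hn₄ m (b6.trans hm)
    rw [div_le_iff₀ hg00] at h3
    have h4 : ((4 * N : ℕ) : ℝ) ^ δ * wd μ s m ≤ g₀ * m := by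
      calc ((4 * N : ℕ) : ℝ) ^ δ * wd μ s m ≤ (m : ℝ) ^ (a₁ / 2) * (K₁ * (m : ℝ) ^ (1 - a₁) * wd' μ s 1) :=
            mul_le_mul h2 h1 (h.wd_nonneg m) (by positivity)
        _ = (m : ℝ) ^ (a₁ / 2) * (m : ℝ) ^ (1 - a₁) * (K₁ * wd' μ s 1) := by ring
        _ ≤ (m : ℝ) ^ (a₁ / 2) * (m : ℝ) ^ (1 - a₁) * ((m : ℝ) ^ (a₁ / 2) * g₀) := mul_le_mul_of_nonneg_left h3 (by positivity)
        _ = g₀ * ((m : ℝ) ^ (a₁ / 2) * (m : ℝ) ^ (1 - a₁) * (m : ℝ) ^ (a₁ / 2)) := by ring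
        _ = g₀ * m := by
          rw [← Real.rpow_add hm0, ← Real.rpow_add hm0, show a₁ / 2 + (1 - a₁) + a₁ / 2 = 1 by ring, Real.rpow_one]
    exact ⟨h4.trans (mul_le_mul_of_nonneg_right hgl hm0.le), h4.trans (mul_le_mul_of_nonneg_right hgr hm0.le)⟩
  -- the event
  have htT : |t| * EE μ s N ≤ (T : ℝ) ^ κ₁ :=
    ht.trans ((Real.rpow_le_rpow_of_exponent_le hNR hκ2).trans (hTc hκ₁))
  have p1 := hec N T b1 hTN hNTp t htT
  have p2 := hec N T b1 hTN hNTp 0 (by rw [abs_zero, zero_mul]; positivity)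
  have p3 := hev N T b2 hTN hNTp
  have p4 : (law μ).real {η | ¬ PBox μ s (4 * N) δ₀ (ε / 16) η} ≤ Real.exp (-((4 * N : ℕ) : ℝ) ^ c₂) :=
    ENNReal.toReal_le_of_le_ofReal (Real.exp_pos _).le (hpb (4 * N) (by omega))
  refine ⟨EC84 μ s t (δ / 2) c₁ N T ∩ EC84 μ s 0 (δ / 2) c₁ N T ∩ (EV84 μ s (ε / 12) N T ∩ {η | PBox μ s (4 * N) δ₀ (ε / 16) η}), ?_, ?_⟩
  · have hsub : (EC84 μ s t (δ / 2) c₁ N T ∩ EC84 μ s 0 (δ / 2) c₁ N T ∩
        (EV84 μ s (ε / 12) N T ∩ {η | PBox μ s (4 * N) δ₀ (ε / 16) η}))ᶜ ⊆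
        ((EC84 μ s t (δ / 2) c₁ N T)ᶜ ∪ (EC84 μ s 0 (δ / 2) c₁ N T)ᶜ) ∪
        ((EV84 μ s (ε / 12) N T)ᶜ ∪ {η | ¬ PBox μ s (4 * N) δ₀ (ε / 16) η}) := by
      intro η hη
      by_contra hcon
      rw [Set.mem_union, Set.mem_union, Set.mem_union, not_or, not_or, not_or] at hcon
      exact hη ⟨⟨not_not.1 hcon.1.1, not_not.1 hcon.1.2⟩, not_not.1 hcon.2.1, not_not.1 hcon.2.2⟩
    refine (measureReal_mono hsub (measure_ne_top _ _)).trans ?_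
    have u1 := measureReal_union_le (μ := law μ) ((EC84 μ s t (δ / 2) c₁ N T)ᶜ ∪ (EC84 μ s 0 (δ / 2) c₁ N T)ᶜ)
      ((EV84 μ s (ε / 12) N T)ᶜ ∪ {η | ¬ PBox μ s (4 * N) δ₀ (ε / 16) η})
    have u2 := measureReal_union_le (μ := law μ) (EC84 μ s t (δ / 2) c₁ N T)ᶜ (EC84 μ s 0 (δ / 2) c₁ N T)ᶜ
    have u3 := measureReal_union_le (μ := law μ) (EV84 μ s (ε / 12) N T)ᶜ {η | ¬ PBox μ s (4 * N) δ₀ (ε / 16) η}
    obtain ⟨E, hE⟩ : ∃ E : ℝ, E = Real.exp (-(N : ℝ) ^ g) := ⟨_, rfl⟩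
    have hE0 : 0 < E := by rw [hE]; exact Real.exp_pos _
    have v1 : Real.exp (-(T : ℝ) ^ c₁) ≤ E := by
      rw [hE]
      exact Real.exp_le_exp.2 (neg_le_neg ((Real.rpow_le_rpow_of_exponent_le hNR hg1).trans (hTc hc₁)))
    have v2 : Real.exp (-(T : ℝ) ^ c₃) ≤ E := by
      rw [hE]
      exact Real.exp_le_exp.2 (neg_le_neg ((Real.rpow_le_rpow_of_exponent_le hNR hg2).trans (hTc hc₃)))
    have v3 : Real.exp (-((4 * N : ℕ) : ℝ) ^ c₂) ≤ E := by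
      rw [hE]
      refine Real.exp_le_exp.2 (neg_le_neg ((Real.rpow_le_rpow_of_exponent_le hNR hg3).trans ?_))
      exact Real.rpow_le_rpow hN0.le (by push_cast; linarith) hc₂.le
    have hN5 : (20 * (N : ℝ)) ^ 5 ≤ (20 * (N : ℝ)) ^ 6 := pow_le_pow_right₀ (by linarith) (by norm_num)
    have w1 : (20 * (N : ℝ)) ^ 5 * Real.exp (-(T : ℝ) ^ c₁) ≤ (20 * (N : ℝ)) ^ 6 * E :=
      mul_le_mul hN5 v1 (Real.exp_pos _).le (by positivity)
    have w2 : (20 * (N : ℝ)) ^ 6 * Real.exp (-(T : ℝ) ^ c₃) ≤ (20 * (N : ℝ)) ^ 6 * E := mul_le_mul_of_nonneg_left v2 (by positivity)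
    have w3 : E ≤ (20 * (N : ℝ)) ^ 6 * E := le_mul_of_one_le_left hE0.le (one_le_pow₀ (by linarith))
    have w4 : 4 * ((20 * (N : ℝ)) ^ 6 * E) ≤ Real.exp (-(N : ℝ) ^ (g / 2)) := by
      refine le_trans (le_of_eq ?_) q1
      rw [hE, one_mul, show ((6 : ℝ)) = ((6 : ℕ) : ℝ) by norm_num, Real.rpow_natCast]
      ring
    linarith
  · rintro η ⟨⟨hη1, hη2⟩, hη3, hη4⟩ M Nt p hM hNt hp hp'
    have hPB : PBox μ s (4 * N) δ (ε / 16) η := Pool.Agent.W_7d29a1_HZ.PBox.mono (by omega) hδ1 le_rfl hη4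
    refine ⟨?_, ?_, ?_, ?_⟩
    · intro a ha hcase x x' hx hx'
      have hk : kN M Nt a = M - a := by
        unfold kN bl
        omega
      have h1 := hcr N T b3 hTN hcone ht hη1 hη3 hPB a (kN M Nt a) (lN M Nt a) (by
        have := kN_add M Nt a
        omega) (by rw [hk]; exact hcase) x x' hx hx'
      have hc := (cN_pos (μ := μ) (s := s) (h := t) (pos_p hp hp') M Nt).le
      rw [bh_TG hp hp' ha, bh_TG hp hp' ha]
      have h2 := mul_le_mul_of_nonneg_left (Real.exp_le_exp.2 h1) hc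
      rw [Real.exp_add] at h2
      linarith [show cN μ s t p M Nt * (Real.exp (TG μ s t (kN M Nt a) (lN M Nt a) η ((a : ℤ), x')) *
        Real.exp ((N : ℝ) ^ ε * (EE μ s T + Real.sqrt |(x : ℝ) - x'|))) =
        Real.exp ((N : ℝ) ^ ε * (EE μ s T + Real.sqrt |(x : ℝ) - x'|)) *
          (cN μ s t p M Nt * Real.exp (TG μ s t (kN M Nt a) (lN M Nt a) η ((a : ℤ), x'))) by ring]
    · intro a m hTm ham hcase x hx
      exact hca N T b4 hTN hNTp hη1 hη2 hp hp' hNt a m hTm ham hcase x hx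
    · intro a m hTm ham hcase x z hx hz
      exact (hcl N T b5 hTN hcone ht hPB hp hp' a m hTm ham hcase x z hx).1 hz
    · intro a m hTm ham hcase x z hx
      exact (hcl N T b5 hTN hcone ht hPB hp hp' a m hTm ham hcase x z hx).2

end

end Pool.Agent.W_7d29a1_C1.Cr84
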