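import Pool.Agent.W_7d29a1_C1.Fut67

/-!
MP_7d29a1_pr, C1: the future is smooth at all scales at once (helper67). Outside an event of probability `exp (- K ^ c')`, for all sites `x, x'` of
the box: `|V (0, x) L - V (0, x') L| ≤ K ^ e (EE K + |x - x'| ^ (1/2))`, for `K ^ (5/2) ≤ L ≤ K ^ p`.
-/

set_option autoImplicit false

namespace Pool.Agent.W_7d29a1_C1

open Finset MeasureTheory ProbabilityTheory Filter Topology
open Pool.Agent.W_7d29a1_F Pool.Agent.W_7d29a1_X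
open Pool.Agent.W_7d29a1_H (sl EE EE_pos one_le_EE)
open Pool.Agent.W_7d29a1_HS (In wd)
open Pool.Agent.W_7d29a1_HZ (wd' EE')
open scoped ENNReal

noncomputable section

variable {μ : Measure ℝ} {s : ℝ} [IsProbabilityMeasure μ] {c C : ℝ} {n₀ : ℕ}

/-- The width is at least `n ^ (1/2 - e)` (from the upper bound of the variance and the Newman - Piza inequality). -/
theorem wd_half67 (h : In μ s c C n₀)
    (hU : ∀ ε : ℝ, 0 < ε → ∃ n₁ : ℕ, ∀ n : ℕ, n₁ ≤ n → EE μ s n ^ 2 ≤ (n : ℝ) ^ ε * wd μ s n) {e : ℝ} (he : 0 < e) :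
    ∃ n₁ : ℕ, ∀ n : ℕ, n₁ ≤ n → (n : ℝ) ^ (1 / 2 - e) ≤ wd μ s n := by
  obtain ⟨K, hK, hnp⟩ := Pool.Agent.W_7d29a1_HZ.np_weak h
  obtain ⟨n₁, h1⟩ := hU e he
  obtain ⟨n₂, h2⟩ := Pool.Agent.W_7d29a1_HZ.wd'_eq h
  have ev : ∀ᶠ n : ℕ in atTop, K ≤ (n : ℝ) ^ e := ((tendsto_rpow_atTop he).comp tendsto_natCast_atTop_atTop).eventually_ge_atTop _
  obtain ⟨n₃, h3⟩ := eventually_atTop.1 ev
  refine ⟨max (max n₁ n₂) (max n₃ 1), fun n hn => ?_⟩
  have g1 := h1 n ((le_max_left _ _).trans ((le_max_left _ _).trans hn))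
  obtain ⟨w1, w2, -⟩ := h2 n ((le_max_right _ _).trans ((le_max_left _ _).trans hn))
  have g3 := h3 n ((le_max_left _ _).trans ((le_max_right _ _).trans hn))
  have hn1 : 1 ≤ n := (le_max_right _ _).trans ((le_max_right _ _).trans hn)
  have hnR : (1 : ℝ) ≤ n := by exact_mod_cast hn1
  have hn0 : (0 : ℝ) < n := by linarith
  have g4 := hnp n hn1
  rw [w1, w2] at g4
  have hw := h.wd_pos hn1
  have hE := EE_pos (μ := μ) (s := s) n
  have h5 : (n : ℝ) ≤ (n : ℝ) ^ (2 * e) * wd μ s n ^ 2 := by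
    calc (n : ℝ) ≤ K * (wd μ s n * EE μ s n ^ 2) := g4
      _ ≤ (n : ℝ) ^ e * (wd μ s n * ((n : ℝ) ^ e * wd μ s n)) := by
          refine mul_le_mul g3 (mul_le_mul_of_nonneg_left g1 hw.le) (by positivity) (by positivity)
      _ = (n : ℝ) ^ e * (n : ℝ) ^ e * wd μ s n ^ 2 := by ring
      _ = _ := by
        rw [← Real.rpow_add hn0]
        congr 2
        ring
  have h6 : ((n : ℝ) ^ (1 / 2 - e)) ^ 2 ≤ wd μ s n ^ 2 := by
    have e1 : ((n : ℝ) ^ (1 / 2 - e)) ^ 2 = (n : ℝ) ^ (-(2 * e)) * n := by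
      rw [← Real.rpow_natCast, ← Real.rpow_mul hn0.le]
      nth_rewrite 3 [← Real.rpow_one (n : ℝ)]
      rw [← Real.rpow_add hn0]
      congr 1
      push_cast
      ring
    have e2 : (n : ℝ) ^ (-(2 * e)) * ((n : ℝ) ^ (2 * e) * wd μ s n ^ 2) = wd μ s n ^ 2 := by
      rw [← mul_assoc, ← Real.rpow_add hn0]
      have : -(2 * e) + 2 * e = 0 := by ring
      rw [this, Real.rpow_zero, one_mul]
    rw [e1]
    refine le_trans (mul_le_mul_of_nonneg_left h5 (by positivity)) (le_of_eq e2)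
  exact (pow_le_pow_iff_left₀ (by positivity) hw.le (by norm_num)).1 h6

/-- The smoothness event at the scale `T`. -/
def FE67 (μ : Measure ℝ) (s : ℝ) (e : ℝ) (T L : ℕ) (η : Env) : Prop :=
  ∀ x x' : ℤ, |x| ≤ (T : ℤ) → |x'| ≤ (T : ℤ) → |((x : ℝ) - x')| ≤ wd μ s T →
    |V μ s η (0, x) L - V μ s η (0, x') L| ≤ (T : ℝ) ^ e * EE μ s T

/-- The smoothness event at all scales. -/
def FA67 (μ : Measure ℝ) (s : ℝ) (e : ℝ) (K L : ℕ) (η : Env) : Prop :=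
  ∀ x x' : ℤ, |x| ≤ (K : ℤ) → |x'| ≤ (K : ℤ) →
    |V μ s η (0, x) L - V μ s η (0, x') L| ≤ (K : ℝ) ^ e * (EE μ s K + Real.sqrt |((x : ℝ) - x')|)

/-- **The deterministic step**: all scales `T ∈ [K, K ^ 3]`, `T ≤ L`, give the simultaneous bound. -/
theorem fa_det (h : In μ s c C n₀)
    (hU : ∀ ε : ℝ, 0 < ε → ∃ n₁ : ℕ, ∀ n : ℕ, n₁ ≤ n → EE μ s n ^ 2 ≤ (n : ℝ) ^ ε * wd μ s n) {e : ℝ} (he : 0 < e) :
    ∃ K₀ : ℕ, ∀ K L : ℕ, K₀ ≤ K → (K : ℝ) ^ (5 / 2 : ℝ) ≤ L → ∀ η : Env,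
      (∀ T : ℕ, K ≤ T → T ≤ K ^ 3 → T ≤ L → FE67 μ s (e / 12) T L η) → FA67 μ s e K L η := by
  obtain ⟨n₁, hw4⟩ := wd_half67 h hU (e := 1 / 18) (by norm_num)
  obtain ⟨n₂, hU2⟩ := hU (e / 12) (by positivity)
  have ev1 : ∀ᶠ K : ℕ in atTop, (4 : ℝ) ≤ (K : ℝ) ^ (e / 2) :=
    ((tendsto_rpow_atTop (by positivity : 0 < e / 2)).comp tendsto_natCast_atTop_atTop).eventually_ge_atTop _
  have ev2 : ∀ᶠ K : ℕ in atTop, (9 : ℝ) ≤ (K : ℝ) ^ (1 / 4 : ℝ) :=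
    ((tendsto_rpow_atTop (by norm_num : (0 : ℝ) < 1 / 4)).comp tendsto_natCast_atTop_atTop).eventually_ge_atTop _
  obtain ⟨n₃, hn₃⟩ := eventually_atTop.1 (ev1.and ev2)
  refine ⟨max (max n₁ n₂) (max n₃ 1), fun K L hK hKL η hG x x' hx hx' => ?_⟩
  have k1 : n₁ ≤ K := (le_max_left _ _).trans ((le_max_left _ _).trans hK)
  have k2 : n₂ ≤ K := (le_max_right _ _).trans ((le_max_left _ _).trans hK)
  obtain ⟨q1, q2⟩ := hn₃ K ((le_max_left _ _).trans ((le_max_right _ _).trans hK))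
  have hK1 : 1 ≤ K := (le_max_right _ _).trans ((le_max_right _ _).trans hK)
  have hKR : (1 : ℝ) ≤ K := by exact_mod_cast hK1
  have hK0 : (0 : ℝ) < K := by linarith
  obtain ⟨D, hD⟩ : ∃ D : ℝ, D = |((x : ℝ) - x')| := ⟨_, rfl⟩
  have hD0 : 0 ≤ D := by rw [hD]; exact abs_nonneg _
  rw [← hD]
  have hD2 : D ≤ 2 * K := by
    have h1 : |(x : ℝ)| ≤ K := by exact_mod_cast hx
    have h2 : |(x' : ℝ)| ≤ K := by exact_mod_cast hx'
    rw [hD]
    refine (abs_sub _ _).trans ?_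
    linarith
  have hEK := EE_pos (μ := μ) (s := s) K
  have h25 : (K : ℝ) ≤ (K : ℝ) ^ (5 / 2 : ℝ) := by
    nth_rewrite 1 [← Real.rpow_one (K : ℝ)]
    exact Real.rpow_le_rpow_of_exponent_le hKR (by norm_num)
  have hK3 : K ≤ K ^ 3 := Nat.le_self_pow (by norm_num) K
  rcases le_or_gt D (wd μ s K) with hc | hc
  · have hTL : K ≤ L := by
      have : (K : ℝ) ≤ L := h25.trans hKL
      exact_mod_cast this
    have h3 := hG K le_rfl hK3 hTL x x' hx hx' (by rw [← hD]; exact hc)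
    refine h3.trans ?_
    refine mul_le_mul (Real.rpow_le_rpow_of_exponent_le hKR (by linarith)) ?_ hEK.le (by positivity)
    have := Real.sqrt_nonneg D
    linarith
  · -- the first scale
    have hex : ∃ T : ℕ, K ≤ T ∧ D ≤ wd μ s T := by
      obtain ⟨T, hT1, hT2⟩ := ((Pool.Agent.W_7d29a1_HS.wd_tendsto h).eventually_ge_atTop D |>.and (eventually_ge_atTop K)).exists
      exact ⟨T, hT2, hT1⟩
    classical
    obtain ⟨T, hTf⟩ : ∃ T : ℕ, T = Nat.find hex := ⟨_, rfl⟩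
    have hTs := Nat.find_spec hex
    rw [← hTf] at hTs
    obtain ⟨hKT, hDT⟩ := hTs
    have hne : K ≠ T := by
      rintro rfl
      linarith
    have hlt : K < T := lt_of_le_of_ne hKT hne
    obtain ⟨m, rfl⟩ : ∃ m : ℕ, T = m + 1 := ⟨T - 1, by omega⟩
    have hKm : K ≤ m := by omega
    have hwm : wd μ s m < D := by
      by_contra hcon
      rw [not_lt] at hcon
      have h3 := Nat.find_min' hex ⟨hKm, hcon⟩
      omega
    have hm1 : 1 ≤ m := hK1.trans hKm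
    have hmR : (1 : ℝ) ≤ m := by exact_mod_cast hm1
    have hm0 : (0 : ℝ) < m := by linarith
    -- `m ≤ (2 K) ^ (9 / 4)`
    have h4 : (m : ℝ) ^ (4 / 9 : ℝ) ≤ 2 * K := by
      have h5 := hw4 m (k1.trans hKm)
      have e1 : (1 / 2 - 1 / 18 : ℝ) = 4 / 9 := by norm_num
      rw [e1] at h5
      linarith
    have h5 : (m : ℝ) ≤ 5 * (K : ℝ) ^ (9 / 4 : ℝ) := by
      have h6 := Real.rpow_le_rpow (by positivity) h4 (show (0 : ℝ) ≤ 9 / 4 by norm_num)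
      rw [← Real.rpow_mul hm0.le, show (4 / 9 : ℝ) * (9 / 4) = 1 by norm_num, Real.rpow_one,
        Real.mul_rpow (by norm_num) hK0.le] at h6
      refine h6.trans (mul_le_mul_of_nonneg_right ?_ (by positivity))
      have e2 : (2 : ℝ) ^ (9 / 4 : ℝ) = 2 ^ (2 : ℝ) * 2 ^ (1 / 4 : ℝ) := by
        rw [← Real.rpow_add (by norm_num)]
        norm_num
      rw [e2]
      have e3 : (2 : ℝ) ^ (1 / 4 : ℝ) ≤ 5 / 4 := by
        have h7 : ((2 : ℝ) ^ (1 / 4 : ℝ)) ^ (4 : ℕ) = 2 := by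
          rw [← Real.rpow_natCast, ← Real.rpow_mul (by norm_num)]
          norm_num
        by_contra hcon
        rw [not_le] at hcon
        have h8 : (5 / 4 : ℝ) ^ (4 : ℕ) < ((2 : ℝ) ^ (1 / 4 : ℝ)) ^ (4 : ℕ) := pow_lt_pow_left₀ hcon (by norm_num) (by norm_num)
        rw [h7] at h8
        norm_num at h8
      have e4 : (2 : ℝ) ^ (2 : ℝ) = 4 := by
        rw [show (2 : ℝ) = ((2 : ℕ) : ℝ) by norm_num, Real.rpow_natCast]
        norm_num
      rw [e4]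
      linarith
    have h6 : ((m + 1 : ℕ) : ℝ) ≤ (K : ℝ) ^ (5 / 2 : ℝ) := by
      have e1 : (K : ℝ) ^ (5 / 2 : ℝ) = (K : ℝ) ^ (9 / 4 : ℝ) * (K : ℝ) ^ (1 / 4 : ℝ) := by
        rw [← Real.rpow_add hK0]
        norm_num
      have h7 : (1 : ℝ) ≤ (K : ℝ) ^ (9 / 4 : ℝ) := Real.one_le_rpow hKR (by norm_num)
      rw [e1]
      push_cast
      nlinarith
    have hTL : m + 1 ≤ L := by
      have : ((m + 1 : ℕ) : ℝ) ≤ L := h6.trans hKL
      exact_mod_cast this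
    have hT3 : m + 1 ≤ K ^ 3 := by
      have h7 : ((m + 1 : ℕ) : ℝ) ≤ (K : ℝ) ^ (3 : ℕ) := by
        refine h6.trans ?_
        rw [← Real.rpow_natCast]
        exact Real.rpow_le_rpow_of_exponent_le hKR (by norm_num)
      exact_mod_cast h7
    have h8 := hG (m + 1) hKT hT3 hTL x x' (hx.trans (by exact_mod_cast hKT)) (hx'.trans (by exact_mod_cast hKT))
      (by rw [← hD]; exact hDT)
    refine h8.trans ?_
    -- the unit
    have hEm := EE_pos (μ := μ) (s := s) m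
    have h9 : EE μ s (m + 1) ≤ 4 * EE μ s m := by
      have h10 := Pool.Agent.W_7d29a1_HS.scale_b h hm1 (Nat.le_succ m)
      have e1 : (((m.succ : ℕ)) : ℝ) = m + 1 := by push_cast; ring
      rw [e1] at h10
      have h11 : (m : ℝ) * EE μ s (m + 1) ≤ m * (4 * EE μ s m) := by
        refine h10.trans ?_
        nlinarith
      exact le_of_mul_le_mul_left h11 hm0
    have h10 := hU2 m (k2.trans hKm)
    have h11 : EE μ s m ≤ (K : ℝ) ^ (e / 8) * Real.sqrt D := by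
      have h12 : (m : ℝ) ^ (e / 12) ≤ (K : ℝ) ^ (e / 4) := by
        have h13 : (m : ℝ) ≤ (K : ℝ) ^ (3 : ℝ) := by
          have h14 : (m : ℝ) ≤ ((m + 1 : ℕ) : ℝ) := by push_cast; linarith
          refine h14.trans (h6.trans (Real.rpow_le_rpow_of_exponent_le hKR (by norm_num)))
        have h15 := Real.rpow_le_rpow hm0.le h13 (show 0 ≤ e / 12 by positivity)
        rw [← Real.rpow_mul hK0.le, show 3 * (e / 12) = e / 4 by ring] at h15
        exact h15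
      have h13 : EE μ s m ^ 2 ≤ ((K : ℝ) ^ (e / 8) * Real.sqrt D) ^ 2 := by
        have e1 : ((K : ℝ) ^ (e / 8) * Real.sqrt D) ^ 2 = (K : ℝ) ^ (e / 4) * D := by
          rw [mul_pow, Real.sq_sqrt hD0, ← Real.rpow_natCast, ← Real.rpow_mul hK0.le]
          congr 2
          push_cast
          ring
        rw [e1]
        refine h10.trans (mul_le_mul h12 hwm.le (h.wd_nonneg m) (by positivity))
      exact (pow_le_pow_iff_left₀ hEm.le (by positivity) (by norm_num)).1 h13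
    have h12 : ((m + 1 : ℕ) : ℝ) ^ (e / 12) ≤ (K : ℝ) ^ (e / 4) := by
      have h13 : ((m + 1 : ℕ) : ℝ) ≤ (K : ℝ) ^ (3 : ℝ) := h6.trans (Real.rpow_le_rpow_of_exponent_le hKR (by norm_num))
      have h15 := Real.rpow_le_rpow (Nat.cast_nonneg _) h13 (show 0 ≤ e / 12 by positivity)
      rw [← Real.rpow_mul hK0.le, show 3 * (e / 12) = e / 4 by ring] at h15
      exact h15
    have h16 : (K : ℝ) ^ (e / 4) * (4 * ((K : ℝ) ^ (e / 8) * Real.sqrt D)) ≤ (K : ℝ) ^ e * Real.sqrt D := by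
      have e1 : (K : ℝ) ^ e = (K : ℝ) ^ (e / 4) * (K : ℝ) ^ (e / 8) * (K : ℝ) ^ (e / 8) * (K : ℝ) ^ (e / 2) := by
        rw [← Real.rpow_add hK0, ← Real.rpow_add hK0, ← Real.rpow_add hK0]
        congr 1
        ring
      have h17 : (1 : ℝ) ≤ (K : ℝ) ^ (e / 8) := Real.one_le_rpow hKR (by positivity)
      have h18 : 0 ≤ (K : ℝ) ^ (e / 4) * (K : ℝ) ^ (e / 8) * Real.sqrt D := by positivity
      have h19 : (4 : ℝ) ≤ (K : ℝ) ^ (e / 8) * (K : ℝ) ^ (e / 2) := by nlinarith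
      calc (K : ℝ) ^ (e / 4) * (4 * ((K : ℝ) ^ (e / 8) * Real.sqrt D))
          = (K : ℝ) ^ (e / 4) * (K : ℝ) ^ (e / 8) * Real.sqrt D * 4 := by ring
        _ ≤ (K : ℝ) ^ (e / 4) * (K : ℝ) ^ (e / 8) * Real.sqrt D * ((K : ℝ) ^ (e / 8) * (K : ℝ) ^ (e / 2)) :=
            mul_le_mul_of_nonneg_left h19 h18
        _ = _ := by rw [e1]; ring
    have hE1 := EE_pos (μ := μ) (s := s) (m + 1)
    calc ((m + 1 : ℕ) : ℝ) ^ (e / 12) * EE μ s (m + 1) ≤ (K : ℝ) ^ (e / 4) * (4 * ((K : ℝ) ^ (e / 8) * Real.sqrt D)) :=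
          mul_le_mul h12 (h9.trans (mul_le_mul_of_nonneg_left h11 (by norm_num))) hE1.le (by positivity)
      _ ≤ (K : ℝ) ^ e * Real.sqrt D := h16
      _ ≤ _ := mul_le_mul_of_nonneg_left (by linarith) (by positivity)

/-- **Smoothness of the future at all scales at once**, `K ^ (5/2) ≤ L ≤ K ^ p`. -/
theorem futB67 (h : In μ s c C n₀)
    (hU : ∀ ε : ℝ, 0 < ε → ∃ n₁ : ℕ, ∀ n : ℕ, n₁ ≤ n → EE μ s n ^ 2 ≤ (n : ℝ) ^ ε * wd μ s n) :
    ∀ e : ℝ, 0 < e → ∀ p : ℝ, ∃ c' : ℝ, 0 < c' ∧ ∃ K₀ : ℕ, ∀ K : ℕ, K₀ ≤ K → ∀ L : ℕ, (K : ℝ) ^ (5 / 2 : ℝ) ≤ L → (L : ℝ) ≤ (K : ℝ) ^ p →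
      (law μ).real {η | ¬ FA67 μ s e K L η} ≤ Real.exp (-(K : ℝ) ^ c') := by
  intro e he p
  obtain ⟨c₁, hc₁, T₁, hF⟩ := fut_real67 h (e / 12) (by positivity) (max p 0)
  obtain ⟨K₁, hdet⟩ := fa_det h hU he
  have ev1 := Pool.Agent.W_7d29a1_HZ.Z22.absorb 2 3 (b := 1) (g := c₁) one_pos hc₁
  obtain ⟨N₁, hN₁⟩ := eventually_atTop.1 ev1
  refine ⟨c₁ / 2, by positivity, max (max T₁ K₁) (max N₁ 1), fun K hK L hKL hLp => ?_⟩
  have k1 : T₁ ≤ K := (le_max_left _ _).trans ((le_max_left _ _).trans hK)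
  have k2 : K₁ ≤ K := (le_max_right _ _).trans ((le_max_left _ _).trans hK)
  have k3 : N₁ ≤ K := (le_max_left _ _).trans ((le_max_right _ _).trans hK)
  have hK1 : 1 ≤ K := (le_max_right _ _).trans ((le_max_right _ _).trans hK)
  have hKR : (1 : ℝ) ≤ K := by exact_mod_cast hK1
  have hK0 : (0 : ℝ) < K := by linarith
  obtain ⟨A, hA⟩ : ∃ A : Finset ℕ, A = (Icc K (K ^ 3)).filter fun T => T ≤ L := ⟨_, rfl⟩
  have hsub : {η : Env | ¬ FA67 μ s e K L η} ⊆ ⋃ T ∈ A, {η | ¬ FE67 μ s (e / 12) T L η} := by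
    intro η hη
    by_contra hcon
    refine hη (hdet K L k2 hKL η fun T hT1 hT2 hT3 => ?_)
    by_contra h1
    refine hcon (Set.mem_iUnion₂.2 ⟨T, ?_, h1⟩)
    rw [hA, mem_filter, mem_Icc]
    exact ⟨⟨hT1, hT2⟩, hT3⟩
  refine (measureReal_mono hsub (measure_ne_top _ _)).trans ((measureReal_biUnion_finset_le _ _).trans ?_)
  have h1 : ∀ T ∈ A, (law μ).real {η | ¬ FE67 μ s (e / 12) T L η} ≤ Real.exp (-(K : ℝ) ^ c₁) := by
    intro T hT
    rw [hA, mem_filter, mem_Icc] at hT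
    obtain ⟨⟨hT1, -⟩, hT3⟩ := hT
    have hTK : (K : ℝ) ≤ T := by exact_mod_cast hT1
    have hTR : (1 : ℝ) ≤ T := hKR.trans hTK
    have h2 := hF T (k1.trans hT1) L hT3 (hLp.trans ((Real.rpow_le_rpow_of_exponent_le hKR (le_max_left _ _)).trans
      (Real.rpow_le_rpow hK0.le hTK (le_max_right _ _))))
    refine h2.trans (Real.exp_le_exp.2 (neg_le_neg (Real.rpow_le_rpow hK0.le hTK hc₁.le)))
  refine (sum_le_sum h1).trans ?_
  rw [sum_const, nsmul_eq_mul]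
  have h2 : (A.card : ℝ) ≤ 2 * (K : ℝ) ^ (3 : ℝ) := by
    have h3 : A.card ≤ K ^ 3 + 1 := by
      rw [hA]
      refine (card_filter_le _ _).trans ?_
      rw [Nat.card_Icc]
      omega
    have h4 : (A.card : ℝ) ≤ (K : ℝ) ^ (3 : ℕ) + 1 := by exact_mod_cast h3
    have h5 : (K : ℝ) ^ (3 : ℝ) = (K : ℝ) ^ (3 : ℕ) := by
      rw [← Real.rpow_natCast]
      norm_num
    have h6 : (1 : ℝ) ≤ (K : ℝ) ^ (3 : ℕ) := one_le_pow₀ hKR
    rw [h5]
    linarith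
  have h3 := hN₁ K k3
  rw [one_mul] at h3
  exact (mul_le_mul_of_nonneg_right h2 (Real.exp_pos _).le).trans h3

end

end Pool.Agent.W_7d29a1_C1
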