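import Pool.Agent.W_7d29a1_C1.DDJ84

/-!
[C1] attractor route, DD84 (helper84): **THE REGULARITY OF THE MASS OF A ROW** from the arms and the levels of the slabs above.

`Sys84` = the system of the slabs `u ≤ v < M` with the levels `q v` around the line `ℓ = 0`; the line `ℓ = r` passes through the place.
`ddi84`: if the levels grow at most like `q₀ θ ^ (v - u)` and every place `x` with `|ℓ u x - r| ≤ K₁ wd (T (u + i))` has arms at the row
`u + i + 2` (half of its mass passes the window), then the mass of the row `u` has (D2) with ANY slope `κ EE / wd` and a constant `Q EE`.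
-/

set_option autoImplicit false

namespace Pool.Agent.W_7d29a1_C1.DD84

open MeasureTheory ProbabilityTheory Filter Topology
open Pool.Agent.W_7d29a1_F Pool.Agent.W_7d29a1_h4g Pool.Agent.W_7d29a1_H Pool.Agent.W_7d29a1_HS
open Pool.Agent.W_7d29a1_C1.FarK89

noncomputable section

/-- The system of the slabs `u ≤ v < M`. -/
structure Sys84 (μ : Measure ℝ) (s : ℝ) (P : ℕ) (c c₂ κ' S₀ r : ℝ) (T : ℕ → ℕ) (q : ℕ → ℝ) (ℓ : ℕ → ℤ → ℝ) (k : ℕ → ℤ → ℤ → ℝ)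
    (B : ℕ → Finset ℤ) (u M : ℕ) : Prop where
  q0 : ∀ v, 0 ≤ q v
  k0 : ∀ v x y, 0 ≤ k v x y
  up : ∀ v, u ≤ v → v < M → ∀ x, ∀ y ∈ B (v + 1), k v x y ≤ Real.exp (q v * gr P (|ℓ v x| / wd μ s (T v)) * EE μ s (T v) -
    c * (EE μ s (T v) / wd μ s (T v)) * |ℓ (v + 1) y - ℓ v x|)
  low : ∀ v, u ≤ v → v < M → ∀ x, ∀ y ∈ B (v + 1), |ℓ (v + 1) y - ℓ v x| ≤ κ' * wd μ s (T v) →
    Real.exp (-(q v * gr P (|ℓ v x| / wd μ s (T v)) * EE μ s (T v))) ≤ k v x y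
  sum : ∀ v, u ≤ v → v < M → ∀ x, ∑ y ∈ B (v + 1), Real.exp (-(c₂ * (EE μ s (T v) / wd μ s (T v)) * |ℓ (v + 1) y - ℓ v x|)) ≤
    Real.exp (S₀ * EE μ s (T v))
  mid : ∀ v, u < v → v < M → ∃ z ∈ B v, |ℓ v z - r| ≤ 1

variable {μ : Measure ℝ} [IsProbabilityMeasure μ] {s c C : ℝ} {n₀ : ℕ}

/-- The envelope with the top unit `T (u + i + 1)`. -/
theorem env84 (h : In μ s c C n₀) (P : ℕ) : ∃ (D' : ℝ) (K₀ n₁ : ℕ), 1 ≤ D' ∧ 2 ≤ K₀ ∧ 1 ≤ n₁ ∧
    ∀ {cc c₂ κ' S₀ r q₀ θ : ℝ} {T : ℕ → ℕ} {q : ℕ → ℝ} {ℓ : ℕ → ℤ → ℝ} {k : ℕ → ℤ → ℤ → ℝ} {B : ℕ → Finset ℤ} {u i M : ℕ},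
    0 ≤ cc → 0 ≤ c₂ → 0 ≤ S₀ → 0 ≤ q₀ → 1 ≤ θ → n₁ ≤ T u → (∀ v, u ≤ v → v < u + (i + 1) → K₀ * T v ≤ T (v + 1)) → u + (i + 2) ≤ M →
    Sys84 μ s P cc c₂ κ' S₀ r T q ℓ k B u M → (∀ v, u ≤ v → v < u + (i + 2) → q v ≤ q₀ * θ ^ (v - u)) →
    ∃ e s' : ℕ → ℝ, Env' P cc c₂ (EE μ s (T (u + (i + 1)))) (wd μ s (T (u + (i + 1)))) q (fun v => EE μ s (T v)) (fun v => wd μ s (T v))
      e s' ℓ k B u (u + (i + 2)) ∧ ∑ v ∈ Finset.Ico u (u + (i + 2)), e v ≤ q₀ * D' * θ ^ (i + 1) ∧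
      ∑ v ∈ Finset.Ico u (u + (i + 2)), s' v ≤ S₀ * D' := by
  obtain ⟨D, r₀, n₂, hD1, hr0, hr1, hn2, hD⟩ := gr_num h P
  obtain ⟨K₀, n₃, hK2, hn3, hK⟩ := scale_num h
  have h1r : 0 < 1 - r₀ := by linarith
  have hinv : 1 ≤ 1 / (1 - r₀) := by
    rw [le_div_iff₀ h1r]
    linarith
  refine ⟨D * (1 / (1 - r₀)), K₀, max n₂ n₃, by nlinarith, hK2, hn2.trans (le_max_left _ _), ?_⟩
  intro cc c₂ κ' S₀ r q₀ θ T q ℓ k B u i M hcc hc₂ hS₀ hq₀ hθ hT0 hT hM hsys hq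
  have g2 : n₂ ≤ T u := (le_max_left _ _).trans hT0
  have g3 : n₃ ≤ T u := (le_max_right _ _).trans hT0
  have hK1 : 1 ≤ K₀ := by omega
  -- the scales
  have hmon : ∀ j, j ≤ i + 1 → T u ≤ T (u + j) := by
    intro j
    induction j with
    | zero => intro _; exact le_rfl
    | succ j ih =>
      intro hj
      have h1 := hT (u + j) (by omega) (by omega)
      rw [show u + (j + 1) = u + j + 1 by omega]
      exact (ih (by omega)).trans ((Nat.le_mul_of_pos_left _ hK1).trans h1)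
  have hmon' : ∀ v, u ≤ v → v ≤ u + (i + 1) → T u ≤ T v := by
    intro v hv hv'
    have := hmon (v - u) (by omega)
    rwa [show u + (v - u) = v by omega] at this
  have hpow : ∀ j v, u ≤ v → v + j = u + (i + 1) → K₀ ^ j * T v ≤ T (u + (i + 1)) := by
    intro j
    induction j with
    | zero =>
      intro v _ hv
      rw [pow_zero, one_mul, show v = u + (i + 1) by omega]
    | succ j ih =>
      intro v hv hvj
      have h1 := ih (v + 1) (by omega) (by omega)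
      have h2 := hT v hv (by omega)
      calc K₀ ^ (j + 1) * T v = K₀ ^ j * (K₀ * T v) := by rw [pow_succ]; ring
        _ ≤ K₀ ^ j * T (v + 1) := Nat.mul_le_mul_left _ h2
        _ ≤ _ := h1
  have hK' : ∀ v, u ≤ v → v < u + (i + 1) → K₀ * T v ≤ T (u + (i + 1)) := by
    intro v hv hv'
    have h1 := hpow (u + (i + 1) - v) v hv (by omega)
    have h2 : K₀ ≤ K₀ ^ (u + (i + 1) - v) := Nat.le_self_pow (by omega) K₀
    exact (Nat.mul_le_mul_right _ h2).trans h1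
  have hwle : ∀ v, u ≤ v → v < u + (i + 2) → wd μ s (T v) ≤ wd μ s (T (u + (i + 1))) := by
    intro v hv hv'
    rcases Nat.lt_or_ge v (u + (i + 1)) with h1 | h1
    · exact (hK (T v) _ (g3.trans (hmon' v hv h1.le)) (hK' v hv h1)).1
    · rw [show v = u + (i + 1) by omega]
  have hslope : ∀ v, u ≤ v → v < u + (i + 2) → EE μ s (T (u + (i + 1))) / wd μ s (T (u + (i + 1))) ≤ EE μ s (T v) / wd μ s (T v) := by
    intro v hv hv'
    rcases Nat.lt_or_ge v (u + (i + 1)) with h1 | h1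
    · exact (hK (T v) _ (g3.trans (hmon' v hv h1.le)) (hK' v hv h1)).2
    · rw [show v = u + (i + 1) by omega]
  have hnum : ∀ v, u ≤ v → v < u + (i + 2) → gr P (wd μ s (T (u + (i + 1))) / wd μ s (T v) - 1) * EE μ s (T v) ≤
      D * r₀ ^ (u + (i + 1) - v) * EE μ s (T (u + (i + 1))) := by
    intro v hv hv'
    refine hD (T v) _ (u + (i + 1) - v) (g2.trans (hmon' v hv (by omega))) ?_ (hwle v hv hv')
    exact (Nat.mul_le_mul_right _ (Nat.pow_le_pow_left hK2 _)).trans (hpow (u + (i + 1) - v) v hv (by omega))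
  have hw0 : ∀ v, u ≤ v → v < u + (i + 2) → 0 < wd μ s (T v) := fun v hv hv' =>
    h.wd_pos ((hn2.trans g2).trans (hmon' v hv (by omega)))
  have hEt := EE_pos (μ := μ) (s := s) (T (u + (i + 1)))
  have hsum : ∑ v ∈ Finset.Ico u (u + (i + 2)), r₀ ^ (u + (i + 1) - v) ≤ 1 / (1 - r₀) := by
    have h1 := geo_sum hr0.le hr1 u (i + 1)
    rwa [show u + (i + 1) + 1 = u + (i + 2) by omega] at h1
  refine ⟨fun v => q v * (D * r₀ ^ (u + (i + 1) - v)), fun v => S₀ * (D * r₀ ^ (u + (i + 1) - v)), ?_, ?_, ?_⟩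
  · refine ⟨hc₂, hsys.q0, hEt, hw0 _ (by omega) (by omega), hw0, fun v => mul_nonneg (hsys.q0 v) (by positivity),
      fun v => mul_nonneg hS₀ (by positivity), fun v _ _ => (EE_pos _).le, hwle, hslope, fun v hv hv' => ?_, hsys.k0,
      fun v hv hv' => hsys.up v hv (by omega), fun v hv hv' x => ?_⟩
    · have h1 := mul_le_mul_of_nonneg_left (hnum v hv hv') (hsys.q0 v)
      rw [← mul_assoc, ← mul_assoc] at h1
      exact h1
    · refine (hsys.sum v hv (by omega) x).trans (Real.exp_le_exp.2 ?_)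
      have h1 : (0 : ℝ) ≤ wd μ s (T (u + (i + 1))) / wd μ s (T v) - 1 := by
        rw [sub_nonneg, one_le_div (hw0 v hv hv')]
        exact hwle v hv hv'
      have h2 : EE μ s (T v) ≤ gr P (wd μ s (T (u + (i + 1))) / wd μ s (T v) - 1) * EE μ s (T v) :=
        le_mul_of_one_le_left (EE_pos _).le (gr_one_le P h1)
      have h3 := mul_le_mul_of_nonneg_left (h2.trans (hnum v hv hv')) hS₀
      rw [← mul_assoc] at h3
      exact h3
  · have h1 : ∀ v ∈ Finset.Ico u (u + (i + 2)), q v * (D * r₀ ^ (u + (i + 1) - v)) ≤ q₀ * θ ^ (i + 1) * D * r₀ ^ (u + (i + 1) - v) := by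
      intro v hv
      rw [Finset.mem_Ico] at hv
      have h2 : q v ≤ q₀ * θ ^ (i + 1) :=
        (hq v hv.1 hv.2).trans (mul_le_mul_of_nonneg_left (pow_le_pow_right₀ hθ (by omega)) hq₀)
      have h3 := mul_le_mul_of_nonneg_right h2 (show 0 ≤ D * r₀ ^ (u + (i + 1) - v) by positivity)
      refine h3.trans (le_of_eq (by ring))
    refine (Finset.sum_le_sum h1).trans ?_
    rw [← Finset.mul_sum]
    have h2 := mul_le_mul_of_nonneg_left hsum (show 0 ≤ q₀ * θ ^ (i + 1) * D by positivity)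
    refine h2.trans (le_of_eq (by ring))
  · rw [← Finset.mul_sum, ← Finset.mul_sum]
    exact mul_le_mul_of_nonneg_left (mul_le_mul_of_nonneg_left hsum (by linarith)) hS₀

/-- **THE REGULARITY OF THE MASS OF A ROW.** -/
theorem ddi84 (h : In μ s c C n₀) (P : ℕ) {cc c₁ c₂ c₃ : ℝ} (hc₁ : 0 < c₁) (hc₂ : 0 ≤ c₂) (hc₃ : 0 ≤ c₃) (hcc : c₁ + c₂ + c₃ ≤ cc) :
    ∃ (g : ℝ) (K₀ : ℕ), 0 < g ∧ 2 ≤ K₀ ∧ ∀ κ κ' K₁ q₀ S₀ R : ℝ, 0 < κ → 1 ≤ K₁ → K₁ + 1 ≤ κ' → 0 ≤ q₀ → 0 ≤ S₀ → 0 ≤ R → ∀ b : ℕ,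
    ∃ (Q : ℝ) (n₁ : ℕ), 1 ≤ Q ∧ 1 ≤ n₁ ∧ ∀ (T : ℕ → ℕ) (u m : ℕ) (θ : ℝ), 1 ≤ θ → θ ≤ 2 → n₁ ≤ T u →
    (∀ v, u ≤ v → v < u + (m + 1) → K₀ * T v ≤ T (v + 1) ∧ T (v + 1) ≤ b * T v) →
    (∀ i, i ≤ m → θ ^ (2 * i) ≤ ((T (u + i) : ℝ) / T u) ^ g) →
    ∀ (q : ℕ → ℝ) (ℓ : ℕ → ℤ → ℝ) (k : ℕ → ℤ → ℤ → ℝ) (B : ℕ → Finset ℤ) (r β : ℝ),
    Sys84 μ s P cc c₂ κ' S₀ r T q ℓ k B u (u + (m + 2)) → (∀ v, u ≤ v → v < u + (m + 2) → q v ≤ q₀ * θ ^ (v - u)) →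
    |r| ≤ R * wd μ s (T u) → (∀ x : ℤ, ℓ u x = x - β) →
    ∀ (G : ℕ → ℤ → ℝ) (Z : ℕ → Finset ℤ), (∀ v z, 0 ≤ G v z) →
    (∀ v, u ≤ v → v < u + (m + 2) → ∀ x, G v x = ∑ z ∈ B (v + 1), k v x z * G (v + 1) z) →
    (∀ i, i ≤ m → ∀ z ∈ Z i, z ∈ B (u + (i + 2)) ∧ |ℓ (u + (i + 2)) z - r| ≤ κ' * wd μ s (T (u + (i + 1))) - 1) →
    (∀ i, i ≤ m → ∀ x : ℤ, |(x : ℝ) - (β + r)| ≤ K₁ * wd μ s (T (u + i)) →
      G u x ≤ 2 * ∑ z ∈ Z i, cmp k B (i + 2) u x z * G (u + (i + 2)) z) →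
    (∀ x : ℤ, K₁ * wd μ s (T (u + m)) < |(x : ℝ) - (β + r)| →
      G u x ≤ 2 * ∑ z ∈ Z m, cmp k B (m + 2) u x z * G (u + (m + 2)) z) →
    D2 (G u) (β + r) (K₁ * wd μ s (T u)) (Q * EE μ s (T u)) (κ * (EE μ s (T u) / wd μ s (T u))) := by
  obtain ⟨D', K₀, n₂, hD1, hK2, hn2, henv⟩ := env84 h P
  obtain ⟨g₁, hg₁, hmod⟩ := dd_model_pow h
  obtain ⟨g₂, hg₂, hun⟩ := unit_small_pow h
  obtain ⟨Q₁, n₃, hQ₁, hn3, hu1⟩ := hun 1 one_pos
  refine ⟨min g₁ g₂, K₀, lt_min hg₁ hg₂, hK2, fun κ κ' K₁ q₀ S₀ R hκ hK₁ hκ' hq₀ hS₀ hR b => ?_⟩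
  have hCL := CL_pos P hc₁
  have hD0 : 0 < D' := by linarith
  have hκ'0 : 0 < κ' := by linarith
  -- the constants
  obtain ⟨A₂, hA₂⟩ : ∃ A₂ : ℝ, A₂ = CL P c₁ * (1 + 2 * q₀ * D') ^ 2 := ⟨_, rfl⟩
  have hA20 : 0 < A₂ := by rw [hA₂]; positivity
  obtain ⟨gR, hgR⟩ : ∃ gR : ℝ, gR = gr P R := ⟨_, rfl⟩
  have hgR1 : 1 ≤ gR := by rw [hgR]; exact gr_one_le P hR
  obtain ⟨δ, hδ⟩ : ∃ δ : ℝ, δ = κ / (2 * (A₂ * gR * (1 + Q₁))) := ⟨_, rfl⟩
  have hδ0 : 0 < δ := by rw [hδ]; positivity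
  obtain ⟨Cδ, hCδ⟩ : ∃ Cδ : ℝ, Cδ = δ + CP P ^ 2 / δ := ⟨_, rfl⟩
  have hCδ0 : 0 < Cδ := by rw [hCδ]; positivity
  obtain ⟨A₃, hA₃⟩ : ∃ A₃ : ℝ, A₃ = A₂ * (gr P (R + K₁) + gR * Cδ) + S₀ * D' + 2 * q₀ * D' * gr P (R + κ') := ⟨_, rfl⟩
  have hg1 : 0 ≤ gr P (R + K₁) := gr_nonneg P (by linarith)
  have hg2 : 0 ≤ gr P (R + κ') := gr_nonneg P (by linarith)
  have hA30 : 0 ≤ A₃ := by rw [hA₃]; positivity
  obtain ⟨Q, n₄, hQ, hn4, hmain⟩ := hmod κ (2 * b * A₃ + 1) K₁ hκ (by positivity) hK₁ b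
  refine ⟨Q, max (max n₂ n₃) n₄, hQ, hn4.trans (le_max_right _ _), ?_⟩
  intro T u m θ hθ hθ2 hT0 hT hθT q ℓ k B r β hsys hq hr hℓ G Z hG hGr hZ harm htop
  have g2 : n₂ ≤ T u := (le_max_left _ _).trans ((le_max_left _ _).trans hT0)
  have g3 : n₃ ≤ T u := (le_max_right _ _).trans ((le_max_left _ _).trans hT0)
  have g4 : n₄ ≤ T u := (le_max_right _ _).trans hT0
  have hTu1 : 1 ≤ T u := hn2.trans g2
  have hK1 : 1 ≤ K₀ := by omega
  have hmon1 : ∀ v, u ≤ v → v < u + (m + 1) → T v ≤ T (v + 1) := fun v hv hv' =>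
    (Nat.le_mul_of_pos_left _ hK1).trans (hT v hv hv').1
  have hmon : ∀ j, j ≤ m + 1 → T u ≤ T (u + j) := by
    intro j
    induction j with
    | zero => intro _; exact le_rfl
    | succ j ih =>
      intro hj
      rw [show u + (j + 1) = u + j + 1 by omega]
      exact (ih (by omega)).trans (hmon1 (u + j) (by omega) (by omega))
  have hTuR : (0 : ℝ) < T u := by exact_mod_cast hTu1
  have hrat1 : ∀ j, j ≤ m + 1 → 1 ≤ (T (u + j) : ℝ) / T u := by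
    intro j hj
    rw [le_div_iff₀ hTuR, one_mul]
    exact_mod_cast hmon j hj
  have hwt_le : ∀ i, i ≤ m → ∀ v, u ≤ v → v < u + (i + 2) → wd μ s (T v) ≤ wd μ s (T (u + (i + 1))) := by
    intro i hi
    obtain ⟨e, s', hE, -, -⟩ := henv (cc := cc) (c₂ := c₂) (κ' := κ') (S₀ := S₀) (r := r) (q₀ := q₀) (θ := θ) (T := T) (q := q)
      (ℓ := ℓ) (k := k) (B := B) (u := u) (i := i) (M := u + (m + 2)) (by linarith) hc₂ hS₀ hq₀ hθ g2
      (fun v hv hv' => (hT v hv (by omega)).1) (by omega) hsys (fun v hv hv' => hq v hv (by omega))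
    exact hE.wle
  -- the general bound
  have hgen : ∀ i, i ≤ m → ∀ x x' : ℤ, G u x ≤ 2 * ∑ z ∈ Z i, cmp k B (i + 2) u x z * G (u + (i + 2)) z →
      |(x' : ℝ) - (β + r)| ≤ K₁ * wd μ s (T u) →
      G u x ≤ 2 * Real.exp (A₂ * θ ^ (2 * i) * gr P (|ℓ u x| / wd μ s (T (u + (i + 1)))) * EE μ s (T (u + (i + 1))) +
        (S₀ * D' + 2 * q₀ * D' * gr P (R + κ')) * (θ ^ (2 * i) * EE μ s (T (u + (i + 1))))) * G u x' := by
    intro i hi x x' hx hx'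
    obtain ⟨e, s', hE, he, hs⟩ := henv (cc := cc) (c₂ := c₂) (κ' := κ') (S₀ := S₀) (r := r) (q₀ := q₀) (θ := θ) (T := T) (q := q)
      (ℓ := ℓ) (k := k) (B := B) (u := u) (i := i) (M := u + (m + 2)) (by linarith) hc₂ hS₀ hq₀ hθ g2
      (fun v hv hv' => (hT v hv (by omega)).1) (by omega) hsys (fun v hv hv' => hq v hv (by omega))
    have hwt := hE.wt0
    have hEt := hE.Et0
    have hw0 : ∀ v, u ≤ v → v < u + (i + 2) → 2 ≤ wd μ s (T v) := by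
      intro v hv hv'
      have h1 : T u ≤ T v := by
        have := hmon (v - u) (by omega)
        rwa [show u + (v - u) = v by omega] at this
      have h2 := wd_ge_one h (hTu1.trans h1)
      have h3 := one_le_EE (μ := μ) (s := s) (T v)
      linarith
    have hwu := hw0 u le_rfl (by omega)
    have hfin := dd_env (u := u) (m := i) hE (κ := κ') (c₁ := c₁) (c₃ := c₃) (Q := q₀ * D' * θ ^ (i + 1)) (S := S₀ * D') (Pa := 2)
      (r := r) hc₁ hc₃ hcc he hs (by linarith) hw0 (fun v hv hv' => hsys.low v hv (by omega)) (fun v hv hv' => hsys.mid v hv (by omega))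
      (F := G u) (G := G (u + (i + 2))) (hG _) ?_ (Z := Z i) (hZ i hi) (by norm_num) (x := x) (x' := x') hx ?_
    · refine hfin.trans (mul_le_mul_of_nonneg_right (mul_le_mul_of_nonneg_left (Real.exp_le_exp.2 ?_) (by norm_num)) (hG u x'))
      have hθi : 1 ≤ θ ^ i := one_le_pow₀ hθ
      have hθ2i : θ ^ (2 * i) = θ ^ i * θ ^ i := by rw [two_mul, pow_add]
      have hθi0 : 0 < θ ^ i := by linarith
      have hQt : q₀ * D' * θ ^ (i + 1) ≤ 2 * q₀ * D' * θ ^ i := by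
        rw [pow_succ]
        have h1 : 0 ≤ q₀ * D' * θ ^ i := by positivity
        have := mul_le_mul_of_nonneg_left hθ2 h1
        linarith
      have hQt0 : 0 ≤ q₀ * D' * θ ^ (i + 1) := by positivity
      have hqD : 0 ≤ 2 * q₀ * D' := by positivity
      have hLQ : LQ P c₁ (q₀ * D' * θ ^ (i + 1)) ≤ A₂ * θ ^ (2 * i) := by
        refine (lq_le P hc₁ hQt0).trans ?_
        rw [hA₂, hθ2i]
        have h1 : 1 + q₀ * D' * θ ^ (i + 1) ≤ (1 + 2 * q₀ * D') * θ ^ i := by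
          linarith
        have h2 := pow_le_pow_left₀ (by positivity) h1 2
        have h3 := mul_le_mul_of_nonneg_left h2 hCL.le
        linarith [show CL P c₁ * ((1 + 2 * q₀ * D') * θ ^ i) ^ 2 = CL P c₁ * (1 + 2 * q₀ * D') ^ 2 * (θ ^ i * θ ^ i) by ring]
      have hgx : 0 ≤ gr P (|ℓ u x| / wd μ s (T (u + (i + 1)))) := gr_nonneg P (by positivity)
      have hgr : gr P (|r| / wd μ s (T (u + (i + 1))) + κ') ≤ gr P (R + κ') := by
        refine gr_mono P (by positivity) ?_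
        have h1 : |r| / wd μ s (T (u + (i + 1))) ≤ R := by
          rw [div_le_iff₀ hwt]
          exact hr.trans (mul_le_mul_of_nonneg_left (hE.wle u le_rfl (by omega)) hR)
        linarith
      have h1 := mul_le_mul_of_nonneg_right hLQ hgx
      have h2 : q₀ * D' * θ ^ (i + 1) * gr P (|r| / wd μ s (T (u + (i + 1))) + κ') ≤ 2 * q₀ * D' * gr P (R + κ') * θ ^ (2 * i) := by
        have h3 : q₀ * D' * θ ^ (i + 1) ≤ 2 * q₀ * D' * θ ^ (2 * i) := by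
          refine hQt.trans ?_
          rw [hθ2i]
          exact mul_le_mul_of_nonneg_left (le_mul_of_one_le_left hθi0.le hθi) hqD
        calc q₀ * D' * θ ^ (i + 1) * gr P (|r| / wd μ s (T (u + (i + 1))) + κ') ≤ (2 * q₀ * D' * θ ^ (2 * i)) * gr P (R + κ') :=
              mul_le_mul h3 hgr (gr_nonneg P (by positivity)) (by positivity)
          _ = _ := by ring
      have h3 : S₀ * D' ≤ S₀ * D' * θ ^ (2 * i) := by
        have : 1 ≤ θ ^ (2 * i) := one_le_pow₀ hθ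
        exact le_mul_of_one_le_right (by positivity) this
      have h4 := mul_le_mul_of_nonneg_right (add_le_add (add_le_add h1 h3) h2) hEt.le
      refine h4.trans (le_of_eq ?_)
      ring
    · intro y
      exact mass_cmp (k := k) (B := B) hGr (i + 1) u le_rfl (by omega) y
    · rw [hℓ, show (x' : ℝ) - β - r = x' - (β + r) by ring]
      refine hx'.trans ?_
      have h1 : (K₁ + 1) * wd μ s (T u) ≤ κ' * wd μ s (T u) := mul_le_mul_of_nonneg_right hκ' (by linarith)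
      linarith
  have hE2 : ∀ i, i ≤ m → EE μ s (T (u + (i + 1))) ≤ 2 * b * EE μ s (T (u + i)) := by
    intro i hi
    have h0 : T u ≤ T (u + i) := hmon i (by omega)
    have h1 := hmon1 (u + i) (by omega) (by omega)
    have h2 := (hT (u + i) (by omega) (by omega)).2
    have h3 := scale_b h (hTu1.trans h0) h1
    rw [show u + i + 1 = u + (i + 1) by omega] at h1 h2 h3
    have hTi : (0 : ℝ) < T (u + i) := by exact_mod_cast hTu1.trans h0
    have h4 : (T (u + (i + 1)) : ℝ) ≤ b * T (u + i) := by exact_mod_cast h2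
    have hEi := EE_pos (μ := μ) (s := s) (T (u + i))
    have h5 : (T (u + i) : ℝ) * EE μ s (T (u + (i + 1))) ≤ T (u + i) * (2 * b * EE μ s (T (u + i))) := by
      have h6 := mul_le_mul_of_nonneg_right h4 hEi.le
      linarith
    exact le_of_mul_le_mul_left h5 hTi
  have hrp : ∀ i, i ≤ m → ∀ g', min g₁ g₂ ≤ g' → θ ^ (2 * i) ≤ ((T (u + i) : ℝ) / T u) ^ g' := fun i hi g' hg' =>
    (hθT i hi).trans (Real.rpow_le_rpow_of_exponent_le (hrat1 i (by omega)) hg')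
  have key := hmain (fun i => T (u + i)) m g4 (fun i hi => ⟨hmon1 (u + i) (by omega) (by omega), (hT (u + i) (by omega) (by omega)).2⟩)
    (G u) (β + r) (hG u) ?_ ?_
  · exact key
  · intro i hi x x' hx hx'
    have hx'' : |(x' : ℝ) - (β + r)| ≤ K₁ * wd μ s (T u) := hx'
    refine (hgen i hi x x' (harm i hi x hx) hx'').trans (mul_le_mul_of_nonneg_right ?_ (hG u x'))
    have hx2 : |(x : ℝ) - (β + r)| ≤ K₁ * wd μ s (T (u + i)) := hx
    obtain ⟨wt, hwt⟩ : ∃ wt, wt = wd μ s (T (u + (i + 1))) := ⟨_, rfl⟩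
    obtain ⟨Et, hEt⟩ : ∃ Et, Et = EE μ s (T (u + (i + 1))) := ⟨_, rfl⟩
    obtain ⟨Ei, hEi⟩ : ∃ Ei, Ei = EE μ s (T (u + i)) := ⟨_, rfl⟩
    have hwt0 : 0 < wt := by rw [hwt]; exact h.wd_pos (hTu1.trans (hmon (i + 1) (by omega)))
    have hEt0 : 0 < Et := by rw [hEt]; exact EE_pos _
    have hEi1 : 1 ≤ Ei := by rw [hEi]; exact one_le_EE _
    have hle := hE2 i hi
    rw [← hEt, ← hEi] at hle
    have hrat := hrp i hi g₁ (min_le_left _ _)
    have hr1' : 1 ≤ ((T (u + i) : ℝ) / T u) ^ g₁ := Real.one_le_rpow (hrat1 i (by omega)) hg₁.le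
    obtain ⟨ρ, hρ⟩ : ∃ ρ, ρ = ((T (u + i) : ℝ) / T u) ^ g₁ := ⟨_, rfl⟩
    show 2 * Real.exp (A₂ * θ ^ (2 * i) * gr P (|ℓ u x| / wd μ s (T (u + (i + 1)))) * EE μ s (T (u + (i + 1))) +
        (S₀ * D' + 2 * q₀ * D' * gr P (R + κ')) * (θ ^ (2 * i) * EE μ s (T (u + (i + 1))))) ≤
      Real.exp ((2 * b * A₃ + 1) * (((T (u + i) : ℝ) / T u) ^ g₁ * EE μ s (T (u + i))))
    rw [← hwt, ← hEt, ← hEi, ← hρ]
    rw [← hρ] at hrat hr1'
    have hgx : gr P (|ℓ u x| / wt) ≤ gr P (R + K₁) := by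
      refine gr_mono P (by positivity) ?_
      rw [div_le_iff₀ hwt0, hℓ]
      have h1 := abs_add_le ((x : ℝ) - (β + r)) r
      rw [show (x : ℝ) - (β + r) + r = x - β by ring] at h1
      have h2 := hwt_le i hi (u + i) (by omega) (by omega)
      have h3 := hwt_le i hi u le_rfl (by omega)
      rw [← hwt] at h2 h3
      have h4 := mul_le_mul_of_nonneg_left h2 (show 0 ≤ K₁ by linarith)
      have h5 := mul_le_mul_of_nonneg_left h3 hR
      linarith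
    have hθE : θ ^ (2 * i) * Et ≤ 2 * b * (ρ * Ei) := by
      calc θ ^ (2 * i) * Et ≤ ρ * (2 * b * Ei) := mul_le_mul hrat hle hEt0.le (by linarith)
        _ = _ := by ring
    have hθE0 : 0 ≤ θ ^ (2 * i) * Et := by positivity
    have hA3 : A₂ * gr P (R + K₁) + (S₀ * D' + 2 * q₀ * D' * gr P (R + κ')) ≤ A₃ := by
      rw [hA₃]
      have : 0 ≤ A₂ * (gR * Cδ) := by positivity
      linarith [show A₂ * (gr P (R + K₁) + gR * Cδ) = A₂ * gr P (R + K₁) + A₂ * (gR * Cδ) by ring]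
    have h1 : A₂ * θ ^ (2 * i) * gr P (|ℓ u x| / wt) * Et + (S₀ * D' + 2 * q₀ * D' * gr P (R + κ')) * (θ ^ (2 * i) * Et) ≤
        2 * b * A₃ * (ρ * Ei) := by
      have h2 : A₂ * θ ^ (2 * i) * gr P (|ℓ u x| / wt) * Et ≤ A₂ * gr P (R + K₁) * (θ ^ (2 * i) * Et) := by
        calc A₂ * θ ^ (2 * i) * gr P (|ℓ u x| / wt) * Et = A₂ * (θ ^ (2 * i) * Et) * gr P (|ℓ u x| / wt) := by ring
          _ ≤ A₂ * (θ ^ (2 * i) * Et) * gr P (R + K₁) := mul_le_mul_of_nonneg_left hgx (by positivity)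
          _ = _ := by ring
      have h3 : (A₂ * gr P (R + K₁) + (S₀ * D' + 2 * q₀ * D' * gr P (R + κ'))) * (θ ^ (2 * i) * Et) ≤ A₃ * (2 * b * (ρ * Ei)) :=
        mul_le_mul hA3 hθE hθE0 hA30
      linarith [show (A₂ * gr P (R + K₁) + (S₀ * D' + 2 * q₀ * D' * gr P (R + κ'))) * (θ ^ (2 * i) * Et) =
        A₂ * gr P (R + K₁) * (θ ^ (2 * i) * Et) + (S₀ * D' + 2 * q₀ * D' * gr P (R + κ')) * (θ ^ (2 * i) * Et) by ring,
        show A₃ * (2 * b * (ρ * Ei)) = 2 * b * A₃ * (ρ * Ei) by ring]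
    have h4 : (2 : ℝ) ≤ Real.exp (ρ * Ei) := by
      have h5 : 1 ≤ ρ * Ei := one_le_mul_of_one_le_of_one_le hr1' hEi1
      have h6 := Real.add_one_le_exp (ρ * Ei)
      linarith
    calc 2 * Real.exp (A₂ * θ ^ (2 * i) * gr P (|ℓ u x| / wt) * Et + (S₀ * D' + 2 * q₀ * D' * gr P (R + κ')) * (θ ^ (2 * i) * Et)) ≤
        Real.exp (ρ * Ei) * Real.exp (2 * b * A₃ * (ρ * Ei)) :=
          mul_le_mul h4 (Real.exp_le_exp.2 h1) (Real.exp_pos _).le (Real.exp_pos _).le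
      _ = Real.exp ((2 * b * A₃ + 1) * (ρ * Ei)) := by
        rw [← Real.exp_add]
        congr 1
        ring
  · intro x x' hx hx'
    have hx'' : |(x' : ℝ) - (β + r)| ≤ K₁ * wd μ s (T u) := hx'
    refine (hgen m le_rfl x x' (htop x hx) hx'').trans (mul_le_mul_of_nonneg_right ?_ (hG u x'))
    obtain ⟨wt, hwt⟩ : ∃ wt, wt = wd μ s (T (u + (m + 1))) := ⟨_, rfl⟩
    obtain ⟨Et, hEt⟩ : ∃ Et, Et = EE μ s (T (u + (m + 1))) := ⟨_, rfl⟩
    obtain ⟨Ei, hEi⟩ : ∃ Ei, Ei = EE μ s (T (u + m)) := ⟨_, rfl⟩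
    obtain ⟨wu, hwu⟩ : ∃ wu, wu = wd μ s (T u) := ⟨_, rfl⟩
    obtain ⟨Eu, hEu⟩ : ∃ Eu, Eu = EE μ s (T u) := ⟨_, rfl⟩
    have hwt0 : 0 < wt := by rw [hwt]; exact h.wd_pos (hTu1.trans (hmon (m + 1) le_rfl))
    have hwu0 : 0 < wu := by rw [hwu]; exact h.wd_pos hTu1
    have hEt0 : 0 < Et := by rw [hEt]; exact EE_pos _
    have hEu0 : 0 < Eu := by rw [hEu]; exact EE_pos _
    have hEi1 : 1 ≤ Ei := by rw [hEi]; exact one_le_EE _
    have hle := hE2 m le_rfl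
    rw [← hEt, ← hEi] at hle
    have hrat := hrp m le_rfl g₁ (min_le_left _ _)
    have hrat2 := hrp m le_rfl g₂ (min_le_right _ _)
    have hr1' : 1 ≤ ((T (u + m) : ℝ) / T u) ^ g₁ := Real.one_le_rpow (hrat1 m (by omega)) hg₁.le
    have hun2 := hu1 (T u) (T (u + (m + 1))) g3 (hmon (m + 1) le_rfl)
    rw [← hwt, ← hEt, ← hwu, ← hEu, one_mul] at hun2
    have hrat3 : θ ^ (2 * m) ≤ ((T (u + (m + 1)) : ℝ) / T u) ^ g₂ := by
      refine hrat2.trans (Real.rpow_le_rpow (by positivity) ?_ hg₂.le)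
      refine div_le_div_of_nonneg_right ?_ hTuR.le
      exact_mod_cast hmon1 (u + m) (by omega) (by omega)
    obtain ⟨ρ, hρ⟩ : ∃ ρ, ρ = ((T (u + m) : ℝ) / T u) ^ g₁ := ⟨_, rfl⟩
    show 2 * Real.exp (A₂ * θ ^ (2 * m) * gr P (|ℓ u x| / wd μ s (T (u + (m + 1)))) * EE μ s (T (u + (m + 1))) +
        (S₀ * D' + 2 * q₀ * D' * gr P (R + κ')) * (θ ^ (2 * m) * EE μ s (T (u + (m + 1))))) ≤
      Real.exp ((2 * b * A₃ + 1) * (((T (u + m) : ℝ) / T u) ^ g₁ * EE μ s (T (u + m))) +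
        κ / 2 * (EE μ s (T u) / wd μ s (T u)) * |(x : ℝ) - (β + r)|)
    rw [← hwt, ← hEt, ← hEi, ← hρ, ← hwu, ← hEu]
    rw [← hρ] at hrat hr1'
    obtain ⟨X, hX⟩ : ∃ X : ℝ, X = |(x : ℝ) - (β + r)| := ⟨_, rfl⟩
    rw [← hX]
    have hX0 : 0 ≤ X := by rw [hX]; exact abs_nonneg _
    have hwut : wu ≤ wt := by
      rw [hwu, hwt]
      exact hwt_le m le_rfl u le_rfl (by omega)
    have hru : |r| ≤ R * wt := by
      refine hr.trans ?_
      rw [← hwu]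
      exact mul_le_mul_of_nonneg_left hwut hR
    have hgx : gr P (|ℓ u x| / wt) ≤ gR * (δ * (X / wt) + Cδ) := by
      have h1 : |ℓ u x| / wt ≤ R + X / wt := by
        rw [div_le_iff₀ hwt0, hℓ]
        have h1 := abs_add_le ((x : ℝ) - (β + r)) r
        rw [show (x : ℝ) - (β + r) + r = x - β by ring, ← hX] at h1
        have e1 : (R + X / wt) * wt = R * wt + X := by field_simp
        rw [e1]
        linarith
      have hXt : 0 ≤ X / wt := by positivity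
      refine (gr_mono P (by positivity) h1).trans ((gr_shift P hR hXt).trans ?_)
      rw [← hgR]
      have h2 := gr_lin P hδ0 hXt
      rw [← hCδ] at h2
      exact mul_le_mul_of_nonneg_left h2 (by linarith)
    have hθE : θ ^ (2 * m) * Et ≤ 2 * b * (ρ * Ei) := by
      calc θ ^ (2 * m) * Et ≤ ρ * (2 * b * Ei) := mul_le_mul hrat hle hEt0.le (by linarith)
        _ = _ := by ring
    have hθE0 : 0 ≤ θ ^ (2 * m) * Et := by positivity
    have hslope : θ ^ (2 * m) * Et / wt ≤ (1 + Q₁) * (Eu / wu) := by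
      rw [div_le_iff₀ hwt0]
      have h1 : θ ^ (2 * m) * Et ≤ (wt / wu + Q₁) * Eu := (mul_le_mul_of_nonneg_right hrat3 hEt0.le).trans hun2
      have h2 : 1 ≤ wt / wu := by rwa [one_le_div hwu0]
      have h3 : (wt / wu + Q₁) * Eu ≤ ((1 + Q₁) * (wt / wu)) * Eu := by
        refine mul_le_mul_of_nonneg_right ?_ hEu0.le
        have h4 := mul_le_mul_of_nonneg_left h2 (show 0 ≤ Q₁ by linarith)
        rw [mul_one] at h4
        rw [add_mul, one_mul]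
        linarith only [h4]
      refine h1.trans (h3.trans (le_of_eq ?_))
      field_simp
    have hA3 : A₂ * gR * Cδ + (S₀ * D' + 2 * q₀ * D' * gr P (R + κ')) ≤ A₃ := by
      rw [hA₃]
      have : 0 ≤ A₂ * gr P (R + K₁) := by positivity
      linarith [show A₂ * (gr P (R + K₁) + gR * Cδ) = A₂ * gr P (R + K₁) + A₂ * gR * Cδ by ring]
    have h1 : A₂ * θ ^ (2 * m) * gr P (|ℓ u x| / wt) * Et + (S₀ * D' + 2 * q₀ * D' * gr P (R + κ')) * (θ ^ (2 * m) * Et) ≤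
        2 * b * A₃ * (ρ * Ei) + κ / 2 * (Eu / wu) * X := by
      have h2 : A₂ * θ ^ (2 * m) * gr P (|ℓ u x| / wt) * Et ≤ A₂ * gR * Cδ * (θ ^ (2 * m) * Et) + κ / 2 * (Eu / wu) * X := by
        calc A₂ * θ ^ (2 * m) * gr P (|ℓ u x| / wt) * Et = A₂ * (θ ^ (2 * m) * Et) * gr P (|ℓ u x| / wt) := by ring
          _ ≤ A₂ * (θ ^ (2 * m) * Et) * (gR * (δ * (X / wt) + Cδ)) := mul_le_mul_of_nonneg_left hgx (by positivity)
          _ = A₂ * gR * Cδ * (θ ^ (2 * m) * Et) + A₂ * gR * δ * X * (θ ^ (2 * m) * Et / wt) := by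
            field_simp
            ring
          _ ≤ A₂ * gR * Cδ * (θ ^ (2 * m) * Et) + A₂ * gR * δ * X * ((1 + Q₁) * (Eu / wu)) := by
            have h5 := mul_le_mul_of_nonneg_left hslope (show 0 ≤ A₂ * gR * δ * X by positivity)
            linarith
          _ = A₂ * gR * Cδ * (θ ^ (2 * m) * Et) + κ / 2 * (Eu / wu) * X := by
            have h6 : A₂ * gR * δ * (1 + Q₁) = κ / 2 := by
              rw [hδ]
              have : 0 < A₂ * gR * (1 + Q₁) := by positivity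
              field_simp
            have h7 : A₂ * gR * δ * X * ((1 + Q₁) * (Eu / wu)) = (A₂ * gR * δ * (1 + Q₁)) * (Eu / wu) * X := by ring
            rw [h7, h6]
      have h3 : (A₂ * gR * Cδ + (S₀ * D' + 2 * q₀ * D' * gr P (R + κ'))) * (θ ^ (2 * m) * Et) ≤ A₃ * (2 * b * (ρ * Ei)) :=
        mul_le_mul hA3 hθE hθE0 hA30
      linarith [show (A₂ * gR * Cδ + (S₀ * D' + 2 * q₀ * D' * gr P (R + κ'))) * (θ ^ (2 * m) * Et) =
        A₂ * gR * Cδ * (θ ^ (2 * m) * Et) + (S₀ * D' + 2 * q₀ * D' * gr P (R + κ')) * (θ ^ (2 * m) * Et) by ring,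
        show A₃ * (2 * b * (ρ * Ei)) = 2 * b * A₃ * (ρ * Ei) by ring]
    have h4 : (2 : ℝ) ≤ Real.exp (ρ * Ei) := by
      have h5 : 1 ≤ ρ * Ei := one_le_mul_of_one_le_of_one_le hr1' hEi1
      have h6 := Real.add_one_le_exp (ρ * Ei)
      linarith
    calc 2 * Real.exp (A₂ * θ ^ (2 * m) * gr P (|ℓ u x| / wt) * Et + (S₀ * D' + 2 * q₀ * D' * gr P (R + κ')) * (θ ^ (2 * m) * Et)) ≤
        Real.exp (ρ * Ei) * Real.exp (2 * b * A₃ * (ρ * Ei) + κ / 2 * (Eu / wu) * X) :=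
          mul_le_mul h4 (Real.exp_le_exp.2 h1) (Real.exp_pos _).le (Real.exp_pos _).le
      _ = Real.exp ((2 * b * A₃ + 1) * (ρ * Ei) + κ / 2 * (Eu / wu) * X) := by
        rw [← Real.exp_add]
        congr 1
        ring

end

end Pool.Agent.W_7d29a1_C1.DD84
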