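import Pool.Agent.W_7d29a1_C1.LRA84
import Pool.Agent.W_7d29a1_C1.DDF84

/-!
[C1] attractor route (helper84), LOCAL REGULARITY AT FAR PLACES (LR), part 2: the model.

`Stp84` = grid points, lines and steep steps of the slabs (level `q v B₂ ^ j` at the displacement `2 ^ j wd`, lateral position `B₁ ^ j wd`).
`lrb_one`: places `x, x'` at the lateral distance `≤ K₁ Bp ^ j wd (T (u + i))` (`j` free) with `|x - x'| ≤ 2 K₁ wd (T (u + i))`, arms of `x`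
within `Y 2 ^ j wd (T (u + i + 2))` of `x` at the row `u + i + 3`: `F x ≤ exp (A B₂ ^ j θ ^ (2 i) EE (T (u + i))) F x'`.
-/

set_option autoImplicit false

namespace Pool.Agent.W_7d29a1_C1.DD84

open MeasureTheory ProbabilityTheory Filter Topology
open Pool.Agent.W_7d29a1_F Pool.Agent.W_7d29a1_h4g Pool.Agent.W_7d29a1_H Pool.Agent.W_7d29a1_HS
open Pool.Agent.W_7d29a1_C1.FarK89

noncomputable section

/-- Grid points, lines and steep steps of the slabs `u ≤ v < M`. -/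
structure Stp84 (μ : Measure ℝ) (s B₁ B₂ Λ δ : ℝ) (T : ℕ → ℕ) (q : ℕ → ℝ) (ℓ : ℕ → ℤ → ℝ) (k : ℕ → ℤ → ℤ → ℝ) (B : ℕ → Finset ℤ)
    (Gr : ℕ → ℤ → Prop) (u M : ℕ) : Prop where
  line : ∀ r : ℝ, |r| ≤ Λ → ∀ v, u < v → v < M → ∃ z ∈ B v, |ℓ v z - r| ≤ 1
  grid : ∀ ρ : ℝ, |ρ| ≤ Λ → ∀ v, u ≤ v → v + 1 < M → ∃ p ∈ B (v + 1), Gr (v + 1) p ∧ |ℓ (v + 1) p - ρ| ≤ wd μ s (T v)
  steep : ∀ v, u < v → v + 1 < M → ∀ j : ℕ, ∀ p ∈ B v, ∀ p' ∈ B (v + 1), Gr v p → Gr (v + 1) p' →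
    |ℓ v p| ≤ B₁ ^ j * wd μ s (T v) → |ℓ (v + 1) p' - ℓ v p| ≤ 2 ^ j * wd μ s (T v) → 2 ^ j * wd μ s (T v) ≤ δ * T v →
    Real.exp (-(q v * B₂ ^ j * EE μ s (T v))) ≤ k v p p'

theorem gr_exp (P : ℕ) {a b : ℝ} (ha : 0 ≤ a) (hb : 1 ≤ b) : ∃ Cg : ℝ, 1 ≤ Cg ∧ ∀ (j : ℕ) (X : ℝ), 0 ≤ X → X ≤ a * b ^ j →
    gr P X ≤ Cg * 2 ^ j := by
  have hlb : 0 ≤ Real.log b := Real.log_nonneg hb
  have hla : 0 ≤ Real.log (1 + a) := Real.log_nonneg (by linarith)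
  have hCP := CP_pos P
  refine ⟨max 1 (((1 + Real.log (1 + a)) * (1 + Real.log b)) ^ P * CP P), le_max_left _ _, fun j X hX0 hX => ?_⟩
  have hbj : 1 ≤ b ^ j := one_le_pow₀ hb
  have h1 : Real.log (1 + X) ≤ Real.log (1 + a) + j * Real.log b := by
    have h2 : 1 + X ≤ (1 + a) * b ^ j := by nlinarith
    have h3 := Real.log_le_log (by linarith) h2
    rwa [Real.log_mul (by linarith) (by linarith), Real.log_pow] at h3
  have h2 : 0 ≤ Real.log (1 + X) := Real.log_nonneg (by linarith)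
  have hj0 : (0 : ℝ) ≤ j := Nat.cast_nonneg j
  have h3 : 1 + Real.log (1 + X) ≤ (1 + Real.log (1 + a)) * (1 + Real.log b) * (1 + j) := by
    have h4 : 0 ≤ j * Real.log b := by positivity
    have h5 : (1 + Real.log (1 + a)) * (1 + Real.log b) * (1 + j) =
        1 + Real.log (1 + a) + j * Real.log b + (j + Real.log b + Real.log (1 + a) * j + Real.log (1 + a) * Real.log b +
          Real.log (1 + a) * Real.log b * j) := by ring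
    rw [h5]
    have h6 : 0 ≤ j + Real.log b + Real.log (1 + a) * j + Real.log (1 + a) * Real.log b + Real.log (1 + a) * Real.log b * j := by
      positivity
    linarith
  have h4 : ((1 : ℝ) + j) ^ P ≤ CP P * 2 ^ j := by
    have h5 := log_pow_le P (Y := Real.exp j) (Real.one_le_exp hj0)
    rw [Real.log_exp] at h5
    refine h5.trans (mul_le_mul_of_nonneg_left ?_ hCP.le)
    have h6 : Real.exp (j : ℝ) ≤ (2 ^ j) ^ 2 := by
      rw [← pow_mul, mul_comm j 2, pow_mul]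
      have h7 : Real.exp 1 ≤ 4 := Real.exp_one_lt_three.le.trans (by norm_num)
      calc Real.exp (j : ℝ) = (Real.exp 1) ^ j := by rw [← Real.exp_nat_mul, mul_one]
        _ ≤ 4 ^ j := pow_le_pow_left₀ (Real.exp_pos 1).le h7 j
        _ = ((2 : ℝ) ^ 2) ^ j := by norm_num
    exact (Real.sqrt_le_sqrt h6).trans (le_of_eq (Real.sqrt_sq (by positivity)))
  calc gr P X ≤ ((1 + Real.log (1 + a)) * (1 + Real.log b) * (1 + j)) ^ P := by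
        unfold gr
        exact pow_le_pow_left₀ (by linarith) h3 P
    _ = ((1 + Real.log (1 + a)) * (1 + Real.log b)) ^ P * ((1 : ℝ) + j) ^ P := mul_pow _ _ _
    _ ≤ ((1 + Real.log (1 + a)) * (1 + Real.log b)) ^ P * (CP P * 2 ^ j) := mul_le_mul_of_nonneg_left h4 (by positivity)
    _ = (((1 + Real.log (1 + a)) * (1 + Real.log b)) ^ P * CP P) * 2 ^ j := by ring
    _ ≤ _ := mul_le_mul_of_nonneg_right (le_max_right _ _) (by positivity)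

variable {μ : Measure ℝ} [IsProbabilityMeasure μ] {s c C : ℝ} {n₀ : ℕ}

/-- The width of the next scale. -/
theorem wd_next (h : In μ s c C n₀) (b : ℕ) : ∃ (Bw : ℝ) (n₁ : ℕ), 2 ≤ Bw ∧ 1 ≤ n₁ ∧ ∀ m n : ℕ, n₁ ≤ m → m ≤ n → n ≤ b * m →
    wd μ s n ≤ Bw * wd μ s m := by
  obtain ⟨Kw, aw, n₂, hKw, haw, hn2, hw⟩ := wd_pow h
  refine ⟨max 2 (Kw * (b + 1)), n₂, le_max_left _ _, hn2, fun m n hm hmn hnb => ?_⟩
  have hm1 : 1 ≤ m := hn2.trans hm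
  have hm0 : (0 : ℝ) < m := by exact_mod_cast hm1
  have hwm := h.wd_pos hm1
  refine (hw m n hm hmn).trans (mul_le_mul_of_nonneg_right ?_ hwm.le)
  have h5 : (1 : ℝ) ≤ (n : ℝ) / m := by
    rw [le_div_iff₀ hm0, one_mul]
    exact_mod_cast hmn
  have h6 : (n : ℝ) / m ≤ b := by
    rw [div_le_iff₀ hm0]
    exact_mod_cast hnb
  have h4 : ((n : ℝ) / m) ^ (1 - aw) ≤ (b : ℝ) + 1 := by
    calc ((n : ℝ) / m) ^ (1 - aw) ≤ ((n : ℝ) / m) ^ (1 : ℝ) := Real.rpow_le_rpow_of_exponent_le h5 (by linarith)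
      _ = (n : ℝ) / m := Real.rpow_one _
      _ ≤ (b : ℝ) + 1 := by linarith
  exact (mul_le_mul_of_nonneg_left h4 hKw.le).trans (le_max_right _ _)

/-- **TWO PLACES AT A FAR LATERAL POSITION**, one pair; the constant `A₀` does not depend on the level `q₀`. -/
theorem lrb_q (h : In μ s c C n₀) (P : ℕ) {cc c₁ c₂ c₃ B₂ : ℝ} (hc₁ : 0 < c₁) (hc₂ : 0 ≤ c₂) (hc₃ : 0 ≤ c₃) (hcc : c₁ + c₂ + c₃ ≤ cc)
    (hB₂ : 2 ≤ B₂) : ∃ K₀ : ℕ, 2 ≤ K₀ ∧ ∀ κ' K₁ S₀ R Y Bp : ℝ, 2 ≤ κ' → 1 ≤ K₁ → 0 ≤ S₀ → 0 ≤ R → 1 ≤ Y → 2 ≤ Bp → ∀ b : ℕ,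
    ∃ (A₀ : ℝ) (j₀ n₁ : ℕ), 0 ≤ A₀ ∧ 1 ≤ n₁ ∧ ∀ q₀ : ℝ, 0 ≤ q₀ → ∀ (T : ℕ → ℕ) (u i j : ℕ) (θ Λ δ : ℝ), 1 ≤ θ → θ ≤ 2 → n₁ ≤ T u →
    (∀ v, u ≤ v → v < u + (i + 2) → K₀ * T v ≤ T (v + 1) ∧ T (v + 1) ≤ b * T v) →
    (R + K₁ + Y + 1) * (Bp ^ j * wd μ s (T (u + (i + 2)))) ≤ Λ → 2 ^ (j + j₀) * wd μ s (T (u + (i + 1))) ≤ δ * T (u + (i + 1)) →
    ∀ (q : ℕ → ℝ) (ℓ : ℕ → ℤ → ℝ) (k : ℕ → ℤ → ℤ → ℝ) (B : ℕ → Finset ℤ) (Gr : ℕ → ℤ → Prop) (r β : ℝ),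
    Sys84 μ s P cc c₂ κ' S₀ r T q ℓ k B u (u + (i + 3)) → Stp84 μ s Bp B₂ Λ δ T q ℓ k B Gr u (u + (i + 3)) →
    (∀ v, u ≤ v → v < u + (i + 3) → q v ≤ q₀ * θ ^ (v - u)) → |r| ≤ R * wd μ s (T u) → (∀ x : ℤ, ℓ u x = x - β) →
    ∀ (F G : ℤ → ℝ) (Z : Finset ℤ) (x x' : ℤ), (∀ z, 0 ≤ G z) → 0 ≤ F x' →
    |(x : ℝ) - (β + r)| ≤ K₁ * (Bp ^ j * wd μ s (T (u + i))) → |(x' : ℝ) - (β + r)| ≤ K₁ * (Bp ^ j * wd μ s (T (u + i))) →
    |(x : ℝ) - x'| ≤ 2 * K₁ * wd μ s (T (u + i)) →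
    (∀ z ∈ Z, z ∈ B (u + (i + 3)) ∧ |ℓ (u + (i + 3)) z - ℓ u x| ≤ Y * 2 ^ j * wd μ s (T (u + (i + 2)))) →
    F x ≤ 2 * ∑ z ∈ Z, cmp k B (i + 3) u x z * G z → ∑ z ∈ Z, cmp k B (i + 3) u x' z * G z ≤ F x' →
    F x ≤ Real.exp (A₀ * (1 + q₀) ^ 2 * (B₂ ^ j * θ ^ (2 * i) * EE μ s (T (u + i)))) * F x' := by
  obtain ⟨D', K₀, n₂, hD1, hK2, hn2, henv⟩ := env84 h P
  refine ⟨K₀, hK2, fun κ' K₁ S₀ R Y Bp hκ' hK₁ hS₀ hR hY hBp b => ?_⟩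
  have hCL := CL_pos P hc₁
  have hD0 : 0 < D' := by linarith
  have hκ'0 : 0 < κ' := by linarith
  obtain ⟨Bw, n₃, hBw2, hn3, hBw⟩ := wd_next h b
  obtain ⟨Cg, hCg1, hCg⟩ := gr_exp P (a := R + K₁ + Y + 1 + κ') (b := Bp) (by linarith) (by linarith)
  obtain ⟨j₀, hj₀⟩ : ∃ j₀ : ℕ, 2 + Y * Bw + 2 * K₁ + R ≤ 2 ^ j₀ := by
    obtain ⟨N, hN⟩ := exists_nat_ge (2 + Y * Bw + 2 * K₁ + R)
    exact ⟨N, hN.trans (by exact_mod_cast Nat.lt_two_pow_self.le)⟩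
  have hB₂0 : 0 < B₂ := by linarith
  obtain ⟨A₀, hA₀⟩ : ∃ A₀ : ℝ, A₀ = (CL P c₁ * (1 + 4 * D') ^ 2 * Cg + S₀ * D' + 4 * D' * Cg) * (2 * b * (2 * b)) +
    2 * B₂ ^ j₀ * (2 * b) + 1 := ⟨_, rfl⟩
  refine ⟨A₀, j₀, max n₂ n₃, by rw [hA₀]; positivity, hn2.trans (le_max_left _ _), fun q₀ hq₀ => ?_⟩
  -- the constants
  obtain ⟨A₂, hA₂⟩ : ∃ A₂ : ℝ, A₂ = CL P c₁ * (1 + 4 * q₀ * D') ^ 2 := ⟨_, rfl⟩
  have hA20 : 0 < A₂ := by rw [hA₂]; positivity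
  obtain ⟨A₃, hA₃⟩ : ∃ A₃ : ℝ, A₃ = A₂ * Cg + S₀ * D' + 4 * q₀ * D' * Cg := ⟨_, rfl⟩
  have hA30 : 0 ≤ A₃ := by rw [hA₃]; positivity
  obtain ⟨A₄, hA₄⟩ : ∃ A₄ : ℝ, A₄ = 2 * q₀ * B₂ ^ j₀ := ⟨_, rfl⟩
  have hA40 : 0 ≤ A₄ := by rw [hA₄]; positivity
  have hAA : A₃ * (2 * b * (2 * b)) + A₄ * (2 * b) + 1 ≤ A₀ * (1 + q₀) ^ 2 := by
    have e1 : (1 + 4 * q₀ * D') ^ 2 ≤ (1 + 4 * D') ^ 2 * (1 + q₀) ^ 2 := by
      rw [← mul_pow]
      refine pow_le_pow_left₀ (by positivity) ?_ 2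
      have : 0 ≤ q₀ + 4 * D' := by positivity
      linarith [show (1 + 4 * D') * (1 + q₀) = 1 + 4 * q₀ * D' + (q₀ + 4 * D') by ring]
    have e2 : A₂ ≤ CL P c₁ * (1 + 4 * D') ^ 2 * (1 + q₀) ^ 2 := by
      rw [hA₂]
      have := mul_le_mul_of_nonneg_left e1 hCL.le
      linarith
    have hQ1 : 1 ≤ (1 + q₀) ^ 2 := one_le_pow₀ (by linarith)
    have hQq : q₀ ≤ (1 + q₀) ^ 2 := by nlinarith
    have e3 : A₃ ≤ (CL P c₁ * (1 + 4 * D') ^ 2 * Cg + S₀ * D' + 4 * D' * Cg) * (1 + q₀) ^ 2 := by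
      have f1 : A₂ * Cg ≤ CL P c₁ * (1 + 4 * D') ^ 2 * (1 + q₀) ^ 2 * Cg := mul_le_mul_of_nonneg_right e2 (by linarith)
      have f2 : S₀ * D' * 1 ≤ S₀ * D' * (1 + q₀) ^ 2 := mul_le_mul_of_nonneg_left hQ1 (by positivity)
      have f3 : 4 * D' * Cg * q₀ ≤ 4 * D' * Cg * (1 + q₀) ^ 2 := mul_le_mul_of_nonneg_left hQq (by positivity)
      rw [hA₃]
      linarith
    have e4 : A₄ ≤ 2 * B₂ ^ j₀ * (1 + q₀) ^ 2 := by
      have := mul_le_mul_of_nonneg_left hQq (show 0 ≤ 2 * B₂ ^ j₀ by positivity)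
      rw [hA₄]
      linarith
    have f1 := mul_le_mul_of_nonneg_right e3 (show 0 ≤ (2 * b * (2 * b) : ℝ) by positivity)
    have f2 := mul_le_mul_of_nonneg_right e4 (show 0 ≤ (2 * b : ℝ) by positivity)
    rw [hA₀]
    linarith
  intro T u i j θ Λ δ hθ hθ2 hT0 hT hΛ hcone q ℓ k B Gr r β hsys hstp hq hr hℓ F G Z x x' hG hF0 hx hx' hxx hZ hF hF'
  suffices hold : F x ≤ Real.exp ((A₃ * (2 * b * (2 * b)) + A₄ * (2 * b) + 1) * (B₂ ^ j * θ ^ (2 * i) * EE μ s (T (u + i)))) * F x' by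
    refine hold.trans (mul_le_mul_of_nonneg_right (Real.exp_le_exp.2 (mul_le_mul_of_nonneg_right hAA ?_)) hF0)
    have hEi' := EE_pos (μ := μ) (s := s) (T (u + i))
    positivity
  have g2 : n₂ ≤ T u := (le_max_left _ _).trans hT0
  have g3 : n₃ ≤ T u := (le_max_right _ _).trans hT0
  have hTu1 : 1 ≤ T u := hn2.trans g2
  have hK1 : 1 ≤ K₀ := by omega
  have hmon1 : ∀ v, u ≤ v → v < u + (i + 2) → T v ≤ T (v + 1) := fun v hv hv' =>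
    (Nat.le_mul_of_pos_left _ hK1).trans (hT v hv hv').1
  have hmon : ∀ a, a ≤ i + 2 → T u ≤ T (u + a) := by
    intro a
    induction a with
    | zero => intro _; exact le_rfl
    | succ a ih =>
      intro ha
      rw [show u + (a + 1) = u + a + 1 by omega]
      exact (ih (by omega)).trans (hmon1 (u + a) (by omega) (by omega))
  -- the envelope
  obtain ⟨e, s', hE, he, hs⟩ := henv (cc := cc) (c₂ := c₂) (κ' := κ') (S₀ := S₀) (r := r) (q₀ := q₀) (θ := θ) (T := T) (q := q)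
    (ℓ := ℓ) (k := k) (B := B) (u := u) (i := i + 1) (M := u + (i + 3)) (by linarith) hc₂ hS₀ hq₀ hθ g2
    (fun v hv hv' => (hT v hv (by omega)).1) (by omega) hsys (fun v hv hv' => hq v hv (by omega))
  rw [show i + 1 + 1 = i + 2 by omega, show i + 1 + 2 = i + 3 by omega] at hE
  rw [show i + 1 + 2 = i + 3 by omega, show i + 1 + 1 = i + 2 by omega] at he
  rw [show i + 1 + 2 = i + 3 by omega] at hs
  obtain ⟨wt, hwt⟩ : ∃ wt, wt = wd μ s (T (u + (i + 2))) := ⟨_, rfl⟩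
  obtain ⟨Et, hEt⟩ : ∃ Et, Et = EE μ s (T (u + (i + 2))) := ⟨_, rfl⟩
  obtain ⟨wv, hwv⟩ : ∃ wv, wv = wd μ s (T (u + (i + 1))) := ⟨_, rfl⟩
  obtain ⟨Ev, hEv⟩ : ∃ Ev, Ev = EE μ s (T (u + (i + 1))) := ⟨_, rfl⟩
  obtain ⟨wi, hwi⟩ : ∃ wi, wi = wd μ s (T (u + i)) := ⟨_, rfl⟩
  obtain ⟨Ei, hEi⟩ : ∃ Ei, Ei = EE μ s (T (u + i)) := ⟨_, rfl⟩
  rw [← hwt, ← hEt] at hE
  have hwt0 : 0 < wt := hE.wt0
  have hEt0 : 0 < Et := hE.Et0
  have hw2 : ∀ v, u ≤ v → v < u + (i + 3) → 2 ≤ wd μ s (T v) := by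
    intro v hv hv'
    have h1 : T u ≤ T v := by
      have := hmon (v - u) (by omega)
      rwa [show u + (v - u) = v by omega] at this
    have h2 := wd_ge_one h (hTu1.trans h1)
    have h3 := one_le_EE (μ := μ) (s := s) (T v)
    linarith
  have hwi2 : 2 ≤ wi := by rw [hwi]; exact hw2 _ (by omega) (by omega)
  have hwv2 : 2 ≤ wv := by rw [hwv]; exact hw2 _ (by omega) (by omega)
  have hEi1 : 1 ≤ Ei := by rw [hEi]; exact one_le_EE _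
  have hEv0 : 0 < Ev := by rw [hEv]; exact EE_pos _
  have hwvt : wv ≤ wt := by
    rw [hwv]
    exact hE.wle _ (by omega) (by omega)
  have hwit : wi ≤ wt := by
    rw [hwi]
    exact hE.wle _ (by omega) (by omega)
  have hwut : wd μ s (T u) ≤ wt := hE.wle u le_rfl (by omega)
  have hwuv : wd μ s (T u) ≤ wv ∧ wi ≤ wv := by
    obtain ⟨e', s'', hE', -, -⟩ := henv (cc := cc) (c₂ := c₂) (κ' := κ') (S₀ := S₀) (r := r) (q₀ := q₀) (θ := θ) (T := T) (q := q)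
      (ℓ := ℓ) (k := k) (B := B) (u := u) (i := i) (M := u + (i + 3)) (by linarith) hc₂ hS₀ hq₀ hθ g2
      (fun v hv hv' => (hT v hv (by omega)).1) (by omega) hsys (fun v hv hv' => hq v hv (by omega))
    rw [hwv, hwi]
    exact ⟨hE'.wle u le_rfl (by omega), hE'.wle (u + i) (by omega) (by omega)⟩
  obtain ⟨hwuv, hwiv⟩ := hwuv
  have hBj1 : 1 ≤ Bp ^ j := one_le_pow₀ (by linarith)
  have h2j1 : (1 : ℝ) ≤ 2 ^ j := one_le_pow₀ (by norm_num)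
  have h2Bw : (2 : ℝ) ^ j ≤ Bp ^ j := pow_le_pow_left₀ (by norm_num) hBp j
  have hwi0 : 0 ≤ wi := by linarith
  -- lateral positions
  have hrw : |r| ≤ R * wi := by
    refine hr.trans (mul_le_mul_of_nonneg_left ?_ hR)
    have : wd μ s (T u) ≤ wi := by
      rcases Nat.eq_zero_or_pos i with h0 | h0
      · rw [hwi, h0, add_zero]
      · obtain ⟨e', s'', hE', -, -⟩ := henv (cc := cc) (c₂ := c₂) (κ' := κ') (S₀ := S₀) (r := r) (q₀ := q₀) (θ := θ) (T := T) (q := q)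
          (ℓ := ℓ) (k := k) (B := B) (u := u) (i := i - 1) (M := u + (i + 3)) (by linarith) hc₂ hS₀ hq₀ hθ g2
          (fun v hv hv' => (hT v hv (by omega)).1) (by omega) hsys (fun v hv hv' => hq v hv (by omega))
        rw [show i - 1 + 1 = i by omega] at hE'
        rw [hwi]
        exact hE'.wle u le_rfl (by omega)
    exact this
  have hlat : ∀ y : ℤ, |(y : ℝ) - (β + r)| ≤ K₁ * (Bp ^ j * wi) → |ℓ u y| ≤ (R + K₁) * (Bp ^ j * wi) := by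
    intro y hy
    rw [hℓ]
    have h1 := abs_add_le ((y : ℝ) - (β + r)) r
    rw [show (y : ℝ) - (β + r) + r = y - β by ring] at h1
    have h3 : R * wi ≤ R * (Bp ^ j * wi) := mul_le_mul_of_nonneg_left (le_mul_of_one_le_left hwi0 hBj1) hR
    linarith
  rw [← hwi] at hx hx'
  have hlx := hlat x hx
  have hlx' := hlat x' hx'
  have hll : ℓ u x - ℓ u x' = x - x' := by rw [hℓ, hℓ]; ring
  rw [← hwt] at hZ hΛ
  have hRK : 0 ≤ R + K₁ := by linarith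
  have hBit : Bp ^ j * wi ≤ Bp ^ j * wt := mul_le_mul_of_nonneg_left hwit (by positivity)
  have hΛ1 : (R + K₁) * (Bp ^ j * wi) ≤ Λ := by
    refine le_trans ?_ hΛ
    exact mul_le_mul (by linarith) hBit (by positivity) (by linarith)
  have hY0 : 0 ≤ Y := by linarith
  have hθi : 1 ≤ θ ^ i := one_le_pow₀ hθ
  have hθi0 : 0 < θ ^ i := by linarith
  have hθ2i : θ ^ (2 * i) = θ ^ i * θ ^ i := by rw [two_mul, pow_add]
  have hθθ : θ ^ i ≤ θ ^ (2 * i) := by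
    rw [hθ2i]
    exact le_mul_of_one_le_left hθi0.le hθi
  have h2B : (2 : ℝ) ^ j ≤ B₂ ^ j := pow_le_pow_left₀ (by norm_num) hB₂ j
  have hB2j1 : 1 ≤ B₂ ^ j := h2j1.trans h2B
  have hQt : q₀ * D' * θ ^ (i + 2) ≤ 4 * q₀ * D' * θ ^ i := by
    rw [pow_add]
    have h1 : θ ^ 2 ≤ 4 := by nlinarith only [hθ, hθ2]
    have h2 : 0 ≤ q₀ * D' * θ ^ i := by positivity
    have := mul_le_mul_of_nonneg_left h1 h2
    linarith
  have hQt0 : 0 ≤ q₀ * D' * θ ^ (i + 2) := by positivity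
  have hgx : ∀ X : ℝ, 0 ≤ X → X ≤ (R + K₁ + Y + 1 + κ') * (Bp ^ j * wt) → gr P (X / wt) ≤ Cg * 2 ^ j := by
    intro X hX0 hX
    refine hCg j (X / wt) (by positivity) ?_
    rw [div_le_iff₀ hwt0, mul_assoc]
    exact hX
  have hBwt : Bp ^ j * wi ≤ Bp ^ j * wt := hBit
  have hwtB : wt ≤ Bp ^ j * wt := le_mul_of_one_le_left hwt0.le hBj1
  obtain ⟨W, hW⟩ : ∃ W, W = Bp ^ j * wt := ⟨_, rfl⟩
  rw [← hW] at hBwt hwtB hgx hΛ
  have hW0 : 0 ≤ W := by linarith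
  have hlxW := hlx.trans (mul_le_mul_of_nonneg_left hBwt hRK)
  have hlxW' := hlx'.trans (mul_le_mul_of_nonneg_left hBwt hRK)
  have hzlat : ∀ z ∈ Z, |ℓ (u + (i + 3)) z| ≤ |ℓ u x| + Y * 2 ^ j * wt := by
    intro z hz
    have h1 := (hZ z hz).2
    have h2 := abs_add_le (ℓ (u + (i + 3)) z - ℓ u x) (ℓ u x)
    rw [sub_add_cancel] at h2
    linarith
  have hYW : Y * 2 ^ j * wt ≤ Y * W := by
    rw [hW, mul_assoc]
    exact mul_le_mul_of_nonneg_left (mul_le_mul_of_nonneg_right h2Bw hwt0.le) hY0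
  -- the grid points
  have hgrid1 := hstp.grid (ℓ u x') (hlx'.trans hΛ1) (u + i) (by omega) (by omega)
  obtain ⟨p₁, hp₁, hG₁, hd₁⟩ := hgrid1
  rw [← hwi] at hd₁
  have hfin := lr_env (u := u) (m := i) hE (κ := κ') (c₁ := c₁) (c₃ := c₃) (Q := q₀ * D' * θ ^ (i + 2)) (S := S₀ * D') (Pa := 2)
    (g := Cg * 2 ^ j) (st := q (u + (i + 1)) * B₂ ^ (j + j₀) * Ev) hc₁ hc₃ hcc he hs (by linarith) hw2
    (fun v hv hv' => hsys.low v hv (by omega)) (F := F) (G := G) hG (Z := Z) (by norm_num) (x := x) (x' := x') hF hF'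
    (fun v hv hv' => hstp.line (ℓ u x') (hlx'.trans hΛ1) v hv (by omega)) ?_ ?_
  · rw [← hEi]
    refine hfin.trans (mul_le_mul_of_nonneg_right ?_ hF0)
    have hLQ : LQ P c₁ (q₀ * D' * θ ^ (i + 2)) ≤ A₂ * θ ^ (2 * i) := by
      refine (lq_le P hc₁ hQt0).trans ?_
      rw [hA₂, hθ2i]
      have h1 : 1 + q₀ * D' * θ ^ (i + 2) ≤ (1 + 4 * q₀ * D') * θ ^ i := by linarith
      have h2 := pow_le_pow_left₀ (by positivity) h1 2
      have h3 := mul_le_mul_of_nonneg_left h2 hCL.le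
      linarith [show CL P c₁ * ((1 + 4 * q₀ * D') * θ ^ i) ^ 2 = CL P c₁ * (1 + 4 * q₀ * D') ^ 2 * (θ ^ i * θ ^ i) by ring]
    have hgrx : gr P (|ℓ u x| / wt) ≤ Cg * 2 ^ j := by
      refine hgx _ (abs_nonneg _) ?_
      have h3 : 0 ≤ (Y + 1 + κ') * W := by positivity
      linarith
    obtain ⟨X, hX⟩ : ∃ X, X = B₂ ^ j * θ ^ (2 * i) := ⟨_, rfl⟩
    have hθ2i0 : 0 < θ ^ (2 * i) := by positivity
    have hX1 : 1 ≤ X := by
      rw [hX]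
      exact one_le_mul_of_one_le_of_one_le hB2j1 (hθi.trans hθθ)
    have k1 : LQ P c₁ (q₀ * D' * θ ^ (i + 2)) * gr P (|ℓ u x| / wt) ≤ A₂ * Cg * X := by
      calc LQ P c₁ (q₀ * D' * θ ^ (i + 2)) * gr P (|ℓ u x| / wt) ≤ (A₂ * θ ^ (2 * i)) * (Cg * 2 ^ j) :=
            mul_le_mul hLQ hgrx (gr_nonneg P (by positivity)) (by positivity)
        _ = A₂ * Cg * (2 ^ j * θ ^ (2 * i)) := by ring
        _ ≤ A₂ * Cg * X := by
          rw [hX]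
          exact mul_le_mul_of_nonneg_left (mul_le_mul_of_nonneg_right h2B hθ2i0.le) (by positivity)
    have k2 : S₀ * D' ≤ S₀ * D' * X := le_mul_of_one_le_right (by positivity) hX1
    have k3 : q₀ * D' * θ ^ (i + 2) * (Cg * 2 ^ j) ≤ 4 * q₀ * D' * Cg * X := by
      calc q₀ * D' * θ ^ (i + 2) * (Cg * 2 ^ j) ≤ (4 * q₀ * D' * θ ^ (2 * i)) * (Cg * 2 ^ j) := by
            refine mul_le_mul_of_nonneg_right (hQt.trans ?_) (by positivity)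
            exact mul_le_mul_of_nonneg_left hθθ (by positivity)
        _ = 4 * q₀ * D' * Cg * (2 ^ j * θ ^ (2 * i)) := by ring
        _ ≤ _ := by
          rw [hX]
          exact mul_le_mul_of_nonneg_left (mul_le_mul_of_nonneg_right h2B hθ2i0.le) (by positivity)
    have hscale : ∀ v, u ≤ v → v < u + (i + 2) → EE μ s (T (v + 1)) ≤ 2 * b * EE μ s (T v) := by
      intro v hv hv'
      have h0 : T u ≤ T v := by
        have := hmon (v - u) (by omega)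
        rwa [show u + (v - u) = v by omega] at this
      have h3 := scale_b h (hTu1.trans h0) (hmon1 v hv hv')
      have hTi : (0 : ℝ) < T v := by exact_mod_cast hTu1.trans h0
      have h4 : (T (v + 1) : ℝ) ≤ b * T v := by exact_mod_cast (hT v hv hv').2
      have hEi := EE_pos (μ := μ) (s := s) (T v)
      have h5 : (T v : ℝ) * EE μ s (T (v + 1)) ≤ T v * (2 * b * EE μ s (T v)) := by
        have h6 := mul_le_mul_of_nonneg_right h4 hEi.le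
        linarith
      exact le_of_mul_le_mul_left h5 hTi
    have kE1 : Ev ≤ 2 * b * Ei := by
      rw [hEv, hEi]
      exact hscale (u + i) (by omega) (by omega)
    have kE2 : Et ≤ 2 * b * Ev := by
      rw [hEv, hEt]
      exact hscale (u + (i + 1)) (by omega) (by omega)
    have kE3 : Et ≤ 2 * b * (2 * b) * Ei := by
      have := mul_le_mul_of_nonneg_left kE1 (show (0 : ℝ) ≤ 2 * b by positivity)
      linarith
    have k4 : (LQ P c₁ (q₀ * D' * θ ^ (i + 2)) * gr P (|ℓ u x| / wt) + S₀ * D' + q₀ * D' * θ ^ (i + 2) * (Cg * 2 ^ j)) * Et ≤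
        A₃ * (2 * b * (2 * b)) * (X * Ei) := by
      have h1 : LQ P c₁ (q₀ * D' * θ ^ (i + 2)) * gr P (|ℓ u x| / wt) + S₀ * D' + q₀ * D' * θ ^ (i + 2) * (Cg * 2 ^ j) ≤ A₃ * X := by
        rw [hA₃]
        linarith [show (A₂ * Cg + S₀ * D' + 4 * q₀ * D' * Cg) * X = A₂ * Cg * X + S₀ * D' * X + 4 * q₀ * D' * Cg * X by ring]
      calc _ ≤ A₃ * X * Et := mul_le_mul_of_nonneg_right h1 hEt0.le
        _ ≤ A₃ * X * (2 * b * (2 * b) * Ei) := mul_le_mul_of_nonneg_left kE3 (by positivity)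
        _ = _ := by ring
    have k5 : q (u + (i + 1)) * B₂ ^ (j + j₀) * Ev ≤ A₄ * (2 * b) * (X * Ei) := by
      have h1 : q (u + (i + 1)) ≤ 2 * q₀ * θ ^ (2 * i) := by
        have h2 := hq (u + (i + 1)) (by omega) (by omega)
        rw [show u + (i + 1) - u = i + 1 by omega, pow_succ] at h2
        have h3 : q₀ * (θ ^ i * θ) ≤ q₀ * (θ ^ (2 * i) * 2) :=
          mul_le_mul_of_nonneg_left (mul_le_mul hθθ hθ2 (by linarith) hθ2i0.le) hq₀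
        linarith
      have h2 : q (u + (i + 1)) * B₂ ^ (j + j₀) ≤ A₄ * X := by
        calc q (u + (i + 1)) * B₂ ^ (j + j₀) ≤ (2 * q₀ * θ ^ (2 * i)) * B₂ ^ (j + j₀) :=
              mul_le_mul_of_nonneg_right h1 (by positivity)
          _ = A₄ * X := by rw [hA₄, hX, pow_add]; ring
      calc q (u + (i + 1)) * B₂ ^ (j + j₀) * Ev ≤ A₄ * X * Ev := mul_le_mul_of_nonneg_right h2 hEv0.le
        _ ≤ A₄ * X * (2 * b * Ei) := mul_le_mul_of_nonneg_left kE1 (by positivity)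
        _ = _ := by ring
    have k6 : (2 : ℝ) ≤ Real.exp (X * Ei) := by
      have h5 : 1 ≤ X * Ei := one_le_mul_of_one_le_of_one_le hX1 hEi1
      have h6 := Real.add_one_le_exp (X * Ei)
      linarith
    rw [← hX]
    calc 2 * Real.exp ((LQ P c₁ (q₀ * D' * θ ^ (i + 2)) * gr P (|ℓ u x| / wt) + S₀ * D' + q₀ * D' * θ ^ (i + 2) * (Cg * 2 ^ j)) * Et +
          q (u + (i + 1)) * B₂ ^ (j + j₀) * Ev) ≤
        Real.exp (X * Ei) * Real.exp (A₃ * (2 * b * (2 * b)) * (X * Ei) + A₄ * (2 * b) * (X * Ei)) :=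
          mul_le_mul k6 (Real.exp_le_exp.2 (add_le_add k4 k5)) (Real.exp_pos _).le (Real.exp_pos _).le
      _ = Real.exp ((A₃ * (2 * b * (2 * b)) + A₄ * (2 * b) + 1) * (X * Ei)) := by
        rw [← Real.exp_add]
        congr 1
        ring
  · have h1 : |ℓ u x'| / wt + κ' = (|ℓ u x'| + κ' * wt) / wt := by field_simp
    rw [h1]
    refine hgx _ (by positivity) ?_
    have h2 := mul_le_mul_of_nonneg_left hwtB hκ'0.le
    have h3 : 0 ≤ (Y + 1) * W := by positivity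
    linarith
  · intro z hz
    refine ⟨(hZ z hz).1, p₁, hp₁, ?_⟩
    have hz1 := hzlat z hz
    obtain ⟨p₂, hp₂, hG₂, hd₂⟩ := hstp.grid (ℓ (u + (i + 3)) z) (by
      refine hz1.trans (le_trans ?_ hΛ)
      linarith [show (R + K₁ + Y + 1) * W = (R + K₁) * W + Y * W + W by ring])
      (u + (i + 1)) (by omega) (by omega)
    rw [← hwv] at hd₂
    refine ⟨p₂, hp₂, ?_, ?_, ?_, ?_⟩
    · rw [← hwi]
      have h1 := mul_le_mul_of_nonneg_right hκ' hwi0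
      have h2 : |ℓ (u + (i + 1)) p₁ - ℓ u x'| ≤ wi := hd₁
      linarith
    · have hst := hstp.steep (u + (i + 1)) (by omega) (by omega) (j + j₀) p₁ hp₁ p₂ hp₂ hG₁ hG₂ ?_ ?_ hcone
      · rw [← hEv] at hst
        exact hst
      · rw [← hwv]
        have h1 : |ℓ (u + (i + 1)) p₁ - ℓ u x'| ≤ wi := hd₁
        have h2 := abs_add_le (ℓ (u + (i + 1)) p₁ - ℓ u x') (ℓ u x')
        rw [sub_add_cancel] at h2
        have h3 : Bp ^ j * wi ≤ Bp ^ j * wv := mul_le_mul_of_nonneg_left hwiv (by positivity)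
        have h4 : wi ≤ Bp ^ j * wv := hwiv.trans (le_mul_of_one_le_left (by linarith) hBj1)
        have h5 := mul_le_mul_of_nonneg_left h3 hRK
        have h6 : (R + K₁ + 1) * (Bp ^ j * wv) ≤ Bp ^ j₀ * (Bp ^ j * wv) := by
          have a1 : R + K₁ + 1 ≤ Bp ^ j₀ := by
            have a2 : (2 : ℝ) ^ j₀ ≤ Bp ^ j₀ := pow_le_pow_left₀ (by norm_num) hBp j₀
            have a3 : 0 ≤ Y * Bw := by positivity
            linarith
          exact mul_le_mul_of_nonneg_right a1 (by positivity)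
        rw [pow_add]
        linarith [show Bp ^ j * Bp ^ j₀ * wv = Bp ^ j₀ * (Bp ^ j * wv) by ring]
      · rw [← hwv]
        have h1 : |ℓ (u + (i + 1)) p₁ - ℓ u x'| ≤ wi := hd₁
        have h3 : |ℓ (u + (i + 2)) p₂ - ℓ (u + (i + 3)) z| ≤ wv := hd₂
        have h5 := (hZ z hz).2
        have h6 : |ℓ u x - ℓ u x'| ≤ 2 * K₁ * wi := by
          rw [hll, hwi]
          exact hxx
        have h7 : wt ≤ Bw * wv := by
          rw [hwt, hwv]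
          exact hBw _ _ (g3.trans (hmon (i + 1) (by omega))) (hmon1 (u + (i + 1)) (by omega) (by omega))
            (hT (u + (i + 1)) (by omega) (by omega)).2
        have t1 := abs_add_le (ℓ (u + (i + 2)) p₂ - ℓ (u + (i + 3)) z) (ℓ (u + (i + 3)) z - ℓ u x)
        rw [sub_add_sub_cancel] at t1
        have t2 := abs_add_le (ℓ (u + (i + 2)) p₂ - ℓ u x) (ℓ u x - ℓ u x')
        rw [sub_add_sub_cancel] at t2
        have t3 := abs_add_le (ℓ (u + (i + 2)) p₂ - ℓ u x') (ℓ u x' - ℓ (u + (i + 1)) p₁)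
        rw [sub_add_sub_cancel, abs_sub_comm (ℓ u x')] at t3
        have h8 : Y * 2 ^ j * wt ≤ (Y * Bw) * (2 ^ j * wv) := by
          calc Y * 2 ^ j * wt ≤ Y * 2 ^ j * (Bw * wv) := mul_le_mul_of_nonneg_left h7 (by positivity)
            _ = _ := by ring
        have hwv0 : 0 ≤ wv := by linarith
        have h9 : wv ≤ 2 ^ j * wv := le_mul_of_one_le_left hwv0 h2j1
        have h10 : 2 * K₁ * wi ≤ 2 * K₁ * (2 ^ j * wv) := mul_le_mul_of_nonneg_left (hwiv.trans h9) (by linarith)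
        have h11 : (2 + Y * Bw + 2 * K₁ + R) * (2 ^ j * wv) ≤ 2 ^ j₀ * (2 ^ j * wv) := mul_le_mul_of_nonneg_right hj₀ (by positivity)
        have h12 : 0 ≤ R * (2 ^ j * wv) := by positivity
        have h13 : |ℓ (u + (i + 1) + 1) p₂ - ℓ (u + (i + 1)) p₁| ≤ 2 ^ j₀ * (2 ^ j * wv) := by
          show |ℓ (u + (i + 2)) p₂ - ℓ (u + (i + 1)) p₁| ≤ 2 ^ j₀ * (2 ^ j * wv)
          linarith [show (2 + Y * Bw + 2 * K₁ + R) * (2 ^ j * wv) = 2 ^ j * wv + 2 ^ j * wv + Y * Bw * (2 ^ j * wv) + 2 * K₁ * (2 ^ j * wv) +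
            R * (2 ^ j * wv) by ring]
        rw [pow_add]
        linarith [show (2 : ℝ) ^ j * 2 ^ j₀ * wv = 2 ^ j₀ * (2 ^ j * wv) by ring]
    · have h3 : |ℓ (u + (i + 2)) p₂ - ℓ (u + (i + 3)) z| ≤ wv := hd₂
      rw [abs_sub_comm, ← hwt]
      have h4 := mul_le_mul_of_nonneg_right hκ' hwt0.le
      linarith
    · refine hgx _ (abs_nonneg _) ?_
      have h3 : |ℓ (u + (i + 2)) p₂ - ℓ (u + (i + 3)) z| ≤ wv := hd₂
      have h4 := abs_add_le (ℓ (u + (i + 2)) p₂ - ℓ (u + (i + 3)) z) (ℓ (u + (i + 3)) z)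
      rw [sub_add_cancel] at h4
      have h5 : 0 ≤ κ' * W := by positivity
      linarith

/-- The same, the constant after the level. -/
theorem lrb_one (h : In μ s c C n₀) (P : ℕ) {cc c₁ c₂ c₃ B₂ : ℝ} (hc₁ : 0 < c₁) (hc₂ : 0 ≤ c₂) (hc₃ : 0 ≤ c₃) (hcc : c₁ + c₂ + c₃ ≤ cc)
    (hB₂ : 2 ≤ B₂) : ∃ K₀ : ℕ, 2 ≤ K₀ ∧ ∀ κ' K₁ q₀ S₀ R Y Bp : ℝ, 2 ≤ κ' → 1 ≤ K₁ → 0 ≤ q₀ → 0 ≤ S₀ → 0 ≤ R → 1 ≤ Y → 2 ≤ Bp → ∀ b : ℕ,
    ∃ (A : ℝ) (j₀ n₁ : ℕ), 0 ≤ A ∧ 1 ≤ n₁ ∧ ∀ (T : ℕ → ℕ) (u i j : ℕ) (θ Λ δ : ℝ), 1 ≤ θ → θ ≤ 2 → n₁ ≤ T u →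
    (∀ v, u ≤ v → v < u + (i + 2) → K₀ * T v ≤ T (v + 1) ∧ T (v + 1) ≤ b * T v) →
    (R + K₁ + Y + 1) * (Bp ^ j * wd μ s (T (u + (i + 2)))) ≤ Λ → 2 ^ (j + j₀) * wd μ s (T (u + (i + 1))) ≤ δ * T (u + (i + 1)) →
    ∀ (q : ℕ → ℝ) (ℓ : ℕ → ℤ → ℝ) (k : ℕ → ℤ → ℤ → ℝ) (B : ℕ → Finset ℤ) (Gr : ℕ → ℤ → Prop) (r β : ℝ),
    Sys84 μ s P cc c₂ κ' S₀ r T q ℓ k B u (u + (i + 3)) → Stp84 μ s Bp B₂ Λ δ T q ℓ k B Gr u (u + (i + 3)) →
    (∀ v, u ≤ v → v < u + (i + 3) → q v ≤ q₀ * θ ^ (v - u)) → |r| ≤ R * wd μ s (T u) → (∀ x : ℤ, ℓ u x = x - β) →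
    ∀ (F G : ℤ → ℝ) (Z : Finset ℤ) (x x' : ℤ), (∀ z, 0 ≤ G z) → 0 ≤ F x' →
    |(x : ℝ) - (β + r)| ≤ K₁ * (Bp ^ j * wd μ s (T (u + i))) → |(x' : ℝ) - (β + r)| ≤ K₁ * (Bp ^ j * wd μ s (T (u + i))) →
    |(x : ℝ) - x'| ≤ 2 * K₁ * wd μ s (T (u + i)) →
    (∀ z ∈ Z, z ∈ B (u + (i + 3)) ∧ |ℓ (u + (i + 3)) z - ℓ u x| ≤ Y * 2 ^ j * wd μ s (T (u + (i + 2)))) →
    F x ≤ 2 * ∑ z ∈ Z, cmp k B (i + 3) u x z * G z → ∑ z ∈ Z, cmp k B (i + 3) u x' z * G z ≤ F x' →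
    F x ≤ Real.exp (A * (B₂ ^ j * θ ^ (2 * i) * EE μ s (T (u + i)))) * F x' := by
  obtain ⟨K₀, hK₀, H⟩ := lrb_q h P hc₁ hc₂ hc₃ hcc hB₂
  refine ⟨K₀, hK₀, fun κ' K₁ q₀ S₀ R Y Bp hκ' hK₁ hq₀ hS₀ hR hY hBp b => ?_⟩
  obtain ⟨A₀, j₀, n₁, hA₀, hn₁, H2⟩ := H κ' K₁ S₀ R Y Bp hκ' hK₁ hS₀ hR hY hBp b
  exact ⟨A₀ * (1 + q₀) ^ 2, j₀, n₁, by positivity, hn₁, H2 q₀ hq₀⟩

end

end Pool.Agent.W_7d29a1_C1.DD84
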