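import Pool.Agent.W_7d29a1_C1.CrB84
import Pool.Agent.W_7d29a1_C1.FutB67
import Pool.Agent.W_7d29a1_C1.LRB84

/-!
MP_7d29a1_pr, [C1] THE CRUDE TOP, part 2: the deterministic part. (helper84)

`sc84`: the choice of the scale for the distance `D`. `swapG84`: the exchange of the first `m` rows of the composite mass. `cr84`: the
regularity of the composite mass from the events; `ca84`: the arms.
-/

set_option autoImplicit false

namespace Pool.Agent.W_7d29a1_C1.Cr84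

open MeasureTheory ProbabilityTheory Filter Topology Finset
open Pool.Agent.W_7d29a1_F Pool.Agent.W_7d29a1_X Pool.Agent.W_7d29a1_h4g Pool.Agent.W_7d29a1_H
open Pool.Agent.W_7d29a1_HS (In wd md md_abs wd_ge_one wd_le_two)
open Pool.Agent.W_7d29a1_HZ (PBox wd' EE')
open Pool.Agent.W_7d29a1_C1.U16 Pool.Agent.W_7d29a1_C1.FarW89 Pool.Agent.W_7d29a1_C1.Win84
open Pool.Agent.W_7d29a1_C1.DD84 (wd_next)

noncomputable section

variable {μ : Measure ℝ} {s : ℝ}

/-! ### The exchange of the first rows -/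

/-- **The exchange of the first `m` rows.** -/
theorem swapG84 {η : Env} {t B : ℝ} {a x x' : ℤ} {m k L : ℕ} {A A' : Finset ℤ} (hA : Icc (0 : ℤ) m ⊆ A ∪ A')
    (hbad : QV μ s t η (a, x) m k L A' ≤ 1 / 2 * Real.exp (TG μ s t (m + k) L η (a, x)))
    (hup : ∀ y ∈ A, W μ s η (a, x) m y * Real.exp (t * ((y : ℝ) - sl μ s * m)) ≤ Real.exp B)
    (hlo : ∀ y ∈ A, 0 ≤ y + (x - x') ∧ y + (x - x') ≤ m ∧
      Real.exp (-B) ≤ W μ s η (a, x') m (y + (x - x')) * Real.exp (t * (((y + (x - x') : ℤ) : ℝ) - sl μ s * m))) :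
    TG μ s t (m + k) L η (a, x) ≤ TG μ s t (m + k) L η (a, x') + 2 * B + 1 := by
  have hterm : ∀ y : ℤ, 0 ≤ (W μ s η (a, x) m y * Real.exp (t * ((y : ℝ) - sl μ s * m))) *
      Real.exp (TG μ s t k L η ((a, x).1 + (m : ℤ), (a, x).2 + y)) := fun y =>
    mul_nonneg (mul_nonneg (W_nonneg _ _ _ _) (Real.exp_pos _).le) (Real.exp_pos _).le
  have h1 : Real.exp (TG μ s t (m + k) L η (a, x)) ≤ QV μ s t η (a, x) m k L A + QV μ s t η (a, x) m k L A' := by
    rw [← QV_full]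
    refine (QV_mono (μ := μ) (s := s) (h := t) η (a, x) m k L hA).trans ?_
    unfold QV
    have h2 := sum_union_inter (s₁ := A) (s₂ := A') (f := fun y : ℤ => (W μ s η (a, x) m y * Real.exp (t * ((y : ℝ) - sl μ s * m))) *
      Real.exp (TG μ s t k L η ((a, x).1 + (m : ℤ), (a, x).2 + y)))
    have h3 : 0 ≤ ∑ y ∈ A ∩ A', (W μ s η (a, x) m y * Real.exp (t * ((y : ℝ) - sl μ s * m))) *
      Real.exp (TG μ s t k L η ((a, x).1 + (m : ℤ), (a, x).2 + y)) := sum_nonneg fun y _ => hterm y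
    linarith
  have h2 : Real.exp (TG μ s t (m + k) L η (a, x)) ≤ 2 * QV μ s t η (a, x) m k L A := by linarith
  have hin : QV μ s t η (a, x) m k L A ≤ Real.exp (2 * B) * Real.exp (TG μ s t (m + k) L η (a, x')) := by
    have h3 : ∀ y ∈ A, (W μ s η (a, x) m y * Real.exp (t * ((y : ℝ) - sl μ s * m))) *
        Real.exp (TG μ s t k L η ((a, x).1 + (m : ℤ), (a, x).2 + y)) ≤
        Real.exp (2 * B) * ((W μ s η (a, x') m (y + (x - x')) * Real.exp (t * (((y + (x - x') : ℤ) : ℝ) - sl μ s * m))) *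
          Real.exp (TG μ s t k L η ((a, x').1 + (m : ℤ), (a, x').2 + (y + (x - x'))))) := by
      intro y hy
      have h4 := hup y hy
      have h5 := (hlo y hy).2.2
      have e1 : ((a, x).1 + (m : ℤ), (a, x).2 + y) = ((a, x').1 + (m : ℤ), (a, x').2 + (y + (x - x'))) := by
        ext
        · rfl
        · show x + y = x' + (y + (x - x'))
          ring
      rw [e1, ← mul_assoc]
      refine mul_le_mul_of_nonneg_right ?_ (Real.exp_pos _).le
      calc W μ s η (a, x) m y * Real.exp (t * ((y : ℝ) - sl μ s * m)) ≤ Real.exp B := h4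
        _ = Real.exp (2 * B) * Real.exp (-B) := by rw [← Real.exp_add]; congr 1; ring
        _ ≤ _ := mul_le_mul_of_nonneg_left h5 (Real.exp_pos _).le
    have h4 : QV μ s t η (a, x) m k L A ≤ ∑ y ∈ A, Real.exp (2 * B) * ((W μ s η (a, x') m (y + (x - x')) *
        Real.exp (t * (((y + (x - x') : ℤ) : ℝ) - sl μ s * m))) *
          Real.exp (TG μ s t k L η ((a, x').1 + (m : ℤ), (a, x').2 + (y + (x - x'))))) := sum_le_sum h3
    refine h4.trans ?_
    rw [← mul_sum]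
    refine mul_le_mul_of_nonneg_left ?_ (Real.exp_pos _).le
    rw [← QV_full]
    unfold QV
    have e3 : ∑ y ∈ A, (W μ s η (a, x') m (y + (x - x')) * Real.exp (t * (((y + (x - x') : ℤ) : ℝ) - sl μ s * m))) *
          Real.exp (TG μ s t k L η ((a, x').1 + (m : ℤ), (a, x').2 + (y + (x - x')))) =
        ∑ y ∈ A.image (fun y => y + (x - x')), (W μ s η (a, x') m y * Real.exp (t * ((y : ℝ) - sl μ s * m))) *
          Real.exp (TG μ s t k L η ((a, x').1 + (m : ℤ), (a, x').2 + y)) := by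
      rw [sum_image fun u _ v _ huv => add_right_cancel huv]
    rw [e3]
    refine sum_le_sum_of_subset_of_nonneg ?_ fun y _ _ =>
      mul_nonneg (mul_nonneg (W_nonneg _ _ _ _) (Real.exp_pos _).le) (Real.exp_pos _).le
    intro z hz
    rw [mem_image] at hz
    obtain ⟨y, hy, rfl⟩ := hz
    obtain ⟨h6, h7, -⟩ := hlo y hy
    rw [mem_Icc]
    exact ⟨h6, h7⟩
  have h9 : (2 : ℝ) ≤ Real.exp 1 := by
    have := Real.add_one_le_exp (1 : ℝ)
    linarith
  refine Real.exp_le_exp.1 ?_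
  have h10 : 0 < Real.exp (2 * B) * Real.exp (TG μ s t (m + k) L η (a, x')) := by positivity
  calc Real.exp (TG μ s t (m + k) L η (a, x)) ≤ 2 * (Real.exp (2 * B) * Real.exp (TG μ s t (m + k) L η (a, x'))) := by linarith
    _ ≤ Real.exp 1 * (Real.exp (2 * B) * Real.exp (TG μ s t (m + k) L η (a, x'))) := mul_le_mul_of_nonneg_right h9 h10.le
    _ = _ := by
      rw [← Real.exp_add, ← Real.exp_add]
      congr 1
      ring

variable [IsProbabilityMeasure μ] {c C : ℝ} {n₀ : ℕ}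

/-! ### The choice of the scale -/

theorem sc84 (h : In μ s c C n₀) (hU : UB84 μ s) {e : ℝ} (he : 0 < e) : ∃ n₁ : ℕ, ∀ N T : ℕ, n₁ ≤ T → T ≤ N → ∀ D : ℝ, 0 ≤ D →
    D ≤ 8 * N → ∃ T' : ℕ, T ≤ T' ∧ T' ≤ N ^ 3 ∧ D ≤ wd μ s T' ∧ EE μ s T' ≤ EE μ s T + (N : ℝ) ^ e * Real.sqrt D ∧
      ∀ T₁ : ℕ, T ≤ T₁ → D ≤ wd μ s T₁ → T' ≤ T₁ := by
  obtain ⟨n₁, hw4⟩ := wd_half67 h hU (e := 1 / 18) (by norm_num)
  obtain ⟨n₂, hU2⟩ := hU (e / 6) (by positivity)
  obtain ⟨Bw, n₃, hBw2, hn3, hBw⟩ := wd_next h 2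
  obtain ⟨n₄, hn₄⟩ := eventually_atTop.1 ((ev84 8 (show (0 : ℝ) < 1 / 3 by norm_num)).and (ev84 Bw (show 0 < e by positivity)))
  refine ⟨max (max n₁ n₂) (max n₃ (max n₄ 1)), fun N T hT hTN D hD0 hD => ?_⟩
  have g1 : n₁ ≤ T := (le_max_left _ _).trans ((le_max_left _ _).trans hT)
  have g2 : n₂ ≤ T := (le_max_right _ _).trans ((le_max_left _ _).trans hT)
  have g3 : n₃ ≤ T := (le_max_left _ _).trans ((le_max_right _ _).trans hT)
  have g4 : n₄ ≤ T := (le_max_left _ _).trans ((le_max_right _ _).trans ((le_max_right _ _).trans hT))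
  have hT1 : 1 ≤ T := (le_max_right _ _).trans ((le_max_right _ _).trans ((le_max_right _ _).trans hT))
  obtain ⟨q1, q2⟩ := hn₄ N (g4.trans hTN)
  have hN1 : 1 ≤ N := hT1.trans hTN
  have hNR : (1 : ℝ) ≤ N := by exact_mod_cast hN1
  have hN0 : (0 : ℝ) < N := by linarith
  have hN3 : N ≤ N ^ 3 := Nat.le_self_pow (by norm_num) N
  have hbig : D ≤ wd μ s (N ^ 3) := by
    have h1 := hw4 (N ^ 3) ((g1.trans hTN).trans hN3)
    have e1 : (1 / 2 - 1 / 18 : ℝ) = 4 / 9 := by norm_num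
    rw [e1] at h1
    have e2 : (((N ^ 3 : ℕ) : ℝ)) ^ (4 / 9 : ℝ) = (N : ℝ) ^ (1 / 3 : ℝ) * N := by
      push_cast
      rw [← Real.rpow_natCast, ← Real.rpow_mul hN0.le]
      nth_rewrite 3 [← Real.rpow_one (N : ℝ)]
      rw [← Real.rpow_add hN0]
      congr 1
      norm_num
    rw [e2] at h1
    have h2 := mul_le_mul_of_nonneg_right q1 hN0.le
    linarith
  have hex : ∃ T' : ℕ, T ≤ T' ∧ D ≤ wd μ s T' := ⟨N ^ 3, hTN.trans hN3, hbig⟩
  classical
  obtain ⟨T', hTf⟩ : ∃ T' : ℕ, T' = Nat.find hex := ⟨_, rfl⟩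
  have hTs := Nat.find_spec hex
  rw [← hTf] at hTs
  have hmin : ∀ T₁ : ℕ, T ≤ T₁ → D ≤ wd μ s T₁ → T' ≤ T₁ := fun T₁ h1 h2 => by
    rw [hTf]
    exact Nat.find_min' hex ⟨h1, h2⟩
  refine ⟨T', hTs.1, hmin _ (hTN.trans hN3) hbig, hTs.2, ?_, hmin⟩
  have hTN3 : T' ≤ N ^ 3 := hmin _ (hTN.trans hN3) hbig
  rcases eq_or_lt_of_le hTs.1 with hc | hc
  · rw [← hc]
    have : 0 ≤ (N : ℝ) ^ e * Real.sqrt D := by positivity
    linarith
  · obtain ⟨m, rfl⟩ : ∃ m : ℕ, T' = m + 1 := ⟨T' - 1, by omega⟩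
    have hTm : T ≤ m := by omega
    have hwm : wd μ s m < D := by
      by_contra hcon
      rw [not_lt] at hcon
      have := hmin m hTm hcon
      omega
    have hm1 : 1 ≤ m := hT1.trans hTm
    have h1 := hBw m (m + 1) (g3.trans hTm) (by omega) (by omega)
    have h2 := hU2 (m + 1) (by omega)
    have hE := EE_pos (μ := μ) (s := s) (m + 1)
    have h3 : ((m + 1 : ℕ) : ℝ) ^ (e / 6) ≤ (N : ℝ) ^ (e / 2) := by
      have h4 : ((m + 1 : ℕ) : ℝ) ≤ (N : ℝ) ^ (3 : ℝ) := by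
        have h5 : ((m + 1 : ℕ) : ℝ) ≤ ((N ^ 3 : ℕ) : ℝ) := by exact_mod_cast hTN3
        refine h5.trans (le_of_eq ?_)
        push_cast
        rw [← Real.rpow_natCast]
        norm_num
      calc ((m + 1 : ℕ) : ℝ) ^ (e / 6) ≤ ((N : ℝ) ^ (3 : ℝ)) ^ (e / 6) := Real.rpow_le_rpow (by positivity) h4 (by positivity)
        _ = (N : ℝ) ^ (e / 2) := by
          rw [← Real.rpow_mul hN0.le]
          congr 1
          ring
    have hBw0 : 0 < Bw := by linarith
    have h4 : EE μ s (m + 1) ^ 2 ≤ (N : ℝ) ^ (e / 2) * (Bw * D) := by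
      refine h2.trans (mul_le_mul h3 ?_ (h.wd_nonneg _) (by positivity))
      exact h1.trans (mul_le_mul_of_nonneg_left hwm.le hBw0.le)
    have h5 : (N : ℝ) ^ (e / 2) * (Bw * D) ≤ ((N : ℝ) ^ e * Real.sqrt D) ^ 2 := by
      rw [mul_pow, Real.sq_sqrt hD0]
      have e1 : ((N : ℝ) ^ e) ^ 2 = (N : ℝ) ^ e * (N : ℝ) ^ e := sq _
      have h6 : (N : ℝ) ^ (e / 2) ≤ (N : ℝ) ^ e := Real.rpow_le_rpow_of_exponent_le hNR (by linarith)
      have h7 : (N : ℝ) ^ (e / 2) * Bw ≤ (N : ℝ) ^ e * (N : ℝ) ^ e := mul_le_mul h6 q2 hBw0.le (by positivity)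
      have h8 := mul_le_mul_of_nonneg_right h7 hD0
      rw [e1]
      linarith
    have h6 : 0 ≤ (N : ℝ) ^ e * Real.sqrt D := by positivity
    have h7 : EE μ s (m + 1) ≤ (N : ℝ) ^ e * Real.sqrt D := by
      by_contra hcon
      rw [not_le] at hcon
      have := pow_lt_pow_left₀ hcon h6 (two_ne_zero)
      linarith
    have hET := EE_pos (μ := μ) (s := s) T
    linarith

/-! ### The events -/

/-- The composite masses: window and comparison with the future at the last row of the force. -/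
def EC84 (μ : Measure ℝ) (s t ε c₁ : ℝ) (N T : ℕ) : Set Env :=
  {η | ∀ a K L m : ℕ, a + K + L ≤ N → T ≤ K → 1 ≤ m → m ≤ K → ∀ x : ℤ, |x| ≤ 4 * N →
    QV μ s t η ((a : ℤ), x) m (K - m) L (bd μ s K ε m) ≤ Real.exp (-(K : ℝ) ^ c₁) * Real.exp (TG μ s t K L η ((a : ℤ), x)) ∧
    TG μ s t K L η ((a : ℤ), x) ≤ V μ s η (((a + K : ℕ) : ℤ), x + md μ s K) L + (K : ℝ) ^ ε * EE μ s K}

/-- The futures without force. -/
def EV84 (μ : Measure ℝ) (s e : ℝ) (N T : ℕ) : Set Env :=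
  {η | ∀ b L T' : ℕ, b ≤ N → L ≤ N → T ≤ T' → T' ≤ N ^ 3 → ∀ z z' : ℤ, |z'| ≤ 5 * N → |(z : ℝ) - z'| ≤ wd μ s T' →
    |V μ s η ((b : ℤ), z) L - V μ s η ((b : ℤ), z') L| ≤ (T' : ℝ) ^ e * EE μ s T'}

theorem four_pow {N : ℕ} (hN : 4 ≤ N) {x : ℝ} (hx : 0 ≤ x) : ((4 * N : ℕ) : ℝ) ^ x ≤ (N : ℝ) ^ (2 * x) := by
  have hNR : (4 : ℝ) ≤ N := by exact_mod_cast hN
  have h1 : ((4 * N : ℕ) : ℝ) ≤ (N : ℝ) ^ (2 : ℝ) := by
    push_cast
    rw [show ((2 : ℝ)) = ((2 : ℕ) : ℝ) by norm_num, Real.rpow_natCast, sq]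
    exact mul_le_mul_of_nonneg_right hNR (by linarith)
  calc ((4 * N : ℕ) : ℝ) ^ x ≤ ((N : ℝ) ^ (2 : ℝ)) ^ x := Real.rpow_le_rpow (by positivity) h1 hx
    _ = _ := by rw [← Real.rpow_mul (by linarith)]

/-- The force against the width. -/
theorem tw84 {t κ e : ℝ} {N m : ℕ} (hm : 1 ≤ m) (hmN : m ≤ N) (he : 0 ≤ e) (hLB : wd μ s m ≤ (m : ℝ) ^ e * EE μ s m ^ 2)
    (ht : |t| * EE μ s N ≤ (N : ℝ) ^ κ) : |t| * wd μ s m ≤ (N : ℝ) ^ (κ + e) * EE μ s m := by
  have hm0 : (1 : ℝ) ≤ m := by exact_mod_cast hm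
  have hmR : (m : ℝ) ≤ N := by exact_mod_cast hmN
  have hN0 : (0 : ℝ) < N := by linarith
  have hE := EE_pos (μ := μ) (s := s) m
  have hEN : EE μ s m ≤ EE μ s N := EE_mono hmN
  have h1 : |t| * EE μ s m ≤ (N : ℝ) ^ κ := (mul_le_mul_of_nonneg_left hEN (abs_nonneg t)).trans ht
  have h2 : (m : ℝ) ^ e ≤ (N : ℝ) ^ e := Real.rpow_le_rpow (by linarith) hmR he
  calc |t| * wd μ s m ≤ |t| * ((m : ℝ) ^ e * EE μ s m ^ 2) := mul_le_mul_of_nonneg_left hLB (abs_nonneg t)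
    _ = (|t| * EE μ s m) * (m : ℝ) ^ e * EE μ s m := by ring
    _ ≤ (N : ℝ) ^ κ * (N : ℝ) ^ e * EE μ s m :=
        mul_le_mul_of_nonneg_right (mul_le_mul h1 h2 (by positivity) (by positivity)) hE.le
    _ = _ := by rw [← Real.rpow_add hN0]

set_option maxHeartbeats 1000000 in
/-- **THE CRUDE REGULARITY**, deterministic. -/
theorem cr84 (h : In μ s c C n₀) (hL : LB84 μ s) (hU : UB84 μ s) {ε δ ε₁ κ c₁ : ℝ} (hε : 0 < ε) (hδ0 : 0 < δ) (hδ : δ ≤ ε / 8)
    (hε₁0 : 0 < ε₁) (hε₁ : ε₁ ≤ δ / 2) (hκ : κ ≤ ε / 8) (hc₁ : 0 < c₁) : ∃ n₁ : ℕ, ∀ N T : ℕ, n₁ ≤ T → T ≤ N →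
    (∀ m : ℕ, T ≤ m → ((4 * N : ℕ) : ℝ) ^ δ * wd μ s m ≤ sl μ s * m ∧ ((4 * N : ℕ) : ℝ) ^ δ * wd μ s m ≤ (1 - sl μ s) * m) →
    ∀ {t : ℝ}, |t| * EE μ s N ≤ (N : ℝ) ^ κ → ∀ {η : Env}, η ∈ EC84 μ s t ε₁ c₁ N T → η ∈ EV84 μ s (ε / 12) N T →
    PBox μ s (4 * N) δ (ε / 16) η → ∀ a K L : ℕ, a + K + L ≤ N → (T ≤ K ∨ |t| * K ≤ 1) → ∀ x x' : ℤ, |x| ≤ 4 * N → |x'| ≤ 4 * N →
    TG μ s t K L η ((a : ℤ), x) ≤ TG μ s t K L η ((a : ℤ), x') + (N : ℝ) ^ ε * (EE μ s T + Real.sqrt |(x : ℝ) - x'|) := by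
  obtain ⟨n₁, hsc⟩ := sc84 h hU (e := ε / 4) (by positivity)
  obtain ⟨n₂, hLB⟩ := hL (ε / 8) (by positivity)
  obtain ⟨n₃, hUB⟩ := hU (ε / 4) (by positivity)
  obtain ⟨n₄, hn₄⟩ := eventually_atTop.1 ((ev84 8 (show (0 : ℝ) < ε / 8 by positivity)).and ((ev84 1 hc₁).and
    (ev84 2 (show (0 : ℝ) < δ / 2 by positivity))))
  refine ⟨max (max n₁ n₂) (max n₃ (max n₄ 4)), fun N T hT hTN hcone t ht η hEC hEV hPB a K L haKL hcase x x' hx hx' => ?_⟩
  have g1 : n₁ ≤ T := (le_max_left _ _).trans ((le_max_left _ _).trans hT)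
  have g2 : n₂ ≤ T := (le_max_right _ _).trans ((le_max_left _ _).trans hT)
  have g3 : n₃ ≤ T := (le_max_left _ _).trans ((le_max_right _ _).trans hT)
  have g4 : n₄ ≤ T := (le_max_left _ _).trans ((le_max_right _ _).trans ((le_max_right _ _).trans hT))
  have hT4 : 4 ≤ T := (le_max_right _ _).trans ((le_max_right _ _).trans ((le_max_right _ _).trans hT))
  have hN4 : 4 ≤ N := hT4.trans hTN
  obtain ⟨q1, -, q3⟩ := hn₄ N (g4.trans hTN)
  have hNR : (1 : ℝ) ≤ N := by exact_mod_cast (show 1 ≤ N by omega)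
  have hN0 : (0 : ℝ) < N := by linarith
  have hpw : ∀ {u v : ℝ}, u ≤ v → (N : ℝ) ^ u ≤ (N : ℝ) ^ v := fun huv => Real.rpow_le_rpow_of_exponent_le hNR huv
  have hpos : ∀ u : ℝ, 0 < (N : ℝ) ^ u := fun u => Real.rpow_pos_of_pos hN0 u
  have hadd : ∀ u v : ℝ, (N : ℝ) ^ u * (N : ℝ) ^ v = (N : ℝ) ^ (u + v) := fun u v => (Real.rpow_add hN0 u v).symm
  obtain ⟨D, hD⟩ : ∃ D : ℝ, D = |(x : ℝ) - x'| := ⟨_, rfl⟩
  have hD0 : 0 ≤ D := by rw [hD]; exact abs_nonneg _
  have hxR : |(x : ℝ)| ≤ 4 * N := by exact_mod_cast hx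
  have hxR' : |(x' : ℝ)| ≤ 4 * N := by exact_mod_cast hx'
  have hD8 : D ≤ 8 * N := by
    rw [hD]
    refine (abs_sub _ _).trans ?_
    linarith
  obtain ⟨T', t1, t2, t3, t4, t5⟩ := hsc N T g1 hTN D hD0 hD8
  have hET1 := one_le_EE (μ := μ) (s := s) T
  obtain ⟨R, hR⟩ : ∃ R : ℝ, R = EE μ s T + Real.sqrt D := ⟨_, rfl⟩
  have hsD := Real.sqrt_nonneg D
  have hR1 : 1 ≤ R := by rw [hR]; linarith
  have hRE : EE μ s T ≤ R := by rw [hR]; linarith
  have hRD : Real.sqrt D ≤ R := by rw [hR]; linarith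
  have hET' : EE μ s T' ≤ (N : ℝ) ^ (ε / 4) * R := by
    have h1 : 1 ≤ (N : ℝ) ^ (ε / 4) := Real.one_le_rpow hNR (by positivity)
    have h2 : EE μ s T * 1 ≤ EE μ s T * (N : ℝ) ^ (ε / 4) := mul_le_mul_of_nonneg_left h1 (by linarith)
    rw [hR]
    linarith
  -- the futures without force
  have hV : ∀ b L' : ℕ, b ≤ N → L' ≤ N → ∀ z z' : ℤ, |z'| ≤ 5 * N → |(z : ℝ) - z'| = D →
      V μ s η ((b : ℤ), z) L' ≤ V μ s η ((b : ℤ), z') L' + (N : ℝ) ^ (ε / 2) * R := by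
    intro b L' hb hL' z z' hz' hzz
    have h1 := (abs_le.1 (hEV b L' T' hb hL' t1 t2 z z' hz' (by rw [hzz]; exact t3))).2
    have h2 : (T' : ℝ) ^ (ε / 12) ≤ (N : ℝ) ^ (ε / 4) := by
      have h4 : (T' : ℝ) ≤ (N : ℝ) ^ (3 : ℝ) := by
        have h5 : (T' : ℝ) ≤ ((N ^ 3 : ℕ) : ℝ) := by exact_mod_cast t2
        refine h5.trans (le_of_eq ?_)
        push_cast
        rw [← Real.rpow_natCast]
        norm_num
      calc (T' : ℝ) ^ (ε / 12) ≤ ((N : ℝ) ^ (3 : ℝ)) ^ (ε / 12) := Real.rpow_le_rpow (by positivity) h4 (by positivity)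
        _ = (N : ℝ) ^ (ε / 4) := by
          rw [← Real.rpow_mul hN0.le]
          congr 1
          ring
    have h3 : (T' : ℝ) ^ (ε / 12) * EE μ s T' ≤ (N : ℝ) ^ (ε / 4) * ((N : ℝ) ^ (ε / 4) * R) :=
      mul_le_mul h2 hET' (EE_pos _).le (hpos _).le
    rw [← mul_assoc, hadd, show ε / 4 + ε / 4 = ε / 2 by ring] at h3
    linarith
  -- the final numbers
  have hfin : ∀ {Y : ℝ}, Y ≤ 8 * ((N : ℝ) ^ (3 * ε / 4) * R) → Y ≤ (N : ℝ) ^ ε * R := by
    intro Y hY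
    refine hY.trans ?_
    have h1 := mul_le_mul_of_nonneg_right q1 (show 0 ≤ (N : ℝ) ^ (3 * ε / 4) * R by have := hpos (3 * ε / 4); positivity)
    rw [← mul_assoc ((N : ℝ) ^ (ε / 8)), hadd] at h1
    refine h1.trans (mul_le_mul_of_nonneg_right (hpw ?_) (by linarith))
    linarith
  have hN34 : ∀ {u : ℝ}, u ≤ 3 * ε / 4 → (N : ℝ) ^ u * R ≤ (N : ℝ) ^ (3 * ε / 4) * R := fun hu =>
    mul_le_mul_of_nonneg_right (hpw hu) (by linarith)
  have hbase : R ≤ (N : ℝ) ^ (3 * ε / 4) * R := le_mul_of_one_le_left (by linarith) (Real.one_le_rpow hNR (by positivity))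
  rw [← hD, ← hR]
  by_cases hKT : T ≤ K
  · have hK1 : 1 ≤ K := by omega
    have hK0 : (1 : ℝ) ≤ K := by exact_mod_cast hK1
    have hKN : K ≤ N := by omega
    have hKNR : (K : ℝ) ≤ N := by exact_mod_cast hKN
    have hKp : (K : ℝ) ^ ε₁ ≤ (N : ℝ) ^ ε₁ := Real.rpow_le_rpow (by linarith) hKNR hε₁0.le
    have hKp0 : 0 < (K : ℝ) ^ ε₁ := Real.rpow_pos_of_pos (by linarith) _
    rcases le_or_gt D (wd μ s K) with hc | hc
    · -- the exchange at the scale `T'`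
      have hT'K : T' ≤ K := t5 K hKT hc
      have hT'1 : 1 ≤ T' := by omega
      obtain ⟨k, rfl⟩ : ∃ k : ℕ, K = T' + k := ⟨K - T', by omega⟩
      obtain ⟨e1, -⟩ := hEC a (T' + k) L T' haKL hKT hT'1 hT'K x hx
      rw [Nat.add_sub_cancel_left] at e1
      have hwm := h.wd_pos hT'1
      have hEm := EE_pos (μ := μ) (s := s) T'
      have hwd' : wd' μ s T' = wd μ s T' := wd'_eq' h hT'1
      have hEE' : EE' μ s T' = EE μ s T' := EE'_eq T'
      have hcone' := hcone T' t1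
      have h4δ : (2 : ℝ) * (N : ℝ) ^ ε₁ ≤ ((4 * N : ℕ) : ℝ) ^ δ := by
        have h1 : (N : ℝ) ^ δ ≤ ((4 * N : ℕ) : ℝ) ^ δ := Real.rpow_le_rpow hN0.le (by push_cast; linarith) hδ0.le
        refine le_trans ?_ h1
        have h2 : (2 : ℝ) * (N : ℝ) ^ ε₁ ≤ (N : ℝ) ^ (δ / 2) * (N : ℝ) ^ (δ / 2) := mul_le_mul q3 (hpw hε₁) (hpos _).le (hpos _).le
        rw [hadd, show δ / 2 + δ / 2 = δ by ring] at h2
        exact h2
      have hN1 : 1 ≤ (N : ℝ) ^ ε₁ := Real.one_le_rpow hNR hε₁0.le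
      obtain ⟨G, hG⟩ : ∃ G : ℝ, G = ((4 * N : ℕ) : ℝ) ^ δ * wd μ s T' := ⟨_, rfl⟩
      have hwin : (N : ℝ) ^ ε₁ * wd μ s T' + wd μ s T' ≤ G := by
        rw [hG]
        have h1 : ((N : ℝ) ^ ε₁ + 1) * wd μ s T' ≤ ((4 * N : ℕ) : ℝ) ^ δ * wd μ s T' :=
          mul_le_mul_of_nonneg_right (by linarith) hwm.le
        linarith
      rw [← hG] at hcone'
      obtain ⟨B, hB⟩ : ∃ B : ℝ, B = ((4 * N : ℕ) : ℝ) ^ (ε / 16) * EE μ s T' + |t| * G := ⟨_, rfl⟩
      have hax : ∀ {y : ℤ}, |y| ≤ 4 * (N : ℤ) → |y| ≤ 2 * ((4 * N : ℕ) : ℤ) := fun hy => by push_cast; omega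
      have hmain := swapG84 (μ := μ) (s := s) (η := η) (t := t) (B := B) (a := (a : ℤ)) (x := x) (x' := x') (m := T') (k := k) (L := L)
        (A := (Icc (0 : ℤ) T').filter fun y => |(y : ℝ) - sl μ s * T'| ≤ (N : ℝ) ^ ε₁ * wd μ s T')
        (A' := bd μ s (T' + k) ε₁ T') (by
          intro y hy
          rw [mem_union, mem_filter, mem_bd]
          rw [mem_Icc] at hy
          by_cases h1 : |(y : ℝ) - sl μ s * T'| ≤ (N : ℝ) ^ ε₁ * wd μ s T'
          · exact Or.inl ⟨mem_Icc.2 hy, h1⟩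
          · refine Or.inr ⟨hy, fun h2 => h1 (h2.trans ?_)⟩
            rw [hwd']
            exact mul_le_mul_of_nonneg_right hKp hwm.le) (by
          refine e1.trans (mul_le_mul_of_nonneg_right ?_ (Real.exp_pos _).le)
          have h1 : 1 ≤ ((T' + k : ℕ) : ℝ) ^ c₁ := (hn₄ (T' + k) (g4.trans hKT)).2.1
          have h2 : Real.exp (-((T' + k : ℕ) : ℝ) ^ c₁) ≤ Real.exp (-1) := Real.exp_le_exp.2 (by linarith)
          have h3 : Real.exp (-1 : ℝ) ≤ 1 / 2 := by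
            have h4 := Real.add_one_le_exp (1 : ℝ)
            rw [Real.exp_neg, one_div]
            exact inv_anti₀ (by norm_num) (by linarith)
          exact h2.trans h3) (by
          intro y hy
          rw [mem_filter, mem_Icc] at hy
          have h1 := (hPB a T' (by omega) x (hax hx) y hy.1.1 hy.1.2).1
          rw [hEE'] at h1
          have h2 : t * ((y : ℝ) - sl μ s * T') ≤ |t| * G := by
            have h3 := le_abs_self (t * ((y : ℝ) - sl μ s * T'))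
            rw [abs_mul] at h3
            have h4 := mul_le_mul_of_nonneg_left (hy.2.trans (show (N : ℝ) ^ ε₁ * wd μ s T' ≤ G by linarith)) (abs_nonneg t)
            linarith
          rw [hB, Real.exp_add]
          exact mul_le_mul h1 (Real.exp_le_exp.2 h2) (Real.exp_pos _).le (Real.exp_pos _).le) (by
          intro y hy
          rw [mem_filter, mem_Icc] at hy
          have h5 : |((y + (x - x') : ℤ) : ℝ) - sl μ s * T'| ≤ G := by
            have h6 : ((y + (x - x') : ℤ) : ℝ) - sl μ s * T' = ((y : ℝ) - sl μ s * T') + ((x : ℝ) - x') := by push_cast; ring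
            rw [h6]
            refine (abs_add_le _ _).trans ?_
            rw [← hD]
            linarith [hy.2]
          have h7 := abs_le.1 h5
          have z0 : 0 ≤ y + (x - x') := by
            have : (0 : ℝ) ≤ ((y + (x - x') : ℤ) : ℝ) := by linarith [hcone'.1, h7.1]
            exact_mod_cast this
          have z1 : y + (x - x') ≤ T' := by
            have : ((y + (x - x') : ℤ) : ℝ) ≤ ((T' : ℤ) : ℝ) := by
              push_cast
              push_cast at h7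
              linarith [hcone'.2, h7.2]
            exact_mod_cast this
          refine ⟨z0, z1, ?_⟩
          have h1 := (hPB a T' (by omega) x' (hax hx') (y + (x - x')) z0 z1).2.2 (by
            rw [hwd', ← hG]
            exact h5)
          rw [hEE'] at h1
          have h2 : -(|t| * G) ≤ t * (((y + (x - x') : ℤ) : ℝ) - sl μ s * T') := by
            have h3 := neg_abs_le (t * (((y + (x - x') : ℤ) : ℝ) - sl μ s * T'))
            rw [abs_mul] at h3
            have h4 := mul_le_mul_of_nonneg_left h5 (abs_nonneg t)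
            linarith
          rw [hB, neg_add, Real.exp_add]
          exact mul_le_mul h1 (Real.exp_le_exp.2 h2) (Real.exp_pos _).le ((Real.exp_pos _).le.trans h1))
      refine (hmain.trans (le_of_eq (add_assoc _ _ _))).trans ((add_le_add_iff_left _).2 (hfin ?_))
      -- `2 B + 1`
      have b1 : ((4 * N : ℕ) : ℝ) ^ (ε / 16) ≤ (N : ℝ) ^ (ε / 2) := (four_pow hN4 (by positivity)).trans (hpw (by linarith))
      have b2 : |t| * G ≤ (N : ℝ) ^ (ε / 2) * EE μ s T' := by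
        have b3 := tw84 (μ := μ) (s := s) (t := t) (κ := κ) (e := ε / 8) hT'1 (hT'K.trans hKN) (by positivity) (hLB T' (g2.trans t1)) ht
        have b4 : ((4 * N : ℕ) : ℝ) ^ δ ≤ (N : ℝ) ^ (ε / 4) := (four_pow hN4 hδ0.le).trans (hpw (by linarith))
        have b5 := mul_le_mul b4 b3 (mul_nonneg (abs_nonneg t) hwm.le) (hpos _).le
        rw [← mul_assoc ((N : ℝ) ^ (ε / 4)), hadd] at b5
        have b6 := mul_le_mul_of_nonneg_right (hpw (show ε / 4 + (κ + ε / 8) ≤ ε / 2 by linarith)) hEm.le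
        rw [hG]
        linarith
      have b7 : (N : ℝ) ^ (ε / 2) * EE μ s T' ≤ (N : ℝ) ^ (3 * ε / 4) * R := by
        have b8 := mul_le_mul_of_nonneg_left hET' (hpos (ε / 2)).le
        rw [← mul_assoc, hadd, show ε / 2 + ε / 4 = 3 * ε / 4 by ring] at b8
        exact b8
      have b9 := mul_le_mul_of_nonneg_right b1 hEm.le
      rw [hB]
      linarith
    · -- beyond the width of the rows of the force
      obtain ⟨-, e2⟩ := hEC a K L K haKL hKT hK1 le_rfl x hx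
      have hmd0 := h.md_nonneg K
      have hmd1 := h.md_le_nat K
      have hmd := md_abs (μ := μ) (s := s) K
      have hv := hV (a + K) L (by omega) (by omega) (x + md μ s K) (x' + md μ s K) (by
        have h1 := abs_le.1 hx'
        rw [abs_le]
        constructor
        · omega
        · omega) (by
        rw [hD]
        push_cast
        congr 1
        ring)
      have h3 := TG_ge (μ := μ) (s := s) (h := t) η ((a : ℤ), x') K L hmd0 hmd1
      have e3 : ((((a : ℤ), x').1 + (K : ℤ), ((a : ℤ), x').2 + md μ s K) : Pt) = (((a + K : ℕ) : ℤ), x' + md μ s K) := by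
        ext
        · show (a : ℤ) + K = ((a + K : ℕ) : ℤ)
          push_cast
          rfl
        · rfl
      rw [e3] at h3
      have hEK1 := one_le_EE (μ := μ) (s := s) K
      have hwK := wd_two h hK1
      -- the cost of the centre
      have hX : X μ s η ((a : ℤ), x') K (md μ s K) ≤ ((4 * N : ℕ) : ℝ) ^ (ε / 16) * EE μ s K := by
        have h4 := (hPB a K (by omega) x' (by push_cast; omega) (md μ s K) hmd0 hmd1).2.2 (by
          rw [wd'_eq' h hK1]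
          have h5 : 1 ≤ ((4 * N : ℕ) : ℝ) ^ δ := Real.one_le_rpow (by push_cast; linarith) hδ0.le
          have h6 : 1 * wd μ s K ≤ ((4 * N : ℕ) : ℝ) ^ δ * wd μ s K := mul_le_mul_of_nonneg_right h5 (by linarith)
          linarith)
        rw [EE'_eq] at h4
        have hW := W_pos (μ := μ) (s := s) η ((a : ℤ), x') hmd0 hmd1
        have h5 := Real.log_le_log (Real.exp_pos _) h4
        rw [Real.log_exp] at h5
        unfold X
        linarith
      have htm : -(N : ℝ) ^ (ε / 8) ≤ t * ((md μ s K : ℝ) - sl μ s * K) := by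
        have h4 := neg_abs_le (t * ((md μ s K : ℝ) - sl μ s * K))
        rw [abs_mul] at h4
        have h5 := mul_le_mul_of_nonneg_left hmd (abs_nonneg t)
        have h6 := one_le_EE (μ := μ) (s := s) N
        have h7 : |t| * 1 ≤ |t| * EE μ s N := mul_le_mul_of_nonneg_left h6 (abs_nonneg t)
        have h8 := hpw hκ
        linarith
      -- the units
      have hEK : EE μ s K ≤ (N : ℝ) ^ (ε / 4) * R := by
        have h4 := hUB K (g3.trans hKT)
        have h5 : (K : ℝ) ^ (ε / 4) ≤ (N : ℝ) ^ (ε / 4) := Real.rpow_le_rpow (by linarith) hKNR (by positivity)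
        have h6 : EE μ s K ^ 2 ≤ (N : ℝ) ^ (ε / 4) * D := h4.trans (mul_le_mul h5 hc.le (by linarith) (hpos _).le)
        have h7 : (N : ℝ) ^ (ε / 4) * D ≤ ((N : ℝ) ^ (ε / 4) * Real.sqrt D) ^ 2 := by
          rw [mul_pow, Real.sq_sqrt hD0]
          have h8 : 1 ≤ (N : ℝ) ^ (ε / 4) := Real.one_le_rpow hNR (by positivity)
          have h9 : (N : ℝ) ^ (ε / 4) ≤ ((N : ℝ) ^ (ε / 4)) ^ 2 := by nlinarith
          exact mul_le_mul_of_nonneg_right h9 hD0
        have h8 : 0 ≤ (N : ℝ) ^ (ε / 4) * Real.sqrt D := by have := hpos (ε / 4); positivity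
        have h9 : EE μ s K ≤ (N : ℝ) ^ (ε / 4) * Real.sqrt D := by
          by_contra hcon
          rw [not_le] at hcon
          have := pow_lt_pow_left₀ hcon h8 (two_ne_zero)
          linarith
        exact h9.trans (mul_le_mul_of_nonneg_left hRD (hpos _).le)
      have b1 : (K : ℝ) ^ ε₁ * EE μ s K ≤ (N : ℝ) ^ (3 * ε / 4) * R := by
        have b2 : (K : ℝ) ^ ε₁ ≤ (N : ℝ) ^ (ε / 2) := hKp.trans (hpw (by linarith))
        have b3 := mul_le_mul b2 hEK (by linarith) (hpos _).le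
        rw [← mul_assoc, hadd, show ε / 2 + ε / 4 = 3 * ε / 4 by ring] at b3
        exact b3
      have b2 : ((4 * N : ℕ) : ℝ) ^ (ε / 16) * EE μ s K ≤ (N : ℝ) ^ (3 * ε / 4) * R := by
        have b3 : ((4 * N : ℕ) : ℝ) ^ (ε / 16) ≤ (N : ℝ) ^ (ε / 2) := (four_pow hN4 (by positivity)).trans (hpw (by linarith))
        have b4 := mul_le_mul b3 hEK (by linarith) (hpos _).le
        rw [← mul_assoc, hadd, show ε / 2 + ε / 4 = 3 * ε / 4 by ring] at b4
        exact b4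
      have b3 : (N : ℝ) ^ (ε / 8) ≤ (N : ℝ) ^ (3 * ε / 4) * R := by
        have b4 := hN34 (u := ε / 8) (by linarith)
        have b5 : (N : ℝ) ^ (ε / 8) * 1 ≤ (N : ℝ) ^ (ε / 8) * R := mul_le_mul_of_nonneg_left hR1 (hpos _).le
        linarith
      have b4 := hN34 (u := ε / 2) (by linarith)
      have hgoal : TG μ s t K L η ((a : ℤ), x) ≤ TG μ s t K L η ((a : ℤ), x') +
          ((K : ℝ) ^ ε₁ * EE μ s K + (N : ℝ) ^ (ε / 2) * R + ((4 * N : ℕ) : ℝ) ^ (ε / 16) * EE μ s K + (N : ℝ) ^ (ε / 8)) := by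
        linarith
      refine hgoal.trans ((add_le_add_iff_left _).2 (hfin ?_))
      linarith
  · -- few rows of the force
    have htK : |t| * K ≤ 1 := hcase.resolve_left hKT
    have s0 := h.sl_pos
    have s1 := h.sl_lt
    have n1 := (abs_le.1 (TG_near (μ := μ) (s := s) (h := t) s0.le s1.le K L η ((a : ℤ), x))).2
    have n2 := (abs_le.1 (TG_near (μ := μ) (s := s) (h := t) s0.le s1.le K L η ((a : ℤ), x'))).1
    have hv := hV a (K + L) (by omega) (by omega) x x' (by omega) hD.symm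
    have b4 := hN34 (u := ε / 2) (by linarith)
    have hgoal : TG μ s t K L η ((a : ℤ), x) ≤ TG μ s t K L η ((a : ℤ), x') + ((N : ℝ) ^ (ε / 2) * R + 2) := by linarith
    refine hgoal.trans ((add_le_add_iff_left _).2 (hfin ?_))
    linarith

end

end Pool.Agent.W_7d29a1_C1.Cr84
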