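import Pool.Agent.W_7d29a1_C1.CrE84

/-!
MP_7d29a1_pr, [C1] THE CRUDE TOP, part 3: the crude arms and the crude kernels, deterministic. (helper84)
-/

set_option autoImplicit false

namespace Pool.Agent.W_7d29a1_C1.Cr84

open MeasureTheory ProbabilityTheory Filter Topology Finset
open Pool.Agent.W_7d29a1_F Pool.Agent.W_7d29a1_X Pool.Agent.W_7d29a1_h4g Pool.Agent.W_7d29a1_H
open Pool.Agent.W_7d29a1_HS (In wd md md_abs wd_ge_one wd_le_two)
open Pool.Agent.W_7d29a1_HZ (PBox wd' EE')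
open Pool.Agent.W_7d29a1_C1.U16 Pool.Agent.W_7d29a1_C1.FarW89 Pool.Agent.W_7d29a1_C1.Win84

noncomputable section

variable {μ : Measure ℝ} {s : ℝ} [IsProbabilityMeasure μ] {c C : ℝ} {n₀ : ℕ}

/-! ### The arms -/

omit [IsProbabilityMeasure μ] in
theorem pos_p {t : ℝ} {p : ℕ → ℝ} {M : ℕ} (hp : ∀ k, k < M → p k = Real.exp (s + t)) (hp' : ∀ k, M ≤ k → p k = Real.exp s) (k : ℕ) :
    0 < p k := by
  rcases lt_or_ge k M with h2 | h2
  · rw [hp k h2]
    exact Real.exp_pos _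
  · rw [hp' k h2]
    exact Real.exp_pos _

/-- The kernel against the one without force. -/
theorem nk_near (h : In μ s c C n₀) {t : ℝ} {η : Env} {p : ℕ → ℝ} {M : ℕ} (hp : ∀ k, k < M → p k = Real.exp (s + t))
    (hp' : ∀ k, M ≤ k → p k = Real.exp s) (a m : ℕ) (x z : ℤ) :
    nk μ s t η p M a m x z ≤ Real.exp (|t| * bl M a m) * W μ s η ((a : ℤ), x) m (z - x) ∧
      Real.exp (-(|t| * bl M a m)) * W μ s η ((a : ℤ), x) m (z - x) ≤ nk μ s t η p M a m x z := by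
  have h1 := K1_near (μ := μ) (s := s) (h := t) h.sl_pos.le h.sl_lt.le η ((a : ℤ), x) (bl M a m) (m - bl M a m) (z - x)
  rw [Nat.add_sub_cancel' (bl_le M a m)] at h1
  rw [nk_K1 hp hp']
  exact h1

/-- The masses without force and with few rows of the force. -/
theorem bh_near (h : In μ s c C n₀) {t : ℝ} {η : Env} {p : ℕ → ℝ} {M Nt : ℕ} (hp : ∀ k, k < M → p k = Real.exp (s + t))
    (hp' : ∀ k, M ≤ k → p k = Real.exp s) {a : ℕ} (ha : a + 1 ≤ Nt) (x : ℤ) :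
    bh16 μ s t η p M Nt a x ≤ cN μ s t p M Nt * (Real.exp (|t| * kN M Nt a) * Real.exp (V μ s η ((a : ℤ), x) (Nt - 1 - a))) ∧
      cN μ s t p M Nt * (Real.exp (-(|t| * kN M Nt a)) * Real.exp (V μ s η ((a : ℤ), x) (Nt - 1 - a))) ≤ bh16 μ s t η p M Nt a x := by
  have h1 := TG_near (μ := μ) (s := s) (h := t) h.sl_pos.le h.sl_lt.le (kN M Nt a) (lN M Nt a) η ((a : ℤ), x)
  rw [kN_add] at h1
  have h2 := abs_le.1 h1
  have hc := (cN_pos (μ := μ) (s := s) (h := t) (pos_p hp hp') M Nt).le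
  rw [bh_TG hp hp' ha, ← Real.exp_add, ← Real.exp_add]
  exact ⟨mul_le_mul_of_nonneg_left (Real.exp_le_exp.2 (by linarith)) hc, mul_le_mul_of_nonneg_left (Real.exp_le_exp.2 (by linarith)) hc⟩

/-- **THE CRUDE ARMS**, deterministic. -/
theorem ca84 (h : In μ s c C n₀) {ε ε₁ c₁ c' pw : ℝ} (hε₁ : ε₁ < ε) (hε₁0 : 0 < ε₁) (hc₁ : 0 < c₁) (hpw : 0 < pw) (hc' : pw * c' ≤ c₁ / 2)
    (hc'0 : 0 < c') :
    ∃ n₁ : ℕ, ∀ N T : ℕ, n₁ ≤ T → T ≤ N → (N : ℝ) ≤ (T : ℝ) ^ pw → ∀ {t : ℝ} {η : Env}, η ∈ EC84 μ s t ε₁ c₁ N T →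
    η ∈ EC84 μ s 0 ε₁ c₁ N T → ∀ {M Nt : ℕ} {p : ℕ → ℝ}, (∀ k, k < M → p k = Real.exp (s + t)) → (∀ k, M ≤ k → p k = Real.exp s) →
    Nt ≤ N → ∀ a m : ℕ, T ≤ m → a + m + 1 ≤ Nt → (m ≤ M - a ∨ |t| * ((M - a : ℕ) : ℝ) ≤ 1) → ∀ x : ℤ, |x| ≤ 4 * N →
    PM16 (fun a b x z => nk μ s t η p M a (b - a) x z) (bh16 μ s t η p M Nt) a (a + m) x
      (fun z => (N : ℝ) ^ ε * wd μ s m ≤ |(z : ℝ) - x - sl μ s * m|) ≤ Real.exp (-(N : ℝ) ^ c') * bh16 μ s t η p M Nt a x := by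
  obtain ⟨n₁, hn₁⟩ := eventually_atTop.1 (ev84 3 (show (0 : ℝ) < c₁ / 2 by positivity))
  refine ⟨max n₁ 2, fun N T hT hTN hNT t η hEC hEC0 M Nt p hp hp' hNt a m hTm ham hcase x hx => ?_⟩
  have g1 : n₁ ≤ T := (le_max_left _ _).trans hT
  have hT2 : 2 ≤ T := (le_max_right _ _).trans hT
  have hTR : (1 : ℝ) ≤ T := by exact_mod_cast (show 1 ≤ T by omega)
  have hN2 : (2 : ℝ) ≤ N := by exact_mod_cast (show 2 ≤ N by omega)
  have hm1 : 1 ≤ m := by omega
  have hwm := h.wd_pos hm1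
  have hposp := pos_p hp hp'
  have hb0 : 0 ≤ bh16 μ s t η p M Nt a x := ((sys_model16 (μ := μ) (s := s) (h := t) (η := η) (M := M) (N := Nt) hposp).b0 a x (by omega)).le
  -- the numbers
  have hnum : ∀ K : ℕ, T ≤ K → Real.exp 2 * Real.exp (-(K : ℝ) ^ c₁) ≤ Real.exp (-(N : ℝ) ^ c') := by
    intro K hK
    rw [← Real.exp_add]
    refine Real.exp_le_exp.2 ?_
    have hKR : (T : ℝ) ≤ K := by exact_mod_cast hK
    have h1 : (T : ℝ) ^ c₁ ≤ (K : ℝ) ^ c₁ := Real.rpow_le_rpow (by linarith) hKR hc₁.le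
    have h2 : (N : ℝ) ^ c' ≤ (T : ℝ) ^ (c₁ / 2) := by
      calc (N : ℝ) ^ c' ≤ ((T : ℝ) ^ pw) ^ c' := Real.rpow_le_rpow (by linarith) hNT hc'0.le
        _ = (T : ℝ) ^ (pw * c') := by rw [← Real.rpow_mul (by linarith)]
        _ ≤ _ := Real.rpow_le_rpow_of_exponent_le hTR hc'
    have h3 := hn₁ T g1
    have h4 : (T : ℝ) ^ c₁ = (T : ℝ) ^ (c₁ / 2) * (T : ℝ) ^ (c₁ / 2) := by
      rw [← Real.rpow_add (by linarith)]
      congr 1
      ring
    have h5 := mul_le_mul_of_nonneg_right h3 (show 0 ≤ (T : ℝ) ^ (c₁ / 2) by linarith)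
    linarith
  -- the window
  have hQ : ∀ K : ℕ, 1 ≤ K → K ≤ N → ∀ y : ℤ, 0 ≤ y → y ≤ m →
      (N : ℝ) ^ ε * wd μ s m ≤ |((x + y : ℤ) : ℝ) - x - sl μ s * m| → y ∈ bd μ s K ε₁ m := by
    intro K hK1 hKN y hy0 hy1 hy
    rw [mem_bd]
    refine ⟨⟨hy0, hy1⟩, fun hcon => ?_⟩
    rw [wd'_eq' h hm1] at hcon
    have e1 : ((x + y : ℤ) : ℝ) - x - sl μ s * m = (y : ℝ) - sl μ s * m := by push_cast; ring
    rw [e1] at hy
    have hKR : (K : ℝ) ≤ N := by exact_mod_cast hKN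
    have h1 : (K : ℝ) ^ ε₁ ≤ (N : ℝ) ^ ε₁ := Real.rpow_le_rpow (Nat.cast_nonneg K) hKR hε₁0.le
    have h2 : (N : ℝ) ^ ε₁ < (N : ℝ) ^ ε := Real.rpow_lt_rpow_of_exponent_lt (by linarith) hε₁
    have h3 : (K : ℝ) ^ ε₁ * wd μ s m < (N : ℝ) ^ ε * wd μ s m := mul_lt_mul_of_pos_right (by linarith) hwm
    linarith
  classical
  by_cases hmM : m ≤ M - a
  · -- rows of the force
    obtain ⟨K, hK⟩ : ∃ K : ℕ, K = kN M Nt a := ⟨_, rfl⟩
    have hmK : m ≤ K := by
      rw [hK]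
      unfold kN bl
      omega
    have hKN : a + K + lN M Nt a ≤ N := by
      have := kN_add M Nt a
      rw [hK]
      omega
    have ek : kN M Nt (a + m) = K - m := by
      rw [hK]
      unfold kN bl
      omega
    have el : lN M Nt (a + m) = lN M Nt a := by
      unfold lN kN bl
      omega
    obtain ⟨e1, -⟩ := hEC a K (lN M Nt a) m hKN (hTm.trans hmK) hm1 hmK x hx
    have h2 := pm_QV (μ := μ) (s := s) (h := t) (η := η) hp hp' hmM ham x
      (fun z => (N : ℝ) ^ ε * wd μ s m ≤ |(z : ℝ) - x - sl μ s * m|) (bd μ s K ε₁ m) (fun y hy0 hy1 hy =>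
        hQ K (hm1.trans hmK) (by omega) y hy0 hy1 hy)
    rw [ek, el] at h2
    have hc := (cN_pos (μ := μ) (s := s) (h := t) hposp M Nt).le
    have h3 := mul_le_mul_of_nonneg_left e1 hc
    have h4 : Real.exp (-(K : ℝ) ^ c₁) ≤ Real.exp (-(N : ℝ) ^ c') := by
      refine le_trans ?_ (hnum K (hTm.trans hmK))
      exact le_mul_of_one_le_left (Real.exp_pos _).le (Real.one_le_exp (by norm_num))
    rw [bh_TG hp hp' (by omega), ← hK]
    have h5 := mul_le_mul_of_nonneg_right h4 (show 0 ≤ cN μ s t p M Nt * Real.exp (TG μ s t K (lN M Nt a) η ((a : ℤ), x)) by positivity)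
    refine h2.trans (h3.trans ?_)
    linarith
  · -- few rows of the force
    have htM : |t| * ((M - a : ℕ) : ℝ) ≤ 1 := hcase.resolve_left hmM
    obtain ⟨L₂, hL₂⟩ : ∃ L₂ : ℕ, L₂ = Nt - 1 - (a + m) := ⟨_, rfl⟩
    obtain ⟨A, hA⟩ : ∃ A : Finset ℤ, A = bd μ s m ε₁ m := ⟨_, rfl⟩
    obtain ⟨e1, -⟩ := hEC0 a m L₂ m (by omega) hTm hm1 le_rfl x hx
    rw [Nat.sub_self, ← hA] at e1
    have hc := cN_pos (μ := μ) (s := s) (h := t) hposp M Nt
    have hbl : (bl M a m : ℝ) + kN M Nt (a + m) ≤ ((M - a : ℕ) : ℝ) := by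
      have : bl M a m + kN M Nt (a + m) ≤ M - a := by
        unfold kN bl
        omega
      exact_mod_cast this
    have hPM : PM16 (fun a b x z => nk μ s t η p M a (b - a) x z) (bh16 μ s t η p M Nt) a (a + m) x
        (fun z => (N : ℝ) ^ ε * wd μ s m ≤ |(z : ℝ) - x - sl μ s * m|) ≤
        cN μ s t p M Nt * (Real.exp 1 * QV μ s 0 η ((a : ℤ), x) m 0 L₂ A) := by
      unfold QV
      show ∑ z ∈ (Icc x (x + ((a + m - a : ℕ) : ℤ))).filter (fun z : ℤ => (N : ℝ) ^ ε * wd μ s m ≤ |(z : ℝ) - x - sl μ s * m|),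
        nk μ s t η p M a (a + m - a) x z * bh16 μ s t η p M Nt (a + m) z ≤ _
      rw [Nat.add_sub_cancel_left, mul_sum, mul_sum]
      obtain ⟨g, hg⟩ : ∃ g : ℤ → ℝ, g = fun y => cN μ s t p M Nt * (Real.exp 1 * ((W μ s η ((a : ℤ), x) m y *
        Real.exp (0 * ((y : ℝ) - sl μ s * m))) * Real.exp (TG μ s 0 0 L₂ η (((a : ℤ), x).1 + (m : ℤ), ((a : ℤ), x).2 + y)))) := ⟨_, rfl⟩
      have hg0 : ∀ y, 0 ≤ g y := fun y => by
        have h2 := W_nonneg (μ := μ) (s := s) η ((a : ℤ), x) m y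
        rw [hg]
        positivity
      have h1 : ∀ z ∈ (Icc x (x + (m : ℤ))).filter (fun z : ℤ => (N : ℝ) ^ ε * wd μ s m ≤ |(z : ℝ) - x - sl μ s * m|),
          nk μ s t η p M a m x z * bh16 μ s t η p M Nt (a + m) z ≤ g (z - x) := by
        intro z _
        have n1 := (nk_near (η := η) h hp hp' a m x z).1
        have n2 := (bh_near (η := η) h hp hp' ham z).1
        rw [← hL₂] at n2
        have hb1 : 0 ≤ bh16 μ s t η p M Nt (a + m) z :=
          ((sys_model16 (μ := μ) (s := s) (h := t) (η := η) (M := M) (N := Nt) hposp).b0 (a + m) z (by omega)).le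
        have hW := W_nonneg (μ := μ) (s := s) η ((a : ℤ), x) m (z - x)
        have n3 := mul_le_mul n1 n2 hb1 (by positivity)
        refine n3.trans ?_
        have e : ((((a : ℤ), x).1 + (m : ℤ), ((a : ℤ), x).2 + (z - x)) : Pt) = (((a + m : ℕ) : ℤ), z) := by
          ext
          · show (a : ℤ) + m = ((a + m : ℕ) : ℤ)
            push_cast
            rfl
          · show x + (z - x) = z
            ring
        have e2 : TG μ s 0 0 L₂ η (((a + m : ℕ) : ℤ), z) = V μ s η (((a + m : ℕ) : ℤ), z) L₂ := by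
          have h3 := TG_near (μ := μ) (s := s) (h := 0) h.sl_pos.le h.sl_lt.le 0 L₂ η (((a + m : ℕ) : ℤ), z)
          rw [abs_zero, zero_mul, Nat.zero_add] at h3
          exact sub_eq_zero.1 (abs_nonpos_iff.1 h3)
        rw [hg]
        dsimp only
        rw [e, e2, zero_mul, Real.exp_zero, mul_one]
        have e3 : Real.exp (|t| * bl M a m) * Real.exp (|t| * kN M Nt (a + m)) ≤ Real.exp 1 := by
          rw [← Real.exp_add]
          refine Real.exp_le_exp.2 ?_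
          have := mul_le_mul_of_nonneg_left hbl (abs_nonneg t)
          linarith
        have e4 := mul_le_mul_of_nonneg_right e3
          (show 0 ≤ cN μ s t p M Nt * (W μ s η ((a : ℤ), x) m (z - x) * Real.exp (V μ s η (((a + m : ℕ) : ℤ), z) L₂)) by positivity)
        refine le_trans (le_of_eq ?_) (e4.trans (le_of_eq ?_))
        · ring
        · ring
      refine (sum_le_sum h1).trans ?_
      have h2 : ∑ z ∈ (Icc x (x + (m : ℤ))).filter (fun z : ℤ => (N : ℝ) ^ ε * wd μ s m ≤ |(z : ℝ) - x - sl μ s * m|), g (z - x) =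
          ∑ y ∈ ((Icc x (x + (m : ℤ))).filter (fun z : ℤ => (N : ℝ) ^ ε * wd μ s m ≤ |(z : ℝ) - x - sl μ s * m|)).image (fun z => z - x),
            g y := by
        rw [sum_image fun u _ v _ huv => sub_left_injective huv]
      rw [h2]
      rw [hg] at hg0 ⊢
      refine sum_le_sum_of_subset_of_nonneg ?_ fun y _ _ => hg0 y
      intro y hy
      rw [mem_image] at hy
      obtain ⟨z, hz, rfl⟩ := hy
      rw [mem_filter, mem_Icc] at hz
      rw [hA]
      refine hQ m hm1 (by omega) (z - x) (by omega) (by omega) ?_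
      rw [add_sub_cancel]
      exact hz.2
    have hV0 : TG μ s 0 m L₂ η ((a : ℤ), x) = V μ s η ((a : ℤ), x) (Nt - 1 - a) := by
      have h3 := TG_near (μ := μ) (s := s) (h := 0) h.sl_pos.le h.sl_lt.le m L₂ η ((a : ℤ), x)
      rw [abs_zero, zero_mul, show m + L₂ = Nt - 1 - a by omega] at h3
      exact sub_eq_zero.1 (abs_nonpos_iff.1 h3)
    rw [hV0] at e1
    have hb := (bh_near (η := η) h hp hp' (show a + 1 ≤ Nt by omega) x).2
    have hk : |t| * kN M Nt a ≤ 1 := by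
      have h3 : (kN M Nt a : ℝ) ≤ ((M - a : ℕ) : ℝ) := by exact_mod_cast kN_le M Nt a
      exact (mul_le_mul_of_nonneg_left h3 (abs_nonneg t)).trans htM
    have hb' : cN μ s t p M Nt * Real.exp (V μ s η ((a : ℤ), x) (Nt - 1 - a)) ≤ Real.exp 1 * bh16 μ s t η p M Nt a x := by
      have h4 : Real.exp (-1) * Real.exp (V μ s η ((a : ℤ), x) (Nt - 1 - a)) ≤
          Real.exp (-(|t| * kN M Nt a)) * Real.exp (V μ s η ((a : ℤ), x) (Nt - 1 - a)) :=
        mul_le_mul_of_nonneg_right (Real.exp_le_exp.2 (by linarith)) (Real.exp_pos _).le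
      have h5 := (mul_le_mul_of_nonneg_left h4 hc.le).trans hb
      have h6 := mul_le_mul_of_nonneg_left h5 (Real.exp_pos 1).le
      have h7 : Real.exp 1 * Real.exp (-1) = 1 := by rw [← Real.exp_add]; norm_num
      calc cN μ s t p M Nt * Real.exp (V μ s η ((a : ℤ), x) (Nt - 1 - a)) =
          Real.exp 1 * (cN μ s t p M Nt * (Real.exp (-1) * Real.exp (V μ s η ((a : ℤ), x) (Nt - 1 - a)))) := by
            linear_combination (-(cN μ s t p M Nt * Real.exp (V μ s η ((a : ℤ), x) (Nt - 1 - a)))) * h7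
        _ ≤ _ := h6
    have h8 := hnum m hTm
    calc _ ≤ cN μ s t p M Nt * (Real.exp 1 * QV μ s 0 η ((a : ℤ), x) m 0 L₂ A) := hPM
      _ ≤ cN μ s t p M Nt * (Real.exp 1 * (Real.exp (-(m : ℝ) ^ c₁) * Real.exp (V μ s η ((a : ℤ), x) (Nt - 1 - a)))) :=
          mul_le_mul_of_nonneg_left (mul_le_mul_of_nonneg_left e1 (Real.exp_pos _).le) hc.le
      _ = Real.exp 1 * Real.exp (-(m : ℝ) ^ c₁) * (cN μ s t p M Nt * Real.exp (V μ s η ((a : ℤ), x) (Nt - 1 - a))) := by ring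
      _ ≤ Real.exp 1 * Real.exp (-(m : ℝ) ^ c₁) * (Real.exp 1 * bh16 μ s t η p M Nt a x) :=
          mul_le_mul_of_nonneg_left hb' (by positivity)
      _ = (Real.exp 2 * Real.exp (-(m : ℝ) ^ c₁)) * bh16 μ s t η p M Nt a x := by
          rw [show (2 : ℝ) = 1 + 1 by norm_num, Real.exp_add]
          ring
      _ ≤ _ := mul_le_mul_of_nonneg_right h8 hb0

/-- **THE CRUDE KERNELS**, deterministic. -/
theorem cl84 (h : In μ s c C n₀) (hL : LB84 μ s) {ε δ κ : ℝ} (hε : 0 < ε) (hδ0 : 0 < δ) (hδ : δ ≤ ε / 8) (hκ : κ ≤ ε / 8) :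
    ∃ n₁ : ℕ, ∀ N T : ℕ, n₁ ≤ T → T ≤ N →
    (∀ m : ℕ, T ≤ m → ((4 * N : ℕ) : ℝ) ^ δ * wd μ s m ≤ sl μ s * m ∧ ((4 * N : ℕ) : ℝ) ^ δ * wd μ s m ≤ (1 - sl μ s) * m) →
    ∀ {t : ℝ}, |t| * EE μ s N ≤ (N : ℝ) ^ κ → ∀ {η : Env}, PBox μ s (4 * N) δ (ε / 16) η → ∀ {M : ℕ} {p : ℕ → ℝ},
    (∀ k, k < M → p k = Real.exp (s + t)) → (∀ k, M ≤ k → p k = Real.exp s) → ∀ a m : ℕ, T ≤ m → a + m ≤ N →
    (m ≤ M - a ∨ |t| * ((M - a : ℕ) : ℝ) ≤ 1) → ∀ x z : ℤ, |x| ≤ 4 * N →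
    (|(z : ℝ) - x - sl μ s * m| ≤ (N : ℝ) ^ δ * wd μ s m → Real.exp (-((N : ℝ) ^ ε * EE μ s m)) ≤ nk μ s t η p M a m x z) ∧
      nk μ s t η p M a m x z ≤ Real.exp ((N : ℝ) ^ ε * EE μ s m + |t| * |(z : ℝ) - x - sl μ s * m|) := by
  obtain ⟨n₂, hLB⟩ := hL (ε / 8) (by positivity)
  obtain ⟨n₄, hn₄⟩ := eventually_atTop.1 (ev84 8 (show (0 : ℝ) < ε / 8 by positivity))
  refine ⟨max n₂ (max n₄ 4), fun N T hT hTN hcone t ht η hPB M p hp hp' a m hTm ham hcase x z hx => ?_⟩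
  have g2 : n₂ ≤ T := (le_max_left _ _).trans hT
  have g4 : n₄ ≤ T := (le_max_left _ _).trans ((le_max_right _ _).trans hT)
  have hT4 : 4 ≤ T := (le_max_right _ _).trans ((le_max_right _ _).trans hT)
  have hN4 : 4 ≤ N := hT4.trans hTN
  have hm1 : 1 ≤ m := by omega
  have q1 := hn₄ N (g4.trans hTN)
  have hNR : (1 : ℝ) ≤ N := by exact_mod_cast (show 1 ≤ N by omega)
  have hN0 : (0 : ℝ) < N := by linarith
  have hpw : ∀ {u v : ℝ}, u ≤ v → (N : ℝ) ^ u ≤ (N : ℝ) ^ v := fun huv => Real.rpow_le_rpow_of_exponent_le hNR huv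
  have hpos : ∀ u : ℝ, 0 < (N : ℝ) ^ u := fun u => Real.rpow_pos_of_pos hN0 u
  have hadd : ∀ u v : ℝ, (N : ℝ) ^ u * (N : ℝ) ^ v = (N : ℝ) ^ (u + v) := fun u v => (Real.rpow_add hN0 u v).symm
  have hwm := h.wd_pos hm1
  have hE1 := one_le_EE (μ := μ) (s := s) m
  have hE0 : 0 < EE μ s m := by linarith
  have b1 : ((4 * N : ℕ) : ℝ) ^ (ε / 16) ≤ (N : ℝ) ^ (ε / 2) := (four_pow hN4 (by positivity)).trans (hpw (by linarith))
  have b1E := mul_le_mul_of_nonneg_right b1 hE0.le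
  have b2 : |t| * ((N : ℝ) ^ δ * wd μ s m) ≤ (N : ℝ) ^ (ε / 2) * EE μ s m := by
    have b3 := tw84 (μ := μ) (s := s) (t := t) (κ := κ) (e := ε / 8) hm1 (by omega) (by positivity) (hLB m (g2.trans hTm)) ht
    have b5 := mul_le_mul_of_nonneg_left b3 (hpos δ).le
    rw [← mul_assoc ((N : ℝ) ^ δ) ((N : ℝ) ^ (κ + ε / 8)), hadd] at b5
    have b6 := mul_le_mul_of_nonneg_right (hpw (show δ + (κ + ε / 8) ≤ ε / 2 by linarith)) hE0.le
    linarith [show |t| * ((N : ℝ) ^ δ * wd μ s m) = (N : ℝ) ^ δ * (|t| * wd μ s m) by ring]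
  have bfin : 8 * ((N : ℝ) ^ (ε / 2) * EE μ s m) ≤ (N : ℝ) ^ ε * EE μ s m := by
    have b3 := mul_le_mul_of_nonneg_right q1 (show 0 ≤ (N : ℝ) ^ (ε / 2) * EE μ s m by have := hpos (ε / 2); positivity)
    rw [← mul_assoc ((N : ℝ) ^ (ε / 8)), hadd] at b3
    exact b3.trans (mul_le_mul_of_nonneg_right (hpw (by linarith)) hE0.le)
  have bone : 1 ≤ (N : ℝ) ^ (ε / 2) * EE μ s m := one_le_mul_of_one_le_of_one_le (Real.one_le_rpow hNR (by positivity)) hE1
  have hxb : |x| ≤ 2 * ((4 * N : ℕ) : ℤ) := by push_cast; omega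
  constructor
  · intro hz
    have h4δ : (N : ℝ) ^ δ ≤ ((4 * N : ℕ) : ℝ) ^ δ := Real.rpow_le_rpow hN0.le (by push_cast; linarith) hδ0.le
    have hz' : |((z - x : ℤ) : ℝ) - sl μ s * m| ≤ ((4 * N : ℕ) : ℝ) ^ δ * wd μ s m := by
      push_cast
      push_cast at h4δ
      exact hz.trans (mul_le_mul_of_nonneg_right h4δ hwm.le)
    obtain ⟨c0, c1⟩ := hcone m hTm
    have h7 := abs_le.1 hz'
    have z0 : 0 ≤ z - x := by
      have : (0 : ℝ) ≤ ((z - x : ℤ) : ℝ) := by linarith [h7.1]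
      exact_mod_cast this
    have z1 : z - x ≤ m := by
      have : ((z - x : ℤ) : ℝ) ≤ ((m : ℤ) : ℝ) := by
        rw [Int.cast_natCast]
        linarith [h7.2]
      exact_mod_cast this
    have hW := (hPB a m (by omega) x hxb (z - x) z0 z1).2.2 (by
      rw [wd'_eq' h hm1]
      exact hz')
    rw [EE'_eq] at hW
    by_cases hmM : m ≤ M - a
    · rw [nk_right hp hp' hmM]
      have h2 : -(|t| * ((N : ℝ) ^ δ * wd μ s m)) ≤ t * (((z - x : ℤ) : ℝ) - sl μ s * m) := by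
        have h3 := neg_abs_le (t * (((z - x : ℤ) : ℝ) - sl μ s * m))
        rw [abs_mul] at h3
        have h4 := mul_le_mul_of_nonneg_left hz (abs_nonneg t)
        push_cast at h3 ⊢
        linarith
      refine le_trans ?_ (mul_le_mul hW (Real.exp_le_exp.2 h2) (Real.exp_pos _).le ((Real.exp_pos _).le.trans hW))
      rw [← Real.exp_add]
      exact Real.exp_le_exp.2 (by linarith)
    · have htM := hcase.resolve_left hmM
      have h2 := (nk_near (η := η) h hp hp' a m x z).2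
      have h3 : |t| * bl M a m ≤ 1 := by
        have h4 : (bl M a m : ℝ) ≤ ((M - a : ℕ) : ℝ) := by
          have : bl M a m ≤ M - a := by
            unfold bl
            omega
          exact_mod_cast this
        exact (mul_le_mul_of_nonneg_left h4 (abs_nonneg t)).trans htM
      refine le_trans ?_ h2
      refine le_trans ?_ (mul_le_mul (Real.exp_le_exp.2 (show (-1 : ℝ) ≤ -(|t| * bl M a m) by linarith)) hW (Real.exp_pos _).le
        (Real.exp_pos _).le)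
      rw [← Real.exp_add]
      exact Real.exp_le_exp.2 (by linarith)
  · by_cases hzr : 0 ≤ z - x ∧ z - x ≤ m
    · have hW := (hPB a m (by omega) x hxb (z - x) hzr.1 hzr.2).1
      rw [EE'_eq] at hW
      have hab := abs_nonneg ((z : ℝ) - x - sl μ s * m)
      have hta := mul_nonneg (abs_nonneg t) hab
      by_cases hmM : m ≤ M - a
      · rw [nk_right hp hp' hmM, Real.exp_add]
        refine mul_le_mul (hW.trans (Real.exp_le_exp.2 (by linarith))) (Real.exp_le_exp.2 ?_) (Real.exp_pos _).le (Real.exp_pos _).le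
        have h3 := le_abs_self (t * (((z - x : ℤ) : ℝ) - sl μ s * m))
        rw [abs_mul] at h3
        push_cast at h3 ⊢
        exact h3
      · have htM := hcase.resolve_left hmM
        have h2 := (nk_near (η := η) h hp hp' a m x z).1
        have h3 : |t| * bl M a m ≤ 1 := by
          have h4 : (bl M a m : ℝ) ≤ ((M - a : ℕ) : ℝ) := by
            have : bl M a m ≤ M - a := by
              unfold bl
              omega
            exact_mod_cast this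
          exact (mul_le_mul_of_nonneg_left h4 (abs_nonneg t)).trans htM
        refine h2.trans ((mul_le_mul (Real.exp_le_exp.2 h3) hW (W_nonneg _ _ _ _) (Real.exp_pos _).le).trans ?_)
        rw [← Real.exp_add]
        exact Real.exp_le_exp.2 (by linarith)
    · rw [nk_eq_zero a m (fun h1 => hzr ⟨by omega, by omega⟩)]
      exact (Real.exp_pos _).le

end

end Pool.Agent.W_7d29a1_C1.Cr84
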