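import Pool.Agent.W_7d29a1_C1.CrE84

/-!
MP_7d29a1_pr, [C1] THE CRUDE TOP WITH TWO SIZES, part 1 (helper84): `CrE84.cr84` with at most `Nf` rows of the force in a box of `N` rows; the
force is small against `EE Nf` only (contexts: `N ≥ Nf ^ 3`).
-/

set_option autoImplicit false

namespace Pool.Agent.W_7d29a1_C1.Cr84

open MeasureTheory ProbabilityTheory Filter Topology Finset
open Pool.Agent.W_7d29a1_F Pool.Agent.W_7d29a1_X Pool.Agent.W_7d29a1_h4g Pool.Agent.W_7d29a1_H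
open Pool.Agent.W_7d29a1_HS (In wd md md_abs wd_ge_one wd_le_two)
open Pool.Agent.W_7d29a1_HZ (PBox wd' EE')
open Pool.Agent.W_7d29a1_C1.U16 Pool.Agent.W_7d29a1_C1.FarW89 Pool.Agent.W_7d29a1_C1.Win84
open Pool.Agent.W_7d29a1_C1.DD84 (wd_next)

noncomputable section

variable {μ : Measure ℝ} {s : ℝ}

variable [IsProbabilityMeasure μ] {c C : ℝ} {n₀ : ℕ}

/-- The composite masses: window and comparison with the future at the last row of the force; at most `Nf` rows of the force. -/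
def EC84f (μ : Measure ℝ) (s t ε c₁ : ℝ) (N Nf T : ℕ) : Set Env :=
  {η | ∀ a K L m : ℕ, a + K + L ≤ N → K ≤ Nf → T ≤ K → 1 ≤ m → m ≤ K → ∀ x : ℤ, |x| ≤ 4 * N →
    QV μ s t η ((a : ℤ), x) m (K - m) L (bd μ s K ε m) ≤ Real.exp (-(K : ℝ) ^ c₁) * Real.exp (TG μ s t K L η ((a : ℤ), x)) ∧
    TG μ s t K L η ((a : ℤ), x) ≤ V μ s η (((a + K : ℕ) : ℤ), x + md μ s K) L + (K : ℝ) ^ ε * EE μ s K}

/-- The force against the width. -/
theorem tw84f {t κ e : ℝ} {N Nf m : ℕ} (hm : 1 ≤ m) (hmf : m ≤ Nf) (hmN : m ≤ N) (he : 0 ≤ e) (hLB : wd μ s m ≤ (m : ℝ) ^ e * EE μ s m ^ 2)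
    (ht : |t| * EE μ s Nf ≤ (N : ℝ) ^ κ) : |t| * wd μ s m ≤ (N : ℝ) ^ (κ + e) * EE μ s m := by
  have hm0 : (1 : ℝ) ≤ m := by exact_mod_cast hm
  have hmR : (m : ℝ) ≤ N := by exact_mod_cast hmN
  have hN0 : (0 : ℝ) < N := by linarith
  have hE := EE_pos (μ := μ) (s := s) m
  have hEN : EE μ s m ≤ EE μ s Nf := EE_mono hmf
  have h1 : |t| * EE μ s m ≤ (N : ℝ) ^ κ := (mul_le_mul_of_nonneg_left hEN (abs_nonneg t)).trans ht
  have h2 : (m : ℝ) ^ e ≤ (N : ℝ) ^ e := Real.rpow_le_rpow (by linarith) hmR he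
  calc |t| * wd μ s m ≤ |t| * ((m : ℝ) ^ e * EE μ s m ^ 2) := mul_le_mul_of_nonneg_left hLB (abs_nonneg t)
    _ = (|t| * EE μ s m) * (m : ℝ) ^ e * EE μ s m := by ring
    _ ≤ (N : ℝ) ^ κ * (N : ℝ) ^ e * EE μ s m :=
        mul_le_mul_of_nonneg_right (mul_le_mul h1 h2 (by positivity) (by positivity)) hE.le
    _ = _ := by rw [← Real.rpow_add hN0]

set_option maxHeartbeats 1000000 in
/-- **THE CRUDE REGULARITY**, deterministic. -/
theorem cr84f (h : In μ s c C n₀) (hL : LB84 μ s) (hU : UB84 μ s) {ε δ ε₁ κ c₁ : ℝ} (hε : 0 < ε) (hδ0 : 0 < δ) (hδ : δ ≤ ε / 8)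
    (hε₁0 : 0 < ε₁) (hε₁ : ε₁ ≤ δ / 2) (hκ : κ ≤ ε / 8) (hc₁ : 0 < c₁) : ∃ n₁ : ℕ, ∀ N Nf T : ℕ, n₁ ≤ T → T ≤ N →
    (∀ m : ℕ, T ≤ m → ((4 * N : ℕ) : ℝ) ^ δ * wd μ s m ≤ sl μ s * m ∧ ((4 * N : ℕ) : ℝ) ^ δ * wd μ s m ≤ (1 - sl μ s) * m) →
    ∀ {t : ℝ}, |t| * EE μ s Nf ≤ (N : ℝ) ^ κ → ∀ {η : Env}, η ∈ EC84f μ s t ε₁ c₁ N Nf T → η ∈ EV84 μ s (ε / 12) N T →
    PBox μ s (4 * N) δ (ε / 16) η → ∀ a K L : ℕ, a + K + L ≤ N → K ≤ Nf → (T ≤ K ∨ |t| * K ≤ 1) → ∀ x x' : ℤ, |x| ≤ 4 * N → |x'| ≤ 4 * N →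
    TG μ s t K L η ((a : ℤ), x) ≤ TG μ s t K L η ((a : ℤ), x') + (N : ℝ) ^ ε * (EE μ s T + Real.sqrt |(x : ℝ) - x'|) := by
  obtain ⟨n₁, hsc⟩ := sc84 h hU (e := ε / 4) (by positivity)
  obtain ⟨n₂, hLB⟩ := hL (ε / 8) (by positivity)
  obtain ⟨n₃, hUB⟩ := hU (ε / 4) (by positivity)
  obtain ⟨n₄, hn₄⟩ := eventually_atTop.1 ((ev84 8 (show (0 : ℝ) < ε / 8 by positivity)).and ((ev84 1 hc₁).and
    (ev84 2 (show (0 : ℝ) < δ / 2 by positivity))))
  refine ⟨max (max n₁ n₂) (max n₃ (max n₄ 4)), fun N Nf T hT hTN hcone t ht η hEC hEV hPB a K L haKL hKNf hcase x x' hx hx' => ?_⟩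
  have g1 : n₁ ≤ T := (le_max_left _ _).trans ((le_max_left _ _).trans hT)
  have g2 : n₂ ≤ T := (le_max_right _ _).trans ((le_max_left _ _).trans hT)
  have g3 : n₃ ≤ T := (le_max_left _ _).trans ((le_max_right _ _).trans hT)
  have g4 : n₄ ≤ T := (le_max_left _ _).trans ((le_max_right _ _).trans ((le_max_right _ _).trans hT))
  have hT4 : 4 ≤ T := (le_max_right _ _).trans ((le_max_right _ _).trans ((le_max_right _ _).trans hT))
  have hN4 : 4 ≤ N := hT4.trans hTN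
  obtain ⟨q1, -, q3⟩ := hn₄ N (g4.trans hTN)
  have hNR : (1 : ℝ) ≤ N := by exact_mod_cast (show 1 ≤ N by omega)
  have hN0 : (0 : ℝ) < N := by linarith
  have hpw : ∀ {u v : ℝ}, u ≤ v → (N : ℝ) ^ u ≤ (N : ℝ) ^ v := fun huv => Real.rpow_le_rpow_of_exponent_le hNR huv
  have hpos : ∀ u : ℝ, 0 < (N : ℝ) ^ u := fun u => Real.rpow_pos_of_pos hN0 u
  have hadd : ∀ u v : ℝ, (N : ℝ) ^ u * (N : ℝ) ^ v = (N : ℝ) ^ (u + v) := fun u v => (Real.rpow_add hN0 u v).symm
  obtain ⟨D, hD⟩ : ∃ D : ℝ, D = |(x : ℝ) - x'| := ⟨_, rfl⟩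
  have hD0 : 0 ≤ D := by rw [hD]; exact abs_nonneg _
  have hxR : |(x : ℝ)| ≤ 4 * N := by exact_mod_cast hx
  have hxR' : |(x' : ℝ)| ≤ 4 * N := by exact_mod_cast hx'
  have hD8 : D ≤ 8 * N := by
    rw [hD]
    refine (abs_sub _ _).trans ?_
    linarith
  obtain ⟨T', t1, t2, t3, t4, t5⟩ := hsc N T g1 hTN D hD0 hD8
  have hET1 := one_le_EE (μ := μ) (s := s) T
  obtain ⟨R, hR⟩ : ∃ R : ℝ, R = EE μ s T + Real.sqrt D := ⟨_, rfl⟩
  have hsD := Real.sqrt_nonneg D
  have hR1 : 1 ≤ R := by rw [hR]; linarith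
  have hRE : EE μ s T ≤ R := by rw [hR]; linarith
  have hRD : Real.sqrt D ≤ R := by rw [hR]; linarith
  have hET' : EE μ s T' ≤ (N : ℝ) ^ (ε / 4) * R := by
    have h1 : 1 ≤ (N : ℝ) ^ (ε / 4) := Real.one_le_rpow hNR (by positivity)
    have h2 : EE μ s T * 1 ≤ EE μ s T * (N : ℝ) ^ (ε / 4) := mul_le_mul_of_nonneg_left h1 (by linarith)
    rw [hR]
    linarith
  -- the futures without force
  have hV : ∀ b L' : ℕ, b ≤ N → L' ≤ N → ∀ z z' : ℤ, |z'| ≤ 5 * N → |(z : ℝ) - z'| = D →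
      V μ s η ((b : ℤ), z) L' ≤ V μ s η ((b : ℤ), z') L' + (N : ℝ) ^ (ε / 2) * R := by
    intro b L' hb hL' z z' hz' hzz
    have h1 := (abs_le.1 (hEV b L' T' hb hL' t1 t2 z z' hz' (by rw [hzz]; exact t3))).2
    have h2 : (T' : ℝ) ^ (ε / 12) ≤ (N : ℝ) ^ (ε / 4) := by
      have h4 : (T' : ℝ) ≤ (N : ℝ) ^ (3 : ℝ) := by
        have h5 : (T' : ℝ) ≤ ((N ^ 3 : ℕ) : ℝ) := by exact_mod_cast t2
        refine h5.trans (le_of_eq ?_)
        push_cast
        rw [← Real.rpow_natCast]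
        norm_num
      calc (T' : ℝ) ^ (ε / 12) ≤ ((N : ℝ) ^ (3 : ℝ)) ^ (ε / 12) := Real.rpow_le_rpow (by positivity) h4 (by positivity)
        _ = (N : ℝ) ^ (ε / 4) := by
          rw [← Real.rpow_mul hN0.le]
          congr 1
          ring
    have h3 : (T' : ℝ) ^ (ε / 12) * EE μ s T' ≤ (N : ℝ) ^ (ε / 4) * ((N : ℝ) ^ (ε / 4) * R) :=
      mul_le_mul h2 hET' (EE_pos _).le (hpos _).le
    rw [← mul_assoc, hadd, show ε / 4 + ε / 4 = ε / 2 by ring] at h3
    linarith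
  -- the final numbers
  have hfin : ∀ {Y : ℝ}, Y ≤ 8 * ((N : ℝ) ^ (3 * ε / 4) * R) → Y ≤ (N : ℝ) ^ ε * R := by
    intro Y hY
    refine hY.trans ?_
    have h1 := mul_le_mul_of_nonneg_right q1 (show 0 ≤ (N : ℝ) ^ (3 * ε / 4) * R by have := hpos (3 * ε / 4); positivity)
    rw [← mul_assoc ((N : ℝ) ^ (ε / 8)), hadd] at h1
    refine h1.trans (mul_le_mul_of_nonneg_right (hpw ?_) (by linarith))
    linarith
  have hN34 : ∀ {u : ℝ}, u ≤ 3 * ε / 4 → (N : ℝ) ^ u * R ≤ (N : ℝ) ^ (3 * ε / 4) * R := fun hu =>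
    mul_le_mul_of_nonneg_right (hpw hu) (by linarith)
  have hbase : R ≤ (N : ℝ) ^ (3 * ε / 4) * R := le_mul_of_one_le_left (by linarith) (Real.one_le_rpow hNR (by positivity))
  rw [← hD, ← hR]
  by_cases hKT : T ≤ K
  · have hK1 : 1 ≤ K := by omega
    have hK0 : (1 : ℝ) ≤ K := by exact_mod_cast hK1
    have hKN : K ≤ N := by omega
    have hKNR : (K : ℝ) ≤ N := by exact_mod_cast hKN
    have hKp : (K : ℝ) ^ ε₁ ≤ (N : ℝ) ^ ε₁ := Real.rpow_le_rpow (by linarith) hKNR hε₁0.le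
    have hKp0 : 0 < (K : ℝ) ^ ε₁ := Real.rpow_pos_of_pos (by linarith) _
    rcases le_or_gt D (wd μ s K) with hc | hc
    · -- the exchange at the scale `T'`
      have hT'K : T' ≤ K := t5 K hKT hc
      have hT'1 : 1 ≤ T' := by omega
      obtain ⟨k, rfl⟩ : ∃ k : ℕ, K = T' + k := ⟨K - T', by omega⟩
      obtain ⟨e1, -⟩ := hEC a (T' + k) L T' haKL hKNf hKT hT'1 hT'K x hx
      rw [Nat.add_sub_cancel_left] at e1
      have hwm := h.wd_pos hT'1
      have hEm := EE_pos (μ := μ) (s := s) T'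
      have hwd' : wd' μ s T' = wd μ s T' := wd'_eq' h hT'1
      have hEE' : EE' μ s T' = EE μ s T' := EE'_eq T'
      have hcone' := hcone T' t1
      have h4δ : (2 : ℝ) * (N : ℝ) ^ ε₁ ≤ ((4 * N : ℕ) : ℝ) ^ δ := by
        have h1 : (N : ℝ) ^ δ ≤ ((4 * N : ℕ) : ℝ) ^ δ := Real.rpow_le_rpow hN0.le (by push_cast; linarith) hδ0.le
        refine le_trans ?_ h1
        have h2 : (2 : ℝ) * (N : ℝ) ^ ε₁ ≤ (N : ℝ) ^ (δ / 2) * (N : ℝ) ^ (δ / 2) := mul_le_mul q3 (hpw hε₁) (hpos _).le (hpos _).le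
        rw [hadd, show δ / 2 + δ / 2 = δ by ring] at h2
        exact h2
      have hN1 : 1 ≤ (N : ℝ) ^ ε₁ := Real.one_le_rpow hNR hε₁0.le
      obtain ⟨G, hG⟩ : ∃ G : ℝ, G = ((4 * N : ℕ) : ℝ) ^ δ * wd μ s T' := ⟨_, rfl⟩
      have hwin : (N : ℝ) ^ ε₁ * wd μ s T' + wd μ s T' ≤ G := by
        rw [hG]
        have h1 : ((N : ℝ) ^ ε₁ + 1) * wd μ s T' ≤ ((4 * N : ℕ) : ℝ) ^ δ * wd μ s T' :=
          mul_le_mul_of_nonneg_right (by linarith) hwm.le
        linarith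
      rw [← hG] at hcone'
      obtain ⟨B, hB⟩ : ∃ B : ℝ, B = ((4 * N : ℕ) : ℝ) ^ (ε / 16) * EE μ s T' + |t| * G := ⟨_, rfl⟩
      have hax : ∀ {y : ℤ}, |y| ≤ 4 * (N : ℤ) → |y| ≤ 2 * ((4 * N : ℕ) : ℤ) := fun hy => by push_cast; omega
      have hmain := swapG84 (μ := μ) (s := s) (η := η) (t := t) (B := B) (a := (a : ℤ)) (x := x) (x' := x') (m := T') (k := k) (L := L)
        (A := (Icc (0 : ℤ) T').filter fun y => |(y : ℝ) - sl μ s * T'| ≤ (N : ℝ) ^ ε₁ * wd μ s T')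
        (A' := bd μ s (T' + k) ε₁ T') (by
          intro y hy
          rw [mem_union, mem_filter, mem_bd]
          rw [mem_Icc] at hy
          by_cases h1 : |(y : ℝ) - sl μ s * T'| ≤ (N : ℝ) ^ ε₁ * wd μ s T'
          · exact Or.inl ⟨mem_Icc.2 hy, h1⟩
          · refine Or.inr ⟨hy, fun h2 => h1 (h2.trans ?_)⟩
            rw [hwd']
            exact mul_le_mul_of_nonneg_right hKp hwm.le) (by
          refine e1.trans (mul_le_mul_of_nonneg_right ?_ (Real.exp_pos _).le)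
          have h1 : 1 ≤ ((T' + k : ℕ) : ℝ) ^ c₁ := (hn₄ (T' + k) (g4.trans hKT)).2.1
          have h2 : Real.exp (-((T' + k : ℕ) : ℝ) ^ c₁) ≤ Real.exp (-1) := Real.exp_le_exp.2 (by linarith)
          have h3 : Real.exp (-1 : ℝ) ≤ 1 / 2 := by
            have h4 := Real.add_one_le_exp (1 : ℝ)
            rw [Real.exp_neg, one_div]
            exact inv_anti₀ (by norm_num) (by linarith)
          exact h2.trans h3) (by
          intro y hy
          rw [mem_filter, mem_Icc] at hy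
          have h1 := (hPB a T' (by omega) x (hax hx) y hy.1.1 hy.1.2).1
          rw [hEE'] at h1
          have h2 : t * ((y : ℝ) - sl μ s * T') ≤ |t| * G := by
            have h3 := le_abs_self (t * ((y : ℝ) - sl μ s * T'))
            rw [abs_mul] at h3
            have h4 := mul_le_mul_of_nonneg_left (hy.2.trans (show (N : ℝ) ^ ε₁ * wd μ s T' ≤ G by linarith)) (abs_nonneg t)
            linarith
          rw [hB, Real.exp_add]
          exact mul_le_mul h1 (Real.exp_le_exp.2 h2) (Real.exp_pos _).le (Real.exp_pos _).le) (by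
          intro y hy
          rw [mem_filter, mem_Icc] at hy
          have h5 : |((y + (x - x') : ℤ) : ℝ) - sl μ s * T'| ≤ G := by
            have h6 : ((y + (x - x') : ℤ) : ℝ) - sl μ s * T' = ((y : ℝ) - sl μ s * T') + ((x : ℝ) - x') := by push_cast; ring
            rw [h6]
            refine (abs_add_le _ _).trans ?_
            rw [← hD]
            linarith [hy.2]
          have h7 := abs_le.1 h5
          have z0 : 0 ≤ y + (x - x') := by
            have : (0 : ℝ) ≤ ((y + (x - x') : ℤ) : ℝ) := by linarith [hcone'.1, h7.1]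
            exact_mod_cast this
          have z1 : y + (x - x') ≤ T' := by
            have : ((y + (x - x') : ℤ) : ℝ) ≤ ((T' : ℤ) : ℝ) := by
              push_cast
              push_cast at h7
              linarith [hcone'.2, h7.2]
            exact_mod_cast this
          refine ⟨z0, z1, ?_⟩
          have h1 := (hPB a T' (by omega) x' (hax hx') (y + (x - x')) z0 z1).2.2 (by
            rw [hwd', ← hG]
            exact h5)
          rw [hEE'] at h1
          have h2 : -(|t| * G) ≤ t * (((y + (x - x') : ℤ) : ℝ) - sl μ s * T') := by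
            have h3 := neg_abs_le (t * (((y + (x - x') : ℤ) : ℝ) - sl μ s * T'))
            rw [abs_mul] at h3
            have h4 := mul_le_mul_of_nonneg_left h5 (abs_nonneg t)
            linarith
          rw [hB, neg_add, Real.exp_add]
          exact mul_le_mul h1 (Real.exp_le_exp.2 h2) (Real.exp_pos _).le ((Real.exp_pos _).le.trans h1))
      refine (hmain.trans (le_of_eq (add_assoc _ _ _))).trans ((add_le_add_iff_left _).2 (hfin ?_))
      -- `2 B + 1`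
      have b1 : ((4 * N : ℕ) : ℝ) ^ (ε / 16) ≤ (N : ℝ) ^ (ε / 2) := (four_pow hN4 (by positivity)).trans (hpw (by linarith))
      have b2 : |t| * G ≤ (N : ℝ) ^ (ε / 2) * EE μ s T' := by
        have b3 := tw84f (μ := μ) (s := s) (t := t) (κ := κ) (e := ε / 8) hT'1 (hT'K.trans hKNf) (hT'K.trans hKN) (by positivity)
          (hLB T' (g2.trans t1)) ht
        have b4 : ((4 * N : ℕ) : ℝ) ^ δ ≤ (N : ℝ) ^ (ε / 4) := (four_pow hN4 hδ0.le).trans (hpw (by linarith))
        have b5 := mul_le_mul b4 b3 (mul_nonneg (abs_nonneg t) hwm.le) (hpos _).le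
        rw [← mul_assoc ((N : ℝ) ^ (ε / 4)), hadd] at b5
        have b6 := mul_le_mul_of_nonneg_right (hpw (show ε / 4 + (κ + ε / 8) ≤ ε / 2 by linarith)) hEm.le
        rw [hG]
        linarith
      have b7 : (N : ℝ) ^ (ε / 2) * EE μ s T' ≤ (N : ℝ) ^ (3 * ε / 4) * R := by
        have b8 := mul_le_mul_of_nonneg_left hET' (hpos (ε / 2)).le
        rw [← mul_assoc, hadd, show ε / 2 + ε / 4 = 3 * ε / 4 by ring] at b8
        exact b8
      have b9 := mul_le_mul_of_nonneg_right b1 hEm.le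
      rw [hB]
      linarith
    · -- beyond the width of the rows of the force
      obtain ⟨-, e2⟩ := hEC a K L K haKL hKNf hKT hK1 le_rfl x hx
      have hmd0 := h.md_nonneg K
      have hmd1 := h.md_le_nat K
      have hmd := md_abs (μ := μ) (s := s) K
      have hv := hV (a + K) L (by omega) (by omega) (x + md μ s K) (x' + md μ s K) (by
        have h1 := abs_le.1 hx'
        rw [abs_le]
        constructor
        · omega
        · omega) (by
        rw [hD]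
        push_cast
        congr 1
        ring)
      have h3 := TG_ge (μ := μ) (s := s) (h := t) η ((a : ℤ), x') K L hmd0 hmd1
      have e3 : ((((a : ℤ), x').1 + (K : ℤ), ((a : ℤ), x').2 + md μ s K) : Pt) = (((a + K : ℕ) : ℤ), x' + md μ s K) := by
        ext
        · show (a : ℤ) + K = ((a + K : ℕ) : ℤ)
          push_cast
          rfl
        · rfl
      rw [e3] at h3
      have hEK1 := one_le_EE (μ := μ) (s := s) K
      have hwK := wd_two h hK1
      -- the cost of the centre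
      have hX : X μ s η ((a : ℤ), x') K (md μ s K) ≤ ((4 * N : ℕ) : ℝ) ^ (ε / 16) * EE μ s K := by
        have h4 := (hPB a K (by omega) x' (by push_cast; omega) (md μ s K) hmd0 hmd1).2.2 (by
          rw [wd'_eq' h hK1]
          have h5 : 1 ≤ ((4 * N : ℕ) : ℝ) ^ δ := Real.one_le_rpow (by push_cast; linarith) hδ0.le
          have h6 : 1 * wd μ s K ≤ ((4 * N : ℕ) : ℝ) ^ δ * wd μ s K := mul_le_mul_of_nonneg_right h5 (by linarith)
          linarith)
        rw [EE'_eq] at h4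
        have hW := W_pos (μ := μ) (s := s) η ((a : ℤ), x') hmd0 hmd1
        have h5 := Real.log_le_log (Real.exp_pos _) h4
        rw [Real.log_exp] at h5
        unfold X
        linarith
      have htm : -(N : ℝ) ^ (ε / 8) ≤ t * ((md μ s K : ℝ) - sl μ s * K) := by
        have h4 := neg_abs_le (t * ((md μ s K : ℝ) - sl μ s * K))
        rw [abs_mul] at h4
        have h5 := mul_le_mul_of_nonneg_left hmd (abs_nonneg t)
        have h6 := one_le_EE (μ := μ) (s := s) Nf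
        have h7 : |t| * 1 ≤ |t| * EE μ s Nf := mul_le_mul_of_nonneg_left h6 (abs_nonneg t)
        have h8 := hpw hκ
        linarith
      -- the units
      have hEK : EE μ s K ≤ (N : ℝ) ^ (ε / 4) * R := by
        have h4 := hUB K (g3.trans hKT)
        have h5 : (K : ℝ) ^ (ε / 4) ≤ (N : ℝ) ^ (ε / 4) := Real.rpow_le_rpow (by linarith) hKNR (by positivity)
        have h6 : EE μ s K ^ 2 ≤ (N : ℝ) ^ (ε / 4) * D := h4.trans (mul_le_mul h5 hc.le (by linarith) (hpos _).le)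
        have h7 : (N : ℝ) ^ (ε / 4) * D ≤ ((N : ℝ) ^ (ε / 4) * Real.sqrt D) ^ 2 := by
          rw [mul_pow, Real.sq_sqrt hD0]
          have h8 : 1 ≤ (N : ℝ) ^ (ε / 4) := Real.one_le_rpow hNR (by positivity)
          have h9 : (N : ℝ) ^ (ε / 4) ≤ ((N : ℝ) ^ (ε / 4)) ^ 2 := by nlinarith
          exact mul_le_mul_of_nonneg_right h9 hD0
        have h8 : 0 ≤ (N : ℝ) ^ (ε / 4) * Real.sqrt D := by have := hpos (ε / 4); positivity
        have h9 : EE μ s K ≤ (N : ℝ) ^ (ε / 4) * Real.sqrt D := by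
          by_contra hcon
          rw [not_le] at hcon
          have := pow_lt_pow_left₀ hcon h8 (two_ne_zero)
          linarith
        exact h9.trans (mul_le_mul_of_nonneg_left hRD (hpos _).le)
      have b1 : (K : ℝ) ^ ε₁ * EE μ s K ≤ (N : ℝ) ^ (3 * ε / 4) * R := by
        have b2 : (K : ℝ) ^ ε₁ ≤ (N : ℝ) ^ (ε / 2) := hKp.trans (hpw (by linarith))
        have b3 := mul_le_mul b2 hEK (by linarith) (hpos _).le
        rw [← mul_assoc, hadd, show ε / 2 + ε / 4 = 3 * ε / 4 by ring] at b3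
        exact b3
      have b2 : ((4 * N : ℕ) : ℝ) ^ (ε / 16) * EE μ s K ≤ (N : ℝ) ^ (3 * ε / 4) * R := by
        have b3 : ((4 * N : ℕ) : ℝ) ^ (ε / 16) ≤ (N : ℝ) ^ (ε / 2) := (four_pow hN4 (by positivity)).trans (hpw (by linarith))
        have b4 := mul_le_mul b3 hEK (by linarith) (hpos _).le
        rw [← mul_assoc, hadd, show ε / 2 + ε / 4 = 3 * ε / 4 by ring] at b4
        exact b4
      have b3 : (N : ℝ) ^ (ε / 8) ≤ (N : ℝ) ^ (3 * ε / 4) * R := by
        have b4 := hN34 (u := ε / 8) (by linarith)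
        have b5 : (N : ℝ) ^ (ε / 8) * 1 ≤ (N : ℝ) ^ (ε / 8) * R := mul_le_mul_of_nonneg_left hR1 (hpos _).le
        linarith
      have b4 := hN34 (u := ε / 2) (by linarith)
      have hgoal : TG μ s t K L η ((a : ℤ), x) ≤ TG μ s t K L η ((a : ℤ), x') +
          ((K : ℝ) ^ ε₁ * EE μ s K + (N : ℝ) ^ (ε / 2) * R + ((4 * N : ℕ) : ℝ) ^ (ε / 16) * EE μ s K + (N : ℝ) ^ (ε / 8)) := by
        linarith
      refine hgoal.trans ((add_le_add_iff_left _).2 (hfin ?_))
      linarith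
  · -- few rows of the force
    have htK : |t| * K ≤ 1 := hcase.resolve_left hKT
    have s0 := h.sl_pos
    have s1 := h.sl_lt
    have n1 := (abs_le.1 (TG_near (μ := μ) (s := s) (h := t) s0.le s1.le K L η ((a : ℤ), x))).2
    have n2 := (abs_le.1 (TG_near (μ := μ) (s := s) (h := t) s0.le s1.le K L η ((a : ℤ), x'))).1
    have hv := hV a (K + L) (by omega) (by omega) x x' (by omega) hD.symm
    have b4 := hN34 (u := ε / 2) (by linarith)
    have hgoal : TG μ s t K L η ((a : ℤ), x) ≤ TG μ s t K L η ((a : ℤ), x') + ((N : ℝ) ^ (ε / 2) * R + 2) := by linarith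
    refine hgoal.trans ((add_le_add_iff_left _).2 (hfin ?_))
    linarith

end

end Pool.Agent.W_7d29a1_C1.Cr84
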