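import Pool.Agent.W_7d29a1_C1.CrH84
import Pool.Agent.W_7d29a1_C1.CrD84

/-!
MP_7d29a1_pr, [C1] **THE CRUDE TOP WITH TWO SIZES** (helper84): `crd84f` = `crd84` in a box of `N` rows with at most `Nf` rows of the force; the
force is small against `EE Nf` only: `|t| EE Nf ≤ N ^ κ`.
-/

set_option autoImplicit false

namespace Pool.Agent.W_7d29a1_C1.Cr84

open MeasureTheory ProbabilityTheory Filter Topology Finset
open Pool.Agent.W_7d29a1_F Pool.Agent.W_7d29a1_X Pool.Agent.W_7d29a1_h4g Pool.Agent.W_7d29a1_H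
open Pool.Agent.W_7d29a1_HS (In wd md md_abs wd_ge_one wd_le_two)
open Pool.Agent.W_7d29a1_HZ (PBox wd' EE' pbox wd'_pow)
open Pool.Agent.W_7d29a1_C1.U16 Pool.Agent.W_7d29a1_C1.FarW89 Pool.Agent.W_7d29a1_C1.Win84

noncomputable section

variable {μ : Measure ℝ} {s : ℝ} [IsProbabilityMeasure μ] {c C : ℝ} {n₀ : ℕ}

/-- The probability of `EC84f`. -/
theorem ec_probf (h : In μ s c C n₀) (hL : LB84 μ s) (hU : UB84 μ s) (hF : FUTS84 μ s) {ε₁ pw : ℝ} (hε₁ : 0 < ε₁) :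
    ∃ κ₁ c₁ : ℝ, 0 < κ₁ ∧ 0 < c₁ ∧ ∃ K₀ : ℕ, ∀ N Nf T : ℕ, K₀ ≤ T → T ≤ N → (N : ℝ) ≤ (T : ℝ) ^ pw → ∀ t : ℝ,
      |t| * EE μ s Nf ≤ (T : ℝ) ^ κ₁ → (law μ).real (EC84f μ s t ε₁ c₁ N Nf T)ᶜ ≤ (20 * (N : ℝ)) ^ 5 * Real.exp (-(T : ℝ) ^ c₁) := by
  obtain ⟨κ₁, c₁, hκ₁, hc₁, K₀, H⟩ := comp_full84 h hL hU hF ε₁ hε₁ pw
  refine ⟨κ₁, c₁, hκ₁, hc₁, max K₀ 1, fun N Nf T hT hTN hNT t ht => ?_⟩
  have g1 : K₀ ≤ T := (le_max_left _ _).trans hT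
  have g2 : 1 ≤ T := (le_max_right _ _).trans hT
  have hTR : (1 : ℝ) ≤ T := by exact_mod_cast g2
  have hNR : (1 : ℝ) ≤ N := by exact_mod_cast (g2.trans hTN)
  classical
  obtain ⟨I, hI⟩ : ∃ I : Finset (((ℕ × ℕ) × (ℕ × ℕ)) × ℤ), I = (((range (N + 1) ×ˢ range (N + 1)) ×ˢ (range (N + 1) ×ˢ range (N + 1))) ×ˢ
    Icc (-(4 * N : ℤ)) (4 * N)).filter fun q => q.1.1.2 ≤ Nf ∧ T ≤ q.1.1.2 ∧ 1 ≤ q.1.2.2 ∧ q.1.2.2 ≤ q.1.1.2 := ⟨_, rfl⟩
  obtain ⟨E, hE⟩ : ∃ E : ((ℕ × ℕ) × (ℕ × ℕ)) × ℤ → Set Env, E = fun q =>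
    {η | ¬ (QV μ s t η ((q.1.1.1 : ℤ), q.2) q.1.2.2 (q.1.1.2 - q.1.2.2) q.1.2.1 (bd μ s q.1.1.2 ε₁ q.1.2.2) ≤
      Real.exp (-(q.1.1.2 : ℝ) ^ c₁) * Real.exp (TG μ s t q.1.1.2 q.1.2.1 η ((q.1.1.1 : ℤ), q.2)) ∧
      TG μ s t q.1.1.2 q.1.2.1 η ((q.1.1.1 : ℤ), q.2) ≤ V μ s η (((q.1.1.1 + q.1.1.2 : ℕ) : ℤ), q.2 + md μ s q.1.1.2) q.1.2.1 +
        (q.1.1.2 : ℝ) ^ ε₁ * EE μ s q.1.1.2)} := ⟨_, rfl⟩
  have hsub : (EC84f μ s t ε₁ c₁ N Nf T)ᶜ ⊆ ⋃ q ∈ I, E q := by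
    intro η hη
    by_contra hcon
    refine hη ?_
    intro a K L m haKL hKf hTK hm1 hmK x hx
    by_contra hbad
    refine hcon (Set.mem_iUnion₂.2 ⟨(((a, K), (L, m)), x), ?_, ?_⟩)
    · rw [hI, mem_filter, mem_product, mem_product, mem_product, mem_product, mem_range, mem_range, mem_range, mem_range, mem_Icc]
      have := abs_le.1 hx
      exact ⟨⟨⟨⟨by show a < N + 1; omega, by show K < N + 1; omega⟩, by show L < N + 1; omega, by show m < N + 1; omega⟩, by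
        show -(4 * (N : ℤ)) ≤ x
        omega, by
        show x ≤ 4 * (N : ℤ)
        omega⟩, hKf, hTK, hm1, hmK⟩
    · rw [hE]
      exact hbad
  refine (measureReal_mono hsub (measure_ne_top _ _)).trans (un84 I E ?_ (Real.exp_pos _).le ?_)
  · rintro ⟨⟨⟨a, K⟩, ⟨L, m⟩⟩, x⟩ hq
    rw [hI, mem_filter, mem_product, mem_product, mem_product, mem_product, mem_range, mem_range, mem_range, mem_range, mem_Icc] at hq
    obtain ⟨⟨⟨⟨ha, hK⟩, hL', hm⟩, hx⟩, hKf, hTK, hm1, hmK⟩ := hq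
    dsimp only at ha hK hL' hm hx hKf hTK hm1 hmK
    have hKR : (T : ℝ) ≤ K := by exact_mod_cast hTK
    have hpw : (N : ℝ) ≤ (K : ℝ) ^ pw := by
      rcases le_or_gt 0 pw with h0 | h0
      · exact hNT.trans (Real.rpow_le_rpow (by linarith) hKR h0)
      · -- a negative exponent: the box is trivial
        have h1 : (T : ℝ) ^ pw ≤ 1 := Real.rpow_le_one_of_one_le_of_nonpos hTR h0.le
        have h2 : (N : ℝ) = 1 := le_antisymm (hNT.trans h1) hNR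
        have h3 : (K : ℝ) = 1 := by
          have h4 : (K : ℝ) ≤ N := by exact_mod_cast (show K ≤ N by omega)
          linarith
        rw [h2, h3, Real.one_rpow]
    have hLR : (L : ℝ) ≤ (K : ℝ) ^ pw := by
      have : (L : ℝ) ≤ N := by exact_mod_cast (show L ≤ N by omega)
      linarith
    have htK : |t| * EE μ s K ≤ (K : ℝ) ^ κ₁ := by
      have h1 : EE μ s K ≤ EE μ s Nf := EE_mono hKf
      have h2 : (T : ℝ) ^ κ₁ ≤ (K : ℝ) ^ κ₁ := Real.rpow_le_rpow (by linarith) hKR hκ₁.le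
      have h3 := mul_le_mul_of_nonneg_left h1 (abs_nonneg t)
      linarith
    have h1 := H K (g1.trans hTK) L hLR m (K - m) hm1 (by omega) t htK a x
    rw [hE]
    refine h1.trans (Real.exp_le_exp.2 (neg_le_neg ?_))
    exact Real.rpow_le_rpow (by linarith) hKR hc₁.le
  · have h1 : (I.card : ℝ) ≤ ((N : ℝ) + 1) ^ 4 * (8 * N + 1) := by
      have h2 : I.card ≤ ((N + 1) * (N + 1)) * ((N + 1) * (N + 1)) * (8 * N + 1) := by
        rw [hI]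
        refine (card_filter_le _ _).trans (le_of_eq ?_)
        rw [card_product, card_product, card_product, card_range, Int.card_Icc]
        congr 1
        omega
      have h3 : (I.card : ℝ) ≤ (((N + 1) * (N + 1)) * ((N + 1) * (N + 1)) * (8 * N + 1) : ℕ) := by exact_mod_cast h2
      refine h3.trans (le_of_eq ?_)
      push_cast
      ring
    refine h1.trans ?_
    have h2 : (N : ℝ) + 1 ≤ 20 * N := by linarith
    have h3 : 8 * (N : ℝ) + 1 ≤ 20 * N := by linarith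
    calc ((N : ℝ) + 1) ^ 4 * (8 * N + 1) ≤ (20 * (N : ℝ)) ^ 4 * (20 * N) :=
          mul_le_mul (pow_le_pow_left₀ (by positivity) h2 4) h3 (by positivity) (by positivity)
      _ = _ := by ring

/-- **THE CRUDE TOP WITH TWO SIZES**: at most `Nf` rows of the force in the box of `N` rows. -/
theorem crd84f (h : In μ s c C n₀) (hL : LB84 μ s) (hU : UB84 μ s) (hF : FUT84 μ s) {ε τ : ℝ} (hε : 0 < ε) (hτ : 0 < τ) :
    ∃ δ κ c' : ℝ, 0 < δ ∧ 0 < κ ∧ 0 < c' ∧ ∃ N₀ : ℕ, ∀ N Nf T : ℕ, N₀ ≤ N → (N : ℝ) ^ τ ≤ T → T ≤ N → ∀ t : ℝ,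
    |t| * EE μ s Nf ≤ (N : ℝ) ^ κ → ∃ G : Set Env, (law μ).real Gᶜ ≤ Real.exp (-(N : ℝ) ^ c') ∧ ∀ η ∈ G, ∀ (M Nt : ℕ) (p : ℕ → ℝ), M ≤ Nf → M + 1 ≤ Nt → Nt ≤ N →
      (∀ k, k < M → p k = Real.exp (s + t)) → (∀ k, M ≤ k → p k = Real.exp s) → CrS84 μ s t ε δ c' N T M Nt p η := by
  have hF' := futs84 h hF
  obtain ⟨δ₀, c₂, hδ₀, hc₂, L₂, hpb⟩ := pbox h (ε / 16) (by positivity)
  obtain ⟨a₁, K₁, ha₁, ha₁', hK₁, hwp⟩ := wd'_pow h
  obtain ⟨δ, hδd⟩ : ∃ δ : ℝ, δ = min (min δ₀ (ε / 8)) (τ * a₁ / 4) := ⟨_, rfl⟩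
  have hδ0 : 0 < δ := by rw [hδd]; positivity
  have hδ1 : δ ≤ δ₀ := by rw [hδd]; exact (min_le_left _ _).trans (min_le_left _ _)
  have hδ2 : δ ≤ ε / 8 := by rw [hδd]; exact (min_le_left _ _).trans (min_le_right _ _)
  have hδ3 : δ ≤ τ * a₁ / 4 := by rw [hδd]; exact min_le_right _ _
  obtain ⟨κ₁, c₁, hκ₁, hc₁, K₂, hec⟩ := ec_probf h hL hU hF' (ε₁ := δ / 2) (pw := 1 / τ) (by positivity)
  obtain ⟨c₃, hc₃, K₃, hev⟩ := ev_prob h hF' (e := ε / 12) (pw := 1 / τ) (by positivity) (by positivity)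
  obtain ⟨κ, hκd⟩ : ∃ κ : ℝ, κ = min (ε / 8) (τ * κ₁) := ⟨_, rfl⟩
  have hκ0 : 0 < κ := by rw [hκd]; positivity
  have hκ1 : κ ≤ ε / 8 := by rw [hκd]; exact min_le_left _ _
  have hκ2 : κ ≤ τ * κ₁ := by rw [hκd]; exact min_le_right _ _
  obtain ⟨g, hgd⟩ : ∃ g : ℝ, g = min (min (τ * c₁) (τ * c₃)) c₂ := ⟨_, rfl⟩
  have hg0 : 0 < g := by rw [hgd]; positivity
  have hg1 : g ≤ τ * c₁ := by rw [hgd]; exact (min_le_left _ _).trans (min_le_left _ _)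
  have hg2 : g ≤ τ * c₃ := by rw [hgd]; exact (min_le_left _ _).trans (min_le_right _ _)
  have hg3 : g ≤ c₂ := by rw [hgd]; exact min_le_right _ _
  obtain ⟨n₁, hcr⟩ := cr84f h hL hU (ε := ε) (δ := δ) (ε₁ := δ / 2) (κ := κ) (c₁ := c₁) hε hδ0 hδ2 (by positivity) le_rfl hκ1 hc₁
  obtain ⟨n₂, hca⟩ := ca84f h (ε := ε) (ε₁ := δ / 2) (c₁ := c₁) (c' := g / 2) (pw := 1 / τ) (by linarith) (by positivity) hc₁
    (by positivity) (by
      rw [div_mul_eq_mul_div, one_mul, div_le_iff₀ hτ]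
      linarith) (by positivity)
  obtain ⟨n₃, hcl⟩ := cl84f h hL (ε := ε) (δ := δ) (κ := κ) hε hδ0 hδ2 hκ1
  have hs0 := h.sl_pos
  have hs1 := h.sl_lt
  obtain ⟨g₀, hg₀⟩ : ∃ g₀ : ℝ, g₀ = min (sl μ s) (1 - sl μ s) := ⟨_, rfl⟩
  have hg00 : 0 < g₀ := by rw [hg₀]; exact lt_min hs0 (by linarith)
  have hgl : g₀ ≤ sl μ s := by rw [hg₀]; exact min_le_left _ _
  have hgr : g₀ ≤ 1 - sl μ s := by rw [hg₀]; exact min_le_right _ _
  obtain ⟨n₄, hn₄⟩ := eventually_atTop.1 (ev84 (K₁ * wd' μ s 1 / g₀) (show 0 < a₁ / 2 by positivity))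
  obtain ⟨B, hB⟩ : ∃ B : ℕ, B = max (max (max K₂ K₃) (max n₁ n₂)) (max (max n₃ n₄) 4) := ⟨_, rfl⟩
  have ev1 := Pool.Agent.W_7d29a1_HZ.Z22.absorb (4 * 20 ^ 6) 6 (b := 1) (g := g) one_pos hg0
  obtain ⟨N₁, hN₁⟩ := eventually_atTop.1 (ev1.and (ev84 (B : ℝ) hτ))
  refine ⟨δ, κ, g / 2, hδ0, hκ0, by positivity, max N₁ (max L₂ 4), fun N Nf T hN hNT hTN t ht => ?_⟩
  have k1 : N₁ ≤ N := (le_max_left _ _).trans hN
  have k2 : L₂ ≤ N := (le_max_left _ _).trans ((le_max_right _ _).trans hN)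
  have k4 : 4 ≤ N := (le_max_right _ _).trans ((le_max_right _ _).trans hN)
  obtain ⟨q1, q2⟩ := hN₁ N k1
  have hNR : (1 : ℝ) ≤ N := by exact_mod_cast (show 1 ≤ N by omega)
  have hN0 : (0 : ℝ) < N := by linarith
  have hBT : B ≤ T := by
    have : (B : ℝ) ≤ T := q2.trans hNT
    exact_mod_cast this
  have b1 : K₂ ≤ T := (((le_max_left _ _).trans (le_max_left _ _)).trans ((le_max_left _ _).trans hB.ge)).trans hBT
  have b2 : K₃ ≤ T := (((le_max_right _ _).trans (le_max_left _ _)).trans ((le_max_left _ _).trans hB.ge)).trans hBT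
  have b3 : n₁ ≤ T := (((le_max_left _ _).trans (le_max_right _ _)).trans ((le_max_left _ _).trans hB.ge)).trans hBT
  have b4 : n₂ ≤ T := (((le_max_right _ _).trans (le_max_right _ _)).trans ((le_max_left _ _).trans hB.ge)).trans hBT
  have b5 : n₃ ≤ T := (((le_max_left _ _).trans (le_max_left _ _)).trans ((le_max_right _ _).trans hB.ge)).trans hBT
  have b6 : n₄ ≤ T := (((le_max_right _ _).trans (le_max_left _ _)).trans ((le_max_right _ _).trans hB.ge)).trans hBT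
  have b7 : 4 ≤ T := ((le_max_right _ _).trans ((le_max_right _ _).trans hB.ge)).trans hBT
  have hTR : (1 : ℝ) ≤ T := by exact_mod_cast (show 1 ≤ T by omega)
  have hNTp : (N : ℝ) ≤ (T : ℝ) ^ (1 / τ) := by
    have h1 := Real.rpow_le_rpow (by positivity) hNT (show 0 ≤ 1 / τ by positivity)
    rwa [← Real.rpow_mul hN0.le, mul_one_div_cancel hτ.ne', Real.rpow_one] at h1
  have hTc : ∀ {u : ℝ}, 0 < u → (N : ℝ) ^ (τ * u) ≤ (T : ℝ) ^ u := by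
    intro u hu
    rw [Real.rpow_mul hN0.le]
    exact Real.rpow_le_rpow (by positivity) hNT hu.le
  -- the cone
  have hcone : ∀ m : ℕ, T ≤ m → ((4 * N : ℕ) : ℝ) ^ δ * wd μ s m ≤ sl μ s * m ∧
      ((4 * N : ℕ) : ℝ) ^ δ * wd μ s m ≤ (1 - sl μ s) * m := by
    intro m hm
    have hm1 : 1 ≤ m := by omega
    have hmR : (T : ℝ) ≤ m := by exact_mod_cast hm
    have hm0 : (0 : ℝ) < m := by linarith
    have hw1 : 0 < wd' μ s 1 := by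
      rw [wd'_eq' h le_rfl]
      exact h.wd_pos le_rfl
    have h1 := (hwp 1 m le_rfl hm1).2.2
    rw [Nat.cast_one, div_one, wd'_eq' h hm1] at h1
    have h2 : ((4 * N : ℕ) : ℝ) ^ δ ≤ (m : ℝ) ^ (a₁ / 2) := by
      calc ((4 * N : ℕ) : ℝ) ^ δ ≤ (N : ℝ) ^ (2 * δ) := four_pow k4 hδ0.le
        _ ≤ (N : ℝ) ^ (τ * (a₁ / 2)) := Real.rpow_le_rpow_of_exponent_le hNR (by linarith)
        _ ≤ (T : ℝ) ^ (a₁ / 2) := hTc (by positivity)
        _ ≤ _ := Real.rpow_le_rpow (by linarith) hmR (by positivity)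
    have h3 := hn₄ m (b6.trans hm)
    rw [div_le_iff₀ hg00] at h3
    have h4 : ((4 * N : ℕ) : ℝ) ^ δ * wd μ s m ≤ g₀ * m := by
      calc ((4 * N : ℕ) : ℝ) ^ δ * wd μ s m ≤ (m : ℝ) ^ (a₁ / 2) * (K₁ * (m : ℝ) ^ (1 - a₁) * wd' μ s 1) :=
            mul_le_mul h2 h1 (h.wd_nonneg m) (by positivity)
        _ = (m : ℝ) ^ (a₁ / 2) * (m : ℝ) ^ (1 - a₁) * (K₁ * wd' μ s 1) := by ring
        _ ≤ (m : ℝ) ^ (a₁ / 2) * (m : ℝ) ^ (1 - a₁) * ((m : ℝ) ^ (a₁ / 2) * g₀) := mul_le_mul_of_nonneg_left h3 (by positivity)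
        _ = g₀ * ((m : ℝ) ^ (a₁ / 2) * (m : ℝ) ^ (1 - a₁) * (m : ℝ) ^ (a₁ / 2)) := by ring
        _ = g₀ * m := by
          rw [← Real.rpow_add hm0, ← Real.rpow_add hm0, show a₁ / 2 + (1 - a₁) + a₁ / 2 = 1 by ring, Real.rpow_one]
    exact ⟨h4.trans (mul_le_mul_of_nonneg_right hgl hm0.le), h4.trans (mul_le_mul_of_nonneg_right hgr hm0.le)⟩
  -- the event
  have htT : |t| * EE μ s Nf ≤ (T : ℝ) ^ κ₁ :=
    ht.trans ((Real.rpow_le_rpow_of_exponent_le hNR hκ2).trans (hTc hκ₁))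
  have p1 := hec N Nf T b1 hTN hNTp t htT
  have p2' := hec N N T b1 hTN hNTp 0 (by rw [abs_zero, zero_mul]; positivity)
  have p2 : (law μ).real (EC84 μ s 0 (δ / 2) c₁ N T)ᶜ ≤ (20 * (N : ℝ)) ^ 5 * Real.exp (-(T : ℝ) ^ c₁) := by
    refine le_trans (measureReal_mono (Set.compl_subset_compl.2 ?_) (measure_ne_top _ _)) p2'
    intro η hη a K L m haKL hTK hm1 hmK x hx
    exact hη a K L m haKL (by omega) hTK hm1 hmK x hx
  have p3 := hev N T b2 hTN hNTp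
  have p4 : (law μ).real {η | ¬ PBox μ s (4 * N) δ₀ (ε / 16) η} ≤ Real.exp (-((4 * N : ℕ) : ℝ) ^ c₂) :=
    ENNReal.toReal_le_of_le_ofReal (Real.exp_pos _).le (hpb (4 * N) (by omega))
  refine ⟨EC84f μ s t (δ / 2) c₁ N Nf T ∩ EC84 μ s 0 (δ / 2) c₁ N T ∩ (EV84 μ s (ε / 12) N T ∩ {η | PBox μ s (4 * N) δ₀ (ε / 16) η}), ?_, ?_⟩
  · have hsub : (EC84f μ s t (δ / 2) c₁ N Nf T ∩ EC84 μ s 0 (δ / 2) c₁ N T ∩
        (EV84 μ s (ε / 12) N T ∩ {η | PBox μ s (4 * N) δ₀ (ε / 16) η}))ᶜ ⊆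
        ((EC84f μ s t (δ / 2) c₁ N Nf T)ᶜ ∪ (EC84 μ s 0 (δ / 2) c₁ N T)ᶜ) ∪
        ((EV84 μ s (ε / 12) N T)ᶜ ∪ {η | ¬ PBox μ s (4 * N) δ₀ (ε / 16) η}) := by
      intro η hη
      by_contra hcon
      rw [Set.mem_union, Set.mem_union, Set.mem_union, not_or, not_or, not_or] at hcon
      exact hη ⟨⟨not_not.1 hcon.1.1, not_not.1 hcon.1.2⟩, not_not.1 hcon.2.1, not_not.1 hcon.2.2⟩
    refine (measureReal_mono hsub (measure_ne_top _ _)).trans ?_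
    have u1 := measureReal_union_le (μ := law μ) ((EC84f μ s t (δ / 2) c₁ N Nf T)ᶜ ∪ (EC84 μ s 0 (δ / 2) c₁ N T)ᶜ)
      ((EV84 μ s (ε / 12) N T)ᶜ ∪ {η | ¬ PBox μ s (4 * N) δ₀ (ε / 16) η})
    have u2 := measureReal_union_le (μ := law μ) (EC84f μ s t (δ / 2) c₁ N Nf T)ᶜ (EC84 μ s 0 (δ / 2) c₁ N T)ᶜ
    have u3 := measureReal_union_le (μ := law μ) (EV84 μ s (ε / 12) N T)ᶜ {η | ¬ PBox μ s (4 * N) δ₀ (ε / 16) η}
    obtain ⟨E, hE⟩ : ∃ E : ℝ, E = Real.exp (-(N : ℝ) ^ g) := ⟨_, rfl⟩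
    have hE0 : 0 < E := by rw [hE]; exact Real.exp_pos _
    have v1 : Real.exp (-(T : ℝ) ^ c₁) ≤ E := by
      rw [hE]
      exact Real.exp_le_exp.2 (neg_le_neg ((Real.rpow_le_rpow_of_exponent_le hNR hg1).trans (hTc hc₁)))
    have v2 : Real.exp (-(T : ℝ) ^ c₃) ≤ E := by
      rw [hE]
      exact Real.exp_le_exp.2 (neg_le_neg ((Real.rpow_le_rpow_of_exponent_le hNR hg2).trans (hTc hc₃)))
    have v3 : Real.exp (-((4 * N : ℕ) : ℝ) ^ c₂) ≤ E := by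
      rw [hE]
      refine Real.exp_le_exp.2 (neg_le_neg ((Real.rpow_le_rpow_of_exponent_le hNR hg3).trans ?_))
      exact Real.rpow_le_rpow hN0.le (by push_cast; linarith) hc₂.le
    have hN5 : (20 * (N : ℝ)) ^ 5 ≤ (20 * (N : ℝ)) ^ 6 := pow_le_pow_right₀ (by linarith) (by norm_num)
    have w1 : (20 * (N : ℝ)) ^ 5 * Real.exp (-(T : ℝ) ^ c₁) ≤ (20 * (N : ℝ)) ^ 6 * E :=
      mul_le_mul hN5 v1 (Real.exp_pos _).le (by positivity)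
    have w2 : (20 * (N : ℝ)) ^ 6 * Real.exp (-(T : ℝ) ^ c₃) ≤ (20 * (N : ℝ)) ^ 6 * E := mul_le_mul_of_nonneg_left v2 (by positivity)
    have w3 : E ≤ (20 * (N : ℝ)) ^ 6 * E := le_mul_of_one_le_left hE0.le (one_le_pow₀ (by linarith))
    have w4 : 4 * ((20 * (N : ℝ)) ^ 6 * E) ≤ Real.exp (-(N : ℝ) ^ (g / 2)) := by
      refine le_trans (le_of_eq ?_) q1
      rw [hE, one_mul, show ((6 : ℝ)) = ((6 : ℕ) : ℝ) by norm_num, Real.rpow_natCast]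
      ring
    linarith
  · rintro η ⟨⟨hη1, hη2⟩, hη3, hη4⟩ M Nt p hMf hM hNt hp hp'
    have hPB : PBox μ s (4 * N) δ (ε / 16) η := Pool.Agent.W_7d29a1_HZ.PBox.mono (by omega) hδ1 le_rfl hη4
    refine ⟨?_, ?_, ?_, ?_⟩
    · intro a ha hcase x x' hx hx'
      have hk : kN M Nt a = M - a := by
        unfold kN bl
        omega
      have h1 := hcr N Nf T b3 hTN hcone ht hη1 hη3 hPB a (kN M Nt a) (lN M Nt a) (by
        have := kN_add M Nt a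
        omega) (by rw [hk]; omega) (by rw [hk]; exact hcase) x x' hx hx'
      have hc := (cN_pos (μ := μ) (s := s) (h := t) (pos_p hp hp') M Nt).le
      rw [bh_TG hp hp' ha, bh_TG hp hp' ha]
      have h2 := mul_le_mul_of_nonneg_left (Real.exp_le_exp.2 h1) hc
      rw [Real.exp_add] at h2
      linarith [show cN μ s t p M Nt * (Real.exp (TG μ s t (kN M Nt a) (lN M Nt a) η ((a : ℤ), x')) *
        Real.exp ((N : ℝ) ^ ε * (EE μ s T + Real.sqrt |(x : ℝ) - x'|))) =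
        Real.exp ((N : ℝ) ^ ε * (EE μ s T + Real.sqrt |(x : ℝ) - x'|)) *
          (cN μ s t p M Nt * Real.exp (TG μ s t (kN M Nt a) (lN M Nt a) η ((a : ℤ), x'))) by ring]
    · intro a m hTm ham hcase x hx
      exact hca N Nf T b4 hTN hNTp hη1 hη2 hMf hp hp' hNt a m hTm ham hcase x hx
    · intro a m hTm ham hcase x z hx hz
      exact (hcl N Nf T b5 hTN hcone ht hPB hMf hp hp' a m hTm ham hcase x z hx).1 hz
    · intro a m hTm ham hcase x z hx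
      exact (hcl N Nf T b5 hTN hcone ht hPB hMf hp hp' a m hTm ham hcase x z hx).2

end

end Pool.Agent.W_7d29a1_C1.Cr84
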