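import Pool.Agent.W_7d29a1_C1.NbrB78
import Pool.Agent.W_7d29a1_C1.NbrD56

/-!
MP_7d29a1_pr, the attractor route (helper78): NEIGHBOURING SITES. In all rows, with all ends, tilted or not, the logarithms of the masses of
two neighbouring sites differ by at most `N ^ δ` outside an event of probability `exp (- N ^ c')` (`nbr78 : Nbr56 μ s`).
-/

set_option autoImplicit false

namespace Pool.Agent.W_7d29a1_C1.Nbr78

open MeasureTheory ProbabilityTheory Filter Topology Finset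
open Pool.Agent.W_7d29a1_F Pool.Agent.W_7d29a1_X Pool.Agent.W_7d29a1_h4g Pool.Agent.W_7d29a1_H
open Pool.Agent.W_7d29a1_h47 (EM)
open Pool.Agent.W_7d29a1_HS (In wd)
open Pool.Agent.W_7d29a1_HZ (wd' EE' wd'_pow wd'_eq)
open Pool.Agent.W_7d29a1_C1.K91 (wt wt_pos)
open Pool.Agent.W_7d29a1_C1.K91P (bw bw_zero bw_succ bw_pos GG)
open Pool.Agent.W_7d29a1_C1.H8 (ps8 ps8_pos)
open Pool.Agent.W_7d29a1_C1.Win84 (TG QV bd mem_bd LB84 UB84 ev84)
open Pool.Agent.W_7d29a1_C1.H56 (pN Nbr56)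
open scoped ENNReal

noncomputable section

variable {μ : Measure ℝ} {s h : ℝ}

/-! ### The pointwise estimate, deterministic part -/

theorem ps8_zero78 (M k : ℕ) : ps8 s 0 M k = Real.exp s := by
  unfold ps8
  rw [add_zero, ite_self]

/-- The weights of the window. -/
def Wb (u : ℝ) (m i : ℕ) (y : ℤ) (η : Env) : Prop := ∀ r < m, ∀ z : ℤ, y - 1 ≤ z → z ≤ y + r → |η (((i + r : ℕ) : ℤ), z)| ≤ u

theorem Wb.wnd {u : ℝ} (hu : 0 ≤ u) {m i : ℕ} {y : ℤ} {η : Env} (h1 : Wb u m i y η) {b : ℝ} (hb : |s| + |h| ≤ b) (M : ℕ) :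
    Wnd (wt η) (ps8 s h M) u b m i y := by
  intro r hr
  refine ⟨?_, fun z h2 h3 => ?_⟩
  · have g1 := abs_le.1 (le_refl |s|)
    have g2 := abs_le.1 (le_refl |h|)
    have g3 := abs_nonneg h
    unfold ps8
    split_ifs
    · exact ⟨Real.exp_le_exp.2 (by linarith), Real.exp_le_exp.2 (by linarith)⟩
    · exact ⟨Real.exp_le_exp.2 (by linarith), Real.exp_le_exp.2 (by linarith)⟩
  · have g := abs_le.1 (h1 r hr z h2 h3)
    unfold wt
    split_ifs
    · exact ⟨Real.exp_le_one_iff.2 (by linarith), Real.one_le_exp hu⟩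
    · exact ⟨Real.exp_le_exp.2 (by linarith), Real.exp_le_exp.2 (by linarith)⟩

/-- Many tilted rows. -/
theorem pt_many78 (η : Env) {i K L m : ℕ} (hm : m ≤ K) {u b x ε : ℝ} (hu : 0 ≤ u) (hb : |s| + |h| ≤ b) (hx : x ≤ 1 / 2) {y : ℤ}
    (hwin : Wb u m i y η) (h1 : (m : ℤ) ∈ bd μ s K ε m) (h0 : (0 : ℤ) ∈ bd μ s K ε m)
    (hU : QV μ s h η ((i : ℤ), y) m (K - m) L (bd μ s K ε m) ≤ x * Real.exp (TG μ s h K L η ((i : ℤ), y)))
    (hD : QV μ s h η ((i : ℤ), y - 1) m (K - m) L (bd μ s K ε m) ≤ x * Real.exp (TG μ s h K L η ((i : ℤ), y - 1))) :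
    |Real.log (bw (wt η) (ps8 s h (i + K)) i (K + L + 1) y) - Real.log (bw (wt η) (ps8 s h (i + K)) i (K + L + 1) (y - 1))| ≤
      (2 * u + 2 * b + 1) * m + 1 := by
  obtain ⟨k, rfl⟩ : ∃ k : ℕ, K = m + k := ⟨K - m, by omega⟩
  rw [Nat.add_sub_cancel_left] at hU hD
  have hw : ∀ k y, 0 < wt η k y := wt_pos η
  have hp := ps8_pos s h (i + (m + k))
  have hb0 : 0 ≤ b := by
    have := abs_nonneg s
    have := abs_nonneg h
    linarith
  have s1 := (share_TL78 (L := L) η (rfl : i + (m + k) = i + (m + k)) y hU h1 h0).1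
  have s2 := (share_TL78 (L := L) η (rfl : i + (m + k) = i + (m + k)) (y - 1) hD h1 h0).2
  have e : m + k + L + 1 = m + (k + L + 1) := by ring
  rw [e] at s1 s2 ⊢
  have b1 := bw_pos hw hp (m + (k + L + 1)) i y
  have b2 := bw_pos hw hp (m + (k + L + 1)) i (y - 1)
  exact nbr_det hw hp hu hb0 (hwin.wnd hu hb _) (s1.trans (mul_le_mul_of_nonneg_right hx b1.le))
    (s2.trans (mul_le_mul_of_nonneg_right hx b2.le))

/-- Few tilted rows. -/
theorem pt_few78 (η : Env) {i K J m : ℕ} (hm : m ≤ J) {u b x ε : ℝ} (hu : 0 ≤ u) (hb : |s| + |h| ≤ b) (hx0 : 0 ≤ x)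
    (hhK : |h| * K ≤ 1) (hx : Real.exp 1 * Real.exp 1 * x ≤ 1 / 2) {y : ℤ}
    (hwin : Wb u m i y η) (h1 : (m : ℤ) ∈ bd μ s J ε m) (h0 : (0 : ℤ) ∈ bd μ s J ε m)
    (hU : QV μ s 0 η ((i : ℤ), y) m (J - m) 0 (bd μ s J ε m) ≤ x * Real.exp (TG μ s 0 J 0 η ((i : ℤ), y)))
    (hD : QV μ s 0 η ((i : ℤ), y - 1) m (J - m) 0 (bd μ s J ε m) ≤ x * Real.exp (TG μ s 0 J 0 η ((i : ℤ), y - 1))) :
    |Real.log (bw (wt η) (ps8 s h (i + K)) i (J + 1) y) - Real.log (bw (wt η) (ps8 s h (i + K)) i (J + 1) (y - 1))| ≤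
      (2 * u + 2 * b + 1) * m + 1 := by
  obtain ⟨k, rfl⟩ : ∃ k : ℕ, J = m + k := ⟨J - m, by omega⟩
  rw [Nat.add_sub_cancel_left] at hU hD
  have hw : ∀ k y, 0 < wt η k y := wt_pos η
  have hp := ps8_pos s h (i + K)
  have hq := ps8_pos s 0 (i + (m + k))
  have hb0 : 0 ≤ b := by
    have := abs_nonneg s
    have := abs_nonneg h
    linarith
  have s1 := (share_TL78 (L := 0) η (rfl : i + (m + k) = i + (m + k)) y hU h1 h0).1
  have s2 := (share_TL78 (L := 0) η (rfl : i + (m + k) = i + (m + k)) (y - 1) hD h1 h0).2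
  rw [add_zero] at s1 s2
  rw [show m + k + 0 + 1 = m + (k + 1) by ring] at s1 s2
  rw [show m + k + 1 = m + (k + 1) by ring]
  have hh := abs_nonneg h
  have c1 : ∀ r, r < i + K → ps8 s h (i + K) r ≤ Real.exp |h| * ps8 s 0 (i + (m + k)) r := by
    intro r hr
    rw [ps8_zero78, ← Real.exp_add]
    unfold ps8
    rw [if_pos hr]
    exact Real.exp_le_exp.2 (by have := le_abs_self h; linarith)
  have c2 : ∀ r, i + K ≤ r → ps8 s h (i + K) r ≤ ps8 s 0 (i + (m + k)) r := by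
    intro r hr
    rw [ps8_zero78]
    unfold ps8
    rw [if_neg (by omega)]
  have c3 : ∀ r, r < i + K → ps8 s 0 (i + (m + k)) r ≤ Real.exp |h| * ps8 s h (i + K) r := by
    intro r hr
    rw [ps8_zero78]
    unfold ps8
    rw [if_pos hr, ← Real.exp_add]
    exact Real.exp_le_exp.2 (by have := neg_abs_le h; linarith)
  have c4 : ∀ r, i + K ≤ r → ps8 s 0 (i + (m + k)) r ≤ ps8 s h (i + K) r := by
    intro r hr
    rw [ps8_zero78]
    unfold ps8
    rw [if_neg (by omega)]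
  obtain ⟨E, hE⟩ : ∃ E, E = Real.exp (|h| * ((i + K - i : ℕ) : ℝ)) := ⟨_, rfl⟩
  have hKi : i + K - i = K := by omega
  have hE1 : 1 ≤ E := by rw [hE]; exact Real.one_le_exp (by positivity)
  have hEe : E ≤ Real.exp 1 := by
    rw [hE, hKi]
    exact Real.exp_le_exp.2 hhK
  have hEx : E * E * x ≤ 1 / 2 := by
    refine le_trans (mul_le_mul_of_nonneg_right ?_ hx0) hx
    exact mul_le_mul hEe hEe (by linarith) (Real.exp_pos _).le
  have t1 := DU_cmp hw hp hq hh c1 c2 (k + 1) m i y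
  have t2 := DD_cmp hw hp hq hh c1 c2 (k + 1) m i (y - 1)
  have t3 := bw_cmp hw hq hp hh c3 c4 (m + (k + 1)) i y
  have t4 := bw_cmp hw hq hp hh c3 c4 (m + (k + 1)) i (y - 1)
  rw [← hE] at t1 t2 t3 t4
  exact nbr_det hw hp hu hb0 (hwin.wnd hu hb _) (share78 hE1 t1 t3 s1 hEx (bw_pos hw hp _ _ _).le hx0)
    (share78 hE1 t2 t4 s2 hEx (bw_pos hw hp _ _ _).le hx0)

/-- The number of tilted rows which are seen. -/
theorem ps8_cut78 (η : Env) (M i J : ℕ) (y y' : ℤ) :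
    Real.log (bw (wt η) (ps8 s h M) i (J + 1) y) - Real.log (bw (wt η) (ps8 s h M) i (J + 1) y') =
      Real.log (bw (wt η) (ps8 s h (i + (min M (i + J) - i))) i (J + 1) y) -
        Real.log (bw (wt η) (ps8 s h (i + (min M (i + J) - i))) i (J + 1) y') := by
  refine bw_last_log78 (wt_pos η) (ps8_pos s h _) (ps8_pos s h _) J i y y' fun k h1 h2 => ?_
  unfold ps8
  by_cases hk : k < M
  · rw [if_pos hk, if_pos]
    have : k < min M (i + J) := lt_min hk h2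
    omega
  · rw [if_neg hk, if_neg]
    have : min M (i + J) ≤ M := min_le_left _ _
    omega

/-! ### Probability -/

variable [IsProbabilityMeasure μ] {c C : ℝ} {n₀ : ℕ}

/-- One weight. -/
theorem tail78 (hμ : EM μ) : ∃ B : ℝ, 1 ≤ B ∧ ∀ (a : Pt) (u : ℝ), (law μ).real {η : Env | u < |η a|} ≤ B * Real.exp (-u) := by
  refine ⟨max 1 (∫ x, Real.exp (1 * |x|) ∂μ), le_max_left _ _, fun a u => ?_⟩
  have hm : MeasurePreserving (Function.eval a) (law μ) μ := measurePreserving_eval_infinitePi (fun _ : Pt => μ) a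
  have hs : MeasurableSet {x : ℝ | u < |x|} := measurableSet_lt measurable_const measurable_norm
  have h1 : (law μ).real {η : Env | u < |η a|} = μ.real {x : ℝ | u < |x|} := by
    rw [measureReal_def, measureReal_def]
    congr 1
    exact hm.measure_preimage hs.nullMeasurableSet
  have h2 := mul_meas_ge_le_integral_of_nonneg (μ := μ) (f := fun x : ℝ => Real.exp (1 * |x|))
    (ae_of_all _ fun x => (Real.exp_pos _).le) (hμ 1) (Real.exp u)
  have h3 : μ.real {x : ℝ | u < |x|} ≤ μ.real {x : ℝ | Real.exp u ≤ Real.exp (1 * |x|)} := by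
    refine measureReal_mono (fun x hx => ?_) (measure_ne_top _ _)
    have hx' : u < |x| := hx
    show Real.exp u ≤ Real.exp (1 * |x|)
    rw [one_mul]
    exact Real.exp_le_exp.2 hx'.le
  have h4 : Real.exp u * μ.real {x : ℝ | u < |x|} ≤ ∫ x, Real.exp (1 * |x|) ∂μ :=
    (mul_le_mul_of_nonneg_left h3 (Real.exp_pos u).le).trans h2
  rw [h1]
  have h5 : μ.real {x : ℝ | u < |x|} = Real.exp (-u) * (Real.exp u * μ.real {x : ℝ | u < |x|}) := by
    rw [← mul_assoc, ← Real.exp_add]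
    simp
  rw [h5, mul_comm _ (Real.exp (-u))]
  exact mul_le_mul_of_nonneg_left (h4.trans (le_max_right _ _)) (Real.exp_pos _).le

/-- The weights of the window. -/
theorem wb78 {B : ℝ} (hB : ∀ (a : Pt) (u : ℝ), (law μ).real {η : Env | u < |η a|} ≤ B * Real.exp (-u)) (u : ℝ) (m i : ℕ) (y : ℤ) :
    (law μ).real {η : Env | ¬ Wb u m i y η} ≤ ((m : ℝ) * (m + 2)) * (B * Real.exp (-u)) := by
  obtain ⟨S, hS⟩ : ∃ S : Finset (ℕ × ℤ), S = range m ×ˢ Icc (y - 1) (y + m) := ⟨_, rfl⟩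
  have hsub : {η : Env | ¬ Wb u m i y η} ⊆ ⋃ t ∈ S, {η : Env | u < |η (((i + t.1 : ℕ) : ℤ), t.2)|} := by
    intro η hη
    by_contra hcon
    refine hη fun r hr z hz1 hz2 => ?_
    by_contra h1
    refine hcon (Set.mem_iUnion₂.2 ⟨(r, z), ?_, not_le.1 h1⟩)
    rw [hS, mem_product, mem_range, mem_Icc]
    exact ⟨hr, hz1, by omega⟩
  refine (measureReal_mono hsub (measure_ne_top _ _)).trans ((measureReal_biUnion_finset_le _ _).trans ?_)
  refine (sum_le_sum fun t _ => hB (((i + t.1 : ℕ) : ℤ), t.2) u).trans ?_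
  rw [sum_const, nsmul_eq_mul]
  have hc : (S.card : ℝ) = (m : ℝ) * (m + 2) := by
    rw [hS, card_product, card_range, Int.card_Icc]
    have : (y + m + 1 - (y - 1)).toNat = m + 2 := by omega
    rw [this]
    push_cast
    ring
  rw [hc]

/-- The unit is at least `n ^ (1/16)`. -/
theorem EE_low78 (h : In μ s c C n₀) (hL : LB84 μ s) : ∃ n₁ : ℕ, ∀ n : ℕ, n₁ ≤ n → (n : ℝ) ^ (1 / 16 : ℝ) ≤ EE μ s n := by
  obtain ⟨n₁, h1⟩ := hL (1 / 8) (by norm_num)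
  obtain ⟨n₂, h2⟩ := wd'_eq h
  refine ⟨max (max n₁ n₂) 1, fun n hn => ?_⟩
  have g1 := h1 n ((le_max_left _ _).trans ((le_max_left _ _).trans hn))
  have g2 := (h2 n ((le_max_right _ _).trans ((le_max_left _ _).trans hn))).2.2
  have hn1 : 1 ≤ n := (le_max_right _ _).trans hn
  have hn0 : (0 : ℝ) < n := by exact_mod_cast hn1
  have hE := EE_pos (μ := μ) (s := s) n
  have h3 : (n : ℝ) ^ (1 / 8 : ℝ) * ((n : ℝ) ^ (1 / 16 : ℝ)) ^ 2 ≤ (n : ℝ) ^ (1 / 8 : ℝ) * EE μ s n ^ 2 := by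
    refine le_trans (le_of_eq ?_) (g2.trans g1)
    rw [← Real.rpow_natCast, ← Real.rpow_mul hn0.le, ← Real.rpow_add hn0]
    congr 1
    norm_num
  have h4 : ((n : ℝ) ^ (1 / 16 : ℝ)) ^ 2 ≤ EE μ s n ^ 2 := le_of_mul_le_mul_left h3 (by positivity)
  exact (pow_le_pow_iff_left₀ (by positivity) hE.le (by norm_num)).1 h4

omit [IsProbabilityMeasure μ] in
/-- The extreme sites are not in the window. -/
theorem bd_ext78 {g W K1 a : ℝ} {m K : ℕ} {ε : ℝ} (hg0 : g ≤ sl μ s) (hg1 : g ≤ 1 - sl μ s)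
    (hw : wd' μ s m ≤ K1 * (m : ℝ) ^ (1 - a) * W) (hm : 1 ≤ m) (hlt : (K : ℝ) ^ ε * (K1 * W) < g * (m : ℝ) ^ a) :
    (m : ℤ) ∈ bd μ s K ε m ∧ (0 : ℤ) ∈ bd μ s K ε m := by
  have hm0 : (0 : ℝ) < m := by exact_mod_cast hm
  have e : (m : ℝ) ^ (1 - a) * (m : ℝ) ^ a = m := by
    rw [← Real.rpow_add hm0]
    have : 1 - a + a = 1 := by ring
    rw [this, Real.rpow_one]
  have h1 : (K : ℝ) ^ ε * wd' μ s m < g * m := by
    have h2 : (K : ℝ) ^ ε * wd' μ s m ≤ (K : ℝ) ^ ε * (K1 * (m : ℝ) ^ (1 - a) * W) :=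
      mul_le_mul_of_nonneg_left hw (Real.rpow_nonneg (Nat.cast_nonneg _) _)
    have h3 : (m : ℝ) ^ (1 - a) * ((K : ℝ) ^ ε * (K1 * W)) < (m : ℝ) ^ (1 - a) * (g * (m : ℝ) ^ a) :=
      mul_lt_mul_of_pos_left hlt (by positivity)
    have h4 : (m : ℝ) ^ (1 - a) * (g * (m : ℝ) ^ a) = g * ((m : ℝ) ^ (1 - a) * (m : ℝ) ^ a) := by ring
    rw [e] at h4
    have h5 : (K : ℝ) ^ ε * (K1 * (m : ℝ) ^ (1 - a) * W) = (m : ℝ) ^ (1 - a) * ((K : ℝ) ^ ε * (K1 * W)) := by ring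
    linarith
  rw [mem_bd, mem_bd]
  refine ⟨⟨⟨by omega, le_rfl⟩, ?_⟩, ⟨le_rfl, by omega⟩, ?_⟩
  · rw [not_le]
    have h2 : ((m : ℤ) : ℝ) - sl μ s * m = (1 - sl μ s) * m := by push_cast; ring
    rw [h2]
    have h3 : g * m ≤ (1 - sl μ s) * m := mul_le_mul_of_nonneg_right hg1 hm0.le
    exact lt_of_lt_of_le (lt_of_lt_of_le h1 h3) (le_abs_self _)
  · rw [not_le]
    have h2 : ((0 : ℤ) : ℝ) - sl μ s * m = -(sl μ s * m) := by push_cast; ring
    rw [h2, abs_neg]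
    have h3 : g * m ≤ sl μ s * m := mul_le_mul_of_nonneg_right hg0 hm0.le
    exact lt_of_lt_of_le (lt_of_lt_of_le h1 h3) (le_abs_self _)

theorem num_b78 {D S m : ℝ} (hD : 2 * S + 5 ≤ D) (hS : 0 ≤ S) (hm0 : 0 ≤ m) (hm : m ≤ D + 1) :
    (2 * D + 2 * (S + 1) + 1) * m + 1 ≤ D * D * (D * D) := by
  have h1 : 2 * D + 2 * (S + 1) + 1 ≤ 3 * D := by linarith
  have h2 : m ≤ 2 * D := by linarith
  have h3 := mul_le_mul h1 h2 hm0 (by linarith)
  have h4 : 25 ≤ D * D := by nlinarith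
  obtain ⟨P, hP⟩ : ∃ P : ℝ, P = D * D := ⟨_, rfl⟩
  have h5 : 3 * D * (2 * D) = 6 * P := by rw [hP]; ring
  rw [← hP] at h4 ⊢
  rw [h5] at h3
  nlinarith

theorem num_c78 {D m N : ℝ} (hD : 5 ≤ D) (hm0 : 0 ≤ m) (hm : m ≤ D * D) (hN : D * D * (D * D) ≤ N) : m * (m + 2) ≤ 3 * N := by
  have h4 : 25 ≤ D * D := by nlinarith
  obtain ⟨P, hP⟩ : ∃ P : ℝ, P = D * D := ⟨_, rfl⟩
  rw [← hP] at h4 hm hN
  have h5 := mul_le_mul hm (show m + 2 ≤ P + 2 by linarith) (by linarith) (by linarith)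
  nlinarith

theorem num_d78 : Real.exp (-3) ≤ 1 / 2 ∧ Real.exp 1 * Real.exp 1 * Real.exp (-3) ≤ 1 / 2 := by
  have he1 : (2 : ℝ) ≤ Real.exp 1 := by
    have := Real.add_one_le_exp (1 : ℝ)
    linarith
  have h2 : Real.exp (-1) ≤ 1 / 2 := by
    have h3 : Real.exp 1 * Real.exp (-1) = 1 := by rw [← Real.exp_add]; simp
    have h4 := Real.exp_pos (-1 : ℝ)
    nlinarith
  constructor
  · exact (Real.exp_le_exp.2 (by norm_num)).trans h2
  · rw [← Real.exp_add, ← Real.exp_add]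
    norm_num
    norm_num at h2
    exact h2

/-- **The pointwise estimate.** -/
theorem pt78 (h : In μ s c C n₀) (hL : LB84 μ s) (hU : UB84 μ s) : ∀ dl : ℝ, 0 < dl → ∃ κ : ℝ, 0 < κ ∧ ∃ g : ℝ, 0 < g ∧ ∃ A : ℝ, 0 ≤ A ∧
    ∀ᶠ N : ℕ in atTop, ∀ M : ℕ, M ≤ N → ∀ t : ℝ, |t| * EE μ s N ≤ (N : ℝ) ^ κ → ∀ i j : ℕ, i + j ≤ 4 * N ^ 3 → ∀ y : ℤ,
    (law μ).real {η | (N : ℝ) ^ dl < |Real.log (bw (wt η) (ps8 s t M) i j y) - Real.log (bw (wt η) (ps8 s t M) i j (y - 1))|} ≤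
      A * N * Real.exp (-(N : ℝ) ^ g) := by
  intro dl hdl
  obtain ⟨a₁, K₁, ha₁, ha₁', hK₁, hwp⟩ := wd'_pow h
  obtain ⟨d, hd⟩ : ∃ d : ℝ, d = min dl 1 / 64 := ⟨_, rfl⟩
  have hd0 : 0 < d := by rw [hd]; positivity
  have hd1 : 64 * d ≤ dl := by
    have := min_le_left dl 1
    rw [hd]; linarith
  have hd2 : 64 * d ≤ 1 := by
    have := min_le_right dl 1
    rw [hd]; linarith
  obtain ⟨ε, hε⟩ : ∃ ε : ℝ, ε = d * a₁ / 8 := ⟨_, rfl⟩
  have hε0 : 0 < ε := by rw [hε]; positivity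
  obtain ⟨κ₁, c₁, hκ₁, hc₁, K₀, hcomp⟩ := comp78 h hL hU ε hε0 (4 / d)
  obtain ⟨B, hB1, hB⟩ := tail78 h.em
  obtain ⟨g, hg⟩ : ∃ g : ℝ, g = min (sl μ s) (1 - sl μ s) := ⟨_, rfl⟩
  have hs0 := h.sl_pos
  have hs1 := h.sl_lt
  have hg0 : 0 < g := by
    rw [hg]
    exact lt_min hs0 (by linarith)
  obtain ⟨W, hW⟩ : ∃ W : ℝ, W = wd' μ s 1 := ⟨_, rfl⟩
  have hW1 : 1 ≤ W := by rw [hW]; exact le_max_left _ _
  obtain ⟨κ, hκ⟩ : ∃ κ : ℝ, κ = min (κ₁ * (2 * d)) (1 / 32) := ⟨_, rfl⟩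
  have hκ0 : 0 < κ := by rw [hκ]; positivity
  have hκa : κ ≤ κ₁ * (2 * d) := by rw [hκ]; exact min_le_left _ _
  have hκb : κ ≤ 1 / 32 := by rw [hκ]; exact min_le_right _ _
  obtain ⟨nE, hE⟩ := EE_low78 h hL
  refine ⟨κ, hκ0, min d (d * c₁), by positivity, 3 * B + 2, by linarith, ?_⟩
  have ev1 := ev84 (K₀ : ℝ) hd0
  have ev2 := ev84 (2 * |s| + 5) hd0
  have ev3 := ev84 (K₁ * W / g + 1) (show 0 < d * a₁ / 2 by positivity)
  have ev4 := ev84 3 (show 0 < d * c₁ by positivity)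
  filter_upwards [ev1, ev2, ev3, ev4, eventually_ge_atTop (max nE 4)] with N q1 q2 q3 q4 q5 M hMN t ht i j hij y
  have hNE : nE ≤ N := (le_max_left _ _).trans q5
  have hN4 : 4 ≤ N := (le_max_right _ _).trans q5
  have hNR : (4 : ℝ) ≤ N := by exact_mod_cast hN4
  have hN1 : (1 : ℝ) ≤ N := by linarith
  have hN0 : (0 : ℝ) < N := by linarith
  have hmono : ∀ {x z : ℝ}, x ≤ z → (N : ℝ) ^ x ≤ (N : ℝ) ^ z := fun h => Real.rpow_le_rpow_of_exponent_le hN1 h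
  -- the length
  obtain ⟨D, hD⟩ : ∃ D : ℝ, D = (N : ℝ) ^ d := ⟨_, rfl⟩
  rw [← hD] at q1 q2
  have hs := abs_nonneg s
  have hD5 : 5 ≤ D := by linarith
  obtain ⟨m, hm⟩ : ∃ m : ℕ, m = ⌈D⌉₊ := ⟨_, rfl⟩
  have hm1 : D ≤ m := by rw [hm]; exact Nat.le_ceil _
  have hm2 : (m : ℝ) ≤ D + 1 := by rw [hm]; exact (Nat.ceil_lt_add_one (by linarith)).le
  have hm0 : 1 ≤ m := by
    have : (1 : ℝ) ≤ m := by linarith
    exact_mod_cast this
  have hDD : D * D = (N : ℝ) ^ (2 * d) := by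
    rw [hD, ← Real.rpow_add hN0]
    congr 1
    ring
  have hmDD : (m : ℝ) ≤ D * D := hm2.trans (by nlinarith only [hD5])
  -- the tilt
  have hEN := hE N hNE
  have ht0 := abs_nonneg t
  have htD : |t| * (N : ℝ) ^ (2 * d) ≤ 1 := by
    have h1 : (N : ℝ) ^ κ * (N : ℝ) ^ (2 * d) ≤ EE μ s N := by
      rw [← Real.rpow_add hN0]
      exact (hmono (by linarith)).trans hEN
    have h2 : (N : ℝ) ^ κ * (|t| * (N : ℝ) ^ (2 * d)) ≤ (N : ℝ) ^ κ * 1 := by
      rw [mul_one]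
      refine le_trans (le_of_eq ?_) ((mul_le_mul_of_nonneg_left h1 ht0).trans ht)
      ring
    exact le_of_mul_le_mul_left h2 (by positivity)
  have ht1 : |t| ≤ 1 := by
    have h1 : (1 : ℝ) ≤ (N : ℝ) ^ (2 * d) := Real.one_le_rpow hN1 (by positivity)
    nlinarith
  -- the numbers
  have hu0 : 0 ≤ D := by linarith
  have hbb : |s| + |t| ≤ |s| + 1 := by linarith
  have hfin : (2 * D + 2 * (|s| + 1) + 1) * m + 1 ≤ (N : ℝ) ^ dl := by
    have h3 := num_b78 q2 hs (Nat.cast_nonneg m) hm2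
    have h4 : D * D * (D * D) = (N : ℝ) ^ (4 * d) := by
      rw [hDD, ← Real.rpow_add hN0]
      congr 1
      ring
    rw [h4] at h3
    exact h3.trans (hmono (by linarith))
  -- the extreme sites
  have hN34 : 4 * N ^ 3 ≤ N ^ 4 := by
    have : N ^ 4 = N * N ^ 3 := by ring
    rw [this]
    exact Nat.mul_le_mul_right _ hN4
  have hext : ∀ K : ℕ, K ≤ N ^ 4 → (m : ℤ) ∈ bd μ s K ε m ∧ (0 : ℤ) ∈ bd μ s K ε m := by
    intro K hK
    have hw := (hwp 1 m le_rfl hm0).2.2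
    rw [Nat.cast_one, div_one, ← hW] at hw
    refine bd_ext78 (g := g) (by rw [hg]; exact min_le_left _ _) (by rw [hg]; exact min_le_right _ _) hw hm0 ?_
    have h1 : (K : ℝ) ^ ε ≤ (N : ℝ) ^ (d * a₁ / 2) := by
      have h2 : (K : ℝ) ≤ (N : ℝ) ^ (4 : ℝ) := by
        have : (K : ℝ) ≤ ((N ^ 4 : ℕ) : ℝ) := by exact_mod_cast hK
        refine this.trans (le_of_eq ?_)
        push_cast
        rw [← Real.rpow_natCast]
        norm_num
      have h3 := Real.rpow_le_rpow (Nat.cast_nonneg K) h2 hε0.le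
      rw [← Real.rpow_mul hN0.le] at h3
      refine h3.trans (hmono ?_)
      rw [hε]
      linarith
    have h2 : (N : ℝ) ^ (d * a₁) ≤ (m : ℝ) ^ a₁ := by
      rw [Real.rpow_mul hN0.le, ← hD]
      exact Real.rpow_le_rpow hu0 hm1 ha₁.le
    have h3 : (N : ℝ) ^ (d * a₁) = (N : ℝ) ^ (d * a₁ / 2) * (N : ℝ) ^ (d * a₁ / 2) := by
      rw [← Real.rpow_add hN0]
      congr 1
      ring
    have h4 : K₁ * W < g * (N : ℝ) ^ (d * a₁ / 2) := by
      have h5 : g * (K₁ * W / g + 1) ≤ g * (N : ℝ) ^ (d * a₁ / 2) := mul_le_mul_of_nonneg_left q3 hg0.le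
      have h6 : g * (K₁ * W / g + 1) = K₁ * W + g := by field_simp
      linarith
    have h5 : 0 < (N : ℝ) ^ (d * a₁ / 2) := Real.rpow_pos_of_pos hN0 _
    have h6 : 0 < K₁ * W := mul_pos (by linarith) (by linarith)
    calc (K : ℝ) ^ ε * (K₁ * W) ≤ (N : ℝ) ^ (d * a₁ / 2) * (K₁ * W) := mul_le_mul_of_nonneg_right h1 h6.le
      _ < (N : ℝ) ^ (d * a₁ / 2) * (g * (N : ℝ) ^ (d * a₁ / 2)) := mul_lt_mul_of_pos_left h4 h5
      _ = g * (N : ℝ) ^ (d * a₁) := by rw [h3]; ring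
      _ ≤ g * (m : ℝ) ^ a₁ := mul_le_mul_of_nonneg_left h2 hg0.le
  -- the small number
  have hxle : ∀ K : ℕ, m ≤ K → Real.exp (-(K : ℝ) ^ c₁) ≤ Real.exp (-(N : ℝ) ^ (d * c₁)) := by
    intro K hK
    refine Real.exp_le_exp.2 (neg_le_neg ?_)
    rw [Real.rpow_mul hN0.le, ← hD]
    have : (m : ℝ) ≤ K := by exact_mod_cast hK
    exact Real.rpow_le_rpow hu0 (hm1.trans this) hc₁.le
  have hx3 : Real.exp (-(N : ℝ) ^ (d * c₁)) ≤ Real.exp (-3) := Real.exp_le_exp.2 (neg_le_neg q4)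
  obtain ⟨he2, he3⟩ := num_d78
  have hmK0 : ∀ K : ℕ, m ≤ K → K₀ ≤ K := by
    intro K hK
    have h1 : (K₀ : ℝ) ≤ (m : ℝ) := by linarith
    have h2 : K₀ ≤ m := by exact_mod_cast h1
    exact h2.trans hK
  -- the final count
  have hcount : ((m : ℝ) * (m + 2)) * (B * Real.exp (-D)) + 2 * Real.exp (-(N : ℝ) ^ (d * c₁)) ≤
      (3 * B + 2) * N * Real.exp (-(N : ℝ) ^ (min d (d * c₁))) := by
    obtain ⟨Q, hQ⟩ : ∃ Q : ℝ, Q = Real.exp (-(N : ℝ) ^ (min d (d * c₁))) := ⟨_, rfl⟩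
    rw [← hQ]
    have hQ0 : 0 < Q := by rw [hQ]; exact Real.exp_pos _
    have h1 : Real.exp (-D) ≤ Q := by
      rw [hQ, hD]
      exact Real.exp_le_exp.2 (neg_le_neg (hmono (min_le_left _ _)))
    have h2 : Real.exp (-(N : ℝ) ^ (d * c₁)) ≤ Q := by
      rw [hQ]
      exact Real.exp_le_exp.2 (neg_le_neg (hmono (min_le_right _ _)))
    have h3 : (m : ℝ) * (m + 2) ≤ 3 * N := by
      have h4 : D * D * (D * D) ≤ N := by
        have h5 : D * D * (D * D) = (N : ℝ) ^ (4 * d) := by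
          rw [hDD, ← Real.rpow_add hN0]
          congr 1
          ring
        rw [h5]
        calc (N : ℝ) ^ (4 * d) ≤ (N : ℝ) ^ (1 : ℝ) := hmono (by linarith)
          _ = N := Real.rpow_one _
      exact num_c78 hD5 (Nat.cast_nonneg m) hmDD h4
    have h4 : ((m : ℝ) * (m + 2)) * (B * Real.exp (-D)) ≤ 3 * N * (B * Q) :=
      mul_le_mul h3 (mul_le_mul_of_nonneg_left h1 (by linarith)) (by positivity) (by positivity)
    have h5 : 2 * Real.exp (-(N : ℝ) ^ (d * c₁)) ≤ 2 * (N * Q) := by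
      have : Q ≤ N * Q := le_mul_of_one_le_left hQ0.le hN1
      linarith
    linarith
  have hWb := wb78 hB D m i y
  rcases le_or_gt j m with hjm | hjm
  · -- few rows left
    refine le_trans (measureReal_mono ?_ (measure_ne_top _ _)) (hWb.trans (le_trans ?_ hcount))
    · intro η hη hcon
      have h1 := nbr_few (wt_pos η) (ps8_pos s t M) hu0 (by linarith : 0 ≤ |s| + 1) ((hcon.wnd hu0 hbb M).mono hjm)
      have h2 : (2 * D + 2 * (|s| + 1) + 1) * (j : ℝ) ≤ (2 * D + 2 * (|s| + 1) + 1) * m :=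
        mul_le_mul_of_nonneg_left (by exact_mod_cast hjm) (by linarith)
      have h3 : (N : ℝ) ^ dl < |Real.log (bw (wt η) (ps8 s t M) i j y) - Real.log (bw (wt η) (ps8 s t M) i j (y - 1))| := hη
      linarith
    · have := Real.exp_pos (-(N : ℝ) ^ (d * c₁))
      linarith
  · obtain ⟨J, rfl⟩ : ∃ J : ℕ, j = J + 1 := ⟨j - 1, by omega⟩
    have hmJ : m ≤ J := by omega
    obtain ⟨K, hK⟩ : ∃ K : ℕ, K = min M (i + J) - i := ⟨_, rfl⟩
    have hKJ : K ≤ J := by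
      have := min_le_right M (i + J)
      omega
    have hKN : K ≤ N := by
      have := min_le_left M (i + J)
      omega
    have hJN : J ≤ N ^ 4 := by omega
    rcases le_or_gt ((N : ℝ) ^ (2 * d)) (K : ℝ) with hc | hc
    · -- many tilted rows
      have hmK : m ≤ K := by
        have : (m : ℝ) ≤ K := by rw [← hDD] at hc; linarith only [hc, hmDD]
        exact_mod_cast this
      obtain ⟨L, hLd⟩ : ∃ L : ℕ, L = J - K := ⟨_, rfl⟩
      have hJe : J + 1 = K + L + 1 := by omega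
      have hDK : D ≤ K := by
        have : (m : ℝ) ≤ K := by exact_mod_cast hmK
        linarith
      have hLp : (L : ℝ) ≤ (K : ℝ) ^ (4 / d) := by
        have h1 : (L : ℝ) ≤ (N : ℝ) ^ (4 : ℝ) := by
          have h2 : L ≤ N ^ 4 := by omega
          have : (L : ℝ) ≤ ((N ^ 4 : ℕ) : ℝ) := by exact_mod_cast h2
          refine this.trans (le_of_eq ?_)
          push_cast
          rw [← Real.rpow_natCast]
          norm_num
        have h3 := Real.rpow_le_rpow hu0 hDK (show 0 ≤ 4 / d by positivity)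
        rw [hD, ← Real.rpow_mul hN0.le, show d * (4 / d) = 4 by field_simp] at h3
        exact h1.trans h3
      have htK : |t| * EE μ s K ≤ (K : ℝ) ^ κ₁ := by
        have h1 : |t| * EE μ s K ≤ |t| * EE μ s N := mul_le_mul_of_nonneg_left (EE_mono hKN) ht0
        have h2 := Real.rpow_le_rpow (by positivity) hc hκ₁.le
        rw [← Real.rpow_mul hN0.le] at h2
        exact h1.trans (ht.trans ((hmono (by linarith)).trans h2))
      have p1 := hcomp K (hmK0 K hmK) L hLp m (K - m) hm0 (by omega) t htK ((i : ℤ), y)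
      have p2 := hcomp K (hmK0 K hmK) L hLp m (K - m) hm0 (by omega) t htK ((i : ℤ), y - 1)
      obtain ⟨e1, e2⟩ := hext K (hKJ.trans hJN)
      have hx := hxle K hmK
      have hsub : {η : Env | (N : ℝ) ^ dl < |Real.log (bw (wt η) (ps8 s t M) i (J + 1) y) -
          Real.log (bw (wt η) (ps8 s t M) i (J + 1) (y - 1))|} ⊆ {η : Env | ¬ Wb D m i y η} ∪
          ({η : Env | ¬ QV μ s t η ((i : ℤ), y) m (K - m) L (bd μ s K ε m) ≤
            Real.exp (-(K : ℝ) ^ c₁) * Real.exp (TG μ s t K L η ((i : ℤ), y))} ∪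
           {η : Env | ¬ QV μ s t η ((i : ℤ), y - 1) m (K - m) L (bd μ s K ε m) ≤
            Real.exp (-(K : ℝ) ^ c₁) * Real.exp (TG μ s t K L η ((i : ℤ), y - 1))}) := by
        intro η hη
        by_contra hcon
        simp only [Set.mem_union, not_or] at hcon
        obtain ⟨n1, n2, n3⟩ := hcon
        have h3 : (N : ℝ) ^ dl < |Real.log (bw (wt η) (ps8 s t M) i (J + 1) y) -
          Real.log (bw (wt η) (ps8 s t M) i (J + 1) (y - 1))| := hη
        rw [ps8_cut78, ← hK, hJe] at h3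
        have h4 := pt_many78 η hmK hu0 hbb ((hx.trans hx3).trans he2)
          (not_not.1 n1) e1 e2 (not_not.1 n2) (not_not.1 n3)
        linarith
      refine (measureReal_mono hsub (measure_ne_top _ _)).trans ((measureReal_union_le _ _).trans (le_trans (add_le_add hWb
        ((measureReal_union_le _ _).trans (add_le_add p1 p2))) (le_trans ?_ hcount)))
      linarith
    · -- few tilted rows
      have hhK : |t| * (K : ℝ) ≤ 1 := (mul_le_mul_of_nonneg_left hc.le ht0).trans htD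
      have p1 := hcomp J (hmK0 J hmJ) 0 (by simp; positivity) m (J - m) hm0 (by omega) 0 (by simp; positivity) ((i : ℤ), y)
      have p2 := hcomp J (hmK0 J hmJ) 0 (by simp; positivity) m (J - m) hm0 (by omega) 0 (by simp; positivity) ((i : ℤ), y - 1)
      obtain ⟨e1, e2⟩ := hext J hJN
      have hx := hxle J hmJ
      have hx' : Real.exp 1 * Real.exp 1 * Real.exp (-(J : ℝ) ^ c₁) ≤ 1 / 2 :=
        (mul_le_mul_of_nonneg_left (hx.trans hx3) (by positivity)).trans he3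
      have hsub : {η : Env | (N : ℝ) ^ dl < |Real.log (bw (wt η) (ps8 s t M) i (J + 1) y) -
          Real.log (bw (wt η) (ps8 s t M) i (J + 1) (y - 1))|} ⊆ {η : Env | ¬ Wb D m i y η} ∪
          ({η : Env | ¬ QV μ s 0 η ((i : ℤ), y) m (J - m) 0 (bd μ s J ε m) ≤
            Real.exp (-(J : ℝ) ^ c₁) * Real.exp (TG μ s 0 J 0 η ((i : ℤ), y))} ∪
           {η : Env | ¬ QV μ s 0 η ((i : ℤ), y - 1) m (J - m) 0 (bd μ s J ε m) ≤
            Real.exp (-(J : ℝ) ^ c₁) * Real.exp (TG μ s 0 J 0 η ((i : ℤ), y - 1))}) := by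
        intro η hη
        by_contra hcon
        simp only [Set.mem_union, not_or] at hcon
        obtain ⟨n1, n2, n3⟩ := hcon
        have h3 : (N : ℝ) ^ dl < |Real.log (bw (wt η) (ps8 s t M) i (J + 1) y) -
          Real.log (bw (wt η) (ps8 s t M) i (J + 1) (y - 1))| := hη
        rw [ps8_cut78, ← hK] at h3
        have h4 := pt_few78 η hmJ hu0 hbb (Real.exp_pos _).le hhK hx'
          (not_not.1 n1) e1 e2 (not_not.1 n2) (not_not.1 n3)
        linarith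
      refine (measureReal_mono hsub (measure_ne_top _ _)).trans ((measureReal_union_le _ _).trans (le_trans (add_le_add hWb
        ((measureReal_union_le _ _).trans (add_le_add p1 p2))) (le_trans ?_ hcount)))
      linarith

/-- **NEIGHBOURING SITES.** -/
theorem nbr78 (h : In μ s c C n₀) (hL : LB84 μ s) (hU : UB84 μ s) : Nbr56 μ s := by
  intro dl hdl
  obtain ⟨κ, hκ, g, hg, A, hA, hpt⟩ := pt78 h hL hU dl hdl
  have ev1 := Pool.Agent.W_7d29a1_HZ.Z22.absorb (75 * A) 11 (b := 1) (g := g) one_pos hg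
  refine ⟨κ, hκ, g / 2, by positivity, ?_⟩
  filter_upwards [hpt, ev1, eventually_ge_atTop 1] with N q1 q2 hN M hM t ht
  have hNR : (1 : ℝ) ≤ N := by exact_mod_cast hN
  have hN0 : (0 : ℝ) < N := by linarith
  obtain ⟨S, hS⟩ : ∃ S : Finset (ℕ × (ℕ × ℤ)), S = range (4 * N ^ 3 + 1) ×ˢ (range (4 * N ^ 3 + 1) ×ˢ Icc (-(N : ℤ) ^ 4) ((N : ℤ) ^ 4)) :=
    ⟨_, rfl⟩
  obtain ⟨F, hF⟩ : ∃ F : ℕ × (ℕ × ℤ) → Set Env, F = fun r => {η : Env | r.1 + r.2.1 ≤ 4 * N ^ 3 ∧ (N : ℝ) ^ dl <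
    |Real.log (bw (wt η) (ps8 s t M) r.1 r.2.1 r.2.2) - Real.log (bw (wt η) (ps8 s t M) r.1 r.2.1 (r.2.2 - 1))|} := ⟨_, rfl⟩
  have hsub : {η : Env | ∃ i j : ℕ, i + j ≤ 4 * N ^ 3 ∧ ∃ y : ℤ, |y| ≤ (N : ℤ) ^ 4 ∧
      (N : ℝ) ^ dl < |Real.log (bw (wt η) (pN s t M) i j y) - Real.log (bw (wt η) (pN s t M) i j (y - 1))|} ⊆ ⋃ r ∈ S, F r := by
    rintro η ⟨i, j, hij, y, hy, hlt⟩
    refine Set.mem_iUnion₂.2 ⟨(i, (j, y)), ?_, ?_⟩
    · rw [hS, mem_product, mem_product, mem_range, mem_range, mem_Icc]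
      have := abs_le.1 hy
      exact ⟨by show i < _; omega, by show j < _; omega, this.1, this.2⟩
    · rw [hF]
      exact ⟨hij, hlt⟩
  refine (measureReal_mono hsub (measure_ne_top _ _)).trans ((measureReal_biUnion_finset_le _ _).trans ?_)
  have h1 : ∀ r ∈ S, (law μ).real (F r) ≤ A * N * Real.exp (-(N : ℝ) ^ g) := by
    intro r _
    rw [hF]
    by_cases hr : r.1 + r.2.1 ≤ 4 * N ^ 3
    · refine le_trans (measureReal_mono ?_ (measure_ne_top _ _)) (q1 M hM t ht r.1 r.2.1 hr r.2.2)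
      intro η hη
      exact hη.2
    · have : {η : Env | r.1 + r.2.1 ≤ 4 * N ^ 3 ∧ (N : ℝ) ^ dl < |Real.log (bw (wt η) (ps8 s t M) r.1 r.2.1 r.2.2) -
          Real.log (bw (wt η) (ps8 s t M) r.1 r.2.1 (r.2.2 - 1))|} = ∅ := by
        ext η
        simp [hr]
      beta_reduce
      rw [this, measureReal_empty]
      positivity
  refine (sum_le_sum h1).trans ?_
  rw [sum_const, nsmul_eq_mul]
  have hcard : (S.card : ℝ) ≤ 75 * (N : ℝ) ^ 10 := by
    rw [hS, card_product, card_product, card_range, Int.card_Icc]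
    have e : ((N : ℤ) ^ 4 + 1 - (-(N : ℤ) ^ 4)).toNat = 2 * N ^ 4 + 1 := by
      have h2 : (N : ℤ) ^ 4 + 1 - (-(N : ℤ) ^ 4) = ((2 * N ^ 4 + 1 : ℕ) : ℤ) := by
        push_cast
        ring
      rw [h2, Int.toNat_natCast]
    rw [e]
    push_cast
    have h3 : (1 : ℝ) ≤ (N : ℝ) ^ 3 := one_le_pow₀ hNR
    have h4 : (1 : ℝ) ≤ (N : ℝ) ^ 4 := one_le_pow₀ hNR
    have h5 : 4 * (N : ℝ) ^ 3 + 1 ≤ 5 * (N : ℝ) ^ 3 := by linarith
    have h6 : 2 * (N : ℝ) ^ 4 + 1 ≤ 3 * (N : ℝ) ^ 4 := by linarith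
    have h7 : (4 * (N : ℝ) ^ 3 + 1) * ((4 * (N : ℝ) ^ 3 + 1) * (2 * (N : ℝ) ^ 4 + 1)) ≤
        (5 * (N : ℝ) ^ 3) * ((5 * (N : ℝ) ^ 3) * (3 * (N : ℝ) ^ 4)) := by gcongr
    refine h7.trans (le_of_eq ?_)
    ring
  have h2 : (S.card : ℝ) * (A * N * Real.exp (-(N : ℝ) ^ g)) ≤ 75 * (N : ℝ) ^ 10 * (A * N * Real.exp (-(N : ℝ) ^ g)) :=
    mul_le_mul_of_nonneg_right hcard (by positivity)
  refine h2.trans (le_trans (le_of_eq ?_) q2)
  have e : (N : ℝ) ^ (11 : ℝ) = (N : ℝ) ^ 10 * N := by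
    rw [show (11 : ℝ) = ((11 : ℕ) : ℝ) by norm_num, Real.rpow_natCast]
    ring
  rw [e, one_mul]
  ring

end

end Pool.Agent.W_7d29a1_C1.Nbr78
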