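import Pool.Agent.W_7d29a1_C1.DepT6

/-!
MP_7d29a1_pr, the attractor route: THE STEEP LEVELS AT ALL BASES AT ONCE. (helper6)

`sum_exp6` : `∑ exp (- c (1 + n) ^ p) < ∞`. `fat_tail6` : if every event of a family over `k : ℤ` has the tail `A exp (- a q ^ g)` then
`⋂ k, E k (q (1 + |k|) ^ e)` has the tail `A' exp (- a' q ^ g)`. `stF6` : the steep level `StE84` at all the bases `ce + k wd n`, with the
level `q (1 + |k|) ^ e`; `stF_fam` : a family of levels; `stF_line` : a base near any place at the distance `R ^ l wd n`.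
-/

set_option autoImplicit false

namespace Pool.Agent.W_7d29a1_C1.Dep6

open MeasureTheory ProbabilityTheory Finset
open Pool.Agent.W_7d29a1_F Pool.Agent.W_7d29a1_h4g Pool.Agent.W_7d29a1_H Pool.Agent.W_7d29a1_HS
open Pool.Agent.W_7d29a1_C1.H75 Pool.Agent.W_7d29a1_C1.U16 Pool.Agent.W_7d29a1_C1.H40
open scoped ENNReal

noncomputable section

/-- A stretched exponential is summable. -/
theorem sum_exp6 {c p : ℝ} (hc : 0 < c) (hp : 0 < p) : Summable fun n : ℕ => Real.exp (-(c * (1 + n : ℝ) ^ p)) := by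
  obtain ⟨j, hj⟩ := exists_nat_ge (2 / p)
  have hj2 : 2 ≤ (j : ℝ) * p := by rwa [div_le_iff₀ hp] at hj
  have h1 : Summable fun n : ℕ => (j.factorial : ℝ) / c ^ j * (1 / ((n : ℝ) + 1) ^ 2) := by
    have h2 := (summable_nat_add_iff (f := fun n : ℕ => (1 : ℝ) / (n : ℝ) ^ 2) 1).2 (Real.summable_one_div_nat_pow.2 (by norm_num))
    refine (h2.congr fun n => ?_).mul_left _
    push_cast
    rfl
  refine Summable.of_nonneg_of_le (fun n => (Real.exp_pos _).le) (fun n => ?_) h1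
  have hn : (1 : ℝ) ≤ 1 + n := by have : (0 : ℝ) ≤ n := Nat.cast_nonneg n; linarith
  have hn0 : (0 : ℝ) < 1 + n := by linarith
  obtain ⟨y, hy⟩ : ∃ y : ℝ, y = c * (1 + n : ℝ) ^ p := ⟨_, rfl⟩
  have hy0 : 0 < y := by rw [hy]; positivity
  have h3 := Real.pow_div_factorial_le_exp y hy0.le j
  have h4 : c ^ j * (1 + n : ℝ) ^ 2 ≤ y ^ j := by
    rw [hy, mul_pow]
    refine mul_le_mul_of_nonneg_left ?_ (by positivity)
    rw [← Real.rpow_natCast ((1 + n : ℝ) ^ p) j, ← Real.rpow_mul hn0.le, ← Real.rpow_natCast (1 + n : ℝ) 2]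
    refine Real.rpow_le_rpow_of_exponent_le hn ?_
    push_cast
    linarith [mul_comm p (j : ℝ)]
  rw [← hy]
  have hf : (0 : ℝ) < j.factorial := by exact_mod_cast j.factorial_pos
  have h5 : c ^ j * (1 + n : ℝ) ^ 2 / j.factorial ≤ Real.exp y := (div_le_div_of_nonneg_right h4 hf.le).trans h3
  have h6 : 0 < c ^ j * (1 + n : ℝ) ^ 2 := by positivity
  rw [Real.exp_neg]
  have h7 : (Real.exp y)⁻¹ ≤ (c ^ j * (1 + n : ℝ) ^ 2 / j.factorial)⁻¹ := inv_anti₀ (by positivity) h5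
  refine h7.trans (le_of_eq ?_)
  have : ((n : ℝ) + 1) = 1 + n := by ring
  rw [this]
  field_simp

/-- **The tail of all the bases at once.** -/
theorem fat_tail6 {A a g e : ℝ} (hA : 0 < A) (ha : 0 < a) (hg : 0 < g) (he : 0 < e) : ∃ A' : ℝ, 0 < A' ∧
    ∀ {Ω : Type*} [MeasurableSpace Ω] {P : Measure Ω} [IsProbabilityMeasure P] (E : ℤ → ℝ → Set Ω),
      (∀ k q, 0 ≤ q → P (E k q)ᶜ ≤ ENNReal.ofReal (A * Real.exp (-(a * q ^ g)))) →
        ∀ q, 0 ≤ q → P (⋂ k, E k (q * (1 + |(k : ℝ)|) ^ e))ᶜ ≤ ENNReal.ofReal (A' * Real.exp (-(a / 2 * q ^ g))) := by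
  obtain ⟨S, hS⟩ : ∃ S : ℝ, S = ∑' n : ℕ, Real.exp (-(a / 2 * (1 + n : ℝ) ^ (e * g))) := ⟨_, rfl⟩
  have hsum := sum_exp6 (c := a / 2) (p := e * g) (by positivity) (by positivity)
  have hS0 : 0 ≤ S := by rw [hS]; exact tsum_nonneg fun n => (Real.exp_pos _).le
  refine ⟨2 * A * S + Real.exp (a / 2), by positivity, fun {Ω} _ {P} _ E hE q hq => ?_⟩
  rcases le_total q 1 with h1 | h1
  · refine prob_le_one.trans ?_
    rw [← ENNReal.ofReal_one]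
    refine ENNReal.ofReal_le_ofReal ?_
    have h2 : q ^ g ≤ 1 := Real.rpow_le_one hq h1 hg.le
    have h3 : 1 ≤ Real.exp (a / 2) * Real.exp (-(a / 2 * q ^ g)) := by
      rw [← Real.exp_add]
      exact Real.one_le_exp (by nlinarith)
    have h4 : 0 ≤ 2 * A * S * Real.exp (-(a / 2 * q ^ g)) := by positivity
    nlinarith
  · have hsub : (⋂ k, E k (q * (1 + |(k : ℝ)|) ^ e))ᶜ ⊆
        ⋃ n : ℕ, ((E n (q * (1 + (n : ℝ)) ^ e))ᶜ ∪ (E (-(n : ℤ)) (q * (1 + (n : ℝ)) ^ e))ᶜ) := by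
      intro ω hω
      rw [Set.mem_compl_iff, Set.mem_iInter, not_forall] at hω
      obtain ⟨k, hk⟩ := hω
      rw [Set.mem_iUnion]
      refine ⟨k.natAbs, ?_⟩
      have e1 : |(k : ℝ)| = (k.natAbs : ℝ) := by rw [Nat.cast_natAbs]; push_cast; rfl
      rw [e1] at hk
      rcases Int.natAbs_eq k with h | h
      · left
        rw [Set.mem_compl_iff]
        rwa [← h]
      · right
        rw [Set.mem_compl_iff]
        rwa [← h]
    have hterm : ∀ n : ℕ, P ((E n (q * (1 + (n : ℝ)) ^ e))ᶜ ∪ (E (-(n : ℤ)) (q * (1 + (n : ℝ)) ^ e))ᶜ) ≤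
        ENNReal.ofReal (2 * A * Real.exp (-(a / 2 * q ^ g)) * Real.exp (-(a / 2 * (1 + n : ℝ) ^ (e * g)))) := by
      intro n
      have hn0 : (0 : ℝ) < 1 + n := by positivity
      have hn1 : (1 : ℝ) ≤ (1 + n : ℝ) ^ (e * g) :=
        Real.one_le_rpow (by have : (0 : ℝ) ≤ n := Nat.cast_nonneg n; linarith) (by positivity)
      have hq1 : 1 ≤ q ^ g := Real.one_le_rpow h1 hg.le
      have hx : (q * (1 + (n : ℝ)) ^ e) ^ g = q ^ g * (1 + n : ℝ) ^ (e * g) := by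
        rw [Real.mul_rpow hq (by positivity), ← Real.rpow_mul hn0.le]
      have hb : A * Real.exp (-(a * (q * (1 + (n : ℝ)) ^ e) ^ g)) ≤
          A * (Real.exp (-(a / 2 * q ^ g)) * Real.exp (-(a / 2 * (1 + n : ℝ) ^ (e * g)))) := by
        rw [hx, ← Real.exp_add]
        refine mul_le_mul_of_nonneg_left (Real.exp_le_exp.2 ?_) hA.le
        nlinarith [mul_nonneg (sub_nonneg.2 hn1) (sub_nonneg.2 hq1)]
      have hu := hE n (q * (1 + (n : ℝ)) ^ e) (by positivity)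
      have hv := hE (-(n : ℤ)) (q * (1 + (n : ℝ)) ^ e) (by positivity)
      refine (measure_union_le _ _).trans ((add_le_add hu hv).trans ?_)
      rw [← ENNReal.ofReal_add (by positivity) (by positivity)]
      refine ENNReal.ofReal_le_ofReal ?_
      linarith
    refine (measure_mono hsub).trans ((measure_iUnion_le _).trans ((ENNReal.tsum_le_tsum hterm).trans ?_))
    rw [← ENNReal.ofReal_tsum_of_nonneg (fun n => by positivity) (hsum.mul_left _), tsum_mul_left, ← hS]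
    refine ENNReal.ofReal_le_ofReal ?_
    have h4 : 0 ≤ Real.exp (a / 2) * Real.exp (-(a / 2 * q ^ g)) := by positivity
    nlinarith

/-! ### The steep level at all the bases -/

variable {Λ : Type*} {μ : Measure ℝ} {s c C : ℝ} {n₀ : ℕ}

/-- **The steep level of a layer at all the bases.** -/
def stF6 (μ : Measure ℝ) (s B₁ B₂ δ θ Lm : ℝ) (n₁ : ℕ) (Hf : Cut Λ → Cut Λ → ℕ) (Wg : Cut Λ → ℤ) (ce : Cut Λ → Cut Λ → ℝ) (e : ℝ)
    (a b : Cut Λ) (q : ℝ) : Set Env :=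
  ⋂ k : ℤ, stS μ s B₁ B₂ δ θ Lm n₁ Hf Wg (fun x y => ce x y + k * wd μ s (Hf x y)) a b (q * (1 + |(k : ℝ)|) ^ e)

/-- **The steep levels at all the bases are a family.** -/
theorem stF_fam [IsProbabilityMeasure μ] (h : In μ s c C n₀) {θ : ℝ} (hθ : 0 < θ) : ∃ D δ : ℝ, 1 ≤ D ∧ 0 < δ ∧
    ∀ B₁ B₂ Lm e : ℝ, 1 ≤ B₁ → 2 ≤ B₂ → D ≤ B₂ → 1 ≤ Lm → 0 < e → ∃ (A a g : ℝ) (n₁ : ℕ), 0 < A ∧ 0 < a ∧ 0 < g ∧ 1 ≤ n₁ ∧
      ∀ {Λ : Type*} (Hf : Cut Λ → Cut Λ → ℕ) (Wg : Cut Λ → ℤ) (ce : Cut Λ → Cut Λ → ℝ),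
        LvF μ A a g (stF6 μ s B₁ B₂ δ θ Lm n₁ Hf Wg ce e) := by
  obtain ⟨D, δ, hD, hδ, H⟩ := st_fam h hθ
  refine ⟨D, δ, hD, hδ, fun B₁ B₂ Lm e hB₁ hB₂ hDB hL he => ?_⟩
  obtain ⟨A, a, g, n₁, hA, ha, hg, hn1, X⟩ := H B₁ B₂ Lm hB₁ hB₂ hDB hL
  obtain ⟨A', hA', Y⟩ := fat_tail6 hA ha hg he
  have hP : IsProbabilityMeasure (law μ) := by unfold law; infer_instance
  refine ⟨A', a / 2, g, n₁, hA', by positivity, hg, hn1, fun Hf Wg ce => ⟨fun x y q q' hq => ?_, fun x y q => ?_,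
    fun x y q η η' hh => ?_, fun x y q hq => ?_⟩⟩
  · exact Set.iInter_mono fun k => (X Hf Wg _).mono x y (mul_le_mul_of_nonneg_right hq (by positivity))
  · exact MeasurableSet.iInter fun k => (X Hf Wg _).meas x y _
  · unfold stF6
    simp only [Set.mem_iInter]
    exact forall_congr' fun k => (X Hf Wg _).rows x y _ η η' hh
  · exact Y (fun k q => stS μ s B₁ B₂ δ θ Lm n₁ Hf Wg (fun x y => ce x y + k * wd μ s (Hf x y)) x y q)
      (fun k q hq => (X Hf Wg _).tail x y q hq) q hq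

/-- **A base near any place.** -/
theorem stF_line {B₁ B₂ δ θ Lm e q R Th : ℝ} {n₁ : ℕ} {Hf : Cut Λ → Cut Λ → ℕ} {Wg : Cut Λ → ℤ} {ce : Cut Λ → Cut Λ → ℝ}
    {a b : Cut Λ} {η : Env} {l : ℕ} [IsProbabilityMeasure μ] (hB₂ : 0 ≤ B₂) (hw : 0 < wd μ s (Hf a b)) (hR : 1 ≤ R) (he : 0 ≤ e)
    (he1 : e ≤ 1) (hRe : R ^ e ≤ Th) (hq : 0 ≤ q) (h : η ∈ stF6 μ s B₁ B₂ δ θ Lm n₁ Hf Wg ce e a b q)
    (hs : StOk μ s θ Lm n₁ (Hf a b) (nR a b) (Wg a) (Wg b)) {β : ℝ} (hβ : |β - ce a b| ≤ R ^ l * wd μ s (Hf a b)) :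
    ∃ β' : ℝ, |β' - β| ≤ wd μ s (Hf a b) ∧
      η ∈ DD84.StE84 μ s B₁ B₂ δ (Hf a b) (nR a b) (Wg a) (Wg b) a.row β' (3 * q * Th ^ l) := by
  obtain ⟨w, hwd⟩ : ∃ w : ℝ, w = wd μ s (Hf a b) := ⟨_, rfl⟩
  rw [← hwd] at hw hβ ⊢
  obtain ⟨k, hk⟩ : ∃ k : ℤ, k = ⌊(β - ce a b) / w⌋ := ⟨_, rfl⟩
  have f1 : (k : ℝ) ≤ (β - ce a b) / w := by rw [hk]; exact Int.floor_le _
  have f2 : (β - ce a b) / w < k + 1 := by rw [hk]; exact Int.lt_floor_add_one _
  rw [le_div_iff₀ hw] at f1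
  rw [div_lt_iff₀ hw] at f2
  have hRl : 1 ≤ R ^ l := one_le_pow₀ hR
  have hb := abs_le.1 hβ
  have hka : |(k : ℝ)| ≤ R ^ l + 1 := by
    rw [abs_le]
    constructor
    · by_contra hc
      have : (k : ℝ) + 1 < -(R ^ l) := by linarith [not_le.1 hc]
      nlinarith
    · by_contra hc
      have : R ^ l < (k : ℝ) := by linarith [not_le.1 hc]
      nlinarith
  refine ⟨ce a b + k * w, by rw [abs_le]; constructor <;> linarith, ?_⟩
  have h1 := Set.mem_iInter.1 h k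
  have h2 := stS_good h1 hs
  rw [← hwd] at h2
  refine DD84.StE84_mono hB₂ ?_ h2
  have h3 : (1 + |(k : ℝ)|) ^ e ≤ 3 * Th ^ l := by
    have h4 : (1 + |(k : ℝ)|) ^ e ≤ (3 * R ^ l) ^ e := Real.rpow_le_rpow (by positivity) (by linarith) he
    have h5 : (3 * R ^ l) ^ e = 3 ^ e * (R ^ e) ^ l := by
      rw [Real.mul_rpow (by norm_num) (by positivity), ← Real.rpow_natCast R l, ← Real.rpow_mul (by linarith), mul_comm,
        ← Real.rpow_natCast (R ^ e) l, ← Real.rpow_mul (by linarith), mul_comm (l : ℝ) e, mul_comm]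
    have h6 : (3 : ℝ) ^ e ≤ 3 := by
      calc (3 : ℝ) ^ e ≤ 3 ^ (1 : ℝ) := Real.rpow_le_rpow_of_exponent_le (by norm_num) he1
        _ = 3 := Real.rpow_one 3
    have h7 : (R ^ e) ^ l ≤ Th ^ l := pow_le_pow_left₀ (by positivity) hRe l
    rw [h5] at h4
    exact h4.trans (mul_le_mul h6 h7 (by positivity) (by norm_num))
  calc q * (1 + |(k : ℝ)|) ^ e ≤ q * (3 * Th ^ l) := mul_le_mul_of_nonneg_left h3 hq
    _ = 3 * q * Th ^ l := by ring

end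

end Pool.Agent.W_7d29a1_C1.Dep6
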