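import Pool.Agent.W_7d29a1_C1.D2G16
import Pool.Agent.W_7d29a1_C1.TamO16
import Pool.Agent.W_7d29a1_C1.Ctx60

/-!
MP_7d29a1_pr, [C1] attractor route, TAME: THE CRUDE (D2) FOR A CONTEXT. (helper16)

`CrY16` : the crude comparison of the backward masses at all the rows of a box, the far place free in `ℤ` (`crY80`, helper80).
`topC16` : for an admissible context, off an event of probability `exp (-n ^ c')`, (D2) holds at every row, in the unit of every scale `t`,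
`n ^ e₀ ≤ t ≤ n ^ (1 / 4)`, with the constant `n ^ e₁` and every slope, for every switch row `M' ≤ Γ.M`.
-/

set_option autoImplicit false

namespace Pool.Agent.W_7d29a1_C1.U16

open MeasureTheory ProbabilityTheory Filter Topology Finset
open Pool.Agent.W_7d29a1_F Pool.Agent.W_7d29a1_h4g Pool.Agent.W_7d29a1_H Pool.Agent.W_7d29a1_HS
open Pool.Agent.W_7d29a1_C1.Win84
open Pool.Agent.W_7d29a1_C1.H60 (Cx Adm)

noncomputable section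

variable {μ : Measure ℝ} {s c C : ℝ} {n₀ : ℕ}

/-- **The crude comparison** of a box of `N` rows with at most `Nf` rows of the force. -/
def CrY16 (μ : Measure ℝ) (s : ℝ) : Prop := ∀ ε τ : ℝ, 0 < ε → 0 < τ → ∃ κ c' : ℝ, 0 < κ ∧ 0 < c' ∧ ∃ N₀ : ℕ, ∀ N Nf T : ℕ, N₀ ≤ N →
  (N : ℝ) ^ τ ≤ T → T ≤ N → ∀ t : ℝ, |t| * EE μ s Nf ≤ (N : ℝ) ^ κ → ∃ G : Set Env, (law μ).real Gᶜ ≤ Real.exp (-(N : ℝ) ^ c') ∧
    ∀ η ∈ G, ∀ (M Nt : ℕ) (p : ℕ → ℝ), M ≤ Nf → M + 1 ≤ Nt → Nt ≤ N → (∀ k, k < M → p k = Real.exp (s + t)) →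
      (∀ k, M ≤ k → p k = Real.exp s) → ∀ a : ℕ, a + 1 ≤ Nt → (T ≤ M - a ∨ |t| * ((M - a : ℕ) : ℝ) ≤ 1) → ∀ x x' : ℤ, |x'| ≤ 4 * N →
      bh16 μ s t η p M Nt a x ≤ Real.exp ((N : ℝ) ^ ε * (EE μ s T + Real.sqrt |(x : ℝ) - x'| + |(x : ℝ) - x'| / Real.sqrt N)) *
        bh16 μ s t η p M Nt a x'

variable [IsProbabilityMeasure μ]

/-- **THE CRUDE (D2) FOR A CONTEXT.** -/
theorem topC16 (h0 : In μ s c C n₀) (hL : LB84 μ s) (HY : CrY16 μ s) {e₀ e₁ : ℝ} (he₀ : 0 < e₀) (he₁ : 0 < e₁) :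
    ∃ κ₀ c' : ℝ, 0 < κ₀ ∧ 0 < c' ∧ ∀ σ K₁ : ℝ, 0 < σ → σ ≤ 1 → 1 ≤ K₁ → ∃ n₁ : ℕ, 1 ≤ n₁ ∧ ∀ {n : ℕ}, n₁ ≤ n →
    ∀ {c₂ δ κ : ℝ} {Γ : Cx}, c₂ ≤ 1 → κ ≤ κ₀ → Adm μ s c₂ δ κ n Γ → ∃ bad : Set Env, (law μ).real bad ≤ Real.exp (-(n : ℝ) ^ c') ∧
    ∀ η ∉ bad, ∀ {M' : ℕ} {p' : ℕ → ℝ}, M' ≤ Γ.M → (∀ k, k < M' → p' k = Real.exp (s + Γ.h)) → (∀ k, M' ≤ k → p' k = Real.exp s) →
    ∀ {a t : ℕ}, a + 1 ≤ Γ.N → (t ≤ M' - a ∨ |Γ.h| * ((M' - a : ℕ) : ℝ) ≤ 1) → (n : ℝ) ^ e₀ ≤ t → (t : ℝ) ≤ (n : ℝ) ^ (1 / 4 : ℝ) →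
    ∀ {x₀ : ℝ} {x x' : ℤ}, |x'| ≤ 4 * Γ.N → |(x' : ℝ) - x₀| ≤ K₁ * wd μ s t →
      bh16 μ s Γ.h η p' M' Γ.N a x ≤ Real.exp (((n : ℝ) ^ e₁ + σ * (|(x : ℝ) - x₀| / wd μ s t)) * EE μ s t) *
        bh16 μ s Γ.h η p' M' Γ.N a x' := by
  obtain ⟨e, he⟩ : ∃ e : ℝ, e = min (1 / 32) (e₁ / 28) := ⟨_, rfl⟩
  have he0 : 0 < e := by rw [he]; exact lt_min (by norm_num) (by positivity)
  have he32 : e ≤ 1 / 32 := by rw [he]; exact min_le_left _ _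
  have he28 : 28 * e ≤ e₁ := by
    have : e ≤ e₁ / 28 := by rw [he]; exact min_le_right _ _
    linarith only [this]
  obtain ⟨κ₀, c', hκ₀, hc', N₀, HY⟩ := HY e (e₀ / 14) he0 (by positivity)
  refine ⟨κ₀, c', hκ₀, hc', fun σ K₁ hσ hσ1 hK₁ => ?_⟩
  obtain ⟨N₁, n₂, hn₂, HD⟩ := d2_crude16 h0 hL he0 he32 hσ hσ1 hK₁
  obtain ⟨n₃, hn₃⟩ := eventually_atTop.1 (ev84 (n₂ + 2 : ℝ) (show (0 : ℝ) < e₀ / 2 by positivity))
  refine ⟨max (max N₀ N₁) (max n₃ 4), le_trans (by norm_num) ((le_max_right _ _).trans (le_max_right _ _)), ?_⟩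
  intro n hn c₂ δ κ Γ hc₂ hκ hA
  have b0 : N₀ ≤ n := ((le_max_left _ _).trans (le_max_left _ _)).trans hn
  have b1 : N₁ ≤ n := ((le_max_right _ _).trans (le_max_left _ _)).trans hn
  have b3 := hn₃ n (((le_max_left _ _).trans (le_max_right _ _)).trans hn)
  have b4 : 4 ≤ n := ((le_max_right _ _).trans (le_max_right _ _)).trans hn
  have hn1 : (4 : ℝ) ≤ n := by exact_mod_cast b4
  have hn0 : (0 : ℝ) < n := by linarith only [hn1]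
  have hn1' : (1 : ℝ) ≤ n := by linarith only [hn1]
  obtain ⟨Na, L, hNa, hNan, hL3, hL2, hM, hΓN, -, hh⟩ := hA.hor
  -- the sizes
  obtain ⟨N, hN⟩ : ∃ N : ℕ, N = 4 * Na ^ 3 := ⟨_, rfl⟩
  have hNa1 : 1 ≤ Na := by omega
  have hNa3 : Na ≤ Na ^ 3 := Nat.le_self_pow (by norm_num) Na
  have hNaN : Na ≤ N := by omega
  have hnN : n ≤ N := hNa.trans hNaN
  have hΓ : Γ.N ≤ N := by
    have h1 : 1 ≤ Na ^ 3 := Nat.one_le_pow _ _ hNa1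
    omega
  have hNn7 : (N : ℝ) ≤ (n : ℝ) ^ (7 : ℝ) := by
    have h1 : (Na : ℝ) ≤ (n : ℝ) ^ (2 : ℝ) := hNan.trans (Real.rpow_le_rpow_of_exponent_le hn1' (by linarith only [hc₂]))
    have h2 : (Na : ℝ) ^ 3 ≤ ((n : ℝ) ^ (2 : ℝ)) ^ 3 := pow_le_pow_left₀ (Nat.cast_nonneg _) h1 3
    have h3 : (N : ℝ) = 4 * (Na : ℝ) ^ 3 := by rw [hN]; push_cast; ring
    have h4 : ((n : ℝ) ^ (2 : ℝ)) ^ 3 = (n : ℝ) ^ (6 : ℝ) := by
      rw [← Real.rpow_natCast, ← Real.rpow_mul hn0.le]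
      norm_num
    have h5 : (n : ℝ) ^ (7 : ℝ) = n * (n : ℝ) ^ (6 : ℝ) := by
      rw [show (7 : ℝ) = 1 + 6 by norm_num, Real.rpow_add hn0, Real.rpow_one]
    rw [h3, h5]
    rw [h4] at h2
    have h6 : 0 ≤ (n : ℝ) ^ (6 : ℝ) := by positivity
    have h7 := mul_le_mul_of_nonneg_right hn1 h6
    linarith only [h2, h7]
  have hN0 : (0 : ℝ) < N := by
    have : (n : ℝ) ≤ N := by exact_mod_cast hnN
    linarith only [this, hn0]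
  have hN1 : (1 : ℝ) ≤ N := by
    have : (n : ℝ) ≤ N := by exact_mod_cast hnN
    linarith only [this, hn1]
  obtain ⟨T, hT⟩ : ∃ T : ℕ, T = max n₂ ⌈(N : ℝ) ^ (e₀ / 14)⌉₊ := ⟨_, rfl⟩
  have hNT : (N : ℝ) ^ (e₀ / 14) ≤ T := by
    rw [hT]
    exact (Nat.le_ceil _).trans (by exact_mod_cast le_max_right _ _)
  have hTn : (T : ℝ) ≤ (n : ℝ) ^ e₀ := by
    have h1 : (N : ℝ) ^ (e₀ / 14) ≤ (n : ℝ) ^ (e₀ / 2) := by
      have h2 := Real.rpow_le_rpow hN0.le hNn7 (show 0 ≤ e₀ / 14 by positivity)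
      rwa [← Real.rpow_mul hn0.le, show 7 * (e₀ / 14) = e₀ / 2 by ring] at h2
    have h3 : (⌈(N : ℝ) ^ (e₀ / 14)⌉₊ : ℝ) ≤ (N : ℝ) ^ (e₀ / 14) + 1 := (Nat.ceil_lt_add_one (by positivity)).le
    have h4 : (n : ℝ) ^ e₀ = (n : ℝ) ^ (e₀ / 2) * (n : ℝ) ^ (e₀ / 2) := by
      rw [← Real.rpow_add hn0]
      congr 1
      ring
    have h5 : (0 : ℝ) ≤ n₂ := Nat.cast_nonneg _
    have h6 : (n : ℝ) ^ (e₀ / 2) + 1 ≤ (n : ℝ) ^ (e₀ / 2) * (n : ℝ) ^ (e₀ / 2) := by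
      have h7 : (2 : ℝ) ≤ (n : ℝ) ^ (e₀ / 2) := by linarith only [b3, h5]
      have h8 := mul_le_mul_of_nonneg_right h7 (show 0 ≤ (n : ℝ) ^ (e₀ / 2) by positivity)
      linarith only [h7, h8]
    rw [hT]
    push_cast
    refine max_le ?_ ?_
    · rw [h4]
      linarith only [b3, h6]
    · rw [h4]
      linarith only [h1, h3, h6]
  have hT1 : n₂ ≤ T := by rw [hT]; exact le_max_left _ _
  have hκN : |Γ.h| * EE μ s Na ≤ (N : ℝ) ^ κ₀ := by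
    have h1 : (Na : ℝ) ^ κ ≤ (Na : ℝ) ^ κ₀ := Real.rpow_le_rpow_of_exponent_le (by exact_mod_cast hNa1) hκ
    have h2 : (Na : ℝ) ^ κ₀ ≤ (N : ℝ) ^ κ₀ := Real.rpow_le_rpow (Nat.cast_nonneg _) (by exact_mod_cast hNaN) hκ₀.le
    exact hh.trans (h1.trans h2)
  by_cases hTN : T ≤ N
  swap
  · -- there is no scale `t`
    refine ⟨∅, by rw [measureReal_empty]; exact (Real.exp_pos _).le, fun η _ M' p' _ _ _ a t _ _ ht ht' => ?_⟩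
    exfalso
    have h1 : (T : ℝ) ≤ t := hTn.trans ht
    have h2 : (t : ℝ) ≤ n := ht'.trans (by
      calc (n : ℝ) ^ (1 / 4 : ℝ) ≤ (n : ℝ) ^ (1 : ℝ) := Real.rpow_le_rpow_of_exponent_le hn1' (by norm_num)
        _ = n := Real.rpow_one _)
    have h3 : T ≤ n := by exact_mod_cast h1.trans h2
    omega
  obtain ⟨G, hG, HG⟩ := HY N Na T (b0.trans hnN) hNT hTN Γ.h hκN
  refine ⟨Gᶜ, hG.trans (Real.exp_le_exp.2 (neg_le_neg (Real.rpow_le_rpow hn0.le (by exact_mod_cast hnN) hc'.le))), ?_⟩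
  intro η hη M' p' hM' hp hp' a t ha hsw ht ht' x₀ x x' hx' hxx
  have hη' : η ∈ G := by
    rw [Set.mem_compl_iff, not_not] at hη
    exact hη
  have hTt : T ≤ t := by exact_mod_cast hTn.trans ht
  have hBpos : 0 ≤ bh16 μ s Γ.h η p' M' Γ.N a x' := by
    have hpp : ∀ k, 0 < p' k := fun k => by
      rcases lt_or_ge k M' with h1 | h1
      · rw [hp k h1]; exact Real.exp_pos _
      · rw [hp' k h1]; exact Real.exp_pos _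
    exact (bh16_pos (μ := μ) (s := s) (h := Γ.h) (η := η) (M := M') (N := Γ.N) hpp a x').le
  have h1 := HG η hη' M' Γ.N p' (hM'.trans hM) (by omega) hΓ hp hp' a ha (by
    rcases hsw with h2 | h2
    · exact Or.inl (hTt.trans h2)
    · exact Or.inr h2) x x' (by
      have h3 : (Γ.N : ℤ) ≤ N := by exact_mod_cast hΓ
      linarith only [hx', h3])
  have h2 := HD (b1.trans hnN) hT1 hTt (ht'.trans (Real.rpow_le_rpow hn0.le (by exact_mod_cast hnN) (by norm_num))) (F := fun x => bh16 μ s Γ.h η p' M' Γ.N a x)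
    (x₀ := x₀) hBpos hxx h1
  refine h2.trans (mul_le_mul_of_nonneg_right (Real.exp_le_exp.2 (mul_le_mul_of_nonneg_right ?_ (EE_pos t).le)) hBpos)
  have h3 : (N : ℝ) ^ (4 * e) ≤ (n : ℝ) ^ e₁ := by
    have h4 := Real.rpow_le_rpow hN0.le hNn7 (show 0 ≤ 4 * e by positivity)
    rw [← Real.rpow_mul hn0.le, show 7 * (4 * e) = 28 * e by ring] at h4
    exact h4.trans (Real.rpow_le_rpow_of_exponent_le hn1' he28)
  linarith only [h3]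

end

end Pool.Agent.W_7d29a1_C1.U16
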