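import Pool.Agent.W_7d29a1_C1.CrI84
import Pool.Agent.W_7d29a1_C1.SteF6
import Pool.Agent.W_7d29a1_C1.TopC16
import Pool.Agent.W_7d29a1_C1.NbrC78
import Pool.Agent.W_7d29a1_UB.IdentU

/-!
MP_7d29a1_pr, [C1] **THE CRUDE COMPARISON FOR ALL COLUMNS** (helper84): `crY84 : CrY16 μ s`. The windows of `crd84f` at the columns `4 N j`,
`|j| ≤ N ^ 4 + 2`, are chained (`chain84`); beyond `N ^ 5` the sites are small (`fat_tail6`) and the trivial bound of the luck is enough.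
-/

set_option autoImplicit false

namespace Pool.Agent.W_7d29a1_C1.Cr84

open MeasureTheory ProbabilityTheory Filter Topology Finset
open Pool.Agent.W_7d29a1_F Pool.Agent.W_7d29a1_h4g Pool.Agent.W_7d29a1_H
open Pool.Agent.W_7d29a1_HS (In wd wd_le_two)
open Pool.Agent.W_7d29a1_h47 (EM)
open Pool.Agent.W_7d29a1_UB (abs_V_le27 Sq27 card_Sq27)
open Pool.Agent.W_7d29a1_C1.U16 Pool.Agent.W_7d29a1_C1.Win84

noncomputable section

/-! ### The chain of the windows -/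

/-- One window. -/
theorem one84 {F : ℤ → ℝ} {A E : ℝ} {N J : ℕ} (hN : 1 ≤ N)
    (hw : ∀ j : ℤ, |j| ≤ J → ∀ u v : ℤ, |u - 4 * N * j| ≤ 4 * N → |v - 4 * N * j| ≤ 4 * N →
      F u ≤ Real.exp (A * (E + Real.sqrt |(u : ℝ) - v|)) * F v)
    {u v : ℤ} (hu : |u| ≤ 4 * N * (J - 1)) (hv : |v| ≤ 4 * N * (J - 1)) (huv : |u - v| ≤ 4 * N) :
    F u ≤ Real.exp (A * (E + Real.sqrt |(u : ℝ) - v|)) * F v := by
  obtain ⟨m, hm⟩ : ∃ m : ℤ, m = min u v := ⟨_, rfl⟩
  have hL : (0 : ℤ) < 4 * N := by omega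
  obtain ⟨j, hj⟩ : ∃ j : ℤ, j = m / (4 * N) + 1 := ⟨_, rfl⟩
  have h1 : 4 * (N : ℤ) * (m / (4 * N)) ≤ m := Int.mul_ediv_self_le hL.ne'
  have h2 : m < 4 * (N : ℤ) * (m / (4 * N)) + 4 * N := Int.lt_mul_ediv_self_add hL
  have e1 : 4 * (N : ℤ) * j = 4 * N * (m / (4 * N)) + 4 * N := by rw [hj]; ring
  have hu' := abs_le.1 hu
  have hv' := abs_le.1 hv
  have huv' := abs_le.1 huv
  have hmu : m ≤ u := by rw [hm]; exact min_le_left _ _
  have hmv : m ≤ v := by rw [hm]; exact min_le_right _ _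
  have hmm : m = u ∨ m = v := by rw [hm]; exact min_choice u v
  have hmlo : -(4 * (N : ℤ) * (J - 1)) ≤ m := by
    rcases hmm with h | h
    · rw [h]; exact hu'.1
    · rw [h]; exact hv'.1
  have hmhi : m ≤ 4 * (N : ℤ) * (J - 1) := by
    rcases hmm with h | h
    · rw [h]; exact hu'.2
    · rw [h]; exact hv'.2
  have hM : ∀ w : ℤ, w = u ∨ w = v → m ≤ w ∧ w ≤ m + 4 * N := by
    intro w hw'
    rcases hw' with rfl | rfl
    · refine ⟨hmu, ?_⟩
      rcases hmm with h | h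
      · omega
      · rw [h]; omega
    · refine ⟨hmv, ?_⟩
      rcases hmm with h | h
      · rw [h]; omega
      · omega
  have hjJ : |j| ≤ (J : ℤ) := by
    have k1 : 4 * (N : ℤ) * (m / (4 * N)) ≤ 4 * N * (J - 1) := h1.trans hmhi
    have k2 : 4 * (N : ℤ) * (-(J - 1)) < 4 * N * (m / (4 * N) + 1) := by
      calc 4 * (N : ℤ) * (-(J - 1)) = -(4 * (N : ℤ) * (J - 1)) := by ring
        _ ≤ m := hmlo
        _ < 4 * (N : ℤ) * (m / (4 * N)) + 4 * N := h2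
        _ = _ := by ring
    have k3 : m / (4 * (N : ℤ)) ≤ J - 1 := le_of_mul_le_mul_left k1 hL
    have k4 : -((J : ℤ) - 1) < m / (4 * N) + 1 := lt_of_mul_lt_mul_left k2 hL.le
    rw [abs_le]
    constructor
    · omega
    · omega
  refine hw j hjJ u v ?_ ?_
  · have := hM u (Or.inl rfl)
    rw [abs_le]
    constructor
    · omega
    · omega
  · have := hM v (Or.inr rfl)
    rw [abs_le]
    constructor
    · omega
    · omega

/-- The chain of the windows. -/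
theorem chain84 {F : ℤ → ℝ} {A E : ℝ} {N J : ℕ} (hN : 1 ≤ N) (hA : 0 ≤ A) (hE : 0 ≤ E)
    (hw : ∀ j : ℤ, |j| ≤ J → ∀ u v : ℤ, |u - 4 * N * j| ≤ 4 * N → |v - 4 * N * j| ≤ 4 * N →
      F u ≤ Real.exp (A * (E + Real.sqrt |(u : ℝ) - v|)) * F v) : ∀ (k : ℕ) (u v : ℤ), |u| ≤ 4 * N * (J - 1) → |v| ≤ 4 * N * (J - 1) →
      |u - v| ≤ 4 * N * (k + 1) → F u ≤ Real.exp ((k + 1 : ℕ) * (A * (E + Real.sqrt (4 * N)))) * F v ∨ F u ≤ 0 := by
  have hNR : (1 : ℝ) ≤ N := by exact_mod_cast hN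
  have hone : ∀ u v : ℤ, |u| ≤ 4 * N * (J - 1) → |v| ≤ 4 * N * (J - 1) → |u - v| ≤ 4 * N → 0 ≤ F v →
      F u ≤ Real.exp (A * (E + Real.sqrt (4 * N))) * F v := by
    intro u v hu hv huv hFv
    refine (one84 hN hw hu hv huv).trans (mul_le_mul_of_nonneg_right (Real.exp_le_exp.2 (mul_le_mul_of_nonneg_left ?_ hA)) hFv)
    refine add_le_add le_rfl (Real.sqrt_le_sqrt ?_)
    exact_mod_cast huv
  intro k
  induction k with
  | zero =>
    intro u v hu hv huv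
    rcases le_or_gt 0 (F v) with h0 | h0
    · left
      have := hone u v hu hv (by simpa using huv) h0
      simpa using this
    · right
      refine (one84 hN hw hu hv (by simpa using huv)).trans ?_
      exact mul_nonpos_of_nonneg_of_nonpos (Real.exp_pos _).le h0.le
  | succ k ih =>
    intro u v hu hv huv
    rcases le_or_gt (F u) 0 with hFu | hFu
    · exact Or.inr hFu
    left
    -- the place at the distance `4 N` of `u` towards `v`
    have hu' := abs_le.1 hu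
    have hv' := abs_le.1 hv
    by_cases hc : |u - v| ≤ 4 * N
    · have h1 := one84 hN hw hu hv hc
      have hFv : 0 ≤ F v := by
        by_contra hcon
        rw [not_le] at hcon
        have := mul_neg_of_pos_of_neg (Real.exp_pos (A * (E + Real.sqrt |(u : ℝ) - v|))) hcon
        linarith
      have h2 := hone u v hu hv hc hFv
      refine h2.trans (mul_le_mul_of_nonneg_right (Real.exp_le_exp.2 ?_) hFv)
      have h3 : 0 ≤ A * (E + Real.sqrt (4 * N)) := by positivity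
      have h4 : (1 : ℝ) ≤ ((k + 1 + 1 : ℕ) : ℝ) := by push_cast; linarith [Nat.cast_nonneg (α := ℝ) k]
      exact le_mul_of_one_le_left h3 h4
    · rw [not_le] at hc
      obtain ⟨w, hw1, hw2, hw3⟩ : ∃ w : ℤ, |u - w| ≤ 4 * N ∧ |w - v| ≤ 4 * N * (k + 1) ∧ |w| ≤ 4 * N * (J - 1) := by
        rcases le_total u v with huv' | huv'
        · have hd : v - u > 4 * N := by
            rw [abs_sub_comm, abs_of_nonneg (by omega)] at hc
            exact hc
          refine ⟨u + 4 * N, ?_, ?_, ?_⟩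
          · rw [abs_le]
            constructor
            · omega
            · omega
          · rw [abs_sub_comm, abs_of_nonneg (by omega)] at huv ⊢
            push_cast at huv
            linarith
          · rw [abs_le]
            constructor
            · linarith
            · linarith
        · have hd : u - v > 4 * N := by
            rw [abs_of_nonneg (by omega)] at hc
            exact hc
          refine ⟨u - 4 * N, ?_, ?_, ?_⟩
          · rw [abs_le]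
            constructor
            · omega
            · omega
          · rw [abs_of_nonneg (by omega)] at huv ⊢
            push_cast at huv
            linarith
          · rw [abs_le]
            constructor
            · linarith
            · linarith
      have h1 := one84 hN hw hu hw3 hw1
      have hFw : 0 < F w := by
        by_contra hcon
        rw [not_lt] at hcon
        have := mul_nonpos_of_nonneg_of_nonpos (Real.exp_pos (A * (E + Real.sqrt |(u : ℝ) - w|))).le hcon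
        linarith
      have h2 := hone u w hu hw3 hw1 hFw.le
      rcases ih w v hw3 hv hw2 with h3 | h3
      · refine h2.trans ((mul_le_mul_of_nonneg_left h3 (Real.exp_pos _).le).trans (le_of_eq ?_))
        rw [← mul_assoc, ← Real.exp_add]
        congr 2
        push_cast
        ring
      · exact absurd h3 (not_le.2 hFw)

/-- **The chain for all the distances.** -/
theorem chainD84 {F : ℤ → ℝ} {A E : ℝ} {N J : ℕ} (hN : 1 ≤ N) (hA : 0 ≤ A) (hE : 0 ≤ E) (hF : ∀ u, 0 < F u)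
    (hw : ∀ j : ℤ, |j| ≤ J → ∀ u v : ℤ, |u - 4 * N * j| ≤ 4 * N → |v - 4 * N * j| ≤ 4 * N →
      F u ≤ Real.exp (A * (E + Real.sqrt |(u : ℝ) - v|)) * F v)
    {u v : ℤ} (hu : |u| ≤ 4 * N * (J - 1)) (hv : |v| ≤ 4 * N * (J - 1)) :
    F u ≤ Real.exp (A * (E + Real.sqrt |(u : ℝ) - v| + |(u : ℝ) - v| / N * (E + Real.sqrt (4 * N)))) * F v := by
  have hNR : (1 : ℝ) ≤ N := by exact_mod_cast hN
  have hN0 : (0 : ℝ) < N := by linarith
  have hD0 : 0 ≤ |(u : ℝ) - v| := abs_nonneg _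
  have hX : 0 ≤ E + Real.sqrt (4 * N) := by positivity
  by_cases hc : |u - v| ≤ 4 * N
  · refine (one84 hN hw hu hv hc).trans (mul_le_mul_of_nonneg_right (Real.exp_le_exp.2 (mul_le_mul_of_nonneg_left ?_ hA)) (hF v).le)
    have : 0 ≤ |(u : ℝ) - v| / N * (E + Real.sqrt (4 * N)) := by positivity
    linarith
  · rw [not_le] at hc
    obtain ⟨k, hk⟩ : ∃ k : ℕ, (k : ℤ) = |u - v| / (4 * N) := ⟨(|u - v| / (4 * N)).toNat, Int.toNat_of_nonneg (by positivity)⟩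
    have hL : (0 : ℤ) < 4 * N := by omega
    have h1 : 4 * (N : ℤ) * (|u - v| / (4 * N)) ≤ |u - v| := Int.mul_ediv_self_le hL.ne'
    have h2 : |u - v| < 4 * (N : ℤ) * (|u - v| / (4 * N)) + 4 * N := Int.lt_mul_ediv_self_add hL
    rw [← hk] at h1 h2
    have h3 : |u - v| ≤ 4 * (N : ℤ) * (k + 1) := by linarith
    rcases chain84 hN hA hE hw k u v hu hv h3 with h4 | h4
    · refine h4.trans (mul_le_mul_of_nonneg_right (Real.exp_le_exp.2 ?_) (hF v).le)
      have e1 : (((|u - v| : ℤ)) : ℝ) = |(u : ℝ) - v| := by push_cast; rfl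
      have h5 : 4 * (N : ℝ) * k ≤ |(u : ℝ) - v| := by
        rw [← e1]
        exact_mod_cast h1
      have h6 : 4 * (N : ℝ) ≤ |(u : ℝ) - v| := by
        rw [← e1]
        exact_mod_cast hc.le
      have h7 : ((k + 1 : ℕ) : ℝ) ≤ |(u : ℝ) - v| / N := by
        rw [le_div_iff₀ hN0]
        push_cast
        linarith
      have h8 := mul_le_mul_of_nonneg_right h7 (mul_nonneg hA hX)
      have h9 : 0 ≤ A * (E + Real.sqrt |(u : ℝ) - v|) := by positivity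
      calc ((k + 1 : ℕ) : ℝ) * (A * (E + Real.sqrt (4 * N))) ≤ |(u : ℝ) - v| / N * (A * (E + Real.sqrt (4 * N))) := h8
        _ ≤ A * (E + Real.sqrt |(u : ℝ) - v|) + |(u : ℝ) - v| / N * (A * (E + Real.sqrt (4 * N))) := by linarith
        _ = _ := by ring
    · exact absurd h4 (not_le.2 (hF u))

/-! ### The sites -/

variable {μ : Measure ℝ} {s : ℝ} [IsProbabilityMeasure μ] {c C : ℝ} {n₀ : ℕ}

/-- The sites of all the columns. -/
def ST84 (N : ℕ) (q : ℝ) : Set Env :=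
  {η | ∀ r : ℕ, r ≤ N → ∀ k : ℤ, |η ((r : ℤ), k)| ≤ q * (1 + |(k : ℝ)|) ^ (1 / 4 : ℝ) + Real.log (N + 1)}

theorem sites84 (hμ : EM μ) : ∃ A' : ℝ, 0 < A' ∧ ∀ (N : ℕ) (q : ℝ), 0 ≤ q → (law μ).real (ST84 N q)ᶜ ≤ A' * Real.exp (-(1 / 2 * q)) := by
  obtain ⟨B, hB1, hB⟩ := Nbr78.tail78 hμ
  have hB0 : 0 < B := by linarith
  obtain ⟨A', hA', H⟩ := Dep6.fat_tail6 (A := B) (a := 1) (g := 1) (e := 1 / 4) hB0 one_pos one_pos (by norm_num)
  refine ⟨A', hA', fun N q hq => ?_⟩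
  obtain ⟨E, hE⟩ : ∃ E : ℤ → ℝ → Set Env, E = fun k q => {η | ∀ r : ℕ, r ≤ N → |η ((r : ℤ), k)| ≤ q + Real.log (N + 1)} := ⟨_, rfl⟩
  have hN1 : (0 : ℝ) < (N : ℝ) + 1 := by positivity
  have h1 : ∀ k q, 0 ≤ q → (law μ) (E k q)ᶜ ≤ ENNReal.ofReal (B * Real.exp (-(1 * q ^ (1 : ℝ)))) := by
    intro k q hq
    rw [Real.rpow_one, one_mul]
    have h2 : (law μ).real (E k q)ᶜ ≤ B * Real.exp (-q) := by
      have hsub : (E k q)ᶜ ⊆ ⋃ r ∈ Finset.range (N + 1), {η : Env | q + Real.log (N + 1) < |η ((r : ℤ), k)|} := by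
        intro η hη
        rw [hE, Set.mem_compl_iff, Set.mem_ofPred_eq] at hη
        push Not at hη
        obtain ⟨r, hr, hr'⟩ := hη
        exact Set.mem_iUnion₂.2 ⟨r, mem_range.2 (by omega), hr'⟩
      refine (measureReal_mono hsub (measure_ne_top _ _)).trans ((measureReal_biUnion_finset_le _ _).trans ?_)
      refine (sum_le_sum fun (r : ℕ) _ => hB ((r : ℤ), k) (q + Real.log (N + 1))).trans (le_of_eq ?_)
      rw [sum_const, card_range, nsmul_eq_mul, neg_add, Real.exp_add, Real.exp_neg (Real.log _), Real.exp_log hN1]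
      push_cast
      field_simp
    rw [← ENNReal.ofReal_toReal (measure_ne_top (law μ) (E k q)ᶜ)]
    exact ENNReal.ofReal_le_ofReal h2
  have h2 := H E h1 q hq
  rw [Real.rpow_one] at h2
  have h3 : (ST84 N q)ᶜ ⊆ (⋂ k : ℤ, E k (q * (1 + |(k : ℝ)|) ^ (1 / 4 : ℝ)))ᶜ := by
    refine Set.compl_subset_compl.2 fun η hη r hr k => ?_
    have := Set.mem_iInter.1 hη k
    rw [hE] at this
    exact this r hr
  have h4 := (measure_mono (μ := law μ) h3).trans h2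
  exact ENNReal.toReal_le_of_le_ofReal (by positivity) h4

omit [IsProbabilityMeasure μ] in
/-- The luck from the sites. -/
theorem V_site84 {N : ℕ} {q : ℝ} {η : Env} (hη : η ∈ ST84 N q) (hq : 0 ≤ q) {a n : ℕ} (han : a + n ≤ N) {x : ℤ} {Y : ℝ}
    (hY : ∀ k : ℤ, x ≤ k → k ≤ x + n → (1 + |(k : ℝ)|) ^ (1 / 4 : ℝ) ≤ Y) :
    |V μ s η ((a : ℤ), x) n| ≤ (|s| + |lam μ s| + 2) * n + ((n : ℝ) + 1) ^ 2 * (q * Y + Real.log (N + 1)) := by
  have e1 : V μ s η ((a : ℤ), x) n = V μ s (sh (((a : ℤ), (0 : ℤ)) : Pt) η) (0, x) n := by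
    rw [V_sh]
    congr 1
    ext
    · show (a : ℤ) = 0 + a
      ring
    · show x = x + 0
      ring
  rw [e1]
  refine (abs_V_le27 (μ := μ) (s := s) (sh (((a : ℤ), (0 : ℤ)) : Pt) η) x n).trans (add_le_add le_rfl ?_)
  have h1 : ∀ p ∈ Sq27 x n, |sh (((a : ℤ), (0 : ℤ)) : Pt) η p| ≤ q * Y + Real.log (N + 1) := by
    rintro ⟨i, k⟩ hp
    unfold Sq27 at hp
    rw [mem_product, mem_Icc, mem_Icc] at hp
    obtain ⟨⟨h1, h2⟩, h3, h4⟩ := hp
    dsimp only at h1 h2 h3 h4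
    obtain ⟨r, hr⟩ : ∃ r : ℕ, (r : ℤ) = i + a := ⟨(i + a).toNat, Int.toNat_of_nonneg (by omega)⟩
    have h5 := hη r (by omega) k
    have e2 : sh (((a : ℤ), (0 : ℤ)) : Pt) η (i, k) = η ((r : ℤ), k) := by
      show η ((i, k) + (((a : ℤ), (0 : ℤ)) : Pt)) = _
      congr 1
      ext
      · show i + a = r
        rw [hr]
      · show k + 0 = k
        ring
    rw [e2]
    have h6 := mul_le_mul_of_nonneg_left (hY k h3 h4) hq
    linarith
  refine (sum_le_card_nsmul _ _ _ h1).trans (le_of_eq ?_)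
  rw [card_Sq27, nsmul_eq_mul]
  push_cast
  ring

/-- **The far columns.** -/
theorem far84 (h : In μ s c C n₀) : ∃ N₁ : ℕ, ∀ N : ℕ, N₁ ≤ N → ∀ {t : ℝ}, |t| ≤ N → ∀ {η : Env}, η ∈ ST84 N ((N : ℝ) ^ (1 / 4 : ℝ)) →
    ∀ a K L : ℕ, a + (K + L) ≤ N → ∀ x x' : ℤ, (N : ℝ) ^ 8 ≤ |(x : ℝ)| → |x'| ≤ 4 * N →
    TG μ s t K L η ((a : ℤ), x) ≤ TG μ s t K L η ((a : ℤ), x') + |(x : ℝ) - x'| / Real.sqrt N := by
  obtain ⟨B, hB⟩ : ∃ B : ℝ, B = |s| + |lam μ s| + 2 := ⟨_, rfl⟩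
  have hB0 : 0 ≤ B := by rw [hB]; positivity
  obtain ⟨N₁, hN₁⟩ := exists_nat_ge (64 + 8 * B)
  refine ⟨max N₁ 8, fun N hN t ht η hη a K L haKL x x' hx hx' => ?_⟩
  have hN8 : 8 ≤ N := (le_max_right _ _).trans hN
  have hNB : 64 + 8 * B ≤ N := hN₁.trans (by exact_mod_cast (le_max_left _ _).trans hN)
  have hNR : (1 : ℝ) ≤ N := by exact_mod_cast (show 1 ≤ N by omega)
  have hN0 : (0 : ℝ) < N := by linarith
  obtain ⟨X, hX⟩ : ∃ X : ℝ, X = |(x : ℝ)| := ⟨_, rfl⟩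
  rw [← hX] at hx
  have hX1 : 1 ≤ X := (one_le_pow₀ hNR).trans hx
  have hX0 : 0 < X := by linarith
  obtain ⟨Y, hY⟩ : ∃ Y : ℝ, Y = X ^ (1 / 4 : ℝ) := ⟨_, rfl⟩
  have hY0 : 0 < Y := by rw [hY]; exact Real.rpow_pos_of_pos hX0 _
  have hY4 : Y ^ 4 = X := by
    rw [hY, ← Real.rpow_natCast, ← Real.rpow_mul hX0.le]
    norm_num
  have hYN : (N : ℝ) ^ 2 ≤ Y := by
    rw [← hY4] at hx
    have h1 : ((N : ℝ) ^ 2) ^ 4 ≤ Y ^ 4 := by
      calc ((N : ℝ) ^ 2) ^ 4 = (N : ℝ) ^ 8 := by ring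
        _ ≤ _ := hx
    exact le_of_pow_le_pow_left₀ (by norm_num) hY0.le h1
  have hNY : (N : ℝ) ≤ Y := by
    refine le_trans ?_ hYN
    nlinarith only [hNR]
  have hq0 : 0 ≤ (N : ℝ) ^ (1 / 4 : ℝ) := by positivity
  have hqN : (N : ℝ) ^ (1 / 4 : ℝ) ≤ N := by
    calc (N : ℝ) ^ (1 / 4 : ℝ) ≤ (N : ℝ) ^ (1 : ℝ) := Real.rpow_le_rpow_of_exponent_le hNR (by norm_num)
      _ = N := Real.rpow_one _
  have hlog : Real.log ((N : ℝ) + 1) ≤ N := by
    have := Real.log_le_sub_one_of_pos (show (0 : ℝ) < (N : ℝ) + 1 by positivity)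
    linarith
  have h5N : 5 * (N : ℝ) ≤ X := by
    have h1 : (8 : ℝ) ≤ N := by exact_mod_cast hN8
    have h2 : (N : ℝ) * N ≤ (N : ℝ) ^ 8 := by
      calc (N : ℝ) * N = (N : ℝ) ^ 2 := by ring
        _ ≤ _ := pow_le_pow_right₀ hNR (by norm_num)
    have h3 : 8 * (N : ℝ) ≤ N * N := mul_le_mul_of_nonneg_right h1 hN0.le
    linarith
  -- the fourth roots
  have hroot : ∀ k : ℤ, |(k : ℝ)| ≤ X + N → (1 + |(k : ℝ)|) ^ (1 / 4 : ℝ) ≤ 2 * Y := by
    intro k hk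
    have h1 : 1 + |(k : ℝ)| ≤ 16 * X := by linarith
    calc (1 + |(k : ℝ)|) ^ (1 / 4 : ℝ) ≤ (16 * X) ^ (1 / 4 : ℝ) := Real.rpow_le_rpow (by positivity) h1 (by norm_num)
      _ = (16 : ℝ) ^ (1 / 4 : ℝ) * X ^ (1 / 4 : ℝ) := Real.mul_rpow (by norm_num) hX0.le
      _ = 2 * Y := by
        rw [← hY, show (16 : ℝ) = 2 ^ (4 : ℝ) by norm_num, ← Real.rpow_mul (by norm_num)]
        norm_num
  have hKL : ((K + L : ℕ) : ℝ) ≤ N := by exact_mod_cast (show K + L ≤ N by omega)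
  have hKL0 : (0 : ℝ) ≤ ((K + L : ℕ) : ℝ) := Nat.cast_nonneg _
  have hKN : (K : ℝ) ≤ N := by exact_mod_cast (show K ≤ N by omega)
  -- the luck
  have hVb : ∀ z : ℤ, |(z : ℝ)| ≤ X → |V μ s η ((a : ℤ), z) (K + L)| ≤ B * N + 4 * (N : ℝ) ^ 2 * (2 * (N * Y) + N) := by
    intro z hz
    have h1 := V_site84 (μ := μ) (s := s) hη hq0 haKL (x := z) (Y := 2 * Y) (fun k hk1 hk2 => hroot k (by
      have k1 : (z : ℝ) ≤ k := by exact_mod_cast hk1
      have k2 : (k : ℝ) ≤ z + ((K + L : ℕ) : ℝ) := by exact_mod_cast hk2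
      have k3 := abs_le.1 hz
      rw [abs_le]
      constructor
      · linarith [k3.1]
      · linarith [k3.2]))
    refine h1.trans ?_
    rw [← hB]
    have h2 : B * ((K + L : ℕ) : ℝ) ≤ B * N := mul_le_mul_of_nonneg_left hKL hB0
    have h3 : (((K + L : ℕ) : ℝ) + 1) ^ 2 ≤ 4 * (N : ℝ) ^ 2 := by
      calc (((K + L : ℕ) : ℝ) + 1) ^ 2 ≤ (2 * (N : ℝ)) ^ 2 := pow_le_pow_left₀ (by positivity) (by linarith) 2
        _ = _ := by ring
    have h4 : (N : ℝ) ^ (1 / 4 : ℝ) * (2 * Y) + Real.log (N + 1) ≤ 2 * (N * Y) + N := by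
      have h5 := mul_le_mul_of_nonneg_right hqN (show 0 ≤ 2 * Y by positivity)
      linarith
    have h5 : 0 ≤ (N : ℝ) ^ (1 / 4 : ℝ) * (2 * Y) + Real.log (N + 1) := by
      have : 0 ≤ Real.log ((N : ℝ) + 1) := Real.log_nonneg (by linarith)
      positivity
    exact add_le_add h2 (mul_le_mul h3 h4 h5 (by positivity))
  have hxx := hVb x (by rw [← hX])
  have hxR' : |(x' : ℝ)| ≤ 4 * N := by exact_mod_cast hx'
  have hxx' := hVb x' (by linarith)
  have n1 := (abs_le.1 (TG_near (μ := μ) (s := s) (h := t) h.sl_pos.le h.sl_lt.le K L η ((a : ℤ), x))).2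
  have n2 := (abs_le.1 (TG_near (μ := μ) (s := s) (h := t) h.sl_pos.le h.sl_lt.le K L η ((a : ℤ), x'))).1
  have v1 := (abs_le.1 hxx).2
  have v2 := (abs_le.1 hxx').1
  have ht2 : |t| * K ≤ (N : ℝ) ^ 2 := by
    calc |t| * K ≤ N * N := mul_le_mul ht hKN (Nat.cast_nonneg _) hN0.le
      _ = _ := by ring
  -- the numbers
  have hD : X - 4 * N ≤ |(x : ℝ) - x'| := by
    have := abs_sub_abs_le_abs_sub (x : ℝ) x'
    linarith
  have hsq : Real.sqrt N ≤ N := by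
    rw [Real.sqrt_le_left hN0.le]
    nlinarith only [hNR]
  have hsq0 : 0 < Real.sqrt N := Real.sqrt_pos.2 hN0
  have hDs : (X - 4 * N) / N ≤ |(x : ℝ) - x'| / Real.sqrt N := by
    calc (X - 4 * N) / N ≤ |(x : ℝ) - x'| / N := div_le_div_of_nonneg_right hD hN0.le
      _ ≤ _ := div_le_div_of_nonneg_left (abs_nonneg _) hsq0 hsq
  have hnum : 2 * (N : ℝ) ^ 2 + 2 * (B * N + 4 * (N : ℝ) ^ 2 * (2 * (N * Y) + N)) ≤ (X - 4 * N) / N := by
    rw [le_div_iff₀ hN0, ← hY4]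
    have m0 : 64 + 8 * B ≤ Y := hNB.trans hNY
    have m1 : (N : ℝ) ^ 4 ≤ Y ^ 2 := by
      calc (N : ℝ) ^ 4 = ((N : ℝ) ^ 2) ^ 2 := by ring
        _ ≤ Y ^ 2 := pow_le_pow_left₀ (by positivity) hYN 2
    have m2 : (N : ℝ) ^ 3 ≤ Y ^ 2 := (pow_le_pow_right₀ hNR (by norm_num)).trans m1
    have hY1 : 1 ≤ Y := by linarith
    have m3 : (N : ℝ) ^ 4 * Y ≤ Y ^ 3 := by
      calc (N : ℝ) ^ 4 * Y ≤ Y ^ 2 * Y := mul_le_mul_of_nonneg_right m1 hY0.le
        _ = _ := by ring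
    have m4 : (64 + 8 * B) * Y ^ 3 ≤ Y ^ 4 := by
      calc (64 + 8 * B) * Y ^ 3 ≤ Y * Y ^ 3 := mul_le_mul_of_nonneg_right m0 (by positivity)
        _ = _ := by ring
    have m5 : Y ^ 2 ≤ Y ^ 3 := pow_le_pow_right₀ hY1 (by norm_num)
    have m6 : Y ≤ Y ^ 3 := by
      calc Y = Y ^ 1 := (pow_one _).symm
        _ ≤ _ := pow_le_pow_right₀ hY1 (by norm_num)
    have m7 : B * (N : ℝ) ^ 2 ≤ B * Y ^ 3 := mul_le_mul_of_nonneg_left (hYN.trans m6) hB0
    have m8 : 0 ≤ B * Y ^ 3 := by positivity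
    nlinarith only [m1, m2, m3, m4, m5, m6, m7, m8, hNY]
  linarith

/-- **THE CRUDE COMPARISON FOR ALL THE COLUMNS** (two sizes). -/
theorem crY84 (h : In μ s c C n₀) (hL : LB84 μ s) (hU : UB84 μ s) (hF : FUT84 μ s) : CrY16 μ s := by
  intro ε τ hε hτ
  obtain ⟨δ, κ, c', hδ, hκ, hc', N₂, H⟩ := crd84f h hL hU hF (ε := ε / 4) (τ := τ) (by positivity) hτ
  obtain ⟨A', hA', hst⟩ := sites84 h.em
  obtain ⟨N₃, hfar⟩ := far84 h
  obtain ⟨n₄, hUB⟩ := hU (ε / 4) (by positivity)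
  obtain ⟨a₁, K₁, ha₁, ha₁', hK₁, hwp⟩ := Pool.Agent.W_7d29a1_HZ.wd'_pow h
  obtain ⟨g, hg⟩ : ∃ g : ℝ, g = min c' (1 / 4) := ⟨_, rfl⟩
  have hg0 : 0 < g := by rw [hg]; exact lt_min hc' (by norm_num)
  have hg1 : g ≤ c' := by rw [hg]; exact min_le_left _ _
  have hg2 : g ≤ 1 / 4 := by rw [hg]; exact min_le_right _ _
  have ev1 := Pool.Agent.W_7d29a1_HZ.Z22.absorb (7 + A') 8 (b := 1 / 2) (g := g) (by norm_num) hg0
  obtain ⟨N₄, hN₄⟩ := eventually_atTop.1 ((ev1.and (ev84 (K₁ * Pool.Agent.W_7d29a1_HZ.wd' μ s 1) ha₁)).and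
    ((ev84 8 (show 0 < ε / 4 by positivity)).and (eventually_ge_atTop 1)))
  refine ⟨min κ 1, g / 2, lt_min hκ one_pos, by positivity, max (max N₂ N₃) (max (max N₄ n₄) 4), fun N Nf T hN hNT hTN t ht => ?_⟩
  have k1 : N₂ ≤ N := ((le_max_left _ _).trans (le_max_left _ _)).trans hN
  have k2 : N₃ ≤ N := ((le_max_right _ _).trans (le_max_left _ _)).trans hN
  have k3 : N₄ ≤ N := (((le_max_left _ _).trans (le_max_left _ _)).trans (le_max_right _ _)).trans hN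
  have k4 : n₄ ≤ N := (((le_max_right _ _).trans (le_max_left _ _)).trans (le_max_right _ _)).trans hN
  have k5 : 4 ≤ N := ((le_max_right _ _).trans (le_max_right _ _)).trans hN
  obtain ⟨⟨q1, q2⟩, q3, -⟩ := hN₄ N k3
  have hNR : (1 : ℝ) ≤ N := by exact_mod_cast (show 1 ≤ N by omega)
  have hN0 : (0 : ℝ) < N := by linarith
  have hN1 : 1 ≤ N := by omega
  have htκ : |t| * EE μ s Nf ≤ (N : ℝ) ^ κ := ht.trans (Real.rpow_le_rpow_of_exponent_le hNR (min_le_left _ _))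
  have htN : |t| ≤ N := by
    have h1 := one_le_EE (μ := μ) (s := s) Nf
    have h2 : |t| * 1 ≤ |t| * EE μ s Nf := mul_le_mul_of_nonneg_left h1 (abs_nonneg t)
    have h3 : (N : ℝ) ^ (min κ 1) ≤ (N : ℝ) ^ (1 : ℝ) := Real.rpow_le_rpow_of_exponent_le hNR (min_le_right _ _)
    rw [Real.rpow_one] at h3
    linarith
  obtain ⟨G₀, hG₀, HG⟩ := H N Nf T k1 hNT hTN t htκ
  obtain ⟨B, hB⟩ : ∃ B : Set Env, B = toMeasurable (law μ) G₀ᶜ := ⟨_, rfl⟩
  have hBm : MeasurableSet B := by rw [hB]; exact measurableSet_toMeasurable _ _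
  have hBG : ∀ η, η ∉ B → η ∈ G₀ := by
    intro η hη
    by_contra hcon
    exact hη (by rw [hB]; exact subset_toMeasurable _ _ hcon)
  have hBp : (law μ).real B ≤ Real.exp (-(N : ℝ) ^ c') := by
    rw [hB, measureReal_def, measure_toMeasurable]
    exact hG₀
  obtain ⟨J, hJ⟩ : ∃ J : ℕ, J = N ^ 8 + 1 := ⟨_, rfl⟩
  refine ⟨{η | ∀ j : ℤ, |j| ≤ J → sh (((0 : ℤ), 4 * (N : ℤ) * j) : Pt) η ∉ B} ∩ ST84 N ((N : ℝ) ^ (1 / 4 : ℝ)), ?_, ?_⟩
  · -- the probability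
    have hsub : ({η | ∀ j : ℤ, |j| ≤ J → sh (((0 : ℤ), 4 * (N : ℤ) * j) : Pt) η ∉ B} ∩ ST84 N ((N : ℝ) ^ (1 / 4 : ℝ)))ᶜ ⊆
        (⋃ j ∈ Icc (-(J : ℤ)) J, {η | sh (((0 : ℤ), 4 * (N : ℤ) * j) : Pt) η ∈ B}) ∪ (ST84 N ((N : ℝ) ^ (1 / 4 : ℝ)))ᶜ := by
      intro η hη
      by_cases hc : η ∈ ST84 N ((N : ℝ) ^ (1 / 4 : ℝ))
      · left
        have h1 : ¬ ∀ j : ℤ, |j| ≤ J → sh (((0 : ℤ), 4 * (N : ℤ) * j) : Pt) η ∉ B := fun h2 => hη ⟨h2, hc⟩
        push Not at h1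
        obtain ⟨j, hj, hj'⟩ := h1
        have := abs_le.1 hj
        exact Set.mem_iUnion₂.2 ⟨j, mem_Icc.2 ⟨this.1, this.2⟩, hj'⟩
      · exact Or.inr hc
    refine (measureReal_mono hsub (measure_ne_top _ _)).trans ((measureReal_union_le _ _).trans ?_)
    have p1 : (law μ).real (⋃ j ∈ Icc (-(J : ℤ)) J, {η | sh (((0 : ℤ), 4 * (N : ℤ) * j) : Pt) η ∈ B}) ≤
        (2 * J + 1 : ℝ) * Real.exp (-(N : ℝ) ^ c') := by
      refine un84 (Icc (-(J : ℤ)) J) _ (fun j _ => ?_) (Real.exp_pos _).le ?_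
      · rw [real_sh (μ := μ) _ hBm]
        exact hBp
      · rw [Int.card_Icc]
        have h1 : ((J : ℤ) + 1 - -(J : ℤ)).toNat = 2 * J + 1 := by omega
        rw [h1]
        push_cast
        exact le_rfl
    have p2 := hst N ((N : ℝ) ^ (1 / 4 : ℝ)) (by positivity)
    obtain ⟨E, hE⟩ : ∃ E : ℝ, E = Real.exp (-(1 / 2 * (N : ℝ) ^ g)) := ⟨_, rfl⟩
    have hE0 : 0 < E := by rw [hE]; exact Real.exp_pos _
    have hNg : 0 ≤ (N : ℝ) ^ g := by positivity
    have v1 : Real.exp (-(N : ℝ) ^ c') ≤ E := by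
      rw [hE]
      refine Real.exp_le_exp.2 (neg_le_neg ?_)
      have := Real.rpow_le_rpow_of_exponent_le hNR hg1
      linarith
    have v2 : Real.exp (-(1 / 2 * (N : ℝ) ^ (1 / 4 : ℝ))) ≤ E := by
      rw [hE]
      refine Real.exp_le_exp.2 (neg_le_neg ?_)
      have := Real.rpow_le_rpow_of_exponent_le hNR hg2
      linarith
    have hN8 : (1 : ℝ) ≤ (N : ℝ) ^ 8 := one_le_pow₀ hNR
    have hJR : (2 * J + 1 : ℝ) ≤ 7 * (N : ℝ) ^ 8 := by
      rw [hJ]
      push_cast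
      linarith
    have w1 : (2 * J + 1 : ℝ) * Real.exp (-(N : ℝ) ^ c') ≤ 7 * (N : ℝ) ^ 8 * E :=
      mul_le_mul hJR v1 (Real.exp_pos _).le (by positivity)
    have w2 : A' * Real.exp (-(1 / 2 * (N : ℝ) ^ (1 / 4 : ℝ))) ≤ A' * (N : ℝ) ^ 8 * E := by
      have h1 := mul_le_mul_of_nonneg_left v2 hA'.le
      have h2 : A' * E ≤ A' * (N : ℝ) ^ 8 * E := mul_le_mul_of_nonneg_right (le_mul_of_one_le_right hA'.le hN8) hE0.le
      linarith
    have w3 : (7 + A') * (N : ℝ) ^ 8 * E ≤ Real.exp (-(N : ℝ) ^ (g / 2)) := by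
      refine le_trans (le_of_eq ?_) q1
      rw [hE, show ((8 : ℝ)) = ((8 : ℕ) : ℝ) by norm_num, Real.rpow_natCast]
    linarith
  · rintro η ⟨hη1, hη2⟩ M Nt p hMf hM hNt hp hp' a ha hcase x x' hx'
    obtain ⟨F, hF⟩ : ∃ F : ℤ → ℝ, F = fun u => bh16 μ s t η p M Nt a u := ⟨_, rfl⟩
    have hcN := cN_pos (μ := μ) (s := s) (h := t) (pos_p hp hp') M Nt
    have hbT : ∀ (ζ : Env) (u : ℤ), bh16 μ s t ζ p M Nt a u =
        cN μ s t p M Nt * Real.exp (TG μ s t (kN M Nt a) (lN M Nt a) ζ ((a : ℤ), u)) := fun ζ u => bh_TG hp hp' ha u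
    have hFpos : ∀ u, 0 < F u := by
      intro u
      rw [hF]
      beta_reduce
      rw [hbT]
      positivity
    have hshift : ∀ (j u : ℤ), bh16 μ s t (sh (((0 : ℤ), 4 * (N : ℤ) * j) : Pt) η) p M Nt a (u - 4 * N * j) = F u := by
      intro j u
      rw [hF]
      beta_reduce
      rw [hbT, hbT, TG_sh]
      congr 3
      ext
      · show (a : ℤ) + 0 = a
        ring
      · show u - 4 * N * j + 4 * (N : ℤ) * j = u
        ring
    have hw : ∀ j : ℤ, |j| ≤ J → ∀ u v : ℤ, |u - 4 * N * j| ≤ 4 * N → |v - 4 * N * j| ≤ 4 * N →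
        F u ≤ Real.exp ((N : ℝ) ^ (ε / 4) * (EE μ s T + Real.sqrt |(u : ℝ) - v|)) * F v := by
      intro j hj u v hu hv
      have h1 := (HG _ (hBG _ (hη1 j hj)) M Nt p hMf hM hNt hp hp').cr a ha hcase (u - 4 * N * j) (v - 4 * N * j) hu hv
      rw [hshift, hshift] at h1
      have e1 : ((u - 4 * N * j : ℤ) : ℝ) - ((v - 4 * N * j : ℤ) : ℝ) = (u : ℝ) - v := by push_cast; ring
      rw [e1] at h1
      exact h1
    have hfx : bh16 μ s t η p M Nt a x = F x := by rw [hF]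
    have hfx' : bh16 μ s t η p M Nt a x' = F x' := by rw [hF]
    rw [hfx, hfx']
    obtain ⟨D, hD⟩ : ∃ D : ℝ, D = |(x : ℝ) - x'| := ⟨_, rfl⟩
    have hD0 : 0 ≤ D := by rw [hD]; exact abs_nonneg _
    rw [← hD]
    have hsN : 0 < Real.sqrt N := Real.sqrt_pos.2 hN0
    have hET := EE_pos (μ := μ) (s := s) T
    have hNε : 1 ≤ (N : ℝ) ^ ε := Real.one_le_rpow hNR hε.le
    have hpos : ∀ u : ℝ, 0 < (N : ℝ) ^ u := fun u => Real.rpow_pos_of_pos hN0 u
    have hadd : ∀ u v : ℝ, (N : ℝ) ^ u * (N : ℝ) ^ v = (N : ℝ) ^ (u + v) := fun u v => (Real.rpow_add hN0 u v).symm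
    by_cases hfx : |x| ≤ 4 * N * (J - 1)
    · -- the chain
      have hx4 : |x'| ≤ 4 * (N : ℤ) * (J - 1) := by
        refine hx'.trans (le_mul_of_one_le_right (by omega) ?_)
        rw [hJ]
        push_cast
        have : (1 : ℤ) ≤ (N : ℤ) ^ 8 := by exact_mod_cast Nat.one_le_pow _ _ (by omega)
        omega
      have h1 := chainD84 (F := F) (A := (N : ℝ) ^ (ε / 4)) (E := EE μ s T) hN1 (hpos _).le hET.le hFpos hw hfx hx4
      rw [← hD] at h1
      refine h1.trans (mul_le_mul_of_nonneg_right (Real.exp_le_exp.2 ?_) (hFpos _).le)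
      -- the unit of the box
      have hwN : wd μ s N ≤ N := by
        have h2 := (hwp 1 N le_rfl hN1).2.2
        rw [Nat.cast_one, div_one, wd'_eq' h hN1] at h2
        calc wd μ s N ≤ K₁ * (N : ℝ) ^ (1 - a₁) * Pool.Agent.W_7d29a1_HZ.wd' μ s 1 := h2
          _ = (K₁ * Pool.Agent.W_7d29a1_HZ.wd' μ s 1) * (N : ℝ) ^ (1 - a₁) := by ring
          _ ≤ (N : ℝ) ^ a₁ * (N : ℝ) ^ (1 - a₁) := mul_le_mul_of_nonneg_right q2 (by positivity)
          _ = N := by rw [← Real.rpow_add hN0, show a₁ + (1 - a₁) = 1 by ring, Real.rpow_one]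
      have hEN : EE μ s T ≤ (N : ℝ) ^ (ε / 4) * Real.sqrt N := by
        have h2 : EE μ s T ≤ EE μ s N := EE_mono hTN
        have h3 := hUB N k4
        have h4 : EE μ s N ^ 2 ≤ ((N : ℝ) ^ (ε / 4) * Real.sqrt N) ^ 2 := by
          rw [mul_pow, Real.sq_sqrt hN0.le]
          have h5 : (1 : ℝ) ≤ (N : ℝ) ^ (ε / 4) := Real.one_le_rpow hNR (by positivity)
          have h6 : (N : ℝ) ^ (ε / 4) ≤ ((N : ℝ) ^ (ε / 4)) ^ 2 := by
            rw [sq]
            exact le_mul_of_one_le_left (by linarith) h5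
          exact h3.trans (mul_le_mul h6 hwN (h.wd_nonneg N) (by positivity))
        exact h2.trans (le_of_pow_le_pow_left₀ two_ne_zero (by positivity) h4)
      have hs4 : Real.sqrt (4 * N) = 2 * Real.sqrt N := by
        rw [Real.sqrt_mul (by norm_num), show (4 : ℝ) = 2 ^ 2 by norm_num, Real.sqrt_sq (by norm_num)]
      have h5 : (1 : ℝ) ≤ (N : ℝ) ^ (ε / 4) := Real.one_le_rpow hNR (by positivity)
      have e1 : D / N * (EE μ s T + Real.sqrt (4 * N)) ≤ 3 * (N : ℝ) ^ (ε / 4) * (D / Real.sqrt N) := by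
        rw [hs4]
        have h6 : EE μ s T + 2 * Real.sqrt N ≤ 3 * (N : ℝ) ^ (ε / 4) * Real.sqrt N := by
          have := mul_le_mul_of_nonneg_right h5 hsN.le
          linarith
        have h7 : D / N = D / Real.sqrt N / Real.sqrt N := by
          rw [div_div, Real.mul_self_sqrt hN0.le]
        calc D / N * (EE μ s T + 2 * Real.sqrt N) ≤ D / N * (3 * (N : ℝ) ^ (ε / 4) * Real.sqrt N) :=
              mul_le_mul_of_nonneg_left h6 (by positivity)
          _ = 3 * (N : ℝ) ^ (ε / 4) * (D / Real.sqrt N / Real.sqrt N * Real.sqrt N) := by rw [h7]; ring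
          _ = _ := by rw [div_mul_cancel₀ _ hsN.ne']
      have e2 : (N : ℝ) ^ (ε / 4) * (3 * (N : ℝ) ^ (ε / 4)) ≤ (N : ℝ) ^ ε := by
        have h6 : (N : ℝ) ^ (ε / 4) * (N : ℝ) ^ (ε / 4) * (N : ℝ) ^ (ε / 4) ≤ (N : ℝ) ^ ε := by
          rw [hadd, hadd]
          exact Real.rpow_le_rpow_of_exponent_le hNR (by linarith)
        have h7 : (3 : ℝ) ≤ (N : ℝ) ^ (ε / 4) := by linarith
        have h8 := mul_le_mul_of_nonneg_left h7 (mul_nonneg (hpos (ε / 4)).le (hpos (ε / 4)).le)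
        linarith
      have e3 : (N : ℝ) ^ (ε / 4) ≤ (N : ℝ) ^ ε := Real.rpow_le_rpow_of_exponent_le hNR (by linarith)
      have e4 : 0 ≤ EE μ s T + Real.sqrt D := by positivity
      have e5 : 0 ≤ D / Real.sqrt N := by positivity
      calc (N : ℝ) ^ (ε / 4) * (EE μ s T + Real.sqrt D + D / N * (EE μ s T + Real.sqrt (4 * N)))
          ≤ (N : ℝ) ^ (ε / 4) * (EE μ s T + Real.sqrt D + 3 * (N : ℝ) ^ (ε / 4) * (D / Real.sqrt N)) :=
            mul_le_mul_of_nonneg_left (by linarith) (hpos _).le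
        _ = (N : ℝ) ^ (ε / 4) * (EE μ s T + Real.sqrt D) + (N : ℝ) ^ (ε / 4) * (3 * (N : ℝ) ^ (ε / 4)) * (D / Real.sqrt N) := by ring
        _ ≤ (N : ℝ) ^ ε * (EE μ s T + Real.sqrt D) + (N : ℝ) ^ ε * (D / Real.sqrt N) :=
            add_le_add (mul_le_mul_of_nonneg_right e3 e4) (mul_le_mul_of_nonneg_right e2 e5)
        _ = _ := by ring
    · -- the far columns
      rw [not_le] at hfx
      have hx8 : (N : ℝ) ^ 8 ≤ |(x : ℝ)| := by
        have h1 : (N : ℤ) ^ 8 ≤ |x| := by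
          have h2 : (N : ℤ) ^ 8 ≤ 4 * N * (J - 1) := by
            rw [hJ]
            push_cast
            rw [add_sub_cancel_right]
            exact le_mul_of_one_le_left (by positivity) (by omega)
          omega
        exact_mod_cast h1
      have h1 := hfar N k2 htN hη2 a (kN M Nt a) (lN M Nt a) (by
        have := kN_add M Nt a
        omega) x x' hx8 hx'
      rw [← hD] at h1
      rw [hF]
      beta_reduce
      rw [hbT, hbT]
      have h2 := mul_le_mul_of_nonneg_left (Real.exp_le_exp.2 h1) hcN.le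
      rw [Real.exp_add] at h2
      have h3 : D / Real.sqrt N ≤ (N : ℝ) ^ ε * (EE μ s T + Real.sqrt D + D / Real.sqrt N) := by
        have h4 : 0 ≤ EE μ s T + Real.sqrt D := by positivity
        have h5 : 0 ≤ D / Real.sqrt N := by positivity
        have h6 : EE μ s T + Real.sqrt D + D / Real.sqrt N ≤ (N : ℝ) ^ ε * (EE μ s T + Real.sqrt D + D / Real.sqrt N) :=
          le_mul_of_one_le_left (by positivity) hNε
        linarith
      have h4 := mul_le_mul_of_nonneg_right (Real.exp_le_exp.2 h3)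
        (show 0 ≤ cN μ s t p M Nt * Real.exp (TG μ s t (kN M Nt a) (lN M Nt a) η ((a : ℤ), x')) by positivity)
      linarith

end

end Pool.Agent.W_7d29a1_C1.Cr84
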