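import Pool.Agent.W_7d29a1_C1.DepA6

/-!
MP_7d29a1_pr, the attractor route: THE COUNT OF THE SCALES WHICH ARE FELT, ONE LIST OF CUTS PER PLACE. (helper6)

`Ok6` : no layer and no node without a row of `Sw` is felt at the scale `u`. `cntU6` : the number of the other scales is at most
`9 r + 9 (Sw.card * E₀)` at all the places, off a set of small probability. `cntN6` : with the numbers.
-/

set_option autoImplicit false

namespace Pool.Agent.W_7d29a1_C1.Dep6

open MeasureTheory ProbabilityTheory Finset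
open Pool.Agent.W_7d29a1_F Pool.Agent.W_7d29a1_h4g Pool.Agent.W_7d29a1_H Pool.Agent.W_7d29a1_HS
open Pool.Agent.W_7d29a1_C1.H75 Pool.Agent.W_7d29a1_C1.U16 Pool.Agent.W_7d29a1_C1.H40 Pool.Agent.W_7d29a1_C1.S71
open scoped ENNReal

noncomputable section

variable {Λ : Type*}

/-- **Nothing is felt at the scale `u`.** -/
def Ok6 (Sw : Finset ℤ) (dL : Cut Λ → Cut Λ → Env → ℕ) (dN : Cut Λ → Cut Λ → Cut Λ → Env → ℕ) (scL : Cut Λ → Cut Λ → ℕ)
    (scN : Cut Λ → Cut Λ → Cut Λ → ℕ) (Z : List (Cut Λ)) (u : ℕ) (η : Env) : Prop :=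
  NFL dL scL Z u η ∧ ∀ P a b e Q, Z = P ++ a :: b :: e :: Q → ¬ HasSw Sw a e → ¬ Felt (scN a b e) (dN a b e η) u

section One

variable [Inhabited Λ] {Sw : Finset ℤ} {E0 : ℕ} {dL : Cut Λ → Cut Λ → Env → ℕ} {dN : Cut Λ → Cut Λ → Cut Λ → Env → ℕ}
  {scL : Cut Λ → Cut Λ → ℕ} {scN : Cut Λ → Cut Λ → Cut Λ → ℕ} {Z : List (Cut Λ)} {η : Env}

open Classical in
/-- The count for one list. -/
theorem card_felt6 (hpw : Z.Pairwise fun c d => c.row ≤ d.row) (hd : ∀ P a b Q, Z = P ++ a :: b :: Q → dL a b η ≤ E0) (m : ℕ) :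
    ((range m).filter fun u => ¬ Ok6 Sw dL dN scL scN Z u η).card ≤
      3 * (SL (fun a b η => if HasSw Sw a b then 0 else dL a b η) Z η +
        SN (fun a b e η => if HasSw Sw a e then 0 else dN a b e η) Z η) + 9 * (Sw.card * E0) := by
  set dpL := sw6 Sw E0 dL with hdL
  set dpN := swN6 Sw E0 dN with hdN
  set fL : ℕ → ℕ := fun u => ∑ k ∈ range (Z.length - 1),
    (if Felt (scL (Z.getD k d0) (Z.getD (k + 1) d0)) (dpL (Z.getD k d0) (Z.getD (k + 1) d0) η) u then 1 else 0) with hfL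
  set fN : ℕ → ℕ := fun u => ∑ k ∈ range (Z.length - 2),
    (if Felt (scN (Z.getD k d0) (Z.getD (k + 1) d0) (Z.getD (k + 2) d0))
      (dpN (Z.getD k d0) (Z.getD (k + 1) d0) (Z.getD (k + 2) d0) η) u then 1 else 0) with hfN
  have h1 : ∀ u, ¬ Ok6 Sw dL dN scL scN Z u η → 1 ≤ fL u + fN u := by
    intro u hu
    by_contra hcon
    have hL0 : fL u = 0 := by omega
    have hN0 : fN u = 0 := by omega
    refine hu ⟨fun P a b Q e hF => ?_, fun P a b d Q e hs hF => ?_⟩
    · have h6 : ∀ k ∈ range (Z.length - 1), (if Felt (scL (Z.getD k d0) (Z.getD (k + 1) d0))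
          (dpL (Z.getD k d0) (Z.getD (k + 1) d0) η) u then 1 else 0) = 0 := Finset.sum_eq_zero_iff.1 hL0
      have hlen : Z.length = P.length + (Q.length + 2) := by rw [e]; simp
      have h7 := h6 P.length (mem_range.2 (by omega))
      have e1 : Z.getD P.length d0 = a := by rw [e]; exact getD_split2.1
      have e2 : Z.getD (P.length + 1) d0 = b := by rw [e]; exact getD_split2.2
      rw [e1, e2] at h7
      have h8 : ¬ Felt (scL a b) (dpL a b η) u := fun h => by rw [if_pos h] at h7; omega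
      exact nfelt6 (hdL ▸ h8) (Or.inl (hd P a b Q e)) hF
    · have h6 : ∀ k ∈ range (Z.length - 2), (if Felt (scN (Z.getD k d0) (Z.getD (k + 1) d0) (Z.getD (k + 2) d0))
          (dpN (Z.getD k d0) (Z.getD (k + 1) d0) (Z.getD (k + 2) d0) η) u then 1 else 0) = 0 :=
        Finset.sum_eq_zero_iff.1 hN0
      have hlen : Z.length = P.length + (Q.length + 3) := by rw [e]; simp
      have h7 := h6 P.length (mem_range.2 (by omega))
      have e1 : Z.getD P.length d0 = a := by rw [e]; exact getD_split2.1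
      have e2 : Z.getD (P.length + 1) d0 = b := by rw [e]; exact getD_split2.2
      have e3 : Z.getD (P.length + 2) d0 = d := by rw [e]; exact getD_split3
      rw [e1, e2, e3] at h7
      have h8 : ¬ Felt (scN a b d) (dpN a b d η) u := fun h => by rw [if_pos h] at h7; omega
      rw [hdN, swN6_neg hs] at h8
      exact h8 hF
  have hLs : ∑ u ∈ range m, fL u ≤ 3 * SL dpL Z η := by
    rw [hfL, sum_comm]
    unfold SL
    rw [mul_sum]
    exact sum_le_sum fun k _ => sum_felt _ _ _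
  have hNs : ∑ u ∈ range m, fN u ≤ 3 * SN dpN Z η := by
    rw [hfN, sum_comm]
    unfold SN
    rw [mul_sum]
    exact sum_le_sum fun k _ => sum_felt _ _ _
  have hc : ((range m).filter fun u => ¬ Ok6 Sw dL dN scL scN Z u η).card ≤ ∑ u ∈ range m, (fL u + fN u) := by
    rw [card_filter]
    refine sum_le_sum fun u _ => ?_
    by_cases hu : Ok6 Sw dL dN scL scN Z u η
    · rw [if_neg (not_not.2 hu)]
      exact Nat.zero_le _
    · rw [if_pos hu]
      exact h1 u hu
  have h5 := SL_sw hpw Sw (dpL := dpL) (η := η) (E0 := E0) (fun a b hs => (sw6_pos hs).le)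
  have h6 := SN_sw hpw Sw (dpN := dpN) (η := η) (E0 := E0) (fun a b e hs => (swN6_pos hs).le)
  have e5 : (fun (a b : Cut Λ) (η : Env) => if HasSw Sw a b then 0 else dpL a b η) =
      fun a b η => if HasSw Sw a b then 0 else dL a b η := by
    funext a b η
    by_cases hs : HasSw Sw a b
    · rw [if_pos hs, if_pos hs]
    · rw [if_neg hs, if_neg hs]
      exact sw6_neg hs
  have e6 : (fun (a b e : Cut Λ) (η : Env) => if HasSw Sw a e then 0 else dpN a b e η) =
      fun a b e η => if HasSw Sw a e then 0 else dN a b e η := by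
    funext a b e η
    by_cases hs : HasSw Sw a e
    · rw [if_pos hs, if_pos hs]
    · rw [if_neg hs, if_neg hs]
      exact swN6_neg hs
  rw [e5] at h5
  rw [e6] at h6
  rw [sum_add_distrib] at hc
  omega

end One

open Classical in
/-- **THE COUNT**, one list of cuts per place. -/
theorem cntU6 [Inhabited Λ] {σ : Type*} {μ : Measure ℝ} [IsProbabilityMeasure μ] {dL : Cut Λ → Cut Λ → Env → ℕ}
    {dN : Cut Λ → Cut Λ → Cut Λ → Env → ℕ} {z M tl : ℝ≥0∞} (hL : Dp2 μ z M dL) (hN : Dp3 μ z M dN) (hz : 1 ≤ z) (hz' : z ≠ ∞)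
    (hM : 1 ≤ M) (Sw : Finset ℤ) (E0 : ℕ) (htl : ∀ a b, law μ {η | E0 < dL a b η} ≤ tl) (scL : Cut Λ → Cut Λ → ℕ)
    (scN : Cut Λ → Cut Λ → Cut Λ → ℕ) {F : Finset (Cut Λ)} {W : Finset σ} {Zf : σ → List (Cut Λ)} {n : ℕ}
    (hpw : ∀ x ∈ W, (Zf x).Pairwise fun c d => c.row ≤ d.row) (hlen : ∀ x ∈ W, (Zf x).length ≤ n) (hF : ∀ x ∈ W, ∀ d ∈ Zf x, d ∈ F)
    (r m : ℕ) :
    law μ {η | ∃ x ∈ W, 9 * r + 9 * (Sw.card * E0) < ((range m).filter fun u => ¬ Ok6 Sw dL dN scL scN (Zf x) u η).card} ≤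
      (F.card : ℝ≥0∞) ^ 2 * tl + (W.card : ℝ≥0∞) * (3 * (M ^ n / z ^ r)) := by
  have hP : IsProbabilityMeasure (law μ) := by unfold law; infer_instance
  set dpL' : Cut Λ → Cut Λ → Env → ℕ := fun a b η => if HasSw Sw a b then 0 else dL a b η with hdL
  set dpN' : Cut Λ → Cut Λ → Cut Λ → Env → ℕ := fun a b e η => if HasSw Sw a e then 0 else dN a b e η with hdN
  have mL' : ∀ a b, Measurable (dpL' a b) := fun a b => by
    by_cases hs : HasSw Sw a b
    · have e : dpL' a b = fun _ => 0 := funext fun η => if_pos hs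
      rw [e]; exact measurable_const
    · have e : dpL' a b = dL a b := funext fun η => if_neg hs
      rw [e]; exact hL.meas a b
  have mN' : ∀ a b e, Measurable (dpN' a b e) := fun a b e => by
    by_cases hs : HasSw Sw a e
    · have e : dpN' a b e = fun _ => 0 := funext fun η => if_pos hs
      rw [e]; exact measurable_const
    · have e : dpN' a b e = dN a b e := funext fun η => if_neg hs
      rw [e]; exact hN.meas _ _ _
  have rL' : ∀ a b (η η' : Env), (∀ p ∈ btw a b, η p = η' p) → dpL' a b η = dpL' a b η' := fun a b η η' he => by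
    show (if HasSw Sw a b then 0 else dL a b η) = if HasSw Sw a b then 0 else dL a b η'
    rw [hL.rows a b η η' he]
  have rN' : ∀ a b c (η η' : Env), (∀ p ∈ btw a c, η p = η' p) → dpN' a b c η = dpN' a b c η' := fun a b c η η' he => by
    show (if HasSw Sw a c then 0 else dN a b c η) = if HasSw Sw a c then 0 else dN a b c η'
    rw [hN.rows a b c η η' he]
  have momL' : ∀ a b, ∫⁻ η, z ^ dpL' a b η ∂(law μ) ≤ M := fun a b => by
    by_cases hs : HasSw Sw a b
    · have e : ∀ η, z ^ dpL' a b η = 1 := fun η => by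
        show z ^ (if HasSw Sw a b then 0 else dL a b η) = 1
        rw [if_pos hs, pow_zero]
      simp only [e, lintegral_const, measure_univ, mul_one]
      exact hM
    · have e : dpL' a b = dL a b := funext fun η => if_neg hs
      rw [e]; exact hL.mom a b
  have momN' : ∀ a b e, ∫⁻ η, z ^ dpN' a b e η ∂(law μ) ≤ M := fun a b e => by
    by_cases hs : HasSw Sw a e
    · have e' : ∀ η, z ^ dpN' a b e η = 1 := fun η => by
        show z ^ (if HasSw Sw a e then 0 else dN a b e η) = 1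
        rw [if_pos hs, pow_zero]
      simp only [e', lintegral_const, measure_univ, mul_one]
      exact hM
    · have e' : dpN' a b e = dN a b e := funext fun η => if_neg hs
      rw [e']; exact hN.mom _ _ _
  have hx : ∀ x ∈ W, law μ {η | 3 * r ≤ SL dpL' (Zf x) η + SN dpN' (Zf x) η} ≤ 3 * (M ^ n / z ^ r) := fun x hx =>
    tailZ mL' mN' rL' rN' hz hz' hM (hpw x hx) (hlen x hx) (fun _ _ => momL' _ _) (fun _ _ => momN' _ _ _) r
  have hU : law μ (⋃ x ∈ W, {η | 3 * r ≤ SL dpL' (Zf x) η + SN dpN' (Zf x) η}) ≤ (W.card : ℝ≥0∞) * (3 * (M ^ n / z ^ r)) := by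
    refine (measure_biUnion_finset_le W _).trans ((sum_le_sum hx).trans (le_of_eq ?_))
    rw [sum_const, nsmul_eq_mul]
  refine (measure_mono (fun η hη => ?_)).trans ((measure_union_le (bad6 F dL E0) _).trans (add_le_add (bad6_le htl) hU))
  by_cases hb : η ∈ bad6 F dL E0
  · exact Or.inl hb
  refine Or.inr ?_
  obtain ⟨x, hxW, hlt⟩ := hη
  refine Set.mem_iUnion₂.2 ⟨x, hxW, ?_⟩
  show 3 * r ≤ SL dpL' (Zf x) η + SN dpN' (Zf x) η
  by_contra hcon
  have h1 := card_felt6 (Sw := Sw) (E0 := E0) (dL := dL) (dN := dN) (scL := scL) (scN := scN) (η := η) (hpw x hxW)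
    (fun P a b Q e => by
      by_contra hc
      exact hb ⟨a, hF x hxW a (by rw [e]; simp), b, hF x hxW b (by rw [e]; simp), not_le.1 hc⟩) m
  change _ ≤ 3 * (SL dpL' (Zf x) η + SN dpN' (Zf x) η) + _ at h1
  omega

/-- **The numbers of the count**: `M = 2`, `z = z₀ ^ k`. -/
theorem numU6 (A L c : ℕ) (hA : 1 ≤ A) : ∃ z : ℕ, 1 ≤ z ∧ ∀ m r : ℕ, 1 ≤ m → ∀ k : ℕ, m ≤ k * r → ∀ W : ℕ, W ≤ A ^ m →
    (W : ℝ≥0∞) * (3 * ((2 : ℝ≥0∞) ^ (c * m) / ((z : ℝ≥0∞) ^ k) ^ r)) ≤ ((L : ℝ≥0∞) + 1)⁻¹ ^ m := by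
  set D : ℕ := A * 3 * 2 ^ c * (L + 1) with hD
  have hDp : 1 ≤ D := Nat.mul_pos (Nat.mul_pos (Nat.mul_pos hA (by norm_num)) (by positivity)) (by omega)
  refine ⟨D, hDp, fun m r hm k hk W hW => ?_⟩
  have h2 : (3 : ℕ) ≤ 3 ^ m := by
    calc 3 = 3 ^ 1 := (pow_one 3).symm
      _ ≤ 3 ^ m := Nat.pow_le_pow_right (by norm_num) hm
  have h4 : W * (3 * 2 ^ (c * m)) * (L + 1) ^ m ≤ D ^ (k * r) := by
    calc W * (3 * 2 ^ (c * m)) * (L + 1) ^ m ≤ A ^ m * (3 ^ m * 2 ^ (c * m)) * (L + 1) ^ m :=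
          Nat.mul_le_mul_right _ (Nat.mul_le_mul hW (Nat.mul_le_mul_right _ h2))
      _ = D ^ m := by rw [hD, pow_mul]; simp only [mul_pow]; ring
      _ ≤ D ^ (k * r) := Nat.pow_le_pow_right hDp hk
  have hDz : ((D : ℝ≥0∞) ^ (k * r)) ≠ 0 := pow_ne_zero _ (by exact_mod_cast (show D ≠ 0 by omega))
  have hDt : ((D : ℝ≥0∞) ^ (k * r)) ≠ ∞ := ENNReal.pow_ne_top (ENNReal.natCast_ne_top D)
  have hLz : ((L : ℝ≥0∞) + 1) ^ m ≠ 0 := pow_ne_zero _ (by positivity)
  have hLt : ((L : ℝ≥0∞) + 1) ^ m ≠ ∞ := ENNReal.pow_ne_top (by finiteness)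
  rw [← pow_mul, ← ENNReal.inv_pow, ← mul_div_assoc, ← mul_div_assoc, ENNReal.div_le_iff hDz hDt]
  rw [← ENNReal.div_eq_inv_mul, ENNReal.le_div_iff_mul_le (Or.inl hLz) (Or.inl hLt)]
  exact_mod_cast h4

end

end Pool.Agent.W_7d29a1_C1.Dep6
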