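import Pool.Agent.W_7d29a1_C1.UnW77
import Pool.Agent.W_7d29a1_C1.DepU6
import Pool.Agent.W_7d29a1_C1.ShlC8

/-!
MP_7d29a1_pr, attractor route [C1], side N of ShlC8: THE TOWER COUNT `hUT77` WITH ALL THE NUMBERS (helper90, hand of helper77).

`ctQ90` : the moment base `z` is chosen before everything of the grid; eventually in `n`, for all grids and all sets of at most `n ^ 16`
sites: from the clause `Ok6 → OkS6 → η ∉ A u c` (all scales `u < m8 + 1 + y`) off a set of probability `n ^ (-3)` to `#F ≤ δ m8` for the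
scales `u ≤ m8` one of whose shifts `u + s`, `s ∈ sh`, is in `A`, off a set of probability `n ^ (-2)`.
-/

set_option autoImplicit false
set_option linter.unusedSectionVars false

namespace Pool.Agent.W_7d29a1_C1.Ct90

open MeasureTheory ProbabilityTheory Finset Filter Topology
open Pool.Agent.W_7d29a1_F Pool.Agent.W_7d29a1_h4g Pool.Agent.W_7d29a1_H Pool.Agent.W_7d29a1_HS
open Pool.Agent.W_7d29a1_C1.T10 (Gd pt Tg Hg Tg_pos Tg_mono Hg_mono GW)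
open Pool.Agent.W_7d29a1_C1.H75 Pool.Agent.W_7d29a1_C1.U16 Pool.Agent.W_7d29a1_C1.H40 Pool.Agent.W_7d29a1_C1.S71
open Pool.Agent.W_7d29a1_C1.H60
open Pool.Agent.W_7d29a1_C1.H8
open Pool.Agent.W_7d29a1_C1.H77
open Pool.Agent.W_7d29a1_C1.Dep6
open scoped ENNReal

noncomputable section

variable {μ : Measure ℝ} [IsProbabilityMeasure μ]

/-- `(L + 1) ^ (- m) ≤ n ^ (- q)` for `m ≥ κ log n`. -/
theorem pow_le90 {L : ℕ} {κ q : ℝ} (hL : q ≤ κ * Real.log ((L : ℝ) + 1)) {n m : ℕ} (hn : 1 ≤ n)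
    (hm : κ * Real.log n ≤ m) : (((L : ℝ) + 1)⁻¹) ^ m ≤ (n : ℝ) ^ (-q) := by
  have hn0 : (0 : ℝ) < n := by exact_mod_cast hn
  have hL1 : (0 : ℝ) < (L : ℝ) + 1 := by positivity
  have hlog : 0 ≤ Real.log ((L : ℝ) + 1) := Real.log_nonneg (by linarith [(Nat.cast_nonneg L : (0 : ℝ) ≤ L)])
  have hlogn : 0 ≤ Real.log n := Real.log_nonneg (by exact_mod_cast hn)
  have e1 : (((L : ℝ) + 1)⁻¹) ^ m = Real.exp (-(m * Real.log ((L : ℝ) + 1))) := by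
    rw [Real.exp_neg, Real.exp_nat_mul, Real.exp_log hL1, inv_pow]
  rw [e1, Real.rpow_def_of_pos hn0]
  refine Real.exp_le_exp.2 ?_
  have h1 : κ * Real.log n * Real.log ((L : ℝ) + 1) ≤ m * Real.log ((L : ℝ) + 1) := mul_le_mul_of_nonneg_right hm hlog
  have h2 : q * Real.log n ≤ κ * Real.log ((L : ℝ) + 1) * Real.log n := mul_le_mul_of_nonneg_right hL hlogn
  nlinarith

/-- `n ^ p ≤ C ^ m` for `m ≥ κ log n`. -/
theorem le_pow90 {C κ p : ℝ} (hκ : 0 < κ) (hp : 0 ≤ p) (hC : Real.exp (p / κ) ≤ C) {n m : ℕ} (hn : 1 ≤ n)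
    (hm : κ * Real.log n ≤ m) : (n : ℝ) ^ p ≤ C ^ m := by
  have hn0 : (0 : ℝ) < n := by exact_mod_cast hn
  have e1 : (n : ℝ) ^ p = Real.exp (Real.log n * p) := Real.rpow_def_of_pos hn0 _
  have e2 : Real.exp (p / κ) ^ m = Real.exp (m * (p / κ)) := (Real.exp_nat_mul _ _).symm
  have h2 : Real.exp (p / κ) ^ m ≤ C ^ m := pow_le_pow_left₀ (Real.exp_pos _).le hC m
  refine le_trans ?_ h2
  rw [e1, e2]
  refine Real.exp_le_exp.2 ?_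
  have h3 := mul_le_mul_of_nonneg_right hm (show 0 ≤ p / κ by positivity)
  have e3 : κ * Real.log n * (p / κ) = Real.log n * p := by
    field_simp
  linarith

/-- **THE TOWER PART OF THE COUNT, WITH THE NUMBERS.** -/
theorem numT90 {δ κ : ℝ} (hδ : 0 < δ) (hκ : 0 < κ) (nS : ℕ) {A a g A' a' g' th : ℝ} (hA : 0 < A) (ha : 0 < a) (hg : 0 < g)
    (hA' : 0 < A') (ha' : 0 < a') (hg' : 0 < g') (hth : 1 < th) :
    ∃ (z δ₀ : ℝ), 1 ≤ z ∧ 0 < δ₀ ∧ ∀ᶠ n : ℕ in atTop, ∀ m : ℕ, κ * Real.log n ≤ m → ∃ r E₀ : ℕ, δ₀ * m ≤ E₀ ∧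
      ((9 * r + 9 * (nS * E₀) : ℕ) : ℝ) ≤ δ * m ∧
      ∀ q₀ : ℝ, 1 ≤ q₀ → ∀ (tl M : ℝ≥0∞) (f w l : ℕ), tl ≤ ENNReal.ofReal (A * Real.exp (-(a * (q₀ * th ^ E₀) ^ g)) +
          A' * Real.exp (-(a' * (q₀ * th ^ E₀) ^ g'))) → M ≤ 2 → (f : ℝ) ≤ (n : ℝ) ^ (18 : ℝ) → (w : ℝ) ≤ (n : ℝ) ^ (16 : ℝ) →
          l ≤ 5 * m → (f : ℝ≥0∞) ^ 2 * tl + w * (3 * (M ^ l / (ENNReal.ofReal z) ^ r)) ≤ ENNReal.ofReal ((n : ℝ) ^ (-(4 : ℝ))) := by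
  obtain ⟨D, k, δ₀, hD, hk, hδ₀, hbud⟩ := budget6 hδ nS
  obtain ⟨lam₀, hlam⟩ := hbud 0
  obtain ⟨mb, hmb⟩ := hlam lam₀ 0 le_rfl
  obtain ⟨A0, hA0⟩ := exists_nat_ge (max 1 (Real.exp (16 / κ)))
  have hA01 : (1 : ℝ) ≤ A0 := (le_max_left _ _).trans hA0
  have hA02 : Real.exp (16 / κ) ≤ A0 := (le_max_right _ _).trans hA0
  obtain ⟨C, hC⟩ : ∃ C : ℝ, C = max 1 (Real.exp (18 / κ)) := ⟨_, rfl⟩
  have hC1 : 1 ≤ C := hC ▸ le_max_left _ _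
  have hC2 : Real.exp (18 / κ) ≤ C := hC ▸ le_max_right _ _
  obtain ⟨L, hL⟩ := exists_nat_ge (Real.exp (6 / κ))
  have hLq : 6 ≤ κ * Real.log ((L : ℝ) + 1) := by
    have h1 : Real.exp (6 / κ) ≤ (L : ℝ) + 1 := by linarith
    have h2 := Real.log_le_log (Real.exp_pos _) h1
    rw [Real.log_exp] at h2
    have h3 := mul_le_mul_of_nonneg_left h2 hκ.le
    rwa [mul_div_cancel₀ _ hκ.ne'] at h3
  obtain ⟨z₀, hz₀, hnum⟩ := numU6 A0 L 5 (by exact_mod_cast hA01)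
  obtain ⟨m₁, hm₁⟩ := rare6 hA ha hg hth hδ₀ C L hC1 (Nat.cast_nonneg L)
  obtain ⟨m₂, hm₂⟩ := rare6 hA' ha' hg' hth hδ₀ C L hC1 (Nat.cast_nonneg L)
  refine ⟨(z₀ : ℝ) ^ k, δ₀, one_le_pow₀ (by exact_mod_cast hz₀), hδ₀, ?_⟩
  have hbig : ∀ᶠ n : ℕ in atTop, ((max (max m₁ m₂) (max mb 1) : ℕ) : ℝ) ≤ κ * Real.log n :=
    ((Real.tendsto_log_atTop.comp tendsto_natCast_atTop_atTop).const_mul_atTop hκ).eventually_ge_atTop _
  filter_upwards [hbig, eventually_ge_atTop 4] with n hn hn4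
  intro m hm
  have hmm : max (max m₁ m₂) (max mb 1) ≤ m := by exact_mod_cast hn.trans hm
  have k1 : m₁ ≤ m := ((le_max_left _ _).trans (le_max_left _ _)).trans hmm
  have k2 : m₂ ≤ m := ((le_max_right _ _).trans (le_max_left _ _)).trans hmm
  have k3 : mb ≤ m := ((le_max_left _ _).trans (le_max_right _ _)).trans hmm
  have k4 : 1 ≤ m := ((le_max_right _ _).trans (le_max_right _ _)).trans hmm
  obtain ⟨r, E₀, hr, hE, hb⟩ := hmb m 0 k3 (by omega)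
  refine ⟨r, E₀, hE, le_trans ?_ hb, ?_⟩
  · exact_mod_cast (by omega : 9 * r + 9 * (nS * E₀) ≤ 6 * (0 + 3) * nSt 0 0 lam₀ + 2 * ((0 + 0) / D) + 9 * r + 9 * (nS * E₀))
  intro q₀ hq₀ tl M f w l htl hM2 hf hw hl
  have hn1 : 1 ≤ n := by omega
  have hn0 : (0 : ℝ) < n := by exact_mod_cast hn1
  obtain ⟨Y, hY⟩ : ∃ Y : ℝ, Y = (((L : ℝ) + 1)⁻¹) ^ m := ⟨_, rfl⟩
  have hY0 : 0 ≤ Y := by rw [hY]; positivity
  have hYn : Y ≤ (n : ℝ) ^ (-(6 : ℝ)) := by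
    rw [hY]
    exact pow_le90 hLq hn1 hm
  have hYe : ENNReal.ofReal Y = ((L : ℝ≥0∞) + 1)⁻¹ ^ m := by
    rw [hY, ENNReal.ofReal_pow (by positivity), ENNReal.ofReal_inv_of_pos (by positivity)]
    congr 2
    rw [ENNReal.ofReal_add (Nat.cast_nonneg _) zero_le_one, ENNReal.ofReal_natCast, ENNReal.ofReal_one]
  have t1 : (f : ℝ≥0∞) ^ 2 * tl ≤ ENNReal.ofReal (2 * Y) := by
    have e1 : (f : ℝ≥0∞) ^ 2 = ENNReal.ofReal ((f : ℝ) ^ 2) := by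
      rw [ENNReal.ofReal_pow (Nat.cast_nonneg _), ENNReal.ofReal_natCast]
    refine (mul_le_mul' le_rfl htl).trans ?_
    rw [e1, ← ENNReal.ofReal_mul (by positivity)]
    refine ENNReal.ofReal_le_ofReal ?_
    have hF2 : (f : ℝ) ^ 2 ≤ (C ^ m) ^ 2 := pow_le_pow_left₀ (Nat.cast_nonneg _) (hf.trans (le_pow90 hκ (by norm_num) hC2 hn1 hm)) 2
    have h1 := hm₁ m k1 E₀ hE q₀ hq₀
    have h2 := hm₂ m k2 E₀ hE q₀ hq₀
    rw [← hY] at h1 h2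
    have p1 : 0 ≤ A * Real.exp (-(a * (q₀ * th ^ E₀) ^ g)) := by positivity
    have p2 : 0 ≤ A' * Real.exp (-(a' * (q₀ * th ^ E₀) ^ g')) := by positivity
    calc (f : ℝ) ^ 2 * (A * Real.exp (-(a * (q₀ * th ^ E₀) ^ g)) + A' * Real.exp (-(a' * (q₀ * th ^ E₀) ^ g')))
        ≤ (C ^ m) ^ 2 * (A * Real.exp (-(a * (q₀ * th ^ E₀) ^ g)) + A' * Real.exp (-(a' * (q₀ * th ^ E₀) ^ g'))) :=
          mul_le_mul_of_nonneg_right hF2 (by positivity)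
      _ ≤ 2 * Y := by
          rw [mul_add]
          linarith
  have hwA : w ≤ A0 ^ m := by
    have h1 := hw.trans (le_pow90 hκ (by norm_num) hA02 hn1 hm)
    exact_mod_cast h1
  have hz1 : (1 : ℝ≥0∞) ≤ (z₀ : ℝ≥0∞) := by exact_mod_cast hz₀
  have t2 : (w : ℝ≥0∞) * (3 * (M ^ l / (ENNReal.ofReal ((z₀ : ℝ) ^ k)) ^ r)) ≤ ENNReal.ofReal Y := by
    have h1 := hnum m r k4 k hr w hwA
    rw [hYe]
    refine le_trans (mul_le_mul' le_rfl (mul_le_mul' le_rfl ?_)) h1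
    have e1 : ENNReal.ofReal ((z₀ : ℝ) ^ k) = (z₀ : ℝ≥0∞) ^ k := by
      rw [ENNReal.ofReal_pow (Nat.cast_nonneg _), ENNReal.ofReal_natCast]
    rw [e1]
    refine ENNReal.div_le_div_right ?_ _
    calc M ^ l ≤ 2 ^ l := pow_le_pow_left' hM2 l
      _ ≤ 2 ^ (5 * m) := pow_le_pow_right₀ (by norm_num) hl
  refine (add_le_add t1 t2).trans ?_
  rw [← ENNReal.ofReal_add (by positivity) hY0]
  refine ENNReal.ofReal_le_ofReal ?_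
  have e6 : (n : ℝ) ^ (-(6 : ℝ)) * (n : ℝ) ^ (2 : ℝ) = (n : ℝ) ^ (-(4 : ℝ)) := by
    rw [← Real.rpow_add hn0]
    norm_num
  have e7 : (3 : ℝ) ≤ (n : ℝ) ^ (2 : ℝ) := by
    have e8 : (n : ℝ) ^ (2 : ℝ) = (n : ℝ) ^ 2 := by exact_mod_cast Real.rpow_natCast (n : ℝ) 2
    have e9 : (4 : ℝ) ≤ n := by exact_mod_cast hn4
    rw [e8]
    nlinarith
  have e10 : 0 ≤ (n : ℝ) ^ (-(6 : ℝ)) := Real.rpow_nonneg hn0.le _
  calc 2 * Y + Y ≤ 3 * (n : ℝ) ^ (-(6 : ℝ)) := by linarith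
    _ ≤ (n : ℝ) ^ (2 : ℝ) * (n : ℝ) ^ (-(6 : ℝ)) := mul_le_mul_of_nonneg_right e7 e10
    _ = (n : ℝ) ^ (-(4 : ℝ)) := by rw [mul_comm, e6]

/-- **THE TOWER COUNT, WITH THE NUMBERS.** -/
theorem ctQ90 {s : ℝ} {e : ℝ} (he : 0 < e) (he1 : e ≤ 1 / 32) {K : ℕ} (hK : 2 ≤ K) {δ : ℝ} (hδ : 0 < δ)
    (nS nh : ℕ) {A a g A' a' g' th : ℝ} (hA : 0 < A) (ha : 0 < a) (hg : 0 < g) (hA' : 0 < A') (ha' : 0 < a') (hg' : 0 < g')
    (hth : 1 < th) :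
    ∃ (z δ₀ : ℝ), 1 ≤ z ∧ 0 < δ₀ ∧
      ∀ e₀ : ℝ, 0 < e₀ → e₀ ≤ e → ∀ (x y : ℕ) (R C₀ : ℝ) (B Q : ℕ), 1 ≤ Q → ∀ᶠ n : ℕ in atTop, ∃ E₀ : ℕ, δ₀ * m8 K e n ≤ E₀ ∧
      ∀ G : Gd, GW μ s R B C₀ (h8 Q e₀ n) K (m8 K e n + x) G → ∀ S : Finset (ℕ × ℤ), (S.card : ℝ) ≤ (n : ℝ) ^ (16 : ℝ) →
      ∀ {dL : Cut (ℕ × ℤ) → Cut (ℕ × ℤ) → Env → ℕ} {dN : Cut (ℕ × ℤ) → Cut (ℕ × ℤ) → Cut (ℕ × ℤ) → Env → ℕ} {M tl : ℝ≥0∞},
      1 ≤ M → M ≤ 2 → Dp2 μ (ENNReal.ofReal z) M dL → Dp3 μ (ENNReal.ofReal z) M dN → ∀ Sw : Finset ℤ, Sw.card ≤ nS → ∀ q₀ : ℝ, 1 ≤ q₀ →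
      (∀ a b, law μ {η | E₀ < dL a b η} ≤ tl) → tl ≤ ENNReal.ofReal (A * Real.exp (-(a * (q₀ * th ^ E₀) ^ g)) +
          A' * Real.exp (-(a' * (q₀ * th ^ E₀) ^ g'))) →
      ∀ (scL : Cut (ℕ × ℤ) → Cut (ℕ × ℤ) → ℕ) (scN : Cut (ℕ × ℤ) → Cut (ℕ × ℤ) → Cut (ℕ × ℤ) → ℕ) {bad : Set Env}
        {Qp : ℕ × ℤ → Env → Prop} {Un : ℕ → ℕ × ℤ → Set Env}, law μ bad ≤ ENNReal.ofReal ((n : ℝ) ^ (-(3 : ℝ))) →
      (∀ η ∉ bad, ∀ c ∈ S, Qp c η → ∀ u < m8 K e n + 1 + y,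
        Ok6 Sw dL dN scL scN (Zt77 G (Tg (h8 Q e₀ n) K) (m8 K e n + x) c) u η →
        OkS6 Sw E₀ scL scN (Zt77 G (Tg (h8 Q e₀ n) K) (m8 K e n + x) c) u → η ∉ Un u c) →
      ∀ sh : Finset ℕ, sh.card ≤ nh → (∀ s ∈ sh, s ≤ y) → ∃ Bd : Set Env, bad ⊆ Bd ∧
        law μ Bd ≤ ENNReal.ofReal ((n : ℝ) ^ (-(2 : ℝ))) ∧ ∀ η ∉ Bd, ∀ c' ∈ S, Qp c' η → ∀ F : Finset ℕ, F ⊆ range (m8 K e n + 1) →
          (∀ u ∈ F, ∃ s' ∈ sh, η ∈ Un (u + s') c') → (F.card : ℝ) ≤ δ * m8 K e n := by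
  have hKR : (2 : ℝ) ≤ K := by exact_mod_cast hK
  have hK1 : (1 : ℝ) < K := by linarith
  have hlK : 0 < Real.log K := Real.log_pos hK1
  obtain ⟨κ, hκd⟩ : ∃ κ : ℝ, κ = e / (8 * Real.log K) := ⟨_, rfl⟩
  have hκ0 : 0 < κ := by rw [hκd]; positivity
  obtain ⟨dd, hdd⟩ : ∃ dd : ℝ, dd = δ / ((nh : ℝ) + 1) := ⟨_, rfl⟩
  have hnh : (0 : ℝ) ≤ nh := Nat.cast_nonneg _
  have hdd0 : 0 < dd := by rw [hdd]; positivity
  have hddn : (nh : ℝ) * dd ≤ δ := by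
    have h1 : ((nh : ℝ) + 1) * dd = δ := by
      rw [hdd]
      field_simp
    nlinarith
  obtain ⟨z, δ₀, hz, hδ₀, HN⟩ := numT90 hdd0 hκ0 nS hA ha hg hA' ha' hg' hth
  refine ⟨z, δ₀, hz, hδ₀, fun e₀ he₀ hee x y R C₀ B Q hQ => ?_⟩
  have hlog : Tendsto (fun n : ℕ => κ * Real.log n) atTop atTop :=
    (Real.tendsto_log_atTop.comp tendsto_natCast_atTop_atTop).const_mul_atTop hκ0
  filter_upwards [gridN8 (x := x) he he1 he₀ hee hK hQ, HN, hlog.eventually_ge_atTop ((x + 1 : ℕ) : ℝ),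
    eventually_ge_atTop 8] with n hg8 hN hl hn8
  have hm1 := hg8.m1
  rw [← hκd] at hm1
  have hmm : x + 1 ≤ m8 K e n := by exact_mod_cast hl.trans hm1
  have hLx := hg8.Lx
  obtain ⟨m, hmd⟩ : ∃ m : ℕ, m = m8 K e n := ⟨_, rfl⟩
  rw [← hmd] at hm1 hmm hLx ⊢
  obtain ⟨r, E₀, hE, hb, HX⟩ := hN m hm1
  refine ⟨E₀, hE, fun G hG S hS {dL dN M tl} hM1 hM2 hdL hdN Sw hSw q₀ hq₀ htl htl' scL scN {bad Qp Un} hbad hcl sh hsh hsy => ?_⟩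
  obtain ⟨T, hT⟩ : ∃ T : ℕ → ℕ, T = Tg (h8 Q e₀ n) K := ⟨_, rfl⟩
  rw [← hT] at hcl
  have hn1 : 1 ≤ n := by omega
  have hnR : (8 : ℝ) ≤ n := by exact_mod_cast hn8
  have n0 : (0 : ℝ) < n := by linarith
  have hTm : Monotone T := hT ▸ fun i j h => Tg_mono (by omega) h
  have hz1 : 1 ≤ ENNReal.ofReal z := by
    rw [← ENNReal.ofReal_one]
    exact ENNReal.ofReal_le_ofReal hz
  -- the towers
  have hHT : ∀ v, v < m + x → G.H (v + 1) + T v ≤ T (v + 1) + G.H v := by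
    intro v _
    have hok : G.H (v + 1) = Hg (h8 Q e₀ n) K (v + 1) := hG.H _
    have hok' : G.H v = Hg (h8 Q e₀ n) K v := hG.H _
    rw [hok, hok', hT]
    rcases Nat.eq_zero_or_pos v with h0 | h0
    · subst h0
      rw [T10.Tg_zero, Tg_pos (by omega)]
      unfold Hg
      simp only [max_self, Nat.zero_max, zero_add]
      have : 0 ≤ h8 Q e₀ n * K ^ 1 := Nat.zero_le _
      omega
    · rw [Tg_pos h0, Tg_pos (by omega)]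
      unfold Hg
      rw [max_eq_left (show 1 ≤ v by omega), max_eq_left (show 1 ≤ v + 1 by omega)]
      have h1 : h8 Q e₀ n * K ^ v ≤ h8 Q e₀ n * K ^ (v + 1) := Nat.mul_le_mul_left _ (Nat.pow_le_pow_right (by omega) (Nat.le_succ v))
      have e1 : 2 * h8 Q e₀ n * K ^ v = 2 * (h8 Q e₀ n * K ^ v) := by ring
      have e2 : 2 * h8 Q e₀ n * K ^ (v + 1) = 2 * (h8 Q e₀ n * K ^ (v + 1)) := by ring
      rw [e1, e2]
      omega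
  have hb' : (∅ : Finset ℕ).card + 9 * r + 9 * (Sw.card * E₀) ≤ 9 * r + 9 * (nS * E₀) := by
    have := Nat.mul_le_mul_right E₀ hSw
    rw [card_empty]
    omega
  obtain ⟨B₁, hB₁, lB₁, HB₁⟩ := hUT77 (μ := μ) (X := ℕ × ℤ) (G := G) (T := T) (L := m + x) (S := S) (site := fun c => c) (S' := S)
    (r := r) (m := m + 1 + y) (Q := Qp) (Un := Un) (Ex := ∅) (bad := bad) hG.ok hTm hHT (fun _ h => h) hdL hdN hz1 ENNReal.ofReal_ne_top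
    hM1 Sw E₀ htl scL scN (fun η hη c' hc' hQ u hu _ h1 h2 => hcl η hη c' hc' hQ u hu h1 h2) hb'
  refine ⟨B₁, hB₁, ?_, fun η hη c' hc' hQ F hF hFu => ?_⟩
  · -- the probability
    have hS18 : ((S.card * (2 * (m + x + 1)) : ℕ) : ℝ) ≤ (n : ℝ) ^ (18 : ℝ) := by
      have h1 : ((2 * (m + x + 1) : ℕ) : ℝ) ≤ (n : ℝ) ^ (2 : ℝ) := by
        have e8 : (n : ℝ) ^ (2 : ℝ) = (n : ℝ) ^ 2 := by exact_mod_cast Real.rpow_natCast (n : ℝ) 2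
        have h2 : ((m + x + 1 : ℕ) : ℝ) ≤ n := by exact_mod_cast (by omega : m + x + 1 ≤ n)
        rw [e8]
        push_cast at h2 ⊢
        nlinarith
      have e2 : (n : ℝ) ^ (18 : ℝ) = (n : ℝ) ^ (16 : ℝ) * (n : ℝ) ^ (2 : ℝ) := by
        rw [← Real.rpow_add n0]
        norm_num
      rw [e2]
      rw [Nat.cast_mul]
      exact mul_le_mul hS h1 (Nat.cast_nonneg _) (by positivity)
    have hX := HX q₀ hq₀ tl M (S.card * (2 * (m + x + 1))) S.card (2 * (m + x) + 1) htl' hM2 hS18 hS (by omega)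
    refine lB₁.trans ((add_le_add hbad hX).trans ?_)
    rw [← ENNReal.ofReal_add (by positivity) (by positivity)]
    refine ENNReal.ofReal_le_ofReal ?_
    have f1 : (n : ℝ) ^ (-(4 : ℝ)) ≤ (n : ℝ) ^ (-(3 : ℝ)) := Real.rpow_le_rpow_of_exponent_le (by linarith) (by norm_num)
    have f2 : (n : ℝ) ^ (-(2 : ℝ)) = n * (n : ℝ) ^ (-(3 : ℝ)) := by
      nth_rewrite 2 [← Real.rpow_one (n : ℝ)]
      rw [← Real.rpow_add n0]
      norm_num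
    have f3 : 0 ≤ (n : ℝ) ^ (-(3 : ℝ)) := by positivity
    rw [f2]
    nlinarith
  · -- the count
    classical
    have h0 : ∀ s' ∈ sh, ((F.filter fun u => η ∈ Un (u + s') c').card : ℝ) ≤ dd * m := by
      intro s' hs'
      refine le_trans ?_ hb
      have hy := hsy s' hs'
      have h1 := HB₁ η hη c' hc' hQ ((F.filter fun u => η ∈ Un (u + s') c').image (· + s')) (fun v hv => by
          obtain ⟨u, hu, rfl⟩ := mem_image.1 hv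
          have h2 := mem_range.1 (hF (mem_filter.1 hu).1)
          exact mem_range.2 (by omega)) (fun v hv => by
          obtain ⟨u, hu, rfl⟩ := mem_image.1 hv
          exact (mem_filter.1 hu).2)
      rw [card_image_of_injective _ (add_left_injective s')] at h1
      exact_mod_cast h1
    have h1 : F.card ≤ ∑ s' ∈ sh, (F.filter fun u => η ∈ Un (u + s') c').card := by
      refine le_trans (card_le_card (t := sh.biUnion fun s' => F.filter fun u => η ∈ Un (u + s') c') fun u hu => ?_) card_biUnion_le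
      obtain ⟨s', hs', h2⟩ := hFu u hu
      exact mem_biUnion.2 ⟨s', hs', mem_filter.2 ⟨hu, h2⟩⟩
    have m0 : (0 : ℝ) ≤ m := Nat.cast_nonneg _
    calc (F.card : ℝ) ≤ ∑ s' ∈ sh, ((F.filter fun u => η ∈ Un (u + s') c').card : ℝ) := by exact_mod_cast h1
      _ ≤ ∑ _s' ∈ sh, dd * m := sum_le_sum h0
      _ = sh.card * (dd * m) := by rw [sum_const, nsmul_eq_mul]
      _ ≤ nh * (dd * m) := mul_le_mul_of_nonneg_right (by exact_mod_cast hsh) (by positivity)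
      _ ≤ δ * m := by nlinarith

end

end Pool.Agent.W_7d29a1_C1.Ct90
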