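import Pool.Agent.W_7d29a1_C1.VnB54
import Pool.Agent.W_7d29a1_C1.LML8

/-!
MP_7d29a1_pr, attractor route: the size of the variance `v_n` (helper54). Part C: from the raw form of the loss of memory at one site
(`LMR54`: `v` is a real number without any bound) to `LML8`.
-/

set_option autoImplicit false

namespace Pool.Agent.W_7d29a1_C1.H54

open MeasureTheory ProbabilityTheory Set Filter Topology
open Pool.Agent.W_7d29a1_F Pool.Agent.W_7d29a1_h4g Pool.Agent.W_7d29a1_H Pool.Agent.W_7d29a1_HS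
open Pool.Agent.W_7d29a1_C1.H8
open Pool.Agent.W_7d29a1_h47 (EM)
open scoped NNReal

noncomputable section

/-- **The loss of memory at one site, raw form**: `LML8` for `e ≤ 1 / 32`, with a real `v` and no bound of `v`. -/
def LMR54 (μ : Measure ℝ) (s : ℝ) : Prop :=
  ∀ e : ℝ, 0 < e → e ≤ 1 / 32 → ∃ c : ℝ, 0 < c ∧ c ≤ e ∧ ∀ δ : ℝ, 0 < δ → δ ≤ c / 16 → ∃ κ : ℝ, 0 < κ ∧ κ ≤ δ ∧ ∀ᶠ n : ℕ in atTop, ∃ v : ℝ,
    ∀ N : ℕ, n ≤ N → (N : ℝ) ≤ (n : ℝ) ^ (1 + c) → ∀ L : ℕ, N ^ 3 ≤ L → L ≤ 2 * N ^ 3 → ∀ M : ℕ, M ≤ N →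
      ∀ h : ℝ, |h| * EE μ s n ≤ (n : ℝ) ^ (-(2 * δ)) → |h| * EE μ s N ≤ (N : ℝ) ^ κ →
        ∀ (k : ℕ) (q : ℕ → ℝ), 1 ≤ k → (k : ℝ) ≤ (n : ℝ) ^ δ * wd μ s n → (∀ j, j < k → 0 < q j) →
          LMx (law μ) (tri ((n : ℝ) ^ (-c) * EE μ s n)) v (fun j => RL8 μ s (sl μ s) h M L j) k q
            ((n : ℝ) ^ (-c) / EE μ s n + (n : ℝ) ^ (3 * e + δ + c) / EE μ s n *
              NG (law μ) (fun j => RL8 μ s (sl μ s) h M L j) k q ⌈(n : ℝ) ^ e⌉₊)

section abs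

variable {Ω : Type*} [MeasurableSpace Ω] {ν : Measure Ω} [IsProbabilityMeasure ν]

/-- The near term grows with the number of the near sites. -/
theorem NG_mono {R : ℕ → Ω → ℝ} (hR : ∀ j, Pl ν (R j)) {k : ℕ} {q : ℕ → ℝ} (hq : ∀ j, j < k → 0 < q j) {d d' : ℕ} (hd : d ≤ d') :
    NG ν R k q d ≤ NG ν R k q d' := by
  have h1 : ∀ (m : ℕ) (ω : Ω), m ≤ k → 0 ≤ C0 R m q ω := fun m ω hm => Finset.sum_nonneg fun j hj =>
    mul_nonneg (hq j ((Finset.mem_range.1 hj).trans_le hm)).le ((hR j).pos ω).le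
  have h2 : ∀ (m m' : ℕ) (ω : Ω), m ≤ m' → m' ≤ k → C0 R m q ω ≤ C0 R m' q ω := fun m m' ω hm hm' =>
    Finset.sum_le_sum_of_subset_of_nonneg (Finset.range_mono hm) fun j hj _ =>
      mul_nonneg (hq j ((Finset.mem_range.1 hj).trans_le hm')).le ((hR j).pos ω).le
  have mC : ∀ m : ℕ, Measurable (C0 R m q) := fun m => Finset.measurable_sum _ fun j _ => (hR j).meas.const_mul _
  have i1 : ∀ m : ℕ, m ≤ k → Integrable (fun ω => C0 R m q ω / C0 R k q ω) ν := by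
    intro m hm
    refine (integrable_const (1 : ℝ)).mono' ((mC m).div (mC k)).aestronglyMeasurable (ae_of_all _ fun ω => ?_)
    rw [Real.norm_eq_abs, abs_of_nonneg (div_nonneg (h1 m ω hm) (h1 k ω le_rfl))]
    exact div_le_one_of_le₀ (h2 m k ω hm le_rfl) (h1 k ω le_rfl)
  unfold NG
  refine integral_mono (i1 _ (min_le_right _ _)) (i1 _ (min_le_right _ _)) fun ω => ?_
  exact div_le_div_of_nonneg_right (h2 _ _ ω (min_le_min_right _ hd) (min_le_right _ _)) (h1 k ω le_rfl)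

omit [IsProbabilityMeasure ν] in
theorem NG_nonneg {R : ℕ → Ω → ℝ} (hR : ∀ j, Pl ν (R j)) {k : ℕ} {q : ℕ → ℝ} (hq : ∀ j, j < k → 0 < q j) {d : ℕ} :
    0 ≤ NG ν R k q d := by
  have h1 : ∀ (m : ℕ) (ω : Ω), m ≤ k → 0 ≤ C0 R m q ω := fun m ω hm => Finset.sum_nonneg fun j hj =>
    mul_nonneg (hq j ((Finset.mem_range.1 hj).trans_le hm)).le ((hR j).pos ω).le
  exact integral_nonneg fun ω => div_nonneg (h1 _ ω (min_le_right _ _)) (h1 k ω le_rfl)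

end abs

section model

variable {μ : Measure ℝ} [IsProbabilityMeasure μ] {s : ℝ}

omit [IsProbabilityMeasure μ] in
theorem RL8_zero (σ h : ℝ) (L j : ℕ) : RL8 μ s σ h 0 L j = Rv μ s L j := by
  funext η
  unfold RL8 Rv
  rw [TL8_zero]

/-- **From the raw form to `LML8`.** -/
theorem lml54 {c₀ C : ℝ} {n₀ : ℕ} (h : In μ s c₀ C n₀) (hSt : StepV μ s) (hIn : IncV μ s) (hTa : TailV μ s) (hR : LMR54 μ s) :
    LML8 μ s := by
  intro e he
  obtain ⟨e', he'⟩ : ∃ e' : ℝ, e' = min e (1 / 32) := ⟨_, rfl⟩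
  have he'0 : 0 < e' := by rw [he']; positivity
  have he'1 : e' ≤ 1 / 32 := by rw [he']; exact min_le_right _ _
  have he'e : e' ≤ e := by rw [he']; exact min_le_left _ _
  obtain ⟨c, hc, hce, hR1⟩ := hR e' he'0 he'1
  refine ⟨c, hc, hce.trans he'e, fun δ hδ hδc => ?_⟩
  obtain ⟨κ, hκ, hκδ, hR2⟩ := hR1 δ hδ hδc
  refine ⟨κ, hκ, hκδ, ?_⟩
  filter_upwards [hR2, vn54 h hSt hIn hTa hc hδ he'0 he'1 (p := 3) (by norm_num), eventually_ge_atTop 1] with n hn hv hn1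
  obtain ⟨v, hLM⟩ := hn
  have hnR : (1 : ℝ) ≤ n := by exact_mod_cast hn1
  have hn0 : (0 : ℝ) < n := by linarith
  have hE0 : 0 < EE μ s n := zero_lt_one.trans_le (Pool.Agent.W_7d29a1_H.one_le_EE (μ := μ) (s := s) n)
  have hnn : n ≤ n ^ 3 := by
    calc n = n ^ 1 := (pow_one n).symm
      _ ≤ n ^ 3 := Nat.pow_le_pow_right hn1 (by norm_num)
  have hwd0 : 0 ≤ wd μ s n := (wd_pos96 h hn1).le
  have key := hv (n ^ 3) hnn (by
    rw [show (3 : ℝ) = ((3 : ℕ) : ℝ) by norm_num, Real.rpow_natCast]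
    push_cast
    exact le_rfl) v ((n : ℝ) ^ (3 * e' + δ + c) / EE μ s n) (by positivity) fun k q hk1 hk hq => by
      have h1 := hLM n le_rfl (by
        calc (n : ℝ) = (n : ℝ) ^ (1 : ℝ) := (Real.rpow_one _).symm
          _ ≤ (n : ℝ) ^ (1 + c) := Real.rpow_le_rpow_of_exponent_le hnR (by linarith)) (n ^ 3) le_rfl (by omega) 0 (Nat.zero_le _)
        0 (by rw [abs_zero, zero_mul]; positivity) (by rw [abs_zero, zero_mul]; positivity) k q hk1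
        (hk.trans (le_mul_of_one_le_left hwd0 (Real.one_le_rpow hnR hδ.le))) hq
      simp only [RL8_zero] at h1
      exact h1
  have hv0 : 0 ≤ v := (Real.rpow_pos_of_pos hn0 _).le.trans key.1
  refine ⟨⟨v, hv0⟩, key.1, key.2, fun N hN1 hN2 L hL1 hL2 M hM h' hh1 hh2 k q hk1 hk hq a0 => ?_⟩
  refine (hLM N hN1 hN2 L hL1 hL2 M hM h' hh1 hh2 k q hk1 hk hq a0).trans (add_le_add le_rfl ?_)
  have hpl : ∀ j, Pl (law μ) (RL8 μ s (sl μ s) h' M L j) := fun j => pl_TL8 h.em _ M L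
  refine mul_le_mul (div_le_div_of_nonneg_right (Real.rpow_le_rpow_of_exponent_le hnR (by linarith)) hE0.le)
    (NG_mono hpl hq (Nat.ceil_mono (Real.rpow_le_rpow_of_exponent_le hnR he'e))) (NG_nonneg hpl hq) (by positivity)

end model

end

end Pool.Agent.W_7d29a1_C1.H54
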