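import Pool.Agent.W_7d29a1_C1.BrgB8
import Pool.Agent.W_7d29a1_C1.Ctx60
import Pool.Agent.W_7d29a1_C1.VnC54

/-!
MP_7d29a1_pr, attractor route (helper8): the bridge from the loss of memory at one site (`LMR54`) to the contacts of the contexts of
helper60.
-/

set_option autoImplicit false

namespace Pool.Agent.W_7d29a1_C1.H8

open MeasureTheory ProbabilityTheory Set Finset Filter Topology
open Pool.Agent.W_7d29a1_F Pool.Agent.W_7d29a1_h4g Pool.Agent.W_7d29a1_H Pool.Agent.W_7d29a1_HS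
open Pool.Agent.W_7d29a1_h47 (EM)
open Pool.Agent.W_7d29a1_C1.K91 (wt)
open Pool.Agent.W_7d29a1_C1.K91P
open Pool.Agent.W_7d29a1_C1.H54 (LMx LMR54)
open Pool.Agent.W_7d29a1_C1.H60 (Cx Adm)
open scoped ENNReal NNReal

noncomputable section

/-- The context of the composite horizon. -/
def cx8 (s h : ℝ) (M L k : ℕ) (q : ℕ → ℝ) : Cx where
  s := s
  h := h
  M := M
  N := M + L + 1
  k := k
  q := q

variable {μ : Measure ℝ} {s σ h : ℝ} {M L k : ℕ} {q : ℕ → ℝ}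

theorem cx8_ct (η : Env) (i : ℕ) (x : ℤ) (a : ℝ) :
    (cx8 s h M L k q).ct η (i, x) a = ctl8 (ps8 s h M) k q 0 (k + (M + L + 1 : ℕ)) (M + L + 1) i x a η := rfl

theorem cx8_ZM (η : Env) : (cx8 s h M L k q).ZM η = cc8 μ s σ h M L * RL8 μ s σ h M L 0 η :=
  bw_RL8 (μ := μ) (σ := σ) η M L 0

theorem cx8_Z0 (η : Env) : (cx8 s h M L k q).Z0 η = cc8 μ s σ h M L * C0 (fun j => RL8 μ s σ h M L j) k q η := by
  show ∑ y ∈ Finset.Icc (0 : ℤ) (k + (M + L + 1 : ℕ)), r8 k q y * (fun z : ℤ => bw (wt η) (ps8 s h M) 0 (M + L + 1) (z - 1)) y = _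
  rw [sum_r8 (by omega) (by push_cast; omega)]
  unfold C0
  rw [Finset.mul_sum]
  refine Finset.sum_congr rfl fun j _ => ?_
  show q j * bw (wt η) (ps8 s h M) 0 (M + L + 1) ((j : ℤ) + 1 - 1) = _
  rw [add_sub_cancel_right, bw_RL8 (μ := μ) (σ := σ) η M L j]
  show q j * (cc8 μ s σ h M L * RL8 μ s σ h M L j η) = _
  ring

theorem cx8_ZR (η : Env) : (cx8 s h M L k q).ZR η = cc8 μ s σ h M L * C1 (fun j => RL8 μ s σ h M L j) k q η := by
  show ∑ y ∈ Finset.Icc (0 : ℤ) (k + (M + L + 1 : ℕ)), r8 k q y * bw (wt η) (ps8 s h M) 0 (M + L + 1) y = _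
  rw [sum_r8 (by omega) (by push_cast; omega)]
  unfold C1
  rw [Finset.mul_sum]
  refine Finset.sum_congr rfl fun j _ => ?_
  have h1 := bw_RL8 (μ := μ) (s := s) (σ := σ) (h := h) η M L ((j : ℤ) + 1)
  rw [h1]
  have h2 : Real.exp (TL8 μ s σ h M L η ((0 : ℤ), (j : ℤ) + 1)) = RL8 μ s σ h M L (j + 1) η := by
    unfold RL8
    push_cast
    rfl
  rw [h2]
  ring

theorem cx8_B (hk : 1 ≤ k) (hq : ∀ j, j < k → 0 < q j) (η : Env) : (cx8 s h M L k q).B η =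
    Real.log (C0 (fun j => RL8 μ s σ h M L j) k q η) - Real.log (RL8 μ s σ h M L 0 η) := by
  unfold Cx.B
  rw [cx8_Z0 (μ := μ) (σ := σ), cx8_ZM (μ := μ) (σ := σ)]
  have hc := cc8_pos (μ := μ) (s := s) (σ := σ) (h := h) M L
  have h0 : 0 < C0 (fun j => RL8 μ s σ h M L j) k q η :=
    Finset.sum_pos (fun j hj => mul_pos (hq j (Finset.mem_range.1 hj)) (Real.exp_pos _)) ⟨0, Finset.mem_range.2 hk⟩
  have h1 : 0 < RL8 μ s σ h M L 0 η := Real.exp_pos _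
  rw [Real.log_mul hc.ne' h0.ne', Real.log_mul hc.ne' h1.ne']
  ring

theorem cx8_near (d : ℕ) : (cx8 s h M L k q).near μ d = NG (law μ) (fun j => RL8 μ s σ h M L j) k q d := by
  have hc := cc8_pos (μ := μ) (s := s) (σ := σ) (h := h) M L
  have key : ∀ (m : ℕ) (η : Env), ∑ j ∈ Finset.range m, q j * bw (wt η) (ps8 s h M) 0 (M + L + 1) (j : ℤ) =
      cc8 μ s σ h M L * C0 (fun j => RL8 μ s σ h M L j) m q η := by
    intro m η
    unfold C0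
    rw [Finset.mul_sum]
    refine Finset.sum_congr rfl fun j _ => ?_
    rw [bw_RL8 (μ := μ) (σ := σ) η M L j]
    show q j * (cc8 μ s σ h M L * RL8 μ s σ h M L j η) = _
    ring
  unfold Cx.near NG
  refine integral_congr_ae (ae_of_all _ fun η => ?_)
  show (∑ j ∈ Finset.range (min d k), q j * bw (wt η) (ps8 s h M) 0 (M + L + 1) (j : ℤ)) /
    (∑ j ∈ Finset.range k, q j * bw (wt η) (ps8 s h M) 0 (M + L + 1) (j : ℤ)) = _
  rw [key, key, mul_div_mul_left _ _ hc.ne']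

variable [IsProbabilityMeasure μ]

/-- **The bridge in terms of the contacts of the context.** -/
theorem brgc8 (hμ : EM μ) {g : ℝ → ℝ} (hg : Continuous g) (hgc : HasCompactSupport g) (hk : 1 ≤ k) (hq : ∀ j, j < k → 0 < q j) :
    ∫ a : ℝ, g a * (Lg (law μ) (RL8 μ s σ h M L 0) (C1 (fun j => RL8 μ s σ h M L j) k q) a -
      Lg (law μ) (RL8 μ s σ h M L 0) (C0 (fun j => RL8 μ s σ h M L j) k q) a) =
    ∑ c ∈ (cx8 s h M L k q).rows 0 (cx8 s h M L k q).N, ∫ η, (∫ a : ℝ, g a * (cx8 s h M L k q).ct η c a) ∂(law μ) := by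
  rw [brg8 (s := s) (σ := σ) (h := h) hμ hg hgc M L hk hq (lo := 0) (hi := (k : ℤ) + (M + L + 1 : ℕ)) le_rfl le_rfl]
  unfold Cx.rows
  rw [Finset.sum_product, Finset.range_eq_Ico]
  rfl

/-- **From the contacts to the loss of memory at one site**, one context. -/
theorem lmx8 (hμ : EM μ) {τ v e : ℝ} (hτ : 0 < τ) (hk : 1 ≤ k) (hq : ∀ j, j < k → 0 < q j)
    (H : ∀ a0 : ℝ, |(∑ c ∈ (cx8 s h M L k q).rows 0 (cx8 s h M L k q).N,
        ∫ η, (∫ a : ℝ, tri τ (a - a0) * (cx8 s h M L k q).ct η c a) ∂(law μ)) -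
      v / 2 * ∫ η, tri τ ((cx8 s h M L k q).B η - a0) ∂(law μ)| ≤ e) :
    LMx (law μ) (tri τ) v (fun j => RL8 μ s σ h M L j) k q e := by
  intro a0
  have w := (wgt_tri hτ).shift (-a0)
  have w1 : Continuous fun a => tri τ (a - a0) := by simpa [sub_eq_add_neg] using w.cont
  have w2 : HasCompactSupport fun a => tri τ (a - a0) := by simpa [sub_eq_add_neg] using w.cs
  rw [brgc8 (s := s) (σ := σ) (h := h) (M := M) (L := L) hμ w1 w2 hk hq]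
  have h1 := H a0
  simp only [cx8_B (μ := μ) (s := s) (σ := σ) (h := h) (M := M) (L := L) hk hq] at h1
  exact h1

/-- **The loss of memory at one site in terms of the contacts.** -/
def LMC8 (μ : Measure ℝ) (s : ℝ) : Prop :=
  ∀ e : ℝ, 0 < e → e ≤ 1 / 32 → ∃ c : ℝ, 0 < c ∧ c ≤ e ∧ ∀ δ : ℝ, 0 < δ → δ ≤ c / 16 → ∃ κ : ℝ, 0 < κ ∧ κ ≤ δ ∧ ∀ᶠ n : ℕ in atTop, ∃ v : ℝ,
    ∀ Γ : Cx, Adm μ s c δ κ n Γ → (∀ j, j < Γ.k → 0 < Γ.q j) → ∀ a0 : ℝ,
      |(∑ b ∈ Γ.rows 0 Γ.N, ∫ η, (∫ a : ℝ, tri ((n : ℝ) ^ (-c) * EE μ s n) (a - a0) * Γ.ct η b a) ∂(law μ)) -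
        v / 2 * ∫ η, tri ((n : ℝ) ^ (-c) * EE μ s n) (Γ.B η - a0) ∂(law μ)| ≤
        (n : ℝ) ^ (-c) / EE μ s n + (n : ℝ) ^ (3 * e + δ + c) / EE μ s n * Γ.near μ ⌈(n : ℝ) ^ e⌉₊

theorem lmr8 (hμ : EM μ) (H : LMC8 μ s) : LMR54 μ s := by
  intro e he he1
  obtain ⟨c, hc, hce, h1⟩ := H e he he1
  refine ⟨c, hc, hce, fun δ hδ hδc => ?_⟩
  obtain ⟨κ, hκ, hκδ, h2⟩ := h1 δ hδ hδc
  refine ⟨κ, hκ, hκδ, ?_⟩
  filter_upwards [h2, eventually_ge_atTop 1] with n hn hn1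
  obtain ⟨v, hv⟩ := hn
  have hn0 : (0 : ℝ) < n := by exact_mod_cast hn1
  have hE0 : 0 < EE μ s n := zero_lt_one.trans_le (Pool.Agent.W_7d29a1_H.one_le_EE (μ := μ) (s := s) n)
  refine ⟨v, fun N hN1 hN2 L hL1 hL2 M hM h' hh1 hh2 k q hk1 hk hq => ?_⟩
  refine lmx8 hμ (mul_pos (Real.rpow_pos_of_pos hn0 _) hE0) hk1 hq fun a0 => ?_
  have hA : Adm μ s c δ κ n (cx8 s h' M L k q) :=
    { hs := rfl
      k1 := hk1
      k2 := hk
      q0 := fun j hj => (hq j hj).le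
      q1 := ⟨0, hk1, hq 0 hk1⟩
      hor := ⟨N, L, hN1, hN2, hL1, hL2, hM, rfl, hh1, hh2⟩ }
  have h3 := hv _ hA hq a0
  rw [cx8_near (μ := μ) (s := s) (σ := sl μ s) (h := h') (M := M) (L := L) (k := k) (q := q)] at h3
  exact h3

end

end Pool.Agent.W_7d29a1_C1.H8
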