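import Pool.Agent.W_7d29a1_C1.EndF17

/-!
MP_7d29a1_pr, attractor route (helper17): if `EE n = n ^ (1/3 + o(1))` at the tilt `s`, then the excess of the free energy is
`ex (r) = |r| ^ (2 + o(1))` at `s`, on both sides.
-/

set_option autoImplicit false

namespace Pool.Agent.W_7d29a1_C1

open MeasureTheory ProbabilityTheory Filter Topology
open Pool.Agent.W_7d29a1_F Pool.Agent.W_7d29a1_h4g Pool.Agent.W_7d29a1_H Pool.Agent.W_7d29a1_HS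

noncomputable section

/-- The units are of the order `n ^ (1/3 + o(1))`. -/
def Th17 (μ : Measure ℝ) (s : ℝ) : Prop :=
  ∀ ε : ℝ, 0 < ε → ∀ᶠ n : ℕ in atTop, (n : ℝ) ^ (1 / 3 - ε) ≤ EE μ s n ∧ EE μ s n ≤ (n : ℝ) ^ (1 / 3 + ε)

variable {μ : Measure ℝ} {s : ℝ} [IsProbabilityMeasure μ] {c C : ℝ} {n₀ : ℕ}

/-- Lower bound of the mean free energy under a force, each sign. -/
theorem FM_lowS17 (h : In μ s c C n₀) : ∃ n₁ : ℕ, ∀ n, n₁ ≤ n → ∀ r : ℝ,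
    |r| * (c * wd μ s n) - |r| - C * EE μ s n ≤ FM17 μ s n r := by
  obtain ⟨H, δ, hD⟩ := h.dir
  have hlo := hD.lo s (Set.mem_singleton s)
  have hhi := hD.hi s (Set.mem_singleton s)
  have hδ := hD.δ0
  have hv := h.tv
  rw [Metric.tendsto_atTop] at hv
  obtain ⟨n₂, hn₂⟩ := hv (δ / 2) (by positivity)
  obtain ⟨n₃, hn₃⟩ := exists_nat_ge (2 / δ)
  refine ⟨max (max n₀ n₂) (max n₃ 1), fun n hn r => ?_⟩
  have g1 : 1 ≤ n := by omega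
  have hn0 : (0 : ℝ) < n := by exact_mod_cast g1
  have hvn := hn₂ n (by omega)
  rw [Real.dist_eq, sub_zero] at hvn
  have hvn2 := (abs_lt.1 hvn).2
  have hn3 : 2 / δ ≤ n := hn₃.trans (by exact_mod_cast (by omega : n₃ ≤ n))
  have hn3' : 2 ≤ δ * n := by
    rw [div_le_iff₀ hδ] at hn3
    linarith
  have hva : 0 ≤ vA 1 μ s n := (h.vA_pos g1).le
  obtain ⟨w, hw⟩ : ∃ w : ℝ, w = c * wd μ s n := ⟨_, rfl⟩
  have hw0 : 0 ≤ w := by
    rw [hw]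
    unfold wd
    have := h.c0
    positivity
  have hw1 : w ≤ δ / 2 * n := by
    rw [hw]
    unfold wd
    have h1 : c * (n * vA 1 μ s n) ≤ 1 * (n * vA 1 μ s n) := mul_le_mul_of_nonneg_right h.c1 (by positivity)
    have h2 : n * vA 1 μ s n ≤ n * (δ / 2) := mul_le_mul_of_nonneg_left hvn2.le hn0.le
    linarith
  have hwe : c * vA 1 μ s n * n = w := by
    rw [hw]
    unfold wd
    ring
  rw [← hw]
  have key : ∀ y : ℤ, |(y : ℝ) - sl μ s * n| ≤ w + 1 → 0 ≤ y ∧ y ≤ n ∧ ep μ s n y ≤ C * EE μ s n := by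
    intro y hy
    have h1 := (abs_le.1 hy).1
    have h2 := (abs_le.1 hy).2
    have h3 : δ * n ≤ sl μ s * n := mul_le_mul_of_nonneg_right hlo hn0.le
    have h4 : sl μ s * n ≤ (1 - δ) * n := mul_le_mul_of_nonneg_right hhi hn0.le
    have h5 : (0 : ℝ) ≤ y := by linarith
    have h6 : (y : ℝ) ≤ n := by linarith
    have h5' : 0 ≤ y := by exact_mod_cast h5
    have h6' : y ≤ n := by exact_mod_cast h6
    refine ⟨h5', h6', h.inn n (by omega) n y (by omega) h5' h6' ?_⟩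
    rw [hwe]
    exact hy
  rcases le_total 0 r with hr | hr
  · obtain ⟨y1, hy1⟩ : ∃ y1 : ℤ, y1 = ⌊sl μ s * n + w⌋ := ⟨_, rfl⟩
    have a1 : (y1 : ℝ) ≤ sl μ s * n + w := by rw [hy1]; exact Int.floor_le _
    have a2 : sl μ s * n + w < y1 + 1 := by rw [hy1]; exact Int.lt_floor_add_one _
    obtain ⟨b1, b2, b3⟩ := key y1 (by rw [abs_le]; constructor <;> linarith)
    have d1 := FM_ge17 h b1 b2 r
    have d3 : r * (w - 1) ≤ r * ((y1 : ℝ) - sl μ s * n) := mul_le_mul_of_nonneg_left (by linarith) hr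
    rw [abs_of_nonneg hr]
    linarith
  · obtain ⟨y2, hy2⟩ : ∃ y2 : ℤ, y2 = ⌈sl μ s * n - w⌉ := ⟨_, rfl⟩
    have a3 : sl μ s * n - w ≤ (y2 : ℝ) := by rw [hy2]; exact Int.le_ceil _
    have a4 : (y2 : ℝ) < sl μ s * n - w + 1 := by rw [hy2]; exact Int.ceil_lt_add_one _
    obtain ⟨b4, b5, b6⟩ := key y2 (by rw [abs_le]; constructor <;> linarith)
    have d2 := FM_ge17 h b4 b5 r
    have d4 : -r * (w - 1) ≤ r * ((y2 : ℝ) - sl μ s * n) := by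
      have : r * ((y2 : ℝ) - sl μ s * n) = -r * (sl μ s * n - y2) := by ring
      rw [this]
      exact mul_le_mul_of_nonneg_left (by linarith) (by linarith)
    rw [abs_of_nonpos hr]
    linarith

/-- The numbers of the upper bound: `n` is the integer part of `x ^ (- 1 / p)`. -/
theorem numU17 {θ ε x : ℝ} (hθ : 0 < θ) (hθε : 5 * θ ≤ ε / 6) (hθ1 : θ < 1 / 6) (hε : ε < 2) (hx : 0 < x) (hx1 : x ≤ 1)
    (hx2 : 2 * x ^ (ε / 2) ≤ 1) {n : ℕ} (hn : n = ⌊x ^ (-(1 / (1 / 3 + 2 * θ)))⌋₊) {e : ℝ} (he : n * e ≤ (n : ℝ) ^ (1 / 3 + θ)) :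
    e ≤ x ^ (2 - ε) := by
  obtain ⟨X, hX⟩ : ∃ X : ℝ, X = x ^ (-(1 / (1 / 3 + 2 * θ))) := ⟨_, rfl⟩
  rw [← hX] at hn
  have hX1 : 1 ≤ X := by
    rw [hX]
    exact Real.one_le_rpow_of_pos_of_le_one_of_nonpos hx hx1 (by
      have : 0 < 1 / (1 / 3 + 2 * θ) := by positivity
      linarith)
  have hn1 : 1 ≤ n := by
    rw [hn]
    exact Nat.le_floor (by simpa using hX1)
  have hnR : (1 : ℝ) ≤ n := by exact_mod_cast hn1
  have hn0 : (0 : ℝ) < n := by linarith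
  have hnX : X / 2 ≤ n := by
    have h1 : X < n + 1 := by rw [hn]; exact Nat.lt_floor_add_one X
    linarith
  have h1 : e ≤ (n : ℝ) ^ (-(2 / 3 - θ)) := by
    have h2 : e ≤ (n : ℝ) ^ (1 / 3 + θ) / n := by
      rw [le_div_iff₀ hn0]
      linarith
    have h3 : (n : ℝ) ^ (1 / 3 + θ) / n = (n : ℝ) ^ (-(2 / 3 - θ)) := by
      have h := Real.rpow_sub hn0 (1 / 3 + θ) 1
      rw [Real.rpow_one] at h
      rw [← h]
      congr 1
      ring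
    linarith
  have h4 : (n : ℝ) ^ (-(2 / 3 - θ)) ≤ (X / 2) ^ (-(2 / 3 - θ)) :=
    Real.rpow_le_rpow_of_nonpos (by positivity) hnX (by linarith)
  have h5 : (X / 2) ^ (-(2 / 3 - θ)) = 2 ^ (2 / 3 - θ) * x ^ ((2 / 3 - θ) / (1 / 3 + 2 * θ)) := by
    rw [Real.div_rpow (by positivity) (by norm_num), hX, ← Real.rpow_mul hx.le, div_eq_mul_inv, ← Real.rpow_neg (by norm_num), neg_neg,
      mul_comm]
    congr 2
    field_simp
  have h6 : (2 : ℝ) ^ (2 / 3 - θ) ≤ 2 := by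
    calc (2 : ℝ) ^ (2 / 3 - θ) ≤ 2 ^ (1 : ℝ) := Real.rpow_le_rpow_of_exponent_le (by norm_num) (by linarith)
      _ = 2 := Real.rpow_one _
  have h7 : x ^ ((2 / 3 - θ) / (1 / 3 + 2 * θ)) ≤ x ^ (2 - ε / 2) := by
    refine Real.rpow_le_rpow_of_exponent_ge hx hx1 ?_
    rw [le_div_iff₀ (by positivity)]
    nlinarith
  have h8 : x ^ (2 - ε / 2) = x ^ (ε / 2) * x ^ (2 - ε) := by
    rw [← Real.rpow_add hx]
    ring_nf
  have hp : 0 ≤ x ^ (2 - ε) := Real.rpow_nonneg hx.le _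
  calc e ≤ 2 ^ (2 / 3 - θ) * x ^ ((2 / 3 - θ) / (1 / 3 + 2 * θ)) := by rw [← h5]; exact h1.trans h4
    _ ≤ 2 * x ^ (2 - ε / 2) := mul_le_mul h6 h7 (Real.rpow_nonneg hx.le _) (by norm_num)
    _ = 2 * x ^ (ε / 2) * x ^ (2 - ε) := by rw [h8]; ring
    _ ≤ 1 * x ^ (2 - ε) := mul_le_mul_of_nonneg_right hx2 hp
    _ = x ^ (2 - ε) := one_mul _

/-- The numbers of the lower bound. -/
theorem numL17 {θ ε x R e : ℝ} (hθ : 0 < θ) (hθε : 6 * θ ≤ ε / 6) (hε : ε ≤ 1) (hx : 0 < x) (hR : 1 ≤ R)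
    (hx1 : x ≤ 1) (hx2 : x ^ (ε / 2) ≤ (2 * R ^ (6 : ℝ)) ^ (-(1 : ℝ))) {n : ℕ}
    (hn : n = ⌈(R / x) ^ (1 / (1 / 3 - 2 * θ))⌉₊) (he : (n : ℝ) ^ (1 / 3 - θ) ≤ n * e) :
    x ^ (2 + ε) ≤ e := by
  have hθ1 : θ ≤ 1 / 36 := by linarith
  obtain ⟨X, hX⟩ : ∃ X : ℝ, X = (R / x) ^ (1 / (1 / 3 - 2 * θ)) := ⟨_, rfl⟩
  rw [← hX] at hn
  have hp0 : 0 < 1 / 3 - 2 * θ := by linarith
  have hRx : 1 ≤ R / x := by
    rw [le_div_iff₀ hx]
    linarith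
  have hX1 : 1 ≤ X := by
    rw [hX]
    exact Real.one_le_rpow hRx (by positivity)
  have hnX1 : X ≤ n := by rw [hn]; exact Nat.le_ceil _
  have hnX2 : (n : ℝ) ≤ 2 * X := by
    have h1 : (n : ℝ) < X + 1 := by rw [hn]; exact Nat.ceil_lt_add_one (by linarith)
    linarith
  have hn0 : (0 : ℝ) < n := by linarith
  have h1 : (n : ℝ) ^ (-(2 / 3 + θ)) ≤ e := by
    have h2 : (n : ℝ) ^ (1 / 3 - θ) / n ≤ e := by
      rw [div_le_iff₀ hn0]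
      linarith
    have h3 : (n : ℝ) ^ (1 / 3 - θ) / n = (n : ℝ) ^ (-(2 / 3 + θ)) := by
      have h := Real.rpow_sub hn0 (1 / 3 - θ) 1
      rw [Real.rpow_one] at h
      rw [← h]
      congr 1
      ring
    linarith
  have h4 : (2 * X) ^ (-(2 / 3 + θ)) ≤ (n : ℝ) ^ (-(2 / 3 + θ)) :=
    Real.rpow_le_rpow_of_nonpos hn0 hnX2 (by linarith)
  have h5 : (2 * X) ^ (-(2 / 3 + θ)) = 2 ^ (-(2 / 3 + θ)) * (R / x) ^ (-((2 / 3 + θ) / (1 / 3 - 2 * θ))) := by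
    rw [Real.mul_rpow (by norm_num) (by linarith), hX, ← Real.rpow_mul (by positivity)]
    congr 2
    field_simp
  have hq : (2 / 3 + θ) / (1 / 3 - 2 * θ) ≤ 2 + ε / 2 := by
    rw [div_le_iff₀ hp0]
    nlinarith
  have hq6 : 2 + ε / 2 ≤ 6 := by linarith
  have h6 : (R / x) ^ (-(2 + ε / 2)) ≤ (R / x) ^ (-((2 / 3 + θ) / (1 / 3 - 2 * θ))) :=
    Real.rpow_le_rpow_of_exponent_le hRx (by linarith)
  have h7 : (R / x) ^ (-(2 + ε / 2)) = R ^ (-(2 + ε / 2)) * x ^ (2 + ε / 2) := by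
    rw [Real.div_rpow (by positivity) hx.le, div_eq_mul_inv, ← Real.rpow_neg hx.le, neg_neg]
  have h8 : R ^ (-(6 : ℝ)) ≤ R ^ (-(2 + ε / 2)) := Real.rpow_le_rpow_of_exponent_le hR (by linarith)
  have h9 : (2 : ℝ) ^ (-(1 : ℝ)) ≤ 2 ^ (-(2 / 3 + θ)) := Real.rpow_le_rpow_of_exponent_le (by norm_num) (by linarith)
  have h10 : (2 * R ^ (6 : ℝ)) ^ (-(1 : ℝ)) = 2 ^ (-(1 : ℝ)) * R ^ (-(6 : ℝ)) := by
    rw [Real.mul_rpow (by norm_num) (by positivity), ← Real.rpow_mul (by positivity)]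
    norm_num
  have h11 : x ^ (2 + ε) = x ^ (ε / 2) * x ^ (2 + ε / 2) := by
    rw [← Real.rpow_add hx]
    ring_nf
  have hp : 0 ≤ x ^ (2 + ε / 2) := Real.rpow_nonneg hx.le _
  have hR6 : 0 ≤ R ^ (-(6 : ℝ)) := Real.rpow_nonneg (by linarith) _
  calc x ^ (2 + ε) = x ^ (ε / 2) * x ^ (2 + ε / 2) := h11
    _ ≤ (2 ^ (-(1 : ℝ)) * R ^ (-(6 : ℝ))) * x ^ (2 + ε / 2) := by
        rw [← h10]
        exact mul_le_mul_of_nonneg_right hx2 hp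
    _ ≤ (2 ^ (-(2 / 3 + θ)) * R ^ (-(2 + ε / 2))) * x ^ (2 + ε / 2) :=
        mul_le_mul_of_nonneg_right (mul_le_mul h9 h8 hR6 (by positivity)) hp
    _ = 2 ^ (-(2 / 3 + θ)) * (R / x) ^ (-(2 + ε / 2)) := by rw [h7]; ring
    _ ≤ 2 ^ (-(2 / 3 + θ)) * (R / x) ^ (-((2 / 3 + θ) / (1 / 3 - 2 * θ))) :=
        mul_le_mul_of_nonneg_left h6 (by positivity)
    _ ≤ e := by
        rw [← h5]
        exact h4.trans h1

/-- Upper bound of the excess. -/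
theorem curvU17 (h : In μ s c C n₀) (hT : Th17 μ s) (hL : LB17 μ s) {ε : ℝ} (hε : 0 < ε) :
    ∃ r₀ : ℝ, 0 < r₀ ∧ ∀ r : ℝ, 0 < |r| → |r| ≤ r₀ → ex μ s r ≤ |r| ^ (2 - ε) := by
  obtain ⟨ε', hε'⟩ : ∃ ε' : ℝ, ε' = min ε 1 := ⟨_, rfl⟩
  have e1 : 0 < ε' := by
    rw [hε']
    exact lt_min hε one_pos
  have e2 : ε' ≤ ε := by
    rw [hε']
    exact min_le_left _ _
  have e3 : ε' ≤ 1 := by
    rw [hε']
    exact min_le_right _ _
  obtain ⟨θ, hθ⟩ : ∃ θ : ℝ, θ = ε' / 36 := ⟨_, rfl⟩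
  have t1 : 0 < θ := by
    rw [hθ]
    positivity
  obtain ⟨n₁, hn₁⟩ := hL θ t1
  obtain ⟨n₂, hn₂⟩ := eventually_atTop.1 (hT θ t1)
  obtain ⟨N, hN⟩ : ∃ N : ℕ, N = n₁ + n₂ + 1 := ⟨_, rfl⟩
  have hN1 : (1 : ℝ) ≤ N := by
    rw [hN]
    push_cast
    have : (0 : ℝ) ≤ n₁ := Nat.cast_nonneg _
    have : (0 : ℝ) ≤ n₂ := Nat.cast_nonneg _
    linarith
  obtain ⟨p, hp⟩ : ∃ p : ℝ, p = 1 / 3 + 2 * θ := ⟨_, rfl⟩
  have hp0 : 0 < p := by
    rw [hp]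
    positivity
  refine ⟨min ((N : ℝ) ^ (-p)) (min 1 ((1 / 2 : ℝ) ^ (2 / ε'))), by positivity, fun r hr0 hr1 => ?_⟩
  have b1 : |r| ≤ (N : ℝ) ^ (-p) := hr1.trans (min_le_left _ _)
  have b2 : |r| ≤ 1 := hr1.trans ((min_le_right _ _).trans (min_le_left _ _))
  have b3 : |r| ≤ (1 / 2 : ℝ) ^ (2 / ε') := hr1.trans ((min_le_right _ _).trans (min_le_right _ _))
  obtain ⟨n, hn⟩ : ∃ n : ℕ, n = ⌊|r| ^ (-(1 / p))⌋₊ := ⟨_, rfl⟩
  have hX : (N : ℝ) ≤ |r| ^ (-(1 / p)) := by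
    have h1 : ((N : ℝ) ^ (-p)) ^ (-(1 / p)) ≤ |r| ^ (-(1 / p)) :=
      Real.rpow_le_rpow_of_nonpos hr0 b1 (by
        have : 0 < 1 / p := by positivity
        linarith)
    rw [← Real.rpow_mul (by linarith)] at h1
    have h2 : -p * -(1 / p) = 1 := by
      field_simp
    rw [h2, Real.rpow_one] at h1
    exact h1
  have hnN : N ≤ n := by
    rw [hn]
    exact Nat.le_floor hX
  have hn1 : 1 ≤ n := by omega
  have hn0 : (0 : ℝ) < n := by exact_mod_cast hn1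
  have hnX : (n : ℝ) ≤ |r| ^ (-(1 / p)) := by
    rw [hn]
    exact Nat.floor_le (Real.rpow_nonneg hr0.le _)
  have hE := EE_pos (μ := μ) (s := s) n
  have d1 := hn₁ n (by omega)
  have d2 := (hn₂ n (by omega)).2
  have d3 : |r| * (n : ℝ) ^ p ≤ 1 := by
    have h1 : (n : ℝ) ^ p ≤ (|r| ^ (-(1 / p))) ^ p := Real.rpow_le_rpow hn0.le hnX hp0.le
    rw [← Real.rpow_mul hr0.le] at h1
    have h2 : -(1 / p) * p = -1 := by
      field_simp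
    rw [h2, Real.rpow_neg_one] at h1
    calc |r| * (n : ℝ) ^ p ≤ |r| * |r|⁻¹ := mul_le_mul_of_nonneg_left h1 hr0.le
      _ = 1 := mul_inv_cancel₀ hr0.ne'
  have d4 : |r| * wd μ s n ≤ EE μ s n := by
    calc |r| * wd μ s n ≤ |r| * ((n : ℝ) ^ θ * EE μ s n ^ 2) := mul_le_mul_of_nonneg_left d1 hr0.le
      _ = |r| * ((n : ℝ) ^ θ * EE μ s n) * EE μ s n := by ring
      _ ≤ |r| * ((n : ℝ) ^ θ * (n : ℝ) ^ (1 / 3 + θ)) * EE μ s n := by gcongr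
      _ = |r| * (n : ℝ) ^ p * EE μ s n := by
          rw [← Real.rpow_add hn0, hp]
          ring_nf
      _ ≤ 1 * EE μ s n := mul_le_mul_of_nonneg_right d3 hE.le
      _ = EE μ s n := one_mul _
  have d5 := Pool.Agent.W_7d29a1_HZ.Z94.ex_le_EE h hn1 b2 d4
  have d6 : 2 * |r| ^ (ε' / 2) ≤ 1 := by
    have h1 : |r| ^ (ε' / 2) ≤ ((1 / 2 : ℝ) ^ (2 / ε')) ^ (ε' / 2) := Real.rpow_le_rpow hr0.le b3 (by positivity)
    rw [← Real.rpow_mul (by norm_num)] at h1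
    have h2 : 2 / ε' * (ε' / 2) = 1 := by
      field_simp
    rw [h2, Real.rpow_one] at h1
    linarith
  have d7 := numU17 (ε := ε') t1 (by rw [hθ]; linarith) (by rw [hθ]; linarith) (by linarith) hr0 b2 d6 (by rw [hn, hp])
    (d5.trans d2)
  exact d7.trans (Real.rpow_le_rpow_of_exponent_ge hr0 b2 (by linarith))

/-- Lower bound of the excess. -/
theorem curvL17 (h : In μ s c C n₀) (hT : Th17 μ s) (hU : UB17 μ s) {ε : ℝ} (hε : 0 < ε) :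
    ∃ r₀ : ℝ, 0 < r₀ ∧ ∀ r : ℝ, 0 < |r| → |r| ≤ r₀ → |r| ^ (2 + ε) ≤ ex μ s r := by
  obtain ⟨ε', hε'⟩ : ∃ ε' : ℝ, ε' = min ε 1 := ⟨_, rfl⟩
  have e1 : 0 < ε' := by
    rw [hε']
    exact lt_min hε one_pos
  have e2 : ε' ≤ ε := by
    rw [hε']
    exact min_le_left _ _
  have e3 : ε' ≤ 1 := by
    rw [hε']
    exact min_le_right _ _
  obtain ⟨θ, hθ⟩ : ∃ θ : ℝ, θ = ε' / 36 := ⟨_, rfl⟩
  have t1 : 0 < θ := by
    rw [hθ]
    positivity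
  have t2 : θ ≤ 1 / 36 := by
    rw [hθ]
    linarith
  have hc0 := h.c0
  have hc1 := h.c1
  have hC1 := h.C1
  obtain ⟨R, hR⟩ : ∃ R : ℝ, R = (C + 2) / c := ⟨_, rfl⟩
  have hR1 : 1 ≤ R := by
    rw [hR, le_div_iff₀ hc0]
    linarith
  obtain ⟨n₁, hn₁⟩ := hU θ t1
  obtain ⟨n₂, hn₂⟩ := eventually_atTop.1 (hT θ t1)
  obtain ⟨n₃, hn₃⟩ := FM_lowS17 h
  obtain ⟨N, hN⟩ : ∃ N : ℕ, N = n₁ + n₂ + n₃ + 1 := ⟨_, rfl⟩
  have hN1 : (1 : ℝ) ≤ N := by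
    rw [hN]
    push_cast
    have : (0 : ℝ) ≤ n₁ := Nat.cast_nonneg _
    have : (0 : ℝ) ≤ n₂ := Nat.cast_nonneg _
    have : (0 : ℝ) ≤ n₃ := Nat.cast_nonneg _
    linarith
  obtain ⟨p, hp⟩ : ∃ p : ℝ, p = 1 / 3 - 2 * θ := ⟨_, rfl⟩
  have hp0 : 0 < p := by
    rw [hp]
    linarith
  obtain ⟨A, hA⟩ : ∃ A : ℝ, A = (2 * R ^ (6 : ℝ)) ^ (-(1 : ℝ)) := ⟨_, rfl⟩
  have hA0 : 0 < A := by
    rw [hA]
    positivity
  refine ⟨min ((N : ℝ) ^ (-p)) (min 1 (A ^ (2 / ε'))), by positivity, fun r hr0 hr1 => ?_⟩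
  have b1 : |r| ≤ (N : ℝ) ^ (-p) := hr1.trans (min_le_left _ _)
  have b2 : |r| ≤ 1 := hr1.trans ((min_le_right _ _).trans (min_le_left _ _))
  have b3 : |r| ≤ A ^ (2 / ε') := hr1.trans ((min_le_right _ _).trans (min_le_right _ _))
  obtain ⟨n, hn⟩ : ∃ n : ℕ, n = ⌈(R / |r|) ^ (1 / p)⌉₊ := ⟨_, rfl⟩
  have hnX : (R / |r|) ^ (1 / p) ≤ n := by
    rw [hn]
    exact Nat.le_ceil _
  have hX : (N : ℝ) ≤ (R / |r|) ^ (1 / p) := by
    have h1 : ((N : ℝ) ^ p) ^ (1 / p) ≤ (R / |r|) ^ (1 / p) := by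
      refine Real.rpow_le_rpow (by positivity) ?_ (by positivity)
      rw [le_div_iff₀ hr0]
      calc (N : ℝ) ^ p * |r| ≤ (N : ℝ) ^ p * (N : ℝ) ^ (-p) := mul_le_mul_of_nonneg_left b1 (by positivity)
        _ = 1 := by
            rw [← Real.rpow_add (by linarith)]
            simp
        _ ≤ R := hR1
    rw [← Real.rpow_mul (by linarith)] at h1
    have h2 : p * (1 / p) = 1 := by
      field_simp
    rw [h2, Real.rpow_one] at h1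
    exact h1
  have hnN : N ≤ n := by
    have : (N : ℝ) ≤ n := hX.trans hnX
    exact_mod_cast this
  have hn1 : 1 ≤ n := by omega
  have hnR : (1 : ℝ) ≤ n := by exact_mod_cast hn1
  have hn0 : (0 : ℝ) < n := by linarith
  have hE := EE_pos (μ := μ) (s := s) n
  have d1 := hn₁ n (by omega)
  have d2 := (hn₂ n (by omega)).1
  have d3 := hn₃ n (by omega) r
  have d0 := FM_le17 h n r
  have hE1 : 1 ≤ EE μ s n := (Real.one_le_rpow hnR (by linarith)).trans d2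
  have d4 : R ≤ |r| * (n : ℝ) ^ p := by
    have h1 : ((R / |r|) ^ (1 / p)) ^ p ≤ (n : ℝ) ^ p := Real.rpow_le_rpow (by positivity) hnX hp0.le
    rw [← Real.rpow_mul (by positivity)] at h1
    have h2 : 1 / p * p = 1 := by
      field_simp
    rw [h2, Real.rpow_one, div_le_iff₀ hr0] at h1
    linarith
  have d5 : (n : ℝ) ^ p * EE μ s n ≤ wd μ s n := by
    have h1 : (n : ℝ) ^ θ * ((n : ℝ) ^ p * EE μ s n) ≤ (n : ℝ) ^ θ * wd μ s n := by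
      calc (n : ℝ) ^ θ * ((n : ℝ) ^ p * EE μ s n) = (n : ℝ) ^ θ * (n : ℝ) ^ p * EE μ s n := by ring
        _ = (n : ℝ) ^ (1 / 3 - θ) * EE μ s n := by
            rw [← Real.rpow_add hn0, hp]
            ring_nf
        _ ≤ EE μ s n * EE μ s n := mul_le_mul_of_nonneg_right d2 hE.le
        _ = EE μ s n ^ 2 := by ring
        _ ≤ (n : ℝ) ^ θ * wd μ s n := d1
    exact le_of_mul_le_mul_left h1 (Real.rpow_pos_of_pos hn0 _)
  have d6 : (C + 2) * EE μ s n ≤ |r| * (c * wd μ s n) := by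
    calc (C + 2) * EE μ s n = c * R * EE μ s n := by
          rw [hR]
          field_simp
      _ ≤ c * (|r| * (n : ℝ) ^ p) * EE μ s n := by gcongr
      _ = c * |r| * ((n : ℝ) ^ p * EE μ s n) := by ring
      _ ≤ c * |r| * wd μ s n := by gcongr
      _ = |r| * (c * wd μ s n) := by ring
  have d7 : (n : ℝ) ^ (1 / 3 - θ) ≤ n * ex μ s r := by
    have h1 : (C + 2) * EE μ s n = C * EE μ s n + 2 * EE μ s n := by ring
    linarith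
  have d8 : |r| ^ (ε' / 2) ≤ (2 * R ^ (6 : ℝ)) ^ (-(1 : ℝ)) := by
    rw [← hA]
    have h1 : |r| ^ (ε' / 2) ≤ (A ^ (2 / ε')) ^ (ε' / 2) := Real.rpow_le_rpow hr0.le b3 (by positivity)
    rw [← Real.rpow_mul hA0.le] at h1
    have h2 : 2 / ε' * (ε' / 2) = 1 := by
      field_simp
    rw [h2, Real.rpow_one] at h1
    exact h1
  have d9 := numL17 (ε := ε') t1 (by rw [hθ]; linarith) e3 hr0 hR1 b2 d8 (by rw [hn, hp]) d7
  exact (Real.rpow_le_rpow_of_exponent_ge hr0 b2 (by linarith)).trans d9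

/-- **The curvature**: both bounds of the excess. -/
theorem curv17 (h : In μ s c C n₀) (hT : Th17 μ s) (hL : LB17 μ s) (hU : UB17 μ s) {ε : ℝ} (hε : 0 < ε) :
    ∃ r₀ : ℝ, 0 < r₀ ∧ ∀ r : ℝ, 0 < |r| → |r| ≤ r₀ → |r| ^ (2 + ε) ≤ ex μ s r ∧ ex μ s r ≤ |r| ^ (2 - ε) := by
  obtain ⟨r₁, h1, h2⟩ := curvU17 h hT hL hε
  obtain ⟨r₂, h3, h4⟩ := curvL17 h hT hU hε
  exact ⟨min r₁ r₂, lt_min h1 h3, fun r hr hr1 => ⟨h4 r hr (hr1.trans (min_le_right _ _)), h2 r hr (hr1.trans (min_le_left _ _))⟩⟩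

end

end Pool.Agent.W_7d29a1_C1
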