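import Mathlib

/-!
MP_7d29a1_pr, C1: CORNER CUTTING, abstract part (helper67).

`X k q`, `Y k q` = distribution functions of the two laws at the row `k` (the right one has the larger likelihood ratio). One row:
`X (k+1) q = X k q - h k q (X k q - X k (q-1))` with the same `h` for both. The points `(X k q, Y k q)` are the vertices of a convex
polygon and one row cuts off the corners; the triangle at the vertex `q - 1` has twice the area
`cut = h (q-1) (1 - h q) (ΔX (q-1) ΔY q - ΔX q ΔY (q-1))`. Since the triangles are disjoint, the sum of `cut / (x y)` is at most the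
area of the triangle `0 ≤ y ≤ x ≤ 1` with the density `1/(xy)`. The proof uses the projective maps `v / (1 + α x + β y)`.
-/

set_option autoImplicit false

namespace Pool.Agent.W_7d29a1_C1.Cut67

open Finset

noncomputable section

/-- The projective factor. -/
def gg (α β x y : ℝ) : ℝ := 1 + α * x + β * y

/-- Twice the area of the image of the triangle with the vertices `0`, `(a, b)`, `(c, d)`. -/
def KK (α β a b c d : ℝ) : ℝ := (a * d - b * c) / (gg α β a b * gg α β c d)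

/-- A point of the segment. -/
theorem KK_seg {α β a b c d t : ℝ} (h1 : gg α β a b ≠ 0) (h2 : gg α β c d ≠ 0)
    (h3 : gg α β (c - t * (c - a)) (d - t * (d - b)) ≠ 0) :
    KK α β a b c d = KK α β a b (c - t * (c - a)) (d - t * (d - b)) + KK α β (c - t * (c - a)) (d - t * (d - b)) c d := by
  unfold KK
  rw [div_add_div _ _ (mul_ne_zero h1 h3) (mul_ne_zero h3 h2), div_eq_div_iff (mul_ne_zero h1 h2)
    (mul_ne_zero (mul_ne_zero h1 h3) (mul_ne_zero h3 h2))]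
  unfold gg
  ring

/-- The triangle. -/
theorem KK_tri {α β a b c d e f : ℝ} (h1 : gg α β a b ≠ 0) (h2 : gg α β c d ≠ 0) (h3 : gg α β e f ≠ 0) :
    KK α β a b c d + KK α β c d e f = KK α β a b e f +
      ((c - a) * (f - d) - (d - b) * (e - c)) / (gg α β a b * gg α β c d * gg α β e f) := by
  unfold KK
  rw [div_add_div _ _ (mul_ne_zero h1 h2) (mul_ne_zero h2 h3), div_add_div _ _ (mul_ne_zero h1 h3)
    (mul_ne_zero (mul_ne_zero h1 h2) h3), div_eq_div_iff (mul_ne_zero (mul_ne_zero h1 h2) (mul_ne_zero h2 h3))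
    (mul_ne_zero (mul_ne_zero h1 h3) (mul_ne_zero (mul_ne_zero h1 h2) h3))]
  unfold gg
  ring

/-- Telescoping over the integers. -/
theorem sum_tel (f : ℤ → ℝ) (lo : ℤ) : ∀ hi : ℤ, lo - 1 ≤ hi → ∑ q ∈ Icc lo hi, (f q - f (q - 1)) = f hi - f (lo - 1) := by
  intro hi h
  induction hi, h using Int.le_induction with
  | base => simp
  | succ n hn ih =>
    have e : Icc lo (n + 1) = insert (n + 1) (Icc lo n) := by
      ext q
      simp only [mem_Icc, mem_insert]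
      omega
    rw [e, sum_insert (by simp), ih, add_sub_cancel_right]
    ring

/-- **One row.** -/
theorem row_step {α β : ℝ} {lo hi : ℤ} (hlh : lo ≤ hi) {X Y h X' Y' : ℤ → ℝ}
    (sX : ∀ q, X' q = X q - h q * (X q - X (q - 1))) (sY : ∀ q, Y' q = Y q - h q * (Y q - Y (q - 1)))
    (X0 : ∀ q, q < lo → X q = 0) (Y0 : ∀ q, q < lo → Y q = 0) (X1 : X hi = X (hi - 1)) (Y1 : Y hi = Y (hi - 1))
    (g1 : ∀ q, gg α β (X q) (Y q) ≠ 0) (g2 : ∀ q, gg α β (X' q) (Y' q) ≠ 0) :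
    ∑ q ∈ Icc lo hi, KK α β (X (q - 1)) (Y (q - 1)) (X q) (Y q) =
      ∑ q ∈ Icc lo hi, KK α β (X' (q - 1)) (Y' (q - 1)) (X' q) (Y' q) +
      ∑ q ∈ Icc lo hi, h (q - 1) * (1 - h q) * ((X (q - 1) - X (q - 1 - 1)) * (Y q - Y (q - 1)) -
        (X q - X (q - 1)) * (Y (q - 1) - Y (q - 1 - 1))) /
        (gg α β (X' (q - 1)) (Y' (q - 1)) * gg α β (X (q - 1)) (Y (q - 1)) * gg α β (X' q) (Y' q)) := by
  have key : ∀ q, KK α β (X (q - 1)) (Y (q - 1)) (X q) (Y q) =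
      KK α β (X' (q - 1)) (Y' (q - 1)) (X' q) (Y' q) +
      h (q - 1) * (1 - h q) * ((X (q - 1) - X (q - 1 - 1)) * (Y q - Y (q - 1)) -
        (X q - X (q - 1)) * (Y (q - 1) - Y (q - 1 - 1))) /
        (gg α β (X' (q - 1)) (Y' (q - 1)) * gg α β (X (q - 1)) (Y (q - 1)) * gg α β (X' q) (Y' q)) +
      (KK α β (X' q) (Y' q) (X q) (Y q) - KK α β (X' (q - 1)) (Y' (q - 1)) (X (q - 1)) (Y (q - 1))) := by
    intro q
    have e1 := KK_seg (α := α) (β := β) (t := h q) (g1 (q - 1)) (g1 q) (by rw [← sX, ← sY]; exact g2 q)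
    rw [← sX, ← sY] at e1
    have e2 := KK_tri (α := α) (β := β) (g2 (q - 1)) (g1 (q - 1)) (g2 q)
    have e3 : (X (q - 1) - X' (q - 1)) * (Y' q - Y (q - 1)) - (Y (q - 1) - Y' (q - 1)) * (X' q - X (q - 1)) =
        h (q - 1) * (1 - h q) * ((X (q - 1) - X (q - 1 - 1)) * (Y q - Y (q - 1)) -
        (X q - X (q - 1)) * (Y (q - 1) - Y (q - 1 - 1))) := by
      rw [sX q, sX (q - 1), sY q, sY (q - 1)]
      ring
    rw [e3] at e2
    linarith
  rw [sum_congr rfl fun q _ => key q, sum_add_distrib, sum_add_distrib,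
    sum_tel (fun q => KK α β (X' q) (Y' q) (X q) (Y q)) lo hi (by omega)]
  have e1 : X' hi = X hi := by rw [sX, X1]; ring
  have e2 : Y' hi = Y hi := by rw [sY, Y1]; ring
  have e3 : KK α β (X' hi) (Y' hi) (X hi) (Y hi) = 0 := by
    rw [e1, e2]
    unfold KK
    rw [show X hi * Y hi - Y hi * X hi = 0 by ring, zero_div]
  have e4 : KK α β (X' (lo - 1)) (Y' (lo - 1)) (X (lo - 1)) (Y (lo - 1)) = 0 := by
    unfold KK
    rw [X0 (lo - 1) (by omega), Y0 (lo - 1) (by omega)]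
    simp
  rw [e3, e4]
  ring

/-- Two distribution functions which evolve with the same transitions. -/
structure Cdf (X Y h : ℕ → ℤ → ℝ) (lo hi b : ℤ) (N : ℕ) : Prop where
  lh : lo ≤ hi
  h0 : ∀ k q, 0 ≤ h k q
  h1 : ∀ k q, h k q ≤ 1
  sX : ∀ k, k < N → ∀ q, X (k + 1) q = X k q - h k q * (X k q - X k (q - 1))
  sY : ∀ k, k < N → ∀ q, Y (k + 1) q = Y k q - h k q * (Y k q - Y k (q - 1))
  X0 : ∀ k, k ≤ N → ∀ q, q < lo → X k q = 0
  Y0 : ∀ k, k ≤ N → ∀ q, q < lo → Y k q = 0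
  X1 : ∀ k, k < N → X k hi = X k (hi - 1)
  Y1 : ∀ k, k < N → Y k hi = Y k (hi - 1)
  mX : ∀ k, k ≤ N → ∀ q, 0 ≤ X k q - X k (q - 1)
  mY : ∀ k, k ≤ N → ∀ q, 0 ≤ Y k q - Y k (q - 1)
  lr : ∀ k, k ≤ N → ∀ q q', q ≤ q' → 0 ≤ (X k q - X k (q - 1)) * (Y k q' - Y k (q' - 1)) -
    (X k q' - X k (q' - 1)) * (Y k q - Y k (q - 1))
  iX : ∀ q, b ≤ q + 1 → X 0 q = 1
  iY : ∀ q, q < b → Y 0 q = 0
  tY : ∀ q, Y 0 q ≤ 1

/-- Twice the area which is cut off. -/
def cut (X Y h : ℕ → ℤ → ℝ) (k : ℕ) (q : ℤ) : ℝ :=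
  h k (q - 1) * (1 - h k q) * ((X k (q - 1) - X k (q - 1 - 1)) * (Y k q - Y k (q - 1)) -
    (X k q - X k (q - 1)) * (Y k (q - 1) - Y k (q - 1 - 1)))

section

variable {X Y h : ℕ → ℤ → ℝ} {lo hi b : ℤ} {N : ℕ}

theorem Cdf.cut_nonneg (C : Cdf X Y h lo hi b N) {k : ℕ} (hk : k ≤ N) (q : ℤ) : 0 ≤ cut X Y h k q :=
  mul_nonneg (mul_nonneg (C.h0 _ _) (by linarith [C.h1 k q])) (C.lr k hk (q - 1) q (by omega))

theorem Cdf.mono (C : Cdf X Y h lo hi b N) {k : ℕ} (hk : k ≤ N) {q q' : ℤ} (hq : q ≤ q') : X k q ≤ X k q' ∧ Y k q ≤ Y k q' := by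
  induction q', hq using Int.le_induction with
  | base => exact ⟨le_rfl, le_rfl⟩
  | succ n _ ih =>
    have h1 := C.mX k hk (n + 1)
    have h2 := C.mY k hk (n + 1)
    rw [add_sub_cancel_right] at h1 h2
    exact ⟨by linarith [ih.1], by linarith [ih.2]⟩

theorem Cdf.nonneg (C : Cdf X Y h lo hi b N) {k : ℕ} (hk : k ≤ N) (q : ℤ) : 0 ≤ X k q ∧ 0 ≤ Y k q := by
  rcases lt_or_ge q lo with hq | hq
  · rw [C.X0 k hk q hq, C.Y0 k hk q hq]
    exact ⟨le_rfl, le_rfl⟩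
  · have h1 := C.mono hk (show lo - 1 ≤ q by omega)
    rw [C.X0 k hk (lo - 1) (by omega), C.Y0 k hk (lo - 1) (by omega)] at h1
    exact h1

theorem Cdf.le_one (C : Cdf X Y h lo hi b N) : ∀ {k : ℕ}, k ≤ N → ∀ q, X k q ≤ 1 ∧ Y k q ≤ 1
  | 0, hk, q => by
    refine ⟨?_, C.tY q⟩
    have h1 := (C.mono hk (le_max_left q b)).1
    rw [C.iX (max q b) (by have := le_max_right q b; omega)] at h1
    exact h1
  | k + 1, hk, q => by
    have h1 := C.le_one (show k ≤ N by omega) q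
    rw [C.sX k (by omega) q, C.sY k (by omega) q]
    have h2 := mul_nonneg (C.h0 k q) (C.mX k (by omega) q)
    have h3 := mul_nonneg (C.h0 k q) (C.mY k (by omega) q)
    exact ⟨by linarith [h1.1], by linarith [h1.2]⟩

/-- The polygon is convex: the vertices turn to the left around `0`. -/
theorem Cdf.cross (C : Cdf X Y h lo hi b N) {k : ℕ} (hk : k ≤ N) (q : ℤ) : 0 ≤ X k (q - 1) * Y k q - Y k (q - 1) * X k q := by
  have key : ∀ j : ℤ, lo - 1 ≤ j → j ≤ q - 1 → 0 ≤ X k j * (Y k q - Y k (q - 1)) - Y k j * (X k q - X k (q - 1)) := by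
    intro j hj
    induction j, hj using Int.le_induction with
    | base =>
      intro _
      rw [C.X0 k hk (lo - 1) (by omega), C.Y0 k hk (lo - 1) (by omega)]
      simp
    | succ n _ ih =>
      intro hn
      have h1 := ih (by omega)
      have h2 := C.lr k hk (n + 1) q (by omega)
      rw [add_sub_cancel_right] at h2
      linarith
  rcases lt_or_ge q lo with hq | hq
  · rw [C.X0 k hk q hq, C.Y0 k hk q hq]
    simp
  · have h1 := key (q - 1) (by omega) le_rfl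
    linarith

theorem gg_ge {α β x y : ℝ} (hα : 0 ≤ α) (hβ : 0 ≤ β) (hx : 0 ≤ x) (hy : 0 ≤ y) : 1 ≤ gg α β x y := by
  unfold gg
  have := mul_nonneg hα hx
  have := mul_nonneg hβ hy
  linarith

theorem gg_mono {α β x y x' y' : ℝ} (hα : 0 ≤ α) (hβ : 0 ≤ β) (hx : x ≤ x') (hy : y ≤ y') : gg α β x y ≤ gg α β x' y' := by
  unfold gg
  have := mul_le_mul_of_nonneg_left hx hα
  have := mul_le_mul_of_nonneg_left hy hβ
  linarith

/-- The fan of a row. -/
def fan (α β : ℝ) (X Y : ℕ → ℤ → ℝ) (lo hi : ℤ) (k : ℕ) : ℝ :=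
  ∑ q ∈ Icc lo hi, KK α β (X k (q - 1)) (Y k (q - 1)) (X k q) (Y k q)

theorem Cdf.fan_nonneg (C : Cdf X Y h lo hi b N) {α β : ℝ} (hα : 0 ≤ α) (hβ : 0 ≤ β) {k : ℕ} (hk : k ≤ N) :
    0 ≤ fan α β X Y lo hi k := by
  refine sum_nonneg fun q _ => ?_
  have h1 := C.nonneg hk q
  have h2 := C.nonneg hk (q - 1)
  have h3 := gg_ge hα hβ h1.1 h1.2
  have h4 := gg_ge hα hβ h2.1 h2.2
  exact div_nonneg (C.cross hk q) (by positivity)

theorem Cdf.fan_step (C : Cdf X Y h lo hi b N) {α β : ℝ} (hα : 0 ≤ α) (hβ : 0 ≤ β) {k : ℕ} (hk : k < N) :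
    ∑ q ∈ Icc lo hi, cut X Y h k q / gg α β (X (k + 1) q) (Y (k + 1) q) ^ 3 ≤
      fan α β X Y lo hi k - fan α β X Y lo hi (k + 1) := by
  have hk0 : k ≤ N := hk.le
  have hk1 : k + 1 ≤ N := hk
  have G1 : ∀ q, 1 ≤ gg α β (X k q) (Y k q) := fun q => gg_ge hα hβ (C.nonneg hk0 q).1 (C.nonneg hk0 q).2
  have G2 : ∀ q, 1 ≤ gg α β (X (k + 1) q) (Y (k + 1) q) := fun q => gg_ge hα hβ (C.nonneg hk1 q).1 (C.nonneg hk1 q).2
  have key := row_step (α := α) (β := β) C.lh (C.sX k hk) (C.sY k hk) (C.X0 k hk0) (C.Y0 k hk0) (C.X1 k hk) (C.Y1 k hk)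
    (fun q => by have := G1 q; positivity) (fun q => by have := G2 q; positivity)
  unfold fan
  rw [key, add_sub_cancel_left]
  refine sum_le_sum fun q _ => ?_
  refine div_le_div_of_nonneg_left (C.cut_nonneg hk0 q) ?_ ?_
  · have := G1 (q - 1)
    have := G2 (q - 1)
    have := G2 q
    positivity
  · have a1 : gg α β (X (k + 1) (q - 1)) (Y (k + 1) (q - 1)) ≤ gg α β (X (k + 1) q) (Y (k + 1) q) :=
      gg_mono hα hβ (C.mono hk1 (by omega)).1 (C.mono hk1 (by omega)).2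
    have a2 : gg α β (X k (q - 1)) (Y k (q - 1)) ≤ gg α β (X (k + 1) q) (Y (k + 1) q) := by
      refine gg_mono hα hβ ?_ ?_
      · rw [C.sX k hk q]
        have := mul_nonneg (show 0 ≤ 1 - h k q by linarith [C.h1 k q]) (C.mX k hk0 q)
        linarith
      · rw [C.sY k hk q]
        have := mul_nonneg (show 0 ≤ 1 - h k q by linarith [C.h1 k q]) (C.mY k hk0 q)
        linarith
    have b1 := G1 (q - 1)
    have b2 := G2 (q - 1)
    have b3 := G2 q
    obtain ⟨x, hx⟩ : ∃ x, x = gg α β (X (k + 1) (q - 1)) (Y (k + 1) (q - 1)) := ⟨_, rfl⟩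
    obtain ⟨y, hy⟩ : ∃ y, y = gg α β (X k (q - 1)) (Y k (q - 1)) := ⟨_, rfl⟩
    obtain ⟨z, hz⟩ : ∃ z, z = gg α β (X (k + 1) q) (Y (k + 1) q) := ⟨_, rfl⟩
    rw [← hx, ← hz] at a1
    rw [← hy, ← hz] at a2
    rw [← hy] at b1
    rw [← hx] at b2
    rw [← hz] at b3
    rw [← hx, ← hy, ← hz]
    calc x * y * z ≤ z * z * z := by
          refine mul_le_mul_of_nonneg_right (mul_le_mul a1 a2 (by linarith) (by linarith)) (by linarith)
      _ = z ^ 3 := by ring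

/-- The fan of the row `0`: the two groups are separated. -/
theorem Cdf.fan_zero (C : Cdf X Y h lo hi b N) {α β : ℝ} (hα : 0 ≤ α) (hβ : 0 ≤ β) :
    fan α β X Y lo hi 0 ≤ 1 / ((1 + α) * (1 + α + β)) := by
  have hα1 : 0 < 1 + α := by linarith
  obtain ⟨F, hF⟩ : ∃ F : ℝ → ℝ, F = fun y => y / ((1 + α) * (1 + α + β * y)) := ⟨_, rfl⟩
  have term : ∀ q, KK α β (X 0 (q - 1)) (Y 0 (q - 1)) (X 0 q) (Y 0 q) = F (Y 0 q) - F (Y 0 (q - 1)) := by
    intro q
    rcases lt_or_ge q b with hq | hq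
    · unfold KK
      rw [C.iY q hq, C.iY (q - 1) (by omega)]
      simp
    · have y0 := (C.nonneg (Nat.zero_le N) q).2
      have y1 := (C.nonneg (Nat.zero_le N) (q - 1)).2
      unfold KK gg
      rw [C.iX q (by omega), C.iX (q - 1) (by omega), hF]
      have g0 : 0 < 1 + α * 1 + β * Y 0 q := by have := mul_nonneg hβ y0; linarith
      have g1 : 0 < 1 + α * 1 + β * Y 0 (q - 1) := by have := mul_nonneg hβ y1; linarith
      have g2 : 0 < 1 + α + β * Y 0 q := by linarith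
      have g3 : 0 < 1 + α + β * Y 0 (q - 1) := by linarith
      rw [div_sub_div _ _ (by positivity) (by positivity), div_eq_div_iff (by positivity) (by positivity)]
      ring
  unfold fan
  rw [sum_congr rfl fun q _ => term q, sum_tel (fun q => F (Y 0 q)) lo hi (by have := C.lh; omega),
    C.Y0 0 (Nat.zero_le N) (lo - 1) (by omega)]
  have e0 : F 0 = 0 := by rw [hF]; simp
  rw [e0, sub_zero, hF]
  have y0 := (C.nonneg (Nat.zero_le N) hi).2
  have y1 := (C.le_one (Nat.zero_le N) hi).2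
  have g2 : 0 < 1 + α + β * Y 0 hi := by have := mul_nonneg hβ y0; linarith
  show Y 0 hi / ((1 + α) * (1 + α + β * Y 0 hi)) ≤ 1 / ((1 + α) * (1 + α + β))
  rw [div_le_div_iff₀ (by positivity) (by positivity)]
  have h1 : Y 0 hi * (1 + α + β) ≤ 1 + α + β * Y 0 hi := by nlinarith
  nlinarith

/-- **Corner cutting against one projective density.** -/
theorem Cdf.sum_le (C : Cdf X Y h lo hi b N) {α β : ℝ} (hα : 0 ≤ α) (hβ : 0 ≤ β) :
    ∑ k ∈ range N, ∑ q ∈ Icc lo hi, cut X Y h k q / gg α β (X (k + 1) q) (Y (k + 1) q) ^ 3 ≤ 1 / ((1 + α) * (1 + α + β)) := by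
  have key : ∀ n, n ≤ N → ∑ k ∈ range n, ∑ q ∈ Icc lo hi, cut X Y h k q / gg α β (X (k + 1) q) (Y (k + 1) q) ^ 3 ≤
      fan α β X Y lo hi 0 - fan α β X Y lo hi n := by
    intro n
    induction n with
    | zero => intro _; simp
    | succ n ih =>
      intro hn
      rw [sum_range_succ]
      have h1 := ih (by omega)
      have h2 := C.fan_step hα hβ (show n < N by omega)
      linarith
  have h1 := key N le_rfl
  have h2 := C.fan_nonneg hα hβ (le_refl N)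
  have h3 := C.fan_zero hα hβ
  linarith

end

/-! ### The density `1/(xy)` -/

theorem pick {x ρ : ℝ} (h0 : 0 ≤ x) (h1 : x ≤ 1) (hρ : 0 < ρ) {I : ℕ} (hI : 1 ≤ 2 ^ I * ρ) :
    ∃ i ∈ range (I + 1), 2 ^ i * x ≤ 1 ∧ 1 / max x ρ ≤ 2 * 2 ^ i := by
  classical
  have P0 : (2 : ℝ) ^ 0 * x ≤ 1 := by simpa using h1
  set i := Nat.findGreatest (fun i => (2 : ℝ) ^ i * x ≤ 1) I with hi
  have hiI : i ≤ I := Nat.findGreatest_le I
  have hPi : (2 : ℝ) ^ i * x ≤ 1 := Nat.findGreatest_spec (P := fun i => (2 : ℝ) ^ i * x ≤ 1) (Nat.zero_le I) P0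
  refine ⟨i, mem_range.2 (by omega), hPi, ?_⟩
  have hm : 0 < max x ρ := lt_max_of_lt_right hρ
  rw [div_le_iff₀ hm]
  rcases Nat.lt_or_ge i I with hlt | hge
  · have h2 : ¬ (2 : ℝ) ^ (i + 1) * x ≤ 1 := Nat.findGreatest_is_greatest (P := fun i => (2 : ℝ) ^ i * x ≤ 1)
      (by omega : i < i + 1) hlt
    rw [not_le, pow_succ] at h2
    have h3 : 2 * 2 ^ i * x ≤ 2 * 2 ^ i * max x ρ := mul_le_mul_of_nonneg_left (le_max_left _ _) (by positivity)
    linarith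
  · have e : i = I := le_antisymm hiI hge
    rw [e]
    have h3 : (2 : ℝ) ^ I * ρ ≤ 2 ^ I * max x ρ := mul_le_mul_of_nonneg_left (le_max_right _ _) (by positivity)
    have h4 : (0 : ℝ) ≤ 2 ^ I * max x ρ := by positivity
    linarith

theorem dens {x y ρ : ℝ} (x0 : 0 ≤ x) (x1 : x ≤ 1) (y0 : 0 ≤ y) (y1 : y ≤ 1) (hρ : 0 < ρ) {I : ℕ} (hI : 1 ≤ 2 ^ I * ρ) :
    1 / (max x ρ * max y ρ) ≤
      108 * ∑ i ∈ range (I + 1), ∑ j ∈ range (I + 1), 2 ^ i * 2 ^ j / gg (2 ^ i) (2 ^ j) x y ^ 3 := by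
  obtain ⟨i, hi, i1, i2⟩ := pick x0 x1 hρ hI
  obtain ⟨j, hj, j1, j2⟩ := pick y0 y1 hρ hI
  have pos : ∀ i j : ℕ, (0 : ℝ) ≤ 2 ^ i * 2 ^ j / gg (2 ^ i) (2 ^ j) x y ^ 3 := by
    intro i j
    have h1 := gg_ge (α := 2 ^ i) (β := 2 ^ j) (by positivity) (by positivity) x0 y0
    positivity
  have h1 : (2 : ℝ) ^ i * 2 ^ j / gg (2 ^ i) (2 ^ j) x y ^ 3 ≤
      ∑ i ∈ range (I + 1), ∑ j ∈ range (I + 1), 2 ^ i * 2 ^ j / gg (2 ^ i) (2 ^ j) x y ^ 3 :=
    (single_le_sum (f := fun j : ℕ => (2 : ℝ) ^ i * 2 ^ j / gg (2 ^ i) (2 ^ j) x y ^ 3) (fun j _ => pos i j) hj).trans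
      (single_le_sum (f := fun i : ℕ => ∑ j ∈ range (I + 1), (2 : ℝ) ^ i * 2 ^ j / gg (2 ^ i) (2 ^ j) x y ^ 3)
        (fun i _ => sum_nonneg fun j _ => pos i j) hi)
  have h2 : gg (2 ^ i) (2 ^ j) x y ≤ 3 := by
    unfold gg
    linarith
  have h3 := gg_ge (α := (2 : ℝ) ^ i) (β := 2 ^ j) (by positivity) (by positivity) x0 y0
  have h4 : (2 : ℝ) ^ i * 2 ^ j / 27 ≤ 2 ^ i * 2 ^ j / gg (2 ^ i) (2 ^ j) x y ^ 3 := by
    refine div_le_div_of_nonneg_left (by positivity) (by positivity) ?_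
    calc gg (2 ^ i) (2 ^ j) x y ^ 3 ≤ 3 ^ 3 := pow_le_pow_left₀ (by linarith) h2 3
      _ = 27 := by norm_num
  have h5 : 1 / (max x ρ * max y ρ) ≤ (2 * 2 ^ i) * (2 * 2 ^ j) := by
    have a1 : 0 < max x ρ := lt_max_of_lt_right hρ
    have a2 : 0 < max y ρ := lt_max_of_lt_right hρ
    have e : 1 / (max x ρ * max y ρ) = (1 / max x ρ) * (1 / max y ρ) := by
      rw [div_mul_div_comm, one_mul]
    rw [e]
    exact mul_le_mul i2 j2 (by positivity) (by positivity)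
  calc 1 / (max x ρ * max y ρ) ≤ (2 * 2 ^ i) * (2 * 2 ^ j) := h5
    _ = 108 * (2 ^ i * 2 ^ j / 27) := by ring
    _ ≤ _ := mul_le_mul_of_nonneg_left (h4.trans h1) (by norm_num)

/-- **Corner cutting against the density `1/(xy)`.** -/
theorem Cdf.log_sq {X Y h : ℕ → ℤ → ℝ} {lo hi b : ℤ} {N : ℕ} (C : Cdf X Y h lo hi b N) {ρ : ℝ} (hρ : 0 < ρ) {I : ℕ}
    (hI : 1 ≤ 2 ^ I * ρ) :
    ∑ k ∈ range N, ∑ q ∈ Icc lo hi, cut X Y h k q / (max (X (k + 1) q) ρ * max (Y (k + 1) q) ρ) ≤ 108 * ((I : ℝ) + 1) ^ 2 := by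
  have step : ∀ k ∈ range N, ∀ q ∈ Icc lo hi, cut X Y h k q / (max (X (k + 1) q) ρ * max (Y (k + 1) q) ρ) ≤
      108 * ∑ i ∈ range (I + 1), ∑ j ∈ range (I + 1),
        2 ^ i * 2 ^ j * (cut X Y h k q / gg (2 ^ i) (2 ^ j) (X (k + 1) q) (Y (k + 1) q) ^ 3) := by
    intro k hk q _
    rw [mem_range] at hk
    have h0 := C.nonneg (show k + 1 ≤ N from hk) q
    have h1 := C.le_one (show k + 1 ≤ N from hk) q
    have h2 := dens h0.1 h1.1 h0.2 h1.2 hρ hI
    have h3 := mul_le_mul_of_nonneg_left h2 (C.cut_nonneg hk.le q)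
    refine le_trans (le_of_eq ?_) (h3.trans (le_of_eq ?_))
    · ring
    · rw [mul_left_comm, mul_sum]
      congr 1
      refine sum_congr rfl fun i _ => ?_
      rw [mul_sum]
      refine sum_congr rfl fun j _ => ?_
      ring
  refine (sum_le_sum fun k hk => sum_le_sum fun q hq => step k hk q hq).trans ?_
  have e1 : ∑ k ∈ range N, ∑ q ∈ Icc lo hi, 108 * ∑ i ∈ range (I + 1), ∑ j ∈ range (I + 1),
        (2 : ℝ) ^ i * 2 ^ j * (cut X Y h k q / gg (2 ^ i) (2 ^ j) (X (k + 1) q) (Y (k + 1) q) ^ 3) =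
      108 * ∑ i ∈ range (I + 1), ∑ j ∈ range (I + 1), 2 ^ i * 2 ^ j *
        ∑ k ∈ range N, ∑ q ∈ Icc lo hi, cut X Y h k q / gg (2 ^ i) (2 ^ j) (X (k + 1) q) (Y (k + 1) q) ^ 3 := by
    simp only [mul_sum]
    rw [sum_comm' (t' := Icc lo hi) (s' := fun _ => range N) (by intro x y; simp [and_comm])]
    rw [sum_comm' (t' := range N) (s' := fun _ => Icc lo hi) (by intro x y; simp [and_comm])]
    have e2 : ∀ k ∈ range N, ∑ q ∈ Icc lo hi, ∑ i ∈ range (I + 1), ∑ j ∈ range (I + 1),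
        108 * ((2 : ℝ) ^ i * 2 ^ j * (cut X Y h k q / gg (2 ^ i) (2 ^ j) (X (k + 1) q) (Y (k + 1) q) ^ 3)) =
        ∑ i ∈ range (I + 1), ∑ j ∈ range (I + 1), ∑ q ∈ Icc lo hi,
        108 * ((2 : ℝ) ^ i * 2 ^ j * (cut X Y h k q / gg (2 ^ i) (2 ^ j) (X (k + 1) q) (Y (k + 1) q) ^ 3)) := by
      intro k _
      rw [sum_comm]
      exact sum_congr rfl fun i _ => sum_comm
    rw [sum_congr rfl e2, sum_comm]
    refine sum_congr rfl fun i _ => ?_
    rw [sum_comm]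
  rw [e1]
  have e3 : ∀ i ∈ range (I + 1), ∀ j ∈ range (I + 1), (2 : ℝ) ^ i * 2 ^ j *
        ∑ k ∈ range N, ∑ q ∈ Icc lo hi, cut X Y h k q / gg (2 ^ i) (2 ^ j) (X (k + 1) q) (Y (k + 1) q) ^ 3 ≤ 1 := by
    intro i _ j _
    have h1 := C.sum_le (α := 2 ^ i) (β := 2 ^ j) (by positivity) (by positivity)
    have h2 := mul_le_mul_of_nonneg_left h1 (show (0 : ℝ) ≤ 2 ^ i * 2 ^ j by positivity)
    refine h2.trans ?_
    rw [mul_one_div, div_le_one (by positivity)]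
    have a1 : (0 : ℝ) ≤ 2 ^ i := by positivity
    have a2 : (0 : ℝ) ≤ 2 ^ j := by positivity
    nlinarith
  have e4 : ∑ i ∈ range (I + 1), ∑ j ∈ range (I + 1), (2 : ℝ) ^ i * 2 ^ j *
        ∑ k ∈ range N, ∑ q ∈ Icc lo hi, cut X Y h k q / gg (2 ^ i) (2 ^ j) (X (k + 1) q) (Y (k + 1) q) ^ 3 ≤
      ((I : ℝ) + 1) ^ 2 := by
    refine (sum_le_sum fun i hi => sum_le_sum fun j hj => e3 i hi j hj).trans (le_of_eq ?_)
    simp only [sum_const, card_range, nsmul_eq_mul, mul_one]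
    push_cast
    ring
  exact mul_le_mul_of_nonneg_left e4 (by norm_num)

/-- **The joint tail**: the mass which meets where `x ≤ s`, `y ≤ t` is at most `27 s t`. -/
theorem Cdf.tail {X Y h : ℕ → ℤ → ℝ} {lo hi b : ℤ} {N : ℕ} (C : Cdf X Y h lo hi b N) {s t : ℝ} (hs : 0 < s) (ht : 0 < t) :
    ∑ k ∈ range N, ∑ q ∈ (Icc lo hi).filter (fun q => X (k + 1) q ≤ s ∧ Y (k + 1) q ≤ t), cut X Y h k q ≤ 27 * (s * t) := by
  have h1 := C.sum_le (α := 1 / s) (β := 1 / t) (by positivity) (by positivity)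
  have h2 : ∑ k ∈ range N, ∑ q ∈ (Icc lo hi).filter (fun q => X (k + 1) q ≤ s ∧ Y (k + 1) q ≤ t), cut X Y h k q ≤
      27 * ∑ k ∈ range N, ∑ q ∈ Icc lo hi, cut X Y h k q / gg (1 / s) (1 / t) (X (k + 1) q) (Y (k + 1) q) ^ 3 := by
    rw [mul_sum]
    refine sum_le_sum fun k hk => ?_
    rw [mem_range] at hk
    rw [mul_sum]
    have pos : ∀ q, 0 ≤ 27 * (cut X Y h k q / gg (1 / s) (1 / t) (X (k + 1) q) (Y (k + 1) q) ^ 3) := by
      intro q
      have a1 := gg_ge (α := 1 / s) (β := 1 / t) (by positivity) (by positivity) (C.nonneg (show k + 1 ≤ N from hk) q).1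
        (C.nonneg (show k + 1 ≤ N from hk) q).2
      have a2 := C.cut_nonneg hk.le q
      positivity
    refine le_trans (sum_le_sum fun q hq => ?_) (sum_le_sum_of_subset_of_nonneg (filter_subset _ _) fun q _ _ => pos q)
    obtain ⟨-, hq1, hq2⟩ := mem_filter.1 hq
    have a1 := gg_ge (α := 1 / s) (β := 1 / t) (by positivity) (by positivity) (C.nonneg (show k + 1 ≤ N from hk) q).1
      (C.nonneg (show k + 1 ≤ N from hk) q).2
    have a2 := C.cut_nonneg hk.le q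
    have a3 : gg (1 / s) (1 / t) (X (k + 1) q) (Y (k + 1) q) ≤ 3 := by
      unfold gg
      have b1 : 1 / s * X (k + 1) q ≤ 1 := by
        rw [one_div_mul_eq_div, div_le_one hs]
        exact hq1
      have b2 : 1 / t * Y (k + 1) q ≤ 1 := by
        rw [one_div_mul_eq_div, div_le_one ht]
        exact hq2
      linarith
    rw [← mul_div_assoc, le_div_iff₀ (by positivity)]
    have a4 : gg (1 / s) (1 / t) (X (k + 1) q) (Y (k + 1) q) ^ 3 ≤ 27 :=
      (pow_le_pow_left₀ (by linarith) a3 3).trans (by norm_num)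
    nlinarith
  refine h2.trans (mul_le_mul_of_nonneg_left (h1.trans ?_) (by norm_num))
  rw [div_le_iff₀ (by positivity)]
  have e1 : s * t * ((1 + 1 / s) * (1 + 1 / s + 1 / t)) = (s + 1) * (t + t / s + 1) := by
    field_simp
  rw [e1]
  have : 0 ≤ t / s := by positivity
  nlinarith

end

end Pool.Agent.W_7d29a1_C1.Cut67
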