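import Mathlib

/-!
# Cut98: total depth of the cuts under a size biased weight (pigeonhole over thresholds)

`nu` is the weighted measure (`w 1(tame) P`), `W` the total weight, `dep q` the depth of the cut at
the (base 2) scale `q`.  Inputs: (h0) `W` is not smaller than `exp (- C0 m)`; (h1) product bound with
an arbitrary exponential loss `exp (C1 m)`; (h2) resampling of ALL the scales of depth at least `R`
at once, cost `exp (C3 R)` per resampled scale.  Output: the total depth of the cuts of depth at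
least `R*` is at most `eps m`, up to an exponentially small part of the weight.
-/

open MeasureTheory
open scoped ENNReal

namespace Pool.Agent.W_7d29a1_C1.Cut98

universe u

/-- total depth of the cuts whose depth is at least `R`. -/
def tot {Ω : Type u} {m : ℕ} (dep : Fin m → Ω → ℕ) (R : ℕ) (ω : Ω) : ℕ :=
  ∑ q, if R ≤ dep q ω then dep q ω else 0

/-- the hypotheses (h0), (h1), (h2). -/
structure Hyp {Ω : Type u} [MeasurableSpace Ω] {m : ℕ} (nu : Measure Ω) (W : ℝ≥0∞)
    (dep : Fin m → Ω → ℕ) (C0 C1 C3 a e1 : ℝ) : Prop where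
  h0 : ENNReal.ofReal (Real.exp (-(C0 * m))) ≤ W
  h1 : ∀ r : Fin m → ℕ, nu {ω | ∀ q, r q ≤ dep q ω} ≤
    ENNReal.ofReal (Real.exp (C1 * m - a * ∑ q, (r q : ℝ)))
  h2 : ∀ R : ℕ, 1 ≤ R → ∀ (S : Finset (Fin m)) (r : Fin m → ℕ), (∀ q ∈ S, R ≤ r q) →
    nu {ω | (∀ q ∈ S, r q ≤ dep q ω) ∧ ∀ q, q ∉ S → dep q ω < R} ≤
      ENNReal.ofReal (Real.exp (e1 * m + C3 * R * (S.card : ℝ) - a * ∑ q ∈ S, (r q : ℝ))) * W

/-- geometric sum over a range, `x ≤ 1/2`. -/
lemma geom_le {x : ℝ} (hx0 : 0 ≤ x) (hx : x ≤ 1 / 2) (n : ℕ) :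
    ∑ j ∈ Finset.range n, x ^ j ≤ 2 := by
  have h1 : (∑ j ∈ Finset.range n, x ^ j) * (1 - x) = 1 - x ^ n := by
    have := geom_sum_mul_neg x n
    linarith [this]
  have h2 : 0 ≤ x ^ n := pow_nonneg hx0 n
  nlinarith [Finset.sum_nonneg (fun j (_ : j ∈ Finset.range n) => pow_nonneg hx0 j)]

/-- half of the depth survives in units of `R`. -/
lemma half_le {R : ℕ} (hR : 1 ≤ R) (d : ℕ) :
    (if R ≤ d then d else 0) ≤ 2 * (d / R * R) := by
  split_ifs with h
  · have h1 : 1 ≤ d / R := (Nat.one_le_div_iff (by omega)).2 h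
    have h2 := Nat.div_add_mod d R
    have h3 : d % R < R := Nat.mod_lt _ (by omega)
    have h4 : R * 1 ≤ R * (d / R) := Nat.mul_le_mul_left R h1
    have h5 : R * (d / R) = d / R * R := Nat.mul_comm _ _
    omega
  · exact Nat.zero_le _

/-- truncation keeps a sum above `T`. -/
lemma trunc {m : ℕ} (n : Fin m → ℕ) {T : ℕ} (h : T ≤ ∑ q, n q) : T ≤ ∑ q, min (n q) T := by
  by_cases hq : ∃ q, T ≤ n q
  · obtain ⟨q, hq⟩ := hq
    calc T = min (n q) T := (min_eq_right hq).symm
      _ ≤ ∑ q, min (n q) T :=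
        Finset.single_le_sum (f := fun q => min (n q) T) (fun _ _ => Nat.zero_le _)
          (Finset.mem_univ q)
  · push Not at hq
    refine h.trans (le_of_eq (Finset.sum_congr rfl fun q _ => ?_))
    exact (min_eq_left (hq q).le).symm

/-- Case B: union bound for the total depth in units of `R`. -/
lemma caseB {Ω : Type u} [MeasurableSpace Ω] {m : ℕ} {nu : Measure Ω} {W : ℝ≥0∞}
    {dep : Fin m → Ω → ℕ} {C0 C1 C3 a e1 : ℝ} (H : Hyp nu W dep C0 C1 C3 a e1) (ha : 0 < a)
    {R : ℕ} (hR : 1 ≤ R) (hRa : Real.exp (-(a / 2 * R)) ≤ 1 / 2) (T : ℕ) :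
    nu {ω | T ≤ ∑ q, dep q ω / R} ≤
      ENNReal.ofReal (Real.exp (C1 * m + m - a / 2 * R * T)) := by
  classical
  set F : Finset (Fin m → ℕ) :=
    (Fintype.piFinset fun _ : Fin m => Finset.range (T + 1)).filter fun v => T ≤ ∑ q, v q with hF
  have hsub : {ω | T ≤ ∑ q, dep q ω / R} ⊆ ⋃ v ∈ F, {ω | ∀ q, R * v q ≤ dep q ω} := by
    intro ω hω
    change T ≤ ∑ q, dep q ω / R at hω
    refine Set.mem_iUnion₂.2 ⟨fun q => min (dep q ω / R) T, ?_, ?_⟩
    · rw [hF, Finset.mem_filter, Fintype.mem_piFinset]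
      refine ⟨fun q => Finset.mem_range.2 ?_, trunc _ hω⟩
      have := min_le_right (dep q ω / R) T
      omega
    · intro q
      calc R * min (dep q ω / R) T ≤ R * (dep q ω / R) := Nat.mul_le_mul_left _ (min_le_left _ _)
        _ ≤ dep q ω := Nat.mul_div_le _ _
  have hx0 : 0 ≤ Real.exp (-(a / 2 * R)) := (Real.exp_pos _).le
  have key : ∀ v ∈ F, nu {ω | ∀ q, R * v q ≤ dep q ω} ≤
      ENNReal.ofReal (Real.exp (C1 * m - a / 2 * R * T) * ∏ q, Real.exp (-(a / 2 * R)) ^ v q) := by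
    intro v hv
    have hT : T ≤ ∑ q, v q := (Finset.mem_filter.1 hv).2
    refine (H.h1 fun q => R * v q).trans (ENNReal.ofReal_le_ofReal ?_)
    have e : ∏ q, Real.exp (-(a / 2 * R)) ^ v q = Real.exp (-(a / 2 * R) * ∑ q, (v q : ℝ)) := by
      rw [Finset.mul_sum, Real.exp_sum]
      refine Finset.prod_congr rfl fun q _ => ?_
      rw [← Real.exp_nat_mul]
      ring_nf
    rw [e, ← Real.exp_add]
    refine Real.exp_le_exp.2 ?_
    have e2 : ∑ q, ((R * v q : ℕ) : ℝ) = R * ∑ q, (v q : ℝ) := by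
      rw [Finset.mul_sum]
      exact Finset.sum_congr rfl fun q _ => by push_cast; ring
    rw [e2]
    have hT' : (T : ℝ) ≤ ∑ q, (v q : ℝ) := by exact_mod_cast hT
    have hR' : (0 : ℝ) ≤ a / 2 * R := by positivity
    nlinarith [mul_le_mul_of_nonneg_left hT' hR']
  calc nu {ω | T ≤ ∑ q, dep q ω / R} ≤ nu (⋃ v ∈ F, {ω | ∀ q, R * v q ≤ dep q ω}) :=
        measure_mono hsub
    _ ≤ ∑ v ∈ F, nu {ω | ∀ q, R * v q ≤ dep q ω} := measure_biUnion_finset_le _ _
    _ ≤ ∑ v ∈ F, ENNReal.ofReal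
          (Real.exp (C1 * m - a / 2 * R * T) * ∏ q, Real.exp (-(a / 2 * R)) ^ v q) :=
        Finset.sum_le_sum key
    _ = ENNReal.ofReal (∑ v ∈ F,
          Real.exp (C1 * m - a / 2 * R * T) * ∏ q, Real.exp (-(a / 2 * R)) ^ v q) := by
        rw [ENNReal.ofReal_sum_of_nonneg]
        intro v _
        positivity
    _ ≤ ENNReal.ofReal (Real.exp (C1 * m + m - a / 2 * R * T)) := by
        refine ENNReal.ofReal_le_ofReal ?_
        calc ∑ v ∈ F, Real.exp (C1 * m - a / 2 * R * T) * ∏ q, Real.exp (-(a / 2 * R)) ^ v q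
            ≤ ∑ v ∈ Fintype.piFinset fun _ : Fin m => Finset.range (T + 1),
              Real.exp (C1 * m - a / 2 * R * T) * ∏ q, Real.exp (-(a / 2 * R)) ^ v q := by
              refine Finset.sum_le_sum_of_subset_of_nonneg (Finset.filter_subset _ _) ?_
              intro v _ _
              positivity
          _ = Real.exp (C1 * m - a / 2 * R * T) *
              (∑ j ∈ Finset.range (T + 1), Real.exp (-(a / 2 * R)) ^ j) ^ m := by
              rw [← Finset.mul_sum, ← Finset.prod_univ_sum, Finset.prod_const, Finset.card_univ,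
                Fintype.card_fin]
          _ ≤ Real.exp (C1 * m - a / 2 * R * T) * Real.exp m := by
              refine mul_le_mul_of_nonneg_left ?_ (Real.exp_pos _).le
              have h2 := geom_le hx0 hRa (T + 1)
              have h0 : 0 ≤ ∑ j ∈ Finset.range (T + 1), Real.exp (-(a / 2 * R)) ^ j :=
                Finset.sum_nonneg fun j _ => pow_nonneg hx0 j
              calc (∑ j ∈ Finset.range (T + 1), Real.exp (-(a / 2 * R)) ^ j) ^ m
                  ≤ (Real.exp 1) ^ m :=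
                    pow_le_pow_left₀ h0 (h2.trans (by have := Real.add_one_le_exp (1 : ℝ); linarith)) m
                _ = Real.exp m := by rw [← Real.exp_nat_mul]; simp
          _ = Real.exp (C1 * m + m - a / 2 * R * T) := by
              rw [← Real.exp_add]
              congr 1
              ring

/-- weight of an option: `0` no cut, `1` intermediate cut, `1 + v` deep cut of depth `v` units. -/
noncomputable def wt (R x : ℝ) (j : ℕ) : ℝ :=
  if j = 0 then 1 else if j = 1 then Real.exp (-R) else x ^ (j - 1)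

lemma wt_nonneg {R x : ℝ} (hx : 0 ≤ x) (j : ℕ) : 0 ≤ wt R x j := by
  unfold wt
  split_ifs
  · exact zero_le_one
  · exact (Real.exp_pos _).le
  · exact pow_nonneg hx _

lemma wt_sum {R x : ℝ} (hx0 : 0 ≤ x) (hx : x ≤ 1 / 2) (T : ℕ) :
    ∑ j ∈ Finset.range (T + 2), wt R x j ≤ 1 + (Real.exp (-R) + 2 * x) := by
  rw [Finset.sum_range_succ', Finset.sum_range_succ']
  have h1 : ∑ j ∈ Finset.range T, wt R x (j + 1 + 1) = x * ∑ j ∈ Finset.range T, x ^ j := by
    rw [Finset.mul_sum]
    refine Finset.sum_congr rfl fun j _ => ?_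
    unfold wt
    rw [if_neg (by omega), if_neg (by omega)]
    rw [show j + 1 + 1 - 1 = j + 1 by omega, pow_succ]
    ring
  have h2 : wt R x (0 + 1) = Real.exp (-R) := by
    unfold wt
    simp
  have h3 : wt R x 0 = 1 := by
    unfold wt
    simp
  rw [h1, h2, h3]
  have := geom_le hx0 hx T
  nlinarith [mul_le_mul_of_nonneg_left this hx0]

/-- Case A: few intermediate cuts at the threshold `R`; every deeper cut gains. -/
lemma caseA {Ω : Type u} [MeasurableSpace Ω] {m : ℕ} {nu : Measure Ω} {W : ℝ≥0∞}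
    {dep : Fin m → Ω → ℕ} {C0 C1 C3 a e1 : ℝ} (H : Hyp nu W dep C0 C1 C3 a e1) (ha : 0 < a)
    (hC3 : 0 ≤ C3) {R B : ℕ} (hR : 1 ≤ R) (hB : 1 ≤ B) (hC3B : C3 ≤ a / 4 * B)
    (hx : Real.exp (-(a / 2 * (R * B : ℕ))) ≤ 1 / 2) (τ : ℝ) {T : ℕ} (hT : 1 ≤ T) :
    nu {ω | ((Finset.univ.filter fun q => R ≤ dep q ω ∧ dep q ω < R * B).card : ℝ) * R ≤ τ * m ∧
        T ≤ ∑ q, dep q ω / (R * B)} ≤
      ENNReal.ofReal (Real.exp (e1 * m + (C3 + 1) * (τ * m) - a / 4 * (R * B : ℕ) * T +
        m * (Real.exp (-(R : ℝ)) + 2 * Real.exp (-(a / 2 * (R * B : ℕ)))))) * W := by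
  classical
  set x : ℝ := Real.exp (-(a / 2 * (R * B : ℕ))) with hxd
  have hx0 : 0 ≤ x := (Real.exp_pos _).le
  have hRB : 1 ≤ R * B := Nat.one_le_iff_ne_zero.2 (by positivity)
  set F : Finset (Fin m → ℕ) :=
    (Fintype.piFinset fun _ : Fin m => Finset.range (T + 2)).filter fun o =>
      ((Finset.univ.filter fun q => o q = 1).card : ℝ) * R ≤ τ * m ∧ T ≤ ∑ q, (o q - 1) with hF
  let S : (Fin m → ℕ) → Finset (Fin m) := fun o => Finset.univ.filter fun q => o q ≠ 0
  let r : (Fin m → ℕ) → Fin m → ℕ := fun o q => if o q = 1 then R else R * B * (o q - 1)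
  have hsub : {ω | ((Finset.univ.filter fun q => R ≤ dep q ω ∧ dep q ω < R * B).card : ℝ) * R ≤
        τ * m ∧ T ≤ ∑ q, dep q ω / (R * B)} ⊆
      ⋃ o ∈ F, {ω | (∀ q ∈ S o, r o q ≤ dep q ω) ∧ ∀ q, q ∉ S o → dep q ω < R} := by
    rintro ω ⟨hω1, hω2⟩
    obtain ⟨k, hk⟩ : ∃ k : Fin m → ℕ, ∀ q, k q = min (dep q ω / (R * B)) T := ⟨_, fun _ => rfl⟩
    obtain ⟨N, hN⟩ : ∃ N : ℕ, N = R * B := ⟨_, rfl⟩
    have hRRB : R ≤ N := hN ▸ Nat.le_mul_of_pos_right R (by omega)
    have hkT : ∀ q, k q ≤ T := fun q => by rw [hk q]; exact min_le_right _ _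
    have hdeep : ∀ q, N ≤ dep q ω → 1 ≤ k q := fun q hq => by
      rw [hk q]
      exact le_min ((Nat.one_le_div_iff (by omega)).2 (hN ▸ hq)) hT
    have hk0 : ∀ q, dep q ω < N → k q = 0 := fun q hq => by
      rw [hk q, Nat.div_eq_of_lt (hN ▸ hq)]
      exact Nat.zero_min T
    set o : Fin m → ℕ := fun q =>
      if dep q ω < R then 0 else if dep q ω < N then 1 else 1 + k q with ho
    have hoq : ∀ q, o q = if dep q ω < R then 0 else if dep q ω < N then 1 else 1 + k q :=
      fun q => rfl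
    clear_value o
    have ho1 : ∀ q, o q = 1 ↔ R ≤ dep q ω ∧ dep q ω < N := by
      intro q
      have h3 := hdeep q
      rw [hoq q]
      split_ifs with h1 h2
      · constructor
        · intro h; simp at h
        · intro h; omega
      · constructor
        · intro _; exact ⟨by omega, h2⟩
        · intro _; rfl
      · constructor
        · intro h
          have := h3 (by omega)
          omega
        · intro h; omega
    have ho2 : ∀ q, o q - 1 = k q := by
      intro q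
      have h3 := hk0 q
      rw [hoq q]
      split_ifs with h1 h2
      · rw [h3 (by omega)]
      · rw [h3 h2]
      · omega
    refine Set.mem_iUnion₂.2 ⟨o, ?_, ?_, ?_⟩
    · rw [hF, Finset.mem_filter, Fintype.mem_piFinset]
      refine ⟨fun q => Finset.mem_range.2 ?_, ?_, ?_⟩
      · have h3 := hkT q
        rw [hoq q]
        split_ifs <;> omega
      · have : (Finset.univ.filter fun q => o q = 1) =
            Finset.univ.filter fun q => R ≤ dep q ω ∧ dep q ω < R * B :=
          Finset.filter_congr fun q _ => by rw [ho1 q, hN]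
        rw [this]
        exact hω1
      · refine (trunc _ hω2).trans (le_of_eq ?_)
        exact Finset.sum_congr rfl fun q _ => by rw [ho2 q, hk q]
    · intro q hq
      have hq' : o q ≠ 0 := (Finset.mem_filter.1 hq).2
      simp only [r]
      split_ifs with h1
      · exact ((ho1 q).1 h1).1
      · rw [ho2 q, hk q]
        calc R * B * min (dep q ω / (R * B)) T ≤ R * B * (dep q ω / (R * B)) :=
              Nat.mul_le_mul_left _ (min_le_left _ _)
          _ ≤ dep q ω := Nat.mul_div_le _ _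
    · intro q hq
      have hq' : o q = 0 := by
        by_contra h
        exact hq (Finset.mem_filter.2 ⟨Finset.mem_univ _, h⟩)
      by_contra hge
      rw [hoq q, if_neg hge] at hq'
      split_ifs at hq' ; omega
  have hlog : ∀ j : ℕ, wt R x j = Real.exp (if j = 0 then 0 else if j = 1 then -(R : ℝ) else
      -(a / 2 * (R * B : ℕ)) * ((j - 1 : ℕ) : ℝ)) := by
    intro j
    unfold wt
    split_ifs
    · simp
    · rfl
    · rw [hxd, ← Real.exp_nat_mul]
      ring_nf
  have key : ∀ o ∈ F, nu {ω | (∀ q ∈ S o, r o q ≤ dep q ω) ∧ ∀ q, q ∉ S o → dep q ω < R} ≤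
      ENNReal.ofReal (Real.exp (e1 * m + (C3 + 1) * (τ * m) - a / 4 * (R * B : ℕ) * T) *
        ∏ q, wt R x (o q)) * W := by
    intro o ho
    obtain ⟨-, hz, hT'⟩ := Finset.mem_filter.1 ho
    have hr : ∀ q ∈ S o, R ≤ r o q := by
      intro q hq
      have hq' : o q ≠ 0 := (Finset.mem_filter.1 hq).2
      simp only [r]
      split_ifs with h1
      · exact le_rfl
      · calc R = R * 1 * 1 := by ring
          _ ≤ R * B * (o q - 1) := Nat.mul_le_mul (Nat.mul_le_mul_left _ hB) (by omega)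
    refine (H.h2 R hR (S o) (r o) hr).trans ?_
    gcongr ENNReal.ofReal ?_ * W
    have e : ∏ q, wt R x (o q) = Real.exp (∑ q, (if o q = 0 then 0 else if o q = 1 then -(R : ℝ)
        else -(a / 2 * (R * B : ℕ)) * ((o q - 1 : ℕ) : ℝ))) := by
      rw [Real.exp_sum]
      exact Finset.prod_congr rfl fun q _ => hlog (o q)
    rw [e, ← Real.exp_add]
    refine Real.exp_le_exp.2 ?_
    have hcard : ((S o).card : ℝ) = ∑ q, (if o q = 0 then (0 : ℝ) else 1) := by
      simp only [S]
      rw [Finset.card_filter]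
      push_cast
      refine Finset.sum_congr rfl fun q _ => ?_
      by_cases h : o q = 0 <;> simp [h]
    have hsumr : ∑ q ∈ S o, (r o q : ℝ) = ∑ q, (if o q = 0 then (0 : ℝ) else (r o q : ℝ)) := by
      simp only [S]
      rw [Finset.sum_filter]
      refine Finset.sum_congr rfl fun q _ => ?_
      by_cases h : o q = 0 <;> simp [h]
    have hz' : ((Finset.univ.filter fun q => o q = 1).card : ℝ) =
        ∑ q, (if o q = 1 then (1 : ℝ) else 0) := by
      rw [Finset.card_filter]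
      push_cast
      rfl
    have hT'' : (T : ℝ) ≤ ∑ q, ((o q - 1 : ℕ) : ℝ) := by exact_mod_cast hT'
    have hRpos : (1 : ℝ) ≤ R := by exact_mod_cast hR
    have hBpos : (1 : ℝ) ≤ B := by exact_mod_cast hB
    have hpt : ∀ q, C3 * R * (if o q = 0 then (0 : ℝ) else 1) -
        a * (if o q = 0 then (0 : ℝ) else (r o q : ℝ)) ≤
        (C3 + 1) * (R * (if o q = 1 then (1 : ℝ) else 0)) -
          a / 4 * (R * B : ℕ) * ((o q - 1 : ℕ) : ℝ) +
        (if o q = 0 then 0 else if o q = 1 then -(R : ℝ) else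
          -(a / 2 * (R * B : ℕ)) * ((o q - 1 : ℕ) : ℝ)) := by
      intro q
      by_cases h0 : o q = 0
      · simp [h0]
      by_cases h1 : o q = 1
      · simp only [h1, r]
        simp
        nlinarith
      · simp only [h0, h1, r, if_false]
        have hj : (1 : ℝ) ≤ ((o q - 1 : ℕ) : ℝ) := by
          have : 1 ≤ o q - 1 := by omega
          exact_mod_cast this
        push_cast
        set j : ℝ := ((o q - 1 : ℕ) : ℝ) with hjd
        have h3 : C3 * R ≤ a / 4 * (R * B) * j := by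
          calc C3 * R ≤ a / 4 * B * R := by nlinarith
            _ = a / 4 * (R * B) * 1 := by ring
            _ ≤ a / 4 * (R * B) * j := by
              refine mul_le_mul_of_nonneg_left hj (by positivity)
        nlinarith
    have hsum := Finset.sum_le_sum fun q (_ : q ∈ Finset.univ) => hpt q
    rw [Finset.sum_sub_distrib, ← Finset.mul_sum, ← Finset.mul_sum, Finset.sum_add_distrib,
      Finset.sum_sub_distrib, ← Finset.mul_sum, ← Finset.mul_sum, ← Finset.mul_sum, ← hcard,
      ← hsumr, ← hz'] at hsum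
    have h4 : (C3 + 1) * (R * ((Finset.univ.filter fun q => o q = 1).card : ℝ)) ≤
        (C3 + 1) * (τ * m) := by
      refine mul_le_mul_of_nonneg_left ?_ (by linarith)
      linarith [hz, mul_comm ((Finset.univ.filter fun q => o q = 1).card : ℝ) (R : ℝ)]
    have h5 : a / 4 * (R * B : ℕ) * T ≤ a / 4 * (R * B : ℕ) * ∑ q, ((o q - 1 : ℕ) : ℝ) :=
      mul_le_mul_of_nonneg_left hT'' (by positivity)
    linarith
  calc nu {ω | ((Finset.univ.filter fun q => R ≤ dep q ω ∧ dep q ω < R * B).card : ℝ) * R ≤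
        τ * m ∧ T ≤ ∑ q, dep q ω / (R * B)}
      ≤ nu (⋃ o ∈ F, {ω | (∀ q ∈ S o, r o q ≤ dep q ω) ∧ ∀ q, q ∉ S o → dep q ω < R}) :=
        measure_mono hsub
    _ ≤ ∑ o ∈ F, nu {ω | (∀ q ∈ S o, r o q ≤ dep q ω) ∧ ∀ q, q ∉ S o → dep q ω < R} :=
        measure_biUnion_finset_le _ _
    _ ≤ ∑ o ∈ F, ENNReal.ofReal
          (Real.exp (e1 * m + (C3 + 1) * (τ * m) - a / 4 * (R * B : ℕ) * T) *
            ∏ q, wt R x (o q)) * W := Finset.sum_le_sum key
    _ = ENNReal.ofReal (∑ o ∈ F,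
          Real.exp (e1 * m + (C3 + 1) * (τ * m) - a / 4 * (R * B : ℕ) * T) *
            ∏ q, wt R x (o q)) * W := by
        rw [← Finset.sum_mul, ENNReal.ofReal_sum_of_nonneg]
        intro o _
        exact mul_nonneg (Real.exp_pos _).le (Finset.prod_nonneg fun q _ => wt_nonneg hx0 _)
    _ ≤ _ := by
        gcongr ENNReal.ofReal ?_ * W
        calc ∑ o ∈ F, Real.exp (e1 * m + (C3 + 1) * (τ * m) - a / 4 * (R * B : ℕ) * T) *
              ∏ q, wt R x (o q)
            ≤ ∑ o ∈ Fintype.piFinset fun _ : Fin m => Finset.range (T + 2),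
              Real.exp (e1 * m + (C3 + 1) * (τ * m) - a / 4 * (R * B : ℕ) * T) *
              ∏ q, wt R x (o q) := by
              refine Finset.sum_le_sum_of_subset_of_nonneg (Finset.filter_subset _ _) ?_
              intro o _ _
              exact mul_nonneg (Real.exp_pos _).le (Finset.prod_nonneg fun q _ => wt_nonneg hx0 _)
          _ = Real.exp (e1 * m + (C3 + 1) * (τ * m) - a / 4 * (R * B : ℕ) * T) *
              (∑ j ∈ Finset.range (T + 2), wt R x j) ^ m := by
              rw [← Finset.mul_sum, ← Finset.prod_univ_sum, Finset.prod_const, Finset.card_univ,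
                Fintype.card_fin]
          _ ≤ Real.exp (e1 * m + (C3 + 1) * (τ * m) - a / 4 * (R * B : ℕ) * T) *
              Real.exp (m * (Real.exp (-(R : ℝ)) + 2 * x)) := by
              refine mul_le_mul_of_nonneg_left ?_ (Real.exp_pos _).le
              have h0 : 0 ≤ ∑ j ∈ Finset.range (T + 2), wt R x j :=
                Finset.sum_nonneg fun j _ => wt_nonneg hx0 j
              calc (∑ j ∈ Finset.range (T + 2), wt R x j) ^ m
                  ≤ (Real.exp (Real.exp (-(R : ℝ)) + 2 * x)) ^ m := by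
                    refine pow_le_pow_left₀ h0 ((wt_sum hx0 hx T).trans ?_) m
                    have := Real.add_one_le_exp (Real.exp (-(R : ℝ)) + 2 * x)
                    linarith
                _ = Real.exp (m * (Real.exp (-(R : ℝ)) + 2 * x)) := by rw [← Real.exp_nat_mul]
          _ = _ := by rw [← Real.exp_add]

lemma tot_anti {Ω : Type u} {m : ℕ} (dep : Fin m → Ω → ℕ) {R R' : ℕ} (h : R ≤ R') (ω : Ω) :
    tot dep R' ω ≤ tot dep R ω := by
  unfold tot
  refine Finset.sum_le_sum fun q _ => ?_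
  split_ifs <;> omega

lemma tot_half {Ω : Type u} {m : ℕ} (dep : Fin m → Ω → ℕ) {R : ℕ} (hR : 1 ≤ R) (ω : Ω) :
    tot dep R ω ≤ 2 * (R * ∑ q, dep q ω / R) := by
  unfold tot
  rw [Finset.mul_sum, Finset.mul_sum]
  refine Finset.sum_le_sum fun q _ => (half_le hR _).trans (le_of_eq ?_)
  ring

/-- one scale lies in at most one zone. -/
lemma zone_one {g : ℕ → ℕ} (hg : Monotone g) (d Q : ℕ) :
    (∑ s ∈ Finset.range Q, (if g s ≤ d ∧ d < g (s + 1) then g s else 0)) ≤
        (if g 0 ≤ d then d else 0) ∧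
      (g Q ≤ d → (∑ s ∈ Finset.range Q, (if g s ≤ d ∧ d < g (s + 1) then g s else 0)) = 0) := by
  induction Q with
  | zero => simp
  | succ Q ih =>
    obtain ⟨i1, i2⟩ := ih
    rw [Finset.sum_range_succ]
    have hQ : g Q ≤ g (Q + 1) := hg (Nat.le_succ Q)
    have h0 : g 0 ≤ g Q := hg (Nat.zero_le Q)
    by_cases h : g Q ≤ d
    · rw [i2 h]
      constructor
      · rw [if_pos (h0.trans h)]
        split_ifs <;> omega
      · intro h2
        rw [if_neg (by omega)]
    · constructor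
      · rw [if_neg (by omega : ¬(g Q ≤ d ∧ d < g (Q + 1)))]
        simpa using i1
      · intro h2
        omega

lemma zone_sum {Ω : Type u} {m : ℕ} (dep : Fin m → Ω → ℕ) {g : ℕ → ℕ} (hg : Monotone g) (Q : ℕ)
    (ω : Ω) :
    ∑ s ∈ Finset.range Q,
      (Finset.univ.filter fun q => g s ≤ dep q ω ∧ dep q ω < g (s + 1)).card * g s ≤
        tot dep (g 0) ω := by
  unfold tot
  have e : ∀ s, (Finset.univ.filter fun q => g s ≤ dep q ω ∧ dep q ω < g (s + 1)).card * g s =
      ∑ q, (if g s ≤ dep q ω ∧ dep q ω < g (s + 1) then g s else 0) := by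
    intro s
    rw [Finset.card_filter, Finset.sum_mul]
    refine Finset.sum_congr rfl fun q _ => ?_
    split_ifs <;> simp
  simp_rw [e]
  rw [Finset.sum_comm]
  exact Finset.sum_le_sum fun q _ => (zone_one hg (dep q ω) Q).1

/-- **Cut98.**  Under (h0), (h1), (h2) with `e1` small, the total depth of the cuts of depth at least
`Rs` exceeds `ε m` only on a part `K exp (- c m)` of the weight. -/
theorem cut98 {C0 C1 C3 a ε : ℝ} (hC3 : 0 ≤ C3) (ha : 0 < a)
    (hε : 0 < ε) : ∃ (Rs : ℕ) (e1 c K : ℝ), 1 ≤ Rs ∧ 0 < e1 ∧ 0 < c ∧ 0 ≤ K ∧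
    ∀ {Ω : Type u} [MeasurableSpace Ω] {m : ℕ} (nu : Measure Ω) (W : ℝ≥0∞)
      (dep : Fin m → Ω → ℕ), Hyp nu W dep C0 C1 C3 a e1 → ∀ R, Rs ≤ R →
      nu {ω | ε * m < tot dep R ω} ≤ ENNReal.ofReal (K * Real.exp (-(c * m))) * W := by
  classical
  obtain ⟨R1, hR1, hR1a, hR1b, hR1c⟩ : ∃ R1 : ℕ, 1 ≤ R1 ∧
      (∀ n : ℕ, R1 ≤ n → Real.exp (-(n : ℝ)) ≤ a * ε / 96) ∧
      (∀ n : ℕ, R1 ≤ n → Real.exp (-(a / 2 * n)) ≤ 1 / 2) ∧
      (∀ n : ℕ, R1 ≤ n → Real.exp (-(a / 2 * n)) ≤ a * ε / 96) := by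
    have t1 : Filter.Tendsto (fun n : ℕ => Real.exp (-(n : ℝ))) Filter.atTop (nhds 0) :=
      Real.tendsto_exp_neg_atTop_nhds_zero.comp tendsto_natCast_atTop_atTop
    have t2 : Filter.Tendsto (fun n : ℕ => Real.exp (-(a / 2 * n))) Filter.atTop (nhds 0) :=
      Real.tendsto_exp_neg_atTop_nhds_zero.comp
        (Filter.Tendsto.const_mul_atTop (by positivity) tendsto_natCast_atTop_atTop)
    have hp : 0 < a * ε / 96 := by positivity
    have v1 := t1.eventually (ge_mem_nhds hp)
    have v2 := t2.eventually (ge_mem_nhds (show (0 : ℝ) < 1 / 2 by norm_num))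
    have v3 := t2.eventually (ge_mem_nhds hp)
    obtain ⟨N, hN⟩ := Filter.eventually_atTop.1 ((v1.and (v2.and v3)))
    exact ⟨max N 1, le_max_right _ _, fun n hn => (hN n (le_of_max_le_left hn)).1,
      fun n hn => (hN n (le_of_max_le_left hn)).2.1, fun n hn => (hN n (le_of_max_le_left hn)).2.2⟩
  obtain ⟨B, hB, hC3B⟩ : ∃ B : ℕ, 1 ≤ B ∧ C3 ≤ a / 4 * B := by
    obtain ⟨B, hB⟩ := exists_nat_ge (4 * C3 / a)
    refine ⟨max B 1, le_max_right _ _, ?_⟩
    have h1 : (B : ℝ) ≤ ((max B 1 : ℕ) : ℝ) := by exact_mod_cast le_max_left B 1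
    have h2 : 4 * C3 / a ≤ ((max B 1 : ℕ) : ℝ) := hB.trans h1
    rw [div_le_iff₀ ha] at h2
    linarith
  set τ : ℝ := a * ε / (32 * (C3 + 1)) with hτ
  have hC31 : 0 < C3 + 1 := by linarith
  have hτ0 : 0 < τ := by positivity
  have hτ1 : (C3 + 1) * τ = a * ε / 32 := by
    rw [hτ]
    field_simp
  obtain ⟨Q, hQ⟩ : ∃ Q : ℕ, C0 + C1 + 2 ≤ a / 4 * (Q * τ) := by
    obtain ⟨Q, hQ⟩ := exists_nat_ge ((C0 + C1 + 2) / (a / 4 * τ))
    refine ⟨Q, ?_⟩
    rw [div_le_iff₀ (by positivity)] at hQ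
    linarith
  set g : ℕ → ℕ := fun s => R1 * B ^ s with hg
  have hgm : Monotone g := fun s t hst => Nat.mul_le_mul_left _ (Nat.pow_le_pow_right hB hst)
  have hg1 : ∀ s, R1 ≤ g s := fun s => by
    have : g 0 ≤ g s := hgm (Nat.zero_le s)
    simpa [hg] using this
  have hgs : ∀ s, g (s + 1) = g s * B := fun s => by simp only [hg]; ring
  refine ⟨g Q, a * ε / 32, min (a * ε / 32) 1, Q + 1, hR1.trans (hg1 Q), by positivity,
    lt_min (by positivity) one_pos, by positivity, ?_⟩
  intro Ω _ m nu W dep H R hR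
  rcases Nat.eq_zero_or_pos m with hm | hm
  · subst hm
    have : {ω | ε * ((0 : ℕ) : ℝ) < (tot dep R ω : ℝ)} = ∅ := by
      ext ω
      simp [tot]
    rw [this]
    simp
  have hm' : (0 : ℝ) < m := by exact_mod_cast hm
  set T' : ℕ := ⌈(Q * τ * m) / (2 * R1)⌉₊ with hT'
  set T : ℕ → ℕ := fun s => ⌈(ε * m) / (2 * g (s + 1))⌉₊ with hT
  have hR1' : (1 : ℝ) ≤ R1 := by exact_mod_cast hR1
  have hgpos : ∀ s, (1 : ℝ) ≤ g s := fun s => by exact_mod_cast hR1.trans (hg1 s)
  set A : ℕ → Set Ω := fun s =>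
    {ω | ((Finset.univ.filter fun q => g s ≤ dep q ω ∧ dep q ω < g s * B).card : ℝ) * g s ≤ τ * m ∧
        T s ≤ ∑ q, dep q ω / (g s * B)} with hA
  have hsub : {ω | ε * m < (tot dep R ω : ℝ)} ⊆
      {ω | T' ≤ ∑ q, dep q ω / R1} ∪ ⋃ s ∈ Finset.range Q, A s := by
    intro ω hω
    have hω : ε * m < (tot dep R ω : ℝ) := hω
    by_cases hex : ∃ s ∈ Finset.range Q,
        ((Finset.univ.filter fun q => g s ≤ dep q ω ∧ dep q ω < g s * B).card : ℝ) * g s ≤ τ * m
    · obtain ⟨s, hs, hz⟩ := hex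
      refine Or.inr (Set.mem_iUnion₂.2 ⟨s, hs, hz, ?_⟩)
      have h1 : g (s + 1) ≤ R := (hgm (Finset.mem_range.1 hs)).trans hR
      have h2 := (tot_anti dep h1 ω).trans (tot_half dep (hR1.trans (hg1 (s + 1))) ω)
      have h3 : (tot dep R ω : ℝ) ≤ 2 * (g (s + 1) * ((∑ q, dep q ω / g (s + 1) : ℕ) : ℝ)) := by
        exact_mod_cast h2
      rw [hT, ← hgs]
      refine Nat.ceil_le.2 ?_
      rw [div_le_iff₀ (by have := hgpos (s + 1); positivity)]
      nlinarith [hω.le.trans h3]
    · push Not at hex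
      refine Or.inl ?_
      have h1 := zone_sum dep hgm Q ω
      have h2 : (Q : ℝ) * (τ * m) ≤ tot dep (g 0) ω := by
        calc (Q : ℝ) * (τ * m) = ∑ s ∈ Finset.range Q, τ * m := by
              rw [Finset.sum_const, Finset.card_range, nsmul_eq_mul]
          _ ≤ ∑ s ∈ Finset.range Q,
              ((Finset.univ.filter fun q => g s ≤ dep q ω ∧ dep q ω < g (s + 1)).card : ℝ) *
                g s := Finset.sum_le_sum fun s hs => by
                  rw [hgs]
                  exact (hex s hs).le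
          _ ≤ tot dep (g 0) ω := by exact_mod_cast h1
      have h3 : g 0 = R1 := by simp [hg]
      rw [h3] at h2
      have h4 : (tot dep R1 ω : ℝ) ≤ 2 * (R1 * ((∑ q, dep q ω / R1 : ℕ) : ℝ)) := by
        exact_mod_cast tot_half dep hR1 ω
      change T' ≤ ∑ q, dep q ω / R1
      rw [hT']
      refine Nat.ceil_le.2 ?_
      rw [div_le_iff₀ (by positivity)]
      nlinarith [h2.trans h4]
  have bB : nu {ω | T' ≤ ∑ q, dep q ω / R1} ≤
      ENNReal.ofReal (Real.exp (-(min (a * ε / 32) 1 * m))) * W := by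
    refine (caseB H ha hR1 (hR1b R1 le_rfl) T').trans ?_
    have h1 : (Q * τ * m) / (2 * R1) ≤ T' := Nat.le_ceil _
    have h2 : Q * τ * m / 2 ≤ R1 * T' := by
      rw [div_le_iff₀ (by positivity)] at h1
      nlinarith
    have h3 : C1 * m + m - a / 2 * R1 * T' ≤ -(min (a * ε / 32) 1 * m) + -(C0 * m) := by
      have h4 : a / 4 * (Q * τ) * m ≤ a / 2 * (R1 * T') := by nlinarith
      have h5 : (C0 + C1 + 2) * m ≤ a / 4 * (Q * τ) * m := mul_le_mul_of_nonneg_right hQ hm'.le
      have h6 : min (a * ε / 32) 1 * m ≤ 1 * m :=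
        mul_le_mul_of_nonneg_right (min_le_right _ _) hm'.le
      nlinarith
    calc ENNReal.ofReal (Real.exp (C1 * m + m - a / 2 * R1 * T'))
        ≤ ENNReal.ofReal (Real.exp (-(min (a * ε / 32) 1 * m) + -(C0 * m))) :=
          ENNReal.ofReal_le_ofReal (Real.exp_le_exp.2 h3)
      _ = ENNReal.ofReal (Real.exp (-(min (a * ε / 32) 1 * m))) *
          ENNReal.ofReal (Real.exp (-(C0 * m))) := by
          rw [Real.exp_add, ENNReal.ofReal_mul (Real.exp_pos _).le]
      _ ≤ _ := by gcongr; exact H.h0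
  have bA : ∀ s ∈ Finset.range Q, nu (A s) ≤
      ENNReal.ofReal (Real.exp (-(min (a * ε / 32) 1 * m))) * W := by
    intro s _
    have hT1 : 1 ≤ T s := by
      rw [hT]
      refine Nat.one_le_iff_ne_zero.2 (Nat.pos_iff_ne_zero.1 (Nat.ceil_pos.2 ?_))
      have := hgpos (s + 1)
      positivity
    have hxs : Real.exp (-(a / 2 * (g s * B : ℕ))) ≤ 1 / 2 := by
      rw [← hgs]
      exact hR1b _ (hg1 (s + 1))
    refine (caseA H ha hC3 (hR1.trans (hg1 s)) hB hC3B hxs τ hT1).trans ?_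
    gcongr ENNReal.ofReal ?_ * W
    refine Real.exp_le_exp.2 ?_
    have h1 : (ε * m) / (2 * g (s + 1)) ≤ T s := Nat.le_ceil _
    have h2 : ε * m / 2 ≤ g (s + 1) * T s := by
      have := hgpos (s + 1)
      rw [div_le_iff₀ (by positivity)] at h1
      nlinarith
    rw [← hgs]
    have h3 := hR1a (g s) (hg1 s)
    have h4 := hR1c (g (s + 1)) (hg1 (s + 1))
    have h5 : min (a * ε / 32) 1 * m ≤ a * ε / 32 * m :=
      mul_le_mul_of_nonneg_right (min_le_left _ _) hm'.le
    have h6 : (C3 + 1) * (τ * m) = a * ε / 32 * m := by rw [← hτ1]; ring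
    have h7 : a / 4 * g (s + 1) * T s ≥ a / 4 * (ε * m / 2) := by nlinarith
    have h8 : m * (Real.exp (-(g s : ℝ)) + 2 * Real.exp (-(a / 2 * (g (s + 1) : ℕ)))) ≤
        m * (a * ε / 32) := by
      refine mul_le_mul_of_nonneg_left ?_ hm'.le
      linarith
    rw [h6]
    nlinarith
  calc nu {ω | ε * m < (tot dep R ω : ℝ)}
      ≤ nu ({ω | T' ≤ ∑ q, dep q ω / R1} ∪ ⋃ s ∈ Finset.range Q, A s) := measure_mono hsub
    _ ≤ nu {ω | T' ≤ ∑ q, dep q ω / R1} + nu (⋃ s ∈ Finset.range Q, A s) := measure_union_le _ _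
    _ ≤ nu {ω | T' ≤ ∑ q, dep q ω / R1} + ∑ s ∈ Finset.range Q, nu (A s) := by
        gcongr
        exact measure_biUnion_finset_le _ _
    _ ≤ ENNReal.ofReal (Real.exp (-(min (a * ε / 32) 1 * m))) * W +
        ∑ s ∈ Finset.range Q, ENNReal.ofReal (Real.exp (-(min (a * ε / 32) 1 * m))) * W :=
        add_le_add bB (Finset.sum_le_sum bA)
    _ = ENNReal.ofReal ((Q + 1) * Real.exp (-(min (a * ε / 32) 1 * m))) * W := by
        rw [Finset.sum_const, Finset.card_range, nsmul_eq_mul,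
          ENNReal.ofReal_mul (by positivity : (0 : ℝ) ≤ Q + 1),
          ENNReal.ofReal_add (by positivity) zero_le_one, ENNReal.ofReal_natCast,
          ENNReal.ofReal_one]
        ring

/-- blocks of `L` scales: the block `k` is spoiled when some cut above it reaches it. -/
def Spoiled {Ω : Type u} {m : ℕ} (dep : Fin m → Ω → ℕ) (L C : ℕ) (ω : Ω) (k : ℕ) : Prop :=
  ∃ q : Fin m, (k + 1) * L ≤ (q : ℕ) ∧ (q : ℕ) ≤ k * L + dep q ω + C

/-- the spoiled blocks are few when the total depth of the deep cuts is small: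
`L * #spoiled ≤ 2 * tot`. -/
lemma spoiled_card {Ω : Type u} {m : ℕ} (dep : Fin m → Ω → ℕ) {L C R : ℕ} (hL : R + C ≤ L)
    (hC : C ≤ R) (hR : 1 ≤ R) (ω : Ω) (N : ℕ) [DecidablePred (Spoiled dep L C ω)] :
    L * ((Finset.range N).filter (Spoiled dep L C ω)).card ≤ 2 * tot dep R ω := by
  classical
  have hLpos : 0 < L := by omega
  set J : Fin m → Finset ℕ := fun q =>
    (Finset.range N).filter fun k => (k + 1) * L ≤ (q : ℕ) ∧ (q : ℕ) ≤ k * L + dep q ω + C with hJ
  have hsub : (Finset.range N).filter (Spoiled dep L C ω) ⊆ Finset.univ.biUnion J := by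
    intro k hk
    obtain ⟨h1, q, h2, h3⟩ := Finset.mem_filter.1 hk
    exact Finset.mem_biUnion.2 ⟨q, Finset.mem_univ q, Finset.mem_filter.2 ⟨h1, h2, h3⟩⟩
  have hone : ∀ q, L * (J q).card ≤ 2 * (if R ≤ dep q ω then dep q ω else 0) := by
    intro q
    by_cases hne : (J q).Nonempty
    · have hd : R ≤ dep q ω := by
        obtain ⟨k, hk⟩ := hne
        obtain ⟨_, h2, h3⟩ := Finset.mem_filter.1 hk
        have : (k + 1) * L = k * L + L := by ring
        omega
      rw [if_pos hd]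
      set k0 := (J q).min' hne with hk0
      have hk0m : k0 ∈ J q := Finset.min'_mem _ _
      obtain ⟨_, h2, h3⟩ := Finset.mem_filter.1 hk0m
      have hsub2 : J q ⊆ Finset.Ico k0 (k0 + (dep q ω + C) / L) := by
        intro k hk
        have h4 : k0 ≤ k := Finset.min'_le _ _ hk
        obtain ⟨_, h5, h6⟩ := Finset.mem_filter.1 hk
        refine Finset.mem_Ico.2 ⟨h4, ?_⟩
        have h7 : (k + 1 - k0) * L ≤ dep q ω + C := by
          have : (k + 1 - k0) * L + k0 * L = (k + 1) * L := by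
            rw [← Nat.add_mul]
            congr 1
            omega
          omega
        have h8 : k + 1 - k0 ≤ (dep q ω + C) / L := (Nat.le_div_iff_mul_le hLpos).2 h7
        omega
      have hcard : (J q).card ≤ (dep q ω + C) / L := by
        have := Finset.card_le_card hsub2
        rwa [Nat.card_Ico, Nat.add_sub_cancel_left] at this
      calc L * (J q).card ≤ L * ((dep q ω + C) / L) := Nat.mul_le_mul_left _ hcard
        _ ≤ dep q ω + C := Nat.mul_div_le _ _
        _ ≤ 2 * dep q ω := by omega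
    · rw [Finset.not_nonempty_iff_eq_empty.1 hne]
      simp
  calc L * ((Finset.range N).filter (Spoiled dep L C ω)).card
      ≤ L * ∑ q, (J q).card :=
        Nat.mul_le_mul_left _ ((Finset.card_le_card hsub).trans Finset.card_biUnion_le)
    _ = ∑ q, L * (J q).card := Finset.mul_sum _ _ _
    _ ≤ ∑ q, 2 * (if R ≤ dep q ω then dep q ω else 0) := Finset.sum_le_sum fun q _ => hone q
    _ = 2 * tot dep R ω := by rw [← Finset.mul_sum]; rfl

end Pool.Agent.W_7d29a1_C1.Cut98
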