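import Pool.Agent.W_7d29a1_C1.PairP91
import Pool.Agent.W_7d29a1_C1.Cut67

/-!
MP_7d29a1_pr, C1: CORNER CUTTING for the two groups of the model (helper67).

`ms k y` = the mass of a group which passes the site `y` of the row `k`; `hh k q` = the conditional probability of the step `1` at
the site `q` of the row `k` (the same for both groups). `cdfL`: the left cumulative masses, `cdfR`: the right cumulative masses, are
structures `Cdf` of `Cut67`, and the area which is cut off is the natural weight of the contact (`wn`). The total of the contracted row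
(`zs`, and its mirror image) is at least the cumulative mass of the next row and at least `ρ` times the total.
-/

set_option autoImplicit false

namespace Pool.Agent.W_7d29a1_C1.Cut67

open Finset
open Pool.Agent.W_7d29a1_C1.K91 (Box Grp zs)
open Pool.Agent.W_7d29a1_C1.K91P

noncomputable section

/-- The mass of a group which passes the site `y` of the row `k`. -/
def ms (w : ℕ → ℤ → ℝ) (p : ℕ → ℝ) (m : ℤ → ℝ) (N k : ℕ) (y : ℤ) : ℝ := fw w p m k y * bw w p k (N - k) y

/-- The conditional probability of the step `1`. -/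
def hh (w : ℕ → ℤ → ℝ) (p : ℕ → ℝ) (N k : ℕ) (q : ℤ) : ℝ := p k * bw w p (k + 1) (N - (k + 1)) (q + 1) / GG w p N k q

/-- The left cumulative mass. -/
def cm (w : ℕ → ℤ → ℝ) (p : ℕ → ℝ) (m : ℤ → ℝ) (N : ℕ) (lo : ℤ) (k : ℕ) (q : ℤ) : ℝ := ∑ y ∈ Icc lo q, ms w p m N k y

/-- The right cumulative mass. -/
def rm (w : ℕ → ℤ → ℝ) (p : ℕ → ℝ) (m : ℤ → ℝ) (N : ℕ) (hi : ℤ) (k : ℕ) (a : ℤ) : ℝ := ∑ y ∈ Icc a hi, ms w p m N k y

/-- The total mass. -/
def Zt (w : ℕ → ℤ → ℝ) (p : ℕ → ℝ) (m : ℤ → ℝ) (N : ℕ) (lo hi : ℤ) : ℝ := ∑ y ∈ Icc lo hi, m y * bw w p 0 N y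

variable {w : ℕ → ℤ → ℝ} {p : ℕ → ℝ} {m l r : ℤ → ℝ} {X0 lo hi : ℤ} {N : ℕ}

theorem hh_nonneg (hw : ∀ k y, 0 < w k y) (hp : ∀ k, 0 < p k) (k : ℕ) (q : ℤ) : 0 ≤ hh w p N k q := by
  have h1 := bw_pos hw hp (N - (k + 1)) (k + 1) (q + 1)
  have h2 := GG_pos (N := N) hw hp k q
  have h3 := hp k
  unfold hh
  positivity

theorem hh_le_one (hw : ∀ k y, 0 < w k y) (hp : ∀ k, 0 < p k) (k : ℕ) (q : ℤ) : hh w p N k q ≤ 1 := by
  have h1 := bw_pos hw hp (N - (k + 1)) (k + 1) q
  have h2 := GG_pos (N := N) hw hp k q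
  unfold hh
  rw [div_le_one h2]
  unfold GG
  linarith

theorem ms_nonneg (hw : ∀ k y, 0 < w k y) (hp : ∀ k, 0 < p k) (hm : ∀ y, 0 ≤ m y) (k : ℕ) (y : ℤ) : 0 ≤ ms w p m N k y :=
  mul_nonneg (fw_nonneg hw hp hm k y) (bw_pos hw hp _ _ _).le

theorem ms_lo (h0 : ∀ y, y < lo → m y = 0) (k : ℕ) {y : ℤ} (hy : y < lo) : ms w p m N k y = 0 := by
  unfold ms
  rw [fw_lo h0 k y hy, zero_mul]

theorem ms_hi (h1 : ∀ y, hi - N < y → m y = 0) {k : ℕ} {y : ℤ} (hy : hi - N + k < y) : ms w p m N k y = 0 := by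
  unfold ms
  rw [fw_hi h1 k y hy, zero_mul]

/-- The masses, in terms of the profile above the row. -/
theorem ms_eq {k : ℕ} (hk : k < N) (y : ℤ) : ms w p m N k y = fw w p m k y * w k y * GG w p N k y := by
  unfold ms
  rw [bw_eq hk]
  ring

theorem hh_ms (hw : ∀ k y, 0 < w k y) (hp : ∀ k, 0 < p k) {k : ℕ} (hk : k < N) (y : ℤ) :
    hh w p N k y * ms w p m N k y = fw w p m k y * w k y * (p k * bw w p (k + 1) (N - (k + 1)) (y + 1)) := by
  have h2 := (GG_pos (N := N) hw hp k y).ne'
  rw [ms_eq hk]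
  unfold hh
  rw [div_mul_eq_mul_div, div_eq_iff h2]
  ring

theorem one_sub_hh_ms (hw : ∀ k y, 0 < w k y) (hp : ∀ k, 0 < p k) {k : ℕ} (hk : k < N) (y : ℤ) :
    (1 - hh w p N k y) * ms w p m N k y = fw w p m k y * w k y * bw w p (k + 1) (N - (k + 1)) y := by
  rw [sub_mul, hh_ms hw hp hk, one_mul, ms_eq hk]
  unfold GG
  ring

theorem ms_succ (hw : ∀ k y, 0 < w k y) (hp : ∀ k, 0 < p k) {k : ℕ} (hk : k < N) (y : ℤ) :
    ms w p m N (k + 1) y - ms w p m N k y =
      -(hh w p N k y * ms w p m N k y - hh w p N k (y - 1) * ms w p m N k (y - 1)) := by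
  have h1 := one_sub_hh_ms (m := m) hw hp hk y
  rw [hh_ms hw hp hk (y - 1), sub_add_cancel]
  have e : ms w p m N (k + 1) y = fw w p m k y * w k y * bw w p (k + 1) (N - (k + 1)) y +
      fw w p m k (y - 1) * w k (y - 1) * (p k * bw w p (k + 1) (N - (k + 1)) y) := by
    unfold ms
    rw [fw_succ]
    ring
  rw [e, ← h1]
  ring

/-! ### The left cumulative masses -/

theorem cm_diff (h0 : ∀ y, y < lo → m y = 0) (k : ℕ) (q : ℤ) :
    cm w p m N lo k q - cm w p m N lo k (q - 1) = ms w p m N k q := by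
  unfold cm
  rcases lt_or_ge q lo with hq | hq
  · rw [Icc_eq_empty (by omega), Icc_eq_empty (by omega), ms_lo h0 k hq]
    simp
  · have e : Icc lo q = insert q (Icc lo (q - 1)) := by
      ext z
      simp only [mem_Icc, mem_insert]
      omega
    rw [e, sum_insert (by simp)]
    ring

theorem cm_succ (hw : ∀ k y, 0 < w k y) (hp : ∀ k, 0 < p k) (h0 : ∀ y, y < lo → m y = 0) {k : ℕ} (hk : k < N) (q : ℤ) :
    cm w p m N lo (k + 1) q = cm w p m N lo k q - hh w p N k q * ms w p m N k q := by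
  rcases lt_or_ge q lo with hq | hq
  · unfold cm
    rw [Icc_eq_empty (by omega), ms_lo h0 k hq]
    simp
  · have h1 := sum_tel (fun y => hh w p N k y * ms w p m N k y) lo q (by omega)
    have h2 : ∑ y ∈ Icc lo q, (ms w p m N (k + 1) y - ms w p m N k y) =
        -∑ y ∈ Icc lo q, (hh w p N k y * ms w p m N k y - hh w p N k (y - 1) * ms w p m N k (y - 1)) := by
      rw [← sum_neg_distrib]
      exact sum_congr rfl fun y _ => ms_succ hw hp hk y
    rw [sum_sub_distrib] at h2
    have h3 : hh w p N k (lo - 1) * ms w p m N k (lo - 1) = 0 := by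
      rw [ms_lo h0 k (by omega), mul_zero]
    unfold cm
    linarith

/-! ### The right cumulative masses -/

theorem rm_diff (h1 : ∀ y, hi - N < y → m y = 0) {k : ℕ} (hk : k ≤ N) (a : ℤ) :
    rm w p m N hi k a - rm w p m N hi k (a + 1) = ms w p m N k a := by
  unfold rm
  rcases lt_or_ge hi a with ha | ha
  · have hkN : (k : ℤ) ≤ N := by exact_mod_cast hk
    rw [Icc_eq_empty (by omega), Icc_eq_empty (by omega), ms_hi h1 (by omega)]
    simp
  · have e : Icc a hi = insert a (Icc (a + 1) hi) := by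
      ext z
      simp only [mem_Icc, mem_insert]
      omega
    rw [e, sum_insert (by simp)]
    ring

theorem rm_succ (hw : ∀ k y, 0 < w k y) (hp : ∀ k, 0 < p k) (h1 : ∀ y, hi - N < y → m y = 0) {k : ℕ} (hk : k < N) (a : ℤ) :
    rm w p m N hi (k + 1) (a + 1) = rm w p m N hi k (a + 1) + hh w p N k a * ms w p m N k a := by
  have hkN : (k : ℤ) < N := by exact_mod_cast hk
  rcases lt_or_ge hi a with ha | ha
  · unfold rm
    rw [Icc_eq_empty (by omega), ms_hi h1 (by omega)]
    simp
  · have h2 := sum_tel (fun y => hh w p N k y * ms w p m N k y) (a + 1) hi (by omega)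
    have h3 : ∑ y ∈ Icc (a + 1) hi, (ms w p m N (k + 1) y - ms w p m N k y) =
        -∑ y ∈ Icc (a + 1) hi, (hh w p N k y * ms w p m N k y - hh w p N k (y - 1) * ms w p m N k (y - 1)) := by
      rw [← sum_neg_distrib]
      exact sum_congr rfl fun y _ => ms_succ hw hp hk y
    rw [sum_sub_distrib] at h3
    have h4 : hh w p N k hi * ms w p m N k hi = 0 := by
      rw [ms_hi h1 (by omega), mul_zero]
    rw [add_sub_cancel_right] at h2
    unfold rm
    linarith

/-! ### The totals -/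

/-- The masses are transported. -/
theorem cm_total (hw : ∀ k y, 0 < w k y) (hp : ∀ k, 0 < p k) (h0 : ∀ y, y < lo → m y = 0) (h1 : ∀ y, hi - N < y → m y = 0) :
    ∀ k : ℕ, k ≤ N → cm w p m N lo k hi = Zt w p m N lo hi
  | 0, _ => by
    unfold cm Zt ms
    simp only [fw_zero, Nat.sub_zero]
  | k + 1, hk => by
    have hkN : ((k : ℕ) : ℤ) < N := by exact_mod_cast hk
    rw [cm_succ hw hp h0 (show k < N by omega), cm_total hw hp h0 h1 k (by omega), ms_hi h1 (by omega), mul_zero, sub_zero]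

theorem sum_ms (hw : ∀ k y, 0 < w k y) (hp : ∀ k, 0 < p k) (h0 : ∀ y, y < lo → m y = 0) (h1 : ∀ y, hi - N < y → m y = 0)
    {k : ℕ} (hk : k ≤ N) : ∑ y ∈ Icc lo hi, ms w p m N k y = Zt w p m N lo hi := cm_total hw hp h0 h1 k hk

theorem ms_zero (y : ℤ) : ms w p m N 0 y = m y * bw w p 0 N y := by
  unfold ms
  rw [fw_zero, Nat.sub_zero]

theorem det_ms (hw : ∀ k y, 0 < w k y) (hp : ∀ k, 0 < p k) (h : Grp l r X0) (k : ℕ) {x y : ℤ} (hxy : x ≤ y) :
    0 ≤ ms w p l N k x * ms w p r N k y - ms w p l N k y * ms w p r N k x := by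
  have h1 := dp_nonneg hw hp h k x y hxy
  have h2 := bw_pos hw hp (N - k) k x
  have h3 := bw_pos hw hp (N - k) k y
  have e : ms w p l N k x * ms w p r N k y - ms w p l N k y * ms w p r N k x =
      dp w p l r k x y * (bw w p k (N - k) x * bw w p k (N - k) y) := by
    unfold ms dp
    ring
  rw [e]
  positivity

/-! ### The two structures -/

/-- **The left cumulative masses.** -/
theorem cdfL (hw : ∀ k y, 0 < w k y) (hp : ∀ k, 0 < p k) (h : Box l r X0 lo hi N) (zl : 0 < Zt w p l N lo hi)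
    (zr : 0 < Zt w p r N lo hi) :
    Cdf (fun k q => cm w p l N lo k q / Zt w p l N lo hi) (fun k q => cm w p r N lo k q / Zt w p r N lo hi)
      (fun k q => hh w p N k q) lo hi X0 N := by
  have l0 : ∀ y, y < lo → l y = 0 := fun y hy => (h.lo0 y hy).1
  have r0 : ∀ y, y < lo → r y = 0 := fun y hy => (h.lo0 y hy).2
  have l1 : ∀ y, hi - N < y → l y = 0 := fun y hy => (h.hi0 y hy).1
  have r1 : ∀ y, hi - N < y → r y = 0 := fun y hy => (h.hi0 y hy).2
  have hX0 := h.X0
  have hX1 := h.X1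
  have dX : ∀ (k : ℕ) (q : ℤ), cm w p l N lo k q / Zt w p l N lo hi - cm w p l N lo k (q - 1) / Zt w p l N lo hi =
      ms w p l N k q / Zt w p l N lo hi := fun k q => by rw [← sub_div, cm_diff l0]
  have dY : ∀ (k : ℕ) (q : ℤ), cm w p r N lo k q / Zt w p r N lo hi - cm w p r N lo k (q - 1) / Zt w p r N lo hi =
      ms w p r N k q / Zt w p r N lo hi := fun k q => by rw [← sub_div, cm_diff r0]
  exact
    { lh := by omega
      h0 := fun k q => hh_nonneg hw hp k q
      h1 := fun k q => hh_le_one hw hp k q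
      sX := fun k hk q => by
        rw [dX, cm_succ hw hp l0 hk]
        ring
      sY := fun k hk q => by
        rw [dY, cm_succ hw hp r0 hk]
        ring
      X0 := fun k _ q hq => by
        unfold cm
        rw [Icc_eq_empty (by omega), sum_empty, zero_div]
      Y0 := fun k _ q hq => by
        unfold cm
        rw [Icc_eq_empty (by omega), sum_empty, zero_div]
      X1 := fun k hk => by
        have hkN : (k : ℤ) < N := by exact_mod_cast hk
        have := dX k hi
        rw [ms_hi l1 (by omega), zero_div] at this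
        linarith
      Y1 := fun k hk => by
        have hkN : (k : ℤ) < N := by exact_mod_cast hk
        have := dY k hi
        rw [ms_hi r1 (by omega), zero_div] at this
        linarith
      mX := fun k _ q => by
        rw [dX]
        exact div_nonneg (ms_nonneg hw hp h.g.l0 k q) zl.le
      mY := fun k _ q => by
        rw [dY]
        exact div_nonneg (ms_nonneg hw hp h.g.r0 k q) zr.le
      lr := fun k _ q q' hq => by
        rw [dX, dX, dY, dY]
        have h1 := det_ms (N := N) hw hp h.g k hq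
        have e : ms w p l N k q / Zt w p l N lo hi * (ms w p r N k q' / Zt w p r N lo hi) -
            ms w p l N k q' / Zt w p l N lo hi * (ms w p r N k q / Zt w p r N lo hi) =
            (ms w p l N k q * ms w p r N k q' - ms w p l N k q' * ms w p r N k q) /
              (Zt w p l N lo hi * Zt w p r N lo hi) := by
          rw [div_mul_div_comm, div_mul_div_comm, ← sub_div]
        rw [e]
        exact div_nonneg h1 (mul_pos zl zr).le
      iX := fun q hq => by
        rw [div_eq_one_iff_eq zl.ne']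
        unfold cm Zt
        simp only [ms_zero]
        have e1 : ∀ b : ℤ, X0 - 1 ≤ b → ∑ y ∈ Icc lo b, l y * bw w p 0 N y = ∑ y ∈ Icc lo (X0 - 1), l y * bw w p 0 N y := by
          intro b hb
          symm
          refine sum_subset (Icc_subset_Icc le_rfl hb) fun y hy hy2 => ?_
          rw [mem_Icc] at hy hy2
          rw [h.g.lX y (by omega), zero_mul]
        rw [e1 q (by omega), e1 hi (by omega)]
      iY := fun q hq => by
        unfold cm
        simp only [ms_zero]
        rw [sum_eq_zero, zero_div]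
        intro y hy
        rw [mem_Icc] at hy
        rw [h.g.rX y (by omega), zero_mul]
      tY := fun q => by
        rw [div_le_one zr]
        unfold cm Zt
        simp only [ms_zero]
        have nn : ∀ y, 0 ≤ r y * bw w p 0 N y := fun y => mul_nonneg (h.g.r0 y) (bw_pos hw hp _ _ _).le
        rcases le_or_gt q hi with hq | hq
        · exact sum_le_sum_of_subset_of_nonneg (Icc_subset_Icc le_rfl hq) fun y _ _ => nn y
        · refine le_of_eq ?_
          symm
          refine sum_subset (Icc_subset_Icc le_rfl hq.le) fun y hy hy2 => ?_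
          rw [mem_Icc] at hy hy2
          rw [r1 y (by omega), zero_mul] }

/-- **The right cumulative masses**, in the coordinates of the mirror image. -/
theorem cdfR (hw : ∀ k y, 0 < w k y) (hp : ∀ k, 0 < p k) (h : Box l r X0 lo hi N) (zl : 0 < Zt w p l N lo hi)
    (zr : 0 < Zt w p r N lo hi) :
    Cdf (fun k a => rm w p r N hi k (k - a) / Zt w p r N lo hi) (fun k a => rm w p l N hi k (k - a) / Zt w p l N lo hi)
      (fun k a => 1 - hh w p N k (k - a)) (N - hi) (N - lo) (1 - X0) N := by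
  have l0 : ∀ y, y < lo → l y = 0 := fun y hy => (h.lo0 y hy).1
  have r0 : ∀ y, y < lo → r y = 0 := fun y hy => (h.lo0 y hy).2
  have l1 : ∀ y, hi - N < y → l y = 0 := fun y hy => (h.hi0 y hy).1
  have r1 : ∀ y, hi - N < y → r y = 0 := fun y hy => (h.hi0 y hy).2
  have hX0 := h.X0
  have hX1 := h.X1
  have eidx : ∀ (k : ℕ) (a : ℤ), (k : ℤ) - (a - 1) = k - a + 1 := fun k a => by ring
  have dX : ∀ (k : ℕ) (a : ℤ), k ≤ N → rm w p r N hi k (k - a) / Zt w p r N lo hi -
      rm w p r N hi k (k - (a - 1)) / Zt w p r N lo hi = ms w p r N k (k - a) / Zt w p r N lo hi := fun k a hk => by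
    rw [← sub_div, eidx, rm_diff r1 hk]
  have dY : ∀ (k : ℕ) (a : ℤ), k ≤ N → rm w p l N hi k (k - a) / Zt w p l N lo hi -
      rm w p l N hi k (k - (a - 1)) / Zt w p l N lo hi = ms w p l N k (k - a) / Zt w p l N lo hi := fun k a hk => by
    rw [← sub_div, eidx, rm_diff l1 hk]
  have step : ∀ (m : ℤ → ℝ), (∀ y, hi - N < y → m y = 0) → ∀ (k : ℕ) (a : ℤ), k < N →
      rm w p m N hi (k + 1) ((k + 1 : ℕ) - a) = rm w p m N hi k (k - a) - (1 - hh w p N k (k - a)) * ms w p m N k (k - a) := by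
    intro m hm k a hk
    have e1 : (((k + 1 : ℕ) : ℤ) - a) = (k - a) + 1 := by push_cast; ring
    have h2 := rm_diff (w := w) (p := p) hm hk.le (k - a)
    rw [e1, rm_succ hw hp hm hk]
    linarith
  exact
    { lh := by omega
      h0 := fun k a => by linarith [hh_le_one (N := N) hw hp k (k - a)]
      h1 := fun k a => by linarith [hh_nonneg (N := N) hw hp k (k - a)]
      sX := fun k hk a => by
        rw [dX k a hk.le, step r r1 k a hk]
        ring
      sY := fun k hk a => by
        rw [dY k a hk.le, step l l1 k a hk]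
        ring
      X0 := fun k hk a ha => by
        have : rm w p r N hi k (k - a) = 0 := by
          unfold rm
          refine sum_eq_zero fun y hy => ms_hi r1 ?_
          rw [mem_Icc] at hy
          omega
        rw [this, zero_div]
      Y0 := fun k hk a ha => by
        have : rm w p l N hi k (k - a) = 0 := by
          unfold rm
          refine sum_eq_zero fun y hy => ms_hi l1 ?_
          rw [mem_Icc] at hy
          omega
        rw [this, zero_div]
      X1 := fun k hk => by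
        have hkN : (k : ℤ) < N := by exact_mod_cast hk
        have := dX k (N - lo) hk.le
        rw [ms_lo r0 k (by omega), zero_div] at this
        linarith
      Y1 := fun k hk => by
        have hkN : (k : ℤ) < N := by exact_mod_cast hk
        have := dY k (N - lo) hk.le
        rw [ms_lo l0 k (by omega), zero_div] at this
        linarith
      mX := fun k hk a => by
        rw [dX k a hk]
        exact div_nonneg (ms_nonneg hw hp h.g.r0 k _) zr.le
      mY := fun k hk a => by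
        rw [dY k a hk]
        exact div_nonneg (ms_nonneg hw hp h.g.l0 k _) zl.le
      lr := fun k hk a a' ha => by
        rw [dX k a hk, dX k a' hk, dY k a hk, dY k a' hk]
        have h1 := det_ms (N := N) hw hp h.g k (show (k : ℤ) - a' ≤ k - a by omega)
        have e : ms w p r N k (k - a) / Zt w p r N lo hi * (ms w p l N k (k - a') / Zt w p l N lo hi) -
            ms w p r N k (k - a') / Zt w p r N lo hi * (ms w p l N k (k - a) / Zt w p l N lo hi) =
            (ms w p l N k (k - a') * ms w p r N k (k - a) - ms w p l N k (k - a) * ms w p r N k (k - a')) /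
              (Zt w p l N lo hi * Zt w p r N lo hi) := by
          rw [div_mul_div_comm, div_mul_div_comm, mul_comm (Zt w p r N lo hi), ← sub_div]
          ring
        rw [e]
        exact div_nonneg h1 (mul_pos zl zr).le
      iX := fun a ha => by
        rw [div_eq_one_iff_eq zr.ne']
        unfold rm Zt
        simp only [ms_zero]
        have e1 : ∀ b : ℤ, b ≤ X0 → ∑ y ∈ Icc b hi, r y * bw w p 0 N y = ∑ y ∈ Icc X0 hi, r y * bw w p 0 N y := by
          intro b hb
          symm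
          refine sum_subset (Icc_subset_Icc hb le_rfl) fun y hy hy2 => ?_
          rw [mem_Icc] at hy hy2
          rw [h.g.rX y (by omega), zero_mul]
        rw [e1 _ (by push_cast; omega), e1 lo (by omega)]
      iY := fun a ha => by
        unfold rm
        simp only [ms_zero]
        rw [sum_eq_zero, zero_div]
        intro y hy
        rw [mem_Icc] at hy
        rw [h.g.lX y (by push_cast at hy; omega), zero_mul]
      tY := fun a => by
        rw [div_le_one zl]
        unfold rm Zt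
        simp only [ms_zero]
        have nn : ∀ y, 0 ≤ l y * bw w p 0 N y := fun y => mul_nonneg (h.g.l0 y) (bw_pos hw hp _ _ _).le
        rcases le_or_gt lo (((0 : ℕ) : ℤ) - a) with hq | hq
        · exact sum_le_sum_of_subset_of_nonneg (Icc_subset_Icc hq le_rfl) fun y _ _ => nn y
        · refine le_of_eq ?_
          symm
          refine sum_subset (Icc_subset_Icc hq.le le_rfl) fun y hy hy2 => ?_
          rw [mem_Icc] at hy hy2
          rw [l0 y (by omega), zero_mul] }

/-! ### The natural weight is the area -/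

/-- The natural weight of a contact. -/
def wn (w : ℕ → ℤ → ℝ) (p : ℕ → ℝ) (l r : ℤ → ℝ) (N : ℕ) (lo hi : ℤ) (k : ℕ) (q : ℤ) : ℝ :=
  dp w p l r k (q - 1) q * (p k * (w k (q - 1) * w k q) * bw w p (k + 1) (N - (k + 1)) q ^ 2) /
    (Zt w p l N lo hi * Zt w p r N lo hi)

theorem wn_eq (hw : ∀ k y, 0 < w k y) (hp : ∀ k, 0 < p k) {k : ℕ} (hk : k < N) (q : ℤ) :
    wn w p l r N lo hi k q = hh w p N k (q - 1) * (1 - hh w p N k q) *
      (ms w p l N k (q - 1) * ms w p r N k q - ms w p l N k q * ms w p r N k (q - 1)) /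
        (Zt w p l N lo hi * Zt w p r N lo hi) := by
  have a1 := hh_ms (m := l) hw hp hk (q - 1)
  have a2 := hh_ms (m := r) hw hp hk (q - 1)
  have a3 := one_sub_hh_ms (m := l) hw hp hk q
  have a4 := one_sub_hh_ms (m := r) hw hp hk q
  rw [sub_add_cancel] at a1 a2
  have e : hh w p N k (q - 1) * (1 - hh w p N k q) *
      (ms w p l N k (q - 1) * ms w p r N k q - ms w p l N k q * ms w p r N k (q - 1)) =
      (hh w p N k (q - 1) * ms w p l N k (q - 1)) * ((1 - hh w p N k q) * ms w p r N k q) -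
      ((1 - hh w p N k q) * ms w p l N k q) * (hh w p N k (q - 1) * ms w p r N k (q - 1)) := by ring
  rw [e, a1, a2, a3, a4]
  unfold wn dp
  congr 1
  ring

/-- The sum of the natural weights against the left tails. -/
theorem sumL (hw : ∀ k y, 0 < w k y) (hp : ∀ k, 0 < p k) (h : Box l r X0 lo hi N) (zl : 0 < Zt w p l N lo hi)
    (zr : 0 < Zt w p r N lo hi) {ρ : ℝ} (hρ : 0 < ρ) {I : ℕ} (hI : 1 ≤ 2 ^ I * ρ) {a b : ℤ} (ha : lo ≤ a) (hb : b ≤ hi) :
    ∑ k ∈ range N, ∑ q ∈ Icc a b, wn w p l r N lo hi k q /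
      (max (cm w p l N lo (k + 1) q / Zt w p l N lo hi) ρ * max (cm w p r N lo (k + 1) q / Zt w p r N lo hi) ρ) ≤
      108 * ((I : ℝ) + 1) ^ 2 := by
  have C := cdfL hw hp h zl zr
  have l0 : ∀ y, y < lo → l y = 0 := fun y hy => (h.lo0 y hy).1
  have r0 : ∀ y, y < lo → r y = 0 := fun y hy => (h.lo0 y hy).2
  refine le_trans (sum_le_sum fun k hk => ?_) (C.log_sq hρ hI)
  have hk' := mem_range.1 hk
  have e : ∀ q, wn w p l r N lo hi k q = cut (fun k q => cm w p l N lo k q / Zt w p l N lo hi)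
      (fun k q => cm w p r N lo k q / Zt w p r N lo hi) (fun k q => hh w p N k q) k q := by
    intro q
    rw [wn_eq hw hp hk' q]
    show _ = hh w p N k (q - 1) * (1 - hh w p N k q) *
      ((cm w p l N lo k (q - 1) / Zt w p l N lo hi - cm w p l N lo k (q - 1 - 1) / Zt w p l N lo hi) *
        (cm w p r N lo k q / Zt w p r N lo hi - cm w p r N lo k (q - 1) / Zt w p r N lo hi) -
        (cm w p l N lo k q / Zt w p l N lo hi - cm w p l N lo k (q - 1) / Zt w p l N lo hi) *
        (cm w p r N lo k (q - 1) / Zt w p r N lo hi - cm w p r N lo k (q - 1 - 1) / Zt w p r N lo hi))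
    rw [← sub_div, ← sub_div, ← sub_div, ← sub_div, cm_diff l0, cm_diff r0, cm_diff l0, cm_diff r0, div_mul_div_comm,
      div_mul_div_comm, ← sub_div, mul_div_assoc]
  have pos : ∀ q, 0 ≤ cut (fun k q => cm w p l N lo k q / Zt w p l N lo hi)
      (fun k q => cm w p r N lo k q / Zt w p r N lo hi) (fun k q => hh w p N k q) k q /
      (max (cm w p l N lo (k + 1) q / Zt w p l N lo hi) ρ * max (cm w p r N lo (k + 1) q / Zt w p r N lo hi) ρ) :=
    fun q => div_nonneg (C.cut_nonneg hk'.le q) (mul_nonneg (lt_max_of_lt_right hρ).le (lt_max_of_lt_right hρ).le)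
  simp only [e]
  exact sum_le_sum_of_subset_of_nonneg (Icc_subset_Icc ha hb) fun q _ _ => pos q

/-- The sum of the natural weights against the right tails. -/
theorem sumR (hw : ∀ k y, 0 < w k y) (hp : ∀ k, 0 < p k) (h : Box l r X0 lo hi N) (zl : 0 < Zt w p l N lo hi)
    (zr : 0 < Zt w p r N lo hi) {ρ : ℝ} (hρ : 0 < ρ) {I : ℕ} (hI : 1 ≤ 2 ^ I * ρ) {a b : ℤ} (ha : lo < a) :
    ∑ k ∈ range N, ∑ q ∈ Icc a b, wn w p l r N lo hi k q /
      (max (rm w p l N hi (k + 1) q / Zt w p l N lo hi) ρ * max (rm w p r N hi (k + 1) q / Zt w p r N lo hi) ρ) ≤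
      108 * ((I : ℝ) + 1) ^ 2 := by
  have C := cdfR hw hp h zl zr
  have l1 : ∀ y, hi - N < y → l y = 0 := fun y hy => (h.hi0 y hy).1
  have r1 : ∀ y, hi - N < y → r y = 0 := fun y hy => (h.hi0 y hy).2
  refine le_trans (sum_le_sum fun k hk => ?_) (C.log_sq hρ hI)
  have hk' := mem_range.1 hk
  obtain ⟨c, hc⟩ : ∃ c : ℤ → ℝ, c = cut (fun k a => rm w p r N hi k (k - a) / Zt w p r N lo hi)
      (fun k a => rm w p l N hi k (k - a) / Zt w p l N lo hi) (fun k a => 1 - hh w p N k (k - a)) k := ⟨_, rfl⟩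
  have e : ∀ q : ℤ, wn w p l r N lo hi k q = c (k + 1 - q) := by
    intro q
    rw [wn_eq hw hp hk' q, hc]
    show _ = (1 - hh w p N k (k - (k + 1 - q - 1))) * (1 - (1 - hh w p N k (k - (k + 1 - q)))) *
      ((rm w p r N hi k (k - (k + 1 - q - 1)) / Zt w p r N lo hi - rm w p r N hi k (k - (k + 1 - q - 1 - 1)) / Zt w p r N lo hi) *
        (rm w p l N hi k (k - (k + 1 - q)) / Zt w p l N lo hi - rm w p l N hi k (k - (k + 1 - q - 1)) / Zt w p l N lo hi) -
        (rm w p r N hi k (k - (k + 1 - q)) / Zt w p r N lo hi - rm w p r N hi k (k - (k + 1 - q - 1)) / Zt w p r N lo hi) *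
        (rm w p l N hi k (k - (k + 1 - q - 1)) / Zt w p l N lo hi - rm w p l N hi k (k - (k + 1 - q - 1 - 1)) / Zt w p l N lo hi))
    have i1 : (k : ℤ) - (k + 1 - q - 1) = q := by ring
    have i2 : (k : ℤ) - (k + 1 - q) = q - 1 := by ring
    have i3 : (k : ℤ) - (k + 1 - q - 1 - 1) = q + 1 := by ring
    have d1 := rm_diff (w := w) (p := p) r1 hk'.le q
    have d2 := rm_diff (w := w) (p := p) l1 hk'.le (q - 1)
    have d3 := rm_diff (w := w) (p := p) r1 hk'.le (q - 1)
    have d4 := rm_diff (w := w) (p := p) l1 hk'.le q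
    rw [sub_add_cancel] at d2 d3
    rw [i1, i2, i3, ← sub_div, ← sub_div, ← sub_div, ← sub_div, d1, d2, d3, d4, div_mul_div_comm, div_mul_div_comm, ← sub_div,
      mul_comm (Zt w p r N lo hi), ← mul_div_assoc]
    congr 1
    ring
  have pos : ∀ a, 0 ≤ c a /
      (max (rm w p r N hi (k + 1) ((k + 1 : ℕ) - a) / Zt w p r N lo hi) ρ *
        max (rm w p l N hi (k + 1) ((k + 1 : ℕ) - a) / Zt w p l N lo hi) ρ) := fun a => by
    rw [hc]
    exact div_nonneg (C.cut_nonneg hk'.le a) (mul_nonneg (lt_max_of_lt_right hρ).le (lt_max_of_lt_right hρ).le)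
  have c0 : ∀ a, a < N - hi → c a = 0 := by
    intro a ha'
    rw [hc]
    have x1 := C.X0 k hk'.le a ha'
    have x2 := C.X0 k hk'.le (a - 1) (by omega)
    have x3 := C.X0 k hk'.le (a - 1 - 1) (by omega)
    show (1 - hh w p N k (k - (a - 1))) * (1 - (1 - hh w p N k (k - a))) *
      ((rm w p r N hi k (k - (a - 1)) / Zt w p r N lo hi - rm w p r N hi k (k - (a - 1 - 1)) / Zt w p r N lo hi) *
        (rm w p l N hi k (k - a) / Zt w p l N lo hi - rm w p l N hi k (k - (a - 1)) / Zt w p l N lo hi) -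
        (rm w p r N hi k (k - a) / Zt w p r N lo hi - rm w p r N hi k (k - (a - 1)) / Zt w p r N lo hi) *
        (rm w p l N hi k (k - (a - 1)) / Zt w p l N lo hi - rm w p l N hi k (k - (a - 1 - 1)) / Zt w p l N lo hi)) = 0
    have x1' : rm w p r N hi k (k - a) / Zt w p r N lo hi = 0 := x1
    have x2' : rm w p r N hi k (k - (a - 1)) / Zt w p r N lo hi = 0 := x2
    have x3' : rm w p r N hi k (k - (a - 1 - 1)) / Zt w p r N lo hi = 0 := x3
    rw [x1', x2', x3']
    ring
  -- the sum over `q` as a sum over `a = k + 1 - q`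
  have s1 : ∑ q ∈ Icc a b, wn w p l r N lo hi k q /
      (max (rm w p l N hi (k + 1) q / Zt w p l N lo hi) ρ * max (rm w p r N hi (k + 1) q / Zt w p r N lo hi) ρ) =
      ∑ z ∈ Icc (k + 1 - b) (k + 1 - a), c z /
      (max (rm w p r N hi (k + 1) ((k + 1 : ℕ) - z) / Zt w p r N lo hi) ρ *
        max (rm w p l N hi (k + 1) ((k + 1 : ℕ) - z) / Zt w p l N lo hi) ρ) := by
    refine sum_bij (fun q _ => (k : ℤ) + 1 - q) ?_ ?_ ?_ ?_
    · intro q hq
      rw [mem_Icc] at hq ⊢
      omega
    · intro q _ q' _ hqq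
      have : (k : ℤ) + 1 - q = k + 1 - q' := hqq
      omega
    · intro z hz
      rw [mem_Icc] at hz
      exact ⟨k + 1 - z, mem_Icc.2 (by omega), by ring⟩
    · intro q _
      have i4 : (((k + 1 : ℕ) : ℤ) - (k + 1 - q)) = q := by push_cast; ring
      show wn w p l r N lo hi k q / _ = c (k + 1 - q) /
        (max (rm w p r N hi (k + 1) ((k + 1 : ℕ) - (k + 1 - q)) / Zt w p r N lo hi) ρ *
        max (rm w p l N hi (k + 1) ((k + 1 : ℕ) - (k + 1 - q)) / Zt w p l N lo hi) ρ)
      rw [e q, i4, mul_comm]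
  rw [s1]
  have hkN : (k : ℤ) < N := by exact_mod_cast hk'
  -- drop the vanishing terms
  have s2 : ∑ z ∈ Icc ((k : ℤ) + 1 - b) (k + 1 - a), c z /
      (max (rm w p r N hi (k + 1) ((k + 1 : ℕ) - z) / Zt w p r N lo hi) ρ *
        max (rm w p l N hi (k + 1) ((k + 1 : ℕ) - z) / Zt w p l N lo hi) ρ) =
      ∑ z ∈ (Icc ((k : ℤ) + 1 - b) (k + 1 - a)).filter (fun z => (N : ℤ) - hi ≤ z), c z /
      (max (rm w p r N hi (k + 1) ((k + 1 : ℕ) - z) / Zt w p r N lo hi) ρ *
        max (rm w p l N hi (k + 1) ((k + 1 : ℕ) - z) / Zt w p l N lo hi) ρ) := by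
    symm
    refine sum_subset (filter_subset _ _) fun z hz hz2 => ?_
    have : z < N - hi := by
      by_contra hc2
      exact hz2 (mem_filter.2 ⟨hz, not_lt.1 hc2⟩)
    rw [c0 z this, zero_div]
  rw [s2]
  refine le_trans (sum_le_sum_of_subset_of_nonneg (t := Icc ((N : ℤ) - hi) (N - lo)) ?_ fun z _ _ => pos z) (le_of_eq ?_)
  · intro z hz
    obtain ⟨h1, h2⟩ := mem_filter.1 hz
    rw [mem_Icc] at h1 ⊢
    omega
  · refine sum_congr rfl fun z _ => ?_
    rw [hc]

/-! ### The total of the contracted row -/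

/-- The mirror image of `zs`. -/
def zr (S : Finset ℤ) (m w G : ℤ → ℝ) (q : ℤ) : ℝ := ∑ y ∈ S, m y * w y * (if y < q then G (y + 1) else G y)

/-- `zs` of the profile moved by one. -/
theorem zs_shift (S : Finset ℤ) (m w G : ℤ → ℝ) (q : ℤ) : zs S m w (fun y => G (y + 1)) q = zr S m w G q := by
  unfold zs zr
  refine sum_congr rfl fun y _ => ?_
  show m y * w y * (if y < q then G (y + 1) else G (y - 1 + 1)) = _
  rw [sub_add_cancel]

theorem zs_ge_tail (hw : ∀ k y, 0 < w k y) (hp : ∀ k, 0 < p k) (hm : ∀ y, 0 ≤ m y) (h0 : ∀ y, y < lo → m y = 0) {k : ℕ} (hk : k < N)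
    {q : ℤ} (hq : lo ≤ q) (hq2 : q ≤ hi) :
    min 1 (p k) * cm w p m N lo (k + 1) q ≤ zs (Icc lo hi) (fw w p m k) (w k) (GG w p N k) q := by
  have hpk := hp k
  have fn := fw_nonneg hw hp hm k
  have Gp := GG_pos (N := N) hw hp k
  have c1 : 0 < min 1 (p k) := lt_min one_pos hpk
  have term : ∀ y, 0 ≤ fw w p m k y * w k y * (if y < q then GG w p N k y else GG w p N k (y - 1)) := by
    intro y
    have h1 := fn y
    have h2 := hw k y
    have h3 := Gp y
    have h4 := Gp (y - 1)
    split_ifs <;> positivity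
  have e1 : cm w p m N lo (k + 1) q = (∑ y ∈ Icc lo (q - 1), ms w p m N k y) +
      fw w p m k q * w k q * bw w p (k + 1) (N - (k + 1)) q := by
    rw [cm_succ hw hp h0 hk, ← one_sub_hh_ms hw hp hk]
    have := cm_diff (w := w) (p := p) (N := N) h0 k q
    have e2 : cm w p m N lo k (q - 1) = ∑ y ∈ Icc lo (q - 1), ms w p m N k y := rfl
    rw [← e2]
    linarith
  have e3 : Icc lo q = insert q (Icc lo (q - 1)) := by
    ext z
    simp only [mem_Icc, mem_insert]
    omega
  have h1 : ∑ y ∈ Icc lo q, fw w p m k y * w k y * (if y < q then GG w p N k y else GG w p N k (y - 1)) ≤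
      zs (Icc lo hi) (fw w p m k) (w k) (GG w p N k) q :=
    sum_le_sum_of_subset_of_nonneg (Icc_subset_Icc le_rfl hq2) fun y _ _ => term y
  rw [e3, sum_insert (by simp), if_neg (lt_irrefl q)] at h1
  have h2 : ∑ y ∈ Icc lo (q - 1), fw w p m k y * w k y * (if y < q then GG w p N k y else GG w p N k (y - 1)) =
      ∑ y ∈ Icc lo (q - 1), ms w p m N k y := by
    refine sum_congr rfl fun y hy => ?_
    rw [mem_Icc] at hy
    rw [if_pos (by omega), ms_eq hk]
  rw [h2] at h1
  have s0 : 0 ≤ ∑ y ∈ Icc lo (q - 1), ms w p m N k y := sum_nonneg fun y _ => ms_nonneg hw hp hm k y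
  have f0 : 0 ≤ fw w p m k q * w k q := mul_nonneg (fn q) (hw k q).le
  have b0 := bw_pos hw hp (N - (k + 1)) (k + 1) q
  have b1 := bw_pos hw hp (N - (k + 1)) (k + 1) (q - 1)
  have g1 : min 1 (p k) * bw w p (k + 1) (N - (k + 1)) q ≤ GG w p N k (q - 1) := by
    unfold GG
    rw [sub_add_cancel]
    have := mul_le_mul_of_nonneg_right (min_le_right 1 (p k)) b0.le
    linarith
  have g2 := mul_le_mul_of_nonneg_left g1 f0
  have g3 := mul_le_mul_of_nonneg_right (min_le_left 1 (p k)) s0
  rw [e1, mul_add]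
  have e4 : min 1 (p k) * (fw w p m k q * w k q * bw w p (k + 1) (N - (k + 1)) q) =
      fw w p m k q * w k q * (min 1 (p k) * bw w p (k + 1) (N - (k + 1)) q) := by ring
  rw [e4]
  linarith

theorem zs_ge_rho (hw : ∀ k y, 0 < w k y) (hp : ∀ k, 0 < p k) (hm : ∀ y, 0 ≤ m y) (h0 : ∀ y, y < lo → m y = 0)
    (h1 : ∀ y, hi - N < y → m y = 0) {k : ℕ} (hk : k < N) {ρ : ℝ} (hρ1 : ρ ≤ 1)
    (hG : ∀ y ∈ Icc lo hi, ρ * GG w p N k y ≤ GG w p N k (y - 1)) (q : ℤ) :
    ρ * Zt w p m N lo hi ≤ zs (Icc lo hi) (fw w p m k) (w k) (GG w p N k) q := by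
  rw [← sum_ms hw hp h0 h1 hk.le, mul_sum]
  refine sum_le_sum fun y hy => ?_
  have fn := fw_nonneg hw hp hm k y
  have h2 := hw k y
  have h3 := GG_pos (N := N) hw hp k y
  rw [ms_eq hk]
  have f0 : 0 ≤ fw w p m k y * w k y := by positivity
  split_ifs with hyq
  · have := mul_le_mul_of_nonneg_right hρ1 (mul_nonneg f0 h3.le)
    linarith
  · have := mul_le_mul_of_nonneg_left (hG y hy) f0
    linarith

theorem zr_ge_tail (hw : ∀ k y, 0 < w k y) (hp : ∀ k, 0 < p k) (hm : ∀ y, 0 ≤ m y) (h1 : ∀ y, hi - N < y → m y = 0) {k : ℕ}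
    (hk : k < N) {q : ℤ} (hq : lo ≤ q - 1) (hq2 : q ≤ hi) :
    min 1 (1 / p k) * rm w p m N hi (k + 1) q ≤ zr (Icc lo hi) (fw w p m k) (w k) (GG w p N k) q := by
  have hpk := hp k
  have fn := fw_nonneg hw hp hm k
  have Gp := GG_pos (N := N) hw hp k
  have c1 : 0 < min 1 (1 / p k) := lt_min one_pos (by positivity)
  have term : ∀ y, 0 ≤ fw w p m k y * w k y * (if y < q then GG w p N k (y + 1) else GG w p N k y) := by
    intro y
    have h1 := fn y
    have h2 := hw k y
    have h3 := Gp y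
    have h4 := Gp (y + 1)
    split_ifs <;> positivity
  have e1 : rm w p m N hi (k + 1) q = (∑ y ∈ Icc q hi, ms w p m N k y) +
      fw w p m k (q - 1) * w k (q - 1) * (p k * bw w p (k + 1) (N - (k + 1)) q) := by
    have h2 := rm_succ hw hp h1 hk (q - 1)
    rw [sub_add_cancel] at h2
    have h3 := hh_ms (m := m) hw hp hk (q - 1)
    rw [sub_add_cancel] at h3
    rw [h2, h3]
    rfl
  have e3 : Icc (q - 1) hi = insert (q - 1) (Icc q hi) := by
    ext z
    simp only [mem_Icc, mem_insert]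
    omega
  have h2 : ∑ y ∈ Icc (q - 1) hi, fw w p m k y * w k y * (if y < q then GG w p N k (y + 1) else GG w p N k y) ≤
      zr (Icc lo hi) (fw w p m k) (w k) (GG w p N k) q :=
    sum_le_sum_of_subset_of_nonneg (Icc_subset_Icc hq le_rfl) fun y _ _ => term y
  rw [e3, sum_insert (by simp), if_pos (by omega), sub_add_cancel] at h2
  have h3 : ∑ y ∈ Icc q hi, fw w p m k y * w k y * (if y < q then GG w p N k (y + 1) else GG w p N k y) =
      ∑ y ∈ Icc q hi, ms w p m N k y := by
    refine sum_congr rfl fun y hy => ?_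
    rw [mem_Icc] at hy
    rw [if_neg (by omega), ms_eq hk]
  rw [h3] at h2
  have s0 : 0 ≤ ∑ y ∈ Icc q hi, ms w p m N k y := sum_nonneg fun y _ => ms_nonneg hw hp hm k y
  have f0 : 0 ≤ fw w p m k (q - 1) * w k (q - 1) := mul_nonneg (fn _) (hw k _).le
  have b0 := bw_pos hw hp (N - (k + 1)) (k + 1) q
  have b1 := bw_pos hw hp (N - (k + 1)) (k + 1) (q + 1)
  have g1 : min 1 (1 / p k) * (p k * bw w p (k + 1) (N - (k + 1)) q) ≤ GG w p N k q := by
    unfold GG
    have h4 := mul_le_mul_of_nonneg_right (min_le_right 1 (1 / p k)) (mul_pos hpk b0).le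
    have h5 : 1 / p k * (p k * bw w p (k + 1) (N - (k + 1)) q) = bw w p (k + 1) (N - (k + 1)) q := by
      rw [← mul_assoc, one_div, inv_mul_cancel₀ hpk.ne', one_mul]
    have h6 := mul_pos hpk b1
    linarith
  have g2 := mul_le_mul_of_nonneg_left g1 f0
  have g3 := mul_le_mul_of_nonneg_right (min_le_left 1 (1 / p k)) s0
  rw [e1, mul_add]
  have e4 : min 1 (1 / p k) * (fw w p m k (q - 1) * w k (q - 1) * (p k * bw w p (k + 1) (N - (k + 1)) q)) =
      fw w p m k (q - 1) * w k (q - 1) * (min 1 (1 / p k) * (p k * bw w p (k + 1) (N - (k + 1)) q)) := by ring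
  rw [e4]
  linarith

theorem zr_ge_rho (hw : ∀ k y, 0 < w k y) (hp : ∀ k, 0 < p k) (hm : ∀ y, 0 ≤ m y) (h0 : ∀ y, y < lo → m y = 0)
    (h1 : ∀ y, hi - N < y → m y = 0) {k : ℕ} (hk : k < N) {ρ : ℝ} (hρ1 : ρ ≤ 1) {q : ℤ} (hq : q ≤ hi)
    (hG : ∀ y ∈ Icc lo hi, ρ * GG w p N k (y - 1) ≤ GG w p N k y) :
    ρ * Zt w p m N lo hi ≤ zr (Icc lo hi) (fw w p m k) (w k) (GG w p N k) q := by
  rw [← sum_ms hw hp h0 h1 hk.le, mul_sum]
  refine sum_le_sum fun y hy => ?_
  have fn := fw_nonneg hw hp hm k y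
  have h2 := hw k y
  have h3 := GG_pos (N := N) hw hp k y
  rw [ms_eq hk]
  have f0 : 0 ≤ fw w p m k y * w k y := by positivity
  split_ifs with hyq
  · rw [mem_Icc] at hy
    have h4 := hG (y + 1) (mem_Icc.2 (by omega))
    rw [add_sub_cancel_right] at h4
    have := mul_le_mul_of_nonneg_left h4 f0
    linarith
  · have := mul_le_mul_of_nonneg_right hρ1 (mul_nonneg f0 h3.le)
    linarith

/-- The quotient of a contact. -/
theorem quot67 {D P2 c A B Zl Zr X Y ρ : ℝ} (hD : 0 ≤ D) (hP : 0 ≤ P2) (hc : 0 < c) (hl : 0 < Zl) (hr : 0 < Zr) (hρ : 0 < ρ)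
    (a1 : c * X ≤ A) (a2 : c * ρ * Zl ≤ A) (b1 : c * Y ≤ B) (b2 : c * ρ * Zr ≤ B) {ws : ℝ} (hws : ws ≤ P2 * D / (A * B)) :
    ws ≤ P2 / c ^ 2 * (D / (Zl * Zr) / (max (X / Zl) ρ * max (Y / Zr) ρ)) := by
  have m1 : 0 < max (X / Zl) ρ := lt_max_of_lt_right hρ
  have m2 : 0 < max (Y / Zr) ρ := lt_max_of_lt_right hρ
  have k1 : c * Zl * max (X / Zl) ρ ≤ A := by
    rcases le_total (X / Zl) ρ with h | h
    · rw [max_eq_right h]
      linarith
    · rw [max_eq_left h]
      have : c * Zl * (X / Zl) = c * X := by field_simp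
      linarith
  have k2 : c * Zr * max (Y / Zr) ρ ≤ B := by
    rcases le_total (Y / Zr) ρ with h | h
    · rw [max_eq_right h]
      linarith
    · rw [max_eq_left h]
      have : c * Zr * (Y / Zr) = c * Y := by field_simp
      linarith
  have k3 : c * Zl * max (X / Zl) ρ * (c * Zr * max (Y / Zr) ρ) ≤ A * B :=
    mul_le_mul k1 k2 (by positivity) (le_trans (by positivity) k1)
  have k4 : P2 * D / (A * B) ≤ P2 * D / (c * Zl * max (X / Zl) ρ * (c * Zr * max (Y / Zr) ρ)) :=
    div_le_div_of_nonneg_left (mul_nonneg hP hD) (by positivity) k3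
  refine hws.trans (k4.trans (le_of_eq ?_))
  field_simp

end

end Pool.Agent.W_7d29a1_C1.Cut67
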