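import Pool.Agent.W_7d29a1_C1.SysN89
import Pool.Agent.W_7d29a1_C1.DDM84

/-!
MP_7d29a1_pr, [C1] attractor route, TAME: (D2) OF THE MASSES AT A ROW OF THE CLEAN PART OF A TOWER. (helper16)

`d2_clean16`: the layers `u, .., u + m + 1` above the row `r u` (levels `q₀ Θ ^ (v - u)`), the arms of the places of the scales `T (u + i)`,
`i ≤ m`, at the rows `r (u + (i + 2))`, and the comparison pushed down from above the block (`pshQ16`, one unit `Tt`, `Qf EE Tt` at most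
`A₁ (T (u + m) / T u) ^ g EE (T (u + m))`) give (D2) at the row `r u` with the unit `T u`, any slope `κ'`, a constant `Q (κ', K₁, q₀, A₁)`.
-/

set_option autoImplicit false

namespace Pool.Agent.W_7d29a1_C1.U16

open MeasureTheory ProbabilityTheory Filter Topology Finset
open Pool.Agent.W_7d29a1_F Pool.Agent.W_7d29a1_h4g Pool.Agent.W_7d29a1_H Pool.Agent.W_7d29a1_HS
open Pool.Agent.W_7d29a1_C1.H75 Pool.Agent.W_7d29a1_C1.FarK89 Pool.Agent.W_7d29a1_C1.FarW89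
open Pool.Agent.W_7d29a1_C1.DD84 Pool.Agent.W_7d29a1_C1.SysN89
open Pool.Agent.W_7d29a1_C1.K91 (wt wt_pos)

noncomputable section

variable {μ : Measure ℝ} [IsProbabilityMeasure μ] {s c C : ℝ} {n₀ : ℕ}

/-- **(D2) AT A CLEAN ROW.** -/
theorem d2_clean16 (h0 : In μ s c C n₀) (P : ℕ) {θ K : ℝ} (hθ : 0 < θ) : ∃ (g : ℝ) (K₀ : ℕ), 0 < g ∧ 2 ≤ K₀ ∧
    ∀ κ' K₁ q₀ A₁ : ℝ, 0 < κ' → 1 ≤ K₁ → K₁ + 3 ≤ K → 0 ≤ q₀ → 0 ≤ A₁ → ∀ b : ℕ, ∃ (Q : ℝ) (n₁ : ℕ), 1 ≤ Q ∧ 1 ≤ n₁ ∧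
    ∀ {h : ℝ} {η : Env} {p : ℕ → ℝ} {M Nt : ℕ} {κ : Pt} {r T N : ℕ → ℕ} {q : ℕ → ℝ} {bs : ℕ → Pt} {u m Tt : ℕ} {Θ Qf σ : ℝ},
    (∀ k, k < M → p k = Real.exp (s + h)) → (∀ k, M ≤ k → p k = Real.exp s) → 1 ≤ Θ → Θ ^ 2 ≤ 2 →
    Lay89 μ s c θ K h P η κ r T N q bs u (u + (m + 2)) n₁ → r (u + (m + 2)) ≤ Nt →
    (∀ v, u ≤ v → v < u + (m + 1) → K₀ * T v ≤ T (v + 1) ∧ T (v + 1) ≤ b * T v) →
    (∀ v, u ≤ v → v < u + (m + 2) → q v ≤ q₀ * Θ ^ (v - u)) → (∀ i, i ≤ m → Θ ^ (4 * i) ≤ ((T (u + i) : ℝ) / T u) ^ g) →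
    (∀ i, i ≤ m → ∀ x : ℤ, |lt μ s κ r u x| ≤ K₁ * wd μ s (T (u + i)) →
      bh16 μ s h η p M Nt (r u) x ≤ 2 * PM16 (fun a b x z => nk μ s h η p M a (b - a) x z) (bh16 μ s h η p M Nt) (r u) (r (u + (i + 2))) x
        (fun z => |lt μ s κ r (u + (i + 2)) z| ≤ (K - 2) * wd μ s (T (u + (i + 1))) - 1)) →
    (∀ x x' : ℤ, K₁ * wd μ s (T (u + m)) < |lt μ s κ r u x| → |lt μ s κ r u x'| ≤ K₁ * wd μ s (T u) → bh16 μ s h η p M Nt (r u) x ≤
      Real.exp ((Qf + σ * (|lt μ s κ r u x| / wd μ s Tt)) * EE μ s Tt) * bh16 μ s h η p M Nt (r u) x') →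
    Qf * EE μ s Tt ≤ A₁ * (((T (u + m) : ℝ) / T u) ^ g * EE μ s (T (u + m))) →
    σ * (EE μ s Tt / wd μ s Tt) ≤ κ' / 2 * (EE μ s (T u) / wd μ s (T u)) →
    ∀ x x' : ℤ, |lt μ s κ r u x'| ≤ K₁ * wd μ s (T u) → bh16 μ s h η p M Nt (r u) x ≤
      Real.exp ((Q + κ' * (|lt μ s κ r u x| / wd μ s (T u))) * EE μ s (T u)) * bh16 μ s h η p M Nt (r u) x' := by
  obtain ⟨K₀, hK₀, H1⟩ := dd_one89 h0 P (θ := θ) (K := K) hθ
  obtain ⟨g, hg, H2⟩ := dd_model_pow h0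
  refine ⟨g, K₀, hg, hK₀, fun κ' K₁ q₀ A₁ hκ' hK₁ hK hq₀ hA₁ b => ?_⟩
  obtain ⟨A, n₁, hA, hn₁, H1⟩ := H1 K₁ q₀ 0 2 hK₁ hK hq₀ le_rfl (by norm_num) b
  obtain ⟨A', hA'⟩ : ∃ A' : ℝ, A' = A + A₁ := ⟨_, rfl⟩
  have hA'0 : 0 ≤ A' := by rw [hA']; positivity
  obtain ⟨Q, n₂, hQ, hn₂, H2⟩ := H2 κ' A' K₁ hκ' hA'0 hK₁ b
  refine ⟨Q, max n₁ n₂, hQ, hn₁.trans (le_max_left _ _), ?_⟩
  intro h η p M Nt κ r T N q bs u m Tt Θ Qf σ hp hp' hΘ hΘ2 hL hrN hT hq hΘT harm hpush hQf hσ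
  have hpp : ∀ k, 0 < p k := fun k => by
    rcases lt_or_ge k M with h1 | h1
    · rw [hp k h1]; exact Real.exp_pos _
    · rw [hp' k h1]; exact Real.exp_pos _
  have hK1 : 1 ≤ K₀ := by omega
  have hTu : max n₁ n₂ ≤ T u := hL.T1 u le_rfl (by omega)
  have hTu1 : 1 ≤ T u := hn₂.trans ((le_max_right _ _).trans hTu)
  have hmon : ∀ j, j ≤ m → T u ≤ T (u + j) := by
    intro j
    induction j with
    | zero => intro _; exact le_rfl
    | succ j ih =>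
      intro hj
      rw [show u + (j + 1) = u + j + 1 by omega]
      exact (ih (by omega)).trans ((Nat.le_mul_of_pos_left _ hK1).trans (hT (u + j) (by omega) (by omega)).1)
  have hB : ∀ x, 0 ≤ bh16 μ s h η p M Nt (r u) x := fun x => by
    have h1 := wt_pos η (r u) x
    have h2 := Pool.Agent.W_7d29a1_C1.K91P.bw_pos (w := wt η) (wt_pos η) hpp (Nt - r u) (r u) x
    unfold bh16
    positivity
  obtain ⟨x₀, hx₀⟩ : ∃ x₀ : ℝ, x₀ = (κ.2 : ℝ) + sl μ s * ((r u : ℝ) - (κ.1 : ℝ)) := ⟨_, rfl⟩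
  have e0 : ∀ x : ℤ, (x : ℝ) - x₀ = lt μ s κ r u x := fun x => by rw [hx₀, lt_eq]
  have key := H2 (fun v => T (u + v)) m (by
    rw [add_zero]
    exact (le_max_right _ _).trans hTu) (fun v hv => by
    have h1 := hT (u + v) (by omega) (by omega)
    rw [show u + v + 1 = u + (v + 1) by omega] at h1
    exact ⟨(Nat.le_mul_of_pos_left _ hK1).trans h1.1, h1.2⟩) (bh16 μ s h η p M Nt (r u)) x₀ hB
    (fun v hv x x' hx hx' => by
      rw [e0] at hx hx'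
      rw [add_zero] at hx' ⊢
      have h1 := H1 hp hp' hΘ hΘ2 (hL.sub le_rfl (by omega : u + (v + 2) ≤ u + (m + 2)) (le_max_left _ _)) (by
        refine le_trans ?_ hrN
        have := r_mono (r := r) (a := u) (b := u + (m + 2)) hL.rr (m - v) (u + (v + 2)) (by omega) (by omega)
        rwa [show u + (v + 2) + (m - v) = u + (m + 2) by omega] at this)
        (fun w hw hw' => hT w hw (by omega)) (fun w hw hw' => hq w hw (by omega)) 0 (by rw [abs_zero, zero_mul])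
        x x' (by rwa [sub_zero]) (by rwa [sub_zero]) (fun z => |lt μ s κ r (u + (v + 2)) z| ≤ (K - 2) * wd μ s (T (u + (v + 1))) - 1)
        (fun z _ _ hz => by rwa [sub_zero]) (harm v hv x hx)
      refine h1.trans (mul_le_mul_of_nonneg_right (Real.exp_le_exp.2 ?_) (hB _))
      have h2 := mul_le_mul_of_nonneg_right (hΘT v hv) (EE_pos (μ := μ) (s := s) (T (u + v))).le
      have h3 : 0 ≤ ((T (u + v) : ℝ) / T u) ^ g * EE μ s (T (u + v)) := by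
        have := (EE_pos (μ := μ) (s := s) (T (u + v))).le
        positivity
      have h4 := mul_le_mul_of_nonneg_left h2 hA
      have h5 : A * (((T (u + v) : ℝ) / T u) ^ g * EE μ s (T (u + v))) ≤ A' * (((T (u + v) : ℝ) / T u) ^ g * EE μ s (T (u + v))) :=
        mul_le_mul_of_nonneg_right (by rw [hA']; linarith) h3
      exact h4.trans h5)
    (fun x x' hx hx' => by
      rw [e0] at hx hx' ⊢
      rw [add_zero] at hx' ⊢
      refine (hpush x x' hx hx').trans (mul_le_mul_of_nonneg_right (Real.exp_le_exp.2 ?_) (hB _))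
      have h3 : 0 ≤ ((T (u + m) : ℝ) / T u) ^ g * EE μ s (T (u + m)) := by
        have := (EE_pos (μ := μ) (s := s) (T (u + m))).le
        positivity
      have h5 : A₁ * (((T (u + m) : ℝ) / T u) ^ g * EE μ s (T (u + m))) ≤ A' * (((T (u + m) : ℝ) / T u) ^ g * EE μ s (T (u + m))) :=
        mul_le_mul_of_nonneg_right (by rw [hA']; linarith) h3
      have h6 := mul_le_mul_of_nonneg_right hσ (abs_nonneg (lt μ s κ r u x))
      have e1 : (Qf + σ * (|lt μ s κ r u x| / wd μ s Tt)) * EE μ s Tt = Qf * EE μ s Tt + σ * (EE μ s Tt / wd μ s Tt) * |lt μ s κ r u x| := by ring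
      rw [e1]
      linarith only [hQf, h5, h6])
  intro x x' hx'
  have h1 := key x x' (by
    rw [e0, add_zero]
    exact hx')
  rw [e0] at h1
  simp only [add_zero] at h1
  have e2 : (Q + κ' * (|lt μ s κ r u x| / wd μ s (T u))) * EE μ s (T u) = Q * EE μ s (T u) + κ' * (EE μ s (T u) / wd μ s (T u)) * |lt μ s κ r u x| := by
    ring
  rw [e2]
  exact h1

end

end Pool.Agent.W_7d29a1_C1.U16
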