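import Pool.Agent.W_7d29a1_C1.LRB84

/-!
MP_7d29a1_pr, [C1] attractor route, TAME: (D2) FROM THE SCALES WITH AN EXPLICIT CONSTANT. (helper16)

`unit_pow_exp16`: `(n / m) ^ g EE n ≤ (κ wd n / wd m + Cu (1 / κ) ^ p) EE m`. `dd_exp16`: if the places of the window of the scale `T v` are
compared with `F₀` at the cost `A (Φ ^ v EE (T v))`, `Φ ^ v ≤ (T v / T 0) ^ g`, then all places are compared with `F₀` at the cost
`(C' (A / σ) ^ p + σ |x - x₀| / wd (T 0)) EE (T 0)`; `p`, `C'` do not depend on `A`, `σ`, `Φ`.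
-/

set_option autoImplicit false

namespace Pool.Agent.W_7d29a1_C1.U16

open MeasureTheory ProbabilityTheory Filter Topology
open Pool.Agent.W_7d29a1_F Pool.Agent.W_7d29a1_h4g Pool.Agent.W_7d29a1_H Pool.Agent.W_7d29a1_HS
open Pool.Agent.W_7d29a1_C1.FarK89 Pool.Agent.W_7d29a1_C1.DD84

noncomputable section

variable {μ : Measure ℝ} [IsProbabilityMeasure μ] {s c C : ℝ} {n₀ : ℕ}

/-- **The unit is small against the width**, with a power to spare and a polynomial constant. -/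
theorem unit_pow_exp16 (h : In μ s c C n₀) : ∃ (g Cu : ℝ) (p n₁ : ℕ), 0 < g ∧ 1 ≤ Cu ∧ 1 ≤ n₁ ∧ ∀ κ : ℝ, 0 < κ → κ ≤ 1 →
    ∀ m n : ℕ, n₁ ≤ m → m ≤ n → ((n : ℝ) / m) ^ g * EE μ s n ≤ (κ * (wd μ s n / wd μ s m) + Cu * (1 / κ) ^ p) * EE μ s m := by
  obtain ⟨K, a, n₁, hK, ha, hn1, hg⟩ := wd_gain h
  obtain ⟨q, hq⟩ := exists_nat_ge (2 / a)
  obtain ⟨K', hK'⟩ : ∃ K', K' = max K 1 := ⟨_, rfl⟩
  have hK1 : 1 ≤ K' := by rw [hK']; exact le_max_right _ _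
  have hKK : K ≤ K' := by rw [hK']; exact le_max_left _ _
  obtain ⟨g, hgd⟩ : ∃ g : ℝ, g = min (a / 2) 1 := ⟨_, rfl⟩
  have hg0 : 0 < g := by rw [hgd]; exact lt_min (by positivity) one_pos
  have hg1 : g ≤ 1 := by rw [hgd]; exact min_le_right _ _
  have hg2 : g ≤ a / 2 := by rw [hgd]; exact min_le_left _ _
  refine ⟨g, 2 * K' ^ (2 * q), 2 * q, n₁, hg0, ?_, hn1, fun κ hκ hκ1 m n g1 hmn => ?_⟩
  · have : 1 ≤ K' ^ (2 * q) := one_le_pow₀ hK1
    linarith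
  obtain ⟨R, hR⟩ : ∃ R : ℝ, R = (K' / κ) ^ q := ⟨_, rfl⟩
  have hKκ : 1 ≤ K' / κ := by
    rw [one_le_div hκ]
    linarith
  have hR1 : 1 ≤ R := by rw [hR]; exact one_le_pow₀ hKκ
  have hRa : K / κ ≤ R ^ (a / 2) := by
    have h1 : (K' / κ) ^ (2 / a) ≤ R := by
      rw [hR, ← Real.rpow_natCast]
      exact Real.rpow_le_rpow_of_exponent_le hKκ hq
    have h2 := Real.rpow_le_rpow (by positivity) h1 (show 0 ≤ a / 2 by positivity)
    rw [← Real.rpow_mul (by positivity), show 2 / a * (a / 2) = 1 by field_simp, Real.rpow_one] at h2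
    exact (div_le_div_of_nonneg_right hKK hκ.le).trans h2
  have hRe : 2 * K' ^ (2 * q) * (1 / κ) ^ (2 * q) = 2 * R ^ 2 := by
    rw [hR, mul_assoc, ← mul_pow, mul_one_div, ← pow_mul, mul_comm q 2]
  rw [hRe]
  have g3 : 1 ≤ m := hn1.trans g1
  have hm0 : (0 : ℝ) < m := by exact_mod_cast g3
  have hwm := h.wd_pos g3
  have hwn := h.wd_pos (g3.trans hmn)
  have hEm := EE_pos (μ := μ) (s := s) m
  have hEn := EE_pos (μ := μ) (s := s) n
  obtain ⟨x, hx⟩ : ∃ x : ℝ, x = (n : ℝ) / m := ⟨_, rfl⟩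
  have hx1 : 1 ≤ x := by
    rw [hx, le_div_iff₀ hm0, one_mul]
    exact_mod_cast hmn
  have hx0 : 0 < x := by linarith
  have h2 := hg m n g1 hmn
  rw [← hx] at h2 ⊢
  rcases le_total R x with h1 | h1
  · have h3 : K / κ ≤ x ^ (a / 2) := hRa.trans (Real.rpow_le_rpow (by linarith) h1 (by positivity))
    have h4 : x ^ a = x ^ (a / 2) * x ^ (a / 2) := by
      rw [← Real.rpow_add hx0]
      congr 1
      ring
    have h5 : x ^ g ≤ x ^ (a / 2) := Real.rpow_le_rpow_of_exponent_le hx1 hg2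
    have h6 : 0 ≤ EE μ s n * wd μ s m := by positivity
    have h7 : K / κ * (x ^ g * (EE μ s n * wd μ s m)) ≤ K * (EE μ s m * wd μ s n) := by
      refine le_trans ?_ h2
      rw [h4, mul_assoc]
      exact mul_le_mul h3 (mul_le_mul_of_nonneg_right h5 h6) (by positivity) (by positivity)
    have h8 : x ^ g * (EE μ s n * wd μ s m) ≤ κ * (EE μ s m * wd μ s n) := by
      have h9 := mul_le_mul_of_nonneg_left h7 (show 0 ≤ κ / K by positivity)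
      have e1 : κ / K * (K / κ * (x ^ g * (EE μ s n * wd μ s m))) = x ^ g * (EE μ s n * wd μ s m) := by field_simp
      have e2 : κ / K * (K * (EE μ s m * wd μ s n)) = κ * (EE μ s m * wd μ s n) := by field_simp
      rwa [e1, e2] at h9
    have h10 : x ^ g * EE μ s n ≤ κ * (wd μ s n / wd μ s m) * EE μ s m := by
      have e3 : κ * (wd μ s n / wd μ s m) * EE μ s m = κ * (EE μ s m * wd μ s n) / wd μ s m := by ring
      rw [e3, le_div_iff₀ hwm, mul_assoc]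
      exact h8
    have h11 : 0 ≤ 2 * R ^ 2 * EE μ s m := by positivity
    linarith [show (κ * (wd μ s n / wd μ s m) + 2 * R ^ 2) * EE μ s m =
      κ * (wd μ s n / wd μ s m) * EE μ s m + 2 * R ^ 2 * EE μ s m by ring]
  · have h3 := scale_b h g3 hmn
    have h4 : EE μ s n ≤ 2 * R * EE μ s m := by
      have h5 : (n : ℝ) ≤ R * m := by
        rw [hx] at h1
        rwa [div_le_iff₀ hm0] at h1
      have h6 : (m : ℝ) * EE μ s n ≤ m * (2 * R * EE μ s m) := by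
        refine h3.trans ?_
        have := mul_le_mul_of_nonneg_right h5 hEm.le
        linarith [show (m : ℝ) * (2 * R * EE μ s m) = 2 * (R * m * EE μ s m) by ring]
      exact le_of_mul_le_mul_left h6 hm0
    have h5 : x ^ g ≤ R := by
      calc x ^ g ≤ x ^ (1 : ℝ) := Real.rpow_le_rpow_of_exponent_le hx1 hg1
        _ = x := Real.rpow_one _
        _ ≤ R := h1
    have h6 : x ^ g * EE μ s n ≤ R * (2 * R * EE μ s m) := mul_le_mul h5 h4 hEn.le (by linarith)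
    have h7 : 0 ≤ κ * (wd μ s n / wd μ s m) * EE μ s m := by positivity
    linarith [show (κ * (wd μ s n / wd μ s m) + 2 * R ^ 2) * EE μ s m =
      κ * (wd μ s n / wd μ s m) * EE μ s m + R * (2 * R * EE μ s m) by ring]

/-- **(D2) FROM THE SCALES**, polynomial constant. -/
theorem dd_exp16 (h : In μ s c C n₀) : ∃ (g : ℝ) (p : ℕ), 0 < g ∧ ∀ b : ℕ, ∃ (C' : ℝ) (n₁ : ℕ), 1 ≤ C' ∧ 1 ≤ n₁ ∧
    ∀ (T : ℕ → ℕ) (m : ℕ), n₁ ≤ T 0 → (∀ v, v < m → T v ≤ T (v + 1) ∧ T (v + 1) ≤ b * T v) →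
    ∀ K₁ Φ A σ : ℝ, 1 ≤ K₁ → 1 ≤ A → 0 < σ → σ ≤ 1 → (∀ v, v ≤ m → Φ ^ v ≤ ((T v : ℝ) / T 0) ^ g) →
    ∀ (F : ℤ → ℝ) (x₀ F₀ : ℝ), 0 ≤ F₀ →
    (∀ v, v ≤ m → ∀ x : ℤ, |(x : ℝ) - x₀| ≤ K₁ * wd μ s (T v) → F x ≤ Real.exp (A * (Φ ^ v * EE μ s (T v))) * F₀) →
    (∀ x : ℤ, K₁ * wd μ s (T m) < |(x : ℝ) - x₀| →
      F x ≤ Real.exp (A * (Φ ^ m * EE μ s (T m)) + σ / 2 * (EE μ s (T 0) / wd μ s (T 0)) * |(x : ℝ) - x₀|) * F₀) →
    ∀ x : ℤ, F x ≤ Real.exp ((C' * (A / σ) ^ p + σ * (|(x : ℝ) - x₀| / wd μ s (T 0))) * EE μ s (T 0)) * F₀ := by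
  obtain ⟨g, Cu, p, n₂, hg0, hCu, hn2, hu⟩ := unit_pow_exp16 h
  refine ⟨g, p + 1, hg0, fun b => ?_⟩
  obtain ⟨Bw, n₃, hBw, hn3, hw⟩ := wd_next h b
  have hBw0 : 0 < Bw := by linarith
  have hBp : 1 ≤ (2 * Bw) ^ p := one_le_pow₀ (by linarith)
  refine ⟨Cu * (2 * Bw) ^ p + 1, max n₂ n₃, ?_, hn2.trans (le_max_left _ _), ?_⟩
  · have : 0 ≤ Cu * (2 * Bw) ^ p := by positivity
    linarith
  intro T m hT0 hT K₁ Φ A σ hK₁ hA hσ hσ1 hΦ F x₀ F₀ hF₀ hwin hfar x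
  have g2 : n₂ ≤ T 0 := (le_max_left _ _).trans hT0
  have g3 : n₃ ≤ T 0 := (le_max_right _ _).trans hT0
  have hT01 : 1 ≤ T 0 := hn2.trans g2
  have hmon : ∀ v, v ≤ m → T 0 ≤ T v := by
    intro v
    induction v with
    | zero => intro _; exact le_rfl
    | succ v ih => intro hv; exact (ih (by omega)).trans (hT v (by omega)).1
  obtain ⟨E₀, hE₀⟩ : ∃ E₀ : ℝ, E₀ = EE μ s (T 0) := ⟨_, rfl⟩
  obtain ⟨w₀, hw₀⟩ : ∃ w₀ : ℝ, w₀ = wd μ s (T 0) := ⟨_, rfl⟩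
  have hE0 : 0 < E₀ := by rw [hE₀]; exact EE_pos _
  have hw0 : 0 < w₀ := by rw [hw₀]; exact h.wd_pos hT01
  obtain ⟨κ, hκ⟩ : ∃ κ : ℝ, κ = σ / (2 * Bw * A) := ⟨_, rfl⟩
  have hA0 : 0 < A := by linarith
  have hκ0 : 0 < κ := by rw [hκ]; positivity
  have hκ1 : κ ≤ 1 := by
    rw [hκ, div_le_one (by positivity)]
    have h1 : 1 ≤ 2 * Bw * A := one_le_mul_of_one_le_of_one_le (by linarith) hA
    linarith
  have hAκ : A * κ * Bw = σ / 2 := by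
    rw [hκ]
    field_simp
  -- the constant
  obtain ⟨X, hX⟩ : ∃ X : ℝ, X = A / σ := ⟨_, rfl⟩
  have hX1 : 1 ≤ X := by
    rw [hX, one_le_div hσ]
    linarith
  have hAX : A ≤ X := by
    rw [hX, le_div_iff₀ hσ]
    exact mul_le_of_le_one_right hA0.le hσ1
  have hcon : A * (Cu * (1 / κ) ^ p) ≤ Cu * (2 * Bw) ^ p * X ^ (p + 1) := by
    have e1 : 1 / κ = 2 * Bw * X := by
      rw [hκ, hX]
      field_simp
    rw [e1, mul_pow, pow_succ]
    have h1 : 0 ≤ Cu * (2 * Bw) ^ p * X ^ p := by positivity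
    have h2 := mul_le_mul_of_nonneg_left hAX h1
    linarith [show A * (Cu * ((2 * Bw) ^ p * X ^ p)) = Cu * (2 * Bw) ^ p * X ^ p * A by ring,
      show Cu * (2 * Bw) ^ p * (X ^ p * X) = Cu * (2 * Bw) ^ p * X ^ p * X by ring]
  have hXp : X ≤ X ^ (p + 1) := le_self_pow₀ hX1 (by omega)
  -- the growth
  have hgr : ∀ v, v ≤ m → A * (Φ ^ v * EE μ s (T v)) ≤ A * κ * (wd μ s (T v) / w₀) * E₀ + Cu * (2 * Bw) ^ p * X ^ (p + 1) * E₀ := by
    intro v hv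
    have h1 := hu κ hκ0 hκ1 (T 0) (T v) g2 (hmon v hv)
    rw [← hE₀, ← hw₀] at h1
    have h2 : Φ ^ v * EE μ s (T v) ≤ ((T v : ℝ) / T 0) ^ g * EE μ s (T v) := mul_le_mul_of_nonneg_right (hΦ v hv) (EE_pos _).le
    have h3 := mul_le_mul_of_nonneg_left (h2.trans h1) hA0.le
    have h4 := mul_le_mul_of_nonneg_right hcon hE0.le
    linarith [show A * ((κ * (wd μ s (T v) / w₀) + Cu * (1 / κ) ^ p) * E₀) =
      A * κ * (wd μ s (T v) / w₀) * E₀ + A * (Cu * (1 / κ) ^ p) * E₀ by ring]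
  obtain ⟨d, hd⟩ : ∃ d : ℝ, d = |(x : ℝ) - x₀| := ⟨_, rfl⟩
  have hd0 : 0 ≤ d := by rw [hd]; exact abs_nonneg _
  have hfar' := hfar x
  have hwin' : ∀ v, v ≤ m → d ≤ K₁ * wd μ s (T v) → F x ≤ Real.exp (A * (Φ ^ v * EE μ s (T v))) * F₀ := by
    intro v hv hx
    exact hwin v hv x (by rw [← hd]; exact hx)
  rw [← hd, ← hE₀, ← hw₀] at hfar'
  rw [← hd, ← hE₀, ← hw₀, ← hX]
  have hdw : 0 ≤ d / w₀ := by positivity
  have hfin : ∀ t : ℝ, t ≤ σ / 2 * (d / w₀) * E₀ + Cu * (2 * Bw) ^ p * X ^ (p + 1) * E₀ → Real.exp (t + σ / 2 * (d / w₀) * E₀) * F₀ ≤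
      Real.exp (((Cu * (2 * Bw) ^ p + 1) * X ^ (p + 1) + σ * (d / w₀)) * E₀) * F₀ := by
    intro t ht
    refine mul_le_mul_of_nonneg_right (Real.exp_le_exp.2 ?_) hF₀
    have h1 : 0 ≤ X ^ (p + 1) * E₀ := by positivity
    linarith [show ((Cu * (2 * Bw) ^ p + 1) * X ^ (p + 1) + σ * (d / w₀)) * E₀ = Cu * (2 * Bw) ^ p * X ^ (p + 1) * E₀ + X ^ (p + 1) * E₀ +
      (σ / 2 * (d / w₀) * E₀ + σ / 2 * (d / w₀) * E₀) by ring]
  have hpos : 0 ≤ σ / 2 * (d / w₀) * E₀ := by positivity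
  by_cases hlast : K₁ * wd μ s (T m) < d
  · -- beyond the last window
    have h1 := hfar' hlast
    refine h1.trans ?_
    rw [show σ / 2 * (E₀ / w₀) * d = σ / 2 * (d / w₀) * E₀ by ring]
    refine hfin _ ((hgr m le_rfl).trans ?_)
    have h2 : wd μ s (T m) ≤ d := by
      have h3 : wd μ s (T m) ≤ K₁ * wd μ s (T m) := le_mul_of_one_le_left (h.wd_pos (hT01.trans (hmon m le_rfl))).le hK₁
      linarith
    have h3 : A * κ * (wd μ s (T m) / w₀) * E₀ ≤ σ / 2 * (d / w₀) * E₀ := by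
      refine mul_le_mul_of_nonneg_right ?_ hE0.le
      rw [← hAκ]
      have h4 : wd μ s (T m) / w₀ ≤ d / w₀ := div_le_div_of_nonneg_right h2 hw0.le
      have h5 : A * κ ≤ A * κ * Bw := le_mul_of_one_le_right (by positivity) (by linarith)
      exact mul_le_mul h5 h4 (by have := h.wd_pos (hT01.trans (hmon m le_rfl)); positivity) (by positivity)
    linarith
  · rw [not_lt] at hlast
    have hex : ∃ v, d ≤ K₁ * wd μ s (T v) ∧ v ≤ m := ⟨m, hlast, le_rfl⟩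
    classical
    obtain ⟨hv1, hv2⟩ := Nat.find_spec hex
    obtain ⟨v, hv⟩ : ∃ v, v = Nat.find hex := ⟨_, rfl⟩
    rw [← hv] at hv1 hv2
    have h1 := hwin' v hv2 hv1
    refine h1.trans ?_
    have h0 : A * (Φ ^ v * EE μ s (T v)) ≤ σ / 2 * (d / w₀) * E₀ + (Cu * (2 * Bw) ^ p + 1) * X ^ (p + 1) * E₀ := by
      rcases Nat.eq_zero_or_pos v with h2 | h2
      · rw [h2, pow_zero, one_mul, ← hE₀]
        have h3 : A * E₀ ≤ X ^ (p + 1) * E₀ := mul_le_mul_of_nonneg_right (hAX.trans hXp) hE0.le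
        have h4 : 0 ≤ Cu * (2 * Bw) ^ p * X ^ (p + 1) * E₀ := by positivity
        linarith [show (Cu * (2 * Bw) ^ p + 1) * X ^ (p + 1) * E₀ = Cu * (2 * Bw) ^ p * X ^ (p + 1) * E₀ + X ^ (p + 1) * E₀ by ring]
      · have h3 : K₁ * wd μ s (T (v - 1)) < d := by
          by_contra hcon2
          rw [not_lt] at hcon2
          have := Nat.find_min hex (m := v - 1) (by omega)
          exact this ⟨hcon2, by omega⟩
        have h4 : wd μ s (T v) ≤ Bw * wd μ s (T (v - 1)) := by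
          have h5 := hT (v - 1) (by omega)
          rw [show v - 1 + 1 = v by omega] at h5
          exact hw _ _ (g3.trans (hmon (v - 1) (by omega))) h5.1 h5.2
        have hwv := h.wd_pos (hT01.trans (hmon (v - 1) (by omega)))
        have h5 : wd μ s (T v) ≤ Bw * d := by
          refine h4.trans (mul_le_mul_of_nonneg_left ?_ hBw0.le)
          have h6 : wd μ s (T (v - 1)) ≤ K₁ * wd μ s (T (v - 1)) := le_mul_of_one_le_left hwv.le hK₁
          linarith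
        have h6 : A * κ * (wd μ s (T v) / w₀) * E₀ ≤ σ / 2 * (d / w₀) * E₀ := by
          refine mul_le_mul_of_nonneg_right ?_ hE0.le
          rw [← hAκ]
          have h7 : wd μ s (T v) / w₀ ≤ Bw * d / w₀ := div_le_div_of_nonneg_right h5 hw0.le
          have h8 := mul_le_mul_of_nonneg_left h7 (show 0 ≤ A * κ by positivity)
          linarith [show A * κ * (Bw * d / w₀) = A * κ * Bw * (d / w₀) by ring]
        have h7 := hgr v hv2
        have h8 : 0 ≤ X ^ (p + 1) * E₀ := by positivity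
        linarith [show (Cu * (2 * Bw) ^ p + 1) * X ^ (p + 1) * E₀ = Cu * (2 * Bw) ^ p * X ^ (p + 1) * E₀ + X ^ (p + 1) * E₀ by ring]
    refine mul_le_mul_of_nonneg_right (Real.exp_le_exp.2 ?_) hF₀
    linarith [show ((Cu * (2 * Bw) ^ p + 1) * X ^ (p + 1) + σ * (d / w₀)) * E₀ = (Cu * (2 * Bw) ^ p + 1) * X ^ (p + 1) * E₀ +
      (σ / 2 * (d / w₀) * E₀ + σ / 2 * (d / w₀) * E₀) by ring]

/-- **(D2) FROM THE SCALES**, polynomial constant, the growth `(T v / T 0) ^ g`. -/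
theorem dd_expg16 (h : In μ s c C n₀) : ∃ (g : ℝ) (p : ℕ), 0 < g ∧ ∀ b : ℕ, ∃ (C' : ℝ) (n₁ : ℕ), 1 ≤ C' ∧ 1 ≤ n₁ ∧
    ∀ (T : ℕ → ℕ) (m : ℕ), n₁ ≤ T 0 → (∀ v, v < m → T v ≤ T (v + 1) ∧ T (v + 1) ≤ b * T v) →
    ∀ K₁ A σ : ℝ, 1 ≤ K₁ → 1 ≤ A → 0 < σ → σ ≤ 1 →
    ∀ (F : ℤ → ℝ) (x₀ F₀ : ℝ), 0 ≤ F₀ →
    (∀ v, v ≤ m → ∀ x : ℤ, |(x : ℝ) - x₀| ≤ K₁ * wd μ s (T v) → F x ≤ Real.exp (A * (((T v : ℝ) / T 0) ^ g * EE μ s (T v))) * F₀) →
    (∀ x : ℤ, K₁ * wd μ s (T m) < |(x : ℝ) - x₀| →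
      F x ≤ Real.exp (A * (((T m : ℝ) / T 0) ^ g * EE μ s (T m)) + σ / 2 * (EE μ s (T 0) / wd μ s (T 0)) * |(x : ℝ) - x₀|) * F₀) →
    ∀ x : ℤ, F x ≤ Real.exp ((C' * (A / σ) ^ p + σ * (|(x : ℝ) - x₀| / wd μ s (T 0))) * EE μ s (T 0)) * F₀ := by
  obtain ⟨g, Cu, p, n₂, hg0, hCu, hn2, hu⟩ := unit_pow_exp16 h
  refine ⟨g, p + 1, hg0, fun b => ?_⟩
  obtain ⟨Bw, n₃, hBw, hn3, hw⟩ := wd_next h b
  have hBw0 : 0 < Bw := by linarith
  have hBp : 1 ≤ (2 * Bw) ^ p := one_le_pow₀ (by linarith)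
  refine ⟨Cu * (2 * Bw) ^ p + 1, max n₂ n₃, ?_, hn2.trans (le_max_left _ _), ?_⟩
  · have : 0 ≤ Cu * (2 * Bw) ^ p := by positivity
    linarith
  intro T m hT0 hT K₁ A σ hK₁ hA hσ hσ1 F x₀ F₀ hF₀ hwin hfar x
  have g2 : n₂ ≤ T 0 := (le_max_left _ _).trans hT0
  have g3 : n₃ ≤ T 0 := (le_max_right _ _).trans hT0
  have hT01 : 1 ≤ T 0 := hn2.trans g2
  have hmon : ∀ v, v ≤ m → T 0 ≤ T v := by
    intro v
    induction v with
    | zero => intro _; exact le_rfl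
    | succ v ih => intro hv; exact (ih (by omega)).trans (hT v (by omega)).1
  obtain ⟨E₀, hE₀⟩ : ∃ E₀ : ℝ, E₀ = EE μ s (T 0) := ⟨_, rfl⟩
  obtain ⟨w₀, hw₀⟩ : ∃ w₀ : ℝ, w₀ = wd μ s (T 0) := ⟨_, rfl⟩
  have hE0 : 0 < E₀ := by rw [hE₀]; exact EE_pos _
  have hw0 : 0 < w₀ := by rw [hw₀]; exact h.wd_pos hT01
  obtain ⟨κ, hκ⟩ : ∃ κ : ℝ, κ = σ / (2 * Bw * A) := ⟨_, rfl⟩
  have hA0 : 0 < A := by linarith
  have hκ0 : 0 < κ := by rw [hκ]; positivity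
  have hκ1 : κ ≤ 1 := by
    rw [hκ, div_le_one (by positivity)]
    have h1 : 1 ≤ 2 * Bw * A := one_le_mul_of_one_le_of_one_le (by linarith) hA
    linarith
  have hAκ : A * κ * Bw = σ / 2 := by
    rw [hκ]
    field_simp
  -- the constant
  obtain ⟨X, hX⟩ : ∃ X : ℝ, X = A / σ := ⟨_, rfl⟩
  have hX1 : 1 ≤ X := by
    rw [hX, one_le_div hσ]
    linarith
  have hAX : A ≤ X := by
    rw [hX, le_div_iff₀ hσ]
    exact mul_le_of_le_one_right hA0.le hσ1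
  have hcon : A * (Cu * (1 / κ) ^ p) ≤ Cu * (2 * Bw) ^ p * X ^ (p + 1) := by
    have e1 : 1 / κ = 2 * Bw * X := by
      rw [hκ, hX]
      field_simp
    rw [e1, mul_pow, pow_succ]
    have h1 : 0 ≤ Cu * (2 * Bw) ^ p * X ^ p := by positivity
    have h2 := mul_le_mul_of_nonneg_left hAX h1
    linarith [show A * (Cu * ((2 * Bw) ^ p * X ^ p)) = Cu * (2 * Bw) ^ p * X ^ p * A by ring,
      show Cu * (2 * Bw) ^ p * (X ^ p * X) = Cu * (2 * Bw) ^ p * X ^ p * X by ring]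
  have hXp : X ≤ X ^ (p + 1) := le_self_pow₀ hX1 (by omega)
  -- the growth
  have hgr : ∀ v, v ≤ m → A * (((T v : ℝ) / T 0) ^ g * EE μ s (T v)) ≤ A * κ * (wd μ s (T v) / w₀) * E₀ + Cu * (2 * Bw) ^ p * X ^ (p + 1) * E₀ := by
    intro v hv
    have h1 := hu κ hκ0 hκ1 (T 0) (T v) g2 (hmon v hv)
    rw [← hE₀, ← hw₀] at h1
    have h3 := mul_le_mul_of_nonneg_left h1 hA0.le
    have h4 := mul_le_mul_of_nonneg_right hcon hE0.le
    linarith [show A * ((κ * (wd μ s (T v) / w₀) + Cu * (1 / κ) ^ p) * E₀) =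
      A * κ * (wd μ s (T v) / w₀) * E₀ + A * (Cu * (1 / κ) ^ p) * E₀ by ring]
  obtain ⟨d, hd⟩ : ∃ d : ℝ, d = |(x : ℝ) - x₀| := ⟨_, rfl⟩
  have hd0 : 0 ≤ d := by rw [hd]; exact abs_nonneg _
  have hfar' := hfar x
  have hwin' : ∀ v, v ≤ m → d ≤ K₁ * wd μ s (T v) → F x ≤ Real.exp (A * (((T v : ℝ) / T 0) ^ g * EE μ s (T v))) * F₀ := by
    intro v hv hx
    exact hwin v hv x (by rw [← hd]; exact hx)
  rw [← hd, ← hE₀, ← hw₀] at hfar'
  rw [← hd, ← hE₀, ← hw₀, ← hX]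
  have hdw : 0 ≤ d / w₀ := by positivity
  have hfin : ∀ t : ℝ, t ≤ σ / 2 * (d / w₀) * E₀ + Cu * (2 * Bw) ^ p * X ^ (p + 1) * E₀ → Real.exp (t + σ / 2 * (d / w₀) * E₀) * F₀ ≤
      Real.exp (((Cu * (2 * Bw) ^ p + 1) * X ^ (p + 1) + σ * (d / w₀)) * E₀) * F₀ := by
    intro t ht
    refine mul_le_mul_of_nonneg_right (Real.exp_le_exp.2 ?_) hF₀
    have h1 : 0 ≤ X ^ (p + 1) * E₀ := by positivity
    linarith [show ((Cu * (2 * Bw) ^ p + 1) * X ^ (p + 1) + σ * (d / w₀)) * E₀ = Cu * (2 * Bw) ^ p * X ^ (p + 1) * E₀ + X ^ (p + 1) * E₀ +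
      (σ / 2 * (d / w₀) * E₀ + σ / 2 * (d / w₀) * E₀) by ring]
  have hpos : 0 ≤ σ / 2 * (d / w₀) * E₀ := by positivity
  by_cases hlast : K₁ * wd μ s (T m) < d
  · -- beyond the last window
    have h1 := hfar' hlast
    refine h1.trans ?_
    rw [show σ / 2 * (E₀ / w₀) * d = σ / 2 * (d / w₀) * E₀ by ring]
    refine hfin _ ((hgr m le_rfl).trans ?_)
    have h2 : wd μ s (T m) ≤ d := by
      have h3 : wd μ s (T m) ≤ K₁ * wd μ s (T m) := le_mul_of_one_le_left (h.wd_pos (hT01.trans (hmon m le_rfl))).le hK₁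
      linarith
    have h3 : A * κ * (wd μ s (T m) / w₀) * E₀ ≤ σ / 2 * (d / w₀) * E₀ := by
      refine mul_le_mul_of_nonneg_right ?_ hE0.le
      rw [← hAκ]
      have h4 : wd μ s (T m) / w₀ ≤ d / w₀ := div_le_div_of_nonneg_right h2 hw0.le
      have h5 : A * κ ≤ A * κ * Bw := le_mul_of_one_le_right (by positivity) (by linarith)
      exact mul_le_mul h5 h4 (by have := h.wd_pos (hT01.trans (hmon m le_rfl)); positivity) (by positivity)
    linarith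
  · rw [not_lt] at hlast
    have hex : ∃ v, d ≤ K₁ * wd μ s (T v) ∧ v ≤ m := ⟨m, hlast, le_rfl⟩
    classical
    obtain ⟨hv1, hv2⟩ := Nat.find_spec hex
    obtain ⟨v, hv⟩ : ∃ v, v = Nat.find hex := ⟨_, rfl⟩
    rw [← hv] at hv1 hv2
    have h1 := hwin' v hv2 hv1
    refine h1.trans ?_
    have h0 : A * (((T v : ℝ) / T 0) ^ g * EE μ s (T v)) ≤ σ / 2 * (d / w₀) * E₀ + (Cu * (2 * Bw) ^ p + 1) * X ^ (p + 1) * E₀ := by
      rcases Nat.eq_zero_or_pos v with h2 | h2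
      · have hT00 : (0 : ℝ) < T 0 := by exact_mod_cast hT01
        rw [h2, div_self hT00.ne', Real.one_rpow, one_mul, ← hE₀]
        have h3 : A * E₀ ≤ X ^ (p + 1) * E₀ := mul_le_mul_of_nonneg_right (hAX.trans hXp) hE0.le
        have h4 : 0 ≤ Cu * (2 * Bw) ^ p * X ^ (p + 1) * E₀ := by positivity
        linarith [show (Cu * (2 * Bw) ^ p + 1) * X ^ (p + 1) * E₀ = Cu * (2 * Bw) ^ p * X ^ (p + 1) * E₀ + X ^ (p + 1) * E₀ by ring]
      · have h3 : K₁ * wd μ s (T (v - 1)) < d := by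
          by_contra hcon2
          rw [not_lt] at hcon2
          have := Nat.find_min hex (m := v - 1) (by omega)
          exact this ⟨hcon2, by omega⟩
        have h4 : wd μ s (T v) ≤ Bw * wd μ s (T (v - 1)) := by
          have h5 := hT (v - 1) (by omega)
          rw [show v - 1 + 1 = v by omega] at h5
          exact hw _ _ (g3.trans (hmon (v - 1) (by omega))) h5.1 h5.2
        have hwv := h.wd_pos (hT01.trans (hmon (v - 1) (by omega)))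
        have h5 : wd μ s (T v) ≤ Bw * d := by
          refine h4.trans (mul_le_mul_of_nonneg_left ?_ hBw0.le)
          have h6 : wd μ s (T (v - 1)) ≤ K₁ * wd μ s (T (v - 1)) := le_mul_of_one_le_left hwv.le hK₁
          linarith
        have h6 : A * κ * (wd μ s (T v) / w₀) * E₀ ≤ σ / 2 * (d / w₀) * E₀ := by
          refine mul_le_mul_of_nonneg_right ?_ hE0.le
          rw [← hAκ]
          have h7 : wd μ s (T v) / w₀ ≤ Bw * d / w₀ := div_le_div_of_nonneg_right h5 hw0.le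
          have h8 := mul_le_mul_of_nonneg_left h7 (show 0 ≤ A * κ by positivity)
          linarith [show A * κ * (Bw * d / w₀) = A * κ * Bw * (d / w₀) by ring]
        have h7 := hgr v hv2
        have h8 : 0 ≤ X ^ (p + 1) * E₀ := by positivity
        linarith [show (Cu * (2 * Bw) ^ p + 1) * X ^ (p + 1) * E₀ = Cu * (2 * Bw) ^ p * X ^ (p + 1) * E₀ + X ^ (p + 1) * E₀ by ring]
    refine mul_le_mul_of_nonneg_right (Real.exp_le_exp.2 ?_) hF₀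
    linarith [show ((Cu * (2 * Bw) ^ p + 1) * X ^ (p + 1) + σ * (d / w₀)) * E₀ = (Cu * (2 * Bw) ^ p + 1) * X ^ (p + 1) * E₀ +
      (σ / 2 * (d / w₀) * E₀ + σ / 2 * (d / w₀) * E₀) by ring]

end

end Pool.Agent.W_7d29a1_C1.U16
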