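import Pool.Agent.W_7d29a1_C1.LrL16
import Pool.Agent.W_7d29a1_C1.ArmD88
import Pool.Agent.W_7d29a1_C1.DDE16

/-!
MP_7d29a1_pr, [C1] attractor route, TAME: (D2) AT THE FIRST CUT OF A TOWER WHICH IS NOT FELT. (helper16)

The layers `f, .., f + m - 1` above the row `r f`; heights `T v` (`Far16`, steep levels; levels `q v ≤ q₀ Θ ^ (v - f)`), labels `Tn v ≤ T v`
(nodes: `Cn * nu ≤ Δ + k`, centres within `C₀ ρ ^ (Δ + k)` units of the line).  `d2_tower16`: **the masses of any two places of the row `r f`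
are comparable at the cost `(Q₀ ((1 + q₀) ^ 4 β ^ Δ / σ) ^ pw + σ |lt x| / wd (T f)) EE (T f)`**, `gw`, `pw` from `In` only, `B₂ ≤ β ^ Cn`.
Beyond the window `m₁` (`m₁ + 3 < m`) the comparison may cost `(T (f + m₁) / T f) ^ gw` units `EE (T (f + m₁))`.
-/

set_option autoImplicit false

namespace Pool.Agent.W_7d29a1_C1.U16

open MeasureTheory ProbabilityTheory Filter Topology Finset
open Pool.Agent.W_7d29a1_F Pool.Agent.W_7d29a1_h4g Pool.Agent.W_7d29a1_H Pool.Agent.W_7d29a1_HS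
open Pool.Agent.W_7d29a1_C1.H75 Pool.Agent.W_7d29a1_C1.FarK89 Pool.Agent.W_7d29a1_C1.FarW89
open Pool.Agent.W_7d29a1_C1.DD84 Pool.Agent.W_7d29a1_C1.SysN89 Pool.Agent.W_7d29a1_C1.LrN89
open Pool.Agent.W_7d29a1_C1.H94 (nu Cs94)
open Pool.Agent.W_7d29a1_C1.ArmD88 (arm88)

noncomputable section

variable {μ : Measure ℝ} {s c C : ℝ} {n₀ : ℕ}

/-- **The cone**: `2 ^ (x + J) wd T ≤ δ T` for `T ≥ n₁ K ^ x`. -/
theorem cone16 [IsProbabilityMeasure μ] (h0 : In μ s c C n₀) : ∃ Kc : ℕ, 2 ≤ Kc ∧ ∀ δ : ℝ, 0 < δ → ∀ J : ℕ, ∃ n₁ : ℕ, 1 ≤ n₁ ∧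
    ∀ T x : ℕ, n₁ * Kc ^ x ≤ T → 2 ^ (x + J) * wd μ s T ≤ δ * T := by
  obtain ⟨g, B, m₁, hg, hg3, hB, hm₁, H⟩ := Pool.Agent.W_7d29a1_HL.wd_pow_le h0
  obtain ⟨Kc, hKc⟩ := exists_nat_ge (max 2 ((2 : ℝ) ^ (1 / g)))
  have hKc2 : 2 ≤ Kc := by exact_mod_cast (le_max_left _ _).trans hKc
  have hKc0 : (0 : ℝ) < Kc := by exact_mod_cast (by omega : 0 < Kc)
  have hKg : 2 ≤ (Kc : ℝ) ^ g := by
    have h1 := Real.rpow_le_rpow (by positivity) ((le_max_right _ _).trans hKc) hg.le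
    rwa [← Real.rpow_mul (by norm_num), one_div, inv_mul_cancel₀ hg.ne', Real.rpow_one] at h1
  refine ⟨Kc, hKc2, fun δ hδ J => ?_⟩
  obtain ⟨Cw, hCw⟩ : ∃ Cw : ℝ, Cw = B * wd μ s m₁ := ⟨_, rfl⟩
  have hwm := h0.wd_pos hm₁
  have hCw0 : 0 < Cw := by rw [hCw]; positivity
  obtain ⟨n₂, hn₂⟩ := exists_nat_ge ((2 ^ J * Cw / δ) ^ (1 / g))
  have hm0 : (0 : ℝ) < m₁ := by exact_mod_cast hm₁
  refine ⟨max m₁ n₂, hm₁.trans (le_max_left _ _), fun T x hT => ?_⟩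
  have hK1 : 1 ≤ Kc ^ x := Nat.one_le_pow _ _ (by omega)
  have hTm : m₁ ≤ T := ((le_max_left _ _).trans (Nat.le_mul_of_pos_right _ hK1)).trans hT
  have hT0 : (0 : ℝ) < T := by exact_mod_cast hm₁.trans hTm
  have h1 := H m₁ T le_rfl hTm
  have h2 : ((T : ℝ) / m₁) ^ (1 - g) ≤ (T : ℝ) ^ (1 - g) := by
    refine Real.rpow_le_rpow (by positivity) ?_ (by linarith only [hg3])
    exact div_le_self hT0.le (by exact_mod_cast hm₁)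
  have h3 : wd μ s T ≤ Cw * (T : ℝ) ^ (1 - g) := by
    rw [hCw]
    calc wd μ s T ≤ B * ((T : ℝ) / m₁) ^ (1 - g) * wd μ s m₁ := h1
      _ ≤ B * (T : ℝ) ^ (1 - g) * wd μ s m₁ := mul_le_mul_of_nonneg_right (mul_le_mul_of_nonneg_left h2 (by linarith only [hB])) hwm.le
      _ = _ := by ring
  -- T ^ g is large
  have h4 : 2 ^ (x + J) * Cw ≤ δ * (T : ℝ) ^ g := by
    have e1 : ((n₂ : ℝ) * (Kc : ℝ) ^ x) ≤ T := by
      have : n₂ * Kc ^ x ≤ T := (Nat.mul_le_mul_right _ (le_max_right _ _)).trans hT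
      exact_mod_cast this
    have e2 := Real.rpow_le_rpow (by positivity) e1 hg.le
    rw [Real.mul_rpow (by positivity) (by positivity)] at e2
    have e3 : 2 ^ J * Cw / δ ≤ (n₂ : ℝ) ^ g := by
      have e4 := Real.rpow_le_rpow (by positivity) hn₂ hg.le
      rwa [← Real.rpow_mul (by positivity), one_div, inv_mul_cancel₀ hg.ne', Real.rpow_one] at e4
    have e5 : (2 : ℝ) ^ x ≤ ((Kc : ℝ) ^ x) ^ g := by
      rw [← Real.rpow_natCast (Kc : ℝ) x, ← Real.rpow_mul hKc0.le, mul_comm, Real.rpow_mul hKc0.le, Real.rpow_natCast]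
      exact pow_le_pow_left₀ (by norm_num) hKg x
    have e6 : 2 ^ J * Cw / δ * 2 ^ x ≤ (T : ℝ) ^ g := (mul_le_mul e3 e5 (by positivity) (by positivity)).trans e2
    have e7 := mul_le_mul_of_nonneg_left e6 hδ.le
    have e8 : δ * (2 ^ J * Cw / δ * 2 ^ x) = 2 ^ (x + J) * Cw := by
      rw [pow_add]
      field_simp
    rwa [e8] at e7
  have h5 : (T : ℝ) ^ g * (T : ℝ) ^ (1 - g) = T := by
    rw [← Real.rpow_add hT0, show g + (1 - g) = 1 by ring, Real.rpow_one]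
  calc 2 ^ (x + J) * wd μ s T ≤ 2 ^ (x + J) * (Cw * (T : ℝ) ^ (1 - g)) := mul_le_mul_of_nonneg_left h3 (by positivity)
    _ = 2 ^ (x + J) * Cw * (T : ℝ) ^ (1 - g) := by ring
    _ ≤ δ * (T : ℝ) ^ g * (T : ℝ) ^ (1 - g) := mul_le_mul_of_nonneg_right h4 (by positivity)
    _ = δ * ((T : ℝ) ^ g * (T : ℝ) ^ (1 - g)) := by ring
    _ = δ * T := by rw [h5]

/-- The scales of a tower grow. -/
theorem tow_grow16 {T : ℕ → ℕ} {f m K : ℕ} (hT : ∀ v, f ≤ v → v + 1 < f + m → K * T v ≤ T (v + 1)) :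
    ∀ i, i < m → K ^ i * T f ≤ T (f + i) := by
  intro i
  induction i with
  | zero => intro _; simp
  | succ i ih =>
    intro hi
    have h1 := ih (by omega)
    have h2 := hT (f + i) (by omega) (by omega)
    calc K ^ (i + 1) * T f = K * (K ^ i * T f) := by rw [pow_succ]; ring
      _ ≤ K * T (f + i) := Nat.mul_le_mul_left _ h1
      _ ≤ T (f + i + 1) := h2

/-- A level of a node which is not felt, seen from the step `j`. -/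
theorem node_lev16 {Cn Δ k j a : ℕ} (hCn : 1 ≤ Cn) (h : Cn * a ≤ Δ + k) : a ≤ ((k : ℤ) - j).natAbs + ((Δ + j) / Cn + 2) := by
  by_contra hcon
  obtain ⟨d, hd⟩ : ∃ d, d = ((k : ℤ) - j).natAbs := ⟨_, rfl⟩
  have hdk : k ≤ j + d := by omega
  rw [← hd] at hcon
  have h1 : d + ((Δ + j) / Cn + 2) + 1 ≤ a := by omega
  have h2 := Nat.mul_le_mul_left Cn h1
  have h3 := Nat.div_add_mod (Δ + j) Cn
  have h4 := Nat.mod_lt (Δ + j) (show 0 < Cn by omega)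
  have h5 : d ≤ Cn * d := Nat.le_mul_of_pos_left _ (by omega)
  have h6 : Cn * (d + ((Δ + j) / Cn + 2) + 1) = Cn * d + Cn * ((Δ + j) / Cn) + 3 * Cn := by ring
  omega

/-- The cost of the steep levels of a node which is not felt. -/
theorem steep_lev16 {B₂ β : ℝ} {Cn x : ℕ} (hB₂ : 0 ≤ B₂) (hβ : 1 ≤ β) (hBβ : B₂ ≤ β ^ Cn) : B₂ ^ (x / Cn) ≤ β ^ x := by
  calc B₂ ^ (x / Cn) ≤ (β ^ Cn) ^ (x / Cn) := pow_le_pow_left₀ hB₂ hBβ _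
    _ = β ^ (Cn * (x / Cn)) := by rw [pow_mul]
    _ ≤ β ^ x := pow_le_pow_right₀ hβ (Nat.mul_div_le _ _)

/-- **The hypothesis on the centres.** -/
theorem cenF16 {Cn Δ k i ρ R : ℕ} {C₀ K₁ wk wi a x : ℝ} (hCn : 1 ≤ Cn) (hρ : 1 ≤ ρ) (hρR : ρ ^ Cn ≤ R) (hC₀ : 0 ≤ C₀) (hK₁ : 0 ≤ K₁)
    (hR : C₀ + K₁ ≤ R) (hwk : 0 ≤ wk) (hw : wi ≤ (R : ℝ) ^ (i + 1 - k) * wk)
    (ha : |a| ≤ C₀ * (ρ : ℝ) ^ (Δ + k) * wk) (hx : |x| ≤ K₁ * wi) :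
    |a - x| ≤ (R : ℝ) ^ (((k : ℤ) - (i + 3 : ℕ)).natAbs + ((Δ + (i + 3)) / Cn + 2)) * wk := by
  obtain ⟨e, he⟩ : ∃ e, e = ((k : ℤ) - (i + 3 : ℕ)).natAbs + (Δ + (i + 3)) / Cn + 1 := ⟨_, rfl⟩
  have hR1 : 1 ≤ R := (Nat.one_le_pow _ _ (by omega)).trans hρR
  have hR1' : (1 : ℝ) ≤ R := by exact_mod_cast hR1
  have hρ1 : (1 : ℝ) ≤ ρ := by exact_mod_cast hρ
  have hcn : Δ + k ≤ Cn * e := by
    obtain ⟨d, hd⟩ : ∃ d, d = ((k : ℤ) - (i + 3 : ℕ)).natAbs := ⟨_, rfl⟩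
    have hdk : k ≤ (i + 3) + d := by omega
    rw [he, ← hd]
    have h3 := Nat.div_add_mod (Δ + (i + 3)) Cn
    have h4 := Nat.mod_lt (Δ + (i + 3)) (show 0 < Cn by omega)
    have h5 : d ≤ Cn * d := Nat.le_mul_of_pos_left _ (by omega)
    have h6 : Cn * (d + (Δ + (i + 3)) / Cn + 1) = Cn * d + Cn * ((Δ + (i + 3)) / Cn) + Cn := by ring
    omega
  have h1 : (ρ : ℝ) ^ (Δ + k) ≤ (R : ℝ) ^ e := by
    calc (ρ : ℝ) ^ (Δ + k) ≤ (ρ : ℝ) ^ (Cn * e) := pow_le_pow_right₀ hρ1 hcn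
      _ = ((ρ : ℝ) ^ Cn) ^ e := by rw [pow_mul]
      _ ≤ (R : ℝ) ^ e := pow_le_pow_left₀ (by positivity) (by exact_mod_cast hρR) e
  have hie : i + 1 - k ≤ e := by
    rw [he]
    generalize (Δ + (i + 3)) / Cn = y
    omega
  have h2 : (R : ℝ) ^ (i + 1 - k) ≤ (R : ℝ) ^ e := pow_le_pow_right₀ hR1' hie
  have h3 : C₀ * (ρ : ℝ) ^ (Δ + k) * wk ≤ C₀ * (R : ℝ) ^ e * wk :=
    mul_le_mul_of_nonneg_right (mul_le_mul_of_nonneg_left h1 hC₀) hwk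
  have h4 : K₁ * wi ≤ K₁ * ((R : ℝ) ^ e * wk) :=
    mul_le_mul_of_nonneg_left (hw.trans (mul_le_mul_of_nonneg_right h2 hwk)) hK₁
  have h5 : (C₀ + K₁) * ((R : ℝ) ^ e * wk) ≤ R * ((R : ℝ) ^ e * wk) := mul_le_mul_of_nonneg_right hR (by positivity)
  have h6 := abs_sub a x
  have h7 : (R : ℝ) ^ (((k : ℤ) - (i + 3 : ℕ)).natAbs + ((Δ + (i + 3)) / Cn + 2)) = (R : ℝ) ^ e * R := by
    rw [← pow_succ, he]
    congr 1
  rw [h7]
  linarith only [ha, hx, h3, h4, h5, h6]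

variable [IsProbabilityMeasure μ]

/-- **ONE WINDOW OF A TOWER WHICH IS NOT FELT**: a place of the window of the scale `T (f + i)` against a place of the inner window. -/
theorem win_tower16 (h0 : In μ s c C n₀) {θn : ℝ} (hθn : 0 < θn) (K0 : ℕ) {Bn : ℕ} (hBn : 1 ≤ Bn) : ∃ K₂ : ℕ, 2 ≤ K₂ ∧
    ∀ (b kT : ℕ) (K₁ C₀ : ℝ), 1 ≤ K₁ → 0 ≤ C₀ → ∃ Rm : ℝ, ∀ (P : ℕ) {θ K B₂ : ℝ}, 0 < θ → 4 ≤ K → 2 ≤ B₂ → ∀ Y Bp δ : ℝ, 8 ≤ Y → 2 ≤ Bp →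
    0 < δ → δ ≤ θ * sl μ s → δ ≤ θ * (1 - sl μ s) → ∃ (A₁ : ℝ) (n₁ : ℕ), 1 ≤ A₁ ∧ 1 ≤ n₁ ∧
    ∀ {c₀ δ₁ c₁ A aa g Y₁ : ℝ} {Kb n₃ : ℕ}, Cs94 μ s c₀ δ₁ c₁ A aa g θn Y₁ K0 Kb n₃ → 4 * b * Bn ≤ Kb → 8 * Y₁ ≤ Y → 64 ≤ c₁ * Y →
    ∀ {q₀ β : ℝ} {Cn R ρ : ℕ}, 0 ≤ q₀ → 1 ≤ β → β ≤ 2 → 1 ≤ Cn → B₂ ≤ β ^ Cn → 1 ≤ ρ → ρ ^ Cn ≤ R → Rm ≤ R →
    ∀ {h : ℝ} {η : Env} {p : ℕ → ℝ} {M Nt : ℕ} {Bm : ℕ → ℤ → ℝ}, Sys16 (fun a b x z => nk μ s h η p M a (b - a) x z) Bm Nt →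
    (∀ k, k < M → p k = Real.exp (s + h)) → (∀ k, M ≤ k → p k = Real.exp s) →
    ∀ {κ : Pt} {r T Tn N : ℕ → ℕ} {q : ℕ → ℝ} {bs : ℕ → Pt} {w : ℕ → ℤ} {be : ℕ → ℝ} {f m m₁ Δ : ℕ} {Θ B₁ : ℝ} {xc : ℕ → ℤ},
    1 ≤ Θ → Θ ^ 2 ≤ 2 → m₁ + 3 < m → Lay89 μ s c θ K h P η κ r T N q bs f (f + m) n₁ →
    StL89 μ s B₁ B₂ δ η κ r T q w be (f + 1) (f + (m₁ + 2)) → 2 * Bp ≤ B₁ → r (f + m) ≤ Nt → (M ≤ r f ∨ r (f + m) ≤ M) →
    (Nt : ℝ) + 1 ≤ Real.exp (EE μ s (Tn f)) →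
    (∀ v, f ≤ v → v + 1 < f + m → K₂ * T v ≤ T (v + 1) ∧ T (v + 1) ≤ b * T v) →
    (∀ v, f ≤ v → v + 1 < f + m → K₂ * Tn v ≤ Tn (v + 1) ∧ Tn (v + 1) ≤ b * Tn v) →
    (∀ v, f ≤ v → v < f + m → Tn v ≤ T v ∧ T v ≤ kT * Tn v) → (∀ v, f ≤ v → v < f + m → n₁ ≤ Tn v ∧ Bn * n₃ ≤ Tn v) →
    (∀ v, f ≤ v → v < f + m → r (v + 1) ≤ r v + Tn v ∧ Tn v ≤ Bn * (r (v + 1) - r v)) → n₁ * K₂ ^ Δ ≤ T f →
    (∀ v, f ≤ v → v < f + m → q v ≤ q₀ * Θ ^ (v - f)) →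
    (∀ k, 1 ≤ k → k < m → Cn * nu μ s c₀ δ₁ Y (wd μ s (Tn (f + (k - 1)))) (wd μ s (Tn (f + k)) / wd μ s (Tn (f + (k - 1)))) R
      (r (f + (k - 1)) : ℤ) (r (f + k) - r (f + (k - 1))) (r (f + (k + 1)) - r (f + k)) (xc k) η ≤ Δ + k) →
    (∀ k, 1 ≤ k → k < m → |lt μ s κ r (f + k) (xc k)| ≤ C₀ * (ρ : ℝ) ^ (Δ + k) * wd μ s (Tn (f + (k - 1)))) →
    (∀ x : ℤ, |lt μ s κ r f x| ≤ K₁ * wd μ s (T (f + m₁)) →
      16 * (((r (f + m) - r f : ℕ) : ℝ) * PM16 (fun a b x z => nk μ s h η p M a (b - a) x z) Bm (r f) (r (f + m)) x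
        (fun z => 4 ^ (m - (m₁ + 3)) * wd μ s (Tn (f + (m - 1))) ≤ |lt μ s κ r (f + m) z - lt μ s κ r f x|)) ≤ Bm (r f) x) →
    ∀ i, i ≤ m₁ → ∀ x x' : ℤ, |lt μ s κ r f x| ≤ K₁ * wd μ s (T (f + i)) → |lt μ s κ r f x'| ≤ K₁ * wd μ s (T f) →
      Bm (r f) x ≤ Real.exp (A₁ * ((1 + q₀) ^ 4 * β ^ Δ) * ((β * Θ ^ 4) ^ i * EE μ s (T (f + i)))) * Bm (r f) x' := by
  obtain ⟨K₀, hK₀, HL⟩ := Pool.Agent.W_7d29a1_C1.LrK16.lr_oneK16 h0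
  obtain ⟨K1, n₄, hK1, HA⟩ := arm88 h0 hθn K0 hBn
  obtain ⟨Kc, hKc, HC⟩ := cone16 h0
  obtain ⟨Ks, n₅, hKs, hn₅, HS⟩ := scale_num h0
  obtain ⟨aE, n₆, haE, -, hn₆, HE⟩ := Pool.Agent.W_7d29a1_HL.EE_pow h0
  obtain ⟨K₂, hK₂⟩ : ∃ K₂ : ℕ, K₂ = max (max K₀ K1) (max (max Kc Ks) Bn) := ⟨_, rfl⟩
  have k0 : K₀ ≤ K₂ := by rw [hK₂]; exact (le_max_left _ _).trans (le_max_left _ _)
  have k1 : K1 ≤ K₂ := by rw [hK₂]; exact (le_max_right _ _).trans (le_max_left _ _)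
  have kc : Kc ≤ K₂ := by rw [hK₂]; exact ((le_max_left _ _).trans (le_max_left _ _)).trans (le_max_right _ _)
  have ks : Ks ≤ K₂ := by rw [hK₂]; exact ((le_max_right _ _).trans (le_max_left _ _)).trans (le_max_right _ _)
  have kB : Bn ≤ K₂ := by rw [hK₂]; exact (le_max_right _ _).trans (le_max_right _ _)
  refine ⟨K₂, hK₀.trans k0, ?_⟩
  intro b kT K₁ C₀ hK₁ hC₀
  obtain ⟨Bw, n₈, hBw, hn₈, HW⟩ := wd_next h0 b
  obtain ⟨Bk, n₉, hBk, hn₉, HK⟩ := wd_next h0 kT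
  obtain ⟨Rm, hRm⟩ : ∃ Rm : ℝ, Rm = max Bw (C₀ + K₁ * Bk) := ⟨_, rfl⟩
  refine ⟨Rm, ?_⟩
  intro P θ K B₂ hθ hK hB₂ Y Bp δ hY hBp hδ hδ1 hδ2
  obtain ⟨A₀, j₀, n₂, hA₀, hn₂, HL⟩ := HL P hθ hK hB₂ K₁ 0 (2 * Y) Bp hK₁ le_rfl (by linarith only [hY]) hBp b
  obtain ⟨n₇, hn₇, HC⟩ := HC δ hδ (5 + j₀)
  obtain ⟨n₁, hn₁⟩ : ∃ n₁ : ℕ, n₁ = max (max (max n₂ n₄) (max n₅ n₆)) (max n₇ (max n₈ n₉)) := ⟨_, rfl⟩
  have l2 : n₂ ≤ n₁ := by rw [hn₁]; exact ((le_max_left _ _).trans (le_max_left _ _)).trans (le_max_left _ _)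
  have l4 : n₄ ≤ n₁ := by rw [hn₁]; exact ((le_max_right _ _).trans (le_max_left _ _)).trans (le_max_left _ _)
  have l5 : n₅ ≤ n₁ := by rw [hn₁]; exact ((le_max_left _ _).trans (le_max_right _ _)).trans (le_max_left _ _)
  have l6 : n₆ ≤ n₁ := by rw [hn₁]; exact ((le_max_right _ _).trans (le_max_right _ _)).trans (le_max_left _ _)
  have l7 : n₇ ≤ n₁ := by rw [hn₁]; exact (le_max_left _ _).trans (le_max_right _ _)
  have l8 : n₈ ≤ n₁ := by rw [hn₁]; exact ((le_max_left _ _).trans (le_max_right _ _)).trans (le_max_right _ _)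
  have l9 : n₉ ≤ n₁ := by rw [hn₁]; exact ((le_max_right _ _).trans (le_max_right _ _)).trans (le_max_right _ _)
  have hB₂0 : 0 < B₂ := by linarith only [hB₂]
  have hA₁ : 0 ≤ 8 * B₂ ^ 3 * A₀ := by positivity
  refine ⟨8 * B₂ ^ 3 * A₀ + 1, n₁, by linarith only [hA₁], hn₂.trans l2, ?_⟩
  intro c₀ δ₁ c₁ A aa g Y₁ Kb n₃ hCs hKb hYY hcY q₀ β Cn R ρ hq₀ hβ hβ2 hCn hBβ hρ hρR hRmR h η p M Nt Bm S hp hp' κ r T Tn N q bs w be f m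
    m₁ Δ Θ B₁ xc hΘ hΘ2 hm₁ hL hSt hBpB hrN hM hN hT hTn hTT hbig hrn hΔ hq hnu hxc htop i hi x x' hx hx'
  -- numbers of the tower
  have hTg := tow_grow16 (T := T) (f := f) (m := m) (K := K₂) fun v h1 h2 => (hT v h1 h2).1
  have hTng := tow_grow16 (T := Tn) (f := f) (m := m) (K := K₂) fun v h1 h2 => (hTn v h1 h2).1
  have hK₂2 : 2 ≤ K₂ := hK₀.trans k0
  have hbigT : ∀ v, f ≤ v → v < f + m → n₁ ≤ T v := fun v h1 h2 => (hbig v h1 h2).1.trans (hTT v h1 h2).1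
  have hn₁1 : 1 ≤ n₁ := hn₂.trans l2
  have hwT0 : ∀ v, f ≤ v → v < f + m → 0 < wd μ s (T v) := fun v h1 h2 => h0.wd_pos (hn₁1.trans (hbigT v h1 h2))
  have hwn0 : ∀ v, f ≤ v → v < f + m → 0 < wd μ s (Tn v) := fun v h1 h2 => h0.wd_pos (hn₁1.trans (hbig v h1 h2).1)
  have hwTm : ∀ v, f ≤ v → v + 1 < f + m → wd μ s (T v) ≤ wd μ s (T (v + 1)) := fun v h1 h2 =>
    (HS _ _ (l5.trans (hbigT v h1 (by omega))) ((Nat.mul_le_mul_right _ ks).trans (hT v h1 h2).1)).1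
  have hwnm : ∀ v, f ≤ v → v + 1 < f + m → wd μ s (Tn v) ≤ wd μ s (Tn (v + 1)) := fun v h1 h2 =>
    (HS _ _ (l5.trans (hbig v h1 (by omega)).1) ((Nat.mul_le_mul_right _ ks).trans (hTn v h1 h2).1)).1
  have hwTm' : ∀ d v, f ≤ v → v + d < f + m → wd μ s (T v) ≤ wd μ s (T (v + d)) := by
    intro d
    induction d with
    | zero => intro v _ _; exact le_rfl
    | succ d ih => intro v h1 h2; exact (ih v h1 (by omega)).trans (hwTm (v + d) (by omega) (by omega))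
  have hwnB : ∀ v, f ≤ v → v + 1 < f + m → wd μ s (Tn (v + 1)) ≤ R * wd μ s (Tn v) := fun v h1 h2 => by
    have h3 := hTn v h1 h2
    have h4 := HW (Tn v) (Tn (v + 1)) (l8.trans (hbig v h1 (by omega)).1)
      ((Nat.le_mul_of_pos_left _ (by omega : 0 < K₂)).trans h3.1) h3.2
    have h5 : Bw ≤ R := ((le_max_left _ _).trans_eq hRm.symm).trans hRmR
    exact h4.trans (mul_le_mul_of_nonneg_right h5 (hwn0 v h1 (by omega)).le)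
  have hR1 : 1 ≤ R := (Nat.one_le_pow _ _ (by omega)).trans hρR
  have hR1' : (1 : ℝ) ≤ R := by exact_mod_cast hR1
  -- the width of the label `f + i` against the label `f + (k - 1)`
  have hwnR : ∀ d v, f ≤ v → v + d < f + m → wd μ s (Tn (v + d)) ≤ (R : ℝ) ^ d * wd μ s (Tn v) := by
    intro d
    induction d with
    | zero => intro v _ _; rw [pow_zero, one_mul, Nat.add_zero]
    | succ d ih =>
      intro v h1 h2
      have h3 := ih v h1 (by omega)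
      have h4 := hwnB (v + d) (by omega) (by omega)
      calc wd μ s (Tn (v + (d + 1))) ≤ R * wd μ s (Tn (v + d)) := h4
        _ ≤ R * ((R : ℝ) ^ d * wd μ s (Tn v)) := mul_le_mul_of_nonneg_left h3 (by linarith only [hR1'])
        _ = _ := by rw [pow_succ]; ring
  have hwnm' : ∀ d v, f ≤ v → v + d < f + m → wd μ s (Tn v) ≤ wd μ s (Tn (v + d)) := by
    intro d
    induction d with
    | zero => intro v _ _; exact le_rfl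
    | succ d ih => intro v h1 h2; exact (ih v h1 (by omega)).trans (hwnm (v + d) (by omega) (by omega))
  have hwik : ∀ k, 1 ≤ k → k < m → wd μ s (Tn (f + i)) ≤ (R : ℝ) ^ (i + 1 - k) * wd μ s (Tn (f + (k - 1))) := by
    intro k hk1 hkm
    rcases Nat.lt_or_ge i (k - 1) with h5 | h5
    · have h6 := hwnm' (k - 1 - i) (f + i) (by omega) (by omega)
      rw [show f + i + (k - 1 - i) = f + (k - 1) by omega] at h6
      rw [show i + 1 - k = 0 by omega, pow_zero, one_mul]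
      exact h6
    · have h6 := hwnR (i + 1 - k) (f + (k - 1)) (by omega) (by omega)
      rw [show f + (k - 1) + (i + 1 - k) = f + i by omega] at h6
      exact h6
  have hxn : |lt μ s κ r f x| ≤ K₁ * Bk * wd μ s (Tn (f + i)) := by
    have h1 := hTT (f + i) (by omega) (by omega)
    have h2 := HK (Tn (f + i)) (T (f + i)) (l9.trans (hbig (f + i) (by omega) (by omega)).1) h1.1 h1.2
    have h3 := mul_le_mul_of_nonneg_left h2 (show 0 ≤ K₁ by linarith only [hK₁])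
    linarith only [hx, h3]
  -- the arms
  obtain ⟨j, hj⟩ : ∃ j : ℕ, j = (Δ + (i + 3)) / Cn + 3 := ⟨_, rfl⟩
  obtain ⟨Z, hZ⟩ : ∃ Z : ℝ, Z = 2 ^ j * Y := ⟨_, rfl⟩
  have hY0 : 0 < Y := by linarith only [hY]
  have h2j : (1 : ℝ) ≤ 2 ^ j := one_le_pow₀ (by norm_num)
  have hZY : Y ≤ Z := by
    rw [hZ]
    exact le_mul_of_one_le_left hY0.le h2j
  have hZ1 : 1 ≤ Z := by linarith only [hZY, hY]
  have hrr := hL.rr
  have hr0 : ∀ a b, f ≤ a → a ≤ b → b ≤ f + m → r a ≤ r b := by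
    intro a b' h1 h2 h3
    have := r_mono (r := r) (a := f) (b := f + m) hrr (b' - a) a h1 (by omega)
    rwa [show a + (b' - a) = b' by omega] at this
  have hc₁ := hCs.c₁0
  have hEf := one_le_EE (μ := μ) (s := s) (Tn f)
  have hnum : 16 * (((r (f + m) - r f : ℕ) : ℝ) * Real.exp (-(c₁ * (Z / 8 * EE μ s (r (f + (i + 3)) - r f))))) ≤ 1 := by
    have h1 : Tn f ≤ r (f + (i + 3)) - r f := by
      have h2 := (hrn (f + (i + 2)) (by omega) (by omega)).2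
      have h3 := hTng (i + 2) (by omega)
      have h4 : Bn ≤ K₂ ^ (i + 2) := kB.trans (Nat.le_self_pow (by omega) K₂)
      have h5 : Bn * Tn f ≤ Bn * (r (f + (i + 2) + 1) - r (f + (i + 2))) := ((Nat.mul_le_mul_right _ h4).trans h3).trans h2
      have h6 : Tn f ≤ r (f + (i + 2) + 1) - r (f + (i + 2)) := Nat.le_of_mul_le_mul_left h5 (by omega)
      have h7 := hr0 f (f + (i + 2)) le_rfl (by omega) (by omega)
      rw [show f + (i + 2) + 1 = f + (i + 3) by omega] at h6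
      omega
    have h2 := HE (Tn f) _ (l6.trans (hbig f le_rfl (by omega)).1) h1
    have hTf0 : (0 : ℝ) < Tn f := by exact_mod_cast hn₁1.trans (hbig f le_rfl (by omega)).1
    have h3 : (1 : ℝ) ≤ (((r (f + (i + 3)) - r f : ℕ) : ℝ) / Tn f) ^ aE := by
      refine Real.one_le_rpow ?_ haE.le
      rw [one_le_div hTf0]
      exact_mod_cast h1
    have h4 : EE μ s (Tn f) ≤ 2 * EE μ s (r (f + (i + 3)) - r f) := by
      have := mul_le_mul_of_nonneg_right h3 (show 0 ≤ EE μ s (Tn f) by linarith only [hEf])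
      linarith only [this, h2]
    have h5 : 4 * EE μ s (Tn f) ≤ c₁ * (Z / 8 * EE μ s (r (f + (i + 3)) - r f)) := by
      have h6 : 64 ≤ c₁ * Z := hcY.trans (mul_le_mul_of_nonneg_left hZY hc₁.le)
      have h7 := mul_le_mul_of_nonneg_left h4 (show 0 ≤ c₁ * Z by positivity)
      have h8 := mul_le_mul_of_nonneg_right h6 (show 0 ≤ EE μ s (Tn f) by linarith only [hEf])
      have e1 : c₁ * (Z / 8 * EE μ s (r (f + (i + 3)) - r f)) = c₁ * Z * EE μ s (r (f + (i + 3)) - r f) / 8 := by ring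
      rw [e1]
      linarith only [h7, h8]
    have h6 : ((r (f + m) - r f : ℕ) : ℝ) ≤ Real.exp (EE μ s (Tn f)) := by
      have : ((r (f + m) - r f : ℕ) : ℝ) ≤ Nt := by exact_mod_cast (Nat.sub_le _ _).trans hrN
      linarith only [this, hN]
    have h7 : Real.exp (-(c₁ * (Z / 8 * EE μ s (r (f + (i + 3)) - r f)))) ≤ Real.exp (-(4 * EE μ s (Tn f))) :=
      Real.exp_le_exp.2 (neg_le_neg h5)
    have h8 : Real.exp (-(3 : ℝ)) ≤ 1 / 16 := by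
      rw [Real.exp_neg, one_div]
      refine inv_anti₀ (by norm_num) ?_
      have e1 : Real.exp 3 = Real.exp 1 ^ 3 := by
        rw [← Real.exp_nat_mul]
        norm_num
      rw [e1]
      have e2 := Real.exp_one_gt_d9
      have e3 : (2.7 : ℝ) ^ 3 ≤ Real.exp 1 ^ 3 := pow_le_pow_left₀ (by norm_num) (by linarith only [e2]) 3
      have e4 : (16 : ℝ) ≤ 2.7 ^ 3 := by norm_num
      linarith only [e3, e4]
    calc 16 * (((r (f + m) - r f : ℕ) : ℝ) * Real.exp (-(c₁ * (Z / 8 * EE μ s (r (f + (i + 3)) - r f)))))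
        ≤ 16 * (Real.exp (EE μ s (Tn f)) * Real.exp (-(4 * EE μ s (Tn f)))) := by
          refine mul_le_mul_of_nonneg_left (mul_le_mul h6 h7 (Real.exp_pos _).le (Real.exp_pos _).le) (by norm_num)
      _ = 16 * Real.exp (-(3 * EE μ s (Tn f))) := by
          rw [← Real.exp_add]
          congr 2
          ring
      _ ≤ 16 * Real.exp (-(3 : ℝ)) := mul_le_mul_of_nonneg_left (Real.exp_le_exp.2 (by linarith only [hEf])) (by norm_num)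
      _ ≤ 1 := by linarith only [h8]
  have hwm1 := hwn0 (f + (m - 1)) (by omega) (by omega)
  have htop' : 16 * (((r (f + m) - r f : ℕ) : ℝ) * PM16 (fun a b x z => nk μ s h η p M a (b - a) x z) Bm (r f) (r (f + m)) x
      (fun z => 4 ^ (m - (i + 3)) * (Z * wd μ s (Tn (f + (m - 1)))) ≤ |lt μ s κ r (f + m) z - lt μ s κ r f x|)) ≤ Bm (r f) x := by
    have hxm : |lt μ s κ r f x| ≤ K₁ * wd μ s (T (f + m₁)) := by
      have h1 := hwTm' (m₁ - i) (f + i) (by omega) (by omega)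
      rw [show f + i + (m₁ - i) = f + m₁ by omega] at h1
      exact hx.trans (mul_le_mul_of_nonneg_left h1 (by linarith only [hK₁]))
    refine le_trans (mul_le_mul_of_nonneg_left (mul_le_mul_of_nonneg_left ?_ (Nat.cast_nonneg _)) (by norm_num)) (htop x hxm)
    refine PM16_mono S hrN x fun z _ _ hz => le_trans ?_ hz
    have h1 : (4 : ℝ) ^ (m - (m₁ + 3)) ≤ 4 ^ (m - (i + 3)) := pow_le_pow_right₀ (by norm_num) (by omega)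
    have h2 : wd μ s (Tn (f + (m - 1))) ≤ Z * wd μ s (Tn (f + (m - 1))) := le_mul_of_one_le_left hwm1.le hZ1
    exact mul_le_mul h1 h2 hwm1.le (by positivity)
  have harm := HA hCs b hKb S hp hp' (κ := κ) (r := r) (T := Tn) (u := f) (m := m) (j := i + 3) (by omega) (by omega)
    (fun k hk => by
      rw [show f + (k + 1) = f + k + 1 by omega]
      exact ⟨hrr (f + k) (by omega) (by omega), (hrn (f + k) (by omega) (by omega)).1⟩)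
    (fun k hk => by
      rw [show f + (k + 1) = f + k + 1 by omega]
      exact (hrn (f + k) (by omega) (by omega)).2)
    (fun k hk => ⟨l4.trans (hbig (f + k) (by omega) (by omega)).1, (hbig (f + k) (by omega) (by omega)).2⟩)
    (fun k hk => by
      rw [show f + (k + 1) = f + k + 1 by omega]
      have h1 := hTn (f + k) (by omega) (by omega)
      exact ⟨(Nat.mul_le_mul_right _ k1).trans h1.1, h1.2⟩) hrN
    (fun k hk1 hk2 => by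
      rcases hM with h1 | h1
      · exact Or.inr (h1.trans (hr0 f (f + (k - 1)) le_rfl (by omega) (by omega)))
      · exact Or.inl ((hr0 (f + (k + 1)) (f + m) (by omega) (by omega) le_rfl).trans h1))
    (x := x) (xc := xc) (R := R) (Y := Y) (Z := Z) (l0 := (Δ + (i + 3)) / Cn + 2) hR1 hY hYY
    (by rw [hZ, hj])
    (fun k hk1 hk2 => node_lev16 hCn (hnu k hk1 hk2))
    (fun k hk1 hk2 => cenF16 hCn hρ hρR hC₀ (show 0 ≤ K₁ * Bk by positivity) (((le_max_right _ _).trans_eq hRm.symm).trans hRmR)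
      (hwn0 (f + (k - 1)) (by omega) (by omega)).le (hwik k hk1 hk2) (hxc k hk1 hk2) hxn)
    hnum htop'
  -- the step
  have hcone : 2 ^ (j + j₀) * wd μ s (T (f + (i + 1))) ≤ δ * T (f + (i + 1)) := by
    have h1 : n₇ * Kc ^ (Δ + (i + 1)) ≤ T (f + (i + 1)) := by
      have h2 := hTg (i + 1) (by omega)
      calc n₇ * Kc ^ (Δ + (i + 1)) ≤ n₁ * K₂ ^ (Δ + (i + 1)) := Nat.mul_le_mul l7 (Nat.pow_le_pow_left kc _)
        _ = K₂ ^ (i + 1) * (n₁ * K₂ ^ Δ) := by rw [pow_add]; ring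
        _ ≤ K₂ ^ (i + 1) * T f := Nat.mul_le_mul_left _ hΔ
        _ ≤ _ := h2
    have h3 := HC _ _ h1
    have h4 : (Δ + (i + 3)) / Cn ≤ Δ + (i + 3) := Nat.div_le_self _ _
    have h5 : (2 : ℝ) ^ (j + j₀) ≤ 2 ^ (Δ + (i + 1) + (5 + j₀)) := pow_le_pow_right₀ (by norm_num) (by omega)
    refine (mul_le_mul_of_nonneg_right h5 (hwT0 _ (by omega) (by omega)).le).trans h3
  have hBj : 1 ≤ Bp ^ j := one_le_pow₀ (by linarith only [hBp])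
  have hwi := hwT0 (f + i) (by omega) (by omega)
  have hwfi : wd μ s (T f) ≤ wd μ s (T (f + i)) := hwTm' i f le_rfl (by omega)
  have hxj : K₁ * wd μ s (T (f + i)) ≤ K₁ * (Bp ^ j * wd μ s (T (f + i))) :=
    mul_le_mul_of_nonneg_left (le_mul_of_one_le_left hwi.le hBj) (by linarith only [hK₁])
  have hxf : K₁ * wd μ s (T f) ≤ K₁ * wd μ s (T (f + i)) := mul_le_mul_of_nonneg_left hwfi (by linarith only [hK₁])
  have key := HL q₀ hq₀ S hp hp' hΘ hΘ2 (hL.sub le_rfl (by omega : f + (i + 3) ≤ f + m) l2)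
    ((hr0 (f + (i + 3)) (f + m) (by omega) (by omega) le_rfl).trans hrN)
    (fun v h1 h2 => ⟨(Nat.mul_le_mul_right _ k0).trans (hT v h1 (by omega)).1, (hT v h1 (by omega)).2⟩)
    (fun v h1 h2 => hq v h1 (by omega)) hBpB hδ1 hδ2 (hSt.sub (by omega : f + 1 ≤ f + (i + 1)) (by omega : f + (i + 2) ≤ f + (m₁ + 2)))
    (by
      rcases hM with h1 | h1
      · exact Or.inr (h1.trans (hr0 f (f + (i + 1)) le_rfl (by omega) (by omega)))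
      · exact Or.inl ((hr0 (f + (i + 2)) (f + m) (by omega) (by omega) le_rfl).trans h1))
    j hcone 0 (by rw [abs_zero, zero_mul]) x x' (by rw [sub_zero]; exact hx.trans hxj)
    (by rw [sub_zero]; exact hx'.trans (hxf.trans hxj)) (by
      have h1 := abs_sub (lt μ s κ r f x) (lt μ s κ r f x')
      rw [lt_eq, lt_eq, sub_sub_sub_cancel_right] at h1
      rw [lt_eq] at hx hx'
      linarith only [h1, hx, hx', hxf])
    (fun z => |lt μ s κ r (f + (i + 3)) z - lt μ s κ r f x| < Z * wd μ s (Tn (f + (i + 3 - 1))))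
    (fun z _ _ hz => by
      rw [show i + 3 - 1 = i + 2 by omega] at hz
      have h1 := hTT (f + (i + 2)) (by omega) (by omega)
      have h2 := wd_le_two h0 (hn₁1.trans (hbig (f + (i + 2)) (by omega) (by omega)).1) h1.1
      have h3 := mul_le_mul_of_nonneg_left h2 (show 0 ≤ Z by linarith only [hZ1])
      rw [hZ] at hz h3
      linarith only [hz, h3]) harm
  have hB0 : 0 ≤ Bm (r f) x' := (S.b0 _ _ ((hr0 f (f + m) le_rfl (by omega) le_rfl).trans hrN)).le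
  refine key.trans (mul_le_mul_of_nonneg_right (Real.exp_le_exp.2 ?_) hB0)
  have hEi := EE_pos (μ := μ) (s := s) (T (f + i))
  have hβ0 : 0 < β := by linarith only [hβ]
  have hc1 : B₂ ^ j * Θ ^ (4 * i) ≤ 8 * B₂ ^ 3 * (β ^ Δ * (β * Θ ^ 4) ^ i) := by
    have h1 : B₂ ^ ((Δ + (i + 3)) / Cn) ≤ β ^ (Δ + (i + 3)) := steep_lev16 hB₂0.le hβ hBβ
    have h2 : β ^ 3 ≤ 8 := by
      have := pow_le_pow_left₀ hβ0.le hβ2 3
      linarith only [this, show (2 : ℝ) ^ 3 = 8 by norm_num]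
    have h3 : B₂ ^ j ≤ B₂ ^ 3 * (β ^ Δ * β ^ i * 8) := by
      rw [hj, pow_add, mul_comm]
      refine mul_le_mul_of_nonneg_left (h1.trans ?_) (by positivity)
      rw [pow_add, pow_add, ← mul_assoc]
      exact mul_le_mul_of_nonneg_left h2 (by positivity)
    have hΘ0 : 0 < Θ := by linarith only [hΘ]
    calc B₂ ^ j * Θ ^ (4 * i) ≤ B₂ ^ 3 * (β ^ Δ * β ^ i * 8) * Θ ^ (4 * i) := mul_le_mul_of_nonneg_right h3 (by positivity)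
      _ = _ := by rw [mul_pow, ← pow_mul]; ring
  have hΘ0 : 0 < Θ := by linarith only [hΘ]
  have h1 : A₀ * (1 + q₀) ^ 4 * (B₂ ^ j * Θ ^ (4 * i) * EE μ s (T (f + i))) ≤
      A₀ * (1 + q₀) ^ 4 * (8 * B₂ ^ 3 * (β ^ Δ * (β * Θ ^ 4) ^ i) * EE μ s (T (f + i))) :=
    mul_le_mul_of_nonneg_left (mul_le_mul_of_nonneg_right hc1 hEi.le) (by positivity)
  have h2 : 0 ≤ (1 + q₀) ^ 4 * β ^ Δ * ((β * Θ ^ 4) ^ i * EE μ s (T (f + i))) := by positivity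
  have e1 : (8 * B₂ ^ 3 * A₀ + 1) * ((1 + q₀) ^ 4 * β ^ Δ) * ((β * Θ ^ 4) ^ i * EE μ s (T (f + i))) =
      A₀ * (1 + q₀) ^ 4 * (8 * B₂ ^ 3 * (β ^ Δ * (β * Θ ^ 4) ^ i) * EE μ s (T (f + i))) +
        (1 + q₀) ^ 4 * β ^ Δ * ((β * Θ ^ 4) ^ i * EE μ s (T (f + i))) := by ring
  rw [e1]
  linarith only [h1, h2]

/-- **(D2) AT THE FIRST CUT OF A TOWER WHICH IS NOT FELT.** -/
theorem d2_tower16 (h0 : In μ s c C n₀) : ∃ (gw : ℝ) (pw : ℕ), 0 < gw ∧ ∀ {θn : ℝ}, 0 < θn → ∀ (K0 : ℕ) {Bn : ℕ}, 1 ≤ Bn → ∃ K₂ : ℕ, 2 ≤ K₂ ∧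
    ∀ (b kT : ℕ) (K₁ C₀ : ℝ), 1 ≤ K₁ → 0 ≤ C₀ → ∃ Rm : ℝ, ∀ (P : ℕ) {θ K B₂ : ℝ}, 0 < θ → 4 ≤ K → 2 ≤ B₂ → ∀ Y Bp δ : ℝ, 8 ≤ Y → 2 ≤ Bp →
    0 < δ → δ ≤ θ * sl μ s → δ ≤ θ * (1 - sl μ s) → ∃ (Q₀ : ℝ) (n₁ : ℕ), 1 ≤ Q₀ ∧ 1 ≤ n₁ ∧
    ∀ {c₀ δ₁ c₁ A aa g Y₁ : ℝ} {Kb n₃ : ℕ}, Cs94 μ s c₀ δ₁ c₁ A aa g θn Y₁ K0 Kb n₃ → 4 * b * Bn ≤ Kb → 8 * Y₁ ≤ Y → 64 ≤ c₁ * Y →
    ∀ {q₀ β σ : ℝ} {Cn R ρ : ℕ}, 0 ≤ q₀ → 1 ≤ β → β ≤ 2 → 0 < σ → σ ≤ 1 → 1 ≤ Cn → B₂ ≤ β ^ Cn → 1 ≤ ρ → ρ ^ Cn ≤ R → Rm ≤ R →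
    ∀ {h : ℝ} {η : Env} {p : ℕ → ℝ} {M Nt : ℕ} {Bm : ℕ → ℤ → ℝ}, Sys16 (fun a b x z => nk μ s h η p M a (b - a) x z) Bm Nt →
    (∀ k, k < M → p k = Real.exp (s + h)) → (∀ k, M ≤ k → p k = Real.exp s) →
    ∀ {κ : Pt} {r T Tn N : ℕ → ℕ} {q : ℕ → ℝ} {bs : ℕ → Pt} {w : ℕ → ℤ} {be : ℕ → ℝ} {f m m₁ Δ : ℕ} {Θ B₁ : ℝ} {xc : ℕ → ℤ},
    1 ≤ Θ → Θ ^ 2 ≤ 2 → m₁ + 3 < m → Lay89 μ s c θ K h P η κ r T N q bs f (f + m) n₁ →
    StL89 μ s B₁ B₂ δ η κ r T q w be (f + 1) (f + (m₁ + 2)) → 2 * Bp ≤ B₁ → r (f + m) ≤ Nt → (M ≤ r f ∨ r (f + m) ≤ M) →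
    (Nt : ℝ) + 1 ≤ Real.exp (EE μ s (Tn f)) →
    (∀ v, f ≤ v → v + 1 < f + m → K₂ * T v ≤ T (v + 1) ∧ T (v + 1) ≤ b * T v) →
    (∀ v, f ≤ v → v + 1 < f + m → K₂ * Tn v ≤ Tn (v + 1) ∧ Tn (v + 1) ≤ b * Tn v) →
    (∀ v, f ≤ v → v < f + m → Tn v ≤ T v ∧ T v ≤ kT * Tn v) → (∀ v, f ≤ v → v < f + m → n₁ ≤ Tn v ∧ Bn * n₃ ≤ Tn v) →
    (∀ v, f ≤ v → v < f + m → r (v + 1) ≤ r v + Tn v ∧ Tn v ≤ Bn * (r (v + 1) - r v)) → n₁ * K₂ ^ Δ ≤ T f →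
    (∀ v, f ≤ v → v < f + m → q v ≤ q₀ * Θ ^ (v - f)) →
    (∀ k, 1 ≤ k → k < m → Cn * nu μ s c₀ δ₁ Y (wd μ s (Tn (f + (k - 1)))) (wd μ s (Tn (f + k)) / wd μ s (Tn (f + (k - 1)))) R
      (r (f + (k - 1)) : ℤ) (r (f + k) - r (f + (k - 1))) (r (f + (k + 1)) - r (f + k)) (xc k) η ≤ Δ + k) →
    (∀ k, 1 ≤ k → k < m → |lt μ s κ r (f + k) (xc k)| ≤ C₀ * (ρ : ℝ) ^ (Δ + k) * wd μ s (Tn (f + (k - 1)))) →
    (∀ x : ℤ, |lt μ s κ r f x| ≤ K₁ * wd μ s (T (f + m₁)) →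
      16 * (((r (f + m) - r f : ℕ) : ℝ) * PM16 (fun a b x z => nk μ s h η p M a (b - a) x z) Bm (r f) (r (f + m)) x
        (fun z => 4 ^ (m - (m₁ + 3)) * wd μ s (Tn (f + (m - 1))) ≤ |lt μ s κ r (f + m) z - lt μ s κ r f x|)) ≤ Bm (r f) x) →
    (∀ x x' : ℤ, K₁ * wd μ s (T (f + m₁)) < |lt μ s κ r f x| → |lt μ s κ r f x'| ≤ K₁ * wd μ s (T f) → Bm (r f) x ≤
      Real.exp (((T (f + m₁) : ℝ) / T f) ^ gw * EE μ s (T (f + m₁)) + σ / 2 * (EE μ s (T f) / wd μ s (T f)) * |lt μ s κ r f x|) *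
        Bm (r f) x') →
    ∀ x x' : ℤ, |lt μ s κ r f x'| ≤ K₁ * wd μ s (T f) → Bm (r f) x ≤
      Real.exp ((Q₀ * ((1 + q₀) ^ 4 * β ^ Δ / σ) ^ pw + σ * (|lt μ s κ r f x| / wd μ s (T f))) * EE μ s (T f)) * Bm (r f) x' := by
  obtain ⟨g, pw, hg, HD⟩ := dd_expg16 h0
  obtain ⟨Kg, hKg⟩ := exists_nat_ge ((8 : ℝ) ^ (1 / g))
  refine ⟨g, pw, hg, fun {θn} hθn K0 {Bn} hBn => ?_⟩
  obtain ⟨K₃, hK₃, HW⟩ := win_tower16 h0 hθn K0 hBn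
  obtain ⟨K₂, hK₂⟩ : ∃ K₂ : ℕ, K₂ = max K₃ Kg := ⟨_, rfl⟩
  have k3 : K₃ ≤ K₂ := by rw [hK₂]; exact le_max_left _ _
  have kg : Kg ≤ K₂ := by rw [hK₂]; exact le_max_right _ _
  refine ⟨K₂, hK₃.trans k3, ?_⟩
  intro b kT K₁ C₀ hK₁ hC₀
  obtain ⟨Rm, HW⟩ := HW b kT K₁ C₀ hK₁ hC₀
  refine ⟨Rm, fun P {θ K B₂} hθ hK hB₂ Y Bp δ hY hBp hδ hδ1 hδ2 => ?_⟩
  obtain ⟨A₁, n₂, hA₁, hn₂, HW⟩ := HW P hθ hK hB₂ Y Bp δ hY hBp hδ hδ1 hδ2
  obtain ⟨C', n₃', hC', hn₃', HD⟩ := HD b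
  have hA₁p : 1 ≤ A₁ ^ pw := one_le_pow₀ hA₁
  refine ⟨C' * A₁ ^ pw, max n₂ n₃', one_le_mul_of_one_le_of_one_le hC' hA₁p, hn₂.trans (le_max_left _ _), ?_⟩
  intro c₀ δ₁ c₁ A aa g' Y₁ Kb n₃ hCs hKb hYY hcY q₀ β σ Cn R ρ hq₀ hβ hβ2 hσ hσ1 hCn hBβ hρ hρR hRmR h η p M Nt Bm S hp hp' κ r T Tn N q bs
    w be f m m₁ Δ Θ B₁ xc hΘ hΘ2 hm₁ hL hSt hBpB hrN hM hN hT hTn hTT hbig hrn hΔ hq hnu hxc htop htop2 x x' hx'
  have hr0 : r f ≤ r (f + m) := by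
    have := r_mono (r := r) (a := f) (b := f + m) hL.rr m f le_rfl le_rfl
    exact this
  have hB0 : 0 ≤ Bm (r f) x' := (S.b0 _ _ (hr0.trans hrN)).le
  have hTg := tow_grow16 (T := T) (f := f) (m := m) (K := K₂) fun v h1 h2 => (hT v h1 h2).1
  have hTf : max n₂ n₃' ≤ T f := (hbig f le_rfl (by omega)).1.trans (hTT f le_rfl (by omega)).1
  have hTf1 : 1 ≤ T f := hn₂.trans ((le_max_left _ _).trans hTf)
  have hTf0 : (0 : ℝ) < T f := by exact_mod_cast hTf1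
  have hΘ0 : 0 < Θ := by linarith only [hΘ]
  have hβ0 : 0 < β := by linarith only [hβ]
  obtain ⟨X, hX⟩ : ∃ X : ℝ, X = (1 + q₀) ^ 4 * β ^ Δ := ⟨_, rfl⟩
  have hX1 : 1 ≤ X := by
    rw [hX]
    exact one_le_mul_of_one_le_of_one_le (one_le_pow₀ (by linarith only [hq₀])) (one_le_pow₀ hβ)
  have hAX : 1 ≤ A₁ * X := one_le_mul_of_one_le_of_one_le hA₁ hX1
  have hΦ1 : 1 ≤ β * Θ ^ 4 := one_le_mul_of_one_le_of_one_le hβ (one_le_pow₀ hΘ)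
  have hΦ8 : β * Θ ^ 4 ≤ 8 := by
    have h1 : Θ ^ 4 ≤ 4 := by
      have := mul_le_mul hΘ2 hΘ2 (by positivity) (by norm_num)
      linarith only [this, show Θ ^ 2 * Θ ^ 2 = Θ ^ 4 by ring]
    have h2 := mul_le_mul hβ2 h1 (by positivity) (by norm_num)
    linarith only [h2]
  have hKg' : 8 ≤ (K₂ : ℝ) ^ g := by
    have h1 : (8 : ℝ) ^ (1 / g) ≤ K₂ := hKg.trans (by exact_mod_cast kg)
    have h2 := Real.rpow_le_rpow (by positivity) h1 hg.le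
    rwa [← Real.rpow_mul (by norm_num), one_div, inv_mul_cancel₀ hg.ne', Real.rpow_one] at h2
  have hKp : (0 : ℝ) ≤ K₂ := Nat.cast_nonneg _
  obtain ⟨x₀, hx₀⟩ : ∃ x₀ : ℝ, x₀ = (κ.2 : ℝ) + sl μ s * ((r f : ℝ) - (κ.1 : ℝ)) := ⟨_, rfl⟩
  have e0 : ∀ x : ℤ, (x : ℝ) - x₀ = lt μ s κ r f x := fun x => by rw [hx₀, lt_eq]
  have hwin := HW hCs hKb hYY hcY hq₀ hβ hβ2 hCn hBβ hρ hρR hRmR S hp hp' hΘ hΘ2 hm₁ (hL.sub le_rfl le_rfl (le_max_left _ _)) hSt hBpB hrN hM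
    hN (fun v h1 h2 => ⟨(Nat.mul_le_mul_right _ k3).trans (hT v h1 h2).1, (hT v h1 h2).2⟩)
    (fun v h1 h2 => ⟨(Nat.mul_le_mul_right _ k3).trans (hTn v h1 h2).1, (hTn v h1 h2).2⟩) hTT
    (fun v h1 h2 => ⟨(le_max_left _ _).trans (hbig v h1 h2).1, (hbig v h1 h2).2⟩) hrn
    ((Nat.mul_le_mul (le_max_left _ _) (Nat.pow_le_pow_left k3 _)).trans hΔ) hq hnu hxc htop
  rw [← hX] at hwin ⊢
  have hTr : ∀ v, v ≤ m₁ → (β * Θ ^ 4) ^ v ≤ ((T (f + v) : ℝ) / T f) ^ g := by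
    intro v hv
    have h1 : (K₂ : ℝ) ^ v ≤ (T (f + v) : ℝ) / T f := by
      rw [le_div_iff₀ hTf0]
      exact_mod_cast hTg v (by omega)
    have h2 := Real.rpow_le_rpow (by positivity) h1 hg.le
    have h3 : ((K₂ : ℝ) ^ v) ^ g = ((K₂ : ℝ) ^ g) ^ v := by
      rw [← Real.rpow_natCast (K₂ : ℝ) v, ← Real.rpow_mul hKp, mul_comm, Real.rpow_mul hKp, Real.rpow_natCast]
    rw [h3] at h2
    exact (pow_le_pow_left₀ (by linarith only [hΦ1]) (hΦ8.trans hKg') v).trans h2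
  have hAX0 : 0 ≤ A₁ * X := by linarith only [hAX]
  have key := HD (fun v => T (f + v)) m₁ (by
    rw [add_zero]
    exact (le_max_right _ _).trans hTf) (fun v hv => by
    have h1 := hT (f + v) (by omega) (by omega)
    rw [show f + v + 1 = f + (v + 1) by omega] at h1
    exact ⟨(Nat.le_mul_of_pos_left _ (by omega : 0 < K₂)).trans h1.1, h1.2⟩) K₁ (A₁ * X) σ hK₁ hAX hσ hσ1
    (Bm (r f)) x₀ (Bm (r f) x') hB0
    (fun v hv y hy => by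
      rw [e0] at hy
      rw [add_zero]
      refine (hwin v hv y x' hy hx').trans (mul_le_mul_of_nonneg_right (Real.exp_le_exp.2 ?_) hB0)
      exact mul_le_mul_of_nonneg_left (mul_le_mul_of_nonneg_right (hTr v hv) (EE_pos _).le) hAX0)
    (fun y hy => by
      rw [e0] at hy ⊢
      rw [add_zero]
      refine (htop2 y x' hy hx').trans (mul_le_mul_of_nonneg_right (Real.exp_le_exp.2 ?_) hB0)
      have hE := EE_pos (μ := μ) (s := s) (T (f + m₁))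
      have h3 : ((T (f + m₁) : ℝ) / T f) ^ g * EE μ s (T (f + m₁)) ≤ A₁ * X * (((T (f + m₁) : ℝ) / T f) ^ g * EE μ s (T (f + m₁))) :=
        le_mul_of_one_le_left (by positivity) hAX
      linarith only [h3]) x
  rw [e0] at key
  simp only [add_zero] at key
  have e1 : C' * (A₁ * X / σ) ^ pw = C' * A₁ ^ pw * (X / σ) ^ pw := by
    rw [mul_div_assoc, mul_pow]
    ring
  rwa [e1] at key

end

end Pool.Agent.W_7d29a1_C1.U16
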