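import Pool.Agent.W_7d29a1_C1.WinB84
import Pool.Agent.W_7d29a1_C1.DDE16
import Pool.Agent.W_7d29a1_H.RateH

/-!
MP_7d29a1_pr, [C1] attractor route, TAME: (D2) FROM THE CRUDE COMPARISON. (helper16)

`d2_crude16`: a comparison at the cost `N ^ e (EE T + sqrt |x - x'| + |x - x'| / sqrt N)` is (D2) in the unit of ANY scale `t ≥ T`,
`t ≤ N ^ (1 / 4)`, with the constant `N ^ (4 e)` and every slope.
-/

set_option autoImplicit false

namespace Pool.Agent.W_7d29a1_C1.U16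

open MeasureTheory ProbabilityTheory Filter Topology Finset
open Pool.Agent.W_7d29a1_F Pool.Agent.W_7d29a1_h4g Pool.Agent.W_7d29a1_H Pool.Agent.W_7d29a1_HS
open Pool.Agent.W_7d29a1_C1.Win84

noncomputable section

variable {μ : Measure ℝ} {s c C : ℝ} {n₀ : ℕ} [IsProbabilityMeasure μ]

/-- **(D2) FROM THE CRUDE COMPARISON**, in the unit of any scale `t ≥ T`. -/
theorem d2_crude16 (h0 : In μ s c C n₀) (hL : LB84 μ s) {e σ K₁ : ℝ} (he : 0 < e) (he' : e ≤ 1 / 32) (hσ : 0 < σ) (hσ1 : σ ≤ 1)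
    (hK₁ : 1 ≤ K₁) : ∃ N₁ n₁ : ℕ, 1 ≤ n₁ ∧ ∀ {N T t : ℕ}, N₁ ≤ N → n₁ ≤ T → T ≤ t → (t : ℝ) ≤ (N : ℝ) ^ (1 / 4 : ℝ) →
    ∀ {F : ℤ → ℝ} {x₀ : ℝ} {x x' : ℤ}, 0 ≤ F x' → |(x' : ℝ) - x₀| ≤ K₁ * wd μ s t →
      F x ≤ Real.exp ((N : ℝ) ^ e * (EE μ s T + Real.sqrt |(x : ℝ) - x'| + |(x : ℝ) - x'| / Real.sqrt N)) * F x' →
      F x ≤ Real.exp (((N : ℝ) ^ (4 * e) + σ * (|(x : ℝ) - x₀| / wd μ s t)) * EE μ s t) * F x' := by
  obtain ⟨n₂, hn₂⟩ := hL e he
  obtain ⟨a, n₃, ha, -, hn₃, HE⟩ := Pool.Agent.W_7d29a1_HL.EE_pow h0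
  obtain ⟨C₅, hC₅, H5⟩ := EE_pow85 (μ := μ) h0.em
  obtain ⟨N₂, hN₂⟩ := eventually_atTop.1 (ev84 (4 * C₅ / σ) (show (0 : ℝ) < 3 / 10 - 2 * e by linarith))
  obtain ⟨N₃, hN₃⟩ := eventually_atTop.1 (ev84 (2 + 1 / σ + K₁) he)
  refine ⟨max 1 (max N₂ N₃), max n₂ n₃, hn₃.trans (le_max_right _ _), ?_⟩
  intro N T t hN hT hTt htN F x₀ x x' hF hx' hx
  have hN1 : 1 ≤ N := (le_max_left _ _).trans hN
  have hN1r : (1 : ℝ) ≤ N := by exact_mod_cast hN1
  have hN0 : (0 : ℝ) < N := by linarith only [hN1r]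
  have b2 := hN₂ N (((le_max_left _ _).trans (le_max_right _ _)).trans hN)
  have b3 := hN₃ N (((le_max_right _ _).trans (le_max_right _ _)).trans hN)
  have hT1 : 1 ≤ T := hn₃.trans ((le_max_right _ _).trans hT)
  have ht1 : 1 ≤ t := hT1.trans hTt
  have ht0 : (0 : ℝ) < t := by exact_mod_cast ht1
  have hT0 : (0 : ℝ) < T := by exact_mod_cast hT1
  obtain ⟨w, hw⟩ : ∃ w : ℝ, w = wd μ s t := ⟨_, rfl⟩
  obtain ⟨E, hE⟩ : ∃ E : ℝ, E = EE μ s t := ⟨_, rfl⟩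
  have hw0 : 0 < w := by rw [hw]; exact h0.wd_pos ht1
  have hE0 : 0 < E := by rw [hE]; exact EE_pos _
  rw [← hw] at hx'
  rw [← hw, ← hE]
  -- the numbers
  have hET : EE μ s T ≤ 2 * E := by
    have h1 := HE T t ((le_max_right _ _).trans hT) hTt
    have h2 : (1 : ℝ) ≤ ((t : ℝ) / T) ^ a := by
      refine Real.one_le_rpow ?_ ha.le
      rw [one_le_div hT0]
      exact_mod_cast hTt
    have h3 := mul_le_mul_of_nonneg_right h2 (EE_pos (μ := μ) (s := s) T).le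
    rw [hE]
    linarith only [h1, h3]
  have hte : (t : ℝ) ^ e ≤ (N : ℝ) ^ e := by
    refine Real.rpow_le_rpow ht0.le (htN.trans ?_) he.le
    calc (N : ℝ) ^ (1 / 4 : ℝ) ≤ (N : ℝ) ^ (1 : ℝ) := Real.rpow_le_rpow_of_exponent_le hN1r (by norm_num)
      _ = N := Real.rpow_one _
  have hwE : w ≤ (N : ℝ) ^ e * E ^ 2 := by
    have h1 := hn₂ t (((le_max_left _ _).trans hT).trans hTt)
    rw [← hw, ← hE] at h1
    exact h1.trans (mul_le_mul_of_nonneg_right hte (by positivity))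
  have hEN : E ≤ C₅ * (N : ℝ) ^ (1 / 5 : ℝ) := by
    have h1 := H5 s t ht1
    rw [← hE] at h1
    refine h1.trans (mul_le_mul_of_nonneg_left ?_ hC₅)
    have h2 := Real.rpow_le_rpow ht0.le htN (show (0 : ℝ) ≤ 4 / 5 by norm_num)
    rwa [← Real.rpow_mul hN0.le, show (1 / 4 : ℝ) * (4 / 5) = 1 / 5 by norm_num] at h2
  obtain ⟨A, hA⟩ : ∃ A : ℝ, A = (N : ℝ) ^ e := ⟨_, rfl⟩
  have hA0 : 0 < A := by rw [hA]; positivity
  have hA1 : 1 ≤ A := by rw [hA]; exact Real.one_le_rpow hN1r he.le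
  rw [← hA] at hx hwE b3
  have e4 : (N : ℝ) ^ (4 * e) = A ^ 4 := by
    rw [hA, ← Real.rpow_natCast, ← Real.rpow_mul hN0.le]
    congr 1
    push_cast
    ring
  rw [e4]
  obtain ⟨lam, hlam⟩ : ∃ lam : ℝ, lam = σ * E / (4 * w) := ⟨_, rfl⟩
  have hlam0 : 0 < lam := by rw [hlam]; positivity
  obtain ⟨d, hd⟩ : ∃ d : ℝ, d = |(x : ℝ) - x'| := ⟨_, rfl⟩
  obtain ⟨D₀, hD₀⟩ : ∃ D₀ : ℝ, D₀ = |(x : ℝ) - x₀| := ⟨_, rfl⟩
  have hd0 : 0 ≤ d := by rw [hd]; exact abs_nonneg _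
  have hD0 : 0 ≤ D₀ := by rw [hD₀]; exact abs_nonneg _
  have hdD : d ≤ D₀ + K₁ * w := by
    have h1 := abs_sub ((x : ℝ) - x₀) ((x' : ℝ) - x₀)
    rw [sub_sub_sub_cancel_right] at h1
    rw [hd, hD₀]
    linarith only [h1, hx']
  rw [← hd] at hx
  rw [← hD₀]
  -- the square root
  have h1 : A * Real.sqrt d ≤ lam * d + A ^ 3 * E / σ := by
    have g1 : Real.sqrt d ^ 2 = d := Real.sq_sqrt hd0
    have g2 : A * Real.sqrt d ≤ lam * d + A ^ 2 / (4 * lam) := by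
      have g3 : A ^ 2 / (4 * lam) * (4 * lam) = A ^ 2 := by field_simp
      have g4 : 0 ≤ (2 * lam * Real.sqrt d - A) ^ 2 := sq_nonneg _
      have g5 : 0 ≤ (lam * d + A ^ 2 / (4 * lam) - A * Real.sqrt d) * (4 * lam) := by
        have e1 : (lam * d + A ^ 2 / (4 * lam) - A * Real.sqrt d) * (4 * lam) =
            4 * lam ^ 2 * d + A ^ 2 / (4 * lam) * (4 * lam) - 4 * lam * A * Real.sqrt d := by ring
        rw [e1, g3]
        have e2 : (2 * lam * Real.sqrt d - A) ^ 2 = 4 * lam ^ 2 * Real.sqrt d ^ 2 + A ^ 2 - 4 * lam * A * Real.sqrt d := by ring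
        rw [e2, g1] at g4
        linarith only [g4]
      have g6 := nonneg_of_mul_nonneg_left g5 (by positivity)
      linarith only [g6]
    have g3 : A ^ 2 / (4 * lam) ≤ A ^ 3 * E / σ := by
      have e1 : A ^ 2 / (4 * lam) = A ^ 2 * w / (σ * E) := by
        rw [hlam]
        field_simp
      rw [e1, div_le_div_iff₀ (by positivity) hσ]
      have g4 := mul_le_mul_of_nonneg_left hwE (show 0 ≤ A ^ 2 * σ by positivity)
      linarith only [g4, show A ^ 2 * σ * (A * E ^ 2) = A ^ 3 * E * (σ * E) by ring]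
    linarith only [g2, g3]
  -- the far part
  have h2 : A * (d / Real.sqrt N) ≤ lam * d := by
    have hsN : 0 < Real.sqrt N := Real.sqrt_pos.2 hN0
    have g1 : A / Real.sqrt N ≤ lam := by
      rw [hlam, div_le_div_iff₀ hsN (by positivity)]
      have g2 : A * (4 * w) ≤ 4 * A ^ 2 * E ^ 2 := by
        have := mul_le_mul_of_nonneg_left hwE hA0.le
        linarith only [this, show A * (A * E ^ 2) = A ^ 2 * E ^ 2 by ring]
      refine g2.trans ?_
      have g3 : 4 * A ^ 2 * E ≤ σ * Real.sqrt N := by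
        have g4 : 4 * A ^ 2 * E ≤ 4 * A ^ 2 * (C₅ * (N : ℝ) ^ (1 / 5 : ℝ)) := mul_le_mul_of_nonneg_left hEN (by positivity)
        refine g4.trans ?_
        have g5 : 4 * C₅ ≤ σ * (N : ℝ) ^ (3 / 10 - 2 * e) := by
          rw [div_le_iff₀ hσ] at b2
          linarith only [b2]
        have e2 : A ^ 2 = (N : ℝ) ^ (2 * e) := by
          rw [hA, ← Real.rpow_natCast, ← Real.rpow_mul hN0.le]
          congr 1
          push_cast
          ring
        have e3 : Real.sqrt N = (N : ℝ) ^ (3 / 10 - 2 * e) * ((N : ℝ) ^ (2 * e) * (N : ℝ) ^ (1 / 5 : ℝ)) := by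
          rw [← Real.rpow_add hN0, ← Real.rpow_add hN0, Real.sqrt_eq_rpow]
          congr 1
          ring
        have g6 := mul_le_mul_of_nonneg_right g5 (show 0 ≤ (N : ℝ) ^ (2 * e) * (N : ℝ) ^ (1 / 5 : ℝ) by positivity)
        rw [e3, e2]
        linarith only [g6]
      have := mul_le_mul_of_nonneg_right g3 hE0.le
      linarith only [this]
    have g2 := mul_le_mul_of_nonneg_right g1 hd0
    rw [show A * (d / Real.sqrt N) = A / Real.sqrt N * d by ring]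
    exact g2
  -- the sum
  refine hx.trans (mul_le_mul_of_nonneg_right (Real.exp_le_exp.2 ?_) hF)
  have h3 : 2 * lam * d ≤ σ * (D₀ / w) * E + K₁ * E := by
    have g1 := mul_le_mul_of_nonneg_left hdD (show 0 ≤ 2 * lam by positivity)
    have e1 : 2 * lam * (D₀ + K₁ * w) = σ * (D₀ / w) * E / 2 + σ * K₁ * E / 2 := by
      rw [hlam]
      field_simp
      ring
    have g2 : σ * K₁ * E ≤ K₁ * E := by
      have := mul_le_mul_of_nonneg_right hσ1 (show 0 ≤ K₁ * E by positivity)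
      linarith only [this]
    have g3 : 0 ≤ σ * (D₀ / w) * E := by positivity
    have g4 : 0 ≤ K₁ * E := by positivity
    linarith only [g1, e1, g2, g3, g4]
  have h4 : A * EE μ s T ≤ 2 * A * E := by
    have := mul_le_mul_of_nonneg_left hET hA0.le
    linarith only [this]
  have h5 : 2 * A * E + A ^ 3 * E / σ + K₁ * E ≤ A ^ 4 * E := by
    have g1 : 2 * A + A ^ 3 / σ + K₁ ≤ A ^ 4 := by
      have a1 : A ≤ A ^ 3 := le_self_pow₀ hA1 (by norm_num)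
      have a2 : 1 ≤ A ^ 3 := one_le_pow₀ hA1
      have a3 : K₁ ≤ K₁ * A ^ 3 := le_mul_of_one_le_right (by linarith only [hK₁]) a2
      have a4 := mul_le_mul_of_nonneg_right b3 (show 0 ≤ A ^ 3 by positivity)
      have e1 : A * A ^ 3 = A ^ 4 := by ring
      have e2 : (2 + 1 / σ + K₁) * A ^ 3 = 2 * A ^ 3 + A ^ 3 / σ + K₁ * A ^ 3 := by ring
      rw [e1, e2] at a4
      linarith only [a1, a3, a4]
    have g2 := mul_le_mul_of_nonneg_right g1 hE0.le
    linarith only [g2, show (2 * A + A ^ 3 / σ + K₁) * E = 2 * A * E + A ^ 3 * E / σ + K₁ * E by ring]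
  have e5 : A * (EE μ s T + Real.sqrt d + d / Real.sqrt N) = A * EE μ s T + A * Real.sqrt d + A * (d / Real.sqrt N) := by ring
  rw [e5]
  linarith only [h1, h2, h3, h4, h5]

end

end Pool.Agent.W_7d29a1_C1.U16
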