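import Pool.Agent.W_7d29a1_C1.DepI6

/-!
MP_7d29a1_pr, the attractor route, TAME: THE SWITCH ROW IS FAR FROM EVERY SCALE WHICH IS NOT FELT. (helper6)

`OkS6` : the layers and the nodes which contain a row of `Sw` are not felt with the depth `E₀`; so such a layer or node has a label at the
distance more than `E₀` from `u`. `potWS6` = `potW6`, `cntUS6` = `cntU6`, with `OkS6` as one more premise of the clause.
-/

set_option autoImplicit false

namespace Pool.Agent.W_7d29a1_C1.Dep6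

open MeasureTheory ProbabilityTheory Finset
open Pool.Agent.W_7d29a1_F Pool.Agent.W_7d29a1_h4g Pool.Agent.W_7d29a1_H Pool.Agent.W_7d29a1_HS
open Pool.Agent.W_7d29a1_C1.H75 Pool.Agent.W_7d29a1_C1.U16 Pool.Agent.W_7d29a1_C1.H40 Pool.Agent.W_7d29a1_C1.S71
open scoped ENNReal

noncomputable section

variable {Λ : Type*}

/-- **The rows of `Sw` are not felt**, with the depth `E₀`. -/
structure OkS6 (Sw : Finset ℤ) (E0 : ℕ) (scL : Cut Λ → Cut Λ → ℕ) (scN : Cut Λ → Cut Λ → Cut Λ → ℕ) (Z : List (Cut Λ)) (u : ℕ) : Prop where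
  lay : ∀ P a b Q, Z = P ++ a :: b :: Q → HasSw Sw a b → ¬ Felt (scL a b) E0 u
  nod : ∀ P a b e Q, Z = P ++ a :: b :: e :: Q → HasSw Sw a e → ¬ Felt (scN a b e) E0 u

section OkS

variable {Sw : Finset ℤ} {E0 : ℕ} {scL : Cut Λ → Cut Λ → ℕ} {scN : Cut Λ → Cut Λ → Cut Λ → ℕ} {Z P Q : List (Cut Λ)} {u : ℕ}
  {a b e : Cut Λ}

/-- A layer whose label is near `u` contains no row of `Sw`. -/
theorem OkS6.lay_near (h : OkS6 Sw E0 scL scN Z u) (hE : 1 ≤ E0) (hZ : Z = P ++ a :: b :: Q) (h1 : u ≤ scL a b + E0)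
    (h2 : scL a b ≤ u + E0) : ¬ HasSw Sw a b := fun hs => h.lay P a b Q hZ hs ⟨hE, h1, h2⟩

/-- A node whose label is near `u` contains no row of `Sw`. -/
theorem OkS6.nod_near (h : OkS6 Sw E0 scL scN Z u) (hE : 1 ≤ E0) (hZ : Z = P ++ a :: b :: e :: Q) (h1 : u ≤ scN a b e + E0)
    (h2 : scN a b e ≤ u + E0) : ¬ HasSw Sw a e := fun hs => h.nod P a b e Q hZ hs ⟨hE, h1, h2⟩

end OkS

/-! ### The count -/

section One

variable [Inhabited Λ] {Sw : Finset ℤ} {E0 : ℕ} {dL : Cut Λ → Cut Λ → Env → ℕ} {dN : Cut Λ → Cut Λ → Cut Λ → Env → ℕ}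
  {scL : Cut Λ → Cut Λ → ℕ} {scN : Cut Λ → Cut Λ → Cut Λ → ℕ} {Z : List (Cut Λ)} {η : Env}

open Classical in
/-- The count for one list. -/
theorem card_feltS6 (hpw : Z.Pairwise fun c d => c.row ≤ d.row) (hd : ∀ P a b Q, Z = P ++ a :: b :: Q → dL a b η ≤ E0) (m : ℕ) :
    ((range m).filter fun u => ¬ (Ok6 Sw dL dN scL scN Z u η ∧ OkS6 Sw E0 scL scN Z u)).card ≤
      3 * (SL (fun a b η => if HasSw Sw a b then 0 else dL a b η) Z η +
        SN (fun a b e η => if HasSw Sw a e then 0 else dN a b e η) Z η) + 9 * (Sw.card * E0) := by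
  set dpL := sw6 Sw E0 dL with hdL
  set dpN := swN6 Sw E0 dN with hdN
  set fL : ℕ → ℕ := fun u => ∑ k ∈ range (Z.length - 1),
    (if Felt (scL (Z.getD k d0) (Z.getD (k + 1) d0)) (dpL (Z.getD k d0) (Z.getD (k + 1) d0) η) u then 1 else 0) with hfL
  set fN : ℕ → ℕ := fun u => ∑ k ∈ range (Z.length - 2),
    (if Felt (scN (Z.getD k d0) (Z.getD (k + 1) d0) (Z.getD (k + 2) d0))
      (dpN (Z.getD k d0) (Z.getD (k + 1) d0) (Z.getD (k + 2) d0) η) u then 1 else 0) with hfN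
  have h1 : ∀ u, ¬ (Ok6 Sw dL dN scL scN Z u η ∧ OkS6 Sw E0 scL scN Z u) → 1 ≤ fL u + fN u := by
    intro u hu
    by_contra hcon
    have hL0 : fL u = 0 := by omega
    have hN0 : fN u = 0 := by omega
    have kL : ∀ P a b Q, Z = P ++ a :: b :: Q → ¬ Felt (scL a b) (dpL a b η) u := by
      intro P a b Q e hF
      have h6 : ∀ k ∈ range (Z.length - 1), (if Felt (scL (Z.getD k d0) (Z.getD (k + 1) d0))
          (dpL (Z.getD k d0) (Z.getD (k + 1) d0) η) u then 1 else 0) = 0 := Finset.sum_eq_zero_iff.1 hL0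
      have hlen : Z.length = P.length + (Q.length + 2) := by rw [e]; simp
      have h7 := h6 P.length (mem_range.2 (by omega))
      have e1 : Z.getD P.length d0 = a := by rw [e]; exact getD_split2.1
      have e2 : Z.getD (P.length + 1) d0 = b := by rw [e]; exact getD_split2.2
      rw [e1, e2, if_pos hF] at h7
      omega
    have kN : ∀ P a b d Q, Z = P ++ a :: b :: d :: Q → ¬ Felt (scN a b d) (dpN a b d η) u := by
      intro P a b d Q e hF
      have h6 : ∀ k ∈ range (Z.length - 2), (if Felt (scN (Z.getD k d0) (Z.getD (k + 1) d0) (Z.getD (k + 2) d0))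
          (dpN (Z.getD k d0) (Z.getD (k + 1) d0) (Z.getD (k + 2) d0) η) u then 1 else 0) = 0 :=
        Finset.sum_eq_zero_iff.1 hN0
      have hlen : Z.length = P.length + (Q.length + 3) := by rw [e]; simp
      have h7 := h6 P.length (mem_range.2 (by omega))
      have e1 : Z.getD P.length d0 = a := by rw [e]; exact getD_split2.1
      have e2 : Z.getD (P.length + 1) d0 = b := by rw [e]; exact getD_split2.2
      have e3 : Z.getD (P.length + 2) d0 = d := by rw [e]; exact getD_split3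
      rw [e1, e2, e3, if_pos hF] at h7
      omega
    refine hu ⟨⟨fun P a b Q e => nfelt6 (kL P a b Q e) (Or.inl (hd P a b Q e)), fun P a b d Q e hs => ?_⟩,
      ⟨fun P a b Q e hs => ?_, fun P a b d Q e hs => ?_⟩⟩
    · have h8 := kN P a b d Q e
      rwa [hdN, swN6_neg hs] at h8
    · have h8 := kL P a b Q e
      rwa [hdL, sw6_pos hs] at h8
    · have h8 := kN P a b d Q e
      rwa [hdN, swN6_pos hs] at h8
  have hLs : ∑ u ∈ range m, fL u ≤ 3 * SL dpL Z η := by
    rw [hfL, sum_comm]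
    unfold SL
    rw [mul_sum]
    exact sum_le_sum fun k _ => sum_felt _ _ _
  have hNs : ∑ u ∈ range m, fN u ≤ 3 * SN dpN Z η := by
    rw [hfN, sum_comm]
    unfold SN
    rw [mul_sum]
    exact sum_le_sum fun k _ => sum_felt _ _ _
  have hc : ((range m).filter fun u => ¬ (Ok6 Sw dL dN scL scN Z u η ∧ OkS6 Sw E0 scL scN Z u)).card ≤
      ∑ u ∈ range m, (fL u + fN u) := by
    rw [card_filter]
    refine sum_le_sum fun u _ => ?_
    by_cases hu : Ok6 Sw dL dN scL scN Z u η ∧ OkS6 Sw E0 scL scN Z u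
    · rw [if_neg (not_not.2 hu)]
      exact Nat.zero_le _
    · rw [if_pos hu]
      exact h1 u hu
  have h5 := SL_sw hpw Sw (dpL := dpL) (η := η) (E0 := E0) (fun a b hs => (sw6_pos hs).le)
  have h6 := SN_sw hpw Sw (dpN := dpN) (η := η) (E0 := E0) (fun a b e hs => (swN6_pos hs).le)
  have e5 : (fun (a b : Cut Λ) (η : Env) => if HasSw Sw a b then 0 else dpL a b η) =
      fun a b η => if HasSw Sw a b then 0 else dL a b η := by
    funext a b η
    by_cases hs : HasSw Sw a b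
    · rw [if_pos hs, if_pos hs]
    · rw [if_neg hs, if_neg hs]
      exact sw6_neg hs
  have e6 : (fun (a b e : Cut Λ) (η : Env) => if HasSw Sw a e then 0 else dpN a b e η) =
      fun a b e η => if HasSw Sw a e then 0 else dN a b e η := by
    funext a b e η
    by_cases hs : HasSw Sw a e
    · rw [if_pos hs, if_pos hs]
    · rw [if_neg hs, if_neg hs]
      exact swN6_neg hs
  rw [e5] at h5
  rw [e6] at h6
  rw [sum_add_distrib] at hc
  omega

end One

open Classical in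
/-- **THE COUNT**, one list of cuts per place. -/
theorem cntUS6 [Inhabited Λ] {σ : Type*} {μ : Measure ℝ} [IsProbabilityMeasure μ] {dL : Cut Λ → Cut Λ → Env → ℕ}
    {dN : Cut Λ → Cut Λ → Cut Λ → Env → ℕ} {z M tl : ℝ≥0∞} (hL : Dp2 μ z M dL) (hN : Dp3 μ z M dN) (hz : 1 ≤ z) (hz' : z ≠ ∞)
    (hM : 1 ≤ M) (Sw : Finset ℤ) (E0 : ℕ) (htl : ∀ a b, law μ {η | E0 < dL a b η} ≤ tl) (scL : Cut Λ → Cut Λ → ℕ)
    (scN : Cut Λ → Cut Λ → Cut Λ → ℕ) {F : Finset (Cut Λ)} {W : Finset σ} {Zf : σ → List (Cut Λ)} {n : ℕ}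
    (hpw : ∀ x ∈ W, (Zf x).Pairwise fun c d => c.row ≤ d.row) (hlen : ∀ x ∈ W, (Zf x).length ≤ n) (hF : ∀ x ∈ W, ∀ d ∈ Zf x, d ∈ F)
    (r m : ℕ) :
    law μ {η | ∃ x ∈ W, 9 * r + 9 * (Sw.card * E0) <
        ((range m).filter fun u => ¬ (Ok6 Sw dL dN scL scN (Zf x) u η ∧ OkS6 Sw E0 scL scN (Zf x) u)).card} ≤
      (F.card : ℝ≥0∞) ^ 2 * tl + (W.card : ℝ≥0∞) * (3 * (M ^ n / z ^ r)) := by
  have hP : IsProbabilityMeasure (law μ) := by unfold law; infer_instance
  set dpL' : Cut Λ → Cut Λ → Env → ℕ := fun a b η => if HasSw Sw a b then 0 else dL a b η with hdL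
  set dpN' : Cut Λ → Cut Λ → Cut Λ → Env → ℕ := fun a b e η => if HasSw Sw a e then 0 else dN a b e η with hdN
  have mL' : ∀ a b, Measurable (dpL' a b) := fun a b => by
    by_cases hs : HasSw Sw a b
    · have e : dpL' a b = fun _ => 0 := funext fun η => if_pos hs
      rw [e]; exact measurable_const
    · have e : dpL' a b = dL a b := funext fun η => if_neg hs
      rw [e]; exact hL.meas a b
  have mN' : ∀ a b e, Measurable (dpN' a b e) := fun a b e => by
    by_cases hs : HasSw Sw a e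
    · have e : dpN' a b e = fun _ => 0 := funext fun η => if_pos hs
      rw [e]; exact measurable_const
    · have e : dpN' a b e = dN a b e := funext fun η => if_neg hs
      rw [e]; exact hN.meas _ _ _
  have rL' : ∀ a b (η η' : Env), (∀ p ∈ btw a b, η p = η' p) → dpL' a b η = dpL' a b η' := fun a b η η' he => by
    show (if HasSw Sw a b then 0 else dL a b η) = if HasSw Sw a b then 0 else dL a b η'
    rw [hL.rows a b η η' he]
  have rN' : ∀ a b c (η η' : Env), (∀ p ∈ btw a c, η p = η' p) → dpN' a b c η = dpN' a b c η' := fun a b c η η' he => by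
    show (if HasSw Sw a c then 0 else dN a b c η) = if HasSw Sw a c then 0 else dN a b c η'
    rw [hN.rows a b c η η' he]
  have momL' : ∀ a b, ∫⁻ η, z ^ dpL' a b η ∂(law μ) ≤ M := fun a b => by
    by_cases hs : HasSw Sw a b
    · have e : ∀ η, z ^ dpL' a b η = 1 := fun η => by
        show z ^ (if HasSw Sw a b then 0 else dL a b η) = 1
        rw [if_pos hs, pow_zero]
      simp only [e, lintegral_const, measure_univ, mul_one]
      exact hM
    · have e : dpL' a b = dL a b := funext fun η => if_neg hs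
      rw [e]; exact hL.mom a b
  have momN' : ∀ a b e, ∫⁻ η, z ^ dpN' a b e η ∂(law μ) ≤ M := fun a b e => by
    by_cases hs : HasSw Sw a e
    · have e' : ∀ η, z ^ dpN' a b e η = 1 := fun η => by
        show z ^ (if HasSw Sw a e then 0 else dN a b e η) = 1
        rw [if_pos hs, pow_zero]
      simp only [e', lintegral_const, measure_univ, mul_one]
      exact hM
    · have e' : dpN' a b e = dN a b e := funext fun η => if_neg hs
      rw [e']; exact hN.mom _ _ _
  have hx : ∀ x ∈ W, law μ {η | 3 * r ≤ SL dpL' (Zf x) η + SN dpN' (Zf x) η} ≤ 3 * (M ^ n / z ^ r) := fun x hx =>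
    tailZ mL' mN' rL' rN' hz hz' hM (hpw x hx) (hlen x hx) (fun _ _ => momL' _ _) (fun _ _ => momN' _ _ _) r
  have hU : law μ (⋃ x ∈ W, {η | 3 * r ≤ SL dpL' (Zf x) η + SN dpN' (Zf x) η}) ≤ (W.card : ℝ≥0∞) * (3 * (M ^ n / z ^ r)) := by
    refine (measure_biUnion_finset_le W _).trans ((sum_le_sum hx).trans (le_of_eq ?_))
    rw [sum_const, nsmul_eq_mul]
  refine (measure_mono (fun η hη => ?_)).trans ((measure_union_le (bad6 F dL E0) _).trans (add_le_add (bad6_le htl) hU))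
  by_cases hb : η ∈ bad6 F dL E0
  · exact Or.inl hb
  refine Or.inr ?_
  obtain ⟨x, hxW, hlt⟩ := hη
  refine Set.mem_iUnion₂.2 ⟨x, hxW, ?_⟩
  show 3 * r ≤ SL dpL' (Zf x) η + SN dpN' (Zf x) η
  by_contra hcon
  have h1 := card_feltS6 (Sw := Sw) (E0 := E0) (dL := dL) (dN := dN) (scL := scL) (scN := scN) (η := η) (hpw x hxW)
    (fun P a b Q e => by
      by_contra hc
      exact hb ⟨a, hF x hxW a (by rw [e]; simp), b, hF x hxW b (by rw [e]; simp), not_le.1 hc⟩) m
  change _ ≤ 3 * (SL dpL' (Zf x) η + SN dpN' (Zf x) η) + _ at h1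
  omega

/-! ### The potential -/

variable {σ : Type*} {G : Geo σ Λ} {R : RJ σ} {lat : σ → ℝ} {latC : Cut Λ → ℝ} {w : ℕ → ℝ}

/-- **THE PROBABILITY OF A SMALL POTENTIAL**, with `OkS6` in the clause. -/
theorem potWS6 [Inhabited Λ] {μ : Measure ℝ} [IsProbabilityMeasure μ] (h : GRJ G R.near) {A B Nt : ℕ} (t : TreeB G R.near A B Nt)
    (hr : Geo.LocRow G) {kn kb C0 : ℝ} {C2 D : ℕ} (hl : LatW G R.near lat latC w kn kb) (hC0 : 4 * (kn + kb + 1) ≤ C0)
    (hD : 1 ≤ D) {dL : Cut Λ → Cut Λ → Env → ℕ} {dN : Cut Λ → Cut Λ → Cut Λ → Env → ℕ} {z M tl : ℝ≥0∞}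
    (hL : Dp2 μ z M dL) (hN : Dp3 μ z M dN) (hz : 1 ≤ z) (hz' : z ≠ ∞) (hM : 1 ≤ M) (Sw : Finset ℤ) (E0 : ℕ)
    (htl : ∀ a b, law μ {η | E0 < dL a b η} ≤ tl)
    (scL : Cut Λ → Cut Λ → ℕ) (scN : Cut Λ → Cut Λ → Cut Λ → ℕ) {F : Finset (Cut Λ)} (hF : ∀ d, CW G d → d ∈ F)
    {T : ℕ → σ → Set Env} {bad : Set Env}
    (hT : ∀ η ∉ bad, ∀ ρ ∈ G.W, ∀ u Z, PW G Z → ODW G lat latC w C0 C2 D Z ρ u → Ok6 Sw dL dN scL scN Z u η →
      OkS6 Sw E0 scL scN Z u → η ∈ T u ρ)
    {y : ℝ≥0∞} (hy : y ≤ 1) {r b : ℕ}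
    (hb : 6 * (C2 + 3) * nSt R.m R.g R.lam + 2 * ((R.m + R.g) / D) + 9 * r + 9 * (Sw.card * E0) ≤ b) :
    law μ {η | ∃ x ∈ G.W, R.Pot (Rl.dpT T) y x 0 η < y ^ (3 * b)} ≤
      (law μ bad + (F.card : ℝ≥0∞) ^ 2 * tl) + (nCodeJ Nt (A ^ 2) G.m R.g : ℝ≥0∞) * (3 * (M ^ (3 * (G.m + R.g) + 1) / z ^ r)) := by
  refine (potW40 (dpL := sw6 Sw E0 dL) (dpN := swN6 Sw E0 dN) h t hr hl hC0 hD (fun a b => ?_) (fun a b e => ?_)
    (fun a b η η' he => ?_) (fun a b e η η' he => ?_) hz hz' hM (Sw := Sw) (E0 := E0) (fun a b hs => ?_) (fun a b e hs => ?_)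
    (fun a b η hs => ?_) (fun a b e η hs => ?_) scL scN (T := T) (bad := bad ∪ bad6 F dL E0)
    (fun η hη ρ hρ u Z hZ ho hnL hnN => ?_) hy hb).trans (add_le_add ((measure_union_le _ _).trans
      (add_le_add le_rfl (bad6_le htl))) le_rfl)
  · by_cases hs : HasSw Sw a b
    · have e : sw6 Sw E0 dL a b = fun _ => E0 := funext fun η => sw6_pos hs
      rw [e]; exact measurable_const
    · have e : sw6 Sw E0 dL a b = dL a b := funext fun η => sw6_neg hs
      rw [e]; exact hL.meas a b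
  · by_cases hs : HasSw Sw a e
    · have e : swN6 Sw E0 dN a b e = fun _ => E0 := funext fun η => swN6_pos hs
      rw [e]; exact measurable_const
    · have e : swN6 Sw E0 dN a b e = dN a b e := funext fun η => swN6_neg hs
      rw [e]; exact hN.meas _ _ _
  · unfold sw6
    rw [hL.rows a b η η' he]
  · unfold swN6
    rw [hN.rows a b e η η' he]
  · have e : ∀ η, sw6 Sw E0 dL a b η = dL a b η := fun η => sw6_neg hs
    simp only [e]
    exact hL.mom a b
  · have e' : ∀ η, swN6 Sw E0 dN a b e η = dN a b e η := fun η => swN6_neg hs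
    simp only [e']
    exact hN.mom a b e
  · exact (sw6_pos hs).le
  · exact (swN6_pos hs).le
  · have hb1 : η ∉ bad := fun h' => hη (Or.inl h')
    have hb2 : η ∉ bad6 F dL E0 := fun h' => hη (Or.inr h')
    refine hT η hb1 ρ hρ u Z hZ ho ⟨fun P a b Q e => nfelt6 (hnL P a b Q e) (Or.inl ?_), fun P a b d Q e hs => ?_⟩
      ⟨fun P a b Q e hs => ?_, fun P a b d Q e hs => ?_⟩
    · by_contra hc
      exact hb2 ⟨a, hF a (hZ.mem a (by rw [e]; simp)), b, hF b (hZ.mem b (by rw [e]; simp)), not_le.1 hc⟩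
    · have h3 := hnN P a b d Q e
      rwa [swN6_neg hs] at h3
    · have h3 := hnL P a b Q e
      rwa [sw6_pos hs] at h3
    · have h3 := hnN P a b d Q e
      rwa [swN6_pos hs] at h3

end

end Pool.Agent.W_7d29a1_C1.Dep6
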