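import Pool.Agent.W_7d29a1_C1.PotS86
import Pool.Agent.W_7d29a1_C1.GeoB37
import Pool.Agent.W_7d29a1_C1.DepS6

/-!
Both halves (MP_7d29a1_pr), attractor route [C1], SEP: THE POTENTIAL OF THE FRAME IS SMALL ONLY WITH SMALL PROBABILITY, form with the lower
cuts: `potWS6` of DepS6 for the relations of the frame (GeoB37). (helper86)

`potW86`: the typical events are asked only for `τ ≤ u < M`, slack `0`, the own data `ODW` (lower cuts), regular lists (`PW`), nothing felt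
(`Ok6`), no row of `Sw` felt (`OkS6`).
-/

set_option autoImplicit false

namespace Pool.Agent.W_7d29a1_C1.PW86

open Finset MeasureTheory
open Pool.Agent.W_7d29a1_F Pool.Agent.W_7d29a1_C1.S71
open Pool.Agent.W_7d29a1_C1.H60
open Pool.Agent.W_7d29a1_C1.G37 (Gm)
open Pool.Agent.W_7d29a1_C1.H40
open Pool.Agent.W_7d29a1_C1.Dep6
open Pool.Agent.W_7d29a1_C1.SF98
open Pool.Agent.W_7d29a1_C1.PS86 (rj pot86 dpT_le)
open scoped ENNReal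

noncomputable section

variable {Γ : Cx} {G : Gm} {mt lam m3 : ℕ} {TT : ℝ → ℕ → ℤ × ℤ → Set Env} {y : ℝ≥0∞}

/-- **`LatW`**, near form. -/
theorem latW (G : Gm) {F : Finset (ℕ × ℤ)} {mt la m3 : ℕ} {W : Set {c // c ∈ F}} :
    LatW (G.geoJ F mt W) (G.rjG F la m3 W).near (fun x => G.lat x.1) G.latC G.w G.kn (G.kb + 1) where
  toLatJ := G.latG
  lbl := fun v y => G.lat_ctr_le v y.1

variable (Γ G mt) in
/-- The typical events which count: `τ ≤ u < M`, slack `0`. -/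
def TW (TT : ℝ → ℕ → ℤ × ℤ → Set Env) (τ u : ℕ) (ρ : XS Γ G mt) : Set Env := {ω | τ ≤ u → u < G.M → ω ∈ TT 0 u (G.loc u ρ.1)}

/-- The whole chain potential is at most the potential of the stage. -/
theorem Pot0_le (hy : y ≤ 1) (hT : ∀ σ σ' u κ, σ ≤ σ' → TT σ u κ ⊆ TT σ' u κ) {τ : ℕ} {σ : ℝ} (hσ : 0 ≤ σ) (x : XS Γ G mt)
    (ω : Env) : (rj Γ G mt lam m3).Pot (Rl.dpT (TW Γ G mt TT τ)) y x 0 ω ≤ pot86 Γ G mt lam m3 TT y τ σ x ω := by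
  refine (RJ.Pot_mono _ _ _ (Nat.zero_le τ) _).trans (RJ.Pot_le_Pot hy fun u ρ hr => dpT_le fun h => ?_)
  obtain ⟨-, h1, h2⟩ := hr.spec
  exact hT _ _ _ _ hσ (h h1 h2)

/-- The rare event. -/
theorem lt_sub (hy : y ≤ 1) (hT : ∀ σ σ' u κ, σ ≤ σ' → TT σ u κ ⊆ TT σ' u κ) {τ : ℕ} {σ : ℝ} (hσ : 0 ≤ σ) (r : ℝ≥0∞) :
    {ω | ∃ x : XS Γ G mt, pot86 Γ G mt lam m3 TT y τ σ x ω < r} ⊆
      {ω | ∃ x ∈ (Set.univ : Set (XS Γ G mt)), (rj Γ G mt lam m3).Pot (Rl.dpT (TW Γ G mt TT τ)) y x 0 ω < r} := by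
  rintro ω ⟨x, hx⟩
  exact ⟨x, Set.mem_univ _, (Pot0_le hy hT hσ x ω).trans_lt hx⟩

variable (Γ G mt) in
/-- The geometry of the towers of the frame. -/
def gj : Geo (XS Γ G mt) (ℤ × ℤ) := G.geoJ (FS Γ G mt) mt Set.univ

/-- The number of the cuts. -/
theorem card_FW86 : (FW6 (gj Γ G mt)).card ≤ 2 * ((FS Γ G mt).card * (mt + 1)) := by
  have h := card_FW6 (gj Γ G mt)
  rw [Fintype.card_coe] at h
  exact h

/-- **THE POTENTIAL IS SMALL ONLY WITH SMALL PROBABILITY**, form with the lower cuts. -/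
theorem potW86 {μ : Measure ℝ} [IsProbabilityMeasure μ] {A : ℕ} (hmt : G.M + G.m2 ≤ mt + 1) (hA : G.A0n ≤ A) (hla : G.An ≤ A ^ lam)
    {C0 : ℝ} {C2 D : ℕ} (hC0 : 4 * (G.kn + (G.kb + 1) + 1) ≤ C0) (hD : 1 ≤ D)
    {dL : Cut (ℤ × ℤ) → Cut (ℤ × ℤ) → Env → ℕ} {dN : Cut (ℤ × ℤ) → Cut (ℤ × ℤ) → Cut (ℤ × ℤ) → Env → ℕ} {z M tl : ℝ≥0∞}
    (hL : Dp2 μ z M dL) (hN : Dp3 μ z M dN) (hz : 1 ≤ z) (hz' : z ≠ ∞) (hM : 1 ≤ M) (Sw : Finset ℤ) (E0 : ℕ)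
    (htl : ∀ a b, law μ {η | E0 < dL a b η} ≤ tl)
    (scL : Cut (ℤ × ℤ) → Cut (ℤ × ℤ) → ℕ) (scN : Cut (ℤ × ℤ) → Cut (ℤ × ℤ) → Cut (ℤ × ℤ) → ℕ) {τ : ℕ} {σ : ℝ} (hσ : 0 ≤ σ)
    (mT : ∀ σ σ' u κ, σ ≤ σ' → TT σ u κ ⊆ TT σ' u κ) {bad : Set Env}
    (hT : ∀ η ∉ bad, ∀ (ρ : XS Γ G mt) (u : ℕ) Z, τ ≤ u → u < G.M → PW (gj Γ G mt) Z →
      ODW (gj Γ G mt) (fun x => G.lat x.1) G.latC G.w C0 C2 D Z ρ u → Ok6 Sw dL dN scL scN Z u η → OkS6 Sw E0 scL scN Z u →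
      η ∈ TT 0 u (G.loc u ρ.1))
    (hy : y ≤ 1) {r b : ℕ}
    (hb : 6 * (C2 + 3) * nSt G.M G.m2 lam + 2 * ((G.M + G.m2) / D) + 9 * r + 9 * (Sw.card * E0) ≤ b) :
    law μ {η | ∃ x : XS Γ G mt, pot86 Γ G mt lam m3 TT y τ σ x η < y ^ (3 * b)} ≤
      (law μ bad + ((FW6 (gj Γ G mt)).card : ℝ≥0∞) ^ 2 * tl) +
        (nCodeJ (max 1 ((FS Γ G mt).image (G.loc mt)).card) (A ^ 2) mt G.m2 : ℝ≥0∞) *
          (3 * (M ^ (3 * (mt + G.m2) + 1) / z ^ r)) := by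
  refine (measure_mono (lt_sub hy mT hσ _)).trans ?_
  exact potWS6 (G := gj Γ G mt) (R := rj Γ G mt lam m3) (G.grjG hmt) (G.treeG hA hla) (G.locRowJ _ _ _) (C0 := C0) (C2 := C2)
    (D := D) (latW G) hC0 hD hL hN hz hz' hM Sw E0 htl scL scN (F := FW6 (gj Γ G mt)) (fun _ h => mem_FW6 h)
    (T := fun u ρ => TW Γ G mt TT τ u ρ) (bad := bad)
    (fun η hη ρ _ u Z h1 h2 h3 h4 => fun h7 h8 => hT η hη ρ u Z h7 h8 h1 h2 h3 h4) hy hb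

end

end Pool.Agent.W_7d29a1_C1.PW86
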