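import Pool.Agent.W_7d29a1_C1.D2S72
import Pool.Agent.W_7d29a1_C1.CanL6
import Pool.Agent.W_7d29a1_C1.PotW86

/-!
MP_7d29a1_pr, [C1] attractor route, TAME: (D2) THROUGH A CLEAN PIECE OR A TOWER, IN THE CANONICAL LETTERS. (helper4)

`D2a4` : (D2) at a row. `Dc4` : what is asked of the constants of the depths; `Dg4` : of the geometry and the context; `Pc4` : a piece, its cuts
within `ρ' ^ (scale - u)` widths of the line of `ρ` (`OwnL.pc4C`, `OwnL.pc4T` : clean cuts, tower). **`d2H4`** : (D2) at the top row ==> (D2) at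
the bottom row, constant `Q g ^ (f - u)`, from `pcD2s72`.
-/

set_option autoImplicit false
set_option linter.unusedSectionVars false
set_option linter.unusedVariables false

namespace Pool.Agent.W_7d29a1_C1.D2H4

open MeasureTheory ProbabilityTheory Finset Filter
open Pool.Agent.W_7d29a1_F Pool.Agent.W_7d29a1_h4g Pool.Agent.W_7d29a1_H Pool.Agent.W_7d29a1_HS
open Pool.Agent.W_7d29a1_C1.H75 Pool.Agent.W_7d29a1_C1.U16 Pool.Agent.W_7d29a1_C1.H40 Pool.Agent.W_7d29a1_C1.S71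
open Pool.Agent.W_7d29a1_C1.FarK89 Pool.Agent.W_7d29a1_C1.FarW89 Pool.Agent.W_7d29a1_C1.SysN89 Pool.Agent.W_7d29a1_C1.Dep6
open Pool.Agent.W_7d29a1_C1.H94 (nu Cs94)
open Pool.Agent.W_7d29a1_C1.H60 (Cx)
open Pool.Agent.W_7d29a1_C1.SF98
open Pool.Agent.W_7d29a1_C1.PW86 (gj)
open Pool.Agent.W_7d29a1_C1.G37 (Gm)
open Pool.Agent.W_7d29a1_C1.D2C67

noncomputable section

/-! ### The letters -/

/-- **(D2)** at the row `a`, unit `t`, references within `K₁` widths of the line of `κ`. -/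
def D2a4 (μ : Measure ℝ) (s : ℝ) (Γ : Cx) (κ : Pt) (K₁ Q σ : ℝ) (t a : ℕ) (η : Env) : Prop :=
  ∀ y y' : ℤ, |lat16 μ s κ ((a : ℤ), y')| ≤ K₁ * wd μ s t → bh16 μ s Γ.h η Γ.p Γ.M Γ.N a y ≤
    Real.exp ((Q + σ * (|lat16 μ s κ ((a : ℤ), y)| / wd μ s t)) * EE μ s t) * bh16 μ s Γ.h η Γ.p Γ.M Γ.N a y'

/-- **The constants of the depths**, for (D2): ratio `b` of the scales, growth `ρ'` of the lateral distances. -/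
structure Dc4 (μ : Measure ℝ) (s : ℝ) (b : ℕ) (θn : ℝ) (K0 : ℕ) (Rm Lm₀ x β : ℝ) (ρ' : ℕ) (T : Tc6) : Prop where
  θ0 : 0 < T.θ
  θ1 : 32 * T.θ * (b : ℝ) ^ 2 ≤ 1
  K : 12 ≤ T.K
  B₁ : 4 ≤ T.B₁
  B₂ : 2 ≤ T.B₂
  Y : 8 ≤ T.Y
  δ0 : 0 < T.δ
  δ1 : T.δ ≤ T.θ * sl μ s
  δ2 : T.δ ≤ T.θ * (1 - sl μ s)
  θs : 32 * T.θs * (b : ℝ) ^ 2 ≤ 1
  Lm : Lm₀ ≤ T.Lm
  es0 : 0 ≤ T.es
  es1 : T.es ≤ 1
  x1 : 1 < x
  ρ2 : 2 ≤ ρ'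
  es : (ρ' : ℝ) ^ T.es ≤ x
  θa : T.θa = θn
  cs : ∃ c₁ A a g Y₁ : ℝ, Cs94 μ s T.c₀ T.δ₁ c₁ A a g θn Y₁ K0 T.Kb T.n₃ ∧ 8 * Y₁ ≤ T.Y ∧ 64 ≤ c₁ * T.Y
  Kb : 64 * b ≤ T.Kb
  Cn : 1 ≤ T.Cn
  β1 : 1 ≤ β
  β2 : β ≤ 2
  βB : T.B₂ ≤ β ^ T.Cn
  ρR : ρ' ^ T.Cn ≤ T.R
  Rm : Rm ≤ T.R
  q0 : 0 ≤ T.q₀
  Th : 1 ≤ T.Th
  Thx : (T.Th * x) ^ 2 ≤ 2

/-- **The geometry and the context**, for (D2). -/
structure Dg4 (μ : Measure ℝ) (s c : ℝ) (Γ : Cx) (G : Gm) (mt b n₁ : ℕ) : Prop where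
  hs : Γ.s = s
  hv : G.v = sl μ s
  K : G.K = b
  w : ∀ u, G.w u = wd μ s (G.T u)
  Cw : G.Cw ≤ 2 * b
  T0 : n₁ ≤ G.T0
  N : ∀ v, (Γ.N : ℝ) + 1 ≤ Real.exp (EE μ s (4 * G.T v))
  fo : ∀ v, v ≤ mt → |Γ.h| * wd μ s (HsC6 G v) ≤ c / 8 * EE μ s (HsC6 G v)
  sw : |Γ.h| * (4 * G.T mt) ≤ 1 / 2

theorem Dg4.mono {μ : Measure ℝ} {s c : ℝ} {Γ : Cx} {G : Gm} {mt b n₁ n₂ : ℕ} (h : Dg4 μ s c Γ G mt b n₁) (hn : n₂ ≤ n₁) :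
    Dg4 μ s c Γ G mt b n₂ := ⟨h.hs, h.hv, h.K, h.w, h.Cw, hn.trans h.T0, h.N, h.fo, h.sw⟩

/-- **A piece of the list**, above `u`. -/
structure Pc4 (μ : Measure ℝ) (s : ℝ) (Γ : Cx) (G : Gm) (mt : ℕ) (Z : List (Cut (ℤ × ℤ))) (ρ : XS Γ G mt) (u : ℕ)
    (cs : ℕ → Cut (ℤ × ℤ)) (ρ' i₀ f m : ℕ) : Prop where
  pc : Pc6 (gj Γ G mt) ρ cs i₀ f (m + 1) Z.length
  uf : u ≤ f
  top : f + m + 1 ≤ mt
  lat : ∀ k, k ≤ m + 1 → |G.latC (cs (i₀ + k)) - G.lat ρ.1| ≤ (ρ' : ℝ) ^ (f + k - u) * wd μ s (G.T (f + k))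
  N : (cs (i₀ + (m + 1))).row ≤ Γ.N
  pr : ∀ i, i + 1 < Z.length → ∃ P Q, Z = P ++ cs i :: cs (i + 1) :: Q
  tr : ∀ i, i + 2 < Z.length → ∃ P Q, Z = P ++ cs i :: cs (i + 1) :: cs (i + 2) :: Q

section Own

variable {μ : Measure ℝ} {s : ℝ} {Γ : Cx} {G : Gm} {mt : ℕ} {Z : List (Cut (ℤ × ℤ))} {ρ : XS Γ G mt} {u : ℕ}
  {cs : ℕ → Cut (ℤ × ℤ)} {v0 v1 v2 iL iC iT C2 D : ℕ} {C0 : ℝ}

/-- **The rows of the list are rows of the context.** -/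
theorem rowN4 (h : OwnL (gj Γ G mt) (fun x => G.lat x.1) G.latC G.w C0 C2 D Z ρ u cs v0 v1 v2 iL iC iT) {i : ℕ} (hi : i < Z.length) :
    (cs i).row ≤ Γ.N := by
  obtain ⟨y, -, v, hv, e⟩ := h.cw i hi
  have h1 : ((y.1.1 : ℕ) : ℤ) + 2 * (G.T mt : ℤ) ≤ Γ.N := by exact_mod_cast (mem_FS.1 y.2).2
  have h2 : (G.T v : ℤ) ≤ G.T mt := G.T_mono' hv
  have h3 : (G.T (v - 2) : ℤ) ≤ G.T mt := G.T_mono' ((Nat.sub_le _ _).trans hv)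
  have h4 : (0 : ℤ) ≤ G.T mt := Int.natCast_nonneg _
  rcases e with e | e
  · rw [e]
    have h5 := (gj Γ G mt).tr_le v ((gj Γ G mt).row y)
    have h6 : ((gj Γ G mt).ct v y).row = (gj Γ G mt).tr v ((gj Γ G mt).row y) := rfl
    have h7 : (gj Γ G mt).row y = ((y.1.1 : ℕ) : ℤ) := rfl
    have h8 : ((gj Γ G mt).T v : ℤ) = G.T v := rfl
    have h9 : ((gj Γ G mt).T (v - 2) : ℤ) = G.T (v - 2) := rfl
    rw [h6]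
    rw [h7, h8, h9] at h5
    rw [h7]
    linarith
  · rw [e]
    have h5 := (gj Γ G mt).dn_le v ((gj Γ G mt).row y)
    have h6 : ((gj Γ G mt).lb v y).row = (gj Γ G mt).dn v ((gj Γ G mt).row y) - (gj Γ G mt).T v := rfl
    have h7 : (gj Γ G mt).row y = ((y.1.1 : ℕ) : ℤ) := rfl
    have h8 : (0 : ℤ) ≤ (gj Γ G mt).T v := Int.natCast_nonneg _
    rw [h6]
    rw [h7] at h5 ⊢
    linarith

/-- **The clean piece.** -/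
theorem OwnL.pc4C (h : OwnL (gj Γ G mt) (fun x => G.lat x.1) G.latC G.w C0 C2 D Z ρ u cs v0 v1 v2 iL iC iT)
    (hw : ∀ u, G.w u = wd μ s (G.T u)) {ρ' f m : ℕ} (hρ : 1 ≤ ρ') (hC : C0 ≤ (ρ' : ℝ) ^ C2) (h0 : v0 ≤ f) (huf : u ≤ f)
    (h1 : f + (m + 1) ≤ v1) : Pc4 μ s Γ G mt Z ρ u cs ρ' (iC + (f - v0)) f m := by
  have a1 := h.v1m
  have a2 : (gj Γ G mt).m = mt := rfl
  have hP := h.pcC h0 h1
  refine ⟨hP, huf, by omega, fun k hk => ?_, rowN4 h (by have := hP.lt; omega), h.pair, h.triple⟩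
  have h2 := h.latC6 (f := f) (k := k) h0 (by omega)
  have h3 : 1 ≤ (ρ' : ℝ) := by exact_mod_cast hρ
  have h4 := (G.w_pos (f + k)).le
  refine h2.trans ?_
  rw [← hw]
  split_ifs with h5
  · exact le_mul_of_one_le_left h4 (one_le_pow₀ h3)
  · exact mul_le_mul_of_nonneg_right (hC.trans (pow_le_pow_right₀ h3 (by omega))) h4

/-- **The tower.** -/
theorem OwnL.pc4T (h : OwnL (gj Γ G mt) (fun x => G.lat x.1) G.latC G.w C0 C2 D Z ρ u cs v0 v1 v2 iL iC iT)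
    (hw : ∀ u, G.w u = wd μ s (G.T u)) {ρ' f m b : ℕ} (hCw : G.Cw ≤ 2 * b) (hb : 1 ≤ b) (hρ : 2 * (2 * b) ^ D ≤ ρ') (hC0 : 0 ≤ C0)
    (hC : C0 ≤ (2 : ℝ) ^ C2) (h0 : v1 + 3 ≤ f) (h1 : f + (m + 1) ≤ mt) : Pc4 μ s Γ G mt Z ρ u cs ρ' (iT + (f - (v1 + 3))) f m := by
  have a1 := h.uv1
  have a2 : (gj Γ G mt).m = mt := rfl
  have hP := h.pcT h0 (show f + (m + 1) ≤ (gj Γ G mt).m from h1)
  refine ⟨hP, by omega, by omega, fun k hk => ?_, rowN4 h (by have := hP.lt; omega), h.pair, h.triple⟩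
  have h2 := h.latT6 (f := f) (k := k) h0 (by omega)
  have hb1 : (1 : ℝ) ≤ 2 * b := by
    have : (1 : ℝ) ≤ b := by exact_mod_cast hb
    linarith
  have hwC : ∀ v, G.w (v + 1) ≤ (2 * b : ℝ) * G.w v := fun v => (G.w_up v).trans (mul_le_mul_of_nonneg_right (by exact_mod_cast hCw)
    (G.w_pos v).le)
  have hpow : ∀ v k : ℕ, G.w (v + k) ≤ (2 * b : ℝ) ^ k * G.w v := by
    intro v k
    induction k with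
    | zero => simp
    | succ k ih =>
      have e1 := hwC (v + k)
      have e2 := mul_le_mul_of_nonneg_left ih (show 0 ≤ (2 * b : ℝ) by linarith)
      rw [show v + (k + 1) = v + k + 1 by ring, pow_succ]
      linarith
  obtain ⟨l, hl⟩ : ∃ l, l = f + k - u := ⟨_, rfl⟩
  have h3 : BT G.w C0 D u (f + k) ≤ C0 * ((2 * b : ℝ) ^ (D * l) * G.w (f + k)) := by
    unfold BT
    rw [← hl]
    exact mul_le_mul_of_nonneg_left (hpow _ _) hC0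
  have h4 : (2 : ℝ) ^ l * (2 * b : ℝ) ^ (D * l) ≤ (ρ' : ℝ) ^ l := by
    rw [pow_mul, ← mul_pow]
    refine pow_le_pow_left₀ (by positivity) ?_ _
    exact_mod_cast hρ
  have h5 : C0 ≤ (2 : ℝ) ^ l := hC.trans (pow_le_pow_right₀ (by norm_num) (by omega))
  have h6 := (G.w_pos (f + k)).le
  rw [← hl, ← hw]
  refine h2.trans (h3.trans ?_)
  calc C0 * ((2 * b : ℝ) ^ (D * l) * G.w (f + k)) = C0 * (2 * b : ℝ) ^ (D * l) * G.w (f + k) := by ring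
    _ ≤ (2 : ℝ) ^ l * (2 * b : ℝ) ^ (D * l) * G.w (f + k) :=
      mul_le_mul_of_nonneg_right (mul_le_mul_of_nonneg_right h5 (by positivity)) h6
    _ ≤ (ρ' : ℝ) ^ l * G.w (f + k) := mul_le_mul_of_nonneg_right h4 h6

end Own

variable {μ : Measure ℝ} [IsProbabilityMeasure μ] {s c C : ℝ} {n₀ : ℕ}

/-- The constants. -/
theorem cst4 {Q₀ a y β σ₀ : ℝ} (hQ : 0 ≤ Q₀) (ha : 0 ≤ a) (hy : 1 ≤ y) (hβ : 0 ≤ β) (hσ : 0 < σ₀) (pw Δ : ℕ) :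
    Q₀ * ((1 + a * y ^ (Δ + 1)) ^ 4 * β ^ Δ / σ₀) ^ pw ≤ Q₀ * ((1 + a) ^ 4 * y ^ 4 / σ₀) ^ pw * ((y ^ 4 * β) ^ pw) ^ Δ := by
  have h1 : 1 ≤ y ^ (Δ + 1) := one_le_pow₀ hy
  have h2 : 1 + a * y ^ (Δ + 1) ≤ (1 + a) * y ^ (Δ + 1) := by nlinarith
  have h3 : (1 + a * y ^ (Δ + 1)) ^ 4 ≤ ((1 + a) * y ^ (Δ + 1)) ^ 4 := pow_le_pow_left₀ (by positivity) h2 4
  have h4 : (1 + a * y ^ (Δ + 1)) ^ 4 * β ^ Δ / σ₀ ≤ (1 + a) ^ 4 * y ^ 4 / σ₀ * (y ^ 4 * β) ^ Δ := by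
    calc (1 + a * y ^ (Δ + 1)) ^ 4 * β ^ Δ / σ₀ ≤ ((1 + a) * y ^ (Δ + 1)) ^ 4 * β ^ Δ / σ₀ :=
          div_le_div_of_nonneg_right (mul_le_mul_of_nonneg_right h3 (by positivity)) hσ.le
      _ = _ := by
        rw [mul_pow (1 + a), ← pow_mul, mul_pow (y ^ 4), ← pow_mul, show (Δ + 1) * 4 = 4 + 4 * Δ by ring, pow_add]
        ring
  have h5 := pow_le_pow_left₀ (by positivity) h4 pw
  calc _ ≤ Q₀ * ((1 + a) ^ 4 * y ^ 4 / σ₀ * (y ^ 4 * β) ^ Δ) ^ pw := mul_le_mul_of_nonneg_left h5 hQ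
    _ = _ := by
      rw [mul_pow ((1 + a) ^ 4 * y ^ 4 / σ₀), ← pow_mul (y ^ 4 * β), ← pow_mul (y ^ 4 * β), Nat.mul_comm Δ pw]
      ring

/-- **(D2) THROUGH A PIECE, IN THE CANONICAL LETTERS.** -/
theorem d2H4 (h0 : In μ s c C n₀) : ∃ pw : ℕ, ∀ {θn : ℝ}, 0 < θn → ∀ K0 : ℕ, ∃ K₂ : ℕ, 16 ≤ K₂ ∧ ∀ b : ℕ, K₂ ≤ b →
    ∃ g₀ Lm₀ : ℝ, 1 < g₀ ∧ g₀ ^ 2 ≤ 2 ∧ 1 ≤ Lm₀ ∧ ∀ K₁ : ℝ, 1 ≤ K₁ → ∃ Rm : ℝ, ∀ (T : Tc6) {x β : ℝ} {ρ' : ℕ},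
    Dc4 μ s b θn K0 Rm Lm₀ x β ρ' T → ∃ (Q₀ Cx' : ℝ) (n₁ : ℕ), 1 ≤ Q₀ ∧ 1 ≤ Cx' ∧ 1 ≤ n₁ ∧
    ∀ {σ₀ Q₄ : ℝ}, 0 < σ₀ → σ₀ ≤ 1 → 0 ≤ Q₄ → ∃ m₀ : ℕ, 4 ≤ m₀ ∧
    ∀ {Γ : Cx} {G : Gm} {mt : ℕ} {A a g A' a' g' : ℝ} {E : Cut (ℤ × ℤ) → Cut (ℤ × ℤ) → Set Env}
      {E3 : Cut (ℤ × ℤ) → Cut (ℤ × ℤ) → Cut (ℤ × ℤ) → Set Env} {D : ℕ} {Z : List (Cut (ℤ × ℤ))} {ρ : XS Γ G mt} {u : ℕ}
      {cs : ℕ → Cut (ℤ × ℤ)} {i₀ f m : ℕ} {η : Env} {κ : Pt},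
      Dg4 μ s c Γ G mt b n₁ → Tg6 μ s c G T A a g A' a' g' → Ok6 ∅ (dLC6 μ s c G T E D) (dNC6 μ s c G T E3 D) lb6 lbN6 Z u η →
      mt < D → Pc4 μ s Γ G mt Z ρ u cs ρ' i₀ f m → m₀ ≤ m → (κ.2 : ℝ) - sl μ s * (κ.1 : ℝ) = G.lat ρ.1 →
      1 + 3 * T.q₀ * Cx' * (T.Th * x) ^ (f + m + 1 - u) ≤ Q₄ * g₀ ^ m →
      ∀ {Qd σ₄ K₄ : ℝ}, 1 ≤ K₄ → 0 ≤ σ₄ → σ₄ ≤ c / 64 → Qd + 2 ≤ Q₄ * g₀ ^ m →
      D2a4 μ s Γ κ K₄ Qd σ₄ (HsC6 G (f + m + 1)) (cs (i₀ + (m + 1))).row.toNat η →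
      D2a4 μ s Γ κ K₁ (Q₀ * ((1 + 3 * T.q₀ * Cx') ^ 4 * (T.Th * x) ^ 4 / σ₀) ^ pw * (((T.Th * x) ^ 4 * β) ^ pw) ^ (f - u)) σ₀
        (HsC6 G (f + 1)) (cs i₀).row.toNat η := by
  obtain ⟨pw, H⟩ := pcD2s72 h0
  obtain ⟨nw, hnw⟩ := eventually_atTop.1 ((wd_tendsto h0).eventually_ge_atTop 1)
  refine ⟨pw, fun {θn} hθn K0 => ?_⟩
  obtain ⟨K₂, hK₂, H⟩ := H hθn K0
  refine ⟨K₂, hK₂, fun b hb => ?_⟩
  obtain ⟨g₀, Lm₀, hg₀, hg₀2, hLm₀, H⟩ := H b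
  refine ⟨g₀, Lm₀, hg₀, hg₀2, hLm₀, fun K₁ hK₁ => ?_⟩
  obtain ⟨Rm, H⟩ := H K₁ hK₁
  refine ⟨Rm, fun T {x β ρ'} hc => ?_⟩
  obtain ⟨Q₀, n₁, hQ₀, hn₁, H⟩ := H T.P (θ := T.θ) (K := T.K - 2) (B₂ := T.B₂) hc.θ0 (by linarith [hc.K]) hc.B₂ hc.θ1 T.Y 2 T.δ hc.Y le_rfl
    hc.δ0 hc.δ1 hc.δ2
  obtain ⟨Cx', hCx, H⟩ := H (x := x) (ρ' := ρ') hc.x1 (by have := hc.ρ2; omega)
  refine ⟨Q₀, Cx', max (max n₁ nw) (max (16 * T.n₃) T.n₁s), hQ₀, hCx, hn₁.trans ((le_max_left _ _).trans (le_max_left _ _)),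
    fun {σ₀ Q₄} hσ hσ1 hQ₄ => ?_⟩
  obtain ⟨m₀, hm₀, H⟩ := H hσ hσ1 hQ₄
  refine ⟨m₀, hm₀, ?_⟩
  intro Γ G mt A a g A' a' g' E E3 D Z ρ u cs i₀ f m η κ hg hT ho hmD hP hm hκ hlev Qd σ₄ K₄ hK₄ hσ₄ hσ₄c hQd hD
  obtain ⟨c₁, A₉, aa, g₉, Y₁, hC, hY1, hY2⟩ := hc.cs
  have n1 : n₁ ≤ G.T0 := ((le_max_left _ _).trans (le_max_left _ _)).trans hg.T0
  have n2 : nw ≤ G.T0 := ((le_max_right _ _).trans (le_max_left _ _)).trans hg.T0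
  have n3 : 16 * T.n₃ ≤ G.T0 := ((le_max_left _ _).trans (le_max_right _ _)).trans hg.T0
  have n4 : T.n₁s ≤ G.T0 := ((le_max_right _ _).trans (le_max_right _ _)).trans hg.T0
  have hρ0 : 0 ≤ (gj Γ G mt).row ρ := Int.natCast_nonneg _
  have eRow : ∀ k, k ≤ m + 1 → (((cs (i₀ + k)).row.toNat : ℕ) : ℤ) = (cs (i₀ + k)).row := fun k hk =>
    Int.toNat_of_nonneg (hP.pc.row_nonneg6 hρ0 hk)
  have eb : (cs (i₀ + 0)).row = (cs i₀).row := rfl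
  have hwt : 1 ≤ wd μ s (HsC6 G (f + m + 1)) := by
    refine hnw _ (n2.trans ?_)
    have h1 := le_HsC6 (G := G) (f + m + 1)
    have h2 : G.T 0 ≤ G.T (f + m + 1) := G.T_mono (Nat.zero_le _)
    have h3 : G.T 0 = G.T0 := by
      show G.T0 * G.K ^ 0 = G.T0
      rw [pow_zero, mul_one]
    omega
  -- the reference at the top
  obtain ⟨y₀, hy₀⟩ : ∃ y₀ : ℤ, |lat16 μ s κ ((cs (i₀ + (m + 1))).row, y₀)| ≤ 1 := by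
    have f1 := Int.floor_le (sl μ s * (((cs (i₀ + (m + 1))).row - κ.1 : ℤ) : ℝ))
    have f2 := Int.lt_floor_add_one (sl μ s * (((cs (i₀ + (m + 1))).row - κ.1 : ℤ) : ℝ))
    refine ⟨κ.2 + ⌊sl μ s * (((cs (i₀ + (m + 1))).row - κ.1 : ℤ) : ℝ)⌋, ?_⟩
    have e : lat16 μ s κ ((cs (i₀ + (m + 1))).row, κ.2 + ⌊sl μ s * (((cs (i₀ + (m + 1))).row - κ.1 : ℤ) : ℝ)⌋) =
        (⌊sl μ s * (((cs (i₀ + (m + 1))).row - κ.1 : ℤ) : ℝ)⌋ : ℝ) - sl μ s * (((cs (i₀ + (m + 1))).row - κ.1 : ℤ) : ℝ) := by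
      unfold lat16
      push_cast
      ring
    rw [e, abs_le]
    constructor <;> linarith
  have key := H hC hc.Kb hY1 hY2 hc.q0 hc.Th hc.Thx hc.β1 hc.β2 hc.Cn hc.βB hc.ρR hc.Rm (h := Γ.h) (η := η) (p := Γ.p) (M := Γ.M)
    (Nt := Γ.N) (fun k hk => by unfold Cx.p; rw [if_pos hk, hg.hs]) (fun k hk => by unfold Cx.p; rw [if_neg (by omega), hg.hs])
    (G := gj Γ G mt) (lat := fun x => G.lat x.1) (latC := G.latC) (B₁ := T.B₁) (θs := T.θs) (Lm := T.Lm) (es := T.es) (n₁s := T.n₁s)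
    (F := FC6 μ s c G T) (E := E) (E3 := E3) (X := XC6 μ s G T) (κ := κ) (Z := Z) (ρ := ρ) (u := u) (cs := cs) (i₀ := i₀) (f := f)
    (m := m) (D := D) hg.K (by show K₂ ≤ G.K; rw [hg.K]; exact hb) hT.F hT.F'
    (fun a b q => by rw [sub_add_cancel]; exact Set.inter_subset_left) (fun a b e η => by rw [← hc.θa]; exact le_rfl) ho hP.pr hP.tr hP.pc
    hρ0 hP.uf (by have := hP.top; omega) hm hκ hP.lat n1 n3 n4 hg.N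
    (fun v h1 h2 => hg.fo v (by have := hP.top; omega)) hP.N (D₀ := 4 * G.T mt) ?_ (by push_cast; exact hg.sw) (by linarith [hc.B₁]) hc.θs
    hc.Lm hc.es0 hc.es1 hc.es hlev (Qd := Qd) (σ₄ := σ₄) (y₀ := y₀) ?_ hσ₄ hσ₄c hQd ?_
  · intro y y' hy'
    have e0 := eRow 0 (by omega)
    rw [Nat.add_zero] at e0
    rw [e0] at hy'
    have h1 := key y y' hy'
    refine h1.trans (mul_le_mul_of_nonneg_right (Real.exp_le_exp.2 ?_) ?_)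
    · rw [e0]
      refine mul_le_mul_of_nonneg_right ?_ (EE_pos (μ := μ) (s := s) _).le
      have h2 := cst4 (Q₀ := Q₀) (a := 3 * T.q₀ * Cx') (y := T.Th * x) (β := β) (σ₀ := σ₀) (by linarith)
        (mul_nonneg (by linarith [hc.q0]) (by linarith)) (one_le_mul_of_one_le_of_one_le hc.Th hc.x1.le) (by linarith [hc.β1]) hσ pw (f - u)
      rw [show f + 1 - u = f - u + 1 by have := hP.uf; omega]
      exact add_le_add_left h2 _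
    · have hpp : ∀ k, 0 < Γ.p k := Γ.p_pos
      exact (bh16_pos hpp _ _).le
  · -- the rows
    obtain ⟨a1, -⟩ := hP.pc.rb 0 (by omega)
    obtain ⟨-, a2⟩ := hP.pc.rb m (by omega)
    rw [Nat.add_zero] at a1
    have a3 : (0 : ℤ) ≤ (gj Γ G mt).T (f + 0) := Int.natCast_nonneg _
    have a4 : ((gj Γ G mt).T (f + m) : ℤ) ≤ G.T mt := G.T_mono' (by have := hP.top; omega)
    push_cast
    linarith
  · have h1 : 12 ≤ T.K := hc.K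
    have h2 : 1 ≤ wd μ s (hs67 (gj Γ G mt) (f + m + 1)) := hwt
    refine hy₀.trans ?_
    nlinarith
  · intro y
    have h1 := hD y y₀ (by
      rw [eRow (m + 1) le_rfl]
      exact hy₀.trans (one_le_mul_of_one_le_of_one_le hK₄ hwt))
    rw [eRow (m + 1) le_rfl] at h1
    exact h1

end

end Pool.Agent.W_7d29a1_C1.D2H4
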