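import Pool.Agent.W_7d29a1_C1.GeoN37
import Pool.Agent.W_7d29a1_C1.JmpN67

/-!
MP_7d29a1_pr, [C1], SEP: THE SCALE OF A GIVEN RADIUS. (helper20)

`jsel20`: for a radius `R ≥ Rmin` (a NUMBER) there is at every scale `u` a shift `1 ≤ J ≤ Jmax` with `R w_u ≤ w_(u+J)` and
`A g ^ J E_(u+J) ≤ σ R E_u` (any `g < K ^ a`): tame masses at the scale `u + J` on the window `w_(u+J)` are, for the scale `u`, masses
comparable up to `exp (σ R E_u)` on the window `R w_u`. `jfun20`: the shift as a function; its fibres `{u | u + J u = v}` have at most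
`log₂ (2 K) + 1` elements (`fib20`).
-/

set_option autoImplicit false

namespace Pool.Agent.W_7d29a1_C1.G37

open MeasureTheory ProbabilityTheory
open Pool.Agent.W_7d29a1_F Pool.Agent.W_7d29a1_h4g Pool.Agent.W_7d29a1_H Pool.Agent.W_7d29a1_HS
open Pool.Agent.W_7d29a1_C1.H40 (Tk Tk_mono)

noncomputable section

variable {μ : Measure ℝ} {s c C : ℝ} {n₀ : ℕ}

theorem Wok.up_pow {T0 K : ℕ} (h : Wok μ s T0 K) (u : ℕ) : ∀ J : ℕ, wd μ s (Tk T0 K (u + J)) ≤ (2 * K) ^ J * wd μ s (Tk T0 K u)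
  | 0 => by simp
  | J + 1 => by
    have h1 := Wok.up_pow h u J
    have h2 := h.up (u + J)
    rw [← add_assoc]
    calc _ ≤ 2 * K * wd μ s (Tk T0 K (u + J)) := h2
      _ ≤ 2 * K * ((2 * K) ^ J * wd μ s (Tk T0 K u)) := mul_le_mul_of_nonneg_left h1 (by positivity)
      _ = _ := by ring

theorem Wok.two_pow {T0 K : ℕ} (h : Wok μ s T0 K) (u : ℕ) : ∀ J : ℕ, 2 ^ J * wd μ s (Tk T0 K u) ≤ wd μ s (Tk T0 K (u + J))
  | 0 => by simp
  | J + 1 => by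
    have h1 := Wok.two_pow h u J
    have h2 := h.two (u + J)
    rw [← add_assoc]
    calc 2 ^ (J + 1) * wd μ s (Tk T0 K u) = 2 * (2 ^ J * wd μ s (Tk T0 K u)) := by ring
      _ ≤ 2 * wd μ s (Tk T0 K (u + J)) := mul_le_mul_of_nonneg_left h1 (by norm_num)
      _ ≤ _ := h2

/-- **THE SCALE OF A GIVEN RADIUS.** -/
theorem jsel20 [IsProbabilityMeasure μ] (h : In μ s c C n₀) : ∃ (a : ℝ) (n₁ : ℕ), 0 < a ∧ 1 ≤ n₁ ∧
    ∀ K : ℕ, 8 ≤ K → ∀ g A σ : ℝ, 0 < g → g < (K : ℝ) ^ a → 0 ≤ A → 0 < σ → ∃ Rmin : ℝ, 1 ≤ Rmin ∧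
    ∀ R : ℝ, Rmin ≤ R → ∃ Jmax : ℕ, ∀ T0 : ℕ, n₁ ≤ T0 → Wok μ s T0 K → ∀ u : ℕ, ∃ J : ℕ, 1 ≤ J ∧ J ≤ Jmax ∧
      R * wd μ s (Tk T0 K u) ≤ wd μ s (Tk T0 K (u + J)) ∧ wd μ s (Tk T0 K (u + J)) ≤ 2 * K * R * wd μ s (Tk T0 K u) ∧
      A * g ^ J * EE μ s (Tk T0 K (u + J)) ≤ σ * R * EE μ s (Tk T0 K u) := by
  obtain ⟨k, a, n₁, hk, ha, hn₁, H⟩ := wd_gain_div h
  refine ⟨a, n₁, ha, hn₁, fun K hK g A σ hg hgK hA hσ => ?_⟩
  have hK0 : (0 : ℝ) < K := by exact_mod_cast (show 0 < K by omega)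
  have hK8 : (8 : ℝ) ≤ K := by exact_mod_cast hK
  have hKa : 0 < (K : ℝ) ^ a := Real.rpow_pos_of_pos hK0 a
  obtain ⟨ρ, hρ⟩ : ∃ ρ : ℝ, ρ = g / (K : ℝ) ^ a := ⟨_, rfl⟩
  have hρ0 : 0 < ρ := by rw [hρ]; positivity
  have hρ1 : ρ < 1 := by rw [hρ, div_lt_one hKa]; exact hgK
  obtain ⟨Jm, hJm⟩ := exists_pow_lt_of_lt_one (show 0 < σ * k / (2 * K * (A + 1)) by positivity) hρ1
  refine ⟨max 2 ((2 * K : ℝ) ^ Jm), le_trans (by norm_num) (le_max_left _ _), fun R hR => ?_⟩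
  have hR2 : 2 ≤ R := (le_max_left _ _).trans hR
  have hRJ : (2 * K : ℝ) ^ Jm ≤ R := (le_max_right _ _).trans hR
  obtain ⟨Jx, hJx⟩ := pow_unbounded_of_one_lt R (show (1 : ℝ) < 2 by norm_num)
  refine ⟨Jx, fun T0 hT hW u => ?_⟩
  have hw1 := hW.one u
  have hw0 : 0 < wd μ s (Tk T0 K u) := by linarith
  have hex : ∃ J : ℕ, R * wd μ s (Tk T0 K u) ≤ wd μ s (Tk T0 K (u + J)) :=
    ⟨Jx, (mul_le_mul_of_nonneg_right hJx.le hw0.le).trans (hW.two_pow u Jx)⟩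
  classical
  obtain ⟨J, hJ, hmin⟩ : ∃ J : ℕ, R * wd μ s (Tk T0 K u) ≤ wd μ s (Tk T0 K (u + J)) ∧
      ∀ J' : ℕ, J' < J → ¬ R * wd μ s (Tk T0 K u) ≤ wd μ s (Tk T0 K (u + J')) := ⟨Nat.find hex, Nat.find_spec hex, fun _ => Nat.find_min hex⟩
  have hJ1 : 1 ≤ J := by
    rcases Nat.eq_zero_or_pos J with h1 | h1
    · subst h1
      rw [add_zero] at hJ
      nlinarith
    · exact h1
  have hJx' : J ≤ Jx := by
    by_contra hc
    exact hmin Jx (by omega) ((mul_le_mul_of_nonneg_right hJx.le hw0.le).trans (hW.two_pow u Jx))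
  have hup : wd μ s (Tk T0 K (u + J)) ≤ 2 * K * R * wd μ s (Tk T0 K u) := by
    have h1 := hmin (J - 1) (by omega)
    rw [not_le] at h1
    have h2 := hW.up (u + (J - 1))
    rw [show u + (J - 1) + 1 = u + J by omega] at h2
    calc _ ≤ 2 * K * wd μ s (Tk T0 K (u + (J - 1))) := h2
      _ ≤ 2 * K * (R * wd μ s (Tk T0 K u)) := mul_le_mul_of_nonneg_left h1.le (by positivity)
      _ = _ := by ring
  have hJm' : Jm ≤ J := by
    by_contra hc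
    rw [not_le] at hc
    have h1 : R * wd μ s (Tk T0 K u) ≤ (2 * K) ^ J * wd μ s (Tk T0 K u) := hJ.trans (hW.up_pow u J)
    have h2 : R ≤ (2 * K : ℝ) ^ J := le_of_mul_le_mul_right h1 hw0
    have h3 : (2 * K : ℝ) ^ J < (2 * K : ℝ) ^ Jm := pow_lt_pow_right₀ (by linarith) hc
    linarith
  refine ⟨J, hJ1, hJx', hJ, hup, ?_⟩
  have hT1 : 1 ≤ T0 := hn₁.trans hT
  have hTk : ∀ v, T0 ≤ Tk T0 K v := fun v => Nat.le_mul_of_pos_right _ (Nat.pow_pos (by omega))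
  have hTu : (0 : ℝ) < (Tk T0 K u : ℕ) := by exact_mod_cast hT1.trans (hTk u)
  have hratio : ((Tk T0 K (u + J) : ℕ) : ℝ) / (Tk T0 K u : ℕ) = (K : ℝ) ^ J := by
    rw [div_eq_iff hTu.ne']
    unfold Tk
    push_cast
    ring
  have g1 := H (Tk T0 K u) (Tk T0 K (u + J)) (hT.trans (hTk u)) (Tk_mono hK (by omega))
  rw [hratio] at g1
  have hEu := EE_pos (μ := μ) (s := s) (Tk T0 K u)
  have e1 : ((K : ℝ) ^ J) ^ a = ((K : ℝ) ^ a) ^ J := by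
    rw [← Real.rpow_natCast, ← Real.rpow_natCast, ← Real.rpow_mul hK0.le, ← Real.rpow_mul hK0.le, mul_comm]
  rw [e1] at g1
  have g2 : wd μ s (Tk T0 K (u + J)) / wd μ s (Tk T0 K u) ≤ 2 * K * R := by rwa [div_le_iff₀ hw0]
  have hKaJ : 0 < ((K : ℝ) ^ a) ^ J := by positivity
  have g3 : EE μ s (Tk T0 K (u + J)) ≤ 2 * K * R / (k * ((K : ℝ) ^ a) ^ J) * EE μ s (Tk T0 K u) := by
    have h1 := g1.trans g2
    have h2 : EE μ s (Tk T0 K (u + J)) / EE μ s (Tk T0 K u) ≤ 2 * K * R / (k * ((K : ℝ) ^ a) ^ J) := by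
      rw [le_div_iff₀ (by positivity)]
      linarith
    rwa [div_le_iff₀ hEu] at h2
  have hρJ : ρ ^ J ≤ ρ ^ Jm := pow_le_pow_of_le_one hρ0.le hρ1.le hJm'
  have hρJ' : g ^ J / ((K : ℝ) ^ a) ^ J ≤ σ * k / (2 * K * (A + 1)) := by
    rw [← div_pow, ← hρ]
    exact hρJ.trans hJm.le
  calc A * g ^ J * EE μ s (Tk T0 K (u + J)) ≤ A * g ^ J * (2 * K * R / (k * ((K : ℝ) ^ a) ^ J) * EE μ s (Tk T0 K u)) :=
        mul_le_mul_of_nonneg_left g3 (by positivity)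
    _ = A * (2 * K * R / k) * (g ^ J / ((K : ℝ) ^ a) ^ J) * EE μ s (Tk T0 K u) := by
        field_simp
    _ ≤ A * (2 * K * R / k) * (σ * k / (2 * K * (A + 1))) * EE μ s (Tk T0 K u) := by
        refine mul_le_mul_of_nonneg_right (mul_le_mul_of_nonneg_left hρJ' ?_) hEu.le
        have : 0 ≤ R := by linarith
        positivity
    _ = (A / (A + 1)) * (σ * R * EE μ s (Tk T0 K u)) := by
        field_simp
    _ ≤ 1 * (σ * R * EE μ s (Tk T0 K u)) := by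
        refine mul_le_mul_of_nonneg_right ?_ ?_
        · rw [div_le_one (by linarith)]
          linarith
        · have : 0 ≤ R := by linarith
          positivity
    _ = _ := one_mul _

/-- A shift whose widths are at most `2 K` times too large has small fibres. -/
theorem fib20 {T0 K : ℕ} (hW : Wok μ s T0 K) {R : ℝ} (hR : 0 < R) {J : ℕ → ℕ}
    (h : ∀ u, R * wd μ s (Tk T0 K u) ≤ wd μ s (Tk T0 K (u + J u)) ∧ wd μ s (Tk T0 K (u + J u)) ≤ 2 * K * R * wd μ s (Tk T0 K u))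
    (S : Finset ℕ) (v : ℕ) : (S.filter (fun u => u + J u = v)).card ≤ Nat.log 2 (2 * K) + 1 := by
  rcases Finset.eq_empty_or_nonempty (S.filter (fun u => u + J u = v)) with h0 | h0
  · rw [h0]
    simp
  obtain ⟨u₀, hu₀⟩ : ∃ u₀, u₀ = (S.filter (fun u => u + J u = v)).min' h0 := ⟨_, rfl⟩
  have hmem : u₀ ∈ S.filter (fun u => u + J u = v) := by rw [hu₀]; exact Finset.min'_mem _ _
  have hsub : S.filter (fun u => u + J u = v) ⊆ Finset.Icc u₀ (u₀ + Nat.log 2 (2 * K)) := by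
    intro u hu
    have h1 : u₀ ≤ u := by rw [hu₀]; exact Finset.min'_le _ _ hu
    rw [Finset.mem_Icc]
    refine ⟨h1, ?_⟩
    have e1 := (Finset.mem_filter.1 hu).2
    have e0 := (Finset.mem_filter.1 hmem).2
    have g1 := (h u).1
    have g0 := (h u₀).2
    rw [e1] at g1
    rw [e0] at g0
    have hw0 : 0 < wd μ s (Tk T0 K u₀) := by linarith [hW.one u₀]
    have g2 : wd μ s (Tk T0 K u) ≤ 2 * K * wd μ s (Tk T0 K u₀) := by
      refine le_of_mul_le_mul_left ?_ hR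
      calc _ ≤ _ := g1.trans g0
        _ = _ := by ring
    have g3 := hW.two_pow u₀ (u - u₀)
    rw [Nat.add_sub_cancel' h1] at g3
    have g4 : (2 : ℝ) ^ (u - u₀) ≤ 2 * K := le_of_mul_le_mul_right (g3.trans g2) hw0
    have g5 : 2 ^ (u - u₀) ≤ 2 * K := by exact_mod_cast g4
    have g6 : u - u₀ ≤ Nat.log 2 (2 * K) := Nat.le_log_of_pow_le (by norm_num) g5
    omega
  calc _ ≤ (Finset.Icc u₀ (u₀ + Nat.log 2 (2 * K))).card := Finset.card_le_card hsub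
    _ = _ := by
      rw [Nat.card_Icc]
      omega

/-- **THE SHIFT AS A FUNCTION, WITH ITS FIBRES.** -/
theorem jfun20 [IsProbabilityMeasure μ] (h : In μ s c C n₀) : ∃ (a : ℝ) (n₁ : ℕ), 0 < a ∧ 1 ≤ n₁ ∧
    ∀ K : ℕ, 8 ≤ K → ∀ g A σ : ℝ, 0 < g → g < (K : ℝ) ^ a → 0 ≤ A → 0 < σ → ∃ Rmin : ℝ, 1 ≤ Rmin ∧
    ∀ R : ℝ, Rmin ≤ R → ∃ Jmax : ℕ, ∀ T0 : ℕ, n₁ ≤ T0 → Wok μ s T0 K → ∃ J : ℕ → ℕ,
      (∀ u, 1 ≤ J u ∧ J u ≤ Jmax ∧ R * wd μ s (Tk T0 K u) ≤ wd μ s (Tk T0 K (u + J u)) ∧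
        A * g ^ J u * EE μ s (Tk T0 K (u + J u)) ≤ σ * R * EE μ s (Tk T0 K u)) ∧
      ∀ (S : Finset ℕ) (v : ℕ), (S.filter (fun u => u + J u = v)).card ≤ Nat.log 2 (2 * K) + 1 := by
  obtain ⟨a, n₁, ha, hn₁, H⟩ := jsel20 h
  refine ⟨a, n₁, ha, hn₁, fun K hK g A σ hg hgK hA hσ => ?_⟩
  obtain ⟨Rmin, hR1, H⟩ := H K hK g A σ hg hgK hA hσ
  refine ⟨Rmin, hR1, fun R hR => ?_⟩
  obtain ⟨Jmax, H⟩ := H R hR
  refine ⟨Jmax, fun T0 hT hW => ?_⟩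
  choose J hJ using H T0 hT hW
  exact ⟨J, fun u => ⟨(hJ u).1, (hJ u).2.1, (hJ u).2.2.1, (hJ u).2.2.2.2⟩,
    fib20 hW (by linarith) fun u => ⟨(hJ u).2.2.1, (hJ u).2.2.2.1⟩⟩

end

end Pool.Agent.W_7d29a1_C1.G37
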