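import Pool.Agent.W_7d29a1_C1.DDF84
import Pool.Agent.W_7d29a1_C1.TamK16

/-!
MP_7d29a1_pr, [C1], TAME / (LR): the system `Sys84` of helper84 for the kernels `nk` and the masses `bh16` of the model. (helper89)

`ddi_one`: the comparison of one place of the scale `i` with one place of the inner window (the step of `ddi84`, the mass identities are used
at the two places only). `Lay89`: the layers (rows, scales, `Far16`). `sys89`: they are a `Sys84` in every box. `mass89`: the mass identities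
in the box. `dd_one89`: **the comparison for `bh16`**, the arms in the form of `PM16`.
-/

set_option autoImplicit false

namespace Pool.Agent.W_7d29a1_C1.SysN89

open MeasureTheory ProbabilityTheory Filter Topology Finset
open Pool.Agent.W_7d29a1_F Pool.Agent.W_7d29a1_h4g Pool.Agent.W_7d29a1_H Pool.Agent.W_7d29a1_HS
open Pool.Agent.W_7d29a1_C1.H75 Pool.Agent.W_7d29a1_C1.U16 Pool.Agent.W_7d29a1_C1.FarK89 Pool.Agent.W_7d29a1_C1.FarW89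
open Pool.Agent.W_7d29a1_C1.DD84
open Pool.Agent.W_7d29a1_C1.K91 (wt wt_pos)

noncomputable section

variable {μ : Measure ℝ} [IsProbabilityMeasure μ] {s c C : ℝ} {n₀ : ℕ}

/-! ### One place against one place -/

/-- **One place of the scale `i` against one place of the inner window.** -/
theorem ddi_one (h : In μ s c C n₀) (P : ℕ) {cc c₁ c₂ c₃ : ℝ} (hc₁ : 0 < c₁) (hc₂ : 0 ≤ c₂) (hc₃ : 0 ≤ c₃) (hcc : c₁ + c₂ + c₃ ≤ cc) :
    ∃ K₀ : ℕ, 2 ≤ K₀ ∧ ∀ κ' K₁ q₀ S₀ R Pa : ℝ, 1 ≤ K₁ → K₁ + 1 ≤ κ' → 0 ≤ q₀ → 0 ≤ S₀ → 0 ≤ R → 0 ≤ Pa → ∀ b : ℕ,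
    ∃ (A : ℝ) (n₁ : ℕ), 0 ≤ A ∧ 1 ≤ n₁ ∧ ∀ (T : ℕ → ℕ) (u i M : ℕ) (θ : ℝ), 1 ≤ θ → θ ≤ 2 → n₁ ≤ T u →
    (∀ v, u ≤ v → v < u + (i + 1) → K₀ * T v ≤ T (v + 1) ∧ T (v + 1) ≤ b * T v) → u + (i + 2) ≤ M →
    ∀ (q : ℕ → ℝ) (ℓ : ℕ → ℤ → ℝ) (k : ℕ → ℤ → ℤ → ℝ) (B : ℕ → Finset ℤ) (r : ℝ),
    Sys84 μ s P cc c₂ κ' S₀ r T q ℓ k B u M → (∀ v, u ≤ v → v < u + (i + 2) → q v ≤ q₀ * θ ^ (v - u)) →
    |r| ≤ R * wd μ s (T u) →
    ∀ (F G : ℤ → ℝ) (Z : Finset ℤ) (x x' : ℤ), (∀ z, 0 ≤ G z) →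
    F x = ∑ z ∈ B (u + (i + 2)), cmp k B (i + 2) u x z * G z → F x' = ∑ z ∈ B (u + (i + 2)), cmp k B (i + 2) u x' z * G z →
    (∀ z ∈ Z, z ∈ B (u + (i + 2)) ∧ |ℓ (u + (i + 2)) z - r| ≤ κ' * wd μ s (T (u + (i + 1))) - 1) →
    |ℓ u x - r| ≤ K₁ * wd μ s (T (u + i)) → |ℓ u x' - r| ≤ K₁ * wd μ s (T u) →
    F x ≤ Pa * ∑ z ∈ Z, cmp k B (i + 2) u x z * G z →
    F x ≤ Real.exp (A * (θ ^ (2 * i) * EE μ s (T (u + i)))) * F x' := by
  obtain ⟨D', K₀, n₂, hD1, hK2, hn2, henv⟩ := env84 h P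
  refine ⟨K₀, hK2, fun κ' K₁ q₀ S₀ R Pa hK₁ hκ' hq₀ hS₀ hR hPa b => ?_⟩
  have hCL := CL_pos P hc₁
  have hD0 : 0 < D' := by linarith
  have hκ'0 : 0 < κ' := by linarith
  obtain ⟨A₂, hA₂⟩ : ∃ A₂ : ℝ, A₂ = CL P c₁ * (1 + 2 * q₀ * D') ^ 2 := ⟨_, rfl⟩
  have hA20 : 0 < A₂ := by rw [hA₂]; positivity
  have hg1 : 0 ≤ gr P (R + K₁) := gr_nonneg P (by linarith)
  have hg2 : 0 ≤ gr P (R + κ') := gr_nonneg P (by linarith)
  obtain ⟨A₃, hA₃⟩ : ∃ A₃ : ℝ, A₃ = A₂ * gr P (R + K₁) + S₀ * D' + 2 * q₀ * D' * gr P (R + κ') := ⟨_, rfl⟩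
  have hA30 : 0 ≤ A₃ := by rw [hA₃]; positivity
  refine ⟨2 * b * A₃ + Pa, n₂, by positivity, hn2, ?_⟩
  intro T u i M θ hθ hθ2 hT0 hT hM q ℓ k B r hsys hq hr F G Z x x' hG hFx hFx' hZ hx hx' harm
  have hTu1 : 1 ≤ T u := hn2.trans hT0
  have hK1 : 1 ≤ K₀ := by omega
  have hmon1 : ∀ v, u ≤ v → v < u + (i + 1) → T v ≤ T (v + 1) := fun v hv hv' =>
    (Nat.le_mul_of_pos_left _ hK1).trans (hT v hv hv').1
  have hmon : ∀ j, j ≤ i + 1 → T u ≤ T (u + j) := by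
    intro j
    induction j with
    | zero => intro _; exact le_rfl
    | succ j ih =>
      intro hj
      rw [show u + (j + 1) = u + j + 1 by omega]
      exact (ih (by omega)).trans (hmon1 (u + j) (by omega) (by omega))
  obtain ⟨e, s', hE, he, hs⟩ := henv (cc := cc) (c₂ := c₂) (κ' := κ') (S₀ := S₀) (r := r) (q₀ := q₀) (θ := θ) (T := T) (q := q)
    (ℓ := ℓ) (k := k) (B := B) (u := u) (i := i) (M := M) (by linarith) hc₂ hS₀ hq₀ hθ hT0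
    (fun v hv hv' => (hT v hv (by omega)).1) hM hsys hq
  have hwt := hE.wt0
  have hEt := hE.Et0
  have hw0 : ∀ v, u ≤ v → v < u + (i + 2) → 2 ≤ wd μ s (T v) := by
    intro v hv hv'
    have h1 : T u ≤ T v := by
      have := hmon (v - u) (by omega)
      rwa [show u + (v - u) = v by omega] at this
    have h2 := wd_ge_one h (hTu1.trans h1)
    have h3 := one_le_EE (μ := μ) (s := s) (T v)
    linarith
  have hwu := hw0 u le_rfl (by omega)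
  -- the mass defined by the composition
  obtain ⟨F', hF'⟩ : ∃ F' : ℤ → ℝ, F' = fun y => ∑ z ∈ B (u + (i + 2)), cmp k B (i + 2) u y z * G z := ⟨_, rfl⟩
  have eFx : F' x = F x := by rw [hF', hFx]
  have eFx' : F' x' = F x' := by rw [hF', hFx']
  have hF'0 : 0 ≤ F' x' := by
    rw [hF']
    exact sum_nonneg fun z _ => mul_nonneg (cmp_nonneg hsys.k0 B _ _ _ _) (hG z)
  have hfin := dd_env (u := u) (m := i) hE (κ := κ') (c₁ := c₁) (c₃ := c₃) (Q := q₀ * D' * θ ^ (i + 1)) (S := S₀ * D') (Pa := Pa)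
    (r := r) hc₁ hc₃ hcc he hs (by linarith) hw0 (fun v hv hv' => hsys.low v hv (by omega)) (fun v hv hv' => hsys.mid v hv (by omega))
    (F := F') (G := G) hG (fun y => by rw [hF']) (Z := Z) hZ hPa (x := x) (x' := x') (by rw [eFx]; exact harm) (by
      refine hx'.trans ?_
      have h1 : (K₁ + 1) * wd μ s (T u) ≤ κ' * wd μ s (T u) := mul_le_mul_of_nonneg_right hκ' (by linarith)
      linarith)
  rw [eFx] at hfin
  rw [← eFx']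
  refine hfin.trans (mul_le_mul_of_nonneg_right ?_ hF'0)
  have hθi : 1 ≤ θ ^ i := one_le_pow₀ hθ
  have hθ2i : θ ^ (2 * i) = θ ^ i * θ ^ i := by rw [two_mul, pow_add]
  have hθi0 : 0 < θ ^ i := by linarith
  have hQt : q₀ * D' * θ ^ (i + 1) ≤ 2 * q₀ * D' * θ ^ i := by
    rw [pow_succ]
    have h1 : 0 ≤ q₀ * D' * θ ^ i := by positivity
    have := mul_le_mul_of_nonneg_left hθ2 h1
    linarith
  have hQt0 : 0 ≤ q₀ * D' * θ ^ (i + 1) := by positivity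
  have hqD : 0 ≤ 2 * q₀ * D' := by positivity
  have hLQ : LQ P c₁ (q₀ * D' * θ ^ (i + 1)) ≤ A₂ * θ ^ (2 * i) := by
    refine (lq_le P hc₁ hQt0).trans ?_
    rw [hA₂, hθ2i]
    have h1 : 1 + q₀ * D' * θ ^ (i + 1) ≤ (1 + 2 * q₀ * D') * θ ^ i := by
      linarith
    have h2 := pow_le_pow_left₀ (by positivity) h1 2
    have h3 := mul_le_mul_of_nonneg_left h2 hCL.le
    linarith [show CL P c₁ * ((1 + 2 * q₀ * D') * θ ^ i) ^ 2 = CL P c₁ * (1 + 2 * q₀ * D') ^ 2 * (θ ^ i * θ ^ i) by ring]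
  -- the places
  have hwi : wd μ s (T (u + i)) ≤ wd μ s (T (u + (i + 1))) := hE.wle (u + i) (by omega) (by omega)
  have hwu' : wd μ s (T u) ≤ wd μ s (T (u + (i + 1))) := hE.wle u le_rfl (by omega)
  have hgx : gr P (|ℓ u x| / wd μ s (T (u + (i + 1)))) ≤ gr P (R + K₁) := by
    refine gr_mono P (by positivity) ?_
    rw [div_le_iff₀ hwt]
    have h1 := abs_add_le (ℓ u x - r) r
    rw [sub_add_cancel] at h1
    have h4 := mul_le_mul_of_nonneg_left hwi (show 0 ≤ K₁ by linarith)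
    have h5 := mul_le_mul_of_nonneg_left hwu' hR
    linarith
  have hgr : gr P (|r| / wd μ s (T (u + (i + 1))) + κ') ≤ gr P (R + κ') := by
    refine gr_mono P (by positivity) ?_
    have h1 : |r| / wd μ s (T (u + (i + 1))) ≤ R := by
      rw [div_le_iff₀ hwt]
      exact hr.trans (mul_le_mul_of_nonneg_left hwu' hR)
    linarith
  obtain ⟨Et, hEt'⟩ : ∃ Et, Et = EE μ s (T (u + (i + 1))) := ⟨_, rfl⟩
  obtain ⟨Ei, hEi⟩ : ∃ Ei, Ei = EE μ s (T (u + i)) := ⟨_, rfl⟩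
  have hEi1 : 1 ≤ Ei := by rw [hEi]; exact one_le_EE _
  have hle : Et ≤ 2 * b * Ei := by
    rw [hEt', hEi]
    have h0 : T u ≤ T (u + i) := hmon i (by omega)
    have h1 := hmon1 (u + i) (by omega) (by omega)
    have h2 := (hT (u + i) (by omega) (by omega)).2
    have h3 := scale_b h (hTu1.trans h0) h1
    rw [show u + i + 1 = u + (i + 1) by omega] at h1 h2 h3
    have hTi : (0 : ℝ) < T (u + i) := by exact_mod_cast hTu1.trans h0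
    have h4 : (T (u + (i + 1)) : ℝ) ≤ b * T (u + i) := by exact_mod_cast h2
    have hEi := EE_pos (μ := μ) (s := s) (T (u + i))
    have h5 : (T (u + i) : ℝ) * EE μ s (T (u + (i + 1))) ≤ T (u + i) * (2 * b * EE μ s (T (u + i))) := by
      have h6 := mul_le_mul_of_nonneg_right h4 hEi.le
      linarith
    exact le_of_mul_le_mul_left h5 hTi
  rw [← hEt'] at hEt ⊢
  rw [← hEi]
  -- the exponent
  have h1 : LQ P c₁ (q₀ * D' * θ ^ (i + 1)) * gr P (|ℓ u x| / wd μ s (T (u + (i + 1)))) ≤ A₂ * gr P (R + K₁) * θ ^ (2 * i) := by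
    calc _ ≤ A₂ * θ ^ (2 * i) * gr P (R + K₁) := mul_le_mul hLQ hgx (gr_nonneg P (by positivity)) (by positivity)
      _ = _ := by ring
  have h2 : q₀ * D' * θ ^ (i + 1) * gr P (|r| / wd μ s (T (u + (i + 1))) + κ') ≤ 2 * q₀ * D' * gr P (R + κ') * θ ^ (2 * i) := by
    have h3 : q₀ * D' * θ ^ (i + 1) ≤ 2 * q₀ * D' * θ ^ (2 * i) := by
      refine hQt.trans ?_
      rw [hθ2i]
      exact mul_le_mul_of_nonneg_left (le_mul_of_one_le_left hθi0.le hθi) hqD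
    calc q₀ * D' * θ ^ (i + 1) * gr P (|r| / wd μ s (T (u + (i + 1))) + κ') ≤ (2 * q₀ * D' * θ ^ (2 * i)) * gr P (R + κ') :=
          mul_le_mul h3 hgr (gr_nonneg P (by positivity)) (by positivity)
      _ = _ := by ring
  have h2i : 1 ≤ θ ^ (2 * i) := one_le_pow₀ hθ
  have h3 : S₀ * D' ≤ S₀ * D' * θ ^ (2 * i) := le_mul_of_one_le_right (by positivity) h2i
  have h4 : (LQ P c₁ (q₀ * D' * θ ^ (i + 1)) * gr P (|ℓ u x| / wd μ s (T (u + (i + 1)))) + S₀ * D' +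
      q₀ * D' * θ ^ (i + 1) * gr P (|r| / wd μ s (T (u + (i + 1))) + κ')) * Et ≤ 2 * b * A₃ * (θ ^ (2 * i) * Ei) := by
    calc _ ≤ (A₂ * gr P (R + K₁) * θ ^ (2 * i) + S₀ * D' * θ ^ (2 * i) + 2 * q₀ * D' * gr P (R + κ') * θ ^ (2 * i)) * Et :=
          mul_le_mul_of_nonneg_right (add_le_add (add_le_add h1 h3) h2) hEt.le
      _ = A₃ * θ ^ (2 * i) * Et := by rw [hA₃]; ring
      _ ≤ A₃ * θ ^ (2 * i) * (2 * b * Ei) := mul_le_mul_of_nonneg_left hle (by positivity)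
      _ = _ := by ring
  have h5 : Pa ≤ Real.exp (Pa * (θ ^ (2 * i) * Ei)) := by
    have h6 : 1 ≤ θ ^ (2 * i) * Ei := one_le_mul_of_one_le_of_one_le h2i hEi1
    have h7 := Real.add_one_le_exp (Pa * (θ ^ (2 * i) * Ei))
    have h8 := mul_le_mul_of_nonneg_left h6 hPa
    linarith
  calc _ ≤ Real.exp (Pa * (θ ^ (2 * i) * Ei)) * Real.exp (2 * b * A₃ * (θ ^ (2 * i) * Ei)) :=
        mul_le_mul h5 (Real.exp_le_exp.2 h4) (Real.exp_pos _).le (Real.exp_pos _).le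
    _ = Real.exp ((2 * b * A₃ + Pa) * (θ ^ (2 * i) * Ei)) := by
      rw [← Real.exp_add]
      congr 1
      ring

/-! ### The layers of the model -/

/-- The layers `a ≤ v < b`: rows `r`, scales `T`, levels `q`; the force is small at every scale. -/
structure Lay89 (μ : Measure ℝ) (s c θ K h : ℝ) (P : ℕ) (η : Env) (κ : Pt) (r T N : ℕ → ℕ) (q : ℕ → ℝ) (bs : ℕ → Pt)
    (a b n₁ : ℕ) : Prop where
  q0 : ∀ v, a ≤ v → v < b → 0 ≤ q v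
  T1 : ∀ v, a ≤ v → v < b → n₁ ≤ T v
  NT : ∀ v, a ≤ v → v < b → N v ≤ T v
  rr : ∀ v, a ≤ v → v < b → r v ≤ r (v + 1)
  b1 : ∀ v, a ≤ v → v < b → (bs v).1 ≤ r v
  b2 : ∀ v, a ≤ v → v < b → (r (v + 1) : ℤ) ≤ (bs v).1 + N v
  b3 : ∀ v, a ≤ v → v < b → |lat16 μ s κ (bs v)| ≤ wd μ s (T v)
  far : ∀ v, a ≤ v → v < b → η ∈ Far16 μ s c θ K (T v) (N v) P (bs v) (q v)
  force : ∀ v, a ≤ v → v < b → |h| * wd μ s (T v) ≤ c / 4 * EE μ s (T v)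
  len : ∀ v, a ≤ v → v < b → θ * T v ≤ ((r (v + 1) - r v : ℕ) : ℝ)

omit [IsProbabilityMeasure μ] in
theorem Lay89.sub {θ K h : ℝ} {P : ℕ} {η : Env} {κ : Pt} {r T N : ℕ → ℕ} {q : ℕ → ℝ} {bs : ℕ → Pt} {a b n₁ a' b' n₁' : ℕ}
    (hL : Lay89 μ s c θ K h P η κ r T N q bs a b n₁) (ha : a ≤ a') (hb : b' ≤ b) (hn : n₁' ≤ n₁) :
    Lay89 μ s c θ K h P η κ r T N q bs a' b' n₁' :=
  ⟨fun v h1 h2 => hL.q0 v (by omega) (by omega), fun v h1 h2 => hn.trans (hL.T1 v (by omega) (by omega)),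
    fun v h1 h2 => hL.NT v (by omega) (by omega), fun v h1 h2 => hL.rr v (by omega) (by omega),
    fun v h1 h2 => hL.b1 v (by omega) (by omega), fun v h1 h2 => hL.b2 v (by omega) (by omega),
    fun v h1 h2 => hL.b3 v (by omega) (by omega), fun v h1 h2 => hL.far v (by omega) (by omega),
    fun v h1 h2 => hL.force v (by omega) (by omega), fun v h1 h2 => hL.len v (by omega) (by omega)⟩

/-- **THE LAYERS ARE A `Sys84` IN EVERY BOX.** -/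
theorem sys89 (h0 : In μ s c C n₀) (P : ℕ) {θ K : ℝ} (hK : 3 ≤ K) (hθ : 0 < θ) : ∃ C' : ℝ, 0 < C' ∧ ∃ n₁ : ℕ, 1 ≤ n₁ ∧
    ∀ {h : ℝ} {η : Env} {p : ℕ → ℝ} {M : ℕ} {κ : Pt} {r T N : ℕ → ℕ} {q : ℕ → ℝ} {bs : ℕ → Pt} {a b n₂ : ℕ}, n₁ ≤ n₂ →
    (∀ k, k < M → p k = Real.exp (s + h)) → (∀ k, M ≤ k → p k = Real.exp s) → Lay89 μ s c θ K h P η κ r T N q bs a b n₂ →
    ∀ (x₀ R : ℤ) (ρ : ℝ), (∀ v, a < v → v < b → ∃ z ∈ bx r a x₀ R v, |lt μ s κ r v z - ρ| ≤ 1) →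
    Sys84 μ s (2 * P) (c / 2) (c / 8) (K - 2) 1 ρ T (qq P C' q) (lt μ s κ r) (kk μ s h η p M r) (bx r a x₀ R) a b := by
  have hc0 := h0.c0
  obtain ⟨C₄, hC₄, m₁, H⟩ := comp_up h0 P
  obtain ⟨m₂, hm₂, H2⟩ := sum89 h0
  obtain ⟨m₃, hm₃⟩ := eventually_atTop.1 ((wd_tendsto h0).eventually_ge_atTop 1)
  obtain ⟨C₅, hC₅, m₄, H3⟩ := comp_low h0 P (K := K) hK hθ
  obtain ⟨C', hC'⟩ : ∃ C' : ℝ, C' = max C₄ C₅ := ⟨_, rfl⟩
  have hC'4 : C₄ ≤ C' := by rw [hC']; exact le_max_left _ _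
  have hC'5 : C₅ ≤ C' := by rw [hC']; exact le_max_right _ _
  have hC'0 : 0 < C' := by linarith
  refine ⟨C', hC'0, max (max m₁ m₄) (max m₂ m₃), hm₂.trans ((le_max_left _ _).trans (le_max_right _ _)), ?_⟩
  intro h η p M κ r T N q bs a b n₂ hn₂ hp hp' h1 x₀ R ρ hmid
  have l1 : m₁ ≤ n₂ := ((le_max_left _ _).trans (le_max_left _ _)).trans hn₂
  have l4 : m₄ ≤ n₂ := ((le_max_right _ _).trans (le_max_left _ _)).trans hn₂
  have l2 : m₂ ≤ n₂ := ((le_max_left _ _).trans (le_max_right _ _)).trans hn₂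
  have l3 : m₃ ≤ n₂ := ((le_max_right _ _).trans (le_max_right _ _)).trans hn₂
  have hw : ∀ u, a ≤ u → u < b → 1 ≤ wd μ s (T u) := fun u hu hub => hm₃ _ (l3.trans (h1.T1 u hu hub))
  have hpos : ∀ k, 0 < p k := by
    intro k
    rcases lt_or_ge k M with h2 | h2
    · rw [hp k h2]
      exact Real.exp_pos _
    · rw [hp' k h2]
      exact Real.exp_pos _
  -- the level read from the line
  have hlev : ∀ (C₀ : ℝ), 0 ≤ C₀ → C₀ ≤ C' → ∀ u, a ≤ u → u < b → ∀ x : ℤ,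
      C₀ * (1 + q u) ^ 2 * fq16 (2 * P) (|lat16 μ s (bs u) ((r u : ℤ), x)| / wd μ s (T u) + 1) * EE μ s (T u) ≤
        qq P C' q u * gr (2 * P) (|lt μ s κ r u x| / wd μ s (T u)) * EE μ s (T u) := by
    intro C₀ hC₀ hC₀' u hu hub x
    have hw0 : 0 < wd μ s (T u) := by linarith [hw u hu hub]
    have h3 := lev_line (μ := μ) (s := s) (P := P) (p := ((r u : ℤ), x)) hw0 (h1.b3 u hu hub)
    refine mul_le_mul_of_nonneg_right ?_ (EE_pos (μ := μ) (s := s) (T u)).le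
    have h5 : C₀ * (1 + q u) ^ 2 * fq16 (2 * P) (|lat16 μ s (bs u) ((r u : ℤ), x)| / wd μ s (T u) + 1) ≤
        C' * (1 + q u) ^ 2 * (gr (2 * P) 2 * gr (2 * P) (|lat16 μ s κ ((r u : ℤ), x)| / wd μ s (T u))) :=
      mul_le_mul (mul_le_mul_of_nonneg_right hC₀' (sq_nonneg _)) h3 (zero_le_one.trans (fq16_one _ _)) (by positivity)
    refine h5.trans (le_of_eq ?_)
    unfold qq lt
    ring
  have hsum : ∀ u, bl M (r u) (r (u + 1) - r u) + ((r (u + 1) - r u) - bl M (r u) (r (u + 1) - r u)) = r (u + 1) - r u := fun u =>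
    Nat.add_sub_cancel' (bl_le M (r u) (r (u + 1) - r u))
  refine ⟨?_, fun v x y => nk_nonneg hpos _ _ _ _, ?_, ?_, ?_, hmid⟩
  · intro u
    unfold qq
    have := gr_nonneg (2 * P) (show (0 : ℝ) ≤ 2 by norm_num)
    positivity
  · intro u hu hub x y _
    have hru := h1.rr u hu hub
    have hb1 := h1.b1 u hu hub
    have hb2 := h1.b2 u hu hub
    have h2 := (H (l1.trans (h1.T1 u hu hub)) (h1.NT u hu hub) (h1.q0 u hu hub) (h1.far u hu hub) hK (h1.force u hu hub) ((r u : ℤ), x)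
      (bl M (r u) (r (u + 1) - r u)) ((r (u + 1) - r u) - bl M (r u) (r (u + 1) - r u)) hb1 (by
        show (r u : ℤ) + (bl M (r u) (r (u + 1) - r u) : ℕ) + (((r (u + 1) - r u) - bl M (r u) (r (u + 1) - r u) : ℕ) : ℤ) ≤ _
        have := hsum u
        omega)).1 (y - x)
    unfold kk
    rw [nk_K1 hp hp']
    refine h2.trans (Real.exp_le_exp.2 ?_)
    rw [hsum u, lt_sub κ r u (u + 1) x y hru]
    have h4 := hlev C₄ hC₄.le hC'4 u hu hub x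
    have h5 : c / 2 * (EE μ s (T u) / wd μ s (T u)) = hc μ s c (T u) / 2 := by
      unfold hc
      ring
    rw [h5]
    linarith
  · intro u hu hub x y _ hd
    have hru := h1.rr u hu hub
    have hb1 := h1.b1 u hu hub
    have hb2 := h1.b2 u hu hub
    have h2 := H3 (l4.trans (h1.T1 u hu hub)) (h1.NT u hu hub) (h1.q0 u hu hub) (h1.far u hu hub) (h1.force u hu hub) ((r u : ℤ), x)
      (bl M (r u) (r (u + 1) - r u)) ((r (u + 1) - r u) - bl M (r u) (r (u + 1) - r u)) (y - x) hb1 (by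
        show (r u : ℤ) + (bl M (r u) (r (u + 1) - r u) : ℕ) + (((r (u + 1) - r u) - bl M (r u) (r (u + 1) - r u) : ℕ) : ℤ) ≤ _
        have := hsum u
        omega) (by rw [hsum u]; exact h1.len u hu hub) (by
        rw [hsum u, ← lt_sub κ r u (u + 1) x y hru]
        exact hd)
    unfold kk
    rw [nk_K1 hp hp']
    exact le_trans (Real.exp_le_exp.2 (neg_le_neg (hlev C₅ hC₅.le hC'5 u hu hub x))) h2
  · intro u hu hub x
    have h2 := H2 (T u) (l2.trans (h1.T1 u hu hub)) ((x : ℝ) + sl μ s * ((r (u + 1) - r u : ℕ) : ℝ)) (bx r a x₀ R (u + 1))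
    rw [one_mul]
    refine le_trans (le_of_eq (sum_congr rfl fun y _ => ?_)) h2
    rw [lt_sub κ r u (u + 1) x y (h1.rr u hu hub)]
    congr 4
    push_cast
    ring

/-! ### The masses in the box -/

omit [IsProbabilityMeasure μ] in
/-- A large box contains the lines and the places. -/
theorem box89 (κ : Pt) (r : ℕ → ℕ) (a b : ℕ) (x₀ : ℤ) (Λ : ℝ) : ∃ R₀ : ℤ, ∀ R : ℤ, R₀ ≤ R → ∀ ρ : ℝ, |ρ| ≤ Λ → ∀ v, v ≤ b →
    ∃ z ∈ bx r a x₀ R v, |lt μ s κ r v z - ρ| ≤ 1 := by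
  obtain ⟨R₀, hR₀⟩ : ∃ R₀ : ℤ, R₀ = ∑ v ∈ range (b + 1), (|κ.2 - x₀| + |⌈|sl μ s * (((r v : ℤ) - κ.1 : ℤ) : ℝ)| + |Λ|⌉| + 1) := ⟨_, rfl⟩
  refine ⟨R₀, fun R hR ρ hρ v hv => ⟨κ.2 + ⌊sl μ s * (((r v : ℤ) - κ.1 : ℤ) : ℝ) + ρ⌋, ?_, line_site κ r ρ v⟩⟩
  have h1 : |κ.2 - x₀| + |⌈|sl μ s * (((r v : ℤ) - κ.1 : ℤ) : ℝ)| + |Λ|⌉| + 1 ≤ R₀ := by
    rw [hR₀]
    exact single_le_sum (f := fun v => |κ.2 - x₀| + |⌈|sl μ s * (((r v : ℤ) - κ.1 : ℤ) : ℝ)| + |Λ|⌉| + 1)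
      (fun v _ => by positivity) (mem_range.2 (by omega : v < b + 1))
  obtain ⟨t, ht⟩ : ∃ t : ℝ, t = sl μ s * (((r v : ℤ) - κ.1 : ℤ) : ℝ) := ⟨_, rfl⟩
  rw [← ht] at h1 ⊢
  have h2 := le_abs_self (⌈|t| + |Λ|⌉)
  have h3 : |t + ρ| ≤ (⌈|t| + |Λ|⌉ : ℝ) := (abs_add_le t ρ).trans ((add_le_add le_rfl (hρ.trans (le_abs_self Λ))).trans (Int.le_ceil _))
  obtain ⟨h4, h5⟩ := abs_le.1 h3
  have h6 : -⌈|t| + |Λ|⌉ ≤ ⌊t + ρ⌋ := Int.le_floor.2 (by push_cast; linarith)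
  have h7 : ⌊t + ρ⌋ ≤ ⌈|t| + |Λ|⌉ := by
    have := Int.floor_le (t + ρ)
    have h8 : (⌊t + ρ⌋ : ℝ) ≤ (⌈|t| + |Λ|⌉ : ℝ) := this.trans h5
    exact_mod_cast h8
  have h9 := abs_le.1 (le_refl |κ.2 - x₀|)
  unfold bx
  rw [mem_Icc]
  omega

omit [IsProbabilityMeasure μ] in
/-- **The mass identity in the box.** -/
theorem mass89 {h : ℝ} {η : Env} {p : ℕ → ℝ} {M N : ℕ} (hp : ∀ k, 0 < p k) {r : ℕ → ℕ} {a b : ℕ}
    (hr : ∀ u, a ≤ u → u < b → r u ≤ r (u + 1)) (hrN : r b ≤ N) {x₀ R : ℤ} {m u : ℕ} (hu : a ≤ u) (hm : u + m ≤ b) {x : ℤ}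
    (hx : x ∈ bx r a x₀ R u) : bh16 μ s h η p M N (r u) x =
      ∑ z ∈ bx r a x₀ R (u + m), cmp (kk μ s h η p M r) (bx r a x₀ R) m u x z * bh16 μ s h η p M N (r (u + m)) z := by
  have hS := sys_model16 (μ := μ) (s := s) (h := h) (η := η) (M := M) (N := N) hp
  have hau : r a ≤ r u := by
    have h1 := r_mono hr (u - a) a le_rfl (by omega)
    rwa [Nat.add_sub_cancel' hu] at h1
  have h2 := r_mono hr m u hu hm
  have h3 : r (u + m) ≤ N := by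
    have h4 := r_mono hr (b - (u + m)) (u + m) (by omega) (by omega)
    rw [Nat.add_sub_cancel' hm] at h4
    exact h4.trans hrN
  rw [hS.step (r u) (r (u + m)) x h2 h3]
  have hsub : Icc x (x + ((r (u + m) - r u : ℕ) : ℤ)) ⊆ bx r a x₀ R (u + m) := by
    intro z hz
    unfold bx at hx ⊢
    rw [mem_Icc] at hx hz ⊢
    omega
  rw [sum_subset hsub fun z _ hz => by
    rw [hS.out (r u) (r (u + m)) x z h2 (fun h => hz (mem_Icc.2 h)), zero_mul]]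
  exact sum_congr rfl fun z _ => by rw [cmp_nk hr m u hu hm x hx z]

omit [IsProbabilityMeasure μ] in
/-- The mass through the places `Q` in the box. -/
theorem pm89 {h : ℝ} {η : Env} {p : ℕ → ℝ} {M N : ℕ} {r : ℕ → ℕ} {a b : ℕ} (hr : ∀ u, a ≤ u → u < b → r u ≤ r (u + 1)) {x₀ R : ℤ}
    {m u : ℕ} (hu : a ≤ u) (hm : u + m ≤ b) {x : ℤ} (hx : x ∈ bx r a x₀ R u) (Q : ℤ → Prop) [DecidablePred Q] :
    PM16 (fun a b x z => nk μ s h η p M a (b - a) x z) (bh16 μ s h η p M N) (r u) (r (u + m)) x Q =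
      ∑ z ∈ (Icc x (x + ((r (u + m) - r u : ℕ) : ℤ))).filter Q, cmp (kk μ s h η p M r) (bx r a x₀ R) m u x z *
        bh16 μ s h η p M N (r (u + m)) z := by
  unfold PM16
  exact sum_congr rfl fun z _ => by rw [cmp_nk hr m u hu hm x hx z]

/-! ### The comparison for the model -/

/-- The levels of the system. -/
theorem qq_le (P : ℕ) {C' q₀ θ : ℝ} {q : ℕ → ℝ} {u v : ℕ} (hC' : 0 ≤ C') (_hq₀ : 0 ≤ q₀) (hθ : 1 ≤ θ) (hq0 : 0 ≤ q v)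
    (hq : q v ≤ q₀ * θ ^ (v - u)) : qq P C' q v ≤ C' * gr (2 * P) 2 * (1 + q₀) ^ 2 * (θ ^ 2) ^ (v - u) := by
  have hg := gr_nonneg (2 * P) (show (0 : ℝ) ≤ 2 by norm_num)
  have h1 : 1 ≤ θ ^ (v - u) := one_le_pow₀ hθ
  have h2 : 1 + q v ≤ (1 + q₀) * θ ^ (v - u) := by linarith
  have h3 := pow_le_pow_left₀ (by linarith) h2 2
  unfold qq
  calc C' * gr (2 * P) 2 * (1 + q v) ^ 2 ≤ C' * gr (2 * P) 2 * ((1 + q₀) * θ ^ (v - u)) ^ 2 :=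
        mul_le_mul_of_nonneg_left h3 (by positivity)
    _ = _ := by rw [mul_pow, ← pow_mul, ← pow_mul, mul_comm (v - u) 2]; ring

/-- **ONE PLACE OF THE SCALE `i` AGAINST ONE PLACE OF THE INNER WINDOW**, for the masses of the model; the arms of the place at the row
`r (u + (i + 2))` in the form of `PM16`. -/
theorem dd_one89 (h0 : In μ s c C n₀) (P : ℕ) {θ K : ℝ} (hθ : 0 < θ) : ∃ K₀ : ℕ, 2 ≤ K₀ ∧
    ∀ K₁ q₀ R Pa : ℝ, 1 ≤ K₁ → K₁ + 3 ≤ K → 0 ≤ q₀ → 0 ≤ R → 0 ≤ Pa → ∀ b : ℕ, ∃ (A : ℝ) (n₁ : ℕ), 0 ≤ A ∧ 1 ≤ n₁ ∧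
    ∀ {h : ℝ} {η : Env} {p : ℕ → ℝ} {M Nt : ℕ} {κ : Pt} {r T N : ℕ → ℕ} {q : ℕ → ℝ} {bs : ℕ → Pt} {u i : ℕ} {Θ : ℝ},
    (∀ k, k < M → p k = Real.exp (s + h)) → (∀ k, M ≤ k → p k = Real.exp s) → 1 ≤ Θ → Θ ^ 2 ≤ 2 →
    Lay89 μ s c θ K h P η κ r T N q bs u (u + (i + 2)) n₁ → r (u + (i + 2)) ≤ Nt →
    (∀ v, u ≤ v → v < u + (i + 1) → K₀ * T v ≤ T (v + 1) ∧ T (v + 1) ≤ b * T v) →
    (∀ v, u ≤ v → v < u + (i + 2) → q v ≤ q₀ * Θ ^ (v - u)) →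
    ∀ (ρ : ℝ), |ρ| ≤ R * wd μ s (T u) → ∀ (x x' : ℤ), |lt μ s κ r u x - ρ| ≤ K₁ * wd μ s (T (u + i)) →
    |lt μ s κ r u x' - ρ| ≤ K₁ * wd μ s (T u) → ∀ (Q : ℤ → Prop) [DecidablePred Q],
    (∀ z, x ≤ z → z ≤ x + ((r (u + (i + 2)) - r u : ℕ) : ℤ) → Q z →
      |lt μ s κ r (u + (i + 2)) z - ρ| ≤ (K - 2) * wd μ s (T (u + (i + 1))) - 1) →
    bh16 μ s h η p M Nt (r u) x ≤
      Pa * PM16 (fun a b x z => nk μ s h η p M a (b - a) x z) (bh16 μ s h η p M Nt) (r u) (r (u + (i + 2))) x Q →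
    bh16 μ s h η p M Nt (r u) x ≤ Real.exp (A * (Θ ^ (4 * i) * EE μ s (T (u + i)))) * bh16 μ s h η p M Nt (r u) x' := by
  have hc0 := h0.c0
  obtain ⟨K₀, hK₀, H⟩ := ddi_one h0 (2 * P) (cc := c / 2) (c₁ := c / 8) (c₂ := c / 8) (c₃ := c / 4) (by positivity) (by positivity)
    (by positivity) (by linarith)
  refine ⟨K₀, hK₀, fun K₁ q₀ R Pa hK₁ hK hq₀ hR hPa b => ?_⟩
  obtain ⟨C', hC', m₁, hm₁, HS⟩ := sys89 h0 P (θ := θ) (K := K) (by linarith) hθ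
  have hg := gr_nonneg (2 * P) (show (0 : ℝ) ≤ 2 by norm_num)
  obtain ⟨A, m₂, hA, hm₂, H2⟩ := H (K - 2) K₁ (C' * gr (2 * P) 2 * (1 + q₀) ^ 2) 1 R Pa hK₁ (by linarith) (by positivity) zero_le_one hR hPa b
  refine ⟨A, max m₁ m₂, hA, hm₁.trans (le_max_left _ _), ?_⟩
  intro h η p M Nt κ r T N q bs u i Θ hp hp' hΘ hΘ2 hL hrN hT hq ρ hρ x x' hx hx' Q _ hQ harm
  have hpos : ∀ k, 0 < p k := by
    intro k
    rcases lt_or_ge k M with h2 | h2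
    · rw [hp k h2]
      exact Real.exp_pos _
    · rw [hp' k h2]
      exact Real.exp_pos _
  obtain ⟨R₀, hR₀⟩ := box89 (μ := μ) (s := s) κ r u (u + (i + 2)) x |ρ|
  obtain ⟨Rb, hRb⟩ : ∃ Rb : ℤ, Rb = max R₀ |x' - x| := ⟨_, rfl⟩
  have hR1 : R₀ ≤ Rb := by rw [hRb]; exact le_max_left _ _
  have hR2 : |x' - x| ≤ Rb := by rw [hRb]; exact le_max_right _ _
  have hxb : x ∈ bx r u x Rb u := by
    unfold bx
    rw [mem_Icc]
    have := (abs_nonneg (x' - x)).trans hR2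
    omega
  have hxb' : x' ∈ bx r u x Rb u := by
    unfold bx
    rw [mem_Icc]
    rw [abs_le] at hR2
    omega
  have hsys := HS (le_max_left _ _) hp hp' hL x Rb ρ fun v _ hv => hR₀ Rb hR1 ρ le_rfl v hv.le
  have hrr := hL.rr
  have e1 := mass89 (μ := μ) (s := s) (h := h) (η := η) (M := M) (N := Nt) hpos hrr hrN (m := i + 2) le_rfl le_rfl hxb
  have e2 := mass89 (μ := μ) (s := s) (h := h) (η := η) (M := M) (N := Nt) hpos hrr hrN (m := i + 2) le_rfl le_rfl hxb'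
  have e3 := pm89 (μ := μ) (s := s) (h := h) (η := η) (p := p) (M := M) (N := Nt) hrr (m := i + 2) le_rfl le_rfl hxb Q
  rw [e3] at harm
  have hΘp : ∀ n : ℕ, Θ ^ (2 * n) = (Θ ^ 2) ^ n := fun n => pow_mul Θ 2 n
  have key := H2 T u i (u + (i + 2)) (Θ ^ 2) (one_le_pow₀ hΘ) hΘ2 ((le_max_right _ _).trans (hL.T1 u le_rfl (by omega))) hT le_rfl
    (qq P C' q) (lt μ s κ r) (kk μ s h η p M r) (bx r u x Rb) ρ hsys
    (fun v hv hv' => qq_le P hC'.le hq₀ hΘ (hL.q0 v hv hv') (hq v hv hv')) hρ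
    (bh16 μ s h η p M Nt (r u)) (bh16 μ s h η p M Nt (r (u + (i + 2))))
    ((Icc x (x + ((r (u + (i + 2)) - r u : ℕ) : ℤ))).filter Q) x x'
    (fun z => ((sys_model16 (μ := μ) (s := s) (h := h) (η := η) (M := M) (N := Nt) hpos).b0 _ z hrN).le) e1 e2
    (fun z hz => by
      obtain ⟨z1, z2⟩ := mem_filter.1 hz
      rw [mem_Icc] at z1
      refine ⟨?_, hQ z z1.1 z1.2 z2⟩
      unfold bx at hxb ⊢
      rw [mem_Icc] at hxb ⊢
      omega) hx hx' harm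
  rw [← pow_mul] at key
  rw [show 4 * i = 2 * (2 * i) by ring]
  exact key

omit [IsProbabilityMeasure μ] in
/-- The lateral coordinate. -/
theorem lt_eq (κ : Pt) (r : ℕ → ℕ) (u : ℕ) (x : ℤ) :
    lt μ s κ r u x = (x : ℝ) - ((κ.2 : ℝ) + sl μ s * ((r u : ℝ) - (κ.1 : ℝ))) := by
  unfold lt lat16
  push_cast
  ring

end

end Pool.Agent.W_7d29a1_C1.SysN89
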