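import Pool.Agent.W_7d29a1_C1.LRC84
import Pool.Agent.W_7d29a1_C1.Stp84
import Pool.Agent.W_7d29a1_C1.SysN89
import Pool.Agent.W_7d29a1_C1.ArmK88

/-!
MP_7d29a1_pr, [C1], (LR): the local regularity at far places for the kernels `nk` and ANY backward masses `B` (`Sys16`). (helper89)

`Stp89`: the steep step (helper84's `Stp84`) in ONE slab; `lrb_q89` = helper84's `lrb_one` over it, `ddi_q89` = `ddi_one`, both with the constant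
`A (1 + q₀) ^ 2`, `A` before `q₀`. `steep89`: the steep step of `nk` from `StE84` on rows all below or all above the switch. `massG89`, `pmG89`,
**`dd_oneG89`**: the mass identities and the comparison of `SysN89` for any backward masses, constant `A (1 + q₀) ^ 4`. **`lr_one89`**: two places
at a far lateral position. **`lr_sw89`**: the same without any condition on the switch row.
-/

set_option autoImplicit false

namespace Pool.Agent.W_7d29a1_C1.LrN89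

open MeasureTheory ProbabilityTheory Filter Topology Finset
open Pool.Agent.W_7d29a1_F Pool.Agent.W_7d29a1_h4g Pool.Agent.W_7d29a1_H Pool.Agent.W_7d29a1_HS
open Pool.Agent.W_7d29a1_C1.H75 Pool.Agent.W_7d29a1_C1.U16 Pool.Agent.W_7d29a1_C1.FarK89 Pool.Agent.W_7d29a1_C1.FarW89
open Pool.Agent.W_7d29a1_C1.DD84 Pool.Agent.W_7d29a1_C1.SysN89
open Pool.Agent.W_7d29a1_C1.K91 (wt wt_pos)
open Pool.Agent.W_7d29a1_C1.ArmK88 (nk_lo nk_hi)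

noncomputable section

/-- Grid points, lines and the steep steps of the slab `u + (i + 1)`. -/
structure Stp89 (μ : Measure ℝ) (s B₁ B₂ Λ δ : ℝ) (T : ℕ → ℕ) (q : ℕ → ℝ) (ℓ : ℕ → ℤ → ℝ) (k : ℕ → ℤ → ℤ → ℝ) (B : ℕ → Finset ℤ)
    (Gr : ℕ → ℤ → Prop) (u i : ℕ) : Prop where
  line : ∀ r : ℝ, |r| ≤ Λ → ∀ v, u < v → v < u + (i + 3) → ∃ z ∈ B v, |ℓ v z - r| ≤ 1
  grid : ∀ ρ : ℝ, |ρ| ≤ Λ → ∀ v, u + i ≤ v → v ≤ u + (i + 1) → ∃ p ∈ B (v + 1), Gr (v + 1) p ∧ |ℓ (v + 1) p - ρ| ≤ wd μ s (T v)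
  steep : ∀ j : ℕ, 1 ≤ j → ∀ p ∈ B (u + (i + 1)), ∀ p' ∈ B (u + (i + 2)), Gr (u + (i + 1)) p → Gr (u + (i + 2)) p' →
    |ℓ (u + (i + 1)) p| ≤ B₁ ^ j * wd μ s (T (u + (i + 1))) →
    |ℓ (u + (i + 2)) p' - ℓ (u + (i + 1)) p| ≤ 2 ^ j * wd μ s (T (u + (i + 1))) →
    2 ^ j * wd μ s (T (u + (i + 1))) ≤ δ * T (u + (i + 1)) →
    Real.exp (-(q (u + (i + 1)) * B₂ ^ j * EE μ s (T (u + (i + 1))))) ≤ k (u + (i + 1)) p p'

theorem q_sq89 {a q x : ℝ} (ha : 0 ≤ a) (hq : 0 ≤ q) (hx : x = a * q) : (1 + x) ^ 2 ≤ (1 + a) ^ 2 * (1 + q) ^ 2 := by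
  rw [hx, ← mul_pow]
  refine pow_le_pow_left₀ (by positivity) ?_ 2
  have h1 : 0 ≤ a * q := by positivity
  linarith [show (1 + a) * (1 + q) = 1 + a * q + a + q by ring]

variable {μ : Measure ℝ} [IsProbabilityMeasure μ] {s c C : ℝ} {n₀ : ℕ}

/-- `lrb_one` of helper84: the steep step asked in the slab `u + (i + 1)` only, the constant explicit in `q₀`. -/
theorem lrb_q89 (h : In μ s c C n₀) (P : ℕ) {cc c₁ c₂ c₃ B₂ : ℝ} (hc₁ : 0 < c₁) (hc₂ : 0 ≤ c₂) (hc₃ : 0 ≤ c₃) (hcc : c₁ + c₂ + c₃ ≤ cc)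
    (hB₂ : 2 ≤ B₂) : ∃ K₀ : ℕ, 2 ≤ K₀ ∧ ∀ κ' K₁ S₀ R Y Bp : ℝ, 2 ≤ κ' → 1 ≤ K₁ → 0 ≤ S₀ → 0 ≤ R → 1 ≤ Y → 2 ≤ Bp → ∀ b : ℕ,
    ∃ (A : ℝ) (j₀ n₁ : ℕ), 0 ≤ A ∧ 1 ≤ n₁ ∧ ∀ q₀ : ℝ, 0 ≤ q₀ → ∀ (T : ℕ → ℕ) (u i j : ℕ) (θ Λ δ : ℝ), 1 ≤ θ → θ ≤ 2 → n₁ ≤ T u →
    (∀ v, u ≤ v → v < u + (i + 2) → K₀ * T v ≤ T (v + 1) ∧ T (v + 1) ≤ b * T v) →
    (R + K₁ + Y + 1) * (Bp ^ j * wd μ s (T (u + (i + 2)))) ≤ Λ → 2 ^ (j + j₀) * wd μ s (T (u + (i + 1))) ≤ δ * T (u + (i + 1)) →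
    ∀ (q : ℕ → ℝ) (ℓ : ℕ → ℤ → ℝ) (k : ℕ → ℤ → ℤ → ℝ) (B : ℕ → Finset ℤ) (Gr : ℕ → ℤ → Prop) (r β : ℝ),
    Sys84 μ s P cc c₂ κ' S₀ r T q ℓ k B u (u + (i + 3)) → Stp89 μ s Bp B₂ Λ δ T q ℓ k B Gr u i →
    (∀ v, u ≤ v → v < u + (i + 3) → q v ≤ q₀ * θ ^ (v - u)) → |r| ≤ R * wd μ s (T u) → (∀ x : ℤ, ℓ u x = x - β) →
    ∀ (F G : ℤ → ℝ) (Z : Finset ℤ) (x x' : ℤ), (∀ z, 0 ≤ G z) → 0 ≤ F x' →
    |(x : ℝ) - (β + r)| ≤ K₁ * (Bp ^ j * wd μ s (T (u + i))) → |(x' : ℝ) - (β + r)| ≤ K₁ * (Bp ^ j * wd μ s (T (u + i))) →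
    |(x : ℝ) - x'| ≤ 2 * K₁ * wd μ s (T (u + i)) →
    (∀ z ∈ Z, z ∈ B (u + (i + 3)) ∧ |ℓ (u + (i + 3)) z - ℓ u x| ≤ Y * 2 ^ j * wd μ s (T (u + (i + 2)))) →
    F x ≤ 2 * ∑ z ∈ Z, cmp k B (i + 3) u x z * G z → ∑ z ∈ Z, cmp k B (i + 3) u x' z * G z ≤ F x' →
    F x ≤ Real.exp (A * (1 + q₀) ^ 2 * (B₂ ^ j * θ ^ (2 * i) * EE μ s (T (u + i)))) * F x' := by
  obtain ⟨D', K₀, n₂, hD1, hK2, hn2, henv⟩ := env84 h P
  refine ⟨K₀, hK2, fun κ' K₁ S₀ R Y Bp hκ' hK₁ hS₀ hR hY hBp b => ?_⟩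
  have hCL := CL_pos P hc₁
  have hD0 : 0 < D' := by linarith
  have hκ'0 : 0 < κ' := by linarith
  obtain ⟨Bw, n₃, hBw2, hn3, hBw⟩ := wd_next h b
  obtain ⟨Cg, hCg1, hCg⟩ := gr_exp P (a := R + K₁ + Y + 1 + κ') (b := Bp) (by linarith) (by linarith)
  obtain ⟨j₀, hj1, hj₀⟩ : ∃ j₀ : ℕ, 1 ≤ j₀ ∧ 2 + Y * Bw + 2 * K₁ + R ≤ 2 ^ j₀ := by
    obtain ⟨N, hN⟩ := exists_nat_ge (2 + Y * Bw + 2 * K₁ + R)
    refine ⟨N + 1, by omega, (hN.trans (by exact_mod_cast Nat.lt_two_pow_self.le)).trans (pow_le_pow_right₀ (by norm_num) (Nat.le_succ N))⟩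
  have hB₂00 : 0 < B₂ := by linarith
  obtain ⟨A₃₀, hA₃₀⟩ : ∃ A₃₀ : ℝ, A₃₀ = CL P c₁ * (1 + 4 * D') ^ 2 * Cg + S₀ * D' + 4 * D' * Cg := ⟨_, rfl⟩
  obtain ⟨A₄₀, hA₄₀⟩ : ∃ A₄₀ : ℝ, A₄₀ = 2 * B₂ ^ j₀ := ⟨_, rfl⟩
  have hA₃₀0 : 0 ≤ A₃₀ := by rw [hA₃₀]; positivity
  have hA₄₀0 : 0 ≤ A₄₀ := by rw [hA₄₀]; positivity
  refine ⟨A₃₀ * (2 * b * (2 * b)) + A₄₀ * (2 * b) + 1, j₀, max n₂ n₃, by positivity, hn2.trans (le_max_left _ _), fun q₀ hq₀ => ?_⟩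
  -- the constants
  obtain ⟨A₂, hA₂⟩ : ∃ A₂ : ℝ, A₂ = CL P c₁ * (1 + 4 * q₀ * D') ^ 2 := ⟨_, rfl⟩
  have hA20 : 0 < A₂ := by rw [hA₂]; positivity
  obtain ⟨A₃, hA₃⟩ : ∃ A₃ : ℝ, A₃ = A₂ * Cg + S₀ * D' + 4 * q₀ * D' * Cg := ⟨_, rfl⟩
  have hA30 : 0 ≤ A₃ := by rw [hA₃]; positivity
  have hB₂0 : 0 < B₂ := by linarith
  obtain ⟨A₄, hA₄⟩ : ∃ A₄ : ℝ, A₄ = 2 * q₀ * B₂ ^ j₀ := ⟨_, rfl⟩
  have hA40 : 0 ≤ A₄ := by rw [hA₄]; positivity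
  have hAA : A₃ * (2 * b * (2 * b)) + A₄ * (2 * b) + 1 ≤ (A₃₀ * (2 * b * (2 * b)) + A₄₀ * (2 * b) + 1) * (1 + q₀) ^ 2 := by
    have hq1 : 1 ≤ (1 + q₀) ^ 2 := one_le_pow₀ (by linarith)
    have hq2 : q₀ ≤ (1 + q₀) ^ 2 := by nlinarith only [hq₀]
    have e1 : A₃ ≤ A₃₀ * (1 + q₀) ^ 2 := by
      have f1 : (1 + 4 * q₀ * D') ^ 2 ≤ (1 + 4 * D') ^ 2 * (1 + q₀) ^ 2 := q_sq89 (by positivity) hq₀ (by ring)
      obtain ⟨U, hU⟩ : ∃ U, U = (1 + q₀) ^ 2 := ⟨_, rfl⟩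
      obtain ⟨V, hV⟩ : ∃ V, V = (1 + 4 * q₀ * D') ^ 2 := ⟨_, rfl⟩
      obtain ⟨V', hV'⟩ : ∃ V', V' = (1 + 4 * D') ^ 2 := ⟨_, rfl⟩
      rw [← hU] at hq1 hq2
      rw [← hU, ← hV, ← hV'] at f1
      rw [hA₃, hA₂, hA₃₀, ← hU, ← hV, ← hV']
      have f2 := mul_le_mul_of_nonneg_left f1 (show 0 ≤ CL P c₁ * Cg by positivity)
      have f3 := mul_le_mul_of_nonneg_left hq1 (show 0 ≤ S₀ * D' by positivity)
      have f4 := mul_le_mul_of_nonneg_left hq2 (show 0 ≤ 4 * D' * Cg by positivity)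
      calc CL P c₁ * V * Cg + S₀ * D' + 4 * q₀ * D' * Cg =
          CL P c₁ * Cg * V + S₀ * D' * 1 + 4 * D' * Cg * q₀ := by ring
        _ ≤ CL P c₁ * Cg * (V' * U) + S₀ * D' * U + 4 * D' * Cg * U := add_le_add (add_le_add f2 f3) f4
        _ = _ := by ring
    have e2 : A₄ ≤ A₄₀ * (1 + q₀) ^ 2 := by
      have f4 := mul_le_mul_of_nonneg_left hq2 (show 0 ≤ 2 * B₂ ^ j₀ by positivity)
      rw [hA₄, hA₄₀]
      linarith
    have e3 := mul_le_mul_of_nonneg_right e1 (show (0 : ℝ) ≤ 2 * b * (2 * b) by positivity)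
    have e4 := mul_le_mul_of_nonneg_right e2 (show (0 : ℝ) ≤ 2 * b by positivity)
    linarith
  intro T u i j θ Λ δ hθ hθ2 hT0 hT hΛ hcone q ℓ k B Gr r β hsys hstp hq hr hℓ F G Z x x' hG hF0 hx hx' hxx hZ hF hF'
  have g2 : n₂ ≤ T u := (le_max_left _ _).trans hT0
  have g3 : n₃ ≤ T u := (le_max_right _ _).trans hT0
  have hTu1 : 1 ≤ T u := hn2.trans g2
  have hK1 : 1 ≤ K₀ := by omega
  have hmon1 : ∀ v, u ≤ v → v < u + (i + 2) → T v ≤ T (v + 1) := fun v hv hv' =>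
    (Nat.le_mul_of_pos_left _ hK1).trans (hT v hv hv').1
  have hmon : ∀ a, a ≤ i + 2 → T u ≤ T (u + a) := by
    intro a
    induction a with
    | zero => intro _; exact le_rfl
    | succ a ih =>
      intro ha
      rw [show u + (a + 1) = u + a + 1 by omega]
      exact (ih (by omega)).trans (hmon1 (u + a) (by omega) (by omega))
  -- the envelope
  obtain ⟨e, s', hE, he, hs⟩ := henv (cc := cc) (c₂ := c₂) (κ' := κ') (S₀ := S₀) (r := r) (q₀ := q₀) (θ := θ) (T := T) (q := q)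
    (ℓ := ℓ) (k := k) (B := B) (u := u) (i := i + 1) (M := u + (i + 3)) (by linarith) hc₂ hS₀ hq₀ hθ g2
    (fun v hv hv' => (hT v hv (by omega)).1) (by omega) hsys (fun v hv hv' => hq v hv (by omega))
  rw [show i + 1 + 1 = i + 2 by omega, show i + 1 + 2 = i + 3 by omega] at hE
  rw [show i + 1 + 2 = i + 3 by omega, show i + 1 + 1 = i + 2 by omega] at he
  rw [show i + 1 + 2 = i + 3 by omega] at hs
  obtain ⟨wt, hwt⟩ : ∃ wt, wt = wd μ s (T (u + (i + 2))) := ⟨_, rfl⟩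
  obtain ⟨Et, hEt⟩ : ∃ Et, Et = EE μ s (T (u + (i + 2))) := ⟨_, rfl⟩
  obtain ⟨wv, hwv⟩ : ∃ wv, wv = wd μ s (T (u + (i + 1))) := ⟨_, rfl⟩
  obtain ⟨Ev, hEv⟩ : ∃ Ev, Ev = EE μ s (T (u + (i + 1))) := ⟨_, rfl⟩
  obtain ⟨wi, hwi⟩ : ∃ wi, wi = wd μ s (T (u + i)) := ⟨_, rfl⟩
  obtain ⟨Ei, hEi⟩ : ∃ Ei, Ei = EE μ s (T (u + i)) := ⟨_, rfl⟩
  rw [← hwt, ← hEt] at hE
  have hwt0 : 0 < wt := hE.wt0
  have hEt0 : 0 < Et := hE.Et0
  have hw2 : ∀ v, u ≤ v → v < u + (i + 3) → 2 ≤ wd μ s (T v) := by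
    intro v hv hv'
    have h1 : T u ≤ T v := by
      have := hmon (v - u) (by omega)
      rwa [show u + (v - u) = v by omega] at this
    have h2 := wd_ge_one h (hTu1.trans h1)
    have h3 := one_le_EE (μ := μ) (s := s) (T v)
    linarith
  have hwi2 : 2 ≤ wi := by rw [hwi]; exact hw2 _ (by omega) (by omega)
  have hwv2 : 2 ≤ wv := by rw [hwv]; exact hw2 _ (by omega) (by omega)
  have hEi1 : 1 ≤ Ei := by rw [hEi]; exact one_le_EE _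
  have hEv0 : 0 < Ev := by rw [hEv]; exact EE_pos _
  have hwvt : wv ≤ wt := by
    rw [hwv]
    exact hE.wle _ (by omega) (by omega)
  have hwit : wi ≤ wt := by
    rw [hwi]
    exact hE.wle _ (by omega) (by omega)
  have hwut : wd μ s (T u) ≤ wt := hE.wle u le_rfl (by omega)
  have hwuv : wd μ s (T u) ≤ wv ∧ wi ≤ wv := by
    obtain ⟨e', s'', hE', -, -⟩ := henv (cc := cc) (c₂ := c₂) (κ' := κ') (S₀ := S₀) (r := r) (q₀ := q₀) (θ := θ) (T := T) (q := q)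
      (ℓ := ℓ) (k := k) (B := B) (u := u) (i := i) (M := u + (i + 3)) (by linarith) hc₂ hS₀ hq₀ hθ g2
      (fun v hv hv' => (hT v hv (by omega)).1) (by omega) hsys (fun v hv hv' => hq v hv (by omega))
    rw [hwv, hwi]
    exact ⟨hE'.wle u le_rfl (by omega), hE'.wle (u + i) (by omega) (by omega)⟩
  obtain ⟨hwuv, hwiv⟩ := hwuv
  have hBj1 : 1 ≤ Bp ^ j := one_le_pow₀ (by linarith)
  have h2j1 : (1 : ℝ) ≤ 2 ^ j := one_le_pow₀ (by norm_num)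
  have h2Bw : (2 : ℝ) ^ j ≤ Bp ^ j := pow_le_pow_left₀ (by norm_num) hBp j
  have hwi0 : 0 ≤ wi := by linarith
  -- lateral positions
  have hrw : |r| ≤ R * wi := by
    refine hr.trans (mul_le_mul_of_nonneg_left ?_ hR)
    have : wd μ s (T u) ≤ wi := by
      rcases Nat.eq_zero_or_pos i with h0 | h0
      · rw [hwi, h0, add_zero]
      · obtain ⟨e', s'', hE', -, -⟩ := henv (cc := cc) (c₂ := c₂) (κ' := κ') (S₀ := S₀) (r := r) (q₀ := q₀) (θ := θ) (T := T) (q := q)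
          (ℓ := ℓ) (k := k) (B := B) (u := u) (i := i - 1) (M := u + (i + 3)) (by linarith) hc₂ hS₀ hq₀ hθ g2
          (fun v hv hv' => (hT v hv (by omega)).1) (by omega) hsys (fun v hv hv' => hq v hv (by omega))
        rw [show i - 1 + 1 = i by omega] at hE'
        rw [hwi]
        exact hE'.wle u le_rfl (by omega)
    exact this
  have hlat : ∀ y : ℤ, |(y : ℝ) - (β + r)| ≤ K₁ * (Bp ^ j * wi) → |ℓ u y| ≤ (R + K₁) * (Bp ^ j * wi) := by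
    intro y hy
    rw [hℓ]
    have h1 := abs_add_le ((y : ℝ) - (β + r)) r
    rw [show (y : ℝ) - (β + r) + r = y - β by ring] at h1
    have h3 : R * wi ≤ R * (Bp ^ j * wi) := mul_le_mul_of_nonneg_left (le_mul_of_one_le_left hwi0 hBj1) hR
    linarith
  rw [← hwi] at hx hx'
  have hlx := hlat x hx
  have hlx' := hlat x' hx'
  have hll : ℓ u x - ℓ u x' = x - x' := by rw [hℓ, hℓ]; ring
  rw [← hwt] at hZ hΛ
  have hRK : 0 ≤ R + K₁ := by linarith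
  have hBit : Bp ^ j * wi ≤ Bp ^ j * wt := mul_le_mul_of_nonneg_left hwit (by positivity)
  have hΛ1 : (R + K₁) * (Bp ^ j * wi) ≤ Λ := by
    refine le_trans ?_ hΛ
    exact mul_le_mul (by linarith) hBit (by positivity) (by linarith)
  have hY0 : 0 ≤ Y := by linarith
  have hθi : 1 ≤ θ ^ i := one_le_pow₀ hθ
  have hθi0 : 0 < θ ^ i := by linarith
  have hθ2i : θ ^ (2 * i) = θ ^ i * θ ^ i := by rw [two_mul, pow_add]
  have hθθ : θ ^ i ≤ θ ^ (2 * i) := by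
    rw [hθ2i]
    exact le_mul_of_one_le_left hθi0.le hθi
  have h2B : (2 : ℝ) ^ j ≤ B₂ ^ j := pow_le_pow_left₀ (by norm_num) hB₂ j
  have hB2j1 : 1 ≤ B₂ ^ j := h2j1.trans h2B
  have hQt : q₀ * D' * θ ^ (i + 2) ≤ 4 * q₀ * D' * θ ^ i := by
    rw [pow_add]
    have h1 : θ ^ 2 ≤ 4 := by nlinarith only [hθ, hθ2]
    have h2 : 0 ≤ q₀ * D' * θ ^ i := by positivity
    have := mul_le_mul_of_nonneg_left h1 h2
    linarith
  have hQt0 : 0 ≤ q₀ * D' * θ ^ (i + 2) := by positivity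
  have hgx : ∀ X : ℝ, 0 ≤ X → X ≤ (R + K₁ + Y + 1 + κ') * (Bp ^ j * wt) → gr P (X / wt) ≤ Cg * 2 ^ j := by
    intro X hX0 hX
    refine hCg j (X / wt) (by positivity) ?_
    rw [div_le_iff₀ hwt0, mul_assoc]
    exact hX
  have hBwt : Bp ^ j * wi ≤ Bp ^ j * wt := hBit
  have hwtB : wt ≤ Bp ^ j * wt := le_mul_of_one_le_left hwt0.le hBj1
  obtain ⟨W, hW⟩ : ∃ W, W = Bp ^ j * wt := ⟨_, rfl⟩
  rw [← hW] at hBwt hwtB hgx hΛ
  have hW0 : 0 ≤ W := by linarith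
  have hlxW := hlx.trans (mul_le_mul_of_nonneg_left hBwt hRK)
  have hlxW' := hlx'.trans (mul_le_mul_of_nonneg_left hBwt hRK)
  have hzlat : ∀ z ∈ Z, |ℓ (u + (i + 3)) z| ≤ |ℓ u x| + Y * 2 ^ j * wt := by
    intro z hz
    have h1 := (hZ z hz).2
    have h2 := abs_add_le (ℓ (u + (i + 3)) z - ℓ u x) (ℓ u x)
    rw [sub_add_cancel] at h2
    linarith
  have hYW : Y * 2 ^ j * wt ≤ Y * W := by
    rw [hW, mul_assoc]
    exact mul_le_mul_of_nonneg_left (mul_le_mul_of_nonneg_right h2Bw hwt0.le) hY0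
  -- the grid points
  have hgrid1 := hstp.grid (ℓ u x') (hlx'.trans hΛ1) (u + i) (by omega) (by omega)
  obtain ⟨p₁, hp₁, hG₁, hd₁⟩ := hgrid1
  rw [← hwi] at hd₁
  have hfin := lr_env (u := u) (m := i) hE (κ := κ') (c₁ := c₁) (c₃ := c₃) (Q := q₀ * D' * θ ^ (i + 2)) (S := S₀ * D') (Pa := 2)
    (g := Cg * 2 ^ j) (st := q (u + (i + 1)) * B₂ ^ (j + j₀) * Ev) hc₁ hc₃ hcc he hs (by linarith) hw2
    (fun v hv hv' => hsys.low v hv (by omega)) (F := F) (G := G) hG (Z := Z) (by norm_num) (x := x) (x' := x') hF hF'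
    (fun v hv hv' => hstp.line (ℓ u x') (hlx'.trans hΛ1) v hv (by omega)) ?_ ?_
  · rw [← hEi]
    refine hfin.trans (mul_le_mul_of_nonneg_right ?_ hF0)
    have hLQ : LQ P c₁ (q₀ * D' * θ ^ (i + 2)) ≤ A₂ * θ ^ (2 * i) := by
      refine (lq_le P hc₁ hQt0).trans ?_
      rw [hA₂, hθ2i]
      have h1 : 1 + q₀ * D' * θ ^ (i + 2) ≤ (1 + 4 * q₀ * D') * θ ^ i := by linarith
      have h2 := pow_le_pow_left₀ (by positivity) h1 2
      have h3 := mul_le_mul_of_nonneg_left h2 hCL.le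
      linarith [show CL P c₁ * ((1 + 4 * q₀ * D') * θ ^ i) ^ 2 = CL P c₁ * (1 + 4 * q₀ * D') ^ 2 * (θ ^ i * θ ^ i) by ring]
    have hgrx : gr P (|ℓ u x| / wt) ≤ Cg * 2 ^ j := by
      refine hgx _ (abs_nonneg _) ?_
      have h3 : 0 ≤ (Y + 1 + κ') * W := by positivity
      linarith
    obtain ⟨X, hX⟩ : ∃ X, X = B₂ ^ j * θ ^ (2 * i) := ⟨_, rfl⟩
    have hθ2i0 : 0 < θ ^ (2 * i) := by positivity
    have hX1 : 1 ≤ X := by
      rw [hX]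
      exact one_le_mul_of_one_le_of_one_le hB2j1 (hθi.trans hθθ)
    have k1 : LQ P c₁ (q₀ * D' * θ ^ (i + 2)) * gr P (|ℓ u x| / wt) ≤ A₂ * Cg * X := by
      calc LQ P c₁ (q₀ * D' * θ ^ (i + 2)) * gr P (|ℓ u x| / wt) ≤ (A₂ * θ ^ (2 * i)) * (Cg * 2 ^ j) :=
            mul_le_mul hLQ hgrx (gr_nonneg P (by positivity)) (by positivity)
        _ = A₂ * Cg * (2 ^ j * θ ^ (2 * i)) := by ring
        _ ≤ A₂ * Cg * X := by
          rw [hX]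
          exact mul_le_mul_of_nonneg_left (mul_le_mul_of_nonneg_right h2B hθ2i0.le) (by positivity)
    have k2 : S₀ * D' ≤ S₀ * D' * X := le_mul_of_one_le_right (by positivity) hX1
    have k3 : q₀ * D' * θ ^ (i + 2) * (Cg * 2 ^ j) ≤ 4 * q₀ * D' * Cg * X := by
      calc q₀ * D' * θ ^ (i + 2) * (Cg * 2 ^ j) ≤ (4 * q₀ * D' * θ ^ (2 * i)) * (Cg * 2 ^ j) := by
            refine mul_le_mul_of_nonneg_right (hQt.trans ?_) (by positivity)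
            exact mul_le_mul_of_nonneg_left hθθ (by positivity)
        _ = 4 * q₀ * D' * Cg * (2 ^ j * θ ^ (2 * i)) := by ring
        _ ≤ _ := by
          rw [hX]
          exact mul_le_mul_of_nonneg_left (mul_le_mul_of_nonneg_right h2B hθ2i0.le) (by positivity)
    have hscale : ∀ v, u ≤ v → v < u + (i + 2) → EE μ s (T (v + 1)) ≤ 2 * b * EE μ s (T v) := by
      intro v hv hv'
      have h0 : T u ≤ T v := by
        have := hmon (v - u) (by omega)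
        rwa [show u + (v - u) = v by omega] at this
      have h3 := scale_b h (hTu1.trans h0) (hmon1 v hv hv')
      have hTi : (0 : ℝ) < T v := by exact_mod_cast hTu1.trans h0
      have h4 : (T (v + 1) : ℝ) ≤ b * T v := by exact_mod_cast (hT v hv hv').2
      have hEi := EE_pos (μ := μ) (s := s) (T v)
      have h5 : (T v : ℝ) * EE μ s (T (v + 1)) ≤ T v * (2 * b * EE μ s (T v)) := by
        have h6 := mul_le_mul_of_nonneg_right h4 hEi.le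
        linarith
      exact le_of_mul_le_mul_left h5 hTi
    have kE1 : Ev ≤ 2 * b * Ei := by
      rw [hEv, hEi]
      exact hscale (u + i) (by omega) (by omega)
    have kE2 : Et ≤ 2 * b * Ev := by
      rw [hEv, hEt]
      exact hscale (u + (i + 1)) (by omega) (by omega)
    have kE3 : Et ≤ 2 * b * (2 * b) * Ei := by
      have := mul_le_mul_of_nonneg_left kE1 (show (0 : ℝ) ≤ 2 * b by positivity)
      linarith
    have k4 : (LQ P c₁ (q₀ * D' * θ ^ (i + 2)) * gr P (|ℓ u x| / wt) + S₀ * D' + q₀ * D' * θ ^ (i + 2) * (Cg * 2 ^ j)) * Et ≤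
        A₃ * (2 * b * (2 * b)) * (X * Ei) := by
      have h1 : LQ P c₁ (q₀ * D' * θ ^ (i + 2)) * gr P (|ℓ u x| / wt) + S₀ * D' + q₀ * D' * θ ^ (i + 2) * (Cg * 2 ^ j) ≤ A₃ * X := by
        rw [hA₃]
        linarith [show (A₂ * Cg + S₀ * D' + 4 * q₀ * D' * Cg) * X = A₂ * Cg * X + S₀ * D' * X + 4 * q₀ * D' * Cg * X by ring]
      calc _ ≤ A₃ * X * Et := mul_le_mul_of_nonneg_right h1 hEt0.le
        _ ≤ A₃ * X * (2 * b * (2 * b) * Ei) := mul_le_mul_of_nonneg_left kE3 (by positivity)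
        _ = _ := by ring
    have k5 : q (u + (i + 1)) * B₂ ^ (j + j₀) * Ev ≤ A₄ * (2 * b) * (X * Ei) := by
      have h1 : q (u + (i + 1)) ≤ 2 * q₀ * θ ^ (2 * i) := by
        have h2 := hq (u + (i + 1)) (by omega) (by omega)
        rw [show u + (i + 1) - u = i + 1 by omega, pow_succ] at h2
        have h3 : q₀ * (θ ^ i * θ) ≤ q₀ * (θ ^ (2 * i) * 2) :=
          mul_le_mul_of_nonneg_left (mul_le_mul hθθ hθ2 (by linarith) hθ2i0.le) hq₀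
        linarith
      have h2 : q (u + (i + 1)) * B₂ ^ (j + j₀) ≤ A₄ * X := by
        calc q (u + (i + 1)) * B₂ ^ (j + j₀) ≤ (2 * q₀ * θ ^ (2 * i)) * B₂ ^ (j + j₀) :=
              mul_le_mul_of_nonneg_right h1 (by positivity)
          _ = A₄ * X := by rw [hA₄, hX, pow_add]; ring
      calc q (u + (i + 1)) * B₂ ^ (j + j₀) * Ev ≤ A₄ * X * Ev := mul_le_mul_of_nonneg_right h2 hEv0.le
        _ ≤ A₄ * X * (2 * b * Ei) := mul_le_mul_of_nonneg_left kE1 (by positivity)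
        _ = _ := by ring
    have k6 : (2 : ℝ) ≤ Real.exp (X * Ei) := by
      have h5 : 1 ≤ X * Ei := one_le_mul_of_one_le_of_one_le hX1 hEi1
      have h6 := Real.add_one_le_exp (X * Ei)
      linarith
    rw [← hX]
    calc 2 * Real.exp ((LQ P c₁ (q₀ * D' * θ ^ (i + 2)) * gr P (|ℓ u x| / wt) + S₀ * D' + q₀ * D' * θ ^ (i + 2) * (Cg * 2 ^ j)) * Et +
          q (u + (i + 1)) * B₂ ^ (j + j₀) * Ev) ≤
        Real.exp (X * Ei) * Real.exp (A₃ * (2 * b * (2 * b)) * (X * Ei) + A₄ * (2 * b) * (X * Ei)) :=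
          mul_le_mul k6 (Real.exp_le_exp.2 (add_le_add k4 k5)) (Real.exp_pos _).le (Real.exp_pos _).le
      _ = Real.exp ((A₃ * (2 * b * (2 * b)) + A₄ * (2 * b) + 1) * (X * Ei)) := by
        rw [← Real.exp_add]
        congr 1
        ring
      _ ≤ _ := Real.exp_le_exp.2 (mul_le_mul_of_nonneg_right hAA (by positivity))
  · have h1 : |ℓ u x'| / wt + κ' = (|ℓ u x'| + κ' * wt) / wt := by field_simp
    rw [h1]
    refine hgx _ (by positivity) ?_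
    have h2 := mul_le_mul_of_nonneg_left hwtB hκ'0.le
    have h3 : 0 ≤ (Y + 1) * W := by positivity
    linarith
  · intro z hz
    refine ⟨(hZ z hz).1, p₁, hp₁, ?_⟩
    have hz1 := hzlat z hz
    obtain ⟨p₂, hp₂, hG₂, hd₂⟩ := hstp.grid (ℓ (u + (i + 3)) z) (by
      refine hz1.trans (le_trans ?_ hΛ)
      linarith [show (R + K₁ + Y + 1) * W = (R + K₁) * W + Y * W + W by ring])
      (u + (i + 1)) (by omega) (by omega)
    rw [← hwv] at hd₂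
    refine ⟨p₂, hp₂, ?_, ?_, ?_, ?_⟩
    · rw [← hwi]
      have h1 := mul_le_mul_of_nonneg_right hκ' hwi0
      have h2 : |ℓ (u + (i + 1)) p₁ - ℓ u x'| ≤ wi := hd₁
      linarith
    · have hst := hstp.steep (j + j₀) (by omega) p₁ hp₁ p₂ hp₂ hG₁ hG₂ ?_ ?_ hcone
      · rw [← hEv] at hst
        exact hst
      · rw [← hwv]
        have h1 : |ℓ (u + (i + 1)) p₁ - ℓ u x'| ≤ wi := hd₁
        have h2 := abs_add_le (ℓ (u + (i + 1)) p₁ - ℓ u x') (ℓ u x')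
        rw [sub_add_cancel] at h2
        have h3 : Bp ^ j * wi ≤ Bp ^ j * wv := mul_le_mul_of_nonneg_left hwiv (by positivity)
        have h4 : wi ≤ Bp ^ j * wv := hwiv.trans (le_mul_of_one_le_left (by linarith) hBj1)
        have h5 := mul_le_mul_of_nonneg_left h3 hRK
        have h6 : (R + K₁ + 1) * (Bp ^ j * wv) ≤ Bp ^ j₀ * (Bp ^ j * wv) := by
          have a1 : R + K₁ + 1 ≤ Bp ^ j₀ := by
            have a2 : (2 : ℝ) ^ j₀ ≤ Bp ^ j₀ := pow_le_pow_left₀ (by norm_num) hBp j₀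
            have a3 : 0 ≤ Y * Bw := by positivity
            linarith
          exact mul_le_mul_of_nonneg_right a1 (by positivity)
        rw [pow_add]
        linarith [show Bp ^ j * Bp ^ j₀ * wv = Bp ^ j₀ * (Bp ^ j * wv) by ring]
      · rw [← hwv]
        have h1 : |ℓ (u + (i + 1)) p₁ - ℓ u x'| ≤ wi := hd₁
        have h3 : |ℓ (u + (i + 2)) p₂ - ℓ (u + (i + 3)) z| ≤ wv := hd₂
        have h5 := (hZ z hz).2
        have h6 : |ℓ u x - ℓ u x'| ≤ 2 * K₁ * wi := by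
          rw [hll, hwi]
          exact hxx
        have h7 : wt ≤ Bw * wv := by
          rw [hwt, hwv]
          exact hBw _ _ (g3.trans (hmon (i + 1) (by omega))) (hmon1 (u + (i + 1)) (by omega) (by omega))
            (hT (u + (i + 1)) (by omega) (by omega)).2
        have t1 := abs_add_le (ℓ (u + (i + 2)) p₂ - ℓ (u + (i + 3)) z) (ℓ (u + (i + 3)) z - ℓ u x)
        rw [sub_add_sub_cancel] at t1
        have t2 := abs_add_le (ℓ (u + (i + 2)) p₂ - ℓ u x) (ℓ u x - ℓ u x')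
        rw [sub_add_sub_cancel] at t2
        have t3 := abs_add_le (ℓ (u + (i + 2)) p₂ - ℓ u x') (ℓ u x' - ℓ (u + (i + 1)) p₁)
        rw [sub_add_sub_cancel, abs_sub_comm (ℓ u x')] at t3
        have h8 : Y * 2 ^ j * wt ≤ (Y * Bw) * (2 ^ j * wv) := by
          calc Y * 2 ^ j * wt ≤ Y * 2 ^ j * (Bw * wv) := mul_le_mul_of_nonneg_left h7 (by positivity)
            _ = _ := by ring
        have hwv0 : 0 ≤ wv := by linarith
        have h9 : wv ≤ 2 ^ j * wv := le_mul_of_one_le_left hwv0 h2j1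
        have h10 : 2 * K₁ * wi ≤ 2 * K₁ * (2 ^ j * wv) := mul_le_mul_of_nonneg_left (hwiv.trans h9) (by linarith)
        have h11 : (2 + Y * Bw + 2 * K₁ + R) * (2 ^ j * wv) ≤ 2 ^ j₀ * (2 ^ j * wv) := mul_le_mul_of_nonneg_right hj₀ (by positivity)
        have h12 : 0 ≤ R * (2 ^ j * wv) := by positivity
        have h13 : |ℓ (u + (i + 1) + 1) p₂ - ℓ (u + (i + 1)) p₁| ≤ 2 ^ j₀ * (2 ^ j * wv) := by
          show |ℓ (u + (i + 2)) p₂ - ℓ (u + (i + 1)) p₁| ≤ 2 ^ j₀ * (2 ^ j * wv)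
          linarith [show (2 + Y * Bw + 2 * K₁ + R) * (2 ^ j * wv) = 2 ^ j * wv + 2 ^ j * wv + Y * Bw * (2 ^ j * wv) + 2 * K₁ * (2 ^ j * wv) +
            R * (2 ^ j * wv) by ring]
        rw [pow_add]
        linarith [show (2 : ℝ) ^ j * 2 ^ j₀ * wv = 2 ^ j₀ * (2 ^ j * wv) by ring]
    · have h3 : |ℓ (u + (i + 2)) p₂ - ℓ (u + (i + 3)) z| ≤ wv := hd₂
      rw [abs_sub_comm, ← hwt]
      have h4 := mul_le_mul_of_nonneg_right hκ' hwt0.le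
      linarith
    · refine hgx _ (abs_nonneg _) ?_
      have h3 : |ℓ (u + (i + 2)) p₂ - ℓ (u + (i + 3)) z| ≤ wv := hd₂
      have h4 := abs_add_le (ℓ (u + (i + 2)) p₂ - ℓ (u + (i + 3)) z) (ℓ (u + (i + 3)) z)
      rw [sub_add_cancel] at h4
      have h5 : 0 ≤ κ' * W := by positivity
      linarith


/-- `ddi_one` with the constant explicit in `q₀`. -/
theorem ddi_q89 (h : In μ s c C n₀) (P : ℕ) {cc c₁ c₂ c₃ : ℝ} (hc₁ : 0 < c₁) (hc₂ : 0 ≤ c₂) (hc₃ : 0 ≤ c₃) (hcc : c₁ + c₂ + c₃ ≤ cc) :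
    ∃ K₀ : ℕ, 2 ≤ K₀ ∧ ∀ κ' K₁ S₀ R Pa : ℝ, 1 ≤ K₁ → K₁ + 1 ≤ κ' → 0 ≤ S₀ → 0 ≤ R → 0 ≤ Pa → ∀ b : ℕ,
    ∃ (A : ℝ) (n₁ : ℕ), 0 ≤ A ∧ 1 ≤ n₁ ∧ ∀ q₀ : ℝ, 0 ≤ q₀ → ∀ (T : ℕ → ℕ) (u i M : ℕ) (θ : ℝ), 1 ≤ θ → θ ≤ 2 → n₁ ≤ T u →
    (∀ v, u ≤ v → v < u + (i + 1) → K₀ * T v ≤ T (v + 1) ∧ T (v + 1) ≤ b * T v) → u + (i + 2) ≤ M →
    ∀ (q : ℕ → ℝ) (ℓ : ℕ → ℤ → ℝ) (k : ℕ → ℤ → ℤ → ℝ) (B : ℕ → Finset ℤ) (r : ℝ),
    Sys84 μ s P cc c₂ κ' S₀ r T q ℓ k B u M → (∀ v, u ≤ v → v < u + (i + 2) → q v ≤ q₀ * θ ^ (v - u)) →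
    |r| ≤ R * wd μ s (T u) →
    ∀ (F G : ℤ → ℝ) (Z : Finset ℤ) (x x' : ℤ), (∀ z, 0 ≤ G z) →
    F x = ∑ z ∈ B (u + (i + 2)), cmp k B (i + 2) u x z * G z → F x' = ∑ z ∈ B (u + (i + 2)), cmp k B (i + 2) u x' z * G z →
    (∀ z ∈ Z, z ∈ B (u + (i + 2)) ∧ |ℓ (u + (i + 2)) z - r| ≤ κ' * wd μ s (T (u + (i + 1))) - 1) →
    |ℓ u x - r| ≤ K₁ * wd μ s (T (u + i)) → |ℓ u x' - r| ≤ K₁ * wd μ s (T u) →
    F x ≤ Pa * ∑ z ∈ Z, cmp k B (i + 2) u x z * G z →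
    F x ≤ Real.exp (A * (1 + q₀) ^ 2 * (θ ^ (2 * i) * EE μ s (T (u + i)))) * F x' := by
  obtain ⟨D', K₀, n₂, hD1, hK2, hn2, henv⟩ := env84 h P
  refine ⟨K₀, hK2, fun κ' K₁ S₀ R Pa hK₁ hκ' hS₀ hR hPa b => ?_⟩
  have hCL := CL_pos P hc₁
  have hD0 : 0 < D' := by linarith
  have hκ'0 : 0 < κ' := by linarith
  have hg1 : 0 ≤ gr P (R + K₁) := gr_nonneg P (by linarith)
  have hg2 : 0 ≤ gr P (R + κ') := gr_nonneg P (by linarith)
  obtain ⟨A₃₀, hA₃₀⟩ : ∃ A₃₀ : ℝ, A₃₀ = CL P c₁ * (1 + 2 * D') ^ 2 * gr P (R + K₁) + S₀ * D' + 2 * D' * gr P (R + κ') := ⟨_, rfl⟩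
  have hA₃₀0 : 0 ≤ A₃₀ := by rw [hA₃₀]; positivity
  refine ⟨2 * b * A₃₀ + Pa, n₂, by positivity, hn2, fun q₀ hq₀ => ?_⟩
  obtain ⟨A₂, hA₂⟩ : ∃ A₂ : ℝ, A₂ = CL P c₁ * (1 + 2 * q₀ * D') ^ 2 := ⟨_, rfl⟩
  have hA20 : 0 < A₂ := by rw [hA₂]; positivity
  obtain ⟨A₃, hA₃⟩ : ∃ A₃ : ℝ, A₃ = A₂ * gr P (R + K₁) + S₀ * D' + 2 * q₀ * D' * gr P (R + κ') := ⟨_, rfl⟩
  have hA30 : 0 ≤ A₃ := by rw [hA₃]; positivity
  have hAA : 2 * b * A₃ + Pa ≤ (2 * b * A₃₀ + Pa) * (1 + q₀) ^ 2 := by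
    have hq1 : 1 ≤ (1 + q₀) ^ 2 := one_le_pow₀ (by linarith)
    have hq2 : q₀ ≤ (1 + q₀) ^ 2 := by nlinarith only [hq₀]
    have e1 : A₃ ≤ A₃₀ * (1 + q₀) ^ 2 := by
      have f1 : (1 + 2 * q₀ * D') ^ 2 ≤ (1 + 2 * D') ^ 2 * (1 + q₀) ^ 2 := q_sq89 (by positivity) hq₀ (by ring)
      obtain ⟨U, hU⟩ : ∃ U, U = (1 + q₀) ^ 2 := ⟨_, rfl⟩
      obtain ⟨V, hV⟩ : ∃ V, V = (1 + 2 * q₀ * D') ^ 2 := ⟨_, rfl⟩
      obtain ⟨V', hV'⟩ : ∃ V', V' = (1 + 2 * D') ^ 2 := ⟨_, rfl⟩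
      rw [← hU] at hq1 hq2
      rw [← hU, ← hV, ← hV'] at f1
      rw [hA₃, hA₂, hA₃₀, ← hU, ← hV, ← hV']
      have f2 := mul_le_mul_of_nonneg_left f1 (show 0 ≤ CL P c₁ * gr P (R + K₁) by positivity)
      have f3 := mul_le_mul_of_nonneg_left hq1 (show 0 ≤ S₀ * D' by positivity)
      have f4 := mul_le_mul_of_nonneg_left hq2 (show 0 ≤ 2 * D' * gr P (R + κ') by positivity)
      calc CL P c₁ * V * gr P (R + K₁) + S₀ * D' + 2 * q₀ * D' * gr P (R + κ') =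
          CL P c₁ * gr P (R + K₁) * V + S₀ * D' * 1 + 2 * D' * gr P (R + κ') * q₀ := by ring
        _ ≤ CL P c₁ * gr P (R + K₁) * (V' * U) + S₀ * D' * U + 2 * D' * gr P (R + κ') * U := add_le_add (add_le_add f2 f3) f4
        _ = _ := by ring
    have e3 := mul_le_mul_of_nonneg_left e1 (show (0 : ℝ) ≤ 2 * b by positivity)
    have e4 := mul_le_mul_of_nonneg_left hq1 hPa
    linarith
  intro T u i M θ hθ hθ2 hT0 hT hM q ℓ k B r hsys hq hr F G Z x x' hG hFx hFx' hZ hx hx' harm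
  have hTu1 : 1 ≤ T u := hn2.trans hT0
  have hK1 : 1 ≤ K₀ := by omega
  have hmon1 : ∀ v, u ≤ v → v < u + (i + 1) → T v ≤ T (v + 1) := fun v hv hv' =>
    (Nat.le_mul_of_pos_left _ hK1).trans (hT v hv hv').1
  have hmon : ∀ j, j ≤ i + 1 → T u ≤ T (u + j) := by
    intro j
    induction j with
    | zero => intro _; exact le_rfl
    | succ j ih =>
      intro hj
      rw [show u + (j + 1) = u + j + 1 by omega]
      exact (ih (by omega)).trans (hmon1 (u + j) (by omega) (by omega))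
  obtain ⟨e, s', hE, he, hs⟩ := henv (cc := cc) (c₂ := c₂) (κ' := κ') (S₀ := S₀) (r := r) (q₀ := q₀) (θ := θ) (T := T) (q := q)
    (ℓ := ℓ) (k := k) (B := B) (u := u) (i := i) (M := M) (by linarith) hc₂ hS₀ hq₀ hθ hT0
    (fun v hv hv' => (hT v hv (by omega)).1) hM hsys hq
  have hwt := hE.wt0
  have hEt := hE.Et0
  have hw0 : ∀ v, u ≤ v → v < u + (i + 2) → 2 ≤ wd μ s (T v) := by
    intro v hv hv'
    have h1 : T u ≤ T v := by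
      have := hmon (v - u) (by omega)
      rwa [show u + (v - u) = v by omega] at this
    have h2 := wd_ge_one h (hTu1.trans h1)
    have h3 := one_le_EE (μ := μ) (s := s) (T v)
    linarith
  have hwu := hw0 u le_rfl (by omega)
  -- the mass defined by the composition
  obtain ⟨F', hF'⟩ : ∃ F' : ℤ → ℝ, F' = fun y => ∑ z ∈ B (u + (i + 2)), cmp k B (i + 2) u y z * G z := ⟨_, rfl⟩
  have eFx : F' x = F x := by rw [hF', hFx]
  have eFx' : F' x' = F x' := by rw [hF', hFx']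
  have hF'0 : 0 ≤ F' x' := by
    rw [hF']
    exact sum_nonneg fun z _ => mul_nonneg (cmp_nonneg hsys.k0 B _ _ _ _) (hG z)
  have hfin := dd_env (u := u) (m := i) hE (κ := κ') (c₁ := c₁) (c₃ := c₃) (Q := q₀ * D' * θ ^ (i + 1)) (S := S₀ * D') (Pa := Pa)
    (r := r) hc₁ hc₃ hcc he hs (by linarith) hw0 (fun v hv hv' => hsys.low v hv (by omega)) (fun v hv hv' => hsys.mid v hv (by omega))
    (F := F') (G := G) hG (fun y => by rw [hF']) (Z := Z) hZ hPa (x := x) (x' := x') (by rw [eFx]; exact harm) (by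
      refine hx'.trans ?_
      have h1 : (K₁ + 1) * wd μ s (T u) ≤ κ' * wd μ s (T u) := mul_le_mul_of_nonneg_right hκ' (by linarith)
      linarith)
  rw [eFx] at hfin
  rw [← eFx']
  refine hfin.trans (mul_le_mul_of_nonneg_right ?_ hF'0)
  have hθi : 1 ≤ θ ^ i := one_le_pow₀ hθ
  have hθ2i : θ ^ (2 * i) = θ ^ i * θ ^ i := by rw [two_mul, pow_add]
  have hθi0 : 0 < θ ^ i := by linarith
  have hQt : q₀ * D' * θ ^ (i + 1) ≤ 2 * q₀ * D' * θ ^ i := by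
    rw [pow_succ]
    have h1 : 0 ≤ q₀ * D' * θ ^ i := by positivity
    have := mul_le_mul_of_nonneg_left hθ2 h1
    linarith
  have hQt0 : 0 ≤ q₀ * D' * θ ^ (i + 1) := by positivity
  have hqD : 0 ≤ 2 * q₀ * D' := by positivity
  have hLQ : LQ P c₁ (q₀ * D' * θ ^ (i + 1)) ≤ A₂ * θ ^ (2 * i) := by
    refine (lq_le P hc₁ hQt0).trans ?_
    rw [hA₂, hθ2i]
    have h1 : 1 + q₀ * D' * θ ^ (i + 1) ≤ (1 + 2 * q₀ * D') * θ ^ i := by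
      linarith
    have h2 := pow_le_pow_left₀ (by positivity) h1 2
    have h3 := mul_le_mul_of_nonneg_left h2 hCL.le
    linarith [show CL P c₁ * ((1 + 2 * q₀ * D') * θ ^ i) ^ 2 = CL P c₁ * (1 + 2 * q₀ * D') ^ 2 * (θ ^ i * θ ^ i) by ring]
  -- the places
  have hwi : wd μ s (T (u + i)) ≤ wd μ s (T (u + (i + 1))) := hE.wle (u + i) (by omega) (by omega)
  have hwu' : wd μ s (T u) ≤ wd μ s (T (u + (i + 1))) := hE.wle u le_rfl (by omega)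
  have hgx : gr P (|ℓ u x| / wd μ s (T (u + (i + 1)))) ≤ gr P (R + K₁) := by
    refine gr_mono P (by positivity) ?_
    rw [div_le_iff₀ hwt]
    have h1 := abs_add_le (ℓ u x - r) r
    rw [sub_add_cancel] at h1
    have h4 := mul_le_mul_of_nonneg_left hwi (show 0 ≤ K₁ by linarith)
    have h5 := mul_le_mul_of_nonneg_left hwu' hR
    linarith
  have hgr : gr P (|r| / wd μ s (T (u + (i + 1))) + κ') ≤ gr P (R + κ') := by
    refine gr_mono P (by positivity) ?_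
    have h1 : |r| / wd μ s (T (u + (i + 1))) ≤ R := by
      rw [div_le_iff₀ hwt]
      exact hr.trans (mul_le_mul_of_nonneg_left hwu' hR)
    linarith
  obtain ⟨Et, hEt'⟩ : ∃ Et, Et = EE μ s (T (u + (i + 1))) := ⟨_, rfl⟩
  obtain ⟨Ei, hEi⟩ : ∃ Ei, Ei = EE μ s (T (u + i)) := ⟨_, rfl⟩
  have hEi1 : 1 ≤ Ei := by rw [hEi]; exact one_le_EE _
  have hle : Et ≤ 2 * b * Ei := by
    rw [hEt', hEi]
    have h0 : T u ≤ T (u + i) := hmon i (by omega)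
    have h1 := hmon1 (u + i) (by omega) (by omega)
    have h2 := (hT (u + i) (by omega) (by omega)).2
    have h3 := scale_b h (hTu1.trans h0) h1
    rw [show u + i + 1 = u + (i + 1) by omega] at h1 h2 h3
    have hTi : (0 : ℝ) < T (u + i) := by exact_mod_cast hTu1.trans h0
    have h4 : (T (u + (i + 1)) : ℝ) ≤ b * T (u + i) := by exact_mod_cast h2
    have hEi := EE_pos (μ := μ) (s := s) (T (u + i))
    have h5 : (T (u + i) : ℝ) * EE μ s (T (u + (i + 1))) ≤ T (u + i) * (2 * b * EE μ s (T (u + i))) := by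
      have h6 := mul_le_mul_of_nonneg_right h4 hEi.le
      linarith
    exact le_of_mul_le_mul_left h5 hTi
  rw [← hEt'] at hEt ⊢
  rw [← hEi]
  -- the exponent
  have h1 : LQ P c₁ (q₀ * D' * θ ^ (i + 1)) * gr P (|ℓ u x| / wd μ s (T (u + (i + 1)))) ≤ A₂ * gr P (R + K₁) * θ ^ (2 * i) := by
    calc _ ≤ A₂ * θ ^ (2 * i) * gr P (R + K₁) := mul_le_mul hLQ hgx (gr_nonneg P (by positivity)) (by positivity)
      _ = _ := by ring
  have h2 : q₀ * D' * θ ^ (i + 1) * gr P (|r| / wd μ s (T (u + (i + 1))) + κ') ≤ 2 * q₀ * D' * gr P (R + κ') * θ ^ (2 * i) := by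
    have h3 : q₀ * D' * θ ^ (i + 1) ≤ 2 * q₀ * D' * θ ^ (2 * i) := by
      refine hQt.trans ?_
      rw [hθ2i]
      exact mul_le_mul_of_nonneg_left (le_mul_of_one_le_left hθi0.le hθi) hqD
    calc q₀ * D' * θ ^ (i + 1) * gr P (|r| / wd μ s (T (u + (i + 1))) + κ') ≤ (2 * q₀ * D' * θ ^ (2 * i)) * gr P (R + κ') :=
          mul_le_mul h3 hgr (gr_nonneg P (by positivity)) (by positivity)
      _ = _ := by ring
  have h2i : 1 ≤ θ ^ (2 * i) := one_le_pow₀ hθ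
  have h3 : S₀ * D' ≤ S₀ * D' * θ ^ (2 * i) := le_mul_of_one_le_right (by positivity) h2i
  have h4 : (LQ P c₁ (q₀ * D' * θ ^ (i + 1)) * gr P (|ℓ u x| / wd μ s (T (u + (i + 1)))) + S₀ * D' +
      q₀ * D' * θ ^ (i + 1) * gr P (|r| / wd μ s (T (u + (i + 1))) + κ')) * Et ≤ 2 * b * A₃ * (θ ^ (2 * i) * Ei) := by
    calc _ ≤ (A₂ * gr P (R + K₁) * θ ^ (2 * i) + S₀ * D' * θ ^ (2 * i) + 2 * q₀ * D' * gr P (R + κ') * θ ^ (2 * i)) * Et :=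
          mul_le_mul_of_nonneg_right (add_le_add (add_le_add h1 h3) h2) hEt.le
      _ = A₃ * θ ^ (2 * i) * Et := by rw [hA₃]; ring
      _ ≤ A₃ * θ ^ (2 * i) * (2 * b * Ei) := mul_le_mul_of_nonneg_left hle (by positivity)
      _ = _ := by ring
  have h5 : Pa ≤ Real.exp (Pa * (θ ^ (2 * i) * Ei)) := by
    have h6 : 1 ≤ θ ^ (2 * i) * Ei := one_le_mul_of_one_le_of_one_le h2i hEi1
    have h7 := Real.add_one_le_exp (Pa * (θ ^ (2 * i) * Ei))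
    have h8 := mul_le_mul_of_nonneg_left h6 hPa
    linarith
  calc _ ≤ Real.exp (Pa * (θ ^ (2 * i) * Ei)) * Real.exp (2 * b * A₃ * (θ ^ (2 * i) * Ei)) :=
        mul_le_mul h5 (Real.exp_le_exp.2 h4) (Real.exp_pos _).le (Real.exp_pos _).le
    _ = Real.exp ((2 * b * A₃ + Pa) * (θ ^ (2 * i) * Ei)) := by
      rw [← Real.exp_add]
      congr 1
      ring
    _ ≤ _ := Real.exp_le_exp.2 (mul_le_mul_of_nonneg_right hAA (by positivity))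


/-- The levels of a system may be raised. -/
theorem sys_mono89 {P : ℕ} {cc c₂ κ' S₀ r : ℝ} {T : ℕ → ℕ} {q q' : ℕ → ℝ} {ℓ : ℕ → ℤ → ℝ} {k : ℕ → ℤ → ℤ → ℝ} {B : ℕ → Finset ℤ}
    {u M : ℕ} (hw : ∀ v, u ≤ v → v < M → 0 ≤ wd μ s (T v)) (hq : ∀ v, q v ≤ q' v) (hS : Sys84 μ s P cc c₂ κ' S₀ r T q ℓ k B u M) :
    Sys84 μ s P cc c₂ κ' S₀ r T q' ℓ k B u M := by
  have key : ∀ v, u ≤ v → v < M → ∀ x, q v * gr P (|ℓ v x| / wd μ s (T v)) * EE μ s (T v) ≤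
      q' v * gr P (|ℓ v x| / wd μ s (T v)) * EE μ s (T v) := fun v hv hv' x =>
    mul_le_mul_of_nonneg_right (mul_le_mul_of_nonneg_right (hq v) (gr_nonneg P (div_nonneg (abs_nonneg _) (hw v hv hv')))) (EE_pos _).le
  refine ⟨fun v => (hS.q0 v).trans (hq v), hS.k0, fun v hv hv' x y hy => (hS.up v hv hv' x y hy).trans (Real.exp_le_exp.2 ?_),
    fun v hv hv' x y hy hd => (Real.exp_le_exp.2 ?_).trans (hS.low v hv hv' x y hy hd), hS.sum, hS.mid⟩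
  · have := key v hv hv' x
    linarith
  · have := key v hv hv' x
    linarith

/-! ### The masses, any `Sys16` -/

omit [IsProbabilityMeasure μ] in
/-- **The mass identity in the box**, any backward masses. -/
theorem massG89 {h : ℝ} {η : Env} {p : ℕ → ℝ} {M N : ℕ} {Bm : ℕ → ℤ → ℝ}
    (hS : Sys16 (fun a b x z => nk μ s h η p M a (b - a) x z) Bm N) {r : ℕ → ℕ} {a b : ℕ}
    (hr : ∀ u, a ≤ u → u < b → r u ≤ r (u + 1)) (hrN : r b ≤ N) {x₀ R : ℤ} {m u : ℕ} (hu : a ≤ u) (hm : u + m ≤ b) {x : ℤ}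
    (hx : x ∈ bx r a x₀ R u) : Bm (r u) x =
      ∑ z ∈ bx r a x₀ R (u + m), cmp (kk μ s h η p M r) (bx r a x₀ R) m u x z * Bm (r (u + m)) z := by
  have hau : r a ≤ r u := by
    have h1 := r_mono hr (u - a) a le_rfl (by omega)
    rwa [Nat.add_sub_cancel' hu] at h1
  have h2 := r_mono hr m u hu hm
  have h3 : r (u + m) ≤ N := by
    have h4 := r_mono hr (b - (u + m)) (u + m) (by omega) (by omega)
    rw [Nat.add_sub_cancel' hm] at h4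
    exact h4.trans hrN
  rw [hS.step (r u) (r (u + m)) x h2 h3]
  have hsub : Icc x (x + ((r (u + m) - r u : ℕ) : ℤ)) ⊆ bx r a x₀ R (u + m) := by
    intro z hz
    unfold bx at hx ⊢
    rw [mem_Icc] at hx hz ⊢
    omega
  rw [sum_subset hsub fun z _ hz => by
    rw [hS.out (r u) (r (u + m)) x z h2 (fun h => hz (mem_Icc.2 h)), zero_mul]]
  exact sum_congr rfl fun z _ => by rw [cmp_nk hr m u hu hm x hx z]

omit [IsProbabilityMeasure μ] in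
/-- The mass through the places `Q` in the box. -/
theorem pmG89 {h : ℝ} {η : Env} {p : ℕ → ℝ} {M : ℕ} (Bm : ℕ → ℤ → ℝ) {r : ℕ → ℕ} {a b : ℕ}
    (hr : ∀ u, a ≤ u → u < b → r u ≤ r (u + 1)) {x₀ R : ℤ}
    {m u : ℕ} (hu : a ≤ u) (hm : u + m ≤ b) {x : ℤ} (hx : x ∈ bx r a x₀ R u) (Q : ℤ → Prop) [DecidablePred Q] :
    PM16 (fun a b x z => nk μ s h η p M a (b - a) x z) Bm (r u) (r (u + m)) x Q =
      ∑ z ∈ (Icc x (x + ((r (u + m) - r u : ℕ) : ℤ))).filter Q, cmp (kk μ s h η p M r) (bx r a x₀ R) m u x z *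
        Bm (r (u + m)) z := by
  unfold PM16
  exact sum_congr rfl fun z _ => by rw [cmp_nk hr m u hu hm x hx z]

theorem q_four89 {a q₀ : ℝ} (ha : 0 ≤ a) (hq : 0 ≤ q₀) : (1 + a * (1 + q₀) ^ 2) ^ 2 ≤ (1 + a) ^ 2 * (1 + q₀) ^ 4 := by
  have h1 : 1 ≤ (1 + q₀) ^ 2 := one_le_pow₀ (by linarith)
  have h2 : 1 + a * (1 + q₀) ^ 2 ≤ (1 + a) * (1 + q₀) ^ 2 := by linarith
  have h3 := pow_le_pow_left₀ (by positivity) h2 2
  calc _ ≤ ((1 + a) * (1 + q₀) ^ 2) ^ 2 := h3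
    _ = _ := by ring

/-- **ONE PLACE OF THE SCALE `i` AGAINST ONE PLACE OF THE INNER WINDOW** (`dd_one89`), any backward masses, explicit in `q₀`. -/
theorem dd_oneG89 (h0 : In μ s c C n₀) (P : ℕ) {θ K : ℝ} (hθ : 0 < θ) : ∃ K₀ : ℕ, 2 ≤ K₀ ∧
    ∀ K₁ R Pa : ℝ, 1 ≤ K₁ → K₁ + 3 ≤ K → 0 ≤ R → 0 ≤ Pa → ∀ b : ℕ, ∃ (A : ℝ) (n₁ : ℕ), 0 ≤ A ∧ 1 ≤ n₁ ∧ ∀ q₀ : ℝ, 0 ≤ q₀ →
    ∀ {h : ℝ} {η : Env} {p : ℕ → ℝ} {M Nt : ℕ} {κ : Pt} {r T N : ℕ → ℕ} {q : ℕ → ℝ} {bs : ℕ → Pt} {u i : ℕ} {Θ : ℝ} {Bm : ℕ → ℤ → ℝ},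
    Sys16 (fun a b x z => nk μ s h η p M a (b - a) x z) Bm Nt →
    (∀ k, k < M → p k = Real.exp (s + h)) → (∀ k, M ≤ k → p k = Real.exp s) → 1 ≤ Θ → Θ ^ 2 ≤ 2 →
    Lay89 μ s c θ K h P η κ r T N q bs u (u + (i + 2)) n₁ → r (u + (i + 2)) ≤ Nt →
    (∀ v, u ≤ v → v < u + (i + 1) → K₀ * T v ≤ T (v + 1) ∧ T (v + 1) ≤ b * T v) →
    (∀ v, u ≤ v → v < u + (i + 2) → q v ≤ q₀ * Θ ^ (v - u)) →
    ∀ (ρ : ℝ), |ρ| ≤ R * wd μ s (T u) → ∀ (x x' : ℤ), |lt μ s κ r u x - ρ| ≤ K₁ * wd μ s (T (u + i)) →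
    |lt μ s κ r u x' - ρ| ≤ K₁ * wd μ s (T u) → ∀ (Q : ℤ → Prop) [DecidablePred Q],
    (∀ z, x ≤ z → z ≤ x + ((r (u + (i + 2)) - r u : ℕ) : ℤ) → Q z →
      |lt μ s κ r (u + (i + 2)) z - ρ| ≤ (K - 2) * wd μ s (T (u + (i + 1))) - 1) →
    Bm (r u) x ≤ Pa * PM16 (fun a b x z => nk μ s h η p M a (b - a) x z) Bm (r u) (r (u + (i + 2))) x Q →
    Bm (r u) x ≤ Real.exp (A * (1 + q₀) ^ 4 * (Θ ^ (4 * i) * EE μ s (T (u + i)))) * Bm (r u) x' := by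
  have hc0 := h0.c0
  obtain ⟨K₀, hK₀, H⟩ := ddi_q89 h0 (2 * P) (cc := c / 2) (c₁ := c / 8) (c₂ := c / 8) (c₃ := c / 4) (by positivity) (by positivity)
    (by positivity) (by linarith)
  refine ⟨K₀, hK₀, fun K₁ R Pa hK₁ hK hR hPa b => ?_⟩
  obtain ⟨C', hC', m₁, hm₁, HS⟩ := sys89 h0 P (θ := θ) (K := K) (by linarith) hθ
  have hg := gr_nonneg (2 * P) (show (0 : ℝ) ≤ 2 by norm_num)
  obtain ⟨A, m₂, hA, hm₂, H2'⟩ := H (K - 2) K₁ 1 R Pa hK₁ (by linarith) zero_le_one hR hPa b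
  have hCg : 0 ≤ C' * gr (2 * P) 2 := by positivity
  refine ⟨A * (1 + C' * gr (2 * P) 2) ^ 2, max m₁ m₂, by positivity, hm₁.trans (le_max_left _ _), fun q₀ hq₀ => ?_⟩
  have H2 := H2' (C' * gr (2 * P) 2 * (1 + q₀) ^ 2) (by positivity)
  intro h η p M Nt κ r T N q bs u i Θ Bm hBm hp hp' hΘ hΘ2 hL hrN hT hq ρ hρ x x' hx hx' Q _ hQ harm
  have hpos : ∀ k, 0 < p k := by
    intro k
    rcases lt_or_ge k M with h2 | h2
    · rw [hp k h2]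
      exact Real.exp_pos _
    · rw [hp' k h2]
      exact Real.exp_pos _
  obtain ⟨R₀, hR₀⟩ := box89 (μ := μ) (s := s) κ r u (u + (i + 2)) x |ρ|
  obtain ⟨Rb, hRb⟩ : ∃ Rb : ℤ, Rb = max R₀ |x' - x| := ⟨_, rfl⟩
  have hR1 : R₀ ≤ Rb := by rw [hRb]; exact le_max_left _ _
  have hR2 : |x' - x| ≤ Rb := by rw [hRb]; exact le_max_right _ _
  have hxb : x ∈ bx r u x Rb u := by
    unfold bx
    rw [mem_Icc]
    have := (abs_nonneg (x' - x)).trans hR2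
    omega
  have hxb' : x' ∈ bx r u x Rb u := by
    unfold bx
    rw [mem_Icc]
    rw [abs_le] at hR2
    omega
  have hsys := HS (le_max_left _ _) hp hp' hL x Rb ρ fun v _ hv => hR₀ Rb hR1 ρ le_rfl v hv.le
  have hrr := hL.rr
  have e1 := massG89 hBm hrr hrN (m := i + 2) le_rfl le_rfl hxb
  have e2 := massG89 hBm hrr hrN (m := i + 2) le_rfl le_rfl hxb'
  have e3 := pmG89 (μ := μ) (s := s) (h := h) (η := η) (p := p) (M := M) Bm hrr (m := i + 2) le_rfl le_rfl hxb Q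
  rw [e3] at harm
  have key := H2 T u i (u + (i + 2)) (Θ ^ 2) (one_le_pow₀ hΘ) hΘ2 ((le_max_right _ _).trans (hL.T1 u le_rfl (by omega))) hT le_rfl
    (qq P C' q) (lt μ s κ r) (kk μ s h η p M r) (bx r u x Rb) ρ hsys
    (fun v hv hv' => qq_le P hC'.le hq₀ hΘ (hL.q0 v hv hv') (hq v hv hv')) hρ
    (Bm (r u)) (Bm (r (u + (i + 2))))
    ((Icc x (x + ((r (u + (i + 2)) - r u : ℕ) : ℤ))).filter Q) x x'
    (fun z => (hBm.b0 _ z hrN).le) e1 e2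
    (fun z hz => by
      obtain ⟨z1, z2⟩ := mem_filter.1 hz
      rw [mem_Icc] at z1
      refine ⟨?_, hQ z z1.1 z1.2 z2⟩
      unfold bx at hxb ⊢
      rw [mem_Icc] at hxb ⊢
      omega) hx hx' harm
  rw [← pow_mul] at key
  rw [show 4 * i = 2 * (2 * i) by ring]
  have hru0 : r u ≤ Nt := (r_mono hrr (i + 2) u le_rfl le_rfl).trans hrN
  refine key.trans (mul_le_mul_of_nonneg_right (Real.exp_le_exp.2 ?_) (hBm.b0 _ x' hru0).le)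
  have hE := EE_pos (μ := μ) (s := s) (T (u + i))
  refine mul_le_mul_of_nonneg_right ?_ (by positivity)
  have := mul_le_mul_of_nonneg_left (q_four89 hCg hq₀) hA
  linarith

/-! ### The steep step of the model -/

omit [IsProbabilityMeasure μ] in
/-- A smaller cone. -/
theorem StE84_del {B₁ B₂ δ δ' : ℝ} {n N : ℕ} {W₀ W₁ r : ℤ} {b q : ℝ} (hδ : δ' ≤ δ) :
    StE84 μ s B₁ B₂ δ n N W₀ W₁ r b q ⊆ StE84 μ s B₁ B₂ δ' n N W₀ W₁ r b q := fun _ hη j p p' h1 h2 h3 h4 h5 =>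
  hη j p p' h1 h2 h3 h4 (h5.trans (mul_le_mul_of_nonneg_right hδ (Nat.cast_nonneg n)))

/-- **The steep step of `nk`**, rows all below or all above the switch. -/
theorem steep89 (h0 : In μ s c C n₀) {h : ℝ} {η : Env} {p : ℕ → ℝ} {M : ℕ} (hp : ∀ k, k < M → p k = Real.exp (s + h))
    (hp' : ∀ k, M ≤ k → p k = Real.exp s) {e0 e2 n : ℕ} (hM : e2 ≤ M ∨ M ≤ e0) (h02 : e0 ≤ e2) (hn : 1 ≤ n) {B₁ B₂ δ θ : ℝ}
    (hB₂ : 2 ≤ B₂) (hθn : θ * n ≤ ((e2 - e0 : ℕ) : ℝ)) (hδ1 : δ ≤ θ * sl μ s) (hδ2 : δ ≤ θ * (1 - sl μ s)) {W₀ W₁ : ℤ} {b q : ℝ}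
    (hη : η ∈ StE84 μ s B₁ B₂ δ n (e2 - e0) W₀ W₁ e0 b q) (hf : |h| * wd μ s n ≤ c / 4 * EE μ s n) {j : ℕ} {x y : ℤ} (hx : W₀ ∣ x)
    (hy : W₁ ∣ y) (h1 : |(x : ℝ) - b| ≤ B₁ ^ j * wd μ s n) (h2 : |(y : ℝ) - x - sl μ s * ((e2 - e0 : ℕ) : ℝ)| ≤ 2 ^ j * wd μ s n)
    (h3 : 2 ^ j * wd μ s n ≤ δ * n) : Real.exp (-((q + c / 4) * B₂ ^ j * EE μ s n)) ≤ nk μ s h η p M e0 (e2 - e0) x y := by
  obtain ⟨sl0, sl1⟩ := sl_mem h0.em h0.nd s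
  have hn0 : (0 : ℝ) < n := by exact_mod_cast hn
  have hE := EE_pos (μ := μ) (s := s) n
  have hw := h0.wd_pos hn
  have hc0 := h0.c0
  have hX := hη j x y hx hy h1 h2 h3
  obtain ⟨L, hL⟩ : ∃ L : ℕ, L = e2 - e0 := ⟨_, rfl⟩
  rw [← hL] at hX hθn h2 ⊢
  obtain ⟨d, hd⟩ : ∃ d : ℝ, d = (y : ℝ) - x - sl μ s * (L : ℝ) := ⟨_, rfl⟩
  rw [← hd] at h2
  have hdδ := abs_le.1 (h2.trans h3)
  have k1 : δ * n ≤ sl μ s * L := by
    calc δ * n ≤ θ * sl μ s * n := mul_le_mul_of_nonneg_right hδ1 hn0.le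
      _ = sl μ s * (θ * n) := by ring
      _ ≤ sl μ s * L := mul_le_mul_of_nonneg_left hθn sl0.le
  have k2 : δ * n ≤ (1 - sl μ s) * L := by
    calc δ * n ≤ θ * (1 - sl μ s) * n := mul_le_mul_of_nonneg_right hδ2 hn0.le
      _ = (1 - sl μ s) * (θ * n) := by ring
      _ ≤ (1 - sl μ s) * L := mul_le_mul_of_nonneg_left hθn (by linarith)
  have y0 : 0 ≤ y - x := by
    have : (0 : ℝ) ≤ ((y - x : ℤ) : ℝ) := by push_cast; linarith [hdδ.1]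
    exact_mod_cast this
  have y1 : y - x ≤ (L : ℤ) := by
    have : ((y - x : ℤ) : ℝ) ≤ (L : ℝ) := by push_cast; linarith [hdδ.2]
    exact_mod_cast this
  have hWp := W_pos (μ := μ) (s := s) η ((e0 : ℤ), x) y0 y1
  have hWX : Real.exp (-(q * B₂ ^ j * EE μ s n)) ≤ W μ s η ((e0 : ℤ), x) L (y - x) := by
    unfold X at hX
    have h5 : -(q * B₂ ^ j * EE μ s n) ≤ Real.log (W μ s η ((e0 : ℤ), x) L (y - x)) := by linarith
    exact (Real.le_log_iff_exp_le hWp).1 h5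
  have h2j : (2 : ℝ) ^ j ≤ B₂ ^ j := pow_le_pow_left₀ (by norm_num) hB₂ j
  have h2j0 : (0 : ℝ) < 2 ^ j := by positivity
  -- the tilt
  have key : ∀ g : ℝ, |g| ≤ |h| → Real.exp (-((q + c / 4) * B₂ ^ j * EE μ s n)) ≤
      Real.exp (g * (((y - x : ℤ) : ℝ) - sl μ s * L)) * W μ s η ((e0 : ℤ), x) L (y - x) := by
    intro g hg
    have h5 : |g * (((y - x : ℤ) : ℝ) - sl μ s * L)| ≤ c / 4 * B₂ ^ j * EE μ s n := by
      rw [abs_mul]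
      have h6 : |((y - x : ℤ) : ℝ) - sl μ s * L| ≤ 2 ^ j * wd μ s n := by
        rw [hd] at h2
        push_cast
        exact h2
      calc |g| * |((y - x : ℤ) : ℝ) - sl μ s * L| ≤ |h| * (2 ^ j * wd μ s n) := mul_le_mul hg h6 (abs_nonneg _) (abs_nonneg _)
        _ = 2 ^ j * (|h| * wd μ s n) := by ring
        _ ≤ B₂ ^ j * (c / 4 * EE μ s n) := mul_le_mul h2j hf (by positivity) (by positivity)
        _ = _ := by ring
    have h7 := (abs_le.1 h5).1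
    have h8 : Real.exp (-((q + c / 4) * B₂ ^ j * EE μ s n)) ≤
        Real.exp (g * (((y - x : ℤ) : ℝ) - sl μ s * L)) * Real.exp (-(q * B₂ ^ j * EE μ s n)) := by
      rw [← Real.exp_add]
      refine Real.exp_le_exp.2 ?_
      linarith [show (q + c / 4) * B₂ ^ j * EE μ s n = q * B₂ ^ j * EE μ s n + c / 4 * B₂ ^ j * EE μ s n by ring]
    exact h8.trans (mul_le_mul_of_nonneg_left hWX (Real.exp_pos _).le)
  rcases hM with hM | hM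
  · rw [nk_lo hp (by omega) x y]
    exact key h le_rfl
  · rw [nk_hi hp' hM x y]
    have h5 := key 0 (by rw [abs_zero]; exact abs_nonneg h)
    rwa [zero_mul, Real.exp_zero, one_mul] at h5

/-- The steep steps of the layers `a ≤ v < b`: the grid of the row `v` = the multiples of `w v`, the base `β v` is near the line. -/
structure StL89 (μ : Measure ℝ) (s B₁ B₂ δ : ℝ) (η : Env) (κ : Pt) (r T : ℕ → ℕ) (q : ℕ → ℝ) (w : ℕ → ℤ) (β : ℕ → ℝ) (a b : ℕ) :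
    Prop where
  w0 : ∀ v, a ≤ v → v ≤ b → 0 < w v
  w1 : ∀ v, a ≤ v + 1 → v + 1 ≤ b → (w (v + 1) : ℝ) ≤ wd μ s (T v)
  bb : ∀ v, a ≤ v → v < b → |β v - ((κ.2 : ℝ) + sl μ s * ((r v : ℝ) - (κ.1 : ℝ)))| ≤ wd μ s (T v)
  st : ∀ v, a ≤ v → v < b → η ∈ StE84 μ s B₁ B₂ δ (T v) (r (v + 1) - r v) (w v) (w (v + 1)) (r v) (β v) (q v)

omit [IsProbabilityMeasure μ] in
theorem StL89.sub {B₁ B₂ δ : ℝ} {η : Env} {κ : Pt} {r T : ℕ → ℕ} {q : ℕ → ℝ} {w : ℕ → ℤ} {β : ℕ → ℝ} {a b a' b' : ℕ}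
    (hS : StL89 μ s B₁ B₂ δ η κ r T q w β a b) (ha : a ≤ a') (hb : b' ≤ b) : StL89 μ s B₁ B₂ δ η κ r T q w β a' b' :=
  ⟨fun v h1 h2 => hS.w0 v (by omega) (by omega), fun v h1 h2 => hS.w1 v (by omega) (by omega),
    fun v h1 h2 => hS.bb v (by omega) (by omega), fun v h1 h2 => hS.st v (by omega) (by omega)⟩

omit [IsProbabilityMeasure μ] in
/-- A large box contains the places near the line. -/
theorem boxP89 (κ : Pt) (r : ℕ → ℕ) (a b : ℕ) (x₀ : ℤ) (Λ : ℝ) : ∃ R₀ : ℤ, ∀ R : ℤ, R₀ ≤ R → ∀ v, v ≤ b → ∀ z : ℤ,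
    |lt μ s κ r v z| ≤ Λ → z ∈ bx r a x₀ R v := by
  obtain ⟨R₀, hR₀⟩ : ∃ R₀ : ℤ, R₀ = ∑ v ∈ range (b + 1),
    ⌈|((κ.2 : ℝ) + sl μ s * ((r v : ℝ) - (κ.1 : ℝ))) - x₀| + |Λ|⌉ := ⟨_, rfl⟩
  refine ⟨R₀, fun R hR v hv z hz => ?_⟩
  rw [lt_eq] at hz
  obtain ⟨X, hX⟩ : ∃ X : ℝ, X = (κ.2 : ℝ) + sl μ s * ((r v : ℝ) - (κ.1 : ℝ)) := ⟨_, rfl⟩
  rw [← hX] at hz
  have h1 : ⌈|X - x₀| + |Λ|⌉ ≤ R₀ := by
    rw [hR₀, hX]
    exact single_le_sum (f := fun v => ⌈|((κ.2 : ℝ) + sl μ s * ((r v : ℝ) - (κ.1 : ℝ))) - x₀| + |Λ|⌉)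
      (fun v _ => Int.ceil_nonneg (by positivity)) (mem_range.2 (by omega : v < b + 1))
  have h2 : |X - x₀| + |Λ| ≤ ((R : ℤ) : ℝ) := (Int.le_ceil _).trans (by exact_mod_cast h1.trans hR)
  have h3 : |((z - x₀ : ℤ) : ℝ)| ≤ ((R : ℤ) : ℝ) := by
    push_cast
    have h4 := abs_sub_le (z : ℝ) X x₀
    have h5 := le_abs_self Λ
    linarith
  have h4 : |z - x₀| ≤ R := by
    have h5 : ((|z - x₀| : ℤ) : ℝ) ≤ ((R : ℤ) : ℝ) := by rw [Int.cast_abs]; exact h3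
    exact_mod_cast h5
  rw [abs_le] at h4
  unfold bx
  rw [mem_Icc]
  omega

/-- **TWO PLACES AT A FAR LATERAL POSITION**, the model, any backward masses. -/
theorem lr_one89 (h0 : In μ s c C n₀) (P : ℕ) {θ K B₂ : ℝ} (hθ : 0 < θ) (hK : 4 ≤ K) (hB₂ : 2 ≤ B₂) : ∃ K₀ : ℕ, 2 ≤ K₀ ∧
    ∀ K₁ R Y Bp : ℝ, 1 ≤ K₁ → 0 ≤ R → 1 ≤ Y → 2 ≤ Bp → ∀ b : ℕ, ∃ (A : ℝ) (j₀ n₁ : ℕ), 0 ≤ A ∧ 1 ≤ n₁ ∧ ∀ q₀ : ℝ, 0 ≤ q₀ →
    ∀ {h : ℝ} {η : Env} {p : ℕ → ℝ} {M Nt : ℕ} {κ : Pt} {r T N : ℕ → ℕ} {q : ℕ → ℝ} {bs : ℕ → Pt} {w : ℕ → ℤ} {β : ℕ → ℝ} {u i : ℕ}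
      {Θ B₁ δ : ℝ} {Bm : ℕ → ℤ → ℝ}, Sys16 (fun a b x z => nk μ s h η p M a (b - a) x z) Bm Nt →
    (∀ k, k < M → p k = Real.exp (s + h)) → (∀ k, M ≤ k → p k = Real.exp s) → 1 ≤ Θ → Θ ^ 2 ≤ 2 →
    Lay89 μ s c θ K h P η κ r T N q bs u (u + (i + 3)) n₁ → r (u + (i + 3)) ≤ Nt →
    (∀ v, u ≤ v → v < u + (i + 2) → K₀ * T v ≤ T (v + 1) ∧ T (v + 1) ≤ b * T v) →
    (∀ v, u ≤ v → v < u + (i + 3) → q v ≤ q₀ * Θ ^ (v - u)) →
    2 * Bp ≤ B₁ → δ ≤ θ * sl μ s → δ ≤ θ * (1 - sl μ s) → StL89 μ s B₁ B₂ δ η κ r T q w β (u + (i + 1)) (u + (i + 2)) →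
    (r (u + (i + 2)) ≤ M ∨ M ≤ r (u + (i + 1))) →
    ∀ j : ℕ, 2 ^ (j + j₀) * wd μ s (T (u + (i + 1))) ≤ δ * T (u + (i + 1)) →
    ∀ (ρ : ℝ), |ρ| ≤ R * wd μ s (T u) → ∀ (x x' : ℤ), |lt μ s κ r u x - ρ| ≤ K₁ * (Bp ^ j * wd μ s (T (u + i))) →
    |lt μ s κ r u x' - ρ| ≤ K₁ * (Bp ^ j * wd μ s (T (u + i))) → |(x : ℝ) - x'| ≤ 2 * K₁ * wd μ s (T (u + i)) →
    ∀ (Q : ℤ → Prop) [DecidablePred Q], (∀ z, x ≤ z → z ≤ x + ((r (u + (i + 3)) - r u : ℕ) : ℤ) → Q z →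
      |lt μ s κ r (u + (i + 3)) z - lt μ s κ r u x| ≤ Y * 2 ^ j * wd μ s (T (u + (i + 2)))) →
    Bm (r u) x ≤ 2 * PM16 (fun a b x z => nk μ s h η p M a (b - a) x z) Bm (r u) (r (u + (i + 3))) x Q →
    Bm (r u) x ≤ Real.exp (A * (1 + q₀) ^ 4 * (B₂ ^ j * Θ ^ (4 * i) * EE μ s (T (u + i)))) * Bm (r u) x' := by
  have hc0 := h0.c0
  obtain ⟨K₀, hK₀, H⟩ := lrb_q89 h0 (2 * P) (cc := c / 2) (c₁ := c / 8) (c₂ := c / 8) (c₃ := c / 4) (by positivity) (by positivity)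
    (by positivity) (by linarith) hB₂
  refine ⟨K₀, hK₀, fun K₁ R Y Bp hK₁ hR hY hBp b => ?_⟩
  obtain ⟨C', hC', m₁, hm₁, HS⟩ := sys89 h0 P (θ := θ) (K := K) (by linarith) hθ
  obtain ⟨C'', hC''⟩ : ∃ C'' : ℝ, C'' = C' + 1 + c / 4 := ⟨_, rfl⟩
  have hC''0 : 0 ≤ C'' := by rw [hC'']; positivity
  have hg1 := gr_one_le (2 * P) (show (0 : ℝ) ≤ 2 by norm_num)
  obtain ⟨A, j₀, m₂, hA, hm₂, H2'⟩ := H (K - 2) K₁ 1 R Y Bp (by linarith) hK₁ zero_le_one hR hY hBp b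
  have hCg : 0 ≤ C'' * gr (2 * P) 2 := by positivity
  refine ⟨A * (1 + C'' * gr (2 * P) 2) ^ 2, j₀, max m₁ m₂, by positivity, hm₁.trans (le_max_left _ _), fun q₀ hq₀ => ?_⟩
  have H2 := H2' (C'' * gr (2 * P) 2 * (1 + q₀) ^ 2) (by positivity)
  intro h η p M Nt κ r T N q bs w β u i Θ B₁ δ Bm hBm hp hp' hΘ hΘ2 hL hrN hT hq hB₁ hδ1 hδ2 hst hM j hcone ρ hρ x x' hx hx' hxx Q _ hQ harm
  have hTge : ∀ v, u ≤ v → v < u + (i + 3) → m₁ ≤ T v := fun v h1 h2 => (le_max_left _ _).trans (hL.T1 v h1 h2)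
  have hwp : ∀ v, u ≤ v → v < u + (i + 3) → 0 < wd μ s (T v) := fun v h1 h2 => h0.wd_pos (hm₁.trans (hTge v h1 h2))
  have hw0 := hwp (u + (i + 2)) (by omega) (by omega)
  obtain ⟨Λ, hΛ⟩ : ∃ Λ : ℝ, Λ = (R + K₁ + Y + 1) * (Bp ^ j * wd μ s (T (u + (i + 2)))) + |ρ| := ⟨_, rfl⟩
  have hΛ0 : (R + K₁ + Y + 1) * (Bp ^ j * wd μ s (T (u + (i + 2)))) ≤ Λ := by
    rw [hΛ]
    have := abs_nonneg ρ
    linarith
  have hρΛ : |ρ| ≤ Λ := by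
    rw [hΛ]
    have : 0 ≤ (R + K₁ + Y + 1) * (Bp ^ j * wd μ s (T (u + (i + 2)))) := by positivity
    linarith
  -- the box
  obtain ⟨Λ', hΛ'⟩ : ∃ Λ' : ℝ, Λ' = Λ + 1 + wd μ s (T (u + i)) + wd μ s (T (u + (i + 1))) := ⟨_, rfl⟩
  obtain ⟨R₁, hR₁⟩ := boxP89 (μ := μ) (s := s) κ r u (u + (i + 3)) x Λ'
  obtain ⟨Rb, hRb⟩ : ∃ Rb : ℤ, Rb = max R₁ |x' - x| := ⟨_, rfl⟩
  have hR1 : R₁ ≤ Rb := by rw [hRb]; exact le_max_left _ _
  have hR2 : |x' - x| ≤ Rb := by rw [hRb]; exact le_max_right _ _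
  have hxb : x ∈ bx r u x Rb u := by
    unfold bx
    rw [mem_Icc]
    have := (abs_nonneg (x' - x)).trans hR2
    omega
  have hxb' : x' ∈ bx r u x Rb u := by
    unfold bx
    rw [mem_Icc]
    rw [abs_le] at hR2
    omega
  have hwi := hwp (u + i) (by omega) (by omega)
  have hwv := hwp (u + (i + 1)) (by omega) (by omega)
  have hline : ∀ t : ℝ, |t| ≤ Λ → ∀ v, v ≤ u + (i + 3) → ∃ z ∈ bx r u x Rb v, |lt μ s κ r v z - t| ≤ 1 := by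
    intro t ht v hv
    have h1 := line_site (μ := μ) (s := s) κ r t v
    refine ⟨_, hR₁ Rb hR1 v hv _ ?_, h1⟩
    have h2 := abs_add_le (lt μ s κ r v (κ.2 + ⌊sl μ s * (((r v : ℤ) - κ.1 : ℤ) : ℝ) + t⌋) - t) t
    rw [sub_add_cancel] at h2
    rw [hΛ']
    linarith
  have hgrid : ∀ t : ℝ, |t| ≤ Λ → ∀ v, u + i ≤ v → v ≤ u + (i + 1) → ∀ W : ℤ, 0 < W → (W : ℝ) ≤ wd μ s (T v) →
      ∃ z ∈ bx r u x Rb (v + 1), W ∣ z ∧ |lt μ s κ r (v + 1) z - t| ≤ wd μ s (T v) := by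
    intro t ht v hv hv' W hW0 hW
    obtain ⟨X, hX⟩ : ∃ X : ℝ, X = ((κ.2 : ℝ) + sl μ s * ((r (v + 1) : ℝ) - (κ.1 : ℝ))) + t := ⟨_, rfl⟩
    have hWR : (0 : ℝ) < W := by exact_mod_cast hW0
    have h1 : |lt μ s κ r (v + 1) (W * ⌊X / W⌋) - t| ≤ wd μ s (T v) := by
      rw [lt_eq]
      have h2 := Int.floor_le (X / W)
      have h3 := Int.lt_floor_add_one (X / W)
      rw [le_div_iff₀ hWR] at h2
      rw [div_lt_iff₀ hWR] at h3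
      push_cast
      rw [abs_le]
      constructor
      · linarith
      · linarith
    refine ⟨W * ⌊X / W⌋, hR₁ Rb hR1 (v + 1) (by omega) _ ?_, dvd_mul_right _ _, h1⟩
    have h2 := abs_add_le (lt μ s κ r (v + 1) (W * ⌊X / W⌋) - t) t
    rw [sub_add_cancel] at h2
    have h3 : wd μ s (T v) ≤ wd μ s (T (u + i)) + wd μ s (T (u + (i + 1))) := by
      rcases (show v = u + i ∨ v = u + (i + 1) by omega) with h4 | h4
      · rw [h4]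
        linarith
      · rw [h4]
        linarith
    rw [hΛ']
    linarith
  -- the system
  have hsys := sys_mono89 (q' := qq P C'' q) (fun v h1 h2 => (hwp v h1 h2).le) (fun v => by
    unfold qq
    have h1 : 0 ≤ gr (2 * P) 2 * (1 + q v) ^ 2 := by positivity
    have h2 : C' * (gr (2 * P) 2 * (1 + q v) ^ 2) ≤ C'' * (gr (2 * P) 2 * (1 + q v) ^ 2) := by
      refine mul_le_mul_of_nonneg_right ?_ h1
      rw [hC'']
      linarith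
    linarith) (HS (le_max_left _ _) hp hp' hL x Rb ρ fun v _ hv => hline ρ hρΛ v hv.le)
  have hrr := hL.rr
  have hstp : Stp89 μ s Bp B₂ Λ δ T (qq P C'' q) (lt μ s κ r) (kk μ s h η p M r) (bx r u x Rb)
      (fun v z => if v = u + (i + 1) then w (u + (i + 1)) ∣ z else w (u + (i + 2)) ∣ z) u i := by
    refine ⟨fun t ht v hv hv' => hline t ht v (by omega), ?_, ?_⟩
    · intro t ht v hv hv'
      rcases (show v = u + i ∨ v = u + (i + 1) by omega) with h4 | h4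
      · obtain ⟨z, z1, z2, z3⟩ := hgrid t ht v hv hv' (w (u + (i + 1))) (hst.w0 _ le_rfl (by omega)) (by
          rw [h4]
          exact hst.w1 (u + i) (by omega) (by omega))
        exact ⟨z, z1, by rw [if_pos (by omega)]; exact z2, z3⟩
      · obtain ⟨z, z1, z2, z3⟩ := hgrid t ht v hv hv' (w (u + (i + 2))) (hst.w0 _ (by omega) le_rfl) (by
          rw [h4]
          exact hst.w1 (u + (i + 1)) (by omega) (by omega))
        exact ⟨z, z1, by rw [if_neg (by omega)]; exact z2, z3⟩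
    · intro k hk z _ z' _ hz hz' h1 h2 h3
      rw [if_pos rfl] at hz
      rw [if_neg (by omega)] at hz'
      have hru := hrr (u + (i + 1)) (by omega) (by omega)
      have hE := EE_pos (μ := μ) (s := s) (T (u + (i + 1)))
      rw [lt_sub κ r (u + (i + 1)) (u + (i + 2)) z z' hru] at h2
      have hBk : 1 ≤ Bp ^ k := one_le_pow₀ (by linarith)
      have h4 : |(z : ℝ) - β (u + (i + 1))| ≤ B₁ ^ k * wd μ s (T (u + (i + 1))) := by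
        have h5 := hst.bb (u + (i + 1)) le_rfl (by omega)
        rw [lt_eq] at h1
        obtain ⟨X, hX⟩ : ∃ X : ℝ, X = (κ.2 : ℝ) + sl μ s * ((r (u + (i + 1)) : ℝ) - (κ.1 : ℝ)) := ⟨_, rfl⟩
        rw [← hX] at h1 h5
        rw [abs_sub_comm] at h5
        have h6 := abs_sub_le (z : ℝ) X (β (u + (i + 1)))
        have h7 : (2 * Bp) ^ k ≤ B₁ ^ k := pow_le_pow_left₀ (by linarith) hB₁ k
        have h8 : (2 : ℝ) ≤ 2 ^ k := by
          calc (2 : ℝ) = 2 ^ 1 := (pow_one 2).symm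
            _ ≤ 2 ^ k := pow_le_pow_right₀ (by norm_num) hk
        rw [mul_pow] at h7
        have h9 : Bp ^ k + 1 ≤ B₁ ^ k := by nlinarith only [h7, h8, hBk]
        have h10 := mul_le_mul_of_nonneg_right h9 hwv.le
        linarith
      have h5 := steep89 h0 hp hp' (e0 := r (u + (i + 1))) (e2 := r (u + (i + 2))) (n := T (u + (i + 1))) hM hru
        (hm₁.trans (hTge _ (by omega) (by omega))) hB₂ (hL.len (u + (i + 1)) (by omega) (by omega)) hδ1 hδ2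
        (hst.st (u + (i + 1)) le_rfl (by omega)) (hL.force (u + (i + 1)) (by omega) (by omega)) (j := k) (x := z) (y := z') hz hz' h4
        (by push_cast at h2 ⊢; exact h2) h3
      refine le_trans (Real.exp_le_exp.2 (neg_le_neg ?_)) h5
      refine mul_le_mul_of_nonneg_right (mul_le_mul_of_nonneg_right ?_ (by positivity)) hE.le
      have hq0 := hL.q0 (u + (i + 1)) (by omega) (by omega)
      unfold qq
      have h6 : 1 + q (u + (i + 1)) ≤ (1 + q (u + (i + 1))) ^ 2 := by nlinarith only [hq0]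
      have h7 : C'' * (1 + q (u + (i + 1))) ^ 2 ≤ C'' * gr (2 * P) 2 * (1 + q (u + (i + 1))) ^ 2 :=
        mul_le_mul_of_nonneg_right (le_mul_of_one_le_right hC''0 hg1) (sq_nonneg _)
      have h8 : (1 + c / 4) * (1 + q (u + (i + 1))) ≤ C'' * (1 + q (u + (i + 1))) ^ 2 :=
        mul_le_mul (by rw [hC'']; linarith) h6 (by linarith) hC''0
      have h9 : 0 ≤ c / 4 * q (u + (i + 1)) := by positivity
      linarith
  have e1 := massG89 hBm hrr hrN (m := i + 3) le_rfl le_rfl hxb'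
  have e3 := pmG89 (μ := μ) (s := s) (h := h) (η := η) (p := p) (M := M) Bm hrr (m := i + 3) le_rfl le_rfl hxb Q
  rw [e3] at harm
  have hG : ∀ z, 0 ≤ Bm (r (u + (i + 3))) z := fun z => (hBm.b0 _ z hrN).le
  have hZB : (Icc x (x + ((r (u + (i + 3)) - r u : ℕ) : ℤ))).filter Q ⊆ bx r u x Rb (u + (i + 3)) := by
    intro z hz
    obtain ⟨z1, z2⟩ := mem_filter.1 hz
    rw [mem_Icc] at z1
    unfold bx at hxb ⊢
    rw [mem_Icc] at hxb ⊢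
    omega
  have hru0 : r u ≤ Nt := (r_mono hrr (i + 3) u le_rfl le_rfl).trans hrN
  have key := H2 T u i j (Θ ^ 2) Λ δ (one_le_pow₀ hΘ) hΘ2 ((le_max_right _ _).trans (hL.T1 u le_rfl (by omega))) hT hΛ0 hcone
    (qq P C'' q) (lt μ s κ r) (kk μ s h η p M r) (bx r u x Rb) _ ρ ((κ.2 : ℝ) + sl μ s * ((r u : ℝ) - (κ.1 : ℝ))) hsys hstp
    (fun v hv hv' => qq_le P hC''0 hq₀ hΘ (hL.q0 v hv hv') (hq v hv hv')) hρ (fun y => lt_eq κ r u y)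
    (Bm (r u)) (Bm (r (u + (i + 3)))) ((Icc x (x + ((r (u + (i + 3)) - r u : ℕ) : ℤ))).filter Q) x x' hG (hBm.b0 _ x' hru0).le
    (by rw [lt_eq] at hx; rw [show (x : ℝ) - (((κ.2 : ℝ) + sl μ s * ((r u : ℝ) - (κ.1 : ℝ))) + ρ) =
          (x : ℝ) - ((κ.2 : ℝ) + sl μ s * ((r u : ℝ) - (κ.1 : ℝ))) - ρ by ring]; exact hx)
    (by rw [lt_eq] at hx'; rw [show (x' : ℝ) - (((κ.2 : ℝ) + sl μ s * ((r u : ℝ) - (κ.1 : ℝ))) + ρ) =
          (x' : ℝ) - ((κ.2 : ℝ) + sl μ s * ((r u : ℝ) - (κ.1 : ℝ))) - ρ by ring]; exact hx')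
    hxx (fun z hz => ⟨hZB hz, by
      obtain ⟨z1, z2⟩ := mem_filter.1 hz
      rw [mem_Icc] at z1
      exact hQ z z1.1 z1.2 z2⟩) harm (by
      rw [e1]
      refine sum_le_sum_of_subset_of_nonneg hZB fun z _ _ => mul_nonneg ?_ (hG z)
      rw [cmp_nk hrr (i + 3) u le_rfl le_rfl x' hxb' z]
      exact hBm.k0 (r u) (r (u + (i + 3))) x' z)
  rw [← pow_mul] at key
  rw [show 4 * i = 2 * (2 * i) by ring]
  refine key.trans (mul_le_mul_of_nonneg_right (Real.exp_le_exp.2 ?_) (hBm.b0 _ x' hru0).le)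
  have hE := EE_pos (μ := μ) (s := s) (T (u + i))
  have hB20 : 0 < B₂ := by linarith
  refine mul_le_mul_of_nonneg_right ?_ (by positivity)
  have := mul_le_mul_of_nonneg_left (q_four89 hCg hq₀) hA
  linarith

/-- **TWO PLACES AT A FAR LATERAL POSITION**, no condition on the switch row: the layers `u .. u + (i + 3)`, the arms at the rows
`u + (i + 3)` and `u + (i + 4)`. -/
theorem lr_sw89 (h0 : In μ s c C n₀) (P : ℕ) {θ K B₂ : ℝ} (hθ : 0 < θ) (hK : 4 ≤ K) (hB₂ : 2 ≤ B₂) : ∃ K₀ : ℕ, 2 ≤ K₀ ∧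
    ∀ K₁ R Y Bp : ℝ, 1 ≤ K₁ → 0 ≤ R → 1 ≤ Y → 2 ≤ Bp → ∀ b : ℕ, ∃ (A : ℝ) (j₀ n₁ : ℕ), 0 ≤ A ∧ 1 ≤ n₁ ∧ ∀ q₀ : ℝ, 0 ≤ q₀ →
    ∀ {h : ℝ} {η : Env} {p : ℕ → ℝ} {M Nt : ℕ} {κ : Pt} {r T N : ℕ → ℕ} {q : ℕ → ℝ} {bs : ℕ → Pt} {w : ℕ → ℤ} {β : ℕ → ℝ} {u i : ℕ}
      {Θ B₁ δ : ℝ} {Bm : ℕ → ℤ → ℝ}, Sys16 (fun a b x z => nk μ s h η p M a (b - a) x z) Bm Nt →
    (∀ k, k < M → p k = Real.exp (s + h)) → (∀ k, M ≤ k → p k = Real.exp s) → 1 ≤ Θ → Θ ^ 2 ≤ 2 →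
    Lay89 μ s c θ K h P η κ r T N q bs u (u + (i + 4)) n₁ → r (u + (i + 4)) ≤ Nt →
    (∀ v, u ≤ v → v < u + (i + 3) → K₀ * T v ≤ T (v + 1) ∧ T (v + 1) ≤ b * T v) →
    (∀ v, u ≤ v → v < u + (i + 4) → q v ≤ q₀ * Θ ^ (v - u)) →
    2 * Bp ≤ B₁ → δ ≤ θ * sl μ s → δ ≤ θ * (1 - sl μ s) → StL89 μ s B₁ B₂ δ η κ r T q w β (u + (i + 1)) (u + (i + 3)) →
    ∀ j : ℕ, 2 ^ (j + j₀) * wd μ s (T (u + (i + 1))) ≤ δ * T (u + (i + 1)) → 2 ^ (j + j₀) * wd μ s (T (u + (i + 2))) ≤ δ * T (u + (i + 2)) →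
    ∀ (ρ : ℝ), |ρ| ≤ R * wd μ s (T u) → ∀ (x x' : ℤ), |lt μ s κ r u x - ρ| ≤ K₁ * (Bp ^ j * wd μ s (T (u + i))) →
    |lt μ s κ r u x' - ρ| ≤ K₁ * (Bp ^ j * wd μ s (T (u + i))) → |(x : ℝ) - x'| ≤ 2 * K₁ * wd μ s (T (u + i)) →
    ∀ (Q Q' : ℤ → Prop) [DecidablePred Q] [DecidablePred Q'], (∀ z, x ≤ z → z ≤ x + ((r (u + (i + 3)) - r u : ℕ) : ℤ) → Q z →
      |lt μ s κ r (u + (i + 3)) z - lt μ s κ r u x| ≤ Y * 2 ^ j * wd μ s (T (u + (i + 2)))) →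
    Bm (r u) x ≤ 2 * PM16 (fun a b x z => nk μ s h η p M a (b - a) x z) Bm (r u) (r (u + (i + 3))) x Q →
    (∀ z, x ≤ z → z ≤ x + ((r (u + (i + 4)) - r u : ℕ) : ℤ) → Q' z →
      |lt μ s κ r (u + (i + 4)) z - lt μ s κ r u x| ≤ Y * 2 ^ j * wd μ s (T (u + (i + 3)))) →
    Bm (r u) x ≤ 2 * PM16 (fun a b x z => nk μ s h η p M a (b - a) x z) Bm (r u) (r (u + (i + 4))) x Q' →
    Bm (r u) x ≤ Real.exp (A * (1 + q₀) ^ 4 * (B₂ ^ j * Θ ^ (4 * i) * EE μ s (T (u + i)))) * Bm (r u) x' := by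
  obtain ⟨K₀, hK₀, H⟩ := lr_one89 h0 P hθ hK hB₂
  obtain ⟨Kw, mw, hKw2, hmw1, hw4⟩ := wd_four h0
  refine ⟨max K₀ Kw, hK₀.trans (le_max_left _ _), fun K₁ R Y Bp hK₁ hR hY hBp b => ?_⟩
  obtain ⟨A, j₀, m₁, hA, hm₁, H1⟩ := H K₁ R Y Bp hK₁ hR hY hBp b
  have hb0 : (0 : ℝ) ≤ b := Nat.cast_nonneg b
  refine ⟨A * (1 + 8 * b), j₀, max m₁ mw, by positivity, hm₁.trans (le_max_left _ _), fun q₀ hq₀ => ?_⟩
  intro h η p M Nt κ r T N q bs w β u i Θ B₁ δ Bm hBm hp hp' hΘ hΘ2 hL hrN hT hq hB₁ hδ1 hδ2 hst j hc1 hc2 ρ hρ x x' hx hx' hxx Q Q' _ _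
    hQ harm hQ' harm'
  have hT' : ∀ v, u ≤ v → v < u + (i + 3) → K₀ * T v ≤ T (v + 1) ∧ T (v + 1) ≤ b * T v := fun v h1 h2 =>
    ⟨(Nat.mul_le_mul_right _ (le_max_left _ _)).trans (hT v h1 h2).1, (hT v h1 h2).2⟩
  have hrr := hL.rr
  have hru0 : r u ≤ Nt := (r_mono hrr (i + 4) u le_rfl le_rfl).trans hrN
  have hr3 : r (u + (i + 3)) ≤ Nt := (hrr (u + (i + 3)) (by omega) (by omega)).trans hrN
  have hE := EE_pos (μ := μ) (s := s) (T (u + i))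
  have hB20 : 0 < B₂ := by linarith
  have hΘ0 : 0 < Θ := by linarith
  rcases le_or_gt (r (u + (i + 2))) M with h1 | h1
  · have key := H1 q₀ hq₀ hBm hp hp' hΘ hΘ2 (hL.sub le_rfl (by omega) (le_max_left _ _)) hr3 (fun v h2 h3 => hT' v h2 (by omega))
      (fun v h2 h3 => hq v h2 (by omega)) hB₁ hδ1 hδ2 (hst.sub le_rfl (by omega)) (Or.inl h1) j hc1 ρ hρ x x' hx hx' hxx Q hQ harm
    refine key.trans (mul_le_mul_of_nonneg_right (Real.exp_le_exp.2 ?_) (hBm.b0 _ x' hru0).le)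
    refine mul_le_mul_of_nonneg_right (mul_le_mul_of_nonneg_right ?_ (by positivity)) (by positivity)
    exact le_mul_of_one_le_right hA (by linarith)
  · have hTge : ∀ v, u ≤ v → v < u + (i + 4) → max m₁ mw ≤ T v := fun v h2 h3 => hL.T1 v h2 h3
    have hTu : 1 ≤ T (u + i) := hm₁.trans ((le_max_left _ _).trans (hTge _ (by omega) (by omega)))
    have hTi := hT (u + i) (by omega) (by omega)
    have hw := hw4 (T (u + i)) (T (u + (i + 1))) ((le_max_right _ _).trans (hTge _ (by omega) (by omega)))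
      ((Nat.mul_le_mul_right _ (le_max_right _ _)).trans hTi.1)
    have hwp := h0.wd_pos hTu
    have hww : wd μ s (T (u + i)) ≤ wd μ s (T (u + (i + 1))) := by linarith
    have hBj : 0 ≤ Bp ^ j := pow_nonneg (by linarith) j
    have hmono := mul_le_mul_of_nonneg_left (mul_le_mul_of_nonneg_left hww hBj) (show 0 ≤ K₁ by linarith)
    have key := H1 q₀ hq₀ (i := i + 1) hBm hp hp' hΘ hΘ2 (hL.sub le_rfl (by omega) (le_max_left _ _)) hrN (fun v h2 h3 => hT' v h2 (by omega))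
      (fun v h2 h3 => hq v h2 (by omega)) hB₁ hδ1 hδ2 (hst.sub (by omega) (by omega)) (Or.inr h1.le) j hc2 ρ hρ x x'
      (hx.trans hmono) (hx'.trans hmono) (hxx.trans (mul_le_mul_of_nonneg_left hww (by linarith))) Q' hQ' harm'
    refine key.trans (mul_le_mul_of_nonneg_right (Real.exp_le_exp.2 ?_) (hBm.b0 _ x' hru0).le)
    have hTT : T (u + i) ≤ T (u + (i + 1)) := (Nat.le_mul_of_pos_left _ (by omega)).trans hTi.1
    have hEE : EE μ s (T (u + (i + 1))) ≤ 2 * b * EE μ s (T (u + i)) := by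
      have h3 := scale_b h0 hTu hTT
      have hTi0 : (0 : ℝ) < T (u + i) := by exact_mod_cast hTu
      have h4 : (T (u + (i + 1)) : ℝ) ≤ b * T (u + i) := by exact_mod_cast hTi.2
      have h5 : (T (u + i) : ℝ) * EE μ s (T (u + (i + 1))) ≤ T (u + i) * (2 * b * EE μ s (T (u + i))) := by
        have h6 := mul_le_mul_of_nonneg_right h4 hE.le
        linarith
      exact le_of_mul_le_mul_left h5 hTi0
    have hΘ4 : Θ ^ (4 * (i + 1)) ≤ 4 * Θ ^ (4 * i) := by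
      have h3 : Θ ^ (4 * (i + 1)) = Θ ^ (4 * i) * (Θ ^ 2) ^ 2 := by
        rw [← pow_mul, ← pow_add]
        congr 1
      rw [h3]
      have h4 : (Θ ^ 2) ^ 2 ≤ 4 := by
        have := pow_le_pow_left₀ (by positivity) hΘ2 2
        linarith
      have h5 := mul_le_mul_of_nonneg_left h4 (show 0 ≤ Θ ^ (4 * i) by positivity)
      linarith
    have h6 : B₂ ^ j * Θ ^ (4 * (i + 1)) * EE μ s (T (u + (i + 1))) ≤ 8 * b * (B₂ ^ j * Θ ^ (4 * i) * EE μ s (T (u + i))) := by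
      calc _ ≤ B₂ ^ j * (4 * Θ ^ (4 * i)) * (2 * b * EE μ s (T (u + i))) :=
            mul_le_mul (mul_le_mul_of_nonneg_left hΘ4 (by positivity)) hEE (EE_pos _).le (by positivity)
        _ = _ := by ring
    have h7 := mul_le_mul_of_nonneg_left h6 (show 0 ≤ A * (1 + q₀) ^ 4 by positivity)
    have h8 : 0 ≤ A * (1 + q₀) ^ 4 * (B₂ ^ j * Θ ^ (4 * i) * EE μ s (T (u + i))) := by positivity
    linarith

end

end Pool.Agent.W_7d29a1_C1.LrN89
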