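import Pool.Agent.W_7d29a1_C1.OwnL2
import Pool.Agent.W_7d29a1_C1.DepS6
import Pool.Agent.W_7d29a1_C1.LrN89
import Pool.Agent.W_7d29a1_C1.ArmPn88

/-!
MP_7d29a1_pr, the attractor route, TAME: THE NODES AND THE STEEP LEVELS OF A PIECE OF SUCCESSIVE SCALES. (helper6)

`Pc6`: the positions `i₀, .., i₀ + m` of the list carry the scales `f, .., f + m` (clean piece `OwnL.pcC`, tower `OwnL.pcT`). Rows and units
as functions with any base index `o` (`o = 0`, `r k = (cs (i₀ + k)).row.toNat`; or `o = f`): `Rf6`. `Pc6.rows6`, `Pc6.nodes6`, `Pc6.cen6`,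
`Pc6.stl6`, `Pc6.swr6`, `Pc6.sw6` : the rows, the nodes, the centres, the steep levels, the switch, in the letters of `tame67` and
`d2_tower16`. `nodPI6` : the nodes of both directions as one depth.
-/

set_option autoImplicit false

namespace Pool.Agent.W_7d29a1_C1.Dep6

open MeasureTheory ProbabilityTheory Finset
open Pool.Agent.W_7d29a1_F Pool.Agent.W_7d29a1_h4g Pool.Agent.W_7d29a1_H Pool.Agent.W_7d29a1_HS
open Pool.Agent.W_7d29a1_C1.H75 Pool.Agent.W_7d29a1_C1.U16 Pool.Agent.W_7d29a1_C1.H40 Pool.Agent.W_7d29a1_C1.S71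
open Pool.Agent.W_7d29a1_C1.H94
open Pool.Agent.W_7d29a1_C1.FarW89 (lt)
open Pool.Agent.W_7d29a1_C1.LrN89 (StL89)
open Pool.Agent.W_7d29a1_C1.ArmPn88 (dpXP88 dp3_p88)
open scoped ENNReal

noncomputable section

variable {σ Λ : Type*} {G : Geo σ Λ} {lat : σ → ℝ} {latC : Cut Λ → ℝ} {w : ℕ → ℝ}

/-! ### The column of a cut -/

/-- The column of a cut, in its row. -/
def colC6 (latC : Cut Λ → ℝ) (v : ℝ) (b : Cut Λ) : ℤ := ⌊latC b + v * (b.row : ℝ)⌋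

theorem colC6_lat (latC : Cut Λ → ℝ) (v : ℝ) (b : Cut Λ) : |((colC6 latC v b : ℝ) - v * (b.row : ℝ)) - latC b| ≤ 1 := by
  have h1 := Int.floor_le (latC b + v * (b.row : ℝ))
  have h2 := Int.lt_floor_add_one (latC b + v * (b.row : ℝ))
  unfold colC6
  rw [abs_le]
  constructor <;> linarith

/-- Its lateral coordinate, seen from the line of `κ`. -/
theorem colC6_line {μ : Measure ℝ} {s x B : ℝ} {κ : Pt} (hκ : (κ.2 : ℝ) - sl μ s * (κ.1 : ℝ) = x) (b : Cut Λ)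
    (hb : |latC b - x| ≤ B) : |lat16 μ s κ (b.row, colC6 latC (sl μ s) b)| ≤ B + 1 := by
  have h1 := abs_le.1 (colC6_lat latC (sl μ s) b)
  have h2 := abs_le.1 hb
  have e : lat16 μ s κ (b.row, colC6 latC (sl μ s) b) = ((colC6 latC (sl μ s) b : ℝ) - sl μ s * (b.row : ℝ)) - x := by
    unfold lat16
    push_cast
    rw [← hκ]
    ring
  rw [e, abs_le]
  constructor <;> linarith [h1.1, h1.2, h2.1, h2.2]

/-! ### Pieces -/

/-- **A PIECE OF SUCCESSIVE SCALES**: the positions `i₀, .., i₀ + m` carry the scales `f, .., f + m`, with the rows of towers. -/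
structure Pc6 (G : Geo σ Λ) (ρ : σ) (cs : ℕ → Cut Λ) (i₀ f m len : ℕ) : Prop where
  sc : ∀ k ≤ m, (cs (i₀ + k)).sc = f + k
  rb : ∀ k ≤ m, RB G ρ (f + k) (cs (i₀ + k))
  lt : i₀ + m < len

/-- **Rows and units as functions**, base index `o`: `r (o + k)` = the row of the position `i₀ + k`, `Tn (o + k) = 4 T (f + k + 1)` = the unit
of the layer `(r (o + k), r (o + k + 1)]`. -/
structure Rf6 (G : Geo σ Λ) (cs : ℕ → Cut Λ) (i₀ f m o : ℕ) (r Tn : ℕ → ℕ) : Prop where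
  r_eq : ∀ k ≤ m, (r (o + k) : ℤ) = (cs (i₀ + k)).row
  t_eq : ∀ k < m, Tn (o + k) = 4 * G.T (f + k + 1)

/-- The units of the labels. -/
def tN6 (G : Geo σ Λ) (v : ℕ) : ℕ := 4 * G.T v

theorem T_eq6 (G : Geo σ Λ) (v : ℕ) : G.T (v + 1) = G.K * G.T v := by
  unfold Geo.T Tk
  rw [pow_succ]
  ring

section Own

variable {C0 : ℝ} {C2 D : ℕ} {Z : List (Cut Λ)} {ρ : σ} {u : ℕ} {cs : ℕ → Cut Λ} {v0 v1 v2 iL iC iT : ℕ}

/-- The clean piece. -/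
theorem OwnL.pcC (h : OwnL G lat latC w C0 C2 D Z ρ u cs v0 v1 v2 iL iC iT) {f m : ℕ} (h1 : v0 ≤ f) (h2 : f + m ≤ v1) :
    Pc6 G ρ cs (iC + (f - v0)) f m Z.length where
  sc k hk := by
    rw [show iC + (f - v0) + k = iC + (f + k - v0) by omega]
    exact h.clsc (f + k) (by omega) (by omega)
  rb k hk := by
    rw [show iC + (f - v0) + k = iC + (f + k - v0) by omega]
    exact h.clrb (f + k) (by omega) (by omega)
  lt := by
    have h3 := h.cC_lt (v := f + m) (by omega) h2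
    omega

/-- The tower. -/
theorem OwnL.pcT (h : OwnL G lat latC w C0 C2 D Z ρ u cs v0 v1 v2 iL iC iT) {f m : ℕ} (h1 : v1 + 3 ≤ f) (h2 : f + m ≤ G.m) :
    Pc6 G ρ cs (iT + (f - (v1 + 3))) f m Z.length where
  sc k hk := by
    rw [show iT + (f - (v1 + 3)) + k = iT + (f + k - (v1 + 3)) by omega]
    exact h.twsc (f + k) (by omega) (by omega)
  rb k hk := by
    rw [show iT + (f - (v1 + 3)) + k = iT + (f + k - (v1 + 3)) by omega]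
    exact h.twrb (f + k) (by omega) (by omega)
  lt := by
    have h3 := h.cT_lt (v := f + m) (by omega) h2
    omega

/-- The lateral bounds of the clean piece. -/
theorem OwnL.latC6 (h : OwnL G lat latC w C0 C2 D Z ρ u cs v0 v1 v2 iL iC iT) {f k : ℕ} (h1 : v0 ≤ f) (h2 : f + k ≤ v1) :
    |latC (cs (iC + (f - v0) + k)) - lat ρ| ≤ if f + k ≤ u + C2 then w (f + k) else C0 * w (f + k) := by
  rw [show iC + (f - v0) + k = iC + (f + k - v0) by omega]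
  exact h.clat (f + k) (by omega) h2

/-- The lateral bounds of the tower. -/
theorem OwnL.latT6 (h : OwnL G lat latC w C0 C2 D Z ρ u cs v0 v1 v2 iL iC iT) {f k : ℕ} (h1 : v1 + 3 ≤ f) (h2 : f + k ≤ G.m) :
    |latC (cs (iT + (f - (v1 + 3)) + k)) - lat ρ| ≤ BT w C0 D u (f + k) := by
  rw [show iT + (f - (v1 + 3)) + k = iT + (f + k - (v1 + 3)) by omega]
  exact h.twat (f + k) (by omega) h2

end Own

namespace Pc6

variable {ρ : σ} {cs : ℕ → Cut Λ} {i₀ f m len : ℕ}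

theorem sub (h : Pc6 G ρ cs i₀ f m len) {k n : ℕ} (hk : k + n ≤ m) : Pc6 G ρ cs (i₀ + k) (f + k) n len where
  sc j hj := by
    rw [Nat.add_assoc, Nat.add_assoc]
    exact h.sc (k + j) (by omega)
  rb j hj := by
    rw [Nat.add_assoc, Nat.add_assoc]
    exact h.rb (k + j) (by omega)
  lt := by
    have := h.lt
    omega

/-- The rows are not negative. -/
theorem row_nonneg6 (h : Pc6 G ρ cs i₀ f m len) (hρ : 0 ≤ G.row ρ) {k : ℕ} (hk : k ≤ m) : 0 ≤ (cs (i₀ + k)).row := by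
  obtain ⟨h1, -⟩ := h.rb k hk
  have h2 : (0 : ℤ) ≤ G.T (f + k) := by positivity
  linarith

/-- **The functions at the base index `0`.** -/
theorem rf0 (h : Pc6 G ρ cs i₀ f m len) (hρ : 0 ≤ G.row ρ) :
    Rf6 G cs i₀ f m 0 (fun k => (cs (i₀ + k)).row.toNat) (fun k => 4 * G.T (f + k + 1)) where
  r_eq k hk := by
    rw [Nat.zero_add]
    exact Int.toNat_of_nonneg (h.row_nonneg6 hρ hk)
  t_eq k _ := by rw [Nat.zero_add]

/-- **The functions at the base index `f`.** -/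
theorem rff (h : Pc6 G ρ cs i₀ f m len) (hρ : 0 ≤ G.row ρ) :
    Rf6 G cs i₀ f m f (fun v => (cs (i₀ + (v - f))).row.toNat) (fun v => 4 * G.T (v + 1)) where
  r_eq k hk := by
    show (((cs (i₀ + (f + k - f))).row.toNat : ℕ) : ℤ) = _
    rw [Nat.add_sub_cancel_left]
    exact Int.toNat_of_nonneg (h.row_nonneg6 hρ hk)
  t_eq k _ := rfl

variable {o : ℕ} {r Tn : ℕ → ℕ}

/-- The rows of a piece above the centre. -/
theorem rowb6 (h : Pc6 G ρ cs i₀ f m len) (hr : Rf6 G cs i₀ f m o r Tn) {k : ℕ} (hk : k ≤ m) :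
    (G.T (f + k) : ℤ) ≤ 2 * ((r (o + k) : ℤ) - G.row ρ) ∧ (r (o + k) : ℤ) - G.row ρ ≤ 4 * G.T (f + k) := by
  rw [hr.r_eq k hk]
  exact h.rb k hk

/-- **The rows of the layers**: `r (k + 1) ≤ r k + Tn k`, `Tn k ≤ 16 (r (k + 1) - r k)`. -/
theorem rows6 (h : Pc6 G ρ cs i₀ f m len) (hr : Rf6 G cs i₀ f m o r Tn) (hK : 16 ≤ G.K) {k : ℕ} (hk : k < m) :
    r (o + k) ≤ r (o + (k + 1)) ∧ r (o + (k + 1)) ≤ r (o + k) + Tn (o + k) ∧
      Tn (o + k) ≤ 16 * (r (o + (k + 1)) - r (o + k)) := by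
  obtain ⟨a1, a2⟩ := h.rowb6 hr (k := k) hk.le
  obtain ⟨b1, b2⟩ := h.rowb6 hr (k := k + 1) hk
  have e1 : G.T (f + (k + 1)) = G.K * G.T (f + k) := T_eq6 G (f + k)
  have e2 : 16 * G.T (f + k) ≤ G.T (f + (k + 1)) := by
    rw [e1]
    exact Nat.mul_le_mul_right _ hK
  have e3 : Tn (o + k) = 4 * G.T (f + (k + 1)) := hr.t_eq k hk
  have e4 := G.T_pos (f + k)
  rw [e3]
  generalize r (o + k) = x at *
  generalize r (o + (k + 1)) = y at *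
  generalize G.row ρ = z at *
  generalize G.T (f + (k + 1)) = t' at *
  generalize G.T (f + k) = t at *
  have h5 : x ≤ y := by omega
  refine ⟨h5, by omega, by omega⟩

/-- The number of rows of a layer. -/
theorem nR6 (hr : Rf6 G cs i₀ f m o r Tn) {k : ℕ} (hk : k < m) :
    nR (cs (i₀ + k)) (cs (i₀ + (k + 1))) = r (o + (k + 1)) - r (o + k) := by
  have h1 := hr.r_eq k hk.le
  have h2 := hr.r_eq (k + 1) hk
  unfold nR
  rw [← h1, ← h2]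
  omega

/-- The label of a layer. -/
theorem lb_eq6 (h : Pc6 G ρ cs i₀ f m len) {k : ℕ} (hk : k < m) : lb6 (cs (i₀ + k)) (cs (i₀ + (k + 1))) = f + (k + 1) := by
  unfold lb6
  rw [h.sc k hk.le, h.sc (k + 1) hk]
  omega

/-- The units grow. -/
theorem tgrow6 (hr : Rf6 G cs i₀ f m o r Tn) {K1 Kr : ℕ} (hK1 : K1 ≤ G.K) (hKr : G.K ≤ Kr) {k : ℕ} (hk : k + 1 < m) :
    K1 * Tn (o + k) ≤ Tn (o + (k + 1)) ∧ Tn (o + (k + 1)) ≤ Kr * Tn (o + k) := by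
  rw [hr.t_eq k (by omega), hr.t_eq (k + 1) hk, show f + (k + 1) + 1 = f + k + 1 + 1 by ring, T_eq6 G (f + k + 1)]
  constructor
  · calc K1 * (4 * G.T (f + k + 1)) ≤ G.K * (4 * G.T (f + k + 1)) := Nat.mul_le_mul_right _ hK1
      _ = 4 * (G.K * G.T (f + k + 1)) := by ring
  · calc 4 * (G.K * G.T (f + k + 1)) = G.K * (4 * G.T (f + k + 1)) := by ring
      _ ≤ Kr * (4 * G.T (f + k + 1)) := Nat.mul_le_mul_right _ hKr

end Pc6

/-! ### The nodes -/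

/-- **The nodes of a piece have the right numbers.** -/
theorem ndokP6 {μ : Measure ℝ} [IsProbabilityMeasure μ] {s c C : ℝ} {n₀ : ℕ} (h0 : In μ s c C n₀) {θ : ℝ} (hθ : 0 < θ) (K0 : ℕ) :
    ∃ K1 n₄ : ℕ, 16 ≤ K1 ∧ ∀ {c₀ δ₁ c₁ A aa g Y₁ : ℝ} {Kb n₃ : ℕ}, Cs94 μ s c₀ δ₁ c₁ A aa g θ Y₁ K0 Kb n₃ →
    ∀ {σ Λ : Type*} {G : Geo σ Λ} {ρ : σ} {cs : ℕ → Cut Λ} {i₀ f m len : ℕ}, K1 ≤ G.K → 64 * G.K ≤ Kb → Pc6 G ρ cs i₀ f m len →
      0 ≤ G.row ρ → n₄ ≤ G.T f → 16 * n₃ ≤ G.T f → ∀ k, 1 ≤ k → k < m →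
        NdOk μ s θ Kb n₃ (nR (cs (i₀ + (k - 1))) (cs (i₀ + k))) (nR (cs (i₀ + k)) (cs (i₀ + (k + 1))))
          (wN6 μ s (tN6 G) (cs (i₀ + (k - 1))) (cs (i₀ + k)) (cs (i₀ + (k + 1))))
          (qN6 μ s (tN6 G) (cs (i₀ + (k - 1))) (cs (i₀ + k)) (cs (i₀ + (k + 1)))) := by
  obtain ⟨K1, n₄, hK1, H⟩ := ndok88 h0 hθ K0 (Bn := 16) (by norm_num)
  refine ⟨max K1 16, n₄, le_max_right _ _, ?_⟩
  intro c₀ δ₁ c₁ A aa g Y₁ Kb n₃ hC σ Λ G ρ cs i₀ f m len hK hKb hP hρ hn4 hn3 k hk1 hk2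
  have hK1' : K1 ≤ G.K := (le_max_left _ _).trans hK
  have hK16 : 16 ≤ G.K := (le_max_right _ _).trans hK
  have hr := hP.rf0 hρ
  obtain ⟨r, hrd⟩ : ∃ r : ℕ → ℕ, r = fun k => (cs (i₀ + k)).row.toNat := ⟨_, rfl⟩
  obtain ⟨Tn, htd⟩ : ∃ Tn : ℕ → ℕ, Tn = fun k => 4 * G.T (f + k + 1) := ⟨_, rfl⟩
  rw [← hrd, ← htd] at hr
  have hT : ∀ i, i < m → G.T f ≤ Tn (0 + i) := fun i hi => by
    rw [hr.t_eq i hi]
    have := G.T_mono (show f ≤ f + i + 1 by omega)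
    omega
  have h1 := H hC G.K (by omega) (r := r) (T := Tn) (u := 0) (m := m) (by omega)
    (fun i hi => ⟨(hP.rows6 hr hK16 hi).1, (hP.rows6 hr hK16 hi).2.1⟩) (fun i hi => (hP.rows6 hr hK16 hi).2.2)
    (fun i hi => ⟨hn4.trans (hT i hi), hn3.trans (hT i hi)⟩)
    (fun i hi => Pc6.tgrow6 hr hK1' le_rfl hi) k hk1 hk2
  obtain ⟨j, rfl⟩ : ∃ j, k = j + 1 := ⟨k - 1, by omega⟩
  simp only [Nat.add_sub_cancel] at h1 ⊢
  have e1 := Pc6.nR6 hr (k := j) (by omega)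
  have e2 := Pc6.nR6 hr (k := j + 1) (by omega)
  have e3 := hP.lb_eq6 (k := j) (by omega)
  have e4 := hP.lb_eq6 (k := j + 1) (by omega)
  have e5 : Tn (0 + j) = tN6 G (f + (j + 1)) := hr.t_eq j (by omega)
  have e6 : Tn (0 + (j + 1)) = tN6 G (f + (j + 1 + 1)) := hr.t_eq (j + 1) hk2
  unfold wN6 qN6
  rw [e1, e2, e3, e4, ← e5, ← e6]
  exact h1

section Nodes

variable {μ : Measure ℝ} {s c₀ δ₁ θ Y A a g q₀ th : ℝ} {Kb n₃ R : ℕ} {F F' : Cut Λ → Cut Λ → ℝ → Set Env} {E : Cut Λ → Cut Λ → Set Env}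
  {E3 : Cut Λ → Cut Λ → Cut Λ → Set Env} {D : ℕ} {X : Cut Λ → Cut Λ → Cut Λ → Env → ℕ} {Cn : ℕ} {Sw : Finset ℤ} {Z : List (Cut Λ)}
  {u : ℕ} {η : Env} {Tl : ℕ → ℕ} {col : Cut Λ → ℤ}

/-- **The level of a node which is not felt.** -/
theorem nu_ok6 (hF : LvF μ A a g F) (hq : 0 ≤ q₀) (hth : 1 ≤ th)
    (ho : Ok6 Sw (dLI6 F F' E q₀ th D) (dNI6 X Cn F E3 q₀ th D) lb6 lbN6 Z u η)
    (hX : ∀ a b e, dpX6 μ s c₀ δ₁ θ Y Kb n₃ R (wN6 μ s Tl) (qN6 μ s Tl) (fun _ b _ => col b) a b e η ≤ X a b e η)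
    {P Q : List (Cut Λ)} {x y e : Cut Λ} (hZ : Z = P ++ x :: y :: e :: Q) (hs : ¬ HasSw Sw x e) {l : ℕ} (h1 : u ≤ y.sc + l)
    (h2 : y.sc ≤ u + l) (hl : l < D) (hN : NdOk μ s θ Kb n₃ (nR x y) (nR y e) (wN6 μ s Tl x y e) (qN6 μ s Tl x y e)) :
    Cn * nu μ s c₀ δ₁ Y (wd μ s (Tl (lb6 x y))) (wd μ s (Tl (lb6 y e)) / wd μ s (Tl (lb6 x y))) R x.row (nR x y) (nR y e)
      (col y) η ≤ l := by
  have h3 := (ok_nod6 hF hq hth ho hZ hs h1 h2 hl).1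
  have h4 := hX x y e
  rw [dpX6_eq η hN] at h4
  exact (Nat.mul_le_mul_left _ h4).trans h3

/-- **THE NODES OF A PIECE** in the letters of `arm88`, `tame67`, `d2_tower16`. -/
theorem Pc6.nodes6 {ρ : σ} {cs : ℕ → Cut Λ} {i₀ f m o : ℕ} {r Tn : ℕ → ℕ} (h : Pc6 G ρ cs i₀ f m Z.length)
    (hr : Rf6 G cs i₀ f m o r Tn)
    (htr : ∀ i, i + 2 < Z.length → ∃ P Q, Z = P ++ cs i :: cs (i + 1) :: cs (i + 2) :: Q)
    (hF : LvF μ A a g F) (hq : 0 ≤ q₀) (hth : 1 ≤ th)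
    (ho : Ok6 Sw (dLI6 F F' E q₀ th D) (dNI6 X Cn F E3 q₀ th D) lb6 lbN6 Z u η)
    (hX : ∀ a b e, dpX6 μ s c₀ δ₁ θ Y Kb n₃ R (wN6 μ s (tN6 G)) (qN6 μ s (tN6 G)) (fun _ b _ => col b) a b e η ≤ X a b e η)
    {k l : ℕ} (hk1 : 1 ≤ k) (hk2 : k < m) (hs : ¬ HasSw Sw (cs (i₀ + (k - 1))) (cs (i₀ + (k + 1)))) (h1 : u ≤ f + k + l)
    (h2 : f + k ≤ u + l) (hl : l < D)
    (hN : NdOk μ s θ Kb n₃ (nR (cs (i₀ + (k - 1))) (cs (i₀ + k))) (nR (cs (i₀ + k)) (cs (i₀ + (k + 1))))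
      (wN6 μ s (tN6 G) (cs (i₀ + (k - 1))) (cs (i₀ + k)) (cs (i₀ + (k + 1))))
      (qN6 μ s (tN6 G) (cs (i₀ + (k - 1))) (cs (i₀ + k)) (cs (i₀ + (k + 1))))) :
    Cn * nu μ s c₀ δ₁ Y (wd μ s (Tn (o + (k - 1)))) (wd μ s (Tn (o + k)) / wd μ s (Tn (o + (k - 1)))) R
      (r (o + (k - 1)) : ℤ) (r (o + k) - r (o + (k - 1))) (r (o + (k + 1)) - r (o + k)) (col (cs (i₀ + k))) η ≤ l := by
  obtain ⟨j, rfl⟩ : ∃ j, k = j + 1 := ⟨k - 1, by omega⟩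
  have hlt := h.lt
  obtain ⟨P, Q, e⟩ := htr (i₀ + j) (by omega)
  rw [show i₀ + j + 1 = i₀ + (j + 1) by ring, show i₀ + j + 2 = i₀ + (j + 1 + 1) by ring] at e
  simp only [Nat.add_sub_cancel] at hs hN ⊢
  have h3 := nu_ok6 hF hq hth ho hX e hs (l := l) (by rw [h.sc (j + 1) hk2.le]; exact h1) (by rw [h.sc (j + 1) hk2.le]; exact h2) hl hN
  have e5 : Tn (o + j) = tN6 G (f + (j + 1)) := hr.t_eq j (by omega)
  have e6 : Tn (o + (j + 1)) = tN6 G (f + (j + 1 + 1)) := hr.t_eq (j + 1) hk2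
  rw [Pc6.nR6 hr (k := j) (by omega), Pc6.nR6 hr (k := j + 1) (by omega), h.lb_eq6 (k := j) (by omega),
    h.lb_eq6 (k := j + 1) (by omega), ← hr.r_eq j (by omega), ← e5, ← e6] at h3
  exact h3

end Nodes

/-- **The centres of the nodes.** -/
theorem Rf6.cen6 {μ : Measure ℝ} {s x B : ℝ} {κ : Pt} {cs : ℕ → Cut Λ} {i₀ f m o : ℕ} {r Tn : ℕ → ℕ}
    (hr : Rf6 G cs i₀ f m o r Tn) (hκ : (κ.2 : ℝ) - sl μ s * (κ.1 : ℝ) = x) {k : ℕ} (hk : k ≤ m)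
    (hb : |latC (cs (i₀ + k)) - x| ≤ B) : |lt μ s κ r (o + k) (colC6 latC (sl μ s) (cs (i₀ + k)))| ≤ B + 1 := by
  have h1 := colC6_line (μ := μ) (s := s) hκ (cs (i₀ + k)) hb
  rw [← hr.r_eq k hk] at h1
  exact h1

/-! ### The switch -/

section Switch

variable {Sw : Finset ℤ} {E0 u : ℕ} {Z : List (Cut Λ)} {ρ : σ} {cs : ℕ → Cut Λ} {i₀ f m o M : ℕ} {r Tn : ℕ → ℕ}

/-- The switch is in no node whose label is near `u`. -/
theorem Pc6.swn6 (h : Pc6 G ρ cs i₀ f m Z.length)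
    (htr : ∀ i, i + 2 < Z.length → ∃ P Q, Z = P ++ cs i :: cs (i + 1) :: cs (i + 2) :: Q)
    (ho : OkS6 Sw E0 lb6 lbN6 Z u) (hE : 1 ≤ E0) {k : ℕ} (hk1 : 1 ≤ k) (hk2 : k < m) (h1 : u ≤ f + k + E0) (h2 : f + k ≤ u + E0) :
    ¬ HasSw Sw (cs (i₀ + (k - 1))) (cs (i₀ + (k + 1))) := by
  obtain ⟨j, rfl⟩ : ∃ j, k = j + 1 := ⟨k - 1, by omega⟩
  have hlt := h.lt
  obtain ⟨P, Q, e⟩ := htr (i₀ + j) (by omega)
  rw [show i₀ + j + 1 = i₀ + (j + 1) by ring, show i₀ + j + 2 = i₀ + (j + 1 + 1) by ring] at e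
  simp only [Nat.add_sub_cancel]
  refine ho.nod_near hE e ?_ ?_
  · show u ≤ (cs (i₀ + (j + 1))).sc + E0
    rw [h.sc (j + 1) hk2.le]
    exact h1
  · show (cs (i₀ + (j + 1))).sc ≤ u + E0
    rw [h.sc (j + 1) hk2.le]
    exact h2

theorem not_hasSw {a b : Cut Λ} {x y : ℕ} (h : ¬ HasSw Sw a b) (ha : (x : ℤ) = a.row) (hb : (y : ℤ) = b.row) (hM : (M : ℤ) ∈ Sw) :
    y < M ∨ M ≤ x := by
  by_contra hc
  rw [not_or, not_lt, not_le] at hc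
  exact h ⟨M, hM, by rw [← ha]; exact_mod_cast hc.2, by rw [← hb]; exact_mod_cast hc.1⟩

/-- The same in rows (hypothesis of `arm88`). -/
theorem Rf6.swr6 (hr : Rf6 G cs i₀ f m o r Tn) {k : ℕ} (hk2 : k < m)
    (hs : ¬ HasSw Sw (cs (i₀ + (k - 1))) (cs (i₀ + (k + 1)))) (hM : (M : ℤ) ∈ Sw) :
    r (o + (k + 1)) ≤ M ∨ M ≤ r (o + (k - 1)) := by
  rcases not_hasSw hs (hr.r_eq (k - 1) (by omega)) (hr.r_eq (k + 1) (by omega)) hM with h1 | h1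
  · exact Or.inl h1.le
  · exact Or.inr h1

/-- **The switch is in no layer of a piece whose labels are near `u`** (hypothesis of `d2_tower16`). -/
theorem Pc6.sw6 (h : Pc6 G ρ cs i₀ f m Z.length) (hr : Rf6 G cs i₀ f m o r Tn)
    (hpr : ∀ i, i + 1 < Z.length → ∃ P Q, Z = P ++ cs i :: cs (i + 1) :: Q)
    (ho : OkS6 Sw E0 lb6 lbN6 Z u) (hE : 1 ≤ E0) (h1 : u ≤ f + 1 + E0) (h2 : f + m ≤ u + E0) (hM : (M : ℤ) ∈ Sw) :
    M ≤ r o ∨ r (o + m) < M := by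
  have key : ∀ k, k ≤ m → M ≤ r o ∨ r (o + k) < M := by
    intro k
    induction k with
    | zero =>
      intro _
      exact le_or_gt _ _
    | succ k ih =>
      intro hk
      rcases ih (by omega) with h3 | h3
      · exact Or.inl h3
      · have hlt := h.lt
        obtain ⟨P, Q, e⟩ := hpr (i₀ + k) (by omega)
        rw [show i₀ + k + 1 = i₀ + (k + 1) by ring] at e
        have h4 : ¬ HasSw Sw (cs (i₀ + k)) (cs (i₀ + (k + 1))) := by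
          refine ho.lay_near hE e ?_ ?_
          · rw [h.lb_eq6 (k := k) (by omega)]
            omega
          · rw [h.lb_eq6 (k := k) (by omega)]
            omega
        rcases not_hasSw h4 (hr.r_eq k (by omega)) (hr.r_eq (k + 1) hk) hM with h5 | h5
        · exact Or.inr h5
        · exact absurd h3 (not_lt.2 h5)
  exact key m le_rfl

end Switch

/-! ### The steep levels -/

section Steep

variable {μ : Measure ℝ} {s A a g A' a' g' q₀ th : ℝ} {F : Cut Λ → Cut Λ → ℝ → Set Env} {E : Cut Λ → Cut Λ → Set Env}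
  {E3 : Cut Λ → Cut Λ → Cut Λ → Set Env} {D : ℕ} {X : Cut Λ → Cut Λ → Cut Λ → Env → ℕ} {Cn : ℕ} {Sw : Finset ℤ} {Z : List (Cut Λ)}
  {u : ℕ} {η : Env} {B₁ B₂ δ θ Lm e : ℝ} {n₁ : ℕ} {Hs : ℕ → ℕ} {Wg : ℕ → ℤ}

/-- The base of the grid of a layer. -/
def ceC6 (latC : Cut Λ → ℝ) (v : ℝ) (a _ : Cut Λ) : ℝ := latC a + v * (a.row : ℝ)

/-- **THE STEEP LEVELS OF A PIECE** (`StL89`): heights `Hs` of the labels, grids `Wg` of the scales of the cuts, line of `κ`. -/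
theorem Pc6.stl6 [IsProbabilityMeasure μ] {ρ : σ} {cs : ℕ → Cut Λ} {i₀ f m o : ℕ} {r Tn T : ℕ → ℕ} (h : Pc6 G ρ cs i₀ f m Z.length)
    (hr : Rf6 G cs i₀ f m o r Tn)
    (hpr : ∀ i, i + 1 < Z.length → ∃ P Q, Z = P ++ cs i :: cs (i + 1) :: Q)
    (hF : LvF μ A a g F)
    (hF' : LvF μ A' a' g' (stF6 μ s B₁ B₂ δ θ Lm n₁ (fun a b => Hs (lb6 a b)) (fun a => Wg a.sc) (ceC6 latC (sl μ s)) e))
    (hq : 0 ≤ q₀) (hth : 1 ≤ th)
    (ho : Ok6 Sw (dLI6 F (stF6 μ s B₁ B₂ δ θ Lm n₁ (fun a b => Hs (lb6 a b)) (fun a => Wg a.sc) (ceC6 latC (sl μ s)) e) E q₀ th D)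
      (dNI6 X Cn F E3 q₀ th D) lb6 lbN6 Z u η)
    (hT : ∀ k < m, T (o + k) = Hs (f + (k + 1)))
    -- the numbers
    (hB₂ : 0 ≤ B₂) (hn : ∀ k < m, n₁ ≤ Hs (f + (k + 1))) (hw1 : ∀ k < m, 0 < wd μ s (Hs (f + (k + 1))))
    (hθ : ∀ k < m, θ * Hs (f + (k + 1)) ≤ ((r (o + (k + 1)) - r (o + k) : ℕ) : ℝ))
    (hle : ∀ k < m, r (o + (k + 1)) - r (o + k) ≤ Hs (f + (k + 1)))
    (hW0 : ∀ k ≤ m, 0 < Wg (f + k)) (hWu : ∀ k < m, (Wg (f + (k + 1)) : ℝ) ≤ wd μ s (Hs (f + (k + 1))))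
    (hL0 : ∀ k < m, wd μ s (Hs (f + (k + 1))) ≤ Lm * Wg (f + k)) (hL1 : ∀ k < m, wd μ s (Hs (f + (k + 1))) ≤ Lm * Wg (f + (k + 1)))
    -- the line
    {κ : Pt} {x R Th : ℝ} (hκ : (κ.2 : ℝ) - sl μ s * (κ.1 : ℝ) = x) (hR : 1 ≤ R) (he : 0 ≤ e) (he1 : e ≤ 1) (hRe : R ^ e ≤ Th)
    {l : ℕ → ℕ} (hl : ∀ k < m, u ≤ f + (k + 1) + l k ∧ f + (k + 1) ≤ u + l k ∧ l k < D)
    (hlat : ∀ k < m, |latC (cs (i₀ + k)) - x| ≤ R ^ l k * wd μ s (Hs (f + (k + 1))))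
    {q : ℕ → ℝ} (hqq : ∀ k < m, 3 * (q₀ * th ^ l k) * Th ^ l k ≤ q (o + k)) :
    ∃ β : ℕ → ℝ, ∀ a', o ≤ a' → (a' = o → 1 ≤ o → (Wg f : ℝ) ≤ wd μ s (T (o - 1))) →
      StL89 μ s B₁ B₂ δ η κ r T q (fun v => Wg (f + (v - o))) β a' (o + m) := by
  have key : ∀ k < m, ∃ β' : ℝ, |β' - ((κ.2 : ℝ) + sl μ s * ((r (o + k) : ℝ) - (κ.1 : ℝ)))| ≤ wd μ s (Hs (f + (k + 1))) ∧
      η ∈ DD84.StE84 μ s B₁ B₂ δ (Hs (f + (k + 1))) (r (o + (k + 1)) - r (o + k)) (Wg (f + k)) (Wg (f + (k + 1))) (r (o + k) : ℤ) β'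
        (q (o + k)) := by
    intro k hk
    have hlt := h.lt
    obtain ⟨P, Q, eZ⟩ := hpr (i₀ + k) (by omega)
    rw [show i₀ + k + 1 = i₀ + (k + 1) by ring] at eZ
    have elb := h.lb_eq6 hk
    obtain ⟨l1, l2, l3⟩ := hl k hk
    have h1 := (ok_lay6 hF hF' hq hth ho eZ (l := l k) (by rw [elb]; exact l1) (by rw [elb]; exact l2) l3).2
    have enR := Pc6.nR6 hr hk
    have es0 := h.sc k hk.le
    have es1 := h.sc (k + 1) hk
    have er := hr.r_eq k hk.le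
    have hst : StOk μ s θ Lm n₁ (Hs (lb6 (cs (i₀ + k)) (cs (i₀ + (k + 1))))) (nR (cs (i₀ + k)) (cs (i₀ + (k + 1))))
        (Wg (cs (i₀ + k)).sc) (Wg (cs (i₀ + (k + 1))).sc) := by
      rw [elb, enR, es0, es1]
      exact ⟨hn k hk, hθ k hk, hle k hk, hW0 k hk.le, hW0 (k + 1) hk, hL0 k hk, hL1 k hk⟩
    have hb : |((κ.2 : ℝ) + sl μ s * ((r (o + k) : ℝ) - (κ.1 : ℝ))) - ceC6 latC (sl μ s) (cs (i₀ + k)) (cs (i₀ + (k + 1)))| ≤
        R ^ l k * wd μ s (Hs (lb6 (cs (i₀ + k)) (cs (i₀ + (k + 1))))) := by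
      rw [elb]
      have e1 : ((κ.2 : ℝ) + sl μ s * ((r (o + k) : ℝ) - (κ.1 : ℝ))) - ceC6 latC (sl μ s) (cs (i₀ + k)) (cs (i₀ + (k + 1))) =
          -(latC (cs (i₀ + k)) - x) := by
        unfold ceC6
        have e2 : (r (o + k) : ℝ) = ((cs (i₀ + k)).row : ℝ) := by
          rw [← er]
          push_cast
          rfl
        rw [e2, ← hκ]
        ring
      rw [e1, abs_neg]
      exact hlat k hk
    obtain ⟨β', b1, b2⟩ := stF_line hB₂ (by rw [elb]; exact hw1 k hk) hR he he1 hRe (mul_nonneg hq (by positivity)) h1 hst hb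
    rw [elb, enR, es0, es1, ← er] at b2
    rw [elb] at b1
    exact ⟨β', b1, DD84.StE84_mono hB₂ (hqq k hk) b2⟩
  choose! β hβ using key
  refine ⟨fun v => β (v - o), fun a' ha ho' => ⟨fun v h1 h2 => ?_, fun v h1 h2 => ?_, fun v h1 h2 => ?_, fun v h1 h2 => ?_⟩⟩
  · exact hW0 (v - o) (by omega)
  · rcases Nat.lt_or_ge v o with h3 | h3
    · have e1 : v = o - 1 := by omega
      have h4 := ho' (by omega) (by omega)
      subst e1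
      show ((Wg (f + (o - 1 + 1 - o)) : ℤ) : ℝ) ≤ _
      rw [show o - 1 + 1 - o = 0 by omega, Nat.add_zero]
      exact h4
    · obtain ⟨k, rfl⟩ : ∃ k, v = o + k := ⟨v - o, by omega⟩
      show ((Wg (f + (o + k + 1 - o)) : ℤ) : ℝ) ≤ _
      rw [show o + k + 1 - o = k + 1 by omega, hT k (by omega)]
      exact hWu k (by omega)
  · obtain ⟨k, rfl⟩ : ∃ k, v = o + k := ⟨v - o, by omega⟩
    show |β (o + k - o) - _| ≤ _
    rw [Nat.add_sub_cancel_left, hT k (by omega)]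
    exact (hβ k (by omega)).1
  · obtain ⟨k, rfl⟩ : ∃ k, v = o + k := ⟨v - o, by omega⟩
    show η ∈ DD84.StE84 μ s B₁ B₂ δ (T (o + k)) _ (Wg (f + (o + k - o))) (Wg (f + (o + k + 1 - o))) _ (β (o + k - o)) _
    rw [Nat.add_sub_cancel_left, show o + k + 1 - o = k + 1 by omega, hT k (by omega)]
    exact (hβ k (by omega)).2

end Steep

/-! ### Both directions -/

/-- **THE FAT LEVELS OF THE NODES, BOTH DIRECTIONS**, at `z ^ Cn`. -/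
theorem nodPI6 {μ : Measure ℝ} [IsProbabilityMeasure μ] {s c₀ δ₁ c₁ A a g θ Y₁ : ℝ} {K0 Kb n₃ : ℕ}
    (hC : Cs94 μ s c₀ δ₁ c₁ A a g θ Y₁ K0 Kb n₃) {R : ℕ} (hR : 1 ≤ R) {z : ℝ} (hz : 1 ≤ z) (Cn : ℕ) :
    ∃ Y₂ : ℝ, 8 * Y₁ ≤ Y₂ ∧ 8 ≤ Y₂ ∧ ∀ Y : ℝ, Y₂ ≤ Y → ∀ {Λ : Type*} (w q w' q' : Cut Λ → Cut Λ → Cut Λ → ℝ)
      (col col' : Cut Λ → Cut Λ → Cut Λ → ℤ),
        Dp3 μ (ENNReal.ofReal z ^ Cn) (1 + ENNReal.ofReal (1 / 4)) fun a b e η =>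
          max (dpX6 μ s c₀ δ₁ θ Y Kb n₃ R w q col a b e η) (dpXP88 μ s c₀ δ₁ θ Y Kb n₃ R w' q' col' a b e η) := by
  obtain ⟨Y₂, h1, h2, H⟩ := dp3_x6 hC hR (z := z ^ Cn) (d := 1 / 8) (one_le_pow₀ hz) (by norm_num)
  obtain ⟨Y₃, h3, h4, H'⟩ := dp3_p88 hC hR (z := z ^ Cn) (d := 1 / 8) (one_le_pow₀ hz) (by norm_num)
  refine ⟨max Y₂ Y₃, h1.trans (le_max_left _ _), h2.trans (le_max_left _ _), fun Y hY Λ w q w' q' col col' => ?_⟩
  have g1 := H Y ((le_max_left _ _).trans hY) w q col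
  have g2 := H' Y ((le_max_right _ _).trans hY) w' q' col'
  rw [ENNReal.ofReal_pow (by linarith)] at g1 g2
  have hz' : (1 : ℝ≥0∞) ≤ ENNReal.ofReal z ^ Cn := by
    refine one_le_pow₀ ?_
    rw [← ENNReal.ofReal_one]
    exact ENNReal.ofReal_le_ofReal hz
  have g3 := g1.max hz' g2
  have e : ENNReal.ofReal (1 / 8) + ENNReal.ofReal (1 / 8) = ENNReal.ofReal (1 / 4) := by
    rw [← ENNReal.ofReal_add (by norm_num) (by norm_num)]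
    norm_num
  rwa [e] at g3

end

end Pool.Agent.W_7d29a1_C1.Dep6
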