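import Pool.Agent.W_7d29a1_C1.HT86
import Pool.Agent.W_7d29a1_C1.LvT2
import Pool.Agent.W_7d29a1_C1.KiR2

/-!
MP_7d29a1_pr, the attractor route, TAME: THE CLAUSE `Lv` OF `hT`, NODE FORM. (helper2)

ANY event `Lv u κ` of the rows `ra ≤ k ≤ re` of the window (`rws` of KiR2) is an event of the node `(ct (u - 1) ρ, ct u ρ, ct (u + 1) ρ)` of an own slab:
`EvN`, `ev3_evN` (`Ev3` of DepI6), `ev2_evL`; `lvN_own37` : not felt at `u` says that it holds, also if the node has a row of `Sw` (`OkS6`);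
**`clLv2`** : the clause in the form `Cl86`, no exceptional set.
-/

set_option autoImplicit false

namespace Pool.Agent.W_7d29a1_C1.Dep6

open MeasureTheory ProbabilityTheory Finset
open Pool.Agent.W_7d29a1_F Pool.Agent.W_7d29a1_h4g Pool.Agent.W_7d29a1_H Pool.Agent.W_7d29a1_HS
open Pool.Agent.W_7d29a1_C1.H75 Pool.Agent.W_7d29a1_C1.U16 Pool.Agent.W_7d29a1_C1.H40 Pool.Agent.W_7d29a1_C1.S71
open scoped ENNReal

noncomputable section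

variable {Λ : Type*}

open Classical in
/-- The event `Lv` of the scale and the cell of the middle cut, if the sites which it reads lie in the node. -/
def EvN (Wn : ℕ → Λ → Set Pt) (Lv : ℕ → Λ → Set Env) (a b e : Cut Λ) : Set Env :=
  if Wn b.sc b.cd ⊆ btw a e then Lv b.sc b.cd else Set.univ

section EvN

variable {Wn : ℕ → Λ → Set Pt} {Lv : ℕ → Λ → Set Env}

theorem evN_good {a b e : Cut Λ} (hs : Wn b.sc b.cd ⊆ btw a e) {η : Env} (h : η ∈ EvN Wn Lv a b e) : η ∈ Lv b.sc b.cd := by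
  unfold EvN at h
  rwa [if_pos hs] at h

/-- **The event of the rows of the windows as an event of the nodes.** -/
theorem ev3_evN {μ : Measure ℝ} {d : ℝ≥0∞} (hm : ∀ u κ, MeasurableSet (Lv u κ))
    (hr : ∀ u κ (η η' : Env), (∀ p ∈ Wn u κ, η p = η' p) → (η ∈ Lv u κ ↔ η' ∈ Lv u κ)) (hd : ∀ u κ, law μ (Lv u κ)ᶜ ≤ d) :
    Ev3 μ d (EvN Wn Lv) := by
  refine ⟨fun a b e => ?_, fun a b e η η' h => ?_, fun a b e => ?_⟩
  · unfold EvN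
    split_ifs
    · exact hm _ _
    · exact MeasurableSet.univ
  · unfold EvN
    split_ifs with hs
    · exact hr _ _ η η' fun p hp => h p (hs hp)
    · exact Iff.rfl
  · unfold EvN
    split_ifs
    · exact hd _ _
    · rw [Set.compl_univ, measure_empty]
      exact zero_le

/-- **The event of the windows as an event of the layers.** -/
theorem ev2_evL {μ : Measure ℝ} {d : ℝ≥0∞} (hm : ∀ u κ, MeasurableSet (Lv u κ))
    (hr : ∀ u κ (η η' : Env), (∀ p ∈ Wn u κ, η p = η' p) → (η ∈ Lv u κ ↔ η' ∈ Lv u κ)) (hd : ∀ u κ, law μ (Lv u κ)ᶜ ≤ d) :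
    Ev2 μ d (EvL Wn Lv) :=
  ⟨evL_meas hm, evL_rows hr, evL_prob hd⟩

end EvN

/-- Two families of events of the nodes. -/
theorem Ev3.inter {μ : Measure ℝ} {d d' : ℝ≥0∞} {E E' : Cut Λ → Cut Λ → Cut Λ → Set Env} (h : Ev3 μ d E) (h' : Ev3 μ d' E') :
    Ev3 μ (d + d') (fun a b e => E a b e ∩ E' a b e) := by
  refine ⟨fun a b e => (h.meas a b e).inter (h'.meas a b e), fun a b e η η' hh => ?_, fun a b e => ?_⟩
  · exact and_congr (h.rows a b e η η' hh) (h'.rows a b e η η' hh)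
  · rw [Set.compl_inter]
    exact (measure_union_le _ _).trans (add_le_add (h.prob a b e) (h'.prob a b e))

/-- Two families of events of the layers. -/
theorem Ev2.inter {μ : Measure ℝ} {d d' : ℝ≥0∞} {E E' : Cut Λ → Cut Λ → Set Env} (h : Ev2 μ d E) (h' : Ev2 μ d' E') :
    Ev2 μ (d + d') (fun a b => E a b ∩ E' a b) := by
  refine ⟨fun a b => (h.meas a b).inter (h'.meas a b), fun a b η η' hh => ?_, fun a b => ?_⟩
  · exact and_congr (h.rows a b η η' hh) (h'.rows a b η η' hh)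
  · rw [Set.compl_inter]
    exact (measure_union_le _ _).trans (add_le_add (h.prob a b) (h'.prob a b))

theorem dEN6_mono {E E' : Cut Λ → Cut Λ → Cut Λ → Set Env} (h : ∀ a b e, E a b e ⊆ E' a b e) (v : ℕ) (a b e : Cut Λ) (η : Env) :
    dEN6 E' v a b e η ≤ dEN6 E v a b e η := by
  unfold dEN6
  by_cases h1 : η ∈ E a b e
  · rw [if_pos h1, if_pos (h a b e h1)]
  · rw [if_neg h1]
    split_ifs <;> omega

/-- The event of the nodes is a part of the instance `dNI6`. -/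
theorem dEN6_le_dNI6 {X : Cut Λ → Cut Λ → Cut Λ → Env → ℕ} {Cn : ℕ} {F : Cut Λ → Cut Λ → ℝ → Set Env}
    {E E' : Cut Λ → Cut Λ → Cut Λ → Set Env} {q₀ th : ℝ} {D : ℕ} (h : ∀ a b e, E a b e ⊆ E' a b e) (a b e : Cut Λ) (η : Env) :
    dEN6 E' 1 a b e η ≤ dNI6 X Cn F E q₀ th D a b e η := (dEN6_mono h 1 a b e η).trans (le_max_right _ _)

/-! ### The clause -/

variable {σ : Type*} {G : Geo σ Λ}

/-- **THE CLAUSE `Lv` OF `hT`, NODE FORM**, for a list in which `ct (u - 1) ρ`, `ct u ρ`, `ct (u + 1) ρ` are successive. -/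
theorem lvN_own {Wn : ℕ → Λ → Set Pt} {Lv : ℕ → Λ → Set Env} {Sw : Finset ℤ} {E0 : ℕ} {dL : Cut Λ → Cut Λ → Env → ℕ}
    {dN : Cut Λ → Cut Λ → Cut Λ → Env → ℕ} {scL : Cut Λ → Cut Λ → ℕ} {Z : List (Cut Λ)} {ρ : σ} {u v : ℕ} {η : Env}
    (hZ : ∃ P Q, Z = P ++ G.ct (u - 1) ρ :: G.ct u ρ :: G.ct (u + 1) ρ :: Q)
    (hdN : ∀ a b e η, dEN6 (EvN Wn Lv) v a b e η ≤ dN a b e η) (hv : 1 ≤ v) (ho : Ok6 Sw dL dN scL lbN6 Z u η)
    (hS : OkS6 Sw E0 scL lbN6 Z u) (hE : 1 ≤ E0) (hW : Wn u (G.loc u ρ) ⊆ btw (G.ct (u - 1) ρ) (G.ct (u + 1) ρ)) :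
    η ∈ Lv u (G.loc u ρ) := by
  obtain ⟨P, Q, e⟩ := hZ
  have e1 : lbN6 (G.ct (u - 1) ρ) (G.ct u ρ) (G.ct (u + 1) ρ) = u := rfl
  have h1 := hS.nod_near hE e (by rw [e1]; omega) (by rw [e1]; omega)
  have h2 : dN (G.ct (u - 1) ρ) (G.ct u ρ) (G.ct (u + 1) ρ) η ≤ 0 :=
    le_of_not_felt (ho.2 P _ _ _ Q e h1) (by rw [e1]; omega) (by rw [e1]; omega)
  have h3 : dEN6 (EvN Wn Lv) v (G.ct (u - 1) ρ) (G.ct u ρ) (G.ct (u + 1) ρ) η < v :=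
    lt_of_le_of_lt ((hdN _ _ _ _).trans h2) hv
  exact evN_good (a := G.ct (u - 1) ρ) (b := G.ct u ρ) (e := G.ct (u + 1) ρ) hW (dEN6_good h3)

/-! ### The windows of `Geo37` -/

section G37

open Pool.Agent.W_7d29a1_C1.P25 (rws offS)

variable (Gg : G37.Gm) {F : Finset (ℕ × ℤ)} {mt : ℕ} {W : Set {c // c ∈ F}}

/-- **The rows `[ra, re]` of an own slab lie in one node.** -/
theorem rws_btw {u : ℕ} (hu : 1 ≤ u) (ρ : {c // c ∈ F}) :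
    rws Gg u (Gg.loc u ρ.1) ⊆ btw ((Gg.geoJ F mt W).ct (u - 1) ρ) ((Gg.geoJ F mt W).ct (u + 1) ρ) := by
  intro p hp
  obtain ⟨h1, h2⟩ := hp
  have h0 : 0 ≤ Gg.rcc u (Gg.loc u ρ.1) := (Gg.rcc_pos u ρ.1).le
  rw [Gg.ra_cast h0] at h1
  rw [Gg.re_cast h0] at h2
  set GG := Gg.geoJ F mt W with hG
  have e1 : Gg.rcc u (Gg.loc u ρ.1) = GG.rc u (GG.row ρ) := rfl
  have e2 : (Gg.T (u - 1) : ℤ) = (GG.T (u - 1) : ℤ) := rfl
  have e3 : (Gg.T u : ℤ) = (GG.T u : ℤ) := rfl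
  rw [e1, e2] at h1
  rw [e1, e3] at h2
  have h3 : GG.rc (u - 1) (GG.row ρ) ≤ GG.rc u (GG.row ρ) := nxt_mono (GG.T_pos _) (GG.T_pos _) (Tk_dvd (by omega)) _
  have h4 : GG.rc u (GG.row ρ) ≤ GG.rc (u + 1) (GG.row ρ) := nxt_mono (GG.T_pos _) (GG.T_pos _) (Tk_dvd (by omega)) _
  have h5 : 8 * GG.T u ≤ GG.T (u + 1) := GG.T_succ u
  have h6 := GG.T_pos u
  constructor
  · rw [ct_row]
    linarith
  · rw [ct_row]
    have h7 : (8 : ℤ) * GG.T u ≤ GG.T (u + 1) := by exact_mod_cast h5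
    have h8 : (1 : ℤ) ≤ GG.T u := by exact_mod_cast h6
    linarith

/-- The window lies in the rows `[ra, re]`. -/
theorem off_rws {u : ℕ} {κ : ℤ × ℤ} {S : Set Env} (h : Off (offS Gg u κ) S) (η η' : Env) (hh : ∀ p ∈ rws Gg u κ, η p = η' p) :
    η ∈ S ↔ η' ∈ S :=
  h η η' fun p hp => hh p (not_not.1 hp)

open Classical in
/-- The event `Lv`, only asked if the rows of the window are not negative. -/
def LvP (Lv : ℕ → ℤ × ℤ → Set Env) (u : ℕ) (κ : ℤ × ℤ) : Set Env := if 0 ≤ Gg.rcc u κ then Lv u κ else Set.univ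

/-- **`Ev3` of an event of the rows `[ra, re]`.** -/
theorem ev3_off {μ : Measure ℝ} {Lv : ℕ → ℤ × ℤ → Set Env} {d : ℝ≥0∞} (hm : ∀ u κ, MeasurableSet (Lv u κ))
    (ho : ∀ u κ, 0 ≤ Gg.rcc u κ → Off (offS Gg u κ) (Lv u κ)) (hd : ∀ u κ, 0 ≤ Gg.rcc u κ → law μ (Lv u κ)ᶜ ≤ d) :
    Ev3 μ d (EvN (rws Gg) (LvP Gg Lv)) := by
  refine ev3_evN (fun u κ => ?_) (fun u κ η η' hh => ?_) fun u κ => ?_
  · unfold LvP
    split_ifs
    · exact hm _ _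
    · exact MeasurableSet.univ
  · unfold LvP
    split_ifs with h
    · exact off_rws Gg (ho u κ h) η η' hh
    · exact Iff.rfl
  · unfold LvP
    split_ifs with h
    · exact hd _ _ h
    · rw [Set.compl_univ, measure_empty]
      exact zero_le

/-- **THE CLAUSE `Lv` OF `hT`, NODE FORM, `Geo37`.** -/
theorem lvN_own37 {Lv : ℕ → ℤ × ℤ → Set Env} {Sw : Finset ℤ} {E0 : ℕ} {dL : Cut (ℤ × ℤ) → Cut (ℤ × ℤ) → Env → ℕ}
    {dN : Cut (ℤ × ℤ) → Cut (ℤ × ℤ) → Cut (ℤ × ℤ) → Env → ℕ} {scL : Cut (ℤ × ℤ) → Cut (ℤ × ℤ) → ℕ} {Z : List (Cut (ℤ × ℤ))}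
    {ρ : {c // c ∈ F}} {u v : ℕ} {η : Env} (hu : 1 ≤ u)
    (hZ : ∃ P Q, Z = P ++ (Gg.geoJ F mt W).ct (u - 1) ρ :: (Gg.geoJ F mt W).ct u ρ :: (Gg.geoJ F mt W).ct (u + 1) ρ :: Q)
    (hdN : ∀ a b e η, dEN6 (EvN (rws Gg) (LvP Gg Lv)) v a b e η ≤ dN a b e η) (hv : 1 ≤ v) (ho : Ok6 Sw dL dN scL lbN6 Z u η)
    (hS : OkS6 Sw E0 scL lbN6 Z u) (hE : 1 ≤ E0) : η ∈ Lv u (Gg.loc u ρ.1) := by
  have h := lvN_own (G := Gg.geoJ F mt W) hZ hdN hv ho hS hE (rws_btw Gg hu ρ)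
  unfold LvP at h
  rwa [if_pos (show 0 ≤ Gg.rcc u ((Gg.geoJ F mt W).loc u ρ) from (Gg.rcc_pos u ρ.1).le)] at h

end G37

/-! ### In the form of HT86 -/

open Pool.Agent.W_7d29a1_C1.PW86 in
/-- **THE CLAUSE OF `Lv`**, no exceptional set. -/
theorem clLv2 {Γ : H60.Cx} {Gg : G37.Gm} {mt : ℕ} {Lv : ℕ → ℤ × ℤ → Set Env} {Sw : Finset ℤ} {E0 : ℕ}
    {dL : Cut (ℤ × ℤ) → Cut (ℤ × ℤ) → Env → ℕ} {dN : Cut (ℤ × ℤ) → Cut (ℤ × ℤ) → Cut (ℤ × ℤ) → Env → ℕ}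
    {scL : Cut (ℤ × ℤ) → Cut (ℤ × ℤ) → ℕ} {C0 : ℝ} {C2 D τ v : ℕ} (hC : 1 ≤ C2) (hτ : 1 ≤ τ) (hE : 1 ≤ E0) (hv : 1 ≤ v)
    (hdN : ∀ a b e η, dEN6 (EvN (P25.rws Gg) (LvP Gg Lv)) v a b e η ≤ dN a b e η) :
    Cl86 Γ Gg mt Sw E0 dL dN scL lbN6 C0 C2 D τ ∅ Lv := fun _ _ ρ _ _ a1 _ _ a4 a5 a6 =>
  lvN_own37 Gg (F := SF98.FS Γ Gg mt) (mt := mt) (W := Set.univ) (ρ := ρ) (hτ.trans a1) (triple86 a4 hC (hτ.trans a1)) hdN hv a5 a6 hE

end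

end Pool.Agent.W_7d29a1_C1.Dep6
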