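import Pool.Agent.W_7d29a1_C1.OuP37
import Pool.Agent.W_7d29a1_C1.LvN2

/-!
MP_7d29a1_pr, [C1] attractor route, TAME / SEP: THE LAST STEP OF THE CLAUSES `Ou`, `OuT` OF `hT` (letters). (helper37)

* `ct_lo`, `ct_hi`, `ct_top` : the rows `[ra - 1, re]` of the own slab `(u, loc u ρ)` against the cuts `ct (u - 1) ρ`, `ct u ρ`, `ct (u + 1) ρ`;
* `off_ctr` : the centre of the cell of a contact;
* **`ouT_of`, `ouD_of`** : `OuT`, `OuD` (slack `0`) from comparisons in `bh16`, `lat16` of an arbitrary base;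
* `cl_ouT`, `cl_ou` : the clauses in the form `Cl86`.
-/

set_option autoImplicit false

namespace Pool.Agent.W_7d29a1_C1.Ou37

open Finset MeasureTheory
open Pool.Agent.W_7d29a1_F hiding Bw G
open Pool.Agent.W_7d29a1_h4g Pool.Agent.W_7d29a1_HS
open Pool.Agent.W_7d29a1_H hiding ex gg
open Pool.Agent.W_7d29a1_C1.K91 (wt wt_pos measurable_wt)
open Pool.Agent.W_7d29a1_C1.U16 (bh16 bw_bh16 lat16)
open Pool.Agent.W_7d29a1_C1.H60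
open Pool.Agent.W_7d29a1_C1.H40
open Pool.Agent.W_7d29a1_C1.G37 (Gm)
open Pool.Agent.W_7d29a1_C1.SF98 (FS XS mem_FS)
open Pool.Agent.W_7d29a1_C1.PW86 (gj)
open Pool.Agent.W_7d29a1_C1.Dep6
open Pool.Agent.W_7d29a1_C1.PW86 (Cl86)

noncomputable section

/-! ### The rows -/

section Rows

variable (G : Gm) {F : Finset (ℕ × ℤ)} {mt : ℕ} {W : Set {c // c ∈ F}}

/-- The cut of the scale `u - 1` lies below the rows of the window. -/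
theorem ct_lo (u : ℕ) (ρ : {c // c ∈ F}) : ((G.geoJ F mt W).ct (u - 1) ρ).row + 1 ≤ (G.ra u (G.loc u ρ.1) : ℤ) := by
  have h0 : 0 ≤ G.rcc u (G.loc u ρ.1) := (G.rcc_pos u ρ.1).le
  rw [G.ra_cast h0]
  set GG := G.geoJ F mt W with hG
  have e1 : G.rcc u (G.loc u ρ.1) = GG.rc u (GG.row ρ) := rfl
  have e2 : (G.T (u - 1) : ℤ) = (GG.T (u - 1) : ℤ) := rfl
  rw [e1, e2]
  have h3 : GG.rc (u - 1) (GG.row ρ) ≤ GG.rc u (GG.row ρ) := nxt_mono (GG.T_pos _) (GG.T_pos _) (Tk_dvd (by omega)) _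
  rw [ct_row]
  linarith

/-- The cut of the scale `u` is the row `re - 1`. -/
theorem ct_hi (u : ℕ) (ρ : {c // c ∈ F}) : ((G.geoJ F mt W).ct u ρ).row + 1 = (G.re u (G.loc u ρ.1) : ℤ) := by
  have h0 : 0 ≤ G.rcc u (G.loc u ρ.1) := (G.rcc_pos u ρ.1).le
  rw [G.re_cast h0]
  set GG := G.geoJ F mt W with hG
  have e1 : G.rcc u (G.loc u ρ.1) = GG.rc u (GG.row ρ) := rfl
  have e2 : (G.T u : ℤ) = (GG.T u : ℤ) := rfl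
  rw [e1, e2, ct_row]

/-- The cut of the scale `u + 1` lies far above the window. -/
theorem ct_top (u : ℕ) (ρ : {c // c ∈ F}) : (G.re u (G.loc u ρ.1) : ℤ) + (G.T (u + 1) - G.T u - 1) ≤ ((G.geoJ F mt W).ct (u + 1) ρ).row := by
  have h0 : 0 ≤ G.rcc u (G.loc u ρ.1) := (G.rcc_pos u ρ.1).le
  rw [G.re_cast h0]
  set GG := G.geoJ F mt W with hG
  have e1 : G.rcc u (G.loc u ρ.1) = GG.rc u (GG.row ρ) := rfl
  have e2 : (G.T u : ℤ) = (GG.T u : ℤ) := rfl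
  have e3 : (G.T (u + 1) : ℤ) = (GG.T (u + 1) : ℤ) := rfl
  rw [e1, e2, e3]
  have h4 : GG.rc u (GG.row ρ) ≤ GG.rc (u + 1) (GG.row ρ) := nxt_mono (GG.T_pos _) (GG.T_pos _) (Tk_dvd (by omega)) _
  rw [ct_row]
  linarith

theorem ct_nonneg (v : ℕ) (ρ : {c // c ∈ F}) : 0 ≤ ((G.geoJ F mt W).ct v ρ).row := by
  set GG := G.geoJ F mt W with hG
  have e1 : G.rcc v (G.loc v ρ.1) = GG.rc v (GG.row ρ) := rfl
  have h1 := (G.rcc_pos v ρ.1)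
  have h2 := GG.T_pos v
  rw [ct_row, ← e1]
  have h3 : (0 : ℤ) ≤ GG.T v := Int.natCast_nonneg _
  linarith

end Rows

/-! ### The letters -/

variable {μ : Measure ℝ} {s : ℝ} {Γ : Cx} {G : Gm} {E : ℕ → ℝ} {R Q' Q4 sgm : ℝ} {u : ℕ} {κ : ℤ × ℤ} {ω : Env}

/-- The lateral coordinate of a base. -/
def lb0 (G : Gm) (κ₀ : Pt) : ℝ := (κ₀.2 : ℝ) - G.v * (κ₀.1 : ℝ)

theorem lat_lb0 (hv : G.v = sl μ s) (κ₀ : Pt) (k : ℕ) (y : ℤ) : lat16 μ s κ₀ ((k : ℤ), y) = G.lat (k, y) - lb0 G κ₀ := by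
  unfold Gm.lat lat16 lb0
  rw [hv]
  push_cast
  ring

/-- The base at a contact. -/
theorem off_ctr (u : ℕ) (ρ : ℕ × ℤ) : |lb0 G ((ρ.1 : ℤ), ρ.2) - G.ctr u (G.loc u ρ)| ≤ G.w u / 2 := by
  have h1 := G.lat_ctr u ρ
  have h2 := G.g_le u
  have e : lb0 G ((ρ.1 : ℤ), ρ.2) = G.lat ρ := by
    unfold lb0 Gm.lat
    push_cast
    ring
  rw [e]
  linarith

/-- **`OuT`** (slack `0`) from a comparison of all pairs of sites of the rows `[ra - 1, re]`. -/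
theorem ouT_of (hv : G.v = sl μ s) {κ₀ : Pt} {D W' X : ℝ} (ho : |lb0 G κ₀ - G.ctr u κ| ≤ D) (hR : R * G.w u + D ≤ W') (hX : X ≤ Q' * E u)
    (H : ∀ (k k' : ℕ) (y y' : ℤ), G.ra u κ ≤ k + 1 → k ≤ G.re u κ → G.ra u κ ≤ k' + 1 → k' ≤ G.re u κ →
      |lat16 μ s κ₀ ((k : ℤ), y)| ≤ W' → |lat16 μ s κ₀ ((k' : ℤ), y')| ≤ W' →
      bh16 μ s Γ.h ω Γ.p Γ.M Γ.N k' y' ≤ Real.exp X * bh16 μ s Γ.h ω Γ.p Γ.M Γ.N k y) :
    ω ∈ OuT μ s Γ G E R Q' 0 u κ := by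
  intro c hc c' hc'
  have key : ∀ z : ℕ × ℤ, |G.lat z - G.ctr u κ| ≤ R * G.w u → |lat16 μ s κ₀ ((z.1 : ℤ), z.2)| ≤ W' := by
    intro z hz
    rw [lat_lb0 hv]
    have e : G.lat (z.1, z.2) - lb0 G κ₀ = (G.lat z - G.ctr u κ) - (lb0 G κ₀ - G.ctr u κ) := by ring
    rw [e]
    exact (abs_sub _ _).trans (by linarith)
  refine (H c.1 c'.1 c.2 c'.2 hc.1 hc.2.1 hc'.1 hc'.2.1 (key c hc.2.2) (key c' hc'.2.2)).trans ?_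
  exact mul_le_mul_of_nonneg_right (Real.exp_le_exp.2 (by linarith)) (bn_pos (μ := μ) (s := s) (Γ := Γ) c.1 c.2 ω).le

/-- **`OuD`** (slack `0`) from D2 at the row `re` in any unit. -/
theorem ouD_of (hv : G.v = sl μ s) {κ₀ : Pt} {D W' w' E' Q σ : ℝ} (ho : |lb0 G κ₀ - G.ctr u κ| ≤ D) (hR : R * G.w u + D ≤ W')
    (hw' : 0 < w') (hE' : 0 ≤ E') (hσ : 0 ≤ σ) (h1 : (Q + σ * (D / w')) * E' ≤ Q4 * E u) (h2 : σ / w' * E' ≤ sgm / G.w u * E u)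
    (H : ∀ y y₀ : ℤ, |lat16 μ s κ₀ ((G.re u κ : ℤ), y₀)| ≤ W' →
      bh16 μ s Γ.h ω Γ.p Γ.M Γ.N (G.re u κ) y ≤ Real.exp ((Q + σ * (|lat16 μ s κ₀ ((G.re u κ : ℤ), y)| / w')) * E') *
        bh16 μ s Γ.h ω Γ.p Γ.M Γ.N (G.re u κ) y₀) :
    ω ∈ OuD μ s Γ G E R Q4 sgm 0 u κ := by
  intro y y₀ hy₀
  have key : ∀ z : ℤ, |lat16 μ s κ₀ ((G.re u κ : ℤ), z)| ≤ |G.lat (G.re u κ, z) - G.ctr u κ| + D := by
    intro z
    rw [lat_lb0 hv]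
    have e : G.lat (G.re u κ, z) - lb0 G κ₀ = (G.lat (G.re u κ, z) - G.ctr u κ) - (lb0 G κ₀ - G.ctr u κ) := by ring
    rw [e]
    exact (abs_sub _ _).trans (by linarith)
  refine (H y y₀ ((key y₀).trans (by linarith))).trans ?_
  refine mul_le_mul_of_nonneg_right (Real.exp_le_exp.2 ?_) (bn_pos (μ := μ) (s := s) (Γ := Γ) (G.re u κ) y₀ ω).le
  set t := |G.lat (G.re u κ, y) - G.ctr u κ| with ht
  have ht0 : 0 ≤ t := abs_nonneg _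
  have hk := key y
  rw [← ht] at hk
  have h3 : |lat16 μ s κ₀ ((G.re u κ : ℤ), y)| / w' ≤ (t + D) / w' := div_le_div_of_nonneg_right hk hw'.le
  have h4 : (Q + σ * (|lat16 μ s κ₀ ((G.re u κ : ℤ), y)| / w')) * E' ≤ (Q + σ * ((t + D) / w')) * E' :=
    mul_le_mul_of_nonneg_right (by linarith [mul_le_mul_of_nonneg_left h3 hσ]) hE'
  have h5 : (Q + σ * ((t + D) / w')) * E' = (Q + σ * (D / w')) * E' + t * (σ / w' * E') := by ring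
  have h6 := mul_le_mul_of_nonneg_left h2 ht0
  have h7 : t * (sgm / G.w u * E u) = sgm * (t / G.w u) * E u := by ring
  rw [h7] at h6
  rw [add_zero]
  linarith

/-! ### The clauses -/

variable {mt : ℕ} {Sw : Finset ℤ} {E0 : ℕ} {dL : Cut (ℤ × ℤ) → Cut (ℤ × ℤ) → Env → ℕ}
  {dN : Cut (ℤ × ℤ) → Cut (ℤ × ℤ) → Cut (ℤ × ℤ) → Env → ℕ} {scL : Cut (ℤ × ℤ) → Cut (ℤ × ℤ) → ℕ}
  {scN : Cut (ℤ × ℤ) → Cut (ℤ × ℤ) → Cut (ℤ × ℤ) → ℕ} {C0 : ℝ} {C2 Dd τ : ℕ} {bad : Set Env}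

/-- **The clause `OuT` of `hT`** from a comparison at every own slab. -/
theorem cl_ouT (hv : G.v = sl μ s)
    (H : ∀ η ∉ bad, ∀ (ρ : XS Γ G mt) (u : ℕ) Z, τ ≤ u → u < G.M → PW (gj Γ G mt) Z →
      ODW (gj Γ G mt) (fun x => G.lat x.1) G.latC G.w C0 C2 Dd Z ρ u → Ok6 Sw dL dN scL scN Z u η → OkS6 Sw E0 scL scN Z u →
      ∃ (κ₀ : Pt) (D W' X : ℝ), |lb0 G κ₀ - G.ctr u (G.loc u ρ.1)| ≤ D ∧ R * G.w u + D ≤ W' ∧ X ≤ Q' * E u ∧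
        ∀ (k k' : ℕ) (y y' : ℤ), G.ra u (G.loc u ρ.1) ≤ k + 1 → k ≤ G.re u (G.loc u ρ.1) → G.ra u (G.loc u ρ.1) ≤ k' + 1 →
          k' ≤ G.re u (G.loc u ρ.1) → |lat16 μ s κ₀ ((k : ℤ), y)| ≤ W' → |lat16 μ s κ₀ ((k' : ℤ), y')| ≤ W' →
          bh16 μ s Γ.h η Γ.p Γ.M Γ.N k' y' ≤ Real.exp X * bh16 μ s Γ.h η Γ.p Γ.M Γ.N k y) :
    Cl86 Γ G mt Sw E0 dL dN scL scN C0 C2 Dd τ bad (fun u κ => OuT μ s Γ G E R Q' 0 u κ) := fun η hη ρ u Z a1 a2 a3 a4 a5 a6 => by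
  obtain ⟨κ₀, D, W', X, b1, b2, b3, b4⟩ := H η hη ρ u Z a1 a2 a3 a4 a5 a6
  exact ouT_of hv b1 b2 b3 b4

/-- **The clause `OuD` of `hT`** from D2 at the row `re` of every own slab, in the unit `w u`, `E u`. -/
theorem cl_ouD (hv : G.v = sl μ s) (hs : 0 ≤ sgm) (hE : ∀ u, 0 ≤ E u)
    (H : ∀ η ∉ bad, ∀ (ρ : XS Γ G mt) (u : ℕ) Z, τ ≤ u → u < G.M → PW (gj Γ G mt) Z →
      ODW (gj Γ G mt) (fun x => G.lat x.1) G.latC G.w C0 C2 Dd Z ρ u → Ok6 Sw dL dN scL scN Z u η → OkS6 Sw E0 scL scN Z u →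
      ∃ (κ₀ : Pt) (D W' : ℝ), |lb0 G κ₀ - G.ctr u (G.loc u ρ.1)| ≤ D ∧ D ≤ G.w u ∧ R * G.w u + D ≤ W' ∧
        ∀ y y₀ : ℤ, |lat16 μ s κ₀ ((G.re u (G.loc u ρ.1) : ℤ), y₀)| ≤ W' →
          bh16 μ s Γ.h η Γ.p Γ.M Γ.N (G.re u (G.loc u ρ.1)) y ≤
            Real.exp ((Q4 - sgm + sgm * (|lat16 μ s κ₀ ((G.re u (G.loc u ρ.1) : ℤ), y)| / G.w u)) * E u) *
              bh16 μ s Γ.h η Γ.p Γ.M Γ.N (G.re u (G.loc u ρ.1)) y₀) :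
    Cl86 Γ G mt Sw E0 dL dN scL scN C0 C2 Dd τ bad (fun u κ => OuD μ s Γ G E R Q4 sgm 0 u κ) := fun η hη ρ u Z a1 a2 a3 a4 a5 a6 => by
  obtain ⟨κ₀, D, W', b1, b2, b3, b4⟩ := H η hη ρ u Z a1 a2 a3 a4 a5 a6
  have hw := G.w_pos u
  refine ouD_of hv b1 b3 hw (hE u) hs ?_ le_rfl b4
  have h1 : D / G.w u ≤ 1 := (div_le_one hw).2 b2
  have h2 := mul_le_mul_of_nonneg_left h1 hs
  have h3 := hE u
  nlinarith

/-- **The clause `Ou`.** -/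
theorem cl_ou {bad' : Set Env} (h : Cl86 Γ G mt Sw E0 dL dN scL scN C0 C2 Dd τ bad (fun u κ => OuT μ s Γ G E R Q' 0 u κ))
    (h' : Cl86 Γ G mt Sw E0 dL dN scL scN C0 C2 Dd τ bad' (fun u κ => OuD μ s Γ G E R Q4 sgm 0 u κ)) :
    Cl86 Γ G mt Sw E0 dL dN scL scN C0 C2 Dd τ (bad ∪ bad') (fun u κ => Ou μ s Γ G E R Q' Q4 sgm 0 u κ) := h.inter h'

end

end Pool.Agent.W_7d29a1_C1.Ou37
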