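import Pool.Agent.W_7d29a1_C1.PrT20
import Pool.Agent.W_7d29a1_C1.OuE37
import Pool.Agent.W_7d29a1_C1.OkN6
import Pool.Agent.W_7d29a1_C1.RB6
import Pool.Agent.W_7d29a1_C1.JSel20

/-!
MP_7d29a1_pr, [C1] attractor route, TAME: THE CLAUSE `Ou` OF `hT` AT EVERY LARGE RADIUS, FROM ONE D2 AT A HIGHER OWN CUT. (helper99)

All cuts are the exact own cuts `ct w ρ`, `u - 1 ≤ w ≤ u + J + 1 ≤ u + C2`; the first slab of a row `k` of the window is the node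
`(ct (u - 1), ct u, ct (u + 1))`.
* `Ng99` : the numbers of the geometry; `row99` : `Row20` for every row of the window; `own99` : the comparison of all pairs of rows.
-/

set_option autoImplicit false

namespace Pool.Agent.W_7d29a1_C1.PrC99

open MeasureTheory ProbabilityTheory Filter Topology Finset
open Pool.Agent.W_7d29a1_F hiding Bw G
open Pool.Agent.W_7d29a1_h4g Pool.Agent.W_7d29a1_HS
open Pool.Agent.W_7d29a1_H hiding ex gg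
open Pool.Agent.W_7d29a1_C1.H75 Pool.Agent.W_7d29a1_C1.U16 Pool.Agent.W_7d29a1_C1.H40 Pool.Agent.W_7d29a1_C1.S71
open Pool.Agent.W_7d29a1_C1.FarK89 Pool.Agent.W_7d29a1_C1.FarW89 Pool.Agent.W_7d29a1_C1.SysN89
open Pool.Agent.W_7d29a1_C1.H60
open Pool.Agent.W_7d29a1_C1.G37 (Gm)
open Pool.Agent.W_7d29a1_C1.Dep6
open Pool.Agent.W_7d29a1_C1.PW86
open Pool.Agent.W_7d29a1_C1.SF98
open Pool.Agent.W_7d29a1_C1.PrT20 (Row20 prf20)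

noncomputable section

variable {μ : Measure ℝ} [IsProbabilityMeasure μ] {s c C : ℝ} {n₀ : ℕ}

/-- **The numbers of the geometry.** The heights of the labels are `Bh T v`. -/
structure Ng99 (μ : Measure ℝ) (s c θ : ℝ) (Γ : Cx) (G : Gm) (mt Bh n₁ : ℕ) : Prop where
  hs : Γ.s = s
  hv : G.v = sl μ s
  K16 : 16 ≤ G.K
  B4 : 4 ≤ Bh
  th : θ * (4 * Bh) ≤ 1
  n1 : ∀ v, n₁ ≤ Bh * G.T v
  w1 : ∀ v, 1 ≤ G.w v
  wH : ∀ v, G.w v ≤ wd μ s (Bh * G.T v)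
  wm : ∀ v v', v ≤ v' → wd μ s (Bh * G.T v) ≤ wd μ s (Bh * G.T v')
  fo : ∀ v, v ≤ mt → |Γ.h| * wd μ s (Bh * G.T v) ≤ c / 8 * EE μ s (Bh * G.T v)
  N : ∀ v, (Γ.N : ℝ) + 1 ≤ Real.exp (EE μ s (Bh * G.T v))
  ew : ∀ v, EE μ s (Bh * G.T (v + 1)) * wd μ s (Bh * G.T v) ≤ EE μ s (Bh * G.T v) * wd μ s (Bh * G.T (v + 1))

section Row

variable {Γ : Cx} {G : Gm} {mt Bh n₁ : ℕ} {θ K q₀ th A a g A' a' g' : ℝ} {P Cn C2 Dd D' E0 : ℕ} {C0 : ℝ}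
  {F F' : Cut (ℤ × ℤ) → Cut (ℤ × ℤ) → ℝ → Set Env} {Ev : Cut (ℤ × ℤ) → Cut (ℤ × ℤ) → Set Env}
  {E3 : Cut (ℤ × ℤ) → Cut (ℤ × ℤ) → Cut (ℤ × ℤ) → Set Env} {X : Cut (ℤ × ℤ) → Cut (ℤ × ℤ) → Cut (ℤ × ℤ) → Env → ℕ}
  {Sw : Finset ℤ} {Z : List (Cut (ℤ × ℤ))} {ρ : XS Γ G mt} {u J : ℕ} {cs : ℕ → Cut (ℤ × ℤ)} {v0 v1 v2 iL iC iT : ℕ} {η : Env}

/-- The rows of the own cuts. -/
def rw99 (Γ : Cx) (G : Gm) (mt : ℕ) (ρ : XS Γ G mt) (w : ℕ) : ℕ := ((gj Γ G mt).ct w ρ).row.toNat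

/-- The point of a site. -/
def pt99 (Γ : Cx) (G : Gm) (mt : ℕ) (ρ : XS Γ G mt) : Pt := ((ρ.1.1 : ℤ), ρ.1.2)

theorem rw99_cast (ρ : XS Γ G mt) (w : ℕ) : (rw99 Γ G mt ρ w : ℤ) = ((gj Γ G mt).ct w ρ).row := by
  unfold rw99
  exact Int.toNat_of_nonneg (Ou37.ct_nonneg (G := G) (mt := mt) w ρ)

theorem rw99_rb (hL : OwnL (gj Γ G mt) (fun x => G.lat x.1) G.latC G.w C0 C2 Dd Z ρ u cs v0 v1 v2 iL iC iT) {w : ℕ} (h1 : v0 ≤ w)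
    (h2 : w ≤ u + C2) : (G.T w : ℤ) ≤ 2 * ((rw99 Γ G mt ρ w : ℤ) - ρ.1.1) ∧ (rw99 Γ G mt ρ w : ℤ) - ρ.1.1 ≤ 4 * G.T w := by
  have h3 := hL.uv1
  have h4 := hL.clrb w h1 (by omega)
  rw [hL.clct w h1 h2] at h4
  rw [rw99_cast]
  exact h4

theorem rw99_step (hK : 16 ≤ G.K) (hL : OwnL (gj Γ G mt) (fun x => G.lat x.1) G.latC G.w C0 C2 Dd Z ρ u cs v0 v1 v2 iL iC iT) {w : ℕ}
    (h1 : v0 ≤ w) (h2 : w + 1 ≤ u + C2) :
    rw99 Γ G mt ρ w ≤ rw99 Γ G mt ρ (w + 1) ∧ rw99 Γ G mt ρ (w + 1) ≤ rw99 Γ G mt ρ w + 4 * G.T (w + 1) ∧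
      G.T (w + 1) ≤ 4 * (rw99 Γ G mt ρ (w + 1) - rw99 Γ G mt ρ w) := by
  obtain ⟨a1, a2⟩ := rw99_rb hL h1 (by omega)
  obtain ⟨b1, b2⟩ := rw99_rb hL (w := w + 1) (by omega) h2
  have e1 : G.T (w + 1) = G.K * G.T w := by
    show Tk G.T0 G.K (w + 1) = G.K * Tk G.T0 G.K w
    unfold Tk
    rw [pow_succ]
    ring
  have e2 : 16 * G.T w ≤ G.T (w + 1) := by
    rw [e1]
    exact Nat.mul_le_mul_right _ hK
  have e3 : (16 : ℤ) * G.T w ≤ G.T (w + 1) := by exact_mod_cast e2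
  have e4 : (0 : ℤ) ≤ G.T w := Int.natCast_nonneg _
  have e5 : (0 : ℤ) ≤ G.T (w + 1) := Int.natCast_nonneg _
  refine ⟨?_, ?_, ?_⟩ <;> omega

/-- A level of a pair of cuts, on the line of `ρ`. -/
theorem far99 (hv : G.v = sl μ s) {a b : Cut (ℤ × ℤ)} {q B : ℝ} (hq : 0 ≤ q)
    (hη : η ∈ lvS μ s c θ K P (fun a b => Bh * G.T (lb6 a b)) (colC6 G.latC (sl μ s)) a b q)
    (hn : nR a b ≤ Bh * G.T (lb6 a b)) (hB : |G.latC a - G.lat ρ.1| ≤ B) (hw : 1 ≤ wd μ s (Bh * G.T (lb6 a b)))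
    (hBw : B + 1 ≤ wd μ s (Bh * G.T (lb6 a b))) :
    ∃ bs : Pt, bs.1 = a.row ∧ |lat16 μ s (pt99 Γ G mt ρ) bs| ≤ 1 ∧
      η ∈ Far16 μ s c θ (K - 2) (Bh * G.T (lb6 a b)) (nR a b) P bs (q * gr P 3) := by
  have e1 : hg6 (fun a b => Bh * G.T (lb6 a b)) a b = Bh * G.T (lb6 a b) := max_eq_left hn
  unfold lvS at hη
  rw [e1] at hη
  have hκ : ((pt99 Γ G mt ρ).2 : ℝ) - sl μ s * ((pt99 Γ G mt ρ).1 : ℝ) = G.lat ρ.1 := by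
    unfold pt99 Gm.lat
    rw [hv]
    push_cast
    ring
  have h1 := colC6_line (μ := μ) (s := s) hκ a hB
  obtain ⟨bs, b1, b2, b3, b4⟩ := RB6.line16 (K' := K - 2) (X := 1) hq hw (by linarith) zero_le_one (by rw [one_mul]; exact h1.trans hBw) hη
  refine ⟨bs, b1, abs_le.2 ⟨by linarith, b3.le⟩, ?_⟩
  rw [show (2 : ℝ) + 1 = 3 by norm_num] at b4
  exact b4

theorem T_succ99 (w : ℕ) : G.T (w + 1) = G.K * G.T w := by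
  show Tk G.T0 G.K (w + 1) = G.K * Tk G.T0 G.K w
  unfold Tk
  rw [pow_succ]
  ring

theorem T_mono99 (hK : 16 ≤ G.K) (w : ℕ) : 16 * G.T w ≤ G.T (w + 1) := by
  rw [T_succ99]
  exact Nat.mul_le_mul_right _ hK

theorem w_step99 (hg : Ng99 μ s c θ Γ G mt Bh n₁) (w : ℕ) : G.w w + 1 ≤ wd μ s (Bh * G.T (w + 1)) := by
  have h1 := hg.w1 w
  have h2 := G.w_two w
  have h3 := hg.wH (w + 1)
  linarith

/-- The lateral position of an own cut. -/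
theorem lat_ct99 (hL : OwnL (gj Γ G mt) (fun x => G.lat x.1) G.latC G.w C0 C2 Dd Z ρ u cs v0 v1 v2 iL iC iT) {w : ℕ} (h1 : v0 ≤ w)
    (h2 : w ≤ u + C2) : |G.latC ((gj Γ G mt).ct w ρ) - G.lat ρ.1| ≤ G.w w := by
  have h3 := hL.uv1
  have h4 := hL.clat w h1 (by omega)
  rw [hL.clct w h1 h2, if_pos h2] at h4
  exact h4

/-- The successive own cuts. -/
theorem pair99 (hL : OwnL (gj Γ G mt) (fun x => G.lat x.1) G.latC G.w C0 C2 Dd Z ρ u cs v0 v1 v2 iL iC iT) {w : ℕ} (h1 : v0 ≤ w)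
    (h2 : w + 1 ≤ u + C2) : ∃ P Q, Z = P ++ (gj Γ G mt).ct w ρ :: (gj Γ G mt).ct (w + 1) ρ :: Q := by
  have h3 := hL.uv1
  have h4 := hL.cC_lt (v := w + 1) (by omega) (by omega)
  obtain ⟨P, Q, e⟩ := hL.pair (iC + (w - v0)) (by omega)
  rw [show iC + (w - v0) + 1 = iC + (w + 1 - v0) by omega, hL.clct w h1 (by omega), hL.clct (w + 1) (by omega) h2] at e
  exact ⟨P, Q, e⟩

/-- **THE ROWS OF THE WINDOW ARE LOW ROWS** of the tower of the own cuts. -/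
theorem rows99 (hg : Ng99 μ s c θ Γ G mt Bh n₁) (hθ : 0 ≤ θ) (hc : 0 ≤ c)
    (hL : OwnL (gj Γ G mt) (fun x => G.lat x.1) G.latC G.w C0 C2 Dd Z ρ u cs v0 v1 v2 iL iC iT) (hu : 1 ≤ u) (hJ : 1 ≤ J) (hC : J + 1 ≤ C2)
    (hF : LvF μ A a g F) (hF' : LvF μ A' a' g' F')
    (hFl : ∀ x y q, F x y q ⊆ lvS μ s c θ K P (fun a b => Bh * G.T (lb6 a b)) (colC6 G.latC (sl μ s)) x y q)
    (hq : 0 ≤ q₀) (hth : 1 ≤ th) (ho : Ok6 Sw (dLI6 F F' Ev q₀ th D') (dNI6 X Cn F E3 q₀ th D') lb6 lbN6 Z u η)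
    (hS : OkS6 Sw E0 lb6 lbN6 Z u) (hE : 1 ≤ E0) (hD : J + 1 < D') :
    ∃ (bs : ℕ → Pt) (b' : Pt), ∀ k, rw99 Γ G mt ρ (u - 1) ≤ k → k ≤ G.re u (G.loc u ρ.1) →
      Row20 μ s c θ (K - 2) Γ.h P η (pt99 Γ G mt ρ) (rw99 Γ G mt ρ) (fun w => Bh * G.T (w + 1))
        (fun w => rw99 Γ G mt ρ (w + 1) - rw99 Γ G mt ρ w) (fun w => q₀ * th ^ (w + 1 - u) * gr P 3) bs G.K 1
        ((1 + q₀ * th ^ (J + 1) * gr P 3) ^ 2) n₁ u (u + J) k (Bh * G.T (u + 1))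
        (rw99 Γ G mt ρ (u + 1) - rw99 Γ G mt ρ (u - 1)) (q₀ * gr P 3) b' := by
  have a1 := hL.v0u
  have a2 := hL.uv1
  have a3 := hL.v1m
  have hgr : 1 ≤ gr P 3 := gr_one_le _ (by norm_num)
  have hv0 : v0 ≤ u - 1 := by omega
  have hK := hg.K16
  have hB := hg.B4
  have hT4 : ∀ v, 4 * G.T v ≤ Bh * G.T v := fun v => Nat.mul_le_mul_right _ hB
  have hwd1 : ∀ v, 1 ≤ wd μ s (Bh * G.T v) := fun v => (hg.w1 v).trans (hg.wH v)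
  have hlb : ∀ w, lb6 ((gj Γ G mt).ct w ρ) ((gj Γ G mt).ct (w + 1) ρ) = w + 1 := fun w => max_eq_right (Nat.le_succ w)
  have hnR : ∀ w w', nR ((gj Γ G mt).ct w ρ) ((gj Γ G mt).ct w' ρ) = rw99 Γ G mt ρ w' - rw99 Γ G mt ρ w := fun w w' => by
    unfold nR
    rw [← rw99_cast, ← rw99_cast]
    omega
  -- the layers
  have key : ∀ w, ∃ bs : Pt, u ≤ w → w ≤ u + J → bs.1 = ((gj Γ G mt).ct w ρ).row ∧ |lat16 μ s (pt99 Γ G mt ρ) bs| ≤ 1 ∧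
      η ∈ Far16 μ s c θ (K - 2) (Bh * G.T (w + 1)) (rw99 Γ G mt ρ (w + 1) - rw99 Γ G mt ρ w) P bs (q₀ * th ^ (w + 1 - u) * gr P 3) := by
    intro w
    by_cases hw : u ≤ w ∧ w ≤ u + J
    · obtain ⟨hw1, hw2⟩ := hw
      obtain ⟨Pp, Q, e⟩ := pair99 hL (w := w) (by omega) (by omega)
      obtain ⟨b1, b2, b3⟩ := rw99_step hK hL (w := w) (by omega) (by omega)
      have h1 := (ok_lay6 hF hF' hq hth ho e (l := w + 1 - u) (by rw [hlb]; omega) (by rw [hlb]; omega) (by omega)).1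
      obtain ⟨bs, c1, c2, c3⟩ := far99 (ρ := ρ) hg.hv (by positivity) (hFl _ _ _ h1) (by
        rw [hnR, hlb]
        have := hT4 (w + 1)
        omega) (lat_ct99 hL (by omega) (by omega)) (by rw [hlb]; exact hwd1 _) (by rw [hlb]; exact w_step99 hg w)
      rw [hlb, hnR] at c3
      exact ⟨bs, fun _ _ => ⟨c1, c2, c3⟩⟩
    · exact ⟨0, fun h1 h2 => absurd ⟨h1, h2⟩ hw⟩
  choose bs hbs using key
  -- the node
  obtain ⟨Pn, Qn, en⟩ := hL.near (by omega)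
  have hsw : ¬ HasSw Sw ((gj Γ G mt).ct (u - 1) ρ) ((gj Γ G mt).ct (u + 1) ρ) :=
    hS.nod_near hE en (by show u ≤ u + E0; omega) (by show u ≤ u + E0; omega)
  have hnod := (ok_nod6 hF hq hth ho en hsw (l := 0) (by show u ≤ u + 0; omega) (by show u ≤ u + 0; omega) (by omega)).2
  rw [pow_zero, mul_one] at hnod
  have hlbn : lb6 ((gj Γ G mt).ct (u - 1) ρ) ((gj Γ G mt).ct (u + 1) ρ) = u + 1 := max_eq_right (show u - 1 ≤ u + 1 by omega)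
  have r1 := rw99_rb hL (w := u - 1) hv0 (by omega)
  have r2 := rw99_rb hL (w := u + 1) (by omega) (by omega)
  have t1 : (0 : ℤ) ≤ G.T (u - 1) := Int.natCast_nonneg _
  have hnRn : rw99 Γ G mt ρ (u + 1) - rw99 Γ G mt ρ (u - 1) ≤ Bh * G.T (u + 1) := by
    have := hT4 (u + 1)
    omega
  obtain ⟨b', c1, c2, c3⟩ := far99 (ρ := ρ) hg.hv hq (hFl _ _ _ hnod) (by rw [hnR, hlbn]; exact hnRn) (lat_ct99 hL hv0 (by omega))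
    (by rw [hlbn]; exact hwd1 _) (by
      rw [hlbn]
      have h1 := w_step99 hg (u - 1)
      rw [show u - 1 + 1 = u by omega] at h1
      exact h1.trans (hg.wm u (u + 1) (by omega)))
  rw [hlbn, hnR] at c3
  refine ⟨bs, b', fun k hk hk' => ?_⟩
  have ctop := Ou37.ct_top (G := G) (mt := mt) (F := FS Γ G mt) (W := Set.univ) u ρ
  have ctop' : (G.re u (G.loc u ρ.1) : ℤ) + (G.T (u + 1) - G.T u - 1) ≤ (rw99 Γ G mt ρ (u + 1) : ℤ) := by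
    rw [rw99_cast]
    exact ctop
  have T16 := T_mono99 hK u
  have Tp : 1 ≤ G.T u := Nat.pos_of_ne_zero fun h0 => by
    have h1 := (gj Γ G mt).T_pos u
    have h2 : (gj Γ G mt).T u = G.T u := rfl
    omega
  have hlenk : (G.T (u + 1) : ℤ) ≤ 4 * ((rw99 Γ G mt ρ (u + 1) : ℤ) - k) := by
    have : (16 : ℤ) * G.T u ≤ G.T (u + 1) := by exact_mod_cast T16
    have h2 : (1 : ℤ) ≤ G.T u := by exact_mod_cast Tp
    have h3 : (k : ℤ) ≤ G.re u (G.loc u ρ.1) := by exact_mod_cast hk'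
    linarith
  have hku : k ≤ rw99 Γ G mt ρ (u + 1) := by
    have : (0 : ℤ) ≤ G.T (u + 1) := Int.natCast_nonneg _
    omega
  have hlen : ∀ {T r1 r2 : ℕ}, T ≤ 4 * (r2 - r1) → θ * ((Bh * T : ℕ) : ℝ) ≤ ((r2 - r1 : ℕ) : ℝ) := fun {T r1 r2} h => by
    have h1 : ((T : ℕ) : ℝ) ≤ 4 * ((r2 - r1 : ℕ) : ℝ) := by exact_mod_cast h
    have h2 : (0 : ℝ) ≤ ((r2 - r1 : ℕ) : ℝ) := Nat.cast_nonneg _
    have h3 := hg.th
    have h4 : (0 : ℝ) ≤ θ * Bh := mul_nonneg hθ (Nat.cast_nonneg _)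
    push_cast
    calc θ * ((Bh : ℝ) * T) = θ * Bh * T := by ring
      _ ≤ θ * Bh * (4 * ((r2 - r1 : ℕ) : ℝ)) := mul_le_mul_of_nonneg_left h1 h4
      _ = θ * (4 * Bh) * ((r2 - r1 : ℕ) : ℝ) := by ring
      _ ≤ 1 * ((r2 - r1 : ℕ) : ℝ) := mul_le_mul_of_nonneg_right h3 h2
      _ = _ := one_mul _
  have st : ∀ w, u + 1 ≤ w → w < u + J + 1 → rw99 Γ G mt ρ w ≤ rw99 Γ G mt ρ (w + 1) ∧
      rw99 Γ G mt ρ (w + 1) ≤ rw99 Γ G mt ρ w + 4 * G.T (w + 1) ∧ G.T (w + 1) ≤ 4 * (rw99 Γ G mt ρ (w + 1) - rw99 Γ G mt ρ w) :=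
    fun w h1 h2 => rw99_step hK hL (by omega) (by omega)
  have hpow : ∀ w, w ≤ u + J → q₀ * th ^ (w + 1 - u) * gr P 3 ≤ q₀ * th ^ (J + 1) * gr P 3 := fun w hw =>
    mul_le_mul_of_nonneg_right (mul_le_mul_of_nonneg_left (pow_le_pow_right₀ hth (by omega)) hq) (by linarith)
  have hth0 : (0 : ℝ) ≤ th := by linarith
  have hgr0 : (0 : ℝ) ≤ gr P 3 := by linarith
  have hqw : ∀ w, 0 ≤ q₀ * th ^ (w + 1 - u) * gr P 3 := fun w => by positivity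
  exact
    { lay :=
        { q0 := fun v _ _ => hqw v
          T1 := fun v _ _ => hg.n1 (v + 1)
          NT := fun v h1 h2 => by
            have h3 := st v h1 h2
            have h4 := hT4 (v + 1)
            show rw99 Γ G mt ρ (v + 1) - rw99 Γ G mt ρ v ≤ Bh * G.T (v + 1)
            omega
          rr := fun v h1 h2 => (st v h1 h2).1
          b1 := fun v h1 h2 => by
            rw [(hbs v (by omega) (by omega)).1, rw99_cast]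
          b2 := fun v h1 h2 => by
            have h3 := (st v h1 h2).1
            rw [(hbs v (by omega) (by omega)).1, ← rw99_cast]
            show (rw99 Γ G mt ρ (v + 1) : ℤ) ≤ (rw99 Γ G mt ρ v : ℤ) + ((rw99 Γ G mt ρ (v + 1) - rw99 Γ G mt ρ v : ℕ) : ℤ)
            omega
          b3 := fun v h1 h2 => (hbs v (by omega) (by omega)).2.1.trans (hwd1 _)
          far := fun v h1 h2 => (hbs v (by omega) (by omega)).2.2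
          force := fun v h1 h2 => by
            refine (hg.fo (v + 1) ?_).trans ?_
            · have h3 : (gj Γ G mt).m = mt := rfl
              omega
            · exact mul_le_mul_of_nonneg_right (by linarith) (EE_pos (μ := μ) (s := s) (Bh * G.T (v + 1))).le
          len := fun v h1 h2 => hlen (st v h1 h2).2.2 }
      hat := by omega
      gro := fun v _ _ => by
        show G.K * (Bh * G.T (v + 1)) ≤ Bh * G.T (v + 1 + 1)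
        rw [T_succ99 (v + 1)]
        exact le_of_eq (by ring)
      lev := fun v _ h2 => by
        rw [one_pow, mul_one]
        exact pow_le_pow_left₀ (by linarith [hqw v]) (by linarith [hpow v h2]) 2
      n1 := hg.n1 (u + 1)
      n2 := Nat.mul_le_mul_left _ (by rw [T_succ99 (u + 1)]; exact Nat.le_mul_of_pos_left _ (by omega))
      nw := hg.wm (u + 1) (u + J + 1) (by omega)
      N1 := hnRn
      q0 := by positivity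
      q1 := by
        rw [one_pow, mul_one]
        have h1 : q₀ * 1 * gr P 3 ≤ q₀ * th ^ (J + 1) * gr P 3 :=
          mul_le_mul_of_nonneg_right (mul_le_mul_of_nonneg_left (one_le_pow₀ hth) hq) hgr0
        rw [mul_one] at h1
        have h2 : 0 ≤ q₀ * gr P 3 := by positivity
        exact pow_le_pow_left₀ (by linarith) (by linarith) 2
      k1 := hku
      b1 := by
        rw [c1, ← rw99_cast]
        exact_mod_cast hk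
      b2 := by
        rw [c1, ← rw99_cast]
        have : rw99 Γ G mt ρ (u - 1) ≤ rw99 Γ G mt ρ (u + 1) := by omega
        omega
      b3 := c2.trans (hwd1 _)
      far := c3
      len := hlen (by omega) }

variable (μ s Γ G mt Bh) in
/-- **D2** at the own cut `ct f ρ`, in the unit of the label `v`, references within one width of the line of `ρ`. -/
def D2f99 (ρ : XS Γ G mt) (f v : ℕ) (Q σ : ℝ) (η : Env) : Prop :=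
  ∀ y y₀ : ℤ, |lat16 μ s (pt99 Γ G mt ρ) ((rw99 Γ G mt ρ f : ℤ), y₀)| ≤ wd μ s (Bh * G.T v) →
    bh16 μ s Γ.h η Γ.p Γ.M Γ.N (rw99 Γ G mt ρ f) y ≤
      Real.exp ((Q + σ * (|lat16 μ s (pt99 Γ G mt ρ) ((rw99 Γ G mt ρ f : ℤ), y)| / wd μ s (Bh * G.T v))) * EE μ s (Bh * G.T v)) *
        bh16 μ s Γ.h η Γ.p Γ.M Γ.N (rw99 Γ G mt ρ f) y₀

/-- **Change of the unit.** -/
theorem D2f99.unit (h0 : In μ s c C n₀) (hg : Ng99 μ s c θ Γ G mt Bh n₁) {f v : ℕ} {Q σ : ℝ} (hQ : 0 ≤ Q) (hσ : 0 ≤ σ)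
    (h : D2f99 μ s Γ G mt Bh ρ f (v + 1) Q σ η) : D2f99 μ s Γ G mt Bh ρ f v (G.K * Q) σ η := by
  intro y y₀ hy₀
  refine (h y y₀ (hy₀.trans (hg.wm v (v + 1) (by omega)))).trans (mul_le_mul_of_nonneg_right (Real.exp_le_exp.2 ?_) ?_)
  · have hw : 0 < wd μ s (Bh * G.T v) := by have := (hg.w1 v).trans (hg.wH v); linarith
    have hw' : 0 < wd μ s (Bh * G.T (v + 1)) := by have := (hg.w1 (v + 1)).trans (hg.wH (v + 1)); linarith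
    have h1 : EE μ s (Bh * G.T (v + 1)) ≤ (G.K : ℝ) * EE μ s (Bh * G.T v) :=
      EE_le_mul h0.em s (by have := hg.K16; omega) (by rw [T_succ99]; exact le_of_eq (by ring))
    have h2 : EE μ s (Bh * G.T (v + 1)) / wd μ s (Bh * G.T (v + 1)) ≤ EE μ s (Bh * G.T v) / wd μ s (Bh * G.T v) := by
      rw [div_le_div_iff₀ hw' hw]
      exact hg.ew v
    obtain ⟨t, ht⟩ : ∃ t : ℝ, t = |lat16 μ s (pt99 Γ G mt ρ) ((rw99 Γ G mt ρ f : ℤ), y)| := ⟨_, rfl⟩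
    rw [← ht]
    have ht0 : 0 ≤ t := by rw [ht]; exact abs_nonneg _
    have h3 := mul_le_mul_of_nonneg_left h1 hQ
    have h4 := mul_le_mul_of_nonneg_left h2 (mul_nonneg hσ ht0)
    have e1 : (Q + σ * (t / wd μ s (Bh * G.T (v + 1)))) * EE μ s (Bh * G.T (v + 1)) =
        Q * EE μ s (Bh * G.T (v + 1)) + σ * t * (EE μ s (Bh * G.T (v + 1)) / wd μ s (Bh * G.T (v + 1))) := by ring
    have e2 : (G.K * Q + σ * (t / wd μ s (Bh * G.T v))) * EE μ s (Bh * G.T v) =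
        Q * (G.K * EE μ s (Bh * G.T v)) + σ * t * (EE μ s (Bh * G.T v) / wd μ s (Bh * G.T v)) := by ring
    rw [e1, e2]
    linarith
  · have hpp : ∀ k, 0 < Γ.p k := Γ.p_pos
    exact (bh16_pos hpp _ _).le

/-- The rows of the own cuts are rows of the context. -/
theorem rw_le99 (hK : 16 ≤ G.K) (hL : OwnL (gj Γ G mt) (fun x => G.lat x.1) G.latC G.w C0 C2 Dd Z ρ u cs v0 v1 v2 iL iC iT) {w : ℕ}
    (h1 : v0 ≤ w) (h2 : w ≤ u + C2) : rw99 Γ G mt ρ w ≤ Γ.N := by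
  have h3 := hL.uv1
  have h4 := hL.v1m
  have h5 : (gj Γ G mt).m = mt := rfl
  have h6 := (mem_FS.1 ρ.2).2
  obtain ⟨-, h7⟩ := rw99_rb hL h1 h2
  have h8 : G.T (w + 1) ≤ G.T mt := (gj Γ G mt).T_mono (by omega)
  have h9 := T_mono99 (G := G) hK w
  omega

end Row

/-- **THE MASSES OF ALL ROWS OF THE WINDOW** from D2 at the own cut `ct (u + J + 1)`. -/
theorem own99 (h0 : In μ s c C n₀) : ∃ (e : ℝ) (K₀ : ℕ), 0 < e ∧ 16 ≤ K₀ ∧ ∀ P : ℕ, ∀ {K θ : ℝ}, 8 ≤ K → 0 < θ →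
    ∃ (C₉ : ℝ) (n₁ : ℕ), 1 ≤ C₉ ∧ 1 ≤ n₁ ∧
    ∀ {Γ : Cx} {G : Gm} {mt Bh : ℕ}, Ng99 μ s c θ Γ G mt Bh n₁ → K₀ ≤ G.K → 2 ≤ (G.K : ℝ) ^ e →
    ∀ {q₀ th A a g A' a' g' : ℝ} {Cn D' : ℕ} {F F' : Cut (ℤ × ℤ) → Cut (ℤ × ℤ) → ℝ → Set Env} {Ev : Cut (ℤ × ℤ) → Cut (ℤ × ℤ) → Set Env}
      {E3 : Cut (ℤ × ℤ) → Cut (ℤ × ℤ) → Cut (ℤ × ℤ) → Set Env} {X : Cut (ℤ × ℤ) → Cut (ℤ × ℤ) → Cut (ℤ × ℤ) → Env → ℕ},
      LvF μ A a g F → LvF μ A' a' g' F' →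
      (∀ x y q, F x y q ⊆ lvS μ s c θ K P (fun a b => Bh * G.T (lb6 a b)) (colC6 G.latC (sl μ s)) x y q) → 0 ≤ q₀ → 1 ≤ th →
    ∀ {Sw : Finset ℤ} {E0 C2 Dd : ℕ} {C0 : ℝ} {Z : List (Cut (ℤ × ℤ))} {ρ : XS Γ G mt} {u J : ℕ} {η : Env}, PW (gj Γ G mt) Z →
      ODW (gj Γ G mt) (fun x => G.lat x.1) G.latC G.w C0 C2 Dd Z ρ u → Ok6 Sw (dLI6 F F' Ev q₀ th D') (dNI6 X Cn F E3 q₀ th D') lb6 lbN6 Z u η →
      OkS6 Sw E0 lb6 lbN6 Z u → 1 ≤ E0 → 1 ≤ u → 1 ≤ J → J + 1 ≤ C2 → J + 1 < D' →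
    ∀ {Q4 σ : ℝ}, 0 ≤ Q4 → 0 ≤ σ → σ ≤ c / 8 → D2f99 μ s Γ G mt Bh ρ (u + J + 1) (u + J + 1) Q4 σ η →
    ∀ (k k' : ℕ) (x x' : ℤ), G.ra u (G.loc u ρ.1) ≤ k + 1 → k ≤ G.re u (G.loc u ρ.1) → G.ra u (G.loc u ρ.1) ≤ k' + 1 →
      k' ≤ G.re u (G.loc u ρ.1) → |lat16 μ s (pt99 Γ G mt ρ) ((k' : ℤ), x')| ≤ wd μ s (Bh * G.T (u + J + 1)) →
      bh16 μ s Γ.h η Γ.p Γ.M Γ.N k x ≤
        Real.exp ((C₉ * (1 + (1 + q₀ * th ^ (J + 1) * gr P 3) ^ 2 + Q4) ^ 4 +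
          (σ + 1) * (|lat16 μ s (pt99 Γ G mt ρ) ((k : ℤ), x)| / wd μ s (Bh * G.T (u + J + 1)))) * EE μ s (Bh * G.T (u + J + 1))) *
          bh16 μ s Γ.h η Γ.p Γ.M Γ.N k' x' := by
  obtain ⟨e, K₀, he, hK₀, H⟩ := prf20 h0
  refine ⟨e, max 16 K₀, he, le_max_left _ _, fun P K θ hK hθ => ?_⟩
  obtain ⟨C₉, n₁, hC₉, hn₁, H⟩ := H P (K := K - 2) (θ := θ) (R := 1) (by linarith) hθ zero_le_one (by linarith)
  refine ⟨C₉, n₁, hC₉, hn₁, ?_⟩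
  intro Γ G mt Bh hg hK0 hKe q₀ th A a g A' a' g' Cn D' F F' Ev E3 X hF hF' hFl hq hth Sw E0 C2 Dd C0 Z ρ u J η hPW hO ho hS hE hu hJ hC hD
    Q4 σ hQ4 hσ0 hσ hD2 k k' x x' hk1 hk2 hk1' hk2' hx'
  obtain ⟨v0, v1, v2, iL, iC, iT, hL⟩ := ownL hPW hO
  obtain ⟨bs, b', hrow⟩ := rows99 hg hθ.le h0.c0.le hL hu hJ hC hF hF' hFl hq hth ho hS hE hD
  have a1 := hL.v0u
  have clo := Ou37.ct_lo (G := G) (mt := mt) (F := FS Γ G mt) (W := Set.univ) u ρ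
  have clo' : (rw99 Γ G mt ρ (u - 1) : ℤ) + 1 ≤ (G.ra u (G.loc u ρ.1) : ℤ) := by
    rw [rw99_cast]
    exact clo
  have h1 := hrow k (by omega) hk2
  have h2 := hrow k' (by omega) hk2'
  -- the reference
  have hwd2 : 1 ≤ wd μ s (Bh * G.T (u + J + 1)) - 1 := by
    have e1 := w_step99 hg (u + J)
    have e2 := hg.w1 (u + J)
    linarith
  obtain ⟨y₀, hy₀⟩ : ∃ y₀ : ℤ, |lat16 μ s (pt99 Γ G mt ρ) ((rw99 Γ G mt ρ (u + J + 1) : ℤ), y₀)| ≤ 1 := by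
    refine ⟨⌊((pt99 Γ G mt ρ).2 : ℝ) + sl μ s * (((rw99 Γ G mt ρ (u + J + 1) : ℤ) - (pt99 Γ G mt ρ).1 : ℤ) : ℝ)⌋, ?_⟩
    have f1 := Int.floor_le (((pt99 Γ G mt ρ).2 : ℝ) + sl μ s * (((rw99 Γ G mt ρ (u + J + 1) : ℤ) - (pt99 Γ G mt ρ).1 : ℤ) : ℝ))
    have f2 := Int.lt_floor_add_one (((pt99 Γ G mt ρ).2 : ℝ) + sl μ s * (((rw99 Γ G mt ρ (u + J + 1) : ℤ) - (pt99 Γ G mt ρ).1 : ℤ) : ℝ))
    unfold lat16
    dsimp only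
    push_cast at f1 f2 ⊢
    rw [abs_le]
    constructor <;> linarith
  have hp : ∀ k, k < Γ.M → Γ.p k = Real.exp (s + Γ.h) := fun k hk => by
    rw [← hg.hs]
    exact if_pos hk
  have hp' : ∀ k, Γ.M ≤ k → Γ.p k = Real.exp s := fun k hk => by
    rw [← hg.hs]
    exact if_neg (not_lt.2 hk)
  have key := H (Kt := G.K) (g := 1) ((le_max_right _ _).trans hK0) le_rfl (by rw [mul_one]; exact hKe)
    (Qm := (1 + q₀ * th ^ (J + 1) * gr P 3) ^ 2) (Q4 := Q4) (σ := σ) (by positivity) hQ4 hσ0 hσ (h := Γ.h) (η := η) (p := Γ.p) (M := Γ.M)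
    (N := Γ.N) (κ := pt99 Γ G mt ρ) (r := rw99 Γ G mt ρ) (T := fun w => Bh * G.T (w + 1)) (t := u + J) hp hp'
    (hg.fo (u + J + 1) (by
      have h3 := hL.uv1
      have h4 := hL.v1m
      have h5 : (gj Γ G mt).m = mt := rfl
      omega))
    (rw_le99 hg.K16 hL (by omega) (by omega)) (hg.N _) (y₀ := y₀) (hy₀.trans hwd2) (fun y => hD2 y y₀ (by linarith)) h1 h2 x x'
    (by rw [one_mul]; exact hx')
  exact key

/-! ### The numbers -/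

/-- **THE NUMBERS**: the shift `J` of a radius, at the price of the label `u + J + 1`. -/
theorem num99 (h : In μ s c C n₀) : ∃ (a : ℝ) (n₁ : ℕ), 0 < a ∧ 1 ≤ n₁ ∧
    ∀ K Bh : ℕ, 8 ≤ K → 1 ≤ Bh → ∀ g A σ : ℝ, 0 < g → g < (K : ℝ) ^ a → 0 ≤ A → 0 < σ → ∃ Rmin : ℝ, 1 ≤ Rmin ∧
    ∀ R : ℝ, Rmin ≤ R → ∃ Jmax : ℕ, ∀ T0 : ℕ, n₁ ≤ T0 → G37.Wok μ s T0 K → ∀ u : ℕ, ∃ J : ℕ, 1 ≤ J ∧ J ≤ Jmax ∧
      R * wd μ s (Tk T0 K u) ≤ wd μ s (Tk T0 K (u + J)) ∧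
      A * g ^ J * EE μ s (Bh * Tk T0 K (u + J + 1)) ≤ σ * R * EE μ s (Tk T0 K u) := by
  obtain ⟨a, n₁, ha, hn₁, H⟩ := G37.jsel20 h
  refine ⟨a, n₁, ha, hn₁, fun K Bh hK hBh g A σ hg hgK hA hσ => ?_⟩
  obtain ⟨Rmin, hR1, H⟩ := H K hK g (A * (Bh * K)) σ hg hgK (by positivity) hσ
  refine ⟨Rmin, hR1, fun R hR => ?_⟩
  obtain ⟨Jmax, H⟩ := H R hR
  refine ⟨Jmax, fun T0 hT hW u => ?_⟩
  obtain ⟨J, h1, h2, h3, -, h5⟩ := H T0 hT hW u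
  refine ⟨J, h1, h2, h3, le_trans ?_ h5⟩
  have h6 : EE μ s (Bh * Tk T0 K (u + J + 1)) ≤ ((Bh * K : ℕ) : ℝ) * EE μ s (Tk T0 K (u + J)) :=
    EE_le_mul h.em s (Nat.one_le_iff_ne_zero.2 (by positivity)) (by
      unfold Tk
      rw [pow_succ]
      exact le_of_eq (by ring))
  have h7 : 0 ≤ A * g ^ J := by positivity
  calc A * g ^ J * EE μ s (Bh * Tk T0 K (u + J + 1)) ≤ A * g ^ J * (((Bh * K : ℕ) : ℝ) * EE μ s (Tk T0 K (u + J))) :=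
        mul_le_mul_of_nonneg_left h6 h7
    _ = A * (Bh * K) * g ^ J * EE μ s (Tk T0 K (u + J)) := by push_cast; ring

/-- The growth of the constants of `own99`. -/
theorem grow99 {C₉ q₀ th Q0 g σ G' : ℝ} {P : ℕ} (hC : 0 ≤ C₉) (hq : 0 ≤ q₀) (hth : 1 ≤ th) (hQ : 0 ≤ Q0) (hg : 1 ≤ g) (hσ : 0 ≤ σ)
    (hG : (th ^ 2 * g) ^ 4 ≤ G') (J : ℕ) :
    C₉ * (1 + (1 + q₀ * th ^ (J + 1) * gr P 3) ^ 2 + Q0 * g ^ (J + 1)) ^ 4 + (σ + 1) ≤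
      (C₉ * (1 + (1 + q₀ * gr P 3) ^ 2 + Q0) ^ 4 * G' + (σ + 1)) * G' ^ J := by
  have hgr : 0 ≤ gr P 3 := zero_le_one.trans (gr_one_le _ (by norm_num))
  have hth0 : 0 ≤ th := by linarith
  have hg0 : 0 ≤ g := by linarith
  have x0 : 0 ≤ q₀ * gr P 3 := by positivity
  have b1 : 1 ≤ th ^ (J + 1) := one_le_pow₀ hth
  have b2 : 1 ≤ g ^ (J + 1) := one_le_pow₀ hg
  have hb : 1 ≤ th ^ 2 * g := one_le_mul_of_one_le_of_one_le (one_le_pow₀ hth) hg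
  have hG1 : 1 ≤ G' := (one_le_pow₀ hb).trans hG
  have e1 : (th ^ 2 * g) ^ (J + 1) = (th ^ (J + 1)) ^ 2 * g ^ (J + 1) := by
    rw [mul_pow, ← pow_mul, ← pow_mul, mul_comm 2]
  have h1 : 1 + (1 + q₀ * th ^ (J + 1) * gr P 3) ^ 2 + Q0 * g ^ (J + 1) ≤ (1 + (1 + q₀ * gr P 3) ^ 2 + Q0) * (th ^ 2 * g) ^ (J + 1) := by
    rw [e1]
    set b := th ^ (J + 1)
    set d := g ^ (J + 1)
    have c1 : 1 ≤ b ^ 2 := one_le_pow₀ b1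
    have c2 : 1 ≤ b ^ 2 * d := one_le_mul_of_one_le_of_one_le c1 b2
    have c3 : (1 + q₀ * b * gr P 3) ^ 2 ≤ (1 + q₀ * gr P 3) ^ 2 * (b ^ 2 * d) := by
      have d1 : 1 + q₀ * b * gr P 3 ≤ (1 + q₀ * gr P 3) * b := by nlinarith
      have d2 : (1 + q₀ * b * gr P 3) ^ 2 ≤ ((1 + q₀ * gr P 3) * b) ^ 2 := pow_le_pow_left₀ (by positivity) d1 2
      have d3 : (0 : ℝ) ≤ (1 + q₀ * gr P 3) ^ 2 * b ^ 2 := by positivity
      calc (1 + q₀ * b * gr P 3) ^ 2 ≤ ((1 + q₀ * gr P 3) * b) ^ 2 := d2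
        _ = (1 + q₀ * gr P 3) ^ 2 * b ^ 2 * 1 := by ring
        _ ≤ (1 + q₀ * gr P 3) ^ 2 * b ^ 2 * d := mul_le_mul_of_nonneg_left b2 d3
        _ = _ := by ring
    have c4 : Q0 * d ≤ Q0 * (b ^ 2 * d) := mul_le_mul_of_nonneg_left (le_mul_of_one_le_left (by linarith) c1) hQ
    have e2 : (1 + (1 + q₀ * gr P 3) ^ 2 + Q0) * (b ^ 2 * d) = b ^ 2 * d + (1 + q₀ * gr P 3) ^ 2 * (b ^ 2 * d) + Q0 * (b ^ 2 * d) := by ring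
    rw [e2]
    linarith
  have h2 : (1 + (1 + q₀ * th ^ (J + 1) * gr P 3) ^ 2 + Q0 * g ^ (J + 1)) ^ 4 ≤ (1 + (1 + q₀ * gr P 3) ^ 2 + Q0) ^ 4 * (G' * G' ^ J) := by
    have d1 : ((th ^ 2 * g) ^ (J + 1)) ^ 4 ≤ G' ^ (J + 1) := by
      rw [← pow_mul, mul_comm (J + 1) 4, pow_mul]
      exact pow_le_pow_left₀ (by positivity) hG _
    calc (1 + (1 + q₀ * th ^ (J + 1) * gr P 3) ^ 2 + Q0 * g ^ (J + 1)) ^ 4 ≤
          ((1 + (1 + q₀ * gr P 3) ^ 2 + Q0) * (th ^ 2 * g) ^ (J + 1)) ^ 4 := pow_le_pow_left₀ (by positivity) h1 4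
      _ = (1 + (1 + q₀ * gr P 3) ^ 2 + Q0) ^ 4 * ((th ^ 2 * g) ^ (J + 1)) ^ 4 := by rw [mul_pow]
      _ ≤ (1 + (1 + q₀ * gr P 3) ^ 2 + Q0) ^ 4 * G' ^ (J + 1) := mul_le_mul_of_nonneg_left d1 (by positivity)
      _ = _ := by rw [pow_succ G' J, mul_comm (G' ^ J)]
  have h3 : σ + 1 ≤ (σ + 1) * G' ^ J := le_mul_of_one_le_right (by linarith) (one_le_pow₀ hG1)
  have h4 := mul_le_mul_of_nonneg_left h2 hC
  calc _ ≤ C₉ * ((1 + (1 + q₀ * gr P 3) ^ 2 + Q0) ^ 4 * (G' * G' ^ J)) + (σ + 1) * G' ^ J := add_le_add h4 h3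
    _ = _ := by ring

/-- **`Ou` AT EVERY LARGE RADIUS**, pointwise, from D2 at the own cuts `ct f ρ`, `u + 2 ≤ f ≤ u + Jmax + 1`, with the constants `Q0 g ^ (f - u)`
in the unit of the label `f + 1`. -/
theorem ou99 (h0 : In μ s c C n₀) : ∃ (e : ℝ) (K₀ : ℕ), 0 < e ∧ 16 ≤ K₀ ∧ ∀ P : ℕ, ∀ {K θ : ℝ}, 8 ≤ K → 0 < θ → ∃ n₁ : ℕ, 1 ≤ n₁ ∧
    ∀ (Kg Bh : ℕ), K₀ ≤ Kg → 1 ≤ Bh → ∀ {q₀ th Q0 g σ : ℝ}, 0 ≤ q₀ → 1 ≤ th → 0 ≤ Q0 → 1 ≤ g → 0 ≤ σ → σ ≤ c / 8 →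
      2 * (th ^ 2 * g) ^ 4 ≤ (Kg : ℝ) ^ e → ∀ {sgm : ℝ}, 0 < sgm → ∃ Rmin : ℝ, 1 ≤ Rmin ∧ ∀ R : ℝ, Rmin ≤ R → ∃ Jmax : ℕ,
    ∀ {Γ : Cx} {G : Gm} {mt : ℕ}, Ng99 μ s c θ Γ G mt Bh n₁ → G.K = Kg → n₁ ≤ G.T0 → G37.Wok μ s G.T0 Kg →
      (∀ v, G.w v = wd μ s (G.T v)) → ∀ {E : ℕ → ℝ}, (∀ v, E v = EE μ s (G.T v)) →
    ∀ {A a g' A' a' g'' : ℝ} {Cn D' : ℕ} {F F' : Cut (ℤ × ℤ) → Cut (ℤ × ℤ) → ℝ → Set Env} {Ev : Cut (ℤ × ℤ) → Cut (ℤ × ℤ) → Set Env}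
      {E3 : Cut (ℤ × ℤ) → Cut (ℤ × ℤ) → Cut (ℤ × ℤ) → Set Env} {X : Cut (ℤ × ℤ) → Cut (ℤ × ℤ) → Cut (ℤ × ℤ) → Env → ℕ},
      LvF μ A a g' F → LvF μ A' a' g'' F' →
      (∀ x y q, F x y q ⊆ lvS μ s c θ K P (fun a b => Bh * G.T (lb6 a b)) (colC6 G.latC (sl μ s)) x y q) →
    ∀ {Sw : Finset ℤ} {E0 C2 Dd : ℕ} {C0 : ℝ} {Z : List (Cut (ℤ × ℤ))} {ρ : XS Γ G mt} {u : ℕ} {η : Env}, PW (gj Γ G mt) Z →
      ODW (gj Γ G mt) (fun x => G.lat x.1) G.latC G.w C0 C2 Dd Z ρ u → Ok6 Sw (dLI6 F F' Ev q₀ th D') (dNI6 X Cn F E3 q₀ th D') lb6 lbN6 Z u η →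
      OkS6 Sw E0 lb6 lbN6 Z u → 1 ≤ E0 → 1 ≤ u → Jmax + 1 ≤ C2 → Jmax + 1 < D' →
      (∀ f, u + 2 ≤ f → f ≤ u + Jmax + 1 → D2f99 μ s Γ G mt Bh ρ f (f + 1) (Q0 * g ^ (f - u)) σ η) →
      η ∈ Ou37.Ou μ s Γ G E R (sgm * R) (sgm * R) sgm 0 u (G.loc u ρ.1) := by
  obtain ⟨e, K₀, he, hK₀, H⟩ := own99 h0
  obtain ⟨a₀, n₂, ha₀, hn₂, HN⟩ := num99 h0
  refine ⟨min e a₀, K₀, lt_min he ha₀, hK₀, fun P K θ hK hθ => ?_⟩
  obtain ⟨C₉, n₁, hC₉, hn₁, H⟩ := H P hK hθ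
  refine ⟨max n₁ n₂, hn₁.trans (le_max_left _ _), fun Kg Bh hKg hBh q₀ th Q0 g σ hq hth hQ0 hg hσ0 hσ hKe sgm hsg => ?_⟩
  have hKg16 : 16 ≤ Kg := hK₀.trans hKg
  have hKg1 : (1 : ℝ) ≤ Kg := by exact_mod_cast (by omega : 1 ≤ Kg)
  obtain ⟨G', hG'⟩ : ∃ G' : ℝ, G' = (th ^ 2 * g) ^ 4 := ⟨_, rfl⟩
  have hb : 1 ≤ th ^ 2 * g := one_le_mul_of_one_le_of_one_le (one_le_pow₀ hth) hg
  have hG1 : 1 ≤ G' := by rw [hG']; exact one_le_pow₀ hb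
  rw [← hG'] at hKe
  have hKa : (Kg : ℝ) ^ (min e a₀) ≤ (Kg : ℝ) ^ a₀ := Real.rpow_le_rpow_of_exponent_le hKg1 (min_le_right _ _)
  have hKb : (Kg : ℝ) ^ (min e a₀) ≤ (Kg : ℝ) ^ e := Real.rpow_le_rpow_of_exponent_le hKg1 (min_le_left _ _)
  obtain ⟨A₁, hA₁⟩ : ∃ A₁ : ℝ, A₁ = C₉ * (1 + (1 + q₀ * gr P 3) ^ 2 + Kg * Q0) ^ 4 * G' + (σ + 1) := ⟨_, rfl⟩
  have hgr : 0 ≤ gr P 3 := zero_le_one.trans (gr_one_le _ (by norm_num))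
  have hA₀ : 0 ≤ C₉ * (1 + (1 + q₀ * gr P 3) ^ 2 + Kg * Q0) ^ 4 * G' := by positivity
  obtain ⟨Rmin, hR1, HN⟩ := HN Kg Bh (by omega) hBh G' A₁ sgm (by linarith) (by linarith) (by rw [hA₁]; linarith) hsg
  refine ⟨Rmin, hR1, fun R hR => ?_⟩
  obtain ⟨Jmax, HN⟩ := HN R hR
  refine ⟨Jmax, ?_⟩
  intro Γ G mt hgn hGK hT0 hW hw E hE A a g' A' a' g'' Cn D' F F' Ev E3 X hF hF' hFl Sw E0 C2 Dd C0 Z ρ u η hPW hO ho hS hE0 hu hC hD hD2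
  subst hGK
  obtain ⟨J, hJ1, hJ2, hJw, hJE⟩ := HN G.T0 ((le_max_right _ _).trans hT0) hW u
  have hgn' : Ng99 μ s c θ Γ G mt Bh n₁ := ⟨hgn.hs, hgn.hv, hgn.K16, hgn.B4, hgn.th, fun v => (le_max_left _ _).trans (hgn.n1 v), hgn.w1, hgn.wH,
    hgn.wm, hgn.fo, hgn.N, hgn.ew⟩
  have hD2' := D2f99.unit h0 hgn' (f := u + J + 1) (v := u + J + 1) (by positivity) hσ0 (hD2 (u + J + 1) (by omega) (by omega))
  rw [show u + J + 1 - u = J + 1 by omega, ← mul_assoc] at hD2'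
  have key := H hgn' hKg (by linarith) hF hF' hFl hq hth hPW hO ho hS hE0 hu hJ1 (by omega) (by omega)
    (Q4 := G.K * Q0 * g ^ (J + 1)) (by positivity) hσ0 hσ hD2'
  have hgrow := grow99 (C₉ := C₉) (q₀ := q₀) (th := th) (Q0 := G.K * Q0) (g := g) (σ := σ) (G' := G') (P := P) (by linarith) hq hth (by positivity) hg
    hσ0 hG'.ge J
  rw [← hA₁] at hgrow
  obtain ⟨Cc, hCc⟩ : ∃ Cc : ℝ, Cc = C₉ * (1 + (1 + q₀ * th ^ (J + 1) * gr P 3) ^ 2 + G.K * Q0 * g ^ (J + 1)) ^ 4 := ⟨_, rfl⟩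
  rw [← hCc] at hgrow key
  obtain ⟨H', hH'⟩ : ∃ H' : ℕ, H' = Bh * G.T (u + J + 1) := ⟨_, rfl⟩
  have hJE' : A₁ * G' ^ J * EE μ s H' ≤ sgm * R * E u := by
    rw [hE u, hH']
    exact hJE
  have hEH := EE_pos (μ := μ) (s := s) H'
  rw [← hH'] at key
  have hCE : (Cc + (σ + 1)) * EE μ s H' ≤ sgm * R * E u := (mul_le_mul_of_nonneg_right hgrow hEH.le).trans hJE'
  have hCc0 : 0 ≤ Cc := by rw [hCc]; positivity
  -- widths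
  have w1 : R * G.w u ≤ G.w (u + J) := by rw [hw u, hw (u + J)]; exact hJw
  have w2 := G.w_two (u + J)
  have w3 : G.w (u + J + 1) ≤ wd μ s H' := by rw [hH']; exact hgn.wH (u + J + 1)
  have w4 := hgn.w1 u
  have hR0 : 1 ≤ R := hR1.trans hR
  have w5 : G.w u ≤ R * G.w u := le_mul_of_one_le_left (by linarith) hR0
  have hW' : 0 < wd μ s H' := by linarith
  have hsg1 : 0 < σ + 1 := by linarith
  have hEu : 0 < E u := by rw [hE u]; exact EE_pos _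
  refine ⟨Ou37.ouT_of (D := G.w u / 2) (W' := wd μ s H') (X := (Cc + (σ + 1)) * EE μ s H') hgn.hv (κ₀ := pt99 Γ G mt ρ)
    (Ou37.off_ctr u ρ.1) (by linarith) hCE (fun k k' y y' h1 h2 h3 h4 h5 h6 => ?_), ?_⟩
  · refine (key k' k y' y h3 h4 h1 h2 h5).trans (mul_le_mul_of_nonneg_right (Real.exp_le_exp.2 ?_)
      (bh16_pos Γ.p_pos _ _).le)
    have h7 : |lat16 μ s (pt99 Γ G mt ρ) ((k' : ℤ), y')| / wd μ s H' ≤ 1 := (div_le_one hW').2 h6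
    have h8 := mul_le_mul_of_nonneg_left h7 hsg1.le
    exact mul_le_mul_of_nonneg_right (by linarith) hEH.le
  · refine Ou37.ouD_of (D := G.w u / 2) (W' := wd μ s H') (w' := wd μ s H') (E' := EE μ s H') (Q := Cc) (σ := σ + 1) hgn.hv
      (κ₀ := pt99 Γ G mt ρ) (Ou37.off_ctr u ρ.1) (by linarith) hW' hEH.le hsg1.le ?_ ?_ (fun y y₀ h1 => ?_)
    · refine le_trans (mul_le_mul_of_nonneg_right ?_ hEH.le) hCE
      have h7 : G.w u / 2 / wd μ s H' ≤ 1 := (div_le_one hW').2 (by linarith)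
      have h8 := mul_le_mul_of_nonneg_left h7 hsg1.le
      linarith
    · have h7 : (σ + 1) * EE μ s H' ≤ sgm * R * E u := (mul_le_mul_of_nonneg_right (by linarith) hEH.le).trans hCE
      have h8 : R * G.w u ≤ wd μ s H' := by linarith
      have h9 : 0 < G.w u := by linarith
      rw [div_mul_eq_mul_div, div_mul_eq_mul_div, div_le_div_iff₀ hW' h9]
      calc (σ + 1) * EE μ s H' * G.w u ≤ sgm * R * E u * G.w u := mul_le_mul_of_nonneg_right h7 h9.le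
        _ = sgm * E u * (R * G.w u) := by ring
        _ ≤ sgm * E u * wd μ s H' := mul_le_mul_of_nonneg_left h8 (by positivity)
    · have h2 : G.ra u (G.loc u ρ.1) ≤ G.re u (G.loc u ρ.1) + 1 := by
        have h0' : 0 ≤ G.rcc u (G.loc u ρ.1) := (G.rcc_pos u ρ.1).le
        have e1 := G.ra_cast h0'
        have e2 := G.re_cast h0'
        have e3 : G.T (u - 1) ≤ G.T u := (gj Γ G mt).T_mono (Nat.sub_le _ _)
        omega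
      exact key _ _ y y₀ h2 le_rfl h2 le_rfl h1

end

end Pool.Agent.W_7d29a1_C1.PrC99
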