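import Pool.Agent.W_7d29a1_C1.SysP84
import Pool.Agent.W_7d29a1_C1.TamK16

/-!
MP_7d29a1_pr, [C1]: MOVING THE SWITCH ROW. (helper70)

Two profiles with the same slope and the same force, the force being switched off at the rows `M` and `M'`, at most `D` rows apart
(`Sw70`). Every mass of the one is at most `exp (|h| D)` times the mass of the other, every normalised mass at most `exp (2 |h| D)` times.
So a statement about a tower which contains the switch row follows from the same statement with the switch row outside of the tower.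
-/

set_option autoImplicit false

namespace Pool.Agent.W_7d29a1_C1.Swm70

open MeasureTheory Finset
open Pool.Agent.W_7d29a1_F Pool.Agent.W_7d29a1_h4g Pool.Agent.W_7d29a1_H Pool.Agent.W_7d29a1_HS
open Pool.Agent.W_7d29a1_C1.H75 Pool.Agent.W_7d29a1_C1.U16 Pool.Agent.W_7d29a1_C1.FarK89 Pool.Agent.W_7d29a1_C1.FarW89
open Pool.Agent.W_7d29a1_C1.SysP84
open Pool.Agent.W_7d29a1_C1.K91 (wt wt_pos)
open Pool.Agent.W_7d29a1_C1.K91P (fw bw fw_nonneg bw_pos fw_succ bw_succ bw_zero fw_zero)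

noncomputable section

/-- Two profiles of the same slope and force, the force being switched off at the rows `M`, `M'`, at most `D` rows apart. -/
structure Sw70 (s h : ℝ) (D M M' : ℕ) (p p' : ℕ → ℝ) : Prop where
  p1 : ∀ k, k < M → p k = Real.exp (s + h)
  p2 : ∀ k, M ≤ k → p k = Real.exp s
  q1 : ∀ k, k < M' → p' k = Real.exp (s + h)
  q2 : ∀ k, M' ≤ k → p' k = Real.exp s
  d1 : M ≤ M' + D
  d2 : M' ≤ M + D

/-- The profile with the switch row `M`. -/
def pr70 (s h : ℝ) (M k : ℕ) : ℝ := if k < M then Real.exp (s + h) else Real.exp s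

theorem pr70_pos (s h : ℝ) (M k : ℕ) : 0 < pr70 s h M k := by
  unfold pr70
  split_ifs <;> exact Real.exp_pos _

variable {s h : ℝ} {D M M' : ℕ} {p p' : ℕ → ℝ}

/-- Any new switch row at most `D` rows away. -/
theorem mk70 (p1 : ∀ k, k < M → p k = Real.exp (s + h)) (p2 : ∀ k, M ≤ k → p k = Real.exp s) (M' : ℕ) (d1 : M ≤ M' + D)
    (d2 : M' ≤ M + D) : Sw70 s h D M M' p (pr70 s h M') :=
  ⟨p1, p2, fun k hk => by rw [pr70, if_pos hk], fun k hk => by rw [pr70, if_neg (by omega)], d1, d2⟩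

namespace Sw70

theorem symm (H : Sw70 s h D M M' p p') : Sw70 s h D M' M p' p := ⟨H.q1, H.q2, H.p1, H.p2, H.d2, H.d1⟩

theorem pos (H : Sw70 s h D M M' p p') (k : ℕ) : 0 < p k := by
  rcases lt_or_ge k M with h1 | h1
  · rw [H.p1 k h1]
    exact Real.exp_pos _
  · rw [H.p2 k h1]
    exact Real.exp_pos _

theorem pos' (H : Sw70 s h D M M' p p') (k : ℕ) : 0 < p' k := H.symm.pos k

end Sw70

/-- The cost of one row. -/
def co70 (h : ℝ) (M M' k : ℕ) : ℝ := if min M M' ≤ k ∧ k < max M M' then |h| else 0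

theorem row70 (H : Sw70 s h D M M' p p') (k : ℕ) : p k ≤ Real.exp (co70 h M M' k) * p' k := by
  unfold co70
  rcases lt_or_ge k M with h1 | h1 <;> rcases lt_or_ge k M' with h2 | h2
  · rw [H.p1 k h1, H.q1 k h2, ← Real.exp_add]
    apply Real.exp_le_exp.2
    split_ifs
    · have := abs_nonneg h
      linarith
    · linarith
  · rw [H.p1 k h1, H.q2 k h2, if_pos ⟨by omega, by omega⟩, ← Real.exp_add]
    apply Real.exp_le_exp.2
    have := le_abs_self h
    linarith
  · rw [H.p2 k h1, H.q1 k h2, if_pos ⟨by omega, by omega⟩, ← Real.exp_add]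
    apply Real.exp_le_exp.2
    have := neg_abs_le h
    linarith
  · rw [H.p2 k h1, H.q2 k h2, ← Real.exp_add]
    apply Real.exp_le_exp.2
    split_ifs
    · have := abs_nonneg h
      linarith
    · linarith

theorem sum_co70 (h : ℝ) {D M M' : ℕ} (d1 : M ≤ M' + D) (d2 : M' ≤ M + D) (i n : ℕ) :
    ∑ k ∈ range n, co70 h M M' (i + k) ≤ |h| * D := by
  unfold co70
  rw [← sum_filter, sum_const, nsmul_eq_mul, mul_comm]
  refine mul_le_mul_of_nonneg_left ?_ (abs_nonneg h)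
  have h1 : ((range n).filter fun k => min M M' ≤ i + k ∧ i + k < max M M').card ≤ (Ico (min M M') (max M M')).card := by
    refine card_le_card_of_injOn (fun k => i + k) ?_ ?_
    · intro k hk
      have h2 := (mem_filter.1 (mem_coe.1 hk)).2
      exact mem_coe.2 (mem_Ico.2 h2)
    · intro a _ b _ hab
      simpa using hab
  rw [Nat.card_Ico] at h1
  have h2 : max M M' - min M M' ≤ D := by omega
  exact_mod_cast h1.trans h2

/-! ### The masses -/

section masses

variable {w : ℕ → ℤ → ℝ} {l : ℤ → ℝ} {q : ℕ → ℝ}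

theorem fw_co70 (hw : ∀ k y, 0 < w k y) (hp : ∀ k, 0 < p k) (hp' : ∀ k, 0 < p' k) (hq : ∀ k, 0 ≤ q k)
    (hpq : ∀ k, p k ≤ Real.exp (q k) * p' k) (hl : ∀ y, 0 ≤ l y) :
    ∀ n y, fw w p l n y ≤ Real.exp (∑ k ∈ range n, q k) * fw w p' l n y
  | 0, y => by rw [fw_zero, fw_zero, range_zero, sum_empty, Real.exp_zero, one_mul]
  | n + 1, y => by
    have h1 := fw_co70 hw hp hp' hq hpq hl n y
    have h2 := fw_co70 hw hp hp' hq hpq hl n (y - 1)
    have f1 := fw_nonneg hw hp hl n (y - 1)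
    have g0 := fw_nonneg hw hp' hl n y
    have g1 := fw_nonneg hw hp' hl n (y - 1)
    have w0 := hw n y
    have w1 := hw n (y - 1)
    have e1 : 1 ≤ Real.exp (q n) := Real.one_le_exp (hq n)
    have p0 := hp' n
    obtain ⟨E, hE⟩ : ∃ E, E = Real.exp (∑ k ∈ range n, q k) := ⟨_, rfl⟩
    have hE0 : 0 < E := hE ▸ Real.exp_pos _
    rw [← hE] at h1 h2
    rw [fw_succ, fw_succ, sum_range_succ, Real.exp_add, ← hE]
    have a1 : w n y * fw w p l n y ≤ w n y * (E * fw w p' l n y) := mul_le_mul_of_nonneg_left h1 w0.le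
    have a2 : w n y * (E * fw w p' l n y) ≤ Real.exp (q n) * (w n y * (E * fw w p' l n y)) :=
      le_mul_of_one_le_left (by positivity) e1
    have a3 : p n * (w n (y - 1) * fw w p l n (y - 1)) ≤ (Real.exp (q n) * p' n) * (w n (y - 1) * (E * fw w p' l n (y - 1))) :=
      mul_le_mul (hpq n) (mul_le_mul_of_nonneg_left h2 w1.le) (by positivity) (by positivity)
    calc _ ≤ Real.exp (q n) * (w n y * (E * fw w p' l n y)) +
        (Real.exp (q n) * p' n) * (w n (y - 1) * (E * fw w p' l n (y - 1))) := by linarith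
      _ = _ := by ring

theorem bw_co70 (hw : ∀ k y, 0 < w k y) (hp : ∀ k, 0 < p k) (hp' : ∀ k, 0 < p' k) (hq : ∀ k, 0 ≤ q k)
    (hpq : ∀ k, p k ≤ Real.exp (q k) * p' k) :
    ∀ j k y, bw w p k j y ≤ Real.exp (∑ i ∈ range j, q (k + i)) * bw w p' k j y
  | 0, k, y => by rw [bw_zero, bw_zero, range_zero, sum_empty, Real.exp_zero, one_mul]
  | j + 1, k, y => by
    have h1 := bw_co70 hw hp hp' hq hpq j (k + 1) y
    have h2 := bw_co70 hw hp hp' hq hpq j (k + 1) (y + 1)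
    have f1 := (bw_pos hw hp j (k + 1) (y + 1)).le
    have g0 := bw_pos hw hp' j (k + 1) y
    have g1 := bw_pos hw hp' j (k + 1) (y + 1)
    have w0 := hw k y
    have e1 : 1 ≤ Real.exp (q k) := Real.one_le_exp (hq k)
    have p0 := hp' k
    have e2 : ∑ i ∈ range (j + 1), q (k + i) = q k + ∑ i ∈ range j, q (k + 1 + i) := by
      rw [sum_range_succ', add_zero, add_comm]
      congr 1
      refine sum_congr rfl fun i _ => ?_
      congr 1
      omega
    obtain ⟨E, hE⟩ : ∃ E, E = Real.exp (∑ i ∈ range j, q (k + 1 + i)) := ⟨_, rfl⟩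
    have hE0 : 0 < E := hE ▸ Real.exp_pos _
    rw [← hE] at h1 h2
    rw [bw_succ, bw_succ, e2, Real.exp_add, ← hE]
    have a2 : E * bw w p' (k + 1) j y ≤ Real.exp (q k) * (E * bw w p' (k + 1) j y) :=
      le_mul_of_one_le_left (by positivity) e1
    have a3 : p k * bw w p (k + 1) j (y + 1) ≤ (Real.exp (q k) * p' k) * (E * bw w p' (k + 1) j (y + 1)) :=
      mul_le_mul (hpq k) h2 f1 (by positivity)
    calc _ ≤ w k y * (Real.exp (q k) * (E * bw w p' (k + 1) j y) +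
        (Real.exp (q k) * p' k) * (E * bw w p' (k + 1) j (y + 1))) :=
          mul_le_mul_of_nonneg_left (by linarith) w0.le
      _ = _ := by ring

theorem co70_nonneg (h : ℝ) (M M' k : ℕ) : 0 ≤ co70 h M M' k := by
  unfold co70
  split_ifs
  · exact abs_nonneg h
  · exact le_rfl

/-- **Forward masses.** -/
theorem fw_sw70 (H : Sw70 s h D M M' p p') (hw : ∀ k y, 0 < w k y) (hl : ∀ y, 0 ≤ l y) (n : ℕ) (y : ℤ) :
    fw w p l n y ≤ Real.exp (|h| * D) * fw w p' l n y := by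
  refine (fw_co70 hw H.pos H.pos' (co70_nonneg h M M') (row70 H) hl n y).trans ?_
  refine mul_le_mul_of_nonneg_right (Real.exp_le_exp.2 ?_) (fw_nonneg hw H.pos' hl n y)
  have h1 := sum_co70 h H.d1 H.d2 0 n
  simpa using h1

/-- **Backward masses.** -/
theorem bw_sw70 (H : Sw70 s h D M M' p p') (hw : ∀ k y, 0 < w k y) (k j : ℕ) (y : ℤ) :
    bw w p k j y ≤ Real.exp (|h| * D) * bw w p' k j y := by
  refine (bw_co70 hw H.pos H.pos' (co70_nonneg h M M') (row70 H) j k y).trans ?_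
  exact mul_le_mul_of_nonneg_right (Real.exp_le_exp.2 (sum_co70 h H.d1 H.d2 k j)) (bw_pos hw H.pos' j k y).le

/-- **Kernels.** -/
theorem ker_sw70 (H : Sw70 s h D M M' p p') (hw : ∀ k y, 0 < w k y) (i n : ℕ) (x y : ℤ) :
    ker w p i n x y ≤ Real.exp (|h| * D) * ker w p' i n x y := by
  unfold ker
  refine (fw_co70 (q := fun k => co70 h M M' (i + k)) (fun k y => hw (i + k) y) (fun k => H.pos (i + k)) (fun k => H.pos' (i + k))
    (fun k => co70_nonneg h M M' (i + k)) (fun k => row70 H (i + k)) (dlt_nonneg x) n y).trans ?_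
  exact mul_le_mul_of_nonneg_right (Real.exp_le_exp.2 (sum_co70 h H.d1 H.d2 i n))
    (fw_nonneg (fun k y => hw (i + k) y) (fun k => H.pos' (i + k)) (dlt_nonneg x) n y)

end masses

/-! ### The normalised masses -/

section norm

variable {μ : Measure ℝ} {η : Env}

theorem bl_sw70 (d1 : M ≤ M' + D) (i n : ℕ) : (bl M i n : ℝ) ≤ bl M' i n + D := by
  have h1 : bl M i n ≤ bl M' i n + D := by
    unfold bl
    omega
  exact_mod_cast h1

/-- The factor of the rows. -/
theorem nf_sw70 (H : Sw70 s h D M M' p p') (s0 : 0 ≤ sl μ s) (s1 : sl μ s ≤ 1) (A : ℝ) (i n : ℕ) :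
    Real.exp (-(A + h * sl μ s * bl M i n)) ≤ Real.exp (|h| * D) * Real.exp (-(A + h * sl μ s * bl M' i n)) := by
  rw [← Real.exp_add]
  apply Real.exp_le_exp.2
  have h1 := bl_sw70 H.d1 i n
  have h2 := bl_sw70 H.d2 i n
  have h3 : |h * sl μ s * ((bl M' i n : ℝ) - bl M i n)| ≤ |h| * D := by
    rw [abs_mul, abs_mul, abs_of_nonneg s0]
    have h4 : |(bl M' i n : ℝ) - bl M i n| ≤ D := abs_le.2 ⟨by linarith, by linarith⟩
    calc |h| * sl μ s * |(bl M' i n : ℝ) - bl M i n| ≤ |h| * 1 * D := by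
          have := abs_nonneg h
          exact mul_le_mul (mul_le_mul_of_nonneg_left s1 this) h4 (abs_nonneg _) (by positivity)
      _ = _ := by ring
  have h5 := (abs_le.1 h3).2
  linarith [show h * sl μ s * ((bl M' i n : ℝ) - bl M i n) = h * sl μ s * bl M' i n - h * sl μ s * bl M i n by ring]

theorem mul2_70 {a b c d E : ℝ} (hE : 0 ≤ E) (h1 : a ≤ E * b) (h2 : c ≤ E * d) (hc : 0 ≤ c) (hb : 0 ≤ b) :
    a * c ≤ E * E * (b * d) := by
  calc a * c ≤ (E * b) * (E * d) := mul_le_mul h1 h2 hc (by positivity)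
    _ = _ := by ring

theorem exp2_70 (x : ℝ) : Real.exp x * Real.exp x = Real.exp (2 * x) := by rw [← Real.exp_add, two_mul]

/-- **The normalised kernels.** -/
theorem nk_sw70 (H : Sw70 s h D M M' p p') (s0 : 0 ≤ sl μ s) (s1 : sl μ s ≤ 1) (i n : ℕ) (x y : ℤ) :
    nk μ s h η p M i n x y ≤ Real.exp (2 * (|h| * D)) * nk μ s h η p' M' i n x y := by
  unfold nk
  rw [← exp2_70]
  have w1 := wt_pos η (i + n) y
  have w2 := wt_pos η i x
  refine mul2_70 (Real.exp_pos _).le (nf_sw70 H s0 s1 _ i n) ?_ ?_ (Real.exp_pos _).le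
  · rw [mul_div_assoc, mul_div_assoc, ← mul_assoc]
    exact mul_le_mul_of_nonneg_right (ker_sw70 H (wt_pos η) i n x y) (by positivity)
  · have := ker_nonneg (wt_pos η) H.pos i n x y
    positivity

/-- **The normalised futures.** -/
theorem bh_sw70 (H : Sw70 s h D M M' p p') (s0 : 0 ≤ sl μ s) (s1 : sl μ s ≤ 1) (N a : ℕ) (x : ℤ) :
    bh16 μ s h η p M N a x ≤ Real.exp (2 * (|h| * D)) * bh16 μ s h η p' M' N a x := by
  unfold bh16
  rw [← exp2_70]
  have w2 := wt_pos η a x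
  refine mul2_70 (Real.exp_pos _).le (nf_sw70 H s0 s1 _ a (N - a)) ?_ ?_ (Real.exp_pos _).le
  · rw [← mul_div_assoc]
    exact div_le_div_of_nonneg_right (bw_sw70 H (wt_pos η) a (N - a) x) w2.le
  · have := bw_pos (w := wt η) (wt_pos η) H.pos (N - a) a x
    positivity

/-- **The normalised pasts.** -/
theorem fh_sw70 (H : Sw70 s h D M M' p p') (s0 : 0 ≤ sl μ s) (s1 : sl μ s ≤ 1) {l : ℤ → ℝ} (hl : ∀ y, 0 ≤ l y) (i : ℕ) (x : ℤ) :
    fh84 μ s h η p M l i x ≤ Real.exp (2 * (|h| * D)) * fh84 μ s h η p' M' l i x := by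
  unfold fh84
  rw [← exp2_70]
  have w2 := wt_pos η i x
  refine mul2_70 (Real.exp_pos _).le (nf_sw70 H s0 s1 _ 0 i) ?_ ?_ (Real.exp_pos _).le
  · rw [← mul_assoc]
    exact mul_le_mul_of_nonneg_right (fw_sw70 H (wt_pos η) hl i x) w2.le
  · have := fw_nonneg (w := wt η) (wt_pos η) H.pos hl i x
    positivity

theorem bh_nonneg70 (hp : ∀ k, 0 < p k) (N a : ℕ) (x : ℤ) : 0 ≤ bh16 μ s h η p M N a x := by
  have h1 := wt_pos η a x
  have h2 := bw_pos (w := wt η) (wt_pos η) hp (N - a) a x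
  unfold bh16
  positivity

/-! ### Masses through places -/

/-- **The mass of the future through the places `Q`.** -/
theorem PM_sw70 (H : Sw70 s h D M M' p p') (s0 : 0 ≤ sl μ s) (s1 : sl μ s ≤ 1) (N a e : ℕ) (x : ℤ) (Q : ℤ → Prop) [DecidablePred Q] :
    PM16 (fun a b x z => nk μ s h η p M a (b - a) x z) (bh16 μ s h η p M N) a e x Q ≤
      Real.exp (4 * (|h| * D)) * PM16 (fun a b x z => nk μ s h η p' M' a (b - a) x z) (bh16 μ s h η p' M' N) a e x Q := by
  unfold PM16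
  rw [mul_sum]
  refine sum_le_sum fun z _ => ?_
  rw [show 4 * (|h| * D) = 2 * (2 * (|h| * (D : ℝ))) by ring, ← exp2_70]
  exact mul2_70 (Real.exp_pos _).le (nk_sw70 H s0 s1 a (e - a) x z) (bh_sw70 H s0 s1 N e z)
    (bh_nonneg70 H.pos N e z) (nk_nonneg H.pos' a (e - a) x z)

/-- **The mass of the past through the places `Q`.** -/
theorem PMP_sw70 (H : Sw70 s h D M M' p p') (s0 : 0 ≤ sl μ s) (s1 : sl μ s ≤ 1) {l : ℤ → ℝ} (hl : ∀ y, 0 ≤ l y) (a e : ℕ) (x : ℤ)
    (Q : ℤ → Prop) [DecidablePred Q] :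
    PMP84 μ s h η p M l a e x Q ≤ Real.exp (4 * (|h| * D)) * PMP84 μ s h η p' M' l a e x Q := by
  unfold PMP84
  rw [mul_sum]
  refine sum_le_sum fun z _ => ?_
  rw [show 4 * (|h| * D) = 2 * (2 * (|h| * (D : ℝ))) by ring, ← exp2_70]
  exact mul2_70 (Real.exp_pos _).le (nk_sw70 H s0 s1 e (a - e) z x) (fh_sw70 H s0 s1 hl e z)
    (fh_nonneg H.pos hl e z) (nk_nonneg H.pos' e (a - e) z x)

/-! ### Ratios -/

/-- A bound of a mass by a mass: from the new switch row to the old one. -/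
theorem rat70 {q q' a a' b b' A : ℝ} (hA : 0 ≤ A) (h1 : a ≤ Real.exp q * a') (h2 : b' ≤ Real.exp q' * b) (h3 : a' ≤ A * b') :
    a ≤ Real.exp (q + q') * (A * b) := by
  have e1 := Real.exp_pos q
  have e2 := Real.exp_pos q'
  calc a ≤ Real.exp q * a' := h1
    _ ≤ Real.exp q * (A * (Real.exp q' * b)) :=
        mul_le_mul_of_nonneg_left (h3.trans (mul_le_mul_of_nonneg_left h2 hA)) e1.le
    _ = _ := by rw [Real.exp_add]; ring

/-- **A ratio of two places**, the future. -/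
theorem bh_rat70 (H : Sw70 s h D M M' p p') (s0 : 0 ≤ sl μ s) (s1 : sl μ s ≤ 1) {N a : ℕ} {x x' : ℤ} {X : ℝ}
    (hX : bh16 μ s h η p' M' N a x ≤ Real.exp X * bh16 μ s h η p' M' N a x') :
    bh16 μ s h η p M N a x ≤ Real.exp (X + 4 * (|h| * D)) * bh16 μ s h η p M N a x' := by
  have h1 := rat70 (Real.exp_pos X).le (bh_sw70 H s0 s1 N a x) (bh_sw70 H.symm s0 s1 N a x') hX
  rw [← mul_assoc, ← Real.exp_add] at h1
  rwa [show 2 * (|h| * (D : ℝ)) + 2 * (|h| * D) + X = X + 4 * (|h| * D) by ring] at h1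

/-- **A ratio of two places**, the past. -/
theorem fh_rat70 (H : Sw70 s h D M M' p p') (s0 : 0 ≤ sl μ s) (s1 : sl μ s ≤ 1) {l : ℤ → ℝ} (hl : ∀ y, 0 ≤ l y) {i : ℕ} {x x' : ℤ}
    {X : ℝ} (hX : fh84 μ s h η p' M' l i x ≤ Real.exp X * fh84 μ s h η p' M' l i x') :
    fh84 μ s h η p M l i x ≤ Real.exp (X + 4 * (|h| * D)) * fh84 μ s h η p M l i x' := by
  have h1 := rat70 (Real.exp_pos X).le (fh_sw70 H s0 s1 hl i x) (fh_sw70 H.symm s0 s1 hl i x') hX
  rw [← mul_assoc, ← Real.exp_add] at h1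
  rwa [show 2 * (|h| * (D : ℝ)) + 2 * (|h| * D) + X = X + 4 * (|h| * D) by ring] at h1

/-- **A share of the mass of the future through `Q`.** -/
theorem PM_rat70 (H : Sw70 s h D M M' p p') (s0 : 0 ≤ sl μ s) (s1 : sl μ s ≤ 1) {N a e : ℕ} {x x' : ℤ} {Q : ℤ → Prop}
    [DecidablePred Q] {A : ℝ} (hA : 0 ≤ A)
    (hX : PM16 (fun a b x z => nk μ s h η p' M' a (b - a) x z) (bh16 μ s h η p' M' N) a e x Q ≤ A * bh16 μ s h η p' M' N a x') :
    PM16 (fun a b x z => nk μ s h η p M a (b - a) x z) (bh16 μ s h η p M N) a e x Q ≤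
      Real.exp (6 * (|h| * D)) * (A * bh16 μ s h η p M N a x') := by
  have h1 := rat70 hA (PM_sw70 (η := η) H s0 s1 N a e x Q) (bh_sw70 H.symm s0 s1 N a x') hX
  rwa [show 4 * (|h| * (D : ℝ)) + 2 * (|h| * D) = 6 * (|h| * D) by ring] at h1

/-- **A share of the mass of the past through `Q`.** -/
theorem PMP_rat70 (H : Sw70 s h D M M' p p') (s0 : 0 ≤ sl μ s) (s1 : sl μ s ≤ 1) {l : ℤ → ℝ} (hl : ∀ y, 0 ≤ l y) {a e : ℕ} {x x' : ℤ}
    {Q : ℤ → Prop} [DecidablePred Q] {A : ℝ} (hA : 0 ≤ A)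
    (hX : PMP84 μ s h η p' M' l a e x Q ≤ A * fh84 μ s h η p' M' l a x') :
    PMP84 μ s h η p M l a e x Q ≤ Real.exp (6 * (|h| * D)) * (A * fh84 μ s h η p M l a x') := by
  have h1 := rat70 hA (PMP_sw70 (η := η) H s0 s1 hl a e x Q) (fh_sw70 H.symm s0 s1 hl a x') hX
  rwa [show 4 * (|h| * (D : ℝ)) + 2 * (|h| * D) = 6 * (|h| * D) by ring] at h1

end norm

end

end Pool.Agent.W_7d29a1_C1.Swm70
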