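import Pool.Agent.W_7d29a1_C1.D2P67
import Pool.Agent.W_7d29a1_C1.Sw70
import Pool.Agent.W_7d29a1_C1.PrC99

/-!
MP_7d29a1_pr, [C1] attractor route, TAME: (D2) AT THE BOTTOM OF A LONG PIECE FROM THE CRUDE TOP. (helper99)

* `Top99` : the event of `evn_top16` at one environment (the crude (D2) of a context, every lower switch row);
* **`top99`** : `Top99` gives the hypothesis (D2)-above of `pcD2_67` at every row on the line of an own site; `topa99` : for all the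
  places within a width;
* **`htop99`** : `Top99` gives `hTop` of `d2own67`;
* `cn99` : the constant of `pcD2_67` is `Q g ^ (f - u)`;
* **`d2T99`** : (D2) at the bottom of a piece from `Top99`, the switch row being anywhere.
-/

set_option autoImplicit false

namespace Pool.Agent.W_7d29a1_C1.D2T99

open MeasureTheory Filter Finset
open Pool.Agent.W_7d29a1_F Pool.Agent.W_7d29a1_h4g Pool.Agent.W_7d29a1_H Pool.Agent.W_7d29a1_HS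
open Pool.Agent.W_7d29a1_C1.H75 Pool.Agent.W_7d29a1_C1.U16
open Pool.Agent.W_7d29a1_C1.H60
open Pool.Agent.W_7d29a1_C1.H40 Pool.Agent.W_7d29a1_C1.S71
open Pool.Agent.W_7d29a1_C1.G37 (Gm)
open Pool.Agent.W_7d29a1_C1.SF98
open Pool.Agent.W_7d29a1_C1.PW86
open Pool.Agent.W_7d29a1_C1.Dep6
open Pool.Agent.W_7d29a1_C1.PrC99
open Pool.Agent.W_7d29a1_C1.D2C67
open Pool.Agent.W_7d29a1_C1.H94 (nu Cs94)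

noncomputable section

variable {μ : Measure ℝ} {s c C : ℝ} {n₀ : ℕ}

/-- **THE CRUDE (D2) OF A CONTEXT** at one environment, the event of `evn_top16`. -/
def Top99 (μ : Measure ℝ) (s : ℝ) (Γ : Cx) (G : Gm) (mt : ℕ) (Qe σ K₁ : ℝ) (η : Env) : Prop :=
  ∀ {M' : ℕ} {p' : ℕ → ℝ}, M' ≤ Γ.M → (∀ k, k < M' → p' k = Real.exp (s + Γ.h)) → (∀ k, M' ≤ k → p' k = Real.exp s) →
    ∀ {a t : ℕ}, a + 1 ≤ Γ.N → G.T0 ≤ t → t ≤ 8 * G.K ^ 2 * G.T mt → ∀ {x₀ : ℝ} {x x' : ℤ}, |x'| ≤ 4 * (Γ.N : ℤ) →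
    |(x' : ℝ) - x₀| ≤ K₁ * wd μ s t →
      bh16 μ s Γ.h η p' M' Γ.N a x ≤ Real.exp ((Qe + σ * (|(x : ℝ) - x₀| / wd μ s t)) * EE μ s t) * bh16 μ s Γ.h η p' M' Γ.N a x'

/-- The lateral coordinate from a line. -/
theorem lat_line99 {κ : Pt} {x : ℝ} (hκ : (κ.2 : ℝ) - sl μ s * (κ.1 : ℝ) = x) (a y : ℤ) :
    lat16 μ s κ (a, y) = (y : ℝ) - (x + sl μ s * (a : ℝ)) := by
  rw [← hκ]
  unfold lat16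
  push_cast
  ring

variable {Γ : Cx} {G : Gm} {mt : ℕ} {Qe σ₄ K₁ : ℝ} {η : Env}

/-- **THE TOP**: the hypothesis (D2)-above of `pcD2_67`. -/
theorem top99 (s0 : 0 ≤ sl μ s) (s1 : sl μ s ≤ 1) (hT : Top99 μ s Γ G mt Qe σ₄ K₁ η) (hK₁ : 1 ≤ K₁) {a t : ℕ} (hw : 1 ≤ wd μ s t)
    (ha : a + 1 ≤ Γ.N) (ht : G.T0 ≤ t) (ht' : t ≤ 8 * G.K ^ 2 * G.T mt) (ρ : XS Γ G mt) {κ : Pt}
    (hκ : (κ.2 : ℝ) - sl μ s * (κ.1 : ℝ) = (ρ.1.2 : ℝ) - sl μ s * (ρ.1.1 : ℝ)) :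
    ∃ y₀ : ℤ, |lat16 μ s κ ((a : ℤ), y₀)| ≤ 1 ∧ ∀ {M' : ℕ} {p' : ℕ → ℝ}, M' ≤ Γ.M → (∀ k, k < M' → p' k = Real.exp (s + Γ.h)) →
      (∀ k, M' ≤ k → p' k = Real.exp s) → ∀ y : ℤ, bh16 μ s Γ.h η p' M' Γ.N a y ≤
        Real.exp ((Qe + σ₄ * (|lat16 μ s κ ((a : ℤ), y)| / wd μ s t)) * EE μ s t) * bh16 μ s Γ.h η p' M' Γ.N a y₀ := by
  obtain ⟨x₀, hx₀⟩ : ∃ x₀ : ℝ, x₀ = ((ρ.1.2 : ℝ) - sl μ s * (ρ.1.1 : ℝ)) + sl μ s * (a : ℝ) := ⟨_, rfl⟩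
  have hl : ∀ y : ℤ, lat16 μ s κ ((a : ℤ), y) = (y : ℝ) - x₀ := fun y => by
    rw [lat_line99 hκ, hx₀]
    push_cast
    ring
  have f1 := Int.floor_le x₀
  have f2 := Int.lt_floor_add_one x₀
  have hy1 : |((⌊x₀⌋ : ℤ) : ℝ) - x₀| ≤ 1 := by
    rw [abs_le]
    constructor <;> linarith
  have hm := (mem_FS.1 ρ.2).1
  unfold Cx.rows at hm
  rw [Finset.mem_product, Finset.mem_Ico, Finset.mem_Icc] at hm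
  obtain ⟨⟨-, m1⟩, m2, m3⟩ := hm
  have hN : (1 : ℝ) ≤ Γ.N := by
    have : 1 ≤ Γ.N := by omega
    exact_mod_cast this
  have haN : (a : ℝ) ≤ Γ.N := by
    have : a ≤ Γ.N := by omega
    exact_mod_cast this
  have hρN : ((ρ.1.1 : ℕ) : ℝ) ≤ Γ.N := by exact_mod_cast m1.le
  have e2 : (1 : ℝ) ≤ (ρ.1.2 : ℝ) := by exact_mod_cast m2
  have e3 : (ρ.1.2 : ℝ) ≤ 1 + Γ.N := by exact_mod_cast m3
  have ha0 : (0 : ℝ) ≤ a := Nat.cast_nonneg a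
  have hρ0 : (0 : ℝ) ≤ ((ρ.1.1 : ℕ) : ℝ) := Nat.cast_nonneg _
  have g1 : sl μ s * (a : ℝ) ≤ Γ.N := (mul_le_of_le_one_left ha0 s1).trans haN
  have g2 : sl μ s * ((ρ.1.1 : ℕ) : ℝ) ≤ Γ.N := (mul_le_of_le_one_left hρ0 s1).trans hρN
  have g3 : 0 ≤ sl μ s * (a : ℝ) := mul_nonneg s0 ha0
  have g4 : 0 ≤ sl μ s * ((ρ.1.1 : ℕ) : ℝ) := mul_nonneg s0 hρ0
  have hyN : |(⌊x₀⌋ : ℤ)| ≤ 4 * (Γ.N : ℤ) := by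
    have h1 : |((⌊x₀⌋ : ℤ) : ℝ)| ≤ 4 * (Γ.N : ℝ) := by
      rw [abs_le]
      constructor <;> linarith
    exact_mod_cast h1
  refine ⟨⌊x₀⌋, by rw [hl]; exact hy1, fun {M' p'} h1 h2 h3 y => ?_⟩
  rw [hl]
  exact hT h1 h2 h3 ha ht ht' hyN (hy1.trans (one_le_mul_of_one_le_of_one_le hK₁ hw))

/-- **THE TOP, ALL THE PLACES WITHIN A WIDTH**: the form `D2a4` / `D2r67` / `D2f99` for the context itself. -/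
theorem topa99 (s0 : 0 ≤ sl μ s) (s1 : sl μ s ≤ 1) (hs : Γ.s = s) (hT : Top99 μ s Γ G mt Qe σ₄ K₁ η) (hK₁ : 1 ≤ K₁) {a t : ℕ}
    (hw : 0 ≤ wd μ s t) (hwN : wd μ s t + 1 ≤ 2 * (Γ.N : ℝ)) (ha : a + 1 ≤ Γ.N) (ht : G.T0 ≤ t) (ht' : t ≤ 8 * G.K ^ 2 * G.T mt)
    (ρ : XS Γ G mt) {κ : Pt} (hκ : (κ.2 : ℝ) - sl μ s * (κ.1 : ℝ) = (ρ.1.2 : ℝ) - sl μ s * (ρ.1.1 : ℝ)) (y y' : ℤ)
    (hy' : |lat16 μ s κ ((a : ℤ), y')| ≤ 1 * wd μ s t) :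
    bh16 μ s Γ.h η Γ.p Γ.M Γ.N a y ≤
      Real.exp ((Qe + σ₄ * (|lat16 μ s κ ((a : ℤ), y)| / wd μ s t)) * EE μ s t) * bh16 μ s Γ.h η Γ.p Γ.M Γ.N a y' := by
  obtain ⟨x₀, hx₀⟩ : ∃ x₀ : ℝ, x₀ = ((ρ.1.2 : ℝ) - sl μ s * (ρ.1.1 : ℝ)) + sl μ s * (a : ℝ) := ⟨_, rfl⟩
  have hl : ∀ y : ℤ, lat16 μ s κ ((a : ℤ), y) = (y : ℝ) - x₀ := fun y => by
    rw [lat_line99 hκ, hx₀]
    push_cast
    ring
  rw [hl, one_mul] at hy'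
  rw [hl]
  have hm := (mem_FS.1 ρ.2).1
  unfold Cx.rows at hm
  rw [Finset.mem_product, Finset.mem_Ico, Finset.mem_Icc] at hm
  obtain ⟨⟨-, m1⟩, m2, m3⟩ := hm
  have haN : (a : ℝ) ≤ Γ.N := by
    have : a ≤ Γ.N := by omega
    exact_mod_cast this
  have hρN : ((ρ.1.1 : ℕ) : ℝ) ≤ Γ.N := by exact_mod_cast m1.le
  have e2 : (1 : ℝ) ≤ (ρ.1.2 : ℝ) := by exact_mod_cast m2
  have e3 : (ρ.1.2 : ℝ) ≤ 1 + Γ.N := by exact_mod_cast m3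
  have ha0 : (0 : ℝ) ≤ a := Nat.cast_nonneg a
  have hρ0 : (0 : ℝ) ≤ ((ρ.1.1 : ℕ) : ℝ) := Nat.cast_nonneg _
  have g1 : sl μ s * (a : ℝ) ≤ Γ.N := (mul_le_of_le_one_left ha0 s1).trans haN
  have g2 : sl μ s * ((ρ.1.1 : ℕ) : ℝ) ≤ Γ.N := (mul_le_of_le_one_left hρ0 s1).trans hρN
  have g3 : 0 ≤ sl μ s * (a : ℝ) := mul_nonneg s0 ha0
  have g4 : 0 ≤ sl μ s * ((ρ.1.1 : ℕ) : ℝ) := mul_nonneg s0 hρ0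
  have h5 := abs_le.1 hy'
  have hyN : |y'| ≤ 4 * (Γ.N : ℤ) := by
    have h1 : |(y' : ℝ)| ≤ 4 * (Γ.N : ℝ) := by
      rw [abs_le]
      constructor <;> linarith [h5.1, h5.2]
    exact_mod_cast h1
  refine hT le_rfl (fun k hk => by rw [Cx.p, if_pos hk, hs]) (fun k hk => by rw [Cx.p, if_neg (by omega), hs]) ha ht ht' hyN
    (hy'.trans ?_)
  exact le_mul_of_one_le_left hw hK₁

/-- The rows of the cuts near an own site are below the end. -/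
theorem row99 {ρ : XS Γ G mt} {v : ℕ} {d : Cut (ℤ × ℤ)} (hb : RB (gj Γ G mt) ρ v d) (hv : v < mt) :
    0 ≤ d.row ∧ d.row.toNat + 1 ≤ Γ.N := by
  obtain ⟨b1, b2⟩ := hb
  have h1 := (mem_FS.1 ρ.2).2
  have h2 : 8 * G.T v ≤ G.T mt := by
    refine le_trans ?_ (G.T_mono (show v + 1 ≤ mt from hv))
    rw [T_succ99]
    exact Nat.mul_le_mul_right _ G.hK
  have h3 := G.T_pos v
  have e1 : (gj Γ G mt).T v = G.T v := rfl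
  have e2 : (gj Γ G mt).row ρ = (ρ.1.1 : ℤ) := rfl
  rw [e1, e2] at b1 b2
  omega

/-- **`hTop` OF `d2own67`** in the geometry of a context, at every scale `v` of `[v₁, v₂]`, `v₂ < mt`. -/
theorem htop99 (s0 : 0 ≤ sl μ s) (s1 : sl μ s ≤ 1) (hs : Γ.s = s) (hT : Top99 μ s Γ G mt Qe σ₄ K₁ η) (hK₁ : 1 ≤ K₁)
    (ρ : XS Γ G mt) {κ : Pt} (hv : G.v = sl μ s) (hκ : (κ.2 : ℝ) - sl μ s * (κ.1 : ℝ) = G.lat ρ.1) {v₁ v₂ : ℕ} (hv₂ : v₂ < mt)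
    (hw : ∀ v, v₁ ≤ v → v ≤ v₂ → 1 ≤ wd μ s (hs67 (gj Γ G mt) v)) (v : ℕ) (a : ℤ) (h1 : v₁ ≤ v) (h2 : v ≤ v₂)
    (ha : (gj Γ G mt).row ρ ≤ a) (ha' : a ≤ (gj Γ G mt).row ρ + 4 * (gj Γ G mt).T v) (y y' : ℤ) (hy' : |lat16 μ s κ (a, y')| ≤ 1) :
    bh16 μ s Γ.h η Γ.p Γ.M Γ.N a.toNat y ≤
      Real.exp ((Qe + σ₄ * (|lat16 μ s κ (a, y)| / wd μ s (hs67 (gj Γ G mt) v))) * EE μ s (hs67 (gj Γ G mt) v)) *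
        bh16 μ s Γ.h η Γ.p Γ.M Γ.N a.toNat y' := by
  have e2 : (gj Γ G mt).row ρ = (ρ.1.1 : ℤ) := rfl
  have e1 : (gj Γ G mt).T v = G.T v := rfl
  have e3 : hs67 (gj Γ G mt) v = 8 * G.K ^ 2 * G.T v := rfl
  have hw1 := hw v h1 h2
  rw [e3] at hw1
  rw [e2] at ha
  rw [e1, e2] at ha'
  rw [e3]
  have ha0 : 0 ≤ a := le_trans (Int.natCast_nonneg _) ha
  have m6 := (mem_FS.1 ρ.2).2
  have m7 : 8 * G.T v ≤ G.T mt := by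
    refine le_trans ?_ (G.T_mono (show v + 1 ≤ mt by omega))
    rw [T_succ99]
    exact Nat.mul_le_mul_right _ G.hK
  have m8 := G.T_pos v
  have haN : a.toNat + 1 ≤ Γ.N := by omega
  have ecast : ((a.toNat : ℕ) : ℤ) = a := Int.toNat_of_nonneg ha0
  have hκ' : (κ.2 : ℝ) - sl μ s * (κ.1 : ℝ) = (ρ.1.2 : ℝ) - sl μ s * (ρ.1.1 : ℝ) := by
    rw [hκ, ← hv]
    rfl
  have hT0 : G.T0 ≤ 8 * G.K ^ 2 * G.T v := by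
    have e1 : G.T 0 = G.T0 := by
      show G.T0 * G.K ^ 0 = G.T0
      rw [pow_zero, mul_one]
    rw [← e1]
    refine (G.T_mono (Nat.zero_le v)).trans (Nat.le_mul_of_pos_left _ ?_)
    have := G.hK
    positivity
  have htt : 8 * G.K ^ 2 * G.T v ≤ 8 * G.K ^ 2 * G.T mt := Nat.mul_le_mul_left _ (G.T_mono (by omega))
  obtain ⟨x₀, hx₀⟩ : ∃ x₀ : ℝ, x₀ = ((ρ.1.2 : ℝ) - sl μ s * (ρ.1.1 : ℝ)) + sl μ s * ((a.toNat : ℕ) : ℝ) := ⟨_, rfl⟩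
  have hl : ∀ y : ℤ, lat16 μ s κ (a, y) = (y : ℝ) - x₀ := fun y => by
    have h3 := lat_line99 hκ' ((a.toNat : ℕ) : ℤ) y
    rw [ecast] at h3
    rw [h3, hx₀]
    have h4 : ((a.toNat : ℕ) : ℝ) = (a : ℝ) := by exact_mod_cast ecast
    rw [h4]
  rw [hl] at hy'
  rw [hl]
  have hm := (mem_FS.1 ρ.2).1
  unfold Cx.rows at hm
  rw [Finset.mem_product, Finset.mem_Ico, Finset.mem_Icc] at hm
  obtain ⟨⟨-, m1⟩, m2, m3⟩ := hm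
  have hN1 : (1 : ℝ) ≤ Γ.N := by
    have : 1 ≤ Γ.N := by omega
    exact_mod_cast this
  have haN' : ((a.toNat : ℕ) : ℝ) ≤ Γ.N := by
    have : a.toNat ≤ Γ.N := by omega
    exact_mod_cast this
  have hρN : ((ρ.1.1 : ℕ) : ℝ) ≤ Γ.N := by exact_mod_cast m1.le
  have e2' : (1 : ℝ) ≤ (ρ.1.2 : ℝ) := by exact_mod_cast m2
  have e3' : (ρ.1.2 : ℝ) ≤ 1 + Γ.N := by exact_mod_cast m3
  have ha0' : (0 : ℝ) ≤ ((a.toNat : ℕ) : ℝ) := Nat.cast_nonneg _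
  have hρ0 : (0 : ℝ) ≤ ((ρ.1.1 : ℕ) : ℝ) := Nat.cast_nonneg _
  have g1 : sl μ s * ((a.toNat : ℕ) : ℝ) ≤ Γ.N := (mul_le_of_le_one_left ha0' s1).trans haN'
  have g2 : sl μ s * ((ρ.1.1 : ℕ) : ℝ) ≤ Γ.N := (mul_le_of_le_one_left hρ0 s1).trans hρN
  have g3 : 0 ≤ sl μ s * ((a.toNat : ℕ) : ℝ) := mul_nonneg s0 ha0'
  have g4 : 0 ≤ sl μ s * ((ρ.1.1 : ℕ) : ℝ) := mul_nonneg s0 hρ0
  have h5 := abs_le.1 hy'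
  have hyN : |y'| ≤ 4 * (Γ.N : ℤ) := by
    have h1 : |(y' : ℝ)| ≤ 4 * (Γ.N : ℝ) := by
      rw [abs_le]
      constructor <;> linarith [h5.1, h5.2]
    exact_mod_cast h1
  exact hT le_rfl (fun k hk => by rw [Cx.p, if_pos hk, hs]) (fun k hk => by rw [Cx.p, if_neg (by omega), hs]) haN hT0 htt hyN
    (hy'.trans (one_le_mul_of_one_le_of_one_le hK₁ hw1))

/-- **The constant.** -/
theorem cn99 {Q₀ a y β σ₀ : ℝ} {pw : ℕ} (hQ : 0 ≤ Q₀) (ha : 0 ≤ a) (hy : 1 ≤ y) (hβ : 0 ≤ β) (hσ : 0 < σ₀) (k : ℕ) :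
    Q₀ * ((1 + a * y ^ (k + 1)) ^ 4 * β ^ k / σ₀) ^ pw ≤ Q₀ * ((1 + a * y) ^ 4 / σ₀) ^ pw * ((y ^ 4 * β) ^ pw) ^ k := by
  have h1 : 1 + a * y ^ (k + 1) ≤ (1 + a * y) * y ^ k := by
    have h2 : (1 : ℝ) ≤ y ^ k := one_le_pow₀ hy
    calc 1 + a * y ^ (k + 1) = 1 + a * y * y ^ k := by ring
      _ ≤ y ^ k + a * y * y ^ k := by linarith
      _ = _ := by ring
  have h0 : 0 ≤ 1 + a * y ^ (k + 1) := by positivity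
  rw [mul_assoc]
  refine mul_le_mul_of_nonneg_left ?_ hQ
  rw [← pow_mul, mul_comm pw k, pow_mul (y ^ 4 * β) k pw, ← mul_pow]
  refine pow_le_pow_left₀ (by positivity) ?_ _
  have h3 := pow_le_pow_left₀ h0 h1 4
  calc (1 + a * y ^ (k + 1)) ^ 4 * β ^ k / σ₀ ≤ ((1 + a * y) * y ^ k) ^ 4 * β ^ k / σ₀ := by gcongr
    _ = _ := by rw [mul_pow, mul_pow (y ^ 4) β, ← pow_mul, ← pow_mul, mul_comm 4 k]; ring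

/-- **(D2) AT THE BOTTOM OF A LONG PIECE, FROM THE CRUDE TOP**: the header of `pcD2_67` in the geometry of a context, (D2)-above replaced by
`Top99`, the switch row anywhere. -/
theorem d2T99 [IsProbabilityMeasure μ] (h0 : In μ s c C n₀) : ∃ pw : ℕ, ∀ {θn : ℝ}, 0 < θn → ∀ K0 : ℕ, ∃ K₂ : ℕ, 16 ≤ K₂ ∧
    ∀ b : ℕ, ∃ g₀ Lm₀ : ℝ, 1 < g₀ ∧ g₀ ^ 2 ≤ 2 ∧ 1 ≤ Lm₀ ∧ ∀ K₁ : ℝ, 1 ≤ K₁ → ∃ Rm : ℝ, ∀ (P : ℕ) {θ K B₂ : ℝ}, 0 < θ → 10 ≤ K →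
    2 ≤ B₂ → 32 * θ * (b : ℝ) ^ 2 ≤ 1 → ∀ Y Bp δ : ℝ, 8 ≤ Y → 2 ≤ Bp → 0 < δ → δ ≤ θ * sl μ s → δ ≤ θ * (1 - sl μ s) →
    ∃ (Q₀ : ℝ) (n₁ : ℕ), 1 ≤ Q₀ ∧ 1 ≤ n₁ ∧ ∀ {x : ℝ} {ρ' : ℕ}, 1 < x → 1 ≤ ρ' → ∃ Cy : ℝ, 1 ≤ Cy ∧
    ∀ {σ₀ Q₄ : ℝ}, 0 < σ₀ → σ₀ ≤ 1 → 0 ≤ Q₄ → ∃ m₀ : ℕ, 4 ≤ m₀ ∧
    ∀ {c₀ δ₁ c₁ A₉ aa g₉ Y₁ : ℝ} {Kb n₃ : ℕ}, Cs94 μ s c₀ δ₁ c₁ A₉ aa g₉ θn Y₁ K0 Kb n₃ → 64 * b ≤ Kb → 8 * Y₁ ≤ Y → 64 ≤ c₁ * Y →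
    ∀ {q₀ th β : ℝ} {Cn R : ℕ}, 0 ≤ q₀ → 1 ≤ th → (th * x) ^ 2 ≤ 2 → 1 ≤ β → β ≤ 2 → 1 ≤ Cn → B₂ ≤ β ^ Cn → ρ' ^ Cn ≤ R → Rm ≤ R →
    ∀ {Γ : Cx} {Gm₀ : Gm} {mt : ℕ} {η : Env} {Qe σ₄ K₃ : ℝ}, Γ.s = s → Top99 μ s Γ Gm₀ mt Qe σ₄ K₃ η → 1 ≤ K₃ →
    ∀ {Z : List (Cut (ℤ × ℤ))} {ρ : XS Γ Gm₀ mt} {u : ℕ} {cs : ℕ → Cut (ℤ × ℤ)} {i₀ f m D : ℕ}
      {A a g A' a' g' B₁ θs Lm es : ℝ} {n₁s : ℕ} {F : Cut (ℤ × ℤ) → Cut (ℤ × ℤ) → ℝ → Set Env} {E : Cut (ℤ × ℤ) → Cut (ℤ × ℤ) → Set Env}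
      {E3 : Cut (ℤ × ℤ) → Cut (ℤ × ℤ) → Cut (ℤ × ℤ) → Set Env} {X : Cut (ℤ × ℤ) → Cut (ℤ × ℤ) → Cut (ℤ × ℤ) → Env → ℕ} {κ : Pt},
      Gm₀.K = b → K₂ ≤ Gm₀.K → LvF μ A a g F →
      LvF μ A' a' g' (stF6 μ s B₁ B₂ δ θs Lm n₁s (fun a b => hs67 (gj Γ Gm₀ mt) (lb6 a b)) (fun a => wg67 μ s (gj Γ Gm₀ mt) a.sc)
        (ceC6 Gm₀.latC (sl μ s)) es) →
      (∀ a b q, F a b q ⊆ lvS μ s c θ (K + 2) P (fun a b => hs67 (gj Γ Gm₀ mt) (lb6 a b)) (colC6 Gm₀.latC (sl μ s)) a b q) →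
      (∀ a b e η, dpX6 μ s c₀ δ₁ θn Y Kb n₃ R (wN6 μ s (tN6 (gj Γ Gm₀ mt))) (qN6 μ s (tN6 (gj Γ Gm₀ mt)))
        (fun _ b _ => colC6 Gm₀.latC (sl μ s) b) a b e η ≤ X a b e η) →
      Ok6 ∅ (dLI6 F (stF6 μ s B₁ B₂ δ θs Lm n₁s (fun a b => hs67 (gj Γ Gm₀ mt) (lb6 a b)) (fun a => wg67 μ s (gj Γ Gm₀ mt) a.sc)
        (ceC6 Gm₀.latC (sl μ s)) es) E q₀ th D)
        (dNI6 X Cn F E3 q₀ th D) lb6 lbN6 Z u η →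
      (∀ i, i + 1 < Z.length → ∃ P Q, Z = P ++ cs i :: cs (i + 1) :: Q) →
      (∀ i, i + 2 < Z.length → ∃ P Q, Z = P ++ cs i :: cs (i + 1) :: cs (i + 2) :: Q) →
      Pc6 (gj Γ Gm₀ mt) ρ cs i₀ f (m + 1) Z.length → u ≤ f → f + m + 1 < u + D → m₀ ≤ m → f + m + 1 < mt →
      (κ.2 : ℝ) - sl μ s * (κ.1 : ℝ) = Gm₀.lat ρ.1 → Gm₀.v = sl μ s →
      (∀ k, k ≤ m + 1 → |Gm₀.latC (cs (i₀ + k)) - Gm₀.lat ρ.1| ≤ (ρ' : ℝ) ^ (f + k - u) * wd μ s (Gm₀.T (f + k))) →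
      -- sizes
      n₁ ≤ Gm₀.T0 → 16 * n₃ ≤ Gm₀.T0 → n₁s ≤ Gm₀.T0 → (∀ v, (Γ.N : ℝ) + 1 ≤ Real.exp (EE μ s (4 * Gm₀.T v))) →
      (∀ v, f < v → v ≤ f + m + 1 → |Γ.h| * wd μ s (8 * Gm₀.K ^ 2 * Gm₀.T v) ≤ c / 8 * EE μ s (8 * Gm₀.K ^ 2 * Gm₀.T v)) →
      16 * (|Γ.h| * Gm₀.T (f + m)) ≤ 1 → 1 ≤ wd μ s (8 * Gm₀.K ^ 2 * Gm₀.T (f + m + 1)) →
      -- the steep levels
      2 * Bp ≤ B₁ → 32 * θs * (b : ℝ) ^ 2 ≤ 1 → Lm₀ ≤ Lm → 0 ≤ es → es ≤ 1 → (ρ' : ℝ) ^ es ≤ x →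
      -- the levels, the crude top
      1 + 3 * q₀ * Cy * (th * x) ^ (f + m + 1 - u) ≤ Q₄ * g₀ ^ m → 0 ≤ σ₄ → σ₄ ≤ c / 64 → Qe ≤ Q₄ * g₀ ^ m →
      ∀ y y' : ℤ, |lat16 μ s κ ((cs i₀).row, y')| ≤ K₁ * wd μ s (8 * Gm₀.K ^ 2 * Gm₀.T (f + 1)) →
        bh16 μ s Γ.h η Γ.p Γ.M Γ.N (cs i₀).row.toNat y ≤
          Real.exp (((Q₀ + 1) * ((1 + 3 * q₀ * Cy * (th * x) ^ (f + 1 - u)) ^ 4 * β ^ (f - u) / σ₀) ^ pw +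
            σ₀ * (|lat16 μ s κ ((cs i₀).row, y)| / wd μ s (8 * Gm₀.K ^ 2 * Gm₀.T (f + 1)))) * EE μ s (8 * Gm₀.K ^ 2 * Gm₀.T (f + 1))) *
            bh16 μ s Γ.h η Γ.p Γ.M Γ.N (cs i₀).row.toNat y' := by
  obtain ⟨pw, H⟩ := pcD2_67 h0
  refine ⟨pw, fun {θn} hθn K0 => ?_⟩
  obtain ⟨K₂, hK₂, H⟩ := H hθn K0
  refine ⟨K₂, hK₂, fun b => ?_⟩
  obtain ⟨g₀, Lm₀, hg1, hg2, hL, H⟩ := H b
  refine ⟨g₀, Lm₀, hg1, hg2, hL, fun K₁ hK₁ => ?_⟩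
  obtain ⟨Rm, H⟩ := H K₁ hK₁
  refine ⟨Rm, fun P {θ K B₂} a1 a2 a3 a4 Y Bp δ b1 b2 b3 b4 b5 => ?_⟩
  obtain ⟨Q₀, n₁, hQ₀, hn₁, H⟩ := H P a1 a2 a3 a4 Y Bp δ b1 b2 b3 b4 b5
  refine ⟨Q₀, n₁, hQ₀, hn₁, fun {x ρ'} hx hρ' => ?_⟩
  obtain ⟨Cy, hCy, H⟩ := H hx hρ'
  refine ⟨Cy, hCy, fun {σ₀ Q₄} hσ hσ1 hQ₄ => ?_⟩
  obtain ⟨m₀, hm₀, H⟩ := H hσ hσ1 hQ₄
  refine ⟨m₀, hm₀, ?_⟩
  intro c₀ δ₁ c₁ A₉ aa g₉ Y₁ Kb n₃ hCs hKb hY hcY q₀ th β Cn R hq₀ hth hthx hβ1 hβ2 hCn hB hR hRm Γ G mt η Qe σ₄ K₃ hΓs hT hK₃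
  intro Z ρ u cs i₀ f m D A a g A' a' g' B₁ θs Lm es n₁s F E E3 X κ hGK hK₂G hF hF' hFl hX hOk hpr htr hPc huf hfD hm hmt hκ hv hlat
    hn hn3 hns hNt hforce hsw hw1 hBp hθs hLm hes0 hes1 hρe hlev hσ₄ hσ₄' hQe y y' hy'
  have s0 : 0 ≤ sl μ s := h0.sl_pos.le
  have s1 : sl μ s ≤ 1 := h0.sl_lt.le
  -- the rows
  have hrow : ∀ k, k ≤ m + 1 → 0 ≤ (cs (i₀ + k)).row ∧ (cs (i₀ + k)).row.toNat + 1 ≤ Γ.N := fun k hk =>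
    row99 (hPc.rb k hk) (by omega)
  obtain ⟨ha0, haN⟩ := hrow (m + 1) le_rfl
  have hκ' : (κ.2 : ℝ) - sl μ s * (κ.1 : ℝ) = (ρ.1.2 : ℝ) - sl μ s * (ρ.1.1 : ℝ) := by
    rw [hκ, ← hv]
    rfl
  have hT0 : G.T0 ≤ 8 * G.K ^ 2 * G.T (f + m + 1) := by
    have e1 : G.T 0 = G.T0 := by
      show G.T0 * G.K ^ 0 = G.T0
      rw [pow_zero, mul_one]
    rw [← e1]
    refine (G.T_mono (Nat.zero_le (f + m + 1))).trans (Nat.le_mul_of_pos_left _ ?_)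
    have := G.hK
    positivity
  have htt : 8 * G.K ^ 2 * G.T (f + m + 1) ≤ 8 * G.K ^ 2 * G.T mt := Nat.mul_le_mul_left _ (G.T_mono hmt.le)
  obtain ⟨y₀, hy₀, hD⟩ := top99 s0 s1 hT hK₃ hw1 haN hT0 htt ρ hκ'
  have ecast : (((cs (i₀ + (m + 1))).row.toNat : ℕ) : ℤ) = (cs (i₀ + (m + 1))).row := Int.toNat_of_nonneg ha0
  rw [ecast] at hy₀
  -- the core, for every lower switch row
  have core : ∀ {M' : ℕ} {p' : ℕ → ℝ}, M' ≤ Γ.M → (∀ k, k < M' → p' k = Real.exp (s + Γ.h)) → (∀ k, M' ≤ k → p' k = Real.exp s) →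
      ((M' : ℤ) ≤ (cs i₀).row ∨ (cs (i₀ + m)).row ≤ M') →
      bh16 μ s Γ.h η p' M' Γ.N (cs i₀).row.toNat y ≤
          Real.exp ((Q₀ * ((1 + 3 * q₀ * Cy * (th * x) ^ (f + 1 - u)) ^ 4 * β ^ (f - u) / σ₀) ^ pw +
            σ₀ * (|lat16 μ s κ ((cs i₀).row, y)| / wd μ s (hs67 (gj Γ G mt) (f + 1)))) * EE μ s (hs67 (gj Γ G mt) (f + 1))) *
            bh16 μ s Γ.h η p' M' Γ.N (cs i₀).row.toNat y' := by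
    intro M' p' c1 c2 c3 c4
    refine H hCs hKb hY hcY hq₀ hth hthx hβ1 hβ2 hCn hB hR hRm c2 c3 (G := gj Γ G mt) (lat := fun x => G.lat x.1) (latC := G.latC)
      (Z := Z) (ρ := ρ) (u := u) (cs := cs) (i₀ := i₀) (f := f) (m := m) (D := D) (Lm := Lm) (es := es) (F := F) (E := E) (E3 := E3)
      (X := X) (κ := κ) hGK hK₂G hF hF' hFl hX hOk hpr htr hPc (Int.natCast_nonneg _) huf hfD hm hκ hlat hn hn3 hns hNt hforce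
      (by omega) c4 hBp hθs hLm hes0 hes1 hρe hlev (Qd := Qe) (σ₄ := σ₄) (y₀ := y₀) ?_ hσ₄ hσ₄' hQe ?_ y y' hy'
    · refine hy₀.trans ?_
      have h1 : (2 : ℝ) ≤ (K - 6) / 2 := by linarith
      have h2 : 2 * wd μ s (8 * G.K ^ 2 * G.T (f + m + 1)) ≤ (K - 6) / 2 * wd μ s (8 * G.K ^ 2 * G.T (f + m + 1)) :=
        mul_le_mul_of_nonneg_right h1 (by linarith)
      have h3 : hs67 (gj Γ G mt) (f + m + 1) = 8 * G.K ^ 2 * G.T (f + m + 1) := rfl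
      rw [h3]
      linarith
    · intro z
      have h1 := hD c1 c2 c3 z
      rw [ecast] at h1
      exact h1
  obtain ⟨X₀, hX₀⟩ : ∃ X₀ : ℝ, X₀ = ((1 + 3 * q₀ * Cy * (th * x) ^ (f + 1 - u)) ^ 4 * β ^ (f - u) / σ₀) ^ pw := ⟨_, rfl⟩
  obtain ⟨L₀, hL₀⟩ : ∃ L₀ : ℝ, L₀ = σ₀ * (|lat16 μ s κ ((cs i₀).row, y)| / wd μ s (8 * G.K ^ 2 * G.T (f + 1))) := ⟨_, rfl⟩
  have hXX : 1 ≤ X₀ := by
    rw [hX₀]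
    refine one_le_pow₀ ?_
    rw [one_le_div hσ]
    have hthx1 : 1 ≤ th * x := one_le_mul_of_one_le_of_one_le hth hx.le
    have h1 : 0 ≤ 3 * q₀ * Cy * (th * x) ^ (f + 1 - u) := by positivity
    have h2 : 1 ≤ (1 + 3 * q₀ * Cy * (th * x) ^ (f + 1 - u)) ^ 4 := one_le_pow₀ (by linarith)
    have h3 : 1 ≤ β ^ (f - u) := one_le_pow₀ hβ1
    exact hσ1.trans (one_le_mul_of_one_le_of_one_le h2 h3)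
  rw [← hX₀, ← hL₀]
  have core' : ∀ {M' : ℕ} {p' : ℕ → ℝ}, M' ≤ Γ.M → (∀ k, k < M' → p' k = Real.exp (s + Γ.h)) → (∀ k, M' ≤ k → p' k = Real.exp s) →
      ((M' : ℤ) ≤ (cs i₀).row ∨ (cs (i₀ + m)).row ≤ M') →
      bh16 μ s Γ.h η p' M' Γ.N (cs i₀).row.toNat y ≤ Real.exp ((Q₀ * X₀ + L₀) * EE μ s (8 * G.K ^ 2 * G.T (f + 1))) *
        bh16 μ s Γ.h η p' M' Γ.N (cs i₀).row.toNat y' := by
    rw [hX₀, hL₀]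
    exact core
  have hE1 : 1 ≤ EE μ s (8 * G.K ^ 2 * G.T (f + 1)) := one_le_EE _
  have hp1 : ∀ k, k < Γ.M → Γ.p k = Real.exp (s + Γ.h) := fun k hk => by rw [Cx.p, if_pos hk, hΓs]
  have hp2 : ∀ k, Γ.M ≤ k → Γ.p k = Real.exp s := fun k hk => by rw [Cx.p, if_neg (by omega), hΓs]
  have hb0 : 0 ≤ bh16 μ s Γ.h η Γ.p Γ.M Γ.N (cs i₀).row.toNat y' := Swm70.bh_nonneg70 (fun k => by
    rw [Cx.p]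
    split_ifs <;> exact Real.exp_pos _) _ _ _
  by_cases hcase : (Γ.M : ℤ) ≤ (cs i₀).row ∨ (cs (i₀ + m)).row ≤ Γ.M
  · refine (core' le_rfl hp1 hp2 hcase).trans (mul_le_mul_of_nonneg_right (Real.exp_le_exp.2 ?_) hb0)
    refine mul_le_mul_of_nonneg_right ?_ (by linarith)
    linarith
  · push_neg at hcase
    obtain ⟨k1, k2⟩ := hcase
    obtain ⟨i1, i2⟩ := hPc.rb 0 (by omega)
    obtain ⟨j1, j2⟩ := hPc.rb m (by omega)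
    rw [Nat.add_zero, Nat.add_zero] at i1 i2
    have r0 := (hrow 0 (by omega)).1
    rw [Nat.add_zero] at r0
    have e1 : ((gj Γ G mt).T f : ℤ) = G.T f := rfl
    have e2 : ((gj Γ G mt).T (f + m) : ℤ) = G.T (f + m) := rfl
    rw [e1] at i1 i2
    rw [e2] at j1 j2
    have hM' : (((cs i₀).row.toNat : ℕ) : ℤ) = (cs i₀).row := Int.toNat_of_nonneg r0
    have hS := Swm70.mk70 (s := s) (h := Γ.h) (D := 4 * G.T (f + m)) hp1 hp2 (cs i₀).row.toNat (by omega) (by omega)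
    have h1 := core' (M' := (cs i₀).row.toNat) (p' := Swm70.pr70 s Γ.h (cs i₀).row.toNat) (by omega) hS.q1 hS.q2 (Or.inl (by omega))
    have h2 := Swm70.bh_rat70 (μ := μ) (η := η) hS s0 s1 h1
    refine h2.trans (mul_le_mul_of_nonneg_right (Real.exp_le_exp.2 ?_) hb0)
    have h3 : 4 * (|Γ.h| * ((4 * G.T (f + m) : ℕ) : ℝ)) ≤ 1 := by
      push_cast
      linarith
    nlinarith

end

end Pool.Agent.W_7d29a1_C1.D2T99
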