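import Pool.Agent.W_7d29a1_C1.LayC4
import Pool.Agent.W_7d29a1_C1.CanL6

/-!
MP_7d29a1_pr, the attractor route [C1], TAME: THE LAYERS OF A PIECE ARE A `Lay89`, IN THE CANONICAL LETTERS. (helper4)

`layP4` : any piece (`Pc6`, `Rf6` of OkN6; depths `dLC6`, `dNC6` of CanL6), any line. `layC4` : the clean cuts, `layE4` : the exact cuts,
`layT4` : the tower, on the line of `ρ`; `nodE4` : the nodes of the exact cuts. `w_le4`, `w_mono4`, `col4` : the hypotheses of the model.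
The constants of the levels stand before `C0`, `C2`.
-/

set_option autoImplicit false
set_option linter.unusedSectionVars false
set_option linter.unusedVariables false

namespace Pool.Agent.W_7d29a1_C1.LayH4

open MeasureTheory ProbabilityTheory Finset Filter
open Pool.Agent.W_7d29a1_F Pool.Agent.W_7d29a1_h4g Pool.Agent.W_7d29a1_H Pool.Agent.W_7d29a1_HS
open Pool.Agent.W_7d29a1_C1.H75 Pool.Agent.W_7d29a1_C1.U16 Pool.Agent.W_7d29a1_C1.H40 Pool.Agent.W_7d29a1_C1.S71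
open Pool.Agent.W_7d29a1_C1.FarK89 Pool.Agent.W_7d29a1_C1.SysN89 Pool.Agent.W_7d29a1_C1.Dep6 Pool.Agent.W_7d29a1_C1.RB6
open Pool.Agent.W_7d29a1_C1.G37 (Gm)
open Pool.Agent.W_7d29a1_C1.LayC4

noncomputable section

variable {μ : Measure ℝ} [IsProbabilityMeasure μ] {s c C : ℝ} {n₀ : ℕ}

/-! ### The model -/

section Num

variable {G : Gm}

/-- The width of a scale and the width of the height of the next label. -/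
theorem w_le4 (h0 : In μ s c C n₀) (hw : ∀ u, G.w u = wd μ s (G.T u)) (v : ℕ) : G.w v ≤ wd μ s (HsC6 G (v + 1)) := by
  have h1 := G.w_two v
  rw [hw (v + 1)] at h1
  have h2 := Pool.Agent.W_7d29a1_HS.wd_le_two h0 (m := G.T (v + 1)) (n := HsC6 G (v + 1)) (G.T_pos _)
    (by have := le_HsC6 (G := G) (v + 1); omega)
  linarith

theorem w_mono4 (v : ℕ) : G.w v ≤ G.w (v + 1) := by
  have h1 := G.w_two v
  have h2 := G.w_pos v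
  linarith

theorem w_pos4 (v : ℕ) : 0 ≤ G.w v := (G.w_pos v).le

/-- The column of a cut. -/
theorem col4 (a : Cut (ℤ × ℤ)) : |(colG6 μ s G a : ℝ) - sl μ s * (a.row : ℝ) - G.latC a| ≤ 1 := colC6_lat G.latC (sl μ s) a

/-- The growth is monotone. -/
theorem gr_mono4 (P : ℕ) {x y : ℝ} (hx : 0 ≤ x) (h : x ≤ y) : gr P x ≤ gr P y := by
  unfold gr
  have h1 : Real.log (1 + x) ≤ Real.log (1 + y) := Real.log_le_log (by linarith) (by linarith)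
  have h2 : 0 ≤ Real.log (1 + x) := Real.log_nonneg (by linarith)
  exact pow_le_pow_left₀ (by linarith) (by linarith) P

theorem Tk4 (v : ℕ) : HsC6 G v = 8 * G.K ^ 2 * G.T v := rfl

end Num

/-! ### Any piece -/

/-- **THE FAR LEVELS OF A PIECE**, any line. -/
theorem layP4 (h0 : In μ s c C n₀) : ∃ n₂ : ℕ, 1 ≤ n₂ ∧
    ∀ {G : Gm} {T : Tc6} {A a g A' a' g' : ℝ} {E : Cut (ℤ × ℤ) → Cut (ℤ × ℤ) → Set Env}
      {E3 : Cut (ℤ × ℤ) → Cut (ℤ × ℤ) → Cut (ℤ × ℤ) → Set Env} {D : ℕ} {Sw : Finset ℤ} {Z : List (Cut (ℤ × ℤ))} {u : ℕ} {η : Env}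
      {σ : Type*} {Gg : Geo σ (ℤ × ℤ)} {ρ : σ} {cs : ℕ → Cut (ℤ × ℤ)} {i₀ f m o : ℕ} {r Tn : ℕ → ℕ},
    Sm6 Gg G → Tg6 μ s c G T A a g A' a' g' → Ok6 Sw (dLC6 μ s c G T E D) (dNC6 μ s c G T E3 D) lb6 lbN6 Z u η →
    Pc6 Gg ρ cs i₀ f m Z.length → Rf6 Gg cs i₀ f m o r Tn → (∀ i, i + 1 < Z.length → ∃ P Q, Z = P ++ cs i :: cs (i + 1) :: Q) →
    16 ≤ G.K → 0 ≤ T.θ → T.θ * (32 * G.K ^ 2) ≤ 1 →
    ∀ {K' : ℝ} {Tt : ℕ → ℕ} {q Y : ℕ → ℝ} {κ : Pt} {x hh : ℝ} {Tp n₁ : ℕ}, K' + 2 ≤ T.K → (∀ k < m, Tt (o + k) = HsC6 G (f + (k + 1))) →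
    n₂ ≤ n₁ → n₁ ≤ HsC6 G (f + 1) → HsC6 G (f + m) ≤ Tp → |hh| * wd μ s Tp ≤ c / 8 * EE μ s Tp →
    (κ.2 : ℝ) - sl μ s * (κ.1 : ℝ) = x → (∀ k < m, 0 ≤ Y k) →
    (∀ k < m, |G.latC (cs (i₀ + k)) - x| ≤ Y k * wd μ s (HsC6 G (f + (k + 1)))) → (∀ k < m, ds4 u (f + (k + 1)) < D) →
    (∀ k < m, T.q₀ * T.Th ^ ds4 u (f + (k + 1)) * gr T.P (3 + Y k) ≤ q (o + k)) →
    ∃ bs : ℕ → Pt, (∀ k < m, 0 ≤ lat16 μ s κ (bs (o + k)) ∧ lat16 μ s κ (bs (o + k)) < 1 ∧ (bs (o + k)).1 = (cs (i₀ + k)).row) ∧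
      Lay89 μ s c T.θ K' hh T.P η κ r Tt (fun v => r (v + 1) - r v) q bs o (o + m) n₁ := by
  obtain ⟨n₂, hn₂⟩ := eventually_atTop.1 ((wd_tendsto h0).eventually_ge_atTop 1)
  refine ⟨max n₂ 1, le_max_right _ _, ?_⟩
  intro G T A a g A' a' g' E E3 D Sw Z u η σ Gg ρ cs i₀ f m o r Tn hs hT ho h hr hpr hK hθ0 hθ K' Tt q Y κ x hh Tp n₁ hKK hTt hn₁ hn₁T hTp
    hforce hκ hY hlat hD hq
  have hT1 : ∀ k < m, n₁ ≤ HsC6 G (f + (k + 1)) := fun k hk => hn₁T.trans (HsC6_mono (by omega))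
  have hwd : ∀ k < m, 1 ≤ wd μ s (HsC6 G (f + (k + 1))) := fun k hk => hn₂ _ (((le_max_left _ _).trans hn₁).trans (hT1 k hk))
  have hrows : ∀ k < m, r (o + k) ≤ r (o + (k + 1)) ∧ r (o + (k + 1)) ≤ r (o + k) + 4 * G.T (f + (k + 1)) ∧
      4 * G.T (f + (k + 1)) ≤ 16 * (r (o + (k + 1)) - r (o + k)) := fun k hk => by
    have e1 := h.rows6 hr (by rw [hs.K]; exact hK) hk
    have e2 : Tn (o + k) = 4 * Gg.T (f + (k + 1)) := hr.t_eq k hk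
    rw [e2, hs.Teq] at e1
    exact e1
  have hH : ∀ k < m, 4 * G.T (f + (k + 1)) ≤ HsC6 G (f + (k + 1)) := fun k hk => by
    have := le_HsC6 (G := G) (f + (k + 1))
    omega
  have hgt : ∀ k < m, hg6 (HfC6 G) (cs (i₀ + k)) (cs (i₀ + (k + 1))) = HsC6 G (f + (k + 1)) := fun k hk => by
    rw [hgC6, h.lb_eq6 hk]
    rw [Pc6.nR6 hr hk, h.lb_eq6 hk]
    have e1 := hrows k hk
    have e2 := hH k hk
    omega
  have key : ∀ k, k < m → ∃ b : Pt, b.1 = (cs (i₀ + k)).row ∧ 0 ≤ lat16 μ s κ b ∧ lat16 μ s κ b < 1 ∧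
      η ∈ Far16 μ s c T.θ K' (HsC6 G (f + (k + 1))) (r (o + (k + 1)) - r (o + k)) T.P b (q (o + k)) := by
    intro k hk
    have hlt := h.lt
    obtain ⟨P', Q', e⟩ := hpr (i₀ + k) (by omega)
    have e1 := farC6 hT ho e (l := ds4 u (f + (k + 1))) (by
      rw [show i₀ + k + 1 = i₀ + (k + 1) by ring, h.lb_eq6 hk]; exact ds4_le _ _) (by
      rw [show i₀ + k + 1 = i₀ + (k + 1) by ring, h.lb_eq6 hk]; exact ds4_le' _ _) (hD k hk)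
    rw [show i₀ + k + 1 = i₀ + (k + 1) by ring, hgt k hk, Pc6.nR6 hr hk] at e1
    have e2 : |lat16 μ s κ ((cs (i₀ + k)).row, colG6 μ s G (cs (i₀ + k)))| ≤ (Y k + 1) * wd μ s (HsC6 G (f + (k + 1))) := by
      have e3 := lat_ctr4 (μ := μ) (s := s) hκ.symm (col4 (μ := μ) (s := s) (cs (i₀ + k))) (hlat k hk)
      have e4 := hwd k hk
      linarith
    have e5 : 0 ≤ T.q₀ * T.Th ^ ds4 u (f + (k + 1)) := mul_nonneg hT.q0 (pow_nonneg (zero_le_one.trans hT.th) _)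
    obtain ⟨b, b1, b2, b3, b4⟩ := line16 (b := ((cs (i₀ + k)).row, colG6 μ s G (cs (i₀ + k)))) e5 (hwd k hk) hKK
      (by linarith [hY k hk]) e2 e1
    rw [show (2 : ℝ) + (Y k + 1) = 3 + Y k by ring] at b4
    exact ⟨b, b1, b2, b3, Far16_mono (hq k hk) _ _ _ _ b4⟩
  choose! bs hbs using key
  have hb : ∀ v, o ≤ v → v < o + m → v - o < m ∧ o + (v - o) = v := fun v h1 h2 => ⟨by omega, by omega⟩
  refine ⟨fun v => bs (v - o), fun k hk => ?_, ?_⟩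
  · show 0 ≤ lat16 μ s κ (bs (o + k - o)) ∧ lat16 μ s κ (bs (o + k - o)) < 1 ∧ (bs (o + k - o)).1 = (cs (i₀ + k)).row
    rw [Nat.add_sub_cancel_left]
    obtain ⟨a1, a2, a3, -⟩ := hbs k hk
    exact ⟨a2, a3, a1⟩
  have P : ∀ v, o ≤ v → v < o + m → ∃ k < m, v = o + k ∧ bs (v - o) = bs k := fun v h1 h2 =>
    ⟨v - o, (hb v h1 h2).1, by omega, rfl⟩
  refine ⟨fun v h1 h2 => ?_, fun v h1 h2 => ?_, fun v h1 h2 => ?_, fun v h1 h2 => ?_, fun v h1 h2 => ?_, fun v h1 h2 => ?_,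
    fun v h1 h2 => ?_, fun v h1 h2 => ?_, fun v h1 h2 => ?_, fun v h1 h2 => ?_⟩
  all_goals obtain ⟨k, hk, e, eb⟩ := P v h1 h2
  · rw [e]
    refine le_trans ?_ (hq k hk)
    have e5 : 0 ≤ T.q₀ * T.Th ^ ds4 u (f + (k + 1)) := mul_nonneg hT.q0 (pow_nonneg (zero_le_one.trans hT.th) _)
    refine mul_nonneg e5 ?_
    have := hY k hk
    unfold gr
    have h3 : 0 ≤ Real.log (1 + (3 + Y k)) := Real.log_nonneg (by linarith)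
    positivity
  · rw [e, hTt k hk]
    exact hT1 k hk
  · show r (v + 1) - r v ≤ Tt v
    rw [e, hTt k hk, Nat.add_assoc]
    have e1 := hrows k hk
    have e2 := hH k hk
    omega
  · rw [e, Nat.add_assoc]
    exact (hrows k hk).1
  · show (bs (v - o)).1 ≤ (r v : ℤ)
    rw [eb, (hbs k hk).1, e, hr.r_eq k hk.le]
  · show (r (v + 1) : ℤ) ≤ (bs (v - o)).1 + ((r (v + 1) - r v : ℕ) : ℤ)
    rw [eb, (hbs k hk).1, e, Nat.add_assoc, ← hr.r_eq k hk.le]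
    have e1 := (hrows k hk).1
    omega
  · show |lat16 μ s κ (bs (v - o))| ≤ wd μ s (Tt v)
    rw [eb, e, hTt k hk]
    obtain ⟨a1, a2, a3, -⟩ := hbs k hk
    rw [abs_of_nonneg a2]
    exact a3.le.trans (hwd k hk)
  · show η ∈ Far16 μ s c T.θ K' (Tt v) (r (v + 1) - r v) T.P (bs (v - o)) (q v)
    rw [eb, e, hTt k hk, Nat.add_assoc]
    exact (hbs k hk).2.2.2
  · rw [e, hTt k hk]
    have hEt := EE_pos (μ := μ) (s := s) Tp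
    have hEu := EE_pos (μ := μ) (s := s) (HsC6 G (f + (k + 1)))
    have h2' := wd_growth_one h0 (HsC6_pos (G := G) (f + (k + 1))) ((HsC6_mono (by omega)).trans hTp)
    have h4 : |hh| * wd μ s (HsC6 G (f + (k + 1))) * EE μ s Tp ≤ |hh| * (2 * EE μ s (HsC6 G (f + (k + 1))) * wd μ s Tp) := by
      rw [mul_assoc]
      exact mul_le_mul_of_nonneg_left h2' (abs_nonneg hh)
    have h5 : 2 * EE μ s (HsC6 G (f + (k + 1))) * (|hh| * wd μ s Tp) ≤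
        2 * EE μ s (HsC6 G (f + (k + 1))) * (c / 8 * EE μ s Tp) := mul_le_mul_of_nonneg_left hforce (by positivity)
    have h6 : |hh| * wd μ s (HsC6 G (f + (k + 1))) * EE μ s Tp ≤ c / 4 * EE μ s (HsC6 G (f + (k + 1))) * EE μ s Tp := by
      calc _ ≤ |hh| * (2 * EE μ s (HsC6 G (f + (k + 1))) * wd μ s Tp) := h4
        _ = 2 * EE μ s (HsC6 G (f + (k + 1))) * (|hh| * wd μ s Tp) := by ring
        _ ≤ _ := h5
        _ = _ := by ring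
    exact le_of_mul_le_mul_right h6 hEt
  · rw [e, hTt k hk, Nat.add_assoc]
    obtain ⟨e1, e2, e3⟩ := hrows k hk
    have e4 : ((G.T (f + (k + 1)) : ℕ) : ℝ) ≤ 4 * (r (o + (k + 1)) - r (o + k) : ℕ) := by exact_mod_cast (show G.T (f + (k + 1)) ≤
      4 * (r (o + (k + 1)) - r (o + k)) by omega)
    have hT0 : (0 : ℝ) ≤ G.T (f + (k + 1)) := Nat.cast_nonneg _
    rw [Tk4]
    push_cast at e4 ⊢
    calc T.θ * (8 * (G.K : ℝ) ^ 2 * (G.T (f + (k + 1)) : ℝ)) = T.θ * (32 * (G.K : ℝ) ^ 2) * ((G.T (f + (k + 1)) : ℝ) / 4) := by ring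
      _ ≤ 1 * ((G.T (f + (k + 1)) : ℝ) / 4) := mul_le_mul_of_nonneg_right hθ (by linarith)
      _ ≤ _ := by linarith

/-! ### The three pieces on the line of `ρ` -/

/-- **THE CLEAN CUTS** `f, .., f + m` (`v0 ≤ f`, `f + m ≤ v1`), on the line of `ρ`. -/
theorem layC4 (h0 : In μ s c C n₀) : ∃ n₂ : ℕ, 1 ≤ n₂ ∧ ∀ {th : ℝ}, 1 < th → ∀ P : ℕ, ∃ Cq : ℝ, 1 ≤ Cq ∧ ∀ C0 : ℝ, 0 ≤ C0 → ∃ C20 : ℕ,
    ∀ {G : Gm} {T : Tc6} {A a g A' a' g' : ℝ} {E : Cut (ℤ × ℤ) → Cut (ℤ × ℤ) → Set Env}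
      {E3 : Cut (ℤ × ℤ) → Cut (ℤ × ℤ) → Cut (ℤ × ℤ) → Set Env} {D' : ℕ} {Sw : Finset ℤ} {Z : List (Cut (ℤ × ℤ))} {u : ℕ} {η : Env}
      {σ : Type*} {Gg : Geo σ (ℤ × ℤ)} {lat : σ → ℝ} {ρ : σ} {cs : ℕ → Cut (ℤ × ℤ)} {v0 v1 v2 iL iC iT C2 D f m o : ℕ} {r Tn : ℕ → ℕ},
    C20 ≤ C2 → T.Th = th → T.P = P → Sm6 Gg G → (∀ u, G.w u = wd μ s (G.T u)) → Tg6 μ s c G T A a g A' a' g' →
    Ok6 Sw (dLC6 μ s c G T E D') (dNC6 μ s c G T E3 D') lb6 lbN6 Z u η → Gg.m < D' →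
    OwnL Gg lat G.latC G.w C0 C2 D Z ρ u cs v0 v1 v2 iL iC iT → Rf6 Gg cs (iC + (f - v0)) f m o r Tn → 16 ≤ G.K → 0 ≤ T.θ →
    T.θ * (32 * G.K ^ 2) ≤ 1 → v0 ≤ f → f + m ≤ v1 →
    ∀ {K' : ℝ} {Tt : ℕ → ℕ} {q : ℕ → ℝ} {κ : Pt} {hh : ℝ} {Tp n₁ : ℕ}, K' + 2 ≤ T.K → (∀ k < m, Tt (o + k) = HsC6 G (f + (k + 1))) →
    n₂ ≤ n₁ → n₁ ≤ HsC6 G (f + 1) → HsC6 G (f + m) ≤ Tp → |hh| * wd μ s Tp ≤ c / 8 * EE μ s Tp →
    (κ.2 : ℝ) - sl μ s * (κ.1 : ℝ) = lat ρ → (∀ k < m, Cq * T.q₀ * (th ^ 2) ^ ds4 u (f + (k + 1)) ≤ q (o + k)) →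
    ∃ bs : ℕ → Pt, (∀ k < m, 0 ≤ lat16 μ s κ (bs (o + k)) ∧ lat16 μ s κ (bs (o + k)) < 1 ∧
        (bs (o + k)).1 = (cs (iC + (f - v0) + k)).row) ∧
      Lay89 μ s c T.θ K' hh T.P η κ r Tt (fun v => r (v + 1) - r v) q bs o (o + m) n₁ := by
  obtain ⟨n₂, hn₂, H⟩ := layP4 h0
  refine ⟨n₂, hn₂, fun {th} hth P => ?_⟩
  obtain ⟨Ca, hCa, HC⟩ := gr_pow4 le_rfl hth P
  refine ⟨max (gr P 4) Ca, hCa.trans (le_max_right _ _), fun C0 hC0 => ?_⟩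
  obtain ⟨l₀, hl₀⟩ := HC (C0 + 1) (by linarith)
  refine ⟨l₀, ?_⟩
  intro G T A a g A' a' g' E E3 D' Sw Z u η σ Gg lat ρ cs v0 v1 v2 iL iC iT C2 D f m o r Tn hC2 eTh eP hs hw hT ho hmD h hr hK hθ0 hθ h1 h2
    K' Tt q κ hh Tp n₁ hKK hTt hn₁ hn₁T hTp hforce hκ hq
  subst eTh eP
  have a1 := h.uv1
  have a2 := h.v1m
  refine H hs hT ho (h.pcC h1 h2) hr h.pair hK hθ0 hθ hKK (Y := fun k => if f + k ≤ u + C2 then 1 else C0) hTt hn₁ hn₁T hTp hforce hκ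
    (fun k hk => ?_) (fun k hk => ?_) (fun k hk => ?_) (fun k hk => ?_)
  · show (0 : ℝ) ≤ if f + k ≤ u + C2 then 1 else C0
    split_ifs
    · norm_num
    · exact hC0
  · have e1 := h.latC6 (f := f) (k := k) h1 (by omega)
    have e2 := w_le4 h0 hw (f + k)
    have e3 := (G.w_pos (f + k)).le
    refine e1.trans ?_
    show _ ≤ (if f + k ≤ u + C2 then 1 else C0) * _
    rw [Nat.add_assoc] at e2
    split_ifs
    · linarith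
    · exact mul_le_mul_of_nonneg_left e2 hC0
  · exact (ds4_lt (m := Gg.m) (by omega) (by omega)).trans_le hmD
  · refine le_trans ?_ (hq k hk)
    have hp : 1 ≤ T.Th ^ ds4 u (f + (k + 1)) := one_le_pow₀ hth.le
    have hg : gr T.P (3 + if f + k ≤ u + C2 then 1 else C0) ≤ max (gr T.P 4) Ca * T.Th ^ ds4 u (f + (k + 1)) := by
      split_ifs with hv
      · norm_num only
        exact (le_max_left _ _).trans (le_mul_of_one_le_right ((zero_le_one.trans hCa).trans (le_max_right _ _)) hp)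
      · have e1 := hl₀ (ds4 u (f + (k + 1))) (by unfold ds4; omega)
        rw [one_pow, mul_one, show (2 : ℝ) + (C0 + 1) = 3 + C0 by ring] at e1
        exact e1.trans (mul_le_mul_of_nonneg_right (le_max_right _ _) (by linarith))
    have e1 := mul_le_mul_of_nonneg_left hg (show 0 ≤ T.q₀ * T.Th ^ ds4 u (f + (k + 1)) from
      mul_nonneg hT.q0 (by linarith))
    refine e1.trans (le_of_eq ?_)
    rw [← pow_mul, mul_comm 2, pow_mul]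
    ring

/-- **THE EXACT CUTS** `ct f ρ, .., ct (f + m) ρ` (`v0 ≤ f`, `f + m ≤ u + C2`), on the line of `ρ`. -/
theorem layE4 (h0 : In μ s c C n₀) : ∃ n₂ : ℕ, 1 ≤ n₂ ∧
    ∀ {G : Gm} {T : Tc6} {A a g A' a' g' : ℝ} {E : Cut (ℤ × ℤ) → Cut (ℤ × ℤ) → Set Env}
      {E3 : Cut (ℤ × ℤ) → Cut (ℤ × ℤ) → Cut (ℤ × ℤ) → Set Env} {D' : ℕ} {Sw : Finset ℤ} {Z : List (Cut (ℤ × ℤ))} {u : ℕ} {η : Env}
      {σ : Type*} {Gg : Geo σ (ℤ × ℤ)} {lat : σ → ℝ} {ρ : σ} {cs : ℕ → Cut (ℤ × ℤ)} {v0 v1 v2 iL iC iT C2 D f m o : ℕ} {C0 : ℝ}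
      {r Tn : ℕ → ℕ},
    Sm6 Gg G → (∀ u, G.w u = wd μ s (G.T u)) → Tg6 μ s c G T A a g A' a' g' →
    Ok6 Sw (dLC6 μ s c G T E D') (dNC6 μ s c G T E3 D') lb6 lbN6 Z u η → Gg.m < D' →
    OwnL Gg lat G.latC G.w C0 C2 D Z ρ u cs v0 v1 v2 iL iC iT → Rf6 Gg cs (iC + (f - v0)) f m o r Tn → 16 ≤ G.K → 0 ≤ T.θ →
    T.θ * (32 * G.K ^ 2) ≤ 1 → v0 ≤ f → f + m ≤ u + C2 →
    ∀ {K' : ℝ} {Tt : ℕ → ℕ} {q : ℕ → ℝ} {κ : Pt} {hh : ℝ} {Tp n₁ : ℕ}, K' + 2 ≤ T.K → (∀ k < m, Tt (o + k) = HsC6 G (f + (k + 1))) →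
    n₂ ≤ n₁ → n₁ ≤ HsC6 G (f + 1) → HsC6 G (f + m) ≤ Tp → |hh| * wd μ s Tp ≤ c / 8 * EE μ s Tp →
    (κ.2 : ℝ) - sl μ s * (κ.1 : ℝ) = lat ρ → (∀ k < m, gr T.P 4 * T.q₀ * T.Th ^ ds4 u (f + (k + 1)) ≤ q (o + k)) →
    ∃ bs : ℕ → Pt, (∀ k < m, 0 ≤ lat16 μ s κ (bs (o + k)) ∧ lat16 μ s κ (bs (o + k)) < 1 ∧
        (bs (o + k)).1 = (Gg.ct (f + k) ρ).row) ∧
      Lay89 μ s c T.θ K' hh T.P η κ r Tt (fun v => r (v + 1) - r v) q bs o (o + m) n₁ := by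
  obtain ⟨n₂, hn₂, H⟩ := layP4 h0
  refine ⟨n₂, hn₂, ?_⟩
  intro G T A a g A' a' g' E E3 D' Sw Z u η σ Gg lat ρ cs v0 v1 v2 iL iC iT C2 D f m o C0 r Tn hs hw hT ho hmD h hr hK hθ0 hθ h1 h2
    K' Tt q κ hh Tp n₁ hKK hTt hn₁ hn₁T hTp hforce hκ hq
  have a1 := h.uv1
  have a2 := h.v1m
  have e : ∀ k, k ≤ m → cs (iC + (f - v0) + k) = Gg.ct (f + k) ρ := fun k hk => by
    rw [show iC + (f - v0) + k = iC + (f + k - v0) by omega]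
    exact h.clct _ (by omega) (by omega)
  have hl : ∀ k < m, |G.latC (cs (iC + (f - v0) + k)) - lat ρ| ≤ 1 * wd μ s (HsC6 G (f + (k + 1))) := fun k hk => by
    have e1 := h.latC6 (f := f) (k := k) h1 (by omega)
    rw [if_pos (by omega)] at e1
    have e2 := w_le4 h0 hw (f + k)
    rw [Nat.add_assoc] at e2
    linarith
  have hg : ∀ k < m, T.q₀ * T.Th ^ ds4 u (f + (k + 1)) * gr T.P (3 + 1) ≤ q (o + k) := fun k hk => by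
    refine le_trans (le_of_eq ?_) (hq k hk)
    norm_num only
    ring
  obtain ⟨bs, hbs, HL⟩ := H hs hT ho (h.pcC h1 (show f + m ≤ v1 by omega)) hr h.pair hK hθ0 hθ hKK (Y := fun _ => 1) hTt hn₁ hn₁T hTp
    hforce hκ (fun k hk => zero_le_one) hl (fun k hk => (ds4_lt (m := Gg.m) (by omega) (by omega)).trans_le hmD) hg
  refine ⟨bs, fun k hk => ?_, HL⟩
  have := hbs k hk
  rwa [e k hk.le] at this

/-- **THE TOWER** `f, .., f + m` (`v1 + 3 ≤ f`, `f + m ≤ mt`), on the line of `ρ`. -/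
theorem layT4 (h0 : In μ s c C n₀) : ∃ n₂ : ℕ, 1 ≤ n₂ ∧ ∀ {th Cw : ℝ} (D : ℕ), 1 < th → 1 ≤ Cw → ∀ P : ℕ, ∃ Cq : ℝ, 1 ≤ Cq ∧
    ∀ C0 : ℝ, 0 ≤ C0 → ∃ C20 : ℕ,
    ∀ {G : Gm} {T : Tc6} {A a g A' a' g' : ℝ} {E : Cut (ℤ × ℤ) → Cut (ℤ × ℤ) → Set Env}
      {E3 : Cut (ℤ × ℤ) → Cut (ℤ × ℤ) → Cut (ℤ × ℤ) → Set Env} {D' : ℕ} {Sw : Finset ℤ} {Z : List (Cut (ℤ × ℤ))} {u : ℕ} {η : Env}
      {σ : Type*} {Gg : Geo σ (ℤ × ℤ)} {lat : σ → ℝ} {ρ : σ} {cs : ℕ → Cut (ℤ × ℤ)} {v0 v1 v2 iL iC iT C2 f m o : ℕ} {r Tn : ℕ → ℕ},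
    C20 ≤ C2 → (G.Cw : ℝ) ≤ Cw → T.Th = th → T.P = P → Sm6 Gg G → (∀ u, G.w u = wd μ s (G.T u)) → Tg6 μ s c G T A a g A' a' g' →
    Ok6 Sw (dLC6 μ s c G T E D') (dNC6 μ s c G T E3 D') lb6 lbN6 Z u η → Gg.m < D' →
    OwnL Gg lat G.latC G.w C0 C2 D Z ρ u cs v0 v1 v2 iL iC iT → Rf6 Gg cs (iT + (f - (v1 + 3))) f m o r Tn → 16 ≤ G.K → 0 ≤ T.θ →
    T.θ * (32 * G.K ^ 2) ≤ 1 → v1 + 3 ≤ f → f + m ≤ Gg.m →
    ∀ {K' : ℝ} {Tt : ℕ → ℕ} {q : ℕ → ℝ} {κ : Pt} {hh : ℝ} {Tp n₁ : ℕ}, K' + 2 ≤ T.K → (∀ k < m, Tt (o + k) = HsC6 G (f + (k + 1))) →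
    n₂ ≤ n₁ → n₁ ≤ HsC6 G (f + 1) → HsC6 G (f + m) ≤ Tp → |hh| * wd μ s Tp ≤ c / 8 * EE μ s Tp →
    (κ.2 : ℝ) - sl μ s * (κ.1 : ℝ) = lat ρ → (∀ k < m, Cq * T.q₀ * (th ^ 2) ^ ds4 u (f + (k + 1)) ≤ q (o + k)) →
    ∃ bs : ℕ → Pt, (∀ k < m, 0 ≤ lat16 μ s κ (bs (o + k)) ∧ lat16 μ s κ (bs (o + k)) < 1 ∧
        (bs (o + k)).1 = (cs (iT + (f - (v1 + 3)) + k)).row) ∧
      Lay89 μ s c T.θ K' hh T.P η κ r Tt (fun v => r (v + 1) - r v) q bs o (o + m) n₁ := by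
  obtain ⟨n₂, hn₂, H⟩ := layP4 h0
  refine ⟨n₂, hn₂, fun {th Cw} D hth hCw P => ?_⟩
  have hR : 1 ≤ Cw ^ D := one_le_pow₀ hCw
  obtain ⟨Cq, hCq, HC⟩ := gr_pow4 hR hth P
  refine ⟨Cq, hCq, fun C0 hC0 => ?_⟩
  obtain ⟨l₀, hl₀⟩ := HC (C0 + 1) (by linarith)
  refine ⟨l₀, ?_⟩
  intro G T A a g A' a' g' E E3 D' Sw Z u η σ Gg lat ρ cs v0 v1 v2 iL iC iT C2 f m o r Tn hC2 hGC eTh eP hs hw hT ho hmD h hr hK hθ0 hθ h1 h2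
    K' Tt q κ hh Tp n₁ hKK hTt hn₁ hn₁T hTp hforce hκ hq
  subst eTh eP
  have a1 := h.uv1
  have a2 := h.v1m
  have hwC : ∀ v, G.w (v + 1) ≤ Cw * G.w v := fun v => (G.w_up v).trans (mul_le_mul_of_nonneg_right hGC (G.w_pos v).le)
  refine H hs hT ho (h.pcT h1 h2) hr h.pair hK hθ0 hθ hKK (Y := fun k => C0 * (Cw ^ D) ^ ds4 u (f + (k + 1))) hTt hn₁ hn₁T hTp hforce hκ
    (fun k hk => by positivity) (fun k hk => ?_) (fun k hk => ?_) (fun k hk => ?_)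
  · have e2 : |G.latC (cs (iT + (f - (v1 + 3)) + k)) - lat ρ| ≤ C0 * (Cw ^ (D * (f + k - u)) * G.w (f + k)) :=
      (h.latT6 (f := f) (k := k) h1 (by omega)).trans (mul_le_mul_of_nonneg_left (w_pow4 hCw hwC (f + k) _) hC0)
    have e4 : Cw ^ (D * (f + k - u)) ≤ (Cw ^ D) ^ ds4 u (f + (k + 1)) := by
      rw [← pow_mul]
      exact pow_le_pow_right₀ hCw (Nat.mul_le_mul_left _ (by unfold ds4; omega))
    have e5 := w_le4 h0 hw (f + k)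
    rw [Nat.add_assoc] at e5
    have e6 : Cw ^ (D * (f + k - u)) * G.w (f + k) ≤ (Cw ^ D) ^ ds4 u (f + (k + 1)) * wd μ s (HsC6 G (f + (k + 1))) :=
      mul_le_mul e4 e5 (G.w_pos _).le (by positivity)
    have e7 := mul_le_mul_of_nonneg_left e6 hC0
    refine e2.trans (e7.trans (le_of_eq (by ring)))
  · exact (ds4_lt (m := Gg.m) (by omega) (by omega)).trans_le hmD
  · refine le_trans ?_ (hq k hk)
    have e5 : 1 ≤ (Cw ^ D) ^ ds4 u (f + (k + 1)) := one_le_pow₀ hR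
    have hp : 0 ≤ T.Th ^ ds4 u (f + (k + 1)) := pow_nonneg (by linarith) _
    have hg : gr T.P (3 + C0 * (Cw ^ D) ^ ds4 u (f + (k + 1))) ≤ Cq * T.Th ^ ds4 u (f + (k + 1)) := by
      refine le_trans ?_ (hl₀ (ds4 u (f + (k + 1))) (by unfold ds4; omega))
      refine gr_mono4 _ (by positivity) ?_
      nlinarith
    have e1 := mul_le_mul_of_nonneg_left hg (show 0 ≤ T.q₀ * T.Th ^ ds4 u (f + (k + 1)) from mul_nonneg hT.q0 hp)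
    refine e1.trans (le_of_eq ?_)
    rw [← pow_mul, mul_comm 2, pow_mul]
    ring

/-- **THE NODES OF THE EXACT CUTS** `ct v ρ, ct (v + 1) ρ, ct (v + 2) ρ`, on the line of `ρ`. -/
theorem nodE4 (h0 : In μ s c C n₀) : ∃ n₂ : ℕ, 1 ≤ n₂ ∧
    ∀ {G : Gm} {T : Tc6} {A a g A' a' g' : ℝ} {E : Cut (ℤ × ℤ) → Cut (ℤ × ℤ) → Set Env}
      {E3 : Cut (ℤ × ℤ) → Cut (ℤ × ℤ) → Cut (ℤ × ℤ) → Set Env} {Sw : Finset ℤ} {Z : List (Cut (ℤ × ℤ))} {u : ℕ} {η : Env}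
      {σ : Type*} {Gg : Geo σ (ℤ × ℤ)} {lat : σ → ℝ} {ρ : σ} {cs : ℕ → Cut (ℤ × ℤ)} {v0 v1 v2 iL iC iT C2 D : ℕ} {C0 : ℝ},
    Sm6 Gg G → (∀ u, G.w u = wd μ s (G.T u)) → Tg6 μ s c G T A a g A' a' g' →
    Ok6 Sw (dLC6 μ s c G T E (Gg.m + 1)) (dNC6 μ s c G T E3 (Gg.m + 1)) lb6 lbN6 Z u η →
    OwnL Gg lat G.latC G.w C0 C2 D Z ρ u cs v0 v1 v2 iL iC iT →
    ∀ {v : ℕ} {κ : Pt} {K' : ℝ}, K' + 2 ≤ T.K → (κ.2 : ℝ) - sl μ s * (κ.1 : ℝ) = lat ρ → v0 ≤ v → v + 2 ≤ u + C2 →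
    ¬ HasSw Sw (Gg.ct v ρ) (Gg.ct (v + 2) ρ) → n₂ ≤ HsC6 G (v + 2) →
    ∃ b : Pt, b.1 = (Gg.ct v ρ).row ∧ 0 ≤ lat16 μ s κ b ∧ lat16 μ s κ b < 1 ∧
      η ∈ Far16 μ s c T.θ K' (HsC6 G (v + 2)) (nR (Gg.ct v ρ) (Gg.ct (v + 2) ρ)) T.P b (gr T.P 4 * T.q₀ * T.Th ^ ds4 u (v + 1)) := by
  obtain ⟨n₂, hn₂, H⟩ := nod_ct4 h0
  refine ⟨n₂, hn₂, ?_⟩
  intro G T A a g A' a' g' E E3 Sw Z u η σ Gg lat ρ cs v0 v1 v2 iL iC iT C2 D C0 hs hw hT ho h v κ K' hKK hκ h1 h2 hsw hn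
  have eK : ∀ v, HsC6 G v = 8 * Gg.K ^ 2 * Gg.T v := fun v => by rw [Tk4, hs.K, hs.Teq]
  rw [eK] at hn ⊢
  exact H (G := Gg) (latC := G.latC) (w := G.w) (F := FC6 μ s c G T) (F' := FsC6 μ s G T) (X := XC6 μ s G T) (Hf := HfC6 G)
    (col := colG6 μ s G) h hT.F hT.q0 hT.th ho (fun x y q => Set.inter_subset_left) (fun x y => eK _) hKK w_mono4
    (fun v => by rw [← eK]; exact w_le4 h0 hw v) col4 hκ.symm h1 h2 hsw hn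

end

end Pool.Agent.W_7d29a1_C1.LayH4
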