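import Pool.Agent.W_7d29a1_C1.OwnL2
import Pool.Agent.W_7d29a1_C1.DepS6

/-!
MP_7d29a1_pr, [C1] attractor route, TAME: THE NODES WHICH CONTAIN A ROW OF `Sw`. (helper67)

`Ok6` says nothing of the depth of a node with a row of `Sw`. `badN67`: some node is deeper than `E₀` (Markov: `badN67_le`, with numbers
`badN67_num`). **`Ok6.all67`**: off `badN67`, `Ok6 Sw` and `OkS6 Sw E₀` give `Ok6 ∅`: NO node is felt.
-/

set_option autoImplicit false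

namespace Pool.Agent.W_7d29a1_C1.Dep6

open MeasureTheory ProbabilityTheory Finset
open Pool.Agent.W_7d29a1_F Pool.Agent.W_7d29a1_h4g Pool.Agent.W_7d29a1_H Pool.Agent.W_7d29a1_HS
open Pool.Agent.W_7d29a1_C1.H75 Pool.Agent.W_7d29a1_C1.U16 Pool.Agent.W_7d29a1_C1.H40 Pool.Agent.W_7d29a1_C1.S71
open scoped ENNReal

noncomputable section

variable {Λ : Type*}

/-- **Some node of the cuts of `F` is deeper than `E₀`.** -/
def badN67 (F : Finset (Cut Λ)) (d : Cut Λ → Cut Λ → Cut Λ → Env → ℕ) (E₀ : ℕ) : Set Env :=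
  {η | ∃ a ∈ F, ∃ b ∈ F, ∃ e ∈ F, E₀ < d a b e η}

/-- The tail of one node. -/
theorem tail3_67 {μ : Measure ℝ} {z M : ℝ≥0∞} {d : Cut Λ → Cut Λ → Cut Λ → Env → ℕ} (h : Dp3 μ z M d) (hz : 1 ≤ z) (hz' : z ≠ ∞)
    (E₀ : ℕ) (a b e : Cut Λ) : law μ {η | E₀ < d a b e η} ≤ M / z ^ (E₀ + 1) := by
  have hz0 : z ^ (E₀ + 1) ≠ 0 := pow_ne_zero _ (by rintro rfl; simp at hz)
  have hzt : z ^ (E₀ + 1) ≠ ∞ := ENNReal.pow_ne_top hz'
  rw [ENNReal.le_div_iff_mul_le (Or.inl hz0) (Or.inl hzt), mul_comm]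
  calc z ^ (E₀ + 1) * law μ {η | E₀ < d a b e η} ≤ z ^ (E₀ + 1) * law μ {η | z ^ (E₀ + 1) ≤ z ^ d a b e η} := by
        refine mul_le_mul_right (measure_mono fun η hη => ?_) _
        have h1 : E₀ < d a b e η := hη
        exact pow_le_pow_right₀ hz h1
    _ ≤ ∫⁻ η, z ^ d a b e η ∂(law μ) := mul_meas_ge_le_lintegral₀ (((measurable_from_nat (f := fun n : ℕ => z ^ n)).comp (h.meas a b e)).aemeasurable) _
    _ ≤ M := h.mom a b e

theorem badN67_le {μ : Measure ℝ} {z M : ℝ≥0∞} {d : Cut Λ → Cut Λ → Cut Λ → Env → ℕ} (h : Dp3 μ z M d) (hz : 1 ≤ z) (hz' : z ≠ ∞)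
    (F : Finset (Cut Λ)) (E₀ : ℕ) : law μ (badN67 F d E₀) ≤ (F.card : ℝ≥0∞) ^ 3 * (M / z ^ (E₀ + 1)) := by
  have h1 : badN67 F d E₀ = ⋃ a ∈ F, ⋃ b ∈ F, ⋃ e ∈ F, {η | E₀ < d a b e η} := by
    ext η
    simp only [badN67, Set.mem_ofPred_eq, Set.mem_iUnion, exists_prop]
  rw [h1]
  calc law μ (⋃ a ∈ F, ⋃ b ∈ F, ⋃ e ∈ F, {η | E₀ < d a b e η}) ≤ ∑ a ∈ F, law μ (⋃ b ∈ F, ⋃ e ∈ F, {η | E₀ < d a b e η}) :=
        measure_biUnion_finset_le F _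
    _ ≤ ∑ a ∈ F, ∑ b ∈ F, law μ (⋃ e ∈ F, {η | E₀ < d a b e η}) := sum_le_sum fun a _ => measure_biUnion_finset_le F _
    _ ≤ ∑ a ∈ F, ∑ b ∈ F, ∑ e ∈ F, law μ {η | E₀ < d a b e η} :=
        sum_le_sum fun a _ => sum_le_sum fun b _ => measure_biUnion_finset_le F _
    _ ≤ ∑ _a ∈ F, ∑ _b ∈ F, ∑ _e ∈ F, M / z ^ (E₀ + 1) :=
        sum_le_sum fun a _ => sum_le_sum fun b _ => sum_le_sum fun e _ => tail3_67 h hz hz' E₀ a b e
    _ = (F.card : ℝ≥0∞) ^ 3 * (M / z ^ (E₀ + 1)) := by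
        rw [sum_const, sum_const, sum_const, nsmul_eq_mul, nsmul_eq_mul, nsmul_eq_mul]
        ring

/-- **With numbers**: `E₀ = m / k`, `c log n ≤ m`, at most `n ^ j` cuts, `z ≥ exp (k (3 j + X + 1) / c)`. -/
theorem badN67_num {μ : Measure ℝ} {c X : ℝ} (hc : 0 < c) (hX : 0 ≤ X) {j k : ℕ} (hk : 1 ≤ k) {z : ℝ} (hz : Real.exp (k * (3 * j + X + 1) / c) ≤ z)
    {d : Cut Λ → Cut Λ → Cut Λ → Env → ℕ} (h : Dp3 μ (ENNReal.ofReal z) 2 d) {F : Finset (Cut Λ)} {n m : ℕ} (hn : 2 ≤ n)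
    (hm : c * Real.log n ≤ m) (hF : F.card ≤ n ^ j) : law μ (badN67 F d (m / k)) ≤ ENNReal.ofReal ((n : ℝ) ^ (-X)) := by
  have hk0 : (0 : ℝ) < k := by exact_mod_cast hk
  have hj0 : (0 : ℝ) ≤ j := Nat.cast_nonneg _
  have hz1 : 1 ≤ z := (Real.one_le_exp (by positivity)).trans hz
  have hn0 : (0 : ℝ) < n := by exact_mod_cast (by omega : 0 < n)
  have hn2 : (2 : ℝ) ≤ n := by exact_mod_cast hn
  have hl : 0 ≤ Real.log n := Real.log_nonneg (by linarith)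
  refine (badN67_le h (by rw [← ENNReal.ofReal_one]; exact ENNReal.ofReal_le_ofReal hz1) ENNReal.ofReal_ne_top F (m / k)).trans ?_
  -- the power of `z`
  have h1 : (m : ℝ) / k ≤ ((m / k + 1 : ℕ) : ℝ) := by
    rw [div_le_iff₀ hk0]
    have h2 : m < (m / k + 1) * k := by
      have := Nat.lt_mul_of_div_lt (Nat.lt_succ_self (m / k)) (by omega : 0 < k)
      linarith
    have h3 : (m : ℝ) < ((m / k + 1 : ℕ) : ℝ) * k := by exact_mod_cast h2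
    exact h3.le
  have h4 : (n : ℝ) ^ (3 * (j : ℝ) + X + 1) ≤ z ^ (m / k + 1) := by
    calc (n : ℝ) ^ (3 * (j : ℝ) + X + 1) = Real.exp (Real.log n * (3 * j + X + 1)) := Real.rpow_def_of_pos hn0 _
      _ ≤ Real.exp ((k * (3 * j + X + 1) / c) * ((m / k + 1 : ℕ) : ℝ)) := by
          refine Real.exp_le_exp.2 ?_
          have h5 : Real.log n ≤ m / c := by rw [le_div_iff₀ hc]; linarith
          have h6 : (m : ℝ) / c ≤ k / c * ((m / k + 1 : ℕ) : ℝ) := by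
            have h7 := mul_le_mul_of_nonneg_left h1 (div_nonneg hk0.le hc.le)
            have e1 : (k : ℝ) / c * (m / k) = m / c := by field_simp
            rw [e1] at h7
            exact h7
          calc Real.log n * (3 * j + X + 1) ≤ (k / c * ((m / k + 1 : ℕ) : ℝ)) * (3 * j + X + 1) :=
                mul_le_mul_of_nonneg_right (h5.trans h6) (by positivity)
            _ = _ := by ring
      _ = Real.exp (k * (3 * j + X + 1) / c) ^ (m / k + 1) := by rw [mul_comm, Real.exp_nat_mul]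
      _ ≤ z ^ (m / k + 1) := pow_le_pow_left₀ (Real.exp_pos _).le hz _
  have hzp : (0 : ℝ) < z ^ (m / k + 1) := by positivity
  have e2 : ((F.card : ℝ≥0∞)) ^ 3 * (2 / ENNReal.ofReal z ^ (m / k + 1)) = ENNReal.ofReal ((F.card : ℝ) ^ 3 * (2 / z ^ (m / k + 1))) := by
    rw [ENNReal.ofReal_mul (by positivity), ENNReal.ofReal_pow (by positivity), ENNReal.ofReal_natCast, ENNReal.ofReal_div_of_pos hzp,
      ENNReal.ofReal_pow (by linarith), ENNReal.ofReal_ofNat]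
  rw [e2]
  refine ENNReal.ofReal_le_ofReal ?_
  have h8 : (F.card : ℝ) ^ 3 ≤ (n : ℝ) ^ (3 * (j : ℝ)) := by
    have h9 : (F.card : ℝ) ≤ (n : ℝ) ^ j := by exact_mod_cast hF
    calc (F.card : ℝ) ^ 3 ≤ ((n : ℝ) ^ j) ^ 3 := pow_le_pow_left₀ (Nat.cast_nonneg _) h9 3
      _ = (n : ℝ) ^ (3 * (j : ℝ)) := by
          rw [← pow_mul, ← Real.rpow_natCast]
          congr 1
          push_cast
          ring
  have h10 : (0 : ℝ) < (n : ℝ) ^ (3 * (j : ℝ) + X + 1) := Real.rpow_pos_of_pos hn0 _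
  calc (F.card : ℝ) ^ 3 * (2 / z ^ (m / k + 1)) ≤ (n : ℝ) ^ (3 * (j : ℝ)) * (2 / (n : ℝ) ^ (3 * (j : ℝ) + X + 1)) := by
        refine mul_le_mul h8 (div_le_div_of_nonneg_left (by norm_num) h10 h4) (by positivity) (Real.rpow_nonneg hn0.le _)
    _ ≤ (n : ℝ) ^ (3 * (j : ℝ)) * ((n : ℝ) ^ (1 : ℝ) / (n : ℝ) ^ (3 * (j : ℝ) + X + 1)) := by
        refine mul_le_mul_of_nonneg_left (div_le_div_of_nonneg_right ?_ h10.le) (Real.rpow_nonneg hn0.le _)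
        rw [Real.rpow_one]
        exact hn2
    _ = (n : ℝ) ^ (-X) := by
        rw [← Real.rpow_sub hn0, ← Real.rpow_add hn0]
        congr 1
        ring

theorem not_hasSw_empty {a b : Cut Λ} : ¬ HasSw ∅ a b := fun ⟨_, h, _⟩ => absurd h (Finset.notMem_empty _)

/-- **OFF `badN67` NO NODE IS FELT.** -/
theorem Ok6.all67 {Sw : Finset ℤ} {E₀ : ℕ} {dL : Cut Λ → Cut Λ → Env → ℕ} {dN : Cut Λ → Cut Λ → Cut Λ → Env → ℕ} {scL : Cut Λ → Cut Λ → ℕ}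
    {scN : Cut Λ → Cut Λ → Cut Λ → ℕ} {Z : List (Cut Λ)} {u : ℕ} {η : Env} (h : Ok6 Sw dL dN scL scN Z u η) (hS : OkS6 Sw E₀ scL scN Z u)
    {F : Finset (Cut Λ)} (hη : η ∉ badN67 F dN E₀) (hZ : ∀ d ∈ Z, d ∈ F) : Ok6 ∅ dL dN scL scN Z u η := by
  refine ⟨h.1, fun P a b e Q eZ _ hf => ?_⟩
  by_cases hs : HasSw Sw a e
  · refine hS.nod P a b e Q eZ hs (felt_mono ?_ hf)
    by_contra hc
    exact hη ⟨a, hZ a (by rw [eZ]; simp), b, hZ b (by rw [eZ]; simp), e, hZ e (by rw [eZ]; simp), not_le.1 hc⟩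
  · exact h.2 P a b e Q eZ hs hf

/-- The same over the windows, for a regular list. -/
theorem Ok6.all67W {σ : Type*} [Fintype σ] {G : Geo σ Λ} {Sw : Finset ℤ} {E₀ : ℕ} {dL : Cut Λ → Cut Λ → Env → ℕ}
    {dN : Cut Λ → Cut Λ → Cut Λ → Env → ℕ} {scL : Cut Λ → Cut Λ → ℕ}
    {scN : Cut Λ → Cut Λ → Cut Λ → ℕ} {Z : List (Cut Λ)} {u : ℕ} {η : Env} (h : Ok6 Sw dL dN scL scN Z u η) (hS : OkS6 Sw E₀ scL scN Z u)
    (hη : η ∉ badN67 (FW6 G) dN E₀) (hP : PW G Z) : Ok6 ∅ dL dN scL scN Z u η :=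
  h.all67 hS hη fun d hd => mem_FW6 (hP.mem d hd)

end

end Pool.Agent.W_7d29a1_C1.Dep6
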