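import Pool.Agent.W_7d29a1_C1.HpQ2
import Pool.Agent.W_7d29a1_C1.SwN67

/-!
MP_7d29a1_pr, attractor route [C1], TAME: THE CLAUSES WITHOUT THE EVENTS AND WITHOUT THE SWITCH ROW (helper40; over helper67's SwN67 and
helper2's HpQ2).

In `ClQ` the events `E2`, `E3` are arbitrary. The nodes which contain the switch row are controlled by `badN67` for the trivial events only;
the depths with the trivial events are smaller, so not felt for them.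
* `Ok6.allU40` : off `badN67 .. univ`, `Ok6 Sw` with any events gives `Ok6 ∅` with the trivial events;
* `badU40`, `evn_badU40` : its probability is `≤ n ^ (-5)` as soon as `z ≥ exp (51 k / kap)`;
* `ClU40` : the form of a clause for the owners; `ClU40.toS`, `ClU40.inter`; **`clQ_of_U40`**.
-/

set_option autoImplicit false

namespace Pool.Agent.W_7d29a1_C1.Hp2

open MeasureTheory Finset
open Pool.Agent.W_7d29a1_F Pool.Agent.W_7d29a1_h4g Pool.Agent.W_7d29a1_H Pool.Agent.W_7d29a1_HS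
open Pool.Agent.W_7d29a1_C1.H60
open Pool.Agent.W_7d29a1_C1.H40
open Pool.Agent.W_7d29a1_C1.G37 (Gm Wok gmW)
open Pool.Agent.W_7d29a1_C1.SF98
open Pool.Agent.W_7d29a1_C1.N49
open Pool.Agent.W_7d29a1_C1.PW86
open Pool.Agent.W_7d29a1_C1.Dep6
open Pool.Agent.W_7d29a1_C1.Q49
open scoped ENNReal

noncomputable section

/-! ### The trivial events have the smaller depths -/

section Depths

variable {Λ : Type*} {F F' : Cut Λ → Cut Λ → ℝ → Set Env} {q₀ th : ℝ} {D : ℕ}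

theorem dLI6_univ40 (E : Cut Λ → Cut Λ → Set Env) (a b : Cut Λ) (η : Env) :
    dLI6 F F' (fun _ _ => Set.univ) q₀ th D a b η ≤ dLI6 F F' E q₀ th D a b η := by
  refine max_le (le_max_left _ _) (le_trans ?_ (le_max_left _ _))
  have h : dE6 (fun _ _ => Set.univ) 1 a b η = 0 := if_pos (Set.mem_univ _)
  rw [h]
  exact Nat.zero_le _

theorem dNI6_univ40 {X : Cut Λ → Cut Λ → Cut Λ → Env → ℕ} {Cn : ℕ} (E : Cut Λ → Cut Λ → Cut Λ → Set Env) (a b e : Cut Λ) (η : Env) :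
    dNI6 X Cn F (fun _ _ _ => Set.univ) q₀ th D a b e η ≤ dNI6 X Cn F E q₀ th D a b e η := by
  refine max_le (le_max_left _ _) (le_trans ?_ (le_max_left _ _))
  have h : dEN6 (fun _ _ _ => Set.univ) 1 a b e η = 0 := if_pos (Set.mem_univ _)
  rw [h]
  exact Nat.zero_le _

/-- Smaller depths are less felt. -/
theorem Ok6.mono40 {Sw : Finset ℤ} {dL dL' : Cut Λ → Cut Λ → Env → ℕ} {dN dN' : Cut Λ → Cut Λ → Cut Λ → Env → ℕ}
    {scL : Cut Λ → Cut Λ → ℕ} {scN : Cut Λ → Cut Λ → Cut Λ → ℕ} {Z : List (Cut Λ)} {u : ℕ} {η : Env} (h : Ok6 Sw dL dN scL scN Z u η)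
    (hL : ∀ a b, dL' a b η ≤ dL a b η) (hN : ∀ a b e, dN' a b e η ≤ dN a b e η) : Ok6 Sw dL' dN' scL scN Z u η :=
  ⟨fun P a b Q eZ hf => h.1 P a b Q eZ (felt_mono (hL a b) hf), fun P a b e Q eZ hs hf => h.2 P a b e Q eZ hs (felt_mono (hN a b e) hf)⟩

/-- **NO NODE IS FELT**, trivial events. -/
theorem Ok6.allU40 {σ : Type*} [Fintype σ] {G : Geo σ Λ} {Sw : Finset ℤ} {E₀ : ℕ} {E2 : Cut Λ → Cut Λ → Set Env}
    {E3 : Cut Λ → Cut Λ → Cut Λ → Set Env} {X : Cut Λ → Cut Λ → Cut Λ → Env → ℕ} {Cn : ℕ} {scL : Cut Λ → Cut Λ → ℕ}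
    {scN : Cut Λ → Cut Λ → Cut Λ → ℕ} {Z : List (Cut Λ)} {u : ℕ} {η : Env}
    (h : Ok6 Sw (dLI6 F F' E2 q₀ th D) (dNI6 X Cn F E3 q₀ th D) scL scN Z u η) (hS : OkS6 Sw E₀ scL scN Z u)
    (hη : η ∉ badN67 (FW6 G) (dNI6 X Cn F (fun _ _ _ => Set.univ) q₀ th D) E₀) (hP : PW G Z) :
    Ok6 ∅ (dLI6 F F' (fun _ _ => Set.univ) q₀ th D) (dNI6 X Cn F (fun _ _ _ => Set.univ) q₀ th D) scL scN Z u η :=
  (Ok6.mono40 h (fun a b => dLI6_univ40 E2 a b η) fun a b e => dNI6_univ40 E3 a b e η).all67W hS hη hP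

end Depths

/-! ### The rare event of the nodes -/

/-- The depth of a layer, trivial events. -/
abbrev Tm.dLU (t : Tm) (G : Gm) (mt : ℕ) : Cu → Cu → Env → ℕ := t.dL G mt fun _ _ => Set.univ

/-- The depth of a node, trivial events. -/
abbrev Tm.dNU (t : Tm) (G : Gm) (mt : ℕ) : Cu → Cu → Cu → Env → ℕ := t.dN G mt fun _ _ _ => Set.univ

/-- **Some node is deeper than `E0`.** -/
def badU40 (Γ : Cx) (G : Gm) (mt E0 : ℕ) (t : Tm) : Set Env := badN67 (FW6 (gj Γ G mt)) (t.dNU G mt) E0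

/-- **The rare event of the nodes is rare.** -/
theorem evn_badU40 {μ : Measure ℝ} [IsProbabilityMeasure μ] {P : Pre} {Dd : Dat} {s : ℝ} {t : Tm} {z k n₁ : ℕ} {AA a gg : ℝ} (hk : 1 ≤ k)
    (hz : Real.exp (51 * k / Dd.kap) ≤ z) (ht : t.Ok μ z AA a gg n₁) :
    Evn P Dd μ s fun _ _ _ _ n Γ G mt _ _ => law μ (badU40 Γ G mt (G.M / k) t) ≤ ENNReal.ofReal ((n : ℝ) ^ (-(5 : ℝ))) := by
  have hb := bs2 (P := P) (Dd := Dd) (μ := μ) (s := s) (A0 := max 2 ((2 * (Dd.K + 1) + 1) * (2 * (2 * Dd.K * 2 + 1) + 1)))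
    (le_max_left _ _) (le_max_right _ _) 0 k (max n₁ 5) 0
  refine hb.mono fun q η A lam n Γ G mt τ0 E h => ?_
  have hn : 5 ≤ n := le_trans (le_max_right _ _) h.hn
  have hT : n₁ ≤ G.T0 := le_trans (le_max_left _ _) h.hT
  have hE3 : Ev3 μ 0 (fun _ _ _ : Cu => Set.univ) := Ev3.univ μ
  have h1 := ht.mN G hT mt _ 0 hE3 (by simp)
  have e1 : ((z : ℕ) : ℝ≥0∞) = ENNReal.ofReal (z : ℝ) := (ENNReal.ofReal_natCast z).symm
  rw [e1] at h1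
  refine badN67_num (c := Dd.kap) (X := 5) (j := 15) (k := k) Dd.hkap (by norm_num) hk ?_ h1 (by omega) h.hc ?_
  · refine le_trans (le_of_eq ?_) hz
    congr 1
    push_cast
    ring
  · refine card_FW86.trans ?_
    have hmt : mt + 1 ≤ 2 * n + 1 := by have := h.hmt2; have := h.hMn; omega
    have hcard : (FS Γ G mt).card ≤ n ^ 13 := by
      have := h.hX
      rwa [Fintype.card_coe] at this
    have h4 : 2 * (mt + 1) ≤ n ^ 2 := by nlinarith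
    calc 2 * ((FS Γ G mt).card * (mt + 1)) ≤ 2 * (n ^ 13 * (mt + 1)) := by gcongr
      _ = n ^ 13 * (2 * (mt + 1)) := by ring
      _ ≤ n ^ 13 * n ^ 2 := Nat.mul_le_mul_left _ h4
      _ = n ^ 15 := by rw [← pow_add]

/-! ### The clause for the owners -/

variable (Γ : Cx) (G : Gm) (mt : ℕ) in
/-- **A CLAUSE**: no layer and no node at all is felt at `f u`, `f ∈ Fs` (trivial events, no switch row in the nodes), the switch row is not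
within `E0` scales. -/
def ClU40 (Fs : Finset (ℕ → ℕ)) (Sw : Finset ℤ) (E0 : ℕ) (t : Tm) (C0 : ℝ) (C2 D τ : ℕ) (bad : Set Env) (X : ℕ → ℤ × ℤ → Set Env) : Prop :=
  ∀ η ∉ bad, ∀ (ρ : XS Γ G mt) (u : ℕ) Z, τ ≤ u → u < G.M → PW (gj Γ G mt) Z →
    ODW (gj Γ G mt) (fun x => G.lat x.1) G.latC G.w C0 C2 D Z ρ u →
    (∀ f ∈ Fs, Ok6 ∅ (t.dLU G mt) (t.dNU G mt) lb6 lbN6 Z (f u) η ∧ OkS6 Sw E0 lb6 lbN6 Z (f u)) → η ∈ X u (G.loc u ρ.1)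

section ClU

variable {Γ : Cx} {G : Gm} {mt : ℕ} {Fs Fs' : Finset (ℕ → ℕ)} {Sw : Finset ℤ} {E0 E0' : ℕ} {t : Tm} {C0 : ℝ} {C2 D τ : ℕ} {bad bad' : Set Env}
  {X Y : ℕ → ℤ × ℤ → Set Env}

/-- The clause `ClS86` for all events. -/
theorem ClU40.toS (h : ClU40 Γ G mt Fs Sw E0 t C0 C2 D τ bad X) (E2 : Cu → Cu → Set Env) (E3 : Cu → Cu → Cu → Set Env) :
    ClS86 Γ G mt Fs Sw E0 (t.dL G mt E2) (t.dN G mt E3) lb6 lbN6 C0 C2 D τ (bad ∪ badU40 Γ G mt E0 t) X :=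
  fun η hη ρ u Z a1 a2 a3 a4 a5 => h η (fun h1 => hη (Or.inl h1)) ρ u Z a1 a2 a3 a4 fun f hf =>
    ⟨Ok6.allU40 (a5 f hf).1 (a5 f hf).2 (fun h1 => hη (Or.inr h1)) a3, (a5 f hf).2⟩

theorem ClU40.sub (h : ClU40 Γ G mt Fs Sw E0 t C0 C2 D τ bad X) (hJ : Fs ⊆ Fs') : ClU40 Γ G mt Fs' Sw E0 t C0 C2 D τ bad X :=
  fun η hη ρ u Z a1 a2 a3 a4 a5 => h η hη ρ u Z a1 a2 a3 a4 fun f hf => a5 f (hJ hf)

theorem ClU40.inter (h : ClU40 Γ G mt Fs Sw E0 t C0 C2 D τ bad X) (h' : ClU40 Γ G mt Fs Sw E0 t C0 C2 D τ bad' Y) :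
    ClU40 Γ G mt Fs Sw E0 t C0 C2 D τ (bad ∪ bad') fun u κ => X u κ ∩ Y u κ := fun η hη ρ u Z a1 a2 a3 a4 a5 =>
  ⟨h η (fun h1 => hη (Or.inl h1)) ρ u Z a1 a2 a3 a4 a5, h' η (fun h1 => hη (Or.inr h1)) ρ u Z a1 a2 a3 a4 a5⟩

theorem ClU40.mono (h : ClU40 Γ G mt Fs Sw E0 t C0 C2 D τ bad X) (hb : bad ⊆ bad') (hX : ∀ u κ, X u κ ⊆ Y u κ) :
    ClU40 Γ G mt Fs Sw E0 t C0 C2 D τ bad' Y := fun η hη ρ u Z a1 a2 a3 a4 a5 =>
  hX _ _ (h η (fun h1 => hη (hb h1)) ρ u Z a1 a2 a3 a4 a5)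

/-- The cut clause: the scales above `G.M - e` are free. -/
theorem ClU40.cut (h : ∀ η ∉ bad, ∀ (ρ : XS Γ G mt) (u : ℕ) Z, τ ≤ u → u < G.M → u + E0 ≤ G.M → PW (gj Γ G mt) Z →
    ODW (gj Γ G mt) (fun x => G.lat x.1) G.latC G.w C0 C2 D Z ρ u →
    (∀ f ∈ Fs, Ok6 ∅ (t.dLU G mt) (t.dNU G mt) lb6 lbN6 Z (f u) η ∧ OkS6 Sw E0' lb6 lbN6 Z (f u)) → η ∈ X u (G.loc u ρ.1)) :
    ClU40 Γ G mt Fs Sw E0' t C0 C2 D τ bad (cut86 G E0 X) := fun η hη ρ u Z a1 a2 a3 a4 a5 hu => h η hη ρ u Z a1 a2 hu a3 a4 a5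

end ClU

section Q

variable {P : Pre} {Dd : Dat} {μ : Measure ℝ} {s : ℝ} {t : Tm} {k D : ℕ} {Fs : Gm → Finset (ℕ → ℕ)}
  {X : Cx → Gm → (ℕ → ℝ) → ℕ → ℤ × ℤ → Set Env}

/-- **`ClQ` FROM THE FORM FOR THE OWNERS.** -/
theorem clQ_of_U40 [IsProbabilityMeasure μ] {z n₁ : ℕ} {AA a gg : ℝ} (hk : 1 ≤ k) (hz : Real.exp (51 * k / Dd.kap) ≤ z)
    (ht : t.Ok μ z AA a gg n₁)
    (h : ∃ C2₀ B : ℕ, ∀ C2 : ℕ, C2₀ ≤ C2 → Evn P Dd μ s fun _ _ _ _ n Γ G mt τ0 E => 1 ≤ τ0 → ∃ bad : Set Env,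
      law μ bad ≤ (B : ℝ≥0∞) * ENNReal.ofReal ((n : ℝ) ^ (-(5 : ℝ))) ∧
      ClU40 Γ G mt (Fs G) {(Γ.M : ℤ)} (G.M / k) t (C0P P) C2 D τ0 bad (X Γ G E)) : ClQ P Dd μ s t k D Fs X := by
  obtain ⟨C2₀, B, h⟩ := h
  refine ⟨C2₀, B + 1, fun C2 hC => ((h C2 hC).and (evn_badU40 hk hz ht)).mono fun q η A lam n Γ G mt τ0 E h1 hτ E2 E3 => ?_⟩
  obtain ⟨bad, hb, hc⟩ := h1.1 hτ
  refine ⟨bad ∪ badU40 Γ G mt (G.M / k) t, ?_, hc.toS E2 E3⟩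
  rw [Nat.cast_add, Nat.cast_one, add_mul, one_mul]
  exact (measure_union_le _ _).trans (add_le_add hb h1.2)

end Q

end

end Pool.Agent.W_7d29a1_C1.Hp2
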