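import Pool.Agent.W_7d29a1_C1.LvN2

/-!
MP_7d29a1_pr, the attractor route, TAME: THE CLAUSE `Lv` OF `hT`, ONLY AT GOOD PLACES. (helper2)

`LvN2` with a predicate `Pr u κ` : the probability of the complement of `Lv u κ` is asked only if `Pr u κ`. At an own slab `Pr` may contain: the
scale is at least `τ`, the rows are not negative, **the window contains no row of `Sw`** (`noSw2`, from `OkS6`). `clLvQ2` = the clause, no exceptional set.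
-/

set_option autoImplicit false

namespace Pool.Agent.W_7d29a1_C1.Dep6

open MeasureTheory ProbabilityTheory Finset
open Pool.Agent.W_7d29a1_F Pool.Agent.W_7d29a1_h4g Pool.Agent.W_7d29a1_H Pool.Agent.W_7d29a1_HS
open Pool.Agent.W_7d29a1_C1.H75 Pool.Agent.W_7d29a1_C1.U16 Pool.Agent.W_7d29a1_C1.H40 Pool.Agent.W_7d29a1_C1.S71
open Pool.Agent.W_7d29a1_C1.P25 (rws offS)
open Pool.Agent.W_7d29a1_C1.PW86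
open scoped ENNReal

noncomputable section

/-! ### The event -/

open Classical in
/-- The event `Lv`, only asked under `Pr`. -/
def LvQ (Pr : ℕ → ℤ × ℤ → Prop) (Lv : ℕ → ℤ × ℤ → Set Env) (u : ℕ) (κ : ℤ × ℤ) : Set Env := if Pr u κ then Lv u κ else Set.univ

/-- **`Ev3` of an event of the rows `[ra, re]`**, everything only under `Pr`. -/
theorem ev3_offQ (Gg : G37.Gm) {μ : Measure ℝ} {Pr : ℕ → ℤ × ℤ → Prop} {Lv : ℕ → ℤ × ℤ → Set Env} {d : ℝ≥0∞}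
    (hm : ∀ u κ, Pr u κ → MeasurableSet (Lv u κ)) (ho : ∀ u κ, Pr u κ → Off (offS Gg u κ) (Lv u κ))
    (hd : ∀ u κ, Pr u κ → law μ (Lv u κ)ᶜ ≤ d) : Ev3 μ d (EvN (rws Gg) (LvQ Pr Lv)) := by
  refine ev3_evN (fun u κ => ?_) (fun u κ η η' hh => ?_) fun u κ => ?_
  · unfold LvQ
    split_ifs with h
    · exact hm _ _ h
    · exact MeasurableSet.univ
  · unfold LvQ
    split_ifs with h
    · exact off_rws Gg (ho u κ h) η η' hh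
    · exact Iff.rfl
  · unfold LvQ
    split_ifs with h
    · exact hd _ _ h
    · rw [Set.compl_univ, measure_empty]
      exact zero_le

/-! ### No switch in the rows of an own slab -/

/-- **NO ROW OF `Sw` IN THE NODE OF AN OWN SLAB**: `(row (ct (u - 1) ρ), row (ct (u + 1) ρ)]`. -/
theorem noSw2 {σ Λ : Type*} {G : Geo σ Λ} {Sw : Finset ℤ} {E0 : ℕ} {scL : Cut Λ → Cut Λ → ℕ} {Z : List (Cut Λ)} {ρ : σ} {u : ℕ}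
    (hZ : ∃ P Q, Z = P ++ G.ct (u - 1) ρ :: G.ct u ρ :: G.ct (u + 1) ρ :: Q) (hS : OkS6 Sw E0 scL lbN6 Z u) (hE : 1 ≤ E0)
    {r : ℤ} (hr : r ∈ Sw) : ¬ ((G.ct (u - 1) ρ).row < r ∧ r ≤ (G.ct (u + 1) ρ).row) := fun h => by
  obtain ⟨P, Q, e⟩ := hZ
  have e1 : lbN6 (G.ct (u - 1) ρ) (G.ct u ρ) (G.ct (u + 1) ρ) = u := rfl
  exact hS.nod_near hE e (by rw [e1]; omega) (by rw [e1]; omega) ⟨r, hr, h.1, h.2⟩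

/-- **No row of `Sw` among the rows `ra, .., re`** of an own slab. -/
theorem noSw_rows2 (Gg : G37.Gm) {F : Finset (ℕ × ℤ)} {mt : ℕ} {W : Set {c // c ∈ F}} {Sw : Finset ℤ} {E0 : ℕ}
    {scL : Cut (ℤ × ℤ) → Cut (ℤ × ℤ) → ℕ} {Z : List (Cut (ℤ × ℤ))} {ρ : {c // c ∈ F}} {u : ℕ} (hu : 1 ≤ u)
    (hZ : ∃ P Q, Z = P ++ (Gg.geoJ F mt W).ct (u - 1) ρ :: (Gg.geoJ F mt W).ct u ρ :: (Gg.geoJ F mt W).ct (u + 1) ρ :: Q)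
    (hS : OkS6 Sw E0 scL lbN6 Z u) (hE : 1 ≤ E0) {r : ℤ} (hr : r ∈ Sw) :
    ¬ ((Gg.ra u (Gg.loc u ρ.1) : ℤ) ≤ r ∧ r ≤ Gg.re u (Gg.loc u ρ.1)) := fun h =>
  noSw2 (G := Gg.geoJ F mt W) hZ hS hE hr (rws_btw (W := W) Gg hu ρ (show ((r, 0) : Pt) ∈ rws Gg u (Gg.loc u ρ.1) from h))

/-! ### The clause -/

/-- **THE CLAUSE OF `Lv`**, no exceptional set, `Pr` holds at the own slabs. -/
theorem clLvQ2 {Γ : H60.Cx} {Gg : G37.Gm} {mt : ℕ} {Pr : ℕ → ℤ × ℤ → Prop} {Lv : ℕ → ℤ × ℤ → Set Env} {Sw : Finset ℤ} {E0 : ℕ}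
    {dL : Cut (ℤ × ℤ) → Cut (ℤ × ℤ) → Env → ℕ} {dN : Cut (ℤ × ℤ) → Cut (ℤ × ℤ) → Cut (ℤ × ℤ) → Env → ℕ}
    {scL : Cut (ℤ × ℤ) → Cut (ℤ × ℤ) → ℕ} {C0 : ℝ} {C2 D τ v : ℕ} (hC : 1 ≤ C2) (hτ : 1 ≤ τ) (hE : 1 ≤ E0) (hv : 1 ≤ v)
    (hdN : ∀ a b e η, dEN6 (EvN (rws Gg) (LvQ Pr Lv)) v a b e η ≤ dN a b e η)
    (hPr : ∀ u κ, τ ≤ u → u < Gg.M → 0 ≤ Gg.rcc u κ → (∀ r ∈ Sw, ¬ ((Gg.ra u κ : ℤ) ≤ r ∧ r ≤ Gg.re u κ)) → Pr u κ) :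
    Cl86 Γ Gg mt Sw E0 dL dN scL lbN6 C0 C2 D τ ∅ Lv := fun η _ ρ u Z a1 a2 a3 a4 a5 a6 => by
  have hu := hτ.trans a1
  have hZ := triple86 a4 hC hu
  have h := lvN_own (G := gj Γ Gg mt) hZ hdN hv a5 a6 hE (rws_btw (F := SF98.FS Γ Gg mt) (mt := mt) (W := Set.univ) Gg hu ρ)
  unfold LvQ at h
  rwa [if_pos (show Pr u ((gj Γ Gg mt).loc u ρ) from hPr u _ a1 a2 (Gg.rcc_pos u ρ.1).le fun r hr =>
    noSw_rows2 Gg (F := SF98.FS Γ Gg mt) (mt := mt) (W := Set.univ) hu hZ a6 hE hr)] at h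

/-- The same with the switch row `Γ.M` only. -/
theorem clLvM2 {Γ : H60.Cx} {Gg : G37.Gm} {mt : ℕ} {Pr : ℕ → ℤ × ℤ → Prop} {Lv : ℕ → ℤ × ℤ → Set Env} {Sw : Finset ℤ} {E0 : ℕ}
    {dL : Cut (ℤ × ℤ) → Cut (ℤ × ℤ) → Env → ℕ} {dN : Cut (ℤ × ℤ) → Cut (ℤ × ℤ) → Cut (ℤ × ℤ) → Env → ℕ}
    {scL : Cut (ℤ × ℤ) → Cut (ℤ × ℤ) → ℕ} {C0 : ℝ} {C2 D τ v : ℕ} (hC : 1 ≤ C2) (hτ : 1 ≤ τ) (hE : 1 ≤ E0) (hv : 1 ≤ v)
    (hM : (Γ.M : ℤ) ∈ Sw) (hdN : ∀ a b e η, dEN6 (EvN (rws Gg) (LvQ Pr Lv)) v a b e η ≤ dN a b e η)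
    (hPr : ∀ u κ, τ ≤ u → u < Gg.M → 0 ≤ Gg.rcc u κ → ¬ (Gg.ra u κ ≤ Γ.M ∧ Γ.M ≤ Gg.re u κ) → Pr u κ) :
    Cl86 Γ Gg mt Sw E0 dL dN scL lbN6 C0 C2 D τ ∅ Lv :=
  clLvQ2 hC hτ hE hv hdN fun u κ h1 h2 h3 h4 => hPr u κ h1 h2 h3 fun h => h4 _ hM ⟨by exact_mod_cast h.1, by exact_mod_cast h.2⟩

end

end Pool.Agent.W_7d29a1_C1.Dep6
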