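import Pool.Agent.W_7d29a1_C1.ChnT40

/-!
MP_7d29a1_pr, the attractor route: THE NUMBERS OF THE POTENTIAL in the order of the quantifiers (helper40): `A` (cells per scale), the
fraction `d`, the number `s` of the switch rows, `M ≥ c log n`, the exponent `X`, then `D`, `k`, `z` (moment `z`, `r = E₀ = M / k`), then
`C2`, `g`, then `lam`, then `n`.
-/

set_option autoImplicit false

namespace Pool.Agent.W_7d29a1_C1.H40

open MeasureTheory ProbabilityTheory Finset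
open scoped ENNReal

noncomputable section

/-- The code bound against the moments, `z` before `g`. -/
theorem numZ (A L : ℕ) (hA : 1 ≤ A) : ∃ z : ℕ, 1 ≤ z ∧ ∀ m g r : ℕ, g ≤ m → 1 ≤ m →
    ∀ k : ℕ, m ≤ k * r → ∀ Nt : ℕ, Nt ^ 2 ≤ A ^ m →
      (nCodeJ Nt A m g : ℝ≥0∞) * (3 * ((2 : ℝ≥0∞) ^ (3 * (m + g) + 1) / ((z : ℝ≥0∞) ^ k) ^ r)) ≤ ((L : ℝ≥0∞) + 1)⁻¹ ^ m := by
  set D : ℕ := A * ((48 * A ^ 2) ^ 2 * (12 * A ^ 2) * A ^ 2) * 3 * 2 ^ 7 * (L + 1) with hD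
  have hD1 : 1 ≤ D := Nat.mul_pos (Nat.mul_pos (Nat.mul_pos (Nat.mul_pos hA (by positivity)) (by norm_num)) (by norm_num))
    (by omega)
  refine ⟨D, hD1, fun m g r hgm hm k hk Nt hNt => ?_⟩
  have h1 : nCodeJ Nt A m g ≤ (A * ((48 * A ^ 2) ^ 2 * (12 * A ^ 2) * A ^ 2)) ^ m := by
    unfold nCodeJ
    rw [mul_pow A _ m]
    refine Nat.mul_le_mul hNt ?_
    have e3 : ∀ x y z : ℕ, (x * y * z) ^ m = x ^ m * y ^ m * z ^ m := fun x y z => by rw [mul_pow, mul_pow]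
    rw [e3]
    refine Nat.mul_le_mul (Nat.mul_le_mul ?_ le_rfl) ?_
    · rw [← pow_mul]
      exact Nat.pow_le_pow_right (by positivity) (by omega)
    · rw [← pow_mul]
      exact Nat.pow_le_pow_right hA (by omega)
  have h2 : (3 : ℕ) ≤ 3 ^ m := by
    calc 3 = 3 ^ 1 := (pow_one 3).symm
      _ ≤ 3 ^ m := Nat.pow_le_pow_right (by norm_num) hm
  have h3 : (2 : ℕ) ^ (3 * (m + g) + 1) ≤ (2 ^ 7) ^ m := by
    rw [← pow_mul]
    exact Nat.pow_le_pow_right (by norm_num) (by omega)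
  have h4 : nCodeJ Nt A m g * (3 * 2 ^ (3 * (m + g) + 1)) * (L + 1) ^ m ≤ D ^ (k * r) := by
    calc nCodeJ Nt A m g * (3 * 2 ^ (3 * (m + g) + 1)) * (L + 1) ^ m
        ≤ (A * ((48 * A ^ 2) ^ 2 * (12 * A ^ 2) * A ^ 2)) ^ m * (3 ^ m * (2 ^ 7) ^ m) * (L + 1) ^ m :=
          Nat.mul_le_mul_right _ (Nat.mul_le_mul h1 (Nat.mul_le_mul h2 h3))
      _ = D ^ m := by rw [hD]; simp only [mul_pow]; ring
      _ ≤ D ^ (k * r) := Nat.pow_le_pow_right hD1 hk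
  have hDz : ((D : ℝ≥0∞) ^ (k * r)) ≠ 0 := pow_ne_zero _ (by exact_mod_cast (show D ≠ 0 by omega))
  have hDt : ((D : ℝ≥0∞) ^ (k * r)) ≠ ∞ := ENNReal.pow_ne_top (ENNReal.natCast_ne_top D)
  have hLz : ((L : ℝ≥0∞) + 1) ^ m ≠ 0 := pow_ne_zero _ (by positivity)
  have hLt : ((L : ℝ≥0∞) + 1) ^ m ≠ ∞ := ENNReal.pow_ne_top (by finiteness)
  rw [← pow_mul, ← ENNReal.inv_pow, ← mul_div_assoc, ← mul_div_assoc, ENNReal.div_le_iff hDz hDt]
  rw [← ENNReal.div_eq_inv_mul, ENNReal.le_div_iff_mul_le (Or.inl hLz) (Or.inl hLt)]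
  exact_mod_cast h4

/-- `((L + 1)⁻¹) ^ m ≤ n ^ (-X)` for `m ≥ c log n`. -/
theorem pow_log {c X : ℝ} (hc : 0 < c) : ∃ L : ℕ, ∀ n m : ℕ, 1 ≤ n → c * Real.log n ≤ m →
    ((L : ℝ≥0∞) + 1)⁻¹ ^ m ≤ ENNReal.ofReal ((n : ℝ) ^ (-X)) := by
  obtain ⟨L, hL⟩ := exists_nat_gt (Real.exp (max X 0 / c))
  refine ⟨L, fun n m hn hm => ?_⟩
  have hn0 : (0 : ℝ) < n := by exact_mod_cast (show 0 < n by omega)
  have hlog : 0 ≤ Real.log n := Real.log_nonneg (by exact_mod_cast hn)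
  have hL1 : (1 : ℝ) ≤ (L : ℝ) + 1 := by
    have : (0 : ℝ) ≤ L := Nat.cast_nonneg _
    linarith
  have hL0 : (0 : ℝ) < (L : ℝ) + 1 := by linarith
  have e1 : ((L : ℝ≥0∞) + 1)⁻¹ ^ m = ENNReal.ofReal (((L : ℝ) + 1)⁻¹ ^ m) := by
    rw [ENNReal.ofReal_pow (by positivity), ENNReal.ofReal_inv_of_pos hL0]
    congr 2
    rw [ENNReal.ofReal_add (Nat.cast_nonneg _) zero_le_one, ENNReal.ofReal_natCast, ENNReal.ofReal_one]
  rw [e1]
  refine ENNReal.ofReal_le_ofReal ?_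
  have h1 : max X 0 / c ≤ Real.log ((L : ℝ) + 1) := by
    rw [Real.le_log_iff_exp_le hL0]
    linarith
  have h2 : Real.log n * X ≤ m * Real.log ((L : ℝ) + 1) := by
    have h3 : Real.log n * X ≤ Real.log n * max X 0 := mul_le_mul_of_nonneg_left (le_max_left _ _) hlog
    have h4 : Real.log n * max X 0 = (c * Real.log n) * (max X 0 / c) := by
      field_simp
    have h5 : 0 ≤ max X 0 / c := div_nonneg (le_max_right _ _) hc.le
    have h6 : (c * Real.log n) * (max X 0 / c) ≤ m * (max X 0 / c) := mul_le_mul_of_nonneg_right hm h5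
    have h7 : (m : ℝ) * (max X 0 / c) ≤ m * Real.log ((L : ℝ) + 1) := mul_le_mul_of_nonneg_left h1 (Nat.cast_nonneg _)
    linarith
  rw [Real.rpow_def_of_pos hn0, inv_pow, ← Real.exp_log (pow_pos hL0 m), ← Real.exp_neg, Real.exp_le_exp, Real.log_pow]
  linarith

/-- **THE NUMBERS OF THE POTENTIAL.** -/
theorem numP40 (A s : ℕ) (hA : 1 ≤ A) {d c : ℝ} (X : ℝ) (hd : 0 < d) (hc : 0 < c) : ∃ D k z : ℕ, 1 ≤ D ∧ 1 ≤ k ∧ 1 ≤ z ∧
    ∀ C2 : ℕ, ∃ lam0 : ℕ, ∀ lam g : ℕ, lam0 ≤ lam → ∀ n M mt Nt : ℕ, 1 ≤ n → 1 ≤ M → k ≤ M → g ≤ M → c * Real.log n ≤ M →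
      M ≤ mt → mt ≤ 2 * M → Nt ≤ A ^ mt → ∀ Sw : Finset ℤ, Sw.card ≤ s →
        (((6 * (C2 + 3) * nSt M g lam + 2 * ((M + g) / D) + 9 * (M / k) + 9 * (Sw.card * (M / k)) : ℕ) : ℝ) ≤ d * M) ∧
          (nCodeJ Nt (A ^ 2) mt g : ℝ≥0∞) * (3 * ((2 : ℝ≥0∞) ^ (3 * (mt + g) + 1) / (z : ℝ≥0∞) ^ (M / k))) ≤
            ENNReal.ofReal ((n : ℝ) ^ (-X)) := by
  obtain ⟨k, hk⟩ := exists_nat_gt (36 * ((s : ℝ) + 1) / d)
  obtain ⟨D, hD⟩ := exists_nat_gt (16 / d)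
  have hk0 : 0 < (k : ℝ) := lt_trans (by positivity) hk
  have hD0 : 0 < (D : ℝ) := lt_trans (by positivity) hD
  have hk1 : 1 ≤ k := by
    have : 0 < k := by exact_mod_cast hk0
    omega
  have hD1 : 1 ≤ D := by
    have : 0 < D := by exact_mod_cast hD0
    omega
  obtain ⟨L, hL⟩ := pow_log (X := X) hc
  obtain ⟨z, hz1, hz⟩ := numZ (A ^ 2) L (Nat.one_le_pow _ _ hA)
  refine ⟨D, k, z ^ (4 * k), hD1, hk1, Nat.one_le_pow _ _ hz1, fun C2 => ?_⟩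
  obtain ⟨l0, hl0⟩ := exists_nat_gt (48 * ((C2 : ℝ) + 3) / d)
  have hl00 : 0 < (l0 : ℝ) := lt_trans (by positivity) hl0
  refine ⟨l0, fun lam g hlam n M mt Nt hn hM1 hkM hgM hcM hMm hm2 hNt Sw hSw => ⟨?_, ?_⟩⟩
  · have hMR : (0 : ℝ) ≤ M := Nat.cast_nonneg _
    have hgR : (g : ℝ) ≤ M := by exact_mod_cast hgM
    have hlamR : (l0 : ℝ) ≤ lam := by exact_mod_cast hlam
    have hlam0 : 0 < (lam : ℝ) := lt_of_lt_of_le hl00 hlamR
    have hsw : (Sw.card : ℝ) ≤ s := by exact_mod_cast hSw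
    have hs0 : (0 : ℝ) ≤ s := Nat.cast_nonneg _
    -- the four terms
    have n1 : ((nSt M g lam : ℕ) : ℝ) ≤ 2 * M / lam := by
      have h1 : ((nSt M g lam : ℕ) : ℝ) ≤ ((M + g : ℕ) : ℝ) / ((lam + g : ℕ) : ℝ) := by
        unfold nSt
        exact Nat.cast_div_le
      refine h1.trans ?_
      rw [div_le_div_iff₀ (by push_cast; positivity) hlam0]
      push_cast
      nlinarith [Nat.cast_nonneg (α := ℝ) g]
    have n2 : (((M + g) / D : ℕ) : ℝ) ≤ 2 * M / D := by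
      have h1 : (((M + g) / D : ℕ) : ℝ) ≤ ((M + g : ℕ) : ℝ) / D := Nat.cast_div_le
      refine h1.trans ?_
      refine div_le_div_of_nonneg_right ?_ hD0.le
      push_cast
      linarith
    have n3 : ((M / k : ℕ) : ℝ) ≤ M / k := Nat.cast_div_le
    have m1 : 6 * ((C2 : ℝ) + 3) * (2 * M / lam) ≤ d / 4 * M := by
      have h1 : 48 * ((C2 : ℝ) + 3) ≤ d * lam := by
        have h2 := hl0.trans_le hlamR
        rw [div_lt_iff₀ hd] at h2
        linarith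
      have e : 6 * ((C2 : ℝ) + 3) * (2 * M / lam) = (12 * ((C2 : ℝ) + 3) * M) / lam := by ring
      rw [e, div_le_iff₀ hlam0]
      nlinarith
    have m2 : 2 * (2 * (M : ℝ) / D) ≤ d / 4 * M := by
      have h1 : 16 ≤ d * D := by
        rw [div_lt_iff₀ hd] at hD
        linarith
      have e : 2 * (2 * (M : ℝ) / D) = 4 * M / D := by ring
      rw [e, div_le_iff₀ hD0]
      nlinarith
    have m3 : 9 * ((s : ℝ) + 1) * (M / k) ≤ d / 4 * M := by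
      have h1 : 36 * ((s : ℝ) + 1) ≤ d * k := by
        rw [div_lt_iff₀ hd] at hk
        linarith
      have e : 9 * ((s : ℝ) + 1) * (M / k) = (9 * ((s : ℝ) + 1) * M) / k := by ring
      rw [e, div_le_iff₀ hk0]
      nlinarith
    have hC2 : (0 : ℝ) ≤ 6 * ((C2 : ℝ) + 3) := by positivity
    have t1 := mul_le_mul_of_nonneg_left n1 hC2
    have hq : (0 : ℝ) ≤ ((M / k : ℕ) : ℝ) := Nat.cast_nonneg _
    have t3 : (Sw.card : ℝ) * ((M / k : ℕ) : ℝ) ≤ s * (M / k) := by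
      calc (Sw.card : ℝ) * ((M / k : ℕ) : ℝ) ≤ s * ((M / k : ℕ) : ℝ) := mul_le_mul_of_nonneg_right hsw hq
        _ ≤ s * (M / k) := mul_le_mul_of_nonneg_left n3 hs0
    rw [Nat.cast_add, Nat.cast_add, Nat.cast_add, Nat.cast_mul, Nat.cast_mul, Nat.cast_mul, Nat.cast_mul, Nat.cast_mul 9 (Sw.card * (M / k)),
      Nat.cast_mul]
    push_cast at *
    nlinarith
  · have h1 : mt ≤ 4 * k * (M / k) := by
      have h2 := Nat.div_add_mod M k
      have h3 := Nat.mod_lt M (show 0 < k by omega)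
      have h4 : 1 ≤ M / k := (Nat.one_le_div_iff (by omega)).2 hkM
      have h5 : k ≤ k * (M / k) := Nat.le_mul_of_pos_right _ h4
      have h6 : M ≤ 2 * (k * (M / k)) := by omega
      calc mt ≤ 2 * M := hm2
        _ ≤ 4 * k * (M / k) := by rw [show 4 * k * (M / k) = 4 * (k * (M / k)) by ring]; omega
    have h2 := hz mt g (M / k) (by omega) (by omega) (4 * k) h1 Nt (by
      calc Nt ^ 2 ≤ (A ^ mt) ^ 2 := Nat.pow_le_pow_left hNt 2
        _ = (A ^ 2) ^ mt := by rw [← pow_mul, ← pow_mul, mul_comm])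
    push_cast
    refine h2.trans (hL n mt hn (hcM.trans (by exact_mod_cast hMm)))

/-- A stretched exponential tail at the level `q₀ θ ^ (M / k)`, `M ≥ c log n`, beats every power. -/
theorem tailP40 {th a gg c : ℝ} (AA p X : ℝ) (hth : 1 < th) (ha : 0 < a) (hg : 0 < gg) (hc : 0 < c) (k : ℕ) (hk : 1 ≤ k) :
    ∃ n0 : ℕ, ∀ n M : ℕ, n0 ≤ n → c * Real.log n ≤ M → ∀ q₀ F : ℝ, 1 ≤ q₀ → 0 ≤ F → F ≤ (n : ℝ) ^ p →
      F ^ 2 * (AA * Real.exp (-(a * (q₀ * th ^ (M / k)) ^ gg))) ≤ (n : ℝ) ^ (-X) := by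
  have hth0 : 0 < th := by linarith
  have hk0 : (0 : ℝ) < k := by exact_mod_cast (show 0 < k by omega)
  have hlth : 0 < Real.log th := Real.log_pos hth
  -- the exponent `e`
  obtain ⟨e, he⟩ : ∃ e, e = c / k * Real.log th * gg := ⟨_, rfl⟩
  have he0 : 0 < e := by rw [he]; positivity
  -- `a' n ^ e ≥ (X + 2 p + 1) log n + log |AA|`
  obtain ⟨a', ha'⟩ : ∃ a', a' = a * (th ^ (-gg)) := ⟨_, rfl⟩
  have ha0 : 0 < a' := by rw [ha']; positivity
  have hlim : Filter.Tendsto (fun x : ℝ => a' * x ^ e - (X + 2 * p) * Real.log x - |AA|) Filter.atTop Filter.atTop := by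
    have h1 : (fun x : ℝ => Real.log x) =o[Filter.atTop] fun x => x ^ e := isLittleO_log_rpow_atTop he0
    have h2 : (fun _ : ℝ => |AA|) =o[Filter.atTop] fun x : ℝ => x ^ e :=
      (Asymptotics.isLittleO_const_left.2 (Or.inr (Filter.tendsto_abs_atTop_atTop.comp (tendsto_rpow_atTop he0))))
    have h3 : (fun x : ℝ => (X + 2 * p) * Real.log x + |AA|) =o[Filter.atTop] fun x : ℝ => x ^ e :=
      (h1.const_mul_left (X + 2 * p)).add h2
    have h4 := h3.def (half_pos ha0)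
    refine Filter.tendsto_atTop_mono' _ ?_ ((tendsto_rpow_atTop he0).const_mul_atTop (half_pos ha0))
    filter_upwards [h4, Filter.eventually_ge_atTop 0] with x hx hx0
    have h5 : ‖x ^ e‖ = x ^ e := by rw [Real.norm_eq_abs, abs_of_nonneg (Real.rpow_nonneg hx0 _)]
    rw [h5, Real.norm_eq_abs] at hx
    have h6 := le_abs_self ((X + 2 * p) * Real.log x + |AA|)
    linarith
  obtain ⟨x0, hx0⟩ := (Filter.eventually_atTop.1 (hlim.eventually (Filter.eventually_ge_atTop 0)))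
  refine ⟨max 1 ⌈x0⌉₊, fun n M hn hM q₀ F hq hF0 hF => ?_⟩
  have hn1 : 1 ≤ n := (le_max_left _ _).trans hn
  have hnx : x0 ≤ n := (Nat.le_ceil x0).trans (by exact_mod_cast (le_max_right _ _).trans hn)
  have hnR : (1 : ℝ) ≤ n := by exact_mod_cast hn1
  have hn0 : (0 : ℝ) < n := by linarith
  have hlog : 0 ≤ Real.log n := Real.log_nonneg hnR
  have key := hx0 n hnx
  -- `q₀ θ ^ (M / k) ≥ θ⁻¹ n ^ (c log θ / k)`
  have h1 : ((M : ℝ) / k) - 1 ≤ ((M / k : ℕ) : ℝ) := by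
    have h2 := Nat.lt_floor_add_one ((M : ℝ) / k)
    rw [Nat.floor_div_eq_div] at h2
    linarith
  have h2 : c / k * Real.log n ≤ (M : ℝ) / k := by
    rw [div_mul_eq_mul_div]
    exact div_le_div_of_nonneg_right hM hk0.le
  have h3 : th ^ (-(1 : ℝ)) * (n : ℝ) ^ (c / k * Real.log th) ≤ q₀ * th ^ (M / k) := by
    have h4 : th ^ (-(1 : ℝ)) * (n : ℝ) ^ (c / k * Real.log th) ≤ th ^ (M / k) := by
      rw [← Real.rpow_natCast th (M / k), Real.rpow_def_of_pos hth0, Real.rpow_def_of_pos hn0, Real.rpow_def_of_pos hth0,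
        ← Real.exp_add, Real.exp_le_exp]
      have h5 : Real.log th * (c / k * Real.log n - 1) ≤ Real.log th * ((M / k : ℕ) : ℝ) :=
        mul_le_mul_of_nonneg_left (by linarith) hlth.le
      linarith
    have h5 : 0 ≤ th ^ (M / k) := by positivity
    nlinarith
  have h4 : a' * (n : ℝ) ^ e ≤ a * (q₀ * th ^ (M / k)) ^ gg := by
    have h5 := Real.rpow_le_rpow (by positivity) h3 hg.le
    rw [Real.mul_rpow (by positivity) (by positivity), ← Real.rpow_mul hth0.le, ← Real.rpow_mul hn0.le, neg_one_mul] at h5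
    rw [ha', he]
    calc a * th ^ (-gg) * (n : ℝ) ^ (c / k * Real.log th * gg) = a * (th ^ (-gg) * (n : ℝ) ^ (c / k * Real.log th * gg)) := by ring
      _ ≤ _ := mul_le_mul_of_nonneg_left h5 ha.le
  have h5 : F ^ 2 ≤ (n : ℝ) ^ (2 * p) := by
    calc F ^ 2 ≤ ((n : ℝ) ^ p) ^ 2 := pow_le_pow_left₀ hF0 hF 2
      _ = (n : ℝ) ^ (2 * p) := by rw [← Real.rpow_natCast, ← Real.rpow_mul hn0.le]; congr 1; push_cast; ring
  have h6 : AA * Real.exp (-(a * (q₀ * th ^ (M / k)) ^ gg)) ≤ Real.exp (|AA| - a' * (n : ℝ) ^ e) := by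
    have h7 : AA ≤ Real.exp |AA| := by
      have := Real.add_one_le_exp |AA|
      have := le_abs_self AA
      linarith
    calc AA * Real.exp (-(a * (q₀ * th ^ (M / k)) ^ gg)) ≤ Real.exp |AA| * Real.exp (-(a * (q₀ * th ^ (M / k)) ^ gg)) :=
          mul_le_mul_of_nonneg_right h7 (Real.exp_pos _).le
      _ = Real.exp (|AA| - a * (q₀ * th ^ (M / k)) ^ gg) := by rw [← Real.exp_add, sub_eq_add_neg]
      _ ≤ _ := Real.exp_le_exp.2 (by linarith)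
  calc F ^ 2 * (AA * Real.exp (-(a * (q₀ * th ^ (M / k)) ^ gg)))
      ≤ F ^ 2 * Real.exp (|AA| - a' * (n : ℝ) ^ e) := mul_le_mul_of_nonneg_left h6 (sq_nonneg _)
    _ ≤ (n : ℝ) ^ (2 * p) * Real.exp (|AA| - a' * (n : ℝ) ^ e) := mul_le_mul_of_nonneg_right h5 (Real.exp_pos _).le
    _ = Real.exp (Real.log n * (2 * p) + (|AA| - a' * (n : ℝ) ^ e)) := by rw [Real.rpow_def_of_pos hn0, ← Real.exp_add]
    _ ≤ (n : ℝ) ^ (-X) := by
        rw [Real.rpow_def_of_pos hn0 (-X), Real.exp_le_exp]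
        have h8 : 0 ≤ a' * (n : ℝ) ^ e - (X + 2 * p) * Real.log n - |AA| := key
        nlinarith

end

end Pool.Agent.W_7d29a1_C1.H40
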