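import Pool.Agent.W_7d29a1_C1.HT86
import Pool.Agent.W_7d29a1_C1.NumP40

/-!
MP_7d29a1_pr, the attractor route [C1], SEP: THE POTENTIAL IS SMALL ONLY WITH POLYNOMIALLY SMALL PROBABILITY, with all the numbers in
the order of the quantifiers (helper40): `potN40` = potC86 (helper86) + numP40 + tailP40.
-/

set_option autoImplicit false

namespace Pool.Agent.W_7d29a1_C1.H40

open MeasureTheory Finset
open Pool.Agent.W_7d29a1_F Pool.Agent.W_7d29a1_C1.S71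
open Pool.Agent.W_7d29a1_C1.H60
open Pool.Agent.W_7d29a1_C1.G37 (Gm)
open Pool.Agent.W_7d29a1_C1.Dep6
open Pool.Agent.W_7d29a1_C1.SF98
open Pool.Agent.W_7d29a1_C1.PS86 (pot86)
open Pool.Agent.W_7d29a1_C1.PW86
open scoped ENNReal

noncomputable section

/-- `n ^ 13 ≤ A ^ m`. -/
theorem pow13_le {A n m : ℕ} {c : ℝ} (hc : 0 < c) (hA : Real.exp (13 / c) ≤ A) (hn : 1 ≤ n) (hm : c * Real.log n ≤ m) :
    n ^ 13 ≤ A ^ m := by
  have hn0 : (0 : ℝ) < n := by exact_mod_cast (show 0 < n by omega)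
  have hA0 : (0 : ℝ) < A := lt_of_lt_of_le (Real.exp_pos _) hA
  have hlog : 0 ≤ Real.log n := Real.log_nonneg (by exact_mod_cast hn)
  have h1 : 13 / c ≤ Real.log A := by
    rw [Real.le_log_iff_exp_le hA0]
    exact hA
  have h2 : 13 * Real.log n ≤ m * Real.log A := by
    calc 13 * Real.log n = (c * Real.log n) * (13 / c) := by field_simp
      _ ≤ m * (13 / c) := mul_le_mul_of_nonneg_right hm (by positivity)
      _ ≤ m * Real.log A := mul_le_mul_of_nonneg_left h1 (Nat.cast_nonneg _)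
  have h3 : (n : ℝ) ^ 13 ≤ (A : ℝ) ^ m := by
    rw [← Real.log_le_log_iff (by positivity) (by positivity), Real.log_pow, Real.log_pow]
    exact_mod_cast h2
  exact_mod_cast h3

/-- **THE POTENTIAL IS SMALL ONLY WITH POLYNOMIALLY SMALL PROBABILITY.** Order: `A` (cells per scale), `s` (switch rows), the fraction
`d`, `M ≥ c log n`, the exponent `X`; then `D`, `k`, the moment `z`; then the tails `th, a, gg, AA` of the depths; then `C2`; then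
`lam0`, `n0`. -/
theorem potN40 {μ : Measure ℝ} [IsProbabilityMeasure μ] (A s : ℕ) {d c : ℝ} (X : ℝ) (hd : 0 < d) (hc : 0 < c)
    (hAc : Real.exp (13 / c) ≤ A) : ∃ D k z : ℕ, 1 ≤ D ∧ 1 ≤ k ∧ 1 ≤ z ∧
    ∀ th a gg AA : ℝ, 1 < th → 0 < a → 0 < gg → ∀ C2 : ℕ, ∃ lam0 n0 : ℕ, ∀ (Γ : Cx) (G : Gm) (mt lam m3 n τ : ℕ), n0 ≤ n →
      lam0 ≤ lam → G.M + G.m2 ≤ mt + 1 → mt ≤ 2 * G.M → G.m2 ≤ G.M → k ≤ G.M → c * Real.log n ≤ G.M → G.M ≤ n →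
      G.A0n ≤ A → G.An ≤ A ^ lam → Fintype.card (XS Γ G mt) ≤ n ^ 13 →
      ∀ (C0 : ℝ), 4 * (G.kn + (G.kb + 1) + 1) ≤ C0 →
      ∀ (dL : Cut (ℤ × ℤ) → Cut (ℤ × ℤ) → Env → ℕ) (dN : Cut (ℤ × ℤ) → Cut (ℤ × ℤ) → Cut (ℤ × ℤ) → Env → ℕ),
        Dp2 μ z 2 dL → Dp3 μ z 2 dN → ∀ q₀ : ℝ, 1 ≤ q₀ →
        (∀ e e', law μ {η | G.M / k < dL e e' η} ≤ ENNReal.ofReal (AA * Real.exp (-(a * (q₀ * th ^ (G.M / k)) ^ gg)))) →
      ∀ (TT : ℝ → ℕ → ℤ × ℤ → Set Env), (∀ σ σ' u κ, σ ≤ σ' → TT σ u κ ⊆ TT σ' u κ) → ∀ σ : ℝ, 0 ≤ σ →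
      ∀ (Sw : Finset ℤ) (scL : Cut (ℤ × ℤ) → Cut (ℤ × ℤ) → ℕ) (scN : Cut (ℤ × ℤ) → Cut (ℤ × ℤ) → Cut (ℤ × ℤ) → ℕ) (bad : Set Env),
        Sw.card ≤ s → Cl86 Γ G mt Sw (G.M / k) dL dN scL scN C0 C2 D τ bad (TT 0) → law μ bad ≤ ENNReal.ofReal ((n : ℝ) ^ (-X)) →
      ∀ (y : ℝ≥0∞), y ≤ 1 → ∀ b : ℕ, d * G.M ≤ b →
        law μ {η | ∃ x : XS Γ G mt, pot86 Γ G mt lam m3 TT y τ σ x η < y ^ (3 * b)} ≤ 3 * ENNReal.ofReal ((n : ℝ) ^ (-X)) := by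
  have hA : 1 ≤ A := by
    have : (0 : ℝ) < A := lt_of_lt_of_le (Real.exp_pos _) hAc
    have : 0 < A := by exact_mod_cast this
    omega
  obtain ⟨D, k, z, hD, hk, hz, H⟩ := numP40 A s hA X hd hc
  refine ⟨D, k, z, hD, hk, hz, fun th a gg AA hth ha hgg C2 => ?_⟩
  obtain ⟨lam0, H⟩ := H C2
  obtain ⟨n1, Ht⟩ := tailP40 AA 15 X hth ha hgg hc k hk
  refine ⟨lam0, max (max n1 5) 1, fun Γ G mt lam m3 n τ hn hlam hmt hmt2 hm2 hkM hcM hMn hA0 hAn hX C0 hC0 dL dN hL hN q₀ hq htl TT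
    mT σ hσ Sw scL scN bad hSw hT hbad y hy b hb => ?_⟩
  have hn1 : n1 ≤ n := by omega
  have hn5 : 5 ≤ n := by omega
  have hM1 : 1 ≤ G.M := by omega
  have hm23 := G.m2_ge
  have hMmt : G.M ≤ mt := by omega
  have hnR : (1 : ℝ) ≤ n := by exact_mod_cast (show 1 ≤ n by omega)
  have hcmt : c * Real.log n ≤ mt := hcM.trans (by exact_mod_cast hMmt)
  have hcard : (FS Γ G mt).card ≤ n ^ 13 := by rwa [Fintype.card_coe] at hX
  have hNt : max 1 ((FS Γ G mt).image (G.loc mt)).card ≤ A ^ mt := by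
    refine max_le (Nat.one_le_pow _ _ hA) ((card_image_le.trans hcard).trans (pow13_le hc hAc (by omega) hcmt))
  obtain ⟨k1, k2⟩ := H lam G.m2 hlam n G.M mt _ (by omega) hM1 hkM hm2 hcM hMmt hmt2 hNt Sw hSw
  have hb' : 6 * (C2 + 3) * nSt G.M G.m2 lam + 2 * ((G.M + G.m2) / D) + 9 * (G.M / k) + 9 * (Sw.card * (G.M / k)) ≤ b := by
    exact_mod_cast k1.trans hb
  have h1 := potC86 (Γ := Γ) (G := G) (m3 := m3) (σ := σ) hmt hA0 hAn hC0 hD (z := (z : ℝ≥0∞)) (M := 2) hL hN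
    (by exact_mod_cast hz) (ENNReal.natCast_ne_top z) (by norm_num) htl hσ mT hT hy hb'
  refine h1.trans ?_
  have h2 : ((FW6 (gj Γ G mt)).card : ℝ≥0∞) ^ 2 * ENNReal.ofReal (AA * Real.exp (-(a * (q₀ * th ^ (G.M / k)) ^ gg))) ≤
      ENNReal.ofReal ((n : ℝ) ^ (-X)) := by
    have hF : ((FW6 (gj Γ G mt)).card : ℝ) ≤ (n : ℝ) ^ (15 : ℝ) := by
      have h3 : (FW6 (gj Γ G mt)).card ≤ n ^ 15 := by
        refine card_FW86.trans ?_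
        have h4 : 2 * (mt + 1) ≤ n ^ 2 := by nlinarith
        calc 2 * ((FS Γ G mt).card * (mt + 1)) ≤ 2 * (n ^ 13 * (mt + 1)) := by gcongr
          _ = n ^ 13 * (2 * (mt + 1)) := by ring
          _ ≤ n ^ 13 * n ^ 2 := Nat.mul_le_mul_left _ h4
          _ = n ^ 15 := by rw [← pow_add]
      have h5 : ((FW6 (gj Γ G mt)).card : ℝ) ≤ ((n ^ 15 : ℕ) : ℝ) := by exact_mod_cast h3
      refine h5.trans (le_of_eq ?_)
      push_cast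
      rw [← Real.rpow_natCast]
      norm_num
    have h6 := Ht n G.M hn1 hcM q₀ _ hq (Nat.cast_nonneg _) hF
    refine le_trans ?_ (ENNReal.ofReal_le_ofReal h6)
    rw [ENNReal.ofReal_mul (sq_nonneg _), ENNReal.ofReal_pow (Nat.cast_nonneg _), ENNReal.ofReal_natCast]
  calc (law μ bad + ((FW6 (gj Γ G mt)).card : ℝ≥0∞) ^ 2 * ENNReal.ofReal (AA * Real.exp (-(a * (q₀ * th ^ (G.M / k)) ^ gg)))) +
        (nCodeJ (max 1 ((FS Γ G mt).image (G.loc mt)).card) (A ^ 2) mt G.m2 : ℝ≥0∞) *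
          (3 * (2 ^ (3 * (mt + G.m2) + 1) / (z : ℝ≥0∞) ^ (G.M / k)))
      ≤ (ENNReal.ofReal ((n : ℝ) ^ (-X)) + ENNReal.ofReal ((n : ℝ) ^ (-X))) + ENNReal.ofReal ((n : ℝ) ^ (-X)) := by gcongr
    _ = 3 * ENNReal.ofReal ((n : ℝ) ^ (-X)) := by ring

end

end Pool.Agent.W_7d29a1_C1.H40
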