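import Pool.Agent.W_7d29a1_C1.HT86

/-!
Both halves (MP_7d29a1_pr), attractor route [C1], SEP: THE SCALES CLOSE TO `M` ARE NOT ASKED (helper86, for helper16, helper40)

`cut86 G e X` : the event `X` is asked at the scales `u + e ≤ M` only. `Tc86` : the same for the typical events. `pot_cut86` : the potential
loses at most `y ^ e` (a chain has at most one own slab per scale); `lt_cut86` : the rare event. `Cl86.cut`, `Cl86.interc`, `htc86` : clauses.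
-/

set_option autoImplicit false

namespace Pool.Agent.W_7d29a1_C1.PW86

open Finset MeasureTheory
open Pool.Agent.W_7d29a1_F Pool.Agent.W_7d29a1_C1.S71
open Pool.Agent.W_7d29a1_C1.H60
open Pool.Agent.W_7d29a1_C1.G37 (Gm)
open Pool.Agent.W_7d29a1_C1.H40
open Pool.Agent.W_7d29a1_C1.Dep6
open Pool.Agent.W_7d29a1_C1.SF98
open Pool.Agent.W_7d29a1_C1.P25 (TT25)
open Pool.Agent.W_7d29a1_C1.PS86 (rj pot86 dpT_le TS)
open scoped ENNReal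

noncomputable section

/-! ### Chains -/

section Chn

variable {σ Ω : Type*} {R : RJ σ}

theorem dst_add86 (dep dep' : ℕ → σ → Ω → ℕ) (c : SJ σ) (ω : Ω) :
    R.dst (fun u ρ ω => dep u ρ ω + dep' u ρ ω) c ω = R.dst dep c ω + R.dst dep' c ω := by
  unfold RJ.dst
  rw [sum_add_distrib, sum_add_distrib, sum_add_distrib]
  ring

theorem nm_add86 (dep dep' : ℕ → σ → Ω → ℕ) (l : List (SJ σ)) (ω : Ω) :
    R.nm (fun u ρ ω => dep u ρ ω + dep' u ρ ω) l ω = R.nm dep l ω + R.nm dep' l ω := by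
  induction l with
  | nil => rfl
  | cons c l ih =>
    rw [RJ.nm_cons, RJ.nm_cons, RJ.nm_cons, ih, dst_add86]
    ring

theorem nm_le86 {dep dep' : ℕ → σ → Ω → ℕ} {ω : Ω} (h : ∀ u ρ, dep u ρ ω ≤ dep' u ρ ω) (l : List (SJ σ)) :
    R.nm dep l ω ≤ R.nm dep' l ω := by
  refine List.sum_le_sum fun c _ => ?_
  exact Nat.add_le_add (Nat.add_le_add (sum_le_sum fun u _ => h _ _) (sum_le_sum fun u _ => h _ _)) (sum_le_sum fun u _ => h _ _)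

/-- **THE POTENTIAL LOSES `y ^ e`** if `e` scales are not asked. -/
theorem Pot_cut86 {T : ℕ → σ → Set Ω} {y : ℝ≥0∞} (hy : y ≤ 1) (hg : 1 ≤ R.g) (e : ℕ) (x : σ) (τ : ℕ) (ω : Ω) :
    y ^ e * R.Pot (Rl.dpT fun u ρ => {ω | u + e ≤ R.m → ω ∈ T u ρ}) y x τ ω ≤ R.Pot (Rl.dpT T) y x τ ω := by
  classical
  refine le_iInf fun l => (mul_le_mul' le_rfl (iInf_le _ l)).trans ?_
  obtain ⟨l, hl⟩ := l
  rw [← pow_add]
  refine pow_le_pow_right_of_le_one' hy ?_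
  show R.nm (Rl.dpT T) l ω ≤ e + R.nm (Rl.dpT fun u ρ => {ω | u + e ≤ R.m → ω ∈ T u ρ}) l ω
  have h1 : R.nm (Rl.dpT T) l ω ≤
      R.nm (fun u ρ ω => Rl.dpT (fun u ρ => {ω | u + e ≤ R.m → ω ∈ T u ρ}) u ρ ω + (if R.m < u + e then 1 else 0)) l ω := by
    refine nm_le86 (fun u ρ => ?_) l
    by_cases h2 : R.m < u + e
    · rw [if_pos h2]
      have : Rl.dpT T u ρ ω ≤ 1 := by unfold Rl.dpT; split_ifs <;> omega
      omega
    · rw [if_neg h2, add_zero]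
      refine dpT_le fun h3 => h3 (by omega)
  have h2 : R.nm (fun (u : ℕ) (_ : σ) (_ : Ω) => (if R.m < u + e then 1 else 0)) l ω ≤ e := by
    refine (nm_le_sumJ (f := fun u => if R.m < u + e then 1 else 0) hg hl fun c _ u ρ _ => le_rfl).trans ?_
    rw [← card_filter]
    refine (card_le_card (t := Ico (R.m - e) R.m) fun u hu => ?_).trans ?_
    · rw [mem_filter, mem_Ico] at hu
      rw [mem_Ico]
      omega
    · rw [Nat.card_Ico]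
      omega
  rw [nm_add86] at h1
  omega

end Chn

/-! ### The cut events -/

variable {G : Gm} {e : ℕ} {X Y : ℕ → ℤ × ℤ → Set Env} {u : ℕ} {κ : ℤ × ℤ}

/-- **The scales close to `M` are not asked.** -/
def cut86 (G : Gm) (e : ℕ) (X : ℕ → ℤ × ℤ → Set Env) (u : ℕ) (κ : ℤ × ℤ) : Set Env := {ω | u + e ≤ G.M → ω ∈ X u κ}

/-- The typical events, the scales close to `M` are not asked. -/
def Tc86 (G : Gm) (e : ℕ) (TT : ℝ → ℕ → ℤ × ℤ → Set Env) (sg : ℝ) : ℕ → ℤ × ℤ → Set Env := cut86 G e (TT sg)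

theorem mem_cut86 {ω : Env} : ω ∈ cut86 G e X u κ ↔ (u + e ≤ G.M → ω ∈ X u κ) := Iff.rfl

theorem sub_cut86 : X u κ ⊆ cut86 G e X u κ := fun _ h _ => h

theorem cut_mono86 (h : X u κ ⊆ Y u κ) : cut86 G e X u κ ⊆ cut86 G e Y u κ := fun _ h1 h2 => h (h1 h2)

theorem cut_inter86 : cut86 G e X u κ ∩ cut86 G e Y u κ ⊆ cut86 G e (fun u κ => X u κ ∩ Y u κ) u κ := fun _ h h' => ⟨h.1 h', h.2 h'⟩

theorem Tc_mono86 {TT : ℝ → ℕ → ℤ × ℤ → Set Env} (hT : ∀ σ σ' u κ, σ ≤ σ' → TT σ u κ ⊆ TT σ' u κ) (σ σ' : ℝ) (u : ℕ) (κ : ℤ × ℤ)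
    (h : σ ≤ σ') : Tc86 G e TT σ u κ ⊆ Tc86 G e TT σ' u κ := cut_mono86 (hT σ σ' u κ h)

/-! ### The potential -/

section Pt

variable {Γ : Cx} {mt lam m3 : ℕ} {TT : ℝ → ℕ → ℤ × ℤ → Set Env} {y : ℝ≥0∞} {τ : ℕ} {σ : ℝ}

/-- **THE POTENTIAL LOSES AT MOST `y ^ e`.** -/
theorem pot_cut86 (hy : y ≤ 1) (e : ℕ) (x : XS Γ G mt) (ω : Env) :
    y ^ e * pot86 Γ G mt lam m3 (Tc86 G e TT) y τ σ x ω ≤ pot86 Γ G mt lam m3 TT y τ σ x ω := by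
  have h1 := G.m2_ge
  exact Pot_cut86 (R := rj Γ G mt lam m3) (T := TS Γ G mt TT σ) hy (show 1 ≤ G.m2 by omega) e x τ ω

/-- **THE RARE EVENT.** -/
theorem lt_cut86 (hy : y ≤ 1) (e a : ℕ) : {ω | ∃ x : XS Γ G mt, pot86 Γ G mt lam m3 TT y τ σ x ω < y ^ (a + e)} ⊆
    {ω | ∃ x : XS Γ G mt, pot86 Γ G mt lam m3 (Tc86 G e TT) y τ σ x ω < y ^ a} := by
  rintro ω ⟨x, hx⟩
  refine ⟨x, ?_⟩
  have h1 := (pot_cut86 hy e x ω).trans_lt hx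
  rw [add_comm, pow_add] at h1
  exact lt_of_mul_lt_mul_left' h1

end Pt

/-! ### The clauses -/

section Cls

variable {Γ : Cx} {mt : ℕ} {Sw : Finset ℤ} {E0 : ℕ} {dL : Cut (ℤ × ℤ) → Cut (ℤ × ℤ) → Env → ℕ}
  {dN : Cut (ℤ × ℤ) → Cut (ℤ × ℤ) → Cut (ℤ × ℤ) → Env → ℕ} {scL : Cut (ℤ × ℤ) → Cut (ℤ × ℤ) → ℕ}
  {scN : Cut (ℤ × ℤ) → Cut (ℤ × ℤ) → Cut (ℤ × ℤ) → ℕ} {C0 : ℝ} {C2 D τ : ℕ} {bad bad' : Set Env}

theorem Cl86.cut (h : Cl86 Γ G mt Sw E0 dL dN scL scN C0 C2 D τ bad X) : Cl86 Γ G mt Sw E0 dL dN scL scN C0 C2 D τ bad (cut86 G e X) :=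
  h.mono subset_rfl fun _ _ => sub_cut86

theorem Cl86.interc (h : Cl86 Γ G mt Sw E0 dL dN scL scN C0 C2 D τ bad (cut86 G e X))
    (h' : Cl86 Γ G mt Sw E0 dL dN scL scN C0 C2 D τ bad' (cut86 G e Y)) :
    Cl86 Γ G mt Sw E0 dL dN scL scN C0 C2 D τ (bad ∪ bad') (cut86 G e fun u κ => X u κ ∩ Y u κ) :=
  (h.inter h').mono subset_rfl fun _ _ => cut_inter86

/-- **THE CLAUSE OF THE TYPICAL EVENTS** from the four cut clauses. -/
theorem htc86 {Lv : ℕ → ℤ × ℤ → Set Env} {Ou St Fw : ℝ → ℕ → ℤ × ℤ → Set Env} {bL bO bS bF : Set Env}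
    (cL : Cl86 Γ G mt Sw E0 dL dN scL scN C0 C2 D τ bL (cut86 G e Lv)) (cO : Cl86 Γ G mt Sw E0 dL dN scL scN C0 C2 D τ bO (cut86 G e (Ou 0)))
    (cS : Cl86 Γ G mt Sw E0 dL dN scL scN C0 C2 D τ bS (cut86 G e (St 0)))
    (cF : Cl86 Γ G mt Sw E0 dL dN scL scN C0 C2 D τ bF (cut86 G e (Fw 0))) :
    Cl86 Γ G mt Sw E0 dL dN scL scN C0 C2 D τ (bL ∪ (bO ∪ (bS ∪ bF))) (Tc86 G e (TT25 Lv Ou St Fw) 0) :=
  cL.interc (cO.interc (cS.interc cF))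

end Cls

end

end Pool.Agent.W_7d29a1_C1.PW86
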