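import Pool.Agent.W_7d29a1_C1.SepQ49
import Pool.Agent.W_7d29a1_C1.ChnS99
import Pool.Agent.W_7d29a1_C1.PotN40
import Pool.Agent.W_7d29a1_C1.LvP2
import Pool.Agent.W_7d29a1_C1.PotT86

/-!
MP_7d29a1_pr, attractor route [C1], SEP + TAME: THE QUANTIFIERS OF THE FIELD `hp`. (helper2)

`Tm`: the TAME data (levels, steep levels, nodes), `Tm.Ok`: what `depI6` gives. `ClQ`: a clause with the order of the constants. `LvE`: what the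
event `Lv` owes. **`hpQ2`**: the potential is small only with polynomially small probability, `Evn` form.
-/

set_option autoImplicit false

namespace Pool.Agent.W_7d29a1_C1.Hp2

open MeasureTheory Finset
open Pool.Agent.W_7d29a1_F Pool.Agent.W_7d29a1_h4g Pool.Agent.W_7d29a1_H Pool.Agent.W_7d29a1_HS
open Pool.Agent.W_7d29a1_C1.H60
open Pool.Agent.W_7d29a1_C1.H40
open Pool.Agent.W_7d29a1_C1.G37 (Gm Wok gmW)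
open Pool.Agent.W_7d29a1_C1.PS86 (pot86)
open Pool.Agent.W_7d29a1_C1.SF98
open Pool.Agent.W_7d29a1_C1.P25
open Pool.Agent.W_7d29a1_C1.N49
open Pool.Agent.W_7d29a1_C1.PW86
open Pool.Agent.W_7d29a1_C1.Dep6
open Pool.Agent.W_7d29a1_C1.Q49
open Pool.Agent.W_7d29a1_C1.S71 (Off)
open scoped ENNReal

noncomputable section

/-- The cuts. -/
abbrev Cu : Type := Cut (ℤ × ℤ)

/-! ### The TAME data -/

/-- **THE TAME DATA**: levels `F`, steep levels `F'`, nodes `X`, as functions of the geometry. -/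
structure Tm where
  th : ℝ
  q0 : ℝ
  Cn : ℕ
  F : Gm → Cu → Cu → ℝ → Set Env
  F' : Gm → Cu → Cu → ℝ → Set Env
  X : Gm → Cu → Cu → Cu → Env → ℕ

/-- The depth of a layer. -/
def Tm.dL (t : Tm) (G : Gm) (mt : ℕ) (E2 : Cu → Cu → Set Env) : Cu → Cu → Env → ℕ := dLI6 (t.F G) (t.F' G) E2 t.q0 t.th (mt + 1)

/-- The depth of a node. -/
def Tm.dN (t : Tm) (G : Gm) (mt : ℕ) (E3 : Cu → Cu → Cu → Set Env) : Cu → Cu → Cu → Env → ℕ :=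
  dNI6 (t.X G) t.Cn (t.F G) E3 t.q0 t.th (mt + 1)

/-- **The moments of the TAME data**, at all geometries whose base height is at least `n₁`. -/
structure Tm.Ok (t : Tm) (μ : Measure ℝ) (z : ℕ) (AA a gg : ℝ) (n₁ : ℕ) : Prop where
  q1 : 1 ≤ t.q0
  th1 : 1 < t.th
  a0 : 0 < a
  g0 : 0 < gg
  mL : ∀ G : Gm, n₁ ≤ G.T0 → ∀ (mt : ℕ) (E2 : Cu → Cu → Set Env) (d : ℝ≥0∞), Ev2 μ d E2 → (z : ℝ≥0∞) * d ≤ ENNReal.ofReal (1 / 2) →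
    Dp2 μ z 2 (t.dL G mt E2)
  mN : ∀ G : Gm, n₁ ≤ G.T0 → ∀ (mt : ℕ) (E3 : Cu → Cu → Cu → Set Env) (d : ℝ≥0∞), Ev3 μ d E3 →
    (z : ℝ≥0∞) * d ≤ ENNReal.ofReal (1 / 2) → Dp3 μ z 2 (t.dN G mt E3)
  tl : ∀ G : Gm, n₁ ≤ G.T0 → ∀ (mt : ℕ) (E2 : Cu → Cu → Set Env) (E₀ : ℕ), 1 ≤ E₀ → ∀ x y,
    law μ {η | E₀ < t.dL G mt E2 x y η} ≤ ENNReal.ofReal (AA * Real.exp (-(a * (t.q0 * t.th ^ E₀) ^ gg)))

/-! ### The numbers with maps -/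

/-- `potN40` with the clause with maps, `NB` of the fibres. Order: `A, s, NB`, `d, c`, `X`; then `D, k, z₀`; then every `z ≥ z₀`; then the
tails; `C2`; `lam0, n0`. -/
theorem potNS2 {μ : Measure ℝ} [IsProbabilityMeasure μ] (A s NB : ℕ) {d c : ℝ} (X : ℝ) (hd : 0 < d) (hc : 0 < c)
    (hAc : Real.exp (13 / c) ≤ A) : ∃ D k z₀ : ℕ, 1 ≤ D ∧ 1 ≤ k ∧ 1 ≤ z₀ ∧ ∀ z : ℕ, z₀ ≤ z →
    ∀ th a gg AA : ℝ, 1 < th → 0 < a → 0 < gg → ∀ C2 : ℕ, ∃ lam0 n0 : ℕ, ∀ (Γ : Cx) (G : Gm) (mt lam m3 n τ : ℕ), n0 ≤ n →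
      lam0 ≤ lam → G.M + G.m2 ≤ mt + 1 → mt ≤ 2 * G.M → G.m2 ≤ G.M → k ≤ G.M → c * Real.log n ≤ G.M → G.M ≤ n →
      G.A0n ≤ A → G.An ≤ A ^ lam → Fintype.card (XS Γ G mt) ≤ n ^ 13 →
      ∀ (C0 : ℝ), 4 * (G.kn + (G.kb + 1) + 1) ≤ C0 →
      ∀ (dL : Cut (ℤ × ℤ) → Cut (ℤ × ℤ) → Env → ℕ) (dN : Cut (ℤ × ℤ) → Cut (ℤ × ℤ) → Cut (ℤ × ℤ) → Env → ℕ),
        Dp2 μ z 2 dL → Dp3 μ z 2 dN → ∀ q₀ : ℝ, 1 ≤ q₀ →
        (∀ e e', law μ {η | G.M / k < dL e e' η} ≤ ENNReal.ofReal (AA * Real.exp (-(a * (q₀ * th ^ (G.M / k)) ^ gg)))) →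
      ∀ (TT : ℝ → ℕ → ℤ × ℤ → Set Env), (∀ σ σ' u κ, σ ≤ σ' → TT σ u κ ⊆ TT σ' u κ) → ∀ σ : ℝ, 0 ≤ σ →
      ∀ (Sw : Finset ℤ) (scL : Cut (ℤ × ℤ) → Cut (ℤ × ℤ) → ℕ) (scN : Cut (ℤ × ℤ) → Cut (ℤ × ℤ) → Cut (ℤ × ℤ) → ℕ) (bad : Set Env)
        (Fs : Finset (ℕ → ℕ)), NbF Fs NB →
        Sw.card ≤ s → ClS86 Γ G mt Fs Sw (G.M / k) dL dN scL scN C0 C2 D τ bad (TT 0) → law μ bad ≤ ENNReal.ofReal ((n : ℝ) ^ (-X)) →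
      ∀ (y : ℝ≥0∞), y ≤ 1 → ∀ b : ℕ, d * G.M ≤ b →
        law μ {η | ∃ x : XS Γ G mt, pot86 Γ G mt lam m3 TT y τ σ x η < y ^ (3 * b)} ≤ 3 * ENNReal.ofReal ((n : ℝ) ^ (-X)) := by
  have hA : 1 ≤ A := by
    have : (0 : ℝ) < A := lt_of_lt_of_le (Real.exp_pos _) hAc
    have : 0 < A := by exact_mod_cast this
    omega
  have hNB : (0 : ℝ) < (NB : ℝ) + 1 := by positivity
  obtain ⟨D, k, z₀, hD, hk, hz₀, H⟩ := numP40 A s hA X (div_pos hd hNB) hc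
  refine ⟨D, k, z₀, hD, hk, hz₀, fun z hzz th a gg AA hth ha hgg C2 => ?_⟩
  have hz : 1 ≤ z := hz₀.trans hzz
  obtain ⟨lam0, H⟩ := H C2
  obtain ⟨n1, Ht⟩ := tailP40 AA 15 X hth ha hgg hc k hk
  refine ⟨lam0, max (max n1 5) 1, fun Γ G mt lam m3 n τ hn hlam hmt hmt2 hm2 hkM hcM hMn hA0 hAn hX C0 hC0 dL dN hL hN q₀ hq htl TT
    mT σ hσ Sw scL scN bad Fs hFs hSw hT hbad y hy b hb => ?_⟩
  have hn1 : n1 ≤ n := by omega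
  have hn5 : 5 ≤ n := by omega
  have hM1 : 1 ≤ G.M := by omega
  have hm23 := G.m2_ge
  have hMmt : G.M ≤ mt := by omega
  have hnR : (1 : ℝ) ≤ n := by exact_mod_cast (show 1 ≤ n by omega)
  have hcmt : c * Real.log n ≤ mt := hcM.trans (by exact_mod_cast hMmt)
  have hcard : (FS Γ G mt).card ≤ n ^ 13 := by rwa [Fintype.card_coe] at hX
  have hNt : max 1 ((FS Γ G mt).image (G.loc mt)).card ≤ A ^ mt := by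
    refine max_le (Nat.one_le_pow _ _ hA) ((card_image_le.trans hcard).trans (pow13_le hc hAc (by omega) hcmt))
  obtain ⟨k1, k2⟩ := H lam G.m2 hlam n G.M mt _ (by omega) hM1 hkM hm2 hcM hMmt hmt2 hNt Sw hSw
  have hb' : 6 * (C2 + 3) * nSt G.M G.m2 lam + 2 * ((G.M + G.m2) / D) + 9 * (NB * (G.M / k)) + 9 * (NB * (Sw.card * (G.M / k))) ≤ b := by
    set x := nSt G.M G.m2 lam
    set y₁ := (G.M + G.m2) / D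
    set r := G.M / k
    have h1 : ((6 * (C2 + 3) * x + 2 * y₁ + 9 * (NB * r) + 9 * (NB * (Sw.card * r)) : ℕ) : ℝ) ≤
        ((NB : ℝ) + 1) * ((6 * (C2 + 3) * x + 2 * y₁ + 9 * r + 9 * (Sw.card * r) : ℕ) : ℝ) := by
      push_cast
      have e0 : (0 : ℝ) ≤ 6 * (C2 + 3) * x := by positivity
      have e1 : (0 : ℝ) ≤ 2 * y₁ := by positivity
      have e2 : (0 : ℝ) ≤ r := by positivity
      have e3 : (0 : ℝ) ≤ (Sw.card : ℝ) * r := by positivity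
      have e4 : (0 : ℝ) ≤ NB := by positivity
      nlinarith [mul_nonneg e4 e0, mul_nonneg e4 e1]
    have h2 : ((NB : ℝ) + 1) * ((6 * (C2 + 3) * x + 2 * y₁ + 9 * r + 9 * (Sw.card * r) : ℕ) : ℝ) ≤ d * G.M := by
      calc _ ≤ ((NB : ℝ) + 1) * (d / ((NB : ℝ) + 1) * G.M) := mul_le_mul_of_nonneg_left k1 hNB.le
        _ = d * G.M := by field_simp
    exact_mod_cast (h1.trans h2).trans hb
  have h1 := potCS86 (Γ := Γ) (G := G) (m3 := m3) (σ := σ) hmt hA0 hAn hC0 hD (z := (z : ℝ≥0∞)) (M := 2) hL hN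
    (by exact_mod_cast hz) (ENNReal.natCast_ne_top z) (by norm_num) htl hσ mT hFs hT hy hb'
  refine h1.trans ?_
  have h2 : ((FW6 (gj Γ G mt)).card : ℝ≥0∞) ^ 2 * ENNReal.ofReal (AA * Real.exp (-(a * (q₀ * th ^ (G.M / k)) ^ gg))) ≤
      ENNReal.ofReal ((n : ℝ) ^ (-X)) := by
    have hF : ((FW6 (gj Γ G mt)).card : ℝ) ≤ (n : ℝ) ^ (15 : ℝ) := by
      have h3 : (FW6 (gj Γ G mt)).card ≤ n ^ 15 := by
        refine card_FW86.trans ?_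
        have h4 : 2 * (mt + 1) ≤ n ^ 2 := by nlinarith
        calc 2 * ((FS Γ G mt).card * (mt + 1)) ≤ 2 * (n ^ 13 * (mt + 1)) := by gcongr
          _ = n ^ 13 * (2 * (mt + 1)) := by ring
          _ ≤ n ^ 13 * n ^ 2 := Nat.mul_le_mul_left _ h4
          _ = n ^ 15 := by rw [← pow_add]
      have h5 : ((FW6 (gj Γ G mt)).card : ℝ) ≤ ((n ^ 15 : ℕ) : ℝ) := by exact_mod_cast h3
      refine h5.trans (le_of_eq ?_)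
      push_cast
      rw [← Real.rpow_natCast]
      norm_num
    have h6 := Ht n G.M hn1 hcM q₀ _ hq (Nat.cast_nonneg _) hF
    refine le_trans ?_ (ENNReal.ofReal_le_ofReal h6)
    rw [ENNReal.ofReal_mul (sq_nonneg _), ENNReal.ofReal_pow (Nat.cast_nonneg _), ENNReal.ofReal_natCast]
  have k3 : (nCodeJ (max 1 ((FS Γ G mt).image (G.loc mt)).card) (A ^ 2) mt G.m2 : ℝ≥0∞) *
      (3 * (2 ^ (3 * (mt + G.m2) + 1) / (z : ℝ≥0∞) ^ (G.M / k))) ≤ ENNReal.ofReal ((n : ℝ) ^ (-X)) := by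
    refine le_trans ?_ k2
    have : (z₀ : ℝ≥0∞) ≤ z := by exact_mod_cast hzz
    gcongr
  calc (law μ bad + ((FW6 (gj Γ G mt)).card : ℝ≥0∞) ^ 2 * ENNReal.ofReal (AA * Real.exp (-(a * (q₀ * th ^ (G.M / k)) ^ gg)))) +
        (nCodeJ (max 1 ((FS Γ G mt).image (G.loc mt)).card) (A ^ 2) mt G.m2 : ℝ≥0∞) *
          (3 * (2 ^ (3 * (mt + G.m2) + 1) / (z : ℝ≥0∞) ^ (G.M / k)))
      ≤ (ENNReal.ofReal ((n : ℝ) ^ (-X)) + ENNReal.ofReal ((n : ℝ) ^ (-X))) + ENNReal.ofReal ((n : ℝ) ^ (-X)) := by gcongr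
    _ = 3 * ENNReal.ofReal ((n : ℝ) ^ (-X)) := by ring

/-! ### Clauses -/

/-- The width of the regularity of the cuts. -/
def C0P (P : Pre) : ℝ := 4 * (P.kn + (P.kb + 1) + 1)

/-- **A CLAUSE, WITH THE ORDER OF THE CONSTANTS.** -/
def ClQ (P : Pre) (Dd : Dat) (μ : Measure ℝ) (s : ℝ) (t : Tm) (k D : ℕ) (Fs : Gm → Finset (ℕ → ℕ))
    (X : Cx → Gm → (ℕ → ℝ) → ℕ → ℤ × ℤ → Set Env) : Prop :=
  ∃ C2₀ B : ℕ, ∀ C2 : ℕ, C2₀ ≤ C2 → Evn P Dd μ s fun _ _ _ _ n Γ G mt τ0 E => 1 ≤ τ0 →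
    ∀ (E2 : Cu → Cu → Set Env) (E3 : Cu → Cu → Cu → Set Env), ∃ bad : Set Env,
      law μ bad ≤ (B : ℝ≥0∞) * ENNReal.ofReal ((n : ℝ) ^ (-(5 : ℝ))) ∧
      ClS86 Γ G mt (Fs G) {(Γ.M : ℤ)} (G.M / k) (t.dL G mt E2) (t.dN G mt E3) lb6 lbN6 (C0P P) C2 D τ0 bad (X Γ G E)

section Cl

variable {P : Pre} {Dd : Dat} {μ : Measure ℝ} {s : ℝ} {t : Tm} {k D : ℕ} {Fs : Gm → Finset (ℕ → ℕ)}
  {X Y : Cx → Gm → (ℕ → ℝ) → ℕ → ℤ × ℤ → Set Env}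

theorem ClQ.inter (h : ClQ P Dd μ s t k D Fs X) (h' : ClQ P Dd μ s t k D Fs Y) :
    ClQ P Dd μ s t k D Fs fun Γ G E u κ => X Γ G E u κ ∩ Y Γ G E u κ := by
  obtain ⟨C2₀, B, h⟩ := h
  obtain ⟨C2₁, B', h'⟩ := h'
  refine ⟨max C2₀ C2₁, B + B', fun C2 hC => ((h C2 (le_trans (le_max_left _ _) hC)).and (h' C2 (le_trans (le_max_right _ _) hC))).mono
    fun q η A lam n Γ G mt τ0 E h1 hτ E2 E3 => ?_⟩
  obtain ⟨bad, hb, hc⟩ := h1.1 hτ E2 E3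
  obtain ⟨bad', hb', hc'⟩ := h1.2 hτ E2 E3
  refine ⟨bad ∪ bad', ?_, hc.inter hc'⟩
  rw [Nat.cast_add, add_mul]
  exact (measure_union_le _ _).trans (add_le_add hb hb')

theorem ClQ.mono (h : ClQ P Dd μ s t k D Fs X)
    (hX : Evn P Dd μ s fun _ _ _ _ _ Γ G _ _ E => ∀ u κ, X Γ G E u κ ⊆ Y Γ G E u κ) : ClQ P Dd μ s t k D Fs Y := by
  obtain ⟨C2₀, B, h⟩ := h
  refine ⟨C2₀, B, fun C2 hC => ((h C2 hC).and hX).mono fun q η A lam n Γ G mt τ0 E h1 hτ E2 E3 => ?_⟩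
  obtain ⟨bad, hb, hc⟩ := h1.1 hτ E2 E3
  exact ⟨bad, hb, hc.mono subset_rfl h1.2⟩

/-- From a clause without maps. -/
theorem ClQ.of86 (h : ∃ C2₀ B : ℕ, ∀ C2 : ℕ, C2₀ ≤ C2 → Evn P Dd μ s fun _ _ _ _ n Γ G mt τ0 E => 1 ≤ τ0 →
    ∀ (E2 : Cu → Cu → Set Env) (E3 : Cu → Cu → Cu → Set Env), ∃ bad : Set Env,
      law μ bad ≤ (B : ℝ≥0∞) * ENNReal.ofReal ((n : ℝ) ^ (-(5 : ℝ))) ∧
      Cl86 Γ G mt {(Γ.M : ℤ)} (G.M / k) (t.dL G mt E2) (t.dN G mt E3) lb6 lbN6 (C0P P) C2 D τ0 bad (X Γ G E))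
    (hF : Evn P Dd μ s fun _ _ _ _ _ _ G _ _ _ => id ∈ Fs G) : ClQ P Dd μ s t k D Fs X := by
  obtain ⟨C2₀, B, h⟩ := h
  refine ⟨C2₀, B, fun C2 hC => ((h C2 hC).and hF).mono fun q η A lam n Γ G mt τ0 E h1 hτ E2 E3 => ?_⟩
  obtain ⟨bad, hb, hc⟩ := h1.1 hτ E2 E3
  exact ⟨bad, hb, hc.toS h1.2⟩

end Cl

/-- **WHAT THE EVENT `Lv` OWES**: an event of the rows `[ra, re]`, the probability of its complement is at most `ε`, at the windows without the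
switch row, below the top row. -/
def LvE (P : Pre) (Dd : Dat) (μ : Measure ℝ) (s : ℝ) (Lv : Cx → Gm → (ℕ → ℝ) → ℕ → ℤ × ℤ → Set Env) (ε : ℝ) : Prop :=
  Evn P Dd μ s fun _ _ _ _ _ Γ G _ τ0 E => 1 ≤ τ0 → ∀ u κ, τ0 ≤ u → u < G.M → 0 ≤ G.rcc u κ → G.re u κ ≤ Γ.N →
    ¬ (G.ra u κ ≤ Γ.M ∧ Γ.M ≤ G.re u κ) →
    MeasurableSet (Lv Γ G E u κ) ∧ Off (offS G u κ) (Lv Γ G E u κ) ∧ law μ (Lv Γ G E u κ)ᶜ ≤ ENNReal.ofReal ε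

/-- **THE CLAUSE OF `Lv`**, no exceptional set, `Pr` holds at the windows of contacts. -/
theorem clLvM3 {Γ : Cx} {Gg : Gm} {mt : ℕ} {Pr : ℕ → ℤ × ℤ → Prop} {Lv : ℕ → ℤ × ℤ → Set Env} {Sw : Finset ℤ} {E0 : ℕ}
    {dL : Cu → Cu → Env → ℕ} {dN : Cu → Cu → Cu → Env → ℕ}
    {scL : Cu → Cu → ℕ} {C0 : ℝ} {C2 D τ v : ℕ} (hC : 1 ≤ C2) (hτ : 1 ≤ τ) (hE : 1 ≤ E0) (hv : 1 ≤ v) (hmt : Gg.M ≤ mt)
    (hM : (Γ.M : ℤ) ∈ Sw) (hdN : ∀ a b e η, dEN6 (EvN (rws Gg) (LvQ Pr Lv)) v a b e η ≤ dN a b e η)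
    (hPr : ∀ u κ, τ ≤ u → u < Gg.M → 0 ≤ Gg.rcc u κ → Gg.re u κ ≤ Γ.N → ¬ (Gg.ra u κ ≤ Γ.M ∧ Γ.M ≤ Gg.re u κ) → Pr u κ) :
    Cl86 Γ Gg mt Sw E0 dL dN scL lbN6 C0 C2 D τ ∅ Lv := fun η _ ρ u Z a1 a2 a3 a4 a5 a6 => by
  have hu := hτ.trans a1
  have hZ := triple86 a4 hC hu
  have h := lvN_own (G := gj Γ Gg mt) hZ hdN hv a5 a6 hE (rws_btw (F := SF98.FS Γ Gg mt) (mt := mt) (W := Set.univ) Gg hu ρ)
  unfold LvQ at h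
  rwa [if_pos (show Pr u ((gj Γ Gg mt).loc u ρ) from hPr u _ a1 a2 (Gg.rcc_pos u ρ.1).le
    (by
      have h2 := Gg.re_lt_of_Wr (u := u) (mt := mt) (N := Γ.N) (by omega) (SF98.row_up ρ)
      show Gg.re u (Gg.loc u ρ.1) ≤ Γ.N
      omega) fun h4 =>
    noSw_rows2 Gg (F := SF98.FS Γ Gg mt) (mt := mt) (W := Set.univ) hu hZ a6 hE hM ⟨by exact_mod_cast h4.1, by exact_mod_cast h4.2⟩)] at h

/-! ### Base facts -/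

section Base

variable {P : Pre} {Dd : Dat} {μ : Measure ℝ} {s : ℝ}

/-- The numbers which `potNS2` asks. -/
structure Bs2 (P : Pre) (Dd : Dat) (A0 lam0 k n₀ B : ℕ) (lam n : ℕ) (Γ : Cx) (G : Gm) (mt : ℕ) : Prop where
  hn : n₀ ≤ n
  hB : B ≤ n
  hl : lam0 ≤ lam
  hmt : G.M + G.m2 ≤ mt + 1
  hmt2 : mt ≤ 2 * G.M
  hm2 : G.m2 ≤ G.M
  hk : k ≤ G.M
  hc : Dd.kap * Real.log n ≤ G.M
  hMn : G.M ≤ n
  hA0 : G.A0n ≤ A0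
  hAn : G.An ≤ A0 ^ lam
  hX : Fintype.card (XS Γ G mt) ≤ n ^ 13
  hC0 : 4 * (G.kn + (G.kb + 1) + 1) ≤ C0P P
  hT : n₀ ≤ G.T0

theorem Bs2.hM_mt {A0 lam0 k n₀ B lam n : ℕ} {Γ : Cx} {G : Gm} {mt : ℕ} (h : Bs2 P Dd A0 lam0 k n₀ B lam n Γ G mt) : G.M ≤ mt := by
  have h1 := h.hmt
  have h2 := G.m2_ge
  omega

theorem bs2 {A0 : ℕ} (hA : 2 ≤ A0) (hA0 : (2 * (Dd.K + 1) + 1) * (2 * (2 * Dd.K * 2 + 1) + 1) ≤ A0) (lam0 k n₀ B : ℕ) :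
    Evn P Dd μ s fun _ _ _ lam n Γ G mt _ _ => Bs2 P Dd A0 lam0 k n₀ B lam n Γ G mt := by
  refine ⟨0, fun q _ => ⟨0, fun m2 _ η hη A hA' => ?_⟩⟩
  obtain ⟨l₁, hl₁⟩ : ∃ l₁ : ℕ, AnW Dd.K P.kn P.kb ≤ 2 ^ l₁ := ⟨_, Nat.lt_two_pow_self.le⟩
  refine ⟨max lam0 l₁, fun lam hl => ⟨0, fun m0 _ g1 _ e0 he0 => EvA.of_ev ?_⟩⟩
  have hkap := Dd.hkap
  have e1 : ∀ᶠ n : ℕ in Filter.atTop, (max k m2 : ℕ) / Dd.kap ≤ Real.log n :=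
    (Real.tendsto_log_atTop.comp tendsto_natCast_atTop_atTop).eventually_ge_atTop _
  have e2 : ∀ᶠ n : ℕ in Filter.atTop, (n₀ : ℝ) ≤ (n : ℝ) ^ e0 :=
    ((tendsto_rpow_atTop he0).comp tendsto_natCast_atTop_atTop).eventually_ge_atTop _
  obtain ⟨n₁, hn₁⟩ := Filter.eventually_atTop.1 (e1.and e2)
  refine ⟨max (max n₀ B) (max n₁ 20), fun n hn c₂ δ κ h1 h2 h3 h4 h5 Γ T0 M mt τ0 hc hW hg hG => ?_⟩
  obtain ⟨k1, k2⟩ := hn₁ n (by omega)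
  have hK := Dd.hK
  have hT1 : (1 : ℝ) ≤ T0 := by exact_mod_cast hW.hT
  have hMk : ((max k m2 : ℕ) : ℝ) ≤ M := by
    rw [div_le_iff₀ hkap] at k1
    have := hc.M_ge
    linarith
  have hMk' : max k m2 ≤ M := by exact_mod_cast hMk
  have hmtg := hc.mt_ge
  have hKr : (1 : ℝ) ≤ Dd.K := by exact_mod_cast (show 1 ≤ Dd.K by omega)
  have hKM : (Dd.K : ℝ) ^ M ≤ (n : ℝ) ^ (1 / 32 : ℝ) := by
    have a2 : (Dd.K : ℝ) ^ M ≤ (Dd.K : ℝ) ^ mt := pow_le_pow_right₀ hKr (by omega)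
    have a4 : (Dd.K : ℝ) ^ mt ≤ (T0 : ℝ) * (Dd.K : ℝ) ^ mt := le_mul_of_one_le_left (by positivity) hT1
    have a5 := hc.top
    have a6 : (0 : ℝ) ≤ (T0 : ℝ) * (Dd.K : ℝ) ^ mt := by positivity
    linarith
  have hMn : (M : ℝ) ≤ n := by
    have a1 := scales_le hK hKM (by omega)
    have a2 : Real.log n ≤ n := by
      have := Real.log_le_sub_one_of_pos (show (0 : ℝ) < n by exact_mod_cast (show 0 < n by omega))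
      linarith
    have a3 : (0 : ℝ) ≤ n := Nat.cast_nonneg _
    linarith
  refine ⟨by omega, by omega, by omega, ?_, hc.mt_le, ?_, ?_, hc.M_ge, by exact_mod_cast hMn, ?_, ?_, ?_, ?_, ?_⟩
  · show M + m2 ≤ mt + 1
    omega
  · show m2 ≤ M
    omega
  · show k ≤ M
    omega
  · rw [show (P.G hW M m0 g1 m2 hc.h1 hc.h2).A0n = (2 * (Dd.K + 1) + 1) * (2 * (2 * Dd.K * 2 + 1) + 1) from rfl]
    exact hA0
  · refine hG.An_le.trans (hl₁.trans ?_)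
    calc 2 ^ l₁ ≤ A0 ^ l₁ := Nat.pow_le_pow_left hA _
      _ ≤ A0 ^ lam := Nat.pow_le_pow_right (by omega) (by omega)
  · exact card_adm hc.adm h2 (by omega)
  · exact le_rfl
  · have a1 : (n₀ : ℝ) ≤ T0 := k2.trans hc.T0_ge
    show n₀ ≤ T0
    exact_mod_cast a1

end Base

/-! ### The theorem -/

theorem B_le {B n : ℕ} (hB : B ≤ n) (hn : 1 ≤ n) :
    (B : ℝ≥0∞) * ENNReal.ofReal ((n : ℝ) ^ (-(5 : ℝ))) ≤ ENNReal.ofReal ((n : ℝ) ^ (-(4 : ℝ))) := by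
  have hn0 : (0 : ℝ) < n := by exact_mod_cast (show 0 < n by omega)
  rw [← ENNReal.ofReal_natCast, ← ENNReal.ofReal_mul (Nat.cast_nonneg _)]
  refine ENNReal.ofReal_le_ofReal ?_
  have e : (n : ℝ) ^ (-(4 : ℝ)) = n * (n : ℝ) ^ (-(5 : ℝ)) := by
    rw [show (-(4 : ℝ)) = 1 + (-(5 : ℝ)) by norm_num, Real.rpow_add hn0, Real.rpow_one]
  rw [e]
  exact mul_le_mul_of_nonneg_right (by exact_mod_cast hB) (by positivity)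

/-- The threshold of the potential. -/
theorem yb_le {P : Pre} {q b b' : ℕ} (hq : q ≠ 0) (h : b ≤ b') : yb P q b' ≤ (1 + c1q P.c' q)⁻¹ ^ b := by
  obtain ⟨-, -, -, h4⟩ := thq_spec P.hc0 P.hc1 hq
  unfold yb
  rw [← h4]
  refine pow_le_pow_right_of_le_one' ?_ h
  exact ENNReal.inv_le_one.2 le_self_add

theorem y_le {P : Pre} {q : ℕ} : (1 + c1q P.c' q)⁻¹ ≤ 1 := ENNReal.inv_le_one.2 le_self_add

/-- **THE POTENTIAL IS SMALL ONLY WITH POLYNOMIALLY SMALL PROBABILITY, WITH THE ORDER OF THE CONSTANTS.** `A0`: cells per scale, `NB`: the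
fibres of the maps, `ke`: the scales `u + M / ke > M` are not asked, `d`: the fraction, `c`: the density; then `D, k, z₀`, every `z ≥ z₀`; then
the TAME data; then the classes and the events. -/
theorem hpQ2 {μ : Measure ℝ} [IsProbabilityMeasure μ] (A0 NB ke : ℕ) {d c : ℝ} (hd : 0 < d) (hc : 0 < c)
    (hAc : Real.exp (13 / c) ≤ A0) :
    ∃ D k z₀ : ℕ, 1 ≤ D ∧ 1 ≤ k ∧ 1 ≤ z₀ ∧ ∀ z : ℕ, z₀ ≤ z → ∀ {AA a gg : ℝ} {n₁ : ℕ} {t : Tm}, t.Ok μ z AA a gg n₁ →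
    ∀ {P : Pre} {Dd : Dat} {s : ℝ}, Dd.kap = c → (2 * (Dd.K + 1) + 1) * (2 * (2 * Dd.K * 2 + 1) + 1) ≤ A0 →
    ∀ {F : Fam} {Fs : Gm → Finset (ℕ → ℕ)} {ε : ℝ}, (z : ℝ) * ε ≤ 1 / 2 →
    (Evn P Dd μ s fun _ _ _ _ _ _ G _ _ _ => NbF (Fs G) NB ∧ id ∈ Fs G) →
    (Evn P Dd μ s fun _ _ _ _ _ Γ G _ _ E => ∀ sg sg' u κ, sg ≤ sg' → F.TT Γ G E sg u κ ⊆ F.TT Γ G E sg' u κ) →
    LvE P Dd μ s F.Lv ε → ClQ P Dd μ s t k D Fs (fun Γ G E => cut86 G (G.M / ke) (F.Ou Γ G E 0)) →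
    ClQ P Dd μ s t k D Fs (fun Γ G E => cut86 G (G.M / ke) (F.St Γ G E 0)) →
    ClQ P Dd μ s t k D Fs (fun Γ G E => cut86 G (G.M / ke) (F.Fw Γ G E 0)) →
    Evn P Dd μ s fun q _ _ lam n Γ G mt τ0 E => 1 ≤ τ0 → ∀ sg : ℝ, 0 ≤ sg → ∀ b b' : ℕ, d * G.M ≤ b → 3 * b + G.M / ke ≤ b' →
      law μ {ω | ∃ x : XS Γ G mt, pot86 Γ G mt lam P.m3 (F.TT Γ G E) (1 + c1q P.c' q)⁻¹ τ0 sg x ω < yb P q b'} ≤
        3 * ENNReal.ofReal ((n : ℝ) ^ (-(4 : ℝ))) := by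
  obtain ⟨D, k, z₀, hD, hk, hz₀, H⟩ := potNS2 (μ := μ) A0 1 NB 4 hd hc hAc
  refine ⟨D, k, z₀, hD, hk, hz₀, ?_⟩
  intro z hzz AA a gg n₁ t ht P Dd s hkap hA0 F Fs ε hε hFs hmono hLv hOu hSt hFw
  have hA1 : (1 : ℝ) < A0 := lt_of_lt_of_le (by rw [Real.one_lt_exp_iff]; positivity) hAc
  have hA2 : 2 ≤ A0 := by
    have : 1 < A0 := by exact_mod_cast hA1
    omega
  obtain ⟨C2a, Ba, hcl⟩ := (hOu.inter hSt).inter hFw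
  obtain ⟨C2, hC2⟩ : ∃ C2, C2 = max C2a 1 := ⟨_, rfl⟩
  have hC1 : 1 ≤ C2 := by rw [hC2]; exact le_max_right _ _
  have hcl := hcl C2 (by rw [hC2]; exact le_max_left _ _)
  obtain ⟨lam0, n0, H⟩ := H z hzz t.th a gg AA ht.th1 ht.a0 ht.g0 C2
  have hbs := bs2 (P := P) (Dd := Dd) (μ := μ) (s := s) hA2 hA0 lam0 k (max n0 (max n₁ 1)) Ba
  have hq : Evn P Dd μ s fun q _ _ _ _ _ _ _ _ _ => q ≠ 0 := by
    refine ⟨1, fun q hq => ⟨0, fun m2 _ η hη A hA => ⟨0, fun lam _ => ⟨0, fun m0 _ g1 _ e0 he0 => EvA.of_ev ⟨0, fun n _ c₂ δ κ h1 h2 h3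
      h4 h5 Γ T0 M mt τ0 hc hW hg hG => ?_⟩⟩⟩⟩⟩
    show q ≠ 0
    omega
  refine ((((hcl.and hbs).and hFs).and (hmono.and hLv)).and hq).mono fun q η A lam n Γ G mt τ0 E h1 hτ sg hsg b b' hb hb' => ?_
  obtain ⟨⟨⟨⟨hcl, hbs⟩, hNB, hid⟩, hmono, hLv⟩, hq⟩ := h1
  have hE0 : 1 ≤ G.M / k := by
    rw [Nat.one_le_div_iff (by omega)]
    exact hbs.hk
  have hT : n₁ ≤ G.T0 := le_trans (le_trans (le_max_left _ _) (le_max_right _ _)) hbs.hT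
  have hn1 : 1 ≤ n := le_trans (le_trans (le_max_right _ _) (le_max_right _ _)) hbs.hn
  -- the event of the windows
  obtain ⟨Pr, hPr⟩ : ∃ Pr : ℕ → ℤ × ℤ → Prop, Pr = fun u κ => τ0 ≤ u ∧ u < G.M ∧ 0 ≤ G.rcc u κ ∧ G.re u κ ≤ Γ.N ∧
      ¬ (G.ra u κ ≤ Γ.M ∧ Γ.M ≤ G.re u κ) := ⟨_, rfl⟩
  have hLv' : ∀ u κ, Pr u κ → MeasurableSet (F.Lv Γ G E u κ) ∧ Off (offS G u κ) (F.Lv Γ G E u κ) ∧
      law μ (F.Lv Γ G E u κ)ᶜ ≤ ENNReal.ofReal ε := fun u κ h => by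
    rw [hPr] at h
    exact hLv hτ u κ h.1 h.2.1 h.2.2.1 h.2.2.2.1 h.2.2.2.2
  have hE3 : Ev3 μ (ENNReal.ofReal ε) (EvN (rws G) (LvQ Pr (F.Lv Γ G E))) :=
    ev3_offQ G (fun u κ h => (hLv' u κ h).1) (fun u κ h => (hLv' u κ h).2.1) fun u κ h => (hLv' u κ h).2.2
  have hE2 : Ev2 μ 0 (fun _ _ : Cu => Set.univ) := Ev2.univ μ
  have hz2 : (z : ℝ≥0∞) * ENNReal.ofReal ε ≤ ENNReal.ofReal (1 / 2) := by
    rw [← ENNReal.ofReal_natCast, ← ENNReal.ofReal_mul (Nat.cast_nonneg _)]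
    exact ENNReal.ofReal_le_ofReal hε
  obtain ⟨bad, hbad, hcl⟩ := hcl hτ (fun _ _ => Set.univ) (EvN (rws G) (LvQ Pr (F.Lv Γ G E)))
  have hcLv : ClS86 Γ G mt (Fs G) {(Γ.M : ℤ)} (G.M / k) (t.dL G mt fun _ _ => Set.univ)
      (t.dN G mt (EvN (rws G) (LvQ Pr (F.Lv Γ G E)))) lb6 lbN6 (C0P P) C2 D τ0 ∅ (F.Lv Γ G E) :=
    (clLvM3 (Pr := Pr) (v := 1) hC1 hτ hE0 le_rfl hbs.hM_mt (by simp) (fun a b e η' => dEN6_le_dNI6 (fun _ _ _ => subset_rfl) a b e η')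
      (fun u κ a1 a2 a3 a4 a5 => by
        rw [hPr]
        exact ⟨a1, a2, a3, a4, a5⟩)).toS hid
  have hall : ClS86 Γ G mt (Fs G) {(Γ.M : ℤ)} (G.M / k) (t.dL G mt fun _ _ => Set.univ)
      (t.dN G mt (EvN (rws G) (LvQ Pr (F.Lv Γ G E)))) lb6 lbN6 (C0P P) C2 D τ0 (∅ ∪ bad) (Tc86 G (G.M / ke) (F.TT Γ G E) 0) := by
    refine (hcLv.inter hcl).mono subset_rfl fun u κ => ?_
    rintro x ⟨h1, ⟨h2, h3⟩, h4⟩ hu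
    exact ⟨h1, h2 hu, h3 hu, h4 hu⟩
  rw [Set.empty_union] at hall
  refine le_trans (measure_mono ?_) (H Γ G mt lam P.m3 n τ0 (le_trans (le_max_left _ _) hbs.hn) hbs.hl hbs.hmt hbs.hmt2 hbs.hm2 hbs.hk
    (by rw [← hkap]; exact hbs.hc) hbs.hMn hbs.hA0 hbs.hAn hbs.hX (C0P P) hbs.hC0 _ _ (ht.mL G hT mt _ 0 hE2 (by simp))
    (ht.mN G hT mt _ _ hE3 hz2) t.q0 ht.q1 (fun e e' => ht.tl G hT mt _ _ hE0 e e') (Tc86 G (G.M / ke) (F.TT Γ G E)) (Tc_mono86 hmono)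
    sg hsg {(Γ.M : ℤ)} lb6 lbN6 bad (Fs G) hNB (by simp) hall (hbad.trans (B_le hbs.hB hn1)) (1 + c1q P.c' q)⁻¹ y_le b hb)
  refine Set.Subset.trans ?_ (lt_cut86 y_le (G.M / ke) (3 * b))
  rintro ω ⟨x, hx⟩
  exact ⟨x, lt_of_lt_of_le hx (yb_le hq hb')⟩

end

end Pool.Agent.W_7d29a1_C1.Hp2
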