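import Pool.Agent.W_7d29a1_C1.CanL6
import Pool.Agent.W_7d29a1_C1.HpQ2

/-!
MP_7d29a1_pr, the attractor route, TAME: THE CANONICAL DEPTHS AS TAME DATA `Tm`. (helper6)

`tm6` = the data of `CanL6`. `tmOkF6` : `Tm.Ok` from the families; `tmOk6` : `Tm.Ok` in the order of the constants, with `Tg6` for all
geometries whose base height is at least `n₁`.
-/

set_option autoImplicit false

namespace Pool.Agent.W_7d29a1_C1.Dep6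

open MeasureTheory ProbabilityTheory Finset
open Pool.Agent.W_7d29a1_F Pool.Agent.W_7d29a1_h4g Pool.Agent.W_7d29a1_H Pool.Agent.W_7d29a1_HS
open Pool.Agent.W_7d29a1_C1.H75 Pool.Agent.W_7d29a1_C1.U16 Pool.Agent.W_7d29a1_C1.H40
open Pool.Agent.W_7d29a1_C1.H94
open Pool.Agent.W_7d29a1_C1.G37 (Gm)
open Pool.Agent.W_7d29a1_C1.Hp2 (Tm)
open scoped ENNReal

noncomputable section

/-- **THE CANONICAL TAME DATA.** -/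
def tm6 (μ : Measure ℝ) (s c : ℝ) (T : Tc6) : Tm where
  th := T.Th
  q0 := T.q₀
  Cn := T.Cn
  F := fun G => FC6 μ s c G T
  F' := fun G => FsC6 μ s G T
  X := fun G => XC6 μ s G T

variable {μ : Measure ℝ} {s c : ℝ}

theorem tm6_dL (G : Gm) (T : Tc6) (mt : ℕ) (E2 : Cut (ℤ × ℤ) → Cut (ℤ × ℤ) → Set Env) :
    (tm6 μ s c T).dL G mt E2 = dLC6 μ s c G T E2 (mt + 1) := rfl

theorem tm6_dN (G : Gm) (T : Tc6) (mt : ℕ) (E3 : Cut (ℤ × ℤ) → Cut (ℤ × ℤ) → Cut (ℤ × ℤ) → Set Env) :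
    (tm6 μ s c T).dN G mt E3 = dNC6 μ s c G T E3 (mt + 1) := rfl

/-- Two tails as one. -/
theorem two_tails6 {A a g A' a' g' x : ℝ} (hA : 0 ≤ A) (ha : 0 ≤ a) (hA' : 0 ≤ A') (ha' : 0 ≤ a') (hx : 1 ≤ x) :
    A * Real.exp (-(a * x ^ g)) + A' * Real.exp (-(a' * x ^ g')) ≤ (A + A') * Real.exp (-(min a a' * x ^ min g g')) := by
  have h0 : 0 ≤ min a a' := le_min ha ha'
  have hp : 0 ≤ x ^ min g g' := by positivity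
  have h1 : Real.exp (-(a * x ^ g)) ≤ Real.exp (-(min a a' * x ^ min g g')) := by
    refine Real.exp_le_exp.2 (neg_le_neg ?_)
    exact mul_le_mul (min_le_left _ _) (Real.rpow_le_rpow_of_exponent_le hx (min_le_left _ _)) hp ha
  have h2 : Real.exp (-(a' * x ^ g')) ≤ Real.exp (-(min a a' * x ^ min g g')) := by
    refine Real.exp_le_exp.2 (neg_le_neg ?_)
    exact mul_le_mul (min_le_right _ _) (Real.rpow_le_rpow_of_exponent_le hx (min_le_right _ _)) hp ha'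
  have h3 := mul_le_mul_of_nonneg_left h1 hA
  have h4 := mul_le_mul_of_nonneg_left h2 hA'
  linarith

/-- **`Tm.Ok` FROM THE FAMILIES**: families and node depths first, then `Th`, `z`, then `q₀`. -/
theorem tmOkF6 [IsProbabilityMeasure μ] {A a g A' a' g' th : ℝ} {z : ℕ} (hA : 0 < A) (ha : 0 < a) (hg : 0 < g)
    (hA' : 0 < A') (ha' : 0 < a') (hg' : 0 < g') (hth : 1 < th) (hz : 1 ≤ z) : ∃ Y₀ : ℝ, 1 ≤ Y₀ ∧ ∀ (T : Tc6) (n₁ : ℕ), Y₀ ≤ T.q₀ →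
      T.Th = th → (∀ G : Gm, n₁ ≤ G.T0 → Tg6 μ s c G T A a g A' a' g') →
      (∀ G : Gm, n₁ ≤ G.T0 → Dp3 μ (ENNReal.ofReal z ^ T.Cn) (1 + ENNReal.ofReal (1 / 4)) (XC6 μ s G T)) →
        (tm6 μ s c T).Ok μ z (A + A') (min a a') (min g g') n₁ := by
  have hP : IsProbabilityMeasure (law μ) := by unfold law; infer_instance
  have hz' : (1 : ℝ) ≤ z := by exact_mod_cast hz
  obtain ⟨Y₀, hY, H⟩ := can6 (μ := μ) (s := s) (c := c) hA ha hg hA' ha' hg' hth hz'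
  refine ⟨Y₀, hY, fun T n₁ hq e1 hT hX => ?_⟩
  have e0 : ENNReal.ofReal (z : ℝ) = (z : ℝ≥0∞) := ENNReal.ofReal_natCast z
  have hz0 : (z : ℝ≥0∞) ≠ 0 := by
    have : z ≠ 0 := by omega
    exact_mod_cast this
  refine ⟨hY.trans hq, by rw [← e1] at hth; exact hth, lt_min ha ha', lt_min hg hg', fun G hG mt E2 d hE hzd => ?_,
    fun G hG mt E3 d hE hzd => ?_, fun G hG mt E2 E₀ hE0 x y => ?_⟩
  · rw [← e0] at hzd ⊢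
    -- any family of node events
    exact (H G T hq e1 (mt + 1) (hT G hG) hE (E3 := fun _ _ _ => Set.univ) ⟨fun _ _ _ => MeasurableSet.univ, fun _ _ _ _ _ _ => Iff.rfl,
      fun _ _ _ => by rw [Set.compl_univ, measure_empty]; exact zero_le⟩ hzd (hX G hG)).1
  · rw [← e0] at hzd ⊢
    exact (H G T hq e1 (mt + 1) (hT G hG) (E := fun _ _ => Set.univ) ⟨fun _ _ => MeasurableSet.univ, fun _ _ _ _ _ => Iff.rfl,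
      fun _ _ => by rw [Set.compl_univ, measure_empty]; exact zero_le⟩ hE hzd (hX G hG)).2.1
  · -- the tail of the layers, for ANY events `E2`
    have h1 : law μ {η | E₀ < (tm6 μ s c T).dL G mt E2 x y η} ≤ law μ {η | E₀ < dLC6 μ s c G T (fun _ _ => Set.univ) (mt + 1) x y η} := by
      refine measure_mono fun η (hη : E₀ < dLC6 μ s c G T E2 (mt + 1) x y η) => ?_
      show E₀ < dLC6 μ s c G T (fun _ _ => Set.univ) (mt + 1) x y η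
      rcases lt_max_iff.1 hη with h | h
      · exact lt_max_of_lt_left h
      · have := dE6_le E2 1 x y η
        omega
    have h2 := (H G T hq e1 (mt + 1) (hT G hG) (Ev2.univ μ) (Ev3.univ μ) (by rw [mul_zero]; exact zero_le) (hX G hG)).2.2 E₀ x y hE0
    refine h1.trans (h2.trans (ENNReal.ofReal_le_ofReal ?_))
    show _ ≤ (A + A') * Real.exp (-(min a a' * (T.q₀ * T.Th ^ E₀) ^ min g g'))
    rw [e1]
    refine two_tails6 hA.le ha.le hA'.le ha'.le ?_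
    exact one_le_mul_of_one_le_of_one_le (hY.trans hq) (one_le_pow₀ hth.le)

/-- **`Tm.Ok` IN THE ORDER OF THE CONSTANTS.** -/
theorem tmOk6 [IsProbabilityMeasure μ] {C : ℝ} {n₀ : ℕ} (h : In μ s c C n₀) : ∃ Dst : ℝ, 1 ≤ Dst ∧
    ∀ {K θ e : ℝ}, 0 < K → 0 < θ → θ ≤ 1 → 0 < e → ∀ n₂ : ℕ → ℕ, ∃ (P : ℕ) (A a g : ℝ) (n₁ j₁ : ℕ), 1 ≤ P ∧ 0 < A ∧ 0 < a ∧ 0 < g ∧
      g ≤ 1 ∧ 1 ≤ n₁ ∧ n₁ ≤ 2 ^ j₁ ∧ n₂ P ≤ 2 ^ j₁ ∧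
    ∀ {θs : ℝ}, 0 < θs → ∃ δ : ℝ, 0 < δ ∧ δ ≤ θs * sl μ s ∧ δ ≤ θs * (1 - sl μ s) ∧
    ∀ {B₁ B₂ Lm es : ℝ}, 1 ≤ B₁ → 2 ≤ B₂ → Dst ≤ B₂ → 1 ≤ Lm → 0 < es → ∃ (n₁s : ℕ) (A' a' g' : ℝ), 1 ≤ n₁s ∧ 0 < A' ∧ 0 < a' ∧ 0 < g' ∧
    ∀ {c₀ δ₁ c₁ An an gn θa Y₁ : ℝ} {K0 Kb n₃ : ℕ}, Cs94 μ s c₀ δ₁ c₁ An an gn θa Y₁ K0 Kb n₃ → ∀ {R : ℕ}, 1 ≤ R → ∀ {z : ℕ}, 1 ≤ z →
    ∀ Cn : ℕ, ∃ Y₂ : ℝ, 8 * Y₁ ≤ Y₂ ∧ 8 ≤ Y₂ ∧ ∀ {Th : ℝ}, 1 < Th → ∃ Y₀ : ℝ, 1 ≤ Y₀ ∧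
    ∀ T : Tc6, T.θ = θ → T.K = K → T.e = e → T.P = P → T.j₁ = j₁ → T.B₁ = B₁ → T.B₂ = B₂ → T.δ = δ → T.θs = θs → T.Lm = Lm →
      T.es = es → T.n₁s = n₁s → T.c₀ = c₀ → T.δ₁ = δ₁ → T.θa = θa → T.Kb = Kb → T.n₃ = n₃ → T.R = R → T.Cn = Cn → Y₂ ≤ T.Y →
      T.Th = Th → Y₀ ≤ T.q₀ →
        (tm6 μ s c T).Ok μ z (A + A') (min a a') (min g g') n₁ ∧ ∀ G : Gm, n₁ ≤ G.T0 → Tg6 μ s c G T A a g A' a' g' := by
  obtain ⟨Dst, hD, HS⟩ := steep6 h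
  refine ⟨Dst, hD, fun {K θ e} hK hθ hθ1 he n₂ => ?_⟩
  obtain ⟨P, A, a, g, n₁, j₁, hP, hA, ha, hg, hg1, hn, hj, hj2, HF⟩ := far6 h hK hθ hθ1 he n₂
  refine ⟨P, A, a, g, n₁, j₁, hP, hA, ha, hg, hg1, hn, hj, hj2, fun {θs} hθs => ?_⟩
  obtain ⟨δ, hδ, hδ1, hδ2, HS⟩ := HS θs hθs
  refine ⟨δ, hδ, hδ1, hδ2, fun {B₁ B₂ Lm es} h1 h2 h3 h4 h5 => ?_⟩
  obtain ⟨A', a', g', n₁s, hA', ha', hg', hns, HS⟩ := HS B₁ B₂ Lm es h1 h2 h3 h4 h5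
  refine ⟨n₁s, A', a', g', hns, hA', ha', hg', fun {c₀ δ₁ c₁ An an gn θa Y₁} {K0 Kb n₃} hC {R} hR {z} hz Cn => ?_⟩
  have hz' : (1 : ℝ) ≤ z := by exact_mod_cast hz
  obtain ⟨Y₂, hY1, hY8, HN⟩ := node6 hC hR hz' Cn
  refine ⟨Y₂, hY1, hY8, fun {Th} hTh => ?_⟩
  obtain ⟨Y₀, hY0, HT⟩ := tmOkF6 (μ := μ) (s := s) (c := c) hA ha hg hA' ha' hg' hTh hz
  refine ⟨Y₀, hY0, fun T e1 e2 e3 e4 e5 e6 e7 e8 e9 e10 e11 e12 e13 e14 e15 e16 e17 e18 e19 hY e20 hq => ?_⟩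
  have hTg : ∀ G : Gm, n₁ ≤ G.T0 → Tg6 μ s c G T A a g A' a' g' := fun G hG =>
    ⟨HF G T e2 e1 e3 e4 e5 hG, HS G T e9 e8 e6 e7 e10 e11 e12, by linarith, by rw [e20]; exact hTh.le⟩
  exact ⟨HT T n₁ hq e20 hTg fun G _ => HN G T e13 e14 e15 e16 e17 e18 e19 hY, hTg⟩

end

end Pool.Agent.W_7d29a1_C1.Dep6
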