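import Pool.Agent.W_7d29a1_C1.D2O67
import Pool.Agent.W_7d29a1_C1.D2T99
import Pool.Agent.W_7d29a1_C1.LayH4
import Pool.Agent.W_7d29a1_C1.LayN63
import Pool.Agent.W_7d29a1_C1.TmO6
import Pool.Agent.W_7d29a1_C1.SwU40

/-!
MP_7d29a1_pr, [C1] attractor route, TAME: (D2) AT THE OWN CUTS, ONE INSTANCE, CANONICAL LETTERS. (helper99)

* `Nd99` : the numbers of one instance; `Dt99` : the conditions on the constants of the depths;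
* **`d2I99`** = `d2own67` in the geometry of a context, for the canonical families, from the crude top `Top99`: `D2f99` at the own cuts
  `ct f ρ`, `u ≤ f ≤ u + J`, with the constant `Q₀ (Th ^ (4 + 9 pw)) ^ (f - u)` and the slope `c / 256`.
-/

set_option autoImplicit false

namespace Pool.Agent.W_7d29a1_C1.D2I99

open MeasureTheory Filter Finset
open Pool.Agent.W_7d29a1_F Pool.Agent.W_7d29a1_h4g Pool.Agent.W_7d29a1_H Pool.Agent.W_7d29a1_HS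
open Pool.Agent.W_7d29a1_C1.H75 Pool.Agent.W_7d29a1_C1.U16
open Pool.Agent.W_7d29a1_C1.H60
open Pool.Agent.W_7d29a1_C1.H40 Pool.Agent.W_7d29a1_C1.S71
open Pool.Agent.W_7d29a1_C1.G37 (Gm)
open Pool.Agent.W_7d29a1_C1.SF98
open Pool.Agent.W_7d29a1_C1.PW86
open Pool.Agent.W_7d29a1_C1.Dep6
open Pool.Agent.W_7d29a1_C1.Hp2
open Pool.Agent.W_7d29a1_C1.PrC99
open Pool.Agent.W_7d29a1_C1.D2C67
open Pool.Agent.W_7d29a1_C1.D2T99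
open Pool.Agent.W_7d29a1_C1.H94 (nu Cs94)

noncomputable section

/-- **THE NUMBERS OF ONE INSTANCE** (helper96's `Nd96`). -/
structure Nd99 (μ : Measure ℝ) (s c : ℝ) (Γ : Cx) (G : Gm) (mt n b n₁ m₁ ke J : ℕ) (g₀ e₁ : ℝ) : Prop where
  hs : Γ.s = s
  hv : G.v = sl μ s
  hK : G.K = b
  hw : ∀ v, G.w v = wd μ s (G.T v)
  T0 : n₁ ≤ G.T0
  N : ∀ v, (Γ.N : ℝ) + 1 ≤ Real.exp (EE μ s (4 * G.T v))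
  fo : ∀ v, v ≤ mt + 1 → |Γ.h| * wd μ s (8 * G.K ^ 2 * G.T v) ≤ c / 8 * EE μ s (8 * G.K ^ 2 * G.T v)
  sw : ∀ v, v ≤ mt → |Γ.h| * (8 * (G.T v : ℝ)) ≤ 1
  M1 : G.M ≤ mt
  e1 : m₁ ≤ G.M / (4 * ke)
  e2 : 2 * (G.M / (4 * ke) + J + 1) + 7 ≤ G.M / ke
  pw : (n : ℝ) ^ e₁ + 2 ≤ g₀ ^ (G.M / (4 * ke))

/-- **THE CONDITIONS ON THE CONSTANTS OF THE DEPTHS.** -/
structure Dt99 (μ : Measure ℝ) (s : ℝ) (b : ℕ) (θn : ℝ) (K0 : ℕ) (Rm Lm₀ g₀ a₀ : ℝ) (pw ρ' : ℕ) (T : Tc6) : Prop where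
  θ0 : 0 < T.θ
  θb : 32 * T.θ * (b : ℝ) ^ 2 ≤ 1
  K : 12 ≤ T.K
  B₁ : 4 ≤ T.B₁
  B₂ : 2 ≤ T.B₂
  Y : 8 ≤ T.Y
  δ0 : 0 < T.δ
  δ1 : T.δ ≤ T.θ * sl μ s
  δ2 : T.δ ≤ T.θ * (1 - sl μ s)
  θs : 32 * T.θs * (b : ℝ) ^ 2 ≤ 1
  Lm : Lm₀ ≤ T.Lm
  es0 : 0 ≤ T.es
  es1 : T.es ≤ 1
  Th1 : 1 < T.Th
  Th2 : T.Th ^ (24 + 36 * pw) ≤ 2
  Thg : T.Th ^ (24 + 36 * pw) ≤ g₀
  Tha : T.Th ^ (24 + 36 * pw) ≤ (b : ℝ) ^ a₀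
  ρ1 : 1 ≤ ρ'
  es : (ρ' : ℝ) ^ T.es ≤ T.Th
  tha : T.θa = θn
  Cs : ∃ c₁ A a g Y₁ : ℝ, Cs94 μ s T.c₀ T.δ₁ c₁ A a g θn Y₁ K0 T.Kb T.n₃ ∧ 8 * Y₁ ≤ T.Y ∧ 64 ≤ c₁ * T.Y
  Kb : 64 * b ≤ T.Kb
  Cn1 : 1 ≤ T.Cn
  Cn : T.B₂ ≤ T.Th ^ T.Cn
  R : ρ' ^ T.Cn ≤ T.R
  Rm : Rm ≤ T.R
  q0 : 0 ≤ T.q₀

variable {μ : Measure ℝ} {s c C : ℝ} {n₀ : ℕ}

theorem wgrow99 [IsProbabilityMeasure μ] (h0 : In μ s c C n₀) (G : Gm) (v : ℕ) :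
    wd μ s (G.T (v + 1)) ≤ ((2 * G.K : ℕ) : ℝ) * wd μ s (G.T v) := by
  have h1 := Pool.Agent.W_7d29a1_C1.LyN63.wd63 h0 (G.T_pos v) (G.T_mono (Nat.le_succ v))
  have h2 : (0 : ℝ) < G.T v := by exact_mod_cast G.T_pos v
  have h3 : ((G.T (v + 1) : ℕ) : ℝ) / (G.T v : ℝ) = G.K := by
    rw [T_succ99, Nat.cast_mul, mul_div_assoc, div_self h2.ne', mul_one]
  rw [h3] at h1
  push_cast
  exact h1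

theorem wone99 [IsProbabilityMeasure μ] (h0 : In μ s c C n₀) {G : Gm} (hw : ∀ v, G.w v = wd μ s (G.T v)) {v : ℕ} (hv : 1 ≤ v) :
    1 ≤ wd μ s (HsC6 G v) := by
  obtain ⟨k, rfl⟩ : ∃ k, v = k + 1 := ⟨v - 1, by omega⟩
  refine le_trans ?_ (LayH4.w_le4 h0 hw k)
  have h1 := G.g_le k
  have h2 : (1 : ℝ) ≤ G.g k := by exact_mod_cast G.g_pos k
  linarith

/-- The powers of `Th`. -/
theorem thp99 {t g₀ : ℝ} {pw : ℕ} (ht : 1 < t) (h2 : t ^ (24 + 36 * pw) ≤ 2) (hg : t ^ (24 + 36 * pw) ≤ g₀) :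
    (t * t) ^ 2 ≤ 2 ∧ t ≤ 2 ∧ ((t * t) ^ 4 * t) ^ pw ≤ t ^ (4 + 9 * pw) ∧ (t * t) ^ 2 ≤ t ^ (4 + 9 * pw) ∧
      (t ^ (4 + 9 * pw)) ^ 4 ≤ g₀ := by
  have hp : ∀ {a b : ℕ}, a ≤ b → t ^ a ≤ t ^ b := fun h => pow_le_pow_right₀ ht.le h
  have e1 : (t * t) ^ 2 = t ^ 4 := by ring
  have e2 : ((t * t) ^ 4 * t) ^ pw = t ^ (9 * pw) := by
    rw [show (t * t) ^ 4 * t = t ^ 9 by ring, ← pow_mul]
  have e3 : (t ^ (4 + 9 * pw)) ^ 4 = t ^ (16 + 36 * pw) := by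
    rw [← pow_mul]
    congr 1
    ring
  refine ⟨?_, ?_, ?_, ?_, ?_⟩
  · rw [e1]
    exact (hp (by omega)).trans h2
  · calc t = t ^ 1 := (pow_one t).symm
      _ ≤ t ^ (24 + 36 * pw) := hp (by omega)
      _ ≤ 2 := h2
  · rw [e2]
    exact hp (by omega)
  · rw [e1]
    exact hp (by omega)
  · rw [e3]
    exact (hp (by omega)).trans hg

/-- **(D2) AT THE OWN CUTS, ONE INSTANCE.** -/
theorem d2I99 [IsProbabilityMeasure μ] (h0 : In μ s c C n₀) : ∃ (pw : ℕ) (a₀ : ℝ), 0 < a₀ ∧ ∀ {θn : ℝ}, 0 < θn → ∀ K0 : ℕ,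
    ∃ K₂ : ℕ, 16 ≤ K₂ ∧ ∀ b : ℕ, K₂ ≤ b → ∃ g₀ Lm₀ : ℝ, 1 < g₀ ∧ g₀ ^ 2 ≤ 2 ∧ 1 ≤ Lm₀ ∧ ∃ Rm : ℝ,
    ∀ {T : Tc6} {ρ' : ℕ}, Dt99 μ s b θn K0 Rm Lm₀ g₀ a₀ pw ρ' T → ∃ (Q₀ : ℝ) (n₁ : ℕ), 0 ≤ Q₀ ∧ 1 ≤ n₁ ∧
    ∀ {C0 : ℝ} (D J : ℕ), 0 ≤ C0 → 2 * (2 * b) ^ D ≤ ρ' → ∃ m₁ : ℕ, ∀ {C2 : ℕ}, m₁ ≤ C2 → C0 ≤ 2 ^ C2 →
    ∀ {Γ : Cx} {G : Gm} {mt n ke : ℕ} {e₁ K₃ : ℝ}, Nd99 μ s c Γ G mt n b n₁ m₁ ke J g₀ e₁ → ∀ {A a g A' a' g' : ℝ},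
    Tg6 μ s c G T A a g A' a' g' → ∀ {η : Env}, Top99 μ s Γ G mt ((n : ℝ) ^ e₁) (c / 64) K₃ η → 1 ≤ K₃ →
    ∀ (ρ : XS Γ G mt) (u : ℕ) (Z : List (Cut (ℤ × ℤ))), PW (gj Γ G mt) Z → ODW (gj Γ G mt) (fun x => G.lat x.1) G.latC G.w C0 C2 D Z ρ u →
    Ok6 ∅ ((tm6 μ s c T).dLU G mt) ((tm6 μ s c T).dNU G mt) lb6 lbN6 Z u η → u + G.M / ke ≤ G.M → ∀ f, u ≤ f → f ≤ u + J →
      D2f99 μ s Γ G mt (8 * G.K ^ 2) ρ f (f + 1) (Q₀ * (T.Th ^ (4 + 9 * pw)) ^ (f - u)) (c / 256) η := by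
  obtain ⟨pw, a₀, ha₀, H⟩ := d2own67 h0
  refine ⟨pw, a₀, ha₀, fun {θn} hθn K0 => ?_⟩
  obtain ⟨K₂, hK₂, H⟩ := H hθn K0
  refine ⟨K₂, hK₂, fun b hb => ?_⟩
  obtain ⟨g₀, Lm₀, hg1, hg2, hL, H⟩ := H b hb
  obtain ⟨Rm, H⟩ := H 1 le_rfl
  refine ⟨g₀, Lm₀, hg1, hg2, hL, Rm, fun {T ρ'} hT => ?_⟩
  have hc0 := h0.c0
  have hc1 := h0.c1
  obtain ⟨Q₀, n₁, hQ₀, hn₁, H⟩ := H T.P (θ := T.θ) (K := T.K - 2) (B₂ := T.B₂) hT.θ0 (by linarith [hT.K]) hT.B₂ hT.θb T.Y 2 T.δ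
    hT.Y le_rfl hT.δ0 hT.δ1 hT.δ2
  obtain ⟨Cx, hCx, H⟩ := H (x := T.Th) (ρ' := ρ') hT.Th1 hT.ρ1
  refine ⟨Qf67 Q₀ T.q₀ Cx (c / 256) pw, max (max n₁ (16 * T.n₃)) T.n₁s, ?_, hn₁.trans ((le_max_left _ _).trans (le_max_left _ _)),
    fun {C0} D J hC0 hρ => ?_⟩
  · unfold Qf67
    have hq := hT.q0
    positivity
  obtain ⟨m₁, H⟩ := H (σ₀ := c / 256) (q₀ := T.q₀) (C0 := C0) D J (by positivity) (by linarith) (by linarith) hT.q0 hC0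
  obtain ⟨c₁, A₉, aa, g₉, Y₁, hCs, hY1, hcY⟩ := hT.Cs
  obtain ⟨t1, t2, t3, t4, t5⟩ := thp99 hT.Th1 hT.Th2 hT.Thg
  have ta : T.Th ≤ (b : ℝ) ^ a₀ := by
    refine le_trans ?_ hT.Tha
    calc T.Th = T.Th ^ 1 := (pow_one _).symm
      _ ≤ T.Th ^ (24 + 36 * pw) := pow_le_pow_right₀ hT.Th1.le (by omega)
  refine ⟨m₁, ?_⟩
  intro C2 hC2 hC0' Γ G mt n ke e₁ K₃ hn A a g A' a' g' hTg η hTop hK₃ ρ u Z hPW hODW hOk hue f hf1 hf2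
  obtain ⟨v0, v1, v2, iL, iC, iT, hL'⟩ := ownL hPW hODW
  have b3 : (gj Γ G mt).m = mt := rfl
  have hM1 := hn.M1
  have he1 := hn.e1
  have he2 := hn.e2
  obtain ⟨e, he⟩ : ∃ e : ℕ, e = G.M / (4 * ke) + J + 1 := ⟨_, rfl⟩
  have hm1e : m₁ ≤ e := by omega
  have hue2 : u + 2 * e + 6 < mt := by omega
  have hκ : (((pt99 Γ G mt ρ).2 : ℤ) : ℝ) - sl μ s * ((pt99 Γ G mt ρ).1 : ℝ) = G.lat ρ.1 := by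
    rw [← hn.hv]
    rfl
  have hT0 := hn.T0
  have hb1 : 16 ≤ b := hK₂.trans hb
  have hCw : (1 : ℝ) ≤ ((2 * G.K : ℕ) : ℝ) := by
    have : 1 ≤ 2 * G.K := by rw [hn.hK]; omega
    exact_mod_cast this
  have hCwρ : 2 * ((2 * G.K : ℕ) : ℝ) ^ D ≤ (ρ' : ℝ) := by
    rw [hn.hK]
    exact_mod_cast hρ
  have hrows : ∀ v, v ≤ u + 2 * e + 6 → (gj Γ G mt).row ρ + 4 * ((gj Γ G mt).T v : ℤ) ≤ (Γ.N : ℤ) := by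
    intro v hv
    have e1 : (gj Γ G mt).T v = G.T v := rfl
    have e2 : (gj Γ G mt).row ρ = (ρ.1.1 : ℤ) := rfl
    rw [e1, e2]
    have m6 := (mem_FS.1 ρ.2).2
    have m7 : 8 * G.T v ≤ G.T mt := by
      refine le_trans ?_ (G.T_mono (show v + 1 ≤ mt by omega))
      rw [T_succ99]
      exact Nat.mul_le_mul_right _ G.hK
    omega
  have key := H hCs hT.Kb hY1 hcY (th := T.Th) (β := T.Th) (g := T.Th ^ (4 + 9 * pw)) (Cn := T.Cn) (R := T.R) hT.Th1.le t1 hT.Th1.le t2 t3 t4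
    t5 ta hT.Cn1 hT.Cn hT.R hT.Rm (h := Γ.h) (η := η) (p := Γ.p) (M := Γ.M) (Nt := Γ.N)
    (fun k hk => by rw [Cx.p, if_pos hk, hn.hs]) (fun k hk => by rw [Cx.p, if_neg (by omega), hn.hs])
    (G := gj Γ G mt) (lat := fun x => G.lat x.1) (latC := G.latC) (w := G.w) (C2 := C2) (Z := Z) (ρ := ρ) (u := u)
    (A := A) (a := a) (ga := g) (A' := A') (a' := a') (ga' := g') (B₁ := T.B₁) (θs := T.θs) (Lm := T.Lm) (es := T.es)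
    (Cw := ((2 * G.K : ℕ) : ℝ)) (Qc := (n : ℝ) ^ e₁) (n₁s := T.n₁s) (e := e) (F := FC6 μ s c G T) (E := fun _ _ => Set.univ)
    (E3 := fun _ _ _ => Set.univ) (X := XC6 μ s G T) (κ := pt99 Γ G mt ρ) hn.hK hTg.F hTg.F'
    (fun a b q => by
      rw [sub_add_cancel]
      exact Set.inter_subset_left)
    (fun a b e' η' => by
      rw [← hT.tha]
      exact le_rfl)
    hOk hL' (Int.natCast_nonneg _) hκ hn.hw hCw (fun v => by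
      rw [hn.hw, hn.hw]
      exact wgrow99 h0 G v) hCwρ hC0' hC2 hm1e hue2.le
    ((le_max_left _ _).trans ((le_max_left _ _).trans hT0)) ((le_max_right _ _).trans ((le_max_left _ _).trans hT0))
    ((le_max_right _ _).trans hT0) hn.N hn.fo hn.sw hrows (by linarith [hT.B₁]) hT.θs hT.Lm hT.es0 hT.es1 hT.es
    (by
      rw [show e - J - 1 = G.M / (4 * ke) by omega]
      exact hn.pw)
    (fun v a' h1 h2 h3 h4 y y' hy' => htop99 h0.sl_pos.le h0.sl_lt.le hn.hs hTop hK₃ ρ hn.hv hκ (v₁ := u + e) (v₂ := u + 2 * e + 6) hue2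
      (fun v h1 h2 => wone99 h0 hn.hw (by omega)) v a' h1 h2 h3 h4 y y' hy') f hf1 hf2
  intro y y₀ hy₀
  rw [rw99_cast] at hy₀ ⊢
  exact key y y₀ (by rw [one_mul]; exact hy₀)

end

end Pool.Agent.W_7d29a1_C1.D2I99
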