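import Pool.Agent.W_7d29a1_C1.D2W96
import Pool.Agent.W_7d29a1_C1.UniA16

/-!
MP_7d29a1_pr, [C1] attractor route, TAME: THE NUMBERS OF ONE INSTANCE OF THE LEAF D2, EVENTUALLY. (helper96)

`Nd96` : the record of the numbers; **`evn_nd96`** : it holds eventually.
-/

set_option autoImplicit false

namespace Pool.Agent.W_7d29a1_C1.DW96

open MeasureTheory Finset Filter
open Pool.Agent.W_7d29a1_F Pool.Agent.W_7d29a1_h4g Pool.Agent.W_7d29a1_H Pool.Agent.W_7d29a1_HS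
open Pool.Agent.W_7d29a1_C1.H60
open Pool.Agent.W_7d29a1_C1.G37 (Gm Wok gmW)
open Pool.Agent.W_7d29a1_C1.Q49
open Pool.Agent.W_7d29a1_C1.Hp39

noncomputable section

/-- **THE NUMBERS OF ONE INSTANCE.** `b` = the ratio of the scales, `n₁` a height, `m₁` a number of scales, `Qc = n ^ e₁` the crude constant. -/
structure Nd96 (μ : Measure ℝ) (s c : ℝ) (Γ : Cx) (G : Gm) (mt n b n₁ m₁ ke J : ℕ) (g₀ e₁ : ℝ) : Prop where
  hs : Γ.s = s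
  hv : G.v = sl μ s
  hK : G.K = b
  hw : ∀ v, G.w v = wd μ s (G.T v)
  T0 : n₁ ≤ G.T0
  N : ∀ v, (Γ.N : ℝ) + 1 ≤ Real.exp (EE μ s (4 * G.T v))
  fo : ∀ v, v ≤ mt + 1 → |Γ.h| * wd μ s (8 * G.K ^ 2 * G.T v) ≤ c / 8 * EE μ s (8 * G.K ^ 2 * G.T v)
  sw : ∀ v, v ≤ mt → |Γ.h| * (8 * (G.T v : ℝ)) ≤ 1
  M1 : G.M ≤ mt
  e1 : m₁ ≤ G.M / (4 * ke)
  e2 : 2 * (G.M / (4 * ke) + J + 1) + 7 ≤ G.M / ke
  pw : (n : ℝ) ^ e₁ + 2 ≤ g₀ ^ (G.M / (4 * ke))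

variable {P : Pre} {Dd : Dat} {μ : Measure ℝ} {s c C : ℝ} {n₀ : ℕ}

/-- **THE FORCE AT THE HEIGHTS `8 K² T v`**, one scale above the last one included. -/
theorem frc96 [IsProbabilityMeasure μ] (h0 : In μ s c C n₀) (hE9 : ∀ᶠ n : ℕ in atTop, (n : ℝ) ^ (1 / 9 : ℝ) ≤ EE μ s n) :
    Evn P Dd μ s fun _ _ _ _ _ Γ G mt _ _ => (∀ v, v ≤ mt + 1 →
      |Γ.h| * wd μ s (8 * G.K ^ 2 * G.T v) ≤ c / 8 * EE μ s (8 * G.K ^ 2 * G.T v)) ∧ ∀ v, v ≤ mt → |Γ.h| * (8 * (G.T v : ℝ)) ≤ 1 := by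
  have hc0 := h0.c0
  have hK : (0 : ℝ) < Dd.K := by
    have := Dd.hK
    exact_mod_cast (show 0 < Dd.K by omega)
  refine ((((evn_tilt (P := P) (Dd := Dd) h0 hE9 (ε := min (c / (128 * (Dd.K : ℝ) ^ 3)) (1 / 8)) (by positivity)).and evn_geo).and
    (evn_n fun _ _ _ _ _ _ _ => 1))).mono fun q η A lam n Γ G mt τ0 E h => ?_
  obtain ⟨⟨⟨-, h1⟩, h2, -, h3, -⟩, hn⟩ := h
  have hn1 : (1 : ℝ) ≤ n := by exact_mod_cast hn
  have hK3 := G.hK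
  have hKG : (0 : ℝ) < G.K := by exact_mod_cast (show 0 < G.K by omega)
  rw [← h3] at h1
  constructor
  · intro v hv
    obtain ⟨v', hv'⟩ : ∃ v', v' = min v mt := ⟨_, rfl⟩
    have a1 : v' ≤ mt := by omega
    have a2 : G.T v' ≤ G.T v := G.T_mono (by omega)
    have a3 : G.T v ≤ G.K * G.T v' := by
      rcases Nat.lt_or_ge mt v with h4 | h4
      · have e1 : v = v' + 1 := by omega
        rw [e1]
        refine le_of_eq ?_
        show G.T0 * G.K ^ (v' + 1) = G.K * (G.T0 * G.K ^ v')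
        rw [pow_succ]
        ring
      · have e1 : v = v' := by omega
        rw [← e1]
        exact Nat.le_mul_of_pos_left _ (by omega)
    have hT1 : 1 ≤ G.T v' := G.T_pos v'
    have hTR : (0 : ℝ) < G.T v' := by exact_mod_cast hT1
    obtain ⟨h4, -⟩ := h1 v' a1
    rw [h2] at h4
    have hTt : G.T v' ≤ 8 * G.K ^ 2 * G.T v := a2.trans (Nat.le_mul_of_pos_left _ (by positivity))
    have h5 := Pool.Agent.W_7d29a1_C1.U16.wd_le h0 hT1 hTt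
    have hw0 := h0.wd_nonneg (G.T v')
    have e1 : ((8 * G.K ^ 2 * G.T v : ℕ) : ℝ) / (G.T v' : ℝ) ≤ 8 * (G.K : ℝ) ^ 3 := by
      rw [div_le_iff₀ hTR]
      have a4 : (G.T v : ℝ) ≤ G.K * G.T v' := by exact_mod_cast a3
      push_cast
      have := mul_le_mul_of_nonneg_left a4 (show 0 ≤ 8 * (G.K : ℝ) ^ 2 by positivity)
      calc 8 * (G.K : ℝ) ^ 2 * G.T v ≤ 8 * (G.K : ℝ) ^ 2 * (G.K * G.T v') := this
        _ = _ := by ring
    have h6 : wd μ s (8 * G.K ^ 2 * G.T v) ≤ 16 * (G.K : ℝ) ^ 3 * wd μ s (G.T v') := by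
      refine h5.trans (mul_le_mul_of_nonneg_right ?_ hw0)
      linarith
    have h7 : |Γ.h| * wd μ s (8 * G.K ^ 2 * G.T v) ≤ 16 * (G.K : ℝ) ^ 3 * (|Γ.h| * wd μ s (G.T v')) := by
      have := mul_le_mul_of_nonneg_left h6 (abs_nonneg Γ.h)
      linarith
    have hE0 := EE_pos (μ := μ) (s := s) (G.T v')
    have h8 : |Γ.h| * wd μ s (G.T v') ≤ c / (128 * (G.K : ℝ) ^ 3) * EE μ s (G.T v') :=
      h4.trans (mul_le_mul_of_nonneg_right (min_le_left _ _) hE0.le)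
    have h9 : 16 * (G.K : ℝ) ^ 3 * (|Γ.h| * wd μ s (G.T v')) ≤ 16 * (G.K : ℝ) ^ 3 * (c / (128 * (G.K : ℝ) ^ 3) * EE μ s (G.T v')) :=
      mul_le_mul_of_nonneg_left h8 (by positivity)
    have e2 : 16 * (G.K : ℝ) ^ 3 * (c / (128 * (G.K : ℝ) ^ 3) * EE μ s (G.T v')) = c / 8 * EE μ s (G.T v') := by
      field_simp
      ring
    have h10 : EE μ s (G.T v') ≤ EE μ s (8 * G.K ^ 2 * G.T v) := EE_mono hTt
    have h11 := mul_le_mul_of_nonneg_left h10 (show 0 ≤ c / 8 by positivity)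
    linarith
  · intro v hv
    obtain ⟨-, h4⟩ := h1 v hv
    have hT1 : (1 : ℝ) ≤ G.T v := by exact_mod_cast G.T_pos v
    have hl : 0 ≤ Real.log n := Real.log_nonneg hn1
    have e1 : (G.T v : ℝ) ≤ (G.T v : ℝ) ^ 3 * (1 + Real.log n) := by
      have a1 : (G.T v : ℝ) ≤ (G.T v : ℝ) ^ 3 := le_self_pow₀ hT1 (by norm_num)
      have a2 : (0 : ℝ) ≤ (G.T v : ℝ) ^ 3 * Real.log n := by positivity
      nlinarith
    have h5 := mul_le_mul_of_nonneg_left e1 (abs_nonneg Γ.h)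
    have h6 : |Γ.h| * ((G.T v : ℝ) ^ 3 * (1 + Real.log n)) ≤ 1 / 8 := h4.trans (min_le_right _ _)
    linarith

/-- The counts of the scales. -/
theorem cnt96 {M ke J m₁ : ℕ} (hke : 1 ≤ ke) (h : (4 * J + 4 * m₁ + 40) * (4 * ke) ≤ M) :
    m₁ ≤ M / (4 * ke) ∧ 2 * (M / (4 * ke) + J + 1) + 7 ≤ M / ke := by
  have e : M / (4 * ke) = M / ke / 4 := by rw [Nat.div_div_eq_div_mul, mul_comm ke 4]
  have h1 : (4 * J + 4 * m₁ + 40) * 4 ≤ M / ke := by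
    refine (Nat.le_div_iff_mul_le (by omega)).2 ?_
    calc (4 * J + 4 * m₁ + 40) * 4 * ke = (4 * J + 4 * m₁ + 40) * (4 * ke) := by ring
      _ ≤ M := h
  rw [e]
  generalize M / ke = q at *
  constructor <;> omega

/-- **THE NUMBERS OF ONE INSTANCE, EVENTUALLY.** -/
theorem evn_nd96 [IsProbabilityMeasure μ] (h0 : In μ s c C n₀) (hE9 : ∀ᶠ n : ℕ in atTop, (n : ℝ) ^ (1 / 9 : ℝ) ≤ EE μ s n)
    {g₀ e₁ : ℝ} {ke : ℕ} (n₁ m₁ J : ℕ) (hg : 1 < g₀) (hke : 1 ≤ ke) (he : e₁ ≤ Dd.kap * Real.log g₀ / (8 * ke)) :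
    Evn P Dd μ s fun _ _ _ _ n Γ G mt _ _ => Nd96 μ s c Γ G mt n Dd.K n₁ m₁ ke J g₀ e₁ := by
  refine ((((((frc96 (P := P) (Dd := Dd) h0 hE9).and evn_geo).and (evn_adm.and (evn_N h0))).and
    ((evn_T0 fun _ _ _ _ _ _ _ => n₁).and (evn_M fun _ _ _ _ _ _ _ => (4 * J + 4 * m₁ + 40) * (4 * ke)))).and evn_mt).and
    (evn_pow96 (Q₄ := 1) (X := 2) (j := 0) hg one_pos hke he)).mono fun q η A lam n Γ G mt τ0 E h => ?_
  obtain ⟨⟨⟨⟨⟨hf, hg⟩, ha, hN⟩, hT, hM⟩, hmt⟩, hp⟩ := h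
  obtain ⟨c1, c2⟩ := cnt96 hke hM
  exact
  { hs := ha.2.1
    hv := hg.2.2.2.1
    hK := hg.2.2.1
    hw := hg.1
    T0 := hT
    N := fun v => hN _ (by
      have h1 : G.T0 ≤ G.T v := by
        have h2 := G.T_mono (Nat.zero_le v)
        have h3 : G.T 0 = G.T0 := by
          show G.T0 * G.K ^ 0 = G.T0
          rw [pow_zero, mul_one]
        omega
      omega)
    fo := hf.1
    sw := hf.2
    M1 := by omega
    e1 := c1
    e2 := c2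
    pw := by
      have h1 := hp (G.M / (4 * ke)) (by omega)
      rwa [one_mul] at h1 }

end

end Pool.Agent.W_7d29a1_C1.DW96
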