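import Mathlib

/-!
MP_7d29a1_pr, [C1] attractor route, TAME, (D2): THE NUMBERS OF THE CHAIN OF THE PIECES OF (D2). (helper85)

`or_th85`: the growth `x` near to 1 (`Th85`: `(x x) ^ 8 ≤ g₀`, `g₁ ^ 4 ≤ g₀`, `g₁ = ((x x) ^ 4 x) ^ pw`, `2 (x ^ 2 g₁) ^ 4 ≤ 4`, `x ≤ K ^ a`);
`lev85`: the levels of a piece of `m` layers; `blkC85`: the cost after the block; `cleanQ85`, `cleanL85`: the short clean piece.
-/

set_option autoImplicit false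

namespace Pool.Agent.W_7d29a1_C1.NumD85

/-- The growth of the constant of (D2) over one scale, at `Θ = x = β`. -/
noncomputable def g85 (pw : ℕ) (x : ℝ) : ℝ := ((x * x) ^ 4 * x) ^ pw

/-- **THE CONDITIONS ON THE GROWTH `x`.** -/
structure Th85 (g₀ : ℝ) (pw : ℕ) (b x : ℝ) : Prop where
  one : 1 < x
  two : x ≤ 2
  b : x ≤ b
  sq2 : (x * x) ^ 2 ≤ 2
  y : x * x ≤ g₀
  y2 : (x * x) ^ 2 ≤ g₀
  y8 : (x * x) ^ 8 ≤ g₀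
  g1 : 1 ≤ g85 pw x
  gg : g85 pw x ≤ g₀
  g4 : g85 pw x ^ 4 ≤ g₀
  four : 2 * (x ^ 2 * g85 pw x) ^ 4 ≤ 4

/-- A power of a number near to 1 is below a bound larger than 1. -/
theorem or_pow85 {b : ℝ} (hb : 1 < b) (k : ℕ) : ∃ x₀ : ℝ, 1 < x₀ ∧ ∀ x : ℝ, 1 ≤ x → x ≤ x₀ → x ^ k ≤ b := by
  have hk : (0 : ℝ) < k + 1 := by positivity
  have hr : 0 < 1 / ((k : ℝ) + 1) := by positivity
  refine ⟨b ^ (1 / ((k : ℝ) + 1)), Real.one_lt_rpow hb hr, fun x hx hx' => ?_⟩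
  have h0 : 0 ≤ x := by linarith only [hx]
  have h1 : x ^ (k + 1) ≤ (b ^ (1 / ((k : ℝ) + 1))) ^ (k + 1) := pow_le_pow_left₀ h0 hx' _
  have h2 : (b ^ (1 / ((k : ℝ) + 1))) ^ (k + 1) = b := by
    rw [← Real.rpow_natCast, ← Real.rpow_mul (by linarith only [hb])]
    push_cast
    rw [one_div, inv_mul_cancel₀ hk.ne', Real.rpow_one]
  exact (pow_le_pow_right₀ hx (Nat.le_succ k)).trans (h1.trans_eq h2)

/-- **(a) THE GROWTH EXISTS**: every number near to 1, larger than 1. -/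
theorem or_th85 {g₀ : ℝ} (hg₀ : 1 < g₀) (pw : ℕ) {b : ℝ} (hb : 1 < b) : ∃ x₀ : ℝ, 1 < x₀ ∧ ∀ x : ℝ, 1 < x → x ≤ x₀ → Th85 g₀ pw b x := by
  obtain ⟨N, hN⟩ : ∃ N : ℕ, N = 36 * pw + 16 := ⟨_, rfl⟩
  have hm : 1 < min (min g₀ b) 2 := lt_min (lt_min hg₀ hb) (by norm_num)
  obtain ⟨x₀, h1, H⟩ := or_pow85 hm N
  refine ⟨x₀, h1, fun x hx hx' => ?_⟩
  have h0 : 0 ≤ x := by linarith only [hx]
  have hx1 : 1 ≤ x := hx.le
  have hP := H x hx1 hx'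
  have hg : x ^ N ≤ g₀ := hP.trans ((min_le_left _ _).trans (min_le_left _ _))
  have hB : x ^ N ≤ b := hP.trans ((min_le_left _ _).trans (min_le_right _ _))
  have h2 : x ^ N ≤ 2 := hP.trans (min_le_right _ _)
  have up : ∀ k : ℕ, k ≤ N → x ^ k ≤ x ^ N := fun k hk => pow_le_pow_right₀ hx1 hk
  have e1 : x = x ^ 1 := (pow_one x).symm
  have e2 : x * x = x ^ 2 := (sq x).symm
  have eg : g85 pw x = x ^ (9 * pw) := by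
    unfold g85
    rw [e2, ← pow_mul, ← pow_succ, ← pow_mul]
  refine ⟨hx, ?_, ?_, ?_, ?_, ?_, ?_, ?_, ?_, ?_, ?_⟩
  · exact e1.le.trans ((up 1 (by omega)).trans h2)
  · exact e1.le.trans ((up 1 (by omega)).trans hB)
  · rw [e2, ← pow_mul]; exact (up _ (by omega)).trans h2
  · rw [e2]; exact (up _ (by omega)).trans hg
  · rw [e2, ← pow_mul]; exact (up _ (by omega)).trans hg
  · rw [e2, ← pow_mul]; exact (up _ (by omega)).trans hg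
  · rw [eg]; exact one_le_pow₀ hx1
  · rw [eg]; exact (up _ (by omega)).trans hg
  · rw [eg, ← pow_mul]; exact (up _ (by omega)).trans hg
  · rw [eg, ← pow_add, ← pow_mul]
    have := (up ((2 + 9 * pw) * 4) (by omega)).trans h2
    linarith only [this]

/-- The bound `b` may be a power of the ratio. -/
theorem one_lt_pow85 {K : ℕ} (hK : 2 ≤ K) {a : ℝ} (ha : 0 < a) : 1 < (K : ℝ) ^ a :=
  Real.one_lt_rpow (by exact_mod_cast (show 1 < K by omega)) ha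

/-- `4 ≤ K ^ e` for large `K`. -/
theorem four_le85 {e : ℝ} (he : 0 < e) : ∃ K₀ : ℕ, ∀ K : ℕ, K₀ ≤ K → 4 ≤ (K : ℝ) ^ e := by
  obtain ⟨K₀, hK₀⟩ := exists_nat_ge ((4 : ℝ) ^ (1 / e))
  refine ⟨K₀, fun K hK => ?_⟩
  have h1 : (4 : ℝ) ^ (1 / e) ≤ K := hK₀.trans (by exact_mod_cast hK)
  have h2 := Real.rpow_le_rpow (by positivity) h1 he.le
  rwa [← Real.rpow_mul (by norm_num), one_div, inv_mul_cancel₀ he.ne', Real.rpow_one] at h2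

theorem Th85.K {g₀ b x : ℝ} {pw : ℕ} (h : Th85 g₀ pw b x) {K : ℕ} {e : ℝ} (hK : 4 ≤ (K : ℝ) ^ e) :
    2 * (x ^ 2 * g85 pw x) ^ 4 ≤ (K : ℝ) ^ e := h.four.trans hK

/-- A power against a power of `g₀`, with a remainder. -/
theorem pow_rem85 {y g₀ : ℝ} (hy : 1 ≤ y) {r : ℕ} (hyg : y ^ r ≤ g₀) {k m j : ℕ} (hk : k ≤ r * m + j) : y ^ k ≤ y ^ j * g₀ ^ m := by
  have h0 : 0 ≤ y := by linarith only [hy]
  calc y ^ k ≤ y ^ (r * m + j) := pow_le_pow_right₀ hy hk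
    _ = y ^ j * (y ^ r) ^ m := by rw [pow_add, pow_mul, mul_comm]
    _ ≤ y ^ j * g₀ ^ m := mul_le_mul_of_nonneg_left (pow_le_pow_left₀ (by positivity) hyg m) (by positivity)

/-- **(d) THE LEVELS OF A PIECE** of `m` layers: exponent at most `2 m + j`, `y ^ 2 ≤ g₀`. -/
theorem lev85 {y g₀ A : ℝ} (hA : 0 ≤ A) (hy : 1 ≤ y) (hyg : y ^ 2 ≤ g₀) {k m j : ℕ} (hk : k ≤ 2 * m + j) :
    1 + A * y ^ k ≤ (1 + A * y ^ j) * g₀ ^ m := by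
  have h1 := mul_le_mul_of_nonneg_left (pow_rem85 hy hyg hk) hA
  have hg : 1 ≤ g₀ := (one_le_pow₀ hy).trans hyg
  have h2 : 1 ≤ g₀ ^ m := one_le_pow₀ hg
  linarith only [h1, h2, show (1 + A * y ^ j) * g₀ ^ m = g₀ ^ m + A * (y ^ j * g₀ ^ m) by ring]

/-- The levels of a piece, exponent at most `m + j`, `y ≤ g₀`. -/
theorem levo85 {y g₀ A : ℝ} (hA : 0 ≤ A) (hy : 1 ≤ y) (hyg : y ≤ g₀) {k m j : ℕ} (hk : k ≤ m + j) :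
    1 + A * y ^ k ≤ (1 + A * y ^ j) * g₀ ^ m := by
  have h0 : y ^ 1 ≤ g₀ := (pow_one y).le.trans hyg
  have h1 := mul_le_mul_of_nonneg_left (pow_rem85 hy h0 (show k ≤ 1 * m + j by omega)) hA
  have hg : 1 ≤ g₀ := hy.trans hyg
  have h2 : 1 ≤ g₀ ^ m := one_le_pow₀ hg
  linarith only [h1, h2, show (1 + A * y ^ j) * g₀ ^ m = g₀ ^ m + A * (y ^ j * g₀ ^ m) by ring]

/-- The constant of the row above the block. -/
noncomputable def C5_85 (C4 q₀ y A1 g1 δ : ℝ) : ℝ := C4 * (1 + ((1 + q₀) * y ^ 3) ^ 2 + A1 * g1 ^ 3) ^ 4 / δ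

theorem C5_85_nonneg {C4 q₀ y A1 g1 δ : ℝ} (hC : 0 ≤ C4) (hδ : 0 < δ) : 0 ≤ C5_85 C4 q₀ y A1 g1 δ := by
  unfold C5_85
  positivity

/-- **(e) THE COST AFTER THE BLOCK.** -/
theorem blkC85 {C4 q₀ y A1 g1 δ g₀ : ℝ} (hC : 0 ≤ C4) (hq : 0 ≤ q₀) (hy : 1 ≤ y) (hA1 : 0 ≤ A1) (hg1 : 1 ≤ g1) (hδ : 0 < δ)
    (hyg : y ^ 8 ≤ g₀) (hg4 : g1 ^ 4 ≤ g₀) (d : ℕ) :
    C4 * (1 + ((1 + q₀) * y ^ (d + 3)) ^ 2 + A1 * g1 ^ (d + 3)) ^ 4 / δ ≤ C5_85 C4 q₀ y A1 g1 δ * g₀ ^ d := by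
  obtain ⟨z, hz⟩ : ∃ z : ℝ, z = max (y ^ 2) g1 := ⟨_, rfl⟩
  have hy0 : 0 ≤ y := by linarith only [hy]
  have hg10 : 0 ≤ g1 := by linarith only [hg1]
  have hz1 : y ^ 2 ≤ z := (le_max_left _ _).trans_eq hz.symm
  have hz2 : g1 ≤ z := (le_max_right _ _).trans_eq hz.symm
  have hz0 : 1 ≤ z := hg1.trans hz2
  have hz4 : z ^ 4 ≤ g₀ := by
    rw [hz]
    rcases max_choice (y ^ 2) g1 with h | h
    · rw [h, ← pow_mul]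
      exact hyg
    · rw [h]
      exact hg4
  have hzd : 1 ≤ z ^ d := one_le_pow₀ hz0
  have h1 : ((1 + q₀) * y ^ (d + 3)) ^ 2 ≤ ((1 + q₀) * y ^ 3) ^ 2 * z ^ d := by
    have e1 : ((1 + q₀) * y ^ (d + 3)) ^ 2 = ((1 + q₀) * y ^ 3) ^ 2 * (y ^ 2) ^ d := by
      rw [pow_add, ← pow_mul, mul_comm 2 d, pow_mul]
      ring
    rw [e1]
    exact mul_le_mul_of_nonneg_left (pow_le_pow_left₀ (by positivity) hz1 d) (by positivity)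
  have h2 : A1 * g1 ^ (d + 3) ≤ A1 * g1 ^ 3 * z ^ d := by
    rw [pow_add, mul_comm (g1 ^ d), ← mul_assoc]
    exact mul_le_mul_of_nonneg_left (pow_le_pow_left₀ hg10 hz2 d) (by positivity)
  have h3 : 1 + ((1 + q₀) * y ^ (d + 3)) ^ 2 + A1 * g1 ^ (d + 3) ≤ (1 + ((1 + q₀) * y ^ 3) ^ 2 + A1 * g1 ^ 3) * z ^ d := by
    linarith only [h1, h2, hzd, show (1 + ((1 + q₀) * y ^ 3) ^ 2 + A1 * g1 ^ 3) * z ^ d =
      z ^ d + ((1 + q₀) * y ^ 3) ^ 2 * z ^ d + A1 * g1 ^ 3 * z ^ d by ring]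
  have h4 : (1 + ((1 + q₀) * y ^ (d + 3)) ^ 2 + A1 * g1 ^ (d + 3)) ^ 4 ≤
      (1 + ((1 + q₀) * y ^ 3) ^ 2 + A1 * g1 ^ 3) ^ 4 * g₀ ^ d := by
    refine (pow_le_pow_left₀ (by positivity) h3 4).trans ?_
    rw [mul_pow, ← pow_mul, mul_comm d 4, pow_mul]
    exact mul_le_mul_of_nonneg_left (pow_le_pow_left₀ (by positivity) hz4 d) (by positivity)
  unfold C5_85
  rw [div_mul_eq_mul_div, div_le_div_iff_of_pos_right hδ, mul_assoc]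
  exact mul_le_mul_of_nonneg_left h4 hC

/-- **(f) THE SHORT CLEAN PIECE, THE COMPARISON ABOVE IT**: `d ≤ m + (J + 1)`. -/
theorem cleanQ85 {C5 A g₀ : ℝ} (hC : 0 ≤ C5) (hA : 0 ≤ A) (hg : 1 ≤ g₀) {d m J : ℕ} (hd : d ≤ m + (J + 1)) :
    C5 * g₀ ^ d + 2 ≤ (C5 + 3 + A) * g₀ ^ (J + 1) * g₀ ^ m := by
  have h1 : g₀ ^ d ≤ g₀ ^ (m + (J + 1)) := pow_le_pow_right₀ hg hd
  have h2 : 1 ≤ g₀ ^ (m + (J + 1)) := one_le_pow₀ hg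
  have h3 := mul_le_mul_of_nonneg_left h1 hC
  have h4 : 0 ≤ A * g₀ ^ (m + (J + 1)) := by positivity
  have e1 : (C5 + 3 + A) * g₀ ^ (J + 1) * g₀ ^ m = C5 * g₀ ^ (m + (J + 1)) + 3 * g₀ ^ (m + (J + 1)) + A * g₀ ^ (m + (J + 1)) := by
    rw [pow_add]
    ring
  rw [e1]
  linarith only [h2, h3, h4]

/-- **(f) THE SHORT CLEAN PIECE, THE LEVELS**: `k ≤ m + (J + 1)`, `y ≤ g₀`. -/
theorem cleanL85 {C5 A y g₀ : ℝ} (hC : 0 ≤ C5) (hA : 0 ≤ A) (hy : 1 ≤ y) (hyg : y ≤ g₀) {k m J : ℕ} (hk : k ≤ m + (J + 1)) :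
    1 + A * y ^ k ≤ (C5 + 3 + A) * g₀ ^ (J + 1) * g₀ ^ m := by
  have hg : 1 ≤ g₀ := hy.trans hyg
  have h0 : 0 ≤ y := by linarith only [hy]
  have h1 : y ^ k ≤ g₀ ^ (m + (J + 1)) := (pow_le_pow_right₀ hy hk).trans (pow_le_pow_left₀ h0 hyg _)
  have h2 : 1 ≤ g₀ ^ (m + (J + 1)) := one_le_pow₀ hg
  have h3 := mul_le_mul_of_nonneg_left h1 hA
  have h4 : 0 ≤ C5 * g₀ ^ (m + (J + 1)) := by positivity
  have e1 : (C5 + 3 + A) * g₀ ^ (J + 1) * g₀ ^ m = C5 * g₀ ^ (m + (J + 1)) + 3 * g₀ ^ (m + (J + 1)) + A * g₀ ^ (m + (J + 1)) := by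
    rw [pow_add]
    ring
  rw [e1]
  linarith only [h2, h3, h4]

/-- The constant of the output of a piece: `Q₀ ((1 + A) ^ 4 y ^ 4 / σ) ^ pw`. -/
noncomputable def Qo85 (Q₀ A y σ : ℝ) (pw : ℕ) : ℝ := Q₀ * ((1 + A) ^ 4 * y ^ 4 / σ) ^ pw

theorem Qo85_nonneg {Q₀ A y σ : ℝ} {pw : ℕ} (hQ : 0 ≤ Q₀) (hA : 0 ≤ A) (hσ : 0 < σ) : 0 ≤ Qo85 Q₀ A y σ pw := by
  unfold Qo85
  positivity

/-- **THE TWO CASES AT ONCE**: the input constant `Q₄` of the last piece, with the crude top in the place of the block. -/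
theorem topL85 {A y g₀ : ℝ} (hA : 0 ≤ A) (hy : 1 ≤ y) (hyg : y ≤ g₀) {k m J : ℕ} (hk : k ≤ m + (J + 1)) :
    1 + A * y ^ k ≤ (1 + A) * g₀ ^ (J + 1) * g₀ ^ m := by
  have hg : 1 ≤ g₀ := hy.trans hyg
  have h0 : 0 ≤ y := by linarith only [hy]
  have h1 : y ^ k ≤ g₀ ^ (m + (J + 1)) := (pow_le_pow_right₀ hy hk).trans (pow_le_pow_left₀ h0 hyg _)
  have h2 : 1 ≤ g₀ ^ (m + (J + 1)) := one_le_pow₀ hg
  have h3 := mul_le_mul_of_nonneg_left h1 hA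
  have e1 : (1 + A) * g₀ ^ (J + 1) * g₀ ^ m = g₀ ^ (m + (J + 1)) + A * g₀ ^ (m + (J + 1)) := by
    rw [pow_add]
    ring
  rw [e1]
  linarith only [h2, h3]

end Pool.Agent.W_7d29a1_C1.NumD85
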