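import Pool.Agent.W_7d29a1_C1.StayE78
import Pool.Agent.W_7d29a1_C1.StayG78
import Pool.Agent.W_7d29a1_C1.KdR78

/-!
MP_7d29a1_pr, attractor route [C1], SEP, STAY (helper78): STAY FROM THE LEVELS, the model.

* `Slabs.sub` : a piece `[k, i]` of the rows of a chain of slabs is again a chain of slabs;
* `env_all` : the upper envelope `far_up` for ALL rows `r a ≤ k < i ≤ r b`;
* **`st_slab78`** : chain of slabs over the rows `[lo, r]`, lower bound from the box to one site of the row `r`, growth of `bw / wt` at the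
  row `r` with small slope ==> `ω ∈ St Γ G a b (β E) u κ`;
* **`st_far78`** : the same from ONE level event `Far16` of the box.
-/

set_option autoImplicit false

namespace Pool.Agent.W_7d29a1_C1.Sy78

open MeasureTheory ProbabilityTheory Filter Topology Finset
open Pool.Agent.W_7d29a1_F Pool.Agent.W_7d29a1_h4g Pool.Agent.W_7d29a1_H Pool.Agent.W_7d29a1_HS
open Pool.Agent.W_7d29a1_C1.K91 (wt wt_pos measurable_wt)
open Pool.Agent.W_7d29a1_C1.K91P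
open Pool.Agent.W_7d29a1_C1.H60
open Pool.Agent.W_7d29a1_C1.G37 (Gm)
open Pool.Agent.W_7d29a1_C1.U16 (lat16 Far16 ker ker_zero ker_nonneg)
open Pool.Agent.W_7d29a1_C1.FarK89 (gr LQ LQ_nonneg gr_nonneg gr_one_le gr_mono)
open Pool.Agent.W_7d29a1_C1.H75 (hc)
open Pool.Agent.W_7d29a1_C1.FarW89 (nk bl bl_add ker_nk Slabs far_up far_low89 lt)
open Pool.Agent.W_7d29a1_C1.K78 (lev_pay rows78)

noncomputable section

variable {μ : Measure ℝ} {s : ℝ} [IsProbabilityMeasure μ] {c C : ℝ} {n₀ : ℕ}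

omit [IsProbabilityMeasure μ] in
theorem exists_cut {r : ℕ → ℕ} {a b k : ℕ} (h1 : r a ≤ k) (h2 : k < r b) (hab : a ≤ b) : ∃ u, a ≤ u ∧ u < b ∧ r u ≤ k ∧ k < r (u + 1) := by
  induction b, hab using Nat.le_induction with
  | base => omega
  | succ b hab ih =>
    rcases lt_or_ge k (r b) with h3 | h3
    · obtain ⟨u, g1, g2, g3, g4⟩ := ih h3
      exact ⟨u, g1, by omega, g3, g4⟩
    · exact ⟨b, hab, by omega, h3, h2⟩

omit [IsProbabilityMeasure μ] in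
theorem exists_cut' {r : ℕ → ℕ} {a b i : ℕ} (h1 : r a < i) (h2 : i ≤ r b) (hab : a ≤ b) : ∃ u, a ≤ u ∧ u < b ∧ r u < i ∧ i ≤ r (u + 1) := by
  induction b, hab using Nat.le_induction with
  | base => omega
  | succ b hab ih =>
    rcases le_or_gt i (r b) with h3 | h3
    · obtain ⟨u, g1, g2, g3, g4⟩ := ih h3
      exact ⟨u, g1, by omega, g3, g4⟩
    · exact ⟨b, hab, by omega, h3, h2⟩

/-- A piece of a chain of slabs. -/
theorem slabs_sub (h0 : In μ s c C n₀) {θ K h Q : ℝ} {P : ℕ} {η : Env} {κ : Pt} {r T N : ℕ → ℕ} {q : ℕ → ℝ} {bs : ℕ → Pt} {a b Tt n₁ : ℕ}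
    (S : Slabs μ s c θ K h P η κ r T N q bs a b Tt n₁ Q) {a' b' k i : ℕ} (ha : a ≤ a') (hb : b' ≤ b) (hab : a' < b') (h1 : r a' ≤ k)
    (h2 : k ≤ r (a' + 1)) (h3 : r (b' - 1) ≤ i) (h4 : i ≤ r b') (hki : k ≤ i) :
    Slabs μ s c θ K h P η κ (fun u => if u = a' then k else if u = b' then i else r u) T N q bs a' b' Tt n₁ Q := by
  refine ⟨fun u hu hub => S.q0 u (ha.trans hu) (by omega), S.K3, S.Tt1, fun u hu hub => S.T1 u (ha.trans hu) (by omega),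
    fun u hu hub => S.TT u (ha.trans hu) (by omega), fun u hu hub => S.NT u (ha.trans hu) (by omega), fun u hu hub => ?_,
    fun u hu hub => ?_, fun u hu hub => ?_, fun u hu hub => S.b3 u (ha.trans hu) (by omega),
    fun u hu hub => S.far u (ha.trans hu) (by omega), ?_, S.force⟩
  · show (if u = a' then k else if u = b' then i else r u) ≤ (if u + 1 = a' then k else if u + 1 = b' then i else r (u + 1))
    rw [if_neg (show ¬ u + 1 = a' by omega)]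
    split_ifs with g1 g2 g3 g4
    · exact hki
    · subst g1; exact h2
    · omega
    · omega
    · rw [show u = b' - 1 by omega]; exact h3
    · exact S.rr u (ha.trans hu) (by omega)
  · show (bs u).1 ≤ ((if u = a' then k else if u = b' then i else r u : ℕ) : ℤ)
    have g0 := S.b1 u (ha.trans hu) (by omega)
    split_ifs with g1 g2
    · subst g1
      exact g0.trans (by exact_mod_cast h1)
    · omega
    · exact g0
  · show ((if u + 1 = a' then k else if u + 1 = b' then i else r (u + 1) : ℕ) : ℤ) ≤ (bs u).1 + N u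
    have g0 := S.b2 u (ha.trans hu) (by omega)
    rw [if_neg (show ¬ u + 1 = a' by omega)]
    split_ifs with g1
    · have h5 : (i : ℤ) ≤ (r (u + 1) : ℤ) := by rw [g1]; exact_mod_cast h4
      exact h5.trans g0
    · exact g0
  · refine le_trans ?_ S.cost
    refine sum_le_sum_of_subset_of_nonneg (fun u hu => ?_) fun u hu _ => ?_
    · obtain ⟨g1, g2⟩ := mem_Ico.1 hu
      exact mem_Ico.2 ⟨ha.trans g1, by omega⟩
    · have g1 := (EE_pos (μ := μ) (s := s) (T u)).le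
      have g2 : 0 ≤ gr (2 * P) (2 * wd μ s Tt / wd μ s (T u)) := by
        refine gr_nonneg _ (div_nonneg (mul_nonneg (by norm_num) ?_) ?_)
        · exact h0.wd_nonneg _
        · exact h0.wd_nonneg _
      positivity

/-- **THE UPPER ENVELOPE, ALL ROWS.** -/
theorem env_all (h0 : In μ s c C n₀) (P : ℕ) : ∃ C₅ : ℝ, 0 < C₅ ∧ ∃ n₁ : ℕ, 1 ≤ n₁ ∧
    ∀ {θ K h Q : ℝ} {η : Env} {p : ℕ → ℝ} {M : ℕ} {κ : Pt} {r T N : ℕ → ℕ} {q : ℕ → ℝ} {bs : ℕ → Pt} {a b Tt : ℕ}, a ≤ b →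
    (∀ k, k < M → p k = Real.exp (s + h)) → (∀ k, M ≤ k → p k = Real.exp s) → Slabs μ s c θ K h P η κ r T N q bs a b Tt n₁ Q →
    ∀ k i : ℕ, r a ≤ k → k < i → i ≤ r b → ∀ x y : ℤ, nk μ s h η p M k (i - k) x y ≤
      Real.exp ((LQ (2 * P) (c / 8) (C₅ * Q) * gr (2 * P) (|lat16 μ s κ ((k : ℤ), x)| / wd μ s Tt) + Q) * EE μ s Tt -
        hc μ s c Tt / 8 * |((y - x : ℤ) : ℝ) - sl μ s * ((i - k : ℕ) : ℝ)|) := by
  obtain ⟨C₅, hC₅, n₁, hn₁, H⟩ := far_up h0 P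
  refine ⟨C₅, hC₅, n₁, hn₁, ?_⟩
  intro θ K h Q η p M κ r T N q bs a b Tt hab hp hp' S k i hk hki hi x y
  obtain ⟨a', g1, g2, g3, g4⟩ := exists_cut hk (lt_of_lt_of_le hki hi) hab
  obtain ⟨b', f1, f2, f3, f4⟩ := exists_cut' (lt_of_le_of_lt hk hki) hi hab
  have hm : ∀ u v, a ≤ u → u ≤ v → v ≤ b → r u ≤ r v := by
    intro u v hu huv hvb
    induction v, huv using Nat.le_induction with
    | base => exact le_rfl
    | succ v huv ih => exact (ih (by omega)).trans (S.rr v (by omega) (by omega))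
  have hab' : a' < b' + 1 := by
    by_contra h
    have h5 := hm (b' + 1) a' (by omega) (by omega) (by omega)
    omega
  have S' := slabs_sub h0 S (a' := a') (b' := b' + 1) (k := k) (i := i) g1 (by omega) hab' g3 g4.le (by simpa using f3.le) f4 hki.le
  have key := H hab'.le hp hp' S' x y
  have hne : ¬ b' + 1 = a' := by omega
  simp only [lt, hne, if_true, if_false] at key
  exact key

/-- **ONE START**, chain of slabs from a row below it. -/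
theorem lv_slab78 (h0 : In μ s c C n₀) (P : ℕ) : ∃ n₁ : ℕ, 1 ≤ n₁ ∧ ∀ Q : ℝ, 0 ≤ Q → ∃ CU : ℝ, 0 < CU ∧
    ∀ {θ K : ℝ} {Γ : Cx} {G : Gm} {ω : Env} {o : Pt} {r T N : ℕ → ℕ} {q : ℕ → ℝ} {bs : ℕ → Pt} {m₁ m₂ Tt : ℕ}, m₁ ≤ m₂ → Γ.s = s →
    G.v = sl μ s → Slabs μ s c θ K Γ.h P ω o r T N q bs m₁ m₂ Tt n₁ Q →
    ∀ (u : ℕ) (κ : ℤ × ℤ) (a b b' σ Q₁ Q₂ β : ℝ) (z₀ : ℤ), |((o.2 : ℝ) - G.v * (o.1 : ℝ)) - G.ctr u κ| ≤ 1 → G.w u ≤ wd μ s Tt →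
    b' * wd μ s Tt ≤ b * G.w u → 0 ≤ a → a ≤ b' → 0 ≤ σ → σ ≤ c / 32 → G.ra u κ < r m₂ → r m₂ ≤ Γ.N →
    |G.lat (r m₂, z₀) - G.ctr u κ| ≤ wd μ s Tt → ((r m₂ - r m₁ : ℕ) : ℝ) + 1 ≤ Real.exp (EE μ s Tt) →
    ∀ (k : ℕ) (y : ℤ), r m₁ ≤ k → |G.lat (k, y) - G.ctr u κ| ≤ a * G.w u →
    (k ≤ G.ra u κ → Real.exp (-(Q₁ * EE μ s Tt)) ≤ nk μ s Γ.h ω Γ.p Γ.M k (r m₂ - k) y z₀) →
    (∀ v : ℤ, bw (wt ω) Γ.p (r m₂) (Γ.N - r m₂) v / wt ω (r m₂) v ≤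
      Real.exp (Q₂ * EE μ s Tt + σ * (EE μ s Tt / wd μ s Tt) * |G.lat (r m₂, v) - G.lat (r m₂, z₀)|) *
        (bw (wt ω) Γ.p (r m₂) (Γ.N - r m₂) z₀ / wt ω (r m₂) z₀)) →
    β + (2 * CU + 5 / 4 * (c / 8) * a + Q₁ + Q₂ + σ + 3) ≤ c / 8 / 2 * b' →
    lv (wt ω) Γ.p Γ.N (sp G u κ b) (sr Γ G u κ) k y ≤ Real.exp (-(β * EE μ s Tt)) * bw (wt ω) Γ.p k (Γ.N - k) y := by
  have hc0 := h0.c0
  obtain ⟨C₅, hC₅, m₀, hm₀, H⟩ := env_all h0 P
  obtain ⟨m₃, hm₃⟩ := eventually_atTop.1 ((wd_tendsto h0).eventually_ge_atTop 1)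
  refine ⟨max m₀ m₃, hm₀.trans (le_max_left _ _), fun Q hQ => ?_⟩
  have hΛ : 0 ≤ LQ (2 * P) (c / 8) (C₅ * Q) := LQ_nonneg _ (by positivity)
  obtain ⟨C₁, hC₁, hpay⟩ := lev_pay (2 * P) hΛ (show 0 < c / 8 / 4 by positivity)
  refine ⟨C₁ + Q, by positivity, ?_⟩
  intro θ K Γ G ω o r T N q bs m₁ m₂ Tt hm hs hv S u κ a b b' σ Q₁ Q₂ β z₀ ho hwT hbw ha hab hσ0 hσ hra hrN hz₀ hn k y hk1 hky lo D2 hβ
  have S' : Slabs μ s c θ K Γ.h P ω o r T N q bs m₁ m₂ Tt m₀ Q :=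
    { S with
      Tt1 := (le_max_left _ _).trans S.Tt1
      T1 := fun u hu hub => (le_max_left _ _).trans (S.T1 u hu hub) }
  have hw1 : 1 ≤ wd μ s Tt := hm₃ Tt ((le_max_right _ _).trans S.Tt1)
  have hw0 : 0 < wd μ s Tt := by linarith
  have hE0 : 0 < EE μ s Tt := EE_pos _
  have hp : ∀ k, k < Γ.M → Γ.p k = Real.exp (s + Γ.h) := fun k hk => by
    unfold Cx.p
    rw [if_pos hk, hs]
  have hp' : ∀ k, Γ.M ≤ k → Γ.p k = Real.exp s := fun k hk => by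
    unfold Cx.p
    rw [if_neg (not_lt.2 hk), hs]
  have env := fun k i h1 h2 h3 x y => H hm hp hp' S' k i h1 h2 h3 x y
  have hwu := G.w_pos u
  have key := stay_env (S := sp G u κ b) (e := sr Γ G u κ) (w := wt ω) (p := Γ.p) (N := Γ.N) (wt_pos ω) Γ.p_pos (r := r m₂) hrN
    ((min_le_left _ _).trans hra) (L := fun k y => G.lat (k, y)) (ctr := G.ctr u κ) (W := wd μ s Tt) (E := EE μ s Tt) (c' := c / 8)
    (a := a) (b := b') (σ := σ) (CU := C₁ + Q) (Q₁ := Q₁) (Q₂ := Q₂) (β := β) (ρ := wt ω) (fun k y => wt_pos ω k y)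
    (A := fun k i => Real.exp (((i - k : ℕ) : ℝ) * lam μ s + Γ.h * sl μ s * bl Γ.M k (i - k)))
    (U := fun X => LQ (2 * P) (c / 8) (C₅ * Q) * gr (2 * P) (X + 1) + Q) (k₁ := r m₁) (z₀ := z₀) hw0 hE0.le (by positivity) hσ0
    (by linarith) hab ?_ ?_ (fun k i => (Real.exp_pos _).le) ?_ hz₀ D2 ?_ hn hβ hk1 (y := y) ?_ ?_
  · exact key
  · intro X hX
    have := hpay X hX
    linarith
  · intro k i h1 h2 h3
    show Real.exp _ * Real.exp _ = Real.exp _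
    rw [← Real.exp_add]
    congr 1
    have e1 : r m₂ - k = (i - k) + (r m₂ - i) := by omega
    have e2 : bl Γ.M k (r m₂ - k) = bl Γ.M k (i - k) + bl Γ.M i (r m₂ - i) := by
      rw [e1, bl_add, show k + (i - k) = i by omega]
    rw [e2, show ((r m₂ - k : ℕ) : ℝ) = ((i - k : ℕ) : ℝ) + ((r m₂ - i : ℕ) : ℝ) by rw [e1]; push_cast; ring]
    push_cast
    ring
  · intro k i y z h1 h2 h3
    have g1 := env k i h1 h2 h3 y z
    have e1 := ker_nk (μ := μ) (s := s) (h := Γ.h) (η := ω) (p := Γ.p) (M := Γ.M) k (i - k) y z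
    rw [show k + (i - k) = i by omega] at e1
    rw [e1]
    have hy := wt_pos ω k y
    have hz := wt_pos ω i z
    have g2 : nk μ s Γ.h ω Γ.p Γ.M k (i - k) y z ≤ Real.exp ((LQ (2 * P) (c / 8) (C₅ * Q) * gr (2 * P) (|G.lat (k, y) - G.ctr u κ| / wd μ s Tt + 1) + Q) *
        EE μ s Tt - c / 8 * (EE μ s Tt / wd μ s Tt) * |G.lat (i, z) - G.lat (k, y)|) := by
      refine g1.trans (Real.exp_le_exp.2 ?_)
      have e2 : hc μ s c Tt / 8 = c / 8 * (EE μ s Tt / wd μ s Tt) := by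
        unfold hc
        ring
      have e3 : ((z - y : ℤ) : ℝ) - sl μ s * ((i - k : ℕ) : ℝ) = G.lat (i, z) - G.lat (k, y) := by
        unfold Gm.lat
        rw [hv, Nat.cast_sub h2.le]
        push_cast
        ring
      rw [e2, e3]
      have g3 : |lat16 μ s o ((k : ℤ), y)| / wd μ s Tt ≤ |G.lat (k, y) - G.ctr u κ| / wd μ s Tt + 1 := by
        have g4 : |lat16 μ s o ((k : ℤ), y)| ≤ |G.lat (k, y) - G.ctr u κ| + 1 := by
          have e4 : lat16 μ s o ((k : ℤ), y) = (G.lat (k, y) - G.ctr u κ) - (((o.2 : ℝ) - G.v * (o.1 : ℝ)) - G.ctr u κ) := by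
            unfold lat16 Gm.lat
            rw [hv]
            push_cast
            ring
          rw [e4]
          exact (abs_sub _ _).trans (by linarith)
        rw [div_add' _ _ _ hw0.ne', one_mul]
        exact div_le_div_of_nonneg_right (by linarith) hw0.le
      have g5 := gr_mono (2 * P) (show 0 ≤ |lat16 μ s o ((k : ℤ), y)| / wd μ s Tt by positivity) g3
      have g6 := mul_le_mul_of_nonneg_right (add_le_add (mul_le_mul_of_nonneg_left g5 hΛ) (le_refl Q)) hE0.le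
      linarith
    calc Real.exp (((i - k : ℕ) : ℝ) * lam μ s + Γ.h * sl μ s * bl Γ.M k (i - k)) * (wt ω k y / wt ω i z) * nk μ s Γ.h ω Γ.p Γ.M k (i - k) y z
        = wt ω k y / wt ω i z * (Real.exp (((i - k : ℕ) : ℝ) * lam μ s + Γ.h * sl μ s * bl Γ.M k (i - k)) * nk μ s Γ.h ω Γ.p Γ.M k (i - k) y z) := by ring
      _ ≤ _ := mul_le_mul_of_nonneg_left (mul_le_mul_of_nonneg_left g2 (Real.exp_pos _).le) (div_pos hy hz).le
  · intro i z h1 h2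
    have h3 : b * G.w u < |G.lat (i, z) - G.ctr u κ| := not_le.1 h2
    exact lt_of_le_of_lt hbw h3
  · refine hky.trans ?_
    exact mul_le_mul_of_nonneg_left hwT ha
  · intro h2
    have hka : k ≤ G.ra u κ := by
      have : k < G.ra u κ + 1 := lt_of_lt_of_le h2 (min_le_left _ _)
      omega
    have hkr : k ≤ r m₂ := by omega
    have e1 := ker_nk (μ := μ) (s := s) (h := Γ.h) (η := ω) (p := Γ.p) (M := Γ.M) k (r m₂ - k) y z₀
    rw [show k + (r m₂ - k) = r m₂ by omega] at e1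
    rw [e1]
    have hy := wt_pos ω k y
    have hz := wt_pos ω (r m₂) z₀
    have g1 := lo hka
    calc wt ω k y / wt ω (r m₂) z₀ * (Real.exp (((r m₂ - k : ℕ) : ℝ) * lam μ s + Γ.h * sl μ s * bl Γ.M k (r m₂ - k)) *
          Real.exp (-(Q₁ * EE μ s Tt)))
        ≤ wt ω k y / wt ω (r m₂) z₀ * (Real.exp (((r m₂ - k : ℕ) : ℝ) * lam μ s + Γ.h * sl μ s * bl Γ.M k (r m₂ - k)) *
          nk μ s Γ.h ω Γ.p Γ.M k (r m₂ - k) y z₀) :=
          mul_le_mul_of_nonneg_left (mul_le_mul_of_nonneg_left g1 (Real.exp_pos _).le) (div_pos hy hz).le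
      _ = _ := by ring

/-- **STAY FROM THE SLABS.** -/
theorem st_slab78 (h0 : In μ s c C n₀) (P : ℕ) : ∃ n₁ : ℕ, 1 ≤ n₁ ∧ ∀ Q : ℝ, 0 ≤ Q → ∃ CU : ℝ, 0 < CU ∧
    ∀ {θ K : ℝ} {Γ : Cx} {G : Gm} {ω : Env} {o : Pt} {r T N : ℕ → ℕ} {q : ℕ → ℝ} {bs : ℕ → Pt} {m₁ m₂ Tt : ℕ}, m₁ ≤ m₂ → Γ.s = s →
    G.v = sl μ s → Slabs μ s c θ K Γ.h P ω o r T N q bs m₁ m₂ Tt n₁ Q →
    ∀ (u : ℕ) (κ : ℤ × ℤ) (a b b' σ Q₁ Q₂ β : ℝ) (z₀ : ℤ), |((o.2 : ℝ) - G.v * (o.1 : ℝ)) - G.ctr u κ| ≤ 1 → G.w u ≤ wd μ s Tt →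
    b' * wd μ s Tt ≤ b * G.w u → 0 ≤ a → a ≤ b' → 0 ≤ σ → σ ≤ c / 32 → (r m₁ : ℤ) ≤ G.lo u κ - (G.T (u - 2) : ℤ) → G.ra u κ < r m₂ → r m₂ ≤ Γ.N →
    |G.lat (r m₂, z₀) - G.ctr u κ| ≤ wd μ s Tt → ((r m₂ - r m₁ : ℕ) : ℝ) + 1 ≤ Real.exp (EE μ s Tt) →
    (∀ (k : ℕ) (y : ℤ), (k, y) ∈ Rg G u κ a → Real.exp (-(Q₁ * EE μ s Tt)) ≤ nk μ s Γ.h ω Γ.p Γ.M k (r m₂ - k) y z₀) →
    (∀ v : ℤ, bw (wt ω) Γ.p (r m₂) (Γ.N - r m₂) v / wt ω (r m₂) v ≤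
      Real.exp (Q₂ * EE μ s Tt + σ * (EE μ s Tt / wd μ s Tt) * |G.lat (r m₂, v) - G.lat (r m₂, z₀)|) *
        (bw (wt ω) Γ.p (r m₂) (Γ.N - r m₂) z₀ / wt ω (r m₂) z₀)) →
    β + (2 * CU + 5 / 4 * (c / 8) * a + Q₁ + Q₂ + σ + 3) ≤ c / 8 / 2 * b' →
    ω ∈ St Γ G a b (β * EE μ s Tt) u κ := by
  obtain ⟨n₁, hn₁, H⟩ := lv_slab78 h0 P
  refine ⟨n₁, hn₁, fun Q hQ => ?_⟩
  obtain ⟨CU, hCU, H'⟩ := H Q hQ
  refine ⟨CU, hCU, ?_⟩
  intro θ K Γ G ω o r T N q bs m₁ m₂ Tt hm hs hv S u κ a b b' σ Q₁ Q₂ β z₀ ho hwT hbw ha hab hσ0 hσ hlo hra hrN hz₀ hn lo D2 hβ k y hky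
  have hk1 : r m₁ ≤ k := by
    have h1 := hky.1
    have h2 : (r m₁ : ℤ) ≤ (k : ℤ) := hlo.trans h1
    exact_mod_cast h2
  exact H' hm hs hv S u κ a b b' σ Q₁ Q₂ β z₀ ho hwT hbw ha hab hσ0 hσ hra hrN hz₀ hn k y hk1 hky.2.2 (fun _ => lo k y hky) D2 hβ

/-- One slab. -/
theorem slab_one {θ K h q : ℝ} {P : ℕ} {η : Env} {o : Pt} {Tt Nn n₁ k i : ℕ} (hw : 1 ≤ wd μ s Tt) (hK : 3 ≤ K) (hq : 0 ≤ q)
    (hT : n₁ ≤ Tt) (hN : Nn ≤ Tt) (h1 : o.1 ≤ (k : ℤ)) (h2 : (i : ℤ) ≤ o.1 + Nn) (hki : k ≤ i) (hf : η ∈ Far16 μ s c θ K Tt Nn P o q)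
    (hh : |h| * wd μ s Tt ≤ c / 8 * EE μ s Tt) :
    Slabs μ s c θ K h P η o (fun u => if u = 0 then k else i) (fun _ => Tt) (fun _ => Nn) (fun _ => q) (fun _ => o) 0 1 Tt n₁
      ((1 + q) ^ 2 * gr (2 * P) 2) := by
  refine ⟨fun _ _ _ => hq, hK, hT, fun _ _ _ => hT, fun _ _ _ => le_rfl, fun _ _ _ => hN, fun u _ hu => ?_, fun u _ hu => ?_,
    fun u _ hu => ?_, fun _ _ _ => ?_, fun _ _ _ => hf, ?_, hh⟩
  · have e : u = 0 := by omega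
    subst e
    simpa using hki
  · have e : u = 0 := by omega
    subst e
    simpa using h1
  · have e : u = 0 := by omega
    subst e
    simpa using h2
  · have e : lat16 μ s o o = 0 := by
      unfold lat16
      simp
    rw [e, abs_zero]
    linarith
  · have e1 : 2 * wd μ s Tt / wd μ s Tt = 2 := by
      field_simp
    simp [e1]

/-- **STAY FROM ONE LEVEL EVENT OF THE BOX.** -/
theorem st_far78 (h0 : In μ s c C n₀) (P : ℕ) {θ K : ℝ} (hK : 8 ≤ K) (hθ : 0 < θ) : ∃ n₁ : ℕ, 1 ≤ n₁ ∧ ∀ q : ℝ, 0 ≤ q → ∃ X : ℝ, 0 < X ∧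
    ∀ {Γ : Cx} {G : Gm} {ω : Env} {o : Pt} {Tt Nn k₁ r₁ : ℕ}, Γ.s = s → G.v = sl μ s → n₁ ≤ Tt → Nn ≤ Tt → o.1 ≤ (k₁ : ℤ) →
    (r₁ : ℤ) ≤ o.1 + Nn → ω ∈ Far16 μ s c θ K Tt Nn P o q → |Γ.h| * wd μ s Tt ≤ c / 8 * EE μ s Tt →
    ∀ (u : ℕ) (κ : ℤ × ℤ) (a b b' σ Q₂ β : ℝ) (z₀ : ℤ), |((o.2 : ℝ) - G.v * (o.1 : ℝ)) - G.ctr u κ| ≤ 1 → G.w u ≤ wd μ s Tt →
    b' * wd μ s Tt ≤ b * G.w u → 0 ≤ a → 2 * a + 6 ≤ K → a ≤ b' → 0 ≤ σ → σ ≤ c / 32 → (k₁ : ℤ) ≤ G.lo u κ - (G.T (u - 2) : ℤ) → G.ra u κ < r₁ →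
    θ * Tt ≤ ((r₁ - G.ra u κ : ℕ) : ℝ) → r₁ ≤ Γ.N → |G.lat (r₁, z₀) - G.ctr u κ| ≤ wd μ s Tt →
    (∀ v : ℤ, bw (wt ω) Γ.p r₁ (Γ.N - r₁) v / wt ω r₁ v ≤
      Real.exp (Q₂ * EE μ s Tt + σ * (EE μ s Tt / wd μ s Tt) * |G.lat (r₁, v) - G.lat (r₁, z₀)|) *
        (bw (wt ω) Γ.p r₁ (Γ.N - r₁) z₀ / wt ω r₁ z₀)) →
    β + (X + 5 / 4 * (c / 8) * a + Q₂ + σ) ≤ c / 8 / 2 * b' →
    ω ∈ St Γ G a b (β * EE μ s Tt) u κ := by
  have hc0 := h0.c0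
  obtain ⟨m₀, hm₀, H⟩ := st_slab78 h0 P
  obtain ⟨C₆, hC₆, m₂, hm₂, Hlo⟩ := far_low89 h0 P (show 4 ≤ K by linarith) hθ
  obtain ⟨m₃, hm₃⟩ := eventually_atTop.1 ((wd_tendsto h0).eventually_ge_atTop 1)
  obtain ⟨m₄, hm₄, Hr⟩ := rows78 h0 1 (δ := 1) one_pos
  refine ⟨max (max m₀ m₂) (max m₃ m₄), hm₀.trans ((le_max_left _ _).trans (le_max_left _ _)), fun q hq => ?_⟩
  obtain ⟨Q, hQ⟩ : ∃ Q, Q = (1 + q) ^ 2 * gr (2 * P) 2 := ⟨_, rfl⟩
  have hQ0 : 0 ≤ Q := by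
    rw [hQ]
    have := gr_nonneg (2 * P) (show (0 : ℝ) ≤ 2 by norm_num)
    positivity
  have hgK := gr_nonneg (2 * P) (show 0 ≤ K by linarith)
  obtain ⟨CU, hCU, H1⟩ := H Q hQ0
  refine ⟨2 * CU + C₆ * Q * gr (2 * P) K + 3, by positivity, ?_⟩
  intro Γ G ω o Tt Nn k₁ r₁ hs hv hT hN ho1 ho2 hf hh u κ a b b' σ Q₂ β z₀ ho hwT hbw ha haK hab hσ0 hσ hlo hra hθr hrN hz₀ D2 hβ
  have hT1 : m₀ ≤ Tt := ((le_max_left _ _).trans (le_max_left _ _)).trans hT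
  have hT2 : m₂ ≤ Tt := ((le_max_right _ _).trans (le_max_left _ _)).trans hT
  have hT3 : m₃ ≤ Tt := ((le_max_left _ _).trans (le_max_right _ _)).trans hT
  have hT4 : m₄ ≤ Tt := ((le_max_right _ _).trans (le_max_right _ _)).trans hT
  have hw := hm₃ Tt hT3
  have hlr : ∀ k y, (k, y) ∈ Rg G u κ a → k₁ ≤ k ∧ k ≤ G.ra u κ := fun k y hk => by
    have h1 := hk.1
    have h2 : (k₁ : ℤ) ≤ (k : ℤ) := hlo.trans h1
    exact ⟨by exact_mod_cast h2, hk.2.1⟩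
  by_cases hkr : k₁ ≤ r₁
  swap
  · intro k y hk
    have := hlr k y hk
    omega
  have S := slab_one (μ := μ) (s := s) (c := c) (θ := θ) (K := K) (h := Γ.h) (q := q) (P := P) (η := ω) (o := o) (n₁ := m₀) hw (by linarith)
    hq hT1 hN ho1 ho2 hkr hf hh
  rw [← hQ] at S
  have key := H1 (Γ := Γ) (G := G) (r := fun u => if u = 0 then k₁ else r₁) (zero_le_one) hs hv S u κ a b b' σ (C₆ * Q * gr (2 * P) K) Q₂ β z₀
    ho hwT hbw ha hab hσ0 hσ hlo hra hrN hz₀ ?_ ?_ D2 ?_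
  · exact key
  · have h1 : r₁ - k₁ ≤ Tt ^ 1 := by
      rw [pow_one]
      omega
    have h2 := Hr Tt hT4 (r₁ - k₁) h1
    rw [one_mul] at h2
    exact h2
  · intro k y hk
    obtain ⟨h1, h2⟩ := hlr k y hk
    have S2 := slab_one (μ := μ) (s := s) (c := c) (θ := θ) (K := K) (h := Γ.h) (q := q) (P := P) (η := ω) (o := o) (n₁ := m₂) (k := k) (i := r₁)
      hw (by linarith) hq hT2 hN (by omega) ho2 (by omega) hf hh
    rw [← hQ] at S2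
    have hp : ∀ k, k < Γ.M → Γ.p k = Real.exp (s + Γ.h) := fun k hk => by
      unfold Cx.p
      rw [if_pos hk, hs]
    have hp' : ∀ k, Γ.M ≤ k → Γ.p k = Real.exp s := fun k hk => by
      unfold Cx.p
      rw [if_neg (not_lt.2 hk), hs]
    have hlt : ∀ (m : ℕ) (v : ℤ), |lat16 μ s o ((m : ℤ), v)| ≤ |G.lat (m, v) - G.ctr u κ| + 1 := fun m v => by
      have e4 : lat16 μ s o ((m : ℤ), v) = (G.lat (m, v) - G.ctr u κ) - (((o.2 : ℝ) - G.v * (o.1 : ℝ)) - G.ctr u κ) := by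
        unfold lat16 Gm.lat
        rw [hv]
        push_cast
        ring
      rw [e4]
      exact (abs_sub _ _).trans (by linarith)
    have g := Hlo (p := Γ.p) (M := Γ.M) (κ := o) (by norm_num) hp hp' S2 ?_ 0 y z₀ ?_ ?_
    · have e1 : |(0 : ℝ)| / wd μ s Tt + K = K := by rw [abs_zero, zero_div, zero_add]
      rw [e1] at g
      exact g
    · intro v _ hv1
      have e : v = 0 := by omega
      subst e
      show θ * (Tt : ℝ) ≤ ((r₁ - k : ℕ) : ℝ)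
      refine hθr.trans ?_
      exact_mod_cast (by omega : r₁ - G.ra u κ ≤ r₁ - k)
    · show |lat16 μ s o ((k : ℤ), y) - 0| ≤ (K - 2) / 2 * wd μ s Tt - 1
      rw [sub_zero]
      have h5 := hlt k y
      have h6 := hk.2.2
      have h7 := mul_le_mul_of_nonneg_left hwT ha
      have h8 : (a + 2) * wd μ s Tt ≤ (K - 2) / 2 * wd μ s Tt := mul_le_mul_of_nonneg_right (by linarith) (by linarith)
      linarith
    · show |lat16 μ s o ((r₁ : ℤ), z₀) - 0| ≤ (K - 2) / 2 * wd μ s Tt - 1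
      rw [sub_zero]
      have h5 := hlt r₁ z₀
      have h8 : 3 * wd μ s Tt ≤ (K - 2) / 2 * wd μ s Tt := mul_le_mul_of_nonneg_right (by linarith) (by linarith)
      linarith
  · linarith

end

end Pool.Agent.W_7d29a1_C1.Sy78
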