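import Pool.Agent.W_7d29a1_C1.StN78
import Pool.Agent.W_7d29a1_C1.StayF78
import Pool.Agent.W_7d29a1_C1.TamK16
import Pool.Agent.W_7d29a1_C1.UniA16
import Pool.Agent.W_7d29a1_C1.DDJ84
import Pool.Agent.W_7d29a1_C1.ChnS99

/-!
MP_7d29a1_pr, [C1] attractor route, TAME: THE CLAUSE `St` OF THE TYPICAL EVENTS (helper78)

Two inputs per own slab `(u, κ)`, `κ = loc u ρ`, in the unit `Tt = Tt u` (the height of the label `u`), at the row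
`rt78 G u κ = (rcc u κ).toNat + T u` of the cut `ct u ρ`:
* `SlT78 .. a Tt n₁ Q Q₁ u κ` : every start of the box `Rg G u κ a` is joined to this row by a chain of slabs of cost `Q`, and reaches the
  place of the centre with the exponent `Q₁`;
* `DT78 .. Tt Q₂ σ u κ` : (D2) of `bh16` at this row, references within 1 of the centre, slope `σ`.
**`st_of78`** : both together ==> `St Γ G a b β u κ` for `b` large; **`st_own78`** : with the numbers; **`stC78`** : the same for the clauses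
`ClS86`.
-/

set_option autoImplicit false

namespace Pool.Agent.W_7d29a1_C1.Sy78

open MeasureTheory ProbabilityTheory Filter Topology Finset
open Pool.Agent.W_7d29a1_F hiding Bw G
open Pool.Agent.W_7d29a1_h4g Pool.Agent.W_7d29a1_HS
open Pool.Agent.W_7d29a1_H hiding ex gg
open Pool.Agent.W_7d29a1_C1.K91 (wt wt_pos measurable_wt)
open Pool.Agent.W_7d29a1_C1.K91P
open Pool.Agent.W_7d29a1_C1.H60
open Pool.Agent.W_7d29a1_C1.H40 (ODW Cut Tk)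
open Pool.Agent.W_7d29a1_C1.G37 (Gm)
open Pool.Agent.W_7d29a1_C1.U16 (lat16 Far16 bh16)
open Pool.Agent.W_7d29a1_C1.FarW89 (nk Slabs)
open Pool.Agent.W_7d29a1_C1.SF98
open Pool.Agent.W_7d29a1_C1.PW86
open Pool.Agent.W_7d29a1_C1.S71
open Pool.Agent.W_7d29a1_C1.Dep6

noncomputable section

variable {μ : Measure ℝ} {s : ℝ} [IsProbabilityMeasure μ] {c C : ℝ} {n₀ : ℕ}

/-- The row of the cut `ct u ρ`. -/
def rt78 (G : Gm) (u : ℕ) (κ : ℤ × ℤ) : ℕ := (G.rcc u κ).toNat + G.T u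

/-- **THE CHAINS OF SLABS OF THE STARTS** of the box of `(u, κ)`. -/
def SlT78 (μ : Measure ℝ) [IsProbabilityMeasure μ] (s c θ K : ℝ) (P : ℕ) (Γ : Cx) (G : Gm) (a : ℝ) (Tt n₁ : ℕ) (Q Q₁ : ℝ) (u : ℕ) (κ : ℤ × ℤ) : Set Env :=
  {η | ∀ (k : ℕ) (y : ℤ), (k, y) ∈ Rg G u κ a → ∃ (o : Pt) (r T N : ℕ → ℕ) (q : ℕ → ℝ) (bs : ℕ → Pt) (m₁ m₂ : ℕ),
    m₁ ≤ m₂ ∧ r m₁ = k ∧ r m₂ = rt78 G u κ ∧ |((o.2 : ℝ) - G.v * (o.1 : ℝ)) - G.ctr u κ| ≤ 1 ∧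
    Slabs μ s c θ K Γ.h P η o r T N q bs m₁ m₂ Tt n₁ Q ∧
    ∀ z₀ : ℤ, |G.lat (rt78 G u κ, z₀) - G.ctr u κ| ≤ 1 →
      Real.exp (-(Q₁ * EE μ s Tt)) ≤ nk μ s Γ.h η Γ.p Γ.M k (rt78 G u κ - k) y z₀}

/-- **(D2) AT THE ROW OF THE CUT `ct u ρ`.** -/
def DT78 (μ : Measure ℝ) (s : ℝ) (Γ : Cx) (G : Gm) (Tt : ℕ) (Q₂ σ : ℝ) (u : ℕ) (κ : ℤ × ℤ) : Set Env :=
  {η | ∀ v z₀ : ℤ, |G.lat (rt78 G u κ, z₀) - G.ctr u κ| ≤ 1 →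
    bh16 μ s Γ.h η Γ.p Γ.M Γ.N (rt78 G u κ) v ≤
      Real.exp ((Q₂ + σ * |G.lat (rt78 G u κ, v) - G.ctr u κ| / wd μ s Tt) * EE μ s Tt) * bh16 μ s Γ.h η Γ.p Γ.M Γ.N (rt78 G u κ) z₀}

variable {Γ : Cx} {G : Gm}

omit [IsProbabilityMeasure μ] in
/-- From `bh16` to the masses. -/
theorem bw_of_bh78 {h : ℝ} {η : Env} {p : ℕ → ℝ} {M N a : ℕ} {x x' : ℤ} {D : ℝ} (h1 : bh16 μ s h η p M N a x ≤ D * bh16 μ s h η p M N a x') :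
    bw (wt η) p a (N - a) x / wt η a x ≤ D * (bw (wt η) p a (N - a) x' / wt η a x') := by
  unfold bh16 at h1
  have he : 0 < Real.exp (-(((N - a : ℕ) : ℝ) * lam μ s + h * sl μ s * Pool.Agent.W_7d29a1_C1.FarW89.bl M a (N - a))) := Real.exp_pos _
  refine le_of_mul_le_mul_left ?_ he
  refine h1.trans (le_of_eq ?_)
  ring

theorem ra_lt_rt78 {u : ℕ} (hu : 1 ≤ u) (κ : ℤ × ℤ) : G.ra u κ < rt78 G u κ := by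
  have h1 := G.T_succ (u - 1)
  rw [show u - 1 + 1 = u by omega] at h1
  have h2 := G.T_pos (u - 1)
  unfold rt78 Pool.Agent.W_7d29a1_C1.G37.Gm.ra
  omega

/-- **ONE OWN SLAB.** -/
theorem st_of78 (h0 : In μ s c C n₀) (P : ℕ) : ∃ n₁ : ℕ, 1 ≤ n₁ ∧ ∀ Q : ℝ, 0 ≤ Q → ∃ CU : ℝ, 0 < CU ∧
    ∀ {θ K : ℝ} {Γ : Cx} {G : Gm} {u Tt : ℕ} {κ : ℤ × ℤ} {a b b' σ Q₁ Q₂ β β' : ℝ}, Γ.s = s → G.v = sl μ s → 1 ≤ u →
      n₁ ≤ Tt → G.w u ≤ wd μ s Tt → b' * wd μ s Tt ≤ b * G.w u → 0 ≤ a → a ≤ b' → 0 ≤ σ → σ ≤ c / 32 → rt78 G u κ ≤ Γ.N →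
      (Γ.N : ℝ) + 1 ≤ Real.exp (EE μ s Tt) → β + (2 * CU + 5 / 4 * (c / 8) * a + Q₁ + (Q₂ + σ) + σ + 3) ≤ c / 8 / 2 * b' →
      β' ≤ β * EE μ s Tt →
      SlT78 μ s c θ K P Γ G a Tt n₁ Q Q₁ u κ ∩ DT78 μ s Γ G Tt Q₂ σ u κ ⊆ St Γ G a b β' u κ := by
  obtain ⟨n₁, hn₁, H⟩ := lv_slab78 h0 P
  obtain ⟨n₂, hn₂⟩ := eventually_atTop.1 ((wd_tendsto h0).eventually_ge_atTop 1)
  refine ⟨max n₁ n₂, hn₁.trans (le_max_left _ _), fun Q hQ => ?_⟩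
  obtain ⟨CU, hCU, H⟩ := H Q hQ
  refine ⟨CU, hCU, ?_⟩
  rintro θ K Γ G u Tt κ a b b' σ Q₁ Q₂ β β' hs hv hu hTt hwT hbw ha hab hσ0 hσ hrN hN hβ hβ' ω ⟨hS, hD⟩ k y hky
  obtain ⟨o, r, T, N, q, bs, m₁, m₂, hm, hr1, hr2, ho, S, lo⟩ := hS k y hky
  have hw1 : 1 ≤ wd μ s Tt := hn₂ Tt ((le_max_right _ _).trans hTt)
  have hw0 : 0 < wd μ s Tt := by linarith
  have hE0 := EE_pos (μ := μ) (s := s) Tt
  obtain ⟨z₀, hz₀⟩ : ∃ z₀ : ℤ, |G.lat (rt78 G u κ, z₀) - G.ctr u κ| ≤ 1 := by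
    refine ⟨⌊G.ctr u κ + G.v * (rt78 G u κ : ℝ)⌋, ?_⟩
    have f1 := Int.floor_le (G.ctr u κ + G.v * (rt78 G u κ : ℝ))
    have f2 := Int.lt_floor_add_one (G.ctr u κ + G.v * (rt78 G u κ : ℝ))
    show |((⌊G.ctr u κ + G.v * (rt78 G u κ : ℝ)⌋ : ℝ) - G.v * (rt78 G u κ : ℝ)) - G.ctr u κ| ≤ 1
    rw [abs_le]
    constructor <;> linarith
  have S' : Slabs μ s c θ K Γ.h P ω o r T N q bs m₁ m₂ Tt n₁ Q :=
    { S with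
      Tt1 := (le_max_left _ _).trans S.Tt1
      T1 := fun u hu hub => (le_max_left _ _).trans (S.T1 u hu hub) }
  have hkr : k ≤ rt78 G u κ := hky.2.1.trans (ra_lt_rt78 hu κ).le
  have key := H hm hs hv S' u κ a b b' σ Q₁ (Q₂ + σ) β z₀ ho hwT hbw ha hab hσ0 hσ (by rw [hr2]; exact ra_lt_rt78 hu κ)
    (by rw [hr2]; exact hrN) (by rw [hr2]; linarith) ?_ k y hr1.le hky.2.2 (fun _ => ?_) (fun v => ?_) hβ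
  · refine key.trans (mul_le_mul_of_nonneg_right (Real.exp_le_exp.2 (by linarith)) (bw_pos (wt_pos ω) Γ.p_pos _ _ _).le)
  · refine le_trans ?_ hN
    have : ((r m₂ - r m₁ : ℕ) : ℝ) ≤ (Γ.N : ℝ) := by
      exact_mod_cast (Nat.sub_le _ _).trans (by rw [hr2]; exact hrN)
    linarith
  · have := lo z₀ hz₀
    rw [hr2]
    exact this
  · rw [hr2]
    have h1 := bw_of_bh78 (hD v z₀ hz₀)
    refine h1.trans (mul_le_mul_of_nonneg_right (Real.exp_le_exp.2 ?_) ?_)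
    · have h2 : |G.lat (rt78 G u κ, v) - G.ctr u κ| ≤ |G.lat (rt78 G u κ, v) - G.lat (rt78 G u κ, z₀)| + 1 := by
        have e1 : G.lat (rt78 G u κ, v) - G.ctr u κ = (G.lat (rt78 G u κ, v) - G.lat (rt78 G u κ, z₀)) + (G.lat (rt78 G u κ, z₀) - G.ctr u κ) := by
          ring
        rw [e1]
        exact (abs_add_le _ _).trans (by linarith)
      have h3 : σ * |G.lat (rt78 G u κ, v) - G.ctr u κ| / wd μ s Tt ≤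
          σ / wd μ s Tt * |G.lat (rt78 G u κ, v) - G.lat (rt78 G u κ, z₀)| + σ := by
        rw [div_mul_eq_mul_div, div_add' _ _ _ hw0.ne']
        refine div_le_div_of_nonneg_right ?_ hw0.le
        have g1 := mul_le_mul_of_nonneg_left h2 hσ0
        have g2 := mul_le_mul_of_nonneg_left hw1 hσ0
        linarith
      have h4 := mul_le_mul_of_nonneg_right h3 hE0.le
      have e2 : σ * (EE μ s Tt / wd μ s Tt) * |G.lat (rt78 G u κ, v) - G.lat (rt78 G u κ, z₀)| =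
          σ / wd μ s Tt * |G.lat (rt78 G u κ, v) - G.lat (rt78 G u κ, z₀)| * EE μ s Tt := by ring
      rw [e2]
      linarith
    · exact (div_pos (bw_pos (wt_pos ω) Γ.p_pos _ _ _) (wt_pos _ _ _)).le

/-- **ONE OWN SLAB, the numbers inserted** (`G.w u = wd (T u)`, heights `8 K² T u`). -/
theorem st_own78 (h0 : In μ s c C n₀) : ∃ K₀ : ℕ, ∀ P : ℕ, ∃ n₁ : ℕ, 1 ≤ n₁ ∧ ∀ Q : ℝ, 0 ≤ Q → ∃ CU : ℝ, 0 < CU ∧
    ∀ {θ Kf : ℝ} {Γ : Cx} {G : Gm} {mt : ℕ} {a b σ Q₁ Q₂ βc : ℝ}, 0 ≤ a → 0 ≤ σ → σ ≤ c / 32 → 0 ≤ βc → 0 ≤ Q₁ → 0 ≤ Q₂ →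
      16 * (G.K : ℝ) ^ 2 * (a + 16 / c * (βc + 1 / 16 + (2 * CU + 5 / 4 * (c / 8) * a + Q₁ + (Q₂ + σ) + σ + 3))) ≤ b →
      Γ.s = s → G.v = sl μ s → (∀ u, G.w u = wd μ s (G.T u)) → K₀ ≤ 8 * G.K ^ 2 → n₁ ≤ G.T0 →
      (Γ.N : ℝ) + 1 ≤ Real.exp (EE μ s G.T0) → ∀ (ρ : XS Γ G mt) (u : ℕ), 1 ≤ u → u ≤ mt →
      SlT78 μ s c θ Kf P Γ G a (8 * G.K ^ 2 * G.T u) n₁ Q Q₁ u (G.loc u ρ.1) ∩ DT78 μ s Γ G (8 * G.K ^ 2 * G.T u) Q₂ σ u (G.loc u ρ.1) ⊆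
        St Γ G a b ((βc + 1 / 16) * EE μ s (G.T u)) u (G.loc u ρ.1) := by
  obtain ⟨K₀, n₂, -, hn₂, hsc⟩ := Pool.Agent.W_7d29a1_C1.DD84.scale_num h0
  refine ⟨K₀, fun P => ?_⟩
  obtain ⟨n₁, hn₁, H⟩ := st_of78 h0 P
  refine ⟨max n₁ n₂, hn₁.trans (le_max_left _ _), fun Q hQ => ?_⟩
  obtain ⟨CU, hCU, H⟩ := H Q hQ
  refine ⟨CU, hCU, ?_⟩
  intro θ Kf Γ G mt a b σ Q₁ Q₂ βc ha hσ0 hσ hβ hQ₁ hQ₂ hb hs hv hw hK hT0 hN ρ u hu hum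
  have hc0 := h0.c0
  rintro η ⟨hS, hD⟩
  have hT0u : G.T0 ≤ G.T u := by
    have h1 := G.T_mono (Nat.zero_le u)
    have h2 : G.T 0 = G.T0 := by
      unfold Gm.T Tk
      simp
    omega
  have hK8 := G.hK
  have hTt : G.T u ≤ 8 * G.K ^ 2 * G.T u := Nat.le_mul_of_pos_left _ (by positivity)
  have hTu : n₁ ≤ 8 * G.K ^ 2 * G.T u := (le_max_left _ _).trans (hT0.trans (hT0u.trans hTt))
  have hTu2 : n₂ ≤ G.T u := (le_max_right _ _).trans (hT0.trans hT0u)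
  have hT1 := G.T_pos u
  have h1 := (hsc (G.T u) (8 * G.K ^ 2 * G.T u) hTu2 (Nat.mul_le_mul_right _ hK)).1
  have h2 := Pool.Agent.W_7d29a1_C1.U16.wd_le h0 hT1 hTt
  have hTR : (0 : ℝ) < G.T u := by exact_mod_cast hT1
  have e1 : 2 * (((8 * G.K ^ 2 * G.T u : ℕ) : ℝ) / (G.T u : ℝ)) * wd μ s (G.T u) = 16 * (G.K : ℝ) ^ 2 * wd μ s (G.T u) := by
    push_cast
    field_simp
    ring
  rw [e1] at h2
  have hwu := G.w_pos u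
  rw [hw u] at hwu
  obtain ⟨x, hx⟩ : ∃ x : ℝ, x = βc + 1 / 16 + (2 * CU + 5 / 4 * (c / 8) * a + Q₁ + (Q₂ + σ) + σ + 3) := ⟨_, rfl⟩
  have hx0 : 0 ≤ x := by rw [hx]; positivity
  rw [← hx] at hb
  have hcx : 0 ≤ 16 / c * x := by positivity
  have hrow := row_up ρ
  have hr1 : (G.rcc u (G.loc u ρ.1) : ℤ) ≤ (ρ.1.1 : ℤ) + G.T (u - 2) := by
    have g1 := G.lo_le u ρ.1
    have g2 := G.rcc_eq u (G.loc u ρ.1)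
    omega
  have hr2 := G.T_mono (show u - 2 ≤ mt by omega)
  have hr3 := G.T_mono hum
  refine H (θ := θ) (K := Kf) (Q₁ := Q₁) (β := βc + 1 / 16) (b' := a + 16 / c * x) hs hv hu hTu ?_ ?_ ha (by linarith) hσ0 hσ ?_ ?_ ?_ ?_
    ⟨?_, hD⟩
  · rw [hw u]
    exact h1
  · rw [hw u]
    have g1 := mul_le_mul_of_nonneg_left h2 (show 0 ≤ a + 16 / c * x by positivity)
    have g2 := mul_le_mul_of_nonneg_right hb hwu.le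
    calc (a + 16 / c * x) * wd μ s (8 * G.K ^ 2 * G.T u) ≤ (a + 16 / c * x) * (16 * (G.K : ℝ) ^ 2 * wd μ s (G.T u)) := g1
      _ = 16 * (G.K : ℝ) ^ 2 * (a + 16 / c * x) * wd μ s (G.T u) := by ring
      _ ≤ _ := g2
  · unfold rt78
    omega
  · exact hN.trans (Real.exp_le_exp.2 (EE_mono (hT0u.trans hTt)))
  · have e3 : c / 8 / 2 * (16 / c * x) = x := by field_simp; ring
    have e4 : 0 ≤ c / 8 / 2 * a := by positivity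
    rw [mul_add, e3, hx]
    rw [hx] at hx0
    linarith
  · exact mul_le_mul_of_nonneg_left (EE_mono hTt) (by linarith)
  · intro k y hky
    obtain ⟨o, r, T, N, q, bs, m₁, m₂, g1, g2, g3, g4, S, g5⟩ := hS k y hky
    exact ⟨o, r, T, N, q, bs, m₁, m₂, g1, g2, g3, g4,
      { S with
        Tt1 := (le_max_left _ _).trans S.Tt1
        T1 := fun u hu hub => (le_max_left _ _).trans (S.T1 u hu hub) }, g5⟩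

/-- **THE CLAUSE `St`.** -/
theorem stC78 (h0 : In μ s c C n₀) : ∃ K₀ : ℕ, ∀ P : ℕ, ∃ n₁ : ℕ, 1 ≤ n₁ ∧ ∀ Q : ℝ, 0 ≤ Q → ∃ CU : ℝ, 0 < CU ∧
    ∀ {θ Kf : ℝ} {Γ : Cx} {G : Gm} {mt : ℕ} {a b σ Q₁ Q₂ βc : ℝ}, 0 ≤ a → 0 ≤ σ → σ ≤ c / 32 → 0 ≤ βc → 0 ≤ Q₁ → 0 ≤ Q₂ →
      16 * (G.K : ℝ) ^ 2 * (a + 16 / c * (βc + 1 / 16 + (2 * CU + 5 / 4 * (c / 8) * a + Q₁ + (Q₂ + σ) + σ + 3))) ≤ b →
      Γ.s = s → G.v = sl μ s → (∀ u, G.w u = wd μ s (G.T u)) → K₀ ≤ 8 * G.K ^ 2 → n₁ ≤ G.T0 → G.M ≤ mt →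
      (Γ.N : ℝ) + 1 ≤ Real.exp (EE μ s G.T0) →
      ∀ {Fs : Finset (ℕ → ℕ)} {Sw : Finset ℤ} {E0 : ℕ} {dL : Cut (ℤ × ℤ) → Cut (ℤ × ℤ) → Env → ℕ}
        {dN : Cut (ℤ × ℤ) → Cut (ℤ × ℤ) → Cut (ℤ × ℤ) → Env → ℕ} {scL : Cut (ℤ × ℤ) → Cut (ℤ × ℤ) → ℕ}
        {scN : Cut (ℤ × ℤ) → Cut (ℤ × ℤ) → Cut (ℤ × ℤ) → ℕ} {C0 : ℝ} {C2 D τ : ℕ} {bS bD : Set Env}, 1 ≤ τ →
      ClS86 Γ G mt Fs Sw E0 dL dN scL scN C0 C2 D τ bS (fun u κ => SlT78 μ s c θ Kf P Γ G a (8 * G.K ^ 2 * G.T u) n₁ Q Q₁ u κ) →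
      ClS86 Γ G mt Fs Sw E0 dL dN scL scN C0 C2 D τ bD (fun u κ => DT78 μ s Γ G (8 * G.K ^ 2 * G.T u) Q₂ σ u κ) →
      ClS86 Γ G mt Fs Sw E0 dL dN scL scN C0 C2 D τ (bS ∪ bD) (fun u κ => St Γ G a b ((βc + 1 / 16) * EE μ s (G.T u)) u κ) := by
  obtain ⟨K₀, H⟩ := st_own78 h0
  refine ⟨K₀, fun P => ?_⟩
  obtain ⟨n₁, hn₁, H⟩ := H P
  refine ⟨n₁, hn₁, fun Q hQ => ?_⟩
  obtain ⟨CU, hCU, H⟩ := H Q hQ
  refine ⟨CU, hCU, ?_⟩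
  intro θ Kf Γ G mt a b σ Q₁ Q₂ βc ha hσ0 hσ hβ hQ₁ hQ₂ hb hs hv hw hK hT0 hMm hN Fs Sw E0 dL dN scL scN C0 C2 D τ bS bD hτ cS cD
  exact fun η hη ρ u Z a1 a2 a3 a4 a5 =>
    H (mt := mt) ha hσ0 hσ hβ hQ₁ hQ₂ hb hs hv hw hK hT0 hN ρ u (hτ.trans a1) (by omega) ((cS.inter cD) η hη ρ u Z a1 a2 a3 a4 a5)

end

end Pool.Agent.W_7d29a1_C1.Sy78
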