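import Pool.Agent.W_7d29a1_C1.PrQ99
import Pool.Agent.W_7d29a1_C1.StT78

/-!
MP_7d29a1_pr, [C1] attractor route, TAME: THE CLAUSE `DT78` FROM THE LEAF D2. (helper85)

* `dt_of_D2f85` : D2 at the own cut `ct u ρ` in the unit of the label `u + 1`, references near the line of `ρ`, gives (D2) of helper78 at the row
  `rt78`, in the unit `8 K ^ 2 T u`, references near the centre of the cell;
* **`dtQ85`** : the clause, cut at `u + G.M / ke ≤ G.M`, in the form of `clQ_of_U40`.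
-/

set_option autoImplicit false

namespace Pool.Agent.W_7d29a1_C1.DtQ85

open MeasureTheory Filter Finset
open Pool.Agent.W_7d29a1_F Pool.Agent.W_7d29a1_h4g Pool.Agent.W_7d29a1_H Pool.Agent.W_7d29a1_HS
open Pool.Agent.W_7d29a1_C1.H75 Pool.Agent.W_7d29a1_C1.U16
open Pool.Agent.W_7d29a1_C1.H60
open Pool.Agent.W_7d29a1_C1.H40
open Pool.Agent.W_7d29a1_C1.G37 (Gm Wok gmW)
open Pool.Agent.W_7d29a1_C1.SF98
open Pool.Agent.W_7d29a1_C1.N49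
open Pool.Agent.W_7d29a1_C1.PW86
open Pool.Agent.W_7d29a1_C1.Dep6
open Pool.Agent.W_7d29a1_C1.Q49
open Pool.Agent.W_7d29a1_C1.Hp2
open Pool.Agent.W_7d29a1_C1.Hp39
open Pool.Agent.W_7d29a1_C1.PrC99
open Pool.Agent.W_7d29a1_C1.PrQ99
open Pool.Agent.W_7d29a1_C1.Sy78 (rt78 DT78)
open scoped ENNReal

noncomputable section

variable {μ : Measure ℝ} [IsProbabilityMeasure μ] {s c C : ℝ} {n₀ : ℕ} {Γ : Cx} {G : Gm} {mt : ℕ}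

/-- The row of the own cut `ct u ρ`. -/
theorem rw_rt85 (ρ : XS Γ G mt) (u : ℕ) : rw99 Γ G mt ρ u = rt78 G u (G.loc u ρ.1) := by
  have h1 : ((gj Γ G mt).ct u ρ).row = G.rcc u (G.loc u ρ.1) + G.T u := rfl
  have h0 : 0 < G.rcc u (G.loc u ρ.1) := G.rcc_pos u ρ.1
  unfold rw99 rt78
  rw [h1]
  omega

/-- **(D2) of helper78 FROM D2 AT THE OWN CUT.** -/
theorem dt_of_D2f85 (h0 : In μ s c C n₀) {θ Q σ : ℝ} {n₁ u : ℕ} {ρ : XS Γ G mt} {η : Env} (hg : Ng99 μ s c θ Γ G mt (8 * G.K ^ 2) n₁)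
    (hQ : 0 ≤ Q) (hσ : 0 ≤ σ) (h : D2f99 μ s Γ G mt (8 * G.K ^ 2) ρ u (u + 1) Q σ η) :
    η ∈ DT78 μ s Γ G (8 * G.K ^ 2 * G.T u) (G.K * Q + σ) σ u (G.loc u ρ.1) := by
  intro y z₀ hz₀
  rw [← rw_rt85] at hz₀ ⊢
  obtain ⟨r, hr⟩ : ∃ r, r = rw99 Γ G mt ρ u := ⟨_, rfl⟩
  rw [← hr] at hz₀ ⊢
  -- the lateral positions
  have hlat : ∀ z : ℤ, lat16 μ s (pt99 Γ G mt ρ) ((r : ℤ), z) = G.lat (r, z) - G.lat ρ.1 := fun z => by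
    unfold lat16 pt99 Gm.lat
    simp only
    rw [hg.hv]
    push_cast
    ring
  have hctr := G.lat_ctr_le u ρ.1
  have habs : ∀ z : ℤ, |lat16 μ s (pt99 Γ G mt ρ) ((r : ℤ), z)| ≤ |G.lat (r, z) - G.ctr u (G.loc u ρ.1)| + G.w u := fun z => by
    rw [hlat]
    have h1 := abs_add_le (G.lat (r, z) - G.ctr u (G.loc u ρ.1)) (G.ctr u (G.loc u ρ.1) - G.lat ρ.1)
    rw [sub_add_sub_cancel] at h1
    linarith
  have href : |lat16 μ s (pt99 Γ G mt ρ) ((rw99 Γ G mt ρ u : ℤ), z₀)| ≤ wd μ s (8 * G.K ^ 2 * G.T (u + 1)) := by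
    rw [← hr]
    have h1 := w_step99 hg u
    have h2 := habs z₀
    linarith
  have key := h y z₀ href
  rw [← hr] at key
  have hpp : ∀ k, 0 < Γ.p k := Γ.p_pos
  refine key.trans (mul_le_mul_of_nonneg_right (Real.exp_le_exp.2 ?_) (bh16_pos hpp _ _).le)
  -- the numbers
  have hw1 := hg.w1 u
  have hwH := hg.wH u
  have hw : 0 < wd μ s (8 * G.K ^ 2 * G.T u) := by linarith
  have hw' : 0 < wd μ s (8 * G.K ^ 2 * G.T (u + 1)) := by have := (hg.w1 (u + 1)).trans (hg.wH (u + 1)); linarith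
  have h1 : EE μ s (8 * G.K ^ 2 * G.T (u + 1)) ≤ (G.K : ℝ) * EE μ s (8 * G.K ^ 2 * G.T u) :=
    EE_le_mul h0.em s (by have := hg.K16; omega) (by rw [T_succ99]; exact le_of_eq (by ring))
  have h2 : EE μ s (8 * G.K ^ 2 * G.T (u + 1)) / wd μ s (8 * G.K ^ 2 * G.T (u + 1)) ≤
      EE μ s (8 * G.K ^ 2 * G.T u) / wd μ s (8 * G.K ^ 2 * G.T u) := by
    rw [div_le_div_iff₀ hw' hw]
    exact hg.ew u
  have hE := EE_pos (μ := μ) (s := s) (8 * G.K ^ 2 * G.T u)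
  obtain ⟨E, eE⟩ : ∃ E : ℝ, E = EE μ s (8 * G.K ^ 2 * G.T u) := ⟨_, rfl⟩
  obtain ⟨E', eE'⟩ : ∃ E' : ℝ, E' = EE μ s (8 * G.K ^ 2 * G.T (u + 1)) := ⟨_, rfl⟩
  obtain ⟨W, eW⟩ : ∃ W : ℝ, W = wd μ s (8 * G.K ^ 2 * G.T u) := ⟨_, rfl⟩
  obtain ⟨W', eW'⟩ : ∃ W' : ℝ, W' = wd μ s (8 * G.K ^ 2 * G.T (u + 1)) := ⟨_, rfl⟩
  obtain ⟨X, eX⟩ : ∃ X : ℝ, X = |G.lat (r, y) - G.ctr u (G.loc u ρ.1)| := ⟨_, rfl⟩
  obtain ⟨Y, eY⟩ : ∃ Y : ℝ, Y = |lat16 μ s (pt99 Γ G mt ρ) ((r : ℤ), y)| := ⟨_, rfl⟩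
  have hY := habs y
  rw [← eX, ← eY] at hY
  rw [← eE, ← eE'] at h1
  rw [← eE, ← eE', ← eW, ← eW'] at h2
  rw [← eW] at hw hwH
  rw [← eW'] at hw'
  rw [← eE] at hE
  rw [← eE, ← eE', ← eW, ← eW', ← eX, ← eY]
  have hX0 : 0 ≤ X := by rw [eX]; exact abs_nonneg _
  have hY0 : 0 ≤ Y := by rw [eY]; exact abs_nonneg _
  have h3 := mul_le_mul_of_nonneg_left h1 hQ
  have h4 : σ * Y * (E' / W') ≤ σ * (X + G.w u) * (E / W) := by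
    have g1 := mul_le_mul_of_nonneg_left h2 (mul_nonneg hσ hY0)
    have g2 : σ * Y ≤ σ * (X + G.w u) := mul_le_mul_of_nonneg_left hY hσ
    have g3 : 0 ≤ E / W := by positivity
    exact g1.trans (mul_le_mul_of_nonneg_right g2 g3)
  have h5 : G.w u * (E / W) ≤ E := by
    rw [mul_div_assoc', div_le_iff₀ hw, mul_comm E W]
    exact mul_le_mul_of_nonneg_right hwH hE.le
  have h6 := mul_le_mul_of_nonneg_left h5 hσ
  have e1 : (Q + σ * (Y / W')) * E' = Q * E' + σ * Y * (E' / W') := by ring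
  have e2 : (G.K * Q + σ + σ * X / W) * E = Q * (G.K * E) + σ * X * (E / W) + σ * E := by ring
  rw [e1, e2]
  have e3 : σ * (X + G.w u) * (E / W) = σ * X * (E / W) + σ * (G.w u * (E / W)) := by ring
  linarith

variable {P : Pre} {Dd : Dat} {t : Tm} {k ke D J : ℕ} {Fs : Gm → Finset (ℕ → ℕ)} {Q0 g σ θ : ℝ} {n₁ : ℕ}

/-- **THE CLAUSE `DT78`** from the leaf D2, in the form of `clQ_of_U40`, `Q₂ = Dd.K * Q0 + σ`. -/
theorem dtQ85 (h0 : In μ s c C n₀) (hQ : 0 ≤ Q0) (hσ : 0 ≤ σ)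
    (hNg : Evn P Dd μ s fun _ _ _ _ _ Γ G mt _ _ => Ng99 μ s c θ Γ G mt (8 * G.K ^ 2) n₁) (h : D2Q99 P Dd μ s t k ke D Fs J Q0 g σ) :
    ∃ C2₀ B : ℕ, ∀ C2 : ℕ, C2₀ ≤ C2 → Evn P Dd μ s fun _ _ _ _ n Γ G mt τ0 _ => 1 ≤ τ0 → ∃ bad : Set Env,
      law μ bad ≤ (B : ℝ≥0∞) * ENNReal.ofReal ((n : ℝ) ^ (-(5 : ℝ))) ∧
      ClU40 Γ G mt (Fs G) {(Γ.M : ℤ)} (G.M / k) t (C0P P) C2 D τ0 bad
        (cut86 G (G.M / ke) fun u κ => DT78 μ s Γ G (8 * G.K ^ 2 * G.T u) (Dd.K * Q0 + σ) σ u κ) := by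
  obtain ⟨C2₀, B, h⟩ := h
  refine ⟨C2₀, B, fun C2 hC2 => (((h C2 hC2).and hNg).and evn_geo).mono fun q η A lam n Γ G mt τ0 E h hτ => ?_⟩
  obtain ⟨⟨h1, hgn⟩, -, -, hGK, -⟩ := h
  obtain ⟨bad, hb, hcl⟩ := h1 hτ
  refine ⟨bad, hb, fun η hη ρ u Z a1 a2 a3 a4 a5 hue => ?_⟩
  have h2 := hcl η hη ρ u Z a1 a2 a3 a4 a5 hue u le_rfl (by omega)
  rw [Nat.sub_self, pow_zero, mul_one] at h2
  have h3 := dt_of_D2f85 h0 hgn hQ hσ h2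
  rw [hGK] at h3
  rwa [hGK]

end

end Pool.Agent.W_7d29a1_C1.DtQ85
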