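import Pool.Agent.W_7d29a1_C1.SepQ49
import Pool.Agent.W_7d29a1_C1.Tilt57

/-!
Both halves (MP_7d29a1_pr), attractor route [C1], HP in the model: THE EVENTS OF `Evn` WHICH EVERY CLAUSE NEEDS. (helper39)

Thresholds of the constants (`evn_q` .. `evn_n`, each may depend on all constants before it), base height, number of scales, size of
the box, multiplicity of the targets, horizon against the energies, tilt, and the letters of the geometry.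
-/

set_option autoImplicit false

namespace Pool.Agent.W_7d29a1_C1.Hp39

open Finset MeasureTheory Filter
open Pool.Agent.W_7d29a1_F Pool.Agent.W_7d29a1_h4g Pool.Agent.W_7d29a1_H Pool.Agent.W_7d29a1_HS
open Pool.Agent.W_7d29a1_C1.H60
open Pool.Agent.W_7d29a1_C1.H40 (Tk)
open Pool.Agent.W_7d29a1_C1.G37 (Gm Wok gmW)
open Pool.Agent.W_7d29a1_C1.SF98 (XS)
open Pool.Agent.W_7d29a1_C1.N49
open Pool.Agent.W_7d29a1_C1.Q49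
open Pool.Agent.W_7d29a1_C1.Tl57

noncomputable section

variable {P : Pre} {Dd : Dat} {μ : Measure ℝ} {s : ℝ} {φ : Phi}

/-! ### Thresholds -/

/-- From a threshold in `lam`, everything before it at hand. -/
theorem of_lam (h : ∀ q m2 : ℕ, ∀ η : ℝ, 0 < η → ∀ A : ℕ, 1 ≤ A → ∃ lam₁ : ℕ, ∀ lam : ℕ, lam₁ ≤ lam → ∀ m0 g1 e0 c₂ δ κ n, 1 ≤ g1 →
    0 < e0 → 0 < c₂ → c₂ ≤ 1 → 0 < δ → δ ≤ c₂ / 16 → 0 < κ → Ins P Dd μ s φ q m2 η A lam m0 g1 e0 c₂ δ κ n) : Evn P Dd μ s φ := by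
  refine ⟨0, fun q _ => ⟨0, fun m2 _ η hη A hA => ?_⟩⟩
  obtain ⟨l₁, h⟩ := h q m2 η hη A hA
  exact ⟨l₁, fun lam hl => ⟨0, fun m0 _ g1 hg1 e0 he0 => EvA.of_ev ⟨0, fun n _ c₂ δ κ h1 h2 h3 h4 h5 =>
    h lam hl m0 g1 e0 c₂ δ κ n hg1 he0 h1 h2 h3 h4 h5⟩⟩⟩

/-- From a threshold in `n`, everything before it at hand. -/
theorem of_n (h : ∀ q m2 : ℕ, ∀ η : ℝ, 0 < η → ∀ A : ℕ, 1 ≤ A → ∀ lam m0 g1 : ℕ, 1 ≤ g1 → ∀ e0 : ℝ, 0 < e0 → ∃ n₁ : ℕ, ∀ n : ℕ,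
    n₁ ≤ n → ∀ c₂ δ κ : ℝ, 0 < c₂ → c₂ ≤ 1 → 0 < δ → δ ≤ c₂ / 16 → 0 < κ → Ins P Dd μ s φ q m2 η A lam m0 g1 e0 c₂ δ κ n) :
    Evn P Dd μ s φ := by
  refine ⟨0, fun q _ => ⟨0, fun m2 _ η hη A hA => ⟨0, fun lam _ => ⟨0, fun m0 _ g1 hg1 e0 he0 => ?_⟩⟩⟩⟩
  obtain ⟨n₁, h⟩ := h q m2 η hη A hA lam m0 g1 hg1 e0 he0
  exact EvA.of_ev ⟨n₁, fun n hn c₂ δ κ h1 h2 h3 h4 h5 => h n hn c₂ δ κ h1 h2 h3 h4 h5⟩

theorem evn_q (k : ℕ) : Evn P Dd μ s fun q _ _ _ _ _ _ _ _ _ => k ≤ q :=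
  ⟨k, fun _ hq => ⟨0, fun _ _ _ _ _ _ => ⟨0, fun _ _ => ⟨0, fun _ _ _ _ _ _ => EvA.of_ev ⟨0, fun _ _ _ _ _ _ _ _ _ _
    _ _ _ _ _ _ _ _ _ => hq⟩⟩⟩⟩⟩

theorem evn_m2 (f : ℕ → ℕ) : Evn P Dd μ s fun q _ _ _ _ _ G _ _ _ => f q ≤ G.m2 :=
  ⟨0, fun q _ => ⟨f q, fun _ hm _ _ _ _ => ⟨0, fun _ _ => ⟨0, fun _ _ _ _ _ _ => EvA.of_ev ⟨0, fun _ _ _ _ _ _ _ _ _ _
    _ _ _ _ _ _ _ _ _ => hm⟩⟩⟩⟩⟩

theorem evn_lam (f : ℕ → ℕ → ℝ → ℕ → ℕ) : Evn P Dd μ s fun q η A lam _ _ G _ _ _ => f q G.m2 η A ≤ lam :=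
  of_lam fun q m2 η _ A _ => ⟨f q m2 η A, fun _ hl _ _ _ _ _ _ _ _ _ _ _ _ _ _ _ _ _ _ _ _ _ _ _ => hl⟩

theorem evn_m0 (f : ℕ → ℕ → ℝ → ℕ → ℕ → ℕ) : Evn P Dd μ s fun q η A lam _ _ G _ _ _ => f q G.m2 η A lam ≤ G.m0 :=
  ⟨0, fun q _ => ⟨0, fun m2 _ η _ A _ => ⟨0, fun lam _ => ⟨f q m2 η A lam, fun _ hm _ _ _ _ => EvA.of_ev ⟨0, fun _ _ _ _ _ _ _ _ _ _
    _ _ _ _ _ _ _ _ _ => hm⟩⟩⟩⟩⟩

theorem evn_n (f : ℕ → ℕ → ℝ → ℕ → ℕ → ℕ → ℕ → ℕ) :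
    Evn P Dd μ s fun q η A lam n _ G _ _ _ => f q G.m2 η A lam G.m0 G.m1 ≤ n :=
  of_n fun q m2 η _ A _ lam m0 g1 _ _ _ => ⟨f q m2 η A lam m0 g1, fun _ hn _ _ _ _ _ _ _ _ _ _ _ _ _ _ _ _ _ => hn⟩

/-! ### Base height and number of scales -/

/-- THE BASE HEIGHT is larger than all constants. -/
theorem evn_T0 (f : ℕ → ℕ → ℝ → ℕ → ℕ → ℕ → ℕ → ℕ) :
    Evn P Dd μ s fun q η A lam _ _ G _ _ _ => f q G.m2 η A lam G.m0 G.m1 ≤ G.T0 := by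
  refine of_n fun q m2 η _ A _ lam m0 g1 _ e0 he0 => ?_
  obtain ⟨n₁, h⟩ := eventually_atTop.1 (((tendsto_rpow_atTop he0).comp tendsto_natCast_atTop_atTop).eventually_ge_atTop
    (f q m2 η A lam m0 g1 : ℝ))
  refine ⟨n₁, fun n hn c₂ δ κ _ _ _ _ _ Γ T0 M mt τ0 hc hW _ _ => ?_⟩
  have h1 := (h n hn).trans hc.T0_ge
  exact_mod_cast h1

/-- THE NUMBER OF SCALES is larger than all constants. -/
theorem evn_M (f : ℕ → ℕ → ℝ → ℕ → ℕ → ℕ → ℕ → ℕ) :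
    Evn P Dd μ s fun q η A lam _ _ G _ _ _ => f q G.m2 η A lam G.m0 G.m1 ≤ G.M := by
  refine of_n fun q m2 η _ A _ lam m0 g1 _ e0 he0 => ?_
  obtain ⟨n₁, h⟩ := eventually_atTop.1 (((Real.tendsto_log_atTop.comp tendsto_natCast_atTop_atTop).const_mul_atTop
    Dd.hkap).eventually_ge_atTop (f q m2 η A lam m0 g1 : ℝ))
  refine ⟨n₁, fun n hn c₂ δ κ _ _ _ _ _ Γ T0 M mt τ0 hc hW _ _ => ?_⟩
  have h1 := (h n hn).trans hc.M_ge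
  exact_mod_cast h1

/-- There are at least `kap log n` scales. -/
theorem evn_log : Evn P Dd μ s fun _ _ _ _ n _ G _ _ _ => Dd.kap * Real.log n ≤ G.M :=
  Evn.of_all fun _ _ _ _ _ _ _ _ _ _ _ _ _ _ _ _ _ hc _ _ _ _ _ _ _ _ _ _ _ => hc.M_ge

theorem evn_mt : Evn P Dd μ s fun _ _ _ _ _ _ G mt _ _ => G.M + G.m2 + P.J1 ≤ mt ∧ mt ≤ 2 * G.M :=
  Evn.of_all fun _ _ _ _ _ _ _ _ _ _ _ _ _ _ _ _ _ hc _ _ _ _ _ _ _ _ _ _ _ => ⟨hc.mt_ge, hc.mt_le⟩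

/-- The top height. -/
theorem top_le {e0 c₂ δ κ : ℝ} {n : ℕ} {Γ : Cx} {T0 M mt m2 g1 : ℕ} (hc : Ct P Dd μ s e0 c₂ δ κ n Γ T0 M mt m2 g1) {u : ℕ}
    (hu : u ≤ mt) : 4 * (Tk T0 Dd.K u : ℝ) ≤ (n : ℝ) ^ (1 / 32 : ℝ) := by
  refine le_trans ?_ hc.top
  have a1 : (1 : ℝ) ≤ Dd.K := by exact_mod_cast (show 1 ≤ Dd.K by have := Dd.hK; omega)
  have a2 : (Dd.K : ℝ) ^ u ≤ (Dd.K : ℝ) ^ mt := pow_le_pow_right₀ a1 hu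
  unfold Tk
  push_cast
  have a3 := mul_le_mul_of_nonneg_left a2 (show (0 : ℝ) ≤ (T0 : ℝ) from Nat.cast_nonneg _)
  linarith

theorem evn_top : Evn P Dd μ s fun _ _ _ _ n _ G mt _ _ => ∀ u ≤ mt, 4 * (G.T u : ℝ) ≤ (n : ℝ) ^ (1 / 32 : ℝ) :=
  Evn.of_all fun _ _ _ _ _ _ _ _ _ _ _ _ _ _ _ _ _ hc _ _ _ _ _ _ _ _ _ _ _ _ hu => top_le hc hu

/-- The number of scales is at most `log n / 32`. -/
theorem evn_Mlog : Evn P Dd μ s fun _ _ _ _ n _ G _ _ _ => (G.M : ℝ) ≤ 1 / 32 * Real.log n := by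
  refine of_n fun q m2 η _ A _ lam m0 g1 _ e0 he0 => ⟨1, fun n hn c₂ δ κ _ _ _ _ _ Γ T0 M mt τ0 hc hW _ _ => ?_⟩
  refine scales_le (K := Dd.K) (M := M) Dd.hK ?_ hn
  have a1 : (1 : ℝ) ≤ T0 := by exact_mod_cast hW.hT
  have a2 := top_le hc (show M ≤ mt by have := hc.mt_ge; omega)
  have a3 : (Tk T0 Dd.K M : ℝ) = T0 * (Dd.K : ℝ) ^ M := by unfold Tk; push_cast; rfl
  have a4 : (0 : ℝ) ≤ (Dd.K : ℝ) ^ M := by positivity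
  have a5 : (Dd.K : ℝ) ^ M ≤ T0 * (Dd.K : ℝ) ^ M := le_mul_of_one_le_left a4 a1
  rw [a3] at a2
  linarith

/-- The number of scales is at most `n`. -/
theorem evn_Mn : Evn P Dd μ s fun _ _ _ _ n _ G _ _ _ => G.M ≤ n := by
  refine (evn_Mlog.and (evn_n fun _ _ _ _ _ _ _ => 1)).mono fun q η A lam n Γ G mt τ0 E h => ?_
  obtain ⟨h1, h2⟩ := h
  have a1 : (1 : ℝ) ≤ n := by exact_mod_cast h2
  have a2 : Real.log n ≤ n := (Real.log_le_sub_one_of_pos (by linarith)).trans (by linarith)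
  have a3 : 0 ≤ Real.log n := Real.log_nonneg a1
  have a4 : (G.M : ℝ) ≤ n := by linarith
  exact_mod_cast a4

/-- The size of the box. -/
theorem evn_XS : Evn P Dd μ s fun _ _ _ _ n Γ G mt _ _ => Fintype.card (XS Γ G mt) ≤ n ^ 13 :=
  of_n fun _ _ _ _ _ _ _ _ _ _ _ _ => ⟨20, fun _ hn _ _ _ _ h2 _ _ _ _ _ _ _ _ hc _ _ _ => card_adm hc.adm h2 hn⟩

/-! ### Multiplicity -/

/-- The multiplicity of the targets is at most `a ^ lam`. -/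
theorem evn_An {a : ℕ} (ha : 2 ≤ a) : Evn P Dd μ s fun _ _ _ lam _ _ G _ _ _ => G.An ≤ a ^ lam :=
  of_lam fun _ _ _ _ _ _ => ⟨AnW Dd.K P.kn P.kb, fun lam hl _ _ _ _ _ _ _ _ _ _ _ _ _ _ _ _ _ _ _ _ _ _ hG =>
    hG.An_le.trans (hl.trans (Nat.lt_pow_self (by omega : 1 < a)).le)⟩

/-- The same over `ℝ`. -/
theorem evn_AnR {a : ℝ} (ha : 1 < a) : Evn P Dd μ s fun _ _ _ lam _ _ G _ _ _ => (G.An : ℝ) ≤ a ^ lam := by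
  refine of_lam fun _ _ _ _ _ _ => ?_
  obtain ⟨k, hk⟩ := pow_unbounded_of_one_lt (AnW Dd.K P.kn P.kb : ℝ) ha
  refine ⟨k, fun lam hl _ _ _ _ _ _ _ _ _ _ _ _ _ _ _ _ _ _ _ _ _ _ hG => ?_⟩
  have h1 := hG.An_le
  have h2 : a ^ k ≤ a ^ lam := pow_le_pow_right₀ ha.le hl
  refine le_trans ?_ (hk.le.trans h2)
  exact_mod_cast h1

/-! ### The context -/

theorem evn_adm : Evn P Dd μ s fun _ _ _ _ n Γ _ _ _ _ => Γ.Ok ∧ Γ.s = s ∧ n ≤ Γ.N ∧ Γ.N ≤ 4 * n ^ 6 ∧ Γ.M ≤ Γ.N ∧ 1 ≤ Γ.k := by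
  refine of_n fun _ _ _ _ _ _ _ _ _ _ _ _ => ⟨20, fun n hn c₂ δ κ h1 h2 h3 h4 h5 Γ T0 M mt τ0 hc hW _ _ => ?_⟩
  obtain ⟨N, L, k1, k2, k3, k4, k5, k6, -⟩ := hc.adm.hor
  have nr : (20 : ℝ) ≤ n := by exact_mod_cast hn
  have hN : N ≤ n ^ 2 := by
    have a1 : (N : ℝ) ≤ (n : ℝ) ^ (2 : ℕ) := by
      refine k2.trans ?_
      rw [← Real.rpow_natCast]
      refine Real.rpow_le_rpow_of_exponent_le (by linarith) ?_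
      push_cast
      linarith
    exact_mod_cast a1
  have hN3 : N ^ 3 ≤ n ^ 6 := by
    calc N ^ 3 ≤ (n ^ 2) ^ 3 := Nat.pow_le_pow_left hN 3
      _ = _ := by ring
  have hn2 : n ^ 2 ≤ n ^ 6 := Nat.pow_le_pow_right (by omega) (by norm_num)
  have h1n : 1 ≤ n ^ 6 := Nat.one_le_pow _ _ (by omega)
  have hN1 : N ≤ N ^ 3 := Nat.le_self_pow (by norm_num) _
  exact ⟨hc.adm.ok, hc.adm.hs, by omega, by omega, by omega, hc.adm.k1⟩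

/-- **THE ENERGIES ARE LARGER THAN ANY MULTIPLE OF `log n`**, from the base height on. -/
theorem evn_Elog [IsProbabilityMeasure μ] {c C : ℝ} {n₀ : ℕ} (hI : In μ s c C n₀) (x : ℝ) :
    Evn P Dd μ s fun _ _ _ _ n _ G _ _ _ => ∀ T : ℕ, G.T0 ≤ T → x * Real.log n ≤ EE μ s T := by
  refine of_n fun q m2 η _ A _ lam m0 g1 _ e0 he0 => ?_
  obtain ⟨e1, he1, nE, hE⟩ := model_E hI he0
  obtain ⟨n1, hn1⟩ := exists_log_le x he1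
  refine ⟨max nE n1, fun n hn c₂ δ κ _ _ _ _ _ Γ T0 M mt τ0 hc hW _ _ T hT => ?_⟩
  refine (hn1 n (by omega)).trans (hE n (by omega) T (hc.T0_ge.trans ?_))
  exact_mod_cast hT

/-- The energies are larger than any number. -/
theorem evn_E [IsProbabilityMeasure μ] {c C : ℝ} {n₀ : ℕ} (hI : In μ s c C n₀) (f : ℕ → ℕ → ℝ → ℕ → ℕ → ℕ → ℕ → ℝ) :
    Evn P Dd μ s fun q η A lam _ _ G _ _ _ => ∀ T : ℕ, G.T0 ≤ T → f q G.m2 η A lam G.m0 G.m1 ≤ EE μ s T := by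
  refine of_n fun q m2 η _ A _ lam m0 g1 _ e0 he0 => ?_
  obtain ⟨e1, he1, nE, hE⟩ := model_E hI he0
  obtain ⟨n1, hn1⟩ := eventually_atTop.1 (((tendsto_rpow_atTop he1).comp tendsto_natCast_atTop_atTop).eventually_ge_atTop
    (f q m2 η A lam m0 g1))
  refine ⟨max nE n1, fun n hn c₂ δ κ _ _ _ _ _ Γ T0 M mt τ0 hc hW _ _ T hT => ?_⟩
  refine (hn1 n (by omega)).trans (hE n (by omega) T (hc.T0_ge.trans ?_))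
  exact_mod_cast hT

/-- **THE HORIZON IS AT MOST `exp` OF ANY ENERGY.** -/
theorem evn_N [IsProbabilityMeasure μ] {c C : ℝ} {n₀ : ℕ} (hI : In μ s c C n₀) :
    Evn P Dd μ s fun _ _ _ _ _ Γ G _ _ _ => ∀ T : ℕ, G.T0 ≤ T → (Γ.N : ℝ) + 1 ≤ Real.exp (EE μ s T) := by
  refine (((evn_Elog hI 7).and evn_adm).and (evn_n fun _ _ _ _ _ _ _ => 5)).mono fun q η A lam n Γ G mt τ0 E h T hT => ?_
  obtain ⟨⟨h1, -, -, -, h2, -⟩, h3⟩ := h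
  have a0 : (5 : ℝ) ≤ n := by exact_mod_cast h3
  have a1 : (Γ.N : ℝ) ≤ 4 * (n : ℝ) ^ 6 := by exact_mod_cast h2
  have a2 : (1 : ℝ) ≤ (n : ℝ) ^ 6 := one_le_pow₀ (by linarith)
  have a3 : (n : ℝ) ^ 7 = Real.exp (7 * Real.log n) := by
    rw [show (7 : ℝ) * Real.log n = ((7 : ℕ) : ℝ) * Real.log n by norm_num, Real.exp_nat_mul, Real.exp_log (by linarith)]
  calc (Γ.N : ℝ) + 1 ≤ 5 * (n : ℝ) ^ 6 := by linarith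
    _ ≤ n * (n : ℝ) ^ 6 := mul_le_mul_of_nonneg_right a0 (by positivity)
    _ = (n : ℝ) ^ 7 := by ring
    _ = _ := a3
    _ ≤ _ := Real.exp_le_exp.2 (h1 T hT)

/-- **THE TILT IS SMALL** at all scales. -/
theorem evn_tilt [IsProbabilityMeasure μ] {c C : ℝ} {n₀ : ℕ} (hI : In μ s c C n₀)
    (hE9 : ∀ᶠ n : ℕ in atTop, (n : ℝ) ^ (1 / 9 : ℝ) ≤ EE μ s n) {ε : ℝ} (hε : 0 < ε) :
    Evn P Dd μ s fun _ _ _ _ n Γ G mt _ _ => |Γ.h| ≤ ε ∧ ∀ u ≤ mt, |Γ.h| * G.w u ≤ ε * EE μ s (G.T u) ∧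
      |Γ.h| * ((G.T u : ℝ) ^ 3 * (1 + Real.log n)) ≤ ε := by
  refine of_n fun q m2 η _ A _ lam m0 g1 _ e0 he0 => ?_
  obtain ⟨n₁, h⟩ := tilt57 hI hE9 hε
  refine ⟨n₁, fun n hn c₂ δ κ _ _ h3 _ _ Γ T0 M mt τ0 hc hW _ _ => ?_⟩
  obtain ⟨-, h2, h4⟩ := h n hn h3.le hc.adm
  refine ⟨h2, fun u hu => ?_⟩
  have h5 := top_le hc hu
  have h6 : (0 : ℝ) ≤ (Tk T0 Dd.K u : ℝ) := Nat.cast_nonneg _
  exact h4 (Tk T0 Dd.K u) (by linarith)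

/-! ### The letters of the geometry -/

theorem evn_geo : Evn P Dd μ s fun _ _ _ _ _ _ G _ _ E => (∀ u, G.w u = wd μ s (G.T u)) ∧ (∀ u, E u = EE μ s (G.T u)) ∧
    G.K = Dd.K ∧ G.v = sl μ s ∧ G.kw = P.kw ∧ G.kn = P.kn ∧ G.kb = P.kb ∧ G.lam = P.kn + 2 * P.kb ∧ (∀ u, 1 ≤ G.w u) :=
  Evn.of_all fun _ _ _ _ _ _ _ _ _ _ _ _ _ _ _ _ _ _ hW _ _ _ _ _ _ _ _ _ _ =>
    ⟨fun _ => rfl, fun _ => rfl, rfl, rfl, rfl, rfl, rfl, rfl, hW.one⟩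

/-- The widths of the scales behave, the energies grow. -/
theorem evn_wok : Evn P Dd μ s fun _ _ _ _ _ _ G _ _ E => Wok μ s G.T0 G.K ∧ Gr E Dd.κ Dd.Cg :=
  Evn.of_all fun _ _ _ _ _ _ _ _ _ _ _ _ _ _ _ _ _ _ hW _ _ _ _ _ _ _ _ hg _ => ⟨hW, hg⟩

/-- The number and geometry fields. -/
theorem evn_GP : Evn P Dd μ s fun q η A lam n Γ G mt τ0 E => GP P Dd Γ G mt E q η A lam n τ0 :=
  Evn.of_all fun _ _ _ _ _ _ _ _ _ _ _ _ _ _ _ _ _ _ _ _ _ _ _ _ _ _ _ _ hG => hG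

end

end Pool.Agent.W_7d29a1_C1.Hp39
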