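import Pool.Agent.W_7d29a1_C1.PrC99
import Pool.Agent.W_7d29a1_C1.HpE39
import Pool.Agent.W_7d29a1_C1.JmpN67

/-!
MP_7d29a1_pr, [C1] attractor route, TAME: THE NUMBERS OF THE GEOMETRY `Ng99` (PrC99) IN THE FORM `Evn`. (helper39)
-/

set_option autoImplicit false

namespace Pool.Agent.W_7d29a1_C1.Ng39

open Finset MeasureTheory Filter
open Pool.Agent.W_7d29a1_F Pool.Agent.W_7d29a1_h4g Pool.Agent.W_7d29a1_H Pool.Agent.W_7d29a1_HS
open Pool.Agent.W_7d29a1_C1.H60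
open Pool.Agent.W_7d29a1_C1.H40 (Tk)
open Pool.Agent.W_7d29a1_C1.G37 (Gm Wok gmW)
open Pool.Agent.W_7d29a1_C1.N49
open Pool.Agent.W_7d29a1_C1.Q49
open Pool.Agent.W_7d29a1_C1.Hp39
open Pool.Agent.W_7d29a1_C1.PrC99 (Ng99)

noncomputable section

variable {μ : Measure ℝ} [IsProbabilityMeasure μ] {s c C : ℝ} {n₀ : ℕ}

/-- Monotonicity along large ratios: of the width, and of the width against the energy. -/
theorem gain39 (h : In μ s c C n₀) : ∃ N₀ n₁ : ℕ, 16 ≤ N₀ ∧ 1 ≤ n₁ ∧ ∀ m n : ℕ, n₁ ≤ m → N₀ * m ≤ n →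
    wd μ s m ≤ wd μ s n ∧ EE μ s n * wd μ s m ≤ EE μ s m * wd μ s n := by
  obtain ⟨k, a, n₁, hk, ha, hn₁, H⟩ := wd_gain_div h
  have t1 : Tendsto (fun N : ℕ => k * (N : ℝ) ^ a) atTop atTop :=
    ((tendsto_rpow_atTop ha).comp tendsto_natCast_atTop_atTop).const_mul_atTop hk
  obtain ⟨N₀, hN⟩ := eventually_atTop.1 (t1.eventually_ge_atTop 1)
  refine ⟨max N₀ 16, n₁, le_max_right _ _, hn₁, fun m n hm hmn => ?_⟩
  have hN1 : 1 ≤ max N₀ 16 := le_trans (by norm_num) (le_max_right _ _)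
  have hmn' : m ≤ n := (Nat.le_mul_of_pos_left m hN1).trans hmn
  have hm0 : (0 : ℝ) < m := by exact_mod_cast hn₁.trans hm
  have hwm := h.wd_pos (hn₁.trans hm)
  have hEm := EE_pos (μ := μ) (s := s) m
  have hEn := EE_pos (μ := μ) (s := s) n
  have h1 := H m n hm hmn'
  have h2 : ((max N₀ 16 : ℕ) : ℝ) ≤ (n : ℝ) / m := by
    rw [le_div_iff₀ hm0]
    exact_mod_cast hmn
  have h3 : 1 ≤ k * ((n : ℝ) / m) ^ a := by
    refine (hN (max N₀ 16) (le_max_left _ _)).trans (mul_le_mul_of_nonneg_left ?_ hk.le)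
    exact Real.rpow_le_rpow (Nat.cast_nonneg _) h2 ha.le
  have h4 : EE μ s n / EE μ s m ≤ wd μ s n / wd μ s m :=
    (le_mul_of_one_le_left (by positivity) h3).trans h1
  have h5 : 1 ≤ EE μ s n / EE μ s m := (one_le_div hEm).2 (EE_mono hmn')
  refine ⟨(one_le_div hwm).1 (h5.trans h4), ?_⟩
  rw [div_le_div_iff₀ hEm hwm] at h4
  rw [mul_comm (EE μ s m)]
  exact h4

/-- **THE NUMBERS OF THE GEOMETRY**, eventually: ratio and height factor beyond `N₀ (In)`. -/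
theorem evn_ng39 (hI : In μ s c C n₀) (hE9 : ∀ᶠ n : ℕ in atTop, (n : ℝ) ^ (1 / 9 : ℝ) ≤ EE μ s n) :
    ∃ N₀ : ℕ, 16 ≤ N₀ ∧ ∀ (P : Pre) (Dd : Dat) (Bh : ℕ) (θ : ℝ) (n₁ : ℕ), N₀ ≤ Dd.K → N₀ ≤ Bh → θ * (4 * Bh) ≤ 1 →
      Evn P Dd μ s fun _ _ _ _ _ Γ G mt _ _ => Ng99 μ s c θ Γ G mt Bh n₁ := by
  obtain ⟨N₀, n₂, hN16, hn₂, hg⟩ := gain39 hI
  refine ⟨N₀, hN16, fun P Dd Bh θ n₁ hK hB hθ => ?_⟩
  have hB0 : (0 : ℝ) < Bh := by exact_mod_cast (show 0 < Bh by omega)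
  have hc := hI.c0
  refine ((((evn_tilt (P := P) (Dd := Dd) hI hE9 (ε := c / (16 * Bh)) (by positivity)).and (evn_N hI)).and
    ((evn_T0 fun _ _ _ _ _ _ _ => max n₁ n₂).and evn_adm)).and ((evn_geo (P := P) (Dd := Dd)).and evn_wok)).mono
    fun q η A lam n Γ G mt τ0 E h => ?_
  obtain ⟨⟨⟨⟨-, h1⟩, h2⟩, h3, -, h4, -⟩, ⟨h5, -, h6, h7, -, -, -, -, h8⟩, h9, -⟩ := h
  have hT0 : ∀ v, G.T0 ≤ G.T v := fun v => Nat.le_mul_of_pos_right _ (Nat.pow_pos (by have := G.hK; omega))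
  have hBT : ∀ v, G.T v ≤ Bh * G.T v := fun v => Nat.le_mul_of_pos_left _ (by omega)
  have hn1 : ∀ v, n₁ ≤ G.T v := fun v => (le_max_left _ _).trans (h3.trans (hT0 v))
  have hn2 : ∀ v, n₂ ≤ G.T v := fun v => (le_max_right _ _).trans (h3.trans (hT0 v))
  have hT1 : ∀ v, 1 ≤ G.T v := fun v => hn₂.trans (hn2 v)
  have hTs : ∀ v, G.T (v + 1) = G.K * G.T v := fun v => by
    show Tk G.T0 G.K (v + 1) = G.K * Tk G.T0 G.K v
    unfold Tk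
    rw [pow_succ]
    ring
  have hstep : ∀ v, N₀ * (Bh * G.T v) ≤ Bh * G.T (v + 1) := fun v => by
    rw [hTs, h6]
    calc N₀ * (Bh * G.T v) ≤ Dd.K * (Bh * G.T v) := Nat.mul_le_mul_right _ hK
      _ = Bh * (Dd.K * G.T v) := by ring
  have hst := fun v => hg (Bh * G.T v) (Bh * G.T (v + 1)) ((hn2 v).trans (hBT v)) (hstep v)
  refine
    { hs := h4
      hv := h7
      K16 := by omega
      B4 := by omega
      th := hθ
      n1 := fun v => (hn1 v).trans (hBT v)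
      w1 := h8
      wH := fun v => ?_
      wm := fun v v' hv => ?_
      fo := fun v hv => ?_
      N := fun v => h2 _ ((hT0 v).trans (hBT v))
      ew := fun v => (hst v).2 }
  · rw [h5]
    exact (hg (G.T v) (Bh * G.T v) (hn2 v) (Nat.mul_le_mul_right _ hB)).1
  · induction hv with
    | refl => exact le_rfl
    | @step m _ ih => exact ih.trans (hst m).1
  · have a1 := (h1 v hv).1
    rw [h5] at a1
    have a2 := wd_lower_one hI (hT1 v) (hBT v)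
    have a3 : (0 : ℝ) < G.T v := by exact_mod_cast hT1 v
    have a4 : wd μ s (Bh * G.T v) ≤ 2 * Bh * wd μ s (G.T v) := by
      refine le_of_mul_le_mul_left (a2.trans (le_of_eq ?_)) a3
      push_cast
      ring
    have a5 : EE μ s (G.T v) ≤ EE μ s (Bh * G.T v) := EE_mono (hBT v)
    have a6 := abs_nonneg Γ.h
    have a7 := EE_pos (μ := μ) (s := s) (G.T v)
    calc |Γ.h| * wd μ s (Bh * G.T v) ≤ |Γ.h| * (2 * Bh * wd μ s (G.T v)) := mul_le_mul_of_nonneg_left a4 a6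
      _ = 2 * Bh * (|Γ.h| * wd μ s (G.T v)) := by ring
      _ ≤ 2 * Bh * (c / (16 * Bh) * EE μ s (G.T v)) := mul_le_mul_of_nonneg_left a1 (by positivity)
      _ = c / 8 * EE μ s (G.T v) := by field_simp; ring
      _ ≤ _ := mul_le_mul_of_nonneg_left a5 (by positivity)

/-- **THE NUMBERS OF THE GEOMETRY** at the height factor `8 K ^ 2` (the premise of `ouQ99`). -/
theorem evn_ngK39 (hI : In μ s c C n₀) (hE9 : ∀ᶠ n : ℕ in atTop, (n : ℝ) ^ (1 / 9 : ℝ) ≤ EE μ s n) :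
    ∃ N₀ : ℕ, 16 ≤ N₀ ∧ ∀ (P : Pre) (Dd : Dat) (θ : ℝ) (n₁ : ℕ), N₀ ≤ Dd.K → θ * (4 * ((8 * Dd.K ^ 2 : ℕ) : ℝ)) ≤ 1 →
      Evn P Dd μ s fun _ _ _ _ _ Γ G mt _ _ => Ng99 μ s c θ Γ G mt (8 * G.K ^ 2) n₁ := by
  obtain ⟨N₀, h16, H⟩ := evn_ng39 hI hE9
  refine ⟨N₀, h16, fun P Dd θ n₁ hK hθ => ?_⟩
  refine ((H P Dd (8 * Dd.K ^ 2) θ n₁ hK ?_ hθ).and evn_geo).mono fun q η A lam n Γ G mt τ0 E h => ?_
  · calc N₀ ≤ Dd.K := hK
      _ ≤ Dd.K ^ 2 := Nat.le_self_pow (by norm_num) _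
      _ ≤ 8 * Dd.K ^ 2 := Nat.le_mul_of_pos_left _ (by norm_num)
  · obtain ⟨h1, -, -, h2, -⟩ := h
    rw [h2]
    exact h1

end

end Pool.Agent.W_7d29a1_C1.Ng39
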