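import Pool.Agent.W_7d29a1_C1.PrC99
import Pool.Agent.W_7d29a1_C1.SwU40
import Pool.Agent.W_7d29a1_C1.HpE39
import Pool.Agent.W_7d29a1_C1.CanL6

/-!
MP_7d29a1_pr, [C1] attractor route, TAME: THE CLAUSE OF `Ou` IN THE `Evn` FORM, from the leaf D2. (helper99)

* `ClP99` : a clause about the own sites (helper40's `ClU40` for sets which may depend on the site `ρ`);
* **`D2Q99`** : the leaf D2 at the own cuts `ct f ρ`, `u ≤ f ≤ u + J`; `Fl99` : the families of levels;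
* **`ouQ99`** : `Ou` (OuT and OuD) at every radius `R ≥ Rmin`, in the form of `clQ_of_U40`, cut at `u + G.M / ke ≤ G.M`.
-/

set_option autoImplicit false

namespace Pool.Agent.W_7d29a1_C1.PrQ99

open MeasureTheory Filter Finset
open Pool.Agent.W_7d29a1_F Pool.Agent.W_7d29a1_h4g Pool.Agent.W_7d29a1_H Pool.Agent.W_7d29a1_HS
open Pool.Agent.W_7d29a1_C1.H75 Pool.Agent.W_7d29a1_C1.U16
open Pool.Agent.W_7d29a1_C1.H60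
open Pool.Agent.W_7d29a1_C1.H40
open Pool.Agent.W_7d29a1_C1.G37 (Gm Wok gmW)
open Pool.Agent.W_7d29a1_C1.SF98
open Pool.Agent.W_7d29a1_C1.N49
open Pool.Agent.W_7d29a1_C1.PW86
open Pool.Agent.W_7d29a1_C1.Dep6
open Pool.Agent.W_7d29a1_C1.Q49
open Pool.Agent.W_7d29a1_C1.Hp2
open Pool.Agent.W_7d29a1_C1.Hp39
open Pool.Agent.W_7d29a1_C1.PrC99
open scoped ENNReal

noncomputable section

variable (Γ : Cx) (G : Gm) (mt : ℕ) in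
/-- **A CLAUSE ABOUT THE OWN SITES.** -/
def ClP99 (Fs : Finset (ℕ → ℕ)) (Sw : Finset ℤ) (E0 : ℕ) (t : Tm) (C0 : ℝ) (C2 D τ : ℕ) (bad : Set Env) (Y : XS Γ G mt → ℕ → Set Env) : Prop :=
  ∀ η ∉ bad, ∀ (ρ : XS Γ G mt) (u : ℕ) Z, τ ≤ u → u < G.M → PW (gj Γ G mt) Z →
    ODW (gj Γ G mt) (fun x => G.lat x.1) G.latC G.w C0 C2 D Z ρ u →
    (∀ f ∈ Fs, Ok6 ∅ (t.dLU G mt) (t.dNU G mt) lb6 lbN6 Z (f u) η ∧ OkS6 Sw E0 lb6 lbN6 Z (f u)) → η ∈ Y ρ u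

/-- **THE LEAF D2**: off a rare event D2 holds at the cuts `ct f ρ`, `u ≤ f ≤ u + J`, of every own slab with `u + G.M / ke ≤ G.M`, with the
constant `Q0 g ^ (f - u)`, slope `σ`, in the unit `8 K ^ 2 T (f + 1)`. -/
def D2Q99 (P : Pre) (Dd : Dat) (μ : Measure ℝ) (s : ℝ) (t : Tm) (k ke D : ℕ) (Fs : Gm → Finset (ℕ → ℕ)) (J : ℕ) (Q0 g σ : ℝ) : Prop :=
  ∃ C2₀ B : ℕ, ∀ C2 : ℕ, C2₀ ≤ C2 → Evn P Dd μ s fun _ _ _ _ n Γ G mt τ0 _ => 1 ≤ τ0 → ∃ bad : Set Env,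
    law μ bad ≤ (B : ℝ≥0∞) * ENNReal.ofReal ((n : ℝ) ^ (-(5 : ℝ))) ∧
    ClP99 Γ G mt (Fs G) {(Γ.M : ℤ)} (G.M / k) t (C0P P) C2 D τ0 bad fun ρ u => {η | u + G.M / ke ≤ G.M → ∀ f, u ≤ f → f ≤ u + J →
      D2f99 μ s Γ G mt (8 * G.K ^ 2) ρ f (f + 1) (Q0 * g ^ (f - u)) σ η}

/-- **The families of levels** at the geometries with `n₂ ≤ T0`. -/
def Fl99 (μ : Measure ℝ) (s c θ K : ℝ) (P n₂ : ℕ) (t : Tm) : Prop :=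
  ∀ G : Gm, n₂ ≤ G.T0 → (∃ A a g, LvF μ A a g (t.F G)) ∧ (∃ A a g, LvF μ A a g (t.F' G)) ∧
    ∀ x y q, t.F G x y q ⊆ lvS μ s c θ K P (HfC6 G) (colG6 μ s G) x y q

variable {μ : Measure ℝ} [IsProbabilityMeasure μ] {s c C : ℝ} {n₀ : ℕ}

/-- **`Ou` AT EVERY LARGE RADIUS, IN THE FORM OF `clQ_of_U40`.** -/
theorem ouQ99 (h0 : In μ s c C n₀) : ∃ (e : ℝ) (K₀ : ℕ), 0 < e ∧ 16 ≤ K₀ ∧ ∀ P : ℕ, ∀ {K θ : ℝ}, 8 ≤ K → 0 < θ → ∃ n₁ : ℕ,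
    ∀ Dd : Dat, K₀ ≤ Dd.K → ∀ {q₀ th Q0 g σ : ℝ}, 0 ≤ q₀ → 1 ≤ th → 0 ≤ Q0 → 1 ≤ g → 0 ≤ σ → σ ≤ c / 8 →
      2 * (th ^ 2 * g) ^ 4 ≤ (Dd.K : ℝ) ^ e → ∀ {sgm : ℝ}, 0 < sgm → ∃ Rmin : ℝ, 1 ≤ Rmin ∧ ∀ R : ℝ, Rmin ≤ R → ∃ Jmax : ℕ,
    ∀ (Pp : Pre) (t : Tm), t.q0 = q₀ → t.th = th → ∀ n₂ : ℕ, Fl99 μ s c θ K P n₂ t →
    (Evn Pp Dd μ s fun _ _ _ _ _ Γ G mt _ _ => Ng99 μ s c θ Γ G mt (8 * G.K ^ 2) n₁) →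
    ∀ {k ke D : ℕ} {Fs : Gm → Finset (ℕ → ℕ)}, (∀ G, id ∈ Fs G) → D2Q99 Pp Dd μ s t k ke D Fs (Jmax + 1) Q0 g σ →
    ∃ C2₀ B : ℕ, ∀ C2 : ℕ, C2₀ ≤ C2 → Evn Pp Dd μ s fun _ _ _ _ n Γ G mt τ0 E => 1 ≤ τ0 → ∃ bad : Set Env,
      law μ bad ≤ (B : ℝ≥0∞) * ENNReal.ofReal ((n : ℝ) ^ (-(5 : ℝ))) ∧
      ClU40 Γ G mt (Fs G) {(Γ.M : ℤ)} (G.M / k) t (C0P Pp) C2 D τ0 bad
        (cut86 G (G.M / ke) (fun u κ => Ou37.Ou μ s Γ G E R (sgm * R) (sgm * R) sgm 0 u κ)) := by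
  obtain ⟨e, K₀, he, hK₀, H⟩ := ou99 h0
  refine ⟨e, K₀, he, hK₀, fun P K θ hK hθ => ?_⟩
  obtain ⟨n₁, hn₁, H⟩ := H P hK hθ
  refine ⟨n₁, fun Dd hDK q₀ th Q0 g σ hq hth hQ hg hσ0 hσ hKe sgm hsg => ?_⟩
  obtain ⟨Rmin, hR1, H⟩ := H Dd.K (8 * Dd.K ^ 2) hDK (Nat.mul_pos (by norm_num) (Nat.pow_pos (by omega))) hq hth hQ hg hσ0 hσ hKe hsg
  refine ⟨Rmin, hR1, fun R hR => ?_⟩
  obtain ⟨Jmax, H⟩ := H R hR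
  refine ⟨Jmax, fun Pp t hq0 htth n₂ hFl hNg k ke D Fs hid hD2 => ?_⟩
  obtain ⟨C2₀, B, hD2⟩ := hD2
  refine ⟨max C2₀ (Jmax + 1), B, fun C2 hC2 => ?_⟩
  refine (((((hD2 C2 ((le_max_left _ _).trans hC2)).and hNg).and evn_geo).and evn_wok).and ((evn_T0 fun _ _ _ _ _ _ _ => max n₁ n₂).and
    (evn_M fun _ _ _ _ _ _ _ => Jmax + 1))).mono fun q η A lam n Γ G mt τ0 E h hτ => ?_
  obtain ⟨⟨⟨⟨h1, hgn⟩, hw, hE, hGK, -⟩, hW, -⟩, hT0, hM⟩ := h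
  obtain ⟨bad, hb, hcl⟩ := h1 hτ
  refine ⟨bad, hb, ?_⟩
  obtain ⟨⟨A₁, a₁, g₁, hF⟩, ⟨A₂, a₂, g₂, hF'⟩, hsub⟩ := hFl G ((le_max_right _ _).trans hT0)
  intro η hη ρ u Z a1 a2 a3 a4 a5 hue
  have hD2' := hcl η hη ρ u Z a1 a2 a3 a4 a5 hue
  have ho := (a5 id (hid G)).1
  rw [id] at ho
  obtain ⟨v0, v1, v2, iL, iC, iT, hL⟩ := ownL a3 a4
  have b1 := hL.v1m
  have b2 := hL.uv1
  have b3 : (gj Γ G mt).m = mt := rfl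
  have hC2' : Jmax + 1 ≤ C2 := (le_max_right _ _).trans hC2
  rw [← hGK] at H
  refine H (Γ := Γ) (G := G) (mt := mt) hgn rfl ((le_max_left _ _).trans hT0) hW hw hE hF hF' hsub (Sw := ∅) (E0 := 1) (Z := Z) (ρ := ρ) (u := u)
    (η := η) (Cn := t.Cn) (D' := mt + 1) (Ev := fun _ _ => Set.univ) (E3 := fun _ _ _ => Set.univ) (X := t.X G) a3 a4 ?_
    ⟨fun P a b Q e hs => absurd hs (by rintro ⟨r, hr, -⟩; exact absurd hr (Finset.notMem_empty _)),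
      fun P a b e Q e' hs => absurd hs (by rintro ⟨r, hr, -⟩; exact absurd hr (Finset.notMem_empty _))⟩ le_rfl (hτ.trans a1) hC2' (by omega)
    (fun f h1 h2 => hD2' f (by omega) (by omega))
  rw [← hq0, ← htth]
  exact ho

end

end Pool.Agent.W_7d29a1_C1.PrQ99
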