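import Pool.Agent.W_7d29a1_C1.FwT75
import Pool.Agent.W_7d29a1_C1.PotT86
import Pool.Agent.W_7d29a1_C1.StT78

/-!
MP_7d29a1_pr, attractor route [C1], TAME (helper75), part 4: THE CLAUSE `Fw` OF `hT` (in the letters of `StT78` of helper78, forms `ClS86`,
`cut86`), from three inputs at the unit `Tt = 8 K² T u`, row `rt78 = (rcc u κ).toNat + T u` of the cut `ct u ρ`:

* `SlF75` : every start `(k, y)`, `lo ≤ k ≤ ra`, ANY lateral position, is joined to this row by a chain of slabs of cost `Q`, and reaches the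
  sites straight above with the exponent `Q₁ gr (2P) (|lat - ctr| / wd Tt + Kg)`;
* `DT78` (helper78) : (D2) at this row; `OuT` at the radius `a + 2` with the slope `sgm` (PR of helper99).
**`fw_own75`** : together ⇒ `Fw Γ G a b (β EE (T u)) u κ` for `a ≥ a₀`; **`fwC75`** : clauses `ClS86` with `cut86`.
Order: `K₀ | P | n₁ | ratio K, Kg, Q, Q₁, Q₂, σ, β, b | a₀ | a | everything else (mt, kn, C0, C2, D, e, ..)`.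
-/

set_option autoImplicit false

namespace Pool.Agent.W_7d29a1_C1.FW75

open MeasureTheory ProbabilityTheory Filter Topology Finset
open Pool.Agent.W_7d29a1_F hiding Bw G
open Pool.Agent.W_7d29a1_h4g Pool.Agent.W_7d29a1_HS
open Pool.Agent.W_7d29a1_H hiding ex gg
open Pool.Agent.W_7d29a1_C1.K91 (wt wt_pos measurable_wt)
open Pool.Agent.W_7d29a1_C1.K91P
open Pool.Agent.W_7d29a1_C1.H60
open Pool.Agent.W_7d29a1_C1.H40 (ODW Cut Tk)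
open Pool.Agent.W_7d29a1_C1.G37 (Gm)
open Pool.Agent.W_7d29a1_C1.FarK89 (gr)
open Pool.Agent.W_7d29a1_C1.FarW89 (nk Slabs)
open Pool.Agent.W_7d29a1_C1.SF98
open Pool.Agent.W_7d29a1_C1.PW86
open Pool.Agent.W_7d29a1_C1.S71
open Pool.Agent.W_7d29a1_C1.Dep6
open Pool.Agent.W_7d29a1_C1.SD53 (Fw er Fw_mono)
open Pool.Agent.W_7d29a1_C1.Sy78 (rt78 ra_lt_rt78 DT78 bw_of_bh78)

noncomputable section

/-- **THE CHAINS OF SLABS OF ALL STARTS** of the rows `[lo, ra]` of `(u, κ)`, lower level straight up. -/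
def SlF75 (μ : Measure ℝ) (s c θ K Kg : ℝ) (P : ℕ) (Γ : Cx) (G : Gm) (Tt n₁ : ℕ) (Q Q₁ : ℝ) (u : ℕ) (κ : ℤ × ℤ) : Set Env :=
  {η | ∀ (k : ℕ) (y : ℤ), G.lo u κ ≤ (k : ℤ) → k ≤ G.ra u κ → ∃ (o : Pt) (r T N : ℕ → ℕ) (q : ℕ → ℝ) (bs : ℕ → Pt) (m₁ m₂ : ℕ),
    m₁ ≤ m₂ ∧ r m₁ = k ∧ r m₂ = rt78 G u κ ∧ |((o.2 : ℝ) - G.v * (o.1 : ℝ)) - G.ctr u κ| ≤ 1 ∧
    Slabs μ s c θ K Γ.h P η o r T N q bs m₁ m₂ Tt n₁ Q ∧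
    ∀ z : ℤ, |G.lat (rt78 G u κ, z) - G.lat (k, y)| ≤ 1 →
      Real.exp (-(Q₁ * gr (2 * P) (|G.lat (k, y) - G.ctr u κ| / wd μ s Tt + Kg) * EE μ s Tt)) ≤ nk μ s Γ.h η Γ.p Γ.M k (rt78 G u κ - k) y z}

variable {μ : Measure ℝ} {s : ℝ} [IsProbabilityMeasure μ] {c C : ℝ} {n₀ : ℕ}

/-- **ONE OWN SLAB, the numbers inserted** (`G.w u = wd (T u)`, heights `8 K² T u`). -/
theorem fw_own75 (h0 : In μ s c C n₀) : ∃ K₀ : ℕ, ∀ P : ℕ, ∃ n₁ : ℕ, 1 ≤ n₁ ∧ ∀ {Kr : ℕ} {Kg Q Q₁ Q₂ σ β b : ℝ}, 1 ≤ Kr → 0 ≤ Kg → 0 ≤ Q → 0 ≤ Q₁ →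
    0 ≤ β → 0 ≤ b → ∃ a₀ : ℝ, b < a₀ ∧ 2 ≤ a₀ ∧ ∀ a, a₀ ≤ a →
    ∀ {θ Kf : ℝ} {Γ : Cx} {G : Gm} {mt : ℕ} {sgm : ℝ}, G.K = Kr → 0 ≤ σ → σ ≤ c / 32 → 0 ≤ sgm → sgm ≤ 3 * c / (4096 * (Kr : ℝ) ^ 2) →
      Γ.s = s → G.v = sl μ s → 0 ≤ G.v → G.v ≤ 1 → (∀ u, G.w u = wd μ s (G.T u)) → K₀ ≤ 8 * G.K ^ 2 → n₁ ≤ G.T0 →
      (Γ.N : ℝ) + 1 ≤ Real.exp (EE μ s G.T0) → ∀ (ρ : XS Γ G mt) (u : ℕ), 1 ≤ u → u ≤ mt →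
      SlF75 μ s c θ Kf Kg P Γ G (8 * G.K ^ 2 * G.T u) n₁ Q Q₁ u (G.loc u ρ.1) ∩ (DT78 μ s Γ G (8 * G.K ^ 2 * G.T u) Q₂ σ u (G.loc u ρ.1) ∩
        Ou37.OuT μ s Γ G (fun u => EE μ s (G.T u)) (a + 2) (sgm * (a + 2)) 0 u (G.loc u ρ.1)) ⊆
        Fw Γ G a b (β * EE μ s (G.T u)) u (G.loc u ρ.1) := by
  obtain ⟨K₀, n₂, -, hn₂, hsc⟩ := Pool.Agent.W_7d29a1_C1.DD84.scale_num h0
  refine ⟨K₀, fun P => ?_⟩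
  obtain ⟨n₁, hn₁, H⟩ := fwT75 h0 P
  obtain ⟨n₃, hn₃⟩ := eventually_atTop.1 ((wd_tendsto h0).eventually_ge_atTop 1)
  refine ⟨max n₁ (max n₂ n₃), hn₁.trans (le_max_left _ _), ?_⟩
  intro Kr Kg Q Q₁ Q₂ σ β b hKr hKg hQ hQ₁ hβ hb
  have hKR : (1 : ℝ) ≤ (Kr : ℝ) := by exact_mod_cast hKr
  have hcw : 1 ≤ 16 * (Kr : ℝ) ^ 2 := by nlinarith
  obtain ⟨a₀, ha1, ha2, -, H1⟩ := H (Q₂ := Q₂ + σ) (β := β) hKg hcw hQ hQ₁ hb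
  refine ⟨a₀, ha1, ha2, ?_⟩
  intro a ha θ Kf Γ G mt sgm hGK hσ0 hσ hsg0 hsg hs hv hv0 hv1 hw hK hT0 hN ρ u hu hum
  rintro η ⟨hS, hD, hP⟩
  have hT0u : G.T0 ≤ G.T u := by
    have h1 := G.T_mono (Nat.zero_le u)
    have h2 : G.T 0 = G.T0 := by
      unfold Gm.T Tk
      simp
    omega
  have hK8 := G.hK
  have hTt : G.T u ≤ 8 * G.K ^ 2 * G.T u := Nat.le_mul_of_pos_left _ (by positivity)
  have hTu2 : n₂ ≤ G.T u := ((le_max_left _ _).trans (le_max_right _ _)).trans (hT0.trans hT0u)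
  have hTu3 : n₃ ≤ G.T u := ((le_max_right _ _).trans (le_max_right _ _)).trans (hT0.trans hT0u)
  have hT1 := G.T_pos u
  have h1 := (hsc (G.T u) (8 * G.K ^ 2 * G.T u) hTu2 (Nat.mul_le_mul_right _ hK)).1
  have h2 := Pool.Agent.W_7d29a1_C1.U16.wd_le h0 hT1 hTt
  have hTR : (0 : ℝ) < G.T u := by exact_mod_cast hT1
  have e1 : 2 * (((8 * G.K ^ 2 * G.T u : ℕ) : ℝ) / (G.T u : ℝ)) * wd μ s (G.T u) = 16 * (Kr : ℝ) ^ 2 * wd μ s (G.T u) := by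
    rw [hGK]
    push_cast
    field_simp
    ring
  rw [e1] at h2
  have hw1 : 1 ≤ wd μ s (G.T u) := hn₃ _ hTu3
  have hwT1 : 1 ≤ wd μ s (8 * G.K ^ 2 * G.T u) := hw1.trans h1
  have hwT0 : 0 < wd μ s (8 * G.K ^ 2 * G.T u) := by linarith
  have hrow := row_up ρ
  have hr1 : (G.rcc u (G.loc u ρ.1) : ℤ) ≤ (ρ.1.1 : ℤ) + G.T (u - 2) := by
    have g1 := G.lo_le u ρ.1
    have g2 := G.rcc_eq u (G.loc u ρ.1)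
    omega
  have hr2 := G.T_mono (show u - 2 ≤ mt by omega)
  have hr3 := G.T_mono hum
  have hE0 := EE_pos (μ := μ) (s := s) (8 * G.K ^ 2 * G.T u)
  obtain ⟨κ, hκ⟩ : ∃ κ, κ = G.loc u ρ.1 := ⟨_, rfl⟩
  rw [← hκ] at hS hD hP hr1 ⊢
  obtain ⟨z₀, hz₀⟩ : ∃ z₀ : ℤ, |G.lat (rt78 G u κ, z₀) - G.ctr u κ| ≤ 1 := by
    refine ⟨⌊G.ctr u κ + G.v * (rt78 G u κ : ℝ)⌋, ?_⟩
    have f1 := Int.floor_le (G.ctr u κ + G.v * (rt78 G u κ : ℝ))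
    have f2 := Int.lt_floor_add_one (G.ctr u κ + G.v * (rt78 G u κ : ℝ))
    show |((⌊G.ctr u κ + G.v * (rt78 G u κ : ℝ)⌋ : ℝ) - G.v * (rt78 G u κ : ℝ)) - G.ctr u κ| ≤ 1
    rw [abs_le]
    constructor <;> linarith
  have hrt : rt78 G u κ ≤ G.re u κ := by
    unfold rt78 Gm.re
    omega
  have hrN : rt78 G u κ ≤ Γ.N := by
    unfold rt78
    omega
  refine Fw_mono (mul_le_mul_of_nonneg_left (EE_mono hTt) hβ) ?_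
  refine H1 a ha (θ := θ) (K := Kf) (r₂ := rt78 G u κ) (E := fun u => EE μ s (G.T u)) (σ := σ) (sgm := sgm) (z₀ := z₀) hs hv hv0 hv1
    (hN.trans (Real.exp_le_exp.2 (EE_mono (hT0u.trans hTt)))) ?_ ?_ ?_ (EE_mono hTt) hsg0 ?_ hσ0 hσ (ra_lt_rt78 hu κ).le hrt hrN (hz₀.trans hwT1)
    (fun v => ?_) hP (fun k y g1 g2 _ _ => ?_)
  · rw [hw u]; exact h1
  · rw [hw u]; exact h2
  · rw [hw u]; exact hw1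
  · refine hsg.trans (le_of_eq ?_)
    ring
  · have g1 := bw_of_bh78 (hD v z₀ hz₀)
    refine g1.trans (mul_le_mul_of_nonneg_right (Real.exp_le_exp.2 ?_) ?_)
    · have g2 : |G.lat (rt78 G u κ, v) - G.ctr u κ| ≤ |G.lat (rt78 G u κ, v) - G.lat (rt78 G u κ, z₀)| + 1 := by
        have e1 : G.lat (rt78 G u κ, v) - G.ctr u κ = (G.lat (rt78 G u κ, v) - G.lat (rt78 G u κ, z₀)) + (G.lat (rt78 G u κ, z₀) - G.ctr u κ) := by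
          ring
        rw [e1]
        exact (abs_add_le _ _).trans (by linarith)
      have g3 : σ * |G.lat (rt78 G u κ, v) - G.ctr u κ| / wd μ s (8 * G.K ^ 2 * G.T u) ≤
          σ / wd μ s (8 * G.K ^ 2 * G.T u) * |G.lat (rt78 G u κ, v) - G.lat (rt78 G u κ, z₀)| + σ := by
        rw [div_mul_eq_mul_div, div_add' _ _ _ hwT0.ne']
        refine div_le_div_of_nonneg_right ?_ hwT0.le
        have f1 := mul_le_mul_of_nonneg_left g2 hσ0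
        have f2 := mul_le_mul_of_nonneg_left hwT1 hσ0
        linarith
      have g4 := mul_le_mul_of_nonneg_right g3 hE0.le
      have e2 : σ * (EE μ s (8 * G.K ^ 2 * G.T u) / wd μ s (8 * G.K ^ 2 * G.T u)) * |G.lat (rt78 G u κ, v) - G.lat (rt78 G u κ, z₀)| =
          σ / wd μ s (8 * G.K ^ 2 * G.T u) * |G.lat (rt78 G u κ, v) - G.lat (rt78 G u κ, z₀)| * EE μ s (8 * G.K ^ 2 * G.T u) := by ring
      rw [e2]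
      linarith
    · exact (div_pos (bw_pos (wt_pos η) Γ.p_pos _ _ _) (wt_pos _ _ _)).le
  · have g3 : k ≤ G.ra u κ := (g2.trans_le (min_le_left _ _)).le
    obtain ⟨o, r, T, N, q, bs, m₁, m₂, f1, f2, f3, f4, S, f5⟩ := hS k y g1 g3
    exact ⟨o, r, T, N, q, bs, m₁, m₂, f1, f2.le, f3, f4,
      { S with
        Tt1 := (le_max_left _ _).trans S.Tt1
        T1 := fun u hu hub => (le_max_left _ _).trans (S.T1 u hu hub) }, f5⟩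

/-- **THE CLAUSE `Fw`.** -/
theorem fwC75 (h0 : In μ s c C n₀) : ∃ K₀ : ℕ, ∀ P : ℕ, ∃ n₁ : ℕ, 1 ≤ n₁ ∧ ∀ {Kr : ℕ} {Kg Q Q₁ Q₂ σ β b : ℝ}, 1 ≤ Kr → 0 ≤ Kg → 0 ≤ Q → 0 ≤ Q₁ →
    0 ≤ β → 0 ≤ b → ∃ a₀ : ℝ, b < a₀ ∧ 2 ≤ a₀ ∧ ∀ a, a₀ ≤ a →
    ∀ {θ Kf : ℝ} {Γ : Cx} {G : Gm} {mt : ℕ} {sgm : ℝ}, G.K = Kr → 0 ≤ σ → σ ≤ c / 32 → 0 ≤ sgm → sgm ≤ 3 * c / (4096 * (Kr : ℝ) ^ 2) →
      Γ.s = s → G.v = sl μ s → 0 ≤ G.v → G.v ≤ 1 → (∀ u, G.w u = wd μ s (G.T u)) → K₀ ≤ 8 * G.K ^ 2 → n₁ ≤ G.T0 → G.M ≤ mt →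
      (Γ.N : ℝ) + 1 ≤ Real.exp (EE μ s G.T0) →
      ∀ {Fs : Finset (ℕ → ℕ)} {Sw : Finset ℤ} {E0 : ℕ} {dL : Cut (ℤ × ℤ) → Cut (ℤ × ℤ) → Env → ℕ}
        {dN : Cut (ℤ × ℤ) → Cut (ℤ × ℤ) → Cut (ℤ × ℤ) → Env → ℕ} {scL : Cut (ℤ × ℤ) → Cut (ℤ × ℤ) → ℕ}
        {scN : Cut (ℤ × ℤ) → Cut (ℤ × ℤ) → Cut (ℤ × ℤ) → ℕ} {C0 : ℝ} {C2 D τ e : ℕ} {bS bD bP : Set Env}, 1 ≤ τ →
      ClS86 Γ G mt Fs Sw E0 dL dN scL scN C0 C2 D τ bS (cut86 G e fun u κ => SlF75 μ s c θ Kf Kg P Γ G (8 * G.K ^ 2 * G.T u) n₁ Q Q₁ u κ) →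
      ClS86 Γ G mt Fs Sw E0 dL dN scL scN C0 C2 D τ bD (cut86 G e fun u κ => DT78 μ s Γ G (8 * G.K ^ 2 * G.T u) Q₂ σ u κ) →
      ClS86 Γ G mt Fs Sw E0 dL dN scL scN C0 C2 D τ bP (cut86 G e fun u κ =>
        Ou37.OuT μ s Γ G (fun u => EE μ s (G.T u)) (a + 2) (sgm * (a + 2)) 0 u κ) →
      ClS86 Γ G mt Fs Sw E0 dL dN scL scN C0 C2 D τ (bS ∪ (bD ∪ bP)) (cut86 G e fun u κ => Fw Γ G a b (β * EE μ s (G.T u)) u κ) := by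
  obtain ⟨K₀, H⟩ := fw_own75 h0
  refine ⟨K₀, fun P => ?_⟩
  obtain ⟨n₁, hn₁, H⟩ := H P
  refine ⟨n₁, hn₁, ?_⟩
  intro Kr Kg Q Q₁ Q₂ σ β b hKr hKg hQ hQ₁ hβ hb
  obtain ⟨a₀, ha1, ha2, H1⟩ := H (Q₂ := Q₂) (σ := σ) hKr hKg hQ hQ₁ hβ hb
  refine ⟨a₀, ha1, ha2, ?_⟩
  intro a ha θ Kf Γ G mt sgm hGK hσ0 hσ hsg0 hsg hs hv hv0 hv1 hw hK hT0 hMm hN Fs Sw E0 dL dN scL scN C0 C2 D τ e bS bD bP hτ cS cD cP
    η hη ρ u Z a1 a2 a3 a4 a5 hue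
  exact H1 a ha (mt := mt) hGK hσ0 hσ hsg0 hsg hs hv hv0 hv1 hw hK hT0 hN ρ u (hτ.trans a1) (by omega)
    ⟨cS η (fun h => hη (Or.inl h)) ρ u Z a1 a2 a3 a4 a5 hue, cD η (fun h => hη (Or.inr (Or.inl h))) ρ u Z a1 a2 a3 a4 a5 hue,
      cP η (fun h => hη (Or.inr (Or.inr h))) ρ u Z a1 a2 a3 a4 a5 hue⟩

end

end Pool.Agent.W_7d29a1_C1.FW75
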