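import Pool.Agent.W_7d29a1_C1.TmO6
import Pool.Agent.W_7d29a1_C1.SwU40
import Pool.Agent.W_7d29a1_C1.StT78
import Pool.Agent.W_7d29a1_C1.FwC75
import Pool.Agent.W_7d29a1_C1.HpE39
import Pool.Agent.W_7d29a1_C1.WrO57
import Pool.Agent.W_7d29a1_C1.ArmE94

/-!
MP_7d29a1_pr, attractor route [C1], SEP + TAME: THE HALF `hT`, THE ORDER OF THE CONSTANTS. (helper43)

* `EvT43 μ s c N Φ` : `Φ T` for all constants `T : Tc6` of the depths which are chosen one after the other, each beyond a threshold which sees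
  only the earlier ones, and whose families are families of levels (`Tgg43`); `EvT43.and`, `.mono`; `EvH43` : the same with the data `Dd`, `ke`,
  `D`, `k`, `z` in front; **`EvH43.out`** : such constants exist (over helper6's `tmOk6`), with `Tm.Ok`.
* `ClV43` : a clause in the form of helper40 (`ClU40`), with the order `C2₀, B`.
* the leaves `SlQ43` (helper65), `SfQ43` (helper65), `D2Q43` (helper67), `OuQ43` (helper99); **`htQ43`** : the clauses of `Ou` (every radius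
  `R ≥ Rmin(sgm)`), `St`, `Fw` from the four leaves.
-/

set_option autoImplicit false

namespace Pool.Agent.W_7d29a1_C1.Ht43

open MeasureTheory ProbabilityTheory Finset Filter
open Pool.Agent.W_7d29a1_F Pool.Agent.W_7d29a1_h4g Pool.Agent.W_7d29a1_H Pool.Agent.W_7d29a1_HS
open Pool.Agent.W_7d29a1_C1.H60
open Pool.Agent.W_7d29a1_C1.H40
open Pool.Agent.W_7d29a1_C1.G37 (Gm Wok gmW)
open Pool.Agent.W_7d29a1_C1.SF98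
open Pool.Agent.W_7d29a1_C1.P25
open Pool.Agent.W_7d29a1_C1.N49
open Pool.Agent.W_7d29a1_C1.PW86
open Pool.Agent.W_7d29a1_C1.Dep6
open Pool.Agent.W_7d29a1_C1.Q49
open Pool.Agent.W_7d29a1_C1.Hp2
open Pool.Agent.W_7d29a1_C1.Hp39
open Pool.Agent.W_7d29a1_C1.H94 (Cs94)
open Pool.Agent.W_7d29a1_C1.Sy78 (rt78 DT78 SlT78)
open Pool.Agent.W_7d29a1_C1.FW75 (SlF75)
open scoped ENNReal

noncomputable section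

/-! ### Steps of a quantifier -/

section Steps

variable {φ ψ χ : ℝ → Prop} {φ' ψ' χ' : ℕ → Prop}

/-- A large number. -/
def Lr43 (φ : ℝ → Prop) : Prop := ∃ x₀ : ℝ, ∀ x : ℝ, x₀ ≤ x → φ x

/-- A large natural number. -/
def Ln43 (φ : ℕ → Prop) : Prop := ∃ x₀ : ℕ, ∀ x : ℕ, x₀ ≤ x → φ x

/-- A small positive number. -/
def Sr43 (φ : ℝ → Prop) : Prop := ∃ x₀ : ℝ, 0 < x₀ ∧ ∀ x : ℝ, 0 < x → x ≤ x₀ → φ x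

/-- A number near to 1, larger than 1. -/
def Or43 (φ : ℝ → Prop) : Prop := ∃ x₀ : ℝ, 1 < x₀ ∧ ∀ x : ℝ, 1 < x → x ≤ x₀ → φ x

theorem Lr43.and2 (h : Lr43 φ) (h' : Lr43 ψ) (H : ∀ x, φ x → ψ x → χ x) : Lr43 χ := by
  obtain ⟨a, h⟩ := h
  obtain ⟨b, h'⟩ := h'
  exact ⟨max a b, fun x hx => H x (h x ((le_max_left _ _).trans hx)) (h' x ((le_max_right _ _).trans hx))⟩

theorem Ln43.and2 (h : Ln43 φ') (h' : Ln43 ψ') (H : ∀ x, φ' x → ψ' x → χ' x) : Ln43 χ' := by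
  obtain ⟨a, h⟩ := h
  obtain ⟨b, h'⟩ := h'
  exact ⟨max a b, fun x hx => H x (h x ((le_max_left _ _).trans hx)) (h' x ((le_max_right _ _).trans hx))⟩

theorem Sr43.and2 (h : Sr43 φ) (h' : Sr43 ψ) (H : ∀ x, φ x → ψ x → χ x) : Sr43 χ := by
  obtain ⟨a, ha, h⟩ := h
  obtain ⟨b, hb, h'⟩ := h'
  exact ⟨min a b, lt_min ha hb, fun x hx hx' => H x (h x hx (hx'.trans (min_le_left _ _))) (h' x hx (hx'.trans (min_le_right _ _)))⟩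

theorem Or43.and2 (h : Or43 φ) (h' : Or43 ψ) (H : ∀ x, φ x → ψ x → χ x) : Or43 χ := by
  obtain ⟨a, ha, h⟩ := h
  obtain ⟨b, hb, h'⟩ := h'
  exact ⟨min a b, lt_min ha hb, fun x hx hx' => H x (h x hx (hx'.trans (min_le_left _ _))) (h' x hx (hx'.trans (min_le_right _ _)))⟩

theorem Lr43.mono (h : Lr43 φ) (H : ∀ x, φ x → χ x) : Lr43 χ := ⟨h.choose, fun x hx => H x (h.choose_spec x hx)⟩

theorem Ln43.mono (h : Ln43 φ') (H : ∀ x, φ' x → χ' x) : Ln43 χ' := ⟨h.choose, fun x hx => H x (h.choose_spec x hx)⟩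

theorem Sr43.mono (h : Sr43 φ) (H : ∀ x, 0 < x → φ x → χ x) : Sr43 χ :=
  ⟨h.choose, h.choose_spec.1, fun x hx hx' => H x hx (h.choose_spec.2 x hx hx')⟩

theorem Or43.mono (h : Or43 φ) (H : ∀ x, 1 < x → φ x → χ x) : Or43 χ :=
  ⟨h.choose, h.choose_spec.1, fun x hx hx' => H x hx (h.choose_spec.2 x hx hx')⟩

/-- A value beyond the threshold and beyond `y`. -/
theorem Lr43.get (h : Lr43 φ) (y : ℝ) : ∃ x, y ≤ x ∧ φ x := by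
  obtain ⟨a, h⟩ := h
  exact ⟨max a y, le_max_right _ _, h _ (le_max_left _ _)⟩

theorem Ln43.get (h : Ln43 φ') (y : ℕ) : ∃ x, y ≤ x ∧ φ' x := by
  obtain ⟨a, h⟩ := h
  exact ⟨max a y, le_max_right _ _, h _ (le_max_left _ _)⟩

theorem Sr43.get (h : Sr43 φ) {y : ℝ} (hy : 0 < y) : ∃ x, 0 < x ∧ x ≤ y ∧ φ x := by
  obtain ⟨a, ha, h⟩ := h
  exact ⟨min a y, lt_min ha hy, min_le_right _ _, h _ (lt_min ha hy) (min_le_left _ _)⟩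

theorem Or43.get (h : Or43 φ) : ∃ x, 1 < x ∧ φ x := by
  obtain ⟨a, ha, h⟩ := h
  exact ⟨a, ha, h _ ha le_rfl⟩

end Steps

/-! ### The order of the constants of the depths -/

/-- **THE CONSTANTS OF THE NODES** which do not see the scales. -/
structure Nc43 where
  c₀ : ℝ
  δ₁ : ℝ
  c₁ : ℝ
  A : ℝ
  a : ℝ
  g : ℝ
  θ : ℝ
  K0 : ℕ

/-- The node inequality holds with these constants. -/
abbrev Nc43.Cs (N : Nc43) (μ : Measure ℝ) (s : ℝ) (Kb n₃ : ℕ) (Y₁ : ℝ) : Prop :=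
  Cs94 μ s N.c₀ N.δ₁ N.c₁ N.A N.a N.g N.θ Y₁ N.K0 Kb n₃

/-- For every ratio of the heights. -/
def Nc43.Ok (N : Nc43) (μ : Measure ℝ) (s : ℝ) : Prop := ∀ Kb : ℕ, ∃ (n₃ : ℕ) (Y₁ : ℝ), N.Cs μ s Kb n₃ Y₁

/-- The families are families of levels. -/
def Tgg43 (μ : Measure ℝ) (s c : ℝ) (T : Tc6) : Prop :=
  ∃ (A a g A' a' g' : ℝ) (n₁ : ℕ), ∀ G : Gm, n₁ ≤ G.T0 → Tg6 μ s c G T A a g A' a' g'

/-- **THE ORDER OF THE CONSTANTS OF THE DEPTHS**: window `K` (large), length `θ`, exponent `e` (small); power `P`, rows `j₁`; cone `δ`; steep levels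
`B₂`, `B₁`, `Lm` (large); ratio `Th` of the levels (near to 1), exponent `es` (small), `n₁s`; nodes: `Kb` (large), `n₃`, `Y₁`; `Cn`, `R`, `Y`, the
first level `q₀` (large). -/
def EvT43 (μ : Measure ℝ) (s c : ℝ) (N : Nc43) (Φ : Tc6 → Prop) : Prop :=
  Lr43 fun K => Sr43 fun θ => Sr43 fun e => ∀ P : ℕ, 1 ≤ P → Ln43 fun j₁ => ∀ δ : ℝ, 0 < δ → δ ≤ θ * sl μ s → δ ≤ θ * (1 - sl μ s) →
  Lr43 fun B₂ => Lr43 fun B₁ => Lr43 fun Lm => Or43 fun Th => Sr43 fun es => ∀ n₁s : ℕ,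
  Ln43 fun Kb => ∀ (n₃ : ℕ) (Y₁ : ℝ), N.Cs μ s Kb n₃ Y₁ →
  Ln43 fun Cn => Ln43 fun R => Lr43 fun Y => Lr43 fun q₀ =>
    Tgg43 μ s c ⟨θ, K, e, P, j₁, B₁, B₂, δ, θ, Lm, es, n₁s, N.c₀, N.δ₁, N.θ, Y, Kb, n₃, R, Cn, q₀, Th⟩ →
      Φ ⟨θ, K, e, P, j₁, B₁, B₂, δ, θ, Lm, es, n₁s, N.c₀, N.δ₁, N.θ, Y, Kb, n₃, R, Cn, q₀, Th⟩

section EvT

variable {μ : Measure ℝ} {s c : ℝ} {N : Nc43} {Φ Ψ Χ : Tc6 → Prop}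

theorem EvT43.and2 (h : EvT43 μ s c N Φ) (h' : EvT43 μ s c N Ψ) (H : ∀ T, Φ T → Ψ T → Χ T) : EvT43 μ s c N Χ :=
  Lr43.and2 h h' fun K h h' => h.and2 h' fun θ h h' => h.and2 h' fun e h h' P hP => (h P hP).and2 (h' P hP) fun j₁ h h' δ d0 d1 d2 =>
  (h δ d0 d1 d2).and2 (h' δ d0 d1 d2) fun B₂ h h' => h.and2 h' fun B₁ h h' => h.and2 h' fun Lm h h' => h.and2 h' fun Th h h' =>
  h.and2 h' fun es h h' n₁s => (h n₁s).and2 (h' n₁s) fun Kb h h' n₃ Y₁ hC => (h n₃ Y₁ hC).and2 (h' n₃ Y₁ hC) fun Cn h h' =>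
  h.and2 h' fun R h h' => h.and2 h' fun Y h h' => h.and2 h' fun q₀ h h' ht => H _ (h ht) (h' ht)

theorem EvT43.and (h : EvT43 μ s c N Φ) (h' : EvT43 μ s c N Ψ) : EvT43 μ s c N fun T => Φ T ∧ Ψ T := h.and2 h' fun _ h1 h2 => ⟨h1, h2⟩

theorem EvT43.mono (h : EvT43 μ s c N Φ) (H : ∀ T, Φ T → Ψ T) : EvT43 μ s c N Ψ := h.and2 h fun T h1 _ => H T h1

/-- **SUCH CONSTANTS EXIST** (helper6's `tmOk6`). -/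
theorem EvT43.out [IsProbabilityMeasure μ] {C : ℝ} {n₀ : ℕ} (h0 : In μ s c C n₀) (hN : N.Ok μ s) (h : EvT43 μ s c N Φ) {z : ℕ}
    (hz : 1 ≤ z) : ∃ T : Tc6, Φ T ∧ Tgg43 μ s c T ∧ ∃ (AA a g : ℝ) (n₁ : ℕ), (tm6 μ s c T).Ok μ z AA a g n₁ := by
  obtain ⟨Dst, hD, H⟩ := tmOk6 h0
  obtain ⟨K, hK, h⟩ := h.get 1
  obtain ⟨θ, hθ, hθ1, h⟩ := h.get (y := 1) one_pos
  obtain ⟨e, he, -, h⟩ := h.get (y := 1) one_pos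
  classical
  obtain ⟨j, hj⟩ : ∃ j : ℕ → ℕ, ∀ P, 1 ≤ P → ∀ j₁, j P ≤ j₁ → ∀ δ : ℝ, 0 < δ → δ ≤ θ * sl μ s → δ ≤ θ * (1 - sl μ s) →
      Lr43 fun B₂ => Lr43 fun B₁ => Lr43 fun Lm => Or43 fun Th => Sr43 fun es => ∀ n₁s : ℕ,
      Ln43 fun Kb => ∀ (n₃ : ℕ) (Y₁ : ℝ), N.Cs μ s Kb n₃ Y₁ →
      Ln43 fun Cn => Ln43 fun R => Lr43 fun Y => Lr43 fun q₀ =>
        Tgg43 μ s c ⟨θ, K, e, P, j₁, B₁, B₂, δ, θ, Lm, es, n₁s, N.c₀, N.δ₁, N.θ, Y, Kb, n₃, R, Cn, q₀, Th⟩ →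
          Φ ⟨θ, K, e, P, j₁, B₁, B₂, δ, θ, Lm, es, n₁s, N.c₀, N.δ₁, N.θ, Y, Kb, n₃, R, Cn, q₀, Th⟩ := by
    have h1 : ∀ P : ℕ, ∃ j : ℕ, 1 ≤ P → ∀ j₁, j ≤ j₁ → ∀ δ : ℝ, 0 < δ → δ ≤ θ * sl μ s → δ ≤ θ * (1 - sl μ s) →
      Lr43 fun B₂ => Lr43 fun B₁ => Lr43 fun Lm => Or43 fun Th => Sr43 fun es => ∀ n₁s : ℕ,
      Ln43 fun Kb => ∀ (n₃ : ℕ) (Y₁ : ℝ), N.Cs μ s Kb n₃ Y₁ →
      Ln43 fun Cn => Ln43 fun R => Lr43 fun Y => Lr43 fun q₀ =>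
        Tgg43 μ s c ⟨θ, K, e, P, j₁, B₁, B₂, δ, θ, Lm, es, n₁s, N.c₀, N.δ₁, N.θ, Y, Kb, n₃, R, Cn, q₀, Th⟩ →
          Φ ⟨θ, K, e, P, j₁, B₁, B₂, δ, θ, Lm, es, n₁s, N.c₀, N.δ₁, N.θ, Y, Kb, n₃, R, Cn, q₀, Th⟩ := fun P => by
      by_cases hP : 1 ≤ P
      · obtain ⟨j, hj⟩ := h P hP
        exact ⟨j, fun _ => hj⟩
      · exact ⟨0, fun h => absurd h hP⟩
    choose j hj using h1
    exact ⟨j, hj⟩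
  obtain ⟨P, A, a, g, n₁, j₁, hP, hA, ha, hg, hg1, hn, hj1, hj2, H⟩ := H (lt_of_lt_of_le one_pos hK) hθ hθ1 he fun P => 2 ^ j P
  have hjj : j P ≤ j₁ := (Nat.pow_le_pow_iff_right (by norm_num)).1 hj2
  obtain ⟨δ, hδ, hδ1, hδ2, H⟩ := H hθ
  have h := hj P hP j₁ hjj δ hδ hδ1 hδ2
  obtain ⟨B₂, hB₂, h⟩ := h.get (max 2 Dst)
  obtain ⟨B₁, hB₁, h⟩ := h.get 1
  obtain ⟨Lm, hLm, h⟩ := h.get 1
  obtain ⟨Th, hTh, h⟩ := h.get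
  obtain ⟨es, hes, -, h⟩ := h.get (y := 1) one_pos
  obtain ⟨n₁s, A', a', g', hns, hA', ha', hg', H⟩ := H hB₁ ((le_max_left _ _).trans hB₂) ((le_max_right _ _).trans hB₂) hLm hes
  obtain ⟨Kb, -, h⟩ := (h n₁s).get 0
  obtain ⟨n₃, Y₁, hC⟩ := hN Kb
  obtain ⟨Cn, -, h⟩ := (h n₃ Y₁ hC).get 0
  obtain ⟨R, hR, h⟩ := h.get 1
  obtain ⟨Y₂, -, -, H⟩ := H hC hR hz Cn
  obtain ⟨Y, hY, h⟩ := h.get Y₂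
  obtain ⟨Y₀, -, H⟩ := H hTh
  obtain ⟨q₀, hq, h⟩ := h.get Y₀
  obtain ⟨k1, k2⟩ := H ⟨θ, K, e, P, j₁, B₁, B₂, δ, θ, Lm, es, n₁s, N.c₀, N.δ₁, N.θ, Y, Kb, n₃, R, Cn, q₀, Th⟩ rfl rfl rfl rfl rfl rfl rfl
    rfl rfl rfl rfl rfl rfl rfl rfl rfl rfl rfl rfl hY rfl hq
  exact ⟨_, h ⟨A, a, g, A', a', g', n₁, k2⟩, ⟨A, a, g, A', a', g', n₁, k2⟩, _, _, _, _, k1⟩

end EvT

/-- The properties of the data and of the constants of the depths. -/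
abbrev Psi43 : Type := (Dd : Dat) → (ke D k z : ℕ) → (T : Tc6) → Prop

/-- **THE WHOLE ORDER**: nodes, `Dd.K`; `ke`; `D`, `k`; `z`; the constants of the depths. -/
def EvH43 (μ : Measure ℝ) (s c a Cg : ℝ) (Φ : Psi43) : Prop :=
  ∀ N : Nc43, N.Ok μ s → ∃ K₀ : ℕ, ∀ Dd : Dat, K₀ ≤ Dd.K → Dd.κ = (Dd.K : ℝ) ^ a → Dd.Cg = Cg → ∀ ke : ℕ, 1 ≤ ke → ∀ D k : ℕ,
    1 ≤ D → 1 ≤ k → Ln43 fun z => EvT43 μ s c N (Φ Dd ke D k z)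

section EvH

variable {μ : Measure ℝ} {s c a Cg : ℝ} {Φ Ψ Χ : Psi43}

theorem EvH43.and2 (h : EvH43 μ s c a Cg Φ) (h' : EvH43 μ s c a Cg Ψ)
    (H : ∀ (Dd : Dat) (ke D k z : ℕ) (T : Tc6), 1 ≤ ke → 1 ≤ D → 1 ≤ k → Φ Dd ke D k z T → Ψ Dd ke D k z T → Χ Dd ke D k z T) :
    EvH43 μ s c a Cg Χ := fun N hN => by
  obtain ⟨K₀, h⟩ := h N hN
  obtain ⟨K₁, h'⟩ := h' N hN
  refine ⟨max K₀ K₁, fun Dd hK e1 e2 ke hke D k hD hk => ?_⟩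
  exact (h Dd ((le_max_left _ _).trans hK) e1 e2 ke hke D k hD hk).and2 (h' Dd ((le_max_right _ _).trans hK) e1 e2 ke hke D k hD hk)
    fun z h1 h2 => h1.and2 h2 fun T h3 h4 => H Dd ke D k z T hke hD hk h3 h4

theorem EvH43.mono (h : EvH43 μ s c a Cg Φ)
    (H : ∀ (Dd : Dat) (ke D k z : ℕ) (T : Tc6), 1 ≤ ke → 1 ≤ D → 1 ≤ k → Φ Dd ke D k z T → Ψ Dd ke D k z T) : EvH43 μ s c a Cg Ψ :=
  h.and2 h fun Dd ke D k z T h1 h2 h3 h4 _ => H Dd ke D k z T h1 h2 h3 h4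

/-- A threshold of `Dd.K`. -/
theorem evH43_K (K₀ : ℕ) : EvH43 μ s c a Cg fun Dd _ _ _ _ _ => K₀ ≤ Dd.K := fun N _ =>
  ⟨K₀, fun Dd hK _ _ ke _ D k _ _ => ⟨0, fun z _ => ⟨0, fun K _ => ⟨1, one_pos, fun θ _ _ => ⟨1, one_pos, fun e _ _ P _ => ⟨0, fun j₁ _ δ _ _ _ =>
    ⟨0, fun B₂ _ => ⟨0, fun B₁ _ => ⟨0, fun Lm _ => ⟨2, one_lt_two, fun Th _ _ => ⟨1, one_pos, fun es _ _ n₁s => ⟨0, fun Kb _ n₃ Y₁ _ =>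
    ⟨0, fun Cn _ => ⟨0, fun R _ => ⟨0, fun Y _ => ⟨0, fun q₀ _ _ => hK⟩⟩⟩⟩⟩⟩⟩⟩⟩⟩⟩⟩⟩⟩⟩⟩

/-- A threshold of `z`. -/
theorem evH43_z (f : Dat → ℕ → ℕ → ℕ → ℝ) : EvH43 μ s c a Cg fun Dd ke D k z _ => f Dd ke D k ≤ z := fun N _ =>
  ⟨0, fun Dd hK _ _ ke _ D k _ _ => ⟨⌈f Dd ke D k⌉₊, fun z hz => ⟨0, fun K _ => ⟨1, one_pos, fun θ _ _ => ⟨1, one_pos, fun e _ _ P _ =>
    ⟨0, fun j₁ _ δ _ _ _ => ⟨0, fun B₂ _ => ⟨0, fun B₁ _ => ⟨0, fun Lm _ => ⟨2, one_lt_two, fun Th _ _ => ⟨1, one_pos, fun es _ _ n₁s =>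
    ⟨0, fun Kb _ n₃ Y₁ _ => ⟨0, fun Cn _ => ⟨0, fun R _ => ⟨0, fun Y _ => ⟨0, fun q₀ _ _ => Nat.ceil_le.1 hz⟩⟩⟩⟩⟩⟩⟩⟩⟩⟩⟩⟩⟩⟩⟩⟩

/-- **OUT OF `EvH43`.** -/
theorem EvH43.out [IsProbabilityMeasure μ] {C : ℝ} {n₀ : ℕ} (h0 : In μ s c C n₀) (h : EvH43 μ s c a Cg Φ) :
    ∃ K₀ : ℕ, ∀ Dd : Dat, K₀ ≤ Dd.K → Dd.κ = (Dd.K : ℝ) ^ a → Dd.Cg = Cg → ∀ ke : ℕ, 1 ≤ ke → ∀ D k : ℕ, 1 ≤ D → 1 ≤ k →
      ∃ z₀ : ℕ, ∀ z : ℕ, z₀ ≤ z → 1 ≤ z → ∃ T : Tc6, Φ Dd ke D k z T ∧ Tgg43 μ s c T ∧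
        ∃ (AA a g : ℝ) (n₁ : ℕ), (tm6 μ s c T).Ok μ z AA a g n₁ := by
  obtain ⟨c₀, δ₁, c₁, A, a₁, g, θ, K0, hN⟩ := Pool.Agent.W_7d29a1_C1.H94.cs94_all h0.em h0.nd s
  obtain ⟨K₀, h⟩ := h ⟨c₀, δ₁, c₁, A, a₁, g, θ, K0⟩ hN
  refine ⟨K₀, fun Dd hK e1 e2 ke hke D k hD hk => ?_⟩
  obtain ⟨z₀, h⟩ := h Dd hK e1 e2 ke hke D k hD hk
  exact ⟨z₀, fun z hz hz1 => EvT43.out (N := ⟨c₀, δ₁, c₁, A, a₁, g, θ, K0⟩) h0 hN (h z hz) hz1⟩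

end EvH

/-! ### Clauses -/

/-- **A CLAUSE** in helper40's form (no layer, no node felt at `u`), with the order of the constants. -/
def ClV43 (P : Pre) (Dd : Dat) (μ : Measure ℝ) (s : ℝ) (t : Tm) (k D : ℕ) (X : Cx → Gm → (ℕ → ℝ) → ℕ → ℤ × ℤ → Set Env) : Prop :=
  ∃ C2₀ B : ℕ, ∀ C2 : ℕ, C2₀ ≤ C2 → Evn P Dd μ s fun _ _ _ _ n Γ G mt τ0 E => 1 ≤ τ0 → ∃ bad : Set Env,
    law μ bad ≤ (B : ℝ≥0∞) * ENNReal.ofReal ((n : ℝ) ^ (-(5 : ℝ))) ∧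
    ClU40 Γ G mt {id} {(Γ.M : ℤ)} (G.M / k) t (C0P P) C2 D τ0 bad (X Γ G E)

section ClV

variable {P : Pre} {Dd : Dat} {μ : Measure ℝ} {s : ℝ} {t : Tm} {k D : ℕ} {X Y Z : Cx → Gm → (ℕ → ℝ) → ℕ → ℤ × ℤ → Set Env}

/-- Two clauses give a third, pointwise at the own cells. -/
theorem ClV43.and2 (h : ClV43 P Dd μ s t k D X) (h' : ClV43 P Dd μ s t k D Y)
    (hX : Evn P Dd μ s fun _ _ _ _ _ Γ G mt τ0 E => 1 ≤ τ0 → ∀ (ρ : XS Γ G mt) (u : ℕ), τ0 ≤ u → u < G.M →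
      X Γ G E u (G.loc u ρ.1) ∩ Y Γ G E u (G.loc u ρ.1) ⊆ Z Γ G E u (G.loc u ρ.1)) : ClV43 P Dd μ s t k D Z := by
  obtain ⟨C2₀, B, h⟩ := h
  obtain ⟨C2₁, B', h'⟩ := h'
  refine ⟨max C2₀ C2₁, B + B', fun C2 hC => (((h C2 (le_trans (le_max_left _ _) hC)).and (h' C2 (le_trans (le_max_right _ _) hC))).and
    hX).mono fun q η A lam n Γ G mt τ0 E h1 hτ => ?_⟩
  obtain ⟨bad, hb, hc⟩ := h1.1.1 hτ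
  obtain ⟨bad', hb', hc'⟩ := h1.1.2 hτ
  refine ⟨bad ∪ bad', ?_, fun ω hω ρ u W a1 a2 a3 a4 a5 => ?_⟩
  · rw [Nat.cast_add, add_mul]
    exact (measure_union_le _ _).trans (add_le_add hb hb')
  · exact h1.2 hτ ρ u a1 a2 ⟨hc ω (fun h => hω (Or.inl h)) ρ u W a1 a2 a3 a4 a5, hc' ω (fun h => hω (Or.inr h)) ρ u W a1 a2 a3 a4 a5⟩

theorem ClV43.inter (h : ClV43 P Dd μ s t k D X) (h' : ClV43 P Dd μ s t k D Y) :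
    ClV43 P Dd μ s t k D fun Γ G E u κ => X Γ G E u κ ∩ Y Γ G E u κ :=
  h.and2 h' (Evn.of_all fun _ _ _ _ _ _ _ _ _ _ _ _ _ _ _ _ _ _ _ _ _ _ _ _ _ _ _ _ _ _ _ _ _ _ => subset_rfl)

theorem ClV43.mono (h : ClV43 P Dd μ s t k D X) (hX : ∀ Γ G E u κ, X Γ G E u κ ⊆ Y Γ G E u κ) : ClV43 P Dd μ s t k D Y :=
  h.and2 h (Evn.of_all fun _ _ _ _ _ _ _ _ _ _ _ _ _ _ _ _ _ _ _ _ _ _ _ _ _ _ _ _ _ _ _ _ _ _ => fun _ h1 => hX _ _ _ _ _ h1.1)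

/-- **The clause of `HpQ2`.** -/
theorem ClV43.toQ [IsProbabilityMeasure μ] {z n₁ : ℕ} {AA a gg : ℝ} (hk : 1 ≤ k) (hz : Real.exp (51 * k / Dd.kap) ≤ z)
    (ht : t.Ok μ z AA a gg n₁) (h : ClV43 P Dd μ s t k D X) : ClQ P Dd μ s t k D (fun _ => {id}) X := clQ_of_U40 hk hz ht h

end ClV

/-- The clause of the family `X` for the canonical depths, the scales close to the last one are not asked. -/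
abbrev Cl43 (μ : Measure ℝ) (s c : ℝ) (Dd : Dat) (ke D k : ℕ) (T : Tc6) (P : Pre) (X : Cx → Gm → (ℕ → ℝ) → ℕ → ℤ × ℤ → Set Env) : Prop :=
  ClV43 P Dd μ s (tm6 μ s c T) k D fun Γ G E => cut86 G (G.M / ke) (X Γ G E)

/-! ### The leaves -/

section Leaves

variable (μ : Measure ℝ) [IsProbabilityMeasure μ] (s c a Cg : ℝ)

/-- **(SlQ) THE CHAINS OF SLABS OF THE BOX** `aS` (helper65, helper63). -/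
def SlQ43 (aS : ℝ) : Prop :=
  EvH43 μ s c a Cg fun Dd ke D k _ T => ∃ Q Q₁ : ℝ, 0 ≤ Q ∧ 0 ≤ Q₁ ∧ ∀ (n₁ : ℕ) (P : Pre), Cl43 μ s c Dd ke D k T P fun Γ G _ u κ =>
    SlT78 μ s c T.θ (T.K - 2) T.P Γ G aS (8 * G.K ^ 2 * G.T u) n₁ Q Q₁ u κ

/-- **(SfQ) THE CHAINS OF SLABS OF ALL STARTS** (helper65, helper63). -/
def SfQ43 : Prop :=
  EvH43 μ s c a Cg fun Dd ke D k _ T => ∃ Kg Q Q₁ : ℝ, 0 ≤ Kg ∧ 0 ≤ Q ∧ 0 ≤ Q₁ ∧ ∀ (n₁ : ℕ) (P : Pre), Cl43 μ s c Dd ke D k T P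
    fun Γ G _ u κ => SlF75 μ s c T.θ (T.K - 2) Kg T.P Γ G (8 * G.K ^ 2 * G.T u) n₁ Q Q₁ u κ

omit [IsProbabilityMeasure μ] in
/-- **(D2Q) (D2) AT THE ROW OF THE OWN CUT** (helper67). -/
def D2Q43 : Prop :=
  EvH43 μ s c a Cg fun Dd ke D k _ T => ∃ σ Q₂ : ℝ, 0 ≤ σ ∧ σ ≤ c / 32 ∧ 0 ≤ Q₂ ∧ ∀ P : Pre, Cl43 μ s c Dd ke D k T P fun Γ G _ u κ =>
    DT78 μ s Γ G (8 * G.K ^ 2 * G.T u) Q₂ σ u κ

omit [IsProbabilityMeasure μ] in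
/-- **(OuQ) THE SET `Ou` AT EVERY LARGE RADIUS** (helper99). -/
def OuQ43 : Prop :=
  EvH43 μ s c a Cg fun Dd ke D k _ T => ∀ sgm : ℝ, 0 < sgm → Lr43 fun R => ∃ J : ℕ, ∀ P : Pre, J ≤ P.J1 →
    Cl43 μ s c Dd ke D k T P fun Γ G E => Ou37.Ou μ s Γ G E R (sgm * R) (sgm * R) sgm 0

end Leaves

/-- **THE HALF `hT`**: the TAME data first, then every clause beyond thresholds. -/
def HtQ43 (μ : Measure ℝ) [IsProbabilityMeasure μ] (s a Cg aS : ℝ) : Prop :=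
  ∃ K₀ : ℕ, ∀ Dd : Dat, K₀ ≤ Dd.K → Dd.κ = (Dd.K : ℝ) ^ a → Dd.Cg = Cg → ∀ ke : ℕ, 1 ≤ ke → ∀ D k : ℕ, 1 ≤ D → 1 ≤ k →
  ∃ z₀ : ℕ, ∀ z : ℕ, z₀ ≤ z → 1 ≤ z → ∃ t : Tm, (∃ (AA a' gg : ℝ) (n₁ : ℕ), t.Ok μ z AA a' gg n₁) ∧
    (∀ sgm : ℝ, 0 < sgm → Lr43 fun R => ∃ J : ℕ, ∀ P : Pre, J ≤ P.J1 → ClQ P Dd μ s t k D (fun _ => {id}) fun Γ G E =>
      cut86 G (G.M / ke) (Ou37.Ou μ s Γ G E R (sgm * R) (sgm * R) sgm 0)) ∧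
    (∀ βc : ℝ, 0 ≤ βc → Lr43 fun bS => ∀ P : Pre, ClQ P Dd μ s t k D (fun _ => {id}) fun Γ G E =>
      cut86 G (G.M / ke) fun u κ => Sy78.St Γ G aS bS ((βc + 1 / 16) * E u) u κ) ∧
    ∀ b gf : ℝ, 0 ≤ b → 0 ≤ gf → Lr43 fun aF => ∃ J : ℕ, ∀ P : Pre, J ≤ P.J1 → ClQ P Dd μ s t k D (fun _ => {id}) fun Γ G E =>
      cut86 G (G.M / ke) fun u κ => SD53.Fw Γ G aF b (gf * E u) u κ

/-! ### The composition -/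

section Comp

variable {μ : Measure ℝ} [IsProbabilityMeasure μ] {s c C a Cg : ℝ} {n₀ : ℕ}

/-- The facts of `Evn` which the compositions read. -/
theorem evn43 {P : Pre} {Dd : Dat} (h0 : In μ s c C n₀) (n₁ : ℕ) :
    Evn P Dd μ s fun _ _ _ _ _ Γ G mt _ E => Γ.s = s ∧ G.K = Dd.K ∧ G.v = sl μ s ∧ 0 ≤ G.v ∧ G.v ≤ 1 ∧ (∀ u, G.w u = wd μ s (G.T u)) ∧
      (∀ u, E u = EE μ s (G.T u)) ∧ n₁ ≤ G.T0 ∧ (Γ.N : ℝ) + 1 ≤ Real.exp (EE μ s G.T0) ∧ G.M ≤ mt := by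
  refine (((((evn_geo (P := P) (Dd := Dd) (μ := μ) (s := s)).and evn_adm).and (evn_N h0)).and (evn_T0 fun _ _ _ _ _ _ _ => n₁)).and
    (evn_GP.and evn_mt)).mono fun q η A lam n Γ G mt τ0 E h => ?_
  obtain ⟨⟨⟨⟨g1, g2⟩, g3⟩, g4⟩, g5, g6⟩ := h
  exact ⟨g2.2.1, g1.2.2.1, g1.2.2.2.1, g5.v0, g5.v1, g1.1, g1.2.1, g4, g3 _ le_rfl, by omega⟩

/-- **THE CLAUSE `St`** (helper78's `st_own78`). -/
theorem stQ43 (h0 : In μ s c C n₀) {aS : ℝ} (haS : 0 ≤ aS) (hS : SlQ43 μ s c a Cg aS) (hD : D2Q43 μ s c a Cg) :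
    EvH43 μ s c a Cg fun Dd ke D k _ T => ∀ βc : ℝ, 0 ≤ βc → Lr43 fun bS => ∀ P : Pre, Cl43 μ s c Dd ke D k T P fun Γ G E u κ =>
      Sy78.St Γ G aS bS ((βc + 1 / 16) * E u) u κ := by
  obtain ⟨K₀, H⟩ := Sy78.st_own78 h0
  refine (hS.and2 hD (Χ := fun Dd ke D k _ T => (∃ Q Q₁ : ℝ, 0 ≤ Q ∧ 0 ≤ Q₁ ∧ ∀ (n₁ : ℕ) (P : Pre), Cl43 μ s c Dd ke D k T P
    fun Γ G _ u κ => SlT78 μ s c T.θ (T.K - 2) T.P Γ G aS (8 * G.K ^ 2 * G.T u) n₁ Q Q₁ u κ) ∧ ∃ σ Q₂ : ℝ, 0 ≤ σ ∧ σ ≤ c / 32 ∧ 0 ≤ Q₂ ∧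
      ∀ P : Pre, Cl43 μ s c Dd ke D k T P fun Γ G _ u κ => DT78 μ s Γ G (8 * G.K ^ 2 * G.T u) Q₂ σ u κ)
    fun _ _ _ _ _ _ _ _ _ h1 h2 => ⟨h1, h2⟩).and2 (evH43_K K₀) ?_
  rintro Dd ke D k z T - - - ⟨⟨Q, Q₁, hQ, hQ₁, h1⟩, σ, Q₂, hσ0, hσ, hQ₂, h2⟩ hK βc hβ
  obtain ⟨n₁, -, H⟩ := H T.P
  obtain ⟨CU, hCU, H⟩ := H Q hQ
  refine ⟨16 * (Dd.K : ℝ) ^ 2 * (aS + 16 / c * (βc + 1 / 16 + (2 * CU + 5 / 4 * (c / 8) * aS + Q₁ + (Q₂ + σ) + σ + 3))), fun bS hb P => ?_⟩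
  refine (h1 n₁ P).and2 (h2 P) ((evn43 h0 n₁).mono fun q η A lam n Γ G mt τ0 E h hτ ρ u hu huM => ?_)
  obtain ⟨g1, g2, g3, -, -, g4, g5, g6, g7, g8⟩ := h
  rintro ω ⟨k1, k2⟩ hue
  show ω ∈ Sy78.St Γ G aS bS ((βc + 1 / 16) * E u) u (G.loc u ρ.1)
  have hK8 : K₀ ≤ 8 * G.K ^ 2 := by
    rw [g2]
    have := Dd.hK
    nlinarith
  have h3 := H (θ := T.θ) (Kf := T.K - 2) (mt := mt) (b := bS) haS hσ0 hσ hβ hQ₁ hQ₂ (by rw [g2]; exact hb) g1 g3 g4 hK8 g6 g7 ρ u (hτ.trans hu)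
    (by omega) ⟨k1 hue, k2 hue⟩
  rw [g5]
  exact h3

/-- **THE CLAUSE `Fw`** (helper75's `fw_own75`). -/
theorem fwQ43 (h0 : In μ s c C n₀) (hS : SfQ43 μ s c a Cg) (hD : D2Q43 μ s c a Cg) (hO : OuQ43 μ s c a Cg) :
    EvH43 μ s c a Cg fun Dd ke D k _ T => ∀ b gf : ℝ, 0 ≤ b → 0 ≤ gf → Lr43 fun aF => ∃ J : ℕ, ∀ P : Pre, J ≤ P.J1 →
      Cl43 μ s c Dd ke D k T P fun Γ G E u κ => SD53.Fw Γ G aF b (gf * E u) u κ := by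
  obtain ⟨K₀, H⟩ := Pool.Agent.W_7d29a1_C1.FW75.fw_own75 h0
  refine (hS.and2 hD (Χ := fun Dd ke D k _ T => (∃ Kg Q Q₁ : ℝ, 0 ≤ Kg ∧ 0 ≤ Q ∧ 0 ≤ Q₁ ∧ ∀ (n₁ : ℕ) (P : Pre), Cl43 μ s c Dd ke D k T P
    fun Γ G _ u κ => SlF75 μ s c T.θ (T.K - 2) Kg T.P Γ G (8 * G.K ^ 2 * G.T u) n₁ Q Q₁ u κ) ∧ ∃ σ Q₂ : ℝ, 0 ≤ σ ∧ σ ≤ c / 32 ∧ 0 ≤ Q₂ ∧
      ∀ P : Pre, Cl43 μ s c Dd ke D k T P fun Γ G _ u κ => DT78 μ s Γ G (8 * G.K ^ 2 * G.T u) Q₂ σ u κ)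
    fun _ _ _ _ _ _ _ _ _ h1 h2 => ⟨h1, h2⟩).and2 ((evH43_K K₀).and2 hO (Χ := fun Dd ke D k _ T => K₀ ≤ Dd.K ∧ ∀ sgm : ℝ, 0 < sgm →
      Lr43 fun R => ∃ J : ℕ, ∀ P : Pre, J ≤ P.J1 → Cl43 μ s c Dd ke D k T P fun Γ G E => Ou37.Ou μ s Γ G E R (sgm * R) (sgm * R) sgm 0)
      fun _ _ _ _ _ _ _ _ _ h1 h2 => ⟨h1, h2⟩) ?_
  rintro Dd ke D k z T - - - ⟨⟨Kg, Q, Q₁, hKg, hQ, hQ₁, h1⟩, σ, Q₂, hσ0, hσ, hQ₂, h2⟩ ⟨hK, hO⟩ b gf hb hgf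
  have hc := h0.c0
  have hK3 := Dd.hK
  have hKR : (0 : ℝ) < (Dd.K : ℝ) := by exact_mod_cast (show 0 < Dd.K by omega)
  obtain ⟨n₁, -, H⟩ := H T.P
  obtain ⟨a₀, -, -, H⟩ := H (Kr := Dd.K) (Kg := Kg) (Q := Q) (Q₁ := Q₁) (Q₂ := Q₂) (σ := σ) (β := gf) (b := b) (by omega) hKg hQ hQ₁ hgf hb
  obtain ⟨R₀, hR₀⟩ := hO (3 * c / (4096 * (Dd.K : ℝ) ^ 2)) (by positivity)
  refine ⟨max a₀ (R₀ - 2), fun aF ha => ?_⟩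
  obtain ⟨J, h3⟩ := hR₀ (aF + 2) (by linarith [(le_max_right a₀ (R₀ - 2)).trans ha])
  refine ⟨J, fun P hJ => ?_⟩
  refine ((h1 n₁ P).inter (h2 P)).and2 (h3 P hJ) ((evn43 h0 n₁).mono fun q η A lam n Γ G mt τ0 E h hτ ρ u hu huM => ?_)
  obtain ⟨g1, g2, g3, g30, g31, g4, g5, g6, g7, g8⟩ := h
  rintro ω ⟨⟨k1, k2⟩, k3⟩ hue
  have hK8 : K₀ ≤ 8 * G.K ^ 2 := by
    rw [g2]
    nlinarith
  have hE : E = fun u => EE μ s (G.T u) := funext g5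
  have k4 := (k3 hue).1
  rw [hE] at k4
  have h4 := H aF ((le_max_left _ _).trans ha) (θ := T.θ) (Kf := T.K - 2) (mt := mt) g2 hσ0 hσ (by positivity) le_rfl g1 g3 g30 g31 g4 hK8 g6
    g7 ρ u (hτ.trans hu) (by omega) ⟨k1 hue, k2 hue, k4⟩
  show ω ∈ SD53.Fw Γ G aF b (gf * E u) u (G.loc u ρ.1)
  rw [g5]
  exact h4

/-- **THE HALF `hT` FROM THE FOUR LEAVES.** -/
theorem htQ43 (h0 : In μ s c C n₀) {aS : ℝ} (haS : 0 ≤ aS) (hS : SlQ43 μ s c a Cg aS) (hF : SfQ43 μ s c a Cg) (hD : D2Q43 μ s c a Cg)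
    (hO : OuQ43 μ s c a Cg) : HtQ43 μ s a Cg aS := by
  have h1 := stQ43 h0 haS hS hD
  have h2 := fwQ43 h0 hF hD hO
  have h3 := ((h1.and2 h2 (Χ := fun Dd ke D k _ T => (∀ βc : ℝ, 0 ≤ βc → Lr43 fun bS => ∀ P : Pre, Cl43 μ s c Dd ke D k T P fun Γ G E u κ =>
      Sy78.St Γ G aS bS ((βc + 1 / 16) * E u) u κ) ∧ ∀ b gf : ℝ, 0 ≤ b → 0 ≤ gf → Lr43 fun aF => ∃ J : ℕ, ∀ P : Pre, J ≤ P.J1 →
      Cl43 μ s c Dd ke D k T P fun Γ G E u κ => SD53.Fw Γ G aF b (gf * E u) u κ) fun _ _ _ _ _ _ _ _ _ h1 h2 => ⟨h1, h2⟩).and2 hO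
      (Χ := fun Dd ke D k _ T => (∀ sgm : ℝ, 0 < sgm → Lr43 fun R => ∃ J : ℕ, ∀ P : Pre, J ≤ P.J1 →
        Cl43 μ s c Dd ke D k T P fun Γ G E => Ou37.Ou μ s Γ G E R (sgm * R) (sgm * R) sgm 0) ∧
      (∀ βc : ℝ, 0 ≤ βc → Lr43 fun bS => ∀ P : Pre, Cl43 μ s c Dd ke D k T P fun Γ G E u κ =>
        Sy78.St Γ G aS bS ((βc + 1 / 16) * E u) u κ) ∧ ∀ b gf : ℝ, 0 ≤ b → 0 ≤ gf → Lr43 fun aF => ∃ J : ℕ, ∀ P : Pre, J ≤ P.J1 →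
        Cl43 μ s c Dd ke D k T P fun Γ G E u κ => SD53.Fw Γ G aF b (gf * E u) u κ) fun _ _ _ _ _ _ _ _ _ h1 h2 => ⟨h2, h1⟩).and2
      (evH43_z fun Dd _ _ k => Real.exp (51 * k / Dd.kap)) (Χ := fun Dd ke D k z T => 1 ≤ k ∧ Real.exp (51 * k / Dd.kap) ≤ z ∧
      (∀ sgm : ℝ, 0 < sgm → Lr43 fun R => ∃ J : ℕ, ∀ P : Pre, J ≤ P.J1 →
        Cl43 μ s c Dd ke D k T P fun Γ G E => Ou37.Ou μ s Γ G E R (sgm * R) (sgm * R) sgm 0) ∧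
      (∀ βc : ℝ, 0 ≤ βc → Lr43 fun bS => ∀ P : Pre, Cl43 μ s c Dd ke D k T P fun Γ G E u κ =>
        Sy78.St Γ G aS bS ((βc + 1 / 16) * E u) u κ) ∧ ∀ b gf : ℝ, 0 ≤ b → 0 ≤ gf → Lr43 fun aF => ∃ J : ℕ, ∀ P : Pre, J ≤ P.J1 →
        Cl43 μ s c Dd ke D k T P fun Γ G E u κ => SD53.Fw Γ G aF b (gf * E u) u κ) fun _ _ _ _ _ _ _ _ hk h1 h2 => ⟨hk, h2, h1⟩
  obtain ⟨K₀, H⟩ := h3.out h0
  refine ⟨K₀, fun Dd hK e1 e2 ke hke D k hD hk => ?_⟩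
  obtain ⟨z₀, H⟩ := H Dd hK e1 e2 ke hke D k hD hk
  refine ⟨z₀, fun z hz hz1 => ?_⟩
  obtain ⟨T, ⟨-, hze, kO, kS, kF⟩, -, AA, a', gg, n₁, hT⟩ := H z hz hz1
  refine ⟨tm6 μ s c T, ⟨AA, a', gg, n₁, hT⟩, fun sgm hs => ?_, fun βc hβ => ?_, fun b gf hb hgf => ?_⟩
  · exact (kO sgm hs).mono fun R ⟨J, h⟩ => ⟨J, fun P hJ => (h P hJ).toQ hk hze hT⟩
  · exact (kS βc hβ).mono fun bS h P => (h P).toQ hk hze hT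
  · exact (kF b gf hb hgf).mono fun aF ⟨J, h⟩ => ⟨J, fun P hJ => (h P hJ).toQ hk hze hT⟩

end Comp

/-! ### The families of SEP -/

section Fams

variable {P : Pre} {Dd : Dat} {μ : Measure ℝ} {s : ℝ} {t : Tm} {k D ke : ℕ} {Fs : Gm → Finset (ℕ → ℕ)}

theorem ClQ.interc43 {X Y : Cx → Gm → (ℕ → ℝ) → ℕ → ℤ × ℤ → Set Env} (h : ClQ P Dd μ s t k D Fs fun Γ G E => cut86 G (G.M / ke) (X Γ G E))
    (h' : ClQ P Dd μ s t k D Fs fun Γ G E => cut86 G (G.M / ke) (Y Γ G E)) :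
    ClQ P Dd μ s t k D Fs fun Γ G E => cut86 G (G.M / ke) fun u κ => X Γ G E u κ ∩ Y Γ G E u κ :=
  (h.inter h').mono (Evn.of_all fun _ _ _ _ _ _ _ _ _ _ _ _ _ _ _ _ _ _ _ _ _ _ _ _ _ _ _ _ _ _ _ => cut_inter86)

theorem ClQ.monoc43 {X Y : Cx → Gm → (ℕ → ℝ) → ℕ → ℤ × ℤ → Set Env} (h : ClQ P Dd μ s t k D Fs fun Γ G E => cut86 G (G.M / ke) (X Γ G E))
    (hX : ∀ Γ G E u κ, X Γ G E u κ ⊆ Y Γ G E u κ) : ClQ P Dd μ s t k D Fs fun Γ G E => cut86 G (G.M / ke) (Y Γ G E) :=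
  h.mono (Evn.of_all fun _ _ _ _ _ _ _ _ _ _ _ _ _ _ _ _ _ _ _ _ _ _ _ _ _ _ _ _ _ _ _ => cut_mono86 (hX _ _ _ _ _))

/-- **THE SLOT `Ou`**: five radii, one slope. -/
theorem ou5_43 {sgm rc r0 R0 R2 R1 : ℝ} (h : ∀ R : ℝ, R = rc ∨ R = r0 ∨ R = R0 ∨ R = R2 ∨ R = R1 → ClQ P Dd μ s t k D Fs fun Γ G E =>
      cut86 G (G.M / ke) (Ou37.Ou μ s Γ G E R (sgm * R) (sgm * R) sgm 0)) :
    ClQ P Dd μ s t k D Fs fun Γ G E => cut86 G (G.M / ke) (WO57.Ou5 μ s rc (sgm * rc) (sgm * rc) sgm r0 (sgm * r0) (sgm * r0) sgm R0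
      (sgm * R0) R2 (sgm * R2) R1 (sgm * R1) Γ G E 0) := by
  have hT : ∀ R : ℝ, R = rc ∨ R = r0 ∨ R = R0 ∨ R = R2 ∨ R = R1 → ClQ P Dd μ s t k D Fs fun Γ G E =>
      cut86 G (G.M / ke) (Ou37.OuT μ s Γ G E R (sgm * R) 0) := fun R hR => ClQ.monoc43 (h R hR) fun _ _ _ _ _ _ h1 => h1.1
  exact ClQ.interc43 (h rc (by simp)) (ClQ.interc43 (h r0 (by simp)) (ClQ.interc43 (hT R0 (by simp)) (ClQ.interc43 (hT R2 (by simp))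
    (hT R1 (by simp)))))

/-- **THE SLOT `St`** at the slack 0. -/
theorem st0_43 {aS bS βc : ℝ} (h : ClQ P Dd μ s t k D Fs fun Γ G E => cut86 G (G.M / ke) fun u κ =>
      Sy78.St Γ G aS bS ((βc + 1 / 16) * E u) u κ) :
    ClQ P Dd μ s t k D Fs fun Γ G E => cut86 G (G.M / ke) fun u κ => Sy78.St Γ G aS bS ((βc + 1 / 16) * E u - 0) u κ := by
  simpa only [sub_zero] using h

/-- **THE SLOT `Fw`** at the slack 0. -/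
theorem fw0_43 {a b gf : ℝ} (h : ClQ P Dd μ s t k D Fs fun Γ G E => cut86 G (G.M / ke) fun u κ => SD53.Fw Γ G a b (gf * E u) u κ) :
    ClQ P Dd μ s t k D Fs fun Γ G E => cut86 G (G.M / ke) fun u κ => SD53.Fw Γ G a b (gf * E u - 0) u κ := by
  simpa only [sub_zero] using h

end Fams

end

end Pool.Agent.W_7d29a1_C1.Ht43
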