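import Pool.Agent.W_7d29a1_C1.SlQ65
import Pool.Agent.W_7d29a1_C1.HtZ43

/-!
MP_7d29a1_pr, the attractor route [C1], TAME: THE CHAINS OF SLABS, THE LEAVES `SlQ43`, `SfQ43` OF helper43'S HtZ43. (helper65, helper63)

`slSf65` : both sets at once (helper65's `evn_sl65`); **`slQ65`** : `SlQ43 μ s c a Cg aS`, every `aS ≥ 0`; **`sfQ65`** : `SfQ43 μ s c a Cg`, `Kg = 2`.
-/

set_option autoImplicit false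

namespace Pool.Agent.W_7d29a1_C1.SlH65

open MeasureTheory ProbabilityTheory Finset Filter
open Pool.Agent.W_7d29a1_F Pool.Agent.W_7d29a1_h4g Pool.Agent.W_7d29a1_H Pool.Agent.W_7d29a1_HS
open Pool.Agent.W_7d29a1_C1.H60
open Pool.Agent.W_7d29a1_C1.H40
open Pool.Agent.W_7d29a1_C1.G37 (Gm Wok gmW)
open Pool.Agent.W_7d29a1_C1.FarK89 (gr gr_nonneg)
open Pool.Agent.W_7d29a1_C1.SF98
open Pool.Agent.W_7d29a1_C1.P25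
open Pool.Agent.W_7d29a1_C1.N49
open Pool.Agent.W_7d29a1_C1.PW86
open Pool.Agent.W_7d29a1_C1.Dep6
open Pool.Agent.W_7d29a1_C1.Q49
open Pool.Agent.W_7d29a1_C1.Hp2
open Pool.Agent.W_7d29a1_C1.Hp39
open Pool.Agent.W_7d29a1_C1.Sy78 (SlT78)
open Pool.Agent.W_7d29a1_C1.FW75 (SlF75)
open Pool.Agent.W_7d29a1_C1.PcD65 (evn_sl65 Qc65 Qc65_nonneg)
open Pool.Agent.W_7d29a1_C1.Ht43
open scoped ENNReal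

noncomputable section

variable {μ : Measure ℝ} [IsProbabilityMeasure μ] {s c C a Cg : ℝ} {n₀ : ℕ}

/-- **THE CHAINS OF SLABS, BOTH SETS.** -/
theorem slSf65 (h0 : In μ s c C n₀) (hE9 : ∀ᶠ n : ℕ in atTop, (n : ℝ) ^ (1 / 9 : ℝ) ≤ EE μ s n) {aS : ℝ} (haS : 0 ≤ aS) :
    EvH43 μ s c a Cg fun Dd ke D k _ T => ∃ Q Q₁ : ℝ, 0 ≤ Q ∧ 0 ≤ Q₁ ∧ ∀ (n₁ : ℕ) (P : Pre), Cl43 μ s c Dd ke D k T P fun Γ G _ u κ =>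
      SlT78 μ s c T.θ (T.K - 2) T.P Γ G aS (8 * G.K ^ 2 * G.T u) n₁ Q Q₁ u κ ∩
        SlF75 μ s c T.θ (T.K - 2) 2 T.P Γ G (8 * G.K ^ 2 * G.T u) n₁ Q Q u κ := by
  intro N _
  obtain ⟨α₀, K₁, hα₀, hα₁, hK₁, H⟩ := evn_sl65 h0 hE9
  refine ⟨K₁, fun Dd hK _ _ ke _ D k _ _ => ⟨0, fun z _ => ?_⟩⟩
  have hK1 : (1 : ℝ) < Dd.K := by
    have := Dd.hK
    exact_mod_cast (show 1 < Dd.K by omega)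
  have hK0 : (0 : ℝ) < Dd.K := one_pos.trans hK1
  refine ⟨2 * (aS + 1) + 12, fun K hKA => ⟨min (1 / 2) (1 / (64 * (Dd.K : ℝ) ^ 2)), lt_min (by norm_num) (by positivity), fun θ hθ hθ' =>
    ⟨α₀, hα₀, fun e he he' P hP => ?_⟩⟩⟩
  have hθK : 64 * (Dd.K : ℝ) ^ 2 * θ ≤ 1 := by
    have h1 := hθ'.trans (min_le_right _ _)
    rw [le_div_iff₀ (by positivity)] at h1
    linarith
  obtain ⟨m₁, -, H⟩ := H P hP haS hKA hθ (hθ'.trans (min_le_left _ _))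
  refine ⟨m₁, fun j₁ hj₁ δ _ _ _ => ?_⟩
  obtain ⟨C₃, m₂, hC₃, -, H⟩ := H j₁ (hj₁.trans Nat.lt_two_pow_self.le) D e he.le he'
  refine ⟨0, fun B₂ _ => ⟨0, fun B₁ _ => ⟨0, fun Lm _ => ⟨(Dd.K : ℝ) ^ α₀, Real.one_lt_rpow hK1 hα₀, fun Th _ hTh' => ⟨1, one_pos,
    fun es _ _ n₁s => ⟨0, fun Kb _ n₃ Y₁ _ => ⟨0, fun Cn _ => ⟨0, fun R _ => ⟨0, fun Y _ => ⟨0, fun q₀ _ hT => ?_⟩⟩⟩⟩⟩⟩⟩⟩⟩⟩
  obtain ⟨A, b, g, A', b', g', n₂, hT⟩ := hT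
  have hQ : 0 ≤ Qc65 C₃ q₀ := Qc65_nonneg (zero_le_one.trans hC₃)
  refine ⟨Qc65 C₃ q₀, Qc65 C₃ q₀ * gr (2 * P) (aS + 2), hQ, mul_nonneg hQ (gr_nonneg _ (by linarith)), fun n₁ Pp => ?_⟩
  obtain ⟨C2₀, H⟩ := H rfl rfl rfl rfl rfl hT hα₀.le le_rfl hTh' hK hθK n₁ Pp
  exact ⟨C2₀, 0, fun C2 hC2 => (H C2 hC2).mono fun _ _ _ _ _ Γ G mt τ0 E h _ => ⟨∅, by simp, fun ω _ ρ u W _ a2 a3 a4 a5 _ =>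
    h ∅ _ _ ω ρ u W a2 a3 a4 (a5 id (by simp)).1⟩⟩

/-- **THE LEAF `SlQ43`.** -/
theorem slQ65 (h0 : In μ s c C n₀) (hE9 : ∀ᶠ n : ℕ in atTop, (n : ℝ) ^ (1 / 9 : ℝ) ≤ EE μ s n) {aS : ℝ} (haS : 0 ≤ aS) :
    SlQ43 μ s c a Cg aS := (slSf65 h0 hE9 haS).mono fun _ _ _ _ _ _ _ _ _ ⟨Q, Q₁, hQ, hQ₁, h⟩ =>
  ⟨Q, Q₁, hQ, hQ₁, fun n₁ P => (h n₁ P).mono fun _ _ _ _ _ _ h1 hu => (h1 hu).1⟩

/-- **THE LEAF `SfQ43`.** -/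
theorem sfQ65 (h0 : In μ s c C n₀) (hE9 : ∀ᶠ n : ℕ in atTop, (n : ℝ) ^ (1 / 9 : ℝ) ≤ EE μ s n) : SfQ43 μ s c a Cg :=
  (slSf65 h0 hE9 le_rfl).mono fun _ _ _ _ _ _ _ _ _ ⟨Q, _, hQ, _, h⟩ =>
    ⟨2, Q, Q, zero_le_two, hQ, hQ, fun n₁ P => (h n₁ P).mono fun _ _ _ _ _ _ h1 hu => (h1 hu).2⟩

end

end Pool.Agent.W_7d29a1_C1.SlH65
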