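import Pool.Agent.W_7d29a1_LB.All29
import Pool.Agent.W_7d29a1_HZ.PB

/-!
Both halves (MP_7d29a1_pr), attractor route [C1]: the unit is at least `n ^ (1 / 9)`, from the input `In` alone. (helper57; the same
statement from its two inputs is `ee9_8` of EEl8, helper8)
-/

set_option autoImplicit false

namespace Pool.Agent.W_7d29a1_C1.Tl57

open MeasureTheory Filter Topology
open Pool.Agent.W_7d29a1_F Pool.Agent.W_7d29a1_H Pool.Agent.W_7d29a1_HS

/-- **THE UNIT IS AT LEAST `n ^ (1 / 9)`.** -/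
theorem ee9_57 {μ : Measure ℝ} [IsProbabilityMeasure μ] {s c C : ℝ} {n₀ : ℕ} (h : In μ s c C n₀) :
    ∀ᶠ n : ℕ in atTop, (n : ℝ) ^ (1 / 9 : ℝ) ≤ EE μ s n := by
  obtain ⟨n₁, h1⟩ := Pool.Agent.W_7d29a1_LB.lb_all h.em h.nd s (1 / 36) (by norm_num)
  obtain ⟨n₂, h2⟩ := Pool.Agent.W_7d29a1_HZ.wd'_eq h
  filter_upwards [eventually_ge_atTop n₁, eventually_ge_atTop n₂, eventually_ge_atTop 1] with n g1 g2 g3
  have hnR : (1 : ℝ) ≤ n := by exact_mod_cast g3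
  have n0 : (0 : ℝ) < n := by linarith
  have a1 := (h2 n g2).2.2.trans (h1 n g1)
  have a2 : (n : ℝ) ^ (1 / 4 : ℝ) = (n : ℝ) ^ (1 / 36 : ℝ) * ((n : ℝ) ^ (1 / 9 : ℝ)) ^ 2 := by
    rw [← Real.rpow_natCast, ← Real.rpow_mul n0.le, ← Real.rpow_add n0]
    norm_num
  rw [a2] at a1
  have a3 := le_of_mul_le_mul_left a1 (Real.rpow_pos_of_pos n0 _)
  have hE0 : 0 ≤ EE μ s n := by have := one_le_EE (μ := μ) (s := s) n; linarith
  exact (pow_le_pow_iff_left₀ (Real.rpow_nonneg n0.le _) hE0 (by norm_num)).1 a3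

end Pool.Agent.W_7d29a1_C1.Tl57
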