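import Pool.Agent.W_7d29a1_C1.HtZ43
import Pool.Agent.W_7d29a1_C1.PrQ99
import Pool.Agent.W_7d29a1_C1.DtQ85
import Pool.Agent.W_7d29a1_C1.NgE39
import Pool.Agent.W_7d29a1_C1.Tilt57B
import Pool.Agent.W_7d29a1_C1.SlH65

/-!
MP_7d29a1_pr, attractor route [C1], TAME: THE LEAVES `Ou` AND `DT78` OF HtZ43 FROM THE LEAF D2. (helper43)

* `evH43_fa`, `evH43_Kt` : facts and thresholds of the constants of the depths;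
* **`D2J43`** : the leaf D2 (helper67's D2C67 in the form of helper99's `D2Q99`) in the order `EvH43`, for every `J`;
* **`ouH43`** : `D2J43 → OuQ43` (helper99's `ouQ99`, helper39's `evn_ngK39`); **`d2H43`** : `D2J43 → D2Q43` (helper85's `dtQ85`);
* `htH43` : the half `hT` from `SlQ43`, `SfQ43`, `D2J43`; **`htD43`** : from `D2J43` alone (helper65's `slQ65`, `sfQ65`).
-/

set_option autoImplicit false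

namespace Pool.Agent.W_7d29a1_C1.Ht43

open MeasureTheory ProbabilityTheory Finset Filter
open Pool.Agent.W_7d29a1_F Pool.Agent.W_7d29a1_h4g Pool.Agent.W_7d29a1_H Pool.Agent.W_7d29a1_HS
open Pool.Agent.W_7d29a1_C1.H60
open Pool.Agent.W_7d29a1_C1.H40
open Pool.Agent.W_7d29a1_C1.G37 (Gm Wok gmW)
open Pool.Agent.W_7d29a1_C1.SF98
open Pool.Agent.W_7d29a1_C1.N49
open Pool.Agent.W_7d29a1_C1.PW86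
open Pool.Agent.W_7d29a1_C1.Dep6
open Pool.Agent.W_7d29a1_C1.Q49
open Pool.Agent.W_7d29a1_C1.Hp2
open Pool.Agent.W_7d29a1_C1.Hp39
open Pool.Agent.W_7d29a1_C1.PrC99
open Pool.Agent.W_7d29a1_C1.PrQ99
open Pool.Agent.W_7d29a1_C1.Sy78 (DT78)
open scoped ENNReal

noncomputable section

/-! ### Facts and thresholds -/

section Facts

variable {μ : Measure ℝ} {s c a Cg : ℝ}

/-- **THE FACTS OF THE CONSTANTS.** -/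
structure Fa43 (μ : Measure ℝ) (s c : ℝ) (T : Tc6) : Prop where
  θ0 : 0 < T.θ
  θs : T.θs = T.θ
  e0 : 0 < T.e
  P1 : 1 ≤ T.P
  δ0 : 0 < T.δ
  δ1 : T.δ ≤ T.θ * sl μ s
  δ2 : T.δ ≤ T.θ * (1 - sl μ s)
  Th1 : 1 < T.Th
  es0 : 0 < T.es
  tg : Tgg43 μ s c T

theorem evH43_fa : EvH43 μ s c a Cg fun _ _ _ _ _ T => Fa43 μ s c T := fun N _ =>
  ⟨0, fun Dd _ _ _ ke _ D k _ _ => ⟨0, fun z _ => ⟨0, fun K _ => ⟨1, one_pos, fun θ hθ _ => ⟨1, one_pos, fun e he _ P hP => ⟨0, fun j₁ _ δ d0 d1 d2 =>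
    ⟨0, fun B₂ _ => ⟨0, fun B₁ _ => ⟨0, fun Lm _ => ⟨2, one_lt_two, fun Th hTh _ => ⟨1, one_pos, fun es hes _ n₁s => ⟨0, fun Kb _ n₃ Y₁ _ =>
    ⟨0, fun Cn _ => ⟨0, fun R _ => ⟨0, fun Y _ => ⟨0, fun q₀ _ ht => ⟨hθ, rfl, he, hP, d0, d1, d2, hTh, hes, ht⟩⟩⟩⟩⟩⟩⟩⟩⟩⟩⟩⟩⟩⟩⟩⟩⟩

/-- Thresholds of the window and of the length of the layers; the first level. -/
theorem evH43_Kt (f g : Dat → ℝ) (hg : ∀ Dd, 0 < g Dd) (x : ℝ) :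
    EvH43 μ s c a Cg fun Dd _ _ _ _ T => f Dd ≤ T.K ∧ T.θ ≤ g Dd ∧ x ≤ T.q₀ := fun N _ =>
  ⟨0, fun Dd _ _ _ ke _ D k _ _ => ⟨0, fun z _ => ⟨f Dd, fun K hK => ⟨g Dd, hg Dd, fun θ _ hθ => ⟨1, one_pos, fun e _ _ P _ => ⟨0, fun j₁ _ δ _ _ _ =>
    ⟨0, fun B₂ _ => ⟨0, fun B₁ _ => ⟨0, fun Lm _ => ⟨2, one_lt_two, fun Th _ _ => ⟨1, one_pos, fun es _ _ n₁s => ⟨0, fun Kb _ n₃ Y₁ _ =>
    ⟨0, fun Cn _ => ⟨0, fun R _ => ⟨0, fun Y _ => ⟨x, fun q₀ hq _ => ⟨hK, hθ, hq⟩⟩⟩⟩⟩⟩⟩⟩⟩⟩⟩⟩⟩⟩⟩⟩⟩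

end Facts

/-! ### The leaf D2 -/

/-- **(D2J) THE LEAF D2, FOR EVERY `J`**: slope `σ ≤ c / 32`, constant `Q0 g ^ (f - u)` with `g` near to 1, both free of `J`. -/
def D2J43 (μ : Measure ℝ) (s c a Cg : ℝ) : Prop :=
  ∀ e : ℝ, 0 < e → EvH43 μ s c a Cg fun Dd ke D k _ T => ∃ Q0 g σ : ℝ, 0 ≤ Q0 ∧ 1 ≤ g ∧ 0 ≤ σ ∧ σ ≤ c / 32 ∧
    2 * (T.Th ^ 2 * g) ^ 4 ≤ (Dd.K : ℝ) ^ e ∧ ∀ (J : ℕ) (P : Pre), D2Q99 P Dd μ s (tm6 μ s c T) k ke D (fun _ => {id}) J Q0 g σ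

section Main

variable {μ : Measure ℝ} [IsProbabilityMeasure μ] {s c C a Cg : ℝ} {n₀ : ℕ}

omit [IsProbabilityMeasure μ] in
/-- The families of the canonical data. -/
theorem fl43 {T : Tc6} (h : Tgg43 μ s c T) : ∃ n₂ : ℕ, Fl99 μ s c T.θ T.K T.P n₂ (tm6 μ s c T) := by
  obtain ⟨A, b, g, A', b', g', n₂, h⟩ := h
  exact ⟨n₂, fun G hG => ⟨⟨A, b, g, (h G hG).F⟩, ⟨A', b', g', (h G hG).F'⟩, fun x y q => Set.inter_subset_left⟩⟩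

/-- **`OuQ43` FROM THE LEAF D2.** -/
theorem ouH43 (h0 : In μ s c C n₀) (hE9 : ∀ᶠ n : ℕ in atTop, (n : ℝ) ^ (1 / 9 : ℝ) ≤ EE μ s n) (hD : D2J43 μ s c a Cg) :
    OuQ43 μ s c a Cg := by
  have hc := h0.c0
  obtain ⟨e, K₀, he, hK₀, H⟩ := ouQ99 h0
  obtain ⟨N₀, hN₀, HN⟩ := Pool.Agent.W_7d29a1_C1.Ng39.evn_ngK39 h0 hE9
  have hg : ∀ Dd : Dat, (0 : ℝ) < 1 / (4 * ((8 * Dd.K ^ 2 : ℕ) : ℝ)) := fun Dd => by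
    have h1 : 0 < 8 * Dd.K ^ 2 := Nat.mul_pos (by norm_num) (Nat.pow_pos (by have := Dd.hK; omega))
    have h2 : (0 : ℝ) < ((8 * Dd.K ^ 2 : ℕ) : ℝ) := by exact_mod_cast h1
    positivity
  refine (((evH43_K (μ := μ) (s := s) (c := c) (a := a) (Cg := Cg) (max K₀ N₀)).and2 (evH43_Kt (fun _ => 8) _ hg 0)
    (Χ := fun Dd _ _ _ _ T => max K₀ N₀ ≤ Dd.K ∧ 8 ≤ T.K ∧ T.θ ≤ 1 / (4 * ((8 * Dd.K ^ 2 : ℕ) : ℝ)) ∧ 0 ≤ T.q₀)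
    fun _ _ _ _ _ _ _ _ _ h1 h2 => ⟨h1, h2⟩).and2 evH43_fa (Χ := fun Dd _ _ _ _ T => (max K₀ N₀ ≤ Dd.K ∧ 8 ≤ T.K ∧
      T.θ ≤ 1 / (4 * ((8 * Dd.K ^ 2 : ℕ) : ℝ)) ∧ 0 ≤ T.q₀) ∧ Fa43 μ s c T) fun _ _ _ _ _ _ _ _ _ h1 h2 => ⟨h1, h2⟩).and2 (hD e he) ?_
  rintro Dd ke D k z T - - - ⟨⟨hKK, hTK, hθ, hq⟩, F⟩ ⟨Q0, g, σ, hQ0, hg1, hσ0, hσ, hgh, h2⟩ sgm hsgm
  obtain ⟨n₂, hF⟩ := fl43 F.tg
  have hK0 : K₀ ≤ Dd.K := (le_max_left _ _).trans hKK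
  have hN0 : N₀ ≤ Dd.K := (le_max_right _ _).trans hKK
  obtain ⟨n₁, H⟩ := H T.P hTK F.θ0
  obtain ⟨Rmin, -, H⟩ := H Dd hK0 hq F.Th1.le hQ0 hg1 hσ0 (by linarith) hgh hsgm
  refine ⟨Rmin, fun R hR => ?_⟩
  obtain ⟨J, H⟩ := H R hR
  refine ⟨J, fun P _ => ?_⟩
  have h8 : (0 : ℝ) < 4 * ((8 * Dd.K ^ 2 : ℕ) : ℝ) := by
    have := hg Dd
    rwa [one_div, inv_pos] at this
  have h7 : T.θ * (4 * ((8 * Dd.K ^ 2 : ℕ) : ℝ)) ≤ 1 := by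
    have h9 := mul_le_mul_of_nonneg_right hθ h8.le
    rwa [one_div, inv_mul_cancel₀ h8.ne'] at h9
  exact H P (tm6 μ s c T) rfl rfl n₂ hF (HN P Dd T.θ n₁ hN0 h7) (fun _ => Finset.mem_singleton_self _) (h2 (J + 1) P)

/-- **`D2Q43` FROM THE LEAF D2.** -/
theorem d2H43 (h0 : In μ s c C n₀) (hE9 : ∀ᶠ n : ℕ in atTop, (n : ℝ) ^ (1 / 9 : ℝ) ≤ EE μ s n) (hD : D2J43 μ s c a Cg) :
    D2Q43 μ s c a Cg := by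
  have hc := h0.c0
  obtain ⟨N₀, hN₀, HN⟩ := Pool.Agent.W_7d29a1_C1.Ng39.evn_ngK39 h0 hE9
  have hg : ∀ Dd : Dat, (0 : ℝ) < 1 / (4 * ((8 * Dd.K ^ 2 : ℕ) : ℝ)) := fun Dd => by
    have h1 : 0 < 8 * Dd.K ^ 2 := Nat.mul_pos (by norm_num) (Nat.pow_pos (by have := Dd.hK; omega))
    have h2 : (0 : ℝ) < ((8 * Dd.K ^ 2 : ℕ) : ℝ) := by exact_mod_cast h1
    positivity
  refine ((evH43_K (μ := μ) (s := s) (c := c) (a := a) (Cg := Cg) N₀).and2 (evH43_Kt (fun _ => 8) _ hg 0)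
    (Χ := fun Dd _ _ _ _ T => N₀ ≤ Dd.K ∧ 8 ≤ T.K ∧ T.θ ≤ 1 / (4 * ((8 * Dd.K ^ 2 : ℕ) : ℝ)) ∧ 0 ≤ T.q₀)
    fun _ _ _ _ _ _ _ _ _ h1 h2 => ⟨h1, h2⟩).and2 (hD 1 one_pos) ?_
  rintro Dd ke D k z T - - - ⟨hN0, -, hθ, -⟩ ⟨Q0, g, σ, hQ0, hg1, hσ0, hσ, hgh, h2⟩
  have h8 : (0 : ℝ) < 4 * ((8 * Dd.K ^ 2 : ℕ) : ℝ) := by
    have := hg Dd
    rwa [one_div, inv_pos] at this
  have h7 : T.θ * (4 * ((8 * Dd.K ^ 2 : ℕ) : ℝ)) ≤ 1 := by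
    have h9 := mul_le_mul_of_nonneg_right hθ h8.le
    rwa [one_div, inv_mul_cancel₀ h8.ne'] at h9
  have hKR : (0 : ℝ) ≤ (Dd.K : ℝ) := Nat.cast_nonneg _
  exact ⟨σ, Dd.K * Q0 + σ, hσ0, hσ, by positivity, fun P =>
    Pool.Agent.W_7d29a1_C1.DtQ85.dtQ85 (n₁ := 0) h0 hQ0 hσ0 (HN P Dd T.θ 0 hN0 h7) (h2 0 P)⟩

/-- **THE HALF `hT`** from the two chain leaves and the leaf D2. -/
theorem htH43 (h0 : In μ s c C n₀) {aS : ℝ} (haS : 0 ≤ aS) (hS : SlQ43 μ s c a Cg aS) (hF : SfQ43 μ s c a Cg) (hD : D2J43 μ s c a Cg) :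
    HtQ43 μ s a Cg aS :=
  htQ43 h0 haS hS hF (d2H43 h0 (Tl57.ee9_57 h0) hD) (ouH43 h0 (Tl57.ee9_57 h0) hD)

/-- **THE HALF `hT` FROM THE LEAF D2.** -/
theorem htD43 (h0 : In μ s c C n₀) {aS : ℝ} (haS : 0 ≤ aS) (hD : D2J43 μ s c a Cg) : HtQ43 μ s a Cg aS :=
  htH43 h0 haS (Pool.Agent.W_7d29a1_C1.SlH65.slQ65 h0 (Tl57.ee9_57 h0) haS) (Pool.Agent.W_7d29a1_C1.SlH65.sfQ65 h0 (Tl57.ee9_57 h0)) hD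

end Main

end

end Pool.Agent.W_7d29a1_C1.Ht43
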