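import Pool.Agent.W_7d29a1_LB.NSF14

/-!
MP_7d29a1_pr, C1: THE UNTILTED FUTURE IS SMOOTH AT EVERY SCALE (helper67). For `T ≤ L ≤ T ^ K`, outside an event of probability
`exp (- T ^ c')`, the partition functions of length `L` of two sites at the distance at most `T ^ δ wd' T` differ by at most a factor
`exp (T ^ ε EE' T)`. (No steep places for the free end of length `L` put the path after `T` rows into the window; the box bound of the scale `T`
exchanges the first `T` rows.)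
-/

set_option autoImplicit false

namespace Pool.Agent.W_7d29a1_C1

open Finset MeasureTheory ProbabilityTheory Filter Topology
open Pool.Agent.W_7d29a1_F Pool.Agent.W_7d29a1_X
open Pool.Agent.W_7d29a1_H (sl)
open Pool.Agent.W_7d29a1_HS (In wd)
open Pool.Agent.W_7d29a1_HZ (NSp wd' EE' gp P1 PBox)
open Pool.Agent.W_7d29a1_HX.XT (measurable_GS GS_le_one)
open scoped ENNReal

noncomputable section

variable {μ : Measure ℝ} {s : ℝ}

/-- The mass of the paths from `a` which are off the window of half width `r` at the time `T`, with `m` more rows. -/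
def outM (μ : Measure ℝ) (s : ℝ) (η : Env) (a : Pt) (T m : ℕ) (r : ℝ) : ℝ :=
  ∑ z ∈ (Icc (0 : ℤ) T).filter (fun z : ℤ => ¬ |(z : ℝ) - sl μ s * T| ≤ r), W μ s η a T z * Real.exp (V μ s η (a.1 + T, a.2 + z) m)

theorem outM_sh (η : Env) (a c : Pt) (T m : ℕ) (r : ℝ) : outM μ s (sh c η) a T m r = outM μ s η (a + c) T m r := by
  unfold outM
  refine sum_congr rfl fun z _ => ?_
  rw [W_sh, V_sh]
  have e : ((a.1 + T, a.2 + z) : Pt) + c = ((a + c).1 + T, (a + c).2 + z) := by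
    ext
    · show a.1 + T + c.1 = a.1 + c.1 + T
      ring
    · show a.2 + z + c.2 = a.2 + c.2 + z
      ring
  rw [e]

/-- The mass off the window is at most half of the total mass. -/
def Hlf (μ : Measure ℝ) (s : ℝ) (T m : ℕ) (r : ℝ) (a : Pt) (η : Env) : Prop :=
  outM μ s η a T m r ≤ Real.exp (V μ s η a (T + m)) / 2

theorem Hlf_sh (η : Env) (a c : Pt) (T m : ℕ) (r : ℝ) : Hlf μ s T m r a (sh c η) ↔ Hlf μ s T m r (a + c) η := by
  unfold Hlf
  rw [outM_sh, V_sh]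

/-- **The exchange of the first `T` rows.** -/
theorem swap67 {η : Env} {t x x' : ℤ} {T m : ℕ} {r B : ℝ} (hH : Hlf μ s T m r (t, x) η)
    (hup : ∀ z : ℤ, 0 ≤ z → z ≤ T → |(z : ℝ) - sl μ s * T| ≤ r → W μ s η (t, x) T z ≤ Real.exp B)
    (hlo : ∀ z : ℤ, 0 ≤ z → z ≤ T → |(z : ℝ) - sl μ s * T| ≤ r → 0 ≤ z + x - x' ∧ z + x - x' ≤ T ∧
      Real.exp (-B) ≤ W μ s η (t, x') T (z + x - x')) :
    V μ s η (t, x) (T + m) ≤ V μ s η (t, x') (T + m) + 2 * B + 1 := by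
  obtain ⟨A, hA⟩ : ∃ A : Finset ℤ, A = (Icc (0 : ℤ) T).filter (fun z : ℤ => |(z : ℝ) - sl μ s * T| ≤ r) := ⟨_, rfl⟩
  have hsplit : Real.exp (V μ s η (t, x) (T + m)) =
      ∑ z ∈ A, W μ s η (t, x) T z * Real.exp (V μ s η (t + T, x + z) m) + outM μ s η (t, x) T m r := by
    rw [exp_V_add, hA]
    unfold outM
    exact (sum_filter_add_sum_filter_not (Icc (0 : ℤ) T) (fun z : ℤ => |(z : ℝ) - sl μ s * T| ≤ r) _).symm
  have h1 : Real.exp (V μ s η (t, x) (T + m)) ≤ 2 * ∑ z ∈ A, W μ s η (t, x) T z * Real.exp (V μ s η (t + T, x + z) m) := by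
    unfold Hlf at hH
    linarith
  have hin : ∑ z ∈ A, W μ s η (t, x) T z * Real.exp (V μ s η (t + T, x + z) m) ≤
      Real.exp (2 * B) * Real.exp (V μ s η (t, x') (T + m)) := by
    have h2 : ∀ z ∈ A, W μ s η (t, x) T z * Real.exp (V μ s η (t + T, x + z) m) ≤
        Real.exp (2 * B) * (W μ s η (t, x') T (z + (x - x')) * Real.exp (V μ s η (t + T, x' + (z + (x - x'))) m)) := by
      intro z hz
      rw [hA, mem_filter, mem_Icc] at hz
      have h3 := hup z hz.1.1 hz.1.2 hz.2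
      have h4 := (hlo z hz.1.1 hz.1.2 hz.2).2.2
      have e1 : x' + (z + (x - x')) = x + z := by ring
      have e2 : z + x - x' = z + (x - x') := by ring
      rw [e2] at h4
      rw [e1]
      have h5 : W μ s η (t, x) T z ≤ Real.exp (2 * B) * W μ s η (t, x') T (z + (x - x')) := by
        calc W μ s η (t, x) T z ≤ Real.exp B := h3
          _ = Real.exp (2 * B) * Real.exp (-B) := by rw [← Real.exp_add]; congr 1; ring
          _ ≤ _ := mul_le_mul_of_nonneg_left h4 (Real.exp_pos _).le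
      calc W μ s η (t, x) T z * Real.exp (V μ s η (t + T, x + z) m)
          ≤ Real.exp (2 * B) * W μ s η (t, x') T (z + (x - x')) * Real.exp (V μ s η (t + T, x + z) m) :=
            mul_le_mul_of_nonneg_right h5 (Real.exp_pos _).le
        _ = _ := by ring
    refine (sum_le_sum h2).trans ?_
    rw [← mul_sum]
    refine mul_le_mul_of_nonneg_left ?_ (Real.exp_pos _).le
    rw [exp_V_add]
    have e3 : ∑ z ∈ A, W μ s η (t, x') T (z + (x - x')) * Real.exp (V μ s η (t + T, x' + (z + (x - x'))) m) =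
        ∑ z ∈ A.image (fun z => z + (x - x')), W μ s η (t, x') T z * Real.exp (V μ s η (t + T, x' + z) m) := by
      rw [sum_image fun a _ b _ hab => add_right_cancel hab]
    rw [e3]
    refine sum_le_sum_of_subset_of_nonneg ?_ fun z _ _ => mul_nonneg (W_nonneg _ _ _ _) (Real.exp_pos _).le
    intro z hz
    rw [mem_image] at hz
    obtain ⟨y, hy, rfl⟩ := hz
    rw [hA, mem_filter, mem_Icc] at hy
    obtain ⟨h6, h7, -⟩ := hlo y hy.1.1 hy.1.2 hy.2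
    rw [mem_Icc]
    constructor
    · linarith
    · linarith
  have h8 : Real.exp (V μ s η (t, x) (T + m)) ≤ Real.exp (V μ s η (t, x') (T + m) + 2 * B + 1) := by
    have h9 : (2 : ℝ) ≤ Real.exp 1 := by
      have := Real.add_one_le_exp (1 : ℝ)
      linarith
    have h10 : 0 < Real.exp (2 * B) * Real.exp (V μ s η (t, x') (T + m)) := by positivity
    calc Real.exp (V μ s η (t, x) (T + m)) ≤ 2 * (Real.exp (2 * B) * Real.exp (V μ s η (t, x') (T + m))) := by linarith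
      _ ≤ Real.exp 1 * (Real.exp (2 * B) * Real.exp (V μ s η (t, x') (T + m))) := mul_le_mul_of_nonneg_right h9 h10.le
      _ = _ := by
        rw [← Real.exp_add, ← Real.exp_add]
        congr 1
        ring
  exact Real.exp_le_exp.1 h8

open Classical in
/-- The mass off the window and the steep places. -/
theorem out_GS (η : Env) {T m L : ℕ} {ε r : ℝ} (hr : ∀ S, NSp μ s L (T + m) ε S → |(pos S T : ℝ) - sl μ s * T| ≤ r) :
    outM μ s η 0 T m r / Real.exp (V μ s η 0 (T + m)) ≤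
      ∑ S ∈ (range (T + m)).powerset, GS μ s η (T + m) S * (if NSp μ s L (T + m) ε S then 0 else 1) := by
  have h1 := GS_pos (μ := μ) (s := s) η T m (fun z : ℤ => if |(z : ℝ) - sl μ s * T| ≤ r then 0 else 1)
  have h2 : outM μ s η 0 T m r / Real.exp (V μ s η 0 (T + m)) =
      ∑ S ∈ (range (T + m)).powerset, GS μ s η (T + m) S * (if |(pos S T : ℝ) - sl μ s * T| ≤ r then (0 : ℝ) else 1) := by
    rw [h1]
    unfold outM
    rw [sum_filter, sum_div]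
    refine sum_congr rfl fun z _ => ?_
    have e : ((((0 : Pt).1 + T, (0 : Pt).2 + z) : Pt)) = ((T : ℤ), z) := by
      ext
      · show (0 : ℤ) + T = T
        ring
      · show (0 : ℤ) + z = z
        ring
    by_cases hz : |(z : ℝ) - sl μ s * T| ≤ r
    · rw [if_neg (not_not.2 hz), if_pos hz]
      simp
    · rw [if_pos hz, if_neg hz, mul_one, e]
  rw [h2]
  refine sum_le_sum fun S _ => mul_le_mul_of_nonneg_left ?_ (GS_nonneg _ _ _)
  by_cases h3 : NSp μ s L (T + m) ε S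
  · rw [if_pos h3, if_pos (hr S h3)]
  · rw [if_neg h3]
    split_ifs
    · exact zero_le_one
    · exact le_rfl

variable [IsProbabilityMeasure μ] {c C : ℝ} {n₀ : ℕ}

open Classical in
/-- The probability that more than half of the mass is off the window. -/
theorem hlf_prob (h : In μ s c C n₀) (K : ℕ) {e : ℝ} (he : 0 < e) : ∃ c' : ℝ, 0 < c' ∧ ∃ T₀ : ℕ, ∀ T m : ℕ, T₀ ≤ T →
    T + m ≤ T ^ K → ∀ a : Pt, law μ {η | ¬ Hlf μ s T m ((T : ℝ) ^ e * wd' μ s T) a η} ≤ ENNReal.ofReal (2 * Real.exp (-(T : ℝ) ^ c')) := by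
  obtain ⟨c', hc', N₀, hN⟩ := Pool.Agent.W_7d29a1_LB.nsf14 h (e / (K + 1)) (by positivity)
  refine ⟨c', hc', max N₀ 1, fun T m hT hm a => ?_⟩
  have hT1 : 1 ≤ T := (le_max_right _ _).trans hT
  have hTR : (1 : ℝ) ≤ T := by exact_mod_cast hT1
  have h1 := hN (T + m) (by
    have := (le_max_left N₀ 1).trans hT
    omega)
  -- the base point
  have hsh : law μ {η | ¬ Hlf μ s T m ((T : ℝ) ^ e * wd' μ s T) a η} ≤
      law μ {η | ¬ Hlf μ s T m ((T : ℝ) ^ e * wd' μ s T) 0 η} := by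
    have h2 := (mp_sh (μ := μ) a).measure_preimage_le (s := {η | ¬ Hlf μ s T m ((T : ℝ) ^ e * wd' μ s T) 0 η})
    refine le_trans (le_of_eq ?_) h2
    congr 1
    ext η
    show ¬ Hlf μ s T m _ a η ↔ ¬ Hlf μ s T m _ 0 (sh a η)
    rw [Hlf_sh, zero_add]
  refine hsh.trans ?_
  -- Markov
  obtain ⟨Q, hQ⟩ : ∃ Q : Env → ℝ, Q = fun η => ∑ S ∈ (range (T + m)).powerset, GS μ s η (T + m) S *
    (if NSp μ s (T + m) (T + m) (e / (K + 1)) S then 0 else 1) := ⟨_, rfl⟩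
  have hQm : Measurable Q := by
    rw [hQ]
    exact Finset.measurable_fun_sum _ fun S _ => (measurable_GS (T + m) S).mul_const _
  have hQ0 : ∀ η, 0 ≤ Q η := fun η => by
    rw [hQ]
    exact sum_nonneg fun S _ => mul_nonneg (GS_nonneg _ _ _) (by split_ifs <;> norm_num)
  have hQ1 : ∀ η, Q η ≤ 1 := fun η => by
    rw [hQ]
    refine le_trans (sum_le_sum fun S _ => ?_) (GS_sum (μ := μ) (s := s) η (T + m)).le
    have := GS_nonneg (μ := μ) (s := s) η (T + m) S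
    split_ifs
    · linarith
    · linarith
  have hQi : Integrable Q (law μ) := by
    refine Integrable.of_bound hQm.aestronglyMeasurable 1 (Eventually.of_forall fun η => ?_)
    rw [Real.norm_eq_abs, abs_of_nonneg (hQ0 η)]
    exact hQ1 η
  have hint : ∫ η, Q η ∂(law μ) ≤ Real.exp (-((T + m : ℕ) : ℝ) ^ c') := by
    refine le_trans (le_of_eq ?_) h1
    rw [hQ]
  have hsub : {η : Env | ¬ Hlf μ s T m ((T : ℝ) ^ e * wd' μ s T) 0 η} ⊆ {η | 1 / 2 ≤ Q η} := by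
    intro η hη
    have h3 : ¬ outM μ s η 0 T m ((T : ℝ) ^ e * wd' μ s T) ≤ Real.exp (V μ s η 0 (T + m)) / 2 := hη
    rw [not_le] at h3
    show 1 / 2 ≤ Q η
    have h4 := out_GS (μ := μ) (s := s) η (T := T) (m := m) (L := T + m) (ε := e / (K + 1)) (r := (T : ℝ) ^ e * wd' μ s T) (by
      intro S hS
      have h5 := hS 0 T hT1 (by omega)
      rw [Nat.zero_add, pos_zero, sub_zero] at h5
      refine h5.trans (mul_le_mul_of_nonneg_right ?_ (zero_le_one.trans (le_max_left _ _)))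
      have h6 : ((T + m : ℕ) : ℝ) ≤ (T : ℝ) ^ K := by exact_mod_cast hm
      calc ((T + m : ℕ) : ℝ) ^ (e / (K + 1)) ≤ ((T : ℝ) ^ K) ^ (e / (K + 1)) :=
            Real.rpow_le_rpow (Nat.cast_nonneg _) h6 (by positivity)
        _ = (T : ℝ) ^ (K * (e / (K + 1))) := by
            rw [← Real.rpow_natCast, ← Real.rpow_mul (by linarith)]
        _ ≤ (T : ℝ) ^ e := by
            refine Real.rpow_le_rpow_of_exponent_le hTR ?_
            rw [mul_div_assoc', div_le_iff₀ (by positivity)]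
            nlinarith)
    have h7 : 1 / 2 < outM μ s η 0 T m ((T : ℝ) ^ e * wd' μ s T) / Real.exp (V μ s η 0 (T + m)) := by
      rw [lt_div_iff₀ (Real.exp_pos _)]
      linarith
    rw [hQ]
    exact h7.le.trans h4
  have h8 := mul_meas_ge_le_integral_of_nonneg (μ := law μ) (f := Q) (ae_of_all _ hQ0) hQi (1 / 2)
  have h9 : (law μ).real {η | 1 / 2 ≤ Q η} ≤ 2 * Real.exp (-(T : ℝ) ^ c') := by
    have h10 : 1 / 2 * (law μ).real {η | 1 / 2 ≤ Q η} ≤ ∫ η, Q η ∂(law μ) := by simpa [Measure.real] using h8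
    have h11 : Real.exp (-((T + m : ℕ) : ℝ) ^ c') ≤ Real.exp (-(T : ℝ) ^ c') := by
      refine Real.exp_le_exp.2 (neg_le_neg (Real.rpow_le_rpow (by linarith) ?_ hc'.le))
      exact_mod_cast Nat.le_add_right T m
    linarith
  refine (measure_mono hsub).trans ?_
  rw [← ENNReal.ofReal_toReal (measure_ne_top (law μ) _)]
  exact ENNReal.ofReal_le_ofReal h9

/-- **The future of length `L` is smooth at the scale `T`** (seen from the base point `a`). -/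
def Fut (μ : Measure ℝ) (s : ℝ) (T L : ℕ) (δ ε : ℝ) (a : Pt) (η : Env) : Prop :=
  ∀ x x' : ℤ, |x| ≤ T → |x'| ≤ T → |((x - x' : ℤ) : ℝ)| ≤ (T : ℝ) ^ δ * wd' μ s T →
    V μ s η (a.1, a.2 + x) L ≤ V μ s η (a.1, a.2 + x') L + (T : ℝ) ^ ε * EE' μ s T

theorem Fut_sh (η : Env) (T L : ℕ) (δ ε : ℝ) (a c : Pt) : Fut μ s T L δ ε a (sh c η) ↔ Fut μ s T L δ ε (a + c) η := by
  unfold Fut
  have e : ∀ x : ℤ, V μ s (sh c η) (a.1, a.2 + x) L = V μ s η ((a + c).1, (a + c).2 + x) L := by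
    intro x
    rw [V_sh]
    congr 1
    ext
    · rfl
    · show a.2 + x + c.2 = a.2 + c.2 + x
      ring
  simp only [e]

omit [IsProbabilityMeasure μ] in
/-- Smoothness from the half mass events and the box bound. -/
theorem fut_det {η : Env} {T m : ℕ} {δ e ε : ℝ} (hT : 1 ≤ T) (hB : PBox μ s T δ ε η)
    (hH : ∀ x : ℤ, |x| ≤ T → Hlf μ s T m ((T : ℝ) ^ e * wd' μ s T) (0, x) η)
    (h2 : 2 * (T : ℝ) ^ e ≤ (T : ℝ) ^ δ) (hl : (T : ℝ) ^ δ * wd' μ s T ≤ sl μ s * T) (hr : (T : ℝ) ^ δ * wd' μ s T ≤ (1 - sl μ s) * T)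
    {ε' : ℝ} (h3 : 2 * (T : ℝ) ^ ε + 1 ≤ (T : ℝ) ^ ε') : Fut μ s T (T + m) e ε' 0 η := by
  intro x x' hx hx' hd
  have hTR : (1 : ℝ) ≤ T := by exact_mod_cast hT
  have hw : 1 ≤ wd' μ s T := le_max_left _ _
  have hE : 1 ≤ EE' μ s T := le_max_left _ _
  have e0 : ∀ z : ℤ, (((0 : Pt).1, (0 : Pt).2 + z) : Pt) = (((0 : ℕ) : ℤ), z) := fun z => by
    ext
    · rfl
    · show (0 : ℤ) + z = z
      ring
  rw [e0, e0]
  have hdR : |(x : ℝ) - x'| ≤ (T : ℝ) ^ e * wd' μ s T := by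
    have := hd
    push_cast at this
    exact this
  have hin : ∀ z : ℤ, |(z : ℝ) - sl μ s * T| ≤ (T : ℝ) ^ e * wd' μ s T →
      |((z + x - x' : ℤ) : ℝ) - sl μ s * T| ≤ (T : ℝ) ^ δ * wd' μ s T := by
    intro z hz
    push_cast
    have h4 : (z : ℝ) + x - x' - sl μ s * T = ((z : ℝ) - sl μ s * T) + (x - x') := by ring
    rw [h4]
    refine (abs_add_le _ _).trans ?_
    have h5 : 2 * (T : ℝ) ^ e * wd' μ s T ≤ (T : ℝ) ^ δ * wd' μ s T := mul_le_mul_of_nonneg_right h2 (by linarith)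
    linarith
  have hxb : |x| ≤ 2 * (T : ℤ) := by omega
  have hxb' : |x'| ≤ 2 * (T : ℤ) := by omega
  have hmain := swap67 (μ := μ) (s := s) (η := η) (t := ((0 : ℕ) : ℤ)) (x := x) (x' := x') (T := T) (m := m)
    (r := (T : ℝ) ^ e * wd' μ s T) (B := (T : ℝ) ^ ε * EE' μ s T) (by
      have := hH x hx
      simpa using this)
    (by
      intro z hz0 hz1 _
      exact (hB 0 T (by omega) x hxb z hz0 hz1).1)
    (by
      intro z hz0 hz1 hz2
      have h4 := hin z hz2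
      have h5 := abs_le.1 h4
      have hz3 : 0 ≤ z + x - x' := by
        have h6 : (0 : ℝ) ≤ ((z + x - x' : ℤ) : ℝ) := by linarith
        exact_mod_cast h6
      have hz4 : z + x - x' ≤ T := by
        have h6 : ((z + x - x' : ℤ) : ℝ) ≤ (T : ℝ) := by linarith
        exact_mod_cast h6
      exact ⟨hz3, hz4, (hB 0 T (by omega) x' hxb' _ hz3 hz4).2.2 h4⟩)
  refine hmain.trans ?_
  have h6 : (2 * (T : ℝ) ^ ε + 1) * EE' μ s T ≤ (T : ℝ) ^ ε' * EE' μ s T := mul_le_mul_of_nonneg_right h3 (by linarith)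
  linarith

/-- **Smoothness of the future**, all lengths `T ≤ L ≤ T ^ K`. -/
theorem fut67 (h : In μ s c C n₀) (K : ℕ) : ∀ ε : ℝ, 0 < ε → ∃ δ c' : ℝ, 0 < δ ∧ 0 < c' ∧ ∃ T₀ : ℕ, ∀ T L : ℕ, T₀ ≤ T →
    T ≤ L → L ≤ T ^ K → ∀ a : Pt, law μ {η | ¬ Fut μ s T L δ ε a η} ≤ ENNReal.ofReal (Real.exp (-(T : ℝ) ^ c')) := by
  intro ε hε
  obtain ⟨δ₀, c₁, hδ₀, hc₁, L₁, hpb⟩ := Pool.Agent.W_7d29a1_HZ.pbox h (ε / 2) (by positivity)
  obtain ⟨a₁, K₁, ha₁, ha₁', hK₁, hwp⟩ := Pool.Agent.W_7d29a1_HZ.wd'_pow h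
  obtain ⟨δ, hδ⟩ : ∃ δ : ℝ, δ = min δ₀ (a₁ / 2) := ⟨_, rfl⟩
  have hδ0 : 0 < δ := by rw [hδ]; positivity
  have hδ1 : δ ≤ δ₀ := by rw [hδ]; exact min_le_left _ _
  have hδ2 : δ ≤ a₁ / 2 := by rw [hδ]; exact min_le_right _ _
  obtain ⟨c₂, hc₂, T₂, hh⟩ := hlf_prob h K (e := δ / 2) (by positivity)
  obtain ⟨m₀, hm₀⟩ : ∃ m₀ : ℝ, m₀ = min c₁ c₂ := ⟨_, rfl⟩
  have hm0 : 0 < m₀ := by rw [hm₀]; exact lt_min hc₁ hc₂
  have m1 : m₀ ≤ c₁ := by rw [hm₀]; exact min_le_left _ _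
  have m2 : m₀ ≤ c₂ := by rw [hm₀]; exact min_le_right _ _
  have hs0 := h.sl_pos
  have hs1 := h.sl_lt
  obtain ⟨g, hg⟩ : ∃ g : ℝ, g = min (sl μ s) (1 - sl μ s) := ⟨_, rfl⟩
  have hg0 : 0 < g := by rw [hg]; exact lt_min hs0 (by linarith)
  have hgl : g ≤ sl μ s := by rw [hg]; exact min_le_left _ _
  have hgr : g ≤ 1 - sl μ s := by rw [hg]; exact min_le_right _ _
  have ev1 := Pool.Agent.W_7d29a1_HZ.Z22.absorb 8 1 (b := 1) (g := m₀) one_pos hm0
  have ev2 : ∀ᶠ T : ℕ in atTop, (2 : ℝ) ≤ (T : ℝ) ^ (δ / 2) :=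
    ((tendsto_rpow_atTop (by positivity : 0 < δ / 2)).comp tendsto_natCast_atTop_atTop).eventually_ge_atTop _
  have ev3 : ∀ᶠ T : ℕ in atTop, (3 : ℝ) ≤ (T : ℝ) ^ (ε / 2) :=
    ((tendsto_rpow_atTop (by positivity : 0 < ε / 2)).comp tendsto_natCast_atTop_atTop).eventually_ge_atTop _
  have ev4 : ∀ᶠ T : ℕ in atTop, K₁ * wd' μ s 1 / g ≤ (T : ℝ) ^ (a₁ / 2) :=
    ((tendsto_rpow_atTop (by positivity : 0 < a₁ / 2)).comp tendsto_natCast_atTop_atTop).eventually_ge_atTop _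
  obtain ⟨N₁, hN₁⟩ := eventually_atTop.1 (ev1.and (ev2.and (ev3.and ev4)))
  refine ⟨δ / 2, m₀ / 2, by positivity, by positivity, max (max L₁ T₂) (max N₁ 1), fun T L hT hTL hLK a => ?_⟩
  have hL₁ : L₁ ≤ T := (le_max_left _ _).trans ((le_max_left _ _).trans hT)
  have hT₂ : T₂ ≤ T := (le_max_right _ _).trans ((le_max_left _ _).trans hT)
  have hNN : N₁ ≤ T := (le_max_left _ _).trans ((le_max_right _ _).trans hT)
  have hT1 : 1 ≤ T := (le_max_right _ _).trans ((le_max_right _ _).trans hT)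
  have hTR : (1 : ℝ) ≤ T := by exact_mod_cast hT1
  have hT0 : (0 : ℝ) < T := by linarith
  obtain ⟨k1, k2, k3, k4⟩ := hN₁ T hNN
  obtain ⟨m, rfl⟩ : ∃ m : ℕ, L = T + m := ⟨L - T, by omega⟩
  -- to the base point `0`
  have hsh : law μ {η | ¬ Fut μ s T (T + m) (δ / 2) ε a η} ≤ law μ {η | ¬ Fut μ s T (T + m) (δ / 2) ε 0 η} := by
    have h2 := (mp_sh (μ := μ) a).measure_preimage_le (s := {η | ¬ Fut μ s T (T + m) (δ / 2) ε 0 η})
    refine le_trans (le_of_eq ?_) h2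
    congr 1
    ext η
    show ¬ Fut μ s T (T + m) (δ / 2) ε a η ↔ ¬ Fut μ s T (T + m) (δ / 2) ε 0 (sh a η)
    rw [Fut_sh, zero_add]
  refine hsh.trans ?_
  -- the numbers
  have hw0 : 0 ≤ wd' μ s T := zero_le_one.trans (le_max_left _ _)
  have hcone : (T : ℝ) ^ δ * wd' μ s T ≤ g * T := by
    have h3 := (hwp 1 T le_rfl hT1).2.2
    rw [Nat.cast_one, div_one] at h3
    have h4 : (T : ℝ) ^ δ ≤ (T : ℝ) ^ (a₁ / 2) := Real.rpow_le_rpow_of_exponent_le hTR hδ2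
    rw [div_le_iff₀ hg0] at k4
    have e1 : (T : ℝ) ^ (a₁ / 2) * (T : ℝ) ^ (1 - a₁) * (T : ℝ) ^ (a₁ / 2) = T := by
      rw [← Real.rpow_add hT0, ← Real.rpow_add hT0]
      have : a₁ / 2 + (1 - a₁) + a₁ / 2 = 1 := by ring
      rw [this, Real.rpow_one]
    calc (T : ℝ) ^ δ * wd' μ s T ≤ (T : ℝ) ^ (a₁ / 2) * (K₁ * (T : ℝ) ^ (1 - a₁) * wd' μ s 1) :=
          mul_le_mul h4 h3 hw0 (by positivity)
      _ = (T : ℝ) ^ (a₁ / 2) * (T : ℝ) ^ (1 - a₁) * (K₁ * wd' μ s 1) := by ring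
      _ ≤ (T : ℝ) ^ (a₁ / 2) * (T : ℝ) ^ (1 - a₁) * ((T : ℝ) ^ (a₁ / 2) * g) := mul_le_mul_of_nonneg_left k4 (by positivity)
      _ = g * ((T : ℝ) ^ (a₁ / 2) * (T : ℝ) ^ (1 - a₁) * (T : ℝ) ^ (a₁ / 2)) := by ring
      _ = g * T := by rw [e1]
  have h2e : 2 * (T : ℝ) ^ (δ / 2) ≤ (T : ℝ) ^ δ := by
    have e1 : (T : ℝ) ^ δ = (T : ℝ) ^ (δ / 2) * (T : ℝ) ^ (δ / 2) := by
      rw [← Real.rpow_add hT0]
      congr 1
      ring
    rw [e1]
    exact mul_le_mul_of_nonneg_right k2 (by positivity)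
  have h3e : 2 * (T : ℝ) ^ (ε / 2) + 1 ≤ (T : ℝ) ^ ε := by
    have e1 : (T : ℝ) ^ ε = (T : ℝ) ^ (ε / 2) * (T : ℝ) ^ (ε / 2) := by
      rw [← Real.rpow_add hT0]
      congr 1
      ring
    rw [e1]
    nlinarith
  -- the union
  obtain ⟨X, hX⟩ : ∃ X : Finset ℤ, X = Icc (-(T : ℤ)) T := ⟨_, rfl⟩
  have hsub : {η : Env | ¬ Fut μ s T (T + m) (δ / 2) ε 0 η} ⊆ {η | ¬ PBox μ s T δ₀ (ε / 2) η} ∪
      ⋃ x ∈ X, {η | ¬ Hlf μ s T m ((T : ℝ) ^ (δ / 2) * wd' μ s T) (0, x) η} := by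
    intro η hη
    by_contra hcon
    rw [Set.mem_union, not_or] at hcon
    obtain ⟨q1, q2⟩ := hcon
    refine hη (fut_det (μ := μ) (s := s) (δ := δ) (ε := ε / 2) hT1
      (Pool.Agent.W_7d29a1_HZ.PBox.mono hT1 hδ1 le_rfl (not_not.1 q1)) ?_ h2e ?_ ?_ h3e)
    · intro x hx
      by_contra h4
      refine q2 (Set.mem_iUnion₂.2 ⟨x, ?_, h4⟩)
      rw [hX, mem_Icc]
      exact abs_le.1 hx
    · exact hcone.trans (mul_le_mul_of_nonneg_right hgl hT0.le)
    · exact hcone.trans (mul_le_mul_of_nonneg_right hgr hT0.le)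
  refine (measure_mono hsub).trans ((measure_union_le _ _).trans ?_)
  obtain ⟨E, hE⟩ : ∃ E : ℝ, E = Real.exp (-(T : ℝ) ^ m₀) := ⟨_, rfl⟩
  have hE0 : 0 < E := by rw [hE]; exact Real.exp_pos _
  have hmono : ∀ q : ℝ, m₀ ≤ q → Real.exp (-(T : ℝ) ^ q) ≤ E := fun q hq => by
    rw [hE]
    exact Real.exp_le_exp.2 (neg_le_neg (Real.rpow_le_rpow_of_exponent_le hTR hq))
  have h5 : law μ {η | ¬ PBox μ s T δ₀ (ε / 2) η} ≤ ENNReal.ofReal E := (hpb T hL₁).trans (ENNReal.ofReal_le_ofReal (hmono _ m1))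
  have h6 : law μ (⋃ x ∈ X, {η | ¬ Hlf μ s T m ((T : ℝ) ^ (δ / 2) * wd' μ s T) (0, x) η}) ≤ ENNReal.ofReal (6 * (T : ℝ) * E) := by
    refine (measure_biUnion_finset_le _ _).trans ?_
    have h7 : ∀ x ∈ X, law μ {η | ¬ Hlf μ s T m ((T : ℝ) ^ (δ / 2) * wd' μ s T) (0, x) η} ≤ ENNReal.ofReal (2 * E) := fun x _ =>
      (hh T m hT₂ hLK (0, x)).trans (ENNReal.ofReal_le_ofReal (mul_le_mul_of_nonneg_left (hmono _ m2) (by norm_num)))
    refine (sum_le_sum h7).trans ?_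
    rw [sum_const, nsmul_eq_mul, ← ENNReal.ofReal_natCast, ← ENNReal.ofReal_mul (Nat.cast_nonneg _)]
    refine ENNReal.ofReal_le_ofReal ?_
    have h8 : (X.card : ℝ) ≤ 3 * T := by
      rw [hX, Int.card_Icc]
      have : ((T : ℤ) + 1 - -(T : ℤ)).toNat = 2 * T + 1 := by omega
      rw [this]
      push_cast
      linarith
    calc (X.card : ℝ) * (2 * E) ≤ 3 * T * (2 * E) := mul_le_mul_of_nonneg_right h8 (by positivity)
      _ = 6 * T * E := by ring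
  refine (add_le_add h5 h6).trans ?_
  rw [← ENNReal.ofReal_add hE0.le (by positivity)]
  refine ENNReal.ofReal_le_ofReal ?_
  rw [Real.rpow_one, one_mul, ← hE] at k1
  refine le_trans ?_ k1
  nlinarith

/-- The smoothness of the future, real form: two starts at the distance at most `wd T`, all lengths `T ≤ L ≤ T ^ p`. -/
def FUT67 (μ : Measure ℝ) (s : ℝ) : Prop := ∀ e : ℝ, 0 < e → ∀ p : ℝ, ∃ c' : ℝ, 0 < c' ∧ ∃ T₀ : ℕ, ∀ T : ℕ, T₀ ≤ T → ∀ L : ℕ, T ≤ L →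
  (L : ℝ) ≤ (T : ℝ) ^ p → (law μ).real {η | ¬ ∀ x x' : ℤ, |x| ≤ (T : ℤ) → |x'| ≤ (T : ℤ) → |((x : ℝ) - x')| ≤ wd μ s T →
    |V μ s η (0, x) L - V μ s η (0, x') L| ≤ (T : ℝ) ^ e * Pool.Agent.W_7d29a1_H.EE μ s T} ≤ Real.exp (-(T : ℝ) ^ c')

theorem fut_real67 (h : In μ s c C n₀) : FUT67 μ s := by
  intro e he p
  obtain ⟨K, hK⟩ : ∃ K : ℕ, K = ⌈p⌉₊ := ⟨_, rfl⟩
  have hpK : p ≤ K := by rw [hK]; exact Nat.le_ceil p
  obtain ⟨δ, c', hδ, hc', T₁, hf⟩ := fut67 h K e he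
  obtain ⟨T₂, hT₂⟩ := Pool.Agent.W_7d29a1_HZ.wd'_eq h
  refine ⟨c', hc', max (max T₁ T₂) 1, fun T hT L hTL hLp => ?_⟩
  have h1 : T₁ ≤ T := (le_max_left _ _).trans ((le_max_left _ _).trans hT)
  have h2 : T₂ ≤ T := (le_max_right _ _).trans ((le_max_left _ _).trans hT)
  have hT1 : 1 ≤ T := (le_max_right _ _).trans hT
  have hTR : (1 : ℝ) ≤ T := by exact_mod_cast hT1
  have hLK : L ≤ T ^ K := by
    have h3 : (L : ℝ) ≤ (T : ℝ) ^ K := by
      refine hLp.trans ?_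
      rw [← Real.rpow_natCast]
      exact Real.rpow_le_rpow_of_exponent_le hTR hpK
    exact_mod_cast h3
  obtain ⟨w1, w2, -⟩ := hT₂ T h2
  have h4 := hf T L h1 hTL hLK 0
  rw [measureReal_def]
  refine ENNReal.toReal_le_of_le_ofReal (Real.exp_pos _).le ((measure_mono ?_).trans h4)
  intro η hη hF
  refine hη fun x x' hx hx' hd => ?_
  have e0 : ∀ z : ℤ, (((0 : Pt).1, (0 : Pt).2 + z) : Pt) = (0, z) := fun z => by
    ext
    · rfl
    · show (0 : ℤ) + z = z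
      ring
  have hw0 : 0 ≤ wd' μ s T := zero_le_one.trans (le_max_left _ _)
  have hwd : wd μ s T ≤ (T : ℝ) ^ δ * wd' μ s T := by
    rw [← w1]
    exact le_mul_of_one_le_left hw0 (Real.one_le_rpow hTR hδ.le)
  have q1 := hF x x' hx hx' (by
    push_cast
    exact hd.trans hwd)
  have q2 := hF x' x hx' hx (by
    push_cast
    rw [abs_sub_comm]
    exact hd.trans hwd)
  rw [e0, e0, w2] at q1 q2
  rw [abs_le]
  constructor
  · linarith
  · linarith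

end

end Pool.Agent.W_7d29a1_C1
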