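import Pool.Agent.W_7d29a1_C1.TopE16
import Pool.Agent.W_7d29a1_C1.CrY84
import Pool.Agent.W_7d29a1_C1.Fut67
import Pool.Agent.W_7d29a1_C1.Tilt57B
import Pool.Agent.W_7d29a1_C1.D2T99

/-!
MP_7d29a1_pr, [C1] attractor route, TAME: THE CRUDE TOP FROM `In` ALONE. (helper16)

`lb_in16`, `ub_in16`, `fut_in16`, `cry_in16` : the bounds of the variance, the regularity of the futures and the crude comparison, at every
tilt, from `In`; `evn_topI16` : the event of `evn_top16` is `Top99`, no hypothesis left.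
-/

set_option autoImplicit false

namespace Pool.Agent.W_7d29a1_C1.U16

open MeasureTheory Filter Topology Finset
open Pool.Agent.W_7d29a1_F Pool.Agent.W_7d29a1_h4g Pool.Agent.W_7d29a1_H Pool.Agent.W_7d29a1_HS
open Pool.Agent.W_7d29a1_C1.Win84
open Pool.Agent.W_7d29a1_C1.Q49
open Pool.Agent.W_7d29a1_C1.D2T99

noncomputable section

variable {μ : Measure ℝ} {s c C : ℝ} {n₀ : ℕ} [IsProbabilityMeasure μ] {P : Pre} {Dd : Dat}

theorem lb_in16 (h : In μ s c C n₀) : LB84 μ s := Pool.Agent.W_7d29a1_LB.lb_all h.em h.nd s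

theorem ub_in16 (h : In μ s c C n₀) : UB84 μ s := Pool.Agent.W_7d29a1_LB.ub_all29 h.em h.nd s

theorem fut_in16 (h : In μ s c C n₀) : FUT84 μ s := Pool.Agent.W_7d29a1_C1.fut_real67 h

/-- **The crude comparison**, from `In`. -/
theorem cry_in16 (h : In μ s c C n₀) : CrY16 μ s := Cr84.crY84 h (lb_in16 h) (ub_in16 h) (fut_in16 h)

/-- **THE CRUDE TOP**, eventually, from `In`. -/
theorem evn_topI16 (h0 : In μ s c C n₀) {e₁ : ℝ} (he₁ : 0 < e₁) {σ K₁ : ℝ} (hσ : 0 < σ) (hσ1 : σ ≤ 1) (hK₁ : 1 ≤ K₁) :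
    Evn P Dd μ s fun _ _ _ _ n Γ G mt _ _ => ∃ bad : Set Env, law μ bad ≤ ENNReal.ofReal ((n : ℝ) ^ (-(5 : ℝ))) ∧
      ∀ η ∉ bad, Top99 μ s Γ G mt ((n : ℝ) ^ e₁) σ K₁ η :=
  (evn_top16 h0 (lb_in16 h0) (cry_in16 h0) (Pool.Agent.W_7d29a1_C1.Tl57.ee9_57 h0) he₁ hσ hσ1 hK₁).mono fun _ _ _ _ _ _ _ _ _ _ h => by
    obtain ⟨bad, hb, H⟩ := h
    exact ⟨bad, hb, fun η hη M' p' h1 h2 h3 a t h4 h5 h6 x₀ x x' h7 h8 => H η hη h1 h2 h3 h4 h5 h6 h7 h8⟩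

end

end Pool.Agent.W_7d29a1_C1.U16
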