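import Pool.Agent.W_7d29a1_C1.D2I99
import Pool.Agent.W_7d29a1_C1.OuH43
import Pool.Agent.W_7d29a1_C1.TopI16
import Pool.Agent.W_7d29a1_C1.D2V96
import Pool.Agent.W_7d29a1_C1.NumD85

/-!
MP_7d29a1_pr, [C1] attractor route, TAME: THE LEAF D2 IN THE ORDER OF THE CONSTANTS. (helper96)

* `near96`, `small96` : powers near to 1; `evT96` : the conditions `Dt99` on the constants of the depths hold, each constant beyond a threshold
  which sees only the earlier ones;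
* **`d2J96`** : `D2J43` (helper43's leaf D2, `OuH43`) from `In` alone, over helper99's `d2I99` and helper16's `evn_topI16`.
-/

set_option autoImplicit false

namespace Pool.Agent.W_7d29a1_C1.DJ96

open MeasureTheory Finset Filter
open Pool.Agent.W_7d29a1_F Pool.Agent.W_7d29a1_h4g Pool.Agent.W_7d29a1_H Pool.Agent.W_7d29a1_HS
open Pool.Agent.W_7d29a1_C1.H75 Pool.Agent.W_7d29a1_C1.U16
open Pool.Agent.W_7d29a1_C1.H60
open Pool.Agent.W_7d29a1_C1.H40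
open Pool.Agent.W_7d29a1_C1.G37 (Gm Wok gmW)
open Pool.Agent.W_7d29a1_C1.SF98
open Pool.Agent.W_7d29a1_C1.PW86
open Pool.Agent.W_7d29a1_C1.Dep6
open Pool.Agent.W_7d29a1_C1.Q49
open Pool.Agent.W_7d29a1_C1.Hp2
open Pool.Agent.W_7d29a1_C1.Hp39
open Pool.Agent.W_7d29a1_C1.PrC99
open Pool.Agent.W_7d29a1_C1.PrQ99
open Pool.Agent.W_7d29a1_C1.D2T99
open Pool.Agent.W_7d29a1_C1.D2I99
open Pool.Agent.W_7d29a1_C1.DW96
open Pool.Agent.W_7d29a1_C1.Ht43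
open Pool.Agent.W_7d29a1_C1.H94 (Cs94)
open scoped ENNReal

noncomputable section

/-- A power of a number near to 1 is small. -/
theorem near96 {y : ℝ} (hy : 1 < y) (N : ℕ) : Or43 fun x => x ^ N ≤ y := by
  have hy0 : 0 < y := by linarith
  have hN : (0 : ℝ) < (N : ℝ) + 1 := by positivity
  refine ⟨y ^ (1 / ((N : ℝ) + 1)), Real.one_lt_rpow hy (by positivity), fun x hx hx' => ?_⟩
  have h1 : x ^ N ≤ x ^ (N + 1) := pow_le_pow_right₀ hx.le (Nat.le_succ N)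
  have h2 : x ^ (N + 1) ≤ (y ^ (1 / ((N : ℝ) + 1))) ^ (N + 1) := pow_le_pow_left₀ (by linarith) hx' _
  have h3 : (y ^ (1 / ((N : ℝ) + 1))) ^ (N + 1) = y := by
    rw [← Real.rpow_natCast, ← Real.rpow_mul hy0.le]
    push_cast
    rw [one_div, inv_mul_cancel₀ hN.ne', Real.rpow_one]
  rw [h3] at h2
  exact h1.trans h2

/-- A small power of a large number is near to 1. -/
theorem small96 {r y : ℝ} (hr : 1 ≤ r) (hy : 1 < y) : Sr43 fun e => r ^ e ≤ y := by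
  have hly : 0 < Real.log y := Real.log_pos hy
  have hlr : 0 ≤ Real.log r := Real.log_nonneg hr
  refine ⟨Real.log y / (Real.log r + 1), by positivity, fun e he he' => ?_⟩
  show r ^ e ≤ y
  rw [Real.rpow_def_of_pos (by linarith), ← Real.le_log_iff_exp_le (by linarith)]
  have h1 : e * (Real.log r + 1) ≤ Real.log y := by rwa [le_div_iff₀ (by positivity)] at he'
  nlinarith

/-- **THE CONDITIONS ON THE CONSTANTS OF THE DEPTHS HOLD**, in the order of the constants. -/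
theorem evT96 {μ : Measure ℝ} {s c : ℝ} {N : Nc43} (hN : N.Ok μ s) (b : ℕ) (Rm Lm₀ : ℝ) {g₀ a₀ : ℝ} (hg : 1 < g₀)
    (hb : 1 < (b : ℝ) ^ a₀) {ρ' : ℕ} (hρ : 1 ≤ ρ') (pw : ℕ) :
    EvT43 μ s c N fun T => Dt99 μ s b N.θ N.K0 Rm Lm₀ g₀ a₀ pw ρ' T ∧ Tgg43 μ s c T := by
  have hc₁ : 0 < N.c₁ := by
    obtain ⟨n₃, Y₁, h⟩ := hN 0
    exact h.c₁0
  have hρR : (1 : ℝ) ≤ ρ' := by exact_mod_cast hρ
  refine ⟨12, fun K hK => ⟨1 / (32 * ((b : ℝ) ^ 2 + 1)), by positivity, fun θ hθ hθ1 => ⟨1, one_pos, fun e _ _ P hP => ⟨0, fun j₁ _ δ d0 d1 d2 =>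
    ⟨2, fun B₂ hB₂ => ⟨4, fun B₁ hB₁ => ⟨Lm₀, fun Lm hLm => ?_⟩⟩⟩⟩⟩⟩⟩
  have hy : 1 < min (min g₀ ((b : ℝ) ^ a₀)) 2 := lt_min (lt_min hg hb) one_lt_two
  obtain ⟨x₀, hx₀, hx⟩ := near96 hy (24 + 36 * pw)
  refine ⟨x₀, hx₀, fun Th hTh hTh' => ?_⟩
  obtain ⟨e₀, he₀, hes⟩ := small96 hρR hTh
  refine ⟨min e₀ 1, lt_min he₀ one_pos, fun es h1 h2 n₁s => ⟨64 * b, fun Kb hKb n₃ Y₁ hC => ?_⟩⟩
  obtain ⟨Cn₀, hCn₀⟩ := pow_unbounded_of_one_lt B₂ hTh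
  refine ⟨max Cn₀ 1, fun Cn hCn => ⟨max (ρ' ^ Cn) ⌈Rm⌉₊, fun R hR => ⟨max 8 (max (8 * Y₁) (64 / N.c₁)), fun Y hY => ⟨0, fun q₀ hq ht => ?_⟩⟩⟩⟩
  have hpw := hx Th hTh hTh'
  have hθb : 32 * θ * (b : ℝ) ^ 2 ≤ 1 := by
    have h3 : θ * (32 * ((b : ℝ) ^ 2 + 1)) ≤ 1 := by rwa [le_div_iff₀ (by positivity)] at hθ1
    nlinarith
  refine ⟨?_, ht⟩
  exact
  { θ0 := hθ
    θb := hθb
    K := hK
    B₁ := hB₁
    B₂ := hB₂
    Y := (le_max_left _ _).trans hY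
    δ0 := d0
    δ1 := d1
    δ2 := d2
    θs := hθb
    Lm := hLm
    es0 := h1.le
    es1 := h2.trans (min_le_right _ _)
    Th1 := hTh
    Th2 := hpw.trans (min_le_right _ _)
    Thg := hpw.trans ((min_le_left _ _).trans (min_le_left _ _))
    Tha := hpw.trans ((min_le_left _ _).trans (min_le_right _ _))
    ρ1 := hρ
    es := hes es h1 (h2.trans (min_le_left _ _))
    tha := rfl
    Cs := ⟨N.c₁, N.A, N.a, N.g, Y₁, hC, ((le_max_left _ _).trans (le_max_right _ _)).trans hY, by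
      have h3 : 64 / N.c₁ ≤ Y := ((le_max_right _ _).trans (le_max_right _ _)).trans hY
      rw [div_le_iff₀ hc₁] at h3
      show 64 ≤ N.c₁ * Y
      linarith⟩
    Kb := hKb
    Cn1 := (le_max_right _ _).trans hCn
    Cn := hCn₀.le.trans (pow_le_pow_right₀ hTh.le ((le_max_left _ _).trans hCn))
    R := (le_max_left _ _).trans hR
    Rm := by
      have h3 : ⌈Rm⌉₊ ≤ R := (le_max_right _ _).trans hR
      exact (Nat.le_ceil _).trans (by exact_mod_cast h3)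
    q0 := hq }

variable {μ : Measure ℝ} {s c C a Cg : ℝ} {n₀ : ℕ}

/-- The numbers, from one record to the other. -/
theorem nd96_99 {Γ : Cx} {G : Gm} {mt n b n₁ m₁ ke J : ℕ} {g₀ e₁ : ℝ} (h : Nd96 μ s c Γ G mt n b n₁ m₁ ke J g₀ e₁) :
    Nd99 μ s c Γ G mt n b n₁ m₁ ke J g₀ e₁ :=
  ⟨h.hs, h.hv, h.hK, h.hw, h.T0, h.N, h.fo, h.sw, h.M1, h.e1, h.e2, h.pw⟩

/-- **THE LEAF D2.** -/
theorem d2J96 [IsProbabilityMeasure μ] (h0 : In μ s c C n₀) : D2J43 μ s c a Cg := by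
  intro e he N hN
  have hE9 := Pool.Agent.W_7d29a1_C1.Tl57.ee9_57 h0
  have hc0 := h0.c0
  have hc1 := h0.c1
  obtain ⟨pw, a₀, ha₀, H⟩ := d2I99 h0
  have hθn : 0 < N.θ := by
    obtain ⟨n₃, Y₁, h⟩ := hN 0
    exact h.θ0
  obtain ⟨K₂, hK₂, H⟩ := H hθn N.K0
  obtain ⟨K₃, hK₃⟩ := Pool.Agent.W_7d29a1_C1.NumD85.four_le85 he
  refine ⟨max K₂ K₃, fun Dd hDK _ _ ke hke D k _ _ => ?_⟩
  have hb1 : K₂ ≤ Dd.K := (le_max_left _ _).trans hDK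
  have hb4 : 4 ≤ (Dd.K : ℝ) ^ e := hK₃ _ ((le_max_right _ _).trans hDK)
  obtain ⟨g₀, Lm₀, hg1, hg2, hL, Rm, H⟩ := H Dd.K hb1
  refine ⟨0, fun z _ => ?_⟩
  have hρ : 1 ≤ 2 * (2 * Dd.K) ^ D := by
    have : 0 < (2 * Dd.K) ^ D := pow_pos (by omega) _
    omega
  refine (evT96 hN Dd.K Rm Lm₀ hg1 (Pool.Agent.W_7d29a1_C1.NumD85.one_lt_pow85 (by omega) ha₀) hρ pw).mono fun T hT => ?_
  obtain ⟨hT, A, a, g, A', a', g', n₂, hTg⟩ := hT
  obtain ⟨Q₀, n₁, hQ₀, hn₁, H⟩ := H hT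
  have hTh0 : 0 ≤ T.Th := by linarith [hT.Th1]
  refine ⟨Q₀, T.Th ^ (4 + 9 * pw), c / 256, hQ₀, one_le_pow₀ hT.Th1.le, by positivity, by linarith, ?_, fun J P => ?_⟩
  · refine le_trans ?_ hb4
    have e1 : (T.Th ^ 2 * T.Th ^ (4 + 9 * pw)) ^ 4 = T.Th ^ (24 + 36 * pw) := by
      rw [← pow_add, ← pow_mul]
      congr 1
      ring
    rw [e1]
    linarith [hT.Th2]
  have hC0 : 0 ≤ C0P P := by
    have a1 := P.hkn
    have a2 := P.hkb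
    unfold C0P
    linarith
  obtain ⟨m₁, H⟩ := H (C0 := C0P P) D J hC0 le_rfl
  obtain ⟨l, hl⟩ := pow_unbounded_of_one_lt (C0P P) (one_lt_two (α := ℝ))
  refine ⟨max m₁ l, 1, fun C2 hC2 => ?_⟩
  have hke0 : (0 : ℝ) < ke := by exact_mod_cast hke
  have hlg : 0 < Real.log g₀ := Real.log_pos hg1
  have hkap := Dd.hkap
  have he₁ : 0 < Dd.kap * Real.log g₀ / (8 * ke) := by positivity
  refine (((evn_nd96 (P := P) (Dd := Dd) h0 hE9 n₁ m₁ J hg1 hke le_rfl).and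
    (evn_topI16 (P := P) (Dd := Dd) h0 he₁ (σ := c / 64) (K₁ := 1) (by positivity) (by linarith) le_rfl)).and
    (evn_T0 fun _ _ _ _ _ _ _ => n₂)).mono fun q η A lam n Γ G mt τ0 E h hτ => ?_
  obtain ⟨⟨hn, bad, hb, hTop⟩, hT0⟩ := h
  refine ⟨bad, by rwa [Nat.cast_one, one_mul], fun η' hη ρ u Z _ _ hPW hODW hO hue f h1 h2 => ?_⟩
  exact H ((le_max_left _ _).trans hC2) (hl.le.trans (pow_le_pow_right₀ one_le_two ((le_max_right _ _).trans hC2))) (nd96_99 hn)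
    (hTg G hT0) (hTop η' hη) le_rfl ρ u Z hPW hODW (hO id (Finset.mem_singleton_self _)).1 hue f h1 h2

end

end Pool.Agent.W_7d29a1_C1.DJ96
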