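import Pool.Agent.W_7d29a1_C1.D2S72
import Pool.Agent.W_7d29a1_C1.BlkP61

/-!
MP_7d29a1_pr, [C1] attractor route, TAME: (D2) AT THE OWN CUTS, ONE ENVIRONMENT, ONE LIST. (helper67)

**`d2own67`**: no layer and no node is felt at `u` (`Ok6 ∅`), crude (D2) at the rows of the scales `w`, `u + e ≤ w ≤ u + 2 e + 6`, with the
constant `Qc`, `Qc + 2 ≤ g₀ ^ (e - J - 1)` ==> (D2) at the rows of the cuts `ct f ρ`, `u ≤ f ≤ u + J`, in the unit `8 K ^ 2 T (f + 1)`,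
with the constant `Q₀ g ^ (f - u)`. Cases: the clean cuts reach `u + e` (one piece), or not (tower, block, short clean piece).
-/

set_option autoImplicit false

namespace Pool.Agent.W_7d29a1_C1.D2C67

open MeasureTheory ProbabilityTheory Filter Topology Finset
open Pool.Agent.W_7d29a1_F Pool.Agent.W_7d29a1_h4g Pool.Agent.W_7d29a1_H Pool.Agent.W_7d29a1_HS
open Pool.Agent.W_7d29a1_C1.H75 Pool.Agent.W_7d29a1_C1.U16 Pool.Agent.W_7d29a1_C1.FarK89 Pool.Agent.W_7d29a1_C1.FarW89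
open Pool.Agent.W_7d29a1_C1.DD84 Pool.Agent.W_7d29a1_C1.SysN89 Pool.Agent.W_7d29a1_C1.LrN89
open Pool.Agent.W_7d29a1_C1.H40 Pool.Agent.W_7d29a1_C1.S71 Pool.Agent.W_7d29a1_C1.Dep6
open Pool.Agent.W_7d29a1_C1.H94 (nu Cs94)
open Pool.Agent.W_7d29a1_C1.BlkD61 (blkP61)

noncomputable section

variable {μ : Measure ℝ} {s c C : ℝ} {n₀ : ℕ}

/-- **(D2) at the row `row`** in the unit of the height `T`. -/
def D2p67 (μ : Measure ℝ) (s h : ℝ) (η : Env) (p : ℕ → ℝ) (M N : ℕ) (κ : Pt) (row : ℤ) (T : ℕ) (K₁ Q σ : ℝ) : Prop :=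
  ∀ y y' : ℤ, |lat16 μ s κ (row, y')| ≤ K₁ * wd μ s T →
    bh16 μ s h η p M N row.toNat y ≤
      Real.exp ((Q + σ * (|lat16 μ s κ (row, y)| / wd μ s T)) * EE μ s T) * bh16 μ s h η p M N row.toNat y'

/-- A column near the line. -/
theorem col67 (κ : Pt) (row : ℤ) : ∃ y : ℤ, |lat16 μ s κ (row, y)| ≤ 1 := by
  refine ⟨⌊(κ.2 : ℝ) + sl μ s * ((row : ℝ) - κ.1)⌋, ?_⟩
  have h1 := Int.floor_le ((κ.2 : ℝ) + sl μ s * ((row : ℝ) - κ.1))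
  have h2 := Int.lt_floor_add_one ((κ.2 : ℝ) + sl μ s * ((row : ℝ) - κ.1))
  unfold lat16
  rw [abs_le]
  push_cast
  constructor <;> linarith

/-- The laterals: the power eats the constant. -/
theorem lat67 {σ Λ : Type*} {G : Geo σ Λ} {lat : σ → ℝ} {latC : Cut Λ → ℝ} {w : ℕ → ℝ} {C0 Cw : ℝ} {C2 Dd : ℕ} {Z : List (Cut Λ)} {ρ : σ}
    {u : ℕ} {cs : ℕ → Cut Λ} {v0 v1 v2 iL iC iT : ℕ} {ρ' : ℕ} (h : OwnL G lat latC w C0 C2 Dd Z ρ u cs v0 v1 v2 iL iC iT)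
    (hw0 : ∀ v, 0 ≤ w v) (hCw : ∀ v, w (v + 1) ≤ Cw * w v) (hCw1 : 1 ≤ Cw) (hρ : 2 * Cw ^ Dd ≤ (ρ' : ℝ)) (hC0 : C0 ≤ 2 ^ C2) (hC0' : 0 ≤ C0) :
    (∀ {f k : ℕ}, u ≤ f → v0 ≤ f → f + k ≤ v1 → |latC (cs (iC + (f - v0) + k)) - lat ρ| ≤ (ρ' : ℝ) ^ (f + k - u) * w (f + k)) ∧
    ∀ {f k : ℕ}, v1 + 3 ≤ f → f + k ≤ G.m → |latC (cs (iT + (f - (v1 + 3)) + k)) - lat ρ| ≤ (ρ' : ℝ) ^ (f + k - u) * w (f + k) := by
  have hP : (1 : ℝ) ≤ Cw ^ Dd := one_le_pow₀ hCw1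
  have hρ2 : (2 : ℝ) ≤ ρ' := by linarith
  have hρ1 : (1 : ℝ) ≤ ρ' := by linarith
  have hpow : ∀ n, C2 ≤ n → C0 ≤ (2 : ℝ) ^ n := fun n hn => hC0.trans (pow_le_pow_right₀ (by norm_num) hn)
  refine ⟨fun {f k} h1 h2 h3 => ?_, fun {f k} h1 h2 => ?_⟩
  · refine (h.latC6 h2 h3).trans ?_
    split_ifs with h4
    · exact le_mul_of_one_le_left (hw0 _) (one_le_pow₀ hρ1)
    · refine mul_le_mul_of_nonneg_right ?_ (hw0 _)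
      exact (hpow (f + k - u) (by omega)).trans (pow_le_pow_left₀ (by norm_num) hρ2 _)
  · have a1 := h.uv1
    refine (h.latT6 h1 h2).trans ?_
    unfold BT
    have h3 : w (f + k + Dd * (f + k - u)) ≤ Cw ^ (Dd * (f + k - u)) * w (f + k) :=
      Pool.Agent.W_7d29a1_C1.LayC4.w_pow4 hCw1 hCw (f + k) _
    have h4 : C0 * Cw ^ (Dd * (f + k - u)) ≤ (ρ' : ℝ) ^ (f + k - u) := by
      rw [pow_mul]
      calc C0 * (Cw ^ Dd) ^ (f + k - u) ≤ 2 ^ (f + k - u) * (Cw ^ Dd) ^ (f + k - u) :=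
            mul_le_mul_of_nonneg_right (hpow _ (by omega)) (by positivity)
        _ = (2 * Cw ^ Dd) ^ (f + k - u) := by rw [mul_pow]
        _ ≤ (ρ' : ℝ) ^ (f + k - u) := pow_le_pow_left₀ (by positivity) hρ _
    calc C0 * w (f + k + Dd * (f + k - u)) ≤ C0 * (Cw ^ (Dd * (f + k - u)) * w (f + k)) := mul_le_mul_of_nonneg_left h3 hC0'
      _ = C0 * Cw ^ (Dd * (f + k - u)) * w (f + k) := by ring
      _ ≤ _ := mul_le_mul_of_nonneg_right h4 (hw0 _)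

/-- **THE CONSTANT**: `Q₀ ((1 + 6 q₀ Cx) ^ 4 / σ₀) ^ pw`. -/
def Qf67 (Q₀ q₀ Cx σ₀ : ℝ) (pw : ℕ) : ℝ := Q₀ * ((1 + 6 * q₀ * Cx) ^ 4 / σ₀) ^ pw

/-- The output constant of a piece. -/
theorem num67 {Q₀ q₀ Cx σ₀ t β g : ℝ} {pw k : ℕ} (hQ : 0 ≤ Q₀) (hq : 0 ≤ q₀) (hC : 1 ≤ Cx) (hσ : 0 < σ₀) (ht : 1 ≤ t) (ht2 : t ≤ 2)
    (hβ : 1 ≤ β) (hg : (t ^ 4 * β) ^ pw ≤ g) :
    Q₀ * ((1 + 3 * q₀ * Cx * t ^ (k + 1)) ^ 4 * β ^ k / σ₀) ^ pw ≤ Qf67 Q₀ q₀ Cx σ₀ pw * g ^ k := by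
  unfold Qf67
  rw [mul_assoc Q₀ (((1 + 6 * q₀ * Cx) ^ 4 / σ₀) ^ pw) (g ^ k)]
  refine mul_le_mul_of_nonneg_left ?_ hQ
  have hCx : 0 ≤ q₀ * Cx := mul_nonneg hq (by linarith)
  have htk : 1 ≤ t ^ k := one_le_pow₀ ht
  have e1 : 1 + 3 * q₀ * Cx * t ^ (k + 1) ≤ (1 + 6 * q₀ * Cx) * t ^ k := by
    have h1 : t ^ (k + 1) ≤ 2 * t ^ k := by
      rw [pow_succ, mul_comm]
      exact mul_le_mul_of_nonneg_right ht2 (by linarith)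
    have h2 := mul_le_mul_of_nonneg_left h1 (show 0 ≤ 3 * (q₀ * Cx) by linarith)
    nlinarith
  have e2 : (1 + 3 * q₀ * Cx * t ^ (k + 1)) ^ 4 ≤ ((1 + 6 * q₀ * Cx) * t ^ k) ^ 4 :=
    pow_le_pow_left₀ (by have : 0 ≤ q₀ * Cx * t ^ (k + 1) := by positivity
                         nlinarith) e1 4
  have e3 : (1 + 3 * q₀ * Cx * t ^ (k + 1)) ^ 4 * β ^ k / σ₀ ≤ (1 + 6 * q₀ * Cx) ^ 4 / σ₀ * (t ^ 4 * β) ^ k := by
    have h1 : (1 + 3 * q₀ * Cx * t ^ (k + 1)) ^ 4 * β ^ k ≤ ((1 + 6 * q₀ * Cx) * t ^ k) ^ 4 * β ^ k :=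
      mul_le_mul_of_nonneg_right e2 (by positivity)
    have h2 : ((1 + 6 * q₀ * Cx) * t ^ k) ^ 4 * β ^ k = (1 + 6 * q₀ * Cx) ^ 4 * (t ^ 4 * β) ^ k := by
      rw [mul_pow, mul_pow, ← pow_mul, ← pow_mul, mul_comm k 4]
      ring
    rw [h2] at h1
    have h3 := div_le_div_of_nonneg_right h1 hσ.le
    refine h3.trans (le_of_eq ?_)
    ring
  have e4 : 0 ≤ (1 + 3 * q₀ * Cx * t ^ (k + 1)) ^ 4 * β ^ k / σ₀ := by positivity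
  calc ((1 + 3 * q₀ * Cx * t ^ (k + 1)) ^ 4 * β ^ k / σ₀) ^ pw ≤ ((1 + 6 * q₀ * Cx) ^ 4 / σ₀ * (t ^ 4 * β) ^ k) ^ pw :=
        pow_le_pow_left₀ e4 e3 pw
    _ = ((1 + 6 * q₀ * Cx) ^ 4 / σ₀) ^ pw * ((t ^ 4 * β) ^ pw) ^ k := by
        rw [mul_pow, ← pow_mul, ← pow_mul, mul_comm k pw]
    _ ≤ ((1 + 6 * q₀ * Cx) ^ 4 / σ₀) ^ pw * g ^ k :=
        mul_le_mul_of_nonneg_left (pow_le_pow_left₀ (by positivity) hg k) (by positivity)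

/-- The constant after the block. -/
theorem blkn67 {C4 q₀ Q σ₀ t g g₀ : ℝ} {k m J : ℕ} (hC : 0 ≤ C4) (hq : 0 ≤ q₀) (hQ : 0 ≤ Q) (hσ : 0 < σ₀) (ht : 1 ≤ t) (htg : t ^ 2 ≤ g)
    (hg4 : g ^ 4 ≤ g₀) (hkm : k ≤ m + 1 + J) :
    C4 * (1 + (((1 + q₀) * t ^ (k + 3)) ^ 2 + Q * g ^ (k + 3))) ^ 4 / σ₀ + 2 ≤
      (C4 * (1 + ((1 + q₀) ^ 2 + Q)) ^ 4 / σ₀ * g₀ ^ (J + 4) + 2) * g₀ ^ m := by
  have ht2 : 1 ≤ t ^ 2 := one_le_pow₀ ht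
  have hg : 1 ≤ g := ht2.trans htg
  have hg₀ : 1 ≤ g₀ := (one_le_pow₀ hg).trans hg4
  have e1 : ((1 + q₀) * t ^ (k + 3)) ^ 2 ≤ (1 + q₀) ^ 2 * g ^ (k + 3) := by
    rw [mul_pow, ← pow_mul, mul_comm (k + 3) 2, pow_mul]
    exact mul_le_mul_of_nonneg_left (pow_le_pow_left₀ (by positivity) htg _) (by positivity)
  have e2 : 1 + (((1 + q₀) * t ^ (k + 3)) ^ 2 + Q * g ^ (k + 3)) ≤ (1 + ((1 + q₀) ^ 2 + Q)) * g ^ (k + 3) := by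
    have : 1 ≤ g ^ (k + 3) := one_le_pow₀ hg
    nlinarith
  have e3 : (1 + (((1 + q₀) * t ^ (k + 3)) ^ 2 + Q * g ^ (k + 3))) ^ 4 ≤ (1 + ((1 + q₀) ^ 2 + Q)) ^ 4 * (g₀ ^ (J + 4) * g₀ ^ m) := by
    refine (pow_le_pow_left₀ (by positivity) e2 4).trans ?_
    rw [mul_pow]
    refine mul_le_mul_of_nonneg_left ?_ (by positivity)
    calc (g ^ (k + 3)) ^ 4 = (g ^ 4) ^ (k + 3) := by rw [← pow_mul, ← pow_mul, mul_comm]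
      _ ≤ g₀ ^ (k + 3) := pow_le_pow_left₀ (by positivity) hg4 _
      _ ≤ g₀ ^ (J + 4 + m) := pow_le_pow_right₀ hg₀ (by omega)
      _ = _ := pow_add _ _ _
  have e4 : C4 * (1 + (((1 + q₀) * t ^ (k + 3)) ^ 2 + Q * g ^ (k + 3))) ^ 4 / σ₀ ≤
      C4 * ((1 + ((1 + q₀) ^ 2 + Q)) ^ 4 * (g₀ ^ (J + 4) * g₀ ^ m)) / σ₀ :=
    div_le_div_of_nonneg_right (mul_le_mul_of_nonneg_left e3 hC) hσ.le
  have e5 : 1 ≤ g₀ ^ m := one_le_pow₀ hg₀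
  have e6 : C4 * ((1 + ((1 + q₀) ^ 2 + Q)) ^ 4 * (g₀ ^ (J + 4) * g₀ ^ m)) / σ₀ =
      C4 * (1 + ((1 + q₀) ^ 2 + Q)) ^ 4 / σ₀ * g₀ ^ (J + 4) * g₀ ^ m := by ring
  rw [e6] at e4
  linarith

/-- **(D2) AT THE OWN CUTS**, one environment, one list. -/
theorem d2own67 [IsProbabilityMeasure μ] (h0 : In μ s c C n₀) : ∃ (pw : ℕ) (a₀ : ℝ), 0 < a₀ ∧ ∀ {θn : ℝ}, 0 < θn → ∀ K0 : ℕ,
    ∃ K₂ : ℕ, 16 ≤ K₂ ∧ ∀ b : ℕ, K₂ ≤ b → ∃ g₀ Lm₀ : ℝ, 1 < g₀ ∧ g₀ ^ 2 ≤ 2 ∧ 1 ≤ Lm₀ ∧ ∀ K₁ : ℝ, 1 ≤ K₁ → ∃ Rm : ℝ,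
    ∀ (P : ℕ) {θ K B₂ : ℝ}, 0 < θ → 10 ≤ K → 2 ≤ B₂ → 32 * θ * (b : ℝ) ^ 2 ≤ 1 → ∀ Y Bp δ : ℝ, 8 ≤ Y → 2 ≤ Bp → 0 < δ →
    δ ≤ θ * sl μ s → δ ≤ θ * (1 - sl μ s) → ∃ (Q₀ : ℝ) (n₁ : ℕ), 1 ≤ Q₀ ∧ 1 ≤ n₁ ∧ ∀ {x : ℝ} {ρ' : ℕ}, 1 < x → 1 ≤ ρ' →
    ∃ Cx : ℝ, 1 ≤ Cx ∧ ∀ {σ₀ q₀ C0 : ℝ} (Dd J : ℕ), 0 < σ₀ → σ₀ ≤ 1 → 256 * σ₀ ≤ c → 0 ≤ q₀ → 0 ≤ C0 → ∃ m₁ : ℕ,
    ∀ {c₀ δ₁ c₁ A₉ aa g₉ Y₁ : ℝ} {Kb n₃ : ℕ}, Cs94 μ s c₀ δ₁ c₁ A₉ aa g₉ θn Y₁ K0 Kb n₃ → 64 * b ≤ Kb → 8 * Y₁ ≤ Y → 64 ≤ c₁ * Y →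
    ∀ {th β g : ℝ} {Cn R : ℕ}, 1 ≤ th → (th * x) ^ 2 ≤ 2 → 1 ≤ β → β ≤ 2 → ((th * x) ^ 4 * β) ^ pw ≤ g → (th * x) ^ 2 ≤ g →
      g ^ 4 ≤ g₀ → th ≤ (b : ℝ) ^ a₀ → 1 ≤ Cn → B₂ ≤ β ^ Cn → ρ' ^ Cn ≤ R → Rm ≤ R →
    ∀ {h : ℝ} {η : Env} {p : ℕ → ℝ} {M Nt : ℕ}, (∀ k, k < M → p k = Real.exp (s + h)) → (∀ k, M ≤ k → p k = Real.exp s) →
    ∀ {σ Λ : Type*} {G : Geo σ Λ} {lat : σ → ℝ} {latC : Cut Λ → ℝ} {w : ℕ → ℝ} {C2 : ℕ} {Z : List (Cut Λ)} {ρ : σ} {u : ℕ}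
      {cs : ℕ → Cut Λ} {v0 v1 v2 iL iC iT : ℕ} {A a ga A' a' ga' B₁ θs Lm es Cw Qc : ℝ} {n₁s e : ℕ}
      {F : Cut Λ → Cut Λ → ℝ → Set Env} {E : Cut Λ → Cut Λ → Set Env} {E3 : Cut Λ → Cut Λ → Cut Λ → Set Env}
      {X : Cut Λ → Cut Λ → Cut Λ → Env → ℕ} {κ : Pt},
      G.K = b → LvF μ A a ga F →
      LvF μ A' a' ga' (stF6 μ s B₁ B₂ δ θs Lm n₁s (fun a b => hs67 G (lb6 a b)) (fun a => wg67 μ s G a.sc) (ceC6 latC (sl μ s)) es) →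
      (∀ a b q, F a b q ⊆ lvS μ s c θ (K + 2) P (fun a b => hs67 G (lb6 a b)) (colC6 latC (sl μ s)) a b q) →
      (∀ a b e η, dpX6 μ s c₀ δ₁ θn Y Kb n₃ R (wN6 μ s (tN6 G)) (qN6 μ s (tN6 G)) (fun _ b _ => colC6 latC (sl μ s) b) a b e η ≤
        X a b e η) →
      Ok6 ∅ (dLI6 F (stF6 μ s B₁ B₂ δ θs Lm n₁s (fun a b => hs67 G (lb6 a b)) (fun a => wg67 μ s G a.sc) (ceC6 latC (sl μ s)) es) E q₀ th
        (G.m + 1)) (dNI6 X Cn F E3 q₀ th (G.m + 1)) lb6 lbN6 Z u η →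
      OwnL G lat latC w C0 C2 Dd Z ρ u cs v0 v1 v2 iL iC iT → 0 ≤ G.row ρ → (κ.2 : ℝ) - sl μ s * (κ.1 : ℝ) = lat ρ →
      (∀ v, w v = wd μ s (G.T v)) → 1 ≤ Cw → (∀ v, w (v + 1) ≤ Cw * w v) → 2 * Cw ^ Dd ≤ (ρ' : ℝ) → C0 ≤ 2 ^ C2 → m₁ ≤ C2 →
      m₁ ≤ e → u + 2 * e + 6 ≤ G.m →
      -- sizes
      n₁ ≤ G.T0 → 16 * n₃ ≤ G.T0 → n₁s ≤ G.T0 → (∀ v, (Nt : ℝ) + 1 ≤ Real.exp (EE μ s (4 * G.T v))) →
      (∀ v, v ≤ G.m + 1 → |h| * wd μ s (hs67 G v) ≤ c / 8 * EE μ s (hs67 G v)) → (∀ v, v ≤ G.m → |h| * (8 * G.T v) ≤ 1) →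
      (∀ v, v ≤ u + 2 * e + 6 → G.row ρ + 4 * G.T v ≤ Nt) →
      -- the steep levels
      2 * Bp ≤ B₁ → 32 * θs * (b : ℝ) ^ 2 ≤ 1 → Lm₀ ≤ Lm → 0 ≤ es → es ≤ 1 → (ρ' : ℝ) ^ es ≤ x →
      -- the top
      Qc + 2 ≤ g₀ ^ (e - J - 1) →
      (∀ (v : ℕ) (a' : ℤ), u + e ≤ v → v ≤ u + 2 * e + 6 → G.row ρ ≤ a' → a' ≤ G.row ρ + 4 * G.T v → ∀ y y' : ℤ,
        |lat16 μ s κ (a', y')| ≤ 1 → bh16 μ s h η p M Nt a'.toNat y ≤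
          Real.exp ((Qc + c / 64 * (|lat16 μ s κ (a', y)| / wd μ s (hs67 G v))) * EE μ s (hs67 G v)) * bh16 μ s h η p M Nt a'.toNat y') →
      ∀ f, u ≤ f → f ≤ u + J →
        D2p67 μ s h η p M Nt κ (G.ct f ρ).row (hs67 G (f + 1)) K₁ (Qf67 Q₀ q₀ Cx σ₀ pw * g ^ (f - u)) σ₀ := by
  obtain ⟨pw, H⟩ := pcD2s72 h0
  obtain ⟨a₀, Kb0, ha₀, hKb0, HB⟩ := blkP61 h0
  obtain ⟨Ks, ns, hKs, hns, Hs⟩ := scale_num h0
  obtain ⟨nw, hnw⟩ := eventually_atTop.1 ((wd_tendsto h0).eventually_ge_atTop 2)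
  refine ⟨pw, a₀, ha₀, fun {θn} hθn K0 => ?_⟩
  obtain ⟨K₂, hK₂, H⟩ := H hθn K0
  refine ⟨max K₂ (max Ks Kb0), hK₂.trans (le_max_left _ _), fun b hKb => ?_⟩
  obtain ⟨g₀, Lm₀, hg₀, hg₀2, hLm₀, H⟩ := H b
  refine ⟨g₀, Lm₀, hg₀, hg₀2, hLm₀, fun K₁ hK₁ => ?_⟩
  obtain ⟨Rm, H⟩ := H K₁ hK₁
  refine ⟨Rm, fun P {θ K B₂} hθ hK hB₂ hθb Y Bp δ hY hBp hδ hδ1 hδ2 => ?_⟩
  obtain ⟨Q₀, n₁, hQ₀, hn₁, H⟩ := H P hθ hK hB₂ hθb Y Bp δ hY hBp hδ hδ1 hδ2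
  obtain ⟨m1, hm1, HB⟩ := HB P (K := K + 2) (by linarith) hθ
  refine ⟨Q₀, max (max n₁ m1) (max ns nw), hQ₀, hn₁.trans ((le_max_left _ _).trans (le_max_left _ _)), fun {x ρ'} hx hρ' => ?_⟩
  obtain ⟨Cx, hCx, H⟩ := H hx hρ'
  refine ⟨Cx, hCx, fun {σ₀ q₀ C0} Dd J hσ hσ1 hσc hq₀ hC0 => ?_⟩
  obtain ⟨C4, hC4, HB⟩ := HB Dd b hx C0 hC0
  obtain ⟨Qf, hQf⟩ : ∃ Qf : ℝ, Qf = Qf67 Q₀ q₀ Cx σ₀ pw := ⟨_, rfl⟩
  have hQf0 : 0 ≤ Qf := by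
    rw [hQf]
    unfold Qf67
    positivity
  obtain ⟨Q₄, hQ₄⟩ : ∃ Q₄ : ℝ, Q₄ = max (1 + 6 * q₀ * Cx) (C4 * (1 + ((1 + q₀) ^ 2 + Qf)) ^ 4 / σ₀ * g₀ ^ (J + 4) + 2) := ⟨_, rfl⟩
  have hQ₄1 : 1 + 6 * q₀ * Cx ≤ Q₄ := by rw [hQ₄]; exact le_max_left _ _
  have hQ₄2 : C4 * (1 + ((1 + q₀) ^ 2 + Qf)) ^ 4 / σ₀ * g₀ ^ (J + 4) + 2 ≤ Q₄ := by rw [hQ₄]; exact le_max_right _ _
  have hqC : 0 ≤ 6 * q₀ * Cx := by positivity
  have hQ₄0 : 1 ≤ Q₄ := by linarith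
  obtain ⟨m₀, hm₀, H⟩ := H hσ hσ1 (show 0 ≤ Q₄ by linarith)
  refine ⟨2 * J + 2 + m₀, ?_⟩
  intro c₀ δ₁ c₁ A₉ aa g₉ Y₁ Kb n₃ hC hKbb hYY hcY th β g Cn R hth hthx hβ hβ2 hg htg hg4 hthb hCn hBβ hρR hRm h η p M Nt hp hp'
    σ Λ G lat latC w C2 Z ρ u cs v0 v1 v2 iL iC iT A a ga A' a' ga' B₁ θs Lm es Cw Qc n₁s e F E E3 X κ hGb hF hF' hFs hX ho hO hρ hκ
    hw hCw1 hCw hρC hC0C hm₁C hm₁e hue hT1 hT3 hT4 hNt hforce hh hrN hBp1 hθs hLm hes hes1 hRe hQc hTop f huf hfJ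
  have a1 := hO.v0u
  have a2 := hO.uv1
  have a3 := hO.v1m
  have hx0 : 0 < x := by linarith
  have hth0 : 0 < th := by linarith
  have ht1 : 1 ≤ th * x := one_le_mul_of_one_le_of_one_le hth hx.le
  have ht2 : th * x ≤ 2 := by nlinarith
  have hg1 : 1 ≤ g := (one_le_pow₀ ht1).trans htg
  have hgg : g ≤ g₀ := (le_self_pow₀ hg1 (by norm_num)).trans hg4
  have hg01 : 1 ≤ g₀ := hg₀.le
  have hg02 : g₀ ≤ 2 := by nlinarith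
  have hc0 := h0.c0
  have hKG2 : K₂ ≤ G.K := by rw [hGb]; exact (le_max_left _ _).trans hKb
  have hT00 : G.T 0 = G.T0 := by
    show G.T0 * G.K ^ 0 = G.T0
    rw [pow_zero, mul_one]
  have hTM : ∀ v, G.T0 ≤ G.T v := fun v => by
    rw [← hT00]
    exact G.T_mono (Nat.zero_le _)
  have hw1 : ∀ v, 2 ≤ wd μ s (G.T v) := fun v => hnw _ (((le_max_right _ _).trans ((le_max_right _ _).trans hT1)).trans (hTM v))
  have hww : ∀ v, wd μ s (G.T v) ≤ wd μ s (hs67 G (v + 1)) := fun v => by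
    refine (Hs _ _ (((le_max_left _ _).trans ((le_max_right _ _).trans hT1)).trans (hTM v)) ?_).1
    have h1 := T_le_hs67 (G := G) (v + 1)
    rw [T_eq6] at h1
    have h2 : Ks ≤ G.K := by rw [hGb]; exact ((le_max_left _ _).trans (le_max_right _ _)).trans hKb
    have h3 : Ks * G.T v ≤ G.K * G.T v := Nat.mul_le_mul_right _ h2
    omega
  have hwh : ∀ v, 2 ≤ wd μ s (hs67 G v) := fun v => hnw _ (((le_max_right _ _).trans ((le_max_right _ _).trans hT1)).trans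
    ((hTM v).trans (by have := T_le_hs67 (G := G) v; omega)))
  have hw0 : ∀ v, 0 ≤ w v := fun v => by rw [hw]; linarith [hw1 v]
  obtain ⟨L1, L2⟩ := lat67 hO hw0 hCw hCw1 hρC hC0C hC0
  -- a piece
  have pc : ∀ {i₀ f m : ℕ}, Pc6 G ρ cs i₀ f (m + 1) Z.length → u ≤ f → f + m + 1 ≤ u + 2 * e + 6 → m₀ ≤ m → f - u ≤ m + 1 →
      (∀ k, k ≤ m + 1 → |latC (cs (i₀ + k)) - lat ρ| ≤ (ρ' : ℝ) ^ (f + k - u) * wd μ s (G.T (f + k))) →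
      ∀ {Qd σ₄ : ℝ}, 0 ≤ σ₄ → σ₄ ≤ c / 64 → Qd + 2 ≤ Q₄ * g₀ ^ m →
      (∀ y y' : ℤ, |lat16 μ s κ ((cs (i₀ + (m + 1))).row, y')| ≤ 1 → bh16 μ s h η p M Nt (cs (i₀ + (m + 1))).row.toNat y ≤
        Real.exp ((Qd + σ₄ * (|lat16 μ s κ ((cs (i₀ + (m + 1))).row, y)| / wd μ s (hs67 G (f + m + 1)))) * EE μ s (hs67 G (f + m + 1))) *
          bh16 μ s h η p M Nt (cs (i₀ + (m + 1))).row.toNat y') →
      D2p67 μ s h η p M Nt κ (cs i₀).row (hs67 G (f + 1)) K₁ (Qf67 Q₀ q₀ Cx σ₀ pw * g ^ (f - u)) σ₀ := by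
    intro i₀ f m hP huf hfe hm hfm hlat Qd σ₄ hσ₄ hσ₄c hQd hD y y' hy'
    obtain ⟨y₀, hy₀⟩ := col67 (μ := μ) (s := s) κ (cs (i₀ + (m + 1))).row
    have r1 := (hP.rb 0 (Nat.zero_le _)).1
    have r2 := (hP.rb m (by omega)).2
    have r3 := (hP.rb (m + 1) le_rfl).2
    rw [add_zero, add_zero] at r1
    have key := H hC hKbb hYY hcY hq₀ hth hthx hβ hβ2 hCn hBβ hρR hRm (h := h) (η := η) hp hp' hGb hKG2 hF hF' hFs hX ho hO.pair hO.triple hP hρ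
      huf (by omega) hm hκ hlat ((le_max_left _ _).trans ((le_max_left _ _).trans hT1)) hT3 hT4 hNt (fun v _ h2 => hforce v (by omega))
      (by
        have := hrN (f + (m + 1)) (by omega)
        linarith) (D₀ := 4 * G.T (f + m)) (by
        push_cast
        have : (0 : ℤ) ≤ G.T f := Nat.cast_nonneg _
        linarith) (by
        have := hh (f + m) (by omega)
        push_cast
        linarith) hBp1 hθs hLm hes hes1 hRe (by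
        have e1 : (th * x) ^ (f + m + 1 - u) ≤ 2 * g₀ ^ m := by
          calc (th * x) ^ (f + m + 1 - u) ≤ (th * x) ^ (2 * (m + 1)) := pow_le_pow_right₀ ht1 (by omega)
            _ = ((th * x) ^ 2) ^ (m + 1) := pow_mul _ _ _
            _ ≤ g₀ ^ (m + 1) := pow_le_pow_left₀ (by positivity) (htg.trans hgg) _
            _ = g₀ * g₀ ^ m := by rw [pow_succ, mul_comm]
            _ ≤ 2 * g₀ ^ m := mul_le_mul_of_nonneg_right hg02 (by positivity)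
        have e2 := mul_le_mul_of_nonneg_left e1 (show 0 ≤ 3 * q₀ * Cx by positivity)
        have e3 : 1 ≤ g₀ ^ m := one_le_pow₀ hg01
        have e4 : (1 + 6 * q₀ * Cx) * g₀ ^ m ≤ Q₄ * g₀ ^ m := mul_le_mul_of_nonneg_right hQ₄1 (by positivity)
        linarith) (y₀ := y₀) (by
        have e1 := hwh (f + m + 1)
        have e2 : (2 : ℝ) * 2 ≤ (K - 6) / 2 * wd μ s (hs67 G (f + m + 1)) := mul_le_mul (by linarith) e1 (by norm_num) (by linarith)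
        linarith) hσ₄ hσ₄c hQd (fun y => hD y y₀ hy₀) y y' hy'
    refine key.trans (mul_le_mul_of_nonneg_right (Real.exp_le_exp.2 (mul_le_mul_of_nonneg_right ?_ (EE_pos (μ := μ) (s := s) _).le)) ?_)
    · have e1 := num67 (k := f - u) (zero_le_one.trans hQ₀) hq₀ hCx hσ ht1 ht2 hβ hg
      rw [show f + 1 - u = f - u + 1 by omega]
      linarith
    · exact (bh16_pos (fun k => by
        rcases lt_or_ge k M with h1 | h1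
        · rw [hp k h1]; exact Real.exp_pos _
        · rw [hp' k h1]; exact Real.exp_pos _) _ _).le
  have hct : cs (iC + (f - v0)) = G.ct f ρ := hO.clct f (by omega) (by omega)
  have hpw : ∀ {m : ℕ}, e - J - 1 ≤ m → Qc + 2 ≤ Q₄ * g₀ ^ m := fun {m} hm => by
    have e1 : g₀ ^ (e - J - 1) ≤ g₀ ^ m := pow_le_pow_right₀ hg01 hm
    have e2 : 1 * g₀ ^ m ≤ Q₄ * g₀ ^ m := mul_le_mul_of_nonneg_right hQ₄0 (by positivity)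
    linarith
  have hTop' : ∀ {i₀ f m : ℕ}, Pc6 G ρ cs i₀ f (m + 1) Z.length → u + e ≤ f + m + 1 → f + m + 1 ≤ u + 2 * e + 6 → ∀ y y' : ℤ,
      |lat16 μ s κ ((cs (i₀ + (m + 1))).row, y')| ≤ 1 → bh16 μ s h η p M Nt (cs (i₀ + (m + 1))).row.toNat y ≤
        Real.exp ((Qc + c / 64 * (|lat16 μ s κ ((cs (i₀ + (m + 1))).row, y)| / wd μ s (hs67 G (f + m + 1)))) *
          EE μ s (hs67 G (f + m + 1))) * bh16 μ s h η p M Nt (cs (i₀ + (m + 1))).row.toNat y' := by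
    intro i₀ f m hP h1 h2
    obtain ⟨r1, r2⟩ := hP.rb (m + 1) le_rfl
    rw [show f + (m + 1) = f + m + 1 from rfl] at r1 r2
    have r3 : (0 : ℤ) ≤ G.T (f + m + 1) := Nat.cast_nonneg _
    exact hTop (f + m + 1) _ h1 h2 (by linarith) (by linarith)
  rw [← hct]
  rcases le_or_gt (u + e) v1 with hv | hv
  · -- one clean piece
    obtain ⟨m, hm⟩ : ∃ m, f + m + 1 = u + e := ⟨u + e - f - 1, by omega⟩
    have hP := hO.pcC (f := f) (m := m + 1) (by omega) (by omega)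
    refine pc hP huf (by omega) (by omega) (by omega) (fun k hk => ?_) (show 0 ≤ c / 64 by linarith) le_rfl (hpw (by omega))
      (hTop' hP (by omega) (by omega))
    rw [← hw]
    exact L1 huf (by omega) (by omega)
  · -- tower
    have hPT := hO.pcT (f := v1 + 3) (m := e + 3 + 1) le_rfl (by omega)
    have hDT := pc hPT (by omega) (by omega) (by omega) (by omega) (fun k hk => by
      rw [← hw]
      exact L2 le_rfl (by omega)) (show 0 ≤ c / 64 by linarith) le_rfl (hpw (by omega)) (hTop' hPT (by omega) (by omega))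
    rw [Nat.sub_self, add_zero] at hDT hPT
    -- block
    have hPC := hO.pcC (f := f) (m := v1 - f - 1 + 1) (by omega) (by omega)
    have rT := (hPT.rb 0 (Nat.zero_le _))
    rw [add_zero, add_zero] at rT
    have hrT0 : 0 ≤ (cs iT).row := by
      have : (0 : ℤ) ≤ G.T (v1 + 3) := Nat.cast_nonneg _
      linarith [rT.1]
    have hrTz : (((cs iT).row.toNat : ℕ) : ℤ) = (cs iT).row := Int.toNat_of_nonneg hrT0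
    have rC := hO.clrb v1 (by omega) le_rfl
    have hrC0 : 0 ≤ (cs (iC + (v1 - v0))).row := by
      have : (0 : ℤ) ≤ G.T v1 := Nat.cast_nonneg _
      linarith [rC.1]
    have hrCz : (((cs (iC + (v1 - v0))).row.toNat : ℕ) : ℤ) = (cs (iC + (v1 - v0))).row := Int.toNat_of_nonneg hrC0
    obtain ⟨y₀, hy₀⟩ := col67 (μ := μ) (s := s) κ (cs iT).row
    have hwh3 := hwh (v1 + 3)
    have hwh4 := hwh (v1 + 4)
    have hwhv := hwh v1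
    have keyB := HB (G := G) (latC := latC) (Hf := fun a b => hs67 G (lb6 a b)) (col := colC6 latC (sl μ s)) hGb
      (((le_max_right _ _).trans (le_max_right _ _)).trans hKb) (by
        rw [hT00]
        exact ((le_max_right _ _).trans (le_max_left _ _)).trans hT1) hO hF hF' hq₀ hth hthb ho hFs (fun _ _ => rfl)
      (by rw [hGb]; linarith) (fun v => by rw [hw]; exact hww v) (colC6_lat latC (sl μ s)) (κ := κ) (h := h) (N := Nt) hκ.symm hρ hp hp'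
      (hforce (v1 + 4) (by omega)) (by
        have h1 := hrN (v1 + 3) (by omega)
        have h2 : (((cs iT).row.toNat : ℕ) : ℤ) ≤ Nt := by
          rw [hrTz]
          linarith [rT.2]
        exact_mod_cast h2) ((hNt (v1 + 4)).trans (Real.exp_le_exp.2 (EE_mono (T_le_hs67 (G := G) (v1 + 4)))))
      (Qd := Qf * g ^ (v1 + 3 - u)) (σ := σ₀) (δ := σ₀) (by positivity) hσ.le (by linarith) hσ hσ1 (y₀ := y₀) (by
        rw [hrTz]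
        have e2 : (2 : ℝ) * 2 ≤ (K + 2 - 4) / 2 * wd μ s (8 * G.K ^ 2 * G.T (v1 + 3)) :=
          mul_le_mul (by linarith) hwh3 (by norm_num) (by linarith)
        linarith) (fun y => by
        rw [hrTz, hQf]
        refine hDT y y₀ (hy₀.trans ?_)
        have e1 : (1 : ℝ) * 2 ≤ K₁ * wd μ s (hs67 G (v1 + 3 + 1)) := mul_le_mul hK₁ hwh4 (by norm_num) (by linarith)
        linarith)
    -- the short clean piece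
    obtain ⟨m, hm⟩ : ∃ m, v1 = f + m + 1 := ⟨v1 - f - 1, by omega⟩
    have hP := hO.pcC (f := f) (m := m + 1) (by omega) (by omega)
    have ei : iC + (f - v0) + (m + 1) = iC + (v1 - v0) := by omega
    refine pc hP huf (by omega) (by omega) (by omega) (fun k hk => ?_) (Qd := C4 * (1 + (((1 + q₀) * (th * x) ^ (v1 - u + 3)) ^ 2 +
      Qf * g ^ (v1 - u + 3))) ^ 4 / σ₀) (σ₄ := 4 * σ₀) (by linarith) (by linarith) ?_ (fun y y' hy' => ?_)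
    · rw [← hw]
      exact L1 huf (by omega) (by omega)
    · refine (blkn67 (J := J) (m := m) (zero_le_one.trans hC4) hq₀ hQf0 hσ ht1 htg hg4 (by omega)).trans ?_
      exact mul_le_mul_of_nonneg_right hQ₄2 (by positivity)
    · rw [ei] at hy' ⊢
      rw [← hm]
      have k1 := keyB y y' (by
        rw [hrCz]
        have e2 : (2 : ℝ) * 2 ≤ (K + 2 - 4) / 2 * wd μ s (8 * G.K ^ 2 * G.T v1) :=
          mul_le_mul (by linarith) hwhv (by norm_num) (by linarith)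
        linarith)
      rw [hrCz, show v1 + 3 - u = v1 - u + 3 by omega] at k1
      refine k1.trans (le_of_eq ?_)
      unfold hs67
      ring_nf

end

end Pool.Agent.W_7d29a1_C1.D2C67
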