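import Pool.Agent.W_7d29a1_C1.LayP67

/-!
MP_7d29a1_pr, [C1] attractor route, TAME: (D2) THROUGH A PIECE OF SUCCESSIVE SCALES. (helper67)

**`pcD2_67`** = `d2_row16` (helper16) for any piece `Pc6` (clean piece or tower) of the list of the cuts: no layer and no node is felt at `u`
(`Ok6 ∅`), the cuts lie within `ρ' ^ (scale - u)` widths of the line of the centre, (D2) at the top row with any constant `Qd ≤ Q₄ g₀ ^ m`
==> (D2) at the bottom row with a constant of `f - u` only.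
-/

set_option autoImplicit false

namespace Pool.Agent.W_7d29a1_C1.D2C67

open MeasureTheory ProbabilityTheory Filter Topology Finset
open Pool.Agent.W_7d29a1_F Pool.Agent.W_7d29a1_h4g Pool.Agent.W_7d29a1_H Pool.Agent.W_7d29a1_HS
open Pool.Agent.W_7d29a1_C1.H75 Pool.Agent.W_7d29a1_C1.U16 Pool.Agent.W_7d29a1_C1.FarK89 Pool.Agent.W_7d29a1_C1.FarW89
open Pool.Agent.W_7d29a1_C1.DD84 Pool.Agent.W_7d29a1_C1.SysN89 Pool.Agent.W_7d29a1_C1.LrN89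
open Pool.Agent.W_7d29a1_C1.H40 Pool.Agent.W_7d29a1_C1.S71 Pool.Agent.W_7d29a1_C1.Dep6
open Pool.Agent.W_7d29a1_C1.H94 (nu Cs94)

noncomputable section

variable {μ : Measure ℝ} {s c C : ℝ} {n₀ : ℕ}

/-- The grid of a label. -/
def wg67 (μ : Measure ℝ) (s : ℝ) {σ Λ : Type*} (G : Geo σ Λ) (v : ℕ) : ℤ := ⌊wd μ s (hs67 G v)⌋

/-- The widths of two heights. -/
theorem wd_up67 [IsProbabilityMeasure μ] (h0 : In μ s c C n₀) : ∃ (Cm : ℝ) (n₁ : ℕ), 1 ≤ Cm ∧ 1 ≤ n₁ ∧ ∀ m n : ℕ, n₁ ≤ m → m ≤ n →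
    wd μ s m ≤ Cm * wd μ s n := by
  obtain ⟨a, k, ha, hk, n₁, hn1, H⟩ := Pool.Agent.W_7d29a1_HS.wd_ratio h0
  refine ⟨max 1 (1 / k), n₁, le_max_left _ _, hn1, fun m n hm hmn => ?_⟩
  have hm0 : (0 : ℝ) < m := by exact_mod_cast hn1.trans hm
  have h1 : 1 ≤ ((n : ℝ) / m) ^ a := Real.one_le_rpow (by rw [one_le_div hm0]; exact_mod_cast hmn) ha.le
  have h2 := H m n hm hmn
  have hwm := h0.wd_pos (hn1.trans hm)
  have hwn := h0.wd_pos (hn1.trans (hm.trans hmn))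
  have h3 : k * wd μ s m ≤ wd μ s n := by
    calc k * wd μ s m ≤ (k * ((n : ℝ) / m) ^ a) * wd μ s m := mul_le_mul_of_nonneg_right (le_mul_of_one_le_right hk.le h1) hwm.le
      _ ≤ wd μ s n := h2
  calc wd μ s m = 1 / k * (k * wd μ s m) := by field_simp
    _ ≤ 1 / k * wd μ s n := mul_le_mul_of_nonneg_left h3 (by positivity)
    _ ≤ max 1 (1 / k) * wd μ s n := mul_le_mul_of_nonneg_right (le_max_right _ _) hwn.le

/-- **(D2) THROUGH A PIECE.** -/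
theorem pcD2_67 [IsProbabilityMeasure μ] (h0 : In μ s c C n₀) : ∃ pw : ℕ, ∀ {θn : ℝ}, 0 < θn → ∀ K0 : ℕ, ∃ K₂ : ℕ, 16 ≤ K₂ ∧
    ∀ b : ℕ, ∃ g₀ Lm₀ : ℝ, 1 < g₀ ∧ g₀ ^ 2 ≤ 2 ∧ 1 ≤ Lm₀ ∧ ∀ K₁ : ℝ, 1 ≤ K₁ → ∃ Rm : ℝ, ∀ (P : ℕ) {θ K B₂ : ℝ}, 0 < θ → 10 ≤ K →
    2 ≤ B₂ → 32 * θ * (b : ℝ) ^ 2 ≤ 1 → ∀ Y Bp δ : ℝ, 8 ≤ Y → 2 ≤ Bp → 0 < δ → δ ≤ θ * sl μ s → δ ≤ θ * (1 - sl μ s) →
    ∃ (Q₀ : ℝ) (n₁ : ℕ), 1 ≤ Q₀ ∧ 1 ≤ n₁ ∧ ∀ {x : ℝ} {ρ' : ℕ}, 1 < x → 1 ≤ ρ' → ∃ Cx : ℝ, 1 ≤ Cx ∧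
    ∀ {σ₀ Q₄ : ℝ}, 0 < σ₀ → σ₀ ≤ 1 → 0 ≤ Q₄ → ∃ m₀ : ℕ, 4 ≤ m₀ ∧
    ∀ {c₀ δ₁ c₁ A₉ aa g₉ Y₁ : ℝ} {Kb n₃ : ℕ}, Cs94 μ s c₀ δ₁ c₁ A₉ aa g₉ θn Y₁ K0 Kb n₃ → 64 * b ≤ Kb → 8 * Y₁ ≤ Y → 64 ≤ c₁ * Y →
    ∀ {q₀ th β : ℝ} {Cn R : ℕ}, 0 ≤ q₀ → 1 ≤ th → (th * x) ^ 2 ≤ 2 → 1 ≤ β → β ≤ 2 → 1 ≤ Cn → B₂ ≤ β ^ Cn → ρ' ^ Cn ≤ R → Rm ≤ R →
    ∀ {h : ℝ} {η : Env} {p : ℕ → ℝ} {M Nt : ℕ}, (∀ k, k < M → p k = Real.exp (s + h)) → (∀ k, M ≤ k → p k = Real.exp s) →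
    ∀ {σ Λ : Type*} {G : Geo σ Λ} {lat : σ → ℝ} {latC : Cut Λ → ℝ} {Z : List (Cut Λ)} {ρ : σ} {u : ℕ} {cs : ℕ → Cut Λ} {i₀ f m D : ℕ}
      {A a g A' a' g' B₁ θs Lm es : ℝ} {n₁s : ℕ} {F : Cut Λ → Cut Λ → ℝ → Set Env} {E : Cut Λ → Cut Λ → Set Env}
      {E3 : Cut Λ → Cut Λ → Cut Λ → Set Env} {X : Cut Λ → Cut Λ → Cut Λ → Env → ℕ} {κ : Pt},
      G.K = b → K₂ ≤ G.K → LvF μ A a g F →
      LvF μ A' a' g' (stF6 μ s B₁ B₂ δ θs Lm n₁s (fun a b => hs67 G (lb6 a b)) (fun a => wg67 μ s G a.sc) (ceC6 latC (sl μ s)) es) →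
      (∀ a b q, F a b q ⊆ lvS μ s c θ (K + 2) P (fun a b => hs67 G (lb6 a b)) (colC6 latC (sl μ s)) a b q) →
      (∀ a b e η, dpX6 μ s c₀ δ₁ θn Y Kb n₃ R (wN6 μ s (tN6 G)) (qN6 μ s (tN6 G)) (fun _ b _ => colC6 latC (sl μ s) b) a b e η ≤
        X a b e η) →
      Ok6 ∅ (dLI6 F (stF6 μ s B₁ B₂ δ θs Lm n₁s (fun a b => hs67 G (lb6 a b)) (fun a => wg67 μ s G a.sc) (ceC6 latC (sl μ s)) es) E q₀ th D)
        (dNI6 X Cn F E3 q₀ th D) lb6 lbN6 Z u η →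
      (∀ i, i + 1 < Z.length → ∃ P Q, Z = P ++ cs i :: cs (i + 1) :: Q) →
      (∀ i, i + 2 < Z.length → ∃ P Q, Z = P ++ cs i :: cs (i + 1) :: cs (i + 2) :: Q) →
      Pc6 G ρ cs i₀ f (m + 1) Z.length → 0 ≤ G.row ρ → u ≤ f → f + m + 1 < u + D → m₀ ≤ m →
      (κ.2 : ℝ) - sl μ s * (κ.1 : ℝ) = lat ρ →
      (∀ k, k ≤ m + 1 → |latC (cs (i₀ + k)) - lat ρ| ≤ (ρ' : ℝ) ^ (f + k - u) * wd μ s (G.T (f + k))) →
      -- sizes
      n₁ ≤ G.T0 → 16 * n₃ ≤ G.T0 → n₁s ≤ G.T0 → (∀ v, (Nt : ℝ) + 1 ≤ Real.exp (EE μ s (4 * G.T v))) →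
      (∀ v, f < v → v ≤ f + m + 1 → |h| * wd μ s (hs67 G v) ≤ c / 8 * EE μ s (hs67 G v)) →
      ((cs (i₀ + (m + 1))).row ≤ Nt) → ((M : ℤ) ≤ (cs i₀).row ∨ (cs (i₀ + m)).row ≤ M) →
      -- the steep levels
      2 * Bp ≤ B₁ → 32 * θs * (b : ℝ) ^ 2 ≤ 1 → Lm₀ ≤ Lm → 0 ≤ es → es ≤ 1 → (ρ' : ℝ) ^ es ≤ x →
      -- the levels, (D2) above
      1 + 3 * q₀ * Cx * (th * x) ^ (f + m + 1 - u) ≤ Q₄ * g₀ ^ m →
      ∀ {Qd σ₄ : ℝ} {y₀ : ℤ}, |lat16 μ s κ ((cs (i₀ + (m + 1))).row, y₀)| ≤ (K - 6) / 2 * wd μ s (hs67 G (f + m + 1)) - 1 → 0 ≤ σ₄ →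
      σ₄ ≤ c / 64 → Qd ≤ Q₄ * g₀ ^ m →
      (∀ y : ℤ, bh16 μ s h η p M Nt (cs (i₀ + (m + 1))).row.toNat y ≤
        Real.exp ((Qd + σ₄ * (|lat16 μ s κ ((cs (i₀ + (m + 1))).row, y)| / wd μ s (hs67 G (f + m + 1)))) * EE μ s (hs67 G (f + m + 1))) *
          bh16 μ s h η p M Nt (cs (i₀ + (m + 1))).row.toNat y₀) →
      ∀ y y' : ℤ, |lat16 μ s κ ((cs i₀).row, y')| ≤ K₁ * wd μ s (hs67 G (f + 1)) →
        bh16 μ s h η p M Nt (cs i₀).row.toNat y ≤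
          Real.exp ((Q₀ * ((1 + 3 * q₀ * Cx * (th * x) ^ (f + 1 - u)) ^ 4 * β ^ (f - u) / σ₀) ^ pw +
            σ₀ * (|lat16 μ s κ ((cs i₀).row, y)| / wd μ s (hs67 G (f + 1)))) * EE μ s (hs67 G (f + 1))) *
            bh16 μ s h η p M Nt (cs i₀).row.toNat y' := by
  obtain ⟨pw, H⟩ := d2_row16 h0
  obtain ⟨Ks, ns, hKs, hns, Hs⟩ := scale_num h0
  obtain ⟨nw, hnw⟩ := eventually_atTop.1 ((wd_tendsto h0).eventually_ge_atTop 2)
  obtain ⟨Cm, nm, hCm, hnm, Hm⟩ := wd_up67 h0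
  refine ⟨pw, fun {θn} hθn K0 => ?_⟩
  obtain ⟨K₂, hK₂, H⟩ := H hθn K0 (Bn := 16) (by norm_num)
  obtain ⟨K1, n₄, hK1, HN⟩ := ndokP6 h0 hθn K0
  refine ⟨max (max K₂ Ks) K1, hK1.trans (le_max_right _ _), fun b => ?_⟩
  obtain ⟨g₀, hg₀, hg₀2, H⟩ := H b
  obtain ⟨Bw, nb, hBw, hnb, HB⟩ := wd_next h0 b
  refine ⟨g₀, 2 * Bw, hg₀, hg₀2, by linarith, fun K₁ hK₁ => ?_⟩
  obtain ⟨Rm, H⟩ := H (2 * b ^ 2) K₁ (2 * Cm) hK₁ (by linarith)
  refine ⟨Rm, fun P {θ K B₂} hθ hK hB₂ hθb Y Bp δ hY hBp hδ hδ1 hδ2 => ?_⟩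
  obtain ⟨Q₀, n₁, hQ₀, hn₁, H⟩ := H P hθ hK hB₂ Y Bp δ hY hBp hδ hδ1 hδ2
  refine ⟨Q₀, max (max n₁ n₄) (max (max ns nw) (max nb nm)), hQ₀, hn₁.trans ((le_max_left _ _).trans (le_max_left _ _)),
    fun {x ρ'} hx hρ' => ?_⟩
  obtain ⟨Cx, hCx, HL⟩ := layPc67 (μ := μ) (s := s) (c := c) P hρ' hx
  refine ⟨Cx, hCx, fun {σ₀ Q₄} hσ hσ1 hQ₄ => ?_⟩
  obtain ⟨m₀, hm₀, H⟩ := H hσ hσ1 hQ₄
  refine ⟨m₀, hm₀, ?_⟩
  intro c₀ δ₁ c₁ A₉ aa g₉ Y₁ Kb n₃ hC hKb hYY hcY q₀ th β Cn R hq₀ hth hthx hβ hβ2 hCn hBβ hρR hRm h η p M Nt hp hp'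
    σ Λ G lat latC Z ρ u cs i₀ f m D A a g A' a' g' B₁ θs Lm es n₁s F E E3 X κ hGb hKG hF hF' hFs hX ho hpr htr hP hρ huf hfD hm hκ hlat
    hT1 hT3 hT4 hNt hforce hrN hMr hBp1 hθs hLm hes hes1 hRe hq4 Qd σ₄ y₀ hy₀ hσ₄ hσ₄c hQd hD2 y y' hy'
  obtain ⟨nM, hnM⟩ : ∃ nM, nM = max (max n₁ n₄) (max (max ns nw) (max nb nm)) := ⟨_, rfl⟩
  rw [← hnM] at hT1
  have i1 : n₁ ≤ nM := by rw [hnM]; exact (le_max_left _ _).trans (le_max_left _ _)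
  have i2 : n₄ ≤ nM := by rw [hnM]; exact (le_max_right _ _).trans (le_max_left _ _)
  have i3 : ns ≤ nM := by rw [hnM]; exact (le_max_left _ _).trans ((le_max_left _ _).trans (le_max_right _ _))
  have i4 : nw ≤ nM := by rw [hnM]; exact (le_max_right _ _).trans ((le_max_left _ _).trans (le_max_right _ _))
  have i5 : nb ≤ nM := by rw [hnM]; exact (le_max_left _ _).trans ((le_max_right _ _).trans (le_max_right _ _))
  have i6 : nm ≤ nM := by rw [hnM]; exact (le_max_right _ _).trans ((le_max_right _ _).trans (le_max_right _ _))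
  have k1 : K₂ ≤ G.K := (le_max_left _ _).trans ((le_max_left _ _).trans hKG)
  have k2 : Ks ≤ G.K := (le_max_right _ _).trans ((le_max_left _ _).trans hKG)
  have k3 : K1 ≤ G.K := (le_max_right _ _).trans hKG
  have k4 : 16 ≤ G.K := hK1.trans k3
  have hTv : ∀ v, G.T v = G.T0 * G.K ^ v := fun v => rfl
  have hT0 : ∀ v, G.T0 ≤ G.T v := fun v => by
    rw [hTv]
    exact Nat.le_mul_of_pos_right _ (Nat.pow_pos (by omega))
  have hTM : ∀ v, nM ≤ G.T v := fun v => hT1.trans (hT0 v)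
  have hhs : ∀ v, G.T v ≤ hs67 G v := fun v => by have := T_le_hs67 (G := G) v; omega
  have hx0 : 0 < x := by linarith
  have hth0 : 0 < th := by linarith
  have hΘ : 1 ≤ th * x := one_le_mul_of_one_le_of_one_le hth hx.le
  have hρ0 : (1 : ℝ) ≤ ρ' := by exact_mod_cast hρ'
  have hCx0 : 0 < Cx := by linarith
  have hc0 := h0.c0
  have hθG : 32 * θ * (G.K : ℝ) ^ 2 ≤ 1 := by rw [hGb]; exact hθb
  have hw1 : ∀ v, 2 ≤ wd μ s (G.T v) := fun v => hnw _ (i4.trans (hTM v))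
  have hw2 : ∀ v, wd μ s (G.T v) ≤ wd μ s (hs67 G (v + 1)) := fun v => by
    refine (Hs _ _ (i3.trans (hTM v)) ?_).1
    have h1 := hhs (v + 1)
    rw [T_eq6] at h1
    exact (Nat.mul_le_mul_right _ k2).trans h1
  -- the layers
  obtain ⟨bs, hL⟩ := HL (n₁ := nM) hF hF' hq₀ hth hFs ho hpr hP hρ k4 hθG huf (by omega) hκ hlat
    (fun v _ _ => ⟨by linarith [hw1 v], hw2 v, hTM v⟩) (fun v h1 h2 => (hforce v h1 (by omega)).trans (by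
      have := EE_pos (μ := μ) (s := s) (hs67 G v)
      have h3 : 0 ≤ c / 8 * EE μ s (hs67 G v) := by positivity
      linarith))
  have hr := hP.rff hρ
  obtain ⟨r, hrd⟩ : ∃ r : ℕ → ℕ, r = fun v => (cs (i₀ + (v - f))).row.toNat := ⟨_, rfl⟩
  obtain ⟨Tn, htd⟩ : ∃ Tn : ℕ → ℕ, Tn = fun v => 4 * G.T (v + 1) := ⟨_, rfl⟩
  obtain ⟨T, hTd⟩ : ∃ T : ℕ → ℕ, T = fun v => hs67 G (v + 1) := ⟨_, rfl⟩
  obtain ⟨q, hqd⟩ : ∃ q : ℕ → ℝ, q = fun v => 3 * q₀ * Cx * (th * x) ^ (v + 1 - u) := ⟨_, rfl⟩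
  rw [← hrd, ← htd] at hr
  rw [← hrd, ← hTd, ← hqd] at hL
  have hTv' : ∀ v, T v = hs67 G (v + 1) := fun v => by rw [hTd]
  have hTnv : ∀ v, Tn v = 4 * G.T (v + 1) := fun v => by rw [htd]
  have hqv : ∀ v, q v = 3 * q₀ * Cx * (th * x) ^ (v + 1 - u) := fun v => by rw [hqd]
  have hrk : ∀ k, r (f + k) = (cs (i₀ + k)).row.toNat := fun k => by
    rw [hrd]
    show (cs (i₀ + (f + k - f))).row.toNat = _
    rw [Nat.add_sub_cancel_left]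
  have hrz : ∀ k, k ≤ m + 1 → (r (f + k) : ℤ) = (cs (i₀ + k)).row := fun k hk => hr.r_eq k hk
  have hrows : ∀ v, f ≤ v → v < f + (m + 1) → r v ≤ r (v + 1) ∧ r (v + 1) ≤ r v + Tn v ∧ Tn v ≤ 16 * (r (v + 1) - r v) := by
    intro v h1 h2
    obtain ⟨k, rfl⟩ : ∃ k, v = f + k := ⟨v - f, by omega⟩
    exact hP.rows6 hr k4 (k := k) (by omega)
  -- the steep levels
  have hB₂0 : 0 ≤ B₂ := by linarith
  have hLm1 : 1 ≤ Lm := by linarith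
  have hW : ∀ v, 0 < wg67 μ s G v ∧ (wg67 μ s G v : ℝ) ≤ wd μ s (hs67 G v) ∧ wd μ s (hs67 G v) ≤ 2 * wg67 μ s G v := by
    intro v
    have h1 : 2 ≤ wd μ s (hs67 G v) := hnw _ ((i4.trans (hTM v)).trans (hhs v))
    have h2 : ((wg67 μ s G v : ℤ) : ℝ) ≤ wd μ s (hs67 G v) := Int.floor_le _
    have h3 : wd μ s (hs67 G v) < (wg67 μ s G v : ℝ) + 1 := Int.lt_floor_add_one _
    refine ⟨?_, h2, by linarith⟩
    have h4 : (0 : ℝ) < wg67 μ s G v := by linarith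
    exact_mod_cast h4
  have hWn : ∀ v, wd μ s (hs67 G (v + 1)) ≤ Bw * wd μ s (hs67 G v) := fun v => by
    refine HB _ _ ((i5.trans (hTM v)).trans (hhs v)) ?_ ?_
    · rw [hs67_succ]
      exact Nat.le_mul_of_pos_left _ (by omega)
    · rw [hs67_succ, hGb]
  obtain ⟨be, hbe⟩ := hP.stl6 (T := T) (q := q) hr hpr hF hF' hq₀ hth ho
    (fun k _ => by rw [hTv']; rfl) hB₂0 (fun k _ => hT4.trans ((hT0 _).trans (hhs _)))
    (fun k _ => by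
      have h1 : 2 ≤ wd μ s (hs67 G (f + (k + 1))) := hnw _ ((i4.trans (hTM _)).trans (hhs _))
      linarith)
    (fun k hk => by
      have h3 := (hrows (f + k) (by omega) (by omega)).2.2
      rw [hTnv] at h3
      have h5 : (4 : ℝ) * G.T (f + k + 1) ≤ 16 * ((r (f + k + 1) - r (f + k) : ℕ) : ℝ) := by exact_mod_cast h3
      have h6 : (hs67 G (f + (k + 1)) : ℝ) = 8 * (b : ℝ) ^ 2 * G.T (f + k + 1) := by
        unfold hs67
        rw [hGb]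
        push_cast
        rfl
      rw [h6]
      have h7 : (0 : ℝ) ≤ G.T (f + k + 1) := Nat.cast_nonneg _
      calc θs * (8 * (b : ℝ) ^ 2 * G.T (f + k + 1)) = (32 * θs * (b : ℝ) ^ 2) * ((G.T (f + k + 1) : ℝ) / 4) := by ring
        _ ≤ 1 * ((G.T (f + k + 1) : ℝ) / 4) := mul_le_mul_of_nonneg_right hθs (by linarith)
        _ ≤ ((r (f + (k + 1)) - r (f + k) : ℕ) : ℝ) := by
          rw [show f + (k + 1) = f + k + 1 by ring]
          linarith)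
    (fun k hk => by
      have h3 := (hrows (f + k) (by omega) (by omega)).2.1
      rw [hTnv] at h3
      have h4 := T_le_hs67 (G := G) (f + (k + 1))
      rw [show f + (k + 1) = f + k + 1 by ring] at h4 ⊢
      omega)
    (fun k _ => (hW _).1) (fun k _ => (hW _).2.1)
    (fun k _ => by
      have h1 := hWn (f + k)
      have h2 := (hW (f + k)).2.2
      have h3 : (0 : ℝ) ≤ wg67 μ s G (f + k) := by exact_mod_cast (hW (f + k)).1.le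
      calc wd μ s (hs67 G (f + (k + 1))) ≤ Bw * wd μ s (hs67 G (f + k)) := h1
        _ ≤ Bw * (2 * wg67 μ s G (f + k)) := mul_le_mul_of_nonneg_left h2 (by linarith)
        _ = (2 * Bw) * wg67 μ s G (f + k) := by ring
        _ ≤ Lm * wg67 μ s G (f + k) := mul_le_mul_of_nonneg_right hLm h3)
    (fun k _ => by
      have h2 := (hW (f + (k + 1))).2.2
      have h3 : (0 : ℝ) ≤ wg67 μ s G (f + (k + 1)) := by exact_mod_cast (hW (f + (k + 1))).1.le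
      refine h2.trans (mul_le_mul_of_nonneg_right (by linarith) h3))
    hκ hρ0 hes hes1 hRe (l := fun k => f + k + 1 - u) (fun k hk => ⟨by show u ≤ f + (k + 1) + (f + k + 1 - u); omega, by
      show f + (k + 1) ≤ u + (f + k + 1 - u); omega, by show f + k + 1 - u < D; omega⟩)
    (fun k hk => by
      refine (hlat k (by omega)).trans ?_
      have h1 : (ρ' : ℝ) ^ (f + k - u) ≤ (ρ' : ℝ) ^ (f + k + 1 - u) := pow_le_pow_right₀ hρ0 (by omega)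
      have h2 := hw2 (f + k)
      have h3 := hw1 (f + k)
      exact mul_le_mul h1 h2 (by linarith) (by positivity))
    (fun k hk => by
      rw [hqv]
      show 3 * (q₀ * th ^ (f + k + 1 - u)) * x ^ (f + k + 1 - u) ≤ _
      have h1 : 0 ≤ 3 * (q₀ * th ^ (f + k + 1 - u)) * x ^ (f + k + 1 - u) := by positivity
      calc 3 * (q₀ * th ^ (f + k + 1 - u)) * x ^ (f + k + 1 - u) ≤ (3 * (q₀ * th ^ (f + k + 1 - u)) * x ^ (f + k + 1 - u)) * Cx :=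
            le_mul_of_one_le_right h1 hCx
        _ = _ := by rw [mul_pow]; ring)
  have hSt := (hbe (f + 1) (by omega) (fun h => absurd h (by omega))).sub (le_refl (f + 1)) (show f + m ≤ f + (m + 1) by omega)
  -- the nodes
  have hNd : ∀ k, 1 ≤ k → k < m → Cn * nu μ s c₀ δ₁ Y (wd μ s (Tn (f + (k - 1)))) (wd μ s (Tn (f + k)) / wd μ s (Tn (f + (k - 1)))) R
      (r (f + (k - 1)) : ℤ) (r (f + k) - r (f + (k - 1))) (r (f + (k + 1)) - r (f + k)) (colC6 latC (sl μ s) (cs (i₀ + k))) η ≤ f - u + k := by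
    intro k h1 h2
    have hN := HN hC k3 (by rw [hGb]; exact hKb) hP hρ (i2.trans (hTM f)) (hT3.trans (hT0 f)) k h1 (by omega)
    have h3 := hP.nodes6 hr htr hF hq₀ hth ho (fun a b e => hX a b e η) (k := k) (l := f + k - u) h1 (by omega) not_hasSw_empty
      (by omega) (by omega) (by omega) hN
    rwa [show f + k - u = f - u + k by omega] at h3
  have hCe : ∀ k, 1 ≤ k → k < m → |lt μ s κ r (f + k) (colC6 latC (sl μ s) (cs (i₀ + k)))| ≤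
      2 * Cm * (ρ' : ℝ) ^ (f - u + k) * wd μ s (Tn (f + (k - 1))) := by
    intro k h1 h2
    refine (Rf6.cen6 hr hκ (k := k) (by omega) (hlat k (by omega))).trans ?_
    rw [hTnv, show f + (k - 1) + 1 = f + k by omega, show f + k - u = f - u + k by omega]
    have h3 := Hm (G.T (f + k)) (4 * G.T (f + k)) (i6.trans (hTM _)) (by omega)
    have h4 := hw1 (f + k)
    have h5 : (1 : ℝ) ≤ (ρ' : ℝ) ^ (f - u + k) := one_le_pow₀ hρ0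
    have h6 : 1 ≤ (ρ' : ℝ) ^ (f - u + k) * wd μ s (G.T (f + k)) := one_le_mul_of_one_le_of_one_le h5 (by linarith)
    calc (ρ' : ℝ) ^ (f - u + k) * wd μ s (G.T (f + k)) + 1 ≤ 2 * ((ρ' : ℝ) ^ (f - u + k) * wd μ s (G.T (f + k))) := by linarith
      _ ≤ 2 * ((ρ' : ℝ) ^ (f - u + k) * (Cm * wd μ s (4 * G.T (f + k)))) := by
        refine mul_le_mul_of_nonneg_left (mul_le_mul_of_nonneg_left h3 (by positivity)) (by norm_num)
      _ = _ := by ring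
  -- (D2) above
  have hz : (r (f + m + 1) : ℤ) = (cs (i₀ + (m + 1))).row := hrz (m + 1) le_rfl
  have ht : r (f + m + 1) = (cs (i₀ + (m + 1))).row.toNat := hrk (m + 1)
  have hlt : ∀ y, lt μ s κ r (f + m + 1) y = lat16 μ s κ ((cs (i₀ + (m + 1))).row, y) := fun y => by
    unfold lt
    rw [hz]
  have hz0 : (r f : ℤ) = (cs i₀).row := hrz 0 (by omega)
  have ht0 : r f = (cs i₀).row.toNat := hrk 0
  have hlt0 : ∀ y, lt μ s κ r f y = lat16 μ s κ ((cs i₀).row, y) := fun y => by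
    unfold lt
    rw [hz0]
  have hTfm : T (f + m) = hs67 G (f + m + 1) := hTv' _
  have hTf : T f = hs67 G (f + 1) := hTv' _
  have hqf : ∀ v, f ≤ v → q v = 3 * q₀ * Cx * (th * x) ^ (f + 1 - u) * (th * x) ^ (v - f) := fun v hv => by
    rw [hqv, mul_assoc (3 * q₀ * Cx), ← pow_add]
    congr 2
    omega
  have := H hC (by omega) hYY hcY (q₀ := 3 * q₀ * Cx * (th * x) ^ (f + 1 - u)) (β := β) (Cn := Cn) (R := R) (ρ := ρ') (by positivity) hβ hβ2 hCn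
    hBβ hρ' hρR hRm hp hp' (Nt := Nt) (κ := κ) (r := r) (T := T) (Tn := Tn) (q := q) (f := f) (m := m) (Δ := f - u) (Θ := th * x) (xc := fun k => colC6 latC (sl μ s) (cs (i₀ + k)))
    (y₀ := y₀) hm hΘ hthx (hL.sub le_rfl (le_of_eq (by ring)) i1) hSt hBp1
    (by
      have h1 : (r (f + m + 1) : ℤ) ≤ Nt := by rw [hz]; exact hrN
      exact_mod_cast h1)
    (by
      rcases hMr with h1 | h1
      · left
        have : (M : ℤ) ≤ r f := by rw [hz0]; exact h1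
        exact_mod_cast this
      · right
        have : (r (f + m) : ℤ) ≤ M := by rw [hrz m (by omega)]; exact h1
        exact_mod_cast this)
    (by rw [hTfm]; exact hforce _ (by omega) le_rfl) (by rw [hTnv]; exact hNt _)
    (fun v _ _ => by
      rw [hTv', hTv', hs67_succ (v + 1), ← hGb]
      exact ⟨Nat.mul_le_mul_right _ k1, le_rfl⟩)
    (fun v _ _ => by
      rw [hTnv, hTnv, T_eq6 G (v + 1), ← hGb]
      constructor
      · calc K₂ * (4 * G.T (v + 1)) ≤ G.K * (4 * G.T (v + 1)) := Nat.mul_le_mul_right _ k1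
          _ = 4 * (G.K * G.T (v + 1)) := by ring
      · exact le_of_eq (by ring))
    (fun v _ _ => by
      rw [hTnv, hTv']
      refine ⟨T_le_hs67 _, le_of_eq ?_⟩
      unfold hs67
      rw [hGb]
      ring)
    (fun v _ _ => by
      rw [hTnv]
      have h1 := hTM (v + 1)
      have h2 := hT0 (v + 1)
      exact ⟨by omega, by omega⟩)
    (fun v h1 h2 => (hrows v h1 (by omega)).2)
    (by
      rw [hTf]
      refine le_trans ?_ (hhs _)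
      rw [hTv]
      exact Nat.mul_le_mul (i1.trans hT1) ((Nat.pow_le_pow_left k1 _).trans (Nat.pow_le_pow_right (by omega) (by omega))))
    (fun v h1 _ => le_of_eq (hqf v h1))
    (fun v h1 h2 => by
      refine le_trans ?_ hq4
      rw [hqv]
      have h3 : (th * x) ^ (v + 1 - u) ≤ (th * x) ^ (f + m + 1 - u) := pow_le_pow_right₀ hΘ (by omega)
      have h4 : 0 ≤ 3 * q₀ * Cx := by positivity
      linarith [mul_le_mul_of_nonneg_left h3 h4])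
    hNd hCe (by rw [hlt, hTfm]; exact hy₀) hσ₄ hσ₄c hQd (fun y => by rw [hlt, hTfm, ht]; exact hD2 y) y y' (by rw [hlt0, hTf]; exact hy')
  rw [hlt0, hTf, ht0] at this
  exact this

end

end Pool.Agent.W_7d29a1_C1.D2C67
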