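import Pool.Agent.W_7d29a1_C1.TamO16
import Pool.Agent.W_7d29a1_C1.FarB89
import Pool.Agent.W_7d29a1_C1.DDJ84
import Pool.Agent.W_7d29a1_C1.SysN89

/-!
MP_7d29a1_pr, [C1] attractor route, TAME OF ONE OWN SLAB WITH ALL THE NUMBERS. (helper67)

* `cost67`: the cost of the slabs of a tower (`K₀ T v ≤ T (v + 1)`) with levels at most `Qm` is `D Qm` units of the last scale; `slabs67`;
* `tame_two67`: `tame_model16` from two fat levels of different heights, any backward masses;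
* `num_top67`, `wd_next67`, `far_line67`: numbers;
* **`topQ67`**: the top boundary of a tower, explicit: `16 (rows) (mass beyond t at the row r (u + m)) ≤ bh16`, for `X Qm ^ 4 wd (T (u + m)) ≤ t`;
* **`own67`**: TAME of the own slab `r (u + 1), .., r (u + 2)` from the near statement of the arms of one start in the row `r u`, any masses.
-/

set_option autoImplicit false

namespace Pool.Agent.W_7d29a1_C1.Own67

open MeasureTheory ProbabilityTheory Filter Topology Finset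
open Pool.Agent.W_7d29a1_F Pool.Agent.W_7d29a1_h4g Pool.Agent.W_7d29a1_H Pool.Agent.W_7d29a1_HS
open Pool.Agent.W_7d29a1_C1.K91 (wt wt_pos)
open Pool.Agent.W_7d29a1_C1.K91P (bw bw_pos)
open Pool.Agent.W_7d29a1_C1.H75 Pool.Agent.W_7d29a1_C1.U16
open Pool.Agent.W_7d29a1_C1.FarK89 Pool.Agent.W_7d29a1_C1.FarW89 Pool.Agent.W_7d29a1_C1.DD84 Pool.Agent.W_7d29a1_C1.SysN89

noncomputable section

/-! ### The cost of a tower -/

theorem gr_two (P : ℕ) {x : ℝ} (hx : 1 ≤ x) : gr P (2 * x) ≤ (1 + Real.log 3) ^ P * gr P (x - 1) := by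
  unfold gr
  rw [← mul_pow]
  have h3 : 0 ≤ Real.log 3 := Real.log_nonneg (by norm_num)
  have hlx : 0 ≤ Real.log x := Real.log_nonneg hx
  have h1 : Real.log (1 + 2 * x) ≤ Real.log 3 + Real.log x := by
    rw [← Real.log_mul (by norm_num) (by linarith)]
    exact Real.log_le_log (by linarith) (by linarith)
  have h0 : 0 ≤ Real.log (1 + 2 * x) := Real.log_nonneg (by linarith)
  refine pow_le_pow_left₀ (by linarith) ?_ P
  rw [show 1 + (x - 1) = x by ring]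
  nlinarith [mul_nonneg h3 hlx]

variable {μ : Measure ℝ} [IsProbabilityMeasure μ] {s c C : ℝ} {n₀ : ℕ}

/-- **The cost of the slabs of a tower** with levels at most `Qm`. -/
theorem cost67 (h : In μ s c C n₀) : ∃ K₀ : ℕ, 2 ≤ K₀ ∧ ∀ P : ℕ, ∃ (D : ℝ) (n₁ : ℕ), 1 ≤ D ∧ 1 ≤ n₁ ∧
    ∀ {Qm : ℝ} {T : ℕ → ℕ} {q : ℕ → ℝ} {a b t : ℕ}, 0 ≤ Qm → b ≤ t + 1 →
      (∀ u, a ≤ u → u ≤ t → n₁ ≤ T u) → (∀ u, a ≤ u → u < t → K₀ * T u ≤ T (u + 1)) →
      (∀ u, a ≤ u → u < b → (1 + q u) ^ 2 ≤ Qm) →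
      ∑ u ∈ Ico a b, (1 + q u) ^ 2 * gr (2 * P) (2 * wd μ s (T t) / wd μ s (T u)) * EE μ s (T u) ≤ D * Qm * EE μ s (T t) := by
  obtain ⟨K₀, n₃, hK₀, hn3, Hs⟩ := scale_num h
  refine ⟨K₀, hK₀, fun P => ?_⟩
  obtain ⟨D, r, n₂, hD, hr0, hr1, hn2, H⟩ := gr_num h (2 * P)
  have h3 : 0 ≤ Real.log 3 := Real.log_nonneg (by norm_num)
  have h31 : 1 ≤ (1 + Real.log 3) ^ (2 * P) := one_le_pow₀ (by linarith)
  have hr1' : 0 < 1 - r := by linarith
  have h1r : 1 ≤ 1 / (1 - r) := by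
    rw [le_div_iff₀ hr1']
    linarith
  refine ⟨(1 + Real.log 3) ^ (2 * P) * D * (1 / (1 - r)), max n₂ n₃, one_le_mul_of_one_le_of_one_le
    (one_le_mul_of_one_le_of_one_le h31 hD) h1r, hn2.trans (le_max_left _ _), ?_⟩
  intro Qm T q a b t hQ0 hbt hT hTK hq
  have hEt := EE_pos (μ := μ) (s := s) (T t)
  -- one term
  have grow : ∀ i u, a ≤ u → u + i = t → 2 ^ i * T u ≤ T t ∧ (1 ≤ i → K₀ * T u ≤ T t) := by
    intro i
    induction i with
    | zero =>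
      intro u _ hut
      rw [add_zero] at hut
      rw [hut]
      exact ⟨by simp, fun h => absurd h (by norm_num)⟩
    | succ i ih =>
      intro u hu hut
      obtain ⟨h1, h2⟩ := ih (u + 1) (by omega) (by omega)
      have h4 := hTK u hu (by omega)
      have h2i : 1 ≤ 2 ^ i := Nat.one_le_two_pow
      have h5 : 2 * T u ≤ T (u + 1) := (Nat.mul_le_mul_right _ hK₀).trans h4
      constructor
      · calc 2 ^ (i + 1) * T u = 2 ^ i * (2 * T u) := by ring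
          _ ≤ 2 ^ i * T (u + 1) := Nat.mul_le_mul_left _ h5
          _ ≤ T t := h1
      · intro _
        refine h4.trans ?_
        calc T (u + 1) = 1 * T (u + 1) := (one_mul _).symm
          _ ≤ 2 ^ i * T (u + 1) := Nat.mul_le_mul_right _ h2i
          _ ≤ T t := h1
  have term : ∀ u ∈ Ico a b, (1 + q u) ^ 2 * gr (2 * P) (2 * wd μ s (T t) / wd μ s (T u)) * EE μ s (T u) ≤
      ((1 + Real.log 3) ^ (2 * P) * D * Qm * EE μ s (T t)) * r ^ (t - u) := by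
    intro u hu
    rw [mem_Ico] at hu
    have hut : u ≤ t := by omega
    obtain ⟨g1, g2⟩ := grow (t - u) u hu.1 (by omega)
    have hn := hT u hu.1 hut
    have hw : wd μ s (T u) ≤ wd μ s (T t) := by
      rcases Nat.eq_or_lt_of_le hut with h5 | h5
      · rw [h5]
      · exact (Hs (T u) (T t) ((le_max_right _ _).trans hn) (g2 (by omega))).1
    have hwu := h.wd_pos ((hn2.trans (le_max_left _ _)).trans hn)
    have hx : 1 ≤ wd μ s (T t) / wd μ s (T u) := by rwa [one_le_div hwu]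
    have k1 := gr_two (2 * P) hx
    rw [mul_div_assoc] at *
    have k2 := H (T u) (T t) (t - u) ((le_max_left _ _).trans hn) g1 hw
    have hEu := EE_pos (μ := μ) (s := s) (T u)
    have k3 : gr (2 * P) (2 * (wd μ s (T t) / wd μ s (T u))) * EE μ s (T u) ≤
        (1 + Real.log 3) ^ (2 * P) * (D * r ^ (t - u) * EE μ s (T t)) := by
      calc _ ≤ ((1 + Real.log 3) ^ (2 * P) * gr (2 * P) (wd μ s (T t) / wd μ s (T u) - 1)) * EE μ s (T u) :=
            mul_le_mul_of_nonneg_right k1 hEu.le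
        _ = (1 + Real.log 3) ^ (2 * P) * (gr (2 * P) (wd μ s (T t) / wd μ s (T u) - 1) * EE μ s (T u)) := by ring
        _ ≤ _ := mul_le_mul_of_nonneg_left k2 (by positivity)
    have k4 : (1 + q u) ^ 2 ≤ Qm := hq u hu.1 hu.2
    have k5 : 0 ≤ gr (2 * P) (2 * (wd μ s (T t) / wd μ s (T u))) * EE μ s (T u) :=
      mul_nonneg (gr_nonneg _ (by positivity)) hEu.le
    calc _ = (1 + q u) ^ 2 * (gr (2 * P) (2 * (wd μ s (T t) / wd μ s (T u))) * EE μ s (T u)) := by ring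
      _ ≤ Qm * ((1 + Real.log 3) ^ (2 * P) * (D * r ^ (t - u) * EE μ s (T t))) := mul_le_mul k4 k3 k5 hQ0
      _ = _ := by ring
  refine (sum_le_sum term).trans ?_
  rw [← mul_sum]
  have hsum : ∑ u ∈ Ico a b, r ^ (t - u) ≤ 1 / (1 - r) := by
    have h6 := geo_sum hr0.le hr1 0 t
    simp only [zero_add] at h6
    refine le_trans (sum_le_sum_of_subset_of_nonneg (fun u hu => ?_) fun u _ _ => by positivity) h6
    rw [mem_Ico] at hu ⊢
    omega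
  have h7 : 0 ≤ (1 + Real.log 3) ^ (2 * P) * D * Qm * EE μ s (T t) := by positivity
  refine (mul_le_mul_of_nonneg_left hsum h7).trans (le_of_eq ?_)
  ring

/-! ### TAME from two heights -/

/-- **TAME FROM TWO HEIGHTS**: the rows `(a, c']` at the height `n`, the rows `(b, d]` at the height `n'`; any backward masses; the rows of the
window are `b, .., e` with `c' ≤ e ≤ d`. -/
theorem tame_two67 (h0 : In μ s c C n₀) (P : ℕ) {K θ : ℝ} (hK : 3 ≤ K) (hθ : 0 < θ) {ρ : ℝ} (hρ : 1 ≤ ρ) : ∃ n₁ : ℕ, 1 ≤ n₁ ∧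
    ∀ q R : ℝ, 0 ≤ q → 1 ≤ R → 2 * R ≤ K - 2 → ∃ Q' : ℝ, 0 < Q' ∧
    ∀ {h : ℝ} {n n' N₁ N₂ M N : ℕ} {b₁ b₂ κ : Pt} {η : Env} {p : ℕ → ℝ} {B : ℕ → ℤ → ℝ}, n₁ ≤ n → n ≤ n' → N₁ ≤ n → N₂ ≤ n' →
      wd μ s n ≤ wd μ s n' → wd μ s n' ≤ ρ * wd μ s n → EE μ s n' ≤ ρ * EE μ s n →
      |h| * wd μ s n ≤ c / 8 * EE μ s n → |h| * wd μ s n' ≤ c / 8 * EE μ s n' →
      (∀ k, k < M → p k = Real.exp (s + h)) → (∀ k, M ≤ k → p k = Real.exp s) →
      Sys16 (fun a b x z => nk μ s h η p M a (b - a) x z) B N →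
      η ∈ Far16 μ s c θ K n N₁ P b₁ q → η ∈ Far16 μ s c θ K n' N₂ P b₂ q → |lat16 μ s κ b₁| ≤ wd μ s n → |lat16 μ s κ b₂| ≤ wd μ s n' →
      ∀ {a b c' e d : ℕ}, b₁.1 ≤ a → a ≤ b → b ≤ c' → (c' : ℤ) ≤ b₁.1 + N₁ → b₂.1 ≤ b → c' ≤ e → e ≤ d → (d : ℤ) ≤ b₂.1 + N₂ → d ≤ N →
      θ * n ≤ ((b - a : ℕ) : ℝ) → θ * n' ≤ ((c' - b : ℕ) : ℝ) → θ * n' ≤ ((d - e : ℕ) : ℝ) → ∀ {x : ℤ}, |lat16 μ s κ ((a : ℤ), x)| ≤ R * wd μ s n →
      PM16 (fun a b x z => nk μ s h η p M a (b - a) x z) B a d x (fun z => ¬ |lat16 μ s κ ((d : ℤ), z)| ≤ R * wd μ s n') ≤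
        1 / 2 * B a x →
      ∀ (k k' : ℕ) (y y' : ℤ), b ≤ k → k ≤ e → b ≤ k' → k' ≤ e → |lat16 μ s κ ((k : ℤ), y)| ≤ R * wd μ s n →
        |lat16 μ s κ ((k' : ℤ), y')| ≤ R * wd μ s n →
        B k' y' ≤ Real.exp (Q' * EE μ s n) * B k y := by
  obtain ⟨C₇, hC₇, n₁, hn₁, H1⟩ := nk_low16 h0 P hK hθ
  obtain ⟨C₅, hC₅, n₂, hn₂, H2⟩ := far_up h0 P
  obtain ⟨n₃, hn₃⟩ := eventually_atTop.1 ((wd_tendsto h0).eventually_ge_atTop 1)
  obtain ⟨aE, n₄, haE, -, hn₄, HE⟩ := Pool.Agent.W_7d29a1_HL.EE_pow h0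
  refine ⟨max (max n₁ n₄) (max n₂ n₃), hn₁.trans ((le_max_left _ _).trans (le_max_left _ _)), fun q R hq hR1 hRK => ?_⟩
  have hR : 0 ≤ R := by linarith
  obtain ⟨Q, hQ⟩ : ∃ Q : ℝ, Q = (1 + q) ^ 2 * (2 * gr (2 * P) (2 * ρ) + gr (2 * P) 2) := ⟨_, rfl⟩
  obtain ⟨A, hA⟩ : ∃ A : ℝ, A = LQ (2 * P) (c / 8) (C₅ * Q) * gr (2 * P) R + Q := ⟨_, rfl⟩
  obtain ⟨L, hL⟩ : ∃ L : ℝ, L = C₇ * (1 + q) ^ 2 * fq16 (2 * P) (R + 2) := ⟨_, rfl⟩
  have hgr2 := gr_nonneg (2 * P) (show (0 : ℝ) ≤ 2 by norm_num)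
  have hgrρ := gr_nonneg (2 * P) (show (0 : ℝ) ≤ 2 * ρ by linarith)
  have hQ0 : 0 ≤ Q := by rw [hQ]; positivity
  have hA0 : 0 ≤ A := by
    rw [hA]
    have g1 := LQ_nonneg (2 * P) (c₁ := c / 8) (show 0 ≤ C₅ * Q by positivity)
    have g2 := gr_nonneg (2 * P) hR
    positivity
  have hL0 : 0 ≤ L := by
    rw [hL]
    have := fq16_one (2 * P) (R + 2)
    positivity
  refine ⟨1 + (L + L * ρ) + A * ρ + L * ρ, by positivity, ?_⟩
  intro h n n' N₁ N₂ M N b₁ b₂ κ η p B hn hnn' hN₁ hN₂ hww hwρ hEρ hh hh' hp hp' S hη₁ hη₂ hκ₁ hκ₂ a b c' e d hba hab hbc hcb hb₂ hce hed hdb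
    hdN hθ₁ hθ₃ hθ₂ x hx harm k k' y y' hk1 hk2 hk1' hk2' hy hy'
  have hcd : c' ≤ d := hce.trans hed
  have hn1 : n₁ ≤ n := ((le_max_left _ _).trans (le_max_left _ _)).trans hn
  have hn4 : n₄ ≤ n := ((le_max_right _ _).trans (le_max_left _ _)).trans hn
  have hn2 : n₂ ≤ n := ((le_max_left _ _).trans (le_max_right _ _)).trans hn
  have hw : 1 ≤ wd μ s n := hn₃ n (((le_max_right _ _).trans (le_max_right _ _)).trans hn)
  have hw0 : 0 < wd μ s n := by linarith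
  have hw' : 1 ≤ wd μ s n' := hw.trans hww
  have hw0' : 0 < wd μ s n' := by linarith
  have hE := EE_pos (μ := μ) (s := s) n
  have hE' := EE_pos (μ := μ) (s := s) n'
  have hE1 := one_le_EE (μ := μ) (s := s) n
  have hc0 := h0.c0
  have hh4 : |h| * wd μ s n ≤ c / 4 * EE μ s n := by nlinarith
  have hh4' : |h| * wd μ s n' ≤ c / 4 * EE μ s n' := by nlinarith
  have hEE : EE μ s n ≤ 2 * EE μ s n' := by
    have g1 := HE n n' hn4 hnn'
    have g2 : (1 : ℝ) ≤ ((n' : ℝ) / n) ^ aE := by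
      have hn0 : (0 : ℝ) < n := by exact_mod_cast hn₁.trans hn1
      refine Real.one_le_rpow ?_ haE.le
      rw [one_le_div hn0]
      exact_mod_cast hnn'
    have g3 := mul_le_mul_of_nonneg_right g2 hE.le
    linarith
  -- the upper level
  have hup : ∀ z : ℤ, nk μ s h η p M a (d - a) x z ≤ Real.exp (A * EE μ s n') := by
    intro z
    have hS : Slabs μ s c θ K h P η κ (fun u => if u = 0 then a else if u = 1 then c' else d) (fun u => if u = 0 then n else n')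
        (fun u => if u = 0 then N₁ else N₂) (fun _ => q) (fun u => if u = 0 then b₁ else b₂) 0 2 n' n₂ Q := by
      refine ⟨fun _ _ _ => hq, hK, hn2.trans hnn', fun u _ _ => ?_, fun u _ _ => ?_, fun u _ _ => ?_, fun u _ hu => ?_, fun u _ hu => ?_,
        fun u _ hu => ?_, fun u _ _ => ?_, fun u _ _ => ?_, ?_, hh'⟩
      · split_ifs
        · exact hn2
        · exact hn2.trans hnn'
      · split_ifs
        · exact hnn'
        · exact le_rfl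
      · split_ifs <;> assumption
      · interval_cases u <;> simp <;> omega
      · interval_cases u <;> simp <;> omega
      · interval_cases u <;> simp <;> omega
      · split_ifs <;> assumption
      · split_ifs <;> assumption
      · rw [sum_Ico_succ_top (by norm_num), sum_Ico_succ_top (by norm_num), Ico_self, sum_empty, zero_add]
        simp only [if_true, if_neg (one_ne_zero)]
        rw [mul_div_assoc 2 (wd μ s n') (wd μ s n'), div_self hw0'.ne', mul_one, hQ]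
        have g1 : gr (2 * P) (2 * wd μ s n' / wd μ s n) ≤ gr (2 * P) (2 * ρ) := by
          refine gr_mono _ (by positivity) ?_
          rw [div_le_iff₀ hw0]
          linarith
        have g2 : 0 ≤ (1 + q) ^ 2 := by positivity
        have g3 : gr (2 * P) (2 * wd μ s n' / wd μ s n) * EE μ s n ≤ gr (2 * P) (2 * ρ) * (2 * EE μ s n') :=
          mul_le_mul g1 hEE hE.le hgrρ
        have g4 := mul_le_mul_of_nonneg_left g3 g2
        nlinarith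
    have g1 := H2 (by norm_num) hp hp' hS x z
    simp only [if_true] at g1
    refine g1.trans (Real.exp_le_exp.2 ?_)
    have e2 : lt μ s κ (fun u => if u = 0 then a else if u = 1 then c' else d) 0 x = lat16 μ s κ ((a : ℤ), x) := by
      unfold lt
      simp
    rw [e2]
    have g2 : gr (2 * P) (|lat16 μ s κ ((a : ℤ), x)| / wd μ s n') ≤ gr (2 * P) R := by
      refine gr_mono _ (by positivity) ?_
      rw [div_le_iff₀ hw0']
      exact hx.trans (mul_le_mul_of_nonneg_left hww hR)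
    have g3 := LQ_nonneg (2 * P) (c₁ := c / 8) (show 0 ≤ C₅ * Q by positivity)
    have g4 := mul_le_mul_of_nonneg_right (mul_le_mul_of_nonneg_left g2 g3) hE'.le
    have g5 := hc_nonneg h0 n'
    have g6 : 0 ≤ hc μ s c n' / 8 * |((z - x : ℤ) : ℝ) - sl μ s * (((if (2 : ℕ) = 0 then a else if (2 : ℕ) = 1 then c' else d) - a : ℕ) : ℝ)| := by
      positivity
    rw [hA]
    nlinarith
  have hd : a ≤ d := hab.trans (hbc.trans hcd)
  -- the lower level from the start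
  have hlow : Real.exp (-(L * EE μ s n + L * EE μ s n')) ≤ nk μ s h η p M a (k' - a) x y' := by
    have hLn' : 0 ≤ L * EE μ s n' := by positivity
    rcases le_total k' c' with hc | hc
    · have g1 : θ * n ≤ ((k' - a : ℕ) : ℝ) := hθ₁.trans (by exact_mod_cast (by omega : b - a ≤ k' - a))
      have g2 := H1 (q := q) (h := h) (R := R) hn1 hN₁ hq hη₁ hh4 hp hp' hR hRK hκ₁ a k' x y' hba (hab.trans hk1')
        (by omega) g1 hx hy'
      rw [← hL] at g2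
      refine le_trans (Real.exp_le_exp.2 ?_) g2
      linarith
    · obtain ⟨z₀, hz₀⟩ : ∃ z₀ : ℤ, z₀ = κ.2 + ⌊sl μ s * ((((b : ℕ) : ℤ) - κ.1 : ℤ) : ℝ)⌋ := ⟨_, rfl⟩
      have hz1 : |lat16 μ s κ ((b : ℤ), z₀)| ≤ 1 := by
        rw [hz₀]
        exact lat_lp κ (b : ℤ)
      have hz2 : |lat16 μ s κ ((b : ℤ), z₀)| ≤ R * wd μ s n := hz1.trans (by nlinarith)
      have hz3 : |lat16 μ s κ ((b : ℤ), z₀)| ≤ R * wd μ s n' := hz1.trans (by nlinarith)
      have g1 := H1 (q := q) (h := h) (R := R) hn1 hN₁ hq hη₁ hh4 hp hp' hR hRK hκ₁ a b x z₀ hba hab (by omega) hθ₁ hx hz2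
      have g2 : θ * n' ≤ ((k' - b : ℕ) : ℝ) := hθ₃.trans (by exact_mod_cast (by omega : c' - b ≤ k' - b))
      have g3 := H1 (q := q) (h := h) (R := R) (hn1.trans hnn') hN₂ hq hη₂ hh4' hp hp' hR hRK hκ₂ b k' z₀ y' hb₂ hk1'
        (by omega) g2 hz3 (hy'.trans (mul_le_mul_of_nonneg_left hww hR))
      rw [← hL] at g1 g3
      have g4 := S.comp a b k' x y' hab hk1'
      have hmem : z₀ ∈ Icc x (x + ((b - a : ℕ) : ℤ)) := by
        by_contra hcon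
        have g5 := S.out a b x z₀ hab (fun h => hcon (mem_Icc.2 h))
        have g6 := Real.exp_pos (-(L * EE μ s n))
        change nk μ s h η p M a (b - a) x z₀ = 0 at g5
        linarith
      have g5 : nk μ s h η p M a (b - a) x z₀ * nk μ s h η p M b (k' - b) z₀ y' ≤ nk μ s h η p M a (k' - a) x y' := by
        change nk μ s h η p M a (k' - a) x y' = _ at g4
        rw [g4]
        exact single_le_sum (f := fun y => nk μ s h η p M a (b - a) x y * nk μ s h η p M b (k' - b) y y')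
          (fun y _ => mul_nonneg (S.k0 a b x y) (S.k0 b k' y y')) hmem
      refine le_trans ?_ g5
      rw [neg_add, Real.exp_add]
      exact mul_le_mul g1 g3 (Real.exp_pos _).le (S.k0 a b x z₀)
  have key := tame16 S (a := a) (b := k) (b' := k') (e := d) (hab.trans hk1) (hab.trans hk1') (hk2.trans hed) (hk2'.trans hed) hdN
    (x := x) (y := y) (y' := y') (Z := fun z => |lat16 μ s κ ((d : ℤ), z)| ≤ R * wd μ s n') (A1 := L * EE μ s n + L * EE μ s n')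
    (A2 := A * EE μ s n') (A3 := L * EE μ s n') harm hlow
    (fun z _ _ _ => hup z)
    (fun z _ _ hz => by
      have g1 : θ * n' ≤ ((d - k : ℕ) : ℝ) := hθ₂.trans (by exact_mod_cast (by omega : d - e ≤ d - k))
      have g2 := H1 (q := q) (h := h) (R := R) (hn1.trans hnn') hN₂ hq hη₂ hh4' hp hp' hR hRK hκ₂ k d y z (by omega) (hk2.trans hed)
        hdb g1 (hy.trans (mul_le_mul_of_nonneg_left hww hR)) hz
      rw [hL]
      exact g2)
  refine key.trans ?_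
  have hB := S.b0 k y (hk2.trans (hed.trans hdN))
  refine mul_le_mul_of_nonneg_right ?_ hB.le
  have g1 : (2 : ℝ) ≤ Real.exp 1 := by
    have := Real.add_one_le_exp (1 : ℝ)
    linarith
  have g2 : A * EE μ s n' ≤ A * (ρ * EE μ s n) := mul_le_mul_of_nonneg_left hEρ hA0
  have g3 : L * EE μ s n' ≤ L * (ρ * EE μ s n) := mul_le_mul_of_nonneg_left hEρ hL0
  calc 2 * Real.exp (L * EE μ s n + L * EE μ s n' + A * EE μ s n' + L * EE μ s n') ≤
      Real.exp 1 * Real.exp (L * EE μ s n + L * EE μ s n' + A * EE μ s n' + L * EE μ s n') :=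
        mul_le_mul_of_nonneg_right g1 (Real.exp_pos _).le
    _ = Real.exp (1 + (L * EE μ s n + L * EE μ s n' + A * EE μ s n' + L * EE μ s n')) := by rw [← Real.exp_add]
    _ ≤ _ := Real.exp_le_exp.2 (by nlinarith)

/-! ### The numbers -/

theorem num_top67 {g : ℝ} (hg1 : 1 ≤ g) (hg : g ^ 4 < 4) (X : ℝ) : ∃ m₀ : ℕ, 4 ≤ m₀ ∧ ∀ m, m₀ ≤ m → X * (g ^ m) ^ 4 ≤ 4 ^ (m - 3) := by
  have h1 : Tendsto (fun m : ℕ => 64 * |X| * (g ^ 4 / 4) ^ m) atTop (𝓝 0) := by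
    have h2 := (tendsto_pow_atTop_nhds_zero_of_lt_one (r := g ^ 4 / 4) (by positivity) (by linarith)).const_mul (64 * |X|)
    rwa [mul_zero] at h2
  obtain ⟨m₁, hm₁⟩ := eventually_atTop.1 (h1.eventually_le_const (show (0 : ℝ) < 1 by norm_num))
  refine ⟨max 4 m₁, le_max_left _ _, fun m hm => ?_⟩
  have h2 := hm₁ m ((le_max_right _ _).trans hm)
  have hm4 : 4 ≤ m := (le_max_left _ _).trans hm
  have e1 : (4 : ℝ) ^ m = 4 ^ (m - 3) * 64 := by
    conv_lhs => rw [show m = (m - 3) + 3 by omega, pow_add]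
    norm_num
  have h4 : (0 : ℝ) < 4 ^ m := by positivity
  have h3 : 64 * |X| * (g ^ m) ^ 4 ≤ 4 ^ m := by
    rw [div_pow, mul_div_assoc', div_le_iff₀ h4, one_mul] at h2
    rw [← pow_mul, mul_comm m 4, pow_mul]
    exact h2
  have h5 : X * (g ^ m) ^ 4 ≤ |X| * (g ^ m) ^ 4 := mul_le_mul_of_nonneg_right (le_abs_self X) (by positivity)
  linarith

/-- The width of the next scale. -/
theorem wd_next67 (h0 : In μ s c C n₀) : ∃ (B : ℝ) (n₁ : ℕ), 1 ≤ B ∧ 1 ≤ n₁ ∧ ∀ {m n : ℕ} {Kb : ℝ}, n₁ ≤ m → m ≤ n → (n : ℝ) ≤ Kb * m →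
    wd μ s n ≤ B * Kb * wd μ s m := by
  obtain ⟨g, B, n₁, hg, hg3, hB, hn₁, H⟩ := Pool.Agent.W_7d29a1_HL.wd_pow_le h0
  refine ⟨B, n₁, hB, hn₁, fun {m n Kb} hm hmn hK => ?_⟩
  have hm0 : (0 : ℝ) < m := by exact_mod_cast hn₁.trans hm
  have hx1 : 1 ≤ (n : ℝ) / m := by
    rw [one_le_div hm0]
    exact_mod_cast hmn
  have hxK : (n : ℝ) / m ≤ Kb := by rwa [div_le_iff₀ hm0]
  have h1 : ((n : ℝ) / m) ^ (1 - g) ≤ Kb := by
    calc ((n : ℝ) / m) ^ (1 - g) ≤ ((n : ℝ) / m) ^ (1 : ℝ) := Real.rpow_le_rpow_of_exponent_le hx1 (by linarith)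
      _ = (n : ℝ) / m := Real.rpow_one _
      _ ≤ Kb := hxK
  have h2 := H m n hm hmn
  have hw := h0.wd_pos (hn₁.trans hm)
  calc wd μ s n ≤ B * ((n : ℝ) / m) ^ (1 - g) * wd μ s m := h2
    _ ≤ _ := mul_le_mul_of_nonneg_right (mul_le_mul_of_nonneg_left h1 (by linarith)) hw.le

/-- The base on the line. -/
theorem far_line67 {θ K q Λ : ℝ} {n N P : ℕ} {κ b : Pt} (hw : 1 ≤ wd μ s n) (hq : 0 ≤ q) (hΛ : 0 ≤ Λ)
    (hb : |lat16 μ s κ b| ≤ Λ * wd μ s n) {η : Env} (hη : η ∈ Far16 μ s c θ K n N P b q) :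
    η ∈ Far16 μ s c θ (K - 2) n N P (lp μ s κ b.1) (q * fq16 P (Λ + 2)) := by
  have h1 : |lat16 μ s b (lp μ s κ b.1)| ≤ (Λ + 1) * wd μ s n := by
    rw [lat_base (μ := μ) (s := s) κ b (lp μ s κ b.1)]
    have g1 := lat_lp (μ := μ) (s := s) κ b.1
    have g4 := abs_sub (lat16 μ s κ (lp μ s κ b.1)) (lat16 μ s κ b)
    linarith
  have h2 := far_rebase (c := c) (θ := θ) (K := K) (N := N) (N' := N) (P := P) (b := b) (b' := lp μ s κ b.1) hw hq (show 0 ≤ Λ + 1 by linarith)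
    le_rfl le_rfl h1 hη
  rwa [show Λ + 1 + 1 = Λ + 2 by ring] at h2


/-! ### The top boundary of a tower -/

/-- The rows of a tower. -/
theorem rows67 {θ K h : ℝ} {P n₁ : ℕ} {η : Env} {κ : Pt} {r T Nr : ℕ → ℕ} {q : ℕ → ℝ} {bs : ℕ → Pt} {u b : ℕ}
    (hL : Lay89 μ s c θ K h P η κ r T Nr q bs u b n₁) {K₀ : ℕ} (hK₀ : 2 ≤ K₀) :
    ∀ i, u + i + 1 ≤ b → (∀ v, u ≤ v → v < u + i → K₀ * T v ≤ T (v + 1)) → r u ≤ r (u + i) ∧ r (u + i + 1) ≤ r u + 2 * T (u + i) := by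
  intro i
  induction i with
  | zero =>
    intro hb _
    have h1 := hL.b1 u le_rfl (by omega)
    have h2 := hL.b2 u le_rfl (by omega)
    have h3 := hL.NT u le_rfl (by omega)
    rw [add_zero]
    exact ⟨le_rfl, by omega⟩
  | succ i ih =>
    intro hb hTK
    obtain ⟨h1, h2⟩ := ih (by omega) (fun v hv hv' => hTK v hv (by omega))
    have h3 := hTK (u + i) (by omega) (by omega)
    have h4 := hL.b1 (u + i + 1) (by omega) (by omega)
    have h5 := hL.b2 (u + i + 1) (by omega) (by omega)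
    have h6 := hL.NT (u + i + 1) (by omega) (by omega)
    have h7 := hL.rr (u + i) (by omega) (by omega)
    have h8 : 2 * T (u + i) ≤ T (u + i + 1) := (Nat.mul_le_mul_right _ hK₀).trans h3
    rw [show u + (i + 1) = u + i + 1 by ring]
    refine ⟨h1.trans h7, ?_⟩
    omega

/-- **The slabs of a part of the tower**, in the unit of the last scale. -/
theorem slabs67 (h0 : In μ s c C n₀) : ∃ K₀ : ℕ, 2 ≤ K₀ ∧ ∀ P : ℕ, ∃ (D : ℝ) (n₁ : ℕ), 1 ≤ D ∧ 1 ≤ n₁ ∧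
    ∀ {Qm θ K h : ℝ} {η : Env} {κ : Pt} {r T Nr : ℕ → ℕ} {q : ℕ → ℝ} {bs : ℕ → Pt} {u t a b n₂ n₃ : ℕ}, 3 ≤ K → 0 ≤ Qm →
      Lay89 μ s c θ K h P η κ r T Nr q bs u (t + 1) n₂ → n₁ ≤ n₂ → n₃ ≤ n₂ → u ≤ t → u ≤ a → b ≤ t + 1 →
      (∀ v, u ≤ v → v < t → K₀ * T v ≤ T (v + 1)) → (∀ v, u ≤ v → v ≤ t → (1 + q v) ^ 2 ≤ Qm) →
      |h| * wd μ s (T t) ≤ c / 8 * EE μ s (T t) → Slabs μ s c θ K h P η κ r T Nr q bs a b (T t) n₃ (D * Qm) := by
  obtain ⟨K₀, hK₀, H⟩ := cost67 h0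
  refine ⟨K₀, hK₀, fun P => ?_⟩
  obtain ⟨D, n₁, hD, hn₁, H⟩ := H P
  refine ⟨D, n₁, hD, hn₁, ?_⟩
  intro Qm θ K h η κ r T Nr q bs u t a b n₂ n₃ hK hQm hL hn hn3 hut hua hbt hTK hq hh
  have hmono : ∀ v, u ≤ v → v ≤ t → T v ≤ T t := by
    intro v hv hvt
    obtain ⟨i, hi⟩ : ∃ i, t = v + i := ⟨t - v, by omega⟩
    have key : ∀ i, v + i ≤ t → T v ≤ T (v + i) := by
      intro i
      induction i with
      | zero => intro _; rw [add_zero]
      | succ i ih =>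
        intro h1
        have h2 := ih (by omega)
        have h3 := hTK (v + i) (by omega) (by omega)
        have h4 : 1 * T (v + i) ≤ K₀ * T (v + i) := Nat.mul_le_mul_right _ (by omega)
        rw [show v + (i + 1) = v + i + 1 by ring]
        omega
    rw [hi]
    exact key i (by omega)
  refine ⟨fun v h1 h2 => hL.q0 v (by omega) (by omega), hK, hn3.trans (hL.T1 t hut (by omega)), fun v h1 h2 => hn3.trans (hL.T1 v (by omega) (by omega)),
    fun v h1 h2 => hmono v (by omega) (by omega), fun v h1 h2 => hL.NT v (by omega) (by omega), fun v h1 h2 => hL.rr v (by omega) (by omega),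
    fun v h1 h2 => hL.b1 v (by omega) (by omega), fun v h1 h2 => hL.b2 v (by omega) (by omega), fun v h1 h2 => hL.b3 v (by omega) (by omega),
    fun v h1 h2 => hL.far v (by omega) (by omega), ?_, hh⟩
  exact H (Qm := Qm) (T := T) (q := q) (a := a) (b := b) (t := t) hQm hbt (fun v h1 h2 => hn.trans (hL.T1 v (by omega) (by omega)))
    (fun v h1 h2 => hTK v (by omega) h2) (fun v h1 h2 => hq v (by omega) (by omega))

/-- **THE TOP BOUNDARY OF A TOWER**, explicit: the constant of the levels and of the regularity above is `Qm`, the displacement `t` is at least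
`X Qm ^ 4` widths of the last scale. -/
theorem topQ67 (h0 : In μ s c C n₀) : ∃ K₀ : ℕ, 2 ≤ K₀ ∧ ∀ (P : ℕ) {K θ : ℝ}, 4 ≤ K → 0 < θ → ∃ (X : ℝ) (n₁ : ℕ), 1 ≤ X ∧ 1 ≤ n₁ ∧
    ∀ {h σ Qm t : ℝ} {η : Env} {κ : Pt} {p : ℕ → ℝ} {M N : ℕ} {r T Nr : ℕ → ℕ} {q : ℕ → ℝ} {bs : ℕ → Pt} {u m : ℕ} {x y₀ : ℤ},
      1 ≤ m → 1 ≤ Qm → X * Qm ^ 4 * wd μ s (T (u + m)) ≤ t → (∀ k, k < M → p k = Real.exp (s + h)) → (∀ k, M ≤ k → p k = Real.exp s) →
      Lay89 μ s c θ K h P η κ r T Nr q bs u (u + m + 1) n₁ →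
      (∀ v, u ≤ v → v < u + m → K₀ * T v ≤ T (v + 1)) →
      (∀ v, u ≤ v → v ≤ u + m → (1 + q v) ^ 2 ≤ Qm) → |h| * wd μ s (T (u + m)) ≤ c / 8 * EE μ s (T (u + m)) →
      r (u + m + 1) ≤ N → (N : ℝ) + 1 ≤ Real.exp (EE μ s (T (u + m))) →
      |lt μ s κ r u x| ≤ (K - 2) / 2 * wd μ s (T u) - 1 → |lt μ s κ r (u + m + 1) y₀| ≤ (K - 2) / 2 * wd μ s (T (u + m)) - 1 →
      0 ≤ σ → σ ≤ c / 64 →
      (∀ y : ℤ, bh16 μ s h η p M N (r (u + m + 1)) y ≤ Real.exp ((Qm + σ * (|lt μ s κ r (u + m + 1) y| / wd μ s (T (u + m)))) *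
        EE μ s (T (u + m))) * bh16 μ s h η p M N (r (u + m + 1)) y₀) →
      16 * (((r (u + m) - r u : ℕ) : ℝ) * PM16 (fun a b x z => nk μ s h η p M a (b - a) x z) (bh16 μ s h η p M N) (r u) (r (u + m)) x
        (fun z => t ≤ |lt μ s κ r (u + m) z - lt μ s κ r u x|)) ≤ bh16 μ s h η p M N (r u) x := by
  obtain ⟨K₀, hK₀, HS⟩ := slabs67 h0
  obtain ⟨K₁, n₇, hK₁, hn₇, H7⟩ := scale_num h0
  refine ⟨max K₀ K₁, hK₀.trans (le_max_left _ _), fun P K θ hK hθ => ?_⟩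
  obtain ⟨C₈, hC₈, n₂, hn₂, H⟩ := topx16 h0 P hK hθ
  obtain ⟨D, n₃, hD, hn₃, HS⟩ := HS P
  obtain ⟨n₅, hn₅⟩ := card89 h0 16
  obtain ⟨n₆, hn₆⟩ := eventually_atTop.1 ((wd_tendsto h0).eventually_ge_atTop 1)
  obtain ⟨X, hX⟩ : ∃ X : ℝ, X = C₈ * (3 * D + 3) ^ 4 + K := ⟨_, rfl⟩
  have hX1 : 1 ≤ X := by
    rw [hX]
    have : 0 ≤ C₈ * (3 * D + 3) ^ 4 := by positivity
    linarith
  refine ⟨X, max (max n₂ n₃) (max n₅ (max n₆ n₇)), hX1, hn₂.trans ((le_max_left _ _).trans (le_max_left _ _)), ?_⟩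
  intro h σ Qm t η κ p M N r T Nr q bs u m x y₀ hm hQm hZ hp hp' hL hTK hq hh hrN hN hx hy₀ hσ0 hσ hD2
  obtain ⟨n₁, hn₁⟩ : ∃ n₁, n₁ = max (max n₂ n₃) (max n₅ (max n₆ n₇)) := ⟨_, rfl⟩
  rw [← hn₁] at hL
  have l2 : n₂ ≤ n₁ := by rw [hn₁]; exact (le_max_left _ _).trans (le_max_left _ _)
  have l3 : n₃ ≤ n₁ := by rw [hn₁]; exact (le_max_right _ _).trans (le_max_left _ _)
  have l5 : n₅ ≤ n₁ := by rw [hn₁]; exact (le_max_left _ _).trans (le_max_right _ _)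
  have l6 : n₆ ≤ n₁ := by rw [hn₁]; exact (le_max_left _ _).trans ((le_max_right _ _).trans (le_max_right _ _))
  have l7 : n₇ ≤ n₁ := by rw [hn₁]; exact (le_max_right _ _).trans ((le_max_right _ _).trans (le_max_right _ _))
  have hpp : ∀ k, 0 < p k := fun k => by
    rcases lt_or_ge k M with h1 | h1
    · rw [hp k h1]; exact Real.exp_pos _
    · rw [hp' k h1]; exact Real.exp_pos _
  have hTK0 : ∀ v, u ≤ v → v < u + m → K₀ * T v ≤ T (v + 1) := fun v h1 h2 =>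
    (Nat.mul_le_mul_right _ (le_max_left _ _)).trans (hTK v h1 h2)
  have hTK1 : ∀ v, u ≤ v → v < u + m → K₁ * T v ≤ T (v + 1) := fun v h1 h2 =>
    (Nat.mul_le_mul_right _ (le_max_right _ _)).trans (hTK v h1 h2)
  have hw1 : ∀ v, u ≤ v → v ≤ u + m → 1 ≤ wd μ s (T v) := fun v h1 h2 => hn₆ _ (l6.trans (hL.T1 v h1 (by omega)))
  -- the widths grow
  have hwm : ∀ i, i ≤ m → wd μ s (T u) ≤ wd μ s (T (u + i)) := by
    intro i
    induction i with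
    | zero => intro _; rw [add_zero]
    | succ i ih =>
      intro hi
      refine (ih (by omega)).trans ?_
      exact (H7 (T (u + i)) (T (u + i + 1)) (l7.trans (hL.T1 (u + i) (by omega) (by omega))) (hTK1 (u + i) (by omega) (by omega))).1
  have hwu := hwm m le_rfl
  obtain ⟨Tt, hTt⟩ : ∃ Tt, Tt = T (u + m) := ⟨_, rfl⟩
  obtain ⟨w, hw⟩ : ∃ w, w = wd μ s Tt := ⟨_, rfl⟩
  have hQ0 : 0 ≤ Qm := by linarith
  have S1 := HS (Qm := Qm) (u := u) (t := u + m) (a := u) (b := u + m) (n₃ := n₂) (show (3 : ℝ) ≤ K by linarith) hQ0 hL l3 l2 (by omega) le_rfl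
    (by omega) hTK0 hq hh
  have S2 := HS (Qm := Qm) (u := u) (t := u + m) (a := u + m) (b := u + m + 1) (n₃ := n₂) (show (3 : ℝ) ≤ K by linarith) hQ0 hL l3 l2 (by omega)
    (by omega) (by omega) hTK0 hq hh
  have S3 := HS (Qm := Qm) (u := u) (t := u + m) (a := u) (b := u + m + 1) (n₃ := n₂) (show (3 : ℝ) ≤ K by linarith) hQ0 hL l3 l2 (by omega)
    le_rfl (by omega) hTK0 hq hh
  have hDQ : 0 ≤ D * Qm := by positivity
  obtain ⟨hr1, hr2⟩ := rows67 hL hK₀ (m - 1) (by omega) (fun v h1 h2 => hTK0 v h1 (by omega))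
  have hru : r u ≤ r (u + m) := by
    have h1 := (rows67 hL hK₀ m (by omega) hTK0).1
    exact h1
  rw [show u + (m - 1) + 1 = u + m by omega] at hr2
  have hrm : r (u + m) - r u ≤ T (u + m) := by
    have h1 := hTK0 (u + (m - 1)) (by omega) (by omega)
    rw [show u + (m - 1) + 1 = u + m by omega] at h1
    have h2 : 2 * T (u + (m - 1)) ≤ T (u + m) := (Nat.mul_le_mul_right _ hK₀).trans h1
    omega
  have hQ41 : (1 : ℝ) ≤ Qm ^ 4 := one_le_pow₀ hQm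
  have hwt0 : 0 < wd μ s (T (u + m)) := by linarith [hw1 (u + m) (by omega) le_rfl]
  -- the displacement
  have hDD : C₈ * (1 + D * Qm + D * Qm + D * Qm + Qm + 1) ^ 4 ≤ t / wd μ s (T (u + m)) - K := by
    have h1 : (1 + D * Qm + D * Qm + D * Qm + Qm + 1) ≤ (3 * D + 3) * Qm := by nlinarith
    have h2 : (1 + D * Qm + D * Qm + D * Qm + Qm + 1) ^ 4 ≤ ((3 * D + 3) * Qm) ^ 4 := pow_le_pow_left₀ (by positivity) h1 4
    have h3 : X * Qm ^ 4 ≤ t / wd μ s (T (u + m)) := by rwa [le_div_iff₀ hwt0]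
    rw [hX] at h3
    have h5 := mul_le_mul_of_nonneg_left h2 hC₈.le
    have h6 : C₈ * ((3 * D + 3) * Qm) ^ 4 = C₈ * (3 * D + 3) ^ 4 * Qm ^ 4 := by ring
    have h7 : K * 1 ≤ K * Qm ^ 4 := mul_le_mul_of_nonneg_left hQ41 (by linarith)
    nlinarith
  have hKw : (t / wd μ s (T (u + m)) - K + K) * wd μ s (T (u + m)) ≤ t := by
    rw [sub_add_cancel, div_mul_cancel₀ _ hwt0.ne']
  have hxK : |lt μ s κ r u x| ≤ K * wd μ s (T (u + m)) := by
    have h1 := hw1 u le_rfl (by omega)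
    have h2 : (K - 2) / 2 * wd μ s (T u) ≤ K * wd μ s (T (u + m)) := by
      calc (K - 2) / 2 * wd μ s (T u) ≤ K * wd μ s (T u) := mul_le_mul_of_nonneg_right (by linarith) (by linarith)
        _ ≤ _ := mul_le_mul_of_nonneg_left hwu (by linarith)
    linarith
  have key := H (Q₁ := D * Qm) (Q₂ := D * Qm) (Q₃ := D * Qm) (Q₄ := Qm) (G := 1) hDQ hDQ hDQ hQ0 zero_le_one hp hp' S1 S2 S3
    (by omega) (by omega) (fun v h1 h2 => hL.len v h1 h2) hrN hN hx hxK (by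
      rw [show u + m + 1 - 1 = u + m by omega]
      exact hy₀) hσ0 hσ hD2 (D := t / wd μ s (T (u + m)) - K) (t := t) hDD hKw hru
  have e1 : (fun z : ℤ => t ≤ |lt μ s κ r (u + m) z - lt μ s κ r u x|) =
      fun z : ℤ => t ≤ |(z : ℝ) - x - sl μ s * ((r (u + m) - r u : ℕ) : ℝ)| := by
    funext z
    rw [lt_sub κ r u (u + m) x z hru]
    push_cast
    rfl
  have key' : PM16 (fun a b x z => nk μ s h η p M a (b - a) x z) (bh16 μ s h η p M N) (r u) (r (u + m)) x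
      (fun z => t ≤ |lt μ s κ r (u + m) z - lt μ s κ r u x|) ≤
        Real.exp (-(1 * EE μ s (T (u + m)))) * bh16 μ s h η p M N (r u) x := by
    refine le_trans (le_of_eq ?_) key
    unfold PN16
    congr 1
  have hB := bh16_pos (μ := μ) (s := s) (h := h) (η := η) (M := M) (N := N) hpp (r u) x
  have hc := hn₅ (T (u + m)) (l5.trans (hL.T1 (u + m) (by omega) (by omega)))
  have hrm' : ((r (u + m) - r u : ℕ) : ℝ) ≤ T (u + m) := by exact_mod_cast hrm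
  have hr0 : (0 : ℝ) ≤ ((r (u + m) - r u : ℕ) : ℝ) := Nat.cast_nonneg _
  have h1 : 16 * (((r (u + m) - r u : ℕ) : ℝ) * Real.exp (-(1 * EE μ s (T (u + m))))) ≤ 1 := by
    rw [one_mul, Real.exp_neg]
    have h2 : 0 < Real.exp (EE μ s (T (u + m))) := Real.exp_pos _
    rw [← div_eq_mul_inv, mul_div_assoc', div_le_iff₀ h2]
    linarith
  calc 16 * (((r (u + m) - r u : ℕ) : ℝ) * PM16 (fun a b x z => nk μ s h η p M a (b - a) x z) (bh16 μ s h η p M N) (r u) (r (u + m)) x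
        (fun z => t ≤ |lt μ s κ r (u + m) z - lt μ s κ r u x|)) ≤
      16 * (((r (u + m) - r u : ℕ) : ℝ) * (Real.exp (-(1 * EE μ s (T (u + m)))) * bh16 μ s h η p M N (r u) x)) :=
        mul_le_mul_of_nonneg_left (mul_le_mul_of_nonneg_left key' hr0) (by norm_num)
    _ = 16 * (((r (u + m) - r u : ℕ) : ℝ) * Real.exp (-(1 * EE μ s (T (u + m))))) * bh16 μ s h η p M N (r u) x := by ring
    _ ≤ 1 * bh16 μ s h η p M N (r u) x := mul_le_mul_of_nonneg_right h1 hB.le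
    _ = _ := one_mul _


/-! ### The own slab -/

/-- **TAME OF THE OWN SLAB** of a tower `r u < r (u + 1) < r (u + 2) < r (u + 3)` (heights `T u, T (u + 1), T (u + 2)` of its layers) from the near
statement of the arms of one start and the two fat levels; any backward masses `B`; the rows of the window are `r (u + 1), .., e`,
`r (u + 2) ≤ e ≤ r (u + 3)`. -/
theorem own67 (h0 : In μ s c C n₀) : ∃ K₀ : ℕ, 2 ≤ K₀ ∧ ∀ (P : ℕ) {K θ Kb : ℝ}, 3 ≤ K → 0 < θ → 1 ≤ Kb → ∃ n₁ : ℕ, 1 ≤ n₁ ∧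
    ∀ q R : ℝ, 0 ≤ q → 1 ≤ R → 2 * R ≤ K - 2 → ∃ Q' : ℝ, 0 < Q' ∧
    ∀ {h : ℝ} {N₁ N₂ M N e : ℕ} {b₁ b₂ κ : Pt} {η : Env} {p : ℕ → ℝ} {B : ℕ → ℤ → ℝ} {r T : ℕ → ℕ} {u : ℕ}, n₁ ≤ T (u + 1) →
      K₀ * T (u + 1) ≤ T (u + 2) → (T (u + 2) : ℝ) ≤ Kb * T (u + 1) → N₁ ≤ T (u + 1) → N₂ ≤ T (u + 2) →
      |h| * wd μ s (T (u + 1)) ≤ c / 8 * EE μ s (T (u + 1)) → |h| * wd μ s (T (u + 2)) ≤ c / 8 * EE μ s (T (u + 2)) →
      (∀ k, k < M → p k = Real.exp (s + h)) → (∀ k, M ≤ k → p k = Real.exp s) →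
      Sys16 (fun a b x z => nk μ s h η p M a (b - a) x z) B N →
      η ∈ Far16 μ s c θ K (T (u + 1)) N₁ P b₁ q → η ∈ Far16 μ s c θ K (T (u + 2)) N₂ P b₂ q →
      |lat16 μ s κ b₁| ≤ wd μ s (T (u + 1)) → |lat16 μ s κ b₂| ≤ wd μ s (T (u + 2)) →
      b₁.1 ≤ r u → r u ≤ r (u + 1) → r (u + 1) ≤ r (u + 2) → r (u + 2) ≤ e → e ≤ r (u + 3) → (r (u + 2) : ℤ) ≤ b₁.1 + N₁ →
      b₂.1 ≤ r (u + 1) → (r (u + 3) : ℤ) ≤ b₂.1 + N₂ → r (u + 3) ≤ N →
      θ * T (u + 1) ≤ ((r (u + 1) - r u : ℕ) : ℝ) → θ * T (u + 2) ≤ ((r (u + 2) - r (u + 1) : ℕ) : ℝ) →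
      θ * T (u + 2) ≤ ((r (u + 3) - e : ℕ) : ℝ) →
      ∀ {x : ℤ} {D : ℝ}, |lt μ s κ r u x| ≤ R * wd μ s (T (u + 1)) → |lt μ s κ r u x| + D ≤ R * wd μ s (T (u + 2)) →
      B (r u) x ≤ 2 * PM16 (fun a b x z => nk μ s h η p M a (b - a) x z) B (r u) (r (u + 3)) x
        (fun z => |lt μ s κ r (u + 3) z - lt μ s κ r u x| < D) →
      ∀ (k k' : ℕ) (y y' : ℤ), r (u + 1) ≤ k → k ≤ e → r (u + 1) ≤ k' → k' ≤ e →
        |lat16 μ s κ ((k : ℤ), y)| ≤ R * wd μ s (T (u + 1)) → |lat16 μ s κ ((k' : ℤ), y')| ≤ R * wd μ s (T (u + 1)) →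
        B k' y' ≤ Real.exp (Q' * EE μ s (T (u + 1))) * B k y := by
  obtain ⟨Bw, n₄, hBw, hn₄, HB⟩ := wd_next67 h0
  obtain ⟨K₁, n₇, hK₁, hn₇, H7⟩ := scale_num h0
  refine ⟨K₁, hK₁, fun P K θ Kb hK hθ hKb => ?_⟩
  have hBK : 1 ≤ Bw * Kb := one_le_mul_of_one_le_of_one_le hBw hKb
  obtain ⟨n₂, hn₂, H⟩ := tame_two67 h0 P hK hθ hBK
  refine ⟨max n₂ (max n₄ n₇), hn₂.trans (le_max_left _ _), fun q R hq hR hRK => ?_⟩
  obtain ⟨Q', hQ', H⟩ := H q R hq hR hRK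
  refine ⟨Q', hQ', ?_⟩
  intro h N₁ N₂ M N e b₁ b₂ κ η p B r T u hT hTK hTb hN₁ hN₂ hh hh' hp hp' S hη₁ hη₂ hκ₁ hκ₂ hb1 r01 r12 r2e re3 hb2 hb3 hb4 hrN hθ1 hθ3 hθ2
    x D hx hxD hnear k k' y y' hk1 hk2 hk1' hk2' hy hy'
  have l2 : n₂ ≤ T (u + 1) := (le_max_left _ _).trans hT
  have l4 : n₄ ≤ T (u + 1) := ((le_max_left _ _).trans (le_max_right _ _)).trans hT
  have l7 : n₇ ≤ T (u + 1) := ((le_max_right _ _).trans (le_max_right _ _)).trans hT
  have hT1 : T (u + 1) ≤ T (u + 2) := by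
    have : 1 * T (u + 1) ≤ K₁ * T (u + 1) := Nat.mul_le_mul_right _ (by omega)
    omega
  obtain ⟨hw, hsl⟩ := H7 (T (u + 1)) (T (u + 2)) l7 hTK
  have hwb := HB l4 hT1 hTb
  have hT10 : 1 ≤ T (u + 1) := hn₂.trans l2
  have hw1 := h0.wd_pos hT10
  have hw2 := h0.wd_pos (hT10.trans hT1)
  have hEb : EE μ s (T (u + 2)) ≤ Bw * Kb * EE μ s (T (u + 1)) := by
    rw [div_le_div_iff₀ hw2 hw1] at hsl
    have hE1 := EE_pos (μ := μ) (s := s) (T (u + 1))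
    have h1 : EE μ s (T (u + 2)) * wd μ s (T (u + 1)) ≤ Bw * Kb * EE μ s (T (u + 1)) * wd μ s (T (u + 1)) := by
      calc _ ≤ EE μ s (T (u + 1)) * wd μ s (T (u + 2)) := hsl
        _ ≤ EE μ s (T (u + 1)) * (Bw * Kb * wd μ s (T (u + 1))) := mul_le_mul_of_nonneg_left hwb hE1.le
        _ = _ := by ring
    exact le_of_mul_le_mul_right h1 hw1
  refine H l2 hT1 hN₁ hN₂ hw hwb hEb hh hh' hp hp' S hη₁ hη₂ hκ₁ hκ₂ (a := r u) (b := r (u + 1)) (c' := r (u + 2)) (e := e)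
    (d := r (u + 3)) hb1 r01 r12 hb2 hb3 r2e re3 hb4 hrN hθ1 hθ3 hθ2 (x := x) hx ?_ k k' y y' hk1 hk2 hk1' hk2' hy hy'
  have r03 : r u ≤ r (u + 3) := r01.trans (r12.trans (r2e.trans re3))
  have hsp := PM16_split S r03 hrN x (fun z => |lat16 μ s κ (((r (u + 3) : ℕ) : ℤ), z)| ≤ R * wd μ s (T (u + 2)))
  have hmono : PM16 (fun a b x z => nk μ s h η p M a (b - a) x z) B (r u) (r (u + 3)) x
      (fun z => |lt μ s κ r (u + 3) z - lt μ s κ r u x| < D) ≤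
      PM16 (fun a b x z => nk μ s h η p M a (b - a) x z) B (r u) (r (u + 3)) x
        (fun z => |lat16 μ s κ (((r (u + 3) : ℕ) : ℤ), z)| ≤ R * wd μ s (T (u + 2))) := by
    unfold PM16
    refine sum_le_sum_of_subset_of_nonneg (fun z hz => ?_) fun z _ _ => mul_nonneg (S.k0 _ _ _ _) (S.b0 _ _ hrN).le
    obtain ⟨h1, h2⟩ := mem_filter.1 hz
    refine mem_filter.2 ⟨h1, ?_⟩
    have h3 : lat16 μ s κ (((r (u + 3) : ℕ) : ℤ), z) = lt μ s κ r (u + 3) z := rfl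
    rw [h3]
    have h4 := abs_add_le (lt μ s κ r (u + 3) z - lt μ s κ r u x) (lt μ s κ r u x)
    rw [sub_add_cancel] at h4
    linarith
  linarith

end

end Pool.Agent.W_7d29a1_C1.Own67
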