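import Pool.Agent.W_7d29a1_C1.D2F16
import Pool.Agent.W_7d29a1_C1.OwnT67
import Pool.Agent.W_7d29a1_C1.RB6
import Pool.Agent.W_7d29a1_C1.PshQ16

/-!
MP_7d29a1_pr, [C1] attractor route, TAME: (D2) AT EVERY CLEAN ROW, CONSTANT INDEPENDENT OF THE NUMBER OF THE LAYERS ABOVE. (helper16)

`layReb16`: the layers seen from another line. `scale2_16`, `num_row16`: numbers. `d2_row16`: clean layers `f, .., f + m` above the row `r f`
(`Lay89`, steep levels, nodes which are not felt, centres; levels `q v ≤ q₀ Θ ^ (v - f)` and `1 + q v ≤ Q₄ g₀ ^ m`), (D2) at the row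
`r (f + m + 1)` with a constant `Qd ≤ Q₄ g₀ ^ m`, and `m₀ ≤ m`: **(D2) at the row `r f` with the constant
`Q₀ ((1 + q₀) ^ 4 β ^ Δ / σ) ^ pw`, every slope `σ`, all places against the places within `K₁` widths.** `g₀` sees `b` only, `m₀` sees
`Q₄`, `σ` (and the numbers before), not `q₀`, `β`, `Cn`, `R`.
-/

set_option autoImplicit false

namespace Pool.Agent.W_7d29a1_C1.U16

open MeasureTheory ProbabilityTheory Filter Topology Finset
open Pool.Agent.W_7d29a1_F Pool.Agent.W_7d29a1_h4g Pool.Agent.W_7d29a1_H Pool.Agent.W_7d29a1_HS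
open Pool.Agent.W_7d29a1_C1.H75 Pool.Agent.W_7d29a1_C1.FarK89 Pool.Agent.W_7d29a1_C1.FarW89
open Pool.Agent.W_7d29a1_C1.DD84 Pool.Agent.W_7d29a1_C1.SysN89 Pool.Agent.W_7d29a1_C1.LrN89
open Pool.Agent.W_7d29a1_C1.H94 (nu Cs94)

noncomputable section

variable {μ : Measure ℝ} {s c C : ℝ} {n₀ : ℕ}

/-- The lateral coordinate from another line. -/
theorem lt_reb16 (κ κ' : Pt) (r : ℕ → ℕ) (v : ℕ) (x : ℤ) : lt μ s κ' r v x = lt μ s κ r v x - lat16 μ s κ κ' :=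
  lat_base (μ := μ) (s := s) κ κ' ((r v : ℤ), x)

/-- **The layers seen from another line.** -/
theorem layReb16 {θ K K' h : ℝ} {P : ℕ} {η : Env} {κ : Pt} {r T N : ℕ → ℕ} {q : ℕ → ℝ} {bs : ℕ → Pt} {a b n₁ : ℕ}
    (hL : Lay89 μ s c θ K h P η κ r T N q bs a b n₁) (hK : K' + 2 ≤ K) (hw : ∀ v, a ≤ v → v < b → 1 ≤ wd μ s (T v)) {κ' : Pt} {X : ℝ}
    (hX : 0 ≤ X) (hκ : |lat16 μ s κ κ'| ≤ X) :
    ∃ bs' : ℕ → Pt, Lay89 μ s c θ K' h P η κ' r T N (fun v => q v * gr P (3 + X / wd μ s (T v))) bs' a b n₁ := by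
  have h1 : ∀ v, ∃ b' : Pt, a ≤ v → v < b → b'.1 = (bs v).1 ∧ |lat16 μ s κ' b'| ≤ wd μ s (T v) ∧
      η ∈ Far16 μ s c θ K' (T v) (N v) P b' (q v * gr P (3 + X / wd μ s (T v))) := by
    intro v
    by_cases hv : a ≤ v ∧ v < b
    · have hw1 := hw v hv.1 hv.2
      have hw0 : 0 < wd μ s (T v) := by linarith only [hw1]
      have e1 : lat16 μ s κ' (bs v) = lat16 μ s κ (bs v) - lat16 μ s κ κ' := lat_base (μ := μ) (s := s) κ κ' (bs v)
      have h2 : |lat16 μ s κ' (bs v)| ≤ (1 + X / wd μ s (T v)) * wd μ s (T v) := by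
        rw [e1, add_mul, div_mul_cancel₀ _ hw0.ne', one_mul]
        have := abs_sub (lat16 μ s κ (bs v)) (lat16 μ s κ κ')
        have := hL.b3 v hv.1 hv.2
        linarith
      obtain ⟨b', g1, g2, g3, g4⟩ := Pool.Agent.W_7d29a1_C1.RB6.line16 (K' := K') (X := 1 + X / wd μ s (T v)) (hL.q0 v hv.1 hv.2) hw1 hK
        (by positivity) h2 (hL.far v hv.1 hv.2)
      rw [show 2 + (1 + X / wd μ s (T v)) = 3 + X / wd μ s (T v) by ring] at g4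
      exact ⟨b', fun _ _ => ⟨g1, by rw [abs_of_nonneg g2]; linarith only [g3, hw1], g4⟩⟩
    · exact ⟨bs v, fun h1 h2 => absurd ⟨h1, h2⟩ hv⟩
  choose bs' hbs using h1
  refine ⟨bs', fun v h1 h2 => mul_nonneg (hL.q0 v h1 h2) (gr_nonneg P ?_), hL.T1, hL.NT, hL.rr, fun v h1 h2 => ?_, fun v h1 h2 => ?_,
    fun v h1 h2 => (hbs v h1 h2).2.1, fun v h1 h2 => (hbs v h1 h2).2.2, hL.force, hL.len⟩
  · have hw1 := hw v h1 h2
    positivity
  · rw [(hbs v h1 h2).1]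
    exact hL.b1 v h1 h2
  · rw [(hbs v h1 h2).1]
    exact hL.b2 v h1 h2

variable [IsProbabilityMeasure μ]

/-- **The scales double**: widths double, slopes halve, the unit grows. -/
theorem scale2_16 (h : In μ s c C n₀) : ∃ K₀ n₁ : ℕ, 2 ≤ K₀ ∧ 1 ≤ n₁ ∧ ∀ m n : ℕ, n₁ ≤ m → K₀ * m ≤ n →
    2 * wd μ s m ≤ wd μ s n ∧ 2 * (EE μ s n / wd μ s n) ≤ EE μ s m / wd μ s m ∧ EE μ s m ≤ EE μ s n := by
  obtain ⟨a, k, ha, hk, n₂, hn2, hr⟩ := wd_ratio h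
  obtain ⟨K, b, n₃, hK, hb, hn3, hg⟩ := wd_gain h
  obtain ⟨d, n₄, hd, -, hn4, hE⟩ := Pool.Agent.W_7d29a1_HL.EE_pow h
  obtain ⟨N₁, hN₁⟩ := exists_nat_ge ((2 / k) ^ (1 / a))
  obtain ⟨N₂, hN₂⟩ := exists_nat_ge ((2 * K) ^ (1 / b))
  obtain ⟨N₃, hN₃⟩ := exists_nat_ge ((2 : ℝ) ^ (1 / d))
  refine ⟨max 2 (max N₁ (max N₂ N₃)), max n₂ (max n₃ n₄), le_max_left _ _, hn2.trans (le_max_left _ _), fun m n hm hmn => ?_⟩
  obtain ⟨K₀, hK₀⟩ : ∃ K₀, K₀ = max 2 (max N₁ (max N₂ N₃)) := ⟨_, rfl⟩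
  rw [← hK₀] at hmn
  have hK1 : 1 ≤ K₀ := by rw [hK₀]; exact le_trans (by norm_num) (le_max_left _ _)
  have g2 : n₂ ≤ m := (le_max_left _ _).trans hm
  have g3 : n₃ ≤ m := ((le_max_left _ _).trans (le_max_right _ _)).trans hm
  have g4 : n₄ ≤ m := ((le_max_right _ _).trans (le_max_right _ _)).trans hm
  have hm1 : 1 ≤ m := hn2.trans g2
  have hm0 : (0 : ℝ) < m := by exact_mod_cast hm1
  have hmn' : m ≤ n := (Nat.le_mul_of_pos_left m hK1).trans hmn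
  have hx : (K₀ : ℝ) ≤ (n : ℝ) / m := by
    rw [le_div_iff₀ hm0]
    exact_mod_cast hmn
  have hpw : ∀ {e X : ℝ} {N : ℕ}, 0 < e → 0 ≤ X → X ^ (1 / e) ≤ N → N ≤ K₀ → X ≤ ((n : ℝ) / m) ^ e := by
    intro e X N he hX h1 h2
    have h3 : X ^ (1 / e) ≤ (n : ℝ) / m := (h1.trans (by exact_mod_cast h2)).trans hx
    have h4 := Real.rpow_le_rpow (by positivity) h3 he.le
    rwa [← Real.rpow_mul hX, one_div, inv_mul_cancel₀ he.ne', Real.rpow_one] at h4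
  have p1 := hpw ha (by positivity) hN₁ (by rw [hK₀]; exact (le_max_left _ _).trans (le_max_right _ _))
  have p2 := hpw hb (by positivity) hN₂ (by rw [hK₀]; exact ((le_max_left _ _).trans (le_max_right _ _)).trans (le_max_right _ _))
  have p3 := hpw hd (by norm_num) hN₃ (by rw [hK₀]; exact ((le_max_right _ _).trans (le_max_right _ _)).trans (le_max_right _ _))
  have hwm := h.wd_pos hm1
  have hwn := h.wd_pos (hm1.trans hmn')
  have hEm := EE_pos (μ := μ) (s := s) m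
  have hEn := EE_pos (μ := μ) (s := s) n
  refine ⟨?_, ?_, ?_⟩
  · have h1 := hr m n g2 hmn'
    have h2 : 2 ≤ k * ((n : ℝ) / m) ^ a := by
      have := mul_le_mul_of_nonneg_left p1 hk.le
      rwa [mul_div_cancel₀ _ hk.ne'] at this
    exact (mul_le_mul_of_nonneg_right h2 hwm.le).trans h1
  · have h1 := hg m n g3 hmn'
    have h2 : 2 * K * (EE μ s n * wd μ s m) ≤ K * (EE μ s m * wd μ s n) :=
      (mul_le_mul_of_nonneg_right p2 (by positivity)).trans h1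
    have h3 : 2 * (EE μ s n * wd μ s m) ≤ EE μ s m * wd μ s n := by
      refine le_of_mul_le_mul_left ?_ hK
      linarith only [h2]
    rw [mul_div_assoc', div_le_div_iff₀ hwn hwm]
    linarith only [h3]
  · have h1 := hE m n g4 hmn'
    have h2 := mul_le_mul_of_nonneg_right p3 hEm.le
    linarith only [h1, h2]

/-- The numbers. -/
theorem num_row16 (b : ℕ) : ∃ (E : ℕ) (g₀ : ℝ), 1 ≤ E ∧ 1 < g₀ ∧ g₀ ^ 2 ≤ 2 ∧ ∀ X₁ X₂ X₃ : ℝ, ∃ m₀ : ℕ, 1 ≤ m₀ ∧ ∀ m, m₀ ≤ m →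
    ∃ m₁ : ℕ, m₁ + 3 < m ∧ X₁ * (g₀ ^ 16) ^ m ≤ 4 ^ (m - (m₁ + 3)) ∧ X₂ * (g₀ ^ 16) ^ m * (b : ℝ) ^ (m - m₁) ≤ 8 ^ m₁ ∧
      X₃ ≤ 2 ^ (m - m₁) ∧ X₃ ≤ 2 ^ m := by
  -- `E` with `16 b ≤ 2 ^ E`
  obtain ⟨B, hB⟩ : ∃ B : ℝ, B = max 1 (b : ℝ) := ⟨_, rfl⟩
  have hB1 : 1 ≤ B := by rw [hB]; exact le_max_left _ _
  have hbB : (b : ℝ) ≤ B := by rw [hB]; exact le_max_right _ _
  obtain ⟨E, hE⟩ : ∃ E : ℕ, 16 * B ≤ (2 : ℝ) ^ E := by
    obtain ⟨E, hE⟩ := pow_unbounded_of_one_lt (16 * B) (show (1 : ℝ) < 2 by norm_num)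
    exact ⟨E, hE.le⟩
  have hE1 : 1 ≤ E := by
    rcases Nat.eq_zero_or_pos E with h1 | h1
    · rw [h1, pow_zero] at hE
      linarith only [hE, hB1]
    · exact h1
  obtain ⟨g₀, hg₀⟩ : ∃ g₀ : ℝ, g₀ = (2 : ℝ) ^ (1 / (16 * E : ℝ)) := ⟨_, rfl⟩
  have hE0 : (0 : ℝ) < 16 * E := by
    have : (0 : ℝ) < E := by exact_mod_cast hE1
    linarith only [this]
  have hg1 : 1 < g₀ := by
    rw [hg₀]
    exact Real.one_lt_rpow (by norm_num) (by positivity)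
  have hgE : (g₀ ^ 16) ^ E ≤ 2 := by
    rw [← pow_mul, hg₀, ← Real.rpow_natCast, ← Real.rpow_mul (by norm_num)]
    push_cast
    rw [one_div, inv_mul_cancel₀ hE0.ne', Real.rpow_one]
  have hg2 : g₀ ^ 2 ≤ 2 := by
    refine le_trans ?_ hgE
    rw [← pow_mul]
    exact pow_le_pow_right₀ hg1.le (by omega)
  refine ⟨E, g₀, hE1, hg1, hg2, fun X₁ X₂ X₃ => ?_⟩
  -- powers
  obtain ⟨a₁, ha₁⟩ := pow_unbounded_of_one_lt (max X₁ X₃) (show (1 : ℝ) < 2 by norm_num)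
  obtain ⟨a₂, ha₂⟩ := pow_unbounded_of_one_lt (|X₂| * B ^ 3 * 8 ^ 3 * 2 ^ E) (show (1 : ℝ) < 2 by norm_num)
  refine ⟨max (E * a₁ + 8) (a₂ + 8), by omega, fun m hm => ?_⟩
  obtain ⟨L, hL⟩ : ∃ L : ℕ, L = m / E + 1 := ⟨_, rfl⟩
  have m1 : E * a₁ + 8 ≤ m := (le_max_left _ _).trans hm
  have m2 : a₂ + 8 ≤ m := (le_max_right _ _).trans hm
  have hL1 : 1 ≤ L := by rw [hL]; exact Nat.le_add_left 1 _
  have hdiv1 : E * (m / E) ≤ m := Nat.mul_div_le m E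
  have hdiv2 : m < E * (m / E) + E := Nat.lt_mul_div_succ m hE1 |>.trans_eq (by ring)
  have hLm : m ≤ E * L := by
    rw [hL, mul_add, mul_one]
    omega
  have hEL : E * L ≤ m + E := by
    rw [hL, mul_add, mul_one]
    omega
  have hE4 : 4 ≤ E := by
    by_contra hcon
    have h1 : (2 : ℝ) ^ E ≤ 2 ^ 3 := pow_le_pow_right₀ (by norm_num) (by omega)
    have h2 : (2 : ℝ) ^ 3 = 8 := by norm_num
    linarith only [h1, h2, hE, hB1]
  have hL4 : L + 4 ≤ m := by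
    have h1 : 4 * (m / E) ≤ E * (m / E) := Nat.mul_le_mul_right _ hE4
    rw [hL]
    generalize m / E = d at h1 hdiv1
    generalize E * d = e at h1 hdiv1
    omega
  have ha1L : a₁ ≤ L := by
    have h1 : a₁ ≤ m / E := by
      rw [Nat.le_div_iff_mul_le (by omega), mul_comm]
      omega
    omega
  have hgm : (g₀ ^ 16) ^ m ≤ 2 ^ L := by
    have h16 : 1 ≤ g₀ ^ 16 := one_le_pow₀ hg1.le
    calc (g₀ ^ 16) ^ m ≤ (g₀ ^ 16) ^ (E * L) := pow_le_pow_right₀ h16 hLm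
      _ = ((g₀ ^ 16) ^ E) ^ L := by rw [pow_mul]
      _ ≤ 2 ^ L := pow_le_pow_left₀ (by positivity) hgE L
  have hg0 : 0 ≤ (g₀ ^ 16) ^ m := by positivity
  have h2L : max X₁ X₃ ≤ 2 ^ L := ha₁.le.trans (pow_le_pow_right₀ (by norm_num) ha1L)
  refine ⟨m - (L + 3), by omega, ?_, ?_, ?_, ?_⟩
  · rw [show m - (m - (L + 3) + 3) = L by omega]
    have h1 : X₁ * (g₀ ^ 16) ^ m ≤ 2 ^ L * 2 ^ L := by
      refine (mul_le_mul_of_nonneg_right ((le_max_left _ _).trans h2L) hg0).trans ?_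
      exact mul_le_mul_of_nonneg_left hgm (by positivity)
    refine h1.trans (le_of_eq ?_)
    rw [← mul_pow]
    norm_num
  · rw [show m - (m - (L + 3)) = L + 3 by omega]
    obtain ⟨m₁, hm₁⟩ : ∃ m₁, m = m₁ + (L + 3) := ⟨m - (L + 3), by omega⟩
    rw [show m - (L + 3) = m₁ by omega]
    have h1 : (b : ℝ) ^ (L + 3) ≤ B ^ (L + 3) := pow_le_pow_left₀ (Nat.cast_nonneg _) hbB _
    have h2 : X₂ * (g₀ ^ 16) ^ m * (b : ℝ) ^ (L + 3) ≤ |X₂| * 2 ^ L * B ^ (L + 3) := by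
      calc X₂ * (g₀ ^ 16) ^ m * (b : ℝ) ^ (L + 3) ≤ |X₂| * (g₀ ^ 16) ^ m * (b : ℝ) ^ (L + 3) := by
            refine mul_le_mul_of_nonneg_right (mul_le_mul_of_nonneg_right (le_abs_self _) hg0) (by positivity)
        _ ≤ |X₂| * 2 ^ L * B ^ (L + 3) := mul_le_mul (mul_le_mul_of_nonneg_left hgm (abs_nonneg _)) h1 (by positivity) (by positivity)
    refine h2.trans ?_
    have h3 : (16 * B) ^ L ≤ 2 ^ (m + E) := by
      calc (16 * B) ^ L ≤ ((2 : ℝ) ^ E) ^ L := pow_le_pow_left₀ (by positivity) hE L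
        _ = 2 ^ (E * L) := by rw [pow_mul]
        _ ≤ 2 ^ (m + E) := pow_le_pow_right₀ (by norm_num) hEL
    have h4 : |X₂| * B ^ 3 * 8 ^ 3 * 2 ^ E ≤ 2 ^ m := ha₂.le.trans (pow_le_pow_right₀ (by norm_num) (by omega))
    have h5 : |X₂| * 2 ^ L * B ^ (L + 3) * (8 ^ (L + 3)) ≤ 8 ^ m := by
      calc |X₂| * 2 ^ L * B ^ (L + 3) * (8 ^ (L + 3)) = |X₂| * B ^ 3 * 8 ^ 3 * (16 * B) ^ L := by
            rw [mul_pow, show (16 : ℝ) = 2 * 8 by norm_num, mul_pow]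
            ring
        _ ≤ |X₂| * B ^ 3 * 8 ^ 3 * 2 ^ (m + E) := mul_le_mul_of_nonneg_left h3 (by positivity)
        _ = |X₂| * B ^ 3 * 8 ^ 3 * 2 ^ E * 2 ^ m := by rw [pow_add]; ring
        _ ≤ 2 ^ m * 2 ^ m := mul_le_mul_of_nonneg_right h4 (by positivity)
        _ = 4 ^ m := by rw [← mul_pow]; norm_num
        _ ≤ 8 ^ m := pow_le_pow_left₀ (by norm_num) (by norm_num) m
    rw [hm₁, pow_add (8 : ℝ) m₁] at h5
    exact le_of_mul_le_mul_right h5 (by positivity)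
  · rw [show m - (m - (L + 3)) = L + 3 by omega]
    exact ((le_max_right _ _).trans h2L).trans (pow_le_pow_right₀ (by norm_num) (by omega))
  · exact ((le_max_right _ _).trans h2L).trans (pow_le_pow_right₀ (by norm_num) (by omega))

/-- **(D2) AT A CLEAN ROW**, constant independent of the number of the layers above. -/
theorem d2_row16 (h0 : In μ s c C n₀) : ∃ pw : ℕ, ∀ {θn : ℝ}, 0 < θn → ∀ (K0 : ℕ) {Bn : ℕ}, 1 ≤ Bn → ∃ K₂ : ℕ, 2 ≤ K₂ ∧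
    ∀ b : ℕ, ∃ g₀ : ℝ, 1 < g₀ ∧ g₀ ^ 2 ≤ 2 ∧ ∀ (kT : ℕ) (K₁ C₀ : ℝ), 1 ≤ K₁ → 0 ≤ C₀ → ∃ Rm : ℝ, ∀ (P : ℕ) {θ K B₂ : ℝ}, 0 < θ → 10 ≤ K →
    2 ≤ B₂ → ∀ Y Bp δ : ℝ, 8 ≤ Y → 2 ≤ Bp → 0 < δ → δ ≤ θ * sl μ s → δ ≤ θ * (1 - sl μ s) → ∃ (Q₀ : ℝ) (n₁ : ℕ), 1 ≤ Q₀ ∧ 1 ≤ n₁ ∧
    ∀ {σ Q₄ : ℝ}, 0 < σ → σ ≤ 1 → 0 ≤ Q₄ → ∃ m₀ : ℕ, 4 ≤ m₀ ∧
    ∀ {c₀ δ₁ c₁ A aa g Y₁ : ℝ} {Kb n₃ : ℕ}, Cs94 μ s c₀ δ₁ c₁ A aa g θn Y₁ K0 Kb n₃ → 4 * b * Bn ≤ Kb → 8 * Y₁ ≤ Y → 64 ≤ c₁ * Y →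
    ∀ {q₀ β : ℝ} {Cn R ρ : ℕ}, 0 ≤ q₀ → 1 ≤ β → β ≤ 2 → 1 ≤ Cn → B₂ ≤ β ^ Cn → 1 ≤ ρ → ρ ^ Cn ≤ R → Rm ≤ R →
    ∀ {h : ℝ} {η : Env} {p : ℕ → ℝ} {M Nt : ℕ}, (∀ k, k < M → p k = Real.exp (s + h)) → (∀ k, M ≤ k → p k = Real.exp s) →
    ∀ {κ : Pt} {r T Tn N : ℕ → ℕ} {q : ℕ → ℝ} {bs : ℕ → Pt} {w : ℕ → ℤ} {be : ℕ → ℝ} {f m Δ : ℕ} {Θ B₁ σ₄ Qd : ℝ} {xc : ℕ → ℤ} {y₀ : ℤ},
    m₀ ≤ m → 1 ≤ Θ → Θ ^ 2 ≤ 2 → Lay89 μ s c θ K h P η κ r T N q bs f (f + m + 1) n₁ →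
    StL89 μ s B₁ B₂ δ η κ r T q w be (f + 1) (f + m) → 2 * Bp ≤ B₁ → r (f + m + 1) ≤ Nt → (M ≤ r f ∨ r (f + m) ≤ M) →
    |h| * wd μ s (T (f + m)) ≤ c / 8 * EE μ s (T (f + m)) → (Nt : ℝ) + 1 ≤ Real.exp (EE μ s (Tn f)) →
    (∀ v, f ≤ v → v < f + m → K₂ * T v ≤ T (v + 1) ∧ T (v + 1) ≤ b * T v) →
    (∀ v, f ≤ v → v + 1 < f + m → K₂ * Tn v ≤ Tn (v + 1) ∧ Tn (v + 1) ≤ b * Tn v) →
    (∀ v, f ≤ v → v < f + m → Tn v ≤ T v ∧ T v ≤ kT * Tn v) → (∀ v, f ≤ v → v < f + m → n₁ ≤ Tn v ∧ Bn * n₃ ≤ Tn v) →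
    (∀ v, f ≤ v → v < f + m → r (v + 1) ≤ r v + Tn v ∧ Tn v ≤ Bn * (r (v + 1) - r v)) → n₁ * K₂ ^ Δ ≤ T f →
    (∀ v, f ≤ v → v < f + m → q v ≤ q₀ * Θ ^ (v - f)) → (∀ v, f ≤ v → v ≤ f + m → 1 + q v ≤ Q₄ * g₀ ^ m) →
    (∀ k, 1 ≤ k → k < m → Cn * nu μ s c₀ δ₁ Y (wd μ s (Tn (f + (k - 1)))) (wd μ s (Tn (f + k)) / wd μ s (Tn (f + (k - 1)))) R
      (r (f + (k - 1)) : ℤ) (r (f + k) - r (f + (k - 1))) (r (f + (k + 1)) - r (f + k)) (xc k) η ≤ Δ + k) →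
    (∀ k, 1 ≤ k → k < m → |lt μ s κ r (f + k) (xc k)| ≤ C₀ * (ρ : ℝ) ^ (Δ + k) * wd μ s (Tn (f + (k - 1)))) →
    |lt μ s κ r (f + m + 1) y₀| ≤ (K - 6) / 2 * wd μ s (T (f + m)) - 1 → 0 ≤ σ₄ → σ₄ ≤ c / 64 →
    Qd ≤ Q₄ * g₀ ^ m →
    (∀ y : ℤ, bh16 μ s h η p M Nt (r (f + m + 1)) y ≤ Real.exp ((Qd + σ₄ * (|lt μ s κ r (f + m + 1) y| / wd μ s (T (f + m)))) *
      EE μ s (T (f + m))) * bh16 μ s h η p M Nt (r (f + m + 1)) y₀) →
    ∀ x x' : ℤ, |lt μ s κ r f x'| ≤ K₁ * wd μ s (T f) → bh16 μ s h η p M Nt (r f) x ≤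
      Real.exp ((Q₀ * ((1 + q₀) ^ 4 * β ^ Δ / σ) ^ pw + σ * (|lt μ s κ r f x| / wd μ s (T f))) * EE μ s (T f)) *
        bh16 μ s h η p M Nt (r f) x' := by
  obtain ⟨gw, pw, hgw, HT⟩ := d2_tower16 h0
  obtain ⟨K₄, hK₄, HQ⟩ := Pool.Agent.W_7d29a1_C1.Own67.topQ67 h0
  obtain ⟨K₅, hK₅, HS⟩ := Pool.Agent.W_7d29a1_C1.Own67.slabs67 h0
  obtain ⟨K₆, n₆, hK₆, hn₆, H2⟩ := scale2_16 h0
  obtain ⟨Kg, hKg⟩ := exists_nat_ge ((8 : ℝ) ^ (1 / gw))
  refine ⟨pw, fun {θn} hθn K0 {Bn} hBn => ?_⟩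
  obtain ⟨K₃, hK₃, HT⟩ := HT hθn K0 hBn
  obtain ⟨K₂, hK₂⟩ : ∃ K₂ : ℕ, K₂ = max (max K₃ K₄) (max K₅ (max K₆ Kg)) := ⟨_, rfl⟩
  have k3 : K₃ ≤ K₂ := by rw [hK₂]; exact (le_max_left _ _).trans (le_max_left _ _)
  have k4 : K₄ ≤ K₂ := by rw [hK₂]; exact (le_max_right _ _).trans (le_max_left _ _)
  have k5 : K₅ ≤ K₂ := by rw [hK₂]; exact (le_max_left _ _).trans (le_max_right _ _)
  have k6 : K₆ ≤ K₂ := by rw [hK₂]; exact ((le_max_left _ _).trans (le_max_right _ _)).trans (le_max_right _ _)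
  have kg : Kg ≤ K₂ := by rw [hK₂]; exact ((le_max_right _ _).trans (le_max_right _ _)).trans (le_max_right _ _)
  have hK₂2 : 2 ≤ K₂ := hK₃.trans k3
  refine ⟨K₂, hK₂2, ?_⟩
  intro b
  obtain ⟨-, g₀, -, hg1, hg2, HN⟩ := num_row16 b
  refine ⟨g₀, hg1, hg2, ?_⟩
  intro kT K₁ C₀ hK₁ hC₀
  obtain ⟨Rm, HT⟩ := HT b kT K₁ C₀ hK₁ hC₀
  refine ⟨Rm, ?_⟩
  intro P θ K B₂ hθ hK hB₂ Y Bp δ hY hBp hδ hδ1 hδ2
  obtain ⟨Q₀, n₂, hQ₀, hn₂, HT⟩ := HT P hθ (show (4 : ℝ) ≤ K by linarith only [hK]) hB₂ Y Bp δ hY hBp hδ hδ1 hδ2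
  obtain ⟨X, n₃', hX, hn₃', HQ⟩ := HQ P (K := K - 2) (show (4 : ℝ) ≤ K - 2 by linarith only [hK]) hθ
  obtain ⟨D, n₄, hD, hn₄, HS⟩ := HS P
  obtain ⟨C₉, hC₉, n₅, hn₅, HP⟩ := pshQ16 h0 P (K := K - 2) (show (4 : ℝ) ≤ K - 2 by linarith only [hK]) hθ
  obtain ⟨Bw, n₇, hBw, hn₇, HW⟩ := wd_next h0 b
  obtain ⟨Bk, n₈, hBk, hn₈, HK⟩ := wd_next h0 (b * kT)
  obtain ⟨n₉, hn₉⟩ := eventually_atTop.1 ((wd_tendsto h0).eventually_ge_atTop 1)
  obtain ⟨Cg, hCg, HG⟩ := Pool.Agent.W_7d29a1_C1.RB6.gr_pow6 (R := 2 * Bw) (th := g₀) (by linarith only [hBw]) hg1 P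
  obtain ⟨n₁, hn₁⟩ : ∃ n₁ : ℕ, n₁ = max (max (max n₂ n₃') (max n₄ n₅)) (max (max n₆ n₇) (max n₈ n₉)) := ⟨_, rfl⟩
  have l2 : n₂ ≤ n₁ := by rw [hn₁]; exact ((le_max_left _ _).trans (le_max_left _ _)).trans (le_max_left _ _)
  have l3 : n₃' ≤ n₁ := by rw [hn₁]; exact ((le_max_right _ _).trans (le_max_left _ _)).trans (le_max_left _ _)
  have l4 : n₄ ≤ n₁ := by rw [hn₁]; exact ((le_max_left _ _).trans (le_max_right _ _)).trans (le_max_left _ _)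
  have l5 : n₅ ≤ n₁ := by rw [hn₁]; exact ((le_max_right _ _).trans (le_max_right _ _)).trans (le_max_left _ _)
  have l6 : n₆ ≤ n₁ := by rw [hn₁]; exact ((le_max_left _ _).trans (le_max_left _ _)).trans (le_max_right _ _)
  have l7 : n₇ ≤ n₁ := by rw [hn₁]; exact ((le_max_right _ _).trans (le_max_left _ _)).trans (le_max_right _ _)
  have l8 : n₈ ≤ n₁ := by rw [hn₁]; exact ((le_max_left _ _).trans (le_max_right _ _)).trans (le_max_right _ _)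
  have l9 : n₉ ≤ n₁ := by rw [hn₁]; exact ((le_max_right _ _).trans (le_max_right _ _)).trans (le_max_right _ _)
  have hn₁1 : 1 ≤ n₁ := hn₂.trans l2
  refine ⟨Q₀, n₁, hQ₀, hn₁1, ?_⟩
  intro σ Q₄ hσ hσ1 hQ₄
  obtain ⟨Cq, hCq⟩ : ∃ Cq : ℝ, Cq = (Q₄ + 1) ^ 2 * Cg ^ 2 := ⟨_, rfl⟩
  have hc0 := h0.c0
  have hc1 := h0.c1
  obtain ⟨d', hd'⟩ : ∃ d' : ℝ, d' = c / 64 := ⟨_, rfl⟩
  have hd0 : 0 < d' := by rw [hd']; positivity
  have hd1 : d' ≤ 1 / 64 := by rw [hd']; linarith only [hc1]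
  obtain ⟨Ca, hCa⟩ : ∃ Ca : ℝ, Ca = C₉ * (D + 2) ^ 4 / d' + 1 := ⟨_, rfl⟩
  obtain ⟨m₀, hm₀, HN⟩ := HN (X * Cq ^ 4 * Bk) (Ca * Cq ^ 4 * 2) (max K₁ (2 / σ))
  refine ⟨max 4 m₀, le_max_left _ _, ?_⟩
  intro c₀ δ₁ c₁ A aa g Y₁ Kb n₃ hCs hKb hYY hcY q₀ β Cn R ρ hq₀ hβ hβ2 hCn hBβ hρ hρR hRmR
    h η p M Nt hp hp' κ r T Tn N q bs w be f m Δ Θ B₁ σ₄ Qd xc y₀ hm hΘ hΘ2 hL hSt hBpB hrN hM hh hN hT hTn hTT hbig hrn hΔ
    hq hqm hnu hxc hy₀ hσ₄ hσ₄c hQd hD2 x x' hx'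
  obtain ⟨m₁, hm₁, N1, N2, N3, N4⟩ := HN m ((le_max_right _ _).trans hm)
  have hm4 : 4 ≤ m := (le_max_left _ _).trans hm
  have hpp : ∀ k, 0 < p k := fun k => by
    rcases lt_or_ge k M with h1 | h1
    · rw [hp k h1]; exact Real.exp_pos _
    · rw [hp' k h1]; exact Real.exp_pos _
  have S := sys_model16 (μ := μ) (s := s) (h := h) (η := η) (p := p) (M := M) (N := Nt) hpp
  -- the scales
  have hTn1 : ∀ v, f ≤ v → v ≤ f + m → n₁ ≤ T v := fun v h1 h2 => hL.T1 v h1 (by omega)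
  have hw1 : ∀ v, f ≤ v → v ≤ f + m → 1 ≤ wd μ s (T v) := fun v h1 h2 => hn₉ _ (l9.trans (hTn1 v h1 h2))
  have hdb : ∀ v, f ≤ v → v < f + m → 2 * wd μ s (T v) ≤ wd μ s (T (v + 1)) ∧
      2 * (EE μ s (T (v + 1)) / wd μ s (T (v + 1))) ≤ EE μ s (T v) / wd μ s (T v) ∧ EE μ s (T v) ≤ EE μ s (T (v + 1)) := fun v h1 h2 =>
    H2 _ _ (l6.trans (hTn1 v h1 h2.le)) ((Nat.mul_le_mul_right _ k6).trans (hT v h1 h2).1)
  have hwi : ∀ d v, f ≤ v → v + d ≤ f + m → 2 ^ d * wd μ s (T v) ≤ wd μ s (T (v + d)) := by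
    intro d
    induction d with
    | zero => intro v _ _; rw [pow_zero, one_mul, Nat.add_zero]
    | succ d ih =>
      intro v h1 h2
      have h3 := ih v h1 (by omega)
      have h4 := (hdb (v + d) (by omega) (by omega)).1
      rw [show v + (d + 1) = v + d + 1 by omega, pow_succ]
      linarith only [h3, h4]
  have hwB : ∀ d v, f ≤ v → v + d ≤ f + m → wd μ s (T (v + d)) ≤ Bw ^ d * wd μ s (T v) := by
    intro d
    induction d with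
    | zero => intro v _ _; rw [pow_zero, one_mul, Nat.add_zero]
    | succ d ih =>
      intro v h1 h2
      have h3 := ih v h1 (by omega)
      have h5 := hT (v + d) (by omega) (by omega)
      have h4 := HW _ _ (l7.trans (hTn1 (v + d) (by omega) (by omega))) ((Nat.le_mul_of_pos_left _ (by omega : 0 < K₂)).trans h5.1) h5.2
      rw [show v + (d + 1) = v + d + 1 by omega, pow_succ]
      have h6 := mul_le_mul_of_nonneg_left h3 (show 0 ≤ Bw by linarith only [hBw])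
      linarith only [h4, h6]
  have hsl : ∀ d, d ≤ m → 2 ^ d * (EE μ s (T (f + d)) / wd μ s (T (f + d))) ≤ EE μ s (T f) / wd μ s (T f) := by
    intro d
    induction d with
    | zero => intro _; rw [pow_zero, one_mul, Nat.add_zero]
    | succ d ih =>
      intro hd
      have h3 := ih (by omega)
      have h4 := (hdb (f + d) (by omega) (by omega)).2.1
      rw [show f + (d + 1) = f + d + 1 by omega, pow_succ]
      have h5 := mul_le_mul_of_nonneg_left h4 (show (0 : ℝ) ≤ 2 ^ d by positivity)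
      linarith only [h3, h5]
  have hTg : ∀ i, i ≤ m → K₂ ^ i * T f ≤ T (f + i) := fun i hi =>
    tow_grow16 (T := T) (f := f) (m := m + 1) (K := K₂) (fun v h1 h2 => (hT v h1 (by omega)).1) i (by omega)
  have hTb : ∀ d v, f ≤ v → v + d ≤ f + m → (T (v + d) : ℝ) ≤ (b : ℝ) ^ d * T v ∧ T v ≤ T (v + d) := by
    intro d
    induction d with
    | zero => intro v _ _; rw [pow_zero, one_mul, Nat.add_zero]; exact ⟨le_rfl, le_rfl⟩
    | succ d ih =>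
      intro v h1 h2
      have h3 := ih v h1 (by omega)
      have h5 := hT (v + d) (by omega) (by omega)
      have h4 : (T (v + d + 1) : ℝ) ≤ b * T (v + d) := by exact_mod_cast h5.2
      rw [show v + (d + 1) = v + d + 1 by omega, pow_succ]
      have h6 := mul_le_mul_of_nonneg_left h3.1 (show (0 : ℝ) ≤ b by positivity)
      refine ⟨by linarith only [h4, h6], h3.2.trans ((Nat.le_mul_of_pos_left _ (by omega : 0 < K₂)).trans h5.1)⟩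
  obtain ⟨Tt, hTt⟩ : ∃ Tt, Tt = T (f + m) := ⟨_, rfl⟩
  have hwt := hw1 (f + m) (by omega) le_rfl
  have hwt0 : 0 < wd μ s (T (f + m)) := by linarith only [hwt]
  have hEt := EE_pos (μ := μ) (s := s) (T (f + m))
  have hEn : EE μ s (Tn f) ≤ EE μ s (T (f + m)) := by
    have h1 : K₆ * Tn f ≤ T (f + m) := by
      have h2 := hTg m le_rfl
      have h3 : K₂ ≤ K₂ ^ m := Nat.le_self_pow (by omega) K₂
      calc K₆ * Tn f ≤ K₂ * T f := Nat.mul_le_mul k6 (hTT f le_rfl (by omega)).1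
        _ ≤ K₂ ^ m * T f := Nat.mul_le_mul_right _ h3
        _ ≤ _ := h2
    exact (H2 _ _ (l6.trans (hbig f le_rfl (by omega)).1) h1).2.2
  have hNt : (Nt : ℝ) + 1 ≤ Real.exp (EE μ s (T (f + m))) := hN.trans (Real.exp_le_exp.2 hEn)
  -- the level
  have hg00 : 0 ≤ g₀ := by linarith only [hg1]
  have hgm1 : 1 ≤ g₀ ^ m := one_le_pow₀ hg1.le
  have hCg1 : 1 ≤ Cg ^ 2 := one_le_pow₀ hCg
  obtain ⟨Qm, hQm⟩ : ∃ Qm : ℝ, Qm = Cq * (g₀ ^ 4) ^ m := ⟨_, rfl⟩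
  have hCq2 : (Q₄ + 1) ^ 2 ≤ Cq := by
    rw [hCq]
    exact le_mul_of_one_le_right (by positivity) hCg1
  have hCq1 : Q₄ + 1 ≤ Cq := (le_self_pow₀ (by linarith only [hQ₄]) (by norm_num)).trans hCq2
  have hCq0 : 0 < Cq := by linarith only [hCq1, hQ₄]
  have hg4 : 1 ≤ (g₀ ^ 4) ^ m := one_le_pow₀ (one_le_pow₀ hg1.le)
  have hQm1 : 1 ≤ Qm := by
    rw [hQm]
    exact one_le_mul_of_one_le_of_one_le (by linarith only [hCq1, hQ₄]) hg4
  have hQm4 : Qm ^ 4 = Cq ^ 4 * (g₀ ^ 16) ^ m := by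
    rw [hQm, mul_pow, ← pow_mul, ← pow_mul, ← pow_mul]
    congr 2
    ring
  have hD2m : Qd + σ₄ ≤ Qm := by
    have h2 : g₀ ^ m ≤ (g₀ ^ 4) ^ m := pow_le_pow_left₀ hg00 (le_self_pow₀ hg1.le (by norm_num)) m
    have h3 : Q₄ * g₀ ^ m ≤ Q₄ * (g₀ ^ 4) ^ m := mul_le_mul_of_nonneg_left h2 hQ₄
    have h4 : (Q₄ + 1) * (g₀ ^ 4) ^ m ≤ Qm := by
      rw [hQm]
      exact mul_le_mul_of_nonneg_right hCq1 (by positivity)
    linarith only [hQd, h3, h4, hg4, hσ₄c, hc1]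
  -- the frames
  have frame : ∀ κ' : Pt, |lat16 μ s κ κ'| ≤ wd μ s (T (f + m)) → ∃ (q' : ℕ → ℝ) (bs' : ℕ → Pt),
      Lay89 μ s c θ (K - 2) h P η κ' r T N q' bs' f (f + m + 1) n₁ ∧ (∀ v, f ≤ v → v ≤ f + m → (1 + q' v) ^ 2 ≤ Qm) ∧
      |lt μ s κ' r (f + m + 1) y₀| ≤ (K - 2 - 2) / 2 * wd μ s (T (f + m)) - 1 ∧
      (∀ y : ℤ, bh16 μ s h η p M Nt (r (f + m + 1)) y ≤ Real.exp ((Qm + σ₄ * (|lt μ s κ' r (f + m + 1) y| / wd μ s (T (f + m)))) *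
        EE μ s (T (f + m))) * bh16 μ s h η p M Nt (r (f + m + 1)) y₀) := by
    intro κ' hκ'
    obtain ⟨bs', hL'⟩ := layReb16 hL (K' := K - 2) (by linarith only) (fun v h1 h2 => hw1 v h1 (by omega)) hwt0.le hκ'
    refine ⟨_, bs', hL', fun v h1 h2 => ?_, ?_, fun y => ?_⟩
    · have hwv := hw1 v h1 h2
      have hwv0 : 0 < wd μ s (T v) := by linarith only [hwv]
      have h3 : wd μ s (T (f + m)) / wd μ s (T v) ≤ Bw ^ m := by
        rw [div_le_iff₀ hwv0]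
        have h4 := hwB (f + m - v) v h1 (by omega)
        rw [show v + (f + m - v) = f + m by omega] at h4
        refine h4.trans (mul_le_mul_of_nonneg_right ?_ hwv0.le)
        exact pow_le_pow_right₀ (by linarith only [hBw]) (by omega)
      have h4 : 3 + wd μ s (T (f + m)) / wd μ s (T v) ≤ 2 + (2 * Bw) ^ m := by
        have h5 : (1 : ℝ) ≤ Bw ^ m := one_le_pow₀ (by linarith only [hBw])
        have h6 : (2 : ℝ) ≤ 2 ^ m := by
          calc (2 : ℝ) = 2 ^ 1 := (pow_one _).symm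
            _ ≤ 2 ^ m := pow_le_pow_right₀ (by norm_num) (by omega)
        rw [mul_pow]
        have h7 := mul_le_mul_of_nonneg_right h6 (show 0 ≤ Bw ^ m by linarith only [h5])
        linarith only [h3, h5, h7]
      have h5 : gr P (3 + wd μ s (T (f + m)) / wd μ s (T v)) ≤ Cg * g₀ ^ m := (gr_mono P (by positivity) h4).trans (HG m)
      have h6 := hqm v h1 h2
      have h7 : 1 ≤ Cg * g₀ ^ m := one_le_mul_of_one_le_of_one_le hCg hgm1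
      have hqv := hL.q0 v h1 (by omega)
      have h8 : q v * gr P (3 + wd μ s (T (f + m)) / wd μ s (T v)) ≤ q v * (Cg * g₀ ^ m) := mul_le_mul_of_nonneg_left h5 hqv
      have h8' := mul_le_mul_of_nonneg_right h6 (show 0 ≤ Cg * g₀ ^ m by linarith only [h7])
      have h9 : 1 + q v * gr P (3 + wd μ s (T (f + m)) / wd μ s (T v)) ≤ Q₄ * g₀ ^ m * (Cg * g₀ ^ m) := by
        linarith only [h7, h8, h8']
      have h10 : 0 ≤ 1 + q v * gr P (3 + wd μ s (T (f + m)) / wd μ s (T v)) := by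
        have := mul_nonneg hqv (gr_nonneg P (show 0 ≤ 3 + wd μ s (T (f + m)) / wd μ s (T v) by positivity))
        linarith only [this]
      refine (pow_le_pow_left₀ h10 h9 2).trans ?_
      have e1 : (Q₄ * g₀ ^ m * (Cg * g₀ ^ m)) ^ 2 = Q₄ ^ 2 * Cg ^ 2 * (g₀ ^ 4) ^ m := by
        rw [← pow_mul, mul_comm 4 m, pow_mul]
        ring
      rw [e1, hQm, hCq]
      refine mul_le_mul_of_nonneg_right (mul_le_mul_of_nonneg_right (pow_le_pow_left₀ hQ₄ (by linarith only) 2) (by positivity)) (by positivity)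
    · rw [lt_reb16 κ κ']
      have := abs_sub (lt μ s κ r (f + m + 1) y₀) (lat16 μ s κ κ')
      linarith only [this, hy₀, hκ']
    · have hB := bh16_pos (μ := μ) (s := s) (h := h) (η := η) (M := M) (N := Nt) hpp (r (f + m + 1)) y₀
      refine (hD2 y).trans (mul_le_mul_of_nonneg_right (Real.exp_le_exp.2 (mul_le_mul_of_nonneg_right ?_ hEt.le)) hB.le)
      have h1 : |lt μ s κ r (f + m + 1) y| ≤ |lt μ s κ' r (f + m + 1) y| + wd μ s (T (f + m)) := by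
        rw [lt_reb16 κ κ']
        have := abs_add_le (lt μ s κ r (f + m + 1) y - lat16 μ s κ κ') (lat16 μ s κ κ')
        rw [sub_add_cancel] at this
        linarith only [this, hκ']
      have h2 : |lt μ s κ r (f + m + 1) y| / wd μ s (T (f + m)) ≤ |lt μ s κ' r (f + m + 1) y| / wd μ s (T (f + m)) + 1 := by
        rw [div_add_one hwt0.ne']
        exact div_le_div_of_nonneg_right h1 hwt0.le
      have h3 := mul_le_mul_of_nonneg_left h2 hσ₄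
      linarith only [h3, hD2m]
  have hlt : ∀ y : ℤ, lat16 μ s κ ((r f : ℤ), y) = lt μ s κ r f y := fun y => rfl
  have hlt0 : ∀ y : ℤ, lt μ s ((r f : ℤ), y) r f y = 0 := fun y => by
    rw [lt_reb16 κ ((r f : ℤ), y), hlt, sub_self]
  have hwf := hw1 f le_rfl (by omega)
  have hK3 : 1 ≤ (K - 2 - 2) / 2 * wd μ s (T f) := one_le_mul_of_one_le_of_one_le (by linarith only [hK]) hwf
  have hKm1 : K₁ * wd μ s (T (f + m₁)) ≤ wd μ s (T (f + m)) := by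
    have h1 := hwi (m - m₁) (f + m₁) (by omega) (by omega)
    rw [show f + m₁ + (m - m₁) = f + m by omega] at h1
    have h2 := hw1 (f + m₁) (by omega) (by omega)
    exact (mul_le_mul_of_nonneg_right ((le_max_left _ _).trans N3) (by linarith only [h2])).trans h1
  have hKmf : K₁ * wd μ s (T f) ≤ wd μ s (T (f + m)) := by
    have h1 := hwi m₁ f le_rfl (by omega)
    have h2 : 1 * wd μ s (T f) ≤ 2 ^ m₁ * wd μ s (T f) :=
      mul_le_mul_of_nonneg_right (one_le_pow₀ (by norm_num)) (by linarith only [hwf])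
    have h3 : wd μ s (T f) ≤ wd μ s (T (f + m₁)) := by linarith only [h1, h2]
    exact (mul_le_mul_of_nonneg_left h3 (by linarith only [hK₁])).trans hKm1
  have hr0 : ∀ a b, f ≤ a → a ≤ b → b ≤ f + m + 1 → r a ≤ r b := by
    intro a b' h1 h2 h3
    have := r_mono (r := r) (a := f) (b := f + m + 1) hL.rr (b' - a) a h1 (by omega)
    rwa [show a + (b' - a) = b' by omega] at this
  -- the top boundary
  have htop : ∀ x : ℤ, |lt μ s κ r f x| ≤ K₁ * wd μ s (T (f + m₁)) →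
      16 * (((r (f + m) - r f : ℕ) : ℝ) * PM16 (fun a b x z => nk μ s h η p M a (b - a) x z) (bh16 μ s h η p M Nt) (r f) (r (f + m)) x
        (fun z => 4 ^ (m - (m₁ + 3)) * wd μ s (Tn (f + (m - 1))) ≤ |lt μ s κ r (f + m) z - lt μ s κ r f x|)) ≤
          bh16 μ s h η p M Nt (r f) x := by
    intro x hx
    obtain ⟨q', bs', hL', hq', hy', hD'⟩ := frame ((r f : ℤ), x) (by rw [hlt]; exact hx.trans hKm1)
    have ht : X * Qm ^ 4 * wd μ s (T (f + m)) ≤ 4 ^ (m - (m₁ + 3)) * wd μ s (Tn (f + (m - 1))) := by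
      have g1 := hT (f + (m - 1)) (by omega) (by omega)
      rw [show f + (m - 1) + 1 = f + m by omega] at g1
      have g2 := hTT (f + (m - 1)) (by omega) (by omega)
      have g3 : Tn (f + (m - 1)) ≤ T (f + m) := g2.1.trans ((Nat.le_mul_of_pos_left _ (by omega : 0 < K₂)).trans g1.1)
      have g4 : T (f + m) ≤ b * kT * Tn (f + (m - 1)) := by
        calc T (f + m) ≤ b * T (f + (m - 1)) := g1.2
          _ ≤ b * (kT * Tn (f + (m - 1))) := Nat.mul_le_mul_left _ g2.2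
          _ = _ := by ring
      have g5 := HK _ _ (l8.trans (hbig (f + (m - 1)) (by omega) (by omega)).1) g3 g4
      have hwn : 0 < wd μ s (Tn (f + (m - 1))) := h0.wd_pos (hn₁1.trans (hbig (f + (m - 1)) (by omega) (by omega)).1)
      calc X * Qm ^ 4 * wd μ s (T (f + m)) ≤ X * Qm ^ 4 * (Bk * wd μ s (Tn (f + (m - 1)))) :=
            mul_le_mul_of_nonneg_left g5 (by positivity)
        _ = X * Cq ^ 4 * Bk * (g₀ ^ 16) ^ m * wd μ s (Tn (f + (m - 1))) := by rw [hQm4]; ring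
        _ ≤ _ := mul_le_mul_of_nonneg_right N1 hwn.le
    have key := HQ (σ := σ₄) (Qm := Qm) (T := T) (Nr := N) (q := q') (bs := bs') (κ := ((r f : ℤ), x)) (u := f) (m := m) (x := x) (y₀ := y₀)
      (by omega) hQm1 ht hp hp' (hL'.sub le_rfl le_rfl l3)
      (fun v h1 h2 => (Nat.mul_le_mul_right _ k4).trans (hT v h1 h2).1) hq' hh hrN hNt
      (by rw [hlt0, abs_zero]; linarith only [hK3]) hy' hσ₄ hσ₄c hD'
    refine le_trans (mul_le_mul_of_nonneg_left (mul_le_mul_of_nonneg_left ?_ (Nat.cast_nonneg _)) (by norm_num)) key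
    refine PM16_mono S ((hr0 (f + m) (f + m + 1) (by omega) (by omega) le_rfl).trans hrN) x fun z _ _ hz => ?_
    rw [lt_reb16 κ ((r f : ℤ), x), lt_reb16 κ ((r f : ℤ), x) r f, sub_sub_sub_cancel_right]
    exact hz
  -- the places beyond the window
  have htop2 : ∀ x x' : ℤ, K₁ * wd μ s (T (f + m₁)) < |lt μ s κ r f x| → |lt μ s κ r f x'| ≤ K₁ * wd μ s (T f) →
      bh16 μ s h η p M Nt (r f) x ≤
      Real.exp (((T (f + m₁) : ℝ) / T f) ^ gw * EE μ s (T (f + m₁)) + σ / 2 * (EE μ s (T f) / wd μ s (T f)) * |lt μ s κ r f x|) *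
        bh16 μ s h η p M Nt (r f) x' := by
    intro x x' hx hx'
    obtain ⟨q', bs', hL', hq', hy', hD'⟩ := frame ((r f : ℤ), x') (by rw [hlt]; exact hx'.trans hKmf)
    have hSl := HS (Qm := Qm) (u := f) (t := f + m) (a := f) (b := f + m + 1) (n₃ := n₅) (show (3 : ℝ) ≤ K - 2 by linarith only [hK])
      (by linarith only [hQm1]) hL' l4 l5 (by omega) le_rfl le_rfl (fun v h1 h2 => (Nat.mul_le_mul_right _ k5).trans (hT v h1 h2).1) hq' hh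
    have key := HP (Q := D * Qm) (Q4 := Qm) (σ := σ₄) (δ := d') (by positivity) (by linarith only [hQm1]) hσ₄ (by linarith only [hσ₄c, hc0])
      hd0 (by linarith only [hd1]) hp hp' hSl (by omega) (fun v h1 h2 => hL.len v h1 h2) hrN hNt (y₀ := y₀)
      (by rw [show f + m + 1 - 1 = f + m by omega]; exact hy') hD' x x' (by rw [hlt0, abs_zero]; linarith only [hK3])
    have hB := bh16_pos (μ := μ) (s := s) (h := h) (η := η) (M := M) (N := Nt) hpp (r f) x'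
    refine key.trans (mul_le_mul_of_nonneg_right (Real.exp_le_exp.2 ?_) hB.le)
    have hxx : |lt μ s ((r f : ℤ), x') r f x| ≤ |lt μ s κ r f x| + wd μ s (T (f + m)) := by
      rw [lt_reb16 κ ((r f : ℤ), x'), hlt]
      have := abs_sub (lt μ s κ r f x) (lt μ s κ r f x')
      linarith only [this, hx', hKmf]
    have h2 : |lt μ s ((r f : ℤ), x') r f x| / wd μ s (T (f + m)) ≤ |lt μ s κ r f x| / wd μ s (T (f + m)) + 1 := by
      rw [div_add_one hwt0.ne']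
      exact div_le_div_of_nonneg_right hxx hwt0.le
    have hsd : σ₄ + d' ≤ 1 := by linarith only [hσ₄c, hd1, hc1]
    -- the slope
    have h3 : (σ₄ + d') * (|lt μ s κ r f x| / wd μ s (T (f + m))) * EE μ s (T (f + m)) ≤
        σ / 2 * (EE μ s (T f) / wd μ s (T f)) * |lt μ s κ r f x| := by
      have g1 := hsl m le_rfl
      have g2 : 2 / σ ≤ 2 ^ m := (le_max_right _ _).trans N4
      have g0 : 0 ≤ EE μ s (T (f + m)) / wd μ s (T (f + m)) := by positivity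
      have g3 : 2 / σ * (EE μ s (T (f + m)) / wd μ s (T (f + m))) ≤ EE μ s (T f) / wd μ s (T f) :=
        (mul_le_mul_of_nonneg_right g2 g0).trans g1
      have g4 : EE μ s (T (f + m)) / wd μ s (T (f + m)) ≤ σ / 2 * (EE μ s (T f) / wd μ s (T f)) := by
        have := mul_le_mul_of_nonneg_left g3 (show 0 ≤ σ / 2 by positivity)
        have e2 : σ / 2 * (2 / σ * (EE μ s (T (f + m)) / wd μ s (T (f + m)))) = EE μ s (T (f + m)) / wd μ s (T (f + m)) := by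
          field_simp
        rwa [e2] at this
      calc (σ₄ + d') * (|lt μ s κ r f x| / wd μ s (T (f + m))) * EE μ s (T (f + m)) =
          (σ₄ + d') * (EE μ s (T (f + m)) / wd μ s (T (f + m)) * |lt μ s κ r f x|) := by ring
        _ ≤ 1 * (EE μ s (T (f + m)) / wd μ s (T (f + m)) * |lt μ s κ r f x|) :=
            mul_le_mul_of_nonneg_right hsd (by positivity)
        _ = EE μ s (T (f + m)) / wd μ s (T (f + m)) * |lt μ s κ r f x| := one_mul _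
        _ ≤ _ := mul_le_mul_of_nonneg_right g4 (abs_nonneg _)
    -- the constant
    have h4 : (C₉ * (1 + D * Qm + Qm) ^ 4 / d' + 1) * EE μ s (T (f + m)) ≤ ((T (f + m₁) : ℝ) / T f) ^ gw * EE μ s (T (f + m₁)) := by
      have g1 : 1 + D * Qm + Qm ≤ (D + 2) * Qm := by linarith only [hQm1]
      have g2 : (1 + D * Qm + Qm) ^ 4 ≤ ((D + 2) * Qm) ^ 4 := pow_le_pow_left₀ (by positivity) g1 4
      have g3 : C₉ * (1 + D * Qm + Qm) ^ 4 / d' + 1 ≤ Ca * Qm ^ 4 := by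
        have e1 : Ca * Qm ^ 4 = C₉ * ((D + 2) * Qm) ^ 4 / d' + Qm ^ 4 := by rw [hCa]; ring
        rw [e1]
        have e2 : C₉ * (1 + D * Qm + Qm) ^ 4 / d' ≤ C₉ * ((D + 2) * Qm) ^ 4 / d' :=
          div_le_div_of_nonneg_right (mul_le_mul_of_nonneg_left g2 hC₉.le) hd0.le
        have e3 : 1 ≤ Qm ^ 4 := one_le_pow₀ hQm1
        linarith only [e2, e3]
      have hCa0 : 0 < Ca := by rw [hCa]; positivity
      have hT1p : 1 ≤ T (f + m₁) := hn₁1.trans (hTn1 (f + m₁) (by omega) (by omega))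
      have hT1r : (0 : ℝ) < T (f + m₁) := by exact_mod_cast hT1p
      have hTfp : 1 ≤ T f := hn₁1.trans (hTn1 f le_rfl (by omega))
      have hTfr : (0 : ℝ) < T f := by exact_mod_cast hTfp
      have hE1 := EE_pos (μ := μ) (s := s) (T (f + m₁))
      have g4 : EE μ s (T (f + m)) ≤ 2 * (b : ℝ) ^ (m - m₁) * EE μ s (T (f + m₁)) := by
        obtain ⟨e1, e2⟩ := hTb (m - m₁) (f + m₁) (by omega) (by omega)
        rw [show f + m₁ + (m - m₁) = f + m by omega] at e1 e2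
        have e3 := scale_b h0 hT1p e2
        have e4 : (T (f + m₁) : ℝ) * EE μ s (T (f + m)) ≤ T (f + m₁) * (2 * (b : ℝ) ^ (m - m₁) * EE μ s (T (f + m₁))) := by
          refine e3.trans ?_
          have := mul_le_mul_of_nonneg_right e1 hE1.le
          linarith only [this]
        exact le_of_mul_le_mul_left e4 hT1r
      have g5 : (8 : ℝ) ^ m₁ ≤ ((T (f + m₁) : ℝ) / T f) ^ gw := by
        have hKp : (0 : ℝ) ≤ K₂ := Nat.cast_nonneg _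
        have hKg' : 8 ≤ (K₂ : ℝ) ^ gw := by
          have h1 : (8 : ℝ) ^ (1 / gw) ≤ K₂ := hKg.trans (by exact_mod_cast kg)
          have h2 := Real.rpow_le_rpow (by positivity) h1 hgw.le
          rwa [← Real.rpow_mul (by norm_num), one_div, inv_mul_cancel₀ hgw.ne', Real.rpow_one] at h2
        have h1 : (K₂ : ℝ) ^ m₁ ≤ (T (f + m₁) : ℝ) / T f := by
          rw [le_div_iff₀ hTfr]
          exact_mod_cast hTg m₁ (by omega)
        have h2 := Real.rpow_le_rpow (by positivity) h1 hgw.le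
        have h3 : ((K₂ : ℝ) ^ m₁) ^ gw = ((K₂ : ℝ) ^ gw) ^ m₁ := by
          rw [← Real.rpow_natCast (K₂ : ℝ) m₁, ← Real.rpow_mul hKp, mul_comm, Real.rpow_mul hKp, Real.rpow_natCast]
        rw [h3] at h2
        exact (pow_le_pow_left₀ (by norm_num) hKg' m₁).trans h2
      calc (C₉ * (1 + D * Qm + Qm) ^ 4 / d' + 1) * EE μ s (T (f + m)) ≤
          (Ca * Qm ^ 4) * (2 * (b : ℝ) ^ (m - m₁) * EE μ s (T (f + m₁))) := mul_le_mul g3 g4 hEt.le (by positivity)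
        _ = Ca * Cq ^ 4 * 2 * (g₀ ^ 16) ^ m * (b : ℝ) ^ (m - m₁) * EE μ s (T (f + m₁)) := by rw [hQm4]; ring
        _ ≤ 8 ^ m₁ * EE μ s (T (f + m₁)) := mul_le_mul_of_nonneg_right N2 hE1.le
        _ ≤ _ := mul_le_mul_of_nonneg_right g5 hE1.le
    have h5 : (σ₄ + d') * (|lt μ s ((r f : ℤ), x') r f x| / wd μ s (T (f + m))) ≤
        (σ₄ + d') * (|lt μ s κ r f x| / wd μ s (T (f + m))) + 1 := by
      have g1 := mul_le_mul_of_nonneg_left h2 (show 0 ≤ σ₄ + d' by linarith only [hσ₄, hd0])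
      linarith only [g1, hsd]
    have h6 := mul_le_mul_of_nonneg_right h5 hEt.le
    linarith only [h3, h4, h6]
  -- the tower
  exact HT hCs hKb hYY hcY hq₀ hβ hβ2 hσ hσ1 hCn hBβ hρ hρR hRmR S hp hp' hΘ hΘ2 hm₁ (hL.sub le_rfl (by omega) l2)
    (hSt.sub le_rfl (by omega)) hBpB ((hr0 (f + m) (f + m + 1) (by omega) (by omega) le_rfl).trans hrN) hM hN
    (fun v h1 h2 => ⟨(Nat.mul_le_mul_right _ k3).trans (hT v h1 (by omega)).1, (hT v h1 (by omega)).2⟩)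
    (fun v h1 h2 => ⟨(Nat.mul_le_mul_right _ k3).trans (hTn v h1 h2).1, (hTn v h1 h2).2⟩) hTT
    (fun v h1 h2 => ⟨l2.trans (hbig v h1 h2).1, (hbig v h1 h2).2⟩) hrn
    ((Nat.mul_le_mul l2 (Nat.pow_le_pow_left k3 _)).trans hΔ) hq hnu hxc htop htop2 x x' hx'

end

end Pool.Agent.W_7d29a1_C1.U16
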