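import Pool.Agent.W_7d29a1_C1.D2P67
import Pool.Agent.W_7d29a1_C1.Sw70

/-!
MP_7d29a1_pr, [C1] attractor route, TAME: (D2) THROUGH A PIECE, THE SWITCH ROW ANYWHERE. (helper72)

`pcD2s72` = `pcD2_67` (helper67) without the condition on the switch row `M`: if `M` lies inside of the piece, it is moved to the bottom row
(`Sw70` of helper70), which costs `4 |h| D₀ ≤ 2` above and below (`D₀` = the number of rows of the piece, `|h| D₀ ≤ 1 / 2`).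
-/

set_option autoImplicit false

namespace Pool.Agent.W_7d29a1_C1.D2C67

open MeasureTheory ProbabilityTheory Filter Topology Finset
open Pool.Agent.W_7d29a1_F Pool.Agent.W_7d29a1_h4g Pool.Agent.W_7d29a1_H Pool.Agent.W_7d29a1_HS
open Pool.Agent.W_7d29a1_C1.H75 Pool.Agent.W_7d29a1_C1.U16 Pool.Agent.W_7d29a1_C1.FarK89 Pool.Agent.W_7d29a1_C1.FarW89
open Pool.Agent.W_7d29a1_C1.DD84 Pool.Agent.W_7d29a1_C1.SysN89 Pool.Agent.W_7d29a1_C1.LrN89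
open Pool.Agent.W_7d29a1_C1.H40 Pool.Agent.W_7d29a1_C1.S71 Pool.Agent.W_7d29a1_C1.Dep6
open Pool.Agent.W_7d29a1_C1.H94 (nu Cs94)
open Pool.Agent.W_7d29a1_C1.Swm70

noncomputable section

variable {μ : Measure ℝ} {s c C : ℝ} {n₀ : ℕ}

/-- The number of the conclusion. -/
theorem num72 {Q₀ σ₀ a β : ℝ} {j pw : ℕ} (hσ : 0 < σ₀) (hσ1 : σ₀ ≤ 1) (ha : 0 ≤ a) (hβ : 1 ≤ β) :
    Q₀ * ((1 + a) ^ 4 * β ^ j / σ₀) ^ pw + 2 ≤ (Q₀ + 2) * ((1 + a) ^ 4 * β ^ j / σ₀) ^ pw := by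
  have h1 : 1 ≤ (1 + a) ^ 4 * β ^ j / σ₀ := by
    rw [le_div_iff₀ hσ, one_mul]
    have h2 : 1 ≤ (1 + a) ^ 4 * β ^ j := one_le_mul_of_one_le_of_one_le (one_le_pow₀ (by linarith)) (one_le_pow₀ hβ)
    linarith
  have h3 : 1 ≤ ((1 + a) ^ 4 * β ^ j / σ₀) ^ pw := one_le_pow₀ h1
  rw [add_mul]
  linarith

/-- The old switch row against the new one, above: the constant grows by `2`. -/
theorem up72 {h : ℝ} {η : Env} {p : ℕ → ℝ} {D M M' N a : ℕ} {p' : ℕ → ℝ} (H : Sw70 s h D M M' p p') (s0 : 0 ≤ sl μ s) (s1 : sl μ s ≤ 1)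
    (hD : |h| * D ≤ 1 / 2) {Q X E : ℝ} (hE : 1 ≤ E) {x x' : ℤ}
    (hX : bh16 μ s h η p M N a x ≤ Real.exp ((Q + X) * E) * bh16 μ s h η p M N a x') :
    bh16 μ s h η p' M' N a x ≤ Real.exp ((Q + 2 + X) * E) * bh16 μ s h η p' M' N a x' := by
  refine (bh_rat70 H.symm s0 s1 hX).trans (mul_le_mul_of_nonneg_right (Real.exp_le_exp.2 ?_) (bh_nonneg70 H.pos' _ _ _))
  have e : (Q + 2 + X) * E = (Q + X) * E + 2 * E := by ring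
  rw [e]
  linarith

/-- **(D2) THROUGH A PIECE, THE SWITCH ROW ANYWHERE.** -/
theorem pcD2s72 [IsProbabilityMeasure μ] (h0 : In μ s c C n₀) : ∃ pw : ℕ, ∀ {θn : ℝ}, 0 < θn → ∀ K0 : ℕ, ∃ K₂ : ℕ, 16 ≤ K₂ ∧
    ∀ b : ℕ, ∃ g₀ Lm₀ : ℝ, 1 < g₀ ∧ g₀ ^ 2 ≤ 2 ∧ 1 ≤ Lm₀ ∧ ∀ K₁ : ℝ, 1 ≤ K₁ → ∃ Rm : ℝ, ∀ (P : ℕ) {θ K B₂ : ℝ}, 0 < θ → 10 ≤ K →
    2 ≤ B₂ → 32 * θ * (b : ℝ) ^ 2 ≤ 1 → ∀ Y Bp δ : ℝ, 8 ≤ Y → 2 ≤ Bp → 0 < δ → δ ≤ θ * sl μ s → δ ≤ θ * (1 - sl μ s) →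
    ∃ (Q₀ : ℝ) (n₁ : ℕ), 1 ≤ Q₀ ∧ 1 ≤ n₁ ∧ ∀ {x : ℝ} {ρ' : ℕ}, 1 < x → 1 ≤ ρ' → ∃ Cx : ℝ, 1 ≤ Cx ∧
    ∀ {σ₀ Q₄ : ℝ}, 0 < σ₀ → σ₀ ≤ 1 → 0 ≤ Q₄ → ∃ m₀ : ℕ, 4 ≤ m₀ ∧
    ∀ {c₀ δ₁ c₁ A₉ aa g₉ Y₁ : ℝ} {Kb n₃ : ℕ}, Cs94 μ s c₀ δ₁ c₁ A₉ aa g₉ θn Y₁ K0 Kb n₃ → 64 * b ≤ Kb → 8 * Y₁ ≤ Y → 64 ≤ c₁ * Y →
    ∀ {q₀ th β : ℝ} {Cn R : ℕ}, 0 ≤ q₀ → 1 ≤ th → (th * x) ^ 2 ≤ 2 → 1 ≤ β → β ≤ 2 → 1 ≤ Cn → B₂ ≤ β ^ Cn → ρ' ^ Cn ≤ R → Rm ≤ R →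
    ∀ {h : ℝ} {η : Env} {p : ℕ → ℝ} {M Nt : ℕ}, (∀ k, k < M → p k = Real.exp (s + h)) → (∀ k, M ≤ k → p k = Real.exp s) →
    ∀ {σ Λ : Type*} {G : Geo σ Λ} {lat : σ → ℝ} {latC : Cut Λ → ℝ} {Z : List (Cut Λ)} {ρ : σ} {u : ℕ} {cs : ℕ → Cut Λ} {i₀ f m D : ℕ}
      {A a g A' a' g' B₁ θs Lm es : ℝ} {n₁s : ℕ} {F : Cut Λ → Cut Λ → ℝ → Set Env} {E : Cut Λ → Cut Λ → Set Env}
      {E3 : Cut Λ → Cut Λ → Cut Λ → Set Env} {X : Cut Λ → Cut Λ → Cut Λ → Env → ℕ} {κ : Pt},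
      G.K = b → K₂ ≤ G.K → LvF μ A a g F →
      LvF μ A' a' g' (stF6 μ s B₁ B₂ δ θs Lm n₁s (fun a b => hs67 G (lb6 a b)) (fun a => wg67 μ s G a.sc) (ceC6 latC (sl μ s)) es) →
      (∀ a b q, F a b q ⊆ lvS μ s c θ (K + 2) P (fun a b => hs67 G (lb6 a b)) (colC6 latC (sl μ s)) a b q) →
      (∀ a b e η, dpX6 μ s c₀ δ₁ θn Y Kb n₃ R (wN6 μ s (tN6 G)) (qN6 μ s (tN6 G)) (fun _ b _ => colC6 latC (sl μ s) b) a b e η ≤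
        X a b e η) →
      Ok6 ∅ (dLI6 F (stF6 μ s B₁ B₂ δ θs Lm n₁s (fun a b => hs67 G (lb6 a b)) (fun a => wg67 μ s G a.sc) (ceC6 latC (sl μ s)) es) E q₀ th D)
        (dNI6 X Cn F E3 q₀ th D) lb6 lbN6 Z u η →
      (∀ i, i + 1 < Z.length → ∃ P Q, Z = P ++ cs i :: cs (i + 1) :: Q) →
      (∀ i, i + 2 < Z.length → ∃ P Q, Z = P ++ cs i :: cs (i + 1) :: cs (i + 2) :: Q) →
      Pc6 G ρ cs i₀ f (m + 1) Z.length → 0 ≤ G.row ρ → u ≤ f → f + m + 1 < u + D → m₀ ≤ m →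
      (κ.2 : ℝ) - sl μ s * (κ.1 : ℝ) = lat ρ →
      (∀ k, k ≤ m + 1 → |latC (cs (i₀ + k)) - lat ρ| ≤ (ρ' : ℝ) ^ (f + k - u) * wd μ s (G.T (f + k))) →
      -- sizes
      n₁ ≤ G.T0 → 16 * n₃ ≤ G.T0 → n₁s ≤ G.T0 → (∀ v, (Nt : ℝ) + 1 ≤ Real.exp (EE μ s (4 * G.T v))) →
      (∀ v, f < v → v ≤ f + m + 1 → |h| * wd μ s (hs67 G v) ≤ c / 8 * EE μ s (hs67 G v)) →
      ((cs (i₀ + (m + 1))).row ≤ Nt) → ∀ {D₀ : ℕ}, (cs (i₀ + m)).row ≤ (cs i₀).row + D₀ → |h| * D₀ ≤ 1 / 2 →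
      -- the steep levels
      2 * Bp ≤ B₁ → 32 * θs * (b : ℝ) ^ 2 ≤ 1 → Lm₀ ≤ Lm → 0 ≤ es → es ≤ 1 → (ρ' : ℝ) ^ es ≤ x →
      -- the levels, (D2) above
      1 + 3 * q₀ * Cx * (th * x) ^ (f + m + 1 - u) ≤ Q₄ * g₀ ^ m →
      ∀ {Qd σ₄ : ℝ} {y₀ : ℤ}, |lat16 μ s κ ((cs (i₀ + (m + 1))).row, y₀)| ≤ (K - 6) / 2 * wd μ s (hs67 G (f + m + 1)) - 1 → 0 ≤ σ₄ →
      σ₄ ≤ c / 64 → Qd + 2 ≤ Q₄ * g₀ ^ m →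
      (∀ y : ℤ, bh16 μ s h η p M Nt (cs (i₀ + (m + 1))).row.toNat y ≤
        Real.exp ((Qd + σ₄ * (|lat16 μ s κ ((cs (i₀ + (m + 1))).row, y)| / wd μ s (hs67 G (f + m + 1)))) * EE μ s (hs67 G (f + m + 1))) *
          bh16 μ s h η p M Nt (cs (i₀ + (m + 1))).row.toNat y₀) →
      ∀ y y' : ℤ, |lat16 μ s κ ((cs i₀).row, y')| ≤ K₁ * wd μ s (hs67 G (f + 1)) →
        bh16 μ s h η p M Nt (cs i₀).row.toNat y ≤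
          Real.exp ((Q₀ * ((1 + 3 * q₀ * Cx * (th * x) ^ (f + 1 - u)) ^ 4 * β ^ (f - u) / σ₀) ^ pw +
            σ₀ * (|lat16 μ s κ ((cs i₀).row, y)| / wd μ s (hs67 G (f + 1)))) * EE μ s (hs67 G (f + 1))) *
            bh16 μ s h η p M Nt (cs i₀).row.toNat y' := by
  obtain ⟨pw, H⟩ := pcD2_67 h0
  refine ⟨pw, fun {θn} hθn K0 => ?_⟩
  obtain ⟨K₂, hK₂, H⟩ := H hθn K0
  refine ⟨K₂, hK₂, fun b => ?_⟩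
  obtain ⟨g₀, Lm₀, hg₀, hg₀2, hLm₀, H⟩ := H b
  refine ⟨g₀, Lm₀, hg₀, hg₀2, hLm₀, fun K₁ hK₁ => ?_⟩
  obtain ⟨Rm, H⟩ := H K₁ hK₁
  refine ⟨Rm, fun P {θ K B₂} hθ hK hB₂ hθb Y Bp δ hY hBp hδ hδ1 hδ2 => ?_⟩
  obtain ⟨Q₀, n₁, hQ₀, hn₁, H⟩ := H P hθ hK hB₂ hθb Y Bp δ hY hBp hδ hδ1 hδ2
  refine ⟨Q₀ + 2, n₁, by linarith, hn₁, fun {x ρ'} hx hρ' => ?_⟩
  obtain ⟨Cx, hCx, H⟩ := H hx hρ'
  refine ⟨Cx, hCx, fun {σ₀ Q₄} hσ hσ1 hQ₄ => ?_⟩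
  obtain ⟨m₀, hm₀, H⟩ := H hσ hσ1 hQ₄
  refine ⟨m₀, hm₀, ?_⟩
  intro c₀ δ₁ c₁ A₉ aa g₉ Y₁ Kb n₃ hC hKb hYY hcY q₀ th β Cn R hq₀ hth hthx hβ hβ2 hCn hBβ hρR hRm h η p M Nt hp hp'
    σ Λ G lat latC Z ρ u cs i₀ f m D A a g A' a' g' B₁ θs Lm es n₁s F E E3 X κ hGb hKG hF hF' hFs hX ho hpr htr hP hρ huf hfD hm hκ hlat
    hT1 hT3 hT4 hNt hforce hrN D₀ hD₀ hhD hBp1 hθs hLm hes hes1 hRe hq4 Qd σ₄ y₀ hy₀ hσ₄ hσ₄c hQd hD2 y y' hy'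
  have hnum : Q₀ * ((1 + 3 * q₀ * Cx * (th * x) ^ (f + 1 - u)) ^ 4 * β ^ (f - u) / σ₀) ^ pw + 2 ≤
      (Q₀ + 2) * ((1 + 3 * q₀ * Cx * (th * x) ^ (f + 1 - u)) ^ 4 * β ^ (f - u) / σ₀) ^ pw :=
    num72 hσ hσ1 (by positivity) hβ
  have hE1 : 1 ≤ EE μ s (hs67 G (f + 1)) := one_le_EE _
  have hE0 : 0 ≤ EE μ s (hs67 G (f + 1)) := by linarith
  by_cases hM : (M : ℤ) ≤ (cs i₀).row ∨ (cs (i₀ + m)).row ≤ M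
  · refine (H hC hKb hYY hcY hq₀ hth hthx hβ hβ2 hCn hBβ hρR hRm hp hp' hGb hKG hF hF' hFs hX ho hpr htr hP hρ huf hfD hm hκ hlat
      hT1 hT3 hT4 hNt hforce hrN hM hBp1 hθs hLm hes hes1 hRe hq4 hy₀ hσ₄ hσ₄c (by linarith) hD2 y y' hy').trans ?_
    refine mul_le_mul_of_nonneg_right (Real.exp_le_exp.2 (mul_le_mul_of_nonneg_right ?_ hE0)) (bh_nonneg70 (fun k => ?_) _ _ _)
    · linarith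
    · rcases lt_or_ge k M with h1 | h1
      · rw [hp k h1]
        exact Real.exp_pos _
      · rw [hp' k h1]
        exact Real.exp_pos _
  · rw [not_or, not_le, not_le] at hM
    have hr0 : 0 ≤ (cs i₀).row := by
      have := hP.row_nonneg6 hρ (k := 0) (by omega)
      simpa using this
    have e0 : (((cs i₀).row.toNat : ℕ) : ℤ) = (cs i₀).row := Int.toNat_of_nonneg hr0
    have hS : Sw70 s h D₀ M (cs i₀).row.toNat p (pr70 s h (cs i₀).row.toNat) := mk70 hp hp' _ (by omega) (by omega)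
    have s0 := h0.sl_pos.le
    have s1 := h0.sl_lt.le
    have h1 := H hC hKb hYY hcY hq₀ hth hthx hβ hβ2 hCn hBβ hρR hRm hS.q1 hS.q2 hGb hKG hF hF' hFs hX ho hpr htr hP hρ huf hfD hm hκ hlat
      hT1 hT3 hT4 hNt hforce hrN (Or.inl e0.le) hBp1 hθs hLm hes hes1 hRe hq4 hy₀ hσ₄ hσ₄c hQd
      (fun y => up72 hS s0 s1 hhD (one_le_EE _) (hD2 y)) y y' hy'
    refine (bh_rat70 hS s0 s1 h1).trans (mul_le_mul_of_nonneg_right (Real.exp_le_exp.2 ?_) (bh_nonneg70 hS.pos _ _ _))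
    have h2 := mul_le_mul_of_nonneg_right hnum hE0
    rw [add_mul] at h2
    rw [add_mul, add_mul]
    linarith

end

end Pool.Agent.W_7d29a1_C1.D2C67
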