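import Pool.Agent.W_7d29a1_C1.HpE39

/-!
MP_7d29a1_pr, [C1] attractor route, TAME: THE NUMBERS OF THE LEAF D2 IN THE MODEL. (helper96)

`evn_M4` : the number of scales of a long piece is large. **`evn_pow96`** : `n ^ e₁ + X ≤ Q₄ g₀ ^ m` for every long piece, with
`e₁ ≤ kap log g₀ / (8 ke)`.
-/

set_option autoImplicit false

namespace Pool.Agent.W_7d29a1_C1.DW96

open MeasureTheory Finset Filter
open Pool.Agent.W_7d29a1_F Pool.Agent.W_7d29a1_h4g Pool.Agent.W_7d29a1_H Pool.Agent.W_7d29a1_HS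
open Pool.Agent.W_7d29a1_C1.H60
open Pool.Agent.W_7d29a1_C1.G37 (Gm Wok gmW)
open Pool.Agent.W_7d29a1_C1.Q49
open Pool.Agent.W_7d29a1_C1.Hp39

noncomputable section

variable {P : Pre} {Dd : Dat} {μ : Measure ℝ} {s : ℝ}

/-- **The number of scales of a long piece is large.** -/
theorem evn_M4 (ke m₀ : ℕ) (hke : 1 ≤ ke) : Evn P Dd μ s fun _ _ _ _ _ _ G _ _ _ => m₀ ≤ G.M / (4 * ke) := by
  refine (evn_M fun _ _ _ _ _ _ _ => m₀ * (4 * ke)).mono fun q η A lam n Γ G mt τ0 E h => ?_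
  exact (Nat.le_div_iff_mul_le (by omega)).2 h

/-- The numbers of a long piece. -/
theorem pow_num96 {kap g₀ Q₄ X e₁ : ℝ} {ke j : ℕ} (hkap : 0 < kap) (hg : 1 < g₀) (hQ : 0 < Q₄) (hke : 1 ≤ ke)
    (he : e₁ ≤ kap * Real.log g₀ / (8 * ke)) : ∃ n₁ : ℕ, ∀ n : ℕ, n₁ ≤ n → ∀ M : ℕ, kap * Real.log n ≤ M →
      ∀ m : ℕ, M / (4 * ke) ≤ m + j → (n : ℝ) ^ e₁ + X ≤ Q₄ * g₀ ^ m := by
  have hl : 0 < Real.log g₀ := Real.log_pos hg
  have hke0 : (0 : ℝ) < ke := by exact_mod_cast hke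
  obtain ⟨e', he'⟩ : ∃ e' : ℝ, e' = kap * Real.log g₀ / (8 * ke) := ⟨_, rfl⟩
  have he0 : 0 < e' := by rw [he']; positivity
  have hg0 : 0 < g₀ := by linarith
  obtain ⟨n₁, hn₁⟩ := eventually_atTop.1 (((tendsto_rpow_atTop he0).comp tendsto_natCast_atTop_atTop).eventually_ge_atTop
    ((1 + |X|) * g₀ ^ (1 + j) / Q₄))
  refine ⟨max n₁ 1, fun n hn M hM m hm => ?_⟩
  have hn1 : 1 ≤ n := (le_max_right _ _).trans hn
  have hnR : (1 : ℝ) ≤ n := by exact_mod_cast hn1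
  have hn0 : (0 : ℝ) < n := by linarith
  have h1 : (1 + |X|) * g₀ ^ (1 + j) / Q₄ ≤ (n : ℝ) ^ e' := hn₁ n ((le_max_left _ _).trans hn)
  have h2 : (M : ℝ) / (4 * ke) ≤ m + j + 1 := by
    have a1 := Nat.lt_div_mul_add (a := M) (b := 4 * ke) (by omega)
    have a2 : M < (m + j) * (4 * ke) + 4 * ke := lt_of_lt_of_le a1 (Nat.add_le_add_right (Nat.mul_le_mul_right _ hm) _)
    have a3 : (M : ℝ) ≤ (m + j) * (4 * ke) + 4 * ke := by exact_mod_cast a2.le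
    rw [div_le_iff₀ (by positivity)]
    linarith
  have h3 : kap * Real.log n / (4 * ke) ≤ m + j + 1 := le_trans (div_le_div_of_nonneg_right hM (by positivity)) h2
  have h4 : (n : ℝ) ^ (e' + e') ≤ g₀ ^ (m + (1 + j)) := by
    rw [← Real.rpow_natCast g₀, Real.rpow_def_of_pos hn0, Real.rpow_def_of_pos hg0]
    refine Real.exp_le_exp.2 ?_
    have a1 : Real.log n * (e' + e') = kap * Real.log n / (4 * ke) * Real.log g₀ := by
      rw [he']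
      field_simp
      ring
    rw [a1]
    have a2 := mul_le_mul_of_nonneg_right h3 hl.le
    push_cast
    linarith
  have h5 : (n : ℝ) ^ e₁ ≤ (n : ℝ) ^ e' := Real.rpow_le_rpow_of_exponent_le hnR (by rw [he']; exact he)
  have h6 : (1 : ℝ) ≤ (n : ℝ) ^ e' := Real.one_le_rpow hnR he0.le
  have h7 : (n : ℝ) ^ e₁ + X ≤ (1 + |X|) * (n : ℝ) ^ e' := by
    have a1 := le_abs_self X
    have a2 := mul_le_mul_of_nonneg_left h6 (abs_nonneg X)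
    linarith
  refine h7.trans ?_
  have h8 : (1 + |X|) * g₀ ^ (1 + j) ≤ (n : ℝ) ^ e' * Q₄ := by rwa [div_le_iff₀ hQ] at h1
  have hgj : 0 < g₀ ^ (1 + j) := pow_pos hg0 _
  have h9 : (1 + |X|) * (n : ℝ) ^ e' * g₀ ^ (1 + j) ≤ Q₄ * g₀ ^ m * g₀ ^ (1 + j) := by
    calc (1 + |X|) * (n : ℝ) ^ e' * g₀ ^ (1 + j) = (1 + |X|) * g₀ ^ (1 + j) * (n : ℝ) ^ e' := by ring
      _ ≤ (n : ℝ) ^ e' * Q₄ * (n : ℝ) ^ e' := mul_le_mul_of_nonneg_right h8 (by positivity)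
      _ = Q₄ * (n : ℝ) ^ (e' + e') := by rw [Real.rpow_add hn0]; ring
      _ ≤ Q₄ * g₀ ^ (m + (1 + j)) := mul_le_mul_of_nonneg_left h4 hQ.le
      _ = Q₄ * g₀ ^ m * g₀ ^ (1 + j) := by rw [pow_add]; ring
  exact le_of_mul_le_mul_right h9 hgj

/-- **THE NUMBERS OF A LONG PIECE**, eventually. -/
theorem evn_pow96 {g₀ Q₄ X e₁ : ℝ} {ke j : ℕ} (hg : 1 < g₀) (hQ : 0 < Q₄) (hke : 1 ≤ ke) (he : e₁ ≤ Dd.kap * Real.log g₀ / (8 * ke)) :
    Evn P Dd μ s fun _ _ _ _ n _ G _ _ _ => ∀ m : ℕ, G.M / (4 * ke) ≤ m + j → (n : ℝ) ^ e₁ + X ≤ Q₄ * g₀ ^ m := by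
  obtain ⟨n₁, H⟩ := pow_num96 (X := X) (j := j) Dd.hkap hg hQ hke he
  exact ((evn_log (P := P) (Dd := Dd) (μ := μ) (s := s)).and (evn_n fun _ _ _ _ _ _ _ => n₁)).mono
    fun q η A lam n Γ G mt τ0 E h => H n h.2 G.M h.1

end

end Pool.Agent.W_7d29a1_C1.DW96
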