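import Mathlib.Analysis.SpecialFunctions.Log.Basic
import Mathlib.Algebra.Order.BigOperators.Ring.Finset
import Mathlib.Data.Int.Interval
import Mathlib.Tactic.FieldSimp
import Mathlib.Tactic.Positivity

/-!
[C1] attractor route, DD84 (helper84): the regularity (D1), (D2) of the mass `F` of a row from the arms and the levels of one slab. Abstract
form: `F x = ∑ z ∈ S x, k x z * G z`, where `k` is the (normalised) kernel between the row of `F` and the row of `G`. It serves the future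
mass (`bw`) and the past mass (`fw`) alike.

* `dd_arms`: the arms of the places `X` pass the window `Z`, the kernel is at most `exp a` from `X` to `Z` and at least `exp (- a')` from
  `X'` to `Z`: then `F x ≤ P exp (a + a') F x'`, `x ∈ X`, `x' ∈ X'`.
* `dd_scales`: the comparison with the unit of the scale of the place gives (D2) with any slope `κ`.
* `dd_tail`: (D2) at the outer row, and the linear decay of the kernel: the displacement has a tail.
-/

set_option autoImplicit false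

namespace Pool.Agent.W_7d29a1_C1.DD84

open Finset

/-- (D1): in the window of half width `r` the masses are comparable. -/
def D1 (F : ℤ → ℝ) (x₀ r A : ℝ) : Prop :=
  ∀ x x' : ℤ, |(x : ℝ) - x₀| ≤ r → |(x' : ℝ) - x₀| ≤ r → F x ≤ Real.exp A * F x'

/-- (D2): the envelope with the slope `σ` against the sites of the window of half width `r`. -/
def D2 (F : ℤ → ℝ) (x₀ r A σ : ℝ) : Prop :=
  ∀ x x' : ℤ, |(x' : ℝ) - x₀| ≤ r → F x ≤ Real.exp (A + σ * |(x : ℝ) - x₀|) * F x'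

theorem D2.toD1 {F : ℤ → ℝ} {x₀ r A σ : ℝ} (h : D2 F x₀ r A σ) (hF : ∀ x, 0 ≤ F x) (hσ : 0 ≤ σ) : D1 F x₀ r (A + σ * r) :=
  fun x x' hx hx' => (h x x' hx').trans (mul_le_mul_of_nonneg_right (Real.exp_le_exp.2 (by
    have := mul_le_mul_of_nonneg_left hx hσ
    linarith)) (hF x'))

theorem D2.mono {F : ℤ → ℝ} {x₀ r A σ r' A' σ' : ℝ} (h : D2 F x₀ r A σ) (hF : ∀ x, 0 ≤ F x) (hr : r' ≤ r) (hA : A ≤ A')
    (hσ : σ ≤ σ') : D2 F x₀ r' A' σ' :=
  fun x x' hx' => (h x x' (hx'.trans hr)).trans (mul_le_mul_of_nonneg_right (Real.exp_le_exp.2 (by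
    have := mul_le_mul_of_nonneg_right hσ (abs_nonneg ((x : ℝ) - x₀))
    linarith)) (hF x'))

section Slab

variable {F G : ℤ → ℝ} {k : ℤ → ℤ → ℝ} {S : ℤ → Finset ℤ}

/-- **The arms and the levels.** -/
theorem dd_arms (hk : ∀ x z, 0 ≤ k x z) (hG : ∀ z, 0 ≤ G z) (hF : ∀ x, F x = ∑ z ∈ S x, k x z * G z) {X X' : ℤ → Prop}
    {Z : Finset ℤ} {P a a' : ℝ} (hP : 0 ≤ P) (harm : ∀ x, X x → F x ≤ P * ∑ z ∈ Z, k x z * G z)
    (hup : ∀ x, X x → ∀ z ∈ Z, k x z ≤ Real.exp a) (hZ : ∀ x', X' x' → Z ⊆ S x')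
    (hlow : ∀ x', X' x' → ∀ z ∈ Z, Real.exp (-a') ≤ k x' z) (x x' : ℤ) (hx : X x) (hx' : X' x') :
    F x ≤ P * Real.exp (a + a') * F x' := by
  have h1 : ∑ z ∈ Z, k x z * G z ≤ Real.exp a * ∑ z ∈ Z, G z := by
    rw [mul_sum]
    exact sum_le_sum fun z hz => mul_le_mul_of_nonneg_right (hup x hx z hz) (hG z)
  have h2 : Real.exp (-a') * ∑ z ∈ Z, G z ≤ F x' := by
    rw [hF x', mul_sum]
    exact (sum_le_sum fun z hz => mul_le_mul_of_nonneg_right (hlow x' hx' z hz) (hG z)).trans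
      (sum_le_sum_of_subset_of_nonneg (hZ x' hx') fun z _ _ => mul_nonneg (hk _ _) (hG z))
  have h3 : ∑ z ∈ Z, G z ≤ Real.exp a' * F x' := by
    have h4 := mul_le_mul_of_nonneg_left h2 (Real.exp_pos a').le
    rw [← mul_assoc, ← Real.exp_add, add_neg_cancel, Real.exp_zero, one_mul] at h4
    exact h4
  calc F x ≤ P * ∑ z ∈ Z, k x z * G z := harm x hx
    _ ≤ P * (Real.exp a * ∑ z ∈ Z, G z) := mul_le_mul_of_nonneg_left h1 hP
    _ ≤ P * (Real.exp a * (Real.exp a' * F x')) :=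
      mul_le_mul_of_nonneg_left (mul_le_mul_of_nonneg_left h3 (Real.exp_pos a).le) hP
    _ = P * Real.exp (a + a') * F x' := by rw [Real.exp_add]; ring

/-- The arms of one place only (the contact), with its own kernel: the masses of the window are comparable. -/
theorem dd_contact (hk : ∀ x z, 0 ≤ k x z) (hG : ∀ z, 0 ≤ G z) (hF : ∀ x, F x = ∑ z ∈ S x, k x z * G z) {g : ℤ → ℝ} {Y Z : Finset ℤ}
    {P M a' b b' : ℝ} (hP : 0 ≤ P) (hM : ∀ y ∈ Y, g y * F y ≤ M) (harm : M ≤ P * (Real.exp b' * ∑ z ∈ Z, G z))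
    (hg : ∀ y ∈ Y, Real.exp (-b) ≤ g y) (hZ : ∀ y ∈ Y, Z ⊆ S y) (hlow : ∀ y ∈ Y, ∀ z ∈ Z, Real.exp (-a') ≤ k y z)
    (hF0 : ∀ y, 0 ≤ F y) (y y' : ℤ) (hy : y ∈ Y) (hy' : y' ∈ Y) : F y ≤ P * Real.exp (b + b' + a') * F y' := by
  have h2 : Real.exp (-a') * ∑ z ∈ Z, G z ≤ F y' := by
    rw [hF y', mul_sum]
    exact (sum_le_sum fun z hz => mul_le_mul_of_nonneg_right (hlow y' hy' z hz) (hG z)).trans
      (sum_le_sum_of_subset_of_nonneg (hZ y' hy') fun z _ _ => mul_nonneg (hk _ _) (hG z))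
  have h3 : ∑ z ∈ Z, G z ≤ Real.exp a' * F y' := by
    have h4 := mul_le_mul_of_nonneg_left h2 (Real.exp_pos a').le
    rw [← mul_assoc, ← Real.exp_add, add_neg_cancel, Real.exp_zero, one_mul] at h4
    exact h4
  have h5 : F y ≤ Real.exp b * M := by
    have h6 : Real.exp (-b) * F y ≤ M := (mul_le_mul_of_nonneg_right (hg y hy) (hF0 y)).trans (hM y hy)
    have h7 := mul_le_mul_of_nonneg_left h6 (Real.exp_pos b).le
    rw [← mul_assoc, ← Real.exp_add, add_neg_cancel, Real.exp_zero, one_mul] at h7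
    exact h7
  calc F y ≤ Real.exp b * M := h5
    _ ≤ Real.exp b * (P * (Real.exp b' * ∑ z ∈ Z, G z)) := mul_le_mul_of_nonneg_left harm (Real.exp_pos b).le
    _ ≤ Real.exp b * (P * (Real.exp b' * (Real.exp a' * F y'))) :=
      mul_le_mul_of_nonneg_left (mul_le_mul_of_nonneg_left (mul_le_mul_of_nonneg_left h3 (Real.exp_pos b').le) hP) (Real.exp_pos b).le
    _ = P * Real.exp (b + b' + a') * F y' := by rw [Real.exp_add, Real.exp_add]; ring

/-- **The tail of the displacement** from (D2) at the outer row and the linear decay of the kernel: `k x z ≤ exp (a - λ |z - x - v|)`.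
`N` bounds the number of the sites. -/
theorem dd_tail (hk : ∀ x z, 0 ≤ k x z) (hG : ∀ z, 0 ≤ G z) (hF : ∀ x, F x = ∑ z ∈ S x, k x z * G z) {z₀ r A σ a a' lam v N : ℝ}
    (hD : D2 G z₀ r A σ) (x : ℤ) {y : ℤ} (hy : |(y : ℝ) - z₀| ≤ r) (hyS : y ∈ S x) (hlow : Real.exp (-a') ≤ k x y)
    (hup : ∀ z ∈ S x, k x z ≤ Real.exp (a - lam * |(z : ℝ) - x - v|)) (hσ : 0 ≤ σ) (hσl : σ ≤ lam) (hN : ((S x).card : ℝ) ≤ Real.exp N)
    {d : ℝ} (T : Finset ℤ) (hT : T ⊆ S x) (hTd : ∀ z ∈ T, d ≤ |(z : ℝ) - x - v|) :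
    ∑ z ∈ T, k x z * G z ≤ Real.exp (N + a + a' + A + σ * |(x : ℝ) + v - z₀| - (lam - σ) * d) * F x := by
  have h1 : Real.exp (-a') * G y ≤ F x := by
    rw [hF x]
    exact (mul_le_mul_of_nonneg_right hlow (hG y)).trans
      (single_le_sum (f := fun z => k x z * G z) (fun z _ => mul_nonneg (hk _ _) (hG z)) hyS)
  have h2 : G y ≤ Real.exp a' * F x := by
    have h4 := mul_le_mul_of_nonneg_left h1 (Real.exp_pos a').le
    rw [← mul_assoc, ← Real.exp_add, add_neg_cancel, Real.exp_zero, one_mul] at h4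
    exact h4
  have hGy := hG y
  have h3 : ∀ z ∈ T, k x z * G z ≤ Real.exp (a + A + σ * |(x : ℝ) + v - z₀| - (lam - σ) * d) * G y := by
    intro z hz
    have h4 := hup z (hT hz)
    have h5 := hD z y hy
    have h6 : |(z : ℝ) - z₀| ≤ |(z : ℝ) - x - v| + |(x : ℝ) + v - z₀| := by
      have := abs_add_le ((z : ℝ) - x - v) ((x : ℝ) + v - z₀)
      rw [show (z : ℝ) - x - v + ((x : ℝ) + v - z₀) = z - z₀ by ring] at this
      exact this
    have h7 := hTd z hz
    calc k x z * G z ≤ Real.exp (a - lam * |(z : ℝ) - x - v|) * (Real.exp (A + σ * |(z : ℝ) - z₀|) * G y) :=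
          mul_le_mul h4 h5 (hG z) (Real.exp_pos _).le
      _ = Real.exp ((a - lam * |(z : ℝ) - x - v|) + (A + σ * |(z : ℝ) - z₀|)) * G y := by rw [← mul_assoc, ← Real.exp_add]
      _ ≤ Real.exp (a + A + σ * |(x : ℝ) + v - z₀| - (lam - σ) * d) * G y := by
        refine mul_le_mul_of_nonneg_right (Real.exp_le_exp.2 ?_) hGy
        have h8 := mul_le_mul_of_nonneg_left h6 hσ
        have h9 := mul_le_mul_of_nonneg_left h7 (show 0 ≤ lam - σ by linarith)
        linarith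
  have h4 : (T.card : ℝ) ≤ Real.exp N := le_trans (by exact_mod_cast card_le_card hT) hN
  have h5 := sum_le_card_nsmul T _ _ h3
  rw [nsmul_eq_mul] at h5
  refine h5.trans ?_
  calc (T.card : ℝ) * (Real.exp (a + A + σ * |(x : ℝ) + v - z₀| - (lam - σ) * d) * G y)
      ≤ Real.exp N * (Real.exp (a + A + σ * |(x : ℝ) + v - z₀| - (lam - σ) * d) * (Real.exp a' * F x)) :=
        mul_le_mul h4 (mul_le_mul_of_nonneg_left h2 (Real.exp_pos _).le) (by positivity) (Real.exp_pos _).le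
    _ = Real.exp (N + a + a' + A + σ * |(x : ℝ) + v - z₀| - (lam - σ) * d) * F x := by
      have e : Real.exp (N + a + a' + A + σ * |(x : ℝ) + v - z₀| - (lam - σ) * d) =
          Real.exp N * (Real.exp (a + A + σ * |(x : ℝ) + v - z₀| - (lam - σ) * d) * Real.exp a') := by
        rw [← Real.exp_add, ← Real.exp_add]
        congr 1
        ring
      rw [e]
      ring

/-- The envelope of the inner row from the envelope of the outer row (no arms): the constant grows by the levels. -/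
theorem dd_push (hk : ∀ x z, 0 ≤ k x z) (hG : ∀ z, 0 ≤ G z) (hF : ∀ x, F x = ∑ z ∈ S x, k x z * G z) {z₀ r r' A σ a a' lam v N : ℝ}
    (hD : D2 G z₀ r A σ) {y : ℤ} (hy : |(y : ℝ) - z₀| ≤ r) (hyS : ∀ x' : ℤ, |(x' : ℝ) + v - z₀| ≤ r' → y ∈ S x')
    (hlow : ∀ x' : ℤ, |(x' : ℝ) + v - z₀| ≤ r' → Real.exp (-a') ≤ k x' y)
    (hup : ∀ x, ∀ z ∈ S x, k x z ≤ Real.exp (a - lam * |(z : ℝ) - x - v|)) (hσ : 0 ≤ σ) (hσl : σ ≤ lam)
    (hN : ∀ x, ((S x).card : ℝ) ≤ Real.exp N) : D2 F (z₀ - v) r' (N + a + a' + A) σ := by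
  intro x x' hx'
  have hx2 : |(x' : ℝ) + v - z₀| ≤ r' := by
    rwa [show (x' : ℝ) - (z₀ - v) = x' + v - z₀ by ring] at hx'
  have h1 : Real.exp (-a') * G y ≤ F x' := by
    rw [hF x']
    exact (mul_le_mul_of_nonneg_right (hlow x' hx2) (hG y)).trans
      (single_le_sum (f := fun z => k x' z * G z) (fun z _ => mul_nonneg (hk _ _) (hG z)) (hyS x' hx2))
  have h2 : G y ≤ Real.exp a' * F x' := by
    have h4 := mul_le_mul_of_nonneg_left h1 (Real.exp_pos a').le
    rw [← mul_assoc, ← Real.exp_add, add_neg_cancel, Real.exp_zero, one_mul] at h4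
    exact h4
  have hGy := hG y
  have h3 : ∀ z ∈ S x, k x z * G z ≤ Real.exp (a + A + σ * |(x : ℝ) - (z₀ - v)|) * G y := by
    intro z hz
    have h4 := hup x z hz
    have h5 := hD z y hy
    have h6 : |(z : ℝ) - z₀| ≤ |(z : ℝ) - x - v| + |(x : ℝ) - (z₀ - v)| := by
      have := abs_add_le ((z : ℝ) - x - v) ((x : ℝ) - (z₀ - v))
      rw [show (z : ℝ) - x - v + ((x : ℝ) - (z₀ - v)) = z - z₀ by ring] at this
      exact this
    calc k x z * G z ≤ Real.exp (a - lam * |(z : ℝ) - x - v|) * (Real.exp (A + σ * |(z : ℝ) - z₀|) * G y) :=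
          mul_le_mul h4 h5 (hG z) (Real.exp_pos _).le
      _ = Real.exp ((a - lam * |(z : ℝ) - x - v|) + (A + σ * |(z : ℝ) - z₀|)) * G y := by rw [← mul_assoc, ← Real.exp_add]
      _ ≤ Real.exp (a + A + σ * |(x : ℝ) - (z₀ - v)|) * G y := by
        refine mul_le_mul_of_nonneg_right (Real.exp_le_exp.2 ?_) hGy
        have h8 := mul_le_mul_of_nonneg_left h6 hσ
        have h9 := mul_nonneg (show 0 ≤ lam - σ by linarith) (abs_nonneg ((z : ℝ) - x - v))
        linarith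
  have h5 := sum_le_card_nsmul (S x) _ _ h3
  rw [nsmul_eq_mul] at h5
  rw [hF x]
  refine h5.trans ?_
  calc ((S x).card : ℝ) * (Real.exp (a + A + σ * |(x : ℝ) - (z₀ - v)|) * G y)
      ≤ Real.exp N * (Real.exp (a + A + σ * |(x : ℝ) - (z₀ - v)|) * (Real.exp a' * F x')) :=
        mul_le_mul (hN x) (mul_le_mul_of_nonneg_left h2 (Real.exp_pos _).le) (by positivity) (Real.exp_pos _).le
    _ = Real.exp (N + a + a' + A + σ * |(x : ℝ) - (z₀ - v)|) * F x' := by
      have e : Real.exp (N + a + a' + A + σ * |(x : ℝ) - (z₀ - v)|) =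
          Real.exp N * (Real.exp (a + A + σ * |(x : ℝ) - (z₀ - v)|) * Real.exp a') := by
        rw [← Real.exp_add, ← Real.exp_add]
        congr 1
        ring
      rw [e]
      ring

end Slab

/-- **All scales give the envelope.** `r v` = the half width of the window of the scale `v`, `e v` = the constant of the comparison of the
place at the scale `v` with the sites of the inner window `r 0`. Growth: `r (v + 1) ≤ b r v`, `e v ≤ κ r v + q` (the unit of the scale `v`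
is small against its width, up to a constant). Beyond the last scale there is the envelope `htop`. -/
theorem dd_scales {F : ℤ → ℝ} (hF : ∀ x, 0 ≤ F x) {x₀ b κ q : ℝ} {r e : ℕ → ℝ} {m : ℕ} (hκ : 0 ≤ κ) (hr0 : 0 ≤ r 0)
    (hr : ∀ v, v < m → r (v + 1) ≤ b * r v) (hb : 1 ≤ b) (he : ∀ v, v ≤ m → e v ≤ κ * r v + q)
    (hD : ∀ v, v ≤ m → ∀ x x' : ℤ, |(x : ℝ) - x₀| ≤ r v → |(x' : ℝ) - x₀| ≤ r 0 → F x ≤ Real.exp (e v) * F x')
    (htop : ∀ x x' : ℤ, r m < |(x : ℝ) - x₀| → |(x' : ℝ) - x₀| ≤ r 0 → F x ≤ Real.exp (q + κ * r 0 + κ * b * |(x : ℝ) - x₀|) * F x') :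
    D2 F x₀ (r 0) (q + κ * r 0) (κ * b) := by
  intro x x' hx'
  by_cases hx : r m < |(x : ℝ) - x₀|
  · exact htop x x' hx hx'
  rw [not_lt] at hx
  -- the first scale which contains the place
  classical
  have hex : ∃ v, v ≤ m ∧ |(x : ℝ) - x₀| ≤ r v := ⟨m, le_rfl, hx⟩
  obtain ⟨v, hv, hmin⟩ : ∃ v, (v ≤ m ∧ |(x : ℝ) - x₀| ≤ r v) ∧ ∀ u, u < v → ¬ (u ≤ m ∧ |(x : ℝ) - x₀| ≤ r u) :=
    ⟨Nat.find hex, Nat.find_spec hex, fun u hu => Nat.find_min hex hu⟩
  have h1 := hD v hv.1 x x' hv.2 hx'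
  refine h1.trans (mul_le_mul_of_nonneg_right (Real.exp_le_exp.2 ?_) (hF x'))
  have h2 := he v hv.1
  have habs := abs_nonneg ((x : ℝ) - x₀)
  have hκb : 0 ≤ κ * b := mul_nonneg hκ (by linarith)
  rcases Nat.eq_zero_or_pos v with h0 | h0
  · rw [h0] at h2 ⊢
    have := mul_nonneg hκb habs
    linarith
  · have h3 := hmin (v - 1) (by omega)
    have h4 : r (v - 1) < |(x : ℝ) - x₀| := by
      by_contra hcon
      exact h3 ⟨by omega, not_lt.1 hcon⟩
    have h5 := hr (v - 1) (by omega)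
    rw [show v - 1 + 1 = v by omega] at h5
    have h6 : r v ≤ b * |(x : ℝ) - x₀| := h5.trans (mul_le_mul_of_nonneg_left h4.le (by linarith))
    have h7 := mul_le_mul_of_nonneg_left h6 hκ
    have h8 := mul_nonneg hκ hr0
    linarith

end Pool.Agent.W_7d29a1_C1.DD84
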