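import Mathlib

/-!
Both halves (MP_7d29a1_pr), attractor route, leaf 11 (ii) of row 690: FAR KERNELS from the levels of the slabs, abstract. (helper89)

`cmp k B m u x y` = composition of the kernels `k u, .., k (u + m - 1)` through the finite sets of sites `B`. Each kernel has an envelope
`exp (q u (1 + log (1 + |x| / w)) ^ P E - c (E / w) |y - x|)` in the lateral coordinates `ℓ`; the level `q u` depends on the slab.
`cmp_up`: the composition has an envelope of the same form at the scale `(Et, wt)`, with the level `Q (1 + log (1 + A)) ^ P`, `Q` = the sum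
of the costs `e u` of the slabs. `cmp_low`, `cmp_low2`: lower bound for near ends.
`bypass`: the sum over the far pairs.
-/

set_option autoImplicit false

namespace Pool.Agent.W_7d29a1_C1.FarK89

open Finset

noncomputable section

/-- The growth of the levels with the lateral distance. -/
def gr (P : ℕ) (X : ℝ) : ℝ := (1 + Real.log (1 + X)) ^ P

lemma log_nonneg' {X : ℝ} (hX : 0 ≤ X) : 0 ≤ Real.log (1 + X) := Real.log_nonneg (by linarith)

lemma gr_one_le (P : ℕ) {X : ℝ} (hX : 0 ≤ X) : 1 ≤ gr P X := one_le_pow₀ (by have := log_nonneg' hX; linarith)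

lemma gr_nonneg (P : ℕ) {X : ℝ} (hX : 0 ≤ X) : 0 ≤ gr P X := zero_le_one.trans (gr_one_le P hX)

lemma gr_mono (P : ℕ) {X Y : ℝ} (hX : 0 ≤ X) (h : X ≤ Y) : gr P X ≤ gr P Y := by
  unfold gr
  have h1 := log_nonneg' hX
  have h2 := Real.log_le_log (by linarith : 0 < 1 + X) (by linarith : 1 + X ≤ 1 + Y)
  exact pow_le_pow_left₀ (by linarith) (by linarith) P

/-- Submultiplicativity. -/
lemma gr_mul (P : ℕ) {X Y Z : ℝ} (hX : 0 ≤ X) (hY : 0 ≤ Y) (hZ0 : 0 ≤ Z) (hZ : 1 + Z ≤ (1 + X) * (1 + Y)) :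
    gr P Z ≤ gr P X * gr P Y := by
  unfold gr
  rw [← mul_pow]
  have h1 := log_nonneg' hX
  have h2 := log_nonneg' hY
  have h3 := log_nonneg' hZ0
  have h4 : Real.log (1 + Z) ≤ Real.log (1 + X) + Real.log (1 + Y) := by
    rw [← Real.log_mul (by linarith) (by linarith)]
    exact Real.log_le_log (by linarith) hZ
  refine pow_le_pow_left₀ (by linarith) ?_ P
  nlinarith [mul_nonneg h1 h2]

/-- Constant of the comparison with the square root. -/
def CP (P : ℕ) : ℝ := (2 * P) ^ P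

lemma CP_pos (P : ℕ) : 0 < CP P := by
  unfold CP
  rcases Nat.eq_zero_or_pos P with h | h
  · subst h
    norm_num
  · positivity

lemma log_pow_le (P : ℕ) {Y : ℝ} (hY : 1 ≤ Y) : (1 + Real.log Y) ^ P ≤ CP P * Real.sqrt Y := by
  unfold CP
  rcases Nat.eq_zero_or_pos P with h | h
  · subst h
    simp only [pow_zero, one_mul]
    exact Real.one_le_sqrt.2 hY
  · have hP : (0 : ℝ) < P := by exact_mod_cast h
    have hP1 : (1 : ℝ) ≤ P := by exact_mod_cast h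
    obtain ⟨r, hr⟩ : ∃ r : ℝ, r = Y ^ (1 / (2 * (P : ℝ))) := ⟨_, rfl⟩
    have hY0 : 0 < Y := by linarith
    have hr0 : 0 < r := by rw [hr]; exact Real.rpow_pos_of_pos hY0 _
    have h1 : Real.log Y = 2 * P * Real.log r := by
      rw [hr, Real.log_rpow hY0]
      field_simp
    have h2 := Real.log_le_sub_one_of_pos hr0
    have h3 : 1 + Real.log Y ≤ 2 * P * r := by
      rw [h1]
      nlinarith
    have h4 : 0 ≤ 1 + Real.log Y := by have := Real.log_nonneg hY; linarith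
    calc (1 + Real.log Y) ^ P ≤ (2 * P * r) ^ P := pow_le_pow_left₀ h4 h3 P
      _ = (2 * (P : ℝ)) ^ P * Real.sqrt Y := by
          rw [mul_pow, hr, ← Real.rpow_natCast (Y ^ (1 / (2 * (P : ℝ)))), ← Real.rpow_mul hY0.le, Real.sqrt_eq_rpow]
          congr 2
          field_simp

lemma pow_sub_pow_le {a b : ℝ} (hb : 0 ≤ b) (hab : b ≤ a) (P : ℕ) : a ^ P - b ^ P ≤ P * a ^ (P - 1) * (a - b) := by
  induction P with
  | zero => simp
  | succ P ih =>
    have ha : 0 ≤ a := hb.trans hab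
    have h1 : a ^ (P + 1) - b ^ (P + 1) = a * (a ^ P - b ^ P) + b ^ P * (a - b) := by ring
    rw [h1, Nat.add_sub_cancel]
    have h2 : b ^ P ≤ a ^ P := pow_le_pow_left₀ hb hab P
    have h3 : b ^ P * (a - b) ≤ a ^ P * (a - b) := mul_le_mul_of_nonneg_right h2 (by linarith)
    rcases Nat.eq_zero_or_pos P with h | h
    · subst h
      simp
    · have h4 : a * (a ^ P - b ^ P) ≤ a * (P * a ^ (P - 1) * (a - b)) := mul_le_mul_of_nonneg_left ih ha
      have h5 : a * a ^ (P - 1) = a ^ P := by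
        rw [← pow_succ']
        congr 1
        omega
      have h6 : a * (P * a ^ (P - 1) * (a - b)) = P * (a * a ^ (P - 1)) * (a - b) := by ring
      rw [h6, h5] at h4
      push_cast
      linarith

/-- **The shifted profile is Lipschitz.** -/
lemma lip (P : ℕ) {A X d : ℝ} (hA : 0 ≤ A) (hX : 0 ≤ X) (hd : 0 ≤ d) :
    gr P (A + (X + d)) ≤ gr P (A + X) + 2 * (P + 1) * CP P / Real.sqrt (1 + A) * d := by
  have hCP := CP_pos P
  obtain ⟨Y, hY⟩ : ∃ Y, Y = 1 + (A + X) := ⟨_, rfl⟩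
  have hY1 : 1 + A ≤ Y := by rw [hY]; linarith
  have hY0 : 1 ≤ Y := by linarith
  have hYp : 0 < Y := by linarith
  have e1 : gr P (A + X) = (1 + Real.log Y) ^ P := by unfold gr; rw [hY]
  have e2 : gr P (A + (X + d)) = (1 + Real.log (Y + d)) ^ P := by
    unfold gr
    rw [hY]
    congr 3
    ring
  rw [e1, e2]
  have hs0 : 0 < Real.sqrt (1 + A) := Real.sqrt_pos.2 (by linarith)
  have hsY : 0 < Real.sqrt Y := Real.sqrt_pos.2 hYp
  have hss : Real.sqrt (1 + A) ≤ Real.sqrt Y := Real.sqrt_le_sqrt hY1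
  have hl0 := Real.log_nonneg hY0
  have hl1 : Real.log Y ≤ Real.log (Y + d) := Real.log_le_log hYp (by linarith)
  have hsq := Real.mul_self_sqrt hYp.le
  have hlog : (1 + Real.log (Y + d)) ^ P ≤ CP P * Real.sqrt (Y + d) := log_pow_le P (by linarith)
  suffices h : (1 + Real.log (Y + d)) ^ P - (1 + Real.log Y) ^ P ≤ 2 * (P + 1) * CP P * (d / Real.sqrt Y) by
    have h1 : d / Real.sqrt Y ≤ d / Real.sqrt (1 + A) := div_le_div_of_nonneg_left hd hs0 hss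
    have h2 := mul_le_mul_of_nonneg_left h1 (show 0 ≤ 2 * ((P : ℝ) + 1) * CP P by positivity)
    have h3 : 2 * ((P : ℝ) + 1) * CP P * (d / Real.sqrt (1 + A)) = 2 * (P + 1) * CP P / Real.sqrt (1 + A) * d := by ring
    linarith
  rcases le_or_gt d Y with h | h
  · -- small displacement
    have h1 := pow_sub_pow_le (show 0 ≤ 1 + Real.log Y by linarith) (show 1 + Real.log Y ≤ 1 + Real.log (Y + d) by linarith) P
    have h2 : Real.log (Y + d) - Real.log Y ≤ d / Y := by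
      rw [← Real.log_div (by linarith) hYp.ne']
      have h3 := Real.log_le_sub_one_of_pos (show 0 < (Y + d) / Y by positivity)
      have h4 : (Y + d) / Y - 1 = d / Y := by field_simp; ring
      linarith
    have h3 : (1 + Real.log (Y + d)) ^ (P - 1) ≤ (1 + Real.log (Y + d)) ^ P :=
      pow_le_pow_right₀ (by linarith) (Nat.sub_le _ _)
    have h4 : Real.sqrt (Y + d) ≤ 2 * Real.sqrt Y := by
      rw [show (2 : ℝ) * Real.sqrt Y = Real.sqrt (4 * Y) from by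
        rw [Real.sqrt_mul (by norm_num), show (4 : ℝ) = 2 ^ 2 from by norm_num, Real.sqrt_sq (by norm_num)]]
      exact Real.sqrt_le_sqrt (by linarith)
    have h5 : (1 + Real.log (Y + d)) ^ (P - 1) ≤ CP P * (2 * Real.sqrt Y) :=
      h3.trans (hlog.trans (mul_le_mul_of_nonneg_left h4 hCP.le))
    have h6 : 0 ≤ Real.log (Y + d) - Real.log Y := by linarith
    have h7 : (1 + Real.log (Y + d) - (1 + Real.log Y)) = Real.log (Y + d) - Real.log Y := by ring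
    rw [h7] at h1
    have h8 : (P : ℝ) * (1 + Real.log (Y + d)) ^ (P - 1) * (Real.log (Y + d) - Real.log Y) ≤
        P * (CP P * (2 * Real.sqrt Y)) * (d / Y) :=
      mul_le_mul (mul_le_mul_of_nonneg_left h5 (Nat.cast_nonneg P)) h2 h6 (by positivity)
    have h9 : (P : ℝ) * (CP P * (2 * Real.sqrt Y)) * (d / Y) = 2 * P * CP P * (d / Real.sqrt Y) := by
      have : d / Y = d / Real.sqrt Y / Real.sqrt Y := by rw [div_div, hsq]
      rw [this]
      field_simp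
    have h10 : 0 ≤ 2 * CP P * (d / Real.sqrt Y) := by positivity
    have h11 : 2 * ((P : ℝ) + 1) * CP P * (d / Real.sqrt Y) = 2 * P * CP P * (d / Real.sqrt Y) + 2 * CP P * (d / Real.sqrt Y) := by
      ring
    linarith
  · -- large displacement
    have h1 : Real.sqrt (Y + d) ≤ 2 * (d / Real.sqrt Y) := by
      have hd0 : 0 < d := by linarith
      have h2 : Real.sqrt (Y + d) ≤ Real.sqrt (4 * d) := Real.sqrt_le_sqrt (by linarith)
      have h3 : Real.sqrt (4 * d) = 2 * Real.sqrt d := by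
        rw [Real.sqrt_mul (by norm_num), show (4 : ℝ) = 2 ^ 2 from by norm_num, Real.sqrt_sq (by norm_num)]
      have h4 : Real.sqrt Y ≤ Real.sqrt d := Real.sqrt_le_sqrt h.le
      have h5 : Real.sqrt d ≤ d / Real.sqrt Y := by
        rw [le_div_iff₀ hsY]
        calc Real.sqrt d * Real.sqrt Y ≤ Real.sqrt d * Real.sqrt d := mul_le_mul_of_nonneg_left h4 (Real.sqrt_nonneg _)
          _ = d := Real.mul_self_sqrt hd0.le
      linarith
    have h2 : 0 ≤ (1 + Real.log Y) ^ P := pow_nonneg (by linarith) P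
    have h3 := mul_le_mul_of_nonneg_left h1 hCP.le
    have h4 : 0 ≤ 2 * (P : ℝ) * CP P * (d / Real.sqrt Y) := by positivity
    have h5 : 2 * ((P : ℝ) + 1) * CP P * (d / Real.sqrt Y) = 2 * P * CP P * (d / Real.sqrt Y) + CP P * (2 * (d / Real.sqrt Y)) := by
      ring
    linarith

/-- The shift for the total level `Q` and the slope `c`. -/
def AQ (P : ℕ) (c Q : ℝ) : ℝ := (2 * (P + 1) * CP P * Q / c) ^ 2

lemma AQ_nonneg (P : ℕ) (c Q : ℝ) : 0 ≤ AQ P c Q := sq_nonneg _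

lemma lipQ (P : ℕ) {c Q Q' X d : ℝ} (hc : 0 < c) (hQ' : 0 ≤ Q') (hQ : Q' ≤ Q) (hX : 0 ≤ X) (hd : 0 ≤ d) :
    Q' * gr P (AQ P c Q + (X + d)) ≤ Q' * gr P (AQ P c Q + X) + c * d := by
  have hA := AQ_nonneg P c Q
  have hCP := CP_pos P
  have h1 := mul_le_mul_of_nonneg_left (lip P hA hX hd) hQ'
  have hs : 2 * (P + 1) * CP P * Q / c ≤ Real.sqrt (1 + AQ P c Q) := by
    refine Real.le_sqrt_of_sq_le ?_
    unfold AQ
    linarith
  have hs0 : 0 < Real.sqrt (1 + AQ P c Q) := Real.sqrt_pos.2 (by linarith)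
  have h2 : Q' * (2 * (P + 1) * CP P / Real.sqrt (1 + AQ P c Q)) ≤ c := by
    rw [← mul_div_assoc, div_le_iff₀ hs0]
    have h3 := mul_le_mul_of_nonneg_left hs hc.le
    have h4 : c * (2 * (P + 1) * CP P * Q / c) = Q * (2 * (P + 1) * CP P) := by
      field_simp
    have h5 : Q' * (2 * ((P : ℝ) + 1) * CP P) ≤ Q * (2 * (P + 1) * CP P) :=
      mul_le_mul_of_nonneg_right hQ (by positivity)
    linarith
  have h3 := mul_le_mul_of_nonneg_right h2 hd
  have h4 : Q' * (gr P (AQ P c Q + X) + 2 * (P + 1) * CP P / Real.sqrt (1 + AQ P c Q) * d) =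
      Q' * gr P (AQ P c Q + X) + Q' * (2 * (P + 1) * CP P / Real.sqrt (1 + AQ P c Q)) * d := by ring
  linarith

/-! ### Composition -/

/-- The composition of `m` kernels from the slab `u` on. -/
def cmp (k : ℕ → ℤ → ℤ → ℝ) (B : ℕ → Finset ℤ) : ℕ → ℕ → ℤ → ℤ → ℝ
  | 0, _, x, y => if x = y then 1 else 0
  | m + 1, u, x, y => ∑ z ∈ B (u + 1), k u x z * cmp k B m (u + 1) z y

lemma cmp_nonneg {k : ℕ → ℤ → ℤ → ℝ} (hk : ∀ u x y, 0 ≤ k u x y) (B : ℕ → Finset ℤ) (m u : ℕ) (x y : ℤ) :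
    0 ≤ cmp k B m u x y := by
  induction m generalizing u x with
  | zero =>
    unfold cmp
    split_ifs <;> norm_num
  | succ m ih => exact sum_nonneg fun z _ => mul_nonneg (hk _ _ _) (ih _ _)

/-- The envelope of the slabs `a ≤ u < b`. -/
structure Env' (P : ℕ) (c c₂ Et wt : ℝ) (q E w e s : ℕ → ℝ) (ℓ : ℕ → ℤ → ℝ) (k : ℕ → ℤ → ℤ → ℝ) (B : ℕ → Finset ℤ)
    (a b : ℕ) : Prop where
  c0 : 0 ≤ c₂
  q0 : ∀ u, 0 ≤ q u
  Et0 : 0 < Et
  wt0 : 0 < wt
  w0 : ∀ u, a ≤ u → u < b → 0 < w u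
  e0 : ∀ u, 0 ≤ e u
  s0 : ∀ u, 0 ≤ s u
  E0 : ∀ u, a ≤ u → u < b → 0 ≤ E u
  wle : ∀ u, a ≤ u → u < b → w u ≤ wt
  slope : ∀ u, a ≤ u → u < b → Et / wt ≤ E u / w u
  en : ∀ u, a ≤ u → u < b → q u * gr P (wt / w u - 1) * E u ≤ e u * Et
  k0 : ∀ u x y, 0 ≤ k u x y
  up : ∀ u, a ≤ u → u < b → ∀ x, ∀ y ∈ B (u + 1),
    k u x y ≤ Real.exp (q u * gr P (|ℓ u x| / w u) * E u - c * (E u / w u) * |ℓ (u + 1) y - ℓ u x|)
  sum : ∀ u, a ≤ u → u < b → ∀ x, ∑ y ∈ B (u + 1), Real.exp (-(c₂ * (E u / w u) * |ℓ (u + 1) y - ℓ u x|)) ≤ Real.exp (s u * Et)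

variable {P : ℕ} {c c₂ Et wt : ℝ} {q E w e s : ℕ → ℝ} {ℓ : ℕ → ℤ → ℝ} {k : ℕ → ℤ → ℤ → ℝ} {B : ℕ → Finset ℤ} {a b : ℕ}

/-- One level in the unit of the large scale. -/
lemma Env'.lev (h : Env' P c c₂ Et wt q E w e s ℓ k B a b) {u : ℕ} (ha : a ≤ u) (hb : u < b) {X : ℝ} (hX : 0 ≤ X) :
    q u * gr P (X / w u) * E u ≤ e u * gr P (X / wt) * Et := by
  have hw := h.w0 u ha hb
  have hwt := h.wt0
  have hle := h.wle u ha hb
  have h1 : 0 ≤ wt / w u - 1 := by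
    rw [sub_nonneg, one_le_div hw]
    exact hle
  have h2 : 0 ≤ X / wt := div_nonneg hX hwt.le
  have h3 : gr P (X / w u) ≤ gr P (X / wt) * gr P (wt / w u - 1) := by
    refine gr_mul P h2 h1 (div_nonneg hX hw.le) ?_
    have h4 : (1 + X / wt) * (1 + (wt / w u - 1)) = wt / w u + X / w u := by
      field_simp
      ring
    rw [h4]
    have h5 : 1 ≤ wt / w u := by linarith
    linarith
  have h4 := h.en u ha hb
  have h5 := gr_nonneg P h2
  calc q u * gr P (X / w u) * E u ≤ q u * (gr P (X / wt) * gr P (wt / w u - 1)) * E u :=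
        mul_le_mul_of_nonneg_right (mul_le_mul_of_nonneg_left h3 (h.q0 u)) (h.E0 u ha hb)
    _ = gr P (X / wt) * (q u * gr P (wt / w u - 1) * E u) := by ring
    _ ≤ gr P (X / wt) * (e u * Et) := mul_le_mul_of_nonneg_left h4 h5
    _ = _ := by ring

/-- **THE ENVELOPE OF THE COMPOSITION**: slopes `c₁` (profile), `c₂` (sums), `c₃` (what is left), `c₁ + c₂ + c₃ ≤ c`. -/
theorem cmp_up (h : Env' P c c₂ Et wt q E w e s ℓ k B a b) {c₁ c₃ Q : ℝ} (hc₁ : 0 < c₁) (hc₃ : 0 ≤ c₃) (hcc : c₁ + c₂ + c₃ ≤ c)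
    (hQ : ∑ v ∈ Ico a b, e v ≤ Q) (m : ℕ) :
    ∀ u, a ≤ u → u + m ≤ b → ∀ x y, cmp k B m u x y ≤
      Real.exp ((∑ v ∈ Ico u (u + m), e v) * gr P (AQ P c₁ Q + |ℓ u x| / wt) * Et + (∑ v ∈ Ico u (u + m), s v) * Et -
        c₃ * (Et / wt) * |ℓ (u + m) y - ℓ u x|) := by
  have hc₂ := h.c0
  have hwt := h.wt0
  have hEt := h.Et0
  have hA := AQ_nonneg P c₁ Q
  induction m with
  | zero =>
    intro u _ _ x y
    unfold cmp
    split_ifs with hxy
    · subst hxy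
      simp
    · exact (Real.exp_pos _).le
  | succ m ih =>
    intro u hu hum x y
    have hub : u < b := by omega
    obtain ⟨X, hX⟩ : ∃ X, X = |ℓ u x| / wt := ⟨_, rfl⟩
    have hX0 : 0 ≤ X := by rw [hX]; positivity
    obtain ⟨Q1, hQ1⟩ : ∃ Q1, Q1 = ∑ v ∈ Ico (u + 1) (u + 1 + m), e v := ⟨_, rfl⟩
    obtain ⟨S1, hS1⟩ : ∃ S1, S1 = ∑ v ∈ Ico (u + 1) (u + 1 + m), s v := ⟨_, rfl⟩
    have hQ1' : ∑ v ∈ Ico u (u + (m + 1)), e v = e u + Q1 := by
      rw [hQ1, Finset.sum_eq_sum_Ico_succ_bot (by omega), show u + (m + 1) = u + 1 + m from by omega]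
    have hS1' : ∑ v ∈ Ico u (u + (m + 1)), s v = s u + S1 := by
      rw [hS1, Finset.sum_eq_sum_Ico_succ_bot (by omega), show u + (m + 1) = u + 1 + m from by omega]
    have hQ10 : 0 ≤ Q1 := by
      rw [hQ1]
      exact sum_nonneg fun v _ => h.e0 v
    have hQ1Q : Q1 ≤ Q := by
      refine le_trans ?_ hQ
      rw [hQ1]
      exact sum_le_sum_of_subset_of_nonneg (Ico_subset_Ico (by omega) (by omega)) fun v _ _ => h.e0 v
    have hsl := h.slope u hu hub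
    obtain ⟨τ, hτ⟩ : ∃ τ, τ = Et / wt := ⟨_, rfl⟩
    obtain ⟨ε, hε⟩ : ∃ ε, ε = E u / w u := ⟨_, rfl⟩
    have hτ0 : 0 < τ := by rw [hτ]; positivity
    rw [← hτ, ← hε] at hsl
    rw [hQ1', hS1', ← hX, ← hτ]
    have hG := gr_mono P hX0 (show X ≤ AQ P c₁ Q + X by linarith)
    show ∑ z ∈ B (u + 1), k u x z * cmp k B m (u + 1) z y ≤ _
    have key : ∀ z ∈ B (u + 1), k u x z * cmp k B m (u + 1) z y ≤
        Real.exp ((e u + Q1) * gr P (AQ P c₁ Q + X) * Et + S1 * Et - c₃ * τ * |ℓ (u + (m + 1)) y - ℓ u x|) *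
          Real.exp (-(c₂ * (E u / w u) * |ℓ (u + 1) z - ℓ u x|)) := by
      intro z hz
      obtain ⟨D, hD⟩ : ∃ D, D = |ℓ (u + 1) z - ℓ u x| := ⟨_, rfl⟩
      have hD0 : 0 ≤ D := by rw [hD]; positivity
      have h1 := h.up u hu hub x z hz
      have h2 := ih (u + 1) (by omega) (by omega) z y
      have h3 := mul_le_mul h1 h2 (cmp_nonneg h.k0 B m (u + 1) z y) (Real.exp_pos _).le
      refine h3.trans ?_
      rw [← Real.exp_add, ← Real.exp_add]
      refine Real.exp_le_exp.2 ?_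
      rw [← hQ1, ← hS1, ← hτ, ← hD, ← hε]
      have e1 : u + 1 + m = u + (m + 1) := by omega
      rw [e1]
      -- the level of the first slab
      have h4 := h.lev hu hub (abs_nonneg (ℓ u x))
      rw [← hX] at h4
      have h4' : e u * gr P X * Et ≤ e u * gr P (AQ P c₁ Q + X) * Et :=
        mul_le_mul_of_nonneg_right (mul_le_mul_of_nonneg_left hG (h.e0 u)) hEt.le
      -- the profile at the next site
      have h5 : |ℓ (u + 1) z| / wt ≤ X + D / wt := by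
        rw [hX, ← add_div]
        refine div_le_div_of_nonneg_right ?_ hwt.le
        have h6 := abs_add_le (ℓ u x) (ℓ (u + 1) z - ℓ u x)
        rw [add_sub_cancel] at h6
        rw [hD]
        exact h6
      have h7 : Q1 * gr P (AQ P c₁ Q + |ℓ (u + 1) z| / wt) ≤ Q1 * gr P (AQ P c₁ Q + X) + c₁ * (D / wt) := by
        have h8 : gr P (AQ P c₁ Q + |ℓ (u + 1) z| / wt) ≤ gr P (AQ P c₁ Q + (X + D / wt)) :=
          gr_mono P (by positivity) (by linarith)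
        have h9 := mul_le_mul_of_nonneg_left h8 hQ10
        exact h9.trans (lipQ P hc₁ hQ10 hQ1Q hX0 (by positivity))
      have h8 := mul_le_mul_of_nonneg_right h7 hEt.le
      have e2 : (Q1 * gr P (AQ P c₁ Q + X) + c₁ * (D / wt)) * Et = Q1 * gr P (AQ P c₁ Q + X) * Et + c₁ * τ * D := by
        rw [hτ]
        ring
      rw [e2] at h8
      -- the displacement
      have h9 : |ℓ (u + (m + 1)) y - ℓ u x| ≤ |ℓ (u + (m + 1)) y - ℓ (u + 1) z| + D := by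
        have h10 := abs_add_le (ℓ (u + (m + 1)) y - ℓ (u + 1) z) (ℓ (u + 1) z - ℓ u x)
        rw [sub_add_sub_cancel] at h10
        rw [hD]
        exact h10
      have h10 := mul_le_mul_of_nonneg_left h9 (show 0 ≤ c₃ * τ by positivity)
      have h11 : (c₁ + c₂ + c₃) * (ε * D) ≤ c * (ε * D) :=
        mul_le_mul_of_nonneg_right hcc (mul_nonneg (hτ0.le.trans hsl) hD0)
      have h12 : (c₁ + c₃) * (τ * D) ≤ (c₁ + c₃) * (ε * D) :=
        mul_le_mul_of_nonneg_left (mul_le_mul_of_nonneg_right hsl hD0) (by linarith)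
      have e3 : (e u + Q1) * gr P (AQ P c₁ Q + X) * Et = e u * gr P (AQ P c₁ Q + X) * Et + Q1 * gr P (AQ P c₁ Q + X) * Et := by
        ring
      have e4 : c₃ * τ * (|ℓ (u + (m + 1)) y - ℓ (u + 1) z| + D) = c₃ * τ * |ℓ (u + (m + 1)) y - ℓ (u + 1) z| + c₃ * τ * D := by
        ring
      have e5 : (c₁ + c₂ + c₃) * (ε * D) = c₁ * ε * D + c₂ * ε * D + c₃ * ε * D := by ring
      have e6 : (c₁ + c₃) * (τ * D) = c₁ * τ * D + c₃ * τ * D := by ring
      have e7 : (c₁ + c₃) * (ε * D) = c₁ * ε * D + c₃ * ε * D := by ring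
      have e8 : c * (ε * D) = c * ε * D := by ring
      rw [e4] at h10
      rw [e5, e8] at h11
      rw [e6, e7] at h12
      rw [e3]
      linarith
    refine (sum_le_sum key).trans ?_
    rw [← mul_sum]
    have h1 := mul_le_mul_of_nonneg_left (h.sum u hu hub x)
      (Real.exp_pos ((e u + Q1) * gr P (AQ P c₁ Q + X) * Et + S1 * Et - c₃ * τ * |ℓ (u + (m + 1)) y - ℓ u x|)).le
    refine h1.trans (le_of_eq ?_)
    rw [← Real.exp_add]
    congr 1
    ring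

/-- The level of a composition. -/
def LQ (P : ℕ) (c₁ Q : ℝ) : ℝ := Q * gr P (AQ P c₁ Q)

lemma LQ_nonneg (P : ℕ) {c₁ Q : ℝ} (hQ : 0 ≤ Q) : 0 ≤ LQ P c₁ Q := mul_nonneg hQ (gr_nonneg P (AQ_nonneg _ _ _))

lemma gr_shift (P : ℕ) {A X : ℝ} (hA : 0 ≤ A) (hX : 0 ≤ X) : gr P (A + X) ≤ gr P A * gr P X :=
  gr_mul P hA hX (by linarith) (by nlinarith [mul_nonneg hA hX])

/-- The envelope with one constant. -/
theorem cmp_up' (h : Env' P c c₂ Et wt q E w e s ℓ k B a b) {c₁ c₃ Q S : ℝ} (hc₁ : 0 < c₁) (hc₃ : 0 ≤ c₃)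
    (hcc : c₁ + c₂ + c₃ ≤ c) (hQ : ∑ v ∈ Ico a b, e v ≤ Q) (hS : ∑ v ∈ Ico a b, s v ≤ S) {m u : ℕ} (hu : a ≤ u)
    (hum : u + m ≤ b) (x y : ℤ) : cmp k B m u x y ≤
      Real.exp ((LQ P c₁ Q * gr P (|ℓ u x| / wt) + S) * Et - c₃ * (Et / wt) * |ℓ (u + m) y - ℓ u x|) := by
  have hwt := h.wt0
  have hEt := h.Et0
  have hA := AQ_nonneg P c₁ Q
  have hX0 : 0 ≤ |ℓ u x| / wt := by positivity
  refine (cmp_up h hc₁ hc₃ hcc hQ m u hu hum x y).trans (Real.exp_le_exp.2 ?_)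
  have h1 : ∑ v ∈ Ico u (u + m), e v ≤ Q :=
    (sum_le_sum_of_subset_of_nonneg (Ico_subset_Ico hu hum) fun v _ _ => h.e0 v).trans hQ
  have h2 : ∑ v ∈ Ico u (u + m), s v ≤ S :=
    (sum_le_sum_of_subset_of_nonneg (Ico_subset_Ico hu hum) fun v _ _ => h.s0 v).trans hS
  have h0 : 0 ≤ ∑ v ∈ Ico u (u + m), e v := sum_nonneg fun v _ => h.e0 v
  have h3 : (∑ v ∈ Ico u (u + m), e v) * gr P (AQ P c₁ Q + |ℓ u x| / wt) ≤ LQ P c₁ Q * gr P (|ℓ u x| / wt) := by
    unfold LQ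
    calc (∑ v ∈ Ico u (u + m), e v) * gr P (AQ P c₁ Q + |ℓ u x| / wt)
        ≤ Q * (gr P (AQ P c₁ Q) * gr P (|ℓ u x| / wt)) :=
          mul_le_mul h1 (gr_shift P hA hX0) (gr_nonneg P (by linarith)) (h0.trans h1)
      _ = _ := by ring
  have h4 := mul_le_mul_of_nonneg_right h3 hEt.le
  have h5 := mul_le_mul_of_nonneg_right h2 hEt.le
  rw [add_mul]
  linarith

/-- The sum over the ends. -/
theorem cmp_row (h : Env' P c c₂ Et wt q E w e s ℓ k B a b) {c₁ c₃ Q S st : ℝ} (hc₁ : 0 < c₁) (hc₃ : 0 ≤ c₃)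
    (hcc : c₁ + c₂ + c₃ ≤ c) (hQ : ∑ v ∈ Ico a b, e v ≤ Q) (hS : ∑ v ∈ Ico a b, s v ≤ S) {m u : ℕ} (hu : a ≤ u)
    (hum : u + m ≤ b) (x : ℤ) (J : Finset ℤ)
    (hJ : ∑ y ∈ J, Real.exp (-(c₃ * (Et / wt) * |ℓ (u + m) y - ℓ u x|)) ≤ Real.exp (st * Et)) :
    ∑ y ∈ J, cmp k B m u x y ≤ Real.exp ((LQ P c₁ Q * gr P (|ℓ u x| / wt) + S + st) * Et) := by
  have h1 : ∀ y ∈ J, cmp k B m u x y ≤ Real.exp ((LQ P c₁ Q * gr P (|ℓ u x| / wt) + S) * Et) *
      Real.exp (-(c₃ * (Et / wt) * |ℓ (u + m) y - ℓ u x|)) := by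
    intro y _
    rw [← Real.exp_add]
    exact (cmp_up' h hc₁ hc₃ hcc hQ hS hu hum x y).trans (le_of_eq (by congr 1))
  refine (sum_le_sum h1).trans ?_
  rw [← mul_sum]
  refine (mul_le_mul_of_nonneg_left hJ (Real.exp_pos _).le).trans (le_of_eq ?_)
  rw [← Real.exp_add]
  congr 1
  ring

/-- **THE FAR BY-PASS**: sum over the far pairs `(y, z)`, profiles `F`, `G` with the growth allowed by `(D3)`. -/
theorem bypass (h : Env' P c c₂ Et wt q E w e s ℓ k B a b) {c₁ c₃ c₄ c₅ Q S s4 β A Kf : ℝ} (hc₁ : 0 < c₁) (hc₃ : 0 ≤ c₃)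
    (hcc : c₁ + c₂ + c₃ ≤ c) (hQ0 : 0 ≤ Q) (hQ : ∑ v ∈ Ico a b, e v ≤ Q) (hS : ∑ v ∈ Ico a b, s v ≤ S) {m u : ℕ} (hu : a ≤ u)
    (hum : u + m ≤ b) {F G : ℤ → ℝ} (hc45 : c₄ + c₅ ≤ c₃) (hA : 0 ≤ A) (J : Finset (ℤ × ℤ)) (ρ : ℝ → ℝ)
    (hFG : ∀ p ∈ J, F p.1 * G p.2 ≤
      A * Real.exp ((β - ρ (max |ℓ u p.1| |ℓ (u + m) p.2| / wt)) * Et + c₄ * (Et / wt) * |ℓ (u + m) p.2 - ℓ u p.1|))
    (hJ : ∀ p ∈ J, Kf ≤ max |ℓ u p.1| |ℓ (u + m) p.2| / wt)
    (hρ : ∀ D, Kf ≤ D → 0 ≤ D → (LQ P c₁ Q + 1) * gr P D + S ≤ ρ D)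
    (h4 : ∑ p ∈ J, Real.exp (-(gr P (max |ℓ u p.1| |ℓ (u + m) p.2| / wt) * Et + c₅ * (Et / wt) * |ℓ (u + m) p.2 - ℓ u p.1|)) ≤
      Real.exp (s4 * Et)) :
    ∑ p ∈ J, F p.1 * cmp k B m u p.1 p.2 * G p.2 ≤ A * Real.exp ((β + s4) * Et) := by
  have hwt := h.wt0
  have hEt := h.Et0
  have hL := LQ_nonneg P (c₁ := c₁) hQ0
  have key : ∀ p ∈ J, F p.1 * cmp k B m u p.1 p.2 * G p.2 ≤ A * Real.exp (β * Et) *
      Real.exp (-(gr P (max |ℓ u p.1| |ℓ (u + m) p.2| / wt) * Et + c₅ * (Et / wt) * |ℓ (u + m) p.2 - ℓ u p.1|)) := by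
    intro p hp
    obtain ⟨D, hD⟩ : ∃ D, D = max |ℓ u p.1| |ℓ (u + m) p.2| / wt := ⟨_, rfl⟩
    obtain ⟨δ, hδ⟩ : ∃ δ, δ = |ℓ (u + m) p.2 - ℓ u p.1| := ⟨_, rfl⟩
    have hδ0 : 0 ≤ δ := by rw [hδ]; positivity
    have hD0 : 0 ≤ D := by rw [hD]; exact div_nonneg (le_max_of_le_left (abs_nonneg _)) hwt.le
    have hKD : Kf ≤ D := by rw [hD]; exact hJ p hp
    have h1 := hFG p hp
    have h2 := cmp_up' h hc₁ hc₃ hcc hQ hS hu hum p.1 p.2
    have h3 := hρ D hKD hD0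
    rw [← hD, ← hδ] at h1 ⊢
    rw [← hδ] at h2
    have hx : |ℓ u p.1| / wt ≤ D := by
      rw [hD]
      exact div_le_div_of_nonneg_right (le_max_left _ _) hwt.le
    have hg : gr P (|ℓ u p.1| / wt) ≤ gr P D := gr_mono P (by positivity) hx
    have e1 : F p.1 * cmp k B m u p.1 p.2 * G p.2 = F p.1 * G p.2 * cmp k B m u p.1 p.2 := by ring
    rw [e1]
    have hA' : 0 ≤ A * Real.exp ((β - ρ D) * Et + c₄ * (Et / wt) * δ) := by positivity
    refine (mul_le_mul h1 h2 (cmp_nonneg h.k0 B m u _ _) hA').trans ?_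
    have eab : ∀ x y : ℝ, A * Real.exp x * Real.exp y = A * Real.exp (x + y) := fun x y => by
      rw [mul_assoc, ← Real.exp_add]
    rw [eab, eab]
    refine mul_le_mul_of_nonneg_left (Real.exp_le_exp.2 ?_) hA
    have h5 : LQ P c₁ Q * gr P (|ℓ u p.1| / wt) * Et ≤ LQ P c₁ Q * gr P D * Et :=
      mul_le_mul_of_nonneg_right (mul_le_mul_of_nonneg_left hg hL) hEt.le
    have h6 := mul_le_mul_of_nonneg_right h3 hEt.le
    have h7 : (c₄ + c₅) * ((Et / wt) * δ) ≤ c₃ * ((Et / wt) * δ) :=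
      mul_le_mul_of_nonneg_right hc45 (by positivity)
    have e2 : ((LQ P c₁ Q + 1) * gr P D + S) * Et = LQ P c₁ Q * gr P D * Et + gr P D * Et + S * Et := by ring
    rw [e2] at h6
    have e3 : (LQ P c₁ Q * gr P (|ℓ u p.1| / wt) + S) * Et = LQ P c₁ Q * gr P (|ℓ u p.1| / wt) * Et + S * Et := by ring
    have e4 : (β - ρ D) * Et = β * Et - ρ D * Et := by ring
    have e5 : (c₄ + c₅) * ((Et / wt) * δ) = c₄ * (Et / wt) * δ + c₅ * (Et / wt) * δ := by ring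
    have e6 : c₃ * ((Et / wt) * δ) = c₃ * (Et / wt) * δ := by ring
    rw [e5, e6] at h7
    rw [e3, e4]
    linarith
  refine (sum_le_sum key).trans ?_
  rw [← mul_sum]
  have h5 := mul_le_mul_of_nonneg_left h4 (show 0 ≤ A * Real.exp (β * Et) by positivity)
  refine h5.trans (le_of_eq ?_)
  rw [mul_assoc, ← Real.exp_add]
  congr 2
  ring

lemma cmp_one (u : ℕ) (x : ℤ) {y : ℤ} (hy : y ∈ B (u + 1)) : cmp k B 1 u x y = k u x y := by
  show ∑ z ∈ B (u + 1), k u x z * (if z = y then (1 : ℝ) else 0) = k u x y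
  rw [Finset.sum_eq_single_of_mem y hy fun z _ hz => by rw [if_neg hz, mul_zero], if_pos rfl, mul_one]

/-- The level of a slab near the lateral position `r`. -/
lemma Env'.lev_near (h : Env' P c c₂ Et wt q E w e s ℓ k B a b) {κ : ℝ} (hκ : 0 ≤ κ) (r : ℝ) {u : ℕ} (hu : a ≤ u) (hub : u < b) {x : ℤ}
    (hx : |ℓ u x - r| ≤ κ * w u) : q u * gr P (|ℓ u x| / w u) * E u ≤ e u * gr P (|r| / wt + κ) * Et := by
  have hwt := h.wt0
  refine (h.lev hu hub (abs_nonneg (ℓ u x))).trans ?_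
  have h1 : |ℓ u x| ≤ |r| + κ * w u := by
    have := abs_add_le (ℓ u x - r) r
    rw [sub_add_cancel] at this
    linarith
  have h2 : |ℓ u x| / wt ≤ |r| / wt + κ := by
    rw [div_add' _ _ _ hwt.ne']
    refine div_le_div_of_nonneg_right (h1.trans ?_) hwt.le
    have := mul_le_mul_of_nonneg_left (h.wle u hu hub) hκ
    linarith
  have h3 : gr P (|ℓ u x| / wt) ≤ gr P (|r| / wt + κ) := gr_mono P (by positivity) h2
  exact mul_le_mul_of_nonneg_right (mul_le_mul_of_nonneg_left h3 (h.e0 u)) h.Et0.le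

/-- **LOWER BOUND**: start on the line at the lateral position `r`, end in the window of the last slab. -/
theorem cmp_low (h : Env' P c c₂ Et wt q E w e s ℓ k B a b) {κ : ℝ} (hκ : 1 ≤ κ) (hw1 : ∀ u, a ≤ u → u < b → 2 ≤ w u)
    (hlow : ∀ u, a ≤ u → u < b → ∀ x, ∀ y ∈ B (u + 1), |ℓ (u + 1) y - ℓ u x| ≤ κ * w u →
      Real.exp (-(q u * gr P (|ℓ u x| / w u) * E u)) ≤ k u x y) (r : ℝ)
    (hB : ∀ v, a < v → v < b → ∃ z ∈ B v, |ℓ v z - r| ≤ 1) (m : ℕ) :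
    ∀ u, a ≤ u → u + m < b → ∀ x, |ℓ u x - r| ≤ 1 → ∀ y ∈ B (u + m + 1), |ℓ (u + m + 1) y - r| ≤ κ * w (u + m) - 1 →
      Real.exp (-((∑ v ∈ Ico u (u + m + 1), e v) * gr P (|r| / wt + κ) * Et)) ≤ cmp k B (m + 1) u x y := by
  have hκw : ∀ u, a ≤ u → u < b → 2 ≤ κ * w u := fun u hu hub => by nlinarith [hw1 u hu hub]
  induction m with
  | zero =>
    intro u hu hub x hx y hy hyr
    have h0 := hκw u hu hub
    rw [show 0 + 1 = 1 from rfl, cmp_one u x hy]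
    have h2 : |ℓ (u + 1) y - ℓ u x| ≤ κ * w u := by
      have h3 := abs_add_le (ℓ (u + 1) y - r) (r - ℓ u x)
      rw [sub_add_sub_cancel, abs_sub_comm r] at h3
      have h4 : |ℓ (u + 1) y - r| ≤ κ * w u - 1 := hyr
      linarith
    refine le_trans (Real.exp_le_exp.2 ?_) (hlow u hu hub x y hy h2)
    have h3 := h.lev_near (κ := κ) (by linarith) r hu hub (x := x) (by linarith)
    have e1 : ∑ v ∈ Ico u (u + 0 + 1), e v = e u := by simp
    rw [e1]
    linarith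
  | succ m ih =>
    intro u hu hub x hx y hy hyr
    have h0 := hκw u hu (by omega)
    obtain ⟨z, hz, hzr⟩ := hB (u + 1) (by omega) (by omega)
    have h1 := ih (u + 1) (by omega) (by omega) z hzr y (by
      rw [show u + 1 + m + 1 = u + (m + 1) + 1 from by omega]
      exact hy) (by
      rw [show u + 1 + m + 1 = u + (m + 1) + 1 from by omega, show u + 1 + m = u + (m + 1) from by omega]
      exact hyr)
    have h2 : |ℓ (u + 1) z - ℓ u x| ≤ κ * w u := by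
      have h3 := abs_add_le (ℓ (u + 1) z - r) (r - ℓ u x)
      rw [sub_add_sub_cancel, abs_sub_comm r] at h3
      linarith
    have h3 := hlow u hu (by omega) x z hz h2
    have h4 := h.lev_near (κ := κ) (by linarith) r hu (by omega) (x := x) (by linarith)
    show _ ≤ ∑ z ∈ B (u + 1), k u x z * cmp k B (m + 1) (u + 1) z y
    refine le_trans ?_ (single_le_sum (f := fun z => k u x z * cmp k B (m + 1) (u + 1) z y)
      (fun z _ => mul_nonneg (h.k0 _ _ _) (cmp_nonneg h.k0 B _ _ _ _)) hz)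
    refine le_trans ?_ (mul_le_mul h3 h1 (Real.exp_pos _).le (h.k0 _ _ _))
    rw [← Real.exp_add]
    refine Real.exp_le_exp.2 ?_
    have e1 : ∑ v ∈ Ico u (u + (m + 1) + 1), e v = e u + ∑ v ∈ Ico (u + 1) (u + 1 + m + 1), e v := by
      rw [Finset.sum_eq_sum_Ico_succ_bot (by omega), show u + (m + 1) + 1 = u + 1 + m + 1 from by omega]
    rw [e1]
    have e2 : (e u + ∑ v ∈ Ico (u + 1) (u + 1 + m + 1), e v) * gr P (|r| / wt + κ) * Et =
        e u * gr P (|r| / wt + κ) * Et + (∑ v ∈ Ico (u + 1) (u + 1 + m + 1), e v) * gr P (|r| / wt + κ) * Et := by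
      ring
    rw [e2]
    linarith

/-- **LOWER BOUND**: start in the window of the first slab, end in the window of the last slab (at least two slabs). -/
theorem cmp_low2 (h : Env' P c c₂ Et wt q E w e s ℓ k B a b) {κ : ℝ} (hκ : 1 ≤ κ) (hw1 : ∀ u, a ≤ u → u < b → 2 ≤ w u)
    (hlow : ∀ u, a ≤ u → u < b → ∀ x, ∀ y ∈ B (u + 1), |ℓ (u + 1) y - ℓ u x| ≤ κ * w u →
      Real.exp (-(q u * gr P (|ℓ u x| / w u) * E u)) ≤ k u x y) (r : ℝ)
    (hB : ∀ v, a < v → v < b → ∃ z ∈ B v, |ℓ v z - r| ≤ 1) {m u : ℕ} (hu : a ≤ u) (hub : u + (m + 1) < b) {x y : ℤ}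
    (hx : |ℓ u x - r| ≤ κ * w u - 1) (hy : y ∈ B (u + 1 + m + 1)) (hyr : |ℓ (u + 1 + m + 1) y - r| ≤ κ * w (u + 1 + m) - 1) :
    Real.exp (-((∑ v ∈ Ico u (u + 1 + m + 1), e v) * gr P (|r| / wt + κ) * Et)) ≤ cmp k B (m + 2) u x y := by
  obtain ⟨z, hz, hzr⟩ := hB (u + 1) (by omega) (by omega)
  have h1 := cmp_low h hκ hw1 hlow r hB m (u + 1) (by omega) (by omega) z hzr y hy hyr
  have h2 : |ℓ (u + 1) z - ℓ u x| ≤ κ * w u := by
    have h3 := abs_add_le (ℓ (u + 1) z - r) (r - ℓ u x)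
    rw [sub_add_sub_cancel, abs_sub_comm r] at h3
    linarith
  have h3 := hlow u hu (by omega) x z hz h2
  have h4 := h.lev_near (κ := κ) (by linarith) r hu (by omega) (x := x) (by linarith)
  show _ ≤ ∑ z ∈ B (u + 1), k u x z * cmp k B (m + 1) (u + 1) z y
  refine le_trans ?_ (single_le_sum (f := fun z => k u x z * cmp k B (m + 1) (u + 1) z y)
    (fun z _ => mul_nonneg (h.k0 _ _ _) (cmp_nonneg h.k0 B _ _ _ _)) hz)
  refine le_trans ?_ (mul_le_mul h3 h1 (Real.exp_pos _).le (h.k0 _ _ _))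
  rw [← Real.exp_add]
  refine Real.exp_le_exp.2 ?_
  have e1 : ∑ v ∈ Ico u (u + 1 + m + 1), e v = e u + ∑ v ∈ Ico (u + 1) (u + 1 + m + 1), e v :=
    Finset.sum_eq_sum_Ico_succ_bot (by omega) _
  rw [e1]
  have e2 : (e u + ∑ v ∈ Ico (u + 1) (u + 1 + m + 1), e v) * gr P (|r| / wt + κ) * Et =
      e u * gr P (|r| / wt + κ) * Et + (∑ v ∈ Ico (u + 1) (u + 1 + m + 1), e v) * gr P (|r| / wt + κ) * Et := by
    ring
  rw [e2]
  linarith

end

end Pool.Agent.W_7d29a1_C1.FarK89
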