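import Pool.Agent.W_7d29a1_C1.DD84
import Pool.Agent.W_7d29a1_C1.FarK89

/-!
[C1] attractor route, DD84 (helper84): the regularity of the mass of a row from the arms and the levels of the slabs (`Env'` of `FarK89`).

* `mass_cmp`: the masses of the rows through the composed kernels;
* `dd_env`: the place `x` has arms in the window `Z` of the row `u + m + 2`: its mass against the mass of the near places `x'`;
* `lq_le`: the level of the composition is at most a square of the sum of the levels.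
-/

set_option autoImplicit false

namespace Pool.Agent.W_7d29a1_C1.DD84

open Finset Pool.Agent.W_7d29a1_C1.FarK89

section Env

variable {P : ℕ} {c c₂ Et wt : ℝ} {q E w e s : ℕ → ℝ} {ℓ : ℕ → ℤ → ℝ} {k : ℕ → ℤ → ℤ → ℝ} {B : ℕ → Finset ℤ}

/-- The masses of the rows through the composed kernels. -/
theorem mass_cmp {G : ℕ → ℤ → ℝ} {u₀ M : ℕ}
    (hG : ∀ v, u₀ ≤ v → v < M → ∀ x, G v x = ∑ z ∈ B (v + 1), k v x z * G (v + 1) z) (m : ℕ) :
    ∀ u, u₀ ≤ u → u + (m + 1) ≤ M → ∀ x, G u x = ∑ z ∈ B (u + (m + 1)), cmp k B (m + 1) u x z * G (u + (m + 1)) z := by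
  induction m with
  | zero =>
    intro u hu0 hu x
    rw [hG u hu0 (by omega) x]
    refine sum_congr rfl fun z hz => ?_
    rw [show 0 + 1 = 1 from rfl, cmp_one u x hz]
  | succ m ih =>
    intro u hu0 hu x
    rw [hG u hu0 (by omega) x]
    have h1 : ∀ z ∈ B (u + 1), k u x z * G (u + 1) z =
        ∑ y ∈ B (u + (m + 1 + 1)), k u x z * cmp k B (m + 1) (u + 1) z y * G (u + (m + 1 + 1)) y := by
      intro z _
      rw [ih (u + 1) (by omega) (by omega) z, mul_sum, show u + 1 + (m + 1) = u + (m + 1 + 1) by omega]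
      exact sum_congr rfl fun y _ => (mul_assoc _ _ _).symm
    rw [sum_congr rfl h1, sum_comm]
    refine sum_congr rfl fun y _ => ?_
    show _ = (∑ z ∈ B (u + 1), k u x z * cmp k B (m + 1) (u + 1) z y) * _
    rw [sum_mul]

/-- **The arms of one place and the levels of the slabs.** -/
theorem dd_env {u m : ℕ} (h : Env' P c c₂ Et wt q E w e s ℓ k B u (u + (m + 2))) {κ c₁ c₃ Q S Pa r : ℝ} (hc₁ : 0 < c₁) (hc₃ : 0 ≤ c₃)
    (hcc : c₁ + c₂ + c₃ ≤ c) (hQ : ∑ v ∈ Ico u (u + (m + 2)), e v ≤ Q) (hS : ∑ v ∈ Ico u (u + (m + 2)), s v ≤ S) (hκ : 1 ≤ κ)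
    (hw1 : ∀ v, u ≤ v → v < u + (m + 2) → 2 ≤ w v)
    (hlow : ∀ v, u ≤ v → v < u + (m + 2) → ∀ x, ∀ y ∈ B (v + 1), |ℓ (v + 1) y - ℓ v x| ≤ κ * w v →
      Real.exp (-(q v * gr P (|ℓ v x| / w v) * E v)) ≤ k v x y)
    (hB : ∀ v, u < v → v < u + (m + 2) → ∃ z ∈ B v, |ℓ v z - r| ≤ 1)
    {F G : ℤ → ℝ} (hG : ∀ z, 0 ≤ G z) (hF : ∀ x, F x = ∑ z ∈ B (u + (m + 2)), cmp k B (m + 2) u x z * G z)
    {Z : Finset ℤ} (hZ : ∀ z ∈ Z, z ∈ B (u + (m + 2)) ∧ |ℓ (u + (m + 2)) z - r| ≤ κ * w (u + (m + 1)) - 1) (hPa : 0 ≤ Pa)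
    {x x' : ℤ} (harm : F x ≤ Pa * ∑ z ∈ Z, cmp k B (m + 2) u x z * G z) (hx' : |ℓ u x' - r| ≤ κ * w u - 1) :
    F x ≤ Pa * Real.exp ((LQ P c₁ Q * gr P (|ℓ u x| / wt) + S + Q * gr P (|r| / wt + κ)) * Et) * F x' := by
  have hwt := h.wt0
  have hEt := h.Et0
  have hgr : 0 ≤ gr P (|r| / wt + κ) := gr_nonneg P (by positivity)
  have key := dd_arms (F := F) (G := G) (k := cmp k B (m + 2) u) (S := fun _ => B (u + (m + 2))) (X := fun y => y = x)
    (X' := fun y => y = x') (Z := Z) (P := Pa) (a := (LQ P c₁ Q * gr P (|ℓ u x| / wt) + S) * Et)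
    (a' := Q * gr P (|r| / wt + κ) * Et) (fun y z => cmp_nonneg h.k0 B _ _ _ _) hG hF hPa ?_ ?_ ?_ ?_ x x' rfl rfl
  · rwa [show (LQ P c₁ Q * gr P (|ℓ u x| / wt) + S) * Et + Q * gr P (|r| / wt + κ) * Et =
      (LQ P c₁ Q * gr P (|ℓ u x| / wt) + S + Q * gr P (|r| / wt + κ)) * Et by ring] at key
  · intro y hy
    rw [hy]
    exact harm
  · intro y hy z hz
    rw [hy]
    refine (cmp_up' h hc₁ hc₃ hcc hQ hS le_rfl (m := m + 2) le_rfl x z).trans (Real.exp_le_exp.2 ?_)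
    have : 0 ≤ c₃ * (Et / wt) * |ℓ (u + (m + 2)) z - ℓ u x| := by positivity
    linarith
  · intro y _ z hz
    exact (hZ z hz).1
  · intro y hy z hz
    rw [hy]
    obtain ⟨h1, h2⟩ := hZ z hz
    have e1 : u + 1 + m + 1 = u + (m + 2) := by omega
    have e2 : u + 1 + m = u + (m + 1) := by omega
    have h3 := cmp_low2 h hκ hw1 hlow r hB (m := m) (u := u) le_rfl (by omega) (x := x') (y := z) hx' (by rw [e1]; exact h1)
      (by rw [e1, e2]; exact h2)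
    rw [e1] at h3
    refine le_trans (Real.exp_le_exp.2 ?_) h3
    have h4 := mul_le_mul_of_nonneg_right (mul_le_mul_of_nonneg_right hQ hgr) hEt.le
    linarith

end Env

/-- The constant of the square. -/
noncomputable def CL (P : ℕ) (c₁ : ℝ) : ℝ := CP P * (1 + 2 * (P + 1) * CP P / c₁)

theorem CL_pos (P : ℕ) {c₁ : ℝ} (hc₁ : 0 < c₁) : 0 < CL P c₁ := by
  have := CP_pos P
  unfold CL
  positivity

/-- The level of a composition is at most the square of the sum of the levels. -/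
theorem lq_le (P : ℕ) {c₁ Q : ℝ} (hc₁ : 0 < c₁) (hQ : 0 ≤ Q) : LQ P c₁ Q ≤ CL P c₁ * (1 + Q) ^ 2 := by
  have hCP := CP_pos P
  obtain ⟨D, hD⟩ : ∃ D : ℝ, D = 2 * (P + 1) * CP P / c₁ := ⟨_, rfl⟩
  have hD0 : 0 < D := by rw [hD]; positivity
  have hA : AQ P c₁ Q = (D * Q) ^ 2 := by
    unfold AQ
    rw [hD]
    congr 1
    ring
  have h1 : gr P (AQ P c₁ Q) ≤ CP P * (1 + D * Q) := by
    unfold gr
    refine (log_pow_le P (Y := 1 + AQ P c₁ Q) (by linarith [AQ_nonneg P c₁ Q])).trans ?_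
    refine mul_le_mul_of_nonneg_left ?_ hCP.le
    rw [hA]
    refine Real.sqrt_le_iff.2 ⟨by positivity, ?_⟩
    nlinarith [mul_nonneg hD0.le hQ]
  unfold LQ CL
  rw [← hD]
  calc Q * gr P (AQ P c₁ Q) ≤ Q * (CP P * (1 + D * Q)) := mul_le_mul_of_nonneg_left h1 hQ
    _ = CP P * (Q * (1 + D * Q)) := by ring
    _ ≤ CP P * ((1 + D) * (1 + Q) ^ 2) := by
      refine mul_le_mul_of_nonneg_left ?_ hCP.le
      nlinarith [mul_nonneg hD0.le hQ, sq_nonneg Q]
    _ = CP P * (1 + D) * (1 + Q) ^ 2 := by ring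

end Pool.Agent.W_7d29a1_C1.DD84
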