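import Mathlib

/-!
Both halves (MP_7d29a1_pr), attractor route: the depths of the damages (crossing windows). Abstract form. (helper49)

`D k ω` = depth of the damage made by the annulus `k`. If replacing all annuli of depth at least `l` at once costs
`B ^ (1 + l)` per annulus and a depth `j` has small ball price `(r ^ 4) ^ j`, then, whatever `r < 1` and `B` are, the
weight of `total depth of the damages of depth at least L is at least θ m` is exponentially small, for a constant `L`.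
-/

set_option autoImplicit false

namespace Pool.Agent.W_7d29a1_C1.H49

open MeasureTheory Finset Filter Topology
open scoped ENNReal

/-! ### Deterministic part: pigeonhole on the threshold -/

/-- Number of depths at least `l`. -/
def cnt {m : ℕ} (l : ℕ) (d : Fin m → ℕ) : ℕ := (univ.filter fun k => l ≤ d k).card

/-- Total of the depths which are at least `l`. -/
def tot {m : ℕ} (l : ℕ) (d : Fin m → ℕ) : ℕ := ∑ k ∈ univ.filter (fun k => l ≤ d k), d k

variable {m : ℕ}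

theorem cnt_le (l : ℕ) (d : Fin m → ℕ) : cnt l d ≤ m := by
  unfold cnt
  refine (card_filter_le _ _).trans ?_
  simp

theorem tot_anti {l l' : ℕ} (h : l ≤ l') (d : Fin m → ℕ) : tot l' d ≤ tot l d := by
  unfold tot
  refine sum_le_sum_of_subset_of_nonneg ?_ (fun _ _ _ => Nat.zero_le _)
  intro k hk
  simp only [mem_filter, mem_univ, true_and] at hk ⊢
  omega

theorem sum_cnt_le {l₀ L : ℕ} (h0 : 1 ≤ l₀) (d : Fin m → ℕ) : ∑ l ∈ Icc l₀ L, cnt l d ≤ tot l₀ d := by
  classical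
  have h1 : ∑ l ∈ Icc l₀ L, cnt l d = ∑ k : Fin m, ((Icc l₀ L).filter fun l => l ≤ d k).card := by
    unfold cnt
    simp only [card_filter]
    rw [sum_comm]
  rw [h1]
  unfold tot
  rw [sum_filter]
  refine sum_le_sum fun k _ => ?_
  by_cases hk : l₀ ≤ d k
  · rw [if_pos hk]
    have : ((Icc l₀ L).filter fun l => l ≤ d k) ⊆ Icc 1 (d k) := by
      intro l hl
      simp only [mem_filter, mem_Icc] at hl ⊢
      omega
    calc _ ≤ (Icc 1 (d k)).card := card_le_card this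
      _ = d k := by simp
  · rw [if_neg hk]
    have : ((Icc l₀ L).filter fun l => l ≤ d k) = ∅ := by
      ext l
      simp only [mem_filter, mem_Icc, notMem_empty, iff_false]
      omega
    rw [this]
    simp

/-- Pigeonhole on the threshold: the constant `L` does not depend on the number of scales nor on the depths. -/
theorem exists_threshold (lam l₀ : ℕ) (h0 : 1 ≤ l₀) {th : ℝ} (hth : 0 < th) : ∃ L : ℕ, l₀ ≤ L ∧
    ∀ (m : ℕ) (d : Fin m → ℕ), th * m ≤ tot L d →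
      ∃ l, l₀ ≤ l ∧ l ≤ L ∧ tot L d ≤ tot l d ∧ lam * (1 + l) * cnt l d ≤ tot l d := by
  classical
  -- harmonic series
  have hT := Real.tendsto_sum_range_one_div_nat_succ_atTop
  set G : ℝ := ∑ i ∈ range l₀, (1 : ℝ) / (i + 1) with hG
  obtain ⟨N, hN⟩ := (tendsto_atTop.1 hT (G + ((lam : ℝ) * (1 + l₀)) * (lam : ℝ) / th + 1)).exists_forall_of_atTop
  refine ⟨max l₀ N, le_max_left _ _, fun m d hd => ?_⟩
  set L := max l₀ N with hL
  by_contra hcon
  push Not at hcon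
  have hlt : ∀ l ∈ Icc l₀ L, tot l d < lam * (1 + l) * cnt l d := by
    intro l hl
    rw [mem_Icc] at hl
    exact hcon l hl.1 hl.2 (tot_anti hl.2 d)
  have hlam : 0 < lam := by
    rcases Nat.eq_zero_or_pos lam with h | h
    · have := hlt l₀ (mem_Icc.2 ⟨le_rfl, le_max_left _ _⟩)
      rw [h] at this
      simp at this
    · exact h
  have hlamR : (0 : ℝ) < lam := by exact_mod_cast hlam
  -- lower bounds for the counts
  have hc : ∀ l ∈ Icc l₀ L, th * m / (lam * (1 + l)) ≤ (cnt l d : ℝ) := by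
    intro l hl
    have h1 := hlt l hl
    have h2 : tot L d ≤ tot l d := tot_anti (mem_Icc.1 hl).2 d
    have h3 : (th * m : ℝ) ≤ lam * (1 + l) * cnt l d := by
      have h4 : ((tot L d : ℕ) : ℝ) ≤ (lam * (1 + l) * cnt l d : ℕ) := by exact_mod_cast (h2.trans h1.le)
      push_cast at h4
      linarith
    rw [div_le_iff₀ (by positivity)]
    linarith
  have hS : ∑ l ∈ Icc l₀ L, th * m / (lam * (1 + l)) ≤ (tot l₀ d : ℝ) := by
    calc ∑ l ∈ Icc l₀ L, th * m / (lam * (1 + l)) ≤ ∑ l ∈ Icc l₀ L, (cnt l d : ℝ) := sum_le_sum hc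
      _ = ((∑ l ∈ Icc l₀ L, cnt l d : ℕ) : ℝ) := by push_cast; rfl
      _ ≤ _ := by exact_mod_cast sum_cnt_le h0 d
  have hX : (tot l₀ d : ℝ) < lam * (1 + l₀) * m := by
    have h1 := hlt l₀ (mem_Icc.2 ⟨le_rfl, le_max_left _ _⟩)
    have h2 := cnt_le l₀ d
    have h3 : tot l₀ d < lam * (1 + l₀) * m := lt_of_lt_of_le h1 (Nat.mul_le_mul_left _ h2)
    exact_mod_cast h3
  have hm : (0 : ℝ) < m := by
    have h4 : (0 : ℝ) ≤ tot l₀ d := Nat.cast_nonneg _
    by_contra h5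
    push Not at h5
    have h6 : (lam : ℝ) * (1 + l₀) * m ≤ 0 := mul_nonpos_of_nonneg_of_nonpos (by positivity) h5
    linarith
  -- the harmonic sum
  have hsum : ∑ l ∈ Icc l₀ L, (1 : ℝ) / (l + 1) = ∑ i ∈ range (L + 1), (1 : ℝ) / (i + 1) - G := by
    have h7 : range (L + 1) = range l₀ ∪ Icc l₀ L := by
      ext i
      simp only [mem_range, mem_union, mem_Icc]
      have : l₀ ≤ L := le_max_left _ _
      omega
    have h8 : Disjoint (range l₀) (Icc l₀ L) := by
      rw [disjoint_left]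
      intro i hi
      simp only [mem_range, mem_Icc] at hi ⊢
      omega
    rw [h7, sum_union h8]
    ring
  have hbig : (lam : ℝ) * (1 + l₀) * lam / th + 1 ≤ ∑ l ∈ Icc l₀ L, (1 : ℝ) / (l + 1) := by
    rw [hsum]
    have := hN (L + 1) (by have : N ≤ L := le_max_right _ _; omega)
    linarith
  have hfac : ∑ l ∈ Icc l₀ L, th * m / (lam * (1 + l)) = th * m / lam * ∑ l ∈ Icc l₀ L, (1 : ℝ) / (l + 1) := by
    rw [mul_sum]
    refine sum_congr rfl fun l _ => ?_
    have : (0 : ℝ) < 1 + l := by positivity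
    field_simp
    ring
  rw [hfac] at hS
  have h9 : th * m / lam * ((lam : ℝ) * (1 + l₀) * lam / th + 1) ≤ tot l₀ d :=
    le_trans (mul_le_mul_of_nonneg_left hbig (by positivity)) hS
  have h10 : th * m / lam * ((lam : ℝ) * (1 + l₀) * lam / th + 1) = lam * (1 + l₀) * m + th * m / lam := by
    field_simp
  have h11 : 0 < th * m / lam := by positivity
  linarith

/-! ### Sum over the patterns -/

variable {Ω : Type*} [MeasurableSpace Ω] {P : Measure Ω}

/-- Event `the depths on `kk` are at least `j`, the others are below `l``. -/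
def pat {m : ℕ} (D : Fin m → Ω → ℕ) (l : ℕ) (kk : Finset (Fin m)) (j : Fin m → ℕ) : Set Ω :=
  {ω | (∀ k ∈ kk, j k ≤ D k ω) ∧ ∀ k, k ∉ kk → D k ω < l}

/-- The hypothesis: price of a pattern with threshold `l`. -/
def Price {m : ℕ} (P : Measure Ω) (W : Ω → ℝ≥0∞) (D : Fin m → Ω → ℕ) (A B r : ℝ) (l : ℕ) : Prop :=
  ∀ (kk : Finset (Fin m)) (j : Fin m → ℕ), (∀ k ∈ kk, l ≤ j k) →
    ∫⁻ ω in pat D l kk j, W ω ∂P ≤
      ENNReal.ofReal (∏ k ∈ kk, (A * B ^ (1 + l) * (r ^ 4) ^ j k)) * ∫⁻ ω, W ω ∂P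

theorem Price.trunc {W : Ω → ℝ≥0∞} {D : Fin m → Ω → ℕ} {A B r : ℝ} {l : ℕ} (h : Price P W D A B r l)
    {M : ℕ} (hM : l ≤ M) : Price P W (fun k ω => min (D k ω) M) A B r l := by
  intro kk j hj
  refine le_trans (lintegral_mono_set ?_) (h kk j hj)
  rintro ω ⟨h1, h2⟩
  refine ⟨fun k hk => (h1 k hk).trans (min_le_left _ _), fun k hk => ?_⟩
  have := h2 k hk
  simp only [min_lt_iff] at this
  omega

theorem real_bound {r A B : ℝ} (hr0 : 0 < r) (hr1 : r < 1) (hA : 0 ≤ A) (hB : 0 ≤ B) {lam l n X K : ℕ}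
    (hA1 : A * r ^ (lam * (1 + l)) ≤ 1) (hB1 : B * r ^ lam ≤ 1) (hX : lam * (1 + l) * n ≤ X) (hK : K ≤ X) :
    A ^ n * B ^ ((1 + l) * n) * r ^ (4 * X) ≤ r ^ K * r ^ X := by
  have e1 : r ^ (4 * X) = r ^ (2 * X) * r ^ (2 * X) := by rw [← pow_add]; congr 1; ring
  have h1 : r ^ (2 * X) ≤ r ^ K * r ^ X := by
    rw [← pow_add]
    exact pow_le_pow_of_le_one hr0.le hr1.le (by omega)
  have h2 : r ^ (2 * X) ≤ r ^ (lam * (1 + l) * n) * r ^ (lam * (1 + l) * n) := by
    rw [← pow_add]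
    exact pow_le_pow_of_le_one hr0.le hr1.le (by omega)
  have h3 : A ^ n * B ^ ((1 + l) * n) * (r ^ (lam * (1 + l) * n) * r ^ (lam * (1 + l) * n)) ≤ 1 := by
    have e2 : A ^ n * B ^ ((1 + l) * n) * (r ^ (lam * (1 + l) * n) * r ^ (lam * (1 + l) * n)) =
        (A * r ^ (lam * (1 + l))) ^ n * (B * r ^ lam) ^ ((1 + l) * n) := by
      rw [mul_pow, mul_pow, ← pow_mul, ← pow_mul]
      have : lam * ((1 + l) * n) = lam * (1 + l) * n := by ring
      rw [this]
      ring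
    rw [e2]
    exact mul_le_one₀ (pow_le_one₀ (by positivity) hA1) (by positivity) (pow_le_one₀ (by positivity) hB1)
  have h4 : 0 ≤ A ^ n * B ^ ((1 + l) * n) := by positivity
  have h5 : 0 ≤ r ^ (2 * X) := by positivity
  calc A ^ n * B ^ ((1 + l) * n) * r ^ (4 * X)
      = (A ^ n * B ^ ((1 + l) * n) * r ^ (2 * X)) * r ^ (2 * X) := by rw [e1]; ring
    _ ≤ (A ^ n * B ^ ((1 + l) * n) * (r ^ (lam * (1 + l) * n) * r ^ (lam * (1 + l) * n))) * r ^ (2 * X) := by
        gcongr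
    _ ≤ 1 * r ^ (2 * X) := mul_le_mul_of_nonneg_right h3 h5
    _ ≤ _ := by rw [one_mul]; exact h1

/-- ONE THRESHOLD, bounded depths. -/
theorem one_threshold {W : Ω → ℝ≥0∞} {D : Fin m → Ω → ℕ} {A B r : ℝ} {l M : ℕ} (hl : 1 ≤ l)
    (hr0 : 0 < r) (hr1 : r < 1) (hA : 0 ≤ A) (hB : 0 ≤ B) {lam : ℕ}
    (hA1 : A * r ^ (lam * (1 + l)) ≤ 1) (hB1 : B * r ^ lam ≤ 1)
    (h : Price P W D A B r l) (hD : ∀ k ω, D k ω ≤ M) (K : ℕ) :
    ∫⁻ ω in {ω | K ≤ tot l (fun k => D k ω) ∧ lam * (1 + l) * cnt l (fun k => D k ω) ≤ tot l fun k => D k ω},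
      W ω ∂P ≤ ENNReal.ofReal (r ^ K * (1 + r ^ l / (1 - r)) ^ m) * ∫⁻ ω, W ω ∂P := by
  classical
  set S : Finset ℕ := insert 0 (Icc l M) with hS
  have h0S : (0 : ℕ) ∉ Icc l M := by simp only [mem_Icc]; omega
  set g : ℕ → ℝ := fun j => if j = 0 then 1 else r ^ j with hg
  set good : Finset (Fin m → ℕ) := (Fintype.piFinset fun _ : Fin m => S).filter
    (fun x => K ≤ tot l x ∧ lam * (1 + l) * cnt l x ≤ tot l x) with hgood
  -- the support of a pattern
  set sp : (Fin m → ℕ) → Finset (Fin m) := fun x => univ.filter fun k => l ≤ x k with hsp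
  have hsub : {ω | K ≤ tot l (fun k => D k ω) ∧ lam * (1 + l) * cnt l (fun k => D k ω) ≤
      tot l fun k => D k ω} ⊆ ⋃ x : {x // x ∈ good}, pat D l (sp x.1) x.1 := by
    intro ω hω
    set x : Fin m → ℕ := fun k => if l ≤ D k ω then D k ω else 0 with hx
    have hxl : ∀ k, l ≤ x k ↔ l ≤ D k ω := by
      intro k
      simp only [hx]
      split_ifs with h1
      · simp
      · constructor
        · intro h2; omega
        · intro h2; exact absurd h2 h1
    have ef : (univ.filter fun k => l ≤ x k) = univ.filter fun k => l ≤ D k ω := by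
      ext k; simp only [mem_filter, mem_univ, true_and]; exact hxl k
    have e1 : tot l x = tot l fun k => D k ω := by
      unfold tot
      rw [ef]
      refine sum_congr rfl fun k hk => ?_
      simp only [mem_filter, mem_univ, true_and] at hk
      simp only [hx, if_pos hk]
    have e2 : cnt l x = cnt l fun k => D k ω := by
      unfold cnt
      rw [ef]
    have hxg : x ∈ good := by
      rw [hgood, mem_filter, Fintype.mem_piFinset, e1, e2]
      refine ⟨fun k => ?_, hω⟩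
      simp only [hx, hS, mem_insert, mem_Icc]
      split_ifs with h1
      · right; exact ⟨h1, hD k ω⟩
      · left; rfl
    refine Set.mem_iUnion.2 ⟨⟨x, hxg⟩, ?_⟩
    refine ⟨fun k hk => ?_, fun k hk => ?_⟩
    · simp only [hsp, mem_filter, mem_univ, true_and, hxl] at hk
      simp only [hx, if_pos hk, le_refl]
    · simp only [hsp, mem_filter, mem_univ, true_and, hxl] at hk
      omega
  have hpat : ∀ x ∈ good, ∏ k ∈ sp x, (A * B ^ (1 + l) * (r ^ 4) ^ x k) ≤ r ^ K * ∏ k, g (x k) := by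
    intro x hx
    rw [hgood, mem_filter, Fintype.mem_piFinset] at hx
    obtain ⟨hxS, hK, hlam⟩ := hx
    have e1 : ∏ k ∈ sp x, (A * B ^ (1 + l) * (r ^ 4) ^ x k) =
        A ^ cnt l x * B ^ ((1 + l) * cnt l x) * r ^ (4 * tot l x) := by
      rw [prod_mul_distrib, prod_mul_distrib, prod_const, prod_const, ← pow_mul]
      have : ∏ k ∈ sp x, (r ^ 4) ^ x k = r ^ (4 * tot l x) := by
        unfold tot
        rw [mul_sum, ← prod_pow_eq_pow_sum]
        exact prod_congr rfl fun k _ => by rw [← pow_mul]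
      rw [this]
      rfl
    have e2 : ∏ k, g (x k) = r ^ tot l x := by
      unfold tot
      rw [← prod_pow_eq_pow_sum, prod_filter]
      refine prod_congr rfl fun k _ => ?_
      have hk := hxS k
      simp only [hS, mem_insert, mem_Icc] at hk
      simp only [hg]
      by_cases hk0 : x k = 0
      · rw [if_pos hk0, if_neg (by omega)]
      · rw [if_neg hk0, if_pos (by omega)]
    rw [e1, e2]
    exact real_bound hr0 hr1 hA hB hA1 hB1 hlam hK
  have hgnn : ∀ j, 0 ≤ g j := by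
    intro j
    simp only [hg]
    split_ifs
    · exact zero_le_one
    · positivity
  have hsumg : ∑ j ∈ S, g j ≤ 1 + r ^ l / (1 - r) := by
    rw [hS, sum_insert h0S]
    have h1 : g 0 = 1 := by simp [hg]
    rw [h1]
    have h2 : ∑ j ∈ Icc l M, g j = ∑ j ∈ Icc l M, r ^ j := by
      refine sum_congr rfl fun j hj => ?_
      rw [mem_Icc] at hj
      simp only [hg]
      rw [if_neg (by omega)]
    rw [h2]
    have h3 : ∑ j ∈ Icc l M, r ^ j ≤ r ^ l / (1 - r) := by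
      have h4 : Icc l M = Ico l (M + 1) := by
        ext i
        simp only [mem_Icc, mem_Ico]
        omega
      rw [h4, sum_Ico_eq_sum_range]
      simp only [pow_add]
      rw [← mul_sum, div_eq_mul_inv]
      refine mul_le_mul_of_nonneg_left ?_ (by positivity)
      have h5 := Summable.sum_le_tsum (range (M + 1 - l)) (fun i _ => pow_nonneg hr0.le i)
        (summable_geometric_of_lt_one hr0.le hr1)
      rwa [tsum_geometric_of_lt_one hr0.le hr1] at h5
    linarith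
  have hsum : ∑ x ∈ good, ∏ k, g (x k) ≤ (1 + r ^ l / (1 - r)) ^ m := by
    calc ∑ x ∈ good, ∏ k, g (x k) ≤ ∑ x ∈ Fintype.piFinset fun _ : Fin m => S, ∏ k, g (x k) :=
          sum_le_sum_of_subset_of_nonneg (filter_subset _ _) fun x _ _ => prod_nonneg fun k _ => hgnn _
      _ = ∏ _k : Fin m, ∑ j ∈ S, g j := (prod_univ_sum (fun _ : Fin m => S) fun _ j => g j).symm
      _ = (∑ j ∈ S, g j) ^ m := by simp
      _ ≤ _ := pow_le_pow_left₀ (sum_nonneg fun j _ => hgnn j) hsumg m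
  calc _ ≤ ∫⁻ ω in ⋃ x : {x // x ∈ good}, pat D l (sp x.1) x.1, W ω ∂P := lintegral_mono_set hsub
    _ ≤ ∑' x : {x // x ∈ good}, ∫⁻ ω in pat D l (sp x.1) x.1, W ω ∂P := lintegral_iUnion_le _ _
    _ = ∑ x ∈ good, ∫⁻ ω in pat D l (sp x) x, W ω ∂P := by
        rw [tsum_fintype]
        exact (sum_coe_sort good fun x => ∫⁻ ω in pat D l (sp x) x, W ω ∂P)
    _ ≤ ∑ x ∈ good, ENNReal.ofReal (r ^ K * ∏ k, g (x k)) * ∫⁻ ω, W ω ∂P := by
        refine sum_le_sum fun x hx => ?_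
        refine (h (sp x) x (fun k hk => by simpa [hsp] using hk)).trans ?_
        gcongr
        exact hpat x hx
    _ = (∑ x ∈ good, ENNReal.ofReal (r ^ K * ∏ k, g (x k))) * ∫⁻ ω, W ω ∂P := by rw [sum_mul]
    _ = ENNReal.ofReal (∑ x ∈ good, r ^ K * ∏ k, g (x k)) * ∫⁻ ω, W ω ∂P := by
        rw [ENNReal.ofReal_sum_of_nonneg]
        intro x _
        exact mul_nonneg (by positivity) (prod_nonneg fun k _ => hgnn _)
    _ ≤ _ := by
        gcongr
        rw [← mul_sum]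
        exact mul_le_mul_of_nonneg_left hsum (by positivity)

theorem final {Ω : Type*} [MeasurableSpace Ω] {P : Measure Ω} {W : Ω → ℝ≥0∞} {D : Fin m → Ω → ℕ}
    {A B r th q : ℝ} {lam n₁ n₂ L K : ℕ} (hr0 : 0 < r) (hr1 : r < 1) (hA : 0 ≤ A) (hB : 0 ≤ B)
    (hq0 : 0 < q) (hqr : q * q = r) (hlam1 : 1 ≤ lam)
    (hlam : B * r ^ lam ≤ 1) (hn₁ : ∀ b : ℕ, n₁ ≤ b → A * r ^ b < 1)
    (hn₂ : ∀ b : ℕ, n₂ ≤ b → 1 + r ^ b / (1 - r) < q ^ (-th)) (hL1 : max 1 (max n₁ n₂) ≤ L)
    (hL2 : ∀ (m : ℕ) (d : Fin m → ℕ), th * m ≤ tot L d →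
      ∃ l, max 1 (max n₁ n₂) ≤ l ∧ l ≤ L ∧ tot L d ≤ tot l d ∧ lam * (1 + l) * cnt l d ≤ tot l d)
    (hP : ∀ l, 1 ≤ l → l ≤ L → Price P W D A B r l) (hK : th * m ≤ K) :
    ∫⁻ ω in {ω | K ≤ tot L fun k => D k ω}, W ω ∂P ≤ ENNReal.ofReal (L * q ^ K) * ∫⁻ ω, W ω ∂P := by
  classical
  set M : ℕ := max K L with hM
  set D' : Fin m → Ω → ℕ := fun k ω => min (D k ω) M with hD'
  set l₀ : ℕ := max 1 (max n₁ n₂) with hl₀
  -- truncation
  have htr : ∀ ω, K ≤ (tot L fun k => D k ω) → K ≤ tot L fun k => D' k ω := by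
    intro ω hω
    by_cases hbig : ∃ k, M ≤ D k ω
    · obtain ⟨k, hk⟩ := hbig
      have h1 : D' k ω = M := by simp only [hD']; omega
      have h2 : D' k ω ≤ tot L fun k => D' k ω := by
        unfold tot
        refine single_le_sum (f := fun k => D' k ω) (fun _ _ => Nat.zero_le _) ?_
        simp only [mem_filter, mem_univ, true_and]
        rw [h1]; exact le_max_right _ _
      rw [h1] at h2
      exact (le_max_left K L).trans h2
    · push Not at hbig
      have : (fun k => D' k ω) = fun k => D k ω := by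
        funext k
        have := hbig k
        simp only [hD']
        omega
      rw [this]; exact hω
  -- the union over the thresholds
  have hsub : {ω | K ≤ tot L fun k => D k ω} ⊆ ⋃ l : {l // l ∈ Icc l₀ L},
      {ω | K ≤ tot l.1 (fun k => D' k ω) ∧ lam * (1 + l.1) * cnt l.1 (fun k => D' k ω) ≤
        tot l.1 fun k => D' k ω} := by
    intro ω hω
    have h1 := htr ω hω
    obtain ⟨l, hl1, hl2, hl3, hl4⟩ := hL2 m (fun k => D' k ω) (hK.trans (by exact_mod_cast h1))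
    exact Set.mem_iUnion.2 ⟨⟨l, mem_Icc.2 ⟨hl1, hl2⟩⟩, h1.trans hl3, hl4⟩
  have hqm : ∀ l, l₀ ≤ l → r ^ K * (1 + r ^ l / (1 - r)) ^ m ≤ q ^ K := by
    intro l hl
    have h1 : 1 + r ^ l / (1 - r) < q ^ (-th) := hn₂ l (((le_max_right _ _).trans (le_max_right _ _)).trans hl)
    have h2 : (0 : ℝ) ≤ 1 + r ^ l / (1 - r) := by
      have : 0 < 1 - r := by linarith
      positivity
    have hq1 : q ≤ 1 := by nlinarith
    have h3 : (1 + r ^ l / (1 - r)) ^ m ≤ (q ^ (-th)) ^ m := pow_le_pow_left₀ h2 h1.le m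
    have h4 : (q ^ (-th)) ^ m = q ^ (-(th * m)) := by
      rw [← Real.rpow_natCast, ← Real.rpow_mul hq0.le]; congr 1; ring
    have h5 : q ^ (-(th * m)) ≤ q ^ (-(K : ℝ)) :=
      Real.rpow_le_rpow_of_exponent_ge hq0 hq1 (by linarith)
    have h6 : r ^ K * q ^ (-(K : ℝ)) = q ^ K := by
      rw [← hqr, mul_pow, Real.rpow_neg hq0.le, Real.rpow_natCast]
      field_simp
    calc r ^ K * (1 + r ^ l / (1 - r)) ^ m ≤ r ^ K * q ^ (-(K : ℝ)) := by
          refine mul_le_mul_of_nonneg_left ?_ (by positivity)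
          rw [h4] at h3
          exact h3.trans h5
      _ = q ^ K := h6
  have hone : ∀ l ∈ Icc l₀ L, ∫⁻ ω in {ω | K ≤ tot l (fun k => D' k ω) ∧
      lam * (1 + l) * cnt l (fun k => D' k ω) ≤ tot l fun k => D' k ω}, W ω ∂P ≤
        ENNReal.ofReal (q ^ K) * ∫⁻ ω, W ω ∂P := by
    intro l hl
    rw [mem_Icc] at hl
    have hl1 : 1 ≤ l := (le_max_left _ _).trans hl.1
    have hA1 : A * r ^ (lam * (1 + l)) ≤ 1 := by
      refine (hn₁ _ ?_).le
      have h7 : n₁ ≤ l := ((le_max_left _ _).trans (le_max_right _ _)).trans hl.1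
      calc n₁ ≤ l := h7
        _ ≤ 1 * (1 + l) := by omega
        _ ≤ lam * (1 + l) := Nat.mul_le_mul_right _ hlam1
    refine (one_threshold hl1 hr0 hr1 hA hB hA1 hlam ((hP l hl1 hl.2).trunc (M := M) (hl.2.trans (le_max_right _ _)))
      (fun k ω => min_le_right _ _) K).trans ?_
    gcongr
    exact hqm l hl.1
  calc _ ≤ ∑' l : {l // l ∈ Icc l₀ L}, ∫⁻ ω in {ω | K ≤ tot l.1 (fun k => D' k ω) ∧
        lam * (1 + l.1) * cnt l.1 (fun k => D' k ω) ≤ tot l.1 fun k => D' k ω}, W ω ∂P :=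
        (lintegral_mono_set hsub).trans (lintegral_iUnion_le _ _)
    _ = ∑ l ∈ Icc l₀ L, ∫⁻ ω in {ω | K ≤ tot l (fun k => D' k ω) ∧
        lam * (1 + l) * cnt l (fun k => D' k ω) ≤ tot l fun k => D' k ω}, W ω ∂P := by
        rw [tsum_fintype]
        exact sum_coe_sort (Icc l₀ L) fun l => ∫⁻ ω in {ω | K ≤ tot l (fun k => D' k ω) ∧
          lam * (1 + l) * cnt l (fun k => D' k ω) ≤ tot l fun k => D' k ω}, W ω ∂P
    _ ≤ ∑ _l ∈ Icc l₀ L, ENNReal.ofReal (q ^ K) * ∫⁻ ω, W ω ∂P := sum_le_sum hone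
    _ = (Icc l₀ L).card * (ENNReal.ofReal (q ^ K) * ∫⁻ ω, W ω ∂P) := by rw [sum_const, nsmul_eq_mul]
    _ ≤ (L : ℝ≥0∞) * (ENNReal.ofReal (q ^ K) * ∫⁻ ω, W ω ∂P) := by
        gcongr
        simp only [Nat.card_Icc]
        have : 1 ≤ l₀ := le_max_left _ _
        omega
    _ = _ := by
        rw [ENNReal.ofReal_mul (by positivity), ENNReal.ofReal_natCast, mul_assoc]

/-- ALL THRESHOLDS. `L` and `l₀` are constants: they do not depend on the number `m` of scales, the space, the weight. -/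
theorem damage (A B r th : ℝ) (hr0 : 0 < r) (hr1 : r < 1) (hA : 0 ≤ A) (hB : 0 ≤ B) (hth : 0 < th) :
    ∃ L : ℕ, 1 ≤ L ∧ ∃ s : ℝ, 0 < s ∧ s < 1 ∧ ∀ (m : ℕ) (Ω : Type) (_ : MeasurableSpace Ω) (P : Measure Ω)
      (W : Ω → ℝ≥0∞) (D : Fin m → Ω → ℕ), (∀ l, 1 ≤ l → l ≤ L → Price P W D A B r l) →
      ∀ K : ℕ, th * m ≤ K →
        ∫⁻ ω in {ω | K ≤ tot L fun k => D k ω}, W ω ∂P ≤ ENNReal.ofReal (L * s ^ K) * ∫⁻ ω, W ω ∂P := by
  classical
  -- `lam` with `B r ^ lam ≤ 1`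
  have hpow := tendsto_pow_atTop_nhds_zero_of_lt_one hr0.le hr1
  have hBt : Tendsto (fun n : ℕ => B * r ^ n) atTop (𝓝 (B * 0)) := hpow.const_mul B
  rw [mul_zero] at hBt
  obtain ⟨lam, hlam⟩ := ((tendsto_order.1 hBt).2 1 one_pos).exists
  -- `l₀`
  have hAt : Tendsto (fun n : ℕ => A * r ^ n) atTop (𝓝 (A * 0)) := hpow.const_mul A
  rw [mul_zero] at hAt
  obtain ⟨n₁, hn₁⟩ := ((tendsto_order.1 hAt).2 1 one_pos).exists_forall_of_atTop
  -- `1 + r ^ l / (1 - r) ≤ exp (delta)`, `exp (delta m) ≤ r ^ (- K / 2)`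
  set q : ℝ := Real.sqrt r with hq
  have hq0 : 0 < q := Real.sqrt_pos.2 hr0
  have hq1 : q < 1 := by
    rw [hq, Real.sqrt_lt' one_pos]
    simpa using hr1
  have hqr : q * q = r := Real.mul_self_sqrt hr0.le
  -- `q ^ (-th) > 1`
  have hgt : 1 < (q : ℝ) ^ (-th) := Real.one_lt_rpow_of_pos_of_lt_one_of_neg hq0 hq1 (by linarith)
  have hct : Tendsto (fun n : ℕ => 1 + r ^ n / (1 - r)) atTop (𝓝 (1 + 0 / (1 - r))) :=
    (hpow.div_const (1 - r)).const_add 1
  rw [zero_div, add_zero] at hct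
  obtain ⟨n₂, hn₂⟩ := ((tendsto_order.1 hct).2 _ hgt).exists_forall_of_atTop
  by_cases hlam0 : lam = 0
  · -- `B ≤ 1`: take `lam = 1`
    subst hlam0
    have hB1 : B ≤ 1 := by simpa using hlam.le
    set l₀ : ℕ := max 1 (max n₁ n₂) with hl₀
    obtain ⟨L, hL1, hL2⟩ := exists_threshold 1 l₀ (le_max_left _ _) hth
    refine ⟨L, (le_max_left _ _).trans hL1, q, hq0, hq1, fun m Ω _ P W D hP K hK => ?_⟩
    exact final hr0 hr1 hA hB hq0 hqr le_rfl (by simp only [pow_one]; nlinarith) hn₁ hn₂ hL1 hL2 hP hK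
  · set l₀ : ℕ := max 1 (max n₁ n₂) with hl₀
    obtain ⟨L, hL1, hL2⟩ := exists_threshold lam l₀ (le_max_left _ _) hth
    refine ⟨L, (le_max_left _ _).trans hL1, q, hq0, hq1, fun m Ω _ P W D hP K hK => ?_⟩
    exact final hr0 hr1 hA hB hq0 hqr (by omega) hlam.le hn₁ hn₂ hL1 hL2 hP hK

end Pool.Agent.W_7d29a1_C1.H49
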