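import Mathlib

/-!
Both halves (MP_7d29a1_pr), attractor route, TAME: the depth of a layer or of a node. (helper6)

`B l` = `bad at the level l`, decreasing in `l`. `dep B D ω` = number of the levels `l < D` at which `ω` is bad: `ω` is good
at every level `l ≥ dep`, `l < D`. Moments: `∫ z ^ dep ≤ 1 + ε` for every fixed `z` if the tail is stretched exponential
in `Y θ ^ l` and `Y` is large.
-/

set_option autoImplicit false

namespace Pool.Agent.W_7d29a1_C1.Dep6

open MeasureTheory Finset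
open scoped ENNReal

variable {Ω : Type*}

open Classical in
/-- The number of bad levels below `D`. -/
noncomputable def dep (B : ℕ → Set Ω) (D : ℕ) (ω : Ω) : ℕ := ((range D).filter fun l => ω ∈ B l).card

theorem dep_le (B : ℕ → Set Ω) (D : ℕ) (ω : Ω) : dep B D ω ≤ D := by
  classical
  unfold dep
  exact (card_filter_le _ _).trans (le_of_eq (card_range D))

/-- **The levels below `dep` are the bad ones.** -/
theorem lt_dep {B : ℕ → Set Ω} (hB : Antitone B) {D l : ℕ} {ω : Ω} : l < dep B D ω ↔ l < D ∧ ω ∈ B l := by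
  classical
  unfold dep
  constructor
  · intro h
    by_contra hc
    have hsub : (range D).filter (fun l => ω ∈ B l) ⊆ range l := by
      intro k hk
      obtain ⟨h1, h2⟩ := mem_filter.1 hk
      rw [mem_range] at h1 ⊢
      by_contra h3
      exact hc ⟨lt_of_le_of_lt (not_lt.1 h3) h1, hB (not_lt.1 h3) h2⟩
    have := card_le_card hsub
    rw [card_range] at this
    omega
  · rintro ⟨h1, h2⟩
    have hsub : range (l + 1) ⊆ (range D).filter (fun l => ω ∈ B l) := by
      intro k hk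
      rw [mem_range] at hk
      exact mem_filter.2 ⟨mem_range.2 (by omega), hB (by omega) h2⟩
    have := card_le_card hsub
    rw [card_range] at this
    omega

theorem good {B : ℕ → Set Ω} (hB : Antitone B) {D l : ℕ} {ω : Ω} (h : dep B D ω ≤ l) (hl : l < D) : ω ∉ B l :=
  fun h1 => absurd (lt_dep hB |>.2 ⟨hl, h1⟩) (not_lt.2 h)

theorem dep_le_of {B : ℕ → Set Ω} (hB : Antitone B) {D l : ℕ} {ω : Ω} (h : ω ∉ B l) : dep B D ω ≤ l := by
  by_contra h1
  exact h (lt_dep hB |>.1 (not_le.1 h1)).2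

theorem dep_congr {B : ℕ → Set Ω} {D : ℕ} {ω ω' : Ω} (h : ∀ l, l < D → (ω ∈ B l ↔ ω' ∈ B l)) :
    dep B D ω = dep B D ω' := by
  classical
  unfold dep
  refine congrArg card (filter_congr fun l hl => ?_)
  exact h l (mem_range.1 hl)

theorem dep_mono_D (B : ℕ → Set Ω) {D D' : ℕ} (h : D ≤ D') (ω : Ω) : dep B D ω ≤ dep B D' ω := by
  classical
  unfold dep
  exact card_le_card (filter_subset_filter _ (range_subset_range.2 h))

theorem dep_mono {B B' : ℕ → Set Ω} (h : ∀ l, B l ⊆ B' l) (D : ℕ) (ω : Ω) : dep B D ω ≤ dep B' D ω := by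
  classical
  unfold dep
  exact card_le_card fun l hl => by
    obtain ⟨h1, h2⟩ := mem_filter.1 hl
    exact mem_filter.2 ⟨h1, h l h2⟩

variable [MeasurableSpace Ω] {P : Measure Ω}

theorem measurable_dep {B : ℕ → Set Ω} (hB : ∀ l, MeasurableSet (B l)) (D : ℕ) : Measurable (dep B D) := by
  classical
  have e : dep B D = fun ω => ∑ l ∈ range D, if ω ∈ B l then 1 else 0 := by
    funext ω
    unfold dep
    rw [card_filter]
  rw [e]
  exact Finset.measurable_sum _ fun l _ => Measurable.ite (hB l) measurable_const measurable_const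

/-- **The moment.** -/
theorem moment [IsProbabilityMeasure P] {B : ℕ → Set Ω} (hB : Antitone B) (mB : ∀ l, MeasurableSet (B l)) (D : ℕ)
    (z : ℝ≥0∞) : ∫⁻ ω, z ^ dep B D ω ∂P ≤ 1 + ∑ l ∈ range D, z ^ (l + 1) * P (B l) := by
  classical
  have hpt : ∀ ω, z ^ dep B D ω ≤ 1 + ∑ l ∈ range D, (B l).indicator (fun _ => z ^ (l + 1)) ω := by
    intro ω
    rcases Nat.eq_zero_or_pos (dep B D ω) with h | h
    · rw [h, pow_zero]; exact le_self_add
    · obtain ⟨l, hl⟩ : ∃ l, dep B D ω = l + 1 := ⟨dep B D ω - 1, by omega⟩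
      obtain ⟨h1, h2⟩ := (lt_dep hB (D := D) (l := l) (ω := ω)).1 (by omega)
      rw [hl]
      refine le_trans ?_ le_add_self
      refine le_trans ?_ (single_le_sum (f := fun l => (B l).indicator (fun _ => z ^ (l + 1)) ω)
        (fun _ _ => zero_le) (mem_range.2 h1))
      show _ ≤ (B l).indicator (fun _ => z ^ (l + 1)) ω
      rw [Set.indicator_of_mem h2]
  calc ∫⁻ ω, z ^ dep B D ω ∂P ≤ ∫⁻ ω, (1 + ∑ l ∈ range D, (B l).indicator (fun _ => z ^ (l + 1)) ω) ∂P :=
        lintegral_mono hpt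
    _ = 1 + ∑ l ∈ range D, z ^ (l + 1) * P (B l) := by
        rw [lintegral_add_left measurable_const, lintegral_const, measure_univ, mul_one,
          lintegral_finsetSum _ fun l _ => measurable_const.indicator (mB l)]
        congr 1
        refine sum_congr rfl fun l _ => ?_
        rw [lintegral_indicator_const (mB l)]

/-- **The numbers.** -/
theorem numbers {z A a g θ ε : ℝ} (hz : 1 ≤ z) (hA : 0 < A) (ha : 0 < a) (hg : 0 < g) (hθ : 1 < θ) (hε : 0 < ε) :
    ∃ Y0 : ℝ, 1 ≤ Y0 ∧ ∀ Y : ℝ, Y0 ≤ Y → ∀ D : ℕ,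
      ∑ l ∈ range D, z ^ (l + 1) * (A * Real.exp (-(a * (Y * θ ^ l) ^ g))) ≤ ε := by
  have hz0 : 0 < z := by linarith
  set c0 : ℝ := θ ^ g - 1 with hc0
  have hc : 0 < c0 := by
    have := Real.one_lt_rpow hθ hg
    rw [hc0]; linarith
  have ht : Filter.Tendsto (fun Y : ℝ => Y ^ g) Filter.atTop Filter.atTop := tendsto_rpow_atTop hg
  have h1 := ht.eventually (Filter.eventually_ge_atTop (Real.log (2 * z) / (a * c0)))
  have h2 := ht.eventually (Filter.eventually_ge_atTop (Real.log (2 * A * z / ε) / a))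
  obtain ⟨Y1, hY1⟩ := Filter.eventually_atTop.1 (h1.and h2)
  refine ⟨max 1 Y1, le_max_left _ _, fun Y hY D => ?_⟩
  have hY0 : 0 < Y := lt_of_lt_of_le one_pos ((le_max_left _ _).trans hY)
  obtain ⟨k1, k2⟩ := hY1 Y ((le_max_right _ _).trans hY)
  set E : ℝ := Real.exp (-(a * Y ^ g)) with hE
  set r : ℝ := z * Real.exp (-(a * c0 * Y ^ g)) with hr
  have hE0 : 0 < E := Real.exp_pos _
  have hr0 : 0 < r := mul_pos hz0 (Real.exp_pos _)
  have hr1 : r ≤ 1 / 2 := by
    have k3 : Real.log (2 * z) ≤ a * c0 * Y ^ g := by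
      rw [div_le_iff₀ (mul_pos ha hc)] at k1
      linarith
    have k4 : Real.exp (-(a * c0 * Y ^ g)) ≤ (2 * z)⁻¹ := by
      rw [← Real.exp_log (show 0 < (2 * z)⁻¹ by positivity), Real.log_inv]
      exact Real.exp_le_exp.2 (by linarith)
    calc r ≤ z * (2 * z)⁻¹ := mul_le_mul_of_nonneg_left k4 hz0.le
      _ = 1 / 2 := by field_simp
  have hE1 : 2 * A * z * E ≤ ε := by
    have k3 : Real.log (2 * A * z / ε) ≤ a * Y ^ g := by
      rw [div_le_iff₀ ha] at k2
      linarith
    have k5 : 0 < 2 * A * z / ε := by positivity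
    have k4 : E ≤ (2 * A * z / ε)⁻¹ := by
      rw [hE, ← Real.exp_log (show 0 < (2 * A * z / ε)⁻¹ by positivity), Real.log_inv]
      exact Real.exp_le_exp.2 (by linarith)
    calc 2 * A * z * E ≤ 2 * A * z * (2 * A * z / ε)⁻¹ := mul_le_mul_of_nonneg_left k4 (by positivity)
      _ = ε := by field_simp
  have hterm : ∀ l ∈ range D, z ^ (l + 1) * (A * Real.exp (-(a * (Y * θ ^ l) ^ g))) ≤ A * z * E * (1 / 2) ^ l := by
    intro l _
    have hθ0 : 0 < θ := by linarith
    have b1 : (Y * θ ^ l) ^ g = Y ^ g * (1 + c0) ^ l := by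
      rw [Real.mul_rpow hY0.le (by positivity), hc0]
      congr 1
      rw [← Real.rpow_natCast, ← Real.rpow_mul hθ0.le, mul_comm, Real.rpow_mul hθ0.le, Real.rpow_natCast]
      congr 1
      ring
    have b2 : 1 + (l : ℝ) * c0 ≤ (1 + c0) ^ l := one_add_mul_le_pow (by linarith) l
    have hYg : 0 ≤ Y ^ g := by positivity
    have b3 : a * Y ^ g + a * c0 * Y ^ g * l ≤ a * (Y * θ ^ l) ^ g := by
      rw [b1]
      have := mul_le_mul_of_nonneg_left b2 (mul_nonneg ha.le hYg)
      nlinarith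
    have b4 : Real.exp (-(a * (Y * θ ^ l) ^ g)) ≤ E * (Real.exp (-(a * c0 * Y ^ g))) ^ l := by
      rw [hE, ← Real.exp_nat_mul, ← Real.exp_add]
      exact Real.exp_le_exp.2 (by nlinarith)
    calc z ^ (l + 1) * (A * Real.exp (-(a * (Y * θ ^ l) ^ g)))
        ≤ z ^ (l + 1) * (A * (E * (Real.exp (-(a * c0 * Y ^ g))) ^ l)) := by gcongr
      _ = A * z * E * r ^ l := by rw [hr, mul_pow, pow_succ]; ring
      _ ≤ A * z * E * (1 / 2) ^ l := by gcongr
  calc _ ≤ ∑ l ∈ range D, A * z * E * (1 / 2) ^ l := sum_le_sum hterm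
    _ = A * z * E * ∑ l ∈ range D, (1 / 2 : ℝ) ^ l := by rw [mul_sum]
    _ ≤ A * z * E * 2 := by
        refine mul_le_mul_of_nonneg_left ?_ (by positivity)
        have := sum_geometric_two_le D
        simpa using this
    _ ≤ ε := by linarith

/-- **Every exponential moment is near to one if the levels start high enough.** -/
theorem moment_le [IsProbabilityMeasure P] {B : ℕ → Set Ω} (hB : Antitone B) (mB : ∀ l, MeasurableSet (B l)) (D : ℕ)
    {z A a g θ Y ε : ℝ} (hz : 1 ≤ z) (hA : 0 < A)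
    (hY : ∑ l ∈ range D, z ^ (l + 1) * (A * Real.exp (-(a * (Y * θ ^ l) ^ g))) ≤ ε)
    (hP : ∀ l < D, P (B l) ≤ ENNReal.ofReal (A * Real.exp (-(a * (Y * θ ^ l) ^ g)))) :
    ∫⁻ ω, (ENNReal.ofReal z) ^ dep B D ω ∂P ≤ 1 + ENNReal.ofReal ε := by
  have hz0 : 0 ≤ z := by linarith
  refine (moment hB mB D _).trans (add_le_add le_rfl ?_)
  calc _ ≤ ∑ l ∈ range D, ENNReal.ofReal (z ^ (l + 1) * (A * Real.exp (-(a * (Y * θ ^ l) ^ g)))) := by
        refine sum_le_sum fun l hl => ?_
        rw [ENNReal.ofReal_mul (by positivity), ENNReal.ofReal_pow hz0]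
        exact mul_le_mul' le_rfl (hP l (mem_range.1 hl))
    _ = ENNReal.ofReal (∑ l ∈ range D, z ^ (l + 1) * (A * Real.exp (-(a * (Y * θ ^ l) ^ g)))) := by
        rw [ENNReal.ofReal_sum_of_nonneg]
        intro l _
        positivity
    _ ≤ _ := ENNReal.ofReal_le_ofReal hY

end Pool.Agent.W_7d29a1_C1.Dep6
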