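import Pool.Agent.W_7d29a1_C1.DepP6

/-!
MP_7d29a1_pr, the attractor route, TAME: THE NUMBERS OF THE POTENTIAL. (helper6)

`numJ6` : the number of the codes against the moment, `z` does not depend on `g`. `rare6` : the rare set. `budget6` : the cost of a context is
at most `δ m`. `dEN6` : an event of three successive cuts as a depth of nodes.
-/

set_option autoImplicit false

namespace Pool.Agent.W_7d29a1_C1.Dep6

open MeasureTheory ProbabilityTheory Finset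
open Pool.Agent.W_7d29a1_F Pool.Agent.W_7d29a1_h4g Pool.Agent.W_7d29a1_H Pool.Agent.W_7d29a1_HS
open Pool.Agent.W_7d29a1_C1.H75 Pool.Agent.W_7d29a1_C1.U16 Pool.Agent.W_7d29a1_C1.H40 Pool.Agent.W_7d29a1_C1.S71
open scoped ENNReal

noncomputable section

variable {Λ : Type*}

/-! ### One event of three cuts -/

open Classical in
/-- An event of three successive cuts as a depth of nodes of the value `v`. -/
def dEN6 (E : Cut Λ → Cut Λ → Cut Λ → Set Env) (v : ℕ) (x y e : Cut Λ) (η : Env) : ℕ := if η ∈ E x y e then 0 else v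

theorem dEN6_le (E : Cut Λ → Cut Λ → Cut Λ → Set Env) (v : ℕ) (x y e : Cut Λ) (η : Env) : dEN6 E v x y e η ≤ v := by
  unfold dEN6
  split_ifs <;> omega

theorem dEN6_good {E : Cut Λ → Cut Λ → Cut Λ → Set Env} {v : ℕ} {x y e : Cut Λ} {η : Env} (h : dEN6 E v x y e η < v) :
    η ∈ E x y e := by
  by_contra hc
  unfold dEN6 at h
  rw [if_neg hc] at h
  exact lt_irrefl _ h

theorem dp3_E {μ : Measure ℝ} [IsProbabilityMeasure μ] {E : Cut Λ → Cut Λ → Cut Λ → Set Env} {v : ℕ} {z d : ℝ≥0∞}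
    (mE : ∀ x y e, MeasurableSet (E x y e))
    (rE : ∀ x y e (η η' : Env), (∀ p ∈ btw x e, η p = η' p) → (η ∈ E x y e ↔ η' ∈ E x y e))
    (pE : ∀ x y e, law μ (E x y e)ᶜ ≤ d) : Dp3 μ z (1 + z ^ v * d) (dEN6 E v) := by
  have hP : IsProbabilityMeasure (law μ) := by unfold law; infer_instance
  refine ⟨fun x y e => ?_, fun x y e η η' hh => ?_, fun x y e => ?_⟩
  · exact Measurable.ite (mE x y e) measurable_const measurable_const
  · unfold dEN6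
    by_cases h : η ∈ E x y e
    · rw [if_pos h, if_pos ((rE x y e η η' hh).1 h)]
    · rw [if_neg h, if_neg fun h' => h ((rE x y e η η' hh).2 h')]
  · have hpt : ∀ η, z ^ dEN6 E v x y e η ≤ 1 + (E x y e)ᶜ.indicator (fun _ => z ^ v) η := by
      intro η
      unfold dEN6
      by_cases h : η ∈ E x y e
      · rw [if_pos h, pow_zero]
        exact le_self_add
      · rw [if_neg h, Set.indicator_of_mem (show η ∈ (E x y e)ᶜ from h)]
        exact le_add_self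
    calc ∫⁻ η, z ^ dEN6 E v x y e η ∂(law μ) ≤ ∫⁻ η, (1 + (E x y e)ᶜ.indicator (fun _ => z ^ v) η) ∂(law μ) :=
          lintegral_mono hpt
      _ = 1 + z ^ v * law μ (E x y e)ᶜ := by
          rw [lintegral_add_left measurable_const, lintegral_const, measure_univ, mul_one,
            lintegral_indicator_const (mE x y e).compl]
      _ ≤ 1 + z ^ v * d := add_le_add le_rfl (mul_le_mul' le_rfl (pE x y e))

/-! ### The numbers -/

/-- **The number of the codes against the moment**: `z` is chosen before `g`. -/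
theorem numJ6 (A L : ℕ) (hA : 1 ≤ A) : ∃ z : ℕ, 1 ≤ z ∧ ∀ g m r : ℕ, g ≤ m → 1 ≤ m →
    ∀ k : ℕ, m ≤ k * r → ∀ Nt : ℕ, Nt ^ 2 ≤ A ^ m →
      (nCodeJ Nt A m g : ℝ≥0∞) * (3 * ((2 : ℝ≥0∞) ^ (3 * (m + g) + 1) / ((z : ℝ≥0∞) ^ k) ^ r)) ≤ ((L : ℝ≥0∞) + 1)⁻¹ ^ m := by
  set D : ℕ := A * ((48 * A ^ 2) ^ 2 * (12 * A ^ 2) * A ^ 2) * 3 * 2 ^ 7 * (L + 1) with hD
  have hDp : 1 ≤ D := Nat.mul_pos (Nat.mul_pos (Nat.mul_pos (Nat.mul_pos hA (by positivity)) (by norm_num)) (by norm_num)) (by omega)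
  refine ⟨D, hDp, fun g m r hgm hm k hk Nt hNt => ?_⟩
  have h1 : nCodeJ Nt A m g ≤ (A * ((48 * A ^ 2) ^ 2 * (12 * A ^ 2) * A ^ 2)) ^ m := by
    unfold nCodeJ
    rw [mul_pow A _ m]
    refine Nat.mul_le_mul hNt ?_
    have e3 : ∀ x y z : ℕ, (x * y * z) ^ m = x ^ m * y ^ m * z ^ m := fun x y z => by rw [mul_pow, mul_pow]
    rw [e3]
    refine Nat.mul_le_mul (Nat.mul_le_mul ?_ le_rfl) ?_
    · rw [← pow_mul]
      exact Nat.pow_le_pow_right (by positivity) (by omega)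
    · rw [← pow_mul]
      exact Nat.pow_le_pow_right hA (by omega)
  have h2 : (3 : ℕ) ≤ 3 ^ m := by
    calc 3 = 3 ^ 1 := (pow_one 3).symm
      _ ≤ 3 ^ m := Nat.pow_le_pow_right (by norm_num) hm
  have h3 : (2 : ℕ) ^ (3 * (m + g) + 1) ≤ (2 ^ 7) ^ m := by
    rw [← pow_mul]
    exact Nat.pow_le_pow_right (by norm_num) (by omega)
  have h4 : nCodeJ Nt A m g * (3 * 2 ^ (3 * (m + g) + 1)) * (L + 1) ^ m ≤ D ^ (k * r) := by
    calc nCodeJ Nt A m g * (3 * 2 ^ (3 * (m + g) + 1)) * (L + 1) ^ m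
        ≤ (A * ((48 * A ^ 2) ^ 2 * (12 * A ^ 2) * A ^ 2)) ^ m * (3 ^ m * (2 ^ 7) ^ m) * (L + 1) ^ m :=
          Nat.mul_le_mul_right _ (Nat.mul_le_mul h1 (Nat.mul_le_mul h2 h3))
      _ = D ^ m := by rw [hD]; simp only [mul_pow]; ring
      _ ≤ D ^ (k * r) := Nat.pow_le_pow_right hDp hk
  have hDz : ((D : ℝ≥0∞) ^ (k * r)) ≠ 0 := pow_ne_zero _ (by exact_mod_cast (show D ≠ 0 by omega))
  have hDt : ((D : ℝ≥0∞) ^ (k * r)) ≠ ∞ := ENNReal.pow_ne_top (ENNReal.natCast_ne_top D)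
  have hLz : ((L : ℝ≥0∞) + 1) ^ m ≠ 0 := pow_ne_zero _ (by positivity)
  have hLt : ((L : ℝ≥0∞) + 1) ^ m ≠ ∞ := ENNReal.pow_ne_top (by finiteness)
  rw [← pow_mul, ← ENNReal.inv_pow, ← mul_div_assoc, ← mul_div_assoc, ENNReal.div_le_iff hDz hDt]
  rw [← ENNReal.div_eq_inv_mul, ENNReal.le_div_iff_mul_le (Or.inl hLz) (Or.inl hLt)]
  exact_mod_cast h4

/-- **The rare set**: its probability is smaller than every exponential. -/
theorem rare6 {A a g th δ : ℝ} (hA : 0 < A) (ha : 0 < a) (hg : 0 < g) (hth : 1 < th) (hδ : 0 < δ) (C L : ℝ) (hC : 1 ≤ C) (hL : 0 ≤ L) :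
    ∃ m₀ : ℕ, ∀ m : ℕ, m₀ ≤ m → ∀ E₀ : ℕ, δ * m ≤ E₀ → ∀ q₀ : ℝ, 1 ≤ q₀ →
      (C ^ m) ^ 2 * (A * Real.exp (-(a * (q₀ * th ^ E₀) ^ g))) ≤ ((L + 1)⁻¹) ^ m := by
  have hth0 : 0 < th := by linarith
  obtain ⟨ρ, hρ⟩ : ∃ ρ : ℝ, ρ = th ^ (δ * g) := ⟨_, rfl⟩
  have hρ1 : 1 < ρ := by
    rw [hρ]
    exact Real.one_lt_rpow hth (mul_pos hδ hg)
  have hρ0 : 0 < ρ := by linarith
  have h1 : Filter.Tendsto (fun n : ℕ => ((n : ℝ) ^ 1) / ρ ^ n) Filter.atTop (nhds 0) :=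
    tendsto_pow_const_div_const_pow_of_one_lt 1 hρ1
  have h2 : Filter.Tendsto (fun n : ℕ => ((n : ℝ) ^ 0) / ρ ^ n) Filter.atTop (nhds 0) :=
    tendsto_pow_const_div_const_pow_of_one_lt 0 hρ1
  have h3 : Filter.Tendsto (fun n : ℕ => (2 * Real.log C + Real.log (L + 1)) * (((n : ℝ) ^ 1) / ρ ^ n) +
      Real.log A * (((n : ℝ) ^ 0) / ρ ^ n)) Filter.atTop
      (nhds ((2 * Real.log C + Real.log (L + 1)) * 0 + Real.log A * 0)) := (h1.const_mul _).add (h2.const_mul _)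
  simp only [mul_zero, add_zero] at h3
  obtain ⟨m₀, hm⟩ := Filter.eventually_atTop.1 (h3.eventually (gt_mem_nhds ha))
  refine ⟨m₀, fun m hm0 E₀ hE q₀ hq => ?_⟩
  have h4 := hm m hm0
  have hρm : 0 < ρ ^ m := by positivity
  rw [pow_one, pow_zero, mul_div_assoc', mul_div_assoc', ← add_div, div_lt_iff₀ hρm] at h4
  have h5 : ρ ^ m ≤ (q₀ * th ^ E₀) ^ g := by
    have e1 : ρ ^ m = (th ^ (δ * m)) ^ g := by
      rw [hρ, ← Real.rpow_natCast (th ^ (δ * g)) m, ← Real.rpow_mul hth0.le, ← Real.rpow_mul hth0.le]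
      congr 1
      ring
    rw [e1]
    refine Real.rpow_le_rpow (by positivity) ?_ hg.le
    have e2 : th ^ (δ * m) ≤ th ^ E₀ := by
      rw [← Real.rpow_natCast th E₀]
      exact Real.rpow_le_rpow_of_exponent_le hth.le hE
    have e3 : (0 : ℝ) ≤ th ^ E₀ := by positivity
    nlinarith
  have h6 : a * ρ ^ m ≤ a * (q₀ * th ^ E₀) ^ g := mul_le_mul_of_nonneg_left h5 ha.le
  have hC0 : 0 < C := by linarith
  have hL0 : 0 < L + 1 := by linarith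
  calc (C ^ m) ^ 2 * (A * Real.exp (-(a * (q₀ * th ^ E₀) ^ g)))
      = Real.exp (2 * m * Real.log C + Real.log A + -(a * (q₀ * th ^ E₀) ^ g)) := by
        rw [Real.exp_add, Real.exp_add, Real.exp_log hA, ← pow_mul,
          show 2 * (m : ℝ) * Real.log C = ((m * 2 : ℕ) : ℝ) * Real.log C by push_cast; ring, Real.exp_nat_mul, Real.exp_log hC0]
        ring
    _ ≤ Real.exp (-(m * Real.log (L + 1))) := by
        refine Real.exp_le_exp.2 ?_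
        nlinarith
    _ = ((L + 1)⁻¹) ^ m := by
        rw [Real.exp_neg, Real.exp_nat_mul, Real.exp_log hL0, inv_pow]

/-- **THE COST OF A CONTEXT**: at most `δ m`. Order: `D`, `k` | `C2` | `lam` | `g` | `m`. -/
theorem budget6 {δ : ℝ} (hδ : 0 < δ) (nS : ℕ) : ∃ (D k : ℕ) (δ₀ : ℝ), 1 ≤ D ∧ 1 ≤ k ∧ 0 < δ₀ ∧ ∀ C2 : ℕ, ∃ lam₀ : ℕ, ∀ lam g : ℕ,
    lam₀ ≤ lam → ∃ m₀ : ℕ, ∀ m Rm : ℕ, m₀ ≤ m → Rm + g ≤ m + 1 → ∃ r E₀ : ℕ, m ≤ k * r ∧ δ₀ * m ≤ E₀ ∧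
      ((6 * (C2 + 3) * nSt Rm g lam + 2 * ((Rm + g) / D) + 9 * r + 9 * (nS * E₀) : ℕ) : ℝ) ≤ δ * m := by
  obtain ⟨D, hD⟩ := exists_nat_ge (max 1 (16 / δ))
  obtain ⟨k, hk⟩ := exists_nat_ge (max 1 (72 / δ))
  have hD1 : (1 : ℝ) ≤ D := (le_max_left _ _).trans hD
  have hD2 : 16 / δ ≤ D := (le_max_right _ _).trans hD
  have hk1 : (1 : ℝ) ≤ k := (le_max_left _ _).trans hk
  have hk2 : 72 / δ ≤ k := (le_max_right _ _).trans hk
  obtain ⟨δ₀, hδ₀⟩ : ∃ δ₀ : ℝ, δ₀ = δ / (72 * (nS + 1)) := ⟨_, rfl⟩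
  have hnS : (0 : ℝ) < nS + 1 := by positivity
  have hδ₀0 : 0 < δ₀ := by rw [hδ₀]; positivity
  refine ⟨D, k, δ₀, by exact_mod_cast hD1, by exact_mod_cast hk1, hδ₀0, fun C2 => ?_⟩
  obtain ⟨l₀, hl₀⟩ := exists_nat_ge (48 * (C2 + 3) / δ)
  refine ⟨l₀ + 1, fun lam g hlam => ?_⟩
  obtain ⟨m₀, hm₀⟩ := exists_nat_ge (max 1 (8 * (9 + 9 * nS) / δ))
  refine ⟨m₀, fun m Rm hm hR => ⟨m / k + 1, ⌊δ₀ * m⌋₊ + 1, ?_, ?_, ?_⟩⟩
  · have : 0 < k := by exact_mod_cast (lt_of_lt_of_le one_pos hk1)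
    exact (Nat.lt_mul_div_succ m this).le
  · push_cast
    exact (Nat.lt_floor_add_one _).le
  · have hm1 : (max 1 (8 * (9 + 9 * nS) / δ) : ℝ) ≤ m := hm₀.trans (by exact_mod_cast hm)
    have hm2 : (1 : ℝ) ≤ m := (le_max_left _ _).trans hm1
    have hm3 : 8 * (9 + 9 * nS) / δ ≤ m := (le_max_right _ _).trans hm1
    have hRm : ((Rm + g : ℕ) : ℝ) ≤ 2 * m := by
      have : ((Rm + g : ℕ) : ℝ) ≤ ((m + 1 : ℕ) : ℝ) := by exact_mod_cast hR
      push_cast at this ⊢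
      linarith
    have hlam' : (l₀ : ℝ) + 1 ≤ ((lam + g : ℕ) : ℝ) := by
      have : l₀ + 1 ≤ lam + g := by omega
      exact_mod_cast this
    have hl0 : 48 * ((C2 : ℝ) + 3) / δ ≤ ((lam + g : ℕ) : ℝ) := by linarith
    -- the four terms
    have t1 : (6 * ((C2 : ℝ) + 3)) * (nSt Rm g lam : ℕ) ≤ δ / 4 * m := by
      have e1 : ((nSt Rm g lam : ℕ) : ℝ) ≤ ((Rm + g : ℕ) : ℝ) / ((lam + g : ℕ) : ℝ) := Nat.cast_div_le
      have hlg : (0 : ℝ) < ((lam + g : ℕ) : ℝ) := by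
        have : (0 : ℝ) ≤ l₀ := Nat.cast_nonneg _
        linarith
      have e2 : 6 * ((C2 : ℝ) + 3) * (((Rm + g : ℕ) : ℝ) / ((lam + g : ℕ) : ℝ)) ≤ δ / 4 * m := by
        rw [← mul_div_assoc, div_le_iff₀ hlg]
        rw [div_le_iff₀ hδ] at hl0
        have hC3 : (0 : ℝ) ≤ (C2 : ℝ) + 3 := by positivity
        nlinarith [mul_nonneg hC3 (show (0:ℝ) ≤ 2 * m - ((Rm + g : ℕ) : ℝ) by linarith)]
      exact (mul_le_mul_of_nonneg_left e1 (by positivity)).trans e2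
    have t2 : (2 : ℝ) * (((Rm + g) / D : ℕ) : ℝ) ≤ δ / 4 * m := by
      have e1 : (((Rm + g) / D : ℕ) : ℝ) ≤ ((Rm + g : ℕ) : ℝ) / (D : ℝ) := Nat.cast_div_le
      have hD0 : (0 : ℝ) < D := by linarith
      have e2 : (2 : ℝ) * (((Rm + g : ℕ) : ℝ) / (D : ℝ)) ≤ δ / 4 * m := by
        rw [← mul_div_assoc, div_le_iff₀ hD0]
        rw [div_le_iff₀ hδ] at hD2
        nlinarith
      exact (mul_le_mul_of_nonneg_left e1 (by positivity)).trans e2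
    have t3 : (9 : ℝ) * ((m / k + 1 : ℕ) : ℝ) ≤ δ / 8 * m + 9 := by
      have e1 : ((m / k : ℕ) : ℝ) ≤ (m : ℝ) / (k : ℝ) := Nat.cast_div_le
      have hk0 : (0 : ℝ) < k := by linarith
      have e2 : (9 : ℝ) * ((m : ℝ) / (k : ℝ)) ≤ δ / 8 * m := by
        rw [← mul_div_assoc, div_le_iff₀ hk0]
        rw [div_le_iff₀ hδ] at hk2
        nlinarith
      push_cast
      linarith
    have t4 : (9 : ℝ) * ((nS : ℝ) * ((⌊δ₀ * m⌋₊ + 1 : ℕ) : ℝ)) ≤ δ / 8 * m + 9 * nS := by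
      have e1 : ((⌊δ₀ * m⌋₊ : ℕ) : ℝ) ≤ δ₀ * m := Nat.floor_le (by positivity)
      have e2 : (nS : ℝ) * (δ₀ * m) ≤ δ / 72 * m := by
        rw [hδ₀]
        have hn0 : (0 : ℝ) ≤ nS := Nat.cast_nonneg _
        have e4 : (nS : ℝ) * (δ / (72 * (nS + 1)) * m) = δ / 72 * m * (nS / (nS + 1)) := by
          field_simp
        rw [e4]
        have e5 : (nS : ℝ) / (nS + 1) ≤ 1 := by
          rw [div_le_one hnS]
          linarith
        exact mul_le_of_le_one_right (by positivity) e5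
      have hn0 : (0 : ℝ) ≤ nS := Nat.cast_nonneg _
      have e3 := mul_le_mul_of_nonneg_left e1 hn0
      push_cast
      linarith
    have t5 : (9 : ℝ) + 9 * nS ≤ δ / 8 * m := by
      rw [div_le_iff₀ hδ] at hm3
      linarith
    push_cast at t1 t2 t3 t4 ⊢
    linarith

end

end Pool.Agent.W_7d29a1_C1.Dep6
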