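import Pool.Agent.W_7d29a1_C1.DepW6
import Pool.Agent.W_7d29a1_C1.SteF6
import Pool.Agent.W_7d29a1_C1.ArmX6

/-!
MP_7d29a1_pr, the attractor route, TAME: THE INSTANCE OF ALL THE MOMENTS. (helper6)

`dLI6` = levels, steep levels, one event per layer; `dNI6` = `Cn` times the fat level of the node (units `wN6`, ratio `qN6` from the labels),
the levels of its rows, one event per node. `inst6` : moments at most two, tail, in the order of the constants. `ok_lay6`, `ok_nod6` : what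
`Ok6` says. `ndok88` : the numbers of the nodes of a tower of labels (letters of `arm88`).
-/

set_option autoImplicit false

namespace Pool.Agent.W_7d29a1_C1.Dep6

open MeasureTheory ProbabilityTheory Finset
open Pool.Agent.W_7d29a1_F Pool.Agent.W_7d29a1_h4g Pool.Agent.W_7d29a1_H Pool.Agent.W_7d29a1_HS
open Pool.Agent.W_7d29a1_C1.H75 Pool.Agent.W_7d29a1_C1.U16 Pool.Agent.W_7d29a1_C1.H40
open Pool.Agent.W_7d29a1_C1.H94
open scoped ENNReal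

noncomputable section

variable {Λ : Type*}

/-- The unit of a node: the width of the label of its lower layer. -/
def wN6 (μ : Measure ℝ) (s : ℝ) (Tn : ℕ → ℕ) (a b _ : Cut Λ) : ℝ := wd μ s (Tn (lb6 a b))

/-- The ratio of a node. -/
def qN6 (μ : Measure ℝ) (s : ℝ) (Tn : ℕ → ℕ) (a b e : Cut Λ) : ℝ := wd μ s (Tn (lb6 b e)) / wd μ s (Tn (lb6 a b))

/-- **The depth of a layer.** -/
def dLI6 (F F' : Cut Λ → Cut Λ → ℝ → Set Env) (E : Cut Λ → Cut Λ → Set Env) (q₀ th : ℝ) (D : ℕ) (a b : Cut Λ) (η : Env) : ℕ :=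
  max (dL6 F F' q₀ th D a b η) (dE6 E 1 a b η)

/-- **The depth of a node.** -/
def dNI6 (X : Cut Λ → Cut Λ → Cut Λ → Env → ℕ) (Cn : ℕ) (F : Cut Λ → Cut Λ → ℝ → Set Env) (E : Cut Λ → Cut Λ → Cut Λ → Set Env)
    (q₀ th : ℝ) (D : ℕ) (a b e : Cut Λ) (η : Env) : ℕ :=
  max (dN6 X Cn F q₀ th D a b e η) (dEN6 E 1 a b e η)

/-- A family of events of the layers with a small probability of failure. -/
structure Ev2 (μ : Measure ℝ) (d : ℝ≥0∞) (E : Cut Λ → Cut Λ → Set Env) : Prop where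
  meas : ∀ x y, MeasurableSet (E x y)
  rows : ∀ x y (η η' : Env), (∀ p ∈ btw x y, η p = η' p) → (η ∈ E x y ↔ η' ∈ E x y)
  prob : ∀ x y, law μ (E x y)ᶜ ≤ d

/-- A family of events of the nodes with a small probability of failure. -/
structure Ev3 (μ : Measure ℝ) (d : ℝ≥0∞) (E : Cut Λ → Cut Λ → Cut Λ → Set Env) : Prop where
  meas : ∀ x y e, MeasurableSet (E x y e)
  rows : ∀ x y e (η η' : Env), (∀ p ∈ btw x e, η p = η' p) → (η ∈ E x y e ↔ η' ∈ E x y e)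
  prob : ∀ x y e, law μ (E x y e)ᶜ ≤ d

theorem Ev2.univ (μ : Measure ℝ) : Ev2 μ 0 (fun _ _ : Cut Λ => Set.univ) :=
  ⟨fun _ _ => MeasurableSet.univ, fun _ _ _ _ _ => Iff.rfl, fun _ _ => by rw [Set.compl_univ, measure_empty]⟩

theorem Ev3.univ (μ : Measure ℝ) : Ev3 μ 0 (fun _ _ _ : Cut Λ => Set.univ) :=
  ⟨fun _ _ _ => MeasurableSet.univ, fun _ _ _ _ _ _ => Iff.rfl, fun _ _ _ => by rw [Set.compl_univ, measure_empty]⟩

section Ok

variable {μ : Measure ℝ} {A a g A' a' g' q₀ th : ℝ} {F F' : Cut Λ → Cut Λ → ℝ → Set Env} {E : Cut Λ → Cut Λ → Set Env}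
  {E3 : Cut Λ → Cut Λ → Cut Λ → Set Env} {D : ℕ} {X : Cut Λ → Cut Λ → Cut Λ → Env → ℕ} {Cn : ℕ} {Sw : Finset ℤ}
  {scL : Cut Λ → Cut Λ → ℕ} {scN : Cut Λ → Cut Λ → Cut Λ → ℕ} {Z : List (Cut Λ)} {u : ℕ} {η : Env}

/-- **WHAT `Ok6` SAYS OF A LAYER.** -/
theorem ok_lay6 (hF : LvF μ A a g F) (hF' : LvF μ A' a' g' F') (hq : 0 ≤ q₀) (hth : 1 ≤ th)
    (h : Ok6 Sw (dLI6 F F' E q₀ th D) (dNI6 X Cn F E3 q₀ th D) scL scN Z u η) {P Q : List (Cut Λ)} {x y : Cut Λ}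
    (hZ : Z = P ++ x :: y :: Q) {l : ℕ} (h1 : u ≤ scL x y + l) (h2 : scL x y ≤ u + l) (hl : l < D) :
    η ∈ F x y (q₀ * th ^ l) ∧ η ∈ F' x y (q₀ * th ^ l) := by
  have h3 := nfl_le h.1 hZ h1 h2
  exact dL6_good hF hF' hq hth ((le_max_left _ _).trans h3) hl

/-- **The event of a layer**, at the distance at most one. -/
theorem ok_ev6 (h : Ok6 Sw (dLI6 F F' E q₀ th D) (dNI6 X Cn F E3 q₀ th D) scL scN Z u η) {P Q : List (Cut Λ)} {x y : Cut Λ}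
    (hZ : Z = P ++ x :: y :: Q) (h1 : u ≤ scL x y + 1) (h2 : scL x y ≤ u + 1) : η ∈ E x y :=
  dE6_good (lt_of_le_of_lt (le_max_right _ _) (nfl_zero h.1 hZ h1 h2 le_rfl))

/-- **WHAT `Ok6` SAYS OF A NODE** without a row of `Sw`. -/
theorem ok_nod6 (hF : LvF μ A a g F) (hq : 0 ≤ q₀) (hth : 1 ≤ th)
    (h : Ok6 Sw (dLI6 F F' E q₀ th D) (dNI6 X Cn F E3 q₀ th D) scL scN Z u η) {P Q : List (Cut Λ)} {x y e : Cut Λ}
    (hZ : Z = P ++ x :: y :: e :: Q) (hs : ¬ HasSw Sw x e) {l : ℕ} (h1 : u ≤ scN x y e + l) (h2 : scN x y e ≤ u + l) (hl : l < D) :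
    Cn * X x y e η ≤ l ∧ η ∈ F x e (q₀ * th ^ l) := by
  have h3 : dNI6 X Cn F E3 q₀ th D x y e η ≤ l := le_of_not_felt (h.2 P x y e Q hZ hs) h1 h2
  exact dN6_good hF hq hth ((le_max_left _ _).trans h3) hl

/-- **The event of a node**, at the distance at most one. -/
theorem ok_ev36 (h : Ok6 Sw (dLI6 F F' E q₀ th D) (dNI6 X Cn F E3 q₀ th D) scL scN Z u η) {P Q : List (Cut Λ)} {x y e : Cut Λ}
    (hZ : Z = P ++ x :: y :: e :: Q) (hs : ¬ HasSw Sw x e) (h1 : u ≤ scN x y e + 1) (h2 : scN x y e ≤ u + 1) : η ∈ E3 x y e := by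
  refine dEN6_good (v := 1) ?_
  by_contra hc
  have h3 := h.2 P x y e Q hZ hs
  have h4 : 1 ≤ dNI6 X Cn F E3 q₀ th D x y e η := (not_lt.1 hc).trans (le_max_right _ _)
  exact h3 ⟨h4, by omega, by omega⟩

end Ok

/-- **THE MOMENTS OF THE CHAIN, ALL DEPTHS.** Families of levels first (`lv_fam`, `stF_fam`), then `th`, `z`, then the first level. -/
theorem depI6 {μ : Measure ℝ} [IsProbabilityMeasure μ] {A a g A' a' g' th z : ℝ} (hA : 0 < A) (ha : 0 < a) (hg : 0 < g)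
    (hA' : 0 < A') (ha' : 0 < a') (hg' : 0 < g') (hth : 1 < th) (hz : 1 ≤ z) : ∃ Y₀ : ℝ, 1 ≤ Y₀ ∧ ∀ q₀ : ℝ, Y₀ ≤ q₀ →
      ∀ (D : ℕ) {Λ : Type*} {F F' : Cut Λ → Cut Λ → ℝ → Set Env} {E : Cut Λ → Cut Λ → Set Env}
        {E3 : Cut Λ → Cut Λ → Cut Λ → Set Env} {d : ℝ≥0∞}, LvF μ A a g F → LvF μ A' a' g' F' → Ev2 μ d E → Ev3 μ d E3 →
        ENNReal.ofReal z * d ≤ ENNReal.ofReal (1 / 2) →
        Dp2 μ (ENNReal.ofReal z) 2 (dLI6 F F' E q₀ th D) ∧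
        (∀ E₀ x y, 1 ≤ E₀ → law μ {η | E₀ < dLI6 F F' E q₀ th D x y η} ≤
          ENNReal.ofReal (A * Real.exp (-(a * (q₀ * th ^ E₀) ^ g)) + A' * Real.exp (-(a' * (q₀ * th ^ E₀) ^ g')))) ∧
        ∀ (X : Cut Λ → Cut Λ → Cut Λ → Env → ℕ) (Cn : ℕ), Dp3 μ (ENNReal.ofReal z ^ Cn) (1 + ENNReal.ofReal (1 / 4)) X →
          Dp3 μ (ENNReal.ofReal z) 2 (dNI6 X Cn F E3 q₀ th D) := by
  obtain ⟨Y₀, hY, H⟩ := depths6T (μ := μ) (ε := 1 / 2) hA ha hg hA' ha' hg' hth hz (by norm_num)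
  refine ⟨Y₀, hY, fun q₀ hq D Λ F F' E E3 d hF hF' hE hE3 hzd => ?_⟩
  obtain ⟨h1, h2, h3⟩ := H q₀ hq D hF hF'
  have hz' : (1 : ℝ≥0∞) ≤ ENNReal.ofReal z := by
    rw [← ENNReal.ofReal_one]
    exact ENNReal.ofReal_le_ofReal hz
  have e2 : (1 : ℝ≥0∞) + (ENNReal.ofReal (1 / 2) + ENNReal.ofReal (1 / 2)) = 2 := by
    rw [← ENNReal.ofReal_add (by norm_num) (by norm_num), ← ENNReal.ofReal_one, ← ENNReal.ofReal_add (by norm_num) (by norm_num)]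
    norm_num
  have hzd' : ENNReal.ofReal z ^ 1 * d ≤ ENNReal.ofReal (1 / 2) := by rwa [pow_one]
  refine ⟨?_, fun E₀ x y hE0 => ?_, fun X Cn hX => ?_⟩
  · have h4 := h1.max hz' (dp2_E (v := 1) (z := ENNReal.ofReal z) hE.meas hE.rows hE.prob)
    exact h4.mono (by
      rw [← e2]
      exact add_le_add le_rfl (add_le_add le_rfl hzd'))
  · refine (measure_mono fun η (hη : E₀ < dLI6 F F' E q₀ th D x y η) => ?_).trans (h2 E₀ x y)
    rcases lt_max_iff.1 hη with h | h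
    · exact h
    · have := dE6_le E 1 x y η
      omega
  · have h4 := (h3 X Cn (by
      refine hX.mono (le_of_eq ?_)
      norm_num)).max hz' (dp3_E (v := 1) (z := ENNReal.ofReal z) hE3.meas hE3.rows hE3.prob)
    exact h4.mono (by
      rw [← e2]
      exact add_le_add le_rfl (add_le_add le_rfl hzd'))

/-- **THE FAT LEVELS OF THE NODES** at `z ^ Cn`. -/
theorem nodI6 {μ : Measure ℝ} [IsProbabilityMeasure μ] {s c₀ δ₁ c₁ A a g θ Y₁ : ℝ} {K0 Kb n₃ : ℕ}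
    (hC : Cs94 μ s c₀ δ₁ c₁ A a g θ Y₁ K0 Kb n₃) {R : ℕ} (hR : 1 ≤ R) {z : ℝ} (hz : 1 ≤ z) (Cn : ℕ) :
    ∃ Y₂ : ℝ, 8 * Y₁ ≤ Y₂ ∧ 8 ≤ Y₂ ∧ ∀ Y : ℝ, Y₂ ≤ Y → ∀ {Λ : Type*} (w q : Cut Λ → Cut Λ → Cut Λ → ℝ)
      (col : Cut Λ → Cut Λ → Cut Λ → ℤ),
        Dp3 μ (ENNReal.ofReal z ^ Cn) (1 + ENNReal.ofReal (1 / 4)) (dpX6 μ s c₀ δ₁ θ Y Kb n₃ R w q col) := by
  obtain ⟨Y₂, h1, h2, H⟩ := dp3_x6 hC hR (z := z ^ Cn) (d := 1 / 4) (one_le_pow₀ hz) (by norm_num)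
  refine ⟨Y₂, h1, h2, fun Y hY Λ w q col => ?_⟩
  have h3 := H Y hY w q col
  rwa [ENNReal.ofReal_pow (by linarith)] at h3

/-! ### The numbers of the nodes of a tower -/

/-- **THE NODES OF A TOWER OF LABELS HAVE THE RIGHT NUMBERS** (hypotheses of `arm88`). -/
theorem ndok88 {μ : Measure ℝ} [IsProbabilityMeasure μ] {s c C : ℝ} {n₀ : ℕ} (h0 : In μ s c C n₀) {θ : ℝ} (hθ : 0 < θ) (K0 : ℕ)
    {Bn : ℕ} (hBn : 1 ≤ Bn) : ∃ K1 n₄ : ℕ, 4 ≤ K1 ∧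
    ∀ {c₀ δ₁ c₁ A aa g Y₁ : ℝ} {Kb n₃ : ℕ}, Cs94 μ s c₀ δ₁ c₁ A aa g θ Y₁ K0 Kb n₃ → ∀ Kr : ℕ, 4 * Kr * Bn ≤ Kb →
    ∀ {r T : ℕ → ℕ} {u m : ℕ}, 1 ≤ m →
      (∀ i, i < m → r (u + i) ≤ r (u + (i + 1)) ∧ r (u + (i + 1)) ≤ r (u + i) + T (u + i)) →
      (∀ i, i < m → T (u + i) ≤ Bn * (r (u + (i + 1)) - r (u + i))) →
      (∀ i, i < m → n₄ ≤ T (u + i) ∧ Bn * n₃ ≤ T (u + i)) →
      (∀ i, i + 1 < m → K1 * T (u + i) ≤ T (u + (i + 1)) ∧ T (u + (i + 1)) ≤ Kr * T (u + i)) →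
      ∀ i, 1 ≤ i → i < m → NdOk μ s θ Kb n₃ (r (u + i) - r (u + (i - 1))) (r (u + (i + 1)) - r (u + i))
        (wd μ s (T (u + (i - 1)))) (wd μ s (T (u + i)) / wd μ s (T (u + (i - 1)))) := by
  obtain ⟨K1, n₄, hK1, H⟩ := ArmW6.lab6 h0 hθ K0 hBn
  refine ⟨K1, n₄, hK1, ?_⟩
  intro c₀ δ₁ c₁ A aa g Y₁ Kb n₃ hC Kr hKr r T u m hm hrr hlen hbig hKT i h1 h2
  have hmon : ∀ i, 1 ≤ i → i ≤ m → r u ≤ r (u + i) ∧ r (u + i) - r u ≤ 2 * T (u + (i - 1)) := by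
    intro i hi
    induction i, hi using Nat.le_induction with
    | base =>
      intro _
      obtain ⟨a1, a2⟩ := hrr 0 (by omega)
      simp only [Nat.add_zero, Nat.zero_add, Nat.sub_self] at a1 a2 ⊢
      exact ⟨a1, by omega⟩
    | succ i hi ih =>
      intro hi2
      obtain ⟨b1, b2⟩ := ih (by omega)
      obtain ⟨a1, a2⟩ := hrr i (by omega)
      have a3 := (hKT (i - 1) (by omega)).1
      rw [show i - 1 + 1 = i by omega] at a3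
      have a4 : 4 * T (u + (i - 1)) ≤ T (u + i) := (Nat.mul_le_mul_right _ hK1).trans a3
      rw [Nat.add_sub_cancel]
      exact ⟨b1.trans a1, by omega⟩
  obtain ⟨-, -, -, g4, -⟩ := H hC Kr hKr (fun i => T (u + (i - 1))) (fun i => r (u + i) - r u) m (by simp) hm
    (fun i h1 h2 => hbig (i - 1) (by omega))
    (fun i h1 h2 => by
      have := (hKT (i - 1) (by omega)).1
      rwa [show i - 1 + 1 = i by omega] at this)
    (fun i h1 h2 => by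
      have := (hKT (i - 1) (by omega)).2
      rwa [show i - 1 + 1 = i by omega] at this)
    (fun i h1 h2 => (hmon i h1 h2).2)
    (fun i h1 h2 => by
      have a1 := hlen (i - 1) (by omega)
      rw [show i - 1 + 1 = i by omega] at a1
      refine a1.trans (Nat.mul_le_mul_left _ ?_)
      have a2 : r u ≤ r (u + (i - 1)) := by
        rcases Nat.eq_zero_or_pos (i - 1) with h | h
        · rw [h, Nat.add_zero]
        · exact (hmon (i - 1) h (by omega)).1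
      omega)
  have g := g4 i h1 h2
  have a2 : r u ≤ r (u + (i - 1)) := by
    rcases Nat.eq_zero_or_pos (i - 1) with h | h
    · rw [h, Nat.add_zero]
    · exact (hmon (i - 1) h (by omega)).1
  have a3 := (hrr (i - 1) (by omega)).1
  rw [show i - 1 + 1 = i by omega] at a3
  have a4 := (hrr i h2).1
  have e1 : r (u + i) - r u - (r (u + (i - 1)) - r u) = r (u + i) - r (u + (i - 1)) := by omega
  have e2 : r (u + (i + 1)) - r u - (r (u + i) - r u) = r (u + (i + 1)) - r (u + i) := by omega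
  rw [e1, e2] at g
  simpa using g

end

end Pool.Agent.W_7d29a1_C1.Dep6
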