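import Pool.Agent.W_7d29a1_C1.Dep6
import Pool.Agent.W_7d29a1_C1.LevF16
import Pool.Agent.W_7d29a1_C1.ChnG40

/-!
MP_7d29a1_pr, the attractor route, TAME: THE DEPTH OF A LAYER, MODEL FORM. (helper6)

`dF6`: the number of the levels `q₀ θ ^ l`, `l < D`, at which the rows `(b.1, b.1 + N]` are not in `Far16`. `dF6_good`, `dF6_meas`,
`dF6_rows`, `dF6_mom`. `Dp2`, `Dp3`: measurable, locality on the rows between two cuts, moment; closed under maxima. `dpL6`, `dpN6`: the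
depth of a layer and the levels' part of the depth of a node of a chain; the moments hold for ALL the cuts.
-/

set_option autoImplicit false

namespace Pool.Agent.W_7d29a1_C1.Dep6

open MeasureTheory ProbabilityTheory Finset
open Pool.Agent.W_7d29a1_F Pool.Agent.W_7d29a1_h4g Pool.Agent.W_7d29a1_H Pool.Agent.W_7d29a1_HS
open Pool.Agent.W_7d29a1_C1.H75 Pool.Agent.W_7d29a1_C1.U16 Pool.Agent.W_7d29a1_C1.H40
open scoped ENNReal

noncomputable section

variable {μ : Measure ℝ} {s c C : ℝ} {n₀ : ℕ}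

/-! ### The depth of the levels of a stretch of rows -/

/-- The bad event of the level number `l`. -/
def bF6 (μ : Measure ℝ) (s c θ K : ℝ) (P : ℕ) (q₀ th : ℝ) (n N : ℕ) (b : Pt) (l : ℕ) : Set Env :=
  (Far16 μ s c θ K n N P b (q₀ * th ^ l))ᶜ

/-- **The depth of the levels** of the rows `(b.1, b.1 + N]` at the height `n`. -/
def dF6 (μ : Measure ℝ) (s c θ K : ℝ) (P : ℕ) (q₀ th : ℝ) (D n N : ℕ) (b : Pt) : Env → ℕ :=
  dep (bF6 μ s c θ K P q₀ th n N b) D

variable {θ K : ℝ} {P D n N : ℕ} {q₀ th : ℝ} {b : Pt}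

theorem bF6_anti (hq : 0 ≤ q₀) (hth : 1 ≤ th) : Antitone (bF6 μ s c θ K P q₀ th n N b) := fun _ _ h =>
  Set.compl_subset_compl.2 (Far16_mono (mul_le_mul_of_nonneg_left (pow_le_pow_right₀ hth h) hq) _ _ _ _)

theorem bF6_meas (l : ℕ) : MeasurableSet (bF6 μ s c θ K P q₀ th n N b l) := (Far16_meas _ _ _ _ _ _ _).compl

theorem dF6_le (ω : Env) : dF6 μ s c θ K P q₀ th D n N b ω ≤ D := dep_le _ _ _

/-- **What a small depth says.** -/
theorem dF6_good (hq : 0 ≤ q₀) (hth : 1 ≤ th) {η : Env} {l : ℕ} (h : dF6 μ s c θ K P q₀ th D n N b η ≤ l) (hl : l < D) :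
    η ∈ Far16 μ s c θ K n N P b (q₀ * th ^ l) := not_not.1 (good (bF6_anti hq hth) h hl)

theorem dF6_le_of (hq : 0 ≤ q₀) (hth : 1 ≤ th) {η : Env} {l : ℕ} (h : η ∈ Far16 μ s c θ K n N P b (q₀ * th ^ l)) :
    dF6 μ s c θ K P q₀ th D n N b η ≤ l := dep_le_of (bF6_anti hq hth) (not_not.2 h)

theorem dF6_meas : Measurable (dF6 μ s c θ K P q₀ th D n N b) := measurable_dep bF6_meas D

theorem dF6_rows [IsProbabilityMeasure μ] {η η' : Env} (hh : ∀ p ∈ rows b.1 (b.1 + N), η p = η' p) :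
    dF6 μ s c θ K P q₀ th D n N b η = dF6 μ s c θ K P q₀ th D n N b η' :=
  dep_congr fun l _ => not_congr (Far16_rows hh)

/-- **The moments of the depth.** `P` depends on `In` only (and on `K`, `θ`); then `th`, `z`, `ε`; then the first level and the height. -/
theorem dF6_mom [IsProbabilityMeasure μ] (h : In μ s c C n₀) {K θ : ℝ} (hK : 0 < K) (hθ : 0 < θ) (hθ1 : θ ≤ 1) :
    ∃ P n₁ : ℕ, 1 ≤ n₁ ∧ ∀ th z ε : ℝ, 1 < th → 1 ≤ z → 0 < ε → ∃ Y₀ : ℝ, 1 ≤ Y₀ ∧ ∀ q₀ : ℝ, Y₀ ≤ q₀ →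
      ∀ n N D : ℕ, n₁ ≤ n → N ≤ n → ∀ b : Pt,
        ∫⁻ η, (ENNReal.ofReal z) ^ dF6 μ s c θ K P q₀ th D n N b η ∂(law μ) ≤ 1 + ENNReal.ofReal ε := by
  obtain ⟨P, A, a, g, hA, ha, hg, hg1, n₁, hn1, H⟩ := far_prob h hK hθ hθ1
  refine ⟨P, n₁, hn1, fun th z ε hth hz hε => ?_⟩
  obtain ⟨Y₀, hY0, HY⟩ := numbers (z := z) (A := A) (a := a) (g := g) (θ := th) (ε := ε) hz hA ha hg hth hε
  refine ⟨Y₀, hY0, fun q₀ hq n N D hn hN b => ?_⟩
  have hP : IsProbabilityMeasure (law μ) := by unfold law; infer_instance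
  have hq0 : 0 ≤ q₀ := by linarith
  refine moment_le (bF6_anti hq0 hth.le) bF6_meas D hz hA (HY q₀ hq D) fun l _ => ?_
  have h1 := H n hn N hN b (q₀ * th ^ l) (by positivity)
  rw [← ENNReal.ofReal_toReal (measure_ne_top (law μ) _)]
  exact ENNReal.ofReal_le_ofReal h1

/-! ### Depths on cuts -/

/-- A depth is felt only at the scales at distance at most the depth (the hypothesis is `¬ Felt sc d u` of `ChnW40`). -/
theorem le_of_not_felt {sc d u l : ℕ} (h : ¬ (1 ≤ d ∧ u ≤ sc + d ∧ sc ≤ u + d)) (h1 : u ≤ sc + l) (h2 : sc ≤ u + l) : d ≤ l := by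
  by_contra hc
  exact h ⟨by omega, by omega, by omega⟩

variable {Λ : Type*}

/-- **A depth of layers.** -/
structure Dp2 (μ : Measure ℝ) (z : ℝ≥0∞) (M : ℝ≥0∞) (d : Cut Λ → Cut Λ → Env → ℕ) : Prop where
  meas : ∀ a b, Measurable (d a b)
  rows : ∀ a b (η η' : Env), (∀ p ∈ btw a b, η p = η' p) → d a b η = d a b η'
  mom : ∀ a b, ∫⁻ η, z ^ d a b η ∂(law μ) ≤ M

/-- **A depth of nodes.** -/
structure Dp3 (μ : Measure ℝ) (z : ℝ≥0∞) (M : ℝ≥0∞) (d : Cut Λ → Cut Λ → Cut Λ → Env → ℕ) : Prop where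
  meas : ∀ a b e, Measurable (d a b e)
  rows : ∀ a b e (η η' : Env), (∀ p ∈ btw a e, η p = η' p) → d a b e η = d a b e η'
  mom : ∀ a b e, ∫⁻ η, z ^ d a b e η ∂(law μ) ≤ M

theorem pow_max_le {z : ℝ≥0∞} (i j : ℕ) : z ^ max i j ≤ z ^ i + z ^ j := by
  rcases max_cases i j with ⟨h, _⟩ | ⟨h, _⟩ <;> rw [h]
  · exact le_self_add
  · exact le_add_self

/-- The depth is one where only one of the two is deep: `z ^ max + 1 ≤ z ^ i + z ^ j`. -/
theorem pow_max_add {z : ℝ≥0∞} (hz : 1 ≤ z) (i j : ℕ) : z ^ max i j + 1 ≤ z ^ i + z ^ j := by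
  rcases max_cases i j with ⟨h, _⟩ | ⟨h, _⟩ <;> rw [h]
  · exact add_le_add le_rfl (one_le_pow₀ hz)
  · rw [add_comm (z ^ i)]
    exact add_le_add le_rfl (one_le_pow₀ hz)

theorem mom_max [IsProbabilityMeasure μ] {z : ℝ≥0∞} (hz : 1 ≤ z) {f g : Env → ℕ} (hf : Measurable f) {e e' : ℝ≥0∞}
    (h : ∫⁻ η, z ^ f η ∂(law μ) ≤ 1 + e) (h' : ∫⁻ η, z ^ g η ∂(law μ) ≤ 1 + e') :
    ∫⁻ η, z ^ max (f η) (g η) ∂(law μ) ≤ 1 + (e + e') := by
  have hP : IsProbabilityMeasure (law μ) := by unfold law; infer_instance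
  have mf : Measurable fun η => z ^ f η := (measurable_from_nat (f := fun n : ℕ => z ^ n)).comp hf
  have h1 : ∫⁻ η, (z ^ max (f η) (g η) + 1) ∂(law μ) ≤ ∫⁻ η, (z ^ f η + z ^ g η) ∂(law μ) :=
    lintegral_mono fun η => pow_max_add hz _ _
  rw [lintegral_add_right _ measurable_const, lintegral_const, measure_univ, mul_one, lintegral_add_left mf] at h1
  have h2 := h1.trans (add_le_add h h')
  have e1 : 1 + e + (1 + e') = (1 + (e + e')) + 1 := by ring
  rw [e1] at h2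
  exact (ENNReal.add_le_add_iff_right ENNReal.one_ne_top).1 h2

namespace Dp2

variable {z : ℝ≥0∞} {M M' : ℝ≥0∞} {d d' : Cut Λ → Cut Λ → Env → ℕ}

theorem mono (h : Dp2 μ z M d) (hM : M ≤ M') : Dp2 μ z M' d := ⟨h.meas, h.rows, fun a b => (h.mom a b).trans hM⟩

/-- **The maximum of two depths.** -/
theorem max [IsProbabilityMeasure μ] (hz : 1 ≤ z) {e e' : ℝ≥0∞} (h : Dp2 μ z (1 + e) d) (h' : Dp2 μ z (1 + e') d') :
    Dp2 μ z (1 + (e + e')) fun a b η => Max.max (d a b η) (d' a b η) :=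
  ⟨fun a b => (h.meas a b).max (h'.meas a b), fun a b η η' hh => by rw [h.rows a b η η' hh, h'.rows a b η η' hh],
    fun a b => mom_max hz (h.meas a b) (h.mom a b) (h'.mom a b)⟩

/-- Switch a depth off at some pairs. -/
theorem ite [IsProbabilityMeasure μ] (h : Dp2 μ z M d) (hM : 1 ≤ M) (p : Cut Λ → Cut Λ → Prop) [∀ a b, Decidable (p a b)] :
    Dp2 μ z M fun a b η => if p a b then d a b η else 0 := by
  have hP : IsProbabilityMeasure (law μ) := by unfold law; infer_instance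
  refine ⟨fun a b => ?_, fun a b η η' hh => ?_, fun a b => ?_⟩
  · by_cases hp : p a b
    · simp only [hp, if_true]; exact h.meas a b
    · simp only [hp, if_false]; exact measurable_const
  · by_cases hp : p a b
    · simp only [hp, if_true]; exact h.rows a b η η' hh
    · simp only [hp, if_false]
  · by_cases hp : p a b
    · simp only [hp, if_true]; exact h.mom a b
    · simp only [hp, if_false, pow_zero, lintegral_const, measure_univ, mul_one]; exact hM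

/-- A depth of layers as a depth of nodes, lower or upper layer, or the whole node. -/
theorem dp3 (h : Dp2 μ z M d) : Dp3 μ z M fun a _ e => d a e :=
  ⟨fun a _ e => h.meas a e, fun a _ e => h.rows a e, fun a _ e => h.mom a e⟩

end Dp2

namespace Dp3

variable {z : ℝ≥0∞} {M M' : ℝ≥0∞} {d d' : Cut Λ → Cut Λ → Cut Λ → Env → ℕ}

theorem mono (h : Dp3 μ z M d) (hM : M ≤ M') : Dp3 μ z M' d := ⟨h.meas, h.rows, fun a b e => (h.mom a b e).trans hM⟩

/-- **The maximum of two depths.** -/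
theorem max [IsProbabilityMeasure μ] (hz : 1 ≤ z) {e e' : ℝ≥0∞} (h : Dp3 μ z (1 + e) d) (h' : Dp3 μ z (1 + e') d') :
    Dp3 μ z (1 + (e + e')) fun a b k η => Max.max (d a b k η) (d' a b k η) :=
  ⟨fun a b k => (h.meas a b k).max (h'.meas a b k), fun a b k η η' hh => by rw [h.rows a b k η η' hh, h'.rows a b k η η' hh],
    fun a b k => mom_max hz (h.meas a b k) (h.mom a b k) (h'.mom a b k)⟩

/-- Switch a depth off at some triples. -/
theorem ite [IsProbabilityMeasure μ] (h : Dp3 μ z M d) (hM : 1 ≤ M) (p : Cut Λ → Cut Λ → Cut Λ → Prop)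
    [∀ a b e, Decidable (p a b e)] : Dp3 μ z M fun a b e η => if p a b e then d a b e η else 0 := by
  have hP : IsProbabilityMeasure (law μ) := by unfold law; infer_instance
  refine ⟨fun a b e => ?_, fun a b e η η' hh => ?_, fun a b e => ?_⟩
  · by_cases hp : p a b e
    · simp only [hp, if_true]; exact h.meas a b e
    · simp only [hp, if_false]; exact measurable_const
  · by_cases hp : p a b e
    · simp only [hp, if_true]; exact h.rows a b e η η' hh
    · simp only [hp, if_false]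
  · by_cases hp : p a b e
    · simp only [hp, if_true]; exact h.mom a b e
    · simp only [hp, if_false, pow_zero, lintegral_const, measure_univ, mul_one]; exact hM

end Dp3

/-! ### The levels of the layers of a chain -/

/-- The number of the rows between two cuts. -/
def nR (a b : Cut Λ) : ℕ := (b.row - a.row).toNat

/-- The height of a layer: the height of the label of its upper cut, or its number of rows if this is larger. -/
def nH (H : ℕ → ℕ) (a b : Cut Λ) : ℕ := max (H b.sc) (nR a b)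

theorem nH_eq {H : ℕ → ℕ} {a b : Cut Λ} (h : b.row ≤ a.row + H b.sc) : nH H a b = H b.sc := by
  unfold nH nR
  exact max_eq_left (by omega)

/-- **THE DEPTH OF A LAYER** (levels of all the kernels of its rows). -/
def dpL6 (μ : Measure ℝ) (s c θ K : ℝ) (P : ℕ) (q₀ th : ℝ) (D : ℕ) (H : ℕ → ℕ) (col : Cut Λ → ℤ) (a b : Cut Λ) : Env → ℕ :=
  dF6 μ s c θ K P q₀ th D (nH H a b) (nR a b) (a.row, col a)

/-- **What it says.** -/
theorem dpL6_good {H : ℕ → ℕ} {col : Cut Λ → ℤ} {a b : Cut Λ} (hq : 0 ≤ q₀) (hth : 1 ≤ th) {η : Env} {l : ℕ}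
    (h : dpL6 μ s c θ K P q₀ th D H col a b η ≤ l) (hl : l < D) :
    η ∈ Far16 μ s c θ K (nH H a b) (nR a b) P (a.row, col a) (q₀ * th ^ l) := dF6_good hq hth h hl

theorem dpL6_rows [IsProbabilityMeasure μ] {H : ℕ → ℕ} {col : Cut Λ → ℤ} {a b : Cut Λ} {η η' : Env} (hh : ∀ p ∈ btw a b, η p = η' p) :
    dpL6 μ s c θ K P q₀ th D H col a b η = dpL6 μ s c θ K P q₀ th D H col a b η' := by
  refine dF6_rows fun p hp => ?_
  obtain ⟨h1, h2⟩ := hp
  rcases le_total b.row a.row with h | h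
  · exfalso
    have e : nR a b = 0 := by unfold nR; omega
    rw [e] at h2
    simp only [Nat.cast_zero, add_zero] at h2
    exact absurd h1 (not_lt.2 h2)
  · refine hh p ⟨h1, h2.trans (le_of_eq ?_)⟩
    show a.row + ((b.row - a.row).toNat : ℤ) = b.row
    rw [Int.toNat_of_nonneg (by omega)]
    ring

/-- **THE LEVELS ARE DEPTHS OF LAYERS**, for all the cuts. -/
theorem dp2_6 [IsProbabilityMeasure μ] (h : In μ s c C n₀) {K θ : ℝ} (hK : 0 < K) (hθ : 0 < θ) (hθ1 : θ ≤ 1) :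
    ∃ P n₁ : ℕ, 1 ≤ n₁ ∧ ∀ th z ε : ℝ, 1 < th → 1 ≤ z → 0 < ε → ∃ Y₀ : ℝ, 1 ≤ Y₀ ∧ ∀ q₀ : ℝ, Y₀ ≤ q₀ →
      ∀ (D : ℕ) (H : ℕ → ℕ), (∀ v, n₁ ≤ H v) → ∀ {Λ : Type*} (col : Cut Λ → ℤ),
        Dp2 μ (ENNReal.ofReal z) (1 + ENNReal.ofReal ε) (dpL6 μ s c θ K P q₀ th D H col) := by
  obtain ⟨P, n₁, hn1, X⟩ := dF6_mom h hK hθ hθ1
  refine ⟨P, n₁, hn1, fun th z ε hth hz hε => ?_⟩
  obtain ⟨Y₀, hY0, X⟩ := X th z ε hth hz hε
  refine ⟨Y₀, hY0, fun q₀ hq D H hH Λ col => ⟨fun a b => dF6_meas, fun a b η η' hh => dpL6_rows hh, fun a b => ?_⟩⟩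
  exact X q₀ hq _ _ D ((hH _).trans (le_max_left _ _)) (le_max_right _ _) _

end

end Pool.Agent.W_7d29a1_C1.Dep6
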