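import Pool.Agent.W_7d29a1_C1.DepL6
import Pool.Agent.W_7d29a1_C1.ArmS89

/-!
MP_7d29a1_pr, the attractor route, TAME: THE FAT LEVEL OF A NODE AS A DEPTH OF THREE CUTS. (helper6)

`dpX6`: `nu` of ArmC94 for the rows of three cuts, with any unit `w`, any ratio `q`, any centre `col` (functions of the three cuts), `0` if
the numbers of the node are not right (`NdOk`). `dp3_x6`: measurable, local, moments. `dpX6_eq`. `dpN6` = maximum with the levels of the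
rows of the node.
-/

set_option autoImplicit false

namespace Pool.Agent.W_7d29a1_C1.Dep6

open MeasureTheory ProbabilityTheory Finset
open Pool.Agent.W_7d29a1_F Pool.Agent.W_7d29a1_h4g Pool.Agent.W_7d29a1_H Pool.Agent.W_7d29a1_HS
open Pool.Agent.W_7d29a1_C1.H75 Pool.Agent.W_7d29a1_C1.U16 Pool.Agent.W_7d29a1_C1.H40
open Pool.Agent.W_7d29a1_C1.H94 Pool.Agent.W_7d29a1_C1.ArmS89
open scoped ENNReal

noncomputable section

variable {μ : Measure ℝ} {s c C c₀ δ₁ c₁ A a g θ Y₁ : ℝ} {K0 Kb n₃ n₀ : ℕ}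

/-- **The numbers of a node.** -/
structure NdOk (μ : Measure ℝ) (s θ : ℝ) (Kb n₃ n1 n2 : ℕ) (w q : ℝ) : Prop where
  hn1 : n₃ ≤ n1
  hn2 : 1 ≤ n2
  hnb : n2 ≤ Kb * n1
  hq : 1 ≤ q
  hqn : q * n1 ≤ θ * n2
  hw : wd μ s n1 ≤ 8 * w

variable {Λ : Type*}

open Classical in
/-- **The level of the node of three cuts.** -/
def dpX6 (μ : Measure ℝ) (s c₀ δ₁ θ Y : ℝ) (Kb n₃ R : ℕ) (w q : Cut Λ → Cut Λ → Cut Λ → ℝ) (col : Cut Λ → Cut Λ → Cut Λ → ℤ)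
    (a b e : Cut Λ) (η : Env) : ℕ :=
  if NdOk μ s θ Kb n₃ (nR a b) (nR b e) (w a b e) (q a b e) then
    nu μ s c₀ δ₁ Y (w a b e) (q a b e) R a.row (nR a b) (nR b e) (col a b e) η
  else 0

theorem dpX6_eq {Y : ℝ} {R : ℕ} {w q : Cut Λ → Cut Λ → Cut Λ → ℝ} {col : Cut Λ → Cut Λ → Cut Λ → ℤ} {a b e : Cut Λ} (η : Env)
    (h : NdOk μ s θ Kb n₃ (nR a b) (nR b e) (w a b e) (q a b e)) : dpX6 μ s c₀ δ₁ θ Y Kb n₃ R w q col a b e η =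
      nu μ s c₀ δ₁ Y (w a b e) (q a b e) R a.row (nR a b) (nR b e) (col a b e) η := if_pos h

theorem nR_row {a b : Cut Λ} (h : 1 ≤ nR a b) : a.row + nR a b = b.row := by
  unfold nR at h ⊢
  rw [Int.toNat_of_nonneg (by omega)]
  ring

/-- **THE LEVELS OF THE NODES ARE DEPTHS**, for all triples of cuts. -/
theorem dp3_x6 [IsProbabilityMeasure μ] (hC : Cs94 μ s c₀ δ₁ c₁ A a g θ Y₁ K0 Kb n₃) {R : ℕ} (hR : 1 ≤ R) {z d : ℝ} (hz : 1 ≤ z)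
    (hd : 0 < d) : ∃ Y₂ : ℝ, 8 * Y₁ ≤ Y₂ ∧ 8 ≤ Y₂ ∧ ∀ Y : ℝ, Y₂ ≤ Y → ∀ {Λ : Type*} (w q : Cut Λ → Cut Λ → Cut Λ → ℝ)
      (col : Cut Λ → Cut Λ → Cut Λ → ℤ),
        Dp3 μ (ENNReal.ofReal z) (1 + ENNReal.ofReal d) (dpX6 μ s c₀ δ₁ θ Y Kb n₃ R w q col) := by
  obtain ⟨Y₂, h1, h2, H⟩ := nu_mom_d hC hR hz hd
  have hP : IsProbabilityMeasure (law μ) := by unfold law; infer_instance
  refine ⟨Y₂, h1, h2, fun Y hY Λ w q col => ⟨fun a b e => ?_, fun a b e η η' hh => ?_, fun a b e => ?_⟩⟩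
  · by_cases h : NdOk μ s θ Kb n₃ (nR a b) (nR b e) (w a b e) (q a b e)
    · have e1 : dpX6 μ s c₀ δ₁ θ Y Kb n₃ R w q col a b e =
          nu μ s c₀ δ₁ Y (w a b e) (q a b e) R a.row (nR a b) (nR b e) (col a b e) := funext fun η => dpX6_eq η h
      rw [e1]
      have hw := hC.wd2 _ h.hn1
      have hw' := h.hw
      exact meas_nu (by linarith) (by linarith) _ _ _ _ _ _ _ _ _
    · have e1 : dpX6 μ s c₀ δ₁ θ Y Kb n₃ R w q col a b e = fun _ => 0 := funext fun η => if_neg h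
      rw [e1]
      exact measurable_const
  · by_cases h : NdOk μ s θ Kb n₃ (nR a b) (nR b e) (w a b e) (q a b e)
    · rw [dpX6_eq η h, dpX6_eq η' h]
      have hn := hC.n1
      have k1 := nR_row (a := a) (b := b) (hn.trans h.hn1)
      have k2 := nR_row h.hn2
      refine dep_nu s c₀ δ₁ Y _ _ R _ _ _ _ fun p hp => hh p ⟨hp.1, hp.2.trans (le_of_eq ?_)⟩
      rw [k1, k2]
    · unfold dpX6
      rw [if_neg h, if_neg h]
  · by_cases h : NdOk μ s θ Kb n₃ (nR a b) (nR b e) (w a b e) (q a b e)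
    · obtain ⟨i1, -, i3⟩ := H Y hY (nR a b) (nR b e) h.hn1 h.hn2 h.hnb (w a b e) (q a b e) h.hq h.hqn h.hw a.row (col a b e)
      have hz0 : 0 ≤ z := by linarith
      calc ∫⁻ η, ENNReal.ofReal z ^ dpX6 μ s c₀ δ₁ θ Y Kb n₃ R w q col a b e η ∂(law μ)
          = ∫⁻ η, ENNReal.ofReal (z ^ nu μ s c₀ δ₁ Y (w a b e) (q a b e) R a.row (nR a b) (nR b e) (col a b e) η) ∂(law μ) := by
            refine lintegral_congr fun η => ?_
            rw [dpX6_eq η h, ENNReal.ofReal_pow hz0]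
        _ = ENNReal.ofReal (∫ η, z ^ nu μ s c₀ δ₁ Y (w a b e) (q a b e) R a.row (nR a b) (nR b e) (col a b e) η ∂(law μ)) :=
            (ofReal_integral_eq_lintegral_ofReal i1 (Filter.Eventually.of_forall fun η => by positivity)).symm
        _ ≤ ENNReal.ofReal (1 + d) := ENNReal.ofReal_le_ofReal i3
        _ = 1 + ENNReal.ofReal d := by rw [ENNReal.ofReal_add zero_le_one hd.le, ENNReal.ofReal_one]
    · have e1 : ∀ η, dpX6 μ s c₀ δ₁ θ Y Kb n₃ R w q col a b e η = 0 := fun η => if_neg h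
      simp only [e1, pow_zero, lintegral_const, measure_univ, mul_one]
      exact le_self_add

/-- **THE DEPTH OF A NODE**: its fat level and the levels of its rows. -/
def dpN6 (μ : Measure ℝ) (s c₀ δ₁ θ Y : ℝ) (Kb n₃ R : ℕ) (w q : Cut Λ → Cut Λ → Cut Λ → ℝ) (col : Cut Λ → Cut Λ → Cut Λ → ℤ)
    (c θ' K : ℝ) (P : ℕ) (q₀ th : ℝ) (D : ℕ) (H : ℕ → ℕ) (col' : Cut Λ → ℤ) (a b e : Cut Λ) (η : Env) : ℕ :=
  max (dpX6 μ s c₀ δ₁ θ Y Kb n₃ R w q col a b e η) (dpL6 μ s c θ' K P q₀ th D H col' a e η)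

/-- **ALL THE DEPTHS OF THE CHAIN**: the layers and the nodes, any moment `z`, any `ε`. -/
theorem depths6 [IsProbabilityMeasure μ] (hC : Cs94 μ s c₀ δ₁ c₁ A a g θ Y₁ K0 Kb n₃) (h : In μ s c C n₀) {R : ℕ} (hR : 1 ≤ R)
    {K θ' : ℝ} (hK : 0 < K) (hθ : 0 < θ') (hθ1 : θ' ≤ 1) : ∃ P n₁ : ℕ, 1 ≤ n₁ ∧ ∀ th z ε : ℝ, 1 < th → 1 ≤ z → 0 < ε →
      ∃ Y₂ Y₀ : ℝ, 8 * Y₁ ≤ Y₂ ∧ 8 ≤ Y₂ ∧ 1 ≤ Y₀ ∧ ∀ Y : ℝ, Y₂ ≤ Y → ∀ q₀ : ℝ, Y₀ ≤ q₀ → ∀ (D : ℕ) (H : ℕ → ℕ), (∀ v, n₁ ≤ H v) →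
        ∀ {Λ : Type*} (w q : Cut Λ → Cut Λ → Cut Λ → ℝ) (col : Cut Λ → Cut Λ → Cut Λ → ℤ) (col' : Cut Λ → ℤ),
          Dp2 μ (ENNReal.ofReal z) (1 + ENNReal.ofReal ε) (dpL6 μ s c θ' K P q₀ th D H col') ∧
            Dp3 μ (ENNReal.ofReal z) (1 + ENNReal.ofReal ε)
              (dpN6 μ s c₀ δ₁ θ Y Kb n₃ R w q col c θ' K P q₀ th D H col') := by
  obtain ⟨P, n₁, hn1, X⟩ := dp2_6 h hK hθ hθ1
  refine ⟨P, n₁, hn1, fun th z ε hth hz hε => ?_⟩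
  obtain ⟨Y₂, h1, h2, X3⟩ := dp3_x6 hC hR hz (half_pos hε)
  obtain ⟨Y₀, h3, X⟩ := X th z (ε / 2) hth hz (half_pos hε)
  refine ⟨Y₂, Y₀, h1, h2, h3, fun Y hY q₀ hq D H hH Λ w q col col' => ?_⟩
  have hz' : (1 : ℝ≥0∞) ≤ ENNReal.ofReal z := by
    rw [← ENNReal.ofReal_one]
    exact ENNReal.ofReal_le_ofReal hz
  have e : ENNReal.ofReal (ε / 2) + ENNReal.ofReal (ε / 2) = ENNReal.ofReal ε := by
    rw [← ENNReal.ofReal_add (by positivity) (by positivity), add_halves]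
  have hL := X q₀ hq D H hH col'
  refine ⟨hL.mono (add_le_add le_rfl (ENNReal.ofReal_le_ofReal (by linarith))), ?_⟩
  have h5 := (X3 Y hY w q col).max hz' hL.dp3
  rw [e] at h5
  exact h5

end

end Pool.Agent.W_7d29a1_C1.Dep6
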