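import Pool.Agent.W_7d29a1_C1.DepT6

/-!
MP_7d29a1_pr, the attractor route, TAME: THE POTENTIAL WITH THE CONCRETE DEPTHS. (helper6)

`dL6`, `dN6` : the depth of a layer (two families of levels), the depth of a node (`Cn` times a fat level, and the levels of its rows).
`depths6T` : moments and tails. `potJP6` = `potJ40` with one more property `PZ` of the list of the cuts. `pot6` = the same for depths of ALL
the layers: the layers which contain a row of `Sw` are paid by `E₀` and by a rare set.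
-/

set_option autoImplicit false

namespace Pool.Agent.W_7d29a1_C1.Dep6

open MeasureTheory ProbabilityTheory Finset
open Pool.Agent.W_7d29a1_F Pool.Agent.W_7d29a1_h4g Pool.Agent.W_7d29a1_H Pool.Agent.W_7d29a1_HS
open Pool.Agent.W_7d29a1_C1.H75 Pool.Agent.W_7d29a1_C1.U16 Pool.Agent.W_7d29a1_C1.H40 Pool.Agent.W_7d29a1_C1.S71
open scoped ENNReal

noncomputable section

variable {Λ : Type*}

/-! ### The two depths -/

/-- **The depth of a layer.** -/
def dL6 (F F' : Cut Λ → Cut Λ → ℝ → Set Env) (q₀ th : ℝ) (D : ℕ) (a b : Cut Λ) (η : Env) : ℕ :=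
  max (dFam F q₀ th D a b η) (dFam F' q₀ th D a b η)

/-- **The depth of a node.** -/
def dN6 (X : Cut Λ → Cut Λ → Cut Λ → Env → ℕ) (Cn : ℕ) (F : Cut Λ → Cut Λ → ℝ → Set Env) (q₀ th : ℝ) (D : ℕ) (a b e : Cut Λ)
    (η : Env) : ℕ := max (Cn * X a b e η) (dFam F q₀ th D a e η)

section Depths

variable {μ : Measure ℝ} {A a g A' a' g' q₀ th : ℝ} {F F' : Cut Λ → Cut Λ → ℝ → Set Env} {D : ℕ}

theorem dL6_good (hF : LvF μ A a g F) (hF' : LvF μ A' a' g' F') (hq : 0 ≤ q₀) (hth : 1 ≤ th) {x y : Cut Λ} {η : Env} {l : ℕ}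
    (h : dL6 F F' q₀ th D x y η ≤ l) (hl : l < D) : η ∈ F x y (q₀ * th ^ l) ∧ η ∈ F' x y (q₀ * th ^ l) :=
  ⟨fam_good hF hq hth ((le_max_left _ _).trans h) hl, fam_good hF' hq hth ((le_max_right _ _).trans h) hl⟩

theorem dN6_good (hF : LvF μ A a g F) (hq : 0 ≤ q₀) (hth : 1 ≤ th) {X : Cut Λ → Cut Λ → Cut Λ → Env → ℕ} {Cn : ℕ} {x y e : Cut Λ}
    {η : Env} {l : ℕ} (h : dN6 X Cn F q₀ th D x y e η ≤ l) (hl : l < D) : Cn * X x y e η ≤ l ∧ η ∈ F x e (q₀ * th ^ l) :=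
  ⟨(le_max_left _ _).trans h, fam_good hF hq hth ((le_max_right _ _).trans h) hl⟩

end Depths

/-- **THE DEPTHS OF THE CHAIN.** -/
theorem depths6T {μ : Measure ℝ} [IsProbabilityMeasure μ] {A a g A' a' g' th z ε : ℝ} (hA : 0 < A) (ha : 0 < a) (hg : 0 < g)
    (hA' : 0 < A') (ha' : 0 < a') (hg' : 0 < g') (hth : 1 < th) (hz : 1 ≤ z) (hε : 0 < ε) : ∃ Y₀ : ℝ, 1 ≤ Y₀ ∧ ∀ q₀ : ℝ, Y₀ ≤ q₀ →
      ∀ (D : ℕ) {Λ : Type*} {F F' : Cut Λ → Cut Λ → ℝ → Set Env}, LvF μ A a g F → LvF μ A' a' g' F' →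
        Dp2 μ (ENNReal.ofReal z) (1 + ENNReal.ofReal ε) (dL6 F F' q₀ th D) ∧
        (∀ E₀ x y, law μ {η | E₀ < dL6 F F' q₀ th D x y η} ≤ ENNReal.ofReal (A * Real.exp (-(a * (q₀ * th ^ E₀) ^ g)) +
          A' * Real.exp (-(a' * (q₀ * th ^ E₀) ^ g')))) ∧
        ∀ (X : Cut Λ → Cut Λ → Cut Λ → Env → ℕ) (Cn : ℕ), Dp3 μ (ENNReal.ofReal z ^ Cn) (1 + ENNReal.ofReal (ε / 2)) X →
          Dp3 μ (ENNReal.ofReal z) (1 + ENNReal.ofReal ε) (dN6 X Cn F q₀ th D) := by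
  obtain ⟨Y₁, h1, H1⟩ := numbers (z := z) (A := A) (a := a) (g := g) (θ := th) (ε := ε / 2) hz hA ha hg hth (half_pos hε)
  obtain ⟨Y₂, h2, H2⟩ := numbers (z := z) (A := A') (a := a') (g := g') (θ := th) (ε := ε / 2) hz hA' ha' hg' hth (half_pos hε)
  refine ⟨max Y₁ Y₂, h1.trans (le_max_left _ _), fun q₀ hq D Λ F F' hF hF' => ?_⟩
  have hq1 : Y₁ ≤ q₀ := (le_max_left _ _).trans hq
  have hq2 : Y₂ ≤ q₀ := (le_max_right _ _).trans hq
  have hq0 : 0 ≤ q₀ := by linarith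
  have hz' : (1 : ℝ≥0∞) ≤ ENNReal.ofReal z := by
    rw [← ENNReal.ofReal_one]
    exact ENNReal.ofReal_le_ofReal hz
  have e : ENNReal.ofReal (ε / 2) + ENNReal.ofReal (ε / 2) = ENNReal.ofReal ε := by
    rw [← ENNReal.ofReal_add (by positivity) (by positivity), add_halves]
  have d1 := dp2_fam hF hz hA hq0 hth.le (H1 q₀ hq1 D)
  have d2 := dp2_fam hF' hz hA' hq0 hth.le (H2 q₀ hq2 D)
  refine ⟨?_, fun E₀ x y => ?_, fun X Cn hX => ?_⟩
  · have h5 := d1.max hz' d2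
    rw [e] at h5
    exact h5
  · rw [ENNReal.ofReal_add (by positivity) (by positivity)]
    exact tail_max (fam_tail hF hq0 hth.le E₀ x y) (fam_tail hF' hq0 hth.le E₀ x y)
  · have h5 := (hX.mul Cn).max hz' d1.dp3
    rw [e] at h5
    exact h5

/-! ### Not felt -/

/-- **What `not felt` says.** -/
theorem nfl_le {d : Cut Λ → Cut Λ → Env → ℕ} {scL : Cut Λ → Cut Λ → ℕ} {Z P Q : List (Cut Λ)} {a b : Cut Λ} {u l : ℕ} {η : Env}
    (h : NFL d scL Z u η) (hZ : Z = P ++ a :: b :: Q) (h1 : u ≤ scL a b + l) (h2 : scL a b ≤ u + l) : d a b η ≤ l :=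
  le_of_not_felt (h P a b Q hZ) h1 h2

/-- `not felt` at the distance at most `v`: a depth which is `0` or at least `v` is `0`. -/
theorem nfl_zero {d : Cut Λ → Cut Λ → Env → ℕ} {scL : Cut Λ → Cut Λ → ℕ} {Z P Q : List (Cut Λ)} {a b : Cut Λ} {u v : ℕ} {η : Env}
    (h : NFL d scL Z u η) (hZ : Z = P ++ a :: b :: Q) (h1 : u ≤ scL a b + v) (h2 : scL a b ≤ u + v) (hv : 1 ≤ v) :
    d a b η < v := by
  by_contra hc
  exact h P a b Q hZ ⟨by omega, by omega, by omega⟩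

/-! ### The potential with a property of the list -/

variable {σ : Type*} {G : Geo σ Λ} {R : RJ σ} {lat : σ → ℝ} {latC : Cut Λ → ℝ} {w : ℕ → ℝ}

open Classical in
/-- **`potJ40` with one more property `PZ` of the list of the cuts** (helper40's proof). -/
theorem potJP6 [Inhabited Λ] {μ : Measure ℝ} [IsProbabilityMeasure μ] (h : GRJ G R.near) {A B Nt : ℕ} (t : TreeB G R.near A B Nt)
    (hr : Geo.LocRow G) {kn kb C0 : ℝ} {C2 D : ℕ} (hl : LatJ G R.near lat latC w kn kb) (hC0 : 4 * (kn + kb + 1) ≤ C0)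
    (hD : 1 ≤ D) {dpL : Cut Λ → Cut Λ → Env → ℕ} {dpN : Cut Λ → Cut Λ → Cut Λ → Env → ℕ}
    (mL : ∀ a b, Measurable (dpL a b)) (mN : ∀ a b c, Measurable (dpN a b c))
    (rL : ∀ a b (η η' : Env), (∀ p ∈ btw a b, η p = η' p) → dpL a b η = dpL a b η')
    (rN : ∀ a b c (η η' : Env), (∀ p ∈ btw a c, η p = η' p) → dpN a b c η = dpN a b c η')
    {z M : ℝ≥0∞} (hz : 1 ≤ z) (hz' : z ≠ ∞) (hM : 1 ≤ M) {Sw : Finset ℤ} {E0 : ℕ}
    (momL : ∀ a b, ¬ HasSw Sw a b → ∫⁻ η, z ^ dpL a b η ∂(law μ) ≤ M)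
    (momN : ∀ a b e, ¬ HasSw Sw a e → ∫⁻ η, z ^ dpN a b e η ∂(law μ) ≤ M)
    (hEL : ∀ a b η, HasSw Sw a b → dpL a b η ≤ E0) (hEN : ∀ a b e η, HasSw Sw a e → dpN a b e η ≤ E0)
    (scL : Cut Λ → Cut Λ → ℕ) (scN : Cut Λ → Cut Λ → Cut Λ → ℕ) {PZ : List (Cut Λ) → Prop}
    (hPZ : ∀ x ∈ G.W, ∀ l, R.near.IsC x 0 l → PZ (cutsJ G R.near x l)) {T : ℕ → σ → Set Env} {bad : Set Env}
    (hT : ∀ η ∉ bad, ∀ ρ ∈ G.W, ∀ u Z, PZ Z → (Z.Pairwise fun c d => c.row ≤ d.row) → (∀ d ∈ Z, d.sc ≤ G.m) →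
      OD G lat latC w C0 C2 D Z ρ u → NFL dpL scL Z u η → NFN dpN scN Z u η → η ∈ T u ρ)
    {y : ℝ≥0∞} (hy : y ≤ 1) {r b : ℕ}
    (hb : 6 * (C2 + 3) * nSt R.m R.g R.lam + 2 * ((R.m + R.g) / D) + 9 * r + 9 * (Sw.card * E0) ≤ b) :
    law μ {η | ∃ x ∈ G.W, R.Pot (Rl.dpT T) y x 0 η < y ^ (3 * b)} ≤
      law μ bad + (nCodeJ Nt (A ^ 2) G.m R.g : ℝ≥0∞) * (3 * (M ^ (3 * (G.m + R.g) + 1) / z ^ r)) := by
  have hP : IsProbabilityMeasure (law μ) := by unfold law; infer_instance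
  obtain ⟨C, hC⟩ := t.cnt h
  have hg : 3 ≤ R.g := h.g_ge
  set dpL' : Cut Λ → Cut Λ → Env → ℕ := fun a b η => if HasSw Sw a b then 0 else dpL a b η with hdL
  set dpN' : Cut Λ → Cut Λ → Cut Λ → Env → ℕ := fun a b e η => if HasSw Sw a e then 0 else dpN a b e η with hdN
  have mL' : ∀ a b, Measurable (dpL' a b) := fun a b => by
    by_cases hs : HasSw Sw a b
    · have e : dpL' a b = fun _ => 0 := funext fun η => if_pos hs
      rw [e]; exact measurable_const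
    · have e : dpL' a b = dpL a b := funext fun η => if_neg hs
      rw [e]; exact mL a b
  have mN' : ∀ a b e, Measurable (dpN' a b e) := fun a b e => by
    by_cases hs : HasSw Sw a e
    · have e : dpN' a b e = fun _ => 0 := funext fun η => if_pos hs
      rw [e]; exact measurable_const
    · have e : dpN' a b e = dpN a b e := funext fun η => if_neg hs
      rw [e]; exact mN _ _ _
  have rL' : ∀ a b (η η' : Env), (∀ p ∈ btw a b, η p = η' p) → dpL' a b η = dpL' a b η' := fun a b η η' he => by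
    show (if HasSw Sw a b then 0 else dpL a b η) = if HasSw Sw a b then 0 else dpL a b η'
    rw [rL a b η η' he]
  have rN' : ∀ a b c (η η' : Env), (∀ p ∈ btw a c, η p = η' p) → dpN' a b c η = dpN' a b c η' := fun a b c η η' he => by
    show (if HasSw Sw a c then 0 else dpN a b c η) = if HasSw Sw a c then 0 else dpN a b c η'
    rw [rN a b c η η' he]
  have momL' : ∀ a b, ∫⁻ η, z ^ dpL' a b η ∂(law μ) ≤ M := fun a b => by
    by_cases hs : HasSw Sw a b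
    · have e : ∀ η, z ^ dpL' a b η = 1 := fun η => by
        show z ^ (if HasSw Sw a b then 0 else dpL a b η) = 1
        rw [if_pos hs, pow_zero]
      simp only [e, lintegral_const, measure_univ, mul_one]
      exact hM
    · have e : dpL' a b = dpL a b := funext fun η => if_neg hs
      rw [e]; exact momL a b hs
  have momN' : ∀ a b e, ∫⁻ η, z ^ dpN' a b e η ∂(law μ) ≤ M := fun a b e => by
    by_cases hs : HasSw Sw a e
    · have e' : ∀ η, z ^ dpN' a b e η = 1 := fun η => by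
        show z ^ (if HasSw Sw a e then 0 else dpN a b e η) = 1
        rw [if_pos hs, pow_zero]
      simp only [e', lintegral_const, measure_univ, mul_one]
      exact hM
    · have e' : dpN' a b e = dpN a b e := funext fun η => if_neg hs
      rw [e']; exact momN _ _ _ hs
  have hmain : law μ {η | ∃ x ∈ G.W, ∃ l, R.near.IsC x 0 l ∧
      3 * r ≤ SL dpL' (cutsJ G R.near x l) η + SN dpN' (cutsJ G R.near x l) η} ≤ _ :=
    unionB h C (S := fun x l η => SL dpL' (cutsJ G R.near x l) η + SN dpN' (cutsJ G R.near x l) η)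
      (fun x _ x' _ l l' hl hl' h1 h2 η => by
        show SL dpL' (cutsJ G R.near x l) η + SN dpN' (cutsJ G R.near x l) η =
          SL dpL' (cutsJ G R.near x' l') η + SN dpN' (cutsJ G R.near x' l') η
        rw [cutsJ_congr hr hl hl' h1 h2])
      (fun x hx l hl => tailZ mL' mN' rL' rN' hz hz' hM (cutsJ_pw h hl) (cutsJ_length h hl) (fun _ _ => momL' _ _)
        (fun _ _ => momN' _ _ _) r)
  rw [hC] at hmain
  refine (measure_mono (fun η hη => ?_)).trans ((measure_union_le bad _).trans (add_le_add le_rfl hmain))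
  by_cases hbad : η ∈ bad
  · exact Or.inl hbad
  refine Or.inr ?_
  obtain ⟨x, hx, hlt⟩ := hη
  by_contra hcon
  have hcon' : ∀ x ∈ G.W, ∀ l, R.near.IsC x 0 l →
      SL dpL' (cutsJ G R.near x l) η + SN dpN' (cutsJ G R.near x l) η < 3 * r := by
    intro x hx l hl
    by_contra h1
    exact hcon ⟨x, hx, l, hl, not_lt.1 h1⟩
  have hone : ∀ ρ ∈ R.W, ∀ l, R.near.IsC ρ 0 l → R.near.nm (Rl.dpT T) l η ≤ b := by
    intro ρ hρ l hl0
    have hW : R.near.W = G.W := h.W_eq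
    have hρ' : ρ ∈ G.W := by rw [← hW]; exact hρ
    have h1 := hcon' ρ hρ' l hl0
    have hpw := cutsJ_pw h hl0
    have h2 := countJ (T := T) (η := η) (C1 := C2 + 3) (D := D) (R := R.near) (show 1 ≤ R.g by omega) hl0
      (cutsJ G R.near ρ l) dpL dpN scL scN (fun c hc u ρ' ho hex hfL hfN => by
        have hρW : ρ' ∈ G.W := by
          have := (RJ.Rc.spec (R := R.near) (x := ρ) (τ := 0) (u := u) (ρ := ρ') ⟨l, c, hl0, hc, ho⟩).1
          rwa [hW] at this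
        exact hT η hbad ρ' hρW u _ (hPZ ρ hρ' l hl0) hpw (cutsJ_sc h hl0) (cutsJ_OD h hl hC0 hD hl0 hc ho hex) hfL hfN)
    have h3 : l.length ≤ nSt R.m R.g R.lam := length_leJ h hl0
    have h4 : 6 * (C2 + 3) * l.length ≤ 6 * (C2 + 3) * nSt R.m R.g R.lam := Nat.mul_le_mul_left _ h3
    have h5 := SL_sw hpw Sw (dpL := dpL) (η := η) (E0 := E0) (fun a b hs => hEL a b η hs)
    have h6 := SN_sw hpw Sw (dpN := dpN) (η := η) (E0 := E0) (fun a b e hs => hEN a b e η hs)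
    have h7 : R.near.m = R.m := rfl
    have h8 : R.near.g = R.g := rfl
    rw [h7, h8] at h2
    change SL dpL _ η ≤ SL dpL' _ η + _ at h5
    change SN dpN _ η ≤ SN dpN' _ η + _ at h6
    omega
  refine absurd hlt (not_lt.2 (RJ.le_Pot hy fun l hl0 => ?_))
  obtain ⟨l', h1, h2⟩ := RJ.nm_near (show 1 ≤ R.g by omega) hl0 hone
  have h3 : x ∈ R.W := by
    have hW : R.near.W = G.W := h.W_eq
    show x ∈ R.near.W
    rw [hW]
    exact hx
  have h4 := hone x h3 l' h1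
  omega

/-- **THE POTENTIAL WITH THE DEPTHS OF ALL THE LAYERS.** The layers and nodes which contain a row of `Sw` are paid by `E₀`; off a rare set
the depth of EVERY layer which is not felt is small, with or without a row of `Sw`. -/
theorem pot6 [Inhabited Λ] {μ : Measure ℝ} [IsProbabilityMeasure μ] (h : GRJ G R.near) {A B Nt : ℕ} (t : TreeB G R.near A B Nt)
    (hr : Geo.LocRow G) {kn kb C0 : ℝ} {C2 D : ℕ} (hl : LatJ G R.near lat latC w kn kb) (hC0 : 4 * (kn + kb + 1) ≤ C0)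
    (hD : 1 ≤ D) {dL : Cut Λ → Cut Λ → Env → ℕ} {dN : Cut Λ → Cut Λ → Cut Λ → Env → ℕ} {z M tl : ℝ≥0∞}
    (hL : Dp2 μ z M dL) (hN : Dp3 μ z M dN) (hz : 1 ≤ z) (hz' : z ≠ ∞) (hM : 1 ≤ M) (Sw : Finset ℤ) (E0 : ℕ)
    (htl : ∀ a b, law μ {η | E0 < dL a b η} ≤ tl)
    (scL : Cut Λ → Cut Λ → ℕ) (scN : Cut Λ → Cut Λ → Cut Λ → ℕ) {PZ : List (Cut Λ) → Prop}
    (hPZ : ∀ x ∈ G.W, ∀ l, R.near.IsC x 0 l → PZ (cutsJ G R.near x l)) {F : Finset (Cut Λ)} (hF : ∀ Z, PZ Z → ∀ d ∈ Z, d ∈ F)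
    {T : ℕ → σ → Set Env} {bad : Set Env}
    (hT : ∀ η ∉ bad, ∀ ρ ∈ G.W, ∀ u Z, PZ Z → (Z.Pairwise fun c d => c.row ≤ d.row) → (∀ d ∈ Z, d.sc ≤ G.m) →
      OD G lat latC w C0 C2 D Z ρ u → NFL dL scL Z u η →
      (∀ P a b e Q, Z = P ++ a :: b :: e :: Q → ¬ HasSw Sw a e → ¬ Felt (scN a b e) (dN a b e η) u) → η ∈ T u ρ)
    {y : ℝ≥0∞} (hy : y ≤ 1) {r b : ℕ}
    (hb : 6 * (C2 + 3) * nSt R.m R.g R.lam + 2 * ((R.m + R.g) / D) + 9 * r + 9 * (Sw.card * E0) ≤ b) :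
    law μ {η | ∃ x ∈ G.W, R.Pot (Rl.dpT T) y x 0 η < y ^ (3 * b)} ≤
      (law μ bad + (F.card : ℝ≥0∞) ^ 2 * tl) + (nCodeJ Nt (A ^ 2) G.m R.g : ℝ≥0∞) * (3 * (M ^ (3 * (G.m + R.g) + 1) / z ^ r)) := by
  refine (potJP6 (dpL := sw6 Sw E0 dL) (dpN := swN6 Sw E0 dN) h t hr hl hC0 hD (fun a b => ?_) (fun a b e => ?_)
    (fun a b η η' he => ?_) (fun a b e η η' he => ?_) hz hz' hM (Sw := Sw) (E0 := E0) (fun a b hs => ?_) (fun a b e hs => ?_)
    (fun a b η hs => ?_) (fun a b e η hs => ?_) scL scN hPZ (T := T) (bad := bad ∪ bad6 F dL E0)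
    (fun η hη ρ hρ u Z hZ hpw hsc ho hnL hnN => ?_) hy hb).trans (add_le_add ((measure_union_le _ _).trans
      (add_le_add le_rfl (bad6_le htl))) le_rfl)
  · by_cases hs : HasSw Sw a b
    · have e : sw6 Sw E0 dL a b = fun _ => E0 := funext fun η => sw6_pos hs
      rw [e]; exact measurable_const
    · have e : sw6 Sw E0 dL a b = dL a b := funext fun η => sw6_neg hs
      rw [e]; exact hL.meas a b
  · by_cases hs : HasSw Sw a e
    · have e : swN6 Sw E0 dN a b e = fun _ => E0 := funext fun η => swN6_pos hs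
      rw [e]; exact measurable_const
    · have e : swN6 Sw E0 dN a b e = dN a b e := funext fun η => swN6_neg hs
      rw [e]; exact hN.meas _ _ _
  · unfold sw6
    rw [hL.rows a b η η' he]
  · unfold swN6
    rw [hN.rows a b e η η' he]
  · have e : ∀ η, sw6 Sw E0 dL a b η = dL a b η := fun η => sw6_neg hs
    simp only [e]
    exact hL.mom a b
  · have e' : ∀ η, swN6 Sw E0 dN a b e η = dN a b e η := fun η => swN6_neg hs
    simp only [e']
    exact hN.mom a b e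
  · exact (sw6_pos hs).le
  · exact (swN6_pos hs).le
  · have hb1 : η ∉ bad := fun h' => hη (Or.inl h')
    have hb2 : η ∉ bad6 F dL E0 := fun h' => hη (Or.inr h')
    refine hT η hb1 ρ hρ u Z hZ hpw hsc ho (fun P a b Q e => nfelt6 (hnL P a b Q e) (Or.inl ?_)) fun P a b d Q e hs => ?_
    · by_contra hc
      exact hb2 ⟨a, hF Z hZ a (by rw [e]; simp), b, hF Z hZ b (by rw [e]; simp), not_le.1 hc⟩
    · have h3 := hnN P a b d Q e
      rwa [swN6_neg hs] at h3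

end

end Pool.Agent.W_7d29a1_C1.Dep6
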