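import Pool.Agent.W_7d29a1_C1.DepN6
import Pool.Agent.W_7d29a1_C1.Stp84
import Pool.Agent.W_7d29a1_C1.ChnO40

/-!
MP_7d29a1_pr, the attractor route, TAME: THE CONCRETE DEPTHS OF THE POTENTIAL. (helper6)

`LvF` : a family of level events of layers with a stretched exponential tail; its depth `dFam` (`dp2_fam`, `fam_good`, `fam_tail`). Instances:
the levels `Far16` (`lv_fam`), the steep level `StE84` (`st_fam`). `dE6`: an event as a depth of the value `w`. `sw6`, `swN6`: the layers and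
nodes which contain a row of `S`. `pot6`: `potJ40` with the depths of ALL the layers (the switch row is paid by `E₀` and by a rare set).
-/

set_option autoImplicit false

namespace Pool.Agent.W_7d29a1_C1.Dep6

open MeasureTheory ProbabilityTheory Finset
open Pool.Agent.W_7d29a1_F Pool.Agent.W_7d29a1_h4g Pool.Agent.W_7d29a1_H Pool.Agent.W_7d29a1_HS
open Pool.Agent.W_7d29a1_C1.H75 Pool.Agent.W_7d29a1_C1.U16 Pool.Agent.W_7d29a1_C1.H40
open Pool.Agent.W_7d29a1_C1.H94 Pool.Agent.W_7d29a1_C1.ArmS89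
open scoped ENNReal

noncomputable section

variable {Λ : Type*}

/-! ### Labels -/

/-- The label of a layer. -/
def lb6 (a b : Cut Λ) : ℕ := max a.sc b.sc

/-- The label of a node. -/
def lbN6 (_ b _ : Cut Λ) : ℕ := b.sc

/-! ### Families of levels -/

/-- **A family of levels of layers**: good at the level `q`. -/
structure LvF (μ : Measure ℝ) (A a g : ℝ) (F : Cut Λ → Cut Λ → ℝ → Set Env) : Prop where
  mono : ∀ x y {q q' : ℝ}, q ≤ q' → F x y q ⊆ F x y q'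
  meas : ∀ x y q, MeasurableSet (F x y q)
  rows : ∀ x y q (η η' : Env), (∀ p ∈ btw x y, η p = η' p) → (η ∈ F x y q ↔ η' ∈ F x y q)
  tail : ∀ x y q, 0 ≤ q → law μ (F x y q)ᶜ ≤ ENNReal.ofReal (A * Real.exp (-(a * q ^ g)))

/-- The bad events of the levels `q₀ th ^ l`. -/
def bFam (F : Cut Λ → Cut Λ → ℝ → Set Env) (q₀ th : ℝ) (x y : Cut Λ) (l : ℕ) : Set Env := (F x y (q₀ * th ^ l))ᶜ

/-- **The depth of a family of levels.** -/
def dFam (F : Cut Λ → Cut Λ → ℝ → Set Env) (q₀ th : ℝ) (D : ℕ) (x y : Cut Λ) : Env → ℕ := dep (bFam F q₀ th x y) D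

section Fam

variable {μ : Measure ℝ} {A a g q₀ th : ℝ} {F : Cut Λ → Cut Λ → ℝ → Set Env} {D : ℕ}

theorem bFam_anti (hF : LvF μ A a g F) (hq : 0 ≤ q₀) (hth : 1 ≤ th) (x y : Cut Λ) : Antitone (bFam F q₀ th x y) := fun _ _ h =>
  Set.compl_subset_compl.2 (hF.mono x y (mul_le_mul_of_nonneg_left (pow_le_pow_right₀ hth h) hq))

/-- What a small depth says. -/
theorem fam_good (hF : LvF μ A a g F) (hq : 0 ≤ q₀) (hth : 1 ≤ th) {x y : Cut Λ} {η : Env} {l : ℕ}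
    (h : dFam F q₀ th D x y η ≤ l) (hl : l < D) : η ∈ F x y (q₀ * th ^ l) :=
  not_not.1 (good (bFam_anti hF hq hth x y) h hl)

theorem dFam_le (x y : Cut Λ) (η : Env) : dFam F q₀ th D x y η ≤ D := dep_le _ _ _

/-- **The tail of the depth.** -/
theorem fam_tail (hF : LvF μ A a g F) (hq : 0 ≤ q₀) (hth : 1 ≤ th) (E₀ : ℕ) (x y : Cut Λ) :
    law μ {η | E₀ < dFam F q₀ th D x y η} ≤ ENNReal.ofReal (A * Real.exp (-(a * (q₀ * th ^ E₀) ^ g))) := by
  refine (measure_mono fun η (hη : E₀ < dFam F q₀ th D x y η) => ?_).trans (hF.tail x y (q₀ * th ^ E₀) (by positivity))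
  exact ((lt_dep (bFam_anti hF hq hth x y)).1 hη).2

/-- **The depth of a family of levels is a depth of layers.** -/
theorem dp2_fam [IsProbabilityMeasure μ] (hF : LvF μ A a g F) {z ε : ℝ} (hz : 1 ≤ z) (hA : 0 < A) (hq : 0 ≤ q₀) (hth : 1 ≤ th)
    (hn : ∑ l ∈ range D, z ^ (l + 1) * (A * Real.exp (-(a * (q₀ * th ^ l) ^ g))) ≤ ε) :
    Dp2 μ (ENNReal.ofReal z) (1 + ENNReal.ofReal ε) (dFam F q₀ th D) := by
  have hP : IsProbabilityMeasure (law μ) := by unfold law; infer_instance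
  refine ⟨fun x y => measurable_dep (fun l => (hF.meas x y _).compl) D, fun x y η η' hh => ?_, fun x y => ?_⟩
  · exact dep_congr fun l _ => not_congr (hF.rows x y _ η η' hh)
  · exact moment_le (bFam_anti hF hq hth x y) (fun l => (hF.meas x y _).compl) D hz hA hn
      fun l _ => hF.tail x y _ (by positivity)

end Fam

/-! ### One event -/

open Classical in
/-- An event as a depth of the value `v`. -/
def dE6 (E : Cut Λ → Cut Λ → Set Env) (v : ℕ) (x y : Cut Λ) (η : Env) : ℕ := if η ∈ E x y then 0 else v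

theorem dE6_le (E : Cut Λ → Cut Λ → Set Env) (v : ℕ) (x y : Cut Λ) (η : Env) : dE6 E v x y η ≤ v := by
  unfold dE6
  split_ifs <;> omega

theorem dE6_good {E : Cut Λ → Cut Λ → Set Env} {v : ℕ} {x y : Cut Λ} {η : Env} (h : dE6 E v x y η < v) : η ∈ E x y := by
  by_contra hc
  unfold dE6 at h
  rw [if_neg hc] at h
  exact lt_irrefl _ h

theorem dp2_E {μ : Measure ℝ} [IsProbabilityMeasure μ] {E : Cut Λ → Cut Λ → Set Env} {v : ℕ} {z d : ℝ≥0∞}
    (mE : ∀ x y, MeasurableSet (E x y)) (rE : ∀ x y (η η' : Env), (∀ p ∈ btw x y, η p = η' p) → (η ∈ E x y ↔ η' ∈ E x y))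
    (pE : ∀ x y, law μ (E x y)ᶜ ≤ d) : Dp2 μ z (1 + z ^ v * d) (dE6 E v) := by
  have hP : IsProbabilityMeasure (law μ) := by unfold law; infer_instance
  refine ⟨fun x y => ?_, fun x y η η' hh => ?_, fun x y => ?_⟩
  · exact Measurable.ite (mE x y) measurable_const measurable_const
  · unfold dE6
    by_cases h : η ∈ E x y
    · rw [if_pos h, if_pos ((rE x y η η' hh).1 h)]
    · rw [if_neg h, if_neg fun h' => h ((rE x y η η' hh).2 h')]
  · have hpt : ∀ η, z ^ dE6 E v x y η ≤ 1 + (E x y)ᶜ.indicator (fun _ => z ^ v) η := by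
      intro η
      unfold dE6
      by_cases h : η ∈ E x y
      · rw [if_pos h, pow_zero]
        exact le_self_add
      · rw [if_neg h, Set.indicator_of_mem (show η ∈ (E x y)ᶜ from h)]
        exact le_add_self
    calc ∫⁻ η, z ^ dE6 E v x y η ∂(law μ) ≤ ∫⁻ η, (1 + (E x y)ᶜ.indicator (fun _ => z ^ v) η) ∂(law μ) := lintegral_mono hpt
      _ = 1 + z ^ v * law μ (E x y)ᶜ := by
          rw [lintegral_add_left measurable_const, lintegral_const, measure_univ, mul_one,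
            lintegral_indicator_const (mE x y).compl]
      _ ≤ 1 + z ^ v * d := add_le_add le_rfl (mul_le_mul' le_rfl (pE x y))

/-! ### Multiples -/

/-- A multiple of a depth of nodes (`POINT 2`: the fat levels are felt only at a fraction of the distance). -/
theorem Dp3.mul {μ : Measure ℝ} {z M : ℝ≥0∞} {d : Cut Λ → Cut Λ → Cut Λ → Env → ℕ} (C : ℕ) (h : Dp3 μ (z ^ C) M d) :
    Dp3 μ z M fun a b e η => C * d a b e η :=
  ⟨fun a b e => (measurable_from_nat (f := fun n : ℕ => C * n)).comp (h.meas a b e),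
    fun a b e η η' hh => by rw [h.rows a b e η η' hh], fun a b e => by
      refine (le_of_eq (lintegral_congr fun η => ?_)).trans (h.mom a b e)
      rw [pow_mul]⟩

theorem Dp2.mul {μ : Measure ℝ} {z M : ℝ≥0∞} {d : Cut Λ → Cut Λ → Env → ℕ} (C : ℕ) (h : Dp2 μ (z ^ C) M d) :
    Dp2 μ z M fun a b η => C * d a b η :=
  ⟨fun a b => (measurable_from_nat (f := fun n : ℕ => C * n)).comp (h.meas a b),
    fun a b η η' hh => by rw [h.rows a b η η' hh], fun a b => by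
      refine (le_of_eq (lintegral_congr fun η => ?_)).trans (h.mom a b)
      rw [pow_mul]⟩

/-! ### The switch row -/

open Classical in
/-- The layers which contain a row of `S` get the depth `E₀`. -/
def sw6 (S : Finset ℤ) (E₀ : ℕ) (d : Cut Λ → Cut Λ → Env → ℕ) (a b : Cut Λ) (η : Env) : ℕ := if HasSw S a b then E₀ else d a b η

open Classical in
/-- The nodes which contain a row of `S` get the depth `E₀`. -/
def swN6 (S : Finset ℤ) (E₀ : ℕ) (d : Cut Λ → Cut Λ → Cut Λ → Env → ℕ) (a b e : Cut Λ) (η : Env) : ℕ :=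
  if HasSw S a e then E₀ else d a b e η

theorem felt_mono {sc d d' u : ℕ} (h : d ≤ d') (hf : Felt sc d u) : Felt sc d' u := ⟨hf.1.trans h, by have := hf.2.1; omega, by have := hf.2.2; omega⟩

section Sw

variable {S : Finset ℤ} {E₀ : ℕ} {d : Cut Λ → Cut Λ → Env → ℕ} {dN : Cut Λ → Cut Λ → Cut Λ → Env → ℕ} {a b e : Cut Λ} {η : Env}

theorem sw6_pos (h : HasSw S a b) : sw6 S E₀ d a b η = E₀ := if_pos h

theorem sw6_neg (h : ¬ HasSw S a b) : sw6 S E₀ d a b η = d a b η := if_neg h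

theorem swN6_pos (h : HasSw S a e) : swN6 S E₀ dN a b e η = E₀ := if_pos h

theorem swN6_neg (h : ¬ HasSw S a e) : swN6 S E₀ dN a b e η = dN a b e η := if_neg h

/-- **A layer which is not felt**, with or without the switch row. -/
theorem nfelt6 {sc u : ℕ} (h : ¬ Felt sc (sw6 S E₀ d a b η) u) (hd : d a b η ≤ E₀ ∨ ¬ HasSw S a b) : ¬ Felt sc (d a b η) u := by
  by_cases hs : HasSw S a b
  · rw [sw6_pos hs] at h
    rcases hd with hd | hd
    · exact fun hf => h (felt_mono hd hf)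
    · exact absurd hs hd
  · rwa [sw6_neg hs] at h

end Sw

/-! ### The rare set -/

/-- Some layer between two cuts of `F` has a depth above `E₀`. -/
def bad6 (F : Finset (Cut Λ)) (d : Cut Λ → Cut Λ → Env → ℕ) (E₀ : ℕ) : Set Env := {η | ∃ a ∈ F, ∃ b ∈ F, E₀ < d a b η}

theorem bad6_le {μ : Measure ℝ} {F : Finset (Cut Λ)} {d : Cut Λ → Cut Λ → Env → ℕ} {E₀ : ℕ} {t : ℝ≥0∞}
    (ht : ∀ a b, law μ {η | E₀ < d a b η} ≤ t) : law μ (bad6 F d E₀) ≤ (F.card : ℝ≥0∞) ^ 2 * t := by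
  have h1 : bad6 F d E₀ = ⋃ a ∈ F, ⋃ b ∈ F, {η | E₀ < d a b η} := by
    ext η
    simp only [bad6, Set.mem_ofPred_eq, Set.mem_iUnion, exists_prop]
  rw [h1]
  calc law μ (⋃ a ∈ F, ⋃ b ∈ F, {η | E₀ < d a b η}) ≤ ∑ a ∈ F, law μ (⋃ b ∈ F, {η | E₀ < d a b η}) :=
        measure_biUnion_finset_le F _
    _ ≤ ∑ a ∈ F, ∑ b ∈ F, law μ {η | E₀ < d a b η} := sum_le_sum fun a _ => measure_biUnion_finset_le F _
    _ ≤ ∑ _a ∈ F, ∑ _b ∈ F, t := sum_le_sum fun a _ => sum_le_sum fun b _ => ht a b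
    _ = (F.card : ℝ≥0∞) ^ 2 * t := by
        rw [sum_const, sum_const, nsmul_eq_mul, nsmul_eq_mul]
        ring

/-- The tail of a maximum. -/
theorem tail_max {μ : Measure ℝ} {d d' : Env → ℕ} {E₀ : ℕ} {t t' : ℝ≥0∞} (h : law μ {η | E₀ < d η} ≤ t)
    (h' : law μ {η | E₀ < d' η} ≤ t') : law μ {η | E₀ < max (d η) (d' η)} ≤ t + t' := by
  refine (measure_mono fun η (hη : E₀ < max (d η) (d' η)) => ?_).trans ((measure_union_le _ _).trans (add_le_add h h'))
  rcases lt_max_iff.1 hη with h1 | h1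
  · exact Or.inl h1
  · exact Or.inr h1

/-! ### The two families of the model -/

section Mod

variable {μ : Measure ℝ} {s c C : ℝ} {n₀ : ℕ}

/-- The height of a layer: `Hf a b`, or its number of rows if this is larger. -/
def hg6 (Hf : Cut Λ → Cut Λ → ℕ) (a b : Cut Λ) : ℕ := max (Hf a b) (nR a b)

theorem hg6_eq {Hf : Cut Λ → Cut Λ → ℕ} {a b : Cut Λ} (h : b.row ≤ a.row + Hf a b) : hg6 Hf a b = Hf a b := by
  unfold hg6 nR
  exact max_eq_left (by omega)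

/-- The levels of all the kernels of the rows of a layer. -/
def lvS (μ : Measure ℝ) (s c θ K : ℝ) (P : ℕ) (Hf : Cut Λ → Cut Λ → ℕ) (col : Cut Λ → ℤ) (a b : Cut Λ) (q : ℝ) : Set Env :=
  Far16 μ s c θ K (hg6 Hf a b) (nR a b) P (a.row, col a) q

theorem rows_btw {a b : Cut Λ} {p : Pt} (h1 : a.row < p.1) (h2 : p.1 ≤ a.row + nR a b) : p ∈ btw a b := by
  rcases le_total b.row a.row with h | h
  · exfalso
    have e : nR a b = 0 := by unfold nR; omega
    rw [e] at h2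
    simp only [Nat.cast_zero, add_zero] at h2
    exact absurd h1 (not_lt.2 h2)
  · refine ⟨h1, h2.trans (le_of_eq ?_)⟩
    show a.row + ((b.row - a.row).toNat : ℤ) = b.row
    rw [Int.toNat_of_nonneg (by omega)]
    ring

/-- **The levels are a family.** -/
theorem lv_fam [IsProbabilityMeasure μ] (h : In μ s c C n₀) {K θ : ℝ} (hK : 0 < K) (hθ : 0 < θ) (hθ1 : θ ≤ 1) :
    ∃ (P : ℕ) (A a g : ℝ) (n₁ : ℕ), 0 < A ∧ 0 < a ∧ 0 < g ∧ 1 ≤ n₁ ∧ ∀ {Λ : Type*} (Hf : Cut Λ → Cut Λ → ℕ), (∀ a b, n₁ ≤ Hf a b) →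
      ∀ col : Cut Λ → ℤ, LvF μ A a g (lvS μ s c θ K P Hf col) := by
  obtain ⟨P, A, a, g, hA, ha, hg, -, n₁, hn1, H⟩ := far_prob h hK hθ hθ1
  refine ⟨P, A, a, g, n₁, hA, ha, hg, hn1, fun Hf hH col => ⟨fun x y q q' hq => ?_, fun x y q => ?_, fun x y q η η' hh => ?_,
    fun x y q hq => ?_⟩⟩
  · exact Far16_mono hq _ _ _ _
  · exact Far16_meas _ _ _ _ _ _ _
  · exact Far16_rows fun p hp => hh p (rows_btw hp.1 hp.2)
  · have hP : IsProbabilityMeasure (law μ) := by unfold law; infer_instance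
    have h1 := H (hg6 Hf x y) ((hH x y).trans (le_max_left _ _)) (nR x y) (le_max_right _ _) (x.row, col x) q hq
    rw [← ENNReal.ofReal_toReal (measure_ne_top (law μ) _)]
    exact ENNReal.ofReal_le_ofReal h1

/-- The numbers of a steep level. -/
structure StOk (μ : Measure ℝ) (s θ Lm : ℝ) (n₁ n N : ℕ) (W₀ W₁ : ℤ) : Prop where
  hn : n₁ ≤ n
  hN : θ * n ≤ N
  hNn : N ≤ n
  hW₀ : 0 < W₀
  hW₁ : 0 < W₁
  hL₀ : wd μ s n ≤ Lm * W₀
  hL₁ : wd μ s n ≤ Lm * W₁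

open Classical in
/-- The steep level of a layer, if its numbers are right. -/
def stS (μ : Measure ℝ) (s B₁ B₂ δ θ Lm : ℝ) (n₁ : ℕ) (Hf : Cut Λ → Cut Λ → ℕ) (Wg : Cut Λ → ℤ) (ce : Cut Λ → Cut Λ → ℝ)
    (a b : Cut Λ) (q : ℝ) : Set Env :=
  if StOk μ s θ Lm n₁ (Hf a b) (nR a b) (Wg a) (Wg b) then
    DD84.StE84 μ s B₁ B₂ δ (Hf a b) (nR a b) (Wg a) (Wg b) a.row (ce a b) q else Set.univ

/-- **The steep levels are a family.** -/
theorem st_fam [IsProbabilityMeasure μ] (h : In μ s c C n₀) {θ : ℝ} (hθ : 0 < θ) : ∃ D δ : ℝ, 1 ≤ D ∧ 0 < δ ∧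
    ∀ B₁ B₂ Lm : ℝ, 1 ≤ B₁ → 2 ≤ B₂ → D ≤ B₂ → 1 ≤ Lm → ∃ (A a g : ℝ) (n₁ : ℕ), 0 < A ∧ 0 < a ∧ 0 < g ∧ 1 ≤ n₁ ∧
      ∀ {Λ : Type*} (Hf : Cut Λ → Cut Λ → ℕ) (Wg : Cut Λ → ℤ) (ce : Cut Λ → Cut Λ → ℝ),
        LvF μ A a g (stS μ s B₁ B₂ δ θ Lm n₁ Hf Wg ce) := by
  obtain ⟨D, δ, hD, hδ, H⟩ := DD84.st_tail h hθ
  refine ⟨D, δ, hD, hδ, fun B₁ B₂ Lm hB₁ hB₂ hDB hL => ?_⟩
  obtain ⟨A, a, g, n₁, hA, ha, hg, -, hn1, X⟩ := H B₁ B₂ Lm hB₁ hB₂ hDB hL
  refine ⟨A, a, g, n₁, hA, ha, hg, hn1, fun Hf Wg ce => ⟨fun x y q q' hq => ?_, fun x y q => ?_, fun x y q η η' hh => ?_,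
    fun x y q hq => ?_⟩⟩
  · unfold stS
    split_ifs
    · exact DD84.StE84_mono (by linarith) hq
    · exact subset_rfl
  · unfold stS
    split_ifs
    · exact DD84.meas_StE84
    · exact MeasurableSet.univ
  · unfold stS
    split_ifs
    · exact iff_of_eq (DD84.dep_StE84 fun p hp => hh p (rows_btw hp.1 hp.2))
    · exact Iff.rfl
  · unfold stS
    split_ifs with hs
    · have hP : IsProbabilityMeasure (law μ) := by unfold law; infer_instance
      have h1 := X (Hf x y) (nR x y) (Wg x) (Wg y) x.row (ce x y) q hs.hn hs.hN hs.hNn hs.hW₀ hs.hW₁ hs.hL₀ hs.hL₁ hq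
      rw [← ENNReal.ofReal_toReal (measure_ne_top (law μ) _)]
      exact ENNReal.ofReal_le_ofReal h1
    · rw [Set.compl_univ, measure_empty]
      exact zero_le

/-- What it says. -/
theorem stS_good {B₁ B₂ δ θ Lm : ℝ} {n₁ : ℕ} {Hf : Cut Λ → Cut Λ → ℕ} {Wg : Cut Λ → ℤ} {ce : Cut Λ → Cut Λ → ℝ} {a b : Cut Λ}
    {q : ℝ} {η : Env} (h : η ∈ stS μ s B₁ B₂ δ θ Lm n₁ Hf Wg ce a b q) (hs : StOk μ s θ Lm n₁ (Hf a b) (nR a b) (Wg a) (Wg b)) :
    η ∈ DD84.StE84 μ s B₁ B₂ δ (Hf a b) (nR a b) (Wg a) (Wg b) a.row (ce a b) q := by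
  unfold stS at h
  rwa [if_pos hs] at h

end Mod

end

end Pool.Agent.W_7d29a1_C1.Dep6
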