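import Pool.Agent.W_7d29a1_C1.DepU6
import Pool.Agent.W_7d29a1_C1.ChnT40

/-!
MP_7d29a1_pr, the attractor route, TAME: THE PROBABILITY OF A SMALL POTENTIAL, FINAL FORM. (helper6)

`potW6` = `potW40` (lists with lower cuts) for depths of ALL the layers. `FW6`: the cuts over `W`.
-/

set_option autoImplicit false

namespace Pool.Agent.W_7d29a1_C1.Dep6

open MeasureTheory ProbabilityTheory Finset
open Pool.Agent.W_7d29a1_F Pool.Agent.W_7d29a1_h4g Pool.Agent.W_7d29a1_H Pool.Agent.W_7d29a1_HS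
open Pool.Agent.W_7d29a1_C1.H75 Pool.Agent.W_7d29a1_C1.U16 Pool.Agent.W_7d29a1_C1.H40 Pool.Agent.W_7d29a1_C1.S71
open scoped ENNReal

noncomputable section

variable {σ Λ : Type*} {G : Geo σ Λ} {R : RJ σ} {lat : σ → ℝ} {latC : Cut Λ → ℝ} {w : ℕ → ℝ}

/-! ### The cuts over a finite window -/

section FW

variable [Fintype σ]

open Classical in
/-- The cuts over the places. -/
def FW6 (G : Geo σ Λ) : Finset (Cut Λ) :=
  ((univ : Finset σ) ×ˢ range (G.m + 1)).image (fun q => G.ct q.2 q.1) ∪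
    ((univ : Finset σ) ×ˢ range (G.m + 1)).image (fun q => G.lb q.2 q.1)

open Classical in
theorem mem_FW6 {d : Cut Λ} (h : CW G d) : d ∈ FW6 G := by
  obtain ⟨y, -, v, hv, h | h⟩ := h
  · exact mem_union_left _ (mem_image.2 ⟨(y, v), mem_product.2 ⟨mem_univ _, mem_range.2 (by omega)⟩, h.symm⟩)
  · exact mem_union_right _ (mem_image.2 ⟨(y, v), mem_product.2 ⟨mem_univ _, mem_range.2 (by omega)⟩, h.symm⟩)

open Classical in
theorem card_FW6 (G : Geo σ Λ) : (FW6 G).card ≤ 2 * (Fintype.card σ * (G.m + 1)) := by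
  have h : ∀ f : σ × ℕ → Cut Λ, (((univ : Finset σ) ×ˢ range (G.m + 1)).image f).card ≤ Fintype.card σ * (G.m + 1) := fun f => by
    refine card_image_le.trans (le_of_eq ?_)
    rw [card_product, card_univ, card_range]
  refine (card_union_le _ _).trans ?_
  have h1 := h fun q => G.ct q.2 q.1
  have h2 := h fun q => G.lb q.2 q.1
  omega

end FW

/-! ### The potential -/

/-- **THE PROBABILITY OF A SMALL POTENTIAL.** The depths of the layers and of the nodes have moments at ALL cuts; the layers and nodes which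
contain a row of `Sw` are paid by `E₀` and by a rare set. -/
theorem potW6 [Inhabited Λ] {μ : Measure ℝ} [IsProbabilityMeasure μ] (h : GRJ G R.near) {A B Nt : ℕ} (t : TreeB G R.near A B Nt)
    (hr : Geo.LocRow G) {kn kb C0 : ℝ} {C2 D : ℕ} (hl : LatW G R.near lat latC w kn kb) (hC0 : 4 * (kn + kb + 1) ≤ C0)
    (hD : 1 ≤ D) {dL : Cut Λ → Cut Λ → Env → ℕ} {dN : Cut Λ → Cut Λ → Cut Λ → Env → ℕ} {z M tl : ℝ≥0∞}
    (hL : Dp2 μ z M dL) (hN : Dp3 μ z M dN) (hz : 1 ≤ z) (hz' : z ≠ ∞) (hM : 1 ≤ M) (Sw : Finset ℤ) (E0 : ℕ)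
    (htl : ∀ a b, law μ {η | E0 < dL a b η} ≤ tl)
    (scL : Cut Λ → Cut Λ → ℕ) (scN : Cut Λ → Cut Λ → Cut Λ → ℕ) {F : Finset (Cut Λ)} (hF : ∀ d, CW G d → d ∈ F)
    {T : ℕ → σ → Set Env} {bad : Set Env}
    (hT : ∀ η ∉ bad, ∀ ρ ∈ G.W, ∀ u Z, PW G Z → ODW G lat latC w C0 C2 D Z ρ u → Ok6 Sw dL dN scL scN Z u η → η ∈ T u ρ)
    {y : ℝ≥0∞} (hy : y ≤ 1) {r b : ℕ}
    (hb : 6 * (C2 + 3) * nSt R.m R.g R.lam + 2 * ((R.m + R.g) / D) + 9 * r + 9 * (Sw.card * E0) ≤ b) :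
    law μ {η | ∃ x ∈ G.W, R.Pot (Rl.dpT T) y x 0 η < y ^ (3 * b)} ≤
      (law μ bad + (F.card : ℝ≥0∞) ^ 2 * tl) + (nCodeJ Nt (A ^ 2) G.m R.g : ℝ≥0∞) * (3 * (M ^ (3 * (G.m + R.g) + 1) / z ^ r)) := by
  refine (potW40 (dpL := sw6 Sw E0 dL) (dpN := swN6 Sw E0 dN) h t hr hl hC0 hD (fun a b => ?_) (fun a b e => ?_)
    (fun a b η η' he => ?_) (fun a b e η η' he => ?_) hz hz' hM (Sw := Sw) (E0 := E0) (fun a b hs => ?_) (fun a b e hs => ?_)
    (fun a b η hs => ?_) (fun a b e η hs => ?_) scL scN (T := T) (bad := bad ∪ bad6 F dL E0)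
    (fun η hη ρ hρ u Z hZ ho hnL hnN => ?_) hy hb).trans (add_le_add ((measure_union_le _ _).trans
      (add_le_add le_rfl (bad6_le htl))) le_rfl)
  · by_cases hs : HasSw Sw a b
    · have e : sw6 Sw E0 dL a b = fun _ => E0 := funext fun η => sw6_pos hs
      rw [e]; exact measurable_const
    · have e : sw6 Sw E0 dL a b = dL a b := funext fun η => sw6_neg hs
      rw [e]; exact hL.meas a b
  · by_cases hs : HasSw Sw a e
    · have e : swN6 Sw E0 dN a b e = fun _ => E0 := funext fun η => swN6_pos hs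
      rw [e]; exact measurable_const
    · have e : swN6 Sw E0 dN a b e = dN a b e := funext fun η => swN6_neg hs
      rw [e]; exact hN.meas _ _ _
  · unfold sw6
    rw [hL.rows a b η η' he]
  · unfold swN6
    rw [hN.rows a b e η η' he]
  · have e : ∀ η, sw6 Sw E0 dL a b η = dL a b η := fun η => sw6_neg hs
    simp only [e]
    exact hL.mom a b
  · have e' : ∀ η, swN6 Sw E0 dN a b e η = dN a b e η := fun η => swN6_neg hs
    simp only [e']
    exact hN.mom a b e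
  · exact (sw6_pos hs).le
  · exact (swN6_pos hs).le
  · have hb1 : η ∉ bad := fun h' => hη (Or.inl h')
    have hb2 : η ∉ bad6 F dL E0 := fun h' => hη (Or.inr h')
    refine hT η hb1 ρ hρ u Z hZ ho ⟨fun P a b Q e => nfelt6 (hnL P a b Q e) (Or.inl ?_), fun P a b d Q e hs => ?_⟩
    · by_contra hc
      exact hb2 ⟨a, hF a (hZ.mem a (by rw [e]; simp)), b, hF b (hZ.mem b (by rw [e]; simp)), not_le.1 hc⟩
    · have h3 := hnN P a b d Q e
      rwa [swN6_neg hs] at h3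

end

end Pool.Agent.W_7d29a1_C1.Dep6
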