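import Pool.Agent.W_7d29a1_C1.Geo37
import Pool.Agent.W_7d29a1_C1.GeoW10

/-!
MP_7d29a1_pr, attractor route [C1], shell and separation: THE TWO GEOMETRIES (helper74). `GS : Gm` = the geometry of the separation
(cells, rows `fr` and sites `fs` of the far events, distances `dk`), `G : Gd` = the grid of the shell (boxes `z v x`, scales `Tg`), with
`GS.T u = Tg u` (`1 ≤ u`), `GS.v = sl μ s`. `fr_lo`, `fr_up`: the coarse rows of the far events lie between the upper edges of the tower;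
`nfs_lat`: off the far sites the lateral distance is less than `2 w k`; `dk_row`: the early meetings; `lat_x`: the base of a box.
-/

set_option autoImplicit false

namespace Pool.Agent.W_7d29a1_C1.Ge74

open MeasureTheory Finset
open Pool.Agent.W_7d29a1_F Pool.Agent.W_7d29a1_H Pool.Agent.W_7d29a1_HS
open Pool.Agent.W_7d29a1_C1.S71
open Pool.Agent.W_7d29a1_C1.U16 (lat16)
open Pool.Agent.W_7d29a1_C1.T10 (Gd GU GW pt Tg Hg Tg_zero Tg_pos Tg_Hg Hg_zero Hg_pos Tg_mono Hg_mono)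
open Pool.Agent.W_7d29a1_C1.G37 (Gm)

noncomputable section

variable {μ : Measure ℝ} {s : ℝ} {GS : Gm} {G : Gd} {h₀ K L : ℕ}

/-! ### Scales -/

/-- Below the common scales: `Tg u ≤ T u` (`Tg 0 = 0`). -/
theorem Tg_le (hT : ∀ u, 1 ≤ u → GS.T u = Tg h₀ K u) (u : ℕ) : (Tg h₀ K u : ℤ) ≤ GS.T u := by
  rcases Nat.eq_zero_or_pos u with rfl | hu
  · rw [Tg_zero]
    exact_mod_cast Nat.zero_le _
  · rw [hT u hu]

theorem Tg_eq (hT : ∀ u, 1 ≤ u → GS.T u = Tg h₀ K u) {u : ℕ} (hu : 1 ≤ u) : (Tg h₀ K u : ℤ) = GS.T u := by rw [hT u hu]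

/-- Twice the height is the scale. -/
theorem two_H (hH : ∀ v, G.H v = Hg h₀ K v) (hT : ∀ u, 1 ≤ u → GS.T u = Tg h₀ K u) {u : ℕ} (hu : 1 ≤ u) :
    2 * (G.H u : ℤ) = GS.T u := by
  rw [← Tg_eq hT hu, hH, Tg_Hg hu]
  push_cast
  ring

theorem Tg_lt8 (hT : ∀ u, 1 ≤ u → GS.T u = Tg h₀ K u) {u v : ℕ} (huv : u < v) : 8 * (Tg h₀ K u : ℤ) ≤ GS.T v := by
  have h1 := Tg_le hT u
  have h2 := GS.T_lt8 huv
  linarith

/-! ### Rows -/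

theorem mem_fr {j τ : ℕ} {x : ℕ × ℤ} {r : ℤ} (h : r ∈ GS.fr j τ x) :
    (x.1 : ℤ) + GS.T j ≤ r ∧ r ≤ (x.1 : ℤ) + GS.T j + GS.T (j - 1) + 2 * GS.T τ ∧ (GS.T (j - 1) : ℤ) ∣ r := by
  unfold Gm.fr at h
  rw [mem_filter, mem_Icc] at h
  exact ⟨h.1.1, h.1.2, h.2⟩

/-- **(i), the lower half**: the rows of the far events of the scale `j ≥ b + 1` are above the upper edge of the scale `b`. -/
theorem fr_lo8 (hT : ∀ u, 1 ≤ u → GS.T u = Tg h₀ K u) {b j τ : ℕ} (hbj : b + 1 ≤ j) {x : ℕ × ℤ} {r : ℤ} (hr : r ∈ GS.fr j τ x) :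
    ((G.z b x).1 : ℤ) + 8 * Tg h₀ K b ≤ r := by
  have h1 := (mem_fr hr).1
  have h2 : ((G.z b x).1 : ℤ) ≤ x.1 := by exact_mod_cast Gd.row_le b x
  have h3 := Tg_lt8 (u := b) (v := j) hT (by omega)
  linarith

theorem fr_lo (hT : ∀ u, 1 ≤ u → GS.T u = Tg h₀ K u) {b j τ : ℕ} (hbj : b + 1 ≤ j) {x : ℕ × ℤ} {r : ℤ} (hr : r ∈ GS.fr j τ x) :
    ((G.z b x).1 : ℤ) + Tg h₀ K b ≤ r := by
  have h1 := fr_lo8 (G := G) hT hbj hr
  have h2 : (0 : ℤ) ≤ Tg h₀ K b := by positivity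
  linarith

/-- Also at the scale itself (no factor). -/
theorem fr_lo0 (hT : ∀ u, 1 ≤ u → GS.T u = Tg h₀ K u) {b j τ : ℕ} (hbj : b ≤ j) {x : ℕ × ℤ} {r : ℤ} (hr : r ∈ GS.fr j τ x) :
    ((G.z b x).1 : ℤ) + Tg h₀ K b ≤ r := by
  have h1 := (mem_fr hr).1
  have h2 : ((G.z b x).1 : ℤ) ≤ x.1 := by exact_mod_cast Gd.row_le b x
  have h3 := Tg_le hT b
  have h4 := GS.T_mono' hbj
  linarith

/-- **(i), the upper half**: they are below the upper edge of the scale `j + 1` (`τ ≤ j`). -/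
theorem fr_up (ok : G.Ok L) (hH : ∀ v, G.H v = Hg h₀ K v) (hT : ∀ u, 1 ≤ u → GS.T u = Tg h₀ K u) {j τ : ℕ} (hj : 1 ≤ j)
    (hL : j + 1 ≤ L) (hτ : τ ≤ j) {x : ℕ × ℤ} {r : ℤ} (hr : r ∈ GS.fr j τ x) : r < ((G.z (j + 1) x).1 : ℤ) + Tg h₀ K (j + 1) := by
  obtain ⟨-, h1, -⟩ := mem_fr hr
  have h2 : (x.1 : ℤ) < (G.z (j + 1) x).1 + G.H (j + 1) := by exact_mod_cast ok.row_lt hL x
  have h3 := two_H hH hT (show 1 ≤ j + 1 by omega)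
  have h4 := GS.T_lt8 (show j < j + 1 by omega)
  have h5 := GS.T_lt8 (show j - 1 < j by omega)
  have h6 := GS.T_mono' hτ
  rw [Tg_eq hT (show 1 ≤ j + 1 by omega)]
  linarith

/-- With a gap (`τ < j`). -/
theorem fr_up' (ok : G.Ok L) (hH : ∀ v, G.H v = Hg h₀ K v) (hT : ∀ u, 1 ≤ u → GS.T u = Tg h₀ K u) {j τ : ℕ} (hL : j + 1 ≤ L)
    (hτ : τ < j) {x : ℕ × ℤ} {r : ℤ} (hr : r ∈ GS.fr j τ x) :
    r + 2 * (GS.T j : ℤ) < ((G.z (j + 1) x).1 : ℤ) + Tg h₀ K (j + 1) := by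
  obtain ⟨-, h1, -⟩ := mem_fr hr
  have h2 : (x.1 : ℤ) < (G.z (j + 1) x).1 + G.H (j + 1) := by exact_mod_cast ok.row_lt hL x
  have h3 := two_H hH hT (show 1 ≤ j + 1 by omega)
  have h4 := GS.T_lt8 (show j < j + 1 by omega)
  have h5 := GS.T_lt8 (show j - 1 < j by omega)
  have h6 := GS.T_mono' (show τ ≤ j - 1 by omega)
  have h7 := GS.T_pos' j
  rw [Tg_eq hT (show 1 ≤ j + 1 by omega)]
  linarith

/-- The rows of the far events are natural numbers. -/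
theorem fr_nat {j τ : ℕ} {x : ℕ × ℤ} {r : ℤ} (hr : r ∈ GS.fr j τ x) : ∃ i : ℕ, r = i ∧ x.1 + GS.T j ≤ i := by
  have h1 := (mem_fr hr).1
  have h2 : (0 : ℤ) ≤ r := by
    have h3 : (0 : ℤ) ≤ (x.1 : ℤ) + GS.T j := by positivity
    linarith
  obtain ⟨i, rfl⟩ := Int.eq_ofNat_of_zero_le h2
  exact ⟨i, rfl, by exact_mod_cast h1⟩

/-- **(iii)**: the early meetings of the scale `k` are met before the lower edge of the scale `o ≥ k + 1`, backwards: the lower edge is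
below the row of the contact minus `dk`. -/
theorem dk_row (hT : ∀ u, 1 ≤ u → GS.T u = Tg h₀ K u) {k o : ℕ} (hko : k + 1 ≤ o) (τ : ℕ) (x : ℕ × ℤ) :
    ((G.z o x).1 : ℤ) - Tg h₀ K o ≤ (x.1 : ℤ) - GS.dk k τ := by
  have h2 : ((G.z o x).1 : ℤ) ≤ x.1 := by exact_mod_cast Gd.row_le o x
  have h3 := GS.T_lt8 (show k < o by omega)
  have h4 := Tg_eq hT (show 1 ≤ o by omega)
  have h5 := GS.T_pos' τ
  have h6 := GS.T_pos' k
  unfold Gm.dk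
  linarith

/-- With a gap. -/
theorem dk_row' (hT : ∀ u, 1 ≤ u → GS.T u = Tg h₀ K u) {k o : ℕ} (hko : k + 1 ≤ o) (τ : ℕ) (x : ℕ × ℤ) :
    ((G.z o x).1 : ℤ) - Tg h₀ K o + 6 * (GS.T k : ℤ) ≤ (x.1 : ℤ) - GS.dk k τ := by
  have h2 : ((G.z o x).1 : ℤ) ≤ x.1 := by exact_mod_cast Gd.row_le o x
  have h3 := GS.T_lt8 (show k < o by omega)
  have h4 := Tg_eq hT (show 1 ≤ o by omega)
  have h5 := GS.T_pos' τ
  unfold Gm.dk
  linarith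

/-- The same for a row in `ℕ`. -/
theorem dk_row_nat (hT : ∀ u, 1 ≤ u → GS.T u = Tg h₀ K u) {k o : ℕ} (hko : k + 1 ≤ o) (τ : ℕ) {x : ℕ × ℤ}
    (h0 : Tg h₀ K o ≤ (G.z o x).1) : (((G.z o x).1 - Tg h₀ K o : ℕ) : ℤ) ≤ (x.1 : ℤ) - GS.dk k τ := by
  rw [Nat.cast_sub h0]
  exact dk_row hT hko τ x

/-- The late meetings. -/
theorem dl_row (hT : ∀ u, 1 ≤ u → GS.T u = Tg h₀ K u) {k o : ℕ} (hko : k ≤ o) (ho : 1 ≤ o) (x : ℕ × ℤ) :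
    ((G.z o x).1 : ℤ) - Tg h₀ K o ≤ (x.1 : ℤ) - GS.dl k := by
  have h2 : ((G.z o x).1 : ℤ) ≤ x.1 := by exact_mod_cast Gd.row_le o x
  have h3 := GS.T_mono' hko
  have h4 := Tg_eq hT ho
  unfold Gm.dl
  linarith

/-! ### Columns -/

/-- The lateral coordinate of the separation and the lateral distance of the shell. -/
theorem lat_eq (hv : GS.v = sl μ s) (x : ℕ × ℤ) (r y : ℤ) : lat16 μ s (pt x) (r, y) = ((y : ℝ) - GS.v * (r : ℝ)) - GS.lat x := by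
  unfold lat16 Gm.lat
  show ((y - x.2 : ℤ) : ℝ) - sl μ s * ((r - (x.1 : ℤ) : ℤ) : ℝ) = _
  rw [hv]
  push_cast
  ring

theorem lat_eq' (hv : GS.v = sl μ s) (x c : ℕ × ℤ) : lat16 μ s (pt x) (pt c) = GS.lat c - GS.lat x := by
  unfold lat16 Gm.lat
  show ((c.2 - x.2 : ℤ) : ℝ) - sl μ s * (((c.1 : ℤ) - (x.1 : ℤ) : ℤ) : ℝ) = _
  rw [hv]
  push_cast
  ring

theorem W_le (k τ : ℕ) : GS.W k τ ≤ 2 * GS.w k := by
  have h1 := GS.w_pos τ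
  have h2 := GS.lam_ge
  have h3 := GS.kn_nonneg
  have h4 := GS.kb_ge
  have h5 : 0 ≤ GS.lam * GS.w τ := mul_nonneg (by linarith) h1.le
  unfold Gm.W
  linarith

/-- **(ii)**: a site which is not far is laterally near. -/
theorem nfs_W (hv : GS.v = sl μ s) {k τ : ℕ} {x : ℕ × ℤ} {r y : ℤ} (hy : y ∉ GS.fs k τ x r) :
    |lat16 μ s (pt x) (r, y)| < GS.W k τ := by
  rw [lat_eq hv]
  exact not_le.1 hy

theorem nfs_lat (hv : GS.v = sl μ s) {k τ : ℕ} {x : ℕ × ℤ} {r y : ℤ} (hy : y ∉ GS.fs k τ x r) :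
    |lat16 μ s (pt x) (r, y)| < 2 * GS.w k := (nfs_W hv hy).trans_le (W_le k τ)

/-- A far site is laterally far. -/
theorem fs_lat (hv : GS.v = sl μ s) {k τ : ℕ} {x : ℕ × ℤ} {r y : ℤ} (hy : y ∈ GS.fs k τ x r) :
    GS.W k τ ≤ |lat16 μ s (pt x) (r, y)| := by
  rw [lat_eq hv]
  exact hy

theorem fs_iff (hv : GS.v = sl μ s) {k τ : ℕ} {x : ℕ × ℤ} {r y : ℤ} : y ∈ GS.fs k τ x r ↔ GS.W k τ ≤ |lat16 μ s (pt x) (r, y)| := by
  rw [lat_eq hv]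
  exact Iff.rfl

/-! ### The two grids -/

section GWsec

variable {R C₀ : ℝ} {B : ℕ}

/-- **(iv)** for the wide grid. -/
theorem lat_x (g : GW μ s R B C₀ h₀ K L G) {v : ℕ} (hv : 1 ≤ v) (hL : v ≤ L) (x : ℕ × ℤ) :
    |lat16 μ s (pt x) (G.x v x)| ≤ wd μ s (B * Tg h₀ K v) := by
  have h1 := g.lat_base' hv hL x
  linarith

/-- **(i)** for the wide grid. -/
theorem fr_gw (g : GW μ s R B C₀ h₀ K L G) (hT : ∀ u, 1 ≤ u → GS.T u = Tg h₀ K u) {b j τ : ℕ} (hbj : b + 1 ≤ j) (hL : j + 1 ≤ L)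
    (hτ : τ ≤ j) {x : ℕ × ℤ} {r : ℤ} (hr : r ∈ GS.fr j τ x) :
    ((G.z b x).1 : ℤ) + Tg h₀ K b ≤ r ∧ r ≤ ((G.z (j + 1) x).1 : ℤ) + Tg h₀ K (j + 1) :=
  ⟨fr_lo hT hbj hr, (fr_up g.ok g.H hT (by omega) hL hτ hr).le⟩

/-- A site which is not far, from the base of a box. -/
theorem nfs_x (g : GW μ s R B C₀ h₀ K L G) (hvs : GS.v = sl μ s) {v : ℕ} (hv : 1 ≤ v) (hL : v ≤ L) {k τ : ℕ} {x : ℕ × ℤ} {r y : ℤ}
    (hy : y ∉ GS.fs k τ x r) : |lat16 μ s (G.x v x) (r, y)| < wd μ s (B * Tg h₀ K v) + 2 * GS.w k := by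
  have h1 := g.lat_base hv hL x
  have h2 := nfs_lat hvs hy
  have h3 := T10.lat_tri (μ := μ) (s := s) (G.x v x) (pt x) (r, y)
  linarith

end GWsec

section GUsec

variable {δ C₀ : ℝ}

theorem lat_xU (g : GU μ s δ C₀ h₀ K L G) {v : ℕ} (hv : 1 ≤ v) (hL : v ≤ L) (x : ℕ × ℤ) :
    |lat16 μ s (pt x) (G.x v x)| ≤ δ * wd μ s (2 * Tg h₀ K v) := by
  have h1 := g.lat_base' hv hL x
  linarith

theorem fr_gu (g : GU μ s δ C₀ h₀ K L G) (hT : ∀ u, 1 ≤ u → GS.T u = Tg h₀ K u) {b j τ : ℕ} (hbj : b + 1 ≤ j) (hL : j + 1 ≤ L)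
    (hτ : τ ≤ j) {x : ℕ × ℤ} {r : ℤ} (hr : r ∈ GS.fr j τ x) :
    ((G.z b x).1 : ℤ) + Tg h₀ K b ≤ r ∧ r ≤ ((G.z (j + 1) x).1 : ℤ) + Tg h₀ K (j + 1) :=
  ⟨fr_lo hT hbj hr, (fr_up g.ok g.H hT (by omega) hL hτ hr).le⟩

end GUsec

end

end Pool.Agent.W_7d29a1_C1.Ge74
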