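import Pool.Agent.W_7d29a1_C1.VDef31
import Pool.Agent.W_7d29a1_C1.FarW89
import Pool.Agent.W_7d29a1_C1.TamK16
import Pool.Agent.W_7d29a1_C1.SysP84

/-!
MP_7d29a1_pr, attractor route [C1], SHELL: LOCAL REGULARITY OF A CONTACT AT A SCALE (helper31).

`Lr31`: a profile of the row `row` is locally regular at the scales `b, .., Mt` along the line through `κ`. `TM31 b x`: the future at the row
`z_b + T_b` and the two pasts at the row `z_b - T_b` of the contact `x`. `lr_win31`: local regularity in the form of `vin31` (line through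
the base `z_t`, window `Wd`).
-/

set_option autoImplicit false

namespace Pool.Agent.W_7d29a1_C1.D31

open MeasureTheory Finset
open Pool.Agent.W_7d29a1_F Pool.Agent.W_7d29a1_h4g Pool.Agent.W_7d29a1_H Pool.Agent.W_7d29a1_HS
open Pool.Agent.W_7d29a1_C1.S71 Pool.Agent.W_7d29a1_C1.T10
open Pool.Agent.W_7d29a1_C1.H60 (Cx)
open Pool.Agent.W_7d29a1_C1.K91 (wt wt_pos Box)
open Pool.Agent.W_7d29a1_C1.K91P
open Pool.Agent.W_7d29a1_C1.H75 Pool.Agent.W_7d29a1_C1.U16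
open Pool.Agent.W_7d29a1_C1.FarW89 (nk bl)
open Pool.Agent.W_7d29a1_C1.SysP84 (fh84)

noncomputable section

/-- **Local regularity at the scales `b, .., Mt`** of a profile of the row `row`. -/
def Lr31 (μ : Measure ℝ) (s : ℝ) (κ : Pt) (T : ℕ → ℕ) (Mt : ℕ) (K₁ A Φ σ : ℝ) (F : ℤ → ℝ) (row b : ℕ) : Prop :=
  ∀ n, b + n ≤ Mt → ∀ y y₀ : ℤ, |lat16 μ s κ ((row : ℤ), y₀)| ≤ K₁ * wd μ s (T (b + n)) →
    |lat16 μ s κ ((row : ℤ), y)| ≤ K₁ * wd μ s (T Mt) →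
    F y ≤ Real.exp (A * (Φ ^ n * EE μ s (T b)) + σ * (EE μ s (T b) / wd μ s (T b)) * |(y : ℝ) - y₀|) * F y₀

/-- **The contact `x` is locally regular at the scale `b`.** -/
structure TM31 (μ : Measure ℝ) (s : ℝ) (Γ : Cx) (G : Gd) (T : ℕ → ℕ) (Mt : ℕ) (K₁ A Φ σ : ℝ) (b : ℕ) (x : ℕ × ℤ) (ω : Env) : Prop where
  fut : Lr31 μ s (pt x) T Mt K₁ A Φ σ (bh16 μ s Γ.h ω Γ.p Γ.M Γ.N ((G.z b x).1 + T b)) ((G.z b x).1 + T b) b
  pl : Lr31 μ s (pt x) T Mt K₁ A Φ σ (fh84 μ s Γ.h ω Γ.p Γ.M Cx.l ((G.z b x).1 - T b)) ((G.z b x).1 - T b) b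
  pr : Lr31 μ s (pt x) T Mt K₁ A Φ σ (fh84 μ s Γ.h ω Γ.p Γ.M Γ.r ((G.z b x).1 - T b)) ((G.z b x).1 - T b) b

variable {μ : Measure ℝ} {s : ℝ}

/-- The lateral coordinate along the line through `pt x` and the one along the line through the base `z_t`. -/
theorem lat_cn31 (G : Gd) (t : ℕ) (x : ℕ × ℤ) (row : ℕ) (y : ℤ) : lat16 μ s (pt x) ((row : ℤ), y) =
    ((y : ℝ) - (((G.z t x).2 : ℝ) + sl μ s * ((row : ℝ) - ((G.z t x).1 : ℝ)))) + lat16 μ s (pt x) (G.x t x) := by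
  unfold lat16
  have e1 : (pt x).1 = (x.1 : ℤ) := rfl
  have e2 : (pt x).2 = x.2 := rfl
  have e3 : (G.x t x).1 = ((G.z t x).1 : ℤ) := rfl
  have e4 : (G.x t x).2 = (G.z t x).2 := rfl
  rw [e1, e2, e3, e4]
  push_cast
  ring

/-- A profile which is locally regular, in a window of the line `v + ..`: `d` = distance of the two lines. -/
theorem lr_win31 {κ : Pt} {T : ℕ → ℕ} {Mt : ℕ} {K₁ A Φ σ : ℝ} {F : ℤ → ℝ} {row b : ℕ} (h : Lr31 μ s κ T Mt K₁ A Φ σ F row b)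
    (hF : ∀ y, 0 ≤ F y) {cen d : ℝ} (hd : ∀ y : ℤ, |lat16 μ s κ ((row : ℤ), y) - ((y : ℝ) - cen)| ≤ d) {n : ℕ} (hn : b + n ≤ Mt)
    {Y D R : ℝ} (hY : Y + d ≤ K₁ * wd μ s (T (b + n))) (hD : Y + d + D ≤ K₁ * wd μ s (T Mt))
    (hR : A * (Φ ^ n * EE μ s (T b)) ≤ R) : ∀ y y₀ : ℤ, |(y₀ : ℝ) - cen| ≤ Y → |(y : ℝ) - y₀| ≤ D →
      F y ≤ Real.exp (R + σ * (EE μ s (T b) / wd μ s (T b)) * |(y : ℝ) - y₀|) * F y₀ := by
  intro y y₀ h1 h2
  have h3 := hd y₀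
  have h4 := hd y
  have h5 : |lat16 μ s κ ((row : ℤ), y₀)| ≤ Y + d := by
    rw [abs_le] at h1 h3 ⊢
    constructor <;> linarith [h1.1, h1.2, h3.1, h3.2]
  have h6 : |lat16 μ s κ ((row : ℤ), y)| ≤ Y + d + D := by
    rw [abs_le] at h1 h2 h4 ⊢
    constructor <;> linarith [h1.1, h1.2, h2.1, h2.2, h4.1, h4.2]
  refine (h n hn y y₀ (h5.trans hY) (h6.trans hD)).trans (mul_le_mul_of_nonneg_right (Real.exp_le_exp.2 ?_) (hF y₀))
  linarith

/-- The future of the frame is the future of TAME times a number. -/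
theorem GG_bh31 {h : ℝ} {ω : Env} {p : ℕ → ℝ} {M N i : ℕ} (hi : i < N) (z : ℤ) : GG (wt ω) p N i z =
    Real.exp (((N - i : ℕ) : ℝ) * lam μ s + h * sl μ s * bl M i (N - i)) * bh16 μ s h ω p M N i z := by
  have h1 := wt_pos ω i z
  unfold bh16
  rw [bw_eq hi, ← mul_assoc, ← Real.exp_add, add_neg_cancel, Real.exp_zero, one_mul]
  field_simp

/-- Regularity of the future, from `bh16` to `GG`. -/
theorem lr_GG31 {h : ℝ} {ω : Env} {p : ℕ → ℝ} {M N i : ℕ} (hi : i < N) {y y₀ : ℤ} {v : ℝ}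
    (hv : bh16 μ s h ω p M N i y ≤ v * bh16 μ s h ω p M N i y₀) : GG (wt ω) p N i y ≤ v * GG (wt ω) p N i y₀ := by
  rw [GG_bh31 (μ := μ) (s := s) (h := h) (M := M) hi y, GG_bh31 (μ := μ) (s := s) (h := h) (M := M) hi y₀]
  have h1 := mul_le_mul_of_nonneg_left hv (Real.exp_pos (((N - i : ℕ) : ℝ) * lam μ s + h * sl μ s * bl M i (N - i))).le
  calc _ ≤ _ := h1
    _ = _ := by ring

/-- Regularity of the past, from `fh84` to `fw`: the weights of the row cost `2 Lw`. -/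
theorem lr_fw31 {h : ℝ} {ω : Env} {p : ℕ → ℝ} {M i : ℕ} {m : ℤ → ℝ} {y y₀ : ℤ} {r Lw : ℝ} (h1 : |ω ((i : ℤ), y)| ≤ Lw)
    (h2 : |ω ((i : ℤ), y₀)| ≤ Lw) (hf : 0 ≤ fw (wt ω) p m i y₀)
    (hv : fh84 μ s h ω p M m i y ≤ Real.exp r * fh84 μ s h ω p M m i y₀) :
    fw (wt ω) p m i y ≤ Real.exp (r + 2 * Lw) * fw (wt ω) p m i y₀ := by
  unfold fh84 at hv
  have e0 := Real.exp_pos (-((i : ℝ) * lam μ s + h * sl μ s * bl M 0 i))
  have h3 : fw (wt ω) p m i y * wt ω i y ≤ Real.exp r * (fw (wt ω) p m i y₀ * wt ω i y₀) := by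
    have h4 : Real.exp (-((i : ℝ) * lam μ s + h * sl μ s * bl M 0 i)) * (fw (wt ω) p m i y * wt ω i y) ≤
        Real.exp (-((i : ℝ) * lam μ s + h * sl μ s * bl M 0 i)) * (Real.exp r * (fw (wt ω) p m i y₀ * wt ω i y₀)) := by
      calc _ ≤ _ := hv
        _ = _ := by ring
    exact le_of_mul_le_mul_left h4 e0
  have hLw : 0 ≤ Lw := (abs_nonneg _).trans h1
  have w1 : Real.exp (-Lw) ≤ wt ω i y := by
    unfold wt
    split_ifs with h0
    · rw [← Real.exp_zero]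
      exact Real.exp_le_exp.2 (by linarith)
    · exact Real.exp_le_exp.2 (abs_le.1 h1).1
  have w2 : wt ω i y₀ ≤ Real.exp Lw := by
    unfold wt
    split_ifs with h0
    · rw [← Real.exp_zero]
      exact Real.exp_le_exp.2 hLw
    · exact Real.exp_le_exp.2 (abs_le.1 h2).2
  have w0 := wt_pos ω i y
  rw [← le_div_iff₀ w0] at h3
  refine h3.trans ?_
  rw [div_le_iff₀ w0]
  have e1 : Real.exp (r + 2 * Lw) = Real.exp r * (Real.exp Lw * Real.exp Lw) := by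
    rw [← Real.exp_add, ← Real.exp_add]
    congr 1
    ring
  rw [e1]
  have h5 : fw (wt ω) p m i y₀ * wt ω i y₀ ≤ fw (wt ω) p m i y₀ * Real.exp Lw := mul_le_mul_of_nonneg_left w2 hf
  have h6 : fw (wt ω) p m i y₀ * Real.exp Lw ≤ Real.exp Lw * Real.exp Lw * fw (wt ω) p m i y₀ * wt ω i y := by
    have h7 : 1 ≤ Real.exp Lw * wt ω i y := by
      have h8 := mul_le_mul_of_nonneg_left w1 (Real.exp_pos Lw).le
      rw [← Real.exp_add, add_neg_cancel, Real.exp_zero] at h8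
      exact h8
    have h8 := mul_le_mul_of_nonneg_left h7 (mul_nonneg hf (Real.exp_pos Lw).le)
    linarith
  have h7 := mul_le_mul_of_nonneg_left (h5.trans h6) (Real.exp_pos r).le
  calc _ ≤ _ := h7
    _ = _ := by ring

end

end Pool.Agent.W_7d29a1_C1.D31
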