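import Pool.Agent.W_7d29a1_C1.CtQ90
import Pool.Agent.W_7d29a1_C1.OkN6
import Pool.Agent.W_7d29a1_C1.Tm31
import Pool.Agent.W_7d29a1_C1.Geo74

/-!
MP_7d29a1_pr, [C1] SHELL, FIELD nu, THE FORWARD CLAUSE: the letters. (helper94)

Upper cuts of the tower `Zt77` of a contact `x`: rows `ro94 v = z_v + T v`; the layer `(uc v, uc (v + 1))` has the label `v + 1`, the height and the
unit `T (v + 1)`. `F94`: the far levels of all the layers (height = label, half width `6`, flatness `1 / 4`); `Sc94`, `Cn94`: the numbers of the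
grid; `D2W94`: the regularity of the row `b + 1` seen from its places near the line, for ALL places; `TopF94`: the top.
-/

set_option autoImplicit false

namespace Pool.Agent.W_7d29a1_C1.TmG94

open MeasureTheory ProbabilityTheory Filter Topology Finset
open Pool.Agent.W_7d29a1_F Pool.Agent.W_7d29a1_h4g Pool.Agent.W_7d29a1_H Pool.Agent.W_7d29a1_HS
open Pool.Agent.W_7d29a1_C1.H75 Pool.Agent.W_7d29a1_C1.U16 Pool.Agent.W_7d29a1_C1.H40 Pool.Agent.W_7d29a1_C1.H77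
open Pool.Agent.W_7d29a1_C1.Dep6
open Pool.Agent.W_7d29a1_C1.S71 Pool.Agent.W_7d29a1_C1.T10
open Pool.Agent.W_7d29a1_C1.H60 (Cx)
open Pool.Agent.W_7d29a1_C1.FarW89 (nk)

noncomputable section

/-- The rows of the upper cuts. -/
def ro94 (G : Gd) (T : ℕ → ℕ) (x : ℕ × ℤ) (v : ℕ) : ℕ := (G.z v x).1 + T v

/-- The heights by label (positive for all labels). -/
def Tl94 (T : ℕ → ℕ) (v : ℕ) : ℕ := T (max v 1)

/-- The lateral coordinate of the base of a cut. -/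
def latC94 (μ : Measure ℝ) (s : ℝ) (d : Cut (ℕ × ℤ)) : ℝ := (d.cd.2 : ℝ) - sl μ s * (d.cd.1 : ℝ)

/-- The column of a cut in its row. -/
def col94 (μ : Measure ℝ) (s : ℝ) : Cut (ℕ × ℤ) → ℤ := colC6 (latC94 μ s) (sl μ s)

/-- **THE FAR LEVELS OF THE LAYERS.** -/
def F94 (μ : Measure ℝ) (s c : ℝ) (P : ℕ) (T : ℕ → ℕ) : Cut (ℕ × ℤ) → Cut (ℕ × ℤ) → ℝ → Set Env :=
  lvS μ s c (1 / 4) 6 P (fun a b => Tl94 T (lb6 a b)) (col94 μ s)

/-- The scales. -/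
structure Sc94 (μ : Measure ℝ) (s : ℝ) (B K : ℕ) (C₀ : ℝ) (T : ℕ → ℕ) : Prop where
  TK : ∀ v, 1 ≤ v → T (v + 1) = K * T v
  w2 : ∀ v, 1 ≤ v → 3 ≤ wd μ s (T v)
  wB : ∀ v, 1 ≤ v → wd μ s (B * T v) ≤ C₀ * wd μ s (T v)

/-- The boxes of a contact. -/
structure Cn94 (μ : Measure ℝ) (s : ℝ) (B : ℕ) (G : Gd) (T : ℕ → ℕ) (L : ℕ) (x : ℕ × ℤ) : Prop where
  zle : ∀ v, 1 ≤ v → v < L → (G.z (v + 1) x).1 ≤ (G.z v x).1
  zst : ∀ v, 1 ≤ v → v < L → 2 * (G.z v x).1 + T v ≤ 2 * (G.z (v + 1) x).1 + T (v + 1)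
  lat : ∀ v, 1 ≤ v → v ≤ L → |lat16 μ s (pt x) (G.x v x)| + 1 ≤ wd μ s (B * T v)

/-- **THE FAR LEVELS SEEN FROM THE SCALE `b`**: the layer with the label `v` is good at the level `q₀ th ^ |v - b|`. -/
def LvA94 (μ : Measure ℝ) (s c : ℝ) (P : ℕ) (T : ℕ → ℕ) (q₀ th : ℝ) (Z : List (Cut (ℕ × ℤ))) (b : ℕ) (ω : Env) : Prop :=
  ∀ (P' Q' : List (Cut (ℕ × ℤ))) (a d : Cut (ℕ × ℤ)), Z = P' ++ a :: d :: Q' →
    ω ∈ F94 μ s c P T a d (q₀ * th ^ ((lb6 a d : ℤ) - b).natAbs)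

/-- **(D2) OF THE ROW `b + 1` FOR ALL PLACES**, the reference within two widths of the line. -/
def D2W94 (μ : Measure ℝ) (s : ℝ) (Γ : Cx) (G : Gd) (T : ℕ → ℕ) (A σ : ℝ) (b : ℕ) (x : ℕ × ℤ) (ω : Env) : Prop :=
  ∀ y y₀ : ℤ, |lat16 μ s (pt x) ((ro94 G T x (b + 1) : ℤ), y₀)| ≤ 2 * wd μ s (T (b + 1)) →
    bh16 μ s Γ.h ω Γ.p Γ.M Γ.N (ro94 G T x (b + 1)) y ≤
      Real.exp (A * EE μ s (T (b + 1)) + σ * (EE μ s (T (b + 1)) / wd μ s (T (b + 1))) * |(y : ℝ) - y₀|) *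
        bh16 μ s Γ.h ω Γ.p Γ.M Γ.N (ro94 G T x (b + 1)) y₀

/-- **THE TOP**, for the masses of the context. -/
def TopF94 (μ : Measure ℝ) (s : ℝ) (Γ : Cx) (G : Gd) (T : ℕ → ℕ) (M L : ℕ) (Kt : ℝ) (x : ℕ × ℤ) (ω : Env) : Prop :=
  ∀ b, 1 ≤ b → b ≤ M → ∀ y : ℤ, |lat16 μ s (pt x) ((ro94 G T x b : ℤ), y)| ≤ Kt * wd μ s (T (M + 2)) →
    32 * (((ro94 G T x L - ro94 G T x b : ℕ) : ℝ) * PM16 (fun a b' x' z' => nk μ s Γ.h ω Γ.p Γ.M a (b' - a) x' z')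
      (bh16 μ s Γ.h ω Γ.p Γ.M Γ.N) (ro94 G T x b) (ro94 G T x L) y
      (fun z => 4 ^ (L - M - 4) * wd μ s (2 * T L) ≤
        |lat16 μ s (pt x) ((ro94 G T x L : ℤ), z) - lat16 μ s (pt x) ((ro94 G T x b : ℤ), y)|)) ≤
      bh16 μ s Γ.h ω Γ.p Γ.M Γ.N (ro94 G T x b) y

variable {μ : Measure ℝ} {s c C₀ : ℝ} {B K : ℕ} {G : Gd} {T : ℕ → ℕ} {L : ℕ} {x : ℕ × ℤ}

/-- The rows of the layers. -/
theorem ro_step94 (hS : Sc94 μ s B K C₀ T) (hK : 2 ≤ K) (hC : Cn94 μ s B G T L x) {v : ℕ} (hv : 1 ≤ v) (hL : v < L) :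
    ro94 G T x v ≤ ro94 G T x (v + 1) ∧ ro94 G T x (v + 1) ≤ ro94 G T x v + T (v + 1) ∧
      T (v + 1) ≤ 4 * (ro94 G T x (v + 1) - ro94 G T x v) := by
  have h1 := hC.zle v hv hL
  have h2 := hC.zst v hv hL
  have h3 := hS.TK v hv
  have h4 : 2 * T v ≤ T (v + 1) := by rw [h3]; exact Nat.mul_le_mul_right _ hK
  unfold ro94
  omega

theorem nR_uc94 {v : ℕ} : nR (uc77 G T x v) (uc77 G T x (v + 1)) = ro94 G T x (v + 1) - ro94 G T x v := by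
  unfold nR uc77 ro94
  simp only
  omega

theorem lb_uc94 (v : ℕ) : lb6 (uc77 G T x v) (uc77 G T x (v + 1)) = v + 1 := by
  unfold lb6 uc77
  simp only
  omega

theorem row_uc94 (v : ℕ) : (uc77 G T x v).row = (ro94 G T x v : ℤ) := by
  unfold uc77 ro94
  push_cast
  rfl

theorem lat_uc94 (v : ℕ) : latC94 μ s (uc77 G T x v) - (((pt x).2 : ℝ) - sl μ s * ((pt x).1 : ℝ)) = lat16 μ s (pt x) (G.x v x) := by
  unfold latC94 lat16 uc77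
  have e3 : (G.x v x).1 = ((G.z v x).1 : ℤ) := rfl
  have e4 : (G.x v x).2 = (G.z v x).2 := rfl
  rw [e3, e4]
  push_cast
  ring

theorem Tl94_pos {v : ℕ} (hv : 1 ≤ v) : Tl94 T v = T v := by
  unfold Tl94
  rw [max_eq_left hv]

/-- The heights are large. -/
theorem Tl94_ge (hS : Sc94 μ s B K C₀ T) (hK : 2 ≤ K) {n : ℕ} (hn : n ≤ T 1) (v : ℕ) : n ≤ Tl94 T v := by
  have h : ∀ k, n ≤ T (k + 1) := by
    intro k
    induction k with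
    | zero => exact hn
    | succ k ih =>
      have h1 := hS.TK (k + 1) (by omega)
      rw [h1]
      exact ih.trans (Nat.le_mul_of_pos_left _ (by omega))
  unfold Tl94
  have h2 := h (max v 1 - 1)
  rwa [show max v 1 - 1 + 1 = max v 1 by omega] at h2

end

end Pool.Agent.W_7d29a1_C1.TmG94
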