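import Pool.Agent.W_7d29a1_C1.Lat56

/-!
MP_7d29a1_pr, attractor route [C1], SHELL: THE BOXES OF `vin31` FOR ALL CONTACTS (helper56, for helper31). `hgeo56`: the numbers of
`box56` hold for every contact of a row `≥ n ^ e` when the scales of the towers are at most `n ^ q`, `q < e`. `col56`: the sites near the
line of such a contact have columns at most `4 N` in absolute value.
-/

set_option autoImplicit false

namespace Pool.Agent.W_7d29a1_C1.H56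

open MeasureTheory ProbabilityTheory Filter Topology Finset
open Pool.Agent.W_7d29a1_F Pool.Agent.W_7d29a1_h4g Pool.Agent.W_7d29a1_H
open Pool.Agent.W_7d29a1_HS (In wd)
open Pool.Agent.W_7d29a1_HZ (wd' wd'_pow)
open Pool.Agent.W_7d29a1_C1.H60 (Cx)
open Pool.Agent.W_7d29a1_C1.U16 (lat16)
open Pool.Agent.W_7d29a1_C1.T10
open Pool.Agent.W_7d29a1_C1.D31

noncomputable section

variable {μ : Measure ℝ} {s : ℝ} [IsProbabilityMeasure μ] {c₀ C : ℝ} {n₀ : ℕ}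

/-- The width is at most linear. -/
theorem wd_lin56 (h : In μ s c₀ C n₀) : ∃ B : ℝ, 1 ≤ B ∧ ∀ n : ℕ, 1 ≤ n → wd μ s n ≤ B * n := by
  obtain ⟨a, K, ha, ha1, hK, hw⟩ := wd'_pow h
  have h0 : (1 : ℝ) ≤ wd' μ s 1 := le_max_left _ _
  refine ⟨K * wd' μ s 1, one_le_mul_of_one_le_of_one_le hK h0, fun n hn => ?_⟩
  have hnR : (1 : ℝ) ≤ n := by exact_mod_cast hn
  have h1 := (hw 1 n le_rfl hn).2.2
  have h2 : wd μ s n ≤ wd' μ s n := le_max_right _ _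
  rw [Nat.cast_one, div_one] at h1
  have h3 : (n : ℝ) ^ (1 - a) ≤ n := by
    calc (n : ℝ) ^ (1 - a) ≤ (n : ℝ) ^ (1 : ℝ) := Real.rpow_le_rpow_of_exponent_le hnR (by linarith)
      _ = n := Real.rpow_one _
  refine h2.trans (h1.trans ?_)
  have h4 := mul_le_mul_of_nonneg_left h3 (show 0 ≤ K * wd' μ s 1 by positivity)
  linarith

/-- **THE BOXES OF `vin31` FOR ALL CONTACTS**: rows `≥ n ^ e`, scales at most `n ^ q`. -/
theorem hgeo56 (h : In μ s c₀ C n₀) {e p q K₁ C₀ : ℝ} (he : 0 < e) (hp : 0 < p) (hqe : q < e) (hK₁ : 0 ≤ K₁) (hC₀ : 0 ≤ C₀) :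
    ∃ ε₀ : ℝ, 0 < ε₀ ∧ ∀ ε : ℝ, 0 ≤ ε → ε ≤ ε₀ → ∃ n₁ : ℕ, ∀ n N T TM : ℕ, n₁ ≤ n → (N : ℝ) ≤ (n : ℝ) ^ p → (T : ℝ) ≤ (n : ℝ) ^ q →
    1 ≤ TM → (TM : ℝ) ≤ (n : ℝ) ^ q → ∀ {Γ : Cx} {ν : NV31} {G : Gd} {t : ℕ} {c : ℕ × ℤ} {W : ℝ}, 0 < G.H (t + ν.m₂) →
    G.H (t + ν.m₂) ≤ TM → ν.Ts (t + ν.m₂) ≤ TM → (n : ℝ) ^ e ≤ c.1 →
    |(c.2 : ℝ) - 1 - sl μ s * c.1| < 4 * ((N : ℝ) ^ ε * wd μ s c.1) + T →
    |(((G.z t c).2 : ℝ) - c.2) - sl μ s * (((G.z t c).1 : ℝ) - c.1)| ≤ C₀ * wd μ s TM → 0 ≤ W → W ≤ K₁ * wd μ s TM →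
    ν.row G t c + ν.nr t < Γ.N →
    (∀ x : ℤ, |(x : ℝ) - ν.cn G t c (sl μ s)| ≤ W → 0 ≤ x ∧ x + ν.nr t ≤ Γ.hi) ∧
    (∀ z : ℤ, |(z : ℝ) - ν.cn' G t c (sl μ s)| ≤ W → 0 ≤ z - ν.nr t) ∧
    (∀ x ∈ Icc 0 Γ.hi, |(x : ℝ) - ν.cn G t c (sl μ s)| ≤ Γ.hi) ∧
    (∀ z ∈ Icc 0 Γ.hi, |(z : ℝ) - ν.cn' G t c (sl μ s)| ≤ Γ.hi) := by
  have hs0 := h.sl_pos
  have hs1 := h.sl_lt
  obtain ⟨θ, hθd⟩ : ∃ θ : ℝ, θ = min (sl μ s) (1 - sl μ s) := ⟨_, rfl⟩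
  have hθ : 0 < θ := by rw [hθd]; exact lt_min hs0 (by linarith)
  have hθ1 : θ ≤ sl μ s := by rw [hθd]; exact min_le_left _ _
  have hθ2 : θ ≤ 1 - sl μ s := by rw [hθd]; exact min_le_right _ _
  have hθ3 : θ ≤ 1 := by linarith
  obtain ⟨ε₀, hε₀, H⟩ := latNum56 h he hp (show 0 < θ / 32 by positivity)
  obtain ⟨B, hB, hlin⟩ := wd_lin56 h
  refine ⟨ε₀, hε₀, fun ε hε0 hε => ?_⟩
  obtain ⟨n₁, H1⟩ := H ε hε0 hε
  obtain ⟨X, hX⟩ : ∃ X : ℝ, X = 8 / θ * (2 + C₀ * B + K₁ * B + 4) := ⟨_, rfl⟩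
  have h2 := ((tendsto_rpow_atTop (show (0 : ℝ) < e - q by linarith)).comp tendsto_natCast_atTop_atTop).eventually_ge_atTop X
  obtain ⟨n₂, hn₂⟩ := eventually_atTop.1 h2
  refine ⟨max n₁ (max n₂ 1), ?_⟩
  intro n N T TM hn hN hT hTM1 hTM Γ ν G t c W hH0 hH hTs hc hlat hz hW0 hW hrow
  have g1 : n₁ ≤ n := (le_max_left _ _).trans hn
  have g2 : n₂ ≤ n := ((le_max_left _ _).trans (le_max_right _ _)).trans hn
  have g3 : 1 ≤ n := ((le_max_right _ _).trans (le_max_right _ _)).trans hn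
  have hnR : (1 : ℝ) ≤ n := by exact_mod_cast g3
  have hn0 : (0 : ℝ) < n := by linarith
  have a1 := H1 n N c.1 g1 hN hc
  have a2 := hn₂ n g2
  simp only [Function.comp] at a2
  have hTMR : (1 : ℝ) ≤ TM := by exact_mod_cast hTM1
  have a3 := hlin TM hTM1
  obtain ⟨q', hq'⟩ : ∃ q' : ℝ, q' = (n : ℝ) ^ q := ⟨_, rfl⟩
  rw [← hq'] at hT hTM
  have hq1 : 1 ≤ q' := hTMR.trans hTM
  have a4 : X * q' ≤ c.1 := by
    calc X * q' ≤ (n : ℝ) ^ (e - q) * (n : ℝ) ^ q := by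
          rw [hq']
          exact mul_le_mul_of_nonneg_right a2 (Real.rpow_nonneg hn0.le _)
      _ = (n : ℝ) ^ e := by rw [← Real.rpow_add hn0, sub_add_cancel]
      _ ≤ _ := hc
  have a5 : 8 * ((2 + C₀ * B + K₁ * B + 4) * q') ≤ θ * c.1 := by
    have h3 := mul_le_mul_of_nonneg_left a4 hθ.le
    have h4 : θ * (X * q') = 8 * ((2 + C₀ * B + K₁ * B + 4) * q') := by
      rw [hX]
      field_simp
    linarith
  have hwTM : wd μ s TM ≤ B * q' := a3.trans (mul_le_mul_of_nonneg_left hTM (by linarith))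
  have a6 := mul_le_mul_of_nonneg_left hwTM hC₀
  have a7 := mul_le_mul_of_nonneg_left hwTM hK₁
  have a8 : (ν.nr t : ℝ) ≤ 2 * q' := by
    have h3 : (ν.Ts (t + ν.m₂) : ℝ) ≤ TM := by exact_mod_cast hTs
    have h4 : (ν.nr t : ℝ) = 2 * (ν.Ts (t + ν.m₂) : ℝ) := by
      unfold NV31.nr
      push_cast
      ring
    rw [h4]
    linarith
  have a9 : (c.1 : ℝ) ≤ ν.row G t c + 2 * q' := by
    have h3 : (c.1 : ℝ) ≤ ν.row G t c + ((G.H (t + ν.m₂) : ℝ) + (ν.Ts (t + ν.m₂) : ℝ)) := by exact_mod_cast row_ge56 hH0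
    have h4 : (ν.Ts (t + ν.m₂) : ℝ) ≤ TM := by exact_mod_cast hTs
    have h5 : (G.H (t + ν.m₂) : ℝ) ≤ TM := by exact_mod_cast hH
    linarith
  have hcB0 : 0 ≤ C₀ * B := mul_nonneg hC₀ (by linarith)
  have hkB0 : 0 ≤ K₁ * B := mul_nonneg hK₁ (by linarith)
  have b1 : 0 ≤ C₀ * B * q' := mul_nonneg hcB0 (by linarith)
  have b2 : 0 ≤ K₁ * B * q' := mul_nonneg hkB0 (by linarith)
  have hc0 : (0 : ℝ) ≤ c.1 := Nat.cast_nonneg _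
  have hθc : θ * c.1 ≤ c.1 := by
    have := mul_le_mul_of_nonneg_right hθ3 hc0
    linarith
  have key : (4 * ((N : ℝ) ^ ε * wd μ s c.1) + T) + 1 + C₀ * wd μ s TM + W + ν.nr t ≤ θ * ν.row G t c := by
    have h3 := mul_le_mul_of_nonneg_left a9 hθ.le
    have h4 : θ * (2 * q') ≤ 2 * q' := by
      have := mul_le_mul_of_nonneg_right hθ3 (show 0 ≤ 2 * q' by linarith)
      linarith
    have h5 : (2 + C₀ * B + K₁ * B + 4) * q' = 6 * q' + C₀ * B * q' + K₁ * B * q' := by ring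
    rw [h5] at a5
    have h6 : 4 * ((N : ℝ) ^ ε * wd μ s c.1) ≤ θ * c.1 / 8 := by linarith
    linarith [show C₀ * (B * q') = C₀ * B * q' by ring, show K₁ * (B * q') = K₁ * B * q' by ring,
      show θ * ((ν.row G t c : ℝ) + 2 * q') = θ * ν.row G t c + θ * (2 * q') by ring]
  have hr0 : (0 : ℝ) ≤ ν.row G t c := Nat.cast_nonneg _
  have k1 := mul_le_mul_of_nonneg_right hθ1 hr0
  have k2 := mul_le_mul_of_nonneg_right hθ2 hr0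
  have hn0' : (0 : ℝ) ≤ ν.nr t := Nat.cast_nonneg _
  exact box56 hs0.le hs1.le hW0 hlat.le hz hrow (by linarith) (by linarith)

omit [IsProbabilityMeasure μ] in
/-- **The columns near the line of a contact.** -/
theorem col56 (hs0 : 0 ≤ sl μ s) (hs1 : sl μ s ≤ 1) {N : ℕ} {c : ℕ × ℤ} (h1 : 1 ≤ c.2) (h2 : c.2 ≤ c.1 + 1) (hcN : c.1 + 1 ≤ N) {r : ℕ}
    (hr : r ≤ N) {y : ℤ} {Y : ℝ} (hy : |lat16 μ s (pt c) ((r : ℤ), y)| ≤ Y) (hY : Y ≤ 2 * N) : |y| ≤ 4 * (N : ℤ) := by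
  have e1 : lat16 μ s (pt c) ((r : ℤ), y) = (y : ℝ) - c.2 - sl μ s * ((r : ℝ) - c.1) := by
    unfold lat16
    have e2 : (pt c).1 = (c.1 : ℤ) := rfl
    have e3 : (pt c).2 = c.2 := rfl
    rw [e2, e3]
    push_cast
    ring
  rw [e1] at hy
  have a1 := abs_le.1 hy
  have hrR : (r : ℝ) ≤ N := by exact_mod_cast hr
  have hr0 : (0 : ℝ) ≤ r := Nat.cast_nonneg _
  have hc0 : (0 : ℝ) ≤ c.1 := Nat.cast_nonneg _
  have hcR : (c.1 : ℝ) + 1 ≤ N := by exact_mod_cast hcN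
  have b1 : (1 : ℝ) ≤ c.2 := by exact_mod_cast h1
  have b2 : (c.2 : ℝ) ≤ c.1 + 1 := by exact_mod_cast h2
  have b3 := mul_nonneg hs0 hr0
  have b4 := mul_nonneg hs0 hc0
  have b5 := mul_le_mul_of_nonneg_right hs1 hr0
  have b6 := mul_le_mul_of_nonneg_right hs1 hc0
  have c1 : (y : ℝ) ≤ ((4 * (N : ℤ) : ℤ) : ℝ) := by
    push_cast
    linarith [show sl μ s * ((r : ℝ) - c.1) = sl μ s * r - sl μ s * c.1 by ring]
  have c2 : ((-(4 * (N : ℤ)) : ℤ) : ℝ) ≤ y := by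
    push_cast
    linarith [show sl μ s * ((r : ℝ) - c.1) = sl μ s * r - sl μ s * c.1 by ring]
  rw [abs_le]
  exact ⟨by exact_mod_cast c2, by exact_mod_cast c1⟩

end

end Pool.Agent.W_7d29a1_C1.H56
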