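import Pool.Agent.W_7d29a1_C1.NumN90
import Pool.Agent.W_7d29a1_C1.LatB56
import Pool.Agent.W_7d29a1_C1.CrI84
import Pool.Agent.W_7d29a1_C1.NbrC78
import Pool.Agent.W_7d29a1_C1.Fut67
import Pool.Agent.W_7d29a1_C1.SepM49
import Pool.Agent.W_7d29a1_C1.Geo74

/-!
MP_7d29a1_pr, attractor route [C1], field `nu` of one context: THE HYPOTHESES OF `vt31` ON THE CONTEXT AND ON THE SITE (helper90, for the
block DtQ77 of helper77).

`GeC90` : weights, force, number of rows. `GeS90` : the rows of the boxes, the single weights, the boxes of `vin31` for one site.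
`ged90` : they hold, off a set of probability `n ^ (-2)`, for all the sites of `S8` of weight at least `exp (- n ^ e')`.
-/

set_option autoImplicit false
set_option linter.unusedSectionVars false

namespace Pool.Agent.W_7d29a1_C1.Gd90

open MeasureTheory ProbabilityTheory Finset Filter Topology
open Pool.Agent.W_7d29a1_F Pool.Agent.W_7d29a1_h4g Pool.Agent.W_7d29a1_H Pool.Agent.W_7d29a1_HS
open Pool.Agent.W_7d29a1_h47 (EM)
open Pool.Agent.W_7d29a1_C1.T10 (Gd pt Tg Hg Tg_pos Tg_mono Hg_mono GW)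
open Pool.Agent.W_7d29a1_C1.T98 (mem_St kT dT dT_le kT_le lt_dT)
open Pool.Agent.W_7d29a1_C1.H8
open Pool.Agent.W_7d29a1_C1.H60
open Pool.Agent.W_7d29a1_C1.H56 (hgeo56 wd_lin56 lat56 cone56)
open Pool.Agent.W_7d29a1_C1.U16 (lat16)
open Pool.Agent.W_7d29a1_C1.D31 (NV31)
open Pool.Agent.W_7d29a1_C1.Win84 (LB84 UB84 FUT84)
open Pool.Agent.W_7d29a1_C1.Cr84 (crd84f CrS84)
open Pool.Agent.W_7d29a1_C1.Nbr78 (EE_low78)
open Pool.Agent.W_7d29a1_C1.N49 (model_E)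
open scoped ENNReal

noncomputable section

variable {μ : Measure ℝ} [IsProbabilityMeasure μ]

/-- **THE HYPOTHESES ON THE CONTEXT**, scale `n`, levels up to `L`. -/
structure GeC90 (μ : Measure ℝ) (s c : ℝ) (n : ℕ) (T : ℕ → ℕ) (L : ℕ) (Γ : Cx) : Prop where
  ok : Γ.Ok
  p1 : ∀ k, k < Γ.M → Γ.p k = Real.exp (s + Γ.h)
  p2 : ∀ k, Γ.M ≤ k → Γ.p k = Real.exp s
  h1 : |Γ.h| ≤ 1
  pB : ∀ j, |Real.log (Γ.p j)| ≤ |s| + 1
  NE : ∀ w, 1 ≤ w → w ≤ L → (Γ.N : ℝ) + 1 ≤ Real.exp (EE μ s (2 * T w))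
  fo : ∀ w, 1 ≤ w → w ≤ L → |Γ.h| * wd μ s (2 * T w) ≤ c / 8 * EE μ s (2 * T w)
  hi4 : ((Icc 0 Γ.hi).card : ℝ) ≤ (n : ℝ) ^ 4

/-- **THE HYPOTHESES ON THE SITE** `b` in the environment `ω`. -/
structure GeS90 (μ : Measure ℝ) (s : ℝ) (n : ℕ) (T : ℕ → ℕ) (L : ℕ) (K₁ : ℝ) (Γ : Cx) (G : Gd) (b : ℕ × ℤ) (ω : Env) : Prop where
  rlo : ∀ w ≤ L, T w ≤ (G.z w b).1
  rhi : ∀ w ≤ L, (G.z w b).1 + T w < Γ.N
  w1 : ∀ (j : ℕ) (z : ℤ), j ≤ Γ.N → z ∈ Icc (0 : ℤ) Γ.hi → |ω ((j : ℤ), z)| ≤ Real.log n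
  w2 : ∀ (r Mt : ℕ) (z : ℤ), r ≤ Γ.N → 1 ≤ Mt → Mt ≤ L → |lat16 μ s (pt b) ((r : ℤ), z)| ≤ K₁ * wd μ s (T Mt) →
    |ω ((r : ℤ), z)| ≤ Real.log n
  box : ∀ (ν : NV31) (t Mt : ℕ) (W : ℝ), ν.Ts = T → 1 ≤ t → t + ν.m₂ ≤ L → 1 ≤ Mt → Mt ≤ L → 0 ≤ W → W ≤ K₁ * wd μ s (T Mt) →
    (∀ z ∈ Icc 0 Γ.hi, |(z : ℝ) - ν.cn G t b (sl μ s)| ≤ Γ.hi) ∧ (∀ z ∈ Icc 0 Γ.hi, |(z : ℝ) - ν.cn' G t b (sl μ s)| ≤ Γ.hi) ∧
    (∀ z : ℤ, |(z : ℝ) - ν.cn G t b (sl μ s)| ≤ W → 0 ≤ z ∧ z + ν.nr t ≤ Γ.hi) ∧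
    (∀ z : ℤ, |(z : ℝ) - ν.cn' G t b (sl μ s)| ≤ W → 0 ≤ z - ν.nr t)

/-! ### The single weights -/

/-- One weight. -/
theorem tail90 (hμ : EM μ) : ∃ B : ℝ, 1 ≤ B ∧ ∀ (a : Pt) (u : ℝ), (law μ).real {η : Env | u < |η a|} ≤ B * Real.exp (-(40 * u)) := by
  refine ⟨max 1 (∫ x, Real.exp (40 * |x|) ∂μ), le_max_left _ _, fun a u => ?_⟩
  have hm : MeasurePreserving (Function.eval a) (law μ) μ := measurePreserving_eval_infinitePi (fun _ : Pt => μ) a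
  have hs : MeasurableSet {x : ℝ | u < |x|} := measurableSet_lt measurable_const measurable_norm
  have h1 : (law μ).real {η : Env | u < |η a|} = μ.real {x : ℝ | u < |x|} := by
    rw [measureReal_def, measureReal_def]
    congr 1
    exact hm.measure_preimage hs.nullMeasurableSet
  have h2 := mul_meas_ge_le_integral_of_nonneg (μ := μ) (f := fun x : ℝ => Real.exp (40 * |x|))
    (ae_of_all _ fun x => (Real.exp_pos _).le) (hμ 40) (Real.exp (40 * u))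
  have h3 : μ.real {x : ℝ | u < |x|} ≤ μ.real {x : ℝ | Real.exp (40 * u) ≤ Real.exp (40 * |x|)} := by
    refine measureReal_mono (fun x hx => ?_) (measure_ne_top _ _)
    have hx' : u < |x| := hx
    show Real.exp (40 * u) ≤ Real.exp (40 * |x|)
    exact Real.exp_le_exp.2 (by linarith)
  have h4 : Real.exp (40 * u) * μ.real {x : ℝ | u < |x|} ≤ ∫ x, Real.exp (40 * |x|) ∂μ :=
    (mul_le_mul_of_nonneg_left h3 (Real.exp_pos _).le).trans h2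
  rw [h1]
  have h5 : μ.real {x : ℝ | u < |x|} = Real.exp (-(40 * u)) * (Real.exp (40 * u) * μ.real {x : ℝ | u < |x|}) := by
    rw [← mul_assoc, ← Real.exp_add]
    simp
  rw [h5, mul_comm _ (Real.exp (-(40 * u)))]
  exact mul_le_mul_of_nonneg_left (h4.trans (le_max_right _ _)) (Real.exp_pos _).le

/-- **THE SINGLE WEIGHTS**: rows `j ≤ n ^ 8`, places `|z| ≤ n ^ 8`. -/
theorem wts90 (hμ : EM μ) : ∀ᶠ n : ℕ in atTop, law μ {ω : Env | ∃ j ≤ n ^ 8, ∃ z : ℤ, |z| ≤ (n : ℤ) ^ 8 ∧ Real.log n < |ω ((j : ℤ), z)|} ≤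
    ENNReal.ofReal ((n : ℝ) ^ (-(4 : ℝ))) := by
  obtain ⟨B, hB, HB⟩ := tail90 hμ
  obtain ⟨nB, hnB⟩ := exists_nat_ge (8 * B)
  filter_upwards [eventually_ge_atTop (max nB 2)] with n hn
  have hn1 : 2 ≤ n := (le_max_right _ _).trans hn
  have hnR : (2 : ℝ) ≤ n := by exact_mod_cast hn1
  have n0 : (0 : ℝ) < n := by linarith
  have hBn : 8 * B ≤ n := hnB.trans (by exact_mod_cast (le_max_left _ _).trans hn)
  obtain ⟨S, hS⟩ : ∃ S : Finset (ℕ × ℤ), S = range (n ^ 8 + 1) ×ˢ Icc (-((n : ℤ) ^ 8)) ((n : ℤ) ^ 8) := ⟨_, rfl⟩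
  have hsub : {ω : Env | ∃ j ≤ n ^ 8, ∃ z : ℤ, |z| ≤ (n : ℤ) ^ 8 ∧ Real.log n < |ω ((j : ℤ), z)|} ⊆
      ⋃ a ∈ S, {η : Env | Real.log n < |η ((a.1 : ℤ), a.2)|} := by
    rintro ω ⟨j, hj, z, hz, h⟩
    refine Set.mem_iUnion₂.2 ⟨(j, z), ?_, h⟩
    rw [hS, mem_product, mem_range, mem_Icc]
    exact ⟨by omega, abs_le.1 hz⟩
  have hcard : (S.card : ℝ) ≤ 4 * (n : ℝ) ^ 16 := by
    have h1 : S.card = (n ^ 8 + 1) * (2 * n ^ 8 + 1) := by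
      rw [hS, card_product, card_range, Int.card_Icc]
      congr 1
      have : (n : ℤ) ^ 8 + 1 - -((n : ℤ) ^ 8) = ((2 * n ^ 8 + 1 : ℕ) : ℤ) := by push_cast; ring
      rw [this, Int.toNat_natCast]
    rw [h1]
    push_cast
    have h2 : (2 : ℝ) ≤ (n : ℝ) ^ 8 := by
      calc (2 : ℝ) ≤ n := hnR
        _ ≤ (n : ℝ) ^ 8 := le_self_pow₀ (by linarith) (by norm_num)
    have e1 : (n : ℝ) ^ 16 = (n : ℝ) ^ 8 * (n : ℝ) ^ 8 := by ring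
    rw [e1]
    nlinarith
  have hr : (law μ).real {ω : Env | ∃ j ≤ n ^ 8, ∃ z : ℤ, |z| ≤ (n : ℤ) ^ 8 ∧ Real.log n < |ω ((j : ℤ), z)|} ≤ (n : ℝ) ^ (-(4 : ℝ)) := by
    refine (measureReal_mono hsub (measure_ne_top _ _)).trans ((measureReal_biUnion_finset_le _ _).trans ?_)
    refine (sum_le_sum fun a _ => HB ((a.1 : ℤ), a.2) (Real.log n)).trans ?_
    rw [sum_const, nsmul_eq_mul]
    have e1 : Real.exp (-(40 * Real.log n)) = (n : ℝ) ^ (-(40 : ℝ)) := by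
      rw [Real.rpow_def_of_pos n0]
      congr 1
      ring
    rw [e1]
    have e2 : (n : ℝ) ^ 16 = (n : ℝ) ^ (16 : ℝ) := by norm_cast
    rw [e2] at hcard
    have p0 : 0 ≤ B * (n : ℝ) ^ (-(40 : ℝ)) := by positivity
    calc (S.card : ℝ) * (B * (n : ℝ) ^ (-(40 : ℝ))) ≤ 4 * (n : ℝ) ^ (16 : ℝ) * (B * (n : ℝ) ^ (-(40 : ℝ))) :=
          mul_le_mul_of_nonneg_right hcard p0
      _ = 4 * B * ((n : ℝ) ^ (16 : ℝ) * (n : ℝ) ^ (-(40 : ℝ))) := by ring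
      _ = 4 * B * (n : ℝ) ^ (-(24 : ℝ)) := by
          rw [← Real.rpow_add n0]
          norm_num
      _ ≤ (n : ℝ) ^ (1 : ℝ) * (n : ℝ) ^ (-(24 : ℝ)) := by
          refine mul_le_mul_of_nonneg_right ?_ (by positivity)
          rw [Real.rpow_one]
          linarith
      _ = (n : ℝ) ^ (-(23 : ℝ)) := by
          rw [← Real.rpow_add n0]
          norm_num
      _ ≤ (n : ℝ) ^ (-(4 : ℝ)) := Real.rpow_le_rpow_of_exponent_le (by linarith) (by norm_num)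
  rw [← ENNReal.ofReal_toReal (measure_ne_top (law μ) _)]
  exact ENNReal.ofReal_le_ofReal hr

/-! ### The contacts near the line -/

/-- **THE CONTACTS WHICH ARE NOT LIGHT ARE NEAR THE LINE.** -/
theorem lat90 {s c C : ℝ} {n₀ : ℕ} (hI : In μ s c C n₀) (hL : LB84 μ s) (hU : UB84 μ s) {ε q : ℝ} (hε : 0 < ε) (hq : 0 < q)
    (hq1 : q ≤ 1 / 16) : ∃ e' κ₀ : ℝ, 0 < e' ∧ 0 < κ₀ ∧ ∀ c₂ δ κ : ℝ, c₂ ≤ 1 / 8 → 0 < δ → κ ≤ κ₀ → ∀ᶠ n : ℕ in atTop,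
      ∀ Γ : Cx, Adm μ s c₂ δ κ n Γ → ∃ (N T : ℕ) (Bd : Set Env), (N : ℝ) ≤ (n : ℝ) ^ (7 : ℝ) ∧ (T : ℝ) ≤ (n : ℝ) ^ q ∧
        law μ Bd ≤ ENNReal.ofReal ((n : ℝ) ^ (-(4 : ℝ))) ∧ ∀ ω ∉ Bd, ∀ b ∈ Γ.rows 0 Γ.N, (n : ℝ) ^ q ≤ b.1 →
          Real.exp (-((n : ℝ) ^ e')) ≤ Γ.w b ω →
          1 ≤ b.2 ∧ b.2 ≤ b.1 + 1 ∧ |(b.2 : ℝ) - 1 - sl μ s * b.1| < 4 * ((N : ℝ) ^ ε * wd μ s b.1) + T := by
  obtain ⟨δ', κ', c', hδ', hκ', hc', N₀, H⟩ := crd84f hI hL hU (Pool.Agent.W_7d29a1_C1.fut_real67 hI) (ε := ε) (τ := q / 14) hε (by positivity)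
  obtain ⟨nE, hnE⟩ := EE_low78 hI hL
  refine ⟨c' / 2, κ', by positivity, hκ', fun c₂ δ κ hc₂ hδ hκ => ?_⟩
  have ev : ∀ {y : ℝ}, 0 < y → ∀ M : ℝ, ∀ᶠ n : ℕ in atTop, M ≤ (n : ℝ) ^ y := fun hy M =>
    ((tendsto_rpow_atTop hy).comp tendsto_natCast_atTop_atTop).eventually_ge_atTop M
  have evl : ∀ᶠ n : ℕ in atTop, 4 * Real.log n ≤ (n : ℝ) ^ c' := by
    have h := (isLittleO_log_rpow_atTop hc').bound (show (0 : ℝ) < 1 / 4 by norm_num)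
    filter_upwards [tendsto_natCast_atTop_atTop.eventually h, eventually_ge_atTop 1] with n hn hn1
    have hn0 : (1 : ℝ) ≤ n := by exact_mod_cast hn1
    rw [Real.norm_of_nonneg (Real.log_nonneg hn0), Real.norm_of_nonneg (by positivity)] at hn
    linarith
  filter_upwards [ev (show (0 : ℝ) < q / 2 by positivity) 2, ev (show (0 : ℝ) < c' / 2 by positivity) 2, evl,
    eventually_ge_atTop (max (max N₀ nE) 4)] with n e1 e2 e3 hn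
  intro Γ hA
  have b0 : N₀ ≤ n := ((le_max_left _ _).trans (le_max_left _ _)).trans hn
  have bE : nE ≤ n := ((le_max_right _ _).trans (le_max_left _ _)).trans hn
  have b4 : 4 ≤ n := (le_max_right _ _).trans hn
  have hn1 : (4 : ℝ) ≤ n := by exact_mod_cast b4
  have hn0 : (0 : ℝ) < n := by linarith only [hn1]
  have hn1' : (1 : ℝ) ≤ n := by linarith only [hn1]
  obtain ⟨Na, L, hNa, hNan, hL3, hL2, hM, hΓN, hh1, hh⟩ := hA.hor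
  obtain ⟨N, hN⟩ : ∃ N : ℕ, N = 4 * Na ^ 3 := ⟨_, rfl⟩
  have hNa1 : 1 ≤ Na := by omega
  have hNa3 : Na ≤ Na ^ 3 := Nat.le_self_pow (by norm_num) Na
  have hNaN : Na ≤ N := by omega
  have hnN : n ≤ N := hNa.trans hNaN
  have hΓ : Γ.N ≤ N := by
    have h1 : 1 ≤ Na ^ 3 := Nat.one_le_pow _ _ hNa1
    omega
  have hNn7 : (N : ℝ) ≤ (n : ℝ) ^ (7 : ℝ) := by
    have h1 : (Na : ℝ) ≤ (n : ℝ) ^ (2 : ℝ) := hNan.trans (Real.rpow_le_rpow_of_exponent_le hn1' (by linarith only [hc₂]))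
    have h2 : (Na : ℝ) ^ 3 ≤ ((n : ℝ) ^ (2 : ℝ)) ^ 3 := pow_le_pow_left₀ (Nat.cast_nonneg _) h1 3
    have h3 : (N : ℝ) = 4 * (Na : ℝ) ^ 3 := by rw [hN]; push_cast; ring
    have h4 : ((n : ℝ) ^ (2 : ℝ)) ^ 3 = (n : ℝ) ^ (6 : ℝ) := by
      rw [← Real.rpow_natCast, ← Real.rpow_mul hn0.le]
      norm_num
    have h5 : (n : ℝ) ^ (7 : ℝ) = n * (n : ℝ) ^ (6 : ℝ) := by
      rw [show (7 : ℝ) = 1 + 6 by norm_num, Real.rpow_add hn0, Real.rpow_one]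
    rw [h3, h5]
    rw [h4] at h2
    have h6 : 0 ≤ (n : ℝ) ^ (6 : ℝ) := by positivity
    have h7 := mul_le_mul_of_nonneg_right hn1 h6
    linarith only [h2, h7]
  have hNR : (n : ℝ) ≤ N := by exact_mod_cast hnN
  have hN0 : (0 : ℝ) < N := by linarith only [hNR, hn0]
  obtain ⟨T, hT⟩ : ∃ T : ℕ, T = ⌈(N : ℝ) ^ (q / 14)⌉₊ := ⟨_, rfl⟩
  have hNT : (N : ℝ) ^ (q / 14) ≤ T := by
    rw [hT]
    exact Nat.le_ceil _
  have hTn : (T : ℝ) ≤ (n : ℝ) ^ q := by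
    have h1 : (N : ℝ) ^ (q / 14) ≤ (n : ℝ) ^ (q / 2) := by
      have h2 := Real.rpow_le_rpow hN0.le hNn7 (show 0 ≤ q / 14 by positivity)
      rwa [← Real.rpow_mul hn0.le, show 7 * (q / 14) = q / 2 by ring] at h2
    have h3 : (⌈(N : ℝ) ^ (q / 14)⌉₊ : ℝ) ≤ (N : ℝ) ^ (q / 14) + 1 := (Nat.ceil_lt_add_one (by positivity)).le
    have h4 : (n : ℝ) ^ q = (n : ℝ) ^ (q / 2) * (n : ℝ) ^ (q / 2) := by
      rw [← Real.rpow_add hn0]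
      congr 1
      ring
    rw [hT, h4]
    nlinarith only [h1, h3, e1]
  have hT1 : 1 ≤ T := by
    have h1 : (0 : ℝ) < T := lt_of_lt_of_le (Real.rpow_pos_of_pos hN0 _) hNT
    have h2 : 0 < T := by exact_mod_cast h1
    omega
  have hTN : T ≤ N := by
    have h1 : (n : ℝ) ^ q ≤ n := by
      calc (n : ℝ) ^ q ≤ (n : ℝ) ^ (1 : ℝ) := Real.rpow_le_rpow_of_exponent_le hn1' (by linarith only [hq1])
        _ = n := Real.rpow_one _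
    exact_mod_cast hTn.trans (h1.trans hNR)
  have hκN : |Γ.h| * EE μ s Na ≤ (N : ℝ) ^ κ' := by
    have h1 : (Na : ℝ) ^ κ ≤ (Na : ℝ) ^ κ' := Real.rpow_le_rpow_of_exponent_le (by exact_mod_cast hNa1) hκ
    have h2 : (Na : ℝ) ^ κ' ≤ (N : ℝ) ^ κ' := Real.rpow_le_rpow (Nat.cast_nonneg _) (by exact_mod_cast hNaN) hκ'.le
    exact hh.trans (h1.trans h2)
  have hhT : |Γ.h| * T ≤ 1 := by
    have h1 : (n : ℝ) ^ (-(2 * δ)) ≤ 1 := Real.rpow_le_one_of_one_le_of_nonpos hn1' (by linarith only [hδ])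
    have h2 : (T : ℝ) ≤ EE μ s n := hTn.trans ((Real.rpow_le_rpow_of_exponent_le hn1' hq1).trans (hnE n bE))
    exact (mul_le_mul_of_nonneg_left h2 (abs_nonneg _)).trans (hh1.trans h1)
  obtain ⟨Gs, hGp, hGs⟩ := H N Na T (b0.trans hnN) hNT hTN Γ.h hκN
  refine ⟨N, T, Gsᶜ, hNn7, hTn, ?_, ?_⟩
  · rw [← ENNReal.ofReal_toReal (measure_ne_top (law μ) _)]
    refine ENNReal.ofReal_le_ofReal (hGp.trans ?_)
    rw [Real.rpow_def_of_pos hn0]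
    refine Real.exp_le_exp.2 ?_
    have h1 : (n : ℝ) ^ c' ≤ (N : ℝ) ^ c' := Real.rpow_le_rpow hn0.le hNR hc'.le
    linarith only [h1, e3]
  · intro ω hω b hb hbq hw
    rw [Set.notMem_compl_iff] at hω
    have hS := hGs ω hω Γ.M Γ.N Γ.p hM (by omega) hΓ (fun k hk => by
      show (if k < Γ.M then Real.exp (Γ.s + Γ.h) else Real.exp Γ.s) = _
      rw [if_pos hk, hA.hs]) (fun k hk => by
      show (if k < Γ.M then Real.exp (Γ.s + Γ.h) else Real.exp Γ.s) = _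
      rw [if_neg (by omega), hA.hs])
    refine lat56 hI hA.ok (A := (N : ℝ) ^ ε) (θ := Real.exp (-(N : ℝ) ^ c')) (by positivity) (Real.exp_pos _).le hT1 (by omega) hhT
      (fun a m h1 h2 h3 x h4 => hS.ca a m h1 h2 h3 x h4) hb (by exact_mod_cast hTn.trans hbq) (lt_of_lt_of_le ?_ hw)
    have h1 : (n : ℝ) ^ c' ≤ (N : ℝ) ^ c' := Real.rpow_le_rpow hn0.le hNR hc'.le
    have h2 : (n : ℝ) ^ c' = (n : ℝ) ^ (c' / 2) * (n : ℝ) ^ (c' / 2) := by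
      rw [← Real.rpow_add hn0]
      congr 1
      ring
    have h3 : (n : ℝ) ^ (c' / 2) + 1 ≤ (N : ℝ) ^ c' := by nlinarith only [h1, h2, e2]
    have h4 : Real.exp (-(N : ℝ) ^ c') ≤ Real.exp (-((n : ℝ) ^ (c' / 2)) - 1) := Real.exp_le_exp.2 (by linarith only [h3])
    have h5 : Real.exp (-((n : ℝ) ^ (c' / 2)) - 1) * Real.exp 1 = Real.exp (-((n : ℝ) ^ (c' / 2))) := by
      rw [← Real.exp_add]
      congr 1
      ring
    have h6 : (2 : ℝ) < Real.exp 1 := by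
      have := Real.exp_one_gt_d9
      linarith
    have h7 := Real.exp_pos (-((n : ℝ) ^ (c' / 2)) - 1)
    nlinarith only [h4, h5, h6, h7]

/-! ### The site -/

/-- The rows of the boxes of a site of `S8`. -/
theorem rows90 {e e₀ : ℝ} {K Q x n : ℕ} (hg : GridN8 e e₀ K Q x n) (hK : 2 ≤ K) (hn : 1 ≤ n) {G : Gd}
    (hH : ∀ v, G.H v = Hg (h8 Q e₀ n) K v) {Γ : Cx} {b : ℕ × ℤ} (hb : b ∈ S8 e K n G Γ) :
    (∀ w ≤ m8 K e n + x, Tg (h8 Q e₀ n) K w ≤ (G.z w b).1) ∧ (∀ w ≤ m8 K e n + x, (G.z w b).1 + Tg (h8 Q e₀ n) K w < Γ.N) ∧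
      (n : ℝ) ^ e / 2 ≤ b.1 := by
  obtain ⟨h₀, hh⟩ : ∃ h₀ : ℕ, h₀ = h8 Q e₀ n := ⟨_, rfl⟩
  have h1 := (mem_St.1 hb).1
  rw [hH] at h1
  have h2 : dT (Hg (h8 Q e₀ n) K (m8 K e n)) ((n : ℝ) ^ e) ≤ b.1 := h1.1
  have h3 : b.1 < kT (Hg (h8 Q e₀ n) K (m8 K e n)) (dT (Hg (h8 Q e₀ n) K (m8 K e n)) ((n : ℝ) ^ e)) (Γ.N - n) := h1.2
  have h4 := kT_le (Hg (h8 Q e₀ n) K (m8 K e n)) (dT (Hg (h8 Q e₀ n) K (m8 K e n)) ((n : ℝ) ^ e)) (Γ.N - n)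
  have h5 := hg.d_ge hK hn (Nat.le_add_right (m8 K e n) x)
  have h1R := hg.h1
  have hTL := hg.TL
  rw [← hh] at h2 h3 h4 h5 h1R hTL ⊢
  have hK1 : 1 ≤ K := by omega
  have hnR : (1 : ℝ) ≤ n := by exact_mod_cast hn
  have hh0 : 0 < h₀ := by
    have h2 : (0 : ℝ) < h₀ := lt_of_lt_of_le (by positivity) h1R
    exact_mod_cast h2
  have hHp : ∀ w, 0 < Hg h₀ K w := fun w => Nat.mul_pos hh0 (Nat.pow_pos (by omega))
  have hz : ∀ w, (G.z w b).1 ≤ b.1 ∧ b.1 < (G.z w b).1 + Hg h₀ K w := by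
    intro w
    have e1 : (G.z w b).1 = G.H w * (b.1 / G.H w) := rfl
    have e2 : G.H w = Hg h₀ K w := by rw [hH, hh]
    rw [e1, e2]
    refine ⟨Nat.mul_div_le _ _, ?_⟩
    have h6 := Nat.lt_mul_div_succ b.1 (hHp w)
    rw [mul_add, mul_one] at h6
    exact h6
  refine ⟨fun w hw => ?_, fun w hw => ?_, ?_⟩
  · have h6 := (hz w).2
    have h7 : Tg h₀ K w ≤ Tg h₀ K (m8 K e n + x) := Tg_mono hK1 hw
    have h8' : Hg h₀ K w ≤ Hg h₀ K (m8 K e n + x) := Hg_mono hK1 hw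
    omega
  · have h6 := (hz w).1
    have h7 : Tg h₀ K w ≤ Tg h₀ K (m8 K e n + x) := Tg_mono hK1 hw
    omega
  · have h6 := lt_dT (hHp (m8 K e n)) ((n : ℝ) ^ e)
    have h7 : (Hg h₀ K (m8 K e n) : ℝ) ≤ (n : ℝ) ^ e / 2 := by
      have h8' : Hg h₀ K (m8 K e n) ≤ Hg h₀ K (m8 K e n + x) := Hg_mono hK1 (Nat.le_add_right _ _)
      have h9 : Tg h₀ K (m8 K e n + x) = 2 * Hg h₀ K (m8 K e n + x) := T10.Tg_Hg (by have := hg.m0; omega)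
      have h10 : (Hg h₀ K (m8 K e n) : ℝ) ≤ Tg h₀ K (m8 K e n + x) := by exact_mod_cast (by omega : Hg h₀ K (m8 K e n) ≤ Tg h₀ K (m8 K e n + x))
      have h11 : (0 : ℝ) ≤ (n : ℝ) ^ e := by positivity
      linarith
    have h8' : (n : ℝ) ^ e ≤ (b.1 : ℝ) + Hg h₀ K (m8 K e n) := by
      have h9 : ⌈(n : ℝ) ^ e⌉₊ ≤ b.1 + Hg h₀ K (m8 K e n) := by omega
      exact (Nat.le_ceil _).trans (by exact_mod_cast h9)
    linarith

/-- **THE HYPOTHESES OF `vt31`** at the sites of `S8`. -/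
theorem ged90 {s c C : ℝ} {n₀ : ℕ} (hI : In μ s c C n₀) (hL : LB84 μ s) (hU : UB84 μ s) {e e₀ : ℝ} (he : 0 < e) (he1 : e ≤ 1 / 32)
    (he₀ : 0 < e₀) (hee : e₀ ≤ e) {K : ℕ} (hK : 2 ≤ K) (x : ℕ) (R C₀ : ℝ) (B : ℕ) {K₁ : ℝ} (hK₁ : 0 ≤ K₁) :
    ∃ e' κ₀ : ℝ, 0 < e' ∧ 0 < κ₀ ∧ ∀ (Q : ℕ) (c₂ δ κ : ℝ), 1 ≤ Q → c₂ ≤ 1 / 32 → 0 < δ → δ ≤ 1 → κ ≤ κ₀ → ∀ᶠ n : ℕ in atTop,
      ∀ G : Gd, GW μ s R B C₀ (h8 Q e₀ n) K (m8 K e n + x) G → ∀ Γ : Cx, Adm μ s c₂ δ κ n Γ →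
        GeC90 μ s c n (Tg (h8 Q e₀ n) K) (m8 K e n + x) Γ ∧ ∃ Bd : Set Env, law μ Bd ≤ ENNReal.ofReal ((n : ℝ) ^ (-(2 : ℝ))) ∧
          ∀ ω ∉ Bd, ∀ b ∈ S8 e K n G Γ, Real.exp (-((n : ℝ) ^ e')) ≤ Γ.w b ω →
            GeS90 μ s n (Tg (h8 Q e₀ n) K) (m8 K e n + x) K₁ Γ G b ω := by
  obtain ⟨ε, hε, HG⟩ := hgeo56 hI (e := 3 * e / 4) (p := 7) (q := 5 * e / 8) (K₁ := 2 * K₁) (C₀ := 2 * |C₀|) (by linarith) (by norm_num)
    (by linarith) (by linarith) (by positivity)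
  obtain ⟨n₁, HG⟩ := HG ε hε.le le_rfl
  obtain ⟨e', κ₀, he', hκ₀, HL⟩ := lat90 hI hL hU (ε := ε) (q := 5 * e / 8) hε (by linarith) (by linarith)
  refine ⟨e', κ₀, he', hκ₀, fun Q c₂ δ κ hQ hc₂ hδ hδ1 hκ => ?_⟩
  obtain ⟨nE, hnE⟩ := EE_low78 hI hL
  obtain ⟨B', hB', hlin⟩ := wd_lin56 hI
  obtain ⟨e₁, he₁, n₂, HE⟩ := model_E hI (show (0 : ℝ) < e₀ / 4 by linarith)
  have ev : ∀ {y : ℝ}, 0 < y → ∀ M : ℝ, ∀ᶠ n : ℕ in atTop, M ≤ (n : ℝ) ^ y := fun hy M =>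
    ((tendsto_rpow_atTop hy).comp tendsto_natCast_atTop_atTop).eventually_ge_atTop M
  have evl : ∀ᶠ n : ℕ in atTop, 5 * Real.log n ≤ (n : ℝ) ^ e₁ := by
    have h := (isLittleO_log_rpow_atTop he₁).bound (show (0 : ℝ) < 1 / 5 by norm_num)
    filter_upwards [tendsto_natCast_atTop_atTop.eventually h, eventually_ge_atTop 1] with n hn hn1
    have hn0 : (1 : ℝ) ≤ n := by exact_mod_cast hn1
    rw [Real.norm_of_nonneg (Real.log_nonneg hn0), Real.norm_of_nonneg (by positivity)] at hn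
    linarith
  obtain ⟨nB, hnB⟩ := exists_nat_ge (2 * B' * (K₁ + 1) + 4)
  filter_upwards [gridN8 (x := x) he he1 he₀ hee hK hQ, HL c₂ δ κ (by linarith) hδ hκ, wts90 hI.em, evl,
    ev (show (0 : ℝ) < e / 8 by linarith) (4 * Q * (K : ℝ) ^ x), ev (show (0 : ℝ) < e / 4 by linarith) 2,
    ev (show (0 : ℝ) < 29 / 32 by norm_num) 5, ev (show (0 : ℝ) < 1 / 32 by norm_num) (8 / c * B'),
    eventually_ge_atTop (max (max n₁ nE) (max n₂ nB))] with n hg8 hLn hW hlog ev1 ev2 ev3 ev4 hn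
  intro G hG Γ hA
  have b1 : n₁ ≤ n := ((le_max_left _ _).trans (le_max_left _ _)).trans hn
  have bE : nE ≤ n := ((le_max_right _ _).trans (le_max_left _ _)).trans hn
  have b2 : n₂ ≤ n := ((le_max_left _ _).trans (le_max_right _ _)).trans hn
  have bB : nB ≤ n := ((le_max_right _ _).trans (le_max_right _ _)).trans hn
  have hBn : 2 * B' * (K₁ + 1) + 4 ≤ n := hnB.trans (by exact_mod_cast bB)
  have hBK1 : 0 ≤ B' * K₁ := mul_nonneg (by linarith only [hB']) hK₁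
  have hBK : 0 ≤ 2 * B' * (K₁ + 1) := by linarith only [hBK1, hB']
  have hn4 : (4 : ℝ) ≤ n := by linarith
  have hn0 : (0 : ℝ) < n := by linarith
  have hn1' : (1 : ℝ) ≤ n := by linarith
  have hn1 : 1 ≤ n := by exact_mod_cast hn1'
  have hc0 := hI.c0
  -- the number of rows
  obtain ⟨N', L', hN', hN'n, -, hN'L, hN'M, hN'N, hh1, -⟩ := hA.hor
  have hNr : (Γ.N : ℝ) ≤ 4 * (n : ℝ) ^ (99 / 32 : ℝ) := by
    have k1 : 1 ≤ N' := hn1.trans hN'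
    have k2 : Γ.N ≤ 4 * N' ^ 3 := by
      have e1 : N' ≤ N' ^ 3 := Nat.le_self_pow (by norm_num) N'
      have e2 : 1 ≤ N' ^ 3 := Nat.one_le_pow _ _ k1
      omega
    have k3 : (N' : ℝ) ^ 3 ≤ (n : ℝ) ^ (99 / 32 : ℝ) := by
      calc (N' : ℝ) ^ 3 ≤ ((n : ℝ) ^ (33 / 32 : ℝ)) ^ 3 := by
            refine pow_le_pow_left₀ (Nat.cast_nonneg _) (hN'n.trans (Real.rpow_le_rpow_of_exponent_le hn1' (by linarith))) 3
        _ = (n : ℝ) ^ (99 / 32 : ℝ) := by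
            rw [← Real.rpow_natCast, ← Real.rpow_mul hn0.le]
            norm_num
    have k4 : (Γ.N : ℝ) ≤ 4 * (N' : ℝ) ^ 3 := by exact_mod_cast k2
    linarith
  have hk : (Γ.k : ℝ) + 1 ≤ (n : ℝ) ^ (99 / 32 : ℝ) := by
    have h1 : (n : ℝ) ^ δ ≤ n := by
      calc (n : ℝ) ^ δ ≤ (n : ℝ) ^ (1 : ℝ) := Real.rpow_le_rpow_of_exponent_le hn1' hδ1
        _ = n := Real.rpow_one _
    have h2 := hlin n hn1
    have h3 : (Γ.k : ℝ) ≤ n * (B' * n) := by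
      refine hA.k2.trans (mul_le_mul h1 h2 (hI.wd_nonneg n) hn0.le)
    have h4 : B' + 1 ≤ n := by linarith only [hBn, hBK1, hB']
    have h5 : (n : ℝ) * (B' * n) + 1 ≤ (n : ℝ) ^ 3 := by
      have e1 : (n : ℝ) ^ 3 = n * (n * n) := by ring
      have e2 := mul_le_mul_of_nonneg_left h4 (show 0 ≤ (n : ℝ) * n by positivity)
      have e3 : (1 : ℝ) ≤ (n : ℝ) * n := one_le_mul_of_one_le_of_one_le hn1' hn1'
      rw [e1]
      linarith only [e2, e3]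
    have h6 : (n : ℝ) ^ 3 ≤ (n : ℝ) ^ (99 / 32 : ℝ) := by
      rw [← Real.rpow_natCast]
      exact Real.rpow_le_rpow_of_exponent_le hn1' (by norm_num)
    linarith
  have hcard : (Γ.k : ℝ) + Γ.N + 1 ≤ (n : ℝ) ^ 4 := by
    have h1 : (n : ℝ) ^ 4 = (n : ℝ) ^ (29 / 32 : ℝ) * (n : ℝ) ^ (99 / 32 : ℝ) := by
      rw [← Real.rpow_add hn0, ← Real.rpow_natCast]
      norm_num
    have h2 := mul_le_mul_of_nonneg_right ev3 (show 0 ≤ (n : ℝ) ^ (99 / 32 : ℝ) by positivity)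
    rw [h1]
    linarith
  have hhi : (Γ.hi : ℝ) + 1 ≤ (n : ℝ) ^ 4 := by
    have h1 : (Γ.hi : ℝ) = Γ.k + Γ.N := by
      show ((Γ.k + Γ.N : ℤ) : ℝ) = _
      push_cast
      ring
    linarith
  have hhi0 : (0 : ℤ) ≤ Γ.hi := by
    show (0 : ℤ) ≤ (Γ.k : ℤ) + Γ.N
    positivity
  have hNn : Γ.N ≤ n ^ 4 := by
    have h1 : (0 : ℝ) ≤ Γ.k := Nat.cast_nonneg _
    have h2 : (Γ.N : ℝ) ≤ (n : ℝ) ^ 4 := by linarith
    exact_mod_cast h2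
  have hn48 : (n : ℝ) ^ 4 ≤ (n : ℝ) ^ 8 := pow_le_pow_right₀ hn1' (by norm_num)
  -- the force
  have hh : |Γ.h| * (n : ℝ) ^ (1 / 16 : ℝ) ≤ 1 := by
    have h1 : (n : ℝ) ^ (-(2 * δ)) ≤ 1 := Real.rpow_le_one_of_one_le_of_nonpos hn1' (by linarith)
    exact (mul_le_mul_of_nonneg_left (hnE n bE) (abs_nonneg _)).trans (hh1.trans h1)
  have hh' : |Γ.h| ≤ 1 := by
    have h1 : (1 : ℝ) ≤ (n : ℝ) ^ (1 / 16 : ℝ) := Real.one_le_rpow hn1' (by norm_num)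
    have h2 := mul_le_mul_of_nonneg_left h1 (abs_nonneg Γ.h)
    linarith only [h2, hh]
  -- the scales
  obtain ⟨T, hT⟩ : ∃ T : ℕ → ℕ, T = Tg (h8 Q e₀ n) K := ⟨_, rfl⟩
  obtain ⟨L, hLd⟩ : ∃ L : ℕ, L = m8 K e n + x := ⟨_, rfl⟩
  have hK1 : 1 ≤ K := by omega
  have hm0 := hg8.m0
  have hh0 : 1 ≤ h8 Q e₀ n := by
    have h1 : (1 : ℝ) ≤ h8 Q e₀ n := (Real.one_le_rpow hn1' (by linarith)).trans hg8.h1
    exact_mod_cast h1
  have hT1 : ∀ w, 1 ≤ w → h8 Q e₀ n ≤ T w := fun w hw => by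
    rw [hT, Tg_pos hw, mul_comm 2 (h8 Q e₀ n), mul_assoc]
    exact Nat.le_mul_of_pos_right _ (Nat.mul_pos two_pos (Nat.pow_pos (by omega)))
  have hTL : 4 * (T L : ℝ) ≤ (n : ℝ) ^ e := by
    rw [hT, hLd]
    exact hg8.TL
  have hTLw : ∀ w ≤ L, T w ≤ T L := fun w hw => by
    rw [hT]
    exact Tg_mono hK1 hw
  have hTLq : (T L : ℝ) ≤ (n : ℝ) ^ (5 * e / 8) := by
    have h1 : T L = 2 * h8 Q e₀ n * K ^ L := by
      rw [hT, Tg_pos (by omega)]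
    have h2 : (h8 Q e₀ n : ℝ) ≤ 2 * Q * (n : ℝ) ^ (e / 4) :=
      hg8.h2.trans (mul_le_mul_of_nonneg_left (Real.rpow_le_rpow_of_exponent_le hn1' (by linarith)) (by positivity))
    have h3 : (K : ℝ) ^ L = (K : ℝ) ^ m8 K e n * (K : ℝ) ^ x := by rw [hLd, pow_add]
    have h4 := mul_le_mul_of_nonneg_right hg8.mK (show (0 : ℝ) ≤ (K : ℝ) ^ x by positivity)
    have h5 : (n : ℝ) ^ (5 * e / 8) = (n : ℝ) ^ (e / 8) * ((n : ℝ) ^ (e / 4) * (n : ℝ) ^ (e / 4)) := by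
      rw [← Real.rpow_add hn0, ← Real.rpow_add hn0]
      congr 1
      ring
    rw [h1, h5]
    push_cast
    rw [h3]
    calc 2 * (h8 Q e₀ n : ℝ) * ((K : ℝ) ^ m8 K e n * (K : ℝ) ^ x)
        ≤ 2 * (2 * Q * (n : ℝ) ^ (e / 4)) * ((n : ℝ) ^ (e / 4) * (K : ℝ) ^ x) :=
          mul_le_mul (by linarith) h4 (by positivity) (by positivity)
      _ = 4 * Q * (K : ℝ) ^ x * ((n : ℝ) ^ (e / 4) * (n : ℝ) ^ (e / 4)) := by ring
      _ ≤ (n : ℝ) ^ (e / 8) * ((n : ℝ) ^ (e / 4) * (n : ℝ) ^ (e / 4)) := mul_le_mul_of_nonneg_right ev1 (by positivity)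
  have hwL : ∀ w, 1 ≤ w → w ≤ L → wd μ s (T w) ≤ 2 * wd μ s (T L) := fun w hw hwL =>
    Pool.Agent.W_7d29a1_HS.wd_le_two hI (hh0.trans (hT1 w hw)) (hTLw w hwL)
  have hwlin : ∀ w, 1 ≤ w → w ≤ L → wd μ s (2 * T w) ≤ B' * (n : ℝ) ^ e := fun w hw hwL => by
    have h1 := hlin (2 * T w) (by have := hT1 w hw; omega)
    have h2 : (T w : ℝ) ≤ T L := by exact_mod_cast hTLw w hwL
    have h3 : ((2 * T w : ℕ) : ℝ) ≤ (n : ℝ) ^ e := by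
      push_cast
      have h4 : (0 : ℝ) ≤ T L := Nat.cast_nonneg _
      linarith
    exact h1.trans (mul_le_mul_of_nonneg_left h3 (by linarith))
  rw [← hT, ← hLd]
  refine ⟨⟨hA.ok, fun k hk => ?_, fun k hk => ?_, hh', fun j => ?_, fun w hw hwL' => ?_, fun w hw hwL' => ?_, ?_⟩, ?_⟩
  · show (if k < Γ.M then Real.exp (Γ.s + Γ.h) else Real.exp Γ.s) = _
    rw [if_pos hk, hA.hs]
  · show (if k < Γ.M then Real.exp (Γ.s + Γ.h) else Real.exp Γ.s) = _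
    rw [if_neg (by omega), hA.hs]
  · show |Real.log (if j < Γ.M then Real.exp (Γ.s + Γ.h) else Real.exp Γ.s)| ≤ _
    rw [hA.hs]
    split_ifs
    · rw [Real.log_exp]
      exact (abs_add_le _ _).trans (by linarith)
    · rw [Real.log_exp]
      linarith
  · -- the number of rows and the unit
    have h1 : (n : ℝ) ^ (e₀ / 4) ≤ ((2 * T w : ℕ) : ℝ) := by
      refine hg8.h1.trans ?_
      have h2 := hT1 w hw
      exact_mod_cast (by omega : h8 Q e₀ n ≤ 2 * T w)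
    have h2 := HE n b2 (2 * T w) h1
    have h3 : (Γ.N : ℝ) + 1 ≤ (n : ℝ) ^ (5 : ℝ) := by
      have h4 : (Γ.N : ℝ) ≤ (n : ℝ) ^ 4 := by exact_mod_cast hNn
      have h5 : (n : ℝ) ^ (5 : ℝ) = n * (n : ℝ) ^ 4 := by
        rw [show (5 : ℝ) = ((5 : ℕ) : ℝ) by norm_num, Real.rpow_natCast]
        ring
      have h6 : (1 : ℝ) ≤ (n : ℝ) ^ 4 := one_le_pow₀ hn1'
      have h7 := mul_le_mul_of_nonneg_right (show (2 : ℝ) ≤ n by linarith only [hn4]) (show (0 : ℝ) ≤ (n : ℝ) ^ 4 by positivity)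
      rw [h5]
      linarith only [h4, h6, h7]
    refine h3.trans ?_
    rw [Real.rpow_def_of_pos hn0]
    exact Real.exp_le_exp.2 (by linarith)
  · -- the force
    have h1 := hwlin w hw hwL'
    have h2 := mul_le_mul_of_nonneg_left h1 (abs_nonneg Γ.h)
    have h3 : (n : ℝ) ^ e ≤ (n : ℝ) ^ (1 / 32 : ℝ) := Real.rpow_le_rpow_of_exponent_le hn1' he1
    have h4 : |Γ.h| * (B' * (n : ℝ) ^ e) ≤ c / 8 := by
      have e1 : (n : ℝ) ^ (1 / 16 : ℝ) = (n : ℝ) ^ (1 / 32 : ℝ) * (n : ℝ) ^ (1 / 32 : ℝ) := by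
        rw [← Real.rpow_add hn0]
        norm_num
      have hn32 : 0 < (n : ℝ) ^ (1 / 32 : ℝ) := Real.rpow_pos_of_pos hn0 _
      have e2 : |Γ.h| * (n : ℝ) ^ (1 / 32 : ℝ) * (n : ℝ) ^ (1 / 32 : ℝ) ≤ 1 := by
        rw [mul_assoc, ← e1]
        exact hh
      have e3 : 8 / c * B' * (|Γ.h| * (n : ℝ) ^ (1 / 32 : ℝ)) ≤ 1 := by
        refine le_trans (mul_le_mul_of_nonneg_right ev4 (by positivity)) ?_
        linarith [e2, mul_comm ((n : ℝ) ^ (1 / 32 : ℝ)) (|Γ.h| * (n : ℝ) ^ (1 / 32 : ℝ))]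
      have e4 : |Γ.h| * (B' * (n : ℝ) ^ e) ≤ B' * (|Γ.h| * (n : ℝ) ^ (1 / 32 : ℝ)) := by
        have e5 := mul_le_mul_of_nonneg_left h3 (mul_nonneg (abs_nonneg Γ.h) (show 0 ≤ B' by linarith only [hB']))
        linarith
      have e6 : 8 / c * B' * (|Γ.h| * (n : ℝ) ^ (1 / 32 : ℝ)) = 8 / c * (B' * (|Γ.h| * (n : ℝ) ^ (1 / 32 : ℝ))) := by ring
      rw [e6] at e3
      have e7 : B' * (|Γ.h| * (n : ℝ) ^ (1 / 32 : ℝ)) = c / 8 * (8 / c * (B' * (|Γ.h| * (n : ℝ) ^ (1 / 32 : ℝ)))) := by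
        field_simp
      rw [e7] at e4
      have e8 := mul_le_mul_of_nonneg_left e3 (show 0 ≤ c / 8 by positivity)
      linarith
    have h5 := one_le_EE (μ := μ) (s := s) (2 * T w)
    have h6 := mul_le_mul_of_nonneg_left h5 (show 0 ≤ c / 8 by positivity)
    linarith
  · rw [Int.card_Icc]
    have h1 : (((Γ.hi + 1 - 0).toNat : ℕ) : ℝ) = (Γ.hi : ℝ) + 1 := by
      have h2 : (((Γ.hi + 1 - 0).toNat : ℕ) : ℤ) = Γ.hi + 1 := by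
        rw [Int.toNat_of_nonneg (by omega)]
        ring
      exact_mod_cast h2
    rw [h1]
    exact hhi
  -- the sites
  obtain ⟨N, Tc, Bd, hNc, hTc, hBd, HB⟩ := hLn Γ hA
  refine ⟨Bd ∪ {ω : Env | ∃ j ≤ n ^ 8, ∃ z : ℤ, |z| ≤ (n : ℤ) ^ 8 ∧ Real.log n < |ω ((j : ℤ), z)|}, ?_, fun ω hω b hb hw => ?_⟩
  · refine (measure_union_le _ _).trans ((add_le_add hBd hW).trans ?_)
    rw [← ENNReal.ofReal_add (by positivity) (by positivity)]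
    refine ENNReal.ofReal_le_ofReal ?_
    have h1 : (n : ℝ) ^ (-(4 : ℝ)) ≤ (n : ℝ) ^ (-(3 : ℝ)) := Real.rpow_le_rpow_of_exponent_le hn1' (by norm_num)
    have h2 : (n : ℝ) ^ (-(2 : ℝ)) = n * (n : ℝ) ^ (-(3 : ℝ)) := by
      nth_rewrite 2 [← Real.rpow_one (n : ℝ)]
      rw [← Real.rpow_add hn0]
      norm_num
    have h3 : 0 ≤ (n : ℝ) ^ (-(3 : ℝ)) := by positivity
    have h4 := mul_le_mul_of_nonneg_right (show (2 : ℝ) ≤ n by linarith only [hn4]) h3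
    rw [h2]
    linarith only [h1, h4]
  rw [Set.mem_union, not_or] at hω
  have hwt : ∀ (j : ℕ) (z : ℤ), j ≤ n ^ 8 → |z| ≤ (n : ℤ) ^ 8 → |ω ((j : ℤ), z)| ≤ Real.log n := by
    intro j z hj hz
    by_contra hcon
    exact hω.2 ⟨j, hj, z, hz, not_le.1 hcon⟩
  have hrows := rows90 hg8 hK hn1 hG.H hb
  rw [← hT, ← hLd] at hrows
  obtain ⟨hlo, hup, hb1⟩ := hrows
  have hbN : b.1 < Γ.N := (Num90.row90 hb).2
  have hb2 : 1 ≤ b.2 ∧ b.2 ≤ b.1 + 1 := by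
    by_contra hcon
    have h1 : b.2 ≤ 0 ∨ (b.1 : ℤ) + 1 < b.2 := by
      by_contra h2
      push Not at h2
      exact hcon ⟨by omega, h2.2⟩
    have h2 := T98.w_zero98 Γ h1 ω
    rw [h2] at hw
    exact absurd hw (not_le.2 (Real.exp_pos _))
  have hbr : b ∈ Γ.rows 0 Γ.N := by
    unfold Cx.rows
    rw [Finset.mem_product, Finset.mem_Ico, Finset.mem_Icc]
    have h3 : (b.1 : ℤ) < Γ.N := by exact_mod_cast hbN
    exact ⟨⟨Nat.zero_le _, hbN⟩, hb2.1, by omega⟩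
  have hbe : (n : ℝ) ^ (3 * e / 4) ≤ b.1 := by
    refine le_trans ?_ hb1
    have e1 : (n : ℝ) ^ e = (n : ℝ) ^ (e / 4) * (n : ℝ) ^ (3 * e / 4) := by
      rw [← Real.rpow_add hn0]
      congr 1
      ring
    have e2 := mul_le_mul_of_nonneg_right ev2 (show 0 ≤ (n : ℝ) ^ (3 * e / 4) by positivity)
    rw [e1]
    linarith
  have hbq : (n : ℝ) ^ (5 * e / 8) ≤ b.1 := (Real.rpow_le_rpow_of_exponent_le hn1' (by linarith)).trans hbe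
  obtain ⟨-, -, hlat⟩ := HB ω hω.1 b hbr hbq hw
  have hC₀ : C₀ ≤ |C₀| := le_abs_self _
  refine ⟨hlo, hup, fun j z hj hz => ?_, fun r Mt z hr hMt1 hMtL hz => ?_, fun ν t Mt W hνT ht htL hMt1 hMtL hW0 hWM => ?_⟩
  · have h1 := mem_Icc.1 hz
    refine hwt j z (hj.trans (hNn.trans (Nat.pow_le_pow_right hn1 (by norm_num)))) ?_
    rw [abs_of_nonneg h1.1]
    have h2 : (z : ℝ) ≤ (n : ℝ) ^ 8 := by
      have h3 : (z : ℝ) ≤ Γ.hi := by exact_mod_cast h1.2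
      linarith
    exact_mod_cast h2
  · refine hwt r z (hr.trans (hNn.trans (Nat.pow_le_pow_right hn1 (by norm_num)))) ?_
    have e1 : lat16 μ s (pt b) ((r : ℤ), z) = (z : ℝ) - b.2 - sl μ s * ((r : ℝ) - b.1) := by
      unfold lat16
      have e2 : (pt b).1 = (b.1 : ℤ) := rfl
      have e3 : (pt b).2 = b.2 := rfl
      rw [e2, e3]
      push_cast
      ring
    rw [e1] at hz
    have h1 : wd μ s (T Mt) ≤ 2 * (B' * n) := by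
      refine (hwL Mt hMt1 hMtL).trans ?_
      have h2 := hlin (T L) (hh0.trans (hT1 L (by omega)))
      have h3 : (T L : ℝ) ≤ n := by
        refine hTLq.trans ?_
        calc (n : ℝ) ^ (5 * e / 8) ≤ (n : ℝ) ^ (1 : ℝ) := Real.rpow_le_rpow_of_exponent_le hn1' (by linarith)
          _ = n := Real.rpow_one _
      have h4 := mul_le_mul_of_nonneg_left h3 (show 0 ≤ B' by linarith)
      linarith
    have h2 : K₁ * wd μ s (T Mt) ≤ (n : ℝ) ^ 2 := by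
      have h3 := mul_le_mul_of_nonneg_left h1 hK₁
      have h4 : 2 * B' * K₁ ≤ n := by linarith only [hBn, hB']
      have h5 := mul_le_mul_of_nonneg_right h4 hn0.le
      have e4 : (n : ℝ) ^ 2 = n * n := by ring
      rw [e4]
      linarith
    have hs0 := hI.sl_pos
    have hs1 := hI.sl_lt
    have hrR : (r : ℝ) ≤ (n : ℝ) ^ 4 := by exact_mod_cast hr.trans hNn
    have hr0 : (0 : ℝ) ≤ r := Nat.cast_nonneg _
    have hbR : (b.1 : ℝ) ≤ (n : ℝ) ^ 4 := by exact_mod_cast hbN.le.trans hNn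
    have hb0 : (0 : ℝ) ≤ b.1 := Nat.cast_nonneg _
    have hb21 : (1 : ℝ) ≤ b.2 := by exact_mod_cast hb2.1
    have hb22 : (b.2 : ℝ) ≤ b.1 + 1 := by exact_mod_cast hb2.2
    have p1 := mul_nonneg hs0.le hr0
    have p2 := mul_nonneg hs0.le hb0
    have p3 : sl μ s * (r : ℝ) ≤ r := mul_le_of_le_one_left hr0 hs1.le
    have p4 : sl μ s * (b.1 : ℝ) ≤ b.1 := mul_le_of_le_one_left hb0 hs1.le
    have hz' := abs_le.1 hz
    have q1 : (n : ℝ) ^ 2 ≤ (n : ℝ) ^ 4 := pow_le_pow_right₀ hn1' (by norm_num)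
    have q2 : (1 : ℝ) ≤ (n : ℝ) ^ 4 := one_le_pow₀ hn1'
    have q3 : 4 * (n : ℝ) ^ 4 ≤ (n : ℝ) ^ 8 := by
      have e4 : (n : ℝ) ^ 8 = (n : ℝ) ^ 4 * (n : ℝ) ^ 4 := by ring
      have e5 : (4 : ℝ) ≤ (n : ℝ) ^ 4 := hn4.trans (le_self_pow₀ hn1' (by norm_num))
      rw [e4]
      exact mul_le_mul_of_nonneg_right e5 (by positivity)
    have e5 : sl μ s * ((r : ℝ) - b.1) = sl μ s * r - sl μ s * b.1 := by ring
    rw [e5] at hz'
    have hz1 : (z : ℝ) ≤ (n : ℝ) ^ 8 := by linarith [hz'.2]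
    have hz2 : -((n : ℝ) ^ 8) ≤ z := by linarith [hz'.1]
    rw [abs_le]
    exact ⟨by exact_mod_cast hz2, by exact_mod_cast hz1⟩
  · have hH : G.H (t + ν.m₂) = Hg (h8 Q e₀ n) K (t + ν.m₂) := hG.H _
    have hHp : 0 < Hg (h8 Q e₀ n) K (t + ν.m₂) := Nat.mul_pos (by omega) (Nat.pow_pos (by omega))
    have hTH : Tg (h8 Q e₀ n) K (t + ν.m₂) = 2 * Hg (h8 Q e₀ n) K (t + ν.m₂) := T10.Tg_Hg (by omega)
    have hT2 := hTLw _ htL
    have hT3 : Tg (h8 Q e₀ n) K (t + ν.m₂) ≤ T L := by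
      rw [← hT]
      exact hT2
    have hlat2 := Ge74.lat_x hG ht (by omega) b
    have hwB := hG.wB t ht
    rw [← hT] at hlat2 hwB
    have hwt' := hwL t ht (by omega)
    have e1 : lat16 μ s (pt b) (G.x t b) = (((G.z t b).2 : ℝ) - b.2) - sl μ s * (((G.z t b).1 : ℝ) - b.1) := by
      unfold lat16
      show (((G.z t b).2 - b.2 : ℤ) : ℝ) - sl μ s * ((((G.z t b).1 : ℤ) - (b.1 : ℤ) : ℤ) : ℝ) = _
      push_cast
      ring
    rw [e1] at hlat2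
    have hwT0 : 0 ≤ wd μ s (T L) := hI.wd_nonneg _
    have hwt0 : 0 ≤ wd μ s (T t) := hI.wd_nonneg _
    have hz : |(((G.z t b).2 : ℝ) - b.2) - sl μ s * (((G.z t b).1 : ℝ) - b.1)| ≤ 2 * |C₀| * wd μ s (T L) := by
      refine hlat2.trans (hwB.trans ?_)
      calc C₀ * wd μ s (T t) ≤ |C₀| * wd μ s (T t) := mul_le_mul_of_nonneg_right hC₀ hwt0
        _ ≤ |C₀| * (2 * wd μ s (T L)) := mul_le_mul_of_nonneg_left hwt' (abs_nonneg _)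
        _ = 2 * |C₀| * wd μ s (T L) := by ring
    have hWL : W ≤ 2 * K₁ * wd μ s (T L) := by
      refine hWM.trans ?_
      have h1 := mul_le_mul_of_nonneg_left (hwL Mt hMt1 hMtL) hK₁
      linarith
    have hrow : ν.row G t b + ν.nr t < Γ.N := by
      have h1 := hlo _ htL
      have h2 := hup _ htL
      unfold NV31.row NV31.nr
      rw [hνT]
      omega
    have key := HG n N Tc (T L) b1 hNc hTc (hh0.trans (hT1 L (by omega))) hTLq (Γ := Γ) (ν := ν) (G := G) (t := t) (c := b) (W := W)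
      (by rw [hH]; exact hHp) (by rw [hH]; omega) (by rw [hνT]; exact hT2) hbe hlat hz hW0 hWL hrow
    exact ⟨key.2.2.1, key.2.2.2, key.1, key.2.1⟩

end

end Pool.Agent.W_7d29a1_C1.Gd90
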