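import Pool.Agent.W_7d29a1_C1.VT31
import Pool.Agent.W_7d29a1_C1.GeD90

/-!
MP_7d29a1_pr, attractor route [C1], SHELL: THE DETERMINISM AT ONE CONTACT (helper31). `dt31` : for a context with `GeC90`, a contact with
`GeS90`, the facts of the ball and of the good scales (the premises of `DtE51`), numbers `Nu31` and the single weights `RowG`, the
environment is in `V8` at the base of the box of level `t`.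
-/

set_option autoImplicit false

namespace Pool.Agent.W_7d29a1_C1.D31

open MeasureTheory ProbabilityTheory Filter Topology Finset
open Pool.Agent.W_7d29a1_F Pool.Agent.W_7d29a1_h4g Pool.Agent.W_7d29a1_H Pool.Agent.W_7d29a1_HS
open Pool.Agent.W_7d29a1_C1.FarK89 Pool.Agent.W_7d29a1_C1.FarW89 Pool.Agent.W_7d29a1_C1.S71 Pool.Agent.W_7d29a1_C1.Sw9
open Pool.Agent.W_7d29a1_C1.H75 Pool.Agent.W_7d29a1_C1.U16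
open Pool.Agent.W_7d29a1_C1.T10 (Gd GW pt Tg Hg Tg_zero Tg_pos Tg_Hg Tg_mono)
open Pool.Agent.W_7d29a1_C1.H60 (Cx sT Rch lvL LvE EL60)
open Pool.Agent.W_7d29a1_C1.G37 (Gm)
open Pool.Agent.W_7d29a1_C1.SD53 (XX)
open Pool.Agent.W_7d29a1_C1.H49 (em ex ex_mono)
open Pool.Agent.W_7d29a1_C1.S83 (RowG)
open Pool.Agent.W_7d29a1_C1.Gd90
open Pool.Agent.W_7d29a1_C1.H8 (V8)
open scoped ENNReal

noncomputable section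

variable {μ : Measure ℝ} {s : ℝ} [IsProbabilityMeasure μ] {c C : ℝ} {n₀ : ℕ}

/-- **THE DETERMINISM AT ONE CONTACT.** -/
theorem dt31 (h0 : In μ s c C n₀) (P : ℕ) {Kg : ℕ} (hKg : 2 ≤ Kg) {Kw θ : ℝ} (hKw : 6 ≤ Kw) (hθ : 0 < θ) (hθ8 : θ ≤ 1 / 8) :
    ∃ Rg C₅ C₆ D₅ D₆ : ℝ, 1 < Rg ∧ 0 < C₅ ∧ 0 < C₆ ∧ 0 < D₅ ∧ 0 < D₆ ∧ ∃ n₁ : ℕ, 1 ≤ n₁ ∧ ∀ q₀ Λ : ℝ, 0 ≤ q₀ → 0 ≤ Λ → ∃ Q : ℝ, 0 < Q ∧
    ∀ {Γ : Cx} {ω : Env} {G : Gd} {GS : Gm} {Rb C₀ : ℝ} {n B h₀ L t τ kk : ℕ} {y : ℕ → ℝ} {x : XX Γ} {ν : NV31} {d : ND31} {u κ' : ℝ},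
    GeC90 μ s c n (Tg h₀ Kg) L Γ → GeS90 μ s n (Tg h₀ Kg) L d.K₁ Γ G x.1 ω → GW μ s Rb B C₀ h₀ Kg L G →
    (∀ u, 1 ≤ u → GS.T u = Tg h₀ Kg u) → GS.v = sl μ s → C₀ * C₀ ≤ Λ → n₁ ≤ h₀ → Monotone y → (∀ l, 0 ≤ y l) →
    (∀ l, y l ≤ q₀ * Rg ^ l) →
    -- ranges
    d.u + d.lm ≤ L → 1 ≤ d.Mt → d.Mt ≤ L → 2 ≤ d.o → d.o ≤ d.u + d.lm → τ ≤ d.o → kk + 1 ≤ d.o →
    Real.log n ≤ d.Lη → |s| + 1 ≤ d.Bp → (Γ.hi : ℝ) ≤ d.R → d.sg = ν.c₃ - ν.c₁ →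
    -- the ball and the good scales
    TM31 μ s Γ G (Tg h₀ Kg) d.Mt d.K₁ d.A d.Φ d.σ₁ d.o x.1 ω →
    ω ∉ Rch (lvL G (LvE L (EL60 μ s c θ Kw P (Tg h₀ Kg) y)) L) (d.o - 2) x.1 →
    ω ∉ Rch (lvL G (LvE L (EL60 μ s c θ Kw P (Tg h₀ Kg) y)) L) (d.o - 1) x.1 →
    em (SD53.row Γ) (SD53.w Γ) (GS.dk kk τ) x ω < ex (-κ') → d.κ₀ ≤ κ' →
    (∀ l, d.l₁ ≤ l → l ≤ d.lm → ∃ v, d.o + 1 ≤ v ∧ d.u + d.al l ≤ v ∧ v + 2 ≤ d.u + l ∧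
      GdS31 μ s c θ Kw P Γ GS G h₀ Kg L L y d.Mt d.K₁ d.A d.Φ d.σ₁ τ v (v + d.m0) (d.κv v) x ω) →
    Nu31 μ s c P Q Kw C₅ C₆ D₅ D₆ GS B h₀ Kg Γ ν t d →
    ω ∈ RowG (ν.row G t (G.z t x.1)) ⌊ν.cn G t (G.z t x.1) (sl μ s)⌋ (ν.w t) (u * ν.E t) →
    ω ∈ V8 μ s Γ ν u G t (G.z t x.1) := by
  obtain ⟨Rg, C₅, C₆, D₅, D₆, hRg, hC₅, hC₆, hD₅, hD₆, n₁, hn₁, H⟩ := vt31 h0 P hKg hKw hθ hθ8
  refine ⟨Rg, C₅, C₆, D₅, D₆, hRg, hC₅, hC₆, hD₅, hD₆, n₁, hn₁, fun q₀ Λ hq₀ hΛ => ?_⟩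
  obtain ⟨Q, hQ, HQ⟩ := H q₀ Λ hq₀ hΛ
  refine ⟨Q, hQ, ?_⟩
  intro Γ ω G GS Rb C₀ n B h₀ L t τ kk y x ν d u κ' gC gS g hT hv hΛC hh hym hy0 hyR huL hM1 hML ho2 hou hτ hkk hLη hBp hR hsg htm hr2
    hr1 hem hκ' hsh N hrow
  have hoL : d.o ≤ L := hou.trans huL
  have hzo := gS.rhi d.o hoL
  have hzo' := gS.rlo d.o hoL
  have eRow : ν.row G t x.1 = (G.z d.o x.1).1 - Tg h₀ Kg d.o := by
    unfold NV31.row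
    rw [N.ts, N.tO]
  have eNr : ν.nr t = 2 * Tg h₀ Kg d.o := by
    unfold NV31.nr
    rw [N.ts, N.tO]
  have hWL : d.Wd d.L ≤ d.K₁ * wd μ s (Tg h₀ Kg d.Mt) := by
    have h1 := N.h2L
    have h2 := N.lrT (d.L - 1) (by omega)
    rw [show d.L - 1 + 1 = d.L by omega] at h2
    have h3 : 0 ≤ d.D₀ := by
      refine le_trans ?_ N.D0
      exact h0.wd_nonneg _
    have h4 : (0 : ℝ) ≤ (Tg h₀ Kg d.o : ℝ) := Nat.cast_nonneg _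
    linarith
  obtain ⟨b1, b2, b3, b4⟩ := gS.box ν t d.Mt (d.Wd d.L) N.ts N.t1 (by rw [N.tO]; exact hoL) hM1 hML (N.Wp _) hWL
  have key := HQ (Γ := Γ) (ω := ω) (G := G) (GS := GS) (Rb := Rb) (C₀ := C₀) (B := B) (h₀ := h₀) (Lg := L) (Lm := L) (t := t)
    (τ := τ) (kk := kk) (y := y) (x := x) (ν := ν) (d := d) gC.ok gC.p1 gC.p2 g hT hv hΛC hh hym hy0 hyR
    huL huL ho2 hou hτ (fun w hw => gS.rlo w (hw.trans huL)) (fun w hw => gS.rhi w (hw.trans huL))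
    (fun w hw hw' => gC.NE w (by omega) (hw'.trans huL)) (fun w hw hw' => gC.fo w hw (hw'.trans huL))
    (fun j z h1 h2 h3 => by
      refine (gS.w1 j z ?_ h3).trans hLη
      rw [eRow, eNr] at h2
      omega)
    (fun z h1 => (gS.w2 _ d.Mt z (by rw [eRow]; omega) hM1 hML h1).trans hLη)
    (le_trans (by positivity) hBp) (fun j => (gC.pB j).trans hBp) (fun z hz => (b1 z hz).trans hR) (fun z hz => (b2 z hz).trans hR) b3 b4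
    htm hr2 hr1 hkk (hem.trans_le (ex_mono (by linarith))) hsh N
  have htL : t + ν.m₂ ≤ L := by rw [N.tO]; exact hoL
  have hzz : G.z t (G.z t x.1) = G.z t x.1 := g.ok.z_z le_rfl (by omega) x.1
  have e1 : V31 μ s Γ ν G t (G.z t x.1) = V31 μ s Γ ν G t x.1 := eV31 g.ok htL hzz
  have e2 : LP95 μ s Γ ν (ν.c₃ - ν.c₁) G t (G.z t x.1) = LP95 μ s Γ ν (ν.c₃ - ν.c₁) G t x.1 := eLP95 g.ok htL hzz
  have e3 : G.z (t + ν.m₂) (G.z t x.1) = G.z (t + ν.m₂) x.1 := g.ok.z_nested (Nat.le_add_right t ν.m₂) htL hzz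
  have k2 : ω ∈ LP95 μ s Γ ν d.sg G t x.1 := key.2
  rw [hsg] at k2
  refine ⟨⟨?_, ?_, hrow⟩, ?_⟩
  · show ν.Ts (t + ν.m₂) ≤ (G.z (t + ν.m₂) (G.z t x.1)).1
    rw [e3, N.ts, N.tO]
    exact hzo'
  · rw [e1]
    exact key.1
  · rw [e2]
    exact k2

end

end Pool.Agent.W_7d29a1_C1.D31
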