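import Pool.Agent.W_7d29a1_C1.Gd27

/-!
MP_7d29a1_pr, attractor route [C1], field `nu`: THE EVENTUAL LINES OF `TdQ51` (helper27).

`ev_m8`: the number of scales is large. `cnt27`: the field `cnt` of `Td51` for `Un27`, from the outputs of `TmQ51` (at `δ / 12`) and of the
count of the reached scales (at `δ / 16`). `rg27`: the ranges of `t`, `u = t + (m₁ - 1)`, `o = u + m0 + 1 = t + (m0 + m₁)`, `lm = M / 16`.

Order of the constants: `δ`, `e`, `K`, `k`, `m₁`, `Z` | eventually in `n` | everything else.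
-/

set_option autoImplicit false

namespace Pool.Agent.W_7d29a1_C1.Ev27

open MeasureTheory Finset Filter Topology
open Pool.Agent.W_7d29a1_F Pool.Agent.W_7d29a1_h4g Pool.Agent.W_7d29a1_H Pool.Agent.W_7d29a1_HS
open Pool.Agent.W_7d29a1_C1.T10 (Gd Tg GW)
open Pool.Agent.W_7d29a1_C1.H60
open Pool.Agent.W_7d29a1_C1.G37 (Gm Wok)
open Pool.Agent.W_7d29a1_C1.H8
open Pool.Agent.W_7d29a1_C1.D31 (TM31)
open Pool.Agent.W_7d29a1_C1.NS94 (NS)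
open Pool.Agent.W_7d29a1_C1.Nu51
open Pool.Agent.W_7d29a1_C1.Gd27
open scoped ENNReal

noncomputable section

/-- The number of scales is large. -/
theorem ev_m8 {e : ℝ} (he : 0 < e) {K : ℕ} (hK : 2 ≤ K) (D : ℕ) : ∀ᶠ n : ℕ in atTop, D ≤ m8 K e n := by
  have hlK : 0 < Real.log K := Real.log_pos (by exact_mod_cast (by omega : 1 < K))
  filter_upwards [frac8 he hK (le_refl 1), (Real.tendsto_log_atTop.comp tendsto_natCast_atTop_atTop).eventually_ge_atTop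
    (D * (16 * Real.log K) / e)] with n h1 h2
  rw [Nat.div_one] at h1
  have h3 : (D : ℝ) * (16 * Real.log K) / e ≤ Real.log n := h2
  have h4 : (D : ℝ) ≤ m8 K e n := by
    refine le_trans ?_ h1
    rw [div_le_iff₀ he] at h3
    rw [Nat.cast_one, mul_one, div_mul_eq_mul_div, le_div_iff₀ (by positivity)]
    linarith
  exact_mod_cast h4

/-- **THE FIELD `cnt`.** -/
theorem cnt27 (k : SC51) {δ e : ℝ} (hδ : 0 < δ) (he : 0 < e) {K : ℕ} (hK : 2 ≤ K) : ∀ᶠ n : ℕ in atTop,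
    ∀ {μ : Measure ℝ} {s c θ Kw : ℝ} {P h₀ Lg Lm : ℕ} {y : ℕ → ℝ} {Mt : ℕ} {A Φ σ : ℝ} {G : Gd} {Γ : Cx} {hW : Wok μ s (2 * h₀) k.K}
      {b : ℕ × ℤ} {ω : Env},
      (∀ F : Finset ℕ, F ⊆ range (m8 K e n + 1) → (∀ u ∈ F, ¬ (TM31 μ s Γ G (Tg h₀ k.K) Mt 2 A Φ σ u b ω ∧
        ω ∈ NS Γ (k.G hW (m8 K e n)) (k.th μ s (2 * h₀)) k.m0 k.τ₀ u b)) → (F.card : ℝ) ≤ δ / 12 * m8 K e n) →
      (∀ F : Finset ℕ, F ⊆ range (m8 K e n + 1) →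
        (∀ u ∈ F, ω ∈ Rch (lvL G (LvE Lm (EL60 μ s c θ Kw P (Tg h₀ k.K) y)) Lg) (u - 2) b) → (F.card : ℝ) ≤ δ / 16 * m8 K e n) →
      ∀ F : Finset ℕ, F ⊆ range (m8 K e n + 1) →
        (∀ u ∈ F, ω ∈ Un27 μ s c θ Kw P Γ (k.G hW (m8 K e n)) (k.th μ s (2 * h₀)) k.m0 k.τ₀ G h₀ k.K Lg Lm y Mt 2 A Φ σ u b) →
        (F.card : ℝ) ≤ δ * m8 K e n := by
  obtain ⟨D, hD⟩ := exists_nat_ge ((3 * k.m0 + 8 : ℝ) * 2 / δ)
  filter_upwards [ev_m8 he hK D] with n hn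
  intro μ s c θ Kw P h₀ Lg Lm y Mt A Φ σ G Γ hW b ω h1 h2 F hF hU
  have h3 := cn27 (M := m8 K e n) (GS := k.G hW (m8 K e n)) (th := k.th μ s (2 * h₀)) (m0 := k.m0) (τ₀ := k.τ₀) (Kg := k.K) (c' := b) (K₁ := 2)
    k.hm h1 h2 F hF hU
  have h4 : (D : ℝ) ≤ m8 K e n := by exact_mod_cast hn
  have h5 : (3 * k.m0 + 8 : ℝ) * 2 ≤ δ * m8 K e n := by
    rw [div_le_iff₀ hδ] at hD
    have := mul_le_mul_of_nonneg_right h4 hδ.le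
    linarith
  linarith

/-- The ranges. -/
structure Rg27 (M m0 m₁ t u o lm : ℕ) : Prop where
  eo : o = t + (m0 + m₁)
  eu : u + m0 + 1 = o
  lm2 : 2 * lm ≤ M
  uM2 : u + lm + m0 ≤ M + 2
  uM : u + m0 ≤ M
  u1 : 1 ≤ u
  o2 : 2 ≤ o
  ou : o + 1 ≤ u + lm
  oM : o ≤ M
  uL : u + lm ≤ M + (m0 + m₁)
  oL : o + lm + 2 ≤ M / 2

/-- **THE RANGES, EVENTUALLY**: `t < M / Z`, `4 ≤ Z`, `u = t + (m₁ - 1)`, `o = u + m0 + 1`, `lm = M / 16`. -/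
theorem rg27 {e : ℝ} (he : 0 < e) {K : ℕ} (hK : 2 ≤ K) (m0 : ℕ) {m₁ Z : ℕ} (hm₁ : 1 ≤ m₁) (hZ : 4 ≤ Z) (D : ℕ) :
    ∀ᶠ n : ℕ in atTop, D ≤ m8 K e n ∧ D ≤ m8 K e n / 16 ∧ 2 * (m8 K e n / 16) ≤ m8 K e n ∧ ∀ t, 2 ≤ t → t < m8 K e n / Z →
      Rg27 (m8 K e n) m0 m₁ t (t + (m₁ - 1)) (t + (m₁ - 1) + m0 + 1) (m8 K e n / 16) := by
  filter_upwards [ev_m8 he hK (16 * D + 64 * (m0 + m₁) + 64)] with n hn
  obtain ⟨M, hM⟩ : ∃ M, M = m8 K e n := ⟨_, rfl⟩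
  rw [← hM] at hn ⊢
  refine ⟨by omega, by omega, by omega, fun t ht htZ => ?_⟩
  have h1 : M / Z ≤ M / 4 := Nat.div_le_div_left hZ (by norm_num)
  refine ⟨?_, ?_, ?_, ?_, ?_, ?_, ?_, ?_, ?_, ?_, ?_⟩ <;> omega

end

end Pool.Agent.W_7d29a1_C1.Ev27
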