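import Pool.Agent.W_7d29a1_C1.GeoI10
import Pool.Agent.W_7d29a1_C1.AsmM8

/-!
MP_7d29a1_pr, attractor route (helper8): THE COMMON DATA OF THE SCALE `n`. `gridN8` : the base height `h₀` (a multiple of a given period, of
order `n ^ (e₀ / 4)`), the number of scales `m` (`K ^ m ≤ n ^ (e / 4)`), `L = m + x` levels. `Vn8` : the width of the boxes. `sdok8` : `SdOk8`
for a grid of helper10.
-/

set_option autoImplicit false

namespace Pool.Agent.W_7d29a1_C1.H8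

open MeasureTheory Filter Topology
open Pool.Agent.W_7d29a1_F Pool.Agent.W_7d29a1_h4g Pool.Agent.W_7d29a1_H Pool.Agent.W_7d29a1_HS
open Pool.Agent.W_7d29a1_C1.T10 (Gd pt Tg Hg Tg_pos Tg_mono Hg_mono)
open Pool.Agent.W_7d29a1_C1.S71 Pool.Agent.W_7d29a1_C1.Sw9
open Pool.Agent.W_7d29a1_C1.H60 (AT LvE Rd_LvE measurable_LvE)

noncomputable section

/-- The base height at the scale `n`. -/
def h8 (Q : ℕ) (e : ℝ) (n : ℕ) : ℕ := Q * ⌈(n : ℝ) ^ (e / 4)⌉₊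

/-- The number of scales at the scale `n`. -/
def m8 (K : ℕ) (e : ℝ) (n : ℕ) : ℕ := ⌊e / 4 * (Real.log n / Real.log K)⌋₊

/-- The numbers of the grid. -/
structure GridN8 (e e₀ : ℝ) (K Q x n : ℕ) : Prop where
  /-- the base height -/
  h1 : (n : ℝ) ^ (e₀ / 4) ≤ h8 Q e₀ n
  h2 : (h8 Q e₀ n : ℝ) ≤ 2 * Q * (n : ℝ) ^ (e₀ / 4)
  /-- the number of scales -/
  m1 : e / (8 * Real.log K) * Real.log n ≤ m8 K e n
  mK : (K : ℝ) ^ m8 K e n ≤ (n : ℝ) ^ (e / 4)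
  m0 : 1 ≤ m8 K e n
  m2 : 2 ^ m8 K e n ≤ n
  /-- the largest radius -/
  TL : 4 * (Tg (h8 Q e₀ n) K (m8 K e n + x) : ℝ) ≤ (n : ℝ) ^ e
  HL : Hg (h8 Q e₀ n) K (m8 K e n + x) ≤ n
  Lx : m8 K e n + x + 2 ≤ n

theorem gridN8 {e e₀ : ℝ} (he : 0 < e) (he1 : e ≤ 1 / 32) (he₀ : 0 < e₀) (hee : e₀ ≤ e) {K Q x : ℕ} (hK : 2 ≤ K) (hQ : 1 ≤ Q) :
    ∀ᶠ n : ℕ in atTop, GridN8 e e₀ K Q x n := by
  have hlK : 0 < Real.log K := Real.log_pos (by exact_mod_cast (by omega : 1 < K))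
  have hKR : (2 : ℝ) ≤ K := by exact_mod_cast hK
  have ev : ∀ {y : ℝ}, 0 < y → ∀ M : ℝ, ∀ᶠ n : ℕ in atTop, M ≤ (n : ℝ) ^ y := fun hy M =>
    ((tendsto_rpow_atTop hy).comp tendsto_natCast_atTop_atTop).eventually_ge_atTop M
  have hlog : ∀ M : ℝ, ∀ᶠ n : ℕ in atTop, M ≤ Real.log n := fun M =>
    (Real.tendsto_log_atTop.comp tendsto_natCast_atTop_atTop).eventually_ge_atTop M
  filter_upwards [ev (show (0 : ℝ) < e / 2 by linarith) (16 * Q * (K : ℝ) ^ (x + 1)), hlog (8 * Real.log K / e),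
    ev (show (0 : ℝ) < 3 / 4 by norm_num) (x + 4), eventually_ge_atTop 1] with n e1 e2 e3 hn1
  have hnR : (1 : ℝ) ≤ n := by exact_mod_cast hn1
  have n0 : (0 : ℝ) < n := by linarith
  obtain ⟨m, hm⟩ : ∃ m : ℕ, m = m8 K e n := ⟨_, rfl⟩
  obtain ⟨h₀, hh⟩ : ∃ h₀ : ℕ, h₀ = h8 Q e₀ n := ⟨_, rfl⟩
  have y0 : 0 ≤ e / 4 * (Real.log n / Real.log K) := by
    have := Real.log_nonneg hnR
    positivity
  have a1 : (m : ℝ) ≤ e / 4 * (Real.log n / Real.log K) := hm ▸ Nat.floor_le y0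
  have a2 : e / 4 * (Real.log n / Real.log K) < m + 1 := by
    rw [hm]
    exact Nat.lt_floor_add_one _
  have p1 : 1 ≤ (n : ℝ) ^ (e₀ / 4) := Real.one_le_rpow hnR (by linarith)
  have b1 : (n : ℝ) ^ (e₀ / 4) ≤ h₀ := by
    rw [hh]
    unfold h8
    push_cast
    have h1 := Nat.le_ceil ((n : ℝ) ^ (e₀ / 4))
    have h2 : (1 : ℝ) ≤ Q := by exact_mod_cast hQ
    nlinarith [mul_le_mul_of_nonneg_right h2 (show (0 : ℝ) ≤ (⌈(n : ℝ) ^ (e₀ / 4)⌉₊ : ℝ) by positivity)]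
  have b2' : (h₀ : ℝ) ≤ 2 * Q * (n : ℝ) ^ (e₀ / 4) := by
    rw [hh]
    unfold h8
    push_cast
    have h1 : (⌈(n : ℝ) ^ (e₀ / 4)⌉₊ : ℝ) < (n : ℝ) ^ (e₀ / 4) + 1 := Nat.ceil_lt_add_one (by positivity)
    have h2 : (0 : ℝ) ≤ Q := by positivity
    have h3 := mul_le_mul_of_nonneg_left (show (⌈(n : ℝ) ^ (e₀ / 4)⌉₊ : ℝ) ≤ 2 * (n : ℝ) ^ (e₀ / 4) by linarith) h2
    linarith
  have b2 : (h₀ : ℝ) ≤ 2 * Q * (n : ℝ) ^ (e / 4) :=
    b2'.trans (mul_le_mul_of_nonneg_left (Real.rpow_le_rpow_of_exponent_le hnR (by linarith)) (by positivity))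
  have c1 : (K : ℝ) ^ m ≤ (n : ℝ) ^ (e / 4) := by
    have h1 : (K : ℝ) ^ m = Real.exp (m * Real.log K) := by
      rw [Real.exp_nat_mul, Real.exp_log (by linarith)]
    rw [h1, Real.rpow_def_of_pos n0]
    refine Real.exp_le_exp.2 ?_
    have h2 := mul_le_mul_of_nonneg_right a1 hlK.le
    have h3 : e / 4 * (Real.log n / Real.log K) * Real.log K = Real.log n * (e / 4) := by
      field_simp
    linarith
  have d1 : e / (8 * Real.log K) * Real.log n ≤ m := by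
    have h1 : e / 4 * (Real.log n / Real.log K) = 2 * (e / (8 * Real.log K) * Real.log n) := by
      field_simp
      ring
    have h2 : 1 ≤ e / (8 * Real.log K) * Real.log n := by
      rw [div_mul_eq_mul_div, le_div_iff₀ (by positivity)]
      rw [div_le_iff₀ he] at e2
      linarith
    linarith
  have k0 : (0 : ℝ) ≤ (K : ℝ) ^ (x + 1) := by positivity
  have f1 : 8 * (h₀ : ℝ) * (K : ℝ) ^ (m + x) * K ≤ (n : ℝ) ^ e := by
    calc 8 * (h₀ : ℝ) * (K : ℝ) ^ (m + x) * K = 8 * (h₀ : ℝ) * ((K : ℝ) ^ m * (K : ℝ) ^ (x + 1)) := by ring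
      _ ≤ 8 * (2 * Q * (n : ℝ) ^ (e / 4)) * ((n : ℝ) ^ (e / 4) * (K : ℝ) ^ (x + 1)) := by
          refine mul_le_mul (by linarith) (mul_le_mul_of_nonneg_right c1 k0) (by positivity) (by positivity)
      _ = 16 * Q * (K : ℝ) ^ (x + 1) * ((n : ℝ) ^ (e / 4) * (n : ℝ) ^ (e / 4)) := by ring
      _ = 16 * Q * (K : ℝ) ^ (x + 1) * (n : ℝ) ^ (e / 2) := by
          rw [← Real.rpow_add n0]
          congr 2
          ring
      _ ≤ (n : ℝ) ^ (e / 2) * (n : ℝ) ^ (e / 2) := mul_le_mul_of_nonneg_right e1 (by positivity)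
      _ = (n : ℝ) ^ e := by
          rw [← Real.rpow_add n0]
          congr 1
          ring
  have g1 : (Tg h₀ K (m + x) : ℝ) ≤ 2 * h₀ * (K : ℝ) ^ (m + x) * 1 := by
    unfold Tg
    split_ifs with h
    · push_cast
      positivity
    · push_cast
      linarith
  have g2 : (Hg h₀ K (m + x) : ℝ) ≤ h₀ * (K : ℝ) ^ (m + x) * K := by
    unfold Hg
    push_cast
    have h1 : (K : ℝ) ^ max (m + x) 1 ≤ (K : ℝ) ^ (m + x) * K := by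
      rw [← pow_succ]
      exact pow_le_pow_right₀ (by linarith) (by omega)
    have h2 : (0 : ℝ) ≤ h₀ := by positivity
    calc (h₀ : ℝ) * (K : ℝ) ^ max (m + x) 1 ≤ h₀ * ((K : ℝ) ^ (m + x) * K) := mul_le_mul_of_nonneg_left h1 h2
      _ = _ := by ring
  have q0 : 0 ≤ (h₀ : ℝ) * (K : ℝ) ^ (m + x) := by positivity
  have q1 : (h₀ : ℝ) * (K : ℝ) ^ (m + x) ≤ h₀ * (K : ℝ) ^ (m + x) * K := le_mul_of_one_le_right q0 (by linarith)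
  have en : (n : ℝ) ^ e ≤ n := by
    calc (n : ℝ) ^ e ≤ (n : ℝ) ^ (1 : ℝ) := Real.rpow_le_rpow_of_exponent_le hnR (by linarith)
      _ = n := Real.rpow_one _
  subst hm
  subst hh
  refine ⟨b1, b2', d1, c1, ?_, ?_, by linarith, ?_, ?_⟩
  · have h2 : 1 ≤ e / (8 * Real.log K) * Real.log n := by
      rw [div_mul_eq_mul_div, le_div_iff₀ (by positivity)]
      rw [div_le_iff₀ he] at e2
      linarith
    exact_mod_cast h2.trans d1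
  · have h1 : ((2 ^ m8 K e n : ℕ) : ℝ) ≤ n := by
      push_cast
      calc (2 : ℝ) ^ m8 K e n ≤ (K : ℝ) ^ m8 K e n := pow_le_pow_left₀ (by norm_num) hKR _
        _ ≤ (n : ℝ) ^ (e / 4) := c1
        _ ≤ (n : ℝ) ^ (1 : ℝ) := Real.rpow_le_rpow_of_exponent_le hnR (by linarith)
        _ = n := Real.rpow_one _
    exact_mod_cast h1
  · have h1 : (Hg (h8 Q e₀ n) K (m8 K e n + x) : ℝ) ≤ n := by linarith
    exact_mod_cast h1
  · have h2 : ((m8 K e n : ℕ) : ℝ) ≤ (n : ℝ) ^ (e / 4) := by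
      have h3 : ((m8 K e n : ℕ) : ℝ) ≤ (2 : ℝ) ^ m8 K e n := by exact_mod_cast (Nat.lt_two_pow_self).le
      exact h3.trans ((pow_le_pow_left₀ (by norm_num) hKR _).trans c1)
    have h4 : (n : ℝ) ^ (e / 4) ≤ (n : ℝ) ^ (1 / 4 : ℝ) := Real.rpow_le_rpow_of_exponent_le hnR (by linarith)
    have h5 : (n : ℝ) ^ (1 / 4 : ℝ) * (n : ℝ) ^ (3 / 4 : ℝ) = n := by
      rw [← Real.rpow_add n0]
      norm_num
    have h6 : 1 ≤ (n : ℝ) ^ (1 / 4 : ℝ) := Real.one_le_rpow hnR (by norm_num)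
    have h7 : ((m8 K e n + x + 2 : ℕ) : ℝ) ≤ n := by
      push_cast
      have h8' : (0 : ℝ) ≤ x := by positivity
      nlinarith [mul_le_mul h6 e3 (by linarith) (by linarith)]
    exact_mod_cast h7

/-- **THE ROWS**: all the regions of the tower over a site of the rows `d ≤ i` are above the row `0`. -/
theorem GridN8.d_ge {e e₀ : ℝ} {K Q x n mt : ℕ} (h : GridN8 e e₀ K Q x n) (hK : 2 ≤ K) (hn : 1 ≤ n) (hmt : mt ≤ m8 K e n + x) :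
    Tg (h8 Q e₀ n) K (m8 K e n + x) + Hg (h8 Q e₀ n) K (m8 K e n + x) ≤ T98.dT (Hg (h8 Q e₀ n) K mt) ((n : ℝ) ^ e) := by
  have hnR : (1 : ℝ) ≤ n := by exact_mod_cast hn
  have TL := h.TL
  have m0 := h.m0
  have h1 := h.h1
  obtain ⟨h₀, hh⟩ : ∃ h₀ : ℕ, h₀ = h8 Q e₀ n := ⟨_, rfl⟩
  obtain ⟨L, hL⟩ : ∃ L : ℕ, L = m8 K e n + x := ⟨_, rfl⟩
  rw [← hh, ← hL] at TL ⊢
  rw [← hL] at hmt
  rw [← hh] at h1
  have hK1 : 1 ≤ K := by omega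
  have hh0 : 0 < h₀ := by
    have h2 : (0 : ℝ) < h₀ := lt_of_lt_of_le (by positivity) h1
    exact_mod_cast h2
  have hH0 : 0 < Hg h₀ K mt := Nat.mul_pos hh0 (Nat.pow_pos (by omega))
  have e1 : Tg h₀ K L = 2 * Hg h₀ K L := T10.Tg_Hg (by omega)
  have e2 : Hg h₀ K mt ≤ Hg h₀ K L := Hg_mono hK1 hmt
  have e3 := T98.lt_dT hH0 ((n : ℝ) ^ e)
  have e4 : 4 * Tg h₀ K L ≤ ⌈(n : ℝ) ^ e⌉₊ := by
    have h3 : ((4 * Tg h₀ K L : ℕ) : ℝ) ≤ (⌈(n : ℝ) ^ e⌉₊ : ℝ) := by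
      push_cast
      exact TL.trans (Nat.le_ceil _)
    exact_mod_cast h3
  omega

/-- **THE WIDTH OF A BOX** of level at most `m8`. -/
theorem Vn8 {μ : Measure ℝ} [IsProbabilityMeasure μ] {s c C : ℝ} {n₀ : ℕ} (hI : In μ s c C n₀) {e e₀ : ℝ} (he : 0 < e) (he1 : e ≤ 1 / 32)
    (he₀ : 0 < e₀) (hee : e₀ ≤ e) {K Q B : ℕ} (hK : 2 ≤ K) (hQ : 1 ≤ Q) (hB : 1 ≤ B) : ∀ᶠ n : ℕ in atTop, ∀ v, 1 ≤ v → v ≤ m8 K e n →
      wd μ s (B * Tg (h8 Q e₀ n) K v) ≤ n := by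
  have ev : ∀ {y : ℝ}, 0 < y → ∀ M : ℝ, ∀ᶠ n : ℕ in atTop, M ≤ (n : ℝ) ^ y := fun hy M =>
    ((tendsto_rpow_atTop hy).comp tendsto_natCast_atTop_atTop).eventually_ge_atTop M
  obtain ⟨n₂, hn₂⟩ := eventually_atTop.1 (hI.tv.eventually (eventually_le_nhds (show (0 : ℝ) < 1 by norm_num)))
  filter_upwards [gridN8 (x := 0) he he1 he₀ hee hK hQ, ev (show (0 : ℝ) < e₀ / 4 by linarith) (n₂ : ℕ),
    ev (show (0 : ℝ) < 1 / 2 by norm_num) (B : ℝ), eventually_ge_atTop 1] with n hg e1 e2 hn1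
  intro v hv hvm
  have hnR : (1 : ℝ) ≤ n := by exact_mod_cast hn1
  have n0 : (0 : ℝ) < n := by linarith
  have hh : n₂ ≤ h8 Q e₀ n := by exact_mod_cast e1.trans hg.h1
  have hK0 : 0 < K := by omega
  have h2 : n₂ ≤ B * Tg (h8 Q e₀ n) K v := by
    rw [Tg_pos hv, mul_comm 2 (h8 Q e₀ n), mul_assoc]
    have hP : 0 < K ^ v := Nat.pow_pos hK0
    refine hh.trans ((Nat.le_mul_of_pos_right _ (Nat.mul_pos two_pos hP)).trans ?_)
    exact Nat.le_mul_of_pos_left _ (by omega)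
  have h3 := hn₂ _ h2
  have h4 : wd μ s (B * Tg (h8 Q e₀ n) K v) ≤ ((B * Tg (h8 Q e₀ n) K v : ℕ) : ℝ) := by
    unfold wd
    exact mul_le_of_le_one_right (Nat.cast_nonneg _) h3
  refine h4.trans ?_
  have h5 := hg.TL
  rw [add_zero] at h5
  have h6 : (Tg (h8 Q e₀ n) K v : ℝ) ≤ Tg (h8 Q e₀ n) K (m8 K e n) := by exact_mod_cast Tg_mono hK0 hvm
  have h9 : (0 : ℝ) ≤ Tg (h8 Q e₀ n) K v := by positivity
  push_cast
  calc (B : ℝ) * Tg (h8 Q e₀ n) K v ≤ (n : ℝ) ^ (1 / 2 : ℝ) * (n : ℝ) ^ (1 / 2 : ℝ) := by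
        refine mul_le_mul e2 ?_ h9 (by positivity)
        calc (Tg (h8 Q e₀ n) K v : ℝ) ≤ (n : ℝ) ^ e := by linarith
          _ ≤ (n : ℝ) ^ (1 / 2 : ℝ) := Real.rpow_le_rpow_of_exponent_le hnR (by linarith)
    _ = n := by
        rw [← Real.rpow_add n0]
        norm_num

/-- **A FRACTION OF THE SCALES** is still of order `log n`. -/
theorem frac8 {e : ℝ} (he : 0 < e) {K Z : ℕ} (hK : 2 ≤ K) (hZ : 1 ≤ Z) :
    ∀ᶠ n : ℕ in atTop, e / (16 * Z * Real.log K) * Real.log n ≤ ((m8 K e n / Z : ℕ) : ℝ) := by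
  have hlK : 0 < Real.log K := Real.log_pos (by exact_mod_cast (by omega : 1 < K))
  have hZR : (1 : ℝ) ≤ Z := by exact_mod_cast hZ
  filter_upwards [(Real.tendsto_log_atTop.comp tendsto_natCast_atTop_atTop).eventually_ge_atTop (16 * Z * Real.log K / e),
    eventually_ge_atTop 1] with n h1 hn1
  have h1' : 16 * Z * Real.log K / e ≤ Real.log n := h1
  have hnR : (1 : ℝ) ≤ n := by exact_mod_cast hn1
  have hl := Real.log_nonneg hnR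
  have a2 : e / 4 * (Real.log n / Real.log K) < m8 K e n + 1 := Nat.lt_floor_add_one _
  have a3 : ((m8 K e n : ℕ) : ℝ) < Z * (((m8 K e n / Z : ℕ) : ℝ) + 1) := by
    have h := Nat.lt_mul_div_succ (m8 K e n) (show 0 < Z by omega)
    exact_mod_cast h
  obtain ⟨y, hy⟩ : ∃ y : ℝ, y = ((m8 K e n / Z : ℕ) : ℝ) := ⟨_, rfl⟩
  rw [← hy] at a3 ⊢
  obtain ⟨u, hu⟩ : ∃ u : ℝ, u = e * (Real.log n / Real.log K) := ⟨_, rfl⟩
  have u0 : 16 * (Z : ℝ) ≤ u := by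
    rw [hu, ← mul_div_assoc, le_div_iff₀ hlK]
    rw [div_le_iff₀ he] at h1'
    linarith
  have e1 : e / (16 * Z * Real.log K) * Real.log n = u / (16 * Z) := by
    rw [hu]
    field_simp
  have e2 : e / 4 * (Real.log n / Real.log K) = u / 4 := by
    rw [hu]
    ring
  rw [e2] at a2
  rw [e1, div_le_iff₀ (by positivity)]
  nlinarith

/-- The data of the scale `n`. -/
def sd8 (e₀ : ℝ) (K Q n L mt m : ℕ) (G : Gd) (SI : ℕ → ℕ × ℤ → Set Env) (Lm : ℕ) (EL : ℕ → ℕ × ℤ → ℕ → Set Env)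
    (vI PI : ℕ → ℕ × ℤ → Env → ℝ) : Sd8 where
  G := G
  L := L
  mt := mt
  m := m
  A := AT (Tg (h8 Q e₀ n) K)
  SI := SI
  Lv := LvE Lm EL
  vI := vI
  PI := PI

/-- **THE COMMON DATA.** `hV` : the width of the boxes of level `mt`; the other hypotheses are those on the grid, the level events and the
inside. -/
theorem sdok8 {μ : Measure ℝ} [IsProbabilityMeasure μ] {s : ℝ} {e e₀ κ' : ℝ} {K Q x m₂ n L mt m : ℕ} (hg : GridN8 e e₀ K Q x n) (hK : 2 ≤ K)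
    (hmt : m ≤ mt) (hmt' : mt ≤ m8 K e n) (hmL : mt ≤ L) (hm : m + m₂ ≤ L) (hL : L ≤ m8 K e n + x) (hκ : κ' * Real.log n ≤ m)
    {G : Gd} (ok : G.Ok L) (nest : G.Nest L (AT (Tg (h8 Q e₀ n) K))) (hH : ∀ v, G.H v = Hg (h8 Q e₀ n) K v)
    (hV : G.V mt ≤ n) (err : ∀ r : ℕ, |(G.s r : ℝ) - sl μ s * r| ≤ (L : ℝ) + 2)
    {SI : ℕ → ℕ × ℤ → Set Env} {Lm : ℕ} {EL : ℕ → ℕ × ℤ → ℕ → Set Env} {vI PI : ℕ → ℕ × ℤ → Env → ℝ}
    (mE : ∀ v o l, MeasurableSet (EL v o l))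
    (oE : ∀ v o l, Off (AT (Tg (h8 Q e₀ n) K) (v + 1) \ T10.At (pt o) (AT (Tg (h8 Q e₀ n) K) v))ᶜ (EL v o l))
    (mSI : ∀ u < m, ∀ y, MeasurableSet (SI u y)) (iSI : ∀ u < m, ∀ y, Off (AT (Tg (h8 Q e₀ n) K) u)ᶜ (SI u y))
    (ov : ∀ l < m, ∀ y, OffF (AT (Tg (h8 Q e₀ n) K) l)ᶜ (vI l y))
    (oP : ∀ l < m, ∀ y, OffF (AT (Tg (h8 Q e₀ n) K) l)ᶜ (PI l y)) :
    SdOk8 μ s n m₂ κ' (sd8 e₀ K Q n L mt m G SI Lm EL vI PI) where
  ok := ok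
  mtL := hmL
  mmt := fun _ hl => hl.le.trans hmt
  mL := hm
  nest := nest
  rd := Rd_LvE oE
  mLv := measurable_LvE mE
  mSI := mSI
  iSI := iSI
  ov := ov
  oP := oP
  Hn := by
    show G.H mt ≤ n
    rw [hH]
    exact (Hg_mono (by omega) (hmt'.trans (Nat.le_add_right _ _))).trans hg.HL
  Vn := hV
  sn := fun r => by
    refine (err r).trans ?_
    have h1 : ((m8 K e n + x + 2 : ℕ) : ℝ) ≤ n := by exact_mod_cast hg.Lx
    have h2 : (L : ℝ) ≤ ((m8 K e n + x : ℕ) : ℝ) := by exact_mod_cast hL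
    push_cast at h1 h2 ⊢
    linarith
  m1 := hκ
  m2 := (Nat.pow_le_pow_right (by omega) (hmt.trans hmt')).trans hg.m2

/-- **THE ROWS OF THE SITES**: `T L + H L ≤ c.1` and `c.1 + n + d < N`. -/
theorem sites8 {e e₀ : ℝ} {K Q x n L mt m : ℕ} (hg : GridN8 e e₀ K Q x n) (hK : 2 ≤ K) (hn : 1 ≤ n) (hmt' : mt ≤ m8 K e n)
    (hL : L ≤ m8 K e n + x) {G : Gd} (hH : ∀ v, G.H v = Hg (h8 Q e₀ n) K v) {SI : ℕ → ℕ × ℤ → Set Env} {Lm : ℕ}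
    {EL : ℕ → ℕ × ℤ → ℕ → Set Env} {vI PI : ℕ → ℕ × ℤ → Env → ℝ} {Γ : H60.Cx} {c : ℕ × ℤ}
    (hc : c ∈ (sd8 e₀ K Q n L mt m G SI Lm EL vI PI).S n e Γ) :
    Tg (h8 Q e₀ n) K L + Hg (h8 Q e₀ n) K L ≤ c.1 ∧ c.1 + (sd8 e₀ K Q n L mt m G SI Lm EL vI PI).d n e < Γ.N - n := by
  have h1 := (T98.mem_St.1 hc).1
  have e1 : (sd8 e₀ K Q n L mt m G SI Lm EL vI PI).d n e = T98.dT (Hg (h8 Q e₀ n) K mt) ((n : ℝ) ^ e) := by
    show T98.dT (G.H mt) ((n : ℝ) ^ e) = _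
    rw [hH]
  have h2 : (sd8 e₀ K Q n L mt m G SI Lm EL vI PI).d n e ≤ c.1 := h1.1
  have h3 : c.1 < (sd8 e₀ K Q n L mt m G SI Lm EL vI PI).k n e Γ := h1.2
  have h4 : (sd8 e₀ K Q n L mt m G SI Lm EL vI PI).k n e Γ ≤ Γ.N - n - (sd8 e₀ K Q n L mt m G SI Lm EL vI PI).d n e := T98.kT_le _ _ _
  constructor
  · refine le_trans ?_ h2
    rw [e1]
    refine le_trans ?_ (hg.d_ge hK hn (hmt'.trans (Nat.le_add_right _ _)))
    have hK1 : 1 ≤ K := by omega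
    exact Nat.add_le_add (Tg_mono hK1 hL) (Hg_mono hK1 hL)
  · omega

end

end Pool.Agent.W_7d29a1_C1.H8
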