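import Pool.Agent.W_7d29a1_C1.NumV77
import Pool.Agent.W_7d29a1_C1.ShlA8

/-!
MP_7d29a1_pr, attractor route [C1], field `nu`: THE NUMBERS OF THE TOP SHELL `L = M / 16`, `lT = M / 128`, `Mt = M / 2`,
`M = m8 K e n`, base height `h8 Qb (ρ e) n` (helper59; text of helper77, helper74). `sc59`: the powers of `n` at the scales. `numT59`: the losses of the top against the
price of the scale `u + (lT - 1) / 2`, and the widths.
-/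

set_option autoImplicit false

namespace Pool.Agent.W_7d29a1_C1.H59T

open MeasureTheory Finset Filter Topology
open Pool.Agent.W_7d29a1_F Pool.Agent.W_7d29a1_h4g Pool.Agent.W_7d29a1_H Pool.Agent.W_7d29a1_HS
open Pool.Agent.W_7d29a1_C1.FarK89 (gr gr_mono AQ AQ_nonneg)
open Pool.Agent.W_7d29a1_C1.D31 (lev31 loss31)
open Pool.Agent.W_7d29a1_C1.T10 (Tg Tg_pos)
open Pool.Agent.W_7d29a1_C1.H8 (h8 m8 GridN8 gridN8)
open Pool.Agent.W_7d29a1_C1.H77 (Tg_add77 Tg_ge77 grow77)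

noncomputable section

/-! ### The powers of `n` at the scales -/

/-- The powers of `n` at the scales. -/
structure Sc59 (e e₀ : ℝ) (K Q Z n : ℕ) : Prop where
  n1 : 1 ≤ n
  h1 : (n : ℝ) ^ (e₀ / 4) ≤ h8 Q e₀ n
  h2 : (h8 Q e₀ n : ℝ) ≤ 2 * Q * (n : ℝ) ^ (e₀ / 4)
  M1 : 1 ≤ m8 K e n
  l2 : (n : ℝ) ^ (e / 8) ≤ (K : ℝ) ^ (m8 K e n / 2 + 1)
  k16 : (K : ℝ) ^ (m8 K e n / 16) ≤ (n : ℝ) ^ (e / 64)
  l16 : (n : ℝ) ^ (e / 64) ≤ (K : ℝ) ^ (m8 K e n / 16 + 1)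
  k128 : (K : ℝ) ^ (m8 K e n / 128) ≤ (n : ℝ) ^ (e / 512)
  kZ : (K : ℝ) ^ (m8 K e n / Z) ≤ (n : ℝ) ^ (e / (4 * Z))
  kf : (n : ℝ) ^ (e / 1024) ≤ (K : ℝ) ^ ((m8 K e n / 128 - 1) / 2 + 2)

theorem ev59 {y : ℝ} (hy : 0 < y) (M : ℝ) : ∀ᶠ n : ℕ in atTop, M ≤ (n : ℝ) ^ y :=
  ((tendsto_rpow_atTop hy).comp tendsto_natCast_atTop_atTop).eventually_ge_atTop M

theorem root59 {x y : ℝ} (_hx : 0 ≤ x) (hy : 0 ≤ y) {N : ℕ} (hN : N ≠ 0) (h : x ^ N ≤ y ^ N) : x ≤ y :=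
  le_of_not_gt fun hlt => absurd h (not_le.2 (pow_lt_pow_left₀ hlt hy hN))

theorem sc59 {e e₀ : ℝ} (he : 0 < e) (he1 : e ≤ 1 / 32) (he₀ : 0 < e₀) (hee : e₀ ≤ e) {K Q Z : ℕ} (hK : 2 ≤ K) (hQ : 1 ≤ Q) (hZ : 1 ≤ Z) :
    ∀ᶠ n : ℕ in atTop, Sc59 e e₀ K Q Z n := by
  have hKR : (2 : ℝ) ≤ K := by exact_mod_cast hK
  have hK1 : (1 : ℝ) ≤ K := by linarith
  have hK0 : (0 : ℝ) ≤ K := by linarith
  have hlK : 0 < Real.log K := Real.log_pos (by linarith)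
  have hZR : (0 : ℝ) < Z := by exact_mod_cast hZ
  filter_upwards [gridN8 (x := 0) he he1 he₀ hee hK hQ, eventually_ge_atTop 1] with n g hn1
  have hnR : (1 : ℝ) ≤ n := by exact_mod_cast hn1
  have n0 : (0 : ℝ) < n := by linarith
  have gm := g.mK
  obtain ⟨M, hM⟩ : ∃ M : ℕ, M = m8 K e n := ⟨_, rfl⟩
  rw [← hM] at gm
  have kM : (n : ℝ) ^ (e / 4) ≤ (K : ℝ) ^ (M + 1) := by
    have a2 : e / 4 * (Real.log n / Real.log K) < M + 1 := by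
      rw [hM]
      exact Nat.lt_floor_add_one _
    have h1 : (K : ℝ) ^ (M + 1) = Real.exp (((M + 1 : ℕ) : ℝ) * Real.log K) := by
      rw [Real.exp_nat_mul, Real.exp_log (by linarith)]
    rw [h1, Real.rpow_def_of_pos n0]
    refine Real.exp_le_exp.2 ?_
    have h2 := mul_le_mul_of_nonneg_right a2.le hlK.le
    have h3 : e / 4 * (Real.log n / Real.log K) * Real.log K = Real.log n * (e / 4) := by
      field_simp
    push_cast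
    linarith
  have up : ∀ {b : ℕ} {y : ℝ}, b ≠ 0 → y * b = e / 4 → (K : ℝ) ^ (M / b) ≤ (n : ℝ) ^ y := fun {b y} hb hy => by
    refine root59 (by positivity) (by positivity) (N := b) hb ?_
    calc ((K : ℝ) ^ (M / b)) ^ b = (K : ℝ) ^ (M / b * b) := by rw [pow_mul]
      _ ≤ (K : ℝ) ^ M := pow_le_pow_right₀ hK1 (Nat.div_mul_le_self M b)
      _ ≤ (n : ℝ) ^ (e / 4) := gm
      _ = ((n : ℝ) ^ y) ^ b := by rw [← Real.rpow_natCast ((n : ℝ) ^ y) b, ← Real.rpow_mul n0.le, hy]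
  have lo : ∀ {b f : ℕ} {y : ℝ}, b ≠ 0 → y * b = e / 4 → M + 1 ≤ f * b → (n : ℝ) ^ y ≤ (K : ℝ) ^ f := fun {b f y} hb hy hf => by
    refine root59 (by positivity) (by positivity) (N := b) hb ?_
    calc ((n : ℝ) ^ y) ^ b = (n : ℝ) ^ (e / 4) := by rw [← Real.rpow_natCast ((n : ℝ) ^ y) b, ← Real.rpow_mul n0.le, hy]
      _ ≤ (K : ℝ) ^ (M + 1) := kM
      _ ≤ (K : ℝ) ^ (f * b) := pow_le_pow_right₀ hK1 hf
      _ = ((K : ℝ) ^ f) ^ b := by rw [pow_mul]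
  have gM := g.m0
  rw [← hM] at gM
  refine ⟨hn1, g.h1, g.h2, ?_, ?_, ?_, ?_, ?_, ?_, ?_⟩ <;> rw [← hM]
  · exact gM
  · exact lo (b := 2) (by norm_num) (by push_cast; ring) (by omega)
  · exact up (b := 16) (by norm_num) (by push_cast; ring)
  · exact lo (b := 16) (by norm_num) (by push_cast; ring) (by omega)
  · exact up (b := 128) (by norm_num) (by push_cast; ring)
  · exact up (b := Z) (by omega) (by field_simp)
  · exact lo (b := 256) (by norm_num) (by push_cast; ring) (by omega)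

/-- The price from below: a power of `n`. -/
theorem Sc59.pr {e e₀ : ℝ} {K Q Z n : ℕ} (h : Sc59 e e₀ K Q Z n) (hK : 1 ≤ K) {a : ℝ} (ha : 0 < a) (ha1 : a ≤ 1) (m : ℕ) :
    (n : ℝ) ^ (a * e / 1024) ≤ ((K : ℝ) ^ a) ^ ((m8 K e n / 128 - 1) / 2 - (m + 1)) * (K : ℝ) ^ (m + 3) := by
  have hKR : (1 : ℝ) ≤ K := by exact_mod_cast hK
  have hnR : (1 : ℝ) ≤ n := by exact_mod_cast h.n1
  have k1 := h.kf
  obtain ⟨f, hf⟩ : ∃ f, f = (m8 K e n / 128 - 1) / 2 := ⟨_, rfl⟩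
  rw [← hf] at k1 ⊢
  have hX : 1 ≤ (K : ℝ) ^ a := Real.one_le_rpow hKR ha.le
  have hX2 : (K : ℝ) ^ a ≤ K := by
    calc (K : ℝ) ^ a ≤ (K : ℝ) ^ (1 : ℝ) := Real.rpow_le_rpow_of_exponent_le hKR ha1
      _ = K := Real.rpow_one _
  calc (n : ℝ) ^ (a * e / 1024) = ((n : ℝ) ^ (e / 1024)) ^ a := by
        rw [← Real.rpow_mul (by linarith)]
        congr 1
        ring
    _ ≤ ((K : ℝ) ^ (f + 2)) ^ a := Real.rpow_le_rpow (by positivity) k1 ha.le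
    _ = ((K : ℝ) ^ a) ^ (f + 2) := by
        rw [← Real.rpow_natCast (K : ℝ) (f + 2), ← Real.rpow_mul (by linarith), mul_comm, Real.rpow_mul (by linarith), Real.rpow_natCast]
    _ ≤ ((K : ℝ) ^ a) ^ ((f - (m + 1)) + (m + 3)) := pow_le_pow_right₀ hX (by omega)
    _ = ((K : ℝ) ^ a) ^ (f - (m + 1)) * ((K : ℝ) ^ a) ^ (m + 3) := pow_add _ _ _
    _ ≤ ((K : ℝ) ^ a) ^ (f - (m + 1)) * (K : ℝ) ^ (m + 3) :=
        mul_le_mul_of_nonneg_left (pow_le_pow_left₀ (by positivity) hX2 _) (by positivity)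

/-- The scale `u + x` from above. -/
theorem Sc59.Tu {e e₀ : ℝ} {K Q Z n : ℕ} (h : Sc59 e e₀ K Q Z n) (hK : 1 ≤ K) {u m₁ : ℕ} (hu : u ≤ m8 K e n / Z + m₁) (x : ℕ) :
    (Tg (h8 Q e₀ n) K (u + x) : ℝ) ≤ 4 * Q * (K : ℝ) ^ (m₁ + x) * ((n : ℝ) ^ (e₀ / 4) * (n : ℝ) ^ (e / (4 * Z))) := by
  have hKR : (1 : ℝ) ≤ K := by exact_mod_cast hK
  have n0 : (0 : ℝ) < n := by exact_mod_cast h.n1
  have h2 := h.h2
  have k1 : (K : ℝ) ^ (u + x) ≤ (n : ℝ) ^ (e / (4 * Z)) * (K : ℝ) ^ (m₁ + x) := by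
    calc (K : ℝ) ^ (u + x) ≤ (K : ℝ) ^ (m8 K e n / Z + (m₁ + x)) := pow_le_pow_right₀ hKR (by omega)
      _ = (K : ℝ) ^ (m8 K e n / Z) * (K : ℝ) ^ (m₁ + x) := pow_add _ _ _
      _ ≤ _ := mul_le_mul_of_nonneg_right h.kZ (by positivity)
  have k2 : (Tg (h8 Q e₀ n) K (u + x) : ℝ) ≤ 2 * (h8 Q e₀ n : ℝ) * (K : ℝ) ^ (u + x) := by
    unfold Tg
    split_ifs with hv
    · push_cast
      positivity
    · push_cast
      exact le_rfl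
  refine k2.trans ?_
  calc 2 * (h8 Q e₀ n : ℝ) * (K : ℝ) ^ (u + x) ≤ 2 * (2 * Q * (n : ℝ) ^ (e₀ / 4)) * ((n : ℝ) ^ (e / (4 * Z)) * (K : ℝ) ^ (m₁ + x)) :=
        mul_le_mul (by linarith) k1 (by positivity) (by positivity)
    _ = _ := by ring

/-- A power of a logarithm. -/
theorem lg59 (P : ℕ) {A δ : ℝ} (hA : 0 ≤ A) (hδ : 0 < δ) : ∃ Cl : ℝ, 1 ≤ Cl ∧ ∀ n : ℕ, 1 ≤ n → gr P (A + (n : ℝ) ^ (4 : ℕ)) ≤ Cl * (n : ℝ) ^ δ := by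
  have hP : (0 : ℝ) < P + 1 := by positivity
  obtain ⟨ε, hε⟩ : ∃ ε, ε = δ / (P + 1) := ⟨_, rfl⟩
  have hε0 : 0 < ε := hε ▸ by positivity
  have hl : 0 ≤ Real.log (2 + A) := Real.log_nonneg (by linarith)
  have h4 : 0 < 4 / ε := by positivity
  refine ⟨(1 + Real.log (2 + A) + 4 / ε) ^ P, one_le_pow₀ (by linarith), fun n hn => ?_⟩
  have hnR : (1 : ℝ) ≤ n := by exact_mod_cast hn
  have n0 : (0 : ℝ) < n := by linarith
  have hn4 : (1 : ℝ) ≤ (n : ℝ) ^ (4 : ℕ) := one_le_pow₀ hnR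
  have h1 : Real.log (1 + (A + (n : ℝ) ^ (4 : ℕ))) ≤ Real.log (2 + A) + 4 * Real.log n := by
    have e1 : 4 * Real.log n = Real.log ((n : ℝ) ^ (4 : ℕ)) := by
      rw [Real.log_pow]
      push_cast
      ring
    rw [e1, ← Real.log_mul (by linarith) (by positivity)]
    refine Real.log_le_log (by positivity) ?_
    have h6 := mul_le_mul_of_nonneg_left hn4 hA
    linarith only [h6, hn4]
  have h2 : Real.log n ≤ (n : ℝ) ^ ε / ε := Real.log_le_rpow_div n0.le hε0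
  have h3 : 1 ≤ (n : ℝ) ^ ε := Real.one_le_rpow hnR hε0.le
  have h5 : 1 + Real.log (1 + (A + (n : ℝ) ^ (4 : ℕ))) ≤ (1 + Real.log (2 + A) + 4 / ε) * (n : ℝ) ^ ε := by
    have e2 : 4 * ((n : ℝ) ^ ε / ε) = 4 / ε * (n : ℝ) ^ ε := by ring
    have h6 := mul_le_mul_of_nonneg_left h3 (show 0 ≤ 1 + Real.log (2 + A) by linarith)
    linarith only [h6, e2, h1, h2]
  unfold gr
  refine (pow_le_pow_left₀ ?_ h5 P).trans ?_
  · have := Real.log_nonneg (show (1 : ℝ) ≤ 1 + (A + (n : ℝ) ^ (4 : ℕ)) by linarith)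
    linarith
  · rw [mul_pow]
    refine mul_le_mul_of_nonneg_left ?_ (by positivity)
    rw [← Real.rpow_natCast, ← Real.rpow_mul n0.le]
    refine Real.rpow_le_rpow_of_exponent_le hnR ?_
    rw [hε, div_mul_eq_mul_div, div_le_iff₀ hP]
    exact mul_le_mul_of_nonneg_left (by linarith) hδ.le

variable {μ : Measure ℝ} [IsProbabilityMeasure μ] {s c C : ℝ} {n₀ : ℕ}

/-- `E ≥ 1`, `1 ≤ wd ≤ T`, `T ^ (1 / 4) ≤ wd`, `wd ≤ ε T` at large scales. -/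
theorem big59 (h0 : In μ s c C n₀) {ε : ℝ} (hε : 0 < ε) : ∃ n₁ : ℕ, 1 ≤ n₁ ∧ ∀ T : ℕ, n₁ ≤ T → 1 ≤ EE μ s T ∧ 1 ≤ wd μ s T ∧
    wd μ s T ≤ ε * T ∧ (T : ℝ) ^ (1 / 4 : ℝ) ≤ wd μ s T := by
  obtain ⟨n₁, H1⟩ := Pool.Agent.W_7d29a1_HZ.wd'_eq h0
  obtain ⟨n₂, H2⟩ := eventually_atTop.1 (h0.tE.eventually_ge_atTop 1)
  obtain ⟨n₃, H3⟩ := eventually_atTop.1 (h0.tv.eventually_le_const hε)
  refine ⟨max (max n₁ n₂) (max n₃ 1), (le_max_right _ _).trans (le_max_right _ _), fun T hT => ?_⟩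
  have hT1 : 1 ≤ T := ((le_max_right _ _).trans (le_max_right _ _)).trans hT
  have hTR : (1 : ℝ) ≤ T := by exact_mod_cast hT1
  have q := (H1 T (((le_max_left _ _).trans (le_max_left _ _)).trans hT)).2.2
  refine ⟨H2 T (((le_max_right _ _).trans (le_max_left _ _)).trans hT), (Real.one_le_rpow hTR (by norm_num)).trans q, ?_, q⟩
  have h3 := H3 T (((le_max_left _ _).trans (le_max_right _ _)).trans hT)
  unfold wd
  rw [mul_comm]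
  exact mul_le_mul_of_nonneg_right h3 (by linarith)

theorem m8_ge59 {e : ℝ} (he : 0 < e) (he1 : e ≤ 1 / 32) {K : ℕ} (hK2 : 2 ≤ K) (x : ℕ) : ∀ᶠ n : ℕ in atTop, x ≤ m8 K e n := by
  have hlK : 0 < Real.log K := Real.log_pos (by exact_mod_cast (by omega : 1 < K))
  have t1 : ∀ᶠ n : ℕ in atTop, (x : ℝ) / (e / (8 * Real.log K)) ≤ Real.log n :=
    (Real.tendsto_log_atTop.comp tendsto_natCast_atTop_atTop).eventually_ge_atTop _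
  filter_upwards [t1, gridN8 (x := 0) he he1 he le_rfl hK2 (le_refl 1)] with n g1 g2
  have h1 := g2.m1
  rw [div_le_iff₀ (by positivity)] at g1
  have : (x : ℝ) ≤ m8 K e n := by linarith
  exact_mod_cast this

/-- The level of the top. -/
theorem levT59 {P : ℕ} {c₁ Q S E w G : ℝ} (hQ : 0 ≤ Q) (hE : 0 < E) (hw : 1 ≤ w) {n : ℕ} {Cl x : ℝ} (hx : 1 ≤ x)
    (hC : gr P (AQ P c₁ Q + (n : ℝ) ^ 4) ≤ Cl * x) :
    lev31 P c₁ Q S E w ((n : ℝ) ^ 4) + G * E ≤ (Q * Cl + |S| + |G|) * x * E := by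
  unfold lev31
  have hw0 : 0 < w := by linarith
  have h1 : (n : ℝ) ^ 4 / w ≤ (n : ℝ) ^ 4 := div_le_self (by positivity) hw
  have h2 : gr P (AQ P c₁ Q + (n : ℝ) ^ 4 / w) ≤ gr P (AQ P c₁ Q + (n : ℝ) ^ 4) :=
    gr_mono P (add_nonneg (AQ_nonneg _ _ _) (by positivity)) (by linarith)
  have h3 := mul_le_mul_of_nonneg_left (h2.trans hC) hQ
  have a1 := le_abs_self S
  have a2 := le_abs_self G
  have a3 : |S| ≤ |S| * x := le_mul_of_one_le_right (abs_nonneg _) hx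
  have a4 : |G| ≤ |G| * x := le_mul_of_one_le_right (abs_nonneg _) hx
  have h4 : Q * gr P (AQ P c₁ Q + (n : ℝ) ^ 4 / w) + S + G ≤ (Q * Cl + |S| + |G|) * x := by linarith only [h3, a1, a2, a3, a4]
  have h5 := mul_le_mul_of_nonneg_right h4 hE.le
  linarith only [h5]

/-- **The losses of the top.** -/
theorem topA59 (h0 : In μ s c C n₀) : ∃ Z₀ : ℕ, 1024 ≤ Z₀ ∧ ∃ ρ₁ : ℝ, 0 < ρ₁ ∧ ρ₁ ≤ 1 / 2048 ∧ ∀ Z : ℕ, Z₀ ≤ Z → ∀ ρ : ℝ, 0 < ρ → ρ ≤ ρ₁ →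
    ∀ e : ℝ, 0 < e → e ≤ 1 / 32 → ∀ K : ℕ, 2 ≤ K → ∀ (m m₁ P Qb : ℕ) (c₁ Q S Ca η G X : ℝ), 1 ≤ Qb → 0 ≤ Q → 0 < η →
    ∀ᶠ n : ℕ in atTop, ∀ u : ℕ, 1 ≤ u → u ≤ m8 K e n / Z + m₁ →
      lev31 P c₁ Q S (EE μ s (Tg (h8 Qb (ρ * e) n) K (u + m + 1))) (wd μ s (Tg (h8 Qb (ρ * e) n) K (u + m + 1))) ((n : ℝ) ^ 4) +
          Ca * (Tg (h8 Qb (ρ * e) n) K (u + m + 1) : ℝ) * Real.log n + G * EE μ s (Tg (h8 Qb (ρ * e) n) K (u + m + 1)) + X ≤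
        η * EE μ s (Tg (h8 Qb (ρ * e) n) K (u + (m8 K e n / 128 - 1) / 2)) := by
  obtain ⟨a₀, k, ha₀, ha1, hk, hk1, n₁, hn₁, HG⟩ := grow77 h0
  obtain ⟨n₂, hn₂, HB⟩ := big59 h0 (show (0 : ℝ) < 1 by norm_num)
  obtain ⟨Z₁, hZ₁⟩ := exists_nat_ge (1024 / a₀)
  refine ⟨max Z₁ 1024, le_max_right _ _, a₀ / 2048, by positivity, by linarith, fun Z hZ ρ hρ hρ1 e he he1 K hK2 m m₁ P Qb c₁ Q S Ca η G X
    hQb hQ hη => ?_⟩
  have hKR : (1 : ℝ) ≤ K := by exact_mod_cast (by omega : 1 ≤ K)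
  have hK0 : (0 : ℝ) < K := by linarith
  have hZ1 : 1024 ≤ Z := (le_max_right _ _).trans hZ
  have hZ0 : (0 : ℝ) < Z := by exact_mod_cast (by omega : 0 < Z)
  have hZa : 1024 ≤ a₀ * Z := by
    have h1 : (Z₁ : ℝ) ≤ Z := by exact_mod_cast (le_max_left _ _).trans hZ
    rw [div_le_iff₀ ha₀] at hZ₁
    exact hZ₁.trans ((mul_le_mul_of_nonneg_right h1 ha₀.le).trans_eq (mul_comm _ _))
  have he₀ : 0 < ρ * e := by positivity
  have hρe : ρ * e ≤ a₀ / 2048 * e := mul_le_mul_of_nonneg_right hρ1 he.le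
  have hee : ρ * e ≤ e := hρe.trans (mul_le_of_le_one_left he.le (by linarith))
  obtain ⟨e₀, hee₀⟩ : ∃ e₀, e₀ = ρ * e := ⟨_, rfl⟩
  rw [← hee₀] at he₀ hρe hee ⊢
  obtain ⟨δ, hδ⟩ : ∃ δ, δ = a₀ * e / 8192 := ⟨_, rfl⟩
  have hδ0 : 0 < δ := hδ ▸ by positivity
  obtain ⟨Cl, hCl, HL⟩ := lg59 P (AQ_nonneg P c₁ Q) hδ0
  obtain ⟨D1, hD1⟩ : ∃ D1, D1 = (Q * Cl + |S| + |G|) * (K : ℝ) ^ (m + 3) * (2 / (η * k)) := ⟨_, rfl⟩
  obtain ⟨D2, hD2⟩ : ∃ D2, D2 = (|Ca| * (4 * Qb * (K : ℝ) ^ (m₁ + (m + 1)) * (1 / δ)) + |X|) * (K : ℝ) ^ (m + 3) * (2 / (η * k)) := ⟨_, rfl⟩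
  filter_upwards [sc59 he he1 he₀ hee hK2 hQb (by omega : 1 ≤ Z), m8_ge59 he he1 hK2 (256 * m + 1024),
    ev59 (show 0 < e₀ / 4 by positivity) (n₁ : ℝ), ev59 (show 0 < e₀ / 4 by positivity) (n₂ : ℝ), ev59 hδ0 D1, ev59 hδ0 D2]
    with n SC hM q1 q2 q3 q4
  intro u hu huM
  have hh1 : n₁ ≤ h8 Qb e₀ n := by exact_mod_cast q1.trans SC.h1
  have hh2 : n₂ ≤ h8 Qb e₀ n := by exact_mod_cast q2.trans SC.h1
  have prc := SC.pr (by omega : 1 ≤ K) ha₀ ha1.le m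
  have hTu := SC.Tu (by omega : 1 ≤ K) huM (m + 1)
  have hn1 := SC.n1
  have hnR : (1 : ℝ) ≤ n := by exact_mod_cast hn1
  have n0 : (0 : ℝ) < n := by linarith
  obtain ⟨h, hh⟩ : ∃ h, h = h8 Qb e₀ n := ⟨_, rfl⟩
  obtain ⟨M, hMe⟩ : ∃ M, M = m8 K e n := ⟨_, rfl⟩
  rw [← hh] at hh1 hh2 hTu ⊢
  rw [← hMe] at hM prc ⊢
  have hE1 : 1 ≤ EE μ s (Tg h K (u + m + 1)) := (HB _ (hh2.trans (Tg_ge77 (by omega) (by omega)))).1
  have hw1 : 1 ≤ wd μ s (Tg h K (u + m + 1)) := (HB _ (hh2.trans (Tg_ge77 (by omega) (by omega)))).2.1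
  have hpr := (HG K (by omega) h hh1 (u + m + 1) ((M / 128 - 1) / 2 - (m + 1)) (by omega)).1.1
  rw [show u + m + 1 + ((M / 128 - 1) / 2 - (m + 1)) = u + (M / 128 - 1) / 2 by omega] at hpr
  obtain ⟨p, hp⟩ : ∃ p, p = ((K : ℝ) ^ a₀) ^ ((M / 128 - 1) / 2 - (m + 1)) := ⟨_, rfl⟩
  rw [← hp] at prc hpr
  obtain ⟨x, hx⟩ : ∃ x, x = (n : ℝ) ^ δ := ⟨_, rfl⟩
  have hx1 : 1 ≤ x := hx ▸ Real.one_le_rpow hnR hδ0.le
  have hL := HL n hn1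
  rw [← hx] at q3 q4 hL
  have h1 := levT59 (S := S) (G := G) hQ (lt_of_lt_of_le zero_lt_one hE1) hw1 hx1 hL
  obtain ⟨E, hE⟩ : ∃ E, E = EE μ s (Tg h K (u + m + 1)) := ⟨_, rfl⟩
  rw [← hE] at hE1 hpr h1 ⊢
  have e8 : (n : ℝ) ^ (a₀ * e / 1024) = x ^ 8 := by
    rw [hx, ← Real.rpow_natCast, ← Real.rpow_mul n0.le, hδ]
    congr 1
    push_cast
    ring
  have e3 : (n : ℝ) ^ (e₀ / 4) * (n : ℝ) ^ (e / (4 * Z)) ≤ x ^ 3 := by
    rw [hx, ← Real.rpow_natCast ((n : ℝ) ^ δ) 3, ← Real.rpow_mul n0.le, ← Real.rpow_add n0]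
    refine Real.rpow_le_rpow_of_exponent_le hnR ?_
    have t1 : e / (4 * Z) ≤ a₀ * e / 4096 := by
      rw [div_le_div_iff₀ (by positivity) (by norm_num)]
      linarith only [mul_le_mul_of_nonneg_left hZa he.le]
    rw [hδ]
    push_cast
    linarith
  have hlog : Real.log n ≤ x * (1 / δ) := by
    rw [hx, mul_one_div]
    exact Real.log_le_rpow_div n0.le hδ0
  have hlog0 : 0 ≤ Real.log n := Real.log_nonneg hnR
  rw [e8] at prc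
  have hKm : 0 < (K : ℝ) ^ (m + 3) := by positivity
  have p0 : 0 ≤ η * k * p / 2 := by
    rw [hp]
    positivity
  have half1 : (Q * Cl + |S| + |G|) * x * E ≤ η * k * p / 2 * E := by
    refine mul_le_mul_of_nonneg_right ?_ (by linarith)
    have t2 : (Q * Cl + |S| + |G|) * (K : ℝ) ^ (m + 3) * x ≤ η * k / 2 * (p * (K : ℝ) ^ (m + 3)) := by
      have b1 : D1 * x ≤ x ^ 8 := by
        have : x * x ≤ x ^ 8 := by
          calc x * x = x ^ 2 := by ring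
            _ ≤ x ^ 8 := pow_le_pow_right₀ hx1 (by norm_num)
        exact (mul_le_mul_of_nonneg_right q3 (by linarith)).trans this
      have b2 := b1.trans prc
      have b3 := mul_le_mul_of_nonneg_left b2 (show 0 ≤ η * k / 2 by positivity)
      refine le_trans (le_of_eq ?_) b3
      rw [hD1]
      field_simp
    rw [← mul_le_mul_iff_left₀ hKm]
    linarith only [t2]
  have half2 : Ca * (Tg h K (u + m + 1) : ℝ) * Real.log n + X ≤ η * k * p / 2 * E := by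
    have c1 : (Tg h K (u + m + 1) : ℝ) * Real.log n ≤ (4 * Qb * (K : ℝ) ^ (m₁ + (m + 1)) * x ^ 3) * (x * (1 / δ)) := by
      refine mul_le_mul ?_ hlog hlog0 (by positivity)
      exact hTu.trans (mul_le_mul_of_nonneg_left e3 (by positivity))
    have c2 : 1 ≤ x ^ 4 := one_le_pow₀ hx1
    have c3 : Ca * (Tg h K (u + m + 1) : ℝ) * Real.log n ≤ |Ca| * ((4 * Qb * (K : ℝ) ^ (m₁ + (m + 1)) * x ^ 3) * (x * (1 / δ))) := by
      rw [mul_assoc]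
      exact (mul_le_mul_of_nonneg_right (le_abs_self Ca) (by positivity)).trans (mul_le_mul_of_nonneg_left c1 (abs_nonneg _))
    have c4 : X ≤ |X| * x ^ 4 := (le_abs_self X).trans (le_mul_of_one_le_right (abs_nonneg _) c2)
    have t0 : Ca * (Tg h K (u + m + 1) : ℝ) * Real.log n + X ≤
        (|Ca| * (4 * Qb * (K : ℝ) ^ (m₁ + (m + 1)) * (1 / δ)) + |X|) * x ^ 4 := by
      refine (add_le_add c3 c4).trans (le_of_eq ?_)
      ring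
    have t2 : (|Ca| * (4 * Qb * (K : ℝ) ^ (m₁ + (m + 1)) * (1 / δ)) + |X|) * (K : ℝ) ^ (m + 3) * x ^ 4 ≤
        η * k / 2 * (p * (K : ℝ) ^ (m + 3)) := by
      have b1 : D2 * x ^ 4 ≤ x ^ 8 := by
        have : x * x ^ 4 ≤ x ^ 8 := by
          calc x * x ^ 4 = x ^ 5 := by ring
            _ ≤ x ^ 8 := pow_le_pow_right₀ hx1 (by norm_num)
        exact (mul_le_mul_of_nonneg_right q4 (by positivity)).trans this
      have b2 := b1.trans prc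
      have b3 := mul_le_mul_of_nonneg_left b2 (show 0 ≤ η * k / 2 by positivity)
      refine le_trans (le_of_eq ?_) b3
      rw [hD2]
      field_simp
    have t3 : (|Ca| * (4 * Qb * (K : ℝ) ^ (m₁ + (m + 1)) * (1 / δ)) + |X|) * x ^ 4 ≤ η * k * p / 2 := by
      rw [← mul_le_mul_iff_left₀ hKm]
      linarith only [t2]
    exact t0.trans (t3.trans (le_mul_of_one_le_right p0 hE1))
  have h7 := mul_le_mul_of_nonneg_left hpr hη.le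
  linarith only [h1, half1, half2, h7]

/-- **The widths.** -/
theorem widB59 (h0 : In μ s c C n₀) {Z : ℕ} (hZ : 1024 ≤ Z) {ρ : ℝ} (hρ : 0 < ρ) (hρ1 : ρ ≤ 1 / 2048) {e : ℝ} (he : 0 < e) (he1 : e ≤ 1 / 32)
    {K : ℕ} (hK : 2 ≤ K) (m m₁ l₂ : ℕ) {Qb : ℕ} (hQb : 1 ≤ Qb) {B : ℝ} (hB : 0 ≤ B) :
    ∀ᶠ n : ℕ in atTop, ∀ u : ℕ, 1 ≤ u → u ≤ m8 K e n / Z + m₁ →
      4 * (Tg (h8 Qb (ρ * e) n) K (u + m8 K e n / 16) : ℝ) + wd μ s (Tg (h8 Qb (ρ * e) n) K u) * B + 2 ≤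
        wd μ s (Tg (h8 Qb (ρ * e) n) K (m8 K e n / 2)) ∧
      4 * (Tg (h8 Qb (ρ * e) n) K (u + m8 K e n / 128) : ℝ) + (2 * wd μ s (Tg (h8 Qb (ρ * e) n) K (u + m8 K e n / 128 + m)) +
          wd μ s (Tg (h8 Qb (ρ * e) n) K u) * B) + 2 ≤ wd μ s (Tg (h8 Qb (ρ * e) n) K (u + m + 1 + m8 K e n / 16)) ∧
      4 * (Tg (h8 Qb (ρ * e) n) K (u + m + 1) : ℝ) + wd μ s (Tg (h8 Qb (ρ * e) n) K u) * B + 2 ≤
        wd μ s (Tg (h8 Qb (ρ * e) n) K (u + m + 1 + m8 K e n / 16)) ∧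
      2 * wd μ s (Tg (h8 Qb (ρ * e) n) K (u + m + 1 + l₂)) ≤ 2 * (Tg (h8 Qb (ρ * e) n) K (u + m + 1) : ℝ) := by
  obtain ⟨a₀, k, ha₀, ha1, hk, hk1, n₁, hn₁, HG⟩ := grow77 h0
  have hKR : (1 : ℝ) ≤ K := by exact_mod_cast (by omega : 1 ≤ K)
  have hK0 : (0 : ℝ) < K := by linarith
  obtain ⟨n₂, hn₂, HB⟩ := big59 h0 (show (0 : ℝ) < 1 by norm_num)
  obtain ⟨n₃, hn₃, HB'⟩ := big59 h0 (show (0 : ℝ) < k / (K : ℝ) ^ l₂ by positivity)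
  have hZR : (1024 : ℝ) ≤ Z := by exact_mod_cast hZ
  have he₀ : 0 < ρ * e := by positivity
  have hee : ρ * e ≤ 1 / 2048 * e := mul_le_mul_of_nonneg_right hρ1 he.le
  obtain ⟨e₀, hee₀⟩ : ∃ e₀, e₀ = ρ * e := ⟨_, rfl⟩
  rw [← hee₀] at he₀ hee ⊢
  obtain ⟨U, hU⟩ : ∃ U : ℝ, U = 4 * Qb * (K : ℝ) ^ m₁ := ⟨_, rfl⟩
  have hU0 : 0 ≤ U := hU ▸ by positivity
  obtain ⟨D, hD⟩ : ∃ D : ℝ, D = (4 * U + 2 * (U * (K : ℝ) ^ m) + 4 * (U * (K : ℝ) ^ (m + 1)) + B * U + 2) * K := ⟨_, rfl⟩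
  filter_upwards [sc59 he he1 he₀ (by linarith : e₀ ≤ e) hK hQb (by omega : 1 ≤ Z),
    ev59 (show 0 < e₀ / 4 by positivity) (n₁ : ℝ), ev59 (show 0 < e₀ / 4 by positivity) (n₂ : ℝ),
    ev59 (show 0 < e₀ / 4 by positivity) (n₃ : ℝ), ev59 (show 0 < e / 8192 by positivity) D,
    m8_ge59 he he1 hK 2] with n SC q1 q2 q3 q4 hM2
  intro u hu huM
  have hh1 : n₁ ≤ h8 Qb e₀ n := by exact_mod_cast q1.trans SC.h1
  have hh2 : n₂ ≤ h8 Qb e₀ n := by exact_mod_cast q2.trans SC.h1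
  have hh3 : n₃ ≤ h8 Qb e₀ n := by exact_mod_cast q3.trans SC.h1
  have T0 := SC.Tu (by omega : 1 ≤ K) huM 0
  have T1 := SC.Tu (by omega : 1 ≤ K) huM (m8 K e n / 16)
  have T2 := SC.Tu (by omega : 1 ≤ K) huM (m8 K e n / 128)
  have T2' := SC.Tu (by omega : 1 ≤ K) huM (m8 K e n / 128 + m)
  have T3 := SC.Tu (by omega : 1 ≤ K) huM (m + 1)
  have k16 := SC.k16
  have l16 := SC.l16
  have k128 := SC.k128
  have kM := SC.l2
  have hn1 := SC.n1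
  have hnR : (1 : ℝ) ≤ n := by exact_mod_cast hn1
  have n0 : (0 : ℝ) < n := by linarith
  obtain ⟨h, hh⟩ : ∃ h, h = h8 Qb e₀ n := ⟨_, rfl⟩
  obtain ⟨M, hMe⟩ : ∃ M, M = m8 K e n := ⟨_, rfl⟩
  rw [← hh] at hh1 hh2 hh3 T0 T1 T2 T2' T3 ⊢
  rw [← hMe] at huM hM2 T1 T2 T2' k16 l16 k128 kM ⊢
  have hM1 : 1 ≤ M / 2 := by omega
  rw [add_zero] at T0
  obtain ⟨x, hx⟩ : ∃ x, x = (n : ℝ) ^ (e / 8192) := ⟨_, rfl⟩
  have hx1 : 1 ≤ x := hx ▸ Real.one_le_rpow hnR (by positivity)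
  rw [← hx] at q4
  have px : ∀ j : ℕ, x ^ j = (n : ℝ) ^ (e / 8192 * j) := fun j => by
    rw [hx, ← Real.rpow_natCast, ← Real.rpow_mul n0.le]
  have e3 : (n : ℝ) ^ (e₀ / 4) * (n : ℝ) ^ (e / (4 * Z)) ≤ x ^ 3 := by
    rw [px, ← Real.rpow_add n0]
    refine Real.rpow_le_rpow_of_exponent_le hnR ?_
    have t1 : e / (4 * Z) ≤ e / 4096 := div_le_div_of_nonneg_left he.le (by norm_num) (by linarith)
    push_cast
    linarith
  have e128 : (K : ℝ) ^ (M / 16) ≤ x ^ 128 := by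
    rw [px]
    refine k16.trans (le_of_eq ?_)
    congr 1
    push_cast
    ring
  have e16 : (K : ℝ) ^ (M / 128) ≤ x ^ 16 := by
    rw [px]
    refine k128.trans (le_of_eq ?_)
    congr 1
    push_cast
    ring
  -- the scales
  have bnd : ∀ {Tv Y : ℝ} {y j : ℕ}, Tv ≤ 4 * Qb * (K : ℝ) ^ (m₁ + y) * ((n : ℝ) ^ (e₀ / 4) * (n : ℝ) ^ (e / (4 * Z))) →
      (K : ℝ) ^ y ≤ Y * x ^ j → Tv ≤ U * Y * x ^ (j + 3) := fun {Tv Y y j} h1 h2 => by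
    refine h1.trans ?_
    rw [pow_add (K : ℝ), hU]
    have h3 := mul_le_mul h2 e3 (by positivity) (le_trans (by positivity) h2)
    have h4 := mul_le_mul_of_nonneg_left h3 (show 0 ≤ 4 * (Qb : ℝ) * (K : ℝ) ^ m₁ by positivity)
    calc 4 * (Qb : ℝ) * ((K : ℝ) ^ m₁ * (K : ℝ) ^ y) * ((n : ℝ) ^ (e₀ / 4) * (n : ℝ) ^ (e / (4 * Z))) =
        4 * (Qb : ℝ) * (K : ℝ) ^ m₁ * ((K : ℝ) ^ y * ((n : ℝ) ^ (e₀ / 4) * (n : ℝ) ^ (e / (4 * Z)))) := by ring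
      _ ≤ _ := h4
      _ = _ := by
        rw [pow_add x]
        ring
  have S0 : (Tg h K u : ℝ) ≤ U * x ^ 19 := by
    have h1 := bnd (y := 0) (Y := 1) (j := 0) T0 (by simp)
    rw [mul_one] at h1
    exact h1.trans (mul_le_mul_of_nonneg_left (pow_le_pow_right₀ hx1 (by norm_num)) hU0)
  have S1 : (Tg h K (u + M / 16) : ℝ) ≤ U * x ^ 131 := by
    have h1 := bnd (y := M / 16) (Y := 1) (j := 128) T1 (by rw [one_mul]; exact e128)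
    rwa [mul_one] at h1
  have S2 : (Tg h K (u + M / 128) : ℝ) ≤ U * x ^ 19 := by
    have h1 := bnd (y := M / 128) (Y := 1) (j := 16) T2 (by rw [one_mul]; exact e16)
    rwa [mul_one] at h1
  have S2' : (Tg h K (u + M / 128 + m) : ℝ) ≤ U * (K : ℝ) ^ m * x ^ 19 := by
    have h1 := bnd (y := M / 128 + m) (Y := (K : ℝ) ^ m) (j := 16) T2' (by
      rw [pow_add, mul_comm]
      exact mul_le_mul_of_nonneg_left e16 (by positivity))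
    rwa [← add_assoc] at h1
  have S3 : (Tg h K (u + m + 1) : ℝ) ≤ U * (K : ℝ) ^ (m + 1) * x ^ 19 := by
    have h1 := bnd (y := m + 1) (Y := (K : ℝ) ^ (m + 1)) (j := 0) T3 (by simp)
    rw [← add_assoc] at h1
    exact h1.trans (mul_le_mul_of_nonneg_left (pow_le_pow_right₀ hx1 (by norm_num)) (by positivity))
  have wT : ∀ v, 1 ≤ v → wd μ s (Tg h K v) ≤ Tg h K v := fun v hv => by
    have := (HB (Tg h K v) (hh2.trans (Tg_ge77 (by omega) hv))).2.2.1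
    linarith
  -- a width from below
  have lowW : ∀ {v j : ℕ}, 1 ≤ v → x ^ (4 * j) ≤ (K : ℝ) ^ (v + 1) → x ^ j ≤ wd μ s (Tg h K v) * K := fun {v j} hv hj => by
    have hTM := HB (Tg h K v) (hh2.trans (Tg_ge77 (by omega) hv))
    have w0 : 0 ≤ wd μ s (Tg h K v) := by linarith [hTM.2.1]
    refine root59 (by positivity) (by positivity) (N := 4) (by norm_num) ?_
    have t1 : (Tg h K v : ℝ) ≤ wd μ s (Tg h K v) ^ 4 := by
      have t2 := pow_le_pow_left₀ (by positivity) hTM.2.2.2 4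
      rwa [← Real.rpow_natCast ((Tg h K v : ℝ) ^ (1 / 4 : ℝ)) 4, ← Real.rpow_mul (Nat.cast_nonneg _), show (1 / 4 : ℝ) * ((4 : ℕ) : ℝ) = 1 by
        norm_num, Real.rpow_one] at t2
    have t3 : x ^ (4 * j) ≤ (Tg h K v : ℝ) * K := by
      rw [Tg_pos hv]
      push_cast
      have hh1' : (1 : ℝ) ≤ h := by exact_mod_cast hn₁.trans hh1
      rw [pow_succ] at hj
      have t5 : 0 ≤ (K : ℝ) ^ v * K := by positivity
      calc x ^ (4 * j) ≤ 1 * ((K : ℝ) ^ v * K) := by linarith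
        _ ≤ (2 * h) * ((K : ℝ) ^ v * K) := mul_le_mul_of_nonneg_right (by linarith) t5
        _ = _ := by ring
    calc (x ^ j) ^ 4 = x ^ (4 * j) := by rw [← pow_mul, mul_comm]
      _ ≤ (Tg h K v : ℝ) * K := t3
      _ ≤ wd μ s (Tg h K v) ^ 4 * K := mul_le_mul_of_nonneg_right t1 hK0.le
      _ ≤ wd μ s (Tg h K v) ^ 4 * (K : ℝ) ^ 4 := mul_le_mul_of_nonneg_left (le_self_pow₀ hKR (by norm_num)) (by positivity)
      _ = _ := by rw [mul_pow]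
  have WM : x ^ 256 ≤ wd μ s (Tg h K (M / 2)) * K := lowW hM1 (by
    rw [px]
    refine le_trans (le_of_eq ?_) kM
    congr 1
    push_cast
    ring)
  have WL : x ^ 32 ≤ wd μ s (Tg h K (u + m + 1 + M / 16)) * K := lowW (by omega) (by
    have t1 : x ^ (4 * 32) ≤ (K : ℝ) ^ (M / 16 + 1) := by
      rw [px]
      refine le_trans (le_of_eq ?_) l16
      congr 1
      push_cast
      ring
    exact t1.trans (pow_le_pow_right₀ hKR (by omega)))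
  have key : ∀ {j j' : ℕ} {V : ℝ}, j + 1 ≤ j' → x ^ j' ≤ V * K →
      (4 * U + 2 * (U * (K : ℝ) ^ m) + 4 * (U * (K : ℝ) ^ (m + 1)) + B * U + 2) * x ^ j ≤ V := fun {j j' V} hj hV => by
    have t1 : D * x ^ j ≤ x ^ j' := by
      calc D * x ^ j ≤ x * x ^ j := mul_le_mul_of_nonneg_right q4 (by positivity)
        _ = x ^ (j + 1) := by ring
        _ ≤ x ^ j' := pow_le_pow_right₀ hx1 hj
    have t2 := t1.trans hV
    rw [← mul_le_mul_iff_left₀ hK0]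
    refine le_trans (le_of_eq ?_) t2
    rw [hD]
    ring
  have kA := key (show 131 + 1 ≤ 256 by norm_num) WM
  have kB := key (show 19 + 1 ≤ 32 by norm_num) WL
  have hX1 : 1 ≤ x ^ 19 := one_le_pow₀ hx1
  have hX2 : x ^ 19 ≤ x ^ 131 := pow_le_pow_right₀ hx1 (by norm_num)
  have hDu : wd μ s (Tg h K u) * B ≤ B * U * x ^ 19 := by
    rw [mul_comm, mul_assoc]
    exact mul_le_mul_of_nonneg_left ((wT u hu).trans S0) hB
  have hDu2 : B * U * x ^ 19 ≤ B * U * x ^ 131 := mul_le_mul_of_nonneg_left hX2 (by positivity)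
  have u1 : 0 ≤ U * (K : ℝ) ^ m * x ^ 19 := by positivity
  have u2 : 0 ≤ U * (K : ℝ) ^ (m + 1) * x ^ 19 := by positivity
  have u3 : 0 ≤ U * x ^ 19 := by positivity
  have v1 : 0 ≤ U * (K : ℝ) ^ m * x ^ 131 := by positivity
  have v2 : 0 ≤ U * (K : ℝ) ^ (m + 1) * x ^ 131 := by positivity
  have w2 := wT (u + M / 128 + m) (by omega)
  refine ⟨by linarith only [kA, hX1, hX2, hDu, hDu2, v1, v2, S1], by linarith only [kB, hX1, hDu, u1, u2, u3, S2, S2', w2],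
    by linarith only [kB, hX1, hDu, u1, u2, u3, S3], ?_⟩
  have g1 := (HG K (by omega) h hh1 (u + m + 1) l₂ (by omega)).2.2
  have g2 := (HB' (Tg h K (u + m + 1)) (hh3.trans (Tg_ge77 (by omega) (by omega)))).2.2.1
  have g3 : k * wd μ s (Tg h K (u + m + 1 + l₂)) ≤ k * (Tg h K (u + m + 1) : ℝ) := by
    refine g1.trans ?_
    have g4 := mul_le_mul_of_nonneg_left g2 (show 0 ≤ (K : ℝ) ^ l₂ by positivity)
    refine g4.trans (le_of_eq ?_)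
    field_simp
  have g5 := le_of_mul_le_mul_left g3 hk
  linarith

/-- **THE TOP SHELL**, `M = m8 K e n`, `h = h8 Qb (ρ e) n`, `o = u + m + 1`, `L = M / 16`, `lT = M / 128`, `Mt = M / 2`. (1) the losses of the top against
the price of the scale `u + (lT - 1) / 2`; (2) - (4) the widths; (5) a width against its scale. -/
theorem numT59 (h0 : In μ s c C n₀) : ∃ Z₀ : ℕ, 1024 ≤ Z₀ ∧ ∃ ρ₁ : ℝ, 0 < ρ₁ ∧ ρ₁ ≤ 1 / 2048 ∧ ∀ Z : ℕ, Z₀ ≤ Z → ∀ ρ : ℝ, 0 < ρ → ρ ≤ ρ₁ →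
    ∀ e : ℝ, 0 < e → e ≤ 1 / 32 → ∀ K : ℕ, 2 ≤ K → ∀ (m m₁ l₂ P Qb : ℕ) (c₁ Q S Ca η G X B : ℝ), 1 ≤ Qb → 0 ≤ Q → 0 < η → 0 ≤ B →
    ∀ᶠ n : ℕ in atTop, ∀ u : ℕ, 1 ≤ u → u ≤ m8 K e n / Z + m₁ →
      (lev31 P c₁ Q S (EE μ s (Tg (h8 Qb (ρ * e) n) K (u + m + 1))) (wd μ s (Tg (h8 Qb (ρ * e) n) K (u + m + 1))) ((n : ℝ) ^ 4) +
          Ca * (Tg (h8 Qb (ρ * e) n) K (u + m + 1) : ℝ) * Real.log n + G * EE μ s (Tg (h8 Qb (ρ * e) n) K (u + m + 1)) + X ≤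
        η * EE μ s (Tg (h8 Qb (ρ * e) n) K (u + (m8 K e n / 128 - 1) / 2))) ∧
      4 * (Tg (h8 Qb (ρ * e) n) K (u + m8 K e n / 16) : ℝ) + wd μ s (Tg (h8 Qb (ρ * e) n) K u) * B + 2 ≤
        wd μ s (Tg (h8 Qb (ρ * e) n) K (m8 K e n / 2)) ∧
      4 * (Tg (h8 Qb (ρ * e) n) K (u + m8 K e n / 128) : ℝ) + (2 * wd μ s (Tg (h8 Qb (ρ * e) n) K (u + m8 K e n / 128 + m)) +
          wd μ s (Tg (h8 Qb (ρ * e) n) K u) * B) + 2 ≤ wd μ s (Tg (h8 Qb (ρ * e) n) K (u + m + 1 + m8 K e n / 16)) ∧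
      4 * (Tg (h8 Qb (ρ * e) n) K (u + m + 1) : ℝ) + wd μ s (Tg (h8 Qb (ρ * e) n) K u) * B + 2 ≤
        wd μ s (Tg (h8 Qb (ρ * e) n) K (u + m + 1 + m8 K e n / 16)) ∧
      2 * wd μ s (Tg (h8 Qb (ρ * e) n) K (u + m + 1 + l₂)) ≤ 2 * (Tg (h8 Qb (ρ * e) n) K (u + m + 1) : ℝ) := by
  obtain ⟨Z₀, hZ₀, ρ₁, hρ₁, hρ₂, H⟩ := topA59 h0
  refine ⟨Z₀, hZ₀, ρ₁, hρ₁, hρ₂, fun Z hZ ρ hρ hρ1 e he he1 K hK m m₁ l₂ P Qb c₁ Q S Ca η G X B hQb hQ hη hB => ?_⟩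
  filter_upwards [H Z hZ ρ hρ hρ1 e he he1 K hK m m₁ P Qb c₁ Q S Ca η G X hQb hQ hη,
    widB59 h0 (hZ₀.trans hZ) hρ (hρ1.trans hρ₂) he he1 hK m m₁ l₂ hQb hB] with n h1 h2 u hu huM
  exact ⟨h1 u hu huM, h2 u hu huM⟩

end

end Pool.Agent.W_7d29a1_C1.H59T
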