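import Pool.Agent.W_7d29a1_C1.NdB74
import Pool.Agent.W_7d29a1_C1.NumT59

/-!
MP_7d29a1_pr, attractor route [C1], field `nu`: **THE CONSTANTS OF `V8` AND OF `vt31`** (helper74, for helper31 / helper77 / helper90).
**`nd74`** : all constants in the order of `TdQ51`, the record `nu74` with its bounds `NB8`, and `Nu31` for `d74`.
-/

set_option autoImplicit false

namespace Pool.Agent.W_7d29a1_C1.P74

open MeasureTheory Finset Filter Topology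
open Pool.Agent.W_7d29a1_F Pool.Agent.W_7d29a1_h4g Pool.Agent.W_7d29a1_H Pool.Agent.W_7d29a1_HS
open Pool.Agent.W_7d29a1_C1.H75 Pool.Agent.W_7d29a1_C1.U16
open Pool.Agent.W_7d29a1_C1.FarK89 Pool.Agent.W_7d29a1_C1.FarW89
open Pool.Agent.W_7d29a1_C1.T10 (Tg Tg_pos Tg_mono)
open Pool.Agent.W_7d29a1_C1.H60 (Cx)
open Pool.Agent.W_7d29a1_C1.G37 (Gm)
open Pool.Agent.W_7d29a1_C1.H56 (aT56 numS56 slope56)
open Pool.Agent.W_7d29a1_C1.H8 (KV8 NB8 h8 m8)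
open Pool.Agent.W_7d29a1_C1.H77
open Pool.Agent.W_7d29a1_C1.D31

noncomputable section

variable {μ : Measure ℝ} [IsProbabilityMeasure μ] {s c C : ℝ} {n₀ : ℕ}

/-- **THE NUMBERS `ν` ARE WITHIN THE CONSTANTS.** -/
theorem nb74 {K : ℕ} (hK : 2 ≤ K) {a kk : ℝ} {nW : ℕ}
    (HW : ∀ K : ℕ, 1 ≤ K → ∀ h₀ : ℕ, nW ≤ h₀ → ∀ o l : ℕ, 1 ≤ o → 1 ≤ wd μ s (Tg h₀ K o) ∧
      wd μ s (Tg h₀ K (o + l)) ≤ (K : ℝ) ^ l / kk * wd μ s (Tg h₀ K o) ∧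
      kk * ((K : ℝ) ^ a) ^ l * wd μ s (Tg h₀ K o) ≤ wd μ s (Tg h₀ K (o + l)) ∧
      EE μ s (Tg h₀ K (o + l)) ≤ (K : ℝ) ^ l / kk * EE μ s (Tg h₀ K o) ∧
      kk * ((K : ℝ) ^ a) ^ l * EE μ s (Tg h₀ K o) ≤ EE μ s (Tg h₀ K (o + l)))
    {k : Ks74} (hm₁ : 1 ≤ k.m₁) (hσ : 0 ≤ k.σ) {w₁ w₁' w₂ q₁ q₂ kst gf u c₁ c₃ QV SV : ℝ} {PV : ℕ}
    (hw₁ : (K : ℝ) ^ k.l₁ / kk ≤ w₁) (hw₂ : (K : ℝ) ^ k.l₂ / kk ≤ w₂) (hq₁ : k.r k.l' + 2 * k.σ * w₁' ≤ q₁)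
    (hq₂ : k.r k.l₂ + 2 * k.σ * w₂ ≤ q₂) {h₀ : ℕ} (hh : nW ≤ h₀)
    (h21 : ∀ o, 1 ≤ o → w₁' * wd μ s (Tg h₀ K o) ≤ wd μ s (Tg h₀ K (o + k.l₂))) :
    NB8 μ s (Tg h₀ K) (k.m + k.m₁) ⟨PV, c₁, c₃, QV, SV, w₁, w₁', w₂, kst, q₁, q₂, gf, u⟩
      (nu74 μ s (Tg h₀ K) k ⟨PV, c₁, c₃, QV, SV, w₁, w₁', w₂, kst, q₁, q₂, gf, u⟩) := by
  have hw : ∀ t, 1 ≤ wd μ s (Tg h₀ K (t + (k.m + k.m₁))) := fun t => (HW K (by omega) h₀ hh _ 0 (by omega)).1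
  have hE : ∀ t, 0 < EE μ s (Tg h₀ K (t + (k.m + k.m₁))) := fun t => EE_pos _
  refine
    { eT := rfl, em := rfl, hj := le_rfl, eP := rfl, ec₁ := rfl, ec₃ := rfl, eQ := rfl, eS := rfl, eE := fun _ => rfl, ew := fun _ => rfl
      hW1 := fun t => ?_, eW1' := fun _ => rfl, hW2 := fun t => ?_, hW21 := fun t => ?_, hg := fun _ => le_rfl, hq₁ := fun t => ?_
      hq₂ := fun t => ?_, hgf := fun _ => le_rfl }
  · exact ((HW K (by omega) h₀ hh _ k.l₁ (by omega)).2.1).trans (mul_le_mul_of_nonneg_right hw₁ (by linarith [hw t]))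
  · exact ((HW K (by omega) h₀ hh _ k.l₂ (by omega)).2.1).trans (mul_le_mul_of_nonneg_right hw₂ (by linarith [hw t]))
  · exact h21 _ (by omega)
  · show k.r k.l' * EE μ s (Tg h₀ K (t + (k.m + k.m₁))) + 2 * (k.σ * (EE μ s (Tg h₀ K (t + (k.m + k.m₁))) /
      wd μ s (Tg h₀ K (t + (k.m + k.m₁))))) * (w₁' * wd μ s (Tg h₀ K (t + (k.m + k.m₁)))) ≤ q₁ * EE μ s (Tg h₀ K (t + (k.m + k.m₁)))
    have h1 := hw t
    rw [slp74 (by linarith)]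
    have := mul_le_mul_of_nonneg_right hq₁ (hE t).le
    linarith
  · show k.r k.l₂ * EE μ s (Tg h₀ K (t + (k.m + k.m₁))) + 2 * (k.σ * (EE μ s (Tg h₀ K (t + (k.m + k.m₁))) /
      wd μ s (Tg h₀ K (t + (k.m + k.m₁))))) * wd μ s (Tg h₀ K (t + (k.m + k.m₁) + k.l₂)) ≤ q₂ * EE μ s (Tg h₀ K (t + (k.m + k.m₁)))
    have h1 := hw t
    have h2 := (HW K (by omega) h₀ hh (t + (k.m + k.m₁)) k.l₂ (by omega)).2.1
    have h3 : wd μ s (Tg h₀ K (t + (k.m + k.m₁) + k.l₂)) ≤ w₂ * wd μ s (Tg h₀ K (t + (k.m + k.m₁))) :=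
      h2.trans (mul_le_mul_of_nonneg_right hw₂ (by linarith))
    have h4 : 0 ≤ 2 * (k.σ * (EE μ s (Tg h₀ K (t + (k.m + k.m₁))) / wd μ s (Tg h₀ K (t + (k.m + k.m₁))))) := by
      have := hE t
      positivity
    have h5 := mul_le_mul_of_nonneg_left h3 h4
    rw [slp74 (by linarith)] at h5
    have := mul_le_mul_of_nonneg_right hq₂ (hE t).le
    linarith

/-- **THE CONSTANTS OF THE FIELD `nu`** (order of `TdQ51`). -/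
theorem nd74 (h0 : In μ s c C n₀) {Φ σ : ℝ} (hΦ : 1 ≤ Φ) (hσ : 0 ≤ σ) (hσc : σ ≤ c / 64) :
    ∃ (Z₀ : ℕ) (ρ₁ : ℝ), 0 < ρ₁ ∧ ∀ Z : ℕ, Z₀ ≤ Z → ∀ ρ : ℝ, 0 < ρ → ρ ≤ ρ₁ → ∀ e : ℝ, 0 < e → e ≤ 1 / 32 →
    ∃ K₁ : ℕ, 3 ≤ K₁ ∧ ∀ K : ℕ, K₁ ≤ K → ∀ (P B : ℕ) (C₅ C₆ D₅ D₆ Q Kw A : ℝ), 0 ≤ C₅ → 0 ≤ C₆ → 0 ≤ D₅ → 0 ≤ D₆ → 0 ≤ Q → 2 ≤ Kw →
      0 ≤ A → 1 ≤ B → ∃ mb : ℕ, ∀ m : ℕ, mb ≤ m → ∀ η X : ℝ, 0 < η → 0 ≤ X → ∃ kst : ℝ, 0 < kst ∧ ∀ m₁ : ℕ, 1 ≤ m₁ →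
      ∃ w₁ : ℝ, 0 < w₁ ∧ ∀ w₁' : ℝ, w₁ ≤ w₁' → ∃ q₁ : ℝ, 0 < q₁ ∧ ∀ (PV : ℕ) (c₁ c₃ QV SV gf u : ℝ), 0 < c₁ → σ ≤ c₃ - c₁ → 0 < QV →
      0 < SV → 0 < gf → ∃ w₂ q₂ : ℝ, w₁' ≤ w₂ ∧ 0 < q₂ ∧ ∃ k : Ks74, k.m = m ∧ k.m₁ = m₁ ∧ k.l₁ = 2 * m + 5 ∧ k.A = A ∧ k.Φ = Φ ∧
        k.σ = σ ∧ k.η = η ∧ k.X = X ∧ ∀ Qb : ℕ, 1 ≤ Qb → ∀ Cη : ℝ, 0 ≤ Cη → ∀ᶠ n : ℕ in atTop,
        NB8 μ s (Tg (h8 Qb (ρ * e) n) K) (m + m₁) ⟨PV, c₁, c₃, QV, SV, w₁, w₁', w₂, kst, q₁, q₂, gf, u⟩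
          (nu74 μ s (Tg (h8 Qb (ρ * e) n) K) k ⟨PV, c₁, c₃, QV, SV, w₁, w₁', w₂, kst, q₁, q₂, gf, u⟩) ∧
        ∀ t : ℕ, 2 ≤ t → t ≤ m8 K e n / Z → ∀ (lm : ℕ) (GS : Gm) (Γ : Cx) (Lη Bp R : ℝ) (κv : ℕ → ℝ), m8 K e n / 16 ≤ lm →
          (∀ v, 1 ≤ v → GS.w v = wd μ s (Tg (h8 Qb (ρ * e) n) K v)) → ((Icc (0 : ℤ) Γ.hi).card : ℝ) ≤ (n : ℝ) ^ (4 : ℕ) →
          Lη ≤ Cη * Real.log n → Bp ≤ Cη * Real.log n → |Γ.h| ≤ Cη → 0 ≤ R → R ≤ (n : ℝ) ^ (4 : ℕ) →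
          (∀ v, k.o t + 1 ≤ v → v ≤ k.u t + lm → η * EE μ s (Tg (h8 Qb (ρ * e) n) K v) - X ≤ κv v) →
          (kst * EE μ s (Tg (h8 Qb (ρ * e) n) K (k.o t)) + 3) / 2 ≤ η * EE μ s (Tg (h8 Qb (ρ * e) n) K (k.u t)) - X ∧
          Nu31 μ s c P Q Kw C₅ C₆ D₅ D₆ GS B (h8 Qb (ρ * e) n) K Γ
            (nu74 μ s (Tg (h8 Qb (ρ * e) n) K) k ⟨PV, c₁, c₃, QV, SV, w₁, w₁', w₂, kst, q₁, q₂, gf, u⟩) t
            (d74 μ s (h8 Qb (ρ * e) n) K B k ⟨PV, c₁, c₃, QV, SV, w₁, w₁', w₂, kst, q₁, q₂, gf, u⟩ Γ.h t (m8 K e n / 2) (m8 K e n / 16)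
              (m8 K e n / 128) lm Lη Bp R κv) := by
  obtain ⟨Z₀, hZ₀, ρ₁, hρ₁, hρ₁1, HT⟩ := H59T.numT59 h0
  obtain ⟨δ, hδ, KS, hKS, HS⟩ := numS56 h0 hΦ hσ hσc
  obtain ⟨KL, hKL, HL⟩ := numL77 h0 hΦ
  obtain ⟨KP, hKP, HP⟩ := price74 h0
  obtain ⟨KM, hKM, nM, hnM, HM⟩ := wmono74 h0
  obtain ⟨aW, kk, haW, hkk, hkk1, nW, hnW, HW⟩ := wid74 h0
  refine ⟨Z₀, ρ₁, hρ₁, fun Z hZ ρ hρ hρ1 e he he1 => ⟨max (max KS KL) (max (max KP KM) 3), ?_, fun K hK P B C₅ C₆ D₅ D₆ Q Kw A hC₅ hC₆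
    hD₅ hD₆ hQ hKw hA hB => ?_⟩⟩
  · exact (le_max_right _ _).trans (le_max_right _ _)
  have kS : KS ≤ K := ((le_max_left _ _).trans (le_max_left _ _)).trans hK
  have kL : KL ≤ K := ((le_max_right _ _).trans (le_max_left _ _)).trans hK
  have kP : KP ≤ K := (((le_max_left _ _).trans (le_max_left _ _)).trans (le_max_right _ _)).trans hK
  have kM : KM ≤ K := (((le_max_right _ _).trans (le_max_left _ _)).trans (le_max_right _ _)).trans hK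
  have k3 : 3 ≤ K := ((le_max_right _ _).trans (le_max_right _ _)).trans hK
  have k2 : 2 ≤ K := by omega
  have k1 : 1 ≤ K := by omega
  have hKR : (1 : ℝ) < K := by exact_mod_cast (by omega : 1 < K)
  have hK0 : (0 : ℝ) < K := by linarith
  have he₀ : 0 < ρ * e := mul_pos hρ he
  have hBR : (1 : ℝ) ≤ B := by exact_mod_cast hB
  obtain ⟨mS, HS⟩ := HS K kS P C₅ C₆ Q Kw A (2 * B) hC₅ hC₆ hQ hKw hA (by linarith)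
  have hX1 : 1 < (K : ℝ) ^ aW := Real.one_lt_rpow hKR haW
  obtain ⟨mD, hmD⟩ := pow_unbounded_of_one_lt ((2 * B + 2) / kk) hX1
  refine ⟨max mS mD, fun m hm η X hη hX => ?_⟩
  obtain ⟨nS, hnS, HS⟩ := HS m ((le_max_left _ _).trans hm)
  have hmD' : mD ≤ m + 1 := ((le_max_right _ _).trans hm).trans (by omega)
  obtain ⟨kst, hkst, nk, hnk, Hk⟩ := kst77 h0 K m k1 hη
  refine ⟨kst, hkst, fun m₁ hm₁ => ⟨(K : ℝ) ^ (2 * m + 5) / kk, by positivity, fun w₁' hw₁' => ?_⟩⟩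
  have hw₁'0 : 0 < w₁' := lt_of_lt_of_le (by positivity) hw₁'
  obtain ⟨l', n', hn', Hl'⟩ := w1_74 h0 k2 w₁'
  have hΦ0 : 0 < Φ := by linarith
  refine ⟨A * Φ ^ (l' + 1) + 2 + 2 * σ * w₁', by positivity, fun PV c₁ c₃ QV SV gf u hc₁ hc₃ hQV hSV hgf => ?_⟩
  obtain ⟨Qa, na, hQa, hna, Ha⟩ := lvl74 h0 P K k1 hKw hD₆ hQ
  obtain ⟨U₁, nu, hU₁, hnu, Hu⟩ := lvu74 h0 P K (2 * m + 5) k1 hD₅ hQ
  obtain ⟨G, hG⟩ : ∃ G, G = 2 * (A * Φ ^ (l' + 1) + 2 + 2 * σ * w₁') + U₁ + gf + 1 := ⟨_, rfl⟩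
  have hG0 : 0 ≤ G := by rw [hG]; positivity
  obtain ⟨l₂', hl₂', nL, hnL, HL⟩ := HL K kL PV (2 * P) m c₁ QV SV 1 A 2 Qa η (G + 1) hc₁ hQV.le hSV.le one_pos hη
  obtain ⟨l₂, hl₂⟩ : ∃ l₂, l₂ = max l₂' (l' + 1) := ⟨_, rfl⟩
  have b1 : l₂' ≤ l₂ := hl₂ ▸ le_max_left _ _
  have b2 : l' + 1 ≤ l₂ := hl₂ ▸ le_max_right _ _
  obtain ⟨w₂, hw₂⟩ : ∃ w₂, w₂ = max w₁' ((K : ℝ) ^ l₂ / kk) := ⟨_, rfl⟩
  have w21 : w₁' ≤ w₂ := hw₂ ▸ le_max_left _ _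
  have w22 : (K : ℝ) ^ l₂ / kk ≤ w₂ := hw₂ ▸ le_max_right _ _
  have hw₂0 : 0 < w₂ := lt_of_lt_of_le hw₁'0 w21
  obtain ⟨nσ, hnσ⟩ := eventually_atTop.1 ((wd_tendsto h0).eventually_ge_atTop σ)
  refine ⟨w₂, A * Φ ^ (l₂ + 1) + 2 + 2 * σ * w₂, w21, by positivity, ⟨m, m₁, 2 * m + 5, l₂, l', 2 * P, A, Φ, σ, δ, η, X, Qa, U₁, G⟩, rfl,
    rfl, rfl, rfl, rfl, rfl, rfl, rfl, fun Qb hQb Cη hCη => ?_⟩
  have hlam : 0 ≤ |lam μ s| := abs_nonneg _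
  filter_upwards [h8_big he₀ hQb nM, h8_big he₀ hQb nW, h8_big he₀ hQb nS, h8_big he₀ hQb nk, h8_big he₀ hQb n', h8_big he₀ hQb na,
    h8_big he₀ hQb nu, h8_big he₀ hQb nL, h8_big he₀ hQb nσ,
    HT Z hZ ρ hρ hρ1 e he he1 K k2 m m₁ l₂ PV Qb c₁ QV SV (7 * Cη + 2 * |lam μ s|) η G (X + 2) (2 * B) hQb hQV.le hη (by linarith),
    HP K kP he₀ hQb hη (X + 4), big74 h0 he₀ k1 hQb one_pos Cη 0, big74 h0 he₀ k1 hQb one_pos 0 (X + 2),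
    big74 h0 he₀ k1 hQb hkst 0 5, big74 h0 he₀ k1 hQb hη 0 (2 * X + 3), hnum74 h0 he₀ k1 hQb,
    m8_big he k2 (max (16 * (l₂ + 1)) (max (128 * (2 * m + 5)) (4 * (m + m₁) + 8))), eventually_ge_atTop 3]
    with n n1 n2 n3 n4 n5 n6 n7 n8 n9 eT eP eL eX e5 e2X eN eM hn3
  have hn1 : 1 ≤ n := by omega
  have hnR : (1 : ℝ) ≤ n := by exact_mod_cast hn1
  have hlog : 1 ≤ Real.log n := by
    have h3 : (3 : ℝ) ≤ n := by exact_mod_cast hn3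
    rw [Real.le_log_iff_exp_le (by positivity)]
    have h2 := Real.exp_one_lt_d9
    linarith
  obtain ⟨h, hh⟩ : ∃ h, h = h8 Qb (ρ * e) n := ⟨_, rfl⟩
  obtain ⟨M, hMe⟩ : ∃ M, M = m8 K e n := ⟨_, rfl⟩
  have hMn : M ≤ n := hMe ▸ m8_le he he1 k3 hn1
  rw [← hh] at n1 n2 n3 n4 n5 n6 n7 n8 n9 eT eP eL eX e5 e2X eN
  rw [← hMe] at eT eM
  rw [← hh, ← hMe]
  have m1' : 16 * (l₂ + 1) ≤ M := (le_max_left _ _).trans eM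
  have m2' : 128 * (2 * m + 5) ≤ M := ((le_max_left _ _).trans (le_max_right _ _)).trans eM
  have m3' : 4 * (m + m₁) + 8 ≤ M := ((le_max_right _ _).trans (le_max_right _ _)).trans eM
  have hnW1 : 1 ≤ h := hnW.trans n2
  have w21' : ∀ o, 1 ≤ o → w₁' * wd μ s (Tg h K o) ≤ wd μ s (Tg h K (o + (l' + 1))) := fun o ho => Hl' h n5 o (l' + 1) ho (by omega)
  refine ⟨nb74 k2 HW (k := ⟨m, m₁, 2 * m + 5, l₂, l', 2 * P, A, Φ, σ, δ, η, X, Qa, U₁, G⟩) hm₁ hσ le_rfl w22 le_rfl le_rfl n2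
    (fun o ho => (w21' o ho).trans (HM K kM h n1 _ _ (by omega) (by show o + (l' + 1) ≤ o + l₂; omega)).1), ?_⟩
  intro t ht htM lm GS Γ Lη Bp R κv hlm hGw hcard hLη hBp hhC hR0 hR hκv
  have htM2 : t ≤ M / 1024 := htM.trans (Nat.div_le_div_left (hZ₀.trans hZ) (by norm_num))
  have eo : t + (m₁ - 1) + m + 1 = t + (m + m₁) := by omega
  have u1 : 1 ≤ t + (m₁ - 1) := by omega
  have o1 : 1 ≤ t + (m + m₁) := by omega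
  have hTo : ∀ v, 1 ≤ v → h ≤ Tg h K v := fun v hv => Tg_ge77 k1 hv
  have hTo1 : 1 ≤ Tg h K (t + (m + m₁)) := hnW1.trans (hTo _ o1)
  have hEo := EE_pos (μ := μ) (s := s) (Tg h K (t + (m + m₁)))
  have hw1 : ∀ v, 1 ≤ v → 1 ≤ wd μ s (Tg h K v) := fun v hv => (HW K k1 h n2 v 0 hv).1
  have hwo := hw1 _ o1
  have hLE : Lη ≤ EE μ s (Tg h K (t + (m + m₁))) := by
    have := eL _ o1
    linarith
  obtain ⟨T1, T2, T3, -, T5⟩ := eT (t + (m₁ - 1)) u1 (by omega)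
  rw [eo] at T1 T3 T5
  have hB1 : wd μ s (B * Tg h K t) ≤ 2 * B * wd μ s (Tg h K (t + (m₁ - 1))) :=
    (wdB74 h0 hB (hnW1.trans (hTo _ (by omega)))).trans
      (mul_le_mul_of_nonneg_left (HM K kM h n1 _ _ (by omega) (by omega)).1 (by linarith))
  have hB0 : 0 ≤ wd μ s (B * Tg h K t) := h0.wd_nonneg _
  have hD : wd μ s (B * Tg h K t) + 2 ≤ wd μ s (Tg h K (t + (m + m₁))) := by
    have g3 := (HW K k1 h n2 (t + (m₁ - 1)) (m + 1) u1).2.2.1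
    rw [show t + (m₁ - 1) + (m + 1) = t + (m + m₁) by omega] at g3
    have g4 : 2 * B + 2 ≤ kk * ((K : ℝ) ^ aW) ^ (m + 1) := by
      have g5 : (2 * B + 2) / kk ≤ ((K : ℝ) ^ aW) ^ (m + 1) := hmD.le.trans (pow_le_pow_right₀ hX1.le hmD')
      rw [div_le_iff₀ hkk] at g5
      linarith
    have g6 := hw1 _ u1
    have g7 := mul_le_mul_of_nonneg_right g4 (show 0 ≤ wd μ s (Tg h K (t + (m₁ - 1))) by linarith)
    linarith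
  have hlT : lev31 PV c₁ QV SV (EE μ s (Tg h K (t + (m + m₁)))) (wd μ s (Tg h K (t + (m + m₁)))) R ≤
      lev31 PV c₁ QV SV (EE μ s (Tg h K (t + (m + m₁)))) (wd μ s (Tg h K (t + (m + m₁)))) ((n : ℝ) ^ (4 : ℕ)) :=
    lev_mono74 PV hQV.le hEo.le (by linarith) hR0 hR
  have haT := aT74 (μ := μ) (s := s) (h := Γ.h) hTo1 hCη hlog hLη hBp hhC
  have hk := Hk h n4 (t + (m₁ - 1)) u1
  rw [eo] at hk
  refine ⟨?_, ?_⟩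
  · show (kst * EE μ s (Tg h K (t + (m + m₁))) + 3) / 2 ≤ η * EE μ s (Tg h K (t + (m₁ - 1))) - X
    have := e2X _ u1
    linarith
  refine nd_at74 (k := ⟨m, m₁, 2 * m + 5, l₂, l', 2 * P, A, Φ, σ, δ, η, X, Qa, U₁, G⟩) ?_ k1 ht hm₁ rfl (by show 2 * m + 5 ≤ l₂; omega)
    (by show l' < l₂; omega) (by show l₂ < M / 16; omega) (by show 2 * m + 5 ≤ M / 128; omega) (by omega) (by omega) hGw hσ hδ hη.le hc₁ hc₃
    hQV.le hκv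
  exact
    { mo := HM K kM h n1
      w1 := hw1
      oM := by show t + (m + m₁) + M / 16 ≤ M / 2; omega
      σw := hnσ _ (n9.trans (hTo _ o1))
      hD := hD
      Wn := by
        show wd μ s (Tg h K (t + (m + m₁) + l₂)) ≤ Tg h K (t + (m + m₁))
        linarith
      wl₁ := ((HW K k1 h n2 _ (2 * m + 5) o1).2.1).trans (mul_le_mul_of_nonneg_right hw₁' (by linarith))
      wl' := w21' _ o1
      hL := hLE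
      T2 := by
        show 4 * (Tg h K (t + (m₁ - 1) + M / 16) : ℝ) ≤ wd μ s (Tg h K (M / 2))
        have : 0 ≤ wd μ s (Tg h K (t + (m₁ - 1))) * (2 * B) := mul_nonneg (h0.wd_nonneg _) (by linarith)
        linarith
      T3 := by
        show 2 * (Tg h K (t + (m₁ - 1) + M / 128) : ℝ) + 2 * wd μ s (Tg h K (t + (m₁ - 1) + M / 128 + m)) + wd μ s (B * Tg h K t) ≤
          wd μ s (Tg h K (t + (m + m₁) + M / 16))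
        have : (0 : ℝ) ≤ Tg h K (t + (m₁ - 1) + M / 128) := Nat.cast_nonneg _
        linarith
      T1 := by
        show lev31 PV c₁ QV SV (EE μ s (Tg h K (t + (m + m₁)))) (wd μ s (Tg h K (t + (m + m₁)))) R +
          aT56 μ s Γ.h (2 * Tg h K (t + (m + m₁))) Lη Bp + G * EE μ s (Tg h K (t + (m + m₁))) + X + 2 ≤
          η * EE μ s (Tg h K (t + (m₁ - 1) + (M / 128 - 1) / 2))
        linarith
      lvl := fun l _ => Ha h n6 _ l o1 _ Lη hB0 (by linarith) hLE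
      lvu := Hu h n7 _ o1 _ Lη hB0 (by linarith) hLE
      st := fun j v nb h1 h2 h3 => HS h n3 _ v j nb u1 h1 h2 h3 _ hB0 hB1
      Bl := fun L' R' aT r a Wd σ' hL' hWd hr ha hσ' j hj hjL => by
        have := HL h n8 (t + (m₁ - 1)) u1 Wd r a R' σ' aT L'
        rw [eo] at this
        refine this (fun l hl => ?_) (fun l hl => (hr l hl).le) (fun l hl => (ha l hl).le) hσ' j (b1.trans hj) hjL
        rw [one_mul]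
        exact hWd l hl
      hX := by
        show X + 2 ≤ EE μ s (Tg h K (t + (m + m₁)))
        have := eX _ o1
        linarith
      pr := fun v hv => by
        show η * EE μ s (Tg h K (t + (m₁ - 1))) + Real.log ((M / 16 : ℕ) + 1) + (X + 4) ≤ η * EE μ s (Tg h K v)
        exact eP (M / 16) ((Nat.div_le_self _ _).trans hMn) _ v u1 hv
      kst := hk
      k4 := by
        show 5 ≤ kst * EE μ s (Tg h K (t + (m + m₁)))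
        have := e5 _ o1
        linarith
      num := by
        refine eN (M / 16) ((Nat.div_le_self _ _).trans hMn) (t + (m + m₁)) o1 _ _ (2 * (A * Φ ^ (l' + 1) + 2 + 2 * σ * w₁') + U₁ + gf) _
          (Nat.cast_nonneg _) hcard ?_ ?_
        · exact ex74 (lt_of_lt_of_le one_pos hwo)
        · show (2 * (A * Φ ^ (l' + 1) + 2 + 2 * σ * w₁') + U₁ + gf + 1) * EE μ s (Tg h K (t + (m + m₁))) ≤
            G * EE μ s (Tg h K (t + (m + m₁)))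
          rw [hG] }

end

end Pool.Agent.W_7d29a1_C1.P74
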