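import Pool.Agent.W_7d29a1_C1.NumN90
import Pool.Agent.W_7d29a1_C1.SepM49

/-!
MP_7d29a1_pr, attractor route [C1], field `nu` of one context: THE ROWS OF WEIGHTS OF `V8` (helper90, hand of helper77).

`rw90` : eventually in `n`, for every family of at most `n ^ 16` places, all the rows of weights of all the scales `t < m8 / Z` are in `RowG`,
off a set of probability `n ^ (-2)`. `rwV90` : the same for the second factor of `V8` at all the sites `S8`.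
-/

set_option autoImplicit false
set_option linter.unusedSectionVars false

namespace Pool.Agent.W_7d29a1_C1.Rw90

open MeasureTheory Finset Filter Topology
open Pool.Agent.W_7d29a1_F Pool.Agent.W_7d29a1_h4g Pool.Agent.W_7d29a1_H Pool.Agent.W_7d29a1_HS
open Pool.Agent.W_7d29a1_C1.T10 (Gd pt Tg Hg Tg_pos Tg_mono Hg_mono GW)
open Pool.Agent.W_7d29a1_C1.T98 (Sc mem_St w_zero98 kT dT dT_le kT_le)
open Pool.Agent.W_7d29a1_C1.H8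
open Pool.Agent.W_7d29a1_C1.H60
open Pool.Agent.W_7d29a1_C1.D31 (NV31 V31)
open Pool.Agent.W_7d29a1_C1.S83 (RowG meas_RowG rowG83)
open Pool.Agent.W_7d29a1_C1.N49 (model_E)
open scoped ENNReal

noncomputable section

variable {μ : Measure ℝ} [IsProbabilityMeasure μ]

/-- The numbers. -/
theorem numR90 {e₁ : ℝ} (he₁ : 0 < e₁) : ∀ᶠ n : ℕ in atTop, (n : ℝ) ^ (16 : ℝ) * n * Real.exp (-((n : ℝ) ^ e₁)) ≤ (n : ℝ) ^ (-(2 : ℝ)) := by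
  have h := (isLittleO_log_rpow_atTop he₁).bound (show (0 : ℝ) < 1 / 19 by norm_num)
  filter_upwards [tendsto_natCast_atTop_atTop.eventually h, eventually_ge_atTop 1] with n hn hn1
  have hn0 : (1 : ℝ) ≤ n := by exact_mod_cast hn1
  have n0 : (0 : ℝ) < n := by linarith
  rw [Real.norm_of_nonneg (Real.log_nonneg hn0), Real.norm_of_nonneg (by positivity)] at hn
  have e1 : Real.exp (-((n : ℝ) ^ e₁)) ≤ (n : ℝ) ^ (-(19 : ℝ)) := by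
    have e0 : (n : ℝ) ^ (-(19 : ℝ)) = Real.exp (Real.log n * -19) := Real.rpow_def_of_pos n0 _
    rw [e0]
    exact Real.exp_le_exp.2 (by linarith)
  calc (n : ℝ) ^ (16 : ℝ) * n * Real.exp (-((n : ℝ) ^ e₁)) ≤ (n : ℝ) ^ (16 : ℝ) * n * (n : ℝ) ^ (-(19 : ℝ)) :=
        mul_le_mul_of_nonneg_left e1 (by positivity)
    _ = (n : ℝ) ^ (16 : ℝ) * (n : ℝ) ^ (1 : ℝ) * (n : ℝ) ^ (-(19 : ℝ)) := by rw [Real.rpow_one]
    _ = (n : ℝ) ^ (-(2 : ℝ)) := by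
      rw [← Real.rpow_add n0, ← Real.rpow_add n0]
      norm_num

/-- **THE ROWS OF WEIGHTS**: `r c t`, `z c t` any row and any column of the place `c` at the scale `t`. -/
theorem rw90 {s c C : ℝ} {n₀ : ℕ} (hI : In μ s c C n₀) {e₀ : ℝ} (he₀ : 0 < e₀) {K : ℕ} (hK : 2 ≤ K) {Q : ℕ} (hQ : 1 ≤ Q) {m₂ : ℕ}
    (hm : 1 ≤ m₂) {u : ℝ} (hu : 0 < u) :
    ∀ᶠ n : ℕ in atTop, ∀ (S : Finset (ℕ × ℤ)) (ms : ℕ), (S.card : ℝ) ≤ (n : ℝ) ^ (16 : ℝ) → ms ≤ n →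
      (∀ t, 1 ≤ wd μ s (Tg (h8 Q e₀ n) K (t + m₂))) → ∀ r z : ℕ × ℤ → ℕ → ℤ,
      law μ {ω | ∃ c ∈ S, ∃ t < ms, ω ∉ RowG (r c t) (z c t) (wd μ s (Tg (h8 Q e₀ n) K (t + m₂)))
        (u * EE μ s (Tg (h8 Q e₀ n) K (t + m₂)))} ≤ ENNReal.ofReal ((n : ℝ) ^ (-(2 : ℝ))) := by
  obtain ⟨n₁, hn₁, H⟩ := rowG83 hI hu 1
  obtain ⟨e₁, he₁, n₂, HE⟩ := model_E hI (show (0 : ℝ) < e₀ / 4 by linarith)
  obtain ⟨n₃, hn₃⟩ := eventually_atTop.1 (hI.tv.eventually (eventually_le_nhds (show (0 : ℝ) < 1 by norm_num)))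
  have ev : ∀ {y : ℝ}, 0 < y → ∀ M : ℝ, ∀ᶠ n : ℕ in atTop, M ≤ (n : ℝ) ^ y := fun hy M =>
    ((tendsto_rpow_atTop hy).comp tendsto_natCast_atTop_atTop).eventually_ge_atTop M
  filter_upwards [numR90 he₁, ev (show (0 : ℝ) < e₀ / 4 by linarith) (max n₁ n₃ : ℕ), eventually_ge_atTop n₂, eventually_ge_atTop 1]
    with n hnum hbig hn2 hn1
  intro S ms hS hms hw r z
  have hnR : (1 : ℝ) ≤ n := by exact_mod_cast hn1
  have n0 : (0 : ℝ) < n := by linarith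
  have hh8 : (n : ℝ) ^ (e₀ / 4) ≤ h8 Q e₀ n := by
    unfold h8
    push_cast
    have h1 := Nat.le_ceil ((n : ℝ) ^ (e₀ / 4))
    have h2 : (1 : ℝ) ≤ Q := by exact_mod_cast hQ
    have h3 : (0 : ℝ) ≤ (⌈(n : ℝ) ^ (e₀ / 4)⌉₊ : ℝ) := by positivity
    nlinarith [mul_le_mul_of_nonneg_right h2 h3]
  have hT : ∀ t, h8 Q e₀ n ≤ Tg (h8 Q e₀ n) K (t + m₂) := fun t => by
    rw [Tg_pos (by omega), mul_comm 2 (h8 Q e₀ n), mul_assoc]
    have hP : 0 < K ^ (t + m₂) := Nat.pow_pos (by omega)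
    exact Nat.le_mul_of_pos_right _ (Nat.mul_pos two_pos hP)
  have hTR : ∀ t, (n : ℝ) ^ (e₀ / 4) ≤ Tg (h8 Q e₀ n) K (t + m₂) := fun t => hh8.trans (by exact_mod_cast hT t)
  have hmx : max n₁ n₃ ≤ h8 Q e₀ n := by exact_mod_cast hbig.trans hh8
  have hone : ∀ c' t, law μ (RowG (r c' t) (z c' t) (wd μ s (Tg (h8 Q e₀ n) K (t + m₂))) (u * EE μ s (Tg (h8 Q e₀ n) K (t + m₂))))ᶜ ≤
      ENNReal.ofReal (Real.exp (-((n : ℝ) ^ e₁))) := fun c' t => by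
    have h1 := H (Tg (h8 Q e₀ n) K (t + m₂)) ((le_max_left _ _).trans (hmx.trans (hT t))) (r c' t) (z c' t)
      (wd μ s (Tg (h8 Q e₀ n) K (t + m₂))) (hw t) (by
        have h3 := hn₃ _ ((le_max_right _ _).trans (hmx.trans (hT t)))
        unfold wd
        exact mul_le_of_le_one_right (Nat.cast_nonneg _) h3)
    have h2 := HE n hn2 _ (hTR t)
    have h3 : (law μ).real (RowG (r c' t) (z c' t) (wd μ s (Tg (h8 Q e₀ n) K (t + m₂))) (u * EE μ s (Tg (h8 Q e₀ n) K (t + m₂))))ᶜ ≤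
        Real.exp (-((n : ℝ) ^ e₁)) := h1.trans (Real.exp_le_exp.2 (by linarith))
    have h4 : IsProbabilityMeasure (law μ) := by unfold law; infer_instance
    rw [← ENNReal.ofReal_toReal (measure_ne_top (law μ) _)]
    exact ENNReal.ofReal_le_ofReal h3
  have hsub : {ω | ∃ c ∈ S, ∃ t < ms, ω ∉ RowG (r c t) (z c t) (wd μ s (Tg (h8 Q e₀ n) K (t + m₂)))
        (u * EE μ s (Tg (h8 Q e₀ n) K (t + m₂)))} ⊆ ⋃ p ∈ S ×ˢ range ms,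
      (RowG (r p.1 p.2) (z p.1 p.2) (wd μ s (Tg (h8 Q e₀ n) K (p.2 + m₂))) (u * EE μ s (Tg (h8 Q e₀ n) K (p.2 + m₂))))ᶜ := by
    rintro ω ⟨c', hc', t, ht, hω⟩
    exact Set.mem_iUnion₂.2 ⟨(c', t), mem_product.2 ⟨hc', mem_range.2 ht⟩, hω⟩
  refine (measure_mono hsub).trans ((measure_biUnion_finset_le _ _).trans ((sum_le_sum fun p _ => hone p.1 p.2).trans ?_))
  rw [sum_const, nsmul_eq_mul, card_product, card_range, ← ENNReal.ofReal_natCast, ← ENNReal.ofReal_mul (by positivity)]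
  refine ENNReal.ofReal_le_ofReal (le_trans ?_ hnum)
  refine mul_le_mul_of_nonneg_right ?_ (Real.exp_pos _).le
  push_cast
  have hmsR : (ms : ℝ) ≤ n := by exact_mod_cast hms
  exact mul_le_mul hS hmsR (Nat.cast_nonneg _) (by positivity)

/-- **THE ROW OF WEIGHTS OF `V8`** (of `V47`) at all the sites and all the scales. -/
theorem rwV90 {s c C : ℝ} {n₀ : ℕ} (hI : In μ s c C n₀) {e e₀ : ℝ} (he : 0 < e) (he1 : e ≤ 1 / 32) (he₀ : 0 < e₀) (hee : e₀ ≤ e)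
    {K : ℕ} (hK : 2 ≤ K) (Z x : ℕ) {Q : ℕ} (hQ : 1 ≤ Q) {m₂ : ℕ} (hm : 1 ≤ m₂) {u : ℝ} (hu : 0 < u) {R C₀ : ℝ} {B : ℕ} {c₂ δ κ : ℝ}
    (hc₂ : c₂ ≤ 1 / 32) :
    ∀ᶠ n : ℕ in atTop, ∀ G : Gd, GW μ s R B C₀ (h8 Q e₀ n) K (m8 K e n + x) G → ∀ Γ : Cx, Adm μ s c₂ δ κ n Γ →
      ∀ ν : NV31, ν.Ts = Tg (h8 Q e₀ n) K → ν.m₂ = m₂ → (∀ t, ν.E t = EE μ s (Tg (h8 Q e₀ n) K (t + m₂))) →
      (∀ t, ν.w t = wd μ s (Tg (h8 Q e₀ n) K (t + m₂))) →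
      ∃ Bd : Set Env, law μ Bd ≤ ENNReal.ofReal ((n : ℝ) ^ (-(2 : ℝ))) ∧
        ∀ ω ∉ Bd, ∀ c ∈ S8 e K n G Γ, ∀ t < m8 K e n / Z,
          ω ∈ RowG (ν.row G t (G.z t c)) ⌊ν.cn G t (G.z t c) (sl μ s)⌋ (ν.w t) (u * ν.E t) := by
  have ev : ∀ {y : ℝ}, 0 < y → ∀ M : ℝ, ∀ᶠ n : ℕ in atTop, M ≤ (n : ℝ) ^ y := fun hy M =>
    ((tendsto_rpow_atTop hy).comp tendsto_natCast_atTop_atTop).eventually_ge_atTop M
  by_cases hB : 1 ≤ B
  swap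
  · refine Eventually.of_forall fun n G hG => ?_
    have := hG.B2
    omega
  filter_upwards [gridN8 (x := x) he he1 he₀ hee hK hQ, Vn8 hI he he1 he₀ hee hK hQ hB, rw90 hI he₀ hK hQ hm hu,
    ev (show (0 : ℝ) < 29 / 32 by norm_num) 4, eventually_ge_atTop 3] with n hg8 hV8 hX ev4 hn3
  intro G hG Γ hA ν hTs hm₂ hE hw
  have hn1 : 1 ≤ n := by omega
  have hV : G.V (m8 K e n) ≤ n := by
    have h1 := hG.V (m8 K e n) hg8.m0 (Nat.le_add_right _ _)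
    have h3 := hV8 (m8 K e n) hg8.m0 le_rfl
    have h4 : (G.V (m8 K e n) : ℝ) ≤ n := by
      have h5 : (0 : ℝ) ≤ (m8 K e n : ℝ) + 2 := by positivity
      linarith
    exact_mod_cast h4
  have hs₀ : ∀ r : ℕ, |(G.s r : ℝ) - Pool.Agent.W_7d29a1_H.sl μ s * r| ≤ n := fun r => by
    refine (hG.err' r).trans ?_
    have h1 : ((m8 K e n + x + 2 : ℕ) : ℝ) ≤ n := by exact_mod_cast hg8.Lx
    push_cast at h1 ⊢
    linarith
  have hkN : G.H (m8 K e n) * ((Γ.N - n - dT (G.H (m8 K e n)) ((n : ℝ) ^ e)) / G.H (m8 K e n)) ≤ Γ.N := by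
    refine (Nat.mul_div_le _ _).trans ?_
    omega
  have hcard : ((S8 e K n G Γ).card : ℝ) ≤ (n : ℝ) ^ (16 : ℝ) := by
    have h1 : (S8 e K n G Γ).card ≤ n ^ 16 := card_Sc8 hkN (rows_le8 hA hc₂ hn1 ev4) hn3 hV (sl8 hI) hs₀
    have e2 : (n : ℝ) ^ (16 : ℝ) = (n : ℝ) ^ 16 := by norm_cast
    rw [e2]
    exact_mod_cast h1
  have hms : m8 K e n / Z ≤ n := by
    have h1 := hg8.Lx
    have h2 := Nat.div_le_self (m8 K e n) Z
    omega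
  have hw1 : ∀ t, 1 ≤ wd μ s (Tg (h8 Q e₀ n) K (t + m₂)) := fun t => by
    have h1 := hG.small (t + m₂) (by omega)
    have h2 : (0 : ℝ) ≤ ((t + m₂ : ℕ) : ℝ) := Nat.cast_nonneg _
    linarith
  refine ⟨_, hX (S8 e K n G Γ) (m8 K e n / Z) hcard hms hw1
    (fun c t => ν.row G t (G.z t c)) (fun c t => ⌊ν.cn G t (G.z t c) (sl μ s)⌋), ?_⟩
  intro ω hω c' hc' t ht
  by_contra hcon
  refine hω ⟨c', hc', t, ht, fun h => hcon ?_⟩
  rw [hE t, hw t]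
  exact h

end

end Pool.Agent.W_7d29a1_C1.Rw90
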