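import Pool.Agent.W_7d29a1_C1.Nu31

/-!
MP_7d29a1_pr, attractor route [C1], SHELL: **`hdet`** (helper31). `vt31`: a contact which is locally regular at the level `o` of the ball,
whose scale `u` has few early meetings, and which has in every window `[u + al l, u + l - 2]` a good scale (`GdS31`), is in `V31 ∩ LP95`.
-/

set_option autoImplicit false

namespace Pool.Agent.W_7d29a1_C1.D31

open MeasureTheory ProbabilityTheory Filter Topology Finset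
open Pool.Agent.W_7d29a1_F Pool.Agent.W_7d29a1_h4g Pool.Agent.W_7d29a1_H Pool.Agent.W_7d29a1_HS
open Pool.Agent.W_7d29a1_C1.S71 Pool.Agent.W_7d29a1_C1.Sw9 Pool.Agent.W_7d29a1_C1.H75 Pool.Agent.W_7d29a1_C1.U16
open Pool.Agent.W_7d29a1_C1.K91 (wt wt_pos Box)
open Pool.Agent.W_7d29a1_C1.K91P
open Pool.Agent.W_7d29a1_C1.U31 (ms ms_nonneg sum_fw_bw)
open Pool.Agent.W_7d29a1_C1.FarK89 Pool.Agent.W_7d29a1_C1.FarW89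
open Pool.Agent.W_7d29a1_C1.T10 (Gd GW pt Tg Hg Tg_zero Tg_pos Tg_Hg Tg_mono)
open Pool.Agent.W_7d29a1_C1.H60 (Cx sT Rch lvL LvE EL60)
open Pool.Agent.W_7d29a1_C1.G37 (Gm)
open Pool.Agent.W_7d29a1_C1.Ge74
open Pool.Agent.W_7d29a1_C1.SD53 (XX)
open Pool.Agent.W_7d29a1_C1.FA25 (Av)
open Pool.Agent.W_7d29a1_C1.O22 (Ste)
open Pool.Agent.W_7d29a1_C1.H49 (em ex)
open Pool.Agent.W_7d29a1_C1.SysP84 (fh84)
open scoped ENNReal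

noncomputable section

variable {μ : Measure ℝ} {s : ℝ} [IsProbabilityMeasure μ] {c C : ℝ} {n₀ : ℕ}

/-- **`hdet`.** -/
theorem vt31 (h0 : In μ s c C n₀) (P : ℕ) {Kg : ℕ} (hKg : 2 ≤ Kg) {Kw θ : ℝ} (hKw : 6 ≤ Kw) (hθ : 0 < θ) (hθ8 : θ ≤ 1 / 8) :
    ∃ Rg C₅ C₆ D₅ D₆ : ℝ, 1 < Rg ∧ 0 < C₅ ∧ 0 < C₆ ∧ 0 < D₅ ∧ 0 < D₆ ∧ ∃ n₁ : ℕ, 1 ≤ n₁ ∧ ∀ q₀ Λ : ℝ, 0 ≤ q₀ → 0 ≤ Λ → ∃ Q : ℝ, 0 < Q ∧
    ∀ {Γ : Cx} {ω : Env} {G : Gd} {GS : Gm} {Rb C₀ : ℝ} {B h₀ Lg Lm t τ kk : ℕ} {y : ℕ → ℝ} {x : XX Γ} {ν : NV31} {d : ND31},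
    Γ.Ok → (∀ k, k < Γ.M → Γ.p k = Real.exp (s + Γ.h)) → (∀ k, Γ.M ≤ k → Γ.p k = Real.exp s) →
    GW μ s Rb B C₀ h₀ Kg Lg G → (∀ u, 1 ≤ u → GS.T u = Tg h₀ Kg u) → GS.v = sl μ s → C₀ * C₀ ≤ Λ → n₁ ≤ h₀ →
    Monotone y → (∀ l, 0 ≤ y l) → (∀ l, y l ≤ q₀ * Rg ^ l) → d.u + d.lm ≤ Lg → d.u + d.lm ≤ Lm → 2 ≤ d.o → d.o ≤ d.u + d.lm → τ ≤ d.o →
    -- rows
    (∀ w ≤ d.u + d.lm, Tg h₀ Kg w ≤ (G.z w x.1).1) → (∀ w ≤ d.u + d.lm, (G.z w x.1).1 + Tg h₀ Kg w < Γ.N) →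
    (∀ w, d.o < w → w ≤ d.u + d.lm → (Γ.N : ℝ) + 1 ≤ Real.exp (EE μ s (2 * Tg h₀ Kg w))) →
    (∀ w, 1 ≤ w → w ≤ d.u + d.lm → |Γ.h| * wd μ s (2 * Tg h₀ Kg w) ≤ c / 8 * EE μ s (2 * Tg h₀ Kg w)) →
    -- single weights
    (∀ (j : ℕ) (z : ℤ), ν.row G t x.1 ≤ j → j ≤ ν.row G t x.1 + ν.nr t → z ∈ Icc (0 : ℤ) Γ.hi → |ω ((j : ℤ), z)| ≤ d.Lη) →
    (∀ z : ℤ, |lat16 μ s (pt x.1) ((ν.row G t x.1 : ℤ), z)| ≤ d.K₁ * wd μ s (Tg h₀ Kg d.Mt) → |ω ((ν.row G t x.1 : ℤ), z)| ≤ d.Lη) →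
    0 ≤ d.Bp → (∀ j, |Real.log (Γ.p j)| ≤ d.Bp) →
    -- the box
    (∀ z ∈ Icc 0 Γ.hi, |(z : ℝ) - ν.cn G t x.1 (sl μ s)| ≤ d.R) → (∀ z ∈ Icc 0 Γ.hi, |(z : ℝ) - ν.cn' G t x.1 (sl μ s)| ≤ d.R) →
    (∀ z : ℤ, |(z : ℝ) - ν.cn G t x.1 (sl μ s)| ≤ d.Wd d.L → 0 ≤ z ∧ z + ν.nr t ≤ Γ.hi) →
    (∀ z : ℤ, |(z : ℝ) - ν.cn' G t x.1 (sl μ s)| ≤ d.Wd d.L → 0 ≤ z - ν.nr t) →
    -- the ball
    TM31 μ s Γ G (Tg h₀ Kg) d.Mt d.K₁ d.A d.Φ d.σ₁ d.o x.1 ω →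
    ω ∉ Rch (lvL G (LvE Lm (EL60 μ s c θ Kw P (Tg h₀ Kg) y)) Lg) (d.o - 2) x.1 →
    ω ∉ Rch (lvL G (LvE Lm (EL60 μ s c θ Kw P (Tg h₀ Kg) y)) Lg) (d.o - 1) x.1 →
    kk + 1 ≤ d.o → em (SD53.row Γ) (SD53.w Γ) (GS.dk kk τ) x ω < ex (-d.κ₀) →
    -- the good scales
    (∀ l, d.l₁ ≤ l → l ≤ d.lm → ∃ v, d.o + 1 ≤ v ∧ d.u + d.al l ≤ v ∧ v + 2 ≤ d.u + l ∧
      GdS31 μ s c θ Kw P Γ GS G h₀ Kg Lg Lm y d.Mt d.K₁ d.A d.Φ d.σ₁ τ v (v + d.m0) (d.κv v) x ω) →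
    Nu31 μ s c P Q Kw C₅ C₆ D₅ D₆ GS B h₀ Kg Γ ν t d →
    ω ∈ V31 μ s Γ ν G t x.1 ∩ LP95 μ s Γ ν d.sg G t x.1 := by
  obtain ⟨Rg, hRg, nT, hnT, HT⟩ := tower31 h0 P hKg
  obtain ⟨C₅, C₆, hC₅, hC₆, nS, hnS, HS⟩ := shl31 h0 P hKw hθ
  obtain ⟨D₅, D₆, hD₅, hD₆, nK, hnK, HK⟩ := H56.kl56 h0 P (K := Kw - 2) (θ := θ) (by linarith) hθ
  obtain ⟨n₅, hn₅⟩ := eventually_atTop.1 ((wd_tendsto h0).eventually_ge_atTop 2)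
  obtain ⟨nA, hnA⟩ : ∃ nA, nA = max nT (max nS (max nK n₅)) := ⟨_, rfl⟩
  have aT' : nT ≤ nA := by rw [hnA]; exact le_max_left _ _
  have aS' : nS ≤ nA := by rw [hnA]; exact (le_max_left _ _).trans (le_max_right _ _)
  have aK' : nK ≤ nA := by rw [hnA]; exact ((le_max_left _ _).trans (le_max_right _ _)).trans (le_max_right _ _)
  have a5' : n₅ ≤ nA := by rw [hnA]; exact ((le_max_right _ _).trans (le_max_right _ _)).trans (le_max_right _ _)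
  refine ⟨Rg, C₅, C₆, D₅, D₆, hRg, hC₅, hC₆, hD₅, hD₆, nA, hnT.trans aT', fun q₀ Λ hq₀ hΛ => ?_⟩
  obtain ⟨Q, hQ, HQ⟩ := HT nA aT' q₀ Λ hq₀ hΛ
  refine ⟨Q, hQ, ?_⟩
  intro Γ ω G GS Rb C₀ B h₀ Lg Lm t τ kk y x ν d hΓ hp hp' g hT hv hΛC hh hym hy0 hyR huLg huLm ho2 hou hτ hrow hNN hNE hforce hη1 hη2 hBp hpB
    hR1 hR2 hb1 hb2 htm hr2 hr1 hkk hem hsh N
  have hsl0 : 0 ≤ sl μ s := (sl_mem h0.em h0.nd s).1.le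
  have hsl1 : sl μ s ≤ 1 := (sl_mem h0.em h0.nd s).2.le
  -- the rows of the ball
  have ho := hrow d.o hou
  have eRow : ν.row G t x.1 = (G.z d.o x.1).1 - Tg h₀ Kg d.o := by
    unfold NV31.row
    rw [N.ts, N.tO]
  have eNr : ν.nr t = 2 * Tg h₀ Kg d.o := by
    unfold NV31.nr
    rw [N.ts, N.tO]
  have eTop : (G.z d.o x.1).1 + Tg h₀ Kg d.o = (G.z d.o x.1).1 - Tg h₀ Kg d.o + 2 * Tg h₀ Kg d.o := by omega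
  obtain ⟨i, hi⟩ : ∃ i, i = (G.z d.o x.1).1 - Tg h₀ Kg d.o := ⟨_, rfl⟩
  obtain ⟨cn, hcn⟩ : ∃ v, v = ν.cn G t x.1 (sl μ s) := ⟨_, rfl⟩
  obtain ⟨cn', hcn'⟩ : ∃ v, v = ν.cn' G t x.1 (sl μ s) := ⟨_, rfl⟩
  have ecn' : cn' = cn + sl μ s * ((2 * Tg h₀ Kg d.o : ℕ) : ℝ) := by
    rw [hcn', hcn, ← eNr]
    rfl
  have hTpos : (0 : ℝ) ≤ (Tg h₀ Kg d.o : ℝ) := Nat.cast_nonneg _
  -- the two lines
  have htL : t ≤ Lg := by have := N.tO; omega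
  have hD0 : |lat16 μ s (pt x.1) (G.x t x.1)| ≤ d.D₀ := (lat_x g N.t1 htL x.1).trans N.D0
  have hD0' : 0 ≤ d.D₀ := (abs_nonneg _).trans hD0
  have latA : ∀ z : ℤ, lat16 μ s (pt x.1) ((i : ℤ), z) = ((z : ℝ) - cn) + lat16 μ s (pt x.1) (G.x t x.1) := by
    intro z
    rw [lat_cn31 G t x.1 i z, hcn]
    unfold NV31.cn
    rw [eRow, ← hi]
  have latB : ∀ z : ℤ, lat16 μ s (pt x.1) (((i + 2 * Tg h₀ Kg d.o : ℕ) : ℤ), z) = ((z : ℝ) - cn') + lat16 μ s (pt x.1) (G.x t x.1) := by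
    intro z
    rw [lat_cn31 G t x.1 (i + 2 * Tg h₀ Kg d.o) z, ecn', hcn]
    unfold NV31.cn
    rw [eRow, ← hi]
    push_cast
    ring
  have hcA : ∀ z : ℤ, |lat16 μ s (pt x.1) ((i : ℤ), z) - ((z : ℝ) - cn)| ≤ d.D₀ := by
    intro z
    rw [latA, add_sub_cancel_left]
    exact hD0
  have hcB : ∀ z : ℤ, |lat16 μ s (pt x.1) (((i + 2 * Tg h₀ Kg d.o : ℕ) : ℤ), z) - ((z : ℝ) - cn')| ≤ d.D₀ := by
    intro z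
    rw [latB, add_sub_cancel_left]
    exact hD0
  -- local regularity at the edge rows
  obtain ⟨σ, hσ⟩ : ∃ σ, σ = d.σ₁ * (EE μ s (Tg h₀ Kg d.o) / wd μ s (Tg h₀ Kg d.o)) := ⟨_, rfl⟩
  have hEo : 0 < EE μ s (Tg h₀ Kg d.o) := EE_pos _
  have hwo : 0 ≤ wd μ s (Tg h₀ Kg d.o) := h0.wd_nonneg _
  have hσ0 : 0 ≤ σ := by rw [hσ]; exact mul_nonneg N.σ0 (div_nonneg hEo.le hwo)
  have hNi : i + 2 * Tg h₀ Kg d.o < Γ.N := by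
    have := hNN d.o hou
    omega
  have hTpos2 : True := trivial
  have hnr1 : ((2 * Tg h₀ Kg d.o : ℕ) : ℝ) + 1 = 2 * (Tg h₀ Kg d.o : ℝ) + 1 := by push_cast; ring
  have hb := Cx.box1 hΓ
  have fl0 : ∀ x', 0 ≤ fw (wt ω) Γ.p Cx.l i x' := fun x' => fw_nonneg (wt_pos ω) Γ.p_pos hb.g.l0 i x'
  have fr0 : ∀ x', 0 ≤ fw (wt ω) Γ.p Γ.r i x' := fun x' => fw_nonneg (wt_pos ω) Γ.p_pos hb.g.r0 i x'
  have hLηp : 0 ≤ d.Lη := by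
    refine (abs_nonneg _).trans (hη1 i 0 (by rw [eRow, ← hi]) (by rw [eRow, ← hi]; omega) (mem_Icc.2 ⟨le_rfl, ?_⟩))
    have h1 : Γ.hi = (Γ.k : ℤ) + Γ.N := rfl
    omega
  have hLG : ∀ l, l < d.L → ∀ z z₀ : ℤ, |(z₀ : ℝ) - cn'| ≤ d.Wd (l + 1) + 1 → |(z : ℝ) - z₀| ≤ ((2 * Tg h₀ Kg d.o : ℕ) : ℝ) + 1 →
      GG (wt ω) Γ.p Γ.N (i + 2 * Tg h₀ Kg d.o) z ≤
        Real.exp (d.r l + σ * |(z : ℝ) - z₀|) * GG (wt ω) Γ.p Γ.N (i + 2 * Tg h₀ Kg d.o) z₀ := by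
    intro l hl z z₀ h1 h2
    have hfut := htm.fut
    rw [eTop, ← hi] at hfut
    have e1 := N.lrW l hl
    have e2 := N.lrT l hl
    have e3 := N.lrr l hl
    have h3 := lr_win31 hfut (fun y => mul_nonneg (Real.exp_pos _).le (div_nonneg (bw_pos (wt_pos _) Γ.p_pos _ _ _).le (wt_pos _ _ _).le))
      (cen := cn') (d := d.D₀) hcB (N.lrM l hl) (Y := d.Wd (l + 1) + 1) (D := ((2 * Tg h₀ Kg d.o : ℕ) : ℝ) + 1) (R := d.r l)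
      (by linarith) (by rw [hnr1]; linarith) (by linarith) z z₀ h1 h2
    rw [← hσ] at h3
    exact lr_GG31 (μ := μ) (s := s) (h := Γ.h) (M := Γ.M) hNi h3
  have hLf : ∀ {m : ℤ → ℝ}, (∀ y, 0 ≤ m y) → (∀ x', 0 ≤ fw (wt ω) Γ.p m i x') →
      Lr31 μ s (pt x.1) (Tg h₀ Kg) d.Mt d.K₁ d.A d.Φ d.σ₁ (fh84 μ s Γ.h ω Γ.p Γ.M m i) i d.o →
      ∀ l, l < d.L → ∀ z z₀ : ℤ, |(z₀ : ℝ) - cn| ≤ d.Wd (l + 1) + 1 → |(z : ℝ) - z₀| ≤ ((2 * Tg h₀ Kg d.o : ℕ) : ℝ) + 1 →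
      fw (wt ω) Γ.p m i z ≤ Real.exp (d.r l + σ * |(z : ℝ) - z₀|) * fw (wt ω) Γ.p m i z₀ := by
    intro m hm hf hlr l hl z z₀ h1 h2
    have e1 := N.lrW l hl
    have e2 := N.lrT l hl
    have e3 := N.lrr l hl
    have h3 := lr_win31 hlr (fun y => SysP84.fh_nonneg Γ.p_pos hm i y) (cen := cn) (d := d.D₀) hcA (N.lrM l hl) (Y := d.Wd (l + 1) + 1)
      (D := ((2 * Tg h₀ Kg d.o : ℕ) : ℝ) + 1) (R := d.r l - 2 * d.Lη) (by linarith) (by rw [hnr1]; linarith) (by linarith) z z₀ h1 h2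
    rw [← hσ] at h3
    have k1 : |lat16 μ s (pt x.1) ((i : ℤ), z₀)| ≤ d.Wd (l + 1) + 1 + d.D₀ := by
      have h4 := hcA z₀
      have h5 := abs_sub_abs_le_abs_sub (lat16 μ s (pt x.1) ((i : ℤ), z₀)) ((z₀ : ℝ) - cn)
      linarith
    have k2 : |lat16 μ s (pt x.1) ((i : ℤ), z)| ≤ d.Wd (l + 1) + 1 + d.D₀ + (2 * (Tg h₀ Kg d.o : ℝ) + 1) := by
      have h4 : lat16 μ s (pt x.1) ((i : ℤ), z) = lat16 μ s (pt x.1) ((i : ℤ), z₀) + ((z : ℝ) - z₀) := by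
        rw [latA, latA]
        ring
      rw [h4]
      refine (abs_add_le _ _).trans ?_
      rw [hnr1] at h2
      linarith
    have w1 := hη2 z (by rw [eRow, ← hi]; linarith)
    have w2 := hη2 z₀ (by rw [eRow, ← hi]; linarith)
    rw [eRow, ← hi] at w1 w2
    have h6 := lr_fw31 w1 w2 (hf z₀) h3
    refine h6.trans (le_of_eq ?_)
    congr 2
    ring
  have hpl := htm.pl
  have hpr := htm.pr
  rw [← hi] at hpl hpr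
  have hLl := hLf hb.g.l0 fl0 hpl
  have hLr := hLf hb.g.r0 fr0 hpr
  -- the levels of the ball
  obtain ⟨Nb, qb, bb, SB, hlenB⟩ := HQ (θ := θ) (Kw := Kw) (h := Γ.h) (R := Rb) (C₀ := C₀) (B := B) (h₀ := h₀) (G := G) (L := Lg) (Lm := Lm)
    (b := d.o) (y := y) (x := x.1) (ω := ω) hθ.le hθ8 (by linarith) g hΛC hh ho2 (by omega) (by omega) hym hy0 hyR
    (fun v hv' => hrow v (hv'.trans hou)) hr2 hr1 (hforce d.o (by omega) hou)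
  have hwT : ∀ {b' : ℕ} {Nb' : ℕ → ℕ} {qb' : ℕ → ℝ} {bb' : ℕ → Pt} {b : ℕ},
      Slabs μ s c θ (Kw - 2) Γ.h P ω (pt x.1) (rW31 G h₀ Kg x.1 b) (sT (Tg h₀ Kg) b) Nb' qb' bb' 0 b' (2 * Tg h₀ Kg b) nA Q →
      (∀ u, 0 ≤ u → u < b' → 0 ≤ wd μ s (sT (Tg h₀ Kg) b u)) ∧ 0 ≤ wd μ s (2 * Tg h₀ Kg b) :=
    fun S => ⟨fun u h1 h2 => h0.wd_nonneg _, h0.wd_nonneg _⟩
  have SB' := Slabs.sub31 SB (a' := 0) (b' := 2 * d.o) (n' := nK) le_rfl le_rfl aK' (hwT SB).1 (hwT SB).2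
  have rb0 : rW31 G h₀ Kg x.1 d.o 0 = i := by
    have := rW_low (G := G) (h₀ := h₀) (Kg := Kg) (x := x.1) (b := d.o) (u := d.o) (by omega) le_rfl
    rw [Nat.sub_self] at this
    rw [this, hi]
  have rb1 : rW31 G h₀ Kg x.1 d.o (2 * d.o) = i + 2 * Tg h₀ Kg d.o := by
    have := rW_up (G := G) (h₀ := h₀) (Kg := Kg) (x := x.1) (b := d.o) (u := d.o) (by omega) le_rfl
    rw [show d.o + d.o = 2 * d.o by omega] at this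
    rw [this]
    omega
  obtain ⟨cκ, hcκ⟩ : ∃ v : ℝ, v = (pt x.1).2 + sl μ s * ((i : ℝ) - ((pt x.1).1 : ℤ)) := ⟨_, rfl⟩
  obtain ⟨cκ', hcκ'⟩ : ∃ v : ℝ, v = cκ + sl μ s * ((2 * Tg h₀ Kg d.o : ℕ) : ℝ) := ⟨_, rfl⟩
  obtain ⟨KU, KL⟩ := HK (κ := pt x.1) (r := rW31 G h₀ Kg x.1 d.o) (b := 2 * d.o) (Tt := 2 * Tg h₀ Kg d.o) (i := i) (n := 2 * Tg h₀ Kg d.o)
    (cen := cκ) (cen' := cκ') (by omega) rb0 rb1 hp hp' SB' hcκ hcκ'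
  have hcκx : ∀ z : ℤ, (z : ℝ) - cκ = ((z : ℝ) - cn) + lat16 μ s (pt x.1) (G.x t x.1) := by
    intro z
    rw [← latA z, hcκ]
    unfold lat16
    push_cast
    ring
  have hdd : ∀ x' z : ℤ, ((z : ℝ) - cκ') - ((x' : ℝ) - cκ) = ((z : ℝ) - cn') - ((x' : ℝ) - cn) := by
    intro x' z
    rw [hcκ', ecn']
    ring
  have hwo2 : 2 ≤ wd μ s (2 * Tg h₀ Kg d.o) := hn₅ _ (a5'.trans SB.Tt1)
  have hEo2 : 0 < EE μ s (2 * Tg h₀ Kg d.o) := EE_pos _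
  have eI : ν.row G t x.1 = i := eRow.trans hi.symm
  rw [eI] at hη2
  have hκd : ∀ z : ℤ, |(z : ℝ) - cκ| ≤ |(z : ℝ) - cn| + d.D₀ := by
    intro z
    rw [hcκx]
    exact (abs_add_le _ _).trans (by linarith)
  have hKlo := KL hlenB
  have hDQ : 0 ≤ D₆ * Q := by positivity
  have hTo0 : (0 : ℝ) ≤ (Tg h₀ Kg d.o : ℝ) := Nat.cast_nonneg _
  have low : ∀ l, d.l₂ ≤ l → l < d.L → ∀ x' z : ℤ, |(x' : ℝ) - cn| ≤ d.Wd (l + 1) + 1 →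
      |((z : ℝ) - cn') - ((x' : ℝ) - cn)| ≤ 1 → Real.exp (-d.a l) ≤ kM31 μ s Γ ω i (2 * Tg h₀ Kg d.o) x' z := by
    intro l h1 h2 x' z h3 h4
    have e2 := N.lrT l h2
    have e3 := N.lvl l h1 h2
    have h5 : |ω ((i : ℤ), x')| ≤ d.Lη := by
      refine hη2 x' ?_
      rw [latA]
      refine (abs_add_le _ _).trans ?_
      linarith
    have h6 := hKlo x' d.Lη h5 z (by rw [hdd]; exact h4)
    refine le_trans (Real.exp_le_exp.2 (neg_le_neg ?_)) h6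
    have h7 : |(x' : ℝ) - cκ| / wd μ s (2 * Tg h₀ Kg d.o) + (Kw - 2) ≤ (d.Wd (l + 1) + d.D₀ + 1) / wd μ s (2 * Tg h₀ Kg d.o) + (Kw - 2) := by
      have h8 := div_le_div_of_nonneg_right (show |(x' : ℝ) - cκ| ≤ d.Wd (l + 1) + d.D₀ + 1 by linarith [hκd x'])
        (show 0 ≤ wd μ s (2 * Tg h₀ Kg d.o) by linarith)
      linarith
    have h9 : 0 ≤ |(x' : ℝ) - cκ| / wd μ s (2 * Tg h₀ Kg d.o) + (Kw - 2) := by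
      have h10 : 0 ≤ |(x' : ℝ) - cκ| / wd μ s (2 * Tg h₀ Kg d.o) := div_nonneg (abs_nonneg _) (by linarith)
      linarith
    have h11 := mul_le_mul_of_nonneg_right (mul_le_mul_of_nonneg_left (gr_mono (2 * P) h9 h7) hDQ) hEo2.le
    linarith
  have hhi0 : (0 : ℤ) ≤ Γ.hi := by
    have h1 : Γ.hi = (Γ.k : ℤ) + Γ.N := rfl
    omega
  have one : ∀ x' z : ℤ, x' ≤ z → z ≤ x' + (2 * Tg h₀ Kg d.o : ℕ) → 0 ≤ x' → z ≤ Γ.hi →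
      Real.exp (-d.aT) ≤ kM31 μ s Γ ω i (2 * Tg h₀ Kg d.o) x' z := by
    intro x' z h1 h2 h3 h4
    refine le_trans (Real.exp_le_exp.2 (neg_le_neg N.one)) ?_
    exact H56.one56 hsl0 hsl1 Γ.p_pos hBp (fun j y h5 h6 h7 => hη1 j y (by omega) (by omega) h7) (fun j _ _ => hpB j) x' z h1 h2 h3 h4
  have upw : ∀ x' ∈ Icc (0 : ℤ) Γ.hi, ∀ z : ℤ, |(x' : ℝ) - cn| ≤ d.Wd d.l₁ →
      kM31 μ s Γ ω i (2 * Tg h₀ Kg d.o) x' z ≤ Real.exp d.u₁ := by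
    intro x' hx' z h1
    refine (H56.up56 hD₅.le hQ.le (hc_nonneg h0 _) (by linarith) KU (W := d.Wd d.l₁ + d.D₀) (Lη := d.Lη) ?_ ?_ z).trans
      (Real.exp_le_exp.2 N.lvu)
    · exact hη1 i x' (by omega) (by omega) hx'
    · exact (hκd x').trans (by linarith)
  -- the shells
  have hcA' : ∀ z : ℤ, |lat16 μ s (pt x.1) ((((G.z d.o x.1).1 - Tg h₀ Kg d.o : ℕ) : ℤ), z) - ((z : ℝ) - cn)| ≤ d.D₀ := by
    rw [← hi]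
    exact hcA
  have hcB' : ∀ z : ℤ, |lat16 μ s (pt x.1) ((((G.z d.o x.1).1 + Tg h₀ Kg d.o : ℕ) : ℤ), z) - ((z : ℝ) - cn')| ≤ d.D₀ := by
    rw [eTop, ← hi]
    exact hcB
  have shl : ∀ j, d.l₁ ≤ j → j < d.L → ∃ (nn : ℕ) (A : Finset ℤ), Shd31 Γ ω i (2 * Tg h₀ Kg d.o) cn cn' (d.Wd j)
      (some (d.Wd (j + 1))) (d.κ j) nn A := by
    intro j h1 h2
    have hLm := N.hLm
    obtain ⟨v, v1, v2, v3, hgd⟩ := hsh j h1 (by omega)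
    obtain ⟨g1, g2, g3, g4, g5⟩ := N.st j v h1 h2 v1 v2 v3
    obtain ⟨Nv, qv, bv, SV, hlenV⟩ := HQ (θ := θ) (Kw := Kw) (h := Γ.h) (R := Rb) (C₀ := C₀) (B := B) (h₀ := h₀) (G := G) (L := Lg)
      (Lm := Lm) (b := v + 1) (y := y) (x := x.1) (ω := ω) hθ.le hθ8 (by linarith) g hΛC hh (by omega) (by omega) (by omega) hym hy0 hyR
      (fun w hw => hrow w (by omega)) (by rw [show v + 1 - 2 = v - 1 by omega]; exact hgd.r1)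
      (by rw [show v + 1 - 1 = v by omega]; exact hgd.r2) (hforce (v + 1) (by omega) (by omega))
    have SV' := Slabs.sub31 SV (a' := 0) (b' := 2 * (v + 1)) (n' := nS) le_rfl le_rfl aS' (hwT SV).1 (hwT SV).2
    obtain ⟨nn, A, H⟩ := HS (Γ := Γ) (ω := ω) (G := G) (GS := GS) (h₀ := h₀) (Kg := Kg) (Lg := Lg) (Lm := Lm) (o := d.o) (v := v)
      (k := v + d.m0) (Mt := d.Mt) (x := x) (y := y) (τ := τ) (κv := d.κv v) hΓ hp hp' g.ok g.H hT hv (by omega) v1 (by omega) (by omega)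
      SV' hlenV (hNN (v + 1) (by omega)).le (hNE (v + 1) (by omega) (by omega)) (fun w hw => hrow w (by omega)) hgd N.σ0
      (nb := d.nb j v) hcA' hcB' (W₀ := d.Wd j) (W₁ := d.Wd (j + 1)) (κ := d.κ j) (δ := d.δ) g1 N.δ0 (N.Wp _) (N.pr j v h1 h2 v1 v2 v3)
      g2 g3 g4 g5
    rw [← hi] at H
    exact ⟨nn, A, H⟩
  have shT : ∃ (nn : ℕ) (A : Finset ℤ), Shd31 Γ ω i (2 * Tg h₀ Kg d.o) cn cn' (d.Wd d.L) none (d.κ d.L) nn A := by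
    obtain ⟨v, v1, v2, v3, hgd⟩ := hsh d.lT N.h1T N.hTm
    have hTm := N.hTm
    have hzz := (g.row_in (v := d.o) (t := v + 1) (by omega) (by omega) x.1).1
    have hTT : Tg h₀ Kg d.o ≤ Tg h₀ Kg (v + 1) := Tg_mono (by omega) (by omega)
    have hrv := hrow (v + 1) (by omega)
    obtain ⟨nn, A, H⟩ := shT31 (μ := μ) (s := s) (c := c) (θ := θ) (Kw := Kw) (P := P) hsl0 hsl1 (Γ := Γ) (ω := ω) (G := G) (GS := GS) (h₀ := h₀) (Kg := Kg) (Lg := Lg)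
      (Lm := Lm) (o := d.o) (v := v) (k := v + d.m0) (Mt := d.Mt) (x := x) (y := y) (τ := τ) (κv := d.κv v) hΓ g.ok g.H hT hv (by omega) v1
      (by omega) (by omega) (hNN (v + 1) (by omega)).le (fun w hw => hrow w (by omega)) (by omega) hgd hcA' hcB' (W₀ := d.Wd d.L)
      (N.prT v v1 v2 v3) (N.stT v v1 v2 v3)
    rw [← hi] at H
    exact ⟨nn, A, H⟩
  have all : ∀ j : ℕ, ∃ (nn : ℕ) (A : Finset ℤ), d.l₁ ≤ j → j ≤ d.L → Shd31 Γ ω i (2 * Tg h₀ Kg d.o) cn cn' (d.Wd j)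
      (if j < d.L then some (d.Wd (j + 1)) else none) (d.κ j) nn A := by
    intro j
    by_cases h1 : d.l₁ ≤ j ∧ j ≤ d.L
    · rcases Nat.lt_or_ge j d.L with h2 | h2
      · obtain ⟨nn, A, H⟩ := shl j h1.1 h2
        exact ⟨nn, A, fun _ _ => by rw [if_pos h2]; exact H⟩
      · obtain rfl : j = d.L := le_antisymm h1.2 h2
        obtain ⟨nn, A, H⟩ := shT
        exact ⟨nn, A, fun _ _ => by rw [if_neg (lt_irrefl _)]; exact H⟩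
    · exact ⟨0, ∅, fun h2 h3 => absurd ⟨h2, h3⟩ h1⟩
  choose nn A hall using all
  have hn1 : ∀ j, d.l₁ ≤ j → j ≤ d.L → 2 * Tg h₀ Kg d.o ≤ nn j := fun j h1 h2 => (hall j h1 h2).n1
  have hn2 : ∀ j, d.l₁ ≤ j → j ≤ d.L → i + nn j ≤ Γ.N := fun j h1 h2 => (hall j h1 h2).n2
  have hopt : ∀ {j : ℕ} {ξ : ℝ}, InS d.Wd d.L j ξ → ∀ W ∈ (if j < d.L then some (d.Wd (j + 1)) else none : Option ℝ), |ξ| ≤ W := by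
    intro j ξ h1 W hW
    by_cases h2 : j < d.L
    · rw [if_pos h2, Option.mem_some_iff] at hW
      rw [← hW]
      exact h1.2 h2
    · rw [if_neg h2] at hW
      cases hW
  have hsi : ∀ j, d.l₁ ≤ j → j ≤ d.L → ∀ x ∈ Icc (0 : ℤ) Γ.hi, x ≤ Γ.hi - Γ.N + i → InS d.Wd d.L j ((x : ℝ) - cn) →
      ∑ v ∈ Icc (0 : ℤ) Γ.hi \ A j, ker (wt ω) Γ.p i (nn j) x v * bw (wt ω) Γ.p (i + nn j) (Γ.N - (i + nn j)) v ≤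
        1 / 2 * bw (wt ω) Γ.p i (Γ.N - i) x := fun j h1 h2 x' hx' _ h3 => (hall j h1 h2).si x' hx' h3.1 (hopt h3)
  have hsn : ∀ j, d.l₁ ≤ j → j ≤ d.L → ∀ z ∈ Icc (0 : ℤ) Γ.hi, z ≤ Γ.hi - Γ.N + (i + 2 * Tg h₀ Kg d.o : ℕ) →
      InS d.Wd d.L j ((z : ℝ) - cn') → ∑ v ∈ Icc (0 : ℤ) Γ.hi \ A j, ker (wt ω) Γ.p (i + 2 * Tg h₀ Kg d.o) (nn j - 2 * Tg h₀ Kg d.o) z v *
        bw (wt ω) Γ.p (i + 2 * Tg h₀ Kg d.o + (nn j - 2 * Tg h₀ Kg d.o)) (Γ.N - (i + 2 * Tg h₀ Kg d.o + (nn j - 2 * Tg h₀ Kg d.o))) v ≤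
        1 / 2 * bw (wt ω) Γ.p (i + 2 * Tg h₀ Kg d.o) (Γ.N - (i + 2 * Tg h₀ Kg d.o)) z :=
    fun j h1 h2 z hz _ h3 => (hall j h1 h2).sn z hz h3.1 (hopt h3)
  have hfL : ∀ j, d.l₁ ≤ j → j ≤ d.L → ms (wt ω) Γ.p Γ.N Cx.l (i + nn j) (A j) ≤
      Real.exp (-d.κ j) * ∑ y ∈ Icc (0 : ℤ) Γ.hi, Cx.l y * bw (wt ω) Γ.p 0 Γ.N y := fun j h1 h2 => (hall j h1 h2).fL
  have hfR : ∀ j, d.l₁ ≤ j → j ≤ d.L → ms (wt ω) Γ.p Γ.N Γ.r (i + nn j) (A j) ≤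
      Real.exp (-d.κ j) * ∑ y ∈ Icc (0 : ℤ) Γ.hi, Γ.r y * bw (wt ω) Γ.p 0 Γ.N y := fun j h1 h2 => (hall j h1 h2).fR
  have hl1L : d.l₁ ≤ d.L := by have := N.h12; have := N.h2L; omega
  have hbN : (0 : ℤ) + Γ.N ≤ Γ.hi := by have := hb.X0; have := hb.X1; omega
  have hpL : ∃ x' : ℤ, |(x' : ℝ) - cn| ≤ d.Wd d.l₁ ∧ 0 < fw (wt ω) Γ.p Cx.l i x' :=
    pos_win31 (wt_pos ω) Γ.p_pos hb.g.l0 (fun y h => (hb.lo0 y h).1) (fun y h => (hb.hi0 y h).1) hbN (by omega) hl1L (κ₀ := d.κ₀)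
      (κ := d.κ) N.κ4 hn2 hsi hfL N.κ0 (SD53.ZG_l_pos hΓ ω)
  have hpR : ∃ x' : ℤ, |(x' : ℝ) - cn| ≤ d.Wd d.l₁ ∧ 0 < fw (wt ω) Γ.p Γ.r i x' :=
    pos_win31 (wt_pos ω) Γ.p_pos hb.g.r0 (fun y h => (hb.lo0 y h).2) (fun y h => (hb.hi0 y h).2) hbN (by omega) hl1L (κ₀ := d.κ₀)
      (κ := d.κ) N.κ4 hn2 hsi hfR N.κ0 (SD53.ZG_r_pos hΓ ω)
  have hmet := H77.met77 hΓ (i := i) (by omega) (D := GS.dk kk τ) (by rw [hi]; exact dk_row_nat hT hkk τ ho) hem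
  have eGV : ∀ z, GV Γ ν G t x.1 ω z = GG (wt ω) Γ.p Γ.N (i + 2 * Tg h₀ Kg d.o) z := by
    intro z
    unfold GV
    rw [eI, eNr]
  refine vin95 (c := x.1) (Wd := d.Wd) (l₁ := d.l₁) (l₂ := d.l₂) (L := d.L) (l' := d.l') (σ := σ) (sg := d.sg) (aT := d.aT) (R := d.R)
    (r := d.r) (a := d.a) (u₁ := d.u₁) (nn := nn) (A := A) (κ := d.κ) (κ₀ := d.κ₀) (g₁ := d.g₁) hΓ N.tj (by rw [eI, eNr]; exact hNi)
    N.h12 N.h2L N.h'2 hσ0 N.E0 N.w0 N.Q0 N.c1 (by rw [hσ]; exact N.sc) (by rw [hσ]; exact N.sg) hsl0 hsl1 ?_ ?_ ?_ ?_ ?_ ?_ ?_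
    (by rw [eI, ← hcn]; exact hpL) (by rw [eI, ← hcn]; exact hpR) (by rw [eNr]; exact hn1) (by rw [eI]; exact hn2) ?_ ?_
    (by rw [eI]; exact hfL) (by rw [eI]; exact hfR) (by rw [eI]; exact hmet) hR1 hR2 hb1 hb2 N.Wm N.W12 N.W1 N.W2
    (by rw [eNr]; push_cast; exact N.Wn) N.n1 N.n2 N.n3 N.n3' (by rw [eNr]; push_cast; exact N.n4) N.n5 (by rw [hσ]; exact N.n6)
    (by rw [hσ]; exact N.n7) (by rw [hσ]; exact N.Bκ) N.κ0 N.κ4 N.num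
  · rw [eI, eNr, ← hcn, ← hcn']
    intro l h1 h2 x' z h3 _ _ h4
    exact low l h1 h2 x' z (by linarith [h3.2 h2]) h4
  · rw [eI, eNr, ← hcn, ← hcn']
    intro l h1 h2 x' z h3 _ _ h4
    refine low l h1 h2 x' z ?_ h4
    have h5 := h3.2 h2
    have h6 := abs_sub_abs_le_abs_sub ((x' : ℝ) - cn) ((z : ℝ) - cn')
    rw [abs_sub_comm] at h4
    linarith
  · rw [eI, eNr]
    exact one
  · rw [eI, eNr, ← hcn, ← hcn']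
    exact fun x' hx' z _ h1 _ => upw x' hx' z h1
  · rw [eNr, ← hcn']
    intro l hl z z₀ h1 h2
    rw [eGV, eGV]
    exact hLG l hl z z₀ h1 h2
  · rw [eI, eNr, ← hcn]
    exact hLl
  · rw [eI, eNr, ← hcn]
    exact hLr
  · rw [eI, ← hcn]
    exact hsi
  · rw [eI, eNr, ← hcn']
    exact hsn

end

end Pool.Agent.W_7d29a1_C1.D31
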