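import Pool.Agent.W_7d29a1_C1.TdJ51
import Pool.Agent.W_7d29a1_C1.VT31
import Pool.Agent.W_7d29a1_C1.Nd74
import Pool.Agent.W_7d29a1_C1.Ev27
import Pool.Agent.W_7d29a1_C1.GeD90
import Pool.Agent.W_7d29a1_C1.RwG90

/-!
MP_7d29a1_pr, attractor route [C1], field `nu` of one context: **THE DETERMINISM `DtQ51`** (helper90, second typist of DtZ77).
`dtS90` : from `vt31` (helper31), `nd74` (helper74), `ged90` and `rwV90`.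
-/

set_option autoImplicit false
set_option linter.unusedSectionVars false

namespace Pool.Agent.W_7d29a1_C1.Dts90

open MeasureTheory ProbabilityTheory Finset Filter Topology
open Pool.Agent.W_7d29a1_F Pool.Agent.W_7d29a1_h4g Pool.Agent.W_7d29a1_H Pool.Agent.W_7d29a1_HS
open Pool.Agent.W_7d29a1_C1.T10 (Gd pt Tg Hg Tg_pos Tg_mono Hg_mono GW)
open Pool.Agent.W_7d29a1_C1.H8
open Pool.Agent.W_7d29a1_C1.H60
open Pool.Agent.W_7d29a1_C1.H40 (Tk)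
open Pool.Agent.W_7d29a1_C1.H49 (ex em ex_mono)
open Pool.Agent.W_7d29a1_C1.G37 (Gm Wok)
open Pool.Agent.W_7d29a1_C1.N49 (thN)
open Pool.Agent.W_7d29a1_C1.SF98 (XS up)
open Pool.Agent.W_7d29a1_C1.Nu51
open Pool.Agent.W_7d29a1_C1.D31
open Pool.Agent.W_7d29a1_C1.P74
open Pool.Agent.W_7d29a1_C1.Gd27 (gT27 gwT27)
open Pool.Agent.W_7d29a1_C1.Ev27 (rg27)
open Pool.Agent.W_7d29a1_C1.Fr47 (V47)
open Pool.Agent.W_7d29a1_C1.Gd90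
open Pool.Agent.W_7d29a1_C1.Rw90 (rwV90)
open Pool.Agent.W_7d29a1_C1.Win84 (LB84 UB84)
open scoped ENNReal

noncomputable section

variable {μ : Measure ℝ} [IsProbabilityMeasure μ] {s c C : ℝ} {n₀ : ℕ}

/-- The threshold of a good scale. -/
theorem th90 {k : SC51} {h₀ v : ℕ} (hv : 1 ≤ v) : k.th μ s (2 * h₀) v (v + k.m0) = k.η * (k.m0 : ℝ) ^ k.A * EE μ s (Tg h₀ k.K v) := by
  have e1 : v + k.m0 - v = k.m0 := by omega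
  have e2 : Tg h₀ k.K v = 2 * h₀ * k.K ^ v := Tg_pos hv
  show k.η * ((v + k.m0 - v : ℕ) : ℝ) ^ k.A * EE μ s (2 * h₀ * k.K ^ v) = _
  rw [e1, e2]

/-- **THE DETERMINISM.** -/
theorem dtS90 (hI : In μ s c C n₀) (hL : LB84 μ s) (hU : UB84 μ s) {c₁ c₃ : ℝ} (hc₁ : 0 < c₁) (hc13 : c₁ < c₃) : DtQ51 μ s c c₁ c₃ := by
  intro Φ P hΦ
  obtain ⟨σ, hσd⟩ : ∃ σ, σ = min (c / 64) (c₃ - c₁) := ⟨_, rfl⟩
  have hc0 := hI.c0
  have hσ : 0 < σ := hσd ▸ lt_min (by linarith) (by linarith)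
  have hσc : σ ≤ c / 64 := hσd ▸ min_le_left _ _
  have hσ13 : σ ≤ c₃ - c₁ := hσd ▸ min_le_right _ _
  obtain ⟨Z₀, ρ₁, hρ₁, HN⟩ := nd74 hI hΦ hσ.le hσc
  refine ⟨ρ₁, hρ₁, fun ρ hρ hρρ hρ1 e he he1 => ?_⟩
  obtain ⟨K₁, hK₁, HN⟩ := HN (max Z₀ 4) (le_max_left _ _) ρ hρ hρρ e he he1
  refine ⟨K₁, fun K hK R B C₀ hR hB hC => ?_⟩
  have hK2 : 2 ≤ K := by omega
  obtain ⟨Rg, C₅, C₆, D₅, D₆, hRg, hC₅, hC₆, hD₅, hD₆, n₁, hn₁, HV⟩ := vt31 hI P hK2 (Kw := 6) (θ := 1 / 8) le_rfl (by norm_num) le_rfl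
  refine ⟨σ, Rg, max Z₀ 4, hσ, hRg, le_max_right _ _, fun A hA y q₀ hq₀ hym hy0 hyR k hkK => ?_⟩
  obtain ⟨Q, hQ, HV⟩ := HV q₀ (C₀ * C₀) hq₀ (by positivity)
  obtain ⟨mb, HN⟩ := HN K hK P B C₅ C₆ D₅ D₆ Q 6 A hC₅.le hC₆.le hD₅.le hD₆.le hQ.le (by norm_num) hA (by omega)
  refine ⟨max mb k.τ₀, fun m hm => ?_⟩
  have hm1 : mb ≤ k.m0 + m := ((le_max_left _ _).trans hm).trans (Nat.le_add_left _ _)
  have hm2 : k.τ₀ ≤ k.m0 + m := ((le_max_right _ _).trans hm).trans (Nat.le_add_left _ _)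
  have hkm := k.hm
  have hkη := k.hη
  have hη0 : 0 < k.η * ((k.m0 + m : ℕ) : ℝ) ^ k.A := mul_pos hkη (pow_pos (by exact_mod_cast (by omega : 0 < k.m0 + m)) _)
  obtain ⟨kst, hkst, HN⟩ := HN (k.m0 + m) hm1 (k.η * ((k.m0 + m : ℕ) : ℝ) ^ k.A) 0 hη0 le_rfl
  refine ⟨kst, hkst, fun m₁ hm₁ => ?_⟩
  obtain ⟨w₁, hw₁, HN⟩ := HN m₁ hm₁
  refine ⟨w₁, hw₁, fun w₁' hw₁' => ?_⟩
  obtain ⟨q₁, hq₁, HN⟩ := HN w₁' hw₁'
  refine ⟨q₁, hq₁, fun PV QV SV gf u hQV hSV hgf hu => ?_⟩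
  obtain ⟨w₂, q₂, hw₂, hq₂, κn, k1, k2, k3, k4, k5, k6, k7, k8, HN⟩ := HN PV c₁ c₃ QV SV gf u hc₁ hσ13 hQV hSV hgf
  have he₀ : 0 < ρ * e := mul_pos hρ he
  have hee : ρ * e ≤ e := by nlinarith
  obtain ⟨e', κ₀, he', hκ₀, HG⟩ := ged90 hI hL hU he he1 he₀ hee hK2 (k.m0 + m + m₁) R C₀ B (K₁ := 2) (by norm_num)
  refine ⟨w₂, q₂, 1 / 32, e', 2 * (k.m0 + m) + 5, hw₂, hq₂, by norm_num, he', le_rfl, fun c₂ hc₂ hc₂s δ' hδ' hδc =>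
    ⟨κ₀, hκ₀, fun κ hκ hκκ => ⟨1, le_rfl, fun Qb _ hQb => ?_⟩⟩⟩
  subst hkK
  have evl : ∀ᶠ n : ℕ in atTop, 1 ≤ Real.log n :=
    (Real.tendsto_log_atTop.comp tendsto_natCast_atTop_atTop).eventually_ge_atTop 1
  filter_upwards [HN Qb hQb (|s| + 2) (by positivity), HG Qb c₂ δ' κ hQb hc₂s hδ' (by linarith) hκκ,
    rwV90 hI he he1 he₀ hee hK2 (max Z₀ 4) (k.m0 + m + m₁) hQb (m₂ := k.m0 + m + m₁) (by omega) hu (R := R) (C₀ := C₀) (B := B)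
      (c₂ := c₂) (δ := δ') (κ := κ) hc₂s, h8_big he₀ hQb n₁, rg27 he hK2 (k.m0 + m) hm₁ (Z := max Z₀ 4) (le_max_right _ _) 16, evl]
    with n hN hG9 hR9 hn₁' hrg hlog
  intro G hG
  obtain ⟨hNB, hN⟩ := hN
  obtain ⟨hM, hM16, hM2, hrg⟩ := hrg
  refine ⟨_, m8 k.K e n / 16, hNB, by omega, fun hW Γ hA => ?_⟩
  obtain ⟨hGC, B₁, hB₁, HS⟩ := hG9 G hG Γ hA
  obtain ⟨B₂, hB₂, HR⟩ := hR9 G hG Γ hA _ hNB.eT hNB.em hNB.eE hNB.ew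
  refine ⟨B₁ ∪ B₂, ?_, ?_⟩
  · refine (measure_union_le _ _).trans ((add_le_add hB₁ hB₂).trans ?_)
    rw [← two_mul]
    exact mul_le_mul' (by norm_num) le_rfl
  intro ω hω x hxS hw t ht2 htms htm hr2 hr1 hem hsh
  rw [Set.mem_union, not_or] at hω
  have S := HS ω hω.1 x.1 hxS hw
  have hRow := HR ω hω.2 x.1 hxS t htms
  have rg := hrg t ht2 htms
  have eo : t + (m₁ - 1) + (k.up m).m0 + 1 = κn.o t := by
    show t + (m₁ - 1) + (k.m0 + m) + 1 = t + (κn.m + κn.m₁)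
    rw [k1, k2]
    omega
  have eu : κn.u t = t + (m₁ - 1) := by
    show t + (κn.m₁ - 1) = _
    rw [k2]
  have eo' : κn.o t = t + (k.m0 + m + m₁) := by
    show t + (κn.m + κn.m₁) = _
    rw [k1, k2]
  have hhi1 : (((Icc (0 : ℤ) Γ.hi).card : ℕ) : ℝ) = (Γ.hi : ℝ) + 1 := by
    have h0 : (0 : ℤ) ≤ Γ.hi := by
      show (0 : ℤ) ≤ (Γ.k : ℤ) + Γ.N
      positivity
    rw [Int.card_Icc]
    have h2 : (((Γ.hi + 1 - 0).toNat : ℕ) : ℤ) = Γ.hi + 1 := by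
      rw [Int.toNat_of_nonneg (by omega)]
      ring
    exact_mod_cast h2
  have hhi0 : (0 : ℝ) ≤ Γ.hi := by
    have h0 : (0 : ℤ) ≤ Γ.hi := by
      show (0 : ℤ) ≤ (Γ.k : ℤ) + Γ.N
      positivity
    exact_mod_cast h0
  have hhi4 : (Γ.hi : ℝ) ≤ (n : ℝ) ^ 4 := by
    have h1 := hGC.hi4
    rw [hhi1] at h1
    linarith
  have hs0 : 0 ≤ |s| := abs_nonneg s
  obtain ⟨hκ, hNu⟩ := hN t ht2 htms.le (m8 k.K e n / 16) ((k.up m).G hW (m8 k.K e n)) Γ (Real.log n) (|s| + 1) Γ.hi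
    (fun v => (k.up m).th μ s (2 * h8 Qb (ρ * e) n) v (v + (k.up m).m0)) le_rfl (fun v hv => gwT27 hv) hGC.hi4
    (le_mul_of_one_le_left (by linarith) (by linarith)) (by
      have h1 := mul_le_mul_of_nonneg_left hlog (show 0 ≤ |s| + 2 by linarith)
      linarith) (hGC.h1.trans (by linarith)) hhi0 hhi4 (fun v hv1 hv2 => by
      rw [sub_zero]
      exact (th90 (k := k.up m) (show 1 ≤ v by omega)).ge)
  rw [eo] at htm hr2 hr1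
  have hlrT := hNu.lrT (m8 k.K e n / 16 - 1) (show m8 k.K e n / 16 - 1 < m8 k.K e n / 16 by omega)
  have hWL : wd μ s (Tg (h8 Qb (ρ * e) n) k.K (κn.o t + m8 k.K e n / 16)) ≤ 2 * wd μ s (Tg (h8 Qb (ρ * e) n) k.K (m8 k.K e n / 2)) := by
    have h1 : wd μ s (Tg (h8 Qb (ρ * e) n) k.K (κn.o t + (m8 k.K e n / 16 - 1 + 1))) + 1 + wd μ s (B * Tg (h8 Qb (ρ * e) n) k.K t) +
        (2 * (Tg (h8 Qb (ρ * e) n) k.K (κn.o t) : ℝ) + 1) ≤ 2 * wd μ s (Tg (h8 Qb (ρ * e) n) k.K (m8 k.K e n / 2)) := hlrT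
    rw [show m8 k.K e n / 16 - 1 + 1 = m8 k.K e n / 16 by omega] at h1
    have h2 : 0 ≤ wd μ s (B * Tg (h8 Qb (ρ * e) n) k.K t) := hI.wd_nonneg _
    have h3 : (0 : ℝ) ≤ Tg (h8 Qb (ρ * e) n) k.K (κn.o t) := Nat.cast_nonneg _
    linarith
  have r1 := rg.ou
  have r2 := rg.uL
  have r3 := rg.eo
  obtain ⟨hR1, hR2, hb1, hb2⟩ := S.box (nu74 μ s (Tg (h8 Qb (ρ * e) n) k.K) κn ⟨PV, c₁, c₃, QV, SV, w₁, w₁', w₂, kst, q₁, q₂, gf, u⟩) t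
    (m8 k.K e n / 2) (wd μ s (Tg (h8 Qb (ρ * e) n) k.K (κn.o t + m8 k.K e n / 16))) rfl (by omega)
    (by show t + (κn.m + κn.m₁) ≤ _; rw [k1, k2]; omega) (by omega) (by omega) (hI.wd_nonneg _) hWL
  have key := HV (Γ := Γ) (ω := ω) (G := G) (GS := (k.up m).G hW (m8 k.K e n)) (Rb := R) (C₀ := C₀) (B := B) (h₀ := h8 Qb (ρ * e) n)
    (Lg := m8 k.K e n + (k.m0 + m + m₁)) (Lm := m8 k.K e n + (k.m0 + m + m₁)) (t := t) (τ := (k.up m).τ₀)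
    (kk := t + (m₁ - 1) + (k.up m).m0) (y := y) (x := up x)
    (ν := nu74 μ s (Tg (h8 Qb (ρ * e) n) k.K) κn ⟨PV, c₁, c₃, QV, SV, w₁, w₁', w₂, kst, q₁, q₂, gf, u⟩)
    (d := d74 μ s (h8 Qb (ρ * e) n) k.K B κn ⟨PV, c₁, c₃, QV, SV, w₁, w₁', w₂, kst, q₁, q₂, gf, u⟩ Γ.h t (m8 k.K e n / 2) (m8 k.K e n / 16)
      (m8 k.K e n / 128) (m8 k.K e n / 16) (Real.log n) (|s| + 1) Γ.hi
      (fun v => (k.up m).th μ s (2 * h8 Qb (ρ * e) n) v (v + (k.up m).m0)))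
    hGC.ok hGC.p1 hGC.p2 hG (fun v hv => gT27 hv) rfl le_rfl hn₁' hym hy0 hyR
    (by show κn.u t + m8 k.K e n / 16 ≤ _; omega) (by show κn.u t + m8 k.K e n / 16 ≤ _; omega) (by show 2 ≤ κn.o t; omega)
    (by show κn.o t ≤ κn.u t + m8 k.K e n / 16; omega) (by show k.τ₀ ≤ κn.o t; omega)
    (fun w hw => S.rlo w (hw.trans (by show κn.u t + m8 k.K e n / 16 ≤ _; omega)))
    (fun w hw => S.rhi w (hw.trans (by show κn.u t + m8 k.K e n / 16 ≤ _; omega)))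
    (fun w hw1 hw2 => hGC.NE w (by omega) (hw2.trans (by show κn.u t + m8 k.K e n / 16 ≤ _; omega)))
    (fun w hw1 hw2 => hGC.fo w hw1 (hw2.trans (by show κn.u t + m8 k.K e n / 16 ≤ _; omega)))
    (fun j z _ hj hz => S.w1 j z (by
      have h1 := S.rhi (κn.o t) (by omega)
      have h2 := S.rlo (κn.o t) (by omega)
      have h3 : j ≤ (G.z (κn.o t) x.1).1 - Tg (h8 Qb (ρ * e) n) k.K (κn.o t) + 2 * Tg (h8 Qb (ρ * e) n) k.K (κn.o t) := hj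
      omega) hz)
    (fun z hz => S.w2 _ (m8 k.K e n / 2) z (by
      have h1 := S.rhi (κn.o t) (by omega)
      show (G.z (κn.o t) x.1).1 - Tg (h8 Qb (ρ * e) n) k.K (κn.o t) ≤ Γ.N
      omega) (by omega) (by omega) hz)
    (by show 0 ≤ |s| + 1; linarith) hGC.pB hR1 hR2 hb1 hb2
    (by
      show TM31 μ s Γ G (Tg (h8 Qb (ρ * e) n) k.K) (m8 k.K e n / 2) 2 κn.A κn.Φ κn.σ (κn.o t) x.1 ω
      rw [k4, k5, k6]
      exact htm) hr2 hr1 (by show t + (m₁ - 1) + (k.up m).m0 + 1 ≤ κn.o t; omega)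
    (lt_of_lt_of_le hem (ex_mono (by
      show -((k.up m).th μ s (2 * h8 Qb (ρ * e) n) (t + (m₁ - 1)) (t + (m₁ - 1) + (k.up m).m0)) ≤
        -((kst * EE μ s (Tg (h8 Qb (ρ * e) n) k.K (κn.o t)) + 3) / 2)
      rw [th90 (k := k.up m) (show 1 ≤ t + (m₁ - 1) by omega)]
      rw [sub_zero, eu] at hκ
      exact neg_le_neg hκ)))
    (fun l hl1 hl2 => by
      obtain ⟨v, h1, h2, h3, h4⟩ := hsh l (by
        have h5 : κn.l₁ ≤ l := hl1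
        rw [k3] at h5
        exact h5) hl2
      refine ⟨v, by show κn.o t + 1 ≤ v; omega, by show κn.u t + (l - 1) / 2 ≤ v; omega, by show v + 2 ≤ κn.u t + l; omega, ?_⟩
      show GdS31 μ s c (1 / 8) 6 P Γ ((k.up m).G hW (m8 k.K e n)) G (h8 Qb (ρ * e) n) k.K _ _ y (m8 k.K e n / 2) 2 κn.A κn.Φ κn.σ k.τ₀ v
        (v + κn.m) _ (up x) ω
      rw [k1, k4, k5, k6]
      exact h4)
    hNu
  have htL : t + (k.m0 + m + m₁) ≤ m8 k.K e n + (k.m0 + m + m₁) := by omega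
  have htL' : t ≤ m8 k.K e n + (k.m0 + m + m₁) := by omega
  have ez : G.z t (G.z t x.1) = G.z t x.1 := hG.ok.z_z le_rfl htL' x.1
  have htν : t + (nu74 μ s (Tg (h8 Qb (ρ * e) n) k.K) κn ⟨PV, c₁, c₃, QV, SV, w₁, w₁', w₂, kst, q₁, q₂, gf, u⟩).m₂ ≤
      m8 k.K e n + (k.m0 + m + m₁) := by
    show t + (κn.m + κn.m₁) ≤ _
    rw [k1, k2]
    omega
  obtain ⟨hV31, hLP⟩ := key
  refine ⟨⟨?_, ?_, hRow⟩, ?_⟩
  · show Tg (h8 Qb (ρ * e) n) k.K (t + (κn.m + κn.m₁)) ≤ (G.z (t + (κn.m + κn.m₁)) (G.z t x.1)).1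
    have ez2 : G.z (t + (κn.m + κn.m₁)) (G.z t x.1) = G.z (t + (κn.m + κn.m₁)) x.1 := hG.ok.z_z (Nat.le_add_right _ _) htν x.1
    rw [ez2]
    exact S.rlo _ htν
  · rw [eV31 hG.ok htν ez]
    exact hV31
  · rw [eLP95 hG.ok htν ez]
    exact hLP

end

end Pool.Agent.W_7d29a1_C1.Dts90
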