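import Pool.Agent.W_7d29a1_C1.KerP16
import Pool.Agent.W_7d29a1_C1.Unc31
import Pool.Agent.W_7d29a1_C1.Dun31

/-!
MP_7d29a1_pr, attractor route [C1], SHELL: `uncovered` gives the data of the block, over the two groups of K91P. (helper31)

`k x z * G z` = the normalised `ker x z * bw z` of the rows `i, .., i + n - 1` of the ball (`hG`). `un_one`: the joint far mass of one group
from the prices of the far alternatives (`ms` at the two outer rows), levels and local regularity; `un31`: the whole block data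
`DP31` with the window of the cross ratio from the few early meetings.
-/

set_option autoImplicit false

namespace Pool.Agent.W_7d29a1_C1.D31

open Finset
open Pool.Agent.W_7d29a1_C1.K91 (Grp Box)
open Pool.Agent.W_7d29a1_C1.K91P
open Pool.Agent.W_7d29a1_C1.U31 (sum_fw_bw ms ms_nonneg cross_log)
open Pool.Agent.W_7d29a1_C1.U16 (ker fw_ker bw_ker ker_nonneg ker_eq_zero)

noncomputable section

variable {w : ℕ → ℤ → ℝ} {p : ℕ → ℝ} {l r m : ℤ → ℝ} {X lo hi : ℤ} {N : ℕ}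

/-- One start: the future mass over the ball. -/
theorem start_eq (hlo : ∀ y, y < lo → m y = 0) (hhi : ∀ y, hi - N < y → m y = 0) {i n : ℕ} (hin : i + n ≤ N) {k : ℤ → ℤ → ℝ}
    {G : ℤ → ℝ} {N₀ : ℝ} (hN₀ : 0 < N₀)
    (hG : ∀ x z, ker w p i n x z * bw w p (i + n) (N - (i + n)) z = N₀ * (k x z * G z)) {x : ℤ} (hx : x ∈ Icc lo hi) :
    fw w p m i x * ∑ z ∈ Icc lo hi, k x z * G z = N₀⁻¹ * (fw w p m i x * bw w p i (N - i) x) := by
  by_cases h0 : fw w p m i x = 0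
  · rw [h0, zero_mul, zero_mul, mul_zero]
  · have hxhi : x ≤ hi - N + i := by
      by_contra hcon
      exact h0 (fw_hi (B := hi - N) hhi i x (by omega))
    have e1 : bw w p i (N - i) x = ∑ z ∈ Icc x (x + n), ker w p i n x z * bw w p (i + n) (N - (i + n)) z := by
      have e : N - i = n + (N - (i + n)) := by omega
      rw [e]
      have h1 := bw_ker (w := w) (p := p) i n (N - (i + n)) x
      exact h1
    have e2 : ∑ z ∈ Icc x (x + n), ker w p i n x z * bw w p (i + n) (N - (i + n)) z =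
        ∑ z ∈ Icc lo hi, ker w p i n x z * bw w p (i + n) (N - (i + n)) z := by
      refine sum_subset (fun z hz => ?_) fun z _ hz => ?_
      · rw [mem_Icc] at hz hx ⊢
        omega
      · rw [ker_eq_zero (w := w) (p := p) i n x z (fun h => hz (mem_Icc.2 h)), zero_mul]
    have e3 : ∑ z ∈ Icc lo hi, ker w p i n x z * bw w p (i + n) (N - (i + n)) z = N₀ * ∑ z ∈ Icc lo hi, k x z * G z := by
      rw [mul_sum]
      exact sum_congr rfl fun z _ => hG x z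
    rw [e1, e2, e3]
    field_simp

/-- One end. -/
theorem end_eq (hlo : ∀ y, y < lo → m y = 0) {i n : ℕ} {k : ℤ → ℤ → ℝ}
    {G : ℤ → ℝ} {N₀ : ℝ} (hN₀ : 0 < N₀)
    (hG : ∀ x z, ker w p i n x z * bw w p (i + n) (N - (i + n)) z = N₀ * (k x z * G z)) {z : ℤ} (hz : z ∈ Icc lo hi) :
    G z * ∑ x ∈ Icc lo hi, k x z * fw w p m i x = N₀⁻¹ * (fw w p m (i + n) z * bw w p (i + n) (N - (i + n)) z) := by
  have e1 : fw w p m (i + n) z = ∑ x ∈ Icc lo hi, fw w p m i x * ker w p i n x z := by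
    rw [fw_ker]
    have s1 : ∑ x ∈ Icc (z - n) z, fw w p m i x * ker w p i n x z = ∑ x ∈ Icc (z - n) z ∪ Icc lo hi, fw w p m i x * ker w p i n x z := by
      refine sum_subset subset_union_left fun x _ hx => ?_
      rw [ker_eq_zero (w := w) (p := p) i n x z (fun h => hx (mem_Icc.2 ⟨by omega, h.1⟩)), mul_zero]
    have s2 : ∑ x ∈ Icc lo hi, fw w p m i x * ker w p i n x z = ∑ x ∈ Icc (z - n) z ∪ Icc lo hi, fw w p m i x * ker w p i n x z := by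
      refine sum_subset subset_union_right fun x hx hx' => ?_
      rw [mem_union] at hx
      have hx2 := hx.resolve_right hx'
      rw [mem_Icc] at hx2 hz
      have hlt : x < lo := by
        by_contra hcon
        exact hx' (mem_Icc.2 ⟨not_lt.1 hcon, by omega⟩)
      rw [fw_lo hlo i x hlt, zero_mul]
    rw [s1, s2]
  have e2 : ∀ x ∈ Icc lo hi, fw w p m i x * ker w p i n x z * bw w p (i + n) (N - (i + n)) z =
      N₀ * (G z * (k x z * fw w p m i x)) := by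
    intro x _
    rw [mul_assoc, hG x z]
    ring
  rw [e1, sum_mul, sum_congr rfl e2, ← mul_sum, ← mul_sum]
  field_simp

/-- **The joint far mass of one group, from the old content.** -/
theorem un_one (hw : ∀ k y, 0 < w k y) (hp : ∀ k, 0 < p k) (hm : ∀ y, 0 ≤ m y) (hlo : ∀ y, y < lo → m y = 0)
    (hhi : ∀ y, hi - N < y → m y = 0) (hb : lo + N ≤ hi) {i n : ℕ} (hin : i + n ≤ N) {k kap : ℤ → ℤ → ℝ}
    {G : ℤ → ℝ} {N₀ : ℝ} (hN₀ : 0 < N₀) (hG0 : ∀ z, 0 ≤ G z) (hk : ∀ x z, 0 ≤ k x z)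
    (hG : ∀ x z, ker w p i n x z * bw w p (i + n) (N - (i + n)) z = N₀ * (k x z * G z))
    {cen cen' W : ℝ} {d : ℤ → ℤ → ℝ} {cK σ : ℝ} {u r a u' r' a' : ℤ → ℝ} {sh sh' : ℤ → ℕ} {J : ℕ} {B B' κ κ' : ℕ → ℝ}
    {y yp : ℤ} {q u₀ g₁ gf : ℝ} (hkap0 : ∀ x z, 0 ≤ kap x z) (hd : ∀ x z, 0 ≤ d x z) (hσ : σ ≤ cK)
    (hkx : ∀ x ∈ Icc lo hi, W < |(x : ℝ) - cen| → ∀ z ∈ Icc lo hi, kap x z ≤ Real.exp (u x - cK * d x z))
    (hkz : ∀ z ∈ Icc lo hi, W < |(z : ℝ) - cen'| → ∀ x ∈ Icc lo hi, kap x z ≤ Real.exp (u' z - cK * d x z))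
    (hlx : ∀ x ∈ Icc lo hi, W < |(x : ℝ) - cen| → ∃ z₀ ∈ Icc lo hi, Real.exp (-a x) ≤ k x z₀ ∧
      ∀ z ∈ Icc lo hi, 0 < kap x z → G z ≤ Real.exp (r x + σ * d x z) * G z₀)
    (hlz : ∀ z ∈ Icc lo hi, W < |(z : ℝ) - cen'| → ∃ x₀ ∈ Icc lo hi, Real.exp (-a' z) ≤ k x₀ z ∧
      ∀ x ∈ Icc lo hi, 0 < kap x z → fw w p m i x ≤ Real.exp (r' z + σ * d x z) * fw w p m i x₀)
    (hsh : ∀ x ∈ Icc lo hi, W < |(x : ℝ) - cen| → sh x < J ∧ u x + r x + a x ≤ B (sh x))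
    (hsh' : ∀ z ∈ Icc lo hi, W < |(z : ℝ) - cen'| → sh' z < J ∧ u' z + r' z + a' z ≤ B' (sh' z))
    (hx : ∀ j < J, ms w p N m i ((Icc lo hi).filter (fun x : ℤ => W < |(x : ℝ) - cen| ∧ sh x = j)) ≤
      Real.exp (-κ j) * ∑ x ∈ Icc lo hi, m x * bw w p 0 N x)
    (hz : ∀ j < J, ms w p N m (i + n) ((Icc lo hi).filter (fun z : ℤ => W < |(z : ℝ) - cen'| ∧ sh' z = j)) ≤
      Real.exp (-κ' j) * ∑ x ∈ Icc lo hi, m x * bw w p 0 N x)
    (hB : ∀ j < J, B j + g₁ ≤ κ j) (hB' : ∀ j < J, B' j + g₁ ≤ κ' j) (hB0 : ∀ j < J, 0 ≤ B j) (hB0' : ∀ j < J, 0 ≤ B' j)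
    (hXw : ∀ x ∈ Icc lo hi, |(x : ℝ) - cen| ≤ W → fw w p m i x ≤ Real.exp q * fw w p m i y)
    (hFw : ∀ z ∈ Icc lo hi, |(z : ℝ) - cen'| ≤ W → G z ≤ Real.exp q * G yp)
    (hkw : ∀ x ∈ Icc lo hi, ∀ z ∈ Icc lo hi, |(x : ℝ) - cen| ≤ W → |(z : ℝ) - cen'| ≤ W → k x z ≤ Real.exp u₀)
    (hJ4 : 4 * (J : ℝ) ≤ Real.exp g₁)
    (hnum : 4 * ((Icc lo hi).card : ℝ) * J * ((Icc lo hi).card : ℝ) ^ 2 * Real.exp (2 * q + u₀ + gf) ≤ Real.exp g₁) :
    fsum (Icc lo hi) cen cen' W kap (fw w p m i) G ≤ Real.exp (-gf) * (fw w p m i y * G yp) := by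
  have hf0 : ∀ x, 0 ≤ fw w p m i x := fun x => fw_nonneg hw hp hm i x
  have eT : ∑ x ∈ Icc lo hi, fw w p m i x * ∑ z ∈ Icc lo hi, k x z * G z = N₀⁻¹ * ∑ x ∈ Icc lo hi, m x * bw w p 0 N x := by
    rw [← sum_fw_bw hlo hhi hb i (by omega), mul_sum]
    exact sum_congr rfl fun x hx' => start_eq hlo hhi hin hN₀ hG hx'
  have hinv : 0 ≤ N₀⁻¹ := (inv_pos.2 hN₀).le
  refine far31 (fun x _ => hf0 x) (fun z _ => hG0 z) (fun x _ z _ => hk x z) (fun x _ z _ => hkap0 x z) hd hσ hkx hkz hlx hlz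
    hsh hsh' (fun j hj => ?_) (fun j hj => ?_) hB hB' hB0 hB0' hXw hFw hkw (hf0 y) (hG0 yp) hJ4 hnum
  · rw [eT, sum_congr rfl fun x hx' => start_eq hlo hhi hin hN₀ hG (mem_filter.1 hx').1, ← mul_sum]
    have h1 := mul_le_mul_of_nonneg_left (hx j hj) hinv
    unfold ms at h1
    linarith
  · rw [eT, sum_congr rfl fun z hz' => end_eq hlo hN₀ hG (mem_filter.1 hz').1, ← mul_sum]
    have h1 := mul_le_mul_of_nonneg_left (hz j hj) hinv
    unfold ms at h1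
    linarith

/-- **`uncovered` gives the data of the block.** -/
theorem un31 (hw : ∀ k y, 0 < w k y) (hp : ∀ k, 0 < p k) (h : Box l r X lo hi N) {i : ℕ} (hi' : i ≤ N) {kap : ℤ → ℤ → ℝ}
    {G : ℤ → ℝ} {cen cen' W : ℝ} {yl yr yp : ℤ} {q gf κ₀ : ℝ} (hy1 : lo ≤ yl) (hy : yl ≤ yr) (hy2 : yr ≤ hi)
    (hl1 : 0 < fw w p l i yl) (hl2 : 0 < fw w p l i yr) (hr1 : 0 < fw w p r i yl) (hr2 : 0 < fw w p r i yr) (hGp : 0 < G yp)
    (hmet : ∑ j ∈ range i, mt w p l r lo hi N j ≤ Real.exp (-κ₀) *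
      ((∑ x ∈ Icc lo hi, l x * bw w p 0 N x) * ∑ y ∈ Icc lo hi, r y * bw w p 0 N y))
    (hol : ms w p N l i (Icc lo hi \ Icc yl yr) ≤ Real.exp (-κ₀) * ∑ x ∈ Icc lo hi, l x * bw w p 0 N x)
    (hor : ms w p N r i (Icc lo hi \ Icc yl yr) ≤ Real.exp (-κ₀) * ∑ y ∈ Icc lo hi, r y * bw w p 0 N y)
    (tL : ∀ x x' : ℤ, |(x : ℝ) - cen| ≤ W → |(x' : ℝ) - cen| ≤ W → fw w p l i x ≤ Real.exp q * fw w p l i x')
    (tR : ∀ x x' : ℤ, |(x : ℝ) - cen| ≤ W → |(x' : ℝ) - cen| ≤ W → fw w p r i x ≤ Real.exp q * fw w p r i x')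
    (tF : ∀ x x' : ℤ, |(x : ℝ) - cen'| ≤ W → |(x' : ℝ) - cen'| ≤ W → G x ≤ Real.exp q * G x')
    (farL : fsum (Icc lo hi) cen cen' W kap (fw w p l i) G ≤ Real.exp (-gf) * (fw w p l i yl * G yp))
    (farR : fsum (Icc lo hi) cen cen' W kap (fw w p r i) G ≤ Real.exp (-gf) * (fw w p r i yr * G yp)) :
    DP31 (Icc lo hi) cen cen' W kap yl yr yp (2 * κ₀ - 3) q gf (fw w p l i) (fw w p r i) G where
  Ll := hl1
  Lr := hl2
  Rl := hr1
  Rr := hr2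
  Fp := hGp
  win := cross_log hw hp h hi' hy1 hy hy2 hl1 hl2 hr1 hr2 hmet hol hor
  tL := tL
  tR := tR
  tF := tF
  farL := farL
  farR := farR

end

end Pool.Agent.W_7d29a1_C1.D31
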