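import Pool.Agent.W_7d29a1_C1.EL60
import Pool.Agent.W_7d29a1_C1.NumM17

/-!
MP_7d29a1_pr, attractor route, the shell (helper10): the instance of the grid (page 690 section 2) in the convention of `EL60`
(helper60): `T 0 = 0`, `T v = 2 h₀ K ^ v` for `1 ≤ v`, heights `H v = h₀ K ^ v` (`H 0 = H 1`), widths `V v` = powers of `K` comparable
with `D wd (T v)` (`V 0 = V 1`), regions `AT T v`.
-/

set_option autoImplicit false

namespace Pool.Agent.W_7d29a1_C1.T10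

open MeasureTheory Filter Topology
open Pool.Agent.W_7d29a1_F Pool.Agent.W_7d29a1_h4g Pool.Agent.W_7d29a1_H Pool.Agent.W_7d29a1_HS

noncomputable section

/-! ### Widths -/

/-- The exponent of the width of level `v`: the largest `log_K ⌊W u⌋`, `u ≤ v`. -/
def ex (K : ℕ) (W : ℕ → ℝ) : ℕ → ℕ
  | 0 => Nat.log K ⌊W 0⌋₊
  | v + 1 => max (ex K W v) (Nat.log K ⌊W (v + 1)⌋₊)

theorem ex_mono (K : ℕ) (W : ℕ → ℝ) : Monotone (ex K W) := monotone_nat_of_le_succ fun _ => le_max_left _ _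

theorem ex_ge (K : ℕ) (W : ℕ → ℝ) (v : ℕ) : Nat.log K ⌊W v⌋₊ ≤ ex K W v := by
  cases v with
  | zero => exact le_rfl
  | succ v => exact le_max_right _ _

theorem ex_eq (K : ℕ) (W : ℕ → ℝ) (v : ℕ) : ∃ u, u ≤ v ∧ ex K W v = Nat.log K ⌊W u⌋₊ := by
  induction v with
  | zero => exact ⟨0, le_rfl, rfl⟩
  | succ v ih =>
    obtain ⟨u, hu, h⟩ := ih
    rcases le_total (ex K W v) (Nat.log K ⌊W (v + 1)⌋₊) with h1 | h1
    · exact ⟨v + 1, le_rfl, max_eq_right h1⟩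
    · exact ⟨u, by omega, (max_eq_left h1).trans h⟩

/-- The width of level `v` from above. -/
theorem pow_ex_le {K : ℕ} {W : ℕ → ℝ} {v : ℕ} {B : ℝ} (h1 : ∀ u, u ≤ v → 1 ≤ W u) (hB : ∀ u, u ≤ v → W u ≤ B) :
    ((K ^ ex K W v : ℕ) : ℝ) ≤ B := by
  obtain ⟨u, hu, h⟩ := ex_eq K W v
  rw [h]
  have h2 : ⌊W u⌋₊ ≠ 0 := (Nat.floor_pos.2 (h1 u hu)).ne'
  have h3 : ((K ^ Nat.log K ⌊W u⌋₊ : ℕ) : ℝ) ≤ ((⌊W u⌋₊ : ℕ) : ℝ) := by exact_mod_cast Nat.pow_log_le_self K h2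
  exact h3.trans ((Nat.floor_le (by linarith [h1 u hu])).trans (hB u hu))

/-- The width of level `v` from below. -/
theorem le_pow_ex {K : ℕ} (hK : 1 < K) {W : ℕ → ℝ} {v : ℕ} : W v ≤ ((K * K ^ ex K W v : ℕ) : ℝ) := by
  have h1 : ⌊W v⌋₊ < K ^ (Nat.log K ⌊W v⌋₊ + 1) := Nat.lt_pow_succ_log_self hK _
  have h2 : K ^ (Nat.log K ⌊W v⌋₊ + 1) ≤ K ^ (ex K W v + 1) := Nat.pow_le_pow_right (by omega) (by
    have := ex_ge K W v
    omega)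
  have h3 : ⌊W v⌋₊ + 1 ≤ K * K ^ ex K W v := by
    rw [← pow_succ']
    omega
  have h4 : W v < ((⌊W v⌋₊ + 1 : ℕ) : ℝ) := by
    push_cast
    exact Nat.lt_floor_add_one _
  have h5 : ((⌊W v⌋₊ + 1 : ℕ) : ℝ) ≤ ((K * K ^ ex K W v : ℕ) : ℝ) := by exact_mod_cast h3
  linarith

/-! ### The scales -/

/-- The radii: `T 0 = 0`, `T v = 2 h₀ K ^ v`. -/
def Tg (h₀ K v : ℕ) : ℕ := if v = 0 then 0 else 2 * h₀ * K ^ v

/-- The heights: `H 0 = H 1`, `H v = h₀ K ^ v`. -/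
def Hg (h₀ K v : ℕ) : ℕ := h₀ * K ^ max v 1

theorem Tg_zero (h₀ K : ℕ) : Tg h₀ K 0 = 0 := if_pos rfl

theorem Tg_pos {h₀ K v : ℕ} (hv : 1 ≤ v) : Tg h₀ K v = 2 * h₀ * K ^ v := if_neg (by omega)

theorem Hg_zero (h₀ K : ℕ) : Hg h₀ K 0 = Hg h₀ K 1 := rfl

theorem Hg_pos {h₀ K v : ℕ} (hv : 1 ≤ v) : Hg h₀ K v = h₀ * K ^ v := by
  unfold Hg
  rw [max_eq_left hv]

theorem Tg_Hg {h₀ K v : ℕ} (hv : 1 ≤ v) : Tg h₀ K v = 2 * Hg h₀ K v := by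
  rw [Tg_pos hv, Hg_pos hv, mul_assoc]

theorem Tg_mono {h₀ K : ℕ} (hK : 1 ≤ K) : Monotone (Tg h₀ K) := by
  refine monotone_nat_of_le_succ fun v => ?_
  rcases Nat.eq_zero_or_pos v with rfl | hv
  · rw [Tg_zero]
    exact Nat.zero_le _
  · rw [Tg_pos hv, Tg_pos (by omega)]
    exact Nat.mul_le_mul_left _ (Nat.pow_le_pow_right hK (Nat.le_succ v))

theorem Tg_lt {h₀ K v : ℕ} (hv : 1 ≤ v) (j : ℕ) : Tg h₀ K (v + j) = Tg h₀ K v * K ^ j := by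
  rw [Tg_pos hv, Tg_pos (by omega), pow_add]
  ring

theorem Hg_dvd (h₀ K v : ℕ) : Hg h₀ K v ∣ Hg h₀ K (v + 1) :=
  Nat.mul_dvd_mul_left _ (pow_dvd_pow _ (max_le_max_right _ (Nat.le_succ v)))

theorem Hg_mono {h₀ K : ℕ} (hK : 1 ≤ K) : Monotone (Hg h₀ K) := fun _ _ huv =>
  Nat.mul_le_mul_left _ (Nat.pow_le_pow_right hK (max_le_max_right _ huv))

/-- The condition of `nest_AT`. -/
theorem Tg_nest {h₀ K : ℕ} (hK : 1 ≤ K) (v : ℕ) : Hg h₀ K (v + 1) + Tg h₀ K v ≤ Tg h₀ K (v + 1) + Hg h₀ K v := by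
  rcases Nat.eq_zero_or_pos v with rfl | hv
  · rw [Tg_zero, show 0 + 1 = 1 from rfl, Tg_Hg le_rfl]
    omega
  · have h1 : Hg h₀ K v ≤ Hg h₀ K (v + 1) := Hg_mono (h₀ := h₀) hK (Nat.le_succ v)
    rw [Tg_Hg (show 1 ≤ v + 1 by omega), Tg_Hg hv]
    omega

/-! ### The grid -/

/-- **THE GRID OF PAGE 690.** -/
structure Geo (μ : Measure ℝ) (s : ℝ) (κ e D : ℝ) (h₀ K L : ℕ) (G : Gd) : Prop where
  ok : G.Ok L
  nest : G.Nest L (H60.AT (Tg h₀ K))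
  H : ∀ v, G.H v = Hg h₀ K v
  V01 : G.V 0 = G.V 1
  /-- the widths grow like `wd` -/
  wlo : ∀ u v, 1 ≤ u → u ≤ v → κ * wd μ s (Tg h₀ K u) ≤ wd μ s (Tg h₀ K v)
  wup : ∀ u v, 1 ≤ u → u ≤ v → κ * wd μ s (Tg h₀ K v) ≤ (K : ℝ) ^ (v - u) * wd μ s (Tg h₀ K u)
  Vle : ∀ v, 1 ≤ v → v ≤ L → (G.V v : ℝ) ≤ D / κ * wd μ s (Tg h₀ K v)
  leV : ∀ v, 1 ≤ v → v ≤ L → D / K * wd μ s (Tg h₀ K v) ≤ G.V v
  /-- the columns follow the slope -/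
  err : ∀ v, v ≤ L → ∀ r, r < G.H v → |(G.s r : ℝ) - sl μ s * r| ≤ v + 1
  err' : ∀ r, |(G.s r : ℝ) - sl μ s * r| ≤ L + 2
  small : ∀ v : ℕ, 1 ≤ v → (v : ℝ) + 1 ≤ e * wd μ s (Tg h₀ K v)

/-- A geometric sequence beats the level. -/
theorem lev_small {δ e : ℝ} (hδ : 0 < δ) (he : 0 < e) : ∃ n₁ : ℕ, 1 ≤ n₁ ∧ ∀ (K h₀ v : ℕ), 2 ≤ K → n₁ ≤ h₀ → 1 ≤ v →
    (v : ℝ) + 1 ≤ e * ((Tg h₀ K v : ℕ) : ℝ) ^ δ := by
  obtain ⟨A, hA⟩ : ∃ A : ℝ, A = (2 : ℝ) ^ δ - 1 := ⟨_, rfl⟩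
  have hA0 : 0 < A := by
    rw [hA]
    have := Real.one_lt_rpow (show (1 : ℝ) < 2 by norm_num) hδ
    linarith
  -- (2^v)^δ ≥ 1 + v A
  have h1 : ∀ v : ℕ, 1 + (v : ℝ) * A ≤ ((2 : ℝ) ^ v) ^ δ := fun v => by
    have e1 : ((2 : ℝ) ^ v) ^ δ = (1 + A) ^ v := by
      rw [hA, add_sub_cancel, ← Real.rpow_natCast, ← Real.rpow_mul (by norm_num), mul_comm, Real.rpow_mul (by norm_num),
        Real.rpow_natCast]
    rw [e1]
    exact one_add_mul_le_pow (by linarith) v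
  obtain ⟨B, hB⟩ : ∃ B : ℝ, B = e⁻¹ * (1 + A⁻¹) := ⟨_, rfl⟩
  have hB0 : 0 < B := by rw [hB]; positivity
  have h2 : ∀ᶠ n : ℕ in atTop, B ≤ (n : ℝ) ^ δ :=
    ((tendsto_rpow_atTop hδ).comp tendsto_natCast_atTop_atTop).eventually_ge_atTop B
  obtain ⟨n₁, hn₁⟩ := eventually_atTop.1 h2
  refine ⟨max n₁ 1, le_max_right _ _, fun K h₀ v hK hh hv => ?_⟩
  have h3 := hn₁ h₀ ((le_max_left _ _).trans hh)
  have h0 : (0 : ℝ) ≤ h₀ := by positivity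
  have h4 : ((h₀ : ℝ) * 2 ^ v) ^ δ ≤ ((Tg h₀ K v : ℕ) : ℝ) ^ δ := by
    refine Real.rpow_le_rpow (by positivity) ?_ hδ.le
    rw [Tg_pos hv]
    push_cast
    have h5 : (2 : ℝ) ^ v ≤ (K : ℝ) ^ v := pow_le_pow_left₀ (by norm_num) (by exact_mod_cast hK) v
    nlinarith [mul_le_mul_of_nonneg_left h5 h0, mul_nonneg h0 (show (0 : ℝ) ≤ (K : ℝ) ^ v by positivity)]
  rw [Real.mul_rpow h0 (by positivity)] at h4
  have h6 := h1 v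
  have h7 : B * (1 + (v : ℝ) * A) ≤ ((Tg h₀ K v : ℕ) : ℝ) ^ δ := by
    refine le_trans ?_ h4
    exact mul_le_mul h3 h6 (by positivity) (by positivity)
  have h8 : e * (B * (1 + (v : ℝ) * A)) = (1 + A⁻¹) * (1 + (v : ℝ) * A) := by
    rw [hB]
    field_simp
  have h9 : (v : ℝ) + 1 ≤ (1 + A⁻¹) * (1 + (v : ℝ) * A) := by
    have e1 : (1 + A⁻¹) * (1 + (v : ℝ) * A) = 1 + (v : ℝ) + (v : ℝ) * A + A⁻¹ := by
      field_simp
      ring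
    rw [e1]
    have : 0 ≤ (v : ℝ) * A := by positivity
    have : 0 ≤ A⁻¹ := by positivity
    linarith
  calc (v : ℝ) + 1 ≤ (1 + A⁻¹) * (1 + (v : ℝ) * A) := h9
    _ = e * (B * (1 + (v : ℝ) * A)) := h8.symm
    _ ≤ e * ((Tg h₀ K v : ℕ) : ℝ) ^ δ := mul_le_mul_of_nonneg_left h7 he.le

/-- **EXISTENCE OF THE GRID**: any factor `D > 0` of the widths (small or large) and any `e > 0`, then any base height `h₀ ≥ n₁` and any
ratio `K ≥ 2`. `κ` is before `D`. -/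
theorem geo10 {μ : Measure ℝ} [IsProbabilityMeasure μ] {s c C : ℝ} {n₀ : ℕ} (hI : In μ s c C n₀) :
    ∃ κ : ℝ, 0 < κ ∧ κ ≤ 1 ∧ ∀ {D e : ℝ}, 0 < D → 0 < e → ∃ n₁ : ℕ, 1 ≤ n₁ ∧ ∀ (K h₀ L : ℕ), 2 ≤ K → n₁ ≤ h₀ →
      ∃ G : Gd, Geo μ s κ e D h₀ K L G ∧ (∀ v, 1 ≤ v → κ * wd μ s (Tg h₀ K v) ≤ wd μ s (2 * Tg h₀ K v)) ∧
        ∀ v, 1 ≤ v → 1 ≤ wd μ s (Tg h₀ K v) := by
  obtain ⟨a, κ, n₁, ha1, hW⟩ := grW17 hI
  obtain ⟨n₂, hn₂⟩ := Pool.Agent.W_7d29a1_HZ.wd'_eq hI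
  have hκ := hW.k0
  have ha := hW.a0
  have hb := hW.b0
  refine ⟨κ, hκ, hW.k1, ?_⟩
  intro D e hD he
  obtain ⟨n₃, hn₃, hs⟩ := lev_small (δ := 1 / 4) (by norm_num) he
  have h4 : ∀ᶠ n : ℕ in atTop, D⁻¹ ≤ (n : ℝ) ^ (1 / 4 : ℝ) :=
    ((tendsto_rpow_atTop (by norm_num)).comp tendsto_natCast_atTop_atTop).eventually_ge_atTop _
  obtain ⟨n₄, hn₄⟩ := eventually_atTop.1 h4
  refine ⟨max (max n₁ n₂) (max n₃ n₄), hn₃.trans ((le_max_left _ _).trans (le_max_right _ _)), fun K h₀ L hK hh => ?_⟩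
  have hh1 : n₁ ≤ h₀ := ((le_max_left _ _).trans (le_max_left _ _)).trans hh
  have hh2 : n₂ ≤ h₀ := ((le_max_right _ _).trans (le_max_left _ _)).trans hh
  have hh3 : n₃ ≤ h₀ := ((le_max_left _ _).trans (le_max_right _ _)).trans hh
  have hh4 : n₄ ≤ h₀ := ((le_max_right _ _).trans (le_max_right _ _)).trans hh
  have hh0 : 1 ≤ h₀ := hn₃.trans hh3
  have hK1 : 1 ≤ K := by omega
  have hK0 : (0 : ℝ) < K := by exact_mod_cast hK1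
  have hT : ∀ v, 1 ≤ v → h₀ ≤ Tg h₀ K v := fun v hv => by
    rw [Tg_pos hv, mul_comm 2 h₀, mul_assoc]
    exact Nat.le_mul_of_pos_right _ (Nat.mul_pos two_pos (Nat.pow_pos hK1))
  have hT1 : ∀ v, 1 ≤ v → 1 ≤ Tg h₀ K v := fun v hv => hh0.trans (hT v hv)
  have rat : ∀ u v, 1 ≤ u → u ≤ v → ((Tg h₀ K v : ℕ) : ℝ) / (Tg h₀ K u : ℕ) = (K : ℝ) ^ (v - u) := fun u v hu huv => by
    obtain ⟨j, rfl⟩ := Nat.exists_eq_add_of_le huv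
    rw [Tg_lt hu j, Nat.add_sub_cancel_left]
    have : (0 : ℝ) < (Tg h₀ K u : ℕ) := by exact_mod_cast hT1 u hu
    push_cast
    field_simp
  have wge1 : ∀ v, 1 ≤ v → 1 ≤ wd μ s (Tg h₀ K v) := fun v hv => by
    refine le_trans ?_ (hn₂ _ (hh2.trans (hT v hv))).2.2
    exact Real.one_le_rpow (by exact_mod_cast hT1 v hv) (by norm_num)
  have wgeD : ∀ v, 1 ≤ v → 1 ≤ D * wd μ s (Tg h₀ K v) := fun v hv => by
    have h1 := hn₄ _ (hh4.trans (hT v hv))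
    have h2 := (hn₂ _ (hh2.trans (hT v hv))).2.2
    have h3 : D * D⁻¹ ≤ D * wd μ s (Tg h₀ K v) := mul_le_mul_of_nonneg_left (h1.trans h2) hD.le
    rwa [mul_inv_cancel₀ hD.ne'] at h3
  have wlo' : ∀ m n : ℕ, n₁ ≤ m → m ≤ n → 1 ≤ m → 0 ≤ wd μ s m → κ * wd μ s m ≤ wd μ s n := fun m n hm hmn hm1 hw => by
    have h1 := hW.lo m n hm hmn
    have hm0 : (0 : ℝ) < m := by exact_mod_cast hm1
    have h2 : (1 : ℝ) ≤ ((n : ℝ) / m) ^ a := Real.one_le_rpow (by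
      rw [one_le_div hm0]
      exact_mod_cast hmn) ha.le
    exact (mul_le_mul_of_nonneg_right (le_mul_of_one_le_right hκ.le h2) hw).trans h1
  have wlo : ∀ u v, 1 ≤ u → u ≤ v → κ * wd μ s (Tg h₀ K u) ≤ wd μ s (Tg h₀ K v) := fun u v hu huv =>
    wlo' _ _ (hh1.trans (hT u hu)) (Tg_mono hK1 huv) (hT1 u hu) (by linarith [wge1 u hu])
  have wup : ∀ u v, 1 ≤ u → u ≤ v → κ * wd μ s (Tg h₀ K v) ≤ (K : ℝ) ^ (v - u) * wd μ s (Tg h₀ K u) := fun u v hu huv => by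
    have h1 := hW.up _ _ (hh1.trans (hT u hu)) (Tg_mono hK1 huv)
    rw [rat u v hu huv] at h1
    have h0 : (1 : ℝ) ≤ (K : ℝ) ^ (v - u) := one_le_pow₀ (by exact_mod_cast hK1)
    have h2 : ((K : ℝ) ^ (v - u)) ^ (1 - a) ≤ (K : ℝ) ^ (v - u) := by
      calc ((K : ℝ) ^ (v - u)) ^ (1 - a) ≤ ((K : ℝ) ^ (v - u)) ^ (1 : ℝ) := Real.rpow_le_rpow_of_exponent_le h0 (by linarith)
        _ = _ := Real.rpow_one _
    have h3 := wge1 u hu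
    exact h1.trans (mul_le_mul_of_nonneg_right h2 (by linarith))
  -- the widths
  obtain ⟨W, hWd⟩ : ∃ W : ℕ → ℝ, W = fun v => D * wd μ s (Tg h₀ K (max v 1)) := ⟨_, rfl⟩
  have W1 : ∀ v, 1 ≤ W v := fun v => by
    rw [hWd]
    exact wgeD (max v 1) (le_max_right _ _)
  have W01 : W 0 = W 1 := by rw [hWd]; rfl
  have hex01 : ex K W 0 = ex K W 1 := by
    show Nat.log K ⌊W 0⌋₊ = max (Nat.log K ⌊W 0⌋₊) (Nat.log K ⌊W 1⌋₊)
    rw [W01, max_self]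
  obtain ⟨G, gH, gV, gok, g1, g2⟩ := exGd (sl μ s) (H := Hg h₀ K) (V := fun v => K ^ ex K W v) (L := L)
    (fun k _ => Nat.mul_pos (by omega) (Nat.pow_pos hK1)) (fun k _ => Nat.pow_pos hK1) (fun k _ => Hg_dvd h₀ K k)
    (fun k _ => pow_dvd_pow _ (ex_mono K W (Nat.le_succ k)))
  refine ⟨G, ⟨gok, ?_, fun v => congrFun gH v, ?_, wlo, wup, fun v hv hvL => ?_, fun v hv hvL => ?_, ?_, g1, fun v hv => ?_⟩,
    fun v hv => ?_, wge1⟩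
  · refine H60.nest_AT gok (fun v _ => Tg_mono hK1 (Nat.le_succ v)) fun v _ => ?_
    rw [gH]
    exact Tg_nest hK1 v
  · rw [gV]
    show K ^ ex K W 0 = K ^ ex K W 1
    rw [hex01]
  · rw [gV]
    refine pow_ex_le (fun u _ => W1 u) fun u hu => ?_
    rw [hWd]
    have h1 := wlo (max u 1) v (le_max_right _ _) (max_le hu hv)
    show D * wd μ s (Tg h₀ K (max u 1)) ≤ D / κ * wd μ s (Tg h₀ K v)
    rw [div_mul_eq_mul_div, le_div_iff₀ hκ]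
    nlinarith
  · rw [gV]
    have h1 : W v ≤ ((K * K ^ ex K W v : ℕ) : ℝ) := le_pow_ex (by omega)
    rw [hWd] at h1
    have h2 : D * wd μ s (Tg h₀ K (max v 1)) ≤ ((K * K ^ ex K W v : ℕ) : ℝ) := by rw [hWd]; exact h1
    rw [max_eq_left hv] at h2
    show D / K * wd μ s (Tg h₀ K v) ≤ ((K ^ ex K W v : ℕ) : ℝ)
    rw [div_mul_eq_mul_div, div_le_iff₀ hK0]
    push_cast at h2 ⊢
    linarith
  · intro v hv r hr
    rw [gH] at hr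
    exact g2 v hv r hr
  · exact (hs K h₀ v hK hh3 hv).trans (mul_le_mul_of_nonneg_left (hn₂ _ (hh2.trans (hT v hv))).2.2 he.le)
  · exact wlo' _ _ (hh1.trans (hT v hv)) (by omega) (hT1 v hv) (by linarith [wge1 v hv])

/-! ### Consequences -/

namespace Geo

variable {μ : Measure ℝ} {s κ e D : ℝ} {h₀ K L : ℕ} {G : Gd}

theorem TH (g : Geo μ s κ e D h₀ K L G) {v : ℕ} (hv : 1 ≤ v) : Tg h₀ K v = 2 * G.H v := by
  rw [g.H, Tg_Hg hv]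

theorem H01 (g : Geo μ s κ e D h₀ K L G) : G.H 0 = G.H 1 := by rw [g.H, g.H, Hg_zero]

/-- The boxes of the level `0` are those of the level `1`. -/
theorem z01 (g : Geo μ s κ e D h₀ K L G) (c : ℕ × ℤ) : G.z 0 c = G.z 1 c := by
  unfold Gd.z
  rw [g.H01, g.V01]

/-- **One place in the innermost slab.** -/
theorem dg0 (g : Geo μ s κ e D h₀ K L G) (hL : 1 ≤ L) (c : ℕ × ℤ) : G.dg 0 c = 0 := by
  have h1 := g.ok.z_dg (show 0 < L by omega) c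
  rw [g.z01] at h1
  exact (add_eq_left.1 h1.symm)

theorem A0 (_ : Geo μ s κ e D h₀ K L G) : H60.AT (Tg h₀ K) 0 = ∅ := H60.AT_zero (Tg_zero h₀ K)

/-- The site in its box: columns. -/
theorem col (g : Geo μ s κ e D h₀ K L G) {v : ℕ} (hv : 1 ≤ v) (hL : v ≤ L) (b : ℕ × ℤ) :
    |(b.2 : ℝ) - (G.z v b).2 - sl μ s * ((b.1 : ℝ) - (G.z v b).1)| ≤ (D / κ + e) * wd μ s (Tg h₀ K v) := by
  have h1 := g.ok.col hL (b := b) (g.err v hL)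
  have h2 := g.Vle v hv hL
  have h3 := g.small v hv
  have h4 : (D / κ + e) * wd μ s (Tg h₀ K v) = D / κ * wd μ s (Tg h₀ K v) + e * wd μ s (Tg h₀ K v) := by ring
  rw [h4]
  linarith

/-- **The number of places.** -/
theorem card (g : Geo μ s κ e D h₀ K L G) (hκ : 0 < κ) (hD : 0 < D) (h0 : 1 ≤ h₀) (hK : 1 ≤ K) {v t : ℕ} (hv : 1 ≤ v)
    (hvt : v ≤ t) (ht : t ≤ L) (hw : 0 < wd μ s (Tg h₀ K v)) :
    ((G.subs v t).card : ℝ) ≤ K / κ ^ 2 * (K : ℝ) ^ (2 * (t - v)) := by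
  have hK0 : (0 : ℝ) < K := by exact_mod_cast hK
  have V0 : (0 : ℝ) < (G.V v : ℝ) := by exact_mod_cast g.ok.V0 v (hvt.trans ht)
  have h1 : ((G.subs v t).card : ℝ) ≤ ((G.H t / G.H v : ℕ) : ℝ) * ((G.V t / G.V v : ℕ) : ℝ) := by
    exact_mod_cast Gd.card_subs G v t
  have h2 : ((G.H t / G.H v : ℕ) : ℝ) = (K : ℝ) ^ (t - v) := by
    rw [g.H, g.H, Hg_pos hv, Hg_pos (hv.trans hvt)]
    obtain ⟨j, rfl⟩ := Nat.exists_eq_add_of_le hvt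
    have e1 : h₀ * K ^ (v + j) = h₀ * K ^ v * K ^ j := by rw [pow_add, mul_assoc]
    rw [e1, Nat.mul_div_cancel_left _ (Nat.mul_pos (by omega) (Nat.pow_pos hK)), Nat.add_sub_cancel_left]
    push_cast
    rfl
  have h3 : ((G.V t / G.V v : ℕ) : ℝ) ≤ K / κ ^ 2 * (K : ℝ) ^ (t - v) := by
    refine (Nat.cast_div_le).trans ?_
    rw [div_le_iff₀ V0]
    have a1 := g.Vle t (hv.trans hvt) ht
    have a2 := g.leV v hv (hvt.trans ht)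
    have a3 := g.wup v t hv hvt
    have hp : (0 : ℝ) < (K : ℝ) ^ (t - v) := by positivity
    have a4 : wd μ s (Tg h₀ K t) ≤ κ⁻¹ * ((K : ℝ) ^ (t - v) * wd μ s (Tg h₀ K v)) := by
      rw [inv_mul_eq_div, le_div_iff₀ hκ]
      linarith
    calc (G.V t : ℝ) ≤ D / κ * wd μ s (Tg h₀ K t) := a1
      _ ≤ D / κ * (κ⁻¹ * ((K : ℝ) ^ (t - v) * wd μ s (Tg h₀ K v))) := mul_le_mul_of_nonneg_left a4 (by positivity)
      _ = K / κ ^ 2 * (K : ℝ) ^ (t - v) * (D / K * wd μ s (Tg h₀ K v)) := by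
        field_simp
      _ ≤ K / κ ^ 2 * (K : ℝ) ^ (t - v) * G.V v := mul_le_mul_of_nonneg_left a2 (by positivity)
  calc ((G.subs v t).card : ℝ) ≤ (K : ℝ) ^ (t - v) * (K / κ ^ 2 * (K : ℝ) ^ (t - v)) := by
        refine h1.trans ?_
        rw [h2]
        exact mul_le_mul_of_nonneg_left h3 (by positivity)
    _ = K / κ ^ 2 * (K : ℝ) ^ (2 * (t - v)) := by
      rw [two_mul, pow_add]
      ring

/-- The places: rows and columns. -/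
theorem place (g : Geo μ s κ e D h₀ K L G) {v t : ℕ} (hvt : v ≤ t) (ht : t ≤ L) {o : ℕ × ℤ} (ho : o ∈ G.subs v t) :
    o.1 + G.H v ≤ G.H t ∧ |(o.2 : ℝ) - sl μ s * o.1| ≤ G.V t + (t + 1) := by
  obtain ⟨i, hi⟩ := g.ok.dvdH hvt ht
  obtain ⟨j, hj⟩ := g.ok.dvdV hvt ht
  have H0 := g.ok.H0 v (hvt.trans ht)
  have V0 := g.ok.V0 v (hvt.trans ht)
  unfold Gd.subs at ho
  rw [Finset.mem_image] at ho
  obtain ⟨w, hw, rfl⟩ := ho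
  rw [Finset.mem_product, Finset.mem_range, Finset.mem_range, hi, hj, Nat.mul_div_cancel_left _ H0,
    Nat.mul_div_cancel_left _ V0] at hw
  have h1 : G.H v * w.1 + G.H v ≤ G.H t := by
    rw [hi]
    calc G.H v * w.1 + G.H v = G.H v * (w.1 + 1) := by ring
      _ ≤ G.H v * i := Nat.mul_le_mul_left _ hw.1
  refine ⟨h1, ?_⟩
  have h2 := g.err t ht (G.H v * w.1) (by omega)
  have h3 : (G.V v : ℤ) * (w.2 : ℤ) ≤ G.V t := by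
    rw [hj]
    push_cast
    exact mul_le_mul_of_nonneg_left (by exact_mod_cast hw.2.le) (by positivity)
  have h4 : (0 : ℤ) ≤ (G.V v : ℤ) * (w.2 : ℤ) := by positivity
  have h3' : ((G.V v : ℤ) : ℝ) * ((w.2 : ℤ) : ℝ) ≤ (G.V t : ℝ) := by exact_mod_cast h3
  have h4' : (0 : ℝ) ≤ ((G.V v : ℤ) : ℝ) * ((w.2 : ℤ) : ℝ) := by exact_mod_cast h4
  show |((G.s (G.H v * w.1) + (G.V v : ℤ) * (w.2 : ℤ) : ℤ) : ℝ) - sl μ s * ((G.H v * w.1 : ℕ) : ℝ)| ≤ _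
  rw [Int.cast_add, Int.cast_mul]
  rw [abs_le] at h2 ⊢
  constructor <;> linarith [h2.1, h2.2]

/-- Every base of the level `v` inside a box of the level `t` is at a place of `subs v t`. -/
theorem base_mem (g : Geo μ s κ e D h₀ K L G) {v t : ℕ} (hvt : v ≤ t) (ht : t ≤ L) (c : ℕ × ℤ) :
    ∃ o ∈ G.subs v t, G.z v c = G.z t c + o :=
  ⟨_, g.ok.mem_subs hvt ht c, g.ok.z_le hvt ht c⟩

end Geo

end

end Pool.Agent.W_7d29a1_C1.T10
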