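import Pool.Agent.W_7d29a1_C1.SlT60
import Pool.Agent.W_7d29a1_C1.GeoI10

/-!
Both halves (MP_7d29a1_pr), attractor route: THE END PIECES OF THE SLAB `t - 1` INSIDE THE BOX `t` (helper60).

`ELx60 .. n Tb r₀ r₁ q o` = the rows `(r₀, o - Tb]` and `(o + Tb, r₁]` (from the base of the box `t`, the box `t - 1` at the place `o`)
are in helper16's `Far16` at the scale `n`, level `q`. Measurable, blind off the slab `t - 1` of the place `o`; `elx60` : all the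
places at once, probability `≥ 1 - ε`. `slabsX60` : with `not reached at t - 2` all the slabs from the row `r₀` to the row `r₁`.
-/

set_option autoImplicit false
set_option linter.unusedSectionVars false

namespace Pool.Agent.W_7d29a1_C1.H60

open MeasureTheory ProbabilityTheory Filter Topology
open Pool.Agent.W_7d29a1_F Pool.Agent.W_7d29a1_h4g Pool.Agent.W_7d29a1_H Pool.Agent.W_7d29a1_HS
open Pool.Agent.W_7d29a1_C1.S71 Pool.Agent.W_7d29a1_C1.Sw9 Pool.Agent.W_7d29a1_C1.H75 Pool.Agent.W_7d29a1_C1.U16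
open Pool.Agent.W_7d29a1_C1.FarK89 Pool.Agent.W_7d29a1_C1.FarW89
open Pool.Agent.W_7d29a1_C1.T10
open scoped ENNReal

noncomputable section

/-- **THE END PIECES** of the place `o`. -/
def ELx60 (μ : Measure ℝ) (s c θ K : ℝ) (P n Tb : ℕ) (r₀ r₁ : ℤ) (q : ℝ) (o : ℕ × ℤ) : Set Env :=
  Far16 μ s c θ K n (min ((o.1 : ℤ) - Tb) r₁ - r₀).toNat P (bs60 μ s r₀) q ∩
    Far16 μ s c θ K n (r₁ - ((o.1 : ℤ) + Tb)).toNat P (bs60 μ s ((o.1 : ℤ) + Tb)) q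

variable {μ : Measure ℝ} {s : ℝ} [IsProbabilityMeasure μ] {c C : ℝ} {n₀ : ℕ} {θ K : ℝ} {P n Tb : ℕ} {r₀ r₁ : ℤ} {q : ℝ}

theorem measurableSet_ELx60 (o : ℕ × ℤ) : MeasurableSet (ELx60 μ s c θ K P n Tb r₀ r₁ q o) :=
  (Far16_meas _ _ _ _ _ _ _).inter (Far16_meas _ _ _ _ _ _ _)

theorem ELx60_mono {q q' : ℝ} (hq : q ≤ q') (o : ℕ × ℤ) : ELx60 μ s c θ K P n Tb r₀ r₁ q o ⊆ ELx60 μ s c θ K P n Tb r₀ r₁ q' o :=
  fun _ h => ⟨Far16_mono hq _ _ _ _ h.1, Far16_mono hq _ _ _ _ h.2⟩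

/-- **Only the rows `(r₀, r₁]` off the region of the box `t - 1` are read.** -/
theorem ELx60_off {T : ℕ → ℕ} {v : ℕ} (hr₀ : -(T (v + 1) : ℤ) ≤ r₀) (hr₁ : r₁ ≤ T (v + 1)) (o : ℕ × ℤ) :
    Off (AT T (v + 1) \ At (pt o) (AT T v))ᶜ (ELx60 μ s c θ K P n (T v) r₀ r₁ q o) := by
  intro η η' he
  have key : ∀ p : Pt, p ∈ AT T (v + 1) → p ∉ At (pt o) (AT T v) → η p = η' p := fun p h1 h2 =>
    he p fun h3 => h3 ⟨h1, h2⟩
  have nin : ∀ p : Pt, (p.1 ≤ (o.1 : ℤ) - T v ∨ (o.1 : ℤ) + T v < p.1) → p ∉ At (pt o) (AT T v) := by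
    intro p hp hcc
    have h1 : p - pt o ∈ AT T v := hcc
    rw [mem_AT] at h1
    have e : (p - pt o).1 = p.1 - (o.1 : ℤ) := rfl
    rw [e] at h1
    omega
  refine and_congr (Far16_rows fun p hp => ?_) (Far16_rows fun p hp => ?_)
  · have h1 : r₀ < p.1 := hp.1
    have h2 : p.1 ≤ r₀ + (min ((o.1 : ℤ) - T v) r₁ - r₀).toNat := hp.2
    have h3 : p.1 ≤ min ((o.1 : ℤ) - T v) r₁ := by
      rcases le_total 0 (min ((o.1 : ℤ) - T v) r₁ - r₀) with h4 | h4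
      · rw [Int.toNat_of_nonneg h4] at h2
        omega
      · rw [Int.toNat_of_nonpos h4] at h2
        omega
    have h5 := h3.trans (min_le_left _ _)
    have h6 := h3.trans (min_le_right _ _)
    exact key p (mem_AT.2 ⟨by omega, by omega⟩) (nin p (Or.inl h5))
  · have h1 : (o.1 : ℤ) + T v < p.1 := hp.1
    have h2 : p.1 ≤ (o.1 : ℤ) + T v + (r₁ - ((o.1 : ℤ) + T v)).toNat := hp.2
    exact key p (mem_AT.2 ⟨by omega, by omega⟩) (nin p (Or.inr h1))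

/-- The pieces of the place `o` are blind to the region of the box `t - 1`. -/
theorem ELx60_off' {T : ℕ → ℕ} {v : ℕ} (o : ℕ × ℤ) : Off (At (pt o) (AT T v)) (ELx60 μ s c θ K P n (T v) r₀ r₁ q o) := by
  intro η η' he
  have nin : ∀ p : Pt, (p.1 ≤ (o.1 : ℤ) - T v ∨ (o.1 : ℤ) + T v < p.1) → p ∉ At (pt o) (AT T v) := by
    intro p hp hcc
    have h1 : p - pt o ∈ AT T v := hcc
    rw [mem_AT] at h1
    have e : (p - pt o).1 = p.1 - (o.1 : ℤ) := rfl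
    rw [e] at h1
    omega
  refine and_congr (Far16_rows fun p hp => ?_) (Far16_rows fun p hp => ?_)
  · have h1 : r₀ < p.1 := hp.1
    have h2 : p.1 ≤ r₀ + (min ((o.1 : ℤ) - T v) r₁ - r₀).toNat := hp.2
    have h3 : p.1 ≤ min ((o.1 : ℤ) - T v) r₁ := by
      rcases le_total 0 (min ((o.1 : ℤ) - T v) r₁ - r₀) with h4 | h4
      · rw [Int.toNat_of_nonneg h4] at h2
        omega
      · rw [Int.toNat_of_nonpos h4] at h2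
        omega
    exact he p (nin p (Or.inl (h3.trans (min_le_left _ _))))
  · exact he p (nin p (Or.inr hp.1))

/-- In the frame of the contact: blind to the region of its box `v`. -/
theorem ELx60_At {G : Gd} {L : ℕ} (hG : G.Ok L) {T : ℕ → ℕ} {v : ℕ} (hv : v < L) (c' : ℕ × ℤ) :
    Off (At (G.x v c') (AT T v)) (sh (G.x (v + 1) c') ⁻¹' ELx60 μ s c θ K P n (T v) r₀ r₁ q (G.dg v c')) := by
  intro η η' he
  refine ELx60_off' (T := T) (v := v) (G.dg v c') _ _ fun p hp => he (p + G.x (v + 1) c') fun h2 => hp ?_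
  have h3 : p + G.x (v + 1) c' - G.x v c' ∈ AT T v := h2
  have e : p + G.x (v + 1) c' - G.x v c' = p - pt (G.dg v c') := by
    rw [hG.x_dg hv c']
    abel
  rw [e] at h3
  exact h3

/-- **ALL THE PLACES AT ONCE**, for a fixed number of places. -/
theorem elx60 (h : In μ s c C n₀) {K θ : ℝ} (hK : 0 < K) (hθ : 0 < θ) (hθ1 : θ ≤ 1) : ∃ P : ℕ, ∃ n₁ : ℕ, 1 ≤ n₁ ∧
    ∀ (Np : ℕ) (ε : ℝ), 0 < ε → ∃ q₀ : ℝ, 0 ≤ q₀ ∧ ∀ q : ℝ, q₀ ≤ q → ∀ (n Tb : ℕ) (r₀ r₁ : ℤ) (S : Finset (ℕ × ℤ)), n₁ ≤ n →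
      r₁ - r₀ ≤ n → r₁ ≤ n → S.card ≤ Np →
      (law μ).real {η | ∃ o ∈ S, η ∉ ELx60 μ s c θ K P n Tb r₀ r₁ q o} ≤ ε := by
  obtain ⟨P, A, a, g, hA, ha, hg, hg1, n₁, hn1, H⟩ := far_prob h hK hθ hθ1
  refine ⟨P, n₁, hn1, fun Np ε hε => ?_⟩
  have ht : Tendsto (fun q : ℝ => ((Np : ℝ) * (2 * A)) * Real.exp (-(a * q ^ g))) atTop (𝓝 (((Np : ℝ) * (2 * A)) * 0)) := by
    refine Tendsto.const_mul _ (Real.tendsto_exp_neg_atTop_nhds_zero.comp ?_)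
    exact (tendsto_rpow_atTop hg).const_mul_atTop ha
  rw [mul_zero] at ht
  obtain ⟨q₀, hq₀⟩ := eventually_atTop.1 (ht.eventually_le_const hε)
  refine ⟨max q₀ 0, le_max_right _ _, fun q hq n Tb r₀ r₁ S hn hr hr1 hS => ?_⟩
  have hq0 : 0 ≤ q := (le_max_right _ _).trans hq
  have key := hq₀ q ((le_max_left _ _).trans hq)
  have hsub : {η | ∃ o ∈ S, η ∉ ELx60 μ s c θ K P n Tb r₀ r₁ q o} ⊆ ⋃ o ∈ S, (ELx60 μ s c θ K P n Tb r₀ r₁ q o)ᶜ := by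
    rintro η ⟨o, ho, h1⟩
    exact Set.mem_biUnion (Finset.mem_coe.2 ho) h1
  have one : ∀ o ∈ S, (law μ).real (ELx60 μ s c θ K P n Tb r₀ r₁ q o)ᶜ ≤ 2 * A * Real.exp (-(a * q ^ g)) := by
    intro o _
    have h1 := H n hn (min ((o.1 : ℤ) - Tb) r₁ - r₀).toNat (by
      have : min ((o.1 : ℤ) - Tb) r₁ ≤ r₁ := min_le_right _ _
      omega) (bs60 μ s r₀) q hq0
    have h2 := H n hn (r₁ - ((o.1 : ℤ) + Tb)).toNat (by omega) (bs60 μ s ((o.1 : ℤ) + Tb)) q hq0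
    unfold ELx60
    rw [Set.compl_inter]
    refine (measureReal_union_le _ _).trans ?_
    linarith
  calc (law μ).real {η | ∃ o ∈ S, η ∉ ELx60 μ s c θ K P n Tb r₀ r₁ q o}
      ≤ (law μ).real (⋃ o ∈ S, (ELx60 μ s c θ K P n Tb r₀ r₁ q o)ᶜ) := measureReal_mono hsub (measure_ne_top _ _)
    _ ≤ ∑ o ∈ S, (law μ).real (ELx60 μ s c θ K P n Tb r₀ r₁ q o)ᶜ := measureReal_biUnion_finset_le _ _
    _ ≤ ∑ _o ∈ S, 2 * A * Real.exp (-(a * q ^ g)) := Finset.sum_le_sum one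
    _ = S.card * (2 * A * Real.exp (-(a * q ^ g))) := by rw [Finset.sum_const, nsmul_eq_mul]
    _ ≤ Np * (2 * A * Real.exp (-(a * q ^ g))) := by
        refine mul_le_mul_of_nonneg_right (by exact_mod_cast hS) (by positivity)
    _ ≤ ε := by
        refine le_trans (le_of_eq ?_) key
        ring

/-- **ALL THE SLABS OF A CONTACT FROM THE ROW `ρ₀` TO THE ROW `ρ₁`**, inside `(z_t + r₀, z_t + r₁]`, below and above all the boxes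
`t - 1` with their radius. -/
theorem slabsX60 (h0 : In μ s c C n₀) (P : ℕ) {K : ℕ} (hK : 2 ≤ K) : ∃ R : ℝ, 1 < R ∧ ∃ n₁ : ℕ, 1 ≤ n₁ ∧ ∀ n₂ : ℕ, n₁ ≤ n₂ →
    ∀ q₀ Λ : ℝ, 0 ≤ q₀ → 0 ≤ Λ → ∃ Q : ℝ, 0 < Q ∧
    ∀ {θ Kw h : ℝ} {G : Gd} {L Lm : ℕ} {T : ℕ → ℕ} {T₁ t : ℕ} {y : ℕ → ℝ} {x : ℕ × ℤ} {η : Env} {κ : Pt} {r₀ r₁ : ℤ} {ρ₀ ρ₁ : ℕ}
      {q₁ : ℝ}, 5 ≤ Kw → G.Ok L → T 0 = 0 → (∀ v, T (v + 1) = T₁ * K ^ v) → n₂ ≤ T₁ →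
      (∀ v, v < L → G.H (v + 1) + T v ≤ T (v + 1) + G.H v) → 2 ≤ t → t ≤ L → t ≤ Lm + 1 → Monotone y → (∀ l, 0 ≤ y l) →
      (∀ l, y l ≤ q₀ * R ^ l) → 0 ≤ q₁ → q₁ ≤ q₀ → (∀ v ≤ t, T v ≤ (G.z v x).1) →
      η ∉ Rch (lvL G (LvE Lm (EL60 μ s c θ Kw P T y)) L) (t - 2) x →
      sh (G.x t x) η ∈ ELx60 μ s c θ Kw P (2 * T t) (T (t - 1)) r₀ r₁ q₁ (G.dg (t - 1) x) →
      (∀ v, 1 ≤ v → v ≤ t → |lat16 μ s κ (G.x v x)| + 1 ≤ Λ * wd μ s (2 * T v)) →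
      -(T t : ℤ) ≤ r₀ → r₁ ≤ T t → ((G.z t x).1 : ℤ) + r₀ ≤ ρ₀ → (ρ₀ : ℤ) + T (t - 1) ≤ (G.z t x).1 →
      ((G.z t x).1 : ℤ) + G.H t + T (t - 1) ≤ ρ₁ + G.H (t - 1) → (ρ₁ : ℤ) ≤ ((G.z t x).1 : ℤ) + r₁ →
      |h| * wd μ s (2 * T t) ≤ c / 8 * EE μ s (2 * T t) →
      Slabs μ s c θ (Kw - 2) h P η κ (rT G T x t ρ₀ ρ₁) (sT T t)
        (nT G T x t (min (((G.dg (t - 1) x).1 : ℤ) - T (t - 1)) r₁ - r₀).toNat (r₁ - (((G.dg (t - 1) x).1 : ℤ) + T (t - 1))).toNat)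
        (fun u => qT y t q₁ u * fq16 P (Λ + 2))
        (fun u => lp μ s κ (bT μ s G T x t (bs60 μ s r₀ + G.x t x) (bs60 μ s (((G.dg (t - 1) x).1 : ℤ) + T (t - 1)) + G.x t x) u).1)
        0 (2 * t) (2 * T t) n₂ Q := by
  obtain ⟨R, hR, n₁, hn1, H⟩ := slabsU60 h0 P hK
  refine ⟨R, hR, n₁, hn1, fun n₂ hn2 q₀ Λ hq₀ hΛ => ?_⟩
  obtain ⟨Q, hQ, HC⟩ := H n₂ hn2 q₀ Λ hq₀ hΛ
  refine ⟨Q, hQ, ?_⟩
  intro θ Kw h G L Lm T T₁ t y x η κ r₀ r₁ ρ₀ ρ₁ q₁ hKw hG hT0 hTK hT1 hH ht htL htLm hym hy0 hyR hq1 hq1' hrow hY hx hκ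
    hr0 hr1' hρ₀ hρ₀' hρ₁' hρ₁ hforce
  obtain ⟨v, hv⟩ : ∃ v, t = v + 1 := ⟨t - 1, by omega⟩
  have hgeo := slab_rows hG hH (show t - 1 < L by omega) x
  obtain ⟨g1, g2, g3, _⟩ := hgeo
  rw [show t - 1 + 1 = t by omega] at g1 g2 g3
  have hrt := hrow t le_rfl
  have hrt1 := hrow (t - 1) (Nat.sub_le _ _)
  have hx' : η ∈ Far16 μ s c θ Kw (2 * T t) (min (((G.dg (t - 1) x).1 : ℤ) - T (t - 1)) r₁ - r₀).toNat P (bs60 μ s r₀ + G.x t x) q₁ ∧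
      η ∈ Far16 μ s c θ Kw (2 * T t) (r₁ - (((G.dg (t - 1) x).1 : ℤ) + T (t - 1))).toNat P
        (bs60 μ s (((G.dg (t - 1) x).1 : ℤ) + T (t - 1)) + G.x t x) q₁ :=
    ⟨(Far16_sh _ _ _ _ _ _ _ _ _).1 hx.1, (Far16_sh _ _ _ _ _ _ _ _ _).1 hx.2⟩
  have hlat : ∀ r : ℤ, |lat16 μ s κ (bs60 μ s r + G.x t x)| ≤ Λ * wd μ s (2 * T t) := fun r =>
    (lat_bs60 _ _ _).trans (hκ t (by omega) le_rfl)
  have hmin : min (((G.dg (t - 1) x).1 : ℤ) - T (t - 1)) r₁ = ((G.dg (t - 1) x).1 : ℤ) - T (t - 1) := by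
    refine min_eq_left ?_
    omega
  have f1 : (bs60 μ s r₀ + G.x t x).1 = r₀ + ((G.z t x).1 : ℤ) := rfl
  have f2 : (bs60 μ s (((G.dg (t - 1) x).1 : ℤ) + T (t - 1)) + G.x t x).1 = ((G.dg (t - 1) x).1 : ℤ) + T (t - 1) + ((G.z t x).1 : ℤ) := rfl
  refine HC (b := t) hKw hG hT0 hTK hT1 hH (by omega) htL hy0 hyR hq1 hq1' hrow (fun w hw => ?_) (fun w hw => ?_) ?_ ?_ ?_ ?_
    (hlat r₀) hx'.1 ?_ ?_ ?_ ?_ (hlat _) hx'.2 hforce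
  · exact lev_not60 (fun v o i j hij => EL60_mono hym v o i j hij) (show t - 2 < Lm by omega) (by omega) hY (show w ≤ t - 2 by omega)
  · exact hκ (w + 1) (by omega) (by omega)
  · rw [f1]
    omega
  · omega
  · rw [f1, hmin]
    omega
  · rw [hmin]
    omega
  · rw [f2]
    omega
  · omega
  · rw [f2]
    omega
  · omega

end

end Pool.Agent.W_7d29a1_C1.H60
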