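import Pool.Agent.W_7d29a1_C1.CmpG20

/-!
MP_7d29a1_pr, attractor route, [C1] SEP: THE EARLY CONTACT BEHIND A GATE, deterministic part of the field `M3A`. (helper28)

`a₀` = first row of the gate block, `b` = the gate row, `w`, `w'` = old and new weights, equal on the rows `< b`.
`GateK` = the property of the gate as an inequality of kernels from the row `a₀`: for every site `y` of the row `a₀` and every
site `v` of the mouth. `Z1` = mass of the paths of the contact in the core (old). `uc` = core weight of the contact.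

* `GateK.kr`, `GateK.fr` : the same for every start below `a₀` and for every profile;
* `luck_start`, `luck_prof` : new mass of a start / a group, times `Z1`, is at most `G *` (old mass) `*` (new mass of the contact);
* `pcA` : `uc ≤ G² pc w'` (comparison); `pcB` : `pc w' r * uc ≤ G² pc w r * pc w' ρ` (early contact `r`);
* `early28` : if early mass + mass of the neighbours `≥ 7/8` (new), the core weights of a cell are at most
  `(3 + 2 G²) (E + W) *` (new mass of the neighbours).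
-/

set_option autoImplicit false

namespace Pool.Agent.W_7d29a1_C1.Ea28

open Finset
open Pool.Agent.W_7d29a1_C1.K91 (Grp Box wt wt_pos)
open Pool.Agent.W_7d29a1_C1.K91P (fw bw bw_pos fw_nonneg fw_lo fw_hi fw_congr bw_congr dp dp_nonneg)
open Pool.Agent.W_7d29a1_C1.U16 (ker ker_nonneg ker_eq_zero ker_congr bw_ker ker_add fw_ker)
open Pool.Agent.W_7d29a1_C1.Sp22 (Ms Zt Zt_row Zt_pos Ps Ps_le_Zt pc pc_nonneg)
open Pool.Agent.W_7d29a1_C1.Cmp71 (bw_row bw_part)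
open Pool.Agent.W_7d29a1_C1.CmpG20 (LuckG Gate)

noncomputable section

variable {w w' : ℕ → ℤ → ℝ} {p : ℕ → ℝ} {l r : ℤ → ℝ} {X lo hi : ℤ} {N : ℕ}

/-- **THE PROPERTY OF THE GATE, kernels**: block rows `a₀, …, b`, mouth `Y0`, contact `(k, q)`, core mass `Z1`. -/
def GateK (w : ℕ → ℤ → ℝ) (p : ℕ → ℝ) (N a₀ b : ℕ) (Y0 : Finset ℤ) (Z1 g : ℝ) (k : ℕ) (q : ℤ) : Prop :=
  ∀ y : ℤ, ∀ v ∈ Y0, ker w p a₀ (b - a₀) y v * Z1 ≤ g * (bw w p a₀ (N - a₀) y * ker w p (k + 1) (b - (k + 1)) q v)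

variable {a₀ b : ℕ} {Y0 : Finset ℤ} {tb : ℤ → ℝ} {Y lam g Z1 : ℝ} {k : ℕ} {q : ℤ}

/-- The gate for every start. -/
theorem GateK.kr (hw : ∀ k y, 0 < w k y) (hp : ∀ k, 0 < p k) (h : GateK w p N a₀ b Y0 Z1 g k q) (hg : 0 ≤ g)
    (hab : a₀ ≤ b) (hbN : b ≤ N) {i : ℕ} (hi : i ≤ a₀) (x : ℤ) {v : ℤ} (hv : v ∈ Y0) :
    ker w p i (b - i) x v * Z1 ≤ g * (bw w p i (N - i) x * ker w p (k + 1) (b - (k + 1)) q v) := by
  have e : b - i = (a₀ - i) + (b - a₀) := by omega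
  have e2 : i + (a₀ - i) = a₀ := by omega
  have hk0 : 0 ≤ g * ker w p (k + 1) (b - (k + 1)) q v := mul_nonneg hg (ker_nonneg hw hp _ _ _ _)
  have h1 := bw_part (N := N) hw hp i (a₀ - i) (by omega) x (Icc (v - ((b - a₀ : ℕ) : ℤ)) v)
  rw [e2] at h1
  rw [e, ker_add, e2, sum_mul]
  calc ∑ z ∈ Icc (v - ((b - a₀ : ℕ) : ℤ)) v, ker w p i (a₀ - i) x z * ker w p a₀ (b - a₀) z v * Z1
      ≤ ∑ z ∈ Icc (v - ((b - a₀ : ℕ) : ℤ)) v, (g * ker w p (k + 1) (b - (k + 1)) q v) *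
          (ker w p i (a₀ - i) x z * bw w p a₀ (N - a₀) z) := by
        refine sum_le_sum fun z _ => ?_
        have h2 := mul_le_mul_of_nonneg_left (h z v hv) (ker_nonneg hw hp i (a₀ - i) x z)
        calc _ = ker w p i (a₀ - i) x z * (ker w p a₀ (b - a₀) z v * Z1) := by ring
          _ ≤ _ := h2
          _ = _ := by ring
    _ = (g * ker w p (k + 1) (b - (k + 1)) q v) *
          ∑ z ∈ Icc (v - ((b - a₀ : ℕ) : ℤ)) v, ker w p i (a₀ - i) x z * bw w p a₀ (N - a₀) z := by rw [mul_sum]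
    _ ≤ (g * ker w p (k + 1) (b - (k + 1)) q v) * bw w p i (N - i) x := mul_le_mul_of_nonneg_left h1 hk0
    _ = _ := by ring

/-- The gate for every profile. -/
theorem GateK.fr (hw : ∀ k y, 0 < w k y) (hp : ∀ k, 0 < p k) (h : GateK w p N a₀ b Y0 Z1 g k q) (hg : 0 ≤ g)
    (hab : a₀ ≤ b) (hbN : b ≤ N) {m : ℤ → ℝ} (hm : Ms m lo hi N) {v : ℤ} (hv : v ∈ Y0) :
    fw w p m b v * Z1 ≤ g * (Zt w p m lo hi N * ker w p (k + 1) (b - (k + 1)) q v) := by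
  have e : b = a₀ + (b - a₀) := by omega
  have hk0 : 0 ≤ g * ker w p (k + 1) (b - (k + 1)) q v := mul_nonneg hg (ker_nonneg hw hp _ _ _ _)
  have h1 : ∑ z ∈ Icc (v - ((b - a₀ : ℕ) : ℤ)) v, fw w p m a₀ z * bw w p a₀ (N - a₀) z ≤ Zt w p m lo hi N :=
    Ps_le_Zt hw hp hm (hab.trans hbN) _
  have e3 : fw w p m b v = ∑ z ∈ Icc (v - ((b - a₀ : ℕ) : ℤ)) v, fw w p m a₀ z * ker w p a₀ (b - a₀) z v := by
    conv_lhs => rw [e]
    exact fw_ker a₀ (b - a₀) v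
  rw [e3, sum_mul]
  calc ∑ z ∈ Icc (v - ((b - a₀ : ℕ) : ℤ)) v, fw w p m a₀ z * ker w p a₀ (b - a₀) z v * Z1
      ≤ ∑ z ∈ Icc (v - ((b - a₀ : ℕ) : ℤ)) v, (g * ker w p (k + 1) (b - (k + 1)) q v) *
          (fw w p m a₀ z * bw w p a₀ (N - a₀) z) := by
        refine sum_le_sum fun z _ => ?_
        have h2 := mul_le_mul_of_nonneg_left (h z v hv) (fw_nonneg hw hp hm.nn a₀ z)
        calc _ = fw w p m a₀ z * (ker w p a₀ (b - a₀) z v * Z1) := by ring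
          _ ≤ _ := h2
          _ = _ := by ring
    _ = (g * ker w p (k + 1) (b - (k + 1)) q v) *
          ∑ z ∈ Icc (v - ((b - a₀ : ℕ) : ℤ)) v, fw w p m a₀ z * bw w p a₀ (N - a₀) z := by rw [mul_sum]
    _ ≤ (g * ker w p (k + 1) (b - (k + 1)) q v) * Zt w p m lo hi N := mul_le_mul_of_nonneg_left h1 hk0
    _ = _ := by ring

/-- The gate of CmpG20. -/
theorem GateK.gate (hw : ∀ k y, 0 < w k y) (hp : ∀ k, 0 < p k) (h : GateK w p N a₀ b Y0 Z1 g k q) (hg : 0 ≤ g)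
    (hab : a₀ ≤ b) (hbN : b ≤ N) {D1 : ℝ} (hD1 : 0 ≤ D1) (hZ : bw w p (k + 1) (N - (k + 1)) q ≤ D1 * Z1) :
    Gate w p lo hi N b Y0 (D1 * g) k q :=
  Gate.of_core hw hp hD1 hZ fun _ hm _ hv => h.fr hw hp hg hab hbN hm hv

/-! ### New masses -/

/-- The new mass of a start of a row `≤ b`. -/
theorem luck_tot (L : LuckG w w' p N b lo hi Y0 tb Y) {x : ℤ → ℝ} (hx : ∀ y, 0 ≤ x y) :
    ∑ y ∈ Icc lo hi, x y * bw w' p b (N - b) y ≤ ∑ y ∈ Y0, x y * tb y + Y * ∑ y ∈ Icc lo hi, x y * bw w p b (N - b) y := by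
  classical
  calc ∑ y ∈ Icc lo hi, x y * bw w' p b (N - b) y
      ≤ ∑ y ∈ Icc lo hi, x y * ((if y ∈ Y0 then tb y else 0) + Y * bw w p b (N - b) y) :=
        sum_le_sum fun y hy => mul_le_mul_of_nonneg_left (L.leak y hy) (hx y)
    _ = ∑ y ∈ Icc lo hi, (if y ∈ Y0 then x y * tb y else 0) + Y * ∑ y ∈ Icc lo hi, x y * bw w p b (N - b) y := by
        rw [mul_sum, ← sum_add_distrib]
        refine sum_congr rfl fun y _ => ?_
        split_ifs <;> ring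
    _ = _ := by
        congr 1
        rw [← sum_filter]
        refine sum_congr ?_ fun _ _ => rfl
        ext y
        simp only [mem_filter]
        exact ⟨fun h => h.2, fun h => ⟨L.Y0_sub h, h⟩⟩

/-- The kernels of the rows `< b` are the same. -/
theorem luck_ker (L : LuckG w w' p N b lo hi Y0 tb Y) {i n : ℕ} (h : i + n ≤ b) (x y : ℤ) :
    ker w' p i n x y = ker w p i n x y :=
  ker_congr i n x y fun j _ hj => ⟨(L.eqb j (by omega)).symm, rfl⟩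

theorem luck_fw (L : LuckG w w' p N b lo hi Y0 tb Y) (m : ℤ → ℝ) {j : ℕ} (hj : j ≤ b) (y : ℤ) :
    fw w' p m j y = fw w p m j y := fw_congr j (fun i hi' y => by rw [L.eqb i (by omega)]) y

/-- The tube mass of the contact is at most its new mass. -/
theorem luck_tube (L : LuckG w w' p N b lo hi Y0 tb Y) (hk : k < b) (q : ℤ) :
    ∑ v ∈ Y0, ker w p (k + 1) (b - (k + 1)) q v * tb v ≤ bw w' p (k + 1) (N - (k + 1)) q := by
  have hbN := L.haN
  have e : k + 1 + (b - (k + 1)) = b := by omega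
  have h1 := bw_part (N := N) L.hw' L.hp (k + 1) (b - (k + 1)) (by omega) q Y0
  rw [e] at h1
  refine le_trans (sum_le_sum fun v hv => ?_) h1
  rw [luck_ker L (by omega)]
  exact mul_le_mul_of_nonneg_left (L.tb_le v hv) (ker_nonneg L.hw L.hp _ _ _ _)

/-- **NEW MASS OF A START** `(i, x)`, `i ≤ a₀`. -/
theorem luck_start (L : LuckG w w' p N b lo hi Y0 tb Y) (hlam : 0 < lam) (hg : 0 ≤ g) (hab : a₀ ≤ b) (hZ1 : 0 ≤ Z1)
    (hk : k < b) (hgate : GateK w p N a₀ b Y0 Z1 g k q)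
    (gain : lam * Z1 ≤ ∑ v ∈ Y0, ker w p (k + 1) (b - (k + 1)) q v * tb v) {i : ℕ} (hi' : i ≤ a₀) {x : ℤ} (hx : lo ≤ x)
    (hx' : x + ((b - i : ℕ) : ℤ) ≤ hi) :
    bw w' p i (N - i) x * Z1 ≤ (g + Y / lam) * (bw w p i (N - i) x * bw w' p (k + 1) (N - (k + 1)) q) := by
  have hbN := L.haN
  have hY := L.Y0'
  obtain ⟨T, hT⟩ : ∃ T, T = ∑ v ∈ Y0, ker w p (k + 1) (b - (k + 1)) q v * tb v := ⟨_, rfl⟩
  have hT' : T ≤ bw w' p (k + 1) (N - (k + 1)) q := by rw [hT]; exact luck_tube L hk q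
  rw [← hT] at gain
  have hB : 0 ≤ bw w p i (N - i) x := (bw_pos L.hw L.hp _ _ _).le
  have h1 := bw_row (w := w') (p := p) (N := N) i b (by omega) hbN hx hx'
  have h2 := bw_row (w := w) (p := p) (N := N) i b (by omega) hbN hx hx'
  have h3 := luck_tot L (x := fun y => ker w p i (b - i) x y) fun y => ker_nonneg L.hw L.hp _ _ _ _
  have h4 : bw w' p i (N - i) x ≤ ∑ y ∈ Y0, ker w p i (b - i) x y * tb y + Y * bw w p i (N - i) x := by
    rw [h2, h1]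
    refine le_trans (le_of_eq ?_) h3
    exact sum_congr rfl fun y _ => by rw [luck_ker L (by omega)]
  have h5 : (∑ y ∈ Y0, ker w p i (b - i) x y * tb y) * Z1 ≤ g * (bw w p i (N - i) x * T) := by
    rw [hT, sum_mul, mul_sum, mul_sum]
    refine sum_le_sum fun v hv => ?_
    have h6 := mul_le_mul_of_nonneg_right (hgate.kr L.hw L.hp hg hab hbN hi' x hv) (L.tb0 v hv)
    calc _ = ker w p i (b - i) x v * Z1 * tb v := by ring
      _ ≤ _ := h6
      _ = _ := by ring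
  have h6 : Y * bw w p i (N - i) x * Z1 ≤ Y / lam * (bw w p i (N - i) x * T) := by
    calc Y * bw w p i (N - i) x * Z1 = Y / lam * (bw w p i (N - i) x * (lam * Z1)) := by field_simp
      _ ≤ _ := by gcongr
  calc bw w' p i (N - i) x * Z1 ≤ (∑ y ∈ Y0, ker w p i (b - i) x y * tb y + Y * bw w p i (N - i) x) * Z1 :=
        mul_le_mul_of_nonneg_right h4 hZ1
    _ = (∑ y ∈ Y0, ker w p i (b - i) x y * tb y) * Z1 + Y * bw w p i (N - i) x * Z1 := by ring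
    _ ≤ g * (bw w p i (N - i) x * T) + Y / lam * (bw w p i (N - i) x * T) := add_le_add h5 h6
    _ = (g + Y / lam) * (bw w p i (N - i) x * T) := by ring
    _ ≤ _ := by gcongr

/-- The new mass of a profile, rows. -/
theorem luck_Zt (L : LuckG w w' p N b lo hi Y0 tb Y) {m : ℤ → ℝ} (hm : Ms m lo hi N) :
    Zt w' p m lo hi N ≤ ∑ y ∈ Y0, fw w p m b y * tb y + Y * Zt w p m lo hi N := by
  rw [← Zt_row (w := w') (p := p) hm L.haN, ← Zt_row (w := w) (p := p) hm L.haN]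
  refine le_trans (le_of_eq ?_) (luck_tot L (x := fun y => fw w p m b y) fun y => fw_nonneg L.hw L.hp hm.nn b y)
  exact sum_congr rfl fun y _ => by rw [luck_fw L m le_rfl]

/-- **NEW MASS OF A GROUP.** -/
theorem luck_prof (L : LuckG w w' p N b lo hi Y0 tb Y) (hlam : 0 < lam) (hg : 0 ≤ g) (hab : a₀ ≤ b) (hZ1 : 0 ≤ Z1)
    (hk : k < b) (hgate : GateK w p N a₀ b Y0 Z1 g k q)
    (gain : lam * Z1 ≤ ∑ v ∈ Y0, ker w p (k + 1) (b - (k + 1)) q v * tb v) {m : ℤ → ℝ} (hm : Ms m lo hi N)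
    (hm1 : ∃ y, 0 < m y) :
    Zt w' p m lo hi N * Z1 ≤ (g + Y / lam) * (Zt w p m lo hi N * bw w' p (k + 1) (N - (k + 1)) q) := by
  have hbN := L.haN
  have hY := L.Y0'
  obtain ⟨T, hT⟩ : ∃ T, T = ∑ v ∈ Y0, ker w p (k + 1) (b - (k + 1)) q v * tb v := ⟨_, rfl⟩
  have hT' : T ≤ bw w' p (k + 1) (N - (k + 1)) q := by rw [hT]; exact luck_tube L hk q
  rw [← hT] at gain
  have hB := (Zt_pos L.hw L.hp hm hm1).le
  have h4 := luck_Zt L hm
  have h5 : (∑ y ∈ Y0, fw w p m b y * tb y) * Z1 ≤ g * (Zt w p m lo hi N * T) := by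
    rw [hT, sum_mul, mul_sum, mul_sum]
    refine sum_le_sum fun v hv => ?_
    have h6 := mul_le_mul_of_nonneg_right (hgate.fr L.hw L.hp hg hab hbN hm hv) (L.tb0 v hv)
    calc _ = fw w p m b v * Z1 * tb v := by ring
      _ ≤ _ := h6
      _ = _ := by ring
  have h6 : Y * Zt w p m lo hi N * Z1 ≤ Y / lam * (Zt w p m lo hi N * T) := by
    calc Y * Zt w p m lo hi N * Z1 = Y / lam * (Zt w p m lo hi N * (lam * Z1)) := by field_simp
      _ ≤ _ := by gcongr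
  calc Zt w' p m lo hi N * Z1 ≤ (∑ y ∈ Y0, fw w p m b y * tb y + Y * Zt w p m lo hi N) * Z1 :=
        mul_le_mul_of_nonneg_right h4 hZ1
    _ = (∑ y ∈ Y0, fw w p m b y * tb y) * Z1 + Y * Zt w p m lo hi N * Z1 := by ring
    _ ≤ g * (Zt w p m lo hi N * T) + Y / lam * (Zt w p m lo hi N * T) := add_le_add h5 h6
    _ = (g + Y / lam) * (Zt w p m lo hi N * T) := by ring
    _ ≤ _ := by gcongr

/-! ### Weights of contacts -/

/-- The part of the weight of a contact which reads the rows `≤ k`. -/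
def nc (w : ℕ → ℤ → ℝ) (p : ℕ → ℝ) (l r : ℤ → ℝ) (k : ℕ) (q : ℤ) : ℝ := dp w p l r k (q - 1) q * (p k * (w k (q - 1) * w k q))

/-- **The core weight** of a contact. -/
def uc (w : ℕ → ℤ → ℝ) (p : ℕ → ℝ) (l r : ℤ → ℝ) (lo hi : ℤ) (N k : ℕ) (q : ℤ) (Z1 : ℝ) : ℝ :=
  nc w p l r k q * Z1 ^ 2 / (Zt w p l lo hi N * Zt w p r lo hi N)

theorem pc_eq (k : ℕ) (q : ℤ) : pc w p l r lo hi N k q =
    nc w p l r k q * bw w p (k + 1) (N - (k + 1)) q ^ 2 / (Zt w p l lo hi N * Zt w p r lo hi N) := by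
  unfold pc nc
  ring

theorem nc_nonneg (hw : ∀ k y, 0 < w k y) (hp : ∀ k, 0 < p k) (h : Box l r X lo hi N) (k : ℕ) (q : ℤ) :
    0 ≤ nc w p l r k q :=
  mul_nonneg (dp_nonneg hw hp h.g k (q - 1) q (by omega)) (mul_nonneg (hp k).le (mul_nonneg (hw _ _).le (hw _ _).le))

theorem nc_eq_zero (h : Box l r X lo hi N) {k : ℕ} {q : ℤ} (hq : ¬ (lo < q ∧ q ≤ hi - N + k)) : nc w p l r k q = 0 := by
  have : dp w p l r k (q - 1) q = 0 := by
    unfold dp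
    by_cases h1 : lo < q
    · have h2 : hi - N + k < q := by
        by_contra hc
        exact hq ⟨h1, by omega⟩
      rw [fw_hi (Ms.left h).hi0 k q (by omega), fw_hi (Ms.right h).hi0 k q (by omega)]
      ring
    · rw [fw_lo (Ms.left h).lo0 k (q - 1) (by omega), fw_lo (Ms.right h).lo0 k (q - 1) (by omega)]
      ring
  unfold nc
  rw [this, zero_mul]

theorem luck_nc (L : LuckG w w' p N b lo hi Y0 tb Y) (hk : k < b) (q : ℤ) : nc w' p l r k q = nc w p l r k q := by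
  unfold nc dp
  rw [luck_fw L l hk.le, luck_fw L l hk.le, luck_fw L r hk.le, luck_fw L r hk.le, L.eqb k hk]

theorem uc_nonneg (hw : ∀ k y, 0 < w k y) (hp : ∀ k, 0 < p k) (h : Box l r X lo hi N) (hlp : ∃ y, 0 < l y)
    (hrp : ∃ y, 0 < r y) (k : ℕ) (q : ℤ) (Z1 : ℝ) : 0 ≤ uc w p l r lo hi N k q Z1 :=
  div_nonneg (mul_nonneg (nc_nonneg hw hp h k q) (sq_nonneg _))
    (mul_pos (Zt_pos hw hp (Ms.left h) hlp) (Zt_pos hw hp (Ms.right h) hrp)).le

theorem uc_le_pc (hw : ∀ k y, 0 < w k y) (hp : ∀ k, 0 < p k) (h : Box l r X lo hi N) (hlp : ∃ y, 0 < l y)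
    (hrp : ∃ y, 0 < r y) {k : ℕ} {q : ℤ} {Z1 : ℝ} (h0 : 0 ≤ Z1) (h1 : Z1 ≤ bw w p (k + 1) (N - (k + 1)) q) :
    uc w p l r lo hi N k q Z1 ≤ pc w p l r lo hi N k q := by
  rw [pc_eq]
  unfold uc
  refine div_le_div_of_nonneg_right (mul_le_mul_of_nonneg_left ?_ (nc_nonneg hw hp h k q))
    (mul_pos (Zt_pos hw hp (Ms.left h) hlp) (Zt_pos hw hp (Ms.right h) hrp)).le
  exact pow_le_pow_left₀ h0 h1 2

section cmp

variable (L : LuckG w w' p N b lo hi Y0 tb Y) (hlam : 0 < lam) (hg : 0 ≤ g) (hab : a₀ ≤ b) (hZ1 : 0 ≤ Z1)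
  (h : Box l r X lo hi N) (hlp : ∃ y, 0 < l y) (hrp : ∃ y, 0 < r y) (hk : k < b) (hgate : GateK w p N a₀ b Y0 Z1 g k q)
  (gain : lam * Z1 ≤ ∑ v ∈ Y0, ker w p (k + 1) (b - (k + 1)) q v * tb v)

include L hlam hg hab hZ1 h hlp hrp hk hgate gain

/-- **(A) THE COMPARISON.** -/
theorem pcA : uc w p l r lo hi N k q Z1 ≤ (g + Y / lam) ^ 2 * pc w' p l r lo hi N k q := by
  have hY := L.Y0'
  have a1 := luck_prof L hlam hg hab hZ1 hk hgate gain (Ms.left h) hlp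
  have a2 := luck_prof L hlam hg hab hZ1 hk hgate gain (Ms.right h) hrp
  have z1 := Zt_pos L.hw L.hp (Ms.left h) hlp
  have z2 := Zt_pos L.hw L.hp (Ms.right h) hrp
  have z1' := Zt_pos L.hw' L.hp (Ms.left h) hlp
  have z2' := Zt_pos L.hw' L.hp (Ms.right h) hrp
  have n0 := nc_nonneg L.hw L.hp h k q
  have B' : 0 ≤ bw w' p (k + 1) (N - (k + 1)) q := (bw_pos L.hw' L.hp _ _ _).le
  rw [pc_eq, luck_nc L hk]
  unfold uc
  generalize Zt w p l lo hi N = zl at *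
  generalize Zt w p r lo hi N = zr at *
  generalize Zt w' p l lo hi N = zl' at *
  generalize Zt w' p r lo hi N = zr' at *
  generalize bw w' p (k + 1) (N - (k + 1)) q = B at *
  generalize nc w p l r k q = n at *
  have hG : 0 ≤ g + Y / lam := by positivity
  generalize g + Y / lam = G at *
  have h1 : (zl' * Z1) * (zr' * Z1) ≤ (G * (zl * B)) * (G * (zr * B)) :=
    mul_le_mul a1 a2 (by positivity) (by positivity)
  rw [← mul_div_assoc, div_le_div_iff₀ (by positivity) (by positivity)]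
  nlinarith [mul_le_mul_of_nonneg_left h1 n0]

/-- **(B) EARLY CONTACTS**: `(i, x)`, `i < a₀`. -/
theorem pcB {i : ℕ} (hi' : i < a₀) (x : ℤ) : pc w' p l r lo hi N i x * uc w p l r lo hi N k q Z1 ≤
    (g + Y / lam) ^ 2 * (pc w p l r lo hi N i x * pc w' p l r lo hi N k q) := by
  have hY := L.Y0'
  have hbN := L.haN
  have z1 := Zt_pos L.hw L.hp (Ms.left h) hlp
  have z2 := Zt_pos L.hw L.hp (Ms.right h) hrp
  have z1' := Zt_pos L.hw' L.hp (Ms.left h) hlp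
  have z2' := Zt_pos L.hw' L.hp (Ms.right h) hrp
  have n0 := nc_nonneg L.hw L.hp h k q
  have n1 := nc_nonneg L.hw L.hp h i x
  have B' : 0 ≤ bw w' p (k + 1) (N - (k + 1)) q := (bw_pos L.hw' L.hp _ _ _).le
  have B1 : 0 ≤ bw w p (i + 1) (N - (i + 1)) x := (bw_pos L.hw L.hp _ _ _).le
  have B1' : 0 ≤ bw w' p (i + 1) (N - (i + 1)) x := (bw_pos L.hw' L.hp _ _ _).le
  rw [pc_eq, pc_eq (w := w') k q, pc_eq (w := w) i x, luck_nc L hk, luck_nc L (by omega)]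
  unfold uc
  by_cases hx : lo < x ∧ x ≤ hi - N + i
  · have a1 := luck_start L hlam hg hab hZ1 hk hgate gain (i := i + 1) (by omega) (x := x) hx.1.le (by
      have h1 : (i : ℤ) + 1 ≤ b := by exact_mod_cast (show i + 1 ≤ b by omega)
      have h2 : (b : ℤ) ≤ N := by exact_mod_cast hbN
      omega)
    generalize Zt w p l lo hi N = zl at *
    generalize Zt w p r lo hi N = zr at *
    generalize Zt w' p l lo hi N = zl' at *
    generalize Zt w' p r lo hi N = zr' at *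
    generalize bw w' p (k + 1) (N - (k + 1)) q = B at *
    generalize bw w p (i + 1) (N - (i + 1)) x = C at *
    generalize bw w' p (i + 1) (N - (i + 1)) x = C' at *
    generalize nc w p l r k q = n at *
    generalize nc w p l r i x = n' at *
    have hG : 0 ≤ g + Y / lam := by positivity
    generalize g + Y / lam = G at *
    have h1 : (C' * Z1) ^ 2 ≤ (G * (C * B)) ^ 2 := pow_le_pow_left₀ (by positivity) a1 2
    have e1 : n' * C' ^ 2 / (zl' * zr') * (n * Z1 ^ 2 / (zl * zr)) = (n' * n) * (C' * Z1) ^ 2 / ((zl' * zr') * (zl * zr)) := by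
      field_simp
    have e2 : G ^ 2 * (n' * C ^ 2 / (zl * zr) * (n * B ^ 2 / (zl' * zr'))) =
        (n' * n) * (G * (C * B)) ^ 2 / ((zl' * zr') * (zl * zr)) := by
      field_simp
    rw [e1, e2]
    exact div_le_div_of_nonneg_right (mul_le_mul_of_nonneg_left h1 (mul_nonneg n1 n0)) (by positivity)
  · rw [nc_eq_zero h hx]
    simp

end cmp

/-! ### One cell -/

/-- **THE EARLY MOMENT OF ONE CELL**, deterministic: `Ea` = early contacts, `Ka` = contacts of the cell, `Kg` = those with the gate,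
`Nb` = the neighbours. -/
theorem early28 (L : LuckG w w' p N b lo hi Y0 tb Y) (hlam : 0 < lam) (hg : 0 ≤ g) (hab : a₀ ≤ b) (h : Box l r X lo hi N)
    (hlp : ∃ y, 0 < l y) (hrp : ∃ y, 0 < r y) {Ea Ka Kg Nb : Finset (ℕ × ℤ)} (hEa : ∀ c ∈ Ea, c.1 < a₀)
    (hKg : Kg ⊆ Ka) (hKN : Ka ⊆ Nb) (hKb : ∀ c ∈ Kg, c.1 < b) {Z1 : ℕ × ℤ → ℝ} (hZ0 : ∀ c ∈ Kg, 0 ≤ Z1 c)
    (hZ1 : ∀ c ∈ Kg, Z1 c ≤ bw w p (c.1 + 1) (N - (c.1 + 1)) c.2) (hgate : ∀ c ∈ Kg, GateK w p N a₀ b Y0 (Z1 c) g c.1 c.2)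
    (gain : ∀ c ∈ Kg, lam * Z1 c ≤ ∑ v ∈ Y0, ker w p (c.1 + 1) (b - (c.1 + 1)) c.2 v * tb v)
    (rest : 7 / 8 ≤ ∑ c ∈ Ea, pc w' p l r lo hi N c.1 c.2 + ∑ c ∈ Nb, pc w' p l r lo hi N c.1 c.2) :
    ∑ c ∈ Kg, uc w p l r lo hi N c.1 c.2 (Z1 c) ≤ (3 + 2 * (g + Y / lam) ^ 2) *
      ((∑ c ∈ Ea, pc w p l r lo hi N c.1 c.2 + ∑ c ∈ Ka, pc w p l r lo hi N c.1 c.2) *
        ∑ c ∈ Nb, pc w' p l r lo hi N c.1 c.2) := by
  have hY := L.Y0'
  have P0 : ∀ c : ℕ × ℤ, 0 ≤ pc w p l r lo hi N c.1 c.2 := fun c => pc_nonneg L.hw L.hp h hlp hrp _ _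
  have P0' : ∀ c : ℕ × ℤ, 0 ≤ pc w' p l r lo hi N c.1 c.2 := fun c => pc_nonneg L.hw' L.hp h hlp hrp _ _
  obtain ⟨E, hE⟩ : ∃ E, E = ∑ c ∈ Ea, pc w p l r lo hi N c.1 c.2 := ⟨_, rfl⟩
  obtain ⟨E', hE'⟩ : ∃ E, E = ∑ c ∈ Ea, pc w' p l r lo hi N c.1 c.2 := ⟨_, rfl⟩
  obtain ⟨W, hW⟩ : ∃ E, E = ∑ c ∈ Ka, pc w p l r lo hi N c.1 c.2 := ⟨_, rfl⟩
  obtain ⟨V, hV⟩ : ∃ E, E = ∑ c ∈ Nb, pc w' p l r lo hi N c.1 c.2 := ⟨_, rfl⟩
  obtain ⟨U, hU⟩ : ∃ E, E = ∑ c ∈ Kg, uc w p l r lo hi N c.1 c.2 (Z1 c) := ⟨_, rfl⟩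
  have e0 : 0 ≤ E := by rw [hE]; exact sum_nonneg fun c _ => P0 c
  have e0' : 0 ≤ E' := by rw [hE']; exact sum_nonneg fun c _ => P0' c
  have w0 : 0 ≤ W := by rw [hW]; exact sum_nonneg fun c _ => P0 c
  have v0 : 0 ≤ V := by rw [hV]; exact sum_nonneg fun c _ => P0' c
  have u0 : 0 ≤ U := by rw [hU]; exact sum_nonneg fun c _ => uc_nonneg L.hw L.hp h hlp hrp _ _ _
  have hUW : U ≤ W := by
    rw [hU, hW]
    exact (sum_le_sum fun c hc => uc_le_pc L.hw L.hp h hlp hrp (hZ0 c hc) (hZ1 c hc)).trans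
      (sum_le_sum_of_subset_of_nonneg hKg fun c _ _ => P0 c)
  have hG : 0 ≤ (g + Y / lam) ^ 2 := sq_nonneg _
  have hB : E' * U ≤ (g + Y / lam) ^ 2 * (E * V) := by
    have h1 : ∀ c ∈ Kg, E' * uc w p l r lo hi N c.1 c.2 (Z1 c) ≤
        (g + Y / lam) ^ 2 * (E * pc w' p l r lo hi N c.1 c.2) := by
      intro c hc
      rw [hE', hE, sum_mul, sum_mul, mul_sum]
      refine sum_le_sum fun d hd => ?_
      exact pcB L hlam hg hab (hZ0 c hc) h hlp hrp (hKb c hc) (hgate c hc) (gain c hc) (hEa d hd) d.2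
    calc E' * U = ∑ c ∈ Kg, E' * uc w p l r lo hi N c.1 c.2 (Z1 c) := by rw [hU, mul_sum]
      _ ≤ ∑ c ∈ Kg, (g + Y / lam) ^ 2 * (E * pc w' p l r lo hi N c.1 c.2) := sum_le_sum h1
      _ = (g + Y / lam) ^ 2 * (E * ∑ c ∈ Kg, pc w' p l r lo hi N c.1 c.2) := by rw [mul_sum, mul_sum]
      _ ≤ _ := by
        refine mul_le_mul_of_nonneg_left (mul_le_mul_of_nonneg_left ?_ e0) hG
        rw [hV]
        exact sum_le_sum_of_subset_of_nonneg (hKg.trans hKN) fun c _ _ => P0' c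
  rw [← hE', ← hV] at rest
  rw [← hE, ← hW, ← hV, ← hU]
  generalize (g + Y / lam) ^ 2 = G at *
  have hEW : 0 ≤ (E + W) * V := mul_nonneg (add_nonneg e0 w0) v0
  have hWV : 0 ≤ W * V := mul_nonneg w0 v0
  have hGW : 0 ≤ G * (W * V) := mul_nonneg hG hWV
  rcases le_total (1 / 2) E' with h1 | h1
  · have h2 : 1 / 2 * U ≤ E' * U := mul_le_mul_of_nonneg_right h1 u0
    nlinarith
  · have h3 : 3 / 8 ≤ V := by linarith
    have h4 : 3 / 8 * (E + W) ≤ (E + W) * V := by nlinarith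
    have h5 : 0 ≤ G * ((E + W) * V) := mul_nonneg hG hEW
    nlinarith

end

end Pool.Agent.W_7d29a1_C1.Ea28
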