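import Pool.Agent.W_7d29a1_C1.SepA35

/-!
# MP_7d29a1_pr, C1, SEP, S8: MOVE THE CONTACT for one cell (M3), deterministic, over K91P (helper30)

Rows `low ≤ a ≤ b ≤ e ≤ N`; the environments `w`, `w'` agree on the rows `< b`. `κ` = contacts in the rows
`[low, a)`, `nb ⊇ κ`. Windows `Wn` (row `a`), `W2` (row `b`), mouth `Mo ⊆ W2` (row `b`). If the kernel of the
rows `[a, b)` has cross ratios at most `κ₀` on `Wn × W2` (pinch), one group is in the windows up to a quarter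
of the weight of `κ` (old), its new paths go through `Wn` and `Mo` and stay in the columns of `nb` up to a
small part of the mass, and the new pairs have met at the row `e`, then (`early30`)
`w_κ ≤ 8 κ₀ ^ 2 w'_nb (P(met before low) + w_κ)`. `stay30`: `w_κ ≤ 4 κ₀ ^ 2 w'_κ`.
-/

set_option autoImplicit false

namespace Pool.Agent.W_7d29a1_C1.E30

open Finset
open Pool.Agent.W_7d29a1_C1.K91 (Grp Box)
open Pool.Agent.W_7d29a1_C1.K91P
open Pool.Agent.W_7d29a1_C1.U16 (ker ker_eq_zero ker_nonneg ker_congr fw_ker)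
open Pool.Agent.W_7d29a1_C1.SepA35

noncomputable section

variable {w w' : ℕ → ℤ → ℝ} {p : ℕ → ℝ} {l r : ℤ → ℝ} {X lo hi : ℤ} {N : ℕ}

/-- The weight of the first meeting at the contact `c`, not normalised. -/
def ww (w : ℕ → ℤ → ℝ) (p : ℕ → ℝ) (l r : ℤ → ℝ) (N : ℕ) (c : ℕ × ℤ) : ℝ :=
  dp w p l r c.1 (c.2 - 1) c.2 * (p c.1 * (w c.1 (c.2 - 1) * w c.1 c.2) *
    bw w p (c.1 + 1) (N - (c.1 + 1)) c.2 ^ 2)

/-- The total mass of a group. -/
def ZZ (w : ℕ → ℤ → ℝ) (p : ℕ → ℝ) (m : ℤ → ℝ) (lo hi : ℤ) (N : ℕ) : ℝ :=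
  ∑ y ∈ Icc lo hi, m y * bw w p 0 N y

/-- The mass of the paths of a group which are in `A` at the row `k`. -/
def mA (w : ℕ → ℤ → ℝ) (p : ℕ → ℝ) (m : ℤ → ℝ) (N k : ℕ) (A : Finset ℤ) : ℝ :=
  ∑ y ∈ A, fw w p m k y * bw w p k (N - k) y

theorem mt_ww (k : ℕ) : mt w p l r lo hi N k = ∑ q ∈ Icc lo hi, ww w p l r N (k, q) := rfl

/-! ### Profiles at a row -/

/-- The future of a site from the row `a` on. -/
theorem bw_bf (k m n : ℕ) (y : ℤ) : bw w p k (m + n) y = bf w p (bw w p (k + m) n) k m y := by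
  rw [← bf_one, bf_add]
  congr 1
  funext z
  rw [bf_one]

/-- The weights with the profile at the row `a`. -/
theorem ww_cw {a : ℕ} (ha : a ≤ N) {c : ℕ × ℤ} (hc : c.1 < a) :
    ww w p l r N c = cw w p l r a (bw w p a (N - a)) (bw w p a (N - a)) c := by
  unfold ww cw
  have e : N - (c.1 + 1) = (a - (c.1 + 1)) + (N - a) := by omega
  have e2 : c.1 + 1 + (a - (c.1 + 1)) = a := by omega
  have h := bw_bf (w := w) (p := p) (c.1 + 1) (a - (c.1 + 1)) (N - a) c.2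
  rw [e2] at h
  rw [e, h]
  ring

theorem cw_comm (b : ℕ) (f g : ℤ → ℝ) (c : ℕ × ℤ) : cw w p l r b f g c = cw w p l r b g f c := by
  unfold cw
  ring

theorem cw_add (b : ℕ) (f f' g : ℤ → ℝ) (c : ℕ × ℤ) :
    cw w p l r b (fun u => f u + f' u) g c = cw w p l r b f g c + cw w p l r b f' g c := by
  unfold cw
  rw [bf_sum]
  ring

theorem cw_mono (hw : ∀ k y, 0 < w k y) (hp : ∀ k, 0 < p k) (h : Grp l r X) (b : ℕ) {f g f' g' : ℤ → ℝ}
    (hg : ∀ u, 0 ≤ g u) (hf' : ∀ u, 0 ≤ f' u) (hff : ∀ u, f u ≤ f' u)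
    (hgg : ∀ u, g u ≤ g' u) (c : ℕ × ℤ) : cw w p l r b f g c ≤ cw w p l r b f' g' c := by
  unfold cw
  have h1 := dp_nonneg hw hp h c.1 (c.2 - 1) c.2 (by omega)
  have h2 := bf_nonneg hw hp hg (b - (c.1 + 1)) (c.1 + 1) c.2
  have h3 := bf_nonneg hw hp hf' (b - (c.1 + 1)) (c.1 + 1) c.2
  have h4 := bf_mono hw hp hff (b - (c.1 + 1)) (c.1 + 1) c.2
  have h5 := bf_mono hw hp hgg (b - (c.1 + 1)) (c.1 + 1) c.2
  exact mul_le_mul_of_nonneg_left (mul_le_mul_of_nonneg_left (mul_le_mul h4 h5 h2 h3)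
    (mul_nonneg (hp _).le (mul_nonneg (hw _ _).le (hw _ _).le))) h1

/-- Any set of contacts in front of the row `a` weighs at most the product of the two masses. -/
theorem cw_sum_le (hw : ∀ k y, 0 < w k y) (hp : ∀ k, 0 < p k) (h : Box l r X lo hi N) {a : ℕ} (ha : a ≤ N)
    {S : Finset (ℕ × ℤ)} (hS : ∀ c ∈ S, c.1 < a ∧ c.2 ∈ Icc lo hi) {f g : ℤ → ℝ} (hf : ∀ u, 0 ≤ f u)
    (hg : ∀ u, 0 ≤ g u) :
    ∑ c ∈ S, cw w p l r a f g c ≤ s1 w p l lo hi a f * s1 w p r lo hi a g := by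
  have h1 : S ⊆ Ico 0 a ×ˢ Icc lo hi := fun c hc => by
    rw [mem_product, mem_Ico]
    exact ⟨⟨Nat.zero_le _, (hS c hc).1⟩, (hS c hc).2⟩
  calc ∑ c ∈ S, cw w p l r a f g c ≤ ∑ c ∈ Ico 0 a ×ˢ Icc lo hi, cw w p l r a f g c :=
        sum_le_sum_of_subset_of_nonneg h1 fun c _ _ => cw_nonneg hw hp h.g a hf hg c
    _ = ∑ i ∈ Ico 0 a, ∑ q ∈ Icc lo hi, cw w p l r a f g (i, q) := sum_product _ _ _
    _ = me w p l r lo hi a f g := by
        rw [me_sum h f g ha a 0 (by omega), me_row0 h.g, zero_add]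
    _ ≤ _ := by
        have h2 := un_add_me (w := w) (p := p) (l := l) (r := r) (lo := lo) (hi := hi) a f g
        have h3 := un_nonneg hw hp h.g a hf hg (lo := lo) (hi := hi)
        linarith

/-- The mass of a group at the row `a`. -/
theorem s1_ZZ (h : Box l r X lo hi N) {a : ℕ} (ha : a ≤ N) :
    s1 w p l lo hi a (bw w p a (N - a)) = ZZ w p l lo hi N ∧
      s1 w p r lo hi a (bw w p a (N - a)) = ZZ w p r lo hi N := by
  have e : ∀ y, bw w p 0 N y = bf w p (bw w p a (N - a)) 0 a y := fun y => by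
    have h1 := bw_bf (w := w) (p := p) 0 a (N - a) y
    rw [Nat.zero_add] at h1
    rw [← h1]
    congr 1
    omega
  have h2 := s1_bf (w := w) (p := p) h (bw w p a (N - a)) (a := 0) (j := a) (by omega)
  rw [Nat.zero_add] at h2
  unfold ZZ
  exact ⟨h2.1.symm.trans (sum_congr rfl fun y _ => by rw [e]; rfl),
    h2.2.symm.trans (sum_congr rfl fun y _ => by rw [e]; rfl)⟩

/-! ### The part which goes through the windows -/

/-- The future of `u` (row `a`) through `Wn` at the row `a` and `V` at the row `b`. -/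
def Ap (w : ℕ → ℤ → ℝ) (p : ℕ → ℝ) (a b : ℕ) (Wn V : Finset ℤ) (F : ℤ → ℝ) (u : ℤ) : ℝ :=
  if u ∈ Wn then ∑ v ∈ V, ker w p a (b - a) u v * F v else 0

/-- The rest. -/
def Rp (w : ℕ → ℤ → ℝ) (p : ℕ → ℝ) (a b : ℕ) (Wn V : Finset ℤ) (F : ℤ → ℝ) (u : ℤ) : ℝ :=
  bf w p F a (b - a) u - Ap w p a b Wn V F u

theorem Ap_nonneg (hw : ∀ k y, 0 < w k y) (hp : ∀ k, 0 < p k) {a b : ℕ} {Wn V : Finset ℤ} {F : ℤ → ℝ}
    (hF : ∀ v, 0 ≤ F v) (u : ℤ) : 0 ≤ Ap w p a b Wn V F u := by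
  unfold Ap
  split_ifs
  · exact sum_nonneg fun v _ => mul_nonneg (ker_nonneg hw hp _ _ _ _) (hF v)
  · exact le_rfl

private theorem sum_cone (a n : ℕ) (V : Finset ℤ) (F : ℤ → ℝ) (u : ℤ) :
    ∑ v ∈ V, ker w p a n u v * F v = ∑ v ∈ V ∩ Icc u (u + n), ker w p a n u v * F v := by
  symm
  refine sum_subset inter_subset_left fun v hv hv' => ?_
  rw [ker_eq_zero a n u v (fun h => hv' (mem_inter.2 ⟨hv, mem_Icc.2 h⟩)), zero_mul]

theorem Ap_le (hw : ∀ k y, 0 < w k y) (hp : ∀ k, 0 < p k) {a b : ℕ} {Wn V : Finset ℤ} {F : ℤ → ℝ}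
    (hF : ∀ v, 0 ≤ F v) (u : ℤ) : Ap w p a b Wn V F u ≤ bf w p F a (b - a) u := by
  unfold Ap
  split_ifs
  · rw [bf_ker, sum_cone]
    exact sum_le_sum_of_subset_of_nonneg inter_subset_right fun v _ _ =>
      mul_nonneg (ker_nonneg hw hp _ _ _ _) (hF v)
  · exact bf_nonneg hw hp hF _ _ _

theorem Rp_nonneg (hw : ∀ k y, 0 < w k y) (hp : ∀ k, 0 < p k) {a b : ℕ} {Wn V : Finset ℤ} {F : ℤ → ℝ}
    (hF : ∀ v, 0 ≤ F v) (u : ℤ) : 0 ≤ Rp w p a b Wn V F u := by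
  unfold Rp
  linarith [Ap_le hw hp (a := a) (b := b) (Wn := Wn) (V := V) hF u]

/-- The mass of the rest. -/
theorem s1_Rp (hw : ∀ k y, 0 < w k y) (hp : ∀ k, 0 < p k) {m : ℤ → ℝ} (hm : ∀ y, 0 ≤ m y)
    (h0 : ∀ y, y < lo → m y = 0) (h1 : ∀ y, hi - N < y → m y = 0) {a b : ℕ} (hab : a ≤ b) (hb : b ≤ N)
    {Wn V : Finset ℤ} (hWn : Wn ⊆ Icc lo hi) {F : ℤ → ℝ} (hF : ∀ v, 0 ≤ F v) :
    s1 w p m lo hi a (Rp w p a b Wn V F) ≤
      ∑ u ∈ Icc lo hi \ Wn, fw w p m a u * bf w p F a (b - a) u + ∑ v ∈ Icc lo hi \ V, fw w p m b v * F v := by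
  have hfw : ∀ k y, 0 ≤ fw w p m k y := fun k y => fw_nonneg hw hp hm k y
  have hz0 : ∀ y, y < lo → fw w p m a y = 0 := fun y hy => fw_lo h0 a y hy
  have hz1 : ∀ y, hi - N + a < y → fw w p m a y = 0 := fun y hy => fw_hi h1 a y hy
  have hk0 : ∀ u v, 0 ≤ ker w p a (b - a) u v * F v := fun u v =>
    mul_nonneg (ker_nonneg hw hp _ _ _ _) (hF v)
  -- one site of the window
  have e1 : ∀ u ∈ Wn, fw w p m a u * Rp w p a b Wn V F u ≤
      ∑ v ∈ Icc lo hi \ V, fw w p m a u * ker w p a (b - a) u v * F v := by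
    intro u hu
    by_cases hz : fw w p m a u = 0
    · rw [hz, zero_mul]
      exact sum_nonneg fun v _ => by rw [zero_mul, zero_mul]
    have hu0 : lo ≤ u := by
      by_contra hh
      exact hz (hz0 u (by omega))
    have hu1 : u ≤ hi - N + a := by
      by_contra hh
      exact hz (hz1 u (by omega))
    have e2 : Rp w p a b Wn V F u ≤ ∑ v ∈ Icc lo hi \ V, ker w p a (b - a) u v * F v := by
      unfold Rp Ap
      rw [if_pos hu, bf_ker]
      have e3 : ∑ v ∈ Icc u (u + ((b - a : ℕ) : ℤ)), ker w p a (b - a) u v * F v ≤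
          ∑ v ∈ (Icc lo hi \ V) ∪ V, ker w p a (b - a) u v * F v := by
        refine sum_le_sum_of_subset_of_nonneg (fun v hv => ?_) fun v _ _ => hk0 u v
        rw [mem_Icc] at hv
        rw [mem_union, mem_sdiff, mem_Icc]
        by_cases hV : v ∈ V
        · exact Or.inr hV
        · exact Or.inl ⟨⟨by omega, by omega⟩, hV⟩
      rw [sum_union (disjoint_sdiff_self_left)] at e3
      linarith
    calc fw w p m a u * Rp w p a b Wn V F u ≤
        fw w p m a u * ∑ v ∈ Icc lo hi \ V, ker w p a (b - a) u v * F v :=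
          mul_le_mul_of_nonneg_left e2 (hfw a u)
      _ = _ := by
        rw [mul_sum]
        exact sum_congr rfl fun v _ => by ring
  have e4 : ∑ u ∈ Wn, fw w p m a u * Rp w p a b Wn V F u ≤ ∑ v ∈ Icc lo hi \ V, fw w p m b v * F v := by
    refine (sum_le_sum e1).trans ?_
    rw [sum_comm]
    refine sum_le_sum fun v _ => ?_
    rw [← sum_mul]
    refine mul_le_mul_of_nonneg_right ?_ (hF v)
    have e5 : fw w p m b v = ∑ x ∈ Icc (v - ((b - a : ℕ) : ℤ)) v, fw w p m a x * ker w p a (b - a) x v := by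
      have := fw_ker (w := w) (p := p) (l := m) a (b - a) v
      rwa [Nat.add_sub_cancel' hab] at this
    rw [e5]
    have e6 : ∑ u ∈ Wn, fw w p m a u * ker w p a (b - a) u v =
        ∑ u ∈ Wn ∩ Icc (v - ((b - a : ℕ) : ℤ)) v, fw w p m a u * ker w p a (b - a) u v := by
      symm
      refine sum_subset inter_subset_left fun u hu hu' => ?_
      rw [ker_eq_zero a (b - a) u v (fun hh => hu' (mem_inter.2 ⟨hu, mem_Icc.2 ⟨by omega, by omega⟩⟩)), mul_zero]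
    rw [e6]
    exact sum_le_sum_of_subset_of_nonneg inter_subset_right fun u _ _ =>
      mul_nonneg (hfw a u) (ker_nonneg hw hp _ _ _ _)
  have e7 : s1 w p m lo hi a (Rp w p a b Wn V F) =
      ∑ u ∈ Icc lo hi \ Wn, fw w p m a u * Rp w p a b Wn V F u + ∑ u ∈ Wn, fw w p m a u * Rp w p a b Wn V F u := by
    unfold s1
    rw [sum_sdiff hWn]
  have e8 : ∑ u ∈ Icc lo hi \ Wn, fw w p m a u * Rp w p a b Wn V F u =
      ∑ u ∈ Icc lo hi \ Wn, fw w p m a u * bf w p F a (b - a) u := by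
    refine sum_congr rfl fun u hu => ?_
    unfold Rp Ap
    rw [if_neg (mem_sdiff.1 hu).2, sub_zero]
  rw [e7, e8]
  linarith

/-- The pinch for the profiles. -/
theorem pin_Ap {a b : ℕ} {Wn W2 Mo : Finset ℤ} {F F' : ℤ → ℝ} {κ₀ : ℝ} (hMo : Mo ⊆ W2) (hF : ∀ v, 0 ≤ F v)
    (hF' : ∀ v, 0 ≤ F' v)
    (pin : ∀ u ∈ Wn, ∀ u' ∈ Wn, ∀ v ∈ W2, ∀ v' ∈ W2, ker w p a (b - a) u v * ker w p a (b - a) u' v' ≤
      κ₀ * (ker w p a (b - a) u v' * ker w p a (b - a) u' v)) (u u' : ℤ) :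
    Ap w p a b Wn Mo F' u * Ap w p a b Wn W2 F u' ≤ κ₀ * (Ap w p a b Wn W2 F u * Ap w p a b Wn Mo F' u') := by
  unfold Ap
  by_cases hu : u ∈ Wn
  · by_cases hu' : u' ∈ Wn
    · rw [if_pos hu, if_pos hu', if_pos hu, if_pos hu', sum_mul_sum, sum_mul_sum, sum_comm, mul_sum]
      refine sum_le_sum fun v' hv' => ?_
      rw [mul_sum]
      refine sum_le_sum fun v hv => ?_
      have h1 := mul_le_mul_of_nonneg_right (pin u hu u' hu' v (hMo hv) v' hv') (mul_nonneg (hF' v) (hF v'))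
      calc ker w p a (b - a) u v * F' v * (ker w p a (b - a) u' v' * F v') =
          ker w p a (b - a) u v * ker w p a (b - a) u' v' * (F' v * F v') := by ring
        _ ≤ _ := h1
        _ = _ := by ring
    · simp only [hu', if_false, mul_zero, le_refl]
  · simp only [hu, if_false, zero_mul, mul_zero, le_refl]

/-- The pinch for the weights of two contacts. -/
theorem pin_cw (hw : ∀ k y, 0 < w k y) (hp : ∀ k, 0 < p k) (h : Grp l r X) {a : ℕ} {A A' : ℤ → ℝ} {κ₀ : ℝ}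
    (hA : ∀ u, 0 ≤ A u) (hA' : ∀ u, 0 ≤ A' u)
    (pin : ∀ u u', A' u * A u' ≤ κ₀ * (A u * A' u')) (c d : ℕ × ℤ) :
    cw w p l r a A' A' c * cw w p l r a A A d ≤
      κ₀ ^ 2 * (cw w p l r a A A c * cw w p l r a A' A' d) := by
  have b1 : bf w p A' (c.1 + 1) (a - (c.1 + 1)) c.2 * bf w p A (d.1 + 1) (a - (d.1 + 1)) d.2 ≤
      κ₀ * (bf w p A (c.1 + 1) (a - (c.1 + 1)) c.2 * bf w p A' (d.1 + 1) (a - (d.1 + 1)) d.2) := by
    rw [bf_ker, bf_ker, bf_ker, bf_ker, sum_mul_sum, sum_mul_sum, mul_sum]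
    refine sum_le_sum fun u _ => ?_
    rw [mul_sum]
    refine sum_le_sum fun u' _ => ?_
    have k1 := ker_nonneg hw hp (c.1 + 1) (a - (c.1 + 1)) c.2 u
    have k2 := ker_nonneg hw hp (d.1 + 1) (a - (d.1 + 1)) d.2 u'
    have h1 := mul_le_mul_of_nonneg_left (pin u u') (mul_nonneg k1 k2)
    calc _ = ker w p (c.1 + 1) (a - (c.1 + 1)) c.2 u * ker w p (d.1 + 1) (a - (d.1 + 1)) d.2 u' *
          (A' u * A u') := by ring
      _ ≤ _ := h1
      _ = _ := by ring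
  obtain ⟨x1, hx1⟩ : ∃ x, x = bf w p A' (c.1 + 1) (a - (c.1 + 1)) c.2 := ⟨_, rfl⟩
  obtain ⟨x2, hx2⟩ : ∃ x, x = bf w p A (d.1 + 1) (a - (d.1 + 1)) d.2 := ⟨_, rfl⟩
  obtain ⟨y1, hy1⟩ : ∃ x, x = bf w p A (c.1 + 1) (a - (c.1 + 1)) c.2 := ⟨_, rfl⟩
  obtain ⟨y2, hy2⟩ : ∃ x, x = bf w p A' (d.1 + 1) (a - (d.1 + 1)) d.2 := ⟨_, rfl⟩
  have n1 : 0 ≤ x1 := by rw [hx1]; exact bf_nonneg hw hp hA' _ _ _
  have n2 : 0 ≤ x2 := by rw [hx2]; exact bf_nonneg hw hp hA _ _ _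
  have n3 : 0 ≤ y1 := by rw [hy1]; exact bf_nonneg hw hp hA _ _ _
  have n4 : 0 ≤ y2 := by rw [hy2]; exact bf_nonneg hw hp hA' _ _ _
  rw [← hx1, ← hx2, ← hy1, ← hy2] at b1
  have b2 : (x1 * x2) ^ 2 ≤ (κ₀ * (y1 * y2)) ^ 2 := pow_le_pow_left₀ (mul_nonneg n1 n2) b1 2
  have m1 : 0 ≤ dp w p l r c.1 (c.2 - 1) c.2 * (p c.1 * (w c.1 (c.2 - 1) * w c.1 c.2)) :=
    mul_nonneg (dp_nonneg hw hp h c.1 _ _ (by omega)) (mul_nonneg (hp _).le (mul_nonneg (hw _ _).le (hw _ _).le))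
  have m2 : 0 ≤ dp w p l r d.1 (d.2 - 1) d.2 * (p d.1 * (w d.1 (d.2 - 1) * w d.1 d.2)) :=
    mul_nonneg (dp_nonneg hw hp h d.1 _ _ (by omega)) (mul_nonneg (hp _).le (mul_nonneg (hw _ _).le (hw _ _).le))
  unfold cw
  rw [← hx1, ← hx2, ← hy1, ← hy2]
  calc _ = dp w p l r c.1 (c.2 - 1) c.2 * (p c.1 * (w c.1 (c.2 - 1) * w c.1 c.2)) *
        (dp w p l r d.1 (d.2 - 1) d.2 * (p d.1 * (w d.1 (d.2 - 1) * w d.1 d.2))) * (x1 * x2) ^ 2 := by ring
    _ ≤ dp w p l r c.1 (c.2 - 1) c.2 * (p c.1 * (w c.1 (c.2 - 1) * w c.1 c.2)) *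
        (dp w p l r d.1 (d.2 - 1) d.2 * (p d.1 * (w d.1 (d.2 - 1) * w d.1 d.2))) * (κ₀ * (y1 * y2)) ^ 2 :=
      mul_le_mul_of_nonneg_left b2 (mul_nonneg m1 m2)
    _ = _ := by ring

/-- The contacts of a set: all futures against the futures through the windows. -/
theorem sq_le (hw : ∀ k y, 0 < w k y) (hp : ∀ k, 0 < p k) (h : Box l r X lo hi N) {a b : ℕ} (hab : a ≤ b)
    (hb : b ≤ N) {S : Finset (ℕ × ℤ)} (hS : ∀ c ∈ S, c.1 < a ∧ c.2 ∈ Icc lo hi) {Wn V : Finset ℤ}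
    {F : ℤ → ℝ} (hF : ∀ v, 0 ≤ F v) :
    ∑ c ∈ S, cw w p l r a (bf w p F a (b - a)) (bf w p F a (b - a)) c ≤
      ∑ c ∈ S, cw w p l r a (Ap w p a b Wn V F) (Ap w p a b Wn V F) c +
        2 * (s1 w p l lo hi a (Rp w p a b Wn V F) * s1 w p r lo hi a (bf w p F a (b - a))) := by
  have hG : ∀ u, 0 ≤ bf w p F a (b - a) u := fun u => bf_nonneg hw hp hF _ _ u
  have hR : ∀ u, 0 ≤ Rp w p a b Wn V F u := fun u => Rp_nonneg hw hp hF u
  have hA : ∀ u, 0 ≤ Ap w p a b Wn V F u := fun u => Ap_nonneg hw hp hF u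
  have h1 := cw_sum_le hw hp h (hab.trans hb) hS hR hG
  have h2 : ∀ c ∈ S, cw w p l r a (bf w p F a (b - a)) (bf w p F a (b - a)) c ≤
      cw w p l r a (Ap w p a b Wn V F) (Ap w p a b Wn V F) c +
        2 * cw w p l r a (Rp w p a b Wn V F) (bf w p F a (b - a)) c := by
    intro c _
    have e : bf w p F a (b - a) = fun u => Ap w p a b Wn V F u + Rp w p a b Wn V F u := by
      funext u
      unfold Rp
      ring
    have e1 := cw_add (w := w) (p := p) (l := l) (r := r) a (Ap w p a b Wn V F) (Rp w p a b Wn V F)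
      (bf w p F a (b - a)) c
    rw [← e] at e1
    have e2 := cw_add (w := w) (p := p) (l := l) (r := r) a (Ap w p a b Wn V F) (Rp w p a b Wn V F)
      (Ap w p a b Wn V F) c
    rw [← e] at e2
    have e3 := cw_comm (w := w) (p := p) (l := l) (r := r) a (Ap w p a b Wn V F) (bf w p F a (b - a)) c
    have e4 : cw w p l r a (Rp w p a b Wn V F) (Ap w p a b Wn V F) c ≤
        cw w p l r a (Rp w p a b Wn V F) (bf w p F a (b - a)) c :=
      cw_mono hw hp h.g a hA hR (fun _ => le_rfl) (fun u => Ap_le hw hp hF u) c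
    linarith
  calc _ ≤ ∑ c ∈ S, (cw w p l r a (Ap w p a b Wn V F) (Ap w p a b Wn V F) c +
        2 * cw w p l r a (Rp w p a b Wn V F) (bf w p F a (b - a)) c) := sum_le_sum h2
    _ = ∑ c ∈ S, cw w p l r a (Ap w p a b Wn V F) (Ap w p a b Wn V F) c +
        2 * ∑ c ∈ S, cw w p l r a (Rp w p a b Wn V F) (bf w p F a (b - a)) c := by
      rw [sum_add_distrib, mul_sum]
    _ ≤ _ := by linarith

/-! ### Two environments -/

theorem cw_congr30 {a b : ℕ} (hab : a ≤ b) (hag : ∀ k, k < b → ∀ y, w k y = w' k y) (f g : ℤ → ℝ) {c : ℕ × ℤ}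
    (hc : c.1 < a) : cw w p l r a f g c = cw w' p l r a f g c := by
  have h1 : ∀ (m : ℤ → ℝ) y, fw w p m c.1 y = fw w' p m c.1 y := fun m y =>
    fw_congr c.1 (fun i hi y => hag i (by omega) y) y
  have h2 : ∀ f : ℤ → ℝ, bf w p f (c.1 + 1) (a - (c.1 + 1)) c.2 = bf w' p f (c.1 + 1) (a - (c.1 + 1)) c.2 :=
    fun f => bf_congr f _ _ (fun i _ hi y => hag i (by omega) y) _
  unfold cw dp
  rw [h1, h1, h1, h1, h2, h2, hag c.1 (by omega), hag c.1 (by omega)]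

theorem s1_congr30 {k b : ℕ} (hk : k ≤ b) (hag : ∀ k, k < b → ∀ y, w k y = w' k y) (m f : ℤ → ℝ) :
    s1 w p m lo hi k f = s1 w' p m lo hi k f := by
  unfold s1
  refine sum_congr rfl fun x _ => ?_
  rw [fw_congr k (fun i hi y => hag i (by omega) y) x]

/-- The future at the row `a` from the future at the row `b`, in the common environment. -/
theorem fut30 {a b : ℕ} (hab : a ≤ b) (hb : b ≤ N) (hag : ∀ k, k < b → ∀ y, w k y = w' k y) :
    bw w' p a (N - a) = bf w p (bw w' p b (N - b)) a (b - a) := by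
  funext u
  have h := bw_bf (w := w') (p := p) a (b - a) (N - b) u
  rw [show b - a + (N - b) = N - a by omega, show a + (b - a) = b by omega] at h
  rw [h]
  exact (bf_congr _ _ _ (fun i _ hi y => hag i (by omega) y) _).symm

theorem ww_nonneg (hw : ∀ k y, 0 < w k y) (hp : ∀ k, 0 < p k) (h : Grp l r X) (c : ℕ × ℤ) : 0 ≤ ww w p l r N c :=
  mul_nonneg (dp_nonneg hw hp h c.1 _ _ (by omega))
    (mul_nonneg (mul_nonneg (hp _).le (mul_nonneg (hw _ _).le (hw _ _).le)) (sq_nonneg _))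

theorem ZZ_nonneg (hw : ∀ k y, 0 < w k y) (hp : ∀ k, 0 < p k) {m : ℤ → ℝ} (hm : ∀ y, 0 ≤ m y) :
    0 ≤ ZZ w p m lo hi N :=
  sum_nonneg fun y _ => mul_nonneg (hm y) (bw_pos hw hp _ _ _).le

/-- The contacts of one row in the columns `A` against one group. -/
theorem col_le (hw : ∀ k y, 0 < w k y) (hp : ∀ k, 0 < p k) (h : Box l r X lo hi N) {i : ℕ} (hi' : i < N)
    {A : Finset ℤ} (hA : A ⊆ Icc lo hi) : ∑ q ∈ A, ww w p l r N (i, q) ≤
      (∑ q ∈ A, fw w p l (i + 1) q * bw w p (i + 1) (N - (i + 1)) q) * ZZ w p r lo hi N := by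
  have hl := fun k y => fw_nonneg hw hp h.g.l0 k y
  have hr := fun k y => fw_nonneg hw hp h.g.r0 k y
  have hbw := fun q => (bw_pos hw hp (N - (i + 1)) (i + 1) q).le
  rw [sum_mul]
  refine sum_le_sum fun q hq => ?_
  have h1 : fw w p r (i + 1) q * bw w p (i + 1) (N - (i + 1)) q ≤ ZZ w p r lo hi N := by
    rw [← (s1_ZZ (w := w) (p := p) h (a := i + 1) (by omega)).2]
    exact single_le_sum (f := fun q => fw w p r (i + 1) q * bw w p (i + 1) (N - (i + 1)) q)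
      (fun y _ => mul_nonneg (hr _ _) (bw_pos hw hp _ _ _).le) (hA hq)
  have h2 : dp w p l r i (q - 1) q * (p i * (w i (q - 1) * w i q)) ≤ fw w p l (i + 1) q * fw w p r (i + 1) q := by
    have e1 : p i * (w i (q - 1) * fw w p l i (q - 1)) ≤ fw w p l (i + 1) q := by
      rw [fw_succ]
      linarith [mul_nonneg (hw i q).le (hl i q)]
    have e2 : w i q * fw w p r i q ≤ fw w p r (i + 1) q := by
      rw [fw_succ]
      linarith [mul_nonneg (hp i).le (mul_nonneg (hw i (q - 1)).le (hr i (q - 1)))]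
    have e3 : dp w p l r i (q - 1) q ≤ fw w p l i (q - 1) * fw w p r i q := by
      unfold dp
      linarith [mul_nonneg (hl i q) (hr i (q - 1))]
    have e4 : 0 ≤ p i * (w i (q - 1) * w i q) := mul_nonneg (hp i).le (mul_nonneg (hw _ _).le (hw _ _).le)
    calc dp w p l r i (q - 1) q * (p i * (w i (q - 1) * w i q)) ≤
          fw w p l i (q - 1) * fw w p r i q * (p i * (w i (q - 1) * w i q)) := mul_le_mul_of_nonneg_right e3 e4
      _ = p i * (w i (q - 1) * fw w p l i (q - 1)) * (w i q * fw w p r i q) := by ring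
      _ ≤ _ := mul_le_mul e1 e2 (mul_nonneg (hw _ _).le (hr _ _)) (hl _ _)
  unfold ww
  have h3 := sq_nonneg (bw w p (i + 1) (N - (i + 1)) q)
  calc dp w p l r i (q - 1) q * (p i * (w i (q - 1) * w i q) * bw w p (i + 1) (N - (i + 1)) q ^ 2) =
        dp w p l r i (q - 1) q * (p i * (w i (q - 1) * w i q)) * bw w p (i + 1) (N - (i + 1)) q ^ 2 := by ring
    _ ≤ fw w p l (i + 1) q * fw w p r (i + 1) q * bw w p (i + 1) (N - (i + 1)) q ^ 2 :=
      mul_le_mul_of_nonneg_right h2 h3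
    _ = fw w p l (i + 1) q * bw w p (i + 1) (N - (i + 1)) q *
        (fw w p r (i + 1) q * bw w p (i + 1) (N - (i + 1)) q) := by ring
    _ ≤ _ := mul_le_mul_of_nonneg_left h1 (mul_nonneg (hl _ _) (hbw q))

private theorem fin30 {e k e' k' W' ea' ka ea Z' κ₀ : ℝ} (hκ : 1 ≤ κ₀) (e0 : 0 ≤ e) (k0 : 0 ≤ k)
    (W0 : 0 ≤ W') (Z0 : 0 ≤ Z') (k'0 : 0 ≤ k') (h1 : ea' * ka ≤ κ₀ ^ 2 * (ea * k')) (h2 : ea ≤ e)
    (h3 : k' ≤ W') (h4 : e' ≤ ea' + Z' / 8) (h5 : k / 2 ≤ ka) (h6 : Z' ≤ e' + W' + Z' / 8) :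
    k * Z' ≤ 8 * κ₀ ^ 2 * W' * (e + k) := by
  have hκ2 : 1 ≤ κ₀ ^ 2 := one_le_pow₀ hκ
  have m1 : 0 ≤ κ₀ ^ 2 * W' := mul_nonneg (by linarith) W0
  by_cases hc : 3 / 4 * Z' ≤ e'
  · have h7 : 5 / 8 * Z' ≤ ea' := by linarith
    have h8 : 5 / 8 * Z' * (k / 2) ≤ ea' * ka :=
      mul_le_mul h7 h5 (by linarith) (by linarith)
    have h9 : ea * k' ≤ e * W' := mul_le_mul h2 h3 k'0 e0
    have h10 : κ₀ ^ 2 * (ea * k') ≤ κ₀ ^ 2 * (e * W') := mul_le_mul_of_nonneg_left h9 (by linarith)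
    have h11 : 0 ≤ κ₀ ^ 2 * W' * k := mul_nonneg m1 k0
    have h12 : 0 ≤ κ₀ ^ 2 * W' * e := mul_nonneg m1 e0
    nlinarith
  · have h7 : Z' ≤ 8 * W' := by linarith
    have h8 : k * Z' ≤ k * (8 * W') := mul_le_mul_of_nonneg_left h7 k0
    have h9 : k * W' ≤ κ₀ ^ 2 * (k * W') := by
      have := mul_le_mul_of_nonneg_right hκ2 (mul_nonneg k0 W0)
      linarith
    have h12 : 0 ≤ κ₀ ^ 2 * W' * e := mul_nonneg m1 e0
    nlinarith

private theorem core30 (hw : ∀ k y, 0 < w k y) (hp : ∀ k, 0 < p k) (h : Box l r X lo hi N) {a b : ℕ}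
    (hab : a ≤ b) (hb : b ≤ N) {κ : Finset (ℕ × ℤ)} (hκ : ∀ c ∈ κ, c.1 < a ∧ c.2 ∈ Icc lo hi)
    {Wn W2 : Finset ℤ} (hWn : Wn ⊆ Icc lo hi)
    (old : 4 * ((mA w p l N a (Icc lo hi \ Wn) + mA w p l N b (Icc lo hi \ W2)) * ZZ w p r lo hi N) ≤
      ∑ c ∈ κ, ww w p l r N c) :
    (∑ c ∈ κ, ww w p l r N c) / 2 ≤ ∑ c ∈ κ, cw w p l r a (Ap w p a b Wn W2 (bw w p b (N - b)))
      (Ap w p a b Wn W2 (bw w p b (N - b))) c := by
  have hF : ∀ v, 0 ≤ bw w p b (N - b) v := fun v => (bw_pos hw hp _ _ _).le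
  have hG := fut30 (w := w) (w' := w) (p := p) hab hb (fun _ _ _ => rfl)
  have h1 := sq_le hw hp h hab hb hκ (Wn := Wn) (V := W2) hF
  have h2 := s1_Rp hw hp h.g.l0 (fun y hy => (h.lo0 y hy).1) (fun y hy => (h.hi0 y hy).1) hab hb hWn (V := W2) hF
  rw [← hG] at h1 h2
  have h3 := (s1_ZZ (w := w) (p := p) h (a := a) (hab.trans hb)).2
  rw [h3] at h1
  have h4 : ∑ c ∈ κ, cw w p l r a (bw w p a (N - a)) (bw w p a (N - a)) c = ∑ c ∈ κ, ww w p l r N c :=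
    sum_congr rfl fun c hc => (ww_cw (hab.trans hb) (hκ c hc).1).symm
  rw [h4] at h1
  have h5 : s1 w p l lo hi a (Rp w p a b Wn W2 (bw w p b (N - b))) * ZZ w p r lo hi N ≤
      (mA w p l N a (Icc lo hi \ Wn) + mA w p l N b (Icc lo hi \ W2)) * ZZ w p r lo hi N :=
    mul_le_mul_of_nonneg_right h2 (ZZ_nonneg hw hp h.g.r0)
  linarith

/-- **MOVE THE CONTACT (M3), one cell.** -/
theorem early30 (hw : ∀ k y, 0 < w k y) (hw' : ∀ k y, 0 < w' k y) (hp : ∀ k, 0 < p k) (h : Box l r X lo hi N)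
    {low a b e : ℕ} (hla : low ≤ a) (hab : a ≤ b) (hbe : b ≤ e) (he : e ≤ N)
    (hag : ∀ k, k < b → ∀ y, w k y = w' k y) {κ nb : Finset (ℕ × ℤ)}
    (hκ : ∀ c ∈ κ, c.1 < a ∧ c.2 ∈ Icc lo hi) (hκn : κ ⊆ nb) {Wn W2 Mo : Finset ℤ} (hWn : Wn ⊆ Icc lo hi)
    (hMo : Mo ⊆ W2) {κ₀ : ℝ} (hκ₀ : 1 ≤ κ₀)
    (pin : ∀ u ∈ Wn, ∀ u' ∈ Wn, ∀ v ∈ W2, ∀ v' ∈ W2, ker w p a (b - a) u v * ker w p a (b - a) u' v' ≤
      κ₀ * (ker w p a (b - a) u v' * ker w p a (b - a) u' v))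
    (old : 4 * ((mA w p l N a (Icc lo hi \ Wn) + mA w p l N b (Icc lo hi \ W2)) * ZZ w p r lo hi N) ≤
      ∑ c ∈ κ, ww w p l r N c)
    (new : 16 * (mA w' p l N a (Icc lo hi \ Wn) + mA w' p l N b (Icc lo hi \ Mo)) ≤ ZZ w' p l lo hi N)
    (met : 16 * nm w' p l r lo hi N e ≤ ZZ w' p l lo hi N * ZZ w' p r lo hi N)
    (col : 16 * ∑ i ∈ Ico low e, ∑ q ∈ (Icc lo hi).filter (fun q => (i, q) ∉ nb),
      fw w' p l (i + 1) q * bw w' p (i + 1) (N - (i + 1)) q ≤ ZZ w' p l lo hi N) :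
    (∑ c ∈ κ, ww w p l r N c) * (ZZ w' p l lo hi N * ZZ w' p r lo hi N) ≤
      8 * κ₀ ^ 2 * (∑ c ∈ nb, ww w' p l r N c) *
        (∑ c ∈ range low ×ˢ Icc lo hi, ww w p l r N c + ∑ c ∈ κ, ww w p l r N c) := by
  have hb : b ≤ N := hbe.trans he
  have ha : a ≤ N := hab.trans hb
  have hF : ∀ v, 0 ≤ bw w p b (N - b) v := fun v => (bw_pos hw hp _ _ _).le
  have hF' : ∀ v, 0 ≤ bw w' p b (N - b) v := fun v => (bw_pos hw' hp _ _ _).le
  have hG := fut30 (w := w) (w' := w) (p := p) hab hb (fun _ _ _ => rfl)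
  have hG' := fut30 (w := w) (w' := w') (p := p) hab hb hag
  have hZl := ZZ_nonneg (lo := lo) (hi := hi) (N := N) hw' hp h.g.l0
  have hZr := ZZ_nonneg (lo := lo) (hi := hi) (N := N) hw' hp h.g.r0
  obtain ⟨Es, hEs⟩ : ∃ Es : Finset (ℕ × ℤ), Es = range low ×ˢ Icc lo hi := ⟨_, rfl⟩
  have hE : ∀ c ∈ Es, c.1 < a ∧ c.2 ∈ Icc lo hi := by
    intro c hc
    rw [hEs, mem_product, mem_range] at hc
    exact ⟨by omega, hc.2⟩
  rw [← hEs]
  obtain ⟨A, hA⟩ : ∃ A, A = Ap w p a b Wn W2 (bw w p b (N - b)) := ⟨_, rfl⟩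
  obtain ⟨A', hA'⟩ : ∃ A', A' = Ap w p a b Wn Mo (bw w' p b (N - b)) := ⟨_, rfl⟩
  have A0 : ∀ u, 0 ≤ A u := fun u => by rw [hA]; exact Ap_nonneg hw hp hF u
  have A0' : ∀ u, 0 ≤ A' u := fun u => by rw [hA']; exact Ap_nonneg hw hp hF' u
  have AG : ∀ u, A u ≤ bw w p a (N - a) u := fun u => by rw [hA, hG]; exact Ap_le hw hp hF u
  have AG' : ∀ u, A' u ≤ bw w' p a (N - a) u := fun u => by rw [hA', hG']; exact Ap_le hw hp hF' u
  have pinA : ∀ u u', A' u * A u' ≤ κ₀ * (A u * A' u') := fun u u' => by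
    rw [hA, hA']; exact pin_Ap hMo hF hF' pin u u'
  have ww' : ∀ c : ℕ × ℤ, c.1 < a → ww w' p l r N c =
      cw w p l r a (bw w' p a (N - a)) (bw w' p a (N - a)) c := fun c hc => by
    rw [ww_cw ha hc, cw_congr30 hab hag _ _ hc]
  refine fin30 (e' := ∑ c ∈ Es, ww w' p l r N c) (k' := ∑ c ∈ κ, ww w' p l r N c)
    (ea' := ∑ c ∈ Es, cw w p l r a A' A' c) (ka := ∑ c ∈ κ, cw w p l r a A A c)
    (ea := ∑ c ∈ Es, cw w p l r a A A c) hκ₀ (sum_nonneg fun c _ => ww_nonneg hw hp h.g c)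
    (sum_nonneg fun c _ => ww_nonneg hw hp h.g c) (sum_nonneg fun c _ => ww_nonneg hw' hp h.g c)
    (mul_nonneg hZl hZr)
    (sum_nonneg fun c _ => ww_nonneg hw' hp h.g c) ?_ ?_ ?_ ?_ ?_ ?_
  · -- the pinch
    have h1 : (∑ c ∈ Es, cw w p l r a A' A' c) * ∑ c ∈ κ, cw w p l r a A A c ≤
        κ₀ ^ 2 * ((∑ c ∈ Es, cw w p l r a A A c) * ∑ c ∈ κ, cw w p l r a A' A' c) := by
      rw [sum_mul_sum, sum_mul_sum, mul_sum]
      refine sum_le_sum fun c _ => ?_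
      rw [mul_sum]
      exact sum_le_sum fun d _ => pin_cw hw hp h.g A0 A0' pinA c d
    refine h1.trans (mul_le_mul_of_nonneg_left (mul_le_mul_of_nonneg_left ?_
      (sum_nonneg fun c _ => cw_nonneg hw hp h.g a A0 A0 c)) (sq_nonneg _))
    refine sum_le_sum fun c hc => ?_
    rw [ww' c (hκ c hc).1]
    exact cw_mono hw hp h.g a A0' (fun u => (bw_pos hw' hp _ _ _).le) AG' AG' c
  · refine sum_le_sum fun c hc => ?_
    rw [ww_cw ha (hE c hc).1]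
    exact cw_mono hw hp h.g a A0 (fun u => (bw_pos hw hp _ _ _).le) AG AG c
  · exact sum_le_sum_of_subset_of_nonneg hκn fun c _ _ => ww_nonneg hw' hp h.g c
  · -- the early pairs
    have h1 := sq_le hw hp h hab hb hE (Wn := Wn) (V := Mo) hF'
    have h2 := s1_Rp hw hp h.g.l0 (fun y hy => (h.lo0 y hy).1) (fun y hy => (h.hi0 y hy).1) hab hb hWn
      (V := Mo) hF'
    rw [← hG', ← hA'] at h1
    rw [← hG'] at h2
    have h3 : s1 w p r lo hi a (bw w' p a (N - a)) = ZZ w' p r lo hi N := by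
      rw [s1_congr30 hab hag, (s1_ZZ (w := w') (p := p) h (a := a) ha).2]
    rw [h3] at h1
    have h4 : ∑ c ∈ Es, cw w p l r a (bw w' p a (N - a)) (bw w' p a (N - a)) c = ∑ c ∈ Es, ww w' p l r N c :=
      sum_congr rfl fun c hc => (ww' c (hE c hc).1).symm
    rw [h4] at h1
    have h5 : ∑ u ∈ Icc lo hi \ Wn, fw w p l a u * bw w' p a (N - a) u +
        ∑ v ∈ Icc lo hi \ Mo, fw w p l b v * bw w' p b (N - b) v =
        mA w' p l N a (Icc lo hi \ Wn) + mA w' p l N b (Icc lo hi \ Mo) := by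
      unfold mA
      congr 1
      · exact sum_congr rfl fun u _ => by rw [fw_congr a (fun i hi y => hag i (by omega) y) u]
      · exact sum_congr rfl fun u _ => by rw [fw_congr b (fun i hi y => hag i (by omega) y) u]
    rw [h5] at h2
    have h6 := mul_le_mul_of_nonneg_right (h2.trans (show _ ≤ ZZ w' p l lo hi N / 16 by linarith)) hZr
    linarith
  · rw [hA]
    exact core30 hw hp h hab hb hκ hWn old
  · -- all pairs
    have h1 := nm_total (w := w') (p := p) h e he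
    have h2 : ∑ i ∈ range e, mt w' p l r lo hi N i = ∑ c ∈ Es, ww w' p l r N c +
        ∑ i ∈ Ico low e, mt w' p l r lo hi N i := by
      rw [hEs, sum_product, range_eq_Ico, range_eq_Ico,
        ← sum_Ico_consecutive (fun i => mt w' p l r lo hi N i) (Nat.zero_le low) (hla.trans (hab.trans hbe))]
      rfl
    have h3 : ∑ i ∈ Ico low e, mt w' p l r lo hi N i ≤ ∑ c ∈ nb, ww w' p l r N c +
        (∑ i ∈ Ico low e, ∑ q ∈ (Icc lo hi).filter (fun q => (i, q) ∉ nb),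
          fw w' p l (i + 1) q * bw w' p (i + 1) (N - (i + 1)) q) * ZZ w' p r lo hi N := by
      have e1 : ∀ i ∈ Ico low e, mt w' p l r lo hi N i ≤
          ∑ q ∈ (Icc lo hi).filter (fun q => (i, q) ∈ nb), ww w' p l r N (i, q) +
          (∑ q ∈ (Icc lo hi).filter (fun q => (i, q) ∉ nb),
            fw w' p l (i + 1) q * bw w' p (i + 1) (N - (i + 1)) q) * ZZ w' p r lo hi N := by
        intro i hi'
        rw [mem_Ico] at hi'
        rw [mt_ww, ← sum_filter_add_sum_filter_not (Icc lo hi) (fun q => (i, q) ∈ nb)]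
        exact add_le_add le_rfl (col_le hw' hp h (by omega) (filter_subset _ _))
      refine (sum_le_sum e1).trans ?_
      rw [sum_add_distrib, ← sum_mul]
      refine add_le_add ?_ le_rfl
      calc ∑ i ∈ Ico low e, ∑ q ∈ (Icc lo hi).filter (fun q => (i, q) ∈ nb), ww w' p l r N (i, q) =
            ∑ c ∈ (Ico low e ×ˢ Icc lo hi).filter (fun c => c ∈ nb), ww w' p l r N c := by
            rw [sum_filter, sum_product]
            refine sum_congr rfl fun i _ => ?_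
            rw [sum_filter]
        _ ≤ _ := sum_le_sum_of_subset_of_nonneg (fun c hc => (mem_filter.1 hc).2) fun c _ _ =>
            ww_nonneg hw' hp h.g c
    have h4 := mul_le_mul_of_nonneg_right (show ∑ i ∈ Ico low e, ∑ q ∈ (Icc lo hi).filter (fun q => (i, q) ∉ nb),
      fw w' p l (i + 1) q * bw w' p (i + 1) (N - (i + 1)) q ≤ ZZ w' p l lo hi N / 16 by linarith) hZr
    have h5 : (∑ x ∈ Icc lo hi, l x * bw w' p 0 N x) * ∑ y ∈ Icc lo hi, r y * bw w' p 0 N y =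
        ZZ w' p l lo hi N * ZZ w' p r lo hi N := rfl
    rw [h5] at h1
    linarith

/-- **THE CONTACT STAYS (M1)**, the windows and the mouth behind it; here both groups go through the mouth. -/
theorem stay30 (hw : ∀ k y, 0 < w k y) (hw' : ∀ k y, 0 < w' k y) (hp : ∀ k, 0 < p k) (h : Box l r X lo hi N)
    {a b : ℕ} (hab : a ≤ b) (hb : b ≤ N) (hag : ∀ k, k < b → ∀ y, w k y = w' k y) {κ : Finset (ℕ × ℤ)}
    (hκ : ∀ c ∈ κ, c.1 < a ∧ c.2 ∈ Icc lo hi) {Wn W2 Mo : Finset ℤ} (hWn : Wn ⊆ Icc lo hi)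
    (hMo : Mo ⊆ W2) {κ₀ : ℝ}
    (pin : ∀ u ∈ Wn, ∀ u' ∈ Wn, ∀ v ∈ W2, ∀ v' ∈ W2, ker w p a (b - a) u v * ker w p a (b - a) u' v' ≤
      κ₀ * (ker w p a (b - a) u v' * ker w p a (b - a) u' v))
    (old : 4 * ((mA w p l N a (Icc lo hi \ Wn) + mA w p l N b (Icc lo hi \ W2)) * ZZ w p r lo hi N) ≤
      ∑ c ∈ κ, ww w p l r N c)
    (newl : 16 * (mA w' p l N a (Icc lo hi \ Wn) + mA w' p l N b (Icc lo hi \ Mo)) ≤ ZZ w' p l lo hi N)
    (newr : 16 * (mA w' p r N a (Icc lo hi \ Wn) + mA w' p r N b (Icc lo hi \ Mo)) ≤ ZZ w' p r lo hi N) :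
    (∑ c ∈ κ, ww w p l r N c) * (ZZ w' p l lo hi N * ZZ w' p r lo hi N) ≤
      4 * κ₀ ^ 2 * (∑ c ∈ κ, ww w' p l r N c) * (ZZ w p l lo hi N * ZZ w p r lo hi N) := by
  have ha : a ≤ N := hab.trans hb
  have hF : ∀ v, 0 ≤ bw w p b (N - b) v := fun v => (bw_pos hw hp _ _ _).le
  have hF' : ∀ v, 0 ≤ bw w' p b (N - b) v := fun v => (bw_pos hw' hp _ _ _).le
  have hG := fut30 (w := w) (w' := w) (p := p) hab hb (fun _ _ _ => rfl)
  have hG' := fut30 (w := w) (w' := w') (p := p) hab hb hag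
  obtain ⟨A, hA⟩ : ∃ A, A = Ap w p a b Wn W2 (bw w p b (N - b)) := ⟨_, rfl⟩
  obtain ⟨A', hA'⟩ : ∃ A', A' = Ap w p a b Wn Mo (bw w' p b (N - b)) := ⟨_, rfl⟩
  have A0 : ∀ u, 0 ≤ A u := fun u => by rw [hA]; exact Ap_nonneg hw hp hF u
  have A0' : ∀ u, 0 ≤ A' u := fun u => by rw [hA']; exact Ap_nonneg hw hp hF' u
  have AG : ∀ u, A u ≤ bw w p a (N - a) u := fun u => by rw [hA, hG]; exact Ap_le hw hp hF u
  have AG' : ∀ u, A' u ≤ bw w' p a (N - a) u := fun u => by rw [hA', hG']; exact Ap_le hw hp hF' u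
  have pinA : ∀ u u', A' u * A u' ≤ κ₀ * (A u * A' u') := fun u u' => by
    rw [hA, hA']; exact pin_Ap hMo hF hF' pin u u'
  -- one group
  have one : ∀ m : ℤ → ℝ, (∀ y, 0 ≤ m y) → (∀ y, y < lo → m y = 0) → (∀ y, hi - N < y → m y = 0) →
      s1 w p m lo hi a (bw w p a (N - a)) = ZZ w p m lo hi N →
      s1 w' p m lo hi a (bw w' p a (N - a)) = ZZ w' p m lo hi N →
      16 * (mA w' p m N a (Icc lo hi \ Wn) + mA w' p m N b (Icc lo hi \ Mo)) ≤ ZZ w' p m lo hi N →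
      15 / 16 * ZZ w' p m lo hi N ≤ s1 w p m lo hi a A' ∧ s1 w p m lo hi a A ≤ ZZ w p m lo hi N := by
    intro m hm h0 h1 z z' new
    have h2 := s1_Rp hw hp hm h0 h1 hab hb hWn (V := Mo) hF'
    rw [← hG'] at h2
    have h5 : ∑ u ∈ Icc lo hi \ Wn, fw w p m a u * bw w' p a (N - a) u +
        ∑ v ∈ Icc lo hi \ Mo, fw w p m b v * bw w' p b (N - b) v =
        mA w' p m N a (Icc lo hi \ Wn) + mA w' p m N b (Icc lo hi \ Mo) := by
      unfold mA
      congr 1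
      · exact sum_congr rfl fun u _ => by rw [fw_congr a (fun i hi y => hag i (by omega) y) u]
      · exact sum_congr rfl fun u _ => by rw [fw_congr b (fun i hi y => hag i (by omega) y) u]
    rw [h5] at h2
    refine ⟨?_, z ▸ s1_mono hw hp hm a AG⟩
    · have h6 : s1 w p m lo hi a (bw w' p a (N - a)) = s1 w p m lo hi a A' +
          s1 w p m lo hi a (Rp w p a b Wn Mo (bw w' p b (N - b))) := by
        rw [← s1_add]
        unfold s1
        refine sum_congr rfl fun u _ => ?_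
        unfold Rp
        rw [hA', hG']
        ring
      rw [s1_congr30 hab hag, z'] at h6
      linarith
  obtain ⟨l1, l2⟩ := one l h.g.l0 (fun y hy => (h.lo0 y hy).1) (fun y hy => (h.hi0 y hy).1)
    (s1_ZZ (w := w) (p := p) h ha).1 (s1_ZZ (w := w') (p := p) h ha).1 newl
  obtain ⟨r1, r2⟩ := one r h.g.r0 (fun y hy => (h.lo0 y hy).2) (fun y hy => (h.hi0 y hy).2)
    (s1_ZZ (w := w) (p := p) h ha).2 (s1_ZZ (w := w') (p := p) h ha).2 newr
  -- the pinch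
  have pm : ∀ (m : ℤ → ℝ), (∀ y, 0 ≤ m y) → ∀ c : ℕ × ℤ, s1 w p m lo hi a A' * bf w p A (c.1 + 1) (a - (c.1 + 1)) c.2 ≤
      κ₀ * (s1 w p m lo hi a A * bf w p A' (c.1 + 1) (a - (c.1 + 1)) c.2) := by
    intro m hm c
    unfold s1
    rw [bf_ker, bf_ker, sum_mul_sum, sum_mul_sum, mul_sum]
    refine sum_le_sum fun u _ => ?_
    rw [mul_sum]
    refine sum_le_sum fun u' _ => ?_
    have k1 := fw_nonneg hw hp hm a u
    have k2 := ker_nonneg hw hp (c.1 + 1) (a - (c.1 + 1)) c.2 u'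
    have h1 := mul_le_mul_of_nonneg_left (pinA u u') (mul_nonneg k1 k2)
    calc _ = fw w p m a u * ker w p (c.1 + 1) (a - (c.1 + 1)) c.2 u' * (A' u * A u') := by ring
      _ ≤ _ := h1
      _ = _ := by ring
  have key : ∀ c : ℕ × ℤ, s1 w p l lo hi a A' * s1 w p r lo hi a A' * cw w p l r a A A c ≤
      κ₀ ^ 2 * (s1 w p l lo hi a A * s1 w p r lo hi a A * cw w p l r a A' A' c) := by
    intro c
    have x1 := s1_nonneg hw hp h.g.l0 a A0' (lo := lo) (hi := hi)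
    have x2 := s1_nonneg hw hp h.g.r0 a A0' (lo := lo) (hi := hi)
    have y1 := bf_nonneg hw hp A0 (a - (c.1 + 1)) (c.1 + 1) c.2
    have b1 := mul_le_mul (pm l h.g.l0 c) (pm r h.g.r0 c) (mul_nonneg x2 y1)
      ((mul_nonneg x1 y1).trans (pm l h.g.l0 c))
    have m1 : 0 ≤ dp w p l r c.1 (c.2 - 1) c.2 * (p c.1 * (w c.1 (c.2 - 1) * w c.1 c.2)) :=
      mul_nonneg (dp_nonneg hw hp h.g c.1 _ _ (by omega))
        (mul_nonneg (hp _).le (mul_nonneg (hw _ _).le (hw _ _).le))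
    have b2 := mul_le_mul_of_nonneg_left b1 m1
    unfold cw
    calc _ = dp w p l r c.1 (c.2 - 1) c.2 * (p c.1 * (w c.1 (c.2 - 1) * w c.1 c.2)) *
          (s1 w p l lo hi a A' * bf w p A (c.1 + 1) (a - (c.1 + 1)) c.2 *
            (s1 w p r lo hi a A' * bf w p A (c.1 + 1) (a - (c.1 + 1)) c.2)) := by ring
      _ ≤ _ := b2
      _ = _ := by ring
  have k2 := core30 hw hp h hab hb hκ hWn old
  rw [← hA] at k2
  have k3 : ∑ c ∈ κ, cw w p l r a A' A' c ≤ ∑ c ∈ κ, ww w' p l r N c := by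
    refine sum_le_sum fun c hc => ?_
    rw [ww_cw ha (hκ c hc).1, ← cw_congr30 hab hag _ _ (hκ c hc).1]
    exact cw_mono hw hp h.g a A0' (fun u => (bw_pos hw' hp _ _ _).le) AG' AG' c
  have k4 : s1 w p l lo hi a A' * s1 w p r lo hi a A' * ∑ c ∈ κ, cw w p l r a A A c ≤
      κ₀ ^ 2 * (s1 w p l lo hi a A * s1 w p r lo hi a A * ∑ c ∈ κ, cw w p l r a A' A' c) := by
    rw [mul_sum, mul_sum, mul_sum]
    exact sum_le_sum fun c _ => key c
  have z1 := ZZ_nonneg (lo := lo) (hi := hi) (N := N) hw' hp h.g.l0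
  have z2 := ZZ_nonneg (lo := lo) (hi := hi) (N := N) hw' hp h.g.r0
  have z3 := ZZ_nonneg (lo := lo) (hi := hi) (N := N) hw hp h.g.l0
  have z4 := ZZ_nonneg (lo := lo) (hi := hi) (N := N) hw hp h.g.r0
  have s1n := s1_nonneg hw hp h.g.l0 a A0 (lo := lo) (hi := hi)
  have s2n := s1_nonneg hw hp h.g.r0 a A0 (lo := lo) (hi := hi)
  have q1 : 15 / 16 * ZZ w' p l lo hi N * (15 / 16 * ZZ w' p r lo hi N) ≤
      s1 w p l lo hi a A' * s1 w p r lo hi a A' :=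
    mul_le_mul l1 r1 (by linarith) ((mul_nonneg (by norm_num) z1).trans l1)
  have q2 : s1 w p l lo hi a A * s1 w p r lo hi a A ≤ ZZ w p l lo hi N * ZZ w p r lo hi N :=
    mul_le_mul l2 r2 s2n z3
  have k0 : 0 ≤ ∑ c ∈ κ, ww w p l r N c := sum_nonneg fun c _ => ww_nonneg hw hp h.g c
  have c0 : 0 ≤ ∑ c ∈ κ, cw w p l r a A' A' c := sum_nonneg fun c _ => cw_nonneg hw hp h.g a A0' A0' c
  have q3 : 15 / 16 * ZZ w' p l lo hi N * (15 / 16 * ZZ w' p r lo hi N) * ((∑ c ∈ κ, ww w p l r N c) / 2) ≤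
      s1 w p l lo hi a A' * s1 w p r lo hi a A' * ∑ c ∈ κ, cw w p l r a A A c :=
    mul_le_mul q1 k2 (by linarith) ((mul_nonneg (mul_nonneg (by norm_num) z1)
      (mul_nonneg (by norm_num) z2)).trans q1)
  have q4 : κ₀ ^ 2 * (s1 w p l lo hi a A * s1 w p r lo hi a A * ∑ c ∈ κ, cw w p l r a A' A' c) ≤
      κ₀ ^ 2 * (ZZ w p l lo hi N * ZZ w p r lo hi N * ∑ c ∈ κ, ww w' p l r N c) :=
    mul_le_mul_of_nonneg_left (mul_le_mul q2 k3 c0 (mul_nonneg z3 z4)) (sq_nonneg _)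
  have q5 : 0 ≤ (∑ c ∈ κ, ww w p l r N c) * (ZZ w' p l lo hi N * ZZ w' p r lo hi N) :=
    mul_nonneg k0 (mul_nonneg z1 z2)
  nlinarith [q3, q4, k4, q5]

end

end Pool.Agent.W_7d29a1_C1.E30
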