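import Pool.Agent.W_7d29a1_C1.StA12
import Pool.Agent.W_7d29a1_C1.SeaG31
import Pool.Agent.W_7d29a1_C1.FreA20

/-!
MP_7d29a1_pr, [C1] attractor route, SHELL: **the envelope of P1** (`En31` of SeaG31) for the real kernel with one more step, in the units
of the ball. (helper12)

`enA12`: the level event `FU24` of the slab (scale `T`), `T ≤ B T'`, `T' ≤ B T`: `st12 (nk ..)` from the edge row `i` to the seam row
`i + T + 1` has the envelope with the power `2 P`, the slope `c / (4 B ^ 2)` and a level `Q` at the scale `T'`. `en_wt12`: with the weights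
of the edge row.
-/

set_option autoImplicit false

namespace Pool.Agent.W_7d29a1_C1.S12

open MeasureTheory ProbabilityTheory Filter Topology Finset
open Pool.Agent.W_7d29a1_F Pool.Agent.W_7d29a1_h4g Pool.Agent.W_7d29a1_H Pool.Agent.W_7d29a1_HS
open Pool.Agent.W_7d29a1_C1.H75 (hc hc_nonneg)
open Pool.Agent.W_7d29a1_C1.U16 (fq16 fq16_one fq16_mono lat16 K1 upU12)
open Pool.Agent.W_7d29a1_C1.FarW89 (nk bl bl_le nk_K1 nk_nonneg gr_fq sum_exp_abs card89)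
open Pool.Agent.W_7d29a1_C1.FarK89 (gr gr_nonneg gr_one_le gr_mono gr_mul)
open Pool.Agent.W_7d29a1_C1.D31 (En31)

noncomputable section

variable {μ : Measure ℝ} {s c C : ℝ} {n₀ : ℕ} [IsProbabilityMeasure μ]

/-- The sum of the profile, any slope. -/
theorem sumE12 (h0 : In μ s c C n₀) {c₂ : ℝ} (hc₂ : 0 < c₂) : ∃ n₁ : ℕ, 1 ≤ n₁ ∧ ∀ n : ℕ, n₁ ≤ n → ∀ (z : ℝ) (J : Finset ℤ),
    ∑ y ∈ J, Real.exp (-(c₂ * (EE μ s n / wd μ s n) * |(y : ℝ) - z|)) ≤ Real.exp (EE μ s n) := by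
  obtain ⟨n₁, H⟩ := card89 h0 (2 + 4 * wd μ s 1 / c₂)
  obtain ⟨n₂, hn₂⟩ := eventually_atTop.1 ((wd_tendsto h0).eventually_ge_atTop 1)
  refine ⟨max n₁ (max n₂ 1), (le_max_right _ _).trans (le_max_right _ _), fun n hn z J => ?_⟩
  have hn1 : 1 ≤ n := ((le_max_right _ _).trans (le_max_right _ _)).trans hn
  have hnR : (1 : ℝ) ≤ n := by exact_mod_cast hn1
  have hw : 1 ≤ wd μ s n := hn₂ n (((le_max_left _ _).trans (le_max_right _ _)).trans hn)
  have hw0 : 0 < wd μ s n := by linarith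
  have hE := EE_pos (μ := μ) (s := s) n
  have hE1 := one_le_EE (μ := μ) (s := s) n
  have hw1 := h0.wd_nonneg 1
  refine (sum_exp_abs (by positivity) z J).trans (le_trans ?_ (H n ((le_max_left _ _).trans hn)))
  have h1 : 2 / (c₂ * (EE μ s n / wd μ s n)) = 2 / c₂ * (wd μ s n / EE μ s n) := by field_simp
  have h2 : wd μ s n / EE μ s n ≤ wd μ s n := div_le_self hw0.le hE1
  have h3 : wd μ s n ≤ 2 * (n * wd μ s 1) := by
    have := wd_lower_one h0 (m := 1) (n := n) le_rfl hn1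
    rwa [Nat.cast_one, one_mul] at this
  have h4 : 2 / c₂ * (wd μ s n / EE μ s n) ≤ 2 / c₂ * (2 * (n * wd μ s 1)) := mul_le_mul_of_nonneg_left (h2.trans h3) (by positivity)
  have h5 : 2 / c₂ * (2 * (n * wd μ s 1)) = 4 * wd μ s 1 / c₂ * n := by ring
  rw [h1]
  have h6 : 0 ≤ 4 * wd μ s 1 / c₂ := by positivity
  rw [h5] at h4
  have h7 : (2 + 4 * wd μ s 1 / c₂) * ((n : ℝ) + 1) = 2 * n + 2 + 4 * wd μ s 1 / c₂ * n + 4 * wd μ s 1 / c₂ := by ring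
  rw [h7]
  linarith

/-- **THE ENVELOPE OF P1**, without the weight of the edge row. -/
theorem enA12 (h0 : In μ s c C n₀) (P : ℕ) {B : ℕ} (hB : 1 ≤ B) {c₂ q pb : ℝ} (hc₂ : 0 < c₂) (hq : 0 ≤ q) (hpb : 0 ≤ pb) :
    ∃ (Q : ℝ) (n₁ : ℕ), 0 ≤ Q ∧ 1 ≤ n₁ ∧ ∀ {h cen : ℝ} {T T' : ℕ} {c₀ : ℤ} {η : Env} {p : ℕ → ℝ} {M i : ℕ}, n₁ ≤ T → n₁ ≤ T' →
    T ≤ B * T' → T' ≤ B * T → |cen - c₀| ≤ 1 →
    (∀ (p : Pt) (j : ℕ), (((i : ℤ), c₀) : Pt).1 ≤ p.1 → p.1 + j ≤ (((i : ℤ), c₀) : Pt).1 + T → ∀ y : ℤ,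
      W μ s η p j y ≤ Real.exp (q * fq16 P (|lat16 μ s ((i : ℤ), c₀) p| / wd μ s T + 1) * EE μ s T - hc μ s c T * |(y : ℝ) - sl μ s * j|)) →
    |h| * wd μ s T ≤ c / 4 * EE μ s T → (∀ k, k < M → p k = Real.exp (s + h)) → (∀ k, M ≤ k → p k = Real.exp s) →
    p (i + T) ≤ pb → ∀ I J : Finset ℤ,
      En31 (2 * P) (c / (4 * B ^ 2)) c₂ (EE μ s T') (wd μ s T') Q 1 (fun x => (x : ℝ) - cen)
        (fun y => (y : ℝ) - (cen + sl μ s * (T + 1))) (st12 (nk μ s h η p M i T) (p (i + T))) I J := by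
  obtain ⟨C₄, hC₄, n₁, hn₁, H⟩ := upU12 h0 P
  obtain ⟨n₂, hn₂, Hs⟩ := sumE12 h0 hc₂
  obtain ⟨n₃, hn₃⟩ := eventually_atTop.1 ((wd_tendsto h0).eventually_ge_atTop 1)
  have hc0 := h0.c0
  have hBR : (1 : ℝ) ≤ B := by exact_mod_cast hB
  have hB0 : (0 : ℝ) < B := by linarith
  obtain ⟨g₀, hg₀⟩ : ∃ g₀ : ℝ, g₀ = gr (2 * P) (2 * B + 1) := ⟨_, rfl⟩
  have hg1 : 1 ≤ g₀ := by rw [hg₀]; exact gr_one_le _ (by positivity)
  obtain ⟨c', hc'⟩ : ∃ c' : ℝ, c' = c / (4 * B ^ 2) := ⟨_, rfl⟩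
  have hc'0 : 0 < c' := by rw [hc']; positivity
  obtain ⟨Q₁, hQ₁⟩ : ∃ Q₁ : ℝ, Q₁ = C₄ * (1 + q) ^ 2 * g₀ * B := ⟨_, rfl⟩
  have hQ₁0 : 0 ≤ Q₁ := by rw [hQ₁]; positivity
  refine ⟨Q₁ + 2 * c' + pb, max (max n₁ n₂) n₃, by positivity, hn₁.trans ((le_max_left _ _).trans (le_max_left _ _)), ?_⟩
  intro h cen T T' c₀ η p M i hT hT' hTT hTT' hcen hη hh hp hp' hpT I J
  have hT1 : n₁ ≤ T := ((le_max_left _ _).trans (le_max_left _ _)).trans hT
  have hT2 : n₂ ≤ T' := ((le_max_right _ _).trans (le_max_left _ _)).trans hT'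
  have hw1 : 1 ≤ wd μ s T' := hn₃ T' ((le_max_right _ _).trans hT')
  have hwT : 1 ≤ wd μ s T := hn₃ T ((le_max_right _ _).trans hT)
  have hT11 : 1 ≤ T := hn₁.trans hT1
  have hT'11 : 1 ≤ T' := hn₂.trans hT2
  have hE := EE_pos (μ := μ) (s := s) T'
  have hE1 := one_le_EE (μ := μ) (s := s) T'
  have hET := EE_pos (μ := μ) (s := s) T
  obtain ⟨E, eE⟩ : ∃ E : ℝ, E = EE μ s T' := ⟨_, rfl⟩
  obtain ⟨w, ew⟩ : ∃ w : ℝ, w = wd μ s T' := ⟨_, rfl⟩
  rw [← eE, ← ew]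
  have hE0 : 0 < E := by rw [eE]; exact hE
  have hE1' : 1 ≤ E := by rw [eE]; exact hE1
  have hw0 : 0 < w := by rw [ew]; linarith
  have hw1' : 1 ≤ w := by rw [ew]; exact hw1
  have u1 : w ≤ 2 * B * wd μ s T := by rw [ew]; exact wd_unit20 h0 hT11 hT'11 hTT'
  have u2 : EE μ s T ≤ B * E := by rw [eE]; exact EE_unit20 h0 hB hTT
  have u3 : E ≤ B * EE μ s T := by rw [eE]; exact EE_unit20 h0 hB hTT'
  obtain ⟨hv1, hv2⟩ := sl_mem h0.em h0.nd s
  have hpk : ∀ k, 0 < p k := fun k => by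
    by_cases hk : k < M
    · rw [hp k hk]; exact Real.exp_pos _
    · rw [hp' k (not_lt.1 hk)]; exact Real.exp_pos _
  -- one kernel
  have key : ∀ x y y' : ℤ, |(y : ℝ) - y'| ≤ 1 → nk μ s h η p M i T x y' ≤
      Real.exp ((Q₁ + 2 * c') * gr (2 * P) (|(x : ℝ) - cen| / w) * E -
        c' * (E / w) * |(y : ℝ) - (cen + sl μ s * (T + 1)) - ((x : ℝ) - cen)|) := by
    intro x y y' hy
    rw [nk_K1 hp hp' i T x y']
    have h1 := H hT1 le_rfl hq hη hh ((i : ℤ), x) (bl M i T) (T - bl M i T) (y' - x) le_rfl (by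
      have := bl_le M i T
      show (i : ℤ) + (bl M i T : ℕ) + ((T - bl M i T : ℕ) : ℤ) ≤ (i : ℤ) + T
      push_cast [Nat.cast_sub this]
      linarith)
    refine h1.trans (Real.exp_le_exp.2 ?_)
    rw [Nat.add_sub_cancel' (bl_le M i T)]
    obtain ⟨ξ, hξ⟩ : ∃ ξ : ℝ, ξ = |(x : ℝ) - cen| / w := ⟨_, rfl⟩
    have hξ0 : 0 ≤ ξ := by rw [hξ]; positivity
    have hgξ := gr_one_le (2 * P) hξ0
    rw [← hξ]
    -- the level
    have e1 : lat16 μ s ((i : ℤ), c₀) ((i : ℤ), x) = (x : ℝ) - c₀ := by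
      unfold lat16
      push_cast
      ring
    have a1 : |(x : ℝ) - c₀| ≤ |(x : ℝ) - cen| + 1 := by
      have := abs_sub_le (x : ℝ) cen c₀
      linarith
    have a2 : |(x : ℝ) - c₀| / wd μ s T ≤ 2 * B * ξ + 2 * B := by
      rw [div_le_iff₀ (by linarith), hξ]
      have g1 : |(x : ℝ) - cen| = |(x : ℝ) - cen| / w * w := by field_simp
      have g2 : |(x : ℝ) - cen| / w * w ≤ |(x : ℝ) - cen| / w * (2 * B * wd μ s T) := mul_le_mul_of_nonneg_left u1 (by positivity)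
      have g3 : (1 : ℝ) ≤ 2 * B * wd μ s T := hw1'.trans u1
      have g4 : (2 * B * (|(x : ℝ) - cen| / w) + 2 * B) * wd μ s T =
          |(x : ℝ) - cen| / w * (2 * B * wd μ s T) + 2 * B * wd μ s T := by ring
      rw [g4]
      linarith
    have a3 : fq16 (2 * P) (|lat16 μ s ((i : ℤ), c₀) ((i : ℤ), x)| / wd μ s T + 1) ≤ g₀ * gr (2 * P) ξ := by
      rw [e1, gr_fq _ (by positivity)]
      refine (gr_mono _ (by positivity) (by linarith : |(x : ℝ) - c₀| / wd μ s T + 1 ≤ 2 * B * ξ + 2 * B + 1)).trans ?_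
      rw [hg₀]
      refine gr_mul _ (by positivity) hξ0 (by positivity) ?_
      linarith
    have a4 : C₄ * (1 + q) ^ 2 * fq16 (2 * P) (|lat16 μ s ((i : ℤ), c₀) ((i : ℤ), x)| / wd μ s T + 1) * EE μ s T ≤
        Q₁ * gr (2 * P) ξ * E := by
      have g1 : C₄ * (1 + q) ^ 2 * fq16 (2 * P) (|lat16 μ s ((i : ℤ), c₀) ((i : ℤ), x)| / wd μ s T + 1) ≤
          C₄ * (1 + q) ^ 2 * (g₀ * gr (2 * P) ξ) := mul_le_mul_of_nonneg_left a3 (by positivity)
      refine (mul_le_mul g1 u2 hET.le (by positivity)).trans (le_of_eq ?_)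
      rw [hQ₁]
      ring
    -- the slope
    have b1 : c' * (E / w) ≤ hc μ s c T / 2 := by
      have u4 : wd μ s T ≤ 2 * B * w := by rw [ew]; exact wd_unit20 h0 hT'11 hT11 hTT
      have hwT0 : 0 < wd μ s T := by linarith
      have g1 : c' * (E / w) ≤ c / (4 * (B : ℝ) ^ 2) * (B * EE μ s T / (wd μ s T / (2 * B))) := by
        rw [hc']
        refine mul_le_mul_of_nonneg_left ?_ (by positivity)
        refine div_le_div₀ (by positivity) u3 (by positivity) ?_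
        rw [div_le_iff₀ (by positivity)]
        linarith
      refine g1.trans (le_of_eq ?_)
      unfold hc
      field_simp
      ring
    have hcp : 0 ≤ c' * (E / w) := by positivity
    have b2 : |(y : ℝ) - (cen + sl μ s * (T + 1)) - ((x : ℝ) - cen)| ≤ |((y' - x : ℤ) : ℝ) - sl μ s * (T : ℝ)| + 2 := by
      have g1 : (y : ℝ) - (cen + sl μ s * (T + 1)) - ((x : ℝ) - cen) =
          (((y' - x : ℤ) : ℝ) - sl μ s * (T : ℝ)) + ((y - y' : ℝ) + -sl μ s) := by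
        push_cast
        ring
      rw [g1]
      refine (abs_add_le _ _).trans ?_
      have g2 := abs_add_le ((y - y' : ℝ)) (-sl μ s)
      have g3 : |-sl μ s| ≤ 1 := by rw [abs_neg, abs_of_pos hv1]; exact hv2.le
      linarith
    have b3 : c' * (E / w) * |(y : ℝ) - (cen + sl μ s * (T + 1)) - ((x : ℝ) - cen)| ≤
        hc μ s c T / 2 * |((y' - x : ℤ) : ℝ) - sl μ s * (T : ℝ)| + 2 * c' * E := by
      have g1 : c' * (E / w) * |(y : ℝ) - (cen + sl μ s * (T + 1)) - ((x : ℝ) - cen)| ≤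
          c' * (E / w) * (|((y' - x : ℤ) : ℝ) - sl μ s * (T : ℝ)| + 2) := mul_le_mul_of_nonneg_left b2 hcp
      have g2 : c' * (E / w) * |((y' - x : ℤ) : ℝ) - sl μ s * (T : ℝ)| ≤ hc μ s c T / 2 * |((y' - x : ℤ) : ℝ) - sl μ s * (T : ℝ)| :=
        mul_le_mul_of_nonneg_right b1 (abs_nonneg _)
      have g3 : c' * (E / w) * 2 ≤ 2 * c' * E := by
        have := mul_le_mul_of_nonneg_left (div_le_self hE0.le hw1') hc'0.le
        linarith
      linarith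
    have b4 : 2 * c' * E ≤ 2 * c' * gr (2 * P) ξ * E := by
      have : 2 * c' * E * 1 ≤ 2 * c' * E * gr (2 * P) ξ := mul_le_mul_of_nonneg_left hgξ (by positivity)
      linarith
    have b5 : (Q₁ + 2 * c') * gr (2 * P) ξ * E = Q₁ * gr (2 * P) ξ * E + 2 * c' * gr (2 * P) ξ * E := by ring
    rw [b5]
    linarith
  refine ⟨by positivity, zero_le_one, fun x y => st12_nonneg (fun x y => nk_nonneg hpk i T x y) (hpk _).le x y, fun x _ y _ => ?_, fun x => ?_⟩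
  · obtain ⟨ξ, hξ⟩ : ∃ ξ : ℝ, ξ = |(x : ℝ) - cen| / w := ⟨_, rfl⟩
    have hξ0 : 0 ≤ ξ := by rw [hξ]; positivity
    have hgξ := gr_one_le (2 * P) hξ0
    have k1 := key x y y (by simp)
    have k2 := key x y (y - 1) (by push_cast; rw [abs_of_pos] <;> linarith)
    rw [← hξ] at k1 k2 ⊢
    unfold st12
    obtain ⟨D, hD⟩ : ∃ D : ℝ, D = c' * (E / w) * |(y : ℝ) - (cen + sl μ s * (T + 1)) - ((x : ℝ) - cen)| := ⟨_, rfl⟩
    rw [← hD] at k1 k2
    rw [← hc', ← hD]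
    have e1 : nk μ s h η p M i T x y + p (i + T) * nk μ s h η p M i T x (y - 1) ≤
        (1 + p (i + T)) * Real.exp ((Q₁ + 2 * c') * gr (2 * P) ξ * E - D) := by
      have := mul_le_mul_of_nonneg_left k2 (hpk (i + T)).le
      linarith
    refine e1.trans ?_
    have e2 : 1 + p (i + T) ≤ Real.exp (pb * gr (2 * P) ξ * E) := by
      have g1 : pb ≤ pb * gr (2 * P) ξ * E := by
        have g2 : pb * 1 ≤ pb * (gr (2 * P) ξ * E) := mul_le_mul_of_nonneg_left (one_le_mul_of_one_le_of_one_le hgξ hE1') hpb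
        linarith
      have := Real.add_one_le_exp (pb * gr (2 * P) ξ * E)
      linarith
    refine (mul_le_mul_of_nonneg_right e2 (Real.exp_nonneg _)).trans (le_of_eq ?_)
    rw [← Real.exp_add]
    congr 1
    ring
  · have := Hs T' hT2 ((x : ℝ) + sl μ s * (T + 1)) J
    rw [← eE, ← ew] at this
    rw [one_mul]
    refine le_trans (le_of_eq (Finset.sum_congr rfl fun y _ => ?_)) this
    congr 3
    congr 1
    ring

/-- Larger power and level, smaller slope. -/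
theorem weak12 {P P' : ℕ} {c c' c₂ E w q q' s : ℝ} {ℓ ℓ' : ℤ → ℝ} {k : ℤ → ℤ → ℝ} {I J : Finset ℤ} (h : En31 P c c₂ E w q s ℓ ℓ' k I J)
    (hE : 0 ≤ E) (hw : 0 ≤ w) (hP : P ≤ P') (hc : c' ≤ c) (hq : q ≤ q') : En31 P' c' c₂ E w q' s ℓ ℓ' k I J where
  q0 := h.q0.trans hq
  s0 := h.s0
  k0 := h.k0
  up := fun x hx y hy => by
    refine (h.up x hx y hy).trans (Real.exp_le_exp.2 ?_)
    have h1 : 0 ≤ |ℓ x| / w := by positivity
    have h2 : gr P (|ℓ x| / w) ≤ gr P' (|ℓ x| / w) := by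
      unfold gr
      exact pow_le_pow_right₀ (by have := Real.log_nonneg (by linarith : 1 ≤ 1 + |ℓ x| / w); linarith) hP
    have h3 : q * gr P (|ℓ x| / w) * E ≤ q' * gr P' (|ℓ x| / w) * E :=
      mul_le_mul_of_nonneg_right (mul_le_mul hq h2 (gr_nonneg P h1) (h.q0.trans hq)) hE
    have h4 : c' * (E / w) * |ℓ' y - ℓ x| ≤ c * (E / w) * |ℓ' y - ℓ x| :=
      mul_le_mul_of_nonneg_right (mul_le_mul_of_nonneg_right hc (by positivity)) (abs_nonneg _)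
    linarith
  sum := h.sum

/-- The weight of the starts. -/
theorem wt12 {P : ℕ} {c c₂ E w q s b₁ : ℝ} {ℓ ℓ' : ℤ → ℝ} {k : ℤ → ℤ → ℝ} {I J : Finset ℤ} (h : En31 P c c₂ E w q s ℓ ℓ' k I J)
    {θ : ℤ → ℝ} (hb : 0 ≤ b₁) (hθ0 : ∀ x, 0 ≤ θ x) (hθ : ∀ x ∈ I, θ x ≤ Real.exp (b₁ * gr P (|ℓ x| / w) * E)) :
    En31 P c c₂ E w (b₁ + q) s ℓ ℓ' (fun x y => θ x * k x y) I J where
  q0 := add_nonneg hb h.q0
  s0 := h.s0
  k0 := fun x y => mul_nonneg (hθ0 x) (h.k0 x y)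
  up := fun x hx y hy => by
    refine (mul_le_mul (hθ x hx) (h.up x hx y hy) (h.k0 x y) (Real.exp_pos _).le).trans (le_of_eq ?_)
    rw [← Real.exp_add]
    congr 1
    ring
  sum := h.sum

end

end Pool.Agent.W_7d29a1_C1.S12
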