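import Pool.Agent.W_7d29a1_C1.SlG60
import Pool.Agent.W_7d29a1_C1.FreE83

/-!
Both halves (MP_7d29a1_pr), attractor route: THE KERNEL OF THE WHOLE INSIDE FOR A CONTACT OF A SUCCESS (helper60).

`enS60` : a chain of slabs (`FarW89.Slabs`) whose first and last scale is `Tt` : the envelope `En31` for all starts (exponent
polylogarithmic in the start) and the lower bound between the windows `D wd Tt`. `enG60` : the same for the rows `ρ₀ → ρ₁` of a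
contact which is not reached at `t - 2` and whose end pieces are in `ELx60`.
-/

set_option autoImplicit false
set_option linter.unusedSectionVars false

namespace Pool.Agent.W_7d29a1_C1.H60

open MeasureTheory ProbabilityTheory Filter Topology
open Pool.Agent.W_7d29a1_F Pool.Agent.W_7d29a1_h4g Pool.Agent.W_7d29a1_H Pool.Agent.W_7d29a1_HS
open Pool.Agent.W_7d29a1_C1.S71 Pool.Agent.W_7d29a1_C1.Sw9 Pool.Agent.W_7d29a1_C1.H75 Pool.Agent.W_7d29a1_C1.U16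
open Pool.Agent.W_7d29a1_C1.FarK89 Pool.Agent.W_7d29a1_C1.FarW89
open Pool.Agent.W_7d29a1_C1.T10 Pool.Agent.W_7d29a1_C1.S83 Pool.Agent.W_7d29a1_C1.D31
open scoped ENNReal

noncomputable section

variable {μ : Measure ℝ} {s : ℝ} [IsProbabilityMeasure μ] {c C : ℝ} {n₀ : ℕ}

/-- **THE KERNEL OF A CHAIN OF SLABS.** -/
theorem enS60 (h0 : In μ s c C n₀) (P : ℕ) {θ K D : ℝ} (hθ : 0 < θ) (hD : 0 ≤ D) (hK : 2 * D + 6 ≤ K) :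
    ∀ Q : ℝ, 0 ≤ Q → ∃ q U : ℝ, 0 ≤ q ∧ 0 < U ∧ ∀ c₂ σ : ℝ, 0 < c₂ → 0 < σ → ∃ n₁ : ℕ, 1 ≤ n₁ ∧
    ∀ {h : ℝ} {η : Env} {p : ℕ → ℝ} {M : ℕ} {κ : Pt} {r T N : ℕ → ℕ} {ql : ℕ → ℝ} {bs : ℕ → Pt} {a b Tt : ℕ}, a < b →
    (∀ k, k < M → p k = Real.exp (s + h)) → (∀ k, M ≤ k → p k = Real.exp s) → Slabs μ s c θ K h P η κ r T N ql bs a b Tt n₁ Q →
    (∀ u, a ≤ u → u < b → θ * T u ≤ ((r (u + 1) - r u : ℕ) : ℝ)) → T a = Tt → T (b - 1) = Tt →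
    (∀ P', 2 * P ≤ P' → ∀ I J : Finset ℤ, En31 P' (c / 8) c₂ (EE μ s Tt) (wd μ s Tt) q σ (fun x => lat16 μ s κ ((r a : ℤ), x))
      (fun y => lat16 μ s κ ((r b : ℤ), y)) (nk μ s h η p M (r a) (r b - r a)) I J) ∧
    (∀ x y : ℤ, |lat16 μ s κ ((r a : ℤ), x)| ≤ D * wd μ s Tt → |lat16 μ s κ ((r b : ℤ), y)| ≤ D * wd μ s Tt →
      Real.exp (-(U * EE μ s Tt)) ≤ nk μ s h η p M (r a) (r b - r a) x y) := by
  have hc0 := h0.c0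
  have hK4 : 4 ≤ K := by linarith
  obtain ⟨C₅, hC₅, m₂, hm₂, Hup⟩ := far_up h0 P
  obtain ⟨C₆, hC₆, m₃, hm₃, Hlo⟩ := far_low89 h0 P hK4 hθ
  obtain ⟨m₅, H5⟩ := eventually_atTop.1 ((wd_tendsto h0).eventually_ge_atTop 1)
  intro Q hQ
  have hLQ : 0 ≤ LQ (2 * P) (c / 8) (C₅ * Q) := LQ_nonneg _ (by positivity)
  have hgK := gr_nonneg (2 * P) (show (0 : ℝ) ≤ K by linarith)
  refine ⟨LQ (2 * P) (c / 8) (C₅ * Q) + Q, C₆ * Q * gr (2 * P) K + 1, by positivity, by positivity, fun c₂ σ hc₂ hσ => ?_⟩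
  obtain ⟨m₈, hm₈, H8⟩ := sumR83 h0 hc₂ hσ
  refine ⟨max (max m₂ m₃) (max m₅ m₈), hm₂.trans ((le_max_left _ _).trans (le_max_left _ _)), ?_⟩
  intro h η p M κ r T N ql bs a b Tt hab hp hp' hsl hlen hTa hTb
  have up : ∀ {m' : ℕ}, m' ≤ max (max m₂ m₃) (max m₅ m₈) → Slabs μ s c θ K h P η κ r T N ql bs a b Tt m' Q := fun hm =>
    { hsl with
      Tt1 := hm.trans hsl.Tt1
      T1 := fun u hu hub => hm.trans (hsl.T1 u hu hub) }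
  have hT5 : m₅ ≤ Tt := ((le_max_left _ _).trans (le_max_right _ _)).trans hsl.Tt1
  have hT8 : m₈ ≤ Tt := ((le_max_right _ _).trans (le_max_right _ _)).trans hsl.Tt1
  have hw1 : 1 ≤ wd μ s Tt := H5 Tt hT5
  have hw0 : 0 < wd μ s Tt := by linarith
  have hE := EE_pos (μ := μ) (s := s) Tt
  have hpp : ∀ k, 0 < p k := fun k => by
    rcases lt_or_ge k M with h3 | h3
    · rw [hp k h3]; exact Real.exp_pos _
    · rw [hp' k h3]; exact Real.exp_pos _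
  have hrab : r a ≤ r b := by
    have h3 := r_mono hsl.rr (b - a) a le_rfl (by omega)
    rwa [show a + (b - a) = b from by omega] at h3
  have hlt : ∀ x y : ℤ, lat16 μ s κ ((r b : ℤ), y) - lat16 μ s κ ((r a : ℤ), x) =
      ((y - x : ℤ) : ℝ) - sl μ s * ((r b - r a : ℕ) : ℝ) := fun x y => lt_sub κ r a b x y hrab
  refine ⟨fun P' hP' I J => ⟨by positivity, hσ.le, fun x y => nk_nonneg hpp _ _ _ _, fun x _ y _ => ?_, fun x => ?_⟩, fun x y hx hy => ?_⟩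
  · -- the envelope
    have h1 := Hup hab.le hp hp' (up ((le_max_left _ _).trans (le_max_left _ _))) x y
    refine h1.trans (Real.exp_le_exp.2 ?_)
    rw [← hlt x y]
    have hX : 0 ≤ |lat16 μ s κ ((r a : ℤ), x)| / wd μ s Tt := by positivity
    have g1 := gr_one_le (2 * P) hX
    have g2 := gr_pow_mono hP' hX
    have e1 : hc μ s c Tt / 8 = c / 8 * (EE μ s Tt / wd μ s Tt) := by
      unfold hc
      ring
    rw [e1]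
    have e2 : LQ (2 * P) (c / 8) (C₅ * Q) * gr (2 * P) (|lt μ s κ r a x| / wd μ s Tt) + Q ≤
        (LQ (2 * P) (c / 8) (C₅ * Q) + Q) * gr P' (|lat16 μ s κ ((r a : ℤ), x)| / wd μ s Tt) := by
      have e3 : lt μ s κ r a x = lat16 μ s κ ((r a : ℤ), x) := rfl
      rw [e3]
      have h2 := mul_le_mul_of_nonneg_left g2 hLQ
      have h3 : Q ≤ Q * gr P' (|lat16 μ s κ ((r a : ℤ), x)| / wd μ s Tt) := le_mul_of_one_le_right hQ (g1.trans g2)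
      linarith
    have h4 := mul_le_mul_of_nonneg_right e2 hE.le
    linarith
  · -- the sum
    have h1 := H8 Tt hT8 (lat16 μ s κ ((r a : ℤ), x) + ((κ.2 : ℝ) + sl μ s * (((r b : ℤ) - κ.1 : ℤ) : ℝ))) J
    refine le_trans (Finset.sum_le_sum fun y _ => Real.exp_le_exp.2 ?_) h1
    have e1 : (y : ℝ) - (lat16 μ s κ ((r a : ℤ), x) + ((κ.2 : ℝ) + sl μ s * (((r b : ℤ) - κ.1 : ℤ) : ℝ))) =
        lat16 μ s κ ((r b : ℤ), y) - lat16 μ s κ ((r a : ℤ), x) := by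
      have e2 : lat16 μ s κ ((r b : ℤ), y) = ((y - κ.2 : ℤ) : ℝ) - sl μ s * (((r b : ℤ) - κ.1 : ℤ) : ℝ) := rfl
      rw [e2]
      push_cast
      ring
    rw [e1]
  · -- the lower bound
    have hwin : ∀ z : ℝ, |z| ≤ D * wd μ s Tt → |z - 0| ≤ (K - 2) / 2 * wd μ s Tt - 1 := fun z hz => by
      rw [sub_zero]
      nlinarith
    have h1 := Hlo hab hp hp' (up ((le_max_right _ _).trans (le_max_left _ _))) hlen 0 x y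
      (by rw [hTa]; exact hwin _ hx) (by rw [hTb]; exact hwin _ hy)
    refine le_trans (Real.exp_le_exp.2 ?_) h1
    rw [abs_zero, zero_div, zero_add]
    have := mul_pos one_pos hE
    nlinarith

/-- **THE KERNEL OF THE WHOLE INSIDE FOR A CONTACT OF A SUCCESS.** -/
theorem enG60 (h0 : In μ s c C n₀) (P : ℕ) {K : ℕ} (hK : 2 ≤ K) {θ Kw D : ℝ} (hθ : 0 < θ) (hθ8 : θ ≤ 1 / 8) (hD : 0 ≤ D)
    (hKw : 2 * D + 8 ≤ Kw) : ∃ R : ℝ, 1 < R ∧ ∀ q₀ Λ : ℝ, 0 ≤ q₀ → 0 ≤ Λ → ∃ q U : ℝ, 0 ≤ q ∧ 0 < U ∧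
    ∀ c₂ σ : ℝ, 0 < c₂ → 0 < σ → ∃ n₁ : ℕ, 1 ≤ n₁ ∧
    ∀ {h : ℝ} {p : ℕ → ℝ} {M h₀ : ℕ} {G : Gd} {L Lm : ℕ} {t : ℕ} {y : ℕ → ℝ} {x : ℕ × ℤ} {η : Env} {κ : Pt} {r₀ r₁ : ℤ} {ρ₀ ρ₁ : ℕ}
      {q₁ : ℝ}, (∀ k, k < M → p k = Real.exp (s + h)) → (∀ k, M ≤ k → p k = Real.exp s) →
      G.Ok L → (∀ v, G.H v = Hg h₀ K v) → n₁ ≤ h₀ → 2 ≤ t → t ≤ L → t ≤ Lm + 1 → Monotone y → (∀ l, 0 ≤ y l) →
      (∀ l, y l ≤ q₀ * R ^ l) → 0 ≤ q₁ → q₁ ≤ q₀ → (∀ v ≤ t, Tg h₀ K v ≤ (G.z v x).1) →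
      η ∉ Rch (lvL G (LvE Lm (EL60 μ s c θ Kw P (Tg h₀ K) y)) L) (t - 2) x →
      sh (G.x t x) η ∈ ELx60 μ s c θ Kw P (2 * Tg h₀ K t) (Tg h₀ K (t - 1)) r₀ r₁ q₁ (G.dg (t - 1) x) →
      (∀ v, 1 ≤ v → v ≤ t → |lat16 μ s κ (G.x v x)| + 1 ≤ Λ * wd μ s (2 * Tg h₀ K v)) →
      -(Tg h₀ K t : ℤ) ≤ r₀ → r₁ ≤ Tg h₀ K t → ((G.z t x).1 : ℤ) + r₀ ≤ ρ₀ → (ρ₁ : ℤ) ≤ ((G.z t x).1 : ℤ) + r₁ →
      θ * (2 * Tg h₀ K t : ℕ) ≤ ((((G.z t x).1 : ℤ) - Tg h₀ K (t - 1) - ρ₀ : ℤ) : ℝ) →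
      θ * (2 * Tg h₀ K t : ℕ) ≤ ((ρ₁ + G.H (t - 1) - (((G.z t x).1 : ℤ) + G.H t + Tg h₀ K (t - 1)) : ℤ) : ℝ) →
      |h| * wd μ s (2 * Tg h₀ K t) ≤ c / 8 * EE μ s (2 * Tg h₀ K t) →
      (∀ P', 2 * P ≤ P' → ∀ I J : Finset ℤ, En31 P' (c / 8) c₂ (EE μ s (2 * Tg h₀ K t)) (wd μ s (2 * Tg h₀ K t)) q σ
        (fun z => lat16 μ s κ ((ρ₀ : ℤ), z)) (fun z => lat16 μ s κ ((ρ₁ : ℤ), z)) (nk μ s h η p M ρ₀ (ρ₁ - ρ₀)) I J) ∧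
      (∀ z z' : ℤ, |lat16 μ s κ ((ρ₀ : ℤ), z)| ≤ D * wd μ s (2 * Tg h₀ K t) → |lat16 μ s κ ((ρ₁ : ℤ), z')| ≤ D * wd μ s (2 * Tg h₀ K t) →
        Real.exp (-(U * EE μ s (2 * Tg h₀ K t))) ≤ nk μ s h η p M ρ₀ (ρ₁ - ρ₀) z z') := by
  obtain ⟨R, hR, n₂, hn₂, HS⟩ := slabsG60 h0 P hK
  refine ⟨R, hR, fun q₀ Λ hq₀ hΛ => ?_⟩
  obtain ⟨Q, hQ, HSQ⟩ := HS n₂ le_rfl q₀ Λ hq₀ hΛ
  obtain ⟨q, U, hq, hU, HE⟩ := enS60 h0 P (θ := θ) (K := Kw - 2) (D := D) hθ hD (by linarith) Q hQ.le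
  refine ⟨q, U, hq, hU, fun c₂ σ hc₂ hσ => ?_⟩
  obtain ⟨n₁, hn₁, HE1⟩ := HE c₂ σ hc₂ hσ
  refine ⟨max n₁ n₂, hn₁.trans (le_max_left _ _), ?_⟩
  intro h p M h₀ G L Lm t y x η κ r₀ r₁ ρ₀ ρ₁ q₁ hp hp' hok hGH hh ht htL htLm hym hy0 hyR hq1 hq1' hrow hY hx hκ hr0 hr1' hρ₀ hρ₁
    hl0 hl1 hforce
  obtain ⟨s1, s2⟩ := HSQ (θ := θ) (h := h) (η := η) (κ := κ) (show 5 ≤ Kw by linarith) hok hGH ((le_max_right _ _).trans hh) ht htL htLm hym hy0 hyR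
    hq1 hq1' hrow hY hx hκ hr0 hr1' hρ₀ hρ₁ hθ8 hθ.le hl0 hl1 hforce
  have hT : ∀ v, 1 ≤ v → h₀ ≤ 2 * Tg h₀ K v := fun v hv => by
    rw [Tg_pos hv, mul_comm 2 h₀, mul_assoc]
    have h1 : 1 ≤ 2 * K ^ v := by
      have := Nat.one_le_pow v K (by omega)
      omega
    calc h₀ ≤ h₀ * (2 * K ^ v) := Nat.le_mul_of_pos_right _ (by omega)
      _ ≤ 2 * (h₀ * (2 * K ^ v)) := by omega
  have hn1 : n₁ ≤ h₀ := (le_max_left _ _).trans hh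
  have s1' : Slabs μ s c θ (Kw - 2) h P η κ (rT G (Tg h₀ K) x t ρ₀ ρ₁) (sT (Tg h₀ K) t)
        (nT G (Tg h₀ K) x t (min (((G.dg (t - 1) x).1 : ℤ) - Tg h₀ K (t - 1)) r₁ - r₀).toNat
          (r₁ - (((G.dg (t - 1) x).1 : ℤ) + Tg h₀ K (t - 1))).toNat)
        (fun u => qT y t q₁ u * fq16 P (Λ + 2))
        (fun u => lp μ s κ (bT μ s G (Tg h₀ K) x t (bs60 μ s r₀ + G.x t x)
          (bs60 μ s (((G.dg (t - 1) x).1 : ℤ) + Tg h₀ K (t - 1)) + G.x t x) u).1)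
        0 (2 * t) (2 * Tg h₀ K t) n₁ Q :=
    { s1 with
      Tt1 := hn1.trans (hT t (by omega))
      T1 := fun u _ hu => by
        unfold sT
        split_ifs with h1
        · exact hn1.trans (hT _ (by omega))
        · exact hn1.trans (hT _ (by omega)) }
  have key := HE1 (h := h) (η := η) (κ := κ) (M := M) (p := p) (show 0 < 2 * t by omega) hp hp' s1' s2 (sT_zero (by omega)) (sT_last (by omega))
  rw [rT_zero, rT_end (by omega)] at key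
  exact key

end

end Pool.Agent.W_7d29a1_C1.H60
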