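import Mathlib

/-!
MP_7d29a1_pr, attractor route (helper17): iteration of the one step inequality of the units (pure part, Mathlib only).
-/

set_option autoImplicit false

namespace Pool.Agent.W_7d29a1_C1

open Filter Topology

noncomputable section

theorem ev_pow17 (K : ℝ) {d : ℝ} (hd : 0 < d) : ∀ᶠ n : ℕ in atTop, K ≤ (n : ℝ) ^ d :=
  ((tendsto_rpow_atTop hd).comp tendsto_natCast_atTop_atTop).eventually_ge_atTop K

/-- Iteration: `a n' ≤ n ^ ε a n` for `n ≤ n' ≤ n ^ (1 + c)` and all `ε` gives `a n ≤ n ^ η` for all `η`. -/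
theorem iter17 {a : ℕ → ℝ} (ha : ∀ n, 0 ≤ a n) {c : ℝ} (hc : 0 < c)
    (h : ∀ ε : ℝ, 0 < ε → ∃ n₁ : ℕ, ∀ n, n₁ ≤ n → ∀ n' : ℕ, n ≤ n' → (n' : ℝ) ≤ (n : ℝ) ^ (1 + c) → a n' ≤ (n : ℝ) ^ ε * a n)
    {η : ℝ} (hη : 0 < η) : ∀ᶠ n : ℕ in atTop, a n ≤ (n : ℝ) ^ η := by
  obtain ⟨e, he⟩ : ∃ e : ℝ, e = η / 2 := ⟨_, rfl⟩
  have he0 : 0 < e := by rw [he]; positivity
  obtain ⟨n₁, h1⟩ := h (e * c / 2) (by positivity)
  have hd : 0 < 1 / (1 + c / 2) - 1 / (1 + c) := by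
    rw [sub_pos]
    exact one_div_lt_one_div_of_lt (by positivity) (by linarith)
  have hg : 0 < 1 / (1 + c) := by positivity
  have ev : ∀ᶠ n : ℕ in atTop, 2 ≤ n ∧ (2 : ℝ) ≤ (n : ℝ) ^ (1 / (1 + c / 2) - 1 / (1 + c)) ∧ ((n₁ : ℝ) + 1) ≤ (n : ℝ) ^ (1 / (1 + c)) := by
    filter_upwards [eventually_ge_atTop 2, ev_pow17 2 hd, ev_pow17 ((n₁ : ℝ) + 1) hg] with n h2 h3 h4
    exact ⟨h2, h3, h4⟩
  obtain ⟨N, hN⟩ := eventually_atTop.1 ev
  obtain ⟨C, hC⟩ : ∃ C : ℝ, C = ∑ i ∈ Finset.range (N + 1), a i := ⟨_, rfl⟩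
  have hC0 : 0 ≤ C := by
    rw [hC]
    exact Finset.sum_nonneg fun i _ => ha i
  have key : ∀ n : ℕ, 1 ≤ n → a n ≤ C * (n : ℝ) ^ e := by
    intro n
    induction n using Nat.strong_induction_on with
    | _ n ih =>
      intro hn1
      have hn1R : (1 : ℝ) ≤ n := by exact_mod_cast hn1
      rcases Nat.lt_or_ge n N with hnN | hnN
      · have h2 : a n ≤ C := by
          rw [hC]
          exact Finset.single_le_sum (f := a) (fun i _ => ha i) (Finset.mem_range.2 (by omega))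
        have h3 : (1 : ℝ) ≤ (n : ℝ) ^ e := Real.one_le_rpow hn1R he0.le
        nlinarith
      · obtain ⟨q2, q3, q4⟩ := hN n hnN
        have hnR : (0 : ℝ) < n := by linarith
        have hn2R : (2 : ℝ) ≤ n := by exact_mod_cast q2
        obtain ⟨k, hk⟩ : ∃ k : ℕ, k = ⌈(n : ℝ) ^ (1 / (1 + c))⌉₊ := ⟨_, rfl⟩
        have k1 : (n : ℝ) ^ (1 / (1 + c)) ≤ k := by rw [hk]; exact Nat.le_ceil _
        have k2 : (k : ℝ) < (n : ℝ) ^ (1 / (1 + c)) + 1 := by rw [hk]; exact Nat.ceil_lt_add_one (Real.rpow_nonneg hnR.le _)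
        have hp1 : (1 : ℝ) ≤ (n : ℝ) ^ (1 / (1 + c)) := Real.one_le_rpow hn1R hg.le
        have k3 : (k : ℝ) ≤ (n : ℝ) ^ (1 / (1 + c / 2)) := by
          have e1 : (n : ℝ) ^ (1 / (1 + c / 2)) = (n : ℝ) ^ (1 / (1 + c / 2) - 1 / (1 + c)) * (n : ℝ) ^ (1 / (1 + c)) := by
            rw [← Real.rpow_add hnR]
            ring_nf
          rw [e1]
          nlinarith
        have k4 : (k : ℝ) < n := by
          refine k3.trans_lt ?_
          calc (n : ℝ) ^ (1 / (1 + c / 2)) < (n : ℝ) ^ (1 : ℝ) := by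
                refine Real.rpow_lt_rpow_of_exponent_lt (by linarith) ?_
                rw [div_lt_one (by positivity)]
                linarith
            _ = n := Real.rpow_one _
        have k5 : k < n := by exact_mod_cast k4
        have k6 : n₁ ≤ k := by
          have : (n₁ : ℝ) < k := by linarith
          exact_mod_cast this.le
        have k7 : 1 ≤ k := by
          have : (1 : ℝ) ≤ k := by linarith
          exact_mod_cast this
        have hkR : (0 : ℝ) < k := by exact_mod_cast k7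
        have k8 : (n : ℝ) ≤ (k : ℝ) ^ (1 + c) := by
          calc (n : ℝ) = ((n : ℝ) ^ (1 / (1 + c))) ^ (1 + c) := by
                rw [← Real.rpow_mul hnR.le, one_div, inv_mul_cancel₀ (by positivity), Real.rpow_one]
            _ ≤ (k : ℝ) ^ (1 + c) := Real.rpow_le_rpow (Real.rpow_nonneg hnR.le _) k1 (by positivity)
        have h2 := h1 k k6 n k5.le k8
        have h3 := ih k k5 k7
        have hke : 0 ≤ (k : ℝ) ^ (e * c / 2) := Real.rpow_nonneg hkR.le _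
        calc a n ≤ (k : ℝ) ^ (e * c / 2) * a k := h2
          _ ≤ (k : ℝ) ^ (e * c / 2) * (C * (k : ℝ) ^ e) := mul_le_mul_of_nonneg_left h3 hke
          _ = C * (k : ℝ) ^ (e * (1 + c / 2)) := by
              rw [show e * (1 + c / 2) = e * c / 2 + e by ring, Real.rpow_add hkR]
              ring
          _ ≤ C * ((n : ℝ) ^ (1 / (1 + c / 2))) ^ (e * (1 + c / 2)) :=
              mul_le_mul_of_nonneg_left (Real.rpow_le_rpow hkR.le k3 (by positivity)) hC0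
          _ = C * (n : ℝ) ^ e := by
              rw [← Real.rpow_mul hnR.le]
              congr 2
              field_simp
  filter_upwards [eventually_ge_atTop 1, ev_pow17 C he0] with n g1 g2
  have hn : (0 : ℝ) < n := by exact_mod_cast g1
  have g3 := key n g1
  have e1 : (n : ℝ) ^ η = (n : ℝ) ^ e * (n : ℝ) ^ e := by
    rw [← Real.rpow_add hn, he]
    ring_nf
  rw [e1]
  exact g3.trans (mul_le_mul_of_nonneg_right g2 (Real.rpow_nonneg hn.le _))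

/-- The one step inequality in the range `n ≤ n' ≤ n ^ (1 + c)` holds in every range `n ≤ n' ≤ n ^ M`. -/
theorem back17 {a : ℕ → ℝ} (ha : ∀ n, 0 ≤ a n) {c : ℝ} (hc : 0 < c)
    (h : ∀ ε : ℝ, 0 < ε → ∃ n₁ : ℕ, ∀ n, n₁ ≤ n → ∀ n' : ℕ, n ≤ n' → (n' : ℝ) ≤ (n : ℝ) ^ (1 + c) → a n' ≤ (n : ℝ) ^ ε * a n)
    (M : ℝ) {ε : ℝ} (hε : 0 < ε) : ∃ n₁ : ℕ, ∀ n, n₁ ≤ n → ∀ n' : ℕ, n ≤ n' → (n' : ℝ) ≤ (n : ℝ) ^ M → a n' ≤ (n : ℝ) ^ ε * a n := by
  obtain ⟨d, hd⟩ : ∃ d : ℝ, d = c / 2 := ⟨_, rfl⟩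
  have hd0 : 0 < d := by rw [hd]; positivity
  have key : ∀ k : ℕ, ∀ ε : ℝ, 0 < ε → ∃ n₁ : ℕ, ∀ n, n₁ ≤ n → ∀ n' : ℕ, n ≤ n' → (n' : ℝ) ≤ (n : ℝ) ^ ((1 + d) ^ k : ℝ) →
      a n' ≤ (n : ℝ) ^ ε * a n := by
    intro k
    induction k with
    | zero =>
      intro ε hε
      obtain ⟨n₁, h1⟩ := h ε hε
      refine ⟨max n₁ 1, fun n hn n' hnn hn' => h1 n (by omega) n' hnn ?_⟩
      have hn1 : (1 : ℝ) ≤ n := by
        have : 1 ≤ n := by omega
        exact_mod_cast this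
      rw [pow_zero] at hn'
      exact hn'.trans (Real.rpow_le_rpow_of_exponent_le hn1 (by linarith))
    | succ k ih =>
      intro ε hε
      obtain ⟨D, hD⟩ : ∃ D : ℝ, D = (1 + d) ^ k := ⟨_, rfl⟩
      have hD1 : 1 ≤ D := by rw [hD]; exact one_le_pow₀ (by linarith)
      obtain ⟨n₁, h1⟩ := h (ε / (2 * D)) (by positivity)
      obtain ⟨n₂, h2⟩ := ih (ε / 2) (by positivity)
      obtain ⟨n₃, h3⟩ := eventually_atTop.1 (ev_pow17 ((2 : ℝ) ^ (1 + d)) hd0)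
      refine ⟨max (max n₁ n₂) (max n₃ 1), fun n hn n' hnn hn' => ?_⟩
      have g1 : 1 ≤ n := by omega
      have hn1 : (1 : ℝ) ≤ n := by exact_mod_cast g1
      have hn0 : (0 : ℝ) < n := by linarith
      have han := ha n
      rcases le_or_gt (n' : ℝ) ((n : ℝ) ^ (1 + d)) with hs | hs
      · have q1 := h1 n (by omega) n' hnn (hs.trans (Real.rpow_le_rpow_of_exponent_le hn1 (by linarith)))
        refine q1.trans (mul_le_mul_of_nonneg_right (Real.rpow_le_rpow_of_exponent_le hn1 ?_) han)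
        rw [div_le_iff₀ (by positivity)]
        nlinarith
      · have hn'0 : (0 : ℝ) < n' := lt_of_lt_of_le hn0 (by exact_mod_cast hnn)
        obtain ⟨x, hx⟩ : ∃ x : ℝ, x = (n' : ℝ) ^ (1 / (1 + d)) := ⟨_, rfl⟩
        have hx0 : 0 ≤ x := by rw [hx]; exact Real.rpow_nonneg hn'0.le _
        have hxp : x ^ (1 + d) = n' := by
          rw [hx, ← Real.rpow_mul hn'0.le, one_div, inv_mul_cancel₀ (by positivity), Real.rpow_one]
        obtain ⟨k', hk'⟩ : ∃ k' : ℕ, k' = ⌊x⌋₊ := ⟨_, rfl⟩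
        have hnx : (n : ℝ) ≤ x := by
          by_contra hcon
          push Not at hcon
          have := Real.rpow_le_rpow hx0 hcon.le (show (0 : ℝ) ≤ 1 + d by positivity)
          rw [hxp] at this
          linarith
        have hnk : n ≤ k' := by
          rw [hk']
          exact Nat.le_floor hnx
        have hkx : (k' : ℝ) ≤ x := by rw [hk']; exact Nat.floor_le hx0
        have hxk : x < k' + 1 := by rw [hk']; exact Nat.lt_floor_add_one x
        have hk1 : (1 : ℝ) ≤ k' := le_trans hn1 (by exact_mod_cast hnk)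
        have hk0 : (0 : ℝ) < k' := by linarith
        have hkn' : k' ≤ n' := by
          have : (k' : ℝ) ≤ n' := by
            refine hkx.trans ?_
            rw [hx]
            calc (n' : ℝ) ^ (1 / (1 + d)) ≤ (n' : ℝ) ^ (1 : ℝ) := by
                  refine Real.rpow_le_rpow_of_exponent_le (le_trans hn1 (by exact_mod_cast hnn)) ?_
                  rw [div_le_one (by positivity)]
                  linarith
              _ = n' := Real.rpow_one _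
          exact_mod_cast this
        have hkD : (k' : ℝ) ≤ (n : ℝ) ^ D := by
          refine hkx.trans ?_
          have e1 : ((n : ℝ) ^ D) ^ (1 + d) = (n : ℝ) ^ ((1 + d) ^ (k + 1) : ℝ) := by
            rw [← Real.rpow_mul hn0.le, hD, pow_succ]
          by_contra hcon
          push Not at hcon
          have := Real.rpow_lt_rpow (Real.rpow_nonneg hn0.le _) hcon (show (0 : ℝ) < 1 + d by positivity)
          rw [hxp, e1] at this
          linarith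
        have hk' : (n' : ℝ) ≤ (k' : ℝ) ^ (1 + c) := by
          have e2 : (k' : ℝ) ^ (1 + c) = (k' : ℝ) ^ d * (k' : ℝ) ^ (1 + d) := by
            rw [← Real.rpow_add hk0, hd]
            ring_nf
          calc (n' : ℝ) = x ^ (1 + d) := hxp.symm
            _ ≤ (2 * k') ^ (1 + d) := Real.rpow_le_rpow hx0 (by linarith) (by positivity)
            _ = (2 : ℝ) ^ (1 + d) * (k' : ℝ) ^ (1 + d) := Real.mul_rpow (by norm_num) hk0.le
            _ ≤ (k' : ℝ) ^ d * (k' : ℝ) ^ (1 + d) :=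
                mul_le_mul_of_nonneg_right (h3 k' (by omega)) (Real.rpow_nonneg hk0.le _)
            _ = (k' : ℝ) ^ (1 + c) := e2.symm
        have q1 := h1 k' (by omega) n' hkn' hk'
        have q2 := h2 n (by omega) k' hnk (by rw [← hD]; exact hkD)
        have q3 : (k' : ℝ) ^ (ε / (2 * D)) ≤ (n : ℝ) ^ (ε / 2) := by
          calc (k' : ℝ) ^ (ε / (2 * D)) ≤ ((n : ℝ) ^ D) ^ (ε / (2 * D)) := Real.rpow_le_rpow hk0.le hkD (by positivity)
            _ = (n : ℝ) ^ (ε / 2) := by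
                rw [← Real.rpow_mul hn0.le]
                congr 1
                field_simp
        calc a n' ≤ (k' : ℝ) ^ (ε / (2 * D)) * a k' := q1
          _ ≤ (n : ℝ) ^ (ε / 2) * ((n : ℝ) ^ (ε / 2) * a n) :=
              mul_le_mul q3 q2 (ha _) (Real.rpow_nonneg hn0.le _)
          _ = (n : ℝ) ^ ε * a n := by
              rw [← mul_assoc, ← Real.rpow_add hn0, add_halves]
  obtain ⟨k, hk⟩ := pow_unbounded_of_one_lt M (show 1 < 1 + d by linarith)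
  obtain ⟨n₁, h1⟩ := key k ε hε
  refine ⟨max n₁ 1, fun n hn n' hnn hn' => h1 n (by omega) n' hnn (hn'.trans ?_)⟩
  have hn1 : (1 : ℝ) ≤ n := by
    have : 1 ≤ n := by omega
    exact_mod_cast this
  exact Real.rpow_le_rpow_of_exponent_le hn1 hk.le

/-- The lower bound at all large lengths, from the one step inequality and the lower bound in the form of a window. -/
theorem low_of17 {u : ℕ → ℝ} (hu : ∀ n, 0 < u n) {c : ℝ} (hc : 0 < c)
    (h : ∀ ε : ℝ, 0 < ε → ∃ n₁ : ℕ, ∀ n, n₁ ≤ n → ∀ n' : ℕ, n ≤ n' → (n' : ℝ) ≤ (n : ℝ) ^ (1 + c) →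
      u n' ^ 3 / n' ≤ (n : ℝ) ^ ε * (u n ^ 3 / n))
    (hw : ∀ ε : ℝ, 0 < ε → ∃ M : ℝ, 1 ≤ M ∧ ∀ᶠ R : ℕ in atTop, ∃ r : ℕ, R ≤ r ∧ (r : ℝ) ≤ (R : ℝ) ^ M ∧
      (r : ℝ) ^ (1 / 3 : ℝ) ≤ (R : ℝ) ^ ε * u r)
    {ε : ℝ} (hε : 0 < ε) : ∀ᶠ n : ℕ in atTop, (n : ℝ) ^ (1 / 3 - ε) ≤ u n := by
  obtain ⟨M, hM, hw⟩ := hw (ε / 2) (by positivity)
  obtain ⟨n₁, h1⟩ := back17 (a := fun n => u n ^ 3 / n) (fun n => by
    have := hu n
    positivity) hc h M (show 0 < 3 * (ε / 2) by positivity)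
  filter_upwards [hw, eventually_ge_atTop n₁, eventually_ge_atTop 1] with n g1 g2 g3
  have hn1 : (1 : ℝ) ≤ n := by exact_mod_cast g3
  have hn0 : (0 : ℝ) < n := by linarith
  obtain ⟨r, hr1, hr2, hr3⟩ := g1
  have q1 := h1 n g2 r hr1 hr2
  have hr0 : (0 : ℝ) < r := lt_of_lt_of_le hn0 (by exact_mod_cast hr1)
  have hur := hu r
  have hun := hu n
  -- `r ≤ n ^ (3 ε / 2) u r ^ 3`
  have q2 : (r : ℝ) ≤ (n : ℝ) ^ (3 * (ε / 2)) * u r ^ 3 := by
    have q3 := pow_le_pow_left₀ (Real.rpow_nonneg hr0.le _) hr3 3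
    have e1 : ((r : ℝ) ^ (1 / 3 : ℝ)) ^ 3 = r := by
      rw [← Real.rpow_natCast, ← Real.rpow_mul hr0.le]
      norm_num
    have e2 : ((n : ℝ) ^ (ε / 2) * u r) ^ 3 = (n : ℝ) ^ (3 * (ε / 2)) * u r ^ 3 := by
      rw [mul_pow, ← Real.rpow_natCast ((n : ℝ) ^ (ε / 2)) 3, ← Real.rpow_mul hn0.le]
      congr 2
      push_cast
      ring
    rw [e1, e2] at q3
    exact q3
  have hp : 0 < (n : ℝ) ^ (3 * (ε / 2)) := Real.rpow_pos_of_pos hn0 _
  have q4 : 1 ≤ (n : ℝ) ^ (3 * (ε / 2)) * (u r ^ 3 / r) := by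
    rw [← mul_div_assoc, le_div_iff₀ hr0, one_mul]
    exact q2
  have q5 : 1 ≤ (n : ℝ) ^ (3 * (ε / 2)) * ((n : ℝ) ^ (3 * (ε / 2)) * (u n ^ 3 / n)) :=
    q4.trans (mul_le_mul_of_nonneg_left q1 hp.le)
  have q6 : (n : ℝ) ≤ (n : ℝ) ^ (3 * ε) * u n ^ 3 := by
    have e3 : (n : ℝ) ^ (3 * (ε / 2)) * ((n : ℝ) ^ (3 * (ε / 2)) * (u n ^ 3 / n)) = ((n : ℝ) ^ (3 * ε) * u n ^ 3) / n := by
      rw [← mul_assoc, ← Real.rpow_add hn0, ← mul_div_assoc]
      congr 3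
      ring
    rw [e3, le_div_iff₀ hn0, one_mul] at q5
    exact q5
  have q7 : (n : ℝ) ^ (1 - 3 * ε) ≤ u n ^ 3 := by
    have e4 : (n : ℝ) = (n : ℝ) ^ (3 * ε) * (n : ℝ) ^ (1 - 3 * ε) := by
      rw [← Real.rpow_add hn0]
      ring_nf
      rw [Real.rpow_one]
    have hp3 : 0 < (n : ℝ) ^ (3 * ε) := Real.rpow_pos_of_pos hn0 _
    refine le_of_mul_le_mul_left ?_ hp3
    rw [← e4]
    exact q6
  have q8 := Real.rpow_le_rpow (Real.rpow_nonneg hn0.le _) q7 (show (0 : ℝ) ≤ 1 / 3 by norm_num)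
  rw [← Real.rpow_natCast (u n) 3, ← Real.rpow_mul hun.le, ← Real.rpow_mul hn0.le] at q8
  norm_num at q8
  rw [show (1 : ℝ) / 3 - ε = (1 - 3 * ε) * (1 / 3) by ring]
  exact q8

/-- From `u ^ 3 / n ≤ n ^ (3 ε)` to `u ≤ n ^ (1/3 + ε)`. -/
theorem up_of17 {u : ℕ → ℝ} (hu : ∀ n, 0 < u n) {c : ℝ} (hc : 0 < c)
    (h : ∀ ε : ℝ, 0 < ε → ∃ n₁ : ℕ, ∀ n, n₁ ≤ n → ∀ n' : ℕ, n ≤ n' → (n' : ℝ) ≤ (n : ℝ) ^ (1 + c) →
      u n' ^ 3 / n' ≤ (n : ℝ) ^ ε * (u n ^ 3 / n))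
    {ε : ℝ} (hε : 0 < ε) : ∀ᶠ n : ℕ in atTop, u n ≤ (n : ℝ) ^ (1 / 3 + ε) := by
  have h2 := iter17 (a := fun n => u n ^ 3 / n) (fun n => by
    have := hu n
    positivity) hc h (show 0 < 3 * ε by positivity)
  filter_upwards [h2, eventually_ge_atTop 1] with n g1 g2
  have hn : (0 : ℝ) < n := by exact_mod_cast g2
  have hE := hu n
  rw [div_le_iff₀ hn] at g1
  have e1 : (n : ℝ) ^ (3 * ε) * n = (n : ℝ) ^ (3 * ε + 1) := by
    rw [Real.rpow_add hn, Real.rpow_one]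
  rw [e1] at g1
  have g3 := Real.rpow_le_rpow (by positivity) g1 (show (0 : ℝ) ≤ 1 / 3 by norm_num)
  rw [← Real.rpow_natCast (u n) 3, ← Real.rpow_mul hE.le, ← Real.rpow_mul hn.le] at g3
  norm_num at g3
  rw [show (1 : ℝ) / 3 + ε = (3 * ε + 1) * (1 / 3) by ring]
  exact g3

end

end Pool.Agent.W_7d29a1_C1
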