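import Pool.Agent.W_7d29a1_C1.Psi17
import Pool.Agent.W_7d29a1_C1.Pure17
import Pool.Agent.W_7d29a1_HZ.PB
import Pool.Agent.W_7d29a1_LB.Scale29

/-!
MP_7d29a1_pr, attractor route (helper17): the end. If the increment of the free energy in the force is, up to a smaller power of the
unit, the free energy of the point to point masses seen through a Gaussian walk (`LMB17`), then the units are at most of the order
`n ^ (1/3 + o(1))`.
-/

set_option autoImplicit false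

namespace Pool.Agent.W_7d29a1_C1

open MeasureTheory ProbabilityTheory Filter Topology
open Pool.Agent.W_7d29a1_F Pool.Agent.W_7d29a1_h4g Pool.Agent.W_7d29a1_H Pool.Agent.W_7d29a1_HS
open Pool.Agent.W_7d29a1_HZ (EE' wd' EE'_pow wd'_eq)
open Pool.Agent.W_7d29a1_LB (LB20 UB20)
open Pool.Agent.W_7d29a1_HK20 (ev_pow20)
open Pool.Agent.W_1b8d5d_p (wR wL Rf)
open scoped ENNReal NNReal

noncomputable section

/-- **The loss of memory in the form of one boundary**: the increment of `n λ` at the tilt `s` is an affine function plus the free energy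
of the masses of a window of `m` sites at the time `n`, seen through an independent Gaussian walk, up to `n ^ (- c) EE n`, for the tilts
`|h| EE n ≤ n ^ (- 2 δ)`. -/
def LMB17 (μ : Measure ℝ) (s : ℝ) : Prop :=
  ∃ c : ℝ, 0 < c ∧ ∀ δ : ℝ, 0 < δ → ∀ᶠ n : ℕ in atTop, ∃ (y₀ : ℤ) (m : ℕ) (v : ℝ≥0) (K₀ K₁ : ℝ),
    0 ≤ y₀ ∧ 1 ≤ m ∧ y₀ + m ≤ n ∧ (m : ℝ) ≤ (n : ℝ) ^ δ * wd μ s n ∧ (n : ℝ) ^ (-δ) ≤ (v : ℝ) ∧
    ∀ h : ℝ, |h| * EE μ s n ≤ (n : ℝ) ^ (-(2 * δ)) →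
      |n * (lam μ (s + h) - lam μ s) - K₀ - K₁ * h -
        Psi (law μ) m v (fun η k => W μ s η 0 n (y₀ + ((k : ℕ) : ℤ))) h| ≤ (n : ℝ) ^ (-c) * EE μ s n

/-! ### Pure part -/

/-- The numbers of one step. `a = n ^ δ`, `x` the slope at distance of one unit of `n'`. -/
theorem num17 {n n' E E' a K q m v F : ℝ} (hn : 0 < n) (hn' : 0 < n') (hE : 0 < E) (ha : 1 ≤ a)
    (h4 : 4 * a ^ 4 * E ≤ E') (hm : m ≤ a ^ 2 * E ^ 2) (hv : a⁻¹ ≤ v)
    (hF : n * (E' / n') ≤ F) (hF2 : F ≤ 7 * m * (4 * a ^ 2 / E') ^ 2 * Real.sqrt (m / v) + 4 * (q * E))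
    (hq : q * (n' / n) ≤ 1) (hq0 : 0 ≤ q) (hK : E' ^ 2 ≤ K ^ 2 * (n' / n) * E ^ 2) :
    E' ^ 3 / n' ≤ (112 * a ^ 8 + 4 * K ^ 2) * (E ^ 3 / n) := by
  have ha0 : 0 < a := by linarith
  have hv0 : 0 < v := lt_of_lt_of_le (by positivity) hv
  have hE' : 0 < E' := lt_of_lt_of_le (by positivity) h4
  have hs : Real.sqrt (m / v) ≤ a ^ 2 * E := by
    rw [Real.sqrt_le_left (by positivity)]
    rw [div_le_iff₀ hv0]
    have h1 : (a ^ 2 * E) ^ 2 * a⁻¹ ≤ (a ^ 2 * E) ^ 2 * v := mul_le_mul_of_nonneg_left hv (by positivity)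
    have h2 : (a ^ 2 * E) ^ 2 * a⁻¹ = a ^ 3 * E ^ 2 := by
      field_simp
    have h3 : a ^ 2 * E ^ 2 ≤ a ^ 3 * E ^ 2 := by
      have : a ^ 2 ≤ a ^ 3 := pow_le_pow_right₀ ha (by norm_num)
      exact mul_le_mul_of_nonneg_right this (by positivity)
    linarith
  have h5 : 7 * m * (4 * a ^ 2 / E') ^ 2 * Real.sqrt (m / v) ≤ 7 * (a ^ 2 * E ^ 2) * (4 * a ^ 2 / E') ^ 2 * (a ^ 2 * E) := by
    refine mul_le_mul ?_ hs (Real.sqrt_nonneg _) (by positivity)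
    refine mul_le_mul_of_nonneg_right ?_ (by positivity)
    linarith
  have h6 : 7 * (a ^ 2 * E ^ 2) * (4 * a ^ 2 / E') ^ 2 * (a ^ 2 * E) = 112 * a ^ 8 * E ^ 3 / E' ^ 2 := by
    field_simp
    ring
  have h7 : n * (E' / n') ≤ 112 * a ^ 8 * E ^ 3 / E' ^ 2 + 4 * (q * E) := by linarith
  have h8 : n * (E' / n') * E' ^ 2 ≤ (112 * a ^ 8 * E ^ 3 / E' ^ 2 + 4 * (q * E)) * E' ^ 2 :=
    mul_le_mul_of_nonneg_right h7 (by positivity)
  have h9 : (112 * a ^ 8 * E ^ 3 / E' ^ 2 + 4 * (q * E)) * E' ^ 2 = 112 * a ^ 8 * E ^ 3 + 4 * (q * E) * E' ^ 2 := by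
    field_simp
  have h10 : 4 * (q * E) * E' ^ 2 ≤ 4 * (q * E) * (K ^ 2 * (n' / n) * E ^ 2) :=
    mul_le_mul_of_nonneg_left hK (by positivity)
  have h11 : 4 * (q * E) * (K ^ 2 * (n' / n) * E ^ 2) = (q * (n' / n)) * (4 * K ^ 2 * E ^ 3) := by ring
  have h12 : (q * (n' / n)) * (4 * K ^ 2 * E ^ 3) ≤ 1 * (4 * K ^ 2 * E ^ 3) := mul_le_mul_of_nonneg_right hq (by positivity)
  have h13 : n * (E' / n') * E' ^ 2 ≤ (112 * a ^ 8 + 4 * K ^ 2) * E ^ 3 := by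
    rw [h9] at h8
    rw [h11] at h10
    nlinarith
  have e1 : E' ^ 3 / n' = (n * (E' / n') * E' ^ 2) / n := by
    field_simp
  have e2 : (112 * a ^ 8 + 4 * K ^ 2) * (E ^ 3 / n) = (112 * a ^ 8 + 4 * K ^ 2) * E ^ 3 / n := by ring
  rw [e1, e2]
  exact div_le_div_of_nonneg_right h13 hn.le

/-! ### One step -/

section core

variable {μ : Measure ℝ} {s : ℝ} [IsProbabilityMeasure μ] {c C : ℝ} {n₀ : ℕ}

/-- The width gives a lower bound of the excess. -/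
theorem ex_wd17 (h : In μ s c C n₀) {n : ℕ} (hn : 1 ≤ n) {r : ℝ} (hr0 : 0 ≤ r) (hr : r ≤ 1) :
    r * (wd μ s n / (2 * n)) - EE μ s n / n ≤ ex μ s r + ex μ s (-r) := by
  obtain ⟨H, δ, hD⟩ := h.dir
  have hJ : Rf (J μ s) := hD.rf (Set.mem_singleton s)
  have hnR : (0 : ℝ) < n := by exact_mod_cast hn
  have hB : 0 ≤ 1 * EE μ s n / n := by
    have := EE_pos (μ := μ) (s := s) n
    positivity
  have h1 := ex_nonneg h.em h.nd s r
  have h2 := ex_nonneg h.em h.nd s (-r)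
  have e1 : wd μ s n / (2 * n) = (vr 1 μ s n + vl 1 μ s n) / 2 := by
    unfold wd vA
    field_simp
  rw [e1]
  have hrr : |r| ≤ 1 := by rw [abs_of_nonneg hr0]; exact hr
  have hrn : |-r| ≤ 1 := by rw [abs_neg]; exact hrr
  rcases le_total (vl 1 μ s n) (vr 1 μ s n) with h3 | h3
  · have h4 : J μ s (vr 1 μ s n) ≤ 1 * EE μ s n / n := hJ.J_wR_le hB
    have h5 := le_J h.em h.nd s (vr 1 μ s n) hrr
    have h6 : r * ((vr 1 μ s n + vl 1 μ s n) / 2) ≤ r * vr 1 μ s n := mul_le_mul_of_nonneg_left (by linarith) hr0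
    rw [one_mul] at h4
    linarith
  · have h4 : J μ s (-(vl 1 μ s n)) ≤ 1 * EE μ s n / n := hJ.neg.J_wR_le hB
    have h5 := le_J h.em h.nd s (-(vl 1 μ s n)) hrn
    have h6 : r * ((vr 1 μ s n + vl 1 μ s n) / 2) ≤ r * vl 1 μ s n := mul_le_mul_of_nonneg_left (by linarith) hr0
    have h7 : -r * -(vl 1 μ s n) = r * vl 1 μ s n := by ring
    rw [one_mul] at h4
    rw [h7] at h5
    linarith

/-- **One step**: `EE n' ^ 3 / n' ≤ n ^ ε EE n ^ 3 / n` for `n ≤ n' ≤ n ^ (1 + c₁)`. -/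
theorem core17 (h : In μ s c C n₀) (hL : LB20 μ s) (hU : UB20 μ s) (hM : LMB17 μ s) :
    ∃ c₁ : ℝ, 0 < c₁ ∧ ∀ ε : ℝ, 0 < ε → ∃ n₁ : ℕ, ∀ n, n₁ ≤ n → ∀ n' : ℕ, n ≤ n' → (n' : ℝ) ≤ (n : ℝ) ^ (1 + c₁) →
      EE μ s n' ^ 3 / n' ≤ (n : ℝ) ^ ε * (EE μ s n ^ 3 / n) := by
  obtain ⟨c', hc', hM⟩ := hM
  obtain ⟨a₀, K, -, -, hK1, hK⟩ := EE'_pow h
  obtain ⟨n₂, hn₂⟩ := wd'_eq h
  refine ⟨min c' 1, lt_min hc' one_pos, fun ε hε => ?_⟩
  obtain ⟨δ, hδ⟩ : ∃ δ : ℝ, δ = ε / 24 := ⟨_, rfl⟩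
  have hδ0 : 0 < δ := by rw [hδ]; positivity
  obtain ⟨n₃, hL⟩ := hL δ hδ0
  obtain ⟨n₄, hU⟩ := hU δ hδ0
  have ev := (hM δ hδ0).and (ev_pow20 (176 + 4 * K ^ 2) (show 0 < ε / 2 by positivity))
  obtain ⟨n₅, h5⟩ := eventually_atTop.1 ev
  refine ⟨max (max n₂ n₃) (max n₄ (max n₅ 1)), fun n hn n' hnn' hn' => ?_⟩
  have g2 : n₂ ≤ n := by omega
  have g3 : n₃ ≤ n := by omega
  have g4 : n₄ ≤ n := by omega
  have g5 : n₅ ≤ n := by omega
  have g1 : 1 ≤ n := by omega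
  have g1' : 1 ≤ n' := by omega
  obtain ⟨⟨y₀, m, v, K₀, K₁, hy0, hm1, hym, hmw, hv, hA⟩, hbig⟩ := h5 n g5
  have hnR : (1 : ℝ) ≤ n := by exact_mod_cast g1
  have hnR' : (1 : ℝ) ≤ n' := by exact_mod_cast g1'
  have hnn : (n : ℝ) ≤ n' := by exact_mod_cast hnn'
  have hn0 : (0 : ℝ) < n := by linarith
  have hn0' : (0 : ℝ) < n' := by linarith
  obtain ⟨a, ha⟩ : ∃ a : ℝ, a = (n : ℝ) ^ δ := ⟨_, rfl⟩
  have ha1 : 1 ≤ a := by rw [ha]; exact Real.one_le_rpow hnR hδ0.le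
  have ha0 : 0 < a := by linarith
  obtain ⟨E, hE⟩ : ∃ E : ℝ, E = EE μ s n := ⟨_, rfl⟩
  obtain ⟨E', hE'⟩ : ∃ E' : ℝ, E' = EE μ s n' := ⟨_, rfl⟩
  have hE1 : 1 ≤ E := by rw [hE]; exact one_le_EE n
  have hE0 : 0 < E := by linarith
  have hE1' : 1 ≤ E' := by rw [hE']; exact one_le_EE n'
  have hE0' : 0 < E' := by linarith
  rw [← hE, ← hE']
  rw [← ha] at hmw
  have hva : a⁻¹ ≤ (v : ℝ) := by
    rw [ha, ← Real.rpow_neg hn0.le]
    exact hv
  -- `n' ^ δ ≤ a ^ 2`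
  have hna' : (n' : ℝ) ^ δ ≤ a ^ 2 := by
    calc (n' : ℝ) ^ δ ≤ ((n : ℝ) ^ (1 + min c' 1)) ^ δ := Real.rpow_le_rpow hn0'.le hn' hδ0.le
      _ ≤ ((n : ℝ) ^ (2 : ℝ)) ^ δ := by
          refine Real.rpow_le_rpow (Real.rpow_nonneg hn0.le _) ?_ hδ0.le
          exact Real.rpow_le_rpow_of_exponent_le hnR (by linarith [min_le_right c' 1])
      _ = a ^ 2 := by
          rw [ha, ← Real.rpow_natCast, ← Real.rpow_mul hn0.le, ← Real.rpow_mul hn0.le]
          congr 1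
          push_cast
          ring
  -- `a ^ 12 = n ^ (ε / 2)`
  have ha12 : a ^ 12 = (n : ℝ) ^ (ε / 2) := by
    rw [ha, ← Real.rpow_natCast, ← Real.rpow_mul hn0.le]
    congr 1
    rw [hδ]
    push_cast
    ring
  have hee : (n : ℝ) ^ ε = (n : ℝ) ^ (ε / 2) * a ^ 12 := by
    rw [ha12, ← Real.rpow_add hn0]
    ring_nf
  have hK2 : 0 ≤ 4 * K ^ 2 := by positivity
  have fin : ∀ X : ℝ, X ≤ (176 + 4 * K ^ 2) * a ^ 12 → X * (E ^ 3 / n) ≤ (n : ℝ) ^ ε * (E ^ 3 / n) := by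
    intro X hX
    refine mul_le_mul_of_nonneg_right ?_ (by positivity)
    rw [hee]
    exact hX.trans (mul_le_mul_of_nonneg_right hbig (by positivity))
  have ha812 : a ^ 8 ≤ a ^ 12 := pow_le_pow_right₀ ha1 (by norm_num)
  have ha112 : 1 ≤ a ^ 12 := one_le_pow₀ ha1
  rcases lt_or_ge E' (4 * a ^ 4 * E) with hcase | hcase
  · have q1 : E' ^ 3 ≤ (4 * a ^ 4 * E) ^ 3 := pow_le_pow_left₀ hE0'.le hcase.le 3
    have q2 : E' ^ 3 / n' ≤ (4 * a ^ 4 * E) ^ 3 / n := div_le_div₀ (by positivity) q1 hn0 hnn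
    have q3 : (4 * a ^ 4 * E) ^ 3 / n = (64 * a ^ 12) * (E ^ 3 / n) := by ring
    refine q2.trans (q3.le.trans (fin _ ?_))
    nlinarith
  · -- the tilt
    obtain ⟨r, hr⟩ : ∃ r : ℝ, r = 4 * a ^ 2 / E' := ⟨_, rfl⟩
    have hr0 : 0 < r := by rw [hr]; positivity
    have h24 : a ^ 2 ≤ a ^ 4 := pow_le_pow_right₀ ha1 (by norm_num)
    have hr1 : r ≤ 1 := by
      rw [hr, div_le_one hE0']
      have : a ^ 4 * 1 ≤ a ^ 4 * E := mul_le_mul_of_nonneg_left hE1 (by positivity)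
      linarith
    have hrE : r * E ≤ (n : ℝ) ^ (-(2 * δ)) := by
      have e1 : (n : ℝ) ^ (-(2 * δ)) = (a ^ 2)⁻¹ := by
        rw [Real.rpow_neg hn0.le, ha, ← Real.rpow_natCast, ← Real.rpow_mul hn0.le]
        congr 2
        push_cast
        ring
      rw [e1, hr, le_inv_comm₀ (by positivity) (by positivity), div_mul_eq_mul_div, inv_div, le_div_iff₀ (by positivity)]
      calc a ^ 2 * (4 * a ^ 2 * E) = 4 * a ^ 4 * E := by ring
        _ ≤ E' := hcase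
    have A1 := hA r (by rw [abs_of_pos hr0, ← hE]; exact hrE)
    have A2 := hA (-r) (by rw [abs_neg, abs_of_pos hr0, ← hE]; exact hrE)
    have A3 := hA 0 (by rw [abs_zero, zero_mul]; exact Real.rpow_nonneg hn0.le _)
    obtain ⟨Ψ, hΨ⟩ : ∃ Ψ : ℝ → ℝ, Ψ = Psi (law μ) m v (fun η k => W μ s η 0 n (y₀ + ((k : ℕ) : ℤ))) := ⟨_, rfl⟩
    rw [← hΨ, ← hE] at A1 A2 A3
    have hmE : (m : ℝ) ≤ a ^ 2 * E ^ 2 := by
      have h1 := hL n g3
      rw [← ha, ← hE] at h1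
      calc (m : ℝ) ≤ a * wd μ s n := hmw
        _ ≤ a * (a * E ^ 2) := mul_le_mul_of_nonneg_left h1 ha0.le
        _ = a ^ 2 * E ^ 2 := by ring
    have hv0 : 0 < (v : ℝ) := lt_of_lt_of_le (by positivity) hva
    have hvne : v ≠ 0 := by
      intro h0
      rw [h0] at hv0
      simp at hv0
    have hq1 : (m : ℝ) * r ^ 2 / v ≤ 1 := by
      rw [div_le_one hv0]
      refine le_trans ?_ hva
      have h1 : (m : ℝ) * r ^ 2 ≤ a ^ 2 * E ^ 2 * r ^ 2 := mul_le_mul_of_nonneg_right hmE (by positivity)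
      have h2 : E * r ≤ (a ^ 2)⁻¹ := by
        have e1 : (n : ℝ) ^ (-(2 * δ)) = (a ^ 2)⁻¹ := by
          rw [Real.rpow_neg hn0.le, ha, ← Real.rpow_natCast, ← Real.rpow_mul hn0.le]
          congr 2
          push_cast
          ring
        rw [← e1, mul_comm]
        exact hrE
      have h3 : (E * r) ^ 2 ≤ ((a ^ 2)⁻¹) ^ 2 := pow_le_pow_left₀ (by positivity) h2 2
      have h4 : a ^ 2 * ((a ^ 2)⁻¹) ^ 2 ≤ a⁻¹ := by
        have e2 : a ^ 2 * ((a ^ 2)⁻¹) ^ 2 = (a ^ 2)⁻¹ := by field_simp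
        rw [e2]
        exact inv_anti₀ ha0 (le_self_pow₀ ha1 (by norm_num))
      calc (m : ℝ) * r ^ 2 ≤ a ^ 2 * (E * r) ^ 2 := by rw [mul_pow]; linarith
        _ ≤ a ^ 2 * ((a ^ 2)⁻¹) ^ 2 := mul_le_mul_of_nonneg_left h3 (by positivity)
        _ ≤ a⁻¹ := h4
    have hP := psi17 (ν := law μ) (m := m) (P := fun η k => W μ s η 0 n (y₀ + ((k : ℕ) : ℤ))) hvne hm1
      (fun k => measurable_W 0 n _) (fun η k => W_nonneg η 0 n _) (fun η => by
        refine Finset.sum_pos' (fun k _ => W_nonneg η 0 n _) ⟨0, Finset.mem_univ _, W_pos η 0 ?_ ?_⟩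
        · simpa using hy0
        · simp only [Fin.val_zero, Nat.cast_zero, add_zero]
          omega) hq1
    rw [← hΨ] at hP
    obtain ⟨q, hq⟩ : ∃ q : ℝ, q = (n : ℝ) ^ (-c') := ⟨_, rfl⟩
    have hq0 : 0 ≤ q := by rw [hq]; exact Real.rpow_nonneg hn0.le _
    rw [← hq] at A1 A2 A3
    -- the excess
    have hX := ex_wd17 h g1' hr0.le hr1
    have hUU := hU n' (g4.trans hnn')
    rw [← hE'] at hX hUU
    have hUU2 : E' ^ 2 ≤ a ^ 2 * wd μ s n' := by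
      refine hUU.trans (mul_le_mul_of_nonneg_right hna' ?_)
      have h1 : 0 < (n' : ℝ) ^ δ := Real.rpow_pos_of_pos hn0' _
      by_contra hcon
      push Not at hcon
      have h2 : (n' : ℝ) ^ δ * wd μ s n' < 0 := mul_neg_of_pos_of_neg h1 hcon
      nlinarith
    have hX2 : E' / n' ≤ ex μ s r + ex μ s (-r) := by
      have h1 : 2 * (E' / n') ≤ r * (wd μ s n' / (2 * n')) := by
        have e1 : r * (wd μ s n' / (2 * n')) = 2 * ((a ^ 2 * wd μ s n') / (E' * n')) := by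
          rw [hr]
          field_simp
          ring
        have e2 : E' / n' = E' ^ 2 / (E' * n') := by
          field_simp
        rw [e1, e2]
        refine mul_le_mul_of_nonneg_left ?_ (by norm_num)
        exact div_le_div_of_nonneg_right hUU2 (by positivity)
      linarith
    have hFeq : n * (ex μ s r + ex μ s (-r)) = (n * (lam μ (s + r) - lam μ s) - K₀ - K₁ * r - Ψ r) +
        (n * (lam μ (s + -r) - lam μ s) - K₀ - K₁ * -r - Ψ (-r)) -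
        2 * (n * (lam μ (s + 0) - lam μ s) - K₀ - K₁ * 0 - Ψ 0) + (Ψ r + Ψ (-r) - 2 * Ψ 0) := by
      unfold ex
      rw [add_zero]
      ring
    have B1 := (abs_le.1 A1).2
    have B2 := (abs_le.1 A2).2
    have B3 := (abs_le.1 A3).1
    have B4 := (abs_le.1 hP).2
    have hnum := num17 (n := n) (n' := n') (E := E) (E' := E') (a := a) (K := K) (q := q) (m := m) (v := v)
      (F := n * (ex μ s r + ex μ s (-r))) hn0 hn0' hE0 ha1 hcase hmE hva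
      (mul_le_mul_of_nonneg_left hX2 hn0.le) (by
        rw [hFeq, ← hr]
        linarith) (by
        rw [hq]
        have h1 : (n' : ℝ) / n ≤ (n : ℝ) ^ c' := by
          rw [div_le_iff₀ hn0]
          refine hn'.trans ?_
          rw [add_comm, Real.rpow_add hn0, Real.rpow_one]
          exact mul_le_mul_of_nonneg_right (Real.rpow_le_rpow_of_exponent_le hnR (min_le_left _ _)) hn0.le
        calc (n : ℝ) ^ (-c') * (n' / n) ≤ (n : ℝ) ^ (-c') * (n : ℝ) ^ c' :=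
              mul_le_mul_of_nonneg_left h1 (Real.rpow_nonneg hn0.le _)
          _ = 1 := by
              rw [← Real.rpow_add hn0]
              simp) hq0 (by
        have h1 := (hK n n' g1 hnn').2.2
        rw [(hn₂ n g2).2.1, (hn₂ n' (g2.trans hnn')).2.1, ← hE, ← hE'] at h1
        have h2 := pow_le_pow_left₀ hE0'.le h1 2
        have h3 : (K * Real.sqrt ((n' : ℝ) / n) * E) ^ 2 = K ^ 2 * ((n' : ℝ) / n) * E ^ 2 := by
          rw [mul_pow, mul_pow, Real.sq_sqrt (by positivity)]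
        linarith)
    refine hnum.trans (fin _ ?_)
    nlinarith

/-- **The upper half**: the units are at most of the order `n ^ (1/3 + o(1))`. -/
theorem third17 (h : In μ s c C n₀) (hL : LB20 μ s) (hU : UB20 μ s) (hM : LMB17 μ s) {ε : ℝ} (hε : 0 < ε) :
    ∀ᶠ n : ℕ in atTop, EE μ s n ≤ (n : ℝ) ^ (1 / 3 + ε) := by
  obtain ⟨c₁, hc₁, h1⟩ := core17 h hL hU hM
  have h2 := iter17 (a := fun n => EE μ s n ^ 3 / n) (fun n => by
    have := EE_pos (μ := μ) (s := s) n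
    positivity) hc₁ h1 (show 0 < 3 * ε by positivity)
  filter_upwards [h2, eventually_ge_atTop 1] with n g1 g2
  have hn : (0 : ℝ) < n := by exact_mod_cast g2
  have hE := EE_pos (μ := μ) (s := s) n
  rw [div_le_iff₀ hn] at g1
  have e1 : (n : ℝ) ^ (3 * ε) * n = (n : ℝ) ^ (3 * ε + 1) := by
    rw [Real.rpow_add hn, Real.rpow_one]
  rw [e1] at g1
  have g3 := Real.rpow_le_rpow (by positivity) g1 (show (0 : ℝ) ≤ 1 / 3 by norm_num)
  rw [← Real.rpow_natCast (EE μ s n) 3, ← Real.rpow_mul hE.le, ← Real.rpow_mul hn.le] at g3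
  norm_num at g3
  rw [show (1 : ℝ) / 3 + ε = (3 * ε + 1) * (1 / 3) by ring]
  exact g3

end core

end

end Pool.Agent.W_7d29a1_C1
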