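import Pool.Agent.W_7d29a1_C1.Psi17
import Pool.Agent.W_7d29a1_C1.Pure17
import Pool.Agent.W_7d29a1_HS.Defs
import Pool.Agent.W_7d29a1_HZ.Z94_TiltB
import Pool.Agent.W_7d29a1_L.LsA1

/-!
MP_7d29a1_pr, attractor route (helper17): the end in the finite horizon form, with objects of one tilt only. `FM17 μ s n h` is the mean
free energy of the paths of length `n` at the tilt `s` with the additional force `h` (relative to the direction of `s`). If its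
increments over `n` rows are, up to a smaller power of the unit, the free energy of the point to point masses seen through a Gaussian
walk (`LMF17`), then the units are at most of the order `n ^ (1/3 + o(1))`.
-/

set_option autoImplicit false

namespace Pool.Agent.W_7d29a1_C1

open MeasureTheory ProbabilityTheory Filter Topology
open Pool.Agent.W_7d29a1_F Pool.Agent.W_7d29a1_h4g Pool.Agent.W_7d29a1_H Pool.Agent.W_7d29a1_HS
open Pool.Agent.W_7d29a1_L (T kap exp_T)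
open scoped ENNReal NNReal

noncomputable section

/-- The mean free energy of `n` rows at the tilt `s` with the additional force `h`. -/
def FM17 (μ : Measure ℝ) (s : ℝ) (n : ℕ) (h : ℝ) : ℝ := ∫ η, T μ s (sl μ s) h η 0 n ∂(law μ)

/-- **The loss of memory, finite horizon.** There is a window of `m` sites at the time `n` and a Gaussian walk of variance `v` per step
such that for `n ≤ N ≤ n ^ (1 + c)` and `n ^ (1 + δ) ≤ M ≤ N` the increment of the mean free energy from `M` to `n + M` rows is, as a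
function of the force `h`, an affine function plus the free energy of the masses of the window seen through the walk, up to
`n ^ (- c) EE n`; for the forces `|h| EE n ≤ n ^ (- 2 δ)`, `|h| EE N ≤ N ^ κ` (`κ` may be much smaller than `δ`). -/
def LMF17 (μ : Measure ℝ) (s : ℝ) : Prop :=
  ∃ c : ℝ, 0 < c ∧ ∀ δ : ℝ, 0 < δ → ∃ κ : ℝ, 0 < κ ∧ κ ≤ δ ∧ ∀ᶠ n : ℕ in atTop, ∃ (y₀ : ℤ) (m : ℕ) (v : ℝ≥0),
    0 ≤ y₀ ∧ 1 ≤ m ∧ y₀ + m ≤ n ∧ (m : ℝ) ≤ (n : ℝ) ^ δ * wd μ s n ∧ (n : ℝ) ^ (-δ) ≤ (v : ℝ) ∧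
    ∀ N : ℕ, n ≤ N → (N : ℝ) ≤ (n : ℝ) ^ (1 + c) → ∀ M : ℕ, (n : ℝ) ^ (1 + δ) ≤ M → M ≤ N → ∃ K₀ K₁ : ℝ,
      ∀ h : ℝ, |h| * EE μ s n ≤ (n : ℝ) ^ (-(2 * δ)) → |h| * EE μ s N ≤ (N : ℝ) ^ κ →
        |FM17 μ s (n + M) h - FM17 μ s M h - K₀ - K₁ * h -
          Psi (law μ) m v (fun η k => W μ s η 0 n (y₀ + ((k : ℕ) : ℤ))) h| ≤ (n : ℝ) ^ (-c) * EE μ s n

/-- The lower bound of the variance (`LB20` of `W_7d29a1_LB`, repeated here to keep the imports short). -/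
def LB17 (μ : Measure ℝ) (s : ℝ) : Prop :=
  ∀ ε : ℝ, 0 < ε → ∃ n₁ : ℕ, ∀ n : ℕ, n₁ ≤ n → wd μ s n ≤ (n : ℝ) ^ ε * EE μ s n ^ 2

/-- The upper bound of the variance (`UB20` of `W_7d29a1_LB`). -/
def UB17 (μ : Measure ℝ) (s : ℝ) : Prop :=
  ∀ ε : ℝ, 0 < ε → ∃ n₁ : ℕ, ∀ n : ℕ, n₁ ≤ n → EE μ s n ^ 2 ≤ (n : ℝ) ^ ε * wd μ s n

/-- The unit grows at most like a square root (from `EE'_pow` of `W_7d29a1_HZ`). -/
def Gr17 (μ : Measure ℝ) (s : ℝ) : Prop :=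
  ∃ (K : ℝ) (n₁ : ℕ), 1 ≤ K ∧ ∀ m n : ℕ, n₁ ≤ m → 1 ≤ m → m ≤ n → EE μ s n ≤ K * Real.sqrt ((n : ℝ) / m) * EE μ s m

/-- **The lower half in the form of a window**: for every `ε` there is `M` such that every window of scales `[R, R ^ M]` has a scale `r`
with `r ^ (1/3) ≤ R ^ ε EE r`. -/
def CVF17 (μ : Measure ℝ) (s : ℝ) : Prop :=
  ∀ ε : ℝ, 0 < ε → ∃ M : ℝ, 1 ≤ M ∧ ∀ᶠ R : ℕ in atTop, ∃ r : ℕ, R ≤ r ∧ (r : ℝ) ≤ (R : ℝ) ^ M ∧
    (r : ℝ) ^ (1 / 3 : ℝ) ≤ (R : ℝ) ^ ε * EE μ s r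

/-! ### Pure part -/

/-- The contribution of one block. -/
theorem blkF17 {E a r m v : ℝ} (hE : 0 < E) (ha : 1 ≤ a) (hm : m ≤ a ^ 5 * E ^ 2) (hv : (a ^ 4)⁻¹ ≤ v) :
    7 * m * r ^ 2 * Real.sqrt (m / v) ≤ 7 * (a ^ 5 * E ^ 2) * r ^ 2 * (a ^ 5 * E) := by
  have ha0 : 0 < a := by linarith
  have hv0 : 0 < v := lt_of_lt_of_le (by positivity) hv
  have hs : Real.sqrt (m / v) ≤ a ^ 5 * E := by
    rw [Real.sqrt_le_left (by positivity)]
    rw [div_le_iff₀ hv0]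
    have h1 : (a ^ 5 * E) ^ 2 * (a ^ 4)⁻¹ ≤ (a ^ 5 * E) ^ 2 * v := mul_le_mul_of_nonneg_left hv (by positivity)
    have h2 : (a ^ 5 * E) ^ 2 * (a ^ 4)⁻¹ = a ^ 6 * E ^ 2 := by
      field_simp
    have h3 : a ^ 5 * E ^ 2 ≤ a ^ 6 * E ^ 2 := by
      have : a ^ 5 ≤ a ^ 6 := pow_le_pow_right₀ ha (by norm_num)
      exact mul_le_mul_of_nonneg_right this (by positivity)
    linarith
  refine mul_le_mul ?_ hs (Real.sqrt_nonneg _) (by positivity)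
  refine mul_le_mul_of_nonneg_right ?_ (by positivity)
  linarith

/-- The numbers of one step. -/
theorem numF17 {n N E E' a K R q F B : ℝ} (hn : 0 < n) (hN : 0 < N) (hE : 0 < E) (ha : 1 ≤ a)
    (h4 : a ^ 12 * E ≤ E') (hF : E' ≤ F) (hB : B ≤ E' / 2)
    (hF2 : F ≤ B + N / n * (7 * (a ^ 5 * E ^ 2) * (R * a ^ 2 / E') ^ 2 * (a ^ 5 * E) + 4 * (q * E)))
    (hq : q * (N / n) ≤ 1) (hq0 : 0 ≤ q) (hK : E' ^ 2 ≤ K ^ 2 * (N / n) * E ^ 2) :
    E' ^ 3 / N ≤ (14 * R ^ 2 * a ^ 14 + 8 * K ^ 2) * (E ^ 3 / n) := by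
  have ha0 : 0 < a := by linarith
  have hE' : 0 < E' := lt_of_lt_of_le (by positivity) h4
  have h6 : 7 * (a ^ 5 * E ^ 2) * (R * a ^ 2 / E') ^ 2 * (a ^ 5 * E) = 7 * R ^ 2 * a ^ 14 * E ^ 3 / E' ^ 2 := by
    field_simp
  rw [h6] at hF2
  have hNn : 0 < N / n := by positivity
  have h7 : E' / 2 ≤ N / n * (7 * R ^ 2 * a ^ 14 * E ^ 3 / E' ^ 2 + 4 * (q * E)) := by linarith
  have h8 : E' / 2 * E' ^ 2 ≤ N / n * (7 * R ^ 2 * a ^ 14 * E ^ 3 / E' ^ 2 + 4 * (q * E)) * E' ^ 2 :=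
    mul_le_mul_of_nonneg_right h7 (by positivity)
  have h9 : N / n * (7 * R ^ 2 * a ^ 14 * E ^ 3 / E' ^ 2 + 4 * (q * E)) * E' ^ 2 =
      N / n * (7 * R ^ 2 * a ^ 14 * E ^ 3 + 4 * (q * E) * E' ^ 2) := by
    field_simp
  have h10 : 4 * (q * E) * E' ^ 2 ≤ 4 * (q * E) * (K ^ 2 * (N / n) * E ^ 2) :=
    mul_le_mul_of_nonneg_left hK (by positivity)
  have h11 : 4 * (q * E) * (K ^ 2 * (N / n) * E ^ 2) = (q * (N / n)) * (4 * K ^ 2 * E ^ 3) := by ring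
  have h12 : (q * (N / n)) * (4 * K ^ 2 * E ^ 3) ≤ 1 * (4 * K ^ 2 * E ^ 3) := mul_le_mul_of_nonneg_right hq (by positivity)
  have h13 : E' ^ 3 ≤ N / n * ((14 * R ^ 2 * a ^ 14 + 8 * K ^ 2) * E ^ 3) := by
    have h14 : E' / 2 * E' ^ 2 ≤ N / n * (7 * R ^ 2 * a ^ 14 * E ^ 3 + 4 * K ^ 2 * E ^ 3) := by
      rw [h9] at h8
      rw [h11] at h10
      refine h8.trans (mul_le_mul_of_nonneg_left ?_ hNn.le)
      linarith
    have e1 : E' / 2 * E' ^ 2 = E' ^ 3 / 2 := by ring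
    have e2 : N / n * (7 * R ^ 2 * a ^ 14 * E ^ 3 + 4 * K ^ 2 * E ^ 3) = N / n * ((14 * R ^ 2 * a ^ 14 + 8 * K ^ 2) * E ^ 3) / 2 := by
      ring
    rw [e1, e2] at h14
    linarith
  rw [div_le_iff₀ hN]
  calc E' ^ 3 ≤ N / n * ((14 * R ^ 2 * a ^ 14 + 8 * K ^ 2) * E ^ 3) := h13
    _ = (14 * R ^ 2 * a ^ 14 + 8 * K ^ 2) * (E ^ 3 / n) * N := by ring

section core

variable {μ : Measure ℝ} {s : ℝ} [IsProbabilityMeasure μ] {c C : ℝ} {n₀ : ℕ}

theorem T_int17 (h : In μ s c C n₀) (r : ℝ) (a : Pt) (n : ℕ) : Integrable (fun η => T μ s (sl μ s) r η a n) (law μ) := by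
  unfold T
  exact (V_int h.em (s + r) a n).add (integrable_const _)

/-- The mean free energy is at most `n ex (r)`. -/
theorem FM_le17 (h : In μ s c C n₀) (n : ℕ) (r : ℝ) : FM17 μ s n r ≤ n * ex μ s r := by
  unfold FM17 T
  rw [integral_add (V_int h.em (s + r) 0 n) (integrable_const _), integral_const]
  have h1 := V_mean_le h.em (s + r) n
  have h2 : kap μ s (sl μ s) r = ex μ s r := rfl
  rw [h2]
  simp only [probReal_univ, smul_eq_mul, one_mul]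
  linarith

/-- The force `0`. -/
theorem FM_zero17 (h : In μ s c C n₀) (n : ℕ) : -EE μ s n ≤ FM17 μ s n 0 ∧ FM17 μ s n 0 ≤ 0 := by
  have h1 : FM17 μ s n 0 = ∫ η, V μ s η 0 n ∂(law μ) := by
    unfold FM17 T kap
    simp
  rw [h1]
  have h2 := V_mean_ge h.em s n
  have h3 := V_mean_le h.em s n
  have h4 := le_EE (μ := μ) (s := s) (le_refl n)
  constructor <;> linarith

/-- Lower bound by one displacement. -/
theorem FM_ge17 (h : In μ s c C n₀) {n : ℕ} {y : ℤ} (h0 : 0 ≤ y) (h1 : y ≤ n) (r : ℝ) :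
    r * ((y : ℝ) - sl μ s * n) - ep μ s n y ≤ FM17 μ s n r := by
  have h2 : ∀ η, r * ((y : ℝ) - sl μ s * n) - X μ s η 0 n y ≤ T μ s (sl μ s) r η 0 n := by
    intro η
    have h3 := W_pos (μ := μ) (s := s) η 0 h0 h1
    have h4 : W μ s η 0 n y * Real.exp (r * ((y : ℝ) - sl μ s * n)) ≤ Real.exp (T μ s (sl μ s) r η 0 n) := by
      rw [exp_T]
      exact Finset.single_le_sum (f := fun y : ℤ => W μ s η 0 n y * Real.exp (r * ((y : ℝ) - sl μ s * n)))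
        (fun i _ => mul_nonneg (W_nonneg η 0 n i) (Real.exp_pos _).le) (Finset.mem_Icc.2 ⟨h0, h1⟩)
    have h5 := Real.log_le_log (mul_pos h3 (Real.exp_pos _)) h4
    rw [Real.log_mul h3.ne' (Real.exp_pos _).ne', Real.log_exp, Real.log_exp] at h5
    unfold X
    linarith
  have h6 : ∫ η, (r * ((y : ℝ) - sl μ s * n) - X μ s η 0 n y) ∂(law μ) ≤ FM17 μ s n r :=
    integral_mono ((integrable_const _).sub (X_int h.em s 0 h0 h1)) (T_int17 h r 0 n) h2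
  rw [integral_sub (integrable_const _) (X_int h.em s 0 h0 h1), integral_const] at h6
  have h7 : ∫ η, X μ s η 0 n y ∂(law μ) = e μ s n y := rfl
  have h8 := e_le_ep h.em s h0 h1
  rw [h7] at h6
  simp only [probReal_univ, smul_eq_mul, one_mul] at h6
  linarith

/-- Lower bound of the second difference in the force. -/
theorem FM_low17 (h : In μ s c C n₀) : ∃ n₁ : ℕ, ∀ n, n₁ ≤ n → ∀ r : ℝ, 0 ≤ r →
    2 * (r * (c * wd μ s n) - r - C * EE μ s n) ≤ FM17 μ s n r + FM17 μ s n (-r) := by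
  obtain ⟨H, δ, hD⟩ := h.dir
  have hlo := hD.lo s (Set.mem_singleton s)
  have hhi := hD.hi s (Set.mem_singleton s)
  have hδ := hD.δ0
  have hv := h.tv
  rw [Metric.tendsto_atTop] at hv
  obtain ⟨n₂, hn₂⟩ := hv (δ / 2) (by positivity)
  obtain ⟨n₃, hn₃⟩ := exists_nat_ge (2 / δ)
  refine ⟨max (max n₀ n₂) (max n₃ 1), fun n hn r hr => ?_⟩
  have g1 : 1 ≤ n := by omega
  have hn0 : (0 : ℝ) < n := by exact_mod_cast g1
  have hvn := hn₂ n (by omega)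
  rw [Real.dist_eq, sub_zero] at hvn
  have hvn2 := (abs_lt.1 hvn).2
  have hn3 : 2 / δ ≤ n := hn₃.trans (by exact_mod_cast (by omega : n₃ ≤ n))
  have hn3' : 2 ≤ δ * n := by
    rw [div_le_iff₀ hδ] at hn3
    linarith
  have hva : 0 ≤ vA 1 μ s n := (h.vA_pos g1).le
  obtain ⟨w, hw⟩ : ∃ w : ℝ, w = c * wd μ s n := ⟨_, rfl⟩
  have hw0 : 0 ≤ w := by
    rw [hw]
    unfold wd
    have := h.c0
    positivity
  have hw1 : w ≤ δ / 2 * n := by
    rw [hw]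
    unfold wd
    have h1 : c * (n * vA 1 μ s n) ≤ 1 * (n * vA 1 μ s n) := mul_le_mul_of_nonneg_right h.c1 (by positivity)
    have h2 : n * vA 1 μ s n ≤ n * (δ / 2) := mul_le_mul_of_nonneg_left hvn2.le hn0.le
    linarith
  have hwe : c * vA 1 μ s n * n = w := by
    rw [hw]
    unfold wd
    ring
  rw [← hw]
  have key : ∀ y : ℤ, |(y : ℝ) - sl μ s * n| ≤ w + 1 → 0 ≤ y ∧ y ≤ n ∧ ep μ s n y ≤ C * EE μ s n := by
    intro y hy
    have h1 := (abs_le.1 hy).1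
    have h2 := (abs_le.1 hy).2
    have h3 : δ * n ≤ sl μ s * n := mul_le_mul_of_nonneg_right hlo hn0.le
    have h4 : sl μ s * n ≤ (1 - δ) * n := mul_le_mul_of_nonneg_right hhi hn0.le
    have h5 : (0 : ℝ) ≤ y := by linarith
    have h6 : (y : ℝ) ≤ n := by linarith
    have h5' : 0 ≤ y := by exact_mod_cast h5
    have h6' : y ≤ n := by exact_mod_cast h6
    refine ⟨h5', h6', h.inn n (by omega) n y (by omega) h5' h6' ?_⟩
    rw [hwe]
    exact hy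
  obtain ⟨y1, hy1⟩ : ∃ y1 : ℤ, y1 = ⌊sl μ s * n + w⌋ := ⟨_, rfl⟩
  obtain ⟨y2, hy2⟩ : ∃ y2 : ℤ, y2 = ⌈sl μ s * n - w⌉ := ⟨_, rfl⟩
  have a1 : (y1 : ℝ) ≤ sl μ s * n + w := by rw [hy1]; exact Int.floor_le _
  have a2 : sl μ s * n + w < y1 + 1 := by rw [hy1]; exact Int.lt_floor_add_one _
  have a3 : sl μ s * n - w ≤ (y2 : ℝ) := by rw [hy2]; exact Int.le_ceil _
  have a4 : (y2 : ℝ) < sl μ s * n - w + 1 := by rw [hy2]; exact Int.ceil_lt_add_one _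
  obtain ⟨b1, b2, b3⟩ := key y1 (by rw [abs_le]; constructor <;> linarith)
  obtain ⟨b4, b5, b6⟩ := key y2 (by rw [abs_le]; constructor <;> linarith)
  have d1 := FM_ge17 h b1 b2 r
  have d2 := FM_ge17 h b4 b5 (-r)
  have d3 : r * (w - 1) ≤ r * ((y1 : ℝ) - sl μ s * n) := mul_le_mul_of_nonneg_left (by linarith) hr
  have d4 : r * (w - 1) ≤ -r * ((y2 : ℝ) - sl μ s * n) := by
    have : -r * ((y2 : ℝ) - sl μ s * n) = r * (sl μ s * n - y2) := by ring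
    rw [this]
    exact mul_le_mul_of_nonneg_left (by linarith) hr
  linarith

/-- The second difference of the mean free energy in the force. -/
def D17 (μ : Measure ℝ) (s : ℝ) (n : ℕ) (r : ℝ) : ℝ := FM17 μ s n r + FM17 μ s n (-r) - 2 * FM17 μ s n 0

/-- A short horizon. -/
theorem D_short17 (h : In μ s c C n₀) {n : ℕ} (hn : 1 ≤ n) {r : ℝ} (hr : |r| ≤ 1) (hrw : |r| * wd μ s n ≤ EE μ s n) :
    D17 μ s n r ≤ 4 * EE μ s n := by
  have h1 := FM_le17 h n r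
  have h2 := FM_le17 h n (-r)
  have h3 := (FM_zero17 h n).1
  have h4 := Pool.Agent.W_7d29a1_HZ.Z94.ex_le_EE h hn hr hrw
  have h5 := Pool.Agent.W_7d29a1_HZ.Z94.ex_le_EE h hn (t := -r) (by rwa [abs_neg]) (by rwa [abs_neg])
  unfold D17
  linarith

omit [IsProbabilityMeasure μ] in
/-- A length as a first block plus blocks of `n` rows. -/
theorem split17 {n P N : ℕ} (hn : 1 ≤ n) (hPN : P + n ≤ N) : ∃ L M₀ : ℕ, M₀ + L * n = N ∧ P ≤ M₀ ∧ M₀ < P + n := by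
  have h1 : (N - P) / n * n ≤ N - P := Nat.div_mul_le_self _ _
  have h2 : N - P < (N - P) / n * n + n := Nat.lt_div_mul_add (a := N - P) (b := n) (by omega)
  refine ⟨(N - P) / n, N - (N - P) / n * n, ?_, ?_, ?_⟩ <;> omega

omit [IsProbabilityMeasure μ] in
/-- The telescope of the second differences over the blocks. -/
theorem tele17 (n M₀ L : ℕ) (r : ℝ) : D17 μ s (M₀ + L * n) r =
    D17 μ s M₀ r + ∑ l ∈ Finset.range L, (D17 μ s (n + (M₀ + l * n)) r - D17 μ s (M₀ + l * n) r) := by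
  have h1 := Finset.sum_range_sub (fun l => D17 μ s (M₀ + l * n) r) L
  have h2 : ∀ l : ℕ, n + (M₀ + l * n) = M₀ + (l + 1) * n := by
    intro l
    ring
  simp only [h2]
  rw [h1, zero_mul, add_zero]
  ring

omit [IsProbabilityMeasure μ] in
/-- The second difference of one block. -/
theorem dblk17 {n M m : ℕ} {v : ℝ≥0} {P : Env → Fin (m + 1) → ℝ} {K₀ K₁ r B : ℝ}
    (h0 : |FM17 μ s (n + M) 0 - FM17 μ s M 0 - K₀ - K₁ * 0 - Psi (law μ) m v P 0| ≤ B)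
    (h1 : |FM17 μ s (n + M) r - FM17 μ s M r - K₀ - K₁ * r - Psi (law μ) m v P r| ≤ B)
    (h2 : |FM17 μ s (n + M) (-r) - FM17 μ s M (-r) - K₀ - K₁ * -r - Psi (law μ) m v P (-r)| ≤ B) :
    |D17 μ s (n + M) r - D17 μ s M r -
      (Psi (law μ) m v P r + Psi (law μ) m v P (-r) - 2 * Psi (law μ) m v P 0)| ≤ 4 * B := by
  rw [abs_le] at h0 h1 h2 ⊢
  unfold D17
  constructor <;> linarith [h0.1, h0.2, h1.1, h1.2, h2.1, h2.2]

/-- **One step**, finite horizon. -/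
theorem coreF17 (h : In μ s c C n₀) (hG : Gr17 μ s) (hL : LB17 μ s) (hU : UB17 μ s) (hM : LMF17 μ s) :
    ∃ c₁ : ℝ, 0 < c₁ ∧ ∀ ε : ℝ, 0 < ε → ∃ n₁ : ℕ, ∀ n, n₁ ≤ n → ∀ n' : ℕ, n ≤ n' → (n' : ℝ) ≤ (n : ℝ) ^ (1 + c₁) →
      EE μ s n' ^ 3 / n' ≤ (n : ℝ) ^ ε * (EE μ s n ^ 3 / n) := by
  obtain ⟨c', hc', hM⟩ := hM
  obtain ⟨K, n₂, hK1, hK⟩ := hG
  obtain ⟨n₆, hlow⟩ := FM_low17 h
  have hc0 := h.c0
  have hC1 := h.C1
  obtain ⟨R, hR⟩ : ∃ R : ℝ, R = (C + 2) / c := ⟨_, rfl⟩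
  have hR0 : 0 < R := by rw [hR]; positivity
  have hRc : R * c = C + 2 := by
    rw [hR]
    field_simp
  refine ⟨min c' 1, lt_min hc' one_pos, fun ε hε => ?_⟩
  obtain ⟨δ, hδ⟩ : ∃ δ : ℝ, δ = ε / 72 := ⟨_, rfl⟩
  have hδ0 : 0 < δ := by rw [hδ]; positivity
  obtain ⟨κ, hκ0, hκδ, hM⟩ := hM (4 * δ) (by positivity)
  obtain ⟨θ, hθ⟩ : ∃ θ : ℝ, θ = κ / 4 := ⟨_, rfl⟩
  have hθ0 : 0 < θ := by rw [hθ]; positivity
  have hθδ : θ ≤ δ := by rw [hθ]; linarith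
  obtain ⟨n₃, hL⟩ := hL θ hθ0
  obtain ⟨n₄, hU⟩ := hU θ hθ0
  have ev := hM.and ((ev_pow17 (1 + 14 * R ^ 2 + 8 * K ^ 2) (show 0 < ε / 2 by positivity)).and
    (ev_pow17 (R + 16 * K + 2) hθ0))
  obtain ⟨n₅, h5⟩ := eventually_atTop.1 ev
  refine ⟨max (max n₂ n₃) (max n₄ (max (max n₅ n₆) 1)), fun n hn N hnN hN => ?_⟩
  have g2 : n₂ ≤ n := by omega
  have g3 : n₃ ≤ n := by omega
  have g4 : n₄ ≤ n := by omega
  have g5 : n₅ ≤ n := by omega
  have g6 : n₆ ≤ n := by omega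
  have g1 : 1 ≤ n := by omega
  have g1' : 1 ≤ N := by omega
  obtain ⟨⟨y₀, m, v, hy0, hm1, hym, hmw, hv, hM⟩, hbig, hbig2⟩ := h5 n g5
  have hnR : (1 : ℝ) ≤ n := by exact_mod_cast g1
  have hnR' : (1 : ℝ) ≤ N := by exact_mod_cast g1'
  have hnn : (n : ℝ) ≤ N := by exact_mod_cast hnN
  have hn0 : (0 : ℝ) < n := by linarith
  have hn0' : (0 : ℝ) < N := by linarith
  obtain ⟨a, ha⟩ : ∃ a : ℝ, a = (n : ℝ) ^ δ := ⟨_, rfl⟩
  obtain ⟨b, hb⟩ : ∃ b : ℝ, b = (n : ℝ) ^ θ := ⟨_, rfl⟩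
  rw [← hb] at hbig2
  have hb1 : 1 ≤ b := by rw [hb]; exact Real.one_le_rpow hnR hθ0.le
  have hb0 : 0 < b := by linarith
  have hba : b ≤ a := by rw [hb, ha]; exact Real.rpow_le_rpow_of_exponent_le hnR hθδ
  have hba2 : b ^ 2 ≤ a ^ 2 := pow_le_pow_left₀ hb0.le hba 2
  have ha1 : 1 ≤ a := by rw [ha]; exact Real.one_le_rpow hnR hδ0.le
  have ha0 : 0 < a := by linarith
  have hRb : R ≤ b := by linarith
  have hRa : R ≤ a := by linarith
  have hKa : 16 * K ≤ a := by linarith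
  have ha2 : 2 ≤ a := by linarith
  obtain ⟨E, hE⟩ : ∃ E : ℝ, E = EE μ s n := ⟨_, rfl⟩
  obtain ⟨E', hE'⟩ : ∃ E' : ℝ, E' = EE μ s N := ⟨_, rfl⟩
  have hE1 : 1 ≤ E := by rw [hE]; exact one_le_EE n
  have hE0 : 0 < E := by linarith
  have hE1' : 1 ≤ E' := by rw [hE']; exact one_le_EE N
  have hE0' : 0 < E' := by linarith
  rw [← hE, ← hE']
  have hpa : ∀ k : ℕ, (n : ℝ) ^ ((k : ℝ) * δ) = a ^ k := by
    intro k
    rw [ha, ← Real.rpow_natCast, ← Real.rpow_mul hn0.le]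
    congr 1
    ring
  have hpb : ∀ k : ℕ, (n : ℝ) ^ ((k : ℝ) * θ) = b ^ k := by
    intro k
    rw [hb, ← Real.rpow_natCast, ← Real.rpow_mul hn0.le]
    congr 1
    ring
  -- `M ^ θ ≤ b ^ 2` for `M ≤ N`
  have hNn2 : (N : ℝ) ≤ (n : ℝ) ^ (2 : ℝ) :=
    hN.trans (Real.rpow_le_rpow_of_exponent_le hnR (by linarith [min_le_right c' 1]))
  have hMd : ∀ M : ℕ, M ≤ N → (M : ℝ) ^ θ ≤ b ^ 2 := by
    intro M hM
    have h1 : (M : ℝ) ≤ (n : ℝ) ^ (2 : ℝ) := (by exact_mod_cast hM : (M : ℝ) ≤ N).trans hNn2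
    calc (M : ℝ) ^ θ ≤ ((n : ℝ) ^ (2 : ℝ)) ^ θ := Real.rpow_le_rpow (Nat.cast_nonneg _) h1 hθ0.le
      _ = b ^ 2 := by
          rw [← Real.rpow_mul hn0.le]
          exact_mod_cast hpb 2
  have ha36 : a ^ 36 = (n : ℝ) ^ (ε / 2) := by
    rw [← hpa 36, hδ]
    congr 1
    push_cast
    ring
  have hee : (n : ℝ) ^ ε = (n : ℝ) ^ (ε / 2) * a ^ 36 := by
    rw [ha36, ← Real.rpow_add hn0]
    ring_nf
  have fin : ∀ X : ℝ, X ≤ (1 + 14 * R ^ 2 + 8 * K ^ 2) * a ^ 36 → X * (E ^ 3 / n) ≤ (n : ℝ) ^ ε * (E ^ 3 / n) := by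
    intro X hX
    refine mul_le_mul_of_nonneg_right ?_ (by positivity)
    rw [hee]
    exact hX.trans (mul_le_mul_of_nonneg_right hbig (by positivity))
  have ha1436 : a ^ 14 ≤ a ^ 36 := pow_le_pow_right₀ ha1 (by norm_num)
  have ha136 : 1 ≤ a ^ 36 := one_le_pow₀ ha1
  have hR2 : 0 ≤ 14 * R ^ 2 := by positivity
  have hK2 : 0 ≤ 8 * K ^ 2 := by positivity
  rcases lt_or_ge E' (a ^ 12 * E) with hcase | hcase
  · have q1 : E' ^ 3 ≤ (a ^ 12 * E) ^ 3 := pow_le_pow_left₀ hE0'.le hcase.le 3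
    have q2 : E' ^ 3 / N ≤ (a ^ 12 * E) ^ 3 / n := div_le_div₀ (by positivity) q1 hn0 hnn
    have q3 : (a ^ 12 * E) ^ 3 / n = a ^ 36 * (E ^ 3 / n) := by ring
    refine q2.trans (q3.le.trans (fin _ ?_))
    calc a ^ 36 = 1 * a ^ 36 := (one_mul _).symm
      _ ≤ (1 + 14 * R ^ 2 + 8 * K ^ 2) * a ^ 36 := mul_le_mul_of_nonneg_right (by linarith) (by positivity)
  -- growth of the unit
  have hgr : ∀ M : ℕ, n ≤ M → EE μ s M ≤ K * Real.sqrt ((M : ℝ) / n) * E := by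
    intro M hM
    have h1 := hK n M g2 g1 hM
    rw [← hE] at h1
    exact h1
  have hsq : ∀ M : ℕ, (M : ℝ) ≤ 3 * ((n : ℝ) ^ (1 + 4 * δ)) → Real.sqrt ((M : ℝ) / n) ≤ 2 * a ^ 2 := by
    intro M hM
    rw [Real.sqrt_le_left (by positivity), div_le_iff₀ hn0]
    have e1 : (n : ℝ) ^ (1 + 4 * δ) = n * a ^ 4 := by
      rw [Real.rpow_add hn0, Real.rpow_one]
      congr 1
      exact_mod_cast hpa 4
    rw [e1] at hM
    have : 0 < n * a ^ 4 := by positivity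
    nlinarith
  have hgr2 : ∀ M : ℕ, n ≤ M → (M : ℝ) ≤ 3 * ((n : ℝ) ^ (1 + 4 * δ)) → EE μ s M ≤ 2 * K * a ^ 2 * E := by
    intro M h1 h2
    have h3 := hgr M h1
    have h4 := hsq M h2
    have h5 : K * Real.sqrt ((M : ℝ) / n) * E ≤ K * (2 * a ^ 2) * E :=
      mul_le_mul_of_nonneg_right (mul_le_mul_of_nonneg_left h4 (by linarith)) hE0.le
    linarith
  have ha2_12 : 2 * K * a ^ 2 < a ^ 12 := by
    have h1 : a ^ 3 ≤ a ^ 12 := pow_le_pow_right₀ ha1 (by norm_num)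
    have h2 : 2 * K * a ^ 2 < a * a ^ 2 := mul_lt_mul_of_pos_right (by linarith) (by positivity)
    have h3 : a * a ^ 2 = a ^ 3 := by ring
    linarith
  have hNbig : 3 * ((n : ℝ) ^ (1 + 4 * δ)) < N := by
    by_contra hcon
    push Not at hcon
    have h1 := hgr2 N hnN hcon
    rw [← hE'] at h1
    have h2 : 2 * K * a ^ 2 * E < a ^ 12 * E := mul_lt_mul_of_pos_right ha2_12 hE0
    linarith
  -- the tilt
  obtain ⟨r, hr⟩ : ∃ r : ℝ, r = R * b ^ 2 / E' := ⟨_, rfl⟩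
  have hr0 : 0 < r := by rw [hr]; positivity
  have habs : |r| = r := abs_of_pos hr0
  have hrle : r ≤ R * a ^ 2 / E' := by
    rw [hr]
    exact div_le_div_of_nonneg_right (mul_le_mul_of_nonneg_left hba2 hR0.le) hE0'.le
  have hrE : r * E ≤ (a ^ 8)⁻¹ := by
    refine (mul_le_mul_of_nonneg_right hrle hE0.le).trans ?_
    rw [le_inv_comm₀ (by positivity) (by positivity), div_mul_eq_mul_div, inv_div, le_div_iff₀ (by positivity)]
    have h1 : R * a ^ 10 ≤ a ^ 12 := by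
      have h2 : R * a ^ 10 ≤ a * a ^ 10 := mul_le_mul_of_nonneg_right hRa (by positivity)
      have h3 : a * a ^ 10 = a ^ 11 := by ring
      have h4 : a ^ 11 ≤ a ^ 12 := pow_le_pow_right₀ ha1 (by norm_num)
      linarith
    calc a ^ 8 * (R * a ^ 2 * E) = R * a ^ 10 * E := by ring
      _ ≤ a ^ 12 * E := mul_le_mul_of_nonneg_right h1 hE0.le
      _ ≤ E' := hcase
  have hr1 : r ≤ 1 := by
    have h1 : r * 1 ≤ r * E := mul_le_mul_of_nonneg_left hE1 hr0.le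
    have h2 : (a ^ 8)⁻¹ ≤ 1 := inv_le_one_of_one_le₀ (one_le_pow₀ ha1)
    linarith
  have hrE' : r * E' ≤ (N : ℝ) ^ κ := by
    have h1 : r * E' = R * b ^ 2 := by
      rw [hr]
      field_simp
    have h2 : R * b ^ 2 ≤ b ^ 4 := by
      have h3 : R * b ^ 2 ≤ b * b ^ 2 := mul_le_mul_of_nonneg_right hRb (by positivity)
      have h4 : b * b ^ 2 = b ^ 3 := by ring
      have h5 : b ^ 3 ≤ b ^ 4 := pow_le_pow_right₀ hb1 (by norm_num)
      linarith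
    have h3 : b ^ 4 = (n : ℝ) ^ κ := by
      rw [← hpb 4, hθ]
      congr 1
      push_cast
      ring
    rw [h1]
    refine h2.trans ?_
    rw [h3]
    exact Real.rpow_le_rpow hn0.le hnn hκ0.le
  -- the blocks
  obtain ⟨P, hP⟩ : ∃ P : ℕ, P = ⌈(n : ℝ) ^ (1 + 4 * δ)⌉₊ := ⟨_, rfl⟩
  have hnp : (n : ℝ) ≤ (n : ℝ) ^ (1 + 4 * δ) := by
    calc (n : ℝ) = (n : ℝ) ^ (1 : ℝ) := (Real.rpow_one _).symm
      _ ≤ (n : ℝ) ^ (1 + 4 * δ) := Real.rpow_le_rpow_of_exponent_le hnR (by linarith)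
  have hP1 : (n : ℝ) ^ (1 + 4 * δ) ≤ P := by rw [hP]; exact Nat.le_ceil _
  have hP2 : (P : ℝ) < (n : ℝ) ^ (1 + 4 * δ) + 1 := by
    rw [hP]
    exact Nat.ceil_lt_add_one (Real.rpow_nonneg hn0.le _)
  have hPN : P + n ≤ N := by
    have h1 : ((P + n : ℕ) : ℝ) ≤ N := by
      push_cast
      linarith
    exact_mod_cast h1
  obtain ⟨L, M₀, hM0N, hM0P, hM0P2⟩ := split17 g1 hPN
  have hM0n : n ≤ M₀ := by
    have : (n : ℝ) ≤ M₀ := by
      have h1 : (P : ℝ) ≤ M₀ := by exact_mod_cast hM0P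
      linarith
    exact_mod_cast this
  have hM03 : (M₀ : ℝ) ≤ 3 * ((n : ℝ) ^ (1 + 4 * δ)) := by
    have h1 : (M₀ : ℝ) < P + n := by exact_mod_cast hM0P2
    linarith
  have hLR : (L : ℝ) ≤ N / n := by
    rw [le_div_iff₀ hn0]
    have h1 : L * n ≤ N := by omega
    exact_mod_cast h1
  -- telescope
  have hD : D17 μ s N r = D17 μ s M₀ r + ∑ l ∈ Finset.range L, (D17 μ s (n + (M₀ + l * n)) r - D17 μ s (M₀ + l * n) r) := by
    rw [← hM0N]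
    exact tele17 n M₀ L r
  obtain ⟨q, hq⟩ : ∃ q : ℝ, q = (n : ℝ) ^ (-c') := ⟨_, rfl⟩
  have hq0 : 0 ≤ q := by rw [hq]; exact Real.rpow_nonneg hn0.le _
  have e8 : (n : ℝ) ^ (-(2 * (4 * δ))) = (a ^ 8)⁻¹ := by
    rw [Real.rpow_neg hn0.le, ← hpa 8]
    congr 2
    push_cast
    ring
  have e4 : (n : ℝ) ^ (4 * δ) = a ^ 4 := by exact_mod_cast hpa 4
  rw [e4] at hmw
  rw [Real.rpow_neg hn0.le, e4] at hv
  have hmE : (m : ℝ) ≤ a ^ 5 * E ^ 2 := by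
    have h1 := hL n g3
    rw [← hb, ← hE] at h1
    have h2 : b * E ^ 2 ≤ a * E ^ 2 := mul_le_mul_of_nonneg_right hba (by positivity)
    calc (m : ℝ) ≤ a ^ 4 * wd μ s n := hmw
      _ ≤ a ^ 4 * (a * E ^ 2) := mul_le_mul_of_nonneg_left (h1.trans h2) (by positivity)
      _ = a ^ 5 * E ^ 2 := by ring
  have hv0 : 0 < (v : ℝ) := lt_of_lt_of_le (by positivity) hv
  have hvne : v ≠ 0 := by
    intro h0
    rw [h0] at hv0
    simp at hv0
  have hq1 : (m : ℝ) * r ^ 2 / v ≤ 1 := by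
    rw [div_le_one hv0]
    refine le_trans ?_ hv
    have h2 : E * r ≤ (a ^ 8)⁻¹ := by
      rw [mul_comm]
      exact hrE
    have h3 : (E * r) ^ 2 ≤ ((a ^ 8)⁻¹) ^ 2 := pow_le_pow_left₀ (by positivity) h2 2
    have h4 : a ^ 5 * ((a ^ 8)⁻¹) ^ 2 ≤ (a ^ 4)⁻¹ := by
      have e2 : a ^ 5 * ((a ^ 8)⁻¹) ^ 2 = (a ^ 11)⁻¹ := by field_simp
      rw [e2]
      exact inv_anti₀ (by positivity) (pow_le_pow_right₀ ha1 (by norm_num))
    have h5 : (m : ℝ) * r ^ 2 ≤ a ^ 5 * E ^ 2 * r ^ 2 := mul_le_mul_of_nonneg_right hmE (by positivity)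
    calc (m : ℝ) * r ^ 2 ≤ a ^ 5 * (E * r) ^ 2 := by rw [mul_pow]; linarith
      _ ≤ a ^ 5 * ((a ^ 8)⁻¹) ^ 2 := mul_le_mul_of_nonneg_left h3 (by positivity)
      _ ≤ (a ^ 4)⁻¹ := h4
  have hPs := psi17 (ν := law μ) (m := m) (P := fun η k => W μ s η 0 n (y₀ + ((k : ℕ) : ℤ))) hvne hm1
    (fun k => measurable_W 0 n _) (fun η k => W_nonneg η 0 n _) (fun η => by
      refine Finset.sum_pos' (fun k _ => W_nonneg η 0 n _) ⟨0, Finset.mem_univ _, W_pos η 0 ?_ ?_⟩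
      · simpa using hy0
      · simp only [Fin.val_zero, Nat.cast_zero, add_zero]
        omega) hq1
  have hblk : ∀ l ∈ Finset.range L, D17 μ s (n + (M₀ + l * n)) r - D17 μ s (M₀ + l * n) r ≤
      7 * (a ^ 5 * E ^ 2) * r ^ 2 * (a ^ 5 * E) + 4 * (q * E) := by
    intro l hl
    have hlL : l < L := Finset.mem_range.1 hl
    obtain ⟨M, hMM⟩ : ∃ M : ℕ, M = M₀ + l * n := ⟨_, rfl⟩
    rw [← hMM]
    have hM1 : (n : ℝ) ^ (1 + 4 * δ) ≤ M := by
      refine hP1.trans ?_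
      have : P ≤ M := by rw [hMM]; exact hM0P.trans (Nat.le_add_right _ _)
      exact_mod_cast this
    have hM2 : M ≤ N := by
      rw [hMM, ← hM0N]
      exact Nat.add_le_add_left (Nat.mul_le_mul_right _ hlL.le) _
    obtain ⟨K₀, K₁, hA⟩ := hM N hnN
      (hN.trans (Real.rpow_le_rpow_of_exponent_le hnR (by linarith [min_le_left c' 1]))) M hM1 hM2
    rw [e8] at hA
    have A1 := hA r (by rw [habs, ← hE]; exact hrE) (by rw [habs, ← hE']; exact hrE')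
    have A2 := hA (-r) (by rw [abs_neg, habs, ← hE]; exact hrE) (by rw [abs_neg, habs, ← hE']; exact hrE')
    have A3 := hA 0 (by rw [abs_zero, zero_mul]; positivity) (by rw [abs_zero, zero_mul]; positivity)
    have A4 := dblk17 A3 A1 A2
    rw [← hE, ← hq] at A4
    have B1 := (abs_le.1 A4).2
    have B4 := (abs_le.1 hPs).2
    have B5 := blkF17 (r := r) hE0 ha1 hmE hv
    refine (sub_le_iff_le_add.1 B1).trans ?_
    rw [add_comm (4 * (q * E))]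
    exact add_le_add (B4.trans B5) le_rfl
  have hsum : ∑ l ∈ Finset.range L, (D17 μ s (n + (M₀ + l * n)) r - D17 μ s (M₀ + l * n) r) ≤
      N / n * (7 * (a ^ 5 * E ^ 2) * r ^ 2 * (a ^ 5 * E) + 4 * (q * E)) := by
    refine (Finset.sum_le_sum hblk).trans ?_
    rw [Finset.sum_const, Finset.card_range, nsmul_eq_mul]
    exact mul_le_mul_of_nonneg_right hLR (by positivity)
  -- the first block
  have hEM := hgr2 M₀ hM0n hM03
  have hEM0 := EE_pos (μ := μ) (s := s) M₀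
  have hshort : D17 μ s M₀ r ≤ 4 * EE μ s M₀ := by
    refine D_short17 h (by omega) (by rw [habs]; exact hr1) ?_
    rw [habs]
    have h1 := hL M₀ (g3.trans hM0n)
    have h2 := hMd M₀ (by omega)
    have h3 : wd μ s M₀ ≤ a ^ 2 * EE μ s M₀ ^ 2 :=
      h1.trans (mul_le_mul_of_nonneg_right (h2.trans hba2) (by positivity))
    have h4 : r * wd μ s M₀ ≤ r * (a ^ 2 * EE μ s M₀ ^ 2) := mul_le_mul_of_nonneg_left h3 hr0.le
    have h5 : r * (a ^ 2 * EE μ s M₀) ≤ 1 := by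
      have h6 : r * (a ^ 2 * EE μ s M₀) ≤ r * (a ^ 2 * (2 * K * a ^ 2 * E)) :=
        mul_le_mul_of_nonneg_left (mul_le_mul_of_nonneg_left hEM (by positivity)) hr0.le
      have h7 : r * (a ^ 2 * (2 * K * a ^ 2 * E)) = 2 * K * a ^ 4 * (r * E) := by ring
      have h8 : 2 * K * a ^ 4 * (r * E) ≤ 2 * K * a ^ 4 * (a ^ 8)⁻¹ := mul_le_mul_of_nonneg_left hrE (by positivity)
      have h9 : 2 * K * a ^ 4 * (a ^ 8)⁻¹ = 2 * K / a ^ 4 := by field_simp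
      have h10 : 2 * K / a ^ 4 ≤ 1 := by
        rw [div_le_one (by positivity)]
        have : a ≤ a ^ 4 := le_self_pow₀ ha1 (by norm_num)
        linarith
      linarith
    calc r * wd μ s M₀ ≤ r * (a ^ 2 * EE μ s M₀ ^ 2) := h4
      _ = r * (a ^ 2 * EE μ s M₀) * EE μ s M₀ := by ring
      _ ≤ 1 * EE μ s M₀ := mul_le_mul_of_nonneg_right h5 hEM0.le
      _ = EE μ s M₀ := one_mul _
  have hB : 4 * EE μ s M₀ ≤ E' / 2 := by
    have h1 : 16 * K * a ^ 2 ≤ a ^ 12 := by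
      have h2 : 16 * K * a ^ 2 ≤ a * a ^ 2 := mul_le_mul_of_nonneg_right hKa (by positivity)
      have h3 : a * a ^ 2 = a ^ 3 := by ring
      have h4 : a ^ 3 ≤ a ^ 12 := pow_le_pow_right₀ ha1 (by norm_num)
      linarith
    have h2 : 16 * K * a ^ 2 * E ≤ a ^ 12 * E := mul_le_mul_of_nonneg_right h1 hE0.le
    linarith
  -- the lower bound
  have hFlow : E' ≤ D17 μ s N r := by
    have h1 := hlow N (g6.trans hnN) r hr0.le
    have h2 := (FM_zero17 h N).2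
    have h3 := hU N (g4.trans hnN)
    have h4 := hMd N le_rfl
    rw [← hE'] at h1 h3
    have hwN : 0 ≤ wd μ s N := by
      have := (h.vA_pos g1').le
      unfold wd
      positivity
    have h5 : E' ^ 2 ≤ b ^ 2 * wd μ s N := h3.trans (mul_le_mul_of_nonneg_right h4 hwN)
    have h6 : (C + 2) * E' ≤ r * (c * wd μ s N) := by
      have e1 : r * (c * wd μ s N) = R * c * ((b ^ 2 * wd μ s N) / E') := by
        rw [hr]
        ring
      rw [e1, hRc]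
      refine mul_le_mul_of_nonneg_left ?_ (by linarith)
      rw [le_div_iff₀ hE0']
      calc E' * E' = E' ^ 2 := by ring
        _ ≤ _ := h5
    unfold D17
    linarith
  have hnum := numF17 (n := n) (N := N) (E := E) (E' := E') (a := a) (K := K) (R := R) (q := q)
    (F := D17 μ s N r) (B := 4 * EE μ s M₀) hn0 hn0' hE0 ha1 hcase hFlow hB (by
      have h1 : r ^ 2 ≤ (R * a ^ 2 / E') ^ 2 := pow_le_pow_left₀ hr0.le hrle 2
      have h2 : 7 * (a ^ 5 * E ^ 2) * r ^ 2 * (a ^ 5 * E) ≤ 7 * (a ^ 5 * E ^ 2) * (R * a ^ 2 / E') ^ 2 * (a ^ 5 * E) :=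
        mul_le_mul_of_nonneg_right (mul_le_mul_of_nonneg_left h1 (by positivity)) (by positivity)
      have h3 : (N : ℝ) / n * (7 * (a ^ 5 * E ^ 2) * r ^ 2 * (a ^ 5 * E) + 4 * (q * E)) ≤
          N / n * (7 * (a ^ 5 * E ^ 2) * (R * a ^ 2 / E') ^ 2 * (a ^ 5 * E) + 4 * (q * E)) :=
        mul_le_mul_of_nonneg_left (by linarith) (by positivity)
      rw [hD]
      linarith) (by
      rw [hq]
      have h1 : (N : ℝ) / n ≤ (n : ℝ) ^ c' := by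
        rw [div_le_iff₀ hn0]
        refine hN.trans ?_
        rw [add_comm, Real.rpow_add hn0, Real.rpow_one]
        exact mul_le_mul_of_nonneg_right (Real.rpow_le_rpow_of_exponent_le hnR (min_le_left _ _)) hn0.le
      calc (n : ℝ) ^ (-c') * (N / n) ≤ (n : ℝ) ^ (-c') * (n : ℝ) ^ c' :=
            mul_le_mul_of_nonneg_left h1 (Real.rpow_nonneg hn0.le _)
        _ = 1 := by
            rw [← Real.rpow_add hn0]
            simp) hq0 (by
      have h1 := hgr N hnN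
      rw [← hE'] at h1
      have h2 := pow_le_pow_left₀ hE0'.le h1 2
      have h3 : (K * Real.sqrt ((N : ℝ) / n) * E) ^ 2 = K ^ 2 * ((N : ℝ) / n) * E ^ 2 := by
        rw [mul_pow, mul_pow, Real.sq_sqrt (by positivity)]
      linarith)
  refine hnum.trans (fin _ ?_)
  have w1 : 14 * R ^ 2 * a ^ 14 ≤ 14 * R ^ 2 * a ^ 36 := mul_le_mul_of_nonneg_left ha1436 hR2
  have w2 : 8 * K ^ 2 * 1 ≤ 8 * K ^ 2 * a ^ 36 := mul_le_mul_of_nonneg_left ha136 hK2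
  have w3 : (1 + 14 * R ^ 2 + 8 * K ^ 2) * a ^ 36 = a ^ 36 + 14 * R ^ 2 * a ^ 36 + 8 * K ^ 2 * a ^ 36 := by ring
  rw [w3]
  linarith only [w1, w2, ha136]

/-- **The upper half**, from the finite horizon form. -/
theorem thirdF17 (h : In μ s c C n₀) (hG : Gr17 μ s) (hL : LB17 μ s) (hU : UB17 μ s) (hM : LMF17 μ s) {ε : ℝ} (hε : 0 < ε) :
    ∀ᶠ n : ℕ in atTop, EE μ s n ≤ (n : ℝ) ^ (1 / 3 + ε) := by
  obtain ⟨c₁, hc₁, h1⟩ := coreF17 h hG hL hU hM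
  exact up_of17 (fun n => EE_pos (μ := μ) (s := s) n) hc₁ h1 hε

/-- **Both halves**, from the finite horizon form and the lower half in the form of a window. -/
theorem fullF17 (h : In μ s c C n₀) (hG : Gr17 μ s) (hL : LB17 μ s) (hU : UB17 μ s) (hM : LMF17 μ s) (hW : CVF17 μ s)
    {ε : ℝ} (hε : 0 < ε) :
    ∀ᶠ n : ℕ in atTop, (n : ℝ) ^ (1 / 3 - ε) ≤ EE μ s n ∧ EE μ s n ≤ (n : ℝ) ^ (1 / 3 + ε) := by
  obtain ⟨c₁, hc₁, h1⟩ := coreF17 h hG hL hU hM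
  exact (low_of17 (fun n => EE_pos (μ := μ) (s := s) n) hc₁ h1 hW hε).and (thirdF17 h hG hL hU hM hε)

end core

end

end Pool.Agent.W_7d29a1_C1
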