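import Pool.Agent.W_7d29a1_C1.EndF17
import Pool.Agent.W_7d29a1_HZ.PB

/-!
MP_7d29a1_pr, attractor route (helper17): the growth of the unit, for `EndF17`.
-/

set_option autoImplicit false

namespace Pool.Agent.W_7d29a1_C1

open MeasureTheory ProbabilityTheory Filter Topology
open Pool.Agent.W_7d29a1_H Pool.Agent.W_7d29a1_HS
open Pool.Agent.W_7d29a1_HZ (EE'_pow wd'_eq)

/-- The unit grows at most like a square root. -/
theorem gr17 {μ : Measure ℝ} {s : ℝ} [IsProbabilityMeasure μ] {c C : ℝ} {n₀ : ℕ} (h : In μ s c C n₀) : Gr17 μ s := by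
  obtain ⟨a₀, K, -, -, hK1, hK⟩ := EE'_pow h
  obtain ⟨n₂, hn₂⟩ := wd'_eq h
  refine ⟨K, n₂, hK1, fun m n h1 h2 h3 => ?_⟩
  have h4 := (hK m n h2 h3).2.2
  rwa [(hn₂ m h1).2.1, (hn₂ n (h1.trans h3)).2.1] at h4

end Pool.Agent.W_7d29a1_C1
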