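import Pool.Agent.W_7d29a1_C1.EndF17

/-!
MP_7d29a1_pr, attractor route (helper10): the pigeonhole for the horizon. Among the lengths `L` in `[N ^ 3, 2 N ^ 3]` there is one for
which `N` more rows raise the mean free energy by at most `1`.
-/

set_option autoImplicit false

namespace Pool.Agent.W_7d29a1_C1

open MeasureTheory ProbabilityTheory Filter Topology
open Pool.Agent.W_7d29a1_F Pool.Agent.W_7d29a1_h4g Pool.Agent.W_7d29a1_H Pool.Agent.W_7d29a1_HS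

/-- Pure form. -/
theorem pigeon10 {F : ℕ → ℝ} {N L₀ J : ℕ} (h : F (L₀ + J * N) - F L₀ < J) :
    ∃ j : ℕ, j < J ∧ F (N + (L₀ + j * N)) ≤ F (L₀ + j * N) + 1 := by
  by_contra hcon
  push Not at hcon
  have h1 := Finset.sum_range_sub (fun j => F (L₀ + j * N)) J
  have h2 : ∀ j ∈ Finset.range J, (1 : ℝ) ≤ F (L₀ + (j + 1) * N) - F (L₀ + j * N) := by
    intro j hj
    have h3 := hcon j (Finset.mem_range.1 hj)
    have h4 : N + (L₀ + j * N) = L₀ + (j + 1) * N := by ring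
    rw [h4] at h3
    linarith
  have h5 := Finset.sum_le_sum h2
  rw [h1] at h5
  simp only [Finset.sum_const, Finset.card_range, nsmul_eq_mul, mul_one, zero_mul, add_zero] at h5
  linarith

variable {μ : Measure ℝ} {s : ℝ} [IsProbabilityMeasure μ] {c C : ℝ} {n₀ : ℕ}

/-- **The horizon**: for large `N` there is `L` in `[N ^ 3, 2 N ^ 3]` such that the mean free energy of `N + L` rows is at most the mean
free energy of `L` rows plus `1`. -/
theorem pigV10 (h : In μ s c C n₀) (hG : Gr17 μ s) : ∀ᶠ N : ℕ in atTop, ∃ L : ℕ, N ^ 3 ≤ L ∧ L ≤ 2 * N ^ 3 ∧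
    ∫ η, V μ s η 0 (N + L) ∂(law μ) ≤ (∫ η, V μ s η 0 L ∂(law μ)) + 1 := by
  obtain ⟨K, n₁, hK1, hK⟩ := hG
  obtain ⟨p, hp⟩ : ∃ p : ℕ, p = max n₁ 1 := ⟨_, rfl⟩
  obtain ⟨A, hA⟩ : ∃ A : ℝ, A = K * EE μ s p := ⟨_, rfl⟩
  have hA0 : 0 < A := by
    rw [hA]
    have := EE_pos (μ := μ) (s := s) p
    positivity
  obtain ⟨n₂, hn₂⟩ := exists_nat_gt (A ^ 2 + 1)
  filter_upwards [eventually_ge_atTop (max n₂ (max p 1))] with N hN
  have g1 : n₂ ≤ N := by omega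
  have g2 : p ≤ N := by omega
  have g3 : 1 ≤ N := by omega
  have hNR : (1 : ℝ) ≤ N := by exact_mod_cast g3
  have hpN : p ≤ N ^ 3 := g2.trans (Nat.le_self_pow (by norm_num) N)
  have h1 : EE μ s (N ^ 3) ≤ K * Real.sqrt (((N ^ 3 : ℕ) : ℝ) / p) * EE μ s p := hK p (N ^ 3) (by omega) (by omega) hpN
  have h2 : EE μ s (N ^ 3) < (N : ℝ) ^ 2 := by
    have h3 : Real.sqrt (((N ^ 3 : ℕ) : ℝ) / p) ≤ Real.sqrt ((N : ℝ) ^ 3) := by
      refine Real.sqrt_le_sqrt ?_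
      push_cast
      exact div_le_self (by positivity) (by exact_mod_cast (by omega : 1 ≤ p))
    have h4 : EE μ s (N ^ 3) ≤ A * Real.sqrt ((N : ℝ) ^ 3) := by
      refine h1.trans ?_
      rw [hA]
      have hE0 := (EE_pos (μ := μ) (s := s) p).le
      calc K * Real.sqrt (((N ^ 3 : ℕ) : ℝ) / p) * EE μ s p ≤ K * Real.sqrt ((N : ℝ) ^ 3) * EE μ s p :=
            mul_le_mul_of_nonneg_right (mul_le_mul_of_nonneg_left h3 (by linarith)) hE0
        _ = K * EE μ s p * Real.sqrt ((N : ℝ) ^ 3) := by ring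
    refine h4.trans_lt ?_
    have h5 : A * Real.sqrt ((N : ℝ) ^ 3) = Real.sqrt (A ^ 2 * (N : ℝ) ^ 3) := by
      rw [Real.sqrt_mul (by positivity), Real.sqrt_sq hA0.le]
    have h6 : A ^ 2 < N := by
      have : (n₂ : ℝ) ≤ N := by exact_mod_cast g1
      linarith
    rw [h5, Real.sqrt_lt' (by positivity)]
    have h7 : A ^ 2 * (N : ℝ) ^ 3 < N * (N : ℝ) ^ 3 := mul_lt_mul_of_pos_right h6 (by positivity)
    calc A ^ 2 * (N : ℝ) ^ 3 < N * (N : ℝ) ^ 3 := h7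
      _ = ((N : ℝ) ^ 2) ^ 2 := by ring
  have h3 : N ^ 2 * N = N ^ 3 := by ring
  have h4 : (∫ η, V μ s η 0 (N ^ 3 + N ^ 2 * N) ∂(law μ)) - ∫ η, V μ s η 0 (N ^ 3) ∂(law μ) < ((N ^ 2 : ℕ) : ℝ) := by
    have h5 := V_mean_le h.em s (N ^ 3 + N ^ 2 * N)
    have h6 := V_mean_ge h.em s (N ^ 3)
    have h7 := le_EE (μ := μ) (s := s) (le_refl (N ^ 3))
    push_cast
    linarith
  obtain ⟨j, hj, hj2⟩ := pigeon10 (F := fun L => ∫ η, V μ s η 0 L ∂(law μ)) (N := N) (L₀ := N ^ 3) (J := N ^ 2) h4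
  refine ⟨N ^ 3 + j * N, by omega, ?_, hj2⟩
  have h8 : j * N ≤ N ^ 2 * N := Nat.mul_le_mul_right _ hj.le
  omega

end Pool.Agent.W_7d29a1_C1
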