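import Pool.Agent.W_7d29a1_C1.EndL17
import Pool.Agent.W_7d29a1_C1.LML8
import Pool.Agent.W_7d29a1_C1.Pig10
import Pool.Agent.W_7d29a1_C1.Gr17

/-!
MP_7d29a1_pr, attractor route (helper10): the end over the composite free energies `FL8` of helper8. The four inputs of `EndL17` are
checked (`fl0`, `low10`, `pig10`, and `LMG8` itself), so that `LMG8` gives the upper half.
-/

set_option autoImplicit false

namespace Pool.Agent.W_7d29a1_C1.H8

open MeasureTheory ProbabilityTheory Filter Topology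
open Pool.Agent.W_7d29a1_F Pool.Agent.W_7d29a1_h4g Pool.Agent.W_7d29a1_H Pool.Agent.W_7d29a1_HS

noncomputable section

variable {μ : Measure ℝ} {s : ℝ}

/-- Without tilted rows the force does not matter. -/
theorem fl0 (L : ℕ) (r : ℝ) : FL8 μ s 0 L r = FL8 μ s 0 L 0 := by
  unfold FL8
  simp only [TL8_zero]

theorem fl_zero (L : ℕ) (r : ℝ) : FL8 μ s 0 L r = ∫ η, V μ s η 0 L ∂(law μ) := by
  unfold FL8
  simp only [TL8_zero]

theorem fl_h0 (M L : ℕ) : FL8 μ s M L 0 = ∫ η, V μ s η 0 (M + L) ∂(law μ) := by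
  unfold FL8
  simp only [TL8_h0]

variable [IsProbabilityMeasure μ]

theorem V_mean10 (a : Pt) (L : ℕ) : ∫ η, V μ s η a L ∂(law μ) = ∫ η, V μ s η 0 L ∂(law μ) := by
  have h := mp_sh (μ := μ) a
  have h1 : ∫ η, V μ s (sh a η) 0 L ∂(law μ) = ∫ η, V μ s η 0 L ∂(law μ) := by
    rw [← integral_map h.measurable.aemeasurable (measurable_V 0 L).aestronglyMeasurable, h.map_eq]
  simp only [V_sh, zero_add] at h1
  exact h1

/-- Lower bound by one displacement. -/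
theorem fl_ge10 {c C : ℝ} {n₀ : ℕ} (h : In μ s c C n₀) {N L : ℕ} {y : ℤ} (h0 : 0 ≤ y) (h1 : y ≤ N) (r : ℝ) :
    r * ((y : ℝ) - sl μ s * N) - ep μ s N y + FL8 μ s 0 L 0 ≤ FL8 μ s N L r := by
  have h2 : ∀ η, r * ((y : ℝ) - sl μ s * N) - X μ s η 0 N y + V μ s η ((0 : Pt).1 + N, (0 : Pt).2 + y) L ≤
      TL8 μ s (sl μ s) r N L η 0 := by
    intro η
    have h3 := W_pos (μ := μ) (s := s) η 0 h0 h1
    have h4 : (W μ s η 0 N y * Real.exp (r * ((y : ℝ) - sl μ s * N))) * Real.exp (V μ s η ((0 : Pt).1 + N, (0 : Pt).2 + y) L) ≤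
        Real.exp (TL8 μ s (sl μ s) r N L η 0) := by
      rw [exp_TL8]
      exact Finset.single_le_sum (f := fun y : ℤ => (W μ s η 0 N y * Real.exp (r * ((y : ℝ) - sl μ s * N))) *
        Real.exp (V μ s η ((0 : Pt).1 + N, (0 : Pt).2 + y) L))
        (fun i _ => mul_nonneg (mul_nonneg (W_nonneg η 0 N i) (Real.exp_pos _).le) (Real.exp_pos _).le)
        (Finset.mem_Icc.2 ⟨h0, h1⟩)
    have h5 := Real.log_le_log (mul_pos (mul_pos h3 (Real.exp_pos _)) (Real.exp_pos _)) h4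
    rw [Real.log_mul (mul_pos h3 (Real.exp_pos _)).ne' (Real.exp_pos _).ne', Real.log_mul h3.ne' (Real.exp_pos _).ne',
      Real.log_exp, Real.log_exp, Real.log_exp] at h5
    unfold X
    linarith
  have i1 : Integrable (fun η => r * ((y : ℝ) - sl μ s * N) - X μ s η 0 N y) (law μ) :=
    (integrable_const _).sub (X_int h.em s 0 h0 h1)
  have i2 : Integrable (fun η => V μ s η ((0 : Pt).1 + N, (0 : Pt).2 + y) L) (law μ) := V_int h.em s _ L
  have h6 : ∫ η, (r * ((y : ℝ) - sl μ s * N) - X μ s η 0 N y + V μ s η ((0 : Pt).1 + N, (0 : Pt).2 + y) L) ∂(law μ) ≤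
      FL8 μ s N L r := integral_mono (i1.add i2) ((fu_TL8 h.em N L).int 0) h2
  rw [integral_add i1 i2, integral_sub (integrable_const _) (X_int h.em s 0 h0 h1), integral_const, V_mean10] at h6
  have h7 : ∫ η, X μ s η 0 N y ∂(law μ) = e μ s N y := rfl
  have h8 := e_le_ep h.em s h0 h1
  rw [h7] at h6
  rw [fl_zero]
  simp only [probReal_univ, smul_eq_mul, one_mul] at h6
  linarith

/-- **The lower bound of the second difference.** -/
theorem low10 {c C : ℝ} {n₀ : ℕ} (h : In μ s c C n₀) : LowA17 μ s c C (FL8 μ s) := by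
  obtain ⟨H, δ, hD⟩ := h.dir
  have hlo := hD.lo s (Set.mem_singleton s)
  have hhi := hD.hi s (Set.mem_singleton s)
  have hδ := hD.δ0
  have hv := h.tv
  rw [Metric.tendsto_atTop] at hv
  obtain ⟨n₂, hn₂⟩ := hv (δ / 2) (by positivity)
  obtain ⟨n₃, hn₃⟩ := exists_nat_ge (2 / δ)
  refine ⟨max (max n₀ n₂) (max n₃ 1), fun n hn L r hr => ?_⟩
  have g1 : 1 ≤ n := by omega
  have hn0 : (0 : ℝ) < n := by exact_mod_cast g1
  have hvn := hn₂ n (by omega)
  rw [Real.dist_eq, sub_zero] at hvn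
  have hvn2 := (abs_lt.1 hvn).2
  have hn3 : 2 / δ ≤ n := hn₃.trans (by exact_mod_cast (by omega : n₃ ≤ n))
  have hn3' : 2 ≤ δ * n := by
    rw [div_le_iff₀ hδ] at hn3
    linarith
  have hva : 0 ≤ vA 1 μ s n := (h.vA_pos g1).le
  obtain ⟨w, hw⟩ : ∃ w : ℝ, w = c * wd μ s n := ⟨_, rfl⟩
  have hw0 : 0 ≤ w := by
    rw [hw]
    unfold wd
    have := h.c0
    positivity
  have hw1 : w ≤ δ / 2 * n := by
    rw [hw]
    unfold wd
    have h1 : c * (n * vA 1 μ s n) ≤ 1 * (n * vA 1 μ s n) := mul_le_mul_of_nonneg_right h.c1 (by positivity)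
    have h2 : n * vA 1 μ s n ≤ n * (δ / 2) := mul_le_mul_of_nonneg_left hvn2.le hn0.le
    linarith
  have hwe : c * vA 1 μ s n * n = w := by
    rw [hw]
    unfold wd
    ring
  rw [← hw]
  have key : ∀ y : ℤ, |(y : ℝ) - sl μ s * n| ≤ w + 1 → 0 ≤ y ∧ y ≤ n ∧ ep μ s n y ≤ C * EE μ s n := by
    intro y hy
    have h1 := (abs_le.1 hy).1
    have h2 := (abs_le.1 hy).2
    have h3 : δ * n ≤ sl μ s * n := mul_le_mul_of_nonneg_right hlo hn0.le
    have h4 : sl μ s * n ≤ (1 - δ) * n := mul_le_mul_of_nonneg_right hhi hn0.le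
    have h5 : (0 : ℝ) ≤ y := by linarith
    have h6 : (y : ℝ) ≤ n := by linarith
    have h5' : 0 ≤ y := by exact_mod_cast h5
    have h6' : y ≤ n := by exact_mod_cast h6
    refine ⟨h5', h6', h.inn n (by omega) n y (by omega) h5' h6' ?_⟩
    rw [hwe]
    exact hy
  obtain ⟨y1, hy1⟩ : ∃ y1 : ℤ, y1 = ⌊sl μ s * n + w⌋ := ⟨_, rfl⟩
  obtain ⟨y2, hy2⟩ : ∃ y2 : ℤ, y2 = ⌈sl μ s * n - w⌉ := ⟨_, rfl⟩
  have a1 : (y1 : ℝ) ≤ sl μ s * n + w := by rw [hy1]; exact Int.floor_le _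
  have a2 : sl μ s * n + w < y1 + 1 := by rw [hy1]; exact Int.lt_floor_add_one _
  have a3 : sl μ s * n - w ≤ (y2 : ℝ) := by rw [hy2]; exact Int.le_ceil _
  have a4 : (y2 : ℝ) < sl μ s * n - w + 1 := by rw [hy2]; exact Int.ceil_lt_add_one _
  obtain ⟨b1, b2, b3⟩ := key y1 (by rw [abs_le]; constructor <;> linarith)
  obtain ⟨b4, b5, b6⟩ := key y2 (by rw [abs_le]; constructor <;> linarith)
  have d1 := fl_ge10 h (L := L) b1 b2 r
  have d2 := fl_ge10 h (L := L) b4 b5 (-r)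
  have d3 : r * (w - 1) ≤ r * ((y1 : ℝ) - sl μ s * n) := mul_le_mul_of_nonneg_left (by linarith) hr
  have d4 : r * (w - 1) ≤ -r * ((y2 : ℝ) - sl μ s * n) := by
    have : -r * ((y2 : ℝ) - sl μ s * n) = r * (sl μ s * n - y2) := by ring
    rw [this]
    exact mul_le_mul_of_nonneg_left (by linarith) hr
  linarith

/-- **The horizon by the pigeonhole.** -/
theorem pig10 {c C : ℝ} {n₀ : ℕ} (h : In μ s c C n₀) : PigA17 (FL8 μ s) := by
  filter_upwards [pigV10 h (gr17 h)] with N hN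
  obtain ⟨L, h1, h2, h3⟩ := hN
  refine ⟨L, h1, h2, ?_⟩
  rw [fl_h0, fl_zero]
  exact h3

/-- **The upper half from `LMG8`.** -/
theorem third10 {c C : ℝ} {n₀ : ℕ} (h : In μ s c C n₀) (hL : LB17 μ s) (hU : UB17 μ s) (hM : LMG8 μ s) {ε : ℝ} (hε : 0 < ε) :
    ∀ᶠ n : ℕ in atTop, EE μ s n ≤ (n : ℝ) ^ (1 / 3 + ε) :=
  thirdL17 h (gr17 h) hL hU fl0 (low10 h) (pig10 h) hM hε

end

end Pool.Agent.W_7d29a1_C1.H8
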