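import Pool.Agent.W_7d29a1_C1.EndF17

/-!
MP_7d29a1_pr, attractor route (helper17): THE END OVER THE COMPOSITE FUTURE (cure C of helper60). `F M L h` is the mean free energy of
`M` rows with the additional force `h` followed by `L` rows without it; only four properties of `F` are used.
-/

set_option autoImplicit false

namespace Pool.Agent.W_7d29a1_C1

open MeasureTheory ProbabilityTheory Filter Topology
open Pool.Agent.W_7d29a1_F Pool.Agent.W_7d29a1_h4g Pool.Agent.W_7d29a1_H Pool.Agent.W_7d29a1_HS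
open scoped ENNReal NNReal

noncomputable section

/-- **The loss of memory over a composite future**: `F M L h` is the mean free energy of `M` rows with the force `h` followed by `L`
rows without it. -/
def LMA17 (μ : Measure ℝ) (s : ℝ) (F : ℕ → ℕ → ℝ → ℝ) : Prop :=
  ∃ c : ℝ, 0 < c ∧ ∀ δ : ℝ, 0 < δ → ∃ κ : ℝ, 0 < κ ∧ κ ≤ δ ∧ ∀ᶠ n : ℕ in atTop, ∃ (y₀ : ℤ) (m : ℕ) (v : ℝ≥0),
    0 ≤ y₀ ∧ 1 ≤ m ∧ y₀ + m ≤ n ∧ (m : ℝ) ≤ (n : ℝ) ^ δ * wd μ s n ∧ (n : ℝ) ^ (-δ) ≤ (v : ℝ) ∧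
    ∀ N : ℕ, n ≤ N → (N : ℝ) ≤ (n : ℝ) ^ (1 + c) → ∀ L : ℕ, N ^ 3 ≤ L → L ≤ 2 * N ^ 3 → ∀ M : ℕ, M ≤ N → ∃ K₀ K₁ : ℝ,
      ∀ h : ℝ, |h| * EE μ s n ≤ (n : ℝ) ^ (-(2 * δ)) → |h| * EE μ s N ≤ (N : ℝ) ^ κ →
        |F (n + M) L h - F M L h - K₀ - K₁ * h -
          Psi (law μ) m v (fun η k => W μ s η 0 n (y₀ + ((k : ℕ) : ℤ))) h| ≤ (n : ℝ) ^ (-c) * EE μ s n

/-- The lower bound of the second difference by two displacements. -/
def LowA17 (μ : Measure ℝ) (s : ℝ) (c C : ℝ) (F : ℕ → ℕ → ℝ → ℝ) : Prop :=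
  ∃ n₁ : ℕ, ∀ N : ℕ, n₁ ≤ N → ∀ (L : ℕ) (r : ℝ), 0 ≤ r →
    2 * (r * (c * wd μ s N) - r - C * EE μ s N) + 2 * F 0 L 0 ≤ F N L r + F N L (-r)

/-- The free energy without force hardly grows for some horizon (pigeonhole). -/
def PigA17 (F : ℕ → ℕ → ℝ → ℝ) : Prop :=
  ∀ᶠ N : ℕ in atTop, ∃ L : ℕ, N ^ 3 ≤ L ∧ L ≤ 2 * N ^ 3 ∧ F N L 0 ≤ F 0 L 0 + 1

section core

variable {μ : Measure ℝ} {s : ℝ} [IsProbabilityMeasure μ] {c C : ℝ} {n₀ : ℕ} {F : ℕ → ℕ → ℝ → ℝ}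

/-- The second difference in the force. -/
def DA17 (F : ℕ → ℕ → ℝ → ℝ) (M L : ℕ) (r : ℝ) : ℝ := F M L r + F M L (-r) - 2 * F M L 0

/-- The telescope of the second differences over the blocks. -/
theorem teleA17 (F : ℕ → ℕ → ℝ → ℝ) (n J L : ℕ) (r : ℝ) : DA17 F (J * n) L r =
    DA17 F 0 L r + ∑ l ∈ Finset.range J, (DA17 F (n + l * n) L r - DA17 F (l * n) L r) := by
  have h1 := Finset.sum_range_sub (fun l => DA17 F (l * n) L r) J
  have h2 : ∀ l : ℕ, n + l * n = (l + 1) * n := by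
    intro l
    ring
  simp only [h2]
  rw [h1, zero_mul]
  ring

/-- The second difference of one block. -/
theorem dblkA17 {n M L m : ℕ} {v : ℝ≥0} {P : Env → Fin (m + 1) → ℝ} {K₀ K₁ r B : ℝ}
    (h0 : |F (n + M) L 0 - F M L 0 - K₀ - K₁ * 0 - Psi (law μ) m v P 0| ≤ B)
    (h1 : |F (n + M) L r - F M L r - K₀ - K₁ * r - Psi (law μ) m v P r| ≤ B)
    (h2 : |F (n + M) L (-r) - F M L (-r) - K₀ - K₁ * -r - Psi (law μ) m v P (-r)| ≤ B) :
    |DA17 F (n + M) L r - DA17 F M L r -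
      (Psi (law μ) m v P r + Psi (law μ) m v P (-r) - 2 * Psi (law μ) m v P 0)| ≤ 4 * B := by
  rw [abs_le] at h0 h1 h2 ⊢
  unfold DA17
  constructor <;> linarith [h0.1, h0.2, h1.1, h1.2, h2.1, h2.2]

/-- **One step**, multiples of `n`. -/
theorem coreLm17 (h : In μ s c C n₀) (hG : Gr17 μ s) (hL : LB17 μ s) (hU : UB17 μ s) (hF0 : ∀ (L : ℕ) (r : ℝ), F 0 L r = F 0 L 0)
    (hlow : LowA17 μ s c C F) (hpig : PigA17 F) (hM : LMA17 μ s F) :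
    ∃ c₁ : ℝ, 0 < c₁ ∧ ∀ ε : ℝ, 0 < ε → ∃ n₁ : ℕ, ∀ n, n₁ ≤ n → ∀ J : ℕ, 1 ≤ J → ((J * n : ℕ) : ℝ) ≤ (n : ℝ) ^ (1 + c₁) →
      EE μ s (J * n) ^ 3 / ((J * n : ℕ) : ℝ) ≤ (n : ℝ) ^ ε * (EE μ s n ^ 3 / n) := by
  obtain ⟨c', hc', hM⟩ := hM
  obtain ⟨K, n₂, hK1, hK⟩ := hG
  obtain ⟨n₆, hlow⟩ := hlow
  obtain ⟨n₇, hpig⟩ := eventually_atTop.1 hpig
  have hc0 := h.c0
  have hC1 := h.C1
  obtain ⟨R, hR⟩ : ∃ R : ℝ, R = (C + 2) / c := ⟨_, rfl⟩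
  have hR0 : 0 < R := by rw [hR]; positivity
  have hRc : R * c = C + 2 := by
    rw [hR]
    field_simp
  refine ⟨min c' 1, lt_min hc' one_pos, fun ε hε => ?_⟩
  obtain ⟨δ, hδ⟩ : ∃ δ : ℝ, δ = ε / 72 := ⟨_, rfl⟩
  have hδ0 : 0 < δ := by rw [hδ]; positivity
  obtain ⟨κ, hκ0, hκδ, hM⟩ := hM (4 * δ) (by positivity)
  obtain ⟨θ, hθ⟩ : ∃ θ : ℝ, θ = κ / 4 := ⟨_, rfl⟩
  have hθ0 : 0 < θ := by rw [hθ]; positivity
  have hθδ : θ ≤ δ := by rw [hθ]; linarith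
  obtain ⟨n₃, hL⟩ := hL θ hθ0
  obtain ⟨n₄, hU⟩ := hU θ hθ0
  have ev := hM.and ((ev_pow17 (1 + 14 * R ^ 2 + 8 * K ^ 2) (show 0 < ε / 2 by positivity)).and
    (ev_pow17 (R + 16 * K + 2) hθ0))
  obtain ⟨n₅, h5⟩ := eventually_atTop.1 ev
  refine ⟨max (max n₂ n₃) (max n₄ (max (max n₅ (max n₆ n₇)) 1)), fun n hn J hJ hN => ?_⟩
  obtain ⟨N, hNJ⟩ : ∃ N : ℕ, N = J * n := ⟨_, rfl⟩
  rw [← hNJ] at hN ⊢
  have hnN : n ≤ N := by
    rw [hNJ]
    exact Nat.le_mul_of_pos_left n (by omega)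
  have g2 : n₂ ≤ n := by omega
  have g3 : n₃ ≤ n := by omega
  have g4 : n₄ ≤ n := by omega
  have g5 : n₅ ≤ n := by omega
  have g6 : n₆ ≤ n := by omega
  have g7 : n₇ ≤ n := by omega
  have g1 : 1 ≤ n := by omega
  have g1' : 1 ≤ N := by omega
  obtain ⟨⟨y₀, m, v, hy0, hm1, hym, hmw, hv, hM⟩, hbig, hbig2⟩ := h5 n g5
  have hnR : (1 : ℝ) ≤ n := by exact_mod_cast g1
  have hnR' : (1 : ℝ) ≤ N := by exact_mod_cast g1'
  have hnn : (n : ℝ) ≤ N := by exact_mod_cast hnN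
  have hn0 : (0 : ℝ) < n := by linarith
  have hn0' : (0 : ℝ) < N := by linarith
  obtain ⟨a, ha⟩ : ∃ a : ℝ, a = (n : ℝ) ^ δ := ⟨_, rfl⟩
  obtain ⟨b, hb⟩ : ∃ b : ℝ, b = (n : ℝ) ^ θ := ⟨_, rfl⟩
  rw [← hb] at hbig2
  have hb1 : 1 ≤ b := by rw [hb]; exact Real.one_le_rpow hnR hθ0.le
  have hb0 : 0 < b := by linarith
  have hba : b ≤ a := by rw [hb, ha]; exact Real.rpow_le_rpow_of_exponent_le hnR hθδ
  have hba2 : b ^ 2 ≤ a ^ 2 := pow_le_pow_left₀ hb0.le hba 2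
  have ha1 : 1 ≤ a := by rw [ha]; exact Real.one_le_rpow hnR hδ0.le
  have ha0 : 0 < a := by linarith
  have hRb : R ≤ b := by linarith
  have hRa : R ≤ a := by linarith
  have hKa : 16 * K ≤ a := by linarith
  have ha2 : 2 ≤ a := by linarith
  obtain ⟨E, hE⟩ : ∃ E : ℝ, E = EE μ s n := ⟨_, rfl⟩
  obtain ⟨E', hE'⟩ : ∃ E' : ℝ, E' = EE μ s N := ⟨_, rfl⟩
  have hE1 : 1 ≤ E := by rw [hE]; exact one_le_EE n
  have hE0 : 0 < E := by linarith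
  have hE1' : 1 ≤ E' := by rw [hE']; exact one_le_EE N
  have hE0' : 0 < E' := by linarith
  rw [← hE, ← hE']
  have hpa : ∀ k : ℕ, (n : ℝ) ^ ((k : ℝ) * δ) = a ^ k := by
    intro k
    rw [ha, ← Real.rpow_natCast, ← Real.rpow_mul hn0.le]
    congr 1
    ring
  have hpb : ∀ k : ℕ, (n : ℝ) ^ ((k : ℝ) * θ) = b ^ k := by
    intro k
    rw [hb, ← Real.rpow_natCast, ← Real.rpow_mul hn0.le]
    congr 1
    ring
  -- `M ^ θ ≤ b ^ 2` for `M ≤ N`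
  have hNn2 : (N : ℝ) ≤ (n : ℝ) ^ (2 : ℝ) :=
    hN.trans (Real.rpow_le_rpow_of_exponent_le hnR (by linarith [min_le_right c' 1]))
  have hMd : ∀ M : ℕ, M ≤ N → (M : ℝ) ^ θ ≤ b ^ 2 := by
    intro M hM
    have h1 : (M : ℝ) ≤ (n : ℝ) ^ (2 : ℝ) := (by exact_mod_cast hM : (M : ℝ) ≤ N).trans hNn2
    calc (M : ℝ) ^ θ ≤ ((n : ℝ) ^ (2 : ℝ)) ^ θ := Real.rpow_le_rpow (Nat.cast_nonneg _) h1 hθ0.le
      _ = b ^ 2 := by
          rw [← Real.rpow_mul hn0.le]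
          exact_mod_cast hpb 2
  have ha36 : a ^ 36 = (n : ℝ) ^ (ε / 2) := by
    rw [← hpa 36, hδ]
    congr 1
    push_cast
    ring
  have hee : (n : ℝ) ^ ε = (n : ℝ) ^ (ε / 2) * a ^ 36 := by
    rw [ha36, ← Real.rpow_add hn0]
    ring_nf
  have fin : ∀ X : ℝ, X ≤ (1 + 14 * R ^ 2 + 8 * K ^ 2) * a ^ 36 → X * (E ^ 3 / n) ≤ (n : ℝ) ^ ε * (E ^ 3 / n) := by
    intro X hX
    refine mul_le_mul_of_nonneg_right ?_ (by positivity)
    rw [hee]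
    exact hX.trans (mul_le_mul_of_nonneg_right hbig (by positivity))
  have ha1436 : a ^ 14 ≤ a ^ 36 := pow_le_pow_right₀ ha1 (by norm_num)
  have ha136 : 1 ≤ a ^ 36 := one_le_pow₀ ha1
  have hR2 : 0 ≤ 14 * R ^ 2 := by positivity
  have hK2 : 0 ≤ 8 * K ^ 2 := by positivity
  rcases lt_or_ge E' (a ^ 12 * E) with hcase | hcase
  · have q1 : E' ^ 3 ≤ (a ^ 12 * E) ^ 3 := pow_le_pow_left₀ hE0'.le hcase.le 3
    have q2 : E' ^ 3 / N ≤ (a ^ 12 * E) ^ 3 / n := div_le_div₀ (by positivity) q1 hn0 hnn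
    have q3 : (a ^ 12 * E) ^ 3 / n = a ^ 36 * (E ^ 3 / n) := by ring
    refine q2.trans (q3.le.trans (fin _ ?_))
    calc a ^ 36 = 1 * a ^ 36 := (one_mul _).symm
      _ ≤ (1 + 14 * R ^ 2 + 8 * K ^ 2) * a ^ 36 := mul_le_mul_of_nonneg_right (by linarith) (by positivity)
  -- growth of the unit
  have hgr : EE μ s N ≤ K * Real.sqrt ((N : ℝ) / n) * E := by
    have h1 := hK n N g2 g1 hnN
    rw [← hE] at h1
    exact h1
  obtain ⟨L, hL1, hL2, hL3⟩ := hpig N (g7.trans hnN)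
  -- the tilt
  obtain ⟨r, hr⟩ : ∃ r : ℝ, r = R * b ^ 2 / E' := ⟨_, rfl⟩
  have hr0 : 0 < r := by rw [hr]; positivity
  have habs : |r| = r := abs_of_pos hr0
  have hrle : r ≤ R * a ^ 2 / E' := by
    rw [hr]
    exact div_le_div_of_nonneg_right (mul_le_mul_of_nonneg_left hba2 hR0.le) hE0'.le
  have hrE : r * E ≤ (a ^ 8)⁻¹ := by
    refine (mul_le_mul_of_nonneg_right hrle hE0.le).trans ?_
    rw [le_inv_comm₀ (by positivity) (by positivity), div_mul_eq_mul_div, inv_div, le_div_iff₀ (by positivity)]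
    have h1 : R * a ^ 10 ≤ a ^ 12 := by
      have h2 : R * a ^ 10 ≤ a * a ^ 10 := mul_le_mul_of_nonneg_right hRa (by positivity)
      have h3 : a * a ^ 10 = a ^ 11 := by ring
      have h4 : a ^ 11 ≤ a ^ 12 := pow_le_pow_right₀ ha1 (by norm_num)
      linarith
    calc a ^ 8 * (R * a ^ 2 * E) = R * a ^ 10 * E := by ring
      _ ≤ a ^ 12 * E := mul_le_mul_of_nonneg_right h1 hE0.le
      _ ≤ E' := hcase
  have hr1 : r ≤ 1 := by
    have h1 : r * 1 ≤ r * E := mul_le_mul_of_nonneg_left hE1 hr0.le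
    have h2 : (a ^ 8)⁻¹ ≤ 1 := inv_le_one_of_one_le₀ (one_le_pow₀ ha1)
    linarith
  have hrE' : r * E' ≤ (N : ℝ) ^ κ := by
    have h1 : r * E' = R * b ^ 2 := by
      rw [hr]
      field_simp
    have h2 : R * b ^ 2 ≤ b ^ 4 := by
      have h3 : R * b ^ 2 ≤ b * b ^ 2 := mul_le_mul_of_nonneg_right hRb (by positivity)
      have h4 : b * b ^ 2 = b ^ 3 := by ring
      have h5 : b ^ 3 ≤ b ^ 4 := pow_le_pow_right₀ hb1 (by norm_num)
      linarith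
    have h3 : b ^ 4 = (n : ℝ) ^ κ := by
      rw [← hpb 4, hθ]
      congr 1
      push_cast
      ring
    rw [h1]
    refine h2.trans ?_
    rw [h3]
    exact Real.rpow_le_rpow hn0.le hnn hκ0.le
  have hJN : (J : ℝ) = N / n := by
    rw [hNJ, eq_div_iff hn0.ne']
    push_cast
    ring
  -- telescope
  have hD : DA17 F N L r = ∑ l ∈ Finset.range J, (DA17 F (n + l * n) L r - DA17 F (l * n) L r) := by
    rw [hNJ, teleA17 F n J L r]
    have : DA17 F 0 L r = 0 := by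
      unfold DA17
      rw [hF0 L r, hF0 L (-r)]
      ring
    rw [this, zero_add]
  obtain ⟨q, hq⟩ : ∃ q : ℝ, q = (n : ℝ) ^ (-c') := ⟨_, rfl⟩
  have hq0 : 0 ≤ q := by rw [hq]; exact Real.rpow_nonneg hn0.le _
  have e8 : (n : ℝ) ^ (-(2 * (4 * δ))) = (a ^ 8)⁻¹ := by
    rw [Real.rpow_neg hn0.le, ← hpa 8]
    congr 2
    push_cast
    ring
  have e4 : (n : ℝ) ^ (4 * δ) = a ^ 4 := by exact_mod_cast hpa 4
  rw [e4] at hmw
  rw [Real.rpow_neg hn0.le, e4] at hv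
  have hmE : (m : ℝ) ≤ a ^ 5 * E ^ 2 := by
    have h1 := hL n g3
    rw [← hb, ← hE] at h1
    have h2 : b * E ^ 2 ≤ a * E ^ 2 := mul_le_mul_of_nonneg_right hba (by positivity)
    calc (m : ℝ) ≤ a ^ 4 * wd μ s n := hmw
      _ ≤ a ^ 4 * (a * E ^ 2) := mul_le_mul_of_nonneg_left (h1.trans h2) (by positivity)
      _ = a ^ 5 * E ^ 2 := by ring
  have hv0 : 0 < (v : ℝ) := lt_of_lt_of_le (by positivity) hv
  have hvne : v ≠ 0 := by
    intro h0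
    rw [h0] at hv0
    simp at hv0
  have hq1 : (m : ℝ) * r ^ 2 / v ≤ 1 := by
    rw [div_le_one hv0]
    refine le_trans ?_ hv
    have h2 : E * r ≤ (a ^ 8)⁻¹ := by
      rw [mul_comm]
      exact hrE
    have h3 : (E * r) ^ 2 ≤ ((a ^ 8)⁻¹) ^ 2 := pow_le_pow_left₀ (by positivity) h2 2
    have h4 : a ^ 5 * ((a ^ 8)⁻¹) ^ 2 ≤ (a ^ 4)⁻¹ := by
      have e2 : a ^ 5 * ((a ^ 8)⁻¹) ^ 2 = (a ^ 11)⁻¹ := by field_simp
      rw [e2]
      exact inv_anti₀ (by positivity) (pow_le_pow_right₀ ha1 (by norm_num))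
    have h5 : (m : ℝ) * r ^ 2 ≤ a ^ 5 * E ^ 2 * r ^ 2 := mul_le_mul_of_nonneg_right hmE (by positivity)
    calc (m : ℝ) * r ^ 2 ≤ a ^ 5 * (E * r) ^ 2 := by rw [mul_pow]; linarith
      _ ≤ a ^ 5 * ((a ^ 8)⁻¹) ^ 2 := mul_le_mul_of_nonneg_left h3 (by positivity)
      _ ≤ (a ^ 4)⁻¹ := h4
  have hPs := psi17 (ν := law μ) (m := m) (P := fun η k => W μ s η 0 n (y₀ + ((k : ℕ) : ℤ))) hvne hm1
    (fun k => measurable_W 0 n _) (fun η k => W_nonneg η 0 n _) (fun η => by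
      refine Finset.sum_pos' (fun k _ => W_nonneg η 0 n _) ⟨0, Finset.mem_univ _, W_pos η 0 ?_ ?_⟩
      · simpa using hy0
      · simp only [Fin.val_zero, Nat.cast_zero, add_zero]
        omega) hq1
  have hblk : ∀ l ∈ Finset.range J, DA17 F (n + l * n) L r - DA17 F (l * n) L r ≤
      7 * (a ^ 5 * E ^ 2) * r ^ 2 * (a ^ 5 * E) + 4 * (q * E) := by
    intro l hl
    have hlJ : l < J := Finset.mem_range.1 hl
    obtain ⟨M, hMM⟩ : ∃ M : ℕ, M = l * n := ⟨_, rfl⟩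
    rw [← hMM]
    have hM2 : M ≤ N := by
      rw [hMM, hNJ]
      exact Nat.mul_le_mul_right _ hlJ.le
    obtain ⟨K₀, K₁, hA⟩ := hM N hnN
      (hN.trans (Real.rpow_le_rpow_of_exponent_le hnR (by linarith [min_le_left c' 1]))) L hL1 hL2 M hM2
    rw [e8] at hA
    have A1 := hA r (by rw [habs, ← hE]; exact hrE) (by rw [habs, ← hE']; exact hrE')
    have A2 := hA (-r) (by rw [abs_neg, habs, ← hE]; exact hrE) (by rw [abs_neg, habs, ← hE']; exact hrE')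
    have A3 := hA 0 (by rw [abs_zero, zero_mul]; positivity) (by rw [abs_zero, zero_mul]; positivity)
    have A4 := dblkA17 A3 A1 A2
    rw [← hE, ← hq] at A4
    have B1 := (abs_le.1 A4).2
    have B4 := (abs_le.1 hPs).2
    have B5 := blkF17 (r := r) hE0 ha1 hmE hv
    refine (sub_le_iff_le_add.1 B1).trans ?_
    rw [add_comm (4 * (q * E))]
    exact add_le_add (B4.trans B5) le_rfl
  have hsum : ∑ l ∈ Finset.range J, (DA17 F (n + l * n) L r - DA17 F (l * n) L r) ≤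
      N / n * (7 * (a ^ 5 * E ^ 2) * r ^ 2 * (a ^ 5 * E) + 4 * (q * E)) := by
    refine (Finset.sum_le_sum hblk).trans ?_
    rw [Finset.sum_const, Finset.card_range, nsmul_eq_mul, hJN]
  -- the lower bound
  have hFlow : E' ≤ DA17 F N L r := by
    have h1 := hlow N (g6.trans hnN) L r hr0.le
    have h3 := hU N (g4.trans hnN)
    have h4 := hMd N le_rfl
    rw [← hE'] at h1 h3
    have hwN : 0 ≤ wd μ s N := by
      have := (h.vA_pos g1').le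
      unfold wd
      positivity
    have h5 : E' ^ 2 ≤ b ^ 2 * wd μ s N := h3.trans (mul_le_mul_of_nonneg_right h4 hwN)
    have h6 : (C + 2) * E' ≤ r * (c * wd μ s N) := by
      have e1 : r * (c * wd μ s N) = R * c * ((b ^ 2 * wd μ s N) / E') := by
        rw [hr]
        ring
      rw [e1, hRc]
      refine mul_le_mul_of_nonneg_left ?_ (by linarith)
      rw [le_div_iff₀ hE0']
      calc E' * E' = E' ^ 2 := by ring
        _ ≤ _ := h5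
    have h7 : 2 ≤ E' := by
      have h8 : a ≤ a ^ 12 := le_self_pow₀ ha1 (by norm_num)
      have h9 : a ^ 12 * 1 ≤ a ^ 12 * E := mul_le_mul_of_nonneg_left hE1 (by positivity)
      linarith
    unfold DA17
    linarith
  have hnum := numF17 (n := n) (N := N) (E := E) (E' := E') (a := a) (K := K) (R := R) (q := q)
    (F := DA17 F N L r) (B := 0) hn0 hn0' hE0 ha1 hcase hFlow (by positivity) (by
      have h1 : r ^ 2 ≤ (R * a ^ 2 / E') ^ 2 := pow_le_pow_left₀ hr0.le hrle 2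
      have h2 : 7 * (a ^ 5 * E ^ 2) * r ^ 2 * (a ^ 5 * E) ≤ 7 * (a ^ 5 * E ^ 2) * (R * a ^ 2 / E') ^ 2 * (a ^ 5 * E) :=
        mul_le_mul_of_nonneg_right (mul_le_mul_of_nonneg_left h1 (by positivity)) (by positivity)
      have h3 : (N : ℝ) / n * (7 * (a ^ 5 * E ^ 2) * r ^ 2 * (a ^ 5 * E) + 4 * (q * E)) ≤
          N / n * (7 * (a ^ 5 * E ^ 2) * (R * a ^ 2 / E') ^ 2 * (a ^ 5 * E) + 4 * (q * E)) :=
        mul_le_mul_of_nonneg_left (by linarith) (by positivity)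
      rw [hD]
      linarith) (by
      rw [hq]
      have h1 : (N : ℝ) / n ≤ (n : ℝ) ^ c' := by
        rw [div_le_iff₀ hn0]
        refine hN.trans ?_
        rw [add_comm, Real.rpow_add hn0, Real.rpow_one]
        exact mul_le_mul_of_nonneg_right (Real.rpow_le_rpow_of_exponent_le hnR (min_le_left _ _)) hn0.le
      calc (n : ℝ) ^ (-c') * (N / n) ≤ (n : ℝ) ^ (-c') * (n : ℝ) ^ c' :=
            mul_le_mul_of_nonneg_left h1 (Real.rpow_nonneg hn0.le _)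
        _ = 1 := by
            rw [← Real.rpow_add hn0]
            simp) hq0 (by
      rw [← hE'] at hgr
      have h2 := pow_le_pow_left₀ hE0'.le hgr 2
      have h3 : (K * Real.sqrt ((N : ℝ) / n) * E) ^ 2 = K ^ 2 * ((N : ℝ) / n) * E ^ 2 := by
        rw [mul_pow, mul_pow, Real.sq_sqrt (by positivity)]
      linarith)
  refine hnum.trans (fin _ ?_)
  have w1 : 14 * R ^ 2 * a ^ 14 ≤ 14 * R ^ 2 * a ^ 36 := mul_le_mul_of_nonneg_left ha1436 hR2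
  have w2 : 8 * K ^ 2 * 1 ≤ 8 * K ^ 2 * a ^ 36 := mul_le_mul_of_nonneg_left ha136 hK2
  have w3 : (1 + 14 * R ^ 2 + 8 * K ^ 2) * a ^ 36 = a ^ 36 + 14 * R ^ 2 * a ^ 36 + 8 * K ^ 2 * a ^ 36 := by ring
  rw [w3]
  linarith only [w1, w2, ha136]

/-- **One step.** -/
theorem coreL17 (h : In μ s c C n₀) (hG : Gr17 μ s) (hL : LB17 μ s) (hU : UB17 μ s) (hF0 : ∀ (L : ℕ) (r : ℝ), F 0 L r = F 0 L 0)
    (hlow : LowA17 μ s c C F) (hpig : PigA17 F) (hM : LMA17 μ s F) :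
    ∃ c₁ : ℝ, 0 < c₁ ∧ ∀ ε : ℝ, 0 < ε → ∃ n₁ : ℕ, ∀ n, n₁ ≤ n → ∀ n' : ℕ, n ≤ n' → (n' : ℝ) ≤ (n : ℝ) ^ (1 + c₁) →
      EE μ s n' ^ 3 / n' ≤ (n : ℝ) ^ ε * (EE μ s n ^ 3 / n) := by
  obtain ⟨c₁, hc₁, h1⟩ := coreLm17 h hG hL hU hF0 hlow hpig hM
  obtain ⟨K, n₂, hK1, hK⟩ := hG
  refine ⟨c₁, hc₁, fun ε hε => ?_⟩
  obtain ⟨n₃, h1⟩ := h1 (ε / 2) (by positivity)
  obtain ⟨n₄, h4⟩ := eventually_atTop.1 (ev_pow17 (8 * K ^ 3) (show 0 < ε / 2 by positivity))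
  refine ⟨max (max n₂ n₃) (max n₄ 1), fun n hn N hnN hN => ?_⟩
  have g1 : 1 ≤ n := by omega
  have hn0 : (0 : ℝ) < n := by exact_mod_cast g1
  obtain ⟨J, hJ⟩ : ∃ J : ℕ, J = N / n := ⟨_, rfl⟩
  obtain ⟨N', hN'⟩ : ∃ N' : ℕ, N' = J * n := ⟨_, rfl⟩
  have hJ1 : 1 ≤ J := by
    rw [hJ]
    exact (Nat.one_le_div_iff (by omega)).2 hnN
  have a1 : N' ≤ N := by
    rw [hN', hJ]
    exact Nat.div_mul_le_self _ _
  have a2 : N < N' + n := by
    rw [hN', hJ]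
    exact Nat.lt_div_mul_add (a := N) (b := n) (by omega)
  have a3 : n ≤ N' := by
    rw [hN']
    exact Nat.le_mul_of_pos_left n (by omega)
  have b1 : (N' : ℝ) ≤ N := by exact_mod_cast a1
  have b2 : (N : ℝ) ≤ 2 * N' := by
    have h5 : N ≤ 2 * N' := by omega
    exact_mod_cast h5
  have b3 : (0 : ℝ) < N' := by
    have h5 : 0 < N' := by omega
    exact_mod_cast h5
  have b4 : (0 : ℝ) < N := by linarith
  have h2 := h1 n (by omega) J hJ1 (by rw [← hN']; linarith)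
  rw [← hN'] at h2
  have h3 := hK N' N (by omega) (by omega) a1
  have h5 : Real.sqrt ((N : ℝ) / N') ≤ 2 := by
    rw [Real.sqrt_le_left (by norm_num), div_le_iff₀ b3]
    linarith
  have hE' := EE_pos (μ := μ) (s := s) N'
  have hE := EE_pos (μ := μ) (s := s) N
  have h6 : EE μ s N ≤ 2 * K * EE μ s N' := by
    calc EE μ s N ≤ K * Real.sqrt ((N : ℝ) / N') * EE μ s N' := h3
      _ ≤ K * 2 * EE μ s N' :=
          mul_le_mul_of_nonneg_right (mul_le_mul_of_nonneg_left h5 (by linarith)) hE'.le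
      _ = 2 * K * EE μ s N' := by ring
  have h7 : EE μ s N ^ 3 / N ≤ (2 * K * EE μ s N') ^ 3 / N' :=
    div_le_div₀ (by positivity) (pow_le_pow_left₀ hE.le h6 3) b3 b1
  have e1 : (n : ℝ) ^ ε = (n : ℝ) ^ (ε / 2) * (n : ℝ) ^ (ε / 2) := by
    rw [← Real.rpow_add hn0]
    ring_nf
  have hq := h4 n (by omega)
  have hX : 0 ≤ EE μ s n ^ 3 / n := by
    have := EE_pos (μ := μ) (s := s) n
    positivity
  have hp : 0 ≤ (n : ℝ) ^ (ε / 2) := Real.rpow_nonneg hn0.le _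
  calc EE μ s N ^ 3 / N ≤ (2 * K * EE μ s N') ^ 3 / N' := h7
    _ = 8 * K ^ 3 * (EE μ s N' ^ 3 / N') := by ring
    _ ≤ 8 * K ^ 3 * ((n : ℝ) ^ (ε / 2) * (EE μ s n ^ 3 / n)) := mul_le_mul_of_nonneg_left h2 (by positivity)
    _ ≤ (n : ℝ) ^ (ε / 2) * ((n : ℝ) ^ (ε / 2) * (EE μ s n ^ 3 / n)) := mul_le_mul_of_nonneg_right hq (by positivity)
    _ = (n : ℝ) ^ ε * (EE μ s n ^ 3 / n) := by
        rw [e1]
        ring

/-- **The upper half**, from the loss of memory over the composite future. -/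
theorem thirdL17 (h : In μ s c C n₀) (hG : Gr17 μ s) (hL : LB17 μ s) (hU : UB17 μ s) (hF0 : ∀ (L : ℕ) (r : ℝ), F 0 L r = F 0 L 0)
    (hlow : LowA17 μ s c C F) (hpig : PigA17 F) (hM : LMA17 μ s F) {ε : ℝ} (hε : 0 < ε) :
    ∀ᶠ n : ℕ in atTop, EE μ s n ≤ (n : ℝ) ^ (1 / 3 + ε) := by
  obtain ⟨c₁, hc₁, h1⟩ := coreL17 h hG hL hU hF0 hlow hpig hM
  exact up_of17 (fun n => EE_pos (μ := μ) (s := s) n) hc₁ h1 hε

/-- **Both halves**, with the lower half in the form of a window. -/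
theorem fullL17 (h : In μ s c C n₀) (hG : Gr17 μ s) (hL : LB17 μ s) (hU : UB17 μ s) (hF0 : ∀ (L : ℕ) (r : ℝ), F 0 L r = F 0 L 0)
    (hlow : LowA17 μ s c C F) (hpig : PigA17 F) (hM : LMA17 μ s F) (hW : CVF17 μ s) {ε : ℝ} (hε : 0 < ε) :
    ∀ᶠ n : ℕ in atTop, (n : ℝ) ^ (1 / 3 - ε) ≤ EE μ s n ∧ EE μ s n ≤ (n : ℝ) ^ (1 / 3 + ε) := by
  obtain ⟨c₁, hc₁, h1⟩ := coreL17 h hG hL hU hF0 hlow hpig hM
  exact (low_of17 (fun n => EE_pos (μ := μ) (s := s) n) hc₁ h1 hW hε).and (thirdL17 h hG hL hU hF0 hlow hpig hM hε)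

end core

end

end Pool.Agent.W_7d29a1_C1
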