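import Pool.Agent.W_7d29a1_HS.Scale
import Pool.Agent.W_7d29a1_HZ.PB

/-!
[C1] The mean of the positive part of `- log W` in the cone of the half width `K wd n`, any constant `K` (helper35): `ep_K`. `In.inn` gives
it for the small constant `c`; here the path is cut into `B` blocks of equal slopes.
-/

set_option autoImplicit false

namespace Pool.Agent.W_7d29a1_C1.EpK35

open MeasureTheory ProbabilityTheory Filter Topology Finset
open Pool.Agent.W_7d29a1_F Pool.Agent.W_7d29a1_h4g Pool.Agent.W_7d29a1_H Pool.Agent.W_7d29a1_HS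

noncomputable section

variable {μ : Measure ℝ} {s : ℝ} [IsProbabilityMeasure μ]

theorem ep_add (hEM : Pool.Agent.W_7d29a1_h47.EM μ) {m n : ℕ} {k y : ℤ} (h0 : 0 ≤ k) (h1 : k ≤ m) (h2 : 0 ≤ y) (h3 : y ≤ n) :
    ep μ s (m + n) (k + y) ≤ ep μ s m k + ep μ s n y := by
  have e1 := ep_at (μ := μ) s 0 m k
  have e2 := ep_at (μ := μ) s ((0 : Pt).1 + m, (0 : Pt).2 + k) n y
  rw [← e1, ← e2, ← integral_add (Xp_int hEM s 0 h0 h1) (Xp_int hEM s _ h2 h3)]
  unfold ep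
  refine integral_mono (Xp_int hEM s 0 (by omega) (by push_cast; omega))
    ((Xp_int hEM s 0 h0 h1).add (Xp_int hEM s _ h2 h3)) fun η => ?_
  have h4 := X_add_le (μ := μ) (s := s) η 0 h0 h1 h2 h3
  show max (X μ s η 0 (m + n) (k + y)) 0 ≤ max (X μ s η 0 m k) 0 + max (X μ s η ((0 : Pt).1 + m, (0 : Pt).2 + k) n y) 0
  refine max_le ?_ (add_nonneg (le_max_right _ _) (le_max_right _ _))
  have h5 := le_max_left (X μ s η 0 m k) 0
  have h6 := le_max_left (X μ s η ((0 : Pt).1 + m, (0 : Pt).2 + k) n y) 0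
  linarith

/-- The chain of blocks along the line of the slope `v`. -/
theorem ep_chain (hEM : Pool.Agent.W_7d29a1_h47.EM μ) {v D : ℝ} (hv0 : 0 ≤ v) (hv1 : v ≤ 1) {l : ℕ}
    (hD : ∀ y : ℤ, |(y : ℝ) - v * l| ≤ 1 → 0 ≤ y → y ≤ l → ep μ s l y ≤ D) (i : ℕ) :
    0 ≤ ⌊v * ((i * l : ℕ) : ℝ)⌋ ∧ ⌊v * ((i * l : ℕ) : ℝ)⌋ ≤ ((i * l : ℕ) : ℤ) ∧
      ep μ s (i * l) ⌊v * ((i * l : ℕ) : ℝ)⌋ ≤ i * D := by
  induction i with
  | zero =>
    simp only [Nat.zero_mul, Nat.cast_zero, mul_zero, Int.floor_zero, zero_mul]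
    exact ⟨le_rfl, le_rfl, le_of_eq ep_zero⟩
  | succ i ih =>
    obtain ⟨h1, h2, h3⟩ := ih
    have e0 : (i + 1) * l = i * l + l := by ring
    rw [e0]
    obtain ⟨a, ha⟩ : ∃ a : ℤ, a = ⌊v * ((i * l : ℕ) : ℝ)⌋ := ⟨_, rfl⟩
    obtain ⟨b, hb⟩ : ∃ b : ℤ, b = ⌊v * ((i * l + l : ℕ) : ℝ)⌋ := ⟨_, rfl⟩
    rw [← ha] at h1 h2 h3
    rw [← hb]
    have a1 : (a : ℝ) ≤ v * ((i * l : ℕ) : ℝ) := by rw [ha]; exact Int.floor_le _
    have a2 : v * ((i * l : ℕ) : ℝ) < a + 1 := by rw [ha]; exact Int.lt_floor_add_one _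
    have b1 : (b : ℝ) ≤ v * ((i * l + l : ℕ) : ℝ) := by rw [hb]; exact Int.floor_le _
    have b2 : v * ((i * l + l : ℕ) : ℝ) < b + 1 := by rw [hb]; exact Int.lt_floor_add_one _
    have e1 : v * ((i * l + l : ℕ) : ℝ) = v * ((i * l : ℕ) : ℝ) + v * l := by
      push_cast
      ring
    have hvl0 : 0 ≤ v * l := mul_nonneg hv0 (Nat.cast_nonneg l)
    have hvl1 : v * l ≤ l := by
      have := mul_le_mul_of_nonneg_right hv1 (Nat.cast_nonneg (α := ℝ) l)
      linarith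
    have c1 : 0 ≤ b - a := by
      have : (a : ℝ) < b + 1 := by linarith
      have h4 : a < b + 1 := by exact_mod_cast this
      omega
    have c2 : b - a ≤ l := by
      have : (b : ℝ) < a + 1 + l := by linarith
      have h4 : b < a + 1 + l := by exact_mod_cast this
      omega
    have c3 : |((b - a : ℤ) : ℝ) - v * l| ≤ 1 := by
      rw [abs_le]
      push_cast
      constructor <;> linarith
    have h4 := hD (b - a) c3 c1 c2
    have h5 := ep_add (s := s) hEM h1 h2 c1 c2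
    rw [show a + (b - a) = b by ring] at h5
    refine ⟨by omega, by push_cast at h2 ⊢; omega, ?_⟩
    push_cast
    linarith

variable {c C : ℝ} {n₀ : ℕ}

/-- **THE MEAN OF `(- log W)⁺` IN THE CONE OF THE HALF WIDTH `K wd n`.** -/
theorem ep_K (h : In μ s c C n₀) {K : ℝ} (hK : 0 ≤ K) : ∃ D : ℝ, 0 < D ∧ ∃ n₁ : ℕ, ∀ n : ℕ, n₁ ≤ n → ∀ y : ℤ,
    |(y : ℝ) - sl μ s * n| ≤ K * wd μ s n → 0 ≤ y ∧ y ≤ n ∧ ep μ s n y ≤ D * EE μ s n := by
  have hc0 := h.c0
  have hC0 : 0 < C := lt_of_lt_of_le one_pos h.C1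
  have hsl0 := h.sl_pos
  have hsl1 := h.sl_lt
  obtain ⟨a, K₁, ha, ha1, hK₁, hw⟩ := Pool.Agent.W_7d29a1_HZ.wd'_pow h
  obtain ⟨n1, hwd⟩ := Pool.Agent.W_7d29a1_HZ.wd'_eq h
  have hK₁0 : 0 < K₁ := by linarith
  -- the number of blocks
  obtain ⟨B, hB⟩ : ∃ B : ℕ, 1 ≤ B ∧ K * K₁ * 2 ≤ c * (B : ℝ) ^ a := by
    have h1 : Tendsto (fun B : ℕ => c * (B : ℝ) ^ a) atTop atTop :=
      ((tendsto_rpow_atTop ha).comp tendsto_natCast_atTop_atTop).const_mul_atTop hc0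
    obtain ⟨B, h2, h3⟩ := ((h1.eventually_ge_atTop (K * K₁ * 2)).and (eventually_ge_atTop 1)).exists
    exact ⟨B, h3, h2⟩
  obtain ⟨hB1, hB2⟩ := hB
  have hBR : (1 : ℝ) ≤ B := by exact_mod_cast hB1
  -- the slope
  obtain ⟨n2, hv⟩ := eventually_atTop.1 ((h.tv.const_mul K).eventually_le_const
    (show K * 0 < min (sl μ s) (1 - sl μ s) by rw [mul_zero]; exact lt_min hsl0 (by linarith)))
  refine ⟨2 * B * C, by positivity, max (B * (max n₀ n1 + 1 + B)) n2, fun n hn y hy => ?_⟩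
  have hn2 : n2 ≤ n := (le_max_right _ _).trans hn
  have hnB : B * (max n₀ n1 + 1 + B) ≤ n := (le_max_left _ _).trans hn
  obtain ⟨l, hl⟩ : ∃ l : ℕ, l = n / B := ⟨_, rfl⟩
  have hl1 : max n₀ n1 + 1 + B ≤ l := by
    rw [hl, Nat.le_div_iff_mul_le (by omega), mul_comm]
    exact hnB
  have hl2 : B * l ≤ n := by
    rw [hl]
    exact Nat.mul_div_le _ _
  have hl3 : n < B * l + B := by
    have := Nat.lt_mul_div_succ n (show 0 < B by omega)
    rw [← hl] at this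
    calc n < B * (l + 1) := this
      _ = B * l + B := by ring
  have hln0 : n₀ ≤ l := by
    have := le_max_left n₀ n1
    omega
  have hln1 : n1 ≤ l := by
    have := le_max_right n₀ n1
    omega
  have hl01 : 1 ≤ l := by omega
  have hlR : (0 : ℝ) < l := by exact_mod_cast hl01
  have hln : l ≤ n := by
    have : 1 * l ≤ B * l := Nat.mul_le_mul_right l hB1
    omega
  have hn1 : 1 ≤ n := hl01.trans hln
  have hnR : (0 : ℝ) < n := by exact_mod_cast hn1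
  obtain ⟨v, hvd⟩ : ∃ v : ℝ, v = (y : ℝ) / n := ⟨_, rfl⟩
  have hyv : (y : ℝ) = v * n := by rw [hvd]; field_simp
  have hv1 : |v - sl μ s| ≤ K * vA 1 μ s n := by
    have h1 : v - sl μ s = ((y : ℝ) - sl μ s * n) / n := by rw [hvd]; field_simp
    rw [h1, abs_div, abs_of_pos hnR, div_le_iff₀ hnR]
    refine hy.trans (le_of_eq ?_)
    unfold wd
    ring
  have hv2 := hv n hn2
  have hv3 := hv1.trans hv2
  rw [abs_le] at hv3
  have hm1 := min_le_left (sl μ s) (1 - sl μ s)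
  have hm2 := min_le_right (sl μ s) (1 - sl μ s)
  have hv0 : 0 ≤ v := by linarith
  have hv4 : v ≤ 1 := by linarith
  have hy0 : 0 ≤ y := by
    have : (0 : ℝ) ≤ y := by rw [hyv]; positivity
    exact_mod_cast this
  have hyn : y ≤ n := by
    have h1 : (y : ℝ) ≤ n := by
      rw [hyv]
      have := mul_le_mul_of_nonneg_right hv4 hnR.le
      linarith
    exact_mod_cast h1
  refine ⟨hy0, hyn, ?_⟩
  -- one block: length `m`, between `l` and `2 l`
  have hKv : K * vA 1 μ s n ≤ c * vA 1 μ s l / 2 := by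
    have h1 := (hw l n hl01 hln).2.2
    rw [(hwd l hln1).1, (hwd n (hln1.trans hln)).1] at h1
    have h2 : (B : ℝ) ≤ (n : ℝ) / l := by
      rw [le_div_iff₀ hlR]
      exact_mod_cast hl2
    have h3 : (B : ℝ) ^ a ≤ ((n : ℝ) / l) ^ a := Real.rpow_le_rpow (by linarith) h2 ha.le
    have hnl : 0 < (n : ℝ) / l := by positivity
    have h4 : ((n : ℝ) / l) ^ (1 - a) = ((n : ℝ) / l) / ((n : ℝ) / l) ^ a := by
      rw [Real.rpow_sub hnl, Real.rpow_one]
    have hBa : 0 < (B : ℝ) ^ a := Real.rpow_pos_of_pos (by linarith) _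
    have hnla : 0 < ((n : ℝ) / l) ^ a := Real.rpow_pos_of_pos hnl _
    have hvl := h.vA_nonneg l
    have h5 : vA 1 μ s n * ((n : ℝ) / l) ^ a ≤ K₁ * vA 1 μ s l := by
      unfold wd at h1
      rw [h4] at h1
      have h6 : K₁ * (((n : ℝ) / l) / ((n : ℝ) / l) ^ a) * (l * vA 1 μ s l) = n * (K₁ * vA 1 μ s l / ((n : ℝ) / l) ^ a) := by
        field_simp
      rw [h6] at h1
      have h7 := le_of_mul_le_mul_left h1 hnR
      rw [le_div_iff₀ hnla] at h7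
      exact h7
    have hvn := h.vA_nonneg n
    have h6 : vA 1 μ s n * (B : ℝ) ^ a ≤ K₁ * vA 1 μ s l := (mul_le_mul_of_nonneg_left h3 hvn).trans h5
    have h7 : K * (vA 1 μ s n * (B : ℝ) ^ a) ≤ (c * (B : ℝ) ^ a / 2) * vA 1 μ s l := by
      calc K * (vA 1 μ s n * (B : ℝ) ^ a) ≤ K * (K₁ * vA 1 μ s l) := mul_le_mul_of_nonneg_left h6 hK
        _ = (K * K₁ * 2) / 2 * vA 1 μ s l := by ring
        _ ≤ (c * (B : ℝ) ^ a) / 2 * vA 1 μ s l := mul_le_mul_of_nonneg_right (by linarith) hvl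
    have h8 : (K * vA 1 μ s n) * (B : ℝ) ^ a ≤ (c * vA 1 μ s l / 2) * (B : ℝ) ^ a := by
      calc (K * vA 1 μ s n) * (B : ℝ) ^ a = K * (vA 1 μ s n * (B : ℝ) ^ a) := by ring
        _ ≤ (c * (B : ℝ) ^ a / 2) * vA 1 μ s l := h7
        _ = (c * vA 1 μ s l / 2) * (B : ℝ) ^ a := by ring
    exact le_of_mul_le_mul_right h8 hBa
  have hblock : ∀ m : ℕ, m ≤ 4 * l → ∀ z : ℤ, |(z : ℝ) - v * m| ≤ 1 → 0 ≤ z → z ≤ m → ep μ s m z ≤ C * EE μ s n := by
    intro m hm z hz hz0 hzm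
    have h1 := h.inn l hln0 m z hm hz0 hzm ?_
    · exact h1.trans (mul_le_mul_of_nonneg_left (EE_mono (μ := μ) (s := s) hln) hC0.le)
    · have hmR : (0 : ℝ) ≤ m := Nat.cast_nonneg m
      have e1 : (z : ℝ) - sl μ s * m = ((z : ℝ) - v * m) + (v - sl μ s) * m := by ring
      rw [e1]
      refine (abs_add_le _ _).trans ?_
      rw [abs_mul, abs_of_nonneg hmR]
      have h2 : |v - sl μ s| * m ≤ (c * vA 1 μ s l / 2) * m := mul_le_mul_of_nonneg_right (hv1.trans hKv) hmR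
      have h3 : 0 ≤ c * vA 1 μ s l * m := mul_nonneg (mul_nonneg hc0.le (h.vA_nonneg l)) hmR
      linarith
  obtain ⟨q0, q1, q2⟩ := ep_chain (s := s) h.em hv0 hv4 (fun z hz hz0 hzl => hblock l (by omega) z hz hz0 hzl) (B - 1)
  -- the last block
  obtain ⟨A, hA⟩ : ∃ A : ℤ, A = ⌊v * (((B - 1) * l : ℕ) : ℝ)⌋ := ⟨_, rfl⟩
  rw [← hA] at q0 q1 q2
  obtain ⟨m, hm⟩ : ∃ m : ℕ, m = n - (B - 1) * l := ⟨_, rfl⟩
  have e2 : (B - 1) * l + l = B * l := by
    obtain ⟨B', rfl⟩ : ∃ B', B = B' + 1 := ⟨B - 1, by omega⟩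
    rw [Nat.add_sub_cancel]
    ring
  have e3 : (B - 1) * l + m = n := by omega
  have a1 : (A : ℝ) ≤ v * (((B - 1) * l : ℕ) : ℝ) := by rw [hA]; exact Int.floor_le _
  have a2 : v * (((B - 1) * l : ℕ) : ℝ) < A + 1 := by rw [hA]; exact Int.lt_floor_add_one _
  have e4 : (y : ℝ) = v * (((B - 1) * l : ℕ) : ℝ) + v * m := by
    rw [hyv, ← mul_add]
    congr 1
    have : ((n : ℕ) : ℝ) = (((B - 1) * l + m : ℕ) : ℝ) := by rw [e3]
    rw [this]
    push_cast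
    ring
  have hmR : (0 : ℝ) ≤ m := Nat.cast_nonneg m
  have hvm0 : 0 ≤ v * m := mul_nonneg hv0 hmR
  have hvm1 : v * m ≤ m := by
    have := mul_le_mul_of_nonneg_right hv4 hmR
    linarith
  have c1 : 0 ≤ y - A := by
    have : (A : ℝ) ≤ y := by linarith
    have h4 : A ≤ y := by exact_mod_cast this
    omega
  have c2 : y - A ≤ m := by
    have : (y : ℝ) < A + 1 + m := by linarith
    have h4 : y < A + 1 + m := by exact_mod_cast this
    omega
  have c3 : |((y - A : ℤ) : ℝ) - v * m| ≤ 1 := by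
    rw [abs_le]
    push_cast
    constructor <;> linarith
  have hm4 : m ≤ 4 * l := by omega
  have h4 := hblock m hm4 (y - A) c3 c1 c2
  have h5 := ep_add (s := s) h.em q0 q1 c1 c2
  rw [e3, show A + (y - A) = y by ring] at h5
  have hE0 := EE_pos (μ := μ) (s := s) n
  have h6 : ((B - 1 : ℕ) : ℝ) ≤ B := Nat.cast_le.2 (Nat.sub_le _ _)
  have h7 : ((B - 1 : ℕ) : ℝ) * (C * EE μ s n) ≤ B * (C * EE μ s n) := mul_le_mul_of_nonneg_right h6 (by positivity)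
  have h8 : 1 * (C * EE μ s n) ≤ B * (C * EE μ s n) := mul_le_mul_of_nonneg_right hBR (by positivity)
  linarith

end

end Pool.Agent.W_7d29a1_C1.EpK35
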