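import Pool.Agent.W_7d29a1_C1.Late87
import Pool.Agent.W_7d29a1_C1.Seq71

/-!
Both halves (MP_7d29a1_pr), attractor route [C1], SEP (move the contact): THE EQUIVALENCE `E u` OF `HitF` FOR WINDOWS.
(helper53)

`B v`: the sites of the slab `v` (a window), pairwise disjoint for `v ∈ S`; `T v`, `L v`: typical, lucky, events of the
sites of `B v`. `Eqv B T L S u η η'`: the two environments differ only in the slabs `v ∈ S`, `v < u`, and a slab in which
they differ is typical or lucky in both of them. All the fields of `Lt87.HitF` except `mH` and `excl` (`hitF53`); `excl`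
follows from the three environments `η` (slab `u` typical), `η'' = gl (B u) η η'`, `η'` (slab `u` lucky): `η` and `η''` differ
only in the slabs `< u`, `η''` and `η'` only in the slab `u`.
-/

set_option autoImplicit false

namespace Pool.Agent.W_7d29a1_C1.E53

open MeasureTheory Finset
open Pool.Agent.W_7d29a1_F
open Pool.Agent.W_7d29a1_C1.S71
open Pool.Agent.W_7d29a1_C1.Lt87
open scoped ENNReal

variable {μ : Measure ℝ} [IsProbabilityMeasure μ]

/-- The geometry: disjoint windows, typical and lucky are events of the window. -/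
structure Wins (B : ℕ → Set Pt) (T L : ℕ → Set Env) (S : Finset ℕ) : Prop where
  dis : ∀ u ∈ S, ∀ v ∈ S, u ≠ v → Disjoint (B u) (B v)
  rT : ∀ u ∈ S, Off (B u)ᶜ (T u)
  rL : ∀ u ∈ S, Off (B u)ᶜ (L u)
  mT : ∀ u ∈ S, MeasurableSet (T u)
  mL : ∀ u ∈ S, MeasurableSet (L u)
  dTL : ∀ u ∈ S, Disjoint (T u) (L u)

/-- The two environments differ only in the slabs `v ∈ S`, `v < u`, inside typical or lucky. -/
def Eqv (B : ℕ → Set Pt) (T L : ℕ → Set Env) (S : Finset ℕ) (u : ℕ) (η η' : Env) : Prop :=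
  (∀ x, (∀ v ∈ S, v < u → x ∉ B v) → η x = η' x) ∧
    ∀ v ∈ S, v < u → (∀ x ∈ B v, η x = η' x) ∨ (η ∈ T v ∪ L v ∧ η' ∈ T v ∪ L v)

variable {B : ℕ → Set Pt} {T L : ℕ → Set Env} {S : Finset ℕ}

/-- an event of the window `A` does not see a change off `A` -/
theorem off_iff {A : Set Pt} {E : Set Env} (h : Off Aᶜ E) {η η' : Env} (he : ∀ x ∈ A, η x = η' x) : η ∈ E ↔ η' ∈ E :=
  h _ _ fun x hx => he x (by simpa using hx)

theorem Wins.rN (h : Wins B T L S) {u : ℕ} (hu : u ∈ S) : Off (B u)ᶜ (T u ∪ L u) := (h.rT u hu).union (h.rL u hu)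

/-- equal on the windows which are not further inside -/
theorem Wins.on (h : Wins B T L S) {u : ℕ} {η η' : Env} (he : Eqv B T L S u η η') {v : ℕ} (hv : v ∈ S) (huv : u ≤ v) :
    ∀ x ∈ B v, η x = η' x := fun x hx => he.1 x fun w hw hwu hxw =>
  (Set.disjoint_left.1 (h.dis w hw v hv (by omega))) hxw hx

theorem Eqv.refl' (u : ℕ) (η : Env) : Eqv B T L S u η η := ⟨fun _ _ => rfl, fun _ _ _ => Or.inl fun _ _ => rfl⟩

theorem Eqv.symm' {u : ℕ} {η η' : Env} (h : Eqv B T L S u η η') : Eqv B T L S u η' η :=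
  ⟨fun x hx => (h.1 x hx).symm, fun v hv hvu => (h.2 v hv hvu).elim (fun e => Or.inl fun x hx => (e x hx).symm)
    fun e => Or.inr ⟨e.2, e.1⟩⟩

theorem Wins.trans' (h : Wins B T L S) {u : ℕ} {η η' η'' : Env} (h1 : Eqv B T L S u η η') (h2 : Eqv B T L S u η' η'') :
    Eqv B T L S u η η'' := by
  refine ⟨fun x hx => (h1.1 x hx).trans (h2.1 x hx), fun v hv hvu => ?_⟩
  rcases h1.2 v hv hvu with e1 | e1
  · rcases h2.2 v hv hvu with e2 | e2
    · exact Or.inl fun x hx => (e1 x hx).trans (e2 x hx)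
    · exact Or.inr ⟨(off_iff (h.rN hv) e1).2 e2.1, e2.2⟩
  · rcases h2.2 v hv hvu with e2 | e2
    · exact Or.inr ⟨e1.1, (off_iff (h.rN hv) e2).1 e1.2⟩
    · exact Or.inr ⟨e1.1, e2.2⟩

theorem Wins.mono' (h : Wins B T L S) {u v : ℕ} (huv : u ≤ v) {η η' : Env} (he : Eqv B T L S u η η') :
    Eqv B T L S v η η' := by
  refine ⟨fun x hx => he.1 x fun w hw hwu => hx w hw (by omega), fun w hw hwv => ?_⟩
  by_cases hwu : w < u
  · exact he.2 w hw hwu
  · exact Or.inl (h.on he hw (by omega))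

theorem Wins.step' (h : Wins B T L S) {u : ℕ} (hu : u ∈ S) {ω : Env} (h1 : ω ∈ T u ∪ L u) {η : Env}
    (h2 : gl (B u) η ω ∈ T u ∪ L u) : Eqv B T L S (u + 1) ω (gl (B u) η ω) := by
  refine ⟨fun x hx => (gl_of_not_mem (hx u hu (by omega)) _ _).symm, fun v hv hvu => ?_⟩
  by_cases huv : v = u
  · subst huv
    exact Or.inr ⟨h1, h2⟩
  · exact Or.inl fun x hx => (gl_of_not_mem
      (fun h3 => (Set.disjoint_left.1 (h.dis v hv u hu huv)) hx h3) _ _).symm

/-- **The middle environment**: `η'` with the slab `u` of `η`. -/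
theorem Wins.mid (h : Wins B T L S) {u : ℕ} (hu : u ∈ S) {η η' : Env} (he : Eqv B T L S (u + 1) η η') :
    Eqv B T L S u η (gl (B u) η η') := by
  refine ⟨fun x hx => ?_, fun v hv hvu => ?_⟩
  · by_cases hxu : x ∈ B u
    · exact (gl_of_mem hxu _ _).symm
    · rw [gl_of_not_mem hxu]
      refine he.1 x fun v hv hvu => ?_
      rcases Nat.lt_succ_iff_lt_or_eq.1 hvu with h1 | h1
      · exact hx v hv h1
      · exact h1 ▸ hxu
  · have hne : v ≠ u := by omega
    have hdis : ∀ x ∈ B v, x ∉ B u := fun x hx h3 => (Set.disjoint_left.1 (h.dis v hv u hu hne)) hx h3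
    have e1 : ∀ x ∈ B v, gl (B u) η η' x = η' x := fun x hx => gl_of_not_mem (hdis x hx) _ _
    rcases he.2 v hv (by omega) with e | e
    · exact Or.inl fun x hx => (e x hx).trans (e1 x hx).symm
    · exact Or.inr ⟨e.1, (off_iff (h.rN hv) e1).2 e.2⟩

theorem Wins.eT' (h : Wins B T L S) {u : ℕ} (hu : u ∈ S) {η η' : Env} (he : Eqv B T L S u η η') (hT : η ∈ T u) :
    η' ∈ T u := (off_iff (h.rT u hu) (h.on he hu le_rfl)).1 hT

theorem Wins.eL' (h : Wins B T L S) {u : ℕ} (hu : u ∈ S) {η η' : Env} (he : Eqv B T L S u η η') (hL : η ∈ L u) :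
    η' ∈ L u := (off_iff (h.rL u hu) (h.on he hu le_rfl)).1 hL

/-- One slab. -/
theorem Wins.slab53 (h : Wins B T L S) {u : ℕ} (hu : u ∈ S) : Slab (law μ) (gl (B u)) (T u) (L u) where
  mp := mp_gl (B u)
  rr := fun η η' ω => by
    ext x
    by_cases hx : x ∈ B u
    · rw [gl_of_mem hx, gl_of_mem hx]
    · rw [gl_of_not_mem hx, gl_of_not_mem hx, gl_of_not_mem hx]
  mT := h.mT u hu
  mL := h.mL u hu
  disj := h.dTL u hu

/-- **The data of the price of a late alternative**, from the exclusion for the three environments: `ω` (slab `u` typical),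
`ω''` (slab `u` of `ω`, the rest of `ω'`), `ω'` (slab `u` lucky). -/
theorem Wins.hitF53 (h : Wins B T L S) {H : Set Env} (mH : MeasurableSet H)
    (ex : ∀ u ∈ S, ∀ ω ω'' ω' : Env, Eqv B T L S u ω ω'' → (∀ x, x ∉ B u → ω'' x = ω' x) → (∀ x ∈ B u, ω'' x = ω x) →
      ω ∈ T u → ω'' ∈ T u → ω' ∈ L u → ω ∈ H → ω' ∈ H → False) :
    HitF (law μ) (fun u => gl (B u)) S T L (Eqv B T L S) H where
  slab := fun _ hu => h.slab53 hu
  mH := mH
  eqv := fun u => ⟨fun η => Eqv.refl' u η, fun h1 => h1.symm', fun h1 h2 => h.trans' h1 h2⟩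
  emono := fun _ _ huv _ _ he => h.mono' huv he
  estep := fun _ hu _ h1 _ h2 => h.step' hu h1 h2
  eT := fun _ hu _ _ he hT => h.eT' hu he hT
  eL := fun _ hu _ _ he hL => h.eL' hu he hL
  excl := fun u hu ω ω' he hT hH hL hH' => by
    have h1 := h.mid hu he
    exact ex u hu ω _ ω' h1 (fun x hx => gl_of_not_mem hx _ _) (fun x hx => gl_of_mem hx _ _) hT
      ((off_iff (h.rT u hu) fun x hx => (gl_of_mem hx _ _).symm).1 hT) hL hH hH'

end Pool.Agent.W_7d29a1_C1.E53
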