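import Pool.Agent.W_7d29a1_C1.SepQ49

/-!
MP_7d29a1_pr, attractor route [C1], SEP: TOOLS FOR `Evn` (SepQ49 of helper49): thresholds for the base height, thresholds for every
constant. (helper41)
-/

set_option autoImplicit false

namespace Pool.Agent.W_7d29a1_C1.Q49

open Finset MeasureTheory Filter
open Pool.Agent.W_7d29a1_F Pool.Agent.W_7d29a1_h4g Pool.Agent.W_7d29a1_H Pool.Agent.W_7d29a1_HS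
open Pool.Agent.W_7d29a1_C1.H60
open Pool.Agent.W_7d29a1_C1.H40 (Tk)
open Pool.Agent.W_7d29a1_C1.G37 (Gm Wok gmW)
open Pool.Agent.W_7d29a1_C1.SF98
open Pool.Agent.W_7d29a1_C1.N49
open scoped ENNReal

noncomputable section

/-- The base height is beyond every number. -/
theorem base41 {e0 : ℝ} (he : 0 < e0) (T₁ : ℕ) : ∃ n₁ : ℕ, ∀ n : ℕ, n₁ ≤ n → ∀ T0 : ℕ, (n : ℝ) ^ e0 ≤ T0 → T₁ ≤ T0 := by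
  obtain ⟨n₁, h⟩ := eventually_atTop.1 (((tendsto_rpow_atTop he).comp tendsto_natCast_atTop_atTop).eventually_ge_atTop (T₁ : ℝ))
  refine ⟨n₁, fun n hn T0 hT => ?_⟩
  have h1 : (T₁ : ℝ) ≤ (n : ℝ) ^ e0 := h n hn
  exact_mod_cast h1.trans hT

variable {P : Pre} {D : Dat} {μ : Measure ℝ} {s : ℝ} {φ ψ : Phi}

/-- **FROM A THRESHOLD IN EVERY CONSTANT AND IN THE BASE HEIGHT.** -/
theorem Evn.of_thr41 (h : ∃ q₁ : ℕ, ∀ q : ℕ, q₁ ≤ q → ∃ m2₁ : ℕ, ∀ m2 : ℕ, m2₁ ≤ m2 → ∀ η : ℝ, 0 < η → ∀ A : ℕ, 1 ≤ A →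
    ∃ lam₁ : ℕ, ∀ lam : ℕ, lam₁ ≤ lam → ∃ m0₁ : ℕ, ∀ m0 : ℕ, m0₁ ≤ m0 → ∀ g1 : ℕ, 1 ≤ g1 → ∀ e0 : ℝ, 0 < e0 → ∃ T₁ n₁ : ℕ,
    ∀ c₂ δ κ n, n₁ ≤ n → 0 < c₂ → c₂ ≤ 1 → 0 < δ → δ ≤ c₂ / 16 → 0 < κ →
    ∀ Γ T0 M mt τ0 (hc : Ct P D μ s e0 c₂ δ κ n Γ T0 M mt m2 g1) (hW : Wok μ s T0 D.K), T₁ ≤ T0 →
      Gr (fun u => EE μ s (Tk T0 D.K u)) D.κ D.Cg →
      GP P D Γ (P.G hW M m0 g1 m2 hc.h1 hc.h2) mt (fun u => EE μ s (Tk T0 D.K u)) q η A lam n τ0 →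
      φ q η A lam n Γ (P.G hW M m0 g1 m2 hc.h1 hc.h2) mt τ0 (fun u => EE μ s (Tk T0 D.K u))) : Evn P D μ s φ := by
  obtain ⟨q₁, h⟩ := h
  refine ⟨q₁, fun q hq => ?_⟩
  obtain ⟨m2₁, h⟩ := h q hq
  refine ⟨m2₁, fun m2 hm2 η hη A hA => ?_⟩
  obtain ⟨l₁, h⟩ := h m2 hm2 η hη A hA
  refine ⟨l₁, fun lam hl => ?_⟩
  obtain ⟨m0₁, h⟩ := h lam hl
  refine ⟨m0₁, fun m0 hm0 g1 hg1 e0 he0 => ?_⟩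
  obtain ⟨T₁, n₂, h⟩ := h m0 hm0 g1 hg1 e0 he0
  obtain ⟨n₁, hn₁⟩ := base41 he0 T₁
  refine EvA.of_ev ⟨max n₁ n₂, fun n hn c₂ δ κ h1 h2 h3 h4 h5 Γ T0 M mt τ0 hc hW hg hG => ?_⟩
  exact h c₂ δ κ n ((le_max_right _ _).trans hn) h1 h2 h3 h4 h5 Γ T0 M mt τ0 hc hW (hn₁ n ((le_max_left _ _).trans hn) T0 hc.T0_ge) hg hG

/-- **FROM A THRESHOLD OF THE BASE HEIGHT**, which may depend on all constants. -/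
theorem Evn.of_base41 (h : ∀ (q m2 : ℕ) (η : ℝ) (A lam m0 g1 : ℕ), 0 < η → 1 ≤ A → 1 ≤ g1 → ∃ T₁ : ℕ,
    ∀ e0 c₂ δ κ n, 0 < e0 → 0 < c₂ → c₂ ≤ 1 → 0 < δ → δ ≤ c₂ / 16 → 0 < κ →
    ∀ Γ T0 M mt τ0 (hc : Ct P D μ s e0 c₂ δ κ n Γ T0 M mt m2 g1) (hW : Wok μ s T0 D.K), T₁ ≤ T0 →
      Gr (fun u => EE μ s (Tk T0 D.K u)) D.κ D.Cg →
      GP P D Γ (P.G hW M m0 g1 m2 hc.h1 hc.h2) mt (fun u => EE μ s (Tk T0 D.K u)) q η A lam n τ0 →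
      φ q η A lam n Γ (P.G hW M m0 g1 m2 hc.h1 hc.h2) mt τ0 (fun u => EE μ s (Tk T0 D.K u))) : Evn P D μ s φ :=
  Evn.of_thr41 ⟨0, fun q _ => ⟨0, fun m2 _ η hη A hA => ⟨0, fun lam _ => ⟨0, fun m0 _ g1 hg1 e0 he0 => by
    obtain ⟨T₁, h⟩ := h q m2 η A lam m0 g1 hη hA hg1
    exact ⟨T₁, 0, fun c₂ δ κ n _ h1 h2 h3 h4 h5 => h e0 c₂ δ κ n he0 h1 h2 h3 h4 h5⟩⟩⟩⟩⟩

/-- **FROM ONE THRESHOLD OF THE BASE HEIGHT** for all the constants. -/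
theorem Evn.of_T041 (h : ∃ T₁ : ℕ, ∀ (q m2 : ℕ) (η : ℝ) (A lam m0 g1 : ℕ) (e0 c₂ δ κ : ℝ) (n : ℕ) (Γ : Cx) (T0 M mt τ0 : ℕ)
    (hc : Ct P D μ s e0 c₂ δ κ n Γ T0 M mt m2 g1) (hW : Wok μ s T0 D.K), T₁ ≤ T0 → 0 ≤ δ →
      GP P D Γ (P.G hW M m0 g1 m2 hc.h1 hc.h2) mt (fun u => EE μ s (Tk T0 D.K u)) q η A lam n τ0 →
      φ q η A lam n Γ (P.G hW M m0 g1 m2 hc.h1 hc.h2) mt τ0 (fun u => EE μ s (Tk T0 D.K u))) : Evn P D μ s φ := by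
  obtain ⟨T₁, h⟩ := h
  exact Evn.of_base41 fun q m2 η A lam m0 g1 _ _ _ => ⟨T₁, fun e0 c₂ δ κ n _ _ _ h3 _ _ Γ T0 M mt τ0 hc hW hT _ hG =>
    h q m2 η A lam m0 g1 e0 c₂ δ κ n Γ T0 M mt τ0 hc hW hT h3.le hG⟩

end

end Pool.Agent.W_7d29a1_C1.Q49
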