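import Pool.Agent.W_7d29a1_C1.D2H4
import Pool.Agent.W_7d29a1_C1.HpE39

/-!
MP_7d29a1_pr, [C1] attractor route, TAME: THE GEOMETRY AND THE CONTEXT FOR (D2), EVENTUALLY. (helper4)
-/

set_option autoImplicit false

namespace Pool.Agent.W_7d29a1_C1.D2H4

open MeasureTheory ProbabilityTheory Finset Filter
open Pool.Agent.W_7d29a1_F Pool.Agent.W_7d29a1_h4g Pool.Agent.W_7d29a1_H Pool.Agent.W_7d29a1_HS
open Pool.Agent.W_7d29a1_C1.H60 (Cx)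
open Pool.Agent.W_7d29a1_C1.SF98
open Pool.Agent.W_7d29a1_C1.PW86 (gj)
open Pool.Agent.W_7d29a1_C1.G37 (Gm Wok gmW)
open Pool.Agent.W_7d29a1_C1.Dep6
open Pool.Agent.W_7d29a1_C1.Q49
open Pool.Agent.W_7d29a1_C1.Hp39

noncomputable section

variable {μ : Measure ℝ} [IsProbabilityMeasure μ] {s c C : ℝ} {n₀ : ℕ} {P : Pre} {Dd : Dat}

omit [IsProbabilityMeasure μ] in
theorem evn_Cw4 : Evn P Dd μ s fun _ _ _ _ _ _ G _ _ _ => G.Cw = 2 * Dd.K :=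
  Evn.of_all fun _ _ _ _ _ _ _ _ _ _ _ _ _ _ _ _ _ _ _ _ _ _ _ _ _ _ _ _ _ => rfl

/-- The force at the heights of the events, one scale above the top included. -/
theorem evn_fo4 (h0 : In μ s c C n₀) (hE9 : ∀ᶠ n : ℕ in atTop, (n : ℝ) ^ (1 / 9 : ℝ) ≤ EE μ s n) {ε : ℝ} (hε : 0 < ε) :
    Evn P Dd μ s fun _ _ _ _ _ Γ G mt _ _ => (∀ v, v ≤ mt + 1 → |Γ.h| * wd μ s (HsC6 G v) ≤ ε * EE μ s (HsC6 G v)) ∧
      |Γ.h| * HsC6 G (mt + 1) ≤ ε := by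
  have hK1 : (1 : ℝ) ≤ Dd.K := by exact_mod_cast (show 1 ≤ Dd.K by have := Dd.hK; omega)
  have hK0 : (0 : ℝ) < Dd.K := by linarith
  have hK3 : 0 < ε / (16 * (Dd.K : ℝ) ^ 3) := by positivity
  refine (((evn_tilt h0 hE9 hK3).and evn_geo).and ((evn_wok).and (evn_n fun _ _ _ _ _ _ _ => 1))).mono
    fun q η A lam n Γ G mt τ0 E h => ?_
  obtain ⟨⟨⟨-, ht⟩, hw, -, eK, -, -, -, -, -, -⟩, ⟨hW, -⟩, hn⟩ := h
  have hT1 : ∀ u, 1 ≤ G.T u := fun u => hW.hT.trans (Nat.le_mul_of_pos_right _ (Nat.pow_pos (by have := hW.hK; omega)))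
  have hh : 0 ≤ |Γ.h| := abs_nonneg _
  -- the scale `min v mt`
  have key : ∀ v, v ≤ mt + 1 → (HsC6 G v : ℝ) ≤ 8 * (Dd.K : ℝ) ^ 3 * G.T (min v mt) := by
    intro v hv
    have h1 : G.T v ≤ G.K * G.T (min v mt) := by
      rcases Nat.lt_or_ge mt v with h2 | h2
      · have e : v = mt + 1 := by omega
        rw [e, min_eq_right (by omega)]
        show G.T0 * G.K ^ (mt + 1) ≤ G.K * (G.T0 * G.K ^ mt)
        exact le_of_eq (by ring)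
      · rw [min_eq_left h2]
        exact Nat.le_mul_of_pos_left _ (by have := hW.hK; omega)
    have h2 : HsC6 G v ≤ 8 * Dd.K ^ 3 * G.T (min v mt) := by
      unfold HsC6
      calc 8 * G.K ^ 2 * G.T v ≤ 8 * G.K ^ 2 * (G.K * G.T (min v mt)) := Nat.mul_le_mul_left _ h1
        _ = 8 * Dd.K ^ 3 * G.T (min v mt) := by rw [eK]; ring
    exact_mod_cast h2
  refine ⟨fun v hv => ?_, ?_⟩
  · obtain ⟨v', hv'⟩ : ∃ v', v' = min v mt := ⟨_, rfl⟩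
    have h1 := key v hv
    rw [← hv'] at h1
    have hm : G.T v' ≤ HsC6 G v := by
      have h2 := le_HsC6 (G := G) v
      have h3 : G.T v' ≤ G.T v := G.T_mono (by rw [hv']; exact min_le_left _ _)
      omega
    have h2 := wd_lower_one h0 (hT1 v') hm
    have h3 := (ht v' (by rw [hv']; exact min_le_right _ _)).1
    rw [hw] at h3
    have h4 : EE μ s (G.T v') ≤ EE μ s (HsC6 G v) := EE_mono hm
    have hT0 : (0 : ℝ) < G.T v' := by exact_mod_cast hT1 v'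
    have hwd : 0 ≤ wd μ s (G.T v') := (h0.wd_pos (hT1 v')).le
    have h5 : wd μ s (HsC6 G v) ≤ 16 * (Dd.K : ℝ) ^ 3 * wd μ s (G.T v') := by
      refine le_of_mul_le_mul_left (h2.trans ?_) hT0
      calc 2 * ((HsC6 G v : ℝ) * wd μ s (G.T v')) ≤ 2 * ((8 * (Dd.K : ℝ) ^ 3 * G.T v') * wd μ s (G.T v')) :=
            mul_le_mul_of_nonneg_left (mul_le_mul_of_nonneg_right h1 hwd) (by norm_num)
        _ = _ := by ring
    have e : ε / (16 * (Dd.K : ℝ) ^ 3) * (16 * (Dd.K : ℝ) ^ 3) = ε := by field_simp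
    calc |Γ.h| * wd μ s (HsC6 G v) ≤ |Γ.h| * (16 * (Dd.K : ℝ) ^ 3 * wd μ s (G.T v')) := mul_le_mul_of_nonneg_left h5 hh
      _ = 16 * (Dd.K : ℝ) ^ 3 * (|Γ.h| * wd μ s (G.T v')) := by ring
      _ ≤ 16 * (Dd.K : ℝ) ^ 3 * (ε / (16 * (Dd.K : ℝ) ^ 3) * EE μ s (G.T v')) := mul_le_mul_of_nonneg_left h3 (by positivity)
      _ = (ε / (16 * (Dd.K : ℝ) ^ 3) * (16 * (Dd.K : ℝ) ^ 3)) * EE μ s (G.T v') := by ring
      _ = ε * EE μ s (G.T v') := by rw [e]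
      _ ≤ _ := mul_le_mul_of_nonneg_left h4 hε.le
  · have h1 := key (mt + 1) le_rfl
    rw [min_eq_right (by omega)] at h1
    have h3 := (ht mt le_rfl).2
    have a1 : (1 : ℝ) ≤ G.T mt := by exact_mod_cast hT1 mt
    have a2 : (0 : ℝ) ≤ Real.log n := Real.log_nonneg (by exact_mod_cast hn)
    have a3 : (G.T mt : ℝ) ≤ (G.T mt : ℝ) ^ 3 * (1 + Real.log n) := by
      have b1 : (G.T mt : ℝ) ≤ (G.T mt : ℝ) ^ 3 := le_self_pow₀ a1 (by norm_num)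
      have b2 : (0 : ℝ) ≤ (G.T mt : ℝ) ^ 3 := by positivity
      nlinarith
    have e : ε / (16 * (Dd.K : ℝ) ^ 3) * (16 * (Dd.K : ℝ) ^ 3) = ε := by field_simp
    calc |Γ.h| * HsC6 G (mt + 1) ≤ |Γ.h| * (8 * (Dd.K : ℝ) ^ 3 * G.T mt) := mul_le_mul_of_nonneg_left h1 hh
      _ = 8 * (Dd.K : ℝ) ^ 3 * (|Γ.h| * G.T mt) := by ring
      _ ≤ 8 * (Dd.K : ℝ) ^ 3 * (|Γ.h| * ((G.T mt : ℝ) ^ 3 * (1 + Real.log n))) :=
        mul_le_mul_of_nonneg_left (mul_le_mul_of_nonneg_left a3 hh) (by positivity)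
      _ ≤ 8 * (Dd.K : ℝ) ^ 3 * (ε / (16 * (Dd.K : ℝ) ^ 3)) := mul_le_mul_of_nonneg_left h3 (by positivity)
      _ = ε / (16 * (Dd.K : ℝ) ^ 3) * (16 * (Dd.K : ℝ) ^ 3) / 2 := by ring
      _ = ε / 2 := by rw [e]
      _ ≤ ε := by linarith

/-- **THE GEOMETRY AND THE CONTEXT FOR (D2), EVENTUALLY.** -/
theorem evn_dg4 (h0 : In μ s c C n₀) (hE9 : ∀ᶠ n : ℕ in atTop, (n : ℝ) ^ (1 / 9 : ℝ) ≤ EE μ s n)
    (f : ℕ → ℕ → ℝ → ℕ → ℕ → ℕ → ℕ → ℕ) :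
    Evn P Dd μ s fun q η A lam _ Γ G mt _ _ => Dg4 μ s c Γ G mt Dd.K (f q G.m2 η A lam G.m0 G.m1) := by
  have hc := h0.c0
  have hε : 0 < min (c / 8) (1 / 2) := lt_min (by linarith) (by norm_num)
  refine (((evn_fo4 h0 hE9 hε).and (evn_geo.and evn_Cw4)).and ((evn_adm.and (evn_T0 f)).and ((evn_N h0).and evn_wok))).mono
    fun q η A lam n Γ G mt τ0 E h => ?_
  obtain ⟨⟨⟨hf, hs⟩, ⟨hw, -, eK, ev, -, -, -, -, -⟩, hCw⟩, ⟨⟨-, es, -, -, -, -⟩, hT⟩, hN, hW, -⟩ := h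
  refine ⟨es, ev, eK, hw, hCw.le, hT, fun v => hN _ ?_, fun v hv => (hf v (by omega)).trans ?_, ?_⟩
  · have h1 : G.T0 ≤ G.T v := Nat.le_mul_of_pos_right _ (Nat.pow_pos (by have := hW.hK; omega))
    omega
  · exact mul_le_mul_of_nonneg_right (min_le_left _ _) (EE_pos _).le
  · have h1 : G.T mt ≤ G.T (mt + 1) := G.T_mono (Nat.le_succ _)
    have h2 := le_HsC6 (G := G) (mt + 1)
    have h3 : (4 * G.T mt : ℝ) ≤ HsC6 G (mt + 1) := by exact_mod_cast (show 4 * G.T mt ≤ HsC6 G (mt + 1) by omega)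
    exact (mul_le_mul_of_nonneg_left h3 (abs_nonneg _)).trans (hs.trans (min_le_right _ _))

end

end Pool.Agent.W_7d29a1_C1.D2H4
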