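import Mathlib

/-!
MP_7d29a1_pr, [C1] attractor route, SEP: A CHAIN OF CHOICES IS A FILTER. (helper5)

A number is chosen large (`atTop`), small and positive (`𝓝[>] 0`), or among the values which a theorem gives (`𝓟 {g | Spec g}`); a chain of
choices is the iterated `Filter.bind`. Conjunction of two statements 'for all values chosen one after the other, each beyond a threshold' =
`Filter.Eventually.and`; the existence of the values = `Filter.NeBot` (`neBot_bind5`).
-/

set_option autoImplicit false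

namespace Pool.Agent.W_7d29a1_C1.EvF

open Filter Set Topology

variable {α β : Type*}

/-- A large number. -/
theorem lg5 [Preorder α] [IsDirected α (· ≤ ·)] [Nonempty α] {P : α → Prop} : (∀ᶠ x in (atTop : Filter α), P x) ↔ ∃ a, ∀ x, a ≤ x → P x :=
  eventually_atTop

/-- A small positive number. -/
theorem sm5 {P : ℝ → Prop} : (∀ᶠ x in 𝓝[>] (0 : ℝ), P x) ↔ ∃ a : ℝ, 0 < a ∧ ∀ x, 0 < x → x ≤ a → P x := by
  rw [eventually_nhdsWithin_iff]
  constructor
  · intro h
    obtain ⟨a, ha, h⟩ := Metric.eventually_nhds_iff.1 h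
    refine ⟨a / 2, half_pos ha, fun x hx hxa => h ?_ hx⟩
    rw [Real.dist_eq, sub_zero, abs_of_pos hx]
    linarith
  · rintro ⟨a, ha, h⟩
    filter_upwards [gt_mem_nhds ha] with x hx hx0
    exact h x hx0 (le_of_lt hx)

/-- A value given by a theorem. -/
theorem sp5 {S P : α → Prop} : (∀ᶠ x in 𝓟 {x | S x}, P x) ↔ ∀ x, S x → P x := eventually_principal

/-- One step. -/
theorem ev_bind5 {F : Filter α} {G : α → Filter β} {P : β → Prop} : (∀ᶠ y in F.bind G, P y) ↔ ∀ᶠ x in F, ∀ᶠ y in G x, P y :=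
  eventually_bind

/-- The last step. -/
theorem ev_pure5 {x : α} {P : α → Prop} : (∀ᶠ y in (pure x : Filter α), P y) ↔ P x := eventually_pure

/-- **The values exist.** -/
theorem neBot_bind5 {F : Filter α} {G : α → Filter β} (hF : F.NeBot) (hG : ∀ᶠ x in F, (G x).NeBot) : (F.bind G).NeBot := by
  rw [neBot_iff]
  intro h
  have h1 : ∀ᶠ y in F.bind G, False := by rw [h]; exact eventually_bot
  rw [eventually_bind] at h1
  obtain ⟨x, hx, hx'⟩ := (hG.and h1).exists
  exact hx.ne (by rw [← empty_mem_iff_bot]; exact hx')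

theorem neBot_sp5 {S : α → Prop} (h : ∃ x, S x) : (𝓟 {x | S x}).NeBot := by
  obtain ⟨x, hx⟩ := h
  exact principal_neBot_iff.2 ⟨x, hx⟩

/-- What was asked of an earlier value is at hand later. -/
theorem ev_bind_of5 {F : Filter α} {G : α → Filter β} {P : β → Prop} {Q : α → Prop} (hQ : ∀ᶠ x in F, Q x)
    (h : ∀ x, Q x → ∀ᶠ y in G x, P y) : ∀ᶠ y in F.bind G, P y := by
  rw [eventually_bind]
  exact hQ.mono h

/-- The out rule. -/
theorem out5 {F : Filter α} (hF : F.NeBot) {P : α → Prop} (h : ∀ᶠ x in F, P x) : ∃ x, P x := h.exists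

end Pool.Agent.W_7d29a1_C1.EvF
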