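import Pool.Agent.W_7d29a1_C1.OuQ57
import Pool.Agent.W_7d29a1_C1.PreC40

/-!
Both halves (MP_7d29a1_pr), attractor route [C1], SEP + TAME: THE CLAUSES OF THE SLOTS `Ou`, `St`, `Fw` IN THE FILTER OF SepC2. (helper57)

* `ouK57` : five radii beyond a threshold which reads the slope, `J1` beyond the numbers of all the five;
* `stK57` : the outer radius of `St`; `fwK57` : the outer radius of `Fw`, `J1`; `clK57` : the three.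
-/

set_option autoImplicit false

namespace Pool.Agent.W_7d29a1_C1.EV57

open Filter MeasureTheory
open Pool.Agent.W_7d29a1_F hiding Bw G
open Pool.Agent.W_7d29a1_h4g Pool.Agent.W_7d29a1_HS
open Pool.Agent.W_7d29a1_H hiding ex gg
open Pool.Agent.W_7d29a1_C1.H60
open Pool.Agent.W_7d29a1_C1.G37 (Gm)
open Pool.Agent.W_7d29a1_C1.Q49
open Pool.Agent.W_7d29a1_C1.PW86
open Pool.Agent.W_7d29a1_C1.Hp2
open Pool.Agent.W_7d29a1_C1.OQ57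
open Pool.Agent.W_7d29a1_C1.Cs2

noncomputable section

variable {S : Is → Cst → Prop} {Dd : Dat} {μ : Measure ℝ} {s : ℝ} {t : Tm} {k D : ℕ} {Fs : Gm → Finset (ℕ → ℕ)} {e : Gm → ℕ}

/-- The clause of the slot `Ou` at one radius, with its order. -/
def OuK57 (Dd : Dat) (μ : Measure ℝ) (s : ℝ) (t : Tm) (k D : ℕ) (Fs : Gm → Finset (ℕ → ℕ)) (e : Gm → ℕ) : Prop :=
  ∀ sgm : ℝ, 0 < sgm → ∃ Rmin : ℝ, ∀ R : ℝ, Rmin ≤ R → ∃ J : ℕ, ∀ P : Pre, J ≤ P.J1 →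
    ClQ P Dd μ s t k D Fs fun Γ G E => cut86 G (e G) fun u κ => Ou37.Ou μ s Γ G E R (sgm * R) (sgm * R) sgm 0 u κ

/-- The clause of the slot `St`, with its order. -/
def StK57 (Dd : Dat) (μ : Measure ℝ) (s : ℝ) (t : Tm) (k D : ℕ) (Fs : Gm → Finset (ℕ → ℕ)) (e : Gm → ℕ) (aS : ℝ) : Prop :=
  ∀ βc : ℝ, 0 ≤ βc → ∃ b0 : ℝ, ∀ bS : ℝ, b0 ≤ bS → ∀ P : Pre,
    ClQ P Dd μ s t k D Fs fun Γ G E => cut86 G (e G) fun u κ => Sy78.St Γ G aS bS ((βc + 1 / 16) * E u) u κ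

/-- The clause of the slot `Fw`, with its order. -/
def FwK57 (Dd : Dat) (μ : Measure ℝ) (s : ℝ) (t : Tm) (k D : ℕ) (Fs : Gm → Finset (ℕ → ℕ)) (e : Gm → ℕ) : Prop :=
  ∀ b gf : ℝ, 0 ≤ b → 0 ≤ gf → ∃ a0 : ℝ, ∀ a : ℝ, a0 ≤ a → ∃ J : ℕ, ∀ P : Pre, J ≤ P.J1 →
    ClQ P Dd μ s t k D Fs fun Γ G E => cut86 G (e G) fun u κ => SD53.Fw Γ G a b (gf * E u) u κ

/-- **THE SLOT `Ou`.** -/
theorem ouK57 (S : Is → Cst → Prop) (h : OuK57 Dd μ s t k D Fs e) :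
    EvC S fun C => ClQ C.P Dd μ s t k D Fs fun Γ G E => cut86 G (e G) (OuN57 μ s C.sgm C.rc C.r0 C.R0 C.R2 C.R1 Γ G E 0) := by
  have h' : ∀ sgm : ℝ, ∃ Rmin : ℝ, ∀ R : ℝ, ∃ J : ℕ, 0 < sgm → Rmin ≤ R → ∀ P : Pre, J ≤ P.J1 →
      ClQ P Dd μ s t k D Fs fun Γ G E => cut86 G (e G) (OuL57 μ s sgm R Γ G E) := fun sgm => by
    by_cases h0 : 0 < sgm
    · obtain ⟨Rmin, h1⟩ := h sgm h0
      refine ⟨Rmin, fun R => ?_⟩
      by_cases h2 : Rmin ≤ R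
      · obtain ⟨J, h3⟩ := h1 R h2
        exact ⟨J, fun _ _ => h3⟩
      · exact ⟨0, fun _ h3 => absurd h3 h2⟩
    · exact ⟨0, fun _ => ⟨0, fun h1 => absurd h1 h0⟩⟩
  choose Rm Jf hf using h'
  filter_upwards [FC.pos S, evP40 S, FC.rc_ge S fun p => Rm p.sgm, FC.r0_ge S fun p => Rm p.sgm, FC.R0_ge S fun p => Rm p.sgm,
    FC.R2_ge S fun p => Rm p.sgm, FC.R1_ge S fun p => Rm p.sgm,
    FC.J1_ge S fun p => max (Jf p.sgm p.rc) (max (Jf p.sgm p.r0) (max (Jf p.sgm p.R0) (max (Jf p.sgm p.R2) (Jf p.sgm p.R1))))]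
    with C h0 hP h1 h2 h3 h4 h5 h6
  have g : max (Jf C.sgm C.rc) (max (Jf C.sgm C.r0) (max (Jf C.sgm C.R0) (max (Jf C.sgm C.R2) (Jf C.sgm C.R1)))) ≤ C.J1 := h6
  simp only [max_le_iff] at g
  obtain ⟨g1, g2, g3, g4, g5⟩ := g
  have key : ∀ R, Rm C.sgm ≤ R → Jf C.sgm R ≤ C.J1 →
      ClQ C.P Dd μ s t k D Fs fun Γ G E => cut86 G (e G) (OuL57 μ s C.sgm R Γ G E) := fun R a1 a2 =>
    hf C.sgm R h0.sgm a1 C.P (by rw [P_J1 hP]; exact a2)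
  exact (ClQ_interc (key _ h1 g1) (ClQ_interc (key _ h2 g2) (ClQ_interc (key _ h3 g3) (ClQ_interc (key _ h4 g4) (key _ h5 g5))))).mono
    (Evn.of_all fun _ _ _ _ _ _ _ _ _ _ _ _ _ _ _ _ _ _ _ _ _ _ _ _ _ _ _ _ _ _ _ =>
      cut_mono86 fun _ h => ⟨h.1, h.2.1, h.2.2.1.1, h.2.2.2.1.1, h.2.2.2.2.1⟩)

/-- **THE SLOT `St`.** -/
theorem stK57 (S : Is → Cst → Prop) (h : StK57 Dd μ s t k D Fs e (5 / 2)) :
    EvC S fun C => ClQ C.P Dd μ s t k D Fs fun Γ G E =>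
      cut86 G (e G) fun u κ => Sy78.St Γ G C.P.aS C.P.bS ((C.P.βc + 1 / 16) * E u - 0) u κ := by
  obtain ⟨b0, h⟩ := h (1 / 16) (by norm_num)
  filter_upwards [evP40 S, FC.bS_ge S fun _ => b0] with C hP h1
  rw [P_aS hP, P_bS hP, P_βc hP]
  simp only [sub_zero]
  exact h C.bS h1 C.P

/-- **THE SLOT `Fw`**, the strip is any function of the constants before `gf`. -/
theorem fwK57 (S : Is → Cst → Prop) (h : FwK57 Dd μ s t k D Fs e) :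
    EvC S fun C => ClQ C.P Dd μ s t k D Fs fun Γ G E => cut86 G (e G) fun u κ => SD53.Fw Γ G C.aF C.R1 (C.gf * E u - 0) u κ := by
  have h' : ∀ b gf : ℝ, ∃ a0 : ℝ, ∀ a : ℝ, ∃ J : ℕ, 0 ≤ b → 0 ≤ gf → a0 ≤ a → ∀ P : Pre, J ≤ P.J1 →
      ClQ P Dd μ s t k D Fs fun Γ G E => cut86 G (e G) fun u κ => SD53.Fw Γ G a b (gf * E u) u κ := fun b gf => by
    by_cases h0 : 0 ≤ b ∧ 0 ≤ gf
    · obtain ⟨a0, h1⟩ := h b gf h0.1 h0.2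
      refine ⟨a0, fun a => ?_⟩
      by_cases h2 : a0 ≤ a
      · obtain ⟨J, h3⟩ := h1 a h2
        exact ⟨J, fun _ _ _ => h3⟩
      · exact ⟨0, fun _ _ h3 => absurd h3 h2⟩
    · exact ⟨0, fun _ => ⟨0, fun h1 h2 => absurd ⟨h1, h2⟩ h0⟩⟩
  choose af Jf hf using h'
  filter_upwards [evP40 S, FC.R1_ge S fun _ => 0, FC.gf_ge S fun _ => 0, FC.aF_ge S fun p => af p.R1 p.gf,
    FC.J1_ge S fun p => Jf p.R1 p.gf p.aF] with C hP h1 h2 h3 h4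
  simp only [sub_zero]
  exact hf C.R1 C.gf C.aF h1 h2 h3 C.P (by rw [P_J1 hP]; exact h4)

/-- **THE THREE CLAUSES.** -/
theorem clK57 (S : Is → Cst → Prop) (h1 : OuK57 Dd μ s t k D Fs e) (h2 : StK57 Dd μ s t k D Fs e (5 / 2)) (h3 : FwK57 Dd μ s t k D Fs e) :
    EvC S fun C =>
      (ClQ C.P Dd μ s t k D Fs fun Γ G E => cut86 G (e G) (OuN57 μ s C.sgm C.rc C.r0 C.R0 C.R2 C.R1 Γ G E 0)) ∧
      (ClQ C.P Dd μ s t k D Fs fun Γ G E => cut86 G (e G) fun u κ => Sy78.St Γ G C.P.aS C.P.bS ((C.P.βc + 1 / 16) * E u - 0) u κ) ∧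
      ClQ C.P Dd μ s t k D Fs fun Γ G E => cut86 G (e G) fun u κ => SD53.Fw Γ G C.aF C.R1 (C.gf * E u - 0) u κ :=
  (ouK57 S h1).and ((stK57 S h2).and (fwK57 S h3))

end

end Pool.Agent.W_7d29a1_C1.EV57
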