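import Mathlib

/-!
Both halves (MP_7d29a1_pr), attractor route: exchange of two copies at the INNERMOST joint success, abstract form.
(helper9)

`σ k` = exchange of the inside boxes of scale `k` of the two copies (preserves the law), `J k` = joint success at
the scale `k`, `H` = (C w' - w C') g(B), antisymmetric under `σ k` on `J k` up to a small error.
-/

set_option autoImplicit false

namespace Pool.Agent.W_7d29a1_C1.H9

open MeasureTheory
open scoped ENNReal

variable {Ω : Type*} [MeasurableSpace Ω] {P : Measure Ω}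

/-- The innermost success is `k`. -/
def inner (J : ℕ → Set Ω) (k : ℕ) : Set Ω := J k \ ⋃ j ∈ Finset.range k, J j

theorem mem_inner {J : ℕ → Set Ω} {k : ℕ} {ω : Ω} : ω ∈ inner J k ↔ ω ∈ J k ∧ ∀ j < k, ω ∉ J j := by
  simp [inner]

theorem measurableSet_inner {J : ℕ → Set Ω} (hJ : ∀ k, MeasurableSet (J k)) (k : ℕ) :
    MeasurableSet (inner J k) :=
  (hJ k).diff (Finset.measurableSet_biUnion _ fun j _ => hJ j)

theorem inner_disjoint (J : ℕ → Set Ω) : Pairwise fun k k' => Disjoint (inner J k) (inner J k') := by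
  have key : ∀ k k', k < k' → Disjoint (inner J k) (inner J k') := by
    intro k k' h
    rw [Set.disjoint_left]
    intro ω h1 h2
    exact (mem_inner.1 h2).2 k h (mem_inner.1 h1).1
  intro k k' hne
  rcases lt_or_gt_of_ne hne with h | h
  · exact key k k' h
  · exact (key k' k h).symm

theorem biUnion_inner (J : ℕ → Set Ω) (m : ℕ) :
    (⋃ k ∈ Finset.range m, inner J k) = ⋃ k ∈ Finset.range m, J k := by
  classical
  ext ω
  simp only [Set.mem_iUnion, Finset.mem_range, exists_prop]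
  constructor
  · rintro ⟨k, hk, h⟩
    exact ⟨k, hk, (mem_inner.1 h).1⟩
  · rintro ⟨k, hk, h⟩
    have hex : ∃ k, ω ∈ J k := ⟨k, h⟩
    refine ⟨Nat.find hex, lt_of_le_of_lt (Nat.find_min' hex h) hk, mem_inner.2 ⟨Nat.find_spec hex, ?_⟩⟩
    intro j hj
    exact Nat.find_min hex hj

/-- One scale: exchange on a set `I`. -/
theorem one_scale {σ : Ω → Ω} (hσ : MeasurePreserving σ P P) {I D : Set Ω} (hI : MeasurableSet I)
    (hDm : MeasurableSet D) (hD : ∀ ω, ω ∉ D → (ω ∈ I ↔ σ ω ∈ I)) {H : Ω → ℝ} (hHm : Measurable H)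
    (hH : Integrable H P) :
    |∫ ω in I, H ω ∂P| ≤ (1 / 2) * (∫ ω in I, |H ω + H (σ ω)| ∂P + ∫ ω in D, |H (σ ω)| ∂P) := by
  have hHσ : Integrable (fun ω => H (σ ω)) P := hσ.integrable_comp_of_integrable hH
  have h1 : ∫ ω in I, H ω ∂P = ∫ ω, I.indicator H (σ ω) ∂P := by
    rw [← integral_indicator hI]
    have := integral_map (μ := P) hσ.measurable.aemeasurable
      (f := I.indicator H) (hHm.indicator hI).aestronglyMeasurable
    rw [hσ.map_eq] at this
    exact this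
  have h2 : ∫ ω in I, H ω ∂P = ∫ ω, I.indicator H ω ∂P := (integral_indicator hI).symm
  have hi1 : Integrable (fun ω => I.indicator H ω) P := hH.indicator hI
  have hi2 : Integrable (fun ω => I.indicator H (σ ω)) P :=
    hσ.integrable_comp_of_integrable (hH.indicator hI)
  have h3 : 2 * ∫ ω in I, H ω ∂P = ∫ ω, (I.indicator H ω + I.indicator H (σ ω)) ∂P := by
    rw [integral_add hi1 hi2, ← h1, ← h2]; ring
  have hsum : Integrable (fun ω => |H ω + H (σ ω)|) P := (hH.add hHσ).abs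
  have h4 : |2 * ∫ ω in I, H ω ∂P| ≤ ∫ ω in I, |H ω + H (σ ω)| ∂P + ∫ ω in D, |H (σ ω)| ∂P := by
    rw [h3, ← integral_indicator hI, ← integral_indicator hDm,
      ← integral_add (hsum.indicator hI) (hHσ.abs.indicator hDm)]
    refine (abs_integral_le_integral_abs).trans ?_
    refine integral_mono (hi1.add hi2).abs ((hsum.indicator hI).add (hHσ.abs.indicator hDm)) fun ω => ?_
    show |I.indicator H ω + I.indicator H (σ ω)| ≤
      I.indicator (fun ω => |H ω + H (σ ω)|) ω + D.indicator (fun ω => |H (σ ω)|) ω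
    by_cases hω : ω ∈ I <;> by_cases hσω : σ ω ∈ I <;> by_cases hωD : ω ∈ D
    · simp [hω, hσω, hωD]
    · simp [hω, hσω, hωD]
    · rw [Set.indicator_of_mem hω, Set.indicator_of_notMem hσω, Set.indicator_of_mem hω,
        Set.indicator_of_mem hωD, add_zero]
      have := abs_sub_abs_le_abs_sub (H ω) (-(H (σ ω)))
      rw [abs_neg, sub_neg_eq_add] at this
      linarith
    · exact absurd ((hD ω hωD).1 hω) hσω
    · rw [Set.indicator_of_notMem hω, Set.indicator_of_mem hσω, Set.indicator_of_notMem hω,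
        Set.indicator_of_mem hωD, zero_add, zero_add]
    · exact absurd ((hD ω hωD).2 hσω) hω
    · rw [Set.indicator_of_notMem hω, Set.indicator_of_notMem hσω, Set.indicator_of_notMem hω,
        Set.indicator_of_mem hωD, add_zero, abs_zero, zero_add]
      exact abs_nonneg _
    · simp [hω, hσω, hωD]
  rw [abs_mul, abs_two] at h4
  linarith

/-- EXCHANGE: the whole integral. -/
theorem exch (m : ℕ) {σ : ℕ → Ω → Ω} (hσ : ∀ k < m, MeasurePreserving (σ k) P P) {J D : ℕ → Set Ω}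
    (hJ : ∀ k, MeasurableSet (J k)) (hDm : ∀ k, MeasurableSet (D k))
    (hD : ∀ k < m, ∀ ω, ω ∉ D k → (ω ∈ inner J k ↔ σ k ω ∈ inner J k))
    {H : Ω → ℝ} (hHm : Measurable H) (hH : Integrable H P) :
    |∫ ω, H ω ∂P| ≤
      (1 / 2) * ∑ k ∈ Finset.range m,
        (∫ ω in inner J k, |H ω + H (σ k ω)| ∂P + ∫ ω in D k, |H (σ k ω)| ∂P) +
      ∫ ω in (⋃ k ∈ Finset.range m, J k)ᶜ, |H ω| ∂P := by
  classical
  set Un : Set Ω := ⋃ k ∈ Finset.range m, inner J k with hUn
  have hUm : MeasurableSet Un := Finset.measurableSet_biUnion _ fun k _ => measurableSet_inner hJ k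
  have h1 : ∫ ω, H ω ∂P = ∫ ω in Un, H ω ∂P + ∫ ω in Unᶜ, H ω ∂P := (integral_add_compl hUm hH).symm
  have h2 : ∫ ω in Un, H ω ∂P = ∑ k ∈ Finset.range m, ∫ ω in inner J k, H ω ∂P := by
    rw [hUn]
    refine integral_biUnion_finset _ (fun k _ => measurableSet_inner hJ k)
      (fun k _ k' _ hne => inner_disjoint J hne) fun k _ => hH.integrableOn
  have h3 : |∫ ω in Un, H ω ∂P| ≤ (1 / 2) * ∑ k ∈ Finset.range m,
        (∫ ω in inner J k, |H ω + H (σ k ω)| ∂P + ∫ ω in D k, |H (σ k ω)| ∂P) := by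
    rw [h2, Finset.mul_sum]
    refine (Finset.abs_sum_le_sum_abs _ _).trans (Finset.sum_le_sum fun k hk => ?_)
    have hk' := Finset.mem_range.1 hk
    exact one_scale (hσ k hk') (measurableSet_inner hJ k) (hDm k) (hD k hk') hHm hH
  have h4 : |∫ ω in Unᶜ, H ω ∂P| ≤ ∫ ω in (⋃ k ∈ Finset.range m, J k)ᶜ, |H ω| ∂P := by
    rw [hUn, biUnion_inner]
    exact abs_integral_le_integral_abs
  rw [h1]
  exact (abs_add_le _ _).trans (add_le_add h3 h4)

/-- Invariance of `innermost = k`: the success at `k` is invariant under `σ k`, and on it so are the successes at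
the smaller scales (off an exceptional set `D`). -/
theorem inner_inv {σ : Ω → Ω} {J : ℕ → Set Ω} {D : Set Ω} {k : ℕ}
    (h0 : ∀ ω, ω ∉ D → (ω ∈ J k ↔ σ ω ∈ J k))
    (h1 : ∀ ω, ω ∉ D → ω ∈ J k → ∀ j < k, (ω ∈ J j ↔ σ ω ∈ J j)) (ω : Ω) (hω : ω ∉ D) :
    ω ∈ inner J k ↔ σ ω ∈ inner J k := by
  rw [mem_inner, mem_inner]
  constructor
  · rintro ⟨ha, hb⟩
    exact ⟨(h0 ω hω).1 ha, fun j hj hc => hb j hj ((h1 ω hω ha j hj).2 hc)⟩
  · rintro ⟨ha, hb⟩
    have ha' := (h0 ω hω).2 ha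
    exact ⟨ha', fun j hj hc => hb j hj ((h1 ω hω ha' j hj).1 hc)⟩

/-- THRESHOLD BY PIGEONHOLE: among the thresholds in `[a, a + L]` there is one which the real random variable
`X` hits up to `δ` with probability at most `2 δ / L` (times the mass of the measure). Here for a finite family of
variables, one threshold for all of them: `∑ P (θ s ≤ X ≤ θ s + δ) ≤ ..`. -/
theorem exists_threshold [IsFiniteMeasure P] {κ : Type*} (F : Finset κ) (X : κ → Ω → ℝ)
    (hX : ∀ i ∈ F, Measurable (X i)) {a L δ : ℝ} (hL : 0 < L) (hδ : 0 ≤ δ) :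
    ∃ θ ∈ Set.Icc a (a + L), ∑ i ∈ F, P.real {ω | θ ≤ X i ω ∧ X i ω ≤ θ + δ} ≤
      F.card * (δ / L) * P.real Set.univ := by
  classical
  -- the function of `θ`
  set f : ℝ → ℝ := fun θ => ∑ i ∈ F, P.real {ω | θ ≤ X i ω ∧ X i ω ≤ θ + δ} with hf
  by_contra hcon
  push_neg at hcon
  -- each term, integrated over `θ`, is at most `δ`
  have hterm : ∀ i ∈ F, ∫⁻ θ in Set.Icc a (a + L), P {ω | θ ≤ X i ω ∧ X i ω ≤ θ + δ} ≤
      ENNReal.ofReal δ * P Set.univ := by
    intro i hi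
    have hm : MeasurableSet {p : ℝ × Ω | p.1 ≤ X i p.2 ∧ X i p.2 ≤ p.1 + δ} :=
      (measurableSet_le measurable_fst ((hX i hi).comp measurable_snd)).inter
        (measurableSet_le ((hX i hi).comp measurable_snd) (measurable_fst.add_const δ))
    calc ∫⁻ θ in Set.Icc a (a + L), P {ω | θ ≤ X i ω ∧ X i ω ≤ θ + δ}
        = ∫⁻ θ in Set.Icc a (a + L), P (Prod.mk θ ⁻¹' {p : ℝ × Ω | p.1 ≤ X i p.2 ∧ X i p.2 ≤ p.1 + δ}) := rfl
      _ ≤ ∫⁻ θ : ℝ, P (Prod.mk θ ⁻¹' {p : ℝ × Ω | p.1 ≤ X i p.2 ∧ X i p.2 ≤ p.1 + δ}) :=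
          setLIntegral_le_lintegral _ _
      _ = ((volume : Measure ℝ).prod P) {p : ℝ × Ω | p.1 ≤ X i p.2 ∧ X i p.2 ≤ p.1 + δ} :=
          (Measure.prod_apply hm).symm
      _ = ∫⁻ ω, volume ((fun θ : ℝ => (θ, ω)) ⁻¹' {p : ℝ × Ω | p.1 ≤ X i p.2 ∧ X i p.2 ≤ p.1 + δ}) ∂P :=
          Measure.prod_apply_symm hm
      _ = ∫⁻ _ω, ENNReal.ofReal δ ∂P := by
          refine lintegral_congr fun ω => ?_
          have e : (fun θ : ℝ => (θ, ω)) ⁻¹' {p : ℝ × Ω | p.1 ≤ X i p.2 ∧ X i p.2 ≤ p.1 + δ} =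
              Set.Icc (X i ω - δ) (X i ω) := by
            ext θ
            constructor
            · rintro ⟨h1, h2⟩
              exact ⟨by simpa using by linarith [show X i ω ≤ θ + δ from h2], h1⟩
            · rintro ⟨h1, h2⟩
              exact ⟨h2, by show X i ω ≤ θ + δ; linarith⟩
          rw [e, Real.volume_Icc]
          congr 1
          ring
      _ = ENNReal.ofReal δ * P Set.univ := by rw [lintegral_const]
  -- the contradiction
  have hmeas : ∀ i ∈ F, Measurable fun θ : ℝ => P {ω | θ ≤ X i ω ∧ X i ω ≤ θ + δ} := by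
    intro i hi
    have hm : MeasurableSet {p : ℝ × Ω | p.1 ≤ X i p.2 ∧ X i p.2 ≤ p.1 + δ} :=
      (measurableSet_le measurable_fst ((hX i hi).comp measurable_snd)).inter
        (measurableSet_le ((hX i hi).comp measurable_snd) (measurable_fst.add_const δ))
    exact measurable_measure_prodMk_left hm
  set C : ℝ := F.card * (δ / L) * P.real Set.univ with hC
  have hC0 : 0 ≤ C := by positivity
  have hlow : ∀ θ ∈ Set.Icc a (a + L), ENNReal.ofReal C < ∑ i ∈ F, P {ω | θ ≤ X i ω ∧ X i ω ≤ θ + δ} := by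
    intro θ hθ
    have h1 := hcon θ hθ
    have h2 : ∑ i ∈ F, P.real {ω | θ ≤ X i ω ∧ X i ω ≤ θ + δ} =
        (∑ i ∈ F, P {ω | θ ≤ X i ω ∧ X i ω ≤ θ + δ}).toReal := by
      rw [ENNReal.toReal_sum fun i _ => measure_ne_top _ _]
      rfl
    rw [h2] at h1
    exact (ENNReal.ofReal_lt_iff_lt_toReal hC0
      (ENNReal.sum_ne_top.2 fun i _ => measure_ne_top _ _)).2 h1
  have hvol : (volume : Measure ℝ) (Set.Icc a (a + L)) = ENNReal.ofReal L := by
    rw [Real.volume_Icc]; congr 1; ring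
  have hlt : ∫⁻ _θ in Set.Icc a (a + L), ENNReal.ofReal C <
      ∫⁻ θ in Set.Icc a (a + L), ∑ i ∈ F, P {ω | θ ≤ X i ω ∧ X i ω ≤ θ + δ} := by
    refine setLIntegral_strict_mono measurableSet_Icc ?_ (Finset.measurable_sum _ hmeas) ?_
      (Filter.Eventually.of_forall fun θ hθ => hlow θ hθ)
    · rw [hvol]; simpa using hL
    · rw [setLIntegral_const, hvol]
      exact ENNReal.mul_ne_top ENNReal.ofReal_ne_top ENNReal.ofReal_ne_top
  rw [setLIntegral_const, hvol, lintegral_finset_sum _ hmeas] at hlt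
  have hub : ∑ i ∈ F, ∫⁻ θ in Set.Icc a (a + L), P {ω | θ ≤ X i ω ∧ X i ω ≤ θ + δ} ≤
      F.card * (ENNReal.ofReal δ * P Set.univ) := by
    refine (Finset.sum_le_sum hterm).trans ?_
    rw [Finset.sum_const, nsmul_eq_mul]
  have heq : ENNReal.ofReal C * ENNReal.ofReal L = F.card * (ENNReal.ofReal δ * P Set.univ) := by
    have h5 : P Set.univ = ENNReal.ofReal (P.real Set.univ) := (ofReal_measureReal (measure_ne_top _ _)).symm
    rw [h5, ← ENNReal.ofReal_mul hC0, ← ENNReal.ofReal_mul hδ,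
      show ((F.card : ℕ) : ℝ≥0∞) = ENNReal.ofReal F.card from (ENNReal.ofReal_natCast _).symm,
      ← ENNReal.ofReal_mul (by positivity)]
    congr 1
    rw [hC]
    field_simp
  rw [heq] at hlt
  exact absurd hub (not_le.2 hlt)

end Pool.Agent.W_7d29a1_C1.H9
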