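import Pool.Agent.W_7d29a1_C1.PinC24

/-!
MP_7d29a1_pr, [C1] THE EXIT BLOCK, part A (helper24): kernels with slopes. `Sl24`: upper bound `exp ((U + β |v| / w - h |z - v| / w) E)`
for all starts and ends (lateral coordinates); `sl_of_EK`, `off_of_lane` (one lane), `comp_off`, `comp_up`, `rank_two`.
-/

set_option autoImplicit false

namespace Pool.Agent.W_7d29a1_C1.P24

open Finset
open Pool.Agent.W_7d29a1_C1.U16 (fq16 fq16_one fq16_mono)

noncomputable section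

/-- Upper bound with slopes. -/
def Sl24 (k : ℤ → ℤ → ℝ) (ca cb w E U β h : ℝ) : Prop := ∀ v z : ℤ,
  k v z ≤ Real.exp ((U + β * (|(v : ℝ) - ca| / w) - h * (|((z : ℝ) - cb) - ((v : ℝ) - ca)| / w)) * E)

/-- The same for the pairs with the property `Q`. -/
def Of24 (k : ℤ → ℤ → ℝ) (Q : ℤ → ℤ → Prop) (ca cb w E G β h : ℝ) : Prop := ∀ v z : ℤ, Q v z →
  k v z ≤ Real.exp ((-G + β * (|(v : ℝ) - ca| / w) - h * (|((z : ℝ) - cb) - ((v : ℝ) - ca)| / w)) * E)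

variable {k k' : ℤ → ℤ → ℝ} {Q : ℤ → ℤ → Prop} {ca cb cd w E U U' β β' h h' G G' κ q ρ ω L Gs : ℝ} {P : ℕ} {a e : ℤ}

theorem Sl24.mono (H : Sl24 k ca cb w E U β h) (hw : 0 < w) (hE : 0 ≤ E) (h1 : U ≤ U') (h2 : β ≤ β') (h3 : h' ≤ h) :
    Sl24 k ca cb w E U' β' h' := by
  intro v z
  refine (H v z).trans (Real.exp_le_exp.2 (mul_le_mul_of_nonneg_right ?_ hE))
  have x0 : 0 ≤ |(v : ℝ) - ca| / w := by positivity
  have x1 : 0 ≤ |((z : ℝ) - cb) - ((v : ℝ) - ca)| / w := by positivity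
  have g1 := mul_le_mul_of_nonneg_right h2 x0
  have g2 := mul_le_mul_of_nonneg_right h3 x1
  linarith

theorem Of24.mono (H : Of24 k Q ca cb w E G β h) (hw : 0 < w) (hE : 0 ≤ E) (h1 : G' ≤ G) (h2 : β ≤ β') (h3 : h' ≤ h) :
    Of24 k Q ca cb w E G' β' h' := by
  intro v z hQ
  refine (H v z hQ).trans (Real.exp_le_exp.2 (mul_le_mul_of_nonneg_right ?_ hE))
  have x0 : 0 ≤ |(v : ℝ) - ca| / w := by positivity
  have x1 : 0 ≤ |((z : ℝ) - cb) - ((v : ℝ) - ca)| / w := by positivity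
  have g1 := mul_le_mul_of_nonneg_right h2 x0
  have g2 := mul_le_mul_of_nonneg_right h3 x1
  linarith

/-- The level as a constant plus a small slope. -/
theorem slope24 (P : ℕ) {q β : ℝ} (hq : 0 ≤ q) (hβ : 0 < β) : ∃ U : ℝ, 0 ≤ U ∧ ∀ x : ℝ, 0 ≤ x → q * fq16 P (x + 1) ≤ U + β * x := by
  obtain ⟨M, hM, hM'⟩ := fq16_small24 P (ε := β / (q + 1)) (by positivity)
  refine ⟨β + q * M, by positivity, fun x hx => ?_⟩
  have h1 := mul_le_mul_of_nonneg_left (hM' (x + 1) (by linarith)) hq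
  have h2 : q * (β / (q + 1)) ≤ β := by
    rw [mul_div_assoc', div_le_iff₀ (by positivity)]
    nlinarith
  have h3 := mul_le_mul_of_nonneg_right h2 (show 0 ≤ x + 1 by linarith)
  linarith

/-- The envelope with slopes. -/
theorem sl_of_EK (hw : 0 < w) (hE : 0 ≤ E) (H : EK24 k ca cb w E κ q P) (hU : ∀ x : ℝ, 0 ≤ x → q * fq16 P (x + 1) ≤ U + β * x) :
    Sl24 k ca cb w E U β κ := by
  intro v z
  refine (H v z).trans (Real.exp_le_exp.2 ?_)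
  have x0 : 0 ≤ |(v : ℝ) - ca| / w := by positivity
  have h1 := mul_le_mul_of_nonneg_right (hU _ x0) hE
  linarith

/-- Interpolation. -/
theorem mid24 {x A B : ℝ} (h1 : x ≤ Real.exp A) (h2 : x ≤ Real.exp B) : x ≤ Real.exp ((A + B) / 2) := by
  rcases le_total A B with h3 | h3
  · exact h1.trans (Real.exp_le_exp.2 (by linarith))
  · exact h2.trans (Real.exp_le_exp.2 (by linarith))

/-- **One lane with slopes.** -/
theorem off_of_lane {D : ℝ} (hw : 1 ≤ w) (hE : 0 < E) (hq : 0 ≤ q) (hκ : 0 ≤ κ) (hβ : 0 ≤ β) (hh : h ≤ κ / 2)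
    (hDD : ∀ V : ℝ, D ≤ V → q * fq16 P (V + 1) + G ≤ β * V) (ha : |(a : ℝ) - ca| ≤ 1) (hω : (D + 1) * w ≤ ω)
    (hGs : (2 * G + q * fq16 P (D + 1)) * E ≤ Gs) (H : Lane24 k a e ρ ω L Gs) (HE : EK24 k ca cb w E κ q P) :
    Of24 k (fun v y => ¬ (|(v : ℝ) - a| ≤ ρ ∧ |(y : ℝ) - e| ≤ ρ)) ca cb w E G β h := by
  intro v z hQ
  have hw0 : 0 < w := by linarith
  obtain ⟨X, hX⟩ : ∃ X : ℝ, X = |(v : ℝ) - ca| / w := ⟨_, rfl⟩
  obtain ⟨V, hV⟩ : ∃ V : ℝ, V = |((z : ℝ) - cb) - ((v : ℝ) - ca)| / w := ⟨_, rfl⟩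
  have X0 : 0 ≤ X := by rw [hX]; positivity
  have V0 : 0 ≤ V := by rw [hV]; positivity
  have g1 := HE v z
  rw [← hX, ← hV] at g1 ⊢
  have hv2 : h * V ≤ κ / 2 * V := mul_le_mul_of_nonneg_right hh V0
  have hkv : 0 ≤ κ * V := mul_nonneg hκ V0
  rcases le_total X D with h1 | h1
  · have h2 : |(v : ℝ) - a| ≤ ω := by
      have h3 : |(v : ℝ) - ca| ≤ D * w := by
        rw [hX, div_le_iff₀ hw0] at h1
        exact h1
      have h4 : (v : ℝ) - a = ((v : ℝ) - ca) - ((a : ℝ) - ca) := by ring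
      rw [h4]
      refine (abs_sub _ _).trans ?_
      nlinarith
    have h3 := H.off v z h2 hQ
    have h5 : fq16 P (X + 1) ≤ fq16 P (D + 1) := fq_mono' (by linarith) (by linarith)
    have h6 := mul_le_mul_of_nonneg_left h5 hq
    have h7 : k v z ≤ Real.exp ((q * fq16 P (D + 1) - κ * V) * E) := by
      refine g1.trans (Real.exp_le_exp.2 ?_)
      have := mul_le_mul_of_nonneg_right h6 hE.le
      linarith
    refine (mid24 h3 h7).trans (Real.exp_le_exp.2 ?_)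
    have h8 := mul_nonneg hβ X0
    have h9 : (h * V) * E ≤ (κ / 2 * V) * E := mul_le_mul_of_nonneg_right hv2 hE.le
    have h10 := mul_nonneg h8 hE.le
    linarith
  · have h2 := mul_le_mul_of_nonneg_right (hDD X h1) hE.le
    refine g1.trans (Real.exp_le_exp.2 ?_)
    have h9 : (h * V) * E ≤ (κ * V) * E := mul_le_mul_of_nonneg_right (by linarith) hE.le
    linarith

/-- Two steps. -/
theorem two_exp24 {A B β₀ β₁ h₀ h₁ x y z : ℝ} (hw : 0 < w) (hE : 0 ≤ E) (hβ₁ : 0 ≤ β₁) (hh : 0 ≤ h) (e1 : h + β₁ ≤ h₀) (e2 : h ≤ h₁) :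
    Real.exp ((A + β₀ * (|x| / w) - h₀ * (|y - x| / w)) * E) * Real.exp ((B + β₁ * (|y| / w) - h₁ * (|z - y| / w)) * E) ≤
      Real.exp ((A + B + (β₀ + β₁) * (|x| / w) - h * (|z - x| / w)) * E) := by
  rw [← Real.exp_add, ← add_mul]
  refine Real.exp_le_exp.2 (mul_le_mul_of_nonneg_right ?_ hE)
  have t1 : |y| / w ≤ |x| / w + |y - x| / w := by
    rw [← add_div]
    refine div_le_div_of_nonneg_right ?_ hw.le
    have := abs_add_le x (y - x)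
    rwa [add_sub_cancel] at this
  have t2 : |z - x| / w ≤ |y - x| / w + |z - y| / w := by
    rw [← add_div]
    refine div_le_div_of_nonneg_right ?_ hw.le
    have := abs_add_le (y - x) (z - y)
    rwa [show y - x + (z - y) = z - x by ring] at this
  have p1 : 0 ≤ |y - x| / w := by positivity
  have p2 : 0 ≤ |z - y| / w := by positivity
  have m1 := mul_le_mul_of_nonneg_left t1 hβ₁
  have m2 := mul_le_mul_of_nonneg_left t2 hh
  have m3 := mul_le_mul_of_nonneg_right e1 p1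
  have m4 := mul_le_mul_of_nonneg_right e2 p2
  nlinarith

/-- **Composition behind a bad start.** -/
theorem comp_off {K : ℤ → ℤ → ℝ} {R : ℤ → Prop} {β₀ β₁ h₀ h₁ : ℝ} (hw : 0 < w) (hE : 0 ≤ E) (hβ₁ : 0 ≤ β₁) (hh : 0 ≤ h)
    (e1 : h + β₁ ≤ h₀) (e2 : h ≤ h₁) (n1 : ∀ v z, 0 ≤ k' v z)
    (H0 : Of24 k (fun v _ => R v) ca cb w E G β₀ h₀) (H1 : Sl24 k' cb cd w E U β₁ h₁) {z : ℤ}
    (hK : ∀ v : ℤ, ∃ S : Finset ℤ, (S.card : ℝ) ≤ Real.exp E ∧ K v z ≤ ∑ y ∈ S, k v y * k' y z) :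
    ∀ v : ℤ, R v → K v z ≤ Real.exp ((-(G - U - 1) + (β₀ + β₁) * (|(v : ℝ) - ca| / w) -
      h * (|((z : ℝ) - cd) - ((v : ℝ) - ca)| / w)) * E) := by
  intro v hv
  obtain ⟨S, hS, hKS⟩ := hK v
  refine hKS.trans ?_
  have h1 : ∀ y ∈ S, k v y * k' y z ≤ Real.exp ((-G + U + (β₀ + β₁) * (|(v : ℝ) - ca| / w) -
      h * (|((z : ℝ) - cd) - ((v : ℝ) - ca)| / w)) * E) := by
    intro y _
    exact (mul_le_mul (H0 v y hv) (H1 y z) (n1 y z) (Real.exp_pos _).le).trans (two_exp24 hw hE hβ₁ hh e1 e2)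
  refine (sum_le_card_nsmul _ _ _ h1).trans ?_
  rw [nsmul_eq_mul]
  refine (mul_le_mul_of_nonneg_right hS (Real.exp_pos _).le).trans ?_
  rw [← Real.exp_add]
  exact Real.exp_le_exp.2 (by linarith)

/-- The main part of a composition. -/
def mn2 (k k' : ℤ → ℤ → ℝ) (C : Finset ℤ) (y z : ℤ) : ℝ := ∑ u ∈ C, k y u * k' u z

theorem mn2_nn (n0 : ∀ v z, 0 ≤ k v z) (n1 : ∀ v z, 0 ≤ k' v z) (C : Finset ℤ) (y z : ℤ) : 0 ≤ mn2 k k' C y z :=
  sum_nonneg fun u _ => mul_nonneg (n0 y u) (n1 u z)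

/-- **Rank one of the main part.** -/
theorem mn2_rank (n1 : ∀ v z, 0 ≤ k' v z) {C : Finset ℤ} {ε : ℝ} {y y' : ℤ}
    (hr : ∀ u ∈ C, ∀ u' ∈ C, k y u * k y' u' ≤ (1 + ε) * (k y u' * k y' u)) (z z' : ℤ) :
    mn2 k k' C y z * mn2 k k' C y' z' ≤ (1 + ε) * (mn2 k k' C y z' * mn2 k k' C y' z) := by
  unfold mn2
  rw [sum_mul_sum, sum_mul_sum, mul_sum]
  have e1 : ∑ i ∈ C, ∑ j ∈ C, k y i * k' i z * (k y' j * k' j z') = ∑ i ∈ C, ∑ j ∈ C, k y j * k' j z * (k y' i * k' i z') :=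
    sum_comm
  rw [e1]
  refine sum_le_sum fun i hi => ?_
  rw [mul_sum]
  refine sum_le_sum fun j hj => ?_
  have g1 := mul_le_mul_of_nonneg_right (hr j hj i hi) (mul_nonneg (n1 j z) (n1 i z'))
  calc k y j * k' j z * (k y' i * k' i z') = k y j * k y' i * (k' j z * k' i z') := by ring
    _ ≤ (1 + ε) * (k y i * k y' j) * (k' j z * k' i z') := g1
    _ = _ := by ring

/-- From the main part to the kernel. -/
theorem rank_of_main {K M : ℤ → ℤ → ℝ} {τ ε ε' : ℝ} (hτ : 0 ≤ τ) (hε : 0 ≤ ε) (hM : ∀ u v, 0 ≤ M u v) {y y' z z' : ℤ}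
    (l1 : M y z' ≤ K y z') (l2 : M y' z ≤ K y' z) (u1 : K y z ≤ (1 + τ) * M y z) (u2 : K y' z' ≤ (1 + τ) * M y' z') (k2 : 0 ≤ K y' z')
    (hr : M y z * M y' z' ≤ (1 + ε) * (M y z' * M y' z)) (hεε : (1 + τ) ^ 2 * (1 + ε) ≤ 1 + ε') :
    K y z * K y' z' ≤ (1 + ε') * (K y z' * K y' z) := by
  have g6 : M y z' * M y' z ≤ K y z' * K y' z := mul_le_mul l1 l2 (hM _ _) ((hM _ _).trans l1)
  calc K y z * K y' z' ≤ (1 + τ) * M y z * ((1 + τ) * M y' z') := mul_le_mul u1 u2 k2 (mul_nonneg (by linarith) (hM _ _))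
    _ = (1 + τ) ^ 2 * (M y z * M y' z') := by ring
    _ ≤ (1 + τ) ^ 2 * ((1 + ε) * (M y z' * M y' z)) := mul_le_mul_of_nonneg_left hr (by positivity)
    _ = (1 + τ) ^ 2 * (1 + ε) * (M y z' * M y' z) := by ring
    _ ≤ (1 + ε') * (K y z' * K y' z) := mul_le_mul hεε g6 (mul_nonneg (hM _ _) (hM _ _)) (le_trans (by positivity) hεε)

end

end Pool.Agent.W_7d29a1_C1.P24
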