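import Pool.Agent.W_7d29a1_C1.ExA24

/-!
MP_7d29a1_pr, [C1] THE EXIT BLOCK, part B (helper24): deterministic. The block has the rows `b.1 .. b.1 + n`, `n = T + (T + (T + m))`;
slabs: lane from the site `b.2` to `e1`, rank one on the cells of `e1, a2`, lane `a2 → e2`, typical. `XF24`: the facts of the slabs,
`XO24`: the properties of the block, `x_det24`.
-/

set_option autoImplicit false

namespace Pool.Agent.W_7d29a1_C1.P24

open MeasureTheory ProbabilityTheory Filter Topology Finset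
open Pool.Agent.W_7d29a1_F Pool.Agent.W_7d29a1_h4g Pool.Agent.W_7d29a1_H Pool.Agent.W_7d29a1_HS
open Pool.Agent.W_7d29a1_C1
open Pool.Agent.W_7d29a1_C1.CR76 Pool.Agent.W_7d29a1_C1.Basin76
open Pool.Agent.W_7d29a1_C1.H75 (hc)
open Pool.Agent.W_7d29a1_C1.U16 (fq16 fq16_one fq16_mono lat16 Far16 far_low)

noncomputable section

variable {μ : Measure ℝ} {s c C : ℝ} {n₀ : ℕ}

/-- The facts of the four slabs. -/
structure XF24 (μ : Measure ℝ) (s : ℝ) (η : Env) (b : Pt) (n T m P : ℕ) (e1 a2 e2 : ℤ) (κ q ρ ℓ ℓK K ω Gs ε : ℝ) : Prop where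
  env : η ∈ EVR24 μ s κ n P b.1 (b.1 + n) b q
  l0 : Lane24 (kW μ s η b.1 T) b.2 e1 ρ ω 0 Gs
  l2 : Lane24 (kW μ s η (b.1 + T + T) T) a2 e2 ρ ω 0 Gs
  low1 : ∀ y ∈ Ce24 e1 ρ, Real.exp (-(ℓ * EE μ s n)) ≤ kW μ s η (b.1 + T) T y a2
  low3 : ∀ z : ℤ, |(z : ℝ) - (b.2 + sl μ s * n)| ≤ 2 * wd μ s n → Real.exp (-(ℓ * EE μ s n)) ≤ kW μ s η (b.1 + T + T + T) m e2 z
  low3K : ∀ z : ℤ, |(z : ℝ) - (b.2 + sl μ s * n)| ≤ K * wd μ s n → Real.exp (-(ℓK * EE μ s n)) ≤ kW μ s η (b.1 + T + T + T) m e2 z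
  rk : ∀ y ∈ Ce24 e1 ρ, ∀ y' ∈ Ce24 e1 ρ, ∀ u ∈ Ce24 a2 ρ, ∀ u' ∈ Ce24 a2 ρ,
    kW μ s η (b.1 + T) T y u * kW μ s η (b.1 + T) T y' u' ≤ (1 + ε) * (kW μ s η (b.1 + T) T y u' * kW μ s η (b.1 + T) T y' u)

/-- **The properties of the block.** `F`: the first slab (one lane from `b.2` to `e`), `R`: the rest, `A`: the whole block. `U`: level,
`β`, `h`: slopes, `G`: strength of the walls, `K`: half width of the window at the end, `ε`: rank one. -/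
structure XO24 (μ : Measure ℝ) (s : ℝ) (η : Env) (b : Pt) (n T m' : ℕ) (e : ℤ) (ρ U β h G K ε : ℝ) : Prop where
  upF : Sl24 (kW μ s η b.1 T) b.2 (b.2 + sl μ s * T) (wd μ s n) (EE μ s n) U β h
  upR : Sl24 (kW μ s η (b.1 + T) m') (b.2 + sl μ s * T) (b.2 + sl μ s * n) (wd μ s n) (EE μ s n) U β h
  upA : Sl24 (kW μ s η b.1 n) b.2 (b.2 + sl μ s * n) (wd μ s n) (EE μ s n) U β h
  loF : Real.exp (-(U * EE μ s n)) ≤ kW μ s η b.1 T b.2 e
  loR : ∀ y ∈ Ce24 e ρ, ∀ z : ℤ, |(z : ℝ) - (b.2 + sl μ s * n)| ≤ 2 * wd μ s n →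
    Real.exp (-(U * EE μ s n)) ≤ kW μ s η (b.1 + T) m' y z
  loA : ∀ z : ℤ, |(z : ℝ) - (b.2 + sl μ s * n)| ≤ 2 * wd μ s n → Real.exp (-(U * EE μ s n)) ≤ kW μ s η b.1 n b.2 z
  offF : Of24 (kW μ s η b.1 T) (fun v y => ¬ (|(v : ℝ) - b.2| ≤ ρ ∧ |(y : ℝ) - e| ≤ ρ)) b.2 (b.2 + sl μ s * T) (wd μ s n)
    (EE μ s n) G β h
  offA : Of24 (kW μ s η b.1 n) (fun v _ => ¬ |(v : ℝ) - b.2| ≤ ρ) b.2 (b.2 + sl μ s * n) (wd μ s n) (EE μ s n) G β h
  rk : ∀ y ∈ Ce24 e ρ, ∀ y' ∈ Ce24 e ρ, ∀ z z' : ℤ, |(z : ℝ) - (b.2 + sl μ s * n)| ≤ K * wd μ s n →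
    |(z' : ℝ) - (b.2 + sl μ s * n)| ≤ K * wd μ s n →
    kW μ s η (b.1 + T) m' y z * kW μ s η (b.1 + T) m' y' z' ≤
      (1 + ε) * (kW μ s η (b.1 + T) m' y z' * kW μ s η (b.1 + T) m' y' z)

/-- A kernel of the model as a composition. -/
theorem kW_two (η : Env) (r : ℤ) (T m : ℕ) (x z : ℤ) (S : Finset ℤ) (hS : Icc x (x + T) ⊆ S) :
    kW μ s η r (T + m) x z = ∑ y ∈ S, kW μ s η r T x y * kW μ s η (r + T) m y z :=
  kW_step η r T m x z S hS (fun y => kW μ s η (r + T) m y z) fun _ _ => rfl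

theorem card_cone24 (x : ℤ) (T : ℕ) : ((Icc x (x + T)).card : ℝ) = T + 1 := by
  rw [Int.card_Icc]
  have : (x + T + 1 - x).toNat = T + 1 := by omega
  rw [this]
  push_cast
  ring

theorem card_Ce24 {ρ : ℝ} (hρ : 0 ≤ ρ) (a : ℤ) : ((Ce24 a ρ).card : ℝ) ≤ 2 * ρ + 1 := by
  unfold Ce24
  rw [Int.card_Icc]
  have g1 : (0 : ℤ) ≤ ⌊ρ⌋ := Int.floor_nonneg.2 hρ
  have g2 : ((a + ⌊ρ⌋ + 1 - (a - ⌊ρ⌋)).toNat : ℤ) = 2 * ⌊ρ⌋ + 1 := by
    rw [Int.toNat_of_nonneg (by omega)]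
    ring
  have g3 : (((a + ⌊ρ⌋ + 1 - (a - ⌊ρ⌋)).toNat : ℕ) : ℝ) = 2 * (⌊ρ⌋ : ℝ) + 1 := by exact_mod_cast g2
  rw [g3]
  have g4 : (⌊ρ⌋ : ℝ) ≤ ρ := Int.floor_le ρ
  linarith

/-- **THE DETERMINISTIC THEOREM.** -/
theorem x_det24 [IsProbabilityMeasure μ] {η : Env} {b : Pt} {n T m P : ℕ} {e1 a2 e2 : ℤ}
    {κ q ρ ℓ ℓK K ω Gs ε ε' β Ub G G' D : ℝ}
    (H : XF24 μ s η b n T m P e1 a2 e2 κ q ρ ℓ ℓK K ω Gs ε) (hn : n = T + (T + (T + m))) (hn1 : 1 ≤ n)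
    (hw : 1 ≤ wd μ s n) (hκ : 0 < κ) (hq : 0 ≤ q) (hℓ : 0 ≤ ℓ) (hℓK : 0 ≤ ℓK) (hρ0 : 0 ≤ ρ) (hρT : ρ ≤ T) (hρw : ρ ≤ 2 * wd μ s n)
    (hε : 0 ≤ ε) (hβ : 0 < β) (hβκ : β ≤ κ / 4) (hUb0 : 0 ≤ Ub)
    (hUb : ∀ x : ℝ, 0 ≤ x → q * fq16 P (x + 1) ≤ Ub + β * x) (hG' : G + 2 * Ub + 9 * β + ℓ + ℓK + 3 ≤ G') (hG0 : 0 ≤ G)
    (ce1 : |(e1 : ℝ) - (b.2 + sl μ s * T)| ≤ 1) (ca2 : |(a2 : ℝ) - (b.2 + sl μ s * (2 * T))| ≤ 1)
    (hD : ∀ V : ℝ, D ≤ V → q * fq16 P (V + 1) + G' ≤ β * V)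
    (hGs : (2 * G' + q * fq16 P (D + 1)) * EE μ s n ≤ Gs) (hω : (D + 1) * wd μ s n ≤ ω)
    (hcard : (14 : ℝ) * n ≤ Real.exp (EE μ s n)) (hεε : (1 + Real.exp (-EE μ s n)) ^ 2 * (1 + ε) ≤ 1 + ε') :
    XO24 μ s η b n T (T + (T + m)) e1 ρ (Ub + 2 * ℓ) (2 * β) (κ / 4) G K ε' := by
  have hE1 : 1 ≤ EE μ s n := one_le_EE n
  have hE : 0 < EE μ s n := by linarith
  have hw0 : 0 < wd μ s n := by linarith
  have hT3 : 3 * T ≤ n := by omega
  have hTn : (3 : ℝ) * T ≤ n := by exact_mod_cast hT3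
  have hT0 : (0 : ℝ) ≤ T := Nat.cast_nonneg T
  have hnR : (1 : ℝ) ≤ n := by exact_mod_cast hn1
  have nn : ∀ (r : ℤ) (t : ℕ) (y y' : ℤ), 0 ≤ kW μ s η r t y y' := fun r t y y' => kW_nonneg η r t y y'
  have cardT : ∀ x : ℤ, ((Icc x (x + T)).card : ℝ) ≤ Real.exp (EE μ s n) := by
    intro x
    rw [card_cone24]
    linarith
  -- envelopes
  have EF := EK_of_EVR H.env (r := b.1) (T := T) le_rfl (by omega)
  have EM := EK_of_EVR H.env (r := b.1 + T) (T := T) (by omega) (by omega)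
  have ER := EK_of_EVR H.env (r := b.1 + T) (T := T + (T + m)) (by omega) (by omega)
  have EL := EK_of_EVR H.env (r := b.1 + T + T) (T := T) (by omega) (by omega)
  have EB := EK_of_EVR H.env (r := b.1 + T + T + T) (T := m) (by omega) (by omega)
  have EA := EK_of_EVR H.env (r := b.1) (T := n) le_rfl le_rfl
  have c0 : (b.2 : ℝ) + sl μ s * ((b.1 - b.1 : ℤ) : ℝ) = b.2 := by simp
  have c1 : (b.2 : ℝ) + sl μ s * ((b.1 + T - b.1 : ℤ) : ℝ) = b.2 + sl μ s * T := by push_cast; ring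
  have c2 : (b.2 : ℝ) + sl μ s * ((b.1 + T + T - b.1 : ℤ) : ℝ) = b.2 + sl μ s * (2 * T) := by push_cast; ring
  have c3 : (b.2 : ℝ) + sl μ s * ((b.1 + T + T + T - b.1 : ℤ) : ℝ) = b.2 + sl μ s * (3 * T) := by push_cast; ring
  have c4 : (b.2 : ℝ) + sl μ s * ((b.1 + T + T + T + m - b.1 : ℤ) : ℝ) = b.2 + sl μ s * n := by
    rw [hn]
    push_cast
    ring
  have c4' : (b.2 : ℝ) + sl μ s * ((b.1 + T + (T + (T + m) : ℕ) - b.1 : ℤ) : ℝ) = b.2 + sl μ s * n := by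
    rw [hn]
    push_cast
    ring
  have c4'' : (b.2 : ℝ) + sl μ s * ((b.1 + n - b.1 : ℤ) : ℝ) = b.2 + sl μ s * n := by push_cast; ring
  rw [c0, c1] at EF
  rw [c1, c2] at EM
  rw [c1, c4'] at ER
  rw [c2, c3] at EL
  rw [c3, c4] at EB
  rw [c0, c4''] at EA
  -- slopes
  have SF := sl_of_EK hw0 hE.le EF hUb
  have SM := sl_of_EK hw0 hE.le EM hUb
  have SR := sl_of_EK hw0 hE.le ER hUb
  have SB := sl_of_EK hw0 hE.le EB hUb
  have SA := sl_of_EK hw0 hE.le EA hUb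
  -- lanes
  have OF := off_of_lane (h := κ / 2) hw hE hq hκ.le hβ.le le_rfl hD (by rw [sub_self, abs_zero]; exact zero_le_one) hω hGs H.l0 EF
  have OL := off_of_lane (h := κ / 2) hw hE hq hκ.le hβ.le le_rfl hD ca2 hω hGs H.l2 EL
  have OF' : Of24 (kW μ s η b.1 T) (fun v _ => ¬ |(v : ℝ) - b.2| ≤ ρ) b.2 (b.2 + sl μ s * T) (wd μ s n) (EE μ s n) G' β (κ / 2) :=
    fun v y hv => OF v y fun hh => hv hh.1
  have OL' : Of24 (kW μ s η (b.1 + T + T) T) (fun v _ => ¬ |(v : ℝ) - a2| ≤ ρ) (b.2 + sl μ s * (2 * T)) (b.2 + sl μ s * (3 * T))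
      (wd μ s n) (EE μ s n) G' β (κ / 2) := fun v y hv => OL v y fun hh => hv hh.1
  -- the kernel behind the rank one slab, from a bad start
  have OG : ∀ z v : ℤ, ¬ |(v : ℝ) - a2| ≤ ρ → kW μ s η (b.1 + T + T) (T + m) v z ≤
      Real.exp ((-(G' - Ub - 1) + (β + β) * (|(v : ℝ) - (b.2 + sl μ s * (2 * T))| / wd μ s n) -
        κ / 4 * (|((z : ℝ) - (b.2 + sl μ s * n)) - ((v : ℝ) - (b.2 + sl μ s * (2 * T)))| / wd μ s n)) * EE μ s n) := by
    intro z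
    refine comp_off (K := kW μ s η (b.1 + T + T) (T + m)) hw0 hE.le hβ.le (by positivity) (by linarith) (by linarith)
      (fun v z => nn (b.1 + T + T + T) m v z) OL' SB fun v => ⟨Icc v (v + T), cardT v, ?_⟩
    exact (kW_two η (b.1 + T + T) T m v z _ Subset.rfl).le
  have OA : ∀ z v : ℤ, ¬ |(v : ℝ) - b.2| ≤ ρ → kW μ s η b.1 n v z ≤
      Real.exp ((-(G' - Ub - 1) + (β + β) * (|(v : ℝ) - b.2| / wd μ s n) -
        κ / 4 * (|((z : ℝ) - (b.2 + sl μ s * n)) - ((v : ℝ) - b.2)| / wd μ s n)) * EE μ s n) := by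
    intro z
    refine comp_off (K := kW μ s η b.1 n) hw0 hE.le hβ.le (by positivity) (by linarith) (by linarith)
      (fun v z => nn (b.1 + T) (T + (T + m)) v z) OF' SR fun v => ⟨Icc v (v + T), cardT v, ?_⟩
    have := kW_two (μ := μ) (s := s) η b.1 T (T + (T + m)) v z _ Subset.rfl
    rw [← hn] at this
    exact this.le
  have ctr : ∀ a : ℤ, a ∈ Ce24 a ρ := fun a => mem_Ce24.2 (by rw [sub_self, abs_zero]; exact hρ0)
  -- the main part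
  obtain ⟨M, hM⟩ : ∃ M : ℤ → ℤ → ℝ, M = mn2 (kW μ s η (b.1 + T) T) (kW μ s η (b.1 + T + T) (T + m)) (Ce24 a2 ρ) := ⟨_, rfl⟩
  have hM0 : ∀ u v, 0 ≤ M u v := fun u v => by rw [hM]; exact mn2_nn (nn _ _) (nn _ _) _ u v
  have low : ∀ (L : ℝ) (y z : ℤ), y ∈ Ce24 e1 ρ → Real.exp (-(L * EE μ s n)) ≤ kW μ s η (b.1 + T + T + T) m e2 z →
      Real.exp (-((ℓ + L) * EE μ s n)) ≤ M y z := by
    intro L y z hy hz
    have g1 := H.low1 y hy
    have g2 := H.l2.low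
    rw [Real.exp_zero] at g2
    have g3 : kW μ s η (b.1 + T + T) T a2 e2 * kW μ s η (b.1 + T + T + T) m e2 z ≤ kW μ s η (b.1 + T + T) (T + m) a2 z := by
      rw [kW_two η (b.1 + T + T) T m a2 z (Icc a2 (a2 + T) ∪ {e2}) subset_union_left]
      exact single_le_sum (f := fun y => kW μ s η (b.1 + T + T) T a2 y * kW μ s η (b.1 + T + T + T) m y z)
        (fun y _ => mul_nonneg (nn _ _ _ _) (nn _ _ _ _)) (mem_union_right _ (mem_singleton_self e2))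
    have g4 : kW μ s η (b.1 + T) T y a2 * kW μ s η (b.1 + T + T) (T + m) a2 z ≤ M y z := by
      rw [hM]
      exact single_le_sum (f := fun u => kW μ s η (b.1 + T) T y u * kW μ s η (b.1 + T + T) (T + m) u z)
        (fun y _ => mul_nonneg (nn _ _ _ _) (nn _ _ _ _)) (ctr a2)
    have g5 : Real.exp (-(L * EE μ s n)) ≤ kW μ s η (b.1 + T + T) (T + m) a2 z := by
      refine hz.trans (le_trans ?_ g3)
      have := nn (b.1 + T + T + T) m e2 z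
      nlinarith
    refine le_trans ?_ g4
    have e : Real.exp (-((ℓ + L) * EE μ s n)) = Real.exp (-(ℓ * EE μ s n)) * Real.exp (-(L * EE μ s n)) := by
      rw [← Real.exp_add]
      congr 1
      ring
    rw [e]
    exact mul_le_mul g1 g5 (Real.exp_pos _).le (nn _ _ _ _)
  -- kernel and main part
  have split : ∀ y z : ℤ, y ∈ Ce24 e1 ρ → M y z ≤ kW μ s η (b.1 + T) (T + (T + m)) y z ∧
      kW μ s η (b.1 + T) (T + (T + m)) y z ≤ M y z + Real.exp ((2 * Ub + 2 + 9 * β - G') * EE μ s n) := by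
    intro y z hy
    have hk := kW_two (μ := μ) (s := s) η (b.1 + T) T (T + m) y z (Icc y (y + T) ∪ Ce24 a2 ρ) subset_union_left
    have hsub : Ce24 a2 ρ ⊆ Icc y (y + T) ∪ Ce24 a2 ρ := subset_union_right
    rw [← sum_sdiff hsub] at hk
    have hMy : M y z = ∑ u ∈ Ce24 a2 ρ, kW μ s η (b.1 + T) T y u * kW μ s η (b.1 + T + T) (T + m) u z := by rw [hM]; rfl
    rw [← hMy] at hk
    have s0 : 0 ≤ ∑ u ∈ (Icc y (y + T) ∪ Ce24 a2 ρ) \ Ce24 a2 ρ, kW μ s η (b.1 + T) T y u * kW μ s η (b.1 + T + T) (T + m) u z :=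
      sum_nonneg fun u _ => mul_nonneg (nn _ _ _ _) (nn _ _ _ _)
    refine ⟨by linarith, ?_⟩
    have hY : |(y : ℝ) - (b.2 + sl μ s * T)| / wd μ s n ≤ 3 := by
      rw [div_le_iff₀ hw0]
      have h1 := mem_Ce24.1 hy
      have h2 : (y : ℝ) - (b.2 + sl μ s * T) = ((y : ℝ) - e1) + ((e1 : ℝ) - (b.2 + sl μ s * T)) := by ring
      rw [h2]
      exact (abs_add_le _ _).trans (by linarith)
    have one : ∀ u ∈ (Icc y (y + T) ∪ Ce24 a2 ρ) \ Ce24 a2 ρ, kW μ s η (b.1 + T) T y u * kW μ s η (b.1 + T + T) (T + m) u z ≤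
        Real.exp ((2 * Ub + 1 + 9 * β - G') * EE μ s n) := by
      intro u hu
      have hu' : ¬ |(u : ℝ) - a2| ≤ ρ := fun hh => (mem_sdiff.1 hu).2 (mem_Ce24.2 hh)
      have g1 := SM y u
      have g2 := OG z u hu'
      refine (mul_le_mul g1 g2 (nn _ _ _ _) (Real.exp_pos _).le).trans ?_
      refine (two_exp24 (h := 0) hw0 hE.le (by linarith) le_rfl (by linarith) (by positivity)).trans (Real.exp_le_exp.2 ?_)
      refine mul_le_mul_of_nonneg_right ?_ hE.le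
      have g3 := mul_le_mul_of_nonneg_left hY (show 0 ≤ β + (β + β) by linarith)
      linarith
    have s1 := sum_le_card_nsmul _ _ _ one
    rw [nsmul_eq_mul] at s1
    have s2 : (((Icc y (y + T) ∪ Ce24 a2 ρ) \ Ce24 a2 ρ).card : ℝ) ≤ Real.exp (EE μ s n) := by
      have h1 : (((Icc y (y + T) ∪ Ce24 a2 ρ) \ Ce24 a2 ρ).card : ℝ) ≤ ((Icc y (y + T)).card : ℝ) + (Ce24 a2 ρ).card := by
        have h2 := card_le_card (sdiff_subset (s := Icc y (y + T) ∪ Ce24 a2 ρ) (t := Ce24 a2 ρ))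
        have h3 := card_union_le (Icc y (y + T)) (Ce24 a2 ρ)
        exact_mod_cast h2.trans h3
      have h4 := card_Ce24 hρ0 a2
      rw [card_cone24] at h1
      linarith
    have s3 := mul_le_mul_of_nonneg_right s2 (Real.exp_pos ((2 * Ub + 1 + 9 * β - G') * EE μ s n)).le
    rw [← Real.exp_add] at s3
    have s4 : EE μ s n + (2 * Ub + 1 + 9 * β - G') * EE μ s n = (2 * Ub + 2 + 9 * β - G') * EE μ s n := by ring
    rw [s4] at s3
    linarith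
  have loR : ∀ y ∈ Ce24 e1 ρ, ∀ z : ℤ, |(z : ℝ) - (b.2 + sl μ s * n)| ≤ 2 * wd μ s n →
      Real.exp (-((ℓ + ℓ) * EE μ s n)) ≤ kW μ s η (b.1 + T) (T + (T + m)) y z := fun y hy z hz =>
    (low ℓ y z hy (H.low3 z hz)).trans (split y z hy).1
  have hUE : ∀ t : ℝ, t ≤ Ub + 2 * ℓ → Real.exp (-((Ub + 2 * ℓ) * EE μ s n)) ≤ Real.exp (-(t * EE μ s n)) := fun t ht => by
    refine Real.exp_le_exp.2 ?_
    have := mul_le_mul_of_nonneg_right ht hE.le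
    linarith
  refine ⟨SF.mono hw0 hE.le (by linarith) (by linarith) (by linarith), SR.mono hw0 hE.le (by linarith) (by linarith) (by linarith),
    SA.mono hw0 hE.le (by linarith) (by linarith) (by linarith), ?_, fun y hy z hz => ?_, fun z hz => ?_,
    OF.mono hw0 hE.le (by linarith) (by linarith) (by linarith), ?_, fun y hy y' hy' z z' hz hz' => ?_⟩
  · have g2 := H.l0.low
    refine le_trans (hUE 0 (by positivity)) ?_
    rw [zero_mul, neg_zero]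
    exact g2
  · exact (hUE (ℓ + ℓ) (by linarith)).trans (loR y hy z hz)
  · have g1 := loR e1 (ctr e1) z hz
    have g2 := H.l0.low
    rw [Real.exp_zero] at g2
    have g3 : kW μ s η b.1 T b.2 e1 * kW μ s η (b.1 + T) (T + (T + m)) e1 z ≤ kW μ s η b.1 n b.2 z := by
      have hk := kW_two (μ := μ) (s := s) η b.1 T (T + (T + m)) b.2 z (Icc b.2 (b.2 + T) ∪ {e1}) subset_union_left
      rw [← hn] at hk
      rw [hk]
      exact single_le_sum (f := fun y => kW μ s η b.1 T b.2 y * kW μ s η (b.1 + T) (T + (T + m)) y z)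
        (fun y _ => mul_nonneg (nn _ _ _ _) (nn _ _ _ _)) (mem_union_right _ (mem_singleton_self e1))
    refine (hUE (ℓ + ℓ) (by linarith)).trans (g1.trans (le_trans ?_ g3))
    have := nn (b.1 + T) (T + (T + m)) e1 z
    nlinarith
  · intro v z hv
    refine (OA z v hv).trans (Real.exp_le_exp.2 (mul_le_mul_of_nonneg_right ?_ hE.le))
    linarith
  · -- rank one
    have rel : ∀ y z : ℤ, y ∈ Ce24 e1 ρ → |(z : ℝ) - (b.2 + sl μ s * n)| ≤ K * wd μ s n →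
        kW μ s η (b.1 + T) (T + (T + m)) y z ≤ (1 + Real.exp (-EE μ s n)) * M y z := by
      intro y z hy hz
      have g1 := (split y z hy).2
      have g2 := low ℓK y z hy (H.low3K z hz)
      have g3 : Real.exp ((2 * Ub + 2 + 9 * β - G') * EE μ s n) ≤ Real.exp (-EE μ s n) * M y z := by
        have g4 : Real.exp ((2 * Ub + 2 + 9 * β - G') * EE μ s n) ≤ Real.exp (-EE μ s n) * Real.exp (-((ℓ + ℓK) * EE μ s n)) := by
          rw [← Real.exp_add]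
          refine Real.exp_le_exp.2 ?_
          have := mul_le_mul_of_nonneg_right (show 2 * Ub + 2 + 9 * β - G' ≤ -1 - (ℓ + ℓK) by linarith) hE.le
          linarith
        exact g4.trans (mul_le_mul_of_nonneg_left g2 (Real.exp_pos _).le)
      linarith
    have hr := mn2_rank (k := kW μ s η (b.1 + T) T) (k' := kW μ s η (b.1 + T + T) (T + m)) (nn _ _)
      (C := Ce24 a2 ρ) (ε := ε) (y := y) (y' := y') (fun u hu u' hu' => H.rk y hy y' hy' u hu u' hu') z z'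
    rw [← hM] at hr
    exact rank_of_main (Real.exp_pos _).le hε hM0 (split y z' hy).1 (split y' z hy').1 (rel y z hy hz) (rel y' z' hy' hz')
      (nn _ _ _ _) hr hεε

end

end Pool.Agent.W_7d29a1_C1.P24
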