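import Pool.Agent.W_7d29a1_C1.ExZ22
import Pool.Agent.W_7d29a1_C1.WqT98
import Pool.Agent.W_7d29a1_C1.SepC3
import Pool.Agent.W_7d29a1_C1.SepS2

/-!
MP_7d29a1_pr, attractor route [C1], SEP: THE EXIT BOUND `ExP98` OVER THE RECORD OF THE CONSTANTS (helper15; letters of helper52, helper98,
helper22)

`rocC15` : `RoC41` with a constant which reads `PF` and `kw`; `exP_mono15` : a smaller exponent; **`exC15`** : the input `hX` of `wqE98`.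
-/

set_option autoImplicit false

namespace Pool.Agent.W_7d29a1_C1.Q49

open Finset MeasureTheory Filter
open Pool.Agent.W_7d29a1_F hiding Bw G
open Pool.Agent.W_7d29a1_h4g Pool.Agent.W_7d29a1_HS
open Pool.Agent.W_7d29a1_H hiding ex gg
open Pool.Agent.W_7d29a1_C1
open Pool.Agent.W_7d29a1_C1.H60
open Pool.Agent.W_7d29a1_C1.G37 (Gm)
open Pool.Agent.W_7d29a1_C1.SF98 (Tx)
open Pool.Agent.W_7d29a1_C1.PW58
open Pool.Agent.W_7d29a1_C1.D98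
open Pool.Agent.W_7d29a1_C1.N49
open Pool.Agent.W_7d29a1_C1.Nm15
open Pool.Agent.W_7d29a1_C1.Cs2
open Pool.Agent.W_7d29a1_C1.Ex22 (exp22 ExN22)

noncomputable section

/-- **THE NUMBERS OF THE RATIO**, the constant of `ro98` reads `PF` and `kw`. -/
theorem rocC15 {S : Is → Cst → Prop} {c : ℝ} (hc : 0 < c) (Ck : ℕ → ℝ → ℝ) :
    EvC S fun C => RoC41 c C.kw (Ck C.PF C.kw) C.Cr (C.R1 - 1) C.al C.U1n C.Uw C.V1 C.Re C.Qe C.R1 (C.sgm * C.R1) := by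
  filter_upwards [FC.V1_ge S fun _ => 0, FC.Uw_ge S fun _ => 0, FC.sgm_le S (fun _ => c / 80) (fun _ => by positivity),
    FC.Re_ge S fun _ => 0, FC.Qe_ge S fun _ => 0, FC.al_ge S fun C => 2 * C.V1 + Ck C.PF C.kw,
    FC.U1n_ge S fun C => C.Qe + c / 8 * (C.Re + C.kw) + 1,
    FC.R1_ge S fun C => max (max 0 (C.kw + 2)) (max (C.Re + 2) ((2 * C.al + 5 * (1 / 16 + C.Uw) + C.U1n + 2 + c / 2) * (16 / (7 * c)))),
    FC.Cr_ge S fun C => 2 * (2 + 2 * C.al + 5 * (C.sgm * C.R1 + 1 / 16 + C.Uw) + C.U1n)] with C h1 h2 h3 h4 h5 h6 h7 h8 h9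
  have g1 : 0 ≤ C.R1 := ((le_max_left _ _).trans (le_max_left _ _)).trans h8
  have g2 : C.kw + 2 ≤ C.R1 := ((le_max_right _ _).trans (le_max_left _ _)).trans h8
  have g3 : C.Re + 2 ≤ C.R1 := ((le_max_left _ _).trans (le_max_right _ _)).trans h8
  have g4 : (2 * C.al + 5 * (1 / 16 + C.Uw) + C.U1n + 2 + c / 2) * (16 / (7 * c)) ≤ C.R1 :=
    ((le_max_right _ _).trans (le_max_right _ _)).trans h8
  have g5 : C.sgm * C.R1 ≤ c / 80 * C.R1 := mul_le_mul_of_nonneg_right h3.2 g1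
  have g6 : 2 * C.al + 5 * (1 / 16 + C.Uw) + C.U1n + 2 + c / 2 ≤ C.R1 * (7 * c / 16) := by
    have e1 : (2 * C.al + 5 * (1 / 16 + C.Uw) + C.U1n + 2 + c / 2) * (16 / (7 * c)) * (7 * c / 16) =
        2 * C.al + 5 * (1 / 16 + C.Uw) + C.U1n + 2 + c / 2 := by
      field_simp
    have e2 := mul_le_mul_of_nonneg_right g4 (show 0 ≤ 7 * c / 16 by positivity)
    rwa [e1] at e2
  exact
    { V0 := h1
      Re0 := h4
      Qe0 := h5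
      Uw0 := h2
      x0 := mul_nonneg h3.1.le g1
      kb := by linarith
      Rb := by linarith
      bR := by linarith
      al_ge := h6
      U_ge := h7
      b_ge := by nlinarith
      Cr_ge := h9 }

variable {μ : Measure ℝ} {s c : ℝ}

/-- A smaller exponent of the exit bound. -/
theorem exP_mono15 [IsProbabilityMeasure μ] {Γ : Cx} {G : Gm} {Q : Nm98} {R : Nr98} {u : ℕ} {κ : ℤ × ℤ} {T TF : Set Env} {zx zx' : ℝ}
    (h : ExP98 μ s c Γ G Q R u κ T TF zx') (hz : zx ≤ zx') : ExP98 μ s c Γ G Q R u κ T TF zx := fun ω hω η hη i h1 h2 v hv => by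
  refine (h ω hω η hη i h1 h2 v hv).trans (mul_le_mul_of_nonneg_right (Real.exp_le_exp.2 ?_) ?_)
  · have := mul_le_mul_of_nonneg_right hz (EE_pos (μ := μ) (s := s) (G.T u)).le
    linarith
  · exact (K91P.bw_pos (fun k y => K91.wt_pos _ k y) Γ.p_pos _ _ _).le

/-- **THE EXIT BOUND OVER THE RECORD.** -/
theorem exC15 [IsProbabilityMeasure μ] {Cc : ℝ} {n₀ : ℕ} (hI : In μ s c Cc n₀) (ε : ℝ) (zx : Cst → ℝ)
    (hzx : ∀ C : Cst, zx (C.cut .kb) = zx C) : EvC (S0 μ s c Cc ε) fun C => ∀ kap : ℝ, kap ≤ c / 8 →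
      Ew98 μ s c kap C.P (C.Nm μ s c ε) C.cf fun Γ G _mt _τ0 E u κ =>
        ExP98 μ s c Γ G (C.Nm μ s c ε Γ G E) (C.cf.nr μ s c Γ G E) u κ
          (Tx ((Fam98o μ s c C.P (C.Nm μ s c ε) C.cf).TT Γ G E) (fun u => E u / 16) u κ)
          (TF98 μ s c (C.Nm μ s c ε) C.cf Γ G E u κ) (zx C) := by
  have hc0 := hI.c0
  have key : ∀ (PF : ℕ) (kw : ℝ), ∃ Ck : ℝ, ∃ n₁ : ℕ, ∀ q : ℝ, ∃ U : ℝ, 0 ≤ kw → 0 ≤ q → ∀ {P : Pre} {N : NmF} {F : Cf98} {Γ : Cx}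
      {G : Gm} {mt τ0 : ℕ} {E : ℕ → ℝ} {u : ℕ} {κ : ℤ × ℤ} {kap zx : ℝ} {T TF : Set Env},
      Win52 μ s kw kap n₁ (N Γ G E) (F.nr μ s c Γ G E) Γ G mt τ0 E u κ → kap ≤ c / 8 →
      (N Γ G E).PF = PF → (N Γ G E).th = 1 / 8 → (N Γ G E).KF = 4 → (N Γ G E).qF = q → (N Γ G E).δ ≤ 2 → wd μ s ((N Γ G E).T u) ≤ G.w u →
      RoC41 c kw Ck P.Cr (F.R1 - 1) F.al F.U₁ F.Uw F.V₁ F.Re F.Qe F.R1 (F.sgm * F.R1) →
      ExN22 c U F.V₁ F.sgm F.rc F.R1 P.Cr G.kb zx → (∀ ω ∈ T, Tc98 μ s c P N F Γ G E u κ ω) →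
      TF ⊆ TP98 μ s c Γ G (N Γ G E) (F.nr μ s c Γ G E) u κ →
      ExP98 μ s c Γ G (N Γ G E) (F.nr μ s c Γ G E) u κ T TF zx := by
    intro PF kw
    by_cases hkw : 0 ≤ kw
    · obtain ⟨Ck, -, n₁, -, H⟩ := exp22 hI PF hkw
      refine ⟨Ck, n₁, fun q => ?_⟩
      by_cases hq : 0 ≤ q
      · obtain ⟨U, -, H⟩ := H q hq
        exact ⟨U, fun _ _ => H⟩
      · exact ⟨0, fun _ h => absurd h hq⟩
    · exact ⟨0, 0, fun _ => ⟨0, fun h => absurd h hkw⟩⟩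
  choose Ck n₁ U H using key
  filter_upwards [rocC15 (S := S0 μ s c Cc ε) hc0 Ck, FC.kw_ge (S0 μ s c Cc ε) fun _ => 0, FC.qF_ge (S0 μ s c Cc ε) fun _ => 0,
    FC.V1_ge (S0 μ s c Cc ε) fun _ => 0, FC.sgm_le (S0 μ s c Cc ε) (fun _ => c / 80) (fun _ => by positivity),
    FC.rc_ge (S0 μ s c Cc ε) fun _ => 5, FC.R1_ge (S0 μ s c Cc ε) fun _ => 2,
    FC.dl_le (S0 μ s c Cc ε) (fun _ => 1) (fun _ => one_pos),
    FC.kb_ge (S0 μ s c Cc ε) fun p => p.R1 + (2 * p.V1 + 7 + U p.PF p.kw p.qF + p.sgm * p.rc + 2 * (p.sgm * p.R1) + 3 / 16 * c * p.R1 +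
      2 * p.Cr + max 0 (zx p)) * (8 / (3 * c)),
    lane2 (μ := μ) (s := s) (c := c) (Cc := Cc) (ε := ε), evPf40 (S0 μ s c Cc ε)]
    with C hR hkw hq hV hsg hrc hR1 hdl hkb lane hP kap hkap
  obtain ⟨m₂, hm₂⟩ := lane 0
  obtain ⟨⟨Pkw, -, Pkb⟩, -, ⟨PCr, -⟩, -⟩ := hP
  have hkb' : C.R1 + (2 * C.V1 + 7 + U C.PF C.kw C.qF + C.sgm * C.rc + 2 * (C.sgm * C.R1) + 3 / 16 * c * C.R1 +
      2 * C.Cr + max 0 (zx C)) * (8 / (3 * c)) ≤ C.kb := by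
    rw [← hzx C]
    exact hkb
  have hN : ExN22 c (U C.PF C.kw C.qF) C.V1 C.sgm C.rc C.R1 C.Cr C.kb (max 0 (zx C)) := by
    refine ⟨hsg.1.le, hsg.2.trans (by linarith), hrc, hR1, le_max_left _ _, ?_⟩
    have e1 : (2 * C.V1 + 7 + U C.PF C.kw C.qF + C.sgm * C.rc + 2 * (C.sgm * C.R1) + 3 / 16 * c * C.R1 +
        2 * C.Cr + max 0 (zx C)) * (8 / (3 * c)) * (3 / 8 * c) = 2 * C.V1 + 7 + U C.PF C.kw C.qF + C.sgm * C.rc + 2 * (C.sgm * C.R1) +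
        3 / 16 * c * C.R1 + 2 * C.Cr + max 0 (zx C) := by
      field_simp
    have e2 := mul_le_mul_of_nonneg_right (show (2 * C.V1 + 7 + U C.PF C.kw C.qF + C.sgm * C.rc + 2 * (C.sgm * C.R1) + 3 / 16 * c * C.R1 +
      2 * C.Cr + max 0 (zx C)) * (8 / (3 * c)) ≤ C.kb - C.R1 by linarith) (show 0 ≤ 3 / 8 * c by positivity)
    rw [e1] at e2
    linarith
  refine ⟨max (n₁ C.PF C.kw) m₂, fun Γ G mt τ0 E u κ W => ?_⟩
  have hT := W.w.hT u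
  have hwin : Win52 μ s C.kw kap (n₁ C.PF C.kw) (C.Nm μ s c ε Γ G E) (C.cf.nr μ s c Γ G E) Γ G mt τ0 E u κ := by
    have h1 := (W.mono (le_max_left _ _)).w
    rw [Pkw] at h1
    exact h1
  refine exP_mono15 (H C.PF C.kw C.qF hkw hq (P := C.P) (N := C.Nm μ s c ε) (F := C.cf) hwin hkap rfl rfl rfl rfl ?_ ?_ ?_ ?_ W.tc
    Set.inter_subset_left) (le_max_right 0 (zx C))
  · show C.dl ≤ 2
    linarith [hdl.2]
  · have h1 := (hm₂ (G.T u) ((le_max_right _ _).trans hT)).2.2.wnT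
    rw [W.w.hw u]
    exact h1
  · rw [PCr]
    exact hR
  · rw [PCr, W.kb, Pkb]
    exact hN

end

end Pool.Agent.W_7d29a1_C1.Q49
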