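import Pool.Agent.W_7d29a1_C1.PinF24
import Pool.Agent.W_7d29a1_C1.Rank26E

/-!
MP_7d29a1_pr, [C1] **THE LUCKY PINCH** (helper24). `pinch24`: for all `K` (half width of the window), then all `L` (bonus), then all
`D ≥ K`, `G` (width and depth of the control), every block of `n ≥ n₁` rows, at every base `b`, has with probability at least `p` a
content (an event of the rows of the block) for which: all starts and ends of the window see a kernel of rank one up to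
`1 + exp (- n ^ c')`, at least `exp (L E)`, flat up to `exp (K₁ E)` (`K₁` before `L`); from every start at distance at most `D wd n`
everything runs through the four cells up to `exp (- (G + |L| + 1) E)`; the level at every place of the rows is at most `q'`.
-/

set_option autoImplicit false

namespace Pool.Agent.W_7d29a1_C1.P24

open MeasureTheory ProbabilityTheory Filter Topology Finset
open Pool.Agent.W_7d29a1_F Pool.Agent.W_7d29a1_h4g Pool.Agent.W_7d29a1_H Pool.Agent.W_7d29a1_HS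
open Pool.Agent.W_7d29a1_C1
open Pool.Agent.W_7d29a1_C1.CR76 Pool.Agent.W_7d29a1_C1.Basin76
open Pool.Agent.W_7d29a1_C1.R26 (RK26 RK26_dep measurableSet_RK26 rank_one26)
open Pool.Agent.W_7d29a1_C1.H75 (hc)
open Pool.Agent.W_7d29a1_C1.U16 (fq16 fq16_one fq16_mono lat16 Far16 far_low far_prob Far16_meas Far16_rows)

noncomputable section

variable {μ : Measure ℝ} {s c C : ℝ} {n₀ : ℕ}

/-- The site of the line of `b`, `t` rows later. -/
def pt24 (μ : Measure ℝ) (s : ℝ) (b : Pt) (t : ℕ) : ℤ := b.2 + ⌊sl μ s * t⌋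

theorem pt24_near (b : Pt) (t : ℕ) : |(pt24 μ s b t : ℝ) - b.2 - sl μ s * t| ≤ 1 := by
  unfold pt24
  have f1 := Int.floor_le (sl μ s * t)
  have f2 := Int.lt_floor_add_one (sl μ s * t)
  push_cast
  rw [abs_le]
  constructor <;> linarith

/-- A level with small probability of the complement. -/
theorem level24 {A a g p : ℝ} (hA : 0 < A) (ha : 0 < a) (hg : 0 < g) (hp : 0 < p) : ∃ q : ℝ, 0 ≤ q ∧ A * Real.exp (-(a * q ^ g)) ≤ p := by
  obtain ⟨x, hx⟩ : ∃ x : ℝ, x = max 0 (Real.log (A / p) / a) := ⟨_, rfl⟩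
  have hx0 : 0 ≤ x := by rw [hx]; exact le_max_left _ _
  refine ⟨x ^ (1 / g), Real.rpow_nonneg hx0 _, ?_⟩
  have e1 : (x ^ (1 / g)) ^ g = x := by
    rw [← Real.rpow_mul hx0]
    have : 1 / g * g = 1 := by field_simp
    rw [this, Real.rpow_one]
  rw [e1]
  have h1 : Real.log (A / p) / a ≤ x := by rw [hx]; exact le_max_right _ _
  rw [div_le_iff₀ ha] at h1
  have h2 : Real.exp (-(a * x)) ≤ Real.exp (-Real.log (A / p)) := Real.exp_le_exp.2 (by linarith)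
  rw [Real.exp_neg (Real.log _), Real.exp_log (by positivity)] at h2
  calc A * Real.exp (-(a * x)) ≤ A * (A / p)⁻¹ := mul_le_mul_of_nonneg_left h2 hA.le
    _ = p := by field_simp

/-- The probability of an event from its complement. -/
theorem real_of_compl24 [IsProbabilityMeasure μ] {E : Set Env} (hE : MeasurableSet E) {t : ℝ} (h : (law μ).real Eᶜ ≤ t) :
    1 - t ≤ (law μ).real E := by
  have h1 := probReal_add_probReal_compl (μ := law μ) hE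
  linarith

/-- The envelope of the whole block. -/
theorem env_five [IsProbabilityMeasure μ] (h : In μ s c C n₀) (P : ℕ) {q κ : ℝ} (hq : 0 ≤ q) (hκ : 0 < κ) : ∃ q' : ℝ, q ≤ q' ∧ ∃ n₁ : ℕ,
    ∀ n : ℕ, n₁ ≤ n → ∀ (b : Pt) (T m : ℕ), n = T + (T + (T + (T + m))) → ∀ η : Env,
      η ∈ EVR24 μ s κ n P b.1 (b.1 + T) b q → η ∈ EVR24 μ s κ n P (b.1 + T) (b.1 + T + T) b q →
      η ∈ EVR24 μ s κ n P (b.1 + T + T) (b.1 + T + T + T) b q → η ∈ EVR24 μ s κ n P (b.1 + T + T + T) (b.1 + T + T + T + T) b q →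
      η ∈ EVR24 μ s κ n P (b.1 + T + T + T + T) (b.1 + T + T + T + T + m) b q →
      η ∈ EVR24 μ s (κ / 16) n P b.1 (b.1 + n) b q' := by
  obtain ⟨q1, h1, n1, H1⟩ := EVR_comp h P hq hκ
  obtain ⟨q2, h2, n2, H2⟩ := EVR_comp h P (hq.trans h1) (show 0 < κ / 2 by positivity)
  obtain ⟨q3, h3, n3, H3⟩ := EVR_comp h P (hq.trans (h1.trans h2)) (show 0 < κ / 2 / 2 by positivity)
  obtain ⟨q4, h4, n4, H4⟩ := EVR_comp h P (hq.trans (h1.trans (h2.trans h3))) (show 0 < κ / 2 / 2 / 2 by positivity)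
  refine ⟨q4, h1.trans (h2.trans (h3.trans h4)), max (max n1 n2) (max n3 n4), fun n hn b T m hnT η a0 a1 a2 a3 a4 => ?_⟩
  have k1 : n1 ≤ n := ((le_max_left _ _).trans (le_max_left _ _)).trans hn
  have k2 : n2 ≤ n := ((le_max_right _ _).trans (le_max_left _ _)).trans hn
  have k3 : n3 ≤ n := ((le_max_left _ _).trans (le_max_right _ _)).trans hn
  have k4 : n4 ≤ n := ((le_max_right _ _).trans (le_max_right _ _)).trans hn
  have hnZ : (n : ℤ) = T + (T + (T + (T + m))) := by exact_mod_cast hnT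
  have b1 := H1 n k1 b.1 (b.1 + T) (b.1 + T + T) b (by omega) (by omega) (by omega) ⟨a0, a1⟩
  have c2 := EVR24_mono h (show κ / 2 ≤ κ by linarith) h1 n P (b.1 + T + T) (b.1 + T + T + T) b a2
  have b2 := H2 n k2 b.1 (b.1 + T + T) (b.1 + T + T + T) b (by omega) (by omega) (by omega) ⟨b1, c2⟩
  have c3 := EVR24_mono h (show κ / 2 / 2 ≤ κ by linarith) (h1.trans h2) n P (b.1 + T + T + T) (b.1 + T + T + T + T) b a3
  have b3 := H3 n k3 b.1 (b.1 + T + T + T) (b.1 + T + T + T + T) b (by omega) (by omega) (by omega) ⟨b2, c3⟩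
  have c4 := EVR24_mono h (show κ / 2 / 2 / 2 ≤ κ by linarith) (h1.trans (h2.trans h3)) n P (b.1 + T + T + T + T)
    (b.1 + T + T + T + T + m) b a4
  have b4 := H4 n k4 b.1 (b.1 + T + T + T + T) (b.1 + T + T + T + T + m) b (by omega) (by omega) (by omega) ⟨b3, c4⟩
  have e1 : κ / 2 / 2 / 2 / 2 = κ / 16 := by ring
  have e2 : b.1 + T + T + T + T + m = b.1 + n := by omega
  rw [e1, e2] at b4
  exact b4

/-- The tolerance of rank one. -/
theorem tol24 {b₀ κ₀ c₁ : ℝ} (hb : 0 < b₀) (hκ : 0 < κ₀) (hc : 0 < c₁) : ∃ c' : ℝ, 0 < c' ∧ ∃ n₁ : ℕ, ∀ n : ℕ, n₁ ≤ n → ∀ T : ℕ, n ≤ 16 * T →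
    ∀ E : ℝ, κ₀ * (n : ℝ) ^ b₀ ≤ E → (1 + Real.exp (-E)) ^ 2 * (1 + Real.exp (-(T : ℝ) ^ c₁)) ≤ 1 + Real.exp (-(n : ℝ) ^ c') := by
  obtain ⟨c', hc'⟩ : ∃ c' : ℝ, c' = min b₀ c₁ / 2 := ⟨_, rfl⟩
  have hc0 : 0 < c' := by rw [hc']; positivity
  have hcb : 0 < b₀ - c' := by
    have := min_le_left b₀ c₁
    have := lt_min hb hc
    rw [hc']
    linarith
  have hcc : 0 < c₁ - c' := by
    have := min_le_right b₀ c₁
    have := lt_min hb hc
    rw [hc']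
    linarith
  obtain ⟨n1, h1⟩ := eventually_atTop.1 (((tendsto_rpow_atTop hcb).comp tendsto_natCast_atTop_atTop).eventually_ge_atTop (2 / κ₀))
  obtain ⟨n2, h2⟩ := eventually_atTop.1 (((tendsto_rpow_atTop hcc).comp tendsto_natCast_atTop_atTop).eventually_ge_atTop (2 * 16 ^ c₁))
  obtain ⟨n3, h3⟩ := eventually_atTop.1 (((tendsto_rpow_atTop hc0).comp tendsto_natCast_atTop_atTop).eventually_ge_atTop 3)
  refine ⟨c', hc0, max (max n1 n2) (max n3 1), fun n hn T hT E hE => ?_⟩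
  have k1 : n1 ≤ n := ((le_max_left _ _).trans (le_max_left _ _)).trans hn
  have k2 : n2 ≤ n := ((le_max_right _ _).trans (le_max_left _ _)).trans hn
  have k3 : n3 ≤ n := ((le_max_left _ _).trans (le_max_right _ _)).trans hn
  have k4 : 1 ≤ n := ((le_max_right _ _).trans (le_max_right _ _)).trans hn
  have hnR : (0 : ℝ) < n := by exact_mod_cast k4
  have g1 : 2 / κ₀ ≤ (n : ℝ) ^ (b₀ - c') := h1 n k1
  have g2 : 2 * (16 : ℝ) ^ c₁ ≤ (n : ℝ) ^ (c₁ - c') := h2 n k2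
  have g3 : (3 : ℝ) ≤ (n : ℝ) ^ c' := h3 n k3
  have g4 : (n : ℝ) ^ c' + 3 ≤ E := by
    refine le_trans ?_ hE
    have e1 : (n : ℝ) ^ b₀ = (n : ℝ) ^ c' * (n : ℝ) ^ (b₀ - c') := by
      rw [← Real.rpow_add hnR]
      congr 1
      ring
    rw [e1]
    rw [div_le_iff₀ hκ] at g1
    nlinarith
  have g5 : (n : ℝ) ^ c' + 3 ≤ (T : ℝ) ^ c₁ := by
    have e1 : (n : ℝ) ^ c₁ = (n : ℝ) ^ c' * (n : ℝ) ^ (c₁ - c') := by
      rw [← Real.rpow_add hnR]
      congr 1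
      ring
    have e2 : (n : ℝ) ^ c₁ ≤ (16 : ℝ) ^ c₁ * (T : ℝ) ^ c₁ := by
      rw [← Real.mul_rpow (by norm_num) (Nat.cast_nonneg T)]
      exact Real.rpow_le_rpow hnR.le (by exact_mod_cast hT) hc.le
    have e3 : 0 < (16 : ℝ) ^ c₁ := by positivity
    have e4 : (n : ℝ) ^ c' * (2 * (16 : ℝ) ^ c₁) ≤ (16 : ℝ) ^ c₁ * (T : ℝ) ^ c₁ := by
      rw [e1] at e2
      refine le_trans (mul_le_mul_of_nonneg_left g2 (by positivity)) e2
    have e5 : (16 : ℝ) ^ c₁ * (2 * (n : ℝ) ^ c') ≤ (16 : ℝ) ^ c₁ * (T : ℝ) ^ c₁ := by linarith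
    have e6 := le_of_mul_le_mul_left e5 e3
    linarith
  obtain ⟨x, hx⟩ : ∃ x : ℝ, x = Real.exp (-((n : ℝ) ^ c' + 3)) := ⟨_, rfl⟩
  have x0 : 0 < x := by rw [hx]; exact Real.exp_pos _
  have x1 : x ≤ 1 := by rw [hx]; exact Real.exp_le_one_iff.2 (by linarith)
  have p1 : Real.exp (-E) ≤ x := by rw [hx]; exact Real.exp_le_exp.2 (by linarith)
  have p2 : Real.exp (-(T : ℝ) ^ c₁) ≤ x := by rw [hx]; exact Real.exp_le_exp.2 (by linarith)
  have p3 : 7 * x ≤ Real.exp (-(n : ℝ) ^ c') := by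
    have e1 : x = Real.exp (-(n : ℝ) ^ c') * Real.exp (-3) := by
      rw [hx, ← Real.exp_add]
      congr 1
      ring
    have e2 : Real.exp (-3 : ℝ) ≤ 1 / 7 := by
      have h5 : (7 : ℝ) ≤ Real.exp 3 := by
        have h6 := Real.quadratic_le_exp_of_nonneg (show (0 : ℝ) ≤ 3 by norm_num)
        linarith
      rw [Real.exp_neg, one_div]
      exact inv_anti₀ (by norm_num) h5
    have e3 := Real.exp_pos (-(n : ℝ) ^ c')
    nlinarith
  have p4 : (1 + Real.exp (-E)) ^ 2 ≤ (1 + x) ^ 2 := pow_le_pow_left₀ (by positivity) (by linarith) 2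
  have p5 : (1 + Real.exp (-E)) ^ 2 * (1 + Real.exp (-(T : ℝ) ^ c₁)) ≤ (1 + x) ^ 2 * (1 + x) :=
    mul_le_mul p4 (by linarith) (by positivity) (by positivity)
  refine p5.trans ?_
  nlinarith [mul_nonneg x0.le x0.le, mul_nonneg (mul_nonneg x0.le x0.le) x0.le]

/-- **THE LUCKY PINCH.** -/
theorem pinch24 [IsProbabilityMeasure μ] (h : In μ s c C n₀) : ∃ c' : ℝ, 0 < c' ∧ ∀ K : ℝ, 0 ≤ K →
    ∃ (P : ℕ) (K₁ q0 ℓ d : ℝ), 0 ≤ K₁ ∧ 0 ≤ q0 ∧ 0 ≤ ℓ ∧ 0 < d ∧ d ≤ 1 ∧ ∀ L : ℝ, ∃ q q' : ℝ, q0 ≤ q ∧ q ≤ q' ∧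
    ∀ D G : ℝ, K ≤ D → 0 ≤ G → ∃ p : ℝ, 0 < p ∧ ∃ n₁ : ℕ, ∀ n : ℕ, n₁ ≤ n →
    ∃ T m : ℕ, n = T + (T + (T + (T + m))) ∧ n ≤ 16 * T ∧ 8 * T ≤ n ∧ ∀ b : Pt, ∃ Λ : Set Env, MeasurableSet Λ ∧
      On20 (rows b.1 (b.1 + n)) Λ ∧ p ≤ (law μ).real Λ ∧ ∀ η ∈ Λ,
      (∃ ω Lb Gs ε : ℝ, (D + 1) * wd μ s n ≤ ω ∧ (|L| + 3 * ℓ) * EE μ s n ≤ 2 * Lb ∧ (G + |L| + 5) * EE μ s n ≤ Gs ∧
        0 ≤ ε ∧ ε ≤ Real.exp (-(n : ℝ) ^ c') ∧ PF24 μ s η b n T m P (pt24 μ s b T) (pt24 μ s b (2 * T)) (pt24 μ s b (3 * T)) (pt24 μ s b (4 * T))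
        (c / 64) q0 q (d * wd μ s T) K ℓ ω Lb Gs ε) ∧
      PN24 μ s η b n P K D L G K₁ (c / 64) (Real.exp (-(n : ℝ) ^ c')) ∧
      η ∈ EVR24 μ s (c / 1024) n P b.1 (b.1 + n) b q' ∧
      ∀ u v : ℤ, |(u : ℝ) - b.2| ≤ D * wd μ s n →
        cel24 μ s η b T m (pt24 μ s b T) (pt24 μ s b (2 * T)) (pt24 μ s b (3 * T)) (pt24 μ s b (4 * T)) (d * wd μ s T) u v ≤
          kW μ s η b.1 n u v ∧
        kW μ s η b.1 n u v ≤ cel24 μ s η b T m (pt24 μ s b T) (pt24 μ s b (2 * T)) (pt24 μ s b (3 * T)) (pt24 μ s b (4 * T))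
          (d * wd μ s T) u v + Real.exp (-((G + |L| + 1) * EE μ s n)) := by
  obtain ⟨d₁, c₁, hd₁, hc₁, nR, hR⟩ := rank_one26 h (e := 1 / 4) (K := 2) (by norm_num) (by norm_num)
  obtain ⟨b₀, κ₀, hb₀, hκ₀, hEp⟩ := EE_pow h
  obtain ⟨c', hc', nT, htol⟩ := tol24 hb₀ hκ₀ hc₁
  obtain ⟨P1, hslab⟩ := slabP24 h
  obtain ⟨d, hd⟩ : ∃ d : ℝ, d = min (d₁ / 2) 1 := ⟨_, rfl⟩
  have hd0 : 0 < d := by rw [hd]; exact lt_min (by positivity) one_pos
  have hd1 : d ≤ 1 := by rw [hd]; exact min_le_right _ _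
  have hdd : 2 * d ≤ d₁ := by
    have : d ≤ d₁ / 2 := by rw [hd]; exact min_le_left _ _
    linarith
  have hκ : 0 < c / 64 := by have := h.c0; positivity
  refine ⟨c', hc', fun K hK => ?_⟩
  obtain ⟨P0, A, a₀, g, hA, ha₀, hg, hg1, nF, hnF, hfar⟩ := far_prob h (K := K + 8) (θ := 1 / 16) (by linarith) (by norm_num) (by norm_num)
  obtain ⟨q0', hq0', hq0p⟩ := level24 hA ha₀ hg (show (0 : ℝ) < 1 / 4 by norm_num)
  obtain ⟨P, hP⟩ : ∃ P : ℕ, P = max P0 P1 := ⟨_, rfl⟩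
  have hP0 : P0 ≤ P := by rw [hP]; exact le_max_left _ _
  have hP1 : P1 ≤ P := by rw [hP]; exact le_max_right _ _
  have hlog : 0 ≤ Real.log 64 := Real.log_nonneg (by norm_num)
  obtain ⟨q0, hq0⟩ : ∃ q0 : ℝ, q0 = q0' * (1 + Real.log 64) ^ P0 := ⟨_, rfl⟩
  have hq00 : 0 ≤ q0 := by rw [hq0]; positivity
  obtain ⟨ℓ, hℓ⟩ : ∃ ℓ : ℝ, ℓ = q0' * fq16 P0 (K + 3) := ⟨_, rfl⟩
  have hfK := fq16_one P0 (K + 3)
  have hℓ0 : 0 ≤ ℓ := by rw [hℓ]; positivity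
  obtain ⟨nL, hlow⟩ := far_low h (K := K + 8) (θ := 1 / 16) (by linarith) (by norm_num)
  have hf1 := fq16_one P (K + 1)
  have hf4 := fq16_one P 4
  refine ⟨P, q0 * (fq16 P (K + 1) + fq16 P 4 + 1) + 2 * ℓ + 6 * (c / 64) + 1, q0, ℓ, d, by positivity, hq00, hℓ0, hd0, hd1,
    fun L => ?_⟩
  obtain ⟨q1', hq1', hsl⟩ := hslab 1 (8 * d) (16 * (|L| + 3 * ℓ)) 1 zero_le_one (by positivity)
  obtain ⟨q, hq⟩ : ∃ q : ℝ, q = max q0 (q1' * (1 + Real.log 64) ^ P1) := ⟨_, rfl⟩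
  have hqq : q0 ≤ q := by rw [hq]; exact le_max_left _ _
  have hqq1 : q1' * (1 + Real.log 64) ^ P1 ≤ q := by rw [hq]; exact le_max_right _ _
  have hqn : 0 ≤ q := hq00.trans hqq
  obtain ⟨q', hqq', nE, henv⟩ := env_five h P hqn hκ
  refine ⟨q, q', hqq, hqq', fun D G hKD hG => ?_⟩
  have hD : 0 ≤ D := hK.trans hKD
  obtain ⟨D₀, hD₀, hnum⟩ := num24 P (q := 5 * q) (κ := c / 64) (K := D) (G := G + |L| + 5) (by positivity) hκ hD
  obtain ⟨F, hF⟩ : ∃ F : ℝ, F = fq16 P (D + D₀ + 1) := ⟨_, rfl⟩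
  have hF1 : 1 ≤ F := by rw [hF]; exact fq16_one P _
  have hL0 := abs_nonneg L
  obtain ⟨p₁, Q, n₁, hp₁, hQ, hn₁, hsl2⟩ := hsl (32 * (D + D₀ + 1)) (32 * (4 * q * F + (G + |L| + 5))) (by linarith) (by positivity)
  -- thresholds at the scale T
  obtain ⟨nw, hnw⟩ := eventually_atTop.1 ((wd_tendsto h).eventually_ge_atTop 2)
  obtain ⟨nv, hnv⟩ := eventually_atTop.1 (h.tv.eventually_le_const (show (0 : ℝ) < 1 by norm_num))
  obtain ⟨nl, hnl⟩ := lgo h (δ := 1 / 2) (by norm_num)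
  obtain ⟨ne, hne⟩ := eventually_atTop.1 (h.tE.eventually_ge_atTop (2 * Real.log 14))
  refine ⟨1 / 2 * (p₁ * (1 / 2 * (p₁ * (1 / 2)))), by positivity,
    16 * (nR + nw + nv + 1) + (nT + nF + nL + nE + nl + ne) + 8 * Q * (n₁ + 1), fun n hn => ?_⟩
  obtain ⟨t, ht⟩ : ∃ t : ℕ, t = n / (8 * Q) := ⟨_, rfl⟩
  obtain ⟨T, hT⟩ : ∃ T : ℕ, T = Q * t := ⟨_, rfl⟩
  have hQ8 : 0 < 8 * Q := by omega
  have ht1 : n₁ + 1 ≤ t := by
    rw [ht, Nat.le_div_iff_mul_le hQ8]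
    have : (n₁ + 1) * (8 * Q) = 8 * Q * (n₁ + 1) := by ring
    omega
  have hT8 : 8 * T ≤ n := by
    have h1 := Nat.div_mul_le_self n (8 * Q)
    rw [← ht] at h1
    have e1 : 8 * T = t * (8 * Q) := by rw [hT]; ring
    omega
  have hT16 : n ≤ 16 * T := by
    have h1 := Nat.lt_div_mul_add hQ8 (a := n)
    rw [← ht] at h1
    have e1 : 8 * T = t * (8 * Q) := by rw [hT]; ring
    have e2 : Q ≤ T := by rw [hT]; exact Nat.le_mul_of_pos_right Q (by omega)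
    omega
  obtain ⟨m, hm⟩ : ∃ m : ℕ, m = n - 4 * T := ⟨_, rfl⟩
  have hnT : n = T + (T + (T + (T + m))) := by omega
  refine ⟨T, m, hnT, hT16, hT8, fun b => ?_⟩
  -- scales
  have hn1 : 1 ≤ n := by omega
  have hT1 : 1 ≤ T := by omega
  have hTn : T ≤ n := by omega
  have hwT2 : 2 ≤ wd μ s T := hnw T (by omega)
  have hwT : 1 ≤ wd μ s T := by linarith
  have hw2 : 2 ≤ wd μ s n := hnw n (by omega)
  have hw : 1 ≤ wd μ s n := by linarith
  have hCT := cmp24 h hT1 hTn hT16 hwT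
  have hCn : Cmp24 μ s n n := ⟨hn1, le_rfl, hw, le_rfl, by linarith [EE_pos (μ := μ) (s := s) n], by linarith, by linarith⟩
  have hwTT : wd μ s T ≤ T := by
    have h1 := hnv T (by omega)
    have h2 : (0 : ℝ) ≤ T := Nat.cast_nonneg T
    have e1 : wd μ s T = T * vA 1 μ s T := rfl
    rw [e1]
    nlinarith
  have hET := EE_pos (μ := μ) (s := s) T
  have hEn := EE_pos (μ := μ) (s := s) n
  obtain ⟨ρ, hρ⟩ : ∃ ρ : ℝ, ρ = d * wd μ s T := ⟨_, rfl⟩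
  have hρ0 : 0 ≤ ρ := by rw [hρ]; positivity
  have hρw : ρ ≤ wd μ s T := by rw [hρ]; nlinarith
  have hρn : ρ ≤ 2 * wd μ s n := hρw.trans hCT.a2
  -- the standard points
  obtain ⟨a1, ha1⟩ : ∃ a : ℤ, a = pt24 μ s b T := ⟨_, rfl⟩
  obtain ⟨e1, he1⟩ : ∃ a : ℤ, a = pt24 μ s b (2 * T) := ⟨_, rfl⟩
  obtain ⟨a2, ha2⟩ : ∃ a : ℤ, a = pt24 μ s b (3 * T) := ⟨_, rfl⟩
  obtain ⟨e2, he2⟩ : ∃ a : ℤ, a = pt24 μ s b (4 * T) := ⟨_, rfl⟩
  have ca1 : |(a1 : ℝ) - b.2 - sl μ s * T| ≤ 1 := by rw [ha1]; exact pt24_near b T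
  have ce1 : |(e1 : ℝ) - b.2 - sl μ s * (2 * T)| ≤ 1 := by
    have := pt24_near (μ := μ) (s := s) b (2 * T)
    rw [← he1] at this
    push_cast at this
    exact this
  have ca2 : |(a2 : ℝ) - b.2 - sl μ s * (3 * T)| ≤ 1 := by
    have := pt24_near (μ := μ) (s := s) b (3 * T)
    rw [← ha2] at this
    push_cast at this
    exact this
  have ce2 : |(e2 : ℝ) - b.2 - sl μ s * (4 * T)| ≤ 1 := by
    have := pt24_near (μ := μ) (s := s) b (4 * T)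
    rw [← he2] at this
    push_cast at this
    exact this
  rw [← ha1, ← he1, ← ha2, ← he2, ← hρ]
  have d1 : |((e1 - a1 : ℤ) : ℝ) - sl μ s * T| ≤ 2 := by
    rw [abs_le] at ca1 ce1 ⊢
    push_cast
    constructor <;> linarith
  have d2 : |((a2 - e1 : ℤ) : ℝ) - sl μ s * T| ≤ 2 := by
    rw [abs_le] at ce1 ca2 ⊢
    push_cast
    constructor <;> linarith
  have d3 : |((e2 - a2 : ℤ) : ℝ) - sl μ s * T| ≤ 2 := by
    rw [abs_le] at ca2 ce2 ⊢
    push_cast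
    constructor <;> linarith
  -- the five events
  obtain ⟨SL, hSL⟩ : ∃ SL : ℤ → Set Env, SL = fun z => SLAB20 μ s (fun _ : Unit => 0) (fun _ : Unit => z) T
      (32 * (D + D₀ + 1) * wd μ s T) (8 * d / 8 * wd μ s T) (16 * (|L| + 3 * ℓ) * EE μ s T)
      (32 * (4 * q * F + (G + |L| + 5)) * EE μ s T) ((q1' * fq16 P1 (32 * (D + D₀ + 1) + 1) + 1) * EE μ s T) ∩
      FU24 μ s c T T P1 0 q1' := ⟨_, rfl⟩
  have hSLp : ∀ z : ℤ, |(z : ℝ) - sl μ s * T| ≤ 2 → p₁ ≤ (law μ).real (SL z) := by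
    intro z hz
    have h1 := hsl2 t (by omega) Unit (by simp) (fun _ => 0) (fun _ => z) (fun _ => by
      rw [Int.cast_zero, abs_zero, ← hT]
      linarith) (fun _ => by
      rw [← hT]
      linarith) (fun j j' hj => absurd (Subsingleton.elim j j') hj)
    rw [← hT] at h1
    rw [hSL]
    exact h1
  have hSLm : ∀ z : ℤ, MeasurableSet (SL z) := fun z => by
    rw [hSL]
    exact (meas_SLAB20 _ _ _ _ _ _ _ _).inter (meas_FU24 _ _ _ _ _)
  have hSLo : ∀ z : ℤ, On20 (rows 0 (0 + T)) (SL z) := fun z => by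
    rw [hSL]
    exact (on_SLAB20 _ _ _ _ _ _ _ _).inter (on_FU24 T T P1 0 q1')
  have hSLa : ∀ (r a z : ℤ), |(z : ℝ) - sl μ s * T| ≤ 2 → MeasurableSet (at20 (r, a) (SL z)) ∧
      On20 (rows r (r + T)) (at20 (r, a) (SL z)) ∧ p₁ ≤ (law μ).real (at20 (r, a) (SL z)) := by
    intro r a z hz
    refine ⟨meas_at20 _ (hSLm z), on_at20' (r, a) (hSLo z), ?_⟩
    rw [real_at20 (μ := μ) (r, a) (hSLm z)]
    exact hSLp z hz
  have hFp : ∀ (N : ℕ) (b' : Pt), N ≤ n → MeasurableSet (Far16 μ s c (1 / 16) (K + 8) n N P0 b' q0') ∧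
      On20 (rows b'.1 (b'.1 + N)) (Far16 μ s c (1 / 16) (K + 8) n N P0 b' q0') ∧
      (law μ).real (Far16 μ s c (1 / 16) (K + 8) n N P0 b' q0')ᶜ ≤ 1 / 4 := by
    intro N b' hN
    exact ⟨Far16_meas _ _ _ _ _ _ _, fun η η' hh => Far16_rows hh, (hfar n (by omega) N hN b' q0' hq0').trans hq0p⟩
  obtain ⟨EA, hEA⟩ : ∃ E : Set Env, E = Far16 μ s c (1 / 16) (K + 8) n T P0 b q0' := ⟨_, rfl⟩
  obtain ⟨EM1, hEM1⟩ : ∃ E : Set Env, E = RK26 μ s (b.1 + T + T) T (e1 - ⌊ρ⌋) (e1 + ⌊ρ⌋) (a2 - ⌊ρ⌋) (a2 + ⌊ρ⌋)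
      (Real.exp (-(T : ℝ) ^ c₁)) := ⟨_, rfl⟩
  obtain ⟨EM2, hEM2⟩ : ∃ E : Set Env, E = Far16 μ s c (1 / 16) (K + 8) n T P0 (b.1 + T + T, e1) q0' := ⟨_, rfl⟩
  obtain ⟨EB, hEB⟩ : ∃ E : Set Env, E = Far16 μ s c (1 / 16) (K + 8) n m P0 (b.1 + T + T + T + T, e2) q0' := ⟨_, rfl⟩
  have hfl0 : (0 : ℤ) ≤ ⌊ρ⌋ := Int.floor_nonneg.2 hρ0
  have hflρ : (⌊ρ⌋ : ℝ) ≤ ρ := Int.floor_le ρ
  have hcell : ∀ a : ℤ, (((a + ⌊ρ⌋) - (a - ⌊ρ⌋) : ℤ) : ℝ) ≤ d₁ * wd μ s T := by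
    intro a
    push_cast
    have : 2 * ρ ≤ d₁ * wd μ s T := by
      rw [hρ]
      nlinarith
    linarith
  obtain ⟨r1, r2, r3⟩ := hR T (by omega) (b.1 + T + T) (e1 - ⌊ρ⌋) (e1 + ⌊ρ⌋) (a2 - ⌊ρ⌋) (a2 + ⌊ρ⌋) (by omega) (by omega)
    (hcell e1) (hcell a2) (by
      have e : (a2 - ⌊ρ⌋) - (e1 - ⌊ρ⌋) = a2 - e1 := by ring
      rw [e]
      refine d2.trans ?_
      linarith)
  have pA : 1 / 2 ≤ (law μ).real EA := by
    obtain ⟨g1, -, g3⟩ := hFp T b hTn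
    rw [← hEA] at g1 g3
    have := real_of_compl24 g1 g3
    linarith
  have pB : 1 / 2 ≤ (law μ).real EB := by
    obtain ⟨g1, -, g3⟩ := hFp m (b.1 + T + T + T + T, e2) (by omega)
    rw [← hEB] at g1 g3
    have := real_of_compl24 g1 g3
    linarith
  have mM1 : MeasurableSet EM1 := by rw [hEM1]; exact measurableSet_RK26 _ _ _ _ _ _ _
  have pM : 1 / 2 ≤ (law μ).real (EM1 ∩ EM2) := by
    obtain ⟨g1, -, g3⟩ := hFp T (b.1 + T + T, e1) hTn
    rw [← hEM2] at g1 g3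
    have g4 : (law μ).real EM1ᶜ ≤ 1 / 4 := by
      rw [hEM1]
      exact ENNReal.toReal_le_of_le_ofReal (by norm_num) r3
    have g5 : (law μ).real (EM1 ∩ EM2)ᶜ ≤ 1 / 2 := by
      rw [Set.compl_inter]
      refine (measureReal_union_le _ _).trans ?_
      linarith
    have := real_of_compl24 (mM1.inter g1) g5
    linarith
  have oA : On20 (rows b.1 (b.1 + T)) EA := by rw [hEA]; exact (hFp T b hTn).2.1
  have oM : On20 (rows (b.1 + T + T) (b.1 + T + T + T)) (EM1 ∩ EM2) := by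
    refine On20.inter ?_ ?_
    · rw [hEM1]
      exact fun η η' hh => RK26_dep (fun p h1 h2 => hh p ⟨h1, h2⟩) _ _ _ _ _
    · rw [hEM2]
      exact (hFp T (b.1 + T + T, e1) hTn).2.1
  have oB : On20 (rows (b.1 + T + T + T + T) (b.1 + T + T + T + T + m)) EB := by
    rw [hEB]
    exact (hFp m (b.1 + T + T + T + T, e2) (by omega)).2.1
  have mA : MeasurableSet EA := by rw [hEA]; exact (hFp T b hTn).1
  have mM : MeasurableSet (EM1 ∩ EM2) := mM1.inter (by rw [hEM2]; exact (hFp T (b.1 + T + T, e1) hTn).1)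
  have mB : MeasurableSet EB := by rw [hEB]; exact (hFp m (b.1 + T + T + T + T, e2) (by omega)).1
  obtain ⟨s1m, s1o, s1p⟩ := hSLa (b.1 + T) a1 (e1 - a1) d1
  obtain ⟨s3m, s3o, s3p⟩ := hSLa (b.1 + T + T + T) a2 (e2 - a2) d3
  obtain ⟨w1o, w1m, w1p⟩ := indep24 (μ := μ) (by omega) (by omega) s3o oB s3m mB hp₁.le (by norm_num) s3p pB
  obtain ⟨w2o, w2m, w2p⟩ := indep24 (μ := μ) (by omega) (by omega) oM w1o mM w1m (by norm_num) (by positivity) pM w1p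
  obtain ⟨w3o, w3m, w3p⟩ := indep24 (μ := μ) (by omega) (by omega) s1o w2o s1m w2m hp₁.le (by positivity) s1p w2p
  obtain ⟨w4o, w4m, w4p⟩ := indep24 (μ := μ) (by omega) (by omega) oA w3o mA w3m (by norm_num) (by positivity) pA w3p
  have hend : b.1 + T + T + T + T + m = b.1 + n := by omega
  rw [hend] at w4o
  refine ⟨EA ∩ (at20 (b.1 + T, a1) (SL (e1 - a1)) ∩ ((EM1 ∩ EM2) ∩ (at20 (b.1 + T + T + T, a2) (SL (e2 - a2)) ∩ EB))), w4m, w4o, w4p,
    fun η hη => ?_⟩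
  obtain ⟨ηA, η1, ⟨ηM1, ηM2⟩, η3, ηB⟩ := hη
  rw [hSL] at η1 η3
  rw [hEA] at ηA
  rw [hEM1] at ηM1
  rw [hEM2] at ηM2
  rw [hEB] at ηB
  -- the facts of the slabs
  have hlat : ∀ (b' : Pt) (r : ℤ) (y : ℤ), b'.1 = r → lat16 μ s b' (r, y) = (y : ℝ) - b'.2 := by
    intro b' r y hr
    unfold lat16
    rw [hr]
    push_cast
    ring
  have typ : ∀ (N : ℕ) (b' : Pt), |lat16 μ s b b'| ≤ wd μ s n → η ∈ Far16 μ s c (1 / 16) (K + 8) n N P0 b' q0' →
      η ∈ EVR24 μ s (c / 64) n P b'.1 (b'.1 + N) b q0 := by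
    intro N b' hb' hη
    have g1 := far_sub_FU24 (θ := 1 / 16) hq0' hw (by linarith : (3 : ℝ) ≤ K + 8) hη
    have g2 := EVR_of_FU h hCn hb' hq0' g1
    rw [← hq0] at g2
    exact EVR24_P hq00 hP0 _ _ _ g2
  have luc : ∀ r a z : ℤ, |lat16 μ s b (r, a)| ≤ wd μ s n → η ∈ at20 (r, a) (FU24 μ s c T T P1 0 q1') →
      η ∈ EVR24 μ s (c / 64) n P r (r + T) b q := by
    intro r a z hb' hη
    have g0 : η ∈ FU24 μ s c T T P1 (r, a) q1' := by
      have := (FU24_sh (μ := μ) (s := s) (c := c) T T P1 0 (r, a) q1' η).1 hη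
      rwa [zero_add] at this
    have g2 := EVR_of_FU h hCT hb' hq1' g0
    have g3 := EVR24_P (by positivity : (0 : ℝ) ≤ q1' * (1 + Real.log 64) ^ P1) hP1 _ _ _ g2
    exact EVR24_mono h le_rfl hqq1 n P _ _ _ g3
  have lb : ∀ (r : ℤ) (a : ℤ) (t : ℕ), r = b.1 + t → |(a : ℝ) - b.2 - sl μ s * t| ≤ 1 → |lat16 μ s b (r, a)| ≤ wd μ s n := by
    intro r a t hr ha
    have e : lat16 μ s b (r, a) = (a : ℝ) - b.2 - sl μ s * t := by
      unfold lat16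
      rw [hr]
      push_cast
      ring
    rw [e]
    linarith
  have U0 := typ T b (by unfold lat16; simp only [sub_self, Int.cast_zero, mul_zero, abs_zero]; linarith) ηA
  have U2 := typ T (b.1 + T + T, e1) (lb _ _ (2 * T) (by push_cast; ring) (by push_cast; exact ce1)) ηM2
  have U4 := typ m (b.1 + T + T + T + T, e2) (lb _ _ (4 * T) (by push_cast; ring) (by push_cast; exact ce2)) ηB
  have U1 := luc (b.1 + T) a1 0 (lb _ _ T rfl ca1) η1.2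
  have U3 := luc (b.1 + T + T + T) a2 0 (lb _ _ (3 * T) (by push_cast; ring) (by push_cast; exact ca2)) η3.2
  have e8 : 8 * d / 8 * wd μ s T = ρ := by rw [hρ]; ring
  have l1 := lane_of_slab (μ := μ) (s := s) (r := b.1 + T) (a := a1) (e := e1) η1.1
  have l3 := lane_of_slab (μ := μ) (s := s) (r := b.1 + T + T + T) (a := a2) (e := e2) η3.1
  rw [e8] at l1 l3
  have hfq3 : ∀ x : ℝ, 0 ≤ x → x ≤ K + 2 → q0' * fq16 P0 (x + 1) * EE μ s n ≤ ℓ * EE μ s n := by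
    intro x hx0 hx
    rw [hℓ]
    refine mul_le_mul_of_nonneg_right (mul_le_mul_of_nonneg_left ?_ hq0') hEn.le
    exact fq_mono' (by linarith) (by linarith)
  have hTθ : (1 / 16 : ℝ) * n ≤ T := by
    have : (n : ℝ) ≤ 16 * T := by exact_mod_cast hT16
    linarith
  have hmθ : (1 / 16 : ℝ) * n ≤ m := by
    have h1 : n ≤ 2 * m := by omega
    have : (n : ℝ) ≤ 2 * m := by exact_mod_cast h1
    linarith
  have HP : PF24 μ s η b n T m P a1 e1 a2 e2 (c / 64) q0 q ρ K ℓ (32 * (D + D₀ + 1) * wd μ s T) (16 * (|L| + 3 * ℓ) * EE μ s T)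
      (32 * (4 * q * F + (G + |L| + 5)) * EE μ s T) (Real.exp (-(T : ℝ) ^ c₁)) := by
    refine ⟨U0, U1, U2, U3, U4, ?_, ?_, ?_, l1, l3, rank_cells (Real.exp_pos _).le r1 r2 ηM1⟩
    · intro u y hu hy
      have hy' := mem_Ce24.1 hy
      have g1 := hlow n (by omega) T P0 b q0' η hq0' ηA (b.1, u) T (y - u) le_rfl le_rfl hTθ (by
        have e : ((y - u : ℤ) : ℝ) - sl μ s * T = ((y : ℝ) - a1) + ((a1 : ℝ) - b.2 - sl μ s * T) - ((u : ℝ) - b.2) := by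
          push_cast
          ring
        rw [e]
        refine (abs_sub _ _).trans ?_
        have := abs_add_le ((y : ℝ) - a1) ((a1 : ℝ) - b.2 - sl μ s * T)
        nlinarith)
      refine le_trans (Real.exp_le_exp.2 ?_) g1
      rw [hlat b b.1 u rfl]
      have g2 : |(u : ℝ) - b.2| / wd μ s n ≤ K + 2 := by
        rw [div_le_iff₀ (by linarith)]
        nlinarith
      have g3 := hfq3 _ (by positivity) g2
      linarith
    · intro y hy y' hy'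
      have h1 := mem_Ce24.1 hy
      have h2 := mem_Ce24.1 hy'
      have g1 := hlow n (by omega) T P0 (b.1 + T + T, e1) q0' η hq0' ηM2 (b.1 + T + T, y) T (y' - y) le_rfl le_rfl hTθ (by
        have e : ((y' - y : ℤ) : ℝ) - sl μ s * T = ((y' : ℝ) - a2) - ((y : ℝ) - e1) + (((a2 - e1 : ℤ) : ℝ) - sl μ s * T) := by
          push_cast
          ring
        rw [e]
        refine (abs_add_le _ _).trans ?_
        have := abs_sub ((y' : ℝ) - a2) ((y : ℝ) - e1)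
        nlinarith)
      refine le_trans (Real.exp_le_exp.2 ?_) g1
      rw [hlat (b.1 + T + T, e1) (b.1 + T + T) y rfl]
      have g2 : |(y : ℝ) - ((b.1 + T + T, e1) : Pt).2| / wd μ s n ≤ K + 2 := by
        rw [div_le_iff₀ (by linarith)]
        show |(y : ℝ) - e1| ≤ (K + 2) * wd μ s n
        nlinarith
      have g3 := hfq3 _ (by positivity) g2
      linarith
    · intro y hy v hv
      have h1 := mem_Ce24.1 hy
      have g1 := hlow n (by omega) m P0 (b.1 + T + T + T + T, e2) q0' η hq0' ηB (b.1 + T + T + T + T, y) m (v - y) le_rfl le_rfl hmθ (by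
        have hnr : (n : ℝ) = 4 * T + m := by
          have : n = 4 * T + m := by omega
          exact_mod_cast this
        have e : ((v - y : ℤ) : ℝ) - sl μ s * m = ((v : ℝ) - b.2 - sl μ s * n) - ((y : ℝ) - e2) - ((e2 : ℝ) - b.2 - sl μ s * (4 * T)) := by
          rw [hnr]
          push_cast
          ring
        rw [e]
        refine (abs_sub _ _).trans ?_
        have := abs_sub ((v : ℝ) - b.2 - sl μ s * n) ((y : ℝ) - e2)
        nlinarith)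
      refine le_trans (Real.exp_le_exp.2 ?_) g1
      rw [hlat (b.1 + T + T + T + T, e2) (b.1 + T + T + T + T) y rfl]
      have g2 : |(y : ℝ) - ((b.1 + T + T + T + T, e2) : Pt).2| / wd μ s n ≤ K + 2 := by
        rw [div_le_iff₀ (by linarith)]
        show |(y : ℝ) - e2| ≤ (K + 2) * wd μ s n
        nlinarith
      have g3 := hfq3 _ (by positivity) g2
      linarith
  have hcard : (14 : ℝ) * n ≤ Real.exp (EE μ s n) := by
    have hnR : (1 : ℝ) ≤ n := by exact_mod_cast hn1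
    have g1 := hnl n (by omega)
    have g2 := hne n (by omega)
    have g3 : Real.log (14 * n) ≤ EE μ s n := by
      rw [Real.log_mul (by norm_num) (by positivity)]
      linarith
    have g4 := Real.exp_le_exp.2 g3
    rwa [Real.exp_log (by positivity)] at g4
  have hdet := pin_det HP hnT hn1 hw hκ hq00 hqq hℓ0 hρ0 (hρw.trans hwTT) hρn hK hKD hG (Real.exp_pos _).le ca1 ca2 ce2 hD₀ hnum
    (by
      rw [← hF]
      have g1 := mul_le_mul_of_nonneg_left hCT.e2 (show 0 ≤ 4 * q * F + (G + |L| + 5) by positivity)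
      linarith)
    (by
      have g1 := mul_le_mul_of_nonneg_left hCT.a1 (show 0 ≤ D + D₀ + 1 by positivity)
      linarith)
    (by
      have g1 := mul_le_mul_of_nonneg_left hCT.e2 (show 0 ≤ |L| + 3 * ℓ by positivity)
      linarith) hcard (htol n (by omega) T hT16 (EE μ s n) (hEp n hn1))
  have hε0 : 0 ≤ Real.exp (-(T : ℝ) ^ c₁) := (Real.exp_pos _).le
  refine ⟨⟨_, _, _, _, ?_, ?_, ?_, hε0, ?_, HP⟩, hdet.1, ?_, hdet.2⟩
  · have g1 := mul_le_mul_of_nonneg_left hCT.a1 (show 0 ≤ D + 1 by positivity)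
    have g2 : 0 ≤ D₀ * wd μ s T := by positivity
    linarith
  · have g1 := mul_le_mul_of_nonneg_left hCT.e2 (show 0 ≤ |L| + 3 * ℓ by positivity)
    linarith
  · have g1 := mul_le_mul_of_nonneg_left hCT.e2 (show 0 ≤ G + |L| + 5 by positivity)
    have g2 : 0 ≤ 4 * q * F * EE μ s T := by positivity
    linarith
  · have g1 := htol n (by omega) T hT16 (EE μ s n) (hEp n hn1)
    have g2 : 1 ≤ (1 + Real.exp (-EE μ s n)) ^ 2 := one_le_pow₀ (by linarith [Real.exp_pos (-EE μ s n)])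
    nlinarith
  have g1 := henv n (by omega) b T m hnT η (EVR24_mono h le_rfl hqq n P _ _ _ U0) U1 (EVR24_mono h le_rfl hqq n P _ _ _ U2) U3
    (EVR24_mono h le_rfl hqq n P _ _ _ U4)
  have e9 : c / 64 / 16 = c / 1024 := by ring
  rwa [e9] at g1

end

end Pool.Agent.W_7d29a1_C1.P24
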