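import Pool.Agent.W_7d29a1_C1.ExB24
import Pool.Agent.W_7d29a1_C1.PinE24

/-!
MP_7d29a1_pr, [C1] THE EXIT BLOCK (helper24): probability. `exit24`: for every base `b`, all lengths `T = Q t`, `n = T + (T + (T + m))`,
`T ≤ m`, `n ≤ 16 T`: an event of the rows `b.1 .. b.1 + n` of probability at least `p` on which the block has the properties `XO24`.
Order of the constants: slope `β`, upper bound `ρ₀` of the cells | `P`, `d`, level `U`, envelope `q` | walls `G`, window `K` | `p`, `Q`,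
`n₁`.
-/

set_option autoImplicit false

namespace Pool.Agent.W_7d29a1_C1.P24

open MeasureTheory ProbabilityTheory Filter Topology Finset
open Pool.Agent.W_7d29a1_F Pool.Agent.W_7d29a1_h4g Pool.Agent.W_7d29a1_H Pool.Agent.W_7d29a1_HS
open Pool.Agent.W_7d29a1_C1
open Pool.Agent.W_7d29a1_C1.CR76 Pool.Agent.W_7d29a1_C1.Basin76
open Pool.Agent.W_7d29a1_C1.R26 (RK26 RK26_dep measurableSet_RK26 rank_one26)
open Pool.Agent.W_7d29a1_C1.H75 (hc)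
open Pool.Agent.W_7d29a1_C1.U16 (fq16 fq16_one fq16_mono lat16 Far16 far_low far_prob Far16_meas Far16_rows)

noncomputable section

variable {μ : Measure ℝ} {s c C : ℝ} {n₀ : ℕ}

/-- The envelope of four slabs. -/
theorem env_four [IsProbabilityMeasure μ] (h : In μ s c C n₀) (P : ℕ) {q κ : ℝ} (hq : 0 ≤ q) (hκ : 0 < κ) : ∃ q' : ℝ, q ≤ q' ∧ ∃ n₁ : ℕ,
    ∀ n : ℕ, n₁ ≤ n → ∀ (b : Pt) (T m : ℕ), n = T + (T + (T + m)) → ∀ η : Env,
      η ∈ EVR24 μ s κ n P b.1 (b.1 + T) b q → η ∈ EVR24 μ s κ n P (b.1 + T) (b.1 + T + T) b q →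
      η ∈ EVR24 μ s κ n P (b.1 + T + T) (b.1 + T + T + T) b q → η ∈ EVR24 μ s κ n P (b.1 + T + T + T) (b.1 + T + T + T + m) b q →
      η ∈ EVR24 μ s (κ / 8) n P b.1 (b.1 + n) b q' := by
  obtain ⟨q1, h1, n1, H1⟩ := EVR_comp h P hq hκ
  obtain ⟨q2, h2, n2, H2⟩ := EVR_comp h P (hq.trans h1) (show 0 < κ / 2 by positivity)
  obtain ⟨q3, h3, n3, H3⟩ := EVR_comp h P (hq.trans (h1.trans h2)) (show 0 < κ / 2 / 2 by positivity)
  refine ⟨q3, h1.trans (h2.trans h3), max (max n1 n2) n3, fun n hn b T m hnT η a0 a1 a2 a3 => ?_⟩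
  have k1 : n1 ≤ n := ((le_max_left _ _).trans (le_max_left _ _)).trans hn
  have k2 : n2 ≤ n := ((le_max_right _ _).trans (le_max_left _ _)).trans hn
  have k3 : n3 ≤ n := (le_max_right _ _).trans hn
  have hnZ : (n : ℤ) = T + (T + (T + m)) := by exact_mod_cast hnT
  have b1 := H1 n k1 b.1 (b.1 + T) (b.1 + T + T) b (by omega) (by omega) (by omega) ⟨a0, a1⟩
  have c2 := EVR24_mono h (show κ / 2 ≤ κ by linarith) h1 n P (b.1 + T + T) (b.1 + T + T + T) b a2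
  have b2 := H2 n k2 b.1 (b.1 + T + T) (b.1 + T + T + T) b (by omega) (by omega) (by omega) ⟨b1, c2⟩
  have c3 := EVR24_mono h (show κ / 2 / 2 ≤ κ by linarith) (h1.trans h2) n P (b.1 + T + T + T) (b.1 + T + T + T + m) b a3
  have b3 := H3 n k3 b.1 (b.1 + T + T + T) (b.1 + T + T + T + m) b (by omega) (by omega) (by omega) ⟨b2, c3⟩
  have e1 : κ / 2 / 2 / 2 = κ / 8 := by ring
  have e2 : b.1 + T + T + T + m = b.1 + n := by omega
  rw [e1, e2] at b3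
  exact b3

/-- **THE EXIT BLOCK.** -/
theorem exit24 [IsProbabilityMeasure μ] (h : In μ s c C n₀) : ∃ c' : ℝ, 0 < c' ∧ ∀ β ρ₀ : ℝ, 0 < β → 0 < ρ₀ →
    ∃ (P : ℕ) (d U q : ℝ), 0 < d ∧ d ≤ ρ₀ ∧ d ≤ 1 ∧ 0 ≤ U ∧ 0 ≤ q ∧ ∀ G K : ℝ, 0 ≤ G → 0 ≤ K →
    ∃ (p : ℝ) (Q n₁ : ℕ), 0 < p ∧ 1 ≤ Q ∧ 1 ≤ n₁ ∧ ∀ t : ℕ, n₁ ≤ t → ∀ T m n : ℕ, T = Q * t → T ≤ m → n = T + (T + (T + m)) →
    n ≤ 16 * T → ∀ b : Pt, ∃ Λ : Set Env, MeasurableSet Λ ∧ On20 (rows b.1 (b.1 + n)) Λ ∧ p ≤ (law μ).real Λ ∧ ∀ η ∈ Λ,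
      XO24 μ s η b n T (T + (T + m)) (pt24 μ s b T) (d * wd μ s T) U β (c / 2048) G K (Real.exp (-(n : ℝ) ^ c')) ∧
      η ∈ EVR24 μ s (c / 512) n P b.1 (b.1 + n) b q := by
  obtain ⟨d₁, c₁, hd₁, hc₁, nR, hR⟩ := rank_one26 h (e := 1 / 4) (K := 2) (by norm_num) (by norm_num)
  obtain ⟨b₀, κ₀, hb₀, hκ₀, hEp⟩ := EE_pow h
  obtain ⟨c', hc', nT, htol⟩ := tol24 hb₀ hκ₀ hc₁
  obtain ⟨P1, hslab⟩ := slabP24 h
  obtain ⟨P0, A, a₀, g, hA, ha₀, hg, hg1, nF, hnF, hfar⟩ := far_prob h (K := 12) (θ := 1 / 16) (by norm_num) (by norm_num) (by norm_num)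
  obtain ⟨q0', hq0', hq0p⟩ := level24 hA ha₀ hg (show (0 : ℝ) < 1 / 4 by norm_num)
  have h0 := h.c0
  refine ⟨c', hc', fun β₀ ρ₀ hβ₀ hρ₀ => ?_⟩
  obtain ⟨β, hβdef⟩ : ∃ β : ℝ, β = min (β₀ / 2) (c / 2048) := ⟨_, rfl⟩
  have hβ : 0 < β := by rw [hβdef]; exact lt_min (by positivity) (by positivity)
  have hβ1 : 2 * β ≤ β₀ := by
    have : β ≤ β₀ / 2 := by rw [hβdef]; exact min_le_left _ _
    linarith
  have hβ2 : β ≤ c / 512 / 4 := by
    have : β ≤ c / 2048 := by rw [hβdef]; exact min_le_right _ _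
    linarith
  obtain ⟨d, hd⟩ : ∃ d : ℝ, d = min (d₁ / 2) (min ρ₀ 1) := ⟨_, rfl⟩
  have hd0 : 0 < d := by rw [hd]; exact lt_min (by positivity) (lt_min hρ₀ one_pos)
  have hd1 : d ≤ 1 := by rw [hd]; exact (min_le_right _ _).trans (min_le_right _ _)
  have hdρ : d ≤ ρ₀ := by rw [hd]; exact (min_le_right _ _).trans (min_le_left _ _)
  have hdd : 2 * d ≤ d₁ := by
    have : d ≤ d₁ / 2 := by rw [hd]; exact min_le_left _ _
    linarith
  have hκ : 0 < c / 64 := by positivity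
  obtain ⟨P, hP⟩ : ∃ P : ℕ, P = max P0 P1 := ⟨_, rfl⟩
  have hP0 : P0 ≤ P := by rw [hP]; exact le_max_left _ _
  have hP1 : P1 ≤ P := by rw [hP]; exact le_max_right _ _
  have hlog : 0 ≤ Real.log 64 := Real.log_nonneg (by norm_num)
  obtain ⟨ℓ, hℓ⟩ : ∃ ℓ : ℝ, ℓ = q0' * fq16 P0 4 := ⟨_, rfl⟩
  have hfK := fq16_one P0 4
  have hℓ0 : 0 ≤ ℓ := by rw [hℓ]; positivity
  obtain ⟨nL, hlow⟩ := far_low h (K := 12) (θ := 1 / 16) (by norm_num) (by norm_num)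
  obtain ⟨q1', hq1', hsl⟩ := hslab 1 (8 * d) 0 1 zero_le_one (by positivity)
  obtain ⟨q, hq⟩ : ∃ q : ℝ, q = max (q0' * (1 + Real.log 64) ^ P0) (q1' * (1 + Real.log 64) ^ P1) := ⟨_, rfl⟩
  have hqq : q0' * (1 + Real.log 64) ^ P0 ≤ q := by rw [hq]; exact le_max_left _ _
  have hqq1 : q1' * (1 + Real.log 64) ^ P1 ≤ q := by rw [hq]; exact le_max_right _ _
  have hq00 : 0 ≤ q0' * (1 + Real.log 64) ^ P0 := by positivity
  have hqn : 0 ≤ q := hq00.trans hqq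
  obtain ⟨q', hqq', nE, henv⟩ := env_four h P hqn hκ
  have hq'0 : 0 ≤ q' := hqn.trans hqq'
  obtain ⟨Ub, hUb0, hUb⟩ := slope24 P hq'0 hβ
  refine ⟨P, d, Ub + 2 * ℓ, q', hd0, hdρ, hd1, by positivity, hq'0, fun G K hG hK => ?_⟩
  -- the window at the end
  obtain ⟨PK, AK, aK, gK, hAK, haK, hgK, hgK1, nFK, hnFK, hfarK⟩ := far_prob h (K := K + 12) (θ := 1 / 16) (by linarith) (by norm_num)
    (by norm_num)
  obtain ⟨qK, hqK, hqKp⟩ := level24 hAK haK hgK (show (0 : ℝ) < 1 / 4 by norm_num)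
  obtain ⟨ℓK, hℓK⟩ : ∃ ℓK : ℝ, ℓK = qK * fq16 PK 4 := ⟨_, rfl⟩
  have hfKK := fq16_one PK 4
  have hℓK0 : 0 ≤ ℓK := by rw [hℓK]; positivity
  obtain ⟨nLK, hlowK⟩ := far_low h (K := K + 12) (θ := 1 / 16) (by linarith) (by norm_num)
  obtain ⟨G', hG'⟩ : ∃ G' : ℝ, G' = G + 2 * Ub + 9 * β + ℓ + ℓK + 3 := ⟨_, rfl⟩
  have hG'0 : 0 ≤ G' := by rw [hG']; positivity
  obtain ⟨D, hD0, hnum⟩ := num24 P (q := q') (κ := β) (K := 0) (G := G') hq'0 hβ le_rfl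
  have hD : ∀ V : ℝ, D ≤ V → q' * fq16 P (V + 1) + G' ≤ β * V := fun V hV => by
    have := hnum V hV
    rwa [zero_add] at this
  obtain ⟨F, hF⟩ : ∃ F : ℝ, F = fq16 P (D + 1) := ⟨_, rfl⟩
  have hF1 : 1 ≤ F := by rw [hF]; exact fq16_one P _
  obtain ⟨p₁, Q, n₁, hp₁, hQ, hn₁, hsl2⟩ := hsl (32 * (D + 1)) (32 * (2 * G' + q' * F)) (by linarith) (by positivity)
  -- thresholds at the scale T
  obtain ⟨nw, hnw⟩ := eventually_atTop.1 ((wd_tendsto h).eventually_ge_atTop 2)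
  obtain ⟨nv, hnv⟩ := eventually_atTop.1 (h.tv.eventually_le_const (show (0 : ℝ) < 1 by norm_num))
  obtain ⟨nl, hnl⟩ := lgo h (δ := 1 / 2) (by norm_num)
  obtain ⟨ne, hne⟩ := eventually_atTop.1 (h.tE.eventually_ge_atTop (2 * Real.log 14))
  refine ⟨p₁ * (1 / 2 * (p₁ * (1 / 2))), Q, n₁ + (nR + nw + nv + nT + nF + nFK + nL + nLK + nE + nl + ne) + 1, by positivity, hQ,
    by omega, fun t ht T m n hT hTm hnT hT16 b => ?_⟩
  have htT : t ≤ T := by rw [hT]; exact Nat.le_mul_of_pos_left t (by omega)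
  have hn1 : 1 ≤ n := by omega
  have hT1 : 1 ≤ T := by omega
  have hTn : T ≤ n := by omega
  have hwT2 : 2 ≤ wd μ s T := hnw T (by omega)
  have hwT : 1 ≤ wd μ s T := by linarith
  have hw2 : 2 ≤ wd μ s n := hnw n (by omega)
  have hw : 1 ≤ wd μ s n := by linarith
  have hCT := cmp24 h hT1 hTn hT16 hwT
  have hCn : Cmp24 μ s n n := ⟨hn1, le_rfl, hw, le_rfl, by linarith [EE_pos (μ := μ) (s := s) n], by linarith, by linarith⟩
  have hwTT : wd μ s T ≤ T := by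
    have h1 := hnv T (by omega)
    have h2 : (0 : ℝ) ≤ T := Nat.cast_nonneg T
    have e1 : wd μ s T = T * vA 1 μ s T := rfl
    rw [e1]
    nlinarith
  have hET := EE_pos (μ := μ) (s := s) T
  have hEn := EE_pos (μ := μ) (s := s) n
  obtain ⟨ρ, hρ⟩ : ∃ ρ : ℝ, ρ = d * wd μ s T := ⟨_, rfl⟩
  have hρ0 : 0 ≤ ρ := by rw [hρ]; positivity
  have hρw : ρ ≤ wd μ s T := by rw [hρ]; nlinarith
  have hρn : ρ ≤ 2 * wd μ s n := hρw.trans hCT.a2
  -- the standard points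
  obtain ⟨e1, he1⟩ : ∃ a : ℤ, a = pt24 μ s b T := ⟨_, rfl⟩
  obtain ⟨a2, ha2⟩ : ∃ a : ℤ, a = pt24 μ s b (2 * T) := ⟨_, rfl⟩
  obtain ⟨e2, he2⟩ : ∃ a : ℤ, a = pt24 μ s b (3 * T) := ⟨_, rfl⟩
  have ce1 : |(e1 : ℝ) - b.2 - sl μ s * T| ≤ 1 := by rw [he1]; exact pt24_near b T
  have ca2 : |(a2 : ℝ) - b.2 - sl μ s * (2 * T)| ≤ 1 := by
    have := pt24_near (μ := μ) (s := s) b (2 * T)
    rw [← ha2] at this
    push_cast at this
    exact this
  have ce2 : |(e2 : ℝ) - b.2 - sl μ s * (3 * T)| ≤ 1 := by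
    have := pt24_near (μ := μ) (s := s) b (3 * T)
    rw [← he2] at this
    push_cast at this
    exact this
  rw [← he1, ← hρ]
  have d0 : |((e1 - b.2 : ℤ) : ℝ) - sl μ s * T| ≤ 2 := by
    rw [abs_le] at ce1 ⊢
    push_cast
    constructor <;> linarith
  have d1 : |((a2 - e1 : ℤ) : ℝ) - sl μ s * T| ≤ 2 := by
    rw [abs_le] at ce1 ca2 ⊢
    push_cast
    constructor <;> linarith
  have d2 : |((e2 - a2 : ℤ) : ℝ) - sl μ s * T| ≤ 2 := by
    rw [abs_le] at ca2 ce2 ⊢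
    push_cast
    constructor <;> linarith
  -- the four events
  obtain ⟨SL, hSL⟩ : ∃ SL : ℤ → Set Env, SL = fun z => SLAB20 μ s (fun _ : Unit => 0) (fun _ : Unit => z) T
      (32 * (D + 1) * wd μ s T) (8 * d / 8 * wd μ s T) (0 * EE μ s T)
      (32 * (2 * G' + q' * F) * EE μ s T) ((q1' * fq16 P1 (32 * (D + 1) + 1) + 1) * EE μ s T) ∩
      FU24 μ s c T T P1 0 q1' := ⟨_, rfl⟩
  have hSLp : ∀ z : ℤ, |(z : ℝ) - sl μ s * T| ≤ 2 → p₁ ≤ (law μ).real (SL z) := by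
    intro z hz
    have h1 := hsl2 t (by omega) Unit (by simp) (fun _ => 0) (fun _ => z) (fun _ => by
      rw [Int.cast_zero, abs_zero, ← hT]
      linarith) (fun _ => by
      rw [← hT]
      linarith) (fun j j' hj => absurd (Subsingleton.elim j j') hj)
    rw [← hT] at h1
    rw [hSL]
    exact h1
  have hSLm : ∀ z : ℤ, MeasurableSet (SL z) := fun z => by
    rw [hSL]
    exact (meas_SLAB20 _ _ _ _ _ _ _ _).inter (meas_FU24 _ _ _ _ _)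
  have hSLo : ∀ z : ℤ, On20 (rows 0 (0 + T)) (SL z) := fun z => by
    rw [hSL]
    exact (on_SLAB20 _ _ _ _ _ _ _ _).inter (on_FU24 T T P1 0 q1')
  have hSLa : ∀ (r a z : ℤ), |(z : ℝ) - sl μ s * T| ≤ 2 → MeasurableSet (at20 (r, a) (SL z)) ∧
      On20 (rows r (r + T)) (at20 (r, a) (SL z)) ∧ p₁ ≤ (law μ).real (at20 (r, a) (SL z)) := by
    intro r a z hz
    refine ⟨meas_at20 _ (hSLm z), on_at20' (r, a) (hSLo z), ?_⟩
    rw [real_at20 (μ := μ) (r, a) (hSLm z)]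
    exact hSLp z hz
  have hFp : ∀ (N : ℕ) (b' : Pt), N ≤ n → MeasurableSet (Far16 μ s c (1 / 16) 12 n N P0 b' q0') ∧
      On20 (rows b'.1 (b'.1 + N)) (Far16 μ s c (1 / 16) 12 n N P0 b' q0') ∧
      (law μ).real (Far16 μ s c (1 / 16) 12 n N P0 b' q0')ᶜ ≤ 1 / 4 := by
    intro N b' hN
    exact ⟨Far16_meas _ _ _ _ _ _ _, fun η η' hh => Far16_rows hh, (hfar n (by omega) N hN b' q0' hq0').trans hq0p⟩
  obtain ⟨EM1, hEM1⟩ : ∃ E : Set Env, E = RK26 μ s (b.1 + T) T (e1 - ⌊ρ⌋) (e1 + ⌊ρ⌋) (a2 - ⌊ρ⌋) (a2 + ⌊ρ⌋)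
      (Real.exp (-(T : ℝ) ^ c₁)) := ⟨_, rfl⟩
  obtain ⟨EM2, hEM2⟩ : ∃ E : Set Env, E = Far16 μ s c (1 / 16) 12 n T P0 (b.1 + T, e1) q0' := ⟨_, rfl⟩
  obtain ⟨EB1, hEB1⟩ : ∃ E : Set Env, E = Far16 μ s c (1 / 16) 12 n m P0 (b.1 + T + T + T, e2) q0' := ⟨_, rfl⟩
  obtain ⟨EB2, hEB2⟩ : ∃ E : Set Env, E = Far16 μ s c (1 / 16) (K + 12) n m PK (b.1 + T + T + T, e2) qK := ⟨_, rfl⟩
  have hfl0 : (0 : ℤ) ≤ ⌊ρ⌋ := Int.floor_nonneg.2 hρ0
  have hflρ : (⌊ρ⌋ : ℝ) ≤ ρ := Int.floor_le ρ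
  have hcell : ∀ a : ℤ, (((a + ⌊ρ⌋) - (a - ⌊ρ⌋) : ℤ) : ℝ) ≤ d₁ * wd μ s T := by
    intro a
    push_cast
    have : 2 * ρ ≤ d₁ * wd μ s T := by
      rw [hρ]
      nlinarith
    linarith
  obtain ⟨r1, r2, r3⟩ := hR T (by omega) (b.1 + T) (e1 - ⌊ρ⌋) (e1 + ⌊ρ⌋) (a2 - ⌊ρ⌋) (a2 + ⌊ρ⌋) (by omega) (by omega)
    (hcell e1) (hcell a2) (by
      have e : (a2 - ⌊ρ⌋) - (e1 - ⌊ρ⌋) = a2 - e1 := by ring
      rw [e]
      refine d1.trans ?_
      linarith)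
  obtain ⟨fM1, fM2, fM3⟩ := hFp T (b.1 + T, e1) hTn
  rw [← hEM2] at fM1 fM2 fM3
  obtain ⟨fB1, fB2, fB3⟩ := hFp m (b.1 + T + T + T, e2) (by omega)
  rw [← hEB1] at fB1 fB2 fB3
  have fK1 : MeasurableSet EB2 := by rw [hEB2]; exact Far16_meas _ _ _ _ _ _ _
  have fK2 : On20 (rows (b.1 + T + T + T) (b.1 + T + T + T + m)) EB2 := by
    rw [hEB2]
    exact fun η η' hh => Far16_rows hh
  have fK3 : (law μ).real EB2ᶜ ≤ 1 / 4 := by
    rw [hEB2]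
    exact (hfarK n (by omega) m (by omega) (b.1 + T + T + T, e2) qK hqK).trans hqKp
  have mM1 : MeasurableSet EM1 := by rw [hEM1]; exact measurableSet_RK26 _ _ _ _ _ _ _
  have g4 : (law μ).real EM1ᶜ ≤ 1 / 4 := by
    rw [hEM1]
    exact ENNReal.toReal_le_of_le_ofReal (by norm_num) r3
  have two : ∀ {E F : Set Env}, MeasurableSet E → MeasurableSet F → (law μ).real Eᶜ ≤ 1 / 4 → (law μ).real Fᶜ ≤ 1 / 4 →
      1 / 2 ≤ (law μ).real (E ∩ F) := by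
    intro E F mE mF pE pF
    have g5 : (law μ).real (E ∩ F)ᶜ ≤ 1 / 2 := by
      rw [Set.compl_inter]
      refine (measureReal_union_le _ _).trans ?_
      linarith
    have := real_of_compl24 (mE.inter mF) g5
    linarith
  have pM := two mM1 fM1 g4 fM3
  have pB := two fB1 fK1 fB3 fK3
  have oM : On20 (rows (b.1 + T) (b.1 + T + T)) (EM1 ∩ EM2) := by
    refine On20.inter ?_ fM2
    rw [hEM1]
    exact fun η η' hh => RK26_dep (fun p h1 h2 => hh p ⟨h1, h2⟩) _ _ _ _ _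
  have oB : On20 (rows (b.1 + T + T + T) (b.1 + T + T + T + m)) (EB1 ∩ EB2) := fB2.inter fK2
  have mM : MeasurableSet (EM1 ∩ EM2) := mM1.inter fM1
  have mB : MeasurableSet (EB1 ∩ EB2) := fB1.inter fK1
  obtain ⟨s0m, s0o, s0p⟩ := hSLa b.1 b.2 (e1 - b.2) d0
  obtain ⟨s2m, s2o, s2p⟩ := hSLa (b.1 + T + T) a2 (e2 - a2) d2
  obtain ⟨w1o, w1m, w1p⟩ := indep24 (μ := μ) (by omega) (by omega) s2o oB s2m mB hp₁.le (by norm_num) s2p pB
  obtain ⟨w2o, w2m, w2p⟩ := indep24 (μ := μ) (by omega) (by omega) oM w1o mM w1m (by norm_num) (by positivity) pM w1p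
  obtain ⟨w3o, w3m, w3p⟩ := indep24 (μ := μ) (by omega) (by omega) s0o w2o s0m w2m hp₁.le (by positivity) s0p w2p
  have hend : b.1 + T + T + T + m = b.1 + n := by omega
  rw [hend] at w3o
  refine ⟨at20 (b.1, b.2) (SL (e1 - b.2)) ∩ ((EM1 ∩ EM2) ∩ (at20 (b.1 + T + T, a2) (SL (e2 - a2)) ∩ (EB1 ∩ EB2))), w3m, w3o, w3p,
    fun η hη => ?_⟩
  obtain ⟨η0, ⟨ηM1, ηM2⟩, η2, ηB1, ηB2⟩ := hη
  rw [hSL] at η0 η2
  rw [hEM1] at ηM1
  rw [hEM2] at ηM2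
  rw [hEB1] at ηB1
  rw [hEB2] at ηB2
  -- envelopes
  have hlat : ∀ (b' : Pt) (r : ℤ) (y : ℤ), b'.1 = r → lat16 μ s b' (r, y) = (y : ℝ) - b'.2 := by
    intro b' r y hr
    unfold lat16
    rw [hr]
    push_cast
    ring
  have typ : ∀ (N : ℕ) (b' : Pt), |lat16 μ s b b'| ≤ wd μ s n → η ∈ Far16 μ s c (1 / 16) 12 n N P0 b' q0' →
      η ∈ EVR24 μ s (c / 64) n P b'.1 (b'.1 + N) b q := by
    intro N b' hb' hη
    have g1 := far_sub_FU24 (θ := 1 / 16) hq0' hw (by norm_num : (3 : ℝ) ≤ 12) hη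
    have g2 := EVR_of_FU h hCn hb' hq0' g1
    exact EVR24_mono h le_rfl hqq n P _ _ _ (EVR24_P hq00 hP0 _ _ _ g2)
  have luc : ∀ r a : ℤ, |lat16 μ s b (r, a)| ≤ wd μ s n → η ∈ at20 (r, a) (FU24 μ s c T T P1 0 q1') →
      η ∈ EVR24 μ s (c / 64) n P r (r + T) b q := by
    intro r a hb' hη
    have g0 : η ∈ FU24 μ s c T T P1 (r, a) q1' := by
      have := (FU24_sh (μ := μ) (s := s) (c := c) T T P1 0 (r, a) q1' η).1 hη
      rwa [zero_add] at this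
    have g2 := EVR_of_FU h hCT hb' hq1' g0
    have g3 := EVR24_P (by positivity : (0 : ℝ) ≤ q1' * (1 + Real.log 64) ^ P1) hP1 _ _ _ g2
    exact EVR24_mono h le_rfl hqq1 n P _ _ _ g3
  have lb : ∀ (r : ℤ) (a : ℤ) (t : ℕ), r = b.1 + t → |(a : ℝ) - b.2 - sl μ s * t| ≤ 1 → |lat16 μ s b (r, a)| ≤ wd μ s n := by
    intro r a t hr ha
    have e : lat16 μ s b (r, a) = (a : ℝ) - b.2 - sl μ s * t := by
      unfold lat16
      rw [hr]
      push_cast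
      ring
    rw [e]
    linarith
  have U0 := luc b.1 b.2 (by unfold lat16; simp only [sub_self, Int.cast_zero, mul_zero, abs_zero]; linarith) η0.2
  have U1 := typ T (b.1 + T, e1) (lb _ _ T rfl ce1) ηM2
  have U2 := luc (b.1 + T + T) a2 (lb _ _ (2 * T) (by push_cast; ring) (by push_cast; exact ca2)) η2.2
  have U3 := typ m (b.1 + T + T + T, e2) (lb _ _ (3 * T) (by push_cast; ring) (by push_cast; exact ce2)) ηB1
  have hEnv := henv n (by omega) b T m hnT η U0 U1 U2 U3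
  have e9 : c / 64 / 8 = c / 512 := by ring
  rw [e9] at hEnv
  -- lanes
  have e8 : 8 * d / 8 * wd μ s T = ρ := by rw [hρ]; ring
  have l0 := lane_of_slab (μ := μ) (s := s) (r := b.1) (a := b.2) (e := e1) η0.1
  have l2 := lane_of_slab (μ := μ) (s := s) (r := b.1 + T + T) (a := a2) (e := e2) η2.1
  rw [e8, zero_mul] at l0 l2
  -- lower bounds
  have hfq : ∀ (P' : ℕ) (q' x : ℝ), 0 ≤ q' → 0 ≤ x → x ≤ 3 → q' * fq16 P' (x + 1) * EE μ s n ≤ q' * fq16 P' 4 * EE μ s n := by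
    intro P' q' x hq' hx0 hx
    refine mul_le_mul_of_nonneg_right (mul_le_mul_of_nonneg_left ?_ hq') hEn.le
    exact fq_mono' (by linarith) (by linarith)
  have hTθ : (1 / 16 : ℝ) * n ≤ T := by
    have : (n : ℝ) ≤ 16 * T := by exact_mod_cast hT16
    linarith
  have hmθ : (1 / 16 : ℝ) * n ≤ m := by
    have h1 : (T : ℝ) ≤ m := by exact_mod_cast hTm
    linarith
  have hnr : (n : ℝ) = 3 * T + m := by
    have : n = 3 * T + m := by omega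
    exact_mod_cast this
  have HX : XF24 μ s η b n T m P e1 a2 e2 (c / 512) q' ρ ℓ ℓK K (32 * (D + 1) * wd μ s T) (32 * (2 * G' + q' * F) * EE μ s T)
      (Real.exp (-(T : ℝ) ^ c₁)) := by
    refine ⟨hEnv, l0, l2, ?_, ?_, ?_, rank_cells (Real.exp_pos _).le r1 r2 ηM1⟩
    · intro y hy
      have h1 := mem_Ce24.1 hy
      have g1 := hlow n (by omega) T P0 (b.1 + T, e1) q0' η hq0' ηM2 (b.1 + T, y) T (a2 - y) le_rfl le_rfl hTθ (by
        have e : ((a2 - y : ℤ) : ℝ) - sl μ s * T = (((a2 - e1 : ℤ) : ℝ) - sl μ s * T) - ((y : ℝ) - e1) := by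
          push_cast
          ring
        rw [e]
        refine (abs_sub _ _).trans ?_
        linarith)
      refine le_trans (Real.exp_le_exp.2 ?_) g1
      rw [hlat (b.1 + T, e1) (b.1 + T) y rfl]
      have g2 : |(y : ℝ) - ((b.1 + T, e1) : Pt).2| / wd μ s n ≤ 3 := by
        rw [div_le_iff₀ (by linarith)]
        show |(y : ℝ) - e1| ≤ 3 * wd μ s n
        linarith
      have g3 := hfq P0 q0' _ hq0' (by positivity) g2
      rw [hℓ]
      linarith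
    · intro z hz
      have g1 := hlow n (by omega) m P0 (b.1 + T + T + T, e2) q0' η hq0' ηB1 (b.1 + T + T + T, e2) m (z - e2) le_rfl le_rfl hmθ (by
        have e : ((z - e2 : ℤ) : ℝ) - sl μ s * m = ((z : ℝ) - (b.2 + sl μ s * n)) - ((e2 : ℝ) - b.2 - sl μ s * (3 * T)) := by
          rw [hnr]
          push_cast
          ring
        rw [e]
        refine (abs_sub _ _).trans ?_
        linarith)
      refine le_trans (Real.exp_le_exp.2 ?_) g1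
      rw [hlat (b.1 + T + T + T, e2) (b.1 + T + T + T) e2 rfl]
      have g2 : |(e2 : ℝ) - ((b.1 + T + T + T, e2) : Pt).2| / wd μ s n ≤ 3 := by
        show |(e2 : ℝ) - (e2 : ℝ)| / wd μ s n ≤ 3
        rw [sub_self, abs_zero, zero_div]
        norm_num
      have g3 := hfq P0 q0' _ hq0' (by positivity) g2
      rw [hℓ]
      linarith
    · intro z hz
      have g1 := hlowK n (by omega) m PK (b.1 + T + T + T, e2) qK η hqK ηB2 (b.1 + T + T + T, e2) m (z - e2) le_rfl le_rfl hmθ (by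
        have e : ((z - e2 : ℤ) : ℝ) - sl μ s * m = ((z : ℝ) - (b.2 + sl μ s * n)) - ((e2 : ℝ) - b.2 - sl μ s * (3 * T)) := by
          rw [hnr]
          push_cast
          ring
        rw [e]
        refine (abs_sub _ _).trans ?_
        linarith)
      refine le_trans (Real.exp_le_exp.2 ?_) g1
      rw [hlat (b.1 + T + T + T, e2) (b.1 + T + T + T) e2 rfl]
      have g2 : |(e2 : ℝ) - ((b.1 + T + T + T, e2) : Pt).2| / wd μ s n ≤ 3 := by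
        show |(e2 : ℝ) - (e2 : ℝ)| / wd μ s n ≤ 3
        rw [sub_self, abs_zero, zero_div]
        norm_num
      have g3 := hfq PK qK _ hqK (by positivity) g2
      rw [hℓK]
      linarith
  have hcard : (14 : ℝ) * n ≤ Real.exp (EE μ s n) := by
    have hnR : (1 : ℝ) ≤ n := by exact_mod_cast hn1
    have g1 := hnl n (by omega)
    have g2 := hne n (by omega)
    have g3 : Real.log (14 * n) ≤ EE μ s n := by
      rw [Real.log_mul (by norm_num) (by positivity)]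
      linarith
    have g4 := Real.exp_le_exp.2 g3
    rwa [Real.exp_log (by positivity)] at g4
  have HO := x_det24 (ε' := Real.exp (-(n : ℝ) ^ c')) (G := G) HX hnT hn1 hw (by positivity) hq'0 hℓ0 hℓK0 hρ0 (hρw.trans hwTT) hρn
    (Real.exp_pos _).le hβ hβ2 hUb0 hUb (le_of_eq hG'.symm) hG (by rw [← sub_sub]; exact ce1) (by rw [← sub_sub]; exact ca2) hD
    (by
      rw [← hF]
      have g1 := mul_le_mul_of_nonneg_left hCT.e2 (show 0 ≤ 2 * G' + q' * F by positivity)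
      linarith)
    (by
      have g1 := mul_le_mul_of_nonneg_left hCT.a1 (show 0 ≤ D + 1 by positivity)
      linarith) hcard (htol n (by omega) T hT16 (EE μ s n) (hEp n hn1))
  have e10 : c / 512 / 4 = c / 2048 := by ring
  rw [e10] at HO
  have hw0 : 0 < wd μ s n := by linarith
  exact ⟨⟨HO.upF.mono hw0 hEn.le le_rfl hβ1 le_rfl, HO.upR.mono hw0 hEn.le le_rfl hβ1 le_rfl, HO.upA.mono hw0 hEn.le le_rfl hβ1 le_rfl,
    HO.loF, HO.loR, HO.loA, HO.offF.mono hw0 hEn.le le_rfl hβ1 le_rfl, HO.offA.mono hw0 hEn.le le_rfl hβ1 le_rfl, HO.rk⟩, hEnv⟩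

end

end Pool.Agent.W_7d29a1_C1.P24
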