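import Pool.Agent.W_7d29a1_C1.SepDef53

/-!
Both halves (MP_7d29a1_pr), attractor route [C1], SEP (move the contact): QUENCHED SINGLE PATH MASSES FROM A SITE. (helper53)

`bW Γ ω k q`: the mass of the paths from the site `q` of the row `k`. `QA Γ ω e A k q`: those which are in `A` at the row `e`.
`VS Γ ω e St k q`: those which visit `St` at a row `≤ e`.
* `QA_stay`: to be in `A` at the row `e` one leaves `Z` at the row `b` or pays `σ` from there;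
* `QA_kill`: two environments which are equal off `B`: the routes which pass `B` are a part `s`;
* `VS_cmp`: visits of a strip, the environments are equal off `B`, `B` is well inside of the strip.
-/

set_option autoImplicit false

namespace Pool.Agent.W_7d29a1_C1.SD53

open Finset MeasureTheory
open Pool.Agent.W_7d29a1_F Pool.Agent.W_7d29a1_h4g Pool.Agent.W_7d29a1_H Pool.Agent.W_7d29a1_HS
open Pool.Agent.W_7d29a1_C1.K91 (Grp Box wt wt_pos)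
open Pool.Agent.W_7d29a1_C1.K91P
open Pool.Agent.W_7d29a1_C1.Sp22 (Ms Ps Zt)
open Pool.Agent.W_7d29a1_C1.H60
open Pool.Agent.W_7d29a1_C1.E53

noncomputable section

variable {Γ : Cx} {ω ω' : Env}

/-- The mass of the paths from a site (own weight included). -/
def bW (Γ : Cx) (ω : Env) (k : ℕ) (q : ℤ) : ℝ := bw (wt ω) Γ.p k (Γ.N - k) q

open Classical in
/-- The terminal weight. -/
def tf (Γ : Cx) (ω : Env) (e : ℕ) (A : Set ℤ) (y : ℤ) : ℝ := if y ∈ A then bW Γ ω e y else 0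

/-- **The mass of the paths from a site which are in `A` at the row `e`.** -/
def QA (Γ : Cx) (ω : Env) (e : ℕ) (A : Set ℤ) (k : ℕ) (q : ℤ) : ℝ := Sp22.bf (wt ω) Γ.p (tf Γ ω e A) k (e - k) q

theorem bW_pos (Γ : Cx) (ω : Env) (k : ℕ) (q : ℤ) : 0 < bW Γ ω k q := bw_pos (wt_pos ω) Γ.p_pos _ _ _

theorem bW_step {k : ℕ} (hk : k < Γ.N) (q : ℤ) :
    bW Γ ω k q = wt ω k q * (bW Γ ω (k + 1) q + Γ.p k * bW Γ ω (k + 1) (q + 1)) := by
  unfold bW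
  have e : Γ.N - k = Γ.N - (k + 1) + 1 := by omega
  rw [e, bw_succ]

theorem bW_congr {k : ℕ} (h : ∀ i, k ≤ i → ∀ y, wt ω' i y = wt ω i y) (q : ℤ) : bW Γ ω' k q = bW Γ ω k q :=
  bw_congr _ _ h q

theorem tf_nonneg (e : ℕ) (A : Set ℤ) (y : ℤ) : 0 ≤ tf Γ ω e A y := by
  unfold tf
  split_ifs
  · exact (bW_pos _ _ _ _).le
  · exact le_rfl

theorem tf_le (e : ℕ) (A : Set ℤ) (y : ℤ) : tf Γ ω e A y ≤ bW Γ ω e y := by
  unfold tf
  split_ifs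
  · exact le_rfl
  · exact (bW_pos _ _ _ _).le

theorem tf_mem {e : ℕ} {A : Set ℤ} {y : ℤ} (h : y ∈ A) : tf Γ ω e A y = bW Γ ω e y := if_pos h

theorem tf_not {e : ℕ} {A : Set ℤ} {y : ℤ} (h : y ∉ A) : tf Γ ω e A y = 0 := if_neg h

theorem QA_self (e : ℕ) (A : Set ℤ) (q : ℤ) : QA Γ ω e A e q = tf Γ ω e A q := by
  unfold QA
  rw [Nat.sub_self, Sp22.bf_zero]

theorem QA_step {e : ℕ} (A : Set ℤ) {k : ℕ} (hk : k < e) (q : ℤ) :
    QA Γ ω e A k q = wt ω k q * (QA Γ ω e A (k + 1) q + Γ.p k * QA Γ ω e A (k + 1) (q + 1)) := by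
  unfold QA
  have h : e - k = e - (k + 1) + 1 := by omega
  rw [h, Sp22.bf_succ]

theorem QA_nonneg (e : ℕ) (A : Set ℤ) (k : ℕ) (q : ℤ) : 0 ≤ QA Γ ω e A k q :=
  Sp22.bf_nonneg (fun k y => (wt_pos ω k y).le) Γ.p_pos (tf_nonneg e A) _ _ _

/-- Induction from the row `e` downwards. -/
theorem down {P : ℕ → Prop} {e : ℕ} (h0 : P e) (h1 : ∀ k, k < e → P (k + 1) → P k) : ∀ k, k ≤ e → P k := by
  intro k hk
  induction hk using Nat.decreasingInduction with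
  | self => exact h0
  | of_succ k hk ih => exact h1 k hk ih

theorem QA_le_bW {e : ℕ} (he : e ≤ Γ.N) (A : Set ℤ) : ∀ k, k ≤ e → ∀ q, QA Γ ω e A k q ≤ bW Γ ω k q := by
  refine down (fun q => ?_) fun k hk ih q => ?_
  · rw [QA_self]; exact tf_le _ _ _
  · rw [QA_step A hk, bW_step (by omega)]
    exact mul_le_mul_of_nonneg_left (add_le_add (ih q) (mul_le_mul_of_nonneg_left (ih (q + 1)) (Γ.p_pos k).le))
      (wt_pos ω k q).le

theorem QA_mono {e : ℕ} {A A' : Set ℤ} (h : A ⊆ A') : ∀ k, k ≤ e → ∀ q, QA Γ ω e A k q ≤ QA Γ ω e A' k q := by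
  refine down (fun q => ?_) fun k hk ih q => ?_
  · rw [QA_self, QA_self]
    by_cases h1 : q ∈ A
    · rw [tf_mem h1, tf_mem (h h1)]
    · rw [tf_not h1]; exact tf_nonneg _ _ _
  · rw [QA_step A hk, QA_step A' hk]
    exact mul_le_mul_of_nonneg_left (add_le_add (ih q) (mul_le_mul_of_nonneg_left (ih (q + 1)) (Γ.p_pos k).le))
      (wt_pos ω k q).le

theorem QA_compl {e : ℕ} (he : e ≤ Γ.N) (A : Set ℤ) : ∀ k, k ≤ e → ∀ q, QA Γ ω e A k q + QA Γ ω e Aᶜ k q = bW Γ ω k q := by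
  refine down (fun q => ?_) fun k hk ih q => ?_
  · rw [QA_self, QA_self]
    by_cases h1 : q ∈ A
    · rw [tf_mem h1, tf_not (show ¬ q ∈ Aᶜ from fun h => h h1), add_zero]
    · rw [tf_not h1, tf_mem (show q ∈ Aᶜ from h1), zero_add]
  · rw [QA_step A hk, QA_step Aᶜ hk, bW_step (by omega), ← ih q, ← ih (q + 1)]
    ring

/-- **To be in `A` at the row `e`**: leave `Z` at the row `b`, or pay `σ` from there. -/
theorem QA_stay {b e : ℕ} (hbe : b ≤ e) (he : e ≤ Γ.N) {A Z : Set ℤ} {σ : ℝ} (hσ : 0 ≤ σ)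
    (h : ∀ q ∈ Z, QA Γ ω e A b q ≤ σ * bW Γ ω b q) :
    ∀ k, k ≤ b → ∀ q, QA Γ ω e A k q ≤ QA Γ ω b Zᶜ k q + σ * bW Γ ω k q := by
  refine down (fun q => ?_) fun k hk ih q => ?_
  · rw [QA_self]
    by_cases h1 : q ∈ Z
    · have := h q h1
      have := tf_nonneg (Γ := Γ) (ω := ω) b Zᶜ q
      linarith
    · rw [tf_mem (show q ∈ Zᶜ from h1)]
      have a1 := QA_le_bW (ω := ω) he A b hbe q
      have a2 := mul_nonneg hσ (bW_pos Γ ω b q).le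
      linarith
  · rw [QA_step A (show k < e by omega), QA_step Zᶜ hk, bW_step (show k < Γ.N by omega)]
    have a1 := ih q
    have a2 := mul_le_mul_of_nonneg_left (ih (q + 1)) (Γ.p_pos k).le
    have a3 := mul_le_mul_of_nonneg_left (add_le_add a1 a2) (wt_pos ω k q).le
    calc _ ≤ _ := a3
      _ = _ := by ring

/-- **The routes which pass `B`.** `ω₂`, `ω'` are equal off `B` (rows `< e`). -/
theorem QA_kill {e : ℕ} (he : e ≤ Γ.N) {A : Set ℤ} {B : Set (ℕ × ℤ)} {s : ℝ} {ω₂ : Env} (hs : 0 ≤ s)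
    (hB : ∀ k y, (k, y) ∈ B → k < e) (heq : ∀ k y, (k, y) ∉ B → wt ω₂ k y = wt ω' k y) {k₀ : ℕ}
    (h : ∀ i z, k₀ ≤ i → (i, z) ∈ B → QA Γ ω₂ e A i z ≤ s * bW Γ ω₂ i z) :
    ∀ k, k ≤ e → k₀ ≤ k → ∀ q, QA Γ ω₂ e A k q ≤ QA Γ ω' e A k q + s * bW Γ ω₂ k q := by
  have hbe : ∀ q, bW Γ ω₂ e q = bW Γ ω' e q := fun q => bW_congr (fun i hi y => heq i y fun h1 => by
    have := hB i y h1
    omega) q
  refine down (fun _ q => ?_) fun k hk ih hk₀ q => ?_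
  · rw [QA_self, QA_self]
    have e1 : tf Γ ω₂ e A q = tf Γ ω' e A q := by
      unfold tf
      rw [hbe q]
    rw [e1]
    have := mul_nonneg hs (bW_pos Γ ω₂ e q).le
    linarith
  · by_cases h1 : (k, q) ∈ B
    · have a1 := h k q hk₀ h1
      have a2 := QA_nonneg (Γ := Γ) (ω := ω') e A k q
      linarith
    · rw [QA_step A hk, QA_step A hk, bW_step (show k < Γ.N by omega), heq k q h1]
      have a1 := ih (by omega) q
      have a2 := mul_le_mul_of_nonneg_left (ih (by omega) (q + 1)) (Γ.p_pos k).le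
      have a3 := mul_le_mul_of_nonneg_left (add_le_add a1 a2) (wt_pos ω' k q).le
      calc _ ≤ _ := a3
        _ = _ := by ring

/-! ### Visits -/

open Classical in
/-- `j` rows from the row `k` on: the mass of the paths which visit `St`. -/
def vs (Γ : Cx) (ω : Env) (St : Set (ℕ × ℤ)) : ℕ → ℕ → ℤ → ℝ
  | k, 0, x => if (k, x) ∈ St then bW Γ ω k x else 0
  | k, j + 1, x => if (k, x) ∈ St then bW Γ ω k x else wt ω k x * (vs Γ ω St (k + 1) j x + Γ.p k * vs Γ ω St (k + 1) j (x + 1))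

/-- **The mass of the paths from a site which visit `St` at a row `≤ e`.** -/
def VS (Γ : Cx) (ω : Env) (e : ℕ) (St : Set (ℕ × ℤ)) (k : ℕ) (q : ℤ) : ℝ := vs Γ ω St k (e - k) q

theorem vs_mem {St : Set (ℕ × ℤ)} {k : ℕ} {x : ℤ} (h : (k, x) ∈ St) : ∀ j, vs Γ ω St k j x = bW Γ ω k x
  | 0 => by unfold vs; rw [if_pos h]
  | j + 1 => by unfold vs; rw [if_pos h]

theorem VS_mem {St : Set (ℕ × ℤ)} {e k : ℕ} {x : ℤ} (h : (k, x) ∈ St) : VS Γ ω e St k x = bW Γ ω k x := vs_mem h _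

theorem VS_top {St : Set (ℕ × ℤ)} {e : ℕ} {x : ℤ} (h : (e, x) ∉ St) : VS Γ ω e St e x = 0 := by
  unfold VS
  rw [Nat.sub_self]
  unfold vs
  rw [if_neg h]

theorem VS_step {St : Set (ℕ × ℤ)} {e k : ℕ} (hk : k < e) {x : ℤ} (h : (k, x) ∉ St) :
    VS Γ ω e St k x = wt ω k x * (VS Γ ω e St (k + 1) x + Γ.p k * VS Γ ω e St (k + 1) (x + 1)) := by
  unfold VS
  have e1 : e - k = e - (k + 1) + 1 := by omega
  rw [e1]
  conv_lhs => unfold vs
  rw [if_neg h]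

theorem VS_nonneg {St : Set (ℕ × ℤ)} {e : ℕ} : ∀ k, k ≤ e → ∀ q, 0 ≤ VS Γ ω e St k q := by
  refine down (fun q => ?_) fun k hk ih q => ?_
  · by_cases h : (e, q) ∈ St
    · rw [VS_mem h]; exact (bW_pos _ _ _ _).le
    · rw [VS_top h]
  · by_cases h : (k, q) ∈ St
    · rw [VS_mem h]; exact (bW_pos _ _ _ _).le
    · rw [VS_step hk h]
      have a1 := ih q
      have a2 := ih (q + 1)
      have a3 := wt_pos ω k q
      have a4 := Γ.p_pos k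
      positivity

/-- To be in `A` at the row `e` is a visit of `St`. -/
theorem QA_le_VS {e : ℕ} (he : e ≤ Γ.N) {A : Set ℤ} {St : Set (ℕ × ℤ)} (h : ∀ y ∈ A, (e, y) ∈ St) :
    ∀ k, k ≤ e → ∀ q, QA Γ ω e A k q ≤ VS Γ ω e St k q := by
  refine down (fun q => ?_) fun k hk ih q => ?_
  · rw [QA_self]
    by_cases h1 : q ∈ A
    · rw [tf_mem h1, VS_mem (h q h1)]
    · rw [tf_not h1]; exact VS_nonneg e le_rfl q
  · by_cases h1 : (k, q) ∈ St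
    · rw [VS_mem h1]; exact QA_le_bW he A k hk.le q
    · rw [QA_step A hk, VS_step hk h1]
      exact mul_le_mul_of_nonneg_left (add_le_add (ih q) (mul_le_mul_of_nonneg_left (ih (q + 1)) (Γ.p_pos k).le))
        (wt_pos ω k q).le

/-- **Visits, two environments** which are equal off `B`; the predecessors of the sites of `B` are in `St`. -/
theorem VS_cmp {e : ℕ} {St B : Set (ℕ × ℤ)} {C : ℝ} {ω₂ : Env} (heq : ∀ k y, (k, y) ∉ B → wt ω₂ k y = wt ω' k y)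
    (hpre : ∀ k y, (k + 1, y) ∈ B → (k, y) ∈ St ∧ (k, y - 1) ∈ St)
    (hC : ∀ k y, k ≤ e → (k, y) ∈ St → (k, y) ∉ B → bW Γ ω₂ k y ≤ C * bW Γ ω' k y) :
    ∀ k, k ≤ e → ∀ q, (k, q) ∉ B → VS Γ ω₂ e St k q ≤ C * VS Γ ω' e St k q := by
  refine down (fun q hq => ?_) fun k hk ih q hq => ?_
  · by_cases h : (e, q) ∈ St
    · rw [VS_mem h, VS_mem h]; exact hC e q le_rfl h hq
    · rw [VS_top h, VS_top h, mul_zero]
  · by_cases h : (k, q) ∈ St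
    · rw [VS_mem h, VS_mem h]; exact hC k q hk.le h hq
    · rw [VS_step hk h, VS_step hk h, heq k q hq]
      have a1 := ih q fun h1 => h (hpre k q h1).1
      have a2 := mul_le_mul_of_nonneg_left (ih (q + 1) fun h1 => h (by
        have := (hpre k (q + 1) h1).2
        rwa [add_sub_cancel_right] at this)) (Γ.p_pos k).le
      have a3 := mul_le_mul_of_nonneg_left (add_le_add a1 a2) (wt_pos ω' k q).le
      calc _ ≤ _ := a3
        _ = _ := by ring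

/-! ### Groups -/

/-- The sum over a row does not depend on the row. -/
theorem PG_eq {m : ℤ → ℝ} (hm : Ms m 0 Γ.hi Γ.N) {e : ℕ} (he : e ≤ Γ.N) (A : Set ℤ) (ω : Env) {k : ℕ} (hk : k ≤ e) :
    ∑ x ∈ Icc 0 Γ.hi, fw (wt ω) Γ.p m k x * QA Γ ω e A k x = PG Γ m e (bx Γ A) ω := by
  classical
  have h1 := Sp22.sum_fw_har (w := wt ω) (p := Γ.p) hm (Sp22.har_bf (wt ω) Γ.p (tf Γ ω e A) e) he hk
  have h2 := Sp22.sum_fw_har (w := wt ω) (p := Γ.p) hm (Sp22.har_bf (wt ω) Γ.p (tf Γ ω e A) e) he (le_refl e)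
  have h3 : ∑ x ∈ Icc 0 Γ.hi, fw (wt ω) Γ.p m k x * QA Γ ω e A k x =
      ∑ x ∈ Icc 0 Γ.hi, fw (wt ω) Γ.p m e x * QA Γ ω e A e x := h1.trans h2.symm
  rw [h3]
  unfold PG Sp22.Ps bx
  rw [sum_filter]
  refine sum_congr rfl fun y _ => ?_
  rw [QA_self]
  by_cases hy : y ∈ A
  · rw [tf_mem hy, if_pos hy]
    rfl
  · rw [tf_not hy, if_neg hy, mul_zero]

theorem ZG_eq {m : ℤ → ℝ} (hm : Ms m 0 Γ.hi Γ.N) (ω : Env) {k : ℕ} (hk : k ≤ Γ.N) :
    ∑ x ∈ Icc 0 Γ.hi, fw (wt ω) Γ.p m k x * bW Γ ω k x = ZG Γ m ω := Sp22.Zt_row hm hk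

/-- The mass through a site, then in `A`. -/
theorem site_le {m : ℤ → ℝ} (hm : Ms m 0 Γ.hi Γ.N) (ω : Env) {k : ℕ} (hk : k ≤ Γ.N) (q : ℤ) :
    fw (wt ω) Γ.p m k q * bW Γ ω k q ≤ ZG Γ m ω := by
  have := Sp22.Ps_le_Zt (wt_pos ω) Γ.p_pos hm hk {q}
  unfold Sp22.Ps at this
  rwa [sum_singleton] at this

/-- **A bound at the sites of the row `0` is a bound for the group.** -/
theorem PG_le_of {m : ℤ → ℝ} (hm : Ms m 0 Γ.hi Γ.N) {e : ℕ} (he : e ≤ Γ.N) {A : Set ℤ} {ω ω' : Env} {Y : ℝ}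
    (h : ∀ q, QA Γ ω' e A 0 q ≤ Y * bW Γ ω 0 q) : PG Γ m e (bx Γ A) ω' ≤ Y * ZG Γ m ω := by
  rw [← PG_eq hm he A ω' (Nat.zero_le e), ← ZG_eq hm ω (Nat.zero_le _), mul_sum]
  refine sum_le_sum fun x _ => ?_
  have e1 : fw (wt ω') Γ.p m 0 x = fw (wt ω) Γ.p m 0 x := rfl
  rw [e1]
  calc fw (wt ω) Γ.p m 0 x * QA Γ ω' e A 0 x ≤ fw (wt ω) Γ.p m 0 x * (Y * bW Γ ω 0 x) :=
        mul_le_mul_of_nonneg_left (h x) (fw_nonneg (wt_pos ω) Γ.p_pos hm.nn _ _)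
    _ = _ := by ring

theorem ZG_le_of {m : ℤ → ℝ} (hm : Ms m 0 Γ.hi Γ.N) {ω ω' : Env} {C : ℝ} (h : ∀ q, bW Γ ω' 0 q ≤ C * bW Γ ω 0 q) :
    ZG Γ m ω' ≤ C * ZG Γ m ω := by
  rw [← ZG_eq hm ω' (Nat.zero_le _), ← ZG_eq hm ω (Nat.zero_le _), mul_sum]
  refine sum_le_sum fun x _ => ?_
  have e1 : fw (wt ω') Γ.p m 0 x = fw (wt ω) Γ.p m 0 x := rfl
  rw [e1]
  calc fw (wt ω) Γ.p m 0 x * bW Γ ω' 0 x ≤ fw (wt ω) Γ.p m 0 x * (C * bW Γ ω 0 x) :=
        mul_le_mul_of_nonneg_left (h x) (fw_nonneg (wt_pos ω) Γ.p_pos hm.nn _ _)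
    _ = _ := by ring

/-- **The routes which pass `B`, groups.** -/
theorem PG_kill {m : ℤ → ℝ} (hm : Ms m 0 Γ.hi Γ.N) {e : ℕ} (he : e ≤ Γ.N) {A : Set ℤ} {B : Set (ℕ × ℤ)} {s : ℝ} {ω' ω₂ : Env}
    (hs : 0 ≤ s) (hB : ∀ k y, (k, y) ∈ B → k < e) (heq : ∀ k y, (k, y) ∉ B → wt ω₂ k y = wt ω' k y)
    (h : ∀ i z, (i, z) ∈ B → QA Γ ω₂ e A i z ≤ s * bW Γ ω₂ i z) :
    PG Γ m e (bx Γ A) ω₂ ≤ PG Γ m e (bx Γ A) ω' + s * ZG Γ m ω₂ := by
  rw [← PG_eq hm he A ω₂ (Nat.zero_le e), ← PG_eq hm he A ω' (Nat.zero_le e), ← ZG_eq hm ω₂ (Nat.zero_le _), mul_sum,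
    ← sum_add_distrib]
  refine sum_le_sum fun x _ => ?_
  have e1 : fw (wt ω₂) Γ.p m 0 x = fw (wt ω') Γ.p m 0 x := rfl
  have h1 := QA_kill he hs hB heq (k₀ := 0) (fun i z _ hz => h i z hz) 0 (Nat.zero_le e) le_rfl x
  rw [e1]
  calc fw (wt ω') Γ.p m 0 x * QA Γ ω₂ e A 0 x ≤ fw (wt ω') Γ.p m 0 x * (QA Γ ω' e A 0 x + s * bW Γ ω₂ 0 x) :=
        mul_le_mul_of_nonneg_left h1 (fw_nonneg (wt_pos ω') Γ.p_pos hm.nn _ _)
    _ = _ := by ring

end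

end Pool.Agent.W_7d29a1_C1.SD53
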