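import Pool.Agent.W_7d29a1_C1.BrR22
import Pool.Agent.W_7d29a1_C1.Quen53
import Pool.Agent.W_7d29a1_C1.KiP52
import Pool.Agent.W_7d29a1_C1.OuS37

/-!
MP_7d29a1_pr, [C1] attractor route, SEP: FAR ENDS WITH THE NEW CONTENT OF THE WINDOW (field `exc`), THE TWO HALVES. (helper22)

* **`lv22`** : `ω'` = new content, `ω` = old content, equal off the strip `D` and on its border; from the border of `D` the old content gives
  the far set `A` (row `e`, off `D`) at most the part `s₀`; the masses of the two contents differ off the window by the factor `R`: then the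
  new content gives `A` at most the part `(e - k) R² s₀` from every site of `D` (backward induction over the rows);
* **`far22`** : one old start: totals with tilts and a profile `bn (e, y) ≤ exp (X + x₁ |lat|) bn (k, z)` give the far ends at most
  `4 (e - k + 1) exp (2 (V + σ A) + X + x₁ A - (τ - x₁) (ρ - A))`.
-/

set_option autoImplicit false

namespace Pool.Agent.W_7d29a1_C1.Ex22

open Finset MeasureTheory
open Pool.Agent.W_7d29a1_F hiding Bw G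
open Pool.Agent.W_7d29a1_h4g Pool.Agent.W_7d29a1_HS
open Pool.Agent.W_7d29a1_H hiding ex gg
open Pool.Agent.W_7d29a1_C1.K91 (wt wt_pos)
open Pool.Agent.W_7d29a1_C1.K91P (bw bw_pos)
open Pool.Agent.W_7d29a1_C1.U16 (ker ker_nonneg)
open Pool.Agent.W_7d29a1_C1.Sp22 (kw kw_nn kw_le bf bf_ker)
open Pool.Agent.W_7d29a1_C1.H60
open Pool.Agent.W_7d29a1_C1.G37 (Gm)
open Pool.Agent.W_7d29a1_C1.SD53
open Pool.Agent.W_7d29a1_C1.E53
open Pool.Agent.W_7d29a1_C1.Rt22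
open Pool.Agent.W_7d29a1_C1.RB22

noncomputable section

variable {Γ : Cx} {ω ω' : Env}

open Classical in
/-- **THE MODEL HALF.** -/
theorem lv22 {D : Set (ℕ × ℤ)} {a e : ℕ} {A : Set ℤ} {R s₀ : ℝ} (he : e ≤ Γ.N) (hR : 0 ≤ R) (hs : 0 ≤ s₀) (hA : ∀ y ∈ A, (e, y) ∉ D)
    (hoff : ∀ k y, a ≤ k → k < e → ((k, y) ∉ D ∨ (k + 1, y) ∉ D ∨ (k + 1, y + 1) ∉ D) → wt ω' k y = wt ω k y)
    (hF : ∀ y ∈ A, bW Γ ω' e y ≤ R * bW Γ ω e y)
    (hM : ∀ k y, a ≤ k → k < e → (k, y) ∈ D → ((k + 1, y) ∉ D ∨ (k + 1, y + 1) ∉ D) →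
      QA Γ ω e A k y ≤ s₀ * bW Γ ω k y ∧ bW Γ ω k y ≤ R * bW Γ ω' k y) :
    ∀ k, k ≤ e → a ≤ k → ∀ y, QA Γ ω' e A k y ≤
      (if (k, y) ∈ D then 0 else R * QA Γ ω e A k y) + ((e - k : ℕ) : ℝ) * (R * s₀ * R) * bW Γ ω' k y := by
  have hN : ∀ k y, (if (k, y) ∈ D then 0 else R * QA Γ ω e A k y) ≤ R * QA Γ ω e A k y := fun k y => by
    split_ifs
    · exact mul_nonneg hR (QA_nonneg _ _ _ _)
    · exact le_rfl
  have hc : 0 ≤ R * s₀ * R := mul_nonneg (mul_nonneg hR hs) hR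
  refine down (P := fun k => a ≤ k → ∀ y, QA Γ ω' e A k y ≤
      (if (k, y) ∈ D then 0 else R * QA Γ ω e A k y) + ((e - k : ℕ) : ℝ) * (R * s₀ * R) * bW Γ ω' k y) (fun _ y => ?_)
    fun k hk ih h0 y => ?_
  · rw [Nat.sub_self, Nat.cast_zero, zero_mul, zero_mul, add_zero, QA_self, QA_self]
    by_cases h1 : y ∈ A
    · rw [if_neg (hA y h1), tf_mem h1, tf_mem h1]
      exact hF y h1
    · rw [tf_not h1, tf_not h1, mul_zero, ite_self]
  · have i1 := ih (by omega) y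
    have i2 := ih (by omega) (y + 1)
    have e1 : ((e - k : ℕ) : ℝ) = ((e - (k + 1) : ℕ) : ℝ) + 1 := by
      rw [show e - k = e - (k + 1) + 1 by omega]
      push_cast
      ring
    have hb := bW_step (ω := ω') (show k < Γ.N by omega) y
    have hbp := bW_pos Γ ω' k y
    have hw := (wt_pos ω' k y).le
    have hp := (Γ.p_pos k).le
    have e2 : 0 ≤ ((e - (k + 1) : ℕ) : ℝ) := Nat.cast_nonneg _
    -- one step
    obtain ⟨n1, hn1⟩ : ∃ n1 : ℝ, n1 = (if (k + 1, y) ∈ D then 0 else R * QA Γ ω e A (k + 1) y) := ⟨_, rfl⟩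
    obtain ⟨n2, hn2⟩ : ∃ n2 : ℝ, n2 = (if (k + 1, y + 1) ∈ D then 0 else R * QA Γ ω e A (k + 1) (y + 1)) := ⟨_, rfl⟩
    have k1 := hN (k + 1) y
    have k2 := hN (k + 1) (y + 1)
    rw [← hn1] at i1 k1
    rw [← hn2] at i2 k2
    have step : QA Γ ω' e A k y ≤ wt ω' k y * (n1 + Γ.p k * n2) + ((e - (k + 1) : ℕ) : ℝ) * (R * s₀ * R) * bW Γ ω' k y := by
      rw [QA_step A hk, hb]
      have a3 := mul_le_mul_of_nonneg_left (add_le_add i1 (mul_le_mul_of_nonneg_left i2 hp)) hw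
      refine a3.trans (le_of_eq ?_)
      ring
    by_cases hD : (k, y) ∈ D
    · rw [if_pos hD, zero_add, e1]
      by_cases hr : (k + 1, y) ∉ D ∨ (k + 1, y + 1) ∉ D
      · obtain ⟨m1, m2⟩ := hM k y h0 hk hD hr
        have h1 : wt ω' k y * (n1 + Γ.p k * n2) ≤ R * s₀ * R * bW Γ ω' k y := by
          rw [hoff k y h0 hk (Or.inr hr)]
          calc wt ω k y * (n1 + Γ.p k * n2) ≤ wt ω k y * (R * QA Γ ω e A (k + 1) y + Γ.p k * (R * QA Γ ω e A (k + 1) (y + 1))) :=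
                mul_le_mul_of_nonneg_left (add_le_add k1 (mul_le_mul_of_nonneg_left k2 hp)) (wt_pos ω k y).le
            _ = R * QA Γ ω e A k y := by rw [QA_step A hk]; ring
            _ ≤ R * (s₀ * bW Γ ω k y) := mul_le_mul_of_nonneg_left m1 hR
            _ ≤ R * (s₀ * (R * bW Γ ω' k y)) := mul_le_mul_of_nonneg_left (mul_le_mul_of_nonneg_left m2 hs) hR
            _ = _ := by ring
        refine step.trans ?_
        have e3 : (((e - (k + 1) : ℕ) : ℝ) + 1) * (R * s₀ * R) * bW Γ ω' k y =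
            ((e - (k + 1) : ℕ) : ℝ) * (R * s₀ * R) * bW Γ ω' k y + R * s₀ * R * bW Γ ω' k y := by ring
        rw [e3]
        linarith
      · rw [not_or, not_not, not_not] at hr
        have z1 : n1 = 0 := by rw [hn1, if_pos hr.1]
        have z2 : n2 = 0 := by rw [hn2, if_pos hr.2]
        refine step.trans ?_
        rw [z1, z2, mul_zero, add_zero, mul_zero, zero_add]
        refine mul_le_mul_of_nonneg_right (mul_le_mul_of_nonneg_right ?_ hc) hbp.le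
        linarith
    · rw [if_neg hD, e1]
      refine step.trans (add_le_add ?_ (mul_le_mul_of_nonneg_right (mul_le_mul_of_nonneg_right (by linarith) hc) hbp.le))
      rw [hoff k y h0 hk (Or.inl hD)]
      calc wt ω k y * (n1 + Γ.p k * n2) ≤ wt ω k y * (R * QA Γ ω e A (k + 1) y + Γ.p k * (R * QA Γ ω e A (k + 1) (y + 1))) :=
            mul_le_mul_of_nonneg_left (add_le_add k1 (mul_le_mul_of_nonneg_left k2 hp)) (wt_pos ω k y).le
        _ = R * QA Γ ω e A k y := by rw [QA_step A hk]; ring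

/-- From a site of `D`. -/
theorem lv22' {D : Set (ℕ × ℤ)} {a e : ℕ} {A : Set ℤ} {R s₀ : ℝ} (he : e ≤ Γ.N) (hR : 0 ≤ R) (hs : 0 ≤ s₀) (hA : ∀ y ∈ A, (e, y) ∉ D)
    (hoff : ∀ k y, a ≤ k → k < e → ((k, y) ∉ D ∨ (k + 1, y) ∉ D ∨ (k + 1, y + 1) ∉ D) → wt ω' k y = wt ω k y)
    (hF : ∀ y ∈ A, bW Γ ω' e y ≤ R * bW Γ ω e y)
    (hM : ∀ k y, a ≤ k → k < e → (k, y) ∈ D → ((k + 1, y) ∉ D ∨ (k + 1, y + 1) ∉ D) →
      QA Γ ω e A k y ≤ s₀ * bW Γ ω k y ∧ bW Γ ω k y ≤ R * bW Γ ω' k y) {v : ℤ} (hae : a ≤ e) (hv : (a, v) ∈ D) :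
    QA Γ ω' e A a v ≤ ((e - a : ℕ) : ℝ) * (R * s₀ * R) * bW Γ ω' a v := by
  classical
  have key := lv22 he hR hs hA hoff hF hM a hae le_rfl v
  rwa [if_pos hv, zero_add] at key

/-! ### One old start -/

variable {μ : Measure ℝ} {s : ℝ} {γ : ℕ → ℤ → ℝ} {t₀ V σ τ x₁ X A ρ : ℝ} {ℓ : ℕ → ℤ → ℝ} {a₀ e₀ : ℕ}

/-- **ONE OLD START.** -/
theorem far22 (hs : Γ.s = s) (g : Gau μ s Γ γ) (U : ω ∈ RB22.UpS μ s t₀ V σ ℓ a₀ e₀)
    (hℓ : ∀ (k m : ℕ) (x z : ℤ), ℓ (k + m) z = ℓ k x + (((z - x : ℤ) : ℝ) - sl μ s * m)) (hσ : 0 ≤ σ)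
    (ht : |Γ.h| + σ + τ ≤ t₀) (hx : 0 ≤ x₁) (hxτ : x₁ ≤ τ) {k e : ℕ} {z : ℤ} {S : Set ℤ} (h1 : a₀ ≤ k) (h2 : k ≤ e) (h3 : e ≤ e₀)
    (h4 : e ≤ Γ.N) (hz : |ℓ k z| ≤ A) (hS : ∀ y ∈ S, ρ ≤ |ℓ e y|)
    (hb : ∀ y ∈ S, bn Γ γ ω (e, y) ≤ Real.exp (X + x₁ * |ℓ e y|) * bn Γ γ ω (k, z)) :
    QA Γ ω e S k z ≤ (((e - k : ℕ) : ℝ) + 1) * (4 * Real.exp (2 * (V + σ * A) + X + x₁ * A - (τ - x₁) * (ρ - A))) * bW Γ ω k z := by
  classical
  have hγ := g.pos
  have hA : 0 ≤ A := (abs_nonneg _).trans hz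
  obtain ⟨n, hn⟩ : ∃ n, n = e - k := ⟨_, rfl⟩
  have hen : k + n = e := by omega
  obtain ⟨c₀, hc₀⟩ : ∃ c₀ : ℝ, c₀ = 4 * Real.exp (2 * (V + σ * A) + X + x₁ * A - (τ - x₁) * (ρ - A)) * bW Γ ω k z := ⟨_, rfl⟩
  have hc0 : 0 ≤ c₀ := by
    rw [hc₀]
    have := bW_pos Γ ω k z
    positivity
  have hbz : bW Γ ω k z = bn Γ γ ω (k, z) * gg γ ω k z := bn_mul (Γ := Γ) hγ ω (k, z)
  have one : ∀ y ∈ Icc z (z + (n : ℤ)), ker (wt ω) Γ.p k n z y * tf Γ ω e S y ≤ c₀ := by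
    intro y _
    by_cases hy : y ∈ S
    · rw [tf_mem hy]
      have hby : bW Γ ω e y = bn Γ γ ω (e, y) * gg γ ω e y := bn_mul (Γ := Γ) hγ ω (e, y)
      have key := kill_sum (D := (Set.univ : Set (ℕ × ℤ))) (ρ := |((y - z : ℤ) : ℝ) - sl μ s * n|) hs g U hℓ hσ (hx.trans hxτ) ht (k := k)
        (n := n) (x := z) h1 (by omega) (by omega) {y} fun y' hy' => by rw [mem_singleton.1 hy']
      rw [sum_singleton, show kw (Set.univ : Set (ℕ × ℤ))ᶜ (wt ω) = wt ω from by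
        funext k y
        unfold kw
        rw [if_neg fun h => h (Set.mem_univ _)], hen] at key
      have hly : ℓ e y = ℓ k z + (((y - z : ℤ) : ℝ) - sl μ s * n) := by rw [← hen]; exact hℓ k n z y
      obtain ⟨d, hd⟩ : ∃ d : ℝ, d = |((y - z : ℤ) : ℝ) - sl μ s * n| := ⟨_, rfl⟩
      rw [← hd] at key
      have d1 : |ℓ e y| ≤ A + d := by
        rw [hly, hd]
        exact (abs_add_le _ _).trans (add_le_add hz le_rfl)
      have d2 : ρ - A ≤ d := by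
        have := hS y hy
        linarith
      have b1 := hb y hy
      have hker : 0 ≤ ker (wt ω) Γ.p k n z y := ker_nonneg (wt_pos _) Γ.p_pos _ _ _ _
      have hgy := gg_pos hγ ω e y
      have hgz := gg_pos hγ ω k z
      have hbn := bn_pos (Γ := Γ) hγ ω (k, z)
      rw [hby, hc₀, hbz]
      calc ker (wt ω) Γ.p k n z y * (bn Γ γ ω (e, y) * gg γ ω e y) = bn Γ γ ω (e, y) * (ker (wt ω) Γ.p k n z y * gg γ ω e y) := by ring
        _ ≤ (Real.exp (X + x₁ * |ℓ e y|) * bn Γ γ ω (k, z)) * (4 * Real.exp (2 * (V + σ * |ℓ k z|) - τ * d) * gg γ ω k z) :=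
            mul_le_mul b1 key (mul_nonneg hker hgy.le) (mul_nonneg (Real.exp_pos _).le hbn.le)
        _ = 4 * (Real.exp (X + x₁ * |ℓ e y|) * Real.exp (2 * (V + σ * |ℓ k z|) - τ * d)) * (bn Γ γ ω (k, z) * gg γ ω k z) := by ring
        _ ≤ 4 * Real.exp (2 * (V + σ * A) + X + x₁ * A - (τ - x₁) * (ρ - A)) * (bn Γ γ ω (k, z) * gg γ ω k z) := by
            refine mul_le_mul_of_nonneg_right (mul_le_mul_of_nonneg_left ?_ (by norm_num)) (mul_pos hbn hgz).le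
            rw [← Real.exp_add]
            refine Real.exp_le_exp.2 ?_
            have a1 := mul_le_mul_of_nonneg_left d1 hx
            have a2 := mul_le_mul_of_nonneg_left hz hσ
            have a3 := mul_le_mul_of_nonneg_left d2 (show 0 ≤ τ - x₁ by linarith)
            have a4 : (τ - x₁) * d = τ * d - x₁ * d := by ring
            have a5 : x₁ * (A + d) = x₁ * A + x₁ * d := by ring
            linarith
    · rw [tf_not hy, mul_zero]
      exact hc0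
  have e1 : QA Γ ω e S k z = ∑ y ∈ Icc z (z + (n : ℤ)), ker (wt ω) Γ.p k n z y * tf Γ ω e S y := by
    unfold QA
    rw [bf_ker, ← hn]
  rw [e1, ← hn]
  refine (sum_le_card_nsmul _ _ _ one).trans (le_of_eq ?_)
  rw [Int.card_Icc, nsmul_eq_mul, hc₀]
  have h5 : (z + (n : ℤ) + 1 - z).toNat = n + 1 := by omega
  rw [h5]
  push_cast
  ring

end

end Pool.Agent.W_7d29a1_C1.Ex22
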