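import Pool.Agent.W_7d29a1_C1.GsP37
import Pool.Agent.W_7d29a1_C1.GsF73
import Pool.Agent.W_7d29a1_C1.KiP52
import Pool.Agent.W_7d29a1_C1.SepE98

/-!
MP_7d29a1_pr, [C1] attractor route, SEP: **THE GATE SLAB `Gs76` AT THE CONCRETE WINDOW** (helper37; helper73, helper22, helper18, helper52,
helper98's sets)

`a = ra - 1`, `rl98 = a + 5 n`; `ω` old (in `LvA98`, `OuT` at the radii `R2`, `R1`), `ω'` new (in `LuA98`), equal off the window;
`ω₀ = spl rf98 ω' ω` : the new rows `≤ rl98`, the old ones above.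
* `gu` : `RG = exp (d₁ E)`, strip `R2 - 1` (free of `R1`); `gl` : `g0 = exp (-(q₀ E))` for the starts within `bS w + 1`;
* `gf` : `sG = exp (-(z E))` for the starts beyond `(R1 - 1) w`, `z` as large as one likes with `R1`.
-/

set_option autoImplicit false

namespace Pool.Agent.W_7d29a1_C1.Gs37

open Finset MeasureTheory ProbabilityTheory Filter
open Pool.Agent.W_7d29a1_F hiding Bw G
open Pool.Agent.W_7d29a1_h4g Pool.Agent.W_7d29a1_HS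
open Pool.Agent.W_7d29a1_H hiding ex gg
open Pool.Agent.W_7d29a1_C1.K91 (wt wt_pos)
open Pool.Agent.W_7d29a1_C1.U16 (lat16 Far16)
open Pool.Agent.W_7d29a1_C1.H75 (hc)
open Pool.Agent.W_7d29a1_C1.H60
open Pool.Agent.W_7d29a1_C1.G37 (Gm)
open Pool.Agent.W_7d29a1_C1.O22 (Bw)
open Pool.Agent.W_7d29a1_C1.SD53
open Pool.Agent.W_7d29a1_C1.E53
open Pool.Agent.W_7d29a1_C1.Lb76
open Pool.Agent.W_7d29a1_C1.Rt22 (Ro)
open Pool.Agent.W_7d29a1_C1.RB22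
open Pool.Agent.W_7d29a1_C1.GL18
open Pool.Agent.W_7d29a1_C1.D98
open Pool.Agent.W_7d29a1_C1.Up52 (Up22 lo52 upS_22)
open Pool.Agent.W_7d29a1_C1.Ki52 (gau_gam up22_UpS lo_lat kib_up)
open Pool.Agent.W_7d29a1_C1.G73 (gf_spl73)
open Pool.Agent.W_7d29a1_C1.Ou37 (OuT gam gam_pos bn_pos bn_eq)

noncomputable section

variable {μ : Measure ℝ} {s : ℝ} {Γ : Cx} {G : Gm} {u : ℕ} {κ : ℤ × ℤ} {ω ω' : Env}

/-! ### Small pieces -/

/-- **`TmB` from `OuT`.** -/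
theorem ouT_tm {E : ℕ → ℝ} {R Q' sg b : ℝ} (hb : b * G.w u + 1 ≤ R * G.w u) :
    OuT μ s Γ G E R Q' sg u κ ⊆ TmB Γ G (gam μ s Γ) b (Q' * E u + sg) u κ (G.ra u κ - 1) (G.re u κ) := by
  intro ω h c c' h1 h2 h3 h4 h5 h6
  have key := h c ⟨by omega, h2, h5.trans hb⟩ c' ⟨by omega, h4, h6.trans hb⟩
  rw [bn_eq, bn_eq] at key
  exact key

/-- **`TmB` from `OuT` with a slack at most `E`.** -/
theorem ouT_tm1 {E : ℕ → ℝ} {R Q' sg b : ℝ} (hb : b * G.w u + 1 ≤ R * G.w u) (hsg : sg ≤ E u) :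
    OuT μ s Γ G E R Q' sg u κ ⊆ TmB Γ G (gam μ s Γ) b ((Q' + 1) * E u) u κ (G.ra u κ - 1) (G.re u κ) := by
  intro ω h c c' h1 h2 h3 h4 h5 h6
  refine (ouT_tm hb h c c' h1 h2 h3 h4 h5 h6).trans (mul_le_mul_of_nonneg_right (Real.exp_le_exp.2 (by linarith)) ?_)
  exact (RB22.bn_pos (fun k y => gam_pos k y) ω c).le

theorem stB_mono {b b' Uw : ℝ} {e : ℕ} (hb : b ≤ b') : StB G b' Uw u κ e ⊆ StB G b Uw u κ e := fun _ h v hv =>
  h v (hv.trans (by have := mul_le_mul_of_nonneg_right hb (G.w_pos u).le; linarith))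

/-- The window has no row below `ra`. -/
theorem bw_row (h0 : 0 ≤ G.rcc u κ) {k : ℕ} {y : ℤ} (h : (k, y) ∈ Bw G u κ) : G.ra u κ ≤ k := by
  have h1 : G.rcc u κ + G.T (u - 1) < (k : ℤ) := h.1
  have h2 := G.ra_cast h0
  omega

/-- Two environments equal off the window, in the letters of `ro_blk`. -/
theorem heq_blk (h0 : 0 ≤ G.rcc u κ) {r : ℕ} (heq : ∀ k y, (k, y) ∉ Bw G u κ → wt ω' k y = wt ω k y) (k : ℕ) (y : ℤ) (hk : k < r)
    (h : (k, y) ∉ Bk G u κ (G.ra u κ - 1) r) : wt ω k y = wt ω' k y := by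
  by_cases hb : (k, y) ∈ Bw G u κ
  · refine absurd ⟨hb, ?_, hk⟩ h
    have h1 := bw_row h0 hb
    have h2 := ra_pos98 (G := G) (u := u) (κ := κ)
    show G.ra u κ - 1 < k
    omega
  · exact (heq k y hb).symm

/-- The site of the row `k` on the line through the centre. -/
theorem lat_co (k : ℕ) : |G.lat (k, co98 G u κ k) - G.ctr u κ| ≤ 1 := by
  have f1 := Int.floor_le (G.ctr u κ + G.v * (k : ℝ))
  have f2 := Int.lt_floor_add_one (G.ctr u κ + G.v * (k : ℝ))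
  unfold co98 Gm.lat
  rw [abs_le]
  constructor <;> simp only <;> linarith

/-! ### The numbers -/

/-- **THE NUMBERS** (in the unit `E`): `Λ ≥ |lam|`, `V₁` level of the upper kernels, `υ` of the weights, `Re`, `Qe` strip and level of the
lower kernels, `Qg` level of `Lo18`, `bB` strip of the weights; `R2 | d₁, q₀ | z | R1`. -/
structure Num37 (c Λ kw Ck V₁ υ Re Qe Qg sgm bS Km R2 U₁ d₁ q₀ R1 bB z : ℝ) : Prop where
  sgm0 : 0 ≤ sgm
  V0 : 0 ≤ V₁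
  υ0 : 0 ≤ υ
  Re0 : 0 ≤ Re
  bS0 : 0 ≤ bS
  Qg0 : 0 ≤ Qg
  U0 : 0 ≤ U₁
  R2k : kw + 2 ≤ R2
  R2e : Re + 2 ≤ R2
  R2s : bS + 2 ≤ R2
  R2b : R2 ≤ bB + 1
  U : Qe + c / 8 * (Re + kw) + 1 + Λ ≤ U₁
  X : 2 * (2 * V₁ + Ck) + 5 * (sgm * R2 + 1 + υ) + U₁ + 2 ≤ c / 2 * (R2 - 1)
  d : 2 * (2 * V₁ + Ck) + 5 * (sgm * R2 + 1 + υ) + U₁ + 2 ≤ d₁
  q : Qg + (sgm * R2 + 1) + c / 8 * (bS + 1) ≤ q₀
  R1k : kw + 3 ≤ R1
  R1m : Km + 1 ≤ R1
  z : sgm * R1 + 1 + 2 * V₁ + c / 2 * Km + c + 2 + z ≤ 3 * c / 8 * (R1 - 1)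

/-- **The order of the numbers**: `R2`, `U₁`, `d₁`, `q₀` before `z`, `z` before `R1`. -/
theorem ex37 {c Λ kw Ck V₁ υ Re Qe Qg sgm bS Km : ℝ} (hc : 0 < c) (hΛ : 0 ≤ Λ) (hkw : 0 ≤ kw) (hs : 0 ≤ sgm) (hs' : sgm ≤ c / 80)
    (hV : 0 ≤ V₁) (hυ : 0 ≤ υ) (hRe : 0 ≤ Re) (hQe : 0 ≤ Qe) (hQg : 0 ≤ Qg) (hbS : 0 ≤ bS) : ∃ U₁ R2₀ : ℝ, 0 ≤ U₁ ∧ ∀ R2 : ℝ, R2₀ ≤ R2 → ∀ d₁ q₀ : ℝ,
      2 * (2 * V₁ + Ck) + 5 * (sgm * R2 + 1 + υ) + U₁ + 2 ≤ d₁ → Qg + (sgm * R2 + 1) + c / 8 * (bS + 1) ≤ q₀ → ∀ z : ℝ, ∃ R1₀ : ℝ,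
      ∀ R1 bB : ℝ, R1₀ ≤ R1 → R1 ≤ bB + 1 → Num37 c Λ kw Ck V₁ υ Re Qe Qg sgm bS Km R2 U₁ d₁ q₀ R1 bB z := by
  obtain ⟨U₁, hU⟩ : ∃ U₁, U₁ = Qe + c / 8 * (Re + kw) + 1 + Λ := ⟨_, rfl⟩
  have hU0 : 0 ≤ U₁ := by rw [hU]; positivity
  obtain ⟨Y, hY⟩ : ∃ Y, Y = |2 * (2 * V₁ + Ck) + 5 * (1 + υ) + U₁ + 2 + c| := ⟨_, rfl⟩
  have hY0 : 0 ≤ Y := by rw [hY]; exact abs_nonneg _
  have hY1 : 2 * (2 * V₁ + Ck) + 5 * (1 + υ) + U₁ + 2 + c ≤ Y := by rw [hY]; exact le_abs_self _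
  refine ⟨U₁, kw + 2 + (Re + 2) + (bS + 2) + 4 * Y / c, hU0, fun R2 hR2 d₁ q₀ hd hq z => ?_⟩
  obtain ⟨Z, hZ⟩ : ∃ Z, Z = |1 + 2 * V₁ + c / 2 * Km + c + 2 + z + c| + |Km| := ⟨_, rfl⟩
  have hZ0 : 0 ≤ Z := by rw [hZ]; positivity
  have hZ1 : 1 + 2 * V₁ + c / 2 * Km + c + 2 + z + c ≤ Z := by
    rw [hZ]
    have := le_abs_self (1 + 2 * V₁ + c / 2 * Km + c + 2 + z + c)
    have := abs_nonneg Km
    linarith
  have hZ2 : Km ≤ Z := by
    rw [hZ]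
    have := le_abs_self Km
    have := abs_nonneg (1 + 2 * V₁ + c / 2 * Km + c + 2 + z + c)
    linarith
  have hYc : c * (4 * Y / c) = 4 * Y := by field_simp
  have hY2 : 0 ≤ 4 * Y / c := by positivity
  refine ⟨R2 + Z + 1 + kw + 3 + 4 * Z / c, fun R1 bB h1 h2 => ?_⟩
  have hZc : c * (4 * Z / c) = 4 * Z := by field_simp
  have hZ3 : 0 ≤ 4 * Z / c := by positivity
  have hR20 : 0 ≤ R2 := by linarith
  have hR10 : 0 ≤ R1 := by linarith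
  have g1 := mul_le_mul_of_nonneg_right hs' hR20
  have g2 := mul_le_mul_of_nonneg_left hR2 hc.le
  have g3 := mul_le_mul_of_nonneg_right hs' hR10
  have g4 := mul_le_mul_of_nonneg_left h1 hc.le
  have g5 : 0 ≤ c * (kw + 2 + (Re + 2) + (bS + 2)) := by positivity
  have g6 : 0 ≤ c * (R2 + Z + 1 + kw + 3) := by positivity
  rw [mul_add, hYc] at g2
  rw [mul_add, hZc] at g4
  refine ⟨hs, hV, hυ, hRe, hbS, hQg, hU0, by linarith, by linarith, by linarith, by linarith, hU.ge, ?_, hd, hq, by linarith, by linarith, ?_⟩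
  · linarith
  · linarith

/-! ### The slab -/

variable [IsProbabilityMeasure μ] {c C : ℝ} {n₀ : ℕ}

/-- **THE GATE SLAB AT THE WINDOW `(u, κ)`.** -/
theorem gsC37 (h : In μ s c C n₀) {kw : ℝ} (hkw : 0 ≤ kw) : ∃ Ck : ℝ, 0 < Ck ∧ ∃ n₁ : ℕ, 2 ≤ n₁ ∧
    ∀ {Γ : Cx} {G : Gm} {P : Nm98} {R : Nr98} {E : ℕ → ℝ} {u : ℕ} {κ : ℤ × ℤ} {sgm V₁ υ bS Km R2 U₁ d₁ q₀ R1 z sg : ℝ}
      {Mi Mo : Set ℤ} {ω ω' : Env}, Γ.s = s → G.v = sl μ s → G.w u = wd μ s (G.T u) → E u = EE μ s (G.T u) → G.kw = kw →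
      |Γ.h| * G.w u ≤ c / 8 * E u → n₁ ≤ G.T u → G.re u κ ≤ Γ.N → 0 ≤ G.rcc u κ → Fit98 G P u → R.Vs u = V₁ * E u →
      R.sV u = c / 16 * (E u / G.w u) → R.Uw u = υ * E u →
      Num37 c |lam μ s| kw Ck V₁ υ R.Re R.Qe P.Q sgm bS Km R2 U₁ d₁ q₀ R1 (R.b u) z →
      bS * G.w u + 2 ≤ P.K2 u * wd μ s (P.n u) → 2 ≤ P.K1 u * wd μ s (P.n u) →
      co98 G u κ (rl98 Γ G P u κ) ∈ Mi → (∀ v ∈ Mo, |G.lat (rl98 Γ G P u κ, v) - G.ctr u κ| ≤ Km * G.w u) →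
      ω ∈ LvA98 μ s c Γ G P R u κ → sg ≤ E u → ω ∈ OuT μ s Γ G E R2 (sgm * R2) sg u κ → ω ∈ OuT μ s Γ G E R1 (sgm * R1) sg u κ →
      ω' ∈ LuA98 μ s c Γ G P R u κ → (∀ k y, (k, y) ∉ Bw G u κ → wt ω' k y = wt ω k y) →
      Gs76 Γ ω (spl (rf98 Γ G P u κ) ω' ω) (G.ra u κ - 1) (rl98 Γ G P u κ) {z | |G.lat (G.ra u κ - 1, z) - G.ctr u κ| ≤ bS * G.w u + 1}
        {z | |G.lat (G.ra u κ - 1, z) - G.ctr u κ| ≤ (R1 - 1) * G.w u} Mi Mo (Real.exp (-(q₀ * E u))) (Real.exp (d₁ * E u))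
        (Real.exp (-(z * E u))) := by
  obtain ⟨Ck, hCk, n₁, hn₁, H⟩ := kib_up h hkw
  have hc0 := h.c0
  have hc1 := h.c1
  have hsl0 := h.sl_pos
  have hsl1 := h.sl_lt
  refine ⟨Ck, hCk, max n₁ 2, le_max_right _ _, ?_⟩
  intro Γ G P R E u κ sgm V₁ υ bS Km R2 U₁ d₁ q₀ R1 z sg Mi Mo ω ω' hs hv hw hE hkw' hh hT hN h0 hF hVs hsV hUw N hK2 hK1 hMi hMo hω hsg
    hω2 hω1 hω' heq
  have hT1 : n₁ ≤ G.T u := (le_max_left _ _).trans hT
  have hT2 : 2 ≤ G.T u := (le_max_right _ _).trans hT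
  have hE1 : 1 ≤ E u := by rw [hE]; exact one_le_EE _
  have hw2 : 2 * E u ≤ G.w u := by rw [hE, hw]; exact wd_ge_one h (by omega)
  have hw0 : 0 < G.w u := by linarith
  have hv0 : 0 ≤ G.v := by rw [hv]; exact hsl0.le
  have hv1 : G.v ≤ 1 := by rw [hv]; exact hsl1.le
  have g := gau_gam (μ := μ) (s := s) Γ
  have hΛ : 0 ≤ |lam μ s| := abs_nonneg _
  -- the rows
  have r1 := b98_T (Γ := Γ) (κ := κ) hF
  have r2 := rl_le_b98 (Γ := Γ) (G := G) (P := P) (u := u) (κ := κ)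
  have r3 := ra_pos98 (G := G) (u := u) (κ := κ)
  have r4 := ra_le_rl98 (Γ := Γ) (G := G) (P := P) (u := u) (κ := κ)
  have r5 : rl98 Γ G P u κ = G.ra u κ - 1 + 5 * P.n u := rfl
  have r6 : rf98 Γ G P u κ = rl98 Γ G P u κ + 1 := rfl
  have r7 : P.n u ≤ G.T u := by
    have := hF
    unfold Fit98 ln98 at this
    omega
  -- the force
  obtain ⟨r, hr⟩ : ∃ r, r = E u / G.w u := ⟨_, rfl⟩
  have hrw : r * G.w u = E u := by rw [hr]; field_simp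
  have hr0 : 0 < r := by rw [hr]; positivity
  have hr1 : r ≤ 1 / 2 := by
    rw [hr, div_le_div_iff₀ hw0 (by norm_num)]
    linarith
  have hh1 : |Γ.h| ≤ c / 8 * r := by
    have : |Γ.h| * G.w u ≤ c / 8 * r * G.w u := by rw [mul_assoc, hrw]; exact hh
    exact le_of_mul_le_mul_right this hw0
  have hcr : 0 ≤ c * r := by positivity
  have hh8 : |Γ.h| ≤ 1 / 8 := by
    have := mul_le_mul_of_nonneg_right (show c / 8 ≤ 1 / 8 by linarith) hr0.le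
    linarith
  -- the totals
  have U0 : ∀ η ∈ UpS98 μ s c Γ G P R u κ, η ∈ Up22 μ s (hc μ s c (G.T u)) (V₁ * EE μ s (G.T u))
      (c / 16 * (EE μ s (G.T u) / wd μ s (G.T u))) (lo52 μ s (pt98 G u κ (G.ra u κ - 1))) (G.ra u κ - 1) (rf98 Γ G P u κ - 1) := by
    intro η hη
    rw [← hE, ← hw, ← hVs, ← hsV]
    refine upS_22 (o := pt98 G u κ (G.ra u κ - 1)) (N := rl98 Γ G P u κ - (G.ra u κ - 1)) le_rfl ?_ hη
    show ((rf98 Γ G P u κ - 1 : ℕ) : ℤ) ≤ ((G.ra u κ - 1 : ℕ) : ℤ) + ((rl98 Γ G P u κ - (G.ra u κ - 1) : ℕ) : ℤ)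
    omega
  have ho : (pt98 G u κ (G.ra u κ - 1)).2 = ⌊G.ctr u κ + G.v * (((pt98 G u κ (G.ra u κ - 1)).1 : ℤ) : ℝ)⌋ := by
    show co98 G u κ (G.ra u κ - 1) = ⌊G.ctr u κ + G.v * ((((G.ra u κ - 1 : ℕ) : ℤ)) : ℝ)⌋
    unfold co98
    push_cast
    rfl
  -- the strip of the early ratio
  have hbk : G.kw * G.w u + 2 ≤ (R2 - 1) * G.w u := by
    rw [hkw']
    have := mul_le_mul_of_nonneg_right (show kw + 1 ≤ R2 - 1 by linarith [N.R2k]) hw0.le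
    linarith
  have hb0 : 0 ≤ (R2 - 1) * G.w u := mul_nonneg (by linarith [N.R2k]) hw0.le
  have Ki : ∀ η ∈ UpS98 μ s c Γ G P R u κ, η ∈ KiB Γ G (gam μ s Γ) (R2 - 1) (Real.exp ((2 * V₁ + Ck) * E u))
      (Real.exp ((2 * V₁ + Ck - c / 2 * (R2 - 1)) * E u)) u κ (G.ra u κ - 1) (rf98 Γ G P u κ) := by
    intro η hη
    rw [hE]
    exact H N.V0 hs hv hw hkw' (by rw [← hE, ← hw]; exact hh) hT1 (by linarith [N.R2k]) g (by omega)
      (Ki52.blk_len (G := G) (u := u) (κ := κ) le_rfl (by omega)) ho (U0 η hη)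
  have Lo : ω' ∈ LoB Γ G (gam μ s Γ) (R2 - 1) (U₁ * E u) u κ (G.ra u κ - 1) (rf98 Γ G P u κ) := by
    refine lw18_lob hs hv g hv0 hv1 h0 (by omega) (by omega) (by omega) N.Re0 ?_ ?_ (KG98.loE (L98.kg hω'))
    · have := mul_le_mul_of_nonneg_right (show R.Re + 1 ≤ R2 - 1 by linarith [N.R2e]) hw0.le
      linarith
    · rw [hkw', ← hE]
      have e1 : |Γ.h| * (R.Re * G.w u + kw * G.w u + 3) = (|Γ.h| * G.w u) * (R.Re + kw) + 3 * |Γ.h| := by ring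
      have e2 : |Γ.h * sl μ s| ≤ |Γ.h| := by
        rw [abs_mul, abs_of_pos hsl0]
        exact mul_le_of_le_one_right (abs_nonneg _) hsl1.le
      have e3 := mul_le_mul_of_nonneg_right hh (show 0 ≤ R.Re + kw by linarith [N.Re0])
      have e4 := mul_le_mul_of_nonneg_right N.U (show 0 ≤ E u by linarith)
      have e5 : |lam μ s| ≤ |lam μ s| * E u := le_mul_of_one_le_right hΛ hE1
      rw [e1]
      linarith
  have hQ2 : ω ∈ TmB Γ G (gam μ s Γ) (R2 - 1) ((sgm * R2 + 1) * E u) u κ (G.ra u κ - 1) (rf98 Γ G P u κ) :=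
    tmB_sub le_rfl (by omega) (ouT_tm1 (b := R2 - 1) (by linarith) hsg hω2)
  have hSt : ω ∈ StB G (R2 - 1) (υ * E u) u κ (rf98 Γ G P u κ) := by
    have h1 := XO98.stf (Lv98.xo hω)
    rw [hUw] at h1
    exact stB_mono (by linarith [N.R2b]) h1
  have hR0 := N.R2k
  have hRo : Ro (wt ω) (wt (spl (rf98 Γ G P u κ) ω' ω)) Γ.p Γ.N (Bk G u κ (G.ra u κ - 1) (rf98 Γ G P u κ)) (Real.exp (d₁ * E u)) := by
    have a1 : 0 ≤ sgm * R2 := mul_nonneg N.sgm0 (by linarith)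
    have a2 : 0 ≤ 2 * V₁ + Ck := by linarith [N.V0]
    refine gu37 (b := R2 - 1) (Q := (sgm * R2 + 1) * E u) (Uw := υ * E u) (U₁ := U₁ * E u) (al := (2 * V₁ + Ck) * E u)
      (q := (sgm * R2 + 1 + υ) * E u) g.pos hv0 hv1 hbk hb0 (by omega) (by omega) (fun k y hk hB => heq_blk h0 heq k y hk hB)
      (mul_nonneg a2 (by linarith)) (mul_nonneg (by linarith) (by linarith)) (mul_nonneg N.υ0 (by linarith)) (by linarith)
      (mul_nonneg N.U0 (by linarith)) le_rfl (Real.exp_pos _).le ?_ ?_ (Ki ω (KG98.upS (Lv98.kg hω))) hQ2 hSt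
      (Ki ω' (KG98.upS (L98.kg hω'))) Lo
    · rw [← Real.exp_add]
      have a3 := mul_le_mul_of_nonneg_right N.X (show 0 ≤ E u by linarith)
      have a4 : Real.exp ((2 * V₁ + Ck - c / 2 * (R2 - 1)) * E u + (1 + (2 * V₁ + Ck) * E u + 5 * ((sgm * R2 + 1 + υ) * E u) + U₁ * E u)) ≤
          Real.exp (-1) := Real.exp_le_exp.2 (by linarith)
      refine a4.trans ?_
      have a5 := Real.add_one_le_exp (1 : ℝ)
      rw [Real.exp_neg, inv_eq_one_div]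
      exact one_div_le_one_div_of_le (by norm_num) (by linarith)
    · have a3 := mul_le_mul_of_nonneg_right N.d (show 0 ≤ E u by linarith)
      linarith
  -- the slab
  have hrow : ∀ k y, k < G.ra u κ → wt ω' k y = wt ω k y := fun k y hk => heq k y fun hb => by
    have := bw_row h0 hb
    omega
  refine gs37 (a := G.ra u κ - 1) (n := 5 * P.n u) (B := Bk G u κ (G.ra u κ - 1) (rf98 Γ G P u κ)) (fun c' hc' => hc'.2.1) (Real.exp_pos _).le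
    (Real.exp_pos _).le (Real.exp_pos _) (fun k y hk => hrow k y (by omega)) hRo (fun x hx => ?_) fun x hx => ?_
  · -- `gf`
    have hx' : (R1 - 1) * G.w u < |G.lat (G.ra u κ - 1, x) - G.ctr u κ| := not_le.1 hx
    have hT1' : ω ∈ TmB Γ G (gam μ s Γ) (R1 - 1) ((sgm * R1 + 1) * E u) u κ (G.ra u κ - 1) (G.re u κ) :=
      ouT_tm1 (b := R1 - 1) (by linarith) hsg hω1
    have hU : ω' ∈ UpS μ s (hc μ s c (G.T u)) (V₁ * E u + c / 16 * r * 1) (c / 16 * r) (fun k x => G.lat (k, x) - G.ctr u κ)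
        (G.ra u κ - 1) (rl98 Γ G P u κ) := by
      have h1 := U0 ω' (KG98.upS (L98.kg hω'))
      rw [up22_UpS, ← hE, ← hw, ← hr] at h1
      exact UpS_ref (by positivity) (fun k x => lo_lat hv ho k x) h1
    have hR1 := N.R1k
    have hR1m := N.R1m
    have hst : hc μ s c (G.T u) = c * r := by
      unfold hc
      rw [← hE, ← hw, hr]
      ring
    have key := gf_spl73 (a₀ := G.ra u κ - 1) (a := rl98 Γ G P u κ) (Mo := Mo) (τ := c / 2 * r) (A := (R1 - 1) * G.w u)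
      (Km := Km * G.w u) hs hv hv0 hv1 g hU (by positivity) (by positivity) (by rw [hst]; linarith) hT1' (by omega) (by omega) heq hMo
      (mul_le_mul_of_nonneg_right (by linarith) hw0.le) (by
        rw [hkw']
        have := mul_le_mul_of_nonneg_right (show kw + 2 ≤ R1 - 1 by linarith) hw0.le
        linarith) (by linarith) (k := G.ra u κ - 1) (y := x) le_rfl (by omega) hx'
    refine key.trans (mul_le_mul_of_nonneg_right ?_ (bW_pos Γ ω _ _).le)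
    have h4 : (4 : ℝ) ≤ Real.exp 2 := by
      have h5 := Real.add_one_le_exp (1 : ℝ)
      have h6 : Real.exp 2 = Real.exp 1 * Real.exp 1 := by rw [← Real.exp_add]; norm_num
      rw [h6]
      nlinarith
    refine (mul_le_mul_of_nonneg_right h4 (Real.exp_pos _).le).trans ?_
    rw [← Real.exp_add]
    refine Real.exp_le_exp.2 ?_
    have e1 : c / 16 * r * ((R1 - 1) * G.w u) = c / 16 * (R1 - 1) * (r * G.w u) := by ring
    have e2 : c / 2 * r * ((R1 - 1) * G.w u - 1 - Km * G.w u) = c / 2 * (R1 - 1) * (r * G.w u) - c / 2 * r - c / 2 * Km * (r * G.w u) := by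
      ring
    rw [e1, e2, hrw]
    have e3 := mul_le_mul_of_nonneg_right N.z (show 0 ≤ E u by linarith)
    have e4 : c * r ≤ c * E u := mul_le_mul_of_nonneg_left (by linarith) hc0.le
    linarith
  · -- `gl`
    have hx' : |G.lat (G.ra u κ - 1, x) - G.ctr u κ| ≤ bS * G.w u + 1 := hx
    have hbS := N.R2s
    have hbS0 := N.bS0
    have hbw : (bS + 2) * G.w u ≤ R2 * G.w u := mul_le_mul_of_nonneg_right hbS hw0.le
    have hbw0 : 0 ≤ bS * G.w u := mul_nonneg hbS0 hw0.le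
    obtain ⟨v, hvd⟩ : ∃ v, v = co98 G u κ (rl98 Γ G P u κ) := ⟨_, rfl⟩
    have hvl : |G.lat (rl98 Γ G P u κ, v) - G.ctr u κ| ≤ 1 := by rw [hvd]; exact lat_co _
    have l1 : ∀ (k : ℕ) (y : ℤ), |lat16 μ s (pt98 G u κ (G.ra u κ - 1)) (((k : ℤ), y) : Pt)| ≤ |G.lat (k, y) - G.ctr u κ| + 1 :=
      fun k y => lo_lat hv ho k y
    have hL := (L98.gt hω').1.1.1.1 x v (by
        refine (l1 (G.ra u κ - 1) x).trans ?_
        linarith) (by
        have e : ((pt98 G u κ (ag98 Γ G P u κ)).1 + ((5 * P.n u : ℕ) : ℤ), v) = (((rl98 Γ G P u κ : ℕ) : ℤ), v) := by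
          rw [rl_eq98]
          push_cast
          rfl
        rw [e]
        refine (l1 (rl98 Γ G P u κ) v).trans ?_
        linarith)
    obtain ⟨gg, hg, hgh⟩ : ∃ gg : ℝ, ((gg = Γ.h ∧ G.ra u κ - 1 + 5 * P.n u ≤ Γ.M) ∨ (gg = 0 ∧ Γ.M ≤ G.ra u κ - 1)) ∧ |gg| ≤ |Γ.h| := by
      rcases noM98 (L98.nosw hω') with h1 | h1
      · exact ⟨0, Or.inr ⟨rfl, h1⟩, by rw [abs_zero]; exact abs_nonneg _⟩
      · exact ⟨Γ.h, Or.inl ⟨rfl, by omega⟩, le_rfl⟩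
    have hlat : ((v - x : ℤ) : ℝ) - sl μ s * ((5 * P.n u : ℕ) : ℝ) = (G.lat (rl98 Γ G P u κ, v) - G.ctr u κ) -
        (G.lat (G.ra u κ - 1, x) - G.ctr u κ) := by
      unfold Gm.lat
      rw [r5, hv]
      push_cast
      ring
    have key := gl37 (μ := μ) (s := s) (ω := ω) (ω' := ω') (Mi := Mi) (v₀ := v) (z := x) (Qn := P.Q * E u) (X := (sgm * R2 + 1) * E u)
      (K := c / 8 * (bS + 1) * E u) hs (a := G.ra u κ - 1) (n := 5 * P.n u) (by omega) hg (fun y => hrow _ y (by omega))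
      (by rw [hvd]; exact hMi) ?_ ?_ ?_
    · refine le_trans (mul_le_mul_of_nonneg_right (Real.exp_le_exp.2 ?_) (bW_pos Γ ω _ _).le) key
      have := mul_le_mul_of_nonneg_right N.q (show 0 ≤ E u by linarith)
      linarith
    · have e1 : Real.exp (-(P.Q * E u)) ≤ Real.exp (-(P.Q * EE μ s (P.n u))) := by
        refine Real.exp_le_exp.2 ?_
        have := EE_mono (μ := μ) (s := s) r7
        rw [hE]
        have := mul_le_mul_of_nonneg_left this N.Qg0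
        linarith
      refine e1.trans (hL.trans ((WR_le_W _ _ _ _ _).trans (le_of_eq ?_)))
      refine W_dep_rows (μ := μ) (s := s) ((((G.ra u κ - 1 : ℕ) : ℤ), x) : Pt) (5 * P.n u) (v - x) fun p hp => ?_
      unfold spl
      have h2 : p.1 ≤ ((G.ra u κ - 1 : ℕ) : ℤ) + ((5 * P.n u : ℕ) : ℤ) := hp.2
      rw [if_pos (by push_cast at h2 ⊢; omega)]
    · have h1 := hω2 (G.ra u κ - 1 + 5 * P.n u, v) ⟨by simp only; omega, by simp only; omega, ?_⟩ (G.ra u κ - 1, x)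
        ⟨by simp only; omega, by simp only; omega, ?_⟩
      · refine h1.trans (mul_le_mul_of_nonneg_right (Real.exp_le_exp.2 (by linarith)) (Ou37.bn_pos _ _ _).le)
      · rw [← r5]
        exact hvl.trans (by linarith)
      · exact hx'.trans (by linarith)
    · rw [hlat, abs_mul]
      have e1 := (abs_sub (G.lat (rl98 Γ G P u κ, v) - G.ctr u κ) (G.lat (G.ra u κ - 1, x) - G.ctr u κ))
      have e2 : |gg| * |G.lat (rl98 Γ G P u κ, v) - G.ctr u κ - (G.lat (G.ra u κ - 1, x) - G.ctr u κ)| ≤ |Γ.h| * (bS * G.w u + 2) :=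
        mul_le_mul hgh (by linarith) (abs_nonneg _) (abs_nonneg _)
      refine e2.trans ?_
      have e3 : |Γ.h| * (bS * G.w u + 2) ≤ |Γ.h| * G.w u * (bS + 1) := by
        have := mul_le_mul_of_nonneg_left (show (2 : ℝ) ≤ G.w u by linarith) (abs_nonneg Γ.h)
        linarith
      have e4 := mul_le_mul_of_nonneg_right hh (show 0 ≤ bS + 1 by linarith)
      linarith

end

end Pool.Agent.W_7d29a1_C1.Gs37
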