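import Pool.Agent.W_7d29a1_C1.WqS98
import Pool.Agent.W_7d29a1_C1.ExM22
import Pool.Agent.W_7d29a1_C1.TamO20
import Pool.Agent.W_7d29a1_C1.GsC37

/-!
MP_7d29a1_pr, [C1] attractor route, SEP: THE FIELD `exc` OF `WQ28` (`ExP98`) AT ONE WINDOW. (helper22; second hand of helper9, helper52,
helper15)

From the mouth out of the column of targets with the new content. Last visit of the strip `|lat| ≤ (R1 - 1) w` (`ExM22`): outside of it the
weights are old; the masses of the two contents differ there by `exp (Cr E)` (`ro22`, pointwise form of helper98's `ro98`); from the border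
the old content pays `kb` (upper kernels of all the starts, profile of `profO20` at `rc`, `OuT` at `R1`).

* `ro22` : the ratio at one window;
* **`exp22`** : `ExP98` for every `TF ⊆ TP98`, numbers `ExN22`: `V₁, .. | R1 | Cr | zx | kb` last and linear.
-/

set_option autoImplicit false

namespace Pool.Agent.W_7d29a1_C1.Ex22

open Finset MeasureTheory Filter
open Pool.Agent.W_7d29a1_F hiding Bw G
open Pool.Agent.W_7d29a1_h4g Pool.Agent.W_7d29a1_HS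
open Pool.Agent.W_7d29a1_H hiding ex gg
open Pool.Agent.W_7d29a1_C1.K91 (wt wt_pos)
open Pool.Agent.W_7d29a1_C1.K91P (bw bw_pos)
open Pool.Agent.W_7d29a1_C1.U16 (ker ker_nonneg lat16)
open Pool.Agent.W_7d29a1_C1.H60
open Pool.Agent.W_7d29a1_C1.H75 (hc)
open Pool.Agent.W_7d29a1_C1.G37 (Gm)
open Pool.Agent.W_7d29a1_C1.S71 (gl gl_of_mem gl_of_not_mem)
open Pool.Agent.W_7d29a1_C1.Sy78 (sp lat_win lat_succ)
open Pool.Agent.W_7d29a1_C1.O22 (Bw)
open Pool.Agent.W_7d29a1_C1.Rt22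
open Pool.Agent.W_7d29a1_C1.RB22
open Pool.Agent.W_7d29a1_C1.Up52 (Up22 lo52)
open Pool.Agent.W_7d29a1_C1.Ki52 (gau_gam up22_UpS lo_lat)
open Pool.Agent.W_7d29a1_C1.P24 (Ce24 mem_Ce24)
open Pool.Agent.W_7d29a1_C1.SD53
open Pool.Agent.W_7d29a1_C1.MM28 (Fb28)
open Pool.Agent.W_7d29a1_C1.D98
open Pool.Agent.W_7d29a1_C1.Q49

noncomputable section

attribute [local instance 10] Classical.propDecidable

variable {μ : Measure ℝ} {s c C : ℝ} {n₀ : ℕ}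

/-! ### The ratio at one window -/

/-- **THE RATIO AT ONE WINDOW** (helper98's `ro98`, pointwise). -/
theorem ro22 [IsProbabilityMeasure μ] (h : In μ s c C n₀) {kw : ℝ} (hkw : 0 ≤ kw) : ∃ Ck : ℝ, 0 < Ck ∧ ∃ n₁ : ℕ, 1 ≤ n₁ ∧
    ∀ {b al U₁ Uw V₁ Re Qe R₁ x₁ Cr : ℝ}, RoC41 c kw Ck Cr b al U₁ Uw V₁ Re Qe R₁ x₁ →
      ∀ {Γ : Cx} {G : Gm} {P : Nm98} {E : ℕ → ℝ} {u : ℕ} {κ : ℤ × ℤ} {ω η : Env}, Γ.s = s → G.v = sl μ s →
        G.kw = kw → n₁ ≤ G.T u → G.w u = wd μ s (G.T u) → |Γ.h| * wd μ s (G.T u) ≤ c / 8 * EE μ s (G.T u) → Fit98 G P u →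
        E u = EE μ s (G.T u) → 0 ≤ G.rcc u κ → G.re u κ ≤ Γ.N →
        ω ∈ LvA98 μ s c Γ G P (nr98 μ s c G b al U₁ Uw V₁ Re Qe) u κ → ω ∈ Ou37.OuT μ s Γ G E R₁ x₁ (E u / 16) u κ →
        G.R u κ η ω ∈ LuA98 μ s c Γ G P (nr98 μ s c G b al U₁ Uw V₁ Re Qe) u κ →
        Ro (wt ω) (wt (G.R u κ η ω)) Γ.p Γ.N (Bw G u κ) (Real.exp (Cr * E u)) := by
  obtain ⟨Ck, hCk, n₂, hn₂, HK⟩ := kiS98 h hkw
  obtain ⟨n₃, hn₃, HL⟩ := loS98 h
  obtain ⟨n₄, hn₄⟩ := eventually_atTop.1 (h.tE.eventually_ge_atTop 1)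
  refine ⟨Ck, hCk, max n₂ (max n₃ (max n₄ 2)), hn₂.trans (le_max_left _ _), ?_⟩
  intro b al U₁ Uw V₁ Re Qe R₁ x₁ Cr N Γ G P E u κ ω η hs hv hk hT' hwu hh hfit hE h0 he hω hO hη
  obtain ⟨hV, hRe, hQe, hUw, hx₁, hbk, hbR, hbR₁, hal, hU₁, hnum, hCr⟩ := N
  have hTn₂ : n₂ ≤ G.T u := (le_max_left _ _).trans hT'
  have hTn₃ : n₃ ≤ G.T u := ((le_max_left _ _).trans (le_max_right _ _)).trans hT'
  have hTn₄ : n₄ ≤ G.T u := (((le_max_left _ _).trans (le_max_right _ _)).trans (le_max_right _ _)).trans hT'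
  have hT2 : 2 ≤ G.T u := (((le_max_right _ _).trans (le_max_right _ _)).trans (le_max_right _ _)).trans hT'
  have hE1 : 1 ≤ E u := by rw [hE]; exact hn₄ _ hTn₄
  have hw2 : 2 * E u ≤ G.w u := by rw [hwu, hE]; exact wd_ge_one h (by omega)
  have hw2' : 2 ≤ G.w u := by linarith
  have hw0 := G.w_pos u
  have hv0 : 0 ≤ G.v := by rw [hv]; exact h.sl_pos.le
  have hv1 : G.v ≤ 1 := by rw [hv]; exact h.sl_lt.le
  have hb0 : 0 ≤ b := by linarith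
  have hbw : G.kw * G.w u + 2 ≤ b * G.w u := by
    have h1 := mul_le_mul_of_nonneg_right hbk hw0.le
    rw [hk]
    have e : (kw + 1) * G.w u = kw * G.w u + G.w u := by ring
    linarith
  have hbr : b * G.w u + 1 ≤ R₁ * G.w u := by
    have h1 := mul_le_mul_of_nonneg_right hbR₁ hw0.le
    have e : (b + 1) * G.w u = b * G.w u + G.w u := by ring
    linarith
  have hra : G.ra u κ ≤ rf98 Γ G P u κ := by
    have h1 := ra_le_rl98 (Γ := Γ) (G := G) (P := P) (u := u) (κ := κ)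
    unfold rf98
    omega
  have hre : rf98 Γ G P u κ ≤ G.re u κ := by
    have h1 := b98_T (Γ := Γ) (κ := κ) hfit
    have h2 := rl_le_b98 (Γ := Γ) (G := G) (P := P) (u := u) (κ := κ)
    unfold rf98
    omega
  obtain ⟨k1, k2, -⟩ := HK (V₁ := V₁) (b := b) (Γ := Γ) (G := G) (P := P) (R := nr98 μ s c G b al U₁ Uw V₁ Re Qe) (u := u) (κ := κ)
    hV hs hv hwu hk hh hTn₂ hbk he hfit rfl rfl
  obtain ⟨l1, -, -⟩ := HL (b := b) (Γ := Γ) (G := G) (P := P) (R := nr98 μ s c G b al U₁ Uw V₁ Re Qe) (u := u) (κ := κ)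
    hs hv h0 hwu hh hTn₃ hRe hbR he hfit
  rw [← hE] at k1 k2 l1
  have hA : Real.exp ((2 * V₁ + Ck) * E u) ≤ Real.exp (al * E u) :=
    Real.exp_le_exp.2 (mul_le_mul_of_nonneg_right hal (by linarith))
  have hX : Real.exp ((2 * V₁ + Ck - c / 2 * b) * E u) ≤ Real.exp ((al - c / 2 * b) * E u) :=
    Real.exp_le_exp.2 (mul_le_mul_of_nonneg_right (by linarith) (by linarith))
  have hL : (Qe + c / 8 * (Re + G.kw) + 1) * E u ≤ U₁ * E u := mul_le_mul_of_nonneg_right (by rw [hk]; exact hU₁) (by linarith)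
  have hOm : ω ∈ LvR Γ G (Ou37.gam μ s Γ) b (Real.exp (al * E u)) (Real.exp ((al - c / 2 * b) * E u)) (Uw * E u) u κ (rf98 Γ G P u κ) :=
    LvA_R98 (k1.trans (Ki52.KiB_mono gam_pos98 hA hX)) (k2.trans (Ki52.KiB_mono gam_pos98 hA hX))
      (fun e => stB_sub98 (le_refl _) (by rw [hE]; exact le_refl _)) hω
  have hTm := outT_tm98 (b := b) hbr hO
  have hNew : G.R u κ η ω ∈ LR Γ G (Ou37.gam μ s Γ) b (Real.exp (al * E u)) (Real.exp ((al - c / 2 * b) * E u)) (U₁ * E u) u κ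
      (rf98 Γ G P u κ) := by
    have h1 := LuA_R98 (R := nr98 μ s c G b al U₁ Uw V₁ Re Qe) (Γ := Γ) (P := P) (u := u) (κ := κ) (c := c) (μ := μ) (s := s) (G := G)
      (by
        show UpS98 μ s c Γ G P (nr98 μ s c G b al U₁ Uw V₁ Re Qe) u κ ⊆ KiB Γ G (Ou37.gam μ s Γ) b (Real.exp (al * EE μ s (G.T u)))
          (Real.exp ((al - c / 2 * b) * EE μ s (G.T u))) u κ (G.ra u κ - 1) (rf98 Γ G P u κ)
        rw [← hE]
        exact k1.trans (Ki52.KiB_mono gam_pos98 hA hX))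
      (by
        show LoE98 μ s Γ G P (nr98 μ s c G b al U₁ Uw V₁ Re Qe) u κ ⊆ LoB Γ G (Ou37.gam μ s Γ) b (U₁ * EE μ s (G.T u)) u κ (G.ra u κ - 1)
          (rf98 Γ G P u κ)
        rw [← hE]
        exact l1.trans (loB_mono98 gam_pos98 hL)) hη
    have h2 : G.R u κ η ω ∈ LR Γ G (Ou37.gam μ s Γ) b (Real.exp (al * EE μ s (G.T u))) (Real.exp ((al - c / 2 * b) * EE μ s (G.T u)))
      (U₁ * EE μ s (G.T u)) u κ (rf98 Γ G P u κ) := h1
    rwa [← hE] at h2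
  have hc0 := h.c0
  have hU₁0 : 0 ≤ U₁ := by
    have : 0 ≤ c / 8 * (Re + kw) := by positivity
    linarith
  have hal0 : 0 ≤ al := by linarith
  obtain ⟨q, hq⟩ : ∃ q : ℝ, q = x₁ * E u + E u / 16 + Uw * E u := ⟨_, rfl⟩
  have key := (two_pair (d := 2 + 2 * (al * E u) + 5 * q + U₁ * E u) gam_pos98 hv0 hv1 h0 hbw (mul_nonneg hb0 hw0.le) hra hre he
    (mul_nonneg hal0 (by linarith)) (add_nonneg (mul_nonneg hx₁ (by linarith)) (by linarith : 0 ≤ E u / 16)) (mul_nonneg hUw (by linarith))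
    (by rw [hq]) (mul_nonneg hU₁0 (by linarith)) le_rfl (Real.exp_pos _).le ?_ le_rfl hTm hOm hNew).2.2
  · refine key.mono (wt_pos _) (wt_pos _) Γ.p_pos (Real.exp_le_exp.2 ?_)
    have h1 := mul_le_mul_of_nonneg_right hCr (show (0 : ℝ) ≤ E u by linarith)
    have e : 2 * (2 + 2 * al + 5 * (x₁ + 1 / 16 + Uw) + U₁) * E u =
        4 * E u + 4 * (al * E u) + 10 * (x₁ * E u + E u / 16 + Uw * E u) + 2 * (U₁ * E u) := by ring
    rw [hq]
    linarith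
  · rw [← Real.exp_add]
    have e1 : (al - c / 2 * b) * E u + (1 + al * E u + 5 * q + U₁ * E u) ≤ -1 := by
      have h1 := mul_le_mul_of_nonneg_right hnum (show (0 : ℝ) ≤ E u by linarith)
      have e : (2 * al + 5 * (x₁ + 1 / 16 + Uw) + U₁ + 2) * E u =
          2 * (al * E u) + 5 * (x₁ * E u + E u / 16 + Uw * E u) + U₁ * E u + 2 * E u := by ring
      have e' : (al - c / 2 * b) * E u = al * E u - c / 2 * b * E u := by ring
      rw [hq, e']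
      linarith
    have e2 : Real.exp (-1) ≤ 1 / 2 := by
      rw [Real.exp_neg, inv_le_comm₀ (Real.exp_pos _) (by norm_num)]
      have := Real.add_one_le_exp (1 : ℝ)
      norm_num at this ⊢
      linarith
    exact (Real.exp_le_exp.2 e1).trans e2

/-! ### The field `exc` -/

/-- **The numbers**: `U` = the constant of `profO20`; `kb` last and linear. -/
structure ExN22 (c U V₁ sgm rc R1 Cr kb zx : ℝ) : Prop where
  sgm0 : 0 ≤ sgm
  sgm1 : sgm ≤ c / 16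
  rc5 : 5 ≤ rc
  R2 : 2 ≤ R1
  zx0 : 0 ≤ zx
  line : 2 * V₁ + 7 + U + sgm * rc + 2 * (sgm * R1) + 3 / 16 * c * R1 + 2 * Cr + zx ≤ 3 / 8 * c * (kb - R1)

theorem mem_bx22 {Γ : Cx} {A : Set ℤ} {v : ℤ} (h : v ∈ bx Γ A) : v ∈ A := by
  unfold bx at h
  exact (mem_filter.1 h).2

/-- The numbers. -/
theorem num22 {c U V₁ sgm rc R1 b Cr kb zx E w r x₁ : ℝ} (hc0 : 0 ≤ c) (hc1 : c ≤ 1) (hrw : r * w = E) (hr0 : 0 ≤ r) (hr1 : r ≤ 1 / 2)
    (hE1 : 1 ≤ E) (hs0 : 0 ≤ sgm) (hs1 : sgm ≤ c / 16) (hb : b = R1 - 1) (hx₁ : x₁ = (c / 16 + sgm) * r)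
    (hline : 2 * V₁ + 7 + U + sgm * rc + 2 * (sgm * R1) + 3 / 16 * c * R1 + 2 * Cr + zx ≤ 3 / 8 * c * (kb - R1))
    (hk : 0 ≤ kb * w - 1 - b * w) :
    (2 * (V₁ * E + c / 16 * r * 1 + c / 16 * r * (b * w)) + (U + sgm * rc + sgm * R1 + 1 / 16) * E + x₁ * (b * w) -
      (c / 2 * r - x₁) * (kb * w - 1 - b * w)) + 2 * (Cr * E) + 2 * E ≤ -zx * E := by
  have e1 : c / 16 * r * (b * w) = c / 16 * b * E := by rw [← hrw]; ring
  have e2 : x₁ * (b * w) = (c / 16 + sgm) * b * E := by rw [hx₁, ← hrw]; ring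
  have e3 : (c / 2 * r - c / 8 * r) * (kb * w - 1 - b * w) = 3 / 8 * c * (kb - b) * E - 3 / 8 * (c * r) := by
    rw [← hrw]
    ring
  have hxτ : x₁ ≤ c / 8 * r := by
    rw [hx₁]
    exact mul_le_mul_of_nonneg_right (by linarith) hr0
  have e4 : (c / 2 * r - c / 8 * r) * (kb * w - 1 - b * w) ≤ (c / 2 * r - x₁) * (kb * w - 1 - b * w) :=
    mul_le_mul_of_nonneg_right (by linarith) hk
  have e5 : c * r ≤ 1 * (1 / 2) := mul_le_mul hc1 hr1 hr0 zero_le_one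
  have e6 := mul_le_mul_of_nonneg_right hline (show 0 ≤ E by linarith)
  have e7 : (c / 16 + sgm) * b = c / 16 * R1 + sgm * R1 - (c / 16 + sgm) := by rw [hb]; ring
  have e8 : 3 / 8 * c * (kb - b) = 3 / 8 * c * (kb - R1) + 3 / 8 * c := by rw [hb]; ring
  have e9 : c / 16 * b = c / 16 * R1 - c / 16 := by rw [hb]; ring
  have p1 : 0 ≤ (c / 16 + sgm) * E := by positivity
  have p2 : 0 ≤ 3 / 8 * c * E := by positivity
  have p3 : 0 ≤ c / 16 * E := by positivity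
  rw [e1, e2, e7, e9]
  rw [e3, e8] at e4
  have f1 : (2 * V₁ + 7 + U + sgm * rc + 2 * (sgm * R1) + 3 / 16 * c * R1 + 2 * Cr + zx) * E =
      2 * (V₁ * E) + 7 * E + U * E + sgm * rc * E + 2 * (sgm * R1 * E) + 3 / 16 * c * R1 * E + 2 * (Cr * E) + zx * E := by ring
  rw [f1] at e6
  have f2 : (U + sgm * rc + sgm * R1 + 1 / 16) * E = U * E + sgm * rc * E + sgm * R1 * E + 1 / 16 * E := by ring
  have f3 : (c / 16 * R1 - c / 16) * E = 1 / 16 * (c * R1 * E) - c / 16 * E := by ring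
  have f4 : (c / 16 * R1 + sgm * R1 - (c / 16 + sgm)) * E = 1 / 16 * (c * R1 * E) + sgm * R1 * E - (c / 16 + sgm) * E := by ring
  have f5 : (3 / 8 * c * (kb - R1) + 3 / 8 * c) * E = 3 / 8 * c * (kb - R1) * E + 3 / 8 * c * E := by ring
  have f6 : 3 / 16 * c * R1 * E = 3 / 16 * (c * R1 * E) := by ring
  rw [f2, f3, f4]
  rw [f5] at e4
  rw [f6] at e6
  linarith

/-- The border of the strip is off the window. -/
theorem rim_off22 {G : Gm} {u : ℕ} {κ : ℤ × ℤ} {b : ℝ} (hv0 : 0 ≤ G.v) (hv1 : G.v ≤ 1) (hb : G.kw * G.w u + 2 ≤ b * G.w u) {k : ℕ} {y : ℤ}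
    (h : (k, y) ∉ sp G u κ b ∨ (k + 1, y) ∉ sp G u κ b ∨ (k + 1, y + 1) ∉ sp G u κ b) : (k, y) ∉ Bw G u κ := by
  intro hB
  have h1 := lat_win (G := G) (u := u) (κ := κ) (k := k) (y := y) hB
  obtain ⟨h2, h3⟩ := lat_succ (z := G.ctr u κ) hv0 hv1 k y h1
  rcases h with h | h | h
  · exact h (show |G.lat (k, y) - G.ctr u κ| ≤ b * G.w u by linarith)
  · exact h (show |G.lat (k + 1, y) - G.ctr u κ| ≤ b * G.w u by linarith)
  · exact h (show |G.lat (k + 1, y + 1) - G.ctr u κ| ≤ b * G.w u by linarith)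

/-- The new content is a resampling of the old one. -/
theorem gl_R22 {G : Gm} {u : ℕ} {κ : ℤ × ℤ} {B : Set Pt} (hB : B ⊆ G.win u κ) (η ξ ω : Env) :
    gl B η (gl (G.win u κ) ξ ω) = G.R u κ (gl B η (gl (G.win u κ) ξ ω)) ω := by
  funext p
  by_cases hp : p ∈ G.win u κ
  · show _ = gl (G.win u κ) _ ω p
    exact (gl_of_mem hp _ _).symm
  · show _ = gl (G.win u κ) _ ω p
    rw [gl_of_not_mem hp _ ω, gl_of_not_mem (fun h => hp (hB h)), gl_of_not_mem hp]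

theorem exp22 [IsProbabilityMeasure μ] (h : In μ s c C n₀) (PF : ℕ) {kw : ℝ} (hkw : 0 ≤ kw) : ∃ Ck : ℝ, 0 < Ck ∧ ∃ n₁ : ℕ, 1 ≤ n₁ ∧
    ∀ q : ℝ, 0 ≤ q → ∃ U : ℝ, 0 < U ∧ ∀ {P : Pre} {N : NmF} {F : Cf98} {Γ : Cx} {G : Gm} {mt τ0 : ℕ} {E : ℕ → ℝ} {u : ℕ} {κ : ℤ × ℤ}
      {kap zx : ℝ} {T TF : Set Env}, Win52 μ s kw kap n₁ (N Γ G E) (F.nr μ s c Γ G E) Γ G mt τ0 E u κ → kap ≤ c / 8 →
      (N Γ G E).PF = PF → (N Γ G E).th = 1 / 8 → (N Γ G E).KF = 4 → (N Γ G E).qF = q → (N Γ G E).δ ≤ 2 → wd μ s ((N Γ G E).T u) ≤ G.w u →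
      RoC41 c kw Ck P.Cr (F.R1 - 1) F.al F.U₁ F.Uw F.V₁ F.Re F.Qe F.R1 (F.sgm * F.R1) →
      ExN22 c U F.V₁ F.sgm F.rc F.R1 P.Cr G.kb zx → (∀ ω ∈ T, Tc98 μ s c P N F Γ G E u κ ω) →
      TF ⊆ TP98 μ s c Γ G (N Γ G E) (F.nr μ s c Γ G E) u κ →
      ExP98 μ s c Γ G (N Γ G E) (F.nr μ s c Γ G E) u κ T TF zx := by
  obtain ⟨Ck, hCk, n₂, hn₂, HR⟩ := ro22 h hkw
  obtain ⟨n₃, hn₃, HP⟩ := TamV20.profO20 h PF (θ := 1 / 8) (K := 4) le_rfl (by norm_num)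
  obtain ⟨n₄, hn₄⟩ := GL18.log18 h
  refine ⟨Ck, hCk, max n₂ (max n₃ (max n₄ 2)), hn₂.trans (le_max_left _ _), fun q hq => ?_⟩
  have hc0 := h.c0
  have hc1 := h.c1
  obtain ⟨U, hU, HP⟩ := HP q (c / 16) 1 hq (by linarith) (by norm_num)
  refine ⟨U, hU, ?_⟩
  intro P N F Γ G mt τ0 E u κ kap zx T TF W hkap hPF hth hKF hqF hδ1 hwr hRC hN hT hTF ω hω η hη i hi1 hi2 v hv
  obtain ⟨hω1, ω₀, hω₀, ξ, rfl⟩ := hω
  obtain ⟨Q, hQ⟩ : ∃ Q : Nm98, Q = N Γ G E := ⟨_, rfl⟩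
  rw [← hQ] at hPF hth hKF hqF hδ1 hwr hTF hη hi1 hi2 hv W ⊢
  have tc := hT ω₀ hω₀
  have tlv := tc.lv
  have ttp := tc.tp
  rw [← hQ] at tlv ttp
  have hTu := W.hT u
  have hTn2 : n₂ ≤ G.T u := (le_max_left _ _).trans hTu
  have hTn3 : n₃ ≤ G.T u := ((le_max_left _ _).trans (le_max_right _ _)).trans hTu
  have hTn4 : n₄ ≤ G.T u := (((le_max_left _ _).trans (le_max_right _ _)).trans (le_max_right _ _)).trans hTu
  have hT2 : 2 ≤ G.T u := (((le_max_right _ _).trans (le_max_right _ _)).trans (le_max_right _ _)).trans hTu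
  have hE := W.hE u
  have hw := W.hw u
  have hE1 : 1 ≤ E u := by rw [hE]; exact one_le_EE _
  have hw2 : 2 * E u ≤ G.w u := by rw [hw, hE]; exact wd_ge_one h (by omega)
  have hw0 := G.w_pos u
  have hv0 := W.v0
  have hv1 := W.v1
  have hfit := W.ok.fit u W.hu
  have htilt : |Γ.h| * wd μ s (G.T u) ≤ c / 8 * EE μ s (G.T u) :=
    W.tilt.trans (mul_le_mul_of_nonneg_right hkap (EE_pos _).le)
  have g := gau_gam (μ := μ) (s := s) Γ
  -- rows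
  have r1 := b98_T (Γ := Γ) (κ := κ) hfit
  have r2 : b98 Γ G Q u κ = rl98 Γ G Q u κ + 3 * Q.T u := rfl
  have r3 := ra_le_rl98 (Γ := Γ) (G := G) (P := Q) (u := u) (κ := κ)
  have r4 := ra_pos98 (G := G) (u := u) (κ := κ)
  have r5 := G.re_sub_ra u κ
  have r6 := G.ra_le_re u κ
  have r7 : rl98 Γ G Q u κ = ag98 Γ G Q u κ + 5 * Q.n u := rfl
  have r8 := W.reN
  have r9 := G.T_pos (u - 1)
  have r10 : ag98 Γ G Q u κ = G.ra u κ - 1 := rfl
  have hi1' : rl98 Γ G Q u κ ≤ i := by omega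
  have hie : i + 1 ≤ G.re u κ - 1 := by omega
  -- the new content
  obtain ⟨ω', hω'⟩ : ∃ ω' : Env, ω' = gl (B98 Γ G Q u κ) η (gl (G.win u κ) ξ ω₀) := ⟨_, rfl⟩
  have hR' : ω' = G.R u κ ω' ω₀ := by rw [hω']; exact gl_R22 B98_sub _ _ _
  have hL : ω' ∈ LuA98 μ s c Γ G Q (F.nr μ s c Γ G E) u κ := by rw [hω']; exact toL_TP98 W.ok W.hu (hTF hω1) hη
  rw [← hω']
  have ro : Ro (wt ω₀) (wt ω') Γ.p Γ.N (Bw G u κ) (Real.exp (P.Cr * E u)) := by
    have key := HR hRC (Γ := Γ) (G := G) (P := Q) (E := E) (u := u) (κ := κ) (ω := ω₀) (η := ω') W.hs W.hv W.hk hTn2 hw htilt hfit hE W.rc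
      W.reN tlv tc.R1 (by rw [← hR']; exact hL)
    rwa [← hR'] at key
  -- the numbers
  obtain ⟨b, hb⟩ : ∃ b : ℝ, b = F.R1 - 1 := ⟨_, rfl⟩
  have hb1 : kw + 1 ≤ b := by rw [hb]; exact hRC.kb
  have hbw : G.kw * G.w u + 2 ≤ b * G.w u := by
    have h1 := mul_le_mul_of_nonneg_right hb1 hw0.le
    rw [W.hk]
    have e : (kw + 1) * G.w u = kw * G.w u + G.w u := by ring
    linarith
  have hV0 : 0 ≤ F.V₁ := hRC.V0
  have hs0 := hN.sgm0
  have hs1 := hN.sgm1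
  have hR2 := hN.R2
  have hrc := hN.rc5
  have hCr0 : 0 ≤ P.Cr := by
    have h1 := hRC.Cr_ge
    have h2 := hRC.x0
    have h3 := hRC.Uw0
    have h4 := hRC.U_ge
    have h5 := hRC.Qe0
    have h6 : 0 ≤ c / 8 * (F.Re + kw) := by
      have := hRC.Re0
      positivity
    have h7 := hRC.al_ge
    linarith
  have hline := hN.line
  have hzx := hN.zx0
  have q1 : 0 ≤ F.sgm * F.rc := mul_nonneg hs0 (by linarith)
  have q2 : 0 ≤ F.sgm * F.R1 := mul_nonneg hs0 (by linarith)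
  have q3 : 0 ≤ c * F.R1 := mul_nonneg hc0.le (by linarith)
  have hkR : 0 < G.kb - F.R1 := by
    by_contra hcon
    push Not at hcon
    have h1 := mul_nonneg hc0.le (show 0 ≤ -(G.kb - F.R1) by linarith)
    linarith
  have hkbw : b * G.w u + 2 < G.kb * G.w u := by
    have h1 : (b + 1) * G.w u < G.kb * G.w u := mul_lt_mul_of_pos_right (by rw [hb]; linarith) hw0
    have e : (b + 1) * G.w u = b * G.w u + G.w u := by ring
    linarith
  -- the far set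
  obtain ⟨S, hS⟩ : ∃ S : Set ℤ, S = {y | (i, y) ∈ Γ.rows 0 Γ.N ∧ ¬ G.Nb u κ (i, y)} := ⟨_, rfl⟩
  have hSf : ∀ y ∈ S, G.kb * G.w u - 1 ≤ |G.lat (i + 1, y) - G.ctr u κ| := by
    intro y hy
    rw [hS] at hy
    have h1 := hy.2
    have h2 : G.kb * G.w u < |G.lat (i, y) - G.ctr u κ| := by
      by_contra hcon
      push Not at hcon
      refine h1 ⟨?_, ?_, hcon⟩
      · have c1 := G.rcc_eq u κ
        have c2 := G.ra_cast W.rc
        have c3 := G.T_pos' (u - 1)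
        have c4 := G.T_pos' (u - 2)
        have c5 : ((G.ra u κ : ℤ)) ≤ (i : ℤ) + 1 := by exact_mod_cast (show G.ra u κ ≤ i + 1 by omega)
        show G.lo u κ ≤ (i : ℤ)
        linarith
      · have c2 := G.re_cast W.rc
        have c5 : (i : ℤ) + 2 ≤ (G.re u κ : ℤ) := by exact_mod_cast (show i + 2 ≤ G.re u κ by omega)
        show (i : ℤ) < G.rcc u κ + G.T u
        linarith
    have e1 : G.lat (i, y) - G.ctr u κ = (G.lat (i + 1, y) - G.ctr u κ) + G.v := by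
      unfold Gm.lat
      push_cast
      ring
    have h3 := abs_add_le (G.lat (i + 1, y) - G.ctr u κ) G.v
    rw [← e1, abs_of_nonneg hv0] at h3
    linarith
  have hSD : ∀ y ∈ S, (i + 1, y) ∉ sp G u κ b := by
    intro y hy hD
    have h1 := hSf y hy
    have h2 : |G.lat (i + 1, y) - G.ctr u κ| ≤ b * G.w u := hD
    linarith
  -- the levels
  obtain ⟨r, hr⟩ : ∃ r, r = E u / G.w u := ⟨_, rfl⟩
  have hrw : r * G.w u = E u := by rw [hr]; field_simp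
  have hr0 : 0 < r := by rw [hr]; positivity
  have hr1 : r ≤ 1 / 2 := by
    rw [hr, div_le_div_iff₀ hw0 (by norm_num)]
    linarith
  have hh1 : |Γ.h| ≤ c / 8 * r := by
    have : |Γ.h| * G.w u ≤ c / 8 * r * G.w u := by rw [mul_assoc, hrw, hw, hE]; exact htilt
    exact le_of_mul_le_mul_right this hw0
  have hst : hc μ s c (G.T u) = c * r := by
    unfold hc
    rw [← hE, ← hw, hr]
    ring
  have hlo : ∀ k x, |lo52 μ s (pt98 G u κ (rl98 Γ G Q u κ)) k x| ≤ |G.lat (k, x) - G.ctr u κ| + 1 :=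
    fun k x => lo_lat W.hv (by
      show ⌊G.ctr u κ + G.v * (rl98 Γ G Q u κ : ℝ)⌋ = ⌊G.ctr u κ + G.v * (((rl98 Γ G Q u κ : ℤ) : ℝ))⌋
      rw [Int.cast_natCast]) k x
  have hUp : ω₀ ∈ RB22.UpS μ s (c * r) (F.V₁ * E u + c / 16 * r * 1) (c / 16 * r) (fun k x => G.lat (k, x) - G.ctr u κ)
      (rl98 Γ G Q u κ) (G.re u κ - 1) := by
    have h1 := upF_98 hfit (XO98.upF (TP98.xo ttp))
    rw [up22_UpS, hst] at h1
    have h2 : RB22.UpS μ s (c * r) ((F.nr μ s c Γ G E).Vs u) ((F.nr μ s c Γ G E).sV u)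
        (lo52 μ s (pt98 G u κ (rl98 Γ G Q u κ))) (rl98 Γ G Q u κ) (G.re u κ - 1) ⊆
      RB22.UpS μ s (c * r) (F.V₁ * E u) (c / 16 * r) (lo52 μ s (pt98 G u κ (rl98 Γ G Q u κ))) (rl98 Γ G Q u κ) (G.re u κ - 1) :=
      UpS_mono (by rw [hE]; exact le_rfl) (by rw [hr, hE, hw]; exact le_rfl) le_rfl le_rfl
    exact UpS_ref (by positivity) (fun k x => hlo k x) (h2 h1)
  have hℓ : ∀ (k m : ℕ) (x z : ℤ), (fun k x => G.lat (k, x) - G.ctr u κ) (k + m) z =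
      (fun k x => G.lat (k, x) - G.ctr u κ) k x + (((z - x : ℤ) : ℝ) - sl μ s * m) := by
    intro k m x z
    simp only
    unfold Gm.lat
    rw [W.hv]
    push_cast
    ring
  -- the profile
  obtain ⟨x₁, hx₁⟩ : ∃ x₁ : ℝ, x₁ = (c / 16 + F.sgm) * r := ⟨_, rfl⟩
  obtain ⟨X, hX⟩ : ∃ X : ℝ, X = (U + F.sgm * F.rc + F.sgm * F.R1 + 1 / 16) * E u := ⟨_, rfl⟩
  have hE16 : E u / 16 ≤ E u := by linarith
  have hfar := TP98.farL ttp
  unfold FarL98 at hfar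
  rw [hPF, hth, hKF, hqF] at hfar
  have hprof : ∀ k y z, rl98 Γ G Q u κ ≤ k → k ≤ i + 1 → |G.lat (k, z) - G.ctr u κ| ≤ b * G.w u →
      bn Γ (Ou37.gam μ s Γ) ω₀ (i + 1, y) ≤ Real.exp (X + x₁ * |G.lat (i + 1, y) - G.ctr u κ|) * bn Γ (Ou37.gam μ s Γ) ω₀ (k, z) := by
    intro k y z hk1 hk2 hz
    have key := HP (Γ := Γ) (G := G) (E := E) (R := F.rc) (Q4 := F.sgm * F.rc) (sgm := F.sgm) (sg := E u / 16) (u := u) (κ := κ)
      (ω := ω₀) (N := G.re u κ - rl98 Γ G Q u κ) (i := rl98 Γ G Q u κ) (col := co98 G u κ (rl98 Γ G Q u κ)) hTn3 (by omega) W.hs W.hv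
      hw hE htilt hfar (by
        have := Gs37.lat_co (G := G) (u := u) (κ := κ) (rl98 Γ G Q u κ)
        linarith) (by
        have h1 : rl98 Γ G Q u κ ≤ G.re u κ := by omega
        push_cast [Nat.cast_sub h1]
        linarith) W.reN hs0 (by linarith) hE16 (by linarith) tc.rc.2 k (i + 1) (co98 G u κ k) y hk1 (by omega) (by
        have h1 : G.T u / 8 + 1 ≤ G.re u κ - k := by omega
        have h2 : G.T u < 8 * (G.T u / 8 + 1) := by omega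
        have h3 : (G.T u : ℝ) < 8 * ((G.T u / 8 + 1 : ℕ) : ℝ) := by exact_mod_cast h2
        have h4 : ((G.T u / 8 + 1 : ℕ) : ℝ) ≤ ((G.re u κ - k : ℕ) : ℝ) := by exact_mod_cast h1
        linarith) (by omega) (by omega) (by
        have := Gs37.lat_co (G := G) (u := u) (κ := κ) k
        linarith)
    have k2 := tc.R1 (k, z) ⟨by simp only; omega, by simp only; omega, hz.trans (by
      have : b * G.w u ≤ F.R1 * G.w u := mul_le_mul_of_nonneg_right (by rw [hb]; linarith) hw0.le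
      linarith)⟩ (k, co98 G u κ k) ⟨by simp only; omega, by simp only; omega, (Gs37.lat_co (G := G) (u := u) (κ := κ) k).trans (by
        have : 2 * G.w u ≤ F.R1 * G.w u := mul_le_mul_of_nonneg_right hR2 hw0.le
        linarith)⟩
    simp only at k2
    rw [Ou37.bn_eq, Ou37.bn_eq] at k2 key
    have k3 := key.trans (mul_le_mul_of_nonneg_left k2 (Real.exp_pos _).le)
    rw [← mul_assoc, ← Real.exp_add] at k3
    refine k3.trans (le_of_eq ?_)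
    have e1 : (U + F.sgm * F.rc + (c / 16 + F.sgm) * (|G.lat (i + 1, y) - G.ctr u κ| / G.w u)) * E u + (F.sgm * F.R1 * E u + E u / 16) =
        X + x₁ * |G.lat (i + 1, y) - G.ctr u κ| := by
      rw [hX, hx₁, hr]
      ring
    rw [e1]
    rfl
  -- the border
  obtain ⟨s₀, hs₀⟩ : ∃ s₀ : ℝ, s₀ = ((G.T u : ℝ) + 1) * (4 * Real.exp (2 * (F.V₁ * E u + c / 16 * r * 1 + c / 16 * r * (b * G.w u)) + X +
    x₁ * (b * G.w u) - (c / 2 * r - x₁) * (G.kb * G.w u - 1 - b * G.w u))) := ⟨_, rfl⟩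
  have hs₀0 : 0 ≤ s₀ := by rw [hs₀]; positivity
  have hx0 : 0 ≤ x₁ := by rw [hx₁]; positivity
  have hxτ : x₁ ≤ c / 8 * r := by
    rw [hx₁]
    exact mul_le_mul_of_nonneg_right (by linarith) hr0.le
  have hcr : 0 ≤ c * r := by positivity
  have ht1 : |Γ.h| + c / 16 * r + c / 2 * r ≤ c * r := by
    have e1 : c / 8 * r + c / 16 * r + c / 2 * r ≤ c * r := by nlinarith
    exact le_trans (by linarith only [hh1]) e1
  have ht2 : x₁ ≤ c / 2 * r := hxτ.trans (by nlinarith)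
  have ht3 : 0 ≤ c / 16 * r := by positivity
  have hieN : i + 1 ≤ Γ.N := by omega
  have hborder : ∀ k y, rl98 Γ G Q u κ ≤ k → k < i + 1 → (k, y) ∈ sp G u κ b → ((k + 1, y) ∉ sp G u κ b ∨ (k + 1, y + 1) ∉ sp G u κ b) →
      QA Γ ω₀ (i + 1) S k y ≤ s₀ * bW Γ ω₀ k y ∧ bW Γ ω₀ k y ≤ Real.exp (P.Cr * E u) * bW Γ ω' k y := by
    intro k y hk1 hk2 hD hr'
    refine ⟨?_, ro.dn k y (rim_off22 hv0 hv1 hbw (Or.inr hr'))⟩
    have hDl : |G.lat (k, y) - G.ctr u κ| ≤ b * G.w u := hD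
    have key := far22 (S := S) (ρ := G.kb * G.w u - 1) (A := b * G.w u) (x₁ := x₁) (X := X) (τ := c / 2 * r) W.hs g hUp hℓ ht3
      ht1 hx0 ht2 hk1 hk2.le hie hieN hDl hSf (fun y' _ => hprof k y' y hk1 hk2.le hDl)
    refine key.trans (mul_le_mul_of_nonneg_right ?_ (bW_pos _ _ _ _).le)
    rw [hs₀]
    refine mul_le_mul_of_nonneg_right ?_ (by positivity)
    have h1 : i + 1 - k ≤ G.T u := by omega
    have h2 : ((i + 1 - k : ℕ) : ℝ) ≤ (G.T u : ℝ) := by exact_mod_cast h1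
    linarith
  -- the start
  have hvD : (rl98 Γ G Q u κ, v) ∈ sp G u κ b := by
    have h1 : v ∈ mo98 μ s Γ G Q u κ := mem_bx22 hv
    have h2 : |(v : ℝ) - co98 G u κ (rl98 Γ G Q u κ)| ≤ Q.δ / 4 * wd μ s (Q.T u) := mem_Ce24.1 (mem_coe.1 h1)
    have h4 : Q.δ / 4 * wd μ s (Q.T u) ≤ 1 / 2 * G.w u := by
      have a1 : 0 ≤ wd μ s (Q.T u) := h.wd_nonneg _
      calc Q.δ / 4 * wd μ s (Q.T u) ≤ 1 / 2 * wd μ s (Q.T u) := mul_le_mul_of_nonneg_right (by linarith) a1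
        _ ≤ _ := by linarith
    have h5 := Gs37.lat_co (G := G) (u := u) (κ := κ) (rl98 Γ G Q u κ)
    show |G.lat (rl98 Γ G Q u κ, v) - G.ctr u κ| ≤ b * G.w u
    have e1 : G.lat (rl98 Γ G Q u κ, v) - G.ctr u κ = ((v : ℝ) - co98 G u κ (rl98 Γ G Q u κ)) +
        (G.lat (rl98 Γ G Q u κ, co98 G u κ (rl98 Γ G Q u κ)) - G.ctr u κ) := by
      unfold Gm.lat
      ring
    rw [e1]
    refine (abs_add_le _ _).trans ?_
    have h6 : 1 * G.w u ≤ b * G.w u := mul_le_mul_of_nonneg_right (by rw [hb]; linarith) hw0.le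
    linarith
  have hoff : ∀ k y, rl98 Γ G Q u κ ≤ k → k < i + 1 → ((k, y) ∉ sp G u κ b ∨ (k + 1, y) ∉ sp G u κ b ∨ (k + 1, y + 1) ∉ sp G u κ b) →
      wt ω' k y = wt ω₀ k y := by
    intro k y _ _ h1
    have h2 := rim_off22 hv0 hv1 hbw h1
    have h3 : (((k : ℤ), y) : Pt) ∉ G.win u κ := h2
    have h4 : ω' ((k : ℤ), y) = ω₀ ((k : ℤ), y) := by
      rw [hR']
      exact gl_of_not_mem h3 _ _
    exact P25.wt_eq h4
  have key := lv22' (ω := ω₀) (ω' := ω') (D := sp G u κ b) (a := rl98 Γ G Q u κ) (e := i + 1) (A := S) (R := Real.exp (P.Cr * E u)) (s₀ := s₀)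
    (by omega) (Real.exp_pos _).le hs₀0 hSD hoff (fun y hy => ro.up (i + 1) y fun hB => by
      have h1 := lat_win (G := G) (u := u) (κ := κ) (k := i + 1) (y := y) hB
      have h2 := hSf y hy
      linarith) hborder (v := v) (by omega) hvD
  -- the sum
  have hsum : ∑ y ∈ (Icc 0 Γ.hi).filter (fun y => (i, y) ∈ Γ.rows 0 Γ.N ∧ ¬ G.Nb u κ (i, y)),
      ker (wt ω') Γ.p (ag98 Γ G Q u κ + 5 * Q.n u) (i + 1 - (ag98 Γ G Q u κ + 5 * Q.n u)) v y * bW Γ ω' (i + 1) y ≤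
        QA Γ ω' (i + 1) S (rl98 Γ G Q u κ) v := by
    have h1 := lo_sum (wt_pos ω') Γ.p_pos (F := tf Γ ω' (i + 1) S) (tf_nonneg (i + 1) S) (rl98 Γ G Q u κ) (i + 1 - rl98 Γ G Q u κ) v
      ((Icc 0 Γ.hi).filter (fun y => (i, y) ∈ Γ.rows 0 Γ.N ∧ ¬ G.Nb u κ (i, y)))
    refine le_trans (le_of_eq ?_) h1
    refine sum_congr rfl fun y hy => ?_
    have h2 : y ∈ S := by
      rw [hS]
      rw [mem_filter] at hy
      exact hy.2
    rw [tf_mem h2, ← r7]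
  refine hsum.trans (key.trans ?_)
  rw [← r7]
  refine mul_le_mul_of_nonneg_right ?_ (bW_pos _ _ _ _).le
  -- the numbers
  have l1 : 32 * (G.T u : ℝ) ≤ Real.exp (E u) := by
    have h1 := hn₄ (G.T u) (G.T u) hTn4 (by omega) le_rfl
    have h2 : 0 < 32 * (G.T u : ℝ) := by
      have : (0 : ℝ) < G.T u := by exact_mod_cast (show 0 < G.T u by omega)
      linarith
    rw [← hE] at h1
    exact (Real.log_le_iff_le_exp h2).1 h1
  have l2 : ((i + 1 - rl98 Γ G Q u κ : ℕ) : ℝ) ≤ (G.T u : ℝ) := by exact_mod_cast (show i + 1 - rl98 Γ G Q u κ ≤ G.T u by omega)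
  have l3 : (2 : ℝ) ≤ (G.T u : ℝ) := by exact_mod_cast hT2
  obtain ⟨M, hM⟩ : ∃ M : ℝ, M = 2 * (F.V₁ * E u + c / 16 * r * 1 + c / 16 * r * (b * G.w u)) + X +
    x₁ * (b * G.w u) - (c / 2 * r - x₁) * (G.kb * G.w u - 1 - b * G.w u) := ⟨_, rfl⟩
  rw [← hM] at hs₀
  have l4 : M + 2 * (P.Cr * E u) + 2 * E u ≤ -zx * E u := by
    rw [hM, hX]
    exact num22 hc0.le hc1 hrw hr0.le hr1 hE1 hs0 hs1 hb hx₁ hline (by linarith)
  have l5 : Real.exp (P.Cr * E u) * s₀ * Real.exp (P.Cr * E u) = ((G.T u : ℝ) + 1) * 4 * Real.exp (M + 2 * (P.Cr * E u)) := by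
    rw [hs₀, show M + 2 * (P.Cr * E u) = P.Cr * E u + M + P.Cr * E u by ring, Real.exp_add, Real.exp_add]
    ring
  have l6 : (G.T u : ℝ) * (((G.T u : ℝ) + 1) * 4) ≤ Real.exp (2 * E u) := by
    have h1 : Real.exp (2 * E u) = Real.exp (E u) * Real.exp (E u) := by rw [← Real.exp_add]; congr 1; ring
    rw [h1]
    nlinarith
  rw [l5]
  calc ((i + 1 - rl98 Γ G Q u κ : ℕ) : ℝ) * (((G.T u : ℝ) + 1) * 4 * Real.exp (M + 2 * (P.Cr * E u)))
      ≤ (G.T u : ℝ) * (((G.T u : ℝ) + 1) * 4 * Real.exp (M + 2 * (P.Cr * E u))) := mul_le_mul_of_nonneg_right l2 (by positivity)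
    _ = (G.T u : ℝ) * (((G.T u : ℝ) + 1) * 4) * Real.exp (M + 2 * (P.Cr * E u)) := by ring
    _ ≤ Real.exp (2 * E u) * Real.exp (M + 2 * (P.Cr * E u)) := mul_le_mul_of_nonneg_right l6 (Real.exp_pos _).le
    _ = Real.exp (M + 2 * (P.Cr * E u) + 2 * E u) := by rw [← Real.exp_add]; congr 1; ring
    _ ≤ Real.exp (-zx * E u) := Real.exp_le_exp.2 l4
    _ = _ := by rw [hE]

end

end Pool.Agent.W_7d29a1_C1.Ex22
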