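import Pool.Agent.W_7d29a1_C1.WqT98
import Pool.Agent.W_7d29a1_C1.SepC3
import Pool.Agent.W_7d29a1_C1.SepS2
import Pool.Agent.W_7d29a1_C1.ExZ22

/-!
MP_7d29a1_pr, attractor route, [C1] SEP: THE FIELD `exc` (`ExP98`) AT THE RECORD OF THE CONSTANTS, ALL WINDOWS ABOVE A THRESHOLD. (helper52; one window:
`exp22` of helper22)

* `rocC52` : the numbers of the ratio `RoC41` for a constant `Ck` which reads only the stages before `al`;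
* **`exC52`** : for every exponent `zx` which reads only the stages before `kb`; `exCr52` : the same for `Cr`.
-/

set_option autoImplicit false

namespace Pool.Agent.W_7d29a1_C1.Ec52

open Finset MeasureTheory Filter
open Pool.Agent.W_7d29a1_F hiding Bw G
open Pool.Agent.W_7d29a1_h4g Pool.Agent.W_7d29a1_H Pool.Agent.W_7d29a1_HS
open Pool.Agent.W_7d29a1_C1.K91 (wt wt_pos)
open Pool.Agent.W_7d29a1_C1.K91P (bw)
open Pool.Agent.W_7d29a1_C1.U16 (ker)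
open Pool.Agent.W_7d29a1_C1.H60
open Pool.Agent.W_7d29a1_C1.G37 (Gm)
open Pool.Agent.W_7d29a1_C1.SF98 (Tx)
open Pool.Agent.W_7d29a1_C1.P25
open Pool.Agent.W_7d29a1_C1.N49
open Pool.Agent.W_7d29a1_C1.D98
open Pool.Agent.W_7d29a1_C1.SD53
open Pool.Agent.W_7d29a1_C1.Q49
open Pool.Agent.W_7d29a1_C1.Nm15
open Pool.Agent.W_7d29a1_C1.Cs2
open Pool.Agent.W_7d29a1_C1.Ex22 (exp22 ExN22)

noncomputable section

variable {μ : Measure ℝ} {s c Cc : ℝ} {n₀ : ℕ} {S : Is → Cst → Prop}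

/-- **THE NUMBERS OF THE RATIO**, `Ck` reads only the stages before `al`. -/
theorem rocC52 (hc : 0 < c) (Ck : Cst → ℝ) (hCk : ∀ C : Cst, Ck (C.cut .al) = Ck C) :
    EvC S fun C => RoC41 c C.kw (Ck C) C.Cr (C.R1 - 1) C.al C.U1n C.Uw C.V1 C.Re C.Qe C.R1 (C.sgm * C.R1) := by
  filter_upwards [FC.V1_ge S fun _ => 0, FC.Uw_ge S fun _ => 0, FC.sgm_le S (fun _ => c / 80) (fun _ => by positivity),
    FC.Re_ge S fun _ => 0, FC.Qe_ge S fun _ => 0, FC.al_ge S fun C => 2 * C.V1 + Ck C,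
    FC.U1n_ge S fun C => C.Qe + c / 8 * (C.Re + C.kw) + 1,
    FC.R1_ge S fun C => max (max 0 (C.kw + 2)) (max (C.Re + 2) ((2 * C.al + 5 * (1 / 16 + C.Uw) + C.U1n + 2 + c / 2) * (16 / (7 * c)))),
    FC.Cr_ge S fun C => 2 * (2 + 2 * C.al + 5 * (C.sgm * C.R1 + 1 / 16 + C.Uw) + C.U1n)] with C h1 h2 h3 h4 h5 h6 h7 h8 h9
  have g1 : 0 ≤ C.R1 := ((le_max_left _ _).trans (le_max_left _ _)).trans h8
  have g2 : C.kw + 2 ≤ C.R1 := ((le_max_right _ _).trans (le_max_left _ _)).trans h8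
  have g3 : C.Re + 2 ≤ C.R1 := ((le_max_left _ _).trans (le_max_right _ _)).trans h8
  have g4 : (2 * C.al + 5 * (1 / 16 + C.Uw) + C.U1n + 2 + c / 2) * (16 / (7 * c)) ≤ C.R1 :=
    ((le_max_right _ _).trans (le_max_right _ _)).trans h8
  have g5 : C.sgm * C.R1 ≤ c / 80 * C.R1 := mul_le_mul_of_nonneg_right h3.2 g1
  have g6 : 2 * C.al + 5 * (1 / 16 + C.Uw) + C.U1n + 2 + c / 2 ≤ C.R1 * (7 * c / 16) := by
    have e1 : (2 * C.al + 5 * (1 / 16 + C.Uw) + C.U1n + 2 + c / 2) * (16 / (7 * c)) * (7 * c / 16) =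
        2 * C.al + 5 * (1 / 16 + C.Uw) + C.U1n + 2 + c / 2 := by
      field_simp
    have e2 := mul_le_mul_of_nonneg_right g4 (show 0 ≤ 7 * c / 16 by positivity)
    rwa [e1] at e2
  have h6' : 2 * C.V1 + Ck C ≤ C.al := by
    rw [← hCk C]
    exact h6
  exact
    { V0 := h1
      Re0 := h4
      Qe0 := h5
      Uw0 := h2
      x0 := mul_nonneg h3.1.le g1
      kb := by linarith
      Rb := by linarith
      bR := by linarith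
      al_ge := h6'
      U_ge := h7
      b_ge := by nlinarith
      Cr_ge := h9 }

/-- A smaller exponent. -/
theorem exP_mono [IsProbabilityMeasure μ] {Γ : Cx} {G : Gm} {Q : Nm98} {R : Nr98} {u : ℕ} {κ : ℤ × ℤ} {T TF : Set Env} {zx zx' : ℝ}
    (h : ExP98 μ s c Γ G Q R u κ T TF zx') (hz : zx ≤ zx') : ExP98 μ s c Γ G Q R u κ T TF zx := by
  intro ω hω η hη i h1 h2 v hv
  refine (h ω hω η hη i h1 h2 v hv).trans (mul_le_mul_of_nonneg_right (Real.exp_le_exp.2 ?_) (bW_pos _ _ _ _).le)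
  exact mul_le_mul_of_nonneg_right (neg_le_neg hz) (EE_pos _).le

/-- **THE FIELD `exc` AT THE RECORD.** -/
theorem exC52 [IsProbabilityMeasure μ] (hI : In μ s c Cc n₀) (ε : ℝ) (zx : Cst → ℝ) (hzx : ∀ C : Cst, zx (C.cut .kb) = zx C) :
    EvC (S0 μ s c Cc ε) fun C => ∀ kap : ℝ, kap ≤ c / 8 →
      Ew98 μ s c kap C.P (C.Nm μ s c ε) C.cf fun Γ G _ _ E u κ =>
        ExP98 μ s c Γ G (C.Nm μ s c ε Γ G E) (C.cf.nr μ s c Γ G E) u κ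
          (Tx ((Fam98o μ s c C.P (C.Nm μ s c ε) C.cf).TT Γ G E) (fun u => E u / 16) u κ) (TF98 μ s c (C.Nm μ s c ε) C.cf Γ G E u κ) (zx C) := by
  have hc0 := hI.c0
  have key : ∀ (PF : ℕ) (kw : ℝ), ∃ (Ck : ℝ) (n₁ : ℕ), ∀ q : ℝ, ∃ U : ℝ, 0 ≤ kw → 0 ≤ q →
      ∀ {P : Pre} {N : NmF} {F : Cf98} {Γ : Cx} {G : Gm} {mt τ0 : ℕ} {E : ℕ → ℝ} {u : ℕ} {κ : ℤ × ℤ} {kap zx : ℝ} {T TF : Set Env},
        Win52 μ s kw kap n₁ (N Γ G E) (F.nr μ s c Γ G E) Γ G mt τ0 E u κ → kap ≤ c / 8 → (N Γ G E).PF = PF → (N Γ G E).th = 1 / 8 →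
        (N Γ G E).KF = 4 → (N Γ G E).qF = q → (N Γ G E).δ ≤ 2 → wd μ s ((N Γ G E).T u) ≤ G.w u →
        RoC41 c kw Ck P.Cr (F.R1 - 1) F.al F.U₁ F.Uw F.V₁ F.Re F.Qe F.R1 (F.sgm * F.R1) →
        ExN22 c U F.V₁ F.sgm F.rc F.R1 P.Cr G.kb zx → (∀ ω ∈ T, Tc98 μ s c P N F Γ G E u κ ω) →
        TF ⊆ TP98 μ s c Γ G (N Γ G E) (F.nr μ s c Γ G E) u κ →
        ExP98 μ s c Γ G (N Γ G E) (F.nr μ s c Γ G E) u κ T TF zx := by
    intro PF kw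
    by_cases hk : 0 ≤ kw
    · obtain ⟨Ck, -, n₁, -, H⟩ := exp22 hI PF hk
      refine ⟨Ck, n₁, fun q => ?_⟩
      by_cases hq : 0 ≤ q
      · obtain ⟨U, -, H⟩ := H q hq
        exact ⟨U, fun _ _ => H⟩
      · exact ⟨0, fun _ h => absurd h hq⟩
    · exact ⟨0, 0, fun q => ⟨0, fun h => absurd h hk⟩⟩
  choose Ck n₁ U H using key
  filter_upwards [rocC52 (S := S0 μ s c Cc ε) hc0 (fun C => Ck C.PF C.kw) (fun _ => rfl), FC.kw_ge (S0 μ s c Cc ε) fun _ => 0,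
    FC.qF_ge (S0 μ s c Cc ε) fun _ => 0, FC.sgm_le (S0 μ s c Cc ε) (fun _ => c / 80) (fun _ => by positivity),
    FC.rc_ge (S0 μ s c Cc ε) fun _ => 5, FC.R1_ge (S0 μ s c Cc ε) fun _ => 2, FC.dl_le (S0 μ s c Cc ε) (fun _ => 2) (fun _ => two_pos),
    FC.kb_ge (S0 μ s c Cc ε) fun p => p.R1 + 8 / (3 * c) * (2 * p.V1 + 7 + U p.PF p.kw p.qF + p.sgm * p.rc + 2 * (p.sgm * p.R1) +
      3 / 16 * c * p.R1 + 2 * p.Cr + max 0 (zx p)), evPf40 (S0 μ s c Cc ε), lane2 (μ := μ) (s := s) (c := c) (Cc := Cc) (ε := ε)]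
    with C hroc hkw hqF hsg hrc hR1 hdl hkb hP lane kap hkap
  obtain ⟨⟨Pkw, -, Pkb⟩, -, ⟨PCr, -⟩, -⟩ := hP
  obtain ⟨m₂, hm₂⟩ := lane 0
  have hkb' : C.R1 + 8 / (3 * c) * (2 * C.V1 + 7 + U C.PF C.kw C.qF + C.sgm * C.rc + 2 * (C.sgm * C.R1) + 3 / 16 * c * C.R1 +
      2 * C.Cr + max 0 (zx C)) ≤ C.kb := by
    rw [← hzx C]
    exact hkb
  refine ⟨max (n₁ C.PF C.kw) m₂, fun Γ G mt τ0 E u κ W => exP_mono (H C.PF C.kw C.qF hkw hqF (P := C.P) (F := C.cf)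
    (N := C.Nm μ s c ε) (mt := mt) (τ0 := τ0) (zx := max 0 (zx C)) ?_ hkap rfl rfl rfl rfl hdl.2 ?_ ?_ ?_ W.tc fun ω h => h.1) (le_max_right _ _)⟩
  · have h1 := W.w
    rw [Pkw] at h1
    exact h1.mono (le_max_left _ _)
  · have h1 := (hm₂ (G.T u) ((le_max_right _ _).trans (W.w.hT u))).2.2.wnT
    rw [W.w.hw u]
    exact h1
  · rw [PCr]
    exact hroc
  · rw [PCr, W.kb, Pkb]
    refine ⟨hsg.1.le, hsg.2.trans (by linarith), hrc, hR1, le_max_left _ _, ?_⟩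
    have h2 : 8 / (3 * c) * (2 * C.V1 + 7 + U C.PF C.kw C.qF + C.sgm * C.rc + 2 * (C.sgm * C.R1) + 3 / 16 * c * C.R1 +
        2 * C.Cr + max 0 (zx C)) ≤ C.kb - C.R1 := by linarith
    have h3 := mul_le_mul_of_nonneg_left h2 (show 0 ≤ 3 / 8 * c by positivity)
    have e1 : 3 / 8 * c * (8 / (3 * c) * (2 * C.V1 + 7 + U C.PF C.kw C.qF + C.sgm * C.rc + 2 * (C.sgm * C.R1) + 3 / 16 * c * C.R1 +
        2 * C.Cr + max 0 (zx C))) = 2 * C.V1 + 7 + U C.PF C.kw C.qF + C.sgm * C.rc + 2 * (C.sgm * C.R1) + 3 / 16 * c * C.R1 +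
        2 * C.Cr + max 0 (zx C) := by
      field_simp
    rw [e1] at h3
    exact h3

/-- **THE FIELD `exc` AT THE RECORD**, `zx` reads only the stages before `Cr`. -/
theorem exCr52 [IsProbabilityMeasure μ] (hI : In μ s c Cc n₀) (ε : ℝ) (zx : Cst → ℝ) (hzx : ∀ C : Cst, zx (C.cut .Cr) = zx C) :
    EvC (S0 μ s c Cc ε) fun C => ∀ kap : ℝ, kap ≤ c / 8 →
      Ew98 μ s c kap C.P (C.Nm μ s c ε) C.cf fun Γ G _ _ E u κ =>
        ExP98 μ s c Γ G (C.Nm μ s c ε Γ G E) (C.cf.nr μ s c Γ G E) u κ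
          (Tx ((Fam98o μ s c C.P (C.Nm μ s c ε) C.cf).TT Γ G E) (fun u => E u / 16) u κ) (TF98 μ s c (C.Nm μ s c ε) C.cf Γ G E u κ) (zx C) := by
  refine exC52 hI ε zx fun C => ?_
  have h1 := hzx (C.cut .kb)
  have h2 := hzx C
  rw [← h1]
  exact h2

end

end Pool.Agent.W_7d29a1_C1.Ec52
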