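import Pool.Agent.W_7d29a1_C1.SitQ62
import Pool.Agent.W_7d29a1_C1.PreC40
import Pool.Agent.W_7d29a1_C1.SepS2

/-!
MP_7d29a1_pr, attractor route, [C1] SEP: **THE PARTS `SiP98` AND `StP98` AT THE RECORD `Cst`, IN THE FORM `EvC`.** (helper62)

**`siC62`** : a function `X` of the constants before `LB`; for every function `zs` of the constants before `R1`, eventually, at all the windows
above a threshold: `SiP98` at `e62 c xF Qg (sgm R2) bS`, every `xF ≥ X C`, and `StP98` at `zs C`.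
-/

set_option autoImplicit false

namespace Pool.Agent.W_7d29a1_C1.Sz62

open Finset MeasureTheory Filter
open Pool.Agent.W_7d29a1_F hiding Bw G
open Pool.Agent.W_7d29a1_h4g Pool.Agent.W_7d29a1_HS
open Pool.Agent.W_7d29a1_H hiding ex gg
open Pool.Agent.W_7d29a1_C1
open Pool.Agent.W_7d29a1_C1.H60
open Pool.Agent.W_7d29a1_C1.G37 (Gm)
open Pool.Agent.W_7d29a1_C1.SF98 (Tx)
open Pool.Agent.W_7d29a1_C1.PW58
open Pool.Agent.W_7d29a1_C1.D98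
open Pool.Agent.W_7d29a1_C1.N49
open Pool.Agent.W_7d29a1_C1.Q49
open Pool.Agent.W_7d29a1_C1.Nm15
open Pool.Agent.W_7d29a1_C1.Cs2

noncomputable section

variable {μ : Measure ℝ} {s c Cc : ℝ} {n₀ : ℕ}

/-- The numbers of the window (`C.Nm` of SepC3). -/
abbrev nm62 (μ : Measure ℝ) (s c ε : ℝ) (C : Cst) : NmF := fun _ G _ => nm15 μ s c (C.g ε) C.l G

/-- The numbers of the families (`C.cf` of SepC3). -/
abbrev cf62 (C : Cst) : Cf98 :=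
  { sgm := C.sgm, rc := C.rc, r0 := C.r0, R0 := C.R0, R2 := C.R2, R1 := C.R1, aF := C.aF, bF := C.R1, gF := C.gf, al := C.al, U₁ := C.U1n,
    Uw := C.Uw, V₁ := C.V1, Re := C.Re, Qe := C.Qe }

/-- **THE PARTS `SiP98` AND `StP98`.** -/
theorem siC62 [IsProbabilityMeasure μ] (hI : In μ s c Cc n₀) (ε : ℝ) : ∃ X : Cst → ℝ, (∀ C : Cst, X (C.cut .LB) = X C) ∧
    ∀ zs : Cst → ℝ, (∀ C : Cst, zs (C.cut .R1) = zs C) → ∀ kap : ℝ, kap ≤ c / 8 → EvC (S0 μ s c Cc ε) fun C => ∀ xF : ℝ, X C ≤ xF →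
      Ew98 μ s c kap C.P (nm62 μ s c ε C) (cf62 C) fun Γ G _mt _τ0 E u κ =>
        SiP98 μ s Γ G (nm62 μ s c ε C Γ G E) u κ (Tx ((Fam98o μ s c C.P (nm62 μ s c ε C) (cf62 C)).TT Γ G E) (fun u => E u / 16) u κ)
          (TF98 μ s c (nm62 μ s c ε C) (cf62 C) Γ G E u κ) (e62 c xF C.Qg (C.sgm * C.R2) C.bS) ∧
        StP98 μ s Γ G (nm62 μ s c ε C Γ G E) u κ (Tx ((Fam98o μ s c C.P (nm62 μ s c ε C) (cf62 C)).TT Γ G E) (fun u => E u / 16) u κ)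
          (TF98 μ s c (nm62 μ s c ε C) (cf62 C) Γ G E u κ) (zs C) := by
  have hc0 := hI.c0
  have key : ∀ kw V ρ Q y sgm : ℝ, ∃ R₀ : ℝ, ∀ R₂ : ℝ, ∃ Cd : ℝ, ∃ n₁ : ℕ, 0 ≤ kw → 0 ≤ V → 0 ≤ ρ → 0 ≤ Q → 0 ≤ y → 0 ≤ sgm → sgm ≤ c / 80 →
      R₀ ≤ R₂ → 0 < Cd ∧ ∀ {P : Pre} {N : NmF} {F : Cf98} {kap : ℝ}, P.kw = kw → F.sgm = sgm → F.R2 = R₂ → R₂ ≤ F.R1 → F.V₁ = V →
        F.Re = ρ → F.Qe = Q → F.Uw ≤ y → kap ≤ c / 8 → ∀ {Γ : Cx} {G : Gm} {mt τ0 : ℕ} {E : ℕ → ℝ} {u : ℕ} {κ : ℤ × ℤ},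
        Wc98 μ s c kap P N F n₁ Γ G mt τ0 E u κ →
        ∀ {kc R G₀ : ℝ} {j M : ℕ} {A B p₀ ε : ℝ} {n₂ : ℕ},
        NumT58 μ s c kc R G₀ j (N Γ G E).K1h M (N Γ G E).K2h (N Γ G E).Uc (N Γ G E).Qc (N Γ G E).U1 (N Γ G E).Q1 (N Γ G E).U
          (N Γ G E).Q A B (N Γ G E).Y p₀ ε n₂ (G.T u) ((N Γ G E).n u) ((N Γ G E).m u) ((N Γ G E).K1 u) ((N Γ G E).K2 u) →
        0 ≤ (N Γ G E).Q → 2 ≤ kc →
        (0 ≤ P.bS → P.bS ≤ kc → P.bS ≤ R₂ → 1 / 16 ≤ P.βc → ∀ xF : ℝ, Cd ≤ xF →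
          SiP98 μ s Γ G (N Γ G E) u κ (Tx ((Fam98o μ s c P N F).TT Γ G E) (fun u => E u / 16) u κ) (TF98 μ s c N F Γ G E u κ)
            (e62 c xF (N Γ G E).Q (sgm * R₂) P.bS)) ∧
        ∀ {zs : ℝ}, kc + 3 ≤ F.bF → kw + 2 ≤ F.bF → F.bF ≤ F.R1 → F.bF < F.aF → F.aF + 1 ≤ P.kb →
          2 * Cd + zs + 2 + 1 / 16 ≤ F.gF → zs + V + Cd + 2 * (sgm * F.R1) + 2 + c * (kc + 4) ≤ 3 * c / 4 * F.bF →
          (N Γ G E).δ / 4 * wd μ s ((N Γ G E).T u) + 1 ≤ (N Γ G E).K1 u * wd μ s ((N Γ G E).n u) →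
          StP98 μ s Γ G (N Γ G E) u κ (Tx ((Fam98o μ s c P N F).TT Γ G E) (fun u => E u / 16) u κ) (TF98 μ s c N F Γ G E u κ) zs := by
    intro kw V ρ Q y sgm
    by_cases hh : 0 ≤ kw ∧ 0 ≤ V ∧ 0 ≤ ρ ∧ 0 ≤ Q ∧ 0 ≤ y ∧ 0 ≤ sgm ∧ sgm ≤ c / 80
    · obtain ⟨a1, a2, a3, a4, a5, a6, a7⟩ := hh
      obtain ⟨R₀, H⟩ := siQ62 hI a1 a2 a3 a4 a5 a6 a7
      refine ⟨R₀, fun R₂ => ?_⟩
      by_cases hR : R₀ ≤ R₂
      · obtain ⟨Cd, h1, n₁, h2⟩ := H R₂ hR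
        exact ⟨Cd, n₁, fun _ _ _ _ _ _ _ _ => ⟨h1, h2⟩⟩
      · exact ⟨0, 0, fun _ _ _ _ _ _ _ h => absurd h hR⟩
    · exact ⟨0, fun R₂ => ⟨0, 0, fun a1 a2 a3 a4 a5 a6 a7 _ => absurd ⟨a1, a2, a3, a4, a5, a6, a7⟩ hh⟩⟩
  choose R₀ Cd n₁ H using key
  refine ⟨fun C => Cd C.kw C.V1 C.Re C.Qe C.Uw C.sgm C.R2, fun C => rfl, fun zs hzs kap hkap => ?_⟩
  have hz2 : ∀ C : Cst, zs (C.cut .gf) = zs C := fun C => by
    have h1 := hzs (C.cut .gf)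
    have h2 := hzs C
    rw [← h1]
    exact h2
  filter_upwards [FC.kw_ge (S0 μ s c Cc ε) fun _ => 0, FC.V1_ge (S0 μ s c Cc ε) fun _ => 0, FC.Re_ge (S0 μ s c Cc ε) fun _ => 0,
    FC.Qe_ge (S0 μ s c Cc ε) fun _ => 0, FC.Uw_ge (S0 μ s c Cc ε) fun _ => 0,
    FC.sgm_le (S0 μ s c Cc ε) (fun _ => c / 80) (fun _ => by positivity), FC.bS_ge (S0 μ s c Cc ε) fun _ => 0,
    FC.kc_ge (S0 μ s c Cc ε) fun p => max 2 p.bS,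
    FC.R2_ge (S0 μ s c Cc ε) fun p => max (R₀ p.kw p.V1 p.Re p.Qe p.Uw p.sgm) p.bS,
    FC.R1_ge (S0 μ s c Cc ε) fun p => max p.R2 (max (max (p.kc + 4) (p.kw + 3)) (max 0
      (2 * (zs p + p.V1 + Cd p.kw p.V1 p.Re p.Qe p.Uw p.sgm p.R2 + 2 + c * (p.kc + 4) + c) / c))),
    FC.gf_ge (S0 μ s c Cc ε) fun p => 2 * Cd p.kw p.V1 p.Re p.Qe p.Uw p.sgm p.R2 + zs p + 3,
    FC.aF_ge (S0 μ s c Cc ε) fun p => p.R1 + 1, FC.kb_ge (S0 μ s c Cc ε) fun p => p.aF + 1,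
    FC.dl_le (S0 μ s c Cc ε) (fun _ => 1) (fun _ => one_pos), sg2 (μ := μ) (s := s) (c := c) (Cc := Cc) (ε := ε),
    ok2 (μ := μ) (s := s) (c := c) (Cc := Cc) (ε := ε), lane2 (μ := μ) (s := s) (c := c) (Cc := Cc) (ε := ε),
    evPf40 (S0 μ s c Cc ε)] with C hkw hV hRe hQe hUw hsg hbS hkc hR2 hR1 hgf haF hkb hdl sg ok lane hP xF hxF
  obtain ⟨m₁, hm₁⟩ := ok
  obtain ⟨m₂, hm₂⟩ := lane 0
  obtain ⟨⟨Pkw, -, Pkb⟩, ⟨-, PbS, Pβ⟩, -⟩ := hP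
  have hkc' : max 2 C.bS ≤ C.kc := hkc
  have hR2' : max (R₀ C.kw C.V1 C.Re C.Qe C.Uw C.sgm) C.bS ≤ C.R2 := hR2
  have hR1' : max C.R2 (max (max (C.kc + 4) (C.kw + 3)) (max 0
      (2 * (zs C + C.V1 + Cd C.kw C.V1 C.Re C.Qe C.Uw C.sgm C.R2 + 2 + c * (C.kc + 4) + c) / c))) ≤ C.R1 := by
    rw [← hzs C]
    exact hR1
  have hgf' : 2 * Cd C.kw C.V1 C.Re C.Qe C.Uw C.sgm C.R2 + zs C + 3 ≤ C.gf := by
    rw [← hz2 C]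
    exact hgf
  have haF' : C.R1 + 1 ≤ C.aF := haF
  have hkb' : C.aF + 1 ≤ C.kb := hkb
  obtain ⟨hCd, K⟩ := H C.kw C.V1 C.Re C.Qe C.Uw C.sgm C.R2 hkw hV hRe hQe hUw hsg.1.le hsg.2 ((le_max_left _ _).trans hR2')
  obtain ⟨l1, l2, l3⟩ := lineE62 hc0 hsg.2 ((le_max_right _ _).trans hR1')
  refine ⟨max (n₁ C.kw C.V1 C.Re C.Qe C.Uw C.sgm C.R2) (max m₁ m₂), fun Γ G mt τ0 E u κ W => ?_⟩
  have hT := W.w.hT u
  have HN := nm15_num (l := C.l) hm₁ (u := u) (G := G) (((le_max_left _ _).trans (le_max_right _ _)).trans hT)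
  obtain ⟨K1, K2⟩ := K (N := nm62 μ s c ε C) (F := cf62 C) (kap := kap) Pkw rfl rfl ((le_max_left _ _).trans hR1') rfl rfl rfl le_rfl hkap
    (W.mono (le_max_left _ _)) (kc := C.kc) HN sg.Qg ((le_max_left _ _).trans hkc')
  refine ⟨?_, ?_⟩
  · have h1 := K1 (by rw [PbS]; exact hbS) (by rw [PbS]; exact (le_max_right _ _).trans hkc')
      (by rw [PbS]; exact (le_max_right _ _).trans hR2') (by rw [Pβ]) xF hxF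
    rw [PbS] at h1
    exact h1
  · refine K2 l1 l2 le_rfl (by show C.R1 < C.aF; linarith) (by rw [Pkb]; exact hkb') (by show _ ≤ C.gf; linarith) l3 ?_
    have h1 := (hm₂ (G.T u) (((le_max_right _ _).trans (le_max_right _ _)).trans hT)).2.2.wnT
    have h2 := HN.kc_le
    have h3 := HN.sc.w1
    have h4 := HN.sc.wnT
    have h5 : 1 ≤ wd μ s (G.T u) := h3.trans h4
    have h6 : (2 : ℝ) ≤ C.kc := (le_max_left _ _).trans hkc'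
    have h7 : C.dl / 4 * wd μ s (C.N * nr15 C.l (G.T u)) ≤ 1 / 4 * wd μ s (G.T u) := by
      refine mul_le_mul (by linarith [hdl.2]) h1 ?_ (by norm_num)
      exact hI.wd_nonneg _
    have h8 : 2 * wd μ s (G.T u) ≤ C.kc * wd μ s (G.T u) := mul_le_mul_of_nonneg_right h6 (by linarith)
    have h9 : C.kc * wd μ s (G.T u) ≤ ((nm62 μ s c ε C Γ G E).K1 u : ℝ) * wd μ s ((nm62 μ s c ε C Γ G E).n u) := h2
    show C.dl / 4 * wd μ s (C.N * nr15 C.l (G.T u)) + 1 ≤ _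
    linarith

end

end Pool.Agent.W_7d29a1_C1.Sz62
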