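import Pool.Agent.W_7d29a1_C1.ExZ22
import Pool.Agent.W_7d29a1_C1.SiC62

/-!
MP_7d29a1_pr, [C1] attractor route, SEP: THE PART `ExP98` OVER THE FILTER OF THE CONSTANTS (over helper22's `exp22`). (helper97)

`exC97` : for every function `zx` of the constants before `kb`, eventually `ExP98` at `zx C` in all the windows above a threshold.
-/

set_option autoImplicit false

namespace Pool.Agent.W_7d29a1_C1.Q49

open Finset MeasureTheory Filter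
open Pool.Agent.W_7d29a1_F hiding Bw G
open Pool.Agent.W_7d29a1_h4g Pool.Agent.W_7d29a1_H Pool.Agent.W_7d29a1_HS
open Pool.Agent.W_7d29a1_C1.K91 (wt wt_pos)
open Pool.Agent.W_7d29a1_C1.U16 (ker ker_nonneg)
open Pool.Agent.W_7d29a1_C1.H60
open Pool.Agent.W_7d29a1_C1.G37 (Gm)
open Pool.Agent.W_7d29a1_C1.SF98
open Pool.Agent.W_7d29a1_C1.P25
open Pool.Agent.W_7d29a1_C1.N49
open Pool.Agent.W_7d29a1_C1.D98
open Pool.Agent.W_7d29a1_C1.Nm15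
open Pool.Agent.W_7d29a1_C1.Cs2
open Pool.Agent.W_7d29a1_C1.Sz62 (nm62 cf62)
open Pool.Agent.W_7d29a1_C1.Ex22 (ExN22 exp22)

noncomputable section

attribute [local instance 10] Classical.propDecidable

variable {μ : Measure ℝ} {s c Cc : ℝ} {n₀ : ℕ}

/-- The statement of `exp22` at given numbers. -/
def Ex97 (μ : Measure ℝ) (s c : ℝ) (PF : ℕ) (kw Ck q U : ℝ) (n₁ : ℕ) : Prop :=
  ∀ (P : Pre) (N : NmF) (F : Cf98) (Γ : Cx) (G : Gm) (mt τ0 : ℕ) (E : ℕ → ℝ) (u : ℕ) (κ : ℤ × ℤ) (kap zx : ℝ) (T TF : Set Env),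
    Win52 μ s kw kap n₁ (N Γ G E) (F.nr μ s c Γ G E) Γ G mt τ0 E u κ → kap ≤ c / 8 →
    (N Γ G E).PF = PF → (N Γ G E).th = 1 / 8 → (N Γ G E).KF = 4 → (N Γ G E).qF = q → (N Γ G E).δ ≤ 2 → wd μ s ((N Γ G E).T u) ≤ G.w u →
    RoC41 c kw Ck P.Cr (F.R1 - 1) F.al F.U₁ F.Uw F.V₁ F.Re F.Qe F.R1 (F.sgm * F.R1) →
    ExN22 c U F.V₁ F.sgm F.rc F.R1 P.Cr G.kb zx → (∀ ω ∈ T, Tc98 μ s c P N F Γ G E u κ ω) →
    TF ⊆ TP98 μ s c Γ G (N Γ G E) (F.nr μ s c Γ G E) u κ → ExP98 μ s c Γ G (N Γ G E) (F.nr μ s c Γ G E) u κ T TF zx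

/-- The thresholds as functions. -/
theorem exF97 [IsProbabilityMeasure μ] (hI : In μ s c Cc n₀) : ∃ (Ck : ℕ → ℝ → ℝ) (n₁ : ℕ → ℝ → ℕ) (U : ℕ → ℝ → ℝ → ℝ),
    ∀ (PF : ℕ) (kw q : ℝ), 0 ≤ kw → 0 ≤ q → Ex97 μ s c PF kw (Ck PF kw) q (U PF kw q) (n₁ PF kw) := by
  classical
  have key : ∀ (PF : ℕ) (kw : ℝ), ∃ (Ck : ℝ) (n₁ : ℕ), 0 ≤ kw → ∀ q : ℝ, 0 ≤ q → ∃ U : ℝ, Ex97 μ s c PF kw Ck q U n₁ := by
    intro PF kw
    by_cases h : 0 ≤ kw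
    · obtain ⟨Ck, -, n₁, -, H⟩ := exp22 hI PF h
      refine ⟨Ck, n₁, fun _ q hq => ?_⟩
      obtain ⟨U, -, H⟩ := H q hq
      exact ⟨U, fun P N F Γ G mt τ0 E u κ kap zx T TF a1 a2 a3 a4 a5 a6 a7 a8 a9 a10 a11 a12 =>
        H a1 a2 a3 a4 a5 a6 a7 a8 a9 a10 a11 a12⟩
    · exact ⟨0, 0, fun h' => absurd h' h⟩
  choose Ck n₁ H using key
  have key2 : ∀ (PF : ℕ) (kw q : ℝ), ∃ U : ℝ, 0 ≤ kw → 0 ≤ q → Ex97 μ s c PF kw (Ck PF kw) q U (n₁ PF kw) := by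
    intro PF kw q
    by_cases h : 0 ≤ kw ∧ 0 ≤ q
    · obtain ⟨U, HU⟩ := H PF kw h.1 q h.2
      exact ⟨U, fun _ _ => HU⟩
    · exact ⟨0, fun h1 h2 => absurd ⟨h1, h2⟩ h⟩
  choose U HU using key2
  exact ⟨Ck, n₁, U, HU⟩

/-- **THE NUMBERS OF THE RATIO**, `Ck` = any function of the constants before `al` (cf. `rocC19`). -/
theorem rocC97 {S : Is → Cst → Prop} (hc : 0 < c) (Ck : ℕ → ℝ → ℝ) :
    EvC S fun C => RoC41 c C.kw (Ck C.PF C.kw) C.Cr (C.R1 - 1) C.al C.U1n C.Uw C.V1 C.Re C.Qe C.R1 (C.sgm * C.R1) := by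
  filter_upwards [FC.V1_ge S fun _ => 0, FC.Uw_ge S fun _ => 0, FC.sgm_le S (fun _ => c / 80) (fun _ => by positivity),
    FC.Re_ge S fun _ => 0, FC.Qe_ge S fun _ => 0, FC.al_ge S fun C => 2 * C.V1 + Ck C.PF C.kw,
    FC.U1n_ge S fun C => C.Qe + c / 8 * (C.Re + C.kw) + 1,
    FC.R1_ge S fun C => max (max 0 (C.kw + 2)) (max (C.Re + 2) ((2 * C.al + 5 * (1 / 16 + C.Uw) + C.U1n + 2 + c / 2) * (16 / (7 * c)))),
    FC.Cr_ge S fun C => 2 * (2 + 2 * C.al + 5 * (C.sgm * C.R1 + 1 / 16 + C.Uw) + C.U1n)] with C h1 h2 h3 h4 h5 h6 h7 h8 h9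
  have g1 : 0 ≤ C.R1 := ((le_max_left _ _).trans (le_max_left _ _)).trans h8
  have g2 : C.kw + 2 ≤ C.R1 := ((le_max_right _ _).trans (le_max_left _ _)).trans h8
  have g3 : C.Re + 2 ≤ C.R1 := ((le_max_left _ _).trans (le_max_right _ _)).trans h8
  have g4 : (2 * C.al + 5 * (1 / 16 + C.Uw) + C.U1n + 2 + c / 2) * (16 / (7 * c)) ≤ C.R1 :=
    ((le_max_right _ _).trans (le_max_right _ _)).trans h8
  have g5 : C.sgm * C.R1 ≤ c / 80 * C.R1 := mul_le_mul_of_nonneg_right h3.2 g1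
  have g6 : 2 * C.al + 5 * (1 / 16 + C.Uw) + C.U1n + 2 + c / 2 ≤ C.R1 * (7 * c / 16) := by
    have e1 : (2 * C.al + 5 * (1 / 16 + C.Uw) + C.U1n + 2 + c / 2) * (16 / (7 * c)) * (7 * c / 16) =
        2 * C.al + 5 * (1 / 16 + C.Uw) + C.U1n + 2 + c / 2 := by
      field_simp
    have e2 := mul_le_mul_of_nonneg_right g4 (show 0 ≤ 7 * c / 16 by positivity)
    rwa [e1] at e2
  exact
    { V0 := h1
      Re0 := h4
      Qe0 := h5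
      Uw0 := h2
      x0 := mul_nonneg h3.1.le g1
      kb := by linarith
      Rb := by linarith
      bR := by linarith
      al_ge := h6
      U_ge := h7
      b_ge := by nlinarith
      Cr_ge := h9 }

/-- `ExP98` with a smaller exponent. -/
theorem ExP98.mono97 [IsProbabilityMeasure μ] {Γ : Cx} {G : Gm} {Q : Nm98} {R : Nr98} {u : ℕ} {κ : ℤ × ℤ} {T TF : Set Env} {zx zx' : ℝ}
    (h : ExP98 μ s c Γ G Q R u κ T TF zx') (hz : zx ≤ zx') : ExP98 μ s c Γ G Q R u κ T TF zx := fun ω hω η hη i h1 h2 v hv =>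
  (h ω hω η hη i h1 h2 v hv).trans (mul_le_mul_of_nonneg_right (Real.exp_le_exp.2 (mul_le_mul_of_nonneg_right (by linarith) (EE_pos _).le))
    (Pool.Agent.W_7d29a1_C1.SD53.bW_pos Γ _ _ _).le)

/-- **THE PART `ExP98` OVER THE FILTER OF THE CONSTANTS.** -/
theorem exC97 [IsProbabilityMeasure μ] (hI : In μ s c Cc n₀) {ε : ℝ} (zx : Cst → ℝ) (hzx : ∀ C : Cst, zx (C.cut .kb) = zx C) :
    EvC (S0 μ s c Cc ε) fun C => ∀ kap, kap ≤ c / 8 → Ew98 μ s c kap C.P (nm62 μ s c ε C) (cf62 C) fun Γ G _ _ E u κ =>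
      ExP98 μ s c Γ G (nm62 μ s c ε C Γ G E) ((cf62 C).nr μ s c Γ G E) u κ
        (Tx ((Fam98o μ s c C.P (nm62 μ s c ε C) (cf62 C)).TT Γ G E) (fun u => E u / 16) u κ)
        (TF98 μ s c (nm62 μ s c ε C) (cf62 C) Γ G E u κ) (zx C) := by
  have hc := hI.c0
  obtain ⟨Ck, n₁, U, H⟩ := exF97 hI
  filter_upwards [rocC97 (S := S0 μ s c Cc ε) hc Ck, evP40 (S0 μ s c Cc ε), FC.kw_ge (S0 μ s c Cc ε) fun _ => 0,
    FC.qF_ge (S0 μ s c Cc ε) fun _ => 0, FC.sgm_le (S0 μ s c Cc ε) (fun _ => c / 16) (fun _ => by positivity),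
    FC.rc_ge (S0 μ s c Cc ε) fun _ => 5, FC.R1_ge (S0 μ s c Cc ε) fun _ => 2,
    FC.dl_le (S0 μ s c Cc ε) (fun _ => 2) (fun _ => by norm_num), lane2 (μ := μ) (s := s) (c := c) (Cc := Cc) (ε := ε),
    FC.kb_ge (S0 μ s c Cc ε) fun p => p.R1 + (2 * p.V1 + 7 + U p.PF p.kw p.qF + p.sgm * p.rc + 2 * (p.sgm * p.R1) + 3 / 16 * c * p.R1 +
      2 * p.Cr + max 0 (zx p)) * (8 / (3 * c))] with C hroc hP hkw hqF hsg hrc hR1 hdl lane hkb kap hkap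
  obtain ⟨n₂, hn₂⟩ := lane 0
  refine ⟨max (n₁ C.PF C.kw) n₂, fun Γ G mt τ0 E u κ W => ?_⟩
  have W1 := W.w.mono (le_max_left (n₁ C.PF C.kw) n₂)
  rw [P_kw hP] at W1
  have hT := (le_max_right (n₁ C.PF C.kw) n₂).trans (W.w.hT u)
  have hline : C.R1 + (2 * C.V1 + 7 + U C.PF C.kw C.qF + C.sgm * C.rc + 2 * (C.sgm * C.R1) + 3 / 16 * c * C.R1 +
      2 * C.Cr + max 0 (zx C)) * (8 / (3 * c)) ≤ C.kb := by
    rw [← hzx C]
    exact hkb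
  have hroc' : RoC41 c C.kw (Ck C.PF C.kw) C.P.Cr ((cf62 C).R1 - 1) (cf62 C).al (cf62 C).U₁ (cf62 C).Uw (cf62 C).V₁ (cf62 C).Re (cf62 C).Qe
      (cf62 C).R1 ((cf62 C).sgm * (cf62 C).R1) := by
    rw [P_Cr hP]
    exact hroc
  refine ExP98.mono97 (H C.PF C.kw C.qF hkw hqF C.P (nm62 μ s c ε C) (cf62 C) Γ G mt τ0 E u κ kap (max 0 (zx C)) _ _ W1 hkap rfl rfl rfl rfl
    hdl.2 ?_ hroc' ?_ (fun ω hω => W.tc ω hω) fun _ h => h.1) (le_max_right _ _)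
  · rw [W.w.hw u]
    exact (hn₂ _ hT).2.2.wnT
  · refine ⟨hsg.1.le, hsg.2, hrc, hR1, le_max_left _ _, ?_⟩
    rw [P_Cr hP, W.kb, P_kb hP]
    show 2 * C.V1 + 7 + U C.PF C.kw C.qF + C.sgm * C.rc + 2 * (C.sgm * C.R1) + 3 / 16 * c * C.R1 + 2 * C.Cr + max 0 (zx C) ≤
      3 / 8 * c * (C.kb - C.R1)
    have h1 := mul_le_mul_of_nonneg_left hline (show 0 ≤ 3 / 8 * c by positivity)
    have e1 : 3 / 8 * c * (C.R1 + (2 * C.V1 + 7 + U C.PF C.kw C.qF + C.sgm * C.rc + 2 * (C.sgm * C.R1) + 3 / 16 * c * C.R1 +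
        2 * C.Cr + max 0 (zx C)) * (8 / (3 * c))) = 3 / 8 * c * C.R1 + (2 * C.V1 + 7 + U C.PF C.kw C.qF + C.sgm * C.rc +
        2 * (C.sgm * C.R1) + 3 / 16 * c * C.R1 + 2 * C.Cr + max 0 (zx C)) := by
      field_simp
    rw [e1] at h1
    linarith

end

end Pool.Agent.W_7d29a1_C1.Q49
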