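import Pool.Agent.W_7d29a1_C1.SitZ62
import Pool.Agent.W_7d29a1_C1.TamO20
import Pool.Agent.W_7d29a1_C1.SepE98
import Pool.Agent.W_7d29a1_C1.CorK71

/-!
MP_7d29a1_pr, attractor route, [C1] SEP: THE FAR SITES OF THE OLD CONTENT, seen from the rim of the strip (for the field `exc`). (helper52)

* `far52` : one start near the column, the far sites of a later row (tilts `t`, `-t`, profile with a slope);
* `exn52` : the numbers; **`exo52`** : a typical content of the window (`UpF98`, `Far98`, `OuD`, `OuT`).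
-/

set_option autoImplicit false

namespace Pool.Agent.W_7d29a1_C1.Eo52

open Finset MeasureTheory
open Pool.Agent.W_7d29a1_F hiding Bw G
open Pool.Agent.W_7d29a1_h4g Pool.Agent.W_7d29a1_HS
open Pool.Agent.W_7d29a1_H hiding ex gg
open Pool.Agent.W_7d29a1_L (T exp_T)
open Pool.Agent.W_7d29a1_C1.K91 (wt wt_pos)
open Pool.Agent.W_7d29a1_C1.K91P (fw bw bw_pos)
open Pool.Agent.W_7d29a1_C1.U16 (ker ker_nonneg ker_eq_zero ker_W lat16)
open Pool.Agent.W_7d29a1_C1.H60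
open Pool.Agent.W_7d29a1_C1.H75 (hc)
open Pool.Agent.W_7d29a1_C1.G37 (Gm)
open Pool.Agent.W_7d29a1_C1.Ou37 (gam bn bn_pos bw_bn Zo OuT OuD)
open Pool.Agent.W_7d29a1_C1.SD53
open Pool.Agent.W_7d29a1_C1.Hc62 (la la_sub gam_add)
open Pool.Agent.W_7d29a1_C1.Sz62 (kb62)
open Pool.Agent.W_7d29a1_C1.D98

noncomputable section

attribute [local instance 10] Classical.propDecidable

variable {μ : Measure ℝ} {s : ℝ} {Γ : Cx} {G : Gm} {u : ℕ} {κ : ℤ × ℤ}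

/-- **ONE START NEAR THE COLUMN, THE FAR SITES OF THE ROW `r + n`.** -/
theorem far52 (hs : Γ.s = s) {g : ℝ} {r n : ℕ} (hg : (g = Γ.h ∧ r + n ≤ Γ.M) ∨ (g = 0 ∧ Γ.M ≤ r)) (hN : r + n ≤ Γ.N) {η : Env} {z : ℤ}
    {c0 t V X x₁ ρ₀ ρ₁ : ℝ} (h1 : T μ s (sl μ s) t η ((r : ℤ), z) n ≤ V) (h2 : T μ s (sl μ s) (-t) η ((r : ℤ), z) n ≤ V)
    (hx₁ : 0 ≤ x₁) (hgt : |g| + x₁ ≤ t) (hz : |la (sl μ s) c0 r z| ≤ ρ₀) {A : Set ℤ}
    (hA : ∀ v ∈ A, ρ₁ ≤ |la (sl μ s) c0 (r + n) v|)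
    (hX : ∀ v ∈ A, bn μ s Γ (r + n) v η ≤ Real.exp (X + x₁ * |la (sl μ s) c0 (r + n) v|) * bn μ s Γ r z η) :
    QA Γ η (r + n) A r z ≤ 2 * Real.exp (V + X + x₁ * ρ₀ - (t - |g| - x₁) * (ρ₁ - ρ₀)) * bW Γ η r z := by
  have hb := bn_pos (μ := μ) (s := s) (Γ := Γ) r z η
  have hB := bW_pos Γ η r z
  have hg1 := neg_abs_le g
  have hg2 := le_abs_self g
  have hm : 0 ≤ t - |g| - x₁ := by linarith
  obtain ⟨Kc, hKc⟩ : ∃ Kc : ℝ, Kc = Real.exp (X + x₁ * ρ₀ - (t - |g| - x₁) * (ρ₁ - ρ₀)) := ⟨_, rfl⟩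
  have hKc0 : 0 < Kc := by rw [hKc]; exact Real.exp_pos _
  have key : ∀ v, ker (wt η) Γ.p r n z v * tf Γ η (r + n) A v ≤
      Kc * bW Γ η r z * (W μ s η ((r : ℤ), z) n (v - z) * Real.exp (t * (((v - z : ℤ) : ℝ) - sl μ s * n)) +
        W μ s η ((r : ℤ), z) n (v - z) * Real.exp (-t * (((v - z : ℤ) : ℝ) - sl μ s * n))) := by
    intro v
    have hW : 0 ≤ W μ s η ((r : ℤ), z) n (v - z) := W_nonneg _ _ _ _
    by_cases hv : v ∈ A
    · rw [tf_mem hv]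
      refine le_of_mul_le_mul_right ?_ hb
      rw [kb62 (μ := μ) hs hg hN η z v]
      obtain ⟨Δ, hΔ⟩ : ∃ Δ : ℝ, Δ = ((v - z : ℤ) : ℝ) - sl μ s * n := ⟨_, rfl⟩
      have hΔ' : Δ = la (sl μ s) c0 (r + n) v - la (sl μ s) c0 r z := by
        rw [hΔ]
        exact la_sub (c0 := c0) r n z v
      rw [← hΔ]
      have f1 : |la (sl μ s) c0 (r + n) v| ≤ |Δ| + ρ₀ := by
        have : la (sl μ s) c0 (r + n) v = Δ + la (sl μ s) c0 r z := by rw [hΔ']; ring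
        rw [this]
        exact (abs_add_le _ _).trans (by linarith)
      have f2 : ρ₁ - ρ₀ ≤ |Δ| := by have := hA v hv; linarith
      have f3 : g * Δ ≤ |g| * |Δ| := by rw [← abs_mul]; exact le_abs_self _
      have f4 := mul_le_mul_of_nonneg_left f1 hx₁
      have f5 := mul_le_mul_of_nonneg_left f2 hm
      have e1 : Real.exp (g * Δ) * Real.exp (X + x₁ * |la (sl μ s) c0 (r + n) v|) ≤ Kc * (Real.exp (t * Δ) + Real.exp (-t * Δ)) := by
        have h3 : Real.exp (t * |Δ|) ≤ Real.exp (t * Δ) + Real.exp (-t * Δ) := by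
          rcases abs_cases Δ with ⟨h4, -⟩ | ⟨h4, -⟩
          · rw [h4]
            linarith [Real.exp_pos (-t * Δ)]
          · rw [h4]
            have e : t * -Δ = -t * Δ := by ring
            rw [e]
            linarith [Real.exp_pos (t * Δ)]
        refine le_trans ?_ (mul_le_mul_of_nonneg_left h3 hKc0.le)
        rw [hKc, ← Real.exp_add, ← Real.exp_add]
        refine Real.exp_le_exp.2 ?_
        have e : (t - |g| - x₁) * |Δ| = t * |Δ| - |g| * |Δ| - x₁ * |Δ| := by ring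
        nlinarith
      calc Real.exp (g * Δ) * W μ s η ((r : ℤ), z) n (v - z) * bn μ s Γ (r + n) v η * bW Γ η r z
          ≤ Real.exp (g * Δ) * W μ s η ((r : ℤ), z) n (v - z) *
              (Real.exp (X + x₁ * |la (sl μ s) c0 (r + n) v|) * bn μ s Γ r z η) * bW Γ η r z := by
            refine mul_le_mul_of_nonneg_right (mul_le_mul_of_nonneg_left (hX v hv) ?_) hB.le
            exact mul_nonneg (Real.exp_pos _).le hW
        _ = (Real.exp (g * Δ) * Real.exp (X + x₁ * |la (sl μ s) c0 (r + n) v|)) *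
              (W μ s η ((r : ℤ), z) n (v - z) * bn μ s Γ r z η * bW Γ η r z) := by ring
        _ ≤ (Kc * (Real.exp (t * Δ) + Real.exp (-t * Δ))) * (W μ s η ((r : ℤ), z) n (v - z) * bn μ s Γ r z η * bW Γ η r z) :=
            mul_le_mul_of_nonneg_right e1 (mul_nonneg (mul_nonneg hW hb.le) hB.le)
        _ = _ := by ring
    · rw [tf_not hv, mul_zero]
      exact mul_nonneg (mul_nonneg hKc0.le hB.le) (add_nonneg (mul_nonneg hW (Real.exp_pos _).le) (mul_nonneg hW (Real.exp_pos _).le))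
  have hsum : ∀ τ : ℝ, ∑ v ∈ Icc z (z + (n : ℤ)), W μ s η ((r : ℤ), z) n (v - z) * Real.exp (τ * (((v - z : ℤ) : ℝ) - sl μ s * n)) =
      Real.exp (T μ s (sl μ s) τ η ((r : ℤ), z) n) := by
    intro τ
    rw [exp_T]
    refine sum_bij' (fun v _ => v - z) (fun y _ => y + z) ?_ ?_ ?_ ?_ ?_
    · intro v hv
      rw [mem_Icc] at hv ⊢
      omega
    · intro y hy
      rw [mem_Icc] at hy ⊢
      omega
    · intro v _
      ring
    · intro y _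
      ring
    · intro v _
      rfl
  have hQ : QA Γ η (r + n) A r z = ∑ v ∈ Icc z (z + (n : ℤ)), ker (wt η) Γ.p r n z v * tf Γ η (r + n) A v := by
    unfold QA
    rw [Sp22.bf_ker, Nat.add_sub_cancel_left]
  rw [hQ]
  refine (sum_le_sum fun v _ => key v).trans ?_
  rw [← mul_sum, sum_add_distrib, hsum, hsum]
  have h5 : Real.exp (T μ s (sl μ s) t η ((r : ℤ), z) n) ≤ Real.exp V := Real.exp_le_exp.2 h1
  have h6 : Real.exp (T μ s (sl μ s) (-t) η ((r : ℤ), z) n) ≤ Real.exp V := Real.exp_le_exp.2 h2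
  have e3 : Real.exp (V + X + x₁ * ρ₀ - (t - |g| - x₁) * (ρ₁ - ρ₀)) = Kc * Real.exp V := by
    rw [hKc, ← Real.exp_add]
    congr 1
    ring
  rw [e3]
  have h7 := mul_le_mul_of_nonneg_left (add_le_add h5 h6) (show 0 ≤ Kc * bW Γ η r z from mul_nonneg hKc0.le hB.le)
  linarith

/-- The coordinate of the window. -/
theorem la_lat52 (hv : G.v = sl μ s) (k : ℕ) (y : ℤ) : la (sl μ s) (G.ctr u κ) k y = G.lat (k, y) - G.ctr u κ := by
  unfold la Gm.lat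
  rw [hv]

/-- The site on the line through the centre. -/
theorem co_lat52 (k : ℕ) : |G.lat (k, co98 G u κ k) - G.ctr u κ| ≤ 1 := by
  have h1 := Int.floor_le (G.ctr u κ + G.v * (k : ℝ))
  have h2 := Int.lt_floor_add_one (G.ctr u κ + G.v * (k : ℝ))
  have e : G.lat (k, co98 G u κ k) - G.ctr u κ = ((⌊G.ctr u κ + G.v * (k : ℝ)⌋ : ℤ) : ℝ) - (G.ctr u κ + G.v * (k : ℝ)) := by
    unfold Gm.lat co98
    ring
  rw [e, abs_le]
  constructor <;> linarith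

/-- The coordinate from a site of the line. -/
theorem lat16_52 (hv : G.v = sl μ s) (r k : ℕ) (x : ℤ) :
    |lat16 μ s (pt98 G u κ r) ((k : ℤ), x)| ≤ |G.lat (k, x) - G.ctr u κ| + 1 := by
  have h1 := co_lat52 (G := G) (u := u) (κ := κ) r
  have e : lat16 μ s (pt98 G u κ r) ((k : ℤ), x) = (G.lat (k, x) - G.ctr u κ) - (G.lat (r, co98 G u κ r) - G.ctr u κ) := by
    unfold lat16 pt98 Gm.lat
    rw [hv]
    push_cast
    ring
  rw [e]
  exact (abs_sub _ _).trans (by linarith)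

/-- **THE FAR SITES OF A TYPICAL CONTENT**, seen from a site of the column `b w + 1`. -/
theorem exo52 [IsProbabilityMeasure μ] {c C : ℝ} {n₀ : ℕ} (h0 : In μ s c C n₀) (PF : ℕ) {θ K : ℝ} (hK : 4 ≤ K) (hθ : 0 < θ)
    (hθ1 : θ ≤ 1 / 8) : ∃ n₁ : ℕ, 1 ≤ n₁ ∧ ∀ q : ℝ, 0 ≤ q → ∃ U : ℝ, 0 < U ∧
    ∀ {Γ : Cx} {G : Gm} {P : Nm98} {R : Nr98} {E : ℕ → ℝ} {rc Q4 sgm sg V₁ R₁ xR b : ℝ} {u : ℕ} {κ : ℤ × ℤ} {ω : Env},
    n₁ ≤ G.T u → 1 ≤ u → Γ.s = s → G.v = sl μ s → G.w u = wd μ s (G.T u) → E u = EE μ s (G.T u) →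
    |Γ.h| * wd μ s (G.T u) ≤ c / 8 * EE μ s (G.T u) → 0 ≤ G.rcc u κ → G.re u κ ≤ Γ.N → Fit98 G P u → NoSw98 Γ G u κ →
    P.PF = PF → P.th = θ → P.KF = K → P.qF = q → 0 ≤ sgm → sgm ≤ c / 16 → sg ≤ E u → 5 ≤ rc → R.Vs u ≤ V₁ * E u →
    R.sV u ≤ c / 16 * (E u / G.w u) → ω ∈ Far98 μ s c G P u κ → ω ∈ OuD μ s Γ G E rc Q4 sgm sg u κ → ω ∈ UpF98 μ s c Γ G P R u κ →
    ω ∈ OuT μ s Γ G E R₁ xR sg u κ → 0 ≤ b → b + 1 ≤ R₁ → b * G.w u + 2 ≤ G.kb * G.w u →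
    ∀ (k i : ℕ) (x : ℤ), rl98 Γ G P u κ ≤ k → k ≤ i + 1 → i < rl98 Γ G P u κ + 2 * P.T u → |G.lat (k, x) - G.ctr u κ| ≤ b * G.w u + 1 →
      QA Γ ω (i + 1) {y | G.kb * G.w u - 1 ≤ |G.lat (i + 1, y) - G.ctr u κ|} k x ≤
        Real.exp ((V₁ + U + Q4 + xR + 2 + c + c / 4 * (b + 1) - 3 / 4 * c * (G.kb - b)) * E u) * bW Γ ω k x := by
  obtain ⟨n₁, hn₁, H⟩ := TamV20.profO20 h0 PF hK hθ
  obtain ⟨n₂, hn₂⟩ := Filter.eventually_atTop.1 ((wd_tendsto h0).eventually_ge_atTop 2)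
  have hc0 := h0.c0
  refine ⟨max n₁ n₂, hn₁.trans (le_max_left _ _), fun q hq => ?_⟩
  obtain ⟨U, hU, H⟩ := H q (c / 16) 1 hq (by positivity) zero_le_one
  refine ⟨U, hU, ?_⟩
  intro Γ G P R E rc Q4 sgm sg V₁ R₁ xR b u κ ω hT hu hs hv hw hE hh hr0 hreN hF hNo hPF hth hKF hqF hsgm hsgc hsg hrc hVs hsV hFar hOu hUp
    hR1 hb hbR hρ' k i x hk hki hi hx
  have hT1 : n₁ ≤ G.T u := (le_max_left _ _).trans hT
  have hw2 : 2 ≤ G.w u := by rw [hw]; exact hn₂ _ ((le_max_right _ _).trans hT)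
  have hw0 : 0 < G.w u := by linarith
  have hE1 : 1 ≤ E u := by rw [hE]; exact one_le_EE _
  have hb98 := b98_T (Γ := Γ) (κ := κ) hF
  have eb : b98 Γ G P u κ = rl98 Γ G P u κ + 3 * P.T u := rfl
  have hrl := ra_le_rl98 (Γ := Γ) (G := G) (P := P) (u := u) (κ := κ)
  have hra := G.ra_le_re u κ
  have hi1 : i + 1 ≤ rl98 Γ G P u κ + 2 * P.T u := hi
  obtain ⟨n, hn⟩ : ∃ n, n = i + 1 - k := ⟨_, rfl⟩
  have ekn : k + n = i + 1 := by omega
  have hkre : k + n + G.T u / 8 + 3 ≤ G.re u κ := by omega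
  -- one slope
  obtain ⟨g, hg, hgh⟩ : ∃ g : ℝ, ((g = Γ.h ∧ k + n ≤ Γ.M) ∨ (g = 0 ∧ Γ.M ≤ k)) ∧ |g| ≤ |Γ.h| := by
    rcases noM98 hNo with h2 | h2
    · exact ⟨0, Or.inr ⟨rfl, by omega⟩, by rw [abs_zero]; exact abs_nonneg _⟩
    · exact ⟨Γ.h, Or.inl ⟨rfl, by omega⟩, le_rfl⟩
  -- the unit `E / w`
  obtain ⟨e, he⟩ : ∃ e : ℝ, e = E u / G.w u := ⟨_, rfl⟩
  have hew : e * G.w u = E u := by rw [he, div_mul_cancel₀ _ hw0.ne']
  have he0 : 0 < e := by rw [he]; positivity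
  have hh' : |Γ.h| ≤ c / 8 * e := by
    rw [← hw, ← hE] at hh
    have h3 : |Γ.h| * G.w u ≤ c / 8 * e * G.w u := by rw [mul_assoc, hew]; exact hh
    exact le_of_mul_le_mul_right h3 hw0
  have ht : hc μ s c (G.T u) = c * e := by
    unfold hc
    rw [← hw, ← hE, he, mul_div_assoc]
  -- the upper kernels
  have hUp1 := hUp ((k : ℤ), x) n (by show ((rl98 Γ G P u κ : ℕ) : ℤ) ≤ (k : ℤ); omega) (by
    show (k : ℤ) + (n : ℤ) ≤ ((rl98 Γ G P u κ : ℕ) : ℤ) + ((G.re u κ - 1 - rl98 Γ G P u κ : ℕ) : ℤ)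
    omega)
  have hl1 : |lat16 μ s (pt98 G u κ (rl98 Γ G P u κ)) ((k : ℤ), x)| ≤ (b + 1) * G.w u := by
    have h3 := lat16_52 (μ := μ) (s := s) (G := G) (u := u) (κ := κ) hv (rl98 Γ G P u κ) k x
    linarith
  have hV : R.Vs u + R.sV u * |lat16 μ s (pt98 G u κ (rl98 Γ G P u κ)) ((k : ℤ), x)| ≤ (V₁ + c / 16 * (b + 1)) * E u := by
    have h3 : R.sV u * |lat16 μ s (pt98 G u κ (rl98 Γ G P u κ)) ((k : ℤ), x)| ≤ c / 16 * (E u / G.w u) * ((b + 1) * G.w u) :=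
      mul_le_mul hsV hl1 (abs_nonneg _) (by positivity)
    have e1 : c / 16 * (E u / G.w u) * ((b + 1) * G.w u) = c / 16 * (b + 1) * E u := by
      rw [← he, ← hew]
      ring
    rw [e1] at h3
    linarith
  -- the profile
  have hFar' : ω ∈ U16.Far16 μ s c θ K (G.T u) (G.re u κ - (G.ra u κ - 1)) PF (((G.ra u κ - 1 : ℕ) : ℤ), co98 G u κ (G.ra u κ - 1)) q := by
    have h3 : ω ∈ U16.Far16 μ s c P.th P.KF (G.T u) (G.re u κ - (G.ra u κ - 1)) P.PF (G.base u κ) P.qF := hFar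
    rw [← base98 hr0, hth, hKF, hPF, hqF] at h3
    exact h3
  have hra1 := ra_pos98 (G := G) (u := u) (κ := κ)
  have hTk : θ * G.T u ≤ ((G.re u κ - k : ℕ) : ℝ) := by
    have h8 : G.T u ≤ 8 * (G.re u κ - k) := by omega
    have h9 : (G.T u : ℝ) ≤ 8 * ((G.re u κ - k : ℕ) : ℝ) := by exact_mod_cast h8
    have h10 : (0 : ℝ) ≤ G.T u := Nat.cast_nonneg _
    nlinarith
  have co1 := co_lat52 (G := G) (u := u) (κ := κ) k
  have hprof : ∀ v : ℤ, bn μ s Γ (k + n) v ω ≤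
      Real.exp ((U + Q4 + (c / 16 + sgm) * (|G.lat (k + n, v) - G.ctr u κ| / G.w u)) * E u) * bn μ s Γ k (co98 G u κ k) ω := by
    intro v
    refine H (R := rc) (N := G.re u κ - (G.ra u κ - 1)) (i := G.ra u κ - 1) (col := co98 G u κ (G.ra u κ - 1)) hT1 ?_ hs hv hw hE hh hFar' ?_ ?_
      hreN hsgm (by linarith) hsg (by linarith) hOu k (k + n) (co98 G u κ k) v (by omega) (by omega) hTk (by omega) (by omega)
      (by rw [one_mul]; linarith)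
    · have e := G.re_sub_ra u κ
      have e1 := G.T_pos (u - 1)
      omega
    · exact (co_lat52 _).trans (by linarith)
    · omega
  have hR : bn μ s Γ k (co98 G u κ k) ω ≤ Real.exp (xR * E u + sg) * bn μ s Γ k x ω := by
    refine hR1 (k, x) ⟨by show G.ra u κ ≤ k + 1; omega, by show k ≤ G.re u κ; omega, hx.trans ?_⟩ (k, co98 G u κ k)
      ⟨by show G.ra u κ ≤ k + 1; omega, by show k ≤ G.re u κ; omega, co1.trans ?_⟩
    · have := mul_le_mul_of_nonneg_right hbR hw0.le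
      linarith
    · have := mul_le_mul_of_nonneg_right hbR hw0.le
      nlinarith
  obtain ⟨X, hX⟩ : ∃ X : ℝ, X = (U + Q4) * E u + (xR * E u + sg) := ⟨_, rfl⟩
  obtain ⟨x₁, hx₁⟩ : ∃ x₁ : ℝ, x₁ = (c / 16 + sgm) * e := ⟨_, rfl⟩
  have hx₁0 : 0 ≤ x₁ := by rw [hx₁]; positivity
  have hx₁c : x₁ ≤ c / 8 * e := by
    rw [hx₁]
    exact mul_le_mul_of_nonneg_right (by linarith) he0.le
  have hXX : ∀ v ∈ {y : ℤ | G.kb * G.w u - 1 ≤ |G.lat (i + 1, y) - G.ctr u κ|},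
      bn μ s Γ (k + n) v ω ≤ Real.exp (X + x₁ * |la (sl μ s) (G.ctr u κ) (k + n) v|) * bn μ s Γ k x ω := by
    intro v _
    refine (hprof v).trans ((mul_le_mul_of_nonneg_left hR (Real.exp_pos _).le).trans (le_of_eq ?_))
    rw [la_lat52 hv, ← mul_assoc, ← Real.exp_add]
    congr 2
    rw [hX, hx₁, he]
    ring
  have key := far52 (μ := μ) (s := s) (Γ := Γ) hs hg (by omega) (η := ω) (z := x) (c0 := G.ctr u κ) (t := hc μ s c (G.T u))
    (V := (V₁ + c / 16 * (b + 1)) * E u) (X := X) (x₁ := x₁) (ρ₀ := b * G.w u + 1) (ρ₁ := G.kb * G.w u - 1)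
    (hUp1.2.1.trans hV) (hUp1.2.2.trans hV) hx₁0 (by rw [ht]; nlinarith) (by rw [la_lat52 hv]; exact hx)
    (A := {y : ℤ | G.kb * G.w u - 1 ≤ |G.lat (i + 1, y) - G.ctr u κ|}) (fun v hv' => by rw [la_lat52 hv, ekn]; exact hv') hXX
  rw [ekn] at key
  refine key.trans (mul_le_mul_of_nonneg_right ?_ (bW_pos Γ ω k x).le)
  have h2 : (2 : ℝ) ≤ Real.exp (E u) := by
    have := Real.add_one_le_exp (E u)
    linarith
  refine (mul_le_mul_of_nonneg_right h2 (Real.exp_pos _).le).trans ?_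
  rw [← Real.exp_add]
  refine Real.exp_le_exp.2 ?_
  rw [ht]
  have m0 : 3 / 4 * c * e ≤ c * e - |g| - x₁ := by nlinarith
  have hE0 : 0 < E u := by linarith
  have hρ : b * G.w u + 1 ≤ G.kb * G.w u - 1 := by linarith
  have m1 : 3 / 4 * c * e * ((G.kb * G.w u - 1) - (b * G.w u + 1)) ≤ (c * e - |g| - x₁) * ((G.kb * G.w u - 1) - (b * G.w u + 1)) :=
    mul_le_mul_of_nonneg_right m0 (by linarith)
  have m2 : 3 / 4 * c * e * ((G.kb * G.w u - 1) - (b * G.w u + 1)) = 3 / 4 * c * (G.kb - b) * E u - 3 / 2 * c * e := by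
    rw [← hew]
    ring
  have m3 : 2 * e ≤ E u := by rw [← hew]; nlinarith
  have m4 : x₁ * (b * G.w u + 1) ≤ c / 8 * (b + 1) * E u := by
    have h3 : x₁ * (b * G.w u + 1) ≤ c / 8 * e * (b * G.w u + 1) := mul_le_mul_of_nonneg_right hx₁c (by positivity)
    have h4 : c / 8 * e * (b * G.w u + 1) = c / 8 * (b * E u) + c / 8 * e := by
      rw [← hew]
      ring
    have h5 : c / 8 * e ≤ c / 8 * E u := mul_le_mul_of_nonneg_left (by linarith) (by positivity)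
    have h6 : c / 8 * (b + 1) * E u = c / 8 * (b * E u) + c / 8 * E u := by ring
    linarith
  have m5 : 3 / 2 * c * e ≤ c * E u := by nlinarith
  have m6 : (c / 16 * (b + 1) + c / 8 * (b + 1)) * E u ≤ c / 4 * (b + 1) * E u := by
    refine mul_le_mul_of_nonneg_right ?_ hE0.le
    nlinarith
  rw [hX]
  nlinarith

end

end Pool.Agent.W_7d29a1_C1.Eo52
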