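import Pool.Agent.W_7d29a1_C1.Col30

/-!
MP_7d29a1_pr, attractor route, [C1] SEP, field `exc` of `WQ28`: **FROM THE LAST VISIT OF A STRIP** (helper15; the line is helper52's)

`w'` = new weights, `w` = old ones; they agree off the strip `Wd` and on its rim `Rm` (the strip contains the window of the changed sites).
* `lv15` : the new paths from `v` which are in `A` (off the strip) at the row `b + n`: sum over the last site `x` of the strip of the
  quotient (old kernel from `x`, new future) / (new future of `x`); nothing is asked of the paths inside of the strip;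
* `lv15r` : the same with the price `e₁ e₂` of the futures (new against old) and one bound `s` of the old quotient.
-/

set_option autoImplicit false

namespace Pool.Agent.W_7d29a1_C1.ExV15

open Finset
open Pool.Agent.W_7d29a1_C1.K91P hiding ZZ
open Pool.Agent.W_7d29a1_C1.U16 (ker ker_zero ker_succ ker_eq_zero ker_nonneg ker_congr dlt)
open Pool.Agent.W_7d29a1_C1.Gt66 (ms All ks ms_all_zero ms_all_succ ms_off ms_in ms_nonneg duhamel)
open Pool.Agent.W_7d29a1_C1.Col30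

noncomputable section

variable {w w' : ℕ → ℤ → ℝ} {p : ℕ → ℝ} {m : ℤ → ℝ} {N : ℕ}

theorem ms_nil15 {b : ℕ} {A : ℕ → ℤ → Prop} (h : ∀ y, ms w p b A m 0 y = 0) : ∀ (n : ℕ) (y : ℤ), ms w p b A m n y = 0
  | 0, y => h y
  | n + 1, y => by
    by_cases h1 : A (n + 1) y
    · rw [ms_in h1, ms_nil15 h n y, ms_nil15 h n (y - 1)]
      ring
    · exact ms_off h1

/-- The kernel at a site off the strip, from the last visit. -/
theorem ker_lv15 (hw : ∀ k y, 0 < w k y) (hw' : ∀ k y, 0 < w' k y) (hp : ∀ k, 0 < p k) {b n : ℕ} {Wd Rm : ℕ → Finset ℤ}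
    (hR : ∀ j x, x ∈ Wd j → (x ∉ Wd (j + 1) ∨ x + 1 ∉ Wd (j + 1)) → x ∈ Rm j)
    (hout : ∀ j, ∀ y, y ∉ Wd j → w' (b + j) y = w (b + j) y) (hrim : ∀ j < n, ∀ x ∈ Rm j, w' (b + j) x = w (b + j) x)
    {v y : ℤ} (hv : v ∈ Wd 0) (hy : y ∉ Wd n) :
    ker w' p b n v y ≤ ∑ j ∈ range n, ∑ x ∈ Rm j, ker w' p b j v x * ker w p (b + j) (n - j) x y := by
  have h2 := duhamel (w := w') (p := p) (a := b) (A := All) (m := dlt v) (V := fun j y => y ∉ Wd j) (Rm := Rm)
    (fun k y => (hw' k y).le) (fun k => (hp k).le) (fun y => by unfold dlt; split_ifs <;> norm_num)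
    (fun j x h3 h4 => hR j x (not_not.1 h3) h4) n y
  have h3 : ms w' p b (fun j y => All j y ∧ y ∉ Wd j) (dlt v) n y = 0 := by
    refine ms_nil15 (fun z => ?_) n y
    unfold ms
    by_cases h5 : z = v
    · rw [if_neg]
      rw [h5]
      exact fun h6 => h6.2 hv
    · unfold dlt
      split_ifs <;> simp_all
  rw [ms_ker30, h3, if_pos hy, zero_add, add_zero] at h2
  refine h2.trans (sum_le_sum fun j hj => sum_le_sum fun x hx => ?_)
  have hj' := mem_range.1 hj
  have h4 := ks_le30 hw hp (b := b) (j := j) (V := fun j y => y ∉ Wd j) (x := x) hout (le_refl (1 : ℝ))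
    (by rw [one_mul]; exact (hrim j hj' x hx).le) (n - j) y
  have h5 : ks w' p b (fun j y => y ∉ Wd j) n j x y =
      ms w' p (b + j) (fun i y => i = 0 ∨ y ∉ Wd (j + i)) (dlt x) (n - j) y := rfl
  rw [ms_ker30, h5]
  rw [one_mul] at h4
  exact mul_le_mul_of_nonneg_left h4 (ker_nonneg hw' hp b j v x)

/-- **FROM THE LAST VISIT OF THE STRIP.** -/
theorem lv15 (hw : ∀ k y, 0 < w k y) (hw' : ∀ k y, 0 < w' k y) (hp : ∀ k, 0 < p k) {b n : ℕ} (hn : b + n ≤ N)
    {Wd Rm : ℕ → Finset ℤ} (hR : ∀ j x, x ∈ Wd j → (x ∉ Wd (j + 1) ∨ x + 1 ∉ Wd (j + 1)) → x ∈ Rm j)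
    (hout : ∀ j, ∀ y, y ∉ Wd j → w' (b + j) y = w (b + j) y) (hrim : ∀ j < n, ∀ x ∈ Rm j, w' (b + j) x = w (b + j) x)
    {A : Finset ℤ} (hA : ∀ y ∈ A, y ∉ Wd n) {v : ℤ} (hv : v ∈ Wd 0) {r : ℕ → ℤ → ℝ}
    (hr : ∀ j < n, ∀ x ∈ Rm j, ∑ y ∈ A, ker w p (b + j) (n - j) x y * bw w' p (b + n) (N - (b + n)) y ≤
      r j x * bw w' p (b + j) (N - (b + j)) x) :
    ∑ y ∈ A, ker w' p b n v y * bw w' p (b + n) (N - (b + n)) y ≤
      (∑ j ∈ range n, ∑ x ∈ Rm j, r j x) * bw w' p b (N - b) v := by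
  have F0 : ∀ y, 0 < bw w' p (b + n) (N - (b + n)) y := fun y => bw_pos hw' hp _ _ _
  calc _ ≤ ∑ y ∈ A, (∑ j ∈ range n, ∑ x ∈ Rm j, ker w' p b j v x * ker w p (b + j) (n - j) x y) *
        bw w' p (b + n) (N - (b + n)) y :=
        sum_le_sum fun y hy => mul_le_mul_of_nonneg_right (ker_lv15 hw hw' hp hR hout hrim hv (hA y hy)) (F0 y).le
    _ = ∑ j ∈ range n, ∑ x ∈ Rm j, ker w' p b j v x *
          ∑ y ∈ A, ker w p (b + j) (n - j) x y * bw w' p (b + n) (N - (b + n)) y := by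
        have e1 : ∀ y ∈ A, (∑ j ∈ range n, ∑ x ∈ Rm j, ker w' p b j v x * ker w p (b + j) (n - j) x y) *
            bw w' p (b + n) (N - (b + n)) y = ∑ j ∈ range n, ∑ x ∈ Rm j,
              ker w' p b j v x * (ker w p (b + j) (n - j) x y * bw w' p (b + n) (N - (b + n)) y) := fun y _ => by
          rw [sum_mul]
          refine sum_congr rfl fun j _ => ?_
          rw [sum_mul]
          exact sum_congr rfl fun x _ => by ring
        rw [sum_congr rfl e1, sum_comm]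
        refine sum_congr rfl fun j _ => ?_
        rw [sum_comm]
        exact sum_congr rfl fun x _ => by rw [mul_sum]
    _ ≤ ∑ j ∈ range n, ∑ x ∈ Rm j, r j x * bw w' p b (N - b) v := by
        refine sum_le_sum fun j hj => sum_le_sum fun x hx => ?_
        have hj' := mem_range.1 hj
        have k0 := ker_nonneg hw' hp b j v x
        have h1 := hr j hj' x hx
        have B0 : 0 < bw w' p (b + j) (N - (b + j)) x := bw_pos hw' hp _ _ _
        have r0 : 0 ≤ r j x := by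
          have h2 : 0 ≤ ∑ y ∈ A, ker w p (b + j) (n - j) x y * bw w' p (b + n) (N - (b + n)) y :=
            sum_nonneg fun y _ => mul_nonneg (ker_nonneg hw hp _ _ _ _) (F0 y).le
          by_contra hcon
          have := mul_neg_of_neg_of_pos (not_le.1 hcon) B0
          linarith
        have h3 := part30 (w := w') (N := N) hw' hp (show b ≤ b + j by omega) (show b + j ≤ N by omega) {x} v
        rw [sum_singleton, show b + j - b = j by omega] at h3
        calc _ ≤ ker w' p b j v x * (r j x * bw w' p (b + j) (N - (b + j)) x) := mul_le_mul_of_nonneg_left h1 k0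
          _ = r j x * (ker w' p b j v x * bw w' p (b + j) (N - (b + j)) x) := by ring
          _ ≤ _ := mul_le_mul_of_nonneg_left h3 r0
    _ = _ := by
        rw [sum_mul]
        exact sum_congr rfl fun j _ => by rw [sum_mul]

/-- **THE SAME WITH THE PRICE OF THE FUTURES.** -/
theorem lv15r (hw : ∀ k y, 0 < w k y) (hw' : ∀ k y, 0 < w' k y) (hp : ∀ k, 0 < p k) {b n : ℕ} (hn : b + n ≤ N)
    {Wd Rm : ℕ → Finset ℤ} (hR : ∀ j x, x ∈ Wd j → (x ∉ Wd (j + 1) ∨ x + 1 ∉ Wd (j + 1)) → x ∈ Rm j)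
    (hout : ∀ j, ∀ y, y ∉ Wd j → w' (b + j) y = w (b + j) y) (hrim : ∀ j < n, ∀ x ∈ Rm j, w' (b + j) x = w (b + j) x)
    {A : Finset ℤ} (hA : ∀ y ∈ A, y ∉ Wd n) {v : ℤ} (hv : v ∈ Wd 0) {e₁ e₂ s : ℝ} (he₁ : 0 ≤ e₁) (hs0 : 0 ≤ s)
    (h1 : ∀ y ∈ A, bw w' p (b + n) (N - (b + n)) y ≤ e₁ * bw w p (b + n) (N - (b + n)) y)
    (h2 : ∀ j < n, ∀ x ∈ Rm j, bw w p (b + j) (N - (b + j)) x ≤ e₂ * bw w' p (b + j) (N - (b + j)) x)
    (hs : ∀ j < n, ∀ x ∈ Rm j, ∑ y ∈ A, ker w p (b + j) (n - j) x y * bw w p (b + n) (N - (b + n)) y ≤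
      s * bw w p (b + j) (N - (b + j)) x) :
    ∑ y ∈ A, ker w' p b n v y * bw w' p (b + n) (N - (b + n)) y ≤
      ((∑ j ∈ range n, (Rm j).card : ℕ) : ℝ) * (e₁ * e₂ * s) * bw w' p b (N - b) v := by
  have h3 := lv15 (N := N) hw hw' hp hn hR hout hrim hA hv (r := fun _ _ => e₁ * e₂ * s) (fun j hj x hx => by
    calc _ ≤ ∑ y ∈ A, e₁ * (ker w p (b + j) (n - j) x y * bw w p (b + n) (N - (b + n)) y) := by
          refine sum_le_sum fun y hy => ?_
          have h4 := mul_le_mul_of_nonneg_left (h1 y hy) (ker_nonneg hw hp (b + j) (n - j) x y)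
          linarith
      _ = e₁ * ∑ y ∈ A, ker w p (b + j) (n - j) x y * bw w p (b + n) (N - (b + n)) y := by rw [mul_sum]
      _ ≤ e₁ * (s * (e₂ * bw w' p (b + j) (N - (b + j)) x)) :=
          mul_le_mul_of_nonneg_left ((hs j hj x hx).trans (mul_le_mul_of_nonneg_left (h2 j hj x hx) hs0)) he₁
      _ = _ := by ring)
  refine h3.trans (le_of_eq ?_)
  have e1 : ∑ j ∈ range n, ∑ _x ∈ Rm j, e₁ * e₂ * s = ((∑ j ∈ range n, (Rm j).card : ℕ) : ℝ) * (e₁ * e₂ * s) := by
    rw [Nat.cast_sum, sum_mul]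
    exact sum_congr rfl fun j _ => by rw [sum_const, nsmul_eq_mul]
  rw [e1]

end

end Pool.Agent.W_7d29a1_C1.ExV15
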