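import Pool.Agent.W_7d29a1_C1.LucB76

/-!
MP_7d29a1_pr, attractor route, [C1] SEP: LATER CONTACTS AGAINST LUCK, with the pinch inside of the lane block (helper76, after
helper53's `exclE53E`). The pinch `Pin76` of `LucB76`: cells `C1`, `C2` at the rows `a₁ ≤ b₁` above the row `a`.
-/

set_option autoImplicit false

namespace Pool.Agent.W_7d29a1_C1.Lb76

open Finset MeasureTheory
open Pool.Agent.W_7d29a1_F Pool.Agent.W_7d29a1_h4g Pool.Agent.W_7d29a1_H Pool.Agent.W_7d29a1_HS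
open Pool.Agent.W_7d29a1_C1.K91 (Grp Box wt wt_pos)
open Pool.Agent.W_7d29a1_C1.K91P
open Pool.Agent.W_7d29a1_C1.R26P
open Pool.Agent.W_7d29a1_C1.U16 (ker)
open Pool.Agent.W_7d29a1_C1.Sp22 (Ms Ps Zt)
open Pool.Agent.W_7d29a1_C1.H60
open Pool.Agent.W_7d29a1_C1.G37 (Gm)
open Pool.Agent.W_7d29a1_C1.H49 (Par lm ex Hf Hs)
open Pool.Agent.W_7d29a1_C1.E53
open Pool.Agent.W_7d29a1_C1.Lt87 (Reach)
open Pool.Agent.W_7d29a1_C1.SD53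
open scoped ENNReal

noncomputable section

variable {Γ : Cx} {ω ω' : Env}
variable {R : ℕ → Env → Env → Env} {N : ℕ → Set Env} {S : Finset ℕ} {u : ℕ} {Zn : Set (ℕ × ℤ)} {B : ℕ → Set (ℕ × ℤ)}
  {lo T : ℕ → ℕ} {d dT : ℕ → ℝ} {a a₁ b₁ b : ℕ} {Mi Mo Ce C1 C2 : Set ℤ} {g G Y Y' ee : ℝ}

/-- **`ω'` misses with a small probability**, both cells. -/
theorem Pin76.miss (hΓ : Γ.Ok) (P : Pin76 Γ a a₁ b₁ C1 C2 Y ee ω ω') (h : Luk Γ a b Mi Mo Ce g G Y' ω ω')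
    (I : Inw Γ R N S u a Zn B lo T d dT)
    {ω₁ : Env} (r₁ : Reach R N S u ω ω₁) (c : XX Γ) (hca : c.1.1 + 1 ≤ a) (hcv : ∀ v ∈ S, v < u → c.1.1 + 1 < lo v)
    (hcz : (c.1.1 + 1, c.1.2) ∈ Zn) {s₁ v : ℝ} (hs₁ : s₁ < 1)
    (hza : ∀ k q, (k, q) ∈ Zn → k ≤ a) (hE : ∀ k q, (k, q) ∈ Zn → QA Γ ω a Miᶜ k q ≤ s₁ * bW Γ ω k q)
    (hv0 : 0 < v) (hv1 : v ≤ 1) (hv : v ≤ Γ.w c.1 ω₁) :
    Miss Γ a₁ C1ᶜ Zn (Y * Real.exp (2 * pr S d u) / ((1 - s₁) * g * v) + ee) ω' ∧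
      Miss Γ b₁ C2ᶜ Zn (Y * Real.exp (2 * pr S d u) / ((1 - s₁) * g * v) + ee) ω' := by
  obtain ⟨t1, t2⟩ := h.tot2 hΓ I r₁ c hca hcv hs₁.le (hE _ _ hcz) hv0.le hv
  set D := pr S d u with hD
  have hD0 : 0 ≤ D := pr_nonneg I.d0 u
  have hg : 0 < (1 - s₁) * g := mul_pos (by linarith) h.g0
  have hgv : 0 < (1 - s₁) * g * v := mul_pos hg hv0
  have e1 : 1 ≤ Real.exp (2 * D) := Real.one_le_exp (by linarith)
  have zone : ∀ {F : ℝ} {k : ℕ} {q : ℤ}, (k, q) ∈ Zn → F ≤ Y * bW Γ ω k q + ee * bW Γ ω' k q →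
      F ≤ (Y * Real.exp (2 * D) / ((1 - s₁) * g * v) + ee) * bW Γ ω' k q := by
    intro F k q hq hF
    have h1 := h.gz (hza k q hq) (hE k q hq)
    have b0 := (bW_pos Γ ω k q).le
    have b1 := (bW_pos Γ ω' k q).le
    have h2 : Y * bW Γ ω k q ≤ Y * Real.exp (2 * D) / ((1 - s₁) * g * v) * bW Γ ω' k q := by
      rw [div_mul_eq_mul_div, le_div_iff₀ hgv]
      calc Y * bW Γ ω k q * ((1 - s₁) * g * v) = Y * v * ((1 - s₁) * g * bW Γ ω k q) := by ring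
        _ ≤ Y * v * bW Γ ω' k q := mul_le_mul_of_nonneg_left h1 (mul_nonneg P.Y0 hv0.le)
        _ ≤ Y * Real.exp (2 * D) * bW Γ ω' k q := by
            refine mul_le_mul_of_nonneg_right ?_ b1
            exact mul_le_mul_of_nonneg_left (hv1.trans e1) P.Y0
    linarith
  have grp : ∀ {m : ℤ → ℝ} {F : ℝ}, (1 - s₁) * g * v * ZG Γ m ω ≤ Real.exp (2 * D) * ZG Γ m ω' →
      F ≤ Y * ZG Γ m ω + ee * ZG Γ m ω' → F ≤ (Y * Real.exp (2 * D) / ((1 - s₁) * g * v) + ee) * ZG Γ m ω' := by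
    intro m F ht hF
    have h2 : Y * ZG Γ m ω ≤ Y * Real.exp (2 * D) / ((1 - s₁) * g * v) * ZG Γ m ω' := by
      rw [div_mul_eq_mul_div, le_div_iff₀ hgv]
      calc Y * ZG Γ m ω * ((1 - s₁) * g * v) = Y * ((1 - s₁) * g * v * ZG Γ m ω) := by ring
        _ ≤ Y * (Real.exp (2 * D) * ZG Γ m ω') := mul_le_mul_of_nonneg_left ht P.Y0
        _ = _ := by ring
    linarith
  have gl := P.grp (ms_l hΓ)
  have gr := P.grp (ms_r hΓ)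
  exact ⟨⟨fun k q hk hq => zone hq (P.dn1 (hza k q hq) q), grp t1 gl.1, grp t2 gr.1⟩,
    ⟨fun k q _ hq => zone hq (P.dn2 (hza k q hq) q), grp t1 gl.2, grp t2 gr.2⟩⟩

/-- The part of the masses which misses a cell, after the inner windows. -/
def kap76 (S : Finset ℕ) (d dT : ℕ → ℝ) (u : ℕ) (g Y v ee : ℝ) : ℝ :=
  Real.exp (pr S dT u) * (Y * Real.exp (2 * pr S d u) / (g * v) + ee)

/-- **LATER CONTACTS AGAINST LUCK** (`exclE`), with the pinch. -/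
theorem exclE76 (hΓ : Γ.Ok) {p : Par (XX Γ)} (hrow : p.row = row Γ) {K : ℕ → Type*} (cel : ∀ v, XX Γ → K v) {t i s : ℕ}
    {κs : K s} (h : Luk Γ a b Mi Mo Ce g G Y' ω ω') (P : Pin76 Γ a a₁ b₁ C1 C2 Y ee ω ω') (I : Inw Γ R N S u a Zn B lo T d dT)
    {ω₁ ω₂ : Env} (r₁ : Reach R N S u ω ω₁) (r₂ : Reach R N S u ω' ω₂)
    (h₁ : ω₁ ∈ Hs p (w Γ) cel t i s κs) (h₂ : ω₂ ∈ Hs p (w Γ) cel t i s κs)
    (hc : ∀ ρ : XX Γ, cel s ρ = κs → ρ.1.1 + 1 ≤ a ∧ (ρ.1.1 + 1, ρ.1.2) ∈ Zn ∧ ∀ v ∈ S, v < u → ρ.1.1 + 1 < lo v)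
    {s₁ : ℝ} (hs₁ : s₁ < 1) (hbe : 0 ≤ p.be t i) (hza : ∀ k q, (k, q) ∈ Zn → k ≤ a)
    (hE : ∀ k q, (k, q) ∈ Zn → QA Γ ω a Miᶜ k q ≤ s₁ * bW Γ ω k q)
    {D : ℕ} (hD : p.dl i = (D : ℤ)) (hrw : ∀ ρ : XX Γ, cel s ρ = κs → b₁ ≤ ρ.1.1 + D + 1) {δ : ℝ} (hδ : 0 ≤ δ)
    (hcr : ∀ z ∈ C1, ∀ z' ∈ C1, z < z' → ∀ x ∈ C2, ∀ y ∈ C2, x < y →
      ker (wt ω') Γ.p a₁ (b₁ - a₁) z x * ker (wt ω') Γ.p a₁ (b₁ - a₁) z' y -
        ker (wt ω') Γ.p a₁ (b₁ - a₁) z y * ker (wt ω') Γ.p a₁ (b₁ - a₁) z' x ≤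
        δ * (ker (wt ω') Γ.p a₁ (b₁ - a₁) z x * ker (wt ω') Γ.p a₁ (b₁ - a₁) z' y))
    (num : ENNReal.ofReal (δ + 4 * kap76 S d dT u ((1 - s₁) * g) Y (Real.exp (-p.be t i)) ee) < p.κ3) : False := by
  obtain ⟨ρ₁, hc₁, hw₁, -⟩ := h₁
  obtain ⟨ρ₂, hc₂, -, hl₂⟩ := h₂
  have hwx : Real.exp (-p.be t i) ≤ Γ.w ρ₁.1 ω₁ := by
    have h3 : ENNReal.ofReal (Real.exp (-p.be t i)) ≤ ENNReal.ofReal (Γ.w ρ₁.1 ω₁) := hw₁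
    rwa [ENNReal.ofReal_le_ofReal_iff (Cx.w_nonneg hΓ ρ₁.1 ω₁)] at h3
  obtain ⟨c1, c2, c3⟩ := hc ρ₁ hc₁
  have hv1 : Real.exp (-p.be t i) ≤ 1 := Real.exp_le_one_iff.2 (by linarith)
  obtain ⟨m1, m2⟩ := P.miss hΓ h I r₁ ρ₁ c1 c3 c2 hs₁ hza hE (Real.exp_pos _) hv1 hwx
  set σ := Y * Real.exp (2 * pr S d u) / ((1 - s₁) * g * Real.exp (-p.be t i)) + ee with hσ
  have hσ0 : 0 ≤ σ := by
    have := P.Y0
    have := P.e0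
    have := h.g0
    have : 0 < 1 - s₁ := by linarith
    positivity
  have hN1 : a₁ ≤ Γ.N := P.h2.trans P.hb
  have n1 := m1.reach hΓ P.h1 hN1 r₂ I hσ0
  have n2 := m2.reach hΓ (P.h1.trans P.h2) P.hb r₂ I hσ0
  have eκ : Real.exp (pr S dT u) * σ = kap76 S d dT u ((1 - s₁) * g) Y (Real.exp (-p.be t i)) ee := rfl
  rw [eκ] at n1 n2
  set κ := kap76 S d dT u ((1 - s₁) * g) Y (Real.exp (-p.be t i)) ee with hκ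
  have eK : ∀ y z, ker (wt ω₂) Γ.p a₁ (b₁ - a₁) y z = ker (wt ω') Γ.p a₁ (b₁ - a₁) y z := by
    intro y z
    refine reach_inv (F := fun ω => ker (wt ω) Γ.p a₁ (b₁ - a₁) y z) r₂ fun v hv hvu A hA η hη => ?_
    refine U16.ker_congr a₁ (b₁ - a₁) y z fun j hj _ => ⟨?_, rfl⟩
    funext q
    exact I.eq v hv hvu A hA η hη j q fun hB => by
      have := I.rows v hv hvu j q hB
      have := I.top v hv hvu
      have := P.h1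
      omega
  have h5 : ∑ c ∈ Γ.rows b₁ Γ.N, Γ.w c ω₂ ≤ δ + 4 * κ := by
    have h1 := unm76 hΓ P.h2 P.hb hδ (ω₂ := ω₂) (κ := κ) (fun z hz z' hz' hzz x hx y hy hxy => by
      rw [eK z x, eK z' y, eK z y, eK z' x]
      exact hcr z hz z' hz' hzz x hx y hy hxy) n1.l n1.r n2.l n2.r
    rw [ZG_l hΓ, ZG_r] at h1
    have hZ : 0 < Γ.ZM ω₂ * Γ.ZR ω₂ := mul_pos (Γ.ZM_pos ω₂) (Cx.ZR_pos hΓ ω₂)
    have h3 : Γ.nmt b₁ ω₂ ≤ δ + 4 * κ := by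
      unfold Cx.nmt
      rw [div_le_iff₀ hZ]
      exact h1
    rw [Cx.sum_w hΓ ω₂ P.hb le_rfl]
    have := Cx.nmt_nonneg hΓ Γ.N ω₂
    linarith
  have h6 : lm p.row (w Γ) (p.dl i) ρ₂ ω₂ ≤ ENNReal.ofReal (δ + 4 * κ) := by
    rw [hrow, hD]
    exact lm_le hΓ (hrw ρ₂ hc₂) h5
  exact absurd (hl₂.trans h6) (not_le.2 num)

end

end Pool.Agent.W_7d29a1_C1.Lb76
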