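import Pool.Agent.W_7d29a1_C1.Fw53
import Pool.Agent.W_7d29a1_C1.Excl76

/-!
Both halves (MP_7d29a1_pr), attractor route [C1], SEP (move the contact): THE EXCLUSIONS FROM ONE STRUCTURE PER WINDOW.
(helper53, over Excl53E and helper76's LucB76, Excl76)

`Wn53`: the pair `(ω, ω')`, `ω'` = lucky in the window; `a` = the last row before the window. `exclE_wn`, `exclF_wn`.
`Wn53.of`: from the gate rows (pair `(ω, ω'')`, `ω''` = new content in the rows `< e`, old futures at the row `e`) and the lane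
block (pair `(ω'', ω')`, `Luk` and `Pin76` at the row `e`). `inwG`: the inner windows from the geometry and the ratios `Ro`.
-/

set_option autoImplicit false

namespace Pool.Agent.W_7d29a1_C1.SD53

open Finset MeasureTheory
open Pool.Agent.W_7d29a1_F Pool.Agent.W_7d29a1_h4g Pool.Agent.W_7d29a1_H Pool.Agent.W_7d29a1_HS
open Pool.Agent.W_7d29a1_C1.K91 (Grp Box wt wt_pos)
open Pool.Agent.W_7d29a1_C1.K91P
open Pool.Agent.W_7d29a1_C1.R26P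
open Pool.Agent.W_7d29a1_C1.U16 (ker)
open Pool.Agent.W_7d29a1_C1.Sp22 (Ms Ps Zt)
open Pool.Agent.W_7d29a1_C1.H60
open Pool.Agent.W_7d29a1_C1.G37 (Gm)
open Pool.Agent.W_7d29a1_C1.H49 (Par lm ex Hf Hs)
open Pool.Agent.W_7d29a1_C1.E53
open Pool.Agent.W_7d29a1_C1.Lt87 (Reach)
open Pool.Agent.W_7d29a1_C1.Lb76 (Pin76 kap76 unm76)
open Pool.Agent.W_7d29a1_C1.Rt22 (Ro)
open Pool.Agent.W_7d29a1_C1.Sy78 (sp Rg St)
open scoped ENNReal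

noncomputable section

/-- **The pair `(ω, ω')`**: `a` = the last row before the window, cells `C1`, `C2` at the rows `a₁ ≤ b₁` of the window, `Zn` = zone,
`Fs` = far sites. -/
structure Wn53 (Γ : Cx) (a a₁ b₁ : ℕ) (C1 C2 : Set ℤ) (Zn Fs : Set (ℕ × ℤ)) (g Y ee F δ : ℝ) (ω ω' : Env) : Prop where
  pin : Pin76 Γ a a₁ b₁ C1 C2 Y ee ω ω'
  g0 : 0 < g
  F0 : 0 ≤ F
  δ0 : 0 ≤ δ
  gz : ∀ k q, (k, q) ∈ Zn → k ≤ a → g * bW Γ ω k q ≤ bW Γ ω' k q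
  ff : ∀ k q, (k, q) ∈ Fs → k ≤ a → bW Γ ω' k q ≤ F * bW Γ ω k q
  cr : ∀ z ∈ C1, ∀ z' ∈ C1, z < z' → ∀ x ∈ C2, ∀ y ∈ C2, x < y →
    ker (wt ω') Γ.p a₁ (b₁ - a₁) z x * ker (wt ω') Γ.p a₁ (b₁ - a₁) z' y -
      ker (wt ω') Γ.p a₁ (b₁ - a₁) z y * ker (wt ω') Γ.p a₁ (b₁ - a₁) z' x ≤
      δ * (ker (wt ω') Γ.p a₁ (b₁ - a₁) z x * ker (wt ω') Γ.p a₁ (b₁ - a₁) z' y)

/-! ### Gate and lane -/

/-- **`Wn53` from the gate rows and the lane block.** `Z` = strip, `Z'` = wide strip at the row `a`; `e` = first row of the lane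
block; `ω''` = new in the rows `< e`, old from the row `e` on. -/
theorem Wn53.of {Γ : Cx} {a e b a₁ b₁ : ℕ} {Mi Mo Ce C1 C2 Z Z' : Set ℤ} {Zn Fs : Set (ℕ × ℤ)} {g G Y Y' ee δ D s s' t t' : ℝ}
    {ω ω' ω'' : Env} (hae : a ≤ e) (hL : Luk Γ e b Mi Mo Ce g G Y ω'' ω') (hP : Pin76 Γ e a₁ b₁ C1 C2 Y' ee ω'' ω')
    (low : ∀ k y, k < a → wt ω'' k y = wt ω k y) (hs : 0 ≤ s) (hs' : 0 ≤ s') (ht : 0 ≤ t) (ht' : 0 ≤ t')
    (up : ∀ z, bW Γ ω'' a z ≤ Real.exp D * bW Γ ω a z) (dn : ∀ z, bW Γ ω a z ≤ Real.exp D * bW Γ ω'' a z)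
    (in1 : ∀ z ∈ Z, QA Γ ω'' e Miᶜ a z ≤ s * bW Γ ω'' a z) (out1 : ∀ z, z ∉ Z' → QA Γ ω'' e Mo a z ≤ s' * bW Γ ω'' a z)
    (hSt : ∀ k q, (k, q) ∈ Zn → k ≤ a → QA Γ ω a Zᶜ k q ≤ t * bW Γ ω k q)
    (hFw : ∀ k q, (k, q) ∈ Fs → k ≤ a → QA Γ ω a Z' k q ≤ t' * bW Γ ω k q)
    (h1 : s + Real.exp (2 * D) * t < 1) (hδ : 0 ≤ δ)
    (cr : ∀ z ∈ C1, ∀ z' ∈ C1, z < z' → ∀ x ∈ C2, ∀ y ∈ C2, x < y →
      ker (wt ω') Γ.p a₁ (b₁ - a₁) z x * ker (wt ω') Γ.p a₁ (b₁ - a₁) z' y -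
        ker (wt ω') Γ.p a₁ (b₁ - a₁) z y * ker (wt ω') Γ.p a₁ (b₁ - a₁) z' x ≤
        δ * (ker (wt ω') Γ.p a₁ (b₁ - a₁) z x * ker (wt ω') Γ.p a₁ (b₁ - a₁) z' y)) :
    Wn53 Γ a a₁ b₁ C1 C2 Zn Fs ((1 - (s + Real.exp (2 * D) * t)) * g * Real.exp (-D)) (Y' * Real.exp D) ee
      ((G * (s' + Real.exp (2 * D) * t') + Y) * Real.exp D) δ ω ω' := by
  have heN : e ≤ Γ.N := hL.haN
  have haN : a ≤ Γ.N := hae.trans heN
  have eD : Real.exp D * Real.exp D = Real.exp (2 * D) := by rw [← Real.exp_add]; ring_nf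
  -- the masses of the lower rows
  have up' : ∀ k, k ≤ a → ∀ q, bW Γ ω'' k q ≤ Real.exp D * bW Γ ω k q :=
    (hr_bW haN).le (((hr_bW (Γ := Γ) (ω := ω) haN).congr low).smul (Real.exp D)) up
  have dn' : ∀ k, k ≤ a → ∀ q, bW Γ ω k q ≤ Real.exp D * bW Γ ω'' k q :=
    (hr_bW haN).le (((hr_bW (Γ := Γ) (ω := ω'') haN).congr fun k y hk => (low k y hk).symm).smul (Real.exp D)) dn
  -- one row of `ω''` against `ω`
  have tr : ∀ (A : Set ℤ) {c : ℝ}, 0 ≤ c → ∀ k q, k ≤ a → QA Γ ω a A k q ≤ c * bW Γ ω k q →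
      QA Γ ω'' a A k q ≤ Real.exp (2 * D) * c * bW Γ ω'' k q := by
    intro A c hc k q hk h
    have a1 : QA Γ ω'' a A k q ≤ Real.exp D * QA Γ ω a A k q := by
      refine (hr_QA le_rfl A).le (((hr_QA (Γ := Γ) (ω := ω) le_rfl A).congr low).smul (Real.exp D)) (fun q => ?_) k hk q
      show QA Γ ω'' a A a q ≤ Real.exp D * QA Γ ω a A a q
      rw [QA_self, QA_self]
      by_cases hq : q ∈ A
      · rw [tf_mem hq, tf_mem hq]; exact up q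
      · rw [tf_not hq, tf_not hq, mul_zero]
    calc QA Γ ω'' a A k q ≤ Real.exp D * (c * (Real.exp D * bW Γ ω'' k q)) :=
          a1.trans (mul_le_mul_of_nonneg_left (h.trans (mul_le_mul_of_nonneg_left (dn' k hk q) hc)) (Real.exp_pos _).le)
      _ = Real.exp D * Real.exp D * c * bW Γ ω'' k q := by ring
      _ = _ := by rw [eD]
  have gz' : ∀ k q, (k, q) ∈ Zn → k ≤ a → QA Γ ω'' e Miᶜ k q ≤ (s + Real.exp (2 * D) * t) * bW Γ ω'' k q := by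
    intro k q hq hk
    have a1 := QA_stay (Γ := Γ) (ω := ω'') hae heN hs in1 k hk q
    have a2 := tr Zᶜ ht k q hk (hSt k q hq hk)
    rw [add_mul]
    linarith
  have ff' : ∀ k q, (k, q) ∈ Fs → k ≤ a → QA Γ ω'' e Mo k q ≤ (s' + Real.exp (2 * D) * t') * bW Γ ω'' k q := by
    intro k q hq hk
    have a1 := QA_stay (Γ := Γ) (ω := ω'') hae heN (A := Mo) (Z := Z'ᶜ) hs' (fun z hz => out1 z hz) k hk q
    rw [compl_compl] at a1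
    have a2 := tr Z' ht' k q hk (hFw k q hq hk)
    rw [add_mul]
    linarith
  have hg := hL.g0
  have hg1 : 0 < 1 - (s + Real.exp (2 * D) * t) := by linarith
  refine ⟨⟨mul_nonneg hP.Y0 (Real.exp_pos _).le, hP.e0, hae.trans hP.h1, hP.h2, hP.hb, fun k y hk => ?_, fun z => ?_, fun z => ?_⟩,
    ?_, ?_, hδ, fun k q hq hk => ?_, fun k q hq hk => ?_, cr⟩
  · rw [hP.eq k y (by omega), low k y hk]
  · have a1 := hP.dn1 hae z
    have a2 := mul_le_mul_of_nonneg_left (up z) hP.Y0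
    linarith
  · have a1 := hP.dn2 hae z
    have a2 := mul_le_mul_of_nonneg_left (up z) hP.Y0
    linarith
  · exact mul_pos (mul_pos hg1 hg) (Real.exp_pos _)
  · refine mul_nonneg (add_nonneg (mul_nonneg hL.G0 (add_nonneg hs' (mul_nonneg (Real.exp_pos _).le ht'))) hL.Y0) (Real.exp_pos _).le
  · have a1 := hL.gz (k := k) (by omega) (gz' k q hq hk)
    have a2 : Real.exp (-D) * bW Γ ω k q ≤ bW Γ ω'' k q := by
      have := mul_le_mul_of_nonneg_left (dn' k hk q) (Real.exp_pos (-D)).le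
      rwa [← mul_assoc, ← Real.exp_add, neg_add_cancel, Real.exp_zero, one_mul] at this
    calc _ = (1 - (s + Real.exp (2 * D) * t)) * g * (Real.exp (-D) * bW Γ ω k q) := by ring
      _ ≤ (1 - (s + Real.exp (2 * D) * t)) * g * bW Γ ω'' k q := mul_le_mul_of_nonneg_left a2 (mul_pos hg1 hg).le
      _ ≤ _ := a1
  · have a1 := hL.upp (k := k) (by omega) q
    have a2 := mul_le_mul_of_nonneg_left (ff' k q hq hk) hL.G0
    have a3 : bW Γ ω' k q ≤ (G * (s' + Real.exp (2 * D) * t') + Y) * bW Γ ω'' k q := by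
      rw [add_mul, mul_assoc]; linarith
    refine a3.trans ?_
    rw [mul_assoc]
    refine mul_le_mul_of_nonneg_left (up' k hk q) ?_
    exact add_nonneg (mul_nonneg hL.G0 (add_nonneg hs' (mul_nonneg (Real.exp_pos _).le ht'))) hL.Y0

/-! ### The exclusions -/

section inw

variable {Γ : Cx} {ω ω' : Env} {R : ℕ → Env → Env → Env} {N : ℕ → Set Env} {S : Finset ℕ} {u : ℕ} {Zn Zi Fs : Set (ℕ × ℤ)}
  {B : ℕ → Set (ℕ × ℤ)} {lo T : ℕ → ℕ} {d dT : ℕ → ℝ} {a a₁ b₁ : ℕ} {C1 C2 : Set ℤ} {g Y ee F δ : ℝ}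

/-- The total of `ω'`, one group. -/
theorem Wn53.tot (h : Wn53 Γ a a₁ b₁ C1 C2 Zn Fs g Y ee F δ ω ω') (I : Inw Γ R N S u a Zi B lo T d dT) {m : ℤ → ℝ}
    (hm : Ms m 0 Γ.hi Γ.N) {ω₁ : Env} (r₁ : Reach R N S u ω ω₁) {c : ℕ × ℤ} (hca : c.1 + 1 ≤ a)
    (hcv : ∀ v ∈ S, v < u → c.1 + 1 < lo v) (hcz : (c.1 + 1, c.2) ∈ Zn) {v : ℝ}
    (hw : v * ZG Γ m ω₁ ≤ fw (wt ω₁) Γ.p m (c.1 + 1) c.2 * bW Γ ω₁ (c.1 + 1) c.2) (hv : 0 ≤ v) :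
    g * v * ZG Γ m ω ≤ Real.exp (2 * pr S d u) * ZG Γ m ω' := by
  have haN : a ≤ Γ.N := h.pin.h1.trans (h.pin.h2.trans h.pin.hb)
  have h1 := I.zt hm r₁
  have h2 := I.fwe r₁ m (k := c.1 + 1) (fun w hw hwu => (hcv w hw hwu).le) c.2
  have h3 := I.bup r₁ (k := c.1 + 1) (q := c.2) fun w hw hwu h => by
    have := I.rows w hw hwu _ _ h
    have := hcv w hw hwu
    omega
  have f0 : 0 ≤ fw (wt ω) Γ.p m (c.1 + 1) c.2 := fw_nonneg (wt_pos ω) Γ.p_pos hm.nn _ _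
  have h4 := h.gz _ _ hcz hca
  have e1 : fw (wt ω') Γ.p m (c.1 + 1) c.2 = fw (wt ω) Γ.p m (c.1 + 1) c.2 :=
    fw_congr _ (fun i hi y => h.pin.eq i y (by omega)) _
  have h5 := site_le hm ω' (k := c.1 + 1) (by omega) c.2
  rw [e1] at h5
  have hg := h.g0.le
  set D := pr S d u with hD
  have e2 : Real.exp (2 * D) = Real.exp D * Real.exp D := by rw [← Real.exp_add]; ring_nf
  calc g * v * ZG Γ m ω ≤ g * v * (Real.exp D * ZG Γ m ω₁) := mul_le_mul_of_nonneg_left h1 (mul_nonneg hg hv)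
    _ = g * Real.exp D * (v * ZG Γ m ω₁) := by ring
    _ ≤ g * Real.exp D * (fw (wt ω) Γ.p m (c.1 + 1) c.2 * (Real.exp D * bW Γ ω (c.1 + 1) c.2)) := by
        refine mul_le_mul_of_nonneg_left ?_ (mul_nonneg hg (Real.exp_pos _).le)
        rw [h2] at hw
        exact hw.trans (mul_le_mul_of_nonneg_left h3 f0)
    _ = Real.exp (2 * D) * (fw (wt ω) Γ.p m (c.1 + 1) c.2 * (g * bW Γ ω (c.1 + 1) c.2)) := by rw [e2]; ring
    _ ≤ Real.exp (2 * D) * (fw (wt ω) Γ.p m (c.1 + 1) c.2 * bW Γ ω' (c.1 + 1) c.2) :=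
        mul_le_mul_of_nonneg_left (mul_le_mul_of_nonneg_left h4 f0) (Real.exp_pos _).le
    _ ≤ _ := mul_le_mul_of_nonneg_left h5 (Real.exp_pos _).le

/-- Both groups. -/
theorem Wn53.tot2 (hΓ : Γ.Ok) (h : Wn53 Γ a a₁ b₁ C1 C2 Zn Fs g Y ee F δ ω ω') (I : Inw Γ R N S u a Zi B lo T d dT)
    {ω₁ : Env} (r₁ : Reach R N S u ω ω₁) (c : XX Γ) (hca : c.1.1 + 1 ≤ a) (hcv : ∀ v ∈ S, v < u → c.1.1 + 1 < lo v)
    (hcz : (c.1.1 + 1, c.1.2) ∈ Zn) {v : ℝ} (hv0 : 0 ≤ v) (hv : v ≤ Γ.w c.1 ω₁) :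
    g * v * ZG Γ Cx.l ω ≤ Real.exp (2 * pr S d u) * ZG Γ Cx.l ω' ∧ g * v * ZG Γ Γ.r ω ≤ Real.exp (2 * pr S d u) * ZG Γ Γ.r ω' := by
  obtain ⟨p1, p2⟩ := w_le_P hΓ c.2 ω₁
  constructor
  · refine h.tot I (ms_l hΓ) r₁ hca hcv hcz ?_ hv0
    rw [ZG_l hΓ]
    exact (mul_le_mul_of_nonneg_right hv (Γ.ZM_pos ω₁).le).trans p1
  · refine h.tot I (ms_r hΓ) r₁ hca hcv hcz ?_ hv0
    rw [ZG_r]
    exact (mul_le_mul_of_nonneg_right hv (Cx.ZR_pos hΓ ω₁).le).trans p2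

/-- **`ω'` misses with a small probability**, both cells. -/
theorem Wn53.miss (hΓ : Γ.Ok) (h : Wn53 Γ a a₁ b₁ C1 C2 Zn Fs g Y ee F δ ω ω') (I : Inw Γ R N S u a Zn B lo T d dT)
    {ω₁ : Env} (r₁ : Reach R N S u ω ω₁) (c : XX Γ) (hca : c.1.1 + 1 ≤ a) (hcv : ∀ v ∈ S, v < u → c.1.1 + 1 < lo v)
    (hcz : (c.1.1 + 1, c.1.2) ∈ Zn) (hza : ∀ k q, (k, q) ∈ Zn → k ≤ a) {v : ℝ} (hv0 : 0 < v) (hv1 : v ≤ 1)
    (hv : v ≤ Γ.w c.1 ω₁) :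
    Miss Γ a₁ C1ᶜ Zn (Y * Real.exp (2 * pr S d u) / (g * v) + ee) ω' ∧
      Miss Γ b₁ C2ᶜ Zn (Y * Real.exp (2 * pr S d u) / (g * v) + ee) ω' := by
  obtain ⟨t1, t2⟩ := h.tot2 hΓ I r₁ c hca hcv hcz hv0.le hv
  set D := pr S d u with hD
  have hD0 : 0 ≤ D := pr_nonneg I.d0 u
  have hgv : 0 < g * v := mul_pos h.g0 hv0
  have e1 : 1 ≤ Real.exp (2 * D) := Real.one_le_exp (by linarith)
  have P := h.pin
  have zone : ∀ {X : ℝ} {k : ℕ} {q : ℤ}, (k, q) ∈ Zn → X ≤ Y * bW Γ ω k q + ee * bW Γ ω' k q →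
      X ≤ (Y * Real.exp (2 * D) / (g * v) + ee) * bW Γ ω' k q := by
    intro X k q hq hF
    have h1 := h.gz k q hq (hza k q hq)
    have b1 := (bW_pos Γ ω' k q).le
    have h2 : Y * bW Γ ω k q ≤ Y * Real.exp (2 * D) / (g * v) * bW Γ ω' k q := by
      rw [div_mul_eq_mul_div, le_div_iff₀ hgv]
      calc Y * bW Γ ω k q * (g * v) = Y * v * (g * bW Γ ω k q) := by ring
        _ ≤ Y * v * bW Γ ω' k q := mul_le_mul_of_nonneg_left h1 (mul_nonneg P.Y0 hv0.le)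
        _ ≤ Y * Real.exp (2 * D) * bW Γ ω' k q :=
            mul_le_mul_of_nonneg_right (mul_le_mul_of_nonneg_left (hv1.trans e1) P.Y0) b1
    rw [add_mul]
    linarith
  have grp : ∀ {m : ℤ → ℝ} {X : ℝ}, g * v * ZG Γ m ω ≤ Real.exp (2 * D) * ZG Γ m ω' →
      X ≤ Y * ZG Γ m ω + ee * ZG Γ m ω' → X ≤ (Y * Real.exp (2 * D) / (g * v) + ee) * ZG Γ m ω' := by
    intro m X ht hF
    have h2 : Y * ZG Γ m ω ≤ Y * Real.exp (2 * D) / (g * v) * ZG Γ m ω' := by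
      rw [div_mul_eq_mul_div, le_div_iff₀ hgv]
      calc Y * ZG Γ m ω * (g * v) = Y * (g * v * ZG Γ m ω) := by ring
        _ ≤ Y * (Real.exp (2 * D) * ZG Γ m ω') := mul_le_mul_of_nonneg_left ht P.Y0
        _ = _ := by ring
    rw [add_mul]
    linarith
  have gl := P.grp (ms_l hΓ)
  have gr := P.grp (ms_r hΓ)
  exact ⟨⟨fun k q _ hq => zone hq (P.dn1 (hza k q hq) q), grp t1 gl.1, grp t2 gr.1⟩,
    ⟨fun k q _ hq => zone hq (P.dn2 (hza k q hq) q), grp t1 gl.2, grp t2 gr.2⟩⟩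

/-- **LATER CONTACTS AGAINST LUCK** (`exclE`). -/
theorem exclE_wn (hΓ : Γ.Ok) {p : Par (XX Γ)} (hrow : p.row = row Γ) {K : ℕ → Type*} (cel : ∀ v, XX Γ → K v) {t i s : ℕ}
    {κs : K s} (h : Wn53 Γ a a₁ b₁ C1 C2 Zn Fs g Y ee F δ ω ω') (I : Inw Γ R N S u a Zn B lo T d dT)
    {ω₁ ω₂ : Env} (r₁ : Reach R N S u ω ω₁) (r₂ : Reach R N S u ω' ω₂)
    (h₁ : ω₁ ∈ Hs p (w Γ) cel t i s κs) (h₂ : ω₂ ∈ Hs p (w Γ) cel t i s κs)
    (hc : ∀ ρ : XX Γ, cel s ρ = κs → ρ.1.1 + 1 ≤ a ∧ (ρ.1.1 + 1, ρ.1.2) ∈ Zn ∧ ∀ v ∈ S, v < u → ρ.1.1 + 1 < lo v)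
    (hbe : 0 ≤ p.be t i) (hza : ∀ k q, (k, q) ∈ Zn → k ≤ a)
    {D : ℕ} (hD : p.dl i = (D : ℤ)) (hrw : ∀ ρ : XX Γ, cel s ρ = κs → b₁ ≤ ρ.1.1 + D + 1)
    (num : ENNReal.ofReal (δ + 4 * kap76 S d dT u g Y (Real.exp (-p.be t i)) ee) < p.κ3) : False := by
  obtain ⟨ρ₁, hc₁, hw₁, -⟩ := h₁
  obtain ⟨ρ₂, hc₂, -, hl₂⟩ := h₂
  have P := h.pin
  have hwx : Real.exp (-p.be t i) ≤ Γ.w ρ₁.1 ω₁ := by
    have h3 : ENNReal.ofReal (Real.exp (-p.be t i)) ≤ ENNReal.ofReal (Γ.w ρ₁.1 ω₁) := hw₁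
    rwa [ENNReal.ofReal_le_ofReal_iff (Cx.w_nonneg hΓ ρ₁.1 ω₁)] at h3
  obtain ⟨c1, c2, c3⟩ := hc ρ₁ hc₁
  have hv1 : Real.exp (-p.be t i) ≤ 1 := Real.exp_le_one_iff.2 (by linarith)
  obtain ⟨m1, m2⟩ := h.miss hΓ I r₁ ρ₁ c1 c3 c2 hza (Real.exp_pos _) hv1 hwx
  set σ := Y * Real.exp (2 * pr S d u) / (g * Real.exp (-p.be t i)) + ee with hσ
  have hσ0 : 0 ≤ σ := by
    have := P.Y0
    have := P.e0
    have := h.g0
    positivity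
  have hN1 : a₁ ≤ Γ.N := P.h2.trans P.hb
  have n1 := m1.reach hΓ P.h1 hN1 r₂ I hσ0
  have n2 := m2.reach hΓ (P.h1.trans P.h2) P.hb r₂ I hσ0
  have eκ : Real.exp (pr S dT u) * σ = kap76 S d dT u g Y (Real.exp (-p.be t i)) ee := rfl
  rw [eκ] at n1 n2
  set κ := kap76 S d dT u g Y (Real.exp (-p.be t i)) ee with hκ
  have eK : ∀ y z, ker (wt ω₂) Γ.p a₁ (b₁ - a₁) y z = ker (wt ω') Γ.p a₁ (b₁ - a₁) y z := by
    intro y z
    refine reach_inv (F := fun ω => ker (wt ω) Γ.p a₁ (b₁ - a₁) y z) r₂ fun v hv hvu A hA η hη => ?_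
    refine U16.ker_congr a₁ (b₁ - a₁) y z fun j hj _ => ⟨?_, rfl⟩
    funext q
    exact I.eq v hv hvu A hA η hη j q fun hB => by
      have := I.rows v hv hvu j q hB
      have := I.top v hv hvu
      have := P.h1
      omega
  have h5 : ∑ c ∈ Γ.rows b₁ Γ.N, Γ.w c ω₂ ≤ δ + 4 * κ := by
    have h1 := unm76 hΓ P.h2 P.hb h.δ0 (ω₂ := ω₂) (κ := κ) (fun z hz z' hz' hzz x hx y hy hxy => by
      rw [eK z x, eK z' y, eK z y, eK z' x]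
      exact h.cr z hz z' hz' hzz x hx y hy hxy) n1.l n1.r n2.l n2.r
    rw [ZG_l hΓ, ZG_r] at h1
    have hZ : 0 < Γ.ZM ω₂ * Γ.ZR ω₂ := mul_pos (Γ.ZM_pos ω₂) (Cx.ZR_pos hΓ ω₂)
    have h3 : Γ.nmt b₁ ω₂ ≤ δ + 4 * κ := by
      unfold Cx.nmt
      rw [div_le_iff₀ hZ]
      exact h1
    rw [Cx.sum_w hΓ ω₂ P.hb le_rfl]
    have := Cx.nmt_nonneg hΓ Γ.N ω₂
    linarith
  have h6 : lm p.row (w Γ) (p.dl i) ρ₂ ω₂ ≤ ENNReal.ofReal (δ + 4 * κ) := by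
    rw [hrow, hD]
    exact lm_le hΓ (hrw ρ₂ hc₂) h5
  exact absurd (hl₂.trans h6) (not_le.2 num)

/-- The far mass of the lucky environment. -/
def kapW (S : Finset ℕ) (d : ℕ → ℝ) (u : ℕ) (g F v : ℝ) : ℝ := Real.exp (4 * pr S d u) * F / (g * v)

/-- **FAR ALTERNATIVE AGAINST LUCK** (`exclF`). -/
theorem exclF_wn (hΓ : Γ.Ok) {Gm' : Gm} {p : Par (XX Γ)} {t i : ℕ} {x : XX Γ} (ht : t - 1 < t)
    (h : Wn53 Γ a a₁ b₁ C1 C2 Zn Fs g Y ee F δ ω ω') (I : Inw Γ R N S u a Zi B lo T d dT) {ω₁ ω₂ : Env}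
    (r₁ : Reach R N S u ω ω₁) (r₂ : Reach R N S u ω' ω₂)
    (h₁ : ω₁ ∈ Hf p (w Γ) (fa Γ Gm') t i x) (h₂ : ω₂ ∈ Hf p (w Γ) (fa Γ Gm') t i x)
    (hca : x.1.1 + 1 ≤ a) (hcv : ∀ v ∈ S, v < u → x.1.1 + 1 < lo v) (hcz : (x.1.1 + 1, x.1.2) ∈ Zn)
    (hr : ∀ r ∈ Gm'.fr t (t - 1) x.1, r.toNat ≤ a ∧ ∀ v ∈ S, v < u → r.toNat < lo v)
    (hF : ∀ r ∈ Gm'.fr t (t - 1) x.1, ∀ y ∈ Gm'.fs i (t - 1) x.1 r, (r.toNat, y) ∈ Fs)
    (num : 8 * kapW S d u g F (Real.exp (-p.be t i)) < Real.exp (-(p.th t i + p.sl (t - 1)))) : False := by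
  have hwx : Real.exp (-p.be t i) ≤ Γ.w x.1 ω₁ := by
    have h3 : ENNReal.ofReal (Real.exp (-p.be t i)) ≤ ENNReal.ofReal (Γ.w x.1 ω₁) := h₁.2
    rwa [ENNReal.ofReal_le_ofReal_iff (Cx.w_nonneg hΓ x.1 ω₁)] at h3
  obtain ⟨t1, t2⟩ := h.tot2 hΓ I r₁ x hca hcv hcz (Real.exp_pos _).le hwx
  have P := h.pin
  have haN : a ≤ Γ.N := P.h1.trans (P.h2.trans P.hb)
  set v := Real.exp (-p.be t i) with hvdef
  have hv0 : 0 < v := Real.exp_pos _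
  set D := pr S d u with hD
  have hgv : 0 < g * v := mul_pos h.g0 hv0
  have e4 : Real.exp (4 * D) = Real.exp D * (Real.exp (2 * D) * Real.exp D) := by
    rw [← Real.exp_add, ← Real.exp_add]; ring_nf
  have hκ0 : 0 ≤ kapW S d u g F v := by
    unfold kapW
    exact div_nonneg (mul_nonneg (Real.exp_pos _).le h.F0) hgv.le
  have key : ∀ r ∈ Gm'.fr t (t - 1) x.1, ∀ {m : ℤ → ℝ}, Ms m 0 Γ.hi Γ.N →
      g * v * ZG Γ m ω ≤ Real.exp (2 * D) * ZG Γ m ω' →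
      PG Γ m r.toNat (bx Γ (Gm'.fs i (t - 1) x.1 r)) ω₂ ≤ kapW S d u g F v * ZG Γ m ω₂ := by
    intro r hr' m hm htt
    obtain ⟨ra, rv⟩ := hr r hr'
    have b1 : PG Γ m r.toNat (bx Γ (Gm'.fs i (t - 1) x.1 r)) ω₂ ≤
        Real.exp D * F * PG Γ m r.toNat (bx Γ (Gm'.fs i (t - 1) x.1 r)) ω := by
      unfold PG Sp22.Ps
      rw [mul_sum]
      refine sum_le_sum fun y hy => ?_
      have hy' : y ∈ Gm'.fs i (t - 1) x.1 r := mem_bx hy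
      have e1 : fw (wt ω₂) Γ.p m r.toNat y = fw (wt ω') Γ.p m r.toNat y :=
        I.fwe r₂ m (fun w hw hwu => (rv w hw hwu).le) y
      have e2 : fw (wt ω') Γ.p m r.toNat y = fw (wt ω) Γ.p m r.toNat y :=
        fw_congr _ (fun i hi y => P.eq i y (by omega)) _
      rw [e1, e2]
      have f0 : 0 ≤ fw (wt ω) Γ.p m r.toNat y := fw_nonneg (wt_pos ω) Γ.p_pos hm.nn _ _
      have a1 := I.bup r₂ (k := r.toNat) (q := y) fun w hw hwu hB => by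
        have := I.rows w hw hwu _ _ hB
        have := rv w hw hwu
        omega
      have a4 := h.ff r.toNat y (hF r hr' y hy') ra
      have a5 : bW Γ ω₂ r.toNat y ≤ Real.exp D * F * bW Γ ω r.toNat y := by
        calc _ ≤ Real.exp D * bW Γ ω' r.toNat y := a1
          _ ≤ Real.exp D * (F * bW Γ ω r.toNat y) := mul_le_mul_of_nonneg_left a4 (Real.exp_pos _).le
          _ = _ := by ring
      calc fw (wt ω) Γ.p m r.toNat y * bW Γ ω₂ r.toNat y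
          ≤ fw (wt ω) Γ.p m r.toNat y * (Real.exp D * F * bW Γ ω r.toNat y) := mul_le_mul_of_nonneg_left a5 f0
        _ = Real.exp D * F * (fw (wt ω) Γ.p m r.toNat y * bW Γ ω r.toNat y) := by ring
    have b2 : PG Γ m r.toNat (bx Γ (Gm'.fs i (t - 1) x.1 r)) ω ≤ ZG Γ m ω :=
      Sp22.Ps_le_Zt (wt_pos ω) Γ.p_pos hm (by omega) _
    have b3 := I.zt hm r₂
    unfold kapW
    rw [← hD, div_mul_eq_mul_div, le_div_iff₀ hgv]
    have hDF : 0 ≤ Real.exp D * F := mul_nonneg (Real.exp_pos _).le h.F0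
    calc PG Γ m r.toNat (bx Γ (Gm'.fs i (t - 1) x.1 r)) ω₂ * (g * v)
        ≤ Real.exp D * F * ZG Γ m ω * (g * v) :=
          mul_le_mul_of_nonneg_right (b1.trans (mul_le_mul_of_nonneg_left b2 hDF)) hgv.le
      _ = Real.exp D * F * (g * v * ZG Γ m ω) := by ring
      _ ≤ Real.exp D * F * (Real.exp (2 * D) * (Real.exp D * ZG Γ m ω₂)) :=
          mul_le_mul_of_nonneg_left (htt.trans (mul_le_mul_of_nonneg_left b3 (Real.exp_pos _).le)) hDF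
      _ = Real.exp (4 * D) * F * ZG Γ m ω₂ := by rw [e4]; ring
  have h5 : fa Γ Gm' t i (t - 1) x ω₂ ≤ ENNReal.ofReal (8 * kapW S d u g F v) :=
    fa_le hΓ ht hκ0 fun r hr' _ => ⟨key r hr' (ms_l hΓ) t1, key r hr' (ms_r hΓ) t2⟩
  have h6 : ENNReal.ofReal (Real.exp (-(p.th t i + p.sl (t - 1)))) ≤ ENNReal.ofReal (8 * kapW S d u g F v) := le_trans h₂.1 h5
  rw [ENNReal.ofReal_le_ofReal_iff (by linarith)] at h6
  linarith

end inw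

/-! ### The inner windows from the geometry -/

section geo

variable {Γ : Cx} {G : Gm}

/-- The zone: the box of the starts, rows before the window. -/
def Zg (G : Gm) (u : ℕ) (κ : ℤ × ℤ) (a : ℝ) : Set (ℕ × ℤ) := {c | c ∈ Rg G u κ a ∧ c.1 + 1 ≤ G.ra u κ}

/-- **The inner windows** `v < u`, cells `c v`. -/
theorem inwG {S : Finset ℕ} {u : ℕ} {κ : ℤ × ℤ} {c : ℕ → ℤ × ℤ} {a : ℝ} {N : ℕ → Set Env} {d dT : ℕ → ℝ} (hv0 : 0 ≤ G.v)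
    (hv1 : G.v ≤ 1) (hd : ∀ v, 0 ≤ d v) (hdT : ∀ v, (1 + (G.T v : ℝ)) * Real.exp (d v) ≤ Real.exp (dT v))
    (h0 : ∀ v ∈ S, v < u → 0 ≤ G.rcc v (c v)) (hre : ∀ v ∈ S, v < u → G.re v (c v) < G.ra u κ)
    (hlo : ∀ v ∈ S, v < u → G.lo u κ - (G.T (u - 2) : ℤ) ≤ G.ra v (c v))
    (hg : ∀ v ∈ S, v < u → |G.ctr v (c v) - G.ctr u κ| + G.kw * G.w v + 2 ≤ a * G.w u)
    (hR : ∀ v ∈ S, v < u → ∀ A ∈ N v, ∀ η, G.R v (c v) η A ∈ N v →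
      Ro (wt A) (wt (G.R v (c v) η A)) Γ.p Γ.N (O22.Bw G v (c v)) (Real.exp (d v))) :
    Inw Γ (fun v => G.R v (c v)) N S u (G.ra u κ - 1) (Zg G u κ a) (fun v => O22.Bw G v (c v)) (fun v => G.ra v (c v))
      (fun v => G.re v (c v) - G.ra v (c v)) d dT := by
  have rows : ∀ v ∈ S, v < u → ∀ k y, (k, y) ∈ O22.Bw G v (c v) → G.ra v (c v) ≤ k ∧ k < G.re v (c v) := by
    intro v hv hvu k y h
    have h1 := G.ra_cast (h0 v hv hvu)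
    have h2 := G.re_cast (h0 v hv hvu)
    have h3 : G.rcc v (c v) + G.T (v - 1) < (k : ℤ) := h.1
    have h4 : (k : ℤ) ≤ G.rcc v (c v) + G.T v := h.2.1
    omega
  refine ⟨hd, fun v => ?_, fun v _ _ => ?_, fun v hv hvu k y h => ?_, fun v hv hvu => ?_, fun v hv hvu k y h => ?_,
    fun v hv hvu A hA η hη k y h => Gm.wt_gl_of_not_mem fun h2 => h h2,
    fun v hv hvu A hA η hη k q _ h => (hR v hv hvu A hA η hη).dn k q h,
    fun v hv hvu A hA η hη k q _ h => (hR v hv hvu A hA η hη).up k q h⟩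
  · have h1 : ((G.re v (c v) - G.ra v (c v) : ℕ) : ℝ) ≤ G.T v := by
      rw [G.re_sub_ra]
      exact_mod_cast Nat.sub_le _ _
    exact (mul_le_mul_of_nonneg_right (by linarith) (Real.exp_pos _).le).trans (hdT v)
  · show 1 ≤ G.ra v (c v)
    unfold Gm.ra
    omega
  · obtain ⟨h1, h2⟩ := rows v hv hvu k y h
    exact ⟨h1, by show k < G.ra v (c v) + (G.re v (c v) - G.ra v (c v)); omega⟩
  · have h1 := hre v hv hvu
    have h2 := G.ra_le_re v (c v)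
    show G.ra v (c v) + (G.re v (c v) - G.ra v (c v)) ≤ G.ra u κ - 1
    omega
  · obtain ⟨h1, h2⟩ := rows v hv hvu k y h
    have h3 := hlo v hv hvu
    have h4 := hre v hv hvu
    have h5 := hg v hv hvu
    have h6 := (win_col (v := u) (κ := κ) (k := k) (y := y) h).1
    obtain ⟨h7, h8⟩ := Sy78.lat_succ hv0 hv1 k y h6
    refine ⟨⟨⟨?_, ?_, ?_⟩, ?_⟩, ⟨⟨?_, ?_, ?_⟩, ?_⟩⟩
    · show G.lo u κ - (G.T (u - 2) : ℤ) ≤ ((k + 1 : ℕ) : ℤ)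
      push_cast; omega
    · show k + 1 ≤ G.ra u κ
      omega
    · show |G.lat (k + 1, y) - G.ctr u κ| ≤ a * G.w u
      linarith
    · show k + 1 + 1 ≤ G.ra u κ
      omega
    · show G.lo u κ - (G.T (u - 2) : ℤ) ≤ ((k + 1 : ℕ) : ℤ)
      push_cast; omega
    · show k + 1 ≤ G.ra u κ
      omega
    · show |G.lat (k + 1, y + 1) - G.ctr u κ| ≤ a * G.w u
      linarith
    · show k + 1 + 1 ≤ G.ra u κ
      omega

end geo

end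

end Pool.Agent.W_7d29a1_C1.SD53
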