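import Pool.Agent.W_7d29a1_C1.RankP74

/-!
Both halves (MP_7d29a1_pr), attractor route [C1], SEP (move the contact), S9: THE EXCLUSIONS, deterministic part. (helper53)

A lucky slab between the rows `a` and `b`: entrance window `Wi` at the row `a`, exit cell `Ce` at the row `b`.

* `far_le` (single path): the mass of the paths which are in `Fa` at an earlier row `e` is at most the mass off the exit
  cell plus `st` times the whole mass, if at every site of the exit cell the mass which comes from `Fa` is at most `st`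
  times the whole mass there (steep paths, backward in time).
* `unmet_le` (pairs): the mass of the pairs which have not met at the row `b` is at most `δ` + the probabilities that one
  of the two paths misses the window or the cell, if the cross ratios of the kernel on window times cell are at most
  `1 / (1 - δ)`. Any past (two groups), any future.
-/

set_option autoImplicit false

namespace Pool.Agent.W_7d29a1_C1.E53

open Finset
open Pool.Agent.W_7d29a1_C1.CR76 (TP CR)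
open Pool.Agent.W_7d29a1_C1.Gini76 (push pull)

/-! ### single path -/

/-- the mass of the paths in `Fa` at the row `e`: `f` = forward masses at the row `e`, `K` = kernel from `e` to `b`,
`g` = backward masses at the row `b`. -/
theorem far_le {S Fa Ce : Finset ℤ} {f g F be : ℤ → ℝ} {K : ℤ → ℤ → ℝ} {st ta Z : ℝ}
    (hf : ∀ y ∈ S, 0 ≤ f y) (hK : ∀ y ∈ S, ∀ z ∈ S, 0 ≤ K y z) (hg : ∀ z ∈ S, 0 ≤ g z)
    (hFa : Fa ⊆ S) (hCe : Ce ⊆ S)
    (hbe : ∀ y ∈ S, be y = ∑ z ∈ S, K y z * g z) (hF : ∀ z ∈ S, F z = ∑ y ∈ S, f y * K y z)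
    (hst : ∀ z ∈ Ce, ∑ y ∈ Fa, f y * K y z ≤ st * F z) (hst0 : 0 ≤ st)
    (hZ : Z = ∑ z ∈ S, F z * g z) (hoff : ∑ z ∈ S \ Ce, F z * g z ≤ ta * Z) :
    ∑ y ∈ Fa, f y * be y ≤ (st + ta) * Z := by
  have hF0 : ∀ z ∈ S, 0 ≤ F z := fun z hz => by
    rw [hF z hz]
    exact sum_nonneg fun y hy => mul_nonneg (hf y hy) (hK y hy z hz)
  have e1 : ∑ y ∈ Fa, f y * be y = ∑ z ∈ S, (∑ y ∈ Fa, f y * K y z) * g z := by
    simp only [sum_mul]
    rw [sum_comm]
    refine sum_congr rfl fun y hy => ?_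
    rw [hbe y (hFa hy), mul_sum]
    exact sum_congr rfl fun z _ => by ring
  have h1 : ∑ z ∈ Ce, (∑ y ∈ Fa, f y * K y z) * g z ≤ st * Z := by
    have a1 : ∑ z ∈ Ce, (∑ y ∈ Fa, f y * K y z) * g z ≤ ∑ z ∈ Ce, st * (F z * g z) :=
      sum_le_sum fun z hz => by
        have := mul_le_mul_of_nonneg_right (hst z hz) (hg z (hCe hz))
        linarith
    have a2 : ∑ z ∈ Ce, F z * g z ≤ Z := by
      rw [hZ]
      exact sum_le_sum_of_subset_of_nonneg hCe fun z hz _ => mul_nonneg (hF0 z hz) (hg z hz)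
    rw [← mul_sum] at a1
    exact a1.trans (mul_le_mul_of_nonneg_left a2 hst0)
  have h2 : ∑ z ∈ S \ Ce, (∑ y ∈ Fa, f y * K y z) * g z ≤ ta * Z := by
    refine le_trans (sum_le_sum fun z hz => ?_) hoff
    have hzS := (mem_sdiff.1 hz).1
    refine mul_le_mul_of_nonneg_right ?_ (hg z hzS)
    rw [hF z hzS]
    exact sum_le_sum_of_subset_of_nonneg hFa fun y hy _ => mul_nonneg (hf y hy) (hK y hy z hzS)
  rw [e1, ← sum_sdiff hCe]
  linarith

/-! ### pairs -/

/-- the mass of the pairs which have not met at the row `b`, with the terminal profile `g`. -/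
def nmS (S : Finset ℤ) (L R g : ℤ → ℝ) : ℝ :=
  ∑ x ∈ S, ∑ y ∈ S, (L x * R y - L y * R x) * (if x < y then g x * g y else 0)

/-- One step: `L = L₀ + L₁`, `R = R₀ + R₁` with everything nonnegative; the determinant of the parts `L₁`, `R₁` is at
most `δ` times the product on the cell. -/
theorem nmS_le {S Ce : Finset ℤ} {L R L₁ R₁ g : ℤ → ℝ} {δ oL oR cL cR ZL ZR : ℝ}
    (hg : ∀ z ∈ S, 0 ≤ g z) (hCe : Ce ⊆ S)
    (hL1 : ∀ z ∈ S, 0 ≤ L₁ z) (hR1 : ∀ z ∈ S, 0 ≤ R₁ z) (hL : ∀ z ∈ S, L₁ z ≤ L z) (hR : ∀ z ∈ S, R₁ z ≤ R z)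
    (hδ : 0 ≤ δ)
    (hd : ∀ x ∈ Ce, ∀ y ∈ Ce, x < y → L₁ x * R₁ y - L₁ y * R₁ x ≤ δ * (L₁ x * R₁ y))
    (hZL : ZL = ∑ z ∈ S, L z * g z) (hZR : ZR = ∑ z ∈ S, R z * g z)
    (hoL : ∑ z ∈ S, (L z - L₁ z) * g z ≤ oL * ZL) (hoR : ∑ z ∈ S, (R z - R₁ z) * g z ≤ oR * ZR)
    (hcL : ∑ z ∈ S \ Ce, L z * g z ≤ cL * ZL) (hcR : ∑ z ∈ S \ Ce, R z * g z ≤ cR * ZR) :
    nmS S L R g ≤ (δ + oL + oR + cL + cR) * (ZL * ZR) := by
  classical
  have hL0 : ∀ z ∈ S, 0 ≤ L z := fun z hz => (hL1 z hz).trans (hL z hz)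
  have hR0 : ∀ z ∈ S, 0 ≤ R z := fun z hz => (hR1 z hz).trans (hR z hz)
  have ZL0 : 0 ≤ ZL := by
    rw [hZL]; exact sum_nonneg fun z hz => mul_nonneg (hL0 z hz) (hg z hz)
  have ZR0 : 0 ≤ ZR := by
    rw [hZR]; exact sum_nonneg fun z hz => mul_nonneg (hR0 z hz) (hg z hz)
  -- indicator of the cell
  set c : ℤ → ℝ := fun z => if z ∈ Ce then 0 else 1 with hc
  have c0 : ∀ z, 0 ≤ c z := fun z => by
    simp only [hc]; split_ifs <;> norm_num
  -- the pointwise bound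
  have key : ∀ x ∈ S, ∀ y ∈ S, (L x * R y - L y * R x) * (if x < y then g x * g y else 0) ≤
      (δ * ((L x * g x) * (R y * g y)) + ((L x - L₁ x) * g x) * (R y * g y) + (L x * g x) * ((R y - R₁ y) * g y)) +
        ((c x * (L x * g x)) * (R y * g y) + (L x * g x) * (c y * (R y * g y))) := by
    intro x hx y hy
    have gx := hg x hx
    have gy := hg y hy
    have lx := hL0 x hx
    have ly := hL0 y hy
    have rx := hR0 x hx
    have ry := hR0 y hy
    have l1x := hL1 x hx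
    have l1y := hL1 y hy
    have r1x := hR1 x hx
    have r1y := hR1 y hy
    have dx := hL x hx
    have dy := hR y hy
    have t1 : 0 ≤ δ * ((L x * g x) * (R y * g y)) := by positivity
    have t2 : 0 ≤ ((L x - L₁ x) * g x) * (R y * g y) :=
      mul_nonneg (mul_nonneg (by linarith) gx) (mul_nonneg ry gy)
    have t3 : 0 ≤ (L x * g x) * ((R y - R₁ y) * g y) :=
      mul_nonneg (mul_nonneg lx gx) (mul_nonneg (by linarith) gy)
    have t4 : 0 ≤ (c x * (L x * g x)) * (R y * g y) :=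
      mul_nonneg (mul_nonneg (c0 x) (mul_nonneg lx gx)) (mul_nonneg ry gy)
    have t5 : 0 ≤ (L x * g x) * (c y * (R y * g y)) :=
      mul_nonneg (mul_nonneg lx gx) (mul_nonneg (c0 y) (mul_nonneg ry gy))
    by_cases hxy : x < y
    · rw [if_pos hxy]
      have g2 : 0 ≤ g x * g y := mul_nonneg gx gy
      by_cases hxc : x ∈ Ce
      · by_cases hyc : y ∈ Ce
        · have h1 := hd x hxc y hyc hxy
          have h2 : L₁ x * R₁ y ≤ L x * R y := mul_le_mul dx dy r1y lx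
          have h3 : L₁ y * R₁ x ≤ L y * R x := mul_le_mul (hL y hy) (hR x hx) r1x ly
          have h4 : L x * R y - L₁ x * R₁ y = (L x - L₁ x) * R y + L₁ x * (R y - R₁ y) := by ring
          have h5 : L₁ x * (R y - R₁ y) ≤ L x * (R y - R₁ y) := mul_le_mul_of_nonneg_right dx (by linarith)
          have h6 : δ * (L₁ x * R₁ y) ≤ δ * (L x * R y) := mul_le_mul_of_nonneg_left h2 hδ
          have h7 : L x * R y - L y * R x ≤ δ * (L x * R y) + (L x - L₁ x) * R y + L x * (R y - R₁ y) := by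
            linarith
          have h8 := mul_le_mul_of_nonneg_right h7 g2
          have e : (δ * (L x * R y) + (L x - L₁ x) * R y + L x * (R y - R₁ y)) * (g x * g y) =
              δ * ((L x * g x) * (R y * g y)) + ((L x - L₁ x) * g x) * (R y * g y) +
                (L x * g x) * ((R y - R₁ y) * g y) := by ring
          rw [e] at h8
          linarith
        · have cy : c y = 1 := by simp only [hc]; rw [if_neg hyc]
          have h1 : (L x * R y - L y * R x) * (g x * g y) ≤ (L x * g x) * (c y * (R y * g y)) := by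
            rw [cy]
            have : 0 ≤ L y * R x * (g x * g y) := mul_nonneg (mul_nonneg ly rx) g2
            have e : (L x * R y - L y * R x) * (g x * g y) =
              (L x * g x) * (1 * (R y * g y)) - L y * R x * (g x * g y) := by ring
            linarith
          linarith
      · have cx : c x = 1 := by simp only [hc]; rw [if_neg hxc]
        have h1 : (L x * R y - L y * R x) * (g x * g y) ≤ (c x * (L x * g x)) * (R y * g y) := by
          rw [cx]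
          have : 0 ≤ L y * R x * (g x * g y) := mul_nonneg (mul_nonneg ly rx) g2
          have e : (L x * R y - L y * R x) * (g x * g y) =
            (1 * (L x * g x)) * (R y * g y) - L y * R x * (g x * g y) := by ring
          linarith
        linarith
    · rw [if_neg hxy, mul_zero]
      linarith
  have cs : ∀ f : ℤ → ℝ, ∑ z ∈ S, c z * f z = ∑ z ∈ S \ Ce, f z := by
    intro f
    rw [← sum_sdiff hCe]
    have a1 : ∑ z ∈ Ce, c z * f z = 0 := sum_eq_zero fun z hz => by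
      simp only [hc]; rw [if_pos hz, zero_mul]
    have a2 : ∑ z ∈ S \ Ce, c z * f z = ∑ z ∈ S \ Ce, f z := sum_congr rfl fun z hz => by
      simp only [hc]; rw [if_neg (mem_sdiff.1 hz).2, one_mul]
    rw [a1, a2, add_zero]
  have tot : nmS S L R g ≤ ((δ * (ZL * ZR) + (∑ z ∈ S, (L z - L₁ z) * g z) * ZR + ZL * ∑ z ∈ S, (R z - R₁ z) * g z) +
      ((∑ z ∈ S \ Ce, L z * g z) * ZR + ZL * ∑ z ∈ S \ Ce, R z * g z)) := by
    unfold nmS
    refine (sum_le_sum fun x hx => sum_le_sum fun y hy => key x hx y hy).trans (le_of_eq ?_)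
    rw [← cs (fun z => L z * g z), ← cs (fun z => R z * g z), hZL, hZR]
    simp only [sum_add_distrib, ← mul_sum, ← sum_mul]
  have b1 := mul_le_mul_of_nonneg_right hoL ZR0
  have b2 := mul_le_mul_of_nonneg_left hoR ZL0
  have b3 := mul_le_mul_of_nonneg_right hcL ZR0
  have b4 := mul_le_mul_of_nonneg_left hcR ZL0
  calc nmS S L R g ≤ _ := tot
    _ ≤ δ * (ZL * ZR) + oL * ZL * ZR + ZL * (oR * ZR) + (cL * ZL * ZR + ZL * (cR * ZR)) := by linarith
    _ = (δ + oL + oR + cL + cR) * (ZL * ZR) := by ring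

/-- The determinant of the parts which enter through the window `Wi`. -/
theorem det_le {Wi : Finset ℤ} {La Ra : ℤ → ℝ} {K : ℤ → ℤ → ℝ} {δ : ℝ} (hδ : 0 ≤ δ)
    (hLa : ∀ z ∈ Wi, 0 ≤ La z) (hRa : ∀ z ∈ Wi, 0 ≤ Ra z) {x y : ℤ} (hKx : ∀ z ∈ Wi, 0 ≤ K z x)
    (hKy : ∀ z ∈ Wi, 0 ≤ K z y)
    (hTP : ∀ z ∈ Wi, ∀ z' ∈ Wi, z' ≤ z → K z x * K z' y ≤ K z y * K z' x)
    (hCR : ∀ z ∈ Wi, ∀ z' ∈ Wi, z < z' → K z x * K z' y - K z y * K z' x ≤ δ * (K z x * K z' y)) :
    (∑ z ∈ Wi, La z * K z x) * (∑ z ∈ Wi, Ra z * K z y) - (∑ z ∈ Wi, La z * K z y) * (∑ z ∈ Wi, Ra z * K z x) ≤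
      δ * ((∑ z ∈ Wi, La z * K z x) * (∑ z ∈ Wi, Ra z * K z y)) := by
  rw [sum_mul_sum, sum_mul_sum, ← sum_sub_distrib, mul_sum]
  refine sum_le_sum fun z hz => ?_
  rw [← sum_sub_distrib, mul_sum]
  refine sum_le_sum fun z' hz' => ?_
  have c0 : 0 ≤ La z * Ra z' := mul_nonneg (hLa z hz) (hRa z' hz')
  have h : K z x * K z' y - K z y * K z' x ≤ δ * (K z x * K z' y) := by
    rcases lt_or_ge z z' with h1 | h1
    · exact hCR z hz z' hz' h1
    · have := hTP z hz z' hz' h1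
      have := mul_nonneg hδ (mul_nonneg (hKx z hz) (hKy z' hz'))
      linarith
  have h2 := mul_le_mul_of_nonneg_left h c0
  have e1 : La z * K z x * (Ra z' * K z' y) - La z * K z y * (Ra z' * K z' x) =
      La z * Ra z' * (K z x * K z' y - K z y * K z' x) := by ring
  have e2 : δ * (La z * K z x * (Ra z' * K z' y)) = La z * Ra z' * (δ * (K z x * K z' y)) := by ring
  rw [e1, e2]
  exact h2

/-- the cross ratio of the corners bounds the determinant inside -/
theorem cr_corner {I : ℤ → ℤ → ℝ} {Y Xs : Set ℤ} (h : TP I Y Xs) {ya z z' yb xa x y xb : ℤ}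
    (hya : ya ∈ Y) (hz : z ∈ Y) (hz' : z' ∈ Y) (hyb : yb ∈ Y) (hxa : xa ∈ Xs) (hx : x ∈ Xs) (hy : y ∈ Xs)
    (hxb : xb ∈ Xs) (h1 : ya ≤ z) (h2 : z ≤ z') (h3 : z' ≤ yb) (h4 : xa ≤ x) (h5 : x ≤ y) (h6 : y ≤ xb)
    {δ : ℝ} (hδ : 0 ≤ δ) (c : CR I ya yb xa xb ≤ 1 + δ) :
    I z x * I z' y - I z y * I z' x ≤ δ * (I z x * I z' y) := by
  have c1 := (h.CR_mono hya hz hz' hyb hxa hx hy hxb h1 h2 h3 h4 h5 h6).trans c
  have p1 := h.pos z hz x hx
  have p2 := h.pos z' hz' y hy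
  have p3 := h.pos z hz y hy
  have p4 := h.pos z' hz' x hx
  unfold CR at c1
  rw [div_le_iff₀ (mul_pos p3 p4)] at c1
  have t := h.tp z hz z' hz' h2 x hx y hy h5
  have : δ * (I z y * I z' x) ≤ δ * (I z x * I z' y) := mul_le_mul_of_nonneg_left t hδ
  linarith

/-! ### The objects of K91P -/

section inst

open Pool.Agent.W_7d29a1_C1.K91 (Grp Box ps2)
open Pool.Agent.W_7d29a1_C1.K91P
open Pool.Agent.W_7d29a1_C1.R26P

variable {w : ℕ → ℤ → ℝ} {p : ℕ → ℝ} {l r : ℤ → ℝ} {X lo hi : ℤ} {N : ℕ}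

/-- the mass of the paths of the group `l` which are in `A` at the row `k` -/
noncomputable def mA (w : ℕ → ℤ → ℝ) (p : ℕ → ℝ) (l : ℤ → ℝ) (N k : ℕ) (A : Finset ℤ) : ℝ :=
  ∑ y ∈ A, fw w p l k y * bw w p k (N - k) y

theorem mA_nonneg (hw : ∀ k y, 0 < w k y) (hp : ∀ k, 0 < p k) (hl : ∀ y, 0 ≤ l y) (k : ℕ) (A : Finset ℤ) :
    0 ≤ mA w p l N k A :=
  sum_nonneg fun y _ => mul_nonneg (fw_nonneg hw hp hl k y) (bw_pos hw hp _ _ _).le

theorem mA_mono (hw : ∀ k y, 0 < w k y) (hp : ∀ k, 0 < p k) (hl : ∀ y, 0 ≤ l y) (k : ℕ) {A B : Finset ℤ} (h : A ⊆ B) :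
    mA w p l N k A ≤ mA w p l N k B :=
  sum_le_sum_of_subset_of_nonneg h fun y _ _ => mul_nonneg (fw_nonneg hw hp hl k y) (bw_pos hw hp _ _ _).le

/-- one of the two groups of a box -/
structure One (l : ℤ → ℝ) (lo hi : ℤ) (N : ℕ) : Prop where
  nn : ∀ y, 0 ≤ l y
  lo0 : ∀ y, y < lo → l y = 0
  hi0 : ∀ y, hi - N < y → l y = 0

theorem one_l (h : Box l r X lo hi N) : One l lo hi N :=
  ⟨h.g.l0, fun y hy => (h.lo0 y hy).1, fun y hy => (h.hi0 y hy).1⟩

theorem one_r (h : Box l r X lo hi N) : One r lo hi N :=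
  ⟨h.g.r0, fun y hy => (h.lo0 y hy).2, fun y hy => (h.hi0 y hy).2⟩

theorem One.lo' (h : One l lo hi N) (k : ℕ) {y : ℤ} (hy : y < lo) : fw w p l k y = 0 := fw_lo h.lo0 k y hy

theorem One.hi' (h : One l lo hi N) (k : ℕ) {y : ℤ} (hy : hi - N + k < y) : fw w p l k y = 0 :=
  fw_hi (B := hi - N) h.hi0 k y hy

theorem One.out (h : One l lo hi N) {k : ℕ} (hk : k ≤ N) (y : ℤ) (hy : y ∉ Icc lo hi) : fw w p l k y = 0 := by
  rw [mem_Icc, not_and_or, not_le, not_le] at hy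
  rcases hy with hy | hy
  · exact h.lo' k hy
  · exact h.hi' k (by omega)

/-- masses behind `n` rows, entrance in `A` at the row `k` -/
theorem sum_via (h : One l lo hi N) {k n : ℕ} (hk : k + n ≤ N) (A : Finset ℤ) :
    ∑ x ∈ Icc lo hi, (∑ y ∈ A, fw w p l k y * kf w p k n y x) * bw w p (k + n) (N - (k + n)) x = mA w p l N k A := by
  unfold mA
  simp only [sum_mul]
  rw [sum_comm]
  refine sum_congr rfl fun y _ => ?_
  by_cases hy : lo ≤ y ∧ y + n ≤ hi
  · have e : N - k = n + (N - (k + n)) := by omega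
    rw [e, bw_kf k n (N - (k + n)) y hy.1 hy.2]
    unfold pull
    rw [mul_sum]
    exact sum_congr rfl fun x _ => by ring
  · have e : fw w p l k y = 0 := by
      rcases not_and_or.1 hy with h1 | h1
      · exact h.lo' k (by omega)
      · exact h.hi' k (by omega)
    rw [e]
    simp

theorem fw_via (h : One l lo hi N) {k n : ℕ} (hk : k + n ≤ N) (x : ℤ) :
    fw w p l (k + n) x = ∑ y ∈ Icc lo hi, fw w p l k y * kf w p k n y x :=
  fw_kf k n (fun y hy => h.out (by omega) y hy) x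

/-- the whole mass does not depend on the row -/
theorem mA_row (h : One l lo hi N) {k n : ℕ} (hk : k + n ≤ N) :
    mA w p l N (k + n) (Icc lo hi) = mA w p l N k (Icc lo hi) := by
  rw [← sum_via h hk (Icc lo hi)]
  unfold mA
  exact sum_congr rfl fun x _ => by rw [fw_via h hk]

theorem mA_all (h : One l lo hi N) {k : ℕ} (hk : k ≤ N) : mA w p l N k (Icc lo hi) = mA w p l N 0 (Icc lo hi) := by
  have := mA_row (w := w) (p := p) h (k := 0) (n := k) (by omega)
  rwa [Nat.zero_add] at this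

/-- **FAR (single path).** -/
theorem far53 (hw : ∀ k y, 0 < w k y) (hp : ∀ k, 0 < p k) (h : One l lo hi N) {e m : ℕ} (hk : e + m ≤ N)
    {Fa Ce : Finset ℤ} (hFa : Fa ⊆ Icc lo hi) (hCe : Ce ⊆ Icc lo hi) {st ta : ℝ} (hst0 : 0 ≤ st)
    (hst : ∀ z ∈ Ce, ∑ y ∈ Fa, fw w p l e y * kf w p e m y z ≤ st * fw w p l (e + m) z)
    (hoff : mA w p l N (e + m) (Icc lo hi \ Ce) ≤ ta * mA w p l N 0 (Icc lo hi)) :
    mA w p l N e Fa ≤ (st + ta) * mA w p l N 0 (Icc lo hi) := by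
  classical
  set g : ℤ → ℝ := fun z => bw w p (e + m) (N - (e + m)) z with hg
  have g0 : ∀ z, 0 ≤ g z := fun z => (bw_pos hw hp _ _ _).le
  have f0 : ∀ k y, 0 ≤ fw w p l k y := fun k y => fw_nonneg hw hp h.nn k y
  have k0 : ∀ y z, 0 ≤ kf w p e m y z := fun y z => kf_nonneg hw hp e m y z
  have e1 : mA w p l N e Fa = ∑ z ∈ Icc lo hi, (∑ y ∈ Fa, fw w p l e y * kf w p e m y z) * g z := (sum_via h hk Fa).symm
  have e2 : ∑ z ∈ Icc lo hi, fw w p l (e + m) z * g z = mA w p l N 0 (Icc lo hi) := mA_all h hk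
  have h1 : ∑ z ∈ Ce, (∑ y ∈ Fa, fw w p l e y * kf w p e m y z) * g z ≤ st * mA w p l N 0 (Icc lo hi) := by
    have a1 : ∑ z ∈ Ce, (∑ y ∈ Fa, fw w p l e y * kf w p e m y z) * g z ≤ ∑ z ∈ Ce, st * (fw w p l (e + m) z * g z) :=
      sum_le_sum fun z hz => by
        have := mul_le_mul_of_nonneg_right (hst z hz) (g0 z)
        linarith
    have a2 : ∑ z ∈ Ce, fw w p l (e + m) z * g z ≤ mA w p l N 0 (Icc lo hi) := by
      rw [← e2]
      exact sum_le_sum_of_subset_of_nonneg hCe fun z _ _ => mul_nonneg (f0 _ _) (g0 z)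
    rw [← mul_sum] at a1
    exact a1.trans (mul_le_mul_of_nonneg_left a2 hst0)
  have h2 : ∑ z ∈ Icc lo hi \ Ce, (∑ y ∈ Fa, fw w p l e y * kf w p e m y z) * g z ≤ ta * mA w p l N 0 (Icc lo hi) := by
    refine le_trans (sum_le_sum fun z _ => ?_) hoff
    refine mul_le_mul_of_nonneg_right ?_ (g0 z)
    rw [fw_via h hk z]
    exact sum_le_sum_of_subset_of_nonneg hFa fun y _ _ => mul_nonneg (f0 _ _) (k0 _ _)
  rw [e1, ← sum_sdiff hCe]
  linarith

/-- **UNMET PAIRS (hits).** `Wi` entrance window at the row `a`, `Ce` exit cell at the row `a + n`. -/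
theorem unmet53 (hw : ∀ k y, 0 < w k y) (hp : ∀ k, 0 < p k) (h : Box l r X lo hi N) {a n : ℕ} (hk : a + n ≤ N)
    {Wi Ce : Finset ℤ} (hWi : Wi ⊆ Icc lo hi) (hCe : Ce ⊆ Icc lo hi) {δ oL oR cL cR : ℝ} (hδ : 0 ≤ δ)
    (hcr : ∀ z ∈ Wi, ∀ z' ∈ Wi, z < z' → ∀ x ∈ Ce, ∀ y ∈ Ce, x < y →
      kf w p a n z x * kf w p a n z' y - kf w p a n z y * kf w p a n z' x ≤ δ * (kf w p a n z x * kf w p a n z' y))
    (hoL : mA w p l N a (Icc lo hi \ Wi) ≤ oL * mA w p l N 0 (Icc lo hi))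
    (hoR : mA w p r N a (Icc lo hi \ Wi) ≤ oR * mA w p r N 0 (Icc lo hi))
    (hcL : mA w p l N (a + n) (Icc lo hi \ Ce) ≤ cL * mA w p l N 0 (Icc lo hi))
    (hcR : mA w p r N (a + n) (Icc lo hi \ Ce) ≤ cR * mA w p r N 0 (Icc lo hi)) :
    nm w p l r lo hi N (a + n) ≤
      (δ + oL + oR + cL + cR) * (mA w p l N 0 (Icc lo hi) * mA w p r N 0 (Icc lo hi)) := by
  classical
  have g0 : ∀ z, 0 ≤ bw w p (a + n) (N - (a + n)) z := fun z => (bw_pos hw hp _ _ _).le
  have k0 : ∀ y z, 0 ≤ kf w p a n y z := fun y z => kf_nonneg hw hp a n y z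
  have part : ∀ {m : ℤ → ℝ}, One m lo hi N → ∀ z, ∑ y ∈ Wi, fw w p m a y * kf w p a n y z ≤ fw w p m (a + n) z :=
    fun {m} hm z => by
      rw [fw_via hm hk z]
      exact sum_le_sum_of_subset_of_nonneg hWi fun y _ _ => mul_nonneg (fw_nonneg hw hp hm.nn _ _) (k0 _ _)
  have pn : ∀ {m : ℤ → ℝ}, One m lo hi N → ∀ z, 0 ≤ ∑ y ∈ Wi, fw w p m a y * kf w p a n y z :=
    fun {m} hm z => sum_nonneg fun y _ => mul_nonneg (fw_nonneg hw hp hm.nn _ _) (k0 _ _)
  have off : ∀ {m : ℤ → ℝ}, One m lo hi N → ∑ z ∈ Icc lo hi, (fw w p m (a + n) z -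
      ∑ y ∈ Wi, fw w p m a y * kf w p a n y z) * bw w p (a + n) (N - (a + n)) z = mA w p m N a (Icc lo hi \ Wi) := by
    intro m hm
    rw [← sum_via hm hk (Icc lo hi \ Wi)]
    refine sum_congr rfl fun z _ => ?_
    rw [fw_via hm hk z, ← sum_sdiff hWi]
    ring
  have e : nm w p l r lo hi N (a + n) = nmS (Icc lo hi) (fun z => fw w p l (a + n) z) (fun z => fw w p r (a + n) z)
      (fun z => bw w p (a + n) (N - (a + n)) z) := rfl
  rw [e]
  refine nmS_le (L₁ := fun z => ∑ y ∈ Wi, fw w p l a y * kf w p a n y z)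
    (R₁ := fun z => ∑ y ∈ Wi, fw w p r a y * kf w p a n y z) (fun z _ => g0 z) hCe (fun z _ => pn (one_l h) z)
    (fun z _ => pn (one_r h) z) (fun z _ => part (one_l h) z) (fun z _ => part (one_r h) z) hδ ?_
    (mA_all (one_l h) hk).symm (mA_all (one_r h) hk).symm ?_ ?_ hcL hcR
  · intro x hx y hy hxy
    exact det_le hδ (fun z _ => fw_nonneg hw hp h.g.l0 _ _) (fun z _ => fw_nonneg hw hp h.g.r0 _ _) (fun z _ => k0 _ _)
      (fun z _ => k0 _ _) (fun z _ z' _ hzz => by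
        have := kf_minor hw hp a n (y := z') (y' := z) (x := x) (x' := y) hzz hxy.le
        linarith) (fun z hz z' hz' hzz => hcr z hz z' hz' hzz x hx y hy hxy)
  · rw [off (one_l h)]; exact hoL
  · rw [off (one_r h)]; exact hoR

/-- the unmet mass decreases from row to row -/
theorem nm_anti (hw : ∀ k y, 0 < w k y) (hp : ∀ k, 0 < p k) (h : Box l r X lo hi N) {k k' : ℕ} (hk : k ≤ k')
    (hN : k' ≤ N) : nm w p l r lo hi N k' ≤ nm w p l r lo hi N k := by
  induction k', hk using Nat.le_induction with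
  | base => exact le_rfl
  | succ j hj ih =>
    refine le_trans ?_ (ih (by omega))
    rw [nm_step h (show j < N by omega)]
    have : 0 ≤ mt w p l r lo hi N j := sum_nonneg fun q _ =>
      mul_nonneg (dp_nonneg hw hp h.g _ _ _ (by omega)) (mul_nonneg (mul_nonneg (hp _).le
        (mul_nonneg (hw _ _).le (hw _ _).le)) (sq_nonneg _))
    linarith

end inst

end Pool.Agent.W_7d29a1_C1.E53
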