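import Pool.Agent.W_7d29a1_C1.Excl53
import Pool.Agent.W_7d29a1_C1.SpOne22
import Pool.Agent.W_7d29a1_C1.CtxM68

/-!
Both halves (MP_7d29a1_pr), attractor route [C1], SEP (move the contact), S9: THE EXCLUSIONS for three environments.
(helper53)

`w` (the slab typical), `w''` (the slab typical, other contents of the inner slabs), `w'` (like `w''`, the slab lucky).
Window `Wi` at the row `a` (mouth of the slab), exit cell `Ce` at the row `a + n`.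

* `Lk`: the single path inequalities of one group; `Lk.off`: if the part `π` of the mass enters through the window for
  `w`, then at most the part `Y D² / (g π)` misses the window or the exit cell for `w'`;
* `enter53`: a contact of weight `v` gives `π = (1 - st) v` (steep paths from the contact);
* `far53B`: the far mass of `w'`; `late53B`: the mass of the later contacts for `w'`.
-/

set_option autoImplicit false

namespace Pool.Agent.W_7d29a1_C1.E53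

open Finset MeasureTheory
open Pool.Agent.W_7d29a1_F Pool.Agent.W_7d29a1_h4g Pool.Agent.W_7d29a1_H Pool.Agent.W_7d29a1_HS
open Pool.Agent.W_7d29a1_C1.K91 (Grp Box wt wt_pos)
open Pool.Agent.W_7d29a1_C1.K91P
open Pool.Agent.W_7d29a1_C1.R26P
open Pool.Agent.W_7d29a1_C1.U16 (ker)
open Pool.Agent.W_7d29a1_C1.Sp22 (Ms Ps Zt)
open Pool.Agent.W_7d29a1_C1.H60

theorem kf_eq_ker (w : ℕ → ℤ → ℝ) (p : ℕ → ℝ) (i n : ℕ) (x y : ℤ) : kf w p i n x y = ker w p i n x y := rfl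

theorem mA_eq_Ps (w : ℕ → ℤ → ℝ) (p : ℕ → ℝ) (l : ℤ → ℝ) (N k : ℕ) (A : Finset ℤ) : mA w p l N k A = Ps w p l N k A := rfl

section one

variable {w w'' w' : ℕ → ℤ → ℝ} {p : ℕ → ℝ} {m l r : ℤ → ℝ} {X lo hi : ℤ} {N a n : ℕ} {Wi Ce : Finset ℤ} {D g Y : ℝ}

theorem One.ms (h : One m lo hi N) : Ms m lo hi N := ⟨h.nn, h.lo0, h.hi0⟩

theorem Ms.one53 (h : Ms m lo hi N) : One m lo hi N := ⟨h.nn, h.lo0, h.hi0⟩

theorem mA_zt (h : Ms m lo hi N) {k : ℕ} (hk : k ≤ N) : mA w p m N k (Icc lo hi) = Zt w p m lo hi N := Sp22.Ps_all h hk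

/-- **One group, three environments.** `D`: the price of the inner slabs; `g`: the gain of the lucky slab; `Y`: the leak. -/
structure Lk (w w'' w' : ℕ → ℤ → ℝ) (p : ℕ → ℝ) (m : ℤ → ℝ) (lo hi : ℤ) (N a n : ℕ) (Wi Ce : Finset ℤ) (D g Y : ℝ) : Prop where
  D0 : 0 ≤ D
  g0 : 0 < g
  Y0 : 0 ≤ Y
  zt : Zt w'' p m lo hi N ≤ D * Zt w p m lo hi N
  en : Ps w p m N a Wi ≤ D * Ps w'' p m N a Wi
  big : g * Ps w'' p m N a Wi ≤ Zt w' p m lo hi N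
  offa : Ps w' p m N a (Icc lo hi \ Wi) ≤ Y * Zt w'' p m lo hi N
  offc : Ps w' p m N (a + n) (Icc lo hi \ Ce) ≤ Y * Zt w'' p m lo hi N

/-- The old total against the new one. -/
theorem Lk.tot (h : Lk w w'' w' p m lo hi N a n Wi Ce D g Y) {π : ℝ} (hπ : 0 < π)
    (hen : π * Zt w p m lo hi N ≤ Ps w p m N a Wi) : Zt w'' p m lo hi N ≤ D ^ 2 / (g * π) * Zt w' p m lo hi N := by
  have hgp : 0 < g * π := mul_pos h.g0 hπ
  rw [div_mul_eq_mul_div, le_div_iff₀ hgp]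
  have h1 : π * Zt w p m lo hi N ≤ D * Ps w'' p m N a Wi := hen.trans h.en
  have h2 : g * (π * Zt w p m lo hi N) ≤ D * Zt w' p m lo hi N := by
    calc g * (π * Zt w p m lo hi N) ≤ g * (D * Ps w'' p m N a Wi) := mul_le_mul_of_nonneg_left h1 h.g0.le
      _ = D * (g * Ps w'' p m N a Wi) := by ring
      _ ≤ D * Zt w' p m lo hi N := mul_le_mul_of_nonneg_left h.big h.D0
  calc Zt w'' p m lo hi N * (g * π) ≤ D * Zt w p m lo hi N * (g * π) := mul_le_mul_of_nonneg_right h.zt hgp.le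
    _ = D * (g * (π * Zt w p m lo hi N)) := by ring
    _ ≤ D * (D * Zt w' p m lo hi N) := mul_le_mul_of_nonneg_left h2 h.D0
    _ = _ := by ring

/-- **To miss the window or the exit cell of the lucky slab.** -/
theorem Lk.off (h : Lk w w'' w' p m lo hi N a n Wi Ce D g Y) {π : ℝ} (hπ : 0 < π)
    (hen : π * Zt w p m lo hi N ≤ Ps w p m N a Wi) :
    Ps w' p m N a (Icc lo hi \ Wi) ≤ Y * D ^ 2 / (g * π) * Zt w' p m lo hi N ∧
      Ps w' p m N (a + n) (Icc lo hi \ Ce) ≤ Y * D ^ 2 / (g * π) * Zt w' p m lo hi N := by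
  have h1 := mul_le_mul_of_nonneg_left (h.tot hπ hen) h.Y0
  have e : Y * (D ^ 2 / (g * π) * Zt w' p m lo hi N) = Y * D ^ 2 / (g * π) * Zt w' p m lo hi N := by ring
  rw [e] at h1
  exact ⟨h.offa.trans h1, h.offc.trans h1⟩

/-- Off the window: the same from a part `κ` only. -/
theorem Lk.off' (h : Lk w w'' w' p m lo hi N a n Wi Ce D g Y) {π κ : ℝ} (hπ : 0 < π)
    (hen : π * Zt w p m lo hi N ≤ Ps w p m N a Wi) (hκ : Y * D ^ 2 ≤ κ * (g * π)) (hZ : 0 ≤ Zt w' p m lo hi N) :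
    Ps w' p m N a (Icc lo hi \ Wi) ≤ κ * Zt w' p m lo hi N ∧ Ps w' p m N (a + n) (Icc lo hi \ Ce) ≤ κ * Zt w' p m lo hi N := by
  have h1 := h.off hπ hen
  have h2 : Y * D ^ 2 / (g * π) ≤ κ := by rw [div_le_iff₀ (mul_pos h.g0 hπ)]; exact hκ
  have h3 := mul_le_mul_of_nonneg_right h2 hZ
  exact ⟨h1.1.trans h3, h1.2.trans h3⟩

/-- **Entrance.** Paths from the site `x` of the row `i`: steep ones are a part `st`. -/
theorem enter53 (hw : ∀ k y, 0 < w k y) (hp : ∀ k, 0 < p k) (h : Ms m lo hi N) {i j : ℕ} (hij : i + j ≤ N)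
    (hWi : Wi ⊆ Icc lo hi) {x : ℤ} {st : ℝ}
    (hst : ∑ y ∈ Icc lo hi \ Wi, ker w p i j x y * bw w p (i + j) (N - (i + j)) y ≤ st * bw w p i (N - i) x) :
    (1 - st) * (fw w p m i x * bw w p i (N - i) x) ≤ Ps w p m N (i + j) Wi := by
  classical
  have f0 : 0 ≤ fw w p m i x := fw_nonneg hw hp h.nn i x
  by_cases hx : lo ≤ x ∧ x + j ≤ hi
  · have e : N - i = j + (N - (i + j)) := by omega
    have e1 : bw w p i (N - i) x = ∑ y ∈ Icc lo hi, ker w p i j x y * bw w p (i + j) (N - (i + j)) y := by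
      rw [e, bw_kf i j (N - (i + j)) x hx.1 hx.2]
      rfl
    have e2 : bw w p i (N - i) x = ∑ y ∈ Icc lo hi \ Wi, ker w p i j x y * bw w p (i + j) (N - (i + j)) y +
        ∑ y ∈ Wi, ker w p i j x y * bw w p (i + j) (N - (i + j)) y := by
      rw [e1, sum_sdiff hWi]
    have h1 : (1 - st) * bw w p i (N - i) x ≤ ∑ y ∈ Wi, ker w p i j x y * bw w p (i + j) (N - (i + j)) y := by
      nlinarith
    calc (1 - st) * (fw w p m i x * bw w p i (N - i) x) = fw w p m i x * ((1 - st) * bw w p i (N - i) x) := by ring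
      _ ≤ fw w p m i x * ∑ y ∈ Wi, ker w p i j x y * bw w p (i + j) (N - (i + j)) y := mul_le_mul_of_nonneg_left h1 f0
      _ ≤ Ps w p m N (i + j) Wi := by
        unfold Sp22.Ps
        rw [mul_sum]
        refine sum_le_sum fun y _ => ?_
        rw [← mul_assoc]
        refine mul_le_mul_of_nonneg_right ?_ (bw_pos hw hp _ _ _).le
        have hxm : x ∈ Icc lo hi := mem_Icc.2 ⟨hx.1, by omega⟩
        rw [fw_via (One.mk h.nn h.lo0 h.hi0) hij y]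
        exact single_le_sum (f := fun z => fw w p m i z * kf w p i j z y)
          (fun z _ => mul_nonneg (fw_nonneg hw hp h.nn i z) (kf_nonneg hw hp i j z y)) hxm
  · have e : fw w p m i x = 0 := by
      rcases not_and_or.1 hx with h1 | h1
      · exact (One.mk h.nn h.lo0 h.hi0).lo' i (by omega)
      · exact (One.mk h.nn h.lo0 h.hi0).hi' i (by omega)
    rw [e, zero_mul, mul_zero]
    exact Sp22.Ps_nonneg hw hp h.nn _ _ _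

/-- **FAR, three environments.** `Fa` at the row `e`, mouth at the row `a = e + j`. -/
theorem far53B (hw : ∀ k y, 0 < w' k y) (hp : ∀ k, 0 < p k) (hm : Ms m lo hi N) {e j : ℕ} (ha : a = e + j) (haN : a ≤ N)
    (h : Lk w w'' w' p m lo hi N a n Wi Ce D g Y) {π κ st : ℝ} (hπ : 0 < π)
    (hen : π * Zt w p m lo hi N ≤ Ps w p m N a Wi) (hκ : Y * D ^ 2 ≤ κ * (g * π)) (hst0 : 0 ≤ st)
    {Fa : Finset ℤ} (hFa : Fa ⊆ Icc lo hi) (hWi : Wi ⊆ Icc lo hi)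
    (hst : ∀ z ∈ Wi, ∑ y ∈ Fa, fw w' p m e y * ker w' p e j y z ≤ st * fw w' p m a z) :
    Ps w' p m N e Fa ≤ (st + κ) * Zt w' p m lo hi N := by
  subst ha
  have hZ : 0 ≤ Zt w' p m lo hi N := by
    rw [← Sp22.Ps_all hm haN]
    exact Sp22.Ps_nonneg hw hp hm.nn _ _ _
  have h1 := far53 hw hp (One.mk hm.nn hm.lo0 hm.hi0) haN hFa hWi hst0 hst (ta := κ)
    (by rw [mA_zt hm (Nat.zero_le N)]; exact (h.off' hπ hen hκ hZ).1)
  rw [mA_zt hm (Nat.zero_le N)] at h1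
  exact h1

/-- **LATE, three environments**: the pairs which have not met at the row `a + n` or later. -/
theorem unmet53B (hw : ∀ k y, 0 < w' k y) (hp : ∀ k, 0 < p k) (hB : Box l r X lo hi N) (haN : a + n ≤ N)
    (hL : Lk w w'' w' p l lo hi N a n Wi Ce D g Y) (hR : Lk w w'' w' p r lo hi N a n Wi Ce D g Y) {π κ δ : ℝ} (hπ : 0 < π)
    (heL : π * Zt w p l lo hi N ≤ Ps w p l N a Wi) (heR : π * Zt w p r lo hi N ≤ Ps w p r N a Wi)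
    (hκ : Y * D ^ 2 ≤ κ * (g * π)) (hδ : 0 ≤ δ) (hWi : Wi ⊆ Icc lo hi) (hCe : Ce ⊆ Icc lo hi)
    (hcr : ∀ z ∈ Wi, ∀ z' ∈ Wi, z < z' → ∀ x ∈ Ce, ∀ y ∈ Ce, x < y →
      ker w' p a n z x * ker w' p a n z' y - ker w' p a n z y * ker w' p a n z' x ≤ δ * (ker w' p a n z x * ker w' p a n z' y))
    {k : ℕ} (hk : a + n ≤ k) (hkN : k ≤ N) :
    nm w' p l r lo hi N k ≤ (δ + 4 * κ) * (Zt w' p l lo hi N * Zt w' p r lo hi N) := by
  have hl : Ms l lo hi N := Ms.left hB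
  have hr : Ms r lo hi N := Ms.right hB
  have hZl : 0 ≤ Zt w' p l lo hi N := by
    rw [← Sp22.Ps_all hl haN]; exact Sp22.Ps_nonneg hw hp hl.nn _ _ _
  have hZr : 0 ≤ Zt w' p r lo hi N := by
    rw [← Sp22.Ps_all hr haN]; exact Sp22.Ps_nonneg hw hp hr.nn _ _ _
  have a1 := hL.off' hπ heL hκ hZl
  have a2 := hR.off' hπ heR hκ hZr
  have h1 := unmet53 hw hp hB haN hWi hCe (oL := κ) (oR := κ) (cL := κ) (cR := κ) hδ hcr
    (by rw [mA_zt hl (Nat.zero_le N)]; exact a1.1) (by rw [mA_zt hr (Nat.zero_le N)]; exact a2.1)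
    (by rw [mA_zt hl (Nat.zero_le N)]; exact a1.2) (by rw [mA_zt hr (Nat.zero_le N)]; exact a2.2)
  rw [mA_zt hl (Nat.zero_le N), mA_zt hr (Nat.zero_le N)] at h1
  refine ((nm_anti hw hp hB hk hkN).trans h1).trans (le_of_eq ?_)
  ring

end one

/-! ### Contexts -/

section ctx

variable {Γ : Cx} {η η'' η' : Env}

/-- The weight of a contact is at most the product of the probabilities of the two groups to be at its site. -/
theorem w_le_PP (h : Γ.Ok) (c : ℕ × ℤ) (η : Env) : Γ.w c η * (Γ.ZM η * Γ.ZR η) ≤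
    (fw (wt η) Γ.p Cx.l (c.1 + 1) c.2 * bw (wt η) Γ.p (c.1 + 1) (Γ.N - (c.1 + 1)) c.2) *
      (fw (wt η) Γ.p Γ.r (c.1 + 1) c.2 * bw (wt η) Γ.p (c.1 + 1) (Γ.N - (c.1 + 1)) c.2) := by
  have hZ : Γ.ZM η * Γ.ZR η ≠ 0 := (mul_pos (Γ.ZM_pos η) (Cx.ZR_pos h η)).ne'
  have e : Γ.w c η * (Γ.ZM η * Γ.ZR η) = dp (wt η) Γ.p Cx.l Γ.r c.1 (c.2 - 1) c.2 *
      (Γ.p c.1 * (wt η c.1 (c.2 - 1) * wt η c.1 c.2) * bw (wt η) Γ.p (c.1 + 1) (Γ.N - (c.1 + 1)) c.2 ^ 2) := by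
    unfold Cx.w
    rw [div_mul_cancel₀ _ hZ]
  rw [e]
  have hl : ∀ y, 0 ≤ Cx.l y := Cx.l_nonneg
  have hr : ∀ y, 0 ≤ Γ.r y := Cx.r_nonneg h
  have hw := wt_pos η
  have hp := Γ.p_pos
  set g := bw (wt η) Γ.p (c.1 + 1) (Γ.N - (c.1 + 1)) c.2 with hg
  have g0 : 0 < g := bw_pos hw hp _ _ _
  have l1 := fw_nonneg hw hp hl c.1 (c.2 - 1)
  have l2 := fw_nonneg hw hp hl c.1 c.2
  have r1 := fw_nonneg hw hp hr c.1 (c.2 - 1)
  have r2 := fw_nonneg hw hp hr c.1 c.2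
  have w1 := hw c.1 (c.2 - 1)
  have w2 := hw c.1 c.2
  have p1 := hp c.1
  have a1 : dp (wt η) Γ.p Cx.l Γ.r c.1 (c.2 - 1) c.2 ≤ fw (wt η) Γ.p Cx.l c.1 (c.2 - 1) * fw (wt η) Γ.p Γ.r c.1 c.2 := by
    unfold dp
    have := mul_nonneg l2 r1
    linarith
  have a2 : Γ.p c.1 * (wt η c.1 (c.2 - 1) * fw (wt η) Γ.p Cx.l c.1 (c.2 - 1)) ≤ fw (wt η) Γ.p Cx.l (c.1 + 1) c.2 := by
    rw [fw_succ]
    have := mul_nonneg w2.le l2
    linarith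
  have a3 : wt η c.1 c.2 * fw (wt η) Γ.p Γ.r c.1 c.2 ≤ fw (wt η) Γ.p Γ.r (c.1 + 1) c.2 := by
    rw [fw_succ]
    have : 0 ≤ Γ.p c.1 * (wt η c.1 (c.2 - 1) * fw (wt η) Γ.p Γ.r c.1 (c.2 - 1)) := by positivity
    linarith
  have a4 := mul_le_mul a2 a3 (mul_nonneg w2.le r2) (fw_nonneg hw hp hl _ _)
  have c0 : 0 ≤ Γ.p c.1 * (wt η c.1 (c.2 - 1) * wt η c.1 c.2) * g ^ 2 := by positivity
  calc dp (wt η) Γ.p Cx.l Γ.r c.1 (c.2 - 1) c.2 * (Γ.p c.1 * (wt η c.1 (c.2 - 1) * wt η c.1 c.2) * g ^ 2)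
      ≤ fw (wt η) Γ.p Cx.l c.1 (c.2 - 1) * fw (wt η) Γ.p Γ.r c.1 c.2 *
        (Γ.p c.1 * (wt η c.1 (c.2 - 1) * wt η c.1 c.2) * g ^ 2) := mul_le_mul_of_nonneg_right a1 c0
    _ = (Γ.p c.1 * (wt η c.1 (c.2 - 1) * fw (wt η) Γ.p Cx.l c.1 (c.2 - 1))) *
        (wt η c.1 c.2 * fw (wt η) Γ.p Γ.r c.1 c.2) * g ^ 2 := by ring
    _ ≤ fw (wt η) Γ.p Cx.l (c.1 + 1) c.2 * fw (wt η) Γ.p Γ.r (c.1 + 1) c.2 * g ^ 2 :=
        mul_le_mul_of_nonneg_right a4 (by positivity)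
    _ = _ := by ring

theorem Zt_l53 (h : Γ.Ok) (η : Env) : Zt (wt η) Γ.p Cx.l 0 Γ.hi Γ.N = Γ.ZM η := Cx.ZM_eq h η

theorem Zt_r53 (Γ : Cx) (η : Env) : Zt (wt η) Γ.p Γ.r 0 Γ.hi Γ.N = Γ.ZR η := rfl

/-- A contact of weight `v`: each of the two groups is at its site with probability at least `v`. -/
theorem w_le_P (h : Γ.Ok) {c : ℕ × ℤ} (hc : c ∈ Γ.rows 0 Γ.N) (η : Env) :
    Γ.w c η * Γ.ZM η ≤ fw (wt η) Γ.p Cx.l (c.1 + 1) c.2 * bw (wt η) Γ.p (c.1 + 1) (Γ.N - (c.1 + 1)) c.2 ∧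
      Γ.w c η * Γ.ZR η ≤ fw (wt η) Γ.p Γ.r (c.1 + 1) c.2 * bw (wt η) Γ.p (c.1 + 1) (Γ.N - (c.1 + 1)) c.2 := by
  have hc' := Cx.mem_rows.1 hc
  have h1 := w_le_PP h c η
  have hM := Γ.ZM_pos η
  have hR := Cx.ZR_pos h η
  have hl : Ms Cx.l 0 Γ.hi Γ.N := Ms.left (Cx.box1 h)
  have hr : Ms Γ.r 0 Γ.hi Γ.N := Ms.right (Cx.box1 h)
  have b1 : fw (wt η) Γ.p Cx.l (c.1 + 1) c.2 * bw (wt η) Γ.p (c.1 + 1) (Γ.N - (c.1 + 1)) c.2 ≤ Γ.ZM η := by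
    have := Sp22.Ps_le_Zt (wt_pos η) Γ.p_pos hl (k := c.1 + 1) (by omega) {c.2}
    rw [Zt_l53 h] at this
    unfold Sp22.Ps at this
    rwa [sum_singleton] at this
  have b2 : fw (wt η) Γ.p Γ.r (c.1 + 1) c.2 * bw (wt η) Γ.p (c.1 + 1) (Γ.N - (c.1 + 1)) c.2 ≤ Γ.ZR η := by
    have := Sp22.Ps_le_Zt (wt_pos η) Γ.p_pos hr (k := c.1 + 1) (by omega) {c.2}
    rw [Zt_r53] at this
    unfold Sp22.Ps at this
    rwa [sum_singleton] at this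
  have c1 : 0 ≤ fw (wt η) Γ.p Cx.l (c.1 + 1) c.2 * bw (wt η) Γ.p (c.1 + 1) (Γ.N - (c.1 + 1)) c.2 :=
    mul_nonneg (fw_nonneg (wt_pos η) Γ.p_pos Cx.l_nonneg _ _) (bw_pos (wt_pos η) Γ.p_pos _ _ _).le
  have c2 : 0 ≤ fw (wt η) Γ.p Γ.r (c.1 + 1) c.2 * bw (wt η) Γ.p (c.1 + 1) (Γ.N - (c.1 + 1)) c.2 :=
    mul_nonneg (fw_nonneg (wt_pos η) Γ.p_pos (Cx.r_nonneg h) _ _) (bw_pos (wt_pos η) Γ.p_pos _ _ _).le
  constructor
  · have h2 : Γ.w c η * Γ.ZM η * Γ.ZR η ≤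
        fw (wt η) Γ.p Cx.l (c.1 + 1) c.2 * bw (wt η) Γ.p (c.1 + 1) (Γ.N - (c.1 + 1)) c.2 * Γ.ZR η := by
      calc _ = Γ.w c η * (Γ.ZM η * Γ.ZR η) := by ring
        _ ≤ _ := h1
        _ ≤ _ := mul_le_mul_of_nonneg_left b2 c1
    exact le_of_mul_le_mul_right h2 hR
  · have h2 : Γ.w c η * Γ.ZR η * Γ.ZM η ≤
        fw (wt η) Γ.p Γ.r (c.1 + 1) c.2 * bw (wt η) Γ.p (c.1 + 1) (Γ.N - (c.1 + 1)) c.2 * Γ.ZM η := by
      calc _ = Γ.w c η * (Γ.ZM η * Γ.ZR η) := by ring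
        _ ≤ _ := h1
        _ ≤ Γ.ZM η * (fw (wt η) Γ.p Γ.r (c.1 + 1) c.2 * bw (wt η) Γ.p (c.1 + 1) (Γ.N - (c.1 + 1)) c.2) :=
          mul_le_mul_of_nonneg_right b1 c2
        _ = _ := by ring
    exact le_of_mul_le_mul_right h2 hM

/-- **Entrance from a contact** of weight at least `v`, steepness `st ≤ 1`: `π = (1 - st) v`, both groups. -/
theorem enter_w53 (h : Γ.Ok) {c : ℕ × ℤ} (hc : c ∈ Γ.rows 0 Γ.N) (η : Env) {a j : ℕ} (ha : a = c.1 + 1 + j) (haN : a ≤ Γ.N)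
    {Wi : Finset ℤ} (hWi : Wi ⊆ Icc 0 Γ.hi) {st v : ℝ} (hst1 : st ≤ 1) (hv : v ≤ Γ.w c η)
    (hst : ∑ y ∈ Icc 0 Γ.hi \ Wi, ker (wt η) Γ.p (c.1 + 1) j c.2 y * bw (wt η) Γ.p a (Γ.N - a) y ≤
      st * bw (wt η) Γ.p (c.1 + 1) (Γ.N - (c.1 + 1)) c.2) :
    (1 - st) * v * Zt (wt η) Γ.p Cx.l 0 Γ.hi Γ.N ≤ Ps (wt η) Γ.p Cx.l Γ.N a Wi ∧
      (1 - st) * v * Zt (wt η) Γ.p Γ.r 0 Γ.hi Γ.N ≤ Ps (wt η) Γ.p Γ.r Γ.N a Wi := by
  subst ha
  have hl : Ms Cx.l 0 Γ.hi Γ.N := Ms.left (Cx.box1 h)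
  have hr : Ms Γ.r 0 Γ.hi Γ.N := Ms.right (Cx.box1 h)
  have e1 := enter53 (wt_pos η) Γ.p_pos hl haN hWi hst
  have e2 := enter53 (wt_pos η) Γ.p_pos hr haN hWi hst
  obtain ⟨p1, p2⟩ := w_le_P h hc η
  have hs : 0 ≤ 1 - st := by linarith
  rw [Zt_l53 h, Zt_r53]
  constructor
  · refine le_trans ?_ e1
    rw [mul_assoc]
    exact mul_le_mul_of_nonneg_left ((mul_le_mul_of_nonneg_right hv (Γ.ZM_pos η).le).trans p1) hs
  · refine le_trans ?_ e2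
    rw [mul_assoc]
    exact mul_le_mul_of_nonneg_left ((mul_le_mul_of_nonneg_right hv (Cx.ZR_pos h η).le).trans p2) hs

/-- **LATE CONTACTS, contexts.** -/
theorem late53B (h : Γ.Ok) {a n : ℕ} (haN : a + n ≤ Γ.N) {Wi Ce : Finset ℤ} {D g Y : ℝ}
    (hL : Lk (wt η) (wt η'') (wt η') Γ.p Cx.l 0 Γ.hi Γ.N a n Wi Ce D g Y)
    (hR : Lk (wt η) (wt η'') (wt η') Γ.p Γ.r 0 Γ.hi Γ.N a n Wi Ce D g Y) {π κ δ : ℝ} (hπ : 0 < π)
    (heL : π * Zt (wt η) Γ.p Cx.l 0 Γ.hi Γ.N ≤ Ps (wt η) Γ.p Cx.l Γ.N a Wi)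
    (heR : π * Zt (wt η) Γ.p Γ.r 0 Γ.hi Γ.N ≤ Ps (wt η) Γ.p Γ.r Γ.N a Wi)
    (hκ : Y * D ^ 2 ≤ κ * (g * π)) (hδ : 0 ≤ δ) (hWi : Wi ⊆ Icc 0 Γ.hi) (hCe : Ce ⊆ Icc 0 Γ.hi)
    (hcr : ∀ z ∈ Wi, ∀ z' ∈ Wi, z < z' → ∀ x ∈ Ce, ∀ y ∈ Ce, x < y →
      ker (wt η') Γ.p a n z x * ker (wt η') Γ.p a n z' y - ker (wt η') Γ.p a n z y * ker (wt η') Γ.p a n z' x ≤
        δ * (ker (wt η') Γ.p a n z x * ker (wt η') Γ.p a n z' y))
    {k : ℕ} (hk : a + n ≤ k) : ∑ c ∈ Γ.rows k Γ.N, Γ.w c η' ≤ δ + 4 * κ := by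
  rcases le_total k Γ.N with hkN | hkN
  · have h1 := unmet53B (wt_pos η') Γ.p_pos (Cx.box1 h) haN hL hR hπ heL heR hκ hδ hWi hCe hcr hk hkN
    rw [Zt_l53 h, Zt_r53] at h1
    have hZ : 0 < Γ.ZM η' * Γ.ZR η' := mul_pos (Γ.ZM_pos η') (Cx.ZR_pos h η')
    have h2 : Γ.nmt k η' ≤ δ + 4 * κ := by
      unfold Cx.nmt
      rw [div_le_iff₀ hZ]
      exact h1
    rw [Cx.sum_w h η' hkN le_rfl]
    have := Cx.nmt_nonneg h Γ.N η'
    linarith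
  · have e : Γ.rows k Γ.N = ∅ := by
      unfold Cx.rows
      rw [Ico_eq_empty_of_le hkN, empty_product]
    rw [e, sum_empty]
    have hZl : 0 ≤ Zt (wt η') Γ.p Cx.l 0 Γ.hi Γ.N := by rw [Zt_l53 h]; exact (Γ.ZM_pos η').le
    have hκ0 : 0 ≤ κ := by
      have h3 : 0 ≤ κ * (g * π) := le_trans (mul_nonneg hL.Y0 (sq_nonneg D)) hκ
      exact nonneg_of_mul_nonneg_left h3 (mul_pos hL.g0 hπ)
    linarith

end ctx

end Pool.Agent.W_7d29a1_C1.E53
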