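import Pool.Agent.W_7d29a1_C1.Quen53

/-!
Both halves (MP_7d29a1_pr), attractor route [C1], SEP (move the contact), S9: THE EXCLUSIONS, FINAL FORM. (helper53, after
helper2, helper95, helper78)

The windows `v < u` (`Inw`): off the window the masses `bW` move by `exp (d v)`, nothing else is asked.
The pair `(ω, ω')` (`Luk`, `ω'` = lucky in the slab `u`, rows `[a, b)`): four inequalities at the row `a`.
* `Miss`: from all the sites of the zone, and for both groups, one is in `A` at the row `e` with probability at most `σ`; one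
  window: `σ → (1 + T v) exp (d v) σ` (`Miss.step`, helper78's form);
* `exclE53E`: later contacts against luck; `exclF53E`: the far alternative against luck (forward steepness at `ω` only, in the
  form of the visits of the strip).
-/

set_option autoImplicit false

namespace Pool.Agent.W_7d29a1_C1.SD53

open Finset MeasureTheory
open Pool.Agent.W_7d29a1_F Pool.Agent.W_7d29a1_h4g Pool.Agent.W_7d29a1_H Pool.Agent.W_7d29a1_HS
open Pool.Agent.W_7d29a1_C1.K91 (Grp Box wt wt_pos)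
open Pool.Agent.W_7d29a1_C1.K91P
open Pool.Agent.W_7d29a1_C1.R26P
open Pool.Agent.W_7d29a1_C1.U16 (ker)
open Pool.Agent.W_7d29a1_C1.Sp22 (Ms Ps Zt)
open Pool.Agent.W_7d29a1_C1.H60
open Pool.Agent.W_7d29a1_C1.G37 (Gm)
open Pool.Agent.W_7d29a1_C1.H49 (Par lm ex Hf Hs)
open Pool.Agent.W_7d29a1_C1.E53
open Pool.Agent.W_7d29a1_C1.Lt87 (Reach)
open scoped ENNReal

noncomputable section

variable {Γ : Cx} {ω ω' : Env}

theorem mem_bx {A : Set ℤ} {y : ℤ} (h : y ∈ bx Γ A) : y ∈ A := by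
  classical
  unfold bx at h
  exact (mem_filter.1 h).2

/-! ### Sequences which solve the recursion below the row `a` -/

/-- `F` solves the recursion below the row `a`. -/
def Hr (Γ : Cx) (ω : Env) (a : ℕ) (F : ℕ → ℤ → ℝ) : Prop :=
  ∀ k, k < a → ∀ q, F k q = wt ω k q * (F (k + 1) q + Γ.p k * F (k + 1) (q + 1))

theorem hr_bW {a : ℕ} (ha : a ≤ Γ.N) : Hr Γ ω a (bW Γ ω) := fun _ hk q => bW_step (by omega) q

theorem hr_QA {a e : ℕ} (h : a ≤ e) (A : Set ℤ) : Hr Γ ω a (QA Γ ω e A) := fun _ hk q => QA_step A (by omega) q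

theorem Hr.lin {a : ℕ} {F F' : ℕ → ℤ → ℝ} (h : Hr Γ ω a F) (h' : Hr Γ ω a F') (c c' : ℝ) :
    Hr Γ ω a fun k q => c * F k q + c' * F' k q := by
  intro k hk q
  show c * F k q + c' * F' k q = _
  rw [h k hk q, h' k hk q]
  ring

theorem Hr.smul {a : ℕ} {F : ℕ → ℤ → ℝ} (h : Hr Γ ω a F) (c : ℝ) : Hr Γ ω a fun k q => c * F k q := by
  intro k hk q
  show c * F k q = _
  rw [h k hk q]
  ring

theorem Hr.congr {a : ℕ} {F : ℕ → ℤ → ℝ} (h : Hr Γ ω a F) (e : ∀ k y, k < a → wt ω' k y = wt ω k y) : Hr Γ ω' a F := by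
  intro k hk q
  rw [e k q hk]
  exact h k hk q

theorem Hr.le {a : ℕ} {F F' : ℕ → ℤ → ℝ} (h : Hr Γ ω a F) (h' : Hr Γ ω a F') (h0 : ∀ q, F a q ≤ F' a q) :
    ∀ k, k ≤ a → ∀ q, F k q ≤ F' k q := by
  refine down h0 fun k hk ih q => ?_
  rw [h k hk q, h' k hk q]
  exact mul_le_mul_of_nonneg_left (add_le_add (ih q) (mul_le_mul_of_nonneg_left (ih (q + 1)) (Γ.p_pos k).le))
    (wt_pos ω k q).le

/-! ### The pair `(ω, ω')` -/

/-- **Luck of the pair** `(ω, ω')`, rows `[a, b)`. `Mi ⊆ Mo` mouth, `Ce` exit cell; gain `g` on `Mi`, at most `G` on `Mo`, at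
most `Y` elsewhere and for the routes which miss the exit cell. -/
structure Luk (Γ : Cx) (a b : ℕ) (Mi Mo Ce : Set ℤ) (g G Y : ℝ) (ω ω' : Env) : Prop where
  g0 : 0 < g
  G0 : 0 ≤ G
  Y0 : 0 ≤ Y
  ab : a ≤ b
  hb : b ≤ Γ.N
  eq : ∀ k y, k < a → wt ω' k y = wt ω k y
  up : ∀ z ∈ Mo, bW Γ ω' a z ≤ G * bW Γ ω a z
  off : ∀ z, z ∉ Mo → bW Γ ω' a z ≤ Y * bW Γ ω a z
  gain : ∀ z ∈ Mi, g * bW Γ ω a z ≤ bW Γ ω' a z
  exit : ∀ z, QA Γ ω' b Ceᶜ a z ≤ Y * bW Γ ω a z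

variable {a b : ℕ} {Mi Mo Ce : Set ℤ} {g G Y : ℝ}

theorem Luk.haN (h : Luk Γ a b Mi Mo Ce g G Y ω ω') : a ≤ Γ.N := h.ab.trans h.hb

/-- Gain from below. -/
theorem Luk.gz (h : Luk Γ a b Mi Mo Ce g G Y ω ω') {s₁ : ℝ} {k : ℕ} (hk : k ≤ a) {q : ℤ}
    (hE : QA Γ ω a Miᶜ k q ≤ s₁ * bW Γ ω k q) : (1 - s₁) * g * bW Γ ω k q ≤ bW Γ ω' k q := by
  have h1 : ∀ k, k ≤ a → ∀ q, g * QA Γ ω a Mi k q ≤ bW Γ ω' k q := by
    refine (((hr_QA le_rfl Mi).smul g).congr h.eq).le (hr_bW h.haN) fun q => ?_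
    show g * QA Γ ω a Mi a q ≤ _
    rw [QA_self]
    by_cases hq : q ∈ Mi
    · rw [tf_mem hq]; exact h.gain q hq
    · rw [tf_not hq, mul_zero]; exact (bW_pos _ _ _ _).le
  have h2 := QA_compl (Γ := Γ) (ω := ω) h.haN Mi k hk q
  have h3 : (1 - s₁) * bW Γ ω k q ≤ QA Γ ω a Mi k q := by linarith
  calc (1 - s₁) * g * bW Γ ω k q = g * ((1 - s₁) * bW Γ ω k q) := by ring
    _ ≤ g * QA Γ ω a Mi k q := mul_le_mul_of_nonneg_left h3 h.g0.le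
    _ ≤ _ := h1 k hk q

/-- Upper luck from below. -/
theorem Luk.upp (h : Luk Γ a b Mi Mo Ce g G Y ω ω') {k : ℕ} (hk : k ≤ a) (q : ℤ) :
    bW Γ ω' k q ≤ G * QA Γ ω a Mo k q + Y * bW Γ ω k q := by
  refine (hr_bW h.haN).le (((hr_QA le_rfl Mo).lin (hr_bW h.haN) G Y).congr h.eq) (fun q => ?_) k hk q
  show _ ≤ G * QA Γ ω a Mo a q + Y * bW Γ ω a q
  rw [QA_self]
  by_cases hq : q ∈ Mo
  · rw [tf_mem hq]
    have := h.up q hq
    have := mul_nonneg h.Y0 (bW_pos Γ ω a q).le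
    linarith
  · rw [tf_not hq, mul_zero, zero_add]; exact h.off q hq

/-- To miss the mouth, from below. -/
theorem Luk.missa (h : Luk Γ a b Mi Mo Ce g G Y ω ω') {k : ℕ} (hk : k ≤ a) (q : ℤ) :
    QA Γ ω' a Moᶜ k q ≤ Y * bW Γ ω k q := by
  refine (hr_QA le_rfl Moᶜ).le (((hr_bW h.haN).smul Y).congr h.eq) (fun q => ?_) k hk q
  show _ ≤ Y * bW Γ ω a q
  rw [QA_self]
  by_cases hq : q ∈ Mo
  · rw [tf_not (show ¬ q ∈ Moᶜ from fun h => h hq)]; exact mul_nonneg h.Y0 (bW_pos Γ ω a q).le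
  · rw [tf_mem (show q ∈ Moᶜ from hq)]; exact h.off q hq

/-- To miss the exit cell, from below. -/
theorem Luk.missb (h : Luk Γ a b Mi Mo Ce g G Y ω ω') {k : ℕ} (hk : k ≤ a) (q : ℤ) :
    QA Γ ω' b Ceᶜ k q ≤ Y * bW Γ ω k q :=
  (hr_QA h.ab Ceᶜ).le (((hr_bW h.haN).smul Y).congr h.eq) h.exit k hk q

/-! ### To miss -/

/-- From the sites of the zone, and for both groups, one is in `A` at the row `e` with probability at most `σ`. -/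
structure Miss (Γ : Cx) (e : ℕ) (A : Set ℤ) (Zn : Set (ℕ × ℤ)) (σ : ℝ) (ω : Env) : Prop where
  zn : ∀ k q, k ≤ e → (k, q) ∈ Zn → QA Γ ω e A k q ≤ σ * bW Γ ω k q
  l : PG Γ Cx.l e (bx Γ A) ω ≤ σ * ZG Γ Cx.l ω
  r : PG Γ Γ.r e (bx Γ A) ω ≤ σ * ZG Γ Γ.r ω

theorem Miss.mono (hΓ : Γ.Ok) {e : ℕ} {A : Set ℤ} {Zn : Set (ℕ × ℤ)} {σ σ' : ℝ} (h : Miss Γ e A Zn σ ω) (hσ : σ ≤ σ') :
    Miss Γ e A Zn σ' ω :=
  ⟨fun k q hk hq => (h.zn k q hk hq).trans (mul_le_mul_of_nonneg_right hσ (bW_pos _ _ _ _).le),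
    h.l.trans (mul_le_mul_of_nonneg_right hσ (ZG_l_pos hΓ ω).le), h.r.trans (mul_le_mul_of_nonneg_right hσ (ZG_r_pos hΓ ω).le)⟩

/-- **One window.** -/
theorem Miss.step (hΓ : Γ.Ok) {e : ℕ} (he : e ≤ Γ.N) {A : Set ℤ} {Zn B : Set (ℕ × ℤ)} {lo T : ℕ} {d σ : ℝ} (hσ : 0 ≤ σ)
    {ω₂ : Env} (hrow : ∀ k y, (k, y) ∈ B → lo ≤ k ∧ k < lo + T) (hlo : 1 ≤ lo) (htop : lo + T ≤ e)
    (hzn : ∀ k y, (k, y) ∈ B → (k + 1, y) ∈ Zn ∧ (k + 1, y + 1) ∈ Zn)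
    (heq : ∀ k y, (k, y) ∉ B → wt ω₂ k y = wt ω k y)
    (hdn : ∀ k q, (k, q) ∉ B → bW Γ ω k q ≤ Real.exp d * bW Γ ω₂ k q) (h : Miss Γ e A Zn σ ω) :
    Miss Γ e A Zn ((1 + T) * Real.exp d * σ) ω₂ := by
  have hB : ∀ k y, (k, y) ∈ B → k < e := fun k y hk => by
    have := hrow k y hk
    omega
  have hc : 0 ≤ Real.exp d * σ := mul_nonneg (Real.exp_pos d).le hσ
  have hoff : ∀ k q, k ≤ e → (k, q) ∈ Zn → (k, q) ∉ B → QA Γ ω e A k q ≤ Real.exp d * σ * bW Γ ω₂ k q := by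
    intro k q hk hq hqB
    calc QA Γ ω e A k q ≤ σ * bW Γ ω k q := h.zn k q hk hq
      _ ≤ σ * (Real.exp d * bW Γ ω₂ k q) := mul_le_mul_of_nonneg_left (hdn k q hqB) hσ
      _ = _ := by ring
  have key : ∀ j : ℕ, j ≤ T → ∀ k y, lo + (T - j) ≤ k → (k, y) ∈ B →
      QA Γ ω₂ e A k y ≤ (j : ℝ) * (Real.exp d * σ) * bW Γ ω₂ k y := by
    intro j
    induction j with
    | zero =>
      intro _ k y hk hB'
      have := hrow k y hB'
      omega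
    | succ j ih =>
      intro hj k y hk hB'
      have hj' : j ≤ T := by omega
      set s : ℝ := (j : ℝ) * (Real.exp d * σ) with hs
      have hs0 : 0 ≤ s := mul_nonneg (Nat.cast_nonneg j) hc
      have hke := hB k y hB'
      have kill := QA_kill (ω' := ω) (ω₂ := ω₂) he hs0 hB heq (k₀ := lo + (T - j)) (fun i z hi hz => ih hj' i z hi hz)
      have suc : ∀ q, (k + 1, q) ∈ Zn → QA Γ ω₂ e A (k + 1) q ≤ (s + Real.exp d * σ) * bW Γ ω₂ (k + 1) q := by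
        intro q hq
        have b0 := (bW_pos Γ ω₂ (k + 1) q).le
        by_cases h1 : (k + 1, q) ∈ B
        · have := ih hj' (k + 1) q (by omega) h1
          rw [add_mul]
          have := mul_nonneg hc b0
          linarith
        · have a1 := kill (k + 1) (by omega) (by omega) q
          have a2 := hoff (k + 1) q (by omega) hq h1
          rw [add_mul]
          linarith
      obtain ⟨z1, z2⟩ := hzn k y hB'
      have a1 := suc y z1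
      have a2 := mul_le_mul_of_nonneg_left (suc (y + 1) z2) (Γ.p_pos k).le
      have a3 := mul_le_mul_of_nonneg_left (add_le_add a1 a2) (wt_pos ω₂ k y).le
      rw [QA_step A hke, bW_step (show k < Γ.N by omega)]
      refine a3.trans (le_of_eq ?_)
      rw [hs]
      push_cast
      ring
  have hs0 : 0 ≤ (T : ℝ) * (Real.exp d * σ) := mul_nonneg (Nat.cast_nonneg T) hc
  have hBs : ∀ i z, (i, z) ∈ B → QA Γ ω₂ e A i z ≤ (T : ℝ) * (Real.exp d * σ) * bW Γ ω₂ i z := fun i z hz =>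
    key T le_rfl i z (by have := hrow i z hz; omega) hz
  have e0 : (1 + (T : ℝ)) * Real.exp d * σ = Real.exp d * σ + (T : ℝ) * (Real.exp d * σ) := by ring
  have grp : ∀ {m : ℤ → ℝ}, Ms m 0 Γ.hi Γ.N → PG Γ m e (bx Γ A) ω ≤ σ * ZG Γ m ω →
      PG Γ m e (bx Γ A) ω₂ ≤ (1 + T) * Real.exp d * σ * ZG Γ m ω₂ := by
    intro m hm hg
    have a1 := PG_kill hm he hs0 hB heq hBs
    have a2 : ZG Γ m ω ≤ Real.exp d * ZG Γ m ω₂ := ZG_le_of hm fun q => hdn 0 q fun h0 => by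
      have := hrow 0 q h0
      omega
    rw [e0, add_mul]
    have a3 : σ * ZG Γ m ω ≤ Real.exp d * σ * ZG Γ m ω₂ := by
      calc _ ≤ σ * (Real.exp d * ZG Γ m ω₂) := mul_le_mul_of_nonneg_left a2 hσ
        _ = _ := by ring
    linarith
  refine ⟨fun k q hk hq => ?_, grp (ms_l hΓ) h.l, grp (ms_r hΓ) h.r⟩
  rw [e0, add_mul]
  have b0 := (bW_pos Γ ω₂ k q).le
  by_cases h1 : (k, q) ∈ B
  · have := hBs k q h1
    have := mul_nonneg hc b0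
    linarith
  · have a1 := QA_kill (ω' := ω) (ω₂ := ω₂) he hs0 hB heq (k₀ := 0) (fun i z _ hz => hBs i z hz) k hk (Nat.zero_le k) q
    have a2 := hoff k q hk hq h1
    linarith

/-! ### The inner windows -/

/-- **The inner windows** `v < u`: sites `B v` in the rows `[lo v, lo v + T v)`, with their successors inside of the zone; off the
window the masses move by `exp (d v)`. -/
structure Inw (Γ : Cx) (R : ℕ → Env → Env → Env) (N : ℕ → Set Env) (S : Finset ℕ) (u a : ℕ) (Zn : Set (ℕ × ℤ))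
    (B : ℕ → Set (ℕ × ℤ)) (lo T : ℕ → ℕ) (d dT : ℕ → ℝ) : Prop where
  d0 : ∀ v, 0 ≤ d v
  dT : ∀ v, (1 + T v) * Real.exp (d v) ≤ Real.exp (dT v)
  hlo : ∀ v ∈ S, v < u → 1 ≤ lo v
  rows : ∀ v ∈ S, v < u → ∀ k y, (k, y) ∈ B v → lo v ≤ k ∧ k < lo v + T v
  top : ∀ v ∈ S, v < u → lo v + T v ≤ a
  zn : ∀ v ∈ S, v < u → ∀ k y, (k, y) ∈ B v → (k + 1, y) ∈ Zn ∧ (k + 1, y + 1) ∈ Zn
  eq : ∀ v ∈ S, v < u → ∀ A ∈ N v, ∀ η, R v η A ∈ N v → ∀ k y, (k, y) ∉ B v → wt (R v η A) k y = wt A k y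
  dn : ∀ v ∈ S, v < u → ∀ A ∈ N v, ∀ η, R v η A ∈ N v → ∀ k q, k < lo v + T v → (k, q) ∉ B v →
    bW Γ A k q ≤ Real.exp (d v) * bW Γ (R v η A) k q
  up : ∀ v ∈ S, v < u → ∀ A ∈ N v, ∀ η, R v η A ∈ N v → ∀ k q, k < lo v + T v → (k, q) ∉ B v →
    bW Γ (R v η A) k q ≤ Real.exp (d v) * bW Γ A k q

section inw

variable {R : ℕ → Env → Env → Env} {N : ℕ → Set Env} {S : Finset ℕ} {u : ℕ} {Zn : Set (ℕ × ℤ)} {B : ℕ → Set (ℕ × ℤ)}
  {lo T : ℕ → ℕ} {d dT : ℕ → ℝ}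

theorem Inw.same (I : Inw Γ R N S u a Zn B lo T d dT) {v : ℕ} (hv : v ∈ S) (hvu : v < u) {A η : Env} (hA : A ∈ N v)
    (hη : R v η A ∈ N v) {k : ℕ} (hk : lo v + T v ≤ k) (q : ℤ) : bW Γ (R v η A) k q = bW Γ A k q :=
  bW_congr (fun i hi y => I.eq v hv hvu A hA η hη i y fun h => by
    have := I.rows v hv hvu i y h
    omega) q

theorem Inw.dn' (I : Inw Γ R N S u a Zn B lo T d dT) {v : ℕ} (hv : v ∈ S) (hvu : v < u) {A η : Env} (hA : A ∈ N v)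
    (hη : R v η A ∈ N v) (k : ℕ) (q : ℤ) (hq : (k, q) ∉ B v) : bW Γ A k q ≤ Real.exp (d v) * bW Γ (R v η A) k q := by
  rcases lt_or_ge k (lo v + T v) with h | h
  · exact I.dn v hv hvu A hA η hη k q h hq
  · rw [I.same hv hvu hA hη h q]
    have := Real.one_le_exp (I.d0 v)
    have := bW_pos Γ A k q
    nlinarith

theorem Inw.up' (I : Inw Γ R N S u a Zn B lo T d dT) {v : ℕ} (hv : v ∈ S) (hvu : v < u) {A η : Env} (hA : A ∈ N v)
    (hη : R v η A ∈ N v) (k : ℕ) (q : ℤ) (hq : (k, q) ∉ B v) : bW Γ (R v η A) k q ≤ Real.exp (d v) * bW Γ A k q := by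
  rcases lt_or_ge k (lo v + T v) with h | h
  · exact I.up v hv hvu A hA η hη k q h hq
  · rw [I.same hv hvu hA hη h q]
    have := Real.one_le_exp (I.d0 v)
    have := bW_pos Γ A k q
    nlinarith

/-- The totals. -/
theorem Inw.zt (I : Inw Γ R N S u a Zn B lo T d dT) {m : ℤ → ℝ} (hm : Ms m 0 Γ.hi Γ.N) {ω₁ : Env} (r : Reach R N S u ω ω₁) :
    ZG Γ m ω ≤ Real.exp (pr S d u) * ZG Γ m ω₁ :=
  reach_dn I.d0 (fun ω => ZG_nonneg hm.nn ω) r fun v hv hvu A hA η hη => ZG_le_of hm fun q =>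
    I.dn' hv hvu hA hη 0 q fun h => by
      have := I.rows v hv hvu 0 q h
      have := I.hlo v hv hvu
      omega

/-- The masses from the sites off the windows, upper bound. -/
theorem Inw.bup (I : Inw Γ R N S u a Zn B lo T d dT) {ω₁ : Env} (r : Reach R N S u ω ω₁) {k : ℕ} {q : ℤ}
    (hq : ∀ v ∈ S, v < u → (k, q) ∉ B v) : bW Γ ω₁ k q ≤ Real.exp (pr S d u) * bW Γ ω k q := by
  have := reach_up (st := fun _ => 0) I.d0 (fun _ => le_rfl) (F := fun ω => bW Γ ω k q) (fun ω => (bW_pos _ _ _ _).le) r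
    fun v hv hvu A hA η hη => by
      rw [add_zero]
      exact I.up' hv hvu hA hη k q (hq v hv hvu)
  have e : pr S (fun _ => (0 : ℝ)) u = 0 := by unfold pr; simp
  rwa [e, add_zero] at this

/-- The arriving masses below all the inner windows. -/
theorem Inw.fwe (I : Inw Γ R N S u a Zn B lo T d dT) {ω₁ : Env} (r : Reach R N S u ω ω₁) (m : ℤ → ℝ) {k : ℕ}
    (hk : ∀ v ∈ S, v < u → k ≤ lo v) (y : ℤ) : fw (wt ω₁) Γ.p m k y = fw (wt ω) Γ.p m k y :=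
  reach_inv (F := fun ω => fw (wt ω) Γ.p m k y) r fun v hv hvu A hA η hη =>
    fw_congr k (fun i hi z => I.eq v hv hvu A hA η hη i z fun h => by
      have := I.rows v hv hvu i z h
      have := hk v hv hvu
      omega) y

/-- **To miss, along `Reach`.** -/
theorem Miss.reach (hΓ : Γ.Ok) {e : ℕ} (hae : a ≤ e) (he : e ≤ Γ.N) {A : Set ℤ} {ω₂ : Env} (r : Reach R N S u ω ω₂)
    (I : Inw Γ R N S u a Zn B lo T d dT) {σ : ℝ} (hσ : 0 ≤ σ) (h : Miss Γ e A Zn σ ω) :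
    Miss Γ e A Zn (Real.exp (pr S dT u) * σ) ω₂ := by
  have dT0 : ∀ v, 0 ≤ dT v := fun v => by
    have h1 := I.dT v
    have h2 := Real.one_le_exp (I.d0 v)
    have h3 : (0 : ℝ) ≤ T v := Nat.cast_nonneg _
    by_contra h4
    have h5 : Real.exp (dT v) < 1 := by
      rw [← Real.exp_zero]
      exact Real.exp_lt_exp.2 (not_le.1 h4)
    nlinarith
  induction r generalizing σ with
  | @refl u ω =>
    have h1 : 1 ≤ Real.exp (pr S dT u) := Real.one_le_exp (pr_nonneg dT0 u)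
    exact h.mono hΓ (by nlinarith)
  | @step u v ω ω' η hvu hvS hω hRω _ ih =>
    have htop := I.top v hvS hvu
    have h1 := h.step hΓ he hσ (I.rows v hvS hvu) (I.hlo v hvS hvu) (by omega) (I.zn v hvS hvu)
      (I.eq v hvS hvu ω hω η hRω) (fun k q hq => I.dn' hvS hvu hω hRω k q hq)
    have I' : Inw Γ R N S v a Zn B lo T d dT :=
      ⟨I.d0, I.dT, fun w hw hwv => I.hlo w hw (hwv.trans hvu), fun w hw hwv => I.rows w hw (hwv.trans hvu),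
        fun w hw hwv => I.top w hw (hwv.trans hvu), fun w hw hwv => I.zn w hw (hwv.trans hvu),
        fun w hw hwv => I.eq w hw (hwv.trans hvu), fun w hw hwv => I.dn w hw (hwv.trans hvu),
        fun w hw hwv => I.up w hw (hwv.trans hvu)⟩
    have h2 := ih I' (mul_nonneg (mul_nonneg (by positivity) (Real.exp_pos _).le) hσ) h1
    refine h2.mono hΓ ?_
    have h3 : Real.exp (pr S dT v) * Real.exp (dT v) ≤ Real.exp (pr S dT u) := by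
      rw [← Real.exp_add]
      exact Real.exp_le_exp.2 (pr_step dT0 hvS hvu)
    calc Real.exp (pr S dT v) * ((1 + T v) * Real.exp (d v) * σ)
        = Real.exp (pr S dT v) * ((1 + T v) * Real.exp (d v)) * σ := by ring
      _ ≤ Real.exp (pr S dT v) * Real.exp (dT v) * σ :=
          mul_le_mul_of_nonneg_right (mul_le_mul_of_nonneg_left (I.dT v) (Real.exp_pos _).le) hσ
      _ ≤ _ := mul_le_mul_of_nonneg_right h3 hσ

/-- The contact has a part of the total of `ω`, hence the total of `ω'` is large: one group. -/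
theorem Luk.tot (h : Luk Γ a b Mi Mo Ce g G Y ω ω') (I : Inw Γ R N S u a Zn B lo T d dT) {m : ℤ → ℝ} (hm : Ms m 0 Γ.hi Γ.N)
    {ω₁ : Env} (r₁ : Reach R N S u ω ω₁) {c : ℕ × ℤ} (hca : c.1 + 1 ≤ a) (hcv : ∀ v ∈ S, v < u → c.1 + 1 < lo v) {s₁ v : ℝ}
    (hs₁ : s₁ ≤ 1) (hE : QA Γ ω a Miᶜ (c.1 + 1) c.2 ≤ s₁ * bW Γ ω (c.1 + 1) c.2)
    (hw : v * ZG Γ m ω₁ ≤ fw (wt ω₁) Γ.p m (c.1 + 1) c.2 * bW Γ ω₁ (c.1 + 1) c.2) (hv : 0 ≤ v) :
    (1 - s₁) * g * v * ZG Γ m ω ≤ Real.exp (2 * pr S d u) * ZG Γ m ω' := by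
  have h1 := I.zt hm r₁
  have h2 := I.fwe r₁ m (k := c.1 + 1) (fun w hw hwu => (hcv w hw hwu).le) c.2
  have h3 := I.bup r₁ (k := c.1 + 1) (q := c.2) fun w hw hwu h => by
    have := I.rows w hw hwu _ _ h
    have := hcv w hw hwu
    omega
  have f0 : 0 ≤ fw (wt ω) Γ.p m (c.1 + 1) c.2 := fw_nonneg (wt_pos ω) Γ.p_pos hm.nn _ _
  have h4 := h.gz hca hE
  have e1 : fw (wt ω') Γ.p m (c.1 + 1) c.2 = fw (wt ω) Γ.p m (c.1 + 1) c.2 :=
    fw_congr _ (fun i hi y => h.eq i y (by omega)) _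
  have h5 := site_le hm ω' (k := c.1 + 1) (by have := h.haN; omega) c.2
  rw [e1] at h5
  have hsg : 0 ≤ (1 - s₁) * g := mul_nonneg (by linarith) h.g0.le
  set D := pr S d u with hD
  have e2 : Real.exp (2 * D) = Real.exp D * Real.exp D := by rw [← Real.exp_add]; ring_nf
  calc (1 - s₁) * g * v * ZG Γ m ω ≤ (1 - s₁) * g * v * (Real.exp D * ZG Γ m ω₁) :=
        mul_le_mul_of_nonneg_left h1 (mul_nonneg hsg hv)
    _ = (1 - s₁) * g * Real.exp D * (v * ZG Γ m ω₁) := by ring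
    _ ≤ (1 - s₁) * g * Real.exp D * (fw (wt ω) Γ.p m (c.1 + 1) c.2 * (Real.exp D * bW Γ ω (c.1 + 1) c.2)) := by
        refine mul_le_mul_of_nonneg_left ?_ (mul_nonneg hsg (Real.exp_pos _).le)
        rw [h2] at hw
        exact hw.trans (mul_le_mul_of_nonneg_left h3 f0)
    _ = Real.exp (2 * D) * (fw (wt ω) Γ.p m (c.1 + 1) c.2 * ((1 - s₁) * g * bW Γ ω (c.1 + 1) c.2)) := by rw [e2]; ring
    _ ≤ Real.exp (2 * D) * (fw (wt ω) Γ.p m (c.1 + 1) c.2 * bW Γ ω' (c.1 + 1) c.2) :=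
        mul_le_mul_of_nonneg_left (mul_le_mul_of_nonneg_left h4 f0) (Real.exp_pos _).le
    _ ≤ _ := mul_le_mul_of_nonneg_left h5 (Real.exp_pos _).le

/-- Both groups. -/
theorem Luk.tot2 (hΓ : Γ.Ok) (h : Luk Γ a b Mi Mo Ce g G Y ω ω') (I : Inw Γ R N S u a Zn B lo T d dT)
    {ω₁ : Env} (r₁ : Reach R N S u ω ω₁) (c : XX Γ) (hca : c.1.1 + 1 ≤ a) (hcv : ∀ v ∈ S, v < u → c.1.1 + 1 < lo v) {s₁ v : ℝ}
    (hs₁ : s₁ ≤ 1) (hE : QA Γ ω a Miᶜ (c.1.1 + 1) c.1.2 ≤ s₁ * bW Γ ω (c.1.1 + 1) c.1.2)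
    (hv0 : 0 ≤ v) (hv : v ≤ Γ.w c.1 ω₁) :
    (1 - s₁) * g * v * ZG Γ Cx.l ω ≤ Real.exp (2 * pr S d u) * ZG Γ Cx.l ω' ∧
      (1 - s₁) * g * v * ZG Γ Γ.r ω ≤ Real.exp (2 * pr S d u) * ZG Γ Γ.r ω' := by
  obtain ⟨p1, p2⟩ := w_le_P hΓ c.2 ω₁
  constructor
  · refine h.tot I (ms_l hΓ) r₁ hca hcv hs₁ hE ?_ hv0
    rw [ZG_l hΓ]
    exact (mul_le_mul_of_nonneg_right hv (Γ.ZM_pos ω₁).le).trans p1
  · refine h.tot I (ms_r hΓ) r₁ hca hcv hs₁ hE ?_ hv0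
    rw [ZG_r]
    exact (mul_le_mul_of_nonneg_right hv (Cx.ZR_pos hΓ ω₁).le).trans p2

/-- The probability to miss. -/
def kapE (S : Finset ℕ) (d dT : ℕ → ℝ) (u : ℕ) (g Y v : ℝ) : ℝ :=
  Real.exp (pr S dT u) * (Y * Real.exp (2 * pr S d u) / (g * v))

/-- **`ω'` misses with a small probability**, mouth and exit cell. -/
theorem Luk.miss (hΓ : Γ.Ok) (h : Luk Γ a b Mi Mo Ce g G Y ω ω') (I : Inw Γ R N S u a Zn B lo T d dT)
    {ω₁ : Env} (r₁ : Reach R N S u ω ω₁) (c : XX Γ) (hca : c.1.1 + 1 ≤ a) (hcv : ∀ v ∈ S, v < u → c.1.1 + 1 < lo v)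
    (hcz : (c.1.1 + 1, c.1.2) ∈ Zn) {s₁ v : ℝ} (hs₁ : s₁ < 1)
    (hza : ∀ k q, (k, q) ∈ Zn → k ≤ a) (hE : ∀ k q, (k, q) ∈ Zn → QA Γ ω a Miᶜ k q ≤ s₁ * bW Γ ω k q)
    (hv0 : 0 < v) (hv1 : v ≤ 1) (hv : v ≤ Γ.w c.1 ω₁) :
    Miss Γ a Moᶜ Zn (Y * Real.exp (2 * pr S d u) / ((1 - s₁) * g * v)) ω' ∧
      Miss Γ b Ceᶜ Zn (Y * Real.exp (2 * pr S d u) / ((1 - s₁) * g * v)) ω' := by
  obtain ⟨t1, t2⟩ := h.tot2 hΓ I r₁ c hca hcv hs₁.le (hE _ _ hcz) hv0.le hv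
  set D := pr S d u with hD
  have hD0 : 0 ≤ D := pr_nonneg I.d0 u
  have hg : 0 < (1 - s₁) * g := mul_pos (by linarith) h.g0
  have hgv : 0 < (1 - s₁) * g * v := mul_pos hg hv0
  have e1 : 1 ≤ Real.exp (2 * D) := Real.one_le_exp (by linarith)
  have zone : ∀ {F : ℝ} {k : ℕ} {q : ℤ}, (k, q) ∈ Zn → F ≤ Y * bW Γ ω k q →
      F ≤ Y * Real.exp (2 * D) / ((1 - s₁) * g * v) * bW Γ ω' k q := by
    intro F k q hq hF
    have h1 := h.gz (hza k q hq) (hE k q hq)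
    rw [div_mul_eq_mul_div, le_div_iff₀ hgv]
    have b0 := (bW_pos Γ ω k q).le
    have b1 := (bW_pos Γ ω' k q).le
    calc F * ((1 - s₁) * g * v) ≤ Y * bW Γ ω k q * ((1 - s₁) * g * v) := mul_le_mul_of_nonneg_right hF hgv.le
      _ = Y * v * ((1 - s₁) * g * bW Γ ω k q) := by ring
      _ ≤ Y * v * bW Γ ω' k q := mul_le_mul_of_nonneg_left h1 (mul_nonneg h.Y0 hv0.le)
      _ ≤ Y * Real.exp (2 * D) * bW Γ ω' k q := by
          refine mul_le_mul_of_nonneg_right ?_ b1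
          exact mul_le_mul_of_nonneg_left (hv1.trans e1) h.Y0
  have grp : ∀ {m : ℤ → ℝ} {F : ℝ}, (1 - s₁) * g * v * ZG Γ m ω ≤ Real.exp (2 * D) * ZG Γ m ω' → F ≤ Y * ZG Γ m ω →
      F ≤ Y * Real.exp (2 * D) / ((1 - s₁) * g * v) * ZG Γ m ω' := by
    intro m F ht hF
    rw [div_mul_eq_mul_div, le_div_iff₀ hgv]
    calc F * ((1 - s₁) * g * v) ≤ Y * ZG Γ m ω * ((1 - s₁) * g * v) := mul_le_mul_of_nonneg_right hF hgv.le
      _ = Y * ((1 - s₁) * g * v * ZG Γ m ω) := by ring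
      _ ≤ Y * (Real.exp (2 * D) * ZG Γ m ω') := mul_le_mul_of_nonneg_left ht h.Y0
      _ = _ := by ring
  have haN := h.haN
  exact ⟨⟨fun k q hk hq => zone hq (h.missa hk q), grp t1 (PG_le_of (ms_l hΓ) haN fun q => h.missa (Nat.zero_le _) q),
    grp t2 (PG_le_of (ms_r hΓ) haN fun q => h.missa (Nat.zero_le _) q)⟩,
    ⟨fun k q _ hq => zone hq (h.missb (hza k q hq) q), grp t1 (PG_le_of (ms_l hΓ) h.hb fun q => h.missb (Nat.zero_le _) q),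
      grp t2 (PG_le_of (ms_r hΓ) h.hb fun q => h.missb (Nat.zero_le _) q)⟩⟩

/-- **LATER CONTACTS AGAINST LUCK** (`exclE`). -/
theorem exclE53E (hΓ : Γ.Ok) {p : Par (XX Γ)} (hrow : p.row = row Γ) {K : ℕ → Type*} (cel : ∀ v, XX Γ → K v) {t i s : ℕ}
    {κs : K s} (h : Luk Γ a b Mi Mo Ce g G Y ω ω') (I : Inw Γ R N S u a Zn B lo T d dT) {ω₁ ω₂ : Env}
    (r₁ : Reach R N S u ω ω₁) (r₂ : Reach R N S u ω' ω₂)
    (h₁ : ω₁ ∈ Hs p (w Γ) cel t i s κs) (h₂ : ω₂ ∈ Hs p (w Γ) cel t i s κs)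
    (hc : ∀ ρ : XX Γ, cel s ρ = κs → ρ.1.1 + 1 ≤ a ∧ (ρ.1.1 + 1, ρ.1.2) ∈ Zn ∧ ∀ v ∈ S, v < u → ρ.1.1 + 1 < lo v)
    {s₁ : ℝ} (hs₁ : s₁ < 1) (hbe : 0 ≤ p.be t i) (hza : ∀ k q, (k, q) ∈ Zn → k ≤ a)
    (hE : ∀ k q, (k, q) ∈ Zn → QA Γ ω a Miᶜ k q ≤ s₁ * bW Γ ω k q)
    {D : ℕ} (hD : p.dl i = (D : ℤ)) (hrw : ∀ ρ : XX Γ, cel s ρ = κs → b ≤ ρ.1.1 + D + 1) {δ : ℝ} (hδ : 0 ≤ δ)
    (hcr : ∀ z ∈ Mo, ∀ z' ∈ Mo, z < z' → ∀ x ∈ Ce, ∀ y ∈ Ce, x < y →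
      ker (wt ω') Γ.p a (b - a) z x * ker (wt ω') Γ.p a (b - a) z' y -
        ker (wt ω') Γ.p a (b - a) z y * ker (wt ω') Γ.p a (b - a) z' x ≤
        δ * (ker (wt ω') Γ.p a (b - a) z x * ker (wt ω') Γ.p a (b - a) z' y))
    (num : ENNReal.ofReal (δ + 4 * kapE S d dT u ((1 - s₁) * g) Y (Real.exp (-p.be t i))) < p.κ3) : False := by
  obtain ⟨ρ₁, hc₁, hw₁, -⟩ := h₁
  obtain ⟨ρ₂, hc₂, -, hl₂⟩ := h₂
  have hwx : Real.exp (-p.be t i) ≤ Γ.w ρ₁.1 ω₁ := by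
    have h3 : ENNReal.ofReal (Real.exp (-p.be t i)) ≤ ENNReal.ofReal (Γ.w ρ₁.1 ω₁) := hw₁
    rwa [ENNReal.ofReal_le_ofReal_iff (Cx.w_nonneg hΓ ρ₁.1 ω₁)] at h3
  obtain ⟨c1, c2, c3⟩ := hc ρ₁ hc₁
  have hv1 : Real.exp (-p.be t i) ≤ 1 := Real.exp_le_one_iff.2 (by linarith)
  obtain ⟨m1, m2⟩ := h.miss hΓ I r₁ ρ₁ c1 c3 c2 hs₁ hza hE (Real.exp_pos _) hv1 hwx
  set σ := Y * Real.exp (2 * pr S d u) / ((1 - s₁) * g * Real.exp (-p.be t i)) with hσ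
  have hσ0 : 0 ≤ σ := by
    have := h.Y0
    have := h.g0
    have : 0 < 1 - s₁ := by linarith
    positivity
  have haN := h.haN
  have n1 := m1.reach hΓ le_rfl haN r₂ I hσ0
  have n2 := m2.reach hΓ h.ab h.hb r₂ I hσ0
  have eκ : Real.exp (pr S dT u) * σ = kapE S d dT u ((1 - s₁) * g) Y (Real.exp (-p.be t i)) := rfl
  rw [eκ] at n1 n2
  set κ := kapE S d dT u ((1 - s₁) * g) Y (Real.exp (-p.be t i)) with hκ
  have ml := ms_l hΓ
  have mr := ms_r hΓ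
  have eb : a + (b - a) = b := by have := h.ab; omega
  have eK : ∀ y z, ker (wt ω₂) Γ.p a (b - a) y z = ker (wt ω') Γ.p a (b - a) y z := by
    intro y z
    refine reach_inv (F := fun ω => ker (wt ω) Γ.p a (b - a) y z) r₂ fun v hv hvu A hA η hη => ?_
    refine U16.ker_congr a (b - a) y z fun j hj _ => ⟨?_, rfl⟩
    funext q
    exact I.eq v hv hvu A hA η hη j q fun hB => by
      have := I.rows v hv hvu j q hB
      have := I.top v hv hvu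
      omega
  have cpl : ∀ A : Set ℤ, Icc 0 Γ.hi \ bx Γ A = bx Γ Aᶜ := by
    classical
    intro A
    unfold bx
    ext y
    simp only [mem_sdiff, mem_filter, Set.mem_compl_iff]
    tauto
  have h5 : ∑ c ∈ Γ.rows b Γ.N, Γ.w c ω₂ ≤ δ + 4 * κ := by
    have h1 := unmet53 (wt_pos ω₂) Γ.p_pos (Cx.box1 hΓ) (a := a) (n := b - a) (by rw [eb]; exact h.hb) (bx_sub (Γ := Γ) Mo)
      (bx_sub (Γ := Γ) Ce) (oL := κ) (oR := κ) (cL := κ) (cR := κ) hδ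
      (fun z hz z' hz' hzz x hx y hy hxy => by
        show ker (wt ω₂) Γ.p a (b - a) z x * ker (wt ω₂) Γ.p a (b - a) z' y -
          ker (wt ω₂) Γ.p a (b - a) z y * ker (wt ω₂) Γ.p a (b - a) z' x ≤
          δ * (ker (wt ω₂) Γ.p a (b - a) z x * ker (wt ω₂) Γ.p a (b - a) z' y)
        rw [eK z x, eK z' y, eK z y, eK z' x]
        exact hcr z (mem_bx hz) z' (mem_bx hz') hzz x (mem_bx hx) y (mem_bx hy) hxy)
      (by rw [mA_zt ml (Nat.zero_le _), cpl]; exact n1.l) (by rw [mA_zt mr (Nat.zero_le _), cpl]; exact n1.r)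
      (by rw [mA_zt ml (Nat.zero_le _), cpl, eb]; exact n2.l) (by rw [mA_zt mr (Nat.zero_le _), cpl, eb]; exact n2.r)
    rw [mA_zt ml (Nat.zero_le _), mA_zt mr (Nat.zero_le _), Zt_l53 hΓ, Zt_r53, eb] at h1
    have hZ : 0 < Γ.ZM ω₂ * Γ.ZR ω₂ := mul_pos (Γ.ZM_pos ω₂) (Cx.ZR_pos hΓ ω₂)
    have h3 : Γ.nmt b ω₂ ≤ δ + κ + κ + κ + κ := by
      unfold Cx.nmt
      rw [div_le_iff₀ hZ]
      exact h1
    rw [Cx.sum_w hΓ ω₂ h.hb le_rfl]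
    have := Cx.nmt_nonneg hΓ Γ.N ω₂
    linarith
  have h6 : lm p.row (w Γ) (p.dl i) ρ₂ ω₂ ≤ ENNReal.ofReal (δ + 4 * κ) := by
    rw [hrow, hD]
    exact lm_le hΓ (hrw ρ₂ hc₂) h5
  exact absurd (hl₂.trans h6) (not_le.2 num)

/-- The far mass of the lucky environment. -/
def kapF (S : Finset ℕ) (d : ℕ → ℝ) (u : ℕ) (g G Y s₀ v : ℝ) : ℝ :=
  Real.exp (4 * pr S d u) * (G * s₀ + Y) / (g * v)

/-- **FAR ALTERNATIVE AGAINST LUCK** (`exclF`). Forward steepness at `ω` only. -/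
theorem exclF53E (hΓ : Γ.Ok) {Gm' : Gm} {p : Par (XX Γ)} {t i : ℕ} {x : XX Γ} (ht : t - 1 < t)
    (h : Luk Γ a b Mi Mo Ce g G Y ω ω') (I : Inw Γ R N S u a Zn B lo T d dT) {ω₁ ω₂ : Env}
    (r₁ : Reach R N S u ω ω₁) (r₂ : Reach R N S u ω' ω₂)
    (h₁ : ω₁ ∈ Hf p (w Γ) (fa Γ Gm') t i x) (h₂ : ω₂ ∈ Hf p (w Γ) (fa Γ Gm') t i x)
    (hca : x.1.1 + 1 ≤ a) (hcv : ∀ v ∈ S, v < u → x.1.1 + 1 < lo v) {s₀ s₁ : ℝ} (hs₀ : 0 ≤ s₀) (hs₁ : s₁ < 1)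
    (hE : QA Γ ω a Miᶜ (x.1.1 + 1) x.1.2 ≤ s₁ * bW Γ ω (x.1.1 + 1) x.1.2)
    (hr : ∀ r ∈ Gm'.fr t (t - 1) x.1, r.toNat ≤ a ∧ ∀ v ∈ S, v < u → r.toNat < lo v)
    (hF : ∀ r ∈ Gm'.fr t (t - 1) x.1, ∀ y ∈ Gm'.fs i (t - 1) x.1 r,
      QA Γ ω a Mo r.toNat y ≤ s₀ * bW Γ ω r.toNat y)
    (num : 8 * kapF S d u ((1 - s₁) * g) G Y s₀ (Real.exp (-p.be t i)) < Real.exp (-(p.th t i + p.sl (t - 1)))) :
    False := by
  have hwx : Real.exp (-p.be t i) ≤ Γ.w x.1 ω₁ := by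
    have h3 : ENNReal.ofReal (Real.exp (-p.be t i)) ≤ ENNReal.ofReal (Γ.w x.1 ω₁) := h₁.2
    rwa [ENNReal.ofReal_le_ofReal_iff (Cx.w_nonneg hΓ x.1 ω₁)] at h3
  obtain ⟨t1, t2⟩ := h.tot2 hΓ I r₁ x hca hcv hs₁.le hE (Real.exp_pos _).le hwx
  set v := Real.exp (-p.be t i) with hvdef
  have hv0 : 0 < v := Real.exp_pos _
  set D := pr S d u with hD
  have hgv : 0 < (1 - s₁) * g * v := mul_pos (mul_pos (by linarith) h.g0) hv0
  have hc0 : 0 ≤ G * s₀ + Y := add_nonneg (mul_nonneg h.G0 hs₀) h.Y0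
  have e4 : Real.exp (4 * D) = Real.exp D * (Real.exp (2 * D) * Real.exp D) := by
    rw [← Real.exp_add, ← Real.exp_add]; ring_nf
  have hκ0 : 0 ≤ kapF S d u ((1 - s₁) * g) G Y s₀ v := by
    unfold kapF
    exact div_nonneg (mul_nonneg (Real.exp_pos _).le hc0) hgv.le
  have haN := h.haN
  have key : ∀ r ∈ Gm'.fr t (t - 1) x.1, ∀ {m : ℤ → ℝ}, Ms m 0 Γ.hi Γ.N →
      (1 - s₁) * g * v * ZG Γ m ω ≤ Real.exp (2 * D) * ZG Γ m ω' →
      PG Γ m r.toNat (bx Γ (Gm'.fs i (t - 1) x.1 r)) ω₂ ≤ kapF S d u ((1 - s₁) * g) G Y s₀ v * ZG Γ m ω₂ := by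
    intro r hr' m hm htt
    obtain ⟨ra, rv⟩ := hr r hr'
    have b1 : PG Γ m r.toNat (bx Γ (Gm'.fs i (t - 1) x.1 r)) ω₂ ≤
        Real.exp D * (G * s₀ + Y) * PG Γ m r.toNat (bx Γ (Gm'.fs i (t - 1) x.1 r)) ω := by
      unfold PG Sp22.Ps
      rw [mul_sum]
      refine sum_le_sum fun y hy => ?_
      have hy' : y ∈ Gm'.fs i (t - 1) x.1 r := mem_bx hy
      have e1 : fw (wt ω₂) Γ.p m r.toNat y = fw (wt ω') Γ.p m r.toNat y :=
        I.fwe r₂ m (fun w hw hwu => (rv w hw hwu).le) y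
      have e2 : fw (wt ω') Γ.p m r.toNat y = fw (wt ω) Γ.p m r.toNat y :=
        fw_congr _ (fun i hi y => h.eq i y (by omega)) _
      rw [e1, e2]
      have f0 : 0 ≤ fw (wt ω) Γ.p m r.toNat y := fw_nonneg (wt_pos ω) Γ.p_pos hm.nn _ _
      have a1 := I.bup r₂ (k := r.toNat) (q := y) fun w hw hwu hB => by
        have := I.rows w hw hwu _ _ hB
        have := rv w hw hwu
        omega
      have a2 := h.upp ra y
      have a3 := mul_le_mul_of_nonneg_left (hF r hr' y hy') h.G0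
      have a4 : bW Γ ω' r.toNat y ≤ (G * s₀ + Y) * bW Γ ω r.toNat y := by
        rw [add_mul, mul_assoc]; linarith
      have a5 : bW Γ ω₂ r.toNat y ≤ Real.exp D * (G * s₀ + Y) * bW Γ ω r.toNat y := by
        calc _ ≤ Real.exp D * bW Γ ω' r.toNat y := a1
          _ ≤ Real.exp D * ((G * s₀ + Y) * bW Γ ω r.toNat y) := mul_le_mul_of_nonneg_left a4 (Real.exp_pos _).le
          _ = _ := by ring
      calc fw (wt ω) Γ.p m r.toNat y * bW Γ ω₂ r.toNat y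
          ≤ fw (wt ω) Γ.p m r.toNat y * (Real.exp D * (G * s₀ + Y) * bW Γ ω r.toNat y) :=
            mul_le_mul_of_nonneg_left a5 f0
        _ = Real.exp D * (G * s₀ + Y) * (fw (wt ω) Γ.p m r.toNat y * bW Γ ω r.toNat y) := by ring
    have b2 : PG Γ m r.toNat (bx Γ (Gm'.fs i (t - 1) x.1 r)) ω ≤ ZG Γ m ω :=
      Sp22.Ps_le_Zt (wt_pos ω) Γ.p_pos hm (by omega) _
    have b3 := I.zt hm r₂
    unfold kapF
    rw [← hD, div_mul_eq_mul_div, le_div_iff₀ hgv]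
    have z0 := ZG_nonneg (Γ := Γ) hm.nn ω₂
    calc PG Γ m r.toNat (bx Γ (Gm'.fs i (t - 1) x.1 r)) ω₂ * ((1 - s₁) * g * v)
        ≤ Real.exp D * (G * s₀ + Y) * ZG Γ m ω * ((1 - s₁) * g * v) := by
          refine mul_le_mul_of_nonneg_right (b1.trans ?_) hgv.le
          exact mul_le_mul_of_nonneg_left b2 (mul_nonneg (Real.exp_pos _).le hc0)
      _ = Real.exp D * (G * s₀ + Y) * ((1 - s₁) * g * v * ZG Γ m ω) := by ring
      _ ≤ Real.exp D * (G * s₀ + Y) * (Real.exp (2 * D) * (Real.exp D * ZG Γ m ω₂)) := by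
          refine mul_le_mul_of_nonneg_left (htt.trans ?_) (mul_nonneg (Real.exp_pos _).le hc0)
          exact mul_le_mul_of_nonneg_left b3 (Real.exp_pos _).le
      _ = Real.exp (4 * D) * (G * s₀ + Y) * ZG Γ m ω₂ := by rw [e4]; ring
  have h5 : fa Γ Gm' t i (t - 1) x ω₂ ≤ ENNReal.ofReal (8 * kapF S d u ((1 - s₁) * g) G Y s₀ v) :=
    fa_le hΓ ht hκ0 fun r hr' _ => ⟨key r hr' (ms_l hΓ) t1, key r hr' (ms_r hΓ) t2⟩
  have h6 : ENNReal.ofReal (Real.exp (-(p.th t i + p.sl (t - 1)))) ≤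
      ENNReal.ofReal (8 * kapF S d u ((1 - s₁) * g) G Y s₀ v) := le_trans h₂.1 h5
  rw [ENNReal.ofReal_le_ofReal_iff (by linarith)] at h6
  linarith

end inw

end

end Pool.Agent.W_7d29a1_C1.SD53
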