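import Pool.Agent.W_7d29a1_C1.MeetG35

/-!
[C1] MEET_d for two polymers of the length `T₁ + T₂` which have no common site in the rows `0, ..., T₁` (helper35). `sup_luck`: the lucks
of all starts of a window of the width `K wd n` at a row, constants only. `meet_long`: every pair of starts (stationarity).
-/

set_option autoImplicit false

namespace Pool.Agent.W_7d29a1_C1.MeetL35

open MeasureTheory ProbabilityTheory Filter Topology Finset
open Pool.Agent.W_7d29a1_F Pool.Agent.W_7d29a1_h4g Pool.Agent.W_7d29a1_H Pool.Agent.W_7d29a1_HS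
open Pool.Agent.W_7d29a1_L (Mh T kap Bx mem_Bx Mh_nonneg le_Mh Sub_Mh)
open Pool.Agent.W_7d29a1_X (pos pth GS pth_nonneg Mt Mt_one pos_nonneg pos_le sum_pth)
open Pool.Agent.W_7d29a1_C1.Arr89 (ps NI Zt Gg Zt_eq)
open Pool.Agent.W_7d29a1_C1.Exit35
open Pool.Agent.W_7d29a1_C1.Meet35
open Pool.Agent.W_7d29a1_C1.MeetG35

noncomputable section

variable {μ : Measure ℝ} {s : ℝ}

/-! ### The lucks of a window -/

section

variable [IsProbabilityMeasure μ] {c C : ℝ} {n₀ : ℕ}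

theorem sup_luck (h : In μ s c C n₀) {n : ℕ} (hn : n₀ ≤ n) (hn1 : 1 ≤ n) (K l : ℕ) (hl : l ≤ 4 * n) (t : ℤ) (a u : ℝ) :
    (law μ).real {η | ∃ x : ℤ, a ≤ x ∧ (x : ℝ) ≤ a + K * wd μ s n ∧ u * (C * EE μ s n) < V μ s η (t, x) l} ≤
      (K + 1) * (C * Real.exp (-u)) := by
  have hC0 : 0 < C := lt_of_lt_of_le one_pos h.C1
  have hE := EE_pos (μ := μ) (s := s) n
  have hCE : 0 < C * EE μ s n := by positivity
  have hwd := h.wd_pos hn1
  -- the row `0`
  have hms : MeasurableSet {η : Env | ∃ x : ℤ, a ≤ x ∧ (x : ℝ) ≤ a + K * wd μ s n ∧ u * (C * EE μ s n) < V μ s η (0, x) l} := by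
    have h1 : {η : Env | ∃ x : ℤ, a ≤ x ∧ (x : ℝ) ≤ a + K * wd μ s n ∧ u * (C * EE μ s n) < V μ s η (0, x) l} =
        ⋃ x : ℤ, {η | a ≤ x ∧ (x : ℝ) ≤ a + K * wd μ s n ∧ u * (C * EE μ s n) < V μ s η (0, x) l} := by
      ext η
      rw [Set.mem_iUnion]
      rfl
    rw [h1]
    refine MeasurableSet.iUnion fun x => ?_
    by_cases h2 : a ≤ x ∧ (x : ℝ) ≤ a + K * wd μ s n
    · have h3 : {η : Env | a ≤ x ∧ (x : ℝ) ≤ a + K * wd μ s n ∧ u * (C * EE μ s n) < V μ s η (0, x) l} =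
          {η | u * (C * EE μ s n) < V μ s η (0, x) l} := by
        ext η
        rw [Set.mem_ofPred_eq, Set.mem_ofPred_eq]
        tauto
      rw [h3]
      exact measurableSet_lt measurable_const (measurable_V (0, x) l)
    · have h3 : {η : Env | a ≤ x ∧ (x : ℝ) ≤ a + K * wd μ s n ∧ u * (C * EE μ s n) < V μ s η (0, x) l} = ∅ := by
        ext η
        rw [Set.mem_ofPred_eq, Set.mem_empty_iff_false]
        tauto
      rw [h3]
      exact MeasurableSet.empty
  have h1 := real_sh (μ := μ) ((t, 0) : Pt) hms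
  have h2 : {η : Env | ∃ x : ℤ, a ≤ x ∧ (x : ℝ) ≤ a + K * wd μ s n ∧ u * (C * EE μ s n) < V μ s η (t, x) l} =
      {η | sh (t, 0) η ∈ {η : Env | ∃ x : ℤ, a ≤ x ∧ (x : ℝ) ≤ a + K * wd μ s n ∧ u * (C * EE μ s n) < V μ s η (0, x) l}} := by
    ext η
    rw [Set.mem_ofPred_eq, Set.mem_ofPred_eq, Set.mem_ofPred_eq]
    refine exists_congr fun x => ?_
    rw [V_sh]
    have e1 : (((0 : ℤ), x) : Pt) + (t, 0) = (t, x) := by
      refine Prod.ext ?_ ?_
      · show (0 : ℤ) + t = t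
        ring
      · show x + 0 = x
        ring
    rw [e1]
  rw [h2, h1]
  -- the boxes
  obtain ⟨M, hM⟩ : ∃ M : ℝ → Env → ℝ, M = fun z η => Mh μ s (sl μ s) 0 (wd μ s n) z (4 * n) η := ⟨_, rfl⟩
  have hMS : ∀ z, Sub (M z) := fun z => by rw [hM]; exact Sub_Mh
  have hMl : ∀ z, ∫ η, Real.exp (M z η / (C * EE μ s n)) ∂(law μ) ≤ C := by
    intro z
    have := h.luck n hn 0 z (by
      rw [abs_zero, zero_mul]
      have := h.c0
      positivity)
    rw [hM]
    exact this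
  have hexpS : ∀ z, Sub fun η => M z η / (C * EE μ s n) := by
    intro z
    have := (hMS z).const_mul (1 / (C * EE μ s n))
    refine (congrArg Pool.Agent.W_7d29a1_F.Sub (funext fun η => ?_)).mp this
    ring
  have hbox : ∀ (z : ℝ) (η : Env) (x : ℤ), z < (x : ℝ) → (x : ℝ) ≤ z + wd μ s n → V μ s η (0, x) l ≤ M z η := by
    intro z η x h1 h2
    have hq : (((0 : ℕ), x), l) ∈ Bx (sl μ s) (wd μ s n) z (4 * n) := by
      rw [mem_Bx h.sl_pos.le h.sl_lt.le]
      refine ⟨?_, ?_, ?_⟩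
      · show 0 + l ≤ 4 * n
        omega
      · show z < (x : ℝ) - sl μ s * ((0 : ℕ) : ℝ)
        push_cast
        linarith
      · show (x : ℝ) - sl μ s * ((0 : ℕ) : ℝ) ≤ z + wd μ s n
        push_cast
        linarith
    have h3 := le_Mh (μ := μ) (s := s) (v := sl μ s) (h := 0) η hq
    have h4 : T μ s (sl μ s) 0 η (((0 : ℕ) : ℤ), x) l = V μ s η (0, x) l := by
      unfold T kap
      simp only [add_zero, sub_self, zero_mul, mul_zero]
      rfl
    rw [← h4, hM]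
    exact h3
  have hone : ∀ z, (law μ).real {η | u * (C * EE μ s n) ≤ M z η} ≤ C * Real.exp (-u) := by
    intro z
    have h3 := mul_meas_ge_le_integral_of_nonneg (μ := law μ) (f := fun η => Real.exp (M z η / (C * EE μ s n)))
      (ae_of_all _ fun η => (Real.exp_pos _).le) ((hexpS z).exp_int h.em) (Real.exp u)
    have h4 : {η : Env | u * (C * EE μ s n) ≤ M z η} ⊆ {η | Real.exp u ≤ Real.exp (M z η / (C * EE μ s n))} := by
      intro η hη
      rw [Set.mem_ofPred_eq] at hη ⊢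
      refine Real.exp_le_exp.2 ?_
      rw [le_div_iff₀ hCE]
      exact hη
    have h5 := measureReal_mono (μ := law μ) h4 (measure_ne_top _ _)
    have h6 : Real.exp u * (law μ).real {η | u * (C * EE μ s n) ≤ M z η} ≤ C :=
      (mul_le_mul_of_nonneg_left h5 (Real.exp_pos _).le).trans (h3.trans (hMl z))
    have h7 : Real.exp u * Real.exp (-u) = 1 := by rw [← Real.exp_add, add_neg_cancel, Real.exp_zero]
    have h8 : Real.exp u * (law μ).real {η | u * (C * EE μ s n) ≤ M z η} ≤ Real.exp u * (C * Real.exp (-u)) := by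
      have : Real.exp u * (C * Real.exp (-u)) = C * (Real.exp u * Real.exp (-u)) := by ring
      rw [this, h7, mul_one]
      exact h6
    exact le_of_mul_le_mul_left h8 (Real.exp_pos u)
  have hsub : {η : Env | ∃ x : ℤ, a ≤ x ∧ (x : ℝ) ≤ a + K * wd μ s n ∧ u * (C * EE μ s n) < V μ s η (0, x) l} ⊆
      ⋃ i ∈ range (K + 1), {η | u * (C * EE μ s n) ≤ M (a - wd μ s n / 2 + i * wd μ s n) η} := by
    rintro η ⟨x, hx1, hx2, hx3⟩
    obtain ⟨y, hy⟩ : ∃ y : ℝ, y = (x - (a - wd μ s n / 2)) / wd μ s n := ⟨_, rfl⟩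
    have hy1 : 0 < y := by
      rw [hy]
      exact div_pos (by linarith) hwd
    have hy2 : y ≤ K + 1 := by
      rw [hy, div_le_iff₀ hwd]
      have : ((K : ℝ) + 1) * wd μ s n = K * wd μ s n + wd μ s n := by ring
      linarith
    have hc1 : 1 ≤ ⌈y⌉₊ := Nat.one_le_iff_ne_zero.2 (Nat.ceil_pos.2 hy1).ne'
    have hc2 : ⌈y⌉₊ ≤ K + 1 := by
      rw [Nat.ceil_le]
      push_cast
      exact hy2
    rw [Set.mem_iUnion₂]
    refine ⟨⌈y⌉₊ - 1, mem_range.2 (by omega), ?_⟩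
    rw [Set.mem_ofPred_eq]
    refine hx3.le.trans (hbox _ η x ?_ ?_)
    · have h3 : ((⌈y⌉₊ - 1 : ℕ) : ℝ) < y := by
        have h4 := Nat.ceil_lt_add_one hy1.le
        have h5 : ((⌈y⌉₊ - 1 : ℕ) : ℝ) = ⌈y⌉₊ - 1 := by
          rw [Nat.cast_sub hc1, Nat.cast_one]
        rw [h5]
        linarith
      rw [hy, lt_div_iff₀ hwd] at h3
      rw [← hy] at h3
      linarith
    · have h3 : y ≤ ((⌈y⌉₊ - 1 : ℕ) : ℝ) + 1 := by
        have h4 := Nat.le_ceil y
        have h5 : ((⌈y⌉₊ - 1 : ℕ) : ℝ) = ⌈y⌉₊ - 1 := by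
          rw [Nat.cast_sub hc1, Nat.cast_one]
        rw [h5]
        linarith
      rw [hy, div_le_iff₀ hwd] at h3
      rw [← hy] at h3
      have : (((⌈y⌉₊ - 1 : ℕ) : ℝ) + 1) * wd μ s n = ((⌈y⌉₊ - 1 : ℕ) : ℝ) * wd μ s n + wd μ s n := by ring
      linarith
  refine (measureReal_mono hsub (measure_ne_top _ _)).trans ?_
  refine (measureReal_biUnion_finset_le _ _).trans ?_
  refine (sum_le_sum fun i _ => hone _).trans ?_
  rw [sum_const, card_range, nsmul_eq_mul]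
  push_cast
  exact le_rfl

end

end

end Pool.Agent.W_7d29a1_C1.MeetL35
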