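import Pool.Agent.W_7d29a1_C1.MeetP35
import Pool.Agent.W_7d29a1_C1.MeetL35
import Pool.Agent.W_7d29a1_C1.EpK35

/-!
[C1] MEET_d, PARALLEL PAIRS (helper35): THE EXIT OF A BRIDGE. Bridge from the origin to `(T₁ + T₂, y)`, `|y - sl (T₁ + T₂)| ≤ K wd T₁`,
`T₂ ≤ B T₁`: the mean quenched probability to leave the strip of half width `R wd T₁` in the rows `0, ..., T₁` is at most `e` for
`R ≥ R₁ (e, K, B)`. Also the negative parts of the logarithms of the masses of several bridges.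
-/

set_option autoImplicit false

namespace Pool.Agent.W_7d29a1_C1.MeetP35

open MeasureTheory ProbabilityTheory Filter Topology Finset
open Pool.Agent.W_7d29a1_F Pool.Agent.W_7d29a1_h4g Pool.Agent.W_7d29a1_H Pool.Agent.W_7d29a1_HS
open Pool.Agent.W_7d29a1_X (pos pth GS pth_nonneg Mt Mt_one pos_nonneg pos_le sum_pth pos_inter)
open Pool.Agent.W_7d29a1_C1.Arr89
open Pool.Agent.W_7d29a1_C1.Exit35
open Pool.Agent.W_7d29a1_C1.Meet35
open Pool.Agent.W_7d29a1_C1.MeetG35
open Pool.Agent.W_7d29a1_C1.MeetL35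
open Pool.Agent.W_7d29a1_C1.EpK35

noncomputable section

variable {μ : Measure ℝ} {s : ℝ}

theorem gB_le (η : Env) (T₁ T₂ : ℕ) (y z : ℤ) : gB μ s η T₁ T₂ y z ≤ Real.exp (V μ s η ((T₁ : ℤ), z) T₂) := by
  unfold gB
  by_cases h : 0 ≤ y - z ∧ y - z ≤ (T₂ : ℤ)
  · rw [exp_V]
    exact Finset.single_le_sum (f := fun y => W μ s η ((T₁ : ℤ), z) T₂ y) (fun y _ => W_nonneg η _ _ y) (Finset.mem_Icc.2 h)
  · rw [W_eq_zero η _ h]
    exact (Real.exp_pos _).le

open Classical in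
/-- The mass of the paths of length `T₁ + T₂` which leave the strip in the first `T₁` rows. -/
theorem mass_out (ρ : ℝ) (η : Env) (T₁ T₂ : ℕ) :
    (∑ S ∈ (range T₁).powerset, if ¬ Stay (St μ s ρ 0) T₁ S then
      pth μ s η T₁ S * Real.exp (V μ s η ((T₁ : ℤ), pos S T₁) T₂) else 0) ≤
      Real.exp (V μ s η 0 (T₁ + T₂)) - cf μ s ρ η 0 (T₁ + T₂) := by
  have h1 := sum_pth (μ := μ) (s := s) η T₁ T₂ (fun S => if ¬ Stay (St μ s ρ 0) T₁ S then (1 : ℝ) else 0)
  have h2 : ∑ x ∈ Icc (0 : ℤ) T₁, Mt μ s η T₁ (fun S => if ¬ Stay (St μ s ρ 0) T₁ S then (1 : ℝ) else 0) x *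
      Real.exp (V μ s η ((T₁ : ℤ), x) T₂) = ∑ S ∈ (range T₁).powerset, if ¬ Stay (St μ s ρ 0) T₁ S then
      pth μ s η T₁ S * Real.exp (V μ s η ((T₁ : ℤ), pos S T₁) T₂) else 0 := by
    unfold Mt
    simp only [sum_mul]
    rw [sum_comm]
    refine sum_congr rfl fun S _ => ?_
    have h3 : pos S T₁ ∈ Icc (0 : ℤ) T₁ := mem_Icc.2 ⟨pos_nonneg _ _, pos_le _ _⟩
    rw [sum_eq_single_of_mem _ h3 fun b _ hb => by rw [if_neg fun h => hb h.symm, zero_mul], if_pos rfl]
    by_cases h4 : ¬ Stay (St μ s ρ 0) T₁ S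
    · rw [if_pos h4, if_pos h4, mul_one]
    · rw [if_neg h4, if_neg h4, mul_zero, zero_mul]
  rw [← h2, ← h1, cf_path, ← sum_pth_all, ← sum_sub_distrib]
  refine sum_le_sum fun S _ => ?_
  have hp := pth_nonneg (μ := μ) (s := s) η (T₁ + T₂) S
  by_cases h4 : Stay (St μ s ρ 0) (T₁ + T₂) S
  · have h5 : Stay (St μ s ρ 0) T₁ (S ∩ range T₁) := by
      intro k hk
      rw [pos_inter S (by omega)]
      exact h4 k (by omega)
    rw [if_neg (not_not.2 h5), if_pos h4, mul_zero, sub_self]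
  · rw [if_neg h4, sub_zero]
    by_cases h5 : ¬ Stay (St μ s ρ 0) T₁ (S ∩ range T₁)
    · rw [if_pos h5, mul_one]
    · rw [if_neg h5, mul_zero]
      exact hp

/-- The exit of the bridge from the origin. -/
theorem exG_le (ρ : ℝ) (η : Env) (T₁ T₂ : ℕ) (y : ℤ) :
    exG μ s ρ η (gB μ s η T₁ T₂ y) T₁ 0 * W μ s η 0 (T₁ + T₂) y ≤
      Real.exp (V μ s η 0 (T₁ + T₂)) - cf μ s ρ η 0 (T₁ + T₂) := by
  classical
  refine le_trans ?_ (mass_out ρ η T₁ T₂)
  have e1 : Zt μ s η (gB μ s η T₁ T₂ y) T₁ 0 0 = W μ s η 0 (T₁ + T₂) y := by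
    rw [Zt_gB η T₁ T₂ y T₁ 0 (by omega), sub_zero]
    rfl
  have hs0 : sh (0, (0 : ℤ)) η = η := by
    funext p
    show η (p + (0, 0)) = η p
    congr 1
    exact add_zero p
  unfold exG
  rw [sum_mul]
  refine sum_le_sum fun S _ => ?_
  by_cases h4 : ¬ Stay (St μ s ρ 0) T₁ S
  · rw [if_pos h4, if_pos h4]
    unfold Gg
    rw [e1, hs0, zero_add]
    have hp := pth_nonneg (μ := μ) (s := s) η T₁ S
    have hg := gB_le (μ := μ) (s := s) η T₁ T₂ y (pos S T₁)
    have hg0 := gB_nonneg (μ := μ) (s := s) η T₁ T₂ y (pos S T₁)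
    have hW := W_nonneg (μ := μ) (s := s) η 0 (T₁ + T₂) y
    rcases hW.eq_or_lt with hW0 | hW0
    · rw [← hW0, mul_zero]
      positivity
    · rw [div_mul_cancel₀ _ hW0.ne']
      exact mul_le_mul_of_nonneg_left hg hp
  · rw [if_neg h4, if_neg h4, zero_mul]

theorem measurable_gB (T₁ T₂ : ℕ) (y z : ℤ) : Measurable fun η : Env => gB μ s η T₁ T₂ y z := measurable_W _ _ _

variable [IsProbabilityMeasure μ] {c C : ℝ} {n₀ : ℕ}

/-- **THE EXIT OF A BRIDGE.** -/
theorem exit_br (h : In μ s c C n₀) {K B e : ℝ} (hK : 0 ≤ K) (hB : 0 ≤ B) (he : 0 < e) : ∃ R₁ : ℝ, 1 ≤ R₁ ∧ ∃ n₁ : ℕ,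
    ∀ R : ℝ, R₁ ≤ R → ∀ T₁ T₂ : ℕ, n₁ ≤ T₁ → (T₂ : ℝ) ≤ B * T₁ → ∀ y : ℤ, |(y : ℝ) - sl μ s * ((T₁ + T₂ : ℕ) : ℝ)| ≤ K * wd μ s T₁ →
    ∫ η, exG μ s (R * wd μ s T₁) η (gB μ s η T₁ T₂ y) T₁ 0 ∂(law μ) ≤ e := by
  have hc0 := h.c0
  have hC0 : 0 < C := lt_of_lt_of_le one_pos h.C1
  obtain ⟨D, hD, n1, hep⟩ := ep_K h (show 0 ≤ 2 * K by positivity)
  obtain ⟨R0, hR01, hR0c, n2, hn2, hex⟩ := exit_main h
  -- the constants
  obtain ⟨u, hu⟩ : ∃ u : ℝ, 0 < u ∧ C * Real.exp (-u) ≤ e / 8 := by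
    have h1 : Tendsto (fun x : ℝ => C * Real.exp (-x)) atTop (𝓝 0) := by
      have := Real.tendsto_exp_neg_atTop_nhds_zero.const_mul C
      rw [mul_zero] at this
      exact this
    obtain ⟨u, h2, h3⟩ := ((h1.eventually_le_const (show (0 : ℝ) < e / 8 by positivity)).and (eventually_gt_atTop 0)).exists
    exact ⟨u, h3, h2⟩
  obtain ⟨hu0, hu1⟩ := hu
  obtain ⟨u', hu'⟩ : ∃ u' : ℝ, u' = 8 * D / e := ⟨_, rfl⟩
  have hu'0 : 0 < u' := by rw [hu']; positivity
  obtain ⟨L, hL0, hL⟩ : ∃ L : ℝ, 0 < L ∧ Real.exp (-L) ≤ e / 8 := by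
    obtain ⟨L, h2, h3⟩ := ((Real.tendsto_exp_neg_atTop_nhds_zero.eventually_le_const (show (0 : ℝ) < e / 8 by positivity)).and
      (eventually_gt_atTop 0)).exists
    exact ⟨L, h3, h2⟩
  have t2 : Tendsto (fun R : ℝ => 4 * (C * Real.exp (-(c * R / (16 * C))))) atTop (𝓝 0) := by
    have h2 : Tendsto (fun R : ℝ => c * R / (16 * C)) atTop atTop := by
      have h3 : (fun R : ℝ => c * R / (16 * C)) = fun R : ℝ => (c / (16 * C)) * R := by
        funext R
        ring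
      rw [h3]
      exact tendsto_id.const_mul_atTop (by positivity)
    have h4 := (Real.tendsto_exp_neg_atTop_nhds_zero.comp h2).const_mul (4 * C)
    rw [mul_zero] at h4
    refine h4.congr fun R => ?_
    show 4 * C * Real.exp (-(c * R / (16 * C))) = _
    ring
  obtain ⟨r2, h2⟩ := eventually_atTop.1 (t2.eventually_le_const (show (0 : ℝ) < e / 8 by positivity))
  obtain ⟨R', hR'⟩ : ∃ R' : ℝ, R' = max (max R0 r2) (max (64 / c * (u * C + u' + L)) (128 / (c * e))) := ⟨_, rfl⟩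
  have hR'1 : R0 ≤ R' := by rw [hR']; exact (le_max_left _ _).trans (le_max_left _ _)
  have hR'2 : r2 ≤ R' := by rw [hR']; exact (le_max_right _ _).trans (le_max_left _ _)
  have hR'3 : 64 / c * (u * C + u' + L) ≤ R' := by rw [hR']; exact (le_max_left _ _).trans (le_max_right _ _)
  have hR'4 : 128 / (c * e) ≤ R' := by rw [hR']; exact (le_max_right _ _).trans (le_max_right _ _)
  have hR'0 : 1 ≤ R' := hR01.trans hR'1
  refine ⟨2 * (B + 1) * R', by nlinarith, max (max n1 n2) (max n₀ 1), fun R hR T₁ T₂ hT hT2 y hy => ?_⟩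
  have hTn1 : n1 ≤ T₁ := (le_max_left _ _).trans ((le_max_left _ _).trans hT)
  have hTn2 : n2 ≤ T₁ := (le_max_right _ _).trans ((le_max_left _ _).trans hT)
  have hTn0 : n₀ ≤ T₁ := (le_max_left _ _).trans ((le_max_right _ _).trans hT)
  have hT1 : 1 ≤ T₁ := (le_max_right _ _).trans ((le_max_right _ _).trans hT)
  obtain ⟨T, hTd⟩ : ∃ T : ℕ, T = T₁ + T₂ := ⟨_, rfl⟩
  have hTT : T₁ ≤ T := by omega
  have hTT1 : 1 ≤ T := by omega
  have hT1R : (0 : ℝ) < T₁ := by exact_mod_cast hT1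
  have hw1 := h.wd_pos hT1
  have hwT := h.wd_pos hTT1
  have hE := EE_pos (μ := μ) (s := s) T
  have hE1 := one_le_EE (μ := μ) (s := s) T
  -- the widths
  have hwT2 : wd μ s T ≤ 2 * (B + 1) * wd μ s T₁ := by
    have h3 := wd_lower_one h hT1 hTT
    have h4 : (T : ℝ) ≤ (B + 1) * T₁ := by
      rw [hTd]
      push_cast
      linarith
    have h5 : (T₁ : ℝ) * wd μ s T ≤ T₁ * (2 * (B + 1) * wd μ s T₁) := by
      calc (T₁ : ℝ) * wd μ s T ≤ 2 * (T * wd μ s T₁) := h3
        _ ≤ 2 * ((B + 1) * T₁ * wd μ s T₁) := by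
            have := mul_le_mul_of_nonneg_right h4 hw1.le
            linarith
        _ = T₁ * (2 * (B + 1) * wd μ s T₁) := by ring
    exact le_of_mul_le_mul_left h5 hT1R
  obtain ⟨R'', hR''⟩ : ∃ R'' : ℝ, R'' = R * wd μ s T₁ / wd μ s T := ⟨_, rfl⟩
  have hRw : R'' * wd μ s T = R * wd μ s T₁ := by
    rw [hR'']
    field_simp
  have hR''1 : R' ≤ R'' := by
    rw [hR'', le_div_iff₀ hwT]
    calc R' * wd μ s T ≤ R' * (2 * (B + 1) * wd μ s T₁) := mul_le_mul_of_nonneg_left hwT2 (by linarith)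
      _ = 2 * (B + 1) * R' * wd μ s T₁ := by ring
      _ ≤ R * wd μ s T₁ := mul_le_mul_of_nonneg_right hR hw1.le
  have hR''0 : 0 < R'' := by linarith
  -- the mass of the bridge
  have hy2 : |(y : ℝ) - sl μ s * T| ≤ 2 * K * wd μ s T := by
    have h3 := wd_le_two h hT1 hTT
    have h4 := mul_le_mul_of_nonneg_left h3 hK
    rw [hTd] at h4 ⊢
    linarith
  obtain ⟨hy0, hyT, hepy⟩ := hep T (hTn1.trans hTT) y hy2
  -- the bad events
  obtain ⟨B1, hB1⟩ : ∃ B1 : Set Env, B1 = {η | Real.exp (-(c / 64 * R'' * EE μ s T)) * Real.exp (V μ s η 0 T) ≤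
        Real.exp (V μ s η 0 T) - cf μ s (R'' * wd μ s T) η 0 T} := ⟨_, rfl⟩
  obtain ⟨B2, hB2⟩ : ∃ B2 : Set Env, B2 = {η | u * (C * EE μ s T) < V μ s η 0 T} := ⟨_, rfl⟩
  obtain ⟨B3, hB3⟩ : ∃ B3 : Set Env, B3 = {η | u' * EE μ s T ≤ max (X μ s η 0 T y) 0} := ⟨_, rfl⟩
  have hmV : Measurable fun η : Env => V μ s η 0 T := measurable_V 0 T
  have hmX : Measurable fun η : Env => X μ s η 0 T y := X_meas s 0 T y
  have mB1 : MeasurableSet B1 := by
    rw [hB1]
    exact measurableSet_le ((Real.measurable_exp.comp hmV).const_mul _)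
      ((Real.measurable_exp.comp hmV).sub (measurable_cf35 _ _))
  have mB2 : MeasurableSet B2 := by
    rw [hB2]
    exact measurableSet_lt measurable_const hmV
  have mB3 : MeasurableSet B3 := by
    rw [hB3]
    exact measurableSet_le measurable_const (hmX.max measurable_const)
  have p1 : (law μ).real B1 ≤ e / 4 := by
    have h3 := hex T (hTn2.trans hTT) R'' (hR'1.trans hR''1)
    rw [← hB1] at h3
    have h4 := h2 R'' (hR'2.trans hR''1)
    have h5 := neg35 (μ := μ) (s := s) h.em T ({0} : Finset ℕ) (fun _ => (0 : Pt)) (u := c * R'' / 16) (by positivity)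
    have h6 : (law μ).real {η | V μ s η 0 T ≤ -(c * R'' / 16 * EE μ s T)} ≤
        (law μ).real {η | c * R'' / 16 * EE μ s T ≤ ∑ i ∈ ({0} : Finset ℕ), max (-V μ s η 0 T) 0} := by
      refine measureReal_mono (fun η hη => ?_) (measure_ne_top _ _)
      rw [Set.mem_ofPred_eq] at hη ⊢
      rw [sum_singleton]
      refine le_trans ?_ (le_max_left _ _)
      linarith
    have h7 : ((({0} : Finset ℕ).card : ℕ) : ℝ) / (c * R'' / 16) ≤ e / 8 := by
      rw [card_singleton, Nat.cast_one, div_le_iff₀ (by positivity)]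
      have h8 : 128 / (c * e) ≤ R'' := hR'4.trans hR''1
      rw [div_le_iff₀ (by positivity)] at h8
      have h9 : e / 8 * (c * R'' / 16) = R'' * (c * e) / 128 := by ring
      rw [h9]
      linarith
    linarith
  have p2 : (law μ).real B2 ≤ e / 8 := by
    have h3 := sup_luck h (hTn0.trans hTT) hTT1 0 T (by omega) 0 0 u
    have h4 : (law μ).real B2 ≤ (law μ).real {η | ∃ x : ℤ, (0 : ℝ) ≤ x ∧ (x : ℝ) ≤ 0 + ((0 : ℕ) : ℝ) * wd μ s T ∧
        u * (C * EE μ s T) < V μ s η (0, x) T} := by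
      refine measureReal_mono (fun η hη => ?_) (measure_ne_top _ _)
      rw [hB2, Set.mem_ofPred_eq] at hη
      rw [Set.mem_ofPred_eq]
      refine ⟨0, by simp, by simp, ?_⟩
      exact hη
    push_cast at h3
    push_cast at h4
    linarith
  have p3 : (law μ).real B3 ≤ e / 8 := by
    have h3 := mul_meas_ge_le_integral_of_nonneg (μ := law μ) (f := fun η : Env => max (X μ s η 0 T y) 0)
      (ae_of_all _ fun η => le_max_right _ _) (Xp_int h.em s 0 hy0 hyT) (u' * EE μ s T)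
    have h4 : u' * EE μ s T * (law μ).real B3 ≤ D * EE μ s T := by
      rw [hB3]
      exact h3.trans hepy
    have h5 : u' * EE μ s T * (law μ).real B3 ≤ u' * EE μ s T * (e / 8) := by
      refine h4.trans (le_of_eq ?_)
      rw [hu']
      field_simp
    exact le_of_mul_le_mul_left h5 (by positivity)
  -- pointwise
  have hg0 : ∀ η : Env, ∀ z, 0 ≤ gB μ s η T₁ T₂ y z := fun η z => gB_nonneg η T₁ T₂ y z
  have hpt : ∀ η : Env, exG μ s (R * wd μ s T₁) η (gB μ s η T₁ T₂ y) T₁ 0 ≤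
      e / 8 + (B1.indicator (fun _ => (1 : ℝ)) η + (B2.indicator (fun _ => (1 : ℝ)) η + B3.indicator (fun _ => (1 : ℝ)) η)) := by
    intro η
    have i1 : 0 ≤ B1.indicator (fun _ => (1 : ℝ)) η := Set.indicator_nonneg (fun _ _ => zero_le_one) η
    have i2 : 0 ≤ B2.indicator (fun _ => (1 : ℝ)) η := Set.indicator_nonneg (fun _ _ => zero_le_one) η
    have i3 : 0 ≤ B3.indicator (fun _ => (1 : ℝ)) η := Set.indicator_nonneg (fun _ _ => zero_le_one) η
    have i4 := exG_le_one (μ := μ) (s := s) (η := η) (hg0 η) (R * wd μ s T₁) T₁ 0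
    by_cases q1 : η ∈ B1
    · rw [Set.indicator_of_mem q1]
      linarith
    by_cases q2 : η ∈ B2
    · rw [Set.indicator_of_mem q2]
      linarith
    by_cases q3 : η ∈ B3
    · rw [Set.indicator_of_mem q3]
      linarith
    rw [Set.indicator_of_notMem q1, Set.indicator_of_notMem q2, Set.indicator_of_notMem q3, add_zero, add_zero, add_zero]
    rw [hB1, Set.mem_ofPred_eq, not_le, hRw] at q1
    rw [hB2, Set.mem_ofPred_eq, not_lt] at q2
    rw [hB3, Set.mem_ofPred_eq, not_le] at q3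
    have h3 := exG_le (μ := μ) (s := s) (R * wd μ s T₁) η T₁ T₂ y
    rw [← hTd] at h3
    have hWp : 0 < W μ s η 0 T y := W_pos η 0 hy0 hyT
    have h4 : Real.exp (-(u' * EE μ s T)) ≤ W μ s η 0 T y := by
      rw [← Real.le_log_iff_exp_le hWp]
      have h5 : X μ s η 0 T y < u' * EE μ s T := lt_of_le_of_lt (le_max_left _ _) q3
      unfold X at h5
      linarith
    have h5 : exG μ s (R * wd μ s T₁) η (gB μ s η T₁ T₂ y) T₁ 0 * Real.exp (-(u' * EE μ s T)) ≤
        Real.exp (-(c / 64 * R'' * EE μ s T)) * Real.exp (V μ s η 0 T) :=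
      (mul_le_mul_of_nonneg_left h4 (exG_nonneg (hg0 η) _ _ _)).trans (h3.trans q1.le)
    have h6 : Real.exp (-(c / 64 * R'' * EE μ s T)) * Real.exp (V μ s η 0 T) ≤
        Real.exp (-L) * Real.exp (-(u' * EE μ s T)) := by
      rw [← Real.exp_add, ← Real.exp_add]
      refine Real.exp_le_exp.2 ?_
      have h7 : u * C + u' + L ≤ c / 64 * R'' := by
        have h8 : 64 / c * (u * C + u' + L) ≤ R'' := hR'3.trans hR''1
        have h9 := mul_le_mul_of_nonneg_left h8 (show 0 ≤ c / 64 by positivity)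
        have h10 : c / 64 * (64 / c * (u * C + u' + L)) = u * C + u' + L := by field_simp
        rw [h10] at h9
        exact h9
      have h8 := mul_le_mul_of_nonneg_right h7 hE.le
      have h9 : L * 1 ≤ L * EE μ s T := mul_le_mul_of_nonneg_left hE1 hL0.le
      have h10 : (u * C + u' + L) * EE μ s T = u * (C * EE μ s T) + u' * EE μ s T + L * EE μ s T := by ring
      rw [h10] at h8
      linarith
    have h7 := le_of_mul_le_mul_right (h5.trans h6) (Real.exp_pos _)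
    exact h7.trans hL
  have hmex := measurable_exG (μ := μ) (s := s) (g := fun η => gB μ s η T₁ T₂ y) (fun z => measurable_gB T₁ T₂ y z)
    (R * wd μ s T₁) T₁ 0
  have j1 : Integrable (fun η => B1.indicator (fun _ => (1 : ℝ)) η) (law μ) := (integrable_const (1 : ℝ)).indicator mB1
  have j2 : Integrable (fun η => B2.indicator (fun _ => (1 : ℝ)) η) (law μ) := (integrable_const (1 : ℝ)).indicator mB2
  have j3 : Integrable (fun η => B3.indicator (fun _ => (1 : ℝ)) η) (law μ) := (integrable_const (1 : ℝ)).indicator mB3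
  have j23 : Integrable (fun η => B2.indicator (fun _ => (1 : ℝ)) η + B3.indicator (fun _ => (1 : ℝ)) η) (law μ) := j2.add j3
  have j123 : Integrable (fun η => B1.indicator (fun _ => (1 : ℝ)) η + (B2.indicator (fun _ => (1 : ℝ)) η +
      B3.indicator (fun _ => (1 : ℝ)) η)) (law μ) := j1.add j23
  have j : Integrable (fun η => e / 8 + (B1.indicator (fun _ => (1 : ℝ)) η + (B2.indicator (fun _ => (1 : ℝ)) η +
      B3.indicator (fun _ => (1 : ℝ)) η))) (law μ) := (integrable_const (e / 8)).add j123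
  have h3 := integral_mono (int_01 hmex (fun η => exG_nonneg (hg0 η) _ _ _) (fun η => exG_le_one (hg0 η) _ _ _)) j hpt
  rw [integral_add (integrable_const _) j123, integral_add j1 j23, integral_add j2 j3, integral_indicator_const _ mB1,
    integral_indicator_const _ mB2, integral_indicator_const _ mB3] at h3
  simp only [smul_eq_mul, mul_one, integral_const, probReal_univ, one_mul] at h3
  linarith

end

end Pool.Agent.W_7d29a1_C1.MeetP35
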