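import Pool.Agent.W_7d29a1_C1.GeoW10
import Pool.Agent.W_7d29a1_C1.TileC98

/-!
MP_7d29a1_pr, attractor route, the shell (helper10): the rows of the fresh ball (helper47 85518). `i` = the level of the box, `i + m₂` = the
level of the ball, `T = Tg i`, `To = Tg (i + m₂)`, `z`, `zo` = the rows of the two base points, `c0 = z - T + 1`, `k` = the length of the
pieces of the first buffer, `c0' = c0 + R₁ k`.
-/

set_option autoImplicit false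

namespace Pool.Agent.W_7d29a1_C1.T10

open MeasureTheory Filter Topology
open Pool.Agent.W_7d29a1_F Pool.Agent.W_7d29a1_h4g Pool.Agent.W_7d29a1_H Pool.Agent.W_7d29a1_HS
open Pool.Agent.W_7d29a1_C1.S71

noncomputable section

/-! ### Divisibility -/

theorem Tg_dvd {Q h₀ : ℕ} (hQ : Q ∣ h₀) (K v : ℕ) : Q ∣ Tg h₀ K v := by
  unfold Tg
  split_ifs
  · exact dvd_zero _
  · exact (hQ.mul_left 2).mul_right _

theorem Hg_dvdQ {Q h₀ : ℕ} (hQ : Q ∣ h₀) (K v : ℕ) : Q ∣ Hg h₀ K v := hQ.mul_right _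

variable {μ : Measure ℝ} {s : ℝ} {R C₀ : ℝ} {B h₀ K L : ℕ} {G : Gd}

theorem GW.z_dvd (g : GW μ s R B C₀ h₀ K L G) {Q : ℕ} (hQ : Q ∣ h₀) (v : ℕ) (c : ℕ × ℤ) : Q ∣ (G.z v c).1 := by
  show Q ∣ G.H v * (c.1 / G.H v)
  rw [g.H]
  exact (Hg_dvdQ hQ K v).mul_right _

/-! ### (a) the two slabs between the box and the edges of the ball -/

theorem GW.To_ge (g : GW μ s R B C₀ h₀ K L G) (hK : 8 ≤ K) {i m₂ : ℕ} (hi : 1 ≤ i) (hm : 1 ≤ m₂) :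
    8 * Tg h₀ K i ≤ Tg h₀ K (i + m₂) := by
  rw [Tg_lt hi, mul_comm]
  refine Nat.mul_le_mul_left _ (hK.trans ?_)
  calc K = K ^ 1 := (pow_one K).symm
    _ ≤ K ^ m₂ := Nat.pow_le_pow_right g.K1 hm

/-- **(a)** The lower slab: rows `zo - To` to `z - T`. -/
theorem GW.low (g : GW μ s R B C₀ h₀ K L G) (hK : 8 ≤ K) {i m₂ : ℕ} (hi : 1 ≤ i) (hm : 1 ≤ m₂) (hL : i + m₂ ≤ L) {c : ℕ × ℤ}
    (hz : Tg h₀ K (i + m₂) ≤ (G.z (i + m₂) c).1) :
    Tg h₀ K i ≤ (G.z i c).1 ∧ (G.z (i + m₂) c).1 - Tg h₀ K (i + m₂) ≤ (G.z i c).1 - Tg h₀ K i ∧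
      Tg h₀ K (i + m₂) ≤ 2 * (((G.z i c).1 - Tg h₀ K i) - ((G.z (i + m₂) c).1 - Tg h₀ K (i + m₂))) ∧
      ((G.z i c).1 - Tg h₀ K i) - ((G.z (i + m₂) c).1 - Tg h₀ K (i + m₂)) ≤ 2 * Tg h₀ K (i + m₂) := by
  have h1 := g.To_ge hK hi hm
  obtain ⟨h2, h3, h4⟩ := g.row_in (Nat.le_add_right i m₂) hL c
  have h5 := g.TH hi
  have h6 := g.TH (show 1 ≤ i + m₂ by omega)
  omega

/-- **(a)** The upper slab: rows `z + T` to `zo + To`. -/
theorem GW.upp (g : GW μ s R B C₀ h₀ K L G) (hK : 8 ≤ K) {i m₂ : ℕ} (hi : 1 ≤ i) (hm : 1 ≤ m₂) (hL : i + m₂ ≤ L) (c : ℕ × ℤ) :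
    (G.z i c).1 + Tg h₀ K i ≤ (G.z (i + m₂) c).1 + Tg h₀ K (i + m₂) ∧
      Tg h₀ K (i + m₂) ≤ 4 * (((G.z (i + m₂) c).1 + Tg h₀ K (i + m₂)) - ((G.z i c).1 + Tg h₀ K i)) ∧
      ((G.z (i + m₂) c).1 + Tg h₀ K (i + m₂)) - ((G.z i c).1 + Tg h₀ K i) ≤ 2 * Tg h₀ K (i + m₂) := by
  have h1 := g.To_ge hK hi hm
  obtain ⟨h2, h3, h4⟩ := g.row_in (Nat.le_add_right i m₂) hL c
  have h5 := g.TH hi
  have h6 := g.TH (show 1 ≤ i + m₂ by omega)
  omega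

/-- **(a)** The heights are multiples of every divisor of `h₀`. -/
theorem GW.low_dvd (g : GW μ s R B C₀ h₀ K L G) {Q : ℕ} (hQ : Q ∣ h₀) (i j : ℕ) (c : ℕ × ℤ) :
    Q ∣ ((G.z i c).1 - Tg h₀ K i) - ((G.z j c).1 - Tg h₀ K j) ∧ Q ∣ ((G.z j c).1 + Tg h₀ K j) - ((G.z i c).1 + Tg h₀ K i) := by
  have a1 := g.z_dvd hQ i c
  have a2 := g.z_dvd hQ j c
  have a3 := Tg_dvd hQ K i
  have a4 := Tg_dvd hQ K j
  exact ⟨Nat.dvd_sub (Nat.dvd_sub a1 a3) (Nat.dvd_sub a2 a4), Nat.dvd_sub (dvd_add a2 a4) (dvd_add a1 a3)⟩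

/-! ### (b) the first buffer -/

/-- The length of the pieces of the first buffer (`R₁` pieces). -/
def kF (th : ℝ) (R₁ T : ℕ) : ℕ := ⌊(1 - th / 4) * T / R₁⌋₊

/-- The rows: `c0 = z - T + 1`, `c0' = c0 + R₁ k`. -/
def cF (th : ℝ) (R₁ z T : ℕ) : ℕ := z - T + 1 + R₁ * kF th R₁ T

/-- **(b)** -/
theorem rowsF {th : ℝ} (h0 : 0 < th) (h1 : th ≤ 1 / 4) {R₁ : ℕ} (hR : 1 ≤ R₁) (nk : ℕ) : ∃ n₁ : ℕ, 1 ≤ n₁ ∧ ∀ T z : ℕ, n₁ ≤ T → T ≤ z →
    cF th R₁ z T ≤ z ∧ th * T / 4 - 1 ≤ ((z - cF th R₁ z T : ℕ) : ℝ) ∧ ((z - cF th R₁ z T : ℕ) : ℝ) ≤ th * T / 4 + R₁ ∧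
      th * T / 4 + R₁ ≤ th * ((z + T / 2 - cF th R₁ z T : ℕ) : ℝ) ∧ nk ≤ kF th R₁ T ∧
      ∀ RB T' : ℕ, (RB : ℝ) ≤ th / 8 * R₁ → (T' : ℝ) ≤ th * T / 16 → cF th R₁ z T + RB * kF th R₁ T ≤ z - T' := by
  have hR0 : (1 : ℝ) ≤ R₁ := by exact_mod_cast hR
  have hR00 : (0 : ℝ) < R₁ := by linarith
  obtain ⟨n₁, hn₁⟩ := exists_nat_gt (max (16 * (R₁ + 1) / th + 16 / th) (4 * R₁ * (nk + 2)))
  have hn0 : (0 : ℝ) < n₁ := by
    have : (0 : ℝ) ≤ 16 * (R₁ + 1) / th + 16 / th := by positivity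
    exact lt_of_le_of_lt (this.trans (le_max_left _ _)) hn₁
  refine ⟨n₁, by exact_mod_cast hn0, fun T z hT hTz => ?_⟩
  have hT0 : (n₁ : ℝ) ≤ T := by exact_mod_cast hT
  have hTa : 16 * (R₁ + 1) / th + 16 / th < T := lt_of_le_of_lt (le_max_left _ _) (hn₁.trans_le hT0)
  have hTb : 4 * R₁ * ((nk : ℝ) + 2) < T := lt_of_le_of_lt (le_max_right _ _) (hn₁.trans_le hT0)
  have hthT : 16 * (R₁ + 1) + 16 < th * T := by
    have e : th * (16 * (R₁ + 1) / th + 16 / th) = 16 * (R₁ + 1) + 16 := by field_simp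
    have := mul_lt_mul_of_pos_left hTa h0
    linarith
  have hTpos : (0 : ℝ) ≤ T := by positivity
  obtain ⟨k, hk⟩ : ∃ k, k = kF th R₁ T := ⟨_, rfl⟩
  rw [← hk]
  have hx0 : 0 ≤ (1 - th / 4) * T / R₁ := by
    have : 0 ≤ 1 - th / 4 := by linarith
    positivity
  have k1 : (k : ℝ) ≤ (1 - th / 4) * T / R₁ := by
    rw [hk]
    exact Nat.floor_le hx0
  have k2 : (1 - th / 4) * T / R₁ < k + 1 := by
    rw [hk]
    exact Nat.lt_floor_add_one _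
  have k1' : (R₁ : ℝ) * k ≤ (1 - th / 4) * T := by
    rw [le_div_iff₀ hR00] at k1
    linarith
  have k2' : (1 - th / 4) * T < R₁ * k + R₁ := by
    rw [div_lt_iff₀ hR00] at k2
    linarith
  have e1 : (1 - th / 4) * T = T - th * T / 4 := by ring
  rw [e1] at k1' k2'
  -- in `ℕ`
  have hle : 1 + R₁ * k ≤ T := by
    have : (1 : ℝ) + R₁ * k ≤ T := by linarith
    exact_mod_cast this
  have hc : cF th R₁ z T ≤ z := by
    unfold cF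
    rw [← hk]
    omega
  have hz1 : z - cF th R₁ z T = T - (1 + R₁ * k) := by
    unfold cF
    rw [← hk]
    omega
  have hz2 : z + T / 2 - cF th R₁ z T = T / 2 + (T - (1 + R₁ * k)) := by
    unfold cF
    rw [← hk]
    omega
  have hcast : ((T - (1 + R₁ * k) : ℕ) : ℝ) = T - (1 + R₁ * k) := by
    rw [Nat.cast_sub hle]
    push_cast
    ring
  refine ⟨hc, ?_, ?_, ?_, ?_, ?_⟩
  · rw [hz1, hcast]
    linarith
  · rw [hz1, hcast]
    linarith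
  · rw [hz2, Nat.cast_add, hcast]
    have h2 : (T : ℝ) / 2 - 1 / 2 ≤ ((T / 2 : ℕ) : ℝ) := by
      have h3 : T ≤ 2 * (T / 2) + 1 := by omega
      have h4 : (T : ℝ) ≤ 2 * ((T / 2 : ℕ) : ℝ) + 1 := by exact_mod_cast h3
      linarith
    have h5 : (T : ℝ) / 2 - 1 / 2 ≤ ((T / 2 : ℕ) : ℝ) + (T - (1 + R₁ * k)) := by linarith
    have h6 := mul_le_mul_of_nonneg_left h5 h0.le
    have h7 : th * ((T : ℝ) / 2 - 1 / 2) = th * T / 2 - th / 2 := by ring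
    linarith
  · have h2 : (nk : ℝ) ≤ k := by
      have h3 : R₁ * ((nk : ℝ) + 1) ≤ R₁ * (k + 1) := by
        have h4 : th * T ≤ 1 / 4 * T := mul_le_mul_of_nonneg_right h1 hTpos
        have h5 : 0 ≤ (R₁ : ℝ) * (nk + 2) := by positivity
        nlinarith
      have h6 := le_of_mul_le_mul_left h3 hR00
      linarith
    exact_mod_cast h2
  · intro RB T' hRB hT'
    have h2 : (RB : ℝ) * k ≤ th / 8 * (T - th * T / 4) := by
      calc (RB : ℝ) * k ≤ th / 8 * R₁ * k := mul_le_mul_of_nonneg_right hRB (by positivity)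
        _ = th / 8 * (R₁ * k) := by ring
        _ ≤ th / 8 * (T - th * T / 4) := mul_le_mul_of_nonneg_left k1' (by positivity)
    have h3 : th / 8 * (T - th * T / 4) ≤ th * T / 8 := by
      have : 0 ≤ th / 8 * (th * T / 4) := by positivity
      have e : th / 8 * (T - th * T / 4) = th * T / 8 - th / 8 * (th * T / 4) := by ring
      linarith
    have h4 : (1 : ℝ) + R₁ * k + RB * k + T' ≤ T := by linarith
    have h5 : 1 + R₁ * k + RB * k + T' ≤ T := by exact_mod_cast h4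
    unfold cF
    rw [← hk]
    omega

/-! ### (c) the rows of the leaves -/

/-- **(c)** The region `A (i - 1)` of every leaf of the box `i` lies between the second buffer and the exit. -/
theorem GW.leaf (g : GW μ s R B C₀ h₀ K L G) {i : ℕ} (hi : 1 ≤ i) (hL : i ≤ L) {c c' : ℕ × ℤ} (hc : G.z i c' = G.z i c)
    (hT' : 4 * Tg h₀ K (i - 1) ≤ Tg h₀ K i) :
    (G.z i c).1 ≤ (G.z (i - 1) c').1 ∧ (G.z (i - 1) c').1 + Tg h₀ K (i - 1) ≤ (G.z i c).1 + G.H i + Tg h₀ K i / 8 ∧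
      G.H i + Tg h₀ K i / 8 ≤ 5 * Tg h₀ K i / 8 ∧ Tg h₀ K i / 2 = G.H i := by
  obtain ⟨h1, h2, -⟩ := g.row_in (Nat.sub_le i 1) hL c'
  rw [hc] at h1 h2
  have h3 := g.TH hi
  have h4 : Tg h₀ K (i - 1) ≤ 2 * G.H (i - 1) := by
    rcases Nat.eq_zero_or_pos (i - 1) with h | h
    · rw [h, Tg_zero]
      exact Nat.zero_le _
    · rw [g.TH h]
  omega

/-- **(c)** the lower side. -/
theorem GW.leaf_low (g : GW μ s R B C₀ h₀ K L G) {i : ℕ} (hL : i ≤ L) {c c' : ℕ × ℤ} (hc : G.z i c' = G.z i c) {th : ℝ} {R₁ k : ℕ}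
    {RB : ℕ} (h : cF th R₁ (G.z i c).1 (Tg h₀ K i) + RB * k ≤ (G.z i c).1 - Tg h₀ K (i - 1)) :
    cF th R₁ (G.z i c).1 (Tg h₀ K i) + RB * k ≤ (G.z (i - 1) c').1 - Tg h₀ K (i - 1) := by
  obtain ⟨h1, -, -⟩ := g.row_in (Nat.sub_le i 1) hL c'
  rw [hc] at h1
  exact h.trans (Nat.sub_le_sub_right h1 _)

/-- The ratio of two neighbouring radii. -/
theorem GW.Tpred (_ : GW μ s R B C₀ h₀ K L G) {i : ℕ} (hi : 1 ≤ i) : K * Tg h₀ K (i - 1) ≤ Tg h₀ K i := by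
  rcases Nat.eq_zero_or_pos (i - 1) with h | h
  · rw [h, Tg_zero, Nat.mul_zero]
    exact Nat.zero_le _
  · have h1 := Tg_lt (h₀ := h₀) (K := K) h 1
    rw [Nat.sub_add_cancel hi, pow_one] at h1
    rw [h1, mul_comm]

theorem GW.Tpred' (g : GW μ s R B C₀ h₀ K L G) {i : ℕ} (hi : 1 ≤ i) {th : ℝ} (hK : 16 ≤ th * K) :
    ((Tg h₀ K (i - 1) : ℕ) : ℝ) ≤ th * (Tg h₀ K i : ℕ) / 16 := by
  have h1 : (K : ℝ) * (Tg h₀ K (i - 1) : ℕ) ≤ (Tg h₀ K i : ℕ) := by exact_mod_cast g.Tpred hi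
  have h0 : (0 : ℝ) ≤ (Tg h₀ K (i - 1) : ℕ) := by positivity
  have hK0 : (0 : ℝ) < K := by
    have := g.K1
    exact_mod_cast this
  have hth : 0 < th := by
    by_contra hn
    have : th * K ≤ 0 := mul_nonpos_of_nonpos_of_nonneg (not_lt.1 hn) hK0.le
    linarith
  have h2 : 16 * ((Tg h₀ K (i - 1) : ℕ) : ℝ) ≤ th * K * (Tg h₀ K (i - 1) : ℕ) := mul_le_mul_of_nonneg_right hK h0
  have h3 : th * K * ((Tg h₀ K (i - 1) : ℕ) : ℝ) ≤ th * (Tg h₀ K i : ℕ) := by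
    rw [mul_assoc]
    exact mul_le_mul_of_nonneg_left h1 hth.le
  linarith

/-! ### (d) the columns of the box -/

/-- The middle column of the first row of the box. -/
def xm (G : Gd) (i : ℕ) (c : ℕ × ℤ) : ℤ := (G.z i c).2 + (G.V i : ℤ) / 2

/-- **(d)** the sites within `(R + 1) wd T` of the middle line are in the box. -/
theorem GW.mem_col (g : GW μ s R B C₀ h₀ K L G) {i : ℕ} (hi : 1 ≤ i) (hL : i ≤ L) {c : ℕ × ℤ} {k : ℕ} {q : ℤ} (h1 : (G.z i c).1 ≤ k)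
    (h2 : k < (G.z i c).1 + G.H i)
    (h3 : |(q : ℝ) - xm G i c - sl μ s * ((k : ℝ) - (G.z i c).1)| ≤ (R + 1) * wd μ s (Tg h₀ K i)) : G.z i (k, q) = G.z i c := by
  have H0 := g.ok.H0 i hL
  have V0 := g.ok.V0' hL
  obtain ⟨r, hr⟩ := Nat.exists_eq_add_of_le h1
  have hrH : r < G.H i := by omega
  have ez : (G.z i c).1 = G.H i * (c.1 / G.H i) := rfl
  have ez2 : (G.z i c).2 = G.s (G.H i * (c.1 / G.H i)) + G.V i * (G.u c / G.V i) := rfl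
  have hk : k = G.H i * (c.1 / G.H i) + r := by rw [hr, ez]
  have hs : G.s k = G.s (G.H i * (c.1 / G.H i)) + G.s r := by
    rw [hk]
    exact g.ok.hs i hL _ r hrH
  -- the offset inside the box
  obtain ⟨o, ho⟩ : ∃ o : ℤ, o = q - (G.z i c).2 - G.s r := ⟨_, rfl⟩
  have hu : G.u (k, q) = G.V i * (G.u c / G.V i) + o := by
    show q - G.s k = _
    rw [hs, ho, ez2]
    ring
  have herr := g.err i hL r hrH
  have hV' := g.V' i hi hL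
  have hsm := g.small i hi
  have hw := g.w1 hi
  have er : (k : ℝ) - (G.z i c).1 = r := by
    rw [hr]
    push_cast
    ring
  rw [er] at h3
  have hx : ((xm G i c : ℤ) : ℝ) = (G.z i c).2 + (((G.V i : ℤ) / 2 : ℤ) : ℝ) := by
    unfold xm
    push_cast
    ring
  have hV2a : (((G.V i : ℤ) / 2 : ℤ) : ℝ) ≤ (G.V i : ℝ) / 2 := by
    have : 2 * ((G.V i : ℤ) / 2) ≤ (G.V i : ℤ) := by omega
    have h4 : 2 * (((G.V i : ℤ) / 2 : ℤ) : ℝ) ≤ (G.V i : ℝ) := by exact_mod_cast this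
    linarith
  have hV2b : (G.V i : ℝ) / 2 - 1 / 2 ≤ (((G.V i : ℤ) / 2 : ℤ) : ℝ) := by
    have : (G.V i : ℤ) ≤ 2 * ((G.V i : ℤ) / 2) + 1 := by omega
    have h4 : (G.V i : ℝ) ≤ 2 * (((G.V i : ℤ) / 2 : ℤ) : ℝ) + 1 := by exact_mod_cast this
    linarith
  have ho' : (o : ℝ) = ((q : ℝ) - xm G i c - sl μ s * r) + (((G.V i : ℤ) / 2 : ℤ) : ℝ) - ((G.s r : ℝ) - sl μ s * r) := by
    rw [ho, hx]
    push_cast
    ring
  rw [abs_le] at h3 herr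
  have e2 : 2 * (R + 2) * wd μ s (Tg h₀ K i) = 2 * ((R + 1) * wd μ s (Tg h₀ K i)) + 2 * wd μ s (Tg h₀ K i) := by ring
  rw [e2] at hV'
  have o1 : 0 ≤ o := by
    have : (-1 : ℝ) < o := by
      rw [ho']
      linarith [h3.1, herr.2]
    have h5 : (-1 : ℤ) < o := by exact_mod_cast this
    omega
  have o2 : o < G.V i := by
    have : (o : ℝ) < (G.V i : ℝ) := by
      rw [ho']
      linarith [h3.2, herr.1]
    exact_mod_cast this
  refine Gd.z_congr ?_ ?_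
  · show k / G.H i = c.1 / G.H i
    rw [hk, Nat.mul_add_div H0, Nat.div_eq_of_lt hrH, Nat.add_zero]
  · rw [hu, Int.mul_add_ediv_left _ _ V0.ne', Int.ediv_eq_zero_of_lt o1 o2, add_zero]

/-- The middle line is in the box. -/
theorem GW.mem_mid (g : GW μ s R B C₀ h₀ K L G) {i : ℕ} (hi : 1 ≤ i) (hL : i ≤ L) (c : ℕ × ℤ) : G.z i ((G.z i c).1, xm G i c) = G.z i c := by
  refine g.mem_col hi hL le_rfl (by have := g.ok.H0 i hL; omega) ?_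
  rw [sub_self, sub_self, mul_zero, sub_zero, abs_zero]
  have h1 := g.w1 hi
  have h2 := g.R1
  positivity

/-- The middle column and the sites of the box, lateral distance. -/
theorem GW.lat_mid (g : GW μ s R B C₀ h₀ K L G) {i : ℕ} (hi : 1 ≤ i) (hL : i ≤ L) (c : ℕ × ℤ) :
    U16.lat16 μ s (G.x i c) (((G.z i c).1 : ℤ), xm G i c) = (((G.V i : ℤ) / 2 : ℤ) : ℝ) ∧
      (((G.V i : ℤ) / 2 : ℤ) : ℝ) + 1 ≤ wd μ s (B * Tg h₀ K i) := by
  constructor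
  · unfold U16.lat16 xm
    show (((G.z i c).2 + (G.V i : ℤ) / 2 - (G.z i c).2 : ℤ) : ℝ) - sl μ s * ((((G.z i c).1 : ℤ) - ((G.z i c).1 : ℤ) : ℤ) : ℝ) = _
    rw [sub_self, add_sub_cancel_left]
    push_cast
    ring
  · have h1 := g.V i hi hL
    have h2 : (((G.V i : ℤ) / 2 : ℤ) : ℝ) ≤ (G.V i : ℝ) := by
      have : (G.V i : ℤ) / 2 ≤ (G.V i : ℤ) := by omega
      exact_mod_cast this
    have h3 : (0 : ℝ) ≤ i := by positivity
    linarith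

/-! ### (e) the sites of a box as a part of the contacts -/

/-- **(e)** the sites near the middle line are in the fibre of the box. -/
theorem GW.mem_fib (g : GW μ s R B C₀ h₀ K L G) {i : ℕ} (hi : 1 ≤ i) (hL : i ≤ L) {c : ℕ × ℤ} {S : Finset (ℕ × ℤ)}
    (hS : ∀ b, G.z i b = G.z i c → b ∈ S) {k : ℕ} {q : ℤ} (h1 : (G.z i c).1 ≤ k) (h2 : k < (G.z i c).1 + G.H i)
    (h3 : |(q : ℝ) - xm G i c - sl μ s * ((k : ℝ) - (G.z i c).1)| ≤ (R + 1) * wd μ s (Tg h₀ K i)) :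
    (k, q) ∈ S.filter (fun b => G.z i b = G.z i c) := by
  have h4 := g.mem_col hi hL h1 h2 h3
  exact Finset.mem_filter.2 ⟨hS _ h4, h4⟩

/-- `Sc` is a union of boxes of every level `i ≤ mt`. -/
theorem Sc_fib (hG : G.Ok L) {mt i j0 j1 N : ℕ} (hm : mt ≤ L) (hi : i ≤ mt) {c : ℕ × ℤ} (hc : c ∈ T98.Sc G mt j0 j1 N) :
    ∀ b, G.z i b = G.z i c → b ∈ T98.Sc G mt j0 j1 N := fun _ hb => T98.St_box hG hm hi hc hb

/-- **The weight of the box from below**: any sum over sites near the middle line. -/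
theorem GW.sum_fib (g : GW μ s R B C₀ h₀ K L G) {i : ℕ} (hi : 1 ≤ i) (hL : i ≤ L) {c : ℕ × ℤ} {S X : Finset (ℕ × ℤ)}
    (hS : ∀ b, G.z i b = G.z i c → b ∈ S) (hX : ∀ b ∈ X, (G.z i c).1 ≤ b.1 ∧ b.1 < (G.z i c).1 + G.H i ∧
      |(b.2 : ℝ) - xm G i c - sl μ s * ((b.1 : ℝ) - (G.z i c).1)| ≤ (R + 1) * wd μ s (Tg h₀ K i)) {f : ℕ × ℤ → ℝ}
    (hf : ∀ b, 0 ≤ f b) : ∑ b ∈ X, f b ≤ ∑ b ∈ S.filter (fun b => G.z i b = G.z i c), f b := by
  refine Finset.sum_le_sum_of_subset_of_nonneg (fun b hb => ?_) fun b _ _ => hf b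
  obtain ⟨h1, h2, h3⟩ := hX b hb
  exact g.mem_fib hi hL hS h1 h2 h3

end

end Pool.Agent.W_7d29a1_C1.T10
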