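import Pool.Agent.W_7d29a1_C1.FrcK26
import Pool.Agent.W_7d29a1_C1.SgN8
import Pool.Agent.W_7d29a1_C1.GeoF10

/-!
MP_7d29a1_pr, attractor route [C1], SHELL, SIDE F (helper45): **THE FACTS OF THE FIRST BUFFER AND OF THE ROW OF THE CELLS, ONE DEFINITION**
for the base sets (B), the weight (W) and the success (U): the output of `freC26` at the base of the level `j`.

`LnI`, `LnO`, `LnJ`, `LnP` : the four groups of constants of `freC26` in its order. `R145`, `kk45`, `nM45`, `TF45`, `nB45` : blocks of the level.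
`u45`, `t45` : middles of the cells at the rows `c0`, `c0'`. `FA45`, `FB45` : the facts. `sg45` : the numbers of `So47`.
-/

set_option autoImplicit false

namespace Pool.Agent.W_7d29a1_C1.F45

open MeasureTheory
open Pool.Agent.W_7d29a1_F Pool.Agent.W_7d29a1_h4g Pool.Agent.W_7d29a1_H Pool.Agent.W_7d29a1_HS
open Pool.Agent.W_7d29a1_C1
open Pool.Agent.W_7d29a1_C1.Basin76
open Pool.Agent.W_7d29a1_C1.T10 (kF cF)
open Pool.Agent.W_7d29a1_C1.S83 (RowG)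
open Pool.Agent.W_7d29a1_C1.B26
open Pool.Agent.W_7d29a1_C1.H8 (uc8 sg8)
open Pool.Agent.W_7d29a1_C1.Fr47 (NS47)

noncomputable section

/-! ### The constants of `freC26` -/

/-- Before the crossing exponent `g`. -/
structure LnI where
  th' : ℝ
  K0 : ℝ
  del : ℝ
  rD : ℝ
  dd : ℝ
  be : ℝ
  L : ℝ
  u0 : ℝ

/-- The conditions of `freC26`. -/
structure LnI.Ok (c : ℝ) (a : LnI) : Prop where
  th' : 0 < a.th'
  K0 : 0 ≤ a.K0
  del : 0 < a.del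
  rD : 0 < a.rD
  dd : 0 < a.dd
  be : 0 ≤ a.be
  be' : a.be ≤ c / 8
  L : 0 ≤ a.L
  u0 : 0 < a.u0

/-- The choice of side F: `th` = the letter of `frF10`, `d` = the cells. -/
def lnI (c d th K0 : ℝ) : LnI := ⟨th / 8, K0, d / 2, d / 16, 1, c / 8, 1, 1⟩

theorem lnI_ok {c d th K0 : ℝ} (hc : 0 ≤ c) (hd : 0 < d) (hth : 0 < th) (hK : 0 ≤ K0) : (lnI c d th K0).Ok c :=
  ⟨by show 0 < th / 8; linarith, hK, by show 0 < d / 2; linarith, by show 0 < d / 16; linarith, one_pos, by show 0 ≤ c / 8; linarith, le_rfl, zero_le_one, one_pos⟩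

/-- After `g` : cells `th`, levels, ratios. -/
structure LnO where
  th : ℝ
  hB : ℝ
  Kc : ℝ
  Q1 : ℝ
  Qe : ℝ
  Qw : ℝ
  c' : ℝ
  Pe : ℕ
  Pw : ℕ
  a : ℕ
  j1 : ℕ
  j2 : ℕ

/-- The properties of these constants. -/
structure LnO.Ok (i : LnI) (o : LnO) : Prop where
  th0 : 0 < o.th
  th1 : o.th ≤ i.rD
  th2 : o.th ≤ i.del / 8
  hB : i.be ≤ o.hB
  hB1 : 1 ≤ o.hB
  Kc : 0 < o.Kc
  Q1 : 0 ≤ o.Q1
  Qe : 0 ≤ o.Qe
  Qw : 0 ≤ o.Qw
  c' : 0 < o.c'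
  a1 : 1 ≤ o.a
  aj : o.a ≤ o.j1
  j1 : 1 ≤ o.j1
  j2 : 1 ≤ o.j2
  j2' : 1 ≤ i.th' * o.j2

/-- The windows and the walls, after `V`, `Φ`. -/
structure LnJ where
  Kw : ℝ
  gx : ℝ
  G' : ℝ

structure LnJ.Ok (j : LnJ) : Prop where
  Kw : 0 ≤ j.Kw
  gx : 0 ≤ j.gx
  G' : 0 ≤ j.G'

/-- After them: window, block number. -/
structure LnP where
  K : ℝ
  Kx : ℝ
  ellw : ℝ
  Q : ℕ

structure LnP.Ok (j : LnJ) (p : LnP) : Prop where
  Kx : 0 ≤ p.Kx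
  K : p.Kx + 1 ≤ p.K
  Kw : j.Kw ≤ p.K
  ellw : 0 ≤ p.ellw
  Q : 1 ≤ p.Q

/-! ### The blocks of a level -/

/-- The number of blocks of the first buffer. -/
def R145 (o : LnO) (Q : ℕ) : ℕ := Q * (o.j2 * (o.a + o.j1))

/-- The length of a block at the level `j`, `th` = the letter of `frF10`. -/
def kk45 (th : ℝ) (o : LnO) (Q : ℕ) (T : ℕ → ℕ) (j : ℕ) : ℕ := kF th (R145 o Q) (T j)

/-- First block, lanes, typical rows. -/
def nM45 (th : ℝ) (o : LnO) (Q : ℕ) (T : ℕ → ℕ) (j : ℕ) : ℕ := Q * (o.a * o.j2) * kk45 th o Q T j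
def TF45 (th : ℝ) (o : LnO) (Q : ℕ) (T : ℕ → ℕ) (j : ℕ) : ℕ := Q * (o.j1 * o.j2) * kk45 th o Q T j
def nB45 (th : ℝ) (o : LnO) (Q : ℕ) (T : ℕ → ℕ) (j : ℕ) : ℕ := Q * o.j1 * kk45 th o Q T j

/-- **The first block and the lanes fill the first buffer.** -/
theorem nMTF45 (th : ℝ) (o : LnO) (Q : ℕ) (T : ℕ → ℕ) (j : ℕ) : nM45 th o Q T j + TF45 th o Q T j = R145 o Q * kF th (R145 o Q) (T j) := by
  unfold nM45 TF45 kk45 R145
  ring

theorem R145_pos {i : LnI} {o : LnO} (h : o.Ok i) {Q : ℕ} (hQ : 1 ≤ Q) : 1 ≤ R145 o Q := by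
  unfold R145
  have h1 := h.a1
  exact Nat.mul_pos (by omega) (Nat.mul_pos (by have := h.j2; omega) (by omega))

/-! ### The columns of a level -/

/-- The base of the buffer, relative: the row `c0`, the line of the middle `cm j` of the box. -/
def bp45 (μ : Measure ℝ) (s : ℝ) (T : ℕ → ℕ) (cm : ℕ → ℤ) (j : ℕ) : Pt := (1 - (T j : ℤ), cm j + ⌊sl μ s * (1 - (T j : ℝ))⌋)

/-- The middles of the cells of the row `c0`. -/
def u45 (μ : Measure ℝ) (s d : ℝ) (T : ℕ → ℕ) (cm : ℕ → ℤ) (j : ℕ) (i : Bool) : ℤ := uc8 μ s d (wd μ s (T j)) (cm j) (1 - (T j : ℤ)) i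

/-- The middles of the cells of the row `c0'`. -/
def t45 (μ : Measure ℝ) (s d th : ℝ) (o : LnO) (Q : ℕ) (T : ℕ → ℕ) (cm : ℕ → ℤ) (j : ℕ) (i : Bool) : ℤ :=
  uc8 μ s d (wd μ s (T j)) (cm j) (1 - (T j : ℤ) + ((nM45 th o Q T j + TF45 th o Q T j : ℕ) : ℤ)) i

/-! ### The facts -/

/-- The output of the two lanes at the level `j`, place `z` (`r` = radius of the end cells, `A` = strength). -/
structure MO45 (μ : Measure ℝ) (s c d th : ℝ) (i : LnI) (ell g G' : ℝ) (o : LnO) (Q : ℕ) (T : ℕ → ℕ) (cm : ℕ → ℤ) (j : ℕ) (z : Pt)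
    (ζ : Env) (r A : ℝ) : Prop where
  r0 : 0 ≤ r
  r1 : r ≤ o.th * wd μ s (TF45 th o Q T j)
  w1 : 1 ≤ o.th * wd μ s (TF45 th o Q T j)
  ra : ζ ∈ RowG ((bp45 μ s T cm j).1 + z.1) ((bp45 μ s T cm j).2 + z.2) (wd μ s (TF45 th o Q T j)) (i.u0 * EE μ s (TF45 th o Q T j))
  rb : ζ ∈ RowG ((bp45 μ s T cm j).1 + z.1 + nM45 th o Q T j + TF45 th o Q T j)
    (cp26 (sl μ s) ((bp45 μ s T cm j).2 + z.2) (nM45 th o Q T j + TF45 th o Q T j)) (wd μ s (TF45 th o Q T j))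
    (i.u0 * EE μ s (TF45 th o Q T j))
  mo : MO26 (kW μ s ζ ((bp45 μ s T cm j).1 + z.1) (nM45 th o Q T j + TF45 th o Q T j))
    (fun x => lt26 (sl μ s) (wd μ s (TF45 th o Q T j)) 0 (x - ((bp45 μ s T cm j).2 + z.2)))
    (fun x => lt26 (sl μ s) (wd μ s (TF45 th o Q T j)) (nM45 th o Q T j + TF45 th o Q T j) (x - ((bp45 μ s T cm j).2 + z.2)))
    (EE μ s (TF45 th o Q T j)) (fun b => u45 μ s d T cm j b + z.2) (fun b => t45 μ s d th o Q T cm j b + z.2)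
    (o.th * wd μ s (TF45 th o Q T j)) r i.L o.Q1 A (ell + 2 * i.dd) g G' i.be o.Pe o.Qe (3 * c / 4)

/-- The row `c0' + nB`, end of the typical rows. -/
def RC45 (μ : Measure ℝ) (s th : ℝ) (i : LnI) (o : LnO) (Q : ℕ) (T : ℕ → ℕ) (cm : ℕ → ℤ) (j : ℕ) (z : Pt) (ζ : Env) : Prop :=
  ζ ∈ RowG ((bp45 μ s T cm j).1 + z.1 + nM45 th o Q T j + TF45 th o Q T j + nB45 th o Q T j)
    (cp26 (sl μ s) ((bp45 μ s T cm j).2 + z.2) (nM45 th o Q T j + TF45 th o Q T j + nB45 th o Q T j)) (wd μ s (TF45 th o Q T j))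
    (i.u0 * EE μ s (TF45 th o Q T j))

/-- The output of the whole buffer at the level `j`, place `z`. -/
def BT45 (μ : Measure ℝ) (s c d th : ℝ) (i : LnI) (ell g : ℝ) (o : LnO) (w : LnJ) (p : LnP) (T : ℕ → ℕ) (cm : ℕ → ℤ) (j : ℕ) (z : Pt)
    (ζ : Env) (A : ℝ) : Prop :=
  BT26 (kW μ s ζ ((bp45 μ s T cm j).1 + z.1) (nM45 th o p.Q T j + (TF45 th o p.Q T j + nB45 th o p.Q T j)))
    (fun x => lt26 (sl μ s) (wd μ s (TF45 th o p.Q T j)) 0 (x - ((bp45 μ s T cm j).2 + z.2)))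
    (fun x => lt26 (sl μ s) (wd μ s (TF45 th o p.Q T j)) (nM45 th o p.Q T j + TF45 th o p.Q T j + nB45 th o p.Q T j)
      (x - ((bp45 μ s T cm j).2 + z.2)))
    (EE μ s (TF45 th o p.Q T j)) (fun b => u45 μ s d T cm j b + z.2)
    (fun b => lt26 (sl μ s) (wd μ s (TF45 th o p.Q T j)) (nM45 th o p.Q T j + TF45 th o p.Q T j)
      (t45 μ s d th o p.Q T cm j b - (bp45 μ s T cm j).2))
    (o.th * wd μ s (TF45 th o p.Q T j)) p.K p.Kx i.del A (Real.exp (-((TF45 th o p.Q T j : ℕ) : ℝ) ^ o.c')) (ell + 2 * i.dd) p.ellw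
    o.Kc i.be g w.gx w.G' o.hB o.Pw o.Qw (c / 2)

/-- **`FA`** : what the set `SA j` (first block and lanes) gives at the place `z`. -/
def FA45 (μ : Measure ℝ) (s c d th : ℝ) (i : LnI) (ell g : ℝ) (o : LnO) (w : LnJ) (p : LnP) (T : ℕ → ℕ) (cm : ℕ → ℤ) (j : ℕ) (z : Pt)
    (ζ : Env) : Prop :=
  ∃ r A : ℝ, MO45 μ s c d th i ell g w.G' o p.Q T cm j z ζ r A

/-- **`FB`** : what `SA j` and `SB j` give together. -/
def FB45 (μ : Measure ℝ) (s c d th : ℝ) (i : LnI) (ell g : ℝ) (o : LnO) (w : LnJ) (p : LnP) (T : ℕ → ℕ) (cm : ℕ → ℤ) (j : ℕ) (z : Pt)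
    (ζ : Env) : Prop :=
  ∃ r A : ℝ, MO45 μ s c d th i ell g w.G' o p.Q T cm j z ζ r A ∧ RC45 μ s th i o p.Q T cm j z ζ ∧ BT45 μ s c d th i ell g o w p T cm j z ζ A

/-! ### The numbers of `So47` -/

/-- The constants of the envelope of `So47`. -/
structure KE45 where
  P : ℕ
  c₁ : ℝ
  c₃ : ℝ
  Q : ℝ
  S : ℝ

/-- **`σ`** of side F. -/
def sg45 (μ : Measure ℝ) (s d th : ℝ) (o : LnO) (Q : ℕ) (k : KE45) (T : ℕ → ℕ) (cm : ℕ → ℤ) (m₂ : ℕ) (φ v v₁ g₂ : ℝ) : NS47 :=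
  sg8 μ s T cm (u45 μ s d T cm) (fun j => ⌊o.th * wd μ s (TF45 th o Q T j)⌋₊) m₂ k.P k.c₁ k.c₃ k.Q k.S φ v v₁ g₂

end

end Pool.Agent.W_7d29a1_C1.F45
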