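import Pool.Agent.W_7d29a1_C1.Pert97

/-!
MP_7d29a1_pr, the attractor route: NEAR ROWS HAVE NEAR CONTACT FUNCTIONALS. (helper97)

`ds` = distance of two rows (masses times profile at the three neighbouring sites). If `ds` is at most `eta` times the total mass of
the second row, separately for the two groups, then the contact functional `ct` and the meeting functional `pt` of the two rows
differ by at most `K * eta`, for every relative weight of the two groups. The weights next to the cut are in `[1/kap, kap]`, so is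
the ratio of the profile at the two sides of the cut.
-/

set_option autoImplicit false

namespace Pool.Agent.W_7d29a1_C1.K97

open Finset K91

noncomputable section

variable {p : ℝ} {lo hi : ℤ} {wk ml mr f m m' f' : ℤ → ℝ} {q : ℤ}

/-- Distance of two rows. -/
def ds (lo hi : ℤ) (wk m f m' f' : ℤ → ℝ) : ℝ :=
  ∑ y ∈ Icc lo hi, wk y * (|m y * f (y - 1) - m' y * f' (y - 1)| + |m y * f y - m' y * f' y| +
    |m y * f (y + 1) - m' y * f' (y + 1)|)

theorem ds_term_nonneg (hw : ∀ y, 0 < wk y) (y : ℤ) : 0 ≤ wk y * (|m y * f (y - 1) - m' y * f' (y - 1)| +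
    |m y * f y - m' y * f' y| + |m y * f (y + 1) - m' y * f' (y + 1)|) := by
  have h1 := hw y
  positivity

theorem ds_nonneg (hw : ∀ y, 0 < wk y) : 0 ≤ ds lo hi wk m f m' f' :=
  sum_nonneg fun y _ => ds_term_nonneg hw y

theorem ds_term (hw : ∀ y, 0 < wk y) {y : ℤ} (hy : y ∈ Icc lo hi) :
    wk y * (|m y * f (y - 1) - m' y * f' (y - 1)| + |m y * f y - m' y * f' y| +
      |m y * f (y + 1) - m' y * f' (y + 1)|) ≤ ds lo hi wk m f m' f' :=
  single_le_sum (f := fun y => wk y * (|m y * f (y - 1) - m' y * f' (y - 1)| + |m y * f y - m' y * f' y| +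
    |m y * f (y + 1) - m' y * f' (y + 1)|)) (fun z _ => ds_term_nonneg hw z) hy

theorem ds_l (hw : ∀ y, 0 < wk y) {y : ℤ} (hy : y ∈ Icc lo hi) :
    wk y * |m y * f (y - 1) - m' y * f' (y - 1)| ≤ ds lo hi wk m f m' f' := by
  refine le_trans (mul_le_mul_of_nonneg_left ?_ (hw y).le) (ds_term hw hy)
  have h1 := abs_nonneg (m y * f y - m' y * f' y)
  have h2 := abs_nonneg (m y * f (y + 1) - m' y * f' (y + 1))
  linarith

theorem ds_c (hw : ∀ y, 0 < wk y) {y : ℤ} (hy : y ∈ Icc lo hi) :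
    wk y * |m y * f y - m' y * f' y| ≤ ds lo hi wk m f m' f' := by
  refine le_trans (mul_le_mul_of_nonneg_left ?_ (hw y).le) (ds_term hw hy)
  have h1 := abs_nonneg (m y * f (y - 1) - m' y * f' (y - 1))
  have h2 := abs_nonneg (m y * f (y + 1) - m' y * f' (y + 1))
  linarith

theorem ds_r (hw : ∀ y, 0 < wk y) {y : ℤ} (hy : y ∈ Icc lo hi) :
    wk y * |m y * f (y + 1) - m' y * f' (y + 1)| ≤ ds lo hi wk m f m' f' := by
  refine le_trans (mul_le_mul_of_nonneg_left ?_ (hw y).le) (ds_term hw hy)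
  have h1 := abs_nonneg (m y * f (y - 1) - m' y * f' (y - 1))
  have h2 := abs_nonneg (m y * f y - m' y * f' y)
  linarith

theorem ds_smul {a : ℝ} (ha : 0 ≤ a) :
    ds lo hi wk (fun y => a * m y) f (fun y => a * m' y) f' = a * ds lo hi wk m f m' f' := by
  unfold ds
  rw [mul_sum]
  refine sum_congr rfl fun y _ => ?_
  have e : ∀ u v : ℝ, |a * m y * u - a * m' y * v| = a * |m y * u - m' y * v| := by
    intro u v
    rw [show a * m y * u - a * m' y * v = a * (m y * u - m' y * v) by ring, abs_mul, abs_of_nonneg ha]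
  rw [e, e, e]
  ring

theorem rz_ds (hp : 0 < p) (hw : ∀ y, 0 < wk y) :
    |rz lo hi p wk m f q - rz lo hi p wk m' f' q| ≤ (1 + p) * ds lo hi wk m f m' f' := by
  unfold rz zs ds
  rw [← sum_sub_distrib, mul_sum]
  refine (abs_sum_le_sum_abs _ _).trans (sum_le_sum fun y _ => ?_)
  have hy := hw y
  set a1 := |m y * f (y - 1) - m' y * f' (y - 1)| with h1
  set a2 := |m y * f y - m' y * f' y| with h2
  set a3 := |m y * f (y + 1) - m' y * f' (y + 1)| with h3
  have n1 : 0 ≤ a1 := abs_nonneg _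
  have n2 : 0 ≤ a2 := abs_nonneg _
  have n3 : 0 ≤ a3 := abs_nonneg _
  by_cases hq : y < q
  · rw [if_pos hq, if_pos hq]
    have e : m y * wk y * (f y + p * f (y + 1)) - m' y * wk y * (f' y + p * f' (y + 1)) =
        wk y * ((m y * f y - m' y * f' y) + p * (m y * f (y + 1) - m' y * f' (y + 1))) := by ring
    rw [e, abs_mul, abs_of_pos hy]
    have e2 : |(m y * f y - m' y * f' y) + p * (m y * f (y + 1) - m' y * f' (y + 1))| ≤ a2 + p * a3 := by
      refine (abs_add_le _ _).trans ?_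
      rw [abs_mul, abs_of_pos hp]
    have e3 : a2 + p * a3 ≤ (1 + p) * (a1 + a2 + a3) := by nlinarith
    calc wk y * |(m y * f y - m' y * f' y) + p * (m y * f (y + 1) - m' y * f' (y + 1))|
        ≤ wk y * ((1 + p) * (a1 + a2 + a3)) := mul_le_mul_of_nonneg_left (e2.trans e3) hy.le
      _ = (1 + p) * (wk y * (a1 + a2 + a3)) := by ring
  · rw [if_neg hq, if_neg hq]
    simp only [sub_add_cancel]
    have e : m y * wk y * (f (y - 1) + p * f y) - m' y * wk y * (f' (y - 1) + p * f' y) =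
        wk y * ((m y * f (y - 1) - m' y * f' (y - 1)) + p * (m y * f y - m' y * f' y)) := by ring
    rw [e, abs_mul, abs_of_pos hy]
    have e2 : |(m y * f (y - 1) - m' y * f' (y - 1)) + p * (m y * f y - m' y * f' y)| ≤ a1 + p * a2 := by
      refine (abs_add_le _ _).trans ?_
      rw [abs_mul, abs_of_pos hp]
    have e3 : a1 + p * a2 ≤ (1 + p) * (a1 + a2 + a3) := by nlinarith
    calc wk y * |(m y * f (y - 1) - m' y * f' (y - 1)) + p * (m y * f y - m' y * f' y)|
        ≤ wk y * ((1 + p) * (a1 + a2 + a3)) := mul_le_mul_of_nonneg_left (e2.trans e3) hy.le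
      _ = (1 + p) * (wk y * (a1 + a2 + a3)) := by ring

theorem tm_ds (hp : 0 < p) (hw : ∀ y, 0 < wk y) :
    |tm lo hi p wk m f - tm lo hi p wk m' f'| ≤ (1 + p) * ds lo hi wk m f m' f' := by
  unfold tm ds
  rw [← sum_sub_distrib, mul_sum]
  refine (abs_sum_le_sum_abs _ _).trans (sum_le_sum fun y _ => ?_)
  have hy := hw y
  set a1 := |m y * f (y - 1) - m' y * f' (y - 1)| with h1
  set a2 := |m y * f y - m' y * f' y| with h2
  set a3 := |m y * f (y + 1) - m' y * f' (y + 1)| with h3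
  have n1 : 0 ≤ a1 := abs_nonneg _
  have n2 : 0 ≤ a2 := abs_nonneg _
  have n3 : 0 ≤ a3 := abs_nonneg _
  have e : m y * wk y * (f y + p * f (y + 1)) - m' y * wk y * (f' y + p * f' (y + 1)) =
      wk y * ((m y * f y - m' y * f' y) + p * (m y * f (y + 1) - m' y * f' (y + 1))) := by ring
  rw [e, abs_mul, abs_of_pos hy]
  have e2 : |(m y * f y - m' y * f' y) + p * (m y * f (y + 1) - m' y * f' (y + 1))| ≤ a2 + p * a3 := by
    refine (abs_add_le _ _).trans ?_
    rw [abs_mul, abs_of_pos hp]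
  have e3 : a2 + p * a3 ≤ (1 + p) * (a1 + a2 + a3) := by nlinarith
  calc wk y * |(m y * f y - m' y * f' y) + p * (m y * f (y + 1) - m' y * f' (y + 1))|
      ≤ wk y * ((1 + p) * (a1 + a2 + a3)) := mul_le_mul_of_nonneg_left (e2.trans e3) hy.le
    _ = (1 + p) * (wk y * (a1 + a2 + a3)) := by ring

/-- The shifted sum of a nonnegative function which vanishes at `lo - 1`. -/
theorem sum_shift_le {g : ℤ → ℝ} (hg : ∀ y, 0 ≤ g y) (h0 : g (lo - 1) = 0) :
    ∑ y ∈ Icc lo hi, g (y - 1) ≤ ∑ y ∈ Icc lo hi, g y := by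
  by_cases hlh : lo ≤ hi
  swap
  · rw [Icc_eq_empty hlh, sum_empty, sum_empty]
  have e1 : ∑ y ∈ Icc lo hi, g (y - 1) = ∑ y ∈ Icc (lo - 1) (hi - 1), g y := by
    refine sum_bij' (fun y _ => y - 1) (fun y _ => y + 1) ?_ ?_ ?_ ?_ ?_
    · intro y hy
      rw [mem_Icc] at hy ⊢
      omega
    · intro y hy
      rw [mem_Icc] at hy ⊢
      omega
    · intro y _
      ring
    · intro y _
      ring
    · intro y _
      rfl
  have e2 : Icc (lo - 1) (hi - 1) = insert (lo - 1) (Icc lo (hi - 1)) := by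
    ext z
    simp only [mem_Icc, mem_insert]
    omega
  rw [e1, e2, sum_insert (by simp only [mem_Icc]; omega), h0, zero_add]
  exact sum_le_sum_of_subset_of_nonneg (Icc_subset_Icc le_rfl (by omega)) fun y _ _ => hg y

theorem rt_ds (hp : 0 < p) (hw : ∀ y, 0 < wk y) (h0 : m (lo - 1) = 0) (h0' : m' (lo - 1) = 0) :
    |rt lo hi p wk m f q - rt lo hi p wk m' f' q| ≤ (1 + p) * ds lo hi wk m f m' f' := by
  unfold rt cut
  rw [← sum_sub_distrib]
  set A : ℤ → ℝ := fun y => wk y * (|m y * f (y - 1) - m' y * f' (y - 1)| + |m y * f y - m' y * f' y| +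
    |m y * f (y + 1) - m' y * f' (y + 1)|) with hA
  have hA0 : ∀ y, 0 ≤ A y := fun y => ds_term_nonneg hw y
  have hAl : A (lo - 1) = 0 := by
    show wk (lo - 1) * (|m (lo - 1) * f (lo - 1 - 1) - m' (lo - 1) * f' (lo - 1 - 1)| +
      |m (lo - 1) * f (lo - 1) - m' (lo - 1) * f' (lo - 1)| +
      |m (lo - 1) * f (lo - 1 + 1) - m' (lo - 1) * f' (lo - 1 + 1)|) = 0
    rw [h0, h0']
    simp
  have key : ∀ y ∈ Icc lo hi, |(wk y * m y + p * (wk (y - 1) * m (y - 1))) * (if y < q then f y else f (y - 1)) -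
      (wk y * m' y + p * (wk (y - 1) * m' (y - 1))) * (if y < q then f' y else f' (y - 1))| ≤ A y + p * A (y - 1) := by
    intro y _
    have hy := hw y
    have hy1 := hw (y - 1)
    have n1 := abs_nonneg (m y * f (y - 1) - m' y * f' (y - 1))
    have n2 := abs_nonneg (m y * f y - m' y * f' y)
    have n3 := abs_nonneg (m y * f (y + 1) - m' y * f' (y + 1))
    have n4 := abs_nonneg (m (y - 1) * f (y - 1 - 1) - m' (y - 1) * f' (y - 1 - 1))
    have n5 := abs_nonneg (m (y - 1) * f (y - 1) - m' (y - 1) * f' (y - 1))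
    have n6 := abs_nonneg (m (y - 1) * f y - m' (y - 1) * f' y)
    have eA : A (y - 1) = wk (y - 1) * (|m (y - 1) * f (y - 1 - 1) - m' (y - 1) * f' (y - 1 - 1)| +
        |m (y - 1) * f (y - 1) - m' (y - 1) * f' (y - 1)| + |m (y - 1) * f y - m' (y - 1) * f' y|) := by
      show wk (y - 1) * (|m (y - 1) * f (y - 1 - 1) - m' (y - 1) * f' (y - 1 - 1)| +
        |m (y - 1) * f (y - 1) - m' (y - 1) * f' (y - 1)| +
        |m (y - 1) * f (y - 1 + 1) - m' (y - 1) * f' (y - 1 + 1)|) = _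
      rw [sub_add_cancel]
    by_cases hq : y < q
    · rw [if_pos hq, if_pos hq]
      have e : (wk y * m y + p * (wk (y - 1) * m (y - 1))) * f y - (wk y * m' y + p * (wk (y - 1) * m' (y - 1))) * f' y =
          wk y * (m y * f y - m' y * f' y) + p * (wk (y - 1) * (m (y - 1) * f y - m' (y - 1) * f' y)) := by ring
      rw [e]
      refine (abs_add_le _ _).trans ?_
      rw [abs_mul, abs_mul, abs_mul, abs_of_pos hy, abs_of_pos hy1, abs_of_pos hp]
      refine add_le_add ?_ ?_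
      · exact mul_le_mul_of_nonneg_left (by linarith) hy.le
      · rw [eA]
        exact mul_le_mul_of_nonneg_left (mul_le_mul_of_nonneg_left (by linarith) hy1.le) hp.le
    · rw [if_neg hq, if_neg hq]
      have e : (wk y * m y + p * (wk (y - 1) * m (y - 1))) * f (y - 1) -
          (wk y * m' y + p * (wk (y - 1) * m' (y - 1))) * f' (y - 1) =
          wk y * (m y * f (y - 1) - m' y * f' (y - 1)) +
          p * (wk (y - 1) * (m (y - 1) * f (y - 1) - m' (y - 1) * f' (y - 1))) := by ring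
      rw [e]
      refine (abs_add_le _ _).trans ?_
      rw [abs_mul, abs_mul, abs_mul, abs_of_pos hy, abs_of_pos hy1, abs_of_pos hp]
      refine add_le_add ?_ ?_
      · exact mul_le_mul_of_nonneg_left (by linarith) hy.le
      · rw [eA]
        exact mul_le_mul_of_nonneg_left (mul_le_mul_of_nonneg_left (by linarith) hy1.le) hp.le
  have hs := sum_shift_le (lo := lo) (hi := hi) hA0 hAl
  have e9 : ds lo hi wk m f m' f' = ∑ y ∈ Icc lo hi, A y := rfl
  calc |∑ y ∈ Icc lo hi, ((wk y * m y + p * (wk (y - 1) * m (y - 1))) * (if y < q then f y else f (y - 1)) -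
        (wk y * m' y + p * (wk (y - 1) * m' (y - 1))) * (if y < q then f' y else f' (y - 1)))|
      ≤ ∑ y ∈ Icc lo hi, (A y + p * A (y - 1)) := (abs_sum_le_sum_abs _ _).trans (sum_le_sum key)
    _ = ∑ y ∈ Icc lo hi, A y + p * ∑ y ∈ Icc lo hi, A (y - 1) := by rw [sum_add_distrib, mul_sum]
    _ ≤ ∑ y ∈ Icc lo hi, A y + p * ∑ y ∈ Icc lo hi, A y := by
        have := mul_le_mul_of_nonneg_left hs hp.le
        linarith
    _ = (1 + p) * ds lo hi wk m f m' f' := by
        rw [e9]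
        ring

/-! ### Quotients -/

theorem quo_close {A A' Z Z' kap e : ℝ} (hZ' : 0 < Z') (h1 : |A - A'| ≤ kap * (e * Z')) (h2 : |Z - Z'| ≤ e * Z')
    (he : e ≤ 1 / 2) (hA : 0 ≤ A') (hA' : A' ≤ kap * Z') : |A / Z - A' / Z'| ≤ 4 * (kap * e) := by
  have he0 : 0 ≤ e := by
    by_contra hc
    have : e * Z' < 0 := mul_neg_of_neg_of_pos (by linarith) hZ'
    have := abs_nonneg (Z - Z')
    linarith
  have hk : 0 ≤ kap := by
    by_contra hc
    have : kap * Z' < 0 := mul_neg_of_neg_of_pos (by linarith) hZ'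
    linarith
  have hZ : Z' / 2 ≤ Z := by
    have h3 := (abs_le.1 h2).1
    have h4 : e * Z' ≤ 1 / 2 * Z' := mul_le_mul_of_nonneg_right he hZ'.le
    linarith
  have hZ0 : 0 < Z := by linarith
  have e1 : A / Z - A' / Z' = (A - A') / Z + A' / Z' * ((Z' - Z) / Z) := by
    field_simp
    ring
  have b1 : |(A - A') / Z| ≤ 2 * (kap * e) := by
    rw [abs_div, abs_of_pos hZ0, div_le_iff₀ hZ0]
    have h3 : kap * e * (Z' / 2) ≤ kap * e * Z := mul_le_mul_of_nonneg_left hZ (by positivity)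
    linarith
  have b2 : |A' / Z'| ≤ kap := by
    rw [abs_of_nonneg (by positivity), div_le_iff₀ hZ']
    exact hA'
  have b3 : |(Z' - Z) / Z| ≤ 2 * e := by
    rw [abs_div, abs_of_pos hZ0, div_le_iff₀ hZ0, abs_sub_comm]
    have h3 : e * (Z' / 2) ≤ e * Z := mul_le_mul_of_nonneg_left hZ he0
    linarith
  rw [e1]
  refine (abs_add_le _ _).trans ?_
  rw [abs_mul (A' / Z')]
  have b4 := mul_le_mul b2 b3 (abs_nonneg _) hk
  linarith

/-! ### The loss with the product form -/

theorem jq_pert2 {x y x' y' v v' e e3 c V : ℝ} (hc : 0 < c) (hc1 : c ≤ 1) (hx : 0 ≤ x) (hy : 0 ≤ y) (hx' : 0 ≤ x')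
    (hy' : 0 ≤ y') (h1 : |x - x'| ≤ e) (h2 : |y - y'| ≤ e) (h3 : |(x + y) * v - (x' + y') * v'| ≤ e3) (hV : |v - 1| ≤ V)
    (ha : c ≤ 1 + (x + y) * (v - 1)) (ha' : c ≤ 1 + (x' + y') * (v' - 1)) :
    |jq x y v - jq x' y' v'| ≤ (4 * e * V + 4 * e + 2 * e3) / c := by
  have hp := jn_pert hc (t := x / (x + y)) (t' := x' / (x' + y')) (by positivity)
    (div_le_one_of_le₀ (by linarith) (by positivity)) (by positivity)
    (div_le_one_of_le₀ (by linarith) (by positivity)) ha hc1 ha' hc1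
  refine hp.trans (div_le_div_of_nonneg_right ?_ hc.le)
  have he : 0 ≤ e := (abs_nonneg _).trans h1
  have hV0 : 0 ≤ V := (abs_nonneg _).trans hV
  have e1 : (1 + (x + y) * (v - 1)) - 1 = (x + y) * (v - 1) := by ring
  have e4 : (1 + (x + y) * (v - 1)) - (1 + (x' + y') * (v' - 1)) = ((x + y) * v - (x' + y') * v') - ((x - x') + (y - y')) := by
    ring
  rw [sub_self, abs_zero, mul_zero, add_zero, e1, e4, abs_mul, abs_of_nonneg (show 0 ≤ x + y by positivity)]
  have s := share_pert hx hy hx' hy' h1 h2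
  have s1 : |x / (x + y) - x' / (x' + y')| * ((x + y) * |v - 1|) ≤ 2 * e * V := by
    rw [← mul_assoc]
    exact mul_le_mul s hV (abs_nonneg _) (by positivity)
  have s2 : |((x + y) * v - (x' + y') * v') - ((x - x') + (y - y'))| ≤ e3 + 2 * e := by
    refine (abs_sub _ _).trans ?_
    have := abs_add_le (x - x') (y - y')
    linarith
  linarith

theorem pq_pert2 {a b a2 b2 a' b' a2' b2' v v' c e e3 V : ℝ} (hc : 0 < c) (hc1 : c ≤ 1)
    (ha : 0 ≤ a) (hb : 0 ≤ b) (ha2 : 0 ≤ a2) (hb2 : 0 ≤ b2) (ha' : 0 ≤ a') (hb' : 0 ≤ b') (ha2' : 0 ≤ a2') (hb2' : 0 ≤ b2')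
    (h1 : |a - a'| ≤ e) (h2 : |b - b'| ≤ e) (h3 : |a2 - a2'| ≤ e) (h4 : |b2 - b2'| ≤ e)
    (h5 : |((a + b) + (a2 + b2)) * v - ((a' + b') + (a2' + b2')) * v'| ≤ e3)
    (hV : |v - 1| ≤ V) (hs : (a + b) + (a2 + b2) ≤ 1)
    (hl : c ≤ 1 + ((a + b) + (a2 + b2)) * (v - 1)) (hl' : c ≤ 1 + ((a' + b') + (a2' + b2')) * (v' - 1)) :
    |pq a b a2 b2 v - pq a' b' a2' b2' v'| ≤ (e * (8 * V + 4 * V ^ 2 + 8) + 2 * e3) / c := by
  have he : 0 ≤ e := (abs_nonneg _).trans h1
  have hV0 : 0 ≤ V := (abs_nonneg _).trans hV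
  have x0 : 0 ≤ a + b := by positivity
  have y0 : 0 ≤ a2 + b2 := by positivity
  have x0' : 0 ≤ a' + b' := by positivity
  have y0' : 0 ≤ a2' + b2' := by positivity
  have f1 : |(a + b) - (a' + b')| ≤ 2 * e := by
    have e0 : (a + b) - (a' + b') = (a - a') + (b - b') := by ring
    rw [e0]
    refine (abs_add_le _ _).trans ?_
    linarith
  have f2 : |(a2 + b2) - (a2' + b2')| ≤ 2 * e := by
    have e0 : (a2 + b2) - (a2' + b2') = (a2 - a2') + (b2 - b2') := by ring
    rw [e0]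
    refine (abs_add_le _ _).trans ?_
    linarith
  have g1 := jq_pert2 hc hc1 x0 y0 x0' y0' f1 f2 h5 hV hl hl'
  have g2 := jq_le hc x0 y0 hl
  have g0 := jq_nonneg x0 y0 (lt_of_lt_of_le hc hl)
  have r' := ro_le_one ha' hb' ha2' hb2'
  have e1 : pq a b a2 b2 v - pq a' b' a2' b2' v' = (ro a b a2 b2 - ro a' b' a2' b2') * jq (a + b) (a2 + b2) v +
      ro a' b' a2' b2' * (jq (a + b) (a2 + b2) v - jq (a' + b') (a2' + b2') v') := by
    unfold pq
    ring
  have m1 : |ro a b a2 b2 - ro a' b' a2' b2'| * jq (a + b) (a2 + b2) v ≤ e * (4 * V ^ 2 / c) := by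
    have s1 := share_pert ha hb ha' hb' h1 h2
    have s2 := share_pert ha2 hb2 ha2' hb2' h3 h4
    have t1 : |ro a b a2 b2 - ro a' b' a2' b2'| ≤ |a / (a + b) - a' / (a' + b')| + |a2 / (a2 + b2) - a2' / (a2' + b2')| := by
      have e0 : ro a b a2 b2 - ro a' b' a2' b2' = (a / (a + b) - a' / (a' + b')) - (a2 / (a2 + b2) - a2' / (a2' + b2')) := by
        unfold ro
        ring
      rw [e0]
      exact abs_sub _ _
    have q1 : (v - 1) ^ 2 ≤ V ^ 2 := by
      rw [← sq_abs]
      exact pow_le_pow_left₀ (abs_nonneg _) hV 2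
    have hD : 0 ≤ (v - 1) ^ 2 / c := by positivity
    have hD2 : (v - 1) ^ 2 / c ≤ V ^ 2 / c := div_le_div_of_nonneg_right q1 hc.le
    calc |ro a b a2 b2 - ro a' b' a2' b2'| * jq (a + b) (a2 + b2) v
        ≤ (|a / (a + b) - a' / (a' + b')| + |a2 / (a2 + b2) - a2' / (a2' + b2')|) * ((a + b) * (a2 + b2) * (v - 1) ^ 2 / c) :=
          mul_le_mul t1 g2 g0 (by positivity)
      _ = (|a / (a + b) - a' / (a' + b')| * (a + b)) * ((a2 + b2) * ((v - 1) ^ 2 / c)) +
          (|a2 / (a2 + b2) - a2' / (a2' + b2')| * (a2 + b2)) * ((a + b) * ((v - 1) ^ 2 / c)) := by ring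
      _ ≤ (2 * e) * (1 * (V ^ 2 / c)) + (2 * e) * (1 * (V ^ 2 / c)) := by
          refine add_le_add (mul_le_mul s1 (mul_le_mul (by linarith) hD2 hD zero_le_one) (by positivity) (by positivity))
            (mul_le_mul s2 (mul_le_mul (by linarith) hD2 hD zero_le_one) (by positivity) (by positivity))
      _ = e * (4 * V ^ 2 / c) := by ring
  have m2 : |ro a' b' a2' b2'| * |jq (a + b) (a2 + b2) v - jq (a' + b') (a2' + b2') v'| ≤
      (4 * (2 * e) * V + 4 * (2 * e) + 2 * e3) / c := by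
    have h0 := mul_le_mul r' g1 (abs_nonneg _) zero_le_one
    refine h0.trans (le_of_eq ?_)
    ring
  have m3 : |pq a b a2 b2 v - pq a' b' a2' b2' v'| ≤ |ro a b a2 b2 - ro a' b' a2' b2'| * jq (a + b) (a2 + b2) v +
      |ro a' b' a2' b2'| * |jq (a + b) (a2 + b2) v - jq (a' + b') (a2' + b2') v'| := by
    rw [e1]
    refine (abs_add_le _ _).trans ?_
    rw [abs_mul, abs_mul, abs_of_nonneg g0]
  have e9 : (e * (8 * V + 4 * V ^ 2 + 8) + 2 * e3) / c = e * (4 * V ^ 2 / c) + (4 * (2 * e) * V + 4 * (2 * e) + 2 * e3) / c := by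
    field_simp
    ring
  rw [e9]
  linarith

/-! ### Near rows -/

/-- The row `(m, f)` is near the row `(m', f')`: distance at most `eta` times `T`, `T` below all totals of `(m', f')`. -/
structure Nr (lo hi : ℤ) (p : ℝ) (wk m f m' f' : ℤ → ℝ) (q : ℤ) (eta T : ℝ) : Prop where
  m0 : ∀ y, 0 ≤ m y
  m0' : ∀ y, 0 ≤ m' y
  l0 : m (lo - 1) = 0
  l0' : m' (lo - 1) = 0
  T0 : 0 ≤ T
  d : ds lo hi wk m f m' f' ≤ eta * T
  z : T ≤ rz lo hi p wk m' f' q
  t : T ≤ rt lo hi p wk m' f' q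
  u : T ≤ tm lo hi p wk m' f'

theorem Nr.smul {eta T a : ℝ} (h : Nr lo hi p wk m f m' f' q eta T) (ha : 0 ≤ a) :
    Nr lo hi p wk (fun y => a * m y) f (fun y => a * m' y) f' q eta (a * T) := by
  refine ⟨fun y => mul_nonneg ha (h.m0 y), fun y => mul_nonneg ha (h.m0' y), ?_, ?_, mul_nonneg ha h.T0, ?_, ?_, ?_, ?_⟩
  · show a * m (lo - 1) = 0
    rw [h.l0, mul_zero]
  · show a * m' (lo - 1) = 0
    rw [h.l0', mul_zero]
  · rw [ds_smul ha]
    have := mul_le_mul_of_nonneg_left h.d ha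
    linarith
  · rw [rz_smul]
    exact mul_le_mul_of_nonneg_left h.z ha
  · rw [rt_smul]
    exact mul_le_mul_of_nonneg_left h.t ha
  · rw [tm_smul]
    exact mul_le_mul_of_nonneg_left h.u ha

theorem ds_add_le (hw : ∀ y, 0 < wk y) {m1 m2 m1' m2' : ℤ → ℝ} :
    ds lo hi wk (fun y => m1 y + m2 y) f (fun y => m1' y + m2' y) f' ≤
      ds lo hi wk m1 f m1' f' + ds lo hi wk m2 f m2' f' := by
  unfold ds
  rw [← sum_add_distrib]
  refine sum_le_sum fun y _ => ?_
  have hy := hw y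
  have e : ∀ u v : ℝ, |(m1 y + m2 y) * u - (m1' y + m2' y) * v| ≤ |m1 y * u - m1' y * v| + |m2 y * u - m2' y * v| := by
    intro u v
    rw [show (m1 y + m2 y) * u - (m1' y + m2' y) * v = (m1 y * u - m1' y * v) + (m2 y * u - m2' y * v) by ring]
    exact abs_add_le _ _
  have e1 := e (f (y - 1)) (f' (y - 1))
  have e2 := e (f y) (f' y)
  have e3 := e (f (y + 1)) (f' (y + 1))
  rw [← mul_add]
  refine mul_le_mul_of_nonneg_left ?_ hy.le
  linarith

theorem Nr.add (hw : ∀ y, 0 < wk y) {eta T T2 : ℝ} {m2 m2' : ℤ → ℝ} (h : Nr lo hi p wk m f m' f' q eta T)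
    (h2 : Nr lo hi p wk m2 f m2' f' q eta T2) :
    Nr lo hi p wk (fun y => m y + m2 y) f (fun y => m' y + m2' y) f' q eta (T + T2) := by
  refine ⟨fun y => add_nonneg (h.m0 y) (h2.m0 y), fun y => add_nonneg (h.m0' y) (h2.m0' y), ?_, ?_,
    add_nonneg h.T0 h2.T0, ?_, ?_, ?_, ?_⟩
  · show m (lo - 1) + m2 (lo - 1) = 0
    rw [h.l0, h2.l0, add_zero]
  · show m' (lo - 1) + m2' (lo - 1) = 0
    rw [h.l0', h2.l0', add_zero]
  · refine (ds_add_le hw).trans ?_
    have := h.d
    have := h2.d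
    linarith
  · rw [rz_add]
    exact add_le_add h.z h2.z
  · rw [rt_add]
    exact add_le_add h.t h2.t
  · rw [tm_add]
    exact add_le_add h.u h2.u

/-- Local regularity at the cut `q`. -/
structure Reg (lo hi : ℤ) (wk f : ℤ → ℝ) (q : ℤ) (kap : ℝ) : Prop where
  k1 : 1 ≤ kap
  q1 : q - 1 ∈ Icc lo hi
  q2 : q ∈ Icc lo hi
  wl : 1 ≤ kap * wk (q - 1)
  wr : 1 ≤ kap * wk q
  wl2 : wk (q - 1) ≤ kap
  wr2 : wk q ≤ kap
  fl : f (q - 1) ≤ kap * f q
  fr : f q ≤ kap * f (q - 1)

/-- The term of the left neighbour in the total `rz`. -/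
theorem rz_left (hp : 0 < p) (hw : ∀ y, 0 < wk y) (hf : ∀ y, 0 < f y) (hm : ∀ y, 0 ≤ m y) (h1 : q - 1 ∈ Icc lo hi) :
    m (q - 1) * wk (q - 1) * (f (q - 1) + p * f q) ≤ rz lo hi p wk m f q := by
  unfold rz zs
  have e : m (q - 1) * wk (q - 1) * (f (q - 1) + p * f q) = m (q - 1) * wk (q - 1) *
      (if q - 1 < q then (fun y => f y + p * f (y + 1)) (q - 1) else (fun y => f y + p * f (y + 1)) (q - 1 - 1)) := by
    rw [if_pos (by omega)]
    simp only [sub_add_cancel]
  rw [e]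
  refine single_le_sum (f := fun y => m y * wk y * (if y < q then (fun y => f y + p * f (y + 1)) y
    else (fun y => f y + p * f (y + 1)) (y - 1))) (fun z _ => ?_) h1
  have a1 := hm z
  have a2 := hw z
  have a3 := hf z
  have a4 := hf (z + 1)
  have a5 := hf (z - 1)
  have a6 := hf (z - 1 + 1)
  show 0 ≤ m z * wk z * (if z < q then f z + p * f (z + 1) else f (z - 1) + p * f (z - 1 + 1))
  split_ifs <;> positivity

/-- The term of the right neighbour in the total `rz`. -/
theorem rz_right (hp : 0 < p) (hw : ∀ y, 0 < wk y) (hf : ∀ y, 0 < f y) (hm : ∀ y, 0 ≤ m y) (h1 : q ∈ Icc lo hi) :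
    m q * wk q * (f (q - 1) + p * f q) ≤ rz lo hi p wk m f q := by
  unfold rz zs
  have e : m q * wk q * (f (q - 1) + p * f q) = m q * wk q *
      (if q < q then (fun y => f y + p * f (y + 1)) q else (fun y => f y + p * f (y + 1)) (q - 1)) := by
    rw [if_neg (lt_irrefl q)]
    simp only [sub_add_cancel]
  rw [e]
  refine single_le_sum (f := fun y => m y * wk y * (if y < q then (fun y => f y + p * f (y + 1)) y
    else (fun y => f y + p * f (y + 1)) (y - 1))) (fun z _ => ?_) h1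
  have a1 := hm z
  have a2 := hw z
  have a3 := hf z
  have a4 := hf (z + 1)
  have a5 := hf (z - 1)
  have a6 := hf (z - 1 + 1)
  show 0 ≤ m z * wk z * (if z < q then f z + p * f (z + 1) else f (z - 1) + p * f (z - 1 + 1))
  split_ifs <;> positivity

/-- The term of the cut in the total `rt`. -/
theorem rt_cut (hp : 0 < p) (hw : ∀ y, 0 < wk y) (hf : ∀ y, 0 < f y) (hm : ∀ y, 0 ≤ m y) (h1 : q ∈ Icc lo hi) :
    (wk q * m q + p * (wk (q - 1) * m (q - 1))) * f (q - 1) ≤ rt lo hi p wk m f q := by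
  unfold rt cut
  have e : (wk q * m q + p * (wk (q - 1) * m (q - 1))) * f (q - 1) =
      (wk q * m q + p * (wk (q - 1) * m (q - 1))) * (if q < q then f q else f (q - 1)) := by
    rw [if_neg (lt_irrefl q)]
  rw [e]
  refine single_le_sum (f := fun y => (wk y * m y + p * (wk (y - 1) * m (y - 1))) * (if y < q then f y else f (y - 1)))
    (fun z _ => ?_) h1
  have a1 := hm z
  have a2 := hw z
  have a3 := hf z
  have a5 := hf (z - 1)
  have a6 := hm (z - 1)
  have a7 := hw (z - 1)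
  show 0 ≤ (wk z * m z + p * (wk (z - 1) * m (z - 1))) * (if z < q then f z else f (z - 1))
  split_ifs <;> positivity

/-- The terms of the total mass. -/
theorem tm_term (hp : 0 < p) (hw : ∀ y, 0 < wk y) (hf : ∀ y, 0 < f y) (hm : ∀ y, 0 ≤ m y) {z : ℤ} (h1 : z ∈ Icc lo hi) :
    m z * wk z * (f z + p * f (z + 1)) ≤ tm lo hi p wk m f := by
  unfold tm
  refine single_le_sum (f := fun y => m y * wk y * (f y + p * f (y + 1))) (fun z _ => ?_) h1
  have a1 := hm z
  have a2 := hw z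
  have a3 := hf z
  have a4 := hf (z + 1)
  show 0 ≤ m z * wk z * (f z + p * f (z + 1))
  positivity

/-! ### The perturbation theorems -/

theorem quo_w {A A' Z Z' w kap e : ℝ} (hw : 0 < w) (hk : 1 ≤ kap * w) (hZ' : 0 < Z') (h1 : w * |A - A'| ≤ e * Z')
    (h2 : |Z - Z'| ≤ e * Z') (he : e ≤ 1 / 2) (hA : 0 ≤ A') (hA' : w * A' ≤ Z') : |A / Z - A' / Z'| ≤ 4 * (kap * e) := by
  have hk0 : 0 < kap := by
    by_contra hc
    have : kap * w ≤ 0 := mul_nonpos_of_nonpos_of_nonneg (by linarith) hw.le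
    linarith
  refine quo_close hZ' ?_ h2 he hA ?_
  · have k1 : 1 * |A - A'| ≤ kap * w * |A - A'| := mul_le_mul_of_nonneg_right hk (abs_nonneg _)
    have k2 := mul_le_mul_of_nonneg_left h1 hk0.le
    linarith
  · have k1 : 1 * A' ≤ kap * w * A' := mul_le_mul_of_nonneg_right hk hA
    have k2 := mul_le_mul_of_nonneg_left hA' hk0.le
    linarith

theorem prod_close {a a' b b' e e' : ℝ} (h1 : |a - a'| ≤ e) (h2 : |b - b'| ≤ e') (hb : 0 ≤ b) (hb1 : b ≤ 1) (ha : 0 ≤ a')
    (ha1 : a' ≤ 1) : |a * b - a' * b'| ≤ e + e' := by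
  have e1 : a * b - a' * b' = (a - a') * b + a' * (b - b') := by ring
  rw [e1]
  refine (abs_add_le _ _).trans ?_
  rw [abs_mul, abs_mul, abs_of_nonneg hb, abs_of_nonneg ha]
  have k1 := mul_le_mul h1 hb1 hb ((abs_nonneg _).trans h1)
  have k2 := mul_le_mul ha1 h2 (abs_nonneg _) zero_le_one
  linarith

theorem low_of {x u v c : ℝ} (hx : 0 ≤ x) (h1 : x * u ≤ 1) (h2 : c * u ≤ v) (hc : c ≤ 1) : c ≤ 1 + x * (v - u) := by
  have k1 := mul_le_mul_of_nonneg_left h2 hx
  have k2 : 0 ≤ (1 - c) * (1 - x * u) := mul_nonneg (by linarith) (by linarith)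
  have k3 : (1 - c) * (1 - x * u) = 1 - c - x * u + x * (c * u) := by ring
  rw [mul_sub]
  linarith

theorem le_kap {x w kap : ℝ} (h1 : 1 ≤ kap * w) (hk : 0 < kap) (hx : 0 ≤ x) (h2 : x * w ≤ 1) : x ≤ kap := by
  have i1 := mul_le_mul_of_nonneg_left h1 hx
  have i2 := mul_le_mul_of_nonneg_left h2 hk.le
  have i3 : x * (kap * w) = kap * (x * w) := by ring
  linarith

variable {ml' mr' : ℤ → ℝ} {kap eta T1 T2 : ℝ}

/-- **The gain part is stable.** -/
theorem ctg_near (hp : 0 < p) (hw : ∀ y, 0 < wk y) (hf : ∀ y, 0 < f y) (hf' : ∀ y, 0 < f' y)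
    (R : Reg lo hi wk f q kap) (h1 : Nr lo hi p wk ml f ml' f' q eta T1) (h2 : Nr lo hi p wk mr f mr' f' q eta T2)
    (hT : 0 < T1 + T2) (he : (1 + p) * eta ≤ 1 / 2) :
    |ctg lo hi p wk ml mr f q - ctg lo hi p wk ml' mr' f' q| ≤ 88 * (1 + p) * kap ^ 8 * eta := by
  have H := h1.add hw h2
  have hZ' : 0 < rz lo hi p wk (fun y => ml' y + mr' y) f' q := lt_of_lt_of_le hT H.z
  have hd1 := h1.d
  have hd2 := h2.d
  have hdd := H.d
  have heta : 0 ≤ eta := by
    by_contra hc
    have := ds_nonneg (lo := lo) (hi := hi) (m := fun y => ml y + mr y) (f := f) (m' := fun y => ml' y + mr' y) (f' := f') hw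
    have : eta * (T1 + T2) < 0 := mul_neg_of_neg_of_pos (by linarith) hT
    linarith
  have hp1 : 0 ≤ 1 + p := by linarith
  have zz : |rz lo hi p wk (fun y => ml y + mr y) f q - rz lo hi p wk (fun y => ml' y + mr' y) f' q| ≤
      (1 + p) * eta * rz lo hi p wk (fun y => ml' y + mr' y) f' q := by
    refine (rz_ds hp hw).trans ?_
    have k1 := mul_le_mul_of_nonneg_left hdd hp1
    have k2 : (1 + p) * eta * (T1 + T2) ≤ (1 + p) * eta * rz lo hi p wk (fun y => ml' y + mr' y) f' q :=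
      mul_le_mul_of_nonneg_left H.z (by positivity)
    linarith
  set Z := rz lo hi p wk (fun y => ml y + mr y) f q with hZdef
  set Z' := rz lo hi p wk (fun y => ml' y + mr' y) f' q with hZdef'
  have hZ0 : 0 < Z := by
    have k1 := (abs_le.1 zz).1
    have k2 : (1 + p) * eta * Z' ≤ 1 / 2 * Z' := mul_le_mul_of_nonneg_right he hZ'.le
    linarith
  have k1 := R.k1
  have w1 := hw (q - 1)
  have w2 := hw q
  have fa := hf (q - 1)
  have fb := hf q
  have fa' := hf' (q - 1)
  have fb' := hf' q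
  set G := f (q - 1) + p * f q with hG
  set G' := f' (q - 1) + p * f' q with hG'
  have G0 : 0 < G := by positivity
  have G0' : 0 < G' := by positivity
  -- left neighbour
  have nl : ∀ {u u' : ℤ → ℝ} {T : ℝ}, (∀ y, 0 ≤ u' y) → (∀ y, u' y ≤ ml' y + mr' y) → ds lo hi wk u f u' f' ≤ eta * T →
      T ≤ T1 + T2 → |G / Z * u (q - 1) - G' / Z' * u' (q - 1)| ≤ 4 * (kap * ((1 + p) * eta)) := by
    intro u u' T hu hu2 hd hT3
    have e1 : G / Z * u (q - 1) = (u (q - 1) * G) / Z := by ring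
    have e2 : G' / Z' * u' (q - 1) = (u' (q - 1) * G') / Z' := by ring
    rw [e1, e2]
    refine quo_w w1 R.wl hZ' ?_ zz he (mul_nonneg (hu _) G0'.le) ?_
    · have a1 := ds_c (m := u) (f := f) (m' := u') (f' := f') hw R.q1
      have a2 := ds_r (m := u) (f := f) (m' := u') (f' := f') hw R.q1
      rw [sub_add_cancel] at a2
      have a3 : u (q - 1) * G - u' (q - 1) * G' = (u (q - 1) * f (q - 1) - u' (q - 1) * f' (q - 1)) +
          p * (u (q - 1) * f q - u' (q - 1) * f' q) := by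
        rw [hG, hG']
        ring
      have a4 : |u (q - 1) * G - u' (q - 1) * G'| ≤ |u (q - 1) * f (q - 1) - u' (q - 1) * f' (q - 1)| +
          p * |u (q - 1) * f q - u' (q - 1) * f' q| := by
        rw [a3]
        refine (abs_add_le _ _).trans ?_
        rw [abs_mul, abs_of_pos hp]
      have a5 := mul_le_mul_of_nonneg_left a4 w1.le
      have a6 := mul_le_mul_of_nonneg_left a2 hp.le
      have a7 : eta * T ≤ eta * Z' := mul_le_mul_of_nonneg_left (hT3.trans H.z) heta
      have a8 := mul_le_mul_of_nonneg_left (hd.trans a7) hp1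
      linarith
    · have b1 := rz_left hp hw hf' H.m0' R.q1
      have b2 : u' (q - 1) * wk (q - 1) * (f' (q - 1) + p * f' q) ≤ (ml' (q - 1) + mr' (q - 1)) * wk (q - 1) * (f' (q - 1) + p * f' q) :=
        mul_le_mul_of_nonneg_right (mul_le_mul_of_nonneg_right (hu2 _) w1.le) (by positivity)
      rw [← hZdef'] at b1
      calc wk (q - 1) * (u' (q - 1) * G') = u' (q - 1) * wk (q - 1) * (f' (q - 1) + p * f' q) := by
            rw [hG']
            ring
        _ ≤ Z' := b2.trans b1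
  have nr : ∀ {u u' : ℤ → ℝ} {T : ℝ}, (∀ y, 0 ≤ u' y) → (∀ y, u' y ≤ ml' y + mr' y) → ds lo hi wk u f u' f' ≤ eta * T →
      T ≤ T1 + T2 → |G / Z * u q - G' / Z' * u' q| ≤ 4 * (kap * ((1 + p) * eta)) := by
    intro u u' T hu hu2 hd hT3
    have e1 : G / Z * u q = (u q * G) / Z := by ring
    have e2 : G' / Z' * u' q = (u' q * G') / Z' := by ring
    rw [e1, e2]
    refine quo_w w2 R.wr hZ' ?_ zz he (mul_nonneg (hu _) G0'.le) ?_
    · have a1 := ds_l (m := u) (f := f) (m' := u') (f' := f') hw R.q2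
      have a2 := ds_c (m := u) (f := f) (m' := u') (f' := f') hw R.q2
      have a3 : u q * G - u' q * G' = (u q * f (q - 1) - u' q * f' (q - 1)) + p * (u q * f q - u' q * f' q) := by
        rw [hG, hG']
        ring
      have a4 : |u q * G - u' q * G'| ≤ |u q * f (q - 1) - u' q * f' (q - 1)| + p * |u q * f q - u' q * f' q| := by
        rw [a3]
        refine (abs_add_le _ _).trans ?_
        rw [abs_mul, abs_of_pos hp]
      have a5 := mul_le_mul_of_nonneg_left a4 w2.le
      have a6 := mul_le_mul_of_nonneg_left a2 hp.le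
      have a7 : eta * T ≤ eta * Z' := mul_le_mul_of_nonneg_left (hT3.trans H.z) heta
      have a8 := mul_le_mul_of_nonneg_left (hd.trans a7) hp1
      linarith
    · have b1 := rz_right hp hw hf' H.m0' R.q2
      have b2 : u' q * wk q * (f' (q - 1) + p * f' q) ≤ (ml' q + mr' q) * wk q * (f' (q - 1) + p * f' q) :=
        mul_le_mul_of_nonneg_right (mul_le_mul_of_nonneg_right (hu2 _) w2.le) (by positivity)
      rw [← hZdef'] at b1
      calc wk q * (u' q * G') = u' q * wk q * (f' (q - 1) + p * f' q) := by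
            rw [hG']
            ring
        _ ≤ Z' := b2.trans b1
  have l1 : ∀ y, ml' y ≤ ml' y + mr' y := fun y => le_add_of_nonneg_right (h2.m0' y)
  have l2 : ∀ y, mr' y ≤ ml' y + mr' y := fun y => le_add_of_nonneg_left (h1.m0' y)
  have t1 : T1 ≤ T1 + T2 := le_add_of_nonneg_right h2.T0
  have t2 : T2 ≤ T1 + T2 := le_add_of_nonneg_left h1.T0
  have n1 := nl h1.m0' l1 hd1 t1
  have n2 := nl h2.m0' l2 hd2 t2
  have n3 := nr h1.m0' l1 hd1 t1
  have n4 := nr h2.m0' l2 hd2 t2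
  -- the numbers are admissible
  set c : ℝ := 1 / kap ^ 2 with hcdef
  have kp : 0 < kap := by linarith
  have hc0 : 0 < c := by positivity
  have hc1 : c ≤ 1 := by
    rw [hcdef, div_le_one (by positivity)]
    exact one_le_pow₀ k1
  have cw1 : c * wk q ≤ wk (q - 1) := by
    rw [hcdef, div_mul_eq_mul_div, one_mul, div_le_iff₀ (by positivity)]
    have j1 := R.wr2
    have j2 := R.wl
    have j3 := mul_le_mul_of_nonneg_left j2 kp.le
    have j4 : kap * (kap * wk (q - 1)) = wk (q - 1) * kap ^ 2 := by ring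
    linarith
  have cw2 : c * wk (q - 1) ≤ wk q := by
    rw [hcdef, div_mul_eq_mul_div, one_mul, div_le_iff₀ (by positivity)]
    have j1 := R.wl2
    have j2 := R.wr
    have j3 := mul_le_mul_of_nonneg_left j2 kp.le
    have j4 : kap * (kap * wk q) = wk q * kap ^ 2 := by ring
    linarith
  have num : ∀ {u v g : ℤ → ℝ} {Y : ℝ}, (∀ y, 0 < g y) → (∀ y, 0 ≤ u y) → (∀ y, 0 ≤ v y) → 0 < Y →
      rz lo hi p wk (fun y => u y + v y) g q = Y →
      Num ((g (q - 1) + p * g q) / Y * u (q - 1)) ((g (q - 1) + p * g q) / Y * v (q - 1)) ((g (q - 1) + p * g q) / Y * u q)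
        ((g (q - 1) + p * g q) / Y * v q) (wk (q - 1) - wk q) c ∧
      (g (q - 1) + p * g q) / Y * u (q - 1) + (g (q - 1) + p * g q) / Y * v (q - 1) ≤ kap ∧
      (g (q - 1) + p * g q) / Y * u q + (g (q - 1) + p * g q) / Y * v q ≤ kap := by
    intro u v g Y hg hu hv hY hYe
    have j1 := hg (q - 1)
    have j2 := hg q
    have j3 := hu (q - 1)
    have j4 := hv (q - 1)
    have j5 := hu q
    have j6 := hv q
    have s1 := rz_left hp hw hg (fun y => add_nonneg (hu y) (hv y)) R.q1 (lo := lo) (hi := hi)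
    have s2 := rz_right hp hw hg (fun y => add_nonneg (hu y) (hv y)) R.q2 (lo := lo) (hi := hi)
    rw [hYe] at s1 s2
    have e1 : (g (q - 1) + p * g q) / Y * u (q - 1) + (g (q - 1) + p * g q) / Y * v (q - 1) =
        (u (q - 1) + v (q - 1)) * (g (q - 1) + p * g q) / Y := by ring
    have e2 : (g (q - 1) + p * g q) / Y * u q + (g (q - 1) + p * g q) / Y * v q = (u q + v q) * (g (q - 1) + p * g q) / Y := by
      ring
    have r1 : (u (q - 1) + v (q - 1)) * (g (q - 1) + p * g q) / Y * wk (q - 1) ≤ 1 := by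
      rw [div_mul_eq_mul_div, div_le_one hY]
      linarith
    have r2 : (u q + v q) * (g (q - 1) + p * g q) / Y * wk q ≤ 1 := by
      rw [div_mul_eq_mul_div, div_le_one hY]
      linarith
    have x0 : 0 ≤ (u (q - 1) + v (q - 1)) * (g (q - 1) + p * g q) / Y := by positivity
    have y0 : 0 ≤ (u q + v q) * (g (q - 1) + p * g q) / Y := by positivity
    refine ⟨⟨by positivity, by positivity, by positivity, by positivity, ?_, ?_⟩, ?_, ?_⟩
    · rw [e2]
      exact low_of y0 r2 cw1 hc1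
    · rw [e1]
      have := low_of x0 r1 cw2 hc1
      linarith
    · rw [e1]
      exact le_kap R.wl kp x0 r1
    · rw [e2]
      exact le_kap R.wr kp y0 r2
  have N1 := num hf h1.m0 h2.m0 hZ0 hZdef.symm
  have N2 := num hf' h1.m0' h2.m0' hZ' hZdef'.symm
  have key := pg_pert hc0 N1.1 N2.1 n1 n2 n3 n4 N1.2.1 N1.2.2
  have hdif : |wk (q - 1) - wk q| ≤ kap := by
    rw [abs_le]
    constructor
    · have := R.wr2
      linarith
    · have := R.wl2
      linarith
  have e9 : |ctg lo hi p wk ml mr f q - ctg lo hi p wk ml' mr' f' q| ≤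
      4 * (kap * ((1 + p) * eta)) * (18 * |wk (q - 1) - wk q| / c + 4 * kap * (wk (q - 1) - wk q) ^ 2 / c ^ 2) := key
  refine e9.trans ?_
  have k2 : (1 : ℝ) ≤ kap ^ 2 := one_le_pow₀ k1
  have k4 : (1 : ℝ) ≤ kap ^ 4 := one_le_pow₀ k1
  have d1 : 18 * |wk (q - 1) - wk q| / c ≤ 18 * kap ^ 7 := by
    rw [hcdef, div_div_eq_mul_div, div_one]
    have : |wk (q - 1) - wk q| * kap ^ 2 ≤ kap * kap ^ 2 := mul_le_mul_of_nonneg_right hdif (by positivity)
    have h3 : kap * kap ^ 2 ≤ kap * kap ^ 2 * kap ^ 4 := le_mul_of_one_le_right (by positivity) k4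
    have h4 : kap * kap ^ 2 * kap ^ 4 = kap ^ 7 := by ring
    linarith
  have d2 : 4 * kap * (wk (q - 1) - wk q) ^ 2 / c ^ 2 ≤ 4 * kap ^ 7 := by
    have h5 : (wk (q - 1) - wk q) ^ 2 ≤ kap ^ 2 := by
      rw [← sq_abs]
      exact pow_le_pow_left₀ (abs_nonneg _) hdif 2
    have h6 : c ^ 2 = 1 / kap ^ 4 := by
      rw [hcdef]
      field_simp
    rw [h6, div_div_eq_mul_div, div_one]
    have h7 : 4 * kap * (wk (q - 1) - wk q) ^ 2 * kap ^ 4 ≤ 4 * kap * kap ^ 2 * kap ^ 4 :=
      mul_le_mul_of_nonneg_right (mul_le_mul_of_nonneg_left h5 (by positivity)) (by positivity)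
    have h8 : 4 * kap * kap ^ 2 * kap ^ 4 = 4 * kap ^ 7 := by ring
    linarith
  calc 4 * (kap * ((1 + p) * eta)) * (18 * |wk (q - 1) - wk q| / c + 4 * kap * (wk (q - 1) - wk q) ^ 2 / c ^ 2)
      ≤ 4 * (kap * ((1 + p) * eta)) * (18 * kap ^ 7 + 4 * kap ^ 7) :=
        mul_le_mul_of_nonneg_left (add_le_add d1 d2) (by positivity)
    _ = 88 * (1 + p) * kap ^ 8 * eta := by ring

/-- **The loss part is stable.** -/
theorem ctl_near (hp : 0 < p) (hw : ∀ y, 0 < wk y) (hf : ∀ y, 0 < f y) (hf' : ∀ y, 0 < f' y)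
    (R : Reg lo hi wk f q kap) (R' : Reg lo hi wk f' q kap) (h1 : Nr lo hi p wk ml f ml' f' q eta T1)
    (h2 : Nr lo hi p wk mr f mr' f' q eta T2) (hT : 0 < T1 + T2) (he : (1 + p) * eta ≤ 1 / 2) :
    |ctl lo hi p wk ml mr f q - ctl lo hi p wk ml' mr' f' q| ≤ 88 * (1 + p) * kap ^ 3 * eta := by
  have H := h1.add hw h2
  have hZ' : 0 < rt lo hi p wk (fun y => ml' y + mr' y) f' q := lt_of_lt_of_le hT H.t
  have hd1 := h1.d
  have hd2 := h2.d
  have hdd := H.d
  have heta : 0 ≤ eta := by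
    by_contra hc
    have := ds_nonneg (lo := lo) (hi := hi) (m := fun y => ml y + mr y) (f := f) (m' := fun y => ml' y + mr' y) (f' := f') hw
    have : eta * (T1 + T2) < 0 := mul_neg_of_neg_of_pos (by linarith) hT
    linarith
  have hp1 : 0 ≤ 1 + p := by linarith
  have zz : |rt lo hi p wk (fun y => ml y + mr y) f q - rt lo hi p wk (fun y => ml' y + mr' y) f' q| ≤
      (1 + p) * eta * rt lo hi p wk (fun y => ml' y + mr' y) f' q := by
    refine (rt_ds hp hw H.l0 H.l0').trans ?_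
    have k1 := mul_le_mul_of_nonneg_left hdd hp1
    have k2 : (1 + p) * eta * (T1 + T2) ≤ (1 + p) * eta * rt lo hi p wk (fun y => ml' y + mr' y) f' q :=
      mul_le_mul_of_nonneg_left H.t (by positivity)
    linarith
  set Z := rt lo hi p wk (fun y => ml y + mr y) f q with hZdef
  set Z' := rt lo hi p wk (fun y => ml' y + mr' y) f' q with hZdef'
  have hZ0 : 0 < Z := by
    have k1 := (abs_le.1 zz).1
    have k2 : (1 + p) * eta * Z' ≤ 1 / 2 * Z' := mul_le_mul_of_nonneg_right he hZ'.le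
    linarith
  have k1 := R.k1
  have kp : 0 < kap := by linarith
  have w1 := hw (q - 1)
  have w2 := hw q
  have fa := hf (q - 1)
  have fb := hf q
  have fa' := hf' (q - 1)
  have fb' := hf' q
  have s1 := rt_cut hp hw hf (fun y => add_nonneg (h1.m0 y) (h2.m0 y)) R.q2 (lo := lo)
  have s2 := rt_cut hp hw hf' (fun y => add_nonneg (h1.m0' y) (h2.m0' y)) R.q2 (lo := lo)
  rw [← hZdef] at s1
  rw [← hZdef'] at s2
  -- arriving from the left
  have nl : ∀ {u u' : ℤ → ℝ} {T : ℝ}, (∀ y, 0 ≤ u' y) → (∀ y, u' y ≤ ml' y + mr' y) → ds lo hi wk u f u' f' ≤ eta * T →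
      T ≤ T1 + T2 → |f (q - 1) / Z * (p * wk (q - 1)) * u (q - 1) - f' (q - 1) / Z' * (p * wk (q - 1)) * u' (q - 1)| ≤
        4 * (1 * ((1 + p) * eta)) := by
    intro u u' T hu hu2 hd hT3
    have e1 : f (q - 1) / Z * (p * wk (q - 1)) * u (q - 1) = (p * wk (q - 1) * (u (q - 1) * f (q - 1))) / Z := by ring
    have e2 : f' (q - 1) / Z' * (p * wk (q - 1)) * u' (q - 1) = (p * wk (q - 1) * (u' (q - 1) * f' (q - 1))) / Z' := by ring
    have j0 := hu (q - 1)
    rw [e1, e2]
    refine quo_close hZ' ?_ zz he (by positivity) ?_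
    · have a1 := ds_c (m := u) (f := f) (m' := u') (f' := f') hw R.q1
      have a3 : p * wk (q - 1) * (u (q - 1) * f (q - 1)) - p * wk (q - 1) * (u' (q - 1) * f' (q - 1)) =
          p * (wk (q - 1) * (u (q - 1) * f (q - 1) - u' (q - 1) * f' (q - 1))) := by ring
      rw [a3, abs_mul, abs_mul, abs_of_pos hp, abs_of_pos w1]
      have a6 := mul_le_mul_of_nonneg_left a1 hp.le
      have a7 : eta * T ≤ eta * Z' := mul_le_mul_of_nonneg_left (hT3.trans H.t) heta
      have a8 := mul_le_mul_of_nonneg_left (hd.trans a7) hp1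
      have a9 := ds_nonneg (lo := lo) (hi := hi) (m := u) (f := f) (m' := u') (f' := f') hw
      linarith
    · have b2 : u' (q - 1) ≤ ml' (q - 1) + mr' (q - 1) := hu2 _
      have b3 : p * wk (q - 1) * (u' (q - 1) * f' (q - 1)) ≤ p * wk (q - 1) * ((ml' (q - 1) + mr' (q - 1)) * f' (q - 1)) :=
        mul_le_mul_of_nonneg_left (mul_le_mul_of_nonneg_right b2 fa'.le) (by positivity)
      have b4 : 0 ≤ wk q * (ml' q + mr' q) * f' (q - 1) := by
        have := h1.m0' q
        have := h2.m0' q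
        positivity
      have b5 : (wk q * (ml' q + mr' q) + p * (wk (q - 1) * (ml' (q - 1) + mr' (q - 1)))) * f' (q - 1) =
          wk q * (ml' q + mr' q) * f' (q - 1) + p * wk (q - 1) * ((ml' (q - 1) + mr' (q - 1)) * f' (q - 1)) := by ring
      linarith
  have nr : ∀ {u u' : ℤ → ℝ} {T : ℝ}, (∀ y, 0 ≤ u' y) → (∀ y, u' y ≤ ml' y + mr' y) → ds lo hi wk u f u' f' ≤ eta * T →
      T ≤ T1 + T2 → |f (q - 1) / Z * wk q * u q - f' (q - 1) / Z' * wk q * u' q| ≤ 4 * (1 * ((1 + p) * eta)) := by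
    intro u u' T hu hu2 hd hT3
    have e1 : f (q - 1) / Z * wk q * u q = (wk q * (u q * f (q - 1))) / Z := by ring
    have e2 : f' (q - 1) / Z' * wk q * u' q = (wk q * (u' q * f' (q - 1))) / Z' := by ring
    have j0 := hu q
    rw [e1, e2]
    refine quo_close hZ' ?_ zz he (by positivity) ?_
    · have a1 := ds_l (m := u) (f := f) (m' := u') (f' := f') hw R.q2
      have a3 : wk q * (u q * f (q - 1)) - wk q * (u' q * f' (q - 1)) = wk q * (u q * f (q - 1) - u' q * f' (q - 1)) := by ring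
      rw [a3, abs_mul, abs_of_pos w2]
      have a7 : eta * T ≤ eta * Z' := mul_le_mul_of_nonneg_left (hT3.trans H.t) heta
      have a8 := mul_le_mul_of_nonneg_left (hd.trans a7) hp.le
      have a9 := ds_nonneg (lo := lo) (hi := hi) (m := u) (f := f) (m' := u') (f' := f') hw
      have a10 := mul_nonneg hp.le a9
      linarith
    · have b2 : u' q ≤ ml' q + mr' q := hu2 _
      have b3 : wk q * (u' q * f' (q - 1)) ≤ wk q * ((ml' q + mr' q) * f' (q - 1)) :=
        mul_le_mul_of_nonneg_left (mul_le_mul_of_nonneg_right b2 fa'.le) (by positivity)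
      have b4 : 0 ≤ p * (wk (q - 1) * (ml' (q - 1) + mr' (q - 1))) * f' (q - 1) := by
        have := h1.m0' (q - 1)
        have := h2.m0' (q - 1)
        positivity
      have b5 : (wk q * (ml' q + mr' q) + p * (wk (q - 1) * (ml' (q - 1) + mr' (q - 1)))) * f' (q - 1) =
          wk q * ((ml' q + mr' q) * f' (q - 1)) + p * (wk (q - 1) * (ml' (q - 1) + mr' (q - 1))) * f' (q - 1) := by ring
      linarith
  have l1 : ∀ y, ml' y ≤ ml' y + mr' y := fun y => le_add_of_nonneg_right (h2.m0' y)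
  have l2 : ∀ y, mr' y ≤ ml' y + mr' y := fun y => le_add_of_nonneg_left (h1.m0' y)
  have t1 : T1 ≤ T1 + T2 := le_add_of_nonneg_right h2.T0
  have t2 : T2 ≤ T1 + T2 := le_add_of_nonneg_left h1.T0
  have n1 := nl h1.m0' l1 hd1 t1
  have n2 := nl h2.m0' l2 hd2 t2
  have n3 := nr h1.m0' l1 hd1 t1
  have n4 := nr h2.m0' l2 hd2 t2
  -- the arriving mass times the profile on the right
  have n5 : |(wk q * (ml q + mr q) + p * (wk (q - 1) * (ml (q - 1) + mr (q - 1)))) * f q / Z -
      (wk q * (ml' q + mr' q) + p * (wk (q - 1) * (ml' (q - 1) + mr' (q - 1)))) * f' q / Z'| ≤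
        4 * (kap * ((1 + p) * eta)) := by
    have j1 := h1.m0' q
    have j2 := h2.m0' q
    have j3 := h1.m0' (q - 1)
    have j4 := h2.m0' (q - 1)
    refine quo_close hZ' ?_ zz he (by positivity) ?_
    · have a1 := ds_c (m := fun y => ml y + mr y) (f := f) (m' := fun y => ml' y + mr' y) (f' := f') hw R.q2
      have a2 := ds_r (m := fun y => ml y + mr y) (f := f) (m' := fun y => ml' y + mr' y) (f' := f') hw R.q1
      simp only [sub_add_cancel] at a2
      have a3 : (wk q * (ml q + mr q) + p * (wk (q - 1) * (ml (q - 1) + mr (q - 1)))) * f q -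
          (wk q * (ml' q + mr' q) + p * (wk (q - 1) * (ml' (q - 1) + mr' (q - 1)))) * f' q =
          wk q * ((ml q + mr q) * f q - (ml' q + mr' q) * f' q) +
          p * (wk (q - 1) * ((ml (q - 1) + mr (q - 1)) * f q - (ml' (q - 1) + mr' (q - 1)) * f' q)) := by ring
      have a4 : |wk q * ((ml q + mr q) * f q - (ml' q + mr' q) * f' q) +
          p * (wk (q - 1) * ((ml (q - 1) + mr (q - 1)) * f q - (ml' (q - 1) + mr' (q - 1)) * f' q))| ≤
          wk q * |(ml q + mr q) * f q - (ml' q + mr' q) * f' q| +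
          p * (wk (q - 1) * |(ml (q - 1) + mr (q - 1)) * f q - (ml' (q - 1) + mr' (q - 1)) * f' q|) := by
        refine (abs_add_le _ _).trans ?_
        rw [abs_mul, abs_mul, abs_mul, abs_of_pos hp, abs_of_pos w1, abs_of_pos w2]
      rw [a3]
      have a6 := mul_le_mul_of_nonneg_left a2 hp.le
      have a7 : eta * (T1 + T2) ≤ eta * Z' := mul_le_mul_of_nonneg_left H.t heta
      have a8 := mul_le_mul_of_nonneg_left (hdd.trans a7) hp1
      have a9 : 1 * ((1 + p) * eta * Z') ≤ kap * ((1 + p) * eta * Z') := mul_le_mul_of_nonneg_right k1 (by positivity)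
      linarith
    · have b6 := mul_le_mul_of_nonneg_left R'.fr
        (show 0 ≤ wk q * (ml' q + mr' q) + p * (wk (q - 1) * (ml' (q - 1) + mr' (q - 1))) by positivity)
      have b7 := mul_le_mul_of_nonneg_left s2 kp.le
      have b8 : (wk q * (ml' q + mr' q) + p * (wk (q - 1) * (ml' (q - 1) + mr' (q - 1)))) * (kap * f' (q - 1)) =
          kap * ((wk q * (ml' q + mr' q) + p * (wk (q - 1) * (ml' (q - 1) + mr' (q - 1)))) * f' (q - 1)) := by ring
      linarith
  -- the sums of the numbers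
  have sm : ∀ {u v g : ℤ → ℝ} {Y : ℝ}, 0 < Y → 0 < g (q - 1) →
      (g (q - 1) / Y * (p * wk (q - 1)) * u (q - 1) + g (q - 1) / Y * (p * wk (q - 1)) * v (q - 1)) +
        (g (q - 1) / Y * wk q * u q + g (q - 1) / Y * wk q * v q) =
        (wk q * (u q + v q) + p * (wk (q - 1) * (u (q - 1) + v (q - 1)))) * g (q - 1) / Y := by
    intro u v g Y _ _
    ring
  have sv : ∀ {u v g : ℤ → ℝ} {Y : ℝ}, 0 < Y → 0 < g (q - 1) →
      ((g (q - 1) / Y * (p * wk (q - 1)) * u (q - 1) + g (q - 1) / Y * (p * wk (q - 1)) * v (q - 1)) +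
        (g (q - 1) / Y * wk q * u q + g (q - 1) / Y * wk q * v q)) * (g q / g (q - 1)) =
        (wk q * (u q + v q) + p * (wk (q - 1) * (u (q - 1) + v (q - 1)))) * g q / Y := by
    intro u v g Y hY hg
    field_simp
    ring
  have hk1 : (1 : ℝ) / kap ≤ 1 := by
    rw [div_le_one kp]
    exact k1
  have vlow : ∀ {g : ℤ → ℝ}, 0 < g (q - 1) → g (q - 1) ≤ kap * g q → 1 / kap * 1 ≤ g q / g (q - 1) := by
    intro g hg h
    rw [mul_one, le_div_iff₀ hg, div_mul_eq_mul_div, one_mul, div_le_iff₀ kp]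
    linarith
  have q1 : 1 / kap ≤ 1 + (wk q * (ml q + mr q) + p * (wk (q - 1) * (ml (q - 1) + mr (q - 1)))) * f (q - 1) / Z *
      (f q / f (q - 1) - 1) := by
    refine low_of ?_ ?_ (vlow fa R.fl) hk1
    · have := h1.m0 q
      have := h2.m0 q
      have := h1.m0 (q - 1)
      have := h2.m0 (q - 1)
      positivity
    · rw [mul_one, div_le_one hZ0]
      exact s1
  have q2 : 1 / kap ≤ 1 + (wk q * (ml' q + mr' q) + p * (wk (q - 1) * (ml' (q - 1) + mr' (q - 1)))) * f' (q - 1) / Z' *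
      (f' q / f' (q - 1) - 1) := by
    refine low_of ?_ ?_ (vlow fa' R'.fl) hk1
    · have := h1.m0' q
      have := h2.m0' q
      have := h1.m0' (q - 1)
      have := h2.m0' (q - 1)
      positivity
    · rw [mul_one, div_le_one hZ']
      exact s2
  have hV : |f q / f (q - 1) - 1| ≤ kap := by
    have v1 : 0 < f q / f (q - 1) := div_pos fb fa
    have v2 : f q / f (q - 1) ≤ kap := by
      rw [div_le_iff₀ fa]
      exact R.fr
    rw [abs_le]
    constructor <;> linarith
  have u1 := h1.m0 q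
  have u2 := h2.m0 q
  have u3 := h1.m0 (q - 1)
  have u4 := h2.m0 (q - 1)
  have u1' := h1.m0' q
  have u2' := h2.m0' q
  have u3' := h1.m0' (q - 1)
  have u4' := h2.m0' (q - 1)
  have key := pq_pert2 (a := f (q - 1) / Z * (p * wk (q - 1)) * ml (q - 1)) (b := f (q - 1) / Z * (p * wk (q - 1)) * mr (q - 1))
    (a2 := f (q - 1) / Z * wk q * ml q) (b2 := f (q - 1) / Z * wk q * mr q)
    (a' := f' (q - 1) / Z' * (p * wk (q - 1)) * ml' (q - 1)) (b' := f' (q - 1) / Z' * (p * wk (q - 1)) * mr' (q - 1))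
    (a2' := f' (q - 1) / Z' * wk q * ml' q) (b2' := f' (q - 1) / Z' * wk q * mr' q)
    (v := f q / f (q - 1)) (v' := f' q / f' (q - 1)) (c := 1 / kap) (e := 4 * (1 * ((1 + p) * eta)))
    (e3 := 4 * (kap * ((1 + p) * eta))) (V := kap) (by positivity) hk1 (by positivity) (by positivity) (by positivity)
    (by positivity) (by positivity) (by positivity) (by positivity) (by positivity) n1 n2 n3 n4
    (by rw [sv hZ0 fa, sv hZ' fa']; exact n5) hV
    (by rw [sm hZ0 fa, div_le_one hZ0]; exact s1) (by rw [sm hZ0 fa]; exact q1) (by rw [sm hZ' fa']; exact q2)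
  have e9 : |ctl lo hi p wk ml mr f q - ctl lo hi p wk ml' mr' f' q| ≤
      (4 * (1 * ((1 + p) * eta)) * (8 * kap + 4 * kap ^ 2 + 8) + 2 * (4 * (kap * ((1 + p) * eta)))) / (1 / kap) := key
  refine e9.trans ?_
  rw [div_div_eq_mul_div, div_one]
  have b1 : kap ≤ kap ^ 2 := by
    rw [pow_two]
    exact le_mul_of_one_le_left kp.le k1
  have b2 : (1 : ℝ) ≤ kap ^ 2 := one_le_pow₀ k1
  have b3 : 4 * (1 * ((1 + p) * eta)) * (8 * kap + 4 * kap ^ 2 + 8) + 2 * (4 * (kap * ((1 + p) * eta))) ≤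
      88 * (1 + p) * eta * kap ^ 2 := by
    have b4 : 0 ≤ (1 + p) * eta := by positivity
    have b5 : (1 + p) * eta * (40 * kap + 16 * kap ^ 2 + 32) ≤ (1 + p) * eta * (88 * kap ^ 2) :=
      mul_le_mul_of_nonneg_left (by linarith) b4
    linarith
  calc (4 * (1 * ((1 + p) * eta)) * (8 * kap + 4 * kap ^ 2 + 8) + 2 * (4 * (kap * ((1 + p) * eta)))) * kap
      ≤ 88 * (1 + p) * eta * kap ^ 2 * kap := mul_le_mul_of_nonneg_right b3 kp.le
    _ = 88 * (1 + p) * kap ^ 3 * eta := by ring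

/-- **The contact functional is stable.** -/
theorem ct_near (hp : 0 < p) (hw : ∀ y, 0 < wk y) (hf : ∀ y, 0 < f y) (hf' : ∀ y, 0 < f' y)
    (R : Reg lo hi wk f q kap) (R' : Reg lo hi wk f' q kap) (h1 : Nr lo hi p wk ml f ml' f' q eta T1)
    (h2 : Nr lo hi p wk mr f mr' f' q eta T2) (hT : 0 < T1 + T2) (heta : 0 ≤ eta) (he : (1 + p) * eta ≤ 1 / 2) :
    |ct lo hi p wk ml mr f q - ct lo hi p wk ml' mr' f' q| ≤ 176 * (1 + p) * kap ^ 8 * eta := by
  have a1 := ctg_near hp hw hf hf' R h1 h2 hT he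
  have a2 := ctl_near hp hw hf hf' R R' h1 h2 hT he
  have k1 := R.k1
  have kp : 0 < kap := by linarith
  have a3 : kap ^ 3 ≤ kap ^ 8 := pow_le_pow_right₀ k1 (by norm_num)
  have a4 : 88 * (1 + p) * kap ^ 3 * eta ≤ 88 * (1 + p) * kap ^ 8 * eta :=
    mul_le_mul_of_nonneg_right (mul_le_mul_of_nonneg_left a3 (by positivity)) heta
  have e : ct lo hi p wk ml mr f q - ct lo hi p wk ml' mr' f' q =
      (ctg lo hi p wk ml mr f q - ctg lo hi p wk ml' mr' f' q) - (ctl lo hi p wk ml mr f q - ctl lo hi p wk ml' mr' f' q) := by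
    unfold ct
    ring
  rw [e]
  refine (abs_sub _ _).trans ?_
  linarith

/-- **The meeting functional is stable.** -/
theorem pt_near (hp : 0 < p) (hw : ∀ y, 0 < wk y) (hf : ∀ y, 0 < f y) (hf' : ∀ y, 0 < f' y)
    (hq1 : q - 1 ∈ Icc lo hi) (hq2 : q ∈ Icc lo hi) (h1 : Nr lo hi p wk ml f ml' f' q eta T1)
    (h2 : Nr lo hi p wk mr f mr' f' q eta T2) (hT : 0 < T1 + T2) (he : (1 + p) * eta ≤ 1 / 2) :
    |pt lo hi p wk ml mr f q - pt lo hi p wk ml' mr' f' q| ≤ 16 * (1 + p) * eta := by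
  have H := h1.add hw h2
  have hZ' : 0 < tm lo hi p wk (fun y => ml' y + mr' y) f' := lt_of_lt_of_le hT H.u
  have hd1 := h1.d
  have hd2 := h2.d
  have hdd := H.d
  have heta : 0 ≤ eta := by
    by_contra hc
    have := ds_nonneg (lo := lo) (hi := hi) (m := fun y => ml y + mr y) (f := f) (m' := fun y => ml' y + mr' y) (f' := f') hw
    have : eta * (T1 + T2) < 0 := mul_neg_of_neg_of_pos (by linarith) hT
    linarith
  have hp1 : 0 ≤ 1 + p := by linarith
  have zz : |tm lo hi p wk (fun y => ml y + mr y) f - tm lo hi p wk (fun y => ml' y + mr' y) f'| ≤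
      (1 + p) * eta * tm lo hi p wk (fun y => ml' y + mr' y) f' := by
    refine (tm_ds hp hw).trans ?_
    have k1 := mul_le_mul_of_nonneg_left hdd hp1
    have k2 : (1 + p) * eta * (T1 + T2) ≤ (1 + p) * eta * tm lo hi p wk (fun y => ml' y + mr' y) f' :=
      mul_le_mul_of_nonneg_left H.u (by positivity)
    linarith
  set Z := tm lo hi p wk (fun y => ml y + mr y) f with hZdef
  set Z' := tm lo hi p wk (fun y => ml' y + mr' y) f' with hZdef'
  have hZ0 : 0 < Z := by
    have k1 := (abs_le.1 zz).1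
    have k2 : (1 + p) * eta * Z' ≤ 1 / 2 * Z' := mul_le_mul_of_nonneg_right he hZ'.le
    linarith
  have w1 := hw (q - 1)
  have w2 := hw q
  have fa := hf (q - 1)
  have fb := hf q
  have fa' := hf' (q - 1)
  have fb' := hf' q
  -- numbers at the left neighbour: p wk (q - 1) f q u (q - 1) / Z
  have nl : ∀ {u u' : ℤ → ℝ} {T : ℝ}, (∀ y, 0 ≤ u' y) → (∀ y, u' y ≤ ml' y + mr' y) → ds lo hi wk u f u' f' ≤ eta * T →
      T ≤ T1 + T2 → |p * wk (q - 1) * (u (q - 1) * f q) / Z - p * wk (q - 1) * (u' (q - 1) * f' q) / Z'| ≤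
        4 * (1 * ((1 + p) * eta)) ∧ p * wk (q - 1) * (u' (q - 1) * f' q) / Z' ≤ 1 := by
    intro u u' T hu hu2 hd hT3
    have j0 := hu (q - 1)
    have bb : p * wk (q - 1) * (u' (q - 1) * f' q) ≤ 1 * Z' := by
      have b1 := tm_term hp hw hf' H.m0' hq1
      simp only [sub_add_cancel] at b1
      have b2 : u' (q - 1) ≤ ml' (q - 1) + mr' (q - 1) := hu2 _
      have b3 : p * wk (q - 1) * (u' (q - 1) * f' q) ≤ p * wk (q - 1) * ((ml' (q - 1) + mr' (q - 1)) * f' q) :=
        mul_le_mul_of_nonneg_left (mul_le_mul_of_nonneg_right b2 fb'.le) (by positivity)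
      have b4 : 0 ≤ (ml' (q - 1) + mr' (q - 1)) * wk (q - 1) * f' (q - 1) := by
        have := h1.m0' (q - 1)
        have := h2.m0' (q - 1)
        positivity
      rw [← hZdef'] at b1
      have b5 : (ml' (q - 1) + mr' (q - 1)) * wk (q - 1) * (f' (q - 1) + p * f' q) =
          (ml' (q - 1) + mr' (q - 1)) * wk (q - 1) * f' (q - 1) + p * wk (q - 1) * ((ml' (q - 1) + mr' (q - 1)) * f' q) := by
        ring
      linarith
    refine ⟨quo_close hZ' ?_ zz he (by positivity) bb, ?_⟩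
    · have a1 := ds_r (m := u) (f := f) (m' := u') (f' := f') hw hq1
      simp only [sub_add_cancel] at a1
      have a3 : p * wk (q - 1) * (u (q - 1) * f q) - p * wk (q - 1) * (u' (q - 1) * f' q) =
          p * (wk (q - 1) * (u (q - 1) * f q - u' (q - 1) * f' q)) := by ring
      rw [a3, abs_mul, abs_mul, abs_of_pos hp, abs_of_pos w1]
      have a6 := mul_le_mul_of_nonneg_left a1 hp.le
      have a7 : eta * T ≤ eta * Z' := mul_le_mul_of_nonneg_left (hT3.trans H.u) heta
      have a8 := mul_le_mul_of_nonneg_left (hd.trans a7) hp1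
      have a9 := ds_nonneg (lo := lo) (hi := hi) (m := u) (f := f) (m' := u') (f' := f') hw
      linarith
    · rw [div_le_one hZ']
      linarith
  have nr : ∀ {u u' : ℤ → ℝ} {T : ℝ}, (∀ y, 0 ≤ u' y) → (∀ y, u' y ≤ ml' y + mr' y) → ds lo hi wk u f u' f' ≤ eta * T →
      T ≤ T1 + T2 → |wk q * (u q * f q) / Z - wk q * (u' q * f' q) / Z'| ≤ 4 * (1 * ((1 + p) * eta)) := by
    intro u u' T hu hu2 hd hT3
    have j0 := hu q
    refine quo_close hZ' ?_ zz he (by positivity) ?_
    · have a1 := ds_c (m := u) (f := f) (m' := u') (f' := f') hw hq2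
      have a3 : wk q * (u q * f q) - wk q * (u' q * f' q) = wk q * (u q * f q - u' q * f' q) := by ring
      rw [a3, abs_mul, abs_of_pos w2]
      have a7 : eta * T ≤ eta * Z' := mul_le_mul_of_nonneg_left (hT3.trans H.u) heta
      have a8 := mul_le_mul_of_nonneg_left (hd.trans a7) hp.le
      have a9 := ds_nonneg (lo := lo) (hi := hi) (m := u) (f := f) (m' := u') (f' := f') hw
      have a10 := mul_nonneg hp.le a9
      linarith
    · have b1 := tm_term hp hw hf' H.m0' hq2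
      have b2 : u' q ≤ ml' q + mr' q := hu2 _
      have b3 : wk q * (u' q * f' q) ≤ wk q * ((ml' q + mr' q) * f' q) :=
        mul_le_mul_of_nonneg_left (mul_le_mul_of_nonneg_right b2 fb'.le) (by positivity)
      have b4 : 0 ≤ (ml' q + mr' q) * wk q * (p * f' (q + 1)) := by
        have := h1.m0' q
        have := h2.m0' q
        have := hf' (q + 1)
        positivity
      rw [← hZdef'] at b1
      have b5 : (ml' q + mr' q) * wk q * (f' q + p * f' (q + 1)) =
          wk q * ((ml' q + mr' q) * f' q) + (ml' q + mr' q) * wk q * (p * f' (q + 1)) := by ring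
      linarith
  have l1 : ∀ y, ml' y ≤ ml' y + mr' y := fun y => le_add_of_nonneg_right (h2.m0' y)
  have l2 : ∀ y, mr' y ≤ ml' y + mr' y := fun y => le_add_of_nonneg_left (h1.m0' y)
  have t1 : T1 ≤ T1 + T2 := le_add_of_nonneg_right h2.T0
  have t2 : T2 ≤ T1 + T2 := le_add_of_nonneg_left h1.T0
  have n1 := nl h1.m0' l1 hd1 t1
  have n2 := nl h2.m0' l2 hd2 t2
  have n3 := nr h1.m0' l1 hd1 t1
  have n4 := nr h2.m0' l2 hd2 t2
  -- the numbers of the first system at the right neighbour are at most one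
  have le1 : ∀ {u : ℤ → ℝ}, (∀ y, 0 ≤ u y) → (∀ y, u y ≤ ml y + mr y) → 0 ≤ wk q * (u q * f q) / Z ∧ wk q * (u q * f q) / Z ≤ 1 := by
    intro u hu hu2
    have j0 := hu q
    refine ⟨by positivity, ?_⟩
    rw [div_le_one hZ0]
    have b1 := tm_term hp hw hf H.m0 hq2
    have b2 : u q ≤ ml q + mr q := hu2 _
    have b3 : wk q * (u q * f q) ≤ wk q * ((ml q + mr q) * f q) :=
      mul_le_mul_of_nonneg_left (mul_le_mul_of_nonneg_right b2 fb.le) (by positivity)
    have b4 : 0 ≤ (ml q + mr q) * wk q * (p * f (q + 1)) := by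
      have := h1.m0 q
      have := h2.m0 q
      have := hf (q + 1)
      positivity
    rw [← hZdef] at b1
    have b5 : (ml q + mr q) * wk q * (f q + p * f (q + 1)) =
        wk q * ((ml q + mr q) * f q) + (ml q + mr q) * wk q * (p * f (q + 1)) := by ring
    linarith
  have v1 := le1 h1.m0 (fun y => le_add_of_nonneg_right (h2.m0 y))
  have v2 := le1 h2.m0 (fun y => le_add_of_nonneg_left (h1.m0 y))
  have e1 : pt lo hi p wk ml mr f q = p * wk (q - 1) * (ml (q - 1) * f q) / Z * (wk q * (mr q * f q) / Z) -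
      wk q * (ml q * f q) / Z * (p * wk (q - 1) * (mr (q - 1) * f q) / Z) := by
    unfold pt
    rw [← hZdef]
    field_simp
  have e2 : pt lo hi p wk ml' mr' f' q = p * wk (q - 1) * (ml' (q - 1) * f' q) / Z' * (wk q * (mr' q * f' q) / Z') -
      wk q * (ml' q * f' q) / Z' * (p * wk (q - 1) * (mr' (q - 1) * f' q) / Z') := by
    unfold pt
    rw [← hZdef']
    field_simp
  rw [e1, e2]
  have z1 : 0 ≤ p * wk (q - 1) * (ml' (q - 1) * f' q) / Z' := by
    have := h1.m0' (q - 1)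
    positivity
  have z2 : 0 ≤ p * wk (q - 1) * (mr' (q - 1) * f' q) / Z' := by
    have := h2.m0' (q - 1)
    positivity
  have fin1 := prod_close n1.1 n4 v2.1 v2.2 z1 n1.2
  have fin2 := prod_close n2.1 n3 v1.1 v1.2 z2 n2.2
  generalize p * wk (q - 1) * (ml (q - 1) * f q) / Z = A1 at *
  generalize p * wk (q - 1) * (mr (q - 1) * f q) / Z = A2 at *
  generalize p * wk (q - 1) * (ml' (q - 1) * f' q) / Z' = A3 at *
  generalize p * wk (q - 1) * (mr' (q - 1) * f' q) / Z' = A4 at *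
  generalize wk q * (ml q * f q) / Z = B1 at *
  generalize wk q * (mr q * f q) / Z = B2 at *
  generalize wk q * (ml' q * f' q) / Z' = B3 at *
  generalize wk q * (mr' q * f' q) / Z' = B4 at *
  have e3 : A1 * B2 - B1 * A2 - (A3 * B4 - B3 * A4) = (A1 * B2 - A3 * B4) - (A2 * B1 - A4 * B3) := by ring
  rw [e3]
  refine (abs_sub _ _).trans ?_
  linarith

end

end Pool.Agent.W_7d29a1_C1.K97
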