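import Pool.Agent.W_7d29a1_C1.Fact74C
import Pool.Agent.W_7d29a1_C1.PertN97

/-!
Both halves (MP_7d29a1_pr), attractor route [C1]: FROM THE KERNELS TO THE DISTANCE OF TWO ROWS, last part. (helper74)

Rows: `c0` (seam), slab of `n1` rows, `j` rows, the row `k = c0 + n1 + j`, `n2` rows, slab of `n3` rows, the seam `c3`, `m` more rows.
`nr74` : the row `(fw l k, bw (k + 1))` is near the model row `(A1 F1 + A2 F2, K f_in)` in the sense of `K97.Nr`, for every cut `q`;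
`F_i` = kernel from the left corner of the cell `i`, `f_in` = backward masses with flat end at the seam `c3`.
-/

set_option autoImplicit false
set_option linter.unusedSectionVars false

namespace Pool.Agent.W_7d29a1_C1.F74

open Finset Pool.Agent.W_7d29a1_C1.Gini76 Pool.Agent.W_7d29a1_C1.CR76 Pool.Agent.W_7d29a1_C1.K91P
  Pool.Agent.W_7d29a1_C1.Basin76 Pool.Agent.W_7d29a1_C1.R26P
open Pool.Agent.W_7d29a1_C1.K91 (shw sum_shift zs cut)
open Pool.Agent.W_7d29a1_C1.K97 (ds Nr rz rt tm)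

noncomputable section

/-! ### Abstract rows -/

section row

variable {lo hi : ℤ} {wk m f m' f' : ℤ → ℝ} {ρ : ℝ}

/-- `∑ wk m f` over the box. -/
def U (lo hi : ℤ) (wk m f : ℤ → ℝ) : ℝ := ∑ y ∈ Icc lo hi, wk y * (m y * f y)

theorem U_nonneg (hw : ∀ y, 0 < wk y) (hm : ∀ y, 0 ≤ m y) (hf : ∀ y, 0 < f y) : 0 ≤ U lo hi wk m f :=
  sum_nonneg fun y _ => mul_nonneg (hw y).le (mul_nonneg (hm y) (hf y).le)

/-- One term of the distance. -/
theorem term_le (hw : ∀ y, 0 < wk y) (hm' : ∀ y, 0 ≤ m' y) (hf : ∀ y, 0 < f y) (y z : ℤ)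
    (h : f z ≤ ρ * f y) : wk y * |m y * f z - m' y * f' z| ≤
      ρ * (wk y * (|m y - m' y| * f y)) + wk y * (m' y * |f z - f' z|) := by
  have e : m y * f z - m' y * f' z = (m y - m' y) * f z + m' y * (f z - f' z) := by ring
  have h1 : |m y * f z - m' y * f' z| ≤ |m y - m' y| * f z + m' y * |f z - f' z| := by
    rw [e]
    refine (abs_add_le _ _).trans ?_
    rw [abs_mul, abs_mul, abs_of_pos (hf z), abs_of_nonneg (hm' y)]
  have h2 : |m y - m' y| * f z ≤ |m y - m' y| * (ρ * f y) := mul_le_mul_of_nonneg_left h (abs_nonneg _)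
  have h3 := mul_le_mul_of_nonneg_left (h1.trans (add_le_add h2 le_rfl)) (hw y).le
  linarith

/-- **The distance of two rows** : masses near in the path norm, profiles near on the window, tails of the model. -/
theorem ds_le (hw : ∀ y, 0 < wk y) (hm' : ∀ y, 0 ≤ m' y) (hf : ∀ y, 0 < f y) (hf' : ∀ y, 0 < f' y) (hρ : 1 ≤ ρ)
    (r1 : ∀ y ∈ Icc lo hi, f (y - 1) ≤ ρ * f y ∧ f (y + 1) ≤ ρ * f y)
    (r2 : ∀ y ∈ Icc lo hi, f' (y - 1) ≤ ρ * f' y ∧ f' (y + 1) ≤ ρ * f' y) {ua ub : ℤ} {κ D t1 t2 : ℝ} (hκ : 0 ≤ κ)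
    (hD : ∑ y ∈ Icc lo hi, wk y * (|m y - m' y| * f y) ≤ D)
    (hp : ∀ z, ua - 1 ≤ z → z ≤ ub + 1 → |f z - f' z| ≤ κ * f' z)
    (h1 : ∑ y ∈ (Icc lo hi).filter (fun y => ¬ (ua ≤ y ∧ y ≤ ub)), wk y * (m' y * f y) ≤ t1)
    (h2 : ∑ y ∈ (Icc lo hi).filter (fun y => ¬ (ua ≤ y ∧ y ≤ ub)), wk y * (m' y * f' y) ≤ t2) :
    ds lo hi wk m f m' f' ≤ 3 * ρ * (D + κ * U lo hi wk m' f' + t1 + t2) := by
  have ρ0 : 0 ≤ ρ := by linarith
  -- the difference of the profiles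
  have one : ∀ (e : ℤ → ℤ), (∀ y, y - 1 ≤ e y ∧ e y ≤ y + 1) → (∀ y ∈ Icc lo hi, f (e y) ≤ ρ * f y) →
      (∀ y ∈ Icc lo hi, f' (e y) ≤ ρ * f' y) →
      ∑ y ∈ Icc lo hi, wk y * |m y * f (e y) - m' y * f' (e y)| ≤ ρ * (D + κ * U lo hi wk m' f' + t1 + t2) := by
    intro e he s1 s2
    have a1 : ∑ y ∈ Icc lo hi, wk y * |m y * f (e y) - m' y * f' (e y)| ≤
        ρ * ∑ y ∈ Icc lo hi, wk y * (|m y - m' y| * f y) + ∑ y ∈ Icc lo hi, wk y * (m' y * |f (e y) - f' (e y)|) := by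
      rw [mul_sum, ← sum_add_distrib]
      exact sum_le_sum fun y hy => term_le hw hm' hf y (e y) (s1 y hy)
    have a2 : ∑ y ∈ (Icc lo hi).filter (fun y => ua ≤ y ∧ y ≤ ub), wk y * (m' y * |f (e y) - f' (e y)|) ≤
        ρ * (κ * U lo hi wk m' f') := by
      have b1 : ∑ y ∈ (Icc lo hi).filter (fun y => ua ≤ y ∧ y ≤ ub), wk y * (m' y * |f (e y) - f' (e y)|) ≤
          ∑ y ∈ (Icc lo hi).filter (fun y => ua ≤ y ∧ y ≤ ub), ρ * (κ * (wk y * (m' y * f' y))) := by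
        refine sum_le_sum fun y hy => ?_
        rw [mem_filter] at hy
        have q1 := hp (e y) (by have := (he y).1; omega) (by have := (he y).2; omega)
        have q2 : κ * f' (e y) ≤ κ * (ρ * f' y) := mul_le_mul_of_nonneg_left (s2 y hy.1) hκ
        have q3 := mul_le_mul_of_nonneg_left (q1.trans q2) (mul_nonneg (hw y).le (hm' y))
        linarith
      refine b1.trans ?_
      rw [← mul_sum, ← mul_sum]
      refine mul_le_mul_of_nonneg_left (mul_le_mul_of_nonneg_left ?_ hκ) ρ0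
      unfold U
      exact sum_le_sum_of_subset_of_nonneg (filter_subset _ _) fun y _ _ =>
        mul_nonneg (hw y).le (mul_nonneg (hm' y) (hf' y).le)
    have a3 : ∑ y ∈ (Icc lo hi).filter (fun y => ¬ (ua ≤ y ∧ y ≤ ub)), wk y * (m' y * |f (e y) - f' (e y)|) ≤
        ρ * (t1 + t2) := by
      have b1 : ∑ y ∈ (Icc lo hi).filter (fun y => ¬ (ua ≤ y ∧ y ≤ ub)), wk y * (m' y * |f (e y) - f' (e y)|) ≤
          ∑ y ∈ (Icc lo hi).filter (fun y => ¬ (ua ≤ y ∧ y ≤ ub)),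
            (ρ * (wk y * (m' y * f y)) + ρ * (wk y * (m' y * f' y))) := by
        refine sum_le_sum fun y hy => ?_
        rw [mem_filter] at hy
        have q1 : |f (e y) - f' (e y)| ≤ ρ * f y + ρ * f' y := by
          have := abs_sub (f (e y)) (f' (e y))
          rw [abs_of_pos (hf _), abs_of_pos (hf' _)] at this
          have := s1 y hy.1
          have := s2 y hy.1
          linarith
        have q3 := mul_le_mul_of_nonneg_left q1 (mul_nonneg (hw y).le (hm' y))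
        linarith
      rw [sum_add_distrib, ← mul_sum, ← mul_sum] at b1
      have b2 := mul_le_mul_of_nonneg_left h1 ρ0
      have b3 := mul_le_mul_of_nonneg_left h2 ρ0
      linarith
    have a4 := sum_filter_add_sum_filter_not (Icc lo hi) (fun y => ua ≤ y ∧ y ≤ ub)
      (fun y => wk y * (m' y * |f (e y) - f' (e y)|))
    have a5 := mul_le_mul_of_nonneg_left hD ρ0
    linarith
  have c1 := one (fun y => y - 1) (fun y => ⟨le_rfl, by omega⟩) (fun y hy => (r1 y hy).1) fun y hy => (r2 y hy).1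
  have c2 := one (fun y => y) (fun y => ⟨by omega, by omega⟩) (fun y hy => le_mul_of_one_le_left (hf y).le hρ)
    fun y hy => le_mul_of_one_le_left (hf' y).le hρ
  have c3 := one (fun y => y + 1) (fun y => ⟨by omega, le_rfl⟩) (fun y hy => (r1 y hy).2) fun y hy => (r2 y hy).2
  have e : ds lo hi wk m f m' f' = ∑ y ∈ Icc lo hi, wk y * |m y * f (y - 1) - m' y * f' (y - 1)| +
      ∑ y ∈ Icc lo hi, wk y * |m y * f y - m' y * f' y| + ∑ y ∈ Icc lo hi, wk y * |m y * f (y + 1) - m' y * f' (y + 1)| := by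
    unfold ds
    rw [← sum_add_distrib, ← sum_add_distrib]
    exact sum_congr rfl fun y _ => by ring
  rw [e]
  linarith

/-- The three totals of a row are at least `min 1 p` times `∑ wk m f`. -/
theorem tot_le {p : ℝ} (hp : 0 < p) (hw : ∀ y, 0 < wk y) (hm : ∀ y, 0 ≤ m y) (hf : ∀ y, 0 < f y) (hlh : lo ≤ hi)
    (h0 : m (lo - 1) = 0) (h1 : m hi = 0) (q : ℤ) :
    min 1 p * U lo hi wk m f ≤ rz lo hi p wk m f q ∧ min 1 p * U lo hi wk m f ≤ rt lo hi p wk m f q ∧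
      min 1 p * U lo hi wk m f ≤ tm lo hi p wk m f := by
  have p1 : min 1 p ≤ 1 := min_le_left _ _
  have p2 : min 1 p ≤ p := min_le_right _ _
  have pm : 0 < min 1 p := lt_min one_pos hp
  have nn : ∀ y, 0 ≤ wk y * (m y * f y) := fun y => mul_nonneg (hw y).le (mul_nonneg (hm y) (hf y).le)
  refine ⟨?_, ?_, ?_⟩
  · unfold rz zs U
    rw [mul_sum]
    refine sum_le_sum fun y _ => ?_
    have a := nn y
    have b := mul_nonneg (hm y) (hw y).le
    by_cases hq : y < q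
    · rw [if_pos hq]
      have c : 0 ≤ m y * wk y * (p * f (y + 1)) := mul_nonneg b (mul_nonneg hp.le (hf _).le)
      have d := mul_le_mul_of_nonneg_right p1 a
      linarith
    · rw [if_neg hq]
      simp only [sub_add_cancel]
      have c : 0 ≤ m y * wk y * f (y - 1) := mul_nonneg b (hf _).le
      have d := mul_le_mul_of_nonneg_right p2 a
      linarith
  · set g : ℤ → ℝ := fun y => if q ≤ y + 1 then p * (wk y * (m y * f y)) else 0 with hg
    have g0 : g (lo - 1) = 0 := by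
      simp only [hg]
      rw [h0]
      split_ifs <;> ring
    have g1 : g hi = 0 := by
      simp only [hg]
      rw [h1]
      split_ifs <;> ring
    have sh := sum_shift hlh g0 g1
    have k1 : ∑ y ∈ Icc lo hi, ((if y < q then wk y * (m y * f y) else 0) + g (y - 1)) ≤ rt lo hi p wk m f q := by
      unfold rt cut
      refine sum_le_sum fun y _ => ?_
      have a := nn y
      have b := nn (y - 1)
      have c := mul_nonneg (hw (y - 1)).le (hm (y - 1))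
      have d := mul_nonneg (hw y).le (hm y)
      simp only [hg, sub_add_cancel]
      by_cases hq : y < q
      · rw [if_pos hq, if_pos hq, if_neg (by omega)]
        have e : 0 ≤ p * (wk (y - 1) * m (y - 1)) * f y := mul_nonneg (mul_nonneg hp.le c) (hf y).le
        linarith
      · rw [if_neg hq, if_neg hq, if_pos (by omega)]
        have e : 0 ≤ wk y * m y * f (y - 1) := mul_nonneg d (hf _).le
        linarith
    rw [sum_add_distrib, sh, ← sum_add_distrib] at k1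
    refine le_trans ?_ k1
    unfold U
    rw [mul_sum]
    refine sum_le_sum fun y _ => ?_
    have a := nn y
    have d1 := mul_le_mul_of_nonneg_right p1 a
    have d2 := mul_le_mul_of_nonneg_right p2 a
    simp only [hg]
    by_cases hq : y < q
    · rw [if_pos hq]
      have e : 0 ≤ (if q ≤ y + 1 then p * (wk y * (m y * f y)) else 0) := by
        split_ifs
        · exact mul_nonneg hp.le a
        · exact le_rfl
      linarith
    · rw [if_neg hq, if_pos (by omega)]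
      linarith
  · unfold tm U
    rw [mul_sum]
    refine sum_le_sum fun y _ => ?_
    have a := nn y
    have b := mul_nonneg (hm y) (hw y).le
    have c : 0 ≤ m y * wk y * (p * f (y + 1)) := mul_nonneg b (mul_nonneg hp.le (hf _).le)
    have d := mul_le_mul_of_nonneg_right p1 a
    linarith

/-- The total mass with the profile of the next row. -/
theorem step_le (hw : ∀ y, 0 < wk y) (hm : ∀ y, 0 ≤ m y) {p : ℝ} (hp : 0 < p)
    (r1 : ∀ y ∈ Icc lo hi, f (y + 1) ≤ ρ * f y) :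
    ∑ y ∈ Icc lo hi, wk y * (m y * (f y + p * f (y + 1))) ≤ (1 + p * ρ) * U lo hi wk m f := by
  unfold U
  rw [mul_sum]
  refine sum_le_sum fun y hy => ?_
  have h1 := mul_le_mul_of_nonneg_left (mul_le_mul_of_nonneg_left (r1 y hy) hp.le) (mul_nonneg (hw y).le (hm y))
  linarith

end row

/-! ### The theorem -/

variable {w : ℕ → ℤ → ℝ} {p : ℕ → ℝ} {lo hi : ℤ} {c0 n1 j n2 n3 m : ℕ} {a1 b1 a2 b2 xa xb ya yb za zb ua ub : ℤ}
  {l : ℤ → ℝ} {δ ε ρ : ℝ}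

/-- The hypotheses on the rows, which do not depend on the group. `k = c0 + n1 + j`. -/
structure Row (w : ℕ → ℤ → ℝ) (p : ℕ → ℝ) (lo hi : ℤ) (c0 n1 j n2 n3 m : ℕ) (a1 b2 ua ub ya yb za zb : ℤ) (δ ε ρ : ℝ) : Prop
    where
  gx : Gex n3 ya yb za zb
  u : ua ≤ ub
  ρ1 : 1 ≤ ρ
  sm : (1 + p (c0 + n1 + j) * ρ) * (δ + 12 * ε) ≤ 1 / 4
  cx : CR (kf w p (c0 + n1 + j + 1 + n2) n3) ya yb za zb ≤ 1 + δ
  l1 : LX w p c0 (n1 + j) (n2 + (n3 + m) + 1) a1 ua ε
  r1 : RX w p c0 (n1 + j) (n2 + (n3 + m) + 1) b2 ub ε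
  l0 : LX w p c0 (n1 + j) (n2 + n3 + 1) a1 ua ε
  r0 : RX w p c0 (n1 + j) (n2 + n3 + 1) b2 ub ε
  x1l : LX w p (c0 + n1 + j + 1) n2 (n3 + m) (ua - 1) ya ε
  x1r : RX w p (c0 + n1 + j + 1) n2 (n3 + m) (ub + 1) yb ε
  x2l : LX w p (c0 + n1 + j + 1) (n2 + n3) m (ua - 1) za ε
  x2r : RX w p (c0 + n1 + j + 1) (n2 + n3) m (ub + 1) zb ε
  y1l : LX w p (c0 + n1 + j + 1) n2 n3 (ua - 1) ya ε
  y1r : RX w p (c0 + n1 + j + 1) n2 n3 (ub + 1) yb ε
  y2l : LX w p (c0 + n1 + j + 1) (n2 + n3) 0 (ua - 1) za ε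
  y2r : RX w p (c0 + n1 + j + 1) (n2 + n3) 0 (ub + 1) zb ε
  rf : ∀ y ∈ Icc lo hi, bw w p (c0 + n1 + j + 1) (n2 + (n3 + m)) (y - 1) ≤ ρ * bw w p (c0 + n1 + j + 1) (n2 + (n3 + m)) y ∧
    bw w p (c0 + n1 + j + 1) (n2 + (n3 + m)) (y + 1) ≤ ρ * bw w p (c0 + n1 + j + 1) (n2 + (n3 + m)) y
  ri : ∀ y ∈ Icc lo hi, bw w p (c0 + n1 + j + 1) (n2 + n3) (y - 1) ≤ ρ * bw w p (c0 + n1 + j + 1) (n2 + n3) y ∧
    bw w p (c0 + n1 + j + 1) (n2 + n3) (y + 1) ≤ ρ * bw w p (c0 + n1 + j + 1) (n2 + n3) y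

/-- The error. -/
def et (pk δ ε ρ : ℝ) : ℝ := 180 * ρ * (1 + pk * ρ) * (δ + ε) / min 1 pk

/-- The model profile. -/
def Pm (w : ℕ → ℤ → ℝ) (p : ℕ → ℝ) (k n2 n3 m : ℕ) (ya za zb : ℤ) (y : ℤ) : ℝ :=
  Ce w p (k + 1) n2 n3 m ya za zb / Ce w p (k + 1) n2 n3 0 ya za zb * bw w p (k + 1) (n2 + n3) y

theorem Row.near (hw : ∀ k y, 0 < w k y) (hp : ∀ k, 0 < p k)
    (R : Row w p lo hi c0 n1 j n2 n3 m a1 b2 ua ub ya yb za zb δ ε ρ) (δ0 : 0 ≤ δ) (ε0 : 0 ≤ ε) (ε1 : ε ≤ 1 / 8) {y : ℤ}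
    (h1 : ua - 1 ≤ y) (h2 : y ≤ ub + 1) :
    |bw w p (c0 + n1 + j + 1) (n2 + (n3 + m)) y - Pm w p (c0 + n1 + j) n2 n3 m ya za zb y| ≤
      (2 * δ + 8 * ε) * Pm w p (c0 + n1 + j) n2 n3 m ya za zb y :=
  exit_pt hw hp R.gx δ0 ε0 ε1 R.cx ⟨R.x1l.mono hw hp h1, R.x1r.mono hw hp h2, R.x2l.mono hw hp h1, R.x2r.mono hw hp h2⟩
    ⟨R.y1l.mono hw hp h1, R.y1r.mono hw hp h2, R.y2l.mono hw hp h1, R.y2r.mono hw hp h2⟩

theorem Pm_pos (hw : ∀ k y, 0 < w k y) (hp : ∀ k, 0 < p k) (g : Gex n3 ya yb za zb) (k : ℕ) (y : ℤ) :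
    0 < Pm w p k n2 n3 m ya za zb y :=
  mul_pos (div_pos (Ce_pos hw hp g (k + 1) n2 m) (Ce_pos hw hp g (k + 1) n2 0)) (bw_pos hw hp _ _ _)

/-- **FROM THE KERNELS TO THE DISTANCE OF TWO ROWS.** -/
theorem nr74 (hw : ∀ k y, 0 < w k y) (hp : ∀ k, 0 < p k)
    (R : Row w p lo hi c0 n1 j n2 n3 m a1 b2 ua ub ya yb za zb δ ε ρ)
    (h : Ent w p lo hi l c0 n1 j (j + (n2 + (n3 + m) + 1)) a1 b1 a2 b2 xa xb δ ε) (q : ℤ) :
    Nr lo hi (p (c0 + n1 + j)) (w (c0 + n1 + j)) (fw w p l (c0 + n1 + j)) (bw w p (c0 + n1 + j + 1) (n2 + (n3 + m)))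
      (Fm w p l c0 n1 a1 b1 a2 b2 xa (n1 + j)) (Pm w p (c0 + n1 + j) n2 n3 m ya za zb) q
      (et (p (c0 + n1 + j)) δ ε ρ)
      (min 1 (p (c0 + n1 + j)) * U lo hi (w (c0 + n1 + j)) (Fm w p l c0 n1 a1 b1 a2 b2 xa (n1 + j))
        (Pm w p (c0 + n1 + j) n2 n3 m ya za zb)) := by
  have g := h.g
  have g1 := g.h1
  have g2 := g.h2
  have g3 := g.h3
  have g7 := g.h7
  have g8 := g.h8
  have nn0 : (0 : ℤ) ≤ ((n1 + j : ℕ) : ℤ) := by positivity
  have hlh : lo ≤ hi := by omega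
  have δ0 := h.δ0
  have ε0 := h.ε0
  have ε1 := h.ε1
  have ρ1 := R.ρ1
  have sm := R.sm
  have A := am_nn hw hp h
  have pk := hp (c0 + n1 + j)
  have wk := hw (c0 + n1 + j)
  have m0 : ∀ y, 0 ≤ fw w p l (c0 + n1 + j) y := fun y => fw_nonneg hw hp h.s.l0 _ y
  have m0' : ∀ y, 0 ≤ Fm w p l c0 n1 a1 b1 a2 b2 xa (n1 + j) y := fun y => Fm_nonneg hw hp h (n1 + j) y
  have f0 : ∀ y, 0 < bw w p (c0 + n1 + j + 1) (n2 + (n3 + m)) y := fun y => bw_pos hw hp _ _ y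
  have f0' : ∀ y, 0 < Pm w p (c0 + n1 + j) n2 n3 m ya za zb y := fun y => Pm_pos hw hp R.gx _ y
  have ez : c0 + (n1 + j) = c0 + n1 + j := by ring
  have ml0 : fw w p l (c0 + n1 + j) (lo - 1) = 0 := by
    have := h.s.off2 le_rfl (lo - 1) (by rw [mem_Icc]; omega)
    rwa [ez] at this
  have ml0' : Fm w p l c0 n1 a1 b1 a2 b2 xa (n1 + j) (lo - 1) = 0 := by
    unfold Fm
    rw [kf_zero c0 (n1 + j) (y := a1) (x := lo - 1) (by omega), kf_zero c0 (n1 + j) (y := a2) (x := lo - 1) (by omega)]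
    ring
  have mh0' : Fm w p l c0 n1 a1 b1 a2 b2 xa (n1 + j) hi = 0 := by
    unfold Fm
    rw [kf_zero c0 (n1 + j) (y := a1) (x := hi) (by omega), kf_zero c0 (n1 + j) (y := a2) (x := hi) (by omega)]
    ring
  -- the ratio of the model profile
  have K0 : 0 < Ce w p (c0 + n1 + j + 1) n2 n3 m ya za zb / Ce w p (c0 + n1 + j + 1) n2 n3 0 ya za zb :=
    div_pos (Ce_pos hw hp R.gx _ n2 m) (Ce_pos hw hp R.gx _ n2 0)
  have ri : ∀ y ∈ Icc lo hi, Pm w p (c0 + n1 + j) n2 n3 m ya za zb (y - 1) ≤ ρ * Pm w p (c0 + n1 + j) n2 n3 m ya za zb y ∧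
      Pm w p (c0 + n1 + j) n2 n3 m ya za zb (y + 1) ≤ ρ * Pm w p (c0 + n1 + j) n2 n3 m ya za zb y := by
    intro y hy
    have r := R.ri y hy
    unfold Pm
    constructor
    · have := mul_le_mul_of_nonneg_left r.1 K0.le
      linarith
    · have := mul_le_mul_of_nonneg_left r.2 K0.le
      linarith
  -- the totals
  have tot := tot_le pk wk m0' f0' hlh ml0' mh0' q
  have D := ent_mass hw hp (M := n2 + (n3 + m)) h
  have amp := amp_le hw hp h
  have tk := h.s.total_k (n2 + (n3 + m))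
  have t1 := tail_mod hw hp (M := n2 + (n3 + m)) A.1 A.2 g R.u R.l1 R.r1
  have t2 := tail_mod hw hp (M := n2 + n3) A.1 A.2 g R.u R.l0 R.r0
  have v2 := total_mod (w := w) (p := p) (c0 := c0) g (am w p c0 n1 a1 b1 xa (fw w p l c0)) (am w p c0 n1 a2 b2 xa (fw w p l c0))
    (n2 + n3)
  have near : ∀ z, ua - 1 ≤ z → z ≤ ub + 1 → |bw w p (c0 + n1 + j + 1) (n2 + (n3 + m)) z -
      Pm w p (c0 + n1 + j) n2 n3 m ya za zb z| ≤ (2 * δ + 8 * ε) * Pm w p (c0 + n1 + j) n2 n3 m ya za zb z :=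
    fun z h1 h2 => R.near hw hp δ0 ε0 ε1 h1 h2
  have en : n1 + (j + (n2 + (n3 + m) + 1)) = n1 + j + (n2 + (n3 + m) + 1) := by ring
  rw [en] at amp D tk
  -- the tail of the model, inner future, times `K`
  have t2K : ∑ y ∈ (Icc lo hi).filter (fun y => ¬ (ua ≤ y ∧ y ≤ ub)), w (c0 + n1 + j) y *
      (Fm w p l c0 n1 a1 b1 a2 b2 xa (n1 + j) y * Pm w p (c0 + n1 + j) n2 n3 m ya za zb y) ≤
      2 * ε * ((1 + p (c0 + n1 + j) * ρ) * U lo hi (w (c0 + n1 + j)) (Fm w p l c0 n1 a1 b1 a2 b2 xa (n1 + j))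
        (Pm w p (c0 + n1 + j) n2 n3 m ya za zb)) := by
    have e1 : ∑ y ∈ (Icc lo hi).filter (fun y => ¬ (ua ≤ y ∧ y ≤ ub)), w (c0 + n1 + j) y *
        (Fm w p l c0 n1 a1 b1 a2 b2 xa (n1 + j) y * Pm w p (c0 + n1 + j) n2 n3 m ya za zb y) =
        Ce w p (c0 + n1 + j + 1) n2 n3 m ya za zb / Ce w p (c0 + n1 + j + 1) n2 n3 0 ya za zb *
        ∑ y ∈ (Icc lo hi).filter (fun y => ¬ (ua ≤ y ∧ y ≤ ub)), w (c0 + n1 + j) y *
        ((am w p c0 n1 a1 b1 xa (fw w p l c0) * kf w p c0 (n1 + j) a1 y +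
          am w p c0 n1 a2 b2 xa (fw w p l c0) * kf w p c0 (n1 + j) a2 y) * bw w p (c0 + n1 + j + 1) (n2 + n3) y) := by
      rw [mul_sum]
      unfold Pm Fm
      exact sum_congr rfl fun y _ => by ring
    rw [e1]
    refine (mul_le_mul_of_nonneg_left t2 K0.le).trans ?_
    rw [← v2]
    have s := step_le (lo := lo) (hi := hi) wk m0' (f := Pm w p (c0 + n1 + j) n2 n3 m ya za zb) (ρ := ρ) pk
      fun y hy => (ri y hy).2
    have e2 : Ce w p (c0 + n1 + j + 1) n2 n3 m ya za zb / Ce w p (c0 + n1 + j + 1) n2 n3 0 ya za zb *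
        (2 * ε * ∑ y ∈ Icc lo hi, w (c0 + n1 + j) y *
          ((am w p c0 n1 a1 b1 xa (fw w p l c0) * kf w p c0 (n1 + j) a1 y +
            am w p c0 n1 a2 b2 xa (fw w p l c0) * kf w p c0 (n1 + j) a2 y) *
          (bw w p (c0 + n1 + j + 1) (n2 + n3) y + p (c0 + n1 + j) * bw w p (c0 + n1 + j + 1) (n2 + n3) (y + 1)))) =
        2 * ε * ∑ y ∈ Icc lo hi, w (c0 + n1 + j) y * (Fm w p l c0 n1 a1 b1 a2 b2 xa (n1 + j) y *
          (Pm w p (c0 + n1 + j) n2 n3 m ya za zb y + p (c0 + n1 + j) * Pm w p (c0 + n1 + j) n2 n3 m ya za zb (y + 1))) := by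
      rw [mul_sum, mul_sum, mul_sum]
      unfold Pm Fm
      exact sum_congr rfl fun y _ => by ring
    rw [e2]
    exact mul_le_mul_of_nonneg_left s (by positivity)
  have t1' : ∑ y ∈ (Icc lo hi).filter (fun y => ¬ (ua ≤ y ∧ y ≤ ub)), w (c0 + n1 + j) y *
      (Fm w p l c0 n1 a1 b1 a2 b2 xa (n1 + j) y * bw w p (c0 + n1 + j + 1) (n2 + (n3 + m)) y) ≤
      4 * ε * Tt w p lo hi l c0 (n1 + j + (n2 + (n3 + m) + 1)) := by
    refine t1.trans ?_
    have := mul_le_mul_of_nonneg_left amp (show 0 ≤ 2 * ε by positivity)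
    linarith
  -- the real total against the model
  have S0 : 0 ≤ Tt w p lo hi l c0 (n1 + j + (n2 + (n3 + m) + 1)) := by
    have := Tt_nonneg hw hp h
    rwa [en] at this
  have Um0 := U_nonneg (lo := lo) (hi := hi) wk m0' f0'
  have s1 : Tt w p lo hi l c0 (n1 + j + (n2 + (n3 + m) + 1)) ≤ (1 + p (c0 + n1 + j) * ρ) *
      U lo hi (w (c0 + n1 + j)) (fw w p l (c0 + n1 + j)) (bw w p (c0 + n1 + j + 1) (n2 + (n3 + m))) := by
    rw [← tk]
    exact step_le wk m0 pk fun y hy => (R.rf y hy).2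
  have s2 : U lo hi (w (c0 + n1 + j)) (fw w p l (c0 + n1 + j)) (bw w p (c0 + n1 + j + 1) (n2 + (n3 + m))) ≤
      U lo hi (w (c0 + n1 + j)) (Fm w p l c0 n1 a1 b1 a2 b2 xa (n1 + j)) (bw w p (c0 + n1 + j + 1) (n2 + (n3 + m))) +
      (δ + 8 * ε) * Tt w p lo hi l c0 (n1 + j + (n2 + (n3 + m) + 1)) := by
    refine le_trans ?_ (add_le_add le_rfl D)
    unfold U
    rw [← sum_add_distrib]
    refine sum_le_sum fun y _ => ?_
    have k1 : fw w p l (c0 + n1 + j) y ≤ Fm w p l c0 n1 a1 b1 a2 b2 xa (n1 + j) y +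
        |fw w p l (c0 + n1 + j) y - Fm w p l c0 n1 a1 b1 a2 b2 xa (n1 + j) y| := by
      have := le_abs_self (fw w p l (c0 + n1 + j) y - Fm w p l c0 n1 a1 b1 a2 b2 xa (n1 + j) y)
      linarith
    have k2 := mul_le_mul_of_nonneg_left k1 (mul_nonneg (wk y).le (f0 y).le)
    linarith
  have s3 : U lo hi (w (c0 + n1 + j)) (Fm w p l c0 n1 a1 b1 a2 b2 xa (n1 + j)) (bw w p (c0 + n1 + j + 1) (n2 + (n3 + m))) ≤
      (1 + (2 * δ + 8 * ε)) * U lo hi (w (c0 + n1 + j)) (Fm w p l c0 n1 a1 b1 a2 b2 xa (n1 + j))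
        (Pm w p (c0 + n1 + j) n2 n3 m ya za zb) + 4 * ε * Tt w p lo hi l c0 (n1 + j + (n2 + (n3 + m) + 1)) := by
    have k1 := sum_filter_add_sum_filter_not (Icc lo hi) (fun y => ua ≤ y ∧ y ≤ ub)
      (fun y => w (c0 + n1 + j) y * (Fm w p l c0 n1 a1 b1 a2 b2 xa (n1 + j) y * bw w p (c0 + n1 + j + 1) (n2 + (n3 + m)) y))
    have k2 : ∑ y ∈ (Icc lo hi).filter (fun y => ua ≤ y ∧ y ≤ ub), w (c0 + n1 + j) y *
        (Fm w p l c0 n1 a1 b1 a2 b2 xa (n1 + j) y * bw w p (c0 + n1 + j + 1) (n2 + (n3 + m)) y) ≤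
        (1 + (2 * δ + 8 * ε)) * U lo hi (w (c0 + n1 + j)) (Fm w p l c0 n1 a1 b1 a2 b2 xa (n1 + j))
        (Pm w p (c0 + n1 + j) n2 n3 m ya za zb) := by
      unfold U
      rw [mul_sum]
      refine (sum_le_sum fun y hy => ?_).trans (sum_le_sum_of_subset_of_nonneg (filter_subset _ _) fun y _ _ =>
        mul_nonneg (by positivity) (mul_nonneg (wk y).le (mul_nonneg (m0' y) (f0' y).le)))
      rw [mem_filter] at hy
      have n1' := (abs_le.1 (near y (by omega) (by omega))).2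
      have n2' : bw w p (c0 + n1 + j + 1) (n2 + (n3 + m)) y ≤
          (1 + (2 * δ + 8 * ε)) * Pm w p (c0 + n1 + j) n2 n3 m ya za zb y := by linarith
      have := mul_le_mul_of_nonneg_left n2' (mul_nonneg (wk y).le (m0' y))
      linarith
    unfold U at k2 ⊢
    linarith
  -- collect
  have dd := ds_le (lo := lo) (hi := hi) (m := fw w p l (c0 + n1 + j)) wk m0' f0 f0' ρ1 R.rf ri
    (κ := 2 * δ + 8 * ε) (by positivity) D near t1' t2K
  refine ⟨m0, m0', ml0, ml0', ?_, ?_, tot.1, tot.2.1, tot.2.2⟩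
  · exact mul_nonneg (lt_min one_pos pk).le Um0
  · have mp : 0 < min 1 (p (c0 + n1 + j)) := lt_min one_pos pk
    have e9 : et (p (c0 + n1 + j)) δ ε ρ * (min 1 (p (c0 + n1 + j)) * U lo hi (w (c0 + n1 + j))
        (Fm w p l c0 n1 a1 b1 a2 b2 xa (n1 + j)) (Pm w p (c0 + n1 + j) n2 n3 m ya za zb)) =
        180 * ρ * (1 + p (c0 + n1 + j) * ρ) * (δ + ε) * U lo hi (w (c0 + n1 + j))
        (Fm w p l c0 n1 a1 b1 a2 b2 xa (n1 + j)) (Pm w p (c0 + n1 + j) n2 n3 m ya za zb) := by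
      unfold et
      field_simp
    rw [e9]
    refine dd.trans ?_
    generalize U lo hi (w (c0 + n1 + j)) (fw w p l (c0 + n1 + j)) (bw w p (c0 + n1 + j + 1) (n2 + (n3 + m))) = U1 at *
    generalize U lo hi (w (c0 + n1 + j)) (Fm w p l c0 n1 a1 b1 a2 b2 xa (n1 + j))
      (bw w p (c0 + n1 + j + 1) (n2 + (n3 + m))) = U2 at *
    generalize U lo hi (w (c0 + n1 + j)) (Fm w p l c0 n1 a1 b1 a2 b2 xa (n1 + j))
      (Pm w p (c0 + n1 + j) n2 n3 m ya za zb) = U3 at *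
    generalize Tt w p lo hi l c0 (n1 + j + (n2 + (n3 + m) + 1)) = S at *
    have P1 : 1 ≤ 1 + p (c0 + n1 + j) * ρ := by
      have : 0 ≤ p (c0 + n1 + j) * ρ := by positivity
      linarith
    generalize 1 + p (c0 + n1 + j) * ρ = P at *
    -- `S ≤ 4 P U3`
    have q1 : S ≤ P * ((1 + (2 * δ + 8 * ε)) * U3 + (δ + 12 * ε) * S) := by
      refine s1.trans (mul_le_mul_of_nonneg_left ?_ (by linarith))
      linarith
    have q2 : P * ((δ + 12 * ε) * S) ≤ 1 / 4 * S := by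
      have := mul_le_mul_of_nonneg_right sm S0
      linarith
    have q3 : δ + 12 * ε ≤ 1 / 4 := by
      have : 1 * (δ + 12 * ε) ≤ P * (δ + 12 * ε) := mul_le_mul_of_nonneg_right P1 (by positivity)
      linarith
    have q4 : P * ((1 + (2 * δ + 8 * ε)) * U3) ≤ P * (2 * U3) := by
      refine mul_le_mul_of_nonneg_left (mul_le_mul_of_nonneg_right ?_ Um0) (by linarith)
      linarith
    have q5 : S ≤ 4 * (P * U3) := by
      have q6 : 0 ≤ P * U3 := mul_nonneg (by linarith) Um0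
      linarith
    have PU : U3 ≤ P * U3 := le_mul_of_one_le_left Um0 P1
    have z1 : (δ + 8 * ε) * S ≤ (δ + 8 * ε) * (4 * (P * U3)) := mul_le_mul_of_nonneg_left q5 (by positivity)
    have z2 : (2 * δ + 8 * ε) * U3 ≤ (2 * δ + 8 * ε) * (P * U3) := mul_le_mul_of_nonneg_left PU (by positivity)
    have z3 : 4 * ε * S ≤ 4 * ε * (4 * (P * U3)) := mul_le_mul_of_nonneg_left q5 (by positivity)
    have z0 : 0 ≤ P * U3 := mul_nonneg (by linarith) Um0
    have z5 : 0 ≤ δ * (P * U3) := mul_nonneg δ0 z0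
    have z6 : 0 ≤ ε * (P * U3) := mul_nonneg ε0 z0
    have z4 : (δ + 8 * ε) * S + (2 * δ + 8 * ε) * U3 + 4 * ε * S + 2 * ε * (P * U3) ≤ 60 * ((δ + ε) * (P * U3)) := by
      linarith
    have z7 := mul_le_mul_of_nonneg_left z4 (show 0 ≤ 3 * ρ by linarith)
    linarith

end

end Pool.Agent.W_7d29a1_C1.F74
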