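import Pool.Agent.W_7d29a1_C1.RankP74

/-!
Both halves (MP_7d29a1_pr), attractor route [C1]: FROM THE KERNELS TO THE DISTANCE OF TWO ROWS, first part. (helper74)

* `ev w p r n m P a` = weight of the paths from the site `a` of the row `r` which are in `P` at the row `r + n`, `m` more rows, flat
  end; `ev_left`, `ev_right` : **LGV monotonicity** of the two exits in the start;
* `ent_row`, `ent_mass` : **entrance** : the masses of one group are `A1 F1 + A2 F2` in the norm of the path measure;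
* `exit_pt` : **exit** : the backward masses are `K` times the backward masses with the flat end at the seam, pointwise.
-/

set_option autoImplicit false
set_option linter.unusedSectionVars false

namespace Pool.Agent.W_7d29a1_C1.F74

open Finset Pool.Agent.W_7d29a1_C1.Gini76 Pool.Agent.W_7d29a1_C1.CR76 Pool.Agent.W_7d29a1_C1.K91P
  Pool.Agent.W_7d29a1_C1.Basin76 Pool.Agent.W_7d29a1_C1.R26P
open Pool.Agent.W_7d29a1_C1.K91 (shw)

noncomputable section

/-! ### Two ordered weights -/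

/-- The left parts of two ordered weights. -/
theorem left_mono (S : Finset ℤ) {u v : ℤ → ℝ} (h : ∀ z ∈ S, ∀ z' ∈ S, z < z' → v z * u z' ≤ u z * v z') (x : ℤ) :
    (∑ z ∈ S.filter (· < x), v z) * (∑ z ∈ S, u z) ≤ (∑ z ∈ S.filter (· < x), u z) * ∑ z ∈ S, v z := by
  have e1 := sum_filter_add_sum_filter_not S (· < x) u
  have e2 := sum_filter_add_sum_filter_not S (· < x) v
  rw [← e1, ← e2]
  have key : (∑ z ∈ S.filter (· < x), v z) * (∑ z ∈ S.filter (fun z => ¬ z < x), u z) ≤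
      (∑ z ∈ S.filter (· < x), u z) * ∑ z ∈ S.filter (fun z => ¬ z < x), v z := by
    rw [sum_mul_sum, sum_mul_sum]
    refine sum_le_sum fun z hz => sum_le_sum fun z' hz' => ?_
    rw [mem_filter] at hz hz'
    exact h z hz.1 z' hz'.1 (by omega)
  nlinarith

/-- The right parts of two ordered weights. -/
theorem right_mono (S : Finset ℤ) {u v : ℤ → ℝ} (h : ∀ z ∈ S, ∀ z' ∈ S, z < z' → v z * u z' ≤ u z * v z') (x : ℤ) :
    (∑ z ∈ S.filter (x < ·), u z) * (∑ z ∈ S, v z) ≤ (∑ z ∈ S.filter (x < ·), v z) * ∑ z ∈ S, u z := by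
  have e1 := sum_filter_add_sum_filter_not S (x < ·) u
  have e2 := sum_filter_add_sum_filter_not S (x < ·) v
  rw [← e1, ← e2]
  have key : (∑ z ∈ S.filter (x < ·), u z) * (∑ z ∈ S.filter (fun z => ¬ x < z), v z) ≤
      (∑ z ∈ S.filter (x < ·), v z) * ∑ z ∈ S.filter (fun z => ¬ x < z), u z := by
    rw [mul_comm, mul_comm (∑ z ∈ S.filter (x < ·), v z), sum_mul_sum, sum_mul_sum]
    refine sum_le_sum fun z hz => sum_le_sum fun z' hz' => ?_
    rw [mem_filter] at hz hz'
    exact h z hz.1 z' hz'.1 (by omega)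
  nlinarith

variable {w : ℕ → ℤ → ℝ} {p : ℕ → ℝ}

/-! ### Exits -/

/-- Paths from `a` which are in `P` at the row `r + n`. -/
def ev (w : ℕ → ℤ → ℝ) (p : ℕ → ℝ) (r n m : ℕ) (P : ℤ → Prop) [DecidablePred P] (a : ℤ) : ℝ :=
  ∑ z ∈ (Icc a (a + n)).filter P, kf w p r n a z * bw w p (r + n) m z

theorem ev_nonneg (hw : ∀ k y, 0 < w k y) (hp : ∀ k, 0 < p k) (r n m : ℕ) (P : ℤ → Prop) [DecidablePred P] (a : ℤ) :
    0 ≤ ev w p r n m P a :=
  sum_nonneg fun z _ => mul_nonneg (kf_nonneg hw hp r n a z) (bw_pos hw hp m (r + n) z).le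

/-- Any window which contains the cone. -/
theorem ev_eq (r n m : ℕ) (P : ℤ → Prop) [DecidablePred P] {a lo hi : ℤ} (h1 : lo ≤ a) (h2 : a + n ≤ hi) :
    ev w p r n m P a = ∑ z ∈ (Icc lo hi).filter P, kf w p r n a z * bw w p (r + n) m z := by
  unfold ev
  refine sum_subset (filter_subset_filter _ (Icc_subset_Icc h1 h2)) fun z hz hz' => ?_
  rw [mem_filter] at hz hz'
  rw [kf_zero r n (y := a) (x := z) (fun h => hz' ⟨mem_Icc.2 h, hz.2⟩), zero_mul]

theorem ev_total (r n m : ℕ) {a lo hi : ℤ} (h1 : lo ≤ a) (h2 : a + n ≤ hi) :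
    bw w p r (n + m) a = ∑ z ∈ Icc lo hi, kf w p r n a z * bw w p (r + n) m z :=
  bw_kf r n m a h1 h2

theorem ev_le (hw : ∀ k y, 0 < w k y) (hp : ∀ k, 0 < p k) (r n m : ℕ) (P : ℤ → Prop) [DecidablePred P] (a : ℤ) :
    ev w p r n m P a ≤ bw w p r (n + m) a := by
  rw [ev_total r n m (a := a) (lo := a) (hi := a + n) le_rfl le_rfl]
  exact sum_le_sum_of_subset_of_nonneg (filter_subset _ _) fun z _ _ =>
    mul_nonneg (kf_nonneg hw hp r n a z) (bw_pos hw hp m (r + n) z).le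

theorem ord_kf (hw : ∀ k y, 0 < w k y) (hp : ∀ k, 0 < p k) (r n m : ℕ) {a a' : ℤ} (h : a ≤ a') {z z' : ℤ} (hz : z < z') :
    (kf w p r n a' z * bw w p (r + n) m z) * (kf w p r n a z' * bw w p (r + n) m z') ≤
      (kf w p r n a z * bw w p (r + n) m z) * (kf w p r n a' z' * bw w p (r + n) m z') := by
  have h1 := kf_minor hw hp r n h hz.le
  have h2 := bw_pos hw hp m (r + n) z
  have h3 := bw_pos hw hp m (r + n) z'
  have h4 := mul_le_mul_of_nonneg_right h1 (mul_pos h2 h3).le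
  calc (kf w p r n a' z * bw w p (r + n) m z) * (kf w p r n a z' * bw w p (r + n) m z')
      = kf w p r n a z' * kf w p r n a' z * (bw w p (r + n) m z * bw w p (r + n) m z') := by ring
    _ ≤ kf w p r n a z * kf w p r n a' z' * (bw w p (r + n) m z * bw w p (r + n) m z') := h4
    _ = _ := by ring

/-- **Starts further to the right exit less on the left.** -/
theorem ev_left (hw : ∀ k y, 0 < w k y) (hp : ∀ k, 0 < p k) (r n m : ℕ) {a a' : ℤ} (h : a ≤ a') (x : ℤ) :
    ev w p r n m (· < x) a' * bw w p r (n + m) a ≤ ev w p r n m (· < x) a * bw w p r (n + m) a' := by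
  rw [ev_eq r n m (· < x) (a := a') (lo := a) (hi := a' + n) h le_rfl,
    ev_eq r n m (· < x) (a := a) (lo := a) (hi := a' + n) le_rfl (by omega),
    ev_total r n m (a := a') (lo := a) (hi := a' + n) h le_rfl,
    ev_total r n m (a := a) (lo := a) (hi := a' + n) le_rfl (by omega)]
  exact left_mono _ (fun z _ z' _ hz => ord_kf hw hp r n m h hz) x

/-- **Starts further to the left exit less on the right.** -/
theorem ev_right (hw : ∀ k y, 0 < w k y) (hp : ∀ k, 0 < p k) (r n m : ℕ) {a a' : ℤ} (h : a ≤ a') (x : ℤ) :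
    ev w p r n m (x < ·) a * bw w p r (n + m) a' ≤ ev w p r n m (x < ·) a' * bw w p r (n + m) a := by
  rw [ev_eq r n m (x < ·) (a := a') (lo := a) (hi := a' + n) h le_rfl,
    ev_eq r n m (x < ·) (a := a) (lo := a) (hi := a' + n) le_rfl (by omega),
    ev_total r n m (a := a') (lo := a) (hi := a' + n) h le_rfl,
    ev_total r n m (a := a) (lo := a) (hi := a' + n) le_rfl (by omega)]
  exact right_mono _ (fun z _ z' _ hz => ord_kf hw hp r n m h hz) x

/-- Left exit, as a property. -/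
def LX (w : ℕ → ℤ → ℝ) (p : ℕ → ℝ) (r n m : ℕ) (a x : ℤ) (ε : ℝ) : Prop :=
  ev w p r n m (· < x) a ≤ ε * bw w p r (n + m) a

/-- Right exit, as a property. -/
def RX (w : ℕ → ℤ → ℝ) (p : ℕ → ℝ) (r n m : ℕ) (a x : ℤ) (ε : ℝ) : Prop :=
  ev w p r n m (x < ·) a ≤ ε * bw w p r (n + m) a

theorem LX.mono (hw : ∀ k y, 0 < w k y) (hp : ∀ k, 0 < p k) {r n m : ℕ} {a a' x : ℤ} {ε : ℝ} (h : LX w p r n m a x ε)
    (ha : a ≤ a') : LX w p r n m a' x ε := by
  have h1 := ev_left hw hp r n m ha x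
  have h2 := bw_pos hw hp (n + m) r a
  have h3 := bw_pos hw hp (n + m) r a'
  unfold LX at h ⊢
  have h4 := mul_le_mul_of_nonneg_right h h3.le
  refine le_of_mul_le_mul_right ?_ h2
  linarith

theorem RX.mono (hw : ∀ k y, 0 < w k y) (hp : ∀ k, 0 < p k) {r n m : ℕ} {a a' x : ℤ} {ε : ℝ} (h : RX w p r n m a' x ε)
    (ha : a ≤ a') : RX w p r n m a x ε := by
  have h1 := ev_right hw hp r n m ha x
  have h2 := bw_pos hw hp (n + m) r a
  have h3 := bw_pos hw hp (n + m) r a'
  unfold RX at h ⊢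
  have h4 := mul_le_mul_of_nonneg_right h h2.le
  refine le_of_mul_le_mul_right ?_ h3
  linarith

/-- The sum outside a window is the sum of the two exits. -/
theorem out_eq (S : Finset ℤ) (g : ℤ → ℝ) {xa xb : ℤ} (h : xa ≤ xb) :
    ∑ z ∈ S.filter (fun z => ¬ (xa ≤ z ∧ z ≤ xb)), g z =
      ∑ z ∈ S.filter (· < xa), g z + ∑ z ∈ S.filter (xb < ·), g z := by
  rw [sum_filter, sum_filter, sum_filter, ← sum_add_distrib]
  refine sum_congr rfl fun z _ => ?_
  by_cases h1 : z < xa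
  · rw [if_pos (show ¬ (xa ≤ z ∧ z ≤ xb) by omega), if_pos h1, if_neg (show ¬ xb < z by omega), add_zero]
  · by_cases h2 : xb < z
    · rw [if_pos (show ¬ (xa ≤ z ∧ z ≤ xb) by omega), if_neg h1, if_pos h2, zero_add]
    · rw [if_neg (show ¬ ¬ (xa ≤ z ∧ z ≤ xb) by omega), if_neg h1, if_neg h2, add_zero]

/-- **Both exits**, in any window which contains the cone. -/
theorem out_le {r n m : ℕ} {a xa xb lo hi : ℤ} {ε : ℝ} (h : xa ≤ xb) (hl : LX w p r n m a xa ε)
    (hr : RX w p r n m a xb ε) (h1 : lo ≤ a) (h2 : a + n ≤ hi) :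
    ∑ z ∈ (Icc lo hi).filter (fun z => ¬ (xa ≤ z ∧ z ≤ xb)), kf w p r n a z * bw w p (r + n) m z ≤
      2 * ε * bw w p r (n + m) a := by
  rw [out_eq _ _ h, ← ev_eq r n m (· < xa) h1 h2, ← ev_eq r n m (xb < ·) h1 h2]
  unfold LX at hl
  unfold RX at hr
  linarith

end

end Pool.Agent.W_7d29a1_C1.F74
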