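import Pool.Agent.W_7d29a1_C1.Fact74A

/-!
Both halves (MP_7d29a1_pr), attractor route [C1]: FROM THE KERNELS TO THE DISTANCE OF TWO ROWS, second part : the entrance. (helper74)

`ent_row`, `ent_mass` : the masses of one group are `A1 F1 + A2 F2` in the norm of the path measure.
-/

set_option autoImplicit false
set_option linter.unusedSectionVars false

namespace Pool.Agent.W_7d29a1_C1.F74

open Finset Pool.Agent.W_7d29a1_C1.Gini76 Pool.Agent.W_7d29a1_C1.CR76 Pool.Agent.W_7d29a1_C1.K91P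
  Pool.Agent.W_7d29a1_C1.Basin76 Pool.Agent.W_7d29a1_C1.R26P
open Pool.Agent.W_7d29a1_C1.K91 (shw)

noncomputable section

variable {w : ℕ → ℤ → ℝ} {p : ℕ → ℝ}

/-! ### Sums over paths -/

theorem pull_le (hw : ∀ k y, 0 < w k y) (hp : ∀ k, 0 < p k) (r n m : ℕ) (S : Finset ℤ) (a : ℤ) :
    ∑ z ∈ S, kf w p r n a z * bw w p (r + n) m z ≤ bw w p r (n + m) a := by
  rw [ev_total r n m (a := a) (lo := a) (hi := a + n) le_rfl le_rfl]
  have h0 : ∀ z, 0 ≤ kf w p r n a z * bw w p (r + n) m z := fun z =>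
    mul_nonneg (kf_nonneg hw hp r n a z) (bw_pos hw hp m (r + n) z).le
  have e : ∑ z ∈ S, kf w p r n a z * bw w p (r + n) m z =
      ∑ z ∈ S.filter (fun z => z ∈ Icc a (a + (n : ℤ))), kf w p r n a z * bw w p (r + n) m z := by
    rw [sum_filter]
    refine sum_congr rfl fun z _ => ?_
    by_cases hz : z ∈ Icc a (a + (n : ℤ))
    · rw [if_pos hz]
    · rw [if_neg hz, kf_zero r n (y := a) (x := z) (fun h => hz (mem_Icc.2 h)), zero_mul]
  rw [e]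
  refine sum_le_sum_of_subset_of_nonneg (fun z hz => (mem_filter.1 hz).2) fun z _ _ => h0 z

/-- Masses are pushed: the sum over the sites `x` in `T` of the pushed masses. -/
theorem sum_push (r n m : ℕ) (S T : Finset ℤ) (L : ℤ → ℝ) :
    ∑ x ∈ T, push S (kf w p r n) L x * bw w p (r + n) m x =
      ∑ z ∈ S, L z * ∑ x ∈ T, kf w p r n z x * bw w p (r + n) m x := by
  unfold push
  simp only [sum_mul, mul_sum]
  rw [sum_comm]
  exact sum_congr rfl fun z _ => sum_congr rfl fun x _ => by ring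

/-- The geometry of the entrance. -/
structure Geo (lo hi : ℤ) (n1 j : ℕ) (a1 b1 a2 b2 xa xb : ℤ) : Prop where
  h1 : a1 ≤ b1
  h2 : b1 < a2
  h3 : a2 ≤ b2
  h4 : b2 ≤ xa
  h5 : xa ≤ xb
  h6 : xb ≤ a1 + n1
  h7 : lo ≤ a1
  h8 : b2 + (n1 + j : ℕ) < hi

variable {lo hi : ℤ} {c0 n1 j m : ℕ} {a1 b1 a2 b2 xa xb : ℤ} {l : ℤ → ℝ} {δ ε : ℝ}

/-- Masses of one group at the row `c0`. -/
structure Msp (w : ℕ → ℤ → ℝ) (p : ℕ → ℝ) (lo hi : ℤ) (l : ℤ → ℝ) (c0 n : ℕ) : Prop where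
  l0 : ∀ y, 0 ≤ l y
  z : ∀ y, fw w p l c0 y ≠ 0 → lo ≤ y ∧ y + n < hi

theorem Msp.off (h : Msp w p lo hi l c0 (n1 + j)) : ∀ y, y ∉ Icc lo hi → fw w p l c0 y = 0 := by
  intro y hy
  by_contra h0
  have h1 := h.z y h0
  refine hy (mem_Icc.2 ⟨h1.1, ?_⟩)
  have h2 : (0 : ℤ) ≤ ((n1 + j : ℕ) : ℤ) := by positivity
  omega

/-- The masses behind the slab. -/
theorem Msp.push (h : Msp w p lo hi l c0 (n1 + j)) (n : ℕ) (x : ℤ) :
    fw w p l (c0 + n) x = push (Icc lo hi) (kf w p c0 n) (fw w p l c0) x := fw_kf c0 n h.off x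

theorem Msp.supp (h : Msp w p lo hi l c0 (n1 + j)) {n : ℕ} {y : ℤ} (hy : fw w p l (c0 + n) y ≠ 0) :
    lo ≤ y ∧ y + (n1 + j : ℕ) < hi + n := by
  rw [h.push n y] at hy
  unfold Gini76.push at hy
  obtain ⟨z, hz, hne⟩ := exists_ne_zero_of_sum_ne_zero hy
  have h1 := left_ne_zero_of_mul hne
  have h2 := right_ne_zero_of_mul hne
  have h3 := h.z z h1
  have h4 : z ≤ y ∧ y ≤ z + n := by
    by_contra hc
    exact h2 (kf_zero c0 n hc)
  constructor <;> omega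

theorem Msp.off2 (h : Msp w p lo hi l c0 (n1 + j)) {n : ℕ} (hn : n ≤ n1 + j) : ∀ y, y ∉ Icc lo hi → fw w p l (c0 + n) y = 0 := by
  intro y hy
  by_contra h0
  have h1 := h.supp h0
  have h2 : ((n : ℕ) : ℤ) ≤ ((n1 + j : ℕ) : ℤ) := by exact_mod_cast hn
  exact hy (mem_Icc.2 ⟨h1.1, by omega⟩)

/-- **The total mass is the same at all rows.** -/
theorem Msp.total (h : Msp w p lo hi l c0 (n1 + j)) {n : ℕ} (hn : n ≤ n1 + j) (m : ℕ) :
    ∑ x ∈ Icc lo hi, fw w p l (c0 + n) x * bw w p (c0 + n) m x = ∑ z ∈ Icc lo hi, fw w p l c0 z * bw w p c0 (n + m) z := by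
  have e : ∀ x ∈ Icc lo hi, fw w p l (c0 + n) x * bw w p (c0 + n) m x =
      Gini76.push (Icc lo hi) (kf w p c0 n) (fw w p l c0) x * bw w p (c0 + n) m x := fun x _ => by rw [h.push n x]
  rw [sum_congr rfl e, sum_push]
  refine sum_congr rfl fun z _ => ?_
  by_cases hz : fw w p l c0 z = 0
  · rw [hz, zero_mul, zero_mul]
  · have h1 := h.z z hz
    have h2 : ((n : ℕ) : ℤ) ≤ ((n1 + j : ℕ) : ℤ) := by exact_mod_cast hn
    rw [ev_total c0 n m (a := z) (lo := lo) (hi := hi) h1.1 (by omega)]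

/-! ### The entrance -/

/-- The two cells. -/
def cl2 (a1 b1 a2 b2 : ℤ) : Finset ℤ := Icc a1 b1 ∪ Icc a2 b2

theorem mem_cl2 (g : Geo lo hi n1 j a1 b1 a2 b2 xa xb) {z : ℤ} (hz : z ∈ cl2 a1 b1 a2 b2) :
    a1 ≤ z ∧ z ≤ b2 ∧ z ∈ Icc lo hi := by
  unfold cl2 at hz
  rw [mem_union, mem_Icc, mem_Icc] at hz
  have h1 := g.h1
  have h2 := g.h2
  have h3 := g.h3
  have h7 := g.h7
  have h8 := g.h8
  have h9 : (0 : ℤ) ≤ ((n1 + j : ℕ) : ℤ) := by positivity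
  rw [mem_Icc]
  omega

/-- Total mass of the group. -/
def Tt (w : ℕ → ℤ → ℝ) (p : ℕ → ℝ) (lo hi : ℤ) (l : ℤ → ℝ) (c0 n : ℕ) : ℝ := ∑ z ∈ Icc lo hi, fw w p l c0 z * bw w p c0 n z

/-- The hypotheses of the entrance, real future: `m` rows after the slab. -/
structure Ent (w : ℕ → ℤ → ℝ) (p : ℕ → ℝ) (lo hi : ℤ) (l : ℤ → ℝ) (c0 n1 j m : ℕ) (a1 b1 a2 b2 xa xb : ℤ) (δ ε : ℝ) : Prop
    where
  g : Geo lo hi n1 j a1 b1 a2 b2 xa xb
  s : Msp w p lo hi l c0 (n1 + j)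
  δ0 : 0 ≤ δ
  ε0 : 0 ≤ ε
  ε1 : ε ≤ 1 / 8
  c1 : CR (kf w p c0 n1) a1 b1 xa xb ≤ 1 + δ
  c2 : CR (kf w p c0 n1) a2 b2 xa xb ≤ 1 + δ
  cell : ∑ z ∈ Icc lo hi \ cl2 a1 b1 a2 b2, fw w p l c0 z * bw w p c0 (n1 + m) z ≤ ε * Tt w p lo hi l c0 (n1 + m)
  lx : LX w p c0 n1 m a1 xa ε
  rx : RX w p c0 n1 m b2 xb ε

/-- The model masses behind the slab. -/
def Fm (w : ℕ → ℤ → ℝ) (p : ℕ → ℝ) (l : ℤ → ℝ) (c0 n1 : ℕ) (a1 b1 a2 b2 xa : ℤ) (n : ℕ) (y : ℤ) : ℝ :=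
  am w p c0 n1 a1 b1 xa (fw w p l c0) * kf w p c0 n a1 y + am w p c0 n1 a2 b2 xa (fw w p l c0) * kf w p c0 n a2 y

section ent

variable (hw : ∀ k y, 0 < w k y) (hp : ∀ k, 0 < p k) (h : Ent w p lo hi l c0 n1 j m a1 b1 a2 b2 xa xb δ ε)

include hw hp h

theorem am_nn : 0 ≤ am w p c0 n1 a1 b1 xa (fw w p l c0) ∧ 0 ≤ am w p c0 n1 a2 b2 xa (fw w p l c0) :=
  ⟨am_nonneg hw hp _ _ _ _ _ fun y => fw_nonneg hw hp h.s.l0 c0 y, am_nonneg hw hp _ _ _ _ _ fun y => fw_nonneg hw hp h.s.l0 c0 y⟩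

theorem Fm_nonneg (n : ℕ) (y : ℤ) : 0 ≤ Fm w p l c0 n1 a1 b1 a2 b2 xa n y := by
  have h1 := am_nn hw hp h
  exact add_nonneg (mul_nonneg h1.1 (kf_nonneg hw hp _ _ _ _)) (mul_nonneg h1.2 (kf_nonneg hw hp _ _ _ _))

theorem Tt_nonneg : 0 ≤ Tt w p lo hi l c0 (n1 + m) :=
  sum_nonneg fun z _ => mul_nonneg (fw_nonneg hw hp h.s.l0 c0 z) (bw_pos hw hp _ _ _).le

/-- The rest is nonnegative. -/
theorem rest_nonneg (x : ℤ) : 0 ≤ push (Icc lo hi \ cl2 a1 b1 a2 b2) (kf w p c0 n1) (fw w p l c0) x := by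
  unfold push
  exact sum_nonneg fun z _ => mul_nonneg (fw_nonneg hw hp h.s.l0 c0 z) (kf_nonneg hw hp _ _ _ _)

/-- Inside the window. -/
theorem in_row {x : ℤ} (h1 : xa ≤ x) (h2 : x ≤ xb) :
    Fm w p l c0 n1 a1 b1 a2 b2 xa n1 x ≤ fw w p l (c0 + n1) x ∧
    |fw w p l (c0 + n1) x - Fm w p l c0 n1 a1 b1 a2 b2 xa n1 x| ≤
      δ * fw w p l (c0 + n1) x + push (Icc lo hi \ cl2 a1 b1 a2 b2) (kf w p c0 n1) (fw w p l c0) x := by
  have g := h.g
  have g8 := g.h8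
  have g9 : (0 : ℤ) ≤ ((n1 + j : ℕ) : ℤ) := by positivity
  have key := lanes hw hp c0 n1 h.s.l0 h.s.off (a1 := a1) (b1 := b1) (a2 := a2) (b2 := b2) (xa := xa) (x := x) (xb := xb)
    g.h1 g.h2 g.h3 g.h4 h1 h2 g.h6 g.h7 (by omega) h.c1 h.c2
  have R0 := rest_nonneg hw hp h x
  have F0 := Fm_nonneg hw hp h n1 x
  have k1 : Fm w p l c0 n1 a1 b1 a2 b2 xa n1 x + push (Icc lo hi \ cl2 a1 b1 a2 b2) (kf w p c0 n1) (fw w p l c0) x ≤
      fw w p l (c0 + n1) x := key.1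
  have k2 : fw w p l (c0 + n1) x ≤ (1 + δ) * Fm w p l c0 n1 a1 b1 a2 b2 xa n1 x +
      push (Icc lo hi \ cl2 a1 b1 a2 b2) (kf w p c0 n1) (fw w p l c0) x := key.2
  have k3 : Fm w p l c0 n1 a1 b1 a2 b2 xa n1 x ≤ fw w p l (c0 + n1) x := by linarith
  refine ⟨k3, ?_⟩
  have k4 := mul_le_mul_of_nonneg_left k3 h.δ0
  rw [abs_of_nonneg (by linarith)]
  linarith

/-- One start in the cells: both exits. -/
theorem out_cell {z : ℤ} (h1 : a1 ≤ z) (h2 : z ≤ b2) :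
    ∑ x ∈ (Icc lo hi).filter (fun x => ¬ (xa ≤ x ∧ x ≤ xb)), kf w p c0 n1 z x * bw w p (c0 + n1) m x ≤
      2 * ε * bw w p c0 (n1 + m) z := by
  have g := h.g
  have g7 := g.h7
  have g8 := g.h8
  push_cast at g8
  have g9 : (0 : ℤ) ≤ (j : ℤ) := by positivity
  exact out_le g.h5 (h.lx.mono hw hp h1) (h.rx.mono hw hp h2) (by omega) (by omega)

/-- **The amplitudes are bounded by the total mass.** -/
theorem amp_le : am w p c0 n1 a1 b1 xa (fw w p l c0) * bw w p c0 (n1 + m) a1 +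
    am w p c0 n1 a2 b2 xa (fw w p l c0) * bw w p c0 (n1 + m) a2 ≤ 2 * Tt w p lo hi l c0 (n1 + m) := by
  have g := h.g
  have g1 := g.h1
  have g2 := g.h2
  have g3 := g.h3
  have g7 := g.h7
  have g8 := g.h8
  push_cast at g8
  have g9 : (0 : ℤ) ≤ (j : ℤ) := by positivity
  have A := am_nn hw hp h
  have n0 : n1 ≤ n1 + j := Nat.le_add_right _ _
  have t := h.s.total n0 m
  have key : ∀ z, a1 ≤ z → z ≤ b2 → (1 - 2 * ε) * bw w p c0 (n1 + m) z ≤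
      ∑ x ∈ (Icc lo hi).filter (fun x => xa ≤ x ∧ x ≤ xb), kf w p c0 n1 z x * bw w p (c0 + n1) m x := by
    intro z h1 h2
    have k1 := out_cell hw hp h h1 h2
    have k2 := sum_filter_add_sum_filter_not (Icc lo hi) (fun x => xa ≤ x ∧ x ≤ xb)
      (fun x => kf w p c0 n1 z x * bw w p (c0 + n1) m x)
    rw [← ev_total c0 n1 m (a := z) (lo := lo) (hi := hi) (by omega) (by omega)] at k2
    linarith
  have k1 := mul_le_mul_of_nonneg_left (key a1 le_rfl (by omega)) A.1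
  have k2 := mul_le_mul_of_nonneg_left (key a2 (by omega) (by omega)) A.2
  have k3 : am w p c0 n1 a1 b1 xa (fw w p l c0) *
        (∑ x ∈ (Icc lo hi).filter (fun x => xa ≤ x ∧ x ≤ xb), kf w p c0 n1 a1 x * bw w p (c0 + n1) m x) +
      am w p c0 n1 a2 b2 xa (fw w p l c0) *
        (∑ x ∈ (Icc lo hi).filter (fun x => xa ≤ x ∧ x ≤ xb), kf w p c0 n1 a2 x * bw w p (c0 + n1) m x) ≤
      Tt w p lo hi l c0 (n1 + m) := by
    rw [mul_sum, mul_sum, ← sum_add_distrib]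
    unfold Tt
    rw [← t]
    refine (sum_le_sum (g := fun x => fw w p l (c0 + n1) x * bw w p (c0 + n1) m x) fun x hx => ?_).trans
      (sum_le_sum_of_subset_of_nonneg (filter_subset _ _) fun x _ _ =>
        mul_nonneg (fw_nonneg hw hp h.s.l0 _ x) (bw_pos hw hp _ _ _).le)
    have hx2 := (mem_filter.1 hx).2
    have r := (in_row hw hp h hx2.1 hx2.2).1
    unfold Fm at r
    have := mul_le_mul_of_nonneg_right r (bw_pos hw hp m (c0 + n1) x).le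
    linarith
  have T0 := Tt_nonneg hw hp h
  have e1 := h.ε1
  have e0 := h.ε0
  have B1 : 0 ≤ am w p c0 n1 a1 b1 xa (fw w p l c0) * bw w p c0 (n1 + m) a1 := mul_nonneg A.1 (bw_pos hw hp _ _ _).le
  have B2 : 0 ≤ am w p c0 n1 a2 b2 xa (fw w p l c0) * bw w p c0 (n1 + m) a2 := mul_nonneg A.2 (bw_pos hw hp _ _ _).le
  nlinarith

/-- **Entrance, row behind the slab.** -/
theorem ent_row : ∑ x ∈ Icc lo hi, |fw w p l (c0 + n1) x - Fm w p l c0 n1 a1 b1 a2 b2 xa n1 x| * bw w p (c0 + n1) m x ≤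
    (δ + 8 * ε) * Tt w p lo hi l c0 (n1 + m) := by
  have g := h.g
  have g1 := g.h1
  have g2 := g.h2
  have g3 := g.h3
  have A := am_nn hw hp h
  have amp := amp_le hw hp h
  have T0 := Tt_nonneg hw hp h
  have e0 := h.ε0
  have d0 := h.δ0
  have t := h.s.total (Nat.le_add_right n1 j) m
  have F0 := fw_nonneg (w := w) (p := p) hw hp h.s.l0
  have B0 := fun x => (bw_pos hw hp m (c0 + n1) x).le
  rw [← sum_filter_add_sum_filter_not (Icc lo hi) (fun x => xa ≤ x ∧ x ≤ xb)]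
  -- inside
  have i1 : ∑ x ∈ (Icc lo hi).filter (fun x => xa ≤ x ∧ x ≤ xb),
      |fw w p l (c0 + n1) x - Fm w p l c0 n1 a1 b1 a2 b2 xa n1 x| * bw w p (c0 + n1) m x ≤
        (δ + ε) * Tt w p lo hi l c0 (n1 + m) := by
    have s1 : ∑ x ∈ (Icc lo hi).filter (fun x => xa ≤ x ∧ x ≤ xb),
        |fw w p l (c0 + n1) x - Fm w p l c0 n1 a1 b1 a2 b2 xa n1 x| * bw w p (c0 + n1) m x ≤
        ∑ x ∈ Icc lo hi, (δ * (fw w p l (c0 + n1) x * bw w p (c0 + n1) m x) +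
          push (Icc lo hi \ cl2 a1 b1 a2 b2) (kf w p c0 n1) (fw w p l c0) x * bw w p (c0 + n1) m x) := by
      refine (sum_le_sum fun x hx => ?_).trans (sum_le_sum_of_subset_of_nonneg (filter_subset _ _) fun x _ _ => ?_)
      · have hx2 := (mem_filter.1 hx).2
        have r := (in_row hw hp h hx2.1 hx2.2).2
        have := mul_le_mul_of_nonneg_right r (B0 x)
        linarith
      · exact add_nonneg (mul_nonneg d0 (mul_nonneg (F0 _ x) (B0 x))) (mul_nonneg (rest_nonneg hw hp h x) (B0 x))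
    rw [sum_add_distrib, ← mul_sum, t, sum_push] at s1
    have s2 : ∑ z ∈ Icc lo hi \ cl2 a1 b1 a2 b2, fw w p l c0 z * ∑ x ∈ Icc lo hi, kf w p c0 n1 z x * bw w p (c0 + n1) m x ≤
        ε * Tt w p lo hi l c0 (n1 + m) := by
      refine (sum_le_sum fun z _ => ?_).trans h.cell
      exact mul_le_mul_of_nonneg_left (pull_le hw hp c0 n1 m _ z) (F0 c0 z)
    unfold Tt at s2 ⊢
    linarith
  -- outside
  have o1 : ∑ x ∈ (Icc lo hi).filter (fun x => ¬ (xa ≤ x ∧ x ≤ xb)), fw w p l (c0 + n1) x * bw w p (c0 + n1) m x ≤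
      3 * ε * Tt w p lo hi l c0 (n1 + m) := by
    have e : ∀ x ∈ (Icc lo hi).filter (fun x => ¬ (xa ≤ x ∧ x ≤ xb)), fw w p l (c0 + n1) x * bw w p (c0 + n1) m x =
        push (Icc lo hi) (kf w p c0 n1) (fw w p l c0) x * bw w p (c0 + n1) m x := fun x _ => by rw [h.s.push n1 x]
    rw [sum_congr rfl e, sum_push]
    have hc : cl2 a1 b1 a2 b2 ⊆ Icc lo hi := fun z hz => (mem_cl2 g hz).2.2
    rw [← sum_sdiff hc]
    have s1 : ∑ z ∈ Icc lo hi \ cl2 a1 b1 a2 b2, fw w p l c0 z *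
        ∑ x ∈ (Icc lo hi).filter (fun x => ¬ (xa ≤ x ∧ x ≤ xb)), kf w p c0 n1 z x * bw w p (c0 + n1) m x ≤
        ε * Tt w p lo hi l c0 (n1 + m) := by
      refine (sum_le_sum fun z _ => ?_).trans h.cell
      exact mul_le_mul_of_nonneg_left (pull_le hw hp c0 n1 m _ z) (F0 c0 z)
    have s2 : ∑ z ∈ cl2 a1 b1 a2 b2, fw w p l c0 z *
        ∑ x ∈ (Icc lo hi).filter (fun x => ¬ (xa ≤ x ∧ x ≤ xb)), kf w p c0 n1 z x * bw w p (c0 + n1) m x ≤
        2 * ε * Tt w p lo hi l c0 (n1 + m) := by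
      have s3 : ∑ z ∈ cl2 a1 b1 a2 b2, fw w p l c0 z *
          ∑ x ∈ (Icc lo hi).filter (fun x => ¬ (xa ≤ x ∧ x ≤ xb)), kf w p c0 n1 z x * bw w p (c0 + n1) m x ≤
          ∑ z ∈ cl2 a1 b1 a2 b2, 2 * ε * (fw w p l c0 z * bw w p c0 (n1 + m) z) := by
        refine sum_le_sum fun z hz => ?_
        have hz2 := mem_cl2 g hz
        have := mul_le_mul_of_nonneg_left (out_cell hw hp h hz2.1 hz2.2.1) (F0 c0 z)
        linarith
      refine s3.trans ?_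
      rw [← mul_sum]
      unfold Tt
      refine mul_le_mul_of_nonneg_left ?_ (by positivity)
      exact sum_le_sum_of_subset_of_nonneg hc fun z _ _ => mul_nonneg (F0 c0 z) (bw_pos hw hp _ _ _).le
    linarith
  have o2 : ∑ x ∈ (Icc lo hi).filter (fun x => ¬ (xa ≤ x ∧ x ≤ xb)),
      Fm w p l c0 n1 a1 b1 a2 b2 xa n1 x * bw w p (c0 + n1) m x ≤ 4 * ε * Tt w p lo hi l c0 (n1 + m) := by
    have e : ∑ x ∈ (Icc lo hi).filter (fun x => ¬ (xa ≤ x ∧ x ≤ xb)),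
        Fm w p l c0 n1 a1 b1 a2 b2 xa n1 x * bw w p (c0 + n1) m x =
        am w p c0 n1 a1 b1 xa (fw w p l c0) *
          (∑ x ∈ (Icc lo hi).filter (fun x => ¬ (xa ≤ x ∧ x ≤ xb)), kf w p c0 n1 a1 x * bw w p (c0 + n1) m x) +
        am w p c0 n1 a2 b2 xa (fw w p l c0) *
          (∑ x ∈ (Icc lo hi).filter (fun x => ¬ (xa ≤ x ∧ x ≤ xb)), kf w p c0 n1 a2 x * bw w p (c0 + n1) m x) := by
      rw [mul_sum, mul_sum, ← sum_add_distrib]
      unfold Fm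
      exact sum_congr rfl fun x _ => by ring
    rw [e]
    have s1 := mul_le_mul_of_nonneg_left (out_cell hw hp h (z := a1) le_rfl (by omega)) A.1
    have s2 := mul_le_mul_of_nonneg_left (out_cell hw hp h (z := a2) (by omega) (by omega)) A.2
    have s3 := mul_le_mul_of_nonneg_left amp (show 0 ≤ 2 * ε by positivity)
    linarith
  have o3 : ∑ x ∈ (Icc lo hi).filter (fun x => ¬ (xa ≤ x ∧ x ≤ xb)),
      |fw w p l (c0 + n1) x - Fm w p l c0 n1 a1 b1 a2 b2 xa n1 x| * bw w p (c0 + n1) m x ≤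
      ∑ x ∈ (Icc lo hi).filter (fun x => ¬ (xa ≤ x ∧ x ≤ xb)), fw w p l (c0 + n1) x * bw w p (c0 + n1) m x +
        ∑ x ∈ (Icc lo hi).filter (fun x => ¬ (xa ≤ x ∧ x ≤ xb)),
          Fm w p l c0 n1 a1 b1 a2 b2 xa n1 x * bw w p (c0 + n1) m x := by
    rw [← sum_add_distrib]
    refine sum_le_sum fun x _ => ?_
    rw [← add_mul]
    refine mul_le_mul_of_nonneg_right ?_ (B0 x)
    refine (abs_sub _ _).trans ?_
    rw [abs_of_nonneg (F0 _ x), abs_of_nonneg (Fm_nonneg hw hp h n1 x)]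
  linarith

end ent

end

end Pool.Agent.W_7d29a1_C1.F74
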