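import Pool.Agent.W_7d29a1_C1.Fact74B

/-!
Both halves (MP_7d29a1_pr), attractor route [C1]: FROM THE KERNELS TO THE DISTANCE OF TWO ROWS, third part : the row `k` and the
exit. (helper74)

`ent_mass` : the masses of one group at the row `k = c0 + n1 + j` are the model masses, in the norm of the path measure;
`exit_pt` : the backward masses at the row `k + 1` are `K` times the backward masses with flat end at the seam, pointwise.
-/

set_option autoImplicit false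
set_option linter.unusedSectionVars false

namespace Pool.Agent.W_7d29a1_C1.F74

open Finset Pool.Agent.W_7d29a1_C1.Gini76 Pool.Agent.W_7d29a1_C1.CR76 Pool.Agent.W_7d29a1_C1.K91P
  Pool.Agent.W_7d29a1_C1.Basin76 Pool.Agent.W_7d29a1_C1.R26P
open Pool.Agent.W_7d29a1_C1.K91 (shw)

noncomputable section

variable {w : ℕ → ℤ → ℝ} {p : ℕ → ℝ} {lo hi : ℤ} {c0 n1 j M : ℕ} {a1 b1 a2 b2 xa xb : ℤ} {l : ℤ → ℝ} {δ ε : ℝ}

/-! ### The row `k` -/

/-- One step of the profile is part of the backward masses. -/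
theorem prof_le (hw : ∀ k y, 0 < w k y) (hp : ∀ k, 0 < p k) (k M : ℕ) (y : ℤ) :
    w k y * bw w p (k + 1) M y ≤ bw w p k (M + 1) y := by
  rw [bw_succ]
  have h1 := hw k y
  have h2 := hp k
  have h3 := bw_pos hw hp M (k + 1) (y + 1)
  have h4 : 0 ≤ w k y * (p k * bw w p (k + 1) M (y + 1)) := by positivity
  linarith

/-- The model masses at the row `k` are pushed from the row `c0 + n1`. -/
theorem Fm_push (g : Geo lo hi n1 j a1 b1 a2 b2 xa xb) (y : ℤ) : Fm w p l c0 n1 a1 b1 a2 b2 xa (n1 + j) y =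
    push (Icc lo hi) (kf w p (c0 + n1) j) (Fm w p l c0 n1 a1 b1 a2 b2 xa n1) y := by
  have g1 := g.h1
  have g2 := g.h2
  have g3 := g.h3
  have g7 := g.h7
  have g8 := g.h8
  push_cast at g8
  have g9 : (0 : ℤ) ≤ (j : ℤ) := by positivity
  unfold Fm
  rw [kf_comp c0 n1 j a1 y (S := Icc lo hi) (Icc_subset_Icc (by omega) (by omega)),
    kf_comp c0 n1 j a2 y (S := Icc lo hi) (Icc_subset_Icc (by omega) (by omega))]
  unfold comp push
  rw [mul_sum, mul_sum, ← sum_add_distrib]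
  exact sum_congr rfl fun x _ => by ring

/-- **Entrance, row `k`** : in the norm of the path measure. -/
theorem ent_mass (hw : ∀ k y, 0 < w k y) (hp : ∀ k, 0 < p k)
    (h : Ent w p lo hi l c0 n1 j (j + (M + 1)) a1 b1 a2 b2 xa xb δ ε) :
    ∑ y ∈ Icc lo hi, w (c0 + n1 + j) y * (|fw w p l (c0 + n1 + j) y - Fm w p l c0 n1 a1 b1 a2 b2 xa (n1 + j) y| *
      bw w p (c0 + n1 + j + 1) M y) ≤ (δ + 8 * ε) * Tt w p lo hi l c0 (n1 + (j + (M + 1))) := by
  have off := h.s.off2 (Nat.le_add_right n1 j)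
  set D : ℤ → ℝ := fun x => |fw w p l (c0 + n1) x - Fm w p l c0 n1 a1 b1 a2 b2 xa n1 x| with hD
  have D0 : ∀ x, 0 ≤ D x := fun x => abs_nonneg _
  have s1 : ∀ y, |fw w p l (c0 + n1 + j) y - Fm w p l c0 n1 a1 b1 a2 b2 xa (n1 + j) y| ≤
      push (Icc lo hi) (kf w p (c0 + n1) j) D y := by
    intro y
    rw [fw_kf (c0 + n1) j off y, Fm_push h.g y]
    unfold push
    rw [← sum_sub_distrib]
    refine (abs_sum_le_sum_abs _ _).trans (sum_le_sum fun x _ => ?_)
    rw [← sub_mul, abs_mul, abs_of_nonneg (kf_nonneg hw hp _ _ _ _)]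
  have s2 : ∑ y ∈ Icc lo hi, w (c0 + n1 + j) y * (|fw w p l (c0 + n1 + j) y - Fm w p l c0 n1 a1 b1 a2 b2 xa (n1 + j) y| *
      bw w p (c0 + n1 + j + 1) M y) ≤
      ∑ y ∈ Icc lo hi, push (Icc lo hi) (kf w p (c0 + n1) j) D y * bw w p (c0 + n1 + j) (M + 1) y := by
    refine sum_le_sum fun y _ => ?_
    have h1 := prof_le hw hp (c0 + n1 + j) M y
    have h2 := mul_le_mul (s1 y) h1 (mul_nonneg (hw _ _).le (bw_pos hw hp _ _ _).le) ((abs_nonneg _).trans (s1 y))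
    linarith
  refine s2.trans ?_
  rw [sum_push]
  refine (sum_le_sum fun x _ => mul_le_mul_of_nonneg_left (pull_le hw hp (c0 + n1) j (M + 1) _ x) (D0 x)).trans ?_
  exact ent_row hw hp h

/-- The total mass at the row `k`. -/
theorem Msp.total_k (h : Msp w p lo hi l c0 (n1 + j)) (M : ℕ) :
    ∑ y ∈ Icc lo hi, w (c0 + n1 + j) y * (fw w p l (c0 + n1 + j) y *
      (bw w p (c0 + n1 + j + 1) M y + p (c0 + n1 + j) * bw w p (c0 + n1 + j + 1) M (y + 1))) =
      Tt w p lo hi l c0 (n1 + (j + (M + 1))) := by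
  have t := h.total le_rfl (M + 1)
  have e : n1 + (j + (M + 1)) = n1 + j + (M + 1) := by ring
  unfold Tt
  rw [e, ← t]
  have e2 : c0 + (n1 + j) = c0 + n1 + j := by ring
  rw [e2]
  refine sum_congr rfl fun y _ => ?_
  rw [bw_succ]
  ring

/-- **The tails of the model masses.** -/
theorem tail_mod (hw : ∀ k y, 0 < w k y) (hp : ∀ k, 0 < p k) {A1 A2 : ℝ} (hA1 : 0 ≤ A1) (hA2 : 0 ≤ A2)
    (g : Geo lo hi n1 j a1 b1 a2 b2 xa xb) {ua ub : ℤ} (hu : ua ≤ ub)
    (hl : LX w p c0 (n1 + j) (M + 1) a1 ua ε) (hr : RX w p c0 (n1 + j) (M + 1) b2 ub ε) :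
    ∑ y ∈ (Icc lo hi).filter (fun y => ¬ (ua ≤ y ∧ y ≤ ub)), w (c0 + n1 + j) y *
        ((A1 * kf w p c0 (n1 + j) a1 y + A2 * kf w p c0 (n1 + j) a2 y) * bw w p (c0 + n1 + j + 1) M y) ≤
      2 * ε * (A1 * bw w p c0 (n1 + j + (M + 1)) a1 + A2 * bw w p c0 (n1 + j + (M + 1)) a2) := by
  have g1 := g.h1
  have g2 := g.h2
  have g3 := g.h3
  have g7 := g.h7
  have g8 := g.h8
  have k1 := out_le hu hl (hr.mono hw hp (by omega)) (lo := lo) (hi := hi) (by omega) (by omega)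
  have k2 := out_le hu (hl.mono hw hp (show a1 ≤ a2 by omega)) (hr.mono hw hp g3) (lo := lo) (hi := hi) (by omega) (by omega)
  have k3 := mul_le_mul_of_nonneg_left k1 hA1
  have k4 := mul_le_mul_of_nonneg_left k2 hA2
  have e2 : c0 + (n1 + j) = c0 + n1 + j := by ring
  rw [e2] at k3 k4
  have k5 : ∑ y ∈ (Icc lo hi).filter (fun y => ¬ (ua ≤ y ∧ y ≤ ub)), w (c0 + n1 + j) y *
        ((A1 * kf w p c0 (n1 + j) a1 y + A2 * kf w p c0 (n1 + j) a2 y) * bw w p (c0 + n1 + j + 1) M y) ≤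
      A1 * (∑ y ∈ (Icc lo hi).filter (fun y => ¬ (ua ≤ y ∧ y ≤ ub)), kf w p c0 (n1 + j) a1 y * bw w p (c0 + n1 + j) (M + 1) y) +
      A2 * (∑ y ∈ (Icc lo hi).filter (fun y => ¬ (ua ≤ y ∧ y ≤ ub)), kf w p c0 (n1 + j) a2 y * bw w p (c0 + n1 + j) (M + 1) y) := by
    rw [mul_sum, mul_sum, ← sum_add_distrib]
    refine sum_le_sum fun y _ => ?_
    have h1 := prof_le hw hp (c0 + n1 + j) M y
    have h2 : 0 ≤ A1 * kf w p c0 (n1 + j) a1 y + A2 * kf w p c0 (n1 + j) a2 y :=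
      add_nonneg (mul_nonneg hA1 (kf_nonneg hw hp _ _ _ _)) (mul_nonneg hA2 (kf_nonneg hw hp _ _ _ _))
    have h3 := mul_le_mul_of_nonneg_left h1 h2
    linarith
  linarith

/-- The total mass of the model at the row `k`. -/
theorem total_mod (g : Geo lo hi n1 j a1 b1 a2 b2 xa xb) (A1 A2 : ℝ) (M : ℕ) :
    ∑ y ∈ Icc lo hi, w (c0 + n1 + j) y * ((A1 * kf w p c0 (n1 + j) a1 y + A2 * kf w p c0 (n1 + j) a2 y) *
      (bw w p (c0 + n1 + j + 1) M y + p (c0 + n1 + j) * bw w p (c0 + n1 + j + 1) M (y + 1))) =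
      A1 * bw w p c0 (n1 + j + (M + 1)) a1 + A2 * bw w p c0 (n1 + j + (M + 1)) a2 := by
  have g1 := g.h1
  have g2 := g.h2
  have g3 := g.h3
  have g7 := g.h7
  have g8 := g.h8
  rw [ev_total c0 (n1 + j) (M + 1) (a := a1) (lo := lo) (hi := hi) (by omega) (by omega),
    ev_total c0 (n1 + j) (M + 1) (a := a2) (lo := lo) (hi := hi) (by omega) (by omega), mul_sum, mul_sum, ← sum_add_distrib]
  have e2 : c0 + (n1 + j) = c0 + n1 + j := by ring
  rw [e2]
  refine sum_congr rfl fun y _ => ?_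
  rw [bw_succ]
  ring

/-! ### The exit -/

variable {r n2 n3 m : ℕ} {ya yb za zb : ℤ}

/-- The geometry of the exit. -/
structure Gex (n3 : ℕ) (ya yb za zb : ℤ) : Prop where
  h1 : ya ≤ yb
  h2 : yb ≤ za
  h3 : za ≤ zb
  h4 : zb ≤ ya + n3

/-- Amplitude of the exit. -/
def Ce (w : ℕ → ℤ → ℝ) (p : ℕ → ℝ) (r n2 n3 m : ℕ) (ya za zb : ℤ) : ℝ :=
  ∑ x ∈ Icc za zb, kf w p (r + n2) n3 ya x / kf w p (r + n2) n3 ya za * bw w p (r + n2 + n3) m x

theorem Ce_pos (hw : ∀ k y, 0 < w k y) (hp : ∀ k, 0 < p k) (g : Gex n3 ya yb za zb) (r n2 m : ℕ) :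
    0 < Ce w p r n2 n3 m ya za zb := by
  have g1 := g.h1
  have g2 := g.h2
  have g3 := g.h3
  have g4 := g.h4
  unfold Ce
  refine sum_pos' (fun x _ => mul_nonneg (div_nonneg (kf_nonneg hw hp _ _ _ _) (kf_nonneg hw hp _ _ _ _))
    (bw_pos hw hp _ _ _).le) ⟨za, mem_Icc.2 ⟨le_rfl, g3⟩, ?_⟩
  have h1 := kf_pos hw hp (r + n2) n3 (y := ya) (x := za) (by omega) (by omega)
  have h2 := bw_pos hw hp m (r + n2 + n3) za
  positivity

/-- The profile of the exit. -/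
def He (w : ℕ → ℤ → ℝ) (p : ℕ → ℝ) (r n2 n3 : ℕ) (ya yb za : ℤ) (y : ℤ) : ℝ :=
  ∑ z ∈ Icc ya yb, kf w p r n2 y z * kf w p (r + n2) n3 z za

theorem He_nonneg (hw : ∀ k y, 0 < w k y) (hp : ∀ k, 0 < p k) (y : ℤ) : 0 ≤ He w p r n2 n3 ya yb za y :=
  sum_nonneg fun _ _ => mul_nonneg (kf_nonneg hw hp _ _ _ _) (kf_nonneg hw hp _ _ _ _)

theorem filt_eq {lo hi za zb : ℤ} :
    (Icc lo hi).filter (fun x => ¬ (za ≤ x ∧ x ≤ zb)) = Icc lo hi \ Icc za zb := by
  ext x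
  rw [mem_filter, mem_sdiff, mem_Icc (a := za)]

/-- The hypotheses of one start. -/
structure Exs (w : ℕ → ℤ → ℝ) (p : ℕ → ℝ) (r n2 n3 m : ℕ) (y ya yb za zb : ℤ) (ε : ℝ) : Prop where
  l1 : LX w p r n2 (n3 + m) y ya ε
  r1 : RX w p r n2 (n3 + m) y yb ε
  l2 : LX w p r (n2 + n3) m y za ε
  r2 : RX w p r (n2 + n3) m y zb ε

/-- **Exit from one start.** -/
theorem exit_one (hw : ∀ k y, 0 < w k y) (hp : ∀ k, 0 < p k) (g : Gex n3 ya yb za zb) {y : ℤ}
    (c : CR (kf w p (r + n2) n3) ya yb za zb ≤ 1 + δ) (h : Exs w p r n2 n3 m y ya yb za zb ε) :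
    Ce w p r n2 n3 m ya za zb * He w p r n2 n3 ya yb za y ≤ bw w p r (n2 + (n3 + m)) y ∧
      (1 - 4 * ε) * bw w p r (n2 + (n3 + m)) y ≤ (1 + δ) * (Ce w p r n2 n3 m ya za zb * He w p r n2 n3 ya yb za y) := by
  have g1 := g.h1
  have g2 := g.h2
  have g3 := g.h3
  have g4 := g.h4
  set lo : ℤ := min y ya with hlo
  set hi : ℤ := max (y + n2 + n3) (yb + n3) with hhi
  have l1 : lo ≤ y := min_le_left _ _
  have l2 : lo ≤ ya := min_le_right _ _
  have l3 : y + n2 + n3 ≤ hi := le_max_left _ _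
  have l4 : yb + n3 ≤ hi := le_max_right _ _
  have n30 : (0 : ℤ) ≤ (n3 : ℤ) := by positivity
  set out : ℤ → ℝ := fun z => pull (Icc lo hi \ Icc za zb) (kf w p (r + n2) n3) (bw w p (r + n2 + n3) m) z with hout
  have out0 : ∀ z, 0 ≤ out z := fun z => by
    simp only [hout, pull]
    exact sum_nonneg fun x _ => mul_nonneg (kf_nonneg hw hp _ _ _ _) (bw_pos hw hp _ _ _).le
  have cell : ∀ z, ya ≤ z → z ≤ yb →
      Ce w p r n2 n3 m ya za zb * kf w p (r + n2) n3 z za + out z ≤ bw w p (r + n2) (n3 + m) z ∧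
      bw w p (r + n2) (n3 + m) z ≤ (1 + δ) * (Ce w p r n2 n3 m ya za zb * kf w p (r + n2) n3 z za) + out z := by
    intro z h1 h2
    exact exit_cell hw hp (r + n2) n3 m (lo := lo) (hi := hi) (ya := ya) (y := z) (yb := yb) (xa := za) (xb := zb)
      h1 h2 g2 g3 g4 l2 l4 c
  have sub : Icc ya yb ⊆ Icc lo hi := Icc_subset_Icc l2 (by omega)
  have tot := ev_total (w := w) (p := p) r n2 (n3 + m) (a := y) (lo := lo) (hi := hi) l1 (by omega)
  have fe : (Icc lo hi).filter (fun z => ya ≤ z ∧ z ≤ yb) = Icc ya yb := by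
    ext z
    rw [mem_filter, mem_Icc, mem_Icc]
    constructor
    · exact fun hz => hz.2
    · exact fun hz => ⟨⟨by omega, by omega⟩, hz⟩
  have split := sum_filter_add_sum_filter_not (Icc lo hi) (fun z => ya ≤ z ∧ z ≤ yb)
    (fun z => kf w p r n2 y z * bw w p (r + n2) (n3 + m) z)
  rw [← tot, fe] at split
  have o1 := out_le g1 h.l1 h.r1 l1 (show y + n2 ≤ hi by omega)
  have o2 : ∑ z ∈ Icc ya yb, kf w p r n2 y z * out z ≤ 2 * ε * bw w p r (n2 + (n3 + m)) y := by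
    have e1 : n2 + (n3 + m) = n2 + n3 + m := by ring
    have o3 := out_le g3 h.l2 h.r2 l1 (show y + (n2 + n3 : ℕ) ≤ hi by push_cast; omega)
    rw [e1]
    refine le_trans ?_ o3
    rw [filt_eq]
    have e2 : ∑ x ∈ Icc lo hi \ Icc za zb, kf w p r (n2 + n3) y x * bw w p (r + (n2 + n3)) m x =
        ∑ z ∈ Icc lo hi, kf w p r n2 y z * out z := by
      have e3 : ∀ x ∈ Icc lo hi \ Icc za zb, kf w p r (n2 + n3) y x * bw w p (r + (n2 + n3)) m x =
          ∑ z ∈ Icc lo hi, kf w p r n2 y z * (kf w p (r + n2) n3 z x * bw w p (r + n2 + n3) m x) := by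
        intro x _
        rw [kf_comp r n2 n3 y x (S := Icc lo hi) (Icc_subset_Icc l1 (by omega))]
        unfold comp
        rw [sum_mul]
        refine sum_congr rfl fun z _ => ?_
        have e4 : r + (n2 + n3) = r + n2 + n3 := by ring
        rw [e4]
        ring
      rw [sum_congr rfl e3, sum_comm]
      refine sum_congr rfl fun z _ => ?_
      simp only [hout, pull]
      rw [mul_sum]
    rw [e2]
    exact sum_le_sum_of_subset_of_nonneg sub fun z _ _ => mul_nonneg (kf_nonneg hw hp _ _ _ _) (out0 z)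
  have k0 : 0 ≤ ∑ z ∈ (Icc lo hi).filter (fun z => ¬ (ya ≤ z ∧ z ≤ yb)), kf w p r n2 y z * bw w p (r + n2) (n3 + m) z :=
    sum_nonneg fun z _ => mul_nonneg (kf_nonneg hw hp _ _ _ _) (bw_pos hw hp _ _ _).le
  have k1 : Ce w p r n2 n3 m ya za zb * He w p r n2 n3 ya yb za y + ∑ z ∈ Icc ya yb, kf w p r n2 y z * out z ≤
      ∑ z ∈ Icc ya yb, kf w p r n2 y z * bw w p (r + n2) (n3 + m) z := by
    unfold He
    rw [mul_sum, ← sum_add_distrib]
    refine sum_le_sum fun z hz => ?_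
    rw [mem_Icc] at hz
    have := mul_le_mul_of_nonneg_left (cell z hz.1 hz.2).1 (kf_nonneg hw hp r n2 y z)
    linarith
  have k2 : ∑ z ∈ Icc ya yb, kf w p r n2 y z * bw w p (r + n2) (n3 + m) z ≤
      (1 + δ) * (Ce w p r n2 n3 m ya za zb * He w p r n2 n3 ya yb za y) + ∑ z ∈ Icc ya yb, kf w p r n2 y z * out z := by
    unfold He
    rw [mul_sum, mul_sum, ← sum_add_distrib]
    refine sum_le_sum fun z hz => ?_
    rw [mem_Icc] at hz
    have := mul_le_mul_of_nonneg_left (cell z hz.1 hz.2).2 (kf_nonneg hw hp r n2 y z)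
    linarith
  have k3 : 0 ≤ ∑ z ∈ Icc ya yb, kf w p r n2 y z * out z :=
    sum_nonneg fun z _ => mul_nonneg (kf_nonneg hw hp _ _ _ _) (out0 z)
  constructor
  · linarith
  · linarith

/-- **Exit, pointwise** : the real future `m`, the inner future `0` (flat end at the seam). -/
theorem exit_pt (hw : ∀ k y, 0 < w k y) (hp : ∀ k, 0 < p k) (g : Gex n3 ya yb za zb) {y : ℤ} (δ0 : 0 ≤ δ) (ε0 : 0 ≤ ε)
    (ε1 : ε ≤ 1 / 8)
    (c : CR (kf w p (r + n2) n3) ya yb za zb ≤ 1 + δ) (h : Exs w p r n2 n3 m y ya yb za zb ε)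
    (h0 : Exs w p r n2 n3 0 y ya yb za zb ε) :
    |bw w p r (n2 + (n3 + m)) y - Ce w p r n2 n3 m ya za zb / Ce w p r n2 n3 0 ya za zb * bw w p r (n2 + n3) y| ≤
      (2 * δ + 8 * ε) * (Ce w p r n2 n3 m ya za zb / Ce w p r n2 n3 0 ya za zb * bw w p r (n2 + n3) y) := by
  have k1 := exit_one hw hp g c h
  have k2 := exit_one hw hp g c h0
  have C1 := Ce_pos hw hp g r n2 m
  have C0 := Ce_pos hw hp g r n2 0
  have H0 : 0 ≤ He w p r n2 n3 ya yb za y := He_nonneg hw hp y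
  have B0 := bw_pos hw hp (n2 + n3) r y
  have B1 := bw_pos hw hp (n2 + (n3 + m)) r y
  have e0 : bw w p r (n2 + (n3 + 0)) y = bw w p r (n2 + n3) y := rfl
  rw [e0] at k2
  generalize bw w p r (n2 + (n3 + m)) y = F at *
  generalize bw w p r (n2 + n3) y = G at *
  generalize He w p r n2 n3 ya yb za y = H at *
  generalize Ce w p r n2 n3 m ya za zb = C at *
  generalize Ce w p r n2 n3 0 ya za zb = D at *
  obtain ⟨a1, a2⟩ := k1
  obtain ⟨b1, b2⟩ := k2
  have K0 : 0 < C / D := div_pos C1 C0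
  have c1 : C * H ≤ C / D * G := by
    have := mul_le_mul_of_nonneg_left b1 K0.le
    have e : C / D * (D * H) = C * H := by
      field_simp
    linarith
  have c2 : (1 - 4 * ε) * (C / D * G) ≤ (1 + δ) * (C * H) := by
    have := mul_le_mul_of_nonneg_left b2 K0.le
    have e : C / D * ((1 + δ) * (D * H)) = (1 + δ) * (C * H) := by
      field_simp
    linarith
  have G0 : 0 < C / D * G := by positivity
  generalize C / D * G = Q at *
  have c3 : (1 - 4 * ε) * F ≤ (1 + δ) * Q := a2.trans (mul_le_mul_of_nonneg_left c1 (by linarith))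
  have c4 : (1 - 4 * ε) * Q ≤ (1 + δ) * F := c2.trans (mul_le_mul_of_nonneg_left a1 (by linarith))
  rw [abs_le]
  constructor
  · -- lower bound of F
    have h1 : (1 - δ) * ((1 - 4 * ε) * Q) ≤ F := by
      rcases le_or_gt 1 δ with h | h
      · have : (1 - δ) * ((1 - 4 * ε) * Q) ≤ 0 :=
          mul_nonpos_of_nonpos_of_nonneg (by linarith) (mul_nonneg (by linarith) G0.le)
        linarith
      · have := mul_le_mul_of_nonneg_left c4 (show 0 ≤ 1 - δ by linarith)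
        have h2 : 0 ≤ δ ^ 2 * F := by positivity
        nlinarith
    have h3 : 0 ≤ δ * ε * Q := by positivity
    nlinarith
  · -- upper bound of F
    have h1 : 0 ≤ (1 - 8 * ε) * (δ + 4 * ε) * Q := mul_nonneg (mul_nonneg (by linarith) (by positivity)) G0.le
    have h2 : (1 + δ) * Q ≤ (1 - 4 * ε) * ((1 + 2 * δ + 8 * ε) * Q) := by nlinarith
    have h4 : 0 < 1 - 4 * ε := by linarith
    have h5 : F ≤ (1 + 2 * δ + 8 * ε) * Q := le_of_mul_le_mul_left (c3.trans h2) h4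
    linarith

end

end Pool.Agent.W_7d29a1_C1.F74
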