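import Pool.Agent.W_7d29a1_C1.KerP16
import Pool.Agent.W_7d29a1_C1.Unc31

/-!
MP_7d29a1_pr, attractor route [C1], junction `uncovered => data of the block`: TRANSFER OF THE FAR MASSES BETWEEN ROWS. (helper77)

The separation bounds the masses of the far places at a row `i'` above the contact; the block data need them at its two edge rows.
`down77`: `i < i'`: the far places of the row `i` whose path is at most with probability `1/2` at a near place of the row `i'` (stay)
have at most twice the mass of the far places of the row `i'`. `up77`: `i' < i''`: the mass of the far places of the row `i''` is at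
most the mass of the places of the row `i'` which are not near plus `ε` times the total, if every near place of the row `i'` has a
path to the far places with probability at most `ε`.
-/

set_option autoImplicit false

namespace Pool.Agent.W_7d29a1_C1.H77

open Finset
open Pool.Agent.W_7d29a1_C1.K91 (Grp Box)
open Pool.Agent.W_7d29a1_C1.K91P
open Pool.Agent.W_7d29a1_C1.U31 (ms ms_nonneg sum_fw_bw)
open Pool.Agent.W_7d29a1_C1.U16 (ker fw_ker bw_ker ker_nonneg ker_eq_zero)

noncomputable section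

variable {w : ℕ → ℤ → ℝ} {p : ℕ → ℝ} {m : ℤ → ℝ} {lo hi : ℤ} {N : ℕ}

/-- Only the places of the box carry mass. -/
theorem fw_zero77 (hlo : ∀ y, y < lo → m y = 0) (hhi : ∀ y, hi - N < y → m y = 0) {i : ℕ} {y : ℤ}
    (h : ¬ (lo ≤ y ∧ y ≤ hi - N + i)) : fw w p m i y = 0 := by
  by_cases h1 : lo ≤ y
  · exact fw_hi (B := hi - N) (fun z hz => hhi z hz) i y (by omega)
  · exact fw_lo hlo i y (by omega)

/-- The joint mass of `A` at the row `i` and `B` at the row `i + n` is at most the mass of `B`. -/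
theorem joint_end77 (hw : ∀ k y, 0 < w k y) (hp : ∀ k, 0 < p k) (hm : ∀ y, 0 ≤ m y) (i n : ℕ) (A B : Finset ℤ) :
    ∑ y ∈ A, fw w p m i y * ∑ z ∈ B, ker w p i n y z * bw w p (i + n) (N - (i + n)) z ≤ ms w p N m (i + n) B := by
  have e1 : ∑ y ∈ A, fw w p m i y * ∑ z ∈ B, ker w p i n y z * bw w p (i + n) (N - (i + n)) z =
      ∑ z ∈ B, (∑ y ∈ A, fw w p m i y * ker w p i n y z) * bw w p (i + n) (N - (i + n)) z := by
    simp only [mul_sum, sum_mul]
    rw [sum_comm]
    exact sum_congr rfl fun z _ => sum_congr rfl fun y _ => by ring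
  rw [e1]
  unfold ms
  refine sum_le_sum fun z _ => mul_le_mul_of_nonneg_right ?_ (bw_pos hw hp _ _ _).le
  rw [fw_ker]
  have h0 : ∀ y, 0 ≤ fw w p m i y * ker w p i n y z := fun y =>
    mul_nonneg (fw_nonneg hw hp hm i y) (ker_nonneg hw hp i n y z)
  calc ∑ y ∈ A, fw w p m i y * ker w p i n y z
      = ∑ y ∈ A ∩ Icc (z - n) z, fw w p m i y * ker w p i n y z := by
        refine (sum_subset inter_subset_left fun y hy hy' => ?_).symm
        rw [ker_eq_zero (w := w) (p := p) i n y z fun h => hy' (mem_inter.2 ⟨hy, mem_Icc.2 ⟨by omega, h.1⟩⟩), mul_zero]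
    _ ≤ _ := sum_le_sum_of_subset_of_nonneg inter_subset_right fun y _ _ => h0 y

/-- **DOWN.** Far places of a lower row. -/
theorem down77 (hw : ∀ k y, 0 < w k y) (hp : ∀ k, 0 < p k) (hm : ∀ y, 0 ≤ m y) (hlo : ∀ y, y < lo → m y = 0)
    (hhi : ∀ y, hi - N < y → m y = 0) {i n : ℕ} (hin : i + n ≤ N) {A B : Finset ℤ}
    (hst : ∀ y ∈ A, lo ≤ y → y ≤ hi - N + i →
      ∑ z ∈ B, ker w p i n y z * bw w p (i + n) (N - (i + n)) z ≤ 1 / 2 * bw w p i (N - i) y) :
    ms w p N m i A ≤ 2 * ms w p N m (i + n) (Icc lo hi \ B) := by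
  have hf0 : ∀ x, 0 ≤ fw w p m i x := fun x => fw_nonneg hw hp hm i x
  have key : ∀ y ∈ A, fw w p m i y * bw w p i (N - i) y ≤
      2 * (fw w p m i y * ∑ z ∈ Icc lo hi \ B, ker w p i n y z * bw w p (i + n) (N - (i + n)) z) := by
    intro y hy
    by_cases hr : lo ≤ y ∧ y ≤ hi - N + i
    · have hs := hst y hy hr.1 hr.2
      have e : N - i = n + (N - (i + n)) := by omega
      have h1 : bw w p i (N - i) y = ∑ z ∈ Icc y (y + n), ker w p i n y z * bw w p (i + n) (N - (i + n)) z := by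
        rw [e]
        exact bw_ker (w := w) (p := p) i n (N - (i + n)) y
      have h0 : ∀ z, 0 ≤ ker w p i n y z * bw w p (i + n) (N - (i + n)) z := fun z =>
        mul_nonneg (ker_nonneg hw hp i n y z) (bw_pos hw hp _ _ _).le
      have h2 : ∑ z ∈ Icc y (y + n), ker w p i n y z * bw w p (i + n) (N - (i + n)) z ≤
          (∑ z ∈ B, ker w p i n y z * bw w p (i + n) (N - (i + n)) z) +
            ∑ z ∈ Icc lo hi \ B, ker w p i n y z * bw w p (i + n) (N - (i + n)) z := by
        rw [← sum_union (disjoint_sdiff)]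
        refine sum_le_sum_of_subset_of_nonneg (fun z hz => ?_) fun z _ _ => h0 z
        rw [mem_union, mem_sdiff]
        by_cases hB : z ∈ B
        · exact Or.inl hB
        · rw [mem_Icc] at hz
          exact Or.inr ⟨mem_Icc.2 ⟨by omega, by omega⟩, hB⟩
      have h3 : bw w p i (N - i) y ≤ 2 * ∑ z ∈ Icc lo hi \ B, ker w p i n y z * bw w p (i + n) (N - (i + n)) z := by
        linarith
      calc _ ≤ fw w p m i y * (2 * ∑ z ∈ Icc lo hi \ B, ker w p i n y z * bw w p (i + n) (N - (i + n)) z) :=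
            mul_le_mul_of_nonneg_left h3 (hf0 y)
        _ = _ := by ring
    · rw [fw_zero77 hlo hhi hr]
      simp
  calc ms w p N m i A ≤ ∑ y ∈ A, 2 * (fw w p m i y * ∑ z ∈ Icc lo hi \ B, ker w p i n y z * bw w p (i + n) (N - (i + n)) z) :=
        sum_le_sum key
    _ = 2 * ∑ y ∈ A, fw w p m i y * ∑ z ∈ Icc lo hi \ B, ker w p i n y z * bw w p (i + n) (N - (i + n)) z := by
        rw [mul_sum]
    _ ≤ _ := by
        refine mul_le_mul_of_nonneg_left (joint_end77 hw hp hm i n A _) (by norm_num)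

/-- **UP.** Far places of a higher row. -/
theorem up77 (hw : ∀ k y, 0 < w k y) (hp : ∀ k, 0 < p k) (hm : ∀ y, 0 ≤ m y) (hlo : ∀ y, y < lo → m y = 0)
    (hhi : ∀ y, hi - N < y → m y = 0) (hb : lo + N ≤ hi) {i n : ℕ} (hin : i + n ≤ N) {A B : Finset ℤ} {ε : ℝ} (hε : 0 ≤ ε)
    (hst : ∀ y ∈ B, lo ≤ y → y ≤ hi - N + i →
      ∑ z ∈ A, ker w p i n y z * bw w p (i + n) (N - (i + n)) z ≤ ε * bw w p i (N - i) y) :
    ms w p N m (i + n) A ≤ ms w p N m i (Icc lo hi \ B) + ε * ∑ x ∈ Icc lo hi, m x * bw w p 0 N x := by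
  have hf0 : ∀ x, 0 ≤ fw w p m i x := fun x => fw_nonneg hw hp hm i x
  have h0 : ∀ y z, 0 ≤ ker w p i n y z * bw w p (i + n) (N - (i + n)) z := fun y z =>
    mul_nonneg (ker_nonneg hw hp i n y z) (bw_pos hw hp _ _ _).le
  -- the mass at the row `i + n` comes from the row `i`
  have e1 : ms w p N m (i + n) A ≤
      ∑ y ∈ Icc lo hi, fw w p m i y * ∑ z ∈ A, ker w p i n y z * bw w p (i + n) (N - (i + n)) z := by
    have e2 : ∑ y ∈ Icc lo hi, fw w p m i y * ∑ z ∈ A, ker w p i n y z * bw w p (i + n) (N - (i + n)) z =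
        ∑ z ∈ A, (∑ y ∈ Icc lo hi, fw w p m i y * ker w p i n y z) * bw w p (i + n) (N - (i + n)) z := by
      simp only [mul_sum, sum_mul]
      rw [sum_comm]
      exact sum_congr rfl fun z _ => sum_congr rfl fun y _ => by ring
    rw [e2]
    unfold ms
    refine sum_le_sum fun z _ => mul_le_mul_of_nonneg_right ?_ (bw_pos hw hp _ _ _).le
    rw [fw_ker]
    calc ∑ y ∈ Icc (z - n) z, fw w p m i y * ker w p i n y z
        = ∑ y ∈ Icc (z - n) z ∩ Icc lo hi, fw w p m i y * ker w p i n y z := by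
          refine (sum_subset inter_subset_left fun y hy hy' => ?_).symm
          have h1 : ¬ (lo ≤ y ∧ y ≤ hi - N + i) := by
            intro h1
            exact hy' (mem_inter.2 ⟨hy, mem_Icc.2 ⟨h1.1, by omega⟩⟩)
          rw [fw_zero77 hlo hhi h1, zero_mul]
      _ ≤ _ := sum_le_sum_of_subset_of_nonneg inter_subset_right fun y _ _ =>
          mul_nonneg (hf0 y) (ker_nonneg hw hp i n y z)
  have e3 : ∀ y, lo ≤ y → y ≤ hi - N + i →
      ∑ z ∈ A, ker w p i n y z * bw w p (i + n) (N - (i + n)) z ≤ bw w p i (N - i) y := by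
    intro y _ _
    have e : N - i = n + (N - (i + n)) := by omega
    rw [e, bw_ker (w := w) (p := p) i n (N - (i + n)) y]
    calc ∑ z ∈ A, ker w p i n y z * bw w p (i + n) (N - (i + n)) z
        = ∑ z ∈ A ∩ Icc y (y + n), ker w p i n y z * bw w p (i + n) (N - (i + n)) z := by
          refine (sum_subset inter_subset_left fun z hz hz' => ?_).symm
          rw [ker_eq_zero (w := w) (p := p) i n y z fun h => hz' (mem_inter.2 ⟨hz, mem_Icc.2 h⟩), zero_mul]
      _ ≤ _ := sum_le_sum_of_subset_of_nonneg inter_subset_right fun z _ _ => h0 y z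
  have e4 : ∀ y ∈ Icc lo hi, fw w p m i y * ∑ z ∈ A, ker w p i n y z * bw w p (i + n) (N - (i + n)) z ≤
      (if y ∈ B then 0 else fw w p m i y * bw w p i (N - i) y) + ε * (fw w p m i y * bw w p i (N - i) y) := by
    intro y _
    have hbw : 0 ≤ bw w p i (N - i) y := (bw_pos hw hp _ _ _).le
    have hnn : 0 ≤ ε * (fw w p m i y * bw w p i (N - i) y) := mul_nonneg hε (mul_nonneg (hf0 y) hbw)
    by_cases hr : lo ≤ y ∧ y ≤ hi - N + i
    · by_cases hB : y ∈ B
      · rw [if_pos hB, zero_add]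
        calc _ ≤ fw w p m i y * (ε * bw w p i (N - i) y) := mul_le_mul_of_nonneg_left (hst y hB hr.1 hr.2) (hf0 y)
          _ = _ := by ring
      · rw [if_neg hB]
        have := mul_le_mul_of_nonneg_left (e3 y hr.1 hr.2) (hf0 y)
        linarith
    · rw [fw_zero77 hlo hhi hr]
      simp
  refine e1.trans ((sum_le_sum e4).trans ?_)
  rw [sum_add_distrib, ← mul_sum, sum_fw_bw hlo hhi hb i (by omega)]
  refine add_le_add (le_of_eq ?_) le_rfl
  unfold ms
  rw [← sum_filter_add_sum_filter_not (Icc lo hi) (· ∈ B)]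
  rw [sum_eq_zero fun y hy => if_pos (mem_filter.1 hy).2, zero_add]
  have e5 : (Icc lo hi).filter (fun y => y ∉ B) = Icc lo hi \ B := by
    ext y
    rw [mem_filter, mem_sdiff]
  rw [e5]
  exact sum_congr rfl fun y hy => if_neg (mem_sdiff.1 hy).2

/-- The two transfers for one row of the separation `i'` between the edge rows `i` and `i + n`, in the form of the prices of `un31`. -/
theorem price77 (hw : ∀ k y, 0 < w k y) (hp : ∀ k, 0 < p k) (hm : ∀ y, 0 ≤ m y) (hlo : ∀ y, y < lo → m y = 0)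
    (hhi : ∀ y, hi - N < y → m y = 0) (hb : lo + N ≤ hi) {i n₁ n₂ : ℕ} (hin : i + (n₁ + n₂) ≤ N) {A A' B : Finset ℤ} {κ κ' : ℝ}
    (hfar : ms w p N m (i + n₁) (Icc lo hi \ B) ≤ Real.exp (-κ) * ∑ x ∈ Icc lo hi, m x * bw w p 0 N x)
    (hdn : ∀ y ∈ A, lo ≤ y → y ≤ hi - N + i →
      ∑ z ∈ B, ker w p i n₁ y z * bw w p (i + n₁) (N - (i + n₁)) z ≤ 1 / 2 * bw w p i (N - i) y)
    (hup : ∀ y ∈ B, lo ≤ y → y ≤ hi - N + (i + n₁ : ℕ) →
      ∑ z ∈ A', ker w p (i + n₁) n₂ y z * bw w p (i + n₁ + n₂) (N - (i + n₁ + n₂)) z ≤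
        Real.exp (-κ') * bw w p (i + n₁) (N - (i + n₁)) y) :
    ms w p N m i A ≤ 2 * Real.exp (-κ) * ∑ x ∈ Icc lo hi, m x * bw w p 0 N x ∧
      ms w p N m (i + (n₁ + n₂)) A' ≤ (Real.exp (-κ) + Real.exp (-κ')) * ∑ x ∈ Icc lo hi, m x * bw w p 0 N x := by
  constructor
  · have h1 := down77 hw hp hm hlo hhi (i := i) (n := n₁) (by omega) hdn
    linarith
  · have h1 := up77 hw hp hm hlo hhi hb (i := i + n₁) (n := n₂) (by omega) (Real.exp_pos (-κ')).le hup
    have e : i + (n₁ + n₂) = i + n₁ + n₂ := by omega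
    rw [e]
    linarith

end

end Pool.Agent.W_7d29a1_C1.H77
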