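import Pool.Agent.W_7d29a1_C1.SepDef53
import Pool.Agent.W_7d29a1_C1.Trf77

/-!
MP_7d29a1_pr, attractor route [C1], junction SEP => data of the block: `uncovered` in the letters of `un31`. (helper77)

`down31`: the form of `down77` with arbitrary sets. `met77`: the early mass `em` of the separation bounds the mass of the pairs which have
met before the row `i`. `unc_em`, `unc_fa`: a scale `t` of a contact which is not covered gives, for every distance scale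
`k ≥ t + m0`, the early mass and the far masses of both groups at the coarse rows `fr t τ`.
-/

set_option autoImplicit false

namespace Pool.Agent.W_7d29a1_C1.H77

open Finset MeasureTheory
open Pool.Agent.W_7d29a1_F
open Pool.Agent.W_7d29a1_C1.K91 (Grp Box wt wt_pos)
open Pool.Agent.W_7d29a1_C1.K91P
open Pool.Agent.W_7d29a1_C1.U31 (ms ms_nonneg sum_fw_bw)
open Pool.Agent.W_7d29a1_C1.U16 (ker fw_ker bw_ker ker_nonneg ker_eq_zero)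
open Pool.Agent.W_7d29a1_C1.H60
open Pool.Agent.W_7d29a1_C1.G37 (Gm)
open Pool.Agent.W_7d29a1_C1.H49 (Par em ex Cov Cv)
open Pool.Agent.W_7d29a1_C1.E53
open Pool.Agent.W_7d29a1_C1.SD53 (XX bx)
open scoped ENNReal

noncomputable section

section Det

variable {w : ℕ → ℤ → ℝ} {p : ℕ → ℝ} {m : ℤ → ℝ} {lo hi : ℤ} {N : ℕ}

theorem ms_mono77 (hw : ∀ k y, 0 < w k y) (hp : ∀ k, 0 < p k) (hm : ∀ y, 0 ≤ m y) (k : ℕ) {A B : Finset ℤ} (h : A ⊆ B) :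
    ms w p N m k A ≤ ms w p N m k B :=
  sum_le_sum_of_subset_of_nonneg h fun y _ _ => mul_nonneg (fw_nonneg hw hp hm k y) (bw_pos hw hp _ _ _).le

/-- **DOWN**, the far places `S` of the row `i` against the far places `A` of the row `i + n`. -/
theorem down31 (hw : ∀ k y, 0 < w k y) (hp : ∀ k, 0 < p k) (hm : ∀ y, 0 ≤ m y) (hlo : ∀ y, y < lo → m y = 0)
    (hhi : ∀ y, hi - N < y → m y = 0) {i n : ℕ} (hin : i + n ≤ N) {S A : Finset ℤ}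
    (hst : ∀ x ∈ S, fw w p m i x ≠ 0 →
      ∑ v ∈ Icc lo hi \ A, ker w p i n x v * bw w p (i + n) (N - (i + n)) v ≤ 1 / 2 * bw w p i (N - i) x) :
    ms w p N m i S ≤ 2 * ms w p N m (i + n) A := by
  classical
  have e1 : ms w p N m i S = ms w p N m i (S.filter fun x => fw w p m i x ≠ 0) := by
    unfold ms
    rw [sum_filter]
    refine sum_congr rfl fun x _ => ?_
    by_cases h : fw w p m i x = 0
    · rw [if_neg (not_not.2 h), h, zero_mul]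
    · rw [if_pos h]
  rw [e1]
  refine (down77 hw hp hm hlo hhi hin (B := Icc lo hi \ A) fun y hy _ _ => ?_).trans ?_
  · exact hst y (mem_filter.1 hy).1 (mem_filter.1 hy).2
  · refine mul_le_mul_of_nonneg_left (ms_mono77 hw hp hm _ ?_) (by norm_num)
    intro y hy
    rw [mem_sdiff, mem_sdiff] at hy
    by_contra hA
    exact hy.2 ⟨hy.1, hA⟩

end Det

variable {Γ : Cx} {G : Gm}

/-- The mass of one group, the two names. -/
theorem PG_ms (m : ℤ → ℝ) (k : ℕ) (A : Finset ℤ) (ω : Env) : PG Γ m k A ω = ms (wt ω) Γ.p Γ.N m k A := rfl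

theorem ZG_sum (m : ℤ → ℝ) (ω : Env) : ZG Γ m ω = ∑ x ∈ Icc (0 : ℤ) Γ.hi, m x * bw (wt ω) Γ.p 0 Γ.N x := rfl

/-- **The pairs which have met before the row `i`.** -/
theorem met77 (h : Γ.Ok) {ω : Env} {i : ℕ} (hi : i ≤ Γ.N) {x : XX Γ} {D : ℤ} (hD : (i : ℤ) ≤ (x.1.1 : ℤ) - D) {κ : ℝ}
    (hem : em (SD53.row Γ) (SD53.w Γ) D x ω < ex (-κ)) :
    ∑ j ∈ range i, mt (wt ω) Γ.p Cx.l Γ.r 0 Γ.hi Γ.N j ≤
      Real.exp (-κ) * ((∑ y ∈ Icc (0 : ℤ) Γ.hi, Cx.l y * bw (wt ω) Γ.p 0 Γ.N y) *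
        ∑ y ∈ Icc (0 : ℤ) Γ.hi, Γ.r y * bw (wt ω) Γ.p 0 Γ.N y) := by
  have hM := Γ.ZM_pos ω
  have hR := Cx.ZR_pos h ω
  have hZ : 0 < Γ.ZM ω * Γ.ZR ω := mul_pos hM hR
  set k := min ((x.1.1 : ℤ) - D).toNat Γ.N with hk
  have hik : i ≤ k := le_min (by omega) hi
  rw [SD53.em_nmt h] at hem
  unfold ex at hem
  have h1 : 1 - Γ.nmt k ω < Real.exp (-κ) := by
    by_contra hcon
    exact absurd hem (not_lt.2 (ENNReal.ofReal_le_ofReal (not_lt.1 hcon)))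
  have h2 := Cx.nmt_anti h ω hik (min_le_right _ _)
  have h3 := nm_total (w := wt ω) (p := Γ.p) (Cx.box1 h) i hi
  have e1 : ∑ y ∈ Icc (0 : ℤ) Γ.hi, Cx.l y * bw (wt ω) Γ.p 0 Γ.N y = Γ.ZM ω := Cx.ZM_eq h ω
  have e2 : ∑ y ∈ Icc (0 : ℤ) Γ.hi, Γ.r y * bw (wt ω) Γ.p 0 Γ.N y = Γ.ZR ω := rfl
  rw [e1, e2] at h3 ⊢
  have h4 : nm (wt ω) Γ.p Cx.l Γ.r 0 Γ.hi Γ.N i = Γ.nmt i ω * (Γ.ZM ω * Γ.ZR ω) := by
    unfold Cx.nmt
    rw [div_mul_cancel₀ _ hZ.ne']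
  have h5 : ∑ j ∈ range i, mt (wt ω) Γ.p Cx.l Γ.r 0 Γ.hi Γ.N j = (1 - Γ.nmt i ω) * (Γ.ZM ω * Γ.ZR ω) := by
    rw [sub_mul, one_mul, ← h4]
    linarith
  rw [h5]
  exact mul_le_mul_of_nonneg_right (by linarith) hZ.le

variable {X : Type*} {p : Par (XX Γ)} {t τ k : ℕ} {σ : ℝ} {x : XX Γ} {ω : Env}

/-- A scale which is not covered: the early mass. -/
theorem unc_em (hu : ¬ Cov p (SD53.w Γ) (SD53.fa Γ G) t τ σ x ω) (hk : t + p.m0 ≤ k) (hkM : k ≤ p.M) :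
    em p.row (SD53.w Γ) (p.dk k τ) x ω < ex (-(p.th t k + σ)) := by
  by_contra hcon
  exact hu ⟨k, mem_Icc.2 ⟨hk, hkM⟩, Or.inl (not_lt.1 hcon)⟩

/-- A scale which is not covered: the far masses. -/
theorem unc_fa (hu : ¬ Cov p (SD53.w Γ) (SD53.fa Γ G) t τ σ x ω) (hk : t + p.m0 ≤ k) (hkM : k ≤ p.M) :
    SD53.fa Γ G t k τ x ω < ex (-(p.th t k + σ)) := by
  by_contra hcon
  exact hu ⟨k, mem_Icc.2 ⟨hk, hkM⟩, Or.inr (not_lt.1 hcon)⟩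

/-- The far mass of one group from the far mass of the contact. -/
theorem far_of_fa (h : Γ.Ok) {κ : ℝ} (hfa : SD53.fa Γ G t k τ x ω < ex (-κ)) {r : ℕ} (hr : (r : ℤ) ∈ G.fr t τ x.1) (hrN : r ≤ Γ.N) :
    ms (wt ω) Γ.p Γ.N Cx.l r (bx Γ (G.fs k τ x.1 r)) ≤ Real.exp (-κ) * ∑ y ∈ Icc (0 : ℤ) Γ.hi, Cx.l y * bw (wt ω) Γ.p 0 Γ.N y ∧
      ms (wt ω) Γ.p Γ.N Γ.r r (bx Γ (G.fs k τ x.1 r)) ≤ Real.exp (-κ) * ∑ y ∈ Icc (0 : ℤ) Γ.hi, Γ.r y * bw (wt ω) Γ.p 0 Γ.N y := by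
  have h0 : ENNReal.ofReal (SD53.PX Γ Cx.l r (G.fs k τ x.1 r) ω) + ENNReal.ofReal (SD53.PX Γ Γ.r r (G.fs k τ x.1 r) ω) ≤
      SD53.fa Γ G t k τ x ω := by
    unfold SD53.fa
    have h1 : (r : ℤ) ∈ (G.fr t τ x.1).filter (fun r => r ≤ (Γ.N : ℤ)) := mem_filter.2 ⟨hr, by exact_mod_cast hrN⟩
    have h2 := single_le_sum (f := fun r : ℤ => ENNReal.ofReal (SD53.PX Γ Cx.l r.toNat (G.fs k τ x.1 r) ω) +
      ENNReal.ofReal (SD53.PX Γ Γ.r r.toNat (G.fs k τ x.1 r) ω)) (fun _ _ => zero_le) h1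
    simpa using h2
  have h1 : ENNReal.ofReal (SD53.PX Γ Cx.l r (G.fs k τ x.1 r) ω) < ex (-κ) := (le_self_add.trans h0).trans_lt hfa
  have h2 : ENNReal.ofReal (SD53.PX Γ Γ.r r (G.fs k τ x.1 r) ω) < ex (-κ) := (le_add_self.trans h0).trans_lt hfa
  have key : ∀ {m : ℤ → ℝ}, 0 < ZG Γ m ω → ENNReal.ofReal (SD53.PX Γ m r (G.fs k τ x.1 r) ω) < ex (-κ) →
      ms (wt ω) Γ.p Γ.N m r (bx Γ (G.fs k τ x.1 r)) ≤ Real.exp (-κ) * ∑ y ∈ Icc (0 : ℤ) Γ.hi, m y * bw (wt ω) Γ.p 0 Γ.N y := by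
    intro m hZ hlt
    have h3 : SD53.PX Γ m r (G.fs k τ x.1 r) ω ≤ Real.exp (-κ) := by
      by_contra hcon
      exact absurd hlt (not_lt.2 (ENNReal.ofReal_le_ofReal (not_le.1 hcon).le))
    unfold SD53.PX at h3
    rw [div_le_iff₀ hZ] at h3
    exact h3
  exact ⟨key (SD53.ZG_l_pos h ω) h1, key (SD53.ZG_r_pos h ω) h2⟩

end

end Pool.Agent.W_7d29a1_C1.H77
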