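import Pool.Agent.W_7d29a1_C1.FaAv25
import Pool.Agent.W_7d29a1_C1.Osc22
import Pool.Agent.W_7d29a1_C1.UncM77

/-!
Both halves (MP_7d29a1_pr), [C1] attractor route, junction SEP => SHELL: THE FULL FAR MASS OF A SCALE WHICH IS NOT COVERED. (helper75)

The far mass `FA25.fa` of the separation counts the paths which avoid the ball `Av`. The block needs the full far mass. The clause
`NS` (forward steepness): from every site of the ball one is in the far set of a coarse row with a small probability, all distance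
scales `k ≥ t + m0` at once. `NS` enters only the count of the scales which are not usable.
* `meas_Ste`, `meas_NS`, `NS_mono` ;
* `far_ms` : full far mass `≤ (e ^ (- κ) + s) * total` ;
* `unc_em75`, `unc_fa75` : a scale which is not covered, any far mass `fa` ;
* `far_of_fa75` : one coarse row, both groups ; **`unc75`** : all distance scales and all coarse rows of an uncovered scale in `NS`.
-/

set_option autoImplicit false

namespace Pool.Agent.W_7d29a1_C1.FT75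

open Finset MeasureTheory
open Pool.Agent.W_7d29a1_F
open Pool.Agent.W_7d29a1_C1.K91 (Grp Box wt wt_pos measurable_wt)
open Pool.Agent.W_7d29a1_C1.K91P
open Pool.Agent.W_7d29a1_C1.U31 (ms)
open Pool.Agent.W_7d29a1_C1.U16 (ker)
open Pool.Agent.W_7d29a1_C1.Sp22 (Ms)
open Pool.Agent.W_7d29a1_C1.H60
open Pool.Agent.W_7d29a1_C1.G37 (Gm)
open Pool.Agent.W_7d29a1_C1.H49 (Par em ex Cov)
open Pool.Agent.W_7d29a1_C1.E53
open Pool.Agent.W_7d29a1_C1.SD53 (XX bx bx_sub bx_mono)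
open Pool.Agent.W_7d29a1_C1.FA25 (Av PK PA)
open Pool.Agent.W_7d29a1_C1.O22 (Ste)
open scoped ENNReal

noncomputable section

variable {Γ : Cx} {G : Gm}

/-! ### The clause -/

theorem meas_ker75 (i n : ℕ) (x y : ℤ) : Measurable fun ω : Env => ker (wt ω) Γ.p i n x y := by
  have h := pm_fw (W := fun ω : Env => fun j z => wt ω (i + j) z) (p := fun j => Γ.p (i + j))
    (l := fun _ : Env => Pool.Agent.W_7d29a1_C1.U16.dlt x) (fun j z => measurable_wt (i + j) z) (fun _ => measurable_const) n y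
  exact h

theorem meas_Ste (B : Set (ℕ × ℤ)) (r : ℕ) (F : Finset ℤ) (s : ℝ) : MeasurableSet {ω | Ste Γ B r F s ω} := by
  unfold Ste
  simp only [Set.setOf_forall]
  refine MeasurableSet.iInter fun i => MeasurableSet.iInter fun x => MeasurableSet.iInter fun _ => MeasurableSet.iInter fun _ =>
    measurableSet_le ?_ ?_
  · exact Finset.measurable_fun_sum _ fun z _ => (meas_ker75 _ _ _ _).mul (pm_bw (W := wt) (p := Γ.p) measurable_wt _ _ _)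
  · exact measurable_const.mul (pm_bw (W := wt) (p := Γ.p) measurable_wt _ _ _)

variable (Γ G) in
/-- **Forward steepness of the ball** of the scale `t` : the bounds `s k`, all distance scales `k ≥ t + m0`, all coarse rows. -/
def NS (p : Par (XX Γ)) (t τ : ℕ) (s : ℕ → ℝ) (x : XX Γ) : Set Env :=
  {ω | ∀ k ∈ Icc (t + p.m0) p.M, ∀ r ∈ G.fr t τ x.1, r ≤ (Γ.N : ℤ) →
    Ste Γ (Av G t τ x.1) r.toNat (bx Γ (G.fs k τ x.1 r)) (s k) ω}

theorem meas_NS (p : Par (XX Γ)) (t τ : ℕ) (s : ℕ → ℝ) (x : XX Γ) : MeasurableSet (NS Γ G p t τ s x) := by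
  unfold NS
  simp only [Set.setOf_forall]
  exact MeasurableSet.biInter (Set.to_countable _) fun k _ => MeasurableSet.biInter (Set.to_countable _) fun r _ =>
    MeasurableSet.iInter fun _ => meas_Ste _ _ _ _

theorem NS_mono {p : Par (XX Γ)} {t τ : ℕ} {s s' : ℕ → ℝ} {x : XX Γ} (h : ∀ k ∈ Icc (t + p.m0) p.M, s k ≤ s' k) :
    NS Γ G p t τ s x ⊆ NS Γ G p t τ s' x := fun _ hω k hk r hr hrN => (hω k hk r hr hrN).mono le_rfl le_rfl (h k hk)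

/-- The clause from the steepness of a larger ball. -/
theorem NS_of {p : Par (XX Γ)} {t τ : ℕ} {s : ℕ → ℝ} {x : XX Γ} {B : Set (ℕ × ℤ)} (hB : Av G t τ x.1 ⊆ B) {ω : Env}
    (h : ∀ k, t + p.m0 ≤ k → k ≤ p.M → ∀ r : ℕ, (r : ℤ) ∈ G.fr t τ x.1 → r ≤ Γ.N →
      Ste Γ B r (bx Γ (G.fs k τ x.1 r)) (s k) ω) : ω ∈ NS Γ G p t τ s x := by
  intro k hk r hr hrN
  rw [mem_Icc] at hk
  have hr0 : (0 : ℤ) ≤ r := by
    have hr1 := hr
    unfold Gm.fr at hr1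
    rw [mem_filter, mem_Icc] at hr1
    have h1 := G.T_pos' t
    have h2 : (0 : ℤ) ≤ (x.1.1 : ℤ) := by positivity
    linarith [hr1.1.1]
  have e1 : ((r.toNat : ℕ) : ℤ) = r := Int.toNat_of_nonneg hr0
  have h2 := h k hk.1 hk.2 r.toNat (by rw [e1]; exact hr) (by omega)
  rw [e1] at h2
  exact h2.mono hB le_rfl le_rfl

/-! ### The full far mass -/

/-- One group, one row. -/
theorem far_ms {m : ℤ → ℝ} (hm : Ms m 0 Γ.hi Γ.N) {ω : Env} {κ : ℝ} {r : ℕ} (hrN : r ≤ Γ.N) {B : Set (ℕ × ℤ)} {A : Finset ℤ}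
    (hA : A ⊆ Icc 0 Γ.hi) (hPK : PK Γ m B r A ω ≤ κ * ZG Γ m ω) {s : ℝ} (hs : 0 ≤ s) (hst : Ste Γ B r A s ω) :
    PG Γ m r A ω ≤ (κ + s) * ZG Γ m ω := by
  have h1 := FA25.far_total hm (B := B) hrN hA hs (ω := ω) hst.bf
  rw [add_mul]
  linarith

variable {X : Type*} {p : Par (XX Γ)} {t τ k : ℕ} {σ : ℝ} {x : XX Γ} {ω : Env} {fa : ℕ → ℕ → ℕ → XX Γ → Env → ℝ≥0∞}

/-- A scale which is not covered: the early mass. -/
theorem unc_em75 (hu : ¬ Cov p (SD53.w Γ) fa t τ σ x ω) (hk : t + p.m0 ≤ k) (hkM : k ≤ p.M) :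
    em p.row (SD53.w Γ) (p.dk k τ) x ω < ex (-(p.th t k + σ)) := by
  by_contra hcon
  exact hu ⟨k, mem_Icc.2 ⟨hk, hkM⟩, Or.inl (not_lt.1 hcon)⟩

/-- A scale which is not covered: the far masses. -/
theorem unc_fa75 (hu : ¬ Cov p (SD53.w Γ) fa t τ σ x ω) (hk : t + p.m0 ≤ k) (hkM : k ≤ p.M) :
    fa t k τ x ω < ex (-(p.th t k + σ)) := by
  by_contra hcon
  exact hu ⟨k, mem_Icc.2 ⟨hk, hkM⟩, Or.inr (not_lt.1 hcon)⟩

/-- **THE FULL FAR MASS OF ONE COARSE ROW**, both groups, from the far mass off the ball and the steepness of the ball. -/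
theorem far_of_fa75 (h : Γ.Ok) {κ : ℝ} (hfa : FA25.fa Γ G t k τ x ω < ex (-κ)) {r : ℕ} (hr : (r : ℤ) ∈ G.fr t τ x.1)
    (hrN : r ≤ Γ.N) {s : ℝ} (hs : 0 ≤ s) (hst : Ste Γ (Av G t τ x.1) r (bx Γ (G.fs k τ x.1 r)) s ω) :
    ms (wt ω) Γ.p Γ.N Cx.l r (bx Γ (G.fs k τ x.1 r)) ≤ (Real.exp (-κ) + s) * ∑ y ∈ Icc (0 : ℤ) Γ.hi, Cx.l y * bw (wt ω) Γ.p 0 Γ.N y ∧
      ms (wt ω) Γ.p Γ.N Γ.r r (bx Γ (G.fs k τ x.1 r)) ≤
        (Real.exp (-κ) + s) * ∑ y ∈ Icc (0 : ℤ) Γ.hi, Γ.r y * bw (wt ω) Γ.p 0 Γ.N y := by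
  have h0 : ENNReal.ofReal (PA Γ Cx.l (Av G t τ x.1) r (G.fs k τ x.1 r) ω) +
      ENNReal.ofReal (PA Γ Γ.r (Av G t τ x.1) r (G.fs k τ x.1 r) ω) ≤ FA25.fa Γ G t k τ x ω := by
    unfold FA25.fa
    have h1 : (r : ℤ) ∈ (G.fr t τ x.1).filter (fun r => r ≤ (Γ.N : ℤ)) := mem_filter.2 ⟨hr, by exact_mod_cast hrN⟩
    have h2 := single_le_sum (f := fun r : ℤ => ENNReal.ofReal (PA Γ Cx.l (Av G t τ x.1) r.toNat (G.fs k τ x.1 r) ω) +
      ENNReal.ofReal (PA Γ Γ.r (Av G t τ x.1) r.toNat (G.fs k τ x.1 r) ω)) (fun _ _ => zero_le) h1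
    simpa using h2
  have h1 : ENNReal.ofReal (PA Γ Cx.l (Av G t τ x.1) r (G.fs k τ x.1 r) ω) < ex (-κ) := (le_self_add.trans h0).trans_lt hfa
  have h2 : ENNReal.ofReal (PA Γ Γ.r (Av G t τ x.1) r (G.fs k τ x.1 r) ω) < ex (-κ) := (le_add_self.trans h0).trans_lt hfa
  have key : ∀ {m : ℤ → ℝ}, Ms m 0 Γ.hi Γ.N → 0 < ZG Γ m ω →
      ENNReal.ofReal (PA Γ m (Av G t τ x.1) r (G.fs k τ x.1 r) ω) < ex (-κ) →
      PG Γ m r (bx Γ (G.fs k τ x.1 r)) ω ≤ (Real.exp (-κ) + s) * ZG Γ m ω := by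
    intro m hm hZ hlt
    have h3 : PA Γ m (Av G t τ x.1) r (G.fs k τ x.1 r) ω ≤ Real.exp (-κ) := by
      by_contra hcon
      exact absurd hlt (not_lt.2 (ENNReal.ofReal_le_ofReal (not_le.1 hcon).le))
    unfold PA at h3
    rw [div_le_iff₀ hZ] at h3
    exact far_ms hm hrN (bx_sub _) h3 hs hst
  exact ⟨key (SD53.ms_l h) (SD53.ZG_l_pos h ω) h1, key (SD53.ms_r h) (SD53.ZG_r_pos h ω) h2⟩

/-- **AN UNCOVERED SCALE IN `NS`** : the early mass and the full far masses of both groups, all distance scales, all coarse rows. -/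
theorem unc75 (h : Γ.Ok) (hu : ¬ Cov p (SD53.w Γ) (FA25.fa Γ G) t τ σ x ω)
    (hns : ω ∈ NS Γ G p t τ (fun k => Real.exp (-(p.th t k + σ))) x) (hk : t + p.m0 ≤ k) (hkM : k ≤ p.M) :
    em p.row (SD53.w Γ) (p.dk k τ) x ω < ex (-(p.th t k + σ)) ∧ ∀ r : ℕ, (r : ℤ) ∈ G.fr t τ x.1 → r ≤ Γ.N →
      ms (wt ω) Γ.p Γ.N Cx.l r (bx Γ (G.fs k τ x.1 r)) ≤
        2 * Real.exp (-(p.th t k + σ)) * ∑ y ∈ Icc (0 : ℤ) Γ.hi, Cx.l y * bw (wt ω) Γ.p 0 Γ.N y ∧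
      ms (wt ω) Γ.p Γ.N Γ.r r (bx Γ (G.fs k τ x.1 r)) ≤
        2 * Real.exp (-(p.th t k + σ)) * ∑ y ∈ Icc (0 : ℤ) Γ.hi, Γ.r y * bw (wt ω) Γ.p 0 Γ.N y := by
  refine ⟨unc_em75 hu hk hkM, fun r hr hrN => ?_⟩
  have h1 := hns k (mem_Icc.2 ⟨hk, hkM⟩) r hr (by exact_mod_cast hrN)
  rw [Int.toNat_natCast] at h1
  have h2 := far_of_fa75 h (unc_fa75 hu hk hkM) hr hrN (Real.exp_pos _).le h1
  rw [two_mul]
  exact h2

end

end Pool.Agent.W_7d29a1_C1.FT75
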