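import Pool.Agent.W_7d29a1_C1.ContrP91
import Pool.Agent.W_7d29a1_C1.ContrE91
import Pool.Agent.W_7d29a1_HS.Defs

/-!
MP_7d29a1_pr, [C1] attractor route, TAME: THE VERY FAR COLUMNS OF THE CRUDE TOP. (helper80)

`farZ80` : off an event of probability `exp (-N / 2)`, for all the rows of a box of `N` rows and all the places `x` with `N ^ 5 ≤ |x|`,
`|x'| ≤ 4 N`: `bw .. a n x / wt a x ≤ exp (|x - x'| / N) * (bw .. a n x' / wt a x')` (trivial bounds of both masses; the sites of the column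
`y` are at most `N + √|y|`).
-/

set_option autoImplicit false

namespace Pool.Agent.W_7d29a1_C1.FarZ80

open MeasureTheory ProbabilityTheory Filter Topology Finset
open Pool.Agent.W_7d29a1_F
open Pool.Agent.W_7d29a1_HS (In)
open Pool.Agent.W_7d29a1_C1.K91 (wt wt_pos)
open Pool.Agent.W_7d29a1_C1.K91P (bw bw_pos bw_zero bw_succ)

noncomputable section

variable {μ : Measure ℝ} [IsProbabilityMeasure μ]

/-! ### Trivial bounds of the backward mass -/

theorem bw_up {w : ℕ → ℤ → ℝ} {p : ℕ → ℝ} {W P : ℝ} {A B : ℤ} {N : ℕ} (hw0 : ∀ k y, 0 < w k y) (hp0 : ∀ k, 0 < p k) (hp : ∀ k, p k ≤ P)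
    (hw : ∀ (i : ℕ) (z : ℤ), A ≤ z → z ≤ B → i ≤ N → w i z ≤ W) :
    ∀ (j k : ℕ) (y : ℤ), A ≤ y → y + j ≤ B → k + j ≤ N + 1 → bw w p k j y ≤ (W * (1 + P)) ^ j := by
  intro j
  induction j with
  | zero => intro k y _ _ _; rw [bw_zero, pow_zero]
  | succ j ih =>
    intro k y hA hB hk
    push_cast at hB
    have hw1 := hw k y hA (by omega) (by omega)
    have hW : 0 < W := (hw0 k y).trans_le hw1
    have hP : 0 < P := (hp0 k).trans_le (hp k)
    have i1 := ih (k + 1) y hA (by omega) (by omega)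
    have i2 := ih (k + 1) (y + 1) (by omega) (by omega) (by omega)
    have b1 := bw_pos hw0 hp0 j (k + 1) y
    have b2 := bw_pos hw0 hp0 j (k + 1) (y + 1)
    rw [bw_succ]
    calc w k y * (bw w p (k + 1) j y + p k * bw w p (k + 1) j (y + 1))
        ≤ W * ((W * (1 + P)) ^ j + P * (W * (1 + P)) ^ j) := by
          refine mul_le_mul hw1 (add_le_add i1 (mul_le_mul (hp k) i2 b2.le hP.le)) ?_ hW.le
          have := hp0 k
          positivity
      _ = (W * (1 + P)) ^ (j + 1) := by ring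

theorem bw_dn {w : ℕ → ℤ → ℝ} {p : ℕ → ℝ} {V : ℝ} {y : ℤ} {N : ℕ} (hw0 : ∀ k y, 0 < w k y) (hp0 : ∀ k, 0 < p k) (hV : 0 ≤ V)
    (hw : ∀ i : ℕ, i ≤ N → V ≤ w i y) : ∀ j k : ℕ, k + j ≤ N + 1 → V ^ j ≤ bw w p k j y := by
  intro j
  induction j with
  | zero => intro k _; rw [bw_zero, pow_zero]
  | succ j ih =>
    intro k hk
    have i1 := ih (k + 1) (by omega)
    have b2 := bw_pos hw0 hp0 j (k + 1) (y + 1)
    have h3 := hp0 k
    rw [bw_succ]
    calc V ^ (j + 1) = V * V ^ j := by ring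
      _ ≤ w k y * (bw w p (k + 1) j y + p k * bw w p (k + 1) j (y + 1)) := by
          refine mul_le_mul (hw k (by omega)) (i1.trans (le_add_of_nonneg_right (by positivity))) (by positivity) (hw0 k y).le

/-! ### The sites -/

/-- The sites of the rows `0 .. N` are at most `N + √|y|` on the column `y`. -/
def Sb (N : ℕ) (η : Env) : Prop := ∀ (k : ℕ) (y : ℤ), k ≤ N → |η ((k : ℤ), y)| ≤ N + Real.sqrt |(y : ℝ)|

theorem wt_le {η : Env} {k : ℕ} {y : ℤ} {q : ℝ} (hq : 0 ≤ q) (h : |η ((k : ℤ), y)| ≤ q) : wt η k y ≤ Real.exp q := by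
  unfold wt
  split_ifs
  · exact Real.one_le_exp hq
  · exact Real.exp_le_exp.2 ((le_abs_self _).trans h)

theorem le_wt {η : Env} {k : ℕ} {y : ℤ} {q : ℝ} (hq : 0 ≤ q) (h : |η ((k : ℤ), y)| ≤ q) : Real.exp (-q) ≤ wt η k y := by
  unfold wt
  split_ifs
  · exact Real.exp_le_one_iff.2 (by linarith)
  · exact Real.exp_le_exp.2 (by linarith [neg_abs_le (η ((k : ℤ), y))])

theorem num80 {N X : ℝ} (hN : 256 ≤ N) (hX : N ^ 5 ≤ X) : (N + 1) * (N + Real.sqrt (X + N)) + 3 * N ^ 2 + 3 * N ≤ X / (2 * N) ∧ 8 * N ≤ X := by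
  have hN0 : 0 < N := by linarith
  have h4 : (256 : ℝ) * N ^ 4 ≤ N ^ 5 := by
    have : N ^ 5 = N * N ^ 4 := by ring
    rw [this]
    exact mul_le_mul_of_nonneg_right hN (by positivity)
  obtain ⟨r, hr⟩ : ∃ r : ℝ, r = Real.sqrt X := ⟨_, rfl⟩
  have hX0 : 0 ≤ X := le_trans (by positivity) hX
  have hr2 : r * r = X := by rw [hr]; exact Real.mul_self_sqrt hX0
  have hr16 : 16 * N ^ 2 ≤ r := by
    rw [hr]
    refine Real.le_sqrt_of_sq_le ?_
    calc (16 * N ^ 2) ^ 2 = 256 * N ^ 4 := by ring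
      _ ≤ X := h4.trans hX
  have hr0 : 0 < r := lt_of_lt_of_le (by positivity) hr16
  have h8 : 8 * N ≤ X := by
    have h1 : (8 : ℝ) * N ≤ 256 * N ^ 4 := by
      have : (1 : ℝ) ≤ N ^ 3 := one_le_pow₀ (by linarith)
      calc (8 : ℝ) * N ≤ 256 * (N * 1) := by linarith
        _ ≤ 256 * (N * N ^ 3) := by gcongr
        _ = 256 * N ^ 4 := by ring
    exact h1.trans (h4.trans hX)
  have hs : Real.sqrt (X + N) ≤ 2 * r := by
    refine Real.sqrt_le_iff.2 ⟨by positivity, ?_⟩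
    calc X + N ≤ X + X := by linarith
      _ ≤ 4 * (r * r) := by rw [hr2]; linarith
      _ = (2 * r) ^ 2 := by ring
  refine ⟨?_, h8⟩
  rw [le_div_iff₀ (by positivity)]
  have h5 : (N + 1) * (N + Real.sqrt (X + N)) ≤ (2 * N) * (N + 2 * r) := mul_le_mul (by linarith) (by linarith)
    (add_nonneg hN0.le (Real.sqrt_nonneg _)) (by positivity)
  have h6 : 3 * N ≤ 3 * N ^ 2 := by
    have : N * 1 ≤ N * N := mul_le_mul_of_nonneg_left (by linarith) hN0.le
    nlinarith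
  have h7 : 16 * N ^ 2 * r ≤ r * r := mul_le_mul_of_nonneg_right hr16 hr0.le
  have h9 : (16 : ℝ) * N ^ 3 ≤ 8 * N ^ 2 * r := by
    have h1 : (16 : ℝ) * N ^ 2 ≤ r := hr16
    have h2 : (8 : ℝ) * N ^ 2 * (16 * N ^ 2) ≤ 8 * N ^ 2 * r := mul_le_mul_of_nonneg_left h1 (by positivity)
    have h3 : (16 : ℝ) * N ^ 3 ≤ 8 * N ^ 2 * (16 * N ^ 2) := by
      have : N ^ 3 * 1 ≤ N ^ 3 * N := mul_le_mul_of_nonneg_left (by linarith) (by positivity)
      nlinarith
    linarith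
  calc ((N + 1) * (N + Real.sqrt (X + N)) + 3 * N ^ 2 + 3 * N) * (2 * N) ≤ ((2 * N) * (N + 2 * r) + 3 * N ^ 2 + 3 * N ^ 2) * (2 * N) :=
        mul_le_mul_of_nonneg_right (by linarith) (by positivity)
    _ = 16 * N ^ 3 + 8 * N ^ 2 * r := by ring
    _ ≤ 16 * N ^ 2 * r := by linarith
    _ ≤ X := by rw [← hr2]; exact h7

/-- **THE COMPARISON IN A GOOD ENVIRONMENT.** -/
theorem det80 {N : ℕ} (hN : 256 ≤ N) {η : Env} (hη : Sb N η) {p : ℕ → ℝ} (hp0 : ∀ k, 0 < p k) (hp : ∀ k, p k ≤ Real.exp N) {a n : ℕ}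
    (han : a + n ≤ N) {x x' : ℤ} (hx : (N : ℤ) ^ 5 ≤ |x|) (hx' : |x'| ≤ 4 * N) :
    bw (wt η) p a n x / wt η a x ≤ Real.exp (|(x : ℝ) - x'| / N) * (bw (wt η) p a n x' / wt η a x') := by
  have hN1 : (256 : ℝ) ≤ N := by exact_mod_cast hN
  have hN0 : (0 : ℝ) < N := by linarith
  have hxR : (N : ℝ) ^ 5 ≤ |(x : ℝ)| := by exact_mod_cast hx
  have hxR' : |(x' : ℝ)| ≤ 4 * N := by exact_mod_cast hx'
  obtain ⟨n1, n2⟩ := num80 hN1 hxR
  obtain ⟨q, hq⟩ : ∃ q : ℝ, q = N + Real.sqrt (|(x : ℝ)| + N) := ⟨_, rfl⟩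
  have hq0 : 0 ≤ q := by rw [hq]; positivity
  have hnN : (n : ℝ) ≤ N := by exact_mod_cast (show n ≤ N by omega)
  have hn0 : (0 : ℝ) ≤ n := Nat.cast_nonneg n
  -- the upper bound
  have hcone : ∀ (i : ℕ) (z : ℤ), x ≤ z → z ≤ x + N → i ≤ N → |η ((i : ℤ), z)| ≤ q := fun i z h1 h2 h3 => by
    refine (hη i z h3).trans ?_
    rw [hq]
    have h4 : |(z : ℝ)| ≤ |(x : ℝ)| + N := by
      have h5 : (x : ℝ) ≤ z := by exact_mod_cast h1
      have h6 : (z : ℝ) ≤ x + N := by exact_mod_cast h2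
      rw [abs_le]
      constructor
      · linarith [neg_abs_le (x : ℝ)]
      · linarith [le_abs_self (x : ℝ)]
    have := Real.sqrt_le_sqrt h4
    linarith
  have hup := bw_up (wt_pos η) hp0 hp (fun i z h1 h2 h3 => wt_le hq0 (hcone i z h1 h2 h3)) n a x le_rfl (by omega) (show a + n ≤ N + 1 by omega)
  have hPe : Real.exp q * (1 + Real.exp N) ≤ Real.exp (q + N + 1) := by
    have h1 : (1 : ℝ) ≤ Real.exp N := Real.one_le_exp hN0.le
    have h2 : (2 : ℝ) ≤ Real.exp 1 := by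
      have := Real.add_one_le_exp (1 : ℝ)
      linarith
    calc Real.exp q * (1 + Real.exp N) ≤ Real.exp q * (Real.exp N * Real.exp 1) := by
          refine mul_le_mul_of_nonneg_left ?_ (Real.exp_pos _).le
          have : Real.exp N * 2 ≤ Real.exp N * Real.exp 1 := mul_le_mul_of_nonneg_left h2 (Real.exp_pos _).le
          linarith
      _ = Real.exp (q + N + 1) := by rw [← Real.exp_add, ← Real.exp_add]; ring_nf
  have hup2 : bw (wt η) p a n x ≤ Real.exp (n * (q + N + 1)) := by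
    refine hup.trans ?_
    rw [Real.exp_nat_mul]
    exact pow_le_pow_left₀ (by positivity) hPe n
  have hup3 : bw (wt η) p a n x / wt η a x ≤ Real.exp (n * (q + N + 1) + q) := by
    rw [div_le_iff₀ (wt_pos η a x)]
    have h1 := le_wt hq0 (hcone a x le_rfl (by omega) (by omega))
    calc bw (wt η) p a n x ≤ Real.exp (n * (q + N + 1)) := hup2
      _ = Real.exp (n * (q + N + 1) + q) * Real.exp (-q) := by rw [← Real.exp_add]; ring_nf
      _ ≤ _ := mul_le_mul_of_nonneg_left h1 (Real.exp_pos _).le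
  -- the lower bound
  have hcol : ∀ i : ℕ, i ≤ N → |η ((i : ℤ), x')| ≤ 2 * N := fun i hi => by
    refine (hη i x' hi).trans ?_
    have h1 : Real.sqrt |(x' : ℝ)| ≤ N := by
      refine Real.sqrt_le_iff.2 ⟨hN0.le, hxR'.trans ?_⟩
      nlinarith
    linarith
  have h2N : (0 : ℝ) ≤ 2 * N := by positivity
  have hdn := bw_dn (wt_pos η) hp0 (Real.exp_pos (-(2 * N : ℝ))).le (fun i hi => le_wt h2N (hcol i hi)) n a (show a + n ≤ N + 1 by omega)
  have hdn3 : Real.exp (-(n * (2 * N) + 2 * N : ℝ)) ≤ bw (wt η) p a n x' / wt η a x' := by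
    rw [le_div_iff₀ (wt_pos η a x')]
    have h1 := wt_le h2N (hcol a (by omega))
    calc Real.exp (-(n * (2 * N) + 2 * N : ℝ)) * wt η a x' ≤ Real.exp (-(n * (2 * N) + 2 * N : ℝ)) * Real.exp (2 * N) :=
          mul_le_mul_of_nonneg_left h1 (Real.exp_pos _).le
      _ = Real.exp (-(2 * N : ℝ)) ^ n := by rw [← Real.exp_add, ← Real.exp_nat_mul]; ring_nf
      _ ≤ _ := hdn
  have hfin : (n * (q + N + 1) + q : ℝ) + (n * (2 * N) + 2 * N) ≤ |(x : ℝ) - x'| / N := by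
    have h1 : |(x : ℝ)| / (2 * N) ≤ |(x : ℝ) - x'| / N := by
      rw [div_le_div_iff₀ (by positivity) hN0]
      have h2 : |(x : ℝ)| - |(x' : ℝ)| ≤ |(x : ℝ) - x'| := abs_sub_abs_le_abs_sub _ _
      have h3 : |(x : ℝ)| ≤ 2 * |(x : ℝ) - x'| := by linarith
      calc |(x : ℝ)| * N ≤ 2 * |(x : ℝ) - x'| * N := mul_le_mul_of_nonneg_right h3 hN0.le
        _ = |(x : ℝ) - x'| * (2 * N) := by ring
    refine le_trans ?_ (n1.trans h1)
    rw [← hq]
    have e1 : (n : ℝ) * (q + N + 1) ≤ N * (q + N + 1) := mul_le_mul_of_nonneg_right hnN (by positivity)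
    have e2 : (n : ℝ) * (2 * N) ≤ N * (2 * N) := mul_le_mul_of_nonneg_right hnN (by positivity)
    nlinarith
  calc bw (wt η) p a n x / wt η a x ≤ Real.exp (n * (q + N + 1) + q) := hup3
    _ ≤ Real.exp (|(x : ℝ) - x'| / N) * Real.exp (-(n * (2 * N) + 2 * N : ℝ)) := by
        rw [← Real.exp_add]
        exact Real.exp_le_exp.2 (by linarith)
    _ ≤ _ := mul_le_mul_of_nonneg_left hdn3 (Real.exp_pos _).le

/-! ### The event -/

theorem law_site (hμ : Pool.Agent.W_7d29a1_h47.EM μ) (p : Pt) (t : ℝ) :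
    law μ {η : Env | t < |η p|} ≤ ENNReal.ofReal (Pool.Agent.W_7d29a1_h47.Mom μ 1 * Real.exp (-t)) := by
  have h1 : MeasurePreserving (fun η : Env => η p) (law μ) μ := measurePreserving_eval_infinitePi (fun _ : Pt => μ) p
  have h2 : MeasurableSet {u : ℝ | t < |u|} := measurableSet_lt measurable_const measurable_id.abs
  have h3 : law μ {η : Env | t < |η p|} = μ {u : ℝ | t < |u|} := h1.measure_preimage h2.nullMeasurableSet
  rw [h3]
  have h4 := mul_meas_ge_le_lintegral₀ (μ := μ) (f := fun u : ℝ => ENNReal.ofReal (Real.exp (1 * |u|)))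
    (by fun_prop) (ENNReal.ofReal (Real.exp t))
  have h5 : μ {u : ℝ | t < |u|} ≤ μ {u : ℝ | ENNReal.ofReal (Real.exp t) ≤ ENNReal.ofReal (Real.exp (1 * |u|))} :=
    measure_mono fun u (hu : t < |u|) => ENNReal.ofReal_le_ofReal (Real.exp_le_exp.2 (by linarith))
  have h6 : ∫⁻ u, ENNReal.ofReal (Real.exp (1 * |u|)) ∂μ = ENNReal.ofReal (Pool.Agent.W_7d29a1_h47.Mom μ 1) := by
    unfold Pool.Agent.W_7d29a1_h47.Mom
    rw [ofReal_integral_eq_lintegral_ofReal (hμ 1) (Eventually.of_forall fun u => (Real.exp_pos _).le)]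
  rw [h6] at h4
  have h7 : ENNReal.ofReal (Real.exp t) * μ {u : ℝ | t < |u|} ≤ ENNReal.ofReal (Pool.Agent.W_7d29a1_h47.Mom μ 1) :=
    (mul_le_mul_right h5 _).trans h4
  have h8 : ENNReal.ofReal (Real.exp (-t)) * ENNReal.ofReal (Real.exp t) = 1 := by
    rw [← ENNReal.ofReal_mul (Real.exp_pos _).le, ← Real.exp_add, neg_add_cancel, Real.exp_zero, ENNReal.ofReal_one]
  calc μ {u : ℝ | t < |u|} = ENNReal.ofReal (Real.exp (-t)) * (ENNReal.ofReal (Real.exp t) * μ {u : ℝ | t < |u|}) := by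
        rw [← mul_assoc, h8, one_mul]
    _ ≤ ENNReal.ofReal (Real.exp (-t)) * ENNReal.ofReal (Pool.Agent.W_7d29a1_h47.Mom μ 1) := mul_le_mul_right h7 _
    _ = ENNReal.ofReal (Pool.Agent.W_7d29a1_h47.Mom μ 1 * Real.exp (-t)) := by
        rw [← ENNReal.ofReal_mul (Real.exp_pos _).le, mul_comm]

theorem sum80 : Summable fun y : ℤ => Real.exp (-Real.sqrt |(y : ℝ)|) := by
  have hN : Summable fun n : ℕ => Real.exp (-Real.sqrt (n : ℝ)) := by
    have h2 : Summable fun n : ℕ => 24 * (1 / (n : ℝ) ^ 2) := (Real.summable_one_div_nat_pow.2 (by norm_num)).mul_left 24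
    refine Summable.of_norm_bounded_eventually_nat h2 ?_
    filter_upwards [eventually_ge_atTop 1] with n hn
    have hn1 : (1 : ℝ) ≤ n := by exact_mod_cast hn
    have hn0 : (0 : ℝ) < n := by linarith
    rw [Real.norm_of_nonneg (Real.exp_pos _).le, Real.exp_neg, mul_one_div, inv_eq_one_div, div_le_div_iff₀ (Real.exp_pos _) (by positivity)]
    have h3 := Real.pow_div_factorial_le_exp (Real.sqrt (n : ℝ)) (Real.sqrt_nonneg _) 4
    have h4 : Real.sqrt (n : ℝ) ^ 4 = (n : ℝ) ^ 2 := by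
      rw [show (4 : ℕ) = 2 * 2 by norm_num, pow_mul, Real.sq_sqrt hn0.le]
    rw [h4] at h3
    have h5 : ((4 : ℕ).factorial : ℝ) = 24 := by norm_num [Nat.factorial]
    rw [h5, div_le_iff₀ (by norm_num)] at h3
    linarith
  refine Summable.of_nat_of_neg ?_ ?_
  · refine hN.congr fun n => ?_
    rw [Int.cast_natCast, abs_of_nonneg (Nat.cast_nonneg n)]
  · refine hN.congr fun n => ?_
    rw [Int.cast_neg, Int.cast_natCast, abs_neg, abs_of_nonneg (Nat.cast_nonneg n)]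

theorem law_Sb (hμ : Pool.Agent.W_7d29a1_h47.EM μ) : ∃ K : ℝ, 0 ≤ K ∧ ∀ N : ℕ,
    law μ {η : Env | ¬ Sb N η} ≤ ENNReal.ofReal (K * ((N + 1) * Real.exp (-(N : ℝ)))) := by
  have hM : 0 ≤ Pool.Agent.W_7d29a1_h47.Mom μ 1 := by
    unfold Pool.Agent.W_7d29a1_h47.Mom
    exact integral_nonneg fun u => (Real.exp_pos _).le
  have hS : 0 ≤ ∑' y : ℤ, Real.exp (-Real.sqrt |(y : ℝ)|) := tsum_nonneg fun y => (Real.exp_pos _).le
  refine ⟨Pool.Agent.W_7d29a1_h47.Mom μ 1 * ∑' y : ℤ, Real.exp (-Real.sqrt |(y : ℝ)|), by positivity, fun N => ?_⟩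
  have hsub : {η : Env | ¬ Sb N η} ⊆ ⋃ q : Fin (N + 1) × ℤ, {η : Env | (N : ℝ) + Real.sqrt |(q.2 : ℝ)| < |η (((q.1 : ℕ) : ℤ), q.2)|} := by
    intro η hη
    have hη' : ¬ Sb N η := hη
    unfold Sb at hη'
    push Not at hη'
    obtain ⟨k, y, hk, h⟩ := hη'
    exact Set.mem_iUnion.2 ⟨(⟨k, by omega⟩, y), h⟩
  have hpt : ∀ q : Fin (N + 1) × ℤ, law μ {η : Env | (N : ℝ) + Real.sqrt |(q.2 : ℝ)| < |η (((q.1 : ℕ) : ℤ), q.2)|} ≤
      ENNReal.ofReal (Pool.Agent.W_7d29a1_h47.Mom μ 1 * Real.exp (-(N : ℝ))) * ENNReal.ofReal (Real.exp (-Real.sqrt |(q.2 : ℝ)|)) := fun q => by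
    refine (law_site hμ _ _).trans (le_of_eq ?_)
    rw [← ENNReal.ofReal_mul (by positivity)]
    congr 1
    rw [mul_assoc, ← Real.exp_add]
    ring_nf
  calc law μ {η : Env | ¬ Sb N η} ≤ ∑' q : Fin (N + 1) × ℤ, law μ {η : Env | (N : ℝ) + Real.sqrt |(q.2 : ℝ)| < |η (((q.1 : ℕ) : ℤ), q.2)|} :=
        (measure_mono hsub).trans (measure_iUnion_le _)
    _ ≤ ∑' q : Fin (N + 1) × ℤ, ENNReal.ofReal (Pool.Agent.W_7d29a1_h47.Mom μ 1 * Real.exp (-(N : ℝ))) *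
        ENNReal.ofReal (Real.exp (-Real.sqrt |(q.2 : ℝ)|)) := ENNReal.tsum_le_tsum hpt
    _ = ENNReal.ofReal (Pool.Agent.W_7d29a1_h47.Mom μ 1 * Real.exp (-(N : ℝ))) *
        ((N + 1 : ℕ) * ∑' y : ℤ, ENNReal.ofReal (Real.exp (-Real.sqrt |(y : ℝ)|))) := by
        rw [ENNReal.tsum_mul_left, ENNReal.tsum_prod', tsum_fintype]
        simp only [sum_const, card_univ, Fintype.card_fin, nsmul_eq_mul]
    _ = _ := by
        rw [← ENNReal.ofReal_tsum_of_nonneg (fun y => (Real.exp_pos _).le) sum80, ← ENNReal.ofReal_natCast,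
          ← ENNReal.ofReal_mul (Nat.cast_nonneg _), ← ENNReal.ofReal_mul (by positivity)]
        congr 1
        push_cast
        ring

/-- **THE VERY FAR COLUMNS**: off an event of probability `exp (-N / 2)`. -/
theorem farZ80 {s c C : ℝ} {n₀ : ℕ} (h : In μ s c C n₀) : ∃ N₀ : ℕ, ∀ N : ℕ, N₀ ≤ N → ∃ G : Set Env, (law μ).real Gᶜ ≤ Real.exp (-(N / 2 : ℝ)) ∧
    ∀ η ∈ G, ∀ p : ℕ → ℝ, (∀ k, 0 < p k) → (∀ k, p k ≤ Real.exp N) → ∀ a n : ℕ, a + n ≤ N → ∀ x x' : ℤ, (N : ℤ) ^ 5 ≤ |x| →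
      |x'| ≤ 4 * N → bw (wt η) p a n x / wt η a x ≤ Real.exp (|(x : ℝ) - x'| / N) * (bw (wt η) p a n x' / wt η a x') := by
  obtain ⟨K, hK, hl⟩ := law_Sb (μ := μ) h.em
  refine ⟨max 256 ⌈16 * K⌉₊, fun N hN => ⟨{η | Sb N η}, ?_, ?_⟩⟩
  · have hN1 : (256 : ℝ) ≤ N := by exact_mod_cast (le_max_left _ _).trans hN
    have hN2 : 16 * K ≤ N := (Nat.le_ceil _).trans (by exact_mod_cast (le_max_right _ _).trans hN)
    have hc : ({η : Env | Sb N η} : Set Env)ᶜ = {η : Env | ¬ Sb N η} := rfl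
    rw [hc, Measure.real]
    refine ENNReal.toReal_le_of_le_ofReal (Real.exp_pos _).le ((hl N).trans (ENNReal.ofReal_le_ofReal ?_))
    have h1 := Real.pow_div_factorial_le_exp (N / 2 : ℝ) (by positivity) 2
    have h2 : ((2 : ℕ).factorial : ℝ) = 2 := by norm_num [Nat.factorial]
    rw [h2, div_le_iff₀ (by norm_num)] at h1
    have h3 : K * (N + 1) ≤ Real.exp (N / 2 : ℝ) := by
      have : K * (N + 1) ≤ (N / 16) * (N + N) := by
        refine mul_le_mul (by linarith) (by linarith) (by positivity) (by positivity)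
      nlinarith
    calc K * ((N + 1) * Real.exp (-(N : ℝ))) = (K * (N + 1)) * Real.exp (-(N : ℝ)) := by ring
      _ ≤ Real.exp (N / 2 : ℝ) * Real.exp (-(N : ℝ)) := mul_le_mul_of_nonneg_right h3 (Real.exp_pos _).le
      _ = Real.exp (-(N / 2 : ℝ)) := by rw [← Real.exp_add]; ring_nf
  · intro η hη p hp0 hp a n han x x' hx hx'
    exact det80 ((le_max_left _ _).trans hN) hη hp0 hp han hx hx'

end

end Pool.Agent.W_7d29a1_C1.FarZ80
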