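import Pool.Agent.W_7d29a1_C1.FinS74
import Pool.Agent.W_7d29a1_C1.CtxM68

/-!
Both halves (MP_7d29a1_pr), attractor route [C1], (Y) BY CORNERS: THE INNER FUNCTIONAL OF BOTH FRAMES, measurability. (helper74)

`mp_Cc` : the contact functional of a row, in a parameter. `mp_Fin`, `mp_FinS`, `mp_FPhC` : the inner functional, in a parameter;
`meas_FPhC` : over the environment.
-/

set_option autoImplicit false
set_option linter.unusedSectionVars false

namespace Pool.Agent.W_7d29a1_C1.H1c

open Finset MeasureTheory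
open Pool.Agent.W_7d29a1_F
open Pool.Agent.W_7d29a1_C1.K91 (shw Box Grp wt wt_pos zs cut jn measurable_wt)
open Pool.Agent.W_7d29a1_C1.K97
open Pool.Agent.W_7d29a1_C1.L91
open Pool.Agent.W_7d29a1_C1.K91P (fw bw shp bw_pos dp GG)
open Pool.Agent.W_7d29a1_C1.R26P
open Pool.Agent.W_7d29a1_C1.F74
open Pool.Agent.W_7d29a1_C1.H60
open Pool.Agent.W_7d29a1_C1.Ch87
open Pool.Agent.W_7d29a1_C1.Mir99

noncomputable section

variable {α : Type*} [MeasurableSpace α]

theorem mp_ro {a b c d : α → ℝ} (ha : Measurable a) (hb : Measurable b) (hc : Measurable c) (hd : Measurable d) :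
    Measurable fun x => ro (a x) (b x) (c x) (d x) := (ha.div (ha.add hb)).sub (hc.div (hc.add hd))

theorem mp_pg {a b c d e : α → ℝ} (ha : Measurable a) (hb : Measurable b) (hc : Measurable c) (hd : Measurable d)
    (he : Measurable e) : Measurable fun x => pg (a x) (b x) (c x) (d x) (e x) :=
  (mp_ro ha hb hc hd).mul (pm_jn ((ha.add hb).div ((ha.add hb).add (hc.add hd)))
    (measurable_const.add ((hc.add hd).mul he)) (measurable_const.sub ((ha.add hb).mul he)))

theorem mp_pq {a b c d e : α → ℝ} (ha : Measurable a) (hb : Measurable b) (hc : Measurable c) (hd : Measurable d)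
    (he : Measurable e) : Measurable fun x => pq (a x) (b x) (c x) (d x) (e x) :=
  (mp_ro ha hb hc hd).mul (pm_jn ((ha.add hb).div ((ha.add hb).add (hc.add hd)))
    (measurable_const.add (((ha.add hb).add (hc.add hd)).mul (he.sub measurable_const))) measurable_const)

section row

variable {lo hi : ℤ} {p : ℝ} {wk ml mr f : α → ℤ → ℝ} {q : ℤ}

theorem mp_rz (hw : ∀ y, Measurable fun x => wk x y) (hm : ∀ y, Measurable fun x => ml x y)
    (hf : ∀ y, Measurable fun x => f x y) (q : ℤ) : Measurable fun x => rz lo hi p (wk x) (ml x) (f x) q := by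
  unfold rz
  exact pm_zs (G := fun x y => f x y + p * f x (y + 1)) hm hw (fun y => (hf y).add (measurable_const.mul (hf (y + 1)))) q

theorem mp_rt (hw : ∀ y, Measurable fun x => wk x y) (hm : ∀ y, Measurable fun x => ml x y)
    (hf : ∀ y, Measurable fun x => f x y) (q : ℤ) : Measurable fun x => rt lo hi p (wk x) (ml x) (f x) q := by
  unfold rt
  exact pm_cut (m := fun x y => wk x y * ml x y + p * (wk x (y - 1) * ml x (y - 1)))
    (fun y => ((hw y).mul (hm y)).add (measurable_const.mul ((hw (y - 1)).mul (hm (y - 1))))) hf q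

theorem mp_ctK (hw : ∀ y, Measurable fun x => wk x y) (hl : ∀ y, Measurable fun x => ml x y)
    (hr : ∀ y, Measurable fun x => mr x y) (hf : ∀ y, Measurable fun x => f x y) (q : ℤ) :
    Measurable fun x => K97.ct lo hi p (wk x) (ml x) (mr x) (f x) q := by
  have hm : ∀ y, Measurable fun x => ml x y + mr x y := fun y => (hl y).add (hr y)
  have z := mp_rz (lo := lo) (hi := hi) (p := p) (ml := fun x y => ml x y + mr x y) hw hm hf q
  have t := mp_rt (lo := lo) (hi := hi) (p := p) (ml := fun x y => ml x y + mr x y) hw hm hf q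
  have g : Measurable fun x => (f x (q - 1) + p * f x q) / rz lo hi p (wk x) (fun y => ml x y + mr x y) (f x) q :=
    ((hf (q - 1)).add (measurable_const.mul (hf q))).div z
  have a : Measurable fun x => f x (q - 1) / rt lo hi p (wk x) (fun y => ml x y + mr x y) (f x) q * (p * wk x (q - 1)) :=
    ((hf (q - 1)).div t).mul (measurable_const.mul (hw (q - 1)))
  have b : Measurable fun x => f x (q - 1) / rt lo hi p (wk x) (fun y => ml x y + mr x y) (f x) q * wk x q :=
    ((hf (q - 1)).div t).mul (hw q)
  exact (mp_pg (g.mul (hl (q - 1))) (g.mul (hr (q - 1))) (g.mul (hl q)) (g.mul (hr q)) ((hw (q - 1)).sub (hw q))).sub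
    (mp_pq (a.mul (hl (q - 1))) (a.mul (hr (q - 1))) (b.mul (hl q)) (b.mul (hr q)) ((hf q).div (hf (q - 1))))

/-- **The contact functional of a row, in a parameter.** -/
theorem mp_Cc (hw : ∀ y, Measurable fun x => wk x y) (hl : ∀ y, Measurable fun x => ml x y)
    (hr : ∀ y, Measurable fun x => mr x y) (hf : ∀ y, Measurable fun x => f x y) (q : ℤ) :
    Measurable fun x => Cc lo hi p (wk x) (ml x) (mr x) (f x) q := by
  have h : Measurable fun z : α × ℝ => cta lo hi p (wk z.1) (ml z.1) (mr z.1) (f z.1) q z.2 :=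
    mp_ctK (wk := fun z : α × ℝ => wk z.1) (ml := fun z => ml z.1) (mr := fun z y => Real.exp (-z.2) * mr z.1 y)
      (f := fun z => f z.1) (fun y => (hw y).comp measurable_fst) (fun y => (hl y).comp measurable_fst)
      (fun y => (Real.measurable_exp.comp measurable_snd.neg).mul ((hr y).comp measurable_fst))
      (fun y => (hf y).comp measurable_fst) q
  exact (h.stronglyMeasurable.integral_prod_right' (ν := (volume : Measure ℝ))).measurable

theorem mp_chi (hf : ∀ y, Measurable fun x => f x y) (q : ℤ) : Measurable fun x => chi p (f x) q := by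
  unfold chi
  exact ((measurable_const.mul (hf q)).pow_const 2).div
    (((measurable_const.mul (hf q)).pow_const 2).add ((hf (q - 1)).pow_const 2))

end row

section inner

variable {W : α → ℕ → ℤ → ℝ} {P : ℕ → ℝ}

theorem mp_wsh (hW : ∀ k y, Measurable fun x => W x k y) (K : ℕ) (k : ℕ) (y : ℤ) : Measurable fun x => wsh K (W x) k y := by
  unfold wsh
  split_ifs
  · exact hW k y
  · exact hW k (y + 1)

theorem mp_Fin (hW : ∀ k y, Measurable fun x => W x k y) (K J : ℕ) (a1 a2 q : ℤ) :
    Measurable fun x => Fin (W x) P K J a1 a2 q := by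
  unfold Fin
  exact mp_Cc (fun y => hW K y) (fun y => pm_fw (l := fun _ => sg a1) hW (fun _ => measurable_const) K y)
    (fun y => pm_fw (l := fun _ => sg a2) hW (fun _ => measurable_const) K y) (fun y => pm_bw hW J (K + 1) y) q

theorem mp_FinS (hW : ∀ k y, Measurable fun x => W x k y) (K J : ℕ) (a1 a2 q : ℤ) :
    Measurable fun x => FinS (W x) P K J a1 a2 q := by
  have h2 := mp_wsh hW K
  unfold FinS
  exact ((mp_Fin hW K J a1 a2 q).mul (mp_chi (f := fun x => bw (W x) P (K + 1) J) (fun y => pm_bw hW J (K + 1) y) q)).add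
    ((mp_Fin (W := fun x => wsh K (W x)) h2 K J a1 a2 q).mul (measurable_const.sub
      (mp_chi (f := fun x => bw (wsh K (W x)) P (K + 1) J) (fun y => pm_bw (W := fun x => wsh K (W x)) h2 J (K + 1) y) q)))

theorem mp_FPhC (hW : ∀ k y, Measurable fun x => W x k y) (n1 D' D : ℕ) (a1 a2 : ℤ) :
    Measurable fun x => FPhC (W x) P n1 D' D a1 a2 := by
  unfold FPhC FG
  exact Finset.measurable_sum _ fun K _ => Finset.measurable_sum _ fun q _ => mp_FinS hW K _ a1 a2 q

/-- **The reference of the inside is measurable in the environment.** -/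
theorem meas_FPhC (P : ℕ → ℝ) (c0 n1 D' D : ℕ) (a1 a2 : ℤ) :
    Measurable fun η : Env => FPhC (shw (wt η) c0) P n1 D' D a1 a2 :=
  mp_FPhC (W := fun η : Env => shw (wt η) c0) (fun k y => measurable_wt (c0 + k) y) n1 D' D a1 a2

end inner

end

end Pool.Agent.W_7d29a1_C1.H1c
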