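import Pool.Agent.W_7d29a1_C1.MirN99
import Pool.Agent.W_7d29a1_C1.PhiG74

/-!
Both halves (MP_7d29a1_pr), attractor route [C1], (Y) BY CORNERS: THE INNER FUNCTIONAL OF BOTH FRAMES, structure. (helper74)

`FinS` (helper99): contact functional of the inner system in the natural frame and in the mirror frame, joined by `chi`. `FinS_out`,
`FinS_congr`, `FinS_sh`; `FPhC` = its total over the middle contacts: `FPhC_congr` (a function of the rows of the inside), `FPhC_sh`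
(shift of the columns).
-/

set_option autoImplicit false
set_option linter.unusedSectionVars false

namespace Pool.Agent.W_7d29a1_C1.H1c

open Finset MeasureTheory
open Pool.Agent.W_7d29a1_F
open Pool.Agent.W_7d29a1_C1.K91 (shw Box Grp wt wt_pos zs)
open Pool.Agent.W_7d29a1_C1.K97
open Pool.Agent.W_7d29a1_C1.L91
open Pool.Agent.W_7d29a1_C1.K91P (fw bw shp bw_pos dp GG)
open Pool.Agent.W_7d29a1_C1.R26P
open Pool.Agent.W_7d29a1_C1.F74
open Pool.Agent.W_7d29a1_C1.H60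
open Pool.Agent.W_7d29a1_C1.Ch87
open Pool.Agent.W_7d29a1_C1.Mir99

noncomputable section

variable {W W' : ℕ → ℤ → ℝ} {P P' : ℕ → ℝ}

theorem wsh_congr {K n : ℕ} (h : ∀ i < n, ∀ y, W i y = W' i y) : ∀ i < n, ∀ y, wsh K W i y = wsh K W' i y := by
  intro i hi y
  unfold wsh
  split_ifs
  · exact h i hi y
  · exact h i hi (y + 1)

/-- The shift of the columns and the mirror frame. -/
theorem wsh_shc (K : ℕ) (s : ℤ) (W : ℕ → ℤ → ℝ) : wsh K (shc s W) = shc s (wsh K W) := by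
  funext i y
  show (if i ≤ K then W i (y + s) else W i (y + 1 + s)) = if i ≤ K then W i (y + s) else W i (y + s + 1)
  rw [show y + 1 + s = y + s + 1 by ring]

theorem chi_sh {a : ℝ} {f g : ℤ → ℝ} {q s : ℤ} (h : ∀ y, g y = f (y + s)) : chi a g (q - s) = chi a f q := by
  unfold chi
  rw [h, h, show q - s + s = q by ring, show q - s - 1 + s = q - 1 by ring]

theorem FinS_out {K J : ℕ} {a1 a2 q : ℤ} (ha : a1 ≤ a2) (h : q ≤ a1 ∨ a2 + K < q) : FinS W P K J a1 a2 q = 0 := by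
  unfold FinS
  rw [Fin_out ha h, Fin_out ha h]
  ring

theorem FinS_congr {K J : ℕ} (h : ∀ i < K + 1 + J, ∀ y, W i y = W' i y) (h' : ∀ i < K + 1 + J, P i = P' i) (a1 a2 q : ℤ) :
    FinS W P K J a1 a2 q = FinS W' P' K J a1 a2 q := by
  have h2 := wsh_congr (K := K) h
  have e1 : bw W P (K + 1) J = bw W' P' (K + 1) J := funext fun y => bw_cg J (K + 1) h h' y
  have e2 : bw (wsh K W) P (K + 1) J = bw (wsh K W') P' (K + 1) J := funext fun y => bw_cg J (K + 1) h2 h' y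
  unfold FinS
  rw [Fin_congr h h', Fin_congr h2 h', e1, e2, h' K (by omega)]

theorem FinS_sh (W : ℕ → ℤ → ℝ) (P : ℕ → ℝ) (K J : ℕ) (a1 a2 q s : ℤ) :
    FinS (shc s W) P K J (a1 - s) (a2 - s) (q - s) = FinS W P K J a1 a2 q := by
  unfold FinS
  rw [wsh_shc, Fin_sh, Fin_sh, chi_sh (fun y => bw_shc s J (K + 1) y), chi_sh (fun y => bw_shc s J (K + 1) y)]

/-- **The total of the inside, both frames.** -/
def FPhC (W : ℕ → ℤ → ℝ) (P : ℕ → ℝ) (n1 D' D : ℕ) (a1 a2 : ℤ) : ℝ :=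
  FG (fun K q => FinS W P K (D - (K + 1)) a1 a2 q) n1 D' a1 a2

theorem FPhC_congr {n1 D' D : ℕ} (hD : D' ≤ D) (h : ∀ i < D, ∀ y, W i y = W' i y) (h' : ∀ i < D, P i = P' i) (a1 a2 : ℤ) :
    FPhC W P n1 D' D a1 a2 = FPhC W' P' n1 D' D a1 a2 :=
  FG_congr fun K h1 h2 q => FinS_congr (fun i hi => h i (by omega)) (fun i hi => h' i (by omega)) a1 a2 q

theorem FPhC_sh (W : ℕ → ℤ → ℝ) (P : ℕ → ℝ) (n1 D' D : ℕ) (a1 a2 s : ℤ) :
    FPhC (shc s W) P n1 D' D (a1 - s) (a2 - s) = FPhC W P n1 D' D a1 a2 :=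
  FG_sh fun K _ _ q => FinS_sh W P K _ a1 a2 q s

end

end Pool.Agent.W_7d29a1_C1.H1c
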