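import Pool.Agent.W_7d29a1_C1.Fkg31

/-!
MP_7d29a1_pr, attractor route, slab lemma (tuned form): the conditional FKG inequality for two independent copies. If the bad pairs are
increasing off `S` in each variable, then walls in both copies do not make them more likely. (helper31)
-/

set_option autoImplicit false

namespace Pool.Agent.W_7d29a1_C1.F31

open MeasureTheory ProbabilityTheory Filter Topology
open Pool.Agent.W_7d29a1_F Pool.Agent.W_7d29a1_h4g Pool.Agent.W_7d29a1_H Pool.Agent.W_7d29a1_HS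
open Pool.Agent.W_7d29a1_HR (Dec Fin')
open Pool.Agent.W_7d29a1_C1.S71 (Off)
open scoped ENNReal

noncomputable section

variable {μ : Measure ℝ} {S : Set Pt}

/-- `fkg_inc` in `ℝ≥0∞`. -/
theorem fkg_inc' [IsProbabilityMeasure μ] {A C : Set Env} (mA : MeasurableSet A) (mC : MeasurableSet C) (hA : IncO S A)
    (hC : DecO S C) (fC : FinO S C) : law μ (A ∩ C) ≤ law μ A * law μ C := by
  have h1 := fkg_inc (μ := μ) mA mC hA hC fC
  simp only [Measure.real] at h1
  rw [← ENNReal.toReal_mul] at h1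
  exact (ENNReal.toReal_le_toReal (measure_ne_top _ _) (ENNReal.mul_ne_top (measure_ne_top _ _) (measure_ne_top _ _))).1 h1

/-- `fkg` in `ℝ≥0∞`. -/
theorem fkg' [IsProbabilityMeasure μ] {A C : Set Env} (mA : MeasurableSet A) (mC : MeasurableSet C) (hA : DecO S A)
    (hC : DecO S C) (fC : FinO S C) : law μ A * law μ C ≤ law μ (A ∩ C) := by
  have h1 := fkg (μ := μ) mA mC hA hC fC
  simp only [Measure.real] at h1
  rw [← ENNReal.toReal_mul] at h1
  exact (ENNReal.toReal_le_toReal (ENNReal.mul_ne_top (measure_ne_top _ _) (measure_ne_top _ _)) (measure_ne_top _ _)).1 h1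

/-- One of the two copies: the bad pairs, the wall in the first copy. -/
theorem two_left [IsProbabilityMeasure μ] {B : Set (Env × Env)} (mB : MeasurableSet B) {C : Set Env} (mC : MeasurableSet C)
    (hB : ∀ y : Env, IncO S {x | (x, y) ∈ B}) (hC : DecO S C) (fC : FinO S C) :
    ((law μ).prod (law μ)) (B ∩ {q | q.1 ∈ C}) ≤ ((law μ).prod (law μ)) B * law μ C := by
  have mq : MeasurableSet {q : Env × Env | q.1 ∈ C} := measurable_fst mC
  rw [Measure.prod_apply_symm (mB.inter mq), Measure.prod_apply_symm mB,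
    ← lintegral_mul_const _ (measurable_measure_prodMk_right mB)]
  refine lintegral_mono fun y => ?_
  have e : (fun x : Env => (x, y)) ⁻¹' (B ∩ {q | q.1 ∈ C}) = {x | (x, y) ∈ B} ∩ C := rfl
  rw [e]
  exact fkg_inc' (measurable_prodMk_right mB) mC (hB y) hC fC

/-- One of the two copies: the bad pairs, the wall in the second copy. -/
theorem two_right [IsProbabilityMeasure μ] {B : Set (Env × Env)} (mB : MeasurableSet B) {C : Set Env} (mC : MeasurableSet C)
    (hB : ∀ x : Env, IncO S {y | (x, y) ∈ B}) (hC : DecO S C) (fC : FinO S C) :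
    ((law μ).prod (law μ)) (B ∩ {q | q.2 ∈ C}) ≤ ((law μ).prod (law μ)) B * law μ C := by
  have mq : MeasurableSet {q : Env × Env | q.2 ∈ C} := measurable_snd mC
  rw [Measure.prod_apply (mB.inter mq), Measure.prod_apply mB,
    ← lintegral_mul_const _ (measurable_measure_prodMk_left mB)]
  refine lintegral_mono fun x => ?_
  have e : Prod.mk x ⁻¹' (B ∩ {q | q.2 ∈ C}) = {y | (x, y) ∈ B} ∩ C := rfl
  rw [e]
  exact fkg_inc' (measurable_prodMk_left mB) mC (hB x) hC fC

/-- **Two copies**: `B` increasing off `S` in each variable, walls in both copies. -/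
theorem two [IsProbabilityMeasure μ] {B : Set (Env × Env)} (mB : MeasurableSet B) {C C' : Set Env} (mC : MeasurableSet C)
    (mC' : MeasurableSet C') (hB : ∀ y : Env, IncO S {x | (x, y) ∈ B}) (hB' : ∀ x : Env, IncO S {y | (x, y) ∈ B})
    (hC : DecO S C) (fC : FinO S C) (hC' : DecO S C') (fC' : FinO S C') :
    ((law μ).prod (law μ)) (B ∩ (C ×ˢ C')) ≤ ((law μ).prod (law μ)) B * law μ C * law μ C' := by
  classical
  have mq : MeasurableSet {q : Env × Env | q.1 ∈ C} := measurable_fst mC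
  have mq' : MeasurableSet {q : Env × Env | q.2 ∈ C'} := measurable_snd mC'
  -- first the wall of the first copy at a fixed second copy, then the wall of the second copy
  have e : B ∩ (C ×ˢ C') = (B ∩ {q | q.1 ∈ C}) ∩ {q | q.2 ∈ C'} := by
    ext q
    constructor
    · rintro ⟨h1, h2, h3⟩
      exact ⟨⟨h1, h2⟩, h3⟩
    · rintro ⟨⟨h1, h2⟩, h3⟩
      exact ⟨h1, h2, h3⟩
  have h1 : ((law μ).prod (law μ)) ((B ∩ {q | q.1 ∈ C}) ∩ {q | q.2 ∈ C'}) ≤
      ((law μ).prod (law μ)) (B ∩ {q | q.1 ∈ C}) * law μ C' := by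
    refine two_right (mB.inter mq) mC' (fun x => ?_) hC' fC'
    intro η η' h2 h3 h4
    exact ⟨hB' x η η' h2 h3 h4.1, h4.2⟩
  rw [e]
  refine h1.trans ?_
  exact mul_le_mul_left (two_left mB mC hB hC fC) _

/-- The real form, with arbitrary events `A`, `A'` of the two copies inside the bad set. -/
theorem two_real [IsProbabilityMeasure μ] {B : Set (Env × Env)} (mB : MeasurableSet B) {A A' C C' : Set Env}
    (mA : MeasurableSet A) (mA' : MeasurableSet A') (mC : MeasurableSet C) (mC' : MeasurableSet C')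
    (hB : ∀ y : Env, IncO S ({x | (x, y) ∈ B} ∩ A)) (hB' : ∀ x : Env, IncO S ({y | (x, y) ∈ B} ∩ A'))
    (hC : DecO S C) (fC : FinO S C) (hC' : DecO S C') (fC' : FinO S C') :
    ((law μ).prod (law μ)).real (B ∩ ((A ∩ C) ×ˢ (A' ∩ C'))) ≤
      ((law μ).prod (law μ)).real (B ∩ (A ×ˢ A')) * (law μ).real C * (law μ).real C' := by
  have h1 := two (μ := μ) (S := S) (B := B ∩ (A ×ˢ A')) (mB.inter (mA.prod mA')) mC mC'
    (fun y => by
      intro η η' h2 h3 h4
      have h5 := hB y η η' h2 h3 ⟨h4.1, h4.2.1⟩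
      exact ⟨h5.1, h5.2, h4.2.2⟩)
    (fun x => by
      intro η η' h2 h3 h4
      have h5 := hB' x η η' h2 h3 ⟨h4.1, h4.2.2⟩
      exact ⟨h5.1, h4.2.1, h5.2⟩) hC fC hC' fC'
  have e : B ∩ ((A ∩ C) ×ˢ (A' ∩ C')) = B ∩ (A ×ˢ A') ∩ (C ×ˢ C') := by
    ext q
    constructor
    · rintro ⟨h1, ⟨h2, h3⟩, h4, h5⟩
      exact ⟨⟨h1, h2, h4⟩, h3, h5⟩
    · rintro ⟨⟨h1, h2, h4⟩, h3, h5⟩
      exact ⟨h1, ⟨h2, h3⟩, h4, h5⟩
  rw [e]
  have h2 := ENNReal.toReal_mono (ENNReal.mul_ne_top (ENNReal.mul_ne_top (measure_ne_top _ _) (measure_ne_top _ _))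
    (measure_ne_top _ _)) h1
  rw [ENNReal.toReal_mul, ENNReal.toReal_mul] at h2
  exact h2

/-- **The form of the tuned slab lemma**: good pairs have a positive probability. `A`, `A'` (good blocks of the two types) with
probabilities at least `p`, walls `C`, `C'`, bad pairs `B` of probability at most `p ^ 2 / 2` (all pairs, without walls); then
the pairs which are in `A ∩ C`, `A' ∩ C'` and not bad have probability at least `p ^ 2 / 2 * P(C) P(C')`. -/
theorem two_good [IsProbabilityMeasure μ] {B : Set (Env × Env)} (mB : MeasurableSet B) {A A' C C' : Set Env}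
    (mA : MeasurableSet A) (mA' : MeasurableSet A') (mC : MeasurableSet C) (mC' : MeasurableSet C')
    (hA : DecO S A) (hA' : DecO S A')
    (hB : ∀ y : Env, IncO S ({x | (x, y) ∈ B} ∩ A)) (hB' : ∀ x : Env, IncO S ({y | (x, y) ∈ B} ∩ A'))
    (hC : DecO S C) (fC : FinO S C) (hC' : DecO S C') (fC' : FinO S C') {p : ℝ} (hp : 0 ≤ p)
    (h1 : p ≤ (law μ).real A) (h1' : p ≤ (law μ).real A') (h2 : ((law μ).prod (law μ)).real (B ∩ (A ×ˢ A')) ≤ p ^ 2 / 2) :
    p ^ 2 / 2 * ((law μ).real C * (law μ).real C') ≤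
      ((law μ).prod (law μ)).real (((A ∩ C) ×ˢ (A' ∩ C')) \ B) := by
  have k1 := two_real (μ := μ) mB mA mA' mC mC' hB hB' hC fC hC' fC'
  have k2 : p ^ 2 * ((law μ).real C * (law μ).real C') ≤ ((law μ).prod (law μ)).real ((A ∩ C) ×ˢ (A' ∩ C')) := by
    rw [measureReal_prod_prod]
    have k3 := fkg (μ := μ) mA mC hA hC fC
    have k4 := fkg (μ := μ) mA' mC' hA' hC' fC'
    have c0 : 0 ≤ (law μ).real C := measureReal_nonneg
    have c1 : 0 ≤ (law μ).real C' := measureReal_nonneg
    calc p ^ 2 * ((law μ).real C * (law μ).real C') = (p * (law μ).real C) * (p * (law μ).real C') := by ring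
      _ ≤ ((law μ).real A * (law μ).real C) * ((law μ).real A' * (law μ).real C') := by
          refine mul_le_mul (mul_le_mul_of_nonneg_right h1 c0) (mul_le_mul_of_nonneg_right h1' c1) (by positivity)
            (mul_nonneg measureReal_nonneg c0)
      _ ≤ _ := mul_le_mul k3 k4 (mul_nonneg measureReal_nonneg c1) measureReal_nonneg
  have k5 : ((law μ).prod (law μ)).real ((A ∩ C) ×ˢ (A' ∩ C')) =
      ((law μ).prod (law μ)).real (B ∩ ((A ∩ C) ×ˢ (A' ∩ C'))) +
        ((law μ).prod (law μ)).real (((A ∩ C) ×ˢ (A' ∩ C')) \ B) := by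
    have k6 := measureReal_inter_add_sdiff (μ := (law μ).prod (law μ)) (s := (A ∩ C) ×ˢ (A' ∩ C')) mB
    rw [Set.inter_comm] at k6
    exact k6.symm
  have k7 : ((law μ).prod (law μ)).real (B ∩ (A ×ˢ A')) * (law μ).real C * (law μ).real C' ≤
      p ^ 2 / 2 * ((law μ).real C * (law μ).real C') := by
    rw [mul_assoc]
    exact mul_le_mul_of_nonneg_right h2 (mul_nonneg measureReal_nonneg measureReal_nonneg)
  nlinarith

end

end Pool.Agent.W_7d29a1_C1.F31
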