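import Pool.Agent.W_7d29a1_C1.FkgO10
import Pool.Agent.W_7d29a1_C1.Seq71B

/-!
MP_7d29a1_pr, attractor route [C1], SEPARATION: THE FKG AVERAGE. (helper28)

A weight `W = ∑ i, F i` (pairs of core paths), each `F i` nonincreasing in the sites of `O i` (wall rows off the tube and off the two
paths), a decreasing event `A i` of probability at least `c` in the sites of `O i` (walls), `T` does not read the sites of `O i`. Then,
in the average over the content of the window `B ⊇ O i` (rest `ω` frozen), at least half of `(c/2) ∫_T W` comes from the contents for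
which the events `A i` have at least the share `c/2` of the weight.

* `avg28` : abstract averaging.
* `fkgB` : conditional FKG for the content of a window, rest frozen.
* `gateA28` : the two together. `gateW28` : from a weight `w` with `w ≤ C₀ W` on `T₀ ⊆ T`.
-/

set_option autoImplicit false

namespace Pool.Agent.W_7d29a1_C1.FA28

open MeasureTheory ProbabilityTheory Filter Topology
open Pool.Agent.W_7d29a1_F Pool.Agent.W_7d29a1_h4g Pool.Agent.W_7d29a1_H Pool.Agent.W_7d29a1_HS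
open Pool.Agent.W_7d29a1_HR (Dec Fin')
open Pool.Agent.W_7d29a1_C1.S71
open Pool.Agent.W_7d29a1_C1.F31
open Pool.Agent.W_7d29a1_C1.H10
open scoped ENNReal

noncomputable section

/-! ### the averaging, abstract -/

/-- **AVERAGING.** `p ∫_T w i ≤ ∫_(T ∩ D i) w i` for every `i`: then the events `D i` have at least the share `p/2` of the weight on a
set which carries at least `(p/2) ∫_T W`. -/
theorem avg28 {Ω ι : Type*} [MeasurableSpace Ω] {P : Measure Ω} (I : Finset ι) {T : Set Ω} {w : ι → Ω → ℝ≥0∞}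
    {D : ι → Set Ω} {p : ℝ≥0∞} (mw : ∀ i ∈ I, Measurable (w i)) (mD : ∀ i ∈ I, MeasurableSet (D i))
    (h : ∀ i ∈ I, p * ∫⁻ ω in T, w i ω ∂P ≤ ∫⁻ ω in T ∩ D i, w i ω ∂P) (hp : p ≠ ∞)
    (fin : ∫⁻ ω in T, ∑ i ∈ I, w i ω ∂P ≠ ∞) :
    p / 2 * ∫⁻ ω in T, ∑ i ∈ I, w i ω ∂P ≤
      ∫⁻ ω in T ∩ {ω | p / 2 * ∑ i ∈ I, w i ω ≤ ∑ i ∈ I, (D i).indicator (w i) ω}, ∑ i ∈ I, w i ω ∂P := by
  set W : Ω → ℝ≥0∞ := fun ω => ∑ i ∈ I, w i ω with hW
  set V : Ω → ℝ≥0∞ := fun ω => ∑ i ∈ I, (D i).indicator (w i) ω with hV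
  have mW : Measurable W := Finset.measurable_sum _ mw
  have mV : Measurable V := Finset.measurable_sum _ fun i hi => (mw i hi).indicator (mD i hi)
  set G : Set Ω := {ω | p / 2 * W ω ≤ V ω} with hG
  have mG : MeasurableSet G := measurableSet_le (mW.const_mul _) mV
  have e1 : p * ∫⁻ ω in T, W ω ∂P ≤ ∫⁻ ω in T, V ω ∂P := by
    have a1 : ∫⁻ ω in T, W ω ∂P = ∑ i ∈ I, ∫⁻ ω in T, w i ω ∂P := lintegral_finsetSum _ mw
    have a2 : ∫⁻ ω in T, V ω ∂P = ∑ i ∈ I, ∫⁻ ω in T ∩ D i, w i ω ∂P := by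
      rw [hV, lintegral_finsetSum _ fun i hi => (mw i hi).indicator (mD i hi)]
      refine Finset.sum_congr rfl fun i hi => ?_
      rw [lintegral_indicator (mD i hi), Measure.restrict_restrict (mD i hi), Set.inter_comm]
    rw [a1, a2, Finset.mul_sum]
    exact Finset.sum_le_sum h
  have hVW : ∀ ω, V ω ≤ W ω := fun ω => Finset.sum_le_sum fun i _ => Set.indicator_le_self _ _ ω
  have e2 : ∫⁻ ω in T, V ω ∂P ≤ ∫⁻ ω in T ∩ G, W ω ∂P + p / 2 * ∫⁻ ω in T, W ω ∂P := by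
    calc ∫⁻ ω in T, V ω ∂P ≤ ∫⁻ ω in T, (G.indicator W ω + p / 2 * W ω) ∂P := by
          refine lintegral_mono fun ω => ?_
          by_cases hω : ω ∈ G
          · rw [Set.indicator_of_mem hω]
            exact (hVW ω).trans le_self_add
          · rw [Set.indicator_of_notMem hω, zero_add]
            exact (not_le.1 hω).le
      _ = ∫⁻ ω in T, G.indicator W ω ∂P + ∫⁻ ω in T, p / 2 * W ω ∂P := lintegral_add_left (mW.indicator mG) _
      _ = _ := by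
          rw [lintegral_indicator mG, Measure.restrict_restrict mG, Set.inter_comm G T, lintegral_const_mul _ mW]
  have e3 : p * ∫⁻ ω in T, W ω ∂P = p / 2 * ∫⁻ ω in T, W ω ∂P + p / 2 * ∫⁻ ω in T, W ω ∂P := by
    rw [← add_mul, ENNReal.add_halves]
  have e4 := e1.trans e2
  rw [e3] at e4
  refine (ENNReal.add_le_add_iff_right ?_).1 e4
  exact ENNReal.mul_ne_top (ENNReal.div_ne_top hp (by norm_num)) fin

/-! ### the window -/

variable {μ : Measure ℝ} {O B : Set Pt}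

/-- A section of a nonincreasing function. -/
theorem AntO.sec {F : Env → ℝ} (hF : AntO O F) (B : Set Pt) (ω : Env) : AntO O fun ξ => F (gl B ξ ω) := fun η η' h1 h2 =>
  hF (gl B η ω) (gl B η' ω) (gl_le h1) fun p hp => by
    by_cases hB : p ∈ B
    · rw [gl_of_mem hB, gl_of_mem hB, h2 p hp]
    · rw [gl_of_not_mem hB, gl_of_not_mem hB]

/-- A section of a decreasing event. -/
theorem DecO.sec {A : Set Env} (hA : DecO Oᶜ A) (B : Set Pt) (ω : Env) : DecO Oᶜ {ξ | gl B ξ ω ∈ A} := fun η η' h1 h2 h3 =>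
  hA (gl B η ω) (gl B η' ω) (gl_le h1) (fun p hp => by
    by_cases hB : p ∈ B
    · rw [gl_of_mem hB, gl_of_mem hB, h2 p hp]
    · rw [gl_of_not_mem hB, gl_of_not_mem hB]) h3

/-- A section of a finitely determined event. -/
theorem Fin'.sec {A : Set Env} (fA : Fin' A) (B : Set Pt) (ω : Env) : Fin' {ξ | gl B ξ ω ∈ A} := by
  obtain ⟨D, hD⟩ := fA
  refine ⟨D, fun η η' h => hD _ _ fun p hp => ?_⟩
  unfold gl
  split_ifs
  · exact h p hp
  · rfl

/-- A section of an event which does not read `O`. -/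
theorem Off.sec {T : Set Env} (hT : Off O T) (B : Set Pt) (ω : Env) : Off O {ξ | gl B ξ ω ∈ T} := fun η η' h =>
  hT (gl B η ω) (gl B η' ω) fun p hp => by
    by_cases hB : p ∈ B
    · rw [gl_of_mem hB, gl_of_mem hB, h p hp]
    · rw [gl_of_not_mem hB, gl_of_not_mem hB]

theorem gl_swap (hO : O ⊆ B) (ξ f ω : Env) : gl B (gl O ξ f) ω = gl O ξ (gl B f ω) := by
  funext p
  by_cases hp : p ∈ O
  · rw [gl_of_mem (hO hp), gl_of_mem hp, gl_of_mem hp]
  · rw [gl_of_not_mem hp (η := gl B f ω)]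
    by_cases hB : p ∈ B
    · rw [gl_of_mem hB, gl_of_mem hB, gl_of_not_mem hp]
    · rw [gl_of_not_mem hB, gl_of_not_mem hB]

/-- **CONDITIONAL FKG FOR THE CONTENT OF A WINDOW**, rest `ω` frozen. -/
theorem fkgB [IsProbabilityMeasure μ] {F : Env → ℝ} {K c : ℝ} {A T : Set Env} (mF : Measurable F) (F0 : ∀ η, 0 ≤ F η)
    (FK : ∀ η, F η ≤ K) (hF : AntO O F) (mA : MeasurableSet A) (hA : DecO Oᶜ A) (fA : Fin' A) (mT : MeasurableSet T)
    (hT : Off O T) (hc0 : 0 ≤ c) (hc : ∀ f ∈ T, c ≤ (law μ).real {η | gl O η f ∈ A}) (hO : O ⊆ B) (ω : Env) :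
    ENNReal.ofReal c * ∫⁻ ξ in {ξ | gl B ξ ω ∈ T}, ENNReal.ofReal (F (gl B ξ ω)) ∂(law μ) ≤
      ∫⁻ ξ in {ξ | gl B ξ ω ∈ T} ∩ {ξ | gl B ξ ω ∈ A}, ENNReal.ofReal (F (gl B ξ ω)) ∂(law μ) :=
  fkgO (F := fun ξ => F (gl B ξ ω)) (K := K) (mF.comp (measurable_gl_left B ω)) (fun ξ => F0 _) (fun ξ => FK _)
    (AntO.sec hF B ω) ((measurable_gl_left B ω) mA) (DecO.sec hA B ω) (Fin'.sec fA B ω) ((measurable_gl_left B ω) mT)
    (Off.sec hT B ω) hc0 fun f hf => by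
      have := hc (gl B f ω) hf
      simp only [Set.mem_ofPred_eq]
      simpa only [gl_swap hO] using this

/-- The contents of the window for which the events `A i` have at least the share `c/2` of the weight. -/
def Gt {ι : Type*} (I : Finset ι) (F : ι → Env → ℝ) (A : ι → Set Env) (c : ℝ) : Set Env :=
  {η | c / 2 * ∑ i ∈ I, F i η ≤ ∑ i ∈ I, (A i).indicator (F i) η}

theorem measurableSet_Gt {ι : Type*} {I : Finset ι} {F : ι → Env → ℝ} {A : ι → Set Env} {c : ℝ} (mF : ∀ i ∈ I, Measurable (F i))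
    (mA : ∀ i ∈ I, MeasurableSet (A i)) : MeasurableSet (Gt I F A c) :=
  measurableSet_le ((Finset.measurable_sum _ mF).const_mul _) (Finset.measurable_sum _ fun i hi => (mF i hi).indicator (mA i hi))

/-- **THE GATE IN THE AVERAGE.** -/
theorem gateA28 [IsProbabilityMeasure μ] {ι : Type*} (I : Finset ι) {F : ι → Env → ℝ} {K c : ℝ} {O : ι → Set Pt} {A : ι → Set Env}
    {T : Set Env} (mF : ∀ i ∈ I, Measurable (F i)) (F0 : ∀ i ∈ I, ∀ η, 0 ≤ F i η) (FK : ∀ i ∈ I, ∀ η, F i η ≤ K)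
    (hF : ∀ i ∈ I, AntO (O i) (F i)) (mA : ∀ i ∈ I, MeasurableSet (A i)) (hA : ∀ i ∈ I, DecO (O i)ᶜ (A i))
    (fA : ∀ i ∈ I, Fin' (A i)) (mT : MeasurableSet T) (hT : ∀ i ∈ I, Off (O i) T) (hc0 : 0 ≤ c)
    (hc : ∀ i ∈ I, ∀ f ∈ T, c ≤ (law μ).real {η | gl (O i) η f ∈ A i}) (hO : ∀ i ∈ I, O i ⊆ B) (ω : Env) :
    ENNReal.ofReal (c / 2) * ∫⁻ ξ, T.indicator (fun η => ENNReal.ofReal (∑ i ∈ I, F i η)) (gl B ξ ω) ∂(law μ) ≤
      ∫⁻ ξ, (T ∩ Gt I F A c).indicator (fun η => ENNReal.ofReal (∑ i ∈ I, F i η)) (gl B ξ ω) ∂(law μ) := by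
  have : IsProbabilityMeasure (law μ) := by unfold law; infer_instance
  have mg := measurable_gl_left B ω
  set T' : Set Env := {ξ | gl B ξ ω ∈ T} with hT'
  have mT' : MeasurableSet T' := mg mT
  have mw : ∀ i ∈ I, Measurable fun ξ => ENNReal.ofReal (F i (gl B ξ ω)) := fun i hi => ((mF i hi).comp mg).ennreal_ofReal
  have mD : ∀ i ∈ I, MeasurableSet {ξ | gl B ξ ω ∈ A i} := fun i hi => mg (mA i hi)
  have h1 := avg28 (P := law μ) I (T := T') (w := fun i ξ => ENNReal.ofReal (F i (gl B ξ ω)))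
    (D := fun i => {ξ | gl B ξ ω ∈ A i}) (p := ENNReal.ofReal c) mw mD
    (fun i hi => fkgB (mF i hi) (F0 i hi) (FK i hi) (hF i hi) (mA i hi) (hA i hi) (fA i hi) mT (hT i hi) hc0 (hc i hi) (hO i hi) ω)
    ENNReal.ofReal_ne_top ?_
  · have eS : ∀ ξ, ∑ i ∈ I, ENNReal.ofReal (F i (gl B ξ ω)) = ENNReal.ofReal (∑ i ∈ I, F i (gl B ξ ω)) := fun ξ =>
      (ENNReal.ofReal_sum_of_nonneg fun i hi => F0 i hi _).symm
    have eD : ∀ ξ, ∑ i ∈ I, ({ξ | gl B ξ ω ∈ A i}).indicator (fun ξ => ENNReal.ofReal (F i (gl B ξ ω))) ξ =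
        ENNReal.ofReal (∑ i ∈ I, (A i).indicator (F i) (gl B ξ ω)) := by
      intro ξ
      rw [ENNReal.ofReal_sum_of_nonneg fun i hi => Set.indicator_nonneg (fun η _ => F0 i hi η) _]
      refine Finset.sum_congr rfl fun i _ => ?_
      by_cases hi : gl B ξ ω ∈ A i
      · rw [Set.indicator_of_mem (show ξ ∈ {ξ | gl B ξ ω ∈ A i} from hi), Set.indicator_of_mem hi]
      · rw [Set.indicator_of_notMem (show ξ ∉ {ξ | gl B ξ ω ∈ A i} from hi), Set.indicator_of_notMem hi, ENNReal.ofReal_zero]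
    have e2 : ENNReal.ofReal c / 2 = ENNReal.ofReal (c / 2) := by
      rw [ENNReal.ofReal_div_of_pos (by norm_num), ENNReal.ofReal_ofNat]
    have eG : {ξ | ENNReal.ofReal c / 2 * ∑ i ∈ I, ENNReal.ofReal (F i (gl B ξ ω)) ≤
        ∑ i ∈ I, ({ξ | gl B ξ ω ∈ A i}).indicator (fun ξ => ENNReal.ofReal (F i (gl B ξ ω))) ξ} =
        {ξ | gl B ξ ω ∈ Gt I F A c} := by
      ext ξ
      simp only [Set.mem_ofPred_eq, Gt]
      rw [eS ξ, eD ξ, e2, ← ENNReal.ofReal_mul (by linarith),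
        ENNReal.ofReal_le_ofReal_iff (Finset.sum_nonneg fun i hi => Set.indicator_nonneg (fun η _ => F0 i hi η) _)]
    rw [eG] at h1
    simp only [eS] at h1
    have mGt : MeasurableSet {ξ | gl B ξ ω ∈ Gt I F A c} := mg (measurableSet_Gt mF mA)
    rw [e2, ← lintegral_indicator mT', ← lintegral_indicator (mT'.inter mGt)] at h1
    exact h1
  · have hb : ∀ ξ, ∑ i ∈ I, ENNReal.ofReal (F i (gl B ξ ω)) ≤ ∑ i ∈ I, ENNReal.ofReal K := fun ξ =>
      Finset.sum_le_sum fun i hi => ENNReal.ofReal_le_ofReal (FK i hi _)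
    refine ne_top_of_le_ne_top (b := ∑ i ∈ I, ENNReal.ofReal K) (ENNReal.sum_ne_top.2 fun i _ => ENNReal.ofReal_ne_top) ?_
    calc ∫⁻ ξ in T', ∑ i ∈ I, ENNReal.ofReal (F i (gl B ξ ω)) ∂(law μ)
        ≤ ∫⁻ ξ, ∑ i ∈ I, ENNReal.ofReal (F i (gl B ξ ω)) ∂(law μ) := setLIntegral_le_lintegral _ _
      _ ≤ ∫⁻ _ξ, ∑ i ∈ I, ENNReal.ofReal K ∂(law μ) := lintegral_mono hb
      _ = _ := by rw [lintegral_const, measure_univ, mul_one]

/-- **FROM A WEIGHT**: `w ≤ C₀ W` on `T₀ ⊆ T` (core paths carry a fixed share on the typical contents). -/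
theorem gateW28 [IsProbabilityMeasure μ] {ι : Type*} (I : Finset ι) {F : ι → Env → ℝ} {K c C₀ : ℝ} {O : ι → Set Pt}
    {A : ι → Set Env} {T T₀ : Set Env} {w : Env → ℝ≥0∞} (mF : ∀ i ∈ I, Measurable (F i)) (F0 : ∀ i ∈ I, ∀ η, 0 ≤ F i η)
    (FK : ∀ i ∈ I, ∀ η, F i η ≤ K) (hF : ∀ i ∈ I, AntO (O i) (F i)) (mA : ∀ i ∈ I, MeasurableSet (A i))
    (hA : ∀ i ∈ I, DecO (O i)ᶜ (A i)) (fA : ∀ i ∈ I, Fin' (A i)) (mT : MeasurableSet T) (hT : ∀ i ∈ I, Off (O i) T) (hc0 : 0 ≤ c)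
    (hc : ∀ i ∈ I, ∀ f ∈ T, c ≤ (law μ).real {η | gl (O i) η f ∈ A i}) (hO : ∀ i ∈ I, O i ⊆ B) (hTT : T₀ ⊆ T)
    (hw : ∀ η ∈ T₀, w η ≤ ENNReal.ofReal (C₀ * ∑ i ∈ I, F i η)) (hC₀ : 0 ≤ C₀) (ω : Env) :
    ENNReal.ofReal (c / 2) * ∫⁻ ξ, T₀.indicator w (gl B ξ ω) ∂(law μ) ≤
      ENNReal.ofReal C₀ * ∫⁻ ξ, (T ∩ Gt I F A c).indicator (fun η => ENNReal.ofReal (∑ i ∈ I, F i η)) (gl B ξ ω) ∂(law μ) := by
  have h1 := gateA28 (μ := μ) (B := B) I mF F0 FK hF mA hA fA mT hT hc0 hc hO ω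
  have h2 : ∫⁻ ξ, T₀.indicator w (gl B ξ ω) ∂(law μ) ≤
      ENNReal.ofReal C₀ * ∫⁻ ξ, T.indicator (fun η => ENNReal.ofReal (∑ i ∈ I, F i η)) (gl B ξ ω) ∂(law μ) := by
    rw [← lintegral_const_mul' _ _ ENNReal.ofReal_ne_top]
    refine lintegral_mono fun ξ => ?_
    by_cases h0 : gl B ξ ω ∈ T₀
    · rw [Set.indicator_of_mem h0, Set.indicator_of_mem (hTT h0), ← ENNReal.ofReal_mul hC₀]
      exact hw _ h0
    · rw [Set.indicator_of_notMem h0]
      exact zero_le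
  calc _ ≤ ENNReal.ofReal (c / 2) * (ENNReal.ofReal C₀ *
        ∫⁻ ξ, T.indicator (fun η => ENNReal.ofReal (∑ i ∈ I, F i η)) (gl B ξ ω) ∂(law μ)) := by gcongr
    _ = ENNReal.ofReal C₀ * (ENNReal.ofReal (c / 2) *
        ∫⁻ ξ, T.indicator (fun η => ENNReal.ofReal (∑ i ∈ I, F i η)) (gl B ξ ω) ∂(law μ)) := by ring
    _ ≤ _ := by gcongr

end

end Pool.Agent.W_7d29a1_C1.FA28
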