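import Pool.Agent.W_7d29a1_C1.Fkg31

/-!
MP_7d29a1_pr, attractor route, the shell (helper10): conditional FKG with a frozen part. `O` is the set of the sites off the strips,
`F` is nonincreasing in the sites of `O` (the weight whose numerator is restricted to the strips), `A` is decreasing in the sites of `O`
(walls, no exit, no jump), `T` does not read `O` (the content of the strips). If `A` has probability at least `c` over the sites of `O`
whatever the frozen part in `T` is, then `c ∫_T F ≤ ∫_{T ∩ A} F`.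
-/

set_option autoImplicit false

namespace Pool.Agent.W_7d29a1_C1.H10

open MeasureTheory ProbabilityTheory Filter Topology
open Pool.Agent.W_7d29a1_F Pool.Agent.W_7d29a1_h4g Pool.Agent.W_7d29a1_H Pool.Agent.W_7d29a1_HS
open Pool.Agent.W_7d29a1_HR (Dec Fin')
open Pool.Agent.W_7d29a1_C1.S71
open Pool.Agent.W_7d29a1_C1.F31
open scoped ENNReal

noncomputable section

variable {μ : Measure ℝ} {O : Set Pt}

/-- Nonincreasing in the sites of `O`. -/
def AntO (O : Set Pt) (F : Env → ℝ) : Prop := ∀ η η' : Env, (∀ p, η p ≤ η' p) → (∀ p, p ∉ O → η p = η' p) → F η' ≤ F η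

theorem AntO.mul_off {F h : Env → ℝ} (hF : AntO O F) (h0 : ∀ η, 0 ≤ h η)
    (hh : ∀ η η' : Env, (∀ p, p ∉ O → η p = η' p) → h η = h η') : AntO O fun η => h η * F η := fun η η' h1 h2 => by
  show h η' * F η' ≤ h η * F η
  rw [hh η η' h2]
  exact mul_le_mul_of_nonneg_left (hF η η' h1 h2) (h0 η')

theorem AntO.add {F G : Env → ℝ} (hF : AntO O F) (hG : AntO O G) : AntO O fun η => F η + G η := fun η η' h1 h2 =>
  add_le_add (hF η η' h1 h2) (hG η η' h1 h2)

theorem AntO.sum {ι : Type*} {S : Finset ι} {F : ι → Env → ℝ} (hF : ∀ i ∈ S, AntO O (F i)) : AntO O fun η => ∑ i ∈ S, F i η :=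
  fun η η' h1 h2 => Finset.sum_le_sum fun i hi => hF i hi η η' h1 h2

theorem gl_le {η η' f : Env} (h : ∀ p, η p ≤ η' p) (p : Pt) : gl O η f p ≤ gl O η' f p := by
  unfold gl
  split_ifs
  · exact h p
  · exact le_rfl

/-- The section of a decreasing finitely determined event. -/
theorem sec_dec {A : Set Env} (hA : DecO Oᶜ A) (f : Env) : DecO Oᶜ {η | gl O η f ∈ A} := fun η η' h1 h2 h3 =>
  hA (gl O η f) (gl O η' f) (gl_le h1) (fun p hp => by
    rw [gl_of_not_mem (show p ∉ O from hp), gl_of_not_mem (show p ∉ O from hp)]) h3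

theorem sec_fin {A : Set Env} (fA : Fin' A) (f : Env) : FinO Oᶜ {η | gl O η f ∈ A} := by
  obtain ⟨D, hD⟩ := fA
  refine FinO.of_fin ⟨D, fun η η' h => ?_⟩ fun η η' h => ?_
  · exact hD _ _ fun p hp => by
      unfold gl
      split_ifs
      · exact h p hp
      · rfl
  · have e : gl O η f = gl O η' f := by
      funext p
      unfold gl
      split_ifs with hp
      · exact h p (Set.notMem_compl_iff.2 hp)
      · rfl
    show gl O η f ∈ A ↔ gl O η' f ∈ A
    rw [e]

/-- One frozen part. -/
theorem sec_fkg [IsProbabilityMeasure μ] {F : Env → ℝ} {K : ℝ} {A : Set Env} (mF : Measurable F) (F0 : ∀ η, 0 ≤ F η)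
    (FK : ∀ η, F η ≤ K) (hF : AntO O F) (mA : MeasurableSet A) (hA : DecO Oᶜ A) (fA : Fin' A) (f : Env) :
    (law μ).real {η | gl O η f ∈ A} * ∫ η, F (gl O η f) ∂(law μ) ≤ ∫ η in {η | gl O η f ∈ A}, F (gl O η f) ∂(law μ) := by
  have : IsProbabilityMeasure (law μ) := by unfold law; infer_instance
  have m1 : Measurable fun η => F (gl O η f) := mF.comp (measurable_gl_left O f)
  have i1 : Integrable (fun η => F (gl O η f)) (law μ) :=
    Integrable.of_bound m1.aestronglyMeasurable K (Eventually.of_forall fun η => by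
      rw [Real.norm_eq_abs, abs_of_nonneg (F0 _)]
      exact FK _)
  have m2 : MeasurableSet {η | gl O η f ∈ A} := (measurable_gl_left O f) mA
  have h1 := fkg_fun (μ := μ) (S := Oᶜ) (F := fun η => F (gl O η f)) m1 i1 m2 (fun η η' h2 h3 =>
    hF (gl O η f) (gl O η' f) (gl_le h2) fun p hp => by rw [gl_of_not_mem hp, gl_of_not_mem hp]) (sec_dec hA f) (sec_fin fA f)
  rw [mul_comm]
  exact h1

/-- **Conditional FKG with a frozen part**, in `ℝ≥0∞`. -/
theorem fkgO [IsProbabilityMeasure μ] {F : Env → ℝ} {K c : ℝ} {A T : Set Env} (mF : Measurable F) (F0 : ∀ η, 0 ≤ F η)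
    (FK : ∀ η, F η ≤ K) (hF : AntO O F) (mA : MeasurableSet A) (hA : DecO Oᶜ A) (fA : Fin' A) (mT : MeasurableSet T)
    (hT : Off O T) (hc0 : 0 ≤ c) (hc : ∀ f ∈ T, c ≤ (law μ).real {η | gl O η f ∈ A}) :
    ENNReal.ofReal c * ∫⁻ η in T, ENNReal.ofReal (F η) ∂(law μ) ≤ ∫⁻ η in T ∩ A, ENNReal.ofReal (F η) ∂(law μ) := by
  have : IsProbabilityMeasure (law μ) := by unfold law; infer_instance
  have mE : Measurable fun η => ENNReal.ofReal (F η) := mF.ennreal_ofReal
  rw [← lintegral_indicator mT, ← lintegral_indicator (mT.inter mA), lintegral_gl (μ := μ) O (mE.indicator mT),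
    lintegral_gl (μ := μ) O (mE.indicator (mT.inter mA)), ← lintegral_const_mul' _ _ ENNReal.ofReal_ne_top]
  refine lintegral_mono fun f => ?_
  by_cases hf : f ∈ T
  · have hin : ∀ η, gl O η f ∈ T := fun η => (hT.gl η f).2 hf
    have m1 : Measurable fun η => F (gl O η f) := mF.comp (measurable_gl_left O f)
    have m2 : MeasurableSet {η | gl O η f ∈ A} := (measurable_gl_left O f) mA
    have i1 : Integrable (fun η => F (gl O η f)) (law μ) :=
      Integrable.of_bound m1.aestronglyMeasurable K (Eventually.of_forall fun η => by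
        rw [Real.norm_eq_abs, abs_of_nonneg (F0 _)]
        exact FK _)
    have e1 : ∫⁻ η, T.indicator (fun η => ENNReal.ofReal (F η)) (gl O η f) ∂(law μ) =
        ENNReal.ofReal (∫ η, F (gl O η f) ∂(law μ)) := by
      rw [ofReal_integral_eq_lintegral_ofReal i1 (Eventually.of_forall fun η => F0 _)]
      exact lintegral_congr fun η => Set.indicator_of_mem (hin η) _
    have e2 : ∫⁻ η, (T ∩ A).indicator (fun η => ENNReal.ofReal (F η)) (gl O η f) ∂(law μ) =
        ENNReal.ofReal (∫ η in {η | gl O η f ∈ A}, F (gl O η f) ∂(law μ)) := by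
      rw [ofReal_integral_eq_lintegral_ofReal i1.integrableOn (Eventually.of_forall fun η => F0 _), ← lintegral_indicator m2]
      refine lintegral_congr fun η => ?_
      by_cases hη : gl O η f ∈ A
      · rw [Set.indicator_of_mem (show gl O η f ∈ T ∩ A from ⟨hin η, hη⟩),
          Set.indicator_of_mem (show η ∈ {η | gl O η f ∈ A} from hη)]
      · rw [Set.indicator_of_notMem fun h => hη h.2, Set.indicator_of_notMem (show η ∉ {η | gl O η f ∈ A} from hη)]
    rw [e1, e2, ← ENNReal.ofReal_mul hc0]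
    refine ENNReal.ofReal_le_ofReal ?_
    have h1 := sec_fkg (μ := μ) mF F0 FK hF mA hA fA f
    have h2 : 0 ≤ ∫ η, F (gl O η f) ∂(law μ) := integral_nonneg fun η => F0 _
    exact (mul_le_mul_of_nonneg_right (hc f hf) h2).trans h1
  · have hout : ∀ η, gl O η f ∉ T := fun η h => hf ((hT.gl η f).1 h)
    have e1 : ∫⁻ η, T.indicator (fun η => ENNReal.ofReal (F η)) (gl O η f) ∂(law μ) = 0 := by
      rw [lintegral_congr fun η => Set.indicator_of_notMem (hout η) _]
      exact lintegral_zero
    rw [e1, mul_zero]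
    exact zero_le

/-- **Conditional FKG with a frozen part**, real form. -/
theorem fkgO_real [IsProbabilityMeasure μ] {F : Env → ℝ} {K c : ℝ} {A T : Set Env} (mF : Measurable F) (F0 : ∀ η, 0 ≤ F η)
    (FK : ∀ η, F η ≤ K) (hF : AntO O F) (mA : MeasurableSet A) (hA : DecO Oᶜ A) (fA : Fin' A) (mT : MeasurableSet T)
    (hT : Off O T) (hc0 : 0 ≤ c) (hc : ∀ f ∈ T, c ≤ (law μ).real {η | gl O η f ∈ A}) :
    c * ∫ η in T, F η ∂(law μ) ≤ ∫ η in T ∩ A, F η ∂(law μ) := by
  have : IsProbabilityMeasure (law μ) := by unfold law; infer_instance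
  have i1 : Integrable F (law μ) := Integrable.of_bound mF.aestronglyMeasurable K (Eventually.of_forall fun η => by
    rw [Real.norm_eq_abs, abs_of_nonneg (F0 _)]
    exact FK _)
  have h1 := fkgO (μ := μ) mF F0 FK hF mA hA fA mT hT hc0 hc
  rw [← ofReal_integral_eq_lintegral_ofReal i1.integrableOn (Eventually.of_forall fun η => F0 _),
    ← ofReal_integral_eq_lintegral_ofReal i1.integrableOn (Eventually.of_forall fun η => F0 _), ← ENNReal.ofReal_mul hc0] at h1
  exact (ENNReal.ofReal_le_ofReal_iff (setIntegral_nonneg (mT.inter mA) fun η _ => F0 η)).1 h1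

end

end Pool.Agent.W_7d29a1_C1.H10
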