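import Pool.Agent.W_7d29a1_C1.Box47
import Pool.Agent.W_7d29a1_C1.Ctx60

/-!
MP_7d29a1_pr, [C1] SHELL, THE FRESH BALL: THE SWITCH ROW (helper47 86642 (6), L1). (helper74)

The force `p` and a force `p0` agree on the rows `[i, i + n)` up to a factor `a ≥ 1`: `ker_sw` : the kernels agree up to `a ^ n`;
`mq_sw` : the masses of the pairs up to `a ^ (2 n)`. `hin_sw` : the inside for `p0` with `1 - ε'` gives the inside for `p` with
`(1 - ε') / a ^ (4 n)`. `hin_cx74` : the force of a context (switch row anywhere) from the constant force `exp s`: `1 - ε' - x`,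
`4 |h| n ≤ x`.
-/

set_option autoImplicit false

namespace Pool.Agent.W_7d29a1_C1.Hs74

open Finset
open Pool.Agent.W_7d29a1_C1.U16 (ker ker_zero ker_nonneg)
open Pool.Agent.W_7d29a1_C1.Bx47 (ker_left mq mq_zero mq_succ mq_nonneg)
open Pool.Agent.W_7d29a1_C1.H60

noncomputable section

variable {w : ℕ → ℤ → ℝ} {p p0 : ℕ → ℝ} {a : ℝ}

theorem ker_sw (hw : ∀ k y, 0 < w k y) (hp : ∀ k, 0 < p k) (hp0 : ∀ k, 0 < p0 k) (ha : 1 ≤ a) : ∀ (n i : ℕ) (x y : ℤ),
    (∀ k, i ≤ k → k < i + n → p k ≤ a * p0 k) → ker w p i n x y ≤ a ^ n * ker w p0 i n x y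
  | 0, i, x, y, _ => by
    rw [ker_zero, ker_zero, pow_zero, one_mul]
  | n + 1, i, x, y, h => by
    have h1 := ker_sw hw hp hp0 ha n (i + 1) x y fun k hk hk' => h k (by omega) (by omega)
    have h2 := ker_sw hw hp hp0 ha n (i + 1) (x + 1) y fun k hk hk' => h k (by omega) (by omega)
    have h3 := h i le_rfl (by omega)
    have k1 := ker_nonneg (w := w) (p := p0) hw hp0 (i + 1) n x y
    have k2 := ker_nonneg (w := w) (p := p0) hw hp0 (i + 1) n (x + 1) y
    have k3 := ker_nonneg (w := w) (p := p) hw hp (i + 1) n (x + 1) y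
    have an : 0 ≤ a ^ n := by positivity
    rw [ker_left, ker_left]
    have e1 : a ^ (n + 1) * (w i x * (ker w p0 (i + 1) n x y + p0 i * ker w p0 (i + 1) n (x + 1) y)) =
        w i x * (a * (a ^ n * ker w p0 (i + 1) n x y) + (a * p0 i) * (a ^ n * ker w p0 (i + 1) n (x + 1) y)) := by
      rw [pow_succ]
      ring
    rw [e1]
    refine mul_le_mul_of_nonneg_left (add_le_add ?_ ?_) (hw i x).le
    · exact h1.trans (le_mul_of_one_le_left (by positivity) ha)
    · exact mul_le_mul h3 h2 k3 (mul_nonneg (by linarith) (hp0 i).le)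

theorem mq_sw (hw : ∀ k y, 0 < w k y) (hp : ∀ k, 0 < p k) (hp0 : ∀ k, 0 < p0 k) (ha : 1 ≤ a) (Q : Finset (ℕ × ℤ)) :
    ∀ (n i : ℕ) (x x' y y' : ℤ), (∀ k, i ≤ k → k < i + n → p k ≤ a * p0 k) →
      mq w p Q i n x x' y y' ≤ (a ^ 2) ^ n * mq w p0 Q i n x x' y y'
  | 0, i, x, x', y, y', _ => by
    rw [mq_zero, mq_zero, mul_zero]
  | n + 1, i, x, x', y, y', h => by
    have hh : ∀ k, i + 1 ≤ k → k < i + 1 + n → p k ≤ a * p0 k := fun k hk hk' => h k (by omega) (by omega)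
    have h1 := mq_sw hw hp hp0 ha Q n (i + 1) x x' y y' hh
    have h2 := mq_sw hw hp hp0 ha Q n (i + 1) (x + 1) x' y y' hh
    have h3 := mq_sw hw hp hp0 ha Q n (i + 1) x (x' + 1) y y' hh
    have h4 := mq_sw hw hp hp0 ha Q n (i + 1) (x + 1) (x' + 1) y y' hh
    have k1 := ker_sw hw hp hp0 ha n (i + 1) x' y hh
    have k2 := ker_sw hw hp hp0 ha n (i + 1) x' y' hh
    have hi := h i le_rfl (by omega)
    have p1 := hp i
    have p2 := hp0 i
    have m1 := mq_nonneg (w := w) (p := p0) hw hp0 Q n (i + 1) x x' y y'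
    have m2 := mq_nonneg (w := w) (p := p0) hw hp0 Q n (i + 1) (x + 1) x' y y'
    have m3 := mq_nonneg (w := w) (p := p0) hw hp0 Q n (i + 1) x (x' + 1) y y'
    have m4 := mq_nonneg (w := w) (p := p0) hw hp0 Q n (i + 1) (x + 1) (x' + 1) y y'
    have n2 := mq_nonneg (w := w) (p := p) hw hp Q n (i + 1) (x + 1) x' y y'
    have n3 := mq_nonneg (w := w) (p := p) hw hp Q n (i + 1) x (x' + 1) y y'
    have n4 := mq_nonneg (w := w) (p := p) hw hp Q n (i + 1) (x + 1) (x' + 1) y y'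
    have q1 := ker_nonneg (w := w) (p := p0) hw hp0 (i + 1) n x' y
    have q2 := ker_nonneg (w := w) (p := p0) hw hp0 (i + 1) n x' y'
    have r1 := ker_nonneg (w := w) (p := p) hw hp (i + 1) n x' y
    have r2 := ker_nonneg (w := w) (p := p) hw hp (i + 1) n x' y'
    have a0 : 0 ≤ a := by linarith
    have a2 : 1 ≤ a ^ 2 := one_le_pow₀ ha
    have aa : a ≤ a ^ 2 := by nlinarith
    have an : 0 ≤ (a ^ 2) ^ n := by positivity
    obtain ⟨A, hA⟩ : ∃ A : ℝ, A = (a ^ 2) ^ n := ⟨_, rfl⟩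
    rw [← hA] at h1 h2 h3 h4 an
    -- one row
    have i1 : mq w p Q (i + 1) n x x' y y' ≤ a ^ 2 * A * mq w p0 Q (i + 1) n x x' y y' := by
      refine h1.trans ?_
      have := mul_le_mul_of_nonneg_right a2 (mul_nonneg an m1)
      linarith
    have ip : ∀ {u v : ℝ}, 0 ≤ u → 0 ≤ v → u ≤ A * v → p i * u ≤ a ^ 2 * A * (p0 i * v) := by
      intro u v hu hv huv
      calc p i * u ≤ (a * p0 i) * (A * v) := mul_le_mul hi huv hu (mul_nonneg a0 p2.le)
        _ = a * (A * (p0 i * v)) := by ring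
        _ ≤ a ^ 2 * (A * (p0 i * v)) := mul_le_mul_of_nonneg_right aa (by positivity)
        _ = _ := by ring
    have i2 := ip n2 m2 h2
    have i3 := ip n3 m3 h3
    have i4 : p i ^ 2 * mq w p Q (i + 1) n (x + 1) (x' + 1) y y' ≤ a ^ 2 * A * (p0 i ^ 2 * mq w p0 Q (i + 1) n (x + 1) (x' + 1) y y') := by
      calc p i ^ 2 * mq w p Q (i + 1) n (x + 1) (x' + 1) y y' ≤ (a * p0 i) ^ 2 * (A * mq w p0 Q (i + 1) n (x + 1) (x' + 1) y y') :=
            mul_le_mul (pow_le_pow_left₀ p1.le hi 2) h4 n4 (by positivity)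
        _ = _ := by ring
    have i5 : (if x + 1 = x' ∧ (i, x') ∈ Q then p i * (ker w p (i + 1) n x' y * ker w p (i + 1) n x' y') else 0) ≤
        a ^ 2 * A * (if x + 1 = x' ∧ (i, x') ∈ Q then p0 i * (ker w p0 (i + 1) n x' y * ker w p0 (i + 1) n x' y') else 0) := by
      by_cases hc : x + 1 = x' ∧ (i, x') ∈ Q
      · rw [if_pos hc, if_pos hc]
        have j1 : ker w p (i + 1) n x' y * ker w p (i + 1) n x' y' ≤ A * (ker w p0 (i + 1) n x' y * ker w p0 (i + 1) n x' y') := by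
          calc ker w p (i + 1) n x' y * ker w p (i + 1) n x' y' ≤ (a ^ n * ker w p0 (i + 1) n x' y) * (a ^ n * ker w p0 (i + 1) n x' y') :=
                mul_le_mul k1 k2 r2 (by positivity)
            _ = _ := by
              rw [hA]
              ring
        exact ip (mul_nonneg r1 r2) (mul_nonneg q1 q2) j1
      · rw [if_neg hc, if_neg hc, mul_zero]
    rw [mq_succ, mq_succ]
    by_cases hx : x < x'
    · rw [if_pos hx, if_pos hx, pow_succ (a ^ 2) n, ← hA]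
      have w0 : 0 ≤ w i x * w i x' := mul_nonneg (hw i x).le (hw i x').le
      refine (mul_le_mul_of_nonneg_left (add_le_add (add_le_add (add_le_add (add_le_add i1 i2) i3) i4) i5) w0).trans (le_of_eq ?_)
      ring
    · rw [if_neg hx, if_neg hx, mul_zero]

/-- **THE INSIDE WITH ANOTHER FORCE.** -/
theorem hin_sw (hw : ∀ k y, 0 < w k y) (hp : ∀ k, 0 < p k) (hp0 : ∀ k, 0 < p0 k) (ha : 1 ≤ a) {Q : Finset (ℕ × ℤ)} {n i : ℕ}
    {x x' y y' : ℤ} (h1 : ∀ k, i ≤ k → k < i + n → p k ≤ a * p0 k) (h2 : ∀ k, i ≤ k → k < i + n → p0 k ≤ a * p k) {ε' : ℝ}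
    (hε : 0 ≤ 1 - ε') (h : (1 - ε') * (ker w p0 i n x y * ker w p0 i n x' y') ≤ mq w p0 Q i n x x' y y') :
    (1 - ε') * (ker w p i n x y * ker w p i n x' y') ≤ a ^ (4 * n) * mq w p Q i n x x' y y' := by
  have k1 := ker_sw hw hp hp0 ha n i x y h1
  have k2 := ker_sw hw hp hp0 ha n i x' y' h1
  have k3 := mq_sw hw hp0 hp ha Q n i x x' y y' h2
  have q1 := ker_nonneg (w := w) (p := p0) hw hp0 i n x y
  have r2 := ker_nonneg (w := w) (p := p) hw hp i n x' y'
  have an : 0 ≤ a ^ n := pow_nonneg (by linarith) n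
  calc (1 - ε') * (ker w p i n x y * ker w p i n x' y')
      ≤ (1 - ε') * ((a ^ n * ker w p0 i n x y) * (a ^ n * ker w p0 i n x' y')) :=
        mul_le_mul_of_nonneg_left (mul_le_mul k1 k2 r2 (mul_nonneg an q1)) hε
    _ = (a ^ 2) ^ n * ((1 - ε') * (ker w p0 i n x y * ker w p0 i n x' y')) := by ring
    _ ≤ (a ^ 2) ^ n * mq w p0 Q i n x x' y y' := mul_le_mul_of_nonneg_left h (by positivity)
    _ ≤ (a ^ 2) ^ n * ((a ^ 2) ^ n * mq w p Q i n x x' y y') := mul_le_mul_of_nonneg_left k3 (by positivity)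
    _ = _ := by ring

/-- **THE FORCE OF A CONTEXT** from the constant force `exp s`. -/
theorem hin_cx74 (hw : ∀ k y, 0 < w k y) (Γ : Cx) {Q : Finset (ℕ × ℤ)} {n i : ℕ} {x x' y y' : ℤ} {ε' e1 : ℝ} (hε : ε' ≤ 1)
    (hε0 : 0 ≤ ε') (hn : 4 * (|Γ.h| * n) ≤ e1)
    (h : (1 - ε') * (ker w (fun _ => Real.exp Γ.s) i n x y * ker w (fun _ => Real.exp Γ.s) i n x' y') ≤
      mq w (fun _ => Real.exp Γ.s) Q i n x x' y y') :
    (1 - (ε' + e1)) * (ker w Γ.p i n x y * ker w Γ.p i n x' y') ≤ mq w Γ.p Q i n x x' y y' := by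
  have hp : ∀ k, 0 < Γ.p k := fun k => by
    unfold Cx.p
    split_ifs <;> exact Real.exp_pos _
  have hp0 : ∀ k : ℕ, 0 < (fun _ : ℕ => Real.exp Γ.s) k := fun k => Real.exp_pos _
  have ha : 1 ≤ Real.exp |Γ.h| := Real.one_le_exp (abs_nonneg _)
  have h1 : ∀ k, i ≤ k → k < i + n → Γ.p k ≤ Real.exp |Γ.h| * (fun _ : ℕ => Real.exp Γ.s) k := fun k _ _ => by
    show Γ.p k ≤ Real.exp |Γ.h| * Real.exp Γ.s
    unfold Cx.p
    split_ifs
    · rw [← Real.exp_add]
      exact Real.exp_le_exp.2 (by linarith [le_abs_self Γ.h])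
    · exact le_mul_of_one_le_left (Real.exp_pos _).le ha
  have h2 : ∀ k, i ≤ k → k < i + n → (fun _ : ℕ => Real.exp Γ.s) k ≤ Real.exp |Γ.h| * Γ.p k := fun k _ _ => by
    show Real.exp Γ.s ≤ Real.exp |Γ.h| * Γ.p k
    unfold Cx.p
    split_ifs
    · rw [← Real.exp_add]
      exact Real.exp_le_exp.2 (by linarith [neg_abs_le Γ.h])
    · exact le_mul_of_one_le_left (Real.exp_pos _).le ha
  have key := hin_sw (Q := Q) hw hp hp0 ha h1 h2 (show 0 ≤ 1 - ε' by linarith) h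
  have e2 : Real.exp |Γ.h| ^ (4 * n) = Real.exp (4 * (|Γ.h| * n)) := by
    rw [← Real.exp_nat_mul]
    congr 1
    push_cast
    ring
  rw [e2] at key
  have hpos : 0 < Real.exp (4 * (|Γ.h| * n)) := Real.exp_pos _
  have e10 : 0 ≤ e1 := le_trans (by positivity) hn
  have k1 := mul_nonneg (ker_nonneg (w := w) (p := Γ.p) hw hp i n x y) (ker_nonneg (w := w) (p := Γ.p) hw hp i n x' y')
  have h3 : Real.exp (4 * (|Γ.h| * n)) * (1 - (ε' + e1)) ≤ 1 - ε' := by
    rcases le_or_gt (1 - (ε' + e1)) 0 with h4 | h4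
    · have := mul_nonpos_of_nonneg_of_nonpos hpos.le h4
      linarith
    · have h5 : Real.exp (4 * (|Γ.h| * n)) ≤ Real.exp e1 := Real.exp_le_exp.2 hn
      have h6 : 1 - e1 ≤ Real.exp (-e1) := by
        have := Real.add_one_le_exp (-e1)
        linarith
      have h7 : 1 - (ε' + e1) ≤ (1 - ε') * (1 - e1) := by nlinarith [mul_nonneg hε0 e10]
      have h8 : (1 - ε') * (1 - e1) ≤ (1 - ε') * Real.exp (-e1) := mul_le_mul_of_nonneg_left h6 (by linarith)
      calc Real.exp (4 * (|Γ.h| * n)) * (1 - (ε' + e1)) ≤ Real.exp e1 * ((1 - ε') * Real.exp (-e1)) :=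
            mul_le_mul h5 (h7.trans h8) h4.le (Real.exp_pos _).le
        _ = (1 - ε') * (Real.exp e1 * Real.exp (-e1)) := by ring
        _ = 1 - ε' := by
          rw [← Real.exp_add, add_neg_cancel, Real.exp_zero, mul_one]
  have h9 := mul_le_mul_of_nonneg_right h3 k1
  have h10 : Real.exp (4 * (|Γ.h| * n)) * ((1 - (ε' + e1)) * (ker w Γ.p i n x y * ker w Γ.p i n x' y')) ≤
      Real.exp (4 * (|Γ.h| * n)) * mq w Γ.p Q i n x x' y y' := by linarith
  exact le_of_mul_le_mul_left h10 hpos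

end

end Pool.Agent.W_7d29a1_C1.Hs74
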