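import Pool.Agent.W_7d29a1_C1.FrmF10

/-!
MP_7d29a1_pr, [C1], SHELL, THE FRESH BALL (helper10): the input (I) of `frame10`: **the event of the rows `(c0', e]`** from `inC10` (the
first meeting is in the box, levels and single weights of the inside) and `fin10` (levels `NR60`, end pieces at every place, a given event
of the second buffer). Relative rows: `rA10` (end of the first buffer), `rE10` (the row `e`).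
-/

set_option autoImplicit false

namespace Pool.Agent.W_7d29a1_C1.T10

open MeasureTheory Filter Topology
open Pool.Agent.W_7d29a1_F Pool.Agent.W_7d29a1_h4g Pool.Agent.W_7d29a1_H Pool.Agent.W_7d29a1_HS
open Pool.Agent.W_7d29a1_C1.S71 Pool.Agent.W_7d29a1_C1.Sw9 Pool.Agent.W_7d29a1_C1.U16 Pool.Agent.W_7d29a1_C1.H60
open Pool.Agent.W_7d29a1_C1 (On20)
open Pool.Agent.W_7d29a1_C1.K91 (wt wt_pos)
open Pool.Agent.W_7d29a1_C1.Bx47 (mq)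
open Pool.Agent.W_7d29a1_C1.FreC35 (FC35)
open scoped ENNReal

noncomputable section

/-! ### The relative rows -/

/-- The end of the first buffer, relative to the base of the box. -/
def rA10 (th : ℝ) (R₁ : ℕ) (T : ℕ → ℕ) (j : ℕ) : ℤ := -(T j : ℤ) + 1 + (R₁ : ℤ) * (kF th R₁ (T j) : ℤ)

/-- The row `e`, relative to the base of the box. -/
def rE10 (T : ℕ → ℕ) (j : ℕ) : ℤ := ((5 * T j / 8 : ℕ) : ℤ)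

theorem rA10_cF {th : ℝ} {R₁ : ℕ} {T : ℕ → ℕ} {j z : ℕ} (hz : T j ≤ z) : ((cF th R₁ z (T j) : ℕ) : ℤ) = (z : ℤ) + rA10 th R₁ T j := by
  unfold cF rA10
  push_cast [Nat.cast_sub hz]
  ring

theorem rE10_eq {T : ℕ → ℕ} {j z : ℕ} : ((z + 5 * T j / 8 : ℕ) : ℤ) = (z : ℤ) + rE10 T j := by
  unfold rE10
  push_cast
  ring

theorem rA10_low (th : ℝ) (R₁ : ℕ) (T : ℕ → ℕ) (j : ℕ) : -(T j : ℤ) ≤ rA10 th R₁ T j := by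
  unfold rA10
  have : (0 : ℤ) ≤ (R₁ : ℤ) * (kF th R₁ (T j) : ℤ) := by positivity
  omega

theorem rE10_nn (T : ℕ → ℕ) (j : ℕ) : 0 ≤ rE10 T j := by
  unfold rE10
  positivity

theorem rE10_le (T : ℕ → ℕ) (j : ℕ) : rE10 T j ≤ T j := by
  unfold rE10
  omega

/-- **The end of the first buffer is below the leaves.** -/
theorem rA10_up {th : ℝ} (h0 : 0 < th) (h1 : th ≤ 1 / 4) {R₁ : ℕ} (hR : 1 ≤ R₁) : ∃ n₁ : ℕ, 1 ≤ n₁ ∧ ∀ (T : ℕ → ℕ) (j : ℕ), n₁ ≤ T j →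
    rA10 th R₁ T j ≤ 0 ∧ ∀ RB T' : ℕ, (RB : ℝ) ≤ th / 8 * R₁ → (T' : ℝ) ≤ th * T j / 16 →
      rA10 th R₁ T j + (RB : ℤ) * (kF th R₁ (T j) : ℤ) ≤ -(T' : ℤ) := by
  obtain ⟨n₁, hn₁, H⟩ := rowsF h0 h1 hR 0
  refine ⟨n₁, hn₁, fun T j hT => ?_⟩
  obtain ⟨a1, -, -, -, -, a6⟩ := H (T j) (T j) hT le_rfl
  have e1 := rA10_cF (th := th) (R₁ := R₁) (T := T) (j := j) (z := T j) le_rfl
  refine ⟨by omega, fun RB T' h2 h3 => ?_⟩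
  have h4 := a6 RB T' h2 h3
  have hT' : T' ≤ T j := by
    have h5 : (T' : ℝ) ≤ T j := by
      have : (0 : ℝ) ≤ T j := by positivity
      nlinarith
    exact_mod_cast h5
  have h5 : ((cF th R₁ (T j) (T j) + RB * kF th R₁ (T j) : ℕ) : ℤ) ≤ ((T j - T' : ℕ) : ℤ) := by exact_mod_cast h4
  push_cast [Nat.cast_sub hT'] at h5
  linarith

/-! ### The two parts of the event -/

/-- (InG) at the box: the first meeting of the two cells is in the box. -/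
def InQ10 (μ : Measure ℝ) (s e' d gg R xc : ℝ) (G : Gd) (i : ℕ) (c₁ : ℕ × ℤ) (T c0 n : ℕ) (η : Env) : Prop :=
  ∀ (h' : ℝ) (p : ℕ → ℝ), (∀ k, 0 < p k) → (∀ k, c0 ≤ k → k < c0 + n → p k = Real.exp (s + h')) →
  ∀ (S : Finset (ℕ × ℤ)) (lo hi : ℤ), (∀ b, G.z i b = G.z i c₁ → b ∈ S) →
  (∀ (k : ℕ) (q : ℤ), (G.z i c₁).1 ≤ k → k < (G.z i c₁).1 + G.H i →
    |(q : ℝ) - xm G i c₁ - sl μ s * ((k : ℝ) - (G.z i c₁).1)| ≤ (R + 1) * wd μ s T → lo ≤ q ∧ q ≤ hi) →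
  ∀ x x' y y' : ℤ, xc - d * wd μ s T ≤ x → (x : ℝ) ≤ xc - gg * wd μ s T →
  xc + gg * wd μ s T ≤ x' → (x' : ℝ) ≤ xc + d * wd μ s T →
  |(y : ℝ) - (xc + sl μ s * n)| ≤ d * wd μ s T → |(y' : ℝ) - (xc + sl μ s * n)| ≤ d * wd μ s T →
  (1 - e') * (ker (wt η) p c0 n x y * ker (wt η) p c0 n x' y') ≤ mq (wt η) p (QF G i c₁ S lo hi) c0 n x x' y y'

/-- The conclusion of `fin10` for the levels `U`, `qx`. -/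
def Fin10 (μ : Measure ℝ) (s c θ Kw : ℝ) (P : ℕ) (χ C₀ : ℝ) (K : ℕ) (ε : ℝ) (n₁ : ℕ) (U qx : ℝ) : Prop :=
  ∀ {R : ℝ} {B h₀ L Lm : ℕ} {G : Gd}, GW μ s R B C₀ h₀ K L G → n₁ ≤ h₀ → ∀ {i : ℕ}, 2 ≤ i → i ≤ L → ∀ {y : ℕ → ℝ},
    (∀ l, y l = U * (K : ℝ) ^ (χ * (l : ℝ))) → ∀ (q₁ : ℕ × ℤ) (r₀ r₁ : ℤ), r₁ - r₀ ≤ 2 * Tg h₀ K i → r₁ ≤ 2 * Tg h₀ K i →
    ∀ EB : Set Env, law μ (FF10 μ s c θ Kw P G L Lm (Tg h₀ K) y i q₁ r₀ r₁ qx EB)ᶜ ≤ ENNReal.ofReal ε + law μ EBᶜ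

variable {μ : Measure ℝ} [IsProbabilityMeasure μ] {s c C : ℝ} {n₀ : ℕ}

/-- `fin10` with `Fin10`. -/
theorem fin10' {θ Kw : ℝ} {P : ℕ} {A' a₁ g₁ : ℝ} {n₁ : ℕ} (hA : 0 < A') (ha : 0 < a₁) (hg : 0 < g₁)
    (hT : ∀ (T : ℕ → ℕ) (y : ℕ → ℝ) (v : ℕ) (o : ℕ × ℤ) (l : ℕ), n₁ ≤ T (v + 1) → 0 ≤ y l →
      (law μ).real (EL60 μ s c θ Kw P T y v o l)ᶜ ≤ A' * Real.exp (-(a₁ * y l ^ g₁))) {K : ℕ} (hK : 2 ≤ K) {χ C₀ ε : ℝ} (hχ : 0 < χ)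
    (hC : 0 ≤ C₀) (hε : 0 < ε) : ∃ U₀ q₀ : ℝ, 1 ≤ U₀ ∧ 0 ≤ q₀ ∧ ∀ U qx : ℝ, U₀ ≤ U → q₀ ≤ qx →
      Fin10 μ s c θ Kw P χ C₀ K ε n₁ U qx := by
  obtain ⟨U₀, q₀, h1, h2, H⟩ := fin10 hA ha hg hT hK hχ hC hε
  exact ⟨U₀, q₀, h1, h2, fun U qx hU hq => H U qx hU hq⟩

/-- **(I): THE EVENT OF THE ROWS `(c0', e]`.** -/
theorem insF10 (h : In μ s c C n₀) {e₁ e' : ℝ} (he : 0 < e₁) (he' : 0 < e') :
    ∃ d : ℝ, 0 < d ∧ d ≤ 1 ∧ ∃ R : ℝ, 1 ≤ R ∧ ∀ gg : ℝ, 0 < gg → gg < d → ∃ th : ℝ, 0 < th ∧ th ≤ 1 / 4 ∧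
    ∀ (K' θ' u' : ℝ), 0 < K' → 0 < θ' → θ' ≤ 1 → 0 < u' → ∃ P' : ℕ, ∃ q' : ℝ, 0 ≤ q' ∧ ∀ R₁ : ℕ, 1 ≤ R₁ → ∃ n₁' : ℕ, 1 ≤ n₁' ∧
    ∀ qi : ℝ, q' ≤ qi → ∀ {θ Kw : ℝ} {P : ℕ} {χ C₀ : ℝ} {K : ℕ} {ε : ℝ} {n₁ : ℕ} {U qx : ℝ}, Fin10 μ s c θ Kw P χ C₀ K ε n₁ U qx →
    8 ≤ K → 16 ≤ th * K → 0 ≤ ε → ∀ {B h₀ L Lm : ℕ} {G : Gd}, GW μ s R B C₀ h₀ K L G → n₁ ≤ h₀ → n₁' ≤ h₀ →
    ∀ {y : ℕ → ℝ}, (∀ l, y l = U * (K : ℝ) ^ (χ * (l : ℝ))) → ∀ {i : ℕ}, 2 ≤ i → i ≤ L → ∀ {c₁ : ℕ × ℤ}, Tg h₀ K i ≤ (G.z i c₁).1 →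
    ∀ {c0 e n : ℕ}, c0 = cF th R₁ (G.z i c₁).1 (Tg h₀ K i) → e = (G.z i c₁).1 + 5 * Tg h₀ K i / 8 → n = e - c0 →
    ∀ {xc : ℝ}, xc = (xm G i c₁ : ℝ) - sl μ s * (((G.z i c₁).1 : ℝ) - c0) →
    ∀ (Tt nB TB : ℕ) (a aB zB z' : ℤ), n ≤ Tt → 1 ≤ nB → nB ≤ n → n₁' ≤ TB → nB ≤ TB →
    ∀ EB : Set Env, MeasurableSet EB → On20 (rows (c0 : ℤ) (e : ℤ)) EB → ∀ εB : ℝ, (law μ).real EBᶜ ≤ εB →
    ∃ E2 : Set Env, MeasurableSet E2 ∧ On20 (rows (c0 : ℤ) (e : ℤ)) E2 ∧ 1 - (e₁ + ε + εB) ≤ (law μ).real E2 ∧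
      ∀ ζ ∈ E2, ζ ∈ FF10 μ s c θ Kw P G L Lm (Tg h₀ K) y i c₁ (rA10 th R₁ (Tg h₀ K) i) (rE10 (Tg h₀ K) i) qx EB ∧
        (ζ ∈ FC35 μ s c θ' K' P' qi u' c0 n Tt nB TB a aB zB z' ∧ InQ10 μ s e' d gg R xc G i c₁ (Tg h₀ K i) c0 n ζ) := by
  obtain ⟨d, hd, hd1, R, hR, H⟩ := inC10 h he he'
  refine ⟨d, hd, hd1, R, hR, fun gg hg hgd => ?_⟩
  obtain ⟨th, hth, hth4, H1⟩ := H gg hg hgd
  refine ⟨th, hth, hth4, fun K' θ' u' hK' hθ' hθ1 hu' => ?_⟩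
  obtain ⟨P', q', hq', H2⟩ := H1 K' θ' u' hK' hθ' hθ1 hu'
  refine ⟨P', q', hq', fun R₁ hR₁ => ?_⟩
  obtain ⟨m₁, hm₁, H2⟩ := H2 R₁ hR₁
  obtain ⟨m₂, hm₂, H3⟩ := rA10_up hth hth4 hR₁
  refine ⟨max m₁ m₂, hm₁.trans (le_max_left _ _), ?_⟩
  intro qi hqi θ Kw P χ C₀ K ε n₁ U qx hFin hK8 hKth hε B h₀ L Lm G g hn₁ hn₁' y hy i hi hL c₁ hTz c0 e n hc0 he0 hn xc hxc Tt nB TB a aB zB
    z' hnTt hnB1 hnBn hTB hnBT EB mEB oEB εB hεB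
  have hT : ∀ v, 1 ≤ v → h₀ ≤ Tg h₀ K v := fun v hv => by
    rw [Tg_pos hv, mul_comm 2 h₀, mul_assoc]
    exact Nat.le_mul_of_pos_right _ (Nat.mul_pos two_pos (Nat.pow_pos (by omega)))
  have hTi := hT i (by omega)
  obtain ⟨u1, u2⟩ := H3 (Tg h₀ K) i (((le_max_right _ _).trans hn₁').trans hTi)
  have u3 := u2 0 (Tg h₀ K (i - 1)) (by
    push_cast
    positivity) (g.Tpred' (show 1 ≤ i by omega) hKth)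
  rw [Nat.cast_zero, zero_mul, add_zero] at u3
  have cA := rA10_cF (th := th) (R₁ := R₁) (T := Tg h₀ K) (j := i) hTz
  rw [← hc0] at cA
  have cE := rE10_eq (T := Tg h₀ K) (j := i) (z := (G.z i c₁).1)
  rw [← he0] at cE
  have lowA := rA10_low th R₁ (Tg h₀ K) i
  have nnE := rE10_nn (Tg h₀ K) i
  have leE := rE10_le (Tg h₀ K) i
  have hce : c0 + n = e := by omega
  obtain ⟨F, hF⟩ : ∃ F : Set Env, F = FF10 μ s c θ Kw P G L Lm (Tg h₀ K) y i c₁ (rA10 th R₁ (Tg h₀ K) i) (rE10 (Tg h₀ K) i) qx EB := ⟨_, rfl⟩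
  have hTp : 4 * Tg h₀ K (i - 1) ≤ Tg h₀ K i :=
    (Nat.mul_le_mul_right _ (show 4 ≤ K by omega)).trans (g.Tpred (show 1 ≤ i by omega))
  have mF : MeasurableSet F := by
    rw [hF]
    exact FF10_meas mEB
  have oF : On20 (rows (c0 : ℤ) (e : ℤ)) F := by
    rw [hF]
    exact g.FF10_on hi hL (by omega) (by omega) (by omega) (by omega) cA.symm cE.symm oEB
  have pF : law μ Fᶜ ≤ ENNReal.ofReal ε + law μ EBᶜ := by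
    rw [hF]
    exact hFin g hn₁ hi hL hy c₁ _ _ (by omega) (by omega) EB
  obtain ⟨E2, mE, oE, sE, pE, -, hE⟩ := H2 qi hqi g (show 1 ≤ i by omega) hL (((le_max_left _ _).trans hn₁').trans hTi) hTz hc0
    (show n = (G.z i c₁).1 + 5 * Tg h₀ K i / 8 - c0 by omega) hxc Tt nB TB a aB zB z' hnTt hnB1 hnBn ((le_max_left _ _).trans hTB) hnBT F mF
    (by rwa [hce])
  rw [hce] at oE
  refine ⟨E2, mE, oE, ?_, fun ζ hζ => ⟨?_, (sE hζ).1, hE ζ hζ⟩⟩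
  · have e2 : law μ EBᶜ ≤ ENNReal.ofReal εB := by
      rw [← ofReal_measureReal (measure_ne_top _ _)]
      exact ENNReal.ofReal_le_ofReal hεB
    have hεB0 : 0 ≤ εB := measureReal_nonneg.trans hεB
    have e3 : law μ E2ᶜ ≤ ENNReal.ofReal (e₁ + ε + εB) := by
      rw [ENNReal.ofReal_add (by positivity) hεB0, ENNReal.ofReal_add he.le hε, add_assoc]
      refine pE.trans (add_le_add_right (pF.trans (add_le_add_right e2 _)) _)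
    have e4 : (law μ).real E2ᶜ ≤ e₁ + ε + εB := by
      unfold Measure.real
      exact ENNReal.toReal_le_of_le_ofReal (by positivity) e3
    have e5 := probReal_compl_eq_one_sub (μ := law μ) mE
    linarith
  · rw [← hF]
    exact (sE hζ).2

end

end Pool.Agent.W_7d29a1_C1.T10
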