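import Pool.Agent.W_7d29a1_C1.FrX24
import Pool.Agent.W_7d29a1_C1.InsF10
import Pool.Agent.W_7d29a1_C1.Hsw74

/-!
MP_7d29a1_pr, [C1] SHELL, THE FRESH BALL, (W): **THE WINDOWS OF ONE PLACE** (helper11), pure geometry of integer columns. Rows `c₀`, `c₀ + n'`,
`c₀ + n' + n`; the two lines at `∓ (3/4) d w` from the line of `κ`; `u`, `t` columns next to them, `β i` within `(d/8) w` of `t i`. `frC11` : `hlt`,
`hβρ`, `huβ`, `huD`, `hxv` of `frW0` and the two cells of `InQ10` (`gg = d / 2`). `ins11` : `hin` of `frW0` from `InQ10`.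
-/

set_option autoImplicit false

namespace Pool.Agent.W_7d29a1_C1.U11

open MeasureTheory Filter Topology Finset
open Pool.Agent.W_7d29a1_F Pool.Agent.W_7d29a1_h4g Pool.Agent.W_7d29a1_H Pool.Agent.W_7d29a1_HS
open Pool.Agent.W_7d29a1_C1
open Pool.Agent.W_7d29a1_C1.K91 (wt wt_pos)
open Pool.Agent.W_7d29a1_C1.T10 (Gd)
open Pool.Agent.W_7d29a1_C1.U16 (ker)
open Pool.Agent.W_7d29a1_C1.Bx47 (mq)
open Pool.Agent.W_7d29a1_C1.H60 (Cx)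
open Pool.Agent.W_7d29a1_C1.T10 (InQ10 QF xm)
open Pool.Agent.W_7d29a1_C1.JnC35 (ln35)
open Pool.Agent.W_7d29a1_C1.P24 (ln35_add xv24)

noncomputable section

/-- The distance of the two lines of the cells from the line, in units `w`. -/
def ml11 (d : ℝ) (i : Bool) : ℝ := if i then 3 / 4 * d else -(3 / 4 * d)

theorem ml_true (d : ℝ) : ml11 d true = 3 / 4 * d := rfl

theorem ml_false (d : ℝ) : ml11 d false = -(3 / 4 * d) := rfl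

/-- One cell. -/
theorem cel11 {L w d : ℝ} {t y : ℤ} {i : Bool} (hdw : 16 ≤ d * w) (ht : |(t : ℝ) - (L + ml11 d i * w)| ≤ 1)
    (hy : |(y : ℝ) - t| ≤ d / 8 * w) : |(y : ℝ) - L| ≤ d * w ∧ |(y : ℝ) - (L + ml11 d i * w)| ≤ d / 4 * w := by
  obtain ⟨a1, a2⟩ := abs_le.1 ht
  obtain ⟨b1, b2⟩ := abs_le.1 hy
  rw [abs_le, abs_le]
  cases i
  · rw [ml_false] at *
    refine ⟨⟨?_, ?_⟩, ?_, ?_⟩ <;> linarith
  · rw [ml_true] at *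
    refine ⟨⟨?_, ?_⟩, ?_, ?_⟩ <;> linarith

theorem cel_false {L w d : ℝ} {y : ℤ} (hy : |(y : ℝ) - (L + ml11 d false * w)| ≤ d / 4 * w) :
    L - d * w ≤ y ∧ (y : ℝ) ≤ L - d / 2 * w := by
  obtain ⟨b1, b2⟩ := abs_le.1 hy
  rw [ml_false] at b1 b2
  constructor <;> linarith

theorem cel_true {L w d : ℝ} {y : ℤ} (hy : |(y : ℝ) - (L + ml11 d true * w)| ≤ d / 4 * w) :
    L + d / 2 * w ≤ y ∧ (y : ℝ) ≤ L + d * w := by
  obtain ⟨b1, b2⟩ := abs_le.1 hy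
  rw [ml_true] at b1 b2
  constructor <;> linarith

variable {μ : Measure ℝ} {s c C : ℝ} {n₀ : ℕ}

/-- **THE WINDOWS OF ONE PLACE.** -/
theorem frC11 [IsProbabilityMeasure μ] (h : In μ s c C n₀) {d : ℝ} (hd : 0 < d) : ∃ n₂ : ℕ, ∀ T : ℕ, n₂ ≤ T → ∀ (κ : Pt) (c₀ n' n : ℕ)
    (u t : Bool → ℤ) (β : Bool → Finset ℤ), T ≤ 2 * n' → T ≤ 2 * n →
    (∀ i, |(u i : ℝ) - (ln35 μ s κ c₀ + ml11 d i * wd μ s T)| ≤ 1) →
    (∀ i, |(t i : ℝ) - (ln35 μ s κ (c₀ + n') + ml11 d i * wd μ s T)| ≤ 1) →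
    (∀ i, ∀ y ∈ β i, |(y : ℝ) - t i| ≤ d / 8 * wd μ s T) →
    (∀ x ∈ β false, ∀ x' ∈ β true, x < x') ∧
    (∀ x ∈ β false ∪ β true, |(x : ℝ) - ln35 μ s κ (c₀ + n')| ≤ d * wd μ s T) ∧
    (∀ x ∈ β false, ln35 μ s κ (c₀ + n') - d * wd μ s T ≤ x ∧ (x : ℝ) ≤ ln35 μ s κ (c₀ + n') - d / 2 * wd μ s T) ∧
    (∀ x ∈ β true, ln35 μ s κ (c₀ + n') + d / 2 * wd μ s T ≤ x ∧ (x : ℝ) ≤ ln35 μ s κ (c₀ + n') + d * wd μ s T) ∧
    (∀ i, |(u i : ℝ) - ln35 μ s κ c₀| ≤ d * wd μ s T) ∧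
    (∀ i, ∀ y ∈ β i, u i ≤ y ∧ y ≤ u i + n') ∧
    (∀ i, ∀ y ∈ β i, |((y : ℝ) - ln35 μ s κ (c₀ + n')) - ((u i : ℝ) - ln35 μ s κ c₀)| ≤ d / 4 * wd μ s T) ∧
    (∀ x ∈ β false ∪ β true, ∀ v : ℤ, |(v : ℝ) - ln35 μ s κ (c₀ + n' + n)| ≤ d * wd μ s T → x ≤ v ∧ v ≤ x + n) := by
  obtain ⟨n₂, H⟩ := xv24 (μ := μ) (s := s) h d d
  obtain ⟨n₃, H3⟩ := eventually_atTop.1 ((wd_tendsto h).eventually_ge_atTop (16 / d))
  refine ⟨max n₂ n₃, fun T hT κ c₀ n' n u t β hn' hn hu ht hβ => ?_⟩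
  have hw := H3 T ((le_max_right _ _).trans hT)
  have hdw : 16 ≤ d * wd μ s T := by
    have h1 := mul_le_mul_of_nonneg_left hw hd.le
    have h2 : d * (16 / d) = 16 := by field_simp
    linarith
  have hT2 : n₂ ≤ T := (le_max_left _ _).trans hT
  have key : ∀ i, ∀ y ∈ β i, |(y : ℝ) - ln35 μ s κ (c₀ + n')| ≤ d * wd μ s T ∧
      |(y : ℝ) - (ln35 μ s κ (c₀ + n') + ml11 d i * wd μ s T)| ≤ d / 4 * wd μ s T := fun i y hy => cel11 hdw (ht i) (hβ i y hy)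
  have keyu : ∀ i, |(u i : ℝ) - ln35 μ s κ c₀| ≤ d * wd μ s T := fun i => (cel11 hdw (hu i) (by
    rw [sub_self, abs_zero]
    linarith)).1
  have un : ∀ x ∈ β false ∪ β true, |(x : ℝ) - ln35 μ s κ (c₀ + n')| ≤ d * wd μ s T := fun x hx => by
    rcases mem_union.1 hx with h1 | h1
    · exact (key _ x h1).1
    · exact (key _ x h1).1
  refine ⟨fun x hx x' hx' => ?_, un, fun x hx => cel_false (key _ x hx).2, fun x hx => cel_true (key _ x hx).2, keyu,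
    fun i y hy => H T hT2 n' hn' κ c₀ (u i) y (keyu i) (key i y hy).1, fun i y hy => ?_,
    fun x hx v hv => H T hT2 n hn κ (c₀ + n') x v (un x hx) hv⟩
  · have h1 := (cel_false (key _ x hx).2).2
    have h2 := (cel_true (key _ x' hx').2).1
    have h3 : (x : ℝ) < x' := by linarith
    exact_mod_cast h3
  · have e : ((y : ℝ) - ln35 μ s κ (c₀ + n')) - ((u i : ℝ) - ln35 μ s κ c₀) = ((y : ℝ) - t i) +
        ((t i : ℝ) - (ln35 μ s κ (c₀ + n') + ml11 d i * wd μ s T)) - ((u i : ℝ) - (ln35 μ s κ c₀ + ml11 d i * wd μ s T)) := by ring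
    rw [e]
    have h1 := abs_sub (((y : ℝ) - t i) + ((t i : ℝ) - (ln35 μ s κ (c₀ + n') + ml11 d i * wd μ s T)))
      ((u i : ℝ) - (ln35 μ s κ c₀ + ml11 d i * wd μ s T))
    have h2 := abs_add_le ((y : ℝ) - t i) ((t i : ℝ) - (ln35 μ s κ (c₀ + n') + ml11 d i * wd μ s T))
    have h3 := hβ i y hy
    have h4 := ht i
    have h5 := hu i
    linarith

/-- **`hin` of `frW0`** from `InQ10`, cells `[L - d w, L - gg w]`, `[L + gg w, L + d w]`, `L` = the column of the line in the row `c₀`. -/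
theorem ins11 {e' d gg R : ℝ} {G : Gd} {i : ℕ} {q₀ : ℕ × ℤ} {T c₀ n : ℕ} {η : Env} {Γ : Cx} {S : Finset (ℕ × ℤ)} {κ : Pt}
    (hκ : κ = ((((G.z i q₀).1 : ℕ) : ℤ), xm G i q₀)) (hs : Γ.s = s) (he0 : 0 ≤ e') (he1 : e' ≤ 1) {e1 : ℝ} (hn : 4 * (|Γ.h| * n) ≤ e1)
    {xc : ℝ} (hxc : xc = (xm G i q₀ : ℝ) - sl μ s * (((G.z i q₀).1 : ℝ) - c₀))
    (hI : InQ10 μ s e' d gg R xc G i q₀ T c₀ n η) (hS : ∀ b, G.z i b = G.z i q₀ → b ∈ S)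
    (hwin : ∀ (k : ℕ) (q : ℤ), (G.z i q₀).1 ≤ k → k < (G.z i q₀).1 + G.H i →
      |(q : ℝ) - xm G i q₀ - sl μ s * ((k : ℝ) - (G.z i q₀).1)| ≤ (R + 1) * wd μ s T → 0 ≤ q ∧ q ≤ Γ.hi) :
    ∀ x x' y y' : ℤ, ln35 μ s κ c₀ - d * wd μ s T ≤ x → (x : ℝ) ≤ ln35 μ s κ c₀ - gg * wd μ s T →
      ln35 μ s κ c₀ + gg * wd μ s T ≤ x' → (x' : ℝ) ≤ ln35 μ s κ c₀ + d * wd μ s T →
      |(y : ℝ) - ln35 μ s κ (c₀ + n)| ≤ d * wd μ s T → |(y' : ℝ) - ln35 μ s κ (c₀ + n)| ≤ d * wd μ s T →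
      (1 - (e' + e1)) * (ker (wt η) Γ.p c₀ n x y * ker (wt η) Γ.p c₀ n x' y') ≤ mq (wt η) Γ.p (QF G i q₀ S 0 Γ.hi) c₀ n x x' y y' := by
  intro x x' y y' h1 h2 h3 h4 h5 h6
  have eL : ln35 μ s κ c₀ = xc := by
    rw [hxc, hκ]
    unfold ln35
    push_cast
    ring
  rw [ln35_add, eL] at h5 h6
  rw [eL] at h1 h2 h3 h4
  refine Pool.Agent.W_7d29a1_C1.Hs74.hin_cx74 (fun k y => wt_pos η k y) Γ he1 he0 hn ?_
  refine hI 0 (fun _ => Real.exp Γ.s) (fun k => Real.exp_pos _) (fun k _ _ => by rw [hs, add_zero]) S 0 Γ.hi hS hwin x x' y y' h1 h2 h3 h4 h5 h6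

end

end Pool.Agent.W_7d29a1_C1.U11
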