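import Pool.Agent.W_7d29a1_C1.BoxM35
import Pool.Agent.W_7d29a1_C1.LevF16
import Pool.Agent.W_7d29a1_C1.RowX83
import Pool.Agent.W_7d29a1_C1.SlabS20

/-!
MP_7d29a1_pr, [C1], SHELL, FRESH BALL: **THE TYPICAL INSIDE** (helper35). Rows `(i, i + n]` (`i = c0'` = end of the lanes, `i + n = e`).
`FC35` = the levels `Far16` of the inside (scale `Tt`) and of the last rows of the buffer (`nB` rows, scale `TB`), the single weights of
the rows `i + nB` and `i + n`. `freC35` : together with the good event of `box_m` and any further event `F` of these rows the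
probability is at least `1 - e - P(not F)`, whatever the outside is; output: `FC35` and (InG) in the letters of `d3E_Cx` / `d3J_Cx`.
The kernels come from `FreK35`.
-/

set_option autoImplicit false

namespace Pool.Agent.W_7d29a1_C1.FreC35

open Finset MeasureTheory Filter Topology
open Pool.Agent.W_7d29a1_F Pool.Agent.W_7d29a1_h4g Pool.Agent.W_7d29a1_H Pool.Agent.W_7d29a1_HS
open Pool.Agent.W_7d29a1_C1 Pool.Agent.W_7d29a1_C1.H75 Pool.Agent.W_7d29a1_C1.U16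
open Pool.Agent.W_7d29a1_C1.K91 (wt wt_pos)
open Pool.Agent.W_7d29a1_C1.Bx47 (mq)
open Pool.Agent.W_7d29a1_C1.S71 (gl gl_of_mem)
open Pool.Agent.W_7d29a1_C1.S83 (RowG meas_RowG rowL83)

noncomputable section

variable {μ : Measure ℝ} {s : ℝ} {c C : ℝ} {n₀ : ℕ}

/-- **The levels and the single weights of the inside**: rows `(i, i + n]`, columns of the bases `a`, `aB`, centres `zB`, `z`. -/
def FC35 (μ : Measure ℝ) (s c θ K : ℝ) (P : ℕ) (q u : ℝ) (i n Tt nB TB : ℕ) (a aB zB z : ℤ) : Set Env :=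
  (Far16 μ s c θ K Tt n P ((i : ℤ), a) q ∩ Far16 μ s c θ K TB nB P ((i : ℤ), aB) q) ∩
    (RowG ((i + nB : ℕ) : ℤ) zB (wd μ s Tt) (u * EE μ s Tt) ∩ RowG ((i + n : ℕ) : ℤ) z (wd μ s Tt) (u * EE μ s Tt))

theorem meas_FC35 (θ K : ℝ) (P : ℕ) (q u : ℝ) (i n Tt nB TB : ℕ) (a aB zB z : ℤ) :
    MeasurableSet (FC35 μ s c θ K P q u i n Tt nB TB a aB zB z) :=
  ((Far16_meas _ _ _ _ _ _ _).inter (Far16_meas _ _ _ _ _ _ _)).inter ((meas_RowG _ _ _ _).inter (meas_RowG _ _ _ _))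

theorem on_row {r z : ℤ} {R t : ℝ} {A : Set Pt} (h : ∀ x : ℤ, (r, x) ∈ A) : On20 A (RowG r z R t) := by
  intro η η' he
  have h1 : ∀ x : ℤ, η (r, x) = η' (r, x) := fun x => he _ (h x)
  constructor
  · intro h2 x
    rw [← h1 x]
    exact h2 x
  · intro h2 x
    rw [h1 x]
    exact h2 x

theorem on_far [IsProbabilityMeasure μ] {θ K q : ℝ} {n N P : ℕ} {b : Pt} {A : Set Pt} (h : rows b.1 (b.1 + N) ⊆ A) : On20 A (Far16 μ s c θ K n N P b q) :=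
  fun _ _ he => Far16_rows fun p hp => he p (h hp)

theorem on_FC35 [IsProbabilityMeasure μ] {θ K : ℝ} {P : ℕ} {q u : ℝ} {i n Tt nB TB : ℕ} {a aB zB z : ℤ} (h1 : 1 ≤ nB) (h2 : nB ≤ n) :
    On20 (rows (i : ℤ) ((i + n : ℕ) : ℤ)) (FC35 μ s c θ K P q u i n Tt nB TB a aB zB z) := by
  refine ((on_far fun p hp => ?_).inter (on_far fun p hp => ?_)).inter ((on_row fun x => ?_).inter (on_row fun x => ?_))
  · have e1 : (i : ℤ) < p.1 := hp.1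
    have e2 : p.1 ≤ (i : ℤ) + n := hp.2
    exact ⟨e1, by push_cast; exact e2⟩
  · have e1 : (i : ℤ) < p.1 := hp.1
    have e2 : p.1 ≤ (i : ℤ) + nB := hp.2
    exact ⟨e1, by push_cast; omega⟩
  · show (i : ℤ) < ((i + nB : ℕ) : ℤ) ∧ ((i + nB : ℕ) : ℤ) ≤ ((i + n : ℕ) : ℤ)
    omega
  · show (i : ℤ) < ((i + n : ℕ) : ℤ) ∧ ((i + n : ℕ) : ℤ) ≤ ((i + n : ℕ) : ℤ)
    omega

/-- Every outside. -/
theorem on_gl {A B : Set Pt} {E : Set Env} (hE : On20 A E) (hA : A ⊆ B) (ω : Env) : {η | gl B η ω ∈ E} = E := by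
  ext η
  exact hE _ _ fun p hp => gl_of_mem (hA hp) η ω

variable [IsProbabilityMeasure μ]

/-- **The levels are typical.** -/
theorem prob_FC35 (h : In μ s c C n₀) {K θ u e : ℝ} (hK : 0 < K) (hθ : 0 < θ) (hθ1 : θ ≤ 1) (hu : 0 < u) (he : 0 < e) :
    ∃ P : ℕ, ∃ q₀ : ℝ, 0 ≤ q₀ ∧ ∃ n₁ : ℕ, 1 ≤ n₁ ∧ ∀ q : ℝ, q₀ ≤ q → ∀ i n Tt nB TB : ℕ, n₁ ≤ Tt → n₁ ≤ TB → n ≤ Tt → nB ≤ TB →
    ∀ a aB zB z : ℤ, law μ (FC35 μ s c θ K P q u i n Tt nB TB a aB zB z)ᶜ ≤ ENNReal.ofReal e := by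
  obtain ⟨P, A, a₁, g, hA, ha, hg, hg1, n₁, hn₁, H⟩ := far_prob h hK hθ hθ1
  obtain ⟨n₂, hn₂, H2⟩ := rowL83 h hu hu 1
  obtain ⟨n₃, H3⟩ := eventually_atTop.1 (h.tE.eventually_ge_atTop (4 / e))
  -- the level
  have ht : Tendsto (fun q : ℝ => A * Real.exp (-(a₁ * q ^ g))) atTop (𝓝 0) := by
    have h1 : Tendsto (fun q : ℝ => a₁ * q ^ g) atTop atTop := (tendsto_rpow_atTop hg).const_mul_atTop ha
    have h2 := (Real.tendsto_exp_neg_atTop_nhds_zero.comp h1).const_mul A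
    simpa using h2
  obtain ⟨q₁, hq₁⟩ := eventually_atTop.1 (ht.eventually_le_const (show (0 : ℝ) < e / 4 by positivity))
  refine ⟨P, max q₁ 0, le_max_right _ _, max n₁ (max n₂ n₃), hn₁.trans (le_max_left _ _), ?_⟩
  intro q hq i n Tt nB TB hTt hTB hn hnB a aB zB z
  have hq0 : 0 ≤ q := (le_max_right _ _).trans hq
  have l1 : A * Real.exp (-(a₁ * q ^ g)) ≤ e / 4 := hq₁ q ((le_max_left _ _).trans hq)
  have p1 := (H Tt ((le_max_left _ _).trans hTt) n hn ((i : ℤ), a) q hq0).trans l1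
  have p2 := (H TB ((le_max_left _ _).trans hTB) nB hnB ((i : ℤ), aB) q hq0).trans l1
  have hE := H3 Tt (((le_max_right _ _).trans (le_max_right _ _)).trans hTt)
  have l2 : Real.exp (-(1 * EE μ s Tt)) ≤ e / 4 := by
    have h1 := Real.add_one_le_exp (EE μ s Tt)
    have hE0 := EE_pos (μ := μ) (s := s) Tt
    rw [one_mul, Real.exp_neg, inv_le_comm₀ (Real.exp_pos _) (by positivity)]
    have h2 : (e / 4)⁻¹ = 4 / e := by rw [inv_div]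
    rw [h2]
    linarith
  have row : ∀ r z : ℤ, (law μ).real (RowG r z (wd μ s Tt) (u * EE μ s Tt))ᶜ ≤ e / 4 := by
    intro r z
    obtain ⟨G, _, hG, hP, _⟩ := H2 Tt (((le_max_left _ _).trans (le_max_right _ _)).trans hTt) r z
    rw [min_self] at hG
    rw [← hG]
    exact hP.trans l2
  unfold FC35
  have key : (law μ).real ((Far16 μ s c θ K Tt n P ((i : ℤ), a) q ∩ Far16 μ s c θ K TB nB P ((i : ℤ), aB) q) ∩
    (RowG ((i + nB : ℕ) : ℤ) zB (wd μ s Tt) (u * EE μ s Tt) ∩ RowG ((i + n : ℕ) : ℤ) z (wd μ s Tt) (u * EE μ s Tt)))ᶜ ≤ e := by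
    rw [Set.compl_inter, Set.compl_inter, Set.compl_inter]
    refine (measureReal_union_le _ _).trans ?_
    have k1 := measureReal_union_le (μ := law μ) (Far16 μ s c θ K Tt n P ((i : ℤ), a) q)ᶜ (Far16 μ s c θ K TB nB P ((i : ℤ), aB) q)ᶜ
    have k2 := measureReal_union_le (μ := law μ) (RowG ((i + nB : ℕ) : ℤ) zB (wd μ s Tt) (u * EE μ s Tt))ᶜ
      (RowG ((i + n : ℕ) : ℤ) z (wd μ s Tt) (u * EE μ s Tt))ᶜ
    have k3 := row ((i + nB : ℕ) : ℤ) zB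
    have k4 := row ((i + n : ℕ) : ℤ) z
    linarith
  rw [← ofReal_measureReal (measure_ne_top _ _)]
  exact ENNReal.ofReal_le_ofReal key

/-- **THE TYPICAL INSIDE OF THE FRESH BALL.** `Kx` = skew of the box (the end line against the start line, in widths), `B` = length of
the rows behind the box, cells `[g, d] wd T` at the start, `d wd T` at the end. The event `E` is contained in the levels `FC35` and in the
given `F`; (InG) for every constant force. -/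
theorem freC35 (h : In μ s c C n₀) {Kx B e e' : ℝ} (hKx : 0 ≤ Kx) (hB : 1 ≤ B) (he : 0 < e) (he' : 0 < e') :
    ∃ d : ℝ, 0 < d ∧ d ≤ 1 ∧ ∃ R : ℝ, 1 ≤ R ∧ ∀ g : ℝ, 0 < g → g < d → ∃ th : ℝ, 0 < th ∧ th ≤ 1 ∧
    ∀ K θ u : ℝ, 0 < K → 0 < θ → θ ≤ 1 → 0 < u → ∃ P : ℕ, ∃ q₀ : ℝ, 0 ≤ q₀ ∧ ∃ n₁ : ℕ, 1 ≤ n₁ ∧ ∀ q : ℝ, q₀ ≤ q →
    ∀ i n T n0 Tt nB TB : ℕ, n₁ ≤ T → n0 ≤ T → T < n → (n : ℝ) ≤ B * T → (n0 : ℝ) ≤ th * T →
    n ≤ Tt → 1 ≤ nB → nB ≤ n → n₁ ≤ TB → nB ≤ TB →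
    ∀ (xc yc : ℝ) (a aB zB z : ℤ), |yc - xc - sl μ s * n| ≤ Kx * wd μ s T →
    ∀ F : Set Env, MeasurableSet F → On20 (rows (i : ℤ) ((i + n : ℕ) : ℤ)) F →
    ∃ E : Set Env, MeasurableSet E ∧ On20 (rows (i : ℤ) ((i + n : ℕ) : ℤ)) E ∧
      E ⊆ FC35 μ s c θ K P q u i n Tt nB TB a aB zB z ∩ F ∧ law μ Eᶜ ≤ ENNReal.ofReal e + law μ Fᶜ ∧
      (∀ (A : Set Pt) (ω : Env), rows (i : ℤ) ((i + n : ℕ) : ℤ) ⊆ A → {η | gl A η ω ∈ E} = E) ∧
      ∀ η ∈ E, ∀ (h' : ℝ) (p : ℕ → ℝ), (∀ k, 0 < p k) → (∀ k, i ≤ k → k < i + n → p k = Real.exp (s + h')) →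
      ∀ Q : Finset (ℕ × ℤ), (∀ (k : ℕ) (q : ℤ), i + n0 ≤ k → k < i + T →
        |(q : ℝ) - xc - sl μ s * ((k : ℝ) - i)| ≤ R * wd μ s T → (k, q) ∈ Q) →
      ∀ x x' y y' : ℤ, xc - d * wd μ s T ≤ x → (x : ℝ) ≤ xc - g * wd μ s T → xc + g * wd μ s T ≤ x' → (x' : ℝ) ≤ xc + d * wd μ s T →
      |(y : ℝ) - yc| ≤ d * wd μ s T → |(y' : ℝ) - yc| ≤ d * wd μ s T →
      (1 - e') * (ker (wt η) p i n x y * ker (wt η) p i n x' y') ≤ mq (wt η) p Q i n x x' y y' := by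
  obtain ⟨d, hd, hd1, R, hR, H⟩ := KM35.box_m h hKx hB (show 0 < e / 2 by positivity) he'
  refine ⟨d, hd, hd1, R, hR, fun g hg hgd => ?_⟩
  obtain ⟨th, hth, hth1, m₁, H1⟩ := H g hg hgd
  refine ⟨th, hth, hth1, fun K θ u hK hθ hθ1 hu => ?_⟩
  obtain ⟨P, q₀, hq₀, m₂, hm₂, H2⟩ := prob_FC35 h hK hθ hθ1 hu (show 0 < e / 2 by positivity)
  refine ⟨P, q₀, hq₀, max m₁ m₂, hm₂.trans (le_max_right _ _), ?_⟩
  intro q hq i n T n0 Tt nB TB hT hn0 hTn hnB' hn0θ hnT hnB1 hnBn hTB hnBT xc yc a aB zB z hyc F mF oF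
  obtain ⟨G, mG, pG, oG, hG⟩ := H1 i n T n0 ((le_max_left _ _).trans hT) hn0 hTn hnB' hn0θ xc yc hyc
  have hTt : m₂ ≤ Tt := ((le_max_right _ _).trans hT).trans (hTn.le.trans hnT)
  have pF := H2 q hq i n Tt nB TB hTt ((le_max_right _ _).trans hTB) hnT hnBT a aB zB z
  have onG : On20 (rows (i : ℤ) ((i + n : ℕ) : ℤ)) G := by
    intro η η' hh
    refine ⟨oG η η' fun q h1 h2 => hh q ⟨h1, by push_cast; exact h2.le⟩, oG η' η fun q h1 h2 => (hh q ⟨h1, by push_cast; exact h2.le⟩).symm⟩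
  have onE : On20 (rows (i : ℤ) ((i + n : ℕ) : ℤ)) (G ∩ (FC35 μ s c θ K P q u i n Tt nB TB a aB zB z ∩ F)) :=
    onG.inter ((on_FC35 hnB1 hnBn).inter oF)
  refine ⟨G ∩ (FC35 μ s c θ K P q u i n Tt nB TB a aB zB z ∩ F), mG.inter ((meas_FC35 _ _ _ _ _ _ _ _ _ _ _ _ _ _).inter mF), onE,
    Set.inter_subset_right, ?_, fun A ω hA => on_gl onE hA ω, fun η hη => hG η hη.1⟩
  rw [Set.compl_inter, Set.compl_inter]
  refine (measure_union_le _ _).trans ?_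
  have h1 : ENNReal.ofReal e = ENNReal.ofReal (e / 2) + ENNReal.ofReal (e / 2) := by
    rw [← ENNReal.ofReal_add (by positivity) (by positivity)]
    congr 1
    ring
  rw [h1, add_assoc]
  exact add_le_add pG ((measure_union_le _ _).trans (add_le_add_left pF _))

end

end Pool.Agent.W_7d29a1_C1.FreC35
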