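import Pool.Agent.W_7d29a1_C1.JnH35
import Pool.Agent.W_7d29a1_C1.FreC35
import Pool.Agent.W_7d29a1_C1.FreA20

/-!
MP_7d29a1_pr, [C1], SHELL, FRESH BALL, (W): **THE INSIDE IN THE LETTERS OF `w35b`** (helper35). Input: `ζ ∈ FC35 .. c0' n T ..` (event of
`inC10`, `Tt := T`), the single weights of the row `c0'` in the unit of the lanes `(EE TF, wd TF)`, `T ≤ B TF`, `|Γ.h| T ≤ 1`. Output: `comp`,
`lo1`, `up1` (and `En31`) in the unit `(EE T, wd T)`, lines `ln35 κ`.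

ORDER OF THE CONSTANTS: `PI`, `θI`, `KI` (of `inC10`, `2 ρ + 6 ≤ KI`) | `P₀` | `q` (level of `inC10`), `u` (level of the row `c0'`), `ρ` (windows
of the cells), `B`, `D` | `q₁`, `CL` | `c₁`, `c₂`, `c₃`, `c₃'`, `σ` | `n₁`. `CL` sees nothing of the walls, of the far part and of the future.
-/

set_option autoImplicit false

namespace Pool.Agent.W_7d29a1_C1.JnE35

open MeasureTheory ProbabilityTheory Filter Topology Finset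
open Pool.Agent.W_7d29a1_F Pool.Agent.W_7d29a1_h4g Pool.Agent.W_7d29a1_H Pool.Agent.W_7d29a1_HS
open Pool.Agent.W_7d29a1_C1 Pool.Agent.W_7d29a1_C1.H75 Pool.Agent.W_7d29a1_C1.U16
open Pool.Agent.W_7d29a1_C1.S83 (RowG)
open Pool.Agent.W_7d29a1_C1.D31 (En31 kap31)
open Pool.Agent.W_7d29a1_C1.H60
open Pool.Agent.W_7d29a1_C1.Fr47 (K147)
open Pool.Agent.W_7d29a1_C1.JnC35 (ln35 lat_ln jnC35)
open Pool.Agent.W_7d29a1_C1.FreC35 (FC35)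

noncomputable section

/-- **Another unit, another centre of `RowG`**: `R' ≤ B R`, centres within `D R'`. -/
theorem rowG35 {r z z' : ℤ} {R R' t t' B D : ℝ} (hR : 0 < R) (hR' : 0 < R') (hB : R' ≤ B * R) (hB1 : 1 ≤ B) (hD : 0 ≤ D)
    (hz : |(z' : ℝ) - z| ≤ D * R') (ht : 0 ≤ t) (htt : t * (1 + Real.log (B * (1 + D))) ≤ t') : RowG r z R t ⊆ RowG r z' R' t' := by
  intro η hη x
  obtain ⟨X, hX⟩ : ∃ X : ℝ, X = |((x - z' : ℤ) : ℝ)| / R' := ⟨_, rfl⟩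
  have hX0 : 0 ≤ X := by rw [hX]; positivity
  have hA1 : 1 ≤ B * (1 + D) := by nlinarith
  have h1 : |((x - z : ℤ) : ℝ)| ≤ (X + D) * R' := by
    have e : ((x - z : ℤ) : ℝ) = ((x - z' : ℤ) : ℝ) + ((z' : ℝ) - z) := by
      push_cast
      ring
    have e2 : |((x - z' : ℤ) : ℝ)| = X * R' := by
      rw [hX]
      field_simp
    rw [e]
    refine (abs_add_le _ _).trans ?_
    rw [e2]
    linarith
  have h2 : 1 + |((x - z : ℤ) : ℝ)| / R ≤ B * (1 + D) * (1 + X) := by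
    have e1 : |((x - z : ℤ) : ℝ)| / R ≤ B * (X + D) := by
      rw [div_le_iff₀ hR]
      refine h1.trans ((mul_le_mul_of_nonneg_left hB (by positivity)).trans (le_of_eq ?_))
      ring
    nlinarith [mul_nonneg (mul_nonneg (zero_le_one.trans hB1) hD) hX0]
  have h3 : Real.log (1 + |((x - z : ℤ) : ℝ)| / R) ≤ Real.log (B * (1 + D)) + Real.log (1 + X) := by
    rw [← Real.log_mul (by linarith) (by linarith)]
    exact Real.log_le_log (by positivity) h2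
  have h4 := Real.log_nonneg hA1
  have h5 := Real.log_nonneg (show (1 : ℝ) ≤ 1 + X by linarith)
  refine (hη x).trans ?_
  rw [← hX]
  calc t * (1 + Real.log (1 + |((x - z : ℤ) : ℝ)| / R)) ≤ t * ((1 + Real.log (B * (1 + D))) * (1 + Real.log (1 + X))) := by
        refine mul_le_mul_of_nonneg_left ?_ ht
        nlinarith [mul_nonneg h4 h5]
    _ = t * (1 + Real.log (B * (1 + D))) * (1 + Real.log (1 + X)) := by ring
    _ ≤ _ := mul_le_mul_of_nonneg_right htt (by linarith)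

/-- The force is small. -/
theorem force35 {μ : Measure ℝ} [IsProbabilityMeasure μ] {s c C : ℝ} {n₀ : ℕ} (h0 : In μ s c C n₀) : ∃ n₁ : ℕ, ∀ T : ℕ, n₁ ≤ T → ∀ h : ℝ,
    |h| * T ≤ 1 → |h| * wd μ s T ≤ c / 8 * EE μ s T := by
  have hc := h0.c0
  obtain ⟨m₁, H1⟩ := eventually_atTop.1 (h0.tE.eventually_ge_atTop (8 / c))
  obtain ⟨m₂, H2⟩ := eventually_atTop.1 (h0.tv.eventually_le_const (show (0 : ℝ) < 1 by norm_num))
  refine ⟨max m₁ m₂, fun T hT h hh => ?_⟩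
  have g1 := H1 T ((le_max_left _ _).trans hT)
  have g2 := H2 T ((le_max_right _ _).trans hT)
  have g3 : wd μ s T ≤ T := by
    have h2 : (0 : ℝ) ≤ T := Nat.cast_nonneg T
    unfold wd
    calc (T : ℝ) * vA 1 μ s T ≤ T * 1 := mul_le_mul_of_nonneg_left g2 h2
      _ = T := mul_one _
  have g4 : 1 ≤ c / 8 * EE μ s T := by
    have := mul_le_mul_of_nonneg_left g1 (show 0 ≤ c / 8 by positivity)
    have e : c / 8 * (8 / c) = 1 := by field_simp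
    rwa [e] at this
  exact ((mul_le_mul_of_nonneg_left g3 (abs_nonneg h)).trans hh).trans g4

variable {μ : Measure ℝ} {s c C : ℝ} {n₀ : ℕ} [IsProbabilityMeasure μ]

/-- **THE INSIDE IN THE LETTERS OF `w35b`.** `i = c0'`, `i + n = e`, `c3 = e + (m + 1)`. -/
theorem frI35 (h0 : In μ s c C n₀) (PI : ℕ) {θI KI : ℝ} (hK : 4 ≤ KI) (hθ : 0 < θI) : ∃ P₀ : ℕ, ∀ (q u ρ D : ℝ) (B : ℕ), 0 ≤ q → 0 ≤ u →
    0 ≤ ρ → 2 * ρ + 6 ≤ KI → 0 ≤ D → 1 ≤ B → ∃ q₁ CL : ℝ, 0 ≤ q₁ ∧ 0 < CL ∧ ∀ c₁ c₂ c₃ c₃' σ : ℝ, 0 < c₁ → 0 < c₂ → 0 ≤ c₃' → c₃' ≤ c₃ →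
    c₃' + c₁ + c₂ ≤ c / 8 → 0 < σ → σ ≤ 1 → ∃ n₁ : ℕ, 1 ≤ n₁ ∧
    ∀ {Γ : Cx} {η : Env} {κ : Pt} {T TF nB TB : ℕ} {a aB zB z' zr : ℤ} {uI : ℝ} {i n : ℕ}, n₁ ≤ T → Γ.s = s → |Γ.h| * T ≤ 1 →
    1 ≤ TF → TF ≤ T → T ≤ B * TF → η ∈ FC35 μ s c θI KI PI q uI i n T nB TB a aB zB z' → n ≤ T → θI * T ≤ n →
    |(a : ℝ) - ln35 μ s κ i| ≤ wd μ s T → η ∈ RowG (i : ℤ) zr (wd μ s TF) (u * EE μ s TF) →
    |(zr : ℝ) - ln35 μ s κ i| ≤ D * wd μ s T →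
    (∀ P', P₀ ≤ P' → ∀ (J : Finset ℤ) (Q₂ S₂ cz : ℝ) (m : ℕ) (x z : ℤ), 0 ≤ Q₂ →
      ∑ y ∈ J, K147 μ s Γ.h η Γ.p Γ.M i n x y * kap31 P' c₁ c₃ Q₂ S₂ (EE μ s T) (wd μ s T) (ln35 μ s κ (i + n)) cz (m + 1) y z ≤
        kap31 P' c₁ c₃' (Q₂ + q₁) (S₂ + σ) (EE μ s T) (wd μ s T) (ln35 μ s κ i) cz (n + (m + 1)) x z) ∧
    (∀ x v₀ : ℤ, |(x : ℝ) - ln35 μ s κ i| ≤ ρ * wd μ s T → |(v₀ : ℝ) - ln35 μ s κ (i + n)| ≤ ρ * wd μ s T →
      1 ≤ Real.exp (CL * EE μ s T) * ∑ y ∈ ({v₀} : Finset ℤ), K147 μ s Γ.h η Γ.p Γ.M i n x y) ∧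
    (∀ (δ : Finset ℤ) (x : ℤ), |(x : ℝ) - ln35 μ s κ i| ≤ ρ * wd μ s T →
      ∑ y ∈ δ, K147 μ s Γ.h η Γ.p Γ.M i n x y ≤ Real.exp (CL * EE μ s T) * 1) ∧
    ∀ P', P₀ ≤ P' → ∀ I J : Finset ℤ, En31 P' (c / 8) c₂ (EE μ s T) (wd μ s T) q₁ σ (fun x => (x : ℝ) - ln35 μ s κ i)
      (fun y => (y : ℝ) - ln35 μ s κ (i + n)) (K147 μ s Γ.h η Γ.p Γ.M i n) I J := by
  obtain ⟨P₀, H1⟩ := jnC35 h0 PI hK hθ
  refine ⟨P₀, fun q u ρ D B hq hu hρ hρK hD hB => ?_⟩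
  have hBR : (1 : ℝ) ≤ B := by exact_mod_cast hB
  have hA1 : 1 ≤ 2 * (B : ℝ) * (1 + (D + 1)) := by nlinarith
  obtain ⟨u', hu'⟩ : ∃ u' : ℝ, u' = u * (1 + Real.log (2 * B * (1 + (D + 1)))) := ⟨_, rfl⟩
  have hlog := Real.log_nonneg hA1
  have hu'0 : 0 ≤ u' := by rw [hu']; positivity
  obtain ⟨q₁, CL, hq₁, hCL, H2⟩ := H1 q u' ρ hq hu'0 hρ hρK
  refine ⟨q₁, CL, hq₁, hCL, fun c₁ c₂ c₃ c₃' σ hc₁ hc₂ hc₃' h3 hcc hσ hσ1 => ?_⟩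
  obtain ⟨m₁, hm₁, H3⟩ := H2 c₁ c₂ c₃ c₃' σ hc₁ hc₂ hc₃' h3 hcc hσ hσ1
  obtain ⟨m₂, H4⟩ := force35 h0
  obtain ⟨m₃, H5⟩ := eventually_atTop.1 ((wd_tendsto h0).eventually_ge_atTop 1)
  refine ⟨max m₁ (max m₂ m₃), hm₁.trans (le_max_left _ _), ?_⟩
  intro Γ η κ T TF nB TB a aB zB z' zr uI i n hT hs hh hTF hTFT hTB hη hnT hθn ha hR hz
  have hw1 := H5 T (((le_max_right _ _).trans (le_max_right _ _)).trans hT)
  have hw0 : 0 < wd μ s T := by linarith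
  have hT1 : 1 ≤ T := hTF.trans hTFT
  have hwF := h0.wd_pos hTF
  have hE := EE_pos (μ := μ) (s := s) T
  have hEF := EE_pos (μ := μ) (s := s) TF
  obtain ⟨zc, hzc⟩ : ∃ zc : ℤ, zc = ⌊ln35 μ s κ i⌋ := ⟨_, rfl⟩
  have hzc1 : |(zc : ℝ) - ln35 μ s κ i| ≤ 1 := by
    rw [hzc, abs_le]
    have g1 := Int.floor_le (ln35 μ s κ i)
    have g2 := Int.lt_floor_add_one (ln35 μ s κ i)
    constructor <;> linarith
  have hzw : |(zc : ℝ) - ln35 μ s κ i| ≤ wd μ s T := hzc1.trans hw1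
  have hzz : |(zc : ℝ) - zr| ≤ (D + 1) * wd μ s T := by
    have e : (zc : ℝ) - zr = ((zc : ℝ) - ln35 μ s κ i) - ((zr : ℝ) - ln35 μ s κ i) := by ring
    rw [e]
    exact (abs_sub _ _).trans (by linarith)
  have hwu : wd μ s T ≤ 2 * B * wd μ s TF := wd_unit20 h0 hTF hT1 hTB
  have hEu : EE μ s TF ≤ EE μ s T := by
    have := EE_unit20 h0 (B := 1) (T := T) (T' := TF) le_rfl (by omega)
    rw [Nat.cast_one, one_mul] at this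
    exact this
  have hR' : η ∈ RowG (i : ℤ) zc (wd μ s T) (u' * EE μ s T) := by
    refine rowG35 (B := 2 * B) (D := D + 1) hwF hw0 hwu (by linarith) (by linarith) hzz (mul_nonneg hu hEF.le) ?_ hR
    rw [hu']
    calc u * EE μ s TF * (1 + Real.log (2 * B * (1 + (D + 1)))) ≤ u * EE μ s T * (1 + Real.log (2 * B * (1 + (D + 1)))) :=
          mul_le_mul_of_nonneg_right (mul_le_mul_of_nonneg_left hEu hu) (by linarith)
      _ = _ := by ring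
  have hp : ∀ k, k < Γ.M → Γ.p k = Real.exp (s + Γ.h) := fun k hk => by
    unfold Cx.p
    rw [if_pos hk, hs]
  have hp' : ∀ k, Γ.M ≤ k → Γ.p k = Real.exp s := fun k hk => by
    unfold Cx.p
    rw [if_neg (by omega), hs]
  have hlat : |lat16 μ s κ ((i : ℤ), a)| ≤ wd μ s T := by rwa [lat_ln]
  obtain ⟨k1, k2, k3, k4⟩ := H3 ((le_max_left _ _).trans hT) hnT hp hp' hη.1.1 hlat
    (H4 T (((le_max_left _ _).trans (le_max_right _ _)).trans hT) Γ.h hh) i n le_rfl le_rfl hθn hR' hzw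
  refine ⟨fun P' hP' J Q₂ S₂ cz m x z hQ₂ => k1 P' hP' J Q₂ S₂ cz (m + 1) x z hQ₂, fun x v₀ hx hv => ?_, k4, k2⟩
  exact k3 {v₀} v₀ x (mem_singleton_self v₀) hv hx

end

end Pool.Agent.W_7d29a1_C1.JnE35
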