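import Pool.Agent.W_7d29a1_C1.GeoF10
import Pool.Agent.W_7d29a1_C1.FreC35

/-!
MP_7d29a1_pr, [C1], SHELL, THE FRESH BALL (helper10): `freC35` (helper35: the typical inside, the first meeting is in the box) at the rows
of `GeoF10` over the grid `GW`, all numbers discharged, windows in units of `wd (Tg i)`.
-/

set_option autoImplicit false

namespace Pool.Agent.W_7d29a1_C1.T10

open Finset MeasureTheory Filter Topology
open Pool.Agent.W_7d29a1_F Pool.Agent.W_7d29a1_h4g Pool.Agent.W_7d29a1_H Pool.Agent.W_7d29a1_HS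
open Pool.Agent.W_7d29a1_C1 Pool.Agent.W_7d29a1_C1.H75 Pool.Agent.W_7d29a1_C1.U16
open Pool.Agent.W_7d29a1_C1.K91 (wt wt_pos)
open Pool.Agent.W_7d29a1_C1.Bx47 (mq)
open Pool.Agent.W_7d29a1_C1.S71 (gl gl_of_mem)
open Pool.Agent.W_7d29a1_C1.FreC35 (FC35 freC35)
open scoped ENNReal

noncomputable section

variable {μ : Measure ℝ} {s : ℝ}

/-! ### The sites of the box inside the columns `[lo, hi]` -/

/-- The sites of `S` in the box `i` of `c₁` with column in `[lo, hi]`. -/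
def QF (G : Gd) (i : ℕ) (c₁ : ℕ × ℤ) (S : Finset (ℕ × ℤ)) (lo hi : ℤ) : Finset (ℕ × ℤ) :=
  (S.filter (fun b => G.z i b = G.z i c₁)).filter (fun b => lo ≤ b.2 ∧ b.2 ≤ hi)

theorem QF_sub (G : Gd) (i : ℕ) (c₁ : ℕ × ℤ) (S : Finset (ℕ × ℤ)) (lo hi : ℤ) :
    QF G i c₁ S lo hi ⊆ S.filter (fun b => G.z i b = G.z i c₁) := Finset.filter_subset _ _

/-- **`hQ` of `w47`.** -/
theorem QF_rows {G : Gd} {L : ℕ} (hG : G.Ok L) {i : ℕ} (hi : i ≤ L) {c₁ : ℕ × ℤ} {S : Finset (ℕ × ℤ)} {lo hi' : ℤ} {c0 n : ℕ}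
    (h1 : c0 ≤ (G.z i c₁).1) (h2 : (G.z i c₁).1 + G.H i ≤ c0 + n) : QF G i c₁ S lo hi' ⊆ Ico c0 (c0 + n) ×ˢ Icc lo hi' := by
  intro b hb
  unfold QF at hb
  rw [Finset.mem_filter, Finset.mem_filter] at hb
  obtain ⟨⟨_, hz⟩, h3, h4⟩ := hb
  have h5 := Gd.row_le (G := G) i b
  have h6 := hG.row_lt hi b
  rw [hz] at h5 h6
  rw [Finset.mem_product, Finset.mem_Ico, Finset.mem_Icc]
  exact ⟨⟨h1.trans h5, h6.trans_le h2⟩, h3, h4⟩

/-- **The last clause of `fresh47`.** -/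
theorem QF_sum {G : Gd} {i : ℕ} {c₁ : ℕ × ℤ} {S : Finset (ℕ × ℤ)} {lo hi : ℤ} {f : ℕ × ℤ → ℝ} (hf : ∀ b, 0 ≤ f b) {a : ℝ}
    (ha : a ≤ ∑ b ∈ QF G i c₁ S lo hi, f b) :
    ENNReal.ofReal a ≤ ∑ b ∈ S.filter (fun b => G.z i b = G.z i c₁), ENNReal.ofReal (f b) := by
  rw [← ENNReal.ofReal_sum_of_nonneg fun b _ => hf b]
  exact ENNReal.ofReal_le_ofReal (ha.trans (Finset.sum_le_sum_of_subset_of_nonneg (QF_sub G i c₁ S lo hi) fun b _ _ => hf b))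

/-! ### The typical inside over the grid -/

variable [IsProbabilityMeasure μ] {c C : ℝ} {n₀ : ℕ}

/-- **THE TYPICAL INSIDE OF THE FRESH BALL OVER THE GRID.** `c0' = cF`, `e = z + 5 T / 8`, line through the middle of the box. The levels
`P`, `q₀` do not depend on the number `R₁` of pieces of the first buffer (only `n₁` does). -/
theorem inC10 (h : In μ s c C n₀) {e e' : ℝ} (he : 0 < e) (he' : 0 < e') :
    ∃ d : ℝ, 0 < d ∧ d ≤ 1 ∧ ∃ R : ℝ, 1 ≤ R ∧ ∀ g : ℝ, 0 < g → g < d → ∃ th : ℝ, 0 < th ∧ th ≤ 1 / 4 ∧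
    ∀ (K' θ u : ℝ), 0 < K' → 0 < θ → θ ≤ 1 → 0 < u → ∃ P : ℕ, ∃ q₀ : ℝ, 0 ≤ q₀ ∧ ∀ R₁ : ℕ, 1 ≤ R₁ → ∃ n₁ : ℕ, 1 ≤ n₁ ∧
    ∀ q : ℝ, q₀ ≤ q → ∀ {B : ℕ} {C₀ : ℝ} {h₀ K L : ℕ} {G : Gd}, GW μ s R B C₀ h₀ K L G → ∀ {i : ℕ}, 1 ≤ i → i ≤ L →
    n₁ ≤ Tg h₀ K i → ∀ {c₁ : ℕ × ℤ}, Tg h₀ K i ≤ (G.z i c₁).1 →
    ∀ {c0 n : ℕ}, c0 = cF th R₁ (G.z i c₁).1 (Tg h₀ K i) → n = (G.z i c₁).1 + 5 * Tg h₀ K i / 8 - c0 →
    ∀ {xc : ℝ}, xc = (xm G i c₁ : ℝ) - sl μ s * (((G.z i c₁).1 : ℝ) - c0) →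
    ∀ (Tt nB TB : ℕ) (a aB zB z' : ℤ), n ≤ Tt → 1 ≤ nB → nB ≤ n → n₁ ≤ TB → nB ≤ TB →
    ∀ F : Set Env, MeasurableSet F → On20 (rows (c0 : ℤ) ((c0 + n : ℕ) : ℤ)) F →
    ∃ E : Set Env, MeasurableSet E ∧ On20 (rows (c0 : ℤ) ((c0 + n : ℕ) : ℤ)) E ∧
      E ⊆ FC35 μ s c θ K' P q u c0 n Tt nB TB a aB zB z' ∩ F ∧ law μ Eᶜ ≤ ENNReal.ofReal e + law μ Fᶜ ∧
      (∀ (A : Set Pt) (ω : Env), rows (c0 : ℤ) ((c0 + n : ℕ) : ℤ) ⊆ A → {η | gl A η ω ∈ E} = E) ∧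
      ∀ η ∈ E, ∀ (h' : ℝ) (p : ℕ → ℝ), (∀ k, 0 < p k) → (∀ k, c0 ≤ k → k < c0 + n → p k = Real.exp (s + h')) →
      ∀ (S : Finset (ℕ × ℤ)) (lo hi : ℤ), (∀ b, G.z i b = G.z i c₁ → b ∈ S) →
      (∀ (k : ℕ) (q : ℤ), (G.z i c₁).1 ≤ k → k < (G.z i c₁).1 + G.H i →
        |(q : ℝ) - xm G i c₁ - sl μ s * ((k : ℝ) - (G.z i c₁).1)| ≤ (R + 1) * wd μ s (Tg h₀ K i) → lo ≤ q ∧ q ≤ hi) →
      ∀ x x' y y' : ℤ, xc - d * wd μ s (Tg h₀ K i) ≤ x → (x : ℝ) ≤ xc - g * wd μ s (Tg h₀ K i) →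
      xc + g * wd μ s (Tg h₀ K i) ≤ x' → (x' : ℝ) ≤ xc + d * wd μ s (Tg h₀ K i) →
      |(y : ℝ) - (xc + sl μ s * n)| ≤ d * wd μ s (Tg h₀ K i) → |(y' : ℝ) - (xc + sl μ s * n)| ≤ d * wd μ s (Tg h₀ K i) →
      (1 - e') * (ker (wt η) p c0 n x y * ker (wt η) p c0 n x' y') ≤ mq (wt η) p (QF G i c₁ S lo hi) c0 n x x' y y' := by
  obtain ⟨dd, hdd, hdd1, RR, hRR, H⟩ := freC35 h (Kx := 0) (B := 2) le_rfl (by norm_num) he he'
  refine ⟨dd / 4, by positivity, by linarith, 2 * RR, by linarith, fun g hg hgd => ?_⟩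
  obtain ⟨th0, hth0, hth01, H1⟩ := H (g / 2) (by positivity) (by linarith)
  obtain ⟨th, hth⟩ : ∃ th : ℝ, th = min th0 (1 / 4) := ⟨_, rfl⟩
  have hthp : 0 < th := by rw [hth]; exact lt_min hth0 (by norm_num)
  have hth4 : th ≤ 1 / 4 := by rw [hth]; exact min_le_right _ _
  have hth00 : th ≤ th0 := by rw [hth]; exact min_le_left _ _
  refine ⟨th, hthp, hth4, fun K' θ u hK' hθ hθ1 hu => ?_⟩
  obtain ⟨P, q₀, hq₀, m₁, hm₁, H2⟩ := H1 K' θ u hK' hθ hθ1 hu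
  refine ⟨P, q₀, hq₀, fun R₁ hR₁ => ?_⟩
  obtain ⟨m₂, hm₂, H3⟩ := rowsF hthp hth4 hR₁ 0
  refine ⟨max (2 * m₁) (max m₂ 8), le_trans (by omega) (le_max_left _ _), ?_⟩
  intro q hq B C₀ h₀ K L G gw i hi hiL hT c₁ hTz c0 n hc0 hn xc hxc Tt nB TB a aB zB z' hnTt hnB1 hnBn hTB hnBT F mF oF
  obtain ⟨z, hz⟩ : ∃ z : ℕ, z = (G.z i c₁).1 := ⟨_, rfl⟩
  obtain ⟨T, hTd⟩ : ∃ T : ℕ, T = Tg h₀ K i := ⟨_, rfl⟩
  have hTH : T = 2 * G.H i := by rw [hTd]; exact gw.TH hi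
  rw [← hTd] at hT hTz hc0 hn ⊢
  rw [← hz] at hTz hc0 hn hxc ⊢
  have hT1 : 2 * m₁ ≤ T := (le_max_left _ _).trans hT
  have hT2 : m₂ ≤ T := ((le_max_left _ _).trans (le_max_right _ _)).trans hT
  have hT8 : 8 ≤ T := ((le_max_right _ _).trans (le_max_right _ _)).trans hT
  obtain ⟨r1, r2, r3, r4, -, -⟩ := H3 T z hT2 hTz
  rw [← hc0] at r1 r2 r3 r4
  -- the scale of `box_m`
  obtain ⟨Tb, hTb⟩ : ∃ Tb : ℕ, Tb = z + T / 2 - c0 := ⟨_, rfl⟩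
  obtain ⟨n0, hn0⟩ : ∃ n0 : ℕ, n0 = z - c0 := ⟨_, rfl⟩
  have hc0T : z - T < c0 := by
    rw [hc0]
    unfold cF
    omega
  have b1 : T / 2 ≤ Tb := by omega
  have b2 : Tb ≤ 2 * T := by omega
  have b3 : m₁ ≤ Tb := by omega
  have b4 : n0 ≤ Tb := by omega
  have b5 : Tb < n := by omega
  have b6 : (n : ℝ) ≤ 2 * Tb := by
    have : n ≤ 2 * Tb := by omega
    exact_mod_cast this
  have b7 : (n0 : ℝ) ≤ th0 * Tb := by
    rw [hTb, hn0]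
    refine (r3.trans r4).trans (mul_le_mul_of_nonneg_right hth00 (by positivity))
  have hTb1 : 1 ≤ Tb := by omega
  have hT1' : 1 ≤ T := by omega
  have hTR : (0 : ℝ) < T := by exact_mod_cast hT1'
  have hTbR : (0 : ℝ) < Tb := by exact_mod_cast hTb1
  have hw0 := h.wd_pos hT1'
  have hwb := h.wd_pos hTb1
  -- the units
  have hTbT : Tb ≤ T := by
    have h9 : th * T ≤ 1 / 4 * T := mul_le_mul_of_nonneg_right hth4 hTR.le
    have h10 : (n0 : ℝ) ≤ th * T / 4 + R₁ := by rw [hn0]; exact r3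
    have h11 : th * T / 4 + (R₁ : ℝ) ≤ th * (Tb : ℕ) := by rw [hTb]; exact r4
    have h12 : (Tb : ℝ) = T / 2 + n0 := by
      have h13 : 2 * Tb = T + 2 * n0 := by omega
      have h14 : 2 * (Tb : ℝ) = T + 2 * n0 := by exact_mod_cast h13
      linarith
    have h15 : th * (Tb : ℝ) ≤ 1 / 4 * Tb := mul_le_mul_of_nonneg_right hth4 hTbR.le
    have h16 : (Tb : ℝ) ≤ T := by linarith
    exact_mod_cast h16
  have u1 : wd μ s Tb ≤ 2 * wd μ s T := W_7d29a1_HS.wd_le_two h hTb1 hTbT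
  have u2 : wd μ s T ≤ 4 * wd μ s Tb := by
    have h1 := wd_lower_one h hTb1 hTbT
    have h2 : (T : ℝ) ≤ 2 * Tb := by
      have : T ≤ 2 * Tb := by omega
      exact_mod_cast this
    have h3 : (Tb : ℝ) * wd μ s T ≤ Tb * (4 * wd μ s Tb) := by
      calc (Tb : ℝ) * wd μ s T ≤ 2 * (T * wd μ s Tb) := h1
        _ ≤ 2 * ((2 * Tb) * wd μ s Tb) := by
          have := mul_le_mul_of_nonneg_right h2 hwb.le
          linarith
        _ = Tb * (4 * wd μ s Tb) := by ring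
    exact le_of_mul_le_mul_left h3 hTbR
  have hcz : ((z : ℕ) : ℝ) - c0 = n0 := by
    rw [hn0, Nat.cast_sub r1]
  obtain ⟨E, mE, oE, sE, pE, glE, hE⟩ := H2 q hq c0 n Tb n0 Tt nB TB b3 b4 b5 b6 b7 hnTt hnB1 hnBn
    (le_trans (le_trans (by omega) (le_max_left _ _)) hTB) hnBT xc (xc + sl μ s * n) a aB zB z' (by
      have e1 : xc + sl μ s * n - xc - sl μ s * n = 0 := by ring
      rw [e1, abs_zero, zero_mul]) F mF oF
  refine ⟨E, mE, oE, sE, pE, glE, fun η hη h' p hp hph S lo hi' hS hwin x x' y y' x1 x2 x3 x4 y1 y2 => ?_⟩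
  refine hE η hη h' p hp hph (QF G i c₁ S lo hi') (fun k q hk1 hk2 hq => ?_) x x' y y' ?_ ?_ ?_ ?_ ?_ ?_
  · -- the tube is in the box
    have k1 : z ≤ k := by omega
    have k2 : k < z + G.H i := by omega
    have e1 : (q : ℝ) - xc - sl μ s * ((k : ℝ) - c0) = (q : ℝ) - xm G i c₁ - sl μ s * ((k : ℝ) - z) := by
      rw [hxc]
      ring
    rw [e1] at hq
    have h3 : |(q : ℝ) - xm G i c₁ - sl μ s * ((k : ℝ) - z)| ≤ (2 * RR + 1) * wd μ s T := by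
      refine hq.trans ?_
      have h4 : RR * wd μ s Tb ≤ RR * (2 * wd μ s T) := mul_le_mul_of_nonneg_left u1 (by linarith)
      have h5 : (2 * RR + 1) * wd μ s T = RR * (2 * wd μ s T) + wd μ s T := by ring
      linarith
    unfold QF
    refine Finset.mem_filter.2 ⟨?_, hwin k q k1 k2 h3⟩
    rw [hz, hTd] at h3
    rw [hz] at k1 k2
    exact gw.mem_fib hi hiL hS k1 k2 h3
  · have h1 : dd / 4 * wd μ s T ≤ dd * wd μ s Tb := by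
      have := mul_le_mul_of_nonneg_left u2 (show 0 ≤ dd / 4 by positivity)
      linarith
    linarith
  · have h1 : g / 2 * wd μ s Tb ≤ g * wd μ s T := by
      have := mul_le_mul_of_nonneg_left u1 (show 0 ≤ g / 2 by positivity)
      linarith
    linarith
  · have h1 : g / 2 * wd μ s Tb ≤ g * wd μ s T := by
      have := mul_le_mul_of_nonneg_left u1 (show 0 ≤ g / 2 by positivity)
      linarith
    linarith
  · have h1 : dd / 4 * wd μ s T ≤ dd * wd μ s Tb := by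
      have := mul_le_mul_of_nonneg_left u2 (show 0 ≤ dd / 4 by positivity)
      linarith
    linarith
  · have h1 : dd / 4 * wd μ s T ≤ dd * wd μ s Tb := by
      have := mul_le_mul_of_nonneg_left u2 (show 0 ≤ dd / 4 by positivity)
      linarith
    exact y1.trans h1
  · have h1 : dd / 4 * wd μ s T ≤ dd * wd μ s Tb := by
      have := mul_le_mul_of_nonneg_left u2 (show 0 ≤ dd / 4 by positivity)
      linarith
    exact y2.trans h1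

end

end Pool.Agent.W_7d29a1_C1.T10
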