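import Pool.Agent.W_7d29a1_C1.Ctx60
import Pool.Agent.W_7d29a1_C1.RowW83

/-!
MP_7d29a1_pr, attractor route, [C1]: the tilt of an admissible context is negligible on all the scales `T ≤ 2 n ^ e`, `e ≤ 1/32`, and the
step weights have one slope on every block of rows on one side of the row `M`. (helper87)
-/

set_option autoImplicit false

namespace Pool.Agent.W_7d29a1_C1.H60

open Finset MeasureTheory Filter Topology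
open Pool.Agent.W_7d29a1_F Pool.Agent.W_7d29a1_h4g Pool.Agent.W_7d29a1_H Pool.Agent.W_7d29a1_HS

noncomputable section

variable {μ : Measure ℝ} {s c₀ C₀ : ℝ} {n₀ : ℕ}

/-- The tilt. -/
theorem Adm.tilt_le [IsProbabilityMeasure μ] {c δ κ : ℝ} {n : ℕ} {Γ : Cx} (h : Adm μ s c δ κ n Γ) (hn : 1 ≤ n) (hδ : 0 ≤ δ)
    (hE : (n : ℝ) ^ (1 / 9 : ℝ) ≤ EE μ s n) : |Γ.h| ≤ (n : ℝ) ^ (-(1 / 9 : ℝ)) := by
  have n1 : (1 : ℝ) ≤ n := by exact_mod_cast hn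
  have n0 : (0 : ℝ) < n := by linarith
  obtain ⟨N, L, -, -, -, -, -, -, k1, -⟩ := h.hor
  have k2 : (n : ℝ) ^ (-(2 * δ)) ≤ 1 := by
    rw [Real.rpow_neg n0.le]
    exact inv_le_one_of_one_le₀ (Real.one_le_rpow n1 (by linarith))
  have k3 : |Γ.h| * (n : ℝ) ^ (1 / 9 : ℝ) ≤ 1 := (mul_le_mul_of_nonneg_left hE (abs_nonneg _)).trans (k1.trans k2)
  rw [Real.rpow_neg n0.le, inv_eq_one_div, le_div_iff₀ (Real.rpow_pos_of_pos n0 _)]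
  exact k3

/-- **THE TILT IS NEGLIGIBLE ON THE SCALES `T ≤ 2 n ^ e`.** -/
theorem tilt87 [IsProbabilityMeasure μ] (hI : In μ s c₀ C₀ n₀) (hE9 : ∀ᶠ n : ℕ in atTop, (n : ℝ) ^ (1 / 9 : ℝ) ≤ EE μ s n)
    {e kap c δ κ : ℝ} (he : e ≤ 1 / 32) (hδ : 0 ≤ δ) (hk : 0 < kap) : ∃ n₁ : ℕ, ∀ᶠ n : ℕ in atTop, ∀ Γ : Cx, Adm μ s c δ κ n Γ →
      ∀ T : ℕ, (T : ℝ) ≤ 2 * (n : ℝ) ^ e → |Γ.h| * T ≤ kap ∧ (n₁ ≤ T → |Γ.h| * wd μ s T ≤ kap * EE μ s T) := by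
  obtain ⟨n₁, hn₁⟩ := eventually_atTop.1 (hI.tv.eventually (Iio_mem_nhds (show (0 : ℝ) < 1 from one_pos)))
  have ev : ∀ᶠ n : ℕ in atTop, 2 / kap ≤ (n : ℝ) ^ (1 / 9 - 1 / 32 : ℝ) :=
    ((tendsto_rpow_atTop (by norm_num)).comp tendsto_natCast_atTop_atTop).eventually_ge_atTop _
  refine ⟨n₁, ?_⟩
  filter_upwards [hE9, eventually_ge_atTop 1, ev] with n hE hn hv Γ hA T hT
  have n1 : (1 : ℝ) ≤ n := by exact_mod_cast hn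
  have n0 : (0 : ℝ) < n := by linarith
  have h1 := hA.tilt_le hn hδ hE
  have h2 : (T : ℝ) ≤ 2 * (n : ℝ) ^ (1 / 32 : ℝ) :=
    hT.trans (mul_le_mul_of_nonneg_left (Real.rpow_le_rpow_of_exponent_le n1 he) (by norm_num))
  have T0 : (0 : ℝ) ≤ T := Nat.cast_nonneg _
  have h3 : |Γ.h| * T ≤ kap := by
    have e1 : (n : ℝ) ^ (1 / 9 - 1 / 32 : ℝ) * (n : ℝ) ^ (-(1 / 9) + 1 / 32 : ℝ) = 1 := by
      rw [← Real.rpow_add n0]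
      norm_num
    have p0 : 0 < (n : ℝ) ^ (-(1 / 9) + 1 / 32 : ℝ) := Real.rpow_pos_of_pos n0 _
    calc |Γ.h| * T ≤ (n : ℝ) ^ (-(1 / 9 : ℝ)) * (2 * (n : ℝ) ^ (1 / 32 : ℝ)) :=
          mul_le_mul h1 h2 T0 (Real.rpow_pos_of_pos n0 _).le
      _ = 2 * (n : ℝ) ^ (-(1 / 9) + 1 / 32 : ℝ) := by rw [Real.rpow_add n0]; ring
      _ = kap * (2 / kap * (n : ℝ) ^ (-(1 / 9) + 1 / 32 : ℝ)) := by field_simp
      _ ≤ kap * ((n : ℝ) ^ (1 / 9 - 1 / 32 : ℝ) * (n : ℝ) ^ (-(1 / 9) + 1 / 32 : ℝ)) :=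
          mul_le_mul_of_nonneg_left (mul_le_mul_of_nonneg_right hv p0.le) hk.le
      _ = kap := by rw [e1, mul_one]
  refine ⟨h3, fun hT1 => ?_⟩
  have h4 : vA 1 μ s T < 1 := hn₁ T hT1
  have h5 : wd μ s T ≤ T := by
    calc wd μ s T = T * vA 1 μ s T := rfl
      _ ≤ T * 1 := mul_le_mul_of_nonneg_left h4.le T0
      _ = T := mul_one _
  have h6 : 1 ≤ EE μ s T := one_le_EE (μ := μ) (s := s) T
  calc |Γ.h| * wd μ s T ≤ |Γ.h| * T := mul_le_mul_of_nonneg_left h5 (abs_nonneg _)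
    _ ≤ kap := h3
    _ ≤ kap * EE μ s T := le_mul_of_one_le_right hk.le h6

/-- **ONE SLOPE ON A BLOCK.** -/
theorem step87 (Γ : Cx) {a b : ℕ} (h : b ≤ Γ.M ∨ Γ.M ≤ a) :
    ∃ τ : ℝ, |τ| ≤ |Γ.h| ∧ ∀ k, a ≤ k → k < b → Γ.p k = Real.exp (Γ.s + τ) := by
  rcases h with h | h
  · exact ⟨Γ.h, le_rfl, fun k _ h2 => by unfold Cx.p; rw [if_pos (by omega)]⟩
  · exact ⟨0, by rw [abs_zero]; exact abs_nonneg _, fun k h1 _ => by unfold Cx.p; rw [if_neg (by omega), add_zero]⟩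

end

end Pool.Agent.W_7d29a1_C1.H60
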