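import Pool.Agent.W_7d29a1_C1.Sets47
import Pool.Agent.W_7d29a1_C1.ShlC8
import Pool.Agent.W_7d29a1_C1.InC10
import Pool.Agent.W_7d29a1_C1.JnC35
import Pool.Agent.W_7d29a1_C1.TileC98
import Pool.Agent.W_7d29a1_C1.Tilt87
import Pool.Agent.W_7d29a1_HL.Hsl

/-!
MP_7d29a1_pr, [C1] SHELL: THE GEOMETRY OF THE FRESH BALL. (helper58)

`ω ∈ V31` (so `ω ∈ V47`, `V8`): the left group is positive at the whole window `W2` of the lower edge row of the outer ball, so this window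
is inside the box, and so are the windows of all rows above it. `Geo58` : the data of one ball, `T` the scale, `z` the base of the box of
level `i`, line through the middle `xm` of the box; `geo58` from `V31`; `Geo58.win`, `Geo58.hQ`, `Geo58.hwin` in the letters of `w35`, `inC10`.
-/

set_option autoImplicit false

namespace Pool.Agent.W_7d29a1_C1.Ge58

open MeasureTheory Finset
open Pool.Agent.W_7d29a1_F Pool.Agent.W_7d29a1_h4g Pool.Agent.W_7d29a1_H Pool.Agent.W_7d29a1_HS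
open Pool.Agent.W_7d29a1_C1
open Pool.Agent.W_7d29a1_C1.K91 (wt wt_pos)
open Pool.Agent.W_7d29a1_C1.K91P (fw bw bw_pos)
open Pool.Agent.W_7d29a1_C1.T10
open Pool.Agent.W_7d29a1_C1.H60 (Cx AT)
open Pool.Agent.W_7d29a1_C1.D31 (NV31 V31 DW31)
open Pool.Agent.W_7d29a1_C1.Fr47 (V47)
open Pool.Agent.W_7d29a1_C1.JnC35 (ln35)
open Pool.Agent.W_7d29a1_C1.H8 (V8 S8 NB8 KV8 m8 h8)

noncomputable section

variable {μ : Measure ℝ} {s : ℝ}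

/-! ### The window of the lower edge row -/

/-- The left group is positive in the window. -/
theorem pos58 {I : Finset ℤ} {cen cen' W₁ W₁' W₂ : ℝ} {kap : ℤ → ℤ → ℝ} {yl yr yp : ℤ} {g q₁ q₂ gf : ℝ} {L R F : ℤ → ℝ}
    (H : DW31 I cen cen' W₁ W₁' W₂ kap yl yr yp g q₁ q₂ gf L R F) (hW : W₁ ≤ W₂) {x : ℤ} (hx : |(x : ℝ) - cen| ≤ W₂) : 0 < L x := by
  have h1 := H.dp.tL yl x (H.yl1.trans hW) hx
  have h2 := H.dp.Ll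
  by_contra hcon
  have h3 : Real.exp q₂ * L x ≤ 0 := mul_nonpos_of_nonneg_of_nonpos (Real.exp_pos _).le (not_lt.1 hcon)
  linarith

theorem fwl58 {w : ℕ → ℤ → ℝ} {p : ℕ → ℝ} {k : ℕ} {y : ℤ} (h : 0 < fw w p Cx.l k y) : 0 ≤ y ∧ y ≤ k := by
  by_contra hcon
  rw [T98.fw_l_zero w p (k := k) (y := y) (by omega)] at h
  exact lt_irrefl _ h

/-! ### The data of one ball -/

/-- **THE DATA OF ONE BALL.** Rows `k ≥ z - T`, the columns within `ρ wd T` of the line through the middle of the box. -/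
structure Geo58 (μ : Measure ℝ) (s : ℝ) (Γ : Cx) (G : Gd) (T i : ℕ) (q₀ : ℕ × ℤ) (ρ : ℝ) : Prop where
  Tz : T ≤ (G.z i q₀).1
  hN : (G.z i q₀).1 + T + 1 ≤ Γ.N
  col : ∀ (k : ℕ) (x : ℤ), (G.z i q₀).1 ≤ k + T → |(x : ℝ) - ln35 μ s ((((G.z i q₀).1 : ℕ) : ℤ), xm G i q₀) k| ≤ ρ * wd μ s T →
    0 ≤ x ∧ x ≤ k

section one

variable {Γ : Cx} {G : Gd} {T i : ℕ} {q₀ : ℕ × ℤ} {ρ : ℝ}

theorem Geo58.mono (H : Geo58 μ s Γ G T i q₀ ρ) (hw : 0 ≤ wd μ s T) {ρ' : ℝ} (h : ρ' ≤ ρ) : Geo58 μ s Γ G T i q₀ ρ' :=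
  ⟨H.Tz, H.hN, fun k x h1 h2 => H.col k x h1 (h2.trans (mul_le_mul_of_nonneg_right h hw))⟩

/-- `hN` of `w35`. -/
theorem Geo58.hNw (H : Geo58 μ s Γ G T i q₀ ρ) {r : ℕ} (hr : r = (G.z i q₀).1 + T + 1) : r ≤ Γ.N := hr ▸ H.hN

/-- **One window**: row `k`, `r` rows to `c3 = z + T + 1`. -/
theorem Geo58.win1 (H : Geo58 μ s Γ G T i q₀ ρ) {k r : ℕ} (hk : (G.z i q₀).1 ≤ k + T) (hr : k + r = (G.z i q₀).1 + T + 1) {x : ℤ}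
    (hx : |(x : ℝ) - ln35 μ s ((((G.z i q₀).1 : ℕ) : ℤ), xm G i q₀) k| ≤ ρ * wd μ s T) : 0 ≤ x ∧ x ≤ Γ.hi - (r : ℤ) := by
  obtain ⟨h1, h2⟩ := H.col k x hk hx
  have h3 := H.hN
  refine ⟨h1, ?_⟩
  unfold Cx.hi
  omega

/-- **`hβS`, `hδT`, `hδU` of `w35`.** -/
theorem Geo58.win (H : Geo58 μ s Γ G T i q₀ ρ) {k r : ℕ} (hk : (G.z i q₀).1 ≤ k + T) (hr : k + r = (G.z i q₀).1 + T + 1) {A : Finset ℤ}
    (hA : ∀ x ∈ A, |(x : ℝ) - ln35 μ s ((((G.z i q₀).1 : ℕ) : ℤ), xm G i q₀) k| ≤ ρ * wd μ s T) : A ⊆ Icc 0 (Γ.hi - (r : ℤ)) := fun x hx =>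
  mem_Icc.2 (H.win1 hk hr (hA x hx))

theorem Geo58.win0 (H : Geo58 μ s Γ G T i q₀ ρ) {k : ℕ} (hk : (G.z i q₀).1 ≤ k + T) (hr : k ≤ (G.z i q₀).1 + T + 1) {A : Finset ℤ}
    (hA : ∀ x ∈ A, |(x : ℝ) - ln35 μ s ((((G.z i q₀).1 : ℕ) : ℤ), xm G i q₀) k| ≤ ρ * wd μ s T) : A ⊆ Icc 0 Γ.hi := fun x hx => by
  obtain ⟨h1, h2⟩ := H.col k x hk (hA x hx)
  have h3 := H.hN
  refine mem_Icc.2 ⟨h1, ?_⟩
  unfold Cx.hi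
  omega

/-- **`hwin` of `inC10`**, `lo = 0`, `hi = Γ.hi`. -/
theorem Geo58.hwin (H : Geo58 μ s Γ G T i q₀ ρ) (hw : 0 ≤ wd μ s T) {R : ℝ} (hR : R + 1 ≤ ρ) (hH : G.H i ≤ T) (k : ℕ) (q : ℤ)
    (h1 : (G.z i q₀).1 ≤ k) (h2 : k < (G.z i q₀).1 + G.H i)
    (h3 : |(q : ℝ) - xm G i q₀ - sl μ s * ((k : ℝ) - (G.z i q₀).1)| ≤ (R + 1) * wd μ s T) : 0 ≤ q ∧ q ≤ Γ.hi := by
  have e : (q : ℝ) - ln35 μ s ((((G.z i q₀).1 : ℕ) : ℤ), xm G i q₀) k = (q : ℝ) - xm G i q₀ - sl μ s * ((k : ℝ) - (G.z i q₀).1) := by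
    unfold ln35
    push_cast
    ring
  obtain ⟨h4, h5⟩ := H.col k q (by omega) (by
    rw [e]
    exact h3.trans (mul_le_mul_of_nonneg_right hR hw))
  have h6 := H.hN
  refine ⟨h4, ?_⟩
  unfold Cx.hi
  omega

end one

/-! ### From the events `V` -/

/-- **FROM `V31`.** -/
theorem geo58 {Γ : Cx} {ν : NV31} {G : Gd} {L i : ℕ} {c q₀ : ℕ × ℤ} {ω : Env} (hω : ω ∈ V31 μ s Γ ν G i c) (hG : G.Ok L)
    (hL : i + ν.m₂ ≤ L) (hc : G.z i c = G.z i q₀) (hs0 : 0 ≤ sl μ s) (hs1 : sl μ s ≤ 1) (hTo : ν.Ts (i + ν.m₂) ≤ (G.z (i + ν.m₂) c).1)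
    (hT : ν.Ts i ≤ ν.Ts (i + ν.m₂)) {ρ : ℝ} (hW12 : ν.W1 i ≤ ν.W2 i) (hρ : 0 ≤ ρ * wd μ s (ν.Ts i))
    (hW : (G.V i : ℝ) / 2 + ρ * wd μ s (ν.Ts i) + 1 ≤ ν.W2 i) (hN : (G.z i q₀).1 + ν.Ts i + 1 ≤ Γ.N) :
    Geo58 μ s Γ G (ν.Ts i) i q₀ ρ := by
  have hzo : (G.z (i + ν.m₂) c).1 ≤ (G.z i q₀).1 := by
    have h1 := Gd.row_le (G := G) (i + ν.m₂) (G.z i c)
    rw [hG.z_z (Nat.le_add_right i ν.m₂) hL, hc] at h1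
    exact h1
  obtain ⟨z, hz⟩ : ∃ z, z = G.z i q₀ := ⟨_, rfl⟩
  obtain ⟨ro, hro⟩ : ∃ ro : ℕ, ro = ν.row G i c := ⟨_, rfl⟩
  have hro' : ro = (G.z (i + ν.m₂) c).1 - ν.Ts (i + ν.m₂) := hro
  obtain ⟨cn, hcn⟩ : ∃ cn : ℝ, cn = ν.cn G i c (sl μ s) := ⟨_, rfl⟩
  have hcn' : cn = (z.2 : ℝ) + sl μ s * ((ro : ℝ) - z.1) := by
    rw [hcn, hz, ← hc, hro]
    rfl
  have hD := hω.2
  rw [← hro, ← hcn] at hD
  have key : ∀ x : ℤ, |(x : ℝ) - cn| ≤ ν.W2 i → 0 ≤ x ∧ x ≤ ro := fun x hx => fwl58 (pos58 hD hW12 hx)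
  have hV0 : (0 : ℝ) ≤ (G.V i : ℝ) / 2 := by positivity
  refine ⟨by omega, hN, fun k x hk hx => ?_⟩
  rw [← hz] at hk hx hN
  have hk' : ro ≤ k := by
    rw [← hz] at hzo
    omega
  have hk'' : (ro : ℝ) ≤ k := by exact_mod_cast hk'
  have hxm : (xm G i q₀ : ℝ) ≤ z.2 + (G.V i : ℝ) / 2 ∧ (z.2 : ℝ) ≤ xm G i q₀ := by
    unfold xm
    rw [← hz]
    push_cast
    have h1 : ((((G.V i : ℤ) / 2 : ℤ)) : ℝ) ≤ (G.V i : ℝ) / 2 := by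
      have h2 : 2 * ((G.V i : ℤ) / 2) ≤ (G.V i : ℤ) := by omega
      have h3 : (2 : ℝ) * ((((G.V i : ℤ) / 2 : ℤ)) : ℝ) ≤ (G.V i : ℝ) := by exact_mod_cast h2
      linarith
    have h4 : (0 : ℝ) ≤ ((((G.V i : ℤ) / 2 : ℤ)) : ℝ) := by
      have h5 : (0 : ℤ) ≤ (G.V i : ℤ) / 2 := by omega
      exact_mod_cast h5
    constructor <;> linarith
  have hln : ln35 μ s (((z.1 : ℕ) : ℤ), xm G i q₀) k = (xm G i q₀ : ℝ) + sl μ s * ((k : ℝ) - z.1) := by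
    unfold ln35
    push_cast
    ring
  rw [hln, abs_le] at hx
  have hsk : sl μ s * ((k : ℝ) - z.1) = sl μ s * ((ro : ℝ) - z.1) + sl μ s * ((k : ℝ) - ro) := by ring
  have hd0 : 0 ≤ sl μ s * ((k : ℝ) - ro) := mul_nonneg hs0 (by linarith)
  have hd1 : sl μ s * ((k : ℝ) - ro) ≤ (k : ℝ) - ro := mul_le_of_le_one_left (by linarith) hs1
  constructor
  · -- the left end
    obtain ⟨y, hy⟩ : ∃ y : ℤ, y = ⌈cn - ν.W2 i⌉ := ⟨_, rfl⟩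
    have y1 : cn - ν.W2 i ≤ y := by rw [hy]; exact Int.le_ceil _
    have y2 : (y : ℝ) < cn - ν.W2 i + 1 := by rw [hy]; exact Int.ceil_lt_add_one _
    have y3 := (key y (by
      rw [abs_le]
      constructor <;> linarith)).1
    have y4 : (y : ℝ) < x := by linarith [hx.1]
    have y5 : y < x := by exact_mod_cast y4
    omega
  · obtain ⟨y, hy⟩ : ∃ y : ℤ, y = ⌊cn + ν.W2 i⌋ := ⟨_, rfl⟩
    have y1 : (y : ℝ) ≤ cn + ν.W2 i := by rw [hy]; exact Int.floor_le _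
    have y2 : cn + ν.W2 i < y + 1 := by rw [hy]; exact Int.lt_floor_add_one _
    have y3 := (key y (by
      rw [abs_le]
      constructor <;> linarith)).2
    have y4 : (x : ℝ) < y + (k - ro) := by linarith [hx.2]
    have y5 : x < y + ((k : ℤ) - ro) := by exact_mod_cast y4
    omega

/-- **THE WIDTH OF THE WINDOW**: one number `C₀ + ρ + 1 ≤ w₁'`. -/
theorem hW58 {R : ℝ} {B : ℕ} {C₀ : ℝ} {h₀ K L : ℕ} {G : Gd} (g : GW μ s R B C₀ h₀ K L G) {i : ℕ} (hi : 1 ≤ i) (hiL : i ≤ L)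
    {ρ w' wo W2 : ℝ} (hρ : 0 ≤ ρ) (hwo : wd μ s (Tg h₀ K i) ≤ wo) (hw' : C₀ + ρ + 1 ≤ w') (hW2 : w' * wo ≤ W2) :
    (G.V i : ℝ) / 2 + ρ * wd μ s (Tg h₀ K i) + 1 ≤ W2 := by
  have h1 := g.V i hi hiL
  have h2 := g.wB i hi
  have h3 := g.small i hi
  have h4 := g.C1
  have hi0 : (0 : ℝ) ≤ (i : ℝ) := Nat.cast_nonneg _
  have hV0 : (0 : ℝ) ≤ G.V i := Nat.cast_nonneg _
  have w0 : 0 ≤ wd μ s (Tg h₀ K i) := by linarith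
  have h5 : (C₀ + ρ + 1) * wd μ s (Tg h₀ K i) ≤ w' * wo := mul_le_mul hw' hwo w0 (by linarith)
  nlinarith [mul_nonneg (show 0 ≤ C₀ by linarith) w0]

/-- `c3 ≤ N` from the sites `S8`. -/
theorem hN58 {e : ℝ} {K n : ℕ} {G : Gd} {Γ : Cx} {q₀ : ℕ × ℤ} (hq : q₀ ∈ S8 e K n G Γ) {i T : ℕ} (hT : T + 1 ≤ n) :
    (G.z i q₀).1 + T + 1 ≤ Γ.N := by
  have h1 : q₀.1 < G.H (m8 K e n) * ((Γ.N - n - T98.dT (G.H (m8 K e n)) ((n : ℝ) ^ e)) / G.H (m8 K e n)) := by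
    have h2 : q₀ ∈ T98.Sc G (m8 K e n) (⌈(n : ℝ) ^ e⌉₊ / G.H (m8 K e n))
      ((Γ.N - n - T98.dT (G.H (m8 K e n)) ((n : ℝ) ^ e)) / G.H (m8 K e n)) Γ.N := hq
    unfold T98.Sc at h2
    exact (T98.mem_St.1 h2).1.2
  have h3 := Nat.mul_div_le (Γ.N - n - T98.dT (G.H (m8 K e n)) ((n : ℝ) ^ e)) (G.H (m8 K e n))
  have h4 := Gd.row_le (G := G) i q₀
  omega

/-- **FROM `V47`.** -/
theorem geoV47 [IsProbabilityMeasure μ] {c C : ℝ} {n₀ : ℕ} (h : In μ s c C n₀) {Γ : Cx} {R : ℝ} {B : ℕ} {C₀ : ℝ} {h₀ K L : ℕ} {G : Gd}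
    (g : GW μ s R B C₀ h₀ K L G) {ν : NV31} {i : ℕ} {q₀ : ℕ × ℤ} {u : ℝ} {ω : Env} (hω : ω ∈ V47 μ s Γ ν G u i (G.z i q₀))
    (hν : ν.Ts = Tg h₀ K) (hi : 1 ≤ i) (hL : i + ν.m₂ ≤ L) {ρ w' wo : ℝ} (hρ : 0 ≤ ρ) (hwo : wd μ s (Tg h₀ K i) ≤ wo)
    (hw' : C₀ + ρ + 1 ≤ w') (hW2 : w' * wo ≤ ν.W2 i) (hW12 : ν.W1 i ≤ ν.W2 i) (hN : (G.z i q₀).1 + Tg h₀ K i + 1 ≤ Γ.N) :
    Geo58 μ s Γ G (Tg h₀ K i) i q₀ ρ := by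
  have hs := sl_mem (μ := μ) h.em h.nd s
  have hz : G.z i (G.z i q₀) = G.z i q₀ := g.ok.z_z le_rfl (by omega) q₀
  have h1 := geo58 (ρ := ρ) hω.2.1 g.ok hL hz hs.1.le hs.2.le hω.1 (by
    rw [hν]
    exact Tg_mono (by have := g.K2; omega) (Nat.le_add_right i ν.m₂)) hW12 (by
    rw [hν]
    have := g.small i hi
    have hi0 : (0 : ℝ) ≤ (i : ℝ) := Nat.cast_nonneg _
    exact mul_nonneg hρ (by linarith)) (by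
    rw [hν]
    exact hW58 g hi (by omega) hρ hwo hw' hW2) (by rw [hν]; exact hN)
  rw [hν] at h1
  exact h1

/-- **FROM `V47` WITH THE NUMBERS `NB8`**: `w₁ ≤ w₁'`, `C₀ + ρ + 1 ≤ w₁'`. -/
theorem geoN58 [IsProbabilityMeasure μ] {c C : ℝ} {n₀ : ℕ} (h : In μ s c C n₀) {Γ : Cx} {R : ℝ} {B : ℕ} {C₀ : ℝ} {h₀ K L : ℕ} {G : Gd}
    (g : GW μ s R B C₀ h₀ K L G) {m₂ : ℕ} {κ : KV8} {ν : NV31} (N : NB8 μ s (Tg h₀ K) m₂ κ ν) {i : ℕ} {q₀ : ℕ × ℤ} {u : ℝ} {ω : Env}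
    (hω : ω ∈ V47 μ s Γ ν G u i (G.z i q₀)) (hi : 1 ≤ i) (hL : i + m₂ ≤ L) {ρ : ℝ} (hρ : 0 ≤ ρ)
    (hwo : wd μ s (Tg h₀ K i) ≤ wd μ s (Tg h₀ K (i + m₂))) (hw : κ.w₁ ≤ κ.w₁') (hw' : C₀ + ρ + 1 ≤ κ.w₁')
    (hN : (G.z i q₀).1 + Tg h₀ K i + 1 ≤ Γ.N) : Geo58 μ s Γ G (Tg h₀ K i) i q₀ ρ := by
  have hwi : 0 ≤ wd μ s (Tg h₀ K (i + m₂)) := h.wd_nonneg _
  exact geoV47 h g hω N.eT hi (by rw [N.em]; exact hL) hρ hwo hw' (N.hW21 i)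
    ((N.hW1 i).trans ((mul_le_mul_of_nonneg_right hw hwi).trans (N.hW21 i))) hN

/-- The widths of the two scales. -/
theorem hwo58 [IsProbabilityMeasure μ] {c C : ℝ} {n₀ : ℕ} (h : In μ s c C n₀) : ∃ J n₁ : ℕ, ∀ d m : ℕ, n₁ ≤ d → 2 ^ J * d ≤ m →
    wd μ s d ≤ wd μ s m := by
  obtain ⟨J, n₁, hJ⟩ := Pool.Agent.W_7d29a1_HL.hsl h 1
  refine ⟨J, n₁, fun d m hd hm => ?_⟩
  have g1 := hJ m d hd hm
  rw [one_mul] at g1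
  have hdm : d ≤ m := le_trans (Nat.le_mul_of_pos_left d (Nat.two_pow_pos J)) hm
  have hE := EE_pos (μ := μ) (s := s) d
  have hEE : EE μ s d ≤ EE μ s m := EE_mono hdm
  have g2 : EE μ s d * wd μ s d ≤ EE μ s d * wd μ s m := le_trans (mul_le_mul_of_nonneg_right hEE (h.wd_nonneg d)) g1
  exact le_of_mul_le_mul_left g2 hE

theorem hwoT58 [IsProbabilityMeasure μ] {c C : ℝ} {n₀ : ℕ} (h : In μ s c C n₀) : ∃ J n₁ : ℕ, ∀ (h₀ K i m₂ : ℕ), 2 ≤ K → 1 ≤ i → J ≤ m₂ →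
    n₁ ≤ Tg h₀ K i → wd μ s (Tg h₀ K i) ≤ wd μ s (Tg h₀ K (i + m₂)) := by
  obtain ⟨J, n₁, H⟩ := hwo58 h
  refine ⟨J, n₁, fun h₀ K i m₂ hK hi hm hn => H _ _ hn ?_⟩
  rw [Tg_lt hi, mul_comm]
  refine Nat.mul_le_mul_left _ ?_
  exact (Nat.pow_le_pow_left hK J).trans (Nat.pow_le_pow_right (by omega) hm)

/-- `T + 1 ≤ n` at every level. -/
theorem T_lt58 {e e₀ : ℝ} {K Q x n : ℕ} (g : H8.GridN8 e e₀ K Q x n) (hK : 1 ≤ K) (he : e ≤ 1) (hn : 2 ≤ n) {i : ℕ} (hi : i ≤ m8 K e n + x) :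
    4 * (Tg (h8 Q e₀ n) K i : ℝ) ≤ (n : ℝ) ^ e ∧ Tg (h8 Q e₀ n) K i + 1 ≤ n := by
  have h1 : (Tg (h8 Q e₀ n) K i : ℝ) ≤ Tg (h8 Q e₀ n) K (m8 K e n + x) := by exact_mod_cast Tg_mono hK hi
  have h2 := g.TL
  have hn1 : (1 : ℝ) ≤ n := by exact_mod_cast (show 1 ≤ n by omega)
  have h3 : (n : ℝ) ^ e ≤ n := by
    calc (n : ℝ) ^ e ≤ (n : ℝ) ^ (1 : ℝ) := Real.rpow_le_rpow_of_exponent_le hn1 he
      _ = n := Real.rpow_one _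
  refine ⟨by linarith, ?_⟩
  have h4 : (4 : ℝ) * Tg (h8 Q e₀ n) K i ≤ n := by linarith
  have h5 : 4 * Tg (h8 Q e₀ n) K i ≤ n := by exact_mod_cast h4
  omega

/-- **THE TILT IS TINY OVER ONE BALL.** -/
theorem tiltG58 [IsProbabilityMeasure μ] {c₀ C₀ : ℝ} {n₀ : ℕ} (h : In μ s c₀ C₀ n₀)
    (hE9 : ∀ᶠ n : ℕ in Filter.atTop, (n : ℝ) ^ (1 / 9 : ℝ) ≤ EE μ s n)
    {e e₀ kap c δ κ : ℝ} (he : e ≤ 1 / 32) (hδ : 0 ≤ δ) (hk : 0 < kap) {K Q x : ℕ} (hK : 1 ≤ K) : ∀ᶠ n : ℕ in Filter.atTop, ∀ Γ : Cx,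
      H60.Adm μ s c δ κ n Γ → H8.GridN8 e e₀ K Q x n → ∀ i, i ≤ m8 K e n + x → |Γ.h| * Tg (h8 Q e₀ n) K i ≤ kap := by
  obtain ⟨_, ev⟩ := H60.tilt87 h hE9 (κ := κ) (c := c) he hδ hk
  filter_upwards [ev, Filter.eventually_ge_atTop 2] with n hn h2 Γ hA g i hi
  have h3 := (T_lt58 g hK (by linarith) h2 hi).1
  have h4 : (0 : ℝ) ≤ Tg (h8 Q e₀ n) K i := Nat.cast_nonneg _
  exact (hn Γ hA (Tg (h8 Q e₀ n) K i) (by linarith)).1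

/-- **THE LINE AT THE ROWS OF `inC10`**: `hQ` of `w35`. -/
theorem hQ58 {h₀ K L : ℕ} {G : Gd} (hG : G.Ok L) (hH : ∀ v, G.H v = Hg h₀ K v) {i : ℕ} (hi : 1 ≤ i) (hiL : i ≤ L) {q₀ : ℕ × ℤ}
    {S : Finset (ℕ × ℤ)} {Γ : Cx} {c0 n : ℕ} (h1 : c0 ≤ (G.z i q₀).1) (h2 : c0 + n = (G.z i q₀).1 + 5 * Tg h₀ K i / 8) :
    QF G i q₀ S 0 Γ.hi ⊆ Ico c0 (c0 + n) ×ˢ Icc (0 : ℤ) Γ.hi := by
  refine QF_rows hG hiL h1 ?_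
  have h3 := Tg_Hg (h₀ := h₀) (K := K) hi
  rw [hH, h2, h3]
  omega

end

end Pool.Agent.W_7d29a1_C1.Ge58
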