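import Pool.Agent.W_7d29a1_C1.FrU11
import Pool.Agent.W_7d29a1_C1.FrC11
import Pool.Agent.W_7d29a1_C1.FrP83
import Pool.Agent.W_7d29a1_C1.FrI35
import Pool.Agent.W_7d29a1_C1.Geo58

/-!
MP_7d29a1_pr, [C1] SHELL, THE FRESH BALL, (W): **ONE PLACE, WITH THE ORDER OF THE CONSTANTS** (helper11). `plc11` : `So47`, the lanes `LN83`
(helper83), the inside `FC35` (helper35), the exit `FXz24` (helper24), (InG) `InQ10` (helper10) and the geometry `Geo58` (helper58) give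
`1 / 4 ≤ ∑ b ∈ QF G i q₀ S 0 Γ.hi, Γ.w b ζ`.

ORDER: `In` | `d` | `PI`, `qI` (levels of `FC35`; `KI = 8`, `θI = 1/2`) | `PX`, `dX`, `UX`, `qX` (exit), `ell`, `u`, `D`, `be` (lanes) | `P`, `q₁`, `CL`, `Lx`, `cc`,
`Gx`, `mv`, `mh`, `C₂'` | `a = aW54 CL (UX + 2) Lx`, `gX ≥ cW54 Gx a` | `Qe`, `Pe`, `P₂ ≥ P, Pe, 1` | `Qx` | `Q₀ ≥ Qx`, `c₃₀ ≤ cc`, `K`, `m₂`, `φO`, `vO` |
`gO`, `GX`, `g1` | `n₁`.
-/

set_option autoImplicit false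

namespace Pool.Agent.W_7d29a1_C1.U11

open MeasureTheory Filter Topology Finset
open Pool.Agent.W_7d29a1_F Pool.Agent.W_7d29a1_h4g Pool.Agent.W_7d29a1_H Pool.Agent.W_7d29a1_HS
open Pool.Agent.W_7d29a1_C1
open Pool.Agent.W_7d29a1_C1.K91 (wt wt_pos)
open Pool.Agent.W_7d29a1_C1.T10 (Gd)
open Pool.Agent.W_7d29a1_C1.H60
open Pool.Agent.W_7d29a1_C1.H54
open Pool.Agent.W_7d29a1_C1.S12 (Lam12 Lam12_pos)
open Pool.Agent.W_7d29a1_C1.F74 (cl2)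
open Pool.Agent.W_7d29a1_C1.T10 (InQ10 QF QF_rows xm Tg)
open Pool.Agent.W_7d29a1_C1.JnC35 (ln35)
open Pool.Agent.W_7d29a1_C1.JnE35 (frI35)
open Pool.Agent.W_7d29a1_C1.FreC35 (FC35)
open Pool.Agent.W_7d29a1_C1.Fr47
open Pool.Agent.W_7d29a1_C1.Ge58 (Geo58)
open Pool.Agent.W_7d29a1_C1.P24
open Pool.Agent.W_7d29a1_C1.FarK89 (gr gr_nonneg AQ AQ_nonneg)
open Pool.Agent.W_7d29a1_C1.D31 (kap31)

noncomputable section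

/-- The level of the envelope of the exit. -/
def qE11 (PX : ℕ) (qX : ℝ) : ℝ := (qX + 2) * gr PX 64

/-- The level of the ends. -/
def c2_11 (c d : ℝ) (P PX : ℕ) (qX : ℝ) : ℝ :=
  qE11 PX qX * gr P (AQ P (c / 32) (qE11 PX qX) + d) + 0 + 2 * (d * (c / 524288))

/-- The move of the envelope of the row `c₀'` to the row `c₀`. -/
def mv11 (c d : ℝ) (P PX : ℕ) (qX q₁ : ℝ) : ℝ :=
  (qE11 PX qX + q₁) * gr P (AQ P (c / 32) (qE11 PX qX + q₁) + d) + (0 + 1) + c / 524288 * (d / 4)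

/-- **THE DATA OF ONE PLACE.** `κ` = the point of the middle column in the base row. -/
structure Pl11 (μ : Measure ℝ) (s c d : ℝ) (PI : ℕ) (qI : ℝ) (PX : ℕ) (dX UX qX : ℝ) (ell u D be gX gO GX Qe : ℝ) (Pe P₂ : ℕ)
    (c₁₀ c₃₀ Q₀ S₀ : ℝ) (Γ : Cx) (ζ : Env) (σ : NS47) (G : Gd) (i : ℕ) (q₀ : ℕ × ℤ) (S : Finset (ℕ × ℤ)) (TF n' n : ℕ) (κ : Pt) : Prop where
  eκ : κ = ((((G.z i q₀).1 : ℕ) : ℤ), xm G i q₀)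
  ok : Γ.Ok
  hs : Γ.s = s
  hh : 64 * (|Γ.h| * (σ.T i : ℕ)) ≤ 1
  so : ζ ∈ So47 Γ σ i (G.z i q₀)
  -- the rows
  T32 : 32 ∣ σ.T i
  he : σ.c0 i (G.z i q₀) + n' + n = (G.z i q₀).1 + rE24 (σ.T i)
  hn' : σ.T i ≤ 2 * n'
  hn : σ.T i ≤ 2 * n
  hnT : n ≤ σ.T i
  r1 : σ.c0 i (G.z i q₀) + n' ≤ (G.z i q₀).1
  r2 : (G.z i q₀).1 + G.H i ≤ σ.c0 i (G.z i q₀) + n' + n
  hH : G.H i ≤ σ.T i
  okG : ∃ L : ℕ, G.Ok L ∧ i ≤ L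
  hS : ∀ b, G.z i b = G.z i q₀ → b ∈ S
  -- the box
  geo : ∃ R gg : ℝ, gg ≤ d / 2 ∧ Geo58 μ s Γ G (σ.T i) i q₀ (max 1 (R + 1)) ∧ InQ10 μ s (1 / 8) d gg R
    ((xm G i q₀ : ℝ) - sl μ s * (((G.z i q₀).1 : ℝ) - (σ.c0 i (G.z i q₀) + n' : ℕ))) G i q₀ (σ.T i) (σ.c0 i (G.z i q₀) + n') n ζ
  -- the envelope and the cells of `So47`
  kap : ∃ ρ : ℝ, (xm G i q₀ : ℝ) = (G.z i q₀).2 + ρ ∧ σ.κ i = kap31 P₂ c₁₀ c₃₀ Q₀ S₀ (EE μ s (σ.T i)) (wd μ s (σ.T i))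
    (ρ + sl μ s * (1 - σ.T i)) (ρ + sl μ s * (1 + σ.T i)) (2 * σ.T i)
  a1 : 0 ≤ (G.z i q₀).2 + σ.α₁ i
  a2 : 0 ≤ (G.z i q₀).2 + σ.α₂ i
  b1 : (G.z i q₀).2 + σ.β₁ i ≤ Γ.k + σ.c0 i (G.z i q₀)
  b2 : (G.z i q₀).2 + σ.β₂ i ≤ Γ.k + σ.c0 i (G.z i q₀)
  ab : σ.β₁ i < σ.α₂ i
  cel : ∃ v : Bool → ℤ, ∀ j, v j ∈ cl83 σ i (G.z i q₀) j ∧
    |(v j : ℝ) - (ln35 μ s κ (σ.c0 i (G.z i q₀)) + ml11 d j * wd μ s (σ.T i))| ≤ 1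
  win : ∀ v : ℤ, |(v : ℝ) - ln35 μ s κ (σ.c3 i (G.z i q₀))| ≤ wd μ s (σ.T i) / 128 →
    (G.z i q₀).2 + σ.ζa i ≤ v ∧ v ≤ (G.z i q₀).2 + σ.ζb i
  zc : |(((G.z i q₀).2 + σ.ζc i : ℤ) : ℝ) - ln35 μ s κ (σ.c3 i (G.z i q₀))| ≤ wd μ s (σ.T i)
  V1 : 1 ≤ σ.V i
  Φ1 : 1 ≤ σ.Φ i
  e10 : 0 ≤ σ.e1 i
  e20 : 0 ≤ σ.e2 i
  -- the events
  ln : ∃ (Db : Bool → Finset ℤ) (t : Bool → ℤ) (A : ℝ), LN83 μ s c ζ κ (σ.c0 i (G.z i q₀)) n' (σ.T i) TF (cl83 σ i (G.z i q₀)) Db t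
    (fun j => ml11 d j * wd μ s (σ.T i)) ell u D 1 be gX gO Qe Pe A (d / 8 * wd μ s (σ.T i))
  fc : ∃ (uI : ℝ) (nB TB : ℕ) (aa aB zB z' : ℤ), ζ ∈ FC35 μ s c (1 / 2) 8 PI qI uI (σ.c0 i (G.z i q₀) + n') n (σ.T i) nB TB aa aB zB z' ∧
    |(aa : ℝ) - ln35 μ s κ (σ.c0 i (G.z i q₀) + n')| ≤ wd μ s (σ.T i)

variable {μ : Measure ℝ} [IsProbabilityMeasure μ] {s c C : ℝ} {n₀ : ℕ}

/-- **ONE PLACE.** -/
theorem plc11 (h0 : In μ s c C n₀) {d : ℝ} (hd : 0 < d) (hd1 : d ≤ 1) (PI : ℕ) {qI : ℝ} (hqI : 0 ≤ qI) {ell u D be : ℝ} (hell : 0 ≤ ell)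
    (hu : 0 ≤ u) (hD : 0 ≤ D) (hbe : 0 < be) (PX : ℕ) {dX UX qX : ℝ} (hdX : 0 < dX) (hdX3 : 3 * dX ≤ d) (hUX : 0 ≤ UX) (hqX : 0 ≤ qX) :
    ∃ (P : ℕ) (q₁ CL Lx cc Gx : ℝ), PX ≤ P ∧ 0 ≤ q₁ ∧ 0 ≤ CL ∧ 0 ≤ Lx ∧ 0 < cc ∧ cc ≤ c / 524288 ∧ 0 ≤ Gx ∧
    ∀ (gX Qe : ℝ) (Pe P₂ : ℕ), cW54 Gx (aW54 CL (UX + 2) Lx) ≤ gX → 0 ≤ Qe → P ≤ P₂ → Pe ≤ P₂ → 1 ≤ P₂ → ∃ Qx : ℝ, 0 ≤ Qx ∧
    ∀ (K m₂ : ℕ) (φO vO c₁₀ c₃₀ Q₀ S₀ : ℝ), 1 ≤ K → 0 ≤ φO → 0 ≤ vO → 0 ≤ c₃₀ → c₃₀ ≤ cc → Qx ≤ Q₀ → 0 ≤ S₀ →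
    ∀ (b gO GX KX g1 cX β uX : ℝ), b = bW54 (aW54 CL (UX + 2) Lx) (φO * (K : ℝ) ^ m₂) (vO * (K : ℝ) ^ m₂) (mv11 c d P PX qX q₁) (c / 262144) →
      oW54 Gx b (φO * (K : ℝ) ^ m₂) ≤ gO → xW54 (aW54 CL (UX + 2) Lx) b (c2_11 c d P PX qX) ≤ GX → eW54 b ≤ g1 → ∃ n₁ : ℕ, 1 ≤ n₁ ∧
    ∀ {Γ : Cx} {ζ : Env} {σ : NS47} {G : Gd} {i : ℕ} {q₀ : ℕ × ℤ} {S : Finset (ℕ × ℤ)} {h₀ TF n' n : ℕ} {κ : Pt}, n₁ ≤ TF → TF ≤ σ.T i →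
      σ.T i ≤ 4 * TF → σ.T i = Tg h₀ K i → 1 ≤ i →
      Pl11 μ s c d PI qI PX dX UX qX ell u D be gX gO GX Qe Pe P₂ c₁₀ c₃₀ Q₀ S₀ Γ ζ σ G i q₀ S TF n' n κ →
      FXz24 μ s c cX PX dX UX β qX GX KX 1 uX (σ.T i) κ ζ →
      σ.Φ i ≤ Real.exp (φO * EE μ s (Tg h₀ K (i + m₂))) → σ.V i ≤ Real.exp (vO * EE μ s (Tg h₀ K (i + m₂))) →
      σ.e1 i ≤ Real.exp (-(g1 * EE μ s (Tg h₀ K (i + m₂)))) →
      σ.e2 i ≤ Real.exp (-(5 * (aW54 CL (UX + 2) Lx * EE μ s (σ.T i)) + 8)) →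
      1 / 4 ≤ ∑ b ∈ QF G i q₀ S 0 Γ.hi, Γ.w b ζ := by
  have hc0 := h0.c0
  -- the constants
  obtain ⟨P₀, H1⟩ := frI35 h0 PI (θI := 1 / 2) (KI := 8) (by norm_num) (by norm_num)
  obtain ⟨q₁, CL, hq₁, hCL, H1⟩ := H1 qI u d (2 * D) 4 hqI hu hd.le (by linarith) (by linarith) (by norm_num)
  obtain ⟨m₁, hm₁, H1⟩ := H1 (c / 32) (c / 32) (c / 262144) (c / 524288) 1 (by linarith) (by linarith) (by linarith) (by linarith)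
    (by linarith) one_pos le_rfl
  obtain ⟨P, hP⟩ : ∃ P : ℕ, P = max P₀ PX := ⟨_, rfl⟩
  have hP0 : P₀ ≤ P := by rw [hP]; exact le_max_left _ _
  have hPX : PX ≤ P := by rw [hP]; exact le_max_right _ _
  obtain ⟨Q₂, hQ₂⟩ : ∃ Q₂ : ℝ, Q₂ = qE11 PX qX := ⟨_, rfl⟩
  have hQ20 : 0 ≤ Q₂ := by
    have := gr_nonneg PX (show (0 : ℝ) ≤ 64 by norm_num)
    rw [hQ₂]
    unfold qE11
    positivity
  obtain ⟨Lx, hLx, H2⟩ := frP83 h0 (ell := ell) (u := u) (D₀ := D) (Λ := 1) (be := be) hell hu hD zero_le_one hbe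
  obtain ⟨cc, Gx, -, hcc, hcc1, hcc2, hGx, m₂', hm₂', H2⟩ := H2 P (c / 32) (c / 524288) (Q₂ + q₁) (0 + 1) (by linarith) (by linarith)
    (by norm_num)
  refine ⟨P, q₁, CL, Lx, cc, Gx, hPX, hq₁, hCL.le, hLx, hcc, by linarith, hGx, fun gX Qe Pe P₂ hgX hQe hP2 hPe hP21 => ?_⟩
  obtain ⟨Qx, hQx, H2⟩ := H2 Qe Pe P₂ hQe hP2 hPe hP21
  refine ⟨Qx, hQx, fun K m₂ φO vO c₁₀ c₃₀ Q₀ S₀ hK hφO hvO hc₃₀ hc₃₀c hQ₀ hS₀ b gO GX KX g1 cX β uX hb hgO hGX hg1 => ?_⟩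
  obtain ⟨m₃, H3⟩ := frX24 (c' := cX) (P := PX) (U := UX) (β := β) (q := qX) (G := GX) (K := KX) (u := uX) (ρ := d) h0 hdX hdX3
  obtain ⟨m₄, H4⟩ := frC11 h0 hd
  obtain ⟨m₅, H5⟩ := xv24 (μ := μ) (s := s) h0 1 d
  obtain ⟨m₆, H6⟩ := eventually_atTop.1 (h0.tE.eventually_ge_atTop 8)
  obtain ⟨m₇, H7⟩ := eventually_atTop.1 ((wd_tendsto h0).eventually_ge_atTop (1 + 1 / d))
  obtain ⟨N₁, hN₁⟩ : ∃ N₁ : ℕ, N₁ = m₁ + m₂' + m₃ + m₄ + m₅ + m₆ + m₇ := ⟨_, rfl⟩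
  refine ⟨N₁, by omega, ?_⟩
  intro Γ ζ σ G i q₀ S h₀ TF n' n κ hTF hTT hT4 hT hi PL hXf sΦ sV s1 s2
  obtain ⟨eκ, hΓ, hs, hh, hη, hT32, he, hn', hn, hnT, r1, r2, hH, ⟨L, hGL, hiL⟩, hS, ⟨R, gg, hgg, hgeo, hInQ⟩, ⟨ρ, hρ, hκ⟩, ha1, ha2, hb1, hb2, hab,
    ⟨v, hv⟩, hwin, hzc, hV1, hΦ1, he10, he20, ⟨Db, t, A, hLN⟩, uI, nB, TB, aa, aB, zB, z', hFC, haa⟩ := PL
  subst eκ
  have hN : N₁ ≤ σ.T i := hTF.trans hTT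
  have hE8 : 8 ≤ EE μ s (σ.T i) := H6 _ (by omega)
  have hw1 : 1 + 1 / d ≤ wd μ s (σ.T i) := H7 _ (by omega)
  have hdi : 0 < 1 / d := by positivity
  have hw0 : 0 < wd μ s (σ.T i) := by linarith
  have hdw : 1 ≤ d * wd μ s (σ.T i) := by
    have g1 : 1 / d ≤ wd μ s (σ.T i) := by linarith
    have := mul_le_mul_of_nonneg_left g1 hd.le
    rwa [mul_one_div_cancel hd.ne'] at this
  have hdw' : d * wd μ s (σ.T i) ≤ 1 * wd μ s (σ.T i) := mul_le_mul_of_nonneg_right hd1 hw0.le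
  have hTz : σ.T i ≤ (G.z i q₀).1 := hη.1
  have hc3v : σ.c3 i (G.z i q₀) = (G.z i q₀).1 + σ.T i + 1 := rfl
  have hc0v : σ.c0 i (G.z i q₀) = (G.z i q₀).1 - σ.T i + 1 := rfl
  have hc3N : σ.c3 i (G.z i q₀) ≤ Γ.N := hgeo.hN
  obtain ⟨m, hm⟩ : ∃ m : ℕ, m = 6 * (σ.T i / 32) + 6 * (σ.T i / 32) := ⟨_, rfl⟩
  have hrow : σ.c0 i (G.z i q₀) + n' + n + (m + 1) = σ.c3 i (G.z i q₀) := by
    obtain ⟨k, hk⟩ := hT32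
    unfold rE24 at he
    rw [hc3v]
    omega
  have hrow2 : n' + (n + (m + 1)) = 2 * σ.T i := by
    rw [hc0v, hc3v] at hrow
    omega
  have hmT : m ≤ σ.T i := by omega
  have hT0 : (0 : ℝ) ≤ (σ.T i : ℕ) := Nat.cast_nonneg _
  have hh0 : 0 ≤ |Γ.h| := abs_nonneg _
  have hh1 : |Γ.h| * (σ.T i : ℕ) ≤ 1 := by nlinarith
  have hhm : |Γ.h| * m ≤ 1 := (mul_le_mul_of_nonneg_left (by exact_mod_cast hmT) hh0).trans hh1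
  have hh2 : |Γ.h| * (2 * σ.T i : ℕ) ≤ 1 := by
    push_cast
    nlinarith [mul_nonneg hh0 hT0]
  have hhn : 4 * (|Γ.h| * n) ≤ 1 / 8 := by
    have g1 : |Γ.h| * n ≤ |Γ.h| * (σ.T i : ℕ) := mul_le_mul_of_nonneg_left (by exact_mod_cast hnT) hh0
    nlinarith [mul_nonneg hh0 hT0]
  -- the windows
  have hcol : ∀ (k r : ℕ), (G.z i q₀).1 ≤ k + σ.T i → k + r = σ.c3 i (G.z i q₀) → ∀ x : ℤ,
      |(x : ℝ) - ln35 μ s ((((G.z i q₀).1 : ℕ) : ℤ), xm G i q₀) k| ≤ 1 * wd μ s (σ.T i) → 0 ≤ x ∧ x ≤ Γ.hi - (r : ℤ) := by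
    intro k r h1 h2 x h3
    obtain ⟨g1, g2⟩ := hgeo.col k x h1 (h3.trans (mul_le_mul_of_nonneg_right (le_max_left _ _) hw0.le))
    refine ⟨g1, ?_⟩
    unfold Cx.hi
    omega
  obtain ⟨w1, w2, w3, w4, w5, w6, w7, w8⟩ := H4 (σ.T i) (by omega) ((((G.z i q₀).1 : ℕ) : ℤ), xm G i q₀) (σ.c0 i (G.z i q₀)) n' n v t Db hn' hn
    (fun j => (hv j).2) (fun j => hLN.tt j) (fun j y hy => hLN.dD j y hy)
  have XW := H3 (σ.T i) (by omega) ((((G.z i q₀).1 : ℕ) : ℤ), xm G i q₀) ζ hXf Γ (σ.c0 i (G.z i q₀) + n' + n) m hs (by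
    show ((σ.c0 i (G.z i q₀) + n' + n : ℕ) : ℤ) = (((G.z i q₀).1 : ℕ) : ℤ) + rE24 (σ.T i)
    exact_mod_cast he) hm hhm
    (fun x hx => hcol _ _ (by omega) hrow x (hx.trans hdw')) (fun x hx => by
      have g1 := hcol (σ.c0 i (G.z i q₀) + n' + n + (m + 1)) 0 (by omega) (by omega) x (by linarith)
      simpa using g1)
  have hXW := XW.hX
  have hXU := XW.hδU
  rw [hrow] at hXW hXU
  -- the lanes
  have hDN : ∀ j, ∀ y ∈ Db j, |(y : ℝ) - ln35 μ s ((((G.z i q₀).1 : ℕ) : ℤ), xm G i q₀) (σ.c0 i (G.z i q₀) + n')| ≤ d * wd μ s (σ.T i) :=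
    fun j y hy => by
      cases j
      · exact w2 y (mem_union_left _ hy)
      · exact w2 y (mem_union_right _ hy)
  have hDS : ∀ j, ∀ y ∈ Db j, 0 ≤ y ∧ y ≤ Γ.hi - ((n + (m + 1) : ℕ) : ℤ) := fun j y hy =>
    hcol (σ.c0 i (G.z i q₀) + n') (n + (m + 1)) (by omega) (by omega) y ((hDN j y hy).trans hdw')
  have hζ := hcol (σ.c3 i (G.z i q₀)) 0 (by omega) (by omega) ((G.z i q₀).2 + σ.ζc i) (by rw [one_mul]; exact hzc)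
  have hΦ0 : 0 < σ.Φ i := by linarith
  have ha0 : 0 ≤ aW54 CL (UX + 2) Lx := by
    have := aW54_two hCL.le (show (0 : ℝ) ≤ UX + 2 by linarith) hLx
    linarith
  have hmv0 : 0 ≤ mv11 c d P PX qX q₁ := by
    unfold mv11
    rw [← hQ₂]
    have g1 := gr_nonneg P (add_nonneg (AQ_nonneg P (c / 32) (Q₂ + q₁)) hd.le)
    positivity
  have hφK : 0 ≤ φO * (K : ℝ) ^ m₂ := by positivity
  have hvK : 0 ≤ vO * (K : ℝ) ^ m₂ := by positivity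
  have hab0 : aW54 CL (UX + 2) Lx ≤ b := by
    rw [hb]
    exact bW54_ge hφK hvK hmv0 (by linarith)
  have hb0 : 0 ≤ b := ha0.trans hab0
  have hgX0 : 0 ≤ gX := (cW54_nn hGx ha0).trans hgX
  have hgO0 : 0 ≤ gO := (oW54_nn hGx hb0 hφK).trans hgO
  have hP' := H2 (Γ := Γ) (η := ζ) (σ := σ) (j := i) (z := G.z i q₀) (x₀ := xm G i q₀) (TF := TF) (n' := n') (n := n) (m := m) (Db := Db)
    (t := t) (τ := fun j => ml11 d j * wd μ s (σ.T i)) (ρ := ρ) (A := A) (r := d / 8 * wd μ s (σ.T i)) (g := gX) (G' := gO) (c₁' := c₁₀)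
    (c₃' := c₃₀) (Q₀ := Q₀) (S₀ := S₀) (Mh := σ.V i * Real.exp (c / 262144 * EE μ s (σ.T i)))
    (εc := Real.exp ((Gx - gX / 4) * EE μ s (σ.T i))) (εo := Real.exp ((Gx - gO / 4) * EE μ s (σ.T i)) * σ.Φ i)
    (by omega) hTT hT4 hs hh2 hη hc3N hrow hρ hκ hΦ0 hc₃₀ hc₃₀c hQ₀ hS₀ hgX0 hgO0 hLN ha1 ha2 hb1 hb2 hab
    (fun j y hy => by
      obtain ⟨g1, g2⟩ := hDS j y hy
      rw [mem_Icc]
      constructor <;> omega)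
    (disjoint_left.2 fun x hx hx' => lt_irrefl x (w1 x hx x hx'))
    (fun j y hy => H5 (σ.T i) (by omega) (n + (m + 1)) (by omega) _ (σ.c0 i (G.z i q₀) + n') y ((G.z i q₀).2 + σ.ζc i) (hDN j y hy) (by
      rw [show σ.c0 i (G.z i q₀) + n' + (n + (m + 1)) = σ.c3 i (G.z i q₀) by omega, one_mul]
      exact hzc))
    hζ.1 (by simpa using hζ.2) (by rw [one_mul]; exact hzc)
    (by
      have g1 := Real.exp_pos (c / 262144 * EE μ s (σ.T i))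
      rw [show 2 * (c / 524288) * 1 * EE μ s (σ.T i) = c / 262144 * EE μ s (σ.T i) by ring]
      exact le_mul_of_one_le_left g1.le hV1)
    le_rfl le_rfl
  have hk0 := k0_lit83 (μ := μ) (s := s) hTz hρ hκ
  rw [← hrow2] at hk0
  have hP := hP'
  rw [hk0] at hP
  -- the inside
  obtain ⟨zb, hzb1, hzb2⟩ := hLN.rb
  have hTF1 : 1 ≤ TF := by omega
  have hwF : wd μ s TF ≤ 2 * wd μ s (σ.T i) := Pool.Agent.W_7d29a1_C1.U16.wd_le_two h0 hTF1 hTT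
  have hθn : 1 / 2 * ((σ.T i : ℕ) : ℝ) ≤ n := by
    have g1 : ((σ.T i : ℕ) : ℝ) ≤ 2 * n := by exact_mod_cast hn
    linarith
  obtain ⟨I1, I2, I3, -⟩ := H1 (Γ := Γ) (η := ζ) (κ := ((((G.z i q₀).1 : ℕ) : ℤ), xm G i q₀)) (T := σ.T i) (TF := TF) (nB := nB) (TB := TB)
    (a := aa) (aB := aB) (zB := zB) (z' := z') (zr := zb) (uI := uI) (i := σ.c0 i (G.z i q₀) + n') (n := n) (by omega) hs hh1 hTF1 hTT hT4 hFC hnT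
    hθn haa hzb2 (hzb1.trans (by
      have := mul_le_mul_of_nonneg_left hwF hD
      linarith))
  have hq : 0 ≤ qE11 PX qX := hQ₂ ▸ hQ20
  have hE24e : ((σ.c0 i (G.z i q₀) + n' + n : ℕ) : ℤ) = (((G.z i q₀).1 : ℕ) : ℤ) + ((rE24 (σ.T i) : ℕ) : ℤ) := by exact_mod_cast he
  have hE24 : |((xm G i q₀ + cE24 μ s (σ.T i) : ℤ) : ℝ) - ln35 μ s ((((G.z i q₀).1 : ℕ) : ℤ), xm G i q₀) (σ.c0 i (G.z i q₀) + n' + n : ℕ)| ≤ 1 :=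
    a_near24 (κ := ((((G.z i q₀).1 : ℕ) : ℤ), xm G i q₀)) hE24e
  -- the slope
  have key := frU11 (μ := μ) (s := s) (h := Γ.h) (M := Γ.M) (Γ := Γ) (σ := σ) (j := i) (z := G.z i q₀) (η := ζ) (h₀ := h₀) (K := K) (m₂ := m₂)
    (Λ := Lam12 μ s Γ.h Γ.M (σ.c0 i (G.z i q₀)) n') (E := EE μ s (σ.T i)) (w := wd μ s (σ.T i)) (β := Db) (P := P) (P₂ := PX) (P₀ := P₂)
    (q := qE11 PX qX) (κ := c / 262144) (U := UX + 2) (G := GX) (Q₂ := qE11 PX qX) (S₂ := 0) (q₁ := q₁) (σ₁ := 1) (CL := CL) (ρ := d)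
    (C₂' := c2_11 c d P PX qX) (t2 := 5 * (aW54 CL (UX + 2) Lx * EE μ s (σ.T i)) + 8) (D₀ := d / 4) (u := v) (Lx := Lx) (Gx := Gx)
    (mh := c / 262144) (gX := gX) (gO := gO) (φO := φO) (vO := vO) (mv := mv11 c d P PX qX q₁) (g1 := g1) (ε' := 1 / 8 + 1 / 8)
    (v₀ := xm G i q₀ + cE24 μ s (σ.T i)) (x₀ := t false) (Q := QF G i q₀ S 0 Γ.hi)
    h0 hK hi (by rw [hT]) hΓ hη hrow hc3N (fun x y => by rw [hk0]) (hQx.trans hQ₀) hS₀ hc₃₀ (by linarith)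
    (by
      have g1 := QF_rows (S := S) (lo := 0) (hi' := Γ.hi) hGL hiL r1 r2
      exact g1)
    w1 he10 he20 (Lam12_pos _ _ _) (by rw [← hQ₂]; exact hP) hE8 hw0 hCL.le hq₁ zero_le_one
    (fun x y => I1 P hP0 _ _ _ _ m x y hq)
    (fun x hx => I2 x _ (w2 x hx) (hE24.trans hdw))
    (fun x hx => I3 _ x (w2 x hx)) hXW hPX hq le_rfl le_rfl le_rfl (by linarith) (by linarith)
    (fun x hx => by
      rcases mem_union.1 hx with g | g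
      · exact mem_Icc.2 (hDS _ x g)
      · exact mem_Icc.2 (hDS _ x g))
    XW.hδT hXU w2 XW.hδρ (mem_union_left _ (hLN.tD false)) (fun x hx => w8 _ (mem_union_left _ (hLN.tD false)) x (XW.hδρ x hx))
    (fun j => by
      have g1 := (hv j).1
      unfold cl2
      cases j
      · exact mem_union_left _ g1
      · exact mem_union_right _ g1)
    (fun j => by
      have g1 := (hv j).1
      cases j
      · exact (mem_Icc.1 g1).2.trans hb1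
      · exact (mem_Icc.1 g1).2.trans hb2)
    w6 w7 (fun x hx => hwin x (mem_dY24.1 hx)) hV1 hΦ1 hLx hGx hφO hvO hmv0 (by linarith)
    (by
      unfold c2_11
      have g1 := gr_nonneg P (add_nonneg (AQ_nonneg P (c / 32) (qE11 PX qX)) hd.le)
      positivity)
    le_rfl (by
      unfold mv11
      have g1 := mul_le_mul_of_nonneg_right (show c₃₀ ≤ c / 524288 by linarith) (show 0 ≤ d / 4 by linarith)
      linarith)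
    hgX (by rw [← hb]; exact hgO) (by rw [← hb]; exact hGX) (by rw [← hb]; exact hg1) sΦ sV s1 s2 le_rfl (by norm_num)
    (fun x hx x' hx' y hy y' hy' => by
      obtain ⟨g1, g2⟩ := w3 x hx
      obtain ⟨g3, g4⟩ := w4 x' hx'
      have g5 := mul_le_mul_of_nonneg_right hgg hw0.le
      exact ins11 rfl hs (by norm_num) (by norm_num) hhn rfl hInQ hS
        (hgeo.hwin hw0.le (le_max_right _ _) hH) x x' y y' g1 (by linarith) (by linarith) g4 (XW.hδρ y hy) (XW.hδρ y' hy'))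
  refine le_trans ?_ key
  norm_num

end

end Pool.Agent.W_7d29a1_C1.U11
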