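import Pool.Agent.W_7d29a1_C1.NumM17
import Pool.Agent.W_7d29a1_C1.NumI17
import Pool.Agent.W_7d29a1_C1.GeoI10
import Pool.Agent.W_7d29a1_C1.UniA16

/-!
MP_7d29a1_pr, [C1] SHELL, FRESH BALL, the numbers (helper7, hand of helper54): **THE UNITS OF TWO SCALES AND THE LAST CHOICE.**
`upE7`, `upW7` : the units of the scale `t + m` in the units of the scale `t`. `ch7` : after `C'`, `pw`, `m₀` and all the constants of the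
scale `t` (polynomial in `U`), `m₁` and `U` with `C' (m₀ + m₁ + 1) ^ pw ≤ U` and `A (1 + U) ^ p E (2 T_t) + 8 ≤ η E (T_(t + m₀ + m₁))`.
-/

set_option autoImplicit false

namespace Pool.Agent.W_7d29a1_C1.U7

open MeasureTheory ProbabilityTheory Filter Topology
open Pool.Agent.W_7d29a1_F Pool.Agent.W_7d29a1_h4g Pool.Agent.W_7d29a1_H Pool.Agent.W_7d29a1_HS
open Pool.Agent.W_7d29a1_C1.T10 (Tg Tg_pos Tg_lt Tg_mono)

noncomputable section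

variable {μ : Measure ℝ} [IsProbabilityMeasure μ] {s c C : ℝ} {n₀ h₀ K t : ℕ}

/-! ### The units -/

/-- Any two lengths within the factor `k`. -/
theorem E_le7 (h : In μ s c C n₀) {k m n : ℕ} (hk : 1 ≤ k) (hm : m ≤ k * n) : EE μ s m ≤ k * EE μ s n :=
  EE_le_mul h.em s hk hm

/-- **The unit of the scale `t + m`.** -/
theorem upE7 (h : In μ s c C n₀) (hK : 1 ≤ K) (ht : 1 ≤ t) (m : ℕ) :
    EE μ s (Tg h₀ K (t + m)) ≤ (K : ℝ) ^ m * EE μ s (Tg h₀ K t) := by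
  have h1 := E_le7 h (k := K ^ m) (m := Tg h₀ K (t + m)) (n := Tg h₀ K t) (Nat.one_le_pow _ _ hK) (by rw [Tg_lt ht, mul_comm])
  push_cast at h1
  exact h1

/-- The double lengths. -/
theorem upE7_two (h : In μ s c C n₀) (hK : 1 ≤ K) (ht : 1 ≤ t) (m : ℕ) :
    EE μ s (2 * Tg h₀ K (t + m)) ≤ (K : ℝ) ^ m * EE μ s (2 * Tg h₀ K t) := by
  have h1 := E_le7 h (k := K ^ m) (m := 2 * Tg h₀ K (t + m)) (n := 2 * Tg h₀ K t) (Nat.one_le_pow _ _ hK)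
    (le_of_eq (by rw [Tg_lt ht]; ring))
  push_cast at h1
  exact h1

theorem E_two7 (h : In μ s c C n₀) (T : ℕ) : EE μ s (2 * T) ≤ 2 * EE μ s T := by
  have h1 := E_le7 h (k := 2) (m := 2 * T) (n := T) (by norm_num) le_rfl
  push_cast at h1
  exact h1

theorem E_mono7 {m n : ℕ} (hmn : m ≤ n) : EE μ s m ≤ EE μ s n := EE_mono hmn

/-- Both scales in the unit `EE (T_t)`. -/
theorem upE7' (h : In μ s c C n₀) (hK : 1 ≤ K) (ht : 1 ≤ t) (m : ℕ) :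
    EE μ s (2 * Tg h₀ K (t + m)) ≤ 2 * (K : ℝ) ^ m * EE μ s (Tg h₀ K t) := by
  have h1 := upE7 (h₀ := h₀) h hK ht m
  have h2 := E_two7 h (Tg h₀ K (t + m))
  linarith

/-- **The width of the scale `t + m`.** -/
theorem upW7 (h : In μ s c C n₀) (hK : 1 ≤ K) (ht : 1 ≤ t) (hT : 1 ≤ Tg h₀ K t) (m : ℕ) :
    wd μ s (Tg h₀ K (t + m)) ≤ 2 * (K : ℝ) ^ m * wd μ s (Tg h₀ K t) := by
  have e : Tg h₀ K (t + m) = Tg h₀ K t * K ^ m := Tg_lt ht m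
  have h1 := U16.wd_le h hT (show Tg h₀ K t ≤ Tg h₀ K (t + m) from Tg_mono hK (Nat.le_add_right _ _))
  rw [e, ratio17 hT] at h1
  rw [e]
  exact h1

theorem loW7 (h : In μ s c C n₀) (hK : 1 ≤ K) (hT : 1 ≤ Tg h₀ K t) (m : ℕ) :
    wd μ s (Tg h₀ K t) ≤ 2 * wd μ s (Tg h₀ K (t + m)) :=
  U16.wd_le_two h hT (Tg_mono hK (Nat.le_add_right _ _))

/-- A size of the outer scale as a size of the inner scale. -/
theorem expE7 (h : In μ s c C n₀) (hK : 1 ≤ K) (ht : 1 ≤ t) (m : ℕ) {a : ℝ} (ha : 0 ≤ a) :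
    Real.exp (a * EE μ s (Tg h₀ K (t + m))) ≤ Real.exp (a * (K : ℝ) ^ m * EE μ s (Tg h₀ K t)) := by
  refine Real.exp_le_exp.2 ?_
  rw [mul_assoc]
  exact mul_le_mul_of_nonneg_left (upE7 h hK ht m) ha

/-- The same with the inner unit `EE (2 T_t)`. -/
theorem expE7_two (h : In μ s c C n₀) (hK : 1 ≤ K) (ht : 1 ≤ t) (m : ℕ) {a : ℝ} (ha : 0 ≤ a) :
    Real.exp (a * EE μ s (2 * Tg h₀ K (t + m))) ≤ Real.exp (a * (K : ℝ) ^ m * EE μ s (2 * Tg h₀ K t)) := by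
  refine Real.exp_le_exp.2 ?_
  rw [mul_assoc]
  exact mul_le_mul_of_nonneg_left (upE7_two h hK ht m) ha

/-! ### The last choice -/

/-- The power of the sum. -/
theorem pow_U7 {C' U : ℝ} {x p pw : ℕ} (hC : 1 ≤ C') (hx : 1 ≤ x) (hU : U = C' * (x : ℝ) ^ pw) :
    (1 + U) ^ p ≤ (2 * C') ^ p * (x : ℝ) ^ (pw * p) := by
  have hx1 : (1 : ℝ) ≤ x := by exact_mod_cast hx
  have h1 : (1 : ℝ) ≤ (x : ℝ) ^ pw := one_le_pow₀ hx1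
  have hU1 : 1 ≤ U := by
    rw [hU]
    exact one_le_mul_of_one_le_of_one_le hC h1
  calc (1 + U) ^ p ≤ (2 * U) ^ p := pow_le_pow_left₀ (by linarith) (by linarith) p
    _ = (2 * C') ^ p * (x : ℝ) ^ (pw * p) := by
        rw [hU, pow_mul, ← mul_pow]
        ring

/-- **THE LAST CHOICE**: every `m₁ ≥ M`, with `U = C' (m₀ + m₁ + 1) ^ pw` (so `g = 1`), beats every cost of the scale `T_t` which is
polynomial in `U`. -/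
theorem ch7 (h : In μ s c C n₀) (hK : 2 ≤ K) {A : ℝ} (hA : 0 ≤ A) (p : ℕ) {η : ℝ} (hη : 0 < η) (m₀ : ℕ) {C' : ℝ} (hC : 1 ≤ C')
    (pw : ℕ) : ∃ M n₁ : ℕ, 1 ≤ M ∧ 1 ≤ n₁ ∧ ∀ m₁ : ℕ, M ≤ m₁ → ∀ U : ℝ, U = C' * ((m₀ + m₁ + 1 : ℕ) : ℝ) ^ pw → 1 ≤ U ∧
      ∀ h₀ t : ℕ, 1 ≤ t → n₁ ≤ Tg h₀ K t →
        A * (1 + U) ^ p * EE μ s (2 * Tg h₀ K t) + 8 ≤ η * EE μ s (Tg h₀ K (t + (m₀ + m₁))) := by
  obtain ⟨a, k, n₁, -, hG⟩ := grE17 h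
  obtain ⟨X, hX⟩ : ∃ X : ℝ, X = (2 * A + 8) * (2 * C') ^ p := ⟨_, rfl⟩
  have hX0 : 0 ≤ X := by
    rw [hX]
    positivity
  obtain ⟨M, -, hM3, hM⟩ := hG.last3 hK hη hX0 (le_refl (0 : ℝ)) (pw * p) m₀ 0
  refine ⟨M, n₁, by omega, hG.n1, fun m₁ hm₁ U hU => ?_⟩
  have hx1 : (1 : ℝ) ≤ ((m₀ + m₁ + 1 : ℕ) : ℝ) := by exact_mod_cast (by omega : 1 ≤ m₀ + m₁ + 1)
  have hU1 : 1 ≤ U := by
    rw [hU]
    exact one_le_mul_of_one_le_of_one_le hC (one_le_pow₀ hx1)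
  refine ⟨hU1, fun h₀ t ht hT => ?_⟩
  obtain ⟨T, hTd⟩ : ∃ T : ℕ, T = Tg h₀ K t := ⟨_, rfl⟩
  have hT' : n₁ ≤ T := by rw [hTd]; exact hT
  have hE0 : 1 ≤ EE μ s T := one_le_EE T
  have hPU := pow_U7 (p := p) (pw := pw) hC (show 1 ≤ m₀ + m₁ + 1 by omega) hU
  have hq1 : 1 ≤ (1 + U) ^ p := one_le_pow₀ (by linarith)
  have h2 := E_two7 h T
  have h3 := hM m₁ hm₁ T hT'
  have hK1 : 1 ≤ K := by omega
  -- the unit of `T K ^ 2`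
  have h4 : EE μ s T ≤ EE μ s (T * K ^ 2) := E_mono7 (Nat.le_mul_of_pos_right T (Nat.pos_of_ne_zero (by positivity)))
  have h5 : EE μ s (T * K ^ m₁) ≤ EE μ s (Tg h₀ K (t + (m₀ + m₁))) := by
    refine E_mono7 ?_
    rw [Tg_lt ht, ← hTd]
    exact Nat.mul_le_mul_left _ (Nat.pow_le_pow_right hK1 (by omega))
  have e1 : (1 + (m₀ : ℝ) + m₁ + 0) = ((m₀ + m₁ + 1 : ℕ) : ℝ) := by
    push_cast
    ring
  rw [e1] at h3
  obtain ⟨x, hx⟩ : ∃ x : ℝ, x = ((m₀ + m₁ + 1 : ℕ) : ℝ) ^ (pw * p) := ⟨_, rfl⟩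
  rw [← hx] at h3 hPU
  have hx0 : 0 ≤ x := by
    rw [hx]
    positivity
  rw [← hTd]
  have h6 : A * (1 + U) ^ p * EE μ s (2 * T) + 8 ≤ (2 * A + 8) * (1 + U) ^ p * EE μ s T := by
    have a1 : A * (1 + U) ^ p * EE μ s (2 * T) ≤ A * (1 + U) ^ p * (2 * EE μ s T) :=
      mul_le_mul_of_nonneg_left h2 (by positivity)
    have a2 : (1 : ℝ) ≤ (1 + U) ^ p * EE μ s T := one_le_mul_of_one_le_of_one_le hq1 hE0
    calc A * (1 + U) ^ p * EE μ s (2 * T) + 8 ≤ A * (1 + U) ^ p * (2 * EE μ s T) + 8 * ((1 + U) ^ p * EE μ s T) := by linarith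
      _ = (2 * A + 8) * (1 + U) ^ p * EE μ s T := by ring
  have h7 : (2 * A + 8) * (1 + U) ^ p * EE μ s T ≤ X * x * EE μ s (T * K ^ 2) := by
    rw [hX]
    calc (2 * A + 8) * (1 + U) ^ p * EE μ s T ≤ (2 * A + 8) * ((2 * C') ^ p * x) * EE μ s (T * K ^ 2) := by
          refine mul_le_mul (mul_le_mul_of_nonneg_left hPU (by linarith)) h4 (by linarith) (by positivity)
      _ = (2 * A + 8) * (2 * C') ^ p * x * EE μ s (T * K ^ 2) := by ring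
  have h8 : η / 32 * EE μ s (T * K ^ m₁) ≤ η * EE μ s (Tg h₀ K (t + (m₀ + m₁))) := by
    have a1 : 1 ≤ EE μ s (T * K ^ m₁) := one_le_EE _
    calc η / 32 * EE μ s (T * K ^ m₁) ≤ η * EE μ s (T * K ^ m₁) := mul_le_mul_of_nonneg_right (by linarith) (by linarith)
      _ ≤ _ := mul_le_mul_of_nonneg_left h5 hη.le
  linarith

/-- **THE LAST CHOICE** in the form of `FrS8`: `m₁`, `g = 1`, `U`. -/
theorem ch7_ex (h : In μ s c C n₀) (hK : 2 ≤ K) {A : ℝ} (hA : 0 ≤ A) (p : ℕ) {η : ℝ} (hη : 0 < η) (m₀ M₁ : ℕ) {C' : ℝ} (hC : 1 ≤ C')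
    (pw : ℕ) : ∃ (m₁ g : ℕ) (U : ℝ), M₁ ≤ m₁ ∧ 1 ≤ m₁ ∧ 1 ≤ g ∧ 1 ≤ U ∧ C' * ((m₀ + m₁ + g : ℕ) : ℝ) ^ pw ≤ U ∧
      ∃ n₁ : ℕ, 1 ≤ n₁ ∧ ∀ h₀ t : ℕ, 1 ≤ t → n₁ ≤ Tg h₀ K t →
        A * (1 + U) ^ p * EE μ s (2 * Tg h₀ K t) + 8 ≤ η * EE μ s (Tg h₀ K (t + (m₀ + m₁))) := by
  obtain ⟨M, n₁, hM, hn₁, H⟩ := ch7 h hK hA p hη m₀ hC pw
  obtain ⟨hU, H⟩ := H (max M M₁) (le_max_left _ _) _ rfl
  exact ⟨max M M₁, 1, _, le_max_right _ _, hM.trans (le_max_left _ _), le_rfl, hU, le_rfl, n₁, hn₁, H⟩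

end

end Pool.Agent.W_7d29a1_C1.U7
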