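import Pool.Agent.W_7d29a1_C1.JnH35
import Pool.Agent.W_7d29a1_C1.NumU7

/-!
Both halves (MP_7d29a1_pr), attractor route [C1]: THE NUMBERS OF THE FRESH BALL (W) FROM THE CONSTANTS. (helper54)

Order of the constants, all `≥ 0`, in ONE unit `E`:
* before `m₁` : `CL` (inside), `UX` (exit), `Lx`, `Gx` (`pshC83`) | `a := aW54 CL UX Lx` | crossing wall `cW54 Gx a`;
* after `m₁`, `q₁` : `φ` (`Φ₀ ≤ e^(φ E)`), `v` (`V ≤ e^(v E)`), `mv` (envelope of the row `c0'` against the row `c0`), `mh` (`Mh`), `C₂` |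
  `b := bW54 a φ v mv mh` | outer wall `oW54 Gx b φ`, exit wall `xW54 a b C₂`, far part `eW54 b`.
`w54` : `w35b` with every number discharged.
-/

set_option autoImplicit false

namespace Pool.Agent.W_7d29a1_C1.H54

open Finset
open Pool.Agent.W_7d29a1_F (Env)
open Pool.Agent.W_7d29a1_C1.K91 (Grp Box wt wt_pos)
open Pool.Agent.W_7d29a1_C1.K91P
open Pool.Agent.W_7d29a1_C1.U16 (ker)
open Pool.Agent.W_7d29a1_C1.Bx47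
open Pool.Agent.W_7d29a1_C1.S83
open Pool.Agent.W_7d29a1_C1.FarK89 (gr AQ)
open Pool.Agent.W_7d29a1_C1.H60
open Pool.Agent.W_7d29a1_C1.Fr47
open Pool.Agent.W_7d29a1_C1.JnE35
open Pool.Agent.W_7d29a1_C1.D31 (kap31)

noncomputable section

/-! ### The constants -/

/-- **Before `m₁`** : inside `CL`, exit `UX`, lanes `Lx`. -/
def aW54 (CL UX Lx : ℝ) : ℝ := 2 * CL + 2 * UX + 2 + 2 * Lx

/-- **The crossing wall** of the lanes (before `m₁`). -/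
def cW54 (Gx a : ℝ) : ℝ := 4 * (Gx + 3 * a + 2)

/-- **After `m₁`** : `φ` size of the slope, `v` lower window of the future, `mv` the move of the envelope, `mh` the cells. -/
def bW54 (a φ v mv mh : ℝ) : ℝ := a + 2 * φ + 2 * mv + 2 * v + mh

/-- **The outer wall** of the lanes. -/
def oW54 (Gx b φ : ℝ) : ℝ := 4 * (Gx + 9 * b + 2 + φ)

/-- **The exit wall.** -/
def xW54 (a b C₂ : ℝ) : ℝ := 9 * b + 2 + a + C₂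

/-- **The far part** of the seam at the row `c0`. -/
def eW54 (b : ℝ) : ℝ := 9 * b + 2

theorem aW54_two {CL UX Lx : ℝ} (h1 : 0 ≤ CL) (h2 : 0 ≤ UX) (h3 : 0 ≤ Lx) : 2 ≤ aW54 CL UX Lx := by
  unfold aW54
  linarith

theorem cW54_nn {Gx a : ℝ} (h1 : 0 ≤ Gx) (h2 : 0 ≤ a) : 0 ≤ cW54 Gx a := by
  unfold cW54
  linarith

theorem bW54_ge {a φ v mv mh : ℝ} (h1 : 0 ≤ φ) (h2 : 0 ≤ v) (h3 : 0 ≤ mv) (h4 : 0 ≤ mh) : a ≤ bW54 a φ v mv mh := by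
  unfold bW54
  linarith

theorem oW54_nn {Gx b φ : ℝ} (h1 : 0 ≤ Gx) (h2 : 0 ≤ b) (h3 : 0 ≤ φ) : 0 ≤ oW54 Gx b φ := by
  unfold oW54
  linarith

theorem xW54_nn {a b C₂ : ℝ} (h1 : 0 ≤ a) (h2 : 0 ≤ b) (h3 : 0 ≤ C₂) : 0 ≤ xW54 a b C₂ := by
  unfold xW54
  linarith

theorem eW54_nn {b : ℝ} (h : 0 ≤ b) : 0 ≤ eW54 b := by
  unfold eW54
  linarith

variable {μ : MeasureTheory.Measure ℝ} {s h : ℝ} {η : Env} {M : ℕ} {Γ : Cx} {C₁ C₂ β₁ β₂ δ δ' : Finset ℤ} {ph : ℤ → ℝ}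
  {Mh εc εo A₁ A₂ V Φ₀ Φ G₀ Λ : ℝ} {P₂ P : ℕ} {q κ UX G E w ce cz ci c₁ c₃ c₃' Q₂ S₂ q₁ σ CL ρ C₂' t2 : ℝ} {v₀ : ℤ}

/-- **THE WEIGHT OF THE BALL, EVERY NUMBER DISCHARGED.** -/
theorem w54 {Lx Gx φ v mv mh gX gO g1 : ℝ} (hk : 1 ≤ Γ.k) (hq0 : ∀ j, j < Γ.k → 0 ≤ Γ.q j) (hq1 : ∃ j, j < Γ.k ∧ 0 < Γ.q j) {c₀ n' n m : ℕ}
    (hN : c₀ + n' + n + (m + 1) ≤ Γ.N) {Q : Finset (ℕ × ℤ)}
    (hQ : Q ⊆ Ico (c₀ + n') (c₀ + n' + n) ×ˢ Icc (0 : ℤ) Γ.hi)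
    (hlt : ∀ x ∈ β₁, ∀ x' ∈ β₂, x < x') {e1 e2 : ℝ} (he1 : 0 ≤ e1) (he2 : 0 ≤ e2) (hΛ : 0 < Λ)
    (hS : SeamI (Icc 0 Γ.hi) C₁ C₂ (fw (wt η) Γ.p Cx.l c₀) (fw (wt η) Γ.p Γ.r c₀) ph e1 e2)
    (hP : PshT (Icc 0 Γ.hi) (Icc 0 Γ.hi) C₁ C₂ β₁ β₂ (fun x y => ker (wt η) Γ.p c₀ n' x y / Λ) ph
      (jph (Icc 0 Γ.hi) (kap31 P c₁ c₃' (Q₂ + q₁) (S₂ + σ) E w ci cz (n + (m + 1))) (G47 μ s h η Γ.p M Γ.N (c₀ + n') n m) G₀)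
      A₁ A₂ (Real.exp (Lx * E)) Φ₀ Mh 1 εc εo)
    -- the inside
    (hE8 : 8 ≤ E) (hw : 0 < w) (hCL : 0 ≤ CL) (hq₁ : 0 ≤ q₁) (hσ : 0 ≤ σ)
    (comp : ∀ x z : ℤ, ∑ y ∈ Icc (0 : ℤ) (Γ.hi - ((m + 1 : ℕ) : ℤ)), K147 μ s h η Γ.p M (c₀ + n') n x y *
      kap31 P c₁ c₃ Q₂ S₂ E w ce cz (m + 1) y z ≤ kap31 P c₁ c₃' (Q₂ + q₁) (S₂ + σ) E w ci cz (n + (m + 1)) x z)
    (lo1 : ∀ x ∈ β₁ ∪ β₂, 1 ≤ Real.exp (CL * E) * ∑ y ∈ ({v₀} : Finset ℤ), K147 μ s h η Γ.p M (c₀ + n') n x y)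
    (up1 : ∀ x ∈ β₁ ∪ β₂, ∑ y ∈ δ, K147 μ s h η Γ.p M (c₀ + n') n x y ≤ Real.exp (CL * E) * 1)
    -- the exit
    (hX : Ex35 P₂ q κ UX G E w ce cz v₀ (m + 1) δ δ' (K247 μ s h η Γ.p M (c₀ + n' + n) m)) (hPP : P₂ ≤ P) (hq : 0 ≤ q) (hqQ : q ≤ Q₂)
    (hS₂ : 0 ≤ S₂) (hc₃ : c₃ ≤ κ) (hc₃' : 0 ≤ c₃') (h3 : c₃' ≤ c₃) (hU : 0 ≤ UX)
    -- the windows
    (hβS : β₁ ∪ β₂ ⊆ Icc 0 (Γ.hi - (n + (m + 1) : ℕ))) (hδT : δ ⊆ Icc 0 (Γ.hi - ((m + 1 : ℕ) : ℤ))) (hδU : δ' ⊆ Icc 0 Γ.hi)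
    (hβρ : ∀ x ∈ β₁ ∪ β₂, |(x : ℝ) - ci| ≤ ρ * w) (hδρ : ∀ v ∈ δ, |(v : ℝ) - ce| ≤ ρ * w) {x₀ : ℤ} (hx₀ : x₀ ∈ β₁ ∪ β₂)
    (hxv : ∀ v ∈ δ, x₀ ≤ v ∧ v ≤ x₀ + n)
    -- the future
    (hV : 1 ≤ V) (hΦ : 1 ≤ Φ) (hG₀ : 0 < G₀) (loG : ∀ z ∈ δ', G₀ ≤ V * G47 μ s h η Γ.p M Γ.N (c₀ + n') n m z)
    (phi : ∀ x ∈ β₁ ∪ β₂, ∑ z ∈ Icc 0 Γ.hi, kap31 P c₁ c₃' (Q₂ + q₁) (S₂ + σ) E w ci cz (n + (m + 1)) x z *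
      G47 μ s h η Γ.p M Γ.N (c₀ + n') n m z ≤ Φ * G₀)
    -- the constants
    (hLx : 0 ≤ Lx) (hφ : 0 ≤ φ) (hv : 0 ≤ v) (hmv : 0 ≤ mv) (hmh : 0 ≤ mh) (hC₂' : 0 ≤ C₂')
    (hC₂ : Q₂ * gr P (AQ P c₁ Q₂ + ρ) + S₂ + 2 * (ρ * c₃') ≤ C₂')
    (kX : cW54 Gx (aW54 CL UX Lx) ≤ gX) (kO : oW54 Gx (bW54 (aW54 CL UX Lx) φ v mv mh) φ ≤ gO)
    (kG : xW54 (aW54 CL UX Lx) (bW54 (aW54 CL UX Lx) φ v mv mh) C₂' ≤ G) (k1 : eW54 (bW54 (aW54 CL UX Lx) φ v mv mh) ≤ g1)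
    -- the sizes
    (sΦ₀ : Φ₀ ≤ Real.exp (φ * E)) (sV : V ≤ Real.exp (v * E)) (sΦ : Φ ≤ Real.exp ((mv + φ) * E)) (sM : Mh ≤ Real.exp ((v + mh) * E))
    (sc : εc ≤ Real.exp ((Gx - gX / 4) * E)) (so : εo ≤ Real.exp ((Gx - gO / 4) * E) * Φ₀) (s1 : e1 ≤ Real.exp (-(g1 * E)))
    (s2 : e2 ≤ Real.exp (-t2)) (k2 : 5 * (aW54 CL UX Lx * E) + 8 ≤ t2)
    {ε' : ℝ} (hε' : ε' ≤ 1)
    (hin : ∀ x ∈ β₁, ∀ x' ∈ β₂, ∀ y ∈ δ, ∀ y' ∈ δ,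
      (1 - ε') * (ker (wt η) Γ.p (c₀ + n') n x y * ker (wt η) Γ.p (c₀ + n') n x' y') ≤
        mq (wt η) Γ.p Q (c₀ + n') n x x' y y') :
    (1 - ε') * (7 / 8) ≤ ∑ c ∈ Q, Γ.w c η := by
  obtain ⟨a, ha⟩ : ∃ a, a = aW54 CL UX Lx := ⟨_, rfl⟩
  obtain ⟨b, hb⟩ : ∃ b, b = bW54 a φ v mv mh := ⟨_, rfl⟩
  rw [← ha] at kX kO kG k1 k2
  rw [← hb] at kO kG k1
  have E0 : 0 ≤ E := by linarith
  have hΦ₀ := hP.Lk0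
  unfold aW54 at ha
  unfold bW54 at hb
  unfold cW54 at kX
  unfold oW54 at kO
  unfold xW54 at kG
  unfold eW54 at k1
  have ha2 : 2 ≤ a := by linarith
  have hab : a ≤ b := by linarith
  have up : ∀ {x y : ℝ}, x ≤ y → Real.exp (x * E) ≤ Real.exp (y * E) := fun {x y} hxy =>
    Real.exp_le_exp.2 (mul_le_mul_of_nonneg_right hxy E0)
  have half : ∀ {x y : ℝ}, 2 * x ≤ y → Real.exp (x * E) ≤ Real.exp (y * E / 2) := fun {x y} hxy => by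
    refine Real.exp_le_exp.2 ?_
    have := mul_le_mul_of_nonneg_right hxy E0
    linarith
  refine w35b (a := a) (b := b) (g1 := 9 * b + 2) (gc := 3 * a + 2) (go := 9 * b + 2) (t2 := t2) (V := V) (Φ := Φ) (C₂' := C₂')
    (q₁ := q₁) (σ := σ) (Q₂ := Q₂) (S₂ := S₂) (x₀ := x₀) hk hq0 hq1 hN hQ hlt he1 he2 hΛ hS hP hE8 hw hCL hq₁ hσ comp lo1 up1 hX hPP hq
    hqQ hS₂ hc₃ hc₃' h3 hU hβS hδT hδU hβρ hδρ hx₀ hxv hV hΦ hG₀ loG phi hC₂ hab (by linarith) (by linarith) (half (by linarith)) ?_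
    (sΦ₀.trans (up (by linarith))) (sM.trans (up (by linarith))) (sV.trans (half (by linarith))) (sΦ.trans (half (by linarith)))
    (by linarith) (by linarith) le_rfl le_rfl le_rfl k2 ?_ ?_ (s1.trans (Real.exp_le_exp.2 ?_)) s2 hε' hin
  · exact Real.one_le_exp (by positivity)
  · refine sc.trans (Real.exp_le_exp.2 ?_)
    have := mul_le_mul_of_nonneg_right (show Gx - gX / 4 ≤ -(3 * a + 2) by linarith) E0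
    linarith
  · calc εo ≤ Real.exp ((Gx - gO / 4) * E) * Φ₀ := so
      _ ≤ Real.exp ((Gx - gO / 4) * E) * Real.exp (φ * E) := mul_le_mul_of_nonneg_left sΦ₀ (Real.exp_pos _).le
      _ = Real.exp ((Gx - gO / 4 + φ) * E) := by
        rw [← Real.exp_add]
        congr 1
        ring
      _ ≤ _ := by
        refine Real.exp_le_exp.2 ?_
        have := mul_le_mul_of_nonneg_right (show Gx - gO / 4 + φ ≤ -(9 * b + 2) by linarith) E0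
        linarith
  · have := mul_le_mul_of_nonneg_right (show 9 * b + 2 ≤ g1 from k1) E0
    linarith

/-! ### Two units -/

section Two

open MeasureTheory
open Pool.Agent.W_7d29a1_H Pool.Agent.W_7d29a1_HS
open Pool.Agent.W_7d29a1_C1.T10 (Tg)
open Pool.Agent.W_7d29a1_C1.U7

variable {μ : Measure ℝ} [IsProbabilityMeasure μ] {s c C : ℝ} {n₀ h₀ K t m₂ : ℕ}

/-- A size of the outer scale as a size of the inner scale. -/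
theorem upE54 (h : In μ s c C n₀) (hK : 1 ≤ K) (ht : 1 ≤ t) {a X : ℝ} (ha : 0 ≤ a)
    (hX : X ≤ Real.exp (a * EE μ s (Tg h₀ K (t + m₂)))) : X ≤ Real.exp (a * (K : ℝ) ^ m₂ * EE μ s (Tg h₀ K t)) :=
  hX.trans (expE7 h hK ht m₂ ha)

/-- The units grow. -/
theorem monoE54 (hK : 1 ≤ K) : EE μ s (Tg h₀ K t) ≤ EE μ s (Tg h₀ K (t + m₂)) := E_mono7 (T10.Tg_mono hK (Nat.le_add_right _ _))

/-- An error of the outer scale as an error of the inner scale. -/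
theorem dnE54 (hK : 1 ≤ K) {g X : ℝ} (hg : 0 ≤ g) (hX : X ≤ Real.exp (-(g * EE μ s (Tg h₀ K (t + m₂))))) :
    X ≤ Real.exp (-(g * EE μ s (Tg h₀ K t))) := by
  refine hX.trans (Real.exp_le_exp.2 ?_)
  have := mul_le_mul_of_nonneg_left (monoE54 (μ := μ) (s := s) (h₀ := h₀) (K := K) (t := t) (m₂ := m₂) hK) hg
  linarith

/-- **THE LAST CHOICE** : every cost `x ≤ A (1 + U) ^ p` in the unit `EE (T_t)` (or `EE (2 T_t)`) is beaten by `η` in the unit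
`EE (T_(t + m₀ + m₁))`. -/
theorem last54 (h : In μ s c C n₀) (hK : 2 ≤ K) {A : ℝ} (hA : 0 ≤ A) (p : ℕ) {η : ℝ} (hη : 0 < η) (m₀ M₁ : ℕ) {C' : ℝ}
    (hC : 1 ≤ C') (pw : ℕ) : ∃ (m₁ g : ℕ) (U : ℝ), M₁ ≤ m₁ ∧ 1 ≤ m₁ ∧ 1 ≤ g ∧ 1 ≤ U ∧ C' * ((m₀ + m₁ + g : ℕ) : ℝ) ^ pw ≤ U ∧
      ∃ n₁ : ℕ, 1 ≤ n₁ ∧ ∀ x : ℝ, 0 ≤ x → x ≤ A * (1 + U) ^ p → ∀ h₀ t : ℕ, 1 ≤ t → n₁ ≤ Tg h₀ K t →
        x * EE μ s (2 * Tg h₀ K t) + 8 ≤ η * EE μ s (Tg h₀ K (t + (m₀ + m₁))) ∧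
        x * EE μ s (Tg h₀ K t) + 8 ≤ η * EE μ s (Tg h₀ K (t + (m₀ + m₁))) := by
  obtain ⟨m₁, g, U, h1, h2, h3, h4, h5, n₁, hn, H⟩ := ch7_ex h hK hA p hη m₀ M₁ hC pw
  refine ⟨m₁, g, U, h1, h2, h3, h4, h5, n₁, hn, fun x hx0 hx h₀ t ht hT => ?_⟩
  have h6 := H h₀ t ht hT
  have h7 : 1 ≤ EE μ s (2 * Tg h₀ K t) := one_le_EE _
  have h8 : EE μ s (Tg h₀ K t) ≤ EE μ s (2 * Tg h₀ K t) := E_mono7 (by omega)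
  have h9 := mul_le_mul_of_nonneg_right hx (zero_le_one.trans h7)
  have h10 := mul_le_mul_of_nonneg_left h8 hx0
  exact ⟨by linarith, by linarith⟩

/-- **THE SIZES OF `w54` IN THE UNIT `EE (T_t)`** from the sizes of `So47` in the unit `EE (T_(t + m₂))` (`φ := φO K ^ m₂`, `v := vO K ^ m₂`). -/
theorem szW54 (h : In μ s c C n₀) (hK : 1 ≤ K) (ht : 1 ≤ t) {φO vO mv mh g1 Φ₀ V Φ Mh e1 : ℝ} (hφ : 0 ≤ φO) (hv : 0 ≤ vO) (hg : 0 ≤ g1)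
    (sΦ₀ : Φ₀ ≤ Real.exp (φO * EE μ s (Tg h₀ K (t + m₂)))) (sV : V ≤ Real.exp (vO * EE μ s (Tg h₀ K (t + m₂))))
    (sΦ : Φ ≤ Real.exp (mv * EE μ s (Tg h₀ K t)) * Φ₀) (sM : Mh ≤ V * Real.exp (mh * EE μ s (Tg h₀ K t)))
    (s1 : e1 ≤ Real.exp (-(g1 * EE μ s (Tg h₀ K (t + m₂))))) :
    Φ₀ ≤ Real.exp (φO * (K : ℝ) ^ m₂ * EE μ s (Tg h₀ K t)) ∧ V ≤ Real.exp (vO * (K : ℝ) ^ m₂ * EE μ s (Tg h₀ K t)) ∧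
    Φ ≤ Real.exp ((mv + φO * (K : ℝ) ^ m₂) * EE μ s (Tg h₀ K t)) ∧ Mh ≤ Real.exp ((vO * (K : ℝ) ^ m₂ + mh) * EE μ s (Tg h₀ K t)) ∧
    e1 ≤ Real.exp (-(g1 * EE μ s (Tg h₀ K t))) := by
  have u1 := upE54 h hK ht hφ sΦ₀
  have u2 := upE54 h hK ht hv sV
  refine ⟨u1, u2, ?_, ?_, dnE54 hK hg s1⟩
  · refine sΦ.trans ((mul_le_mul_of_nonneg_left u1 (Real.exp_pos _).le).trans (le_of_eq ?_))
    rw [← Real.exp_add]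
    congr 1
    ring
  · refine sM.trans ((mul_le_mul_of_nonneg_right u2 (Real.exp_pos _).le).trans (le_of_eq ?_))
    rw [← Real.exp_add]
    congr 1
    ring

/-- The tuning of the outer scale in the two forms: `w35b` and the closeness. -/
theorem tun54 {E Eo g₁ a x e2 : ℝ} (ha : 5 * a * E + 8 ≤ g₁ * Eo) (hx : x * E + 8 ≤ g₁ * Eo) (h2 : e2 ≤ Real.exp (-(g₁ * Eo))) :
    5 * (a * E) + 8 ≤ g₁ * Eo ∧ e2 ≤ Real.exp (-(x * E)) :=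
  ⟨by linarith, h2.trans (Real.exp_le_exp.2 (by linarith))⟩

end Two

end

end Pool.Agent.W_7d29a1_C1.H54
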