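import Pool.Agent.W_7d29a1_C1.FrW47
import Pool.Agent.W_7d29a1_C1.NumW54

/-!
MP_7d29a1_pr, [C1] SHELL, THE FRESH BALL, (W): **THE WEIGHT OF THE BOX FROM THE SET `So47`, EVERY NUMBER DISCHARGED** at the grid `T_j = Tg h₀ K j`.
(helper11) `frU11` : `frW0` of helper47 with the numbers of `NumW54` (helper54): `L = e^(Lx E)`, `Lk = Φ`, `Mh = V e^(mh E)`, `εc`, `εo` in the form
of `pshC83`, the sizes of `So47` in the unit `E_o = EE (T_(j + m₂))`.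
-/

set_option autoImplicit false

namespace Pool.Agent.W_7d29a1_C1.U11

open MeasureTheory Finset
open Pool.Agent.W_7d29a1_F Pool.Agent.W_7d29a1_h4g Pool.Agent.W_7d29a1_H Pool.Agent.W_7d29a1_HS
open Pool.Agent.W_7d29a1_C1.K91 (wt wt_pos)
open Pool.Agent.W_7d29a1_C1.K91P
open Pool.Agent.W_7d29a1_C1.U16 (ker)
open Pool.Agent.W_7d29a1_C1.Bx47
open Pool.Agent.W_7d29a1_C1.S83
open Pool.Agent.W_7d29a1_C1.F74 (cl2)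
open Pool.Agent.W_7d29a1_C1.H60
open Pool.Agent.W_7d29a1_C1.H54
open Pool.Agent.W_7d29a1_C1.T10 (Tg)
open Pool.Agent.W_7d29a1_C1.JnE35 (Ex35)
open Pool.Agent.W_7d29a1_C1.Fr47
open Pool.Agent.W_7d29a1_C1.FarK89 (gr gr_nonneg AQ AQ_nonneg)
open Pool.Agent.W_7d29a1_C1.D31 (kap31)

noncomputable section

variable {μ : Measure ℝ} [IsProbabilityMeasure μ] {s h c C : ℝ} {n₀ : ℕ} {η : Env} {M : ℕ} {Γ : Cx} {σ : NS47} {j : ℕ} {z : ℕ × ℤ}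
  {δ δ' : Finset ℤ} {β : Bool → Finset ℤ} {A₁ A₂ Λ : ℝ} {P₂ P P₀ : ℕ}
  {q κ U G E w ce cz ci cA c₁ c₃ c₃' Q₂ S₂ q₁ σ₁ CL ρ C₂' t2 c₁₀ c₃₀ Q₀ S₀ D₀ : ℝ} {v₀ : ℤ} {u : Bool → ℤ}

/-- **THE WEIGHT OF THE BOX FROM `So47`, EVERY NUMBER DISCHARGED.** Rows `c₀ = σ.c0`, `c₀' = c₀ + n'`, `e = c₀' + n`, `c3 = e + (m + 1) = σ.c3`;
unit `E = EE (Tg h₀ K j)`. -/
theorem frU11 (h0 : In μ s c C n₀) {h₀ K m₂ : ℕ} (hK : 1 ≤ K) (hj : 1 ≤ j) (hE : E = EE μ s (Tg h₀ K j))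
    (hΓ : Γ.Ok) (hη : η ∈ So47 Γ σ j z) {n' n m : ℕ} (hc3 : σ.c0 j z + n' + n + (m + 1) = σ.c3 j z) (hN : σ.c3 j z ≤ Γ.N)
    -- the envelope of `So47`
    (hκ : ∀ x v : ℤ, σ.k0 j z x v = kap31 P₀ c₁₀ c₃₀ Q₀ S₀ E w cA cz (n' + (n + (m + 1))) x v) (hQ₀ : 0 ≤ Q₀) (hS₀ : 0 ≤ S₀)
    (h30 : 0 ≤ c₃₀) (h30' : c₃₀ ≤ c₃') {Q : Finset (ℕ × ℤ)}
    (hQ : Q ⊆ Ico (σ.c0 j z + n') (σ.c0 j z + n' + n) ×ˢ Icc (0 : ℤ) Γ.hi)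
    (hlt : ∀ x ∈ β false, ∀ x' ∈ β true, x < x') (he1 : 0 ≤ σ.e1 j) (he2 : 0 ≤ σ.e2 j) (hΛ : 0 < Λ)
    -- the lanes, in the form of `pshC83`
    {Lx Gx mh gX gO : ℝ}
    (hP : PshT (Icc 0 Γ.hi) (Icc 0 Γ.hi) (Icc (z.2 + σ.α₁ j) (z.2 + σ.β₁ j)) (Icc (z.2 + σ.α₂ j) (z.2 + σ.β₂ j)) (β false) (β true)
      (fun x y => ker (wt η) Γ.p (σ.c0 j z) n' x y / Λ)
      (fun x => jph (Icc 0 Γ.hi) (kap31 P₀ c₁₀ c₃₀ Q₀ S₀ E w cA cz (n' + (n + (m + 1)))) (G47 μ s h η Γ.p M Γ.N (σ.c0 j z + n') n m)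
        (G1_47 μ s h M Γ σ j z η (σ.c0 j z + n') n m) x / σ.Φ j)
      (jph (Icc 0 Γ.hi) (kap31 P c₁ c₃' (Q₂ + q₁) (S₂ + σ₁) E w ci cz (n + (m + 1))) (G47 μ s h η Γ.p M Γ.N (σ.c0 j z + n') n m)
        (G1_47 μ s h M Γ σ j z η (σ.c0 j z + n') n m)) A₁ A₂ (Real.exp (Lx * E)) (σ.Φ j) (σ.V j * Real.exp (mh * E)) 1
      (Real.exp ((Gx - gX / 4) * E)) (Real.exp ((Gx - gO / 4) * E) * σ.Φ j))
    -- the inside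
    (hE8 : 8 ≤ E) (hw : 0 < w) (hCL : 0 ≤ CL) (hq₁ : 0 ≤ q₁) (hσ : 0 ≤ σ₁)
    (comp : ∀ x z' : ℤ, ∑ y ∈ Icc (0 : ℤ) (Γ.hi - ((m + 1 : ℕ) : ℤ)), K147 μ s h η Γ.p M (σ.c0 j z + n') n x y *
      kap31 P c₁ c₃ Q₂ S₂ E w ce cz (m + 1) y z' ≤ kap31 P c₁ c₃' (Q₂ + q₁) (S₂ + σ₁) E w ci cz (n + (m + 1)) x z')
    (lo1 : ∀ x ∈ β false ∪ β true, 1 ≤ Real.exp (CL * E) * ∑ y ∈ ({v₀} : Finset ℤ), K147 μ s h η Γ.p M (σ.c0 j z + n') n x y)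
    (up1 : ∀ x ∈ β false ∪ β true, ∑ y ∈ δ, K147 μ s h η Γ.p M (σ.c0 j z + n') n x y ≤ Real.exp (CL * E) * 1)
    -- the exit
    (hX : Ex35 P₂ q κ U G E w ce cz v₀ (m + 1) δ δ' (K247 μ s h η Γ.p M (σ.c0 j z + n' + n) m)) (hPP : P₂ ≤ P) (hq : 0 ≤ q) (hqQ : q ≤ Q₂)
    (hS₂ : 0 ≤ S₂) (hc₃ : c₃ ≤ κ) (h3 : c₃' ≤ c₃) (hU : 0 ≤ U)
    -- the windows
    (hβS : β false ∪ β true ⊆ Icc 0 (Γ.hi - (n + (m + 1) : ℕ))) (hδT : δ ⊆ Icc 0 (Γ.hi - ((m + 1 : ℕ) : ℤ))) (hδU : δ' ⊆ Icc 0 Γ.hi)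
    (hβρ : ∀ x ∈ β false ∪ β true, |(x : ℝ) - ci| ≤ ρ * w) (hδρ : ∀ v ∈ δ, |(v : ℝ) - ce| ≤ ρ * w) {x₀ : ℤ}
    (hx₀ : x₀ ∈ β false ∪ β true) (hxv : ∀ v ∈ δ, x₀ ≤ v ∧ v ≤ x₀ + n)
    -- the cells of the row `c₀` below the cells of the row `c₀'`
    (hu : ∀ i, u i ∈ cl2 (z.2 + σ.α₁ j) (z.2 + σ.β₁ j) (z.2 + σ.α₂ j) (z.2 + σ.β₂ j)) (huk : ∀ i, u i ≤ Γ.k + σ.c0 j z)
    (huβ : ∀ i, ∀ y ∈ β i, u i ≤ y ∧ y ≤ u i + n') (huD : ∀ i, ∀ y ∈ β i, |((y : ℝ) - ci) - ((u i : ℝ) - cA)| ≤ D₀ * w)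
    -- the future
    (hδ' : ∀ v ∈ δ', z.2 + σ.ζa j ≤ v ∧ v ≤ z.2 + σ.ζb j) (hV : 1 ≤ σ.V j) (hΦ : 1 ≤ σ.Φ j)
    -- the constants
    {φO vO mv g1 : ℝ} (hLx : 0 ≤ Lx) (_hGx : 0 ≤ Gx) (hφO : 0 ≤ φO) (hvO : 0 ≤ vO) (hmv : 0 ≤ mv) (hmh : 0 ≤ mh) (hC₂' : 0 ≤ C₂')
    (hC₂ : Q₂ * gr P (AQ P c₁ Q₂ + ρ) + S₂ + 2 * (ρ * c₃') ≤ C₂')
    (hmv' : (Q₂ + q₁) * gr P (AQ P c₁ (Q₂ + q₁) + ρ) + (S₂ + σ₁) + c₃₀ * D₀ ≤ mv)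
    (kX : cW54 Gx (aW54 CL U Lx) ≤ gX)
    (kO : oW54 Gx (bW54 (aW54 CL U Lx) (φO * (K : ℝ) ^ m₂) (vO * (K : ℝ) ^ m₂) mv mh) (φO * (K : ℝ) ^ m₂) ≤ gO)
    (kG : xW54 (aW54 CL U Lx) (bW54 (aW54 CL U Lx) (φO * (K : ℝ) ^ m₂) (vO * (K : ℝ) ^ m₂) mv mh) C₂' ≤ G)
    (k1 : eW54 (bW54 (aW54 CL U Lx) (φO * (K : ℝ) ^ m₂) (vO * (K : ℝ) ^ m₂) mv mh) ≤ g1)
    -- the sizes of `So47`
    (sΦ : σ.Φ j ≤ Real.exp (φO * EE μ s (Tg h₀ K (j + m₂)))) (sV : σ.V j ≤ Real.exp (vO * EE μ s (Tg h₀ K (j + m₂))))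
    (s1 : σ.e1 j ≤ Real.exp (-(g1 * EE μ s (Tg h₀ K (j + m₂))))) (s2 : σ.e2 j ≤ Real.exp (-t2))
    (k2 : 5 * (aW54 CL U Lx * E) + 8 ≤ t2) {ε' : ℝ} (hε' : ε' ≤ 1)
    (hin : ∀ x ∈ β false, ∀ x' ∈ β true, ∀ y ∈ δ, ∀ y' ∈ δ,
      (1 - ε') * (ker (wt η) Γ.p (σ.c0 j z + n') n x y * ker (wt η) Γ.p (σ.c0 j z + n') n x' y') ≤
        mq (wt η) Γ.p Q (σ.c0 j z + n') n x x' y y') :
    (1 - ε') * (7 / 8) ≤ ∑ c ∈ Q, Γ.w c η := by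
  obtain ⟨φ, hφd⟩ : ∃ φ, φ = φO * (K : ℝ) ^ m₂ := ⟨_, rfl⟩
  obtain ⟨v, hvd⟩ : ∃ v, v = vO * (K : ℝ) ^ m₂ := ⟨_, rfl⟩
  obtain ⟨a, ha⟩ : ∃ a, a = aW54 CL U Lx := ⟨_, rfl⟩
  rw [← hφd, ← hvd] at kO kG k1
  rw [← ha] at kX kO kG k1 k2
  obtain ⟨b, hb⟩ : ∃ b, b = bW54 a φ v mv mh := ⟨_, rfl⟩
  rw [← hb] at kO kG k1
  have hφ : 0 ≤ φ := by rw [hφd]; positivity
  have hv : 0 ≤ v := by rw [hvd]; positivity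
  have ha2 : 2 ≤ a := by rw [ha]; exact aW54_two hCL hU hLx
  have hab : a ≤ b := by rw [hb]; exact bW54_ge hφ hv hmv hmh
  have hg1 : 0 ≤ g1 := (eW54_nn (show 0 ≤ b by linarith)).trans k1
  obtain ⟨z1, z2, z3, z4, z5⟩ := szW54 (K := K) (t := j) (h₀ := h₀) (m₂ := m₂) (mv := mv) (mh := mh)
    (Φ := Real.exp (mv * E) * σ.Φ j) (Mh := σ.V j * Real.exp (mh * E)) h0 hK hj hφO hvO hg1 sΦ sV (by rw [hE]) (by rw [hE]) s1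
  rw [← hE] at z1 z2 z3 z4 z5
  rw [← hφd] at z1 z3
  rw [← hvd] at z2 z4
  have E0 : 0 ≤ E := by linarith
  unfold aW54 at ha
  unfold bW54 at hb
  unfold cW54 at kX
  unfold oW54 at kO
  unfold xW54 at kG
  unfold eW54 at k1
  have up : ∀ {x y : ℝ}, x ≤ y → Real.exp (x * E) ≤ Real.exp (y * E) := fun {x y} hxy =>
    Real.exp_le_exp.2 (mul_le_mul_of_nonneg_right hxy E0)
  have half : ∀ {x y : ℝ}, 2 * x ≤ y → Real.exp (x * E) ≤ Real.exp (y * E / 2) := fun {x y} hxy => by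
    refine Real.exp_le_exp.2 ?_
    have := mul_le_mul_of_nonneg_right hxy E0
    linarith
  have dn : ∀ {x y : ℝ}, x ≤ -y → Real.exp (x * E) ≤ Real.exp (-(y * E)) := fun {x y} hxy => by
    refine Real.exp_le_exp.2 ?_
    have := mul_le_mul_of_nonneg_right hxy E0
    linarith
  have hΦE : Real.exp (((Q₂ + q₁) * gr P (AQ P c₁ (Q₂ + q₁) + ρ) + (S₂ + σ₁) + c₃₀ * D₀) * E) * σ.Φ j ≤ Real.exp (b * E / 2) := by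
    refine le_trans ?_ (z3.trans (half (by linarith)))
    exact mul_le_mul_of_nonneg_right (up hmv') (by linarith)
  refine frW0 (a := a) (b := b) (t2 := t2) (g1 := 9 * b + 2) (gc := 3 * a + 2) (go := 9 * b + 2) (D₀ := D₀) hΓ hη hc3 hN hκ hQ₀ hS₀ h30 h30'
    hQ hlt he1 he2 hΛ hP hE8 hw hCL hq₁ hσ comp lo1 up1 hX hPP hq hqQ hS₂ hc₃ h3 hU hβS hδT hδU hβρ hδρ hx₀ hxv hu huk huβ huD hδ' hV hΦ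
    hC₂ hab (by linarith) (by linarith) (half (by linarith)) (z1.trans (up (by linarith))) (z4.trans (up (by linarith)))
    (z2.trans (half (by linarith))) hΦE (by linarith) (by linarith) le_rfl le_rfl le_rfl k2 (dn (by linarith)) ?_ (z5.trans ?_) s2 hε' hin
  · calc Real.exp ((Gx - gO / 4) * E) * σ.Φ j ≤ Real.exp ((Gx - gO / 4) * E) * Real.exp (φ * E) :=
          mul_le_mul_of_nonneg_left z1 (Real.exp_pos _).le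
      _ = Real.exp ((Gx - gO / 4 + φ) * E) := by
        rw [← Real.exp_add]
        congr 1
        ring
      _ ≤ _ := dn (by linarith)
  · refine Real.exp_le_exp.2 ?_
    have := mul_le_mul_of_nonneg_right k1 E0
    linarith

end

end Pool.Agent.W_7d29a1_C1.U11
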