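import Pool.Agent.W_7d29a1_C1.BasX24

/-!
MP_7d29a1_pr, [C1] SHELL, THE FRESH BALL (helper24): THE EXIT IN THE LETTERS OF `w35b`. `XW24`: the fields of the exit (`hX`, `hδρ`, `hδT`,
`hδU`). `frX24`: they follow from the facts `FXz24` of the exit set and from the box. `xv24`: `hxv` of `w35b`.
-/

set_option autoImplicit false

namespace Pool.Agent.W_7d29a1_C1.P24

open MeasureTheory ProbabilityTheory Filter Topology Finset
open Pool.Agent.W_7d29a1_F Pool.Agent.W_7d29a1_h4g Pool.Agent.W_7d29a1_H Pool.Agent.W_7d29a1_HS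
open Pool.Agent.W_7d29a1_C1
open Pool.Agent.W_7d29a1_C1.CR76 Pool.Agent.W_7d29a1_C1.Basin76
open Pool.Agent.W_7d29a1_C1.H60 (Cx)
open Pool.Agent.W_7d29a1_C1.FarK89 (gr)
open Pool.Agent.W_7d29a1_C1.Fr47 (K247)
open Pool.Agent.W_7d29a1_C1.JnC35 (ln35)
open Pool.Agent.W_7d29a1_C1.JnE35 (Ex35)

noncomputable section

variable {μ : Measure ℝ} {s c C : ℝ} {n₀ : ℕ}

/-! ### The line -/

theorem ln35_add (κ : Pt) (r n : ℕ) : ln35 μ s κ (r + n) = ln35 μ s κ r + sl μ s * n := by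
  unfold ln35
  push_cast
  ring

/-- The column of the line in the row of the exit. -/
theorem ln35_e24 {κ : Pt} {e T : ℕ} (he : (e : ℤ) = κ.1 + rE24 T) : ln35 μ s κ e = κ.2 + sl μ s * rE24 T := by
  unfold ln35
  rw [he]
  congr 2
  push_cast
  ring

theorem a_floor24 {κ : Pt} {e T : ℕ} (he : (e : ℤ) = κ.1 + rE24 T) : κ.2 + cE24 μ s T = ⌊ln35 μ s κ e⌋ := by
  rw [ln35_e24 he, add_comm, add_comm (κ.2 : ℝ), Int.floor_add_intCast]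
  rfl

theorem a_near24 {κ : Pt} {e T : ℕ} (he : (e : ℤ) = κ.1 + rE24 T) : |((κ.2 + cE24 μ s T : ℤ) : ℝ) - ln35 μ s κ e| ≤ 1 := by
  rw [a_floor24 he, abs_le]
  have f1 := Int.floor_le (ln35 μ s κ e)
  have f2 := Int.lt_floor_add_one (ln35 μ s κ e)
  constructor <;> linarith

/-- **`hxv` of `w35b`.** -/
theorem xv24 [IsProbabilityMeasure μ] (h : In μ s c C n₀) (ρ ρ' : ℝ) : ∃ n₂ : ℕ, ∀ T : ℕ, n₂ ≤ T → ∀ n : ℕ, T ≤ 2 * n →
    ∀ (κ : Pt) (r : ℕ) (x v : ℤ), |(x : ℝ) - ln35 μ s κ r| ≤ ρ' * wd μ s T → |(v : ℝ) - ln35 μ s κ (r + n)| ≤ ρ * wd μ s T →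
      x ≤ v ∧ v ≤ x + n := by
  have s0 := h.sl_pos
  have s1 := h.sl_lt
  obtain ⟨b, hb⟩ : ∃ b : ℝ, b = min (sl μ s) (1 - sl μ s) := ⟨_, rfl⟩
  have hb0 : 0 < b := by rw [hb]; exact lt_min s0 (by linarith)
  have hbs : b ≤ sl μ s := by rw [hb]; exact min_le_left _ _
  have hbs' : b ≤ 1 - sl μ s := by rw [hb]; exact min_le_right _ _
  have hx : 0 < b / 2 / (|ρ| + |ρ'| + 1) := by positivity
  obtain ⟨nv, hnv⟩ := eventually_atTop.1 (h.tv.eventually_le_const hx)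
  refine ⟨nv, fun T hT n hn κ r x v hx hv => ?_⟩
  have e1 : wd μ s T = T * vA 1 μ s T := rfl
  have hT0 : (0 : ℝ) ≤ T := Nat.cast_nonneg T
  have hTn : (T : ℝ) ≤ 2 * n := by exact_mod_cast hn
  have g0 : wd μ s T * (|ρ| + |ρ'| + 1) ≤ b * n := by
    have g1 := mul_le_mul_of_nonneg_left (hnv T hT) hT0
    rw [← e1] at g1
    have g2 := mul_le_mul_of_nonneg_right g1 (show 0 ≤ |ρ| + |ρ'| + 1 by positivity)
    have e2 : T * (b / 2 / (|ρ| + |ρ'| + 1)) * (|ρ| + |ρ'| + 1) = T * (b / 2) := by field_simp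
    rw [e2] at g2
    nlinarith
  have hw := h.wd_nonneg T
  have g1 : ρ * wd μ s T ≤ |ρ| * wd μ s T := mul_le_mul_of_nonneg_right (le_abs_self ρ) hw
  have g2 : ρ' * wd μ s T ≤ |ρ'| * wd μ s T := mul_le_mul_of_nonneg_right (le_abs_self ρ') hw
  obtain ⟨x1, x2⟩ := abs_le.1 (hx.trans g2)
  obtain ⟨v1, v2⟩ := abs_le.1 (hv.trans g1)
  rw [ln35_add] at v1 v2
  have hn0 : (0 : ℝ) ≤ n := Nat.cast_nonneg n
  have m1 := mul_le_mul_of_nonneg_right hbs hn0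
  have m2 := mul_le_mul_of_nonneg_right hbs' hn0
  constructor
  · have : (x : ℝ) ≤ v := by linarith
    exact_mod_cast this
  · have : (v : ℝ) ≤ x + n := by linarith
    exact_mod_cast this

/-! ### The exit -/

/-- The start cell of the exit and its end window. -/
def dX24 (μ : Measure ℝ) (s d : ℝ) (T : ℕ) (κ : Pt) : Finset ℤ := Ce24 (κ.2 + cE24 μ s T) (d * wd μ s (T / 32))

def dY24 (μ : Measure ℝ) (s : ℝ) (T : ℕ) (κ : Pt) (c3 : ℕ) : Finset ℤ :=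
  Icc ⌈ln35 μ s κ c3 - wd μ s T / 128⌉ ⌊ln35 μ s κ c3 + wd μ s T / 128⌋

theorem mem_dY24 {T : ℕ} {κ : Pt} {c3 : ℕ} {z : ℤ} : z ∈ dY24 μ s T κ c3 ↔ |(z : ℝ) - ln35 μ s κ c3| ≤ wd μ s T / 128 := by
  unfold dY24
  rw [mem_Icc, Int.ceil_le, Int.le_floor, abs_le]
  constructor
  · rintro ⟨h1, h2⟩
    constructor <;> linarith
  · rintro ⟨h1, h2⟩
    constructor <;> linarith

/-- **THE EXIT IN THE LETTERS OF `w35b`.** `e` = row of the exit, `m + 1` = its length. -/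
structure XW24 (μ : Measure ℝ) (s c : ℝ) (P : ℕ) (d U q G ρ : ℝ) (T : ℕ) (κ : Pt) (Γ : Cx) (ζ : Env) (e m : ℕ) : Prop where
  hX : Ex35 P ((q + 2) * gr P 64) (c / 262144) (U + 2) G (EE μ s T) (wd μ s T) (ln35 μ s κ e) (ln35 μ s κ (e + (m + 1)))
    (κ.2 + cE24 μ s T) (m + 1) (dX24 μ s d T κ) (dY24 μ s T κ (e + (m + 1))) (K247 μ s Γ.h ζ Γ.p Γ.M e m)
  hδρ : ∀ v ∈ dX24 μ s d T κ, |(v : ℝ) - ln35 μ s κ e| ≤ ρ * wd μ s T
  hδT : dX24 μ s d T κ ⊆ Icc 0 (Γ.hi - ((m + 1 : ℕ) : ℤ))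
  hδU : dY24 μ s T κ (e + (m + 1)) ⊆ Icc 0 Γ.hi

/-- **FROM THE FACTS OF THE EXIT SET TO THE LETTERS OF `w35b`.** -/
theorem frX24 [IsProbabilityMeasure μ] (h : In μ s c C n₀) {c' : ℝ} {P : ℕ} {d U β q G K u ρ : ℝ} (hd : 0 < d) (hρ : 3 * d ≤ ρ) :
    ∃ n₂ : ℕ, ∀ T : ℕ, n₂ ≤ T → ∀ (κ : Pt) (ζ : Env), FXz24 μ s c c' P d U β q G K 1 u T κ ζ → ∀ (Γ : Cx) (e m : ℕ), Γ.s = s →
      (e : ℤ) = κ.1 + rE24 T → m = 6 * (T / 32) + 6 * (T / 32) → |Γ.h| * m ≤ 1 →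
      (∀ v : ℤ, |(v : ℝ) - ln35 μ s κ e| ≤ ρ * wd μ s T → 0 ≤ v ∧ v ≤ Γ.hi - ((m + 1 : ℕ) : ℤ)) →
      (∀ v : ℤ, |(v : ℝ) - ln35 μ s κ (e + (m + 1))| ≤ wd μ s T / 128 → 0 ≤ v ∧ v ≤ Γ.hi) →
      XW24 μ s c P d U q G ρ T κ Γ ζ e m := by
  obtain ⟨nw, hnw⟩ := eventually_atTop.1 ((wd_tendsto h).eventually_ge_atTop (128 + 1 / d))
  refine ⟨nw + 32, fun T hT κ ζ F Γ e m hs he hm hh B1 B2 => ?_⟩
  have F1 := F e he
  have hw := hnw T (by omega)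
  have hw0 : 0 < wd μ s T := by
    have : 0 < 1 / d := by positivity
    linarith
  have hw128 : 128 ≤ wd μ s T := by
    have : 0 < 1 / d := by positivity
    linarith
  have hdw : 1 ≤ d * wd μ s T := by
    have g1 : 1 / d ≤ wd μ s T := by linarith
    have := mul_le_mul_of_nonneg_left g1 hd.le
    rwa [mul_one_div_cancel hd.ne'] at this
  have hT32 : wd μ s (T / 32) ≤ 2 * wd μ s T := Pool.Agent.W_7d29a1_C1.U16.wd_le_two h (by omega) (Nat.div_le_self T 32)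
  have ha := a_near24 (μ := μ) (s := s) he
  have hδρ : ∀ v ∈ dX24 μ s d T κ, |(v : ℝ) - ln35 μ s κ e| ≤ ρ * wd μ s T := by
    intro v hv
    have g1 : |(v : ℝ) - ((κ.2 + cE24 μ s T : ℤ) : ℝ)| ≤ d * wd μ s (T / 32) := mem_Ce24.1 hv
    have g2 := abs_add_le ((v : ℝ) - ((κ.2 + cE24 μ s T : ℤ) : ℝ)) (((κ.2 + cE24 μ s T : ℤ) : ℝ) - ln35 μ s κ e)
    rw [sub_add_sub_cancel] at g2
    have g3 := mul_le_mul_of_nonneg_left hT32 hd.le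
    have g4 := mul_le_mul_of_nonneg_right hρ hw0.le
    linarith
  have hne : (dY24 μ s T κ (e + (m + 1))).Nonempty := by
    refine ⟨⌊ln35 μ s κ (e + (m + 1))⌋, mem_dY24.2 ?_⟩
    have f1 := Int.floor_le (ln35 μ s κ (e + (m + 1)))
    have f2 := Int.lt_floor_add_one (ln35 μ s κ (e + (m + 1)))
    rw [abs_le]
    constructor <;> linarith
  refine ⟨?_, hδρ, fun v hv => mem_Icc.2 (B1 v (hδρ v hv)), fun v hv => mem_Icc.2 (B2 v (mem_dY24.1 hv))⟩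
  have hp : ∀ k, k < Γ.M → Γ.p k = Real.exp (s + Γ.h) := fun k hk => by
    show (if k < Γ.M then Real.exp (Γ.s + Γ.h) else Real.exp Γ.s) = _
    rw [if_pos hk, hs]
  have hp' : ∀ k, Γ.M ≤ k → Γ.p k = Real.exp s := fun k hk => by
    show (if k < Γ.M then Real.exp (Γ.s + Γ.h) else Real.exp Γ.s) = _
    rw [if_neg (by omega), hs]
  have g := F1.ex Γ.h Γ.p Γ.M κ hp hp' (by rw [← hm]; exact hh) (by
    rw [one_mul]
    linarith) (dY24 μ s T κ (e + (m + 1))) hne (fun z hz => by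
    have g1 := mem_dY24.1 hz
    rw [ln35_add] at g1
    have g2 := abs_add_le ((z : ℝ) - (ln35 μ s κ e + sl μ s * ((m + 1 : ℕ) : ℝ))) (ln35 μ s κ e - ((κ.2 + cE24 μ s T : ℤ) : ℝ))
    have e1 : (z : ℝ) - (ln35 μ s κ e + sl μ s * ((m + 1 : ℕ) : ℝ)) + (ln35 μ s κ e - ((κ.2 + cE24 μ s T : ℤ) : ℝ)) =
      (z : ℝ) - (((κ.2 + cE24 μ s T : ℤ) : ℝ) + sl μ s * ((m + 1 : ℕ) : ℝ)) := by ring
    rw [e1] at g2
    rw [abs_sub_comm] at ha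
    rw [← hm]
    linarith)
  have e64 : (32 : ℝ) * 1 + 32 = 64 := by norm_num
  rw [e64, ← hm] at g
  exact g

end

end Pool.Agent.W_7d29a1_C1.P24
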