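import Pool.Agent.W_7d29a1_C1.FrW47
import Pool.Agent.W_7d29a1_C1.FrI35
import Pool.Agent.W_7d29a1_C1.FrX24
import Pool.Agent.W_7d29a1_C1.InsF10

/-!
MP_7d29a1_pr, [C1] SHELL, THE FRESH BALL: **(W) AT ONE PLACE** (helper47). `frV47` : `So47`, the seam of the lanes `PshT` (`hP`), the inside
`FC35`, the exit `FXz24`, `InQ10` and the geometry `Geo47` give `1/4 ≤ Σ_{QF} Γ.w`, with the order of the constants:

`d gg e' PI qI u D | PX dX U β qX` | `P₁ Qk` | `Lx` | `ga gc` | `Λ φ v mh` | `go G₀ g1` | `c' GX ≥ G₀, KX uX` | `n₁`.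
-/

set_option autoImplicit false

namespace Pool.Agent.W_7d29a1_C1.Fr47

open MeasureTheory Filter Topology Finset
open Pool.Agent.W_7d29a1_F Pool.Agent.W_7d29a1_h4g Pool.Agent.W_7d29a1_H Pool.Agent.W_7d29a1_HS
open Pool.Agent.W_7d29a1_C1.K91 (wt wt_pos)
open Pool.Agent.W_7d29a1_C1.K91P
open Pool.Agent.W_7d29a1_C1.U16 (ker)
open Pool.Agent.W_7d29a1_C1.Bx47
open Pool.Agent.W_7d29a1_C1.S83
open Pool.Agent.W_7d29a1_C1.Sh21 (SeamIn js)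
open Pool.Agent.W_7d29a1_C1.F74 (cl2)
open Pool.Agent.W_7d29a1_C1.H60
open Pool.Agent.W_7d29a1_C1.JnC35 (ln35)
open Pool.Agent.W_7d29a1_C1.JnE35 (Ex35 frI35)
open Pool.Agent.W_7d29a1_C1.P24 (FXz24 XW24 frX24 xv24 rE24 cE24 dX24 dY24 mem_dY24 a_near24)
open Pool.Agent.W_7d29a1_C1.S12 (Lam12 Lam12_pos)
open Pool.Agent.W_7d29a1_C1.FreC35 (FC35)
open Pool.Agent.W_7d29a1_C1.T10 (GW QF QF_rows InQ10 xm Tg)
open Pool.Agent.W_7d29a1_C1.FarK89 (gr gr_nonneg gr_mono AQ AQ_nonneg)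
open Pool.Agent.W_7d29a1_C1.D31 (kap31 kapo31 kap31_nonneg kap31_of_reach kap31_le le_kap31)

noncomputable section

/-- **The geometry of the place**: the window of the line is inside the region of the walks. -/
structure Geo47 (μ : Measure ℝ) (s : ℝ) (Γ : Cx) (κ : Pt) (z T : ℕ) (ρ : ℝ) : Prop where
  win : ∀ (k : ℕ) (x : ℤ), z - T ≤ k → k ≤ z + T + 1 → |(x : ℝ) - ln35 μ s κ k| ≤ ρ * wd μ s T → 0 ≤ x ∧ x ≤ Γ.k + k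
  hN : z + T + 1 ≤ Γ.N

variable {μ : Measure ℝ} {s c C : ℝ} {n₀ : ℕ}

/-- **(W) AT ONE PLACE.** -/
theorem frV47 [IsProbabilityMeasure μ] (h0 : In μ s c C n₀) {d gg e' : ℝ} (hd : 0 < d) (hd1 : d ≤ 1) (hgg : 0 < gg) (he' : 0 ≤ e')
    (he1 : e' ≤ 1 / 4) (PI : ℕ) {qI u D : ℝ} (hqI : 0 ≤ qI) (hu : 0 ≤ u) (hD : 0 ≤ D) {PX : ℕ} {dX U βX qX : ℝ} (hdX : 0 < dX)
    (hdXd : 3 * dX ≤ d) (hU : 0 ≤ U) (hqX : 0 ≤ qX) :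
    ∃ (P₁ : ℕ) (Qk : ℝ), 0 ≤ Qk ∧ ∀ Lx : ℝ, 0 ≤ Lx → ∃ ga gc : ℝ, 0 ≤ ga ∧ 0 ≤ gc ∧ ∀ Λ φ v mh : ℝ, 0 ≤ Λ → 0 ≤ φ → 0 ≤ v → 0 ≤ mh →
    ∃ go G₀ g1 : ℝ, 0 ≤ go ∧ 0 ≤ G₀ ∧ 0 ≤ g1 ∧ ∀ c' GX KX uX : ℝ, G₀ ≤ GX → ∃ n₁ : ℕ, 1 ≤ n₁ ∧
    -- the place
    ∀ {R C₀ : ℝ} {B h₀ K L : ℕ} {G : T10.Gd}, GW μ s R B C₀ h₀ K L G → ∀ {i : ℕ}, 1 ≤ i → i ≤ L → ∀ {q₀ : ℕ × ℤ} {T : ℕ},
    T = Tg h₀ K i → n₁ ≤ T → 32 ∣ T → ∀ {κ : Pt}, κ = (((G.z i q₀).1 : ℤ), xm G i q₀) →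
    ∀ {Γ : Cx}, Γ.Ok → Γ.s = s → |Γ.h| * T ≤ 1 / 16 → ∀ {ρ : ℝ}, Geo47 μ s Γ κ (G.z i q₀).1 T ρ → R + 1 ≤ ρ → Λ ≤ ρ → 1 ≤ ρ →
    ∀ {S : Finset (ℕ × ℤ)}, (∀ b, G.z i b = G.z i q₀ → b ∈ S) →
    -- the rows
    ∀ {n' n m : ℕ}, m = 6 * (T / 32) + 6 * (T / 32) → T ≤ 2 * n' → T ≤ 2 * n → n ≤ T → (G.z i q₀).1 - T + 1 + n' ≤ (G.z i q₀).1 →
    (G.z i q₀).1 - T + 1 + n' + n = (G.z i q₀).1 + 5 * T / 8 →
    -- the outside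
    ∀ {σ : NS47} {η : Env}, η ∈ So47 Γ σ i (G.z i q₀) → σ.T i = T → 1 ≤ σ.Φ i → 1 ≤ σ.V i → σ.Φ i ≤ Real.exp (φ * EE μ s T) →
    σ.V i ≤ Real.exp (v * EE μ s T) → 0 ≤ σ.e1 i → σ.e1 i ≤ Real.exp (-(g1 * EE μ s T)) → 0 ≤ σ.e2 i →
    σ.e2 i ≤ Real.exp (-(ga * EE μ s T)) → ∀ {P₀ : ℕ} {c₁₀ c₃₀ Q₀ S₀ : ℝ}, 0 ≤ c₃₀ → c₃₀ ≤ c / 524288 → 0 ≤ Q₀ → 0 ≤ S₀ →
    (∀ x v : ℤ, σ.k0 i (G.z i q₀) x v = kap31 P₀ c₁₀ c₃₀ Q₀ S₀ (EE μ s T) (wd μ s T) (ln35 μ s κ ((G.z i q₀).1 - T + 1))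
      (ln35 μ s κ ((G.z i q₀).1 + T + 1)) (2 * T) x v) →
    (∀ v : ℤ, |(v : ℝ) - ln35 μ s κ ((G.z i q₀).1 + T + 1)| ≤ wd μ s T / 128 →
      (G.z i q₀).2 + σ.ζa i ≤ v ∧ v ≤ (G.z i q₀).2 + σ.ζb i) →
    -- the cells of the row `c₀`
    ∀ {u₀ : Bool → ℤ}, (∀ j, u₀ j ∈ cl2 ((G.z i q₀).2 + σ.α₁ i) ((G.z i q₀).2 + σ.β₁ i) ((G.z i q₀).2 + σ.α₂ i) ((G.z i q₀).2 + σ.β₂ i)) →
    (∀ j, |(u₀ j : ℝ) - ln35 μ s κ ((G.z i q₀).1 - T + 1)| ≤ Λ * wd μ s T) →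
    -- the cells of the row `c₀'`
    ∀ {D₁ D₂ : Finset ℤ}, (∀ x ∈ D₁, ln35 μ s κ ((G.z i q₀).1 - T + 1 + n') - d * wd μ s T ≤ x ∧
      (x : ℝ) ≤ ln35 μ s κ ((G.z i q₀).1 - T + 1 + n') - gg * wd μ s T) →
    (∀ x ∈ D₂, ln35 μ s κ ((G.z i q₀).1 - T + 1 + n') + gg * wd μ s T ≤ x ∧
      (x : ℝ) ≤ ln35 μ s κ ((G.z i q₀).1 - T + 1 + n') + d * wd μ s T) → (D₁ ∪ D₂).Nonempty →
    -- the lanes
    ∀ {A₁ A₂ Mh εc εo : ℝ}, Mh ≤ Real.exp (mh * EE μ s T) → εc ≤ Real.exp (-(gc * EE μ s T)) → εo ≤ Real.exp (-(go * EE μ s T)) →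
    PshT (Icc 0 Γ.hi) (Icc 0 Γ.hi) (Icc ((G.z i q₀).2 + σ.α₁ i) ((G.z i q₀).2 + σ.β₁ i)) (Icc ((G.z i q₀).2 + σ.α₂ i) ((G.z i q₀).2 + σ.β₂ i))
      D₁ D₂ (fun x y => ker (wt η) Γ.p ((G.z i q₀).1 - T + 1) n' x y / Lam12 μ s Γ.h Γ.M ((G.z i q₀).1 - T + 1) n')
      (fun x => jph (Icc 0 Γ.hi) (kap31 P₀ c₁₀ c₃₀ Q₀ S₀ (EE μ s T) (wd μ s T) (ln35 μ s κ ((G.z i q₀).1 - T + 1))
        (ln35 μ s κ ((G.z i q₀).1 + T + 1)) (2 * T)) (G47 μ s Γ.h η Γ.p Γ.M Γ.N ((G.z i q₀).1 - T + 1 + n') n m)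
        (G1_47 μ s Γ.h Γ.M Γ σ i (G.z i q₀) η ((G.z i q₀).1 - T + 1 + n') n m) x / σ.Φ i)
      (jph (Icc 0 Γ.hi) (kap31 P₁ (c / 32) (c / 524288) Qk 1 (EE μ s T) (wd μ s T) (ln35 μ s κ ((G.z i q₀).1 - T + 1 + n'))
        (ln35 μ s κ ((G.z i q₀).1 + T + 1)) (n + (m + 1))) (G47 μ s Γ.h η Γ.p Γ.M Γ.N ((G.z i q₀).1 - T + 1 + n') n m)
        (G1_47 μ s Γ.h Γ.M Γ σ i (G.z i q₀) η ((G.z i q₀).1 - T + 1 + n') n m)) A₁ A₂ (Real.exp (Lx * EE μ s T)) (σ.Φ i) Mh 1 εc εo →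
    -- the row `c₀'`, the inside, the exit
    ∀ {TF nB TB : ℕ} {a aB zB z' zr : ℤ} {uI : ℝ}, 1 ≤ TF → TF ≤ T → T ≤ 4 * TF →
    η ∈ FC35 μ s c (1 / 2) 8 PI qI uI ((G.z i q₀).1 - T + 1 + n') n T nB TB a aB zB z' →
    |(a : ℝ) - ln35 μ s κ ((G.z i q₀).1 - T + 1 + n')| ≤ wd μ s T →
    η ∈ RowG (((G.z i q₀).1 - T + 1 + n' : ℕ) : ℤ) zr (wd μ s TF) (u * EE μ s TF) →
    |(zr : ℝ) - ln35 μ s κ ((G.z i q₀).1 - T + 1 + n')| ≤ D * wd μ s T →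
    FXz24 μ s c c' PX dX U βX qX GX KX 1 uX T κ η →
    InQ10 μ s e' d gg R (ln35 μ s κ ((G.z i q₀).1 - T + 1 + n')) G i q₀ T ((G.z i q₀).1 - T + 1 + n') n η →
    1 / 4 ≤ ∑ b ∈ QF G i q₀ S 0 Γ.hi, Γ.w b η := by
  have hc := h0.c0
  -- the constants
  obtain ⟨PJ, H1⟩ := frI35 h0 PI (show (4 : ℝ) ≤ 8 by norm_num) (show (0 : ℝ) < 1 / 2 by norm_num)
  obtain ⟨q₁, CL, hq₁, hCL, H2⟩ := H1 qI u d D 4 hqI hu hd.le (by linarith) hD (by norm_num)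
  obtain ⟨m₁, hm₁, H3⟩ := H2 (c / 32) (c / 32) (c / 262144) (c / 524288) 1 (by linarith) (by linarith) (by linarith) (by linarith)
    (by linarith) one_pos le_rfl
  obtain ⟨P₁, hP₁⟩ : ∃ P₁ : ℕ, P₁ = max PJ PX := ⟨_, rfl⟩
  obtain ⟨Q₂, hQ₂⟩ : ∃ Q₂ : ℝ, Q₂ = (qX + 2) * gr PX 64 := ⟨_, rfl⟩
  have hQ₂0 : 0 ≤ Q₂ := by
    have := gr_nonneg PX (show (0 : ℝ) ≤ 64 by norm_num)
    rw [hQ₂]
    positivity
  refine ⟨P₁, Q₂ + q₁, by positivity, fun Lx hLx => ?_⟩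
  obtain ⟨a₀, ha₀⟩ : ∃ a₀ : ℝ, a₀ = 2 * CL + (2 * (U + 2) + 2) + 2 * Lx := ⟨_, rfl⟩
  have ha0 : 0 ≤ a₀ := by rw [ha₀]; positivity
  refine ⟨5 * a₀ + 8, 3 * a₀ + 2, by positivity, by positivity, fun Λ φ v mh hΛ hφ hv hmh => ?_⟩
  obtain ⟨C₂, hC₂⟩ : ∃ C₂ : ℝ, C₂ = Q₂ * gr P₁ (AQ P₁ (c / 32) Q₂ + d) + 0 + 2 * (d * (c / 524288)) := ⟨_, rfl⟩
  obtain ⟨Cφ, hCφ⟩ : ∃ Cφ : ℝ, Cφ = (Q₂ + q₁) * gr P₁ (AQ P₁ (c / 32) (Q₂ + q₁) + d) + (0 + 1) + c / 524288 * (d + Λ) := ⟨_, rfl⟩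
  have g1' := gr_nonneg P₁ (add_nonneg (AQ_nonneg P₁ (c / 32) Q₂) hd.le)
  have g2' := gr_nonneg P₁ (add_nonneg (AQ_nonneg P₁ (c / 32) (Q₂ + q₁)) hd.le)
  have hC₂0 : 0 ≤ C₂ := by rw [hC₂]; positivity
  have hCφ0 : 0 ≤ Cφ := by rw [hCφ]; positivity
  obtain ⟨b₀, hb₀⟩ : ∃ b₀ : ℝ, b₀ = a₀ + mh + 2 * v + 2 * (Cφ + φ) := ⟨_, rfl⟩
  have hb0 : 0 ≤ b₀ := by rw [hb₀]; positivity
  refine ⟨9 * b₀ + 2, a₀ + 2 * b₀ + 1 + C₂, 9 * b₀ + 2, by positivity, by positivity, by positivity, fun c' GX KX uX hGX => ?_⟩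
  obtain ⟨m₂, H4⟩ := frX24 h0 (c' := c') (P := PX) (U := U) (β := βX) (q := qX) (G := GX) (K := KX) (u := uX) hdX hdXd
  obtain ⟨m₃, H5⟩ := xv24 h0 d (max Λ d)
  obtain ⟨m₄, H6⟩ := eventually_atTop.1 (h0.tE.eventually_ge_atTop 8)
  obtain ⟨m₅, H7⟩ := eventually_atTop.1 ((wd_tendsto h0).eventually_ge_atTop (128 + 1 / d))
  refine ⟨max (max m₁ m₂) (max m₃ (max m₄ m₅)), hm₁.trans ((le_max_left _ _).trans (le_max_left _ _)), ?_⟩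
  intro R C₀ B h₀ K L G gw i hi hiL q₀ T hT hnT hT32 κ hκ Γ hΓ hs hh ρ geo hRρ hΛρ hρ1 S hS n' n m hm hn' hn hnT' hrow hrowe σ η hη hσT
    hΦ1 hV1 hΦ hV he1' h1 he2 h2 P₀ c₁₀ c₃₀ Q₀ S₀ h30 h30' hQ₀ hS₀ hk0 hζ u₀ hu₀ hu₀Λ D₁ D₂ hD₁ hD₂ hne A₁ A₂ Mh εc εo hMh hεc hεo hP
    TF nB TB a aB zB z' zr uI hTF hTFT hTTF hFC ha hRow hzr hFX hInQ
  have k1 : m₁ ≤ T := ((le_max_left _ _).trans (le_max_left _ _)).trans hnT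
  have k2 : m₂ ≤ T := ((le_max_right _ _).trans (le_max_left _ _)).trans hnT
  have k3 : m₃ ≤ T := ((le_max_left _ _).trans (le_max_right _ _)).trans hnT
  have k4 : m₄ ≤ T := (((le_max_left _ _).trans (le_max_right _ _)).trans (le_max_right _ _)).trans hnT
  have k5 : m₅ ≤ T := (((le_max_right _ _).trans (le_max_right _ _)).trans (le_max_right _ _)).trans hnT
  have hT1 : 1 ≤ T := hm₁.trans k1
  have hE8 := H6 T k4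
  have hw' := H7 T k5
  have hTz : T ≤ (G.z i q₀).1 := by
    have := hη.1
    rwa [Set.mem_ofPred_eq, hσT] at this
  have hH := gw.TH hi
  rw [← hT] at hH
  have eK : κ.1 = ((G.z i q₀).1 : ℤ) := by rw [hκ]
  have eK2 : κ.2 = xm G i q₀ := by rw [hκ]
  have e0 : σ.c0 i (G.z i q₀) = (G.z i q₀).1 - T + 1 := by
    unfold NS47.c0
    rw [hσT]
  have e3 : σ.c3 i (G.z i q₀) = (G.z i q₀).1 + T + 1 := by
    unfold NS47.c3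
    rw [hσT]
  obtain ⟨w, hw⟩ : ∃ w : ℝ, w = wd μ s T := ⟨_, rfl⟩
  obtain ⟨E, hE⟩ : ∃ E : ℝ, E = EE μ s T := ⟨_, rfl⟩
  have h1d : 0 < 1 / d := by positivity
  have hw0 : 0 < w := by rw [hw]; linarith
  have hdw : 1 ≤ d * w := by
    have g1 : 1 / d ≤ w := by rw [hw]; linarith
    have := mul_le_mul_of_nonneg_left g1 hd.le
    rwa [mul_one_div_cancel hd.ne'] at this
  have hhT : |Γ.h| * T ≤ 1 := by linarith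
  have hnR : (n : ℝ) ≤ T := by exact_mod_cast hnT'
  have hmT : m ≤ T := by omega
  have hmR : (m : ℝ) ≤ T := by exact_mod_cast hmT
  -- the inside
  obtain ⟨comp, lo1, up1, -⟩ := H3 k1 hs hhT hTF hTFT hTTF hFC hnT' (by
    have : (T : ℝ) ≤ 2 * n := by exact_mod_cast hn
    linarith) ha hRow hzr
  -- the exit
  obtain ⟨e, he⟩ : ∃ e : ℕ, e = (G.z i q₀).1 - T + 1 + n' + n := ⟨_, rfl⟩
  have he24 : (e : ℤ) = κ.1 + rE24 T := by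
    rw [eK]
    unfold rE24
    omega
  have hc3e : e + (m + 1) = (G.z i q₀).1 + T + 1 := by omega
  have hN := geo.hN
  have hhi : Γ.hi = Γ.k + Γ.N := rfl
  have XW := H4 T k2 κ η hFX Γ e m hs he24 hm ((mul_le_mul_of_nonneg_left hmR (abs_nonneg _)).trans hhT) (fun v hv => by
    obtain ⟨g1, g2⟩ := geo.win e v (by omega) (by omega) (hv.trans (mul_le_mul_of_nonneg_right (hd1.trans hρ1) (by rw [← hw]; exact hw0.le)))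
    refine ⟨g1, ?_⟩
    rw [hhi]
    push_cast
    omega) fun v hv => by
    rw [hc3e] at hv
    obtain ⟨g1, g2⟩ := geo.win _ v (by omega) le_rfl (hv.trans (by
      rw [← hw]
      nlinarith))
    refine ⟨g1, ?_⟩
    rw [hhi]
    push_cast at g2
    omega
  -- the letters of `frW0`
  have eN : n' + (n + (m + 1)) = 2 * T := by omega
  have hc3 : σ.c0 i (G.z i q₀) + n' + n + (m + 1) = σ.c3 i (G.z i q₀) := by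
    rw [e0, e3]
    omega
  obtain ⟨c₀, hc₀⟩ : ∃ c₀ : ℕ, c₀ = (G.z i q₀).1 - T + 1 := ⟨_, rfl⟩
  obtain ⟨c₃, hc₃⟩ : ∃ c₃ : ℕ, c₃ = (G.z i q₀).1 + T + 1 := ⟨_, rfl⟩
  rw [← hc₀] at hrow hrowe hk0 hu₀Λ hD₁ hD₂ hP hFC ha hRow hzr hInQ comp lo1 up1 he e0
  rw [← hc₃] at hk0 hζ hP hc3e e3
  rw [← hw, ← hE] at hk0 hP
  rw [← hw] at hζ hu₀Λ hD₁ hD₂
  have hInQ' := hInQ
  unfold InQ10 at hInQ'
  rw [← hw] at hInQ'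
  rw [← hw, ← hE] at comp lo1 up1
  rw [← hE] at hΦ hV h1 h2 hMh hεc hεo hE8
  have XX := XW.hX
  have Xρ := XW.hδρ
  have XT := XW.hδT
  have XU := XW.hδU
  clear XW
  rw [← hw, ← hE, hc3e] at XX
  rw [← hw] at Xρ
  rw [hc3e] at XU
  rw [he] at XX Xρ
  have win0 : ∀ x : ℤ, |(x : ℝ) - ln35 μ s κ c₀| ≤ ρ * w → 0 ≤ x ∧ x ≤ Γ.k + c₀ := fun x hx => by
    rw [hw] at hx
    exact geo.win c₀ x (by omega) (by omega) hx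
  have win1 : ∀ x : ℤ, |(x : ℝ) - ln35 μ s κ (c₀ + n')| ≤ d * w → 0 ≤ x ∧ x ≤ Γ.k + (c₀ + n' : ℕ) := fun x hx => by
    have hx' : |(x : ℝ) - ln35 μ s κ (c₀ + n')| ≤ ρ * w := hx.trans (mul_le_mul_of_nonneg_right (hd1.trans hρ1) hw0.le)
    rw [hw] at hx'
    exact geo.win (c₀ + n') x (by omega) (by omega) hx'
  have hD₁' : ∀ x ∈ D₁, |(x : ℝ) - ln35 μ s κ (c₀ + n')| ≤ d * w := fun x hx => by
    obtain ⟨g1, g2⟩ := hD₁ x hx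
    have := mul_pos hgg hw0
    rw [abs_le]
    constructor <;> linarith
  have hD₂' : ∀ x ∈ D₂, |(x : ℝ) - ln35 μ s κ (c₀ + n')| ≤ d * w := fun x hx => by
    obtain ⟨g1, g2⟩ := hD₂ x hx
    have := mul_pos hgg hw0
    rw [abs_le]
    constructor <;> linarith
  have hDD : ∀ x ∈ D₁ ∪ D₂, |(x : ℝ) - ln35 μ s κ (c₀ + n')| ≤ d * w := fun x hx => by
    rcases mem_union.1 hx with h5 | h5
    · exact hD₁' x h5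
    · exact hD₂' x h5
  obtain ⟨x₀, hx₀⟩ := hne
  have hDi : ∀ j : Bool, ∀ y ∈ (fun b : Bool => bif b then D₂ else D₁) j, |(y : ℝ) - ln35 μ s κ (c₀ + n')| ≤ d * w := fun j y hy => by
    cases j
    · exact hD₁' y hy
    · exact hD₂' y hy
  have e01 : (0 : ℝ) + 1 = 1 := zero_add 1
  have hab : a₀ ≤ b₀ := by rw [hb₀]; linarith
  have hE0 : 0 ≤ E := by linarith
  have hΛd : |(x₀ : ℝ) - ln35 μ s κ (c₀ + n')| ≤ d * w := hDD x₀ hx₀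
  have key : (1 - (e' + 1 / 4)) * (7 / 8) ≤ ∑ b ∈ QF G i q₀ S 0 Γ.hi, Γ.w b η := ?_
  · linarith
  refine frW0 (μ := μ) (s := s) (h := Γ.h) (η := η) (M := Γ.M) (Γ := Γ) (σ := σ) (j := i) (z := G.z i q₀)
    (δ := dX24 μ s dX T κ) (δ' := dY24 μ s T κ c₃) (β := fun b => bif b then D₂ else D₁) (L := Real.exp (Lx * E)) (Lk := σ.Φ i) (Mh := Mh)
    (εc := εc) (εo := εo) (A₁ := A₁) (A₂ := A₂) (Λ := Lam12 μ s Γ.h Γ.M c₀ n') (P₂ := PX) (P := P₁) (P₀ := P₀) (q := (qX + 2) * gr PX 64)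
    (κ := c / 262144) (U := U + 2) (G := GX) (E := E) (w := w) (ce := ln35 μ s κ (c₀ + n' + n)) (cz := ln35 μ s κ c₃)
    (ci := ln35 μ s κ (c₀ + n')) (cA := ln35 μ s κ c₀) (c₁ := c / 32) (c₃ := c / 262144) (c₃' := c / 524288) (Q₂ := Q₂) (S₂ := 0)
    (q₁ := q₁) (σ₁ := 1) (CL := CL) (ρ := d) (C₂' := C₂) (a := a₀) (b := b₀) (t2 := (5 * a₀ + 8) * E) (c₁₀ := c₁₀) (c₃₀ := c₃₀) (Q₀ := Q₀)
    (S₀ := S₀) (D₀ := d + Λ) (v₀ := κ.2 + cE24 μ s T) (u := u₀) hΓ hη (n' := n') (n := n) (m := m) hc3 (by rw [e3]; omega)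
    (fun x v => by rw [hk0, eN]) hQ₀ hS₀ h30 h30' (Q := QF G i q₀ S 0 Γ.hi) ?_ ?_ he1' he2 (Lam12_pos _ _ _) ?_ hE8 hw0 hCL.le hq₁
    zero_le_one ?_ ?_ ?_ ?_ ?_ (by have := gr_nonneg PX (show (0 : ℝ) ≤ 64 by norm_num); positivity) hQ₂.ge le_rfl le_rfl (by linarith)
    (by linarith) ?_ XT XU ?_ ?_ (x₀ := x₀) hx₀ ?_ hu₀ ?_ ?_ ?_ ?_ hV1 hΦ1 ?_ hab ?_ ?_ ?_ ?_ ?_ ?_ ?_ ?_ ?_ (g1 := 9 * b₀ + 2)
    (gc := 3 * a₀ + 2) (go := 9 * b₀ + 2) le_rfl le_rfl le_rfl ?_ hεc hεo h1 ?_ (ε' := e' + 1 / 4) (by linarith) ?_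
  · -- `hQ`
    rw [e0]
    refine QF_rows gw.ok hiL hrow ?_
    omega
  · -- `hlt`
    intro x hx x' hx'
    have g1 := (hD₁ x hx).2
    have g2 := (hD₂ x' hx').1
    have g3 := mul_pos hgg hw0
    have : (x : ℝ) < x' := by linarith
    exact_mod_cast this
  · -- `hP`
    rw [e0, eN, e01, hE, hw]
    rw [hE, hw] at hP
    exact hP
  · -- `comp`
    intro x z'
    rw [e0]
    exact comp P₁ (hP₁ ▸ le_max_left _ _) _ Q₂ 0 (ln35 μ s κ c₃) m x z' hQ₂0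
  · -- `lo1`
    intro x hx
    rw [e0]
    refine lo1 x (κ.2 + cE24 μ s T) (hDD x hx) ?_
    rw [← he]
    exact (a_near24 he24).trans hdw
  · -- `up1`
    intro x hx
    rw [e0]
    exact up1 (dX24 μ s dX T κ) x (hDD x hx)
  · -- `hX`
    rw [e0]
    exact XX
  · exact hP₁ ▸ le_max_right _ _
  · -- `hβS`
    intro x hx
    obtain ⟨g1, g2⟩ := win1 x (hDD x hx)
    rw [mem_Icc]
    refine ⟨g1, ?_⟩
    rw [hhi]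
    push_cast at g2 ⊢
    omega
  · exact hDD
  · exact Xρ
  · -- `hxv`
    intro v hv
    refine H5 T k3 n hn κ (c₀ + n') x₀ v ?_ (by rw [← hw]; exact Xρ v hv)
    rw [← hw]
    exact hΛd.trans (mul_le_mul_of_nonneg_right (le_max_right _ _) hw0.le)
  · -- `huk`
    intro j
    rw [e0]
    exact (win0 (u₀ j) ((hu₀Λ j).trans (mul_le_mul_of_nonneg_right hΛρ hw0.le))).2
  · -- `huβ`
    intro j y hy
    refine H5 T k3 n' hn' κ c₀ (u₀ j) y ?_ (by rw [← hw]; exact hDi j y hy)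
    rw [← hw]
    exact (hu₀Λ j).trans (mul_le_mul_of_nonneg_right (le_max_left _ _) hw0.le)
  · -- `huD`
    intro j y hy
    have g1 := hDi j y hy
    have g2 := hu₀Λ j
    have g3 := abs_sub ((y : ℝ) - ln35 μ s κ (c₀ + n')) ((u₀ j : ℝ) - ln35 μ s κ c₀)
    rw [add_mul]
    linarith
  · -- the window
    intro v hv
    have g1 := mem_dY24.1 hv
    rw [← hw] at g1
    exact hζ v g1
  · exact hC₂.ge
  · rw [ha₀]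
    linarith
  · rw [ha₀]
    linarith
  · -- `hL`
    refine Real.exp_le_exp.2 ?_
    have g1 : Lx ≤ a₀ / 2 := by rw [ha₀]; linarith
    have := mul_le_mul_of_nonneg_right g1 hE0
    linarith
  · -- `hLk`
    refine hΦ.trans (Real.exp_le_exp.2 (mul_le_mul_of_nonneg_right ?_ hE0))
    rw [hb₀]
    linarith
  · -- `hMh`
    refine hMh.trans (Real.exp_le_exp.2 (mul_le_mul_of_nonneg_right ?_ hE0))
    rw [hb₀]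
    linarith
  · -- `hVb`
    refine hV.trans (Real.exp_le_exp.2 ?_)
    have g1 : v ≤ b₀ / 2 := by rw [hb₀]; linarith
    have := mul_le_mul_of_nonneg_right g1 hE0
    linarith
  · -- `hΦb`
    refine (mul_le_mul_of_nonneg_left hΦ (Real.exp_pos _).le).trans ?_
    rw [← Real.exp_add]
    refine Real.exp_le_exp.2 ?_
    have g1 : c₃₀ * (d + Λ) ≤ c / 524288 * (d + Λ) := mul_le_mul_of_nonneg_right h30' (by linarith)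
    have g2 : (Q₂ + q₁) * gr P₁ (AQ P₁ (c / 32) (Q₂ + q₁) + d) + (0 + 1) + c₃₀ * (d + Λ) + φ ≤ b₀ / 2 := by
      rw [hb₀, hCφ]
      linarith
    have := mul_le_mul_of_nonneg_right g2 hE0
    linarith
  · linarith
  · linarith
  · -- `k2`
    have g1 : 8 * 1 ≤ 8 * E := by linarith
    nlinarith
  · exact h2
  · -- `hin`
    intro x hx x' hx' y hy y' hy'
    rw [e0]
    refine Hs74.hin_cx74 (wt_pos η) Γ (by linarith) he' ?_ ?_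
    · have g1 : |Γ.h| * n ≤ |Γ.h| * T := mul_le_mul_of_nonneg_left hnR (abs_nonneg _)
      linarith
    · obtain ⟨a1, a2⟩ := hD₁ x hx
      obtain ⟨a3, a4⟩ := hD₂ x' hx'
      have yy : ∀ y ∈ dX24 μ s dX T κ, |(y : ℝ) - (ln35 μ s κ (c₀ + n') + sl μ s * n)| ≤ d * w := fun y hy => by
        have := Xρ y hy
        rwa [P24.ln35_add] at this
      refine hInQ' 0 (fun _ => Real.exp Γ.s) (fun _ => Real.exp_pos _) (fun k _ _ => by rw [hs, add_zero]) S 0 Γ.hi hS (fun k q g1 g2 g3 => ?_)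
        x x' y y' a1 a2 a3 a4 (yy y hy) (yy y' hy')
      have g4 : |(q : ℝ) - ln35 μ s κ k| ≤ ρ * wd μ s T := by
        have e4 : (q : ℝ) - ln35 μ s κ k = (q : ℝ) - xm G i q₀ - sl μ s * ((k : ℝ) - (G.z i q₀).1) := by
          unfold ln35
          rw [eK, eK2]
          push_cast
          ring
        rw [e4, ← hw]
        exact g3.trans (mul_le_mul_of_nonneg_right hRρ hw0.le)
      obtain ⟨g5, g6⟩ := geo.win k q (by omega) (by omega) g4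
      refine ⟨g5, g6.trans ?_⟩
      rw [hhi]
      omega

end

end Pool.Agent.W_7d29a1_C1.Fr47
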