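import Pool.Agent.W_7d29a1_C1.JnF35
import Pool.Agent.W_7d29a1_C1.PshT35

/-!
MP_7d29a1_pr, [C1], SHELL, FRESH BALL: **THE WEIGHT OF THE BALL WITH TWO EXPONENTS IN THE LANES** (helper35).

* `w35i` : from the seam at the row `i = c₀'` (slope `jph .. kap31 .. G47`), inside, exit, `loG`, `phi`, meeting: needs only
  `e2' ≤ exp (- (2 a E + 8))`, `e1' ≤ exp (- ((2 a + 4 b) E + 8))`, `a + 2 b + 1 ≤ G`;
* `num35` : the two numbers behind the lanes: the crossing `εc` meets `a` only, never `Φ`, `V`, `Lk`, `Mh`, `L₂`;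
* `w35b` : seam at `c₀`, `PshT`, `w35i`.
-/

set_option autoImplicit false

namespace Pool.Agent.W_7d29a1_C1.JnE35

open Finset
open Pool.Agent.W_7d29a1_F (Env)
open Pool.Agent.W_7d29a1_C1.K91 (Grp Box wt wt_pos)
open Pool.Agent.W_7d29a1_C1.K91P
open Pool.Agent.W_7d29a1_C1.U16 (ker)
open Pool.Agent.W_7d29a1_C1.Bx47
open Pool.Agent.W_7d29a1_C1.S83
open Pool.Agent.W_7d29a1_C1.FarK89 (gr AQ)
open Pool.Agent.W_7d29a1_C1.H60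
open Pool.Agent.W_7d29a1_C1.Fr47
open Pool.Agent.W_7d29a1_C1.D31 (kap31)

noncomputable section

/-- A product of powers of the exponential. -/
theorem exp_pow35 (k : ℕ) (x : ℝ) : Real.exp x ^ k = Real.exp (k * x) := by rw [← Real.exp_nat_mul]

theorem exp8_35 : Real.exp (-8) ≤ 1 / 256 := by
  rw [Real.exp_neg, inv_le_comm₀ (Real.exp_pos _) (by norm_num)]
  have h3 : (2 : ℝ) ≤ Real.exp 1 := by
    have := Real.add_one_le_exp (1 : ℝ)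
    linarith
  have h4 : Real.exp 8 = Real.exp 1 ^ 8 := by
    rw [← Real.exp_nat_mul]
    norm_num
  rw [h4]
  calc ((1 : ℝ) / 256)⁻¹ = 2 ^ 8 := by norm_num
    _ ≤ _ := pow_le_pow_left₀ (by norm_num) h3 8

/-- The numbers behind the seam at the row `i`. -/
theorem numi35 {E a b G L₁ L₂ Lb V Φ e1 e2 : ℝ} (hE : 8 ≤ E) (ha : 0 ≤ a) (hab : a ≤ b) (hL10 : 0 ≤ L₁) (hL20 : 0 ≤ L₂) (hLb0 : 0 ≤ Lb)
    (hV0 : 0 ≤ V) (hΦ0 : 0 ≤ Φ) (he10 : 0 ≤ e1) (he20 : 0 ≤ e2)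
    (hL1 : L₁ ≤ Real.exp (a * E / 2)) (hLb : Lb ≤ Real.exp (a * E / 2)) (hL2 : L₂ ≤ Real.exp (b * E / 2))
    (hV : V ≤ Real.exp (b * E / 2)) (hΦ : Φ ≤ Real.exp (b * E / 2)) (h1 : e1 ≤ Real.exp (-((2 * a + 4 * b) * E + 8)))
    (h2 : e2 ≤ Real.exp (-(2 * (a * E) + 8))) (hG : a + 2 * b + 1 ≤ G) :
    Real.exp (-(G * E)) * V * L₁ ^ 2 * L₂ * Φ ≤ 1 / 2 ∧ (2 * L₁ * Lb) ^ 2 * e2 +
      (L₁ * L₂ ^ 2 * V ^ 2 * Φ * Lb) * (2 * L₁ * Lb) * (e1 * (1 + e2)) + Real.exp (-(G * E)) * V * L₁ ^ 2 * L₂ * Φ ≤ 1 / 16 := by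
  have hE0 : 0 ≤ E := by linarith
  have hb : 0 ≤ b := ha.trans hab
  have h8 := exp8_35
  have haE : 0 ≤ a * E := by positivity
  have hbE : 0 ≤ b * E := by positivity
  have he2' : e2 ≤ 1 := h2.trans (Real.exp_le_one_iff.2 (by linarith))
  obtain ⟨x, hx⟩ : ∃ x : ℝ, x = Real.exp (a * E / 2) := ⟨_, rfl⟩
  obtain ⟨y, hy⟩ : ∃ y : ℝ, y = Real.exp (b * E / 2) := ⟨_, rfl⟩
  rw [← hx] at hL1 hLb
  rw [← hy] at hL2 hV hΦ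
  have hx0 : 0 < x := by rw [hx]; exact Real.exp_pos _
  have hy0 : 0 < y := by rw [hy]; exact Real.exp_pos _
  -- the third number
  have t3 : Real.exp (-(G * E)) * V * L₁ ^ 2 * L₂ * Φ ≤ 1 / 256 := by
    calc Real.exp (-(G * E)) * V * L₁ ^ 2 * L₂ * Φ ≤ Real.exp (-(G * E)) * y * x ^ 2 * y * y := by gcongr
      _ = Real.exp (-(G * E) + b * E / 2 + (2 : ℕ) * (a * E / 2) + b * E / 2 + b * E / 2) := by
        rw [Real.exp_add, Real.exp_add, Real.exp_add, Real.exp_add, hx, hy, exp_pow35]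
      _ ≤ Real.exp (-8) := Real.exp_le_exp.2 (by
        have := mul_le_mul_of_nonneg_right hG hE0
        push_cast
        linarith)
      _ ≤ _ := h8
  have t1 : (2 * L₁ * Lb) ^ 2 * e2 ≤ 4 / 256 := by
    calc (2 * L₁ * Lb) ^ 2 * e2 ≤ (2 * x * x) ^ 2 * Real.exp (-(2 * (a * E) + 8)) := by gcongr
      _ = 4 * (x ^ 4 * Real.exp (-(2 * (a * E) + 8))) := by ring
      _ = 4 * Real.exp (-8) := by
        rw [hx, exp_pow35, ← Real.exp_add]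
        congr 2
        push_cast
        ring
      _ ≤ _ := by linarith
  have t2 : (L₁ * L₂ ^ 2 * V ^ 2 * Φ * Lb) * (2 * L₁ * Lb) * (e1 * (1 + e2)) ≤ 4 / 256 := by
    calc (L₁ * L₂ ^ 2 * V ^ 2 * Φ * Lb) * (2 * L₁ * Lb) * (e1 * (1 + e2))
        ≤ (x * y ^ 2 * y ^ 2 * y * x) * (2 * x * x) * (Real.exp (-((2 * a + 4 * b) * E + 8)) * (1 + 1)) := by gcongr
      _ = 4 * (x ^ 4 * y ^ 5 * Real.exp (-((2 * a + 4 * b) * E + 8))) := by ring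
      _ = 4 * Real.exp ((4 : ℕ) * (a * E / 2) + (5 : ℕ) * (b * E / 2) + -((2 * a + 4 * b) * E + 8)) := by
        rw [hx, hy, exp_pow35, exp_pow35, Real.exp_add, Real.exp_add]
      _ ≤ 4 * Real.exp (-8) := mul_le_mul_of_nonneg_left (Real.exp_le_exp.2 (by
        push_cast
        linarith)) (by norm_num)
      _ ≤ _ := by linarith
  exact ⟨by linarith, by linarith⟩

variable {μ : MeasureTheory.Measure ℝ} {s h : ℝ} {η : Env} {M : ℕ} {Γ : Cx} {C₁ C₂ β₁ β₂ δ δ' : Finset ℤ} {ph : ℤ → ℝ}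
  {L Lk Mh R εc εo A₁ A₂ V Φ G₀ Λ : ℝ} {P₂ P : ℕ} {q κ U G E w ce cz ci c₁ c₃ c₃' Q₂ S₂ q₁ σ CL ρ C₂' a b t2 : ℝ} {v₀ : ℤ}

/-- **THE WEIGHT OF THE BALL FROM THE SEAM BEHIND THE LANES.** Rows `i`, `e = i + n`, `c3 = e + (m + 1)`. -/
theorem w35i (hk : 1 ≤ Γ.k) (hq0 : ∀ j, j < Γ.k → 0 ≤ Γ.q j) (hq1 : ∃ j, j < Γ.k ∧ 0 < Γ.q j) {i n m : ℕ}
    (hN : i + n + (m + 1) ≤ Γ.N) {Q : Finset (ℕ × ℤ)} (hQ : Q ⊆ Ico i (i + n) ×ˢ Icc (0 : ℤ) Γ.hi)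
    (hlt : ∀ x ∈ β₁, ∀ x' ∈ β₂, x < x') {e1' e2' : ℝ} (he1 : 0 ≤ e1') (he2 : 0 ≤ e2')
    (hS : SeamI (Icc 0 Γ.hi) β₁ β₂ (fw (wt η) Γ.p Cx.l i) (fw (wt η) Γ.p Γ.r i)
      (jph (Icc 0 Γ.hi) (kap31 P c₁ c₃' (Q₂ + q₁) (S₂ + σ) E w ci cz (n + (m + 1))) (G47 μ s h η Γ.p M Γ.N i n m) G₀) e1' e2')
    -- the inside
    (hE8 : 8 ≤ E) (hw : 0 < w) (hCL : 0 ≤ CL) (hq₁ : 0 ≤ q₁) (hσ : 0 ≤ σ)
    (comp : ∀ x z : ℤ, ∑ y ∈ Icc (0 : ℤ) (Γ.hi - ((m + 1 : ℕ) : ℤ)), K147 μ s h η Γ.p M i n x y *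
      kap31 P c₁ c₃ Q₂ S₂ E w ce cz (m + 1) y z ≤ kap31 P c₁ c₃' (Q₂ + q₁) (S₂ + σ) E w ci cz (n + (m + 1)) x z)
    (lo1 : ∀ x ∈ β₁ ∪ β₂, 1 ≤ Real.exp (CL * E) * ∑ y ∈ ({v₀} : Finset ℤ), K147 μ s h η Γ.p M i n x y)
    (up1 : ∀ x ∈ β₁ ∪ β₂, ∑ y ∈ δ, K147 μ s h η Γ.p M i n x y ≤ Real.exp (CL * E) * 1)
    -- the exit
    (hX : Ex35 P₂ q κ U G E w ce cz v₀ (m + 1) δ δ' (K247 μ s h η Γ.p M (i + n) m)) (hPP : P₂ ≤ P) (hq : 0 ≤ q) (hqQ : q ≤ Q₂)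
    (hS₂ : 0 ≤ S₂) (hc₃ : c₃ ≤ κ) (hc₃' : 0 ≤ c₃') (h3 : c₃' ≤ c₃) (hU : 0 ≤ U)
    -- the windows
    (hβS : β₁ ∪ β₂ ⊆ Icc 0 (Γ.hi - (n + (m + 1) : ℕ))) (hδT : δ ⊆ Icc 0 (Γ.hi - ((m + 1 : ℕ) : ℤ))) (hδU : δ' ⊆ Icc 0 Γ.hi)
    (hβρ : ∀ x ∈ β₁ ∪ β₂, |(x : ℝ) - ci| ≤ ρ * w) (hδρ : ∀ v ∈ δ, |(v : ℝ) - ce| ≤ ρ * w) {x₀ : ℤ} (hx₀ : x₀ ∈ β₁ ∪ β₂)
    (hxv : ∀ v ∈ δ, x₀ ≤ v ∧ v ≤ x₀ + n)
    -- the future
    (hV : 1 ≤ V) (hΦ : 1 ≤ Φ) (hG₀ : 0 < G₀) (loG : ∀ z ∈ δ', G₀ ≤ V * G47 μ s h η Γ.p M Γ.N i n m z)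
    (phi : ∀ x ∈ β₁ ∪ β₂, ∑ z ∈ Icc 0 Γ.hi, kap31 P c₁ c₃' (Q₂ + q₁) (S₂ + σ) E w ci cz (n + (m + 1)) x z *
      G47 μ s h η Γ.p M Γ.N i n m z ≤ Φ * G₀)
    -- the numbers
    (hC₂ : Q₂ * gr P (AQ P c₁ Q₂ + ρ) + S₂ + 2 * (ρ * c₃') ≤ C₂') (ha : 0 ≤ a) (hab : a ≤ b) (aCL : 2 * CL ≤ a) (aU : 2 * U + 2 ≤ a)
    (hVb : V ≤ Real.exp (b * E / 2)) (hΦb : Φ ≤ Real.exp (b * E / 2)) (k4 : a + 2 * b + 1 ≤ G) (k5 : C₂' + b ≤ G)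
    (h1 : e1' ≤ Real.exp (-((2 * a + 4 * b) * E + 8))) (h2 : e2' ≤ Real.exp (-(2 * (a * E) + 8))) {ε' : ℝ} (hε' : ε' ≤ 1)
    (hin : ∀ x ∈ β₁, ∀ x' ∈ β₂, ∀ y ∈ δ, ∀ y' ∈ δ,
      (1 - ε') * (ker (wt η) Γ.p i n x y * ker (wt η) Γ.p i n x' y') ≤ mq (wt η) Γ.p Q i n x x' y y') :
    (1 - ε') * (7 / 8) ≤ ∑ c ∈ Q, Γ.w c η := by
  have hE : 0 < E := by linarith
  have hb : 0 ≤ b := ha.trans hab
  have g0 : ∀ z, 0 ≤ G47 μ s h η Γ.p M Γ.N i n m z := fun z => G47_nonneg H83.p_pos _ _ _ _ z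
  have hJ := jntE35 (S := Icc 0 (Γ.hi - (n + (m + 1) : ℕ))) (T := Icc 0 (Γ.hi - ((m + 1 : ℕ) : ℤ))) (Uu := Icc 0 Γ.hi) (C := β₁ ∪ β₂)
    (K₁ := K147 μ s h η Γ.p M i n) (g := G47 μ s h η Γ.p M Γ.N i n m) (c₃' := c₃') (q₁ := q₁) (σ := σ) (n := n)
    (ci := ci) (c₁ := c₁) hE hw hX hPP hq hqQ hS₂ hc₃ hU hCL (fun x y => K147_nonneg H83.p_pos _ _ x y) g0 hV hΦ hG₀ hβS hδT hδU
    (fun x _ z _ => comp x z) lo1 loG phi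
  have hB : ∀ v ∈ δ, B47 μ s h η Γ.p M Γ.N i n v = ∑ z ∈ Icc 0 Γ.hi, K247 μ s h η Γ.p M (i + n) m v z *
      G47 μ s h η Γ.p M Γ.N i n m z := fun v hv =>
    hB47 hN (mem_Icc.1 (hδT hv)).1 (mem_Icc.1 (hδT hv)).2
  have hsm : Real.exp (-(G * E)) * Real.exp (C₂' * E) * Φ * V ≤ 1 := by
    calc Real.exp (-(G * E)) * Real.exp (C₂' * E) * Φ * V
        ≤ Real.exp (-(G * E)) * Real.exp (C₂' * E) * Real.exp (b * E / 2) * Real.exp (b * E / 2) := by gcongr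
      _ = Real.exp ((C₂' + b - G) * E) := by
        rw [← Real.exp_add, ← Real.exp_add, ← Real.exp_add]
        congr 1
        ring
      _ ≤ 1 := by
        rw [Real.exp_le_one_iff]
        exact mul_nonpos_of_nonpos_of_nonneg (by linarith) hE.le
  have hcu : ∀ v ∈ δ, B47 μ s h η Γ.p M Γ.N i n v ≤ 2 * Real.exp (U * E) * B47 μ s h η Γ.p M Γ.N i n v₀ :=
    fun v hv => cuE35 (q₁ := q₁) (σ := σ) (c₃' := c₃') (ci := ci) (c₁ := c₁) (n := n) hE hw hX hPP hq hqQ hS₂ hc₃ hc₃' h3 hq₁ hσ g0 hV hΦ hG₀ hδU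
      loG phi hB hC₂ hsm hv (hδρ v hv) ⟨x₀, hx₀, (hxv v hv).1, (hxv v hv).2, hβρ x₀ hx₀⟩
  obtain ⟨B00, hcl⟩ := clE35 hX hE.le hU g0 hB
  have hLb : 2 * Real.exp (U * E) ≤ Real.exp (a * E / 2) := by
    have e1 : (2 : ℝ) ≤ Real.exp E := by
      have := Real.add_one_le_exp E
      linarith
    calc 2 * Real.exp (U * E) ≤ Real.exp E * Real.exp (U * E) := mul_le_mul_of_nonneg_right e1 (Real.exp_pos _).le
      _ = Real.exp ((2 * U + 2) * E / 2) := by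
        rw [← Real.exp_add]
        congr 1
        ring
      _ ≤ _ := Real.exp_le_exp.2 (by
        have := mul_le_mul_of_nonneg_right aU hE.le
        linarith)
  have hL1 : Real.exp (CL * E) ≤ Real.exp (a * E / 2) := Real.exp_le_exp.2 (by
    have := mul_le_mul_of_nonneg_right aCL hE.le
    linarith)
  have hL2 : Real.exp (U * E) ≤ Real.exp (b * E / 2) := Real.exp_le_exp.2 (by
    have := mul_le_mul_of_nonneg_right (show 2 * U ≤ b by linarith) hE.le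
    linarith)
  obtain ⟨n1, n2⟩ := numi35 (E := E) (a := a) (b := b) (G := G) hE8 ha hab (Real.exp_pos (CL * E)).le (Real.exp_pos (U * E)).le
    (show 0 ≤ 2 * Real.exp (U * E) by positivity) (zero_le_one.trans hV) (zero_le_one.trans hΦ) he1 he2 hL1 hLb hL2 hVb hΦb h1 h2 k4
  have hfin := d3K_Cx (Γ := Γ) (Lb := 2 * Real.exp (U * E)) (B₀ := B47 μ s h η Γ.p M Γ.N i n v₀) (z := 1 / 16) hk hq0 hq1 rfl hN hQ hlt hJ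
    (fun v hv => hB47 hN (mem_Icc.1 hv).1 (mem_Icc.1 hv).2) (fun x _ y _ => hKB47 _ _ _ x y) up1 B00 (by positivity) hcu hcl
    (mem_singleton_self v₀) hε' he1 he2 rfl n1 n2 (by norm_num) hin hS
  have e1 : (1 : ℝ) - 2 * (1 / 16) = 7 / 8 := by norm_num
  rwa [e1] at hfin

/-- **The numbers of the lanes**: `a` = the costs which meet the tuning and the crossing, `b` = all the costs. -/
theorem num35 {E a b g1 gc go t2 L Lk Mh R εc εo e1 e2 : ℝ} (hE : 8 ≤ E) (ha : 2 ≤ a) (hab : a ≤ b) (hL0 : 0 ≤ L) (hLk0 : 0 ≤ Lk)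
    (hM0 : 0 ≤ Mh) (hR0 : 0 ≤ R) (hεc0 : 0 ≤ εc) (hεo0 : 0 ≤ εo) (he10 : 0 ≤ e1) (he20 : 0 ≤ e2)
    (hL : L ≤ Real.exp (a * E / 2)) (hR : R ≤ Real.exp (a * E / 2)) (hLk : Lk ≤ Real.exp (b * E)) (hMh : Mh ≤ Real.exp (b * E))
    (kc : 3 * a + 2 ≤ gc) (ko : 9 * b + 2 ≤ go) (k1 : 9 * b + 2 ≤ g1) (k2 : 5 * (a * E) + 8 ≤ t2) (hc : εc ≤ Real.exp (-(gc * E)))
    (ho : εo ≤ Real.exp (-(go * E))) (h1 : e1 ≤ Real.exp (-(g1 * E))) (h2 : e2 ≤ Real.exp (-t2)) :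
    L * (εo * (1 + R * e2) + Lk * (e1 * (1 + e2))) ≤ Real.exp (-((2 * a + 4 * b) * E + 8)) ∧
    L * (εc + L * R * e2 + Mh * Lk * (e1 * (1 + e2))) ≤ Real.exp (-(2 * (a * E) + 8)) := by
  have hE0 : 0 ≤ E := by linarith
  have h8 := exp8_35
  have haE : 2 * E ≤ a * E := mul_le_mul_of_nonneg_right ha hE0
  have hbE : a * E ≤ b * E := mul_le_mul_of_nonneg_right hab hE0
  have kc' := mul_le_mul_of_nonneg_right kc hE0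
  have ko' := mul_le_mul_of_nonneg_right ko hE0
  have k1' := mul_le_mul_of_nonneg_right k1 hE0
  have he2' : e2 ≤ 1 := h2.trans (Real.exp_le_one_iff.2 (by linarith))
  have hRe : R * e2 ≤ 1 := by
    calc R * e2 ≤ Real.exp (a * E / 2) * Real.exp (-t2) := by gcongr
      _ = Real.exp (a * E / 2 + -t2) := by rw [Real.exp_add]
      _ ≤ 1 := Real.exp_le_one_iff.2 (by linarith)
  -- one term
  have tm : ∀ {u v : ℝ}, u ≤ v - 8 → Real.exp u ≤ Real.exp v / 256 := by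
    intro u v huv
    calc Real.exp u ≤ Real.exp (v + -8) := Real.exp_le_exp.2 (by linarith)
      _ = Real.exp v * Real.exp (-8) := by rw [Real.exp_add]
      _ ≤ Real.exp v * (1 / 256) := mul_le_mul_of_nonneg_left h8 (Real.exp_pos _).le
      _ = _ := by ring
  constructor
  · obtain ⟨W, hW⟩ : ∃ W : ℝ, W = Real.exp (-((2 * a + 4 * b) * E + 8)) := ⟨_, rfl⟩
    have f1 : Real.exp (a * E / 2) * Real.exp (-(go * E)) ≤ W / 256 := by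
      rw [← Real.exp_add, hW]
      exact tm (by linarith)
    have f2 : Real.exp (a * E / 2) * Real.exp (b * E) * Real.exp (-(g1 * E)) ≤ W / 256 := by
      rw [← Real.exp_add, ← Real.exp_add, hW]
      exact tm (by linarith)
    calc L * (εo * (1 + R * e2) + Lk * (e1 * (1 + e2)))
        ≤ Real.exp (a * E / 2) * (Real.exp (-(go * E)) * (1 + 1) + Real.exp (b * E) * (Real.exp (-(g1 * E)) * (1 + 1))) := by gcongr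
      _ = 2 * (Real.exp (a * E / 2) * Real.exp (-(go * E))) + 2 * (Real.exp (a * E / 2) * Real.exp (b * E) * Real.exp (-(g1 * E))) := by ring
      _ ≤ 2 * (W / 256) + 2 * (W / 256) := by linarith
      _ ≤ W := by
        have : 0 < W := by rw [hW]; exact Real.exp_pos _
        linarith
      _ = _ := hW
  · obtain ⟨W, hW⟩ : ∃ W : ℝ, W = Real.exp (-(2 * (a * E) + 8)) := ⟨_, rfl⟩
    have f1 : Real.exp (a * E / 2) * Real.exp (-(gc * E)) ≤ W / 256 := by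
      rw [← Real.exp_add, hW]
      exact tm (by linarith)
    have f2 : Real.exp (a * E / 2) * Real.exp (a * E / 2) * Real.exp (a * E / 2) * Real.exp (-t2) ≤ W / 256 := by
      rw [← Real.exp_add, ← Real.exp_add, ← Real.exp_add, hW]
      exact tm (by linarith)
    have f3 : Real.exp (a * E / 2) * Real.exp (b * E) * Real.exp (b * E) * Real.exp (-(g1 * E)) ≤ W / 256 := by
      rw [← Real.exp_add, ← Real.exp_add, ← Real.exp_add, hW]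
      exact tm (by linarith)
    calc L * (εc + L * R * e2 + Mh * Lk * (e1 * (1 + e2)))
        ≤ Real.exp (a * E / 2) * (Real.exp (-(gc * E)) + Real.exp (a * E / 2) * Real.exp (a * E / 2) * Real.exp (-t2) +
          Real.exp (b * E) * Real.exp (b * E) * (Real.exp (-(g1 * E)) * (1 + 1))) := by gcongr
      _ = Real.exp (a * E / 2) * Real.exp (-(gc * E)) + Real.exp (a * E / 2) * Real.exp (a * E / 2) * Real.exp (a * E / 2) * Real.exp (-t2) +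
          2 * (Real.exp (a * E / 2) * Real.exp (b * E) * Real.exp (b * E) * Real.exp (-(g1 * E))) := by ring
      _ ≤ W / 256 + W / 256 + 2 * (W / 256) := by linarith
      _ ≤ W := by
        have : 0 < W := by rw [hW]; exact Real.exp_pos _
        linarith
      _ = _ := hW

/-- **THE WEIGHT OF THE BALL, TWO EXPONENTS IN THE LANES.** Rows `c₀`, `i = c₀ + n'`, `e = i + n`, `c3 = e + (m + 1)`. -/
theorem w35b (hk : 1 ≤ Γ.k) (hq0 : ∀ j, j < Γ.k → 0 ≤ Γ.q j) (hq1 : ∃ j, j < Γ.k ∧ 0 < Γ.q j) {c₀ n' n m : ℕ}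
    (hN : c₀ + n' + n + (m + 1) ≤ Γ.N) {Q : Finset (ℕ × ℤ)}
    (hQ : Q ⊆ Ico (c₀ + n') (c₀ + n' + n) ×ˢ Icc (0 : ℤ) Γ.hi)
    (hlt : ∀ x ∈ β₁, ∀ x' ∈ β₂, x < x') {e1 e2 : ℝ} (he1 : 0 ≤ e1) (he2 : 0 ≤ e2) (hΛ : 0 < Λ)
    (hS : SeamI (Icc 0 Γ.hi) C₁ C₂ (fw (wt η) Γ.p Cx.l c₀) (fw (wt η) Γ.p Γ.r c₀) ph e1 e2)
    (hP : PshT (Icc 0 Γ.hi) (Icc 0 Γ.hi) C₁ C₂ β₁ β₂ (fun x y => ker (wt η) Γ.p c₀ n' x y / Λ) ph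
      (jph (Icc 0 Γ.hi) (kap31 P c₁ c₃' (Q₂ + q₁) (S₂ + σ) E w ci cz (n + (m + 1))) (G47 μ s h η Γ.p M Γ.N (c₀ + n') n m) G₀)
      A₁ A₂ L Lk Mh R εc εo)
    -- the inside
    (hE8 : 8 ≤ E) (hw : 0 < w) (hCL : 0 ≤ CL) (hq₁ : 0 ≤ q₁) (hσ : 0 ≤ σ)
    (comp : ∀ x z : ℤ, ∑ y ∈ Icc (0 : ℤ) (Γ.hi - ((m + 1 : ℕ) : ℤ)), K147 μ s h η Γ.p M (c₀ + n') n x y *
      kap31 P c₁ c₃ Q₂ S₂ E w ce cz (m + 1) y z ≤ kap31 P c₁ c₃' (Q₂ + q₁) (S₂ + σ) E w ci cz (n + (m + 1)) x z)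
    (lo1 : ∀ x ∈ β₁ ∪ β₂, 1 ≤ Real.exp (CL * E) * ∑ y ∈ ({v₀} : Finset ℤ), K147 μ s h η Γ.p M (c₀ + n') n x y)
    (up1 : ∀ x ∈ β₁ ∪ β₂, ∑ y ∈ δ, K147 μ s h η Γ.p M (c₀ + n') n x y ≤ Real.exp (CL * E) * 1)
    -- the exit
    (hX : Ex35 P₂ q κ U G E w ce cz v₀ (m + 1) δ δ' (K247 μ s h η Γ.p M (c₀ + n' + n) m)) (hPP : P₂ ≤ P) (hq : 0 ≤ q) (hqQ : q ≤ Q₂)
    (hS₂ : 0 ≤ S₂) (hc₃ : c₃ ≤ κ) (hc₃' : 0 ≤ c₃') (h3 : c₃' ≤ c₃) (hU : 0 ≤ U)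
    -- the windows
    (hβS : β₁ ∪ β₂ ⊆ Icc 0 (Γ.hi - (n + (m + 1) : ℕ))) (hδT : δ ⊆ Icc 0 (Γ.hi - ((m + 1 : ℕ) : ℤ))) (hδU : δ' ⊆ Icc 0 Γ.hi)
    (hβρ : ∀ x ∈ β₁ ∪ β₂, |(x : ℝ) - ci| ≤ ρ * w) (hδρ : ∀ v ∈ δ, |(v : ℝ) - ce| ≤ ρ * w) {x₀ : ℤ} (hx₀ : x₀ ∈ β₁ ∪ β₂)
    (hxv : ∀ v ∈ δ, x₀ ≤ v ∧ v ≤ x₀ + n)
    -- the future
    (hV : 1 ≤ V) (hΦ : 1 ≤ Φ) (hG₀ : 0 < G₀) (loG : ∀ z ∈ δ', G₀ ≤ V * G47 μ s h η Γ.p M Γ.N (c₀ + n') n m z)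
    (phi : ∀ x ∈ β₁ ∪ β₂, ∑ z ∈ Icc 0 Γ.hi, kap31 P c₁ c₃' (Q₂ + q₁) (S₂ + σ) E w ci cz (n + (m + 1)) x z *
      G47 μ s h η Γ.p M Γ.N (c₀ + n') n m z ≤ Φ * G₀)
    -- the numbers
    (hC₂ : Q₂ * gr P (AQ P c₁ Q₂ + ρ) + S₂ + 2 * (ρ * c₃') ≤ C₂') (hab : a ≤ b) (aCL : 2 * CL ≤ a) (aU : 2 * U + 2 ≤ a)
    (hL : L ≤ Real.exp (a * E / 2)) (hR : R ≤ Real.exp (a * E / 2)) (hLk : Lk ≤ Real.exp (b * E)) (hMh : Mh ≤ Real.exp (b * E))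
    (hVb : V ≤ Real.exp (b * E / 2)) (hΦb : Φ ≤ Real.exp (b * E / 2)) (k4 : a + 2 * b + 1 ≤ G) (k5 : C₂' + b ≤ G)
    {g1 gc go : ℝ} (kc : 3 * a + 2 ≤ gc) (ko : 9 * b + 2 ≤ go) (k1 : 9 * b + 2 ≤ g1) (k2 : 5 * (a * E) + 8 ≤ t2)
    (hεc : εc ≤ Real.exp (-(gc * E))) (hεo : εo ≤ Real.exp (-(go * E))) (h1 : e1 ≤ Real.exp (-(g1 * E))) (h2 : e2 ≤ Real.exp (-t2))
    {ε' : ℝ} (hε' : ε' ≤ 1)
    (hin : ∀ x ∈ β₁, ∀ x' ∈ β₂, ∀ y ∈ δ, ∀ y' ∈ δ,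
      (1 - ε') * (ker (wt η) Γ.p (c₀ + n') n x y * ker (wt η) Γ.p (c₀ + n') n x' y') ≤
        mq (wt η) Γ.p Q (c₀ + n') n x x' y y') :
    (1 - ε') * (7 / 8) ≤ ∑ c ∈ Q, Γ.w c η := by
  have hβ : Disjoint β₁ β₂ := disjoint_left.2 fun x hx hx' => absurd (hlt x hx x hx') (lt_irrefl x)
  have h0L := hP.L0
  have h0Lk := hP.Lk0
  have h0R := hP.R0
  have h0M := hP.M0
  have h0c := hP.εc0
  have h0o := hP.εo0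
  have ha2 : 2 ≤ a := by linarith
  obtain ⟨n1, n2⟩ := num35 (gc := gc) (go := go) (g1 := g1) (t2 := t2) hE8 ha2 hab h0L h0Lk h0M h0R h0c h0o he1 he2 hL hR hLk hMh kc ko k1 k2
    hεc hεo h1 h2
  have hI := seam_fwT35 (A₁ := A₁) (A₂ := A₂) (L := L) (Lk := Lk) (M := Mh) (R := R) (εc := εc) (εo := εo) (wt_pos η) H83.p_pos
    (H83.box hk hq0) hΛ hP he1 he2 hS le_rfl le_rfl hβ
  exact w35i (q₁ := q₁) (σ := σ) (Q₂ := Q₂) (S₂ := S₂) (x₀ := x₀) hk hq0 hq1 hN hQ hlt (by positivity) (by positivity) hI hE8 hw hCL hq₁ hσ comp lo1 up1 hX hPP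
    hq hqQ hS₂ hc₃ hc₃' h3 hU hβS hδT hδU hβρ hδρ hx₀ hxv hV hΦ hG₀ loG phi hC₂ (by linarith) hab aCL aU hVb hΦb k4 k5 n1 n2 hε' hin

end

end Pool.Agent.W_7d29a1_C1.JnE35
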