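import Pool.Agent.W_7d29a1_C1.FrG47
import Pool.Agent.W_7d29a1_C1.JnH35
import Pool.Agent.W_7d29a1_C1.InC10
import Pool.Agent.W_7d29a1_C1.Hsw74

/-!
MP_7d29a1_pr, [C1] SHELL, THE FRESH BALL: **THE WEIGHT OF THE BOX FROM THE SET `So47`**, deterministic part. (helper47)

`frW0` : `w35b` with everything of the outside taken from `So47` (seam, size of the future, `Φ` at the cells).
-/

set_option autoImplicit false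

namespace Pool.Agent.W_7d29a1_C1.Fr47

open MeasureTheory Finset
open Pool.Agent.W_7d29a1_F Pool.Agent.W_7d29a1_h4g Pool.Agent.W_7d29a1_H Pool.Agent.W_7d29a1_HS
open Pool.Agent.W_7d29a1_C1.K91 (wt wt_pos)
open Pool.Agent.W_7d29a1_C1.K91P
open Pool.Agent.W_7d29a1_C1.U16 (ker)
open Pool.Agent.W_7d29a1_C1.Bx47
open Pool.Agent.W_7d29a1_C1.S83
open Pool.Agent.W_7d29a1_C1.Sh21 (SeamIn js)
open Pool.Agent.W_7d29a1_C1.F74 (cl2)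
open Pool.Agent.W_7d29a1_C1.H60
open Pool.Agent.W_7d29a1_C1.JnE35 (Ex35 w35b)
open Pool.Agent.W_7d29a1_C1.S12 (Lam12 Lam12_pos)
open Pool.Agent.W_7d29a1_C1.FarK89 (gr gr_nonneg gr_mono AQ AQ_nonneg)
open Pool.Agent.W_7d29a1_C1.D31 (kap31 kapo31 kap31_nonneg kap31_of_reach kap31_le le_kap31)

noncomputable section

/-- The comparison of two envelopes of different rows and different constants. -/
theorem kap_cmp47 {P P₀ : ℕ} {c₁ c₃ c₁' c₃' Q S Q' S' E w Λ D cen cen₁ cen₃ : ℝ} {N N' : ℕ} {x y v : ℤ} (hE : 0 < E) (hw : 0 < w)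
    (hc₃ : 0 ≤ c₃) (h3 : c₃ ≤ c₃') (hQ : 0 ≤ Q) (hS : 0 ≤ S) (hQ' : 0 ≤ Q') (hy : |(y : ℝ) - cen₁| ≤ Λ * w)
    (hD : |((y : ℝ) - cen₁) - ((x : ℝ) - cen)| ≤ D * w) (hxy : x ≤ y) (hyN : y + N' ≤ x + N) :
    kap31 P c₁' c₃' Q' S' E w cen₁ cen₃ N' y v ≤
      Real.exp ((Q' * gr P (AQ P c₁' Q' + Λ) + S' + c₃ * D) * E) * kap31 P₀ c₁ c₃ Q S E w cen cen₃ N x v := by
  by_cases h1 : y ≤ v ∧ v ≤ y + N'
  swap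
  · have e1 : kap31 P c₁' c₃' Q' S' E w cen₁ cen₃ N' y v = 0 := if_neg h1
    rw [e1]
    exact mul_nonneg (Real.exp_pos _).le (kap31_nonneg _ _)
  rw [kap31_of_reach h1.1 h1.2, kap31_of_reach (show x ≤ v by omega) (show v ≤ x + N by omega)]
  unfold kapo31
  rw [← Real.exp_add]
  refine Real.exp_le_exp.2 ?_
  have k1 : gr P (AQ P c₁' Q' + |(y : ℝ) - cen₁| / w) ≤ gr P (AQ P c₁' Q' + Λ) := by
    refine gr_mono P (add_nonneg (AQ_nonneg P c₁' Q') (by positivity)) (add_le_add le_rfl ?_)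
    rwa [div_le_iff₀ hw]
  have k2 := mul_le_mul_of_nonneg_right (mul_le_mul_of_nonneg_left k1 hQ') hE.le
  have hg : 0 ≤ gr P₀ (AQ P₀ c₁ Q + |(x : ℝ) - cen| / w) := gr_nonneg P₀ (add_nonneg (AQ_nonneg P₀ c₁ Q) (by positivity))
  have k3 : 0 ≤ (Q * gr P₀ (AQ P₀ c₁ Q + |(x : ℝ) - cen| / w) + S) * E := by positivity
  have hEw : 0 ≤ E / w := (div_pos hE hw).le
  have k4 : |((v : ℝ) - cen₃) - ((x : ℝ) - cen)| ≤ |((v : ℝ) - cen₃) - ((y : ℝ) - cen₁)| + D * w := by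
    have := abs_add_le (((v : ℝ) - cen₃) - ((y : ℝ) - cen₁)) (((y : ℝ) - cen₁) - ((x : ℝ) - cen))
    have e : ((v : ℝ) - cen₃) - ((y : ℝ) - cen₁) + (((y : ℝ) - cen₁) - ((x : ℝ) - cen)) = ((v : ℝ) - cen₃) - ((x : ℝ) - cen) := by ring
    rw [e] at this
    linarith
  have k5 := mul_le_mul_of_nonneg_left k4 (mul_nonneg hc₃ hEw)
  have k6 : c₃ * (E / w) * (|((v : ℝ) - cen₃) - ((y : ℝ) - cen₁)| + D * w) =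
      c₃ * (E / w) * |((v : ℝ) - cen₃) - ((y : ℝ) - cen₁)| + c₃ * D * E := by
    field_simp
  rw [k6] at k5
  have k7 : c₃ * (E / w) * |((v : ℝ) - cen₃) - ((y : ℝ) - cen₁)| ≤ c₃' * (E / w) * |((v : ℝ) - cen₃) - ((y : ℝ) - cen₁)| :=
    mul_le_mul_of_nonneg_right (mul_le_mul_of_nonneg_right h3 hEw) (abs_nonneg _)
  linarith

variable {μ : Measure ℝ} {s h : ℝ} {η : Env} {M : ℕ} {Γ : Cx} {σ : NS47} {j : ℕ} {z : ℕ × ℤ}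
  {δ δ' : Finset ℤ} {β : Bool → Finset ℤ}
  {L Lk Mh εc εo A₁ A₂ Λ : ℝ} {P₂ P P₀ : ℕ} {q κ U G E w ce cz ci cA c₁ c₃ c₃' Q₂ S₂ q₁ σ₁ CL ρ C₂' a b t2 c₁₀ c₃₀ Q₀ S₀ D₀ : ℝ} {v₀ : ℤ}
  {u : Bool → ℤ}

/-- **THE WEIGHT OF THE BOX FROM `So47`.** Rows `c₀ = σ.c0`, `c₀' = c₀ + n'`, `e = c₀' + n`, `c3 = e + (m + 1) = σ.c3`. -/
theorem frW0 (hΓ : Γ.Ok) (hη : η ∈ So47 Γ σ j z) {n' n m : ℕ} (hc3 : σ.c0 j z + n' + n + (m + 1) = σ.c3 j z) (hN : σ.c3 j z ≤ Γ.N)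
    -- the envelope of `So47`
    (hκ : ∀ x v : ℤ, σ.k0 j z x v = kap31 P₀ c₁₀ c₃₀ Q₀ S₀ E w cA cz (n' + (n + (m + 1))) x v) (hQ₀ : 0 ≤ Q₀) (hS₀ : 0 ≤ S₀)
    (h30 : 0 ≤ c₃₀) (h30' : c₃₀ ≤ c₃') {Q : Finset (ℕ × ℤ)}
    (hQ : Q ⊆ Ico (σ.c0 j z + n') (σ.c0 j z + n' + n) ×ˢ Icc (0 : ℤ) Γ.hi)
    (hlt : ∀ x ∈ β false, ∀ x' ∈ β true, x < x') (he1 : 0 ≤ σ.e1 j) (he2 : 0 ≤ σ.e2 j) (hΛ : 0 < Λ)
    -- the lanes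
    (hP : PshT (Icc 0 Γ.hi) (Icc 0 Γ.hi) (Icc (z.2 + σ.α₁ j) (z.2 + σ.β₁ j)) (Icc (z.2 + σ.α₂ j) (z.2 + σ.β₂ j)) (β false) (β true)
      (fun x y => ker (wt η) Γ.p (σ.c0 j z) n' x y / Λ)
      (fun x => jph (Icc 0 Γ.hi) (kap31 P₀ c₁₀ c₃₀ Q₀ S₀ E w cA cz (n' + (n + (m + 1)))) (G47 μ s h η Γ.p M Γ.N (σ.c0 j z + n') n m)
        (G1_47 μ s h M Γ σ j z η (σ.c0 j z + n') n m) x / σ.Φ j)
      (jph (Icc 0 Γ.hi) (kap31 P c₁ c₃' (Q₂ + q₁) (S₂ + σ₁) E w ci cz (n + (m + 1))) (G47 μ s h η Γ.p M Γ.N (σ.c0 j z + n') n m)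
        (G1_47 μ s h M Γ σ j z η (σ.c0 j z + n') n m)) A₁ A₂ L Lk Mh 1 εc εo)
    -- the inside
    (hE8 : 8 ≤ E) (hw : 0 < w) (hCL : 0 ≤ CL) (hq₁ : 0 ≤ q₁) (hσ : 0 ≤ σ₁)
    (comp : ∀ x z' : ℤ, ∑ y ∈ Icc (0 : ℤ) (Γ.hi - ((m + 1 : ℕ) : ℤ)), K147 μ s h η Γ.p M (σ.c0 j z + n') n x y *
      kap31 P c₁ c₃ Q₂ S₂ E w ce cz (m + 1) y z' ≤ kap31 P c₁ c₃' (Q₂ + q₁) (S₂ + σ₁) E w ci cz (n + (m + 1)) x z')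
    (lo1 : ∀ x ∈ β false ∪ β true, 1 ≤ Real.exp (CL * E) * ∑ y ∈ ({v₀} : Finset ℤ), K147 μ s h η Γ.p M (σ.c0 j z + n') n x y)
    (up1 : ∀ x ∈ β false ∪ β true, ∑ y ∈ δ, K147 μ s h η Γ.p M (σ.c0 j z + n') n x y ≤ Real.exp (CL * E) * 1)
    -- the exit
    (hX : Ex35 P₂ q κ U G E w ce cz v₀ (m + 1) δ δ' (K247 μ s h η Γ.p M (σ.c0 j z + n' + n) m)) (hPP : P₂ ≤ P) (hq : 0 ≤ q) (hqQ : q ≤ Q₂)
    (hS₂ : 0 ≤ S₂) (hc₃ : c₃ ≤ κ) (h3 : c₃' ≤ c₃) (hU : 0 ≤ U)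
    -- the windows
    (hβS : β false ∪ β true ⊆ Icc 0 (Γ.hi - (n + (m + 1) : ℕ))) (hδT : δ ⊆ Icc 0 (Γ.hi - ((m + 1 : ℕ) : ℤ))) (hδU : δ' ⊆ Icc 0 Γ.hi)
    (hβρ : ∀ x ∈ β false ∪ β true, |(x : ℝ) - ci| ≤ ρ * w) (hδρ : ∀ v ∈ δ, |(v : ℝ) - ce| ≤ ρ * w) {x₀ : ℤ}
    (hx₀ : x₀ ∈ β false ∪ β true) (hxv : ∀ v ∈ δ, x₀ ≤ v ∧ v ≤ x₀ + n)
    -- the cells of the row `c₀` below the cells of the row `c₀'`
    (hu : ∀ i, u i ∈ cl2 (z.2 + σ.α₁ j) (z.2 + σ.β₁ j) (z.2 + σ.α₂ j) (z.2 + σ.β₂ j)) (huk : ∀ i, u i ≤ Γ.k + σ.c0 j z)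
    (huβ : ∀ i, ∀ y ∈ β i, u i ≤ y ∧ y ≤ u i + n') (huD : ∀ i, ∀ y ∈ β i, |((y : ℝ) - ci) - ((u i : ℝ) - cA)| ≤ D₀ * w)
    -- the future
    (hδ' : ∀ v ∈ δ', z.2 + σ.ζa j ≤ v ∧ v ≤ z.2 + σ.ζb j) (hV : 1 ≤ σ.V j) (hΦ : 1 ≤ σ.Φ j)
    -- the numbers
    (hC₂ : Q₂ * gr P (AQ P c₁ Q₂ + ρ) + S₂ + 2 * (ρ * c₃') ≤ C₂') (hab : a ≤ b) (aCL : 2 * CL ≤ a) (aU : 2 * U + 2 ≤ a)
    (hL : L ≤ Real.exp (a * E / 2)) (hLk : Lk ≤ Real.exp (b * E)) (hMh : Mh ≤ Real.exp (b * E))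
    (hVb : σ.V j ≤ Real.exp (b * E / 2))
    (hΦb : Real.exp (((Q₂ + q₁) * gr P (AQ P c₁ (Q₂ + q₁) + ρ) + (S₂ + σ₁) + c₃₀ * D₀) * E) * σ.Φ j ≤ Real.exp (b * E / 2))
    (k4 : a + 2 * b + 1 ≤ G) (k5 : C₂' + b ≤ G)
    {g1 gc go : ℝ} (kc : 3 * a + 2 ≤ gc) (ko : 9 * b + 2 ≤ go) (k1 : 9 * b + 2 ≤ g1) (k2 : 5 * (a * E) + 8 ≤ t2)
    (hεc : εc ≤ Real.exp (-(gc * E))) (hεo : εo ≤ Real.exp (-(go * E))) (h1 : σ.e1 j ≤ Real.exp (-(g1 * E)))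
    (h2 : σ.e2 j ≤ Real.exp (-t2)) {ε' : ℝ} (hε' : ε' ≤ 1)
    (hin : ∀ x ∈ β false, ∀ x' ∈ β true, ∀ y ∈ δ, ∀ y' ∈ δ,
      (1 - ε') * (ker (wt η) Γ.p (σ.c0 j z + n') n x y * ker (wt η) Γ.p (σ.c0 j z + n') n x' y') ≤
        mq (wt η) Γ.p Q (σ.c0 j z + n') n x x' y y') :
    (1 - ε') * (7 / 8) ≤ ∑ c ∈ Q, Γ.w c η := by
  have hE : 0 < E := by linarith
  have hQ₂ : 0 ≤ Q₂ := hq.trans hqQ
  have hc₃' : 0 ≤ c₃' := h30.trans h30'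
  have hT : σ.T j ≤ z.1 := hη.1
  have hrow : n' + (n + (m + 1)) = 2 * σ.T j := by
    unfold NS47.c0 NS47.c3 at hc3
    omega
  have κz : ∀ x v : ℤ, ¬ (x ≤ v ∧ v ≤ x + (2 * σ.T j : ℕ)) → σ.k0 j z x v = 0 := fun x v hxv => by
    rw [hκ]
    refine if_neg ?_
    rw [hrow]
    exact hxv
  have eκ : σ.k0 j z = kap31 P₀ c₁₀ c₃₀ Q₀ S₀ E w cA cz (n' + (n + (m + 1))) := by
    funext x v
    exact hκ x v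
  have hS := So47.seamI1 (μ := μ) (s := s) (h := h) (M := M) (i := σ.c0 j z + n') (n := n) (m := m) hΓ hη κz hN hc3
  rw [eκ] at hS
  obtain ⟨A, hA⟩ : ∃ A : ℝ, A = Real.exp (((Q₂ + q₁) * gr P (AQ P c₁ (Q₂ + q₁) + ρ) + (S₂ + σ₁) + c₃₀ * D₀) * E) := ⟨_, rfl⟩
  have phi : ∀ x ∈ β false ∪ β true, ∑ v ∈ Icc 0 Γ.hi, kap31 P c₁ c₃' (Q₂ + q₁) (S₂ + σ₁) E w ci cz (n + (m + 1)) x v *
      G47 μ s h η Γ.p M Γ.N (σ.c0 j z + n') n m v ≤ (A * σ.Φ j) * G1_47 μ s h M Γ σ j z η (σ.c0 j z + n') n m := by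
    intro y hy
    have key : ∀ i, y ∈ β i → ∑ v ∈ Icc 0 Γ.hi, kap31 P c₁ c₃' (Q₂ + q₁) (S₂ + σ₁) E w ci cz (n + (m + 1)) y v *
        G47 μ s h η Γ.p M Γ.N (σ.c0 j z + n') n m v ≤ (A * σ.Φ j) * G1_47 μ s h M Γ σ j z η (σ.c0 j z + n') n m := by
      intro i hi
      refine So47.phi1 hη κz hN hc3 (hu i) (huk i) (by rw [hA]; exact (Real.exp_pos _).le) fun v => ?_
      rw [hκ, hA]
      have h5 := huβ i y hi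
      refine kap_cmp47 hE hw h30 h30' hQ₀ hS₀ (add_nonneg hQ₂ hq₁) (hβρ y hy) (huD i y hi) h5.1 ?_
      push_cast
      omega
    rcases mem_union.1 hy with h5 | h5
    · exact key false h5
    · exact key true h5
  have hA1 : 1 ≤ A := by
    rw [hA]
    refine Real.one_le_exp (mul_nonneg ?_ hE.le)
    have hρ : 0 ≤ ρ := by
      have h6 := (abs_nonneg _).trans (hβρ x₀ hx₀)
      by_contra hc
      have := mul_neg_of_neg_of_pos (not_le.1 hc) hw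
      linarith
    have h7 := gr_nonneg P (add_nonneg (AQ_nonneg P c₁ (Q₂ + q₁)) hρ)
    have hD₀ : 0 ≤ D₀ := by
      rcases mem_union.1 hx₀ with h8 | h8
      · have h9 := (abs_nonneg _).trans (huD false x₀ h8)
        by_contra hc
        have := mul_neg_of_neg_of_pos (not_le.1 hc) hw
        linarith
      · have h9 := (abs_nonneg _).trans (huD true x₀ h8)
        by_contra hc
        have := mul_neg_of_neg_of_pos (not_le.1 hc) hw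
        linarith
    positivity
  have hb : 0 ≤ a := by linarith
  exact w35b (ρ := ρ) (C₂' := C₂') (V := σ.V j) (Φ := A * σ.Φ j) (R := 1) (C₁ := Icc (z.2 + σ.α₁ j) (z.2 + σ.β₁ j))
    (C₂ := Icc (z.2 + σ.α₂ j) (z.2 + σ.β₂ j)) (q₁ := q₁) (σ := σ₁) hΓ.k1 hΓ.q0 hΓ.q1 (hc3.le.trans hN) hQ hlt he1 he2 hΛ hS hP hE8 hw hCL hq₁
    hσ comp lo1 up1 hX hPP hq hqQ hS₂ hc₃ hc₃' h3 hU hβS hδT hδU hβρ hδρ hx₀ hxv hV (by nlinarith) G1_47_pos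
    (fun v hv => So47.loG1 hη hc3 (hδ' v hv).1 (hδ' v hv).2) phi hC₂ hab aCL aU hL (Real.one_le_exp (by positivity)) hLk hMh hVb
    (by rw [hA]; exact hΦb) k4 k5 kc ko k1 k2 hεc hεo h1 h2 hε' hin

end

end Pool.Agent.W_7d29a1_C1.Fr47
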