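import Pool.Agent.W_7d29a1_C1.FrbJ26
import Pool.Agent.W_7d29a1_C1.BufJ26

/-!
MP_7d29a1_pr, [C1] THE CONSTANTS OF THE TYPICAL ROWS `B` of the fresh ball. (helper26)
-/

set_option autoImplicit false

namespace Pool.Agent.W_7d29a1_C1.B26

open MeasureTheory ProbabilityTheory Filter Topology Finset
open Pool.Agent.W_7d29a1_F Pool.Agent.W_7d29a1_h4g Pool.Agent.W_7d29a1_H Pool.Agent.W_7d29a1_HS
open Pool.Agent.W_7d29a1_C1
open Pool.Agent.W_7d29a1_C1.CR76 Pool.Agent.W_7d29a1_C1.Basin76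
open Pool.Agent.W_7d29a1_C1.R26 (RK26 RK26_dep measurableSet_RK26)
open Pool.Agent.W_7d29a1_C1.H75 (hc)
open Pool.Agent.W_7d29a1_C1.U16 (fq16 fq16_one fq16_mono lat16 Far16 far_low far_prob Far16_meas Far16_rows)

noncomputable section

variable {μ : Measure ℝ} {s c C : ℝ} {n₀ : ℕ}

/-- The growth of a level in the unit of a larger scale. -/
theorem kG26 {c q J M : ℝ} {P : ℕ} (hc : 0 < c) (hq0 : 0 ≤ q) (hJ : 1 ≤ J)
    (hM' : ∀ v : ℝ, 0 ≤ v → fq16 P v ≤ c / (16 * (q + 1) * J) * v + M) (t : ℝ) (ht : 0 ≤ t) :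
    q * fq16 P (t * J + 2) ≤ c / 8 + q * M + c / 16 * t := by
  have hJ0 : 0 < J := by linarith
  have htJ : 0 ≤ t * J := by positivity
  have g1 := mul_le_mul_of_nonneg_left (hM' (t * J + 2) (by linarith)) hq0
  have g2 : q * (c / (16 * (q + 1) * J)) * J ≤ c / 16 := by
    rw [mul_div_assoc', div_mul_eq_mul_div, div_le_div_iff₀ (by positivity) (by norm_num)]
    have : 0 ≤ c * J := by positivity
    linarith
  have g3 := mul_le_mul_of_nonneg_right g2 ht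
  have g4 : q * (c / (16 * (q + 1) * J)) ≤ q * (c / (16 * (q + 1) * J)) * J := by
    refine le_mul_of_one_le_right ?_ hJ
    positivity
  linarith

/-- **The typical rows `B`.** -/
theorem stB26 [IsProbabilityMeasure μ] (h : In μ s c C n₀) {P nf : ℕ} {q tt : ℝ} (hq0 : 0 ≤ q) (htt : 0 < tt)
    (hfar : ∀ m, nf ≤ m → ∀ b : Pt, (law μ).real (Far16 μ s c 1 3 m m P b q)ᶜ ≤ tt) {K0 K hB J0 : ℝ} (hK0 : 0 ≤ K0) (hK : 0 ≤ K)
    (hB0 : 0 ≤ hB) : ∃ (j2 n1 : ℕ) (b QB : ℝ), 1 ≤ j2 ∧ J0 ≤ j2 ∧ 0 ≤ b ∧ 0 ≤ QB ∧ ∀ nB T nM : ℕ, n1 ≤ nB → T = j2 * nB →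
      ∀ th : ℝ, 0 ≤ th → th ≤ 1 / (4 * j2) → NB26 μ s c T nB P (2 * j2) q th QB (c / 16) hB ∧
      ∀ t : Bool → ℤ, (∀ i, |(t i : ℝ) - sl μ s * (nM + T : ℕ)| ≤ K0 * wd μ s T) →
        ∃ S : Set Env, MeasurableSet S ∧ OnR26 (rows ((nM : ℤ) + T) ((nM : ℤ) + T + nB)) S ∧ (law μ).real Sᶜ ≤ 4 * tt ∧
          ∀ η ∈ S, Bct26 μ s c η nM T nB t P q (q * fq16 P 2) K b (1 / (2 * j2)) := by
  have hc0 := h.c0
  obtain ⟨nl, hlow⟩ := far_low h (K := 3) (θ := 1) le_rfl one_pos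
  obtain ⟨j0, n2, hj0, hn2, hsc⟩ := sc26 h (M := hB / c) (by positivity)
  obtain ⟨j2, hj2⟩ : ∃ j : ℕ, j = max j0 ⌈J0⌉₊ := ⟨_, rfl⟩
  have hj20 : j0 ≤ j2 := by rw [hj2]; exact le_max_left _ _
  have hj21 : 1 ≤ j2 := hj0.trans hj20
  have hj2J : J0 ≤ j2 := by
    have h1 := Nat.le_ceil J0
    have h2 : ⌈J0⌉₊ ≤ j2 := by rw [hj2]; exact le_max_right _ _
    have h3 : ((⌈J0⌉₊ : ℕ) : ℝ) ≤ j2 := by exact_mod_cast h2
    linarith
  have hj2R : (1 : ℝ) ≤ j2 := by exact_mod_cast hj21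
  obtain ⟨Kb, hKb⟩ : ∃ x : ℝ, x = (K + K0) * (2 * j2) + 3 := ⟨_, rfl⟩
  have hKb3 : 3 ≤ Kb := by
    rw [hKb]
    have : 0 ≤ (K + K0) * (2 * j2) := by positivity
    linarith
  obtain ⟨Pw, Aw, aw, gw, hAw, haw, hgw, hgw1, nw, hnw, hfarw⟩ := far_prob h (K := Kb) (θ := 1) (by linarith) one_pos le_rfl
  obtain ⟨qw, hqw0, hqwp⟩ := level26 hAw haw hgw htt
  obtain ⟨nlw, hloww⟩ := far_low h (K := Kb) (θ := 1) hKb3 one_pos
  obtain ⟨b, hb⟩ : ∃ x : ℝ, x = qw * fq16 Pw (K0 * (2 * j2) + 2) := ⟨_, rfl⟩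
  have hb0 : 0 ≤ b := by
    rw [hb]
    exact mul_nonneg hqw0 (by linarith [fq16_one Pw (K0 * (2 * j2) + 2)])
  obtain ⟨MB, hMB, hMB'⟩ := fq_small26 P (ε := c / (16 * (q + 1) * (2 * j2))) (by positivity)
  obtain ⟨QB, hQB⟩ : ∃ x : ℝ, x = c / 8 + q * MB := ⟨_, rfl⟩
  have hQB0 : 0 ≤ QB := by rw [hQB]; positivity
  obtain ⟨N1, hN1⟩ := th26 h (th := 1) one_pos 1
  refine ⟨j2, nf + nl + n2 + nw + nlw + N1 + 1, b, QB, hj21, hj2J, hb0, hQB0, fun nB T nM hnB hT th hth0 hth => ?_⟩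
  have hBT : nB ≤ T := by rw [hT]; exact Nat.le_mul_of_pos_left nB hj21
  have thB := hN1 nB (by omega)
  have thT := hN1 T (by omega)
  have hwB2 := thB.w2
  have hwT2 := thT.w2
  have hwB0 : 0 < wd μ s nB := by linarith
  have hwT0 : 0 < wd μ s T := by linarith
  obtain ⟨-, s2E, -, s2w, s2h⟩ := hsc j2 nB hj20 (by omega)
  rw [← hT] at s2E s2w s2h
  have sB : hB * (wd μ s nB * EE μ s T) ≤ c * (EE μ s nB * wd μ s T) := by
    have e : hB * (wd μ s nB * EE μ s T) = c * (hB / c * (EE μ s T * wd μ s nB)) := by field_simp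
    rw [e]
    exact mul_le_mul_of_nonneg_left s2h hc0.le
  have tB : th * wd μ s T ≤ wd μ s nB := by
    have g1 := mul_le_mul_of_nonneg_left s2w hth0
    have g2 : th * (2 * j2) ≤ 1 := by
      rw [le_div_iff₀ (by positivity)] at hth
      linarith
    have g3 := mul_le_mul_of_nonneg_right g2 hwB0.le
    linarith
  refine ⟨⟨by linarith, tB, s2w, s2E, sB, fun x hx => ?_⟩, fun t ht => ?_⟩
  · rw [hQB]
    exact kG26 hc0 hq0 (by linarith) hMB' x hx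
  have hF3 : ∀ z : ℤ, EvB26 μ ((nM : ℤ) + T) ((nM : ℤ) + T + nB) (Far16 μ s c 1 3 nB nB P ((nM : ℤ) + T, z) q) tt := fun z =>
    ⟨Far16_meas _ _ _ _ _ _ _, fun η η' hh => Far16_rows hh, hfar nB (by omega) _⟩
  have hFw : ∀ z : ℤ, EvB26 μ ((nM : ℤ) + T) ((nM : ℤ) + T + nB) (Far16 μ s c 1 Kb nB nB Pw ((nM : ℤ) + T, z) qw) tt := fun z =>
    ⟨Far16_meas _ _ _ _ _ _ _, fun η η' hh => Far16_rows hh, (hfarw nB (by omega) nB le_rfl _ qw hqw0).trans hqwp⟩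
  obtain ⟨S, h1, h2, h3, h4⟩ := evtB26 (μ := μ) (s := s) (c := c) (nM := nM) (T := T) (nB := nB) (t := t) (Kb := Kb) (b := b) (K := K)
    (K0 := K0) (J := 2 * j2) (Kc := 1 / (2 * j2)) (qs := q * fq16 P 2) (hlow nB (by omega)) (hloww nB (by omega)) hF3 hFw hq0 hqw0 le_rfl hwB2 hwT2
    s2E s2w hK hK0 (by
      have : (1 : ℝ) / (2 * j2) * (2 * j2) = 1 := by field_simp
      linarith) (by positivity) (by rw [hKb]; linarith) hb.ge ht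
  exact ⟨S, h1, h2, by linarith, h4⟩

end

end Pool.Agent.W_7d29a1_C1.B26
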