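import Pool.Agent.W_7d29a1_C1.BufF26

/-!
MP_7d29a1_pr, [C1] THE TWO LANES `M o F` OF THE FRESH BALL, ends of the lanes prescribed, deterministic. (helper26)

`LH26`: the data of one lane (start cell `A`, cells `C`, `D` of the lane, cells `C'`, `D'` of the other lane). `lane_in`, `lane_out`: the
products `M a u * F u v`. `MF26`: the output for the kernel `N = M o F` : lower bound to the end points, upper bound, off the end cell.
-/

set_option autoImplicit false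

namespace Pool.Agent.W_7d29a1_C1.B26

open Finset
open Pool.Agent.W_7d29a1_C1.CR76 (CR)

noncomputable section

/-- The data of one lane, ends prescribed. -/
structure LH26 (M F : ℤ → ℤ → ℝ) (L0 L1 L2 : ℤ → ℝ) (A C D C' D' : Set ℤ) (c d : ℤ)
    (lam lam' K0 K3 E qM hM QF kF hF G dd W W' rho be L : ℝ) : Prop where
  E0 : 0 < E
  nM : ∀ a u, 0 ≤ M a u
  nF : ∀ u v, 0 ≤ F u v
  cC : c ∈ C
  dD : d ∈ D
  rho0 : 0 ≤ rho
  A1 : ∀ a ∈ A, |L0 a - lam| ≤ rho
  C2 : ∀ u ∈ C', |L1 u - lam'| ≤ rho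
  D2 : ∀ v ∈ D', |L2 v| ≤ K0
  lK : |lam| + rho ≤ K0
  Mup : ∀ a ∈ A, ∀ u, M a u ≤ Real.exp ((qM - hM * |L1 u - L0 a|) * E)
  Mlo : ∀ a ∈ A, Real.exp (-(qM * E)) ≤ M a c
  W0 : Real.exp (L * E) ≤ W
  WF : W ≤ F c d
  WW : W' ≤ Real.exp (dd * E) * W
  Fc : ∀ u ∈ C, ∀ v ∈ D, F u v ≤ Real.exp (dd * E) * W
  Fc' : ∀ u ∈ C', ∀ v ∈ D', F u v ≤ Real.exp (dd * E) * W'
  Fo : ∀ u v, |L1 u| ≤ K3 → ¬ (u ∈ C ∧ v ∈ D) → ¬ (u ∈ C' ∧ v ∈ D') → F u v ≤ Real.exp (-(G * E))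
  Fup : ∀ u v, F u v ≤ Real.exp ((QF + kF * |L1 u| - hF * |L2 v - L1 u|) * E)
  L0' : 0 ≤ L
  q0 : 0 ≤ qM ∧ 0 ≤ QF ∧ 0 ≤ dd ∧ 0 ≤ hM ∧ 0 ≤ hF ∧ 0 ≤ kF ∧ 0 ≤ be ∧ 0 ≤ K0 ∧ 0 ≤ K3
  n1 : 2 * (kF + be) ≤ hM
  n2 : 2 * be ≤ hF

variable {M F : ℤ → ℤ → ℝ} {L0 L1 L2 : ℤ → ℝ} {A C D C' D' : Set ℤ} {c d : ℤ}
  {lam lam' K0 K3 E qM hM QF kF hF G dd W W' rho be L : ℝ}

section own

variable (h : LH26 M F L0 L1 L2 A C D C' D' c d lam lam' K0 K3 E qM hM QF kF hF G dd W W' rho be L)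
include h

theorem LH26.Wpos : 0 < W := lt_of_lt_of_le (Real.exp_pos _) h.W0

theorem LH26.Npos {a : ℤ} (ha : a ∈ A) : 0 < Nn M c W a := mul_pos (lt_of_lt_of_le (Real.exp_pos _) (h.Mlo a ha)) h.Wpos

theorem LH26.Nge {a : ℤ} (ha : a ∈ A) : Real.exp ((L - qM) * E) ≤ Nn M c W a := by
  have h1 := mul_le_mul (h.Mlo a ha) h.W0 (Real.exp_pos _).le (h.nM a c)
  rw [← Real.exp_add] at h1
  refine le_trans (Real.exp_le_exp.2 (by linarith)) h1

/-- From an absolute bound to a bound relative to the normalization. -/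
theorem LH26.rel {a : ℤ} (ha : a ∈ A) {x y : ℝ} (hx : x ≤ Real.exp (y * E)) : x ≤ Real.exp ((y + qM) * E) * Nn M c W a := by
  have h1 := h.Nge ha
  have h2 : Real.exp (y * E) ≤ Real.exp ((y + qM) * E) * Real.exp ((L - qM) * E) := by
    rw [← Real.exp_add]
    refine Real.exp_le_exp.2 ?_
    have := mul_nonneg h.L0' h.E0.le
    nlinarith
  exact hx.trans (h2.trans (mul_le_mul_of_nonneg_left h1 (Real.exp_pos _).le))

/-- The bound `M a u <= exp (2 qM E - hM |..| E) M a c`. -/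
theorem LH26.Mrel {a : ℤ} (ha : a ∈ A) (u : ℤ) : M a u ≤ Real.exp ((2 * qM - hM * |L1 u - L0 a|) * E) * M a c := by
  have m1 := h.Mup a ha u
  have m2 := h.Mlo a ha
  have g2 : Real.exp ((qM - hM * |L1 u - L0 a|) * E) = Real.exp ((2 * qM - hM * |L1 u - L0 a|) * E) * Real.exp (-(qM * E)) := by
    rw [← Real.exp_add]
    congr 1
    ring
  rw [g2] at m1
  exact m1.trans (mul_le_mul_of_nonneg_left m2 (Real.exp_pos _).le)

theorem LH26.Nle {a : ℤ} (ha : a ∈ A) : Nn M c W a ≤ Real.exp (qM * E) * W := by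
  obtain ⟨-, -, -, q4, -⟩ := h.q0
  unfold Nn
  refine mul_le_mul_of_nonneg_right ?_ h.Wpos.le
  refine (h.Mup a ha c).trans (Real.exp_le_exp.2 ?_)
  refine mul_le_mul_of_nonneg_right ?_ h.E0.le
  have := mul_nonneg q4 (abs_nonneg (L1 c - L0 a))
  linarith

theorem LH26.Nge' {a : ℤ} (ha : a ∈ A) : Real.exp (-(qM * E)) * W ≤ Nn M c W a := by
  unfold Nn
  exact mul_le_mul_of_nonneg_right (h.Mlo a ha) h.Wpos.le

/-- **The own lane.** -/
theorem lane_in {a : ℤ} (ha : a ∈ A) {u v : ℤ} (hu : u ∈ C) (hv : v ∈ D) : M a u * F u v ≤ Real.exp ((2 * qM + dd) * E) * Nn M c W a := by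
  obtain ⟨q1, q2, q3, q4, q5, q6, q7, q8, q9⟩ := h.q0
  have hE := h.E0
  have hW := h.Wpos
  have m3 : M a u ≤ Real.exp (2 * qM * E) * M a c := by
    refine (h.Mrel ha u).trans (mul_le_mul_of_nonneg_right (Real.exp_le_exp.2 ?_) (h.nM a c))
    have := mul_nonneg q4 (abs_nonneg (L1 u - L0 a))
    nlinarith
  have hmc := h.nM a c
  calc M a u * F u v ≤ (Real.exp (2 * qM * E) * M a c) * (Real.exp (dd * E) * W) :=
        mul_le_mul m3 (h.Fc u hu v hv) (h.nF u v) (by positivity)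
    _ = (Real.exp (2 * qM * E) * Real.exp (dd * E)) * Nn M c W a := by
        unfold Nn
        ring
    _ = _ := by
        rw [← Real.exp_add]
        congr 2
        ring

/-- The other lane. -/
theorem lane_x {a : ℤ} (ha : a ∈ A) {u v : ℤ} (hu : u ∈ C') (hv : v ∈ D') :
    M a u * F u v ≤ Real.exp ((2 * qM + 2 * dd - hM * (|lam' - lam| - 2 * rho)) * E) * Nn M c W a := by
  obtain ⟨q1, q2, q3, q4, q5, q6, q7, q8, q9⟩ := h.q0
  have hE := h.E0
  have hW := h.Wpos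
  have m3 : M a u ≤ Real.exp ((2 * qM - hM * (|lam' - lam| - 2 * rho)) * E) * M a c := by
    refine (h.Mrel ha u).trans (mul_le_mul_of_nonneg_right (Real.exp_le_exp.2 ?_) (h.nM a c))
    refine mul_le_mul_of_nonneg_right ?_ hE.le
    have e1 := h.A1 a ha
    have e2 := h.C2 u hu
    have e3 : |lam' - lam| ≤ |L1 u - lam'| + |L1 u - L0 a| + |L0 a - lam| := by
      have e4 : lam' - lam = -(L1 u - lam') + (L1 u - L0 a) + (L0 a - lam) := by ring
      rw [e4]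
      refine (abs_add_le _ _).trans ?_
      have := abs_add_le (-(L1 u - lam')) (L1 u - L0 a)
      rw [abs_neg] at this
      linarith
    have := mul_le_mul_of_nonneg_left (show |lam' - lam| - 2 * rho ≤ |L1 u - L0 a| by linarith) q4
    linarith
  have f2 : F u v ≤ Real.exp (2 * dd * E) * W := by
    refine (h.Fc' u hu v hv).trans ?_
    have g1 := mul_le_mul_of_nonneg_left h.WW (Real.exp_pos (dd * E)).le
    refine g1.trans (le_of_eq ?_)
    rw [← mul_assoc, ← Real.exp_add]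
    congr 2
    ring
  have hmc := h.nM a c
  calc M a u * F u v ≤ (Real.exp ((2 * qM - hM * (|lam' - lam| - 2 * rho)) * E) * M a c) * (Real.exp (2 * dd * E) * W) :=
        mul_le_mul m3 f2 (h.nF u v) (by positivity)
    _ = (Real.exp ((2 * qM - hM * (|lam' - lam| - 2 * rho)) * E) * Real.exp (2 * dd * E)) * Nn M c W a := by
        unfold Nn
        ring
    _ = _ := by
        rw [← Real.exp_add]
        congr 2
        ring

/-- Off the lanes, from the window. -/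
theorem lane_c {a : ℤ} (ha : a ∈ A) {u v : ℤ} (hw : |L1 u| ≤ K3) (h1 : ¬ (u ∈ C ∧ v ∈ D)) (h2 : ¬ (u ∈ C' ∧ v ∈ D')) :
    M a u * F u v ≤ Real.exp ((2 * qM + QF / 2 + (kF + be) * K0 - G / 2 - be * |L2 v|) * E) * Nn M c W a := by
  obtain ⟨q1, q2, q3, q4, q5, q6, q7, q8, q9⟩ := h.q0
  have hE := h.E0
  have m1 := h.Mup a ha u
  have f1 := h.Fo u v hw h1 h2
  have f2 := h.Fup u v
  have f3 : F u v ≤ Real.exp ((-(G / 2) + (QF + kF * |L1 u| - hF * |L2 v - L1 u|) / 2) * E) := by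
    have g1 : F u v * F u v ≤ Real.exp (-(G * E)) * Real.exp ((QF + kF * |L1 u| - hF * |L2 v - L1 u|) * E) :=
      mul_le_mul f1 f2 (h.nF u v) (Real.exp_pos _).le
    have g2 : Real.exp (-(G * E)) * Real.exp ((QF + kF * |L1 u| - hF * |L2 v - L1 u|) * E) =
        Real.exp ((-(G / 2) + (QF + kF * |L1 u| - hF * |L2 v - L1 u|) / 2) * E) *
          Real.exp ((-(G / 2) + (QF + kF * |L1 u| - hF * |L2 v - L1 u|) / 2) * E) := by
      rw [← Real.exp_add, ← Real.exp_add]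
      congr 1
      ring
    rw [g2] at g1
    by_contra hcon
    exact absurd g1 (not_le.2 (mul_self_lt_mul_self (Real.exp_pos _).le (not_le.1 hcon)))
  have p : M a u * F u v ≤ Real.exp ((qM - hM * |L1 u - L0 a|) * E + (-(G / 2) + (QF + kF * |L1 u| - hF * |L2 v - L1 u|) / 2) * E) := by
    rw [Real.exp_add]
    exact mul_le_mul m1 f3 (h.nF u v) (Real.exp_pos _).le
  have key : (qM - hM * |L1 u - L0 a|) * E + (-(G / 2) + (QF + kF * |L1 u| - hF * |L2 v - L1 u|) / 2) * E ≤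
      (qM + QF / 2 + (kF + be) * K0 - G / 2 - be * |L2 v|) * E := by
    rw [← add_mul]
    refine mul_le_mul_of_nonneg_right ?_ hE.le
    have t2 : |L2 v| ≤ |L2 v - L1 u| + |L1 u - L0 a| + |L0 a| := by
      have e : L2 v = (L2 v - L1 u) + (L1 u - L0 a) + L0 a := by ring
      calc |L2 v| = |(L2 v - L1 u) + (L1 u - L0 a) + L0 a| := by rw [← e]
        _ ≤ |(L2 v - L1 u) + (L1 u - L0 a)| + |L0 a| := abs_add_le _ _
        _ ≤ _ := by linarith [abs_add_le (L2 v - L1 u) (L1 u - L0 a)]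
    have t3 : |L1 u| ≤ |L1 u - L0 a| + |L0 a| := by
      have := abs_add_le (L1 u - L0 a) (L0 a)
      rwa [sub_add_cancel] at this
    have t0 : |L0 a| ≤ K0 := by
      have g1 := h.A1 a ha
      have g2 := h.lK
      have g3 := abs_sub_abs_le_abs_sub (L0 a) lam
      linarith
    obtain ⟨x1, hx1⟩ : ∃ x1 : ℝ, x1 = |L1 u - L0 a| := ⟨_, rfl⟩
    obtain ⟨x2, hx2⟩ : ∃ x2 : ℝ, x2 = |L2 v - L1 u| := ⟨_, rfl⟩
    have y1 : 0 ≤ x1 := by rw [hx1]; exact abs_nonneg _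
    have y2 : 0 ≤ x2 := by rw [hx2]; exact abs_nonneg _
    rw [← hx1, ← hx2] at t2
    rw [← hx1] at t3
    rw [← hx1, ← hx2]
    have z1 : be * |L2 v| ≤ be * (x2 + x1 + K0) := mul_le_mul_of_nonneg_left (by linarith) q7
    have z3 : kF * |L1 u| ≤ kF * (x1 + K0) := mul_le_mul_of_nonneg_left (by linarith) q6
    have w1 := mul_le_mul_of_nonneg_right h.n1 y1
    have w2 := mul_le_mul_of_nonneg_right h.n2 y2
    have v1 := mul_nonneg q6 y1
    have v3 := mul_nonneg q7 y1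
    have v4 := mul_nonneg q6 q8
    nlinarith
  refine (h.rel ha (p.trans (Real.exp_le_exp.2 key))).trans (le_of_eq ?_)
  congr 2
  ring

/-- Out of the window. -/
theorem lane_d {a : ℤ} (ha : a ∈ A) {u : ℤ} (v : ℤ) (hw : K3 < |L1 u|) :
    M a u * F u v ≤ Real.exp ((2 * qM + QF + (kF + be) * K0 - hM / 2 * (K3 - K0) - be * |L2 v|) * E) * Nn M c W a := by
  obtain ⟨q1, q2, q3, q4, q5, q6, q7, q8, q9⟩ := h.q0
  have hE := h.E0
  have m1 := h.Mup a ha u
  have f2 := h.Fup u v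
  have p : M a u * F u v ≤ Real.exp ((qM - hM * |L1 u - L0 a|) * E + (QF + kF * |L1 u| - hF * |L2 v - L1 u|) * E) := by
    rw [Real.exp_add]
    exact mul_le_mul m1 f2 (h.nF u v) (Real.exp_pos _).le
  have key : (qM - hM * |L1 u - L0 a|) * E + (QF + kF * |L1 u| - hF * |L2 v - L1 u|) * E ≤
      (qM + QF + (kF + be) * K0 - hM / 2 * (K3 - K0) - be * |L2 v|) * E := by
    rw [← add_mul]
    refine mul_le_mul_of_nonneg_right ?_ hE.le
    have t2 : |L2 v| ≤ |L2 v - L1 u| + |L1 u - L0 a| + |L0 a| := by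
      have e : L2 v = (L2 v - L1 u) + (L1 u - L0 a) + L0 a := by ring
      calc |L2 v| = |(L2 v - L1 u) + (L1 u - L0 a) + L0 a| := by rw [← e]
        _ ≤ |(L2 v - L1 u) + (L1 u - L0 a)| + |L0 a| := abs_add_le _ _
        _ ≤ _ := by linarith [abs_add_le (L2 v - L1 u) (L1 u - L0 a)]
    have t3 : |L1 u| ≤ |L1 u - L0 a| + |L0 a| := by
      have := abs_add_le (L1 u - L0 a) (L0 a)
      rwa [sub_add_cancel] at this
    have t0 : |L0 a| ≤ K0 := by
      have g1 := h.A1 a ha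
      have g2 := h.lK
      have g3 := abs_sub_abs_le_abs_sub (L0 a) lam
      linarith
    obtain ⟨x1, hx1⟩ : ∃ x1 : ℝ, x1 = |L1 u - L0 a| := ⟨_, rfl⟩
    obtain ⟨x2, hx2⟩ : ∃ x2 : ℝ, x2 = |L2 v - L1 u| := ⟨_, rfl⟩
    have y1 : 0 ≤ x1 := by rw [hx1]; exact abs_nonneg _
    have y2 : 0 ≤ x2 := by rw [hx2]; exact abs_nonneg _
    rw [← hx1, ← hx2] at t2
    rw [← hx1] at t3
    rw [← hx1, ← hx2]
    have hx1' : K3 - K0 ≤ x1 := by linarith
    have z1 : be * |L2 v| ≤ be * (x2 + x1 + K0) := mul_le_mul_of_nonneg_left (by linarith) q7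
    have z3 : kF * |L1 u| ≤ kF * (x1 + K0) := mul_le_mul_of_nonneg_left (by linarith) q6
    have w1 := mul_le_mul_of_nonneg_right h.n1 y1
    have w2 := mul_le_mul_of_nonneg_right h.n2 y2
    have w4 := mul_le_mul_of_nonneg_left hx1' (show 0 ≤ hM / 2 by linarith)
    have v2 := mul_nonneg q7 y2
    nlinarith
  refine (h.rel ha (p.trans (Real.exp_le_exp.2 key))).trans (le_of_eq ?_)
  congr 2
  ring

end own

/-- The exponent `g` of the crossing, the exponent `G'` of everything which is off the two lanes. -/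
structure Gl26 (lam lam' K0 K3 qM hM QF kF G dd rho be g G' : ℝ) : Prop where
  g1 : g + (2 * qM + 2 * dd) ≤ hM * (|lam' - lam| - 2 * rho)
  g2 : G' + (2 * qM + QF / 2 + (kF + be) * K0) ≤ G / 2
  g3 : G' + (2 * qM + QF + (kF + be) * K0) ≤ hM / 2 * (K3 - K0)

section own2

variable (h : LH26 M F L0 L1 L2 A C D C' D' c d lam lam' K0 K3 E qM hM QF kF hF G dd W W' rho be L)
  {g G' : ℝ} (hg : Gl26 lam lam' K0 K3 qM hM QF kF G dd rho be g G')
include h hg

/-- **The crossing.** -/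
theorem lane_cross {a : ℤ} (ha : a ∈ A) {u v : ℤ} (h2 : u ∈ C' ∧ v ∈ D') : M a u * F u v ≤ Real.exp (-(g * E)) * Nn M c W a := by
  refine (lane_x h ha h2.1 h2.2).trans (mul_le_mul_of_nonneg_right (Real.exp_le_exp.2 ?_) (h.Npos ha).le)
  rw [← neg_mul]
  refine mul_le_mul_of_nonneg_right ?_ h.E0.le
  linarith [hg.g1]

/-- **Off the lanes.** -/
theorem lane_wall {a : ℤ} (ha : a ∈ A) {u v : ℤ} (h1 : ¬ (u ∈ C ∧ v ∈ D)) (h2 : ¬ (u ∈ C' ∧ v ∈ D')) :
    M a u * F u v ≤ Real.exp ((-G' - be * |L2 v|) * E) * Nn M c W a := by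
  have hN := (h.Npos ha).le
  have hE := h.E0
  by_cases h3 : |L1 u| ≤ K3
  · refine (lane_c h ha h3 h1 h2).trans (mul_le_mul_of_nonneg_right (Real.exp_le_exp.2 ?_) hN)
    refine mul_le_mul_of_nonneg_right ?_ hE.le
    linarith [hg.g2]
  · refine (lane_d h ha v (not_le.1 h3)).trans (mul_le_mul_of_nonneg_right (Real.exp_le_exp.2 ?_) hN)
    refine mul_le_mul_of_nonneg_right ?_ hE.le
    linarith [hg.g3]

end own2

/-! ### The kernel `M o F` -/

/-- The composition over the finite set `S`. -/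
def K2k (M F : ℤ → ℤ → ℝ) (S : Finset ℤ) (a v : ℤ) : ℝ := ∑ u ∈ S, M a u * F u v

/-- **The output of the two lanes.** Start cells `|x - u i| ≤ R`, end points `t i`, end cells `|y - t i| ≤ r`, strength `A`, loss `ell`,
crossing `exp (-(g E))`, off the lanes `exp (-(G' E))` with the slope `be` of the end, `Lp` the lateral coordinate of the end row in
widths. -/
structure MF26 (N : ℤ → ℤ → ℝ) (Lp : ℤ → ℝ) (u t : Bool → ℤ) (R r E A ell g G' be : ℝ) : Prop where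
  low : ∀ (i : Bool) (x : ℤ), |(x : ℝ) - u i| ≤ R → Real.exp (-(ell * E)) * A ≤ N x (t i)
  up : ∀ (i : Bool) (x : ℤ), |(x : ℝ) - u i| ≤ R → ∀ y : ℤ, N x y ≤ Real.exp (ell * E) * A
  crs : ∀ (i : Bool) (x : ℤ), |(x : ℝ) - u i| ≤ R → ∀ y : ℤ, |(y : ℝ) - t (!i)| ≤ r → N x y ≤ Real.exp (-(g * E)) * A
  off : ∀ (i : Bool) (x : ℤ), |(x : ℝ) - u i| ≤ R → ∀ y : ℤ, (∀ j, ¬ |(y : ℝ) - t j| ≤ r) →
    N x y ≤ Real.exp ((-G' - be * |Lp y|) * E) * A

section out2

variable (h : LH26 M F L0 L1 L2 A C D C' D' c d lam lam' K0 K3 E qM hM QF kF hF G dd W W' rho be L)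
  {g G' : ℝ} (hg : Gl26 lam lam' K0 K3 qM hM QF kF G dd rho be g G')
include h hg

/-- One lane. -/
theorem mf_one26 {S : Finset ℤ} {ell g' G1 W1 : ℝ} (hg0 : 0 ≤ g) (hgG : g ≤ G') (hc : c ∈ S) (hS : 2 * (S.card : ℝ) ≤ Real.exp E)
    (hW1 : W ≤ Real.exp (dd * E) * W1) (hW2 : W1 ≤ Real.exp (dd * E) * W) (hl : 3 * qM + 2 * dd + 1 ≤ ell) (hg' : g' + qM + dd + 1 ≤ g)
    (hG' : G1 + qM + dd + 1 ≤ G') {a : ℤ} (ha : a ∈ A) :
    Real.exp (-(ell * E)) * W1 ≤ K2k M F S a d ∧ (∀ v : ℤ, K2k M F S a v ≤ Real.exp (ell * E) * W1) ∧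
    (∀ v : ℤ, v ∉ D → K2k M F S a v ≤ Real.exp (-(g' * E)) * W1) ∧
    ∀ v : ℤ, v ∉ D → v ∉ D' → K2k M F S a v ≤ Real.exp ((-G1 - be * |L2 v|) * E) * W1 := by
  obtain ⟨q1, q2, q3, q4, q5, q6, q7, q8, q9⟩ := h.q0
  have hE := h.E0
  have hW := h.Wpos
  have hN := (h.Npos ha).le
  have hW10 : 0 < W1 := by
    have := lt_of_lt_of_le hW hW1
    by_contra hcon
    exact absurd this (not_lt.2 (mul_nonpos_of_nonneg_of_nonpos (Real.exp_pos _).le (not_lt.1 hcon)))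
  have hS1 : (S.card : ℝ) ≤ Real.exp E := by
    have : (0 : ℝ) ≤ S.card := Nat.cast_nonneg _
    linarith
  -- the general step
  have gen : ∀ (X e : ℝ) (v : ℤ), (∀ u ∈ S, M a u * F u v ≤ Real.exp (X * E) * Nn M c W a) → X + qM + dd + 1 ≤ e →
      K2k M F S a v ≤ Real.exp (e * E) * W1 := by
    intro X e v key he
    calc K2k M F S a v ≤ ∑ _u ∈ S, Real.exp (X * E) * Nn M c W a := sum_le_sum key
      _ = (S.card : ℝ) * (Real.exp (X * E) * Nn M c W a) := by rw [sum_const, nsmul_eq_mul]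
      _ ≤ Real.exp E * (Real.exp (X * E) * (Real.exp (qM * E) * (Real.exp (dd * E) * W1))) := by
          refine mul_le_mul hS1 (mul_le_mul_of_nonneg_left ?_ (Real.exp_pos _).le) (by positivity) (Real.exp_pos _).le
          exact (h.Nle ha).trans (mul_le_mul_of_nonneg_left hW1 (Real.exp_pos _).le)
      _ = Real.exp (E + X * E + qM * E + dd * E) * W1 := by
          rw [Real.exp_add, Real.exp_add, Real.exp_add]
          ring
      _ ≤ _ := by
          refine mul_le_mul_of_nonneg_right (Real.exp_le_exp.2 ?_) hW10.le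
          have := mul_le_mul_of_nonneg_right he hE.le
          linarith
  have wl : ∀ {u v : ℤ}, ¬ (u ∈ C ∧ v ∈ D) → ¬ (u ∈ C' ∧ v ∈ D') → M a u * F u v ≤ Real.exp ((-G') * E) * Nn M c W a := by
    intro u v h1 h2
    refine (lane_wall h hg ha h1 h2).trans (mul_le_mul_of_nonneg_right (Real.exp_le_exp.2 ?_) hN)
    refine mul_le_mul_of_nonneg_right ?_ hE.le
    have := mul_nonneg q7 (abs_nonneg (L2 v))
    linarith
  have nx : ∀ {u v : ℤ}, ¬ (u ∈ C ∧ v ∈ D) → M a u * F u v ≤ Real.exp ((-g) * E) * Nn M c W a := by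
    intro u v h1
    by_cases h2 : u ∈ C' ∧ v ∈ D'
    · have := lane_cross h hg ha h2
      rw [neg_mul]
      exact this
    · refine (wl h1 h2).trans (mul_le_mul_of_nonneg_right (Real.exp_le_exp.2 ?_) hN)
      exact mul_le_mul_of_nonneg_right (by linarith) hE.le
  refine ⟨?_, fun v => ?_, fun v hv => ?_, fun v hv hv' => ?_⟩
  · -- lower bound
    have h1 := single_le_sum (f := fun u => M a u * F u d) (fun u _ => mul_nonneg (h.nM _ _) (h.nF _ _)) hc
    refine le_trans ?_ h1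
    have h2 : Nn M c W a ≤ M a c * F c d := mul_le_mul_of_nonneg_left h.WF (h.nM a c)
    refine le_trans ?_ h2
    refine le_trans ?_ (h.Nge' ha)
    have g1 := mul_le_mul_of_nonneg_left hW2 (Real.exp_pos (-(ell * E))).le
    refine g1.trans ?_
    rw [← mul_assoc, ← Real.exp_add]
    refine mul_le_mul_of_nonneg_right (Real.exp_le_exp.2 ?_) hW.le
    nlinarith
  · -- upper bound
    refine gen (2 * qM + dd) ell v (fun u _ => ?_) (by linarith)
    by_cases h1 : u ∈ C ∧ v ∈ D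
    · exact lane_in h ha h1.1 h1.2
    · refine (nx h1).trans (mul_le_mul_of_nonneg_right (Real.exp_le_exp.2 ?_) hN)
      exact mul_le_mul_of_nonneg_right (by linarith) hE.le
  · rw [← neg_mul]
    exact gen (-g) (-g') v (fun u _ => nx fun h1 => hv h1.2) (by linarith)
  · exact gen (-G' - be * |L2 v|) _ v (fun u _ => lane_wall h hg ha (fun h1 => hv h1.2) fun h1 => hv' h1.2) (by linarith)

end out2

end

end Pool.Agent.W_7d29a1_C1.B26
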