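import Pool.Agent.W_7d29a1_C1.FrbB26

/-!
MP_7d29a1_pr, [C1] THE CONSTANTS OF THE TWO LANES `M o F` of the fresh ball. (helper26)
-/

set_option autoImplicit false

namespace Pool.Agent.W_7d29a1_C1.B26

open MeasureTheory ProbabilityTheory Filter Topology Finset
open Pool.Agent.W_7d29a1_F Pool.Agent.W_7d29a1_h4g Pool.Agent.W_7d29a1_H Pool.Agent.W_7d29a1_HS
open Pool.Agent.W_7d29a1_C1
open Pool.Agent.W_7d29a1_C1.CR76 Pool.Agent.W_7d29a1_C1.Basin76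
open Pool.Agent.W_7d29a1_C1.R26 (RK26 RK26_dep measurableSet_RK26)
open Pool.Agent.W_7d29a1_C1.H75 (hc)
open Pool.Agent.W_7d29a1_C1.U16 (fq16 fq16_one fq16_mono lat16 Far16 far_low far_prob Far16_meas Far16_rows)

noncomputable section

variable {μ : Measure ℝ} {s c C : ℝ} {n₀ : ℕ}

/-- The two conditions on the walls of the lanes. -/
structure Gq26 (K0' K3 qs hM QF G be G2 : ℝ) (kF : ℝ) : Prop where
  g2 : G2 + (2 * qs + QF / 2 + (kF + be) * K0') ≤ G / 2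
  g3 : G2 + (2 * qs + QF + (kF + be) * K0') ≤ hM / 2 * (K3 - K0')

/-- **The two lanes.** `nM = Q j2 k`, `T = Q j1 j2 k`. The cells `th`, the levels `QF`, `qF` are before the walls `G2`. -/
theorem stM26 [IsProbabilityMeasure μ] (h : In μ s c C n₀) (hR : RkP26 μ s) (hT : TslP26 μ s c) {P nf : ℕ} {q qs : ℝ} (hq0 : 0 ≤ q)
    (hqs : qs = q * fq16 P 2) (hfar : ∀ m, nf ≤ m → ∀ b : Pt, (law μ).real (Far16 μ s c 1 3 m m P b q)ᶜ ≤ 1 / 16)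
    {K0 del dd be g2 L thm : ℝ} (hK0 : 0 ≤ K0) (hdel : 0 < del) (hdd : 0 < dd) (hbe : 0 ≤ be) (hbe2 : 2 * be ≤ c / 2) (hg : 0 ≤ g2)
    (hL : 0 ≤ L) (hthm : 0 < thm) {j2 : ℕ} (hj2 : 1 ≤ j2) :
    ∃ (th hM QF qF cR : ℝ) (PT j1 : ℕ), 0 < th ∧ th ≤ thm ∧ th ≤ 1 / 2 ∧ th ≤ del / 8 ∧ 0 < cR ∧ 1 ≤ j1 ∧ c ≤ hM ∧ 0 ≤ QF ∧ 0 ≤ qF ∧
      g2 + (2 * qs + 2 * dd) ≤ hM * (del - 2 * (2 * th)) ∧
      ∀ G2 : ℝ, g2 ≤ G2 → ∃ (K3 G c₁ : ℝ) (Q n1 : ℕ), 0 < c₁ ∧ 1 ≤ Q ∧ 1 ≤ n1 ∧ K0 + 1 ≤ K3 ∧ Gq26 (K0 + 1) K3 qs hM QF G be G2 (c / 16) ∧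
      ∀ k : ℕ, n1 ≤ k → ∀ nM T : ℕ, nM = Q * j2 * k → T = Q * (j1 * j2) * k → T = j1 * nM ∧ k ≤ nM ∧ nM ≤ T ∧
        wd μ s T ≤ 2 * j1 * wd μ s nM ∧ ∃ r : ℝ,
        MNum26 μ s c nM T P PT q qF qs r ((K3 + 1) * wd μ s T) th L dd K0 (K0 + 1) K3 QF (c / 16) hM be ∧
        ∀ u t : Bool → ℤ, (∀ i, |(u i : ℝ)| ≤ K0 * wd μ s T) → (∀ i, |(t i : ℝ) - sl μ s * (nM + T : ℕ)| ≤ K0 * wd μ s T) →
          (u false : ℝ) + del * wd μ s T ≤ u true → (t false : ℝ) + del * wd μ s T ≤ t true →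
          ∃ S : Set Env, MeasurableSet S ∧ OnR26 (rows 0 ((nM : ℤ) + T)) S ∧ 1 / 2 * c₁ ≤ (law μ).real S ∧
            ∀ η ∈ S, MFct26 μ s c η nM T u t P PT q qF qs r ((K3 + 1) * wd μ s T) th L G dd (Real.exp (-(nM : ℝ) ^ cR)) := by
  have hc0 := h.c0
  have hj2R : (1 : ℝ) ≤ j2 := by exact_mod_cast hj2
  have hqs0 : 0 ≤ qs := by
    rw [hqs]
    exact mul_nonneg hq0 (by linarith [fq16_one P 2])
  obtain ⟨nl, hlow⟩ := far_low h (K := 3) (θ := 1) le_rfl one_pos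
  obtain ⟨PT, hPT⟩ := hT
  obtain ⟨X1, hX1⟩ : ∃ x : ℝ, x = g2 + (2 * qs + 2 * dd) := ⟨_, rfl⟩
  have hX10 : 0 ≤ X1 := by rw [hX1]; linarith
  obtain ⟨hM, hhM⟩ : ∃ x : ℝ, x = c + 2 * X1 / del := ⟨_, rfl⟩
  have hXd1 : 0 ≤ 2 * X1 / del := by positivity
  have hMc : c ≤ hM := by rw [hhM]; linarith
  have hM0 : 0 < hM := by linarith
  obtain ⟨j1, n1, hj1, hn1, hsc1⟩ := sc26 h (M := hM / c) (by positivity)
  have hj1R : (1 : ℝ) ≤ j1 := by exact_mod_cast hj1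
  obtain ⟨dR, cR, hdR, hcR, nR, hRk⟩ := hR (1 / 16) 1 (by norm_num) zero_le_one
  obtain ⟨th, hth⟩ : ∃ x : ℝ, x = min (min (dR / (4 * j1)) (1 / (4 * j1))) (min (min (del / 8) thm) (1 / 2)) := ⟨_, rfl⟩
  have hth0 : 0 < th := by rw [hth]; positivity
  have t1 : th ≤ dR / (4 * j1) := by rw [hth]; exact (min_le_left _ _).trans (min_le_left _ _)
  have t2 : th ≤ 1 / (4 * j1) := by rw [hth]; exact (min_le_left _ _).trans (min_le_right _ _)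
  have t3 : th ≤ del / 8 := by rw [hth]; exact (min_le_right _ _).trans ((min_le_left _ _).trans (min_le_left _ _))
  have t4 : th ≤ thm := by rw [hth]; exact (min_le_right _ _).trans ((min_le_left _ _).trans (min_le_right _ _))
  have t5 : th ≤ 1 / 2 := by rw [hth]; exact (min_le_right _ _).trans (min_le_right _ _)
  obtain ⟨κ, qF, hκ, hqF, hTK⟩ := hPT (K0 + 1) del dd th L (by linarith) hdel hdd hth0
  obtain ⟨MF, hMF, hMF'⟩ := fq_small26 PT (ε := c / (16 * (qF + 1) * 1)) (by positivity)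
  obtain ⟨QF, hQF⟩ : ∃ x : ℝ, x = c / 8 + qF * MF := ⟨_, rfl⟩
  have hQF0 : 0 ≤ QF := by rw [hQF]; positivity
  have kF : ∀ t : ℝ, 0 ≤ t → qF * fq16 PT (t + 2) ≤ QF + c / 16 * t := by
    intro t ht
    have := kG26 hc0 hqF le_rfl hMF' t ht
    rw [mul_one] at this
    rw [hQF]
    exact this
  refine ⟨th, hM, QF, qF, cR, PT, j1, hth0, t4, t5, t3, hcR, hj1, hMc, hQF0, hqF, ?_, fun G2 hG2 => ?_⟩
  · rw [← hX1]
    have g1 : hM * (del / 2) ≤ hM * (del - 2 * (2 * th)) := mul_le_mul_of_nonneg_left (by linarith) hM0.le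
    have g2 : X1 ≤ hM * (del / 2) := by
      rw [hhM]
      have e1 : (c + 2 * X1 / del) * (del / 2) = c * del / 2 + X1 := by field_simp
      rw [e1]
      have : 0 ≤ c * del / 2 := by positivity
      linarith
    linarith
  have hG20 : 0 ≤ G2 := hg.trans hG2
  obtain ⟨K3, hK3⟩ : ∃ x : ℝ, x = (K0 + 1) + 2 * (G2 + (2 * qs + QF + (c / 16 + be) * (K0 + 1))) / hM := ⟨_, rfl⟩
  obtain ⟨G, hG⟩ : ∃ x : ℝ, x = 2 * (G2 + (2 * qs + QF / 2 + (c / 16 + be) * (K0 + 1))) := ⟨_, rfl⟩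
  have hG0 : 0 ≤ G := by rw [hG]; positivity
  have hK3K : K0 + 1 ≤ K3 := by
    rw [hK3]
    have : 0 ≤ 2 * (G2 + (2 * qs + QF + (c / 16 + be) * (K0 + 1))) / hM := by positivity
    linarith
  obtain ⟨c₁, Q, n3, hc₁, hQ, hn3, hsl⟩ := hTK (K3 + 1) (by linarith) G hG0
  obtain ⟨N1, hN1⟩ := th26 h hth0 (K0 + 1)
  have hj12 : 1 ≤ j1 * j2 := Nat.mul_pos hj1 hj2
  refine ⟨K3, G, c₁, Q, nf + nl + n1 + nR + n3 + N1 + 1, hc₁, hQ, by omega, hK3K, ⟨?_, ?_⟩, fun k hk nM T hnM hTT => ?_⟩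
  · rw [hG]
    linarith
  · rw [hK3]
    have e1 : hM / 2 * (K0 + 1 + 2 * (G2 + (2 * qs + QF + (c / 16 + be) * (K0 + 1))) / hM - (K0 + 1)) =
      G2 + (2 * qs + QF + (c / 16 + be) * (K0 + 1)) := by field_simp; ring
    rw [e1]
  -- the scales
  have eT1 : T = j1 * nM := by rw [hTT, hnM]; ring
  have eT3 : T = Q * (j1 * j2 * k) := by rw [hTT]; ring
  have hkM : k ≤ nM := by rw [hnM]; exact Nat.le_mul_of_pos_left k (Nat.mul_pos hQ hj2)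
  have hMT : nM ≤ T := by rw [eT1]; exact Nat.le_mul_of_pos_left nM hj1
  have hks : k ≤ j1 * j2 * k := Nat.le_mul_of_pos_left k hj12
  obtain ⟨r, hr1, hr2, hlan⟩ := hsl (j1 * j2 * k) (by omega)
  rw [← eT3] at hr1 hr2 hlan
  clear hsl hTK hPT hnM hTT eT3
  have thM := hN1 nM (by omega)
  have thT := hN1 T (by omega)
  have hwM2 := thM.w2
  have hwT2 := thT.w2
  have hwM0 : 0 < wd μ s nM := by linarith
  have hwT0 : 0 < wd μ s T := by linarith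
  obtain ⟨-, s1E, -, s1w, s1h⟩ := hsc1 j1 nM le_rfl (by omega)
  rw [← eT1] at s1E s1w s1h
  have sM : hM * (wd μ s nM * EE μ s T) ≤ c * (EE μ s nM * wd μ s T) := by
    have e : hM * (wd μ s nM * EE μ s T) = c * (hM / c * (EE μ s T * wd μ s nM)) := by field_simp
    rw [e]
    exact mul_le_mul_of_nonneg_left s1h hc0.le
  have tM2 : th * wd μ s T ≤ wd μ s nM / 2 := by
    have g1 := mul_le_mul_of_nonneg_left s1w hth0.le
    have g2 : th * (2 * j1) ≤ 1 / 2 := by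
      rw [le_div_iff₀ (by positivity)] at t2
      linarith
    have g3 := mul_le_mul_of_nonneg_right g2 hwM0.le
    linarith
  have hr0 : 0 ≤ r := le_trans (by positivity) hr1
  refine ⟨eT1, hkM, hMT, s1w, r, ?_, fun u t hu ht hsep hset => ?_⟩
  · exact ⟨by linarith, by linarith, thT.thw, hr0, hr2, by linarith, s1E, sM, by linarith, by linarith, hq0, hqF, by rw [hqs], kF, hL,
      hdd.le, hQF0, by linarith, hbe, hK0, by linarith, hM0.le, by linarith, by linarith⟩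
  have hF3 : ∀ z : ℤ, EvB26 μ 0 (0 + nM) (Far16 μ s c 1 3 nM nM P (0, z) q) (1 / 16) := fun z =>
    ⟨Far16_meas _ _ _ _ _ _ _, fun η η' hh => Far16_rows hh, hfar nM (by omega) _⟩
  have hfl0 : (0 : ℤ) ≤ ⌊th * wd μ s T⌋ := Int.floor_nonneg.2 (by positivity)
  have hflr : ((⌊th * wd μ s T⌋ : ℤ) : ℝ) ≤ th * wd μ s T := Int.floor_le _
  have hcell : ∀ a : ℤ, (((a + ⌊th * wd μ s T⌋) - (a - ⌊th * wd μ s T⌋) : ℤ) : ℝ) ≤ dR * wd μ s nM := by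
    intro a
    push_cast
    have g1 := mul_le_mul_of_nonneg_left s1w hth0.le
    have g2 : th * (4 * j1) ≤ dR := by
      rw [le_div_iff₀ (by positivity)] at t1
      linarith
    have g3 := mul_le_mul_of_nonneg_right g2 hwM0.le
    linarith
  have hRK : ∀ i : Bool, u i + ⌊th * wd μ s T⌋ ≤ cp26 (sl μ s) (u i) nM - ⌊th * wd μ s T⌋ ∧
      cp26 (sl μ s) (u i) nM + ⌊th * wd μ s T⌋ ≤ u i - ⌊th * wd μ s T⌋ + nM ∧
      EvB26 μ 0 (0 + nM) (RK26 μ s 0 nM (u i - ⌊th * wd μ s T⌋) (u i + ⌊th * wd μ s T⌋) (cp26 (sl μ s) (u i) nM - ⌊th * wd μ s T⌋)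
        (cp26 (sl μ s) (u i) nM + ⌊th * wd μ s T⌋) (Real.exp (-(nM : ℝ) ^ cR))) (1 / 16) := by
    intro i
    obtain ⟨g1, g2, g3⟩ := hRk nM (by omega) 0 (u i - ⌊th * wd μ s T⌋) (u i + ⌊th * wd μ s T⌋)
      (cp26 (sl μ s) (u i) nM - ⌊th * wd μ s T⌋) (cp26 (sl μ s) (u i) nM + ⌊th * wd μ s T⌋) (by omega) (by omega) (hcell _) (hcell _) (by
        have e : cp26 (sl μ s) (u i) nM - ⌊th * wd μ s T⌋ - (u i - ⌊th * wd μ s T⌋) = cp26 (sl μ s) (u i) nM - u i := by ring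
        rw [e]
        push_cast
        have := cp26_near (sl μ s) (u i) nM
        linarith)
    refine ⟨g1, g2, measurableSet_RK26 _ _ _ _ _ _ _, fun η η' hh => RK26_dep (fun p h1 h2 => hh p ⟨h1, by linarith⟩) _ _ _ _ _, ?_⟩
    exact ENNReal.toReal_le_of_le_ofReal (by norm_num) g3
  exact evtM26 (μ := μ) (s := s) (c := c) (nM := nM) (T := T) (u := u) (t := t) (r := r) (th := th) (K0 := K0) (K3 := K3) (L := L) (G := G)
    (dd := dd) (hlow nM (by omega)) hF3 hRK hlan hc₁ hq0 hqs.ge hwM2 hwT2 tM2 s1E hr2 (Real.exp_pos _).le hu ht hsep hset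

end

end Pool.Agent.W_7d29a1_C1.B26
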