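import Pool.Agent.W_7d29a1_C1.FrbS26
import Pool.Agent.W_7d29a1_C1.FrbM26

/-!
MP_7d29a1_pr, [C1] THE BUFFER OF THE FRESH BALL, base 0, deterministic: `finM26` (`MO26` from the facts of `M o F`), `finB26` (`BO26` from
the facts of `M o F` and of `B`). (helper26)
-/

set_option autoImplicit false

namespace Pool.Agent.W_7d29a1_C1.B26

open MeasureTheory ProbabilityTheory Filter Topology Finset
open Pool.Agent.W_7d29a1_F Pool.Agent.W_7d29a1_h4g Pool.Agent.W_7d29a1_H Pool.Agent.W_7d29a1_HS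
open Pool.Agent.W_7d29a1_C1
open Pool.Agent.W_7d29a1_C1.Basin76
open Pool.Agent.W_7d29a1_C1.U16 (fq16 fq16_one fq16_mono lat16)

noncomputable section

variable {μ : Measure ℝ} {s c C : ℝ} {n₀ : ℕ}

/-- The envelope of `M o F`. -/
theorem pe_mf26 [IsProbabilityMeasure μ] {η : Env} {nM T P PT Pe : ℕ} {J q qF Qe hM : ℝ} (H0 : η ∈ UE26 μ s c nM nM P (0, 0) q)
    (H5 : η ∈ UE26 μ s c T T PT (nM, cp26 (sl μ s) 0 nM) qF)
    (Cc : PC26 P PT Pe (q * C26 P J) (qF * C26 PT 1) Qe hM c (3 * c / 4)) (hq : 0 ≤ q) (hqF : 0 ≤ qF) (hw1 : 1 ≤ wd μ s T)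
    (hwM1 : 1 ≤ wd μ s nM) (hJ0 : 0 ≤ J) (hJ : wd μ s T ≤ J * wd μ s nM) (hE : EE μ s nM ≤ EE μ s T)
    (hh : hM * (wd μ s nM * EE μ s T) ≤ c * (EE μ s nM * wd μ s T)) (hn : (nM : ℝ) + 1 ≤ Real.exp (EE μ s T)) :
    PE26 (kW μ s η 0 (nM + T)) (lt26 (sl μ s) (wd μ s T) 0) (lt26 (sl μ s) (wd μ s T) (nM + T)) (EE μ s T) Pe Qe (3 * c / 4) := by
  have hw : 0 < wd μ s T := by linarith
  have e₁ := pe_unit26 (a := 0) (D := 1) H0 le_rfl hq hw hwM1 hE hh hJ0 hJ rfl (by simp)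
  have e₂ := pe_unit26 (a := nM) (D := 1) (h := c) H5 le_rfl hqF hw hw1 le_rfl (le_of_eq (by ring)) zero_le_one
    (le_of_eq (one_mul _).symm) rfl (by
      have := cp26_near (sl μ s) 0 nM
      rw [Int.cast_zero, sub_zero] at this
      exact this)
  rw [zero_add] at e₁
  exact pe_kW26 Cc (EE_pos (μ := μ) (s := s) T).le e₁ (by rw [zero_add]; exact e₂) hn

/-- The envelope of the whole buffer. -/
theorem pe_b26 [IsProbabilityMeasure μ] {η : Env} {nM T nB P Pe Pw : ℕ} {J q Qe Qw hB : ℝ}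
    (e₁ : PE26 (kW μ s η 0 (nM + T)) (lt26 (sl μ s) (wd μ s T) 0) (lt26 (sl μ s) (wd μ s T) (nM + T)) (EE μ s T) Pe Qe (3 * c / 4))
    (HB : η ∈ UE26 μ s c nB nB P ((nM : ℤ) + T, cp26 (sl μ s) 0 (nM + T)) q)
    (Cc : PC26 Pe P Pw Qe (q * C26 P J) Qw (3 * c / 4) hB (c / 2)) (hq : 0 ≤ q) (hw1 : 1 ≤ wd μ s T)
    (hwB1 : 1 ≤ wd μ s nB) (hJ0 : 0 ≤ J) (hJ : wd μ s T ≤ J * wd μ s nB) (hE : EE μ s nB ≤ EE μ s T)
    (hh : hB * (wd μ s nB * EE μ s T) ≤ c * (EE μ s nB * wd μ s T)) (hn : ((nM + T : ℕ) : ℝ) + 1 ≤ Real.exp (EE μ s T)) :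
    PE26 (kW μ s η 0 (nM + (T + nB))) (lt26 (sl μ s) (wd μ s T) 0) (lt26 (sl μ s) (wd μ s T) (nM + T + nB)) (EE μ s T) Pw Qw (c / 2) := by
  have hw : 0 < wd μ s T := by linarith
  have e₂ := pe_unit26 (a := nM + T) (D := 1) HB le_rfl hq hw hwB1 hE hh hJ0 hJ rfl (by
    have := cp26_near (sl μ s) 0 (nM + T)
    rw [Int.cast_zero, sub_zero] at this
    exact this)
  have h3 := pe_kW26 (n2 := nB) Cc (EE_pos (μ := μ) (s := s) T).le e₁ (by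
    rw [zero_add]
    push_cast
    exact e₂) hn
  rw [Nat.add_assoc nM T nB] at h3 ⊢
  exact h3

/-- The strength is at most `exp (Q1 E)`. -/
theorem upA26 [IsProbabilityMeasure μ] (h : In μ s c C n₀) {η : Env} {nM T : ℕ} {u t : Bool → ℤ} {P PF : ℕ}
    {q qF qs ρ ωF th L G dd ε K0 K0' K3 QF kF hM be : ℝ}
    (H : MFct26 μ s c η nM T u t P PF q qF qs ρ ωF th L G dd ε)
    (N : MNum26 μ s c nM T P PF q qF qs ρ ωF th L dd K0 K0' K3 QF kF hM be) (hu : ∀ i, |(u i : ℝ)| ≤ K0 * wd μ s T)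
    (ht : ∀ i, |(t i : ℝ) - sl μ s * (nM + T : ℕ)| ≤ K0 * wd μ s T) :
    kW μ s η nM T (cp26 (sl μ s) (u false) nM) (t false) ≤ Real.exp ((QF + kF * K0') * EE μ s T) := by
  have hE := EE_pos (μ := μ) (s := s) T
  have D := lh26 h H N hu ht false
  have D2 := lh26 h H N hu ht true
  refine (D.Fup _ _).trans (Real.exp_le_exp.2 (mul_le_mul_of_nonneg_right ?_ hE.le))
  have h1 : |lt26 (sl μ s) (wd μ s T) nM (cp26 (sl μ s) (u false) nM)| ≤ K0' := by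
    have g1 := D2.C2 (cp26 (sl μ s) (u false) nM) (by
      show |((cp26 (sl μ s) (u false) nM : ℤ) : ℝ) - cp26 (sl μ s) (u (!true)) nM| ≤ ρ
      rw [Bool.not_true, sub_self, abs_zero]
      exact N.ρ0)
    have g2 := D.lK
    rw [Bool.not_true] at g1
    have g3 := abs_sub_abs_le_abs_sub (lt26 (sl μ s) (wd μ s T) nM (cp26 (sl μ s) (u false) nM)) ((u false : ℝ) / wd μ s T)
    linarith
  have h2 := mul_le_mul_of_nonneg_left h1 N.kF0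
  have h3 := mul_nonneg h.c0.le (abs_nonneg (lt26 (sl μ s) (wd μ s T) (nM + T) (t false) -
    lt26 (sl μ s) (wd μ s T) nM (cp26 (sl μ s) (u false) nM)))
  linarith

/-- **`MO26`, base 0.** -/
theorem finM26 [IsProbabilityMeasure μ] (h : In μ s c C n₀) {η : Env} {nM T : ℕ} {u t : Bool → ℤ} {P PF Pe : ℕ}
    {q qF qs ρ ωF th L G dd ε K0 K3 QF hM be be2 J Qe : ℝ}
    (H : MFct26 μ s c η nM T u t P PF q qF qs ρ ωF th L G dd ε)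
    (N : MNum26 μ s c nM T P PF q qF qs ρ ωF th L dd K0 (K0 + 1) K3 QF (c / 16) hM be2) (hu : ∀ i, |(u i : ℝ)| ≤ K0 * wd μ s T)
    (ht : ∀ i, |(t i : ℝ) - sl μ s * (nM + T : ℕ)| ≤ K0 * wd μ s T) {del g2 G2 g G' ell Q1 : ℝ}
    (hdel : (u false : ℝ) + del * wd μ s T ≤ u true) (hdt : (t false : ℝ) + del * wd μ s T ≤ t true) (hth : th ≤ del / 8) (hT1 : 1 ≤ T)
    (hnM : nM ≤ T) (hRE : 2 * (6 * (T : ℝ)) ^ 3 ≤ Real.exp (EE μ s T))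
    (hg1 : g2 + (2 * qs + 2 * dd) ≤ hM * (del - 2 * (2 * th))) (Gq : Gq26 (K0 + 1) K3 qs hM QF G be2 G2 (c / 16))
    (hg20 : 0 ≤ g2) (hgG : g2 ≤ G2) (hl : 3 * qs + 2 * dd + 1 ≤ ell) (hg' : g + qs + dd + 1 ≤ g2) (hG' : G' + qs + dd + 1 ≤ G2)
    (hbe : be ≤ be2) (hJ0 : 0 ≤ J) (hJ : wd μ s T ≤ J * wd μ s nM) (Cc : PC26 P PF Pe (q * C26 P J) (qF * C26 PF 1) Qe hM c (3 * c / 4))
    (hQ1 : QF + c / 16 * (K0 + 1) ≤ Q1) :
    MO26 (kW μ s η 0 (nM + T)) (lt26 (sl μ s) (wd μ s T) 0) (lt26 (sl μ s) (wd μ s T) (nM + T)) (EE μ s T) u t (th * wd μ s T) ρ L Q1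
      (kW μ s η nM T (cp26 (sl μ s) (u false) nM) (t false)) ell g G' be Pe Qe (3 * c / 4) := by
  have hE := EE_pos (μ := μ) (s := s) T
  have hTr : (1 : ℝ) ≤ T := by exact_mod_cast hT1
  have hnr : (nM : ℝ) ≤ T := by exact_mod_cast hnM
  have h3 : (1 : ℝ) ≤ (6 * (T : ℝ)) ^ 2 := by nlinarith
  have hT3 : 6 * (T : ℝ) ≤ (6 * (T : ℝ)) ^ 3 := by
    have e : (6 * (T : ℝ)) ^ 3 = 6 * (T : ℝ) * (6 * (T : ℝ)) ^ 2 := by ring
    rw [e]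
    exact le_mul_of_one_le_right (by linarith) h3
  have A0 : 0 ≤ kW μ s η nM T (cp26 (sl μ s) (u false) nM) (t false) := kW_nonneg η nM T _ _
  refine ⟨H.f1 false, (upA26 h H N hu ht).trans (Real.exp_le_exp.2 (mul_le_mul_of_nonneg_right hQ1 hE.le)), ?_, ?_⟩
  · exact (mf26 h H N hu ht hdel hdt hth hT1 hnM (by linarith) hg1 Gq.g2 Gq.g3 hg20 hgG hl hg' hG').mono_be hbe hE.le A0
  · exact pe_mf26 H.m0 H.f5 Cc N.q0 N.qF0 N.w1 N.wM1 hJ0 hJ N.EM N.sM (by linarith)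

/-- **`BO26`, base 0.** -/
theorem finB26 [IsProbabilityMeasure μ] (h : In μ s c C n₀) {η : Env} {nM T nB : ℕ} {u t : Bool → ℤ} {P PF Pe Pw : ℕ}
    {J q qF qs ρ ωF th L G dd K b Kc ε K0 K3 QF QB hM hB be Qe Qw : ℝ}
    (H : MFct26 μ s c η nM T u t P PF q qF qs ρ ωF th L G dd ε) (HB : Bct26 μ s c η nM T nB t P q qs K b Kc)
    (N : MNum26 μ s c nM T P PF q qF qs ρ ωF th L dd K0 (K0 + 1) K3 QF (c / 16) hM (be + c / 16))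
    (NB : NB26 μ s c T nB P J q th QB (c / 16) hB)
    (hu : ∀ i, |(u i : ℝ)| ≤ K0 * wd μ s T) (ht : ∀ i, |(t i : ℝ) - sl μ s * (nM + T : ℕ)| ≤ K0 * wd μ s T)
    {del gK g2 gP GK G2 g G' Kx ell δ : ℝ} (hdel : (u false : ℝ) + del * wd μ s T ≤ u true) (hT1 : 1 ≤ T) (hX : (K0 + 1) * wd μ s T ≤ T)
    (hnM : nM ≤ T) (hnB : nB ≤ T) (hRE : 2 * (6 * (T : ℝ)) ^ 3 ≤ Real.exp (EE μ s T))
    (hg1 : g2 + (2 * qs + 2 * dd) ≤ hM * (del - 2 * (2 * th))) (Gq : Gq26 (K0 + 1) K3 qs hM QF G (be + c / 16) G2 (c / 16))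
    (hB0 : 0 ≤ hB) (hB2 : c / 2 ≤ hB) (be0 : 0 ≤ be) (n3 : be ≤ hB) (hBt : hB * (2 * th) ≤ 1) (hgK : gK = b + gP + qs + dd + 2)
    (hgP : gP = g + 1 + be * (K0 + 1)) (hg2 : gK + qs + 1 ≤ g2)
    (hGK : gK ≤ GK) (hGK1 : max G' (g + 1) + qs + dd + 1 ≤ GK) (hG2 : GK + QB ≤ G2) (hb0 : 0 ≤ b) (hg0 : 0 ≤ g)
    (hl : ell = 4 * qs + 3 + 2 * dd)
    (hex : 4 * qs + 2 + 2 * dd + hB * (K0 + 1) + g + 1 ≤ (hB - be) * Kx)
    (hsp : 4 * qs + 2 + 2 * dd + be * (K0 + 1) + g + 1 ≤ (hB - be) * (del / 4)) (hε : 0 ≤ ε)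
    (hδ : (1 + Real.exp (-EE μ s T)) ^ 2 * (1 + ε) ≤ 1 + δ) (hKx : 0 ≤ Kx) (hK0 : 0 ≤ K0) (hJ0 : 0 ≤ J)
    (hqs : 0 ≤ qs) (hdd : 0 ≤ dd)
    (Cc : PC26 Pe P Pw Qe (q * C26 P J) Qw (3 * c / 4) hB (c / 2))
    (pe : PE26 (kW μ s η 0 (nM + T)) (lt26 (sl μ s) (wd μ s T) 0) (lt26 (sl μ s) (wd μ s T) (nM + T)) (EE μ s T) Pe Qe (3 * c / 4)) :
    BO26 (kW μ s η 0 (nM + (T + nB))) (lt26 (sl μ s) (wd μ s T) 0) (lt26 (sl μ s) (wd μ s T) (nM + T + nB)) (EE μ s T) u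
      (fun i => lt26 (sl μ s) (wd μ s T) (nM + T) (t i)) (th * wd μ s T) K Kx del
      (kW μ s η nM T (cp26 (sl μ s) (u false) nM) (t false)) δ ell (b + qs + dd) Kc be g G' hB Pw Qw (c / 2) := by
  have hE := EE_pos (μ := μ) (s := s) T
  have hTr : (1 : ℝ) ≤ T := by exact_mod_cast hT1
  have hnr : (nM : ℝ) ≤ T := by exact_mod_cast hnM
  have hbK : 0 ≤ be * (K0 + 1) := mul_nonneg be0 (by linarith)
  have hT2 : 3 * (6 * (T : ℝ)) ^ 2 ≤ 2 * (6 * (T : ℝ)) ^ 3 := by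
    have e : 2 * (6 * (T : ℝ)) ^ 3 = 12 * (T : ℝ) * (6 * (T : ℝ)) ^ 2 := by ring
    rw [e]
    exact mul_le_mul_of_nonneg_right (by linarith) (by positivity)
  have h3 : (1 : ℝ) ≤ (6 * (T : ℝ)) ^ 2 := by nlinarith
  have hT3 : 6 * (T : ℝ) ≤ (6 * (T : ℝ)) ^ 3 := by
    have e : (6 * (T : ℝ)) ^ 3 = 6 * (T : ℝ) * (6 * (T : ℝ)) ^ 2 := by ring
    rw [e]
    exact le_mul_of_one_le_right (by linarith) h3
  have A0 : 0 ≤ kW μ s η nM T (cp26 (sl μ s) (u false) nM) (t false) := kW_nonneg η nM T _ _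
  obtain ⟨G1, hG1⟩ : ∃ x : ℝ, x = max G' (g + 1) := ⟨_, rfl⟩
  have m1 : G' ≤ G1 := by rw [hG1]; exact le_max_left _ _
  have m2 : g + 1 ≤ G1 := by rw [hG1]; exact le_max_right _ _
  rw [← hG1] at hGK1
  obtain ⟨h1, h2⟩ := detK26 (J := J) (g := gK) (g2 := g2) (g' := gP) (G' := GK) (G2 := G2) (G1 := G1) (go := g) (Kx := Kx)
    (ell := 4 * qs + 2 + 2 * dd) (ell0 := b + qs + dd) (δ := δ) h H HB N NB hu ht hdel hT1 hX hnM hnB (by linarith) hg1 Gq.g2 Gq.g3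
    hB0 be0 le_rfl n3 (by linarith) hG2 hGK (by rw [hgK, hgP]; linarith) (by linarith) le_rfl (by rw [hgK]; linarith) hGK1
    (by rw [hgP]) m2 hg0 hex hsp hε hδ hKx
  refine ⟨?_, h2.mono (by rw [hl]; linarith) (by rw [hgP]; linarith) m1 hE.le A0, ?_⟩
  · have e : ell = 4 * qs + 2 + 2 * dd + 1 := by rw [hl]; ring
    rw [e]
    exact h1
  · refine pe_b26 pe HB.b0 Cc N.q0 N.w1 NB.wB1 hJ0 NB.wJ NB.EB NB.sB ?_
    push_cast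
    linarith

end

end Pool.Agent.W_7d29a1_C1.B26
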