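import Pool.Agent.W_7d29a1_C1.FrbE26

/-!
MP_7d29a1_pr, [C1] **THE BUFFER OF THE FRESH BALL, base 0** (helper26): `M o F` (event `SA`, probability at least `p`) separate from the
typical rows `B` (event `SB`, failure at most `eps`), the ends of the lanes prescribed. `fre026`.
-/

set_option autoImplicit false

namespace Pool.Agent.W_7d29a1_C1.B26

open MeasureTheory ProbabilityTheory Filter Topology Finset
open Pool.Agent.W_7d29a1_F Pool.Agent.W_7d29a1_h4g Pool.Agent.W_7d29a1_H Pool.Agent.W_7d29a1_HS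
open Pool.Agent.W_7d29a1_C1
open Pool.Agent.W_7d29a1_C1.Basin76
open Pool.Agent.W_7d29a1_C1.U16 (fq16 fq16_one fq16_mono lat16 Far16 far_low far_prob Far16_meas Far16_rows)

noncomputable section

variable {μ : Measure ℝ} {s c C : ℝ} {n₀ : ℕ}

/-- **THE BUFFER OF THE FRESH BALL, base 0.** -/
theorem fre026 [IsProbabilityMeasure μ] (h : In μ s c C n₀) (hR : RkP26 μ s) (hT : TslP26 μ s c) {eps : ℝ} (heps : 0 < eps) :
    ∃ ell : ℝ, 0 ≤ ell ∧ ∀ th' K0 del rD dd be g L Kw : ℝ, 0 < th' → 0 ≤ K0 → 0 < del → 0 < rD → 0 < dd → 0 ≤ be → be ≤ c / 8 →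
      0 ≤ g → 0 ≤ L → 0 ≤ Kw →
    ∃ (th K Kx hB ellw Kc Q1 Qe Qw c' : ℝ) (Pe Pw j1 j2 : ℕ), 0 < th ∧ th ≤ rD ∧ th ≤ del / 8 ∧ 0 ≤ Kx ∧ Kx + 1 ≤ K ∧ Kw ≤ K ∧
      be ≤ hB ∧ 1 ≤ hB ∧ 0 ≤ ellw ∧ 0 < Kc ∧ 0 ≤ Q1 ∧ 0 ≤ Qe ∧ 0 ≤ Qw ∧ 0 < c' ∧ 1 ≤ j1 ∧ 1 ≤ j2 ∧ 1 ≤ th' * j2 ∧
    ∀ G' : ℝ, 0 ≤ G' → ∃ (p : ℝ) (Q k₁ : ℕ), 0 < p ∧ 1 ≤ Q ∧ 1 ≤ k₁ ∧
    ∀ k : ℕ, k₁ ≤ k → ∀ nM T nB : ℕ, nM = Q * j2 * k → T = Q * (j1 * j2) * k → nB = Q * j1 * k →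
    ∃ r : ℝ, 0 ≤ r ∧ r ≤ th * wd μ s T ∧ 1 ≤ th * wd μ s T ∧
    ∀ u t : Bool → ℤ, (∀ i, |(u i : ℝ)| ≤ K0 * wd μ s T) → (∀ i, |(t i : ℝ) - sl μ s * (nM + T : ℕ)| ≤ K0 * wd μ s T) →
      (u false : ℝ) + del * wd μ s T ≤ u true → (t false : ℝ) + del * wd μ s T ≤ t true →
    ∃ SA SB : Set Env, MeasurableSet SA ∧ MeasurableSet SB ∧ OnR26 (rows 0 ((nM : ℤ) + T)) SA ∧
      OnR26 (rows ((nM : ℤ) + T) ((nM : ℤ) + T + nB)) SB ∧ p ≤ (law μ).real SA ∧ (law μ).real SBᶜ ≤ eps ∧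
      ∀ η ∈ SA, ∃ A : ℝ,
        MO26 (kW μ s η 0 (nM + T)) (lt26 (sl μ s) (wd μ s T) 0) (lt26 (sl μ s) (wd μ s T) (nM + T)) (EE μ s T) u t (th * wd μ s T) r L Q1
          A (ell + 2 * dd) g G' be Pe Qe (3 * c / 4) ∧
        (η ∈ SB → BO26 (kW μ s η 0 (nM + (T + nB))) (lt26 (sl μ s) (wd μ s T) 0) (lt26 (sl μ s) (wd μ s T) (nM + T + nB)) (EE μ s T) u
          (fun i => lt26 (sl μ s) (wd μ s T) (nM + T) (t i)) (th * wd μ s T) K Kx del A (Real.exp (-((T : ℕ) : ℝ) ^ c'))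
          (ell + 2 * dd) ellw Kc be g G' hB Pw Qw (c / 2)) := by
  have hc0 := h.c0
  have hc1 := h.c1
  obtain ⟨P, A0, a0, gg, hA0, ha0, hgg, hgg1, nf, hnf, hfar⟩ := far_prob h (K := 3) (θ := 1) (by norm_num) one_pos le_rfl
  obtain ⟨tt, htt⟩ : ∃ x : ℝ, x = min (1 / 16) (eps / 4) := ⟨_, rfl⟩
  have htt0 : 0 < tt := by rw [htt]; positivity
  have htt1 : tt ≤ 1 / 16 := by rw [htt]; exact min_le_left _ _
  have htt2 : tt ≤ eps / 4 := by rw [htt]; exact min_le_right _ _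
  obtain ⟨q, hq0, hqp⟩ := level26 hA0 ha0 hgg htt0
  have hfarT : ∀ m, nf ≤ m → ∀ b : Pt, (law μ).real (Far16 μ s c 1 3 m m P b q)ᶜ ≤ tt := fun m hm b => (hfar m hm m le_rfl b q hq0).trans hqp
  obtain ⟨b₀, κ₀, hb₀, hκ₀, hEp⟩ := EE_pow h
  obtain ⟨qs, hqs⟩ : ∃ x : ℝ, x = q * fq16 P 2 := ⟨_, rfl⟩
  have hqs0 : 0 ≤ qs := by
    rw [hqs]
    exact mul_nonneg hq0 (by linarith [fq16_one P 2])
  refine ⟨4 * qs + 3, by linarith, fun th' K0 del rD dd be g L Kw hth' hK0 hdel hrD hdd hbe hbe8 hg hL hKw => ?_⟩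
  -- the constants before the walls
  have hbK : 0 ≤ be * (K0 + 1) := mul_nonneg hbe (by linarith)
  obtain ⟨gP, hgP⟩ : ∃ x : ℝ, x = g + 1 + be * (K0 + 1) := ⟨_, rfl⟩
  obtain ⟨X2, hX2⟩ : ∃ x : ℝ, x = 4 * qs + 2 + 2 * dd + be * (K0 + 1) + g + 1 := ⟨_, rfl⟩
  have hX20 : 0 ≤ X2 := by rw [hX2]; linarith
  obtain ⟨hB, hhB⟩ : ∃ x : ℝ, x = 2 * be + 1 + 8 * X2 / del := ⟨_, rfl⟩
  have hXd : 0 ≤ 8 * X2 / del := by positivity
  have hB1 : 1 ≤ hB := by rw [hhB]; linarith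
  have hB0 : 0 < hB := by linarith
  obtain ⟨Kx, hKx⟩ : ∃ x : ℝ, x = 2 * (4 * qs + 2 + 2 * dd + hB * (K0 + 1) + g + 1) / hB := ⟨_, rfl⟩
  have hKx0 : 0 ≤ Kx := by rw [hKx]; positivity
  obtain ⟨K, hK⟩ : ∃ x : ℝ, x = max Kw (Kx + 1) := ⟨_, rfl⟩
  have hKK1 : Kw ≤ K := by rw [hK]; exact le_max_left _ _
  have hKK2 : Kx + 1 ≤ K := by rw [hK]; exact le_max_right _ _
  obtain ⟨j2, nB1, b, QB, hj2, hj2J, hb0, hQB0, hstB⟩ := stB26 h hq0 htt0 hfarT hK0 (hKw.trans hKK1) hB0.le (J0 := 1 / th')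
  have hj2R : (1 : ℝ) ≤ j2 := by exact_mod_cast hj2
  obtain ⟨gK, hgK⟩ : ∃ x : ℝ, x = b + gP + qs + dd + 2 := ⟨_, rfl⟩
  obtain ⟨g2, hg2⟩ : ∃ x : ℝ, x = gK + qs + 1 := ⟨_, rfl⟩
  have hg20 : 0 ≤ g2 := by rw [hg2, hgK, hgP]; linarith
  obtain ⟨thm, hthm⟩ : ∃ x : ℝ, x = min (min (1 / (2 * hB)) (1 / (4 * j2))) rD := ⟨_, rfl⟩
  have hthm0 : 0 < thm := by rw [hthm]; positivity
  obtain ⟨th, hM, QF, qF, cR, PT, j1, hth0, tm, th2, th8, hcR, hj1, hMc, hQF0, hqF0, hg1, hstM⟩ := stM26 h hR hT hq0 hqs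
    (fun m hm b => (hfarT m hm b).trans htt1) (K0 := K0) (del := del) (dd := dd) (be := be + c / 16) (g2 := g2) (L := L) (thm := thm) hK0 hdel
    hdd (by linarith) (by linarith) hg20 hL hthm0 hj2
  have tm1 : th ≤ 1 / (2 * hB) := by
    refine tm.trans ?_
    rw [hthm]
    exact (min_le_left _ _).trans (min_le_left _ _)
  have tm2 : th ≤ 1 / (4 * j2) := by
    refine tm.trans ?_
    rw [hthm]
    exact (min_le_left _ _).trans (min_le_right _ _)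
  have tm3 : th ≤ rD := by
    refine tm.trans ?_
    rw [hthm]
    exact min_le_right _ _
  have hj1R : (1 : ℝ) ≤ j1 := by exact_mod_cast hj1
  obtain ⟨c', hc', nT, htol⟩ := tol26 j1 hj1 hb₀ hκ₀ hcR
  have hCq : ∀ {P' : ℕ} {q' J : ℝ}, 0 ≤ q' → 0 ≤ J → 0 ≤ q' * C26 P' J := fun h1 h2 => mul_nonneg h1 (C26_nonneg _ h2)
  obtain ⟨Pe, Qe, hQe, -, -, Ce⟩ := pc26 P PT (Q₁ := q * C26 P (2 * j1)) (Q₂ := qF * C26 PT 1) (h₁ := hM) (h₂ := c) (h := 3 * c / 4)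
    (hCq hq0 (by linarith)) (hCq hqF0 zero_le_one) (by linarith) (by linarith) (by linarith)
  obtain ⟨Pw, Qw, hQw, -, -, Cw⟩ := pc26 Pe P (Q₁ := Qe) (Q₂ := q * C26 P (2 * j2)) (h₁ := 3 * c / 4) (h₂ := hB) (h := c / 2)
    hQe (hCq hq0 (by linarith)) (by linarith) (by linarith) (by linarith)
  refine ⟨th, K, Kx, hB, b + qs + dd, 1 / (2 * j2), QF + c / 16 * (K0 + 1), Qe, Qw, c', Pe, Pw, j1, j2, hth0, tm3, th8, hKx0, hKK2, hKK1,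
    by rw [hhB]; linarith, hB1, by linarith, by positivity, ?_, hQe, hQw, hc', hj1, hj2, ?_, fun G' hG' => ?_⟩
  · have : 0 ≤ c / 16 * (K0 + 1) := by positivity
    linarith
  · rw [div_le_iff₀ hth'] at hj2J
    linarith
  -- the walls
  obtain ⟨GK, hGK⟩ : ∃ x : ℝ, x = max gK (max G' (g + 1) + qs + dd + 1) := ⟨_, rfl⟩
  have e1 : gK ≤ GK := by rw [hGK]; exact le_max_left _ _
  have e2 : max G' (g + 1) + qs + dd + 1 ≤ GK := by rw [hGK]; exact le_max_right _ _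
  obtain ⟨G2, hG2⟩ : ∃ x : ℝ, x = max g2 (GK + QB) := ⟨_, rfl⟩
  have e3 : g2 ≤ G2 := by rw [hG2]; exact le_max_left _ _
  have e4 : GK + QB ≤ G2 := by rw [hG2]; exact le_max_right _ _
  have e5 : G' ≤ max G' (g + 1) := le_max_left _ _
  obtain ⟨K3, G, c₁, Q, n1, hc₁, hQ, hn1, hK3, Gq, hev⟩ := hstM G2 e3
  obtain ⟨N1, hN1⟩ := th26 h hth0 (K0 + 1)
  refine ⟨1 / 2 * c₁, Q, n1 + nB1 + nT + N1 + 1, by positivity, hQ, by omega, fun k hk nM T nB hnM hTT hnB => ?_⟩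
  obtain ⟨eT1, hkM, hMT, sJ, r, NN, hev⟩ := hev k (by omega) nM T hnM hTT
  have eT2 : T = j2 * nB := by rw [hTT, hnB]; ring
  have hkB : k ≤ nB := by rw [hnB]; exact Nat.le_mul_of_pos_left k (Nat.mul_pos hQ hj1)
  have hBT : nB ≤ T := by rw [eT2]; exact Nat.le_mul_of_pos_left nB hj2
  have thT := hN1 T (by omega)
  obtain ⟨NB, hevB⟩ := hstB nB T nM (by omega) eT2 th hth0.le tm2
  have hth2 : hB * (2 * th) ≤ 1 := by
    rw [le_div_iff₀ (by positivity)] at tm1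
    linarith
  refine ⟨r, NN.ρ0, NN.ρ1, thT.thw, fun u t hu ht hsep hset => ?_⟩
  obtain ⟨SA, a1, a2, a3, a4⟩ := hev u t hu ht hsep hset
  obtain ⟨SB, b1, b2, b3, b4⟩ := hevB t ht
  refine ⟨SA, SB, a1, b1, a2, b2, a3, b3.trans (by linarith), fun η hη => ⟨kW μ s η nM T (cp26 (sl μ s) (u false) nM) (t false), ?_⟩⟩
  have HH := a4 η hη
  have hMO := finM26 (g := g) (G' := G') (ell := 4 * qs + 3 + 2 * dd) (Q1 := QF + c / 16 * (K0 + 1)) (be := be) (Pe := Pe) (Qe := Qe)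
    (J := 2 * j1) h HH NN hu ht hsep hset th8 thT.one hMT thT.RE hg1 Gq hg20 e3 (by linarith) (by rw [hg2, hgK, hgP]; linarith)
    (by linarith) (by linarith) (by linarith) sJ Ce le_rfl
  refine ⟨hMO, fun hηB => ?_⟩
  have hBB := b4 η hηB
  rw [← hqs] at hBB
  refine finB26 (gK := gK) (gP := gP) (GK := GK) h HH hBB NN NB hu ht hsep thT.one thT.KT hMT hBT thT.RE hg1 Gq hB0.le (by linarith)
    hbe (by rw [hhB]; linarith) hth2 hgK hgP hg2.ge e1 e2 e4 hb0 hg rfl ?_ ?_ (Real.exp_pos _).le ?_ hKx0 hK0 (by linarith) hqs0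
    hdd.le Cw hMO.pe
  · have g1 : hB / 2 * Kx ≤ (hB - be) * Kx := mul_le_mul_of_nonneg_right (by rw [hhB]; linarith) hKx0
    have g2 : hB / 2 * Kx = 4 * qs + 2 + 2 * dd + hB * (K0 + 1) + g + 1 := by
      rw [hKx]
      field_simp
    linarith
  · have g1 : hB / 2 * (del / 4) ≤ (hB - be) * (del / 4) := mul_le_mul_of_nonneg_right (by rw [hhB]; linarith) (by positivity)
    have g2 : X2 ≤ hB / 2 * (del / 4) := by
      rw [hhB]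
      have e1 : (2 * be + 1 + 8 * X2 / del) / 2 * (del / 4) = (2 * be + 1) * del / 8 + X2 := by field_simp; norm_num
      rw [e1]
      have : 0 ≤ (2 * be + 1) * del / 8 := by positivity
      linarith
    rw [hX2] at g2
    linarith
  · exact htol T (by omega) nM (le_of_eq eT1) (EE μ s T) (hEp T thT.one)

end

end Pool.Agent.W_7d29a1_C1.B26
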