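import Pool.Agent.W_7d29a1_C1.FrbK26
import Pool.Agent.W_7d29a1_C1.BufH26

/-!
MP_7d29a1_pr, [C1] THE TWO LANES AND THE BUFFER OF THE FRESH BALL, ends of the lanes prescribed, kernels of the model. (helper26)

`MFct26`, `Bct26`: the facts of the rows `0 .. nM .. nM + T` and `nM + T .. nM + T + nB`; `lh26`: the data of each lane; `mf26`: the
output `MF26` of `M o F`; `detK26`: the output of the whole buffer.
-/

set_option autoImplicit false

namespace Pool.Agent.W_7d29a1_C1.B26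

open MeasureTheory ProbabilityTheory Filter Topology Finset
open Pool.Agent.W_7d29a1_F Pool.Agent.W_7d29a1_h4g Pool.Agent.W_7d29a1_H Pool.Agent.W_7d29a1_HS
open Pool.Agent.W_7d29a1_C1
open Pool.Agent.W_7d29a1_C1.CR76 Pool.Agent.W_7d29a1_C1.Basin76
open Pool.Agent.W_7d29a1_C1.H75 (hc)
open Pool.Agent.W_7d29a1_C1.U16 (fq16 fq16_one fq16_mono lat16)

noncomputable section

variable {μ : Measure ℝ} {s c C : ℝ} {n₀ : ℕ}

/-- The facts of `M o F`. -/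
structure MFct26 (μ : Measure ℝ) (s c : ℝ) (η : Env) (nM T : ℕ) (u t : Bool → ℤ) (P PF : ℕ) (q qF qs ρ ωF th L G dd ε : ℝ) : Prop where
  m0 : η ∈ UE26 μ s c nM nM P (0, 0) q
  m1 : ∀ i, η ∈ UE26 μ s c nM nM P (0, u i) q
  m2 : ∀ i (a : ℤ), |(a : ℝ) - u i| ≤ th * wd μ s T → Real.exp (-(qs * EE μ s T)) ≤ kW μ s η 0 nM a (cp26 (sl μ s) (u i) nM)
  m3 : ∀ i (a a' y y' : ℤ), |(a : ℝ) - u i| ≤ th * wd μ s T → |(a' : ℝ) - u i| ≤ th * wd μ s T →
    |(y : ℝ) - cp26 (sl μ s) (u i) nM| ≤ ρ → |(y' : ℝ) - cp26 (sl μ s) (u i) nM| ≤ ρ →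
    kW μ s η 0 nM a y * kW μ s η 0 nM a' y' ≤ (1 + ε) * (kW μ s η 0 nM a y' * kW μ s η 0 nM a' y)
  f1 : ∀ i, Real.exp (L * EE μ s T) ≤ kW μ s η nM T (cp26 (sl μ s) (u i) nM) (t i)
  f2 : ∀ x y : ℤ, |(x : ℝ) - cp26 (sl μ s) 0 nM| ≤ ωF →
    (∀ i, ¬ (|(x : ℝ) - cp26 (sl μ s) (u i) nM| ≤ ρ ∧ |(y : ℝ) - t i| ≤ ρ)) → kW μ s η nM T x y ≤ Real.exp (-(G * EE μ s T))
  f3 : ∀ i (x y : ℤ), |(x : ℝ) - cp26 (sl μ s) (u i) nM| ≤ ρ → |(y : ℝ) - t i| ≤ ρ →
    kW μ s η nM T x y ≤ Real.exp (dd * EE μ s T) * kW μ s η nM T (cp26 (sl μ s) (u i) nM) (t i)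
  f4 : |Real.log (kW μ s η nM T (cp26 (sl μ s) (u true) nM) (t true)) -
    Real.log (kW μ s η nM T (cp26 (sl μ s) (u false) nM) (t false))| ≤ dd * EE μ s T
  f5 : η ∈ UE26 μ s c T T PF (nM, cp26 (sl μ s) 0 nM) qF

/-- The facts of `B`. -/
structure Bct26 (μ : Measure ℝ) (s c : ℝ) (η : Env) (nM T nB : ℕ) (t : Bool → ℤ) (P : ℕ) (q qs K b Kc : ℝ) : Prop where
  b0 : η ∈ UE26 μ s c nB nB P ((nM : ℤ) + T, cp26 (sl μ s) 0 (nM + T)) q
  b1 : ∀ i, η ∈ UE26 μ s c nB nB P ((nM : ℤ) + T, t i) q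
  b2 : ∀ i (x : ℤ), |lt26 (sl μ s) (wd μ s T) (nM + T + nB) x| ≤ K →
    Real.exp (-(b * EE μ s T)) ≤ kW μ s η ((nM : ℤ) + T) nB (t i) x
  b3 : ∀ i (x : ℤ), |lt26 (sl μ s) (wd μ s T) (nM + T + nB) x - lt26 (sl μ s) (wd μ s T) (nM + T) (t i)| ≤ Kc →
    Real.exp (-(qs * EE μ s T)) ≤ kW μ s η ((nM : ℤ) + T) nB (t i) x

/-- The numbers of `M o F`. -/
structure MNum26 (μ : Measure ℝ) (s c : ℝ) (nM T : ℕ) (P PF : ℕ) (q qF qs ρ ωF th L dd K0 K0' K3 QF kF hM be : ℝ) : Prop where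
  w1 : 1 ≤ wd μ s T
  wM1 : 1 ≤ wd μ s nM
  th1 : 1 ≤ th * wd μ s T
  ρ0 : 0 ≤ ρ
  ρ1 : ρ ≤ th * wd μ s T
  tM : th * wd μ s T ≤ wd μ s nM
  EM : EE μ s nM ≤ EE μ s T
  sM : hM * (wd μ s nM * EE μ s T) ≤ c * (EE μ s nM * wd μ s T)
  KK : K0 + 2 * th ≤ K0'
  K3ω : K3 * wd μ s T + 1 ≤ ωF
  q0 : 0 ≤ q
  qF0 : 0 ≤ qF
  qsq : q * fq16 P 2 ≤ qs
  QFk : ∀ t : ℝ, 0 ≤ t → qF * fq16 PF (t + 2) ≤ QF + kF * t
  L0 : 0 ≤ L
  dd0 : 0 ≤ dd
  QF0 : 0 ≤ QF
  kF0 : 0 ≤ kF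
  be0 : 0 ≤ be
  K00 : 0 ≤ K0
  K30 : 0 ≤ K3
  hM0 : 0 ≤ hM
  n1 : 2 * (kF + be) ≤ hM
  n2 : 2 * be ≤ c

/-- The numbers of `B`. -/
structure NB26 (μ : Measure ℝ) (s c : ℝ) (T nB : ℕ) (P : ℕ) (J q th QB kB hB : ℝ) : Prop where
  wB1 : 1 ≤ wd μ s nB
  tB : th * wd μ s T ≤ wd μ s nB
  wJ : wd μ s T ≤ J * wd μ s nB
  EB : EE μ s nB ≤ EE μ s T
  sB : hB * (wd μ s nB * EE μ s T) ≤ c * (EE μ s nB * wd μ s T)
  QBk : ∀ t : ℝ, 0 ≤ t → q * fq16 P (t * J + 2) ≤ QB + kB * t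

/-- A cell of half width at most `th w`, in the coordinates. -/
theorem cellT26 {v w th ρ : ℝ} (hw : 1 ≤ w) (hρ : ρ ≤ th * w) (T : ℕ) (t y : ℤ) (hy : |(y : ℝ) - t| ≤ ρ) :
    |lt26 v w T y - lt26 v w T t| ≤ th := by
  have hw0 : 0 < w := by linarith
  unfold lt26
  rw [← sub_div, abs_div, abs_of_pos hw0, div_le_iff₀ hw0]
  have e : (y : ℝ) - v * T - (t - v * T) = y - t := by ring
  rw [e]
  exact hy.trans hρ

/-- **The data of each lane.** -/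
theorem lh26 [IsProbabilityMeasure μ] (h : In μ s c C n₀) {η : Env} {nM T : ℕ} {u t : Bool → ℤ} {P PF : ℕ}
    {q qF qs ρ ωF th L G dd ε K0 K0' K3 QF kF hM be : ℝ}
    (H : MFct26 μ s c η nM T u t P PF q qF qs ρ ωF th L G dd ε)
    (N : MNum26 μ s c nM T P PF q qF qs ρ ωF th L dd K0 K0' K3 QF kF hM be) (hu : ∀ i, |(u i : ℝ)| ≤ K0 * wd μ s T)
    (ht : ∀ i, |(t i : ℝ) - sl μ s * (nM + T : ℕ)| ≤ K0 * wd μ s T) (i : Bool) :
    LH26 (kW μ s η 0 nM) (kW μ s η nM T) (lt26 (sl μ s) (wd μ s T) 0) (lt26 (sl μ s) (wd μ s T) nM)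
      (lt26 (sl μ s) (wd μ s T) (nM + T)) {a | |(a : ℝ) - u i| ≤ th * wd μ s T}
      {y | |(y : ℝ) - cp26 (sl μ s) (u i) nM| ≤ ρ} {y | |(y : ℝ) - t i| ≤ ρ}
      {y | |(y : ℝ) - cp26 (sl μ s) (u (!i)) nM| ≤ ρ} {y | |(y : ℝ) - t (!i)| ≤ ρ}
      (cp26 (sl μ s) (u i) nM) (t i) (u i / wd μ s T) (u (!i) / wd μ s T) K0' K3 (EE μ s T) qs hM QF kF c G dd
      (kW μ s η nM T (cp26 (sl μ s) (u i) nM) (t i)) (kW μ s η nM T (cp26 (sl μ s) (u (!i)) nM) (t (!i))) (2 * th) be L := by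
  have hw1 := N.w1
  have hw : 0 < wd μ s T := by linarith
  have hE := EE_pos (μ := μ) (s := s) T
  have hρ0 := N.ρ0
  have hth : 0 < th := by
    by_contra hcon
    have := mul_nonpos_of_nonpos_of_nonneg (not_lt.1 hcon) hw.le
    linarith [N.th1]
  have hqs : 0 ≤ qs := by
    have f := fq16_one P 2
    exact (mul_nonneg N.q0 (by linarith)).trans N.qsq
  have hF0 : ∀ j : Bool, 0 < kW μ s η nM T (cp26 (sl μ s) (u j) nM) (t j) := fun j =>
    lt_of_lt_of_le (Real.exp_pos _) (H.f1 j)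
  have mem0 : ∀ x : ℤ, |(x : ℝ) - x| ≤ ρ := fun x => by rw [sub_self, abs_zero]; exact hρ0
  -- the cells in the coordinates
  have cell : ∀ (j : Bool) (y : ℤ), |(y : ℝ) - cp26 (sl μ s) (u j) nM| ≤ ρ →
      |lt26 (sl μ s) (wd μ s T) nM y - u j / wd μ s T| ≤ 2 * th := by
    intro j y hy
    unfold lt26
    rw [← sub_div, abs_div, abs_of_pos hw, div_le_iff₀ hw]
    have h1 := cp26_near (sl μ s) (u j) nM
    have e : (y : ℝ) - sl μ s * nM - u j = ((y : ℝ) - cp26 (sl μ s) (u j) nM) + ((cp26 (sl μ s) (u j) nM : ℝ) - u j - sl μ s * nM) := by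
      ring
    rw [e]
    refine (abs_add_le _ _).trans ?_
    linarith [N.ρ1, N.th1]
  have lam : ∀ j : Bool, |(u j : ℝ) / wd μ s T| + 2 * th ≤ K0' := by
    intro j
    have h1 := hu j
    rw [abs_div, abs_of_pos hw]
    have h2 : |(u j : ℝ)| / wd μ s T ≤ K0 := by rw [div_le_iff₀ hw]; exact h1
    linarith [N.KK]
  have hK0' : 0 ≤ K0' := by
    have := lam i
    have := abs_nonneg ((u i : ℝ) / wd μ s T)
    linarith
  have endK : ∀ (j : Bool) (y : ℤ), |(y : ℝ) - t j| ≤ ρ → |lt26 (sl μ s) (wd μ s T) (nM + T) y| ≤ K0' := by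
    intro j y hy
    have h1 := cellT26 (v := sl μ s) (th := th) hw1 N.ρ1 (nM + T) (t j) y hy
    have h2 : |lt26 (sl μ s) (wd μ s T) (nM + T) (t j)| ≤ K0 := by
      unfold lt26
      rw [abs_div, abs_of_pos hw, div_le_iff₀ hw]
      exact ht j
    have h3 := abs_sub_abs_le_abs_sub (lt26 (sl μ s) (wd μ s T) (nM + T) y) (lt26 (sl μ s) (wd μ s T) (nM + T) (t j))
    linarith [N.KK]
  refine ⟨hE, fun a y => kW_nonneg η 0 nM a y, fun a y => kW_nonneg η nM T a y, mem0 _, mem0 _,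
    by linarith, fun a ha => ?_, fun y hy => cell (!i) y hy, fun y hy => endK (!i) y hy, lam i, fun a ha y => ?_,
    fun a ha => H.m2 i a ha, H.f1 i, le_rfl, ?_, fun y hy z hz => H.f3 i y z hy hz, fun y hy z hz => H.f3 (!i) y z hy hz,
    fun x y hx h1 h2 => ?_, fun x y => ?_, N.L0, ⟨hqs, N.QF0, N.dd0, N.hM0, h.c0.le, N.kF0, N.be0, hK0', N.K30⟩, N.n1, N.n2⟩
  · -- A1
    have ha' : |(a : ℝ) - u i| ≤ th * wd μ s T := ha
    unfold lt26
    rw [Nat.cast_zero, mul_zero, sub_zero, ← sub_div, abs_div, abs_of_pos hw, div_le_iff₀ hw]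
    linarith [N.th1]
  · -- Mup
    have ha' : |(a : ℝ) - u i| ≤ th * wd μ s T := ha
    have h1 := up_unit26 (H.m1 i) le_rfl N.q0 hw (by linarith [N.wM1]) N.EM N.sM a y (Y := 2) (by
      have : |(a : ℝ) - u i| / wd μ s nM ≤ 1 := by
        rw [div_le_one (by linarith [N.wM1])]
        exact ha'.trans N.tM
      linarith)
    have e1 := lt26_sub (sl μ s) (wd μ s T) 0 nM a y
    rw [zero_add] at e1
    rw [← e1] at h1
    refine h1.trans (Real.exp_le_exp.2 (mul_le_mul_of_nonneg_right ?_ hE.le))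
    linarith [N.qsq]
  · -- WW
    have h1 := other26 (W := fun j => Real.log (kW μ s η nM T (cp26 (sl μ s) (u j) nM) (t j))) H.f4 i
    have h2 := Real.exp_le_exp.2 h1
    rw [Real.exp_add, Real.exp_log (hF0 _), Real.exp_log (hF0 _)] at h2
    exact h2
  · -- Fo
    refine H.f2 x y ?_ fun j => ?_
    · unfold lt26 at hx
      rw [abs_div, abs_of_pos hw, div_le_iff₀ hw] at hx
      have h3 := cp26_near (sl μ s) 0 nM
      have e : (x : ℝ) - cp26 (sl μ s) 0 nM = ((x : ℝ) - sl μ s * nM) - ((cp26 (sl μ s) 0 nM : ℝ) - (0 : ℤ) - sl μ s * nM) := by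
        push_cast
        ring
      rw [e]
      refine (abs_sub _ _).trans ?_
      linarith [N.K3ω]
    · rcases Bool.eq_or_eq_not j i with hj | hj
      · rw [hj]
        exact h1
      · rw [hj]
        exact h2
  · -- Fup
    have h3 := cp26_near (sl μ s) 0 nM
    have h1 := up_unit26 H.f5 le_rfl N.qF0 hw hw le_rfl (h := c) (le_of_eq (by ring)) x y
      (Y := |lt26 (sl μ s) (wd μ s T) nM x| + 2) (by
      have e : (x : ℝ) - cp26 (sl μ s) 0 nM = ((x : ℝ) - sl μ s * nM) - ((cp26 (sl μ s) 0 nM : ℝ) - (0 : ℤ) - sl μ s * nM) := by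
        push_cast
        ring
      have h4 : |(x : ℝ) - cp26 (sl μ s) 0 nM| ≤ |(x : ℝ) - sl μ s * nM| + 1 := by
        rw [e]
        exact (abs_sub _ _).trans (by linarith)
      have h5 : |(x : ℝ) - cp26 (sl μ s) 0 nM| / wd μ s T ≤ |lt26 (sl μ s) (wd μ s T) nM x| + 1 := by
        unfold lt26
        rw [abs_div, abs_of_pos hw, div_le_iff₀ hw]
        have e2 : (|(x : ℝ) - sl μ s * nM| / wd μ s T + 1) * wd μ s T = |(x : ℝ) - sl μ s * nM| + wd μ s T := by field_simp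
        rw [e2]
        linarith
      linarith)
    rw [← lt26_sub (sl μ s) (wd μ s T) nM T x y] at h1
    refine h1.trans (Real.exp_le_exp.2 (mul_le_mul_of_nonneg_right ?_ hE.le))
    linarith [N.QFk _ (abs_nonneg (lt26 (sl μ s) (wd μ s T) nM x))]

/-- **The output of `M o F`.** -/
theorem mf26 [IsProbabilityMeasure μ] (h : In μ s c C n₀) {η : Env} {nM T : ℕ} {u t : Bool → ℤ} {P PF : ℕ}
    {q qF qs ρ ωF th L G dd ε K0 K0' K3 QF kF hM be : ℝ}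
    (H : MFct26 μ s c η nM T u t P PF q qF qs ρ ωF th L G dd ε)
    (N : MNum26 μ s c nM T P PF q qF qs ρ ωF th L dd K0 K0' K3 QF kF hM be) (hu : ∀ i, |(u i : ℝ)| ≤ K0 * wd μ s T)
    (ht : ∀ i, |(t i : ℝ) - sl μ s * (nM + T : ℕ)| ≤ K0 * wd μ s T) {del g2 G2 g' G1 ell : ℝ}
    (hdel : (u false : ℝ) + del * wd μ s T ≤ u true) (hdt : (t false : ℝ) + del * wd μ s T ≤ t true) (hth : th ≤ del / 8) (hT1 : 1 ≤ T)
    (hnM : nM ≤ T) (hRE : 2 * (6 * (T : ℝ)) ≤ Real.exp (EE μ s T))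
    (hg1 : g2 + (2 * qs + 2 * dd) ≤ hM * (del - 2 * (2 * th)))
    (hg2 : G2 + (2 * qs + QF / 2 + (kF + be) * K0') ≤ G / 2) (hg3 : G2 + (2 * qs + QF + (kF + be) * K0') ≤ hM / 2 * (K3 - K0'))
    (hg20 : 0 ≤ g2) (hgG : g2 ≤ G2) (hl : 3 * qs + 2 * dd + 1 ≤ ell) (hg' : g' + qs + dd + 1 ≤ g2) (hG' : G1 + qs + dd + 1 ≤ G2) :
    MF26 (kW μ s η 0 (nM + T)) (lt26 (sl μ s) (wd μ s T) (nM + T)) u t (th * wd μ s T) ρ (EE μ s T)
      (kW μ s η nM T (cp26 (sl μ s) (u false) nM) (t false)) ell g' G1 be := by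
  have hw : 0 < wd μ s T := by linarith [N.w1]
  have hE := EE_pos (μ := μ) (s := s) T
  have key : ∀ (i : Bool) (x : ℤ), |(x : ℝ) - u i| ≤ th * wd μ s T →
      Real.exp (-(ell * EE μ s T)) * kW μ s η nM T (cp26 (sl μ s) (u false) nM) (t false) ≤ kW μ s η 0 (nM + T) x (t i) ∧
      (∀ v : ℤ, kW μ s η 0 (nM + T) x v ≤ Real.exp (ell * EE μ s T) * kW μ s η nM T (cp26 (sl μ s) (u false) nM) (t false)) ∧
      (∀ v : ℤ, ¬ |(v : ℝ) - t i| ≤ ρ → kW μ s η 0 (nM + T) x v ≤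
        Real.exp (-(g' * EE μ s T)) * kW μ s η nM T (cp26 (sl μ s) (u false) nM) (t false)) ∧
      ∀ v : ℤ, ¬ |(v : ℝ) - t i| ≤ ρ → ¬ |(v : ℝ) - t (!i)| ≤ ρ → kW μ s η 0 (nM + T) x v ≤
        Real.exp ((-G1 - be * |lt26 (sl μ s) (wd μ s T) (nM + T) v|) * EE μ s T) *
          kW μ s η nM T (cp26 (sl μ s) (u false) nM) (t false) := by
    intro i x hx
    have D := lh26 h H N hu ht i
    have hWW : ∀ j : Bool, kW μ s η nM T (cp26 (sl μ s) (u j) nM) (t j) ≤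
        Real.exp (dd * EE μ s T) * kW μ s η nM T (cp26 (sl μ s) (u false) nM) (t false) := by
      intro j
      cases j
      · have : (1 : ℝ) ≤ Real.exp (dd * EE μ s T) := Real.one_le_exp (mul_nonneg N.dd0 hE.le)
        have h0 : 0 ≤ kW μ s η nM T (cp26 (sl μ s) (u false) nM) (t false) := kW_nonneg η nM T _ _
        nlinarith
      · exact (lh26 h H N hu ht false).WW
    have hWV : ∀ j : Bool, kW μ s η nM T (cp26 (sl μ s) (u false) nM) (t false) ≤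
        Real.exp (dd * EE μ s T) * kW μ s η nM T (cp26 (sl μ s) (u j) nM) (t j) := by
      intro j
      cases j
      · have : (1 : ℝ) ≤ Real.exp (dd * EE μ s T) := Real.one_le_exp (mul_nonneg N.dd0 hE.le)
        have h0 : 0 ≤ kW μ s η nM T (cp26 (sl μ s) (u false) nM) (t false) := kW_nonneg η nM T _ _
        nlinarith
      · exact (lh26 h H N hu ht true).WW
    have hlam : del ≤ |(u (!i) : ℝ) / wd μ s T - u i / wd μ s T| := by
      have h1 : del ≤ (u true : ℝ) / wd μ s T - u false / wd μ s T := by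
        rw [← sub_div, le_div_iff₀ hw]
        linarith
      cases i
      · exact h1.trans (le_abs_self _)
      · rw [abs_sub_comm]
        exact h1.trans (le_abs_self _)
    have gp : Gl26 (u i / wd μ s T) (u (!i) / wd μ s T) K0' K3 qs hM QF kF G dd (2 * th) be g2 G2 :=
      ⟨hg1.trans (mul_le_mul_of_nonneg_left (by linarith) N.hM0), hg2, hg3⟩
    -- the set of the middle row
    obtain ⟨S, hS⟩ : ∃ S : Finset ℤ, S = insert (cp26 (sl μ s) (u i) nM) (Icc x (x + nM)) := ⟨_, rfl⟩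
    have cS : (S.card : ℝ) ≤ 6 * T := by
      have h1 : S.card ≤ nM + 2 := by
        rw [hS]
        refine (card_insert_le _ _).trans ?_
        rw [Int.card_Icc]
        omega
      have h2 : nM + 2 ≤ 6 * T := by omega
      exact_mod_cast h1.trans h2
    have hco : ∀ v : ℤ, kW μ s η 0 (nM + T) x v = K2k (kW μ s η 0 nM) (kW μ s η nM T) S x v := by
      intro v
      have h1 := kW_step26 (μ := μ) (s := s) η 0 nM T x v S (by rw [hS]; exact subset_insert _ _) (fun y => kW μ s η nM T y v)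
        fun y _ => by rw [zero_add]
      rw [h1]
      unfold K2k
      exact sum_congr rfl fun y _ => rfl
    obtain ⟨k1, k2, k3, k4⟩ := mf_one26 (S := S) D gp hg20 hgG (by rw [hS]; exact mem_insert_self _ _) (by linarith) (hWW i) (hWV i) hl
      hg' hG' hx
    refine ⟨by rw [hco]; exact k1, fun v => by rw [hco]; exact k2 v, fun v hv => by rw [hco]; exact k3 v hv,
      fun v hv hv' => by rw [hco]; exact k4 v hv hv'⟩
  refine ⟨fun i x hx => (key i x hx).1, fun i x hx => (key i x hx).2.1, fun i x hx y hy => (key i x hx).2.2.1 y fun h1 => ?_,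
    fun i x hx y hy => (key i x hx).2.2.2 y (hy i) (hy (!i))⟩
  -- the two end cells are disjoint
  have h2 : th * wd μ s T ≤ del / 8 * wd μ s T := mul_le_mul_of_nonneg_right hth hw.le
  have h3 := N.ρ1
  have h4 := N.th1
  rw [abs_le] at h1 hy
  cases i
  · have e : t (!false) = t true := rfl
    rw [e] at hy
    linarith [h1.1, h1.2, hy.1, hy.2]
  · have e : t (!true) = t false := rfl
    rw [e] at hy
    linarith [h1.1, h1.2, hy.1, hy.2]

/-- **The data of the three kernels.** -/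
theorem khm26 [IsProbabilityMeasure μ] (h : In μ s c C n₀) {η : Env} {nM T nB : ℕ} {u t : Bool → ℤ} {P PF : ℕ}
    {J q qF qs ρ ωF th L G dd K b Kc ε K0 K0' K3 QF kF QB kB hM hB be be2 : ℝ}
    (H : MFct26 μ s c η nM T u t P PF q qF qs ρ ωF th L G dd ε) (HB : Bct26 μ s c η nM T nB t P q qs K b Kc)
    (N : MNum26 μ s c nM T P PF q qF qs ρ ωF th L dd K0 K0' K3 QF kF hM be2) (NB : NB26 μ s c T nB P J q th QB kB hB)
    (hu : ∀ i, |(u i : ℝ)| ≤ K0 * wd μ s T) (ht : ∀ i, |(t i : ℝ) - sl μ s * (nM + T : ℕ)| ≤ K0 * wd μ s T) {g g2 G' G2 : ℝ} {i : Bool}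
    (gp : Gl26 (u i / wd μ s T) (u (!i) / wd μ s T) K0' K3 qs hM QF kF G dd (2 * th) be2 g2 G2) (hB0 : 0 ≤ hB) (be0 : 0 ≤ be)
    (e1 : be + kB ≤ be2) (n3 : be ≤ hB) (hg2 : g + qs + hB * (2 * th) ≤ g2) (hGG : G' + QB ≤ G2) (hgG : g ≤ G') :
    KH26 (kW μ s η 0 nM) (kW μ s η nM T) (kW μ s η ((nM : ℤ) + T) nB) (lt26 (sl μ s) (wd μ s T) (nM + T + nB))
      {a | |(a : ℝ) - u i| ≤ th * wd μ s T} {y | |(y : ℝ) - cp26 (sl μ s) (u i) nM| ≤ ρ} {y | |(y : ℝ) - t i| ≤ ρ}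
      {y | |(y : ℝ) - cp26 (sl μ s) (u (!i)) nM| ≤ ρ} {y | |(y : ℝ) - t (!i)| ≤ ρ}
      (cp26 (sl μ s) (u i) nM) (t i) (lt26 (sl μ s) (wd μ s T) (nM + T) (t i)) (lt26 (sl μ s) (wd μ s T) (nM + T) (t (!i))) K0' K
      (EE μ s T) qs dd qs hB b (2 * th) be g G' (kW μ s η nM T (cp26 (sl μ s) (u i) nM) (t i)) := by
  have hw1 := N.w1
  have hw : 0 < wd μ s T := by linarith
  have hE := EE_pos (μ := μ) (s := s) T
  have hth : 0 < th := by
    by_contra hcon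
    have := mul_nonpos_of_nonpos_of_nonneg (not_lt.1 hcon) hw.le
    linarith [N.th1]
  have hqs : 0 ≤ qs := by
    have f := fq16_one P 2
    exact (mul_nonneg N.q0 (by linarith)).trans N.qsq
  have hwB : 0 < wd μ s nB := by linarith [NB.wB1]
  have hmu : ∀ j : Bool, |lt26 (sl μ s) (wd μ s T) (nM + T) (t j)| ≤ K0' := by
    intro j
    have h2 : |lt26 (sl μ s) (wd μ s T) (nM + T) (t j)| ≤ K0 := by
      unfold lt26
      rw [abs_div, abs_of_pos hw, div_le_iff₀ hw]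
      exact ht j
    linarith [N.KK]
  have hDc : ∀ (j : Bool) (v : ℤ), |(v : ℝ) - t j| ≤ ρ →
      |lt26 (sl μ s) (wd μ s T) (nM + T) v - lt26 (sl μ s) (wd μ s T) (nM + T) (t j)| ≤ 2 * th := by
    intro j v hv
    have := cellT26 (v := sl μ s) (th := th) hw1 N.ρ1 (nM + T) (t j) v hv
    linarith
  refine kh26 (lh26 h H N hu ht i) gp (fun v x => kW_nonneg η _ nB v x) (fun v hv => hDc i v hv) (fun v hv => hDc (!i) v hv)
    (hmu i) (hmu (!i)) (fun v x => ?_) (fun v hv x => ?_)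
    (fun x hx => HB.b2 i x hx) hqs hB0 be0 e1 n3 hg2 hGG hgG
  · -- Bup
    have h3 := cp26_near (sl μ s) 0 (nM + T)
    have h1 := up_unit26 HB.b0 le_rfl N.q0 hw hwB NB.EB NB.sB v x
      (Y := |lt26 (sl μ s) (wd μ s T) (nM + T) v| * J + 2) (by
      have e : (v : ℝ) - cp26 (sl μ s) 0 (nM + T) = ((v : ℝ) - sl μ s * (nM + T : ℕ)) -
          ((cp26 (sl μ s) 0 (nM + T) : ℝ) - (0 : ℤ) - sl μ s * (nM + T : ℕ)) := by
        push_cast
        ring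
      have h4 : |(v : ℝ) - cp26 (sl μ s) 0 (nM + T)| ≤ |(v : ℝ) - sl μ s * (nM + T : ℕ)| + 1 := by
        rw [e]
        exact (abs_sub _ _).trans (by linarith)
      have h5 : |(v : ℝ) - cp26 (sl μ s) 0 (nM + T)| / wd μ s nB ≤ |lt26 (sl μ s) (wd μ s T) (nM + T) v| * J + 1 := by
        rw [div_le_iff₀ hwB]
        have h6 : |(v : ℝ) - sl μ s * (nM + T : ℕ)| = |lt26 (sl μ s) (wd μ s T) (nM + T) v| * wd μ s T := by
          unfold lt26
          rw [abs_div, abs_of_pos hw]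
          field_simp
        have h7 := mul_le_mul_of_nonneg_left NB.wJ (abs_nonneg (lt26 (sl μ s) (wd μ s T) (nM + T) v))
        rw [h6] at h4
        have h8 := NB.wB1
        nlinarith
      linarith)
    rw [← lt26_sub (sl μ s) (wd μ s T) (nM + T) nB v x] at h1
    refine h1.trans (Real.exp_le_exp.2 (mul_le_mul_of_nonneg_right ?_ hE.le))
    linarith [NB.QBk _ (abs_nonneg (lt26 (sl μ s) (wd μ s T) (nM + T) v))]
  · -- Bnr
    obtain ⟨j, hj⟩ : ∃ j : Bool, |(v : ℝ) - t j| ≤ ρ := by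
      rcases hv with hv | hv
      · exact ⟨i, hv⟩
      · exact ⟨!i, hv⟩
    have h1 := up_unit26 (HB.b1 j) le_rfl N.q0 hw hwB NB.EB NB.sB v x (Y := 2) (by
      have : |(v : ℝ) - t j| / wd μ s nB ≤ 1 := by
        rw [div_le_one hwB]
        exact hj.trans (N.ρ1.trans NB.tB)
      linarith)
    rw [← lt26_sub (sl μ s) (wd μ s T) (nM + T) nB v x] at h1
    refine h1.trans (Real.exp_le_exp.2 (mul_le_mul_of_nonneg_right ?_ hE.le))
    linarith [N.qsq]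

end

end Pool.Agent.W_7d29a1_C1.B26
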