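import Pool.Agent.W_7d29a1_C1.FrbG26

/-!
MP_7d29a1_pr, [C1] THE BUFFER OF THE FRESH BALL, ends of the lanes prescribed: from the facts of `M o F` and of `B` to `BufO26` and the
pointwise bounds (deterministic, kernels of the model). (helper26)
-/

set_option autoImplicit false

namespace Pool.Agent.W_7d29a1_C1.B26

open MeasureTheory ProbabilityTheory Filter Topology Finset
open Pool.Agent.W_7d29a1_F Pool.Agent.W_7d29a1_h4g Pool.Agent.W_7d29a1_H Pool.Agent.W_7d29a1_HS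
open Pool.Agent.W_7d29a1_C1
open Pool.Agent.W_7d29a1_C1.CR76 Pool.Agent.W_7d29a1_C1.Basin76
open Pool.Agent.W_7d29a1_C1.H75 (hc)
open Pool.Agent.W_7d29a1_C1.U16 (fq16 fq16_one fq16_mono lat16)

noncomputable section

variable {μ : Measure ℝ} {s c C : ℝ} {n₀ : ℕ}

/-- The pointwise bound of the whole buffer: own lane, other lane, off the lanes. -/
def PtW26 (Kr : ℤ → ℤ → ℝ) (L3 : ℤ → ℝ) (u : Bool → ℤ) (mu : Bool → ℝ) (R E A ell g G' be hB : ℝ) : Prop :=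
  ∀ (i : Bool) (y : ℤ), |(y : ℝ) - u i| ≤ R → ∀ x : ℤ,
    Kr y x ≤ (Real.exp ((ell - hB * |L3 x - mu i|) * E) + Real.exp ((-g - hB * |L3 x - mu (!i)|) * E) +
      Real.exp ((-G' - be * |L3 x|) * E)) * A

/-- The output of the buffer, all cells and windows. -/
def OutW26 (Kr : ℤ → ℤ → ℝ) (L3 : ℤ → ℝ) (u : Bool → ℤ) (mu : Bool → ℝ) (R E K Kx del A δ ell ellw Kc be g : ℝ) : Prop :=
  ∀ a1 b1 a2 b2 xa xb s0 : ℤ, a1 ≤ b1 → a2 ≤ b2 → (∀ y : ℤ, a1 ≤ y → y ≤ b1 → |(y : ℝ) - u false| ≤ R) →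
    (∀ y : ℤ, a2 ≤ y → y ≤ b2 → |(y : ℝ) - u true| ≤ R) → -K ≤ L3 xa → L3 xa ≤ -Kx → L3 xb ≤ K → Kx ≤ L3 xb → xa ≤ xb →
    mu false + del / 4 ≤ L3 s0 → L3 s0 + del / 4 ≤ mu true →
    BufO26 Kr L3 E (mu false) (mu true) a1 b1 a2 b2 xa xb s0 A δ ell ellw Kc be g

/-- **The output of the buffer, for the kernels of the model.** -/
theorem detK26 [IsProbabilityMeasure μ] (h : In μ s c C n₀) {η : Env} {nM T nB : ℕ} {u t : Bool → ℤ} {P PF : ℕ}
    {J q qF qs ρ ωF th L G dd K b Kc ε K0 K0' K3 QF kF QB kB hM hB be be2 : ℝ}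
    (H : MFct26 μ s c η nM T u t P PF q qF qs ρ ωF th L G dd ε) (HB : Bct26 μ s c η nM T nB t P q qs K b Kc)
    (N : MNum26 μ s c nM T P PF q qF qs ρ ωF th L dd K0 K0' K3 QF kF hM be2) (NB : NB26 μ s c T nB P J q th QB kB hB)
    (hu : ∀ i, |(u i : ℝ)| ≤ K0 * wd μ s T) (ht : ∀ i, |(t i : ℝ) - sl μ s * (nM + T : ℕ)| ≤ K0 * wd μ s T)
    {del g g2 g' G' G2 G1 go Kx ell ell0 δ : ℝ} (hdel : (u false : ℝ) + del * wd μ s T ≤ u true) (hT1 : 1 ≤ T) (hX : K0' * wd μ s T ≤ T)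
    (hnM : nM ≤ T) (hnB : nB ≤ T) (hRE : 3 * (6 * (T : ℝ)) ^ 2 ≤ Real.exp (EE μ s T))
    (hg1 : g2 + (2 * qs + 2 * dd) ≤ hM * (del - 2 * (2 * th)))
    (hg2 : G2 + (2 * qs + QF / 2 + (kF + be2) * K0') ≤ G / 2) (hg3 : G2 + (2 * qs + QF + (kF + be2) * K0') ≤ hM / 2 * (K3 - K0'))
    (hB0 : 0 ≤ hB) (be0 : 0 ≤ be) (e1 : be + kB ≤ be2) (n3 : be ≤ hB) (hgg : g + qs + hB * (2 * th) ≤ g2) (hGG : G' + QB ≤ G2)
    (hgG : g ≤ G') (hbg : b + 2 ≤ g)
    (hl : 3 * qs + 2 * dd + qs + hB * (2 * th) + 1 ≤ ell) (hl0 : b + qs + dd ≤ ell0)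
    (hg' : g' + qs + dd + 1 ≤ g) (hG' : G1 + qs + dd + 1 ≤ G') (hgo : go + 1 + be * K0' ≤ g') (hGo : go + 1 ≤ G1) (hgo0 : 0 ≤ go)
    (hex : ell + hB * K0' + go + 1 ≤ (hB - be) * Kx) (hsp : ell + be * K0' + go + 1 ≤ (hB - be) * (del / 4)) (hε : 0 ≤ ε)
    (hδ : (1 + Real.exp (-EE μ s T)) ^ 2 * (1 + ε) ≤ 1 + δ) (hKx : 0 ≤ Kx) :
    OutW26 (kW μ s η 0 (nM + (T + nB))) (lt26 (sl μ s) (wd μ s T) (nM + T + nB)) u (fun i => lt26 (sl μ s) (wd μ s T) (nM + T) (t i))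
      (th * wd μ s T) (EE μ s T) K Kx del (kW μ s η nM T (cp26 (sl μ s) (u false) nM) (t false)) δ (ell + 1) ell0 Kc be go ∧
    PtW26 (kW μ s η 0 (nM + (T + nB))) (lt26 (sl μ s) (wd μ s T) (nM + T + nB)) u (fun i => lt26 (sl μ s) (wd μ s T) (nM + T) (t i))
      (th * wd μ s T) (EE μ s T) (kW μ s η nM T (cp26 (sl μ s) (u false) nM) (t false)) ell g' G1 be hB := by
  have hw : 0 < wd μ s T := by linarith [N.w1]
  have hE := EE_pos (μ := μ) (s := s) T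
  have hTr : (1 : ℝ) ≤ T := by exact_mod_cast hT1
  obtain ⟨S, hS⟩ : ∃ S : Finset ℤ, S = Icc (-(T : ℤ)) (T + (nM + T : ℕ)) := ⟨_, rfl⟩
  obtain ⟨S3, hS3⟩ : ∃ S : Finset ℤ, S = Icc (-(T : ℤ)) (T + (nM + (T + nB) : ℕ)) := ⟨_, rfl⟩
  have cS : (S.card : ℝ) ≤ 6 * T := by
    rw [hS, Int.card_Icc]
    have e : ((T : ℤ) + (nM + T : ℕ) + 1 - -(T : ℤ)).toNat = 2 * T + (nM + T) + 1 := by
      push_cast
      omega
    rw [e]
    have : 2 * T + (nM + T) + 1 ≤ 6 * T := by omega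
    exact_mod_cast this
  have cS3 : (S3.card : ℝ) ≤ 6 * T := by
    rw [hS3, Int.card_Icc]
    have e : ((T : ℤ) + (nM + (T + nB) : ℕ) + 1 - -(T : ℤ)).toNat = 2 * T + (nM + (T + nB)) + 1 := by
      push_cast
      omega
    rw [e]
    have : 2 * T + (nM + (T + nB)) + 1 ≤ 6 * T := by omega
    exact_mod_cast this
  have hR1 : (S.card * S.card : ℝ) ≤ (6 * (T : ℝ)) ^ 2 := by
    rw [pow_two]
    exact mul_le_mul cS cS (Nat.cast_nonneg _) (by positivity)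
  have hR3 : (S3.card : ℝ) ≤ (6 * (T : ℝ)) ^ 2 := by nlinarith
  -- the cells are in `[-T, T]`
  have hcell : ∀ (j : Bool) (y : ℤ), |(y : ℝ) - u j| ≤ th * wd μ s T → -(T : ℤ) ≤ y ∧ y ≤ T := by
    intro j y hy
    have h1 := hu j
    have h2 := mul_le_mul_of_nonneg_right N.KK hw.le
    have hth : 0 ≤ th * wd μ s T := by linarith [N.th1]
    rw [abs_le] at hy h1
    have h3 : -(T : ℝ) ≤ y := by nlinarith
    have h4 : (y : ℝ) ≤ T := by nlinarith
    exact ⟨by exact_mod_cast h3, by exact_mod_cast h4⟩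
  have comp : ∀ (j : Bool) (y : ℤ), |(y : ℝ) - u j| ≤ th * wd μ s T → ∀ x : ℤ,
      kW μ s η 0 (nM + (T + nB)) y x = K3k (kW μ s η 0 nM) (kW μ s η nM T) (kW μ s η ((nM : ℤ) + T) nB) S S y x := by
    intro j y hy x
    obtain ⟨h1, h2⟩ := hcell j y hy
    have h3 := kW_three (μ := μ) (s := s) η 0 nM T nB y x S (by
      rw [hS]
      exact Icc_subset_Icc h1 (by linarith))
    rw [zero_add] at h3
    exact h3
  have supp : ∀ (j : Bool) (y : ℤ), |(y : ℝ) - u j| ≤ th * wd μ s T → ∀ x : ℤ, x ∉ S3 →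
      K3k (kW μ s η 0 nM) (kW μ s η nM T) (kW μ s η ((nM : ℤ) + T) nB) S S y x = 0 := by
    intro j y hy x hx
    obtain ⟨h1, h2⟩ := hcell j y hy
    rw [← comp j y hy x]
    refine kW_zero (μ := μ) (s := s) η 0 fun hcon => hx ?_
    rw [hS3, mem_Icc]
    exact ⟨by linarith [hcon.1], by linarith [hcon.2]⟩
  -- the points of the lanes are in `S`
  have hpt : ∀ (j : Bool), cp26 (sl μ s) (u j) nM ∈ S ∧ t j ∈ S := by
    intro j
    have h1 := hcell j (u j) (by rw [sub_self, abs_zero]; linarith [N.th1])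
    have s0 := h.sl_pos
    have s1 := h.sl_lt
    have fl : 0 ≤ ⌊sl μ s * nM⌋ ∧ ⌊sl μ s * nM⌋ ≤ nM := by
      refine ⟨Int.floor_nonneg.2 (by positivity), ?_⟩
      have h2 : ⌊sl μ s * nM⌋ ≤ ⌊((nM : ℤ) : ℝ)⌋ := by
        refine Int.floor_le_floor ?_
        have ht : (0 : ℝ) ≤ nM := Nat.cast_nonneg nM
        push_cast
        nlinarith
      rwa [Int.floor_intCast] at h2
    obtain ⟨f1, f2⟩ := fl
    have hK : K0 * wd μ s T ≤ T := by
      have g1 := mul_le_mul_of_nonneg_right N.KK hw.le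
      have g2 : 0 ≤ th * wd μ s T := by linarith [N.th1]
      nlinarith
    have h5 := ht j
    rw [abs_le] at h5
    have h6 : (0 : ℝ) ≤ ((nM + T : ℕ) : ℝ) := Nat.cast_nonneg _
    have h7 : -(T : ℝ) ≤ t j := by
      have := mul_nonneg s0.le h6
      linarith
    have h8 : (t j : ℝ) ≤ T + ((nM + T : ℕ) : ℝ) := by
      have : sl μ s * ((nM + T : ℕ) : ℝ) ≤ 1 * ((nM + T : ℕ) : ℝ) := mul_le_mul_of_nonneg_right s1.le h6
      linarith
    refine ⟨?_, ?_⟩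
    · unfold cp26
      rw [hS, mem_Icc]
      push_cast at f1 f2 ⊢
      exact ⟨by linarith, by linarith⟩
    · rw [hS, mem_Icc]
      refine ⟨by exact_mod_cast h7, ?_⟩
      have : (t j : ℝ) ≤ (((T : ℤ) + (nM + T : ℕ) : ℤ) : ℝ) := by
        push_cast at h8 ⊢
        linarith
      exact_mod_cast this
  have hlam : del ≤ (u true : ℝ) / wd μ s T - u false / wd μ s T := by
    rw [← sub_div, le_div_iff₀ hw]
    linarith
  have gp : ∀ l l' : ℝ, del ≤ |l' - l| → Gl26 l l' K0' K3 qs hM QF kF G dd (2 * th) be2 g2 G2 := by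
    intro l l' hl
    exact ⟨hg1.trans (mul_le_mul_of_nonneg_left (by linarith) N.hM0), hg2, hg3⟩
  have gp1 := gp (u false / wd μ s T) (u (!false) / wd μ s T) (hlam.trans (le_abs_self _))
  have gp2 := gp (u true / wd μ s T) (u (!true) / wd μ s T) (by
    rw [abs_sub_comm]
    exact hlam.trans (le_abs_self _))
  have D1 := khm26 (i := false) h H HB N NB hu ht gp1 hB0 be0 e1 n3 hgg hGG hgG
  have D2 := khm26 (i := true) h H HB N NB hu ht gp2 hB0 be0 e1 n3 hgg hGG hgG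
  simp only [Bool.not_false, Bool.not_true] at D1 D2
  have hWb : kW μ s η nM T (cp26 (sl μ s) (u false) nM) (t false) ≤
      Real.exp (dd * EE μ s T) * kW μ s η nM T (cp26 (sl μ s) (u true) nM) (t true) := (lh26 h H N hu ht true).WW
  have hWa : kW μ s η nM T (cp26 (sl μ s) (u true) nM) (t true) ≤
      Real.exp (dd * EE μ s T) * kW μ s η nM T (cp26 (sl μ s) (u false) nM) (t false) := (lh26 h H N hu ht false).WW
  have hE2 : (3 : ℝ) ≤ Real.exp (EE μ s T) := by nlinarith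
  have hRE1 : (6 * (T : ℝ)) ^ 2 ≤ Real.exp (EE μ s T) := by
    have : 0 ≤ (6 * (T : ℝ)) ^ 2 := by positivity
    linarith
  have hrho : 0 ≤ hB * (2 * th) := mul_nonneg hB0 D1.q0.2.2.2.2.1
  have hl2 : qs + qs + dd ≤ ell + 1 := by linarith [N.dd0, D1.q0.1]
  have hht : (S.card * S.card : ℝ) * Real.exp ((b - g) * EE μ s T) ≤ Real.exp (-EE μ s T) := by
    calc (S.card * S.card : ℝ) * Real.exp ((b - g) * EE μ s T) ≤ Real.exp (EE μ s T) * Real.exp ((b - g) * EE μ s T) :=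
          mul_le_mul_of_nonneg_right (hR1.trans hRE1) (Real.exp_pos _).le
      _ = Real.exp ((1 + b - g) * EE μ s T) := by
          rw [← Real.exp_add]
          congr 1
          ring
      _ ≤ _ := by
          refine Real.exp_le_exp.2 ?_
          have := mul_le_mul_of_nonneg_right hbg hE.le
          linarith
  refine ⟨fun a1 b1 a2 b2 xa xb s0 ha1 ha2 hc1 hc2 hxa1 hxa2 hxb1 hxb2 hxx hs1 hs2 => ?_, fun i y hy x => ?_⟩
  · have w1 : ∀ x : ℤ, xa ≤ x → x ≤ xb → |lt26 (sl μ s) (wd μ s T) (nM + T + nB) x| ≤ K := fun x g1 g2 => by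
      rw [abs_le]
      exact ⟨hxa1.trans (lt26_mono hw _ g1), (lt26_mono hw _ g2).trans hxb1⟩
    have w2 : ∀ x : ℤ, x < xa → Kx ≤ |lt26 (sl μ s) (wd μ s T) (nM + T + nB) x| := fun x g1 => by
      have := (lt26_mono (v := sl μ s) hw (nM + T + nB) g1.le).trans hxa2
      rw [abs_of_nonpos (by linarith)]
      linarith
    have w3 : ∀ x : ℤ, xb < x → Kx ≤ |lt26 (sl μ s) (wd μ s T) (nM + T + nB) x| := fun x g1 =>
      (hxb2.trans (lt26_mono (v := sl μ s) hw (nM + T + nB) g1.le)).trans (le_abs_self _)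
    have w4 : ∀ x : ℤ, s0 < x →
        del / 4 ≤ |lt26 (sl μ s) (wd μ s T) (nM + T + nB) x - lt26 (sl μ s) (wd μ s T) (nM + T) (t false)| := fun x g1 => by
      have := hs1.trans (lt26_mono (v := sl μ s) hw (nM + T + nB) g1.le)
      refine le_trans ?_ (le_abs_self _)
      linarith
    have w5 : ∀ x : ℤ, x ≤ s0 →
        del / 4 ≤ |lt26 (sl μ s) (wd μ s T) (nM + T + nB) x - lt26 (sl μ s) (wd μ s T) (nM + T) (t true)| := fun x g1 => by
      have := lt26_mono (v := sl μ s) hw (nM + T + nB) g1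
      rw [abs_sub_comm]
      refine le_trans ?_ (le_abs_self _)
      linarith
    have out := outK26 (S1 := S) (S2 := S) (S3 := S3) (a1 := a1) (b1 := b1) (a2 := a2) (b2 := b2) (xa := xa) (xb := xb) (s0 := s0)
      (b' := qs) (Kx := Kx) (sg := del / 4) (R := (6 * (T : ℝ)) ^ 2) (g' := g') (G1 := G1) (go := go) (ell := ell) (ell0 := ell0) (Kc := Kc)
      (δ := δ) D1 D2 hWa hWb (hpt false).1 (hpt false).2 (hpt true).1 (hpt true).2 hR1 hR3 hRE hE2 hl hl2 hl0 hg' hG' hgo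
      hGo hgo0 hex hsp (fun y g1 g2 => hc1 y g1 g2) (fun y g1 g2 => hc2 y g1 g2) ha1 ha2 hxx w1 w2 w3 w4 w5
      (fun y hy x hx => supp false y hy x hx) (fun y hy x hx => supp true y hy x hx) (fun x hx => HB.b3 false x hx)
      (fun x hx => HB.b3 true x hx) hε (Real.exp_pos (-EE μ s T)).le
      (fun a ha a' ha' y hy y' hy' => H.m3 false a a' y y' ha ha' hy hy') (fun a ha a' ha' y hy y' hy' => H.m3 true a a' y y' ha ha' hy hy')
      hht hδ
    exact out.congr ha1 ha2 fun y hy x => by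
      rcases hy with hy | hy
      · exact comp false y (hc1 y hy.1 hy.2) x
      · exact comp true y (hc2 y hy.1 hy.2) x
  · have hWc : kW μ s η nM T (cp26 (sl μ s) (u false) nM) (t false) ≤
        Real.exp (dd * EE μ s T) * kW μ s η nM T (cp26 (sl μ s) (u false) nM) (t false) := by
      have h1 : (1 : ℝ) ≤ Real.exp (dd * EE μ s T) := Real.one_le_exp (mul_nonneg N.dd0 hE.le)
      have h2 := D1.W0
      nlinarith
    rw [comp i y hy x]
    cases i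
    · exact kh_pt (S1 := S) (S2 := S) D1 hR1 hRE hWc hl hg' hG' hy x
    · exact kh_pt (S1 := S) (S2 := S) D2 hR1 hRE hWa hl hg' hG' hy x

end

end Pool.Agent.W_7d29a1_C1.B26
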