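import Pool.Agent.W_7d29a1_C1.FrbG26
import Pool.Agent.W_7d29a1_C1.BufI26

/-!
MP_7d29a1_pr, [C1] THE TWO LANES `M o F` AND THE TYPICAL ROWS `B` OF THE FRESH BALL, events. (helper26)

`evtM26`: the event of the rows `0 .. nM + T` (probability `>= (1/2) c₁`); `evtB26`: the event of the rows `nM + T .. nM + T + nB`
(failure at most `4 t`).
-/

set_option autoImplicit false

namespace Pool.Agent.W_7d29a1_C1.B26

open MeasureTheory ProbabilityTheory Filter Topology Finset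
open Pool.Agent.W_7d29a1_F Pool.Agent.W_7d29a1_h4g Pool.Agent.W_7d29a1_H Pool.Agent.W_7d29a1_HS
open Pool.Agent.W_7d29a1_C1
open Pool.Agent.W_7d29a1_C1.CR76 Pool.Agent.W_7d29a1_C1.Basin76
open Pool.Agent.W_7d29a1_C1.R26 (RK26 RK26_dep measurableSet_RK26)
open Pool.Agent.W_7d29a1_C1.H75 (hc)
open Pool.Agent.W_7d29a1_C1.U16 (fq16 fq16_one fq16_mono lat16 Far16 far_low far_prob Far16_meas Far16_rows)

noncomputable section

variable {μ : Measure ℝ} {s c C : ℝ} {n₀ : ℕ}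

/-- The lower bound of a typical block, as a hypothesis on the scale `m`. -/
def LowT26 (μ : Measure ℝ) (s c K : ℝ) (m : ℕ) : Prop := ∀ (N P : ℕ) (b : Pt) (q : ℝ) (η : Env), 0 ≤ q → η ∈ Far16 μ s c 1 K m N P b q →
  ∀ (p : Pt) (j : ℕ) (y : ℤ), b.1 ≤ p.1 → p.1 + j ≤ b.1 + N → 1 * m ≤ (j : ℝ) → |(y : ℝ) - sl μ s * j| ≤ (K - 2) * wd μ s m →
  Real.exp (-(q * fq16 P (|lat16 μ s b p| / wd μ s m + 1) * EE μ s m)) ≤ W μ s η p j y

/-- The two lanes, as a hypothesis on the scale `T`. -/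
def Lan26 (μ : Measure ℝ) (s c : ℝ) (T PT : ℕ) (K0 del K3 r L G dd qF c₁ : ℝ) : Prop :=
  ∀ a e : Bool → ℤ, (∀ j, |(a j : ℝ)| ≤ (K0 + 1) * wd μ s T) → (∀ j, |(e j : ℝ) - sl μ s * T| ≤ (K0 + 1) * wd μ s T) →
    (a false : ℝ) + del * wd μ s T ≤ a true → (e false : ℝ) + del * wd μ s T ≤ e true → ∃ S : Set Env, MeasurableSet S ∧
    OnR26 (rows 0 (0 + (T : ℤ))) S ∧ c₁ ≤ (law μ).real S ∧ ∀ (b : Pt) (η : Env), η ∈ atR26 b S →
      TslC26 μ s c η b T PT a e ((K3 + 1) * wd μ s T) r (L * EE μ s T) (G * EE μ s T) (dd * EE μ s T) qF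

/-- **The event of `M o F`.** -/
theorem evtM26 [IsProbabilityMeasure μ] {nM T P PT : ℕ} {u t : Bool → ℤ} {q qs qF r K0 K3 th L G dd c₁ del ε : ℝ}
    (hlM : LowT26 μ s c 3 nM)
    (hFM : ∀ z : ℤ, EvB26 μ 0 (0 + nM) (Far16 μ s c 1 3 nM nM P (0, z) q) (1 / 16))
    (hRK : ∀ i : Bool, u i + ⌊th * wd μ s T⌋ ≤ cp26 (sl μ s) (u i) nM - ⌊th * wd μ s T⌋ ∧
      cp26 (sl μ s) (u i) nM + ⌊th * wd μ s T⌋ ≤ u i - ⌊th * wd μ s T⌋ + nM ∧
      EvB26 μ 0 (0 + nM) (RK26 μ s 0 nM (u i - ⌊th * wd μ s T⌋) (u i + ⌊th * wd μ s T⌋) (cp26 (sl μ s) (u i) nM - ⌊th * wd μ s T⌋)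
        (cp26 (sl μ s) (u i) nM + ⌊th * wd μ s T⌋) ε) (1 / 16))
    (hlan : Lan26 μ s c T PT K0 del K3 r L G dd qF c₁)
    (hc₁ : 0 < c₁) (hq0 : 0 ≤ q) (hqs : q * fq16 P 2 ≤ qs) (hwM2 : 2 ≤ wd μ s nM)
    (hwT2 : 2 ≤ wd μ s T) (tM2 : th * wd μ s T ≤ wd μ s nM / 2) (s1E : EE μ s nM ≤ EE μ s T)
    (hr2 : r ≤ th * wd μ s T) (hε : 0 ≤ ε) (hu : ∀ i, |(u i : ℝ)| ≤ K0 * wd μ s T)
    (ht : ∀ i, |(t i : ℝ) - sl μ s * (nM + T : ℕ)| ≤ K0 * wd μ s T) (hsep : (u false : ℝ) + del * wd μ s T ≤ u true)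
    (hset : (t false : ℝ) + del * wd μ s T ≤ t true) :
    ∃ S : Set Env, MeasurableSet S ∧ OnR26 (rows 0 ((nM : ℤ) + T)) S ∧ 1 / 2 * c₁ ≤ (law μ).real S ∧
      ∀ η ∈ S, MFct26 μ s c η nM T u t P PT q qF qs r ((K3 + 1) * wd μ s T) th L G dd ε := by
  have hwT0 : 0 < wd μ s T := by linarith
  obtain ⟨EM, hEM⟩ : ∃ E : Set Env, E = Far16 μ s c 1 3 nM nM P (0, 0) q ∩ (Far16 μ s c 1 3 nM nM P (0, u false) q ∩
      (Far16 μ s c 1 3 nM nM P (0, u true) q ∩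
      (RK26 μ s 0 nM (u false - ⌊th * wd μ s T⌋) (u false + ⌊th * wd μ s T⌋) (cp26 (sl μ s) (u false) nM - ⌊th * wd μ s T⌋)
        (cp26 (sl μ s) (u false) nM + ⌊th * wd μ s T⌋) ε ∩
      RK26 μ s 0 nM (u true - ⌊th * wd μ s T⌋) (u true + ⌊th * wd μ s T⌋) (cp26 (sl μ s) (u true) nM - ⌊th * wd μ s T⌋)
        (cp26 (sl μ s) (u true) nM + ⌊th * wd μ s T⌋) ε))) := ⟨_, rfl⟩
  have vM : EvB26 μ 0 (0 + nM) EM (1 / 16 + (1 / 16 + (1 / 16 + (1 / 16 + 1 / 16)))) := by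
    rw [hEM]
    exact (hFM 0).inter ((hFM (u false)).inter ((hFM (u true)).inter
      ((hRK false).2.2.inter (hRK true).2.2)))
  obtain ⟨e, he⟩ : ∃ e : Bool → ℤ, e = fun i => t i - cp26 (sl μ s) 0 nM := ⟨_, rfl⟩
  have hcp := cp26_near (sl μ s) 0 nM
  obtain ⟨SF, mF, oF, pF, hSF⟩ := hlan u e (fun i => (hu i).trans (mul_le_mul_of_nonneg_right (by linarith) hwT0.le)) (fun i => by
      rw [he]
      have e1 : ((t i - cp26 (sl μ s) 0 nM : ℤ) : ℝ) - sl μ s * T =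
        ((t i : ℝ) - sl μ s * (nM + T : ℕ)) - ((cp26 (sl μ s) 0 nM : ℝ) - (0 : ℤ) - sl μ s * nM) := by
        push_cast
        ring
      show |((t i - cp26 (sl μ s) 0 nM : ℤ) : ℝ) - sl μ s * T| ≤ (K0 + 1) * wd μ s T
      rw [e1]
      refine (abs_sub _ _).trans ?_
      linarith [ht i]) hsep (by
      rw [he]
      push_cast
      linarith)
  obtain ⟨bF, hbF⟩ : ∃ b : Pt, b = ((nM : ℤ), cp26 (sl μ s) 0 nM) := ⟨_, rfl⟩
  have mF' := meas_atR26 bF mF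
  have oF' := on_atR26 bF oF
  have pF' : c₁ ≤ (law μ).real (atR26 bF SF) := by rw [real_atR26 (μ := μ) bF mF]; exact pF
  have hbF1 : bF.1 = nM := by rw [hbF]
  rw [hbF1] at oF'
  have pM := vM.real
  have vM2 := vM.2.1
  rw [zero_add] at vM2
  obtain ⟨w2o, w2m, w2p⟩ := indep26 (μ := μ) (by omega) (by omega) vM2 oF' vM.1 mF' (show (0 : ℝ) ≤ 1 / 2 by norm_num) hc₁.le
    (by linarith) pF'
  refine ⟨EM ∩ atR26 bF SF, w2m, w2o, w2p, fun η hη => ?_⟩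
  obtain ⟨ηM, ηF⟩ := hη
  rw [hEM] at ηM
  obtain ⟨a1, a2, a3, a4, a5⟩ := ηM
  have cF := hSF bF η ηF
  rw [hbF] at cF
  have aa : ∀ i : Bool, η ∈ Far16 μ s c 1 3 nM nM P (0, u i) q := fun i => by
    cases i
    · exact a2
    · exact a3
  have rr : ∀ i : Bool, η ∈ RK26 μ s 0 nM (u i - ⌊th * wd μ s T⌋) (u i + ⌊th * wd μ s T⌋) (cp26 (sl μ s) (u i) nM - ⌊th * wd μ s T⌋)
      (cp26 (sl μ s) (u i) nM + ⌊th * wd μ s T⌋) ε := fun i => by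
    cases i
    · exact a4
    · exact a5
  have fM := fun i : Bool => fM26 (T := T) (qs := qs) (th := th) (ρ := r) hlM hq0 hqs hwM2 tM2 s1E hr2 hε i
    (aa i) (hRK i).1 (hRK i).2.1 (rr i)
  have ec : ∀ i : Bool, cp26 (sl μ s) 0 nM + u i = cp26 (sl μ s) (u i) nM := fun i => cp26_add _ _ _
  have ed : ∀ i : Bool, cp26 (sl μ s) 0 nM + e i = t i := fun i => by
    rw [he]
    ring
  have subF : ∀ {m : ℕ} {a z : ℤ}, 1 ≤ wd μ s m → η ∈ Far16 μ s c 1 3 m m P (a, z) q → η ∈ UE26 μ s c m m P (a, z) q := fun hm hη =>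
    far_sub26 (θ := 1) (K := 3) hq0 hm le_rfl hη
  refine ⟨subF (by linarith) a1, fun i => subF (by linarith) (aa i), fun i => (fM i).1, fun i => (fM i).2, fun i => ?_,
      fun x y hx hxy => ?_, fun i x y hx hy => ?_, ?_, cF.lev⟩
  · have g := cF.low i
    simp only [ec, ed] at g
    exact g
  · have g := cF.off x y hx fun j hj => hxy j (by
      simp only [ec, ed] at hj
      exact hj)
    exact g
  · have g := cF.cel i x y (by simp only [ec]; exact hx) (by simp only [ed]; exact hy)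
    simp only [ec, ed] at g
    exact g
  · have g := cF.dif
    simp only [ec, ed] at g
    exact g

/-- The facts of the last block at an end `t` of a lane. -/
theorem fT26 [IsProbabilityMeasure μ] {m m1 T P Pw : ℕ} {q qs qw b Kb K Kc K0 J : ℝ} {t : ℤ} {η : Env}
    (hl : LowT26 μ s c 3 m) (hlw : LowT26 μ s c Kb m)
    (hq : 0 ≤ q) (hqw : 0 ≤ qw) (hqs : q * fq16 P 2 ≤ qs) (hw1 : 1 ≤ wd μ s T) (hw2 : 2 ≤ wd μ s m) (hwJ : wd μ s T ≤ J * wd μ s m)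
    (hK : 0 ≤ K) (hK0 : 0 ≤ K0)
    (hE : EE μ s m ≤ EE μ s T) (hKc : Kc * J ≤ 1) (hKc0 : 0 ≤ Kc) (hKb : (K + K0) * J + 2 ≤ Kb)
    (hb : qw * fq16 Pw (K0 * J + 2) ≤ b)
    (ht : |(t : ℝ) - sl μ s * (m1 + T : ℕ)| ≤ K0 * wd μ s T) (h1 : η ∈ Far16 μ s c 1 3 m m P (((m1 + T : ℕ) : ℤ), t) q)
    (h2 : η ∈ Far16 μ s c 1 Kb m m Pw (((m1 + T : ℕ) : ℤ), cp26 (sl μ s) 0 (m1 + T)) qw) :
    (∀ x : ℤ, |lt26 (sl μ s) (wd μ s T) (m1 + T + m) x| ≤ K →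
      Real.exp (-(b * EE μ s T)) ≤ kW μ s η ((m1 + T : ℕ) : ℤ) m t x) ∧
    ∀ x : ℤ, |lt26 (sl μ s) (wd μ s T) (m1 + T + m) x - lt26 (sl μ s) (wd μ s T) (m1 + T) t| ≤ Kc →
      Real.exp (-(qs * EE μ s T)) ≤ kW μ s η ((m1 + T : ℕ) : ℤ) m t x := by
  have hwm : 0 < wd μ s m := by linarith
  have hw : 0 < wd μ s T := by linarith
  have hET := EE_pos (μ := μ) (s := s) T
  have h4 := cp26_near (sl μ s) 0 (m1 + T)
  constructor
  · intro x hx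
    have hx' : |(x : ℝ) - sl μ s * (m1 + T + m : ℕ)| ≤ K * wd μ s T := by
      unfold lt26 at hx
      rw [abs_div, abs_of_pos hw, div_le_iff₀ hw] at hx
      exact hx
    have h3 := low_unit26 hlw h2 hqw hwm hE t x (Y := K0 * J + 2) (by
      have e : (x : ℝ) - t - sl μ s * m = ((x : ℝ) - sl μ s * (m1 + T + m : ℕ)) - ((t : ℝ) - sl μ s * (m1 + T : ℕ)) := by
        push_cast
        ring
      rw [e]
      refine (abs_sub _ _).trans ?_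
      have h6 := mul_le_mul_of_nonneg_left hwJ (show 0 ≤ K + K0 by linarith)
      have h7 := mul_le_mul_of_nonneg_right hKb hwm.le
      nlinarith) (by
      have e : (t : ℝ) - cp26 (sl μ s) 0 (m1 + T) =
          ((t : ℝ) - sl μ s * (m1 + T : ℕ)) - ((cp26 (sl μ s) 0 (m1 + T) : ℝ) - (0 : ℤ) - sl μ s * (m1 + T : ℕ)) := by
        push_cast
        ring
      have h5 : |(t : ℝ) - cp26 (sl μ s) 0 (m1 + T)| ≤ K0 * wd μ s T + 1 := by
        rw [e]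
        refine (abs_sub _ _).trans ?_
        linarith
      have h6 : |(t : ℝ) - cp26 (sl μ s) 0 (m1 + T)| / wd μ s m ≤ K0 * J + 1 := by
        rw [div_le_iff₀ hwm]
        have := mul_le_mul_of_nonneg_left hwJ hK0
        nlinarith
      linarith)
    refine le_trans (Real.exp_le_exp.2 ?_) h3
    have := mul_le_mul_of_nonneg_right hb hET.le
    linarith
  · intro x hx
    have hx' : |(x : ℝ) - t - sl μ s * m| ≤ Kc * wd μ s T := by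
      unfold lt26 at hx
      rw [← sub_div, abs_div, abs_of_pos hw, div_le_iff₀ hw] at hx
      refine le_trans (le_of_eq ?_) hx
      congr 1
      push_cast
      ring
    have h3 := low_unit26 hl h1 hq hwm hE t x (Y := 2) (by
      refine hx'.trans ?_
      have h6 := mul_le_mul_of_nonneg_left hwJ hKc0
      have h7 := mul_le_mul_of_nonneg_right hKc hwm.le
      nlinarith) (by
      rw [sub_self, abs_zero, zero_div]
      norm_num)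
    refine le_trans (Real.exp_le_exp.2 ?_) h3
    have := mul_le_mul_of_nonneg_right hqs hET.le
    linarith

/-- **The event of `B`.** -/
theorem evtB26 [IsProbabilityMeasure μ] {nM T nB P Pw : ℕ} {t : Bool → ℤ} {q qs qw K0 K b Kb Kc J tt : ℝ}
    (hlB : LowT26 μ s c 3 nB) (hlBw : LowT26 μ s c Kb nB)
    (hFB : ∀ z : ℤ, EvB26 μ ((nM : ℤ) + T) ((nM : ℤ) + T + nB) (Far16 μ s c 1 3 nB nB P ((nM : ℤ) + T, z) q) tt)
    (hFw : ∀ z : ℤ, EvB26 μ ((nM : ℤ) + T) ((nM : ℤ) + T + nB) (Far16 μ s c 1 Kb nB nB Pw ((nM : ℤ) + T, z) qw) tt)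
    (hq0 : 0 ≤ q) (hqw0 : 0 ≤ qw) (hqs : q * fq16 P 2 ≤ qs) (hwB2 : 2 ≤ wd μ s nB)
    (hwT2 : 2 ≤ wd μ s T) (s2E : EE μ s nB ≤ EE μ s T) (s2w : wd μ s T ≤ J * wd μ s nB) (hKn : 0 ≤ K) (hK0 : 0 ≤ K0)
    (hKc : Kc * J ≤ 1) (hKc0 : 0 ≤ Kc)
    (hKb : (K + K0) * J + 2 ≤ Kb) (hb : qw * fq16 Pw (K0 * J + 2) ≤ b)
    (ht : ∀ i, |(t i : ℝ) - sl μ s * (nM + T : ℕ)| ≤ K0 * wd μ s T) :
    ∃ S : Set Env, MeasurableSet S ∧ OnR26 (rows ((nM : ℤ) + T) ((nM : ℤ) + T + nB)) S ∧ (law μ).real Sᶜ ≤ tt + (tt + (tt + tt)) ∧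
      ∀ η ∈ S, Bct26 μ s c η nM T nB t P q qs K b Kc := by
  have hwT0 : 0 < wd μ s T := by linarith
  obtain ⟨EB, hEB⟩ : ∃ E : Set Env, E = Far16 μ s c 1 3 nB nB P ((nM : ℤ) + T, cp26 (sl μ s) 0 (nM + T)) q ∩
      (Far16 μ s c 1 3 nB nB P ((nM : ℤ) + T, t false) q ∩
      (Far16 μ s c 1 3 nB nB P ((nM : ℤ) + T, t true) q ∩
      Far16 μ s c 1 Kb nB nB Pw ((nM : ℤ) + T, cp26 (sl μ s) 0 (nM + T)) qw)) := ⟨_, rfl⟩
  have vB : EvB26 μ ((nM : ℤ) + T) ((nM : ℤ) + T + nB) EB (tt + (tt + (tt + tt))) := by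
    rw [hEB]
    exact (hFB _).inter ((hFB _).inter ((hFB _).inter (hFw _)))
  refine ⟨EB, vB.1, vB.2.1, vB.2.2, fun η hη => ?_⟩
  rw [hEB] at hη
  obtain ⟨b1, b2, b3, b4⟩ := hη
  have bb : ∀ i : Bool, η ∈ Far16 μ s c 1 3 nB nB P ((nM : ℤ) + T, t i) q := fun i => by
    cases i
    · exact b2
    · exact b3
  have e1 : (((nM + T : ℕ)) : ℤ) = (nM : ℤ) + T := by push_cast; ring
  have fB := fun i : Bool => fT26 (m := nB) (m1 := nM) (T := T) (K := K) (Kc := Kc) (K0 := K0) (J := J) (b := b)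
    (qs := qs) (qw := qw) hlB hlBw hq0 hqw0 hqs (by linarith) hwB2 s2w hKn hK0 s2E hKc hKc0 hKb hb (ht i) (by
      rw [e1]
      exact bb i) (by
      rw [e1]
      exact b4)
  have subF : ∀ {m : ℕ} {a z : ℤ}, 1 ≤ wd μ s m → η ∈ Far16 μ s c 1 3 m m P (a, z) q → η ∈ UE26 μ s c m m P (a, z) q := fun hm hη =>
    far_sub26 (θ := 1) (K := 3) hq0 hm le_rfl hη
  refine ⟨subF (by linarith) b1, fun i => subF (by linarith) (bb i), fun i x hx => ?_, fun i x hx => ?_⟩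
  · have g := (fB i).1 x hx
    rw [e1] at g
    exact g
  · have g := (fB i).2 x hx
    rw [e1] at g
    exact g

end

end Pool.Agent.W_7d29a1_C1.B26
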