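import Pool.Agent.W_7d29a1_C1.FrbD26

/-!
MP_7d29a1_pr, [C1] THE BUFFER BEHIND THE TWO LANES, ends of the lanes prescribed, `B` separate from `M o F`, deterministic. (helper26)

`KH26`: the products `M a u * F u v * B v x` in the own lane and off it; `kh26`: from `LH26` and the facts of `B`; `outK26`: `BufO26`
and the pointwise bounds.
-/

set_option autoImplicit false

namespace Pool.Agent.W_7d29a1_C1.B26

open Finset
open Pool.Agent.W_7d29a1_C1.CR76 (CR)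

noncomputable section

/-- The products of the three kernels, one lane; `mu`, `mu'` the lateral coordinates of the ends of the two lanes. -/
structure KH26 (M F B : ℤ → ℤ → ℝ) (L3 : ℤ → ℝ) (A C D C' D' : Set ℤ) (c d : ℤ) (mu mu' K0 K E qM dd qB hB b rho be g G' W : ℝ) :
    Prop where
  E0 : 0 < E
  nM : ∀ a u, 0 ≤ M a u
  nF : ∀ u v, 0 ≤ F u v
  nB : ∀ v x, 0 ≤ B v x
  cC : c ∈ C
  dD : d ∈ D
  W0 : 0 < W
  WF : W ≤ F c d
  N1 : ∀ a ∈ A, M a c ≤ Real.exp (qM * E)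
  N2 : ∀ a ∈ A, Real.exp (-(qM * E)) ≤ M a c
  RA : ∀ a ∈ A, ∀ u ∈ C, ∀ v ∈ D, ∀ x, M a u * F u v * B v x ≤
    Real.exp ((2 * qM + dd + qB + hB * rho - hB * |L3 x - mu|) * E) * Nn M c W a
  RX : ∀ a ∈ A, ∀ u ∈ C', ∀ v ∈ D', ∀ x, M a u * F u v * B v x ≤ Real.exp ((-g - hB * |L3 x - mu'|) * E) * Nn M c W a
  RW : ∀ a ∈ A, ∀ u v, ¬ (u ∈ C ∧ v ∈ D) → ¬ (u ∈ C' ∧ v ∈ D') → ∀ x,
    M a u * F u v * B v x ≤ Real.exp ((-G' - be * |L3 x|) * E) * Nn M c W a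
  Blo : ∀ x, |L3 x| ≤ K → Real.exp (-(b * E)) ≤ B d x
  q0 : 0 ≤ qM ∧ 0 ≤ dd ∧ 0 ≤ qB ∧ 0 ≤ hB ∧ 0 ≤ rho ∧ 0 ≤ be ∧ 0 ≤ K0
  mK : |mu| ≤ K0
  mK' : |mu'| ≤ K0
  n3 : be ≤ hB
  gG : g ≤ G'

variable {M F B : ℤ → ℤ → ℝ} {L0 L1 L2 L3 : ℤ → ℝ} {A C D C' D' : Set ℤ} {c d : ℤ}
  {lam lam' mu mu' K0 K3 K E qM hM QF kF hF G dd W W' QB kB hB qB b rho be be2 L g g2 G' G2 : ℝ}

/-- **From the lanes and the facts of the last kernel.** -/
theorem kh26 (h : LH26 M F L0 L1 L2 A C D C' D' c d lam lam' K0 K3 E qM hM QF kF hF G dd W W' rho be2 L)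
    (hg : Gl26 lam lam' K0 K3 qM hM QF kF G dd rho be2 g2 G2) (nB : ∀ v x, 0 ≤ B v x) (D1 : ∀ v ∈ D, |L2 v - mu| ≤ rho)
    (D2 : ∀ v ∈ D', |L2 v - mu'| ≤ rho) (hmu : |mu| ≤ K0) (hmu' : |mu'| ≤ K0)
    (Bup : ∀ v x, B v x ≤ Real.exp ((QB + kB * |L2 v| - hB * |L3 x - L2 v|) * E))
    (Bnr : ∀ v, v ∈ D ∨ v ∈ D' → ∀ x, B v x ≤ Real.exp ((qB - hB * |L3 x - L2 v|) * E))
    (Blo : ∀ x, |L3 x| ≤ K → Real.exp (-(b * E)) ≤ B d x) (hqB : 0 ≤ qB) (hB0 : 0 ≤ hB) (be0 : 0 ≤ be) (e1 : be + kB ≤ be2)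
    (n3 : be ≤ hB) (hg2 : g + qB + hB * rho ≤ g2) (hgg : G' + QB ≤ G2) (hgG : g ≤ G') :
    KH26 M F B L3 A C D C' D' c d mu mu' K0 K E qM dd qB hB b rho be g G' W := by
  obtain ⟨q1, q2, q3, q4, q5, q6, q7, q8, q9⟩ := h.q0
  have hE := h.E0
  have hW := h.Wpos
  -- near an end cell
  have bn : ∀ (D0 : Set ℤ) (m : ℝ), (∀ v ∈ D0, v ∈ D ∨ v ∈ D') → (∀ v ∈ D0, |L2 v - m| ≤ rho) → ∀ v ∈ D0, ∀ x,
      B v x ≤ Real.exp ((qB + hB * rho - hB * |L3 x - m|) * E) := by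
    intro D0 m hD hm v hv x
    refine (Bnr v (hD v hv) x).trans (Real.exp_le_exp.2 (mul_le_mul_of_nonneg_right ?_ hE.le))
    have g1 := hm v hv
    have g2 : |L3 x - m| ≤ |L3 x - L2 v| + |L2 v - m| := abs_sub_le _ _ _
    have g3 : hB * |L3 x - m| ≤ hB * (|L3 x - L2 v| + rho) := mul_le_mul_of_nonneg_left (by linarith) hB0
    linarith
  refine ⟨hE, h.nM, h.nF, nB, h.cC, h.dD, hW, h.WF, fun a ha => ?_, h.Mlo, fun a ha u hu v hv x => ?_, fun a ha u hu v hv x => ?_,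
    fun a ha u v h1 h2 x => ?_, Blo, ⟨q1, q3, hqB, hB0, h.rho0, be0, q8⟩, hmu, hmu', n3, hgG⟩
  · refine (h.Mup a ha c).trans (Real.exp_le_exp.2 (mul_le_mul_of_nonneg_right ?_ hE.le))
    have := mul_nonneg q4 (abs_nonneg (L1 c - L0 a))
    linarith
  · have hN := (h.Npos ha).le
    have b2 := bn D mu (fun v hv => Or.inl hv) D1 v hv x
    calc M a u * F u v * B v x ≤ (Real.exp ((2 * qM + dd) * E) * Nn M c W a) * Real.exp ((qB + hB * rho - hB * |L3 x - mu|) * E) :=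
          mul_le_mul (lane_in h ha hu hv) b2 (nB v x) (by positivity)
      _ = (Real.exp ((2 * qM + dd) * E) * Real.exp ((qB + hB * rho - hB * |L3 x - mu|) * E)) * Nn M c W a := by ring
      _ = _ := by
          rw [← Real.exp_add]
          congr 2
          ring
  · have hN := (h.Npos ha).le
    have b2 := bn D' mu' (fun v hv => Or.inr hv) D2 v hv x
    calc M a u * F u v * B v x ≤ (Real.exp (-(g2 * E)) * Nn M c W a) * Real.exp ((qB + hB * rho - hB * |L3 x - mu'|) * E) :=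
          mul_le_mul (lane_cross h hg ha ⟨hu, hv⟩) b2 (nB v x) (by positivity)
      _ = Real.exp (-(g2 * E) + (qB + hB * rho - hB * |L3 x - mu'|) * E) * Nn M c W a := by
          rw [Real.exp_add]
          ring
      _ ≤ _ := by
          refine mul_le_mul_of_nonneg_right (Real.exp_le_exp.2 ?_) hN
          have := mul_le_mul_of_nonneg_right hg2 hE.le
          linarith
  · have hN := (h.Npos ha).le
    calc M a u * F u v * B v x ≤ (Real.exp ((-G2 - be2 * |L2 v|) * E) * Nn M c W a) *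
          Real.exp ((QB + kB * |L2 v| - hB * |L3 x - L2 v|) * E) :=
          mul_le_mul (lane_wall h hg ha h1 h2) (Bup v x) (nB v x) (by positivity)
      _ = Real.exp ((-G2 - be2 * |L2 v|) * E + (QB + kB * |L2 v| - hB * |L3 x - L2 v|) * E) * Nn M c W a := by
          rw [Real.exp_add]
          ring
      _ ≤ _ := by
          refine mul_le_mul_of_nonneg_right (Real.exp_le_exp.2 ?_) hN
          rw [← add_mul]
          refine mul_le_mul_of_nonneg_right ?_ hE.le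
          have t1 : |L3 x| ≤ |L3 x - L2 v| + |L2 v| := by
            have := abs_add_le (L3 x - L2 v) (L2 v)
            rwa [sub_add_cancel] at this
          have t2 := mul_le_mul_of_nonneg_left t1 be0
          have t3 := mul_le_mul_of_nonneg_right e1 (abs_nonneg (L2 v))
          have t4 := mul_le_mul_of_nonneg_right n3 (abs_nonneg (L3 x - L2 v))
          nlinarith

section own

variable {S1 S2 : Finset ℤ} (h : KH26 M F B L3 A C D C' D' c d mu mu' K0 K E qM dd qB hB b rho be g G' W)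
include h

theorem KH26.Npos {a : ℤ} (ha : a ∈ A) : 0 < Nn M c W a := mul_pos (lt_of_lt_of_le (Real.exp_pos _) (h.N2 a ha)) h.W0

theorem KH26.Nle {a : ℤ} (ha : a ∈ A) : Nn M c W a ≤ Real.exp (qM * E) * W := by
  unfold Nn
  exact mul_le_mul_of_nonneg_right (h.N1 a ha) h.W0.le

theorem KH26.Nge {a : ℤ} (ha : a ∈ A) : Real.exp (-(qM * E)) * W ≤ Nn M c W a := by
  unfold Nn
  exact mul_le_mul_of_nonneg_right (h.N2 a ha) h.W0.le

/-- **Lower bound.** -/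
theorem kh_low (hc : c ∈ S1) (hd : d ∈ S2) (a x : ℤ) : Nn M c W a * B d x ≤ K3k M F B S1 S2 a x := by
  have nn : ∀ u v, 0 ≤ M a u * F u v * B v x := fun u v => mul_nonneg (mul_nonneg (h.nM _ _) (h.nF _ _)) (h.nB _ _)
  have h1 := single_le_sum (f := fun u => ∑ v ∈ S2, M a u * F u v * B v x) (fun u _ => sum_nonneg fun v _ => nn u v) hc
  have h2 := single_le_sum (f := fun v => M a c * F c v * B v x) (fun v _ => nn c v) hd
  refine le_trans ?_ (h2.trans h1)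
  unfold Nn
  exact mul_le_mul_of_nonneg_right (mul_le_mul_of_nonneg_left h.WF (h.nM a c)) (h.nB d x)

/-- **Envelope.** -/
theorem kh_env {a : ℤ} (ha : a ∈ A) (x : ℤ) :
    K3k M F B S1 S2 a x ≤ (S1.card * S2.card : ℝ) * ((Real.exp ((2 * qM + dd + qB + hB * rho - hB * |L3 x - mu|) * E) +
      Real.exp ((-g - hB * |L3 x - mu'|) * E) + Real.exp ((-G' - be * |L3 x|) * E)) * Nn M c W a) := by
  classical
  have hN := (h.Npos ha).le
  have key : ∀ u v, M a u * F u v * B v x ≤ (Real.exp ((2 * qM + dd + qB + hB * rho - hB * |L3 x - mu|) * E) +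
      Real.exp ((-g - hB * |L3 x - mu'|) * E) + Real.exp ((-G' - be * |L3 x|) * E)) * Nn M c W a := by
    intro u v
    rw [add_mul, add_mul]
    have p1 := mul_nonneg (Real.exp_pos ((2 * qM + dd + qB + hB * rho - hB * |L3 x - mu|) * E)).le hN
    have p2 := mul_nonneg (Real.exp_pos ((-g - hB * |L3 x - mu'|) * E)).le hN
    have p3 := mul_nonneg (Real.exp_pos ((-G' - be * |L3 x|) * E)).le hN
    by_cases h1 : u ∈ C ∧ v ∈ D
    · have h2 := h.RA a ha u h1.1 v h1.2 x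
      linarith
    by_cases h2 : u ∈ C' ∧ v ∈ D'
    · have h3 := h.RX a ha u h2.1 v h2.2 x
      linarith
    · have h3 := h.RW a ha u v h1 h2 x
      linarith
  unfold K3k
  calc ∑ u ∈ S1, ∑ v ∈ S2, M a u * F u v * B v x ≤ ∑ _u ∈ S1, ∑ _v ∈ S2, (Real.exp ((2 * qM + dd + qB + hB * rho - hB * |L3 x - mu|) * E) +
      Real.exp ((-g - hB * |L3 x - mu'|) * E) + Real.exp ((-G' - be * |L3 x|) * E)) * Nn M c W a :=
        sum_le_sum fun u _ => sum_le_sum fun v _ => key u v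
    _ = _ := by
      rw [sum_const, sum_const, nsmul_eq_mul, nsmul_eq_mul]
      ring

open Classical in
/-- The paths which do not go through the cell `C`. -/
theorem kh_off {a : ℤ} (ha : a ∈ A) (x : ℤ) :
    ∑ u ∈ S1.filter (fun u => u ∉ C), ∑ v ∈ S2, M a u * F u v * B v x ≤
      (S1.card * S2.card : ℝ) * (Real.exp (-(g * E)) * Nn M c W a) := by
  have hN := (h.Npos ha).le
  have hE := h.E0
  obtain ⟨q1, q2, q3, q4, q5, q6, q7⟩ := h.q0
  calc ∑ u ∈ S1.filter (fun u => u ∉ C), ∑ v ∈ S2, M a u * F u v * B v x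
      ≤ ∑ _u ∈ S1.filter (fun u => u ∉ C), ∑ _v ∈ S2, Real.exp (-(g * E)) * Nn M c W a := by
        refine sum_le_sum fun u hu => sum_le_sum fun v _ => ?_
        rw [mem_filter] at hu
        by_cases h2 : u ∈ C' ∧ v ∈ D'
        · refine (h.RX a ha u h2.1 v h2.2 x).trans (mul_le_mul_of_nonneg_right (Real.exp_le_exp.2 ?_) hN)
          have := mul_nonneg (mul_nonneg q4 (abs_nonneg (L3 x - mu'))) hE.le
          linarith
        · refine (h.RW a ha u v (fun h1 => hu.2 h1.1) h2 x).trans (mul_le_mul_of_nonneg_right (Real.exp_le_exp.2 ?_) hN)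
          have := mul_nonneg (mul_nonneg q6 (abs_nonneg (L3 x))) hE.le
          have := mul_le_mul_of_nonneg_right h.gG hE.le
          linarith
    _ = ((S1.filter (fun u => u ∉ C)).card * S2.card : ℝ) * (Real.exp (-(g * E)) * Nn M c W a) := by
        rw [sum_const, sum_const, nsmul_eq_mul, nsmul_eq_mul]
        ring
    _ ≤ _ := by
        refine mul_le_mul_of_nonneg_right ?_ (mul_nonneg (Real.exp_pos _).le hN)
        refine mul_le_mul_of_nonneg_right ?_ (Nat.cast_nonneg _)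
        exact_mod_cast card_filter_le _ _

/-- **RANK ONE FROM THE CELL TO THE WHOLE WINDOW.** -/
theorem kh_cr (hc : c ∈ S1) (hd : d ∈ S2) {ε τ : ℝ} (hε : 0 ≤ ε) (hτ : 0 ≤ τ)
    (hr : ∀ a ∈ A, ∀ a' ∈ A, ∀ u ∈ C, ∀ u' ∈ C, M a u * M a' u' ≤ (1 + ε) * (M a u' * M a' u))
    (ht : (S1.card * S2.card : ℝ) * Real.exp ((b - g) * E) ≤ τ) {a a' x x' : ℤ} (ha : a ∈ A) (ha' : a' ∈ A)
    (hx : |L3 x| ≤ K) (hx' : |L3 x'| ≤ K) :
    CR (K3k M F B S1 S2) a a' x x' ≤ (1 + τ) ^ 2 * (1 + ε) := by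
  classical
  obtain ⟨Q, hQ⟩ : ∃ Q : ℤ → ℤ → ℝ, Q = fun u x => ∑ v ∈ S2, F u v * B v x := ⟨_, rfl⟩
  have hQ0 : ∀ u x, 0 ≤ Q u x := fun u x => by rw [hQ]; exact sum_nonneg fun v _ => mul_nonneg (h.nF _ _) (h.nB _ _)
  have hKQ : ∀ a x, K3k M F B S1 S2 a x = ∑ u ∈ S1, M a u * Q u x := by
    intro a x
    unfold K3k
    rw [hQ]
    refine sum_congr rfl fun u _ => ?_
    rw [mul_sum]
    exact sum_congr rfl fun v _ => by ring
  obtain ⟨Mn, hMn⟩ : ∃ Mn : ℤ → ℤ → ℝ, Mn = fun a x => ∑ u ∈ S1.filter (fun u => u ∈ C), M a u * Q u x := ⟨_, rfl⟩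
  have hM0 : ∀ a x, 0 ≤ Mn a x := fun a x => by rw [hMn]; exact sum_nonneg fun u _ => mul_nonneg (h.nM _ _) (hQ0 _ _)
  have hMK : ∀ a x, Mn a x ≤ K3k M F B S1 S2 a x := fun a x => by
    rw [hKQ, hMn]
    exact sum_le_sum_of_subset_of_nonneg (filter_subset _ _) fun u _ _ => mul_nonneg (h.nM _ _) (hQ0 _ _)
  -- the main part carries everything
  have up : ∀ a ∈ A, ∀ x, |L3 x| ≤ K → K3k M F B S1 S2 a x ≤ (1 + τ) * Mn a x := by
    intro a ha x hx
    have hN := (h.Npos ha).le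
    have e1 : K3k M F B S1 S2 a x = Mn a x + ∑ u ∈ S1.filter (fun u => u ∉ C), ∑ v ∈ S2, M a u * F u v * B v x := by
      rw [hKQ, hMn, ← sum_filter_add_sum_filter_not S1 (fun u => u ∈ C)]
      congr 1
      refine sum_congr rfl fun u _ => ?_
      rw [hQ, mul_sum]
      exact sum_congr rfl fun v _ => by ring
    have e2 := kh_off (S1 := S1) (S2 := S2) h ha x
    have e3 : Real.exp (-(b * E)) * Nn M c W a ≤ Mn a x := by
      have h1 := single_le_sum (f := fun u => M a u * Q u x) (s := S1.filter (fun u => u ∈ C))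
        (fun u _ => mul_nonneg (h.nM _ _) (hQ0 _ _)) (mem_filter.2 ⟨hc, h.cC⟩)
      have h2 : F c d * B d x ≤ Q c x := by
        rw [hQ]
        exact single_le_sum (f := fun v => F c v * B v x) (fun v _ => mul_nonneg (h.nF _ _) (h.nB _ _)) hd
      have h3 := mul_le_mul h.WF (h.Blo x hx) (Real.exp_pos _).le (h.nF _ _)
      have h4 := mul_le_mul_of_nonneg_left (h3.trans h2) (h.nM a c)
      rw [hMn]
      refine le_trans ?_ h1
      unfold Nn
      linarith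
    have e4 : (S1.card * S2.card : ℝ) * (Real.exp (-(g * E)) * Nn M c W a) ≤ τ * Mn a x := by
      have h1 : Real.exp (-(g * E)) = Real.exp ((b - g) * E) * Real.exp (-(b * E)) := by
        rw [← Real.exp_add]
        congr 1
        ring
      rw [h1]
      calc (S1.card * S2.card : ℝ) * (Real.exp ((b - g) * E) * Real.exp (-(b * E)) * Nn M c W a)
          = ((S1.card * S2.card : ℝ) * Real.exp ((b - g) * E)) * (Real.exp (-(b * E)) * Nn M c W a) := by ring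
        _ ≤ τ * (Real.exp (-(b * E)) * Nn M c W a) :=
            mul_le_mul_of_nonneg_right ht (mul_nonneg (Real.exp_pos _).le hN)
        _ ≤ τ * Mn a x := mul_le_mul_of_nonneg_left e3 hτ
    rw [e1]
    linarith
  have pos : ∀ a ∈ A, ∀ x, |L3 x| ≤ K → 0 < K3k M F B S1 S2 a x := fun a ha x hx =>
    lt_of_lt_of_le (mul_pos (h.Npos ha) (lt_of_lt_of_le (Real.exp_pos _) (h.Blo x hx))) (kh_low h hc hd a x)
  -- the main part is of rank one
  have rk : Mn a x * Mn a' x' ≤ (1 + ε) * (Mn a x' * Mn a' x) := by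
    rw [hMn]
    show (∑ u ∈ S1.filter (fun u => u ∈ C), M a u * Q u x) * (∑ u ∈ S1.filter (fun u => u ∈ C), M a' u * Q u x') ≤
      (1 + ε) * ((∑ u ∈ S1.filter (fun u => u ∈ C), M a u * Q u x') * ∑ u ∈ S1.filter (fun u => u ∈ C), M a' u * Q u x)
    rw [sum_mul_sum, sum_mul_sum]
    have e1 : ∑ u ∈ S1.filter (fun u => u ∈ C), ∑ v ∈ S1.filter (fun u => u ∈ C), M a u * Q u x' * (M a' v * Q v x) =
        ∑ u ∈ S1.filter (fun u => u ∈ C), ∑ v ∈ S1.filter (fun u => u ∈ C), M a v * Q v x' * (M a' u * Q u x) := sum_comm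
    rw [e1, mul_sum]
    refine sum_le_sum fun u hu => ?_
    rw [mul_sum]
    refine sum_le_sum fun v hv => ?_
    rw [mem_filter] at hu hv
    have h5 := hr a ha a' ha' u hu.2 v hv.2
    have h6 := mul_nonneg (hQ0 u x) (hQ0 v x')
    have h7 := mul_le_mul_of_nonneg_right h5 h6
    calc M a u * Q u x * (M a' v * Q v x') = M a u * M a' v * (Q u x * Q v x') := by ring
      _ ≤ (1 + ε) * (M a v * M a' u) * (Q u x * Q v x') := h7
      _ = _ := by ring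
  have p1 := pos a ha x' hx'
  have p2 := pos a' ha' x hx
  have k1 := up a ha x hx
  have k2 := up a' ha' x' hx'
  unfold CR
  rw [div_le_iff₀ (mul_pos p1 p2)]
  have g1 : K3k M F B S1 S2 a x * K3k M F B S1 S2 a' x' ≤ (1 + τ) * Mn a x * ((1 + τ) * Mn a' x') :=
    mul_le_mul k1 k2 ((hM0 _ _).trans (hMK _ _)) (mul_nonneg (by linarith) (hM0 _ _))
  have g2 : Mn a x' * Mn a' x ≤ K3k M F B S1 S2 a x' * K3k M F B S1 S2 a' x := mul_le_mul (hMK _ _) (hMK _ _) (hM0 _ _) p1.le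
  calc K3k M F B S1 S2 a x * K3k M F B S1 S2 a' x' ≤ (1 + τ) * Mn a x * ((1 + τ) * Mn a' x') := g1
    _ = (1 + τ) ^ 2 * (Mn a x * Mn a' x') := by ring
    _ ≤ (1 + τ) ^ 2 * ((1 + ε) * (Mn a x' * Mn a' x)) := mul_le_mul_of_nonneg_left rk (by positivity)
    _ ≤ (1 + τ) ^ 2 * ((1 + ε) * (K3k M F B S1 S2 a x' * K3k M F B S1 S2 a' x)) :=
        mul_le_mul_of_nonneg_left (mul_le_mul_of_nonneg_left g2 (by linarith)) (by positivity)
    _ = _ := by ring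

/-- **Pointwise bound**, relative to the strength `W1` of the lanes. -/
theorem kh_pt {R W1 ell g' G1 : ℝ} (hR : (S1.card * S2.card : ℝ) ≤ R) (hRE : 3 * R ≤ Real.exp E) (hW1 : W ≤ Real.exp (dd * E) * W1)
    (hl : 3 * qM + 2 * dd + qB + hB * rho + 1 ≤ ell) (hg' : g' + qM + dd + 1 ≤ g) (hG' : G1 + qM + dd + 1 ≤ G') {a : ℤ} (ha : a ∈ A)
    (x : ℤ) : K3k M F B S1 S2 a x ≤ (Real.exp ((ell - hB * |L3 x - mu|) * E) + Real.exp ((-g' - hB * |L3 x - mu'|) * E) +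
      Real.exp ((-G1 - be * |L3 x|) * E)) * W1 := by
  have hE := h.E0
  have hW := h.W0
  have hW10 : 0 < W1 := by
    have := lt_of_lt_of_le hW hW1
    by_contra hcon
    exact absurd this (not_lt.2 (mul_nonpos_of_nonneg_of_nonpos (Real.exp_pos _).le (not_lt.1 hcon)))
  have hR0 : 0 ≤ R := le_trans (by positivity) hR
  have hRE' : R ≤ Real.exp E := by linarith
  obtain ⟨X, hX⟩ : ∃ X : ℝ, X = Real.exp ((2 * qM + dd + qB + hB * rho - hB * |L3 x - mu|) * E) := ⟨_, rfl⟩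
  obtain ⟨Y, hY⟩ : ∃ Y : ℝ, Y = Real.exp ((-g - hB * |L3 x - mu'|) * E) := ⟨_, rfl⟩
  obtain ⟨Z, hZ⟩ : ∃ Z : ℝ, Z = Real.exp ((-G' - be * |L3 x|) * E) := ⟨_, rfl⟩
  have h1 := kh_env (S1 := S1) (S2 := S2) h ha x
  rw [← hX, ← hY, ← hZ] at h1
  have hX0 : 0 ≤ X := by rw [hX]; exact (Real.exp_pos _).le
  have hY0 : 0 ≤ Y := by rw [hY]; exact (Real.exp_pos _).le
  have hZ0 : 0 ≤ Z := by rw [hZ]; exact (Real.exp_pos _).le
  have hNN : Nn M c W a ≤ Real.exp (qM * E) * (Real.exp (dd * E) * W1) :=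
    (h.Nle ha).trans (mul_le_mul_of_nonneg_left hW1 (Real.exp_pos _).le)
  calc K3k M F B S1 S2 a x ≤ (S1.card * S2.card : ℝ) * ((X + Y + Z) * Nn M c W a) := h1
    _ ≤ Real.exp E * ((X + Y + Z) * (Real.exp (qM * E) * (Real.exp (dd * E) * W1))) :=
        mul_le_mul (hR.trans hRE') (mul_le_mul_of_nonneg_left hNN (by linarith)) (mul_nonneg (by linarith) (h.Npos ha).le)
          (Real.exp_pos _).le
    _ = (Real.exp E * X * Real.exp (qM * E) * Real.exp (dd * E) + Real.exp E * Y * Real.exp (qM * E) * Real.exp (dd * E) +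
          Real.exp E * Z * Real.exp (qM * E) * Real.exp (dd * E)) * W1 := by
        ring
    _ ≤ _ := by
        refine mul_le_mul_of_nonneg_right (add_le_add (add_le_add ?_ ?_) ?_) hW10.le
        · rw [hX, ← Real.exp_add, ← Real.exp_add, ← Real.exp_add]
          refine Real.exp_le_exp.2 ?_
          have := mul_le_mul_of_nonneg_right hl hE.le
          linarith
        · rw [hY, ← Real.exp_add, ← Real.exp_add, ← Real.exp_add]
          refine Real.exp_le_exp.2 ?_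
          have := mul_le_mul_of_nonneg_right hg' hE.le
          linarith
        · rw [hZ, ← Real.exp_add, ← Real.exp_add, ← Real.exp_add]
          refine Real.exp_le_exp.2 ?_
          have := mul_le_mul_of_nonneg_right hG' hE.le
          linarith

end own

/-! ### The output, from the pointwise bounds -/

/-- The pointwise facts of the whole buffer, one lane. -/
structure PT26 (Kr : ℤ → ℤ → ℝ) (L3 : ℤ → ℝ) (A : Set ℤ) (mu mu' E W ell g G' be hB : ℝ) : Prop where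
  E0 : 0 < E
  W0 : 0 < W
  nn : ∀ y x, 0 ≤ Kr y x
  pt : ∀ y ∈ A, ∀ x : ℤ, Kr y x ≤ (Real.exp ((ell - hB * |L3 x - mu|) * E) + Real.exp ((-g - hB * |L3 x - mu'|) * E) +
    Real.exp ((-G' - be * |L3 x|) * E)) * W
  be0 : 0 ≤ be
  hB0 : be ≤ hB

/-- Weighted sums of the ends which are far from the lane. -/
theorem PT26.wex {Kr : ℤ → ℤ → ℝ} {L3 : ℤ → ℝ} {A : Set ℤ} {mu mu' E W ell g G' be hB : ℝ} (h : PT26 Kr L3 A mu mu' E W ell g G' be hB)
    {go R : ℝ} (hR : 3 * R ≤ Real.exp E) {S3 X : Finset ℤ} (hS3 : (S3.card : ℝ) ≤ R) {y : ℤ} (hy : y ∈ A)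
    (hz : ∀ x : ℤ, x ∉ S3 → Kr y x = 0) (hg : go + 1 + be * |mu'| ≤ g) (hG : go + 1 ≤ G')
    (hX : ∀ x ∈ X, ell + be * |L3 x| + go + 1 ≤ hB * |L3 x - mu|) :
    ∑ x ∈ X, Kr y x * Real.exp (be * |L3 x| * E) ≤ Real.exp (-(go * E)) * W := by
  classical
  have hE := h.E0
  have hW := h.W0
  have e1 : ∑ x ∈ X, Kr y x * Real.exp (be * |L3 x| * E) = ∑ x ∈ X.filter (fun x => x ∈ S3), Kr y x * Real.exp (be * |L3 x| * E) := by
    symm
    refine sum_subset (filter_subset _ _) fun x hx hx' => ?_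
    have hx3 : x ∉ S3 := fun hcon => hx' (mem_filter.2 ⟨hx, hcon⟩)
    rw [hz x hx3, zero_mul]
  have hcd : (((X.filter (fun x => x ∈ S3)).card : ℕ) : ℝ) ≤ R := by
    refine le_trans ?_ hS3
    exact_mod_cast card_le_card fun x hx => (mem_filter.1 hx).2
  have key : ∀ x ∈ X.filter (fun x => x ∈ S3), Kr y x * Real.exp (be * |L3 x| * E) ≤ 3 * Real.exp (-((go + 1) * E)) * W := by
    intro x hx
    have hx' := hX x (mem_filter.1 hx).1
    have h1 := mul_le_mul_of_nonneg_right (h.pt y hy x) (Real.exp_pos (be * |L3 x| * E)).le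
    refine h1.trans ?_
    have h2 : Real.exp ((ell - hB * |L3 x - mu|) * E) * Real.exp (be * |L3 x| * E) ≤ Real.exp (-((go + 1) * E)) := by
      rw [← Real.exp_add, ← add_mul]
      refine Real.exp_le_exp.2 ?_
      rw [← neg_mul]
      refine mul_le_mul_of_nonneg_right ?_ hE.le
      linarith
    have h3 : Real.exp ((-G' - be * |L3 x|) * E) * Real.exp (be * |L3 x| * E) ≤ Real.exp (-((go + 1) * E)) := by
      rw [← Real.exp_add, ← add_mul]
      refine Real.exp_le_exp.2 ?_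
      rw [← neg_mul]
      refine mul_le_mul_of_nonneg_right ?_ hE.le
      linarith
    have h4 : Real.exp ((-g - hB * |L3 x - mu'|) * E) * Real.exp (be * |L3 x| * E) ≤ Real.exp (-((go + 1) * E)) := by
      rw [← Real.exp_add, ← add_mul]
      refine Real.exp_le_exp.2 ?_
      rw [← neg_mul]
      refine mul_le_mul_of_nonneg_right ?_ hE.le
      have t1 : |L3 x| ≤ |L3 x - mu'| + |mu'| := by
        have := abs_add_le (L3 x - mu') mu'
        rwa [sub_add_cancel] at this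
      have t2 := mul_le_mul_of_nonneg_left t1 h.be0
      have t3 := mul_le_mul_of_nonneg_right h.hB0 (abs_nonneg (L3 x - mu'))
      linarith
    calc (Real.exp ((ell - hB * |L3 x - mu|) * E) + Real.exp ((-g - hB * |L3 x - mu'|) * E) + Real.exp ((-G' - be * |L3 x|) * E)) * W *
          Real.exp (be * |L3 x| * E)
        = (Real.exp ((ell - hB * |L3 x - mu|) * E) * Real.exp (be * |L3 x| * E) +
          Real.exp ((-g - hB * |L3 x - mu'|) * E) * Real.exp (be * |L3 x| * E) +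
          Real.exp ((-G' - be * |L3 x|) * E) * Real.exp (be * |L3 x| * E)) * W := by ring
      _ ≤ _ := mul_le_mul_of_nonneg_right (by linarith) hW.le
  rw [e1]
  calc ∑ x ∈ X.filter (fun x => x ∈ S3), Kr y x * Real.exp (be * |L3 x| * E)
      ≤ ∑ _x ∈ X.filter (fun x => x ∈ S3), 3 * Real.exp (-((go + 1) * E)) * W := sum_le_sum key
    _ = ((X.filter (fun x => x ∈ S3)).card : ℝ) * (3 * Real.exp (-((go + 1) * E)) * W) := by rw [sum_const, nsmul_eq_mul]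
    _ ≤ R * (3 * Real.exp (-((go + 1) * E)) * W) := mul_le_mul_of_nonneg_right hcd (by positivity)
    _ = 3 * R * (Real.exp (-((go + 1) * E)) * W) := by ring
    _ ≤ Real.exp E * (Real.exp (-((go + 1) * E)) * W) := mul_le_mul_of_nonneg_right hR (by positivity)
    _ = _ := by
        rw [← mul_assoc, ← Real.exp_add]
        congr 2
        ring

/-- The upper bound. -/
theorem PT26.up {Kr : ℤ → ℤ → ℝ} {L3 : ℤ → ℝ} {A : Set ℤ} {mu mu' E W ell g G' be hB : ℝ} (h : PT26 Kr L3 A mu mu' E W ell g G' be hB)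
    (hg : 0 ≤ ell + g) (hG : 0 ≤ ell + G') (hE2 : 3 ≤ Real.exp E) {y : ℤ} (hy : y ∈ A) (x : ℤ) : Kr y x ≤ Real.exp ((ell + 1) * E) * W := by
  have hE := h.E0
  refine (h.pt y hy x).trans (mul_le_mul_of_nonneg_right ?_ h.W0.le)
  have hb0 : 0 ≤ hB := h.be0.trans h.hB0
  have h1 : Real.exp ((ell - hB * |L3 x - mu|) * E) ≤ Real.exp (ell * E) := by
    refine Real.exp_le_exp.2 (mul_le_mul_of_nonneg_right ?_ hE.le)
    have := mul_nonneg hb0 (abs_nonneg (L3 x - mu))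
    linarith
  have h2 : Real.exp ((-G' - be * |L3 x|) * E) ≤ Real.exp (ell * E) := by
    refine Real.exp_le_exp.2 (mul_le_mul_of_nonneg_right ?_ hE.le)
    have := mul_nonneg h.be0 (abs_nonneg (L3 x))
    linarith
  have h4 : Real.exp ((-g - hB * |L3 x - mu'|) * E) ≤ Real.exp (ell * E) := by
    refine Real.exp_le_exp.2 (mul_le_mul_of_nonneg_right ?_ hE.le)
    have := mul_nonneg hb0 (abs_nonneg (L3 x - mu'))
    linarith
  have h3 : Real.exp ((ell + 1) * E) = Real.exp E * Real.exp (ell * E) := by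
    rw [← Real.exp_add]
    congr 1
    ring
  rw [h3]
  have := mul_le_mul_of_nonneg_right hE2 (Real.exp_pos (ell * E)).le
  linarith

/-- **THE OUTPUT OF THE BUFFER**, ends of the lanes prescribed. -/
theorem outK26 {A1 A2 C1 C2 D1 D2 : Set ℤ} {c1 c2 d1 d2 : ℤ} {mu1 mu2 W1 W2 : ℝ} {S1 S2 S3 : Finset ℤ} {a1 b1 a2 b2 xa xb s0 : ℤ}
    (h1 : KH26 M F B L3 A1 C1 D1 C2 D2 c1 d1 mu1 mu2 K0 K E qM dd qB hB b rho be g G' W1)
    (h2 : KH26 M F B L3 A2 C2 D2 C1 D1 c2 d2 mu2 mu1 K0 K E qM dd qB hB b rho be g G' W2)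
    (hWa : W2 ≤ Real.exp (dd * E) * W1) (hWb : W1 ≤ Real.exp (dd * E) * W2)
    {b' Kx sg R g' G1 go ell ell0 : ℝ} (hc1 : c1 ∈ S1) (hd1 : d1 ∈ S2) (hc2 : c2 ∈ S1) (hd2 : d2 ∈ S2)
    (hR : (S1.card * S2.card : ℝ) ≤ R) (hR3 : (S3.card : ℝ) ≤ R) (hRE : 3 * R ≤ Real.exp E) (hE2 : 3 ≤ Real.exp E)
    (hl : 3 * qM + 2 * dd + qB + hB * rho + 1 ≤ ell) (hl2 : b' + qM + dd ≤ ell + 1) (hl0 : b + qM + dd ≤ ell0)
    (hgg : g' + qM + dd + 1 ≤ g) (hGG : G1 + qM + dd + 1 ≤ G') (hgo : go + 1 + be * K0 ≤ g') (hGo : go + 1 ≤ G1) (hgo0 : 0 ≤ go)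
    (hex : ell + hB * K0 + go + 1 ≤ (hB - be) * Kx) (hsp : ell + be * K0 + go + 1 ≤ (hB - be) * sg)
    (hy1 : ∀ y : ℤ, a1 ≤ y → y ≤ b1 → y ∈ A1) (hy2 : ∀ y : ℤ, a2 ≤ y → y ≤ b2 → y ∈ A2) (ha1 : a1 ≤ b1) (ha2 : a2 ≤ b2)
    (hxx : xa ≤ xb) (hwin : ∀ x : ℤ, xa ≤ x → x ≤ xb → |L3 x| ≤ K) (hxa : ∀ x : ℤ, x < xa → Kx ≤ |L3 x|)
    (hxb : ∀ x : ℤ, xb < x → Kx ≤ |L3 x|) (hs1 : ∀ x : ℤ, s0 < x → sg ≤ |L3 x - mu1|) (hs2 : ∀ x : ℤ, x ≤ s0 → sg ≤ |L3 x - mu2|)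
    (hS1 : ∀ y ∈ A1, ∀ x : ℤ, x ∉ S3 → K3k M F B S1 S2 y x = 0) (hS2 : ∀ y ∈ A2, ∀ x : ℤ, x ∉ S3 → K3k M F B S1 S2 y x = 0) {Kc : ℝ}
    (hb1 : ∀ x : ℤ, |L3 x - mu1| ≤ Kc → Real.exp (-(b' * E)) ≤ B d1 x)
    (hb2 : ∀ x : ℤ, |L3 x - mu2| ≤ Kc → Real.exp (-(b' * E)) ≤ B d2 x)
    {ε τ δ : ℝ} (hε : 0 ≤ ε) (hτ : 0 ≤ τ)
    (hr1 : ∀ a ∈ A1, ∀ a' ∈ A1, ∀ u ∈ C1, ∀ u' ∈ C1, M a u * M a' u' ≤ (1 + ε) * (M a u' * M a' u))
    (hr2 : ∀ a ∈ A2, ∀ a' ∈ A2, ∀ u ∈ C2, ∀ u' ∈ C2, M a u * M a' u' ≤ (1 + ε) * (M a u' * M a' u))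
    (ht : (S1.card * S2.card : ℝ) * Real.exp ((b - g) * E) ≤ τ) (hδ : (1 + τ) ^ 2 * (1 + ε) ≤ 1 + δ) :
    BufO26 (K3k M F B S1 S2) L3 E mu1 mu2 a1 b1 a2 b2 xa xb s0 W1 δ (ell + 1) ell0 Kc be go := by
  have hE := h1.E0
  have hW1 := h1.W0
  obtain ⟨q1, q2, q3, q4, q5, q6, q7⟩ := h1.q0
  have hWc : W1 ≤ Real.exp (dd * E) * W1 := by
    have : (1 : ℝ) ≤ Real.exp (dd * E) := Real.one_le_exp (mul_nonneg q2 hE.le)
    nlinarith
  have pt1 : ∀ y ∈ A1, ∀ x : ℤ, _ := fun y hy x => kh_pt (S1 := S1) (S2 := S2) h1 hR hRE hWc hl hgg hGG hy x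
  have pt2 : ∀ y ∈ A2, ∀ x : ℤ, _ := fun y hy x => kh_pt (S1 := S1) (S2 := S2) h2 hR hRE hWa hl hgg hGG hy x
  have nn : ∀ y x, 0 ≤ K3k M F B S1 S2 y x := fun y x => by
    unfold K3k
    exact sum_nonneg fun u _ => sum_nonneg fun v _ => mul_nonneg (mul_nonneg (h1.nM _ _) (h1.nF _ _)) (h1.nB _ _)
  have P1 : PT26 (K3k M F B S1 S2) L3 A1 mu1 mu2 E W1 ell g' G1 be hB := ⟨hE, hW1, nn, pt1, q6, h1.n3⟩
  have P2 : PT26 (K3k M F B S1 S2) L3 A2 mu2 mu1 E W1 ell g' G1 be hB := ⟨hE, hW1, nn, pt2, q6, h1.n3⟩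
  have hell : 0 ≤ ell := by
    have := mul_nonneg q4 q5
    linarith
  have hbK : 0 ≤ be * K0 := mul_nonneg q6 q7
  -- lower bounds
  have low : ∀ {A : Set ℤ} {C D C' D' : Set ℤ} {c d : ℤ} {mu mu' W : ℝ}
      (h : KH26 M F B L3 A C D C' D' c d mu mu' K0 K E qM dd qB hB b rho be g G' W)
      (_ : W1 ≤ Real.exp (dd * E) * W) (_ : c ∈ S1) (_ : d ∈ S2) (t e : ℝ) (y x : ℤ), y ∈ A → t + qM + dd ≤ e →
      Real.exp (-(t * E)) ≤ B d x → Real.exp (-(e * E)) * W1 ≤ K3k M F B S1 S2 y x := by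
    intro A C D C' D' c d mu mu' W h hW hc hd t e y x hy hte hx
    have g0 : Real.exp (-((qM + dd) * E)) * W1 ≤ Nn M c W y := by
      refine le_trans ?_ (h.Nge hy)
      have g1 := mul_le_mul_of_nonneg_left hW (Real.exp_pos (-((qM + dd) * E))).le
      refine g1.trans (le_of_eq ?_)
      rw [← mul_assoc, ← Real.exp_add]
      congr 2
      ring
    have g1 := mul_le_mul g0 hx (Real.exp_pos _).le (h.Npos hy).le
    refine le_trans ?_ (g1.trans (kh_low h hc hd y x))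
    rw [mul_assoc, mul_comm W1, ← mul_assoc, ← Real.exp_add]
    refine mul_le_mul_of_nonneg_right (Real.exp_le_exp.2 ?_) hW1.le
    have := mul_le_mul_of_nonneg_right hte hE.le
    linarith
  have ex : ∀ {A : Set ℤ} {mu mu' : ℝ}, PT26 (K3k M F B S1 S2) L3 A mu mu' E W1 ell g' G1 be hB → |mu| ≤ K0 → |mu'| ≤ K0 →
      (∀ y ∈ A, ∀ x : ℤ, x ∉ S3 → K3k M F B S1 S2 y x = 0) → ∀ y ∈ A, ∀ X : Finset ℤ, (∀ x ∈ X, Kx ≤ |L3 x|) →
      ∑ x ∈ X, K3k M F B S1 S2 y x * Real.exp (be * |L3 x| * E) ≤ Real.exp (-(go * E)) * W1 := by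
    intro A mu mu' P hm hm' hS y hy X hX
    have hgm : go + 1 + be * |mu'| ≤ g' := by linarith [mul_le_mul_of_nonneg_left hm' q6]
    refine P.wex hRE hR3 hy (hS y hy) hgm hGo fun x hx => ?_
    have g1 := hX x hx
    have g2 := abs_sub_abs_le_abs_sub (L3 x) mu
    have g3 : hB * (|L3 x| - K0) ≤ hB * |L3 x - mu| := mul_le_mul_of_nonneg_left (by linarith) q4
    have g4 : (hB - be) * Kx ≤ (hB - be) * |L3 x| := mul_le_mul_of_nonneg_left g1 (by linarith [h1.n3])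
    linarith
  have sp : ∀ {A : Set ℤ} {mu mu' : ℝ}, PT26 (K3k M F B S1 S2) L3 A mu mu' E W1 ell g' G1 be hB → |mu| ≤ K0 → |mu'| ≤ K0 →
      (∀ y ∈ A, ∀ x : ℤ, x ∉ S3 → K3k M F B S1 S2 y x = 0) → ∀ y ∈ A, ∀ X : Finset ℤ, (∀ x ∈ X, sg ≤ |L3 x - mu|) →
      ∑ x ∈ X, K3k M F B S1 S2 y x * Real.exp (be * |L3 x| * E) ≤ Real.exp (-(go * E)) * W1 := by
    intro A mu mu' P hm hm' hS y hy X hX
    have hgm : go + 1 + be * |mu'| ≤ g' := by linarith [mul_le_mul_of_nonneg_left hm' q6]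
    refine P.wex hRE hR3 hy (hS y hy) hgm hGo fun x hx => ?_
    have g1 := hX x hx
    have g2 : |L3 x| ≤ |L3 x - mu| + K0 := by
      have := abs_add_le (L3 x - mu) mu
      rw [sub_add_cancel] at this
      linarith
    have g3 : be * |L3 x| ≤ be * (|L3 x - mu| + K0) := mul_le_mul_of_nonneg_left g2 q6
    have g4 : (hB - be) * sg ≤ (hB - be) * |L3 x - mu| := mul_le_mul_of_nonneg_left g1 (by linarith [h1.n3])
    linarith
  refine ⟨?_, ?_, fun y g1 g2 x hx => ?_, fun y g1 g2 x hx => ?_, fun y hy x g1 g2 => ?_, fun y hy x => ?_,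
    fun y hy X hX => ?_, fun y hy X hX => ?_, fun y g1 g2 X hX => ?_, fun y g1 g2 X hX => ?_⟩
  · exact (kh_cr h1 hc1 hd1 hε hτ hr1 ht (hy1 _ le_rfl ha1) (hy1 _ ha1 le_rfl) (hwin _ le_rfl hxx) (hwin _ hxx le_rfl)).trans hδ
  · exact (kh_cr h2 hc2 hd2 hε hτ hr2 ht (hy2 _ le_rfl ha2) (hy2 _ ha2 le_rfl) (hwin _ le_rfl hxx) (hwin _ hxx le_rfl)).trans hδ
  · exact low h1 hWc hc1 hd1 b' (ell + 1) y x (hy1 y g1 g2) hl2 (hb1 x hx)
  · exact low h2 hWb hc2 hd2 b' (ell + 1) y x (hy2 y g1 g2) hl2 (hb2 x hx)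
  · rcases hy with hy | hy
    · exact low h1 hWc hc1 hd1 b ell0 y x (hy1 y hy.1 hy.2) hl0 (h1.Blo x (hwin x g1 g2))
    · exact low h2 hWb hc2 hd2 b ell0 y x (hy2 y hy.1 hy.2) hl0 (h2.Blo x (hwin x g1 g2))
  · rcases hy with hy | hy
    · exact P1.up (by linarith) (by linarith) hE2 (hy1 y hy.1 hy.2) x
    · exact P2.up (by linarith) (by linarith) hE2 (hy2 y hy.1 hy.2) x
  · rcases hy with hy | hy
    · exact ex P1 h1.mK h1.mK' hS1 y (hy1 y hy.1 hy.2) X fun x hx => hxa x (hX x hx)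
    · exact ex P2 h2.mK h2.mK' hS2 y (hy2 y hy.1 hy.2) X fun x hx => hxa x (hX x hx)
  · rcases hy with hy | hy
    · exact ex P1 h1.mK h1.mK' hS1 y (hy1 y hy.1 hy.2) X fun x hx => hxb x (hX x hx)
    · exact ex P2 h2.mK h2.mK' hS2 y (hy2 y hy.1 hy.2) X fun x hx => hxb x (hX x hx)
  · exact sp P1 h1.mK h1.mK' hS1 y (hy1 y g1 g2) X fun x hx => hs1 x (hX x hx)
  · exact sp P2 h2.mK h2.mK' hS2 y (hy2 y g1 g2) X fun x hx => hs2 x (hX x hx)

end

end Pool.Agent.W_7d29a1_C1.B26
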