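import Pool.Agent.W_7d29a1_C1.FrbK26

/-!
MP_7d29a1_pr, [C1] SHELL, THE BUFFER OF THE FRESH BALL, TWO EXPONENTS FOR THE EXITS, deterministic. (helper35, over FrbK26 of helper26)

The first kernel is of rank one from each start cell to BOTH entrances of the lanes (`hr` on `C ∪ C'`).

* `kh_off2` : the paths off `C ∪ C'` are paid by the walls `G'`;
* `kh_cr2` : rank one on the whole window: the cost `b` of the window meets `G'` only, never the crossing `g`;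
* `exw35` : the exits have their own exponent `gx`, paid by the distance `Kx` and the walls;
* `outK35` : `outK26` with these two changes.
-/

set_option autoImplicit false

namespace Pool.Agent.W_7d29a1_C1.B26

open Finset
open Pool.Agent.W_7d29a1_C1.CR76 (CR)

noncomputable section

variable {M F B : ℤ → ℤ → ℝ} {L0 L1 L2 L3 : ℤ → ℝ} {A C D C' D' : Set ℤ} {c d : ℤ}
  {lam lam' mu mu' K0 K3 K E qM hM QF kF hF G dd W W' QB kB hB qB b rho be be2 L g g2 G' G2 : ℝ}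

section own

variable {S1 S2 : Finset ℤ} (h : KH26 M F B L3 A C D C' D' c d mu mu' K0 K E qM dd qB hB b rho be g G' W)
include h

open Classical in
/-- The paths which do not go through the cells of the two entrances. -/
theorem kh_off2 {a : ℤ} (ha : a ∈ A) (x : ℤ) :
    ∑ u ∈ S1.filter (fun u => ¬ (u ∈ C ∨ u ∈ C')), ∑ v ∈ S2, M a u * F u v * B v x ≤
      (S1.card * S2.card : ℝ) * (Real.exp (-(G' * E)) * Nn M c W a) := by
  have hN := (h.Npos ha).le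
  have hE := h.E0
  obtain ⟨q1, q2, q3, q4, q5, q6, q7⟩ := h.q0
  calc ∑ u ∈ S1.filter (fun u => ¬ (u ∈ C ∨ u ∈ C')), ∑ v ∈ S2, M a u * F u v * B v x
      ≤ ∑ _u ∈ S1.filter (fun u => ¬ (u ∈ C ∨ u ∈ C')), ∑ _v ∈ S2, Real.exp (-(G' * E)) * Nn M c W a := by
        refine sum_le_sum fun u hu => sum_le_sum fun v _ => ?_
        rw [mem_filter] at hu
        refine (h.RW a ha u v (fun h1 => hu.2 (Or.inl h1.1)) (fun h1 => hu.2 (Or.inr h1.1)) x).trans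
          (mul_le_mul_of_nonneg_right (Real.exp_le_exp.2 ?_) hN)
        have := mul_nonneg (mul_nonneg q6 (abs_nonneg (L3 x))) hE.le
        linarith
    _ = ((S1.filter (fun u => ¬ (u ∈ C ∨ u ∈ C'))).card * S2.card : ℝ) * (Real.exp (-(G' * E)) * Nn M c W a) := by
        rw [sum_const, sum_const, nsmul_eq_mul, nsmul_eq_mul]
        ring
    _ ≤ _ := by
        refine mul_le_mul_of_nonneg_right ?_ (mul_nonneg (Real.exp_pos _).le hN)
        refine mul_le_mul_of_nonneg_right ?_ (Nat.cast_nonneg _)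
        exact_mod_cast card_filter_le _ _

/-- **RANK ONE FROM THE CELL TO THE WHOLE WINDOW**, the first kernel of rank one to both entrances. -/
theorem kh_cr2 (hc : c ∈ S1) (hd : d ∈ S2) {ε τ : ℝ} (hε : 0 ≤ ε) (hτ : 0 ≤ τ)
    (hr : ∀ a ∈ A, ∀ a' ∈ A, ∀ u, u ∈ C ∨ u ∈ C' → ∀ u', u' ∈ C ∨ u' ∈ C' → M a u * M a' u' ≤ (1 + ε) * (M a u' * M a' u))
    (ht : (S1.card * S2.card : ℝ) * Real.exp ((b - G') * E) ≤ τ) {a a' x x' : ℤ} (ha : a ∈ A) (ha' : a' ∈ A)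
    (hx : |L3 x| ≤ K) (hx' : |L3 x'| ≤ K) :
    CR (K3k M F B S1 S2) a a' x x' ≤ (1 + τ) ^ 2 * (1 + ε) := by
  classical
  obtain ⟨Q, hQ⟩ : ∃ Q : ℤ → ℤ → ℝ, Q = fun u x => ∑ v ∈ S2, F u v * B v x := ⟨_, rfl⟩
  have hQ0 : ∀ u x, 0 ≤ Q u x := fun u x => by rw [hQ]; exact sum_nonneg fun v _ => mul_nonneg (h.nF _ _) (h.nB _ _)
  have hKQ : ∀ a x, K3k M F B S1 S2 a x = ∑ u ∈ S1, M a u * Q u x := by
    intro a x
    unfold K3k
    rw [hQ]
    refine sum_congr rfl fun u _ => ?_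
    rw [mul_sum]
    exact sum_congr rfl fun v _ => by ring
  obtain ⟨Mn, hMn⟩ : ∃ Mn : ℤ → ℤ → ℝ, Mn = fun a x => ∑ u ∈ S1.filter (fun u => u ∈ C ∨ u ∈ C'), M a u * Q u x := ⟨_, rfl⟩
  have hM0 : ∀ a x, 0 ≤ Mn a x := fun a x => by rw [hMn]; exact sum_nonneg fun u _ => mul_nonneg (h.nM _ _) (hQ0 _ _)
  have hMK : ∀ a x, Mn a x ≤ K3k M F B S1 S2 a x := fun a x => by
    rw [hKQ, hMn]
    exact sum_le_sum_of_subset_of_nonneg (filter_subset _ _) fun u _ _ => mul_nonneg (h.nM _ _) (hQ0 _ _)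
  -- the main part carries everything
  have up : ∀ a ∈ A, ∀ x, |L3 x| ≤ K → K3k M F B S1 S2 a x ≤ (1 + τ) * Mn a x := by
    intro a ha x hx
    have hN := (h.Npos ha).le
    have e1 : K3k M F B S1 S2 a x = Mn a x + ∑ u ∈ S1.filter (fun u => ¬ (u ∈ C ∨ u ∈ C')), ∑ v ∈ S2, M a u * F u v * B v x := by
      rw [hKQ, hMn, ← sum_filter_add_sum_filter_not S1 (fun u => u ∈ C ∨ u ∈ C')]
      congr 1
      refine sum_congr rfl fun u _ => ?_
      rw [hQ, mul_sum]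
      exact sum_congr rfl fun v _ => by ring
    have e2 := kh_off2 (S1 := S1) (S2 := S2) h ha x
    have e3 : Real.exp (-(b * E)) * Nn M c W a ≤ Mn a x := by
      have h1 := single_le_sum (f := fun u => M a u * Q u x) (s := S1.filter (fun u => u ∈ C ∨ u ∈ C'))
        (fun u _ => mul_nonneg (h.nM _ _) (hQ0 _ _)) (mem_filter.2 ⟨hc, Or.inl h.cC⟩)
      have h2 : F c d * B d x ≤ Q c x := by
        rw [hQ]
        exact single_le_sum (f := fun v => F c v * B v x) (fun v _ => mul_nonneg (h.nF _ _) (h.nB _ _)) hd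
      have h3 := mul_le_mul h.WF (h.Blo x hx) (Real.exp_pos _).le (h.nF _ _)
      have h4 := mul_le_mul_of_nonneg_left (h3.trans h2) (h.nM a c)
      rw [hMn]
      refine le_trans ?_ h1
      unfold Nn
      linarith
    have e4 : (S1.card * S2.card : ℝ) * (Real.exp (-(G' * E)) * Nn M c W a) ≤ τ * Mn a x := by
      have h1 : Real.exp (-(G' * E)) = Real.exp ((b - G') * E) * Real.exp (-(b * E)) := by
        rw [← Real.exp_add]
        congr 1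
        ring
      rw [h1]
      calc (S1.card * S2.card : ℝ) * (Real.exp ((b - G') * E) * Real.exp (-(b * E)) * Nn M c W a)
          = ((S1.card * S2.card : ℝ) * Real.exp ((b - G') * E)) * (Real.exp (-(b * E)) * Nn M c W a) := by ring
        _ ≤ τ * (Real.exp (-(b * E)) * Nn M c W a) :=
            mul_le_mul_of_nonneg_right ht (mul_nonneg (Real.exp_pos _).le hN)
        _ ≤ τ * Mn a x := mul_le_mul_of_nonneg_left e3 hτ
    rw [e1]
    linarith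
  have pos : ∀ a ∈ A, ∀ x, |L3 x| ≤ K → 0 < K3k M F B S1 S2 a x := fun a ha x hx =>
    lt_of_lt_of_le (mul_pos (h.Npos ha) (lt_of_lt_of_le (Real.exp_pos _) (h.Blo x hx))) (kh_low h hc hd a x)
  -- the main part is of rank one
  have rk : Mn a x * Mn a' x' ≤ (1 + ε) * (Mn a x' * Mn a' x) := by
    rw [hMn]
    show (∑ u ∈ S1.filter (fun u => u ∈ C ∨ u ∈ C'), M a u * Q u x) * (∑ u ∈ S1.filter (fun u => u ∈ C ∨ u ∈ C'), M a' u * Q u x') ≤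
      (1 + ε) * ((∑ u ∈ S1.filter (fun u => u ∈ C ∨ u ∈ C'), M a u * Q u x') * ∑ u ∈ S1.filter (fun u => u ∈ C ∨ u ∈ C'), M a' u * Q u x)
    rw [sum_mul_sum, sum_mul_sum]
    have e1 : ∑ u ∈ S1.filter (fun u => u ∈ C ∨ u ∈ C'), ∑ v ∈ S1.filter (fun u => u ∈ C ∨ u ∈ C'), M a u * Q u x' * (M a' v * Q v x) =
        ∑ u ∈ S1.filter (fun u => u ∈ C ∨ u ∈ C'), ∑ v ∈ S1.filter (fun u => u ∈ C ∨ u ∈ C'), M a v * Q v x' * (M a' u * Q u x) := sum_comm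
    rw [e1, mul_sum]
    refine sum_le_sum fun u hu => ?_
    rw [mul_sum]
    refine sum_le_sum fun v hv => ?_
    rw [mem_filter] at hu hv
    have h5 := hr a ha a' ha' u hu.2 v hv.2
    have h6 := mul_nonneg (hQ0 u x) (hQ0 v x')
    have h7 := mul_le_mul_of_nonneg_right h5 h6
    calc M a u * Q u x * (M a' v * Q v x') = M a u * M a' v * (Q u x * Q v x') := by ring
      _ ≤ (1 + ε) * (M a v * M a' u) * (Q u x * Q v x') := h7
      _ = _ := by ring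
  have p1 := pos a ha x' hx'
  have p2 := pos a' ha' x hx
  have k1 := up a ha x hx
  have k2 := up a' ha' x' hx'
  unfold CR
  rw [div_le_iff₀ (mul_pos p1 p2)]
  have g1 : K3k M F B S1 S2 a x * K3k M F B S1 S2 a' x' ≤ (1 + τ) * Mn a x * ((1 + τ) * Mn a' x') :=
    mul_le_mul k1 k2 ((hM0 _ _).trans (hMK _ _)) (mul_nonneg (by linarith) (hM0 _ _))
  have g2 : Mn a x' * Mn a' x ≤ K3k M F B S1 S2 a x' * K3k M F B S1 S2 a' x := mul_le_mul (hMK _ _) (hMK _ _) (hM0 _ _) p1.le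
  calc K3k M F B S1 S2 a x * K3k M F B S1 S2 a' x' ≤ (1 + τ) * Mn a x * ((1 + τ) * Mn a' x') := g1
    _ = (1 + τ) ^ 2 * (Mn a x * Mn a' x') := by ring
    _ ≤ (1 + τ) ^ 2 * ((1 + ε) * (Mn a x' * Mn a' x)) := mul_le_mul_of_nonneg_left rk (by positivity)
    _ ≤ (1 + τ) ^ 2 * ((1 + ε) * (K3k M F B S1 S2 a x' * K3k M F B S1 S2 a' x)) :=
        mul_le_mul_of_nonneg_left (mul_le_mul_of_nonneg_left g2 (by linarith)) (by positivity)
    _ = _ := by ring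

end own

/-- **THE EXITS WITH THEIR OWN EXPONENT** `gx`. -/
theorem exw35 {Kr : ℤ → ℤ → ℝ} {L3 : ℤ → ℝ} {A : Set ℤ} {mu mu' E W ell g G' be hB : ℝ} (h : PT26 Kr L3 A mu mu' E W ell g G' be hB)
    {gx R K0 Kx : ℝ} (hR : 3 * R ≤ Real.exp E) {S3 X : Finset ℤ} (hS3 : (S3.card : ℝ) ≤ R) {y : ℤ} (hy : y ∈ A)
    (hz : ∀ x : ℤ, x ∉ S3 → Kr y x = 0) (hg0 : 0 ≤ ell + g) (hm : |mu| ≤ K0) (hm' : |mu'| ≤ K0) (hG : gx + 1 ≤ G')
    (hex : ell + hB * K0 + gx + 1 ≤ (hB - be) * Kx) (hX : ∀ x ∈ X, Kx ≤ |L3 x|) :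
    ∑ x ∈ X, Kr y x * Real.exp (be * |L3 x| * E) ≤ Real.exp (-(gx * E)) * W := by
  classical
  have hE := h.E0
  have hW := h.W0
  have hb0 : 0 ≤ hB := h.be0.trans h.hB0
  have e1 : ∑ x ∈ X, Kr y x * Real.exp (be * |L3 x| * E) = ∑ x ∈ X.filter (fun x => x ∈ S3), Kr y x * Real.exp (be * |L3 x| * E) := by
    symm
    refine sum_subset (filter_subset _ _) fun x hx hx' => ?_
    have hx3 : x ∉ S3 := fun hcon => hx' (mem_filter.2 ⟨hx, hcon⟩)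
    rw [hz x hx3, zero_mul]
  have hcd : (((X.filter (fun x => x ∈ S3)).card : ℕ) : ℝ) ≤ R := by
    refine le_trans ?_ hS3
    exact_mod_cast card_le_card fun x hx => (mem_filter.1 hx).2
  have far : ∀ x : ℤ, Kx ≤ |L3 x| → ∀ m : ℝ, |m| ≤ K0 → ell + be * |L3 x| + gx + 1 ≤ hB * |L3 x - m| := by
    intro x hx m hmm
    have g2 := abs_sub_abs_le_abs_sub (L3 x) m
    have g3 : hB * (|L3 x| - K0) ≤ hB * |L3 x - m| := mul_le_mul_of_nonneg_left (by linarith) hb0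
    have g4 : (hB - be) * Kx ≤ (hB - be) * |L3 x| := mul_le_mul_of_nonneg_left hx (by linarith [h.hB0])
    linarith
  have key : ∀ x ∈ X.filter (fun x => x ∈ S3), Kr y x * Real.exp (be * |L3 x| * E) ≤ 3 * Real.exp (-((gx + 1) * E)) * W := by
    intro x hx
    have hx' := hX x (mem_filter.1 hx).1
    have hx1 := far x hx' mu hm
    have hx2 := far x hx' mu' hm'
    have h1 := mul_le_mul_of_nonneg_right (h.pt y hy x) (Real.exp_pos (be * |L3 x| * E)).le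
    refine h1.trans ?_
    have h2 : Real.exp ((ell - hB * |L3 x - mu|) * E) * Real.exp (be * |L3 x| * E) ≤ Real.exp (-((gx + 1) * E)) := by
      rw [← Real.exp_add, ← add_mul]
      refine Real.exp_le_exp.2 ?_
      rw [← neg_mul]
      refine mul_le_mul_of_nonneg_right ?_ hE.le
      linarith
    have h3 : Real.exp ((-G' - be * |L3 x|) * E) * Real.exp (be * |L3 x| * E) ≤ Real.exp (-((gx + 1) * E)) := by
      rw [← Real.exp_add, ← add_mul]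
      refine Real.exp_le_exp.2 ?_
      rw [← neg_mul]
      refine mul_le_mul_of_nonneg_right ?_ hE.le
      linarith
    have h4 : Real.exp ((-g - hB * |L3 x - mu'|) * E) * Real.exp (be * |L3 x| * E) ≤ Real.exp (-((gx + 1) * E)) := by
      rw [← Real.exp_add, ← add_mul]
      refine Real.exp_le_exp.2 ?_
      rw [← neg_mul]
      refine mul_le_mul_of_nonneg_right ?_ hE.le
      linarith
    calc (Real.exp ((ell - hB * |L3 x - mu|) * E) + Real.exp ((-g - hB * |L3 x - mu'|) * E) + Real.exp ((-G' - be * |L3 x|) * E)) * W *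
          Real.exp (be * |L3 x| * E)
        = (Real.exp ((ell - hB * |L3 x - mu|) * E) * Real.exp (be * |L3 x| * E) +
          Real.exp ((-g - hB * |L3 x - mu'|) * E) * Real.exp (be * |L3 x| * E) +
          Real.exp ((-G' - be * |L3 x|) * E) * Real.exp (be * |L3 x| * E)) * W := by ring
      _ ≤ _ := mul_le_mul_of_nonneg_right (by linarith) hW.le
  rw [e1]
  calc ∑ x ∈ X.filter (fun x => x ∈ S3), Kr y x * Real.exp (be * |L3 x| * E)
      ≤ ∑ _x ∈ X.filter (fun x => x ∈ S3), 3 * Real.exp (-((gx + 1) * E)) * W := sum_le_sum key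
    _ = ((X.filter (fun x => x ∈ S3)).card : ℝ) * (3 * Real.exp (-((gx + 1) * E)) * W) := by rw [sum_const, nsmul_eq_mul]
    _ ≤ R * (3 * Real.exp (-((gx + 1) * E)) * W) := mul_le_mul_of_nonneg_right hcd (by positivity)
    _ = 3 * R * (Real.exp (-((gx + 1) * E)) * W) := by ring
    _ ≤ Real.exp E * (Real.exp (-((gx + 1) * E)) * W) := mul_le_mul_of_nonneg_right hR (by positivity)
    _ = _ := by
        rw [← mul_assoc, ← Real.exp_add]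
        congr 2
        ring

/-- **THE OUTPUT OF THE BUFFER**, the first kernel of rank one to both entrances, exits with the exponent `gx`. -/
theorem outK35 {A1 A2 C1 C2 D1 D2 : Set ℤ} {c1 c2 d1 d2 : ℤ} {mu1 mu2 W1 W2 : ℝ} {S1 S2 S3 : Finset ℤ} {a1 b1 a2 b2 xa xb s0 : ℤ}
    (h1 : KH26 M F B L3 A1 C1 D1 C2 D2 c1 d1 mu1 mu2 K0 K E qM dd qB hB b rho be g G' W1)
    (h2 : KH26 M F B L3 A2 C2 D2 C1 D1 c2 d2 mu2 mu1 K0 K E qM dd qB hB b rho be g G' W2)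
    (hWa : W2 ≤ Real.exp (dd * E) * W1) (hWb : W1 ≤ Real.exp (dd * E) * W2)
    {b' Kx sg R g' G1 go gx ell ell0 : ℝ} (hc1 : c1 ∈ S1) (hd1 : d1 ∈ S2) (hc2 : c2 ∈ S1) (hd2 : d2 ∈ S2)
    (hR : (S1.card * S2.card : ℝ) ≤ R) (hR3 : (S3.card : ℝ) ≤ R) (hRE : 3 * R ≤ Real.exp E) (hE2 : 3 ≤ Real.exp E)
    (hl : 3 * qM + 2 * dd + qB + hB * rho + 1 ≤ ell) (hl2 : b' + qM + dd ≤ ell + 1) (hl0 : b + qM + dd ≤ ell0)
    (hgg : g' + qM + dd + 1 ≤ g) (hGG : G1 + qM + dd + 1 ≤ G') (hgo : go + 1 + be * K0 ≤ g') (hGo : go + 1 ≤ G1) (hgo0 : 0 ≤ go)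
    (hgx : go ≤ gx) (hGx : gx + 1 ≤ G1) (hex : ell + hB * K0 + gx + 1 ≤ (hB - be) * Kx) (hsp : ell + be * K0 + go + 1 ≤ (hB - be) * sg)
    (hy1 : ∀ y : ℤ, a1 ≤ y → y ≤ b1 → y ∈ A1) (hy2 : ∀ y : ℤ, a2 ≤ y → y ≤ b2 → y ∈ A2) (ha1 : a1 ≤ b1) (ha2 : a2 ≤ b2)
    (hxx : xa ≤ xb) (hwin : ∀ x : ℤ, xa ≤ x → x ≤ xb → |L3 x| ≤ K) (hxa : ∀ x : ℤ, x < xa → Kx ≤ |L3 x|)
    (hxb : ∀ x : ℤ, xb < x → Kx ≤ |L3 x|) (hs1 : ∀ x : ℤ, s0 < x → sg ≤ |L3 x - mu1|) (hs2 : ∀ x : ℤ, x ≤ s0 → sg ≤ |L3 x - mu2|)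
    (hS1 : ∀ y ∈ A1, ∀ x : ℤ, x ∉ S3 → K3k M F B S1 S2 y x = 0) (hS2 : ∀ y ∈ A2, ∀ x : ℤ, x ∉ S3 → K3k M F B S1 S2 y x = 0) {Kc : ℝ}
    (hb1 : ∀ x : ℤ, |L3 x - mu1| ≤ Kc → Real.exp (-(b' * E)) ≤ B d1 x)
    (hb2 : ∀ x : ℤ, |L3 x - mu2| ≤ Kc → Real.exp (-(b' * E)) ≤ B d2 x)
    {ε τ δ : ℝ} (hε : 0 ≤ ε) (hτ : 0 ≤ τ)
    (hr1 : ∀ a ∈ A1, ∀ a' ∈ A1, ∀ u, u ∈ C1 ∨ u ∈ C2 → ∀ u', u' ∈ C1 ∨ u' ∈ C2 → M a u * M a' u' ≤ (1 + ε) * (M a u' * M a' u))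
    (hr2 : ∀ a ∈ A2, ∀ a' ∈ A2, ∀ u, u ∈ C1 ∨ u ∈ C2 → ∀ u', u' ∈ C1 ∨ u' ∈ C2 → M a u * M a' u' ≤ (1 + ε) * (M a u' * M a' u))
    (ht : (S1.card * S2.card : ℝ) * Real.exp ((b - G') * E) ≤ τ) (hδ : (1 + τ) ^ 2 * (1 + ε) ≤ 1 + δ) :
    BufO26 (K3k M F B S1 S2) L3 E mu1 mu2 a1 b1 a2 b2 xa xb s0 W1 δ (ell + 1) ell0 Kc be go ∧
    ∀ y : ℤ, y ∈ A1 ∨ y ∈ A2 → ∀ X : Finset ℤ, (∀ x ∈ X, Kx ≤ |L3 x|) →
      ∑ x ∈ X, K3k M F B S1 S2 y x * Real.exp (be * |L3 x| * E) ≤ Real.exp (-(gx * E)) * W1 := by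
  have hE := h1.E0
  have hW1 := h1.W0
  obtain ⟨q1, q2, q3, q4, q5, q6, q7⟩ := h1.q0
  have hWc : W1 ≤ Real.exp (dd * E) * W1 := by
    have : (1 : ℝ) ≤ Real.exp (dd * E) := Real.one_le_exp (mul_nonneg q2 hE.le)
    nlinarith
  have pt1 : ∀ y ∈ A1, ∀ x : ℤ, _ := fun y hy x => kh_pt (S1 := S1) (S2 := S2) h1 hR hRE hWc hl hgg hGG hy x
  have pt2 : ∀ y ∈ A2, ∀ x : ℤ, _ := fun y hy x => kh_pt (S1 := S1) (S2 := S2) h2 hR hRE hWa hl hgg hGG hy x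
  have nn : ∀ y x, 0 ≤ K3k M F B S1 S2 y x := fun y x => by
    unfold K3k
    exact sum_nonneg fun u _ => sum_nonneg fun v _ => mul_nonneg (mul_nonneg (h1.nM _ _) (h1.nF _ _)) (h1.nB _ _)
  have P1 : PT26 (K3k M F B S1 S2) L3 A1 mu1 mu2 E W1 ell g' G1 be hB := ⟨hE, hW1, nn, pt1, q6, h1.n3⟩
  have P2 : PT26 (K3k M F B S1 S2) L3 A2 mu2 mu1 E W1 ell g' G1 be hB := ⟨hE, hW1, nn, pt2, q6, h1.n3⟩
  have hell : 0 ≤ ell := by
    have := mul_nonneg q4 q5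
    linarith
  have hbK : 0 ≤ be * K0 := mul_nonneg q6 q7
  -- lower bounds
  have low : ∀ {A : Set ℤ} {C D C' D' : Set ℤ} {c d : ℤ} {mu mu' W : ℝ}
      (h : KH26 M F B L3 A C D C' D' c d mu mu' K0 K E qM dd qB hB b rho be g G' W)
      (_ : W1 ≤ Real.exp (dd * E) * W) (_ : c ∈ S1) (_ : d ∈ S2) (t e : ℝ) (y x : ℤ), y ∈ A → t + qM + dd ≤ e →
      Real.exp (-(t * E)) ≤ B d x → Real.exp (-(e * E)) * W1 ≤ K3k M F B S1 S2 y x := by
    intro A C D C' D' c d mu mu' W h hW hc hd t e y x hy hte hx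
    have g0 : Real.exp (-((qM + dd) * E)) * W1 ≤ Nn M c W y := by
      refine le_trans ?_ (h.Nge hy)
      have g1 := mul_le_mul_of_nonneg_left hW (Real.exp_pos (-((qM + dd) * E))).le
      refine g1.trans (le_of_eq ?_)
      rw [← mul_assoc, ← Real.exp_add]
      congr 2
      ring
    have g1 := mul_le_mul g0 hx (Real.exp_pos _).le (h.Npos hy).le
    refine le_trans ?_ (g1.trans (kh_low h hc hd y x))
    rw [mul_assoc, mul_comm W1, ← mul_assoc, ← Real.exp_add]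
    refine mul_le_mul_of_nonneg_right (Real.exp_le_exp.2 ?_) hW1.le
    have := mul_le_mul_of_nonneg_right hte hE.le
    linarith
  have ex : ∀ {A : Set ℤ} {mu mu' : ℝ}, PT26 (K3k M F B S1 S2) L3 A mu mu' E W1 ell g' G1 be hB → |mu| ≤ K0 → |mu'| ≤ K0 →
      (∀ y ∈ A, ∀ x : ℤ, x ∉ S3 → K3k M F B S1 S2 y x = 0) → ∀ y ∈ A, ∀ X : Finset ℤ, (∀ x ∈ X, Kx ≤ |L3 x|) →
      ∑ x ∈ X, K3k M F B S1 S2 y x * Real.exp (be * |L3 x| * E) ≤ Real.exp (-(go * E)) * W1 := by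
    intro A mu mu' P hm hm' hS y hy X hX
    have hgm : go + 1 + be * |mu'| ≤ g' := by linarith [mul_le_mul_of_nonneg_left hm' q6]
    refine P.wex hRE hR3 hy (hS y hy) hgm hGo fun x hx => ?_
    have g1 := hX x hx
    have g2 := abs_sub_abs_le_abs_sub (L3 x) mu
    have g3 : hB * (|L3 x| - K0) ≤ hB * |L3 x - mu| := mul_le_mul_of_nonneg_left (by linarith) q4
    have g4 : (hB - be) * Kx ≤ (hB - be) * |L3 x| := mul_le_mul_of_nonneg_left g1 (by linarith [h1.n3])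
    linarith
  have sp : ∀ {A : Set ℤ} {mu mu' : ℝ}, PT26 (K3k M F B S1 S2) L3 A mu mu' E W1 ell g' G1 be hB → |mu| ≤ K0 → |mu'| ≤ K0 →
      (∀ y ∈ A, ∀ x : ℤ, x ∉ S3 → K3k M F B S1 S2 y x = 0) → ∀ y ∈ A, ∀ X : Finset ℤ, (∀ x ∈ X, sg ≤ |L3 x - mu|) →
      ∑ x ∈ X, K3k M F B S1 S2 y x * Real.exp (be * |L3 x| * E) ≤ Real.exp (-(go * E)) * W1 := by
    intro A mu mu' P hm hm' hS y hy X hX
    have hgm : go + 1 + be * |mu'| ≤ g' := by linarith [mul_le_mul_of_nonneg_left hm' q6]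
    refine P.wex hRE hR3 hy (hS y hy) hgm hGo fun x hx => ?_
    have g1 := hX x hx
    have g2 : |L3 x| ≤ |L3 x - mu| + K0 := by
      have := abs_add_le (L3 x - mu) mu
      rw [sub_add_cancel] at this
      linarith
    have g3 : be * |L3 x| ≤ be * (|L3 x - mu| + K0) := mul_le_mul_of_nonneg_left g2 q6
    have g4 : (hB - be) * sg ≤ (hB - be) * |L3 x - mu| := mul_le_mul_of_nonneg_left g1 (by linarith [h1.n3])
    linarith
  have hr2' : ∀ a ∈ A2, ∀ a' ∈ A2, ∀ u, u ∈ C2 ∨ u ∈ C1 → ∀ u', u' ∈ C2 ∨ u' ∈ C1 → M a u * M a' u' ≤ (1 + ε) * (M a u' * M a' u) :=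
    fun a ha a' ha' u hu u' hu' => hr2 a ha a' ha' u hu.symm u' hu'.symm
  have hlg : 0 ≤ ell + g' := by linarith
  refine ⟨⟨?_, ?_, fun y g1 g2 x hx => ?_, fun y g1 g2 x hx => ?_, fun y hy x g1 g2 => ?_, fun y hy x => ?_,
    fun y hy X hX => ?_, fun y hy X hX => ?_, fun y g1 g2 X hX => ?_, fun y g1 g2 X hX => ?_⟩, fun y hy X hX => ?_⟩
  · exact (kh_cr2 h1 hc1 hd1 hε hτ hr1 ht (hy1 _ le_rfl ha1) (hy1 _ ha1 le_rfl) (hwin _ le_rfl hxx) (hwin _ hxx le_rfl)).trans hδ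
  · exact (kh_cr2 h2 hc2 hd2 hε hτ hr2' ht (hy2 _ le_rfl ha2) (hy2 _ ha2 le_rfl) (hwin _ le_rfl hxx) (hwin _ hxx le_rfl)).trans hδ
  · exact low h1 hWc hc1 hd1 b' (ell + 1) y x (hy1 y g1 g2) hl2 (hb1 x hx)
  · exact low h2 hWb hc2 hd2 b' (ell + 1) y x (hy2 y g1 g2) hl2 (hb2 x hx)
  · rcases hy with hy | hy
    · exact low h1 hWc hc1 hd1 b ell0 y x (hy1 y hy.1 hy.2) hl0 (h1.Blo x (hwin x g1 g2))
    · exact low h2 hWb hc2 hd2 b ell0 y x (hy2 y hy.1 hy.2) hl0 (h2.Blo x (hwin x g1 g2))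
  · rcases hy with hy | hy
    · exact P1.up (by linarith) (by linarith) hE2 (hy1 y hy.1 hy.2) x
    · exact P2.up (by linarith) (by linarith) hE2 (hy2 y hy.1 hy.2) x
  · rcases hy with hy | hy
    · exact ex P1 h1.mK h1.mK' hS1 y (hy1 y hy.1 hy.2) X fun x hx => hxa x (hX x hx)
    · exact ex P2 h2.mK h2.mK' hS2 y (hy2 y hy.1 hy.2) X fun x hx => hxa x (hX x hx)
  · rcases hy with hy | hy
    · exact ex P1 h1.mK h1.mK' hS1 y (hy1 y hy.1 hy.2) X fun x hx => hxb x (hX x hx)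
    · exact ex P2 h2.mK h2.mK' hS2 y (hy2 y hy.1 hy.2) X fun x hx => hxb x (hX x hx)
  · exact sp P1 h1.mK h1.mK' hS1 y (hy1 y g1 g2) X fun x hx => hs1 x (hX x hx)
  · exact sp P2 h2.mK h2.mK' hS2 y (hy2 y g1 g2) X fun x hx => hs2 x (hX x hx)
  · rcases hy with hy | hy
    · exact exw35 P1 hRE hR3 hy (hS1 y hy) hlg h1.mK h1.mK' hGx hex hX
    · exact exw35 P2 hRE hR3 hy (hS2 y hy) hlg h2.mK h2.mK' hGx hex hX

end

end Pool.Agent.W_7d29a1_C1.B26
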