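import Pool.Agent.W_7d29a1_C1.FrcP26

/-!
MP_7d29a1_pr, [C1] THE BUFFER OF THE FRESH BALL, SECOND FORM: the lanes `StF26` (from `TslP26`) and the typical rows `StC26`. (helper3, over
FrbM26, FrbJ26, FrbB26 of helper26)
-/

set_option autoImplicit false

namespace Pool.Agent.W_7d29a1_C1.B26

open MeasureTheory ProbabilityTheory Filter Topology Finset
open Pool.Agent.W_7d29a1_F Pool.Agent.W_7d29a1_h4g Pool.Agent.W_7d29a1_H Pool.Agent.W_7d29a1_HS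
open Pool.Agent.W_7d29a1_C1
open Pool.Agent.W_7d29a1_C1.Basin76
open Pool.Agent.W_7d29a1_C1.U16 (fq16 fq16_one fq16_mono lat16 Far16 far_low far_prob Far16_meas Far16_rows)

noncomputable section

variable {μ : Measure ℝ} {s c C : ℝ} {n₀ : ℕ}

/-- **THE LANES.** -/
theorem stF26 [IsProbabilityMeasure μ] (h : In μ s c C n₀) (hT : TslP26 μ s c) : StF26 μ s c := by
  intro K0 del dd be g2 L th hM qM hK0 hdel hdd hbe hg2 hL hth hM0 hqM
  have hc0 := h.c0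
  obtain ⟨PT, hPT⟩ := hT
  obtain ⟨κ, qF, hκ, hqF, hTK⟩ := hPT (K0 + 1) del dd th L (by linarith) hdel hdd hth
  obtain ⟨MF, hMF, hMF'⟩ := fq_small26 PT (ε := c / (16 * (qF + 1) * 1)) (by positivity)
  obtain ⟨QF, hQF⟩ : ∃ x : ℝ, x = c / 8 + qF * MF := ⟨_, rfl⟩
  have hQF0 : 0 ≤ QF := by rw [hQF]; positivity
  have kF : ∀ t : ℝ, 0 ≤ t → qF * fq16 PT (t + 2) ≤ QF + c / 16 * t := by
    intro t ht
    have := kG26 hc0 hqF le_rfl hMF' t ht
    rw [mul_one] at this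
    rw [hQF]
    exact this
  refine ⟨QF, qF, PT, hQF0, hqF, kF, fun G2 hG2 => ?_⟩
  have hG20 : 0 ≤ G2 := hg2.trans hG2
  obtain ⟨K3, hK3⟩ : ∃ x : ℝ, x = (K0 + 1) + 2 * (G2 + (2 * qM + QF + (c / 16 + be) * (K0 + 1))) / hM := ⟨_, rfl⟩
  obtain ⟨G, hG⟩ : ∃ x : ℝ, x = 2 * (G2 + (2 * qM + QF / 2 + (c / 16 + be) * (K0 + 1))) := ⟨_, rfl⟩
  have hG0 : 0 ≤ G := by rw [hG]; positivity
  have hK3K : K0 + 1 ≤ K3 := by
    rw [hK3]
    have : 0 ≤ 2 * (G2 + (2 * qM + QF + (c / 16 + be) * (K0 + 1))) / hM := by positivity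
    linarith
  obtain ⟨c₁, Q, n3, hc₁, hQ, hn3, hsl⟩ := hTK (K3 + 1) (by linarith) G hG0
  obtain ⟨N1, hN1⟩ := th26 h hth (K0 + 1)
  refine ⟨K3, G, c₁, Q, n3 + N1 + 1, hc₁, hQ, by omega, hK3K, ⟨?_, ?_⟩, fun k hk T hTT => ?_⟩
  · rw [hG]
    linarith
  · rw [hK3]
    have e1 : hM / 2 * (K0 + 1 + 2 * (G2 + (2 * qM + QF + (c / 16 + be) * (K0 + 1))) / hM - (K0 + 1)) =
      G2 + (2 * qM + QF + (c / 16 + be) * (K0 + 1)) := by field_simp; ring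
    rw [e1]
  have hkT : k ≤ T := by rw [hTT]; exact Nat.le_mul_of_pos_left k hQ
  obtain ⟨r, hr1, hr2, hlan⟩ := hsl k (by omega)
  rw [← hTT] at hr1 hr2 hlan
  have thT := hN1 T (by omega)
  have hwT2 := thT.w2
  have hwT0 : 0 < wd μ s T := by linarith
  have hr0 : 0 ≤ r := le_trans (by positivity) hr1
  refine ⟨r, hr0, hr2, fun n1 u t hu ht hsep hset => ?_⟩
  have hcp := cp26_near (sl μ s) 0 n1
  obtain ⟨e, he⟩ : ∃ e : Bool → ℤ, e = fun i => t i - cp26 (sl μ s) 0 n1 := ⟨_, rfl⟩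
  obtain ⟨SF, mF, oF, pF, hSF⟩ := hlan u e (fun i => (hu i).trans (mul_le_mul_of_nonneg_right (by linarith) hwT0.le)) (fun i => by
      rw [he]
      have e1 : ((t i - cp26 (sl μ s) 0 n1 : ℤ) : ℝ) - sl μ s * T =
        ((t i : ℝ) - sl μ s * (n1 + T : ℕ)) - ((cp26 (sl μ s) 0 n1 : ℝ) - (0 : ℤ) - sl μ s * n1) := by
        push_cast
        ring
      show |((t i - cp26 (sl μ s) 0 n1 : ℤ) : ℝ) - sl μ s * T| ≤ (K0 + 1) * wd μ s T
      rw [e1]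
      refine (abs_sub _ _).trans ?_
      linarith [ht i]) hsep (by
      rw [he]
      push_cast
      linarith)
  obtain ⟨bF, hbF⟩ : ∃ b : Pt, b = ((n1 : ℤ), cp26 (sl μ s) 0 n1) := ⟨_, rfl⟩
  have mF' := meas_atR26 bF mF
  have oF' := on_atR26 bF oF
  have pF' : c₁ ≤ (law μ).real (atR26 bF SF) := by rw [real_atR26 (μ := μ) bF mF]; exact pF
  have hbF1 : bF.1 = n1 := by rw [hbF]
  rw [hbF1] at oF'
  refine ⟨atR26 bF SF, mF', oF', pF', fun η ηF => ?_⟩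
  have cF := hSF bF η ηF
  rw [hbF] at cF
  have ec : ∀ i : Bool, cp26 (sl μ s) 0 n1 + u i = cp26 (sl μ s) (u i) n1 := fun i => cp26_add _ _ _
  have ed : ∀ i : Bool, cp26 (sl μ s) 0 n1 + e i = t i := fun i => by
    rw [he]
    ring
  refine ⟨fun i => ?_, fun x y hx hxy => ?_, fun i x y hx hy => ?_, ?_, cF.lev⟩
  · have g := cF.low i
    simp only [ec, ed] at g
    exact g
  · have g := cF.off x y hx fun j hj => hxy j (by
      simp only [ec, ed] at hj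
      exact hj)
    exact g
  · have g := cF.cel i x y (by simp only [ec]; exact hx) (by simp only [ed]; exact hy)
    simp only [ec, ed] at g
    exact g
  · have g := cF.dif
    simp only [ec, ed] at g
    exact g

/-- **THE TYPICAL ROWS.** -/
theorem stC26 [IsProbabilityMeasure μ] (h : In μ s c C n₀) : StC26 μ s c := by
  intro eps heps
  have hc0 := h.c0
  obtain ⟨P, A0, a0, gg, hA0, ha0, hgg, hgg1, nf, hnf, hfar0⟩ := far_prob h (K := 3) (θ := 1) (by norm_num) one_pos le_rfl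
  obtain ⟨tt, htt⟩ : ∃ x : ℝ, x = min (1 / 16) (eps / 4) := ⟨_, rfl⟩
  have htt0 : 0 < tt := by rw [htt]; positivity
  have htt2 : tt ≤ eps / 4 := by rw [htt]; exact min_le_right _ _
  obtain ⟨q, hq0, hqp⟩ := level26 hA0 ha0 hgg htt0
  have hfar : ∀ m, nf ≤ m → ∀ b : Pt, (law μ).real (Far16 μ s c 1 3 m m P b q)ᶜ ≤ tt := fun m hm b =>
    (hfar0 m hm m le_rfl b q hq0).trans hqp
  refine ⟨P, q, q * fq16 P 2, hq0, mul_nonneg hq0 (by linarith [fq16_one P 2]), le_rfl, fun K0 hB J0 hK0 hB0 => ?_⟩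
  obtain ⟨nl, hlow⟩ := far_low h (K := 3) (θ := 1) le_rfl one_pos
  obtain ⟨j0, n2, hj0, hn2, hsc⟩ := sc26 h (M := hB / c) (by positivity)
  obtain ⟨j2, hj2⟩ : ∃ j : ℕ, j = max j0 ⌈J0⌉₊ := ⟨_, rfl⟩
  have hj20 : j0 ≤ j2 := by rw [hj2]; exact le_max_left _ _
  have hj21 : 1 ≤ j2 := hj0.trans hj20
  have hj2J : J0 ≤ j2 := by
    have h1 := Nat.le_ceil J0
    have h2 : ⌈J0⌉₊ ≤ j2 := by rw [hj2]; exact le_max_right _ _
    have h3 : ((⌈J0⌉₊ : ℕ) : ℝ) ≤ j2 := by exact_mod_cast h2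
    linarith
  have hj2R : (1 : ℝ) ≤ j2 := by exact_mod_cast hj21
  obtain ⟨MB, hMB, hMB'⟩ := fq_small26 P (ε := c / (16 * (q + 1) * (2 * j2))) (by positivity)
  obtain ⟨QB, hQB⟩ : ∃ x : ℝ, x = c / 8 + q * MB := ⟨_, rfl⟩
  have hQB0 : 0 ≤ QB := by rw [hQB]; positivity
  refine ⟨j2, QB, hj21, hj2J, hQB0, fun K hK => ?_⟩
  obtain ⟨Kb, hKb⟩ : ∃ x : ℝ, x = (K + K0) * (2 * j2) + 3 := ⟨_, rfl⟩
  have hKb3 : 3 ≤ Kb := by
    rw [hKb]
    have : 0 ≤ (K + K0) * (2 * j2) := by positivity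
    linarith
  obtain ⟨Pw, Aw, aw, gw, hAw, haw, hgw, hgw1, nw, hnw, hfarw⟩ := far_prob h (K := Kb) (θ := 1) (by linarith) one_pos le_rfl
  obtain ⟨qw, hqw0, hqwp⟩ := level26 hAw haw hgw htt0
  obtain ⟨nlw, hloww⟩ := far_low h (K := Kb) (θ := 1) hKb3 one_pos
  obtain ⟨b, hb⟩ : ∃ x : ℝ, x = qw * fq16 Pw (K0 * (2 * j2) + 2) := ⟨_, rfl⟩
  have hb0 : 0 ≤ b := by
    rw [hb]
    exact mul_nonneg hqw0 (by linarith [fq16_one Pw (K0 * (2 * j2) + 2)])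
  obtain ⟨N1, hN1⟩ := th26 h (th := 1) one_pos 1
  refine ⟨b, nf + nl + n2 + nw + nlw + N1 + 1, hb0, fun nB T hnB hT th hth0 hth => ?_⟩
  have hBT : nB ≤ T := by rw [hT]; exact Nat.le_mul_of_pos_left nB hj21
  have thB := hN1 nB (by omega)
  have thT := hN1 T (by omega)
  have hwB2 := thB.w2
  have hwT2 := thT.w2
  have hwB0 : 0 < wd μ s nB := by linarith
  have hwT0 : 0 < wd μ s T := by linarith
  obtain ⟨-, s2E, -, s2w, s2h⟩ := hsc j2 nB hj20 (by omega)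
  rw [← hT] at s2E s2w s2h
  have sB : hB * (wd μ s nB * EE μ s T) ≤ c * (EE μ s nB * wd μ s T) := by
    have e : hB * (wd μ s nB * EE μ s T) = c * (hB / c * (EE μ s T * wd μ s nB)) := by field_simp
    rw [e]
    exact mul_le_mul_of_nonneg_left s2h hc0.le
  have tB : th * wd μ s T ≤ wd μ s nB := by
    have g1 := mul_le_mul_of_nonneg_left s2w hth0
    have g2 : th * (2 * j2) ≤ 1 := by
      rw [le_div_iff₀ (by positivity)] at hth
      linarith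
    have g3 := mul_le_mul_of_nonneg_right g2 hwB0.le
    linarith
  refine ⟨⟨by linarith, tB, s2w, s2E, sB, fun x hx => ?_⟩, fun nM t ht => ?_⟩
  · rw [hQB]
    exact kG26 hc0 hq0 (by linarith) hMB' x hx
  have hF3 : ∀ z : ℤ, EvB26 μ ((nM : ℤ) + T) ((nM : ℤ) + T + nB) (Far16 μ s c 1 3 nB nB P ((nM : ℤ) + T, z) q) tt := fun z =>
    ⟨Far16_meas _ _ _ _ _ _ _, fun η η' hh => Far16_rows hh, hfar nB (by omega) _⟩
  have hFw : ∀ z : ℤ, EvB26 μ ((nM : ℤ) + T) ((nM : ℤ) + T + nB) (Far16 μ s c 1 Kb nB nB Pw ((nM : ℤ) + T, z) qw) tt := fun z =>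
    ⟨Far16_meas _ _ _ _ _ _ _, fun η η' hh => Far16_rows hh, (hfarw nB (by omega) nB le_rfl _ qw hqw0).trans hqwp⟩
  obtain ⟨S, h1, h2, h3, h4⟩ := evtB26 (μ := μ) (s := s) (c := c) (nM := nM) (T := T) (nB := nB) (t := t) (Kb := Kb) (b := b) (K := K)
    (K0 := K0) (J := 2 * j2) (Kc := 1 / (2 * j2)) (qs := q * fq16 P 2) (hlow nB (by omega)) (hloww nB (by omega)) hF3 hFw hq0 hqw0 le_rfl hwB2 hwT2
    s2E s2w hK hK0 (by
      have : (1 : ℝ) / (2 * j2) * (2 * j2) = 1 := by field_simp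
      linarith) (by positivity) (by rw [hKb]; linarith) hb.ge ht
  exact ⟨S, h1, h2, by linarith, h4⟩

end

end Pool.Agent.W_7d29a1_C1.B26
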