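import Pool.Agent.W_7d29a1_C1.FrbS26
import Pool.Agent.W_7d29a1_C1.FrcA35

/-!
MP_7d29a1_pr, [C1] THE BUFFER OF THE FRESH BALL, two exponents for the exits: from the data `KH26` of the two lanes to the windows, the
pointwise bounds and the exits (deterministic, kernels of the model, the first kernel divided by its strength `a0`).
(helper35, over FrbH26 of helper26)
-/

set_option autoImplicit false

namespace Pool.Agent.W_7d29a1_C1.B26

open MeasureTheory ProbabilityTheory Filter Topology Finset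
open Pool.Agent.W_7d29a1_F Pool.Agent.W_7d29a1_h4g Pool.Agent.W_7d29a1_H Pool.Agent.W_7d29a1_HS
open Pool.Agent.W_7d29a1_C1
open Pool.Agent.W_7d29a1_C1.CR76 Pool.Agent.W_7d29a1_C1.Basin76

noncomputable section

variable {μ : Measure ℝ} {s c C : ℝ} {n₀ : ℕ}

/-- The exits with their own exponent. -/
def ExW35 (Kr : ℤ → ℤ → ℝ) (L3 : ℤ → ℝ) (u : Bool → ℤ) (R E Kx A be gx : ℝ) : Prop :=
  ∀ (i : Bool) (y : ℤ), |(y : ℝ) - u i| ≤ R → ∀ X : Finset ℤ, (∀ x ∈ X, Kx ≤ |L3 x|) →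
    ∑ x ∈ X, Kr y x * Real.exp (be * |L3 x| * E) ≤ Real.exp (-(gx * E)) * A

/-- Rank one from each start cell to the two cells of the entrances of the lanes. -/
def RkU35 (k : ℤ → ℤ → ℝ) (u v : Bool → ℤ) (R ρ ε : ℝ) : Prop :=
  ∀ (i : Bool) (a a' y y' : ℤ), |(a : ℝ) - u i| ≤ R → |(a' : ℝ) - u i| ≤ R →
    (|(y : ℝ) - v false| ≤ ρ ∨ |(y : ℝ) - v true| ≤ ρ) → (|(y' : ℝ) - v false| ≤ ρ ∨ |(y' : ℝ) - v true| ≤ ρ) →
    k a y * k a' y' ≤ (1 + ε) * (k a y' * k a' y)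

theorem K3k_scale35 {M F B : ℤ → ℤ → ℝ} {a0 : ℝ} (ha : 0 < a0) (S1 S2 : Finset ℤ) (y x : ℤ) :
    K3k (fun p q => a0⁻¹ * M p q) (fun p q => a0 * F p q) B S1 S2 y x = K3k M F B S1 S2 y x := by
  unfold K3k
  refine sum_congr rfl fun u _ => sum_congr rfl fun v _ => ?_
  have h1 : a0⁻¹ * a0 = 1 := inv_mul_cancel₀ ha.ne'
  calc a0⁻¹ * M y u * (a0 * F u v) * B v x = (a0⁻¹ * a0) * (M y u * F u v * B v x) := by ring
    _ = _ := by rw [h1, one_mul]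

/-- The rank one of the scaled kernel. -/
theorem RkU35.scale {k : ℤ → ℤ → ℝ} {u v : Bool → ℤ} {R ρ ε : ℝ} (h : RkU35 k u v R ρ ε) {a0 : ℝ} (ha : 0 < a0) :
    RkU35 (fun p q => a0⁻¹ * k p q) u v R ρ ε := by
  intro i a a' y y' h1 h2 h3 h4
  have h5 := h i a a' y y' h1 h2 h3 h4
  have h6 : 0 ≤ a0⁻¹ * a0⁻¹ := mul_nonneg (inv_pos.2 ha).le (inv_pos.2 ha).le
  have h7 := mul_le_mul_of_nonneg_left h5 h6
  show a0⁻¹ * k a y * (a0⁻¹ * k a' y') ≤ (1 + ε) * (a0⁻¹ * k a y' * (a0⁻¹ * k a' y))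
  calc a0⁻¹ * k a y * (a0⁻¹ * k a' y') = a0⁻¹ * a0⁻¹ * (k a y * k a' y') := by ring
    _ ≤ a0⁻¹ * a0⁻¹ * ((1 + ε) * (k a y' * k a' y)) := h7
    _ = _ := by ring

/-- **The output of the buffer, for the kernels of the model, two exponents**, from the data of the two lanes. -/
theorem detI35 {η : Env} {nM T nB : ℕ} {u v t : Bool → ℤ} {W : Bool → ℝ}
    {a0 R rho qM qB dd K b b1 Kc ε K0 hB rB be g G' g1 G1 go gx Kx ell ell0 δ del : ℝ} (ha0 : 0 < a0)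
    (D : ∀ i, KH26 (fun x y => a0⁻¹ * kW μ s η 0 nM x y) (fun x y => a0 * kW μ s η nM T x y) (kW μ s η ((nM : ℤ) + T) nB)
      (lt26 (sl μ s) (wd μ s T) (nM + T + nB)) {a | |(a : ℝ) - u i| ≤ R} {y | |(y : ℝ) - v i| ≤ rho} {y | |(y : ℝ) - t i| ≤ rho}
      {y | |(y : ℝ) - v (!i)| ≤ rho} {y | |(y : ℝ) - t (!i)| ≤ rho} (v i) (t i) (lt26 (sl μ s) (wd μ s T) (nM + T) (t i))
      (lt26 (sl μ s) (wd μ s T) (nM + T) (t (!i))) K0 K (EE μ s T) qM dd qB hB b rB be g G' (W i))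
    (hW : ∀ i, W i ≤ Real.exp (dd * EE μ s T) * W (!i)) (hwd : 0 < wd μ s T)
    (hc : ∀ (i : Bool) (y : ℤ), |(y : ℝ) - u i| ≤ R → -(T : ℤ) ≤ y ∧ y ≤ T)
    (hv : ∀ i, -(T : ℤ) ≤ v i ∧ v i ≤ T + nM) (ht : ∀ i, -(T : ℤ) ≤ t i ∧ t i ≤ T + (nM + T))
    (hm3 : RkU35 (kW μ s η 0 nM) u v R rho ε)
    (hb3 : ∀ i (x : ℤ), |lt26 (sl μ s) (wd μ s T) (nM + T + nB) x - lt26 (sl μ s) (wd μ s T) (nM + T) (t i)| ≤ Kc →
      Real.exp (-(b1 * EE μ s T)) ≤ kW μ s η ((nM : ℤ) + T) nB (t i) x)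
    (hT1 : 1 ≤ T) (hnM : nM ≤ T) (hnB : nB ≤ T) (hRE : 3 * (6 * (T : ℝ)) ^ 2 ≤ Real.exp (EE μ s T)) (hbg : b + 2 ≤ G')
    (hl : 3 * qM + 2 * dd + qB + hB * rB + 1 ≤ ell) (hl2 : b1 + qM + dd ≤ ell + 1) (hl0 : b + qM + dd ≤ ell0)
    (hg' : g1 + qM + dd + 1 ≤ g) (hG' : G1 + qM + dd + 1 ≤ G') (hgo : go + 1 + be * K0 ≤ g1) (hGo : go + 1 ≤ G1) (hgo0 : 0 ≤ go)
    (hgx : go ≤ gx) (hGx : gx + 1 ≤ G1) (hex : ell + hB * K0 + gx + 1 ≤ (hB - be) * Kx)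
    (hsp : ell + be * K0 + go + 1 ≤ (hB - be) * (del / 4)) (hε : 0 ≤ ε)
    (hδ : (1 + Real.exp (-EE μ s T)) ^ 2 * (1 + ε) ≤ 1 + δ) (hKx : 0 ≤ Kx) :
    OutW26 (kW μ s η 0 (nM + (T + nB))) (lt26 (sl μ s) (wd μ s T) (nM + T + nB)) u (fun i => lt26 (sl μ s) (wd μ s T) (nM + T) (t i))
      R (EE μ s T) K Kx del (W false) δ (ell + 1) ell0 Kc be go ∧
    PtW26 (kW μ s η 0 (nM + (T + nB))) (lt26 (sl μ s) (wd μ s T) (nM + T + nB)) u (fun i => lt26 (sl μ s) (wd μ s T) (nM + T) (t i))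
      R (EE μ s T) (W false) ell g1 G1 be hB ∧
    ExW35 (kW μ s η 0 (nM + (T + nB))) (lt26 (sl μ s) (wd μ s T) (nM + T + nB)) u R (EE μ s T) Kx (W false) be gx := by
  have hw := hwd
  have D1 := D false
  have D2 := D true
  simp only [Bool.not_false, Bool.not_true] at D1 D2
  have hE := D1.E0
  have hTr : (1 : ℝ) ≤ T := by exact_mod_cast hT1
  obtain ⟨q1, q2, q3, q4, q5, be0, q7⟩ := D1.q0
  have n3 := D1.n3
  obtain ⟨L3, hL3⟩ : ∃ L3 : ℤ → ℝ, L3 = lt26 (sl μ s) (wd μ s T) (nM + T + nB) := ⟨_, rfl⟩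
  obtain ⟨mu, hmu⟩ : ∃ m : Bool → ℝ, m = fun i => lt26 (sl μ s) (wd μ s T) (nM + T) (t i) := ⟨_, rfl⟩
  have em1 : lt26 (sl μ s) (wd μ s T) (nM + T) (t false) = mu false := by rw [hmu]
  have em2 : lt26 (sl μ s) (wd μ s T) (nM + T) (t true) = mu true := by rw [hmu]
  have hb3' : ∀ i (x : ℤ), |L3 x - mu i| ≤ Kc → Real.exp (-(b1 * EE μ s T)) ≤ kW μ s η ((nM : ℤ) + T) nB (t i) x := by
    rw [hL3, hmu]
    exact hb3
  have hmono : ∀ x y : ℤ, x ≤ y → L3 x ≤ L3 y := fun x y hxy => by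
    rw [hL3]
    exact lt26_mono hw _ hxy
  rw [← hL3, em1, em2] at D1 D2
  rw [← hL3, ← hmu]
  clear D hb3
  obtain ⟨S, hS⟩ : ∃ S : Finset ℤ, S = Icc (-(T : ℤ)) (T + (nM + T : ℕ)) := ⟨_, rfl⟩
  obtain ⟨S3, hS3⟩ : ∃ S : Finset ℤ, S = Icc (-(T : ℤ)) (T + (nM + (T + nB) : ℕ)) := ⟨_, rfl⟩
  have cS : (S.card : ℝ) ≤ 6 * T := by
    rw [hS, Int.card_Icc]
    have e : ((T : ℤ) + (nM + T : ℕ) + 1 - -(T : ℤ)).toNat = 2 * T + (nM + T) + 1 := by
      push_cast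
      omega
    rw [e]
    have : 2 * T + (nM + T) + 1 ≤ 6 * T := by omega
    exact_mod_cast this
  have cS3 : (S3.card : ℝ) ≤ 6 * T := by
    rw [hS3, Int.card_Icc]
    have e : ((T : ℤ) + (nM + (T + nB) : ℕ) + 1 - -(T : ℤ)).toNat = 2 * T + (nM + (T + nB)) + 1 := by
      push_cast
      omega
    rw [e]
    have : 2 * T + (nM + (T + nB)) + 1 ≤ 6 * T := by omega
    exact_mod_cast this
  have hR1 : (S.card * S.card : ℝ) ≤ (6 * (T : ℝ)) ^ 2 := by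
    rw [pow_two]
    exact mul_le_mul cS cS (Nat.cast_nonneg _) (by positivity)
  have hR3 : (S3.card : ℝ) ≤ (6 * (T : ℝ)) ^ 2 := by nlinarith
  obtain ⟨M, hM⟩ : ∃ M : ℤ → ℤ → ℝ, M = fun x y => a0⁻¹ * kW μ s η 0 nM x y := ⟨_, rfl⟩
  obtain ⟨F, hF⟩ : ∃ M : ℤ → ℤ → ℝ, M = fun x y => a0 * kW μ s η nM T x y := ⟨_, rfl⟩
  have comp : ∀ (j : Bool) (y : ℤ), |(y : ℝ) - u j| ≤ R → ∀ x : ℤ,
      kW μ s η 0 (nM + (T + nB)) y x = K3k M F (kW μ s η ((nM : ℤ) + T) nB) S S y x := by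
    intro j y hy x
    obtain ⟨h1, h2⟩ := hc j y hy
    have h3 := kW_three (μ := μ) (s := s) η 0 nM T nB y x S (by
      rw [hS]
      exact Icc_subset_Icc h1 (by linarith))
    rw [zero_add] at h3
    rw [hM, hF, K3k_scale35 ha0]
    exact h3
  have supp : ∀ (j : Bool) (y : ℤ), |(y : ℝ) - u j| ≤ R → ∀ x : ℤ, x ∉ S3 → K3k M F (kW μ s η ((nM : ℤ) + T) nB) S S y x = 0 := by
    intro j y hy x hx
    obtain ⟨h1, h2⟩ := hc j y hy
    rw [← comp j y hy x]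
    refine kW_zero (μ := μ) (s := s) η 0 fun hcon => hx ?_
    rw [hS3, mem_Icc]
    exact ⟨by linarith [hcon.1], by linarith [hcon.2]⟩
  -- the points of the lanes are in `S`
  have hpt : ∀ (j : Bool), v j ∈ S ∧ t j ∈ S := by
    intro j
    obtain ⟨h1, h2⟩ := hv j
    obtain ⟨h3, h4⟩ := ht j
    rw [hS, mem_Icc, mem_Icc]
    push_cast
    exact ⟨⟨h1, by linarith⟩, h3, h4⟩
  have hrk : RkU35 M u v R rho ε := by
    rw [hM]
    exact hm3.scale ha0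
  rw [← hM, ← hF] at D1 D2
  have hWa : W true ≤ Real.exp (dd * EE μ s T) * W false := hW true
  have hWb : W false ≤ Real.exp (dd * EE μ s T) * W true := hW false
  have hE2 : (3 : ℝ) ≤ Real.exp (EE μ s T) := by nlinarith
  have hRE1 : (6 * (T : ℝ)) ^ 2 ≤ Real.exp (EE μ s T) := by
    have : 0 ≤ (6 * (T : ℝ)) ^ 2 := by positivity
    linarith
  have hht : (S.card * S.card : ℝ) * Real.exp ((b - G') * EE μ s T) ≤ Real.exp (-EE μ s T) := by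
    calc (S.card * S.card : ℝ) * Real.exp ((b - G') * EE μ s T) ≤ Real.exp (EE μ s T) * Real.exp ((b - G') * EE μ s T) :=
          mul_le_mul_of_nonneg_right (hR1.trans hRE1) (Real.exp_pos _).le
      _ = Real.exp ((1 + b - G') * EE μ s T) := by
          rw [← Real.exp_add]
          congr 1
          ring
      _ ≤ _ := by
          refine Real.exp_le_exp.2 ?_
          have := mul_le_mul_of_nonneg_right hbg hE.le
          linarith
  have hWc : W false ≤ Real.exp (dd * EE μ s T) * W false := by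
    have h1 : (1 : ℝ) ≤ Real.exp (dd * EE μ s T) := Real.one_le_exp (mul_nonneg q2 hE.le)
    have h2 := D1.W0
    nlinarith
  have pt : ∀ (i : Bool) (y : ℤ), |(y : ℝ) - u i| ≤ R → ∀ x : ℤ, K3k M F (kW μ s η ((nM : ℤ) + T) nB) S S y x ≤
      (Real.exp ((ell - hB * |L3 x - mu i|) * EE μ s T) + Real.exp ((-g1 - hB * |L3 x - mu (!i)|) * EE μ s T) +
        Real.exp ((-G1 - be * |L3 x|) * EE μ s T)) * W false := by
    intro i y hy x
    cases i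
    · exact kh_pt (S1 := S) (S2 := S) D1 hR1 hRE hWc hl hg' hG' hy x
    · exact kh_pt (S1 := S) (S2 := S) D2 hR1 hRE hWa hl hg' hG' hy x
  refine ⟨fun a1 b1' a2 b2 xa xb s0 ha1 ha2 hc1 hc2 hxa1 hxa2 hxb1 hxb2 hxx hs1 hs2 => ?_, fun i y hy x => ?_, fun i y hy X hX => ?_⟩
  · have w1 : ∀ x : ℤ, xa ≤ x → x ≤ xb → |L3 x| ≤ K := fun x g1 g2 => by
      rw [abs_le]
      exact ⟨hxa1.trans (hmono _ _ g1), (hmono _ _ g2).trans hxb1⟩
    have w2 : ∀ x : ℤ, x < xa → Kx ≤ |L3 x| := fun x g1 => by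
      have := (hmono _ _ g1.le).trans hxa2
      rw [abs_of_nonpos (by linarith)]
      linarith
    have w3 : ∀ x : ℤ, xb < x → Kx ≤ |L3 x| := fun x g1 => (hxb2.trans (hmono _ _ g1.le)).trans (le_abs_self _)
    have w4 : ∀ x : ℤ, s0 < x → del / 4 ≤ |L3 x - mu false| := fun x g1 => by
      have := hs1.trans (hmono _ _ g1.le)
      refine le_trans ?_ (le_abs_self _)
      linarith
    have w5 : ∀ x : ℤ, x ≤ s0 → del / 4 ≤ |L3 x - mu true| := fun x g1 => by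
      have := hmono _ _ g1
      rw [abs_sub_comm]
      refine le_trans ?_ (le_abs_self _)
      linarith
    have out := (outK35 (S1 := S) (S2 := S) (S3 := S3) (a1 := a1) (b1 := b1') (a2 := a2) (b2 := b2) (xa := xa) (xb := xb) (s0 := s0)
      (b' := b1) (Kx := Kx) (sg := del / 4) (R := (6 * (T : ℝ)) ^ 2) (g' := g1) (G1 := G1) (go := go) (gx := gx) (ell := ell)
      (ell0 := ell0) (Kc := Kc) (δ := δ) D1 D2 hWa hWb (hpt false).1 (hpt false).2 (hpt true).1 (hpt true).2 hR1 hR3 hRE hE2 hl hl2 hl0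
      hg' hG' hgo hGo hgo0 hgx hGx hex hsp (fun y g1 g2 => hc1 y g1 g2) (fun y g1 g2 => hc2 y g1 g2) ha1 ha2 hxx w1 w2 w3 w4 w5
      (fun y hy x hx => supp false y hy x hx) (fun y hy x hx => supp true y hy x hx) (fun x hx => hb3' false x hx)
      (fun x hx => hb3' true x hx) hε (Real.exp_pos (-EE μ s T)).le
      (fun a ha a' ha' y hy y' hy' => hrk false a a' y y' ha ha' hy hy')
      (fun a ha a' ha' y hy y' hy' => hrk true a a' y y' ha ha' hy hy') hht hδ).1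
    exact out.congr ha1 ha2 fun y hy x => by
      rcases hy with hy | hy
      · exact comp false y (hc1 y hy.1 hy.2) x
      · exact comp true y (hc2 y hy.1 hy.2) x
  · rw [comp i y hy x]
    exact pt i y hy x
  · have P1 : PT26 (K3k M F (kW μ s η ((nM : ℤ) + T) nB) S S) L3 {a | |(a : ℝ) - u i| ≤ R} (mu i) (mu (!i)) (EE μ s T) (W false) ell g1 G1
        be hB :=
      ⟨hE, D1.W0, fun y x => by
        unfold K3k
        exact sum_nonneg fun u _ => sum_nonneg fun v _ => mul_nonneg (mul_nonneg (D1.nM _ _) (D1.nF _ _)) (D1.nB _ _),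
        fun y hy x => pt i y hy x, be0, n3⟩
    have hmK : |mu i| ≤ K0 ∧ |mu (!i)| ≤ K0 := by
      cases i
      · exact ⟨D1.mK, D1.mK'⟩
      · exact ⟨D2.mK, D2.mK'⟩
    have hlg : 0 ≤ ell + g1 := by
      have g2 := mul_nonneg be0 q7
      have g3 := mul_nonneg q4 q5
      linarith
    refine le_trans (le_of_eq ?_) (exw35 P1 hRE hR3 hy (supp i y hy) hlg hmK.1 hmK.2 hGx hex hX)
    exact sum_congr rfl fun x _ => by rw [comp i y hy x]

end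

end Pool.Agent.W_7d29a1_C1.B26
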