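import Pool.Agent.W_7d29a1_C1.FrbF26

/-!
MP_7d29a1_pr, [C1] SHELL, FRESH BALL WITH TWO EXPONENTS: **THE FIRST KERNEL** `I = M' o F' o B'` (helper20, piece (c) of `freC26`).

`MI20`: the facts of the first kernel (strength `A`, slope `hM`, rank one from each start cell to BOTH entrances); `mi20`: deterministic,
from `BO26` in the units of `T'` to `MI20` in the units of `T = J T'`; `frcI20`: the event, `qM` before `K0 del hM`.
-/

set_option autoImplicit false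

namespace Pool.Agent.W_7d29a1_C1.B26

open MeasureTheory ProbabilityTheory Filter Topology Finset
open Pool.Agent.W_7d29a1_F Pool.Agent.W_7d29a1_h4g Pool.Agent.W_7d29a1_H Pool.Agent.W_7d29a1_HS
open Pool.Agent.W_7d29a1_C1
open Pool.Agent.W_7d29a1_C1.CR76 Pool.Agent.W_7d29a1_C1.Basin76
open Pool.Agent.W_7d29a1_C1.U16 (fq16 fq16_one fq16_mono)

noncomputable section

variable {μ : Measure ℝ} {s c C : ℝ} {n₀ : ℕ}

/-- **The facts of the first kernel.** Start cells `|a - u i| ≤ R`, entrances `|x - e i| ≤ R`, strength `A`. -/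
structure MI20 (M : ℤ → ℤ → ℝ) (L0 L1 : ℤ → ℝ) (E : ℝ) (u e : Bool → ℤ) (R A qM hM Q1 dl : ℝ) (P : ℕ) (Q hh : ℝ) : Prop where
  lo : 1 ≤ A
  hi : A ≤ Real.exp (Q1 * E)
  up : ∀ (i : Bool) (a : ℤ), |(a : ℝ) - u i| ≤ R → ∀ x : ℤ, M a x ≤ Real.exp ((qM - hM * |L1 x - L0 a|) * E) * A
  low : ∀ (i : Bool) (a x : ℤ), |(a : ℝ) - u i| ≤ R → |(x : ℝ) - e i| ≤ R → Real.exp (-(qM * E)) * A ≤ M a x
  rk : ∀ (i : Bool) (a a' : ℤ), |(a : ℝ) - u i| ≤ R → |(a' : ℝ) - u i| ≤ R → ∀ x x' : ℤ, (∃ l, |(x : ℝ) - e l| ≤ R) →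
    (∃ l, |(x' : ℝ) - e l| ≤ R) → M a x * M a' x' ≤ (1 + dl) * (M a x' * M a' x)
  pe : PE26 M L0 L1 E P Q hh

/-- Rank one inside a cell and a window from the corners. -/
theorem rk_int20 {I : ℤ → ℤ → ℝ} {a1 b1 xa xb : ℤ} {dl : ℝ}
    (hm : ∀ a a' x x' : ℤ, a ≤ a' → x ≤ x' → I a x' * I a' x ≤ I a x * I a' x') (hd : 0 ≤ dl)
    (hp : ∀ a : ℤ, a1 ≤ a → a ≤ b1 → ∀ x : ℤ, xa ≤ x → x ≤ xb → 0 < I a x)
    (hc : CR I a1 b1 xa xb ≤ 1 + dl) {a a' x x' : ℤ} (h1 : a1 ≤ a) (h2 : a ≤ b1) (h3 : a1 ≤ a') (h4 : a' ≤ b1)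
    (h5 : xa ≤ x) (h6 : x ≤ xb) (h7 : xa ≤ x') (h8 : x' ≤ xb) : I a x * I a' x' ≤ (1 + dl) * (I a x' * I a' x) := by
  have T : TP I {a | a1 ≤ a ∧ a ≤ b1} {x | xa ≤ x ∧ x ≤ xb} :=
    ⟨fun y hy x hx => hp y hy.1 hy.2 x hx.1 hx.2, fun y _ y' _ hyy x _ x' _ hxx => hm y y' x x' hyy hxx⟩
  have key : ∀ a a' x x' : ℤ, a1 ≤ a → a ≤ a' → a' ≤ b1 → xa ≤ x → x ≤ x' → x' ≤ xb →
      I a x * I a' x' ≤ (1 + dl) * (I a x' * I a' x) := by
    intro a a' x x' g1 g2 g3 g4 g5 g6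
    have ma : a1 ≤ b1 := g1.trans (g2.trans g3)
    have mx : xa ≤ xb := g4.trans (g5.trans g6)
    have h := T.CR_mono (ya := a1) (y := a) (y' := a') (yb := b1) (xa := xa) (x := x) (x' := x') (xb := xb) ⟨le_rfl, ma⟩
      ⟨g1, g2.trans g3⟩ ⟨g1.trans g2, g3⟩ ⟨ma, le_rfl⟩ ⟨le_rfl, mx⟩ ⟨g4, g5.trans g6⟩ ⟨g4.trans g5, g6⟩ ⟨mx, le_rfl⟩ g1 g2 g3 g4 g5 g6
    have h' := h.trans hc
    unfold CR at h'
    rwa [div_le_iff₀ (mul_pos (hp a g1 (g2.trans g3) x' (g4.trans g5) g6) (hp a' (g1.trans g2) g3 x g4 (g5.trans g6)))] at h'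
  have one : ∀ {X Y : ℝ}, 0 ≤ Y → X ≤ Y → X ≤ (1 + dl) * Y := fun hY h => by nlinarith
  have pp : ∀ {a a' x x' : ℤ}, a1 ≤ a → a ≤ b1 → a1 ≤ a' → a' ≤ b1 → xa ≤ x → x ≤ xb → xa ≤ x' → x' ≤ xb → 0 ≤ I a x' * I a' x :=
    fun g1 g2 g3 g4 g5 g6 g7 g8 => (mul_pos (hp _ g1 g2 _ g7 g8) (hp _ g3 g4 _ g5 g6)).le
  rcases le_total a a' with ha | ha <;> rcases le_total x x' with hx | hx
  · exact key a a' x x' h1 ha h4 h5 hx h8
  · exact one (pp h1 h2 h3 h4 h5 h6 h7 h8) (hm a a' x' x ha hx)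
  · have g := hm a' a x x' ha hx
    rw [mul_comm (I a' x'), mul_comm (I a' x)] at g
    exact one (pp h1 h2 h3 h4 h5 h6 h7 h8) g
  · have g := key a' a x' x h3 ha h2 h7 hx h6
    rw [mul_comm (I a' x'), mul_comm (I a' x)] at g
    exact g

/-- **FROM THE UNITS OF `T'` TO THE UNITS OF `T`.** -/
theorem mi20 {K : ℤ → ℤ → ℝ} {v w w' E E' J : ℝ} {n m P : ℕ} {u : Bool → ℤ}
    {R R' KK Kx del A δ ell ellw Kc be g G' hB Q hc K0 Q1 qM hM hh : ℝ}
    (HB : BO26 K (lt26 v w' 0) (lt26 v w' n) E' u (fun i => lt26 v w' m (cp26 v (u i) m)) R' KK Kx del A δ ell ellw Kc be g G' hB P Q hc)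
    (hm : ∀ a a' x x' : ℤ, a ≤ a' → x ≤ x' → K a x' * K a' x ≤ K a x * K a' x') (hδ : 0 ≤ δ)
    (hw : 0 < w) (hw' : 1 ≤ w') (hE' : 0 < E') (hEE : E' ≤ E) (hE3 : 3 ≤ Real.exp E') (hJ0 : 0 ≤ J) (hJ : w ≤ J * w')
    (hhs : hh * (w' * E) ≤ hc * (E' * w)) (hMs : hM * (w' * E) ≤ be * (E' * w))
    (hu : ∀ i, |(u i : ℝ)| ≤ K0 * w') (hsep : (u false : ℝ) + del * w' ≤ u true) (hdw : 2 ≤ del * w') (hKK : K0 + 4 ≤ KK)
    (hKx : Kx + 1 ≤ KK) (hR0 : 0 ≤ R) (hRR : R ≤ R') (hRw : R ≤ w') (hRc : R + 2 ≤ Kc * w') (hbe : 0 ≤ be)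
    (hbB : be ≤ hB) (hg : 2 * be * (K0 + 1) ≤ g) (hG : be * (K0 + 1) ≤ G') (hell : 0 ≤ ell) (hA : 1 ≤ A) (hA2 : A ≤ Real.exp (Q1 * E'))
    (hQ1 : 0 ≤ Q1) (hQ : 0 ≤ Q) (hq : ell + 1 + 2 * be ≤ qM) :
    MI20 K (lt26 v w 0) (lt26 v w n) E u (fun i => cp26 v (u i) n) R A qM hM Q1 δ P (Q * C26 P J) hh := by
  have hw0 : 0 < w' := by linarith
  have hE : 0 < E := by linarith
  have hA0 : 0 ≤ A := by linarith
  obtain ⟨mu, hmu⟩ : ∃ f : Bool → ℝ, f = fun i => lt26 v w' m (cp26 v (u i) m) := ⟨_, rfl⟩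
  rw [← hmu] at HB
  -- the coordinates
  have cm : ∀ i : Bool, mu i * w' = (cp26 v (u i) m : ℝ) - v * m := fun i => by
    rw [hmu]
    show ((cp26 v (u i) m : ℝ) - v * m) / w' * w' = _
    field_simp
  have c3 : ∀ x : ℤ, lt26 v w' n x * w' = (x : ℝ) - v * n := fun x => by
    show ((x : ℝ) - v * n) / w' * w' = _
    field_simp
  have cn := fun i : Bool => abs_le.1 (cp26_near v (u i) n)
  have cmn := fun i : Bool => abs_le.1 (cp26_near v (u i) m)
  have hua := fun i : Bool => abs_le.1 (hu i)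
  have muK : ∀ i : Bool, |mu i| ≤ K0 + 1 := by
    intro i
    have h1 : |mu i| * w' = |(cp26 v (u i) m : ℝ) - v * m| := by
      rw [← cm i, abs_mul, abs_of_pos hw0]
    have h2 : |(cp26 v (u i) m : ℝ) - v * m| ≤ K0 * w' + 1 := by
      rw [abs_le]
      constructor <;> linarith [(cmn i).1, (cmn i).2, (hua i).1, (hua i).2]
    have h3 : |mu i| * w' ≤ (K0 + 1) * w' := by nlinarith
    exact le_of_mul_le_mul_right h3 hw0
  have lo3 : ∀ (i : Bool) (x : ℤ), |(x : ℝ) - v * n - u i| ≤ |lt26 v w' n x - mu i| * w' + 1 := by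
    intro i x
    have h1 : |lt26 v w' n x - mu i| * w' = |(x : ℝ) - v * n - ((cp26 v (u i) m : ℝ) - v * m)| := by
      rw [← cm i, ← c3 x, ← sub_mul, abs_mul, abs_of_pos hw0]
    rw [h1]
    have h2 : (x : ℝ) - v * n - u i = ((x : ℝ) - v * n - ((cp26 v (u i) m : ℝ) - v * m)) + ((cp26 v (u i) m : ℝ) - u i - v * m) := by ring
    rw [h2]
    exact (abs_add_le _ _).trans (add_le_add le_rfl (cp26_near v (u i) m))
  have up3 : ∀ (i : Bool) (x : ℤ), |lt26 v w' n x - mu i| * w' ≤ |(x : ℝ) - cp26 v (u i) n| + 2 := by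
    intro i x
    have h1 : |lt26 v w' n x - mu i| * w' = |(x : ℝ) - v * n - ((cp26 v (u i) m : ℝ) - v * m)| := by
      rw [← cm i, ← c3 x, ← sub_mul, abs_mul, abs_of_pos hw0]
    rw [h1]
    have h2 : (x : ℝ) - v * n - ((cp26 v (u i) m : ℝ) - v * m) = ((x : ℝ) - cp26 v (u i) n) +
      (((cp26 v (u i) n : ℝ) - u i - v * n) - ((cp26 v (u i) m : ℝ) - u i - v * m)) := by ring
    rw [h2]
    refine (abs_add_le _ _).trans ?_
    have h3 := (abs_sub ((cp26 v (u i) n : ℝ) - u i - v * n) ((cp26 v (u i) m : ℝ) - u i - v * m))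
    linarith [cp26_near v (u i) n, cp26_near v (u i) m]
  -- the corners
  obtain ⟨rf, hrf⟩ : ∃ z : ℤ, z = ⌊R⌋ := ⟨_, rfl⟩
  have rf0 : 0 ≤ rf := by rw [hrf]; exact Int.floor_nonneg.2 hR0
  have rfR : (rf : ℝ) ≤ R := by rw [hrf]; exact Int.floor_le R
  have cellR : ∀ (z a : ℤ), |(a : ℝ) - z| ≤ R → z - rf ≤ a ∧ a ≤ z + rf := by
    intro z a ha
    obtain ⟨g1, g2⟩ := abs_le.1 ha
    have k1 : a - z ≤ rf := by rw [hrf]; exact Int.le_floor.2 (by push_cast; linarith)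
    have k2 : z - a ≤ rf := by rw [hrf]; exact Int.le_floor.2 (by push_cast; linarith)
    constructor <;> omega
  have cellR' : ∀ (z a : ℤ), z - rf ≤ a → a ≤ z + rf → |(a : ℝ) - z| ≤ R' := by
    intro z a g1 g2
    have k1 : ((z - rf : ℤ) : ℝ) ≤ a := by exact_mod_cast g1
    have k2 : (a : ℝ) ≤ ((z + rf : ℤ) : ℝ) := by exact_mod_cast g2
    push_cast at k1 k2
    rw [abs_le]
    constructor <;> linarith
  obtain ⟨xa, hxa⟩ : ∃ z : ℤ, z = ⌈v * n - KK * w'⌉ := ⟨_, rfl⟩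
  obtain ⟨xb, hxb⟩ : ∃ z : ℤ, z = ⌊v * n + KK * w'⌋ := ⟨_, rfl⟩
  have xa1 : v * n - KK * w' ≤ xa := by rw [hxa]; exact Int.le_ceil _
  have xa2 : (xa : ℝ) < v * n - KK * w' + 1 := by rw [hxa]; exact Int.ceil_lt_add_one _
  have xb1 : (xb : ℝ) ≤ v * n + KK * w' := by rw [hxb]; exact Int.floor_le _
  have xb2 : v * n + KK * w' - 1 < xb := by rw [hxb]; exact Int.sub_one_lt_floor _
  have win : ∀ x : ℤ, (∃ l, |(x : ℝ) - cp26 v (u l) n| ≤ R) → xa ≤ x ∧ x ≤ xb := by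
    rintro x ⟨l, hl⟩
    obtain ⟨g1, g2⟩ := abs_le.1 hl
    have k := mul_le_mul_of_nonneg_right hKK hw0.le
    constructor
    · rw [hxa]
      refine Int.ceil_le.2 ?_
      linarith [(cn l).1, (cn l).2, (hua l).1, (hua l).2]
    · rw [hxb]
      refine Int.le_floor.2 ?_
      linarith [(cn l).1, (cn l).2, (hua l).1, (hua l).2]
  have hxx : xa ≤ xb := by
    obtain ⟨g1, g2⟩ := win (cp26 v (u false) n) ⟨false, by rw [sub_self, abs_zero]; exact hR0⟩
    exact g1.trans g2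
  obtain ⟨s0, hs0⟩ : ∃ z : ℤ, z = ⌈v * n + (mu false + del / 4) * w'⌉ := ⟨_, rfl⟩
  have s01 : v * n + (mu false + del / 4) * w' ≤ s0 := by rw [hs0]; exact Int.le_ceil _
  have s02 : (s0 : ℝ) < v * n + (mu false + del / 4) * w' + 1 := by rw [hs0]; exact Int.ceil_lt_add_one _
  have dv : ∀ {a b : ℝ}, a * w' ≤ b * w' → a ≤ b := fun h => le_of_mul_le_mul_right h hw0
  have gap : (mu false + del) * w' ≤ mu true * w' := by
    rw [add_mul, cm, cm]
    unfold cp26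
    push_cast
    linarith
  have hcell : ∀ i : Bool, u i - rf ≤ u i + rf := fun i => by omega
  have O := HB.out (u false - rf) (u false + rf) (u true - rf) (u true + rf) xa xb s0 (hcell false) (hcell true)
    (fun y g1 g2 => cellR' _ _ g1 g2) (fun y g1 g2 => cellR' _ _ g1 g2)
    (dv (by rw [c3]; linarith)) (dv (by
      rw [c3]
      nlinarith)) (dv (by rw [c3]; linarith)) (dv (by
      rw [c3]
      nlinarith)) hxx (dv (by rw [c3]; linarith)) (dv (by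
      rw [add_mul, c3]
      nlinarith))
  have hAe : ∀ x : ℝ, 0 < Real.exp x * A := fun x => mul_pos (Real.exp_pos _) (by linarith)
  refine ⟨hA, hA2.trans (Real.exp_le_exp.2 (mul_le_mul_of_nonneg_left hEE hQ1)), fun i a ha x => ?_, fun i a x ha hx => ?_,
    fun i a a' ha ha' x x' hx hx' => ?_, fun x y => ?_⟩
  · -- the upper bound
    obtain ⟨X, hX⟩ : ∃ r : ℝ, r = |lt26 v w' n x - mu i| := ⟨_, rfl⟩
    have hX0 : 0 ≤ X := by rw [hX]; exact abs_nonneg _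
    have h1 := HB.pt i a (ha.trans hRR) x
    rw [← hX] at h1
    have m1 := muK i
    have m2 := muK (!i)
    have t1 : (ell - hB * X) * E' ≤ (ell - be * X) * E' :=
      mul_le_mul_of_nonneg_right (by linarith [mul_le_mul_of_nonneg_right hbB hX0]) hE'.le
    have t2 : (-g - hB * |lt26 v w' n x - mu (!i)|) * E' ≤ (ell - be * X) * E' := by
      refine mul_le_mul_of_nonneg_right ?_ hE'.le
      have g1 : X ≤ |lt26 v w' n x - mu (!i)| + (|mu (!i)| + |mu i|) := by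
        rw [hX]
        have k1 : |lt26 v w' n x - mu i| ≤ |lt26 v w' n x - mu (!i)| + |mu (!i) - mu i| := abs_sub_le _ _ _
        exact k1.trans (add_le_add le_rfl (abs_sub _ _))
      have g2 := mul_le_mul_of_nonneg_left g1 hbe
      have g3 := mul_le_mul_of_nonneg_right hbB (abs_nonneg (lt26 v w' n x - mu (!i)))
      have g4 := mul_le_mul_of_nonneg_left (add_le_add m2 m1) hbe
      linarith
    have t3 : (-G' - be * |lt26 v w' n x|) * E' ≤ (ell - be * X) * E' := by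
      refine mul_le_mul_of_nonneg_right ?_ hE'.le
      have g1 : X ≤ |lt26 v w' n x| + |mu i| := by
        rw [hX]
        exact abs_sub _ _
      have g2 := mul_le_mul_of_nonneg_left g1 hbe
      have g4 := mul_le_mul_of_nonneg_left m1 hbe
      linarith
    have e1 := Real.exp_le_exp.2 t1
    have e2 := Real.exp_le_exp.2 t2
    have e3 := Real.exp_le_exp.2 t3
    have e4 : K a x ≤ 3 * Real.exp ((ell - be * X) * E') * A :=
      h1.trans (mul_le_mul_of_nonneg_right (by linarith) hA0)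
    have e5 : 3 * Real.exp ((ell - be * X) * E') ≤ Real.exp ((qM - hM * |lt26 v w n x - lt26 v w 0 a|) * E) := by
      refine (mul_le_mul_of_nonneg_right hE3 (Real.exp_pos _).le).trans ?_
      rw [← Real.exp_add]
      refine Real.exp_le_exp.2 ?_
      obtain ⟨D, hD⟩ : ∃ r : ℝ, r = |lt26 v w n x - lt26 v w 0 a| := ⟨_, rfl⟩
      rw [← hD]
      have hD0 : 0 ≤ D := by rw [hD]; exact abs_nonneg _
      have d1 : D * w = |(x : ℝ) - v * n - a| := by
        rw [hD]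
        unfold lt26
        rw [← sub_div, abs_div, abs_of_pos hw]
        simp only [Nat.cast_zero, mul_zero, sub_zero]
        field_simp
      have d2 : D * w ≤ (X + 2) * w' := by
        rw [d1]
        have k1 : (x : ℝ) - v * n - a = ((x : ℝ) - v * n - u i) - ((a : ℝ) - u i) := by ring
        rw [k1]
        refine (abs_sub _ _).trans ?_
        have k2 := lo3 i x
        rw [← hX] at k2
        linarith
      have d3 : hM * D * E ≤ be * (X + 2) * E' := by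
        refine dv ?_
        have k1 := mul_le_mul_of_nonneg_right hMs hD0
        have k2 := mul_le_mul_of_nonneg_left d2 (mul_nonneg hbe hE'.le)
        calc hM * D * E * w' = hM * (w' * E) * D := by ring
          _ ≤ be * (E' * w) * D := k1
          _ = be * E' * (D * w) := by ring
          _ ≤ be * E' * ((X + 2) * w') := k2
          _ = _ := by ring
      have d4 : (ell + 1 + 2 * be) * E' ≤ qM * E := mul_le_mul hq hEE hE'.le (by linarith)
      linarith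
    exact e4.trans (mul_le_mul_of_nonneg_right e5 hA0)
  · -- the lower bound
    have h1 : |lt26 v w' n x - mu i| ≤ Kc := dv ((up3 i x).trans (by linarith))
    obtain ⟨k1, k2⟩ := cellR _ _ ha
    have h2 : Real.exp (-(ell * E')) * A ≤ K a x := by
      cases i
      · exact O.lowc1 a k1 k2 x h1
      · exact O.lowc2 a k1 k2 x h1
    refine le_trans (mul_le_mul_of_nonneg_right (Real.exp_le_exp.2 ?_) hA0) h2
    have d4 : ell * E' ≤ qM * E := mul_le_mul (by linarith) hEE hE'.le (by linarith)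
    linarith
  · -- rank one
    obtain ⟨k1, k2⟩ := cellR _ _ ha
    obtain ⟨k3, k4⟩ := cellR _ _ ha'
    obtain ⟨g1, g2⟩ := win x hx
    obtain ⟨g3, g4⟩ := win x' hx'
    cases i
    · exact rk_int20 hm hδ (fun b hb hb' z hz hz' => lt_of_lt_of_le (hAe _) (O.loww b (Or.inl ⟨hb, hb'⟩) z hz hz')) O.cr1
        k1 k2 k3 k4 g1 g2 g3 g4
    · exact rk_int20 hm hδ (fun b hb hb' z hz hz' => lt_of_lt_of_le (hAe _) (O.loww b (Or.inr ⟨hb, hb'⟩) z hz hz')) O.cr2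
        k1 k2 k3 k4 g1 g2 g3 g4
  · -- the envelope
    refine (HB.pe x y).trans (Real.exp_le_exp.2 ?_)
    obtain ⟨D, hD⟩ : ∃ r : ℝ, r = |lt26 v w n y - lt26 v w 0 x| := ⟨_, rfl⟩
    obtain ⟨D', hD'⟩ : ∃ r : ℝ, r = |lt26 v w' n y - lt26 v w' 0 x| := ⟨_, rfl⟩
    rw [← hD, ← hD']
    have hD0 : 0 ≤ D := by rw [hD]; exact abs_nonneg _
    have d1 : D * w = |(y : ℝ) - v * n - x| := by
      rw [hD]
      unfold lt26
      rw [← sub_div, abs_div, abs_of_pos hw]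
      simp only [Nat.cast_zero, mul_zero, sub_zero]
      field_simp
    have d2 : D' * w' = |(y : ℝ) - v * n - x| := by
      rw [hD']
      unfold lt26
      rw [← sub_div, abs_div, abs_of_pos hw0]
      simp only [Nat.cast_zero, mul_zero, sub_zero]
      field_simp
    have d3 : hh * D * E ≤ hc * D' * E' := by
      refine dv ?_
      have k1 := mul_le_mul_of_nonneg_right hhs hD0
      calc hh * D * E * w' = hh * (w' * E) * D := by ring
        _ ≤ hc * (E' * w) * D := k1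
        _ = hc * E' * (D * w) := by ring
        _ = hc * E' * (D' * w') := by rw [d1, d2]
        _ = _ := by ring
    have l1 : |lt26 v w' 0 x| ≤ |lt26 v w 0 x| * J + 2 := by
      have k1 : |lt26 v w' 0 x| * w' = |(x : ℝ)| := by
        unfold lt26
        rw [abs_div, abs_of_pos hw0]
        simp only [Nat.cast_zero, mul_zero, sub_zero]
        field_simp
      have k2 : |lt26 v w 0 x| * w = |(x : ℝ)| := by
        unfold lt26
        rw [abs_div, abs_of_pos hw]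
        simp only [Nat.cast_zero, mul_zero, sub_zero]
        field_simp
      have k3 := mul_le_mul_of_nonneg_left hJ (abs_nonneg (lt26 v w 0 x))
      refine dv ?_
      rw [k1, ← k2]
      nlinarith
    have l2 : fq16 P (lt26 v w' 0 x) ≤ C26 P J * fq16 P (lt26 v w 0 x) := by
      have k1 : fq16 P (lt26 v w' 0 x) ≤ fq16 P (|lt26 v w 0 x| * J + 2) := by
        refine fq16_mono (l1.trans (le_abs_self _))
      have k2 := fq_lin26 P hJ0 (abs_nonneg (lt26 v w 0 x))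
      have k3 : fq16 P |lt26 v w 0 x| = fq16 P (lt26 v w 0 x) := by
        unfold fq16
        rw [abs_abs]
      rw [k3] at k2
      exact k1.trans k2
    have l3 : Q * fq16 P (lt26 v w' 0 x) * E' ≤ Q * C26 P J * fq16 P (lt26 v w 0 x) * E := by
      have k1 := mul_le_mul_of_nonneg_left l2 hQ
      have k2 : 0 ≤ Q * (C26 P J * fq16 P (lt26 v w 0 x)) := le_trans (mul_nonneg hQ (by linarith [fq16_one P (lt26 v w' 0 x)])) k1
      have k3 := mul_le_mul k1 hEE hE'.le k2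
      linarith
    linarith

theorem MI20.mono_dl {M : ℤ → ℤ → ℝ} {L0 L1 : ℤ → ℝ} {E : ℝ} {u e : Bool → ℤ} {R A qM hM Q1 dl dl' : ℝ} {P : ℕ} {Q hh : ℝ}
    (H : MI20 M L0 L1 E u e R A qM hM Q1 dl P Q hh) (hd : dl ≤ dl') (hM0 : ∀ a x, 0 ≤ M a x) :
    MI20 M L0 L1 E u e R A qM hM Q1 dl' P Q hh :=
  ⟨H.lo, H.hi, H.up, H.low, fun i a a' ha ha' x x' hx hx' => (H.rk i a a' ha ha' x x' hx hx').trans
    (mul_le_mul_of_nonneg_right (by linarith) (mul_nonneg (hM0 _ _) (hM0 _ _))), H.pe⟩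

/-- The error in the power of the long scale. -/
theorem dl20 {T' J : ℕ} {c' : ℝ} (hc : 0 < c') (h : J ≤ T') :
    Real.exp (-((T' : ℕ) : ℝ) ^ c') ≤ Real.exp (-((J * T' : ℕ) : ℝ) ^ (c' / 2)) := by
  refine Real.exp_le_exp.2 (neg_le_neg ?_)
  have h0 : (0 : ℝ) ≤ T' := Nat.cast_nonneg _
  have h1 : ((J * T' : ℕ) : ℝ) ≤ (T' : ℝ) ^ (2 : ℝ) := by
    rw [Real.rpow_two, pow_two]
    push_cast
    exact mul_le_mul_of_nonneg_right (by exact_mod_cast h) h0
  refine (Real.rpow_le_rpow (Nat.cast_nonneg _) h1 (by linarith)).trans (le_of_eq ?_)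
  rw [← Real.rpow_mul h0]
  congr 1
  ring

/-- **THE EVENT OF THE FIRST KERNEL.** `qM` is before `K0 del hM`; `nM = Q a k`, `T = Q j k`. -/
theorem frcI20 [IsProbabilityMeasure μ] (h : In μ s c C n₀) (hR : RkP26 μ s) (hT : TslP26 μ s c) :
    ∃ qM : ℝ, 0 ≤ qM ∧ ∀ K0 del hM : ℝ, 0 ≤ K0 → 0 < del → 0 ≤ hM →
    ∃ (th Q1 QI cI p : ℝ) (PI a j Q n1 : ℕ), 0 < th ∧ 0 ≤ Q1 ∧ 0 ≤ QI ∧ 0 < cI ∧ 0 < p ∧ 1 ≤ a ∧ a ≤ j ∧ 1 ≤ Q ∧
    ∀ k : ℕ, n1 ≤ k → ∀ nM T : ℕ, nM = Q * a * k → T = Q * j * k → nM ≤ T ∧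
    ∀ u : Bool → ℤ, (∀ i, |(u i : ℝ)| ≤ K0 * wd μ s T) → (u false : ℝ) + del * wd μ s T ≤ u true →
    ∃ S : Set Env, MeasurableSet S ∧ OnR26 (rows 0 nM) S ∧ p ≤ (law μ).real S ∧
      ∀ η ∈ S, ∃ A : ℝ, MI20 (kW μ s η 0 nM) (lt26 (sl μ s) (wd μ s T) 0) (lt26 (sl μ s) (wd μ s T) nM) (EE μ s T) u
        (fun i => cp26 (sl μ s) (u i) nM) (th * wd μ s T) A qM hM Q1 (Real.exp (-((T : ℕ) : ℝ) ^ cI)) PI QI c := by
  have hc0 := h.c0
  obtain ⟨ell, hell, H⟩ := fre026 h hR hT (show (0 : ℝ) < 1 / 2 by norm_num)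
  refine ⟨ell + 2 + c, by linarith, fun K0 del hM hK0 hdel hhM => ?_⟩
  obtain ⟨b0, m0, hb0, hm0, hsc⟩ := sc26 h (M := 8 * hM / c + 2) (by positivity)
  obtain ⟨J, hJ⟩ : ∃ n : ℕ, n = b0 + 2 := ⟨_, rfl⟩
  have hJ1 : (3 : ℝ) ≤ J := by exact_mod_cast (show 3 ≤ J by omega)
  obtain ⟨KJ, hKJ⟩ : ∃ x : ℝ, x = K0 * (2 * J) + 1 := ⟨_, rfl⟩
  have hKJ0 : 0 ≤ KJ := by rw [hKJ]; positivity
  have hbe : (0 : ℝ) ≤ c / 8 := by linarith
  obtain ⟨thI, KI, Kx, hB, ellw, Kc, Q1, Qe, Qw, c', Pe, Pw, j1, j2, f1, f2, f3, f4, f5, f6, f7, f8, f9, f10, f11, f12, f13, f14, f15, f16,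
    -, H⟩ := H 1 KJ del 1 (1 / 2) (c / 8) (2 * (c / 8) * (KJ + 1)) 0 (KJ + 4) one_pos hKJ0 hdel one_pos (by norm_num) hbe le_rfl
      (by positivity) le_rfl (by linarith)
  obtain ⟨p, Q, k1, hp, hQ, hk1, H⟩ := H (c / 8 * (KJ + 1)) (by positivity)
  obtain ⟨N1, hN1⟩ := th26 h (show 0 < min (Kc / 4) (del / 2) by positivity) 1
  obtain ⟨th, hth⟩ : ∃ x : ℝ, x = min (thI / (2 * J)) (Kc / (4 * J)) := ⟨_, rfl⟩
  have hth0 : 0 < th := by rw [hth]; positivity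
  have t1 : th ≤ thI / (2 * J) := by rw [hth]; exact min_le_left _ _
  have t2 : th ≤ Kc / (4 * J) := by rw [hth]; exact min_le_right _ _
  rw [le_div_iff₀ (by positivity)] at t1 t2
  have hj12 : 1 ≤ j1 * j2 := Nat.mul_pos f15 f16
  have haj : j2 + j1 * j2 + j1 ≤ J * (j1 * j2) := by
    have g1 : j2 ≤ j1 * j2 := Nat.le_mul_of_pos_left j2 f15
    have g2 : j1 ≤ j1 * j2 := Nat.le_mul_of_pos_right j1 f16
    have g3 : 3 * (j1 * j2) ≤ J * (j1 * j2) := Nat.mul_le_mul_right _ (by omega)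
    omega
  refine ⟨th, Q1, Qw * C26 Pw (2 * J), c' / 2, p * (1 / 2), Pw, j2 + j1 * j2 + j1, J * (j1 * j2), Q, k1 + m0 + N1 + J, hth0, f11,
    mul_nonneg f13 (C26_nonneg _ (by positivity)), by linarith, by positivity, by omega, haj, hQ, fun k hk nM T hnM hTT => ?_⟩
  obtain ⟨T', hT'⟩ : ∃ n : ℕ, n = Q * (j1 * j2) * k := ⟨_, rfl⟩
  have eT : T = J * T' := by rw [hTT, hT']; ring
  have eM : nM = Q * j2 * k + (T' + Q * j1 * k) := by rw [hnM, hT']; ring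
  have hMT : nM ≤ T := by
    rw [hnM, hTT]
    exact Nat.mul_le_mul_right _ (Nat.mul_le_mul_left _ haj)
  refine ⟨hMT, fun u hu hsep => ?_⟩
  have hkT : k ≤ T' := by rw [hT']; exact Nat.le_mul_of_pos_left k (Nat.mul_pos hQ hj12)
  obtain ⟨r, r0, r1, r2, H⟩ := H k (by omega) (Q * j2 * k) T' (Q * j1 * k) rfl hT' rfl
  have thT := hN1 T' (by omega)
  obtain ⟨-, sE, sw1, sw2, shs⟩ := hsc J T' (by omega) (by omega)
  rw [← eT] at sE sw1 sw2 shs
  have hw' : 1 ≤ wd μ s T' := by linarith [thT.w2]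
  have hw'0 : 0 < wd μ s T' := by linarith
  have hmin1 : min (Kc / 4) (del / 2) * wd μ s T' ≤ Kc / 4 * wd μ s T' := mul_le_mul_of_nonneg_right (min_le_left _ _) hw'0.le
  have hmin2 : min (Kc / 4) (del / 2) * wd μ s T' ≤ del / 2 * wd μ s T' := mul_le_mul_of_nonneg_right (min_le_right _ _) hw'0.le
  have hthw := thT.thw
  have hM8 : 0 ≤ 8 * hM / c := by positivity
  have hww : wd μ s T' ≤ wd μ s T := by
    have g2 : 1 * wd μ s T' ≤ (8 * hM / c + 2) * wd μ s T' := mul_le_mul_of_nonneg_right (by linarith) hw'0.le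
    linarith
  have hw0 : 0 < wd μ s T := by linarith
  have hE' := EE_pos (μ := μ) (s := s) T'
  have hE := EE_pos (μ := μ) (s := s) T
  have hu1 : ∀ i, |(u i : ℝ)| ≤ K0 * (2 * J) * wd μ s T' := fun i => by
    refine (hu i).trans ?_
    have := mul_le_mul_of_nonneg_left sw2 hK0
    linarith
  have hu' : ∀ i, |(u i : ℝ)| ≤ KJ * wd μ s T' := fun i => by
    refine (hu1 i).trans (mul_le_mul_of_nonneg_right ?_ hw'0.le)
    rw [hKJ]
    linarith
  have hsep' : (u false : ℝ) + del * wd μ s T' ≤ u true := by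
    have := mul_le_mul_of_nonneg_left hww hdel.le
    linarith
  obtain ⟨t, ht⟩ : ∃ f : Bool → ℤ, f = fun i => cp26 (sl μ s) (u i) (Q * j2 * k + T') := ⟨_, rfl⟩
  obtain ⟨SA, SB, a1, a2, a3, a4, a5, a6, a7⟩ := H u t hu' (fun i => by
    rw [ht]
    show |(cp26 (sl μ s) (u i) (Q * j2 * k + T') : ℝ) - sl μ s * (Q * j2 * k + T' : ℕ)| ≤ KJ * wd μ s T'
    obtain ⟨g1, g2⟩ := abs_le.1 (cp26_near (sl μ s) (u i) (Q * j2 * k + T'))
    obtain ⟨g3, g4⟩ := abs_le.1 (hu1 i)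
    rw [hKJ, add_mul, one_mul, abs_le]
    constructor <;> linarith) hsep' (by
    rw [ht]
    unfold cp26
    push_cast
    linarith)
  have eZ : (nM : ℤ) = ((Q * j2 * k : ℕ) : ℤ) + T' + (Q * j1 * k : ℕ) := by
    rw [eM]
    push_cast
    ring
  rw [← eZ] at a4
  obtain ⟨w1, w2, w3⟩ := indep26 (μ := μ) (by positivity) (by rw [eZ]; linarith [Int.natCast_nonneg (Q * j1 * k)]) a3 a4 a1 a2 hp.le
    (show (0 : ℝ) ≤ 1 / 2 by norm_num) a5 (by
      have := probReal_add_probReal_compl (μ := law μ) a2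
      linarith)
  refine ⟨SA ∩ SB, w2, w1, w3, fun η hη => ?_⟩
  obtain ⟨A, m1, m2⟩ := a7 η hη.1
  have B := m2 hη.2
  have e2 : Q * j2 * k + T' + Q * j1 * k = nM := by rw [eM]; ring
  rw [← eM, e2, ht] at B
  have hA := m1.lo
  rw [zero_mul, Real.exp_zero] at hA
  have hRw : th * wd μ s T ≤ thI * wd μ s T' := by
    have g1 := mul_le_mul_of_nonneg_left sw2 hth0.le
    have g2 := mul_le_mul_of_nonneg_right t1 hw'0.le
    linarith
  have hRc : th * wd μ s T + 2 ≤ Kc * wd μ s T' := by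
    have g1 := mul_le_mul_of_nonneg_left sw2 hth0.le
    have g2 := mul_le_mul_of_nonneg_right t2 hw'0.le
    linarith
  refine ⟨A, MI20.mono_dl (mi20 (J := 2 * J) B (fun a a' x x' ha hx => kW_minor η 0 nM ha hx) (Real.exp_pos _).le hw0 hw' hE' sE ?_
    (by positivity) sw2 ?_ ?_ hu' hsep' (by linarith) f6 f5 (by positivity) hRw ?_ hRc hbe f7 le_rfl le_rfl (by linarith) hA m1.up f11 f13
    (by linarith)) ?_ fun a x => kW_nonneg η 0 nM a x⟩
  · have h1 : (1 : ℝ) ≤ T' := by exact_mod_cast thT.one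
    have h2 := thT.RE
    have h3 : (1 : ℝ) ≤ (T' : ℝ) ^ 3 := one_le_pow₀ h1
    have h4 : (6 * (T' : ℝ)) ^ 3 = 216 * (T' : ℝ) ^ 3 := by ring
    rw [h4] at h2
    linarith
  · have g1 : 2 * (EE μ s T * wd μ s T') ≤ (8 * hM / c + 2) * (EE μ s T * wd μ s T') :=
      mul_le_mul_of_nonneg_right (by linarith) (by positivity)
    have g2 := mul_le_mul_of_nonneg_left (g1.trans shs) (show 0 ≤ c / 2 by linarith)
    linarith
  · have g1 : 8 * hM / c * (EE μ s T * wd μ s T') ≤ (8 * hM / c + 2) * (EE μ s T * wd μ s T') :=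
      mul_le_mul_of_nonneg_right (by linarith) (by positivity)
    have g2 := mul_le_mul_of_nonneg_left (g1.trans shs) hbe
    have e : c / 8 * (8 * hM / c * (EE μ s T * wd μ s T')) = hM * (wd μ s T' * EE μ s T) := by field_simp
    rw [e] at g2
    exact g2
  · refine hRw.trans ?_
    have := mul_le_mul_of_nonneg_right f2 hw'0.le
    linarith
  · rw [eT]
    exact dl20 f14 (by omega)

end

end Pool.Agent.W_7d29a1_C1.B26
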