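import Pool.Agent.W_7d29a1_C1.FrcP26

/-!
MP_7d29a1_pr, [C1] THE BUFFER OF THE FRESH BALL, second form, base 0, deterministic: `finM35` (`MO26` from the facts of the first block
and of the lanes), `finB35` (`BT26` from these and the facts of the typical rows). (helper35, over FrbE26, FrcH26 of helper26)
-/

set_option autoImplicit false

namespace Pool.Agent.W_7d29a1_C1.B26

open MeasureTheory ProbabilityTheory Filter Topology Finset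
open Pool.Agent.W_7d29a1_F Pool.Agent.W_7d29a1_h4g Pool.Agent.W_7d29a1_H Pool.Agent.W_7d29a1_HS
open Pool.Agent.W_7d29a1_C1
open Pool.Agent.W_7d29a1_C1.Basin76
open Pool.Agent.W_7d29a1_C1.U16 (fq16 fq16_one fq16_mono lat16)

noncomputable section

variable {μ : Measure ℝ} {s c C : ℝ} {n₀ : ℕ}

/-- Smaller start cells. -/
theorem IN26.mono_R {M : ℤ → ℤ → ℝ} {v w : ℝ} {n1 : ℕ} {u : Bool → ℤ} {R R' ρ E qM hM ε : ℝ} (I : IN26 M v w n1 u R ρ E qM hM ε)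
    (h : R' ≤ R) : IN26 M v w n1 u R' ρ E qM hM ε :=
  ⟨I.nn, fun i a ha y => I.up i a (ha.trans h) y, fun i a ha => I.lo i a (ha.trans h),
    fun i a a' ha ha' y y' hy hy' => I.rk i a a' (ha.trans h) (ha'.trans h) y y' hy hy'⟩

/-- The envelope of the first block and the lanes. -/
theorem pe_mf35 [IsProbabilityMeasure μ] {η : Env} {n1 T PI PT Pe : ℕ} {qF QI Qe : ℝ}
    (e₁ : PE26 (kW μ s η 0 n1) (lt26 (sl μ s) (wd μ s T) 0) (lt26 (sl μ s) (wd μ s T) n1) (EE μ s T) PI QI c)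
    (H5 : η ∈ UE26 μ s c T T PT (n1, cp26 (sl μ s) 0 n1) qF) (Cc : PC26 PI PT Pe QI (qF * C26 PT 1) Qe c c (3 * c / 4))
    (hqF : 0 ≤ qF) (hw1 : 1 ≤ wd μ s T) (hn : (n1 : ℝ) + 1 ≤ Real.exp (EE μ s T)) :
    PE26 (kW μ s η 0 (n1 + T)) (lt26 (sl μ s) (wd μ s T) 0) (lt26 (sl μ s) (wd μ s T) (n1 + T)) (EE μ s T) Pe Qe (3 * c / 4) := by
  have hw : 0 < wd μ s T := by linarith
  have e₂ := pe_unit26 (a := n1) (D := 1) (h := c) H5 le_rfl hqF hw hw1 le_rfl (le_of_eq (by ring)) zero_le_one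
    (le_of_eq (one_mul _).symm) rfl (by
      have := cp26_near (sl μ s) 0 n1
      rw [Int.cast_zero, sub_zero] at this
      exact this)
  exact pe_kW26 Cc (EE_pos (μ := μ) (s := s) T).le e₁ (by rw [zero_add]; exact e₂) hn

/-- The strength of the lane is at most `exp (Q1 E)`. -/
theorem upA35 [IsProbabilityMeasure μ] (h : In μ s c C n₀) {M : ℤ → ℤ → ℝ} {η : Env} {n1 T : ℕ} {u t : Bool → ℤ} {PF : ℕ}
    {qM qF ρ ωF th L G dd ε K0 K0' K3 QF kF hM be : ℝ}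
    (I : IN26 M (sl μ s) (wd μ s T) n1 u (th * wd μ s T) ρ (EE μ s T) qM hM ε) (H : FF26 μ s c η n1 T u t PF qF ρ ωF L G dd)
    (N : CN26 μ s c T PF qM qF ρ ωF th L dd K0 K0' K3 QF kF hM be) (hu : ∀ i, |(u i : ℝ)| ≤ K0 * wd μ s T)
    (ht : ∀ i, |(t i : ℝ) - sl μ s * (n1 + T : ℕ)| ≤ K0 * wd μ s T) :
    kW μ s η n1 T (cp26 (sl μ s) (u false) n1) (t false) ≤ Real.exp ((QF + kF * K0') * EE μ s T) := by
  have hE := EE_pos (μ := μ) (s := s) T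
  have D := lhC26 h I H N hu ht false
  have D2 := lhC26 h I H N hu ht true
  refine (D.Fup _ _).trans (Real.exp_le_exp.2 (mul_le_mul_of_nonneg_right ?_ hE.le))
  have h1 : |lt26 (sl μ s) (wd μ s T) n1 (cp26 (sl μ s) (u false) n1)| ≤ K0' := by
    have g1 := D2.C2 (cp26 (sl μ s) (u false) n1) (by
      show |((cp26 (sl μ s) (u false) n1 : ℤ) : ℝ) - cp26 (sl μ s) (u (!true)) n1| ≤ ρ
      rw [Bool.not_true, sub_self, abs_zero]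
      exact N.ρ0)
    have g2 := D.lK
    rw [Bool.not_true] at g1
    have g3 := abs_sub_abs_le_abs_sub (lt26 (sl μ s) (wd μ s T) n1 (cp26 (sl μ s) (u false) n1)) ((u false : ℝ) / wd μ s T)
    linarith
  have h2 := mul_le_mul_of_nonneg_left h1 N.kF0
  have h3 := mul_nonneg h.c0.le (abs_nonneg (lt26 (sl μ s) (wd μ s T) (n1 + T) (t false) -
    lt26 (sl μ s) (wd μ s T) n1 (cp26 (sl μ s) (u false) n1)))
  linarith

/-- **`MO26`, base 0.** -/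
theorem finM35 [IsProbabilityMeasure μ] (h : In μ s c C n₀) {A1 Q1 : ℝ} (hA1 : 1 ≤ A1) {η : Env} {n1 T : ℕ} {u t : Bool → ℤ}
    {PF PI Pe : ℕ} {qM qF ρ ωF th L G dd ε K0 K3 QF hM be be2 QI Qe : ℝ} (hA2 : A1 ≤ Real.exp (Q1 * EE μ s T))
    (I : IN26 (fun a y => kW μ s η 0 n1 a y / A1) (sl μ s) (wd μ s T) n1 u (th * wd μ s T) ρ (EE μ s T) qM hM ε)
    (pI : PE26 (kW μ s η 0 n1) (lt26 (sl μ s) (wd μ s T) 0) (lt26 (sl μ s) (wd μ s T) n1) (EE μ s T) PI QI c)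
    (H : FF26 μ s c η n1 T u t PF qF ρ ωF L G dd)
    (N : CN26 μ s c T PF qM qF ρ ωF th L dd K0 (K0 + 1) K3 QF (c / 16) hM be2) (hu : ∀ i, |(u i : ℝ)| ≤ K0 * wd μ s T)
    (ht : ∀ i, |(t i : ℝ) - sl μ s * (n1 + T : ℕ)| ≤ K0 * wd μ s T) {del g2 G2 g G' ell Q1' : ℝ}
    (hdel : (u false : ℝ) + del * wd μ s T ≤ u true) (hdt : (t false : ℝ) + del * wd μ s T ≤ t true) (hth : th ≤ del / 8) (hT1 : 1 ≤ T)
    (hnM : n1 ≤ T) (hRE : 2 * (6 * (T : ℝ)) ^ 3 ≤ Real.exp (EE μ s T))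
    (hg1 : g2 + (2 * qM + 2 * dd) ≤ hM * (del - 2 * (2 * th))) (Gq : Gq26 (K0 + 1) K3 qM hM QF G be2 G2 (c / 16))
    (hg20 : 0 ≤ g2) (hgG : g2 ≤ G2) (hl : 3 * qM + 2 * dd + 1 ≤ ell) (hg' : g + qM + dd + 1 ≤ g2) (hG' : G' + qM + dd + 1 ≤ G2)
    (hbe : be ≤ be2) (Cc : PC26 PI PF Pe QI (qF * C26 PF 1) Qe c c (3 * c / 4)) (hQ1 : Q1 + (QF + c / 16 * (K0 + 1)) ≤ Q1') :
    MO26 (kW μ s η 0 (n1 + T)) (lt26 (sl μ s) (wd μ s T) 0) (lt26 (sl μ s) (wd μ s T) (n1 + T)) (EE μ s T) u t (th * wd μ s T) ρ L Q1'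
      (A1 * kW μ s η n1 T (cp26 (sl μ s) (u false) n1) (t false)) ell g G' be Pe Qe (3 * c / 4) := by
  have hE := EE_pos (μ := μ) (s := s) T
  have hTr : (1 : ℝ) ≤ T := by exact_mod_cast hT1
  have hnr : (n1 : ℝ) ≤ T := by exact_mod_cast hnM
  have h3 : (1 : ℝ) ≤ (6 * (T : ℝ)) ^ 2 := by nlinarith
  have hT3 : 6 * (T : ℝ) ≤ (6 * (T : ℝ)) ^ 3 := by
    have e : (6 * (T : ℝ)) ^ 3 = 6 * (T : ℝ) * (6 * (T : ℝ)) ^ 2 := by ring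
    rw [e]
    exact le_mul_of_one_le_right (by linarith) h3
  have hA0 : 0 < A1 := by linarith
  have W0 : 0 ≤ kW μ s η n1 T (cp26 (sl μ s) (u false) n1) (t false) := kW_nonneg η n1 T _ _
  have A0 : 0 ≤ A1 * kW μ s η n1 T (cp26 (sl μ s) (u false) n1) (t false) := mul_nonneg hA0.le W0
  refine ⟨?_, ?_, ?_, ?_⟩
  · refine (H.f1 false).trans ?_
    exact le_mul_of_one_le_left W0 hA1
  · have g1 := mul_le_mul hA2 (upA35 h I H N hu ht) W0 (Real.exp_pos _).le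
    refine g1.trans ?_
    rw [← Real.exp_add, ← add_mul]
    exact Real.exp_le_exp.2 (mul_le_mul_of_nonneg_right hQ1 hE.le)
  · exact (mfC26 h hA0 I H N hu ht hdel hdt hth hT1 hnM (by linarith) hg1 Gq.g2 Gq.g3 hg20 hgG hl hg' hG').mono_be hbe hE.le A0
  · exact pe_mf35 pI H.f5 Cc N.qF0 N.w1 (by linarith)

/-- **`BT26`, base 0.** -/
theorem finB35 [IsProbabilityMeasure μ] (h : In μ s c C n₀) {A1 : ℝ} (hA1 : 0 < A1) {η : Env} {n1 T nB : ℕ} {u t : Bool → ℤ}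
    {P PF Pe Pw : ℕ} {J q qM qs qF ρ ωF th L G dd K b Kc ε K0 K3 QF QB hM hB be Qe Qw : ℝ}
    (I : IN26 (fun a y => kW μ s η 0 n1 a y / A1) (sl μ s) (wd μ s T) n1 u (th * wd μ s T) ρ (EE μ s T) qM hM ε)
    (H : FF26 μ s c η n1 T u t PF qF ρ ωF L G dd) (HB : Bct26 μ s c η n1 T nB t P q qs K b Kc)
    (N : CN26 μ s c T PF qM qF ρ ωF th L dd K0 (K0 + 1) K3 QF (c / 16) hM (be + c / 16))
    (NB : NB26 μ s c T nB P J q th QB (c / 16) hB) (hq0 : 0 ≤ q) (hqs : q * fq16 P 2 ≤ qs)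
    (hu : ∀ i, |(u i : ℝ)| ≤ K0 * wd μ s T) (ht : ∀ i, |(t i : ℝ) - sl μ s * (n1 + T : ℕ)| ≤ K0 * wd μ s T)
    {del gK g2 gP GK G2 G1 g gx gx' G' Kx ell δ : ℝ} (hdel : (u false : ℝ) + del * wd μ s T ≤ u true) (hT1 : 1 ≤ T)
    (hX : (K0 + 1) * wd μ s T ≤ T) (hnM : n1 ≤ T) (hnB : nB ≤ T) (hRE : 2 * (6 * (T : ℝ)) ^ 3 ≤ Real.exp (EE μ s T))
    (hg1 : g2 + (2 * qM + 2 * dd) ≤ hM * (del - 2 * (2 * th))) (Gq : Gq26 (K0 + 1) K3 qM hM QF G (be + c / 16) G2 (c / 16))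
    (hB0 : 0 ≤ hB) (be0 : 0 ≤ be) (n3 : be ≤ hB) (hBt : hB * (2 * th) ≤ 1) (hgP : gP = g + 1 + be * (K0 + 1))
    (hgK : gK = gP + qM + dd + 1) (hg2 : gK + qs + 1 ≤ g2) (hGK : gK ≤ GK) (hGb : b + 2 ≤ GK) (hGK1 : G1 + qM + dd + 1 ≤ GK)
    (hG2 : GK + QB ≤ G2) (m1 : G' ≤ G1) (m2 : g + 1 ≤ G1) (m3 : gx' + 1 ≤ G1) (hg0 : 0 ≤ g) (hgg : g ≤ gx') (hgx : gx ≤ gx')
    (hl : ell = 3 * qM + 2 * dd + qs + 3)
    (hex : 3 * qM + 2 * dd + qs + 2 + hB * (K0 + 1) + gx' + 1 ≤ (hB - be) * Kx)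
    (hsp : 3 * qM + 2 * dd + qs + 2 + be * (K0 + 1) + g + 1 ≤ (hB - be) * (del / 4)) (hε : 0 ≤ ε)
    (hδ : (1 + Real.exp (-EE μ s T)) ^ 2 * (1 + ε) ≤ 1 + δ) (hKx : 0 ≤ Kx) (hK0 : 0 ≤ K0) (hJ0 : 0 ≤ J)
    (Cc : PC26 Pe P Pw Qe (q * C26 P J) Qw (3 * c / 4) hB (c / 2))
    (pe : PE26 (kW μ s η 0 (n1 + T)) (lt26 (sl μ s) (wd μ s T) 0) (lt26 (sl μ s) (wd μ s T) (n1 + T)) (EE μ s T) Pe Qe (3 * c / 4)) :
    BT26 (kW μ s η 0 (n1 + (T + nB))) (lt26 (sl μ s) (wd μ s T) 0) (lt26 (sl μ s) (wd μ s T) (n1 + T + nB)) (EE μ s T) u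
      (fun i => lt26 (sl μ s) (wd μ s T) (n1 + T) (t i)) (th * wd μ s T) K Kx del
      (A1 * kW μ s η n1 T (cp26 (sl μ s) (u false) n1) (t false)) δ ell (b + qM + dd) Kc be g gx G' hB Pw Qw (c / 2) := by
  have hE := EE_pos (μ := μ) (s := s) T
  have hTr : (1 : ℝ) ≤ T := by exact_mod_cast hT1
  have hnr : (n1 : ℝ) ≤ T := by exact_mod_cast hnM
  have hT2 : 3 * (6 * (T : ℝ)) ^ 2 ≤ 2 * (6 * (T : ℝ)) ^ 3 := by
    have e : 2 * (6 * (T : ℝ)) ^ 3 = 12 * (T : ℝ) * (6 * (T : ℝ)) ^ 2 := by ring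
    rw [e]
    exact mul_le_mul_of_nonneg_right (by linarith) (by positivity)
  have h3 : (1 : ℝ) ≤ (6 * (T : ℝ)) ^ 2 := by nlinarith
  have hT3 : 6 * (T : ℝ) ≤ (6 * (T : ℝ)) ^ 3 := by
    have e : (6 * (T : ℝ)) ^ 3 = 6 * (T : ℝ) * (6 * (T : ℝ)) ^ 2 := by ring
    rw [e]
    exact le_mul_of_one_le_right (by linarith) h3
  have hqs0 : 0 ≤ qs := (mul_nonneg hq0 (by linarith [fq16_one P 2])).trans hqs
  have hqM := N.qM0
  have hdd := N.dd0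
  have hbK : 0 ≤ be * (K0 + 1) := mul_nonneg be0 (by linarith)
  have W0 : 0 ≤ kW μ s η n1 T (cp26 (sl μ s) (u false) n1) (t false) := kW_nonneg η n1 T _ _
  have A0 : 0 ≤ A1 * kW μ s η n1 T (cp26 (sl μ s) (u false) n1) (t false) := mul_nonneg hA1.le W0
  obtain ⟨k1, k2, k3⟩ := detC26 (J := J) (g := gK) (g2 := g2) (g' := gP) (G' := GK) (G2 := G2) (G1 := G1) (go := g) (gx := gx')
    (Kx := Kx) (ell := 3 * qM + 2 * dd + qs + 2) (ell0 := b + qM + dd) (δ := δ) h hA1 I H HB N NB hq0 hqs hu ht hdel hT1 hX hnM hnB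
    (by linarith) hg1 Gq.g2 Gq.g3 hB0 be0 le_rfl n3 (by linarith) hG2 hGK hGb (by linarith) le_rfl (by linarith) (by rw [hgK]) hGK1
    (by rw [hgP]) m2 m3 hg0 hgg hex hsp hε hδ hKx
  have e : ell = 3 * qM + 2 * dd + qs + 2 + 1 := by rw [hl]; ring
  refine ⟨⟨?_, k2.mono (by rw [hl]; linarith) (by rw [hgP]; linarith) m1 hE.le A0, ?_⟩, fun i y hy X hX => ?_⟩
  · rw [e]
    exact k1
  · refine pe_b26 pe HB.b0 Cc hq0 N.w1 NB.wB1 hJ0 NB.wJ NB.EB NB.sB ?_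
    push_cast
    linarith
  · refine (k3 i y hy X hX).trans (mul_le_mul_of_nonneg_right (Real.exp_le_exp.2 ?_) A0)
    have := mul_le_mul_of_nonneg_right hgx hE.le
    linarith

end

end Pool.Agent.W_7d29a1_C1.B26
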