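import Pool.Agent.W_7d29a1_C1.FrcE35

/-!
MP_7d29a1_pr, [C1] **THE BUFFER OF THE FRESH BALL, second form, base 0**: `frC026`, from the first block `StI26`, the lanes `StF26` and
the typical rows `StC26`. (helper35, over FrcP26, FrbF26 of helper26)
-/

set_option autoImplicit false

namespace Pool.Agent.W_7d29a1_C1.B26

open MeasureTheory ProbabilityTheory Filter Topology Finset
open Pool.Agent.W_7d29a1_F Pool.Agent.W_7d29a1_h4g Pool.Agent.W_7d29a1_H Pool.Agent.W_7d29a1_HS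
open Pool.Agent.W_7d29a1_C1
open Pool.Agent.W_7d29a1_C1.Basin76
open Pool.Agent.W_7d29a1_C1.U16 (fq16 fq16_one fq16_mono lat16)

noncomputable section

variable {μ : Measure ℝ} {s c C : ℝ} {n₀ : ℕ}

/-- **THE BUFFER OF THE FRESH BALL, SECOND FORM, base 0.** -/
theorem frC026 [IsProbabilityMeasure μ] (h : In μ s c C n₀) (hI : StI26 μ s c) (hF : StF26 μ s c) (hC : StC26 μ s c) :
    FrC026 μ s c := by
  intro eps heps
  have hc0 := h.c0
  have hc1 := h.c1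
  obtain ⟨qM, hqM, hI⟩ := hI
  obtain ⟨P, q, qs, hq0, hqs0, hqs, hC⟩ := hC eps heps
  obtain ⟨b₀, κ₀, hb₀, hκ₀, hEp⟩ := EE_pow h
  refine ⟨3 * qM + qs + 3, by linarith, fun th' K0 del rD dd be g L hth' hK0 hdel hrD hdd hbe hbe8 hg hL => ?_⟩
  -- the constants before the windows
  have hbK : 0 ≤ be * (K0 + 1) := mul_nonneg hbe (by linarith)
  obtain ⟨gP, hgP⟩ : ∃ x : ℝ, x = g + 1 + be * (K0 + 1) := ⟨_, rfl⟩
  obtain ⟨gK, hgK⟩ : ∃ x : ℝ, x = gP + qM + dd + 1 := ⟨_, rfl⟩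
  obtain ⟨g2, hg2⟩ : ∃ x : ℝ, x = gK + qs + 1 := ⟨_, rfl⟩
  have hg20 : 0 ≤ g2 := by rw [hg2, hgK, hgP]; linarith
  obtain ⟨hM, hhM⟩ : ∃ x : ℝ, x = c + 2 * (g2 + 2 * qM + 2 * dd) / del := ⟨_, rfl⟩
  have hMd : 0 ≤ 2 * (g2 + 2 * qM + 2 * dd) / del := by positivity
  have hMc : c ≤ hM := by rw [hhM]; linarith
  have hM0 : 0 < hM := by linarith
  obtain ⟨th1, cI, QI, Q1, PI, a, j, hth1, hcI, hQI, hQ1, ha, haj, p, Qi, kI, hp, hQi, hkI, hI⟩ := hI K0 del hM hK0 hdel hMc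
  have hj : 1 ≤ j := ha.trans haj
  obtain ⟨X2, hX2⟩ : ∃ x : ℝ, x = 3 * qM + 2 * dd + qs + 2 + be * (K0 + 1) + g + 1 := ⟨_, rfl⟩
  have hX20 : 0 ≤ X2 := by rw [hX2]; linarith
  obtain ⟨hB, hhB⟩ : ∃ x : ℝ, x = 2 * be + 1 + 8 * X2 / del := ⟨_, rfl⟩
  have hXd : 0 ≤ 8 * X2 / del := by positivity
  have hB1 : 1 ≤ hB := by rw [hhB]; linarith
  have hB0 : 0 < hB := by linarith
  obtain ⟨j2, QB, hj2, hj2J, hQB0, hC⟩ := hC K0 hB (1 / th') hK0 hB0.le
  have hj2R : (1 : ℝ) ≤ j2 := by exact_mod_cast hj2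
  obtain ⟨th, hth⟩ : ∃ x : ℝ, x = min (min (min th1 rD) (min (del / 8) (1 / 2))) (min (1 / (2 * hB)) (1 / (4 * j2))) := ⟨_, rfl⟩
  have hth0 : 0 < th := by rw [hth]; positivity
  have t1 : th ≤ th1 := by rw [hth]; exact (min_le_left _ _).trans ((min_le_left _ _).trans (min_le_left _ _))
  have t2 : th ≤ rD := by rw [hth]; exact (min_le_left _ _).trans ((min_le_left _ _).trans (min_le_right _ _))
  have t3 : th ≤ del / 8 := by rw [hth]; exact (min_le_left _ _).trans ((min_le_right _ _).trans (min_le_left _ _))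
  have t4 : th ≤ 1 / 2 := by rw [hth]; exact (min_le_left _ _).trans ((min_le_right _ _).trans (min_le_right _ _))
  have t5 : th ≤ 1 / (2 * hB) := by rw [hth]; exact (min_le_right _ _).trans (min_le_left _ _)
  have t6 : th ≤ 1 / (4 * j2) := by rw [hth]; exact (min_le_right _ _).trans (min_le_right _ _)
  obtain ⟨QF, qF, PT, hQF0, hqF0, hQFk, hF⟩ := hF K0 del dd (be + c / 16) g2 L th hM qM hK0 hdel hdd (by linarith) hg20 hL hth0 hM0 hqM
  obtain ⟨c', hc', nT, htol⟩ := tol26 1 le_rfl hb₀ hκ₀ hcI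
  have hCq : ∀ {P' : ℕ} {q' J : ℝ}, 0 ≤ q' → 0 ≤ J → 0 ≤ q' * C26 P' J := fun h1 h2 => mul_nonneg h1 (C26_nonneg _ h2)
  obtain ⟨Pe, Qe, hQe, -, -, Ce⟩ := pc26 PI PT (Q₁ := QI) (Q₂ := qF * C26 PT 1) (h₁ := c) (h₂ := c) (h := 3 * c / 4)
    hQI (hCq hqF0 zero_le_one) (by linarith) (by linarith) (by linarith)
  obtain ⟨Pw, Qw, hQw, -, -, Cw⟩ := pc26 Pe P (Q₁ := Qe) (Q₂ := q * C26 P (2 * j2)) (h₁ := 3 * c / 4) (h₂ := hB) (h := c / 2)
    hQe (hCq hq0 (by linarith)) (by linarith) (by linarith) (by linarith)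
  refine ⟨th, hB, 1 / (2 * j2), Q1 + (QF + c / 16 * (K0 + 1)), Qe, Qw, c', Pe, Pw, a, j, j2, hth0, t2, t3,
    by rw [hhB]; linarith, hB1, by positivity, ?_, hQe, hQw, hc', ha, haj, hj, hj2, ?_, fun Kw gx G' hKw hgx hG' => ?_⟩
  · have : 0 ≤ c / 16 * (K0 + 1) := by positivity
    linarith
  · rw [div_le_iff₀ hth'] at hj2J
    linarith
  -- the windows, the walls
  obtain ⟨gx', hgx'⟩ : ∃ x : ℝ, x = max gx g := ⟨_, rfl⟩
  have x1 : gx ≤ gx' := by rw [hgx']; exact le_max_left _ _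
  have x2 : g ≤ gx' := by rw [hgx']; exact le_max_right _ _
  have x0 : 0 ≤ gx' := hg.trans x2
  obtain ⟨Kx, hKx⟩ : ∃ x : ℝ, x = 2 * (3 * qM + 2 * dd + qs + 2 + hB * (K0 + 1) + gx' + 1) / hB := ⟨_, rfl⟩
  have hKx0 : 0 ≤ Kx := by rw [hKx]; positivity
  obtain ⟨K, hK⟩ : ∃ x : ℝ, x = max Kw (Kx + 1) := ⟨_, rfl⟩
  have hKK1 : Kw ≤ K := by rw [hK]; exact le_max_left _ _
  have hKK2 : Kx + 1 ≤ K := by rw [hK]; exact le_max_right _ _
  obtain ⟨b, nC, hb0, hC⟩ := hC K (hKw.trans hKK1)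
  obtain ⟨G1, hG1⟩ : ∃ x : ℝ, x = max G' (max (g + 1) (gx' + 1)) := ⟨_, rfl⟩
  have m1 : G' ≤ G1 := by rw [hG1]; exact le_max_left _ _
  have m2 : g + 1 ≤ G1 := by rw [hG1]; exact (le_max_left _ _).trans (le_max_right _ _)
  have m3 : gx' + 1 ≤ G1 := by rw [hG1]; exact (le_max_right _ _).trans (le_max_right _ _)
  obtain ⟨GK, hGK⟩ : ∃ x : ℝ, x = max (max gK (b + 2)) (G1 + qM + dd + 1) := ⟨_, rfl⟩
  have e1 : gK ≤ GK := by rw [hGK]; exact (le_max_left _ _).trans (le_max_left _ _)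
  have e2 : b + 2 ≤ GK := by rw [hGK]; exact (le_max_right _ _).trans (le_max_left _ _)
  have e3 : G1 + qM + dd + 1 ≤ GK := by rw [hGK]; exact le_max_right _ _
  obtain ⟨G2, hG2⟩ : ∃ x : ℝ, x = max g2 (GK + QB) := ⟨_, rfl⟩
  have e4 : g2 ≤ G2 := by rw [hG2]; exact le_max_left _ _
  have e5 : GK + QB ≤ G2 := by rw [hG2]; exact le_max_right _ _
  obtain ⟨K3, G, c₁, QT, nF, hc₁, hQT, hnF, hK3, Gq, hF⟩ := hF G2 e4
  obtain ⟨N1, hN1⟩ := th26 h hth0 (K0 + 1)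
  have hGK0 : 0 ≤ b + qM + dd := by linarith
  refine ⟨K, Kx, b + qM + dd, p * c₁, Qi * QT, kI + nC + nF + nT + N1 + 1, hKx0, hKK2, hKK1, hGK0, by positivity,
    Nat.mul_pos hQi hQT, by omega, fun k hk nM T nB hnM hTT hnB => ?_⟩
  have eI1 : nM = Qi * a * (QT * j2 * k) := by rw [hnM]; ring
  have eI2 : T = Qi * j * (QT * j2 * k) := by rw [hTT]; ring
  have eF : T = QT * (Qi * (j * j2) * k) := by rw [hTT]; ring
  have eC : T = j2 * nB := by rw [hTT, hnB]; ring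
  have kI1 : k ≤ QT * j2 * k := Nat.le_mul_of_pos_left k (Nat.mul_pos hQT hj2)
  have kF1 : k ≤ Qi * (j * j2) * k := Nat.le_mul_of_pos_left k (Nat.mul_pos hQi (Nat.mul_pos hj hj2))
  have kB1 : k ≤ nB := by rw [hnB]; exact Nat.le_mul_of_pos_left k (Nat.mul_pos (Nat.mul_pos hQi hQT) hj)
  have hBT : nB ≤ T := by rw [eC]; exact Nat.le_mul_of_pos_left nB hj2
  have hMT : nM ≤ T := by
    rw [eI1, eI2]
    exact Nat.mul_le_mul_right _ (Nat.mul_le_mul_left _ haj)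
  have thT := hN1 T (by omega)
  obtain ⟨r, hr0, hr1, hF⟩ := hF (Qi * (j * j2) * k) (by omega) T eF
  obtain ⟨NB, hC⟩ := hC nB T (by omega) eC th hth0.le t6
  have hw2 := thT.w2
  have hw0 : 0 < wd μ s T := by linarith
  have hr1' : r ≤ th1 * wd μ s T := hr1.trans (mul_le_mul_of_nonneg_right t1 hw0.le)
  refine ⟨r, hr0, hr1, thT.thw, fun u t hu ht hsep hset => ?_⟩
  obtain ⟨SI, i1, i2, i3, i4⟩ := hI (QT * j2 * k) (by omega) nM T eI1 eI2 r hr0 hr1' u hu hsep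
  obtain ⟨SF, f1, f2, f3, f4⟩ := hF nM u t hu ht hsep hset
  obtain ⟨SB, b1, b2, b3, b4⟩ := hC nM t ht
  obtain ⟨w1, w2, w3⟩ := indep26 (μ := μ) (show (0 : ℤ) ≤ nM by omega) (show (nM : ℤ) ≤ (nM : ℤ) + T by omega) i2 f2 i1 f1 hp.le hc₁.le
    i3 f3
  refine ⟨SI ∩ SF, SB, w2, b1, w1, b2, w3, b3, fun η hη => ?_⟩
  obtain ⟨A1, hA1, hA2, I0, pI⟩ := i4 η hη.1
  have H := f4 η hη.2
  have I := I0.mono_R (mul_le_mul_of_nonneg_right t1 hw0.le)
  have hA0 : 0 < A1 := by linarith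
  -- the numbers
  have NN : CN26 μ s c T PT qM qF r ((K3 + 1) * wd μ s T) th L dd K0 (K0 + 1) K3 QF (c / 16) hM (be + c / 16) :=
    ⟨by linarith, thT.thw, hr0, hr1, by linarith, by linarith, hqF0, hQFk, hL, hdd.le, hQF0, by linarith, by linarith, hK0, by linarith,
      hM0.le, hqM, by linarith, by linarith⟩
  have hg1 : g2 + (2 * qM + 2 * dd) ≤ hM * (del - 2 * (2 * th)) := by
    have g1 : hM * (del / 2) ≤ hM * (del - 2 * (2 * th)) := mul_le_mul_of_nonneg_left (by linarith) hM0.le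
    have g3 : g2 + 2 * qM + 2 * dd ≤ hM * (del / 2) := by
      rw [hhM]
      have e : (c + 2 * (g2 + 2 * qM + 2 * dd) / del) * (del / 2) = c * (del / 2) + (g2 + 2 * qM + 2 * dd) := by field_simp
      rw [e]
      have : 0 ≤ c * (del / 2) := by positivity
      linarith
    linarith
  have hMO := finM35 (g := g) (G' := G') (ell := 3 * qM + qs + 3 + 2 * dd) (Q1' := Q1 + (QF + c / 16 * (K0 + 1))) (be := be) (Pe := Pe)
    (Qe := Qe) h hA1 hA2 I pI H NN hu ht hsep hset t3 thT.one hMT thT.RE hg1 Gq hg20 e4 (by linarith)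
    (by rw [hg2, hgK, hgP]; linarith) (by linarith) (by linarith) Ce le_rfl
  refine ⟨A1 * kW μ s η nM T (cp26 (sl μ s) (u false) nM) (t false), hMO, fun hηB => ?_⟩
  have hBB := b4 η hηB
  have hth2 : hB * (2 * th) ≤ 1 := by
    rw [le_div_iff₀ (by positivity)] at t5
    linarith
  refine finB35 (gK := gK) (gP := gP) (GK := GK) (G1 := G1) (gx' := gx') (J := 2 * j2) h hA0 I H hBB NN NB hq0 hqs hu ht hsep thT.one thT.KT hMT hBT
    thT.RE hg1 Gq hB0.le hbe (by rw [hhB]; linarith) hth2 hgP hgK hg2.ge e1 e2 e3 e5 m1 m2 m3 hg x2 x1 (by ring) ?_ ?_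
    (Real.exp_pos _).le ?_ hKx0 hK0 (by linarith) Cw hMO.pe
  · have g1 : hB / 2 * Kx ≤ (hB - be) * Kx := mul_le_mul_of_nonneg_right (by rw [hhB]; linarith) hKx0
    have g3 : hB / 2 * Kx = 3 * qM + 2 * dd + qs + 2 + hB * (K0 + 1) + gx' + 1 := by
      rw [hKx]
      field_simp
    linarith
  · have g1 : hB / 2 * (del / 4) ≤ (hB - be) * (del / 4) := mul_le_mul_of_nonneg_right (by rw [hhB]; linarith) (by positivity)
    have g3 : X2 ≤ hB / 2 * (del / 4) := by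
      rw [hhB]
      have e1 : (2 * be + 1 + 8 * X2 / del) / 2 * (del / 4) = (2 * be + 1) * del / 8 + X2 := by field_simp; norm_num
      rw [e1]
      have : 0 ≤ (2 * be + 1) * del / 8 := by positivity
      linarith
    rw [hX2] at g3
    linarith
  · exact htol T (by omega) T (by omega) (EE μ s T) (hEp T thT.one)

end

end Pool.Agent.W_7d29a1_C1.B26
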