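import Pool.Agent.W_7d29a1_C1.FrcK26

/-!
MP_7d29a1_pr, [C1] THE BUFFER OF THE FRESH BALL, RANK ONE OVER BOTH LANES, kernels of the model. (helper26)

`IN26`: the facts of the first kernel (divided by its strength `A1`); `FF26`: the facts of the lanes; `lhC26`: the data of each lane;
`mfC26`: the output `MF26`; `khC26`: the data of the three kernels.
-/

set_option autoImplicit false

namespace Pool.Agent.W_7d29a1_C1.B26

open MeasureTheory ProbabilityTheory Filter Topology Finset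
open Pool.Agent.W_7d29a1_F Pool.Agent.W_7d29a1_h4g Pool.Agent.W_7d29a1_H Pool.Agent.W_7d29a1_HS
open Pool.Agent.W_7d29a1_C1
open Pool.Agent.W_7d29a1_C1.CR76 Pool.Agent.W_7d29a1_C1.Basin76
open Pool.Agent.W_7d29a1_C1.U16 (fq16 fq16_one fq16_mono lat16)

noncomputable section

/-! ### Scaling of the kernel -/

section scale

variable {N N' Kr Kr' : ℤ → ℤ → ℝ} {L0 Lp L3 : ℤ → ℝ} {E : ℝ} {u t : Bool → ℤ} {mu : Bool → ℝ}
  {R r A ell g G' be hB K Kx del δ ellw Kc gx A1 : ℝ}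

theorem MF26.scale (H : MF26 N Lp u t R r E A ell g G' be) (hA1 : 0 ≤ A1) (hN : ∀ x y, N' x y = A1 * N x y) :
    MF26 N' Lp u t R r E (A1 * A) ell g G' be := by
  refine ⟨fun i x hx => ?_, fun i x hx y => ?_, fun i x hx y hy => ?_, fun i x hx y hy => ?_⟩
  · rw [hN]
    have := mul_le_mul_of_nonneg_left (H.low i x hx) hA1
    linarith
  · rw [hN]
    have := mul_le_mul_of_nonneg_left (H.up i x hx y) hA1
    linarith
  · rw [hN]
    have := mul_le_mul_of_nonneg_left (H.crs i x hx y hy) hA1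
    linarith
  · rw [hN]
    have := mul_le_mul_of_nonneg_left (H.off i x hx y hy) hA1
    linarith

theorem PtW26.scale (H : PtW26 Kr L3 u mu R E A ell g G' be hB) (hA1 : 0 ≤ A1) (hK : ∀ x y, Kr' x y = A1 * Kr x y) :
    PtW26 Kr' L3 u mu R E (A1 * A) ell g G' be hB := by
  intro i y hy x
  rw [hK]
  have := mul_le_mul_of_nonneg_left (H i y hy x) hA1
  refine this.trans (le_of_eq ?_)
  ring

theorem ExW26.scale (H : ExW26 Kr L3 u R E Kx A gx be) (hA1 : 0 ≤ A1) (hK : ∀ x y, Kr' x y = A1 * Kr x y) :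
    ExW26 Kr' L3 u R E Kx (A1 * A) gx be := by
  intro i y hy X hX
  have h1 := mul_le_mul_of_nonneg_left (H i y hy X hX) hA1
  have e : ∑ x ∈ X, Kr' y x * Real.exp (be * |L3 x| * E) = A1 * ∑ x ∈ X, Kr y x * Real.exp (be * |L3 x| * E) := by
    rw [mul_sum]
    refine sum_congr rfl fun x _ => ?_
    rw [hK]
    ring
  rw [e]
  linarith

theorem CR_scale26 (hA1 : 0 < A1) (hK : ∀ x y, Kr' x y = A1 * Kr x y) (y y' x x' : ℤ) : CR Kr' y y' x x' = CR Kr y y' x x' := by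
  unfold CR
  rw [hK, hK, hK, hK]
  have e1 : A1 * Kr y x * (A1 * Kr y' x') = (A1 * A1) * (Kr y x * Kr y' x') := by ring
  have e2 : A1 * Kr y x' * (A1 * Kr y' x) = (A1 * A1) * (Kr y x' * Kr y' x) := by ring
  rw [e1, e2, mul_div_mul_left _ _ (by positivity)]

theorem BufO26.scale {lam1 lam2 : ℝ} {a1 b1 a2 b2 xa xb s0 : ℤ}
    (H : BufO26 Kr L3 E lam1 lam2 a1 b1 a2 b2 xa xb s0 A δ ell ellw Kc be g) (hA1 : 0 < A1) (hK : ∀ x y, Kr' x y = A1 * Kr x y) :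
    BufO26 Kr' L3 E lam1 lam2 a1 b1 a2 b2 xa xb s0 (A1 * A) δ ell ellw Kc be g := by
  have e : ∀ (y : ℤ) (X : Finset ℤ), ∑ x ∈ X, Kr' y x * Real.exp (be * |L3 x| * E) = A1 * ∑ x ∈ X, Kr y x * Real.exp (be * |L3 x| * E) :=
      fun y X => by
    rw [mul_sum]
    refine sum_congr rfl fun x _ => ?_
    rw [hK]
    ring
  refine ⟨?_, ?_, fun y h1 h2 x hx => ?_, fun y h1 h2 x hx => ?_, fun y hy x h1 h2 => ?_, fun y hy x => ?_, fun y hy X hX => ?_,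
    fun y hy X hX => ?_, fun y h1 h2 X hX => ?_, fun y h1 h2 X hX => ?_⟩
  · rw [CR_scale26 hA1 hK]
    exact H.cr1
  · rw [CR_scale26 hA1 hK]
    exact H.cr2
  · rw [hK]
    have := mul_le_mul_of_nonneg_left (H.lowc1 y h1 h2 x hx) hA1.le
    linarith
  · rw [hK]
    have := mul_le_mul_of_nonneg_left (H.lowc2 y h1 h2 x hx) hA1.le
    linarith
  · rw [hK]
    have := mul_le_mul_of_nonneg_left (H.loww y hy x h1 h2) hA1.le
    linarith
  · rw [hK]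
    have := mul_le_mul_of_nonneg_left (H.up y hy x) hA1.le
    linarith
  · rw [e]
    have := mul_le_mul_of_nonneg_left (H.exl y hy X hX) hA1.le
    linarith
  · rw [e]
    have := mul_le_mul_of_nonneg_left (H.exr y hy X hX) hA1.le
    linarith
  · rw [e]
    have := mul_le_mul_of_nonneg_left (H.sep1 y h1 h2 X hX) hA1.le
    linarith
  · rw [e]
    have := mul_le_mul_of_nonneg_left (H.sep2 y h1 h2 X hX) hA1.le
    linarith

end scale

/-! ### The facts -/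

/-- The facts of the first kernel, rows `0 .. n1`. -/
structure IN26 (M : ℤ → ℤ → ℝ) (v w : ℝ) (n1 : ℕ) (u : Bool → ℤ) (R ρ E qM hM ε : ℝ) : Prop where
  nn : ∀ a y, 0 ≤ M a y
  up : ∀ (i : Bool) (a : ℤ), |(a : ℝ) - u i| ≤ R → ∀ y, M a y ≤ Real.exp ((qM - hM * |lt26 v w n1 y - lt26 v w 0 a|) * E)
  lo : ∀ (i : Bool) (a : ℤ), |(a : ℝ) - u i| ≤ R → Real.exp (-(qM * E)) ≤ M a (cp26 v (u i) n1)
  rk : ∀ (i : Bool) (a a' : ℤ), |(a : ℝ) - u i| ≤ R → |(a' : ℝ) - u i| ≤ R → ∀ y y' : ℤ,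
    (∃ j, |(y : ℝ) - cp26 v (u j) n1| ≤ ρ) → (∃ j, |(y' : ℝ) - cp26 v (u j) n1| ≤ ρ) → M a y * M a' y' ≤ (1 + ε) * (M a y' * M a' y)

variable {μ : Measure ℝ} {s c C : ℝ} {n₀ : ℕ}

/-- The facts of the lanes `F`, rows `n1 .. n1 + T`. -/
structure FF26 (μ : Measure ℝ) (s c : ℝ) (η : Env) (n1 T : ℕ) (u t : Bool → ℤ) (PF : ℕ) (qF ρ ωF L G dd : ℝ) : Prop where
  f1 : ∀ i, Real.exp (L * EE μ s T) ≤ kW μ s η n1 T (cp26 (sl μ s) (u i) n1) (t i)
  f2 : ∀ x y : ℤ, |(x : ℝ) - cp26 (sl μ s) 0 n1| ≤ ωF →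
    (∀ i, ¬ (|(x : ℝ) - cp26 (sl μ s) (u i) n1| ≤ ρ ∧ |(y : ℝ) - t i| ≤ ρ)) → kW μ s η n1 T x y ≤ Real.exp (-(G * EE μ s T))
  f3 : ∀ i (x y : ℤ), |(x : ℝ) - cp26 (sl μ s) (u i) n1| ≤ ρ → |(y : ℝ) - t i| ≤ ρ →
    kW μ s η n1 T x y ≤ Real.exp (dd * EE μ s T) * kW μ s η n1 T (cp26 (sl μ s) (u i) n1) (t i)
  f4 : |Real.log (kW μ s η n1 T (cp26 (sl μ s) (u true) n1) (t true)) -
    Real.log (kW μ s η n1 T (cp26 (sl μ s) (u false) n1) (t false))| ≤ dd * EE μ s T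
  f5 : η ∈ UE26 μ s c T T PF (n1, cp26 (sl μ s) 0 n1) qF

/-- The numbers. -/
structure CN26 (μ : Measure ℝ) (s c : ℝ) (T PF : ℕ) (qM qF ρ ωF th L dd K0 K0' K3 QF kF hM be : ℝ) : Prop where
  w1 : 1 ≤ wd μ s T
  th1 : 1 ≤ th * wd μ s T
  ρ0 : 0 ≤ ρ
  ρ1 : ρ ≤ th * wd μ s T
  KK : K0 + 2 * th ≤ K0'
  K3ω : K3 * wd μ s T + 1 ≤ ωF
  qF0 : 0 ≤ qF
  QFk : ∀ t : ℝ, 0 ≤ t → qF * fq16 PF (t + 2) ≤ QF + kF * t
  L0 : 0 ≤ L
  dd0 : 0 ≤ dd
  QF0 : 0 ≤ QF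
  kF0 : 0 ≤ kF
  be0 : 0 ≤ be
  K00 : 0 ≤ K0
  K30 : 0 ≤ K3
  hM0 : 0 ≤ hM
  qM0 : 0 ≤ qM
  n1 : 2 * (kF + be) ≤ hM
  n2 : 2 * be ≤ c

/-- **The data of each lane.** -/
theorem lhC26 [IsProbabilityMeasure μ] (h : In μ s c C n₀) {M : ℤ → ℤ → ℝ} {η : Env} {n1 T : ℕ} {u t : Bool → ℤ} {PF : ℕ}
    {qM qF ρ ωF th L G dd ε K0 K0' K3 QF kF hM be : ℝ}
    (I : IN26 M (sl μ s) (wd μ s T) n1 u (th * wd μ s T) ρ (EE μ s T) qM hM ε)
    (H : FF26 μ s c η n1 T u t PF qF ρ ωF L G dd)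
    (N : CN26 μ s c T PF qM qF ρ ωF th L dd K0 K0' K3 QF kF hM be) (hu : ∀ i, |(u i : ℝ)| ≤ K0 * wd μ s T)
    (ht : ∀ i, |(t i : ℝ) - sl μ s * (n1 + T : ℕ)| ≤ K0 * wd μ s T) (i : Bool) :
    LH26 M (kW μ s η n1 T) (lt26 (sl μ s) (wd μ s T) 0) (lt26 (sl μ s) (wd μ s T) n1)
      (lt26 (sl μ s) (wd μ s T) (n1 + T)) {a | |(a : ℝ) - u i| ≤ th * wd μ s T}
      {y | |(y : ℝ) - cp26 (sl μ s) (u i) n1| ≤ ρ} {y | |(y : ℝ) - t i| ≤ ρ}
      {y | |(y : ℝ) - cp26 (sl μ s) (u (!i)) n1| ≤ ρ} {y | |(y : ℝ) - t (!i)| ≤ ρ}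
      (cp26 (sl μ s) (u i) n1) (t i) (u i / wd μ s T) (u (!i) / wd μ s T) K0' K3 (EE μ s T) qM hM QF kF c G dd
      (kW μ s η n1 T (cp26 (sl μ s) (u i) n1) (t i)) (kW μ s η n1 T (cp26 (sl μ s) (u (!i)) n1) (t (!i))) (2 * th) be L := by
  have hw1 := N.w1
  have hw : 0 < wd μ s T := by linarith
  have hE := EE_pos (μ := μ) (s := s) T
  have hρ0 := N.ρ0
  have hth : 0 < th := by
    by_contra hcon
    have := mul_nonpos_of_nonpos_of_nonneg (not_lt.1 hcon) hw.le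
    linarith [N.th1]
  have hF0 : ∀ j : Bool, 0 < kW μ s η n1 T (cp26 (sl μ s) (u j) n1) (t j) := fun j =>
    lt_of_lt_of_le (Real.exp_pos _) (H.f1 j)
  have mem0 : ∀ x : ℤ, |(x : ℝ) - x| ≤ ρ := fun x => by rw [sub_self, abs_zero]; exact hρ0
  -- the cells in the coordinates
  have cell : ∀ (j : Bool) (y : ℤ), |(y : ℝ) - cp26 (sl μ s) (u j) n1| ≤ ρ →
      |lt26 (sl μ s) (wd μ s T) n1 y - u j / wd μ s T| ≤ 2 * th := by
    intro j y hy
    unfold lt26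
    rw [← sub_div, abs_div, abs_of_pos hw, div_le_iff₀ hw]
    have h1 := cp26_near (sl μ s) (u j) n1
    have e : (y : ℝ) - sl μ s * n1 - u j = ((y : ℝ) - cp26 (sl μ s) (u j) n1) + ((cp26 (sl μ s) (u j) n1 : ℝ) - u j - sl μ s * n1) := by
      ring
    rw [e]
    refine (abs_add_le _ _).trans ?_
    linarith [N.ρ1, N.th1]
  have lam : ∀ j : Bool, |(u j : ℝ) / wd μ s T| + 2 * th ≤ K0' := by
    intro j
    have h1 := hu j
    rw [abs_div, abs_of_pos hw]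
    have h2 : |(u j : ℝ)| / wd μ s T ≤ K0 := by rw [div_le_iff₀ hw]; exact h1
    linarith [N.KK]
  have hK0' : 0 ≤ K0' := by
    have := lam i
    have := abs_nonneg ((u i : ℝ) / wd μ s T)
    linarith
  have endK : ∀ (j : Bool) (y : ℤ), |(y : ℝ) - t j| ≤ ρ → |lt26 (sl μ s) (wd μ s T) (n1 + T) y| ≤ K0' := by
    intro j y hy
    have h1 := cellT26 (v := sl μ s) (th := th) hw1 N.ρ1 (n1 + T) (t j) y hy
    have h2 : |lt26 (sl μ s) (wd μ s T) (n1 + T) (t j)| ≤ K0 := by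
      unfold lt26
      rw [abs_div, abs_of_pos hw, div_le_iff₀ hw]
      exact ht j
    have h3 := abs_sub_abs_le_abs_sub (lt26 (sl μ s) (wd μ s T) (n1 + T) y) (lt26 (sl μ s) (wd μ s T) (n1 + T) (t j))
    linarith [N.KK]
  refine ⟨hE, I.nn, fun a y => kW_nonneg η n1 T a y, mem0 _, mem0 _,
    by linarith, fun a ha => ?_, fun y hy => cell (!i) y hy, fun y hy => endK (!i) y hy, lam i, fun a ha y => I.up i a ha y,
    fun a ha => I.lo i a ha, H.f1 i, le_rfl, ?_, fun y hy z hz => H.f3 i y z hy hz, fun y hy z hz => H.f3 (!i) y z hy hz,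
    fun x y hx h1 h2 => ?_, fun x y => ?_, N.L0, ⟨N.qM0, N.QF0, N.dd0, N.hM0, h.c0.le, N.kF0, N.be0, hK0', N.K30⟩, N.n1, N.n2⟩
  · -- A1
    have ha' : |(a : ℝ) - u i| ≤ th * wd μ s T := ha
    unfold lt26
    rw [Nat.cast_zero, mul_zero, sub_zero, ← sub_div, abs_div, abs_of_pos hw, div_le_iff₀ hw]
    linarith [N.th1]
  · -- WW
    have h1 := other26 (W := fun j => Real.log (kW μ s η n1 T (cp26 (sl μ s) (u j) n1) (t j))) H.f4 i
    have h2 := Real.exp_le_exp.2 h1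
    rw [Real.exp_add, Real.exp_log (hF0 _), Real.exp_log (hF0 _)] at h2
    exact h2
  · -- Fo
    refine H.f2 x y ?_ fun j => ?_
    · unfold lt26 at hx
      rw [abs_div, abs_of_pos hw, div_le_iff₀ hw] at hx
      have h3 := cp26_near (sl μ s) 0 n1
      have e : (x : ℝ) - cp26 (sl μ s) 0 n1 = ((x : ℝ) - sl μ s * n1) - ((cp26 (sl μ s) 0 n1 : ℝ) - (0 : ℤ) - sl μ s * n1) := by
        push_cast
        ring
      rw [e]
      refine (abs_sub _ _).trans ?_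
      linarith [N.K3ω]
    · rcases Bool.eq_or_eq_not j i with hj | hj
      · rw [hj]
        exact h1
      · rw [hj]
        exact h2
  · -- Fup
    have h3 := cp26_near (sl μ s) 0 n1
    have h1 := up_unit26 H.f5 le_rfl N.qF0 hw hw le_rfl (h := c) (le_of_eq (by ring)) x y
      (Y := |lt26 (sl μ s) (wd μ s T) n1 x| + 2) (by
      have e : (x : ℝ) - cp26 (sl μ s) 0 n1 = ((x : ℝ) - sl μ s * n1) - ((cp26 (sl μ s) 0 n1 : ℝ) - (0 : ℤ) - sl μ s * n1) := by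
        push_cast
        ring
      have h4 : |(x : ℝ) - cp26 (sl μ s) 0 n1| ≤ |(x : ℝ) - sl μ s * n1| + 1 := by
        rw [e]
        exact (abs_sub _ _).trans (by linarith)
      have h5 : |(x : ℝ) - cp26 (sl μ s) 0 n1| / wd μ s T ≤ |lt26 (sl μ s) (wd μ s T) n1 x| + 1 := by
        unfold lt26
        rw [abs_div, abs_of_pos hw, div_le_iff₀ hw]
        have e2 : (|(x : ℝ) - sl μ s * n1| / wd μ s T + 1) * wd μ s T = |(x : ℝ) - sl μ s * n1| + wd μ s T := by field_simp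
        rw [e2]
        linarith
      linarith)
    rw [← lt26_sub (sl μ s) (wd μ s T) n1 T x y] at h1
    refine h1.trans (Real.exp_le_exp.2 (mul_le_mul_of_nonneg_right ?_ hE.le))
    linarith [N.QFk _ (abs_nonneg (lt26 (sl μ s) (wd μ s T) n1 x))]

/-- **The output of the lanes**, strength `A1` of the first kernel times the strength of the lane. -/
theorem mfC26 [IsProbabilityMeasure μ] (h : In μ s c C n₀) {A1 : ℝ} (hA1 : 0 < A1) {η : Env} {n1 T : ℕ} {u t : Bool → ℤ} {PF : ℕ}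
    {qM qF ρ ωF th L G dd ε K0 K0' K3 QF kF hM be : ℝ}
    (I : IN26 (fun a y => kW μ s η 0 n1 a y / A1) (sl μ s) (wd μ s T) n1 u (th * wd μ s T) ρ (EE μ s T) qM hM ε)
    (H : FF26 μ s c η n1 T u t PF qF ρ ωF L G dd)
    (N : CN26 μ s c T PF qM qF ρ ωF th L dd K0 K0' K3 QF kF hM be) (hu : ∀ i, |(u i : ℝ)| ≤ K0 * wd μ s T)
    (ht : ∀ i, |(t i : ℝ) - sl μ s * (n1 + T : ℕ)| ≤ K0 * wd μ s T) {del g2 G2 g' G1 ell : ℝ}
    (hdel : (u false : ℝ) + del * wd μ s T ≤ u true) (hdt : (t false : ℝ) + del * wd μ s T ≤ t true) (hth : th ≤ del / 8) (hT1 : 1 ≤ T)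
    (hnM : n1 ≤ T) (hRE : 2 * (6 * (T : ℝ)) ≤ Real.exp (EE μ s T))
    (hg1 : g2 + (2 * qM + 2 * dd) ≤ hM * (del - 2 * (2 * th)))
    (hg2 : G2 + (2 * qM + QF / 2 + (kF + be) * K0') ≤ G / 2) (hg3 : G2 + (2 * qM + QF + (kF + be) * K0') ≤ hM / 2 * (K3 - K0'))
    (hg20 : 0 ≤ g2) (hgG : g2 ≤ G2) (hl : 3 * qM + 2 * dd + 1 ≤ ell) (hg' : g' + qM + dd + 1 ≤ g2) (hG' : G1 + qM + dd + 1 ≤ G2) :
    MF26 (kW μ s η 0 (n1 + T)) (lt26 (sl μ s) (wd μ s T) (n1 + T)) u t (th * wd μ s T) ρ (EE μ s T)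
      (A1 * kW μ s η n1 T (cp26 (sl μ s) (u false) n1) (t false)) ell g' G1 be := by
  have hw : 0 < wd μ s T := by linarith [N.w1]
  have hE := EE_pos (μ := μ) (s := s) T
  obtain ⟨Nk, hNk⟩ : ∃ N : ℤ → ℤ → ℝ, N = fun x v => kW μ s η 0 (n1 + T) x v / A1 := ⟨_, rfl⟩
  have hsc : ∀ x y, kW μ s η 0 (n1 + T) x y = A1 * Nk x y := fun x y => by
    rw [hNk]
    show _ = A1 * (kW μ s η 0 (n1 + T) x y / A1)
    rw [mul_div_cancel₀ _ hA1.ne']
  have key : ∀ (i : Bool) (x : ℤ), |(x : ℝ) - u i| ≤ th * wd μ s T →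
      Real.exp (-(ell * EE μ s T)) * kW μ s η n1 T (cp26 (sl μ s) (u false) n1) (t false) ≤ Nk x (t i) ∧
      (∀ v : ℤ, Nk x v ≤ Real.exp (ell * EE μ s T) * kW μ s η n1 T (cp26 (sl μ s) (u false) n1) (t false)) ∧
      (∀ v : ℤ, ¬ |(v : ℝ) - t i| ≤ ρ → Nk x v ≤
        Real.exp (-(g' * EE μ s T)) * kW μ s η n1 T (cp26 (sl μ s) (u false) n1) (t false)) ∧
      ∀ v : ℤ, ¬ |(v : ℝ) - t i| ≤ ρ → ¬ |(v : ℝ) - t (!i)| ≤ ρ → Nk x v ≤
        Real.exp ((-G1 - be * |lt26 (sl μ s) (wd μ s T) (n1 + T) v|) * EE μ s T) *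
          kW μ s η n1 T (cp26 (sl μ s) (u false) n1) (t false) := by
    intro i x hx
    have D := lhC26 h I H N hu ht i
    have hWW : ∀ j : Bool, kW μ s η n1 T (cp26 (sl μ s) (u j) n1) (t j) ≤
        Real.exp (dd * EE μ s T) * kW μ s η n1 T (cp26 (sl μ s) (u false) n1) (t false) := by
      intro j
      cases j
      · have : (1 : ℝ) ≤ Real.exp (dd * EE μ s T) := Real.one_le_exp (mul_nonneg N.dd0 hE.le)
        have h0 : 0 ≤ kW μ s η n1 T (cp26 (sl μ s) (u false) n1) (t false) := kW_nonneg η n1 T _ _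
        nlinarith
      · exact (lhC26 h I H N hu ht false).WW
    have hWV : ∀ j : Bool, kW μ s η n1 T (cp26 (sl μ s) (u false) n1) (t false) ≤
        Real.exp (dd * EE μ s T) * kW μ s η n1 T (cp26 (sl μ s) (u j) n1) (t j) := by
      intro j
      cases j
      · have : (1 : ℝ) ≤ Real.exp (dd * EE μ s T) := Real.one_le_exp (mul_nonneg N.dd0 hE.le)
        have h0 : 0 ≤ kW μ s η n1 T (cp26 (sl μ s) (u false) n1) (t false) := kW_nonneg η n1 T _ _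
        nlinarith
      · exact (lhC26 h I H N hu ht true).WW
    have hlam : del ≤ |(u (!i) : ℝ) / wd μ s T - u i / wd μ s T| := by
      have h1 : del ≤ (u true : ℝ) / wd μ s T - u false / wd μ s T := by
        rw [← sub_div, le_div_iff₀ hw]
        linarith
      cases i
      · exact h1.trans (le_abs_self _)
      · rw [abs_sub_comm]
        exact h1.trans (le_abs_self _)
    have gp : Gl26 (u i / wd μ s T) (u (!i) / wd μ s T) K0' K3 qM hM QF kF G dd (2 * th) be g2 G2 :=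
      ⟨hg1.trans (mul_le_mul_of_nonneg_left (by linarith) N.hM0), hg2, hg3⟩
    -- the set of the middle row
    obtain ⟨S, hS⟩ : ∃ S : Finset ℤ, S = insert (cp26 (sl μ s) (u i) n1) (Icc x (x + n1)) := ⟨_, rfl⟩
    have cS : (S.card : ℝ) ≤ 6 * T := by
      have h1 : S.card ≤ n1 + 2 := by
        rw [hS]
        refine (card_insert_le _ _).trans ?_
        rw [Int.card_Icc]
        omega
      have h2 : n1 + 2 ≤ 6 * T := by omega
      exact_mod_cast h1.trans h2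
    have hco : ∀ v : ℤ, Nk x v = K2k (fun a y => kW μ s η 0 n1 a y / A1) (kW μ s η n1 T) S x v := by
      intro v
      have h1 := kW_step26 (μ := μ) (s := s) η 0 n1 T x v S (by rw [hS]; exact subset_insert _ _) (fun y => kW μ s η n1 T y v)
        fun y _ => by rw [zero_add]
      rw [hNk]
      show kW μ s η 0 (n1 + T) x v / A1 = _
      rw [h1]
      unfold K2k
      rw [sum_div]
      exact sum_congr rfl fun y _ => by ring
    obtain ⟨k1, k2, k3, k4⟩ := mf_one26 (S := S) D gp hg20 hgG (by rw [hS]; exact mem_insert_self _ _) (by linarith) (hWW i) (hWV i) hl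
      hg' hG' hx
    refine ⟨by rw [hco]; exact k1, fun v => by rw [hco]; exact k2 v, fun v hv => by rw [hco]; exact k3 v hv,
      fun v hv hv' => by rw [hco]; exact k4 v hv hv'⟩
  have fin : MF26 Nk (lt26 (sl μ s) (wd μ s T) (n1 + T)) u t (th * wd μ s T) ρ (EE μ s T)
      (kW μ s η n1 T (cp26 (sl μ s) (u false) n1) (t false)) ell g' G1 be := by
    refine ⟨fun i x hx => (key i x hx).1, fun i x hx => (key i x hx).2.1, fun i x hx y hy => (key i x hx).2.2.1 y fun h1 => ?_,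
      fun i x hx y hy => (key i x hx).2.2.2 y (hy i) (hy (!i))⟩
    -- the two end cells are disjoint
    have h2 : th * wd μ s T ≤ del / 8 * wd μ s T := mul_le_mul_of_nonneg_right hth hw.le
    have h3 := N.ρ1
    have h4 := N.th1
    rw [abs_le] at h1 hy
    cases i
    · have e : t (!false) = t true := rfl
      rw [e] at hy
      linarith [h1.1, h1.2, hy.1, hy.2]
    · have e : t (!true) = t false := rfl
      rw [e] at hy
      linarith [h1.1, h1.2, hy.1, hy.2]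
  exact fin.scale hA1.le hsc

/-- **The data of the three kernels.** -/
theorem khC26 [IsProbabilityMeasure μ] {M : ℤ → ℤ → ℝ} {η : Env} {n1 T nB : ℕ} {u t : Bool → ℤ} {P PF : ℕ}
    {J q qM qs qF ρ ωF th L G dd K b Kc K0 K0' K3 QF kF QB kB hM hB be be2 : ℝ} (HB : Bct26 μ s c η n1 T nB t P q qs K b Kc)
    (N : CN26 μ s c T PF qM qF ρ ωF th L dd K0 K0' K3 QF kF hM be2) (NB : NB26 μ s c T nB P J q th QB kB hB) (hq0 : 0 ≤ q)
    (hqs : q * fq16 P 2 ≤ qs)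
    (ht : ∀ i, |(t i : ℝ) - sl μ s * (n1 + T : ℕ)| ≤ K0 * wd μ s T) {g g2 G' G2 : ℝ} {i : Bool} {lam lam' W W' : ℝ}
    (D : LH26 M (kW μ s η n1 T) (lt26 (sl μ s) (wd μ s T) 0) (lt26 (sl μ s) (wd μ s T) n1)
      (lt26 (sl μ s) (wd μ s T) (n1 + T)) {a | |(a : ℝ) - u i| ≤ th * wd μ s T}
      {y | |(y : ℝ) - cp26 (sl μ s) (u i) n1| ≤ ρ} {y | |(y : ℝ) - t i| ≤ ρ}
      {y | |(y : ℝ) - cp26 (sl μ s) (u (!i)) n1| ≤ ρ} {y | |(y : ℝ) - t (!i)| ≤ ρ}
      (cp26 (sl μ s) (u i) n1) (t i) lam lam' K0' K3 (EE μ s T) qM hM QF kF c G dd W W' (2 * th) be2 L)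
    (gp : Gl26 lam lam' K0' K3 qM hM QF kF G dd (2 * th) be2 g2 G2) (hB0 : 0 ≤ hB) (be0 : 0 ≤ be)
    (e1 : be + kB ≤ be2) (n3 : be ≤ hB) (hg2 : g + qs + hB * (2 * th) ≤ g2) (hGG : G' + QB ≤ G2) (hgG : g ≤ G') :
    KH26 M (kW μ s η n1 T) (kW μ s η ((n1 : ℤ) + T) nB) (lt26 (sl μ s) (wd μ s T) (n1 + T + nB))
      {a | |(a : ℝ) - u i| ≤ th * wd μ s T} {y | |(y : ℝ) - cp26 (sl μ s) (u i) n1| ≤ ρ} {y | |(y : ℝ) - t i| ≤ ρ}
      {y | |(y : ℝ) - cp26 (sl μ s) (u (!i)) n1| ≤ ρ} {y | |(y : ℝ) - t (!i)| ≤ ρ}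
      (cp26 (sl μ s) (u i) n1) (t i) (lt26 (sl μ s) (wd μ s T) (n1 + T) (t i)) (lt26 (sl μ s) (wd μ s T) (n1 + T) (t (!i))) K0' K
      (EE μ s T) qM dd qs hB b (2 * th) be g G' W := by
  have hw1 := N.w1
  have hw : 0 < wd μ s T := by linarith
  have hE := EE_pos (μ := μ) (s := s) T
  have hth : 0 < th := by
    by_contra hcon
    have := mul_nonpos_of_nonpos_of_nonneg (not_lt.1 hcon) hw.le
    linarith [N.th1]
  have hqs0 : 0 ≤ qs := by
    have f := fq16_one P 2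
    exact (mul_nonneg hq0 (by linarith)).trans hqs
  have hwB : 0 < wd μ s nB := by linarith [NB.wB1]
  have hmu : ∀ j : Bool, |lt26 (sl μ s) (wd μ s T) (n1 + T) (t j)| ≤ K0' := by
    intro j
    have h2 : |lt26 (sl μ s) (wd μ s T) (n1 + T) (t j)| ≤ K0 := by
      unfold lt26
      rw [abs_div, abs_of_pos hw, div_le_iff₀ hw]
      exact ht j
    linarith [N.KK]
  have hDc : ∀ (j : Bool) (v : ℤ), |(v : ℝ) - t j| ≤ ρ →
      |lt26 (sl μ s) (wd μ s T) (n1 + T) v - lt26 (sl μ s) (wd μ s T) (n1 + T) (t j)| ≤ 2 * th := by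
    intro j v hv
    have := cellT26 (v := sl μ s) (th := th) hw1 N.ρ1 (n1 + T) (t j) v hv
    linarith
  refine kh26 D gp (fun v x => kW_nonneg η _ nB v x) (fun v hv => hDc i v hv) (fun v hv => hDc (!i) v hv)
    (hmu i) (hmu (!i)) (fun v x => ?_) (fun v hv x => ?_)
    (fun x hx => HB.b2 i x hx) hqs0 hB0 be0 e1 n3 hg2 hGG hgG
  · -- Bup
    have h3 := cp26_near (sl μ s) 0 (n1 + T)
    have h1 := up_unit26 HB.b0 le_rfl hq0 hw hwB NB.EB NB.sB v x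
      (Y := |lt26 (sl μ s) (wd μ s T) (n1 + T) v| * J + 2) (by
      have e : (v : ℝ) - cp26 (sl μ s) 0 (n1 + T) = ((v : ℝ) - sl μ s * (n1 + T : ℕ)) -
          ((cp26 (sl μ s) 0 (n1 + T) : ℝ) - (0 : ℤ) - sl μ s * (n1 + T : ℕ)) := by
        push_cast
        ring
      have h4 : |(v : ℝ) - cp26 (sl μ s) 0 (n1 + T)| ≤ |(v : ℝ) - sl μ s * (n1 + T : ℕ)| + 1 := by
        rw [e]
        exact (abs_sub _ _).trans (by linarith)
      have h5 : |(v : ℝ) - cp26 (sl μ s) 0 (n1 + T)| / wd μ s nB ≤ |lt26 (sl μ s) (wd μ s T) (n1 + T) v| * J + 1 := by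
        rw [div_le_iff₀ hwB]
        have h6 : |(v : ℝ) - sl μ s * (n1 + T : ℕ)| = |lt26 (sl μ s) (wd μ s T) (n1 + T) v| * wd μ s T := by
          unfold lt26
          rw [abs_div, abs_of_pos hw]
          field_simp
        have h7 := mul_le_mul_of_nonneg_left NB.wJ (abs_nonneg (lt26 (sl μ s) (wd μ s T) (n1 + T) v))
        rw [h6] at h4
        have h8 := NB.wB1
        nlinarith
      linarith)
    rw [← lt26_sub (sl μ s) (wd μ s T) (n1 + T) nB v x] at h1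
    refine h1.trans (Real.exp_le_exp.2 (mul_le_mul_of_nonneg_right ?_ hE.le))
    linarith [NB.QBk _ (abs_nonneg (lt26 (sl μ s) (wd μ s T) (n1 + T) v))]
  · -- Bnr
    obtain ⟨j, hj⟩ : ∃ j : Bool, |(v : ℝ) - t j| ≤ ρ := by
      rcases hv with hv | hv
      · exact ⟨i, hv⟩
      · exact ⟨!i, hv⟩
    have h1 := up_unit26 (HB.b1 j) le_rfl hq0 hw hwB NB.EB NB.sB v x (Y := 2) (by
      have : |(v : ℝ) - t j| / wd μ s nB ≤ 1 := by
        rw [div_le_one hwB]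
        exact hj.trans (N.ρ1.trans NB.tB)
      linarith)
    rw [← lt26_sub (sl μ s) (wd μ s T) (n1 + T) nB v x] at h1
    refine h1.trans (Real.exp_le_exp.2 (mul_le_mul_of_nonneg_right ?_ hE.le))
    linarith [hqs]

end

end Pool.Agent.W_7d29a1_C1.B26
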