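import Pool.Agent.W_7d29a1_C1.FrcG26

/-!
MP_7d29a1_pr, [C1] THE BUFFER OF THE FRESH BALL, RANK ONE OVER BOTH LANES: the output of the whole buffer from the facts of the three
blocks (deterministic, kernels of the model). (helper26)
-/

set_option autoImplicit false

namespace Pool.Agent.W_7d29a1_C1.B26

open MeasureTheory ProbabilityTheory Filter Topology Finset
open Pool.Agent.W_7d29a1_F Pool.Agent.W_7d29a1_h4g Pool.Agent.W_7d29a1_H Pool.Agent.W_7d29a1_HS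
open Pool.Agent.W_7d29a1_C1
open Pool.Agent.W_7d29a1_C1.CR76 Pool.Agent.W_7d29a1_C1.Basin76
open Pool.Agent.W_7d29a1_C1.U16 (fq16 fq16_one fq16_mono lat16)

noncomputable section

theorem K3k_div26 {M F B : ℤ → ℤ → ℝ} {S1 S2 : Finset ℤ} (A1 : ℝ) (a x : ℤ) :
    K3k (fun a y => M a y / A1) F B S1 S2 a x = K3k M F B S1 S2 a x / A1 := by
  unfold K3k
  rw [sum_div]
  refine sum_congr rfl fun u _ => ?_
  rw [sum_div]
  exact sum_congr rfl fun v _ => by ring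

variable {μ : Measure ℝ} {s c C : ℝ} {n₀ : ℕ}

/-- **The output of the buffer, for the kernels of the model.** -/
theorem detC26 [IsProbabilityMeasure μ] (h : In μ s c C n₀) {A1 : ℝ} (hA1 : 0 < A1) {η : Env} {n1 T nB : ℕ} {u t : Bool → ℤ} {P PF : ℕ}
    {J q qM qs qF ρ ωF th L G dd K b Kc ε K0 K0' K3 QF kF QB kB hM hB be be2 : ℝ}
    (I : IN26 (fun a y => kW μ s η 0 n1 a y / A1) (sl μ s) (wd μ s T) n1 u (th * wd μ s T) ρ (EE μ s T) qM hM ε)
    (H : FF26 μ s c η n1 T u t PF qF ρ ωF L G dd) (HB : Bct26 μ s c η n1 T nB t P q qs K b Kc)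
    (N : CN26 μ s c T PF qM qF ρ ωF th L dd K0 K0' K3 QF kF hM be2) (NB : NB26 μ s c T nB P J q th QB kB hB) (hq0 : 0 ≤ q)
    (hqs : q * fq16 P 2 ≤ qs)
    (hu : ∀ i, |(u i : ℝ)| ≤ K0 * wd μ s T) (ht : ∀ i, |(t i : ℝ) - sl μ s * (n1 + T : ℕ)| ≤ K0 * wd μ s T)
    {del g g2 g' G' G2 G1 go gx Kx ell ell0 δ : ℝ} (hdel : (u false : ℝ) + del * wd μ s T ≤ u true) (hT1 : 1 ≤ T)
    (hX : K0' * wd μ s T ≤ T) (hnM : n1 ≤ T) (hnB : nB ≤ T) (hRE : 3 * (6 * (T : ℝ)) ^ 2 ≤ Real.exp (EE μ s T))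
    (hg1 : g2 + (2 * qM + 2 * dd) ≤ hM * (del - 2 * (2 * th)))
    (hg2 : G2 + (2 * qM + QF / 2 + (kF + be2) * K0') ≤ G / 2) (hg3 : G2 + (2 * qM + QF + (kF + be2) * K0') ≤ hM / 2 * (K3 - K0'))
    (hB0 : 0 ≤ hB) (be0 : 0 ≤ be) (e1 : be + kB ≤ be2) (n3 : be ≤ hB) (hgg : g + qs + hB * (2 * th) ≤ g2) (hGG : G' + QB ≤ G2)
    (hgG : g ≤ G') (hbg : b + 2 ≤ G')
    (hl : 3 * qM + 2 * dd + qs + hB * (2 * th) + 1 ≤ ell) (hl0 : b + qM + dd ≤ ell0) (hlc : qs + qM + dd ≤ ell + 1)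
    (hg' : g' + qM + dd + 1 ≤ g) (hG' : G1 + qM + dd + 1 ≤ G') (hgo : go + 1 + be * K0' ≤ g') (hGo : go + 1 ≤ G1) (hGx : gx + 1 ≤ G1)
    (hgo0 : 0 ≤ go) (hgx : go ≤ gx)
    (hex : ell + hB * K0' + gx + 1 ≤ (hB - be) * Kx) (hsp : ell + be * K0' + go + 1 ≤ (hB - be) * (del / 4)) (hε : 0 ≤ ε)
    (hδ : (1 + Real.exp (-EE μ s T)) ^ 2 * (1 + ε) ≤ 1 + δ) (hKx : 0 ≤ Kx) :
    OutW26 (kW μ s η 0 (n1 + (T + nB))) (lt26 (sl μ s) (wd μ s T) (n1 + T + nB)) u (fun i => lt26 (sl μ s) (wd μ s T) (n1 + T) (t i))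
      (th * wd μ s T) (EE μ s T) K Kx del (A1 * kW μ s η n1 T (cp26 (sl μ s) (u false) n1) (t false)) δ (ell + 1) ell0 Kc be go ∧
    PtW26 (kW μ s η 0 (n1 + (T + nB))) (lt26 (sl μ s) (wd μ s T) (n1 + T + nB)) u (fun i => lt26 (sl μ s) (wd μ s T) (n1 + T) (t i))
      (th * wd μ s T) (EE μ s T) (A1 * kW μ s η n1 T (cp26 (sl μ s) (u false) n1) (t false)) ell g' G1 be hB ∧
    ExW26 (kW μ s η 0 (n1 + (T + nB))) (lt26 (sl μ s) (wd μ s T) (n1 + T + nB)) u (th * wd μ s T) (EE μ s T) Kx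
      (A1 * kW μ s η n1 T (cp26 (sl μ s) (u false) n1) (t false)) gx be := by
  have hw : 0 < wd μ s T := by linarith [N.w1]
  have hE := EE_pos (μ := μ) (s := s) T
  have hTr : (1 : ℝ) ≤ T := by exact_mod_cast hT1
  obtain ⟨M, hM0⟩ : ∃ M : ℤ → ℤ → ℝ, M = fun a y => kW μ s η 0 n1 a y / A1 := ⟨_, rfl⟩
  obtain ⟨Kn, hKn⟩ : ∃ N : ℤ → ℤ → ℝ, N = fun x v => kW μ s η 0 (n1 + (T + nB)) x v / A1 := ⟨_, rfl⟩
  have hsc : ∀ x y, kW μ s η 0 (n1 + (T + nB)) x y = A1 * Kn x y := fun x y => by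
    rw [hKn]
    show _ = A1 * (kW μ s η 0 (n1 + (T + nB)) x y / A1)
    rw [mul_div_cancel₀ _ hA1.ne']
  rw [← hM0] at I
  obtain ⟨S, hS⟩ : ∃ S : Finset ℤ, S = Icc (-(T : ℤ)) (T + (n1 + T : ℕ)) := ⟨_, rfl⟩
  obtain ⟨S3, hS3⟩ : ∃ S : Finset ℤ, S = Icc (-(T : ℤ)) (T + (n1 + (T + nB) : ℕ)) := ⟨_, rfl⟩
  have cS : (S.card : ℝ) ≤ 6 * T := by
    rw [hS, Int.card_Icc]
    have e : ((T : ℤ) + (n1 + T : ℕ) + 1 - -(T : ℤ)).toNat = 2 * T + (n1 + T) + 1 := by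
      push_cast
      omega
    rw [e]
    have : 2 * T + (n1 + T) + 1 ≤ 6 * T := by omega
    exact_mod_cast this
  have cS3 : (S3.card : ℝ) ≤ 6 * T := by
    rw [hS3, Int.card_Icc]
    have e : ((T : ℤ) + (n1 + (T + nB) : ℕ) + 1 - -(T : ℤ)).toNat = 2 * T + (n1 + (T + nB)) + 1 := by
      push_cast
      omega
    rw [e]
    have : 2 * T + (n1 + (T + nB)) + 1 ≤ 6 * T := by omega
    exact_mod_cast this
  have hR1 : (S.card * S.card : ℝ) ≤ (6 * (T : ℝ)) ^ 2 := by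
    rw [pow_two]
    exact mul_le_mul cS cS (Nat.cast_nonneg _) (by positivity)
  have hR3 : (S3.card : ℝ) ≤ (6 * (T : ℝ)) ^ 2 := by nlinarith
  -- the cells are in `[-T, T]`
  have hcell : ∀ (j : Bool) (y : ℤ), |(y : ℝ) - u j| ≤ th * wd μ s T → -(T : ℤ) ≤ y ∧ y ≤ T := by
    intro j y hy
    have h1 := hu j
    have h2 := mul_le_mul_of_nonneg_right N.KK hw.le
    have hth : 0 ≤ th * wd μ s T := by linarith [N.th1]
    rw [abs_le] at hy h1
    have h3 : -(T : ℝ) ≤ y := by nlinarith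
    have h4 : (y : ℝ) ≤ T := by nlinarith
    exact ⟨by exact_mod_cast h3, by exact_mod_cast h4⟩
  have comp : ∀ (j : Bool) (y : ℤ), |(y : ℝ) - u j| ≤ th * wd μ s T → ∀ x : ℤ,
      Kn y x = K3k M (kW μ s η n1 T) (kW μ s η ((n1 : ℤ) + T) nB) S S y x := by
    intro j y hy x
    obtain ⟨h1, h2⟩ := hcell j y hy
    have h3 := kW_three (μ := μ) (s := s) η 0 n1 T nB y x S (by
      rw [hS]
      exact Icc_subset_Icc h1 (by linarith))
    rw [zero_add] at h3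
    rw [hM0, K3k_div26, ← h3, hKn]
  have supp : ∀ (j : Bool) (y : ℤ), |(y : ℝ) - u j| ≤ th * wd μ s T → ∀ x : ℤ, x ∉ S3 →
      K3k M (kW μ s η n1 T) (kW μ s η ((n1 : ℤ) + T) nB) S S y x = 0 := by
    intro j y hy x hx
    obtain ⟨h1, h2⟩ := hcell j y hy
    rw [← comp j y hy x, hKn]
    show kW μ s η 0 (n1 + (T + nB)) y x / A1 = 0
    rw [kW_zero (μ := μ) (s := s) η 0 fun hcon => hx (by
      rw [hS3, mem_Icc]
      exact ⟨by linarith [hcon.1], by linarith [hcon.2]⟩), zero_div]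
  -- the points of the lanes are in `S`
  have hpt : ∀ (j : Bool), cp26 (sl μ s) (u j) n1 ∈ S ∧ t j ∈ S := by
    intro j
    have h1 := hcell j (u j) (by rw [sub_self, abs_zero]; linarith [N.th1])
    have s0 := h.sl_pos
    have s1 := h.sl_lt
    have fl : 0 ≤ ⌊sl μ s * n1⌋ ∧ ⌊sl μ s * n1⌋ ≤ n1 := by
      refine ⟨Int.floor_nonneg.2 (by positivity), ?_⟩
      have h2 : ⌊sl μ s * n1⌋ ≤ ⌊((n1 : ℤ) : ℝ)⌋ := by
        refine Int.floor_le_floor ?_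
        have ht : (0 : ℝ) ≤ n1 := Nat.cast_nonneg n1
        push_cast
        nlinarith
      rwa [Int.floor_intCast] at h2
    obtain ⟨f1, f2⟩ := fl
    have hK : K0 * wd μ s T ≤ T := by
      have g1 := mul_le_mul_of_nonneg_right N.KK hw.le
      have g2 : 0 ≤ th * wd μ s T := by linarith [N.th1]
      nlinarith
    have h5 := ht j
    rw [abs_le] at h5
    have h6 : (0 : ℝ) ≤ ((n1 + T : ℕ) : ℝ) := Nat.cast_nonneg _
    have h7 : -(T : ℝ) ≤ t j := by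
      have := mul_nonneg s0.le h6
      linarith
    have h8 : (t j : ℝ) ≤ T + ((n1 + T : ℕ) : ℝ) := by
      have : sl μ s * ((n1 + T : ℕ) : ℝ) ≤ 1 * ((n1 + T : ℕ) : ℝ) := mul_le_mul_of_nonneg_right s1.le h6
      linarith
    refine ⟨?_, ?_⟩
    · unfold cp26
      rw [hS, mem_Icc]
      push_cast at f1 f2 ⊢
      exact ⟨by linarith, by linarith⟩
    · rw [hS, mem_Icc]
      refine ⟨by exact_mod_cast h7, ?_⟩
      have : (t j : ℝ) ≤ (((T : ℤ) + (n1 + T : ℕ) : ℤ) : ℝ) := by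
        push_cast at h8 ⊢
        linarith
      exact_mod_cast this
  have hlam : del ≤ (u true : ℝ) / wd μ s T - u false / wd μ s T := by
    rw [← sub_div, le_div_iff₀ hw]
    linarith
  have gp : ∀ l l' : ℝ, del ≤ |l' - l| → Gl26 l l' K0' K3 qM hM QF kF G dd (2 * th) be2 g2 G2 := by
    intro l l' hl
    exact ⟨hg1.trans (mul_le_mul_of_nonneg_left (by linarith) N.hM0), hg2, hg3⟩
  have gp1 := gp (u false / wd μ s T) (u (!false) / wd μ s T) (hlam.trans (le_abs_self _))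
  have gp2 := gp (u true / wd μ s T) (u (!true) / wd μ s T) (by
    rw [abs_sub_comm]
    exact hlam.trans (le_abs_self _))
  have B1 := lhC26 h I H N hu ht false
  have B2 := lhC26 h I H N hu ht true
  have D1 := khC26 (i := false) HB N NB hq0 hqs ht B1 gp1 hB0 be0 e1 n3 hgg hGG hgG
  have D2 := khC26 (i := true) HB N NB hq0 hqs ht B2 gp2 hB0 be0 e1 n3 hgg hGG hgG
  have hWb : kW μ s η n1 T (cp26 (sl μ s) (u false) n1) (t false) ≤
      Real.exp (dd * EE μ s T) * kW μ s η n1 T (cp26 (sl μ s) (u true) n1) (t true) := B2.WW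
  have hWa : kW μ s η n1 T (cp26 (sl μ s) (u true) n1) (t true) ≤
      Real.exp (dd * EE μ s T) * kW μ s η n1 T (cp26 (sl μ s) (u false) n1) (t false) := B1.WW
  simp only [Bool.not_false, Bool.not_true] at D1 D2
  have hE2 : (3 : ℝ) ≤ Real.exp (EE μ s T) := by nlinarith
  have hRE1 : (6 * (T : ℝ)) ^ 2 ≤ Real.exp (EE μ s T) := by
    have : 0 ≤ (6 * (T : ℝ)) ^ 2 := by positivity
    linarith
  have hht : (S.card * S.card : ℝ) * Real.exp ((b - G') * EE μ s T) ≤ Real.exp (-EE μ s T) := by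
    calc (S.card * S.card : ℝ) * Real.exp ((b - G') * EE μ s T) ≤ Real.exp (EE μ s T) * Real.exp ((b - G') * EE μ s T) :=
          mul_le_mul_of_nonneg_right (hR1.trans hRE1) (Real.exp_pos _).le
      _ = Real.exp ((1 + b - G') * EE μ s T) := by
          rw [← Real.exp_add]
          congr 1
          ring
      _ ≤ _ := by
          refine Real.exp_le_exp.2 ?_
          have := mul_le_mul_of_nonneg_right hbg hE.le
          linarith
  have rk : ∀ (i : Bool) (a a' : ℤ), |(a : ℝ) - u i| ≤ th * wd μ s T → |(a' : ℝ) - u i| ≤ th * wd μ s T → ∀ x x' : ℤ,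
      (|(x : ℝ) - cp26 (sl μ s) (u false) n1| ≤ ρ ∨ |(x : ℝ) - cp26 (sl μ s) (u true) n1| ≤ ρ) →
      (|(x' : ℝ) - cp26 (sl μ s) (u false) n1| ≤ ρ ∨ |(x' : ℝ) - cp26 (sl μ s) (u true) n1| ≤ ρ) →
      M a x * M a' x' ≤ (1 + ε) * (M a x' * M a' x) := by
    intro i a a' ha ha' x x' hx hx'
    refine I.rk i a a' ha ha' x x' ?_ ?_
    · rcases hx with hx | hx
      · exact ⟨false, hx⟩
      · exact ⟨true, hx⟩
    · rcases hx' with hx' | hx'
      · exact ⟨false, hx'⟩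
      · exact ⟨true, hx'⟩
  obtain ⟨out, exo⟩ := outC26 (S1 := S) (S2 := S) (S3 := S3)
    (b' := qs) (Kx := Kx) (sg := del / 4) (R := (6 * (T : ℝ)) ^ 2) (g' := g') (G1 := G1) (go := go) (gx := gx) (ell := ell) (ell0 := ell0)
    (Kc := Kc) (δ := δ) D1 D2 hWa hWb (hpt false).1 (hpt false).2 (hpt true).1 (hpt true).2 hR1 hR3 hRE hE2 hl hlc hl0 hg' hG' hgo
    hGo hGx hgo0 hgx hex hsp (fun y hy x hx => supp false y hy x hx) (fun y hy x hx => supp true y hy x hx)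
    (fun x hx => HB.b3 false x hx) (fun x hx => HB.b3 true x hx) hε (Real.exp_pos (-EE μ s T)).le
    (fun a ha a' ha' x x' hx hx' => rk false a a' ha ha' x x' hx hx')
    (fun a ha a' ha' x x' hx hx' => rk true a a' ha ha' x x' hx hx') hht hδ
  refine ⟨fun a1 b1 a2 b2 xa xb s0 ha1 ha2 hc1 hc2 hxa1 hxa2 hxb1 hxb2 hxx hs1 hs2 => ?_, ?_, ?_⟩
  · have w1 : ∀ x : ℤ, xa ≤ x → x ≤ xb → |lt26 (sl μ s) (wd μ s T) (n1 + T + nB) x| ≤ K := fun x g1 g2 => by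
      rw [abs_le]
      exact ⟨hxa1.trans (lt26_mono hw _ g1), (lt26_mono hw _ g2).trans hxb1⟩
    have w2 : ∀ x : ℤ, x < xa → Kx ≤ |lt26 (sl μ s) (wd μ s T) (n1 + T + nB) x| := fun x g1 => by
      have := (lt26_mono (v := sl μ s) hw (n1 + T + nB) g1.le).trans hxa2
      rw [abs_of_nonpos (by linarith)]
      linarith
    have w3 : ∀ x : ℤ, xb < x → Kx ≤ |lt26 (sl μ s) (wd μ s T) (n1 + T + nB) x| := fun x g1 =>
      (hxb2.trans (lt26_mono (v := sl μ s) hw (n1 + T + nB) g1.le)).trans (le_abs_self _)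
    have w4 : ∀ x : ℤ, s0 < x →
        del / 4 ≤ |lt26 (sl μ s) (wd μ s T) (n1 + T + nB) x - lt26 (sl μ s) (wd μ s T) (n1 + T) (t false)| := fun x g1 => by
      have := hs1.trans (lt26_mono (v := sl μ s) hw (n1 + T + nB) g1.le)
      refine le_trans ?_ (le_abs_self _)
      linarith
    have w5 : ∀ x : ℤ, x ≤ s0 →
        del / 4 ≤ |lt26 (sl μ s) (wd μ s T) (n1 + T + nB) x - lt26 (sl μ s) (wd μ s T) (n1 + T) (t true)| := fun x g1 => by
      have := lt26_mono (v := sl μ s) hw (n1 + T + nB) g1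
      rw [abs_sub_comm]
      refine le_trans ?_ (le_abs_self _)
      linarith
    have o1 := out a1 b1 a2 b2 xa xb s0 ha1 ha2 (fun y g1 g2 => hc1 y g1 g2) (fun y g1 g2 => hc2 y g1 g2) hxx w1 w2 w3 w4 w5
    have o2 : BufO26 Kn (lt26 (sl μ s) (wd μ s T) (n1 + T + nB)) (EE μ s T) (lt26 (sl μ s) (wd μ s T) (n1 + T) (t false))
        (lt26 (sl μ s) (wd μ s T) (n1 + T) (t true)) a1 b1 a2 b2 xa xb s0 (kW μ s η n1 T (cp26 (sl μ s) (u false) n1) (t false)) δ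
        (ell + 1) ell0 Kc be go := o1.congr ha1 ha2 fun y hy x => by
      rcases hy with hy | hy
      · exact comp false y (hc1 y hy.1 hy.2) x
      · exact comp true y (hc2 y hy.1 hy.2) x
    exact o2.scale hA1 hsc
  · refine PtW26.scale (Kr := Kn) (fun i y hy x => ?_) hA1.le hsc
    have hWc : kW μ s η n1 T (cp26 (sl μ s) (u false) n1) (t false) ≤
        Real.exp (dd * EE μ s T) * kW μ s η n1 T (cp26 (sl μ s) (u false) n1) (t false) := by
      have h1 : (1 : ℝ) ≤ Real.exp (dd * EE μ s T) := Real.one_le_exp (mul_nonneg N.dd0 hE.le)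
      have h2 := D1.W0
      nlinarith
    rw [comp i y hy x]
    cases i
    · exact kh_pt (S1 := S) (S2 := S) D1 hR1 hRE hWc hl hg' hG' hy x
    · exact kh_pt (S1 := S) (S2 := S) D2 hR1 hRE hWa hl hg' hG' hy x
  · refine ExW26.scale (Kr := Kn) (fun i y hy X hX => ?_) hA1.le hsc
    have h1 : ∑ x ∈ X, Kn y x * Real.exp (be * |lt26 (sl μ s) (wd μ s T) (n1 + T + nB) x| * EE μ s T) =
        ∑ x ∈ X, K3k M (kW μ s η n1 T) (kW μ s η ((n1 : ℤ) + T) nB) S S y x *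
          Real.exp (be * |lt26 (sl μ s) (wd μ s T) (n1 + T + nB) x| * EE μ s T) :=
      sum_congr rfl fun x _ => by rw [comp i y hy x]
    rw [h1]
    refine exo y ?_ X hX
    cases i
    · exact Or.inl hy
    · exact Or.inr hy

end

end Pool.Agent.W_7d29a1_C1.B26
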