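import Pool.Agent.W_7d29a1_C1.FrcP26
import Pool.Agent.W_7d29a1_C1.FrbF26

/-!
MP_7d29a1_pr, [C1] THE FIRST BLOCK: a small two lane buffer at the scale `T / j`. (helper26)
-/

set_option autoImplicit false

namespace Pool.Agent.W_7d29a1_C1.B26

open MeasureTheory ProbabilityTheory Filter Topology Finset
open Pool.Agent.W_7d29a1_F Pool.Agent.W_7d29a1_h4g Pool.Agent.W_7d29a1_H Pool.Agent.W_7d29a1_HS
open Pool.Agent.W_7d29a1_C1
open Pool.Agent.W_7d29a1_C1.CR76 Pool.Agent.W_7d29a1_C1.Basin76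
open Pool.Agent.W_7d29a1_C1.U16 (fq16 fq16_one fq16_mono)

noncomputable section

variable {μ : Measure ℝ} {s c C : ℝ} {n₀ : ℕ}

/-- Rank one on a window, from one cross ratio. -/
theorem rank_int26 {η : Env} {r : ℤ} {T : ℕ} {a1 b1 xa xb : ℤ} {ε : ℝ} (hε : 0 ≤ ε) (hab : a1 ≤ b1) (hx : xa ≤ xb) (h1 : b1 ≤ xa)
    (h2 : xb ≤ a1 + T) (hη : CR (kW μ s η r T) a1 b1 xa xb ≤ 1 + ε) :
    ∀ y y' : ℤ, a1 ≤ y → y ≤ b1 → a1 ≤ y' → y' ≤ b1 → ∀ u u' : ℤ, xa ≤ u → u ≤ xb → xa ≤ u' → u' ≤ xb →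
      kW μ s η r T y u * kW μ s η r T y' u' ≤ (1 + ε) * (kW μ s η r T y u' * kW μ s η r T y' u) := by
  have key : ∀ y y' : ℤ, a1 ≤ y → y ≤ b1 → a1 ≤ y' → y' ≤ b1 → ∀ u u' : ℤ, xa ≤ u → u ≤ xb → xa ≤ u' → u' ≤ xb → y ≤ y' → u ≤ u' →
      kW μ s η r T y u * kW μ s η r T y' u' ≤ (1 + ε) * (kW μ s η r T y u' * kW μ s η r T y' u) := by
    intro y y' hy1 hy2 hy1' hy2' u u' hu1 hu2 hu1' hu2' hyy huu
    have hT := TP_kW (μ := μ) (s := s) η r T a1 b1
    have m1 : ∀ t : ℤ, a1 ≤ t → t ≤ b1 → t ∈ {x : ℤ | a1 ≤ x ∧ x ≤ b1} := fun t g1 g2 => ⟨g1, g2⟩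
    have m2 : ∀ t : ℤ, xa ≤ t → t ≤ xb → t ∈ {z : ℤ | b1 ≤ z ∧ z ≤ a1 + T} := fun t g1 g2 =>
      ⟨h1.trans g1, g2.trans h2⟩
    have h3 : CR (kW μ s η r T) y y' u u' ≤ CR (kW μ s η r T) a1 b1 xa xb :=
      hT.CR_mono (m1 _ le_rfl (by omega)) (m1 _ hy1 hy2) (m1 _ hy1' hy2') (m1 _ (by omega) le_rfl)
        (m2 _ le_rfl (by omega)) (m2 _ hu1 hu2) (m2 _ hu1' hu2') (m2 _ (by omega) le_rfl)
        hy1 hyy hy2' hu1 huu hu2'
    have h4 : CR (kW μ s η r T) y y' u u' ≤ 1 + ε := h3.trans hη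
    have p1 : 0 < kW μ s η r T y u' := kW_pos η r (by omega) (by omega)
    have p2 : 0 < kW μ s η r T y' u := kW_pos η r (by omega) (by omega)
    unfold CR at h4
    rwa [div_le_iff₀ (mul_pos p1 p2)] at h4
  have nn : ∀ y u : ℤ, 0 ≤ kW μ s η r T y u := fun y u => kW_nonneg η r T y u
  intro y y' hy1 hy2 hy1' hy2' u u' hu1 hu2 hu1' hu2'
  have up : ∀ t : ℝ, 0 ≤ t → t ≤ (1 + ε) * t := fun t ht => by nlinarith
  rcases le_total y y' with h3 | h3
  · rcases le_total u u' with h4 | h4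
    · exact key y y' hy1 hy2 hy1' hy2' u u' hu1 hu2 hu1' hu2' h3 h4
    · have h5 := kW_minor (μ := μ) (s := s) η r T h3 h4
      exact h5.trans (up _ (mul_nonneg (nn _ _) (nn _ _)))
  · rcases le_total u u' with h4 | h4
    · have h5 := kW_minor (μ := μ) (s := s) η r T h3 h4
      have h6 : kW μ s η r T y u * kW μ s η r T y' u' ≤ kW μ s η r T y u' * kW μ s η r T y' u := by linarith
      exact h6.trans (up _ (mul_nonneg (nn _ _) (nn _ _)))
    · have h5 := key y' y hy1' hy2' hy1 hy2 u' u hu1' hu2' hu1 hu2 h3 h4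
      linarith

/-- The envelope in the unit of a larger scale. -/
theorem pe_scale26 {k : ℤ → ℤ → ℝ} {v w1 w E1 E Q h' h J : ℝ} {P a b : ℕ} (H : PE26 k (lt26 v w1 a) (lt26 v w1 b) E1 P Q h')
    (hw1 : 0 < w1) (hw : 0 < w) (hE1 : 0 ≤ E1) (hEE : E1 ≤ E) (hQ : 0 ≤ Q) (hJ0 : 0 ≤ J) (hJ : w ≤ J * w1)
    (hs : h * (w1 * E) ≤ h' * (E1 * w)) : PE26 k (lt26 v w a) (lt26 v w b) E P (Q * C26 P J) h := by
  intro x y
  refine (H x y).trans (Real.exp_le_exp.2 ?_)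
  have e1 : ∀ (n : ℕ) (x : ℤ), lt26 v w1 n x = lt26 v w n x * (w / w1) := by
    intro n x
    unfold lt26
    field_simp
  have hww : 0 < w / w1 := div_pos hw hw1
  have hwJ : w / w1 ≤ J := by rw [div_le_iff₀ hw1]; exact hJ
  have f1 : fq16 P (lt26 v w1 a x) ≤ C26 P J * fq16 P (lt26 v w a x) := by
    have g1 : fq16 P (lt26 v w1 a x) ≤ fq16 P (|lt26 v w a x| * J + 2) := by
      refine fq16_mono ?_
      rw [e1, abs_mul, abs_of_pos hww, abs_of_nonneg (show 0 ≤ |lt26 v w a x| * J + 2 by positivity)]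
      have := mul_le_mul_of_nonneg_left hwJ (abs_nonneg (lt26 v w a x))
      linarith
    have g2 := fq_lin26 P hJ0 (abs_nonneg (lt26 v w a x))
    have g3 : fq16 P |lt26 v w a x| = fq16 P (lt26 v w a x) := by
      unfold fq16
      rw [abs_abs]
    rw [g3] at g2
    exact g1.trans g2
  have f2 : h * |lt26 v w b y - lt26 v w a x| * E ≤ h' * |lt26 v w1 b y - lt26 v w1 a x| * E1 := by
    rw [e1, e1, ← sub_mul, abs_mul, abs_of_pos hww]
    have g1 := mul_le_mul_of_nonneg_right hs (div_nonneg (abs_nonneg (lt26 v w b y - lt26 v w a x)) hw1.le)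
    have g2 : h * (w1 * E) * (|lt26 v w b y - lt26 v w a x| / w1) = h * |lt26 v w b y - lt26 v w a x| * E := by field_simp
    have g3 : h' * (E1 * w) * (|lt26 v w b y - lt26 v w a x| / w1) = h' * (|lt26 v w b y - lt26 v w a x| * (w / w1)) * E1 := by
      field_simp
    rw [g2, g3] at g1
    exact g1
  have f3 : 0 ≤ fq16 P (lt26 v w a x) := by linarith [fq16_one P (lt26 v w a x)]
  have f4 := mul_le_mul_of_nonneg_left f1 hQ
  have f5 := mul_le_mul_of_nonneg_right f4 hE1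
  have f6 : Q * (C26 P J * fq16 P (lt26 v w a x)) * E1 ≤ Q * (C26 P J * fq16 P (lt26 v w a x)) * E :=
    mul_le_mul_of_nonneg_left hEE (mul_nonneg hQ (mul_nonneg (C26_nonneg P hJ0) f3))
  nlinarith

/-- The upper bound of the first kernel in the unit of the scale `T`. -/
theorem upI26 {Kr : ℤ → ℤ → ℝ} {v w1 w : ℝ} {n0 n1 : ℕ} {u t : Bool → ℤ} {R1 E1 E A ell g G' be hB K0' hM qM th : ℝ}
    (H : PtW26 Kr (lt26 v w1 n1) u (fun i => lt26 v w1 n0 (t i)) R1 E1 A ell g G' be hB)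
    (w11 : 1 ≤ w1) (hw : 0 < w) (hA : 0 < A) (ht : ∀ i, |(t i : ℝ) - u i - v * n0| ≤ 1) (hu : ∀ i, |(u i : ℝ)| ≤ K0' * w1)
    (hE1 : 0 ≤ E1) (hEE : E1 ≤ E) (hE3 : 3 ≤ Real.exp E) (hb : be ≤ hB) (be0 : 0 ≤ be) (hg : be * (2 * (K0' + 1)) ≤ g)
    (hG : be * (2 * (K0' + 1)) ≤ G') (hK0 : 0 ≤ K0') (hM0 : 0 ≤ hM) (hs : hM * (w1 * E) ≤ be * (E1 * w))
    (hMth : hM * (th + 1 / w) ≤ 1) (hR : th * w ≤ R1) (hl : 0 ≤ ell) (hq : ell + 2 ≤ qM) :
    ∀ (i : Bool) (a : ℤ), |(a : ℝ) - u i| ≤ th * w → ∀ y : ℤ,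
      Kr a y / A ≤ Real.exp ((qM - hM * |lt26 v w n1 y - lt26 v w 0 a|) * E) := by
  intro i a ha y
  have hE : 0 ≤ E := hE1.trans hEE
  have hw1 : 0 < w1 := by linarith
  have h1 := H i a (ha.trans hR) y
  rw [div_le_iff₀ hA]
  refine h1.trans (mul_le_mul_of_nonneg_right ?_ hA.le)
  obtain ⟨D, hD⟩ : ∃ x : ℝ, x = |lt26 v w n1 y - lt26 v w 0 a| := ⟨_, rfl⟩
  obtain ⟨d, hd⟩ : ∃ x : ℝ, x = |lt26 v w1 n1 y - lt26 v w1 n0 (t i)| := ⟨_, rfl⟩
  obtain ⟨d', hd'⟩ : ∃ x : ℝ, x = |lt26 v w1 n1 y - lt26 v w1 n0 (t (!i))| := ⟨_, rfl⟩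
  have hd0 : 0 ≤ d := by rw [hd]; exact abs_nonneg _
  have hd0' : 0 ≤ d' := by rw [hd']; exact abs_nonneg _
  have mub : ∀ j : Bool, |lt26 v w1 n0 (t j)| ≤ K0' + 1 := by
    intro j
    unfold lt26
    rw [abs_div, abs_of_pos hw1, div_le_iff₀ hw1]
    have e : (t j : ℝ) - v * n0 = ((t j : ℝ) - u j - v * n0) + u j := by ring
    rw [e]
    refine (abs_add_le _ _).trans ?_
    have := ht j
    have := hu j
    linarith
  have hDd : D * w ≤ d * w1 + 1 + th * w := by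
    have e1 : lt26 v w n1 y - lt26 v w 0 a = (((y : ℝ) - v * n1) - a) / w := by
      unfold lt26
      push_cast
      ring
    have e2 : D * w = |((y : ℝ) - v * n1) - a| := by
      rw [hD, e1, abs_div, abs_of_pos hw]
      field_simp
    have e3 : lt26 v w1 n1 y - lt26 v w1 n0 (t i) = (((y : ℝ) - v * n1) - ((t i : ℝ) - v * n0)) / w1 := by
      unfold lt26
      ring
    have e4 : d * w1 = |((y : ℝ) - v * n1) - ((t i : ℝ) - v * n0)| := by
      rw [hd, e3, abs_div, abs_of_pos hw1]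
      field_simp
    rw [e2, e4]
    have e5 : (y : ℝ) - v * n1 - a = (((y : ℝ) - v * n1) - ((t i : ℝ) - v * n0)) + (((t i : ℝ) - u i - v * n0) - ((a : ℝ) - u i)) := by
      ring
    rw [e5]
    refine (abs_add_le _ _).trans ?_
    have g1 := abs_sub ((t i : ℝ) - u i - v * n0) ((a : ℝ) - u i)
    have g2 := ht i
    linarith
  have key : hM * D * E ≤ be * d * E1 + E := by
    have g1 := mul_le_mul_of_nonneg_left hDd (mul_nonneg hM0 hE)
    have g2 : hM * E * (D * w) = hM * D * E * w := by ring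
    have g3 := mul_le_mul_of_nonneg_right hs hd0
    have g4 := mul_le_mul_of_nonneg_right hMth (mul_nonneg hE hw.le)
    have g5 : hM * (th + 1 / w) * (E * w) = hM * E * (1 + th * w) := by
      field_simp
      ring
    rw [g5] at g4
    have g6 : hM * D * E * w ≤ (be * d * E1 + E) * w := by nlinarith
    exact le_of_mul_le_mul_right g6 hw
  have hdd' : d ≤ d' + 2 * (K0' + 1) := by
    have g1 : d ≤ d' + |lt26 v w1 n0 (t (!i)) - lt26 v w1 n0 (t i)| := by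
      rw [hd, hd']
      exact abs_sub_le _ _ _
    have g2 := abs_sub (lt26 v w1 n0 (t (!i))) (lt26 v w1 n0 (t i))
    have := mub i
    have := mub (!i)
    linarith
  have hdy : d ≤ |lt26 v w1 n1 y| + 2 * (K0' + 1) := by
    have g1 := abs_sub (lt26 v w1 n1 y) (lt26 v w1 n0 (t i))
    have := mub i
    rw [← hd] at g1
    linarith
  have t1 : Real.exp ((ell - hB * d) * E1) ≤ Real.exp ((ell + 1 - hM * D) * E) := by
    refine Real.exp_le_exp.2 ?_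
    have g1 := mul_le_mul_of_nonneg_left hEE hl
    have g2 := mul_le_mul_of_nonneg_right (mul_le_mul_of_nonneg_right hb hd0) hE1
    linarith
  have t2 : Real.exp ((-g - hB * d') * E1) ≤ Real.exp ((ell + 1 - hM * D) * E) := by
    refine Real.exp_le_exp.2 ?_
    have g1 := mul_nonneg hl hE
    have g2 := mul_le_mul_of_nonneg_right hb hd0'
    have g3 := mul_le_mul_of_nonneg_left hdd' be0
    have g4 : (-g - hB * d') * E1 ≤ (-(be * d)) * E1 := mul_le_mul_of_nonneg_right (by linarith) hE1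
    linarith
  have t3 : Real.exp ((-G' - be * |lt26 v w1 n1 y|) * E1) ≤ Real.exp ((ell + 1 - hM * D) * E) := by
    refine Real.exp_le_exp.2 ?_
    have g1 := mul_nonneg hl hE
    have g3 := mul_le_mul_of_nonneg_left hdy be0
    have g4 : (-G' - be * |lt26 v w1 n1 y|) * E1 ≤ (-(be * d)) * E1 := mul_le_mul_of_nonneg_right (by linarith) hE1
    linarith
  have hX : 0 ≤ Real.exp ((ell + 1 - hM * D) * E) := (Real.exp_pos _).le
  have fin : Real.exp ((ell - hB * d) * E1) + Real.exp ((-g - hB * d') * E1) + Real.exp ((-G' - be * |lt26 v w1 n1 y|) * E1) ≤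
      Real.exp ((qM - hM * D) * E) := by
    calc _ ≤ 3 * Real.exp ((ell + 1 - hM * D) * E) := by linarith
      _ ≤ Real.exp E * Real.exp ((ell + 1 - hM * D) * E) := mul_le_mul_of_nonneg_right hE3 hX
      _ = Real.exp ((ell + 2 - hM * D) * E) := by rw [← Real.exp_add]; congr 1; ring
      _ ≤ _ := Real.exp_le_exp.2 (mul_le_mul_of_nonneg_right (by linarith) hE)
  rw [hD] at fin
  rw [hd, hd'] at fin
  exact fin

/-- A cell as an interval. -/
theorem cell_iff26 {a y : ℤ} {ρ : ℝ} : |(y : ℝ) - a| ≤ ρ ↔ a - ⌊ρ⌋ ≤ y ∧ y ≤ a + ⌊ρ⌋ := by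
  rw [← mem_Ce26]
  unfold Ce26
  rw [mem_Icc]

/-- **The facts of the first kernel.** -/
theorem inI26 [IsProbabilityMeasure μ] {η : Env} {n0 n1 : ℕ} {u t : Bool → ℤ} {τ : ℤ}
    {w1 w E1 E th R1 ρ Kx K δ ε ell ell' ellw Kc be g G' hB A del K0' qM hM : ℝ}
    (HO : OutW26 (kW μ s η 0 n1) (lt26 (sl μ s) w1 n1) u (fun i => lt26 (sl μ s) w1 n0 (t i)) R1 E1 K Kx del A δ ell' ellw Kc be g)
    (H : PtW26 (kW μ s η 0 n1) (lt26 (sl μ s) w1 n1) u (fun i => lt26 (sl μ s) w1 n0 (t i)) R1 E1 A ell g G' be hB)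
    (w11 : 1 ≤ w1) (hw : 0 < w) (hA : 0 < A) (ht : ∀ i, |(t i : ℝ) - u i - sl μ s * n0| ≤ 1) (hτ : ∀ i, t i = u i + τ)
    (hu : ∀ i, |(u i : ℝ)| ≤ K0' * w1)
    (hE1 : 0 ≤ E1) (hEE : E1 ≤ E) (hE3 : 3 ≤ Real.exp E) (hb : be ≤ hB) (be0 : 0 ≤ be) (hg : be * (2 * (K0' + 1)) ≤ g)
    (hG : be * (2 * (K0' + 1)) ≤ G') (hK0 : 0 ≤ K0') (hM0 : 0 ≤ hM) (hs : hM * (w1 * E) ≤ be * (E1 * w))
    (hMth : hM * (th + 1 / w) ≤ 1) (hR : th * w ≤ R1) (hl : 0 ≤ ell) (hq : ell + 2 ≤ qM) (hl' : 0 ≤ ell') (hq' : ell' ≤ qM)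
    (hsep : (u false : ℝ) + del * w1 ≤ u true) (hd4 : 4 ≤ del * w1) (hKc : 2 ≤ Kc * w1) (hR0 : 0 ≤ R1) (hR1 : R1 ≤ w1) (hρ : ρ ≤ w1)
    (hKx : Kx + 1 ≤ K) (hKK : K0' + 3 ≤ K) (hv1 : (K + K0' + 1) * w1 ≤ sl μ s * n1) (hv2 : (K + K0' + 1) * w1 ≤ (1 - sl μ s) * n1)
    (hδ : 0 ≤ δ) (hε : δ ≤ ε) :
    IN26 (fun a y => kW μ s η 0 n1 a y / A) (sl μ s) w n1 u (th * w) ρ E qM hM ε := by
  have hw1 : 0 < w1 := by linarith
  have hE : 0 ≤ E := hE1.trans hEE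
  obtain ⟨v, hv⟩ : ∃ x : ℝ, x = sl μ s := ⟨_, rfl⟩
  rw [← hv] at HO H ht hv1 hv2 ⊢
  -- the window
  obtain ⟨xa, hxa⟩ : ∃ x : ℤ, x = ⌊v * n1 - (K - 1) * w1⌋ := ⟨_, rfl⟩
  obtain ⟨xb, hxb⟩ : ∃ x : ℤ, x = ⌈v * n1 + (K - 1) * w1⌉ := ⟨_, rfl⟩
  have xa1 : (xa : ℝ) ≤ v * n1 - (K - 1) * w1 := by rw [hxa]; exact Int.floor_le _
  have xa2 : v * n1 - (K - 1) * w1 < xa + 1 := by rw [hxa]; exact Int.lt_floor_add_one _
  have xb1 : v * n1 + (K - 1) * w1 ≤ xb := by rw [hxb]; exact Int.le_ceil _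
  have xb2 : (xb : ℝ) < v * n1 + (K - 1) * w1 + 1 := by rw [hxb]; exact Int.ceil_lt_add_one _
  obtain ⟨m0, hm0⟩ : ∃ x : ℝ, x = lt26 v w1 n0 (t false) := ⟨_, rfl⟩
  obtain ⟨s0, hs0⟩ : ∃ x : ℤ, x = ⌊v * n1 + (m0 + del / 2) * w1⌋ := ⟨_, rfl⟩
  have s01 : (s0 : ℝ) ≤ v * n1 + (m0 + del / 2) * w1 := by rw [hs0]; exact Int.floor_le _
  have s02 : v * n1 + (m0 + del / 2) * w1 < s0 + 1 := by rw [hs0]; exact Int.lt_floor_add_one _
  have hKw : 0 ≤ (K - 1) * w1 := mul_nonneg (by linarith) hw1.le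
  have hxx : xa ≤ xb := by
    have : (xa : ℝ) ≤ xb := by linarith
    exact_mod_cast this
  have hm1 : lt26 v w1 n0 (t true) = m0 + ((u true : ℝ) - u false) / w1 := by
    rw [hm0, hτ, hτ]
    unfold lt26
    push_cast
    ring
  have hfl : (0 : ℤ) ≤ ⌊R1⌋ := Int.floor_nonneg.2 hR0
  have hflr : ((⌊R1⌋ : ℤ) : ℝ) ≤ R1 := Int.floor_le _
  have B := HO (u false - ⌊R1⌋) (u false + ⌊R1⌋) (u true - ⌊R1⌋) (u true + ⌊R1⌋) xa xb s0 (by omega) (by omega)
    (fun y g1 g2 => cell_iff26.2 ⟨g1, g2⟩) (fun y g1 g2 => cell_iff26.2 ⟨g1, g2⟩) (by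
      unfold lt26
      rw [le_div_iff₀ hw1]
      linarith) (by
      unfold lt26
      rw [div_le_iff₀ hw1]
      have := mul_le_mul_of_nonneg_right hKx hw1.le
      linarith) (by
      unfold lt26
      rw [div_le_iff₀ hw1]
      linarith) (by
      unfold lt26
      rw [le_div_iff₀ hw1]
      have := mul_le_mul_of_nonneg_right hKx hw1.le
      linarith) hxx (by
      show lt26 v w1 n0 (t false) + del / 4 ≤ lt26 v w1 n1 s0
      rw [← hm0]
      unfold lt26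
      rw [le_div_iff₀ hw1]
      linarith) (by
      show lt26 v w1 n1 s0 + del / 4 ≤ lt26 v w1 n0 (t true)
      rw [hm1]
      have g1 : lt26 v w1 n1 s0 ≤ m0 + del / 2 := by
        unfold lt26
        rw [div_le_iff₀ hw1]
        linarith
      have g2 : del ≤ ((u true : ℝ) - u false) / w1 := by
        rw [le_div_iff₀ hw1]
        linarith
      have g3 : 0 < del := by
        by_contra hcon
        have := mul_nonpos_of_nonpos_of_nonneg (not_lt.1 hcon) hw1.le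
        linarith
      linarith)
  -- the two start cells
  have crI : ∀ i, CR (kW μ s η 0 n1) (u i - ⌊R1⌋) (u i + ⌊R1⌋) xa xb ≤ 1 + δ := by
    intro i
    cases i
    · exact B.cr1
    · exact B.cr2
  have lowI : ∀ i, ∀ y : ℤ, |(y : ℝ) - u i| ≤ R1 → ∀ x : ℤ, |lt26 v w1 n1 x - lt26 v w1 n0 (t i)| ≤ Kc →
      Real.exp (-(ell' * E1)) * A ≤ kW μ s η 0 n1 y x := by
    intro i y hy x hx
    obtain ⟨g1, g2⟩ := cell_iff26.1 hy
    cases i
    · exact B.lowc1 y g1 g2 x hx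
    · exact B.lowc2 y g1 g2 x hx
  have hcp := fun i => cp26_near v (u i) n1
  refine ⟨fun a y => div_nonneg (kW_nonneg η 0 n1 a y) hA.le, ?_, fun i a ha => ?_, ?_⟩
  · exact upI26 H w11 hw hA ht hu hE1 hEE hE3 hb be0 hg hG hK0 hM0 hs hMth hR hl hq
  · show Real.exp (-(qM * E)) ≤ kW μ s η 0 n1 a (cp26 v (u i) n1) / A
    rw [le_div_iff₀ hA]
    refine le_trans (mul_le_mul_of_nonneg_right (Real.exp_le_exp.2 ?_) hA.le) (lowI i a (ha.trans hR) _ ?_)
    · have g1 := mul_le_mul_of_nonneg_left hEE hl'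
      have g2 := mul_le_mul_of_nonneg_right hq' hE
      linarith
    · unfold lt26
      rw [← sub_div, abs_div, abs_of_pos hw1, div_le_iff₀ hw1]
      have e : (cp26 v (u i) n1 : ℝ) - v * n1 - ((t i : ℝ) - v * n0) = ((cp26 v (u i) n1 : ℝ) - u i - v * n1) - ((t i : ℝ) - u i - v * n0) := by
        ring
      rw [e]
      refine (abs_sub _ _).trans ?_
      have := hcp i
      have := ht i
      linarith
  · intro i a a' ha ha' y y' hy hy'
    have inw : ∀ y : ℤ, (∃ j, |(y : ℝ) - cp26 v (u j) n1| ≤ ρ) → xa ≤ y ∧ y ≤ xb := by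
      rintro y ⟨j, hj⟩
      have g1 := hcp j
      have g2 := hu j
      have g3 : |(y : ℝ) - v * n1| ≤ ρ + 1 + K0' * w1 := by
        have e : (y : ℝ) - v * n1 = ((y : ℝ) - cp26 v (u j) n1) + (((cp26 v (u j) n1 : ℝ) - u j - v * n1) + u j) := by ring
        rw [e]
        refine (abs_add_le _ _).trans ?_
        have := abs_add_le ((cp26 v (u j) n1 : ℝ) - u j - v * n1) (u j)
        linarith
      have g4 := mul_le_mul_of_nonneg_right hKK hw1.le
      have g5 : (xa : ℝ) ≤ y := by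
        have := (abs_le.1 g3).1
        linarith
      have g6 : (y : ℝ) ≤ xb := by
        have := (abs_le.1 g3).2
        linarith
      exact ⟨by exact_mod_cast g5, by exact_mod_cast g6⟩
    obtain ⟨p1, p2⟩ := inw y hy
    obtain ⟨p3, p4⟩ := inw y' hy'
    obtain ⟨q1, q2⟩ := cell_iff26.1 (ha.trans hR)
    obtain ⟨q3, q4⟩ := cell_iff26.1 (ha'.trans hR)
    have c1 : u i + ⌊R1⌋ ≤ xa := by
      have g1 := (abs_le.1 (hu i)).2
      have g2 : ((u i + ⌊R1⌋ : ℤ) : ℝ) < ((xa + 1 : ℤ) : ℝ) := by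
        push_cast
        linarith
      have g3 : u i + ⌊R1⌋ < xa + 1 := by exact_mod_cast g2
      omega
    have c2 : xb ≤ u i - ⌊R1⌋ + n1 := by
      have g1 := (abs_le.1 (hu i)).1
      have g2 : ((xb : ℤ) : ℝ) < ((u i - ⌊R1⌋ + n1 + 1 : ℤ) : ℝ) := by
        push_cast
        linarith
      have g3 : xb < u i - ⌊R1⌋ + n1 + 1 := by exact_mod_cast g2
      omega
    have fin := rank_int26 (μ := μ) (s := s) (η := η) (r := 0) (T := n1) hδ (by omega) hxx c1 c2 (crI i) a a' q1 q2 q3 q4 y y' p1 p2 p3 p4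
    have nn := fun a y => kW_nonneg (μ := μ) (s := s) η 0 n1 a y
    show kW μ s η 0 n1 a y / A * (kW μ s η 0 n1 a' y' / A) ≤ (1 + ε) * (kW μ s η 0 n1 a y' / A * (kW μ s η 0 n1 a' y / A))
    have e1 : kW μ s η 0 n1 a y / A * (kW μ s η 0 n1 a' y' / A) = kW μ s η 0 n1 a y * kW μ s η 0 n1 a' y' / (A * A) := by field_simp
    have e2 : (1 + ε) * (kW μ s η 0 n1 a y' / A * (kW μ s η 0 n1 a' y / A)) =
        (1 + ε) * (kW μ s η 0 n1 a y' * kW μ s η 0 n1 a' y) / (A * A) := by field_simp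
    rw [e1, e2]
    refine div_le_div_of_nonneg_right (fin.trans (mul_le_mul_of_nonneg_right (by linarith) (mul_nonneg (nn _ _) (nn _ _)))) ?_
    positivity

/-- **THE FIRST BLOCK.** -/
theorem stI26 [IsProbabilityMeasure μ] (h : In μ s c C n₀) (hR : RkP26 μ s) (hT : TslP26 μ s c) : StI26 μ s c := by
  have hc0 := h.c0
  have hc1 := h.c1
  have hsl0 := h.sl_pos
  have hsl1 := h.sl_lt
  obtain ⟨ell, hell, H⟩ := fre026 h hR hT (eps := 1 / 2) (by norm_num)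
  refine ⟨ell + 4, by linarith, fun K0 del hM hK0 hdel hMc => ?_⟩
  have hM0 : 0 < hM := by linarith
  obtain ⟨b0, ns, hb0, hns, hsc⟩ := sc26 h (M := 8 * hM / c) (by positivity)
  obtain ⟨j, hj⟩ : ∃ j : ℕ, j = max b0 3 := ⟨_, rfl⟩
  have hjb : b0 ≤ j := by rw [hj]; exact le_max_left _ _
  have hj3 : 3 ≤ j := by rw [hj]; exact le_max_right _ _
  have hj3R : (3 : ℝ) ≤ j := by exact_mod_cast hj3
  obtain ⟨K0', hK0'⟩ : ∃ x : ℝ, x = 2 * j * K0 := ⟨_, rfl⟩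
  have hK0'0 : 0 ≤ K0' := by rw [hK0']; positivity
  obtain ⟨gI, hgI⟩ : ∃ x : ℝ, x = c / 8 * (2 * (K0' + 1)) := ⟨_, rfl⟩
  have hgI0 : 0 ≤ gI := by rw [hgI]; positivity
  obtain ⟨th, K, Kx, hB, ellw, Kc, Q1, Qe, Qw, c', Pe, Pw, j1, j2, f1, f2, f3, f4, f5, f6, f7, f8, f9, f10, f11, f12, f13, f14, f15, f16,
    f17, H⟩ := H 1 (K0' + 1) del 1 1 (c / 8) gI 0 (K0' + 3) one_pos (by linarith) hdel one_pos one_pos (by linarith) le_rfl hgI0 le_rfl
      (by linarith)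
  obtain ⟨p, Q, k₁, hp, hQ, hk₁, H⟩ := H gI hgI0
  obtain ⟨th1, hth1⟩ : ∃ x : ℝ, x = min (th / (2 * j)) (1 / (4 * hM)) := ⟨_, rfl⟩
  have hth10 : 0 < th1 := by rw [hth1]; positivity
  have t1 : th1 ≤ th / (2 * j) := by rw [hth1]; exact min_le_left _ _
  have t2 : th1 ≤ 1 / (4 * hM) := by rw [hth1]; exact min_le_right _ _
  have hj12 : 1 ≤ j1 * j2 := Nat.mul_pos f15 f16
  obtain ⟨N1, hN1⟩ := th26 h (th := del / 4) (by positivity) ((K + K0' + 1) / sl μ s)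
  obtain ⟨N2, hN2⟩ := th26 h (th := Kc / 2) (by positivity) ((K + K0' + 1) / (1 - sl μ s))
  obtain ⟨N3, hN3⟩ := th26 h (th := 1 / (2 * hM)) (by positivity) 1
  refine ⟨th1, c' / 2, Qw * C26 Pw (2 * j), Q1, Pw, j2 + j1 * j2 + j1, j * (j1 * j2), hth10, by positivity,
    mul_nonneg f13 (C26_nonneg _ (by positivity)), f11, by omega, ?_, p * (1 / 2), Q, k₁ + ns + N1 + N2 + N3 + j, by positivity, hQ,
    by omega, fun k hk n1 T hn1 hTT ρ hρ0 hρ u hu hsep => ?_⟩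
  · have e1 : j1 ≤ j1 * j2 := Nat.le_mul_of_pos_right j1 f16
    have e2 : j2 ≤ j1 * j2 := Nat.le_mul_of_pos_left j2 f15
    have e3 : 3 * (j1 * j2) ≤ j * (j1 * j2) := Nat.mul_le_mul_right _ hj3
    omega
  -- the scales
  obtain ⟨nM, hnM⟩ : ∃ x : ℕ, x = Q * j2 * k := ⟨_, rfl⟩
  obtain ⟨T1, hT1⟩ : ∃ x : ℕ, x = Q * (j1 * j2) * k := ⟨_, rfl⟩
  obtain ⟨nB, hnB⟩ : ∃ x : ℕ, x = Q * j1 * k := ⟨_, rfl⟩
  have en1 : n1 = nM + (T1 + nB) := by rw [hn1, hnM, hT1, hnB]; ring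
  have eT : T = j * T1 := by rw [hTT, hT1]; ring
  have hkT : k ≤ T1 := by
    rw [hT1]
    exact Nat.le_mul_of_pos_left k (Nat.mul_pos hQ hj12)
  have hTn : T1 ≤ n1 := by omega
  have hTT1 : T1 ≤ T := by rw [eT]; exact Nat.le_mul_of_pos_left T1 (by omega)
  have A1 := hN1 T1 (by omega)
  have A2 := hN2 T1 (by omega)
  have A3 := hN3 T (by omega)
  obtain ⟨-, sE, sw1, sw2, shs⟩ := hsc j T1 hjb (by omega)
  rw [← eT] at sE sw1 sw2 shs
  obtain ⟨r, r0, r1, r2, H⟩ := H k (by omega) nM T1 nB hnM hT1 hnB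
  clear hN1 hN2 hN3 hsc hn1 hTT hnM hT1 hnB
  have w12 := A1.w2
  have w2 := A3.w2
  have hw1 : 0 < wd μ s T1 := by linarith
  have hw : 0 < wd μ s T := by linarith
  have hE1 := EE_pos (μ := μ) (s := s) T1
  have hE := EE_pos (μ := μ) (s := s) T
  have hww : wd μ s T1 ≤ wd μ s T := by
    have g1 := sw1
    have g2 : 1 * wd μ s T1 ≤ 8 * hM / c * wd μ s T1 := by
      refine mul_le_mul_of_nonneg_right ?_ hw1.le
      rw [le_div_iff₀ hc0]
      linarith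
    linarith
  have hu1 : ∀ i, |(u i : ℝ)| ≤ K0' * wd μ s T1 := by
    intro i
    refine (hu i).trans ?_
    have := mul_le_mul_of_nonneg_left sw2 hK0
    rw [hK0']
    linarith
  have hcp := fun i => cp26_near (sl μ s) (u i) (nM + T1)
  have hRth : th1 * wd μ s T ≤ th * wd μ s T1 := by
    have g1 := mul_le_mul_of_nonneg_left sw2 hth10.le
    have g2 : th1 * (2 * j) ≤ th := by
      rw [le_div_iff₀ (by positivity)] at t1
      exact t1
    have g3 := mul_le_mul_of_nonneg_right g2 hw1.le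
    linarith
  have hsep1 : (u false : ℝ) + del * wd μ s T1 ≤ u true := by
    have := mul_le_mul_of_nonneg_left hww hdel.le
    linarith
  obtain ⟨t, ht⟩ : ∃ f : Bool → ℤ, f = fun i => cp26 (sl μ s) (u i) (nM + T1) := ⟨_, rfl⟩
  have hti : ∀ i, t i = u i + cp26 (sl μ s) 0 (nM + T1) := by
    intro i
    rw [ht]
    show cp26 (sl μ s) (u i) (nM + T1) = _
    rw [← cp26_add]
    ring
  have htn : ∀ i, |(t i : ℝ) - u i - sl μ s * (nM + T1 : ℕ)| ≤ 1 := by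
    intro i
    rw [ht]
    exact hcp i
  obtain ⟨SA, SB, a1, a2, a3, a4, a5, a6, a7⟩ := H u t (fun i => (hu1 i).trans (mul_le_mul_of_nonneg_right (by linarith) hw1.le))
    (fun i => by
      have e : (t i : ℝ) - sl μ s * (nM + T1 : ℕ) = ((t i : ℝ) - u i - sl μ s * (nM + T1 : ℕ)) + u i := by ring
      rw [e]
      refine (abs_add_le _ _).trans ?_
      have := htn i
      have := hu1 i
      linarith) hsep1 (by
      rw [hti, hti]
      push_cast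
      linarith)
  have pB : 1 / 2 ≤ (law μ).real SB := by
    have := probReal_add_probReal_compl (μ := law μ) a2
    linarith
  obtain ⟨o1, o2, o3⟩ := indep26 (μ := μ) (by omega) (by omega) a3 a4 a1 a2 hp.le (show (0 : ℝ) ≤ 1 / 2 by norm_num) a5 pB
  have eo : (nM : ℤ) + T1 + nB = n1 := by rw [en1]; push_cast; ring
  rw [eo] at o1
  refine ⟨SA ∩ SB, o2, o1, o3, fun η hη => ?_⟩
  obtain ⟨A, m1, m2⟩ := a7 η hη.1
  have B := m2 hη.2
  rw [Nat.add_assoc nM T1 nB, ← en1] at B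
  have hA1 : 1 ≤ A := by
    have := m1.lo
    rwa [zero_mul, Real.exp_zero] at this
  have hT1r : (0 : ℝ) < T1 := by
    have : 1 ≤ T1 := A1.one
    exact_mod_cast this
  have hEx : 3 ≤ Real.exp (EE μ s T) := by
    have g1 := A3.RE
    have g2 : (1 : ℝ) ≤ T := by exact_mod_cast A3.one
    have g3 : (1 : ℝ) ≤ (6 * (T : ℝ)) ^ 3 := one_le_pow₀ (by linarith)
    have g4 : (6 : ℝ) ≤ (6 * (T : ℝ)) ^ 3 := by
      have e : (6 * (T : ℝ)) ^ 3 = 6 * (T : ℝ) * (6 * (T : ℝ)) ^ 2 := by ring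
      have g5 : (1 : ℝ) ≤ (6 * (T : ℝ)) ^ 2 := one_le_pow₀ (by linarith)
      rw [e]
      nlinarith
    linarith
  have hs1 : hM * (wd μ s T1 * EE μ s T) ≤ c / 8 * (EE μ s T1 * wd μ s T) := by
    have g1 := mul_le_mul_of_nonneg_left shs (show 0 ≤ c / 8 by positivity)
    have e : c / 8 * (8 * hM / c * (EE μ s T * wd μ s T1)) = hM * (wd μ s T1 * EE μ s T) := by field_simp
    rw [e] at g1
    exact g1
  have hv : ∀ x : ℝ, 0 < x → (K + K0' + 1) / x * wd μ s T1 ≤ T1 → (K + K0' + 1) * wd μ s T1 ≤ x * n1 := by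
    intro x hx hy
    have g1 := mul_le_mul_of_nonneg_left hy hx.le
    have e : x * ((K + K0' + 1) / x * wd μ s T1) = (K + K0' + 1) * wd μ s T1 := by field_simp
    rw [e] at g1
    have g2 : (T1 : ℝ) ≤ n1 := by exact_mod_cast hTn
    exact g1.trans (mul_le_mul_of_nonneg_left g2 hx.le)
  refine ⟨A, hA1, m1.up.trans (Real.exp_le_exp.2 (mul_le_mul_of_nonneg_left sE f11)), ?_, ?_⟩
  · refine inI26 (τ := cp26 (sl μ s) 0 (nM + T1)) (K0' := K0') B.out B.pt (by linarith) hw (by linarith) htn hti hu1 hE1.le sE hEx f7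
      (by positivity) hgI.ge hgI.ge hK0'0 hM0.le hs1 ?_ hRth (by linarith) (by linarith) (by linarith) (by linarith) hsep1 ?_ ?_
      (by positivity) ?_ ?_ f5 f6 (hv _ hsl0 A1.KT) (hv _ (by linarith) A2.KT) (Real.exp_pos _).le ?_
    · have g1 : hM * th1 ≤ 1 / 4 := by
        rw [le_div_iff₀ (by positivity)] at t2
        linarith
      have g2 : hM * (1 / wd μ s T) ≤ 1 / 2 := by
        have g3 := A3.thw
        rw [mul_one_div, div_le_iff₀ hw]
        rw [one_div, inv_mul_eq_div, le_div_iff₀ (by positivity)] at g3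
        linarith
      linarith
    · have := A1.thw
      linarith
    · have := A2.thw
      linarith
    · have := mul_le_mul_of_nonneg_right f2 hw1.le
      linarith
    · have := mul_le_mul_of_nonneg_right f2 hw1.le
      linarith
    · -- the error
      refine Real.exp_le_exp.2 (neg_le_neg ?_)
      have g1 : (T : ℝ) ≤ (T1 : ℝ) ^ (2 : ℝ) := by
        have g2 : (T : ℝ) = j * T1 := by rw [eT]; push_cast; ring
        have g3 : (j : ℝ) ≤ T1 := by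
          have : j ≤ T1 := by omega
          exact_mod_cast this
        have e : (T1 : ℝ) ^ (2 : ℝ) = T1 * T1 := by
          rw [show (2 : ℝ) = ((2 : ℕ) : ℝ) by norm_num, Real.rpow_natCast]
          ring
        rw [g2, e]
        exact mul_le_mul_of_nonneg_right g3 hT1r.le
      refine (Real.rpow_le_rpow (Nat.cast_nonneg _) g1 (by positivity)).trans (le_of_eq ?_)
      rw [← Real.rpow_mul hT1r.le]
      congr 1
      ring
  · refine pe_scale26 (h := c) B.pe hw1 hw hE1.le sE f13 (by positivity) sw2 ?_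
    have g1 := mul_le_mul_of_nonneg_right hMc (mul_pos hw1 hE).le
    have g2 : 0 ≤ EE μ s T1 * wd μ s T := by positivity
    nlinarith

end

end Pool.Agent.W_7d29a1_C1.B26
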