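import Pool.Agent.W_7d29a1_C1.FrcH26
import Pool.Agent.W_7d29a1_C1.FrbE26

/-!
MP_7d29a1_pr, [C1] THE BUFFER OF THE FRESH BALL, SECOND FORM (windows and exits after the levels): the four statements. (helper26)

`StI26`: the first block (a small two lane buffer, rank one over both entrances), `StF26`: the lanes, `StC26`: the typical rows,
`FrC026`: the whole, base 0. Order: `eps | ell | th' K0 del rD dd be g L | th hB Kc Q1 Qe Qw c' Pe Pw a j1 j2 | Kw gx G' |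
K Kx ellw p Q k₁`.
-/

set_option autoImplicit false

namespace Pool.Agent.W_7d29a1_C1.B26

open MeasureTheory ProbabilityTheory Filter Topology Finset
open Pool.Agent.W_7d29a1_F Pool.Agent.W_7d29a1_h4g Pool.Agent.W_7d29a1_H Pool.Agent.W_7d29a1_HS
open Pool.Agent.W_7d29a1_C1
open Pool.Agent.W_7d29a1_C1.Basin76
open Pool.Agent.W_7d29a1_C1.U16 (fq16)

noncomputable section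

/-- **THE FIRST BLOCK**, rows `0 .. n1`: a small two lane buffer, rank one from each start cell to BOTH entrances. -/
def StI26 (μ : Measure ℝ) (s c : ℝ) : Prop := ∃ qM : ℝ, 0 ≤ qM ∧ ∀ K0 del hM : ℝ, 0 ≤ K0 → 0 < del → c ≤ hM →
  ∃ (th1 cI QI Q1 : ℝ) (PI a j : ℕ), 0 < th1 ∧ 0 < cI ∧ 0 ≤ QI ∧ 0 ≤ Q1 ∧ 1 ≤ a ∧ a ≤ j ∧ ∃ (p : ℝ) (Q k₁ : ℕ), 0 < p ∧ 1 ≤ Q ∧
  1 ≤ k₁ ∧ ∀ k : ℕ, k₁ ≤ k → ∀ n1 T : ℕ, n1 = Q * a * k → T = Q * j * k → ∀ ρ : ℝ, 0 ≤ ρ → ρ ≤ th1 * wd μ s T →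
  ∀ u : Bool → ℤ, (∀ i, |(u i : ℝ)| ≤ K0 * wd μ s T) → (u false : ℝ) + del * wd μ s T ≤ u true →
  ∃ S : Set Env, MeasurableSet S ∧ OnR26 (rows 0 n1) S ∧ p ≤ (law μ).real S ∧ ∀ η ∈ S, ∃ A1 : ℝ, 1 ≤ A1 ∧
    A1 ≤ Real.exp (Q1 * EE μ s T) ∧
    IN26 (fun a y => kW μ s η 0 n1 a y / A1) (sl μ s) (wd μ s T) n1 u (th1 * wd μ s T) ρ (EE μ s T) qM hM
      (Real.exp (-(T : ℝ) ^ cI)) ∧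
    PE26 (kW μ s η 0 n1) (lt26 (sl μ s) (wd μ s T) 0) (lt26 (sl μ s) (wd μ s T) n1) (EE μ s T) PI QI c

/-- **THE LANES**, rows `n1 .. n1 + T` (from `TslP26`). -/
def StF26 (μ : Measure ℝ) (s c : ℝ) : Prop := ∀ K0 del dd be g2 L th hM qM : ℝ, 0 ≤ K0 → 0 < del → 0 < dd → 0 ≤ be → 0 ≤ g2 →
  0 ≤ L → 0 < th → 0 < hM → 0 ≤ qM →
  ∃ (QF qF : ℝ) (PT : ℕ), 0 ≤ QF ∧ 0 ≤ qF ∧ (∀ t : ℝ, 0 ≤ t → qF * fq16 PT (t + 2) ≤ QF + c / 16 * t) ∧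
  ∀ G2 : ℝ, g2 ≤ G2 → ∃ (K3 G c₁ : ℝ) (Q n₁ : ℕ), 0 < c₁ ∧ 1 ≤ Q ∧ 1 ≤ n₁ ∧ K0 + 1 ≤ K3 ∧
  Gq26 (K0 + 1) K3 qM hM QF G be G2 (c / 16) ∧ ∀ k : ℕ, n₁ ≤ k → ∀ T : ℕ, T = Q * k → ∃ r : ℝ, 0 ≤ r ∧ r ≤ th * wd μ s T ∧
  ∀ (n1 : ℕ) (u t : Bool → ℤ), (∀ i, |(u i : ℝ)| ≤ K0 * wd μ s T) → (∀ i, |(t i : ℝ) - sl μ s * (n1 + T : ℕ)| ≤ K0 * wd μ s T) →
    (u false : ℝ) + del * wd μ s T ≤ u true → (t false : ℝ) + del * wd μ s T ≤ t true →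
  ∃ S : Set Env, MeasurableSet S ∧ OnR26 (rows n1 ((n1 : ℤ) + T)) S ∧ c₁ ≤ (law μ).real S ∧
    ∀ η ∈ S, FF26 μ s c η n1 T u t PT qF r ((K3 + 1) * wd μ s T) L G dd

/-- **THE TYPICAL ROWS**, rows `n1 + T .. n1 + T + nB`: the level before the rate, the scale `j2` before the window `K`. -/
def StC26 (μ : Measure ℝ) (s c : ℝ) : Prop := ∀ eps : ℝ, 0 < eps → ∃ (P : ℕ) (q qs : ℝ), 0 ≤ q ∧ 0 ≤ qs ∧ q * fq16 P 2 ≤ qs ∧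
  ∀ K0 hB J0 : ℝ, 0 ≤ K0 → 0 ≤ hB → ∃ (j2 : ℕ) (QB : ℝ), 1 ≤ j2 ∧ J0 ≤ j2 ∧ 0 ≤ QB ∧ ∀ K : ℝ, 0 ≤ K →
  ∃ (b : ℝ) (n₁ : ℕ), 0 ≤ b ∧ ∀ nB T : ℕ, n₁ ≤ nB → T = j2 * nB → ∀ th : ℝ, 0 ≤ th → th ≤ 1 / (4 * j2) →
    NB26 μ s c T nB P (2 * j2) q th QB (c / 16) hB ∧
    ∀ (n1 : ℕ) (t : Bool → ℤ), (∀ i, |(t i : ℝ) - sl μ s * (n1 + T : ℕ)| ≤ K0 * wd μ s T) →
      ∃ S : Set Env, MeasurableSet S ∧ OnR26 (rows ((n1 : ℤ) + T) ((n1 : ℤ) + T + nB)) S ∧ (law μ).real Sᶜ ≤ eps ∧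
        ∀ η ∈ S, Bct26 μ s c η n1 T nB t P q qs K b (1 / (2 * j2))

/-- **THE BUFFER OF THE FRESH BALL, SECOND FORM, base 0.** -/
def FrC026 (μ : Measure ℝ) (s c : ℝ) : Prop := ∀ eps : ℝ, 0 < eps →
    ∃ ell : ℝ, 0 ≤ ell ∧ ∀ th' K0 del rD dd be g L : ℝ, 0 < th' → 0 ≤ K0 → 0 < del → 0 < rD → 0 < dd → 0 ≤ be → be ≤ c / 8 →
      0 ≤ g → 0 ≤ L →
    ∃ (th hB Kc Q1 Qe Qw c' : ℝ) (Pe Pw a j1 j2 : ℕ), 0 < th ∧ th ≤ rD ∧ th ≤ del / 8 ∧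
      be ≤ hB ∧ 1 ≤ hB ∧ 0 < Kc ∧ 0 ≤ Q1 ∧ 0 ≤ Qe ∧ 0 ≤ Qw ∧ 0 < c' ∧ 1 ≤ a ∧ a ≤ j1 ∧ 1 ≤ j1 ∧ 1 ≤ j2 ∧ 1 ≤ th' * j2 ∧
    ∀ Kw gx G' : ℝ, 0 ≤ Kw → 0 ≤ gx → 0 ≤ G' → ∃ (K Kx ellw p : ℝ) (Q k₁ : ℕ), 0 ≤ Kx ∧ Kx + 1 ≤ K ∧ Kw ≤ K ∧ 0 ≤ ellw ∧ 0 < p ∧
      1 ≤ Q ∧ 1 ≤ k₁ ∧
    ∀ k : ℕ, k₁ ≤ k → ∀ nM T nB : ℕ, nM = Q * (a * j2) * k → T = Q * (j1 * j2) * k → nB = Q * j1 * k →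
    ∃ r : ℝ, 0 ≤ r ∧ r ≤ th * wd μ s T ∧ 1 ≤ th * wd μ s T ∧
    ∀ u t : Bool → ℤ, (∀ i, |(u i : ℝ)| ≤ K0 * wd μ s T) → (∀ i, |(t i : ℝ) - sl μ s * (nM + T : ℕ)| ≤ K0 * wd μ s T) →
      (u false : ℝ) + del * wd μ s T ≤ u true → (t false : ℝ) + del * wd μ s T ≤ t true →
    ∃ SA SB : Set Env, MeasurableSet SA ∧ MeasurableSet SB ∧ OnR26 (rows 0 ((nM : ℤ) + T)) SA ∧
      OnR26 (rows ((nM : ℤ) + T) ((nM : ℤ) + T + nB)) SB ∧ p ≤ (law μ).real SA ∧ (law μ).real SBᶜ ≤ eps ∧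
      ∀ η ∈ SA, ∃ A : ℝ,
        MO26 (kW μ s η 0 (nM + T)) (lt26 (sl μ s) (wd μ s T) 0) (lt26 (sl μ s) (wd μ s T) (nM + T)) (EE μ s T) u t (th * wd μ s T) r L Q1
          A (ell + 2 * dd) g G' be Pe Qe (3 * c / 4) ∧
        (η ∈ SB → BT26 (kW μ s η 0 (nM + (T + nB))) (lt26 (sl μ s) (wd μ s T) 0) (lt26 (sl μ s) (wd μ s T) (nM + T + nB)) (EE μ s T) u
          (fun i => lt26 (sl μ s) (wd μ s T) (nM + T) (t i)) (th * wd μ s T) K Kx del A (Real.exp (-((T : ℕ) : ℝ) ^ c'))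
          (ell + 2 * dd) ellw Kc be g gx G' hB Pw Qw (c / 2))

end

end Pool.Agent.W_7d29a1_C1.B26
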