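import Pool.Agent.W_7d29a1_C1.FrcC20
import Pool.Agent.W_7d29a1_C1.FrcP26

/-!
MP_7d29a1_pr, [C1] SHELL, FRESH BALL, SECOND FORM: `stI20 : StI26 μ s c` (the first block) from `frcI20`. (helper20)
-/

set_option autoImplicit false

namespace Pool.Agent.W_7d29a1_C1.B26

open MeasureTheory ProbabilityTheory Filter Topology Finset
open Pool.Agent.W_7d29a1_F Pool.Agent.W_7d29a1_h4g Pool.Agent.W_7d29a1_H Pool.Agent.W_7d29a1_HS
open Pool.Agent.W_7d29a1_C1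
open Pool.Agent.W_7d29a1_C1.Basin76

noncomputable section

variable {μ : Measure ℝ} {s c C : ℝ} {n₀ : ℕ}

/-- The first block, the kernel divided by its strength. -/
theorem MI20.in26 {M : ℤ → ℤ → ℝ} {v w E : ℝ} {n1 : ℕ} {u : Bool → ℤ} {R ρ A qM hM Q1 dl : ℝ} {P : ℕ} {Q hh : ℝ}
    (H : MI20 M (lt26 v w 0) (lt26 v w n1) E u (fun i => cp26 v (u i) n1) R A qM hM Q1 dl P Q hh) (hM0 : ∀ a x, 0 ≤ M a x)
    (hR : 0 ≤ R) (hρ : ρ ≤ R) : IN26 (fun a y => M a y / A) v w n1 u R ρ E qM hM dl := by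
  have hA : 0 < A := by linarith [H.lo]
  refine ⟨fun a y => div_nonneg (hM0 a y) hA.le, fun i a ha y => ?_, fun i a ha => ?_, fun i a a' ha ha' y y' hy hy' => ?_⟩
  · show M a y / A ≤ _
    rw [div_le_iff₀ hA]
    exact H.up i a ha y
  · show _ ≤ M a (cp26 v (u i) n1) / A
    rw [le_div_iff₀ hA]
    exact H.low i a _ ha (by rw [sub_self, abs_zero]; exact hR)
  · obtain ⟨l, hl⟩ := hy
    obtain ⟨l', hl'⟩ := hy'
    have h := H.rk i a a' ha ha' y y' ⟨l, hl.trans hρ⟩ ⟨l', hl'.trans hρ⟩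
    show M a y / A * (M a' y' / A) ≤ (1 + dl) * (M a y' / A * (M a' y / A))
    have e1 : M a y / A * (M a' y' / A) = M a y * M a' y' / (A * A) := by field_simp
    have e2 : (1 + dl) * (M a y' / A * (M a' y / A)) = (1 + dl) * (M a y' * M a' y) / (A * A) := by field_simp
    rw [e1, e2]
    exact div_le_div_of_nonneg_right h (mul_pos hA hA).le

/-- **THE FIRST BLOCK.** -/
theorem stI20 [IsProbabilityMeasure μ] (h : In μ s c C n₀) (hR : RkP26 μ s) (hT : TslP26 μ s c) : StI26 μ s c := by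
  obtain ⟨qM, hqM, H⟩ := frcI20 h hR hT
  refine ⟨qM, hqM, fun K0 del hM hK0 hdel hhM => ?_⟩
  obtain ⟨th, Q1, QI, cI, p, PI, a, j, Q, n1, f1, f2, f3, f4, f5, f6, f7, f8, H⟩ := H K0 del hM hK0 hdel (h.c0.le.trans hhM)
  refine ⟨th, cI, QI, Q1, PI, a, j, f1, f4, f3, f2, f6, f7, p, Q, n1 + 1, f5, f8, by omega, fun k hk nM T hnM hTT ρ hρ0 hρ u hu hsep => ?_⟩
  obtain ⟨S, a1, a2, a3, a4⟩ := (H k (by omega) nM T hnM hTT).2 u hu hsep
  refine ⟨S, a1, a2, a3, fun η hη => ?_⟩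
  obtain ⟨A, B⟩ := a4 η hη
  exact ⟨A, B.lo, B.hi, B.in26 (fun a x => kW_nonneg η 0 nM a x) (hρ0.trans hρ) hρ, B.pe⟩

end

end Pool.Agent.W_7d29a1_C1.B26
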