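import Pool.Agent.W_7d29a1_C1.FreB26

/-!
MP_7d29a1_pr, [C1] (helper13) **THE BUFFER FILE OF THE FRESH BALL, the last step of `freC26`** (helper26's text): `Frc0` = the statement at the
base `0`, `FreC` = the statement at every base point read at every place; `frcZ13 : Frc0 → FreC`. `BT26`: the output of the whole buffer
with its own exponent `gx` of the two exits.

Order: `eps | ell | th' K0 del rD dd be g L u0 | th hB Kc Q1 Qe Qw c' Pe Pw a j1 j2 | Kw gx G' | K Kx ellw p Q k₁ | r`.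
-/

set_option autoImplicit false

namespace Pool.Agent.W_7d29a1_C1.B26

open MeasureTheory ProbabilityTheory Filter Topology Finset
open Pool.Agent.W_7d29a1_F Pool.Agent.W_7d29a1_h4g Pool.Agent.W_7d29a1_H Pool.Agent.W_7d29a1_HS
open Pool.Agent.W_7d29a1_C1
open Pool.Agent.W_7d29a1_C1.Basin76
open Pool.Agent.W_7d29a1_C1.S83 (RowG meas_RowG rowG83)

noncomputable section

/-- **The output of the whole buffer**, with the exits at their own exponent `gx`. -/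
structure BT26 (Kr : ℤ → ℤ → ℝ) (L0 L3 : ℤ → ℝ) (E : ℝ) (u : Bool → ℤ) (mu : Bool → ℝ) (R K Kx del A δ ell ellw Kc be g gx G' hB : ℝ)
    (P : ℕ) (Q hh : ℝ) : Prop extends BO26 Kr L0 L3 E u mu R K Kx del A δ ell ellw Kc be g G' hB P Q hh where
  exw : ∀ (i : Bool) (y : ℤ), |(y : ℝ) - u i| ≤ R → ∀ X : Finset ℤ, (∀ x ∈ X, Kx ≤ |L3 x|) →
    ∑ x ∈ X, Kr y x * Real.exp (be * |L3 x| * E) ≤ Real.exp (-(gx * E)) * A

theorem BT26.shift {Kr Kr' : ℤ → ℤ → ℝ} {L0 L0' L3 L3' : ℤ → ℝ} {E : ℝ} {u u' : Bool → ℤ} {mu : Bool → ℝ}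
    {R A be g gx G' hB K Kx del δ ell ellw Kc : ℝ} {P : ℕ} {Q hh : ℝ}
    (H : BT26 Kr L0 L3 E u mu R K Kx del A δ ell ellw Kc be g gx G' hB P Q hh) (d : ℤ)
    (hK : ∀ x y, Kr' (x + d) (y + d) = Kr x y) (hL0 : ∀ x, L0' (x + d) = L0 x) (hL : ∀ x, L3' (x + d) = L3 x)
    (hu : ∀ i, u' i = u i + d) : BT26 Kr' L0' L3' E u' mu R K Kx del A δ ell ellw Kc be g gx G' hB P Q hh where
  toBO26 := H.toBO26.shift d hK hL0 hL hu
  exw := by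
    intro i y hy X hX
    have hL' : ∀ x, L3' x = L3 (x - d) := fun x => by
      have := hL (x - d)
      rwa [sub_add_cancel] at this
    have hK' : ∀ x, Kr' y x = Kr (y - d) (x - d) := fun x => by
      have := hK (y - d) (x - d)
      rwa [sub_add_cancel, sub_add_cancel] at this
    have h1 := H.exw i (y - d) (by
      have e : ((y - d : ℤ) : ℝ) - u i = (y : ℝ) - u' i := by
        rw [hu]
        push_cast
        ring
      rw [e]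
      exact hy) (X.image fun x => x - d) (fun x hx => by
      obtain ⟨x', hx', rfl⟩ := mem_image.1 hx
      rw [← hL']
      exact hX x' hx')
    rw [sum_image (fun a _ b _ hab => by
      have hab' : a - d = b - d := hab
      linarith)] at h1
    refine le_trans (le_of_eq (sum_congr rfl fun x _ => ?_)) h1
    rw [hL', hK']

/-- **The buffer at the base `0`.** -/
def Frc0 (μ : Measure ℝ) (s c : ℝ) : Prop :=
  ∀ eps : ℝ, 0 < eps → ∃ ell : ℝ, 0 ≤ ell ∧ ∀ th' K0 del rD dd be g L : ℝ, 0 < th' → 0 ≤ K0 → 0 < del → 0 < rD → 0 < dd → 0 ≤ be →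
      be ≤ c / 8 → 0 ≤ g → 0 ≤ L →
    ∃ (th hB Kc Q1 Qe Qw c' : ℝ) (Pe Pw a j1 j2 : ℕ), 0 < th ∧ th ≤ rD ∧ th ≤ del / 8 ∧ be ≤ hB ∧ 1 ≤ hB ∧ 0 < Kc ∧ 0 ≤ Q1 ∧ 0 ≤ Qe ∧
      0 ≤ Qw ∧ 0 < c' ∧ 1 ≤ a ∧ a ≤ j1 ∧ 1 ≤ j1 ∧ 1 ≤ j2 ∧ 1 ≤ th' * j2 ∧
    ∀ Kw gx G' : ℝ, 0 ≤ Kw → 0 ≤ gx → 0 ≤ G' → ∃ (K Kx ellw p : ℝ) (Q k₁ : ℕ), 0 ≤ Kx ∧ Kx + 1 ≤ K ∧ Kw ≤ K ∧ 0 ≤ ellw ∧ 0 < p ∧ 1 ≤ Q ∧
      1 ≤ k₁ ∧
    ∀ k : ℕ, k₁ ≤ k → ∀ nM T nB : ℕ, nM = Q * (a * j2) * k → T = Q * (j1 * j2) * k → nB = Q * j1 * k →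
    ∃ r : ℝ, 0 ≤ r ∧ r ≤ th * wd μ s T ∧ 1 ≤ th * wd μ s T ∧
    ∀ u t : Bool → ℤ, (∀ i, |(u i : ℝ)| ≤ K0 * wd μ s T) → (∀ i, |(t i : ℝ) - sl μ s * (nM + T : ℕ)| ≤ K0 * wd μ s T) →
      (u false : ℝ) + del * wd μ s T ≤ u true → (t false : ℝ) + del * wd μ s T ≤ t true →
    ∃ SA SB : Set Env, MeasurableSet SA ∧ MeasurableSet SB ∧ OnR26 (rows 0 ((nM : ℤ) + T)) SA ∧
      OnR26 (rows ((nM : ℤ) + T) ((nM : ℤ) + T + nB)) SB ∧ p ≤ (law μ).real SA ∧ (law μ).real SBᶜ ≤ eps ∧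
      ∀ η ∈ SA, ∃ A : ℝ,
        MO26 (kW μ s η 0 (nM + T)) (lt26 (sl μ s) (wd μ s T) 0) (lt26 (sl μ s) (wd μ s T) (nM + T)) (EE μ s T) u t (th * wd μ s T) r L Q1
          A (ell + 2 * dd) g G' be Pe Qe (3 * c / 4) ∧
        (η ∈ SB → BT26 (kW μ s η 0 (nM + (T + nB))) (lt26 (sl μ s) (wd μ s T) 0) (lt26 (sl μ s) (wd μ s T) (nM + T + nB)) (EE μ s T) u
          (fun i => lt26 (sl μ s) (wd μ s T) (nM + T) (t i)) (th * wd μ s T) K Kx del A (Real.exp (-((T : ℕ) : ℝ) ^ c'))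
          (ell + 2 * dd) ellw Kc be g gx G' hB Pw Qw (c / 2))

/-- **The buffer at every base point, read at every place** (the text of `freC26`). -/
def FreC (μ : Measure ℝ) (s c : ℝ) : Prop :=
  ∀ eps : ℝ, 0 < eps → ∃ ell : ℝ, 0 ≤ ell ∧ ∀ th' K0 del rD dd be g L u0 : ℝ, 0 < th' → 0 ≤ K0 → 0 < del → 0 < rD → 0 < dd → 0 ≤ be →
      be ≤ c / 8 → 0 ≤ g → 0 ≤ L → 0 < u0 →
    ∃ (th hB Kc Q1 Qe Qw c' : ℝ) (Pe Pw a j1 j2 : ℕ), 0 < th ∧ th ≤ rD ∧ th ≤ del / 8 ∧ be ≤ hB ∧ 1 ≤ hB ∧ 0 < Kc ∧ 0 ≤ Q1 ∧ 0 ≤ Qe ∧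
      0 ≤ Qw ∧ 0 < c' ∧ 1 ≤ a ∧ a ≤ j1 ∧ 1 ≤ j1 ∧ 1 ≤ j2 ∧ 1 ≤ th' * j2 ∧
    ∀ Kw gx G' : ℝ, 0 ≤ Kw → 0 ≤ gx → 0 ≤ G' → ∃ (K Kx ellw p : ℝ) (Q k₁ : ℕ), 0 ≤ Kx ∧ Kx + 1 ≤ K ∧ Kw ≤ K ∧ 0 ≤ ellw ∧ 0 < p ∧ 1 ≤ Q ∧
      1 ≤ k₁ ∧
    ∀ k : ℕ, k₁ ≤ k → ∀ nM T nB : ℕ, nM = Q * (a * j2) * k → T = Q * (j1 * j2) * k → nB = Q * j1 * k →
    ∃ r : ℝ, 0 ≤ r ∧ r ≤ th * wd μ s T ∧ 1 ≤ th * wd μ s T ∧
    ∀ (b : Pt) (u t : Bool → ℤ), (∀ i, |((u i - b.2 : ℤ) : ℝ)| ≤ K0 * wd μ s T) →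
      (∀ i, |((t i - b.2 : ℤ) : ℝ) - sl μ s * (nM + T : ℕ)| ≤ K0 * wd μ s T) →
      (u false : ℝ) + del * wd μ s T ≤ u true → (t false : ℝ) + del * wd μ s T ≤ t true →
    ∃ SA SB : Set Env, MeasurableSet SA ∧ MeasurableSet SB ∧ OnR26 (rows (b.1 - 1) (b.1 + nM + T)) SA ∧
      OnR26 (rows (b.1 + nM + T) (b.1 + nM + T + nB)) SB ∧ p ≤ (law μ).real SA ∧ (law μ).real SBᶜ ≤ eps ∧
      ∀ (z : Pt) (η : Env), sh z η ∈ SA →
        η ∈ RowG (b.1 + z.1) (b.2 + z.2) (wd μ s T) (u0 * EE μ s T) ∧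
        η ∈ RowG (b.1 + z.1 + nM + T) (cp26 (sl μ s) (b.2 + z.2) (nM + T)) (wd μ s T) (u0 * EE μ s T) ∧
        ∃ A : ℝ,
        MO26 (kW μ s η (b.1 + z.1) (nM + T)) (fun x => lt26 (sl μ s) (wd μ s T) 0 (x - (b.2 + z.2)))
          (fun x => lt26 (sl μ s) (wd μ s T) (nM + T) (x - (b.2 + z.2))) (EE μ s T) (fun i => u i + z.2) (fun i => t i + z.2)
          (th * wd μ s T) r L Q1 A (ell + 2 * dd) g G' be Pe Qe (3 * c / 4) ∧
        (sh z η ∈ SB → BT26 (kW μ s η (b.1 + z.1) (nM + (T + nB))) (fun x => lt26 (sl μ s) (wd μ s T) 0 (x - (b.2 + z.2)))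
          (fun x => lt26 (sl μ s) (wd μ s T) (nM + T + nB) (x - (b.2 + z.2))) (EE μ s T) (fun i => u i + z.2)
          (fun i => lt26 (sl μ s) (wd μ s T) (nM + T) (t i - b.2)) (th * wd μ s T) K Kx del A (Real.exp (-((T : ℕ) : ℝ) ^ c'))
          (ell + 2 * dd) ellw Kc be g gx G' hB Pw Qw (c / 2))

variable {μ : Measure ℝ} {s c C : ℝ} {n₀ : ℕ}

/-- **From the base `0` to every base point and every place.** -/
theorem frcZ13 [IsProbabilityMeasure μ] (h : In μ s c C n₀) (H0 : Frc0 μ s c) : FreC μ s c := by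
  intro eps heps
  obtain ⟨ell, hell, H⟩ := H0 eps heps
  refine ⟨ell, hell, fun th' K0 del rD dd be g L u0 hth' hK0 hdel hrD hdd hbe hbe8 hg hL hu0 => ?_⟩
  obtain ⟨th, hB, Kc, Q1, Qe, Qw, c', Pe, Pw, a, j1, j2, f1, f2, f3, f4, f5, f6, f7, f8, f9, f10, f11, f12, f15, f16, f17, H⟩ :=
    H th' K0 del rD dd be g L hth' hK0 hdel hrD hdd hbe hbe8 hg hL
  refine ⟨th, hB, Kc, Q1, Qe, Qw, c', Pe, Pw, a, j1, j2, f1, f2, f3, f4, f5, f6, f7, f8, f9, f10, f11, f12, f15, f16, f17,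
    fun Kw gx G' hKw hgx hG' => ?_⟩
  obtain ⟨K, Kx, ellw, p, Q, k₁, w1, w2, w3, w4, hp, hQ, hk₁, H⟩ := H Kw gx G' hKw hgx hG'
  obtain ⟨nr, hnr1, hnr⟩ := rowG83 h hu0 1
  obtain ⟨nE, hnE⟩ := eventually_atTop.1 (h.tE.eventually_ge_atTop (Real.log (4 / p)))
  obtain ⟨N1, hN1⟩ := th26 h f1 1
  refine ⟨K, Kx, ellw, p / 2, Q, k₁ + nr + nE + N1, w1, w2, w3, w4, by positivity, hQ, by omega, fun k hk nM T nB hnM hTT hnB => ?_⟩
  obtain ⟨r, r0, r1, r2, H⟩ := H k (by omega) nM T nB hnM hTT hnB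
  refine ⟨r, r0, r1, r2, fun b u t hu ht hsep hset => ?_⟩
  have hkT : k ≤ T := by
    rw [hTT]
    exact Nat.le_mul_of_pos_left k (Nat.mul_pos hQ (Nat.mul_pos f15 f16))
  have thT := hN1 T (by omega)
  have hwT2 := thT.w2
  have hwT := thT.KT
  rw [one_mul] at hwT
  obtain ⟨u0', hu0'⟩ : ∃ f : Bool → ℤ, f = fun i => u i - b.2 := ⟨_, rfl⟩
  obtain ⟨t0', ht0'⟩ : ∃ f : Bool → ℤ, f = fun i => t i - b.2 := ⟨_, rfl⟩
  obtain ⟨SA0, SB0, a1, a2, a3, a4, a5, a6, a7⟩ := H u0' t0' (fun i => by rw [hu0']; exact hu i) (fun i => by rw [ht0']; exact ht i) (by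
    rw [hu0']
    push_cast
    linarith) (by
    rw [ht0']
    push_cast
    linarith)
  -- the two rows
  obtain ⟨R1, hR1⟩ : ∃ E : Set Env, E = RowG b.1 b.2 (wd μ s T) (u0 * EE μ s T) := ⟨_, rfl⟩
  obtain ⟨R2, hR2⟩ : ∃ E : Set Env, E = RowG (b.1 + nM + T) (cp26 (sl μ s) b.2 (nM + T)) (wd μ s T) (u0 * EE μ s T) := ⟨_, rfl⟩
  have mR1 : MeasurableSet R1 := by rw [hR1]; exact meas_RowG _ _ _ _
  have mR2 : MeasurableSet R2 := by rw [hR2]; exact meas_RowG _ _ _ _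
  have hex : Real.exp (-(1 * EE μ s T)) ≤ p / 4 := by
    have h1 : Real.log (4 / p) ≤ EE μ s T := hnE T (by omega)
    have h2 := Real.exp_le_exp.2 (neg_le_neg h1)
    have e0 : Real.exp (-Real.log (4 / p)) = p / 4 := by
      rw [Real.exp_neg, Real.exp_log (by positivity), inv_div]
    rw [e0] at h2
    rw [one_mul]
    exact h2
  have pR1 : (law μ).real R1ᶜ ≤ p / 4 := by
    rw [hR1]
    exact (hnr T (by omega) _ _ _ (by linarith) hwT).trans hex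
  have pR2 : (law μ).real R2ᶜ ≤ p / 4 := by
    rw [hR2]
    exact (hnr T (by omega) _ _ _ (by linarith) hwT).trans hex
  have mA0 := meas_atR26 b a1
  have pA0 : p ≤ (law μ).real (atR26 b SA0) := by rw [real_atR26 (μ := μ) b a1]; exact a5
  refine ⟨atR26 b SA0 ∩ (R1 ∩ R2), atR26 b SB0, mA0.inter (mR1.inter mR2), meas_atR26 b a2, ?_, ?_, ?_, ?_, fun z η hη => ?_⟩
  · refine OnR26.inter ?_ (OnR26.inter ?_ ?_)
    · have h1 : OnR26 (rows b.1 (b.1 + (nM + T : ℕ))) (atR26 b SA0) := on_atR26 b (by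
        rw [zero_add]
        push_cast
        exact a3)
      refine h1.mono fun q hq => ?_
      have g1 : b.1 < q.1 := hq.1
      have g2 : q.1 ≤ b.1 + (nM + T : ℕ) := hq.2
      push_cast at g2
      exact ⟨by omega, by omega⟩
    · rw [hR1]
      exact on_RowG26 _ _ _ _ (by omega) (by omega)
    · rw [hR2]
      exact on_RowG26 _ _ _ _ (by omega) (by omega)
  · intro η η' hh
    refine a4 (sh b η) (sh b η') fun q hq => ?_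
    have g1 : (nM : ℤ) + T < q.1 := hq.1
    have g2 : q.1 ≤ (nM : ℤ) + T + nB := hq.2
    show η (q + b) = η' (q + b)
    refine hh (q + b) ⟨?_, ?_⟩
    · show b.1 + nM + T < q.1 + b.1
      linarith
    · show q.1 + b.1 ≤ b.1 + nM + T + nB
      linarith
  · have h1 : (law μ).real (atR26 b SA0 ∩ (R1 ∩ R2))ᶜ ≤ (law μ).real (atR26 b SA0)ᶜ + ((law μ).real R1ᶜ + (law μ).real R2ᶜ) := by
      rw [Set.compl_inter, Set.compl_inter]
      exact (measureReal_union_le _ _).trans (add_le_add le_rfl (measureReal_union_le _ _))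
    have h2 := probReal_add_probReal_compl (μ := law μ) (mA0.inter (mR1.inter mR2))
    have h3 := probReal_add_probReal_compl (μ := law μ) mA0
    linarith
  · have e : (atR26 b SB0)ᶜ = atR26 b SB0ᶜ := rfl
    rw [e, real_atR26 (μ := μ) b a2.compl]
    exact a6
  · obtain ⟨k0, k1, k2⟩ := hη
    have k0' : sh (b + z) η ∈ SA0 := by
      rw [← sh_sh26]
      exact k0
    rw [hR1] at k1
    rw [hR2] at k2
    have k1' := (RowG_sh26 z η _ _ _ _).1 k1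
    have k2' := (RowG_sh26 z η _ _ _ _).1 k2
    have ec : cp26 (sl μ s) b.2 (nM + T) + z.2 = cp26 (sl μ s) (b.2 + z.2) (nM + T) := by
      unfold cp26
      ring
    have er : b.1 + (nM : ℤ) + T + z.1 = b.1 + z.1 + nM + T := by ring
    rw [ec, er] at k2'
    obtain ⟨A, m1, m2⟩ := a7 _ k0'
    have eu : ∀ i, u i + z.2 = u0' i + (b.2 + z.2) := fun i => by
      rw [hu0']
      show u i + z.2 = u i - b.2 + (b.2 + z.2)
      ring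
    have et : ∀ i, t i + z.2 = t0' i + (b.2 + z.2) := fun i => by
      rw [ht0']
      show t i + z.2 = t i - b.2 + (b.2 + z.2)
      ring
    have eK : ∀ (n : ℕ) (x y : ℤ), kW μ s η (b.1 + z.1) n (x + (b.2 + z.2)) (y + (b.2 + z.2)) = kW μ s (sh (b + z) η) 0 n x y := by
      intro n x y
      rw [kW_sh, zero_add]
      rfl
    have eL : ∀ (n : ℕ) (x : ℤ), lt26 (sl μ s) (wd μ s T) n (x + (b.2 + z.2) - (b.2 + z.2)) = lt26 (sl μ s) (wd μ s T) n x := by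
      intro n x
      rw [add_sub_cancel_right]
    refine ⟨k1', k2', A, m1.shift (b.2 + z.2) (eK _) (eL _) (eL _) eu et, fun hB' => ?_⟩
    have hB2 : sh (b + z) η ∈ SB0 := by
      rw [← sh_sh26]
      exact hB'
    have m3 := (m2 hB2).shift (u' := fun i => u i + z.2) (Kr' := kW μ s η (b.1 + z.1) (nM + (T + nB)))
      (L0' := fun x => lt26 (sl μ s) (wd μ s T) 0 (x - (b.2 + z.2)))
      (L3' := fun x => lt26 (sl μ s) (wd μ s T) (nM + T + nB) (x - (b.2 + z.2))) (b.2 + z.2) (eK _) (eL _) (eL _) eu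
    rw [ht0'] at m3
    exact m3

end

end Pool.Agent.W_7d29a1_C1.B26
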