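import Pool.Agent.W_7d29a1_C1.FreE12

/-!
MP_7d29a1_pr, [C1] attractor route, SHELL, **THE FRESH BALL, PART P1** : for every outside with the data of the block (`DW31`) there is an
event of the rows `(i, i + T]`, of probability `≥ p₁`, which gives `SeamIn` at the row `i + T + 1`. (helper12)

Order of the constants in `freA12` : power `P₀`; then everything about the starts, the cross ratio and the ends; the level `Q₁` of P1; the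
envelope `kap31` of the ball, the last part, the target `v` of the off part, the far gain `gf`, the large window; then `p₁`, `ι` (force), the
divisor `Q` and the threshold `n₁`.
-/

set_option autoImplicit false

namespace Pool.Agent.W_7d29a1_C1.S12

open MeasureTheory ProbabilityTheory Filter Topology Finset
open Pool.Agent.W_7d29a1_F Pool.Agent.W_7d29a1_h4g Pool.Agent.W_7d29a1_H Pool.Agent.W_7d29a1_HS
open Pool.Agent.W_7d29a1_C1.K91P (fw)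
open Pool.Agent.W_7d29a1_C1.K91 (wt wt_pos)
open Pool.Agent.W_7d29a1_C1.FarK89 (gr AQ)
open Pool.Agent.W_7d29a1_C1.FarW89 (nk nk_nonneg)
open Pool.Agent.W_7d29a1_C1.S71 (gl)
open Pool.Agent.W_7d29a1_C1.D31 (DW31 kap31)

noncomputable section

variable {μ : Measure ℝ} {s c C : ℝ} {n₀ : ℕ}

/-- **THE FRESH BALL, P1.** -/
theorem freA12 [IsProbabilityMeasure μ] (h0 : In μ s c C n₀) {B : ℕ} (hB : 1 ≤ B) : ∃ P₀ : ℕ,
    ∀ {c₂ ω₁ ω₁' q₁ b₁ kst g₁ Ke δ δr : ℝ}, 0 < c₂ → 0 ≤ ω₁ → ω₁ < ω₁' → 0 ≤ q₁ → 0 ≤ b₁ → 0 ≤ g₁ → g₁ < kst → 0 ≤ Ke → 0 < δ →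
      0 < δr → ∃ Q₁ : ℝ, 0 ≤ Q₁ ∧
    ∀ {P : ℕ} {cc c₁ c₃ c₄ Qk S k₅ v gf ω₂ q₂ b₂ : ℝ}, 2 * P₀ ≤ P → cc ≤ c / (4 * B ^ 2) → 0 < c₁ → c₁ < c₄ → 0 ≤ Qk → 0 ≤ ω₂ →
      q₁ + b₁ + kst + c₃ * (ω₁ + Ke + 1) ≤ gf → q₁ + b₁ + kst + v + k₅ ≤ gf →
    ∃ (p₁ ι : ℝ) (Q n₁ : ℕ), 0 < p₁ ∧ 0 < ι ∧ 1 ≤ Q ∧ 1 ≤ n₁ ∧
    ∀ T T' : ℕ, n₁ ≤ T → n₁ ≤ T' → Q ∣ T → T ≤ B * T' → T' ≤ B * T → ∃ r₀ : ℕ, (r₀ : ℝ) ≤ δr * wd μ s T' ∧
    ∀ {M i Nn : ℕ} {h cen cen' g W₂ : ℝ} {p : ℕ → ℝ} {lo hi B₁ B₂ yl yr yp XX : ℤ} {l r F : ℤ → ℝ} {ω : Env},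
      Cfg12 s (sl μ s) (EE μ s T') (wd μ s T') T M h p ι Ke δ ω₁' lo hi cen B₁ B₂ yl yr l r XX → (∀ z, 0 ≤ F z) →
      ω₁' * wd μ s T' ≤ W₂ → W₂ ≤ ω₂ * wd μ s T' →
      (∀ x ∈ win (Icc lo hi) cen (ω₁' * wd μ s T'), Real.exp (-(b₁ * EE μ s T')) ≤ wt ω i x ∧ wt ω i x ≤ Real.exp (b₁ * EE μ s T')) →
      (∀ x ∈ win (Icc lo hi) cen W₂, Real.exp (-(b₂ * EE μ s T')) ≤ wt ω i x ∧ wt ω i x ≤ Real.exp (b₂ * EE μ s T')) →
      2 * (kst * EE μ s T' - 2) ≤ g →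
      DW31 (Icc lo hi) cen cen' (ω₁ * wd μ s T') (ω₁' * wd μ s T') W₂
        (kap31 P c₁ c₃ Qk S (EE μ s T') (wd μ s T') cen cen' Nn) yl yr yp g (q₁ * EE μ s T') (q₂ * EE μ s T') (gf * EE μ s T')
        (fw (wt ω) p l i) (fw (wt ω) p r i) F →
      ∃ E₁ : Set Env, MeasurableSet E₁ ∧ On20 (rows (i : ℤ) ((i : ℤ) + T)) E₁ ∧ p₁ ≤ (law μ).real E₁ ∧
        ∀ η ∈ E₁, ∀ ζ : Env, (∀ a ∈ rows (i : ℤ) ((i : ℤ) + T), ζ a = η a) → (∀ a : Pt, a.1 ≤ i → ζ a = ω a) →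
        ∀ {h' : ℤ} {n₂ n₃ : ℕ} {ℓ₂ : ℤ → ℝ} {kp K5 : ℤ → ℤ → ℝ} {S₂ : Finset ℤ} {G ph : ℤ → ℝ} {mp : ℤ} {bθ Q₂ Q₃ s₂ s₃ : ℝ},
          (∀ y : ℤ, |(y : ℝ) - (cen + sl μ s * (T + 1))| ≤ (Ke + 2) * wd μ s T' → y ∈ Icc lo h') →
          Rest12 P cc c₁ c₂ c₃ c₄ (EE μ s T') (wd μ s T') Qk S lo hi h' cen (cen + sl μ s * (T + 1)) cen' T Nn n₂ n₃ (wt ζ i) ℓ₂ kp K5
            S₂ F G ph mp yp bθ Q₁ Q₂ Q₃ s₂ s₃ k₅ (Icc (B₁ - r₀) (B₁ + r₀ + 1) ∪ Icc (B₂ - r₀) (B₂ + r₀ + 1)) →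
          Sh21.SeamIn lo h' (fw (wt ζ) p l (i + T + 1)) (fw (wt ζ) p r (i + T + 1)) (B₁ - r₀) (B₁ + r₀ + 1) (B₂ - r₀) (B₂ + r₀ + 1) ph
            (Real.exp (-(v * EE μ s T'))) (Real.exp (-(g₁ * EE μ s T'))) := by
  obtain ⟨P₀, HP⟩ := freA20 h0 hB
  refine ⟨P₀, fun {c₂ ω₁ ω₁' q₁ b₁ kst g₁ Ke δ δr} hc₂ hω₁ hω₁' hq₁ hb₁ hg₁0 hg₁ hKe hδ hδr => ?_⟩
  have hBR : (1 : ℝ) ≤ B := by exact_mod_cast hB
  obtain ⟨τ, hτ⟩ : ∃ τ : ℝ, τ = (kst - g₁) / 24 := ⟨_, rfl⟩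
  have hτ0 : 0 < τ := by rw [hτ]; linarith
  obtain ⟨Ns, hNs1, hNs⟩ : ∃ Ns : ℕ, 1 ≤ Ns ∧ (q₁ + 2 * b₁) / τ ≤ Ns :=
    ⟨⌈(q₁ + 2 * b₁) / τ⌉₊ + 1, by omega, by push_cast; linarith [Nat.le_ceil ((q₁ + 2 * b₁) / τ)]⟩
  have hNsR : (1 : ℝ) ≤ Ns := by exact_mod_cast hNs1
  rw [div_le_iff₀ hτ0] at hNs
  obtain ⟨δ₀, hδ₀0, hδ₀1, hδ₀2⟩ : ∃ δ₀ : ℝ, 0 < δ₀ ∧ δ₀ ≤ δ ∧ δ₀ ≤ (ω₁' - ω₁) / 4 :=
    ⟨min δ ((ω₁' - ω₁) / 4), lt_min hδ (by linarith), min_le_left _ _, min_le_right _ _⟩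
  obtain ⟨δ', hδ'0, hδ'1, hδ'2, hδ'3, hδ'4⟩ : ∃ δ' : ℝ, 0 < δ' ∧ δ' ≤ δr ∧ δ' ≤ δ₀ / 4 ∧ δ' ≤ (ω₁' - ω₁) / (4 * Ns) ∧ δ' ≤ 1 / 2 := by
    refine ⟨min (min δr (δ₀ / 4)) (min ((ω₁' - ω₁) / (4 * Ns)) (1 / 2)), ?_, (min_le_left _ _).trans (min_le_left _ _),
      (min_le_left _ _).trans (min_le_right _ _), (min_le_right _ _).trans (min_le_left _ _), (min_le_right _ _).trans (min_le_right _ _)⟩
    have : 0 < (ω₁' - ω₁) / (4 * Ns) := div_pos (by linarith) (by positivity)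
    exact lt_min (lt_min hδr (by positivity)) (lt_min this (by norm_num))
  rw [le_div_iff₀ (by positivity)] at hδ'3
  obtain ⟨K₁, hK₁⟩ : ∃ K₁ : ℝ, K₁ = max (ω₁' + 1) (Ke + 2) := ⟨_, rfl⟩
  have hK₁a : ω₁' + 1 ≤ K₁ := by rw [hK₁]; exact le_max_left _ _
  have hK₁b : Ke + 2 ≤ K₁ := by rw [hK₁]; exact le_max_right _ _
  obtain ⟨κ, q, hκ, hq, HK⟩ := HP K₁ δ₀ τ δ' (q₁ + 2 * b₁) 0 (by linarith) hδ₀0 hτ0 hδ'0 (by positivity)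
  obtain ⟨Q₁, nE, hQ₁, hnE, HE⟩ := enA12 h0 P₀ hB hc₂ hq (Real.exp_pos (s + 1)).le
  refine ⟨Q₁, hQ₁, fun {P cc c₁ c₃ c₄ Qk S k₅ v gf ω₂ q₂ b₂} hP hcc hc₁ hc₄ hQk hω₂0 hgf1 hgf2 => ?_⟩
  obtain ⟨Λ, hΛ⟩ : ∃ Λ : ℝ, Λ = Lm12 P c₁ c₄ Qk S k₅ v ω₂ q₂ b₂ Ke τ := ⟨_, rfl⟩
  have hΛ1 : ω₂ + (Ke + 2) ≤ Λ := by rw [hΛ]; exact Lm12_ge
  obtain ⟨Gw, hGw⟩ : ∃ Gw : ℝ, Gw = Gw12 P c₁ Qk S k₅ v q₂ b₂ Λ τ g₁ := ⟨_, rfl⟩
  have hGw0 : 0 ≤ Gw := by rw [hGw]; exact le_max_left _ _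
  obtain ⟨K, hK⟩ : ∃ K : ℝ, K = K₁ + ω₂ + 2 := ⟨_, rfl⟩
  obtain ⟨U, hU, HG⟩ := HK K (by rw [hK]; linarith)
  obtain ⟨p₁, Q, nA, hp₁, hQ, hnA, HA⟩ := HG Gw hGw0
  obtain ⟨Dc, hDc, nD, hnD, HD⟩ := cm_nk12 h0 P₀ (q := q) (R := 2 * B * K) (G := B * (Gw + 1)) hq
    (by rw [hK]; have : 0 ≤ K₁ + ω₂ + 2 := by linarith
        positivity) (by positivity)
  obtain ⟨nT, hnT, HT⟩ := thr12 h0 (2 * Λ) hτ0
  obtain ⟨nX, HX⟩ := eventually_atTop.1 (h0.tE.eventually_ge_atTop ((1 + Real.exp (s + 1)) / τ))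
  obtain ⟨nW, HW⟩ := eventually_atTop.1 ((wd_tendsto h0).eventually_ge_atTop (2 + 4 / δ₀))
  refine ⟨p₁, min (c / (8 * B ^ 2)) (τ / (2 * B * Dc)), Q, max (max nA nD) (max (max nE nT) (max nX nW)), hp₁,
    lt_min (by have := h0.c0; positivity) (by positivity), hQ, hnA.trans ((le_max_left _ _).trans (le_max_left _ _)), ?_⟩
  intro T T' hT hT' hQT hTT hTT'
  have gA : nA ≤ T := ((le_max_left _ _).trans (le_max_left _ _)).trans hT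
  have gD : nD ≤ T := ((le_max_right _ _).trans (le_max_left _ _)).trans hT
  have gE : nE ≤ T := ((le_max_left _ _).trans ((le_max_left _ _).trans (le_max_right _ _))).trans hT
  have gE' : nE ≤ T' := ((le_max_left _ _).trans ((le_max_left _ _).trans (le_max_right _ _))).trans hT'
  have gT : nT ≤ T' := ((le_max_right _ _).trans ((le_max_left _ _).trans (le_max_right _ _))).trans hT'
  have gX : nX ≤ T' := ((le_max_left _ _).trans ((le_max_right _ _).trans (le_max_right _ _))).trans hT'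
  have gW : nW ≤ T' := ((le_max_right _ _).trans ((le_max_right _ _).trans (le_max_right _ _))).trans hT'
  obtain ⟨rr, hr1, hr2, HR⟩ := HA T T' gA hQT hTT hTT'
  have hT1 : 1 ≤ T := hnA.trans gA
  have hT'1 : 1 ≤ T' := hnE.trans gE'
  obtain ⟨E, eE⟩ : ∃ E : ℝ, E = EE μ s T' := ⟨_, rfl⟩
  obtain ⟨w, ew⟩ : ∃ w : ℝ, w = wd μ s T' := ⟨_, rfl⟩
  have tX := HX T' gX
  have tW := HW T' gW
  have tT := HT T' gT
  rw [← eE] at tX tT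
  rw [← ew] at tW tT hr1 hr2
  rw [div_le_iff₀ hτ0] at tX
  have hE1 : 1 ≤ E := by rw [eE]; exact one_le_EE T'
  have hE0 : 0 < E := by linarith
  have hw2 : 2 ≤ w := by
    have : 0 < 4 / δ₀ := by positivity
    linarith
  have hw0 : 0 < w := by linarith
  have hδw : 4 < δ₀ * w := by
    have h1 : δ₀ * (2 + 4 / δ₀) ≤ δ₀ * w := mul_le_mul_of_nonneg_left tW hδ₀0.le
    have h2 : δ₀ * (2 + 4 / δ₀) = 2 * δ₀ + 4 := by field_simp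
    linarith
  have hδδ : δ₀ * w ≤ δ * w := mul_le_mul_of_nonneg_right hδ₀1 hw0.le
  obtain ⟨kk, hkk1, hkk2⟩ : ∃ kk : ℕ, δ₀ * w ≤ kk ∧ (kk : ℝ) ≤ δ₀ * w + 1 :=
    ⟨⌈δ₀ * w⌉₊, Nat.le_ceil _, (Nat.ceil_lt_add_one (by positivity)).le⟩
  have heX := Real.exp_pos (s + 1)
  have hτE : 1 ≤ τ * E := by linarith
  have hν : 2 ≤ Real.exp (τ * E) := by
    have := Real.add_one_le_exp (τ * E)
    linarith
  have u1 : w ≤ 2 * B * wd μ s T := by rw [ew]; exact wd_unit20 h0 hT1 hT'1 hTT'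
  have u2 : wd μ s T ≤ 2 * B * w := by rw [ew]; exact wd_unit20 h0 hT'1 hT1 hTT
  have u3 : E ≤ B * EE μ s T := by rw [eE]; exact EE_unit20 h0 hB hTT'
  rw [← eE, ← ew] at HR ⊢
  have hrr0 : 0 ≤ rr := le_trans (by positivity) hr1
  obtain ⟨r₀, hr₀⟩ : ∃ r₀ : ℕ, r₀ = ⌊rr⌋₊ := ⟨_, rfl⟩
  have fl1 : (r₀ : ℝ) ≤ rr := by rw [hr₀]; exact Nat.floor_le hrr0
  have fl2 : rr < r₀ + 1 := by rw [hr₀]; exact Nat.lt_floor_add_one rr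
  have rw1 : δ' * w ≤ w / 2 := by
    have := mul_le_mul_of_nonneg_right hδ'4 hw0.le
    linarith
  have rw2 : 2 * (δ' * w) ≤ δ₀ * w / 2 := by
    have := mul_le_mul_of_nonneg_right hδ'2 hw0.le
    linarith
  refine ⟨r₀, fl1.trans (hr2.trans (mul_le_mul_of_nonneg_right hδ'1 hw0.le)), ?_⟩
  intro M i Nn h cen cen' g W₂ p lo hi B₁ B₂ yl yr yp XX l r F ω cf hF hW1 hW2 θ₁ θ₂ hg D
  obtain ⟨hv1, hv2⟩ := sl_mem h0.em h0.nd s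
  have hpk : ∀ k, 0 < p k := fun k => by
    by_cases hk : k < M
    · rw [cf.hp k hk]; exact Real.exp_pos _
    · rw [cf.hp' k (not_lt.1 hk)]; exact Real.exp_pos _
  have hppb : p (i + T) ≤ Real.exp (s + 1) := by
    have hh := (abs_le.1 cf.h1).2
    by_cases hk : i + T < M
    · rw [cf.hp _ hk]; exact Real.exp_le_exp.2 (by linarith)
    · rw [cf.hp' _ (not_lt.1 hk)]; exact Real.exp_le_exp.2 (by linarith)
  -- the starts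
  obtain ⟨A₁, A₂, u, t₂, St⟩ := starts12F (ε := τ * E) (Ns := Ns) (d := r₀) (k := kk) hpk cf.G D cf.box θ₁ hNs1 (by
    have h1 : (r₀ : ℝ) ≤ δ' * w := fl1.trans hr2
    have h2 : 2 * (Ns : ℝ) * r₀ ≤ 2 * Ns * (δ' * w) := mul_le_mul_of_nonneg_left h1 (by positivity)
    have h3 := mul_le_mul_of_nonneg_right hδ'3 hw0.le
    have h4 := mul_le_mul_of_nonneg_right hδ₀2 hw0.le
    linarith) (by
    have h1 := mul_le_mul_of_nonneg_right hNs hE0.le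
    linarith)
  obtain ⟨c₀, hc₀⟩ : ∃ c₀ : ℤ, c₀ = ⌊cen⌋ := ⟨_, rfl⟩
  have f1 : (c₀ : ℝ) ≤ cen := by rw [hc₀]; exact Int.floor_le cen
  have f2 : cen < c₀ + 1 := by rw [hc₀]; exact Int.lt_floor_add_one cen
  have f3 : |cen - c₀| ≤ 1 := by rw [abs_le]; constructor <;> linarith
  have start : ∀ A : ℤ, |(A : ℝ) - cen| + r₀ ≤ ω₁' * w → |((A - c₀ : ℤ) : ℝ)| ≤ K₁ * w := fun A hA => by
    have h1 := abs_sub_le (A : ℝ) cen c₀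
    have h2 : (0 : ℝ) ≤ r₀ := Nat.cast_nonneg _
    have h3 := mul_le_mul_of_nonneg_right hK₁a hw0.le
    push_cast
    linarith
  have ends : ∀ b : ℤ, |(b : ℝ) - (cen + sl μ s * (T + 1))| ≤ Ke * w → |((b - c₀ : ℤ) : ℝ) - sl μ s * T| ≤ K₁ * w := fun b hb => by
    have h1 : ((b - c₀ : ℤ) : ℝ) - sl μ s * T = (b - (cen + sl μ s * (T + 1))) + (cen - c₀ + sl μ s) := by
      push_cast
      ring
    have h2 := abs_add_le ((b : ℝ) - (cen + sl μ s * (T + 1))) (cen - c₀ + sl μ s)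
    have h3 : |cen - c₀ + sl μ s| ≤ 2 := by rw [abs_le]; constructor <;> linarith
    have h4 := mul_le_mul_of_nonneg_right hK₁b hw0.le
    rw [h1]
    linarith
  obtain ⟨a, ha⟩ : ∃ a : Bool → ℤ, a = fun j => bif j then A₁ - c₀ else A₂ - c₀ := ⟨_, rfl⟩
  obtain ⟨e, he⟩ : ∃ e : Bool → ℤ, e = fun j => bif j then B₁ - c₀ else B₂ - c₀ := ⟨_, rfl⟩
  have a1 : a true = A₁ - c₀ := by rw [ha]; rfl
  have a2 : a false = A₂ - c₀ := by rw [ha]; rfl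
  have e1 : e true = B₁ - c₀ := by rw [he]; rfl
  have e2 : e false = B₂ - c₀ := by rw [he]; rfl
  have haK : ∀ j, |(a j : ℝ)| ≤ K₁ * w := fun j => by
    cases j
    · rw [a2]; exact start A₂ St.b2
    · rw [a1]; exact start A₁ St.b1
  have heK : ∀ j, |(e j : ℝ) - sl μ s * T| ≤ K₁ * w := fun j => by
    cases j
    · rw [e2]; exact ends B₂ cf.e2
    · rw [e1]; exact ends B₁ cf.e1
  have hsep : ((a true : ℝ) + δ₀ * w ≤ a false ∧ (e true : ℝ) + δ₀ * w ≤ e false) := by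
    rw [a1, a2, e1, e2]
    have h1 : (A₁ : ℝ) + kk ≤ yl := by exact_mod_cast St.a1
    have h2 : (yr : ℝ) + kk ≤ A₂ := by exact_mod_cast St.a2
    have h3 : (yl : ℝ) ≤ yr + 1 := by exact_mod_cast cf.sy
    have h4 := cf.sB
    push_cast
    constructor <;> linarith
  have ht : |(u - t₂) / 2| ≤ (q₁ + 2 * b₁) * E := by
    have := St.t
    linarith
  refine ⟨at20 ((i : ℤ), c₀) (EA20 μ s c a e T (K * w) rr (0 * E) (Gw * E) (U * E) (τ * E) ((u - t₂) / 2) P₀ q), 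
    meas_at_EA20 _ _ _ _ _ _ _ _ _ _ _ _ _, on_at_EA20 a e T (K * w) rr (0 * E) (Gw * E) (U * E) (τ * E) ((u - t₂) / 2) P₀ q ((i : ℤ), c₀),
    ?_, ?_⟩
  · have h1 := HR a e haK heK (Or.inl hsep) ((u - t₂) / 2) ht ((i : ℤ), c₀) Set.univ (Set.subset_univ _) (fun _ => 0)
    have h2 : ∀ η : Env, gl Set.univ η (fun _ => 0) = η := fun η => funext fun p => if_pos (Set.mem_univ p)
    simp only [h2] at h1
    exact h1
  intro η hη ζ hζ1 hζ2 h' n₂ n₃ ℓ₂ kp K5 S₂ G ph mp bθ Q₂ Q₃ s₂ s₃ hbS hR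
  have hζ : ζ ∈ at20 ((i : ℤ), c₀) (EA20 μ s c a e T (K * w) rr (0 * E) (Gw * E) (U * E) (τ * E) ((u - t₂) / 2) P₀ q) :=
    (on_at_EA20 a e T (K * w) rr (0 * E) (Gw * E) (U * E) (τ * E) ((u - t₂) / 2) P₀ q ((i : ℤ), c₀) ζ η hζ1).2 hη
  have tc := tc_EA20 hζ
  have fu := fu_EA20 hζ
  rw [zero_mul] at tc
  have hwe := wt_env12 hζ2
  have hl := fw_env12 (p := p) (l := l) hζ2
  have hr := fw_env12 (p := p) (l := r) hζ2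
  rw [← hl, ← hr] at D
  rw [← hl, ← hr, ← hwe] at St
  rw [← hwe] at θ₁ θ₂
  -- the force
  have hc0 := h0.c0
  have hwT0 := h0.wd_nonneg T
  have hι1 : |h| * w ≤ c / (8 * B ^ 2) * E := cf.hι.trans (mul_le_mul_of_nonneg_right (min_le_left _ _) hE0.le)
  have hι2 : |h| * w ≤ τ / (2 * B * Dc) * E := cf.hι.trans (mul_le_mul_of_nonneg_right (min_le_right _ _) hE0.le)
  have hh : |h| * wd μ s T ≤ c / 4 * EE μ s T := by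
    calc |h| * wd μ s T ≤ |h| * (2 * B * w) := mul_le_mul_of_nonneg_left u2 (abs_nonneg _)
      _ = 2 * B * (|h| * w) := by ring
      _ ≤ 2 * B * (c / (8 * B ^ 2) * E) := mul_le_mul_of_nonneg_left hι1 (by positivity)
      _ ≤ 2 * B * (c / (8 * B ^ 2) * (B * EE μ s T)) :=
          mul_le_mul_of_nonneg_left (mul_le_mul_of_nonneg_left u3 (by positivity)) (by positivity)
      _ = c / 4 * EE μ s T := by
          field_simp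
          ring
  have hΦ : |h| * (Dc * wd μ s T) ≤ τ * E := by
    calc |h| * (Dc * wd μ s T) ≤ |h| * (Dc * (2 * B * w)) :=
          mul_le_mul_of_nonneg_left (mul_le_mul_of_nonneg_left u2 hDc.le) (abs_nonneg _)
      _ = 2 * B * Dc * (|h| * w) := by ring
      _ ≤ 2 * B * Dc * (τ / (2 * B * Dc) * E) := mul_le_mul_of_nonneg_left hι2 (by positivity)
      _ = τ * E := by field_simp
  have cm := HD (η := ζ) (b := ((i : ℤ), c₀)) (N := T) (n := T) (i := i) (c₀ := c₀) (ω := K * w) gD le_rfl fu hh cf.hp cf.hp' le_rfl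
    (by push_cast; exact le_rfl) (fun x hx => by
      have e : U16.lat16 μ s ((i : ℤ), c₀) ((i : ℤ), x) = (x : ℝ) - c₀ := by
        unfold U16.lat16
        push_cast
        ring
      rw [e]
      refine hx.trans ?_
      have h2 : K * w ≤ K * (2 * B * wd μ s T) := mul_le_mul_of_nonneg_left u1 (by rw [hK]; linarith)
      linarith)
  have cm' := cm.mono (nk_nonneg hpk i T) (Real.exp_le_exp.2 hΦ) (ε' := Real.exp (-((Gw + 1) * E))) (Real.exp_le_exp.2 (by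
    have h2 := mul_le_mul_of_nonneg_left u3 (show 0 ≤ Gw + 1 by linarith)
    linarith))
  have en := HE (h := h) (cen := cen) (c₀ := c₀) (η := ζ) (p := p) (M := M) (i := i) gE gE' hTT hTT' f3 fu hh cf.hp cf.hp' hppb
    (Icc lo hi) (Icc lo h')
  rw [← eE, ← ew] at en
  rw [hGw, hΛ] at tc cm'
  rw [hΛ] at tT
  exact endF12 (K := K) cf rfl hF D St hE1 hw2 (hδw.trans_le hδδ) hτ hg₁0 hg₁ hτE (by linarith) (by linarith) hpk fl1 fl2 (hr2.trans rw1)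
    (by linarith) f3 a1 a2 e1 e2 (fun j => by
      have h1 := haK j
      rw [hK]
      have h2 : 0 ≤ ω₂ * w := by positivity
      linarith) (by rw [hK]; linarith) hω₁'.le hW1 hW2 hω₂0 hKe hc₁ hc₄ hQk hgf1 hgf2 hg θ₁ θ₂ tc cm'
    (weak12 en hE0.le hw0.le hP hcc le_rfl) hbS hR

end

end Pool.Agent.W_7d29a1_C1.S12
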