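import Pool.Agent.W_7d29a1_C1.FrbF26
import Pool.Agent.W_7d29a1_C1.RowW83

/-!
MP_7d29a1_pr, [C1] **THE BUFFER FILE OF THE FRESH BALL** (helper26): `freB26`, every base point `b`, absolute columns, read at every place
`z` : `sh z η ∈ SA` gives the facts of `η` at the base `b + z`.

Rows: `M o F` = `b.1 .. b.1 + nM + T`, `B` = `.. b.1 + nM + T + nB`; `nM = Q j2 k`, `T = Q j1 j2 k`, `nB = Q j1 k`. Units `E = EE T`,
`w = wd T`. Order: `eps | ell | th' K0 del rD dd be g L Kw u0 | th K Kx hB ellw Kc Q1 Qe Qw c' Pe Pw j1 j2 | G' | p Q k₁`.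
-/

set_option autoImplicit false

namespace Pool.Agent.W_7d29a1_C1.B26

open MeasureTheory ProbabilityTheory Filter Topology Finset
open Pool.Agent.W_7d29a1_F Pool.Agent.W_7d29a1_h4g Pool.Agent.W_7d29a1_H Pool.Agent.W_7d29a1_HS
open Pool.Agent.W_7d29a1_C1
open Pool.Agent.W_7d29a1_C1.Basin76
open Pool.Agent.W_7d29a1_C1.S83 (RowG meas_RowG rowG83)

noncomputable section

variable {μ : Measure ℝ} {s c C : ℝ} {n₀ : ℕ}

/-- A point seen from the base: the shift by `b` and then by `z` is the shift by `b + z`. -/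
theorem sh_sh26 (b z : Pt) (η : Env) : sh b (sh z η) = sh (b + z) η := by
  funext p
  show η (p + b + z) = η (p + (b + z))
  rw [add_assoc]

/-- The weights of a row of the shifted environment. -/
theorem RowG_sh26 (z : Pt) (η : Env) (r x : ℤ) (R t : ℝ) : sh z η ∈ RowG r x R t ↔ η ∈ RowG (r + z.1) (x + z.2) R t := by
  constructor
  · intro h y
    have h1 := h (y - z.2)
    have e1 : sh z η (r, y - z.2) = η (r + z.1, y) := by
      show η ((r, y - z.2) + z) = _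
      have : ((r, y - z.2) : Pt) + z = (r + z.1, y) := by
        refine Prod.ext rfl ?_
        show y - z.2 + z.2 = y
        ring
      rw [this]
    rw [e1] at h1
    have e2 : y - z.2 - x = y - (x + z.2) := by ring
    rw [e2] at h1
    exact h1
  · intro h y
    have h1 := h (y + z.2)
    have e1 : sh z η (r, y) = η (r + z.1, y + z.2) := rfl
    have e2 : y + z.2 - (x + z.2) = y - x := by ring
    rw [e2] at h1
    rw [e1]
    exact h1

/-- The event of one row. -/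
theorem on_RowG26 (r x : ℤ) (R t : ℝ) {lo hi : ℤ} (h1 : lo < r) (h2 : r ≤ hi) : OnR26 (rows lo hi) (RowG r x R t) := by
  intro η η' hh
  have e : ∀ y : ℤ, η (r, y) = η' (r, y) := fun y => hh (r, y) ⟨h1, h2⟩
  constructor
  · intro h y
    rw [← e y]
    exact h y
  · intro h y
    rw [e y]
    exact h y

/-- **THE BUFFER FILE OF THE FRESH BALL.** -/
theorem freB26 [IsProbabilityMeasure μ] (h : In μ s c C n₀) (hR : RkP26 μ s) (hT : TslP26 μ s c) {eps : ℝ} (heps : 0 < eps) :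
    ∃ ell : ℝ, 0 ≤ ell ∧ ∀ th' K0 del rD dd be g L Kw u0 : ℝ, 0 < th' → 0 ≤ K0 → 0 < del → 0 < rD → 0 < dd → 0 ≤ be → be ≤ c / 8 →
      0 ≤ g → 0 ≤ L → 0 ≤ Kw → 0 < u0 →
    ∃ (th K Kx hB ellw Kc Q1 Qe Qw c' : ℝ) (Pe Pw j1 j2 : ℕ), 0 < th ∧ th ≤ rD ∧ th ≤ del / 8 ∧ 0 ≤ Kx ∧ Kx + 1 ≤ K ∧ Kw ≤ K ∧
      be ≤ hB ∧ 1 ≤ hB ∧ 0 ≤ ellw ∧ 0 < Kc ∧ 0 ≤ Q1 ∧ 0 ≤ Qe ∧ 0 ≤ Qw ∧ 0 < c' ∧ 1 ≤ j1 ∧ 1 ≤ j2 ∧ 1 ≤ th' * j2 ∧
    ∀ G' : ℝ, 0 ≤ G' → ∃ (p : ℝ) (Q k₁ : ℕ), 0 < p ∧ 1 ≤ Q ∧ 1 ≤ k₁ ∧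
    ∀ k : ℕ, k₁ ≤ k → ∀ nM T nB : ℕ, nM = Q * j2 * k → T = Q * (j1 * j2) * k → nB = Q * j1 * k →
    ∃ r : ℝ, 0 ≤ r ∧ r ≤ th * wd μ s T ∧ 1 ≤ th * wd μ s T ∧
    ∀ (b : Pt) (u t : Bool → ℤ), (∀ i, |((u i - b.2 : ℤ) : ℝ)| ≤ K0 * wd μ s T) →
      (∀ i, |((t i - b.2 : ℤ) : ℝ) - sl μ s * (nM + T : ℕ)| ≤ K0 * wd μ s T) →
      (u false : ℝ) + del * wd μ s T ≤ u true → (t false : ℝ) + del * wd μ s T ≤ t true →
    ∃ SA SB : Set Env, MeasurableSet SA ∧ MeasurableSet SB ∧ OnR26 (rows (b.1 - 1) (b.1 + nM + T)) SA ∧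
      OnR26 (rows (b.1 + nM + T) (b.1 + nM + T + nB)) SB ∧ p ≤ (law μ).real SA ∧ (law μ).real SBᶜ ≤ eps ∧
      ∀ (z : Pt) (η : Env), sh z η ∈ SA →
        η ∈ RowG (b.1 + z.1) (b.2 + z.2) (wd μ s T) (u0 * EE μ s T) ∧
        η ∈ RowG (b.1 + z.1 + nM + T) (cp26 (sl μ s) (b.2 + z.2) (nM + T)) (wd μ s T) (u0 * EE μ s T) ∧
        ∃ A : ℝ,
        MO26 (kW μ s η (b.1 + z.1) (nM + T)) (fun x => lt26 (sl μ s) (wd μ s T) 0 (x - (b.2 + z.2)))
          (fun x => lt26 (sl μ s) (wd μ s T) (nM + T) (x - (b.2 + z.2))) (EE μ s T) (fun i => u i + z.2) (fun i => t i + z.2)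
          (th * wd μ s T) r L Q1 A (ell + 2 * dd) g G' be Pe Qe (3 * c / 4) ∧
        (sh z η ∈ SB → BO26 (kW μ s η (b.1 + z.1) (nM + (T + nB))) (fun x => lt26 (sl μ s) (wd μ s T) 0 (x - (b.2 + z.2)))
          (fun x => lt26 (sl μ s) (wd μ s T) (nM + T + nB) (x - (b.2 + z.2))) (EE μ s T) (fun i => u i + z.2)
          (fun i => lt26 (sl μ s) (wd μ s T) (nM + T) (t i - b.2)) (th * wd μ s T) K Kx del A (Real.exp (-((T : ℕ) : ℝ) ^ c'))
          (ell + 2 * dd) ellw Kc be g G' hB Pw Qw (c / 2)) := by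
  obtain ⟨ell, hell, H⟩ := fre026 h hR hT heps
  refine ⟨ell, hell, fun th' K0 del rD dd be g L Kw u0 hth' hK0 hdel hrD hdd hbe hbe8 hg hL hKw hu0 => ?_⟩
  obtain ⟨th, K, Kx, hB, ellw, Kc, Q1, Qe, Qw, c', Pe, Pw, j1, j2, f1, f2, f3, f4, f5, f6, f7, f8, f9, f10, f11, f12, f13, f14, f15, f16,
    f17, H⟩ := H th' K0 del rD dd be g L Kw hth' hK0 hdel hrD hdd hbe hbe8 hg hL hKw
  refine ⟨th, K, Kx, hB, ellw, Kc, Q1, Qe, Qw, c', Pe, Pw, j1, j2, f1, f2, f3, f4, f5, f6, f7, f8, f9, f10, f11, f12, f13, f14, f15, f16,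
    f17, fun G' hG' => ?_⟩
  obtain ⟨p, Q, k₁, hp, hQ, hk₁, H⟩ := H G' hG'
  obtain ⟨nr, hnr1, hnr⟩ := rowG83 h hu0 1
  obtain ⟨nE, hnE⟩ := eventually_atTop.1 (h.tE.eventually_ge_atTop (Real.log (4 / p)))
  obtain ⟨N1, hN1⟩ := th26 h f1 1
  refine ⟨p / 2, Q, k₁ + nr + nE + N1, by positivity, hQ, by omega, fun k hk nM T nB hnM hTT hnB => ?_⟩
  obtain ⟨r, r0, r1, r2, H⟩ := H k (by omega) nM T nB hnM hTT hnB
  refine ⟨r, r0, r1, r2, fun b u t hu ht hsep hset => ?_⟩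
  have hkT : k ≤ T := by
    rw [hTT]
    exact Nat.le_mul_of_pos_left k (Nat.mul_pos hQ (Nat.mul_pos f15 f16))
  have thT := hN1 T (by omega)
  have hwT2 := thT.w2
  have hwT := thT.KT
  rw [one_mul] at hwT
  obtain ⟨u0', hu0'⟩ : ∃ f : Bool → ℤ, f = fun i => u i - b.2 := ⟨_, rfl⟩
  obtain ⟨t0', ht0'⟩ : ∃ f : Bool → ℤ, f = fun i => t i - b.2 := ⟨_, rfl⟩
  obtain ⟨SA0, SB0, a1, a2, a3, a4, a5, a6, a7⟩ := H u0' t0' (fun i => by rw [hu0']; exact hu i) (fun i => by rw [ht0']; exact ht i) (by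
    rw [hu0']
    push_cast
    linarith) (by
    rw [ht0']
    push_cast
    linarith)
  -- the two rows
  obtain ⟨R1, hR1⟩ : ∃ E : Set Env, E = RowG b.1 b.2 (wd μ s T) (u0 * EE μ s T) := ⟨_, rfl⟩
  obtain ⟨R2, hR2⟩ : ∃ E : Set Env, E = RowG (b.1 + nM + T) (cp26 (sl μ s) b.2 (nM + T)) (wd μ s T) (u0 * EE μ s T) := ⟨_, rfl⟩
  have mR1 : MeasurableSet R1 := by rw [hR1]; exact meas_RowG _ _ _ _
  have mR2 : MeasurableSet R2 := by rw [hR2]; exact meas_RowG _ _ _ _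
  have hex : Real.exp (-(1 * EE μ s T)) ≤ p / 4 := by
    have h1 : Real.log (4 / p) ≤ EE μ s T := hnE T (by omega)
    have h2 := Real.exp_le_exp.2 (neg_le_neg h1)
    have e0 : Real.exp (-Real.log (4 / p)) = p / 4 := by
      rw [Real.exp_neg, Real.exp_log (by positivity), inv_div]
    rw [e0] at h2
    rw [one_mul]
    exact h2
  have pR1 : (law μ).real R1ᶜ ≤ p / 4 := by
    rw [hR1]
    exact (hnr T (by omega) _ _ _ (by linarith) hwT).trans hex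
  have pR2 : (law μ).real R2ᶜ ≤ p / 4 := by
    rw [hR2]
    exact (hnr T (by omega) _ _ _ (by linarith) hwT).trans hex
  have mA0 := meas_atR26 b a1
  have pA0 : p ≤ (law μ).real (atR26 b SA0) := by rw [real_atR26 (μ := μ) b a1]; exact a5
  refine ⟨atR26 b SA0 ∩ (R1 ∩ R2), atR26 b SB0, mA0.inter (mR1.inter mR2), meas_atR26 b a2, ?_, ?_, ?_, ?_, fun z η hη => ?_⟩
  · refine OnR26.inter ?_ (OnR26.inter ?_ ?_)
    · have h1 : OnR26 (rows b.1 (b.1 + (nM + T : ℕ))) (atR26 b SA0) := on_atR26 b (by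
        rw [zero_add]
        push_cast
        exact a3)
      refine h1.mono fun q hq => ?_
      have g1 : b.1 < q.1 := hq.1
      have g2 : q.1 ≤ b.1 + (nM + T : ℕ) := hq.2
      push_cast at g2
      exact ⟨by omega, by omega⟩
    · rw [hR1]
      exact on_RowG26 _ _ _ _ (by omega) (by omega)
    · rw [hR2]
      exact on_RowG26 _ _ _ _ (by omega) (by omega)
  · intro η η' hh
    refine a4 (sh b η) (sh b η') fun q hq => ?_
    have g1 : (nM : ℤ) + T < q.1 := hq.1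
    have g2 : q.1 ≤ (nM : ℤ) + T + nB := hq.2
    show η (q + b) = η' (q + b)
    refine hh (q + b) ⟨?_, ?_⟩
    · show b.1 + nM + T < q.1 + b.1
      linarith
    · show q.1 + b.1 ≤ b.1 + nM + T + nB
      linarith
  · have h1 : (law μ).real (atR26 b SA0 ∩ (R1 ∩ R2))ᶜ ≤ (law μ).real (atR26 b SA0)ᶜ + ((law μ).real R1ᶜ + (law μ).real R2ᶜ) := by
      rw [Set.compl_inter, Set.compl_inter]
      exact (measureReal_union_le _ _).trans (add_le_add le_rfl (measureReal_union_le _ _))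
    have h2 := probReal_add_probReal_compl (μ := law μ) (mA0.inter (mR1.inter mR2))
    have h3 := probReal_add_probReal_compl (μ := law μ) mA0
    linarith
  · have e : (atR26 b SB0)ᶜ = atR26 b SB0ᶜ := rfl
    rw [e, real_atR26 (μ := μ) b a2.compl]
    exact a6
  · obtain ⟨k0, k1, k2⟩ := hη
    have k0' : sh (b + z) η ∈ SA0 := by
      rw [← sh_sh26]
      exact k0
    rw [hR1] at k1
    rw [hR2] at k2
    have k1' := (RowG_sh26 z η _ _ _ _).1 k1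
    have k2' := (RowG_sh26 z η _ _ _ _).1 k2
    have ec : cp26 (sl μ s) b.2 (nM + T) + z.2 = cp26 (sl μ s) (b.2 + z.2) (nM + T) := by
      unfold cp26
      ring
    have er : b.1 + (nM : ℤ) + T + z.1 = b.1 + z.1 + nM + T := by ring
    rw [ec, er] at k2'
    obtain ⟨A, m1, m2⟩ := a7 _ k0'
    have eu : ∀ i, u i + z.2 = u0' i + (b.2 + z.2) := fun i => by
      rw [hu0']
      show u i + z.2 = u i - b.2 + (b.2 + z.2)
      ring
    have et : ∀ i, t i + z.2 = t0' i + (b.2 + z.2) := fun i => by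
      rw [ht0']
      show t i + z.2 = t i - b.2 + (b.2 + z.2)
      ring
    have eK : ∀ (n : ℕ) (x y : ℤ), kW μ s η (b.1 + z.1) n (x + (b.2 + z.2)) (y + (b.2 + z.2)) = kW μ s (sh (b + z) η) 0 n x y := by
      intro n x y
      rw [kW_sh, zero_add]
      rfl
    have eL : ∀ (n : ℕ) (x : ℤ), lt26 (sl μ s) (wd μ s T) n (x + (b.2 + z.2) - (b.2 + z.2)) = lt26 (sl μ s) (wd μ s T) n x := by
      intro n x
      rw [add_sub_cancel_right]
    refine ⟨k1', k2', A, m1.shift (b.2 + z.2) (eK _) (eL _) (eL _) eu et, fun hB' => ?_⟩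
    have hB2 : sh (b + z) η ∈ SB0 := by
      rw [← sh_sh26]
      exact hB'
    have m3 := (m2 hB2).shift (u' := fun i => u i + z.2) (Kr' := kW μ s η (b.1 + z.1) (nM + (T + nB)))
      (L0' := fun x => lt26 (sl μ s) (wd μ s T) 0 (x - (b.2 + z.2)))
      (L3' := fun x => lt26 (sl μ s) (wd μ s T) (nM + T + nB) (x - (b.2 + z.2))) (b.2 + z.2) (eK _) (eL _) (eL _) eu
    rw [ht0'] at m3
    exact m3

end

end Pool.Agent.W_7d29a1_C1.B26
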