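import Pool.Agent.W_7d29a1_C1.BufJ26

/-!
MP_7d29a1_pr, [C1] **THE BUFFER BEHIND THE TWO LANES, WITH SEPARATED EVENTS** (helper78; proof = helper26's `buf26`, wanted by helper47).

Three blocks of rows: M (typical, rank one on the two cells), F (two balanced lanes), B (typical).
* `MF78`, `BB78` : the facts of M F and of B (`BFct26` = both);
* `evt78` : an event `SM` of the rows of M F and an event `SB` of the rows of B;
* **`buf78`** : `SM` of probability at least `p`, `SB` of failure probability at most `eps`, the shares of M and B at most `t0`, the depth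
  `G'` of the walls and the window `ω'` of `MF78` are chosen after the levels; both events give the output `BufP26`.
-/

set_option autoImplicit false

namespace Pool.Agent.W_7d29a1_C1.B78

open MeasureTheory ProbabilityTheory Filter Topology Finset
open Pool.Agent.W_7d29a1_F Pool.Agent.W_7d29a1_h4g Pool.Agent.W_7d29a1_H Pool.Agent.W_7d29a1_HS
open Pool.Agent.W_7d29a1_C1
open Pool.Agent.W_7d29a1_C1.B26
open Pool.Agent.W_7d29a1_C1.CR76 Pool.Agent.W_7d29a1_C1.Basin76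
open Pool.Agent.W_7d29a1_C1.R26 (RK26 RK26_dep measurableSet_RK26)
open Pool.Agent.W_7d29a1_C1.H75 (hc)
open Pool.Agent.W_7d29a1_C1.U16 (fq16 fq16_one fq16_mono lat16 Far16 far_low far_prob Far16_meas Far16_rows)

noncomputable section

variable {μ : Measure ℝ} {s c C : ℝ} {n₀ : ℕ}

/-- The facts of the blocks M and F (rows `0 .. nM`, `nM .. nM + T`); the two lanes are indexed by `Bool`, start points `u`. -/
structure MF78 (μ : Measure ℝ) (s c : ℝ) (η : Env) (nM T : ℕ) (u : Bool → ℤ) (P PF : ℕ) (q qF qs ρ ωF th L G dd ε : ℝ) : Prop where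
  m0 : η ∈ UE26 μ s c nM nM P (0, 0) q
  m1 : ∀ i, η ∈ UE26 μ s c nM nM P (0, u i) q
  m2 : ∀ i (a : ℤ), |(a : ℝ) - u i| ≤ th * wd μ s T → Real.exp (-(qs * EE μ s T)) ≤ kW μ s η 0 nM a (cp26 (sl μ s) (u i) nM)
  m3 : ∀ i (a a' y y' : ℤ), |(a : ℝ) - u i| ≤ th * wd μ s T → |(a' : ℝ) - u i| ≤ th * wd μ s T →
    |(y : ℝ) - cp26 (sl μ s) (u i) nM| ≤ ρ → |(y' : ℝ) - cp26 (sl μ s) (u i) nM| ≤ ρ →
    kW μ s η 0 nM a y * kW μ s η 0 nM a' y' ≤ (1 + ε) * (kW μ s η 0 nM a y' * kW μ s η 0 nM a' y)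
  f1 : ∀ i, Real.exp (L * EE μ s T) ≤ kW μ s η nM T (cp26 (sl μ s) (u i) nM) (cp26 (sl μ s) (u i) (nM + T))
  f2 : ∀ x y : ℤ, |(x : ℝ) - cp26 (sl μ s) 0 nM| ≤ ωF →
    (∀ i, ¬ (|(x : ℝ) - cp26 (sl μ s) (u i) nM| ≤ ρ ∧ |(y : ℝ) - cp26 (sl μ s) (u i) (nM + T)| ≤ ρ)) →
    kW μ s η nM T x y ≤ Real.exp (-(G * EE μ s T))
  f3 : ∀ i (x y : ℤ), |(x : ℝ) - cp26 (sl μ s) (u i) nM| ≤ ρ → |(y : ℝ) - cp26 (sl μ s) (u i) (nM + T)| ≤ ρ →
    kW μ s η nM T x y ≤ Real.exp (dd * EE μ s T) * kW μ s η nM T (cp26 (sl μ s) (u i) nM) (cp26 (sl μ s) (u i) (nM + T))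
  f4 : |Real.log (kW μ s η nM T (cp26 (sl μ s) (u true) nM) (cp26 (sl μ s) (u true) (nM + T))) -
    Real.log (kW μ s η nM T (cp26 (sl μ s) (u false) nM) (cp26 (sl μ s) (u false) (nM + T)))| ≤ dd * EE μ s T
  f5 : η ∈ UE26 μ s c T T PF (nM, cp26 (sl μ s) 0 nM) qF

/-- The facts of the block B (rows `nM + T .. nM + T + nB`). -/
structure BB78 (μ : Measure ℝ) (s c : ℝ) (η : Env) (nM T nB : ℕ) (u : Bool → ℤ) (P : ℕ) (q qs K b Kc : ℝ) : Prop where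
  b0 : η ∈ UE26 μ s c nB nB P ((nM : ℤ) + T, cp26 (sl μ s) 0 (nM + T)) q
  b1 : ∀ i, η ∈ UE26 μ s c nB nB P ((nM : ℤ) + T, cp26 (sl μ s) (u i) (nM + T)) q
  b2 : ∀ i (x : ℤ), |lt26 (sl μ s) (wd μ s T) (nM + T + nB) x| ≤ K →
    Real.exp (-(b * EE μ s T)) ≤ kW μ s η ((nM : ℤ) + T) nB (cp26 (sl μ s) (u i) (nM + T)) x
  b3 : ∀ i (x : ℤ), |lt26 (sl μ s) (wd μ s T) (nM + T + nB) x - u i / wd μ s T| ≤ Kc →
    Real.exp (-(qs * EE μ s T)) ≤ kW μ s η ((nM : ℤ) + T) nB (cp26 (sl μ s) (u i) (nM + T)) x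

section basic

variable {η : Env} {nM T nB : ℕ} {u : Bool → ℤ} {P PF : ℕ} {q qF qs ρ ωF th L G dd ε K b Kc : ℝ}

theorem MF78.full (h : MF78 μ s c η nM T u P PF q qF qs ρ ωF th L G dd ε) (h' : BB78 μ s c η nM T nB u P q qs K b Kc) :
    BFct26 μ s c η nM T nB u P PF q qF qs ρ ωF th L G dd K b Kc ε :=
  ⟨h.m0, h.m1, h.m2, h.m3, h.f1, h.f2, h.f3, h.f4, h.f5, h'.b0, h'.b1, h'.b2, h'.b3⟩

theorem MF78.weak (h : MF78 μ s c η nM T u P PF q qF qs ρ ωF th L G dd ε) {ωF' G' ε' : ℝ} (hω : ωF' ≤ ωF) (hG : G' ≤ G) (hε : ε ≤ ε')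
    (hE : 0 ≤ EE μ s T) : MF78 μ s c η nM T u P PF q qF qs ρ ωF' th L G' dd ε' := by
  refine ⟨h.m0, h.m1, h.m2, fun i a a' y y' h1 h2 h3 h4 => (h.m3 i a a' y y' h1 h2 h3 h4).trans ?_, h.f1, fun x y hx hxy => ?_, h.f3, h.f4,
    h.f5⟩
  · exact mul_le_mul_of_nonneg_right (by linarith) (mul_nonneg (kW_nonneg _ _ _ _ _) (kW_nonneg _ _ _ _ _))
  · refine (h.f2 x y (hx.trans hω) hxy).trans (Real.exp_le_exp.2 ?_)
    have := mul_le_mul_of_nonneg_right hG hE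
    linarith

theorem BB78.mono (h : BB78 μ s c η nM T nB u P q qs K b Kc) {b' : ℝ} (hb : b ≤ b') (hE : 0 ≤ EE μ s T) :
    BB78 μ s c η nM T nB u P q qs K b' Kc := by
  refine ⟨h.b0, h.b1, fun i x hx => le_trans (Real.exp_le_exp.2 ?_) (h.b2 i x hx), h.b3⟩
  have := mul_le_mul_of_nonneg_right hb hE
  linarith

end basic

theorem evb_mono {lo hi : ℤ} {E : Set Env} {t t' : ℝ} (h : EvB26 μ lo hi E t) (ht : t ≤ t') : EvB26 μ lo hi E t' :=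
  ⟨h.1, h.2.1, h.2.2.trans ht⟩

/-- `sc26` with a multiple as large as we want. -/
theorem sc78 [IsProbabilityMeasure μ] (h : In μ s c C n₀) {M : ℝ} (hM : 0 ≤ M) (jt : ℕ) : ∃ j n₁ : ℕ, 1 ≤ j ∧ 1 ≤ n₁ ∧ (jt : ℝ) ≤ j ∧
    ∀ b m : ℕ, j ≤ b → n₁ ≤ m → Sc26 μ s M b m := by
  obtain ⟨j, n, hj, hn, hs⟩ := sc26 h hM
  refine ⟨max j jt, n, hj.trans (le_max_left _ _), hn, ?_, fun b m hb hm => hs b m ((le_max_left _ _).trans hb) hm⟩
  exact_mod_cast le_max_right j jt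

/-- **The events of the blocks M F and of the block B.** -/
theorem evt78 [IsProbabilityMeasure μ] {nM T nB P PT Pw : ℕ} {u : Bool → ℤ}
    {q qs qw qF r K0 K3 th L G dd K b Kb j2 c₁ del ε eB : ℝ}
    (hlM : ∀ (N P : ℕ) (b : Pt) (q : ℝ) (η : Env), 0 ≤ q → η ∈ Far16 μ s c 1 3 nM N P b q → ∀ (p : Pt) (j : ℕ) (y : ℤ), b.1 ≤ p.1 →
      p.1 + j ≤ b.1 + N → 1 * nM ≤ (j : ℝ) → |(y : ℝ) - sl μ s * j| ≤ (3 - 2) * wd μ s nM →
      Real.exp (-(q * fq16 P (|lat16 μ s b p| / wd μ s nM + 1) * EE μ s nM)) ≤ W μ s η p j y)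
    (hlB : ∀ (N P : ℕ) (b : Pt) (q : ℝ) (η : Env), 0 ≤ q → η ∈ Far16 μ s c 1 3 nB N P b q → ∀ (p : Pt) (j : ℕ) (y : ℤ), b.1 ≤ p.1 →
      p.1 + j ≤ b.1 + N → 1 * nB ≤ (j : ℝ) → |(y : ℝ) - sl μ s * j| ≤ (3 - 2) * wd μ s nB →
      Real.exp (-(q * fq16 P (|lat16 μ s b p| / wd μ s nB + 1) * EE μ s nB)) ≤ W μ s η p j y)
    (hlBw : ∀ (N P : ℕ) (b : Pt) (q : ℝ) (η : Env), 0 ≤ q → η ∈ Far16 μ s c 1 Kb nB N P b q → ∀ (p : Pt) (j : ℕ) (y : ℤ), b.1 ≤ p.1 →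
      p.1 + j ≤ b.1 + N → 1 * nB ≤ (j : ℝ) → |(y : ℝ) - sl μ s * j| ≤ (Kb - 2) * wd μ s nB →
      Real.exp (-(q * fq16 P (|lat16 μ s b p| / wd μ s nB + 1) * EE μ s nB)) ≤ W μ s η p j y)
    (hFM : ∀ z : ℤ, EvB26 μ 0 (0 + nM) (Far16 μ s c 1 3 nM nM P (0, z) q) (1 / 16))
    (hFB : ∀ z : ℤ, EvB26 μ ((nM : ℤ) + T) ((nM : ℤ) + T + nB) (Far16 μ s c 1 3 nB nB P ((nM : ℤ) + T, z) q) eB)
    (hFw : ∀ z : ℤ, EvB26 μ ((nM : ℤ) + T) ((nM : ℤ) + T + nB) (Far16 μ s c 1 Kb nB nB Pw ((nM : ℤ) + T, z) qw) eB)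
    (hRK : ∀ i : Bool, u i + ⌊th * wd μ s T⌋ ≤ cp26 (sl μ s) (u i) nM - ⌊th * wd μ s T⌋ ∧
      cp26 (sl μ s) (u i) nM + ⌊th * wd μ s T⌋ ≤ u i - ⌊th * wd μ s T⌋ + nM ∧
      EvB26 μ 0 (0 + nM) (RK26 μ s 0 nM (u i - ⌊th * wd μ s T⌋) (u i + ⌊th * wd μ s T⌋) (cp26 (sl μ s) (u i) nM - ⌊th * wd μ s T⌋)
        (cp26 (sl μ s) (u i) nM + ⌊th * wd μ s T⌋) ε) (1 / 16))
    (hlan : ∀ a e : Bool → ℤ, (∀ j, |(a j : ℝ)| ≤ (K0 + 1) * wd μ s T) → (∀ j, |(e j : ℝ) - sl μ s * T| ≤ (K0 + 1) * wd μ s T) →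
      (a false : ℝ) + del * wd μ s T ≤ a true → (e false : ℝ) + del * wd μ s T ≤ e true → ∃ S : Set Env, MeasurableSet S ∧
      OnR26 (rows 0 (0 + (T : ℤ))) S ∧ c₁ ≤ (law μ).real S ∧ ∀ (b : Pt) (η : Env), η ∈ atR26 b S →
        TslC26 μ s c η b T PT a e ((K3 + 1) * wd μ s T) r (L * EE μ s T) (G * EE μ s T) (dd * EE μ s T) qF)
    (hc₁ : 0 < c₁) (hq0 : 0 ≤ q) (hqw0 : 0 ≤ qw) (hqs : q * fq16 P 2 ≤ qs) (hwM2 : 2 ≤ wd μ s nM) (hwB2 : 2 ≤ wd μ s nB)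
    (hwT2 : 2 ≤ wd μ s T) (tM2 : th * wd μ s T ≤ wd μ s nM / 2) (s1E : EE μ s nM ≤ EE μ s T) (s2E : EE μ s nB ≤ EE μ s T)
    (hr2 : r ≤ th * wd μ s T) (s2w : wd μ s T ≤ 2 * j2 * wd μ s nB) (hj2R : 1 ≤ j2) (hKn : 0 ≤ K) (hK0 : 0 ≤ K0)
    (hKb : (K + K0 + 1) * (2 * j2) + 2 ≤ Kb) (hb : qw * fq16 Pw (K0 * (2 * j2) + 2) ≤ b) (hε : 0 ≤ ε)
    (hu : ∀ i, |(u i : ℝ)| ≤ K0 * wd μ s T) (hsep : (u false : ℝ) + del * wd μ s T ≤ u true) :
    ∃ SM SB : Set Env, MeasurableSet SM ∧ OnR26 (rows 0 ((nM + T : ℕ) : ℤ)) SM ∧ 1 / 2 * c₁ ≤ (law μ).real SM ∧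
      MeasurableSet SB ∧ OnR26 (rows ((nM + T : ℕ) : ℤ) ((nM + (T + nB) : ℕ) : ℤ)) SB ∧ (law μ).real SBᶜ ≤ eB + (eB + (eB + eB)) ∧
      (∀ η ∈ SM, MF78 μ s c η nM T u P PT q qF qs r ((K3 + 1) * wd μ s T) th L G dd ε) ∧
      ∀ η ∈ SB, BB78 μ s c η nM T nB u P q qs K b (1 / (4 * j2)) := by
  have hwT0 : 0 < wd μ s T := by linarith
  obtain ⟨EM, hEM⟩ : ∃ E : Set Env, E = Far16 μ s c 1 3 nM nM P (0, 0) q ∩ (Far16 μ s c 1 3 nM nM P (0, u false) q ∩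
      (Far16 μ s c 1 3 nM nM P (0, u true) q ∩
      (RK26 μ s 0 nM (u false - ⌊th * wd μ s T⌋) (u false + ⌊th * wd μ s T⌋) (cp26 (sl μ s) (u false) nM - ⌊th * wd μ s T⌋)
        (cp26 (sl μ s) (u false) nM + ⌊th * wd μ s T⌋) ε ∩
      RK26 μ s 0 nM (u true - ⌊th * wd μ s T⌋) (u true + ⌊th * wd μ s T⌋) (cp26 (sl μ s) (u true) nM - ⌊th * wd μ s T⌋)
        (cp26 (sl μ s) (u true) nM + ⌊th * wd μ s T⌋) ε))) := ⟨_, rfl⟩
  have vM : EvB26 μ 0 (0 + nM) EM (1 / 16 + (1 / 16 + (1 / 16 + (1 / 16 + 1 / 16)))) := by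
    rw [hEM]
    exact (hFM 0).inter ((hFM (u false)).inter ((hFM (u true)).inter
      ((hRK false).2.2.inter (hRK true).2.2)))
  obtain ⟨EB, hEB⟩ : ∃ E : Set Env, E = Far16 μ s c 1 3 nB nB P ((nM : ℤ) + T, cp26 (sl μ s) 0 (nM + T)) q ∩
      (Far16 μ s c 1 3 nB nB P ((nM : ℤ) + T, cp26 (sl μ s) (u false) (nM + T)) q ∩
      (Far16 μ s c 1 3 nB nB P ((nM : ℤ) + T, cp26 (sl μ s) (u true) (nM + T)) q ∩
      Far16 μ s c 1 Kb nB nB Pw ((nM : ℤ) + T, cp26 (sl μ s) 0 (nM + T)) qw)) := ⟨_, rfl⟩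
  have vB : EvB26 μ ((nM : ℤ) + T) ((nM : ℤ) + T + nB) EB (eB + (eB + (eB + eB))) := by
    rw [hEB]
    exact (hFB _).inter ((hFB _).inter ((hFB _).inter (hFw _)))
  obtain ⟨e, he⟩ : ∃ e : Bool → ℤ, e = fun i => u i + (⌊sl μ s * (nM + T : ℕ)⌋ - ⌊sl μ s * nM⌋) := ⟨_, rfl⟩
  have hD : |((⌊sl μ s * (nM + T : ℕ)⌋ - ⌊sl μ s * nM⌋ : ℤ) : ℝ) - sl μ s * T| ≤ 1 := by
    have f1 := Int.floor_le (sl μ s * (nM + T : ℕ))
    have f2 := Int.lt_floor_add_one (sl μ s * (nM + T : ℕ))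
    have f3 := Int.floor_le (sl μ s * nM)
    have f4 := Int.lt_floor_add_one (sl μ s * nM)
    push_cast at f1 f2 ⊢
    rw [abs_le]
    constructor <;> linarith
  obtain ⟨SF, mF, oF, pF, hSF⟩ := hlan u e (fun i => (hu i).trans (mul_le_mul_of_nonneg_right (by linarith) hwT0.le)) (fun i => by
      rw [he]
      have e1 : ((u i + (⌊sl μ s * (nM + T : ℕ)⌋ - ⌊sl μ s * nM⌋) : ℤ) : ℝ) - sl μ s * T =
        u i + (((⌊sl μ s * (nM + T : ℕ)⌋ - ⌊sl μ s * nM⌋ : ℤ) : ℝ) - sl μ s * T) := by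
        push_cast
        ring
      show |((u i + (⌊sl μ s * (nM + T : ℕ)⌋ - ⌊sl μ s * nM⌋) : ℤ) : ℝ) - sl μ s * T| ≤ (K0 + 1) * wd μ s T
      rw [e1]
      refine (abs_add_le _ _).trans ?_
      linarith [hu i]) hsep (by
      rw [he]
      push_cast
      linarith)
  obtain ⟨bF, hbF⟩ : ∃ b : Pt, b = ((nM : ℤ), cp26 (sl μ s) 0 nM) := ⟨_, rfl⟩
  have mF' := meas_atR26 bF mF
  have oF' := on_atR26 bF oF
  have pF' : c₁ ≤ (law μ).real (atR26 bF SF) := by rw [real_atR26 (μ := μ) bF mF]; exact pF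
  have hbF1 : bF.1 = nM := by rw [hbF]
  rw [hbF1] at oF'
  have pM := vM.real
  have vM2 := vM.2.1
  rw [zero_add] at vM2
  obtain ⟨w2o, w2m, w2p⟩ := indep26 (μ := μ) (by omega) (by omega) vM2 oF' vM.1 mF' (show (0 : ℝ) ≤ 1 / 2 by norm_num) hc₁.le
    (by linarith) pF'
  have eT : ((nM + T : ℕ) : ℤ) = (nM : ℤ) + T := by push_cast; ring
  have eTB : ((nM + (T + nB) : ℕ) : ℤ) = (nM : ℤ) + T + nB := by push_cast; ring
  refine ⟨EM ∩ atR26 bF SF, EB, w2m, ?_, w2p, vB.1, ?_, vB.2.2, fun η hη => ?_, fun η ηB => ?_⟩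
  · rw [eT]
    exact w2o
  · rw [eT, eTB]
    exact vB.2.1
  · obtain ⟨ηM, ηF⟩ := hη
    rw [hEM] at ηM
    obtain ⟨a1, a2, a3, a4, a5⟩ := ηM
    have cF := hSF bF η ηF
    rw [hbF] at cF
    have aa : ∀ i : Bool, η ∈ Far16 μ s c 1 3 nM nM P (0, u i) q := fun i => by
      cases i
      · exact a2
      · exact a3
    have rr : ∀ i : Bool, η ∈ RK26 μ s 0 nM (u i - ⌊th * wd μ s T⌋) (u i + ⌊th * wd μ s T⌋) (cp26 (sl μ s) (u i) nM - ⌊th * wd μ s T⌋)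
        (cp26 (sl μ s) (u i) nM + ⌊th * wd μ s T⌋) ε := fun i => by
      cases i
      · exact a4
      · exact a5
    have fM := fun i : Bool => fM26 (T := T) (qs := qs) (th := th) (ρ := r) hlM hq0 hqs hwM2 tM2 s1E hr2 hε i
      (aa i) (hRK i).1 (hRK i).2.1 (rr i)
    have ec : ∀ i : Bool, cp26 (sl μ s) 0 nM + u i = cp26 (sl μ s) (u i) nM := fun i => cp26_add _ _ _
    have ed : ∀ i : Bool, cp26 (sl μ s) 0 nM + e i = cp26 (sl μ s) (u i) (nM + T) := fun i => by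
      rw [he]
      unfold cp26
      ring
    have subF : ∀ {m : ℕ} {a z : ℤ}, 1 ≤ wd μ s m → η ∈ Far16 μ s c 1 3 m m P (a, z) q → η ∈ UE26 μ s c m m P (a, z) q :=
      fun hm hη => far_sub26 (θ := 1) (K := 3) hq0 hm le_rfl hη
    refine ⟨subF (by linarith) a1, fun i => subF (by linarith) (aa i), fun i => (fM i).1, fun i => (fM i).2, fun i => ?_,
        fun x y hx hxy => ?_, fun i x y hx hy => ?_, ?_, cF.lev⟩
    · have g := cF.low i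
      simp only [ec, ed] at g
      exact g
    · have g := cF.off x y hx fun j hj => hxy j (by
        simp only [ec, ed] at hj
        exact hj)
      exact g
    · have g := cF.cel i x y (by simp only [ec]; exact hx) (by simp only [ed]; exact hy)
      simp only [ec, ed] at g
      exact g
    · have g := cF.dif
      simp only [ec, ed] at g
      exact g
  · rw [hEB] at ηB
    obtain ⟨b1, b2, b3, b4⟩ := ηB
    have bb : ∀ i : Bool, η ∈ Far16 μ s c 1 3 nB nB P ((nM : ℤ) + T, cp26 (sl μ s) (u i) (nM + T)) q := fun i => by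
      cases i
      · exact b2
      · exact b3
    have fB := fun i : Bool => fB26 (m := nB) (m1 := nM) (T := T) (K := K) (Kc := 1 / (4 * j2)) (K0 := K0) (J := 2 * j2) (b := b)
      (qs := qs) (qw := qw) hlB hlBw hq0 hqw0 hqs (by linarith) hwB2 s2w hKn hK0 s2E (by
        have : 1 / (4 * j2) * (2 * j2) = 1 / 2 := by field_simp; norm_num
        linarith) (by positivity) hKb hb i (hu i) (by
        rw [eT]
        exact bb i) (by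
        rw [eT]
        exact b4)
    have subF : ∀ {m : ℕ} {a z : ℤ}, 1 ≤ wd μ s m → η ∈ Far16 μ s c 1 3 m m P (a, z) q → η ∈ UE26 μ s c m m P (a, z) q :=
      fun hm hη => far_sub26 (θ := 1) (K := 3) hq0 hm le_rfl hη
    refine ⟨subF (by linarith) b1, fun i => subF (by linarith) (bb i), fun i x hx => ?_, fun i x hx => ?_⟩
    · have g := (fB i).1 x hx
      rw [eT] at g
      exact g
    · have g := (fB i).2 x hx
      rw [eT] at g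
      exact g

/-- **THE BUFFER BEHIND THE TWO LANES, SEPARATED EVENTS.** -/
theorem buf78 [IsProbabilityMeasure μ] (h : In μ s c C n₀) (hR : RkP26 μ s) (hT : TslP26 μ s c) :
    ∃ P PF : ℕ, ∀ eps : ℝ, 0 < eps → ∃ q ell : ℝ, 0 ≤ q ∧ 0 ≤ ell ∧
    ∀ K0 del dd be g L Kw t0 : ℝ, 0 ≤ K0 → 0 < del → 0 < dd → 0 ≤ be → be ≤ c / 8 → 0 ≤ g → 0 ≤ L → 0 ≤ Kw → 0 < t0 →
    ∃ th K Kx ellw Kc Q1 c' κ qF : ℝ, 0 < th ∧ th ≤ 1 / 2 ∧ 0 ≤ Kx ∧ Kx + 1 ≤ K ∧ Kw ≤ K ∧ 0 < Kc ∧ 0 < c' ∧ 0 < κ ∧ 0 ≤ qF ∧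
    ∀ G' ω' : ℝ, 0 ≤ G' → 0 ≤ ω' → ∃ p : ℝ, 0 < p ∧
    ∃ RM RF RB k₁ : ℕ, 1 ≤ RM ∧ RM ≤ RF ∧ 1 ≤ RB ∧ RB ≤ RF ∧ (RM : ℝ) ≤ t0 * RF ∧ (RB : ℝ) ≤ t0 * RF ∧ 1 ≤ k₁ ∧
    ∀ k : ℕ, k₁ ≤ k → ∃ r : ℝ, κ * wd μ s (RF * k) ≤ r ∧ r ≤ th * wd μ s (RF * k) ∧
    ∀ u : Bool → ℤ, (∀ i, |(u i : ℝ)| ≤ K0 * wd μ s (RF * k)) → (u false : ℝ) + del * wd μ s (RF * k) ≤ u true →
      ∃ SM SB : Set Env, MeasurableSet SM ∧ OnR26 (rows 0 ((RM * k + RF * k : ℕ) : ℤ)) SM ∧ p ≤ (law μ).real SM ∧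
      MeasurableSet SB ∧ OnR26 (rows ((RM * k + RF * k : ℕ) : ℤ) ((RM * k + (RF * k + RB * k) : ℕ) : ℤ)) SB ∧ (law μ).real SBᶜ ≤ eps ∧
      (∀ η ∈ SM, MF78 μ s c η (RM * k) (RF * k) u P PF q qF (q * fq16 P 2) r (ω' * wd μ s (RF * k)) th L G' dd
        (Real.exp (-((RF * k : ℕ) : ℝ) ^ c'))) ∧
      (∀ η ∈ SB, BB78 μ s c η (RM * k) (RF * k) (RB * k) u P q (q * fq16 P 2) K ellw Kc) ∧
      ∀ η ∈ SM ∩ SB,
        Real.exp (L * EE μ s (RF * k)) ≤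
          kW μ s η ((RM * k : ℕ) : ℤ) (RF * k) (cp26 (sl μ s) (u false) (RM * k)) (cp26 (sl μ s) (u false) (RM * k + RF * k)) ∧
        BufP26 μ s c η (RM * k) (RF * k) (RB * k) u th K Kx del
          (kW μ s η ((RM * k : ℕ) : ℤ) (RF * k) (cp26 (sl μ s) (u false) (RM * k)) (cp26 (sl μ s) (u false) (RM * k + RF * k)))
          (Real.exp (-((RF * k : ℕ) : ℝ) ^ c')) (ell + 2 * dd) ellw Kc be g Q1 := by
  have hc0 := h.c0
  have hc1 := h.c1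
  obtain ⟨P, A0, a0, gg, hA0, ha0, hgg, hgg1, nf, hnf, hfar⟩ := far_prob h (K := 3) (θ := 1) (by norm_num) one_pos le_rfl
  obtain ⟨PT, hPT⟩ := hT
  refine ⟨P, PT, fun eps heps => ?_⟩
  obtain ⟨eB, heB⟩ : ∃ x : ℝ, x = min (1 / 16) (eps / 4) := ⟨_, rfl⟩
  have heB0 : 0 < eB := by rw [heB]; positivity
  have heB1 : eB ≤ 1 / 16 := by rw [heB]; exact min_le_left _ _
  have heB2 : eB ≤ eps / 4 := by rw [heB]; exact min_le_right _ _
  obtain ⟨q, hq0, hqp⟩ := level26 hA0 ha0 hgg heB0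
  obtain ⟨nl, hlow⟩ := far_low h (K := 3) (θ := 1) le_rfl one_pos
  obtain ⟨b₀, κ₀, hb₀, hκ₀, hEp⟩ := EE_pow h
  obtain ⟨qs, hqs⟩ : ∃ x : ℝ, x = q * fq16 P 2 := ⟨_, rfl⟩
  have hqs0 : 0 ≤ qs := by
    rw [hqs]
    exact mul_nonneg hq0 (by linarith [fq16_one P 2])
  refine ⟨q, 4 * qs + 2, hq0, by linarith, fun K0 del dd be g L Kw t0 hK0 hdel hdd hbe hbe8 hg hL hKw ht0 => ?_⟩
  -- the constants before the window
  obtain ⟨g', hg'⟩ : ∃ x : ℝ, x = g + qs + dd + 1 := ⟨_, rfl⟩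
  have hg'0 : 0 ≤ g' := by rw [hg']; linarith
  obtain ⟨X2, hX2⟩ : ∃ x : ℝ, x = 3 * qs + dd + 1 + be * (K0 + 1) + g' := ⟨_, rfl⟩
  have hX20 : 0 ≤ X2 := by
    rw [hX2]
    have := mul_nonneg hbe (show 0 ≤ K0 + 1 by linarith)
    linarith
  obtain ⟨hB, hhB⟩ : ∃ x : ℝ, x = 2 * be + 1 + 8 * X2 / del := ⟨_, rfl⟩
  have hXd : 0 ≤ 8 * X2 / del := by positivity
  have hB1 : 1 ≤ hB := by rw [hhB]; linarith
  have hB0 : 0 < hB := by linarith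
  obtain ⟨jt, hjt⟩ := exists_nat_ge (1 / t0)
  obtain ⟨j2, n2, hj2, hn2, hjt2, hsc2⟩ := sc78 h (M := hB / c) (by positivity) jt
  have hj2R : (1 : ℝ) ≤ j2 := by exact_mod_cast hj2
  obtain ⟨Kx, hKx⟩ : ∃ x : ℝ, x = 2 * (3 * qs + dd + 1 + hB * (K0 + 1) + g') / hB := ⟨_, rfl⟩
  have hKx0 : 0 ≤ Kx := by rw [hKx]; positivity
  obtain ⟨K, hK⟩ : ∃ x : ℝ, x = max Kw (Kx + 1) := ⟨_, rfl⟩
  have hKK1 : Kw ≤ K := by rw [hK]; exact le_max_left _ _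
  have hKK2 : Kx + 1 ≤ K := by rw [hK]; exact le_max_right _ _
  have hKn : 0 ≤ K := by linarith
  obtain ⟨Kb, hKb⟩ : ∃ x : ℝ, x = (K + K0 + 1) * (2 * j2) + 3 := ⟨_, rfl⟩
  have hKb3 : 3 ≤ Kb := by
    rw [hKb]
    have : 0 ≤ (K + K0 + 1) * (2 * j2) := by positivity
    linarith
  obtain ⟨Pw, Aw, aw, gw, hAw, haw, hgw, hgw1, nw, hnw, hfarw⟩ := far_prob h (K := Kb) (θ := 1) (by linarith) one_pos le_rfl
  obtain ⟨qw, hqw0, hqwp⟩ := level26 hAw haw hgw heB0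
  obtain ⟨nlw, hloww⟩ := far_low h (K := Kb) (θ := 1) hKb3 one_pos
  obtain ⟨b, hb⟩ : ∃ x : ℝ, x = qw * fq16 Pw (K0 * (2 * j2) + 2) := ⟨_, rfl⟩
  have hb0 : 0 ≤ b := by
    rw [hb]
    exact mul_nonneg hqw0 (by linarith [fq16_one Pw (K0 * (2 * j2) + 2)])
  obtain ⟨g0, hg0⟩ : ∃ x : ℝ, x = b + g' + 2 := ⟨_, rfl⟩
  obtain ⟨X1, hX1⟩ : ∃ x : ℝ, x = g0 + 3 * qs + 2 * dd + 1 + be * (K0 + 1) := ⟨_, rfl⟩
  have hX10 : 0 ≤ X1 := by
    rw [hX1, hg0]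
    have := mul_nonneg hbe (show 0 ≤ K0 + 1 by linarith)
    linarith
  obtain ⟨hM, hhM⟩ : ∃ x : ℝ, x = c + 2 * X1 / del := ⟨_, rfl⟩
  have hXd1 : 0 ≤ 2 * X1 / del := by positivity
  have hMc : c ≤ hM := by rw [hhM]; linarith
  have hM0 : 0 < hM := by linarith
  obtain ⟨j1, n1, hj1, hn1, hjt1, hsc1⟩ := sc78 h (M := hM / c) (by positivity) jt
  have hj1R : (1 : ℝ) ≤ j1 := by exact_mod_cast hj1
  obtain ⟨dR, cR, hdR, hcR, nR, hRk⟩ := hR (1 / 16) 1 (by norm_num) zero_le_one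
  obtain ⟨c', hc', nT, htol⟩ := tol26 j1 hj1 hb₀ hκ₀ hcR
  obtain ⟨th, hth⟩ : ∃ x : ℝ, x = min (min (dR / (4 * j1)) (1 / (4 * j1))) (min (min (del / 8) (1 / (2 * hB))) (min (1 / 2) (1 / (4 * j2)))) :=
    ⟨_, rfl⟩
  have hth0 : 0 < th := by rw [hth]; positivity
  have t1 : th ≤ dR / (4 * j1) := by rw [hth]; exact (min_le_left _ _).trans (min_le_left _ _)
  have t2 : th ≤ 1 / (4 * j1) := by rw [hth]; exact (min_le_left _ _).trans (min_le_right _ _)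
  have t3 : th ≤ del / 8 := by rw [hth]; exact (min_le_right _ _).trans ((min_le_left _ _).trans (min_le_left _ _))
  have t4 : th ≤ 1 / (2 * hB) := by rw [hth]; exact (min_le_right _ _).trans ((min_le_left _ _).trans (min_le_right _ _))
  have t5 : th ≤ 1 / 2 := by rw [hth]; exact (min_le_right _ _).trans ((min_le_right _ _).trans (min_le_left _ _))
  have t6 : th ≤ 1 / (4 * j2) := by rw [hth]; exact (min_le_right _ _).trans ((min_le_right _ _).trans (min_le_right _ _))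
  obtain ⟨κ, qF, hκ, hqF, hTK⟩ := hPT (K0 + 1) del dd th L (by linarith) hdel hdd hth0
  obtain ⟨MF, hMF, hMF'⟩ := fq_small26 PT (ε := c / (16 * (qF + 1))) (by positivity)
  obtain ⟨MB, hMB, hMB'⟩ := fq_small26 P (ε := c / (16 * (q + 1) * (2 * j2))) (by positivity)
  obtain ⟨MM, hMM, hMM'⟩ := fq_small26 P (ε := c / (16 * (q + 1) * (2 * j1))) (by positivity)
  obtain ⟨QF, hQF⟩ : ∃ x : ℝ, x = c / 8 + qF * MF := ⟨_, rfl⟩
  obtain ⟨QB, hQB⟩ : ∃ x : ℝ, x = c / 8 + q * MB := ⟨_, rfl⟩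
  obtain ⟨QM, hQM⟩ : ∃ x : ℝ, x = c / 8 + q * MM := ⟨_, rfl⟩
  have hQF0 : 0 ≤ QF := by rw [hQF]; positivity
  have hQB0 : 0 ≤ QB := by rw [hQB]; positivity
  have hQM0 : 0 ≤ QM := by rw [hQM]; positivity
  have kF : ∀ t : ℝ, 0 ≤ t → qF * fq16 PT (t + 2) ≤ QF + c / 16 * t := by
    intro t ht
    have g1 := mul_le_mul_of_nonneg_left (hMF' (t + 2) (by linarith)) hqF
    have g2 : qF * (c / (16 * (qF + 1))) ≤ c / 16 := by
      rw [mul_div_assoc', div_le_div_iff₀ (by positivity) (by norm_num)]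
      linarith
    have g3 := mul_le_mul_of_nonneg_right g2 (show 0 ≤ t + 2 by linarith)
    rw [hQF]
    linarith
  have kG : ∀ (M J : ℝ), 1 ≤ J → (∀ v : ℝ, 0 ≤ v → fq16 P v ≤ c / (16 * (q + 1) * J) * v + M) → ∀ t : ℝ, 0 ≤ t →
      q * fq16 P (t * J + 2) ≤ c / 8 + q * M + c / 16 * t := by
    intro M J hJ hM' t ht
    have hJ0 : 0 < J := by linarith
    have htJ : 0 ≤ t * J := by positivity
    have g1 := mul_le_mul_of_nonneg_left (hM' (t * J + 2) (by linarith)) hq0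
    have g2 : q * (c / (16 * (q + 1) * J)) * J ≤ c / 16 := by
      rw [mul_div_assoc', div_mul_eq_mul_div, div_le_div_iff₀ (by positivity) (by norm_num)]
      have : 0 ≤ c * J := by positivity
      linarith
    have g3 := mul_le_mul_of_nonneg_right g2 ht
    have g4 : q * (c / (16 * (q + 1) * J)) ≤ q * (c / (16 * (q + 1) * J)) * J := by
      refine le_mul_of_one_le_right ?_ hJ
      positivity
    linarith
  have kB := kG MB (2 * j2) (by linarith) hMB'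
  have kM := kG MM (2 * j1) (by linarith) hMM'
  rw [← hQB] at kB
  rw [← hQM] at kM
  obtain ⟨K3, hK3⟩ : ∃ x : ℝ, x = (K0 + 1) + 2 * (g0 + (2 * qs + QF + QB + (c / 16 + c / 16 + be) * (K0 + 1))) / hM := ⟨_, rfl⟩
  obtain ⟨G, hG⟩ : ∃ x : ℝ, x = 2 * (g0 + (2 * qs + QF / 2 + QB + (c / 16 + c / 16 + be) * (K0 + 1))) := ⟨_, rfl⟩
  have hg00 : 0 ≤ g0 := by rw [hg0]; linarith
  have hG0 : 0 ≤ G := by rw [hG]; positivity
  have hK3K : K0 + 1 ≤ K3 := by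
    rw [hK3]
    have : 0 ≤ 2 * (g0 + (2 * qs + QF + QB + (c / 16 + c / 16 + be) * (K0 + 1))) / hM := by positivity
    linarith
  obtain ⟨N1, hN1⟩ := th26 h hth0 (K0 + 1)
  obtain ⟨Q1, hQ1⟩ : ∃ x : ℝ, x = QM + QF + QB + 1 + c / 16 * (K0 + 1) := ⟨_, rfl⟩
  refine ⟨th, K, Kx, b + qs + dd, 1 / (4 * j2), Q1, c', κ, qF, hth0, t5, hKx0, hKK2, hKK1, by positivity, hc', hκ, hqF,
    fun G' ω' hG' hω' => ?_⟩
  obtain ⟨Gm, hGm⟩ : ∃ x : ℝ, x = max G G' := ⟨_, rfl⟩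
  have hGm1 : G ≤ Gm := by rw [hGm]; exact le_max_left _ _
  have hGm2 : G' ≤ Gm := by rw [hGm]; exact le_max_right _ _
  obtain ⟨Km, hKm⟩ : ∃ x : ℝ, x = max K3 ω' := ⟨_, rfl⟩
  have hKm1 : K3 ≤ Km := by rw [hKm]; exact le_max_left _ _
  have hKm2 : ω' ≤ Km := by rw [hKm]; exact le_max_right _ _
  obtain ⟨c₁, Q, n3, hc₁, hQ, hn3, hsl⟩ := hTK (Km + 1) (by linarith) Gm (by linarith)
  refine ⟨1 / 2 * c₁, by positivity, Q * j2, Q * (j1 * j2), Q * j1,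
    nf + nl + nw + nlw + n1 + n2 + nR + nT + n3 + N1 + 1, ?_, ?_, ?_, ?_, ?_, ?_, by omega, fun k hk => ?_⟩
  · exact Nat.mul_pos hQ hj2
  · exact Nat.mul_le_mul_left Q (Nat.le_mul_of_pos_left j2 hj1)
  · exact Nat.mul_pos hQ hj1
  · exact Nat.mul_le_mul_left Q (Nat.le_mul_of_pos_right j1 hj2)
  · push_cast
    have g1 : 1 ≤ t0 * j1 := by
      have g2 := mul_le_mul_of_nonneg_left (hjt.trans hjt1) ht0.le
      rwa [mul_one_div_cancel ht0.ne'] at g2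
    have g3 : (0 : ℝ) ≤ Q * j2 := by positivity
    have g4 := mul_le_mul_of_nonneg_left g1 g3
    linarith
  · push_cast
    have g1 : 1 ≤ t0 * j2 := by
      have g2 := mul_le_mul_of_nonneg_left (hjt.trans hjt2) ht0.le
      rwa [mul_one_div_cancel ht0.ne'] at g2
    have g3 : (0 : ℝ) ≤ Q * j1 := by positivity
    have g4 := mul_le_mul_of_nonneg_left g1 g3
    linarith
  -- the scales
  obtain ⟨nM, hnM⟩ : ∃ x : ℕ, x = Q * j2 * k := ⟨_, rfl⟩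
  obtain ⟨nB, hnB⟩ : ∃ x : ℕ, x = Q * j1 * k := ⟨_, rfl⟩
  obtain ⟨T, hTT⟩ : ∃ x : ℕ, x = Q * (j1 * j2) * k := ⟨_, rfl⟩
  have eT1 : T = j1 * nM := by rw [hTT, hnM]; ring
  have eT2 : T = j2 * nB := by rw [hTT, hnB]; ring
  have eT3 : T = Q * (j1 * j2 * k) := by rw [hTT]; ring
  have hkM : k ≤ nM := by rw [hnM]; exact Nat.le_mul_of_pos_left k (Nat.mul_pos hQ hj2)
  have hkB : k ≤ nB := by rw [hnB]; exact Nat.le_mul_of_pos_left k (Nat.mul_pos hQ hj1)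
  have hMT : nM ≤ T := by rw [eT1]; exact Nat.le_mul_of_pos_left nM hj1
  have hBT : nB ≤ T := by rw [eT2]; exact Nat.le_mul_of_pos_left nB hj2
  have hks : k ≤ j1 * j2 * k := Nat.le_mul_of_pos_left k (Nat.mul_pos hj1 hj2)
  obtain ⟨r, hr1, hr2, hlan⟩ := hsl (j1 * j2 * k) (by omega)
  rw [← eT3] at hr1 hr2 hlan
  rw [← hnM, ← hTT, ← hnB]
  refine ⟨r, hr1, hr2, fun u hu hsep => ?_⟩
  clear hsl hTK hPT
  -- the numbers of the scale
  have thM := hN1 nM (by omega)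
  have thB := hN1 nB (by omega)
  have thT := hN1 T (by omega)
  have hwM2 := thM.w2
  have hwB2 := thB.w2
  have hwT2 := thT.w2
  have hwM0 : 0 < wd μ s nM := by linarith
  have hwB0 : 0 < wd μ s nB := by linarith
  have hwT0 : 0 < wd μ s T := by linarith
  have hET := EE_pos (μ := μ) (s := s) T
  obtain ⟨-, s1E, -, s1w, s1h⟩ := hsc1 j1 nM le_rfl (by omega)
  obtain ⟨-, s2E, -, s2w, s2h⟩ := hsc2 j2 nB le_rfl (by omega)
  rw [← eT1] at s1E s1w s1h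
  rw [← eT2] at s2E s2w s2h
  have sM : hM * (wd μ s nM * EE μ s T) ≤ c * (EE μ s nM * wd μ s T) := by
    have e : hM * (wd μ s nM * EE μ s T) = c * (hM / c * (EE μ s T * wd μ s nM)) := by field_simp
    rw [e]
    exact mul_le_mul_of_nonneg_left s1h hc0.le
  have sB : hB * (wd μ s nB * EE μ s T) ≤ c * (EE μ s nB * wd μ s T) := by
    have e : hB * (wd μ s nB * EE μ s T) = c * (hB / c * (EE μ s T * wd μ s nB)) := by field_simp
    rw [e]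
    exact mul_le_mul_of_nonneg_left s2h hc0.le
  have hj10 : (0 : ℝ) < j1 := by linarith
  have hj20 : (0 : ℝ) < j2 := by linarith
  have tM2 : th * wd μ s T ≤ wd μ s nM / 2 := by
    have g1 := mul_le_mul_of_nonneg_left s1w hth0.le
    have g2 : th * (2 * j1) ≤ 1 / 2 := by
      rw [le_div_iff₀ (by positivity)] at t2
      linarith
    have g3 := mul_le_mul_of_nonneg_right g2 hwM0.le
    linarith
  have tB2 : th * wd μ s T ≤ wd μ s nB / 2 := by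
    have g1 := mul_le_mul_of_nonneg_left s2w hth0.le
    have g2 : th * (2 * j2) ≤ 1 / 2 := by
      rw [le_div_iff₀ (by positivity)] at t6
      linarith
    have g3 := mul_le_mul_of_nonneg_right g2 hwB0.le
    linarith
  have hr0 : 0 ≤ r := le_trans (by positivity) hr1
  have hK3w : K3 * wd μ s T + 1 ≤ (Km + 1) * wd μ s T := by
    have g1 := mul_le_mul_of_nonneg_right hKm1 hwT0.le
    linarith
  have NN : BNum26 μ s c nM T nB P PT (2 * j2) q qF qs r ((Km + 1) * wd μ s T) th L dd K0 (K0 + 1) K3 QF (c / 16) QB (c / 16) hM hB be :=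
    ⟨by linarith, by linarith, by linarith, thT.thw, hr0, hr2, by linarith, by linarith, s2w, by linarith, s1E, s2E, sM, sB,
      by linarith, hK3w, hq0, hqF, by rw [hqs], kF, kB, hL, hdd.le, hQF0, hQB0, by linarith, by linarith, hbe, hK0,
      by linarith, hM0.le, hB0.le, by linarith, by linarith, by linarith⟩
  -- the events
  have hF3 : ∀ (m : ℕ) (a z : ℤ), nf ≤ m → EvB26 μ a (a + m) (Far16 μ s c 1 3 m m P (a, z) q) eB := fun m a z hm =>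
    ⟨Far16_meas _ _ _ _ _ _ _, fun η η' hh => Far16_rows hh, (hfar m hm m le_rfl (a, z) q hq0).trans hqp⟩
  have hFw : ∀ (m : ℕ) (a z : ℤ), nw ≤ m → EvB26 μ a (a + m) (Far16 μ s c 1 Kb m m Pw (a, z) qw) eB := fun m a z hm =>
    ⟨Far16_meas _ _ _ _ _ _ _, fun η η' hh => Far16_rows hh, (hfarw m hm m le_rfl (a, z) qw hqw0).trans hqwp⟩
  have hfl0 : (0 : ℤ) ≤ ⌊th * wd μ s T⌋ := Int.floor_nonneg.2 (by positivity)
  have hflr : ((⌊th * wd μ s T⌋ : ℤ) : ℝ) ≤ th * wd μ s T := Int.floor_le _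
  have hcell : ∀ a : ℤ, (((a + ⌊th * wd μ s T⌋) - (a - ⌊th * wd μ s T⌋) : ℤ) : ℝ) ≤ dR * wd μ s nM := by
    intro a
    push_cast
    have g1 := mul_le_mul_of_nonneg_left s1w hth0.le
    have g2 : th * (4 * j1) ≤ dR := by
      rw [le_div_iff₀ (by positivity)] at t1
      linarith
    have g3 := mul_le_mul_of_nonneg_right g2 hwM0.le
    linarith
  have hRK : ∀ i : Bool, u i + ⌊th * wd μ s T⌋ ≤ cp26 (sl μ s) (u i) nM - ⌊th * wd μ s T⌋ ∧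
      cp26 (sl μ s) (u i) nM + ⌊th * wd μ s T⌋ ≤ u i - ⌊th * wd μ s T⌋ + nM ∧
      EvB26 μ 0 (0 + nM) (RK26 μ s 0 nM (u i - ⌊th * wd μ s T⌋) (u i + ⌊th * wd μ s T⌋) (cp26 (sl μ s) (u i) nM - ⌊th * wd μ s T⌋)
        (cp26 (sl μ s) (u i) nM + ⌊th * wd μ s T⌋) (Real.exp (-(nM : ℝ) ^ cR))) (1 / 16) := by
    intro i
    obtain ⟨g1, g2, g3⟩ := hRk nM (by omega) 0 (u i - ⌊th * wd μ s T⌋) (u i + ⌊th * wd μ s T⌋)
      (cp26 (sl μ s) (u i) nM - ⌊th * wd μ s T⌋) (cp26 (sl μ s) (u i) nM + ⌊th * wd μ s T⌋) (by omega) (by omega) (hcell _) (hcell _) (by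
        have e : cp26 (sl μ s) (u i) nM - ⌊th * wd μ s T⌋ - (u i - ⌊th * wd μ s T⌋) = cp26 (sl μ s) (u i) nM - u i := by ring
        rw [e]
        push_cast
        have := cp26_near (sl μ s) (u i) nM
        linarith)
    refine ⟨g1, g2, measurableSet_RK26 _ _ _ _ _ _ _, fun η η' hh => RK26_dep (fun p h1 h2 => hh p ⟨h1, by linarith⟩) _ _ _ _ _, ?_⟩
    exact ENNReal.toReal_le_of_le_ofReal (by norm_num) g3
  obtain ⟨SM, SB, mM, oM, pM, mB, oB, pB, hSM, hSB⟩ := evt78 (μ := μ) (s := s) (c := c) (nM := nM) (T := T) (nB := nB) (u := u)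
    (r := r) (Kb := Kb) (b := b)
    (th := th) (K0 := K0) (K3 := Km) (L := L) (G := Gm) (dd := dd) (K := K) (hlow nM (by omega)) (hlow nB (by omega)) (hloww nB (by omega))
    (fun z => evb_mono (hF3 nM 0 z (by omega)) heB1) (fun z => hF3 nB _ z (by omega)) (fun z => hFw nB _ z (by omega)) hRK hlan hc₁ hq0 hqw0
    hqs.ge hwM2 hwB2 hwT2 tM2 s1E s2E hr2 s2w hj2R hKn hK0 (by rw [hKb]; linarith) hb.ge (Real.exp_pos _).le hu hsep
  have hδ : (1 + Real.exp (-EE μ s T)) ^ 2 * (1 + Real.exp (-(nM : ℝ) ^ cR)) ≤ 1 + Real.exp (-(T : ℝ) ^ c') :=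
    htol T (by omega) nM (le_of_eq eT1) (EE μ s T) (hEp T thT.one)
  have hδ' : Real.exp (-(nM : ℝ) ^ cR) ≤ Real.exp (-(T : ℝ) ^ c') := by
    have g1 : (1 : ℝ) ≤ (1 + Real.exp (-EE μ s T)) ^ 2 := one_le_pow₀ (by linarith [Real.exp_pos (-EE μ s T)])
    have g2 : 0 ≤ 1 + Real.exp (-(nM : ℝ) ^ cR) := by positivity
    have g3 := le_mul_of_one_le_left g2 g1
    linarith only [g3, hδ]
  rw [hqs] at hSM hSB
  refine ⟨SM, SB, mM, oM, pM, mB, oB, pB.trans (by linarith), fun η hη => ?_, fun η hη => ?_, fun η hη => ?_⟩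
  · refine (hSM η hη).weak ?_ hGm2 hδ' hET.le
    exact mul_le_mul_of_nonneg_right (by linarith) hwT0.le
  · exact (hSB η hη).mono (by linarith) hET.le
  have HH : BFct26 μ s c η nM T nB u P PT q qF qs r ((Km + 1) * wd μ s T) th L Gm dd K b (1 / (4 * j2)) (Real.exp (-(nM : ℝ) ^ cR)) := by
    rw [hqs]
    exact (hSM η hη.1).full (hSB η hη.2)
  refine ⟨HH.f1 false, ?_⟩
  have hth2 : hB * (2 * th) ≤ 1 := by
    rw [le_div_iff₀ (by positivity)] at t4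
    linarith
  refine fin26 (g0 := g0) (g' := g') h HH NN hu thT hMT hBT s1w kM hQM0 hMc (by linarith) hsep hQ1.ge ?_ ?_ ?_ ?_ ?_
    (Real.exp_pos _).le ?_ hKx0
  · have g1 : hM * (del / 2) ≤ hM * (del - 2 * (2 * th)) := mul_le_mul_of_nonneg_left (by linarith) hM0.le
    have g2 : X1 ≤ hM * (del / 2) := by
      rw [hhM]
      have e1 : (c + 2 * X1 / del) * (del / 2) = c * del / 2 + X1 := by field_simp
      rw [e1]
      have : 0 ≤ c * del / 2 := by positivity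
      linarith
    rw [hX1] at g2
    linarith
  · refine le_trans ?_ (div_le_div_of_nonneg_right hGm1 (by norm_num))
    rw [hG]
    linarith
  · rw [hK3]
    have e1 : hM / 2 * (K0 + 1 + 2 * (g0 + (2 * qs + QF + QB + (c / 16 + c / 16 + be) * (K0 + 1))) / hM - (K0 + 1)) =
      g0 + (2 * qs + QF + QB + (c / 16 + c / 16 + be) * (K0 + 1)) := by field_simp; ring
    rw [e1]
  · refine ⟨by rw [hg0]; linarith, hg00, ?_, ?_, thT.RE, by linarith, by linarith, le_rfl, by rw [hg']⟩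
    · have g1 : hB / 2 * Kx ≤ (hB - be) * Kx := mul_le_mul_of_nonneg_right (by rw [hhB]; linarith) hKx0
      have g2 : hB / 2 * Kx = 3 * qs + dd + 1 + hB * (K0 + 1) + g' := by
        rw [hKx]
        field_simp
      linarith
    · have g1 : hB / 2 * (del / 4) ≤ (hB - be) * (del / 4) := mul_le_mul_of_nonneg_right (by rw [hhB]; linarith) (by positivity)
      have g2 : X2 ≤ hB / 2 * (del / 4) := by
        rw [hhB]
        have e1 : (2 * be + 1 + 8 * X2 / del) / 2 * (del / 4) = (2 * be + 1) * del / 8 + X2 := by field_simp; norm_num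
        rw [e1]
        have : 0 ≤ (2 * be + 1) * del / 8 := by positivity
        linarith
      rw [hX2] at g2
      linarith
  · rw [hg0]
    linarith
  · exact hδ

end

end Pool.Agent.W_7d29a1_C1.B78
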