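import Pool.Agent.W_7d29a1_C1.FrcP26
import Pool.Agent.W_7d29a1_C1.FreB26

/-!
MP_7d29a1_pr, [C1] **THE BUFFER FILE OF THE FRESH BALL, SECOND FORM** (two exponents of the exits; helper20, from the base 0 statement
`FrC026` of helper26): every base point `b`, absolute columns, read at every place `z`. `freR20`: with the weights of the last row
`b.1 + nM + T + nB` in `SB`; `freC26`: the statement of the board.

Order: `eps | ell | th' K0 del rD dd be g L u0 | th hB Kc Q1 Qe Qw c' Pe Pw a j1 j2 | Kw gx G' | K Kx ellw p Q k₁`.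
-/

set_option autoImplicit false

namespace Pool.Agent.W_7d29a1_C1.B26

open MeasureTheory ProbabilityTheory Filter Topology Finset
open Pool.Agent.W_7d29a1_F Pool.Agent.W_7d29a1_h4g Pool.Agent.W_7d29a1_H Pool.Agent.W_7d29a1_HS
open Pool.Agent.W_7d29a1_C1
open Pool.Agent.W_7d29a1_C1.Basin76
open Pool.Agent.W_7d29a1_C1.S83 (RowG meas_RowG rowG83)

noncomputable section

variable {μ : Measure ℝ} {s c C : ℝ} {n₀ : ℕ}

theorem BT26.shift {Kr Kr' : ℤ → ℤ → ℝ} {L0 L3 L0' L3' : ℤ → ℝ} {E : ℝ} {u u' : Bool → ℤ} {mu : Bool → ℝ}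
    {R K Kx del A δ ell ellw Kc be g gx G' hB : ℝ} {P : ℕ} {Q hh : ℝ}
    (H : BT26 Kr L0 L3 E u mu R K Kx del A δ ell ellw Kc be g gx G' hB P Q hh) (d : ℤ)
    (hK : ∀ x y, Kr' (x + d) (y + d) = Kr x y) (hL0 : ∀ x, L0' (x + d) = L0 x) (hL : ∀ x, L3' (x + d) = L3 x)
    (hu : ∀ i, u' i = u i + d) : BT26 Kr' L0' L3' E u' mu R K Kx del A δ ell ellw Kc be g gx G' hB P Q hh := by
  refine ⟨H.toBO26.shift d hK hL0 hL hu, fun i y hy X hX => ?_⟩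
  have hy' : |((y - d : ℤ) : ℝ) - u i| ≤ R := by
    have e : ((y - d : ℤ) : ℝ) - u i = (y : ℝ) - u' i := by
      rw [hu i]
      push_cast
      ring
    rw [e]
    exact hy
  have h1 := H.exw i (y - d) hy' (X.map (Equiv.subRight d).toEmbedding) (fun x hx => by
    obtain ⟨z, hz, hzx⟩ := mem_map.1 hx
    have e : x = z - d := hzx.symm
    have h2 := hX z hz
    have h3 := hL (z - d)
    rw [sub_add_cancel] at h3
    rw [e, ← h3]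
    exact h2)
  rw [sum_map] at h1
  refine le_trans (le_of_eq (sum_congr rfl fun x _ => ?_)) h1
  have e1 := hK (y - d) (x - d)
  have e2 := hL (x - d)
  rw [sub_add_cancel, sub_add_cancel] at e1
  rw [sub_add_cancel] at e2
  show Kr' y x * Real.exp (be * |L3' x| * E) = Kr (y - d) (x - d) * Real.exp (be * |L3 (x - d)| * E)
  rw [e1, e2]

/-- **THE BUFFER FILE OF THE FRESH BALL, SECOND FORM, with the weights of its last row.** -/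
theorem freR20 [IsProbabilityMeasure μ] (h : In μ s c C n₀) (H : FrC026 μ s c) {eps : ℝ} (heps : 0 < eps) :
    ∃ ell : ℝ, 0 ≤ ell ∧ ∀ th' K0 del rD dd be g L u0 : ℝ, 0 < th' → 0 ≤ K0 → 0 < del → 0 < rD → 0 < dd → 0 ≤ be → be ≤ c / 8 →
      0 ≤ g → 0 ≤ L → 0 < u0 →
    ∃ (th hB Kc Q1 Qe Qw c' : ℝ) (Pe Pw a j1 j2 : ℕ), 0 < th ∧ th ≤ rD ∧ th ≤ del / 8 ∧
      be ≤ hB ∧ 1 ≤ hB ∧ 0 < Kc ∧ 0 ≤ Q1 ∧ 0 ≤ Qe ∧ 0 ≤ Qw ∧ 0 < c' ∧ 1 ≤ a ∧ a ≤ j1 ∧ 1 ≤ j1 ∧ 1 ≤ j2 ∧ 1 ≤ th' * j2 ∧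
    ∀ Kw gx G' : ℝ, 0 ≤ Kw → 0 ≤ gx → 0 ≤ G' → ∃ (K Kx ellw p : ℝ) (Q k₁ : ℕ), 0 ≤ Kx ∧ Kx + 1 ≤ K ∧ Kw ≤ K ∧ 0 ≤ ellw ∧ 0 < p ∧
      1 ≤ Q ∧ 1 ≤ k₁ ∧
    ∀ k : ℕ, k₁ ≤ k → ∀ nM T nB : ℕ, nM = Q * (a * j2) * k → T = Q * (j1 * j2) * k → nB = Q * j1 * k →
    ∃ r : ℝ, 0 ≤ r ∧ r ≤ th * wd μ s T ∧ 1 ≤ th * wd μ s T ∧
    ∀ (b : Pt) (u t : Bool → ℤ), (∀ i, |((u i - b.2 : ℤ) : ℝ)| ≤ K0 * wd μ s T) →
      (∀ i, |((t i - b.2 : ℤ) : ℝ) - sl μ s * (nM + T : ℕ)| ≤ K0 * wd μ s T) →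
      (u false : ℝ) + del * wd μ s T ≤ u true → (t false : ℝ) + del * wd μ s T ≤ t true →
    ∃ SA SB : Set Env, MeasurableSet SA ∧ MeasurableSet SB ∧ OnR26 (rows (b.1 - 1) (b.1 + nM + T)) SA ∧
      OnR26 (rows (b.1 + nM + T) (b.1 + nM + T + nB)) SB ∧ p ≤ (law μ).real SA ∧ (law μ).real SBᶜ ≤ eps ∧
      ∀ (z : Pt) (η : Env), sh z η ∈ SA →
        η ∈ RowG (b.1 + z.1) (b.2 + z.2) (wd μ s T) (u0 * EE μ s T) ∧
        η ∈ RowG (b.1 + z.1 + nM + T) (cp26 (sl μ s) (b.2 + z.2) (nM + T)) (wd μ s T) (u0 * EE μ s T) ∧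
        ∃ A : ℝ,
        MO26 (kW μ s η (b.1 + z.1) (nM + T)) (fun x => lt26 (sl μ s) (wd μ s T) 0 (x - (b.2 + z.2)))
          (fun x => lt26 (sl μ s) (wd μ s T) (nM + T) (x - (b.2 + z.2))) (EE μ s T) (fun i => u i + z.2) (fun i => t i + z.2)
          (th * wd μ s T) r L Q1 A (ell + 2 * dd) g G' be Pe Qe (3 * c / 4) ∧
        (sh z η ∈ SB → η ∈ RowG (b.1 + z.1 + nM + T + nB) (cp26 (sl μ s) (b.2 + z.2) (nM + T + nB)) (wd μ s T) (u0 * EE μ s T) ∧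
          BT26 (kW μ s η (b.1 + z.1) (nM + (T + nB))) (fun x => lt26 (sl μ s) (wd μ s T) 0 (x - (b.2 + z.2)))
          (fun x => lt26 (sl μ s) (wd μ s T) (nM + T + nB) (x - (b.2 + z.2))) (EE μ s T) (fun i => u i + z.2)
          (fun i => lt26 (sl μ s) (wd μ s T) (nM + T) (t i - b.2)) (th * wd μ s T) K Kx del A (Real.exp (-((T : ℕ) : ℝ) ^ c'))
          (ell + 2 * dd) ellw Kc be g gx G' hB Pw Qw (c / 2)) := by
  obtain ⟨ell, hell, H⟩ := H (eps / 2) (half_pos heps)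
  refine ⟨ell, hell, fun th' K0 del rD dd be g L u0 hth' hK0 hdel hrD hdd hbe hbe8 hg hL hu0 => ?_⟩
  obtain ⟨th, hB, Kc, Q1, Qe, Qw, c', Pe, Pw, a, j1, j2, f1, f2, f3, f4, f5, f6, f7, f8, f9, f10, f11, f12, f13, f14, f15, H⟩ :=
    H th' K0 del rD dd be g L hth' hK0 hdel hrD hdd hbe hbe8 hg hL
  refine ⟨th, hB, Kc, Q1, Qe, Qw, c', Pe, Pw, a, j1, j2, f1, f2, f3, f4, f5, f6, f7, f8, f9, f10, f11, f12, f13, f14, f15,
    fun Kw gx G' hKw hgx hG' => ?_⟩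
  obtain ⟨K, Kx, ellw, p, Q, k₁, e1, e2, e3, e4, hp, hQ, hk₁, H⟩ := H Kw gx G' hKw hgx hG'
  obtain ⟨nr, hnr1, hnr⟩ := rowG83 h hu0 1
  obtain ⟨nE, hnE⟩ := eventually_atTop.1 (h.tE.eventually_ge_atTop (Real.log (4 / p)))
  obtain ⟨nF, hnF⟩ := eventually_atTop.1 (h.tE.eventually_ge_atTop (Real.log (2 / eps)))
  obtain ⟨N1, hN1⟩ := th26 h f1 1
  refine ⟨K, Kx, ellw, p / 2, Q, k₁ + nr + nE + nF + N1, e1, e2, e3, e4, by positivity, hQ, by omega,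
    fun k hk nM T nB hnM hTT hnB => ?_⟩
  obtain ⟨r, r0, r1, r2, H⟩ := H k (by omega) nM T nB hnM hTT hnB
  refine ⟨r, r0, r1, r2, fun b u t hu ht hsep hset => ?_⟩
  have hkT : k ≤ T := by
    rw [hTT]
    exact Nat.le_mul_of_pos_left k (Nat.mul_pos hQ (Nat.mul_pos f13 f14))
  have hB1 : 1 ≤ nB := by
    rw [hnB]
    exact Nat.mul_pos (Nat.mul_pos hQ f13) (by omega)
  have thT := hN1 T (by omega)
  have hwT2 := thT.w2
  have hwT := thT.KT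
  rw [one_mul] at hwT
  obtain ⟨u0', hu0'⟩ : ∃ f : Bool → ℤ, f = fun i => u i - b.2 := ⟨_, rfl⟩
  obtain ⟨t0', ht0'⟩ : ∃ f : Bool → ℤ, f = fun i => t i - b.2 := ⟨_, rfl⟩
  obtain ⟨SA0, SB0, a1, a2, a3, a4, a5, a6, a7⟩ := H u0' t0' (fun i => by rw [hu0']; exact hu i) (fun i => by rw [ht0']; exact ht i) (by
    rw [hu0']
    push_cast
    linarith) (by
    rw [ht0']
    push_cast
    linarith)
  -- the three rows
  obtain ⟨R1, hR1⟩ : ∃ E : Set Env, E = RowG b.1 b.2 (wd μ s T) (u0 * EE μ s T) := ⟨_, rfl⟩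
  obtain ⟨R2, hR2⟩ : ∃ E : Set Env, E = RowG (b.1 + nM + T) (cp26 (sl μ s) b.2 (nM + T)) (wd μ s T) (u0 * EE μ s T) := ⟨_, rfl⟩
  obtain ⟨R3, hR3⟩ : ∃ E : Set Env, E = RowG (b.1 + nM + T + nB) (cp26 (sl μ s) b.2 (nM + T + nB)) (wd μ s T) (u0 * EE μ s T) :=
    ⟨_, rfl⟩
  have mR1 : MeasurableSet R1 := by rw [hR1]; exact meas_RowG _ _ _ _
  have mR2 : MeasurableSet R2 := by rw [hR2]; exact meas_RowG _ _ _ _
  have mR3 : MeasurableSet R3 := by rw [hR3]; exact meas_RowG _ _ _ _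
  have hex : Real.exp (-(1 * EE μ s T)) ≤ p / 4 := by
    have h1 : Real.log (4 / p) ≤ EE μ s T := hnE T (by omega)
    have h2 := Real.exp_le_exp.2 (neg_le_neg h1)
    have e0 : Real.exp (-Real.log (4 / p)) = p / 4 := by
      rw [Real.exp_neg, Real.exp_log (by positivity), inv_div]
    rw [e0] at h2
    rw [one_mul]
    exact h2
  have hex2 : Real.exp (-(1 * EE μ s T)) ≤ eps / 2 := by
    have h1 : Real.log (2 / eps) ≤ EE μ s T := hnF T (by omega)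
    have h2 := Real.exp_le_exp.2 (neg_le_neg h1)
    have e0 : Real.exp (-Real.log (2 / eps)) = eps / 2 := by
      rw [Real.exp_neg, Real.exp_log (by positivity), inv_div]
    rw [e0] at h2
    rw [one_mul]
    exact h2
  have pR1 : (law μ).real R1ᶜ ≤ p / 4 := by
    rw [hR1]
    exact (hnr T (by omega) _ _ _ (by linarith) hwT).trans hex
  have pR2 : (law μ).real R2ᶜ ≤ p / 4 := by
    rw [hR2]
    exact (hnr T (by omega) _ _ _ (by linarith) hwT).trans hex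
  have pR3 : (law μ).real R3ᶜ ≤ eps / 2 := by
    rw [hR3]
    exact (hnr T (by omega) _ _ _ (by linarith) hwT).trans hex2
  have mA0 := meas_atR26 b a1
  have pA0 : p ≤ (law μ).real (atR26 b SA0) := by rw [real_atR26 (μ := μ) b a1]; exact a5
  refine ⟨atR26 b SA0 ∩ (R1 ∩ R2), atR26 b SB0 ∩ R3, mA0.inter (mR1.inter mR2), (meas_atR26 b a2).inter mR3, ?_, ?_, ?_, ?_,
    fun z η hη => ?_⟩
  · refine OnR26.inter ?_ (OnR26.inter ?_ ?_)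
    · have h1 : OnR26 (rows b.1 (b.1 + (nM + T : ℕ))) (atR26 b SA0) := on_atR26 b (by
        rw [zero_add]
        push_cast
        exact a3)
      refine h1.mono fun q hq => ?_
      have g1 : b.1 < q.1 := hq.1
      have g2 : q.1 ≤ b.1 + (nM + T : ℕ) := hq.2
      push_cast at g2
      exact ⟨by omega, by omega⟩
    · rw [hR1]
      exact on_RowG26 _ _ _ _ (by omega) (by omega)
    · rw [hR2]
      exact on_RowG26 _ _ _ _ (by omega) (by omega)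
  · refine OnR26.inter (fun η η' hh => ?_) ?_
    · refine a4 (sh b η) (sh b η') fun q hq => ?_
      have g1 : (nM : ℤ) + T < q.1 := hq.1
      have g2 : q.1 ≤ (nM : ℤ) + T + nB := hq.2
      show η (q + b) = η' (q + b)
      refine hh (q + b) ⟨?_, ?_⟩
      · show b.1 + nM + T < q.1 + b.1
        linarith
      · show q.1 + b.1 ≤ b.1 + nM + T + nB
        linarith
    · rw [hR3]
      exact on_RowG26 _ _ _ _ (by omega) (by omega)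
  · have h1 : (law μ).real (atR26 b SA0 ∩ (R1 ∩ R2))ᶜ ≤ (law μ).real (atR26 b SA0)ᶜ + ((law μ).real R1ᶜ + (law μ).real R2ᶜ) := by
      rw [Set.compl_inter, Set.compl_inter]
      exact (measureReal_union_le _ _).trans (add_le_add le_rfl (measureReal_union_le _ _))
    have h2 := probReal_add_probReal_compl (μ := law μ) (mA0.inter (mR1.inter mR2))
    have h3 := probReal_add_probReal_compl (μ := law μ) mA0
    linarith
  · have e : (law μ).real (atR26 b SB0)ᶜ ≤ eps / 2 := by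
      have e0 : (atR26 b SB0)ᶜ = atR26 b SB0ᶜ := rfl
      rw [e0, real_atR26 (μ := μ) b a2.compl]
      exact a6
    rw [Set.compl_inter]
    refine (measureReal_union_le _ _).trans ?_
    linarith
  · obtain ⟨k0, k1, k2⟩ := hη
    have k0' : sh (b + z) η ∈ SA0 := by
      rw [← sh_sh26]
      exact k0
    rw [hR1] at k1
    rw [hR2] at k2
    have k1' := (RowG_sh26 z η _ _ _ _).1 k1
    have k2' := (RowG_sh26 z η _ _ _ _).1 k2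
    have ec : ∀ n : ℕ, cp26 (sl μ s) b.2 n + z.2 = cp26 (sl μ s) (b.2 + z.2) n := by
      intro n
      unfold cp26
      ring
    have er : b.1 + (nM : ℤ) + T + z.1 = b.1 + z.1 + nM + T := by ring
    rw [ec, er] at k2'
    obtain ⟨A, m1, m2⟩ := a7 _ k0'
    have eu : ∀ i, u i + z.2 = u0' i + (b.2 + z.2) := fun i => by
      rw [hu0']
      show u i + z.2 = u i - b.2 + (b.2 + z.2)
      ring
    have et : ∀ i, t i + z.2 = t0' i + (b.2 + z.2) := fun i => by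
      rw [ht0']
      show t i + z.2 = t i - b.2 + (b.2 + z.2)
      ring
    have eK : ∀ (n : ℕ) (x y : ℤ), kW μ s η (b.1 + z.1) n (x + (b.2 + z.2)) (y + (b.2 + z.2)) = kW μ s (sh (b + z) η) 0 n x y := by
      intro n x y
      rw [kW_sh, zero_add]
      rfl
    have eL : ∀ (n : ℕ) (x : ℤ), lt26 (sl μ s) (wd μ s T) n (x + (b.2 + z.2) - (b.2 + z.2)) = lt26 (sl μ s) (wd μ s T) n x := by
      intro n x
      rw [add_sub_cancel_right]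
    refine ⟨k1', k2', A, m1.shift (b.2 + z.2) (eK _) (eL _) (eL _) eu et, fun hB' => ?_⟩
    have hB2 : sh (b + z) η ∈ SB0 := by
      rw [← sh_sh26]
      exact hB'.1
    have k3 := hB'.2
    rw [hR3] at k3
    have k3' := (RowG_sh26 z η _ _ _ _).1 k3
    have er3 : b.1 + (nM : ℤ) + T + nB + z.1 = b.1 + z.1 + nM + T + nB := by ring
    rw [ec, er3] at k3'
    have m3 := (m2 hB2).shift (u' := fun i => u i + z.2) (Kr' := kW μ s η (b.1 + z.1) (nM + (T + nB)))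
      (L0' := fun x => lt26 (sl μ s) (wd μ s T) 0 (x - (b.2 + z.2)))
      (L3' := fun x => lt26 (sl μ s) (wd μ s T) (nM + T + nB) (x - (b.2 + z.2))) (b.2 + z.2) (eK _) (eL _) (eL _) eu
    rw [ht0'] at m3
    exact ⟨k3', m3⟩

/-- **THE BUFFER FILE OF THE FRESH BALL, SECOND FORM.** -/
theorem freC26 [IsProbabilityMeasure μ] (h : In μ s c C n₀) (H : FrC026 μ s c) {eps : ℝ} (heps : 0 < eps) :
    ∃ ell : ℝ, 0 ≤ ell ∧ ∀ th' K0 del rD dd be g L u0 : ℝ, 0 < th' → 0 ≤ K0 → 0 < del → 0 < rD → 0 < dd → 0 ≤ be → be ≤ c / 8 →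
      0 ≤ g → 0 ≤ L → 0 < u0 →
    ∃ (th hB Kc Q1 Qe Qw c' : ℝ) (Pe Pw a j1 j2 : ℕ), 0 < th ∧ th ≤ rD ∧ th ≤ del / 8 ∧
      be ≤ hB ∧ 1 ≤ hB ∧ 0 < Kc ∧ 0 ≤ Q1 ∧ 0 ≤ Qe ∧ 0 ≤ Qw ∧ 0 < c' ∧ 1 ≤ a ∧ a ≤ j1 ∧ 1 ≤ j1 ∧ 1 ≤ j2 ∧ 1 ≤ th' * j2 ∧
    ∀ Kw gx G' : ℝ, 0 ≤ Kw → 0 ≤ gx → 0 ≤ G' → ∃ (K Kx ellw p : ℝ) (Q k₁ : ℕ), 0 ≤ Kx ∧ Kx + 1 ≤ K ∧ Kw ≤ K ∧ 0 ≤ ellw ∧ 0 < p ∧
      1 ≤ Q ∧ 1 ≤ k₁ ∧
    ∀ k : ℕ, k₁ ≤ k → ∀ nM T nB : ℕ, nM = Q * (a * j2) * k → T = Q * (j1 * j2) * k → nB = Q * j1 * k →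
    ∃ r : ℝ, 0 ≤ r ∧ r ≤ th * wd μ s T ∧ 1 ≤ th * wd μ s T ∧
    ∀ (b : Pt) (u t : Bool → ℤ), (∀ i, |((u i - b.2 : ℤ) : ℝ)| ≤ K0 * wd μ s T) →
      (∀ i, |((t i - b.2 : ℤ) : ℝ) - sl μ s * (nM + T : ℕ)| ≤ K0 * wd μ s T) →
      (u false : ℝ) + del * wd μ s T ≤ u true → (t false : ℝ) + del * wd μ s T ≤ t true →
    ∃ SA SB : Set Env, MeasurableSet SA ∧ MeasurableSet SB ∧ OnR26 (rows (b.1 - 1) (b.1 + nM + T)) SA ∧
      OnR26 (rows (b.1 + nM + T) (b.1 + nM + T + nB)) SB ∧ p ≤ (law μ).real SA ∧ (law μ).real SBᶜ ≤ eps ∧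
      ∀ (z : Pt) (η : Env), sh z η ∈ SA →
        η ∈ RowG (b.1 + z.1) (b.2 + z.2) (wd μ s T) (u0 * EE μ s T) ∧
        η ∈ RowG (b.1 + z.1 + nM + T) (cp26 (sl μ s) (b.2 + z.2) (nM + T)) (wd μ s T) (u0 * EE μ s T) ∧
        ∃ A : ℝ,
        MO26 (kW μ s η (b.1 + z.1) (nM + T)) (fun x => lt26 (sl μ s) (wd μ s T) 0 (x - (b.2 + z.2)))
          (fun x => lt26 (sl μ s) (wd μ s T) (nM + T) (x - (b.2 + z.2))) (EE μ s T) (fun i => u i + z.2) (fun i => t i + z.2)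
          (th * wd μ s T) r L Q1 A (ell + 2 * dd) g G' be Pe Qe (3 * c / 4) ∧
        (sh z η ∈ SB → BT26 (kW μ s η (b.1 + z.1) (nM + (T + nB))) (fun x => lt26 (sl μ s) (wd μ s T) 0 (x - (b.2 + z.2)))
          (fun x => lt26 (sl μ s) (wd μ s T) (nM + T + nB) (x - (b.2 + z.2))) (EE μ s T) (fun i => u i + z.2)
          (fun i => lt26 (sl μ s) (wd μ s T) (nM + T) (t i - b.2)) (th * wd μ s T) K Kx del A (Real.exp (-((T : ℕ) : ℝ) ^ c'))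
          (ell + 2 * dd) ellw Kc be g gx G' hB Pw Qw (c / 2)) := by
  obtain ⟨ell, hell, H⟩ := freR20 h H heps
  refine ⟨ell, hell, fun th' K0 del rD dd be g L u0 hth' hK0 hdel hrD hdd hbe hbe8 hg hL hu0 => ?_⟩
  obtain ⟨th, hB, Kc, Q1, Qe, Qw, c', Pe, Pw, a, j1, j2, f1, f2, f3, f4, f5, f6, f7, f8, f9, f10, f11, f12, f13, f14, f15, H⟩ :=
    H th' K0 del rD dd be g L u0 hth' hK0 hdel hrD hdd hbe hbe8 hg hL hu0
  refine ⟨th, hB, Kc, Q1, Qe, Qw, c', Pe, Pw, a, j1, j2, f1, f2, f3, f4, f5, f6, f7, f8, f9, f10, f11, f12, f13, f14, f15,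
    fun Kw gx G' hKw hgx hG' => ?_⟩
  obtain ⟨K, Kx, ellw, p, Q, k₁, e1, e2, e3, e4, hp, hQ, hk₁, H⟩ := H Kw gx G' hKw hgx hG'
  refine ⟨K, Kx, ellw, p, Q, k₁, e1, e2, e3, e4, hp, hQ, hk₁, fun k hk nM T nB hnM hTT hnB => ?_⟩
  obtain ⟨r, r0, r1, r2, H⟩ := H k hk nM T nB hnM hTT hnB
  refine ⟨r, r0, r1, r2, fun b u t hu ht hsep hset => ?_⟩
  obtain ⟨SA, SB, a1, a2, a3, a4, a5, a6, a7⟩ := H b u t hu ht hsep hset
  refine ⟨SA, SB, a1, a2, a3, a4, a5, a6, fun z η hη => ?_⟩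
  obtain ⟨g1, g2, A, m1, m2⟩ := a7 z η hη
  exact ⟨g1, g2, A, m1, fun hB' => (m2 hB').2⟩

end

end Pool.Agent.W_7d29a1_C1.B26
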