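import Pool.Agent.W_7d29a1_C1.FreCR20
import Pool.Agent.W_7d29a1_C1.BufZ26

/-!
MP_7d29a1_pr, [C1] THE BUFFER OF THE FRESH BALL, SECOND FORM, over `In` only (helper20). Do not import this file in a leaf: state the
leaf under `FrC026` (or `RkP26`, `TslP26`). With it `freRZ20 h (frC0In20 h)` and `freCZ20 h (frC0In20 h)` are theorems over `In`.
-/

set_option autoImplicit false

namespace Pool.Agent.W_7d29a1_C1.B26

open MeasureTheory
open Pool.Agent.W_7d29a1_H Pool.Agent.W_7d29a1_HS

variable {μ : Measure ℝ} {s c C : ℝ} {n₀ : ℕ}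

/-- **THE BUFFER OF THE FRESH BALL, SECOND FORM, over `In` only.** -/
theorem frC0In20 [IsProbabilityMeasure μ] (h : In μ s c C n₀) : FrC026 μ s c := frC0R20 h (rkP26 h) (tslP26 h)

end Pool.Agent.W_7d29a1_C1.B26
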