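import Pool.Agent.W_7d29a1_C1.FreCZ20
import Pool.Agent.W_7d29a1_C1.FrcQ20
import Pool.Agent.W_7d29a1_C1.FrcF35
import Pool.Agent.W_7d29a1_C1.FrcB3

/-!
MP_7d29a1_pr, [C1] THE BUFFER OF THE FRESH BALL, SECOND FORM: `FrC026` from `In`, `RkP26`, `TslP26` (assembly of `stI20`, `stF26`,
`stC26`, `frC026`; helper20). Leaves: state over `RkP26`, `TslP26` and import this file.
-/

set_option autoImplicit false

namespace Pool.Agent.W_7d29a1_C1.B26

open MeasureTheory
open Pool.Agent.W_7d29a1_H Pool.Agent.W_7d29a1_HS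

variable {μ : Measure ℝ} {s c C : ℝ} {n₀ : ℕ}

/-- **THE BUFFER OF THE FRESH BALL, SECOND FORM, base 0.** -/
theorem frC0R20 [IsProbabilityMeasure μ] (h : In μ s c C n₀) (hR : RkP26 μ s) (hT : TslP26 μ s c) : FrC026 μ s c :=
  frC026 h (stI20 h hR hT) (stF26 h hT) (stC26 h)

end Pool.Agent.W_7d29a1_C1.B26
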