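import Pool.Agent.W_7d29a1_C1.SeaL12

/-!
MP_7d29a1_pr, [C1] attractor route, SHELL, fresh ball, P1: **the numbers of `seamA12`** in units of `E`. (helper12)

`σ` : cards `≤ exp (σ E)`; `2 ≤ exp (ν E)` and `1 + p ≤ exp (ν E)`; `φ` : price of the force; `d` : balance in the cells; `ε` : one step of
the ascent; `q₁` : tameness and weight at the starts; `q₂`, `b₂` : tameness and weights of the large window; `g` : the cross ratio; `gf` : the
far mass; `G` : the walls; `m` : the envelope of the last two parts; `gp` : the displacement to leave the window of the seam.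
-/

set_option autoImplicit false

namespace Pool.Agent.W_7d29a1_C1.S12

open Finset

noncomputable section

/-- The numbers. -/
structure Num12 (E g σ ν φ d ε q₁ q₂ b₂ g₁ gf G v k₅ k₀ m gp : ℝ) : Prop where
  E0 : 0 < E
  far1 : σ + q₁ + g₁ + 3 * ν + k₀ + φ ≤ gf
  far2 : q₁ + v + φ + 2 * ν + k₅ ≤ gf
  wal1 : 2 * σ + q₂ + 2 * b₂ + 2 * φ + 5 * ν + g₁ ≤ G
  wal2 : 3 * σ + 2 * q₂ + 2 * b₂ + v + 2 * φ + 5 * ν + k₅ + m ≤ G
  gap : 2 * σ + 2 * q₂ + 2 * b₂ + v + φ + 3 * ν + k₅ + m ≤ gp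
  tun : (g₁ + 2 * σ + 10 * ν + 6 * φ + 3 * d + ε) * E ≤ g / 2

variable {E g σ ν φ d ε q₁ q₂ b₂ g₁ gf G v k₅ k₀ m gp : ℝ}

theorem two_ex (h : 2 ≤ Real.exp (ν * E)) (a : ℝ) : 2 * Real.exp (a - ν * E) ≤ Real.exp a := by
  have h1 := mul_le_mul_of_nonneg_right h (Real.exp_pos (a - ν * E)).le
  rw [← Real.exp_add] at h1
  refine h1.trans (le_of_eq ?_)
  congr 1
  ring

theorem four_ex (h : 2 ≤ Real.exp (ν * E)) (a : ℝ) : 4 * Real.exp (a - 2 * ν * E) ≤ Real.exp a := by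
  have h1 := two_ex h a
  have h2 := two_ex h (a - ν * E)
  have e : a - ν * E - ν * E = a - 2 * ν * E := by ring
  rw [e] at h2
  linarith

/-- **n1, n2.** -/
theorem n1_12 (N : Num12 E g σ ν φ d ε q₁ q₂ b₂ g₁ gf G v k₅ k₀ m gp) {cd K : ℝ} (hcd : cd ≤ Real.exp (σ * E))
    (hK : Real.exp (-((φ + ν) * E)) ≤ K) :
    cd * Real.exp (-(gf * E) + q₁ * E) ≤ Real.exp (-((g₁ + 2 * ν) * E)) * (Real.exp (-(k₀ * E)) * K) := by
  have h1 := mul_le_mul_of_nonneg_right hcd (Real.exp_pos (-(gf * E) + q₁ * E)).le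
  refine h1.trans (le_trans ?_ (mul_le_mul_of_nonneg_left (mul_le_mul_of_nonneg_left hK (Real.exp_pos (-(k₀ * E))).le)
    (Real.exp_pos (-((g₁ + 2 * ν) * E))).le))
  rw [← Real.exp_add, ← Real.exp_add, ← Real.exp_add]
  refine Real.exp_le_exp.2 ?_
  have h2 := mul_le_mul_of_nonneg_right N.far1 N.E0.le
  linarith

/-- **n3, n4.** -/
theorem n3_12 (N : Num12 E g σ ν φ d ε q₁ q₂ b₂ g₁ gf G v k₅ k₀ m gp) (hν : 2 ≤ Real.exp (ν * E)) {W P₂ Q₂ : Finset ℤ}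
    {K dl ep : ℝ} (hW : (W.card : ℝ) ≤ Real.exp (σ * E)) (hP : (P₂.card : ℝ) ≤ Real.exp (σ * E)) (hQ : (Q₂.card : ℝ) ≤ Real.exp (σ * E))
    (hK : Real.exp (-((φ + ν) * E)) ≤ K) (hdl0 : 0 ≤ dl) (hdl : dl ≤ Real.exp ((3 * ν + 2 * φ + d) * E)) (hep0 : 0 ≤ ep)
    (hep : ep ≤ Real.exp ((2 * ν + φ - G) * E)) :
    e2c W P₂ Q₂ K (Real.exp (q₂ * E + 2 * (b₂ * E))) dl ep (Real.exp (-((g₁ + 2 * ν) * E)))
      (Real.exp ((2 * d + 5 * ν + 4 * φ) * E + ε * E - g / 2)) ≤ Real.exp (-(g₁ * E)) := by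
  have hE := N.E0
  have hK0 : 0 < K := (Real.exp_pos _).trans_le hK
  have x0 := Real.exp_pos (σ * E)
  have t1 : (P₂.card : ℝ) * Q₂.card * (dl * Real.exp ((2 * d + 5 * ν + 4 * φ) * E + ε * E - g / 2)) ≤
      Real.exp (-(g₁ * E) - 2 * ν * E) := by
    have h1 : (P₂.card : ℝ) * Q₂.card ≤ Real.exp (σ * E) * Real.exp (σ * E) := mul_le_mul hP hQ (Nat.cast_nonneg _) x0.le
    have h2 := mul_le_mul_of_nonneg_right hdl (Real.exp_pos ((2 * d + 5 * ν + 4 * φ) * E + ε * E - g / 2)).le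
    refine (mul_le_mul h1 h2 (mul_nonneg hdl0 (Real.exp_pos _).le) (by positivity)).trans ?_
    rw [← Real.exp_add, ← Real.exp_add, ← Real.exp_add]
    refine Real.exp_le_exp.2 ?_
    have := N.tun
    linarith
  have t2 : (W.card : ℝ) * Q₂.card * (Real.exp (q₂ * E + 2 * (b₂ * E)) * ep) / K ≤ Real.exp (-(g₁ * E) - 2 * ν * E) := by
    rw [div_le_iff₀ hK0]
    have h1 : (W.card : ℝ) * Q₂.card ≤ Real.exp (σ * E) * Real.exp (σ * E) := mul_le_mul hW hQ (Nat.cast_nonneg _) x0.le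
    have h2 := mul_le_mul_of_nonneg_left hep (Real.exp_pos (q₂ * E + 2 * (b₂ * E))).le
    refine (mul_le_mul h1 h2 (mul_nonneg (Real.exp_pos _).le hep0) (by positivity)).trans
      (le_trans ?_ (mul_le_mul_of_nonneg_left hK (Real.exp_pos (-(g₁ * E) - 2 * ν * E)).le))
    rw [← Real.exp_add, ← Real.exp_add, ← Real.exp_add, ← Real.exp_add]
    refine Real.exp_le_exp.2 ?_
    have := mul_le_mul_of_nonneg_right N.wal1 hE.le
    linarith
  have t3 : Real.exp (-((g₁ + 2 * ν) * E)) = Real.exp (-(g₁ * E) - 2 * ν * E) := by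
    congr 1
    ring
  have t4 := four_ex hν (-(g₁ * E))
  have t5 := Real.exp_pos (-(g₁ * E) - 2 * ν * E)
  unfold e2c
  rw [t3]
  linarith

/-- **n5, n6.** -/
theorem n5_12 (N : Num12 E g σ ν φ d ε q₁ q₂ b₂ g₁ gf G v k₅ k₀ m gp) (hν : 2 ≤ Real.exp (ν * E)) {cW cW' cY K K₅ ep : ℝ}
    (hW0 : 0 ≤ cW') (hW : cW ≤ Real.exp (σ * E)) (hW' : cW' ≤ Real.exp (σ * E)) (hY : cY ≤ Real.exp (σ * E))
    (hK : Real.exp (-((φ + ν) * E)) ≤ K) (hK₅ : Real.exp (-(k₅ * E)) ≤ K₅) (hep0 : 0 ≤ ep)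
    (hep : ep ≤ Real.exp ((2 * ν + φ - G) * E)) (hY0 : 0 ≤ cY) {gap : ℝ} (hgap : gp * E ≤ gap) :
    Real.exp (-(gf * E) + q₁ * E) + cW * cW' * (Real.exp (q₂ * E + 2 * (b₂ * E)) * Real.exp (q₂ * E) *
      (cY * (ep * Real.exp (m * E)) + Real.exp (-gap) * Real.exp (m * E))) ≤ Real.exp (-(v * E)) * (K * K₅) := by
  have hE := N.E0
  have x0 := Real.exp_pos (σ * E)
  -- the level of the right side
  obtain ⟨Y, hY1⟩ : ∃ Y : ℝ, Y = -((v + φ + ν + k₅) * E) := ⟨_, rfl⟩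
  have hR : Real.exp Y ≤ Real.exp (-(v * E)) * (K * K₅) := by
    have h1 : Real.exp (-((φ + ν) * E)) * Real.exp (-(k₅ * E)) ≤ K * K₅ :=
      mul_le_mul hK hK₅ (Real.exp_pos _).le ((Real.exp_pos _).le.trans hK)
    refine le_trans (le_of_eq ?_) (mul_le_mul_of_nonneg_left h1 (Real.exp_pos (-(v * E))).le)
    rw [← Real.exp_add, ← Real.exp_add, hY1]
    congr 1
    ring
  have hfar : Real.exp (-(gf * E) + q₁ * E) ≤ Real.exp (Y - ν * E) := by
    refine Real.exp_le_exp.2 ?_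
    have := mul_le_mul_of_nonneg_right N.far2 hE.le
    rw [hY1]
    linarith
  have hb1 : cY * (ep * Real.exp (m * E)) ≤ Real.exp (σ * E) * (Real.exp ((2 * ν + φ - G) * E) * Real.exp (m * E)) :=
    mul_le_mul hY (mul_le_mul_of_nonneg_right hep (Real.exp_pos _).le) (mul_nonneg hep0 (Real.exp_pos _).le) x0.le
  have hb2 : Real.exp (-gap) * Real.exp (m * E) ≤ Real.exp (-(gp * E)) * Real.exp (m * E) :=
    mul_le_mul_of_nonneg_right (Real.exp_le_exp.2 (by linarith)) (Real.exp_pos _).le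
  have hcc : cW * cW' ≤ Real.exp (σ * E) * Real.exp (σ * E) := mul_le_mul hW hW' hW0 x0.le
  have hbb : cY * (ep * Real.exp (m * E)) + Real.exp (-gap) * Real.exp (m * E) ≤
      Real.exp (Y - 2 * ν * E - (2 * σ + 2 * q₂ + 2 * b₂) * E) + Real.exp (Y - 2 * ν * E - (2 * σ + 2 * q₂ + 2 * b₂) * E) := by
    refine add_le_add (hb1.trans ?_) (hb2.trans ?_)
    · rw [← Real.exp_add, ← Real.exp_add]
      refine Real.exp_le_exp.2 ?_
      have := mul_le_mul_of_nonneg_right N.wal2 hE.le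
      rw [hY1]
      linarith
    · rw [← Real.exp_add]
      refine Real.exp_le_exp.2 ?_
      have := mul_le_mul_of_nonneg_right N.gap hE.le
      rw [hY1]
      linarith
  have hbb0 : 0 ≤ cY * (ep * Real.exp (m * E)) + Real.exp (-gap) * Real.exp (m * E) := by positivity
  have hnear : cW * cW' * (Real.exp (q₂ * E + 2 * (b₂ * E)) * Real.exp (q₂ * E) *
      (cY * (ep * Real.exp (m * E)) + Real.exp (-gap) * Real.exp (m * E))) ≤ 2 * Real.exp (Y - 2 * ν * E) := by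
    have h1 := mul_le_mul hcc (mul_le_mul_of_nonneg_left hbb (show 0 ≤ Real.exp (q₂ * E + 2 * (b₂ * E)) * Real.exp (q₂ * E) by positivity))
      (mul_nonneg (by positivity) hbb0) (by positivity)
    refine h1.trans (le_of_eq ?_)
    rw [← two_mul]
    have e1 : Real.exp (σ * E) * Real.exp (σ * E) * (Real.exp (q₂ * E + 2 * (b₂ * E)) * Real.exp (q₂ * E) *
        (2 * Real.exp (Y - 2 * ν * E - (2 * σ + 2 * q₂ + 2 * b₂) * E))) =
        2 * (Real.exp (σ * E) * Real.exp (σ * E) * (Real.exp (q₂ * E + 2 * (b₂ * E)) * Real.exp (q₂ * E) *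
        Real.exp (Y - 2 * ν * E - (2 * σ + 2 * q₂ + 2 * b₂) * E))) := by ring
    rw [e1, ← Real.exp_add, ← Real.exp_add, ← Real.exp_add, ← Real.exp_add]
    congr 2
    ring
  have t1 := two_ex hν Y
  have t2 := four_ex hν Y
  linarith

end

end Pool.Agent.W_7d29a1_C1.S12
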