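import Pool.Agent.W_7d29a1_C1.FreL12
import Pool.Agent.W_7d29a1_C1.FreN12
import Pool.Agent.W_7d29a1_C1.EnA12
import Pool.Agent.W_7d29a1_C1.Loc31

/-!
MP_7d29a1_pr, [C1] attractor route, SHELL, fresh ball, P1: **DATA OF THE BLOCK (`DW31`) + THE EVENT OF P1 ⇒ SeamIn**, deterministic.
(helper12)

`Rest12` : the rest of the ball (envelope `kp` of the inside, `K5` = last part, `G` = future at its first row, slope `ph`) and the weights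
`θ` of the edge row. `seamF12` : with the starts `Sta12` and the lanes (`lanes12`) of the slab `(i, i + T]`, SeamIn at the row
`i + T + 1`, off part `exp (- v E)`, tuning `exp (- g₁ E)`.
-/

set_option autoImplicit false

namespace Pool.Agent.W_7d29a1_C1.S12

open Finset
open Pool.Agent.W_7d29a1_F (Env Pt)
open Pool.Agent.W_7d29a1_C1.K91P (fw fw_nonneg)
open Pool.Agent.W_7d29a1_C1.K91 (wt wt_pos)
open Pool.Agent.W_7d29a1_C1.FarW89 (nk nk_nonneg nk_eq_zero)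
open Pool.Agent.W_7d29a1_C1.FarK89 (gr gr_nonneg gr_one_le gr_mono AQ AQ_nonneg)
open Pool.Agent.W_7d29a1_C1.D31 (DW31 En31 kap31 kap31_nonneg le_kap31 comp31 near31 k031)

noncomputable section

/-- One more step, off the reachable pairs. -/
theorem st12_eq_zero {μ : MeasureTheory.Measure ℝ} {s h : ℝ} {η : Env} {p : ℕ → ℝ} {M : ℕ} (i T : ℕ) (q : ℝ) {x y : ℤ}
    (hxy : ¬ (x ≤ y ∧ y ≤ x + T + 1)) : st12 (nk μ s h η p M i T) q x y = 0 := by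
  unfold st12
  rw [nk_eq_zero i T (fun h1 => hxy ⟨h1.1, by omega⟩), nk_eq_zero i T (fun h1 => hxy ⟨by omega, by omega⟩), mul_zero, add_zero]

theorem card_win {I : Finset ℤ} {cen Wr : ℝ} (h : 0 ≤ Wr) : ((win I cen Wr).card : ℝ) ≤ 2 * Wr + 1 := by
  have h1 : win I cen Wr ⊆ Icc ⌈cen - Wr⌉ ⌊cen + Wr⌋ := fun x hx => by
    have h2 := abs_le.1 (mem_win.1 hx).2
    exact mem_Icc.2 ⟨Int.ceil_le.2 (by linarith), Int.le_floor.2 (by linarith)⟩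
  have h2 : ((win I cen Wr).card : ℝ) ≤ ((Icc ⌈cen - Wr⌉ ⌊cen + Wr⌋).card : ℝ) := by exact_mod_cast card_le_card h1
  refine h2.trans ?_
  rw [Int.card_Icc]
  rcases le_total 0 (⌊cen + Wr⌋ + 1 - ⌈cen - Wr⌉) with h4 | h4
  · have h5 : (((⌊cen + Wr⌋ + 1 - ⌈cen - Wr⌉).toNat : ℤ) : ℝ) = ((⌊cen + Wr⌋ + 1 - ⌈cen - Wr⌉ : ℤ) : ℝ) := by
      rw [Int.toNat_of_nonneg h4]
    rw [Int.cast_natCast] at h5
    rw [h5]
    push_cast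
    have h6 := Int.floor_le (cen + Wr)
    have h7 := Int.le_ceil (cen - Wr)
    linarith
  · rw [Int.toNat_of_nonpos h4]
    simp only [Nat.cast_zero]
    linarith

/-- **The rest of the ball.** `c₁ + c₂ + c₃ + c₄ ≤ c` : the slopes of the envelopes; `Qk`, `S` : level of the envelope `kap31` of the ball;
`bθ` : weights of the edge row; `n₂`, `n₃` : number of rows of the inside and of the last part. -/
structure Rest12 (P : ℕ) (c c₁ c₂ c₃ c₄ E w Qk S : ℝ) (lo hi h' : ℤ) (cen cS cen' : ℝ) (T Nn n₂ n₃ : ℕ) (θ ℓ₂ : ℤ → ℝ)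
    (kp K5 : ℤ → ℤ → ℝ) (S₂ : Finset ℤ) (F G ph : ℤ → ℝ) (mp yp : ℤ) (bθ Q₁ Q₂ Q₃ s₂ s₃ k₅ : ℝ) (Cl : Finset ℤ) : Prop where
  E0 : 0 < E
  w0 : 0 < w
  c1 : 0 < c₁
  c2 : 0 ≤ c₂
  c3 : 0 ≤ c₃
  c4 : 0 ≤ c₄
  cc : c₁ + c₂ + c₃ + c₄ ≤ c
  bθ0 : 0 ≤ bθ
  Q : bθ + Q₁ + Q₂ + Q₃ ≤ Qk
  Ss : 1 + s₂ + s₃ ≤ S
  hh : h' ≤ hi
  en2 : En31 P c c₂ E w Q₂ s₂ (fun y => (y : ℝ) - cS) ℓ₂ kp (Icc lo h') S₂
  en3 : En31 P c c₂ E w Q₃ s₃ ℓ₂ (fun z => (z : ℝ) - cen') K5 S₂ (Icc lo hi)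
  hθ : ∀ x ∈ Icc lo hi, θ x ≤ Real.exp (bθ * gr P (|(x : ℝ) - cen| / w) * E)
  cut2 : ∀ y z : ℤ, ¬ (y ≤ z ∧ z ≤ y + n₂) → kp y z = 0
  cut3 : ∀ z z' : ℤ, ¬ (z ≤ z' ∧ z' ≤ z + n₃) → K5 z z' = 0
  N : T + 1 + n₂ + n₃ ≤ Nn
  pI : yp ∈ Icc lo hi
  reach : ∀ y ∈ Cl, y ≤ yp ∧ yp ≤ y + n₂ + n₃
  mS : mp ∈ S₂
  k5 : Real.exp (-(k₅ * E)) ≤ K5 mp yp
  hG : ∀ z ∈ S₂, G z = ∑ z' ∈ Icc lo hi, K5 z z' * F z'
  hph : ∀ y ∈ Icc lo h' \ Cl, ph y * G mp ≤ ∑ z ∈ S₂, kp y z * G z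

/-- **P1 : SeamIn.** -/
theorem seamF12 {μ : MeasureTheory.Measure ℝ} {s h : ℝ} {η : Env} {p : ℕ → ℝ} {M i T Nn n₂ n₃ P : ℕ} {l r : ℤ → ℝ} {lo hi h' : ℤ}
    {c c₁ c₂ c₃ c₄ E w Qk S cen cS cen' : ℝ} {ℓ₂ : ℤ → ℝ} {kp K5 : ℤ → ℤ → ℝ} {S₂ : Finset ℤ} {F G ph : ℤ → ℝ} {mp yp yl yr : ℤ}
    {bθ Q₁ Q₂ Q₃ s₂ s₃ σ k₅ ω₁ ω₁' ω₂ W₂ b₁ b₂ Λ Ky g q₁ q₂ gf ν φ d ε g₁ Gw v u t₂ qq dl ep : ℝ} {A₁ A₂ B₁ B₂ : ℤ} {r₀ kk : ℕ}
    (hp : ∀ k, 0 < p k) (l0 : ∀ y, 0 ≤ l y) (r0 : ∀ y, 0 ≤ r y) (hlo : ∀ y, y < lo → l y = 0 ∧ r y = 0) (F0 : ∀ z, 0 ≤ F z)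
    (hR : Rest12 P c c₁ c₂ c₃ c₄ E w Qk S lo hi h' cen cS cen' T Nn n₂ n₃ (wt η i) ℓ₂ kp K5 S₂ F G ph mp yp bθ Q₁ Q₂ Q₃ s₂ s₃ k₅
      (Icc (B₁ - r₀) (B₁ + r₀ + 1) ∪ Icc (B₂ - r₀) (B₂ + r₀ + 1)))
    (en1 : En31 P c c₂ E w Q₁ 1 (fun x => (x : ℝ) - cen) (fun y => (y : ℝ) - cS) (st12 (nk μ s h η p M i T) (p (i + T))) (Icc lo hi)
      (Icc lo h'))
    (D : DW31 (Icc lo hi) cen cen' (ω₁ * w) (ω₁' * w) W₂ (kap31 P c₁ c₃ Qk S E w cen cen' Nn) yl yr yp g (q₁ * E) (q₂ * E)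
      (gf * E) (fw (wt η) p l i) (fw (wt η) p r i) F)
    (St : Sta12 (Icc lo hi) cen (ω₁ * w) (ω₁' * w) (fw (wt η) p l i) (fw (wt η) p r i) (wt η i) yl yr A₁ A₂ r₀ kk u t₂ (ε * E) g qq)
    (h11 : ω₁ ≤ ω₁') (h12 : ω₁' * w ≤ W₂) (h22 : W₂ ≤ ω₂ * w) (h2Λ : ω₂ ≤ Λ)
    (θ₁ : ∀ x ∈ win (Icc lo hi) cen (ω₁' * w), Real.exp (-(b₁ * E)) ≤ wt η i x)
    (θ₂ : ∀ x ∈ win (Icc lo hi) cen W₂, Real.exp (-(b₂ * E)) ≤ wt η i x ∧ wt η i x ≤ Real.exp (b₂ * E))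
    (hdl : dl ≤ Real.exp ((3 * ν + 2 * φ + d) * E)) (hep : ep ≤ Real.exp ((2 * ν + φ - Gw) * E))
    (hLn : Ln12 (st12 (nk μ s h η p M i T) (p (i + T))) (Icc lo hi) (Icc lo h') (win (Icc lo hi) cen W₂)
      (win (Icc lo h') cS (Λ * w)) (Icc (A₁ - r₀) (A₁ + r₀)) (Icc (A₂ - r₀) (A₂ + r₀)) (Icc (B₁ - r₀) (B₁ + r₀ + 1))
      (Icc (B₂ - r₀) (B₂ + r₀ + 1)) A₁ A₂ B₁ B₂ dl ep)
    (lv1 : Real.exp (-((φ + ν) * E)) ≤ st12 (nk μ s h η p M i T) (p (i + T)) A₁ B₁)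
    (lv2 : Real.exp (-((φ + ν) * E)) ≤ st12 (nk μ s h η p M i T) (p (i + T)) A₂ B₂)
    (ht : |Real.log (st12 (nk μ s h η p M i T) (p (i + T)) A₁ B₁) - Real.log (st12 (nk μ s h η p M i T) (p (i + T)) A₂ B₂) -
      (u - t₂) / 2| ≤ (2 * d + 5 * ν + 4 * φ) * E)
    (hν : 2 ≤ Real.exp (ν * E)) (hΛ0 : 0 ≤ ω₂) (hcw : 2 * (Λ * w) + 1 ≤ Real.exp (σ * E))
    (hKy : ∀ y ∈ Icc (B₁ - r₀) (B₁ + r₀ + 1) ∪ Icc (B₂ - r₀) (B₂ + r₀ + 1), |(y : ℝ) - cS| ≤ Ky * w)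
    (N : Num12 E g σ ν φ d ε (q₁ + b₁) q₂ b₂ g₁ gf Gw v k₅ (c₃ * (ω₁ + Ky)) (Qk * gr P (AQ P c₁ Qk + Λ) + S) (c₄ * (Λ - ω₂))) :
    Sh21.SeamIn lo h' (fw (wt η) p l (i + T + 1)) (fw (wt η) p r (i + T + 1)) (B₁ - r₀) (B₁ + r₀ + 1) (B₂ - r₀) (B₂ + r₀ + 1) ph
      (Real.exp (-(v * E))) (Real.exp (-(g₁ * E))) := by
  classical
  obtain ⟨K, hK⟩ : ∃ K : ℤ → ℤ → ℝ, K = st12 (nk μ s h η p M i T) (p (i + T)) := ⟨_, rfl⟩
  have K0x : ∀ x y : ℤ, ¬ (x ≤ y ∧ y ≤ x + T + 1) → K x y = 0 := fun x y hxy => by rw [hK]; exact st12_eq_zero i T _ hxy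
  have hal : ∀ {m : ℤ → ℝ}, (∀ y, y < lo → m y = 0) → ∀ y ∈ Icc lo h', fw (wt η) p m (i + T + 1) y =
      Lam12 μ s h M i T * push (Icc lo hi) K (fun x => fw (wt η) p m i x * wt η i x) y := fun hm y hy => by
    rw [hK]
    exact real12S hm hR.hh i T hy
  rw [← hK] at en1 hLn lv1 lv2 ht
  have hE := hR.E0
  have hw := hR.w0
  have hEw : 0 < E / w := div_pos hE hw
  have wpos : ∀ x, 0 < wt η i x := fun x => wt_pos η i x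
  have hω1 : ω₁ * w ≤ ω₁' * w := mul_le_mul_of_nonneg_right h11 hw.le
  have hω2 : ω₁' * w ≤ W₂ := h12
  have hωΛ : W₂ ≤ Λ * w := h22.trans (mul_le_mul_of_nonneg_right h2Λ hw.le)
  have hd : (0 : ℤ) ≤ r₀ := by positivity
  have mA1 : A₁ ∈ win (Icc lo hi) cen (ω₁' * w) := St.w1 A₁ (by rw [sub_self, abs_zero]; exact hd)
  have mA2 : A₂ ∈ win (Icc lo hi) cen (ω₁' * w) := St.w2 A₂ (by rw [sub_self, abs_zero]; exact hd)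
  have oL := oneL D.dp (fw_nonneg (wt_pos η) hp l0 i) F0 (D.yl1.trans (hω1.trans hω2)) hR.pI (D.yp1.trans (hω1.trans hω2))
  have oR := oneR D.dp (fw_nonneg (wt_pos η) hp r0 i) F0 (D.yr1.trans (hω1.trans hω2)) hR.pI (D.yp1.trans (hω1.trans hω2))
  have hstart : ∀ {X : ℤ → ℝ} {y A : ℤ}, (∀ x, 0 ≤ X x) → A ∈ win (Icc lo hi) cen (ω₁' * w) → X y ≤ Real.exp (q₁ * E) * X A →
      X y ≤ Real.exp ((q₁ + b₁) * E) * (X A * wt η i A) := fun {X y A} hX hA h1 => by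
    have h2 := θ₁ A hA
    have h3 : 1 ≤ Real.exp (b₁ * E) * wt η i A := by
      have h4 := mul_le_mul_of_nonneg_left h2 (Real.exp_pos (b₁ * E)).le
      rw [← Real.exp_add, add_neg_cancel, Real.exp_zero] at h4
      exact h4
    have h5 : Real.exp (q₁ * E) * X A * 1 ≤ Real.exp (q₁ * E) * X A * (Real.exp (b₁ * E) * wt η i A) :=
      mul_le_mul_of_nonneg_left h3 (mul_nonneg (Real.exp_pos _).le (hX _))
    have h6 : Real.exp ((q₁ + b₁) * E) = Real.exp (q₁ * E) * Real.exp (b₁ * E) := by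
      rw [← Real.exp_add]
      congr 1
      ring
    rw [h6]
    linarith
  -- the ball
  have en1w := wt12 en1 hR.bθ0 (fun x => (wpos x).le) hR.hθ
  have comp : ∀ x ∈ Icc lo hi, ∀ z' ∈ Icc lo hi, ∑ y ∈ Icc lo h' \ (Icc (B₁ - (r₀ : ℤ)) (B₁ + r₀ + 1) ∪ Icc (B₂ - (r₀ : ℤ)) (B₂ + r₀ + 1)),
      K x y * (∑ z ∈ S₂, kp y z * K5 z z') ≤ kap31 P c₁ c₃ Qk S E w cen cen' Nn x z' / wt η i x := by
    intro x hx z' hz'
    rw [le_div_iff₀ (wpos x), mul_comm, mul_sum]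
    have h1 := comp31 hE hw hR.c2 en1w hR.en2 hR.en3 hR.c1 hR.c3 (by linarith [hR.cc, hR.c4]) hR.Q hR.Ss
      (sdiff_subset : Icc lo h' \ (Icc (B₁ - (r₀ : ℤ)) (B₁ + r₀ + 1) ∪ Icc (B₂ - (r₀ : ℤ)) (B₂ + r₀ + 1)) ⊆ Icc lo h') x hx z' hz'
    refine le_kap31 (fun hreach => sum_eq_zero fun y _ => ?_) (le_trans (le_of_eq (sum_congr rfl fun y _ => by ring)) h1)
    by_cases h2 : x ≤ y ∧ y ≤ x + T + 1
    · have h3 : ∑ z ∈ S₂, kp y z * K5 z z' = 0 := sum_eq_zero fun z _ => by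
        by_cases h4 : y ≤ z ∧ z ≤ y + n₂
        · rw [hR.cut3 z z' (fun h5 => hreach ⟨by omega, by
            have := hR.N
            omega⟩), mul_zero]
        · rw [hR.cut2 y z h4, zero_mul]
      rw [h3, mul_zero, mul_zero]
    · rw [K0x x y h2, zero_mul, mul_zero]
  have near := near31 (Q := Qk) (S := S) (c₁ := c₁) (Λ := Λ) (D := (Λ - ω₂) * w) (WZ := win (Icc lo hi) cen' W₂) hLn hE hw hR.c2 en1 hR.en2 hR.en3 hR.c1 hR.c4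
    (by linarith [hR.cc, hR.c3]) (by linarith [hR.Q, hR.bθ0]) hR.Ss win_sub
    (fun x hx y hy => by
      rw [mem_sdiff] at hy
      have h1 : Λ * w < |(y : ℝ) - cS| := by
        by_contra hcon
        exact hy.2 (mem_win.2 ⟨hy.1, not_lt.1 hcon⟩)
      have h2 := (mem_win.1 hx).2
      have h3 := abs_sub_abs_le_abs_sub ((y : ℝ) - cS) ((x : ℝ) - cen)
      linarith)
    (fun x hx => (mem_win.1 hx).2.trans hωΛ) (fun y hy => (mem_win.1 hy).2)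
  have hκ₀ : c₃ * (E / w) * ((ω₁ + Ky) * w) = c₃ * (ω₁ + Ky) * E := by field_simp
  have hgap : c₄ * (E / w) * ((Λ - ω₂) * w) = c₄ * (Λ - ω₂) * E := by field_simp
  have cov : ∀ x ∈ Icc lo hi, ∀ y ∈ Icc (B₁ - (r₀ : ℤ)) (B₁ + r₀ + 1) ∪ Icc (B₂ - (r₀ : ℤ)) (B₂ + r₀ + 1),
      K x y * Real.exp (-(c₃ * (ω₁ + Ky) * E)) ≤ kap31 P c₁ c₃ Qk S E w cen cen' Nn x yp / wt η i x := by
    intro x hx y hy
    rw [le_div_iff₀ (wpos x)]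
    have hyJ : y ∈ Icc lo h' := by
      rcases mem_union.1 hy with h1 | h1
      · exact hLn.WJ (hLn.Q1 h1)
      · exact hLn.WJ (hLn.Q2 h1)
    have h1 := k031 (D := (ω₁ + Ky) * w) (ℓ₃ := fun z : ℤ => (z : ℝ) - cen') (yp := yp) (c₁ := c₁) (c₃ := c₃) (Q := Qk) (S := S) hE hw
      en1w (by linarith [hR.Q, hR.en2.q0, hR.en3.q0]) (by linarith [hR.Ss, hR.en2.s0, hR.en3.s0]) hR.c3
      (by linarith [hR.cc, hR.c1, hR.c2, hR.c4]) (Q₂ := {y}) (singleton_subset_iff.2 hyJ)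
      (fun y' hy' => by
        rw [mem_singleton] at hy'
        subst hy'
        have h2 := D.yp1
        have h3 := hKy y' hy
        have h4 := abs_sub ((yp : ℝ) - cen') ((y' : ℝ) - cS)
        linarith) x hx y (mem_singleton_self y)
    rw [hκ₀] at h1
    refine le_kap31 (fun hreach => ?_) (le_trans (le_of_eq (by ring)) h1)
    by_cases h2 : x ≤ y ∧ y ≤ x + T + 1
    · have h3 := hR.reach y hy
      have h4 := hR.N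
      exact absurd ⟨by omega, by omega⟩ hreach
    · rw [K0x x y h2, zero_mul, zero_mul]
  -- the numbers
  have hW20 : 0 ≤ W₂ := (abs_nonneg _).trans (D.yl1.trans (hω1.trans hω2))
  have cardW : ∀ {A I : Finset ℤ} {cn : ℝ}, A ⊆ win I cn W₂ → (A.card : ℝ) ≤ Real.exp (σ * E) := fun {A I cn} hA => by
    have h1 : (A.card : ℝ) ≤ (win I cn W₂).card := by exact_mod_cast card_le_card hA
    have h2 := card_win (I := I) (cen := cn) (Wr := W₂) hW20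
    linarith
  have cY : ((win (Icc lo h') cS (Λ * w)).card : ℝ) ≤ Real.exp (σ * E) := by
    have h2 := card_win (I := Icc lo h') (cen := cS) (Wr := Λ * w) (mul_nonneg (hΛ0.trans h2Λ) hw.le)
    linarith
  have cQ1 : ((Icc (B₁ - (r₀ : ℤ)) (B₁ + r₀ + 1)).card : ℝ) ≤ Real.exp (σ * E) :=
    le_trans (by exact_mod_cast card_le_card hLn.Q1) cY
  have cQ2 : ((Icc (B₂ - (r₀ : ℤ)) (B₂ + r₀ + 1)).card : ℝ) ≤ Real.exp (σ * E) :=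
    le_trans (by exact_mod_cast card_le_card hLn.Q2) cY
  have cP1 := cardW hLn.P1
  have cP2 := cardW hLn.P2
  have cW := cardW (subset_refl (win (Icc lo hi) cen W₂))
  have cW' := cardW (subset_refl (win (Icc lo hi) cen' W₂))
  have hu : ∀ x ∈ Icc (A₂ - (r₀ : ℤ)) (A₂ + r₀), fw (wt η) p l i x * wt η i x ≤ Real.exp u * (fw (wt η) p l i A₁ * wt η i A₁) :=
    fun x hx => St.uL x (by
      rw [mem_Icc] at hx
      rw [abs_le]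
      constructor <;> linarith [hx.1, hx.2])
  have hv : ∀ x ∈ Icc (A₁ - (r₀ : ℤ)) (A₁ + r₀), fw (wt η) p r i x * wt η i x ≤ Real.exp t₂ * (fw (wt η) p r i A₂ * wt η i A₂) :=
    fun x hx => St.vR x (by
      rw [mem_Icc] at hx
      rw [abs_le]
      constructor <;> linarith [hx.1, hx.2])
  have hdom := tuned12 hLn.k1 hLn.k2 St.uv ht
  have K5p : 0 < K5 mp yp := (Real.exp_pos _).trans_le hR.k5
  refine seamA12 (K := K) (θ := wt η i) (b := b₂ * E) (q₁ := (q₁ + b₁) * E) (u := u) (v := t₂)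
    (th := Real.exp ((2 * d + 5 * ν + 4 * φ) * E + ε * E - g / 2)) (κ₀ := Real.exp (-(c₃ * (ω₁ + Ky) * E)))
    (ef' := Real.exp (-((g₁ + 2 * ν) * E))) oL oR hLn ?_ ?_ hu hv hdom.1 hdom.2 wpos θ₂ ?_ comp near kap31_nonneg (Real.exp_pos _) cov
    hR.hG hR.en3.k0 hR.mS K5p (Real.exp_pos _).le (Real.exp_pos _).le ?_ ?_ ?_ ?_ ?_ ?_ (Lam12_pos M i T)
    (hal fun y hy => (hlo y hy).1) (hal fun y hy => (hlo y hy).2) hR.hph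
  · exact hstart (fw_nonneg (wt_pos η) hp l0 i) mA1 (D.t1L yl A₁ (D.yl1.trans hω1) (mem_win.1 mA1).2)
  · exact hstart (fw_nonneg (wt_pos η) hp r0 i) mA2 (D.t1R yr A₂ (D.yr1.trans hω1) (mem_win.1 mA2).2)
  · have := hLn.ep0
    positivity
  · exact n1_12 N cQ2 lv1
  · exact n1_12 N cQ1 lv2
  · exact n3_12 N hν cW cP2 cQ2 lv1 hLn.dl0 hdl hLn.ep0 hep
  · exact n3_12 N hν cW cP1 cQ1 lv2 hLn.dl0 hdl hLn.ep0 hep
  · exact n5_12 N hν (Nat.cast_nonneg _) cW cW' cY lv1 hR.k5 hLn.ep0 hep (Nat.cast_nonneg _) hgap.ge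
  · exact n5_12 N hν (Nat.cast_nonneg _) cW cW' cY lv2 hR.k5 hLn.ep0 hep (Nat.cast_nonneg _) hgap.ge

end

end Pool.Agent.W_7d29a1_C1.S12
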