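import Pool.Agent.W_7d29a1_C1.ExC24
import Pool.Agent.W_7d29a1_C1.FarK89

/-!
MP_7d29a1_pr, [C1] SHELL, E4 (helper24): THE EXIT. Two blocks `exit24`, at `(e, a)` and at `(e + n, a')`, `a'` within one width of the
line, as one event of the rows `e < . ≤ e + n + n`. `XD24`: the properties of both blocks and of the whole kernel: slopes, lower half
from the one site `a`, off the start cell; `en`, `ofe`: the same with the growth `gr` of the levels (form of `En31`).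
-/

set_option autoImplicit false

namespace Pool.Agent.W_7d29a1_C1.P24

open MeasureTheory ProbabilityTheory Filter Topology Finset
open Pool.Agent.W_7d29a1_F Pool.Agent.W_7d29a1_h4g Pool.Agent.W_7d29a1_H Pool.Agent.W_7d29a1_HS
open Pool.Agent.W_7d29a1_C1
open Pool.Agent.W_7d29a1_C1.CR76 Pool.Agent.W_7d29a1_C1.Basin76
open Pool.Agent.W_7d29a1_C1.U16 (fq16 fq16_one)
open Pool.Agent.W_7d29a1_C1.FarK89 (gr gr_nonneg gr_one_le)

noncomputable section

/-! ### Deterministic lemmas -/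

section det

variable {k k' K : ℤ → ℤ → ℝ} {ca cb cd w E U U' β h G κ q q' L a' : ℝ} {P : ℕ}

theorem EK24.mono (H : EK24 k ca cb w E κ q P) (hE : 0 ≤ E) (hq : q ≤ q') : EK24 k ca cb w E κ q' P := by
  intro y y'
  refine (H y y').trans (Real.exp_le_exp.2 ?_)
  have h1 := fq16_one P (|(y : ℝ) - ca| / w + 1)
  have h2 := mul_le_mul_of_nonneg_right (mul_le_mul_of_nonneg_right hq (by linarith : 0 ≤ fq16 P (|(y : ℝ) - ca| / w + 1))) hE
  linarith

theorem dist_center (hw : 0 < w) (hc : |a' - cb| ≤ w) (y : ℝ) : |y - a'| / w ≤ |y - cb| / w + 1 := by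
  have h1 : |y - a'| ≤ |y - cb| + w := by
    have h2 := abs_sub (y - cb) (a' - cb)
    have e : y - cb - (a' - cb) = y - a' := by ring
    rw [e] at h2
    linarith
  calc |y - a'| / w ≤ (|y - cb| + w) / w := div_le_div_of_nonneg_right h1 hw.le
    _ = |y - cb| / w + 1 := by rw [add_div, div_self hw.ne']

/-- Another center of the row. -/
theorem EK24.center (H : EK24 k a' (a' + L) w E κ q P) (hw : 0 < w) (hE : 0 ≤ E) (hq : 0 ≤ q) (hc : |a' - cb| ≤ w) :
    EK24 k cb (cb + L) w E κ ((1 + Real.log 2) ^ P * q) P := by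
  intro y y'
  refine (H y y').trans (Real.exp_le_exp.2 ?_)
  have e : ((y' : ℝ) - (a' + L)) - ((y : ℝ) - a') = ((y' : ℝ) - (cb + L)) - ((y : ℝ) - cb) := by ring
  rw [e]
  have h1 := dist_center hw hc (y : ℝ)
  have x0 : 0 ≤ |(y : ℝ) - a'| / w := by positivity
  have x1 : 0 ≤ |(y : ℝ) - cb| / w := by positivity
  have h2 := fq16_scale (A := 2) (by norm_num) P (u := |(y : ℝ) - cb| / w + 1) (v := |(y : ℝ) - a'| / w + 1) (by linarith)
    (by linarith) (by linarith)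
  have h3 := mul_le_mul_of_nonneg_right (mul_le_mul_of_nonneg_left h2 hq) hE
  have e2 : q * ((1 + Real.log 2) ^ P * fq16 P (|(y : ℝ) - cb| / w + 1)) * E =
    (1 + Real.log 2) ^ P * q * fq16 P (|(y : ℝ) - cb| / w + 1) * E := by ring
  rw [e2] at h3
  linarith

theorem Sl24.center (H : Sl24 k a' (a' + L) w E U β h) (hw : 0 < w) (hE : 0 ≤ E) (hβ : 0 ≤ β) (hc : |a' - cb| ≤ w) :
    Sl24 k cb (cb + L) w E (U + β) β h := by
  intro y y'
  refine (H y y').trans (Real.exp_le_exp.2 (mul_le_mul_of_nonneg_right ?_ hE))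
  have e : ((y' : ℝ) - (a' + L)) - ((y : ℝ) - a') = ((y' : ℝ) - (cb + L)) - ((y : ℝ) - cb) := by ring
  rw [e]
  have h1 := mul_le_mul_of_nonneg_left (dist_center hw hc (y : ℝ)) hβ
  linarith

theorem Of24.center {R : ℤ → Prop} (H : Of24 k (fun y _ => R y) a' (a' + L) w E G β h) (hw : 0 < w) (hE : 0 ≤ E) (hβ : 0 ≤ β)
    (hc : |a' - cb| ≤ w) : Of24 k (fun y _ => R y) cb (cb + L) w E (G - β) β h := by
  intro y y' hy
  refine (H y y' hy).trans (Real.exp_le_exp.2 (mul_le_mul_of_nonneg_right ?_ hE))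
  have e : ((y' : ℝ) - (a' + L)) - ((y : ℝ) - a') = ((y' : ℝ) - (cb + L)) - ((y : ℝ) - cb) := by ring
  rw [e]
  have h1 := mul_le_mul_of_nonneg_left (dist_center hw hc (y : ℝ)) hβ
  linarith

/-- **Composition of two kernels with slopes.** -/
theorem comp_sl {β₀ β₁ h₀ h₁ : ℝ} (hw : 0 < w) (hE : 0 ≤ E) (hβ₁ : 0 ≤ β₁) (hh : 0 ≤ h)
    (e1 : h + β₁ ≤ h₀) (e2 : h ≤ h₁) (n1 : ∀ v z, 0 ≤ k' v z)
    (H0 : Sl24 k ca cb w E U β₀ h₀) (H1 : Sl24 k' cb cd w E U' β₁ h₁)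
    (hK : ∀ v z : ℤ, ∃ S : Finset ℤ, (S.card : ℝ) ≤ Real.exp E ∧ K v z ≤ ∑ y ∈ S, k v y * k' y z) :
    Sl24 K ca cd w E (U + U' + 1) (β₀ + β₁) h := by
  intro v z
  have H : Of24 k (fun v _ => True) ca cb w E (-U) β₀ h₀ := fun v y _ => by
    rw [neg_neg]
    exact H0 v y
  have g := comp_off (K := K) (z := z) hw hE hβ₁ hh e1 e2 n1 H H1 (fun v => hK v z) v trivial
  have e : -(-U - U' - 1) = U + U' + 1 := by ring
  rw [e] at g
  exact g

/-- **Composition of two envelopes.** -/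
theorem comp_EK (hw : 0 < w) (hE : 0 ≤ E) (hq : 0 ≤ q) (n1 : ∀ v z, 0 ≤ k' v z) (hκ : 0 ≤ κ)
    (hc : ∀ u v : ℝ, 0 ≤ u → 0 ≤ v → q * fq16 P (u + 1) + q * fq16 P (u + v + 1) - κ * v + 1 ≤ q' * fq16 P (u + 1) - κ / 2 * v)
    (H0 : EK24 k ca cb w E κ q P) (H1 : EK24 k' cb cd w E κ q P)
    (hK : ∀ v z : ℤ, ∃ S : Finset ℤ, (S.card : ℝ) ≤ Real.exp E ∧ K v z ≤ ∑ y ∈ S, k v y * k' y z) :
    EK24 K ca cd w E (κ / 2) q' P := by
  intro v z
  obtain ⟨S, hS, hKS⟩ := hK v z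
  refine hKS.trans ?_
  obtain ⟨u, hu⟩ : ∃ u : ℝ, u = |(v : ℝ) - ca| / w := ⟨_, rfl⟩
  have hu0 : 0 ≤ u := by rw [hu]; positivity
  have h1 : ∀ y ∈ S, k v y * k' y z ≤
      Real.exp (q' * fq16 P (u + 1) * E - κ / 2 * E * (|((z : ℝ) - cd) - ((v : ℝ) - ca)| / w) - E) := by
    intro y _
    refine (mul_le_mul (H0 v y) (H1 y z) (n1 y z) (Real.exp_pos _).le).trans ?_
    rw [← Real.exp_add, ← hu]
    refine Real.exp_le_exp.2 ?_
    obtain ⟨v1, hv1⟩ : ∃ x : ℝ, x = |((y : ℝ) - cb) - ((v : ℝ) - ca)| / w := ⟨_, rfl⟩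
    obtain ⟨v2, hv2⟩ : ∃ x : ℝ, x = |((z : ℝ) - cd) - ((y : ℝ) - cb)| / w := ⟨_, rfl⟩
    obtain ⟨v3, hv3⟩ : ∃ x : ℝ, x = |((z : ℝ) - cd) - ((v : ℝ) - ca)| / w := ⟨_, rfl⟩
    have p1 : 0 ≤ v1 := by rw [hv1]; positivity
    have p2 : 0 ≤ v2 := by rw [hv2]; positivity
    have t1 : |(y : ℝ) - cb| / w ≤ u + v1 := by
      rw [hu, hv1, ← add_div]
      refine div_le_div_of_nonneg_right ?_ hw.le
      have := abs_add_le ((v : ℝ) - ca) (((y : ℝ) - cb) - ((v : ℝ) - ca))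
      rwa [add_sub_cancel] at this
    have t2 : v3 ≤ v1 + v2 := by
      rw [hv1, hv2, hv3, ← add_div]
      refine div_le_div_of_nonneg_right ?_ hw.le
      have := abs_add_le (((y : ℝ) - cb) - ((v : ℝ) - ca)) (((z : ℝ) - cd) - ((y : ℝ) - cb))
      rwa [show (y : ℝ) - cb - ((v : ℝ) - ca) + ((z : ℝ) - cd - ((y : ℝ) - cb)) = (z : ℝ) - cd - ((v : ℝ) - ca) by ring] at this
    rw [← hv1, ← hv2, ← hv3]
    have g1 : fq16 P (|(y : ℝ) - cb| / w + 1) ≤ fq16 P (u + v1 + 1) := by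
      refine fq_mono' ?_ (by linarith)
      have : 0 ≤ |(y : ℝ) - cb| / w := by positivity
      linarith
    have g2 := mul_le_mul_of_nonneg_right (mul_le_mul_of_nonneg_left g1 hq) hE
    have g3 := mul_le_mul_of_nonneg_right (hc u v1 hu0 p1) hE
    have g4 : κ / 2 * E * v3 ≤ κ / 2 * E * (v1 + v2) := mul_le_mul_of_nonneg_left t2 (by positivity)
    have g5 : 0 ≤ κ / 2 * E * v2 := by positivity
    nlinarith
  refine (sum_le_card_nsmul _ _ _ h1).trans ?_
  rw [nsmul_eq_mul]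
  refine (mul_le_mul_of_nonneg_right hS (Real.exp_pos _).le).trans ?_
  rw [← Real.exp_add, ← hu]
  exact Real.exp_le_exp.2 (by linarith)

/-- The envelope in the letters of `En31`. -/
theorem en_of_EK (H : EK24 k ca cb w E κ q P) (hw : 0 < w) (hE : 0 ≤ E) (hq : 0 ≤ q) (v z : ℤ) :
    k v z ≤ Real.exp ((1 + Real.log 2) ^ P * q * gr (P + 1) (|(v : ℝ) - ca| / w) * E -
      κ * (E / w) * |((z : ℝ) - cb) - ((v : ℝ) - ca)|) := by
  refine (H v z).trans (Real.exp_le_exp.2 ?_)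
  have x0 : 0 ≤ |(v : ℝ) - ca| / w := by positivity
  have h2 := fq16_scale (A := 2) (by norm_num) P (u := |(v : ℝ) - ca| / w) (v := |(v : ℝ) - ca| / w + 1) x0
    (by linarith) (by linarith)
  have hl := log_nn24 x0
  have h3 : fq16 P (|(v : ℝ) - ca| / w) ≤ gr (P + 1) (|(v : ℝ) - ca| / w) := by
    unfold fq16 gr
    rw [abs_of_nonneg x0]
    exact pow_le_pow_right₀ (by linarith) (Nat.le_succ P)
  have hA : 0 ≤ (1 + Real.log 2) ^ P := by
    have := Real.log_nonneg (show (1 : ℝ) ≤ 2 by norm_num)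
    positivity
  have h4 := mul_le_mul_of_nonneg_right (mul_le_mul_of_nonneg_left (h2.trans (mul_le_mul_of_nonneg_left h3 hA)) hq) hE
  have e1 : q * ((1 + Real.log 2) ^ P * gr (P + 1) (|(v : ℝ) - ca| / w)) * E =
    (1 + Real.log 2) ^ P * q * gr (P + 1) (|(v : ℝ) - ca| / w) * E := by ring
  have e2 : κ * E * (|((z : ℝ) - cb) - ((v : ℝ) - ca)| / w) = κ * (E / w) * |((z : ℝ) - cb) - ((v : ℝ) - ca)| := by ring
  rw [e1] at h4
  rw [e2]
  linarith

/-- **Off the start cell with the growth of the levels.** -/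
theorem ofe24 {R : ℤ → Prop} {G' β' h' κ' : ℝ} (hw : 0 < w) (hE : 0 ≤ E) (hq : 0 ≤ q) (hκ : κ' ≤ κ) (hκ' : κ' ≤ h')
    (hβ' : 0 ≤ β') (hGG : G + β' * Real.exp G ≤ G')
    (H : ∀ v z : ℤ, k v z ≤ Real.exp (q * gr (P + 1) (|(v : ℝ) - ca| / w) * E - κ * (E / w) * |((z : ℝ) - cb) - ((v : ℝ) - ca)|))
    (H' : Of24 k (fun v _ => R v) ca cb w E G' β' h') (v z : ℤ) (hv : R v) :
    k v z ≤ Real.exp (-(G * E)) * Real.exp ((q + 1) * gr (P + 1) (|(v : ℝ) - ca| / w) * E -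
      κ' * (E / w) * |((z : ℝ) - cb) - ((v : ℝ) - ca)|) := by
  rw [← Real.exp_add]
  have x0 : 0 ≤ |(v : ℝ) - ca| / w := by positivity
  have hl := log_nn24 x0
  have hg1 := gr_one_le (P + 1) x0
  have hd : 0 ≤ (E / w) * |((z : ℝ) - cb) - ((v : ℝ) - ca)| := by positivity
  rcases le_total (|(v : ℝ) - ca| / w) (Real.exp G) with h1 | h1
  · refine (H' v z hv).trans (Real.exp_le_exp.2 ?_)
    have g1 := mul_le_mul_of_nonneg_left h1 hβ'
    have g2 : (-G' + β' * (|(v : ℝ) - ca| / w)) * E ≤ -G * E := mul_le_mul_of_nonneg_right (by linarith) hE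
    have g3 := mul_le_mul_of_nonneg_right hκ' hd
    have e2 : h' * (|((z : ℝ) - cb) - ((v : ℝ) - ca)| / w) * E = h' * ((E / w) * |((z : ℝ) - cb) - ((v : ℝ) - ca)|) := by ring
    have g4 : 0 ≤ (q + 1) * gr (P + 1) (|(v : ℝ) - ca| / w) * E := by positivity
    nlinarith
  · refine (H v z).trans (Real.exp_le_exp.2 ?_)
    have g1 : G ≤ gr (P + 1) (|(v : ℝ) - ca| / w) := by
      have g2 : G ≤ Real.log (1 + |(v : ℝ) - ca| / w) := by
        rw [Real.le_log_iff_exp_le (by positivity)]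
        linarith
      have g3 : (1 + Real.log (1 + |(v : ℝ) - ca| / w)) ≤ gr (P + 1) (|(v : ℝ) - ca| / w) := by
        unfold gr
        exact le_self_pow₀ (by linarith) (Nat.succ_ne_zero P)
      linarith
    have g2 := mul_le_mul_of_nonneg_right g1 hE
    have g3 := mul_le_mul_of_nonneg_right hκ hd
    nlinarith

end det

/-! ### The exit -/

variable {μ : Measure ℝ} {s c C : ℝ} {n₀ : ℕ}

theorem XO24.mono {η : Env} {b : Pt} {n T m' : ℕ} {e : ℤ} {ρ U U' β β' h G G' K K' ε : ℝ} (H : XO24 μ s η b n T m' e ρ U β h G K ε)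
    (hw : 0 < wd μ s n) (hE : 0 ≤ EE μ s n) (h1 : U ≤ U') (h2 : β ≤ β') (h3 : G' ≤ G) (h5 : K' ≤ K) :
    XO24 μ s η b n T m' e ρ U' β' h G' K' ε := by
  have h4 : Real.exp (-(U' * EE μ s n)) ≤ Real.exp (-(U * EE μ s n)) := by
    refine Real.exp_le_exp.2 ?_
    have := mul_le_mul_of_nonneg_right h1 hE
    linarith
  have h6 := mul_le_mul_of_nonneg_right h5 hw.le
  exact ⟨H.upF.mono hw hE h1 h2 le_rfl, H.upR.mono hw hE h1 h2 le_rfl, H.upA.mono hw hE h1 h2 le_rfl, h4.trans H.loF,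
    fun y hy z hz => h4.trans (H.loR y hy z hz), fun z hz => h4.trans (H.loA z hz), H.offF.mono hw hE h3 h2 le_rfl,
    H.offA.mono hw hE h3 h2 le_rfl, fun y hy y' hy' z z' hz hz' => H.rk y hy y' hy' z z' (hz.trans h6) (hz'.trans h6)⟩

/-- **The start cell**: from every start in the cell the kernel is below the kernel from the center, up to a factor of the level and a part
which does not pass the cells. -/
theorem cell24 {η : Env} {e a a' e1 : ℤ} {n T m' : ℕ} {ρ U U₂ β h h' G K ε : ℝ} (X : XO24 μ s η (e, a) n T m' e1 ρ U β h G K ε)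
    (hn : n = T + m') (hw : 1 ≤ wd μ s n) (hE : 1 ≤ EE μ s n) (hcard : (n : ℝ) + 1 ≤ Real.exp (EE μ s n))
    (hcρ : 2 * ρ + 1 ≤ Real.exp (EE μ s n)) (h2E : 2 ≤ Real.exp (EE μ s n)) (hβ : 0 ≤ β) (hU₂ : 0 ≤ U₂)
    (hρ0 : 0 ≤ ρ) (hρw : ρ ≤ 2 * wd μ s n) (hK : 3 ≤ K) (hε : ε ≤ 1) (hh' : 0 ≤ h') (hbh : h' + 2 * β ≤ h)
    (ce : |(e1 : ℝ) - (a + sl μ s * T)| ≤ 1) (haa : |(a' : ℝ) - (a + sl μ s * n)| ≤ wd μ s n)
    (up2 : Sl24 (kW μ s η (e + n) n) (a + sl μ s * n) (a + sl μ s * n + sl μ s * n) (wd μ s n) (EE μ s n) U₂ β h)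
    (of2 : Of24 (kW μ s η (e + n) n) (fun y _ => ¬ |(y : ℝ) - a'| ≤ ρ) (a + sl μ s * n) (a + sl μ s * n + sl μ s * n) (wd μ s n)
      (EE μ s n) G β h) {v : ℤ} (hv : |(v : ℝ) - a| ≤ ρ) (z : ℤ) :
    kW μ s η e (n + n) v z ≤ Real.exp ((4 * U + 5 * β + 2) * EE μ s n) * kW μ s η e (n + n) a z +
      Real.exp ((-(G - U - U₂ - 6 * β - 4)) * EE μ s n) *
        Real.exp (-(h' * (EE μ s n / wd μ s n) * |((z : ℝ) - (a + sl μ s * n + sl μ s * n)) - ((v : ℝ) - a)|)) := by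
  obtain ⟨E, hEd⟩ : ∃ x : ℝ, x = EE μ s n := ⟨_, rfl⟩
  obtain ⟨w, hwd⟩ : ∃ x : ℝ, x = wd μ s n := ⟨_, rfl⟩
  rw [← hEd] at hE hcard hcρ h2E up2 of2 ⊢
  rw [← hwd] at hw hρw haa up2 of2 ⊢
  have hw0 : 0 < w := by linarith
  have hE0 : 0 ≤ E := by linarith
  have nF : ∀ x y, 0 ≤ kW μ s η e T x y := fun x y => kW_nonneg η e T x y
  have nR : ∀ x y, 0 ≤ kW μ s η (e + T) m' x y := fun x y => kW_nonneg η (e + T) m' x y
  have nA : ∀ x y, 0 ≤ kW μ s η e n x y := fun x y => kW_nonneg η e n x y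
  have nB : ∀ x y, 0 ≤ kW μ s η (e + n) n x y := fun x y => kW_nonneg η (e + n) n x y
  have hvw : |(v : ℝ) - a| / w ≤ 2 := by
    rw [div_le_iff₀ hw0]
    linarith
  have hv0 : 0 ≤ |(v : ℝ) - a| / w := by positivity
  have hvβ : β * (|(v : ℝ) - a| / w) ≤ 2 * β := by nlinarith
  have upF : Sl24 (kW μ s η e T) a (a + sl μ s * T) w E U β h := by rw [hwd, hEd]; exact X.upF
  have upR : Sl24 (kW μ s η (e + T) m') (a + sl μ s * T) (a + sl μ s * n) w E U β h := by rw [hwd, hEd]; exact X.upR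
  have upA : Sl24 (kW μ s η e n) a (a + sl μ s * n) w E U β h := by rw [hwd, hEd]; exact X.upA
  have ofF : Of24 (kW μ s η e T) (fun v y => ¬ (|(v : ℝ) - a| ≤ ρ ∧ |(y : ℝ) - e1| ≤ ρ)) a (a + sl μ s * T) w E G β h := by
    rw [hwd, hEd]
    exact X.offF
  have two : ∀ x y, kW μ s η e n x y = ∑ u ∈ Icc x (x + T) ∪ Ce24 e1 ρ, kW μ s η e T x u * kW μ s η (e + T) m' u y := by
    intro x y
    have := kW_two (μ := μ) (s := s) η e T m' x y (Icc x (x + T) ∪ Ce24 e1 ρ) subset_union_left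
    rw [← hn] at this
    exact this
  have loF : Real.exp (-(U * E)) ≤ kW μ s η e T a e1 := by rw [hEd]; exact X.loF
  -- the part through the two cells
  have main : ∀ y ∈ Ce24 a' ρ, ∑ u ∈ Ce24 e1 ρ, kW μ s η e T v u * kW μ s η (e + T) m' u y ≤
      Real.exp ((4 * U + 5 * β + 2) * E) * kW μ s η e n a y := by
    intro y hy
    have hy' := mem_Ce24.1 hy
    have hy2 : |(y : ℝ) - (a + sl μ s * n)| ≤ 3 * w := by
      have g := abs_add_le ((y : ℝ) - a') ((a' : ℝ) - (a + sl μ s * n))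
      rw [sub_add_sub_cancel] at g
      linarith
    have hKw : 3 * w ≤ K * w := mul_le_mul_of_nonneg_right hK hw0.le
    have hce1 : e1 ∈ Ce24 e1 ρ := mem_Ce24.2 (by rw [sub_self, abs_zero]; exact hρ0)
    have t1 : ∀ u ∈ Ce24 e1 ρ, kW μ s η e T v u * kW μ s η (e + T) m' u y ≤
        Real.exp ((4 * U + 5 * β + 1) * E) * (kW μ s η e T a e1 * kW μ s η (e + T) m' e1 y) := by
      intro u hu
      have hu' := mem_Ce24.1 hu
      -- the lane
      have g1 : kW μ s η e T v u ≤ Real.exp ((2 * U + 2 * β) * E) * kW μ s η e T a e1 := by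
        have g2 := upF v u
        have g3 : kW μ s η e T v u ≤ Real.exp ((U + 2 * β) * E) := by
          refine g2.trans (Real.exp_le_exp.2 (mul_le_mul_of_nonneg_right ?_ hE0))
          have g4 : 0 ≤ h * (|((u : ℝ) - (a + sl μ s * T)) - ((v : ℝ) - a)| / w) := by
            have : 0 ≤ h := by linarith
            positivity
          linarith
        calc kW μ s η e T v u ≤ Real.exp ((U + 2 * β) * E) := g3
          _ = Real.exp ((2 * U + 2 * β) * E) * Real.exp (-(U * E)) := by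
              rw [← Real.exp_add]
              congr 1
              ring
          _ ≤ _ := mul_le_mul_of_nonneg_left loF (Real.exp_pos _).le
      -- rank one
      have g5 := X.rk u hu e1 hce1 y a' (by rw [← hwd]; linarith) (by rw [← hwd]; linarith)
      have g6 : Real.exp (-(U * E)) ≤ kW μ s η (e + T) m' e1 a' := by
        rw [hEd]
        exact X.loR e1 hce1 a' (by rw [← hwd]; show |(a' : ℝ) - (a + sl μ s * n)| ≤ 2 * w; linarith)
      have g7 : kW μ s η (e + T) m' u a' ≤ Real.exp ((U + 3 * β) * E) := by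
        refine (upR u a').trans (Real.exp_le_exp.2 (mul_le_mul_of_nonneg_right ?_ hE0))
        have g8 : |(u : ℝ) - (a + sl μ s * T)| / w ≤ 3 := by
          rw [div_le_iff₀ hw0]
          have g := abs_add_le ((u : ℝ) - e1) ((e1 : ℝ) - (a + sl μ s * T))
          rw [sub_add_sub_cancel] at g
          linarith
        have g9 : 0 ≤ h * (|((a' : ℝ) - (a + sl μ s * n)) - ((u : ℝ) - (a + sl μ s * T))| / w) := by
          have : 0 ≤ h := by linarith
          positivity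
        have g10 := mul_le_mul_of_nonneg_left g8 hβ
        linarith
      have g11 : kW μ s η (e + T) m' u y ≤ Real.exp ((2 * U + 3 * β + 1) * E) * kW μ s η (e + T) m' e1 y := by
        have g12 : kW μ s η (e + T) m' u y * Real.exp (-(U * E)) ≤
            Real.exp E * (Real.exp ((U + 3 * β) * E) * kW μ s η (e + T) m' e1 y) := by
          calc kW μ s η (e + T) m' u y * Real.exp (-(U * E)) ≤ kW μ s η (e + T) m' u y * kW μ s η (e + T) m' e1 a' :=
                mul_le_mul_of_nonneg_left g6 (nR _ _)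
            _ ≤ (1 + ε) * (kW μ s η (e + T) m' u a' * kW μ s η (e + T) m' e1 y) := g5
            _ ≤ Real.exp E * (Real.exp ((U + 3 * β) * E) * kW μ s η (e + T) m' e1 y) :=
                mul_le_mul (by linarith) (mul_le_mul_of_nonneg_right g7 (nR _ _)) (mul_nonneg (nR _ _) (nR _ _)) (Real.exp_pos _).le
        have g13 := mul_le_mul_of_nonneg_left g12 (Real.exp_pos (U * E)).le
        have e1' : Real.exp (U * E) * (kW μ s η (e + T) m' u y * Real.exp (-(U * E))) = kW μ s η (e + T) m' u y := by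
          rw [mul_comm (kW μ s η (e + T) m' u y), ← mul_assoc, ← Real.exp_add, add_neg_cancel, Real.exp_zero, one_mul]
        rw [e1'] at g13
        refine g13.trans (le_of_eq ?_)
        rw [← mul_assoc, ← mul_assoc, ← Real.exp_add, ← Real.exp_add]
        congr 2
        ring
      calc kW μ s η e T v u * kW μ s η (e + T) m' u y
          ≤ (Real.exp ((2 * U + 2 * β) * E) * kW μ s η e T a e1) * (Real.exp ((2 * U + 3 * β + 1) * E) * kW μ s η (e + T) m' e1 y) :=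
            mul_le_mul g1 g11 (nR _ _) (mul_nonneg (Real.exp_pos _).le (nF _ _))
        _ = Real.exp ((2 * U + 2 * β) * E) * Real.exp ((2 * U + 3 * β + 1) * E) * (kW μ s η e T a e1 * kW μ s η (e + T) m' e1 y) := by
            ring
        _ = _ := by
            rw [← Real.exp_add]
            congr 2
            ring
    have t2 : kW μ s η e T a e1 * kW μ s η (e + T) m' e1 y ≤ kW μ s η e n a y := by
      rw [two a y]
      exact single_le_sum (f := fun u => kW μ s η e T a u * kW μ s η (e + T) m' u y) (fun u _ => mul_nonneg (nF _ _) (nR _ _))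
        (mem_union_right _ hce1)
    refine (sum_le_card_nsmul _ _ _ t1).trans ?_
    rw [nsmul_eq_mul]
    have t3 : ((Ce24 e1 ρ).card : ℝ) ≤ Real.exp E := (card_Ce24 hρ0 e1).trans hcρ
    calc ((Ce24 e1 ρ).card : ℝ) * (Real.exp ((4 * U + 5 * β + 1) * E) * (kW μ s η e T a e1 * kW μ s η (e + T) m' e1 y))
        ≤ Real.exp E * (Real.exp ((4 * U + 5 * β + 1) * E) * kW μ s η e n a y) :=
          mul_le_mul t3 (mul_le_mul_of_nonneg_left t2 (Real.exp_pos _).le)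
            (mul_nonneg (Real.exp_pos _).le (mul_nonneg (nF _ _) (nR _ _))) (Real.exp_pos _).le
      _ = _ := by
          rw [← mul_assoc, ← Real.exp_add]
          congr 2
          ring
  -- the first block off the cell
  have offA : ∀ y : ℤ, ∑ u ∈ Icc v (v + T) \ Ce24 e1 ρ, kW μ s η e T v u * kW μ s η (e + T) m' u y ≤
      Real.exp ((-G + U + 1 + (β + β) * (|(v : ℝ) - a| / w) - (h - β) * (|((y : ℝ) - (a + sl μ s * n)) - ((v : ℝ) - a)| / w)) * E) := by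
    intro y
    have g1 : ∀ u ∈ Icc v (v + T) \ Ce24 e1 ρ, kW μ s η e T v u * kW μ s η (e + T) m' u y ≤
        Real.exp ((-G + U + (β + β) * (|(v : ℝ) - a| / w) - (h - β) * (|((y : ℝ) - (a + sl μ s * n)) - ((v : ℝ) - a)| / w)) * E) := by
      intro u hu
      have hu' : ¬ |(u : ℝ) - e1| ≤ ρ := fun hc => (mem_sdiff.1 hu).2 (mem_Ce24.2 hc)
      exact (mul_le_mul (ofF v u (fun hc => hu' hc.2)) (upR u y) (nR _ _) (Real.exp_pos _).le).trans
        (two_exp24 hw0 hE0 hβ (by linarith) (by linarith) (by linarith))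
    refine (sum_le_card_nsmul _ _ _ g1).trans ?_
    rw [nsmul_eq_mul]
    have g2 : ((Icc v (v + T) \ Ce24 e1 ρ).card : ℝ) ≤ Real.exp E := by
      have g3 : ((Icc v (v + T) \ Ce24 e1 ρ).card : ℝ) ≤ ((Icc v (v + (T : ℤ))).card : ℝ) := by
        exact_mod_cast card_le_card sdiff_subset
      rw [card_cone24] at g3
      have g4 : (T : ℝ) ≤ n := by
        have : T ≤ n := by omega
        exact_mod_cast this
      linarith
    refine (mul_le_mul_of_nonneg_right g2 (Real.exp_pos _).le).trans ?_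
    rw [← Real.exp_add]
    exact Real.exp_le_exp.2 (by linarith)
  have split1 : ∀ y ∈ Ce24 a' ρ, kW μ s η e n v y ≤ Real.exp ((4 * U + 5 * β + 2) * E) * kW μ s η e n a y +
      Real.exp ((-G + U + 1 + (β + β) * (|(v : ℝ) - a| / w) - (h - β) * (|((y : ℝ) - (a + sl μ s * n)) - ((v : ℝ) - a)| / w)) * E) := by
    intro y hy
    have e1' : Icc v (v + (T : ℤ)) ∪ Ce24 e1 ρ = (Icc v (v + T) \ Ce24 e1 ρ) ∪ Ce24 e1 ρ := by rw [sdiff_union_self_eq_union]
    rw [two v y, e1', sum_union sdiff_disjoint, add_comm]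
    exact add_le_add (main y hy) (offA y)
  -- the two blocks
  have twoB : ∀ x, kW μ s η e (n + n) x z = ∑ y ∈ Icc x (x + n) ∪ Ce24 a' ρ, kW μ s η e n x y * kW μ s η (e + n) n y z := fun x =>
    kW_two (μ := μ) (s := s) η e n n x z (Icc x (x + n) ∪ Ce24 a' ρ) subset_union_left
  obtain ⟨X0, hX0⟩ : ∃ x : ℝ, x = |((z : ℝ) - (a + sl μ s * n + sl μ s * n)) - ((v : ℝ) - a)| / w := ⟨_, rfl⟩
  have eX : h' * (E / w) * |((z : ℝ) - (a + sl μ s * n + sl μ s * n)) - ((v : ℝ) - a)| = h' * X0 * E := by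
    rw [hX0]
    ring
  have hX00 : 0 ≤ X0 := by rw [hX0]; positivity
  rw [eX]
  have c1 : ∀ y ∈ Ce24 a' ρ, kW μ s η e n v y * kW μ s η (e + n) n y z ≤
      Real.exp ((4 * U + 5 * β + 2) * E) * (kW μ s η e n a y * kW μ s η (e + n) n y z) +
      Real.exp ((-G + U + 1 + U₂ + 6 * β - h' * X0) * E) := by
    intro y hy
    have g1 := mul_le_mul_of_nonneg_right (split1 y hy) (nB y z)
    have g2 : Real.exp ((-G + U + 1 + (β + β) * (|(v : ℝ) - a| / w) - (h - β) * (|((y : ℝ) - (a + sl μ s * n)) - ((v : ℝ) - a)| / w)) * E) *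
        kW μ s η (e + n) n y z ≤ Real.exp ((-G + U + 1 + U₂ + 6 * β - h' * X0) * E) := by
      refine (mul_le_mul_of_nonneg_left (up2 y z) (Real.exp_pos _).le).trans ?_
      refine (two_exp24 (h := h') hw0 hE0 hβ hh' (by linarith) (by linarith)).trans (Real.exp_le_exp.2 (mul_le_mul_of_nonneg_right ?_ hE0))
      rw [← hX0]
      nlinarith
    rw [add_mul] at g1
    linarith
  have c2 : ∀ y ∈ Icc v (v + (n : ℤ)) \ Ce24 a' ρ, kW μ s η e n v y * kW μ s η (e + n) n y z ≤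
      Real.exp ((-G + U + 1 + U₂ + 6 * β - h' * X0) * E) := by
    intro y hy
    have hy' : ¬ |(y : ℝ) - a'| ≤ ρ := fun hc => (mem_sdiff.1 hy).2 (mem_Ce24.2 hc)
    refine (mul_le_mul (upA v y) (of2 y z hy') (nB _ _) (Real.exp_pos _).le).trans ?_
    refine (two_exp24 (h := h') hw0 hE0 hβ hh' (by linarith) (by linarith)).trans (Real.exp_le_exp.2 (mul_le_mul_of_nonneg_right ?_ hE0))
    rw [← hX0]
    nlinarith
  have e2' : Icc v (v + (n : ℤ)) ∪ Ce24 a' ρ = (Icc v (v + n) \ Ce24 a' ρ) ∪ Ce24 a' ρ := by rw [sdiff_union_self_eq_union]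
  have hcN : ((Icc v (v + (n : ℤ)) \ Ce24 a' ρ).card : ℝ) ≤ Real.exp E := by
    have g3 : ((Icc v (v + (n : ℤ)) \ Ce24 a' ρ).card : ℝ) ≤ ((Icc v (v + (n : ℤ))).card : ℝ) := by
      exact_mod_cast card_le_card sdiff_subset
    rw [card_cone24] at g3
    linarith
  have hcC : ((Ce24 a' ρ).card : ℝ) ≤ Real.exp E := (card_Ce24 hρ0 a').trans hcρ
  have s1 : ∑ y ∈ Icc v (v + (n : ℤ)) \ Ce24 a' ρ, kW μ s η e n v y * kW μ s η (e + n) n y z ≤
      Real.exp E * Real.exp ((-G + U + 1 + U₂ + 6 * β - h' * X0) * E) := by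
    refine (sum_le_card_nsmul _ _ _ c2).trans ?_
    rw [nsmul_eq_mul]
    exact mul_le_mul_of_nonneg_right hcN (Real.exp_pos _).le
  have s2 : ∑ y ∈ Ce24 a' ρ, kW μ s η e n v y * kW μ s η (e + n) n y z ≤
      Real.exp ((4 * U + 5 * β + 2) * E) * kW μ s η e (n + n) a z + Real.exp E * Real.exp ((-G + U + 1 + U₂ + 6 * β - h' * X0) * E) := by
    refine (sum_le_sum c1).trans ?_
    rw [sum_add_distrib, ← mul_sum, sum_const, nsmul_eq_mul]
    refine add_le_add (mul_le_mul_of_nonneg_left ?_ (Real.exp_pos _).le) (mul_le_mul_of_nonneg_right hcC (Real.exp_pos _).le)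
    rw [twoB a]
    exact sum_le_sum_of_subset_of_nonneg subset_union_right fun y _ _ => mul_nonneg (nA _ _) (nB _ _)
  rw [twoB v, e2', sum_union sdiff_disjoint]
  have s3 : Real.exp E * Real.exp ((-G + U + 1 + U₂ + 6 * β - h' * X0) * E) + Real.exp E * Real.exp ((-G + U + 1 + U₂ + 6 * β - h' * X0) * E) ≤
      Real.exp (-(G - U - U₂ - 6 * β - 4) * E) * Real.exp (-(h' * X0 * E)) := by
    have g1 := mul_le_mul_of_nonneg_right h2E
      (mul_nonneg (Real.exp_pos E).le (Real.exp_pos ((-G + U + 1 + U₂ + 6 * β - h' * X0) * E)).le)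
    have e3 : Real.exp E * (Real.exp E * Real.exp ((-G + U + 1 + U₂ + 6 * β - h' * X0) * E)) ≤
        Real.exp (-(G - U - U₂ - 6 * β - 4) * E) * Real.exp (-(h' * X0 * E)) := by
      rw [← Real.exp_add, ← Real.exp_add, ← Real.exp_add]
      exact Real.exp_le_exp.2 (by linarith)
    linarith
  linarith

/-- **The properties of the exit.** `X1`, `X2`: the two blocks. `up`, `off`, `lo`: the whole kernel. `en`, `ofe`: the whole kernel with the
growth of the levels. -/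
structure XD24 (μ : Measure ℝ) (s : ℝ) (η : Env) (e a a' : ℤ) (n T P : ℕ) (ρ U β h G K ε q κ : ℝ) : Prop where
  X1 : XO24 μ s η (e, a) n T (5 * T) (pt24 μ s (e, a) T) ρ U β h G K ε
  X2 : XO24 μ s η (e + n, a') n T (5 * T) (pt24 μ s (e + n, a') T) ρ U β h G K ε
  up : Sl24 (kW μ s η e (n + n)) a (a + sl μ s * (n + n)) (wd μ s n) (EE μ s n) U β κ
  off : Of24 (kW μ s η e (n + n)) (fun v _ => ¬ |(v : ℝ) - a| ≤ ρ) a (a + sl μ s * (n + n)) (wd μ s n) (EE μ s n) G β κ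
  lo : ∀ z : ℤ, |(z : ℝ) - (a + sl μ s * (n + n))| ≤ wd μ s n → Real.exp (-(U * EE μ s n)) ≤ kW μ s η e (n + n) a z
  cell : ∀ v : ℤ, |(v : ℝ) - a| ≤ ρ → ∀ z : ℤ, kW μ s η e (n + n) v z ≤ Real.exp (U * EE μ s n) * kW μ s η e (n + n) a z +
    Real.exp (-(G * EE μ s n)) * Real.exp (-(κ * (EE μ s n / wd μ s n) * |((z : ℝ) - (a + sl μ s * (n + n))) - ((v : ℝ) - a)|))
  en : ∀ v z : ℤ, kW μ s η e (n + n) v z ≤ Real.exp (q * gr P (|(v : ℝ) - a| / wd μ s n) * EE μ s n -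
    κ * (EE μ s n / wd μ s n) * |((z : ℝ) - (a + sl μ s * (n + n))) - ((v : ℝ) - a)|)
  ofe : ∀ v z : ℤ, ¬ |(v : ℝ) - a| ≤ ρ → kW μ s η e (n + n) v z ≤ Real.exp (-(G * EE μ s n)) *
    Real.exp (q * gr P (|(v : ℝ) - a| / wd μ s n) * EE μ s n -
      κ * (EE μ s n / wd μ s n) * |((z : ℝ) - (a + sl μ s * (n + n))) - ((v : ℝ) - a)|)

/-- **THE EXIT, E4.** -/
theorem freD24 [IsProbabilityMeasure μ] (h : In μ s c C n₀) : ∃ c' : ℝ, 0 < c' ∧ ∀ β ρ₀ : ℝ, 0 < β → 0 < ρ₀ →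
    ∃ (P : ℕ) (d U q : ℝ), 0 < d ∧ d ≤ ρ₀ ∧ d ≤ 1 ∧ 0 ≤ U ∧ 0 ≤ q ∧ ∀ G K : ℝ, 0 ≤ G → 0 ≤ K →
    ∃ (p : ℝ) (Q n₁ : ℕ), 0 < p ∧ 1 ≤ Q ∧ 1 ≤ n₁ ∧ ∀ t : ℕ, n₁ ≤ t → ∀ T n : ℕ, T = Q * t → n = 6 * T → ∀ e a a' : ℤ,
    |(a' : ℝ) - (a + sl μ s * n)| ≤ wd μ s n → ∃ Λ : Set Env, MeasurableSet Λ ∧ On20 (rows e (e + n + n)) Λ ∧ p ≤ (law μ).real Λ ∧
      ∀ η ∈ Λ, XD24 μ s η e a a' n T P (d * wd μ s T) U β (c / 2048) G K (Real.exp (-(n : ℝ) ^ c')) q (c / 4096) ∧
        η ∈ EVR24 μ s (c / 512) n P e (e + n) (e, a) q ∧ η ∈ EVR24 μ s (c / 512) n P (e + n) (e + n + n) (e + n, a') q := by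
  obtain ⟨c', hc', H⟩ := exit24 h
  have h0 := h.c0
  refine ⟨c', hc', fun β ρ₀ hβ hρ₀ => ?_⟩
  obtain ⟨b, hb⟩ : ∃ b : ℝ, b = min (β / 2) (c / 8192) := ⟨_, rfl⟩
  have hb0 : 0 < b := by rw [hb]; exact lt_min (by positivity) (by positivity)
  have hb1 : 2 * b ≤ β := by
    have : b ≤ β / 2 := by rw [hb]; exact min_le_left _ _
    linarith
  have hb2 : b ≤ c / 8192 := by rw [hb]; exact min_le_right _ _
  obtain ⟨P, d, U, q, hd, hdρ, hd1, hU, hq, H⟩ := H b ρ₀ hb0 hρ₀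
  have hlog2 : 0 ≤ Real.log 2 := Real.log_nonneg (by norm_num)
  obtain ⟨qc, hqc⟩ : ∃ x : ℝ, x = (1 + Real.log 2) ^ P * q := ⟨_, rfl⟩
  have hA1 : 1 ≤ (1 + Real.log 2) ^ P := one_le_pow₀ (by linarith)
  have hqqc : q ≤ qc := by
    rw [hqc]
    nlinarith
  have hqc0 : 0 ≤ qc := hq.trans hqqc
  obtain ⟨q', hqq', hcc⟩ := comp_const24 P hqc0 (show 0 < c / 512 by positivity)
  have hq'0 : 0 ≤ q' := hqc0.trans hqq'
  obtain ⟨qe, hqe⟩ : ∃ x : ℝ, x = (1 + Real.log 2) ^ P * q' := ⟨_, rfl⟩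
  have hqe0 : 0 ≤ qe := by rw [hqe]; positivity
  refine ⟨P + 1, d, 4 * U + 5 * b + 2, qe + 1, hd, hdρ, hd1, by positivity, by linarith, fun G K hG hK => ?_⟩
  obtain ⟨G', hG'⟩ : ∃ x : ℝ, x = G + (2 * U + 8 * b + 4) + (b + b) * Real.exp G := ⟨_, rfl⟩
  have hexp := Real.exp_pos G
  have hG'0 : 0 ≤ G' := by rw [hG']; positivity
  have hGG' : G ≤ G' := by
    rw [hG']
    have : 0 ≤ (b + b) * Real.exp G := by positivity
    linarith
  obtain ⟨p, Q, n₁, hp, hQ, hn₁, H⟩ := H G' (max K 3) hG'0 (hK.trans (le_max_left K 3))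
  obtain ⟨nv, hnv⟩ := eventually_atTop.1 (h.tv.eventually_le_const (show (0 : ℝ) < 1 by norm_num))
  obtain ⟨nl, hnl⟩ := lgo h (δ := 1 / 2) (by norm_num)
  obtain ⟨ne, hne⟩ := eventually_atTop.1 (h.tE.eventually_ge_atTop (2 * Real.log 14))
  obtain ⟨nw, hnw⟩ := eventually_atTop.1 ((wd_tendsto h).eventually_ge_atTop 1)
  refine ⟨p * p, Q, n₁ + (nl + ne + nw + nv), by positivity, hQ, by omega, fun t ht T n hT hn e a a' haa => ?_⟩
  have htT : t ≤ T := by rw [hT]; exact Nat.le_mul_of_pos_left t (by omega)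
  have hn1 : 1 ≤ n := by omega
  have hE := EE_pos (μ := μ) (s := s) n
  have hw1 : 1 ≤ wd μ s n := hnw n (by omega)
  have hw : 0 < wd μ s n := by linarith
  have hnR : (1 : ℝ) ≤ n := by exact_mod_cast hn1
  have hcard14 : (14 : ℝ) * n ≤ Real.exp (EE μ s n) := by
    have g1 := hnl n (by omega)
    have g2 := hne n (by omega)
    have g3 : Real.log (14 * n) ≤ EE μ s n := by
      rw [Real.log_mul (by norm_num) (by positivity)]
      linarith
    have g4 := Real.exp_le_exp.2 g3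
    rwa [Real.exp_log (by positivity)] at g4
  have hcard : (n : ℝ) + 1 ≤ Real.exp (EE μ s n) := by linarith
  have hT1 : 1 ≤ T := by omega
  have hTn : T ≤ n := by omega
  have hwT0 : 0 < wd μ s T := wd_pos96 h hT1
  have hwTT : wd μ s T ≤ T := by
    have h1 := hnv T (by omega)
    have h2 : (0 : ℝ) ≤ T := Nat.cast_nonneg T
    have e1 : wd μ s T = T * vA 1 μ s T := rfl
    rw [e1]
    nlinarith
  obtain ⟨ρ, hρ⟩ : ∃ ρ : ℝ, ρ = d * wd μ s T := ⟨_, rfl⟩
  have hρ0 : 0 ≤ ρ := by rw [hρ]; positivity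
  have hρT : ρ ≤ wd μ s T := by rw [hρ]; nlinarith
  have hρw : ρ ≤ 2 * wd μ s n := hρT.trans (Pool.Agent.W_7d29a1_C1.U16.wd_le_two h hT1 hTn)
  have hcρ : 2 * ρ + 1 ≤ Real.exp (EE μ s n) := by
    have h3 : (T : ℝ) ≤ n := by exact_mod_cast hTn
    linarith
  have hE1 : 1 ≤ EE μ s n := one_le_EE n
  have h2E : 2 ≤ Real.exp (EE μ s n) := by
    have := Real.add_one_le_exp (EE μ s n)
    linarith
  obtain ⟨Λ₁, m1, o1, p1, H1⟩ := H t (by omega) T (3 * T) n hT (by omega) (by omega) (by omega) (e, a)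
  obtain ⟨Λ₂, m2, o2, p2, H2⟩ := H t (by omega) T (3 * T) n hT (by omega) (by omega) (by omega) (e + n, a')
  obtain ⟨w1, w2, w3⟩ := indep24 (μ := μ) (r := e) (m := e + n) (h := e + n + n) (by omega) (by omega) o1 o2 m1 m2 hp.le hp.le p1 p2
  refine ⟨Λ₁ ∩ Λ₂, w2, w1, w3, fun η hη => ?_⟩
  obtain ⟨X1, V1⟩ := H1 η hη.1
  obtain ⟨X2, V2⟩ := H2 η hη.2
  have e5 : T + (T + 3 * T) = 5 * T := by ring
  rw [e5, ← hρ] at X1 X2
  rw [← hρ]
  have nn : ∀ v z, 0 ≤ kW μ s η (e + n) n v z := fun v z => kW_nonneg η (e + n) n v z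
  have nn1 : ∀ v z, 0 ≤ kW μ s η e n v z := fun v z => kW_nonneg η e n v z
  have hK : ∀ v z : ℤ, ∃ S : Finset ℤ, (S.card : ℝ) ≤ Real.exp (EE μ s n) ∧
      kW μ s η e (n + n) v z ≤ ∑ y ∈ S, kW μ s η e n v y * kW μ s η (e + n) n y z := fun v z =>
    ⟨Icc v (v + n), by rw [card_cone24]; exact hcard, le_of_eq (kW_two η e n n v z _ (subset_refl _))⟩
  have haa' : |(a' : ℝ) - (a + sl μ s * n)| ≤ wd μ s n := haa
  have eln : (a : ℝ) + sl μ s * n + sl μ s * n = a + sl μ s * (n + n) := by ring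
  -- slopes
  have U1 : Sl24 (kW μ s η e n) a (a + sl μ s * n) (wd μ s n) (EE μ s n) U b (c / 2048) := X1.upA
  have U2 : Sl24 (kW μ s η (e + n) n) (a + sl μ s * n) (a + sl μ s * n + sl μ s * n) (wd μ s n) (EE μ s n) (U + b) b (c / 2048) :=
    Sl24.center (a' := a') X2.upA hw hE.le hb0.le haa'
  have hup := comp_sl (K := kW μ s η e (n + n)) (h := c / 4096) hw hE.le hb0.le (by positivity) (by linarith) (by linarith) nn U1 U2 hK
  rw [eln] at hup
  have hoff : Of24 (kW μ s η e (n + n)) (fun v _ => ¬ |(v : ℝ) - a| ≤ ρ) a (a + sl μ s * (n + n)) (wd μ s n) (EE μ s n)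
      (G' - (U + b) - 1) (b + b) (c / 4096) := by
    intro v z hv
    rw [← eln]
    exact comp_off (K := kW μ s η e (n + n)) (R := fun v => ¬ |(v : ℝ) - a| ≤ ρ) (z := z) hw hE.le hb0.le (by positivity)
      (by linarith) (by linarith) nn X1.offA U2 (fun v => hK v z) v hv
  -- envelopes
  have K1 : EK24 (kW μ s η e n) a (a + sl μ s * n) (wd μ s n) (EE μ s n) (c / 512) q P := by
    have g := EK_of_EVR (T := n) V1 (r := e) le_rfl le_rfl
    have x1 : ((e - ((e, a) : Pt).1 : ℤ) : ℝ) = 0 := by simp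
    have x2 : ((e + n - ((e, a) : Pt).1 : ℤ) : ℝ) = n := by
      show ((e + n - e : ℤ) : ℝ) = n
      push_cast
      ring
    rw [x1, x2, mul_zero, add_zero] at g
    exact g
  have K2 : EK24 (kW μ s η (e + n) n) a' (a' + sl μ s * n) (wd μ s n) (EE μ s n) (c / 512) q P := by
    have g := EK_of_EVR (T := n) V2 (r := e + n) le_rfl le_rfl
    have x1 : ((e + n - ((e + n, a') : Pt).1 : ℤ) : ℝ) = 0 := by simp
    have x2 : ((e + n + n - ((e + n, a') : Pt).1 : ℤ) : ℝ) = n := by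
      show ((e + n + n - (e + n) : ℤ) : ℝ) = n
      push_cast
      ring
    rw [x1, x2, mul_zero, add_zero] at g
    exact g
  have K2c := K2.center hw hE.le hq haa'
  rw [← hqc] at K2c
  have hEK := comp_EK (K := kW μ s η e (n + n)) hw hE.le hqc0 nn (by positivity) hcc (K1.mono hE.le hqqc) K2c hK
  rw [eln] at hEK
  have hen := fun v z => en_of_EK hEK hw hE.le hq'0 v z
  rw [← hqe] at hen
  have hofe := fun v z hv => ofe24 (R := fun v => ¬ |(v : ℝ) - a| ≤ ρ) (κ' := c / 4096) (G := G) hw hE.le hqe0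
    (by linarith) le_rfl (by positivity) (by rw [hG']; linarith) hen hoff v z hv
  have hd0 : ∀ v z : ℤ, 0 ≤ EE μ s n / wd μ s n * |((z : ℝ) - (a + sl μ s * (n + n))) - ((v : ℝ) - a)| := fun v z => by positivity
  have O2 : Of24 (kW μ s η (e + n) n) (fun y _ => ¬ |(y : ℝ) - a'| ≤ ρ) (a + sl μ s * n) (a + sl μ s * n + sl μ s * n) (wd μ s n)
      (EE μ s n) (G' - b) b (c / 2048) := Of24.center (a' := a') X2.offA hw hE.le hb0.le haa'
  have X1' := X1.mono (G' := G' - b) (U' := U) (β' := b) hw hE.le le_rfl le_rfl (by linarith) (le_refl (max K 3))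
  have hce : |(pt24 μ s (e, a) T : ℝ) - (a + sl μ s * T)| ≤ 1 := by
    rw [← sub_sub]
    exact pt24_near (e, a) T
  have hbG : 0 ≤ (b + b) * Real.exp G := by positivity
  have hqe1 : q ≤ qe + 1 := by
    have : q' ≤ qe := by rw [hqe]; nlinarith
    linarith
  refine ⟨⟨X1.mono hw hE.le (by linarith) (by linarith) hGG' (le_max_left K 3),
    X2.mono hw hE.le (by linarith) (by linarith) hGG' (le_max_left K 3), ?_, ?_, ?_, ?_, ?_, ?_⟩,
    EVR24_mono h le_rfl hqe1 n (P + 1) _ _ _ (EVR24_P hq (Nat.le_succ P) _ _ _ V1),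
    EVR24_mono h le_rfl hqe1 n (P + 1) _ _ _ (EVR24_P hq (Nat.le_succ P) _ _ _ V2)⟩
  · exact hup.mono hw hE.le (by linarith) (by linarith) le_rfl
  · exact hoff.mono hw hE.le (by
      rw [hG']
      have : 0 ≤ (b + b) * Real.exp G := by positivity
      linarith) (by linarith) le_rfl
  · intro z hz
    have g1 := X1.loA a' (by
      show |(a' : ℝ) - (a + sl μ s * n)| ≤ 2 * wd μ s n
      linarith)
    have g2 := X2.loA z (by
      show |(z : ℝ) - (a' + sl μ s * n)| ≤ 2 * wd μ s n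
      have e1 : (z : ℝ) - (a' + sl μ s * n) = ((z : ℝ) - (a + sl μ s * (n + n))) - ((a' : ℝ) - (a + sl μ s * n)) := by ring
      rw [e1]
      refine (abs_sub _ _).trans ?_
      linarith)
    by_cases ha : a' ∈ Icc a (a + n)
    · have g3 : kW μ s η e n a a' * kW μ s η (e + n) n a' z ≤ kW μ s η e (n + n) a z := by
        rw [kW_two η e n n a z _ (subset_refl _)]
        exact single_le_sum (f := fun y => kW μ s η e n a y * kW μ s η (e + n) n y z) (fun y _ => mul_nonneg (nn1 _ _) (nn _ _)) ha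
      refine le_trans ?_ g3
      refine le_trans ?_ (mul_le_mul g1 g2 (Real.exp_pos _).le (nn1 _ _))
      rw [← Real.exp_add]
      refine Real.exp_le_exp.2 ?_
      have : 0 ≤ (2 * U + 5 * b + 2) * EE μ s n := by positivity
      linarith
    · exfalso
      have g4 : kW μ s η e n a a' = 0 := kW_zero (μ := μ) (s := s) η e (fun hc => ha (mem_Icc.2 hc))
      have g5 : Real.exp (-(U * EE μ s n)) ≤ kW μ s η e n a a' := g1
      rw [g4] at g5
      exact absurd g5 (not_le.2 (Real.exp_pos _))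
  · intro v hv z
    have g := cell24 (h' := c / 4096) X1' (by omega) hw1 hE1 hcard hcρ h2E hb0.le (by linarith) hρ0 hρw (le_max_right K 3)
      (by
        rw [Real.exp_le_one_iff, neg_nonpos]
        positivity) (by positivity) (by linarith) hce haa' U2 O2 hv z
    rw [eln] at g
    refine g.trans (add_le_add le_rfl (mul_le_mul_of_nonneg_right (Real.exp_le_exp.2 ?_) (Real.exp_pos _).le))
    have g1 : G * EE μ s n ≤ (G' - b - U - (U + b) - 6 * b - 4) * EE μ s n := mul_le_mul_of_nonneg_right (by rw [hG']; linarith) hE.le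
    linarith
  · intro v z
    refine (hen v z).trans (Real.exp_le_exp.2 ?_)
    have x0 : 0 ≤ |(v : ℝ) - a| / wd μ s n := by positivity
    have g1 := gr_nonneg (P + 1) x0
    have g2 : 0 ≤ gr (P + 1) (|(v : ℝ) - a| / wd μ s n) * EE μ s n := by positivity
    have g3 := mul_le_mul_of_nonneg_right (show c / 4096 ≤ c / 512 / 2 by linarith) (hd0 v z)
    linarith
  · exact hofe

end

end Pool.Agent.W_7d29a1_C1.P24
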