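import Pool.Agent.W_7d29a1_C1.CmpV83
import Pool.Agent.W_7d29a1_C1.SeaG31

/-!
MP_7d29a1_pr, [C1], SHELL: THE DETERMINISTIC END OF THE FRESH BALL IN THE JOINT LETTERS. (helper83)

Rows `c0 < e < c3 ≤ r`. `K₁` : `c0 → e` (inside), `K₂` : `e → c3` (exit), `K₅` : `c3 → r`; profiles `B` (row `e`), `G` (row `c3`),
`F` (row `r`); `kap` = envelope `c0 → c3`, `kap₂` = envelope `e → c3`. No slope: the off part of the seam is joint with `kap` and `G`.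

* `d3J_83`, `d3J_Cx` : joint seam, envelopes, lower bounds through the cells `⇒ W_Q ≥ (1 - ε') (1 - 2 z)`;
* `phi83` : the bound `Φ` of `∑ kap x z G z` at the cells from the far part of `DP31`;
* `phi31` : the same for the envelopes `En31` / `kapo31`.
-/

set_option autoImplicit false

namespace Pool.Agent.W_7d29a1_C1.S83

open Finset
open Pool.Agent.W_7d29a1_C1.K91 (Grp Box wt wt_pos)
open Pool.Agent.W_7d29a1_C1.K91P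
open Pool.Agent.W_7d29a1_C1.U16 (ker ker_nonneg ker_eq_zero)
open Pool.Agent.W_7d29a1_C1.Bx47
open Pool.Agent.W_7d29a1_C1.FarK89 (gr gr_nonneg gr_one_le gr_mono AQ AQ_nonneg)
open Pool.Agent.W_7d29a1_C1.D31
open Pool.Agent.W_7d29a1_F (Env)
open Pool.Agent.W_7d29a1_C1.H60

noncomputable section

/-! ### The joint form -/

/-- The kernels and profiles between the seams. `C` = the cells of the first seam, `δ` = the start cell of the exit, `δ₀ ⊆ δ` = the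
starts with a lower bound, `δ'` = the end cell; `A₁`, `A₂`, `G₀` = sizes (they cancel). -/
structure Jnt (S T U C δ₀ δ δ' : Finset ℤ) (K₁ K₂ kap kap₂ : ℤ → ℤ → ℝ) (G : ℤ → ℝ) (L₁ L₂ V Φ e4 A₁ A₂ G₀ : ℝ) : Prop where
  K10 : ∀ x y, 0 ≤ K₁ x y
  K20 : ∀ x y, 0 ≤ K₂ x y
  G0' : ∀ z, 0 ≤ G z
  L10 : 0 ≤ L₁
  L20 : 0 ≤ L₂
  V1 : 1 ≤ V
  Φ1 : 1 ≤ Φ
  e40 : 0 ≤ e4
  A10 : 0 ≤ A₁
  A20 : 0 ≤ A₂
  G00 : 0 < G₀
  kp : ∀ x z, 0 ≤ kap x z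
  kp2 : ∀ x z, 0 ≤ kap₂ x z
  CS : C ⊆ S
  δ0 : δ₀ ⊆ δ
  δT : δ ⊆ T
  δU : δ' ⊆ U
  comp : ∀ x ∈ S, ∀ z ∈ U, ∑ y ∈ T, K₁ x y * kap₂ y z ≤ L₁ * A₁ * kap x z
  up2 : ∀ v ∈ T, ∀ z ∈ U, K₂ v z ≤ L₂ * A₂ * kap₂ v z
  off2 : ∀ v ∈ T, v ∉ δ → ∀ z ∈ U, K₂ v z ≤ e4 * A₂ * kap₂ v z
  lo1 : ∀ x ∈ C, A₁ ≤ L₁ * ∑ y ∈ δ₀, K₁ x y
  lo2 : ∀ v ∈ δ₀, A₂ ≤ L₂ * ∑ z ∈ δ', K₂ v z
  loG : ∀ z ∈ δ', G₀ ≤ V * G z
  phi : ∀ x ∈ C, ∑ z ∈ U, kap x z * G z ≤ Φ * G₀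

variable {S T U C δ₀ δ δ' : Finset ℤ} {K₁ K₂ kap kap₂ : ℤ → ℤ → ℝ} {G B F : ℤ → ℝ} {L₁ L₂ V Φ e4 A₁ A₂ G₀ : ℝ}

/-- The joint slope. -/
def jph (U : Finset ℤ) (kap : ℤ → ℤ → ℝ) (G : ℤ → ℝ) (G₀ : ℝ) (x : ℤ) : ℝ := (∑ z ∈ U, kap x z * G z) / G₀

theorem Jnt.upB (h : Jnt S T U C δ₀ δ δ' K₁ K₂ kap kap₂ G L₁ L₂ V Φ e4 A₁ A₂ G₀) (hB : ∀ v ∈ T, B v = ∑ z ∈ U, K₂ v z * G z)
    {v : ℤ} (hv : v ∈ T) : B v ≤ L₂ * A₂ * ∑ z ∈ U, kap₂ v z * G z := by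
  rw [hB v hv, mul_sum]
  refine sum_le_sum fun z hz => ?_
  refine (mul_le_mul_of_nonneg_right (h.up2 v hv z hz) (h.G0' z)).trans (le_of_eq ?_)
  ring

theorem Jnt.offB (h : Jnt S T U C δ₀ δ δ' K₁ K₂ kap kap₂ G L₁ L₂ V Φ e4 A₁ A₂ G₀) (hB : ∀ v ∈ T, B v = ∑ z ∈ U, K₂ v z * G z)
    {v : ℤ} (hv : v ∈ T) (hv' : v ∉ δ) : B v ≤ e4 * A₂ * ∑ z ∈ U, kap₂ v z * G z := by
  rw [hB v hv, mul_sum]
  refine sum_le_sum fun z hz => ?_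
  refine (mul_le_mul_of_nonneg_right (h.off2 v hv hv' z hz) (h.G0' z)).trans (le_of_eq ?_)
  ring

theorem Jnt.loB (h : Jnt S T U C δ₀ δ δ' K₁ K₂ kap kap₂ G L₁ L₂ V Φ e4 A₁ A₂ G₀) (hB : ∀ v ∈ T, B v = ∑ z ∈ U, K₂ v z * G z)
    {v : ℤ} (hv : v ∈ δ₀) : A₂ * G₀ ≤ L₂ * V * B v := by
  have hV : 0 ≤ V := zero_le_one.trans h.V1
  have h1 : G₀ * ∑ z ∈ δ', K₂ v z ≤ V * B v := by
    rw [hB v (h.δT (h.δ0 hv))]
    calc G₀ * ∑ z ∈ δ', K₂ v z = ∑ z ∈ δ', K₂ v z * G₀ := by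
          rw [mul_sum]
          exact sum_congr rfl fun z _ => by ring
      _ ≤ ∑ z ∈ δ', K₂ v z * (V * G z) := sum_le_sum fun z hz => mul_le_mul_of_nonneg_left (h.loG z hz) (h.K20 v z)
      _ ≤ ∑ z ∈ U, K₂ v z * (V * G z) := sum_le_sum_of_subset_of_nonneg h.δU fun z _ _ =>
          mul_nonneg (h.K20 v z) (mul_nonneg hV (h.G0' z))
      _ = V * ∑ z ∈ U, K₂ v z * G z := by
          rw [mul_sum]
          exact sum_congr rfl fun z _ => by ring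
  calc A₂ * G₀ ≤ (L₂ * ∑ z ∈ δ', K₂ v z) * G₀ := mul_le_mul_of_nonneg_right (h.lo2 v hv) h.G00.le
    _ = L₂ * (G₀ * ∑ z ∈ δ', K₂ v z) := by ring
    _ ≤ L₂ * (V * B v) := mul_le_mul_of_nonneg_left h1 h.L20
    _ = _ := by ring

/-- `∑ K₁ x y ∑ kap₂ y z G z` is below the joint slope. -/
theorem Jnt.swap (h : Jnt S T U C δ₀ δ δ' K₁ K₂ kap kap₂ G L₁ L₂ V Φ e4 A₁ A₂ G₀) {x : ℤ} (hx : x ∈ S) :
    ∑ y ∈ T, K₁ x y * ∑ z ∈ U, kap₂ y z * G z ≤ L₁ * A₁ * ∑ z ∈ U, kap x z * G z := by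
  have e1 : ∑ y ∈ T, K₁ x y * ∑ z ∈ U, kap₂ y z * G z = ∑ z ∈ U, (∑ y ∈ T, K₁ x y * kap₂ y z) * G z := by
    simp_rw [mul_sum, sum_mul]
    rw [sum_comm]
    refine sum_congr rfl fun z _ => sum_congr rfl fun y _ => ?_
    ring
  rw [e1, mul_sum]
  refine sum_le_sum fun z hz => ?_
  refine (mul_le_mul_of_nonneg_right (h.comp x hx z hz) (h.G0' z)).trans (le_of_eq ?_)
  ring

/-- The future before the inside is regular, the exit goes through `δ`. -/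
theorem Jnt.reg (h : Jnt S T U C δ₀ δ δ' K₁ K₂ kap kap₂ G L₁ L₂ V Φ e4 A₁ A₂ G₀) (hB : ∀ v ∈ T, B v = ∑ z ∈ U, K₂ v z * G z)
    (hF : ∀ x ∈ S, F x = ∑ y ∈ T, K₁ x y * B y) :
    (∀ x ∈ S, F x ≤ L₁ * L₂ * V * Φ * jph U kap G G₀ x * (A₁ * A₂ * G₀)) ∧
    (∀ x ∈ C, F x ≤ L₁ * L₂ * V * Φ * (A₁ * A₂ * G₀)) ∧ (∀ x ∈ C, A₁ * A₂ * G₀ ≤ L₁ * L₂ * V * Φ * F x) ∧
    ∀ x ∈ C, (1 - e4 * V * L₁ ^ 2 * L₂ * Φ) * F x ≤ ∑ y ∈ δ, K₁ x y * B y := by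
  have hV : 0 ≤ V := zero_le_one.trans h.V1
  have hΦ : 0 ≤ Φ := zero_le_one.trans h.Φ1
  have hL1 := h.L10
  have hL2 := h.L20
  have hA1 := h.A10
  have hA2 := h.A20
  have hG := h.G00
  have he4 := h.e40
  have hVΦ : 1 ≤ V * Φ := one_le_mul_of_one_le_of_one_le h.V1 h.Φ1
  have up : ∀ x ∈ S, F x ≤ L₁ * L₂ * (A₁ * A₂) * ∑ z ∈ U, kap x z * G z := by
    intro x hx
    rw [hF x hx]
    calc ∑ y ∈ T, K₁ x y * B y ≤ ∑ y ∈ T, K₁ x y * (L₂ * A₂ * ∑ z ∈ U, kap₂ y z * G z) :=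
          sum_le_sum fun y hy => mul_le_mul_of_nonneg_left (h.upB hB hy) (h.K10 x y)
      _ = L₂ * A₂ * ∑ y ∈ T, K₁ x y * ∑ z ∈ U, kap₂ y z * G z := by
          rw [mul_sum (s := T)]
          refine sum_congr rfl fun y _ => ?_
          ring
      _ ≤ L₂ * A₂ * (L₁ * A₁ * ∑ z ∈ U, kap x z * G z) := mul_le_mul_of_nonneg_left (h.swap hx) (mul_nonneg hL2 hA2)
      _ = _ := by ring
  have jp0 : ∀ x, 0 ≤ ∑ z ∈ U, kap x z * G z := fun x => sum_nonneg fun z _ => mul_nonneg (h.kp x z) (h.G0' z)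
  have low : ∀ x ∈ C, A₁ * A₂ * G₀ ≤ L₁ * L₂ * V * F x := by
    intro x hx
    have h1 : (A₂ * G₀) * ∑ y ∈ δ₀, K₁ x y ≤ L₂ * V * F x := by
      rw [hF x (h.CS hx)]
      have hB0 : ∀ y ∈ T, 0 ≤ B y := fun y hy => by
        rw [hB y hy]
        exact sum_nonneg fun z _ => mul_nonneg (h.K20 y z) (h.G0' z)
      calc (A₂ * G₀) * ∑ y ∈ δ₀, K₁ x y = ∑ y ∈ δ₀, K₁ x y * (A₂ * G₀) := by
            rw [mul_sum]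
            exact sum_congr rfl fun y _ => by ring
        _ ≤ ∑ y ∈ δ₀, K₁ x y * (L₂ * V * B y) := sum_le_sum fun y hy => mul_le_mul_of_nonneg_left (h.loB hB hy) (h.K10 x y)
        _ ≤ ∑ y ∈ T, K₁ x y * (L₂ * V * B y) := sum_le_sum_of_subset_of_nonneg (h.δ0.trans h.δT) fun y hy _ =>
            mul_nonneg (h.K10 x y) (mul_nonneg (mul_nonneg hL2 hV) (hB0 y hy))
        _ = L₂ * V * ∑ y ∈ T, K₁ x y * B y := by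
            rw [mul_sum]
            exact sum_congr rfl fun y _ => by ring
    calc A₁ * A₂ * G₀ = A₁ * (A₂ * G₀) := by ring
      _ ≤ (L₁ * ∑ y ∈ δ₀, K₁ x y) * (A₂ * G₀) := mul_le_mul_of_nonneg_right (h.lo1 x hx) (mul_nonneg hA2 hG.le)
      _ = L₁ * ((A₂ * G₀) * ∑ y ∈ δ₀, K₁ x y) := by ring
      _ ≤ L₁ * (L₂ * V * F x) := mul_le_mul_of_nonneg_left h1 hL1
      _ = _ := by ring
  have hF0 : ∀ x ∈ C, 0 ≤ L₁ * L₂ * V * F x := fun x hx =>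
    (mul_nonneg (mul_nonneg hA1 hA2) hG.le).trans (low x hx)
  refine ⟨fun x hx => ?_, fun x hx => ?_, fun x hx => ?_, fun x hx => ?_⟩
  · have e1 : L₁ * L₂ * V * Φ * jph U kap G G₀ x * (A₁ * A₂ * G₀) = (V * Φ) * (L₁ * L₂ * (A₁ * A₂) * ∑ z ∈ U, kap x z * G z) := by
      unfold jph
      field_simp
    rw [e1]
    have h0 : 0 ≤ L₁ * L₂ * (A₁ * A₂) * ∑ z ∈ U, kap x z * G z := mul_nonneg (by positivity) (jp0 x)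
    exact (up x hx).trans (le_mul_of_one_le_left h0 hVΦ)
  · refine (up x (h.CS hx)).trans ((mul_le_mul_of_nonneg_left (h.phi x hx) (by positivity)).trans ?_)
    have h0 : 0 ≤ L₁ * L₂ * (A₁ * A₂) * (Φ * G₀) := by positivity
    calc L₁ * L₂ * (A₁ * A₂) * (Φ * G₀) ≤ V * (L₁ * L₂ * (A₁ * A₂) * (Φ * G₀)) := le_mul_of_one_le_left h0 h.V1
      _ = _ := by ring
  · refine (low x hx).trans ?_
    calc L₁ * L₂ * V * F x ≤ Φ * (L₁ * L₂ * V * F x) := le_mul_of_one_le_left (hF0 x hx) h.Φ1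
      _ = _ := by ring
  · have h1 : ∑ y ∈ T \ δ, K₁ x y * B y ≤ e4 * (L₁ * Φ) * (A₁ * A₂ * G₀) := by
      calc ∑ y ∈ T \ δ, K₁ x y * B y ≤ ∑ y ∈ T \ δ, K₁ x y * (e4 * A₂ * ∑ z ∈ U, kap₂ y z * G z) :=
            sum_le_sum fun y hy => mul_le_mul_of_nonneg_left (h.offB hB (mem_sdiff.1 hy).1 (mem_sdiff.1 hy).2) (h.K10 x y)
        _ ≤ ∑ y ∈ T, K₁ x y * (e4 * A₂ * ∑ z ∈ U, kap₂ y z * G z) :=
            sum_le_sum_of_subset_of_nonneg sdiff_subset fun y _ _ => mul_nonneg (h.K10 x y) (mul_nonneg (mul_nonneg he4 hA2)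
              (sum_nonneg fun z _ => mul_nonneg (h.kp2 y z) (h.G0' z)))
        _ = e4 * A₂ * ∑ y ∈ T, K₁ x y * ∑ z ∈ U, kap₂ y z * G z := by
            rw [mul_sum (s := T)]
            refine sum_congr rfl fun y _ => ?_
            ring
        _ ≤ e4 * A₂ * (L₁ * A₁ * ∑ z ∈ U, kap x z * G z) := mul_le_mul_of_nonneg_left (h.swap (h.CS hx)) (mul_nonneg he4 hA2)
        _ ≤ e4 * A₂ * (L₁ * A₁ * (Φ * G₀)) := by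
            refine mul_le_mul_of_nonneg_left (mul_le_mul_of_nonneg_left (h.phi x hx) (mul_nonneg hL1 hA1)) (mul_nonneg he4 hA2)
        _ = _ := by ring
    have h2 : e4 * (L₁ * Φ) * (A₁ * A₂ * G₀) ≤ e4 * V * L₁ ^ 2 * L₂ * Φ * F x := by
      refine (mul_le_mul_of_nonneg_left (low x hx) (by positivity)).trans (le_of_eq ?_)
      ring
    have h3 : F x = ∑ y ∈ δ, K₁ x y * B y + ∑ y ∈ T \ δ, K₁ x y * B y := by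
      rw [hF x (h.CS hx), ← sum_sdiff h.δT, add_comm]
    linarith

variable {w : ℕ → ℤ → ℝ} {p : ℕ → ℝ} {l r : ℤ → ℝ} {X lo hi : ℤ} {N : ℕ}

/-- **(d3), joint.** Rows `i = c0`, `K = i + n = e`, `K + m = c3`. `K₁`, `K₂`, `B`, `G` = kernels and profiles in any normalisation:
`ker x y * bw y = K₁ x y * B y`, `B v = ∑ K₂ v z G z`. -/
theorem d3J_83 (hw : ∀ k y, 0 < w k y) (hp : ∀ k, 0 < p k) (h : Box l r X lo hi N) {Q : Finset (ℕ × ℤ)} {K i n m : ℕ}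
    (hK : i + n = K) (hKN : K + m ≤ N) (hQ : Q ⊆ Ico i K ×ˢ Icc lo hi) {β₁ β₂ : Finset ℤ} (hlt : ∀ x ∈ β₁, ∀ x' ∈ β₂, x < x')
    (hJ : Jnt (Icc lo (hi - (n + m : ℕ))) (Icc lo (hi - m)) (Icc lo hi) (β₁ ∪ β₂) δ₀ δ δ' K₁ K₂ kap kap₂ G L₁ L₂ V Φ e4 A₁ A₂ G₀)
    (hB : ∀ v ∈ Icc lo (hi - (m : ℤ)), B v = ∑ z ∈ Icc lo hi, K₂ v z * G z)
    (hKB : ∀ x ∈ Icc lo (hi - ((n + m : ℕ) : ℤ)), ∀ y ∈ Icc lo (hi - (m : ℤ)), ker w p i n x y * bw w p K (N - K) y = K₁ x y * B y)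
    {ε' e1 e2 z : ℝ} (hε' : ε' ≤ 1) (he1 : 0 ≤ e1) (he2 : 0 ≤ e2)
    (hz : (L₁ * L₂ * V * Φ) ^ 2 * (e2 + e1 * (1 + e2)) + e4 * V * L₁ ^ 2 * L₂ * Φ ≤ z) (hz1 : z ≤ 1)
    (hin : ∀ x ∈ β₁, ∀ x' ∈ β₂, ∀ y ∈ δ, ∀ y' ∈ δ,
      (1 - ε') * (ker w p i n x y * ker w p i n x' y') ≤ mq w p Q i n x x' y y')
    (hI : SeamI (Icc lo hi) β₁ β₂ (fw w p l i) (fw w p r i) (jph (Icc lo hi) kap G G₀) e1 e2) {ZM ZR : ℝ}
    (hZM : ZM = ∑ y ∈ Icc lo hi, l y * bw w p 0 N y) (hZR : ZR = ∑ y ∈ Icc lo hi, r y * bw w p 0 N y) :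
    (1 - ε') * (1 - 2 * z) * (ZM * ZR) ≤ ∑ c ∈ Q, cq w p l r N c.1 c.2 := by
  have hF : ∀ x ∈ Icc lo (hi - ((n + m : ℕ) : ℤ)), bw w p i (N - i) x = ∑ y ∈ Icc lo (hi - (m : ℤ)), K₁ x y * B y := by
    intro x hx
    have hx' := mem_Icc.1 hx
    push_cast at hx'
    have h1 := (sum_ker_eq (w := w) (p := p) (lo := lo) (hi := hi) (N := N) hK (by omega) (x := x) hx'.1 (by omega)).symm
    rw [h1, ← sum_congr rfl fun y hy => hKB x hx y hy]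
    symm
    refine sum_subset (Icc_subset_Icc le_rfl (by omega)) fun y hy hy' => ?_
    rw [mem_Icc] at hy hy'
    rw [ker_eq_zero i n x y (fun hc => hy' ⟨hy.1, by omega⟩), zero_mul]
  obtain ⟨r1, r2, r3, r4⟩ := hJ.reg hB hF
  have hV : 0 ≤ V := zero_le_one.trans hJ.V1
  have hΦ : 0 ≤ Φ := zero_le_one.trans hJ.Φ1
  have hL1 := hJ.L10
  have hL2 := hJ.L20
  have he4 := hJ.e40
  have hAA : 0 ≤ A₁ * A₂ * G₀ := mul_nonneg (mul_nonneg hJ.A10 hJ.A20) hJ.G00.le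
  have hS : Icc lo (hi - ((n + m : ℕ) : ℤ)) ⊆ Icc lo hi := Icc_subset_Icc le_rfl (by omega)
  refine d3F_83 (S := Icc lo (hi - ((n + m : ℕ) : ℤ))) (Lam := L₁ * L₂ * V * Φ) (F0 := A₁ * A₂ * G₀)
    (z3 := e4 * V * L₁ ^ 2 * L₂ * Φ) (ph := jph (Icc lo hi) kap G G₀) hw hp h hK (by omega) hQ hS ?_ hJ.CS
    (hJ.δT.trans (Icc_subset_Icc le_rfl (by omega))) hlt hε' he1 he2 (by positivity) (by positivity) hAA hz hz1 hin hI ?_ r2 r3 ?_ hZM hZR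
  · intro x hx hx'
    rw [mem_Icc] at hx hx'
    have hx2 : hi - ((n + m : ℕ) : ℤ) < x := by
      by_contra hc
      exact hx' ⟨hx.1, by omega⟩
    push_cast at hx2
    exact ⟨fw_hi (B := hi - N) (fun y hy => (h.hi0 y hy).1) i x (by omega), fw_hi (B := hi - N) (fun y hy => (h.hi0 y hy).2) i x (by omega)⟩
  · exact fun x hx _ => r1 x hx
  · intro x hx
    rw [sum_congr rfl fun y hy => hKB x (hJ.CS hx) y (hJ.δT hy)]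
    exact r4 x hx

variable {Γ : Cx} {η : Env}

/-- **(d3), joint, for a context.** -/
theorem d3J_Cx (hk : 1 ≤ Γ.k) (hq0 : ∀ j, j < Γ.k → 0 ≤ Γ.q j) (hq1 : ∃ j, j < Γ.k ∧ 0 < Γ.q j) {Q : Finset (ℕ × ℤ)} {K i n m : ℕ}
    (hK : i + n = K) (hKN : K + m ≤ Γ.N) (hQ : Q ⊆ Ico i K ×ˢ Icc (0 : ℤ) Γ.hi) {β₁ β₂ : Finset ℤ}
    (hlt : ∀ x ∈ β₁, ∀ x' ∈ β₂, x < x')
    (hJ : Jnt (Icc 0 (Γ.hi - (n + m : ℕ))) (Icc 0 (Γ.hi - m)) (Icc 0 Γ.hi) (β₁ ∪ β₂) δ₀ δ δ' K₁ K₂ kap kap₂ G L₁ L₂ V Φ e4 A₁ A₂ G₀)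
    (hB : ∀ v ∈ Icc (0 : ℤ) (Γ.hi - (m : ℤ)), B v = ∑ z ∈ Icc 0 Γ.hi, K₂ v z * G z)
    (hKB : ∀ x ∈ Icc (0 : ℤ) (Γ.hi - ((n + m : ℕ) : ℤ)), ∀ y ∈ Icc (0 : ℤ) (Γ.hi - (m : ℤ)),
      ker (wt η) Γ.p i n x y * bw (wt η) Γ.p K (Γ.N - K) y = K₁ x y * B y)
    {ε' e1 e2 z : ℝ} (hε' : ε' ≤ 1) (he1 : 0 ≤ e1) (he2 : 0 ≤ e2)
    (hz : (L₁ * L₂ * V * Φ) ^ 2 * (e2 + e1 * (1 + e2)) + e4 * V * L₁ ^ 2 * L₂ * Φ ≤ z) (hz1 : z ≤ 1)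
    (hin : ∀ x ∈ β₁, ∀ x' ∈ β₂, ∀ y ∈ δ, ∀ y' ∈ δ,
      (1 - ε') * (ker (wt η) Γ.p i n x y * ker (wt η) Γ.p i n x' y') ≤ mq (wt η) Γ.p Q i n x x' y y')
    (hI : SeamI (Icc 0 Γ.hi) β₁ β₂ (fw (wt η) Γ.p Cx.l i) (fw (wt η) Γ.p Γ.r i) (jph (Icc 0 Γ.hi) kap G G₀) e1 e2) :
    (1 - ε') * (1 - 2 * z) ≤ ∑ c ∈ Q, Γ.w c η := by
  refine w_of_cq hk hq0 hq1 ?_
  exact d3J_83 (wt_pos η) H83.p_pos (H83.box hk hq0) hK hKN hQ hlt hJ hB hKB hε' he1 he2 hz hz1 hin hI (sum_l83 Γ η) rfl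

/-! ### The bound at the cells from the far part of the outside -/

/-- **`Φ` from the far part.** `κ` = envelope `c0 → r`, `kapo` = envelope of the ball (`DP31`), `x₀ x` = a site of the outer row. -/
theorem phi83 {C U Z W WZ I : Finset ℤ} {kap K5 kapo κ : ℤ → ℤ → ℝ} {f G F : ℤ → ℝ} {yl yp : ℤ} {x₀ : ℤ → ℤ} {k0 k1 q1 qF ef : ℝ}
    (hG : ∀ z ∈ U, G z = ∑ z' ∈ Z, K5 z z' * F z') (F0 : ∀ z, 0 ≤ F z) (f0 : ∀ x, 0 ≤ f x) (fy : 0 < f yl) (ko : ∀ x z, 0 ≤ kapo x z)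
    (k00 : 0 ≤ k0) (k10 : 0 ≤ k1) (ef0 : 0 ≤ ef) (hWZ : WZ ⊆ Z) (hI : ∀ x ∈ C, x₀ x ∈ I) (hq : ∀ x ∈ C, f yl ≤ q1 * f (x₀ x))
    (comp : ∀ x ∈ C, ∀ z' ∈ Z, ∑ z ∈ U, kap x z * K5 z z' ≤ κ x z')
    (near : ∀ x ∈ C, ∀ z' ∈ WZ, κ x z' ≤ k0) (far : ∀ x ∈ C, ∀ z' ∈ Z, κ x z' ≤ k1 * kapo (x₀ x) z')
    (tF : ∀ z ∈ WZ, F z ≤ qF * F yp)
    (fs : ∑ q ∈ (I ×ˢ Z) \ (W ×ˢ WZ), f q.1 * kapo q.1 q.2 * F q.2 ≤ ef * (f yl * F yp)) :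
    ∀ x ∈ C, ∑ z ∈ U, kap x z * G z ≤ (WZ.card * (k0 * qF) + k1 * (ef * q1)) * F yp := by
  classical
  intro x hx
  have hFy := F0 yp
  have hf0 : 0 < f (x₀ x) := by
    by_contra hc
    have h1 : f (x₀ x) = 0 := le_antisymm (not_lt.1 hc) (f0 _)
    have h2 := hq x hx
    rw [h1, mul_zero] at h2
    linarith
  have e1 : ∑ z ∈ U, kap x z * G z = ∑ z' ∈ Z, (∑ z ∈ U, kap x z * K5 z z') * F z' := by
    calc ∑ z ∈ U, kap x z * G z = ∑ z ∈ U, ∑ z' ∈ Z, kap x z * K5 z z' * F z' := by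
          refine sum_congr rfl fun z hz => ?_
          rw [hG z hz, mul_sum]
          exact sum_congr rfl fun z' _ => by ring
      _ = ∑ z' ∈ Z, ∑ z ∈ U, kap x z * K5 z z' * F z' := sum_comm
      _ = _ := sum_congr rfl fun z' _ => by rw [sum_mul]
  rw [e1]
  have h1 : ∑ z' ∈ Z, (∑ z ∈ U, kap x z * K5 z z') * F z' ≤ ∑ z' ∈ Z, κ x z' * F z' :=
    sum_le_sum fun z' hz' => mul_le_mul_of_nonneg_right (comp x hx z' hz') (F0 z')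
  have h2 : ∑ z' ∈ Z \ WZ, f (x₀ x) * kapo (x₀ x) z' * F z' ≤ ef * (f yl * F yp) := by
    refine le_trans ?_ fs
    have e2 : ∑ z' ∈ Z \ WZ, f (x₀ x) * kapo (x₀ x) z' * F z' =
        ∑ q ∈ ({x₀ x} : Finset ℤ) ×ˢ (Z \ WZ), f q.1 * kapo q.1 q.2 * F q.2 := by
      rw [sum_product, sum_singleton]
    rw [e2]
    refine sum_le_sum_of_subset_of_nonneg ?_ fun q _ _ => mul_nonneg (mul_nonneg (f0 _) (ko _ _)) (F0 _)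
    intro q hq
    rw [mem_product, mem_singleton, mem_sdiff] at hq
    rw [mem_sdiff, mem_product, mem_product, hq.1]
    exact ⟨⟨hI x hx, hq.2.1⟩, fun hc => hq.2.2 hc.2⟩
  have h3 : ∑ z' ∈ Z \ WZ, kapo (x₀ x) z' * F z' ≤ ef * q1 * F yp := by
    have e3 : ∑ z' ∈ Z \ WZ, f (x₀ x) * kapo (x₀ x) z' * F z' = f (x₀ x) * ∑ z' ∈ Z \ WZ, kapo (x₀ x) z' * F z' := by
      rw [mul_sum]
      exact sum_congr rfl fun z' _ => by ring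
    rw [e3] at h2
    have h4 : ef * (f yl * F yp) ≤ f (x₀ x) * (ef * q1 * F yp) := by
      have h5 := mul_le_mul_of_nonneg_left (mul_le_mul_of_nonneg_right (hq x hx) hFy) ef0
      refine h5.trans (le_of_eq ?_)
      ring
    exact le_of_mul_le_mul_left (h2.trans h4) hf0
  have h4 : ∑ z' ∈ Z, κ x z' * F z' = ∑ z' ∈ Z \ WZ, κ x z' * F z' + ∑ z' ∈ WZ, κ x z' * F z' := (sum_sdiff hWZ).symm
  have h5 : ∑ z' ∈ Z \ WZ, κ x z' * F z' ≤ k1 * (ef * q1 * F yp) := by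
    refine le_trans ?_ (mul_le_mul_of_nonneg_left h3 k10)
    rw [mul_sum]
    refine sum_le_sum fun z' hz' => ?_
    refine (mul_le_mul_of_nonneg_right (far x hx z' (mem_sdiff.1 hz').1) (F0 z')).trans (le_of_eq ?_)
    ring
  have h6 : ∑ z' ∈ WZ, κ x z' * F z' ≤ WZ.card * (k0 * (qF * F yp)) := by
    calc ∑ z' ∈ WZ, κ x z' * F z' ≤ ∑ z' ∈ WZ, k0 * (qF * F yp) := by
          refine sum_le_sum fun z' hz' => ?_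
          exact (mul_le_mul_of_nonneg_right (near x hx z' hz') (F0 z')).trans (mul_le_mul_of_nonneg_left (tF z' hz') k00)
      _ = _ := by rw [sum_const, nsmul_eq_mul]
  calc ∑ z' ∈ Z, (∑ z ∈ U, kap x z * K5 z z') * F z' ≤ k1 * (ef * q1 * F yp) + WZ.card * (k0 * (qF * F yp)) := by
        rw [h4] at h1
        linarith
    _ = _ := by ring

/-- The envelopes of two places which are in the window. -/
theorem kapo_move {P : ℕ} {c₁ c₃ Q S Q' S' E w Λ D : ℝ} {ℓ₀ ℓ₁ ℓ₃ : ℤ → ℝ} {x yl z : ℤ} (hE : 0 < E) (hw : 0 < w)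
    (hc₃ : 0 ≤ c₃) (hQ : 0 ≤ Q) (hS : 0 ≤ S) (hQ' : 0 ≤ Q') (hx : |ℓ₁ x| ≤ Λ * w) (hD : |ℓ₁ x - ℓ₀ yl| ≤ D * w) :
    kapo31 P c₁ c₃ Q' S' E w ℓ₁ ℓ₃ x z ≤
      Real.exp ((Q' * gr P (AQ P c₁ Q' + Λ) + S' + c₃ * D) * E) * kapo31 P c₁ c₃ Q S E w ℓ₀ ℓ₃ yl z := by
  unfold kapo31
  rw [← Real.exp_add]
  refine Real.exp_le_exp.2 ?_
  have h1 : gr P (AQ P c₁ Q' + |ℓ₁ x| / w) ≤ gr P (AQ P c₁ Q' + Λ) := by
    refine gr_mono P (add_nonneg (AQ_nonneg P c₁ Q') (by positivity)) (add_le_add le_rfl ?_)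
    rwa [div_le_iff₀ hw]
  have h2 := mul_le_mul_of_nonneg_right (mul_le_mul_of_nonneg_left h1 hQ') hE.le
  have hg : 0 ≤ gr P (AQ P c₁ Q + |ℓ₀ yl| / w) := gr_nonneg P (add_nonneg (AQ_nonneg P c₁ Q) (by positivity))
  have h3 : 0 ≤ (Q * gr P (AQ P c₁ Q + |ℓ₀ yl| / w) + S) * E := by positivity
  have h4 : |ℓ₃ z - ℓ₀ yl| ≤ |ℓ₃ z - ℓ₁ x| + |ℓ₁ x - ℓ₀ yl| := by
    have := abs_add_le (ℓ₃ z - ℓ₁ x) (ℓ₁ x - ℓ₀ yl)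
    have e : ℓ₃ z - ℓ₁ x + (ℓ₁ x - ℓ₀ yl) = ℓ₃ z - ℓ₀ yl := by ring
    rwa [e] at this
  have hEw : 0 ≤ c₃ * (E / w) := mul_nonneg hc₃ (div_pos hE hw).le
  have h5 := mul_le_mul_of_nonneg_left (h4.trans (add_le_add le_rfl hD)) hEw
  have h6 : c₃ * (E / w) * (|ℓ₃ z - ℓ₁ x| + D * w) = c₃ * (E / w) * |ℓ₃ z - ℓ₁ x| + c₃ * D * E := by
    field_simp
  rw [h6] at h5
  linarith

/-- **`Φ` for the envelopes `En31`.** `kap` = upper envelope `c0 → c3`, `K5` : `c3 → r`, both zero off the reachable pairs; `kapo` = the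
envelope of `DP31`, at least `kapo31` at the reachable pairs. -/
theorem phi31 {P : ℕ} {c c₁ c₂ c₃ E w q₂ q₃ s₂ s₃ Q' S' Q S Λ D q1 qF ef : ℝ} {ℓ₀ ℓ₁ ℓ₂ ℓ₃ : ℤ → ℝ} {kap K5 kapo : ℤ → ℤ → ℝ}
    {J U Z C W WZ I : Finset ℤ} {f G F : ℤ → ℝ} {yl yp : ℤ} {x₀ : ℤ → ℤ} {m1 m5 m : ℤ} (hE : 0 < E) (hw : 0 < w) (hc₂ : 0 ≤ c₂)
    (h2 : En31 P c c₂ E w q₂ s₂ ℓ₁ ℓ₂ kap J U) (h3 : En31 P c c₂ E w q₃ s₃ ℓ₂ ℓ₃ K5 U Z) (hc₁ : 0 < c₁) (hc₃ : 0 ≤ c₃)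
    (hcc : c₁ + c₂ + c₃ ≤ c) (hQ' : q₂ + q₃ ≤ Q') (hS' : s₂ + s₃ ≤ S') (hQ : 0 ≤ Q) (hS : 0 ≤ S)
    (kz : ∀ x z, ¬ (x ≤ z ∧ z ≤ x + m1) → kap x z = 0) (k5z : ∀ z z', ¬ (z ≤ z' ∧ z' ≤ z + m5) → K5 z z' = 0)
    (hG : ∀ z ∈ U, G z = ∑ z' ∈ Z, K5 z z' * F z') (F0 : ∀ z, 0 ≤ F z) (f0 : ∀ x, 0 ≤ f x) (fy : 0 < f yl)
    (ko : ∀ x z, 0 ≤ kapo x z) (kk : ∀ x z, x ≤ z → z ≤ x + m → kapo31 P c₁ c₃ Q S E w ℓ₀ ℓ₃ x z ≤ kapo x z)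
    (ef0 : 0 ≤ ef) (hWZ : WZ ⊆ Z) (hCJ : C ⊆ J) (hI : ∀ x ∈ C, x₀ x ∈ I) (hq : ∀ x ∈ C, f yl ≤ q1 * f (x₀ x))
    (hx1 : ∀ x ∈ C, x₀ x ≤ x) (hx2 : ∀ x ∈ C, x + m1 + m5 ≤ x₀ x + m)
    (hC : ∀ x ∈ C, |ℓ₁ x| ≤ Λ * w) (hD : ∀ x ∈ C, |ℓ₁ x - ℓ₀ (x₀ x)| ≤ D * w)
    (tF : ∀ z ∈ WZ, F z ≤ qF * F yp)
    (fs : ∑ q ∈ (I ×ˢ Z) \ (W ×ˢ WZ), f q.1 * kapo q.1 q.2 * F q.2 ≤ ef * (f yl * F yp)) :
    ∀ x ∈ C, ∑ z ∈ U, kap x z * G z ≤ (WZ.card * (Real.exp ((Q' * gr P (AQ P c₁ Q' + Λ) + S') * E) * qF) +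
      Real.exp ((Q' * gr P (AQ P c₁ Q' + Λ) + S' + c₃ * D) * E) * (ef * q1)) * F yp := by
  classical
  have hq2 := h2.q0
  have hq3 := h3.q0
  have hs2 := h2.s0
  have hs3 := h3.s0
  have hEw : 0 ≤ E / w := (div_pos hE hw).le
  -- the envelope of the last two kernels, from every place
  have env : ∀ x ∈ J, ∀ z' ∈ Z, ∑ z ∈ U, kap x z * K5 z z' ≤ kapo31 P c₁ c₃ Q' S' E w ℓ₁ ℓ₃ x z' := by
    intro x hx z' hz'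
    have h1 : En31 P c c₂ E w 0 0 ℓ₁ ℓ₁ (fun a b => if a = b then 1 else 0) {x} {x} := by
      refine ⟨le_rfl, le_rfl, fun a b => by split_ifs <;> norm_num, fun a ha b hb => ?_, fun a => ?_⟩
      · rw [mem_singleton] at ha hb
        rw [ha, hb]
        simp
      · rw [sum_singleton, zero_mul, Real.exp_zero]
        rw [Real.exp_le_one_iff]
        have : 0 ≤ c₂ * (E / w) * |ℓ₁ x - ℓ₁ a| := by positivity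
        linarith
    have hm := comp31 hE hw hc₂ h1 (h2.mono (singleton_subset_iff.2 hx) (subset_refl _)) h3 hc₁ hc₃ hcc
      (Q := Q') (S := S') (by linarith) (by linarith) (subset_refl _) x (mem_singleton_self x) z' hz'
    rw [sum_singleton, if_pos rfl, one_mul] at hm
    exact hm
  -- it vanishes off the reachable pairs
  have van : ∀ x z', ¬ (x ≤ z' ∧ z' ≤ x + m1 + m5) → ∑ z ∈ U, kap x z * K5 z z' = 0 := by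
    intro x z' hn
    refine sum_eq_zero fun z _ => ?_
    by_cases h4 : x ≤ z ∧ z ≤ x + m1
    · rw [k5z z z' (fun h5 => hn ⟨by omega, by omega⟩), mul_zero]
    · rw [kz x z h4, zero_mul]
  refine phi83 (κ := fun x z' => ∑ z ∈ U, kap x z * K5 z z') (W := W) hG F0 f0 fy ko
    (Real.exp_pos _).le (Real.exp_pos _).le ef0 hWZ hI hq (fun x _ z' _ => le_rfl) ?_ ?_ tF fs
  · intro x hx z' hz'
    exact (env x (hCJ hx) z' (hWZ hz')).trans (kapo_win hE hw (by linarith) hc₃ (hC x hx))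
  · intro x hx z' hz'
    by_cases h4 : x ≤ z' ∧ z' ≤ x + m1 + m5
    · refine (env x (hCJ hx) z' hz').trans ((kapo_move hE hw hc₃ hQ hS (by linarith) (hC x hx) (hD x hx)).trans ?_)
      refine mul_le_mul_of_nonneg_left (kk (x₀ x) z' ?_ ?_) (Real.exp_pos _).le
      · exact (hx1 x hx).trans h4.1
      · exact h4.2.trans (hx2 x hx)
    · show ∑ z ∈ U, kap x z * K5 z z' ≤ _
      rw [van x z' h4]
      exact mul_nonneg (Real.exp_pos _).le (ko _ _)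

end

end Pool.Agent.W_7d29a1_C1.S83
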