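import Pool.Agent.W_7d29a1_C1.FreM12

/-!
MP_7d29a1_pr, [C1] attractor route, SHELL, fresh ball, P1: **the deterministic end of `freA12`**: the configuration, the starts, the literal
content of the event (`TC12`, `Cm12`, `En31`) and the rest of the ball give SeamIn. (helper12)
-/

set_option autoImplicit false

namespace Pool.Agent.W_7d29a1_C1.S12

open MeasureTheory ProbabilityTheory Filter Topology Finset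
open Pool.Agent.W_7d29a1_F Pool.Agent.W_7d29a1_h4g Pool.Agent.W_7d29a1_H Pool.Agent.W_7d29a1_HS
open Pool.Agent.W_7d29a1_C1.K91P (fw)
open Pool.Agent.W_7d29a1_C1.K91 (wt wt_pos)
open Pool.Agent.W_7d29a1_C1.FarK89 (gr AQ)
open Pool.Agent.W_7d29a1_C1.FarW89 (nk nk_nonneg)
open Pool.Agent.W_7d29a1_C1.D31 (DW31 kap31 En31)

noncomputable section

/-- The configuration of P1 in units of the ball : `E`, `w`; `cen` = line at the edge row `i`, the seam row is `i + T + 1`. -/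
structure Cfg12 (s slo E w : ℝ) (T M : ℕ) (h : ℝ) (p : ℕ → ℝ) (ι Ke δ ω₁' : ℝ) (lo hi : ℤ) (cen : ℝ) (B₁ B₂ yl yr : ℤ) (l r : ℤ → ℝ)
    (XX : ℤ) : Prop where
  e1 : |(B₁ : ℝ) - (cen + slo * (T + 1))| ≤ Ke * w
  e2 : |(B₂ : ℝ) - (cen + slo * (T + 1))| ≤ Ke * w
  sB : (B₁ : ℝ) + δ * w ≤ B₂
  sy : yl ≤ yr + 1
  h1 : |h| ≤ 1
  hι : |h| * w ≤ ι * E
  hp : ∀ k, k < M → p k = Real.exp (s + h)
  hp' : ∀ k, M ≤ k → p k = Real.exp s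
  G : K91.Grp l r XX
  l0 : ∀ y, y < lo → l y = 0 ∧ r y = 0
  box : ∀ x : ℤ, |(x : ℝ) - cen| ≤ ω₁' * w → x ∈ Icc lo hi

variable {μ : Measure ℝ} {s : ℝ}

/-- Subwindows. -/
theorem win_mono {I : Finset ℤ} {cen W W' : ℝ} (h : W ≤ W') : win I cen W ⊆ win I cen W' := fun _ hx =>
  mem_win.2 ⟨(mem_win.1 hx).1, (mem_win.1 hx).2.trans h⟩

/-- **THE END OF `freA12`.** -/
theorem endF12 {ζ : Env} {T M i Nn n₂ n₃ P r₀ kk : ℕ} {h cen cen' g cS : ℝ} {p : ℕ → ℝ} {lo hi h' B₁ B₂ yl yr yp XX c₀ A₁ A₂ : ℤ}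
    {l r F : ℤ → ℝ} {a e : Bool → ℤ} {E w ι Ke δ ω₁ ω₁' ω₂ W₂ K rr τ u t₂ cc c₁ c₂ c₃ c₄ Qk S k₅ v gf q₁ q₂ b₁ b₂ kst g₁ Q₁ qq : ℝ}
    {ℓ₂ : ℤ → ℝ} {kp K5 : ℤ → ℤ → ℝ} {S₂ : Finset ℤ} {G ph : ℤ → ℝ} {mp : ℤ} {bθ Q₂ Q₃ s₂ s₃ : ℝ}
    (cf : Cfg12 s (sl μ s) E w T M h p ι Ke δ ω₁' lo hi cen B₁ B₂ yl yr l r XX) (ecS : cS = cen + sl μ s * (T + 1)) (hF : ∀ z, 0 ≤ F z)
    (D : DW31 (Icc lo hi) cen cen' (ω₁ * w) (ω₁' * w) W₂ (kap31 P c₁ c₃ Qk S E w cen cen' Nn) yl yr yp g (q₁ * E) (q₂ * E)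
      (gf * E) (fw (wt ζ) p l i) (fw (wt ζ) p r i) F)
    (St : Sta12 (Icc lo hi) cen (ω₁ * w) (ω₁' * w) (fw (wt ζ) p l i) (fw (wt ζ) p r i) (wt ζ i) yl yr A₁ A₂ r₀ kk u t₂ (τ * E) g qq)
    (hE : 1 ≤ E) (hw : 2 ≤ w) (hδw : 4 < δ * w) (hτ : τ = (kst - g₁) / 24) (hg0 : 0 ≤ g₁) (hg₁ : g₁ < kst) (hτE : 1 ≤ τ * E)
    (hpp : p (i + T) ≤ τ * E) (hΛw : 2 * (Lm12 P c₁ c₄ Qk S k₅ v ω₂ q₂ b₂ Ke τ * w) + 1 ≤ Real.exp (τ * E)) (hpk : ∀ k, 0 < p k)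
    (hr1 : (r₀ : ℝ) ≤ rr) (hr2 : rr < r₀ + 1) (hrw : rr ≤ w / 2) (hrδ : 2 * rr ≤ δ * w / 2) (f3 : |cen - c₀| ≤ 1)
    (a1 : a true = A₁ - c₀) (a2 : a false = A₂ - c₀) (e1 : e true = B₁ - c₀) (e2 : e false = B₂ - c₀)
    (haK : ∀ j, |(a j : ℝ)| ≤ K * w - w) (hK : ω₂ + 1 ≤ K) (hω₁ : ω₁ ≤ ω₁') (hω₂ : ω₁' * w ≤ W₂) (h22 : W₂ ≤ ω₂ * w) (hω₂0 : 0 ≤ ω₂) (hKe : 0 ≤ Ke)
    (hc₁ : 0 < c₁) (hc₄ : c₁ < c₄) (hQk : 0 ≤ Qk)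
    (hgf1 : q₁ + b₁ + kst + c₃ * (ω₁ + Ke + 1) ≤ gf) (hgf2 : q₁ + b₁ + kst + v + k₅ ≤ gf) (hg : 2 * (kst * E - 2) ≤ g)
    (θ₁ : ∀ x ∈ win (Icc lo hi) cen (ω₁' * w), Real.exp (-(b₁ * E)) ≤ wt ζ i x ∧ wt ζ i x ≤ Real.exp (b₁ * E))
    (θ₂ : ∀ x ∈ win (Icc lo hi) cen W₂, Real.exp (-(b₂ * E)) ≤ wt ζ i x ∧ wt ζ i x ≤ Real.exp (b₂ * E))
    (tc : TC12 μ s ζ ((i : ℤ), c₀) T a e (K * w) rr 0
      (Gw12 P c₁ Qk S k₅ v q₂ b₂ (Lm12 P c₁ c₄ Qk S k₅ v ω₂ q₂ b₂ Ke τ) τ g₁ * E) (τ * E) ((u - t₂) / 2))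
    (cm : Cm12 μ s ζ ((i : ℤ), c₀) T (nk μ s h ζ p M i T) (K * w) (Real.exp (τ * E))
      (Real.exp (-((Gw12 P c₁ Qk S k₅ v q₂ b₂ (Lm12 P c₁ c₄ Qk S k₅ v ω₂ q₂ b₂ Ke τ) τ g₁ + 1) * E))))
    (en : En31 P cc c₂ E w Q₁ 1 (fun x => (x : ℝ) - cen) (fun y => (y : ℝ) - cS) (st12 (nk μ s h ζ p M i T) (p (i + T))) (Icc lo hi)
      (Icc lo h'))
    (hbS : ∀ y : ℤ, |(y : ℝ) - cS| ≤ (Ke + 2) * w → y ∈ Icc lo h')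
    (hR : Rest12 P cc c₁ c₂ c₃ c₄ E w Qk S lo hi h' cen cS cen' T Nn n₂ n₃ (wt ζ i) ℓ₂ kp K5 S₂ F G ph mp yp bθ Q₁ Q₂ Q₃ s₂ s₃ k₅
      (Icc (B₁ - r₀) (B₁ + r₀ + 1) ∪ Icc (B₂ - r₀) (B₂ + r₀ + 1))) :
    Sh21.SeamIn lo h' (fw (wt ζ) p l (i + T + 1)) (fw (wt ζ) p r (i + T + 1)) (B₁ - r₀) (B₁ + r₀ + 1) (B₂ - r₀) (B₂ + r₀ + 1) ph
      (Real.exp (-(v * E))) (Real.exp (-(g₁ * E))) := by
  have hE0 : 0 < E := by linarith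
  have hw0 : 0 < w := by linarith
  have hτ0 : 0 < τ := by rw [hτ]; linarith
  have hN := num12F (P := P) (S := S) (q₂ := q₂) (b₂ := b₂) hE0 hc₁ hc₄ hQk hω₂0 hKe hτ hg0 hg₁ hτE hg hgf1 hgf2
  obtain ⟨Λ, hΛ⟩ : ∃ Λ : ℝ, Λ = Lm12 P c₁ c₄ Qk S k₅ v ω₂ q₂ b₂ Ke τ := ⟨_, rfl⟩
  have hΛ1 : ω₂ + (Ke + 2) ≤ Λ := by rw [hΛ]; exact Lm12_ge
  rw [← hΛ] at hN hΛw tc cm
  obtain ⟨Gw, hGw⟩ : ∃ Gw : ℝ, Gw = Gw12 P c₁ Qk S k₅ v q₂ b₂ Λ τ g₁ := ⟨_, rfl⟩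
  have hGw0 : 0 ≤ Gw := by rw [hGw]; exact le_max_left _ _
  rw [← hGw] at hN tc cm
  have hν : 2 ≤ Real.exp (τ * E) := by
    have := Real.add_one_le_exp (τ * E)
    linarith
  have hω2w : ω₁' * w ≤ W₂ := hω₂
  have hd : (0 : ℤ) ≤ r₀ := by positivity
  have hr0R : (0 : ℝ) ≤ r₀ := Nat.cast_nonneg _
  -- the cells
  have cellc : ∀ (b y : ℤ), |(b : ℝ) - cS| ≤ Ke * w → y ∈ Icc (b - (r₀ : ℤ)) (b + r₀ + 1) → |(y : ℝ) - cS| ≤ (Ke + 1) * w := by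
    intro b y hb hy
    rw [mem_Icc] at hy
    have h1 : ((b : ℝ) - r₀) ≤ y := by exact_mod_cast hy.1
    have h2 : (y : ℝ) ≤ b + r₀ + 1 := by exact_mod_cast hy.2
    have h3 := abs_le.1 hb
    rw [abs_le]
    constructor <;> linarith [h3.1, h3.2]
  have cf1 := cf.e1
  have cf2 := cf.e2
  rw [← ecS] at cf1 cf2
  have cellW : ∀ (b : ℤ), |(b : ℝ) - cS| ≤ Ke * w → Icc (b - (r₀ : ℤ)) (b + r₀ + 1) ⊆ win (Icc lo h') cS (Λ * w) := by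
    intro b hb y hy
    have h1 := cellc b y hb hy
    refine mem_win.2 ⟨hbS y (h1.trans ?_), h1.trans (mul_le_mul_of_nonneg_right ?_ hw0.le)⟩
    · exact mul_le_mul_of_nonneg_right (by linarith) hw0.le
    · linarith
  have stW : ∀ (A : ℤ), (∀ x, |x - A| ≤ (r₀ : ℤ) → x ∈ win (Icc lo hi) cen (ω₁' * w)) →
      Icc (A - (r₀ : ℤ)) (A + r₀) ⊆ win (Icc lo hi) cen W₂ := by
    intro A hA x hx
    rw [mem_Icc] at hx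
    exact win_mono hω2w (hA x (by rw [abs_le]; constructor <;> linarith [hx.1, hx.2]))
  have hQQ : Disjoint (Icc (B₁ - (r₀ : ℤ)) (B₁ + r₀ + 1)) (Icc (B₂ - (r₀ : ℤ)) (B₂ + r₀ + 1)) := by
    rw [disjoint_left]
    intro y hy1 hy2
    rw [mem_Icc] at hy1 hy2
    have h1 : (y : ℝ) ≤ B₁ + r₀ + 1 := by exact_mod_cast hy1.2
    have h2 : ((B₂ : ℝ) - r₀) ≤ y := by exact_mod_cast hy2.1
    have h3 := cf.sB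
    linarith
  obtain ⟨dl, ep, hdl, hep, hLn, lv1, lv2, ht⟩ := lanes12 (q := p (i + T)) (ν := τ) (φ := τ) (d := τ) (E := E) (G := Gw) (GF := Gw + 1)
    (r' := (r₀ : ℤ)) (I := Icc lo hi) (W := win (Icc lo hi) cen W₂) (Wy := win (Icc lo h') cS (Λ * w)) (lo := lo) (h' := h')
    a1 a2 e1 e2 tc cm (nk_nonneg hpk i T) hE0 hτ0.le hτ0.le hGw0 hν (by linarith)
    (by
      have h1 := Real.add_one_le_exp ((Gw + 1) * E)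
      have h2 : 1 ≤ (Gw + 1) * E := by nlinarith
      linarith) (hpk _).le
    (by
      have := Real.add_one_le_exp (τ * E)
      linarith)
    (fun j => by
      have := haK j
      linarith) hd (by exact_mod_cast hr1) (by exact_mod_cast hr2)
    (fun x hx => by
      have h1 := (mem_win.1 hx).2
      have h2 := abs_sub_le (x : ℝ) cen c₀
      have h3 := mul_le_mul_of_nonneg_right hK hw0.le
      linarith) (stW A₁ St.w1) (stW A₂ St.w2) win_sub (cellW B₁ cf1) (cellW B₂ cf2) win_sub hQQ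
  refine seamF12 (Λ := Λ) (Ky := Ke + 1) (σ := τ) (ν := τ) (φ := τ) (d := τ) (ε := τ) hpk cf.G.l0 cf.G.r0 cf.l0 hF hR en D St
    hω₁ hω₂ h22 (by linarith) (fun x hx => (θ₁ x hx).1) θ₂ hdl hep hLn lv1 lv2 ht hν hω₂0 hΛw ?_ hN
  intro y hy
  rcases mem_union.1 hy with h1 | h1
  · exact cellc B₁ y cf1 h1
  · exact cellc B₂ y cf2 h1

end

end Pool.Agent.W_7d29a1_C1.S12
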